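import Pool.Agent.Strip051.G.I3_16_5_16.CrnT
import Pool.Agent.Strip051.G.I3_16_5_16.DN_0

/-! # The corner (1, 1, 2): the alternatives (generated) -/

set_option linter.all false

namespace Pool.Agent.Strip051.G.I3_16_5_16.Tab

open Pool.Agent.Strip051.PB Pool.Agent.StripNear Pool.Agent.Strip051.LC

theorem sN_A113_000p {x : ℝ} (hx : ((201326592 : ℕ) : ℝ) / S ≤ x) (hx' : x ≤ (((201326592 : ℕ) : ℝ) + (134217728 : ℕ)) / S) :
    Sg12A PP tKN tL false 3 .nn 1 1 0 0 true 0 57167902 11758673 x :=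
  sg12A_of (P := PP) (RK := tKN) (RL := tL) (Gt := gN) (pc := pcN) (KA := 2) (C0 := c0N) rfl trivial (Or.inl rfl) (Or.inl rfl) (sideN hx hx') gokN (g3okN hx hx') (xr0 hx hx').1 (xr0 hx hx').2 (div_S_le (k := 8) (by norm_num) (by norm_num)) ((gatN01 x).n1) ((gatN01 x).n1) (gatN03 hx hx' _) (gatN13 hx hx') DN.A113_000p ⟨by decide, by decide⟩ hx hx' (fun h => absurd h (by decide))

theorem sN_A113_000m {x : ℝ} (hx : ((201326592 : ℕ) : ℝ) / S ≤ x) (hx' : x ≤ (((201326592 : ℕ) : ℝ) + (134217728 : ℕ)) / S) :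
    Sg12A PP tKN tL false 3 .nn 1 1 0 0 false 0 57167902 11758673 x :=
  sg12A_of (P := PP) (RK := tKN) (RL := tL) (Gt := gN) (pc := pcN) (KA := 2) (C0 := c0N) rfl trivial (Or.inl rfl) (Or.inl rfl) (sideN hx hx') gokN (g3okN hx hx') (xr0 hx hx').1 (xr0 hx hx').2 (div_S_le (k := 8) (by norm_num) (by norm_num)) ((gatN01 x).n1) ((gatN01 x).n1) (gatN03 hx hx' _) (gatN13 hx hx') DN.A113_000m ⟨by decide, by decide⟩ hx hx' (fun h => absurd h (by decide))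

theorem sN_A113_001p {x : ℝ} (hx : ((201326592 : ℕ) : ℝ) / S ≤ x) (hx' : x ≤ (((201326592 : ℕ) : ℝ) + (134217728 : ℕ)) / S) :
    Sg12A PP tKN tL false 3 .nn 1 1 0 0 true 1 57167902 11758673 x :=
  sg12A_of (P := PP) (RK := tKN) (RL := tL) (Gt := gN) (pc := pcN) (KA := 2) (C0 := c0N) rfl trivial (Or.inl rfl) (Or.inl rfl) (sideN hx hx') gokN (g3okN hx hx') (xr0 hx hx').1 (xr0 hx hx').2 (div_S_le (k := 8) (by norm_num) (by norm_num)) ((gatN01 x).n1) ((gatN01 x).n1) (gatN13 hx hx') (gatN23 hx hx') DN.A113_001p ⟨by decide, by decide⟩ hx hx' (fun h => absurd h (by decide))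

theorem sN_A113_001m {x : ℝ} (hx : ((201326592 : ℕ) : ℝ) / S ≤ x) (hx' : x ≤ (((201326592 : ℕ) : ℝ) + (134217728 : ℕ)) / S) :
    Sg12A PP tKN tL false 3 .nn 1 1 0 0 false 1 57167902 11758673 x :=
  sg12A_of (P := PP) (RK := tKN) (RL := tL) (Gt := gN) (pc := pcN) (KA := 2) (C0 := c0N) rfl trivial (Or.inl rfl) (Or.inl rfl) (sideN hx hx') gokN (g3okN hx hx') (xr0 hx hx').1 (xr0 hx hx').2 (div_S_le (k := 8) (by norm_num) (by norm_num)) ((gatN01 x).n1) ((gatN01 x).n1) (gatN13 hx hx') (gatN23 hx hx') DN.A113_001m ⟨by decide, by decide⟩ hx hx' (fun h => absurd h (by decide))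

theorem sN_A113_002p {x : ℝ} (hx : ((201326592 : ℕ) : ℝ) / S ≤ x) (hx' : x ≤ (((201326592 : ℕ) : ℝ) + (134217728 : ℕ)) / S) :
    Sg12A PP tKN tL false 3 .nn 1 1 0 0 true 2 57167902 11758673 x :=
  sg12A_of (P := PP) (RK := tKN) (RL := tL) (Gt := gN) (pc := pcN) (KA := 2) (C0 := c0N) rfl trivial (Or.inl rfl) (Or.inl rfl) (sideN hx hx') gokN (g3okN hx hx') (xr0 hx hx').1 (xr0 hx hx').2 (div_S_le (k := 8) (by norm_num) (by norm_num)) ((gatN01 x).n1) ((gatN01 x).n1) (gatN23 hx hx') (gatN33 hx hx') DN.A113_002p ⟨by norm_num, by norm_num, rfl⟩ hx hx' (fun h => absurd h (by decide))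

theorem sN_A113_002m {x : ℝ} (hx : ((201326592 : ℕ) : ℝ) / S ≤ x) (hx' : x ≤ (((201326592 : ℕ) : ℝ) + (134217728 : ℕ)) / S) :
    Sg12A PP tKN tL false 3 .nn 1 1 0 0 false 2 57167902 11758673 x :=
  sg12A_of (P := PP) (RK := tKN) (RL := tL) (Gt := gN) (pc := pcN) (KA := 2) (C0 := c0N) rfl trivial (Or.inl rfl) (Or.inl rfl) (sideN hx hx') gokN (g3okN hx hx') (xr0 hx hx').1 (xr0 hx hx').2 (div_S_le (k := 8) (by norm_num) (by norm_num)) ((gatN01 x).n1) ((gatN01 x).n1) (gatN23 hx hx') (gatN33 hx hx') DN.A113_002m ⟨by norm_num, by norm_num, rfl⟩ hx hx' (fun h => absurd h (by decide))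

theorem sN_A123_013p {x : ℝ} (hx : ((201326592 : ℕ) : ℝ) / S ≤ x) (hx' : x ≤ (((201326592 : ℕ) : ℝ) + (134217728 : ℕ)) / S) :
    Sg12A PP tKN tL false 3 .npn 1 2 0 1 true 3 57167902 11758673 x :=
  sg12A_of (P := PP) (RK := tKN) (RL := tL) (Gt := gN) (pc := pcN) (KA := 2) (C0 := c0N) rfl trivial (Or.inl rfl) (Or.inr rfl) (sideN hx hx') gokN (g3okN hx hx') (xr0 hx hx').1 (xr0 hx hx').2 (div_S_le (k := 8) (by norm_num) (by norm_num)) ((gatN01 x).n1) ((gatN12 x).n1) (gatN33 hx hx') (gatN43 hx hx') DN.A123_013p ⟨by norm_num, by norm_num, by decide⟩ hx hx' (fun _ y y' F hi => h4_123 (div_S_le (k := 16) (by norm_num) (by norm_num)) (by show rh 1 ≤ 1; simp [rh]; try norm_num) F hi)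

theorem sN_A123_014p {x : ℝ} (hx : ((201326592 : ℕ) : ℝ) / S ≤ x) (hx' : x ≤ (((201326592 : ℕ) : ℝ) + (134217728 : ℕ)) / S) :
    Sg12A PP tKN tL false 3 .npn 1 2 0 1 true 4 57167902 11758673 x :=
  sg12A_of (P := PP) (RK := tKN) (RL := tL) (Gt := gN) (pc := pcN) (KA := 2) (C0 := c0N) rfl trivial (Or.inl rfl) (Or.inr rfl) (sideN hx hx') gokN (g3okN hx hx') (xr0 hx hx').1 (xr0 hx hx').2 (div_S_le (k := 8) (by norm_num) (by norm_num)) ((gatN01 x).n1) ((gatN12 x).n1) (gatN43 hx hx') (gatN53 hx hx') DN.A123_014p ⟨by norm_num, by norm_num, by decide⟩ hx hx' (fun _ y y' F hi => h4_123 (div_S_le (k := 16) (by norm_num) (by norm_num)) (by show rh 1 ≤ 1; simp [rh]; try norm_num) F hi)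

theorem sN_A123_023p {x : ℝ} (hx : ((201326592 : ℕ) : ℝ) / S ≤ x) (hx' : x ≤ (((201326592 : ℕ) : ℝ) + (134217728 : ℕ)) / S) :
    Sg12A PP tKN tL false 3 .npn 1 2 0 2 true 3 57167902 11758673 x :=
  sg12A_of (P := PP) (RK := tKN) (RL := tL) (Gt := gN) (pc := pcN) (KA := 2) (C0 := c0N) rfl trivial (Or.inl rfl) (Or.inr rfl) (sideN hx hx') gokN (g3okN hx hx') (xr0 hx hx').1 (xr0 hx hx').2 (div_S_le (k := 8) (by norm_num) (by norm_num)) ((gatN01 x).n1) ((gatN22 x).n1) (gatN33 hx hx') (gatN43 hx hx') DN.A123_023p ⟨by norm_num, by norm_num, by decide⟩ hx hx' (fun _ y y' F hi => h4_123 (div_S_le (k := 16) (by norm_num) (by norm_num)) (by show rh 2 ≤ 1; simp [rh]; try norm_num) F hi)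

theorem sN_A123_024p {x : ℝ} (hx : ((201326592 : ℕ) : ℝ) / S ≤ x) (hx' : x ≤ (((201326592 : ℕ) : ℝ) + (134217728 : ℕ)) / S) :
    Sg12A PP tKN tL false 3 .npn 1 2 0 2 true 4 57167902 11758673 x :=
  sg12A_of (P := PP) (RK := tKN) (RL := tL) (Gt := gN) (pc := pcN) (KA := 2) (C0 := c0N) rfl trivial (Or.inl rfl) (Or.inr rfl) (sideN hx hx') gokN (g3okN hx hx') (xr0 hx hx').1 (xr0 hx hx').2 (div_S_le (k := 8) (by norm_num) (by norm_num)) ((gatN01 x).n1) ((gatN22 x).n1) (gatN43 hx hx') (gatN53 hx hx') DN.A123_024p ⟨by norm_num, by norm_num, by decide⟩ hx hx' (fun _ y y' F hi => h4_123 (div_S_le (k := 16) (by norm_num) (by norm_num)) (by show rh 2 ≤ 1; simp [rh]; try norm_num) F hi)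

theorem sN_B113_010p {x : ℝ} (hx : ((201326592 : ℕ) : ℝ) / S ≤ x) (hx' : x ≤ (((201326592 : ℕ) : ℝ) + (134217728 : ℕ)) / S) :
    Sg12B PP tKN tL false 3 .nn 1 1 0 1 true 0 57167902 11758673 x :=
  sg12B_of (P := PP) (RK := tKN) (RL := tL) (Gt := gN) (pc := pcN) (KA := 2) (C0 := c0N) rfl trivial (Or.inl rfl) (Or.inl rfl) (lo := true) (up := false) (sideN hx hx') gokN (g3okN hx hx') (xr0 hx hx').1 (xr0 hx hx').2 (div_S_le (k := 8) (by norm_num) (by norm_num)) ((gatN01 x).n1) (gatN13 hx hx') (fun _ => (gatN01 x).n1) (fun _ h => absurd h (by decide)) DN.B113_010p ⟨by decide, by decide⟩ (by norm_num) hx hx'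

theorem sN_X113_011p {x : ℝ} (hx : ((201326592 : ℕ) : ℝ) / S ≤ x) (hx' : x ≤ (((201326592 : ℕ) : ℝ) + (134217728 : ℕ)) / S) :
    Ex12B PP 1 1 0 1 true 1 57167902 11758673 :=
  ex12B_of (P := PP) (RK := tKN) (RL := tL) (Gt := gN) (KA := 2) (C0 := c0N) (x := x) (cn := .nn) rfl trivial (Or.inl rfl) (Or.inl rfl) gokN (g3okN hx hx') (div_S_le (k := 8) (by norm_num) (by norm_num)) ((gatN01 x).n1) (gatN13 hx hx') DN.X113_011p ⟨by decide, by decide⟩ (by norm_num) hx hx'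

theorem sN_B123_010p {x : ℝ} (hx : ((201326592 : ℕ) : ℝ) / S ≤ x) (hx' : x ≤ (((201326592 : ℕ) : ℝ) + (134217728 : ℕ)) / S) :
    Sg12B PP tKN tL false 3 .npn 1 2 0 1 true 0 57167902 11758673 x :=
  sg12B_of (P := PP) (RK := tKN) (RL := tL) (Gt := gN) (pc := pcN) (KA := 2) (C0 := c0N) rfl trivial (Or.inl rfl) (Or.inr rfl) (lo := true) (up := true) (sideN hx hx') gokN (g3okN hx hx') (xr0 hx hx').1 (xr0 hx hx').2 (div_S_le (k := 8) (by norm_num) (by norm_num)) ((gatN01 x).n1) (gatN13 hx hx') (fun _ => (gatN02 x).n1) (fun _ _ => (gatN12 x).n1) DN.B123_010p ⟨by decide, by decide⟩ (by norm_num) hx hx'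

theorem sN_B123_011p {x : ℝ} (hx : ((201326592 : ℕ) : ℝ) / S ≤ x) (hx' : x ≤ (((201326592 : ℕ) : ℝ) + (134217728 : ℕ)) / S) :
    Sg12B PP tKN tL false 3 .npn 1 2 0 1 true 1 57167902 11758673 x :=
  sg12B_of (P := PP) (RK := tKN) (RL := tL) (Gt := gN) (pc := pcN) (KA := 2) (C0 := c0N) rfl trivial (Or.inl rfl) (Or.inr rfl) (lo := true) (up := true) (sideN hx hx') gokN (g3okN hx hx') (xr0 hx hx').1 (xr0 hx hx').2 (div_S_le (k := 8) (by norm_num) (by norm_num)) ((gatN01 x).n1) (gatN13 hx hx') (fun _ => (gatN12 x).n1) (fun _ _ => (gatN22 x).n1) DN.B123_011p ⟨by decide, by decide⟩ (by norm_num) hx hx'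

theorem sN_B123_012p {x : ℝ} (hx : ((201326592 : ℕ) : ℝ) / S ≤ x) (hx' : x ≤ (((201326592 : ℕ) : ℝ) + (134217728 : ℕ)) / S) :
    Sg12B PP tKN tL false 3 .npn 1 2 0 1 true 2 57167902 11758673 x :=
  sg12B_of (P := PP) (RK := tKN) (RL := tL) (Gt := gN) (pc := pcN) (KA := 2) (C0 := c0N) rfl trivial (Or.inl rfl) (Or.inr rfl) (lo := true) (up := false) (sideN hx hx') gokN (g3okN hx hx') (xr0 hx hx').1 (xr0 hx hx').2 (div_S_le (k := 8) (by norm_num) (by norm_num)) ((gatN01 x).n1) (gatN13 hx hx') (fun _ => (gatN22 x).n1) (fun _ h => absurd h (by decide)) DN.B123_012p ⟨by decide, by decide⟩ (by norm_num) hx hx'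

theorem sN_X123_013p {x : ℝ} (hx : ((201326592 : ℕ) : ℝ) / S ≤ x) (hx' : x ≤ (((201326592 : ℕ) : ℝ) + (134217728 : ℕ)) / S) :
    Ex12B PP 1 2 0 1 true 3 57167902 11758673 :=
  ex12B_of (P := PP) (RK := tKN) (RL := tL) (Gt := gN) (KA := 2) (C0 := c0N) (x := x) (cn := .npn) rfl trivial (Or.inl rfl) (Or.inr rfl) gokN (g3okN hx hx') (div_S_le (k := 8) (by norm_num) (by norm_num)) ((gatN01 x).n1) (gatN13 hx hx') DN.X123_013p ⟨by decide, by decide⟩ (by norm_num) hx hx'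

theorem sN_B113_010m {x : ℝ} (hx : ((201326592 : ℕ) : ℝ) / S ≤ x) (hx' : x ≤ (((201326592 : ℕ) : ℝ) + (134217728 : ℕ)) / S) :
    Sg12B PP tKN tL false 3 .nn 1 1 0 1 false 0 57167902 11758673 x :=
  sg12B_of (P := PP) (RK := tKN) (RL := tL) (Gt := gN) (pc := pcN) (KA := 2) (C0 := c0N) rfl trivial (Or.inl rfl) (Or.inl rfl) (lo := true) (up := false) (sideN hx hx') gokN (g3okN hx hx') (xr0 hx hx').1 (xr0 hx hx').2 (div_S_le (k := 8) (by norm_num) (by norm_num)) ((gatN01 x).n1) (gatN13 hx hx') (fun _ => (gatN01 x).n1) (fun _ h => absurd h (by decide)) DN.B113_010m ⟨by decide, by decide⟩ (by norm_num) hx hx'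

theorem sN_X113_011m {x : ℝ} (hx : ((201326592 : ℕ) : ℝ) / S ≤ x) (hx' : x ≤ (((201326592 : ℕ) : ℝ) + (134217728 : ℕ)) / S) :
    Ex12B PP 1 1 0 1 false 1 57167902 11758673 :=
  ex12B_of (P := PP) (RK := tKN) (RL := tL) (Gt := gN) (KA := 2) (C0 := c0N) (x := x) (cn := .nn) rfl trivial (Or.inl rfl) (Or.inl rfl) gokN (g3okN hx hx') (div_S_le (k := 8) (by norm_num) (by norm_num)) ((gatN01 x).n1) (gatN13 hx hx') DN.X113_011m ⟨by decide, by decide⟩ (by norm_num) hx hx'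

theorem sN_B123_010m {x : ℝ} (hx : ((201326592 : ℕ) : ℝ) / S ≤ x) (hx' : x ≤ (((201326592 : ℕ) : ℝ) + (134217728 : ℕ)) / S) :
    Sg12B PP tKN tL false 3 .npn 1 2 0 1 false 0 57167902 11758673 x :=
  sg12B_of (P := PP) (RK := tKN) (RL := tL) (Gt := gN) (pc := pcN) (KA := 2) (C0 := c0N) rfl trivial (Or.inl rfl) (Or.inr rfl) (lo := true) (up := true) (sideN hx hx') gokN (g3okN hx hx') (xr0 hx hx').1 (xr0 hx hx').2 (div_S_le (k := 8) (by norm_num) (by norm_num)) ((gatN01 x).n1) (gatN13 hx hx') (fun _ => (gatN02 x).n1) (fun _ _ => (gatN12 x).n1) DN.B123_010m ⟨by decide, by decide⟩ (by norm_num) hx hx'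

theorem sN_B123_011m {x : ℝ} (hx : ((201326592 : ℕ) : ℝ) / S ≤ x) (hx' : x ≤ (((201326592 : ℕ) : ℝ) + (134217728 : ℕ)) / S) :
    Sg12B PP tKN tL false 3 .npn 1 2 0 1 false 1 57167902 11758673 x :=
  sg12B_of (P := PP) (RK := tKN) (RL := tL) (Gt := gN) (pc := pcN) (KA := 2) (C0 := c0N) rfl trivial (Or.inl rfl) (Or.inr rfl) (lo := true) (up := true) (sideN hx hx') gokN (g3okN hx hx') (xr0 hx hx').1 (xr0 hx hx').2 (div_S_le (k := 8) (by norm_num) (by norm_num)) ((gatN01 x).n1) (gatN13 hx hx') (fun _ => (gatN12 x).n1) (fun _ _ => (gatN22 x).n1) DN.B123_011m ⟨by decide, by decide⟩ (by norm_num) hx hx'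

theorem sN_B123_012m {x : ℝ} (hx : ((201326592 : ℕ) : ℝ) / S ≤ x) (hx' : x ≤ (((201326592 : ℕ) : ℝ) + (134217728 : ℕ)) / S) :
    Sg12B PP tKN tL false 3 .npn 1 2 0 1 false 2 57167902 11758673 x :=
  sg12B_of (P := PP) (RK := tKN) (RL := tL) (Gt := gN) (pc := pcN) (KA := 2) (C0 := c0N) rfl trivial (Or.inl rfl) (Or.inr rfl) (lo := true) (up := false) (sideN hx hx') gokN (g3okN hx hx') (xr0 hx hx').1 (xr0 hx hx').2 (div_S_le (k := 8) (by norm_num) (by norm_num)) ((gatN01 x).n1) (gatN13 hx hx') (fun _ => (gatN22 x).n1) (fun _ h => absurd h (by decide)) DN.B123_012m ⟨by decide, by decide⟩ (by norm_num) hx hx'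

theorem sN_X123_013m {x : ℝ} (hx : ((201326592 : ℕ) : ℝ) / S ≤ x) (hx' : x ≤ (((201326592 : ℕ) : ℝ) + (134217728 : ℕ)) / S) :
    Ex12B PP 1 2 0 1 false 3 57167902 11758673 :=
  ex12B_of (P := PP) (RK := tKN) (RL := tL) (Gt := gN) (KA := 2) (C0 := c0N) (x := x) (cn := .npn) rfl trivial (Or.inl rfl) (Or.inr rfl) gokN (g3okN hx hx') (div_S_le (k := 8) (by norm_num) (by norm_num)) ((gatN01 x).n1) (gatN13 hx hx') DN.X123_013m ⟨by decide, by decide⟩ (by norm_num) hx hx'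

theorem sN_B213_010m {x : ℝ} (hx : ((201326592 : ℕ) : ℝ) / S ≤ x) (hx' : x ≤ (((201326592 : ℕ) : ℝ) + (134217728 : ℕ)) / S) :
    Sg12B PP tKN tL false 3 .pnn 2 1 0 1 false 0 57167902 11758673 x :=
  sg12B_of (P := PP) (RK := tKN) (RL := tL) (Gt := gN) (pc := pcN) (KA := 2) (C0 := c0N) rfl trivial (Or.inr rfl) (Or.inl rfl) (lo := true) (up := false) (sideN hx hx') gokN (g3okN hx hx') (xr0 hx hx').1 (xr0 hx hx').2 (div_S_le (k := 8) (by norm_num) (by norm_num)) ((gatN02 x).n1) (gatN13 hx hx') (fun _ => (gatN01 x).n1) (fun _ h => absurd h (by decide)) DN.B213_010m ⟨by decide, by decide⟩ (by norm_num) hx hx'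

theorem sN_X213_011m {x : ℝ} (hx : ((201326592 : ℕ) : ℝ) / S ≤ x) (hx' : x ≤ (((201326592 : ℕ) : ℝ) + (134217728 : ℕ)) / S) :
    Ex12B PP 2 1 0 1 false 1 57167902 11758673 :=
  ex12B_of (P := PP) (RK := tKN) (RL := tL) (Gt := gN) (KA := 2) (C0 := c0N) (x := x) (cn := .pnn) rfl trivial (Or.inr rfl) (Or.inl rfl) gokN (g3okN hx hx') (div_S_le (k := 8) (by norm_num) (by norm_num)) ((gatN02 x).n1) (gatN13 hx hx') DN.X213_011m ⟨by decide, by decide⟩ (by norm_num) hx hx'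

theorem sN_B213_110m {x : ℝ} (hx : ((201326592 : ℕ) : ℝ) / S ≤ x) (hx' : x ≤ (((201326592 : ℕ) : ℝ) + (134217728 : ℕ)) / S) :
    Sg12B PP tKN tL false 3 .pnn 2 1 1 1 false 0 57167902 11758673 x :=
  sg12B_of (P := PP) (RK := tKN) (RL := tL) (Gt := gN) (pc := pcN) (KA := 2) (C0 := c0N) rfl trivial (Or.inr rfl) (Or.inl rfl) (lo := true) (up := false) (sideN hx hx') gokN (g3okN hx hx') (xr0 hx hx').1 (xr0 hx hx').2 (div_S_le (k := 8) (by norm_num) (by norm_num)) ((gatN12 x).n1) (gatN13 hx hx') (fun _ => (gatN01 x).n1) (fun _ h => absurd h (by decide)) DN.B213_110m ⟨by decide, by decide⟩ (by norm_num) hx hx'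

theorem sN_X213_111m {x : ℝ} (hx : ((201326592 : ℕ) : ℝ) / S ≤ x) (hx' : x ≤ (((201326592 : ℕ) : ℝ) + (134217728 : ℕ)) / S) :
    Ex12B PP 2 1 1 1 false 1 57167902 11758673 :=
  ex12B_of (P := PP) (RK := tKN) (RL := tL) (Gt := gN) (KA := 2) (C0 := c0N) (x := x) (cn := .pnn) rfl trivial (Or.inr rfl) (Or.inl rfl) gokN (g3okN hx hx') (div_S_le (k := 8) (by norm_num) (by norm_num)) ((gatN12 x).n1) (gatN13 hx hx') DN.X213_111m ⟨by decide, by decide⟩ (by norm_num) hx hx'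

theorem sN_B213_210m {x : ℝ} (hx : ((201326592 : ℕ) : ℝ) / S ≤ x) (hx' : x ≤ (((201326592 : ℕ) : ℝ) + (134217728 : ℕ)) / S) :
    Sg12B PP tKN tL false 3 .pnn 2 1 2 1 false 0 57167902 11758673 x :=
  sg12B_of (P := PP) (RK := tKN) (RL := tL) (Gt := gN) (pc := pcN) (KA := 2) (C0 := c0N) rfl trivial (Or.inr rfl) (Or.inl rfl) (lo := true) (up := false) (sideN hx hx') gokN (g3okN hx hx') (xr0 hx hx').1 (xr0 hx hx').2 (div_S_le (k := 8) (by norm_num) (by norm_num)) ((gatN22 x).n1) (gatN13 hx hx') (fun _ => (gatN01 x).n1) (fun _ h => absurd h (by decide)) DN.B213_210m ⟨by decide, by decide⟩ (by norm_num) hx hx'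

theorem sN_X213_211m {x : ℝ} (hx : ((201326592 : ℕ) : ℝ) / S ≤ x) (hx' : x ≤ (((201326592 : ℕ) : ℝ) + (134217728 : ℕ)) / S) :
    Ex12B PP 2 1 2 1 false 1 57167902 11758673 :=
  ex12B_of (P := PP) (RK := tKN) (RL := tL) (Gt := gN) (KA := 2) (C0 := c0N) (x := x) (cn := .pnn) rfl trivial (Or.inr rfl) (Or.inl rfl) gokN (g3okN hx hx') (div_S_le (k := 8) (by norm_num) (by norm_num)) ((gatN22 x).n1) (gatN13 hx hx') DN.X213_211m ⟨by decide, by decide⟩ (by norm_num) hx hx'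

theorem sN_B113_020p {x : ℝ} (hx : ((201326592 : ℕ) : ℝ) / S ≤ x) (hx' : x ≤ (((201326592 : ℕ) : ℝ) + (134217728 : ℕ)) / S) :
    Sg12B PP tKN tL false 3 .nn 1 1 0 2 true 0 57167902 11758673 x :=
  sg12B_of (P := PP) (RK := tKN) (RL := tL) (Gt := gN) (pc := pcN) (KA := 2) (C0 := c0N) rfl trivial (Or.inl rfl) (Or.inl rfl) (lo := true) (up := false) (sideN hx hx') gokN (g3okN hx hx') (xr0 hx hx').1 (xr0 hx hx').2 (div_S_le (k := 8) (by norm_num) (by norm_num)) ((gatN01 x).n1) (gatN23 hx hx') (fun _ => (gatN01 x).n1) (fun _ h => absurd h (by decide)) DN.B113_020p ⟨by decide, by decide⟩ (by norm_num) hx hx'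

theorem sN_X113_021p {x : ℝ} (hx : ((201326592 : ℕ) : ℝ) / S ≤ x) (hx' : x ≤ (((201326592 : ℕ) : ℝ) + (134217728 : ℕ)) / S) :
    Ex12B PP 1 1 0 2 true 1 57167902 11758673 :=
  ex12B_of (P := PP) (RK := tKN) (RL := tL) (Gt := gN) (KA := 2) (C0 := c0N) (x := x) (cn := .nn) rfl trivial (Or.inl rfl) (Or.inl rfl) gokN (g3okN hx hx') (div_S_le (k := 8) (by norm_num) (by norm_num)) ((gatN01 x).n1) (gatN23 hx hx') DN.X113_021p ⟨by decide, by decide⟩ (by norm_num) hx hx'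

theorem sN_B123_020p {x : ℝ} (hx : ((201326592 : ℕ) : ℝ) / S ≤ x) (hx' : x ≤ (((201326592 : ℕ) : ℝ) + (134217728 : ℕ)) / S) :
    Sg12B PP tKN tL false 3 .npn 1 2 0 2 true 0 57167902 11758673 x :=
  sg12B_of (P := PP) (RK := tKN) (RL := tL) (Gt := gN) (pc := pcN) (KA := 2) (C0 := c0N) rfl trivial (Or.inl rfl) (Or.inr rfl) (lo := true) (up := true) (sideN hx hx') gokN (g3okN hx hx') (xr0 hx hx').1 (xr0 hx hx').2 (div_S_le (k := 8) (by norm_num) (by norm_num)) ((gatN01 x).n1) (gatN23 hx hx') (fun _ => (gatN02 x).n1) (fun _ _ => (gatN12 x).n1) DN.B123_020p ⟨by decide, by decide⟩ (by norm_num) hx hx'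

theorem sN_B123_021p {x : ℝ} (hx : ((201326592 : ℕ) : ℝ) / S ≤ x) (hx' : x ≤ (((201326592 : ℕ) : ℝ) + (134217728 : ℕ)) / S) :
    Sg12B PP tKN tL false 3 .npn 1 2 0 2 true 1 57167902 11758673 x :=
  sg12B_of (P := PP) (RK := tKN) (RL := tL) (Gt := gN) (pc := pcN) (KA := 2) (C0 := c0N) rfl trivial (Or.inl rfl) (Or.inr rfl) (lo := true) (up := true) (sideN hx hx') gokN (g3okN hx hx') (xr0 hx hx').1 (xr0 hx hx').2 (div_S_le (k := 8) (by norm_num) (by norm_num)) ((gatN01 x).n1) (gatN23 hx hx') (fun _ => (gatN12 x).n1) (fun _ _ => (gatN22 x).n1) DN.B123_021p ⟨by decide, by decide⟩ (by norm_num) hx hx'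

theorem sN_B123_022p {x : ℝ} (hx : ((201326592 : ℕ) : ℝ) / S ≤ x) (hx' : x ≤ (((201326592 : ℕ) : ℝ) + (134217728 : ℕ)) / S) :
    Sg12B PP tKN tL false 3 .npn 1 2 0 2 true 2 57167902 11758673 x :=
  sg12B_of (P := PP) (RK := tKN) (RL := tL) (Gt := gN) (pc := pcN) (KA := 2) (C0 := c0N) rfl trivial (Or.inl rfl) (Or.inr rfl) (lo := true) (up := false) (sideN hx hx') gokN (g3okN hx hx') (xr0 hx hx').1 (xr0 hx hx').2 (div_S_le (k := 8) (by norm_num) (by norm_num)) ((gatN01 x).n1) (gatN23 hx hx') (fun _ => (gatN22 x).n1) (fun _ h => absurd h (by decide)) DN.B123_022p ⟨by decide, by decide⟩ (by norm_num) hx hx'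

theorem sN_X123_023p {x : ℝ} (hx : ((201326592 : ℕ) : ℝ) / S ≤ x) (hx' : x ≤ (((201326592 : ℕ) : ℝ) + (134217728 : ℕ)) / S) :
    Ex12B PP 1 2 0 2 true 3 57167902 11758673 :=
  ex12B_of (P := PP) (RK := tKN) (RL := tL) (Gt := gN) (KA := 2) (C0 := c0N) (x := x) (cn := .npn) rfl trivial (Or.inl rfl) (Or.inr rfl) gokN (g3okN hx hx') (div_S_le (k := 8) (by norm_num) (by norm_num)) ((gatN01 x).n1) (gatN23 hx hx') DN.X123_023p ⟨by decide, by decide⟩ (by norm_num) hx hx'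

theorem sN_B113_020m {x : ℝ} (hx : ((201326592 : ℕ) : ℝ) / S ≤ x) (hx' : x ≤ (((201326592 : ℕ) : ℝ) + (134217728 : ℕ)) / S) :
    Sg12B PP tKN tL false 3 .nn 1 1 0 2 false 0 57167902 11758673 x :=
  sg12B_of (P := PP) (RK := tKN) (RL := tL) (Gt := gN) (pc := pcN) (KA := 2) (C0 := c0N) rfl trivial (Or.inl rfl) (Or.inl rfl) (lo := true) (up := false) (sideN hx hx') gokN (g3okN hx hx') (xr0 hx hx').1 (xr0 hx hx').2 (div_S_le (k := 8) (by norm_num) (by norm_num)) ((gatN01 x).n1) (gatN23 hx hx') (fun _ => (gatN01 x).n1) (fun _ h => absurd h (by decide)) DN.B113_020m ⟨by decide, by decide⟩ (by norm_num) hx hx'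

theorem sN_X113_021m {x : ℝ} (hx : ((201326592 : ℕ) : ℝ) / S ≤ x) (hx' : x ≤ (((201326592 : ℕ) : ℝ) + (134217728 : ℕ)) / S) :
    Ex12B PP 1 1 0 2 false 1 57167902 11758673 :=
  ex12B_of (P := PP) (RK := tKN) (RL := tL) (Gt := gN) (KA := 2) (C0 := c0N) (x := x) (cn := .nn) rfl trivial (Or.inl rfl) (Or.inl rfl) gokN (g3okN hx hx') (div_S_le (k := 8) (by norm_num) (by norm_num)) ((gatN01 x).n1) (gatN23 hx hx') DN.X113_021m ⟨by decide, by decide⟩ (by norm_num) hx hx'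

theorem sN_B123_020m {x : ℝ} (hx : ((201326592 : ℕ) : ℝ) / S ≤ x) (hx' : x ≤ (((201326592 : ℕ) : ℝ) + (134217728 : ℕ)) / S) :
    Sg12B PP tKN tL false 3 .npn 1 2 0 2 false 0 57167902 11758673 x :=
  sg12B_of (P := PP) (RK := tKN) (RL := tL) (Gt := gN) (pc := pcN) (KA := 2) (C0 := c0N) rfl trivial (Or.inl rfl) (Or.inr rfl) (lo := true) (up := true) (sideN hx hx') gokN (g3okN hx hx') (xr0 hx hx').1 (xr0 hx hx').2 (div_S_le (k := 8) (by norm_num) (by norm_num)) ((gatN01 x).n1) (gatN23 hx hx') (fun _ => (gatN02 x).n1) (fun _ _ => (gatN12 x).n1) DN.B123_020m ⟨by decide, by decide⟩ (by norm_num) hx hx'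

theorem sN_B123_021m {x : ℝ} (hx : ((201326592 : ℕ) : ℝ) / S ≤ x) (hx' : x ≤ (((201326592 : ℕ) : ℝ) + (134217728 : ℕ)) / S) :
    Sg12B PP tKN tL false 3 .npn 1 2 0 2 false 1 57167902 11758673 x :=
  sg12B_of (P := PP) (RK := tKN) (RL := tL) (Gt := gN) (pc := pcN) (KA := 2) (C0 := c0N) rfl trivial (Or.inl rfl) (Or.inr rfl) (lo := true) (up := true) (sideN hx hx') gokN (g3okN hx hx') (xr0 hx hx').1 (xr0 hx hx').2 (div_S_le (k := 8) (by norm_num) (by norm_num)) ((gatN01 x).n1) (gatN23 hx hx') (fun _ => (gatN12 x).n1) (fun _ _ => (gatN22 x).n1) DN.B123_021m ⟨by decide, by decide⟩ (by norm_num) hx hx'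

theorem sN_B123_022m {x : ℝ} (hx : ((201326592 : ℕ) : ℝ) / S ≤ x) (hx' : x ≤ (((201326592 : ℕ) : ℝ) + (134217728 : ℕ)) / S) :
    Sg12B PP tKN tL false 3 .npn 1 2 0 2 false 2 57167902 11758673 x :=
  sg12B_of (P := PP) (RK := tKN) (RL := tL) (Gt := gN) (pc := pcN) (KA := 2) (C0 := c0N) rfl trivial (Or.inl rfl) (Or.inr rfl) (lo := true) (up := false) (sideN hx hx') gokN (g3okN hx hx') (xr0 hx hx').1 (xr0 hx hx').2 (div_S_le (k := 8) (by norm_num) (by norm_num)) ((gatN01 x).n1) (gatN23 hx hx') (fun _ => (gatN22 x).n1) (fun _ h => absurd h (by decide)) DN.B123_022m ⟨by decide, by decide⟩ (by norm_num) hx hx'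

theorem sN_X123_023m {x : ℝ} (hx : ((201326592 : ℕ) : ℝ) / S ≤ x) (hx' : x ≤ (((201326592 : ℕ) : ℝ) + (134217728 : ℕ)) / S) :
    Ex12B PP 1 2 0 2 false 3 57167902 11758673 :=
  ex12B_of (P := PP) (RK := tKN) (RL := tL) (Gt := gN) (KA := 2) (C0 := c0N) (x := x) (cn := .npn) rfl trivial (Or.inl rfl) (Or.inr rfl) gokN (g3okN hx hx') (div_S_le (k := 8) (by norm_num) (by norm_num)) ((gatN01 x).n1) (gatN23 hx hx') DN.X123_023m ⟨by decide, by decide⟩ (by norm_num) hx hx'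

theorem sN_B213_020m {x : ℝ} (hx : ((201326592 : ℕ) : ℝ) / S ≤ x) (hx' : x ≤ (((201326592 : ℕ) : ℝ) + (134217728 : ℕ)) / S) :
    Sg12B PP tKN tL false 3 .pnn 2 1 0 2 false 0 57167902 11758673 x :=
  sg12B_of (P := PP) (RK := tKN) (RL := tL) (Gt := gN) (pc := pcN) (KA := 2) (C0 := c0N) rfl trivial (Or.inr rfl) (Or.inl rfl) (lo := true) (up := false) (sideN hx hx') gokN (g3okN hx hx') (xr0 hx hx').1 (xr0 hx hx').2 (div_S_le (k := 8) (by norm_num) (by norm_num)) ((gatN02 x).n1) (gatN23 hx hx') (fun _ => (gatN01 x).n1) (fun _ h => absurd h (by decide)) DN.B213_020m ⟨by decide, by decide⟩ (by norm_num) hx hx'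

theorem sN_X213_021m {x : ℝ} (hx : ((201326592 : ℕ) : ℝ) / S ≤ x) (hx' : x ≤ (((201326592 : ℕ) : ℝ) + (134217728 : ℕ)) / S) :
    Ex12B PP 2 1 0 2 false 1 57167902 11758673 :=
  ex12B_of (P := PP) (RK := tKN) (RL := tL) (Gt := gN) (KA := 2) (C0 := c0N) (x := x) (cn := .pnn) rfl trivial (Or.inr rfl) (Or.inl rfl) gokN (g3okN hx hx') (div_S_le (k := 8) (by norm_num) (by norm_num)) ((gatN02 x).n1) (gatN23 hx hx') DN.X213_021m ⟨by decide, by decide⟩ (by norm_num) hx hx'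

theorem sN_B213_120m {x : ℝ} (hx : ((201326592 : ℕ) : ℝ) / S ≤ x) (hx' : x ≤ (((201326592 : ℕ) : ℝ) + (134217728 : ℕ)) / S) :
    Sg12B PP tKN tL false 3 .pnn 2 1 1 2 false 0 57167902 11758673 x :=
  sg12B_of (P := PP) (RK := tKN) (RL := tL) (Gt := gN) (pc := pcN) (KA := 2) (C0 := c0N) rfl trivial (Or.inr rfl) (Or.inl rfl) (lo := true) (up := false) (sideN hx hx') gokN (g3okN hx hx') (xr0 hx hx').1 (xr0 hx hx').2 (div_S_le (k := 8) (by norm_num) (by norm_num)) ((gatN12 x).n1) (gatN23 hx hx') (fun _ => (gatN01 x).n1) (fun _ h => absurd h (by decide)) DN.B213_120m ⟨by decide, by decide⟩ (by norm_num) hx hx'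

theorem sN_X213_121m {x : ℝ} (hx : ((201326592 : ℕ) : ℝ) / S ≤ x) (hx' : x ≤ (((201326592 : ℕ) : ℝ) + (134217728 : ℕ)) / S) :
    Ex12B PP 2 1 1 2 false 1 57167902 11758673 :=
  ex12B_of (P := PP) (RK := tKN) (RL := tL) (Gt := gN) (KA := 2) (C0 := c0N) (x := x) (cn := .pnn) rfl trivial (Or.inr rfl) (Or.inl rfl) gokN (g3okN hx hx') (div_S_le (k := 8) (by norm_num) (by norm_num)) ((gatN12 x).n1) (gatN23 hx hx') DN.X213_121m ⟨by decide, by decide⟩ (by norm_num) hx hx'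

theorem sN_B213_220m {x : ℝ} (hx : ((201326592 : ℕ) : ℝ) / S ≤ x) (hx' : x ≤ (((201326592 : ℕ) : ℝ) + (134217728 : ℕ)) / S) :
    Sg12B PP tKN tL false 3 .pnn 2 1 2 2 false 0 57167902 11758673 x :=
  sg12B_of (P := PP) (RK := tKN) (RL := tL) (Gt := gN) (pc := pcN) (KA := 2) (C0 := c0N) rfl trivial (Or.inr rfl) (Or.inl rfl) (lo := true) (up := false) (sideN hx hx') gokN (g3okN hx hx') (xr0 hx hx').1 (xr0 hx hx').2 (div_S_le (k := 8) (by norm_num) (by norm_num)) ((gatN22 x).n1) (gatN23 hx hx') (fun _ => (gatN01 x).n1) (fun _ h => absurd h (by decide)) DN.B213_220m ⟨by decide, by decide⟩ (by norm_num) hx hx'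

theorem sN_X213_221m {x : ℝ} (hx : ((201326592 : ℕ) : ℝ) / S ≤ x) (hx' : x ≤ (((201326592 : ℕ) : ℝ) + (134217728 : ℕ)) / S) :
    Ex12B PP 2 1 2 2 false 1 57167902 11758673 :=
  ex12B_of (P := PP) (RK := tKN) (RL := tL) (Gt := gN) (KA := 2) (C0 := c0N) (x := x) (cn := .pnn) rfl trivial (Or.inr rfl) (Or.inl rfl) gokN (g3okN hx hx') (div_S_le (k := 8) (by norm_num) (by norm_num)) ((gatN22 x).n1) (gatN23 hx hx') DN.X213_221m ⟨by decide, by decide⟩ (by norm_num) hx hx'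

theorem sN_B113_030p {x : ℝ} (hx : ((201326592 : ℕ) : ℝ) / S ≤ x) (hx' : x ≤ (((201326592 : ℕ) : ℝ) + (134217728 : ℕ)) / S) :
    Sg12B PP tKN tL false 3 .nn 1 1 0 3 true 0 57167902 11758673 x :=
  sg12B_of (P := PP) (RK := tKN) (RL := tL) (Gt := gN) (pc := pcN) (KA := 2) (C0 := c0N) rfl trivial (Or.inl rfl) (Or.inl rfl) (lo := true) (up := false) (sideN hx hx') gokN (g3okN hx hx') (xr0 hx hx').1 (xr0 hx hx').2 (div_S_le (k := 8) (by norm_num) (by norm_num)) ((gatN01 x).n1) (gatN33 hx hx') (fun _ => (gatN01 x).n1) (fun _ h => absurd h (by decide)) DN.B113_030p ⟨by norm_num, by norm_num, rfl⟩ (by norm_num) hx hx'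

theorem sN_X113_031p {x : ℝ} (hx : ((201326592 : ℕ) : ℝ) / S ≤ x) (hx' : x ≤ (((201326592 : ℕ) : ℝ) + (134217728 : ℕ)) / S) :
    Ex12B PP 1 1 0 3 true 1 57167902 11758673 :=
  ex12B_of (P := PP) (RK := tKN) (RL := tL) (Gt := gN) (KA := 2) (C0 := c0N) (x := x) (cn := .nn) rfl trivial (Or.inl rfl) (Or.inl rfl) gokN (g3okN hx hx') (div_S_le (k := 8) (by norm_num) (by norm_num)) ((gatN01 x).n1) (gatN33 hx hx') DN.X113_031p ⟨by norm_num, by norm_num, rfl⟩ (by norm_num) hx hx'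

theorem sN_B123_030p {x : ℝ} (hx : ((201326592 : ℕ) : ℝ) / S ≤ x) (hx' : x ≤ (((201326592 : ℕ) : ℝ) + (134217728 : ℕ)) / S) :
    Sg12Bu PP tKN tL false 3 .npn 1 2 0 3 true 0 57167902 11758673 x :=
  sg12Bu_of (P := PP) (RK := tKN) (RL := tL) (Gt := gN) (pc := pcN) (KA := 2) (C0 := c0N) rfl trivial (Or.inl rfl) (Or.inr rfl) (lo := true) (up := true) (sideN hx hx') gokN (g3okN hx hx') (xr0 hx hx').1 (xr0 hx hx').2 (div_S_le (k := 8) (by norm_num) (by norm_num)) ((gatN01 x).n1) (gatN33 hx hx') (fun _ => (gatN02 x).n1) (fun _ _ => (gatN12 x).n1) DN.B123_030p ⟨⟨194621009, by norm_num, by norm_num⟩, by norm_num, by decide⟩ hx hx'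

theorem sN_B123_031p {x : ℝ} (hx : ((201326592 : ℕ) : ℝ) / S ≤ x) (hx' : x ≤ (((201326592 : ℕ) : ℝ) + (134217728 : ℕ)) / S) :
    Sg12B PP tKN tL false 3 .npn 1 2 0 3 true 1 57167902 11758673 x :=
  sg12B_of (P := PP) (RK := tKN) (RL := tL) (Gt := gN) (pc := pcN) (KA := 2) (C0 := c0N) rfl trivial (Or.inl rfl) (Or.inr rfl) (lo := true) (up := true) (sideN hx hx') gokN (g3okN hx hx') (xr0 hx hx').1 (xr0 hx hx').2 (div_S_le (k := 8) (by norm_num) (by norm_num)) ((gatN01 x).n1) (gatN33 hx hx') (fun _ => (gatN12 x).n1) (fun _ _ => (gatN22 x).n1) DN.B123_031p ⟨⟨194621009, by norm_num, by norm_num⟩, by norm_num, by decide⟩ (by norm_num) hx hx'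

theorem sN_B123_032p {x : ℝ} (hx : ((201326592 : ℕ) : ℝ) / S ≤ x) (hx' : x ≤ (((201326592 : ℕ) : ℝ) + (134217728 : ℕ)) / S) :
    Sg12B PP tKN tL false 3 .npn 1 2 0 3 true 2 57167902 11758673 x :=
  sg12B_of (P := PP) (RK := tKN) (RL := tL) (Gt := gN) (pc := pcN) (KA := 2) (C0 := c0N) rfl trivial (Or.inl rfl) (Or.inr rfl) (lo := true) (up := false) (sideN hx hx') gokN (g3okN hx hx') (xr0 hx hx').1 (xr0 hx hx').2 (div_S_le (k := 8) (by norm_num) (by norm_num)) ((gatN01 x).n1) (gatN33 hx hx') (fun _ => (gatN22 x).n1) (fun _ h => absurd h (by decide)) DN.B123_032p ⟨⟨194621009, by norm_num, by norm_num⟩, by norm_num, by decide⟩ (by norm_num) hx hx'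

theorem sN_X123_033p {x : ℝ} (hx : ((201326592 : ℕ) : ℝ) / S ≤ x) (hx' : x ≤ (((201326592 : ℕ) : ℝ) + (134217728 : ℕ)) / S) :
    Ex12B PP 1 2 0 3 true 3 57167902 11758673 :=
  ex12B_of (P := PP) (RK := tKN) (RL := tL) (Gt := gN) (KA := 2) (C0 := c0N) (x := x) (cn := .npn) rfl trivial (Or.inl rfl) (Or.inr rfl) gokN (g3okN hx hx') (div_S_le (k := 8) (by norm_num) (by norm_num)) ((gatN01 x).n1) (gatN33 hx hx') DN.X123_033p ⟨⟨194621009, by norm_num, by norm_num⟩, by norm_num, by decide⟩ (by norm_num) hx hx'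

theorem sN_B113_030m {x : ℝ} (hx : ((201326592 : ℕ) : ℝ) / S ≤ x) (hx' : x ≤ (((201326592 : ℕ) : ℝ) + (134217728 : ℕ)) / S) :
    Sg12B PP tKN tL false 3 .nn 1 1 0 3 false 0 57167902 11758673 x :=
  sg12B_of (P := PP) (RK := tKN) (RL := tL) (Gt := gN) (pc := pcN) (KA := 2) (C0 := c0N) rfl trivial (Or.inl rfl) (Or.inl rfl) (lo := true) (up := false) (sideN hx hx') gokN (g3okN hx hx') (xr0 hx hx').1 (xr0 hx hx').2 (div_S_le (k := 8) (by norm_num) (by norm_num)) ((gatN01 x).n1) (gatN33 hx hx') (fun _ => (gatN01 x).n1) (fun _ h => absurd h (by decide)) DN.B113_030m ⟨by norm_num, by norm_num, rfl⟩ (by norm_num) hx hx'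

theorem sN_X113_031m {x : ℝ} (hx : ((201326592 : ℕ) : ℝ) / S ≤ x) (hx' : x ≤ (((201326592 : ℕ) : ℝ) + (134217728 : ℕ)) / S) :
    Ex12B PP 1 1 0 3 false 1 57167902 11758673 :=
  ex12B_of (P := PP) (RK := tKN) (RL := tL) (Gt := gN) (KA := 2) (C0 := c0N) (x := x) (cn := .nn) rfl trivial (Or.inl rfl) (Or.inl rfl) gokN (g3okN hx hx') (div_S_le (k := 8) (by norm_num) (by norm_num)) ((gatN01 x).n1) (gatN33 hx hx') DN.X113_031m ⟨by norm_num, by norm_num, rfl⟩ (by norm_num) hx hx'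

theorem sN_B123_030m {x : ℝ} (hx : ((201326592 : ℕ) : ℝ) / S ≤ x) (hx' : x ≤ (((201326592 : ℕ) : ℝ) + (134217728 : ℕ)) / S) :
    Sg12B PP tKN tL false 3 .npn 1 2 0 3 false 0 57167902 11758673 x :=
  sg12B_of (P := PP) (RK := tKN) (RL := tL) (Gt := gN) (pc := pcN) (KA := 2) (C0 := c0N) rfl trivial (Or.inl rfl) (Or.inr rfl) (lo := true) (up := true) (sideN hx hx') gokN (g3okN hx hx') (xr0 hx hx').1 (xr0 hx hx').2 (div_S_le (k := 8) (by norm_num) (by norm_num)) ((gatN01 x).n1) (gatN33 hx hx') (fun _ => (gatN02 x).n1) (fun _ _ => (gatN12 x).n1) DN.B123_030m ⟨⟨194621009, by norm_num, by norm_num⟩, by norm_num, by decide⟩ (by norm_num) hx hx'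

theorem sN_B123_031m {x : ℝ} (hx : ((201326592 : ℕ) : ℝ) / S ≤ x) (hx' : x ≤ (((201326592 : ℕ) : ℝ) + (134217728 : ℕ)) / S) :
    Sg12B PP tKN tL false 3 .npn 1 2 0 3 false 1 57167902 11758673 x :=
  sg12B_of (P := PP) (RK := tKN) (RL := tL) (Gt := gN) (pc := pcN) (KA := 2) (C0 := c0N) rfl trivial (Or.inl rfl) (Or.inr rfl) (lo := true) (up := true) (sideN hx hx') gokN (g3okN hx hx') (xr0 hx hx').1 (xr0 hx hx').2 (div_S_le (k := 8) (by norm_num) (by norm_num)) ((gatN01 x).n1) (gatN33 hx hx') (fun _ => (gatN12 x).n1) (fun _ _ => (gatN22 x).n1) DN.B123_031m ⟨⟨194621009, by norm_num, by norm_num⟩, by norm_num, by decide⟩ (by norm_num) hx hx'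

theorem sN_B123_032m {x : ℝ} (hx : ((201326592 : ℕ) : ℝ) / S ≤ x) (hx' : x ≤ (((201326592 : ℕ) : ℝ) + (134217728 : ℕ)) / S) :
    Sg12B PP tKN tL false 3 .npn 1 2 0 3 false 2 57167902 11758673 x :=
  sg12B_of (P := PP) (RK := tKN) (RL := tL) (Gt := gN) (pc := pcN) (KA := 2) (C0 := c0N) rfl trivial (Or.inl rfl) (Or.inr rfl) (lo := true) (up := false) (sideN hx hx') gokN (g3okN hx hx') (xr0 hx hx').1 (xr0 hx hx').2 (div_S_le (k := 8) (by norm_num) (by norm_num)) ((gatN01 x).n1) (gatN33 hx hx') (fun _ => (gatN22 x).n1) (fun _ h => absurd h (by decide)) DN.B123_032m ⟨⟨194621009, by norm_num, by norm_num⟩, by norm_num, by decide⟩ (by norm_num) hx hx'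

theorem sN_B123_033m {x : ℝ} (hx : ((201326592 : ℕ) : ℝ) / S ≤ x) (hx' : x ≤ (((201326592 : ℕ) : ℝ) + (134217728 : ℕ)) / S) :
    Sg12B PP tKN tL false 3 .npn 1 2 0 3 false 3 57167902 11758673 x :=
  sg12B_of (P := PP) (RK := tKN) (RL := tL) (Gt := gN) (pc := pcN) (KA := 2) (C0 := c0N) rfl trivial (Or.inl rfl) (Or.inr rfl) (lo := false) (up := false) (sideN hx hx') gokN (g3okN hx hx') (xr0 hx hx').1 (xr0 hx hx').2 (div_S_le (k := 8) (by norm_num) (by norm_num)) ((gatN01 x).n1) (gatN33 hx hx') (fun h => absurd h (by decide)) (fun h _ => absurd h (by decide)) DN.B123_033m ⟨⟨194621009, by norm_num, by norm_num⟩, by norm_num, by decide⟩ (by norm_num) hx hx'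

theorem sN_X123_034m {x : ℝ} (hx : ((201326592 : ℕ) : ℝ) / S ≤ x) (hx' : x ≤ (((201326592 : ℕ) : ℝ) + (134217728 : ℕ)) / S) :
    Ex12B PP 1 2 0 3 false 4 57167902 11758673 :=
  ex12B_of (P := PP) (RK := tKN) (RL := tL) (Gt := gN) (KA := 2) (C0 := c0N) (x := x) (cn := .npn) rfl trivial (Or.inl rfl) (Or.inr rfl) gokN (g3okN hx hx') (div_S_le (k := 8) (by norm_num) (by norm_num)) ((gatN01 x).n1) (gatN33 hx hx') DN.X123_034m ⟨⟨194621009, by norm_num, by norm_num⟩, by norm_num, by decide⟩ (by norm_num) hx hx'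

theorem sN_X213_031m {x : ℝ} (hx : ((201326592 : ℕ) : ℝ) / S ≤ x) (hx' : x ≤ (((201326592 : ℕ) : ℝ) + (134217728 : ℕ)) / S) :
    Ex12B PP 2 1 0 3 false 1 57167902 11758673 :=
  ex12B_of (P := PP) (RK := tKN) (RL := tL) (Gt := gN) (KA := 2) (C0 := c0N) (x := x) (cn := .pnn) rfl trivial (Or.inr rfl) (Or.inl rfl) gokN (g3okN hx hx') (div_S_le (k := 8) (by norm_num) (by norm_num)) ((gatN02 x).n1) (gatN33 hx hx') DN.X213_031m ⟨⟨194621009, by norm_num, by norm_num⟩, by norm_num, by decide⟩ (by norm_num) hx hx'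

theorem sN_B213_130m {x : ℝ} (hx : ((201326592 : ℕ) : ℝ) / S ≤ x) (hx' : x ≤ (((201326592 : ℕ) : ℝ) + (134217728 : ℕ)) / S) :
    Sg12B PP tKN tL false 3 .pnn 2 1 1 3 false 0 57167902 11758673 x :=
  sg12B_of (P := PP) (RK := tKN) (RL := tL) (Gt := gN) (pc := pcN) (KA := 2) (C0 := c0N) rfl trivial (Or.inr rfl) (Or.inl rfl) (lo := true) (up := false) (sideN hx hx') gokN (g3okN hx hx') (xr0 hx hx').1 (xr0 hx hx').2 (div_S_le (k := 8) (by norm_num) (by norm_num)) ((gatN12 x).n1) (gatN33 hx hx') (fun _ => (gatN01 x).n1) (fun _ h => absurd h (by decide)) DN.B213_130m ⟨⟨194621009, by norm_num, by norm_num⟩, by norm_num, by decide⟩ (by norm_num) hx hx'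

theorem sN_X213_131m {x : ℝ} (hx : ((201326592 : ℕ) : ℝ) / S ≤ x) (hx' : x ≤ (((201326592 : ℕ) : ℝ) + (134217728 : ℕ)) / S) :
    Ex12B PP 2 1 1 3 false 1 57167902 11758673 :=
  ex12B_of (P := PP) (RK := tKN) (RL := tL) (Gt := gN) (KA := 2) (C0 := c0N) (x := x) (cn := .pnn) rfl trivial (Or.inr rfl) (Or.inl rfl) gokN (g3okN hx hx') (div_S_le (k := 8) (by norm_num) (by norm_num)) ((gatN12 x).n1) (gatN33 hx hx') DN.X213_131m ⟨⟨194621009, by norm_num, by norm_num⟩, by norm_num, by decide⟩ (by norm_num) hx hx'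

theorem sN_B213_230m {x : ℝ} (hx : ((201326592 : ℕ) : ℝ) / S ≤ x) (hx' : x ≤ (((201326592 : ℕ) : ℝ) + (134217728 : ℕ)) / S) :
    Sg12B PP tKN tL false 3 .pnn 2 1 2 3 false 0 57167902 11758673 x :=
  sg12B_of (P := PP) (RK := tKN) (RL := tL) (Gt := gN) (pc := pcN) (KA := 2) (C0 := c0N) rfl trivial (Or.inr rfl) (Or.inl rfl) (lo := true) (up := false) (sideN hx hx') gokN (g3okN hx hx') (xr0 hx hx').1 (xr0 hx hx').2 (div_S_le (k := 8) (by norm_num) (by norm_num)) ((gatN22 x).n1) (gatN33 hx hx') (fun _ => (gatN01 x).n1) (fun _ h => absurd h (by decide)) DN.B213_230m ⟨⟨194621009, by norm_num, by norm_num⟩, by norm_num, by decide⟩ (by norm_num) hx hx'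

theorem sN_X213_231m {x : ℝ} (hx : ((201326592 : ℕ) : ℝ) / S ≤ x) (hx' : x ≤ (((201326592 : ℕ) : ℝ) + (134217728 : ℕ)) / S) :
    Ex12B PP 2 1 2 3 false 1 57167902 11758673 :=
  ex12B_of (P := PP) (RK := tKN) (RL := tL) (Gt := gN) (KA := 2) (C0 := c0N) (x := x) (cn := .pnn) rfl trivial (Or.inr rfl) (Or.inl rfl) gokN (g3okN hx hx') (div_S_le (k := 8) (by norm_num) (by norm_num)) ((gatN22 x).n1) (gatN33 hx hx') DN.X213_231m ⟨⟨194621009, by norm_num, by norm_num⟩, by norm_num, by decide⟩ (by norm_num) hx hx'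

theorem sN_B113_040p {x : ℝ} (hx : ((201326592 : ℕ) : ℝ) / S ≤ x) (hx' : x ≤ (((201326592 : ℕ) : ℝ) + (134217728 : ℕ)) / S) :
    Sg12B PP tKN tL false 3 .nn 1 1 0 4 true 0 57167902 11758673 x :=
  sg12B_of (P := PP) (RK := tKN) (RL := tL) (Gt := gN) (pc := pcN) (KA := 2) (C0 := c0N) rfl trivial (Or.inl rfl) (Or.inl rfl) (lo := true) (up := false) (sideN hx hx') gokN (g3okN hx hx') (xr0 hx hx').1 (xr0 hx hx').2 (div_S_le (k := 8) (by norm_num) (by norm_num)) ((gatN01 x).n1) (gatN43 hx hx') (fun _ => (gatN01 x).n1) (fun _ h => absurd h (by decide)) DN.B113_040p ⟨by norm_num, by norm_num, rfl⟩ (by norm_num) hx hx'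

theorem sN_X113_041p {x : ℝ} (hx : ((201326592 : ℕ) : ℝ) / S ≤ x) (hx' : x ≤ (((201326592 : ℕ) : ℝ) + (134217728 : ℕ)) / S) :
    Ex12B PP 1 1 0 4 true 1 57167902 11758673 :=
  ex12B_of (P := PP) (RK := tKN) (RL := tL) (Gt := gN) (KA := 2) (C0 := c0N) (x := x) (cn := .nn) rfl trivial (Or.inl rfl) (Or.inl rfl) gokN (g3okN hx hx') (div_S_le (k := 8) (by norm_num) (by norm_num)) ((gatN01 x).n1) (gatN43 hx hx') DN.X113_041p ⟨by norm_num, by norm_num, rfl⟩ (by norm_num) hx hx'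

theorem sN_B123_040p {x : ℝ} (hx : ((201326592 : ℕ) : ℝ) / S ≤ x) (hx' : x ≤ (((201326592 : ℕ) : ℝ) + (134217728 : ℕ)) / S) :
    Sg12Bu PP tKN tL false 3 .npn 1 2 0 4 true 0 57167902 11758673 x :=
  sg12Bu_of (P := PP) (RK := tKN) (RL := tL) (Gt := gN) (pc := pcN) (KA := 2) (C0 := c0N) rfl trivial (Or.inl rfl) (Or.inr rfl) (lo := true) (up := true) (sideN hx hx') gokN (g3okN hx hx') (xr0 hx hx').1 (xr0 hx hx').2 (div_S_le (k := 8) (by norm_num) (by norm_num)) ((gatN01 x).n1) (gatN43 hx hx') (fun _ => (gatN02 x).n1) (fun _ _ => (gatN12 x).n1) DN.B123_040p ⟨⟨194621009, by norm_num, by norm_num⟩, by norm_num, by decide⟩ hx hx'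

theorem sN_B123_041p {x : ℝ} (hx : ((201326592 : ℕ) : ℝ) / S ≤ x) (hx' : x ≤ (((201326592 : ℕ) : ℝ) + (134217728 : ℕ)) / S) :
    Sg12B PP tKN tL false 3 .npn 1 2 0 4 true 1 57167902 11758673 x :=
  sg12B_of (P := PP) (RK := tKN) (RL := tL) (Gt := gN) (pc := pcN) (KA := 2) (C0 := c0N) rfl trivial (Or.inl rfl) (Or.inr rfl) (lo := true) (up := true) (sideN hx hx') gokN (g3okN hx hx') (xr0 hx hx').1 (xr0 hx hx').2 (div_S_le (k := 8) (by norm_num) (by norm_num)) ((gatN01 x).n1) (gatN43 hx hx') (fun _ => (gatN12 x).n1) (fun _ _ => (gatN22 x).n1) DN.B123_041p ⟨⟨194621009, by norm_num, by norm_num⟩, by norm_num, by decide⟩ (by norm_num) hx hx'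

theorem sN_B123_042p {x : ℝ} (hx : ((201326592 : ℕ) : ℝ) / S ≤ x) (hx' : x ≤ (((201326592 : ℕ) : ℝ) + (134217728 : ℕ)) / S) :
    Sg12B PP tKN tL false 3 .npn 1 2 0 4 true 2 57167902 11758673 x :=
  sg12B_of (P := PP) (RK := tKN) (RL := tL) (Gt := gN) (pc := pcN) (KA := 2) (C0 := c0N) rfl trivial (Or.inl rfl) (Or.inr rfl) (lo := true) (up := false) (sideN hx hx') gokN (g3okN hx hx') (xr0 hx hx').1 (xr0 hx hx').2 (div_S_le (k := 8) (by norm_num) (by norm_num)) ((gatN01 x).n1) (gatN43 hx hx') (fun _ => (gatN22 x).n1) (fun _ h => absurd h (by decide)) DN.B123_042p ⟨⟨194621009, by norm_num, by norm_num⟩, by norm_num, by decide⟩ (by norm_num) hx hx'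

theorem sN_X123_043p {x : ℝ} (hx : ((201326592 : ℕ) : ℝ) / S ≤ x) (hx' : x ≤ (((201326592 : ℕ) : ℝ) + (134217728 : ℕ)) / S) :
    Ex12B PP 1 2 0 4 true 3 57167902 11758673 :=
  ex12B_of (P := PP) (RK := tKN) (RL := tL) (Gt := gN) (KA := 2) (C0 := c0N) (x := x) (cn := .npn) rfl trivial (Or.inl rfl) (Or.inr rfl) gokN (g3okN hx hx') (div_S_le (k := 8) (by norm_num) (by norm_num)) ((gatN01 x).n1) (gatN43 hx hx') DN.X123_043p ⟨⟨194621009, by norm_num, by norm_num⟩, by norm_num, by decide⟩ (by norm_num) hx hx'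

theorem sN_B113_040m {x : ℝ} (hx : ((201326592 : ℕ) : ℝ) / S ≤ x) (hx' : x ≤ (((201326592 : ℕ) : ℝ) + (134217728 : ℕ)) / S) :
    Sg12B PP tKN tL false 3 .nn 1 1 0 4 false 0 57167902 11758673 x :=
  sg12B_of (P := PP) (RK := tKN) (RL := tL) (Gt := gN) (pc := pcN) (KA := 2) (C0 := c0N) rfl trivial (Or.inl rfl) (Or.inl rfl) (lo := true) (up := false) (sideN hx hx') gokN (g3okN hx hx') (xr0 hx hx').1 (xr0 hx hx').2 (div_S_le (k := 8) (by norm_num) (by norm_num)) ((gatN01 x).n1) (gatN43 hx hx') (fun _ => (gatN01 x).n1) (fun _ h => absurd h (by decide)) DN.B113_040m ⟨by norm_num, by norm_num, rfl⟩ (by norm_num) hx hx'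

theorem sN_X113_041m {x : ℝ} (hx : ((201326592 : ℕ) : ℝ) / S ≤ x) (hx' : x ≤ (((201326592 : ℕ) : ℝ) + (134217728 : ℕ)) / S) :
    Ex12B PP 1 1 0 4 false 1 57167902 11758673 :=
  ex12B_of (P := PP) (RK := tKN) (RL := tL) (Gt := gN) (KA := 2) (C0 := c0N) (x := x) (cn := .nn) rfl trivial (Or.inl rfl) (Or.inl rfl) gokN (g3okN hx hx') (div_S_le (k := 8) (by norm_num) (by norm_num)) ((gatN01 x).n1) (gatN43 hx hx') DN.X113_041m ⟨by norm_num, by norm_num, rfl⟩ (by norm_num) hx hx'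

theorem sN_B123_040m {x : ℝ} (hx : ((201326592 : ℕ) : ℝ) / S ≤ x) (hx' : x ≤ (((201326592 : ℕ) : ℝ) + (134217728 : ℕ)) / S) :
    Sg12B PP tKN tL false 3 .npn 1 2 0 4 false 0 57167902 11758673 x :=
  sg12B_of (P := PP) (RK := tKN) (RL := tL) (Gt := gN) (pc := pcN) (KA := 2) (C0 := c0N) rfl trivial (Or.inl rfl) (Or.inr rfl) (lo := true) (up := true) (sideN hx hx') gokN (g3okN hx hx') (xr0 hx hx').1 (xr0 hx hx').2 (div_S_le (k := 8) (by norm_num) (by norm_num)) ((gatN01 x).n1) (gatN43 hx hx') (fun _ => (gatN02 x).n1) (fun _ _ => (gatN12 x).n1) DN.B123_040m ⟨⟨194621009, by norm_num, by norm_num⟩, by norm_num, by decide⟩ (by norm_num) hx hx'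

theorem sN_B123_041m {x : ℝ} (hx : ((201326592 : ℕ) : ℝ) / S ≤ x) (hx' : x ≤ (((201326592 : ℕ) : ℝ) + (134217728 : ℕ)) / S) :
    Sg12B PP tKN tL false 3 .npn 1 2 0 4 false 1 57167902 11758673 x :=
  sg12B_of (P := PP) (RK := tKN) (RL := tL) (Gt := gN) (pc := pcN) (KA := 2) (C0 := c0N) rfl trivial (Or.inl rfl) (Or.inr rfl) (lo := true) (up := true) (sideN hx hx') gokN (g3okN hx hx') (xr0 hx hx').1 (xr0 hx hx').2 (div_S_le (k := 8) (by norm_num) (by norm_num)) ((gatN01 x).n1) (gatN43 hx hx') (fun _ => (gatN12 x).n1) (fun _ _ => (gatN22 x).n1) DN.B123_041m ⟨⟨194621009, by norm_num, by norm_num⟩, by norm_num, by decide⟩ (by norm_num) hx hx'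

theorem sN_B123_042m {x : ℝ} (hx : ((201326592 : ℕ) : ℝ) / S ≤ x) (hx' : x ≤ (((201326592 : ℕ) : ℝ) + (134217728 : ℕ)) / S) :
    Sg12B PP tKN tL false 3 .npn 1 2 0 4 false 2 57167902 11758673 x :=
  sg12B_of (P := PP) (RK := tKN) (RL := tL) (Gt := gN) (pc := pcN) (KA := 2) (C0 := c0N) rfl trivial (Or.inl rfl) (Or.inr rfl) (lo := true) (up := false) (sideN hx hx') gokN (g3okN hx hx') (xr0 hx hx').1 (xr0 hx hx').2 (div_S_le (k := 8) (by norm_num) (by norm_num)) ((gatN01 x).n1) (gatN43 hx hx') (fun _ => (gatN22 x).n1) (fun _ h => absurd h (by decide)) DN.B123_042m ⟨⟨194621009, by norm_num, by norm_num⟩, by norm_num, by decide⟩ (by norm_num) hx hx'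

theorem sN_B123_043m {x : ℝ} (hx : ((201326592 : ℕ) : ℝ) / S ≤ x) (hx' : x ≤ (((201326592 : ℕ) : ℝ) + (134217728 : ℕ)) / S) :
    Sg12B PP tKN tL false 3 .npn 1 2 0 4 false 3 57167902 11758673 x :=
  sg12B_of (P := PP) (RK := tKN) (RL := tL) (Gt := gN) (pc := pcN) (KA := 2) (C0 := c0N) rfl trivial (Or.inl rfl) (Or.inr rfl) (lo := false) (up := false) (sideN hx hx') gokN (g3okN hx hx') (xr0 hx hx').1 (xr0 hx hx').2 (div_S_le (k := 8) (by norm_num) (by norm_num)) ((gatN01 x).n1) (gatN43 hx hx') (fun h => absurd h (by decide)) (fun h _ => absurd h (by decide)) DN.B123_043m ⟨⟨194621009, by norm_num, by norm_num⟩, by norm_num, by decide⟩ (by norm_num) hx hx'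

theorem sN_X123_044m {x : ℝ} (hx : ((201326592 : ℕ) : ℝ) / S ≤ x) (hx' : x ≤ (((201326592 : ℕ) : ℝ) + (134217728 : ℕ)) / S) :
    Ex12B PP 1 2 0 4 false 4 57167902 11758673 :=
  ex12B_of (P := PP) (RK := tKN) (RL := tL) (Gt := gN) (KA := 2) (C0 := c0N) (x := x) (cn := .npn) rfl trivial (Or.inl rfl) (Or.inr rfl) gokN (g3okN hx hx') (div_S_le (k := 8) (by norm_num) (by norm_num)) ((gatN01 x).n1) (gatN43 hx hx') DN.X123_044m ⟨⟨194621009, by norm_num, by norm_num⟩, by norm_num, by decide⟩ (by norm_num) hx hx'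

theorem sN_X213_041m {x : ℝ} (hx : ((201326592 : ℕ) : ℝ) / S ≤ x) (hx' : x ≤ (((201326592 : ℕ) : ℝ) + (134217728 : ℕ)) / S) :
    Ex12B PP 2 1 0 4 false 1 57167902 11758673 :=
  ex12B_of (P := PP) (RK := tKN) (RL := tL) (Gt := gN) (KA := 2) (C0 := c0N) (x := x) (cn := .pnn) rfl trivial (Or.inr rfl) (Or.inl rfl) gokN (g3okN hx hx') (div_S_le (k := 8) (by norm_num) (by norm_num)) ((gatN02 x).n1) (gatN43 hx hx') DN.X213_041m ⟨⟨194621009, by norm_num, by norm_num⟩, by norm_num, by decide⟩ (by norm_num) hx hx'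

theorem sN_B213_140m {x : ℝ} (hx : ((201326592 : ℕ) : ℝ) / S ≤ x) (hx' : x ≤ (((201326592 : ℕ) : ℝ) + (134217728 : ℕ)) / S) :
    Sg12B PP tKN tL false 3 .pnn 2 1 1 4 false 0 57167902 11758673 x :=
  sg12B_of (P := PP) (RK := tKN) (RL := tL) (Gt := gN) (pc := pcN) (KA := 2) (C0 := c0N) rfl trivial (Or.inr rfl) (Or.inl rfl) (lo := true) (up := false) (sideN hx hx') gokN (g3okN hx hx') (xr0 hx hx').1 (xr0 hx hx').2 (div_S_le (k := 8) (by norm_num) (by norm_num)) ((gatN12 x).n1) (gatN43 hx hx') (fun _ => (gatN01 x).n1) (fun _ h => absurd h (by decide)) DN.B213_140m ⟨⟨194621009, by norm_num, by norm_num⟩, by norm_num, by decide⟩ (by norm_num) hx hx'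

theorem sN_X213_141m {x : ℝ} (hx : ((201326592 : ℕ) : ℝ) / S ≤ x) (hx' : x ≤ (((201326592 : ℕ) : ℝ) + (134217728 : ℕ)) / S) :
    Ex12B PP 2 1 1 4 false 1 57167902 11758673 :=
  ex12B_of (P := PP) (RK := tKN) (RL := tL) (Gt := gN) (KA := 2) (C0 := c0N) (x := x) (cn := .pnn) rfl trivial (Or.inr rfl) (Or.inl rfl) gokN (g3okN hx hx') (div_S_le (k := 8) (by norm_num) (by norm_num)) ((gatN12 x).n1) (gatN43 hx hx') DN.X213_141m ⟨⟨194621009, by norm_num, by norm_num⟩, by norm_num, by decide⟩ (by norm_num) hx hx'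

theorem sN_B213_240m {x : ℝ} (hx : ((201326592 : ℕ) : ℝ) / S ≤ x) (hx' : x ≤ (((201326592 : ℕ) : ℝ) + (134217728 : ℕ)) / S) :
    Sg12B PP tKN tL false 3 .pnn 2 1 2 4 false 0 57167902 11758673 x :=
  sg12B_of (P := PP) (RK := tKN) (RL := tL) (Gt := gN) (pc := pcN) (KA := 2) (C0 := c0N) rfl trivial (Or.inr rfl) (Or.inl rfl) (lo := true) (up := false) (sideN hx hx') gokN (g3okN hx hx') (xr0 hx hx').1 (xr0 hx hx').2 (div_S_le (k := 8) (by norm_num) (by norm_num)) ((gatN22 x).n1) (gatN43 hx hx') (fun _ => (gatN01 x).n1) (fun _ h => absurd h (by decide)) DN.B213_240m ⟨⟨194621009, by norm_num, by norm_num⟩, by norm_num, by decide⟩ (by norm_num) hx hx'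

theorem sN_X213_241m {x : ℝ} (hx : ((201326592 : ℕ) : ℝ) / S ≤ x) (hx' : x ≤ (((201326592 : ℕ) : ℝ) + (134217728 : ℕ)) / S) :
    Ex12B PP 2 1 2 4 false 1 57167902 11758673 :=
  ex12B_of (P := PP) (RK := tKN) (RL := tL) (Gt := gN) (KA := 2) (C0 := c0N) (x := x) (cn := .pnn) rfl trivial (Or.inr rfl) (Or.inl rfl) gokN (g3okN hx hx') (div_S_le (k := 8) (by norm_num) (by norm_num)) ((gatN22 x).n1) (gatN43 hx hx') DN.X213_241m ⟨⟨194621009, by norm_num, by norm_num⟩, by norm_num, by decide⟩ (by norm_num) hx hx'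

theorem sN_B113_050p {x : ℝ} (hx : ((201326592 : ℕ) : ℝ) / S ≤ x) (hx' : x ≤ (((201326592 : ℕ) : ℝ) + (134217728 : ℕ)) / S) :
    Sg12B PP tKN tL false 3 .nn 1 1 0 5 true 0 57167902 11758673 x :=
  sg12B_of (P := PP) (RK := tKN) (RL := tL) (Gt := gN) (pc := pcN) (KA := 2) (C0 := c0N) rfl trivial (Or.inl rfl) (Or.inl rfl) (lo := true) (up := false) (sideN hx hx') gokN (g3okN hx hx') (xr0 hx hx').1 (xr0 hx hx').2 (div_S_le (k := 8) (by norm_num) (by norm_num)) ((gatN01 x).n1) (gatN53 hx hx') (fun _ => (gatN01 x).n1) (fun _ h => absurd h (by decide)) DN.B113_050p ⟨by norm_num, by norm_num, rfl⟩ (by norm_num) hx hx'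

theorem sN_X113_051p {x : ℝ} (hx : ((201326592 : ℕ) : ℝ) / S ≤ x) (hx' : x ≤ (((201326592 : ℕ) : ℝ) + (134217728 : ℕ)) / S) :
    Ex12B PP 1 1 0 5 true 1 57167902 11758673 :=
  ex12B_of (P := PP) (RK := tKN) (RL := tL) (Gt := gN) (KA := 2) (C0 := c0N) (x := x) (cn := .nn) rfl trivial (Or.inl rfl) (Or.inl rfl) gokN (g3okN hx hx') (div_S_le (k := 8) (by norm_num) (by norm_num)) ((gatN01 x).n1) (gatN53 hx hx') DN.X113_051p ⟨by norm_num, by norm_num, rfl⟩ (by norm_num) hx hx'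

theorem sN_B123_050p {x : ℝ} (hx : ((201326592 : ℕ) : ℝ) / S ≤ x) (hx' : x ≤ (((201326592 : ℕ) : ℝ) + (134217728 : ℕ)) / S) :
    Sg12Bu PP tKN tL false 3 .npn 1 2 0 5 true 0 57167902 11758673 x :=
  sg12Bu_of (P := PP) (RK := tKN) (RL := tL) (Gt := gN) (pc := pcN) (KA := 2) (C0 := c0N) rfl trivial (Or.inl rfl) (Or.inr rfl) (lo := true) (up := true) (sideN hx hx') gokN (g3okN hx hx') (xr0 hx hx').1 (xr0 hx hx').2 (div_S_le (k := 8) (by norm_num) (by norm_num)) ((gatN01 x).n1) (gatN53 hx hx') (fun _ => (gatN02 x).n1) (fun _ _ => (gatN12 x).n1) DN.B123_050p ⟨⟨194621009, by norm_num, by norm_num⟩, by norm_num, by decide⟩ hx hx'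

theorem sN_B123_051p {x : ℝ} (hx : ((201326592 : ℕ) : ℝ) / S ≤ x) (hx' : x ≤ (((201326592 : ℕ) : ℝ) + (134217728 : ℕ)) / S) :
    Sg12B PP tKN tL false 3 .npn 1 2 0 5 true 1 57167902 11758673 x :=
  sg12B_of (P := PP) (RK := tKN) (RL := tL) (Gt := gN) (pc := pcN) (KA := 2) (C0 := c0N) rfl trivial (Or.inl rfl) (Or.inr rfl) (lo := true) (up := true) (sideN hx hx') gokN (g3okN hx hx') (xr0 hx hx').1 (xr0 hx hx').2 (div_S_le (k := 8) (by norm_num) (by norm_num)) ((gatN01 x).n1) (gatN53 hx hx') (fun _ => (gatN12 x).n1) (fun _ _ => (gatN22 x).n1) DN.B123_051p ⟨⟨194621009, by norm_num, by norm_num⟩, by norm_num, by decide⟩ (by norm_num) hx hx'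

theorem sN_B123_052p {x : ℝ} (hx : ((201326592 : ℕ) : ℝ) / S ≤ x) (hx' : x ≤ (((201326592 : ℕ) : ℝ) + (134217728 : ℕ)) / S) :
    Sg12B PP tKN tL false 3 .npn 1 2 0 5 true 2 57167902 11758673 x :=
  sg12B_of (P := PP) (RK := tKN) (RL := tL) (Gt := gN) (pc := pcN) (KA := 2) (C0 := c0N) rfl trivial (Or.inl rfl) (Or.inr rfl) (lo := true) (up := false) (sideN hx hx') gokN (g3okN hx hx') (xr0 hx hx').1 (xr0 hx hx').2 (div_S_le (k := 8) (by norm_num) (by norm_num)) ((gatN01 x).n1) (gatN53 hx hx') (fun _ => (gatN22 x).n1) (fun _ h => absurd h (by decide)) DN.B123_052p ⟨⟨194621009, by norm_num, by norm_num⟩, by norm_num, by decide⟩ (by norm_num) hx hx'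

theorem sN_X123_053p {x : ℝ} (hx : ((201326592 : ℕ) : ℝ) / S ≤ x) (hx' : x ≤ (((201326592 : ℕ) : ℝ) + (134217728 : ℕ)) / S) :
    Ex12B PP 1 2 0 5 true 3 57167902 11758673 :=
  ex12B_of (P := PP) (RK := tKN) (RL := tL) (Gt := gN) (KA := 2) (C0 := c0N) (x := x) (cn := .npn) rfl trivial (Or.inl rfl) (Or.inr rfl) gokN (g3okN hx hx') (div_S_le (k := 8) (by norm_num) (by norm_num)) ((gatN01 x).n1) (gatN53 hx hx') DN.X123_053p ⟨⟨194621009, by norm_num, by norm_num⟩, by norm_num, by decide⟩ (by norm_num) hx hx'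

theorem sN_B113_050m {x : ℝ} (hx : ((201326592 : ℕ) : ℝ) / S ≤ x) (hx' : x ≤ (((201326592 : ℕ) : ℝ) + (134217728 : ℕ)) / S) :
    Sg12B PP tKN tL false 3 .nn 1 1 0 5 false 0 57167902 11758673 x :=
  sg12B_of (P := PP) (RK := tKN) (RL := tL) (Gt := gN) (pc := pcN) (KA := 2) (C0 := c0N) rfl trivial (Or.inl rfl) (Or.inl rfl) (lo := true) (up := false) (sideN hx hx') gokN (g3okN hx hx') (xr0 hx hx').1 (xr0 hx hx').2 (div_S_le (k := 8) (by norm_num) (by norm_num)) ((gatN01 x).n1) (gatN53 hx hx') (fun _ => (gatN01 x).n1) (fun _ h => absurd h (by decide)) DN.B113_050m ⟨by norm_num, by norm_num, rfl⟩ (by norm_num) hx hx'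

theorem sN_X113_051m {x : ℝ} (hx : ((201326592 : ℕ) : ℝ) / S ≤ x) (hx' : x ≤ (((201326592 : ℕ) : ℝ) + (134217728 : ℕ)) / S) :
    Ex12B PP 1 1 0 5 false 1 57167902 11758673 :=
  ex12B_of (P := PP) (RK := tKN) (RL := tL) (Gt := gN) (KA := 2) (C0 := c0N) (x := x) (cn := .nn) rfl trivial (Or.inl rfl) (Or.inl rfl) gokN (g3okN hx hx') (div_S_le (k := 8) (by norm_num) (by norm_num)) ((gatN01 x).n1) (gatN53 hx hx') DN.X113_051m ⟨by norm_num, by norm_num, rfl⟩ (by norm_num) hx hx'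

theorem sN_B123_050m {x : ℝ} (hx : ((201326592 : ℕ) : ℝ) / S ≤ x) (hx' : x ≤ (((201326592 : ℕ) : ℝ) + (134217728 : ℕ)) / S) :
    Sg12B PP tKN tL false 3 .npn 1 2 0 5 false 0 57167902 11758673 x :=
  sg12B_of (P := PP) (RK := tKN) (RL := tL) (Gt := gN) (pc := pcN) (KA := 2) (C0 := c0N) rfl trivial (Or.inl rfl) (Or.inr rfl) (lo := true) (up := true) (sideN hx hx') gokN (g3okN hx hx') (xr0 hx hx').1 (xr0 hx hx').2 (div_S_le (k := 8) (by norm_num) (by norm_num)) ((gatN01 x).n1) (gatN53 hx hx') (fun _ => (gatN02 x).n1) (fun _ _ => (gatN12 x).n1) DN.B123_050m ⟨⟨194621009, by norm_num, by norm_num⟩, by norm_num, by decide⟩ (by norm_num) hx hx'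

theorem sN_B123_051m {x : ℝ} (hx : ((201326592 : ℕ) : ℝ) / S ≤ x) (hx' : x ≤ (((201326592 : ℕ) : ℝ) + (134217728 : ℕ)) / S) :
    Sg12B PP tKN tL false 3 .npn 1 2 0 5 false 1 57167902 11758673 x :=
  sg12B_of (P := PP) (RK := tKN) (RL := tL) (Gt := gN) (pc := pcN) (KA := 2) (C0 := c0N) rfl trivial (Or.inl rfl) (Or.inr rfl) (lo := true) (up := true) (sideN hx hx') gokN (g3okN hx hx') (xr0 hx hx').1 (xr0 hx hx').2 (div_S_le (k := 8) (by norm_num) (by norm_num)) ((gatN01 x).n1) (gatN53 hx hx') (fun _ => (gatN12 x).n1) (fun _ _ => (gatN22 x).n1) DN.B123_051m ⟨⟨194621009, by norm_num, by norm_num⟩, by norm_num, by decide⟩ (by norm_num) hx hx'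

theorem sN_B123_052m {x : ℝ} (hx : ((201326592 : ℕ) : ℝ) / S ≤ x) (hx' : x ≤ (((201326592 : ℕ) : ℝ) + (134217728 : ℕ)) / S) :
    Sg12B PP tKN tL false 3 .npn 1 2 0 5 false 2 57167902 11758673 x :=
  sg12B_of (P := PP) (RK := tKN) (RL := tL) (Gt := gN) (pc := pcN) (KA := 2) (C0 := c0N) rfl trivial (Or.inl rfl) (Or.inr rfl) (lo := true) (up := false) (sideN hx hx') gokN (g3okN hx hx') (xr0 hx hx').1 (xr0 hx hx').2 (div_S_le (k := 8) (by norm_num) (by norm_num)) ((gatN01 x).n1) (gatN53 hx hx') (fun _ => (gatN22 x).n1) (fun _ h => absurd h (by decide)) DN.B123_052m ⟨⟨194621009, by norm_num, by norm_num⟩, by norm_num, by decide⟩ (by norm_num) hx hx'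

theorem sN_B123_053m {x : ℝ} (hx : ((201326592 : ℕ) : ℝ) / S ≤ x) (hx' : x ≤ (((201326592 : ℕ) : ℝ) + (134217728 : ℕ)) / S) :
    Sg12B PP tKN tL false 3 .npn 1 2 0 5 false 3 57167902 11758673 x :=
  sg12B_of (P := PP) (RK := tKN) (RL := tL) (Gt := gN) (pc := pcN) (KA := 2) (C0 := c0N) rfl trivial (Or.inl rfl) (Or.inr rfl) (lo := false) (up := false) (sideN hx hx') gokN (g3okN hx hx') (xr0 hx hx').1 (xr0 hx hx').2 (div_S_le (k := 8) (by norm_num) (by norm_num)) ((gatN01 x).n1) (gatN53 hx hx') (fun h => absurd h (by decide)) (fun h _ => absurd h (by decide)) DN.B123_053m ⟨⟨194621009, by norm_num, by norm_num⟩, by norm_num, by decide⟩ (by norm_num) hx hx'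

theorem sN_X123_054m {x : ℝ} (hx : ((201326592 : ℕ) : ℝ) / S ≤ x) (hx' : x ≤ (((201326592 : ℕ) : ℝ) + (134217728 : ℕ)) / S) :
    Ex12B PP 1 2 0 5 false 4 57167902 11758673 :=
  ex12B_of (P := PP) (RK := tKN) (RL := tL) (Gt := gN) (KA := 2) (C0 := c0N) (x := x) (cn := .npn) rfl trivial (Or.inl rfl) (Or.inr rfl) gokN (g3okN hx hx') (div_S_le (k := 8) (by norm_num) (by norm_num)) ((gatN01 x).n1) (gatN53 hx hx') DN.X123_054m ⟨⟨194621009, by norm_num, by norm_num⟩, by norm_num, by decide⟩ (by norm_num) hx hx'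

theorem sN_X213_051m {x : ℝ} (hx : ((201326592 : ℕ) : ℝ) / S ≤ x) (hx' : x ≤ (((201326592 : ℕ) : ℝ) + (134217728 : ℕ)) / S) :
    Ex12B PP 2 1 0 5 false 1 57167902 11758673 :=
  ex12B_of (P := PP) (RK := tKN) (RL := tL) (Gt := gN) (KA := 2) (C0 := c0N) (x := x) (cn := .pnn) rfl trivial (Or.inr rfl) (Or.inl rfl) gokN (g3okN hx hx') (div_S_le (k := 8) (by norm_num) (by norm_num)) ((gatN02 x).n1) (gatN53 hx hx') DN.X213_051m ⟨⟨194621009, by norm_num, by norm_num⟩, by norm_num, by decide⟩ (by norm_num) hx hx'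

theorem sN_B213_150m {x : ℝ} (hx : ((201326592 : ℕ) : ℝ) / S ≤ x) (hx' : x ≤ (((201326592 : ℕ) : ℝ) + (134217728 : ℕ)) / S) :
    Sg12B PP tKN tL false 3 .pnn 2 1 1 5 false 0 57167902 11758673 x :=
  sg12B_of (P := PP) (RK := tKN) (RL := tL) (Gt := gN) (pc := pcN) (KA := 2) (C0 := c0N) rfl trivial (Or.inr rfl) (Or.inl rfl) (lo := true) (up := false) (sideN hx hx') gokN (g3okN hx hx') (xr0 hx hx').1 (xr0 hx hx').2 (div_S_le (k := 8) (by norm_num) (by norm_num)) ((gatN12 x).n1) (gatN53 hx hx') (fun _ => (gatN01 x).n1) (fun _ h => absurd h (by decide)) DN.B213_150m ⟨⟨194621009, by norm_num, by norm_num⟩, by norm_num, by decide⟩ (by norm_num) hx hx'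

theorem sN_X213_151m {x : ℝ} (hx : ((201326592 : ℕ) : ℝ) / S ≤ x) (hx' : x ≤ (((201326592 : ℕ) : ℝ) + (134217728 : ℕ)) / S) :
    Ex12B PP 2 1 1 5 false 1 57167902 11758673 :=
  ex12B_of (P := PP) (RK := tKN) (RL := tL) (Gt := gN) (KA := 2) (C0 := c0N) (x := x) (cn := .pnn) rfl trivial (Or.inr rfl) (Or.inl rfl) gokN (g3okN hx hx') (div_S_le (k := 8) (by norm_num) (by norm_num)) ((gatN12 x).n1) (gatN53 hx hx') DN.X213_151m ⟨⟨194621009, by norm_num, by norm_num⟩, by norm_num, by decide⟩ (by norm_num) hx hx'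

theorem sN_B213_250m {x : ℝ} (hx : ((201326592 : ℕ) : ℝ) / S ≤ x) (hx' : x ≤ (((201326592 : ℕ) : ℝ) + (134217728 : ℕ)) / S) :
    Sg12B PP tKN tL false 3 .pnn 2 1 2 5 false 0 57167902 11758673 x :=
  sg12B_of (P := PP) (RK := tKN) (RL := tL) (Gt := gN) (pc := pcN) (KA := 2) (C0 := c0N) rfl trivial (Or.inr rfl) (Or.inl rfl) (lo := true) (up := false) (sideN hx hx') gokN (g3okN hx hx') (xr0 hx hx').1 (xr0 hx hx').2 (div_S_le (k := 8) (by norm_num) (by norm_num)) ((gatN22 x).n1) (gatN53 hx hx') (fun _ => (gatN01 x).n1) (fun _ h => absurd h (by decide)) DN.B213_250m ⟨⟨194621009, by norm_num, by norm_num⟩, by norm_num, by decide⟩ (by norm_num) hx hx'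

theorem sN_X213_251m {x : ℝ} (hx : ((201326592 : ℕ) : ℝ) / S ≤ x) (hx' : x ≤ (((201326592 : ℕ) : ℝ) + (134217728 : ℕ)) / S) :
    Ex12B PP 2 1 2 5 false 1 57167902 11758673 :=
  ex12B_of (P := PP) (RK := tKN) (RL := tL) (Gt := gN) (KA := 2) (C0 := c0N) (x := x) (cn := .pnn) rfl trivial (Or.inr rfl) (Or.inl rfl) gokN (g3okN hx hx') (div_S_le (k := 8) (by norm_num) (by norm_num)) ((gatN22 x).n1) (gatN53 hx hx') DN.X213_251m ⟨⟨194621009, by norm_num, by norm_num⟩, by norm_num, by decide⟩ (by norm_num) hx hx'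

theorem alt12N_A113_00 {κ x : ℝ} (hκ : κ * h0 = ken x) (hx : ((201326592 : ℕ) : ℝ) / S ≤ x) (hx' : x ≤ (((201326592 : ℕ) : ℝ) + (134217728 : ℕ)) / S) :
    AltA (VN 3 κ) PP tKN tL pcN [⟨0, 1, 0, 57167902⟩, ⟨1, 1, 0, 57167902⟩, ⟨2, 2, 0, 11758673⟩] 1 1 3 0 0 (sgb true) (sgb false) x := by
  refine altA12 (loc113 (m := 3) (by show 1 ≤ rh 3; simp [rh]; try norm_num) (fun tt i hi => ?_))
  cases tt
  · fin_cases i
    · exact (sN_A113_000m hx hx').vn rfl (Or.inl rfl) (Or.inl rfl) (sideN hx hx') hκ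
    · exact (sN_A113_001m hx hx').vn rfl (Or.inl rfl) (Or.inl rfl) (sideN hx hx') hκ
    · exact (sN_A113_002m hx hx').vn rfl (Or.inl rfl) (Or.inl rfl) (sideN hx hx') hκ
    · exact absurd hi (by decide)
    · exact absurd hi (by decide)
  · fin_cases i
    · exact (sN_A113_000p hx hx').vn rfl (Or.inl rfl) (Or.inl rfl) (sideN hx hx') hκ
    · exact (sN_A113_001p hx hx').vn rfl (Or.inl rfl) (Or.inl rfl) (sideN hx hx') hκ
    · exact (sN_A113_002p hx hx').vn rfl (Or.inl rfl) (Or.inl rfl) (sideN hx hx') hκ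
    · exact absurd hi (by decide)
    · exact absurd hi (by decide)

theorem alt12N_A123_01 {κ x : ℝ} (hκ : κ * h0 = ken x) (hx : ((201326592 : ℕ) : ℝ) / S ≤ x) (hx' : x ≤ (((201326592 : ℕ) : ℝ) + (134217728 : ℕ)) / S)
    (h2 : SgA (VN 3 κ) PP tKN tL pcN 1 2 0 1 true 2 57167902 11758673 x) :
    (AltA (VN 3 κ) PP tKN tL pcN [⟨0, 1, 0, 57167902⟩, ⟨1, 1, 0, 57167902⟩, ⟨2, 2, 0, 11758673⟩] 1 2 3 0 1 (sgb true) (sgb false) x) := by
  refine altA12 (loc123 (m := 2) (by show rh 2 ≤ 1; simp [rh]; try norm_num) (by show rh 1 ≤ 1; simp [rh]; try norm_num) (fun i hi => ?_))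
  fin_cases i
  · exact absurd hi (by decide)
  · exact absurd hi (by decide)
  · exact h2
  · exact (sN_A123_013p hx hx').vn rfl (Or.inl rfl) (Or.inr rfl) (sideN hx hx') hκ
  · exact (sN_A123_014p hx hx').vn rfl (Or.inl rfl) (Or.inr rfl) (sideN hx hx') hκ

theorem alt12N_A123_02 {κ x : ℝ} (hκ : κ * h0 = ken x) (hx : ((201326592 : ℕ) : ℝ) / S ≤ x) (hx' : x ≤ (((201326592 : ℕ) : ℝ) + (134217728 : ℕ)) / S)
    (h2 : SgA (VN 3 κ) PP tKN tL pcN 1 2 0 2 true 2 57167902 11758673 x) :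
    (AltA (VN 3 κ) PP tKN tL pcN [⟨0, 1, 0, 57167902⟩, ⟨1, 1, 0, 57167902⟩, ⟨2, 2, 0, 11758673⟩] 1 2 3 0 2 (sgb true) (sgb false) x) := by
  refine altA12 (loc123 (m := 2) (by show rh 2 ≤ 1; simp [rh]; try norm_num) (by show rh 2 ≤ 1; simp [rh]; try norm_num) (fun i hi => ?_))
  fin_cases i
  · exact absurd hi (by decide)
  · exact absurd hi (by decide)
  · exact h2
  · exact (sN_A123_023p hx hx').vn rfl (Or.inl rfl) (Or.inr rfl) (sideN hx hx') hκ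
  · exact (sN_A123_024p hx hx').vn rfl (Or.inl rfl) (Or.inr rfl) (sideN hx hx') hκ

theorem alt12N_B113_01p {κ x : ℝ} (hκ : κ * h0 = ken x) (hx : ((201326592 : ℕ) : ℝ) / S ≤ x) (hx' : x ≤ (((201326592 : ℕ) : ℝ) + (134217728 : ℕ)) / S) :
    AltB (VN 3 κ) PP tKN tL pcN [⟨0, 1, 0, 57167902⟩, ⟨1, 1, 0, 57167902⟩, ⟨2, 2, 0, 11758673⟩] 1 1 3 0 1 (sgb true) (sgb true) x := by
  refine altB12 (locB12 (div_S_le (k := 16) (by norm_num) (by norm_num)) (div_S_le (k := 64) (by norm_num) (by norm_num)) (Or.inl rfl) (m := 1) (fun i hi => ?_) (sN_X113_011p hx hx'))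
  fin_cases i
  · exact (sN_B113_010p hx hx').vn rfl (Or.inl rfl) (Or.inl rfl) (sideN hx hx') hκ
  · exact absurd hi (by decide)
  · exact absurd hi (by decide)
  · exact absurd hi (by decide)
  · exact absurd hi (by decide)

theorem alt12N_B113_01m {κ x : ℝ} (hκ : κ * h0 = ken x) (hx : ((201326592 : ℕ) : ℝ) / S ≤ x) (hx' : x ≤ (((201326592 : ℕ) : ℝ) + (134217728 : ℕ)) / S) :
    AltB (VN 3 κ) PP tKN tL pcN [⟨0, 1, 0, 57167902⟩, ⟨1, 1, 0, 57167902⟩, ⟨2, 2, 0, 11758673⟩] 1 1 3 0 1 (sgb true) (sgb false) x := by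
  refine altB12 (locB12 (div_S_le (k := 16) (by norm_num) (by norm_num)) (div_S_le (k := 64) (by norm_num) (by norm_num)) (Or.inl rfl) (m := 1) (fun i hi => ?_) (sN_X113_011m hx hx'))
  fin_cases i
  · exact (sN_B113_010m hx hx').vn rfl (Or.inl rfl) (Or.inl rfl) (sideN hx hx') hκ
  · exact absurd hi (by decide)
  · exact absurd hi (by decide)
  · exact absurd hi (by decide)
  · exact absurd hi (by decide)

theorem alt12N_B113_02p {κ x : ℝ} (hκ : κ * h0 = ken x) (hx : ((201326592 : ℕ) : ℝ) / S ≤ x) (hx' : x ≤ (((201326592 : ℕ) : ℝ) + (134217728 : ℕ)) / S) :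
    AltB (VN 3 κ) PP tKN tL pcN [⟨0, 1, 0, 57167902⟩, ⟨1, 1, 0, 57167902⟩, ⟨2, 2, 0, 11758673⟩] 1 1 3 0 2 (sgb true) (sgb true) x := by
  refine altB12 (locB12 (div_S_le (k := 16) (by norm_num) (by norm_num)) (div_S_le (k := 64) (by norm_num) (by norm_num)) (Or.inl rfl) (m := 1) (fun i hi => ?_) (sN_X113_021p hx hx'))
  fin_cases i
  · exact (sN_B113_020p hx hx').vn rfl (Or.inl rfl) (Or.inl rfl) (sideN hx hx') hκ
  · exact absurd hi (by decide)
  · exact absurd hi (by decide)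
  · exact absurd hi (by decide)
  · exact absurd hi (by decide)

theorem alt12N_B113_02m {κ x : ℝ} (hκ : κ * h0 = ken x) (hx : ((201326592 : ℕ) : ℝ) / S ≤ x) (hx' : x ≤ (((201326592 : ℕ) : ℝ) + (134217728 : ℕ)) / S) :
    AltB (VN 3 κ) PP tKN tL pcN [⟨0, 1, 0, 57167902⟩, ⟨1, 1, 0, 57167902⟩, ⟨2, 2, 0, 11758673⟩] 1 1 3 0 2 (sgb true) (sgb false) x := by
  refine altB12 (locB12 (div_S_le (k := 16) (by norm_num) (by norm_num)) (div_S_le (k := 64) (by norm_num) (by norm_num)) (Or.inl rfl) (m := 1) (fun i hi => ?_) (sN_X113_021m hx hx'))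
  fin_cases i
  · exact (sN_B113_020m hx hx').vn rfl (Or.inl rfl) (Or.inl rfl) (sideN hx hx') hκ
  · exact absurd hi (by decide)
  · exact absurd hi (by decide)
  · exact absurd hi (by decide)
  · exact absurd hi (by decide)

theorem alt12N_B113_03p {κ x : ℝ} (hκ : κ * h0 = ken x) (hx : ((201326592 : ℕ) : ℝ) / S ≤ x) (hx' : x ≤ (((201326592 : ℕ) : ℝ) + (134217728 : ℕ)) / S) :
    AltB (VN 3 κ) PP tKN tL pcN [⟨0, 1, 0, 57167902⟩, ⟨1, 1, 0, 57167902⟩, ⟨2, 2, 0, 11758673⟩] 1 1 3 0 3 (sgb true) (sgb true) x := by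
  refine altB12 (locB12 (div_S_le (k := 16) (by norm_num) (by norm_num)) (div_S_le (k := 64) (by norm_num) (by norm_num)) (Or.inl rfl) (m := 1) (fun i hi => ?_) (sN_X113_031p hx hx'))
  fin_cases i
  · exact (sN_B113_030p hx hx').vn rfl (Or.inl rfl) (Or.inl rfl) (sideN hx hx') hκ
  · exact absurd hi (by decide)
  · exact absurd hi (by decide)
  · exact absurd hi (by decide)
  · exact absurd hi (by decide)

theorem alt12N_B113_03m {κ x : ℝ} (hκ : κ * h0 = ken x) (hx : ((201326592 : ℕ) : ℝ) / S ≤ x) (hx' : x ≤ (((201326592 : ℕ) : ℝ) + (134217728 : ℕ)) / S) :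
    AltB (VN 3 κ) PP tKN tL pcN [⟨0, 1, 0, 57167902⟩, ⟨1, 1, 0, 57167902⟩, ⟨2, 2, 0, 11758673⟩] 1 1 3 0 3 (sgb true) (sgb false) x := by
  refine altB12 (locB12 (div_S_le (k := 16) (by norm_num) (by norm_num)) (div_S_le (k := 64) (by norm_num) (by norm_num)) (Or.inl rfl) (m := 1) (fun i hi => ?_) (sN_X113_031m hx hx'))
  fin_cases i
  · exact (sN_B113_030m hx hx').vn rfl (Or.inl rfl) (Or.inl rfl) (sideN hx hx') hκ
  · exact absurd hi (by decide)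
  · exact absurd hi (by decide)
  · exact absurd hi (by decide)
  · exact absurd hi (by decide)

theorem alt12N_B113_04p {κ x : ℝ} (hκ : κ * h0 = ken x) (hx : ((201326592 : ℕ) : ℝ) / S ≤ x) (hx' : x ≤ (((201326592 : ℕ) : ℝ) + (134217728 : ℕ)) / S) :
    AltB (VN 3 κ) PP tKN tL pcN [⟨0, 1, 0, 57167902⟩, ⟨1, 1, 0, 57167902⟩, ⟨2, 2, 0, 11758673⟩] 1 1 3 0 4 (sgb true) (sgb true) x := by
  refine altB12 (locB12 (div_S_le (k := 16) (by norm_num) (by norm_num)) (div_S_le (k := 64) (by norm_num) (by norm_num)) (Or.inl rfl) (m := 1) (fun i hi => ?_) (sN_X113_041p hx hx'))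
  fin_cases i
  · exact (sN_B113_040p hx hx').vn rfl (Or.inl rfl) (Or.inl rfl) (sideN hx hx') hκ
  · exact absurd hi (by decide)
  · exact absurd hi (by decide)
  · exact absurd hi (by decide)
  · exact absurd hi (by decide)

theorem alt12N_B113_04m {κ x : ℝ} (hκ : κ * h0 = ken x) (hx : ((201326592 : ℕ) : ℝ) / S ≤ x) (hx' : x ≤ (((201326592 : ℕ) : ℝ) + (134217728 : ℕ)) / S) :
    AltB (VN 3 κ) PP tKN tL pcN [⟨0, 1, 0, 57167902⟩, ⟨1, 1, 0, 57167902⟩, ⟨2, 2, 0, 11758673⟩] 1 1 3 0 4 (sgb true) (sgb false) x := by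
  refine altB12 (locB12 (div_S_le (k := 16) (by norm_num) (by norm_num)) (div_S_le (k := 64) (by norm_num) (by norm_num)) (Or.inl rfl) (m := 1) (fun i hi => ?_) (sN_X113_041m hx hx'))
  fin_cases i
  · exact (sN_B113_040m hx hx').vn rfl (Or.inl rfl) (Or.inl rfl) (sideN hx hx') hκ
  · exact absurd hi (by decide)
  · exact absurd hi (by decide)
  · exact absurd hi (by decide)
  · exact absurd hi (by decide)

theorem alt12N_B113_05p {κ x : ℝ} (hκ : κ * h0 = ken x) (hx : ((201326592 : ℕ) : ℝ) / S ≤ x) (hx' : x ≤ (((201326592 : ℕ) : ℝ) + (134217728 : ℕ)) / S) :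
    AltB (VN 3 κ) PP tKN tL pcN [⟨0, 1, 0, 57167902⟩, ⟨1, 1, 0, 57167902⟩, ⟨2, 2, 0, 11758673⟩] 1 1 3 0 5 (sgb true) (sgb true) x := by
  refine altB12 (locB12 (div_S_le (k := 16) (by norm_num) (by norm_num)) (div_S_le (k := 64) (by norm_num) (by norm_num)) (Or.inl rfl) (m := 1) (fun i hi => ?_) (sN_X113_051p hx hx'))
  fin_cases i
  · exact (sN_B113_050p hx hx').vn rfl (Or.inl rfl) (Or.inl rfl) (sideN hx hx') hκ
  · exact absurd hi (by decide)
  · exact absurd hi (by decide)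
  · exact absurd hi (by decide)
  · exact absurd hi (by decide)

theorem alt12N_B113_05m {κ x : ℝ} (hκ : κ * h0 = ken x) (hx : ((201326592 : ℕ) : ℝ) / S ≤ x) (hx' : x ≤ (((201326592 : ℕ) : ℝ) + (134217728 : ℕ)) / S) :
    AltB (VN 3 κ) PP tKN tL pcN [⟨0, 1, 0, 57167902⟩, ⟨1, 1, 0, 57167902⟩, ⟨2, 2, 0, 11758673⟩] 1 1 3 0 5 (sgb true) (sgb false) x := by
  refine altB12 (locB12 (div_S_le (k := 16) (by norm_num) (by norm_num)) (div_S_le (k := 64) (by norm_num) (by norm_num)) (Or.inl rfl) (m := 1) (fun i hi => ?_) (sN_X113_051m hx hx'))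
  fin_cases i
  · exact (sN_B113_050m hx hx').vn rfl (Or.inl rfl) (Or.inl rfl) (sideN hx hx') hκ
  · exact absurd hi (by decide)
  · exact absurd hi (by decide)
  · exact absurd hi (by decide)
  · exact absurd hi (by decide)

theorem alt12N_B123_01p {κ x : ℝ} (hκ : κ * h0 = ken x) (hx : ((201326592 : ℕ) : ℝ) / S ≤ x) (hx' : x ≤ (((201326592 : ℕ) : ℝ) + (134217728 : ℕ)) / S) :
    AltB (VN 3 κ) PP tKN tL pcN [⟨0, 1, 0, 57167902⟩, ⟨1, 1, 0, 57167902⟩, ⟨2, 2, 0, 11758673⟩] 1 2 3 0 1 (sgb true) (sgb true) x := by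
  refine altB12 (locB12 (div_S_le (k := 16) (by norm_num) (by norm_num)) (div_S_le (k := 64) (by norm_num) (by norm_num)) (Or.inl rfl) (m := 3) (fun i hi => ?_) (sN_X123_013p hx hx'))
  fin_cases i
  · exact (sN_B123_010p hx hx').vn rfl (Or.inl rfl) (Or.inr rfl) (sideN hx hx') hκ
  · exact (sN_B123_011p hx hx').vn rfl (Or.inl rfl) (Or.inr rfl) (sideN hx hx') hκ
  · exact (sN_B123_012p hx hx').vn rfl (Or.inl rfl) (Or.inr rfl) (sideN hx hx') hκ
  · exact absurd hi (by decide)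
  · exact absurd hi (by decide)

theorem alt12N_B123_01m {κ x : ℝ} (hκ : κ * h0 = ken x) (hx : ((201326592 : ℕ) : ℝ) / S ≤ x) (hx' : x ≤ (((201326592 : ℕ) : ℝ) + (134217728 : ℕ)) / S) :
    AltB (VN 3 κ) PP tKN tL pcN [⟨0, 1, 0, 57167902⟩, ⟨1, 1, 0, 57167902⟩, ⟨2, 2, 0, 11758673⟩] 1 2 3 0 1 (sgb true) (sgb false) x := by
  refine altB12 (locB12 (div_S_le (k := 16) (by norm_num) (by norm_num)) (div_S_le (k := 64) (by norm_num) (by norm_num)) (Or.inl rfl) (m := 3) (fun i hi => ?_) (sN_X123_013m hx hx'))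
  fin_cases i
  · exact (sN_B123_010m hx hx').vn rfl (Or.inl rfl) (Or.inr rfl) (sideN hx hx') hκ
  · exact (sN_B123_011m hx hx').vn rfl (Or.inl rfl) (Or.inr rfl) (sideN hx hx') hκ
  · exact (sN_B123_012m hx hx').vn rfl (Or.inl rfl) (Or.inr rfl) (sideN hx hx') hκ
  · exact absurd hi (by decide)
  · exact absurd hi (by decide)

theorem alt12N_B123_02p {κ x : ℝ} (hκ : κ * h0 = ken x) (hx : ((201326592 : ℕ) : ℝ) / S ≤ x) (hx' : x ≤ (((201326592 : ℕ) : ℝ) + (134217728 : ℕ)) / S) :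
    AltB (VN 3 κ) PP tKN tL pcN [⟨0, 1, 0, 57167902⟩, ⟨1, 1, 0, 57167902⟩, ⟨2, 2, 0, 11758673⟩] 1 2 3 0 2 (sgb true) (sgb true) x := by
  refine altB12 (locB12 (div_S_le (k := 16) (by norm_num) (by norm_num)) (div_S_le (k := 64) (by norm_num) (by norm_num)) (Or.inl rfl) (m := 3) (fun i hi => ?_) (sN_X123_023p hx hx'))
  fin_cases i
  · exact (sN_B123_020p hx hx').vn rfl (Or.inl rfl) (Or.inr rfl) (sideN hx hx') hκ
  · exact (sN_B123_021p hx hx').vn rfl (Or.inl rfl) (Or.inr rfl) (sideN hx hx') hκ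
  · exact (sN_B123_022p hx hx').vn rfl (Or.inl rfl) (Or.inr rfl) (sideN hx hx') hκ
  · exact absurd hi (by decide)
  · exact absurd hi (by decide)

theorem alt12N_B123_02m {κ x : ℝ} (hκ : κ * h0 = ken x) (hx : ((201326592 : ℕ) : ℝ) / S ≤ x) (hx' : x ≤ (((201326592 : ℕ) : ℝ) + (134217728 : ℕ)) / S) :
    AltB (VN 3 κ) PP tKN tL pcN [⟨0, 1, 0, 57167902⟩, ⟨1, 1, 0, 57167902⟩, ⟨2, 2, 0, 11758673⟩] 1 2 3 0 2 (sgb true) (sgb false) x := by
  refine altB12 (locB12 (div_S_le (k := 16) (by norm_num) (by norm_num)) (div_S_le (k := 64) (by norm_num) (by norm_num)) (Or.inl rfl) (m := 3) (fun i hi => ?_) (sN_X123_023m hx hx'))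
  fin_cases i
  · exact (sN_B123_020m hx hx').vn rfl (Or.inl rfl) (Or.inr rfl) (sideN hx hx') hκ
  · exact (sN_B123_021m hx hx').vn rfl (Or.inl rfl) (Or.inr rfl) (sideN hx hx') hκ
  · exact (sN_B123_022m hx hx').vn rfl (Or.inl rfl) (Or.inr rfl) (sideN hx hx') hκ
  · exact absurd hi (by decide)
  · exact absurd hi (by decide)

theorem alt12N_B123_03p {κ x : ℝ} (hκ : κ * h0 = ken x) (hx : ((201326592 : ℕ) : ℝ) / S ≤ x) (hx' : x ≤ (((201326592 : ℕ) : ℝ) + (134217728 : ℕ)) / S)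
    (h0' : SgBl (VN 3 κ) PP tKN tL pcN .npn 1 2 0 3 true 0 57167902 11758673 x) :
    (AltB (VN 3 κ) PP tKN tL pcN [⟨0, 1, 0, 57167902⟩, ⟨1, 1, 0, 57167902⟩, ⟨2, 2, 0, 11758673⟩] 1 2 3 0 3 (sgb true) (sgb true) x) := by
  refine altB12 (locB12 (div_S_le (k := 16) (by norm_num) (by norm_num)) (div_S_le (k := 64) (by norm_num) (by norm_num)) (Or.inl rfl) (m := 3) (fun i hi => ?_) (sN_X123_033p hx hx'))
  fin_cases i
  · exact (sN_B123_030p hx hx').vn rfl (Or.inl rfl) (Or.inr rfl) (sideN hx hx') hκ h0'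
  · exact (sN_B123_031p hx hx').vn rfl (Or.inl rfl) (Or.inr rfl) (sideN hx hx') hκ
  · exact (sN_B123_032p hx hx').vn rfl (Or.inl rfl) (Or.inr rfl) (sideN hx hx') hκ
  · exact absurd hi (by decide)
  · exact absurd hi (by decide)

theorem alt12N_B123_03m {κ x : ℝ} (hκ : κ * h0 = ken x) (hx : ((201326592 : ℕ) : ℝ) / S ≤ x) (hx' : x ≤ (((201326592 : ℕ) : ℝ) + (134217728 : ℕ)) / S) :
    AltB (VN 3 κ) PP tKN tL pcN [⟨0, 1, 0, 57167902⟩, ⟨1, 1, 0, 57167902⟩, ⟨2, 2, 0, 11758673⟩] 1 2 3 0 3 (sgb true) (sgb false) x := by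
  refine altB12 (locB12 (div_S_le (k := 16) (by norm_num) (by norm_num)) (div_S_le (k := 64) (by norm_num) (by norm_num)) (Or.inl rfl) (m := 4) (fun i hi => ?_) (sN_X123_034m hx hx'))
  fin_cases i
  · exact (sN_B123_030m hx hx').vn rfl (Or.inl rfl) (Or.inr rfl) (sideN hx hx') hκ
  · exact (sN_B123_031m hx hx').vn rfl (Or.inl rfl) (Or.inr rfl) (sideN hx hx') hκ
  · exact (sN_B123_032m hx hx').vn rfl (Or.inl rfl) (Or.inr rfl) (sideN hx hx') hκ
  · exact (sN_B123_033m hx hx').vn rfl (Or.inl rfl) (Or.inr rfl) (sideN hx hx') hκ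
  · exact absurd hi (by decide)

theorem alt12N_B123_04p {κ x : ℝ} (hκ : κ * h0 = ken x) (hx : ((201326592 : ℕ) : ℝ) / S ≤ x) (hx' : x ≤ (((201326592 : ℕ) : ℝ) + (134217728 : ℕ)) / S)
    (h0' : SgBl (VN 3 κ) PP tKN tL pcN .npn 1 2 0 4 true 0 57167902 11758673 x) :
    (AltB (VN 3 κ) PP tKN tL pcN [⟨0, 1, 0, 57167902⟩, ⟨1, 1, 0, 57167902⟩, ⟨2, 2, 0, 11758673⟩] 1 2 3 0 4 (sgb true) (sgb true) x) := by
  refine altB12 (locB12 (div_S_le (k := 16) (by norm_num) (by norm_num)) (div_S_le (k := 64) (by norm_num) (by norm_num)) (Or.inl rfl) (m := 3) (fun i hi => ?_) (sN_X123_043p hx hx'))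
  fin_cases i
  · exact (sN_B123_040p hx hx').vn rfl (Or.inl rfl) (Or.inr rfl) (sideN hx hx') hκ h0'
  · exact (sN_B123_041p hx hx').vn rfl (Or.inl rfl) (Or.inr rfl) (sideN hx hx') hκ
  · exact (sN_B123_042p hx hx').vn rfl (Or.inl rfl) (Or.inr rfl) (sideN hx hx') hκ
  · exact absurd hi (by decide)
  · exact absurd hi (by decide)

theorem alt12N_B123_04m {κ x : ℝ} (hκ : κ * h0 = ken x) (hx : ((201326592 : ℕ) : ℝ) / S ≤ x) (hx' : x ≤ (((201326592 : ℕ) : ℝ) + (134217728 : ℕ)) / S) :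
    AltB (VN 3 κ) PP tKN tL pcN [⟨0, 1, 0, 57167902⟩, ⟨1, 1, 0, 57167902⟩, ⟨2, 2, 0, 11758673⟩] 1 2 3 0 4 (sgb true) (sgb false) x := by
  refine altB12 (locB12 (div_S_le (k := 16) (by norm_num) (by norm_num)) (div_S_le (k := 64) (by norm_num) (by norm_num)) (Or.inl rfl) (m := 4) (fun i hi => ?_) (sN_X123_044m hx hx'))
  fin_cases i
  · exact (sN_B123_040m hx hx').vn rfl (Or.inl rfl) (Or.inr rfl) (sideN hx hx') hκ
  · exact (sN_B123_041m hx hx').vn rfl (Or.inl rfl) (Or.inr rfl) (sideN hx hx') hκ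
  · exact (sN_B123_042m hx hx').vn rfl (Or.inl rfl) (Or.inr rfl) (sideN hx hx') hκ
  · exact (sN_B123_043m hx hx').vn rfl (Or.inl rfl) (Or.inr rfl) (sideN hx hx') hκ
  · exact absurd hi (by decide)

theorem alt12N_B123_05p {κ x : ℝ} (hκ : κ * h0 = ken x) (hx : ((201326592 : ℕ) : ℝ) / S ≤ x) (hx' : x ≤ (((201326592 : ℕ) : ℝ) + (134217728 : ℕ)) / S)
    (h0' : SgBl (VN 3 κ) PP tKN tL pcN .npn 1 2 0 5 true 0 57167902 11758673 x) :
    (AltB (VN 3 κ) PP tKN tL pcN [⟨0, 1, 0, 57167902⟩, ⟨1, 1, 0, 57167902⟩, ⟨2, 2, 0, 11758673⟩] 1 2 3 0 5 (sgb true) (sgb true) x) := by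
  refine altB12 (locB12 (div_S_le (k := 16) (by norm_num) (by norm_num)) (div_S_le (k := 64) (by norm_num) (by norm_num)) (Or.inl rfl) (m := 3) (fun i hi => ?_) (sN_X123_053p hx hx'))
  fin_cases i
  · exact (sN_B123_050p hx hx').vn rfl (Or.inl rfl) (Or.inr rfl) (sideN hx hx') hκ h0'
  · exact (sN_B123_051p hx hx').vn rfl (Or.inl rfl) (Or.inr rfl) (sideN hx hx') hκ
  · exact (sN_B123_052p hx hx').vn rfl (Or.inl rfl) (Or.inr rfl) (sideN hx hx') hκ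
  · exact absurd hi (by decide)
  · exact absurd hi (by decide)

theorem alt12N_B123_05m {κ x : ℝ} (hκ : κ * h0 = ken x) (hx : ((201326592 : ℕ) : ℝ) / S ≤ x) (hx' : x ≤ (((201326592 : ℕ) : ℝ) + (134217728 : ℕ)) / S) :
    AltB (VN 3 κ) PP tKN tL pcN [⟨0, 1, 0, 57167902⟩, ⟨1, 1, 0, 57167902⟩, ⟨2, 2, 0, 11758673⟩] 1 2 3 0 5 (sgb true) (sgb false) x := by
  refine altB12 (locB12 (div_S_le (k := 16) (by norm_num) (by norm_num)) (div_S_le (k := 64) (by norm_num) (by norm_num)) (Or.inl rfl) (m := 4) (fun i hi => ?_) (sN_X123_054m hx hx'))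
  fin_cases i
  · exact (sN_B123_050m hx hx').vn rfl (Or.inl rfl) (Or.inr rfl) (sideN hx hx') hκ
  · exact (sN_B123_051m hx hx').vn rfl (Or.inl rfl) (Or.inr rfl) (sideN hx hx') hκ
  · exact (sN_B123_052m hx hx').vn rfl (Or.inl rfl) (Or.inr rfl) (sideN hx hx') hκ
  · exact (sN_B123_053m hx hx').vn rfl (Or.inl rfl) (Or.inr rfl) (sideN hx hx') hκ
  · exact absurd hi (by decide)

theorem alt12N_B213_01p {κ x : ℝ} (hκ : κ * h0 = ken x) (hx : ((201326592 : ℕ) : ℝ) / S ≤ x) (hx' : x ≤ (((201326592 : ℕ) : ℝ) + (134217728 : ℕ)) / S) :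
    AltB (VN 3 κ) PP tKN tL pcN [⟨0, 1, 0, 57167902⟩, ⟨1, 1, 0, 57167902⟩, ⟨2, 2, 0, 11758673⟩] 2 1 3 0 1 (sgb true) (sgb true) x := by
  exact altB12_vac (div_S_le (k := 64) (by norm_num) (by norm_num)) (by show rh 0 ≤ 1; simp [rh]; try norm_num)

theorem alt12N_B213_01m {κ x : ℝ} (hκ : κ * h0 = ken x) (hx : ((201326592 : ℕ) : ℝ) / S ≤ x) (hx' : x ≤ (((201326592 : ℕ) : ℝ) + (134217728 : ℕ)) / S) :
    AltB (VN 3 κ) PP tKN tL pcN [⟨0, 1, 0, 57167902⟩, ⟨1, 1, 0, 57167902⟩, ⟨2, 2, 0, 11758673⟩] 2 1 3 0 1 (sgb true) (sgb false) x := by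
  refine altB12 (locB12 (div_S_le (k := 16) (by norm_num) (by norm_num)) (div_S_le (k := 64) (by norm_num) (by norm_num)) (Or.inr rfl) (m := 1) (fun i hi => ?_) (sN_X213_011m hx hx'))
  fin_cases i
  · exact (sN_B213_010m hx hx').vn rfl (Or.inr rfl) (Or.inl rfl) (sideN hx hx') hκ
  · exact absurd hi (by decide)
  · exact absurd hi (by decide)
  · exact absurd hi (by decide)
  · exact absurd hi (by decide)

theorem alt12N_B213_02p {κ x : ℝ} (hκ : κ * h0 = ken x) (hx : ((201326592 : ℕ) : ℝ) / S ≤ x) (hx' : x ≤ (((201326592 : ℕ) : ℝ) + (134217728 : ℕ)) / S) :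
    AltB (VN 3 κ) PP tKN tL pcN [⟨0, 1, 0, 57167902⟩, ⟨1, 1, 0, 57167902⟩, ⟨2, 2, 0, 11758673⟩] 2 1 3 0 2 (sgb true) (sgb true) x := by
  exact altB12_vac (div_S_le (k := 64) (by norm_num) (by norm_num)) (by show rh 0 ≤ 1; simp [rh]; try norm_num)

theorem alt12N_B213_02m {κ x : ℝ} (hκ : κ * h0 = ken x) (hx : ((201326592 : ℕ) : ℝ) / S ≤ x) (hx' : x ≤ (((201326592 : ℕ) : ℝ) + (134217728 : ℕ)) / S) :
    AltB (VN 3 κ) PP tKN tL pcN [⟨0, 1, 0, 57167902⟩, ⟨1, 1, 0, 57167902⟩, ⟨2, 2, 0, 11758673⟩] 2 1 3 0 2 (sgb true) (sgb false) x := by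
  refine altB12 (locB12 (div_S_le (k := 16) (by norm_num) (by norm_num)) (div_S_le (k := 64) (by norm_num) (by norm_num)) (Or.inr rfl) (m := 1) (fun i hi => ?_) (sN_X213_021m hx hx'))
  fin_cases i
  · exact (sN_B213_020m hx hx').vn rfl (Or.inr rfl) (Or.inl rfl) (sideN hx hx') hκ
  · exact absurd hi (by decide)
  · exact absurd hi (by decide)
  · exact absurd hi (by decide)
  · exact absurd hi (by decide)

theorem alt12N_B213_03p {κ x : ℝ} (hκ : κ * h0 = ken x) (hx : ((201326592 : ℕ) : ℝ) / S ≤ x) (hx' : x ≤ (((201326592 : ℕ) : ℝ) + (134217728 : ℕ)) / S) :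
    AltB (VN 3 κ) PP tKN tL pcN [⟨0, 1, 0, 57167902⟩, ⟨1, 1, 0, 57167902⟩, ⟨2, 2, 0, 11758673⟩] 2 1 3 0 3 (sgb true) (sgb true) x := by
  exact altB12_vac (div_S_le (k := 64) (by norm_num) (by norm_num)) (by show rh 0 ≤ 1; simp [rh]; try norm_num)

theorem alt12N_B213_03m {κ x : ℝ} (hκ : κ * h0 = ken x) (hx : ((201326592 : ℕ) : ℝ) / S ≤ x) (hx' : x ≤ (((201326592 : ℕ) : ℝ) + (134217728 : ℕ)) / S)
    (h0' : SgB (VN 3 κ) PP tKN tL pcN 2 1 0 3 false 0 57167902 11758673 x) :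
    (AltB (VN 3 κ) PP tKN tL pcN [⟨0, 1, 0, 57167902⟩, ⟨1, 1, 0, 57167902⟩, ⟨2, 2, 0, 11758673⟩] 2 1 3 0 3 (sgb true) (sgb false) x) := by
  refine altB12 (locB12 (div_S_le (k := 16) (by norm_num) (by norm_num)) (div_S_le (k := 64) (by norm_num) (by norm_num)) (Or.inr rfl) (m := 1) (fun i hi => ?_) (sN_X213_031m hx hx'))
  fin_cases i
  · exact h0'
  · exact absurd hi (by decide)
  · exact absurd hi (by decide)
  · exact absurd hi (by decide)
  · exact absurd hi (by decide)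

theorem alt12N_B213_04p {κ x : ℝ} (hκ : κ * h0 = ken x) (hx : ((201326592 : ℕ) : ℝ) / S ≤ x) (hx' : x ≤ (((201326592 : ℕ) : ℝ) + (134217728 : ℕ)) / S) :
    AltB (VN 3 κ) PP tKN tL pcN [⟨0, 1, 0, 57167902⟩, ⟨1, 1, 0, 57167902⟩, ⟨2, 2, 0, 11758673⟩] 2 1 3 0 4 (sgb true) (sgb true) x := by
  exact altB12_vac (div_S_le (k := 64) (by norm_num) (by norm_num)) (by show rh 0 ≤ 1; simp [rh]; try norm_num)

theorem alt12N_B213_04m {κ x : ℝ} (hκ : κ * h0 = ken x) (hx : ((201326592 : ℕ) : ℝ) / S ≤ x) (hx' : x ≤ (((201326592 : ℕ) : ℝ) + (134217728 : ℕ)) / S)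
    (h0' : SgB (VN 3 κ) PP tKN tL pcN 2 1 0 4 false 0 57167902 11758673 x) :
    (AltB (VN 3 κ) PP tKN tL pcN [⟨0, 1, 0, 57167902⟩, ⟨1, 1, 0, 57167902⟩, ⟨2, 2, 0, 11758673⟩] 2 1 3 0 4 (sgb true) (sgb false) x) := by
  refine altB12 (locB12 (div_S_le (k := 16) (by norm_num) (by norm_num)) (div_S_le (k := 64) (by norm_num) (by norm_num)) (Or.inr rfl) (m := 1) (fun i hi => ?_) (sN_X213_041m hx hx'))
  fin_cases i
  · exact h0'
  · exact absurd hi (by decide)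
  · exact absurd hi (by decide)
  · exact absurd hi (by decide)
  · exact absurd hi (by decide)

theorem alt12N_B213_05p {κ x : ℝ} (hκ : κ * h0 = ken x) (hx : ((201326592 : ℕ) : ℝ) / S ≤ x) (hx' : x ≤ (((201326592 : ℕ) : ℝ) + (134217728 : ℕ)) / S) :
    AltB (VN 3 κ) PP tKN tL pcN [⟨0, 1, 0, 57167902⟩, ⟨1, 1, 0, 57167902⟩, ⟨2, 2, 0, 11758673⟩] 2 1 3 0 5 (sgb true) (sgb true) x := by
  exact altB12_vac (div_S_le (k := 64) (by norm_num) (by norm_num)) (by show rh 0 ≤ 1; simp [rh]; try norm_num)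

theorem alt12N_B213_05m {κ x : ℝ} (hκ : κ * h0 = ken x) (hx : ((201326592 : ℕ) : ℝ) / S ≤ x) (hx' : x ≤ (((201326592 : ℕ) : ℝ) + (134217728 : ℕ)) / S)
    (h0' : SgB (VN 3 κ) PP tKN tL pcN 2 1 0 5 false 0 57167902 11758673 x) :
    (AltB (VN 3 κ) PP tKN tL pcN [⟨0, 1, 0, 57167902⟩, ⟨1, 1, 0, 57167902⟩, ⟨2, 2, 0, 11758673⟩] 2 1 3 0 5 (sgb true) (sgb false) x) := by
  refine altB12 (locB12 (div_S_le (k := 16) (by norm_num) (by norm_num)) (div_S_le (k := 64) (by norm_num) (by norm_num)) (Or.inr rfl) (m := 1) (fun i hi => ?_) (sN_X213_051m hx hx'))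
  fin_cases i
  · exact h0'
  · exact absurd hi (by decide)
  · exact absurd hi (by decide)
  · exact absurd hi (by decide)
  · exact absurd hi (by decide)

theorem alt12N_B213_11p {κ x : ℝ} (hκ : κ * h0 = ken x) (hx : ((201326592 : ℕ) : ℝ) / S ≤ x) (hx' : x ≤ (((201326592 : ℕ) : ℝ) + (134217728 : ℕ)) / S) :
    AltB (VN 3 κ) PP tKN tL pcN [⟨0, 1, 0, 57167902⟩, ⟨1, 1, 0, 57167902⟩, ⟨2, 2, 0, 11758673⟩] 2 1 3 1 1 (sgb true) (sgb true) x := by
  exact altB12_vac (div_S_le (k := 64) (by norm_num) (by norm_num)) (by show rh 1 ≤ 1; simp [rh]; try norm_num)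

theorem alt12N_B213_11m {κ x : ℝ} (hκ : κ * h0 = ken x) (hx : ((201326592 : ℕ) : ℝ) / S ≤ x) (hx' : x ≤ (((201326592 : ℕ) : ℝ) + (134217728 : ℕ)) / S) :
    AltB (VN 3 κ) PP tKN tL pcN [⟨0, 1, 0, 57167902⟩, ⟨1, 1, 0, 57167902⟩, ⟨2, 2, 0, 11758673⟩] 2 1 3 1 1 (sgb true) (sgb false) x := by
  refine altB12 (locB12 (div_S_le (k := 16) (by norm_num) (by norm_num)) (div_S_le (k := 64) (by norm_num) (by norm_num)) (Or.inr rfl) (m := 1) (fun i hi => ?_) (sN_X213_111m hx hx'))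
  fin_cases i
  · exact (sN_B213_110m hx hx').vn rfl (Or.inr rfl) (Or.inl rfl) (sideN hx hx') hκ
  · exact absurd hi (by decide)
  · exact absurd hi (by decide)
  · exact absurd hi (by decide)
  · exact absurd hi (by decide)

theorem alt12N_B213_12p {κ x : ℝ} (hκ : κ * h0 = ken x) (hx : ((201326592 : ℕ) : ℝ) / S ≤ x) (hx' : x ≤ (((201326592 : ℕ) : ℝ) + (134217728 : ℕ)) / S) :
    AltB (VN 3 κ) PP tKN tL pcN [⟨0, 1, 0, 57167902⟩, ⟨1, 1, 0, 57167902⟩, ⟨2, 2, 0, 11758673⟩] 2 1 3 1 2 (sgb true) (sgb true) x := by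
  exact altB12_vac (div_S_le (k := 64) (by norm_num) (by norm_num)) (by show rh 1 ≤ 1; simp [rh]; try norm_num)

theorem alt12N_B213_12m {κ x : ℝ} (hκ : κ * h0 = ken x) (hx : ((201326592 : ℕ) : ℝ) / S ≤ x) (hx' : x ≤ (((201326592 : ℕ) : ℝ) + (134217728 : ℕ)) / S) :
    AltB (VN 3 κ) PP tKN tL pcN [⟨0, 1, 0, 57167902⟩, ⟨1, 1, 0, 57167902⟩, ⟨2, 2, 0, 11758673⟩] 2 1 3 1 2 (sgb true) (sgb false) x := by
  refine altB12 (locB12 (div_S_le (k := 16) (by norm_num) (by norm_num)) (div_S_le (k := 64) (by norm_num) (by norm_num)) (Or.inr rfl) (m := 1) (fun i hi => ?_) (sN_X213_121m hx hx'))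
  fin_cases i
  · exact (sN_B213_120m hx hx').vn rfl (Or.inr rfl) (Or.inl rfl) (sideN hx hx') hκ
  · exact absurd hi (by decide)
  · exact absurd hi (by decide)
  · exact absurd hi (by decide)
  · exact absurd hi (by decide)

theorem alt12N_B213_13p {κ x : ℝ} (hκ : κ * h0 = ken x) (hx : ((201326592 : ℕ) : ℝ) / S ≤ x) (hx' : x ≤ (((201326592 : ℕ) : ℝ) + (134217728 : ℕ)) / S) :
    AltB (VN 3 κ) PP tKN tL pcN [⟨0, 1, 0, 57167902⟩, ⟨1, 1, 0, 57167902⟩, ⟨2, 2, 0, 11758673⟩] 2 1 3 1 3 (sgb true) (sgb true) x := by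
  exact altB12_vac (div_S_le (k := 64) (by norm_num) (by norm_num)) (by show rh 1 ≤ 1; simp [rh]; try norm_num)

theorem alt12N_B213_13m {κ x : ℝ} (hκ : κ * h0 = ken x) (hx : ((201326592 : ℕ) : ℝ) / S ≤ x) (hx' : x ≤ (((201326592 : ℕ) : ℝ) + (134217728 : ℕ)) / S) :
    AltB (VN 3 κ) PP tKN tL pcN [⟨0, 1, 0, 57167902⟩, ⟨1, 1, 0, 57167902⟩, ⟨2, 2, 0, 11758673⟩] 2 1 3 1 3 (sgb true) (sgb false) x := by
  refine altB12 (locB12 (div_S_le (k := 16) (by norm_num) (by norm_num)) (div_S_le (k := 64) (by norm_num) (by norm_num)) (Or.inr rfl) (m := 1) (fun i hi => ?_) (sN_X213_131m hx hx'))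
  fin_cases i
  · exact (sN_B213_130m hx hx').vn rfl (Or.inr rfl) (Or.inl rfl) (sideN hx hx') hκ
  · exact absurd hi (by decide)
  · exact absurd hi (by decide)
  · exact absurd hi (by decide)
  · exact absurd hi (by decide)

theorem alt12N_B213_14p {κ x : ℝ} (hκ : κ * h0 = ken x) (hx : ((201326592 : ℕ) : ℝ) / S ≤ x) (hx' : x ≤ (((201326592 : ℕ) : ℝ) + (134217728 : ℕ)) / S) :
    AltB (VN 3 κ) PP tKN tL pcN [⟨0, 1, 0, 57167902⟩, ⟨1, 1, 0, 57167902⟩, ⟨2, 2, 0, 11758673⟩] 2 1 3 1 4 (sgb true) (sgb true) x := by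
  exact altB12_vac (div_S_le (k := 64) (by norm_num) (by norm_num)) (by show rh 1 ≤ 1; simp [rh]; try norm_num)

theorem alt12N_B213_14m {κ x : ℝ} (hκ : κ * h0 = ken x) (hx : ((201326592 : ℕ) : ℝ) / S ≤ x) (hx' : x ≤ (((201326592 : ℕ) : ℝ) + (134217728 : ℕ)) / S) :
    AltB (VN 3 κ) PP tKN tL pcN [⟨0, 1, 0, 57167902⟩, ⟨1, 1, 0, 57167902⟩, ⟨2, 2, 0, 11758673⟩] 2 1 3 1 4 (sgb true) (sgb false) x := by
  refine altB12 (locB12 (div_S_le (k := 16) (by norm_num) (by norm_num)) (div_S_le (k := 64) (by norm_num) (by norm_num)) (Or.inr rfl) (m := 1) (fun i hi => ?_) (sN_X213_141m hx hx'))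
  fin_cases i
  · exact (sN_B213_140m hx hx').vn rfl (Or.inr rfl) (Or.inl rfl) (sideN hx hx') hκ
  · exact absurd hi (by decide)
  · exact absurd hi (by decide)
  · exact absurd hi (by decide)
  · exact absurd hi (by decide)

theorem alt12N_B213_15p {κ x : ℝ} (hκ : κ * h0 = ken x) (hx : ((201326592 : ℕ) : ℝ) / S ≤ x) (hx' : x ≤ (((201326592 : ℕ) : ℝ) + (134217728 : ℕ)) / S) :
    AltB (VN 3 κ) PP tKN tL pcN [⟨0, 1, 0, 57167902⟩, ⟨1, 1, 0, 57167902⟩, ⟨2, 2, 0, 11758673⟩] 2 1 3 1 5 (sgb true) (sgb true) x := by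
  exact altB12_vac (div_S_le (k := 64) (by norm_num) (by norm_num)) (by show rh 1 ≤ 1; simp [rh]; try norm_num)

theorem alt12N_B213_15m {κ x : ℝ} (hκ : κ * h0 = ken x) (hx : ((201326592 : ℕ) : ℝ) / S ≤ x) (hx' : x ≤ (((201326592 : ℕ) : ℝ) + (134217728 : ℕ)) / S) :
    AltB (VN 3 κ) PP tKN tL pcN [⟨0, 1, 0, 57167902⟩, ⟨1, 1, 0, 57167902⟩, ⟨2, 2, 0, 11758673⟩] 2 1 3 1 5 (sgb true) (sgb false) x := by
  refine altB12 (locB12 (div_S_le (k := 16) (by norm_num) (by norm_num)) (div_S_le (k := 64) (by norm_num) (by norm_num)) (Or.inr rfl) (m := 1) (fun i hi => ?_) (sN_X213_151m hx hx'))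
  fin_cases i
  · exact (sN_B213_150m hx hx').vn rfl (Or.inr rfl) (Or.inl rfl) (sideN hx hx') hκ
  · exact absurd hi (by decide)
  · exact absurd hi (by decide)
  · exact absurd hi (by decide)
  · exact absurd hi (by decide)

theorem alt12N_B213_21p {κ x : ℝ} (hκ : κ * h0 = ken x) (hx : ((201326592 : ℕ) : ℝ) / S ≤ x) (hx' : x ≤ (((201326592 : ℕ) : ℝ) + (134217728 : ℕ)) / S) :
    AltB (VN 3 κ) PP tKN tL pcN [⟨0, 1, 0, 57167902⟩, ⟨1, 1, 0, 57167902⟩, ⟨2, 2, 0, 11758673⟩] 2 1 3 2 1 (sgb true) (sgb true) x := by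
  exact altB12_vac (div_S_le (k := 64) (by norm_num) (by norm_num)) (by show rh 2 ≤ 1; simp [rh]; try norm_num)

theorem alt12N_B213_21m {κ x : ℝ} (hκ : κ * h0 = ken x) (hx : ((201326592 : ℕ) : ℝ) / S ≤ x) (hx' : x ≤ (((201326592 : ℕ) : ℝ) + (134217728 : ℕ)) / S) :
    AltB (VN 3 κ) PP tKN tL pcN [⟨0, 1, 0, 57167902⟩, ⟨1, 1, 0, 57167902⟩, ⟨2, 2, 0, 11758673⟩] 2 1 3 2 1 (sgb true) (sgb false) x := by
  refine altB12 (locB12 (div_S_le (k := 16) (by norm_num) (by norm_num)) (div_S_le (k := 64) (by norm_num) (by norm_num)) (Or.inr rfl) (m := 1) (fun i hi => ?_) (sN_X213_211m hx hx'))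
  fin_cases i
  · exact (sN_B213_210m hx hx').vn rfl (Or.inr rfl) (Or.inl rfl) (sideN hx hx') hκ
  · exact absurd hi (by decide)
  · exact absurd hi (by decide)
  · exact absurd hi (by decide)
  · exact absurd hi (by decide)

theorem alt12N_B213_22p {κ x : ℝ} (hκ : κ * h0 = ken x) (hx : ((201326592 : ℕ) : ℝ) / S ≤ x) (hx' : x ≤ (((201326592 : ℕ) : ℝ) + (134217728 : ℕ)) / S) :
    AltB (VN 3 κ) PP tKN tL pcN [⟨0, 1, 0, 57167902⟩, ⟨1, 1, 0, 57167902⟩, ⟨2, 2, 0, 11758673⟩] 2 1 3 2 2 (sgb true) (sgb true) x := by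
  exact altB12_vac (div_S_le (k := 64) (by norm_num) (by norm_num)) (by show rh 2 ≤ 1; simp [rh]; try norm_num)

theorem alt12N_B213_22m {κ x : ℝ} (hκ : κ * h0 = ken x) (hx : ((201326592 : ℕ) : ℝ) / S ≤ x) (hx' : x ≤ (((201326592 : ℕ) : ℝ) + (134217728 : ℕ)) / S) :
    AltB (VN 3 κ) PP tKN tL pcN [⟨0, 1, 0, 57167902⟩, ⟨1, 1, 0, 57167902⟩, ⟨2, 2, 0, 11758673⟩] 2 1 3 2 2 (sgb true) (sgb false) x := by
  refine altB12 (locB12 (div_S_le (k := 16) (by norm_num) (by norm_num)) (div_S_le (k := 64) (by norm_num) (by norm_num)) (Or.inr rfl) (m := 1) (fun i hi => ?_) (sN_X213_221m hx hx'))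
  fin_cases i
  · exact (sN_B213_220m hx hx').vn rfl (Or.inr rfl) (Or.inl rfl) (sideN hx hx') hκ
  · exact absurd hi (by decide)
  · exact absurd hi (by decide)
  · exact absurd hi (by decide)
  · exact absurd hi (by decide)

theorem alt12N_B213_23p {κ x : ℝ} (hκ : κ * h0 = ken x) (hx : ((201326592 : ℕ) : ℝ) / S ≤ x) (hx' : x ≤ (((201326592 : ℕ) : ℝ) + (134217728 : ℕ)) / S) :
    AltB (VN 3 κ) PP tKN tL pcN [⟨0, 1, 0, 57167902⟩, ⟨1, 1, 0, 57167902⟩, ⟨2, 2, 0, 11758673⟩] 2 1 3 2 3 (sgb true) (sgb true) x := by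
  exact altB12_vac (div_S_le (k := 64) (by norm_num) (by norm_num)) (by show rh 2 ≤ 1; simp [rh]; try norm_num)

theorem alt12N_B213_23m {κ x : ℝ} (hκ : κ * h0 = ken x) (hx : ((201326592 : ℕ) : ℝ) / S ≤ x) (hx' : x ≤ (((201326592 : ℕ) : ℝ) + (134217728 : ℕ)) / S) :
    AltB (VN 3 κ) PP tKN tL pcN [⟨0, 1, 0, 57167902⟩, ⟨1, 1, 0, 57167902⟩, ⟨2, 2, 0, 11758673⟩] 2 1 3 2 3 (sgb true) (sgb false) x := by
  refine altB12 (locB12 (div_S_le (k := 16) (by norm_num) (by norm_num)) (div_S_le (k := 64) (by norm_num) (by norm_num)) (Or.inr rfl) (m := 1) (fun i hi => ?_) (sN_X213_231m hx hx'))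
  fin_cases i
  · exact (sN_B213_230m hx hx').vn rfl (Or.inr rfl) (Or.inl rfl) (sideN hx hx') hκ
  · exact absurd hi (by decide)
  · exact absurd hi (by decide)
  · exact absurd hi (by decide)
  · exact absurd hi (by decide)

theorem alt12N_B213_24p {κ x : ℝ} (hκ : κ * h0 = ken x) (hx : ((201326592 : ℕ) : ℝ) / S ≤ x) (hx' : x ≤ (((201326592 : ℕ) : ℝ) + (134217728 : ℕ)) / S) :
    AltB (VN 3 κ) PP tKN tL pcN [⟨0, 1, 0, 57167902⟩, ⟨1, 1, 0, 57167902⟩, ⟨2, 2, 0, 11758673⟩] 2 1 3 2 4 (sgb true) (sgb true) x := by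
  exact altB12_vac (div_S_le (k := 64) (by norm_num) (by norm_num)) (by show rh 2 ≤ 1; simp [rh]; try norm_num)

theorem alt12N_B213_24m {κ x : ℝ} (hκ : κ * h0 = ken x) (hx : ((201326592 : ℕ) : ℝ) / S ≤ x) (hx' : x ≤ (((201326592 : ℕ) : ℝ) + (134217728 : ℕ)) / S) :
    AltB (VN 3 κ) PP tKN tL pcN [⟨0, 1, 0, 57167902⟩, ⟨1, 1, 0, 57167902⟩, ⟨2, 2, 0, 11758673⟩] 2 1 3 2 4 (sgb true) (sgb false) x := by
  refine altB12 (locB12 (div_S_le (k := 16) (by norm_num) (by norm_num)) (div_S_le (k := 64) (by norm_num) (by norm_num)) (Or.inr rfl) (m := 1) (fun i hi => ?_) (sN_X213_241m hx hx'))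
  fin_cases i
  · exact (sN_B213_240m hx hx').vn rfl (Or.inr rfl) (Or.inl rfl) (sideN hx hx') hκ
  · exact absurd hi (by decide)
  · exact absurd hi (by decide)
  · exact absurd hi (by decide)
  · exact absurd hi (by decide)

theorem alt12N_B213_25p {κ x : ℝ} (hκ : κ * h0 = ken x) (hx : ((201326592 : ℕ) : ℝ) / S ≤ x) (hx' : x ≤ (((201326592 : ℕ) : ℝ) + (134217728 : ℕ)) / S) :
    AltB (VN 3 κ) PP tKN tL pcN [⟨0, 1, 0, 57167902⟩, ⟨1, 1, 0, 57167902⟩, ⟨2, 2, 0, 11758673⟩] 2 1 3 2 5 (sgb true) (sgb true) x := by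
  exact altB12_vac (div_S_le (k := 64) (by norm_num) (by norm_num)) (by show rh 2 ≤ 1; simp [rh]; try norm_num)

theorem alt12N_B213_25m {κ x : ℝ} (hκ : κ * h0 = ken x) (hx : ((201326592 : ℕ) : ℝ) / S ≤ x) (hx' : x ≤ (((201326592 : ℕ) : ℝ) + (134217728 : ℕ)) / S) :
    AltB (VN 3 κ) PP tKN tL pcN [⟨0, 1, 0, 57167902⟩, ⟨1, 1, 0, 57167902⟩, ⟨2, 2, 0, 11758673⟩] 2 1 3 2 5 (sgb true) (sgb false) x := by
  refine altB12 (locB12 (div_S_le (k := 16) (by norm_num) (by norm_num)) (div_S_le (k := 64) (by norm_num) (by norm_num)) (Or.inr rfl) (m := 1) (fun i hi => ?_) (sN_X213_251m hx hx'))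
  fin_cases i
  · exact (sN_B213_250m hx hx').vn rfl (Or.inr rfl) (Or.inl rfl) (sideN hx hx') hκ
  · exact absurd hi (by decide)
  · exact absurd hi (by decide)
  · exact absurd hi (by decide)
  · exact absurd hi (by decide)

end Pool.Agent.Strip051.G.I3_16_5_16.Tab
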