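import Pool.Agent.Strip051.PB.Cuts

/-! # Tables I3_16_5_16 (generated) -/

namespace Pool.Agent.Strip051.G.I3_16_5_16.Tab

open Pool.Agent.Strip051.PB

noncomputable def c1g : Fn1 := ⟨_, _, fun h1 => (enc_sqrtg (enc_sub (enc_pnc _ 1) (enc_scale 3 4 (enc_sq h1))))⟩
noncomputable def kcg_3 : Fn2 := ⟨_, _, fun h1 h2 => (enc_subr 1 4 h2)⟩
noncomputable def kcg_6 : Fn2 := ⟨_, _, fun h1 h2 => (enc_add h1 (enc_rat _ 6 25))⟩
noncomputable def kcg_9 : Fn2 := ⟨_, _, fun h1 h2 => (enc_add h1 (enc_rat _ 37 91))⟩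
noncomputable def kcg_12 : Fn2 := ⟨_, _, fun h1 h2 => (enc_add h1 (enc_rat _ 7 16))⟩
noncomputable def kcg_13 : Fn2 := ⟨_, _, fun h1 h2 => (enc_scale 7177 31250 h1)⟩
noncomputable def kcg_16 : Fn2 := ⟨_, _, fun h1 h2 => (enc_scale 29833 6250 h1)⟩
noncomputable def kcg_27 : Fn2 := ⟨_, _, fun h1 h2 => (enc_subr 370369 500000 (enc_neg (enc_scale 176059 25000 (kcg_3.enc h1 h2))))⟩
noncomputable def kcg_35 : Fn2 := ⟨_, _, fun h1 h2 => (enc_scale 919373 2812500 h1)⟩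
noncomputable def kcg_38 : Fn2 := ⟨_, _, fun h1 h2 => (enc_scale 592501 140625 h1)⟩
noncomputable def kcg_47 : Fn2 := ⟨_, _, fun h1 h2 => (enc_subr 1647757 1000000 (enc_scale 3235487 100000 (kcg_3.enc h1 h2)))⟩
noncomputable def kcg_55 : Fn2 := ⟨_, _, fun h1 h2 => (enc_add h1 (enc_rat _ 7 20))⟩
noncomputable def kcg_56 : Fn2 := ⟨_, _, fun h1 h2 => (enc_scale 40131 321875 h1)⟩
noncomputable def kcg_59 : Fn2 := ⟨_, _, fun h1 h2 => (enc_scale 653653 257500 h1)⟩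
noncomputable def kcg_67 : Fn2 := ⟨_, _, fun h1 h2 => (enc_add (enc_scale 596397 50000 (kcg_3.enc h1 h2)) (enc_rat _ 4472847 1000000))⟩
noncomputable def kcg_74 : Fn2 := ⟨_, _, fun h1 h2 => (enc_add h1 (enc_rat _ 29 100))⟩
noncomputable def kcg_75 : Fn2 := ⟨_, _, fun h1 h2 => (enc_scale 14357 60000 h1)⟩
noncomputable def kcg_79 : Fn2 := ⟨_, _, fun h1 h2 => (enc_scale 1231 2000 h1)⟩
noncomputable def kcg_87 : Fn2 := ⟨_, _, fun h1 h2 => (enc_add (enc_scale 2079827 100000 (kcg_3.enc h1 h2)) (enc_rat _ 23089 12500))⟩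
noncomputable def kcg_92 : Fn2 := ⟨_, _, fun h1 h2 => (enc_scale 12759 25000 h1)⟩
noncomputable def kcg_96 : Fn2 := ⟨_, _, fun h1 h2 => (enc_scale 1047 1000 h1)⟩
noncomputable def kcg_106 : Fn2 := ⟨_, _, fun h1 h2 => (enc_add (enc_scale 828947 100000 (kcg_3.enc h1 h2)) (enc_rat _ 3205213 1000000))⟩
noncomputable def kcg_116 : Fn2 := ⟨_, _, fun h1 h2 => (enc_add h1 (enc_rat _ 29 200))⟩
noncomputable def kcg_119 : Fn2 := ⟨_, _, fun h1 h2 => (enc_add h1 (enc_rat _ 47 247))⟩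
noncomputable def kcg_120 : Fn2 := ⟨_, _, fun h1 h2 => (enc_scale 9707347 12280000 h1)⟩
noncomputable def kcg_124 : Fn2 := ⟨_, _, fun h1 h2 => (enc_scale 364819 1228000 h1)⟩
noncomputable def kcg_135 : Fn2 := ⟨_, _, fun h1 h2 => (enc_sub (enc_rat _ 2411031 1000000) (enc_scale 1170857 50000 (kcg_3.enc h1 h2)))⟩
noncomputable def kcg_140 : Fn2 := ⟨_, _, fun h1 h2 => (enc_scale 13061607 11185000 h1)⟩
noncomputable def kcg_145 : Fn2 := ⟨_, _, fun h1 h2 => (enc_scale 38779 22370 h1)⟩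
noncomputable def kcg_155 : Fn2 := ⟨_, _, fun h1 h2 => (enc_sub (enc_rat _ 2842173 500000) (enc_scale 239209 12500 (kcg_3.enc h1 h2)))⟩
noncomputable def kcg_163 : Fn2 := ⟨_, _, fun h1 h2 => (enc_add h1 (enc_rat _ 1 10))⟩
noncomputable def kcg_164 : Fn2 := ⟨_, _, fun h1 h2 => (enc_scale 11189 9000 h1)⟩
noncomputable def kcg_169 : Fn2 := ⟨_, _, fun h1 h2 => (enc_scale 1172 1125 h1)⟩
noncomputable def kcg_178 : Fn2 := ⟨_, _, fun h1 h2 => (enc_subr 404379 100000 (enc_scale 21646 625 (kcg_3.enc h1 h2)))⟩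
noncomputable def kcg_186 : Fn2 := ⟨_, _, fun h1 h2 => (enc_scale 6011 7500 h1)⟩
noncomputable def kcg_191 : Fn2 := ⟨_, _, fun h1 h2 => (enc_scale 227 125 h1)⟩
noncomputable def kcg_201 : Fn2 := ⟨_, _, fun h1 h2 => (enc_subr 432973 62500 (enc_scale 1731791 50000 (kcg_3.enc h1 h2)))⟩
noncomputable def kcg_206 : Fn2 := ⟨_, _, fun h1 h2 => (enc_scale 16927 31250 h1)⟩
noncomputable def kcg_211 : Fn2 := ⟨_, _, fun h1 h2 => (enc_mul (enc_norm (kcg_3.enc h1 h2)) (enc_scale 9733 3125 h1))⟩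
noncomputable def kcg_219 : Fn2 := ⟨_, _, fun h1 h2 => (enc_sub (enc_rat _ 6 25) h1)⟩
noncomputable def kcg_220 : Fn2 := ⟨_, _, fun h1 h2 => (enc_sub (enc_rat _ 37 91) h1)⟩
noncomputable def kcg_221 : Fn2 := ⟨_, _, fun h1 h2 => (enc_sub (enc_rat _ 7 16) h1)⟩
noncomputable def kcg_244 : Fn2 := ⟨_, _, fun h1 h2 => (enc_sub (enc_rat _ 7 20) h1)⟩
noncomputable def kcg_255 : Fn2 := ⟨_, _, fun h1 h2 => (enc_sub (enc_rat _ 29 100) h1)⟩
noncomputable def kcg_276 : Fn2 := ⟨_, _, fun h1 h2 => (enc_sub (enc_rat _ 29 200) h1)⟩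
noncomputable def kcg_277 : Fn2 := ⟨_, _, fun h1 h2 => (enc_sub (enc_rat _ 47 247) h1)⟩
noncomputable def kcg_296 : Fn2 := ⟨_, _, fun h1 h2 => (enc_sub (enc_rat _ 1 10) h1)⟩
noncomputable def kcg : Fn2 := ⟨_, _, fun h1 h2 => (enc_norm (enc_case h1 (enc_case (kcg_6.enc h1 h2) (enc_case (kcg_9.enc h1 h2) (enc_case (kcg_12.enc h1 h2) (enc_add (enc_add (enc_add (kcg_13.enc h1 h2) (enc_rat _ 33523 100000)) (enc_mul (enc_norm (kcg_3.enc h1 h2)) (enc_norm (enc_add (kcg_16.enc h1 h2) (enc_rat _ 991 500))))) (enc_mul (enc_norm (kcg_27.enc h1 h2)) (enc_norm (enc_mul (enc_norm (enc_add h1 (enc_rat _ 1 2))) (enc_norm (enc_sub (enc_neg (enc_rat _ 7 16)) h1)))))) (enc_add (enc_add (enc_add (kcg_35.enc h1 h2) (enc_rat _ 16999451 45000000)) (enc_mul (enc_norm (kcg_3.enc h1 h2)) (enc_norm (enc_add (kcg_38.enc h1 h2) (enc_rat _ 7816619 4500000))))) (enc_mul (enc_norm (kcg_47.enc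 h1 h2)) (enc_norm (enc_mul (enc_norm (kcg_12.enc h1 h2)) (enc_norm (enc_sub (enc_neg (enc_rat _ 37 91)) h1))))))) (enc_case (kcg_55.enc h1 h2) (enc_add (enc_add (enc_add (kcg_56.enc h1 h2) (enc_rat _ 6088301 20600000)) (enc_mul (enc_norm (kcg_3.enc h1 h2)) (enc_norm (enc_add (kcg_59.enc h1 h2) (enc_rat _ 10877113 10300000))))) (enc_mul (enc_norm (kcg_67.enc h1 h2)) (enc_norm (enc_mul (enc_norm (kcg_9.enc h1 h2)) (enc_norm (enc_sub (enc_neg (enc_rat _ 7 20)) h1)))))) (enc_case (kcg_74.enc h1 h2) (enc_add (enc_add (enc_sub (enc_rat _ 1008971 6000000) (kcg_75.enc h1 h2)) (enc_mul (enc_norm (kcg_3.enc h1 h2)) (enc_norm (enc_add (kcg_79.enc h1 h2) (enc_rat _ 76599 200000))))) (enc_mul (enc_norm (kcg_87.enc h1 h2)) (enc_norm (enc_mul (enc_norm (kcg_55.enc h1 h2)) (enc_norm (enc_sub (enc_neg (enc_rat _ 29 100)) h1)))))) (enc_add (enc_add (enc_sub (enc_rat _ 111937 1250000)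 (kcg_92.enc h1 h2)) (enc_mul (enc_norm (kcg_3.enc h1 h2)) (enc_norm (enc_subr 9913 100000 (enc_neg (kcg_96.enc h1 h2)))))) (enc_mul (enc_norm (kcg_106.enc h1 h2)) (enc_norm (enc_mul (enc_norm (kcg_74.enc h1 h2)) (enc_norm (enc_sub (enc_neg (enc_rat _ 6 25)) h1))))))))) (enc_case (kcg_116.enc h1 h2) (enc_case (kcg_119.enc h1 h2) (enc_add (enc_add (enc_sub (enc_rat _ 685097 30700000) (kcg_120.enc h1 h2)) (enc_mul (enc_norm (kcg_3.enc h1 h2)) (enc_norm (enc_sub (enc_rat _ 2482091 30700000) (kcg_124.enc h1 h2))))) (enc_mul (enc_norm (kcg_135.enc h1 h2)) (enc_norm (enc_mul (enc_norm (kcg_6.enc h1 h2)) (enc_norm (enc_sub (enc_neg (enc_rat _ 47 247)) h1)))))) (enc_add (enc_add (enc_subr 22134641 447400000 (enc_neg (kcg_140.enc h1 h2))) (enc_mul (enc_norm (kcg_3.enc h1 h2)) (enc_norm (enc_add (kcg_145.enc h1 h2) (enc_rat _ 52260953 111850000))))) (enc_mul (enc_norm (kcg_155.enc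 h1 h2)) (enc_norm (enc_mul (enc_norm (kcg_119.enc h1 h2)) (enc_norm (enc_sub (enc_neg (enc_rat _ 29 200)) h1))))))) (enc_case (kcg_163.enc h1 h2) (enc_add (enc_add (enc_subr 543719 9000000 (enc_neg (kcg_164.enc h1 h2))) (enc_mul (enc_norm (kcg_3.enc h1 h2)) (enc_norm (enc_add (kcg_169.enc h1 h2) (enc_rat _ 82561 225000))))) (enc_mul (enc_norm (kcg_178.enc h1 h2)) (enc_norm (enc_mul (enc_norm (kcg_116.enc h1 h2)) (enc_norm (enc_sub (enc_neg (enc_rat _ 1 10)) h1)))))) (enc_case (enc_add h1 (enc_rat _ 1 16)) (enc_add (enc_add (enc_subr 48713 3000000 (enc_neg (kcg_186.enc h1 h2))) (enc_mul (enc_norm (kcg_3.enc h1 h2)) (enc_norm (enc_sub (enc_rat _ 2029 25000) (kcg_191.enc h1 h2))))) (enc_mul (enc_norm (kcg_201.enc h1 h2)) (enc_norm (enc_mul (enc_norm (kcg_163.enc h1 h2)) (enc_norm (enc_sub (enc_neg (enc_rat _ 1 16)) h1)))))) (enc_sub (enc_neg (kcg_206.enc h1 h2)) (kcg_211.enc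 h1 h2)))))) (enc_neg (enc_case (kcg_219.enc h1 h2) (enc_case (kcg_220.enc h1 h2) (enc_case (kcg_221.enc h1 h2) (enc_add (enc_add (enc_sub (enc_rat _ 33523 100000) (kcg_13.enc h1 h2)) (enc_mul (enc_norm (kcg_3.enc h1 h2)) (enc_norm (enc_sub (enc_rat _ 991 500) (kcg_16.enc h1 h2))))) (enc_mul (enc_norm (kcg_27.enc h1 h2)) (enc_norm (enc_mul (enc_norm (enc_sub (enc_rat _ 1 2) h1)) (enc_norm (enc_subr 7 16 h1)))))) (enc_add (enc_add (enc_sub (enc_rat _ 16999451 45000000) (kcg_35.enc h1 h2)) (enc_mul (enc_norm (kcg_3.enc h1 h2)) (enc_norm (enc_sub (enc_rat _ 7816619 4500000) (kcg_38.enc h1 h2))))) (enc_mul (enc_norm (kcg_47.enc h1 h2)) (enc_norm (enc_mul (enc_norm (kcg_221.enc h1 h2)) (enc_norm (enc_subr 37 91 h1))))))) (enc_case (kcg_244.enc h1 h2) (enc_add (enc_add (enc_sub (enc_rat _ 6088301 20600000) (kcg_56.enc h1 h2)) (enc_mul (enc_norm (kcg_3.enc h1 h2)) (enc_norm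 (enc_sub (enc_rat _ 10877113 10300000) (kcg_59.enc h1 h2))))) (enc_mul (enc_norm (kcg_67.enc h1 h2)) (enc_norm (enc_mul (enc_norm (kcg_220.enc h1 h2)) (enc_norm (enc_subr 7 20 h1)))))) (enc_case (kcg_255.enc h1 h2) (enc_add (enc_add (enc_add (kcg_75.enc h1 h2) (enc_rat _ 1008971 6000000)) (enc_mul (enc_norm (kcg_3.enc h1 h2)) (enc_norm (enc_sub (enc_rat _ 76599 200000) (kcg_79.enc h1 h2))))) (enc_mul (enc_norm (kcg_87.enc h1 h2)) (enc_norm (enc_mul (enc_norm (kcg_244.enc h1 h2)) (enc_norm (enc_subr 29 100 h1)))))) (enc_add (enc_add (enc_add (kcg_92.enc h1 h2) (enc_rat _ 111937 1250000)) (enc_mul (enc_norm (kcg_3.enc h1 h2)) (enc_norm (enc_subr 9913 100000 (kcg_96.enc h1 h2))))) (enc_mul (enc_norm (kcg_106.enc h1 h2)) (enc_norm (enc_mul (enc_norm (kcg_255.enc h1 h2)) (enc_norm (enc_subr 6 25 h1))))))))) (enc_case (kcg_276.enc h1 h2) (enc_case (kcg_277.enc h1 h2)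 (enc_add (enc_add (enc_add (kcg_120.enc h1 h2) (enc_rat _ 685097 30700000)) (enc_mul (enc_norm (kcg_3.enc h1 h2)) (enc_norm (enc_add (kcg_124.enc h1 h2) (enc_rat _ 2482091 30700000))))) (enc_mul (enc_norm (kcg_135.enc h1 h2)) (enc_norm (enc_mul (enc_norm (kcg_219.enc h1 h2)) (enc_norm (enc_subr 47 247 h1)))))) (enc_add (enc_add (enc_subr 22134641 447400000 (kcg_140.enc h1 h2)) (enc_mul (enc_norm (kcg_3.enc h1 h2)) (enc_norm (enc_sub (enc_rat _ 52260953 111850000) (kcg_145.enc h1 h2))))) (enc_mul (enc_norm (kcg_155.enc h1 h2)) (enc_norm (enc_mul (enc_norm (kcg_277.enc h1 h2)) (enc_norm (enc_subr 29 200 h1))))))) (enc_case (kcg_296.enc h1 h2) (enc_add (enc_add (enc_subr 543719 9000000 (kcg_164.enc h1 h2)) (enc_mul (enc_norm (kcg_3.enc h1 h2)) (enc_norm (enc_sub (enc_rat _ 82561 225000) (kcg_169.enc h1 h2))))) (enc_mul (enc_norm (kcg_178.enc h1 h2)) (enc_norm (enc_mul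 (enc_norm (kcg_276.enc h1 h2)) (enc_norm (enc_subr 1 10 h1)))))) (enc_case (enc_sub (enc_rat _ 1 16) h1) (enc_add (enc_add (enc_subr 48713 3000000 (kcg_186.enc h1 h2)) (enc_mul (enc_norm (kcg_3.enc h1 h2)) (enc_norm (enc_add (kcg_191.enc h1 h2) (enc_rat _ 2029 25000))))) (enc_mul (enc_norm (kcg_201.enc h1 h2)) (enc_norm (enc_mul (enc_norm (kcg_296.enc h1 h2)) (enc_norm (enc_subr 1 16 h1)))))) (enc_add (kcg_206.enc h1 h2) (kcg_211.enc h1 h2)))))))))⟩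
noncomputable def kf0q0_9 : Fn2 := ⟨_, _, fun h1 h2 => (enc_scale 3 2 h1)⟩
noncomputable def kf0q0_12 : Fn2 := ⟨_, _, fun h1 h2 => (enc_add (enc_pnc _ 1) (c1g.enc h1))⟩
noncomputable def kf0q0 : Fn2 := ⟨_, _, fun h1 h2 => (enc_norm (enc_add (enc_mul (enc_norm (enc_mul (enc_norm (enc_sub (c1g.enc h1) (kf0q0_9.enc h1 h2))) (enc_norm (kf0q0_12.enc h1 h2)))) (enc_inv (enc_sub (kf0q0_12.enc h1 h2) (kf0q0_9.enc h1 h2)))) (enc_mul h1 (kcg.enc (enc_norm (enc_sub (enc_scale 3 4 h1) (enc_half (c1g.enc h1)))) h2))))⟩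
noncomputable def txg_4 : Fn3 := ⟨_, _, fun h1 h2 h3 => (enc_subr 1 4 h3)⟩
noncomputable def txg_6 : Fn3 := ⟨_, _, fun h1 h2 h3 => (enc_add h1 (enc_half h2))⟩
noncomputable def txg_27 : Fn3 := ⟨_, _, fun h1 h2 h3 => (enc_add h1 (enc_rat _ 7 16))⟩
noncomputable def txg_61 : Fn3 := ⟨_, _, fun h1 h2 h3 => (enc_sq (enc_norm (txg_4.enc h1 h2 h3)))⟩
noncomputable def txg_78 : Fn3 := ⟨_, _, fun h1 h2 h3 => (enc_add h1 (enc_rat _ 47 247))⟩
noncomputable def txg_80 : Fn3 := ⟨_, _, fun h1 h2 h3 => (enc_subr 3 25 h1)⟩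
noncomputable def txg_83 : Fn3 := ⟨_, _, fun h1 h2 h3 => (enc_add h1 (enc_rat _ 1 10))⟩
noncomputable def txg_86 : Fn3 := ⟨_, _, fun h1 h2 h3 => (enc_add h1 (enc_rat _ 7 50))⟩
noncomputable def txg_134 : Fn3 := ⟨_, _, fun h1 h2 h3 => (enc_add h1 (enc_rat _ 1 16))⟩
noncomputable def txg_153 : Fn3 := ⟨_, _, fun h1 h2 h3 => (enc_subr 1 16 h1)⟩
noncomputable def txg_196 : Fn3 := ⟨_, _, fun h1 h2 h3 => (enc_subr 8 25 h1)⟩
noncomputable def txg_198 : Fn3 := ⟨_, _, fun h1 h2 h3 => (enc_subr 9 50 h1)⟩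
noncomputable def txg_219 : Fn3 := ⟨_, _, fun h1 h2 h3 => (enc_subr 1 4 h1)⟩
noncomputable def txg_259 : Fn3 := ⟨_, _, fun h1 h2 h3 => (enc_subr 19 50 h1)⟩
noncomputable def txg_279 : Fn3 := ⟨_, _, fun h1 h2 h3 => (enc_subr 7 16 h1)⟩
noncomputable def txg : Fn3 := ⟨_, _, fun h1 h2 h3 => (enc_case (enc_add h1 (enc_rat _ 37 91)) (enc_case (txg_27.enc h1 h2 h3) (enc_add (enc_add (enc_add (enc_scale 5319 62500 h1) (enc_rat _ 5319 125000)) (enc_mul (enc_norm (txg_4.enc h1 h2 h3)) (enc_norm (enc_add (enc_scale 361 1250 h1) (enc_rat _ 361 2500))))) (enc_mul (enc_norm (enc_subr 239039 500000 (enc_neg (enc_scale 6999 100000 (txg_4.enc h1 h2 h3))))) (enc_norm (enc_mul (enc_norm (enc_add h1 (enc_rat _ 1 2))) (enc_norm (enc_sub (enc_neg (enc_rat _ 7 16)) h1)))))) (enc_add (enc_add (enc_add (enc_add (enc_scale 8492521 73125000 h1) (enc_rat _ 65670877 1170000000)) (enc_mul (enc_norm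 (txg_4.enc h1 h2 h3)) (enc_norm (enc_add (enc_scale 3046217 10237500 h1) (enc_rat _ 3468587 23400000))))) (enc_mul (txg_61.enc h1 h2 h3) (enc_norm (enc_add (enc_scale 797 9375 h1) (enc_rat _ 5579 150000))))) (enc_mul (enc_norm (enc_subr 2293 100000 (enc_neg (enc_scale 51091 100000 (txg_4.enc h1 h2 h3))))) (enc_norm (enc_mul (enc_norm (txg_27.enc h1 h2 h3)) (enc_norm (enc_sub (enc_neg (enc_rat _ 37 91)) h1))))))) (enc_case (txg_78.enc h1 h2 h3) (enc_sub (enc_mul (enc_norm (enc_sub (enc_pnc _ 1) h2)) (enc_norm (enc_subn 1 (enc_nat 2 h2)))) (enc_mul (enc_norm (enc_nat 2 (enc_sub (enc_scale 4 3 (txg_6.enc h1 h2 h3)) h3))) (enc_norm (enc_mul (enc_norm (enc_subn 1 (enc_add (enc_scale 2 3 (txg_6.enc h1 h2 h3)) h2))) (kcg.enc h1 h3))))) (enc_case (txg_80.enc h1 h2 h3) (enc_case (txg_83.enc h1 h2 h3) (enc_case (txg_86.enc h1 h2 h3) (enc_add (enc_add (enc_add (enc_add (enc_scale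 10369643 53352000 h1) (enc_rat _ 8517731 106704000)) (enc_mul (enc_norm (txg_4.enc h1 h2 h3)) (enc_norm (enc_sub (enc_rat _ 51360533 1278225000) (enc_scale 44686 6391125 h1))))) (enc_mul (txg_61.enc h1 h2 h3) (enc_norm (enc_subr 528913 5175000 (enc_neg (enc_scale 75559 103500 h1)))))) (enc_mul (enc_norm (enc_sub (enc_rat _ 732341 1000000) (enc_scale 471111 100000 (txg_4.enc h1 h2 h3)))) (enc_norm (enc_mul (enc_norm (txg_78.enc h1 h2 h3)) (enc_norm (enc_sub (enc_neg (enc_rat _ 7 50)) h1)))))) (enc_add (enc_add (enc_add (enc_scale 5189 40000 h1) (enc_rat _ 141553 2000000)) (enc_mul (enc_norm (txg_4.enc h1 h2 h3)) (enc_norm (enc_add (enc_scale 149 400 h1) (enc_rat _ 9331 100000))))) (enc_mul (enc_norm (enc_sub (enc_rat _ 329101 500000) (enc_scale 90487 25000 (txg_4.enc h1 h2 h3)))) (enc_norm (enc_mul (enc_norm (txg_86.enc h1 h2 h3)) (enc_norm (enc_sub (enc_neg (enc_rat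 _ 1 10)) h1))))))) (enc_case (txg_134.enc h1 h2 h3) (enc_add (enc_add (enc_add (enc_scale 471 6250 h1) (enc_rat _ 3267 50000)) (enc_mul (enc_norm (txg_4.enc h1 h2 h3)) (enc_norm (enc_add (enc_scale 359 625 h1) (enc_rat _ 227 2000))))) (enc_mul (enc_norm (enc_sub (enc_rat _ 93517 125000) (enc_scale 76067 50000 (txg_4.enc h1 h2 h3)))) (enc_norm (enc_mul (enc_norm (txg_83.enc h1 h2 h3)) (enc_norm (enc_sub (enc_neg (enc_rat _ 1 16)) h1)))))) (enc_case (txg_153.enc h1 h2 h3) (enc_add (enc_add (enc_sub (enc_rat _ 119233 2000000) (enc_scale 2027 125000 h1)) (enc_mul (enc_norm (txg_4.enc h1 h2 h3)) (enc_norm (enc_sub (enc_rat _ 7699 100000) (enc_scale 61 6250 h1))))) (enc_mul (enc_norm (enc_add (enc_scale 32057 6250 (txg_4.enc h1 h2 h3)) (enc_rat _ 507923 1000000))) (enc_norm (enc_mul (enc_norm (txg_134.enc h1 h2 h3)) (enc_norm (enc_sub (enc_rat _ 1 16) h1)))))) (enc_add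 (enc_add (enc_sub (enc_rat _ 1503969 23000000) (enc_scale 1561 14375 h1)) (enc_mul (enc_norm (txg_4.enc h1 h2 h3)) (enc_norm (enc_sub (enc_rat _ 62331 575000) (enc_scale 1473 2875 h1))))) (enc_mul (enc_norm (enc_sub (enc_rat _ 125661 250000) (enc_scale 240919 100000 (txg_4.enc h1 h2 h3)))) (enc_norm (enc_mul (enc_norm (txg_153.enc h1 h2 h3)) (enc_norm (enc_sub (enc_rat _ 3 25) h1))))))))) (enc_case (txg_196.enc h1 h2 h3) (enc_case (txg_198.enc h1 h2 h3) (enc_add (enc_add (enc_sub (enc_rat _ 73531 1000000) (enc_scale 5293 30000 h1)) (enc_mul (enc_norm (txg_4.enc h1 h2 h3)) (enc_norm (enc_sub (enc_rat _ 2893 50000) (enc_scale 547 6000 h1))))) (enc_mul (enc_norm (enc_sub (enc_rat _ 324527 500000) (enc_scale 58849 12500 (txg_4.enc h1 h2 h3)))) (enc_norm (enc_mul (enc_norm (txg_80.enc h1 h2 h3)) (enc_norm (enc_sub (enc_rat _ 9 50) h1)))))) (enc_case (txg_219.enc h1 h2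 h3) (enc_add (enc_add (enc_sub (enc_rat _ 109037 1400000) (enc_scale 14043 70000 h1)) (enc_mul (enc_norm (txg_4.enc h1 h2 h3)) (enc_norm (enc_add (enc_scale 243 1750 h1) (enc_rat _ 11519 700000))))) (enc_mul (enc_norm (enc_subr 105589 500000 (enc_scale 9339 12500 (txg_4.enc h1 h2 h3)))) (enc_norm (enc_mul (enc_norm (txg_198.enc h1 h2 h3)) (enc_norm (enc_sub (enc_rat _ 1 4) h1)))))) (enc_add (enc_add (enc_sub (enc_rat _ 96057 1400000) (enc_scale 11447 70000 h1)) (enc_mul (enc_norm (txg_4.enc h1 h2 h3)) (enc_norm (enc_add (enc_scale 1 140 h1) (enc_rat _ 34569 700000))))) (enc_mul (enc_norm (enc_subr 15919 50000 (enc_scale 11367 10000 (txg_4.enc h1 h2 h3)))) (enc_norm (enc_mul (enc_norm (txg_219.enc h1 h2 h3)) (enc_norm (enc_sub (enc_rat _ 8 25) h1)))))))) (enc_case (txg_259.enc h1 h2 h3) (enc_add (enc_add (enc_sub (enc_rat _ 57307 1000000) (enc_scale 641 5000 h1))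 (enc_mul (enc_norm (txg_4.enc h1 h2 h3)) (enc_norm (enc_sub (enc_rat _ 34829 300000) (enc_scale 151 750 h1))))) (enc_mul (enc_norm (enc_subr 217469 1000000 (enc_scale 214761 100000 (txg_4.enc h1 h2 h3)))) (enc_norm (enc_mul (enc_norm (txg_196.enc h1 h2 h3)) (enc_norm (enc_sub (enc_rat _ 19 50) h1)))))) (enc_case (txg_279.enc h1 h2 h3) (enc_add (enc_add (enc_sub (enc_rat _ 1083601 23000000) (enc_scale 5829 57500 h1)) (enc_mul (enc_norm (txg_4.enc h1 h2 h3)) (enc_norm (enc_sub (enc_rat _ 410409 2300000) (enc_scale 2101 5750 h1))))) (enc_mul (enc_norm (enc_subr 23977 100000 (enc_scale 6071 10000 (txg_4.enc h1 h2 h3)))) (enc_norm (enc_mul (enc_norm (txg_259.enc h1 h2 h3)) (enc_norm (enc_sub (enc_rat _ 7 16) h1)))))) (enc_add (enc_add (enc_sub (enc_rat _ 1381 62500) (enc_scale 1381 31250 h1)) (enc_mul (enc_norm (txg_4.enc h1 h2 h3)) (enc_norm (enc_sub (enc_rat _ 929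 6250) (enc_scale 929 3125 h1))))) (enc_mul (enc_norm (enc_subr 694429 1000000 (enc_neg (enc_scale 164417 100000 (txg_4.enc h1 h2 h3))))) (enc_norm (enc_mul (enc_norm (txg_279.enc h1 h2 h3)) (enc_norm (enc_sub (enc_rat _ 1 2) h1))))))))))))⟩
noncomputable def l0q0 : Fn2 := ⟨_, _, fun h1 h2 => (enc_norm (txg.enc (enc_norm (enc_sub (enc_scale 3 4 h1) (enc_half (c1g.enc h1)))) (c1g.enc h1) h2))⟩
noncomputable def kf0q1_10 : Fn2 := ⟨_, _, fun h1 h2 => (enc_scale 3 2 h1)⟩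
noncomputable def kf0q1 : Fn2 := ⟨_, _, fun h1 h2 => (enc_norm (enc_add (enc_mul (enc_norm (enc_mul (enc_norm (enc_add (enc_pnc _ 1) (enc_nat 2 (c1g.enc h1)))) (enc_norm (enc_sub (kf0q1_10.enc h1 h2) (c1g.enc h1))))) (enc_inv (enc_nat 2 (enc_sub (enc_add (enc_pnc _ 1) (kf0q1_10.enc h1 h2)) (c1g.enc h1))))) (enc_mul (enc_norm (enc_subn 1 h1)) (kcg.enc (enc_norm (enc_sub (enc_scale 3 4 h1) (enc_half (c1g.enc h1)))) h2))))⟩
noncomputable def l0q1 : Fn2 := ⟨_, _, fun h1 h2 => (enc_norm (txg.enc (enc_norm (enc_sub (enc_scale 3 4 h1) (enc_half (c1g.enc h1)))) (c1g.enc h1) h2))⟩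
noncomputable def yag : Fn1 := ⟨_, _, fun h1 => (enc_sqrt (enc_scale 4 3 (enc_sub (enc_pnc _ 1) (enc_sq h1))))⟩
noncomputable def kfc02 : Fn2 := ⟨_, _, fun h1 h2 => (enc_norm (enc_add h1 (enc_mul (enc_norm (enc_subn 1 (yag.enc h1))) (kcg.enc (enc_neg h1) h2))))⟩
noncomputable def lc02_7 : Fn2 := ⟨_, _, fun h1 h2 => (enc_scale 3 4 (yag.enc h1))⟩
noncomputable def lc02_8 : Fn2 := ⟨_, _, fun h1 h2 => (enc_half h1)⟩
noncomputable def lc02 : Fn2 := ⟨_, _, fun h1 h2 => (enc_norm (enc_sub (txg.enc (enc_neg h1) (enc_norm (enc_add (lc02_7.enc h1 h2) (lc02_8.enc h1 h2))) h2) (txg.enc h1 (enc_norm (enc_sub (lc02_7.enc h1 h2) (lc02_8.enc h1 h2))) h2)))⟩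
noncomputable def swg : Fn1 := ⟨_, _, fun h1 => (enc_sqrt (enc_sub (enc_pnc _ 1) (enc_scale 3 4 (enc_sq (enc_norm (enc_subn 1 h1))))))⟩
noncomputable def cv1m : Fn1 := ⟨_, _, fun h1 => (enc_norm (enc_add (enc_half (c1g.enc h1)) (enc_half (enc_add (swg.enc h1) (enc_rat _ 1 2)))))⟩
noncomputable def bf1q0 : Fn2 := ⟨_, _, fun h1 h2 => (enc_norm (enc_sub (enc_sub (enc_pnc _ 1) (enc_scale 90833 125000 h1)) (enc_mul (enc_norm (enc_subr 1 4 h2)) (enc_scale 35029 50000 h1))))⟩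
noncomputable def kf1q0 : Fn2 := ⟨_, _, fun h1 h2 => (enc_norm (enc_mul (cv1m.enc h1) (bf1q0.enc h1 h2)))⟩
noncomputable def bx1q0 : Fn2 := ⟨_, _, fun h1 h2 => (enc_norm (enc_add (enc_scale 1449 62500 h1) (enc_mul (enc_norm (enc_subr 1 4 h2)) (enc_scale 216 625 h1))))⟩
noncomputable def l1q0 : Fn2 := ⟨_, _, fun h1 h2 => (enc_norm (enc_mul (cv1m.enc h1) (bx1q0.enc h1 h2)))⟩
noncomputable def bf1q1_3 : Fn2 := ⟨_, _, fun h1 h2 => (enc_subr 1 4 h2)⟩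
noncomputable def bf1q1 : Fn2 := ⟨_, _, fun h1 h2 => (enc_norm (enc_case (enc_subr 4 5 h1) (enc_case (enc_subr 7 10 h1) (enc_add (enc_subr 83851 500000 (enc_scale 38907 50000 h1)) (enc_mul (enc_norm (bf1q1_3.enc h1 h2)) (enc_norm (enc_subr 239471 200000 (enc_scale 24619 20000 h1))))) (enc_add (enc_subr 85139 500000 (enc_scale 39091 50000 h1)) (enc_mul (enc_norm (bf1q1_3.enc h1 h2)) (enc_norm (enc_subr 23763 20000 (enc_scale 6089 5000 h1)))))) (enc_case (enc_subr 7 8 h1) (enc_add (enc_subr 259633 1500000 (enc_scale 589 750 h1)) (enc_mul (enc_norm (bf1q1_3.enc h1 h2)) (enc_norm (enc_subr 351469 300000 (enc_scale 4489 3750 h1))))) (enc_case (enc_subr 19 20 h1) (enc_add (enc_subr 263063 1500000 (enc_scale 7387 9375 h1)) (enc_mul (enc_norm (bf1q1_3.enc h1 h2)) (enc_norm (enc_subr 14331 12500 (enc_scale 2921 2500 h1))))) (enc_add (enc_subr 35241 200000 (enc_scale 39441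 50000 h1)) (enc_mul (enc_norm (bf1q1_3.enc h1 h2)) (enc_norm (enc_subr 27769 25000 (enc_scale 2827 2500 h1)))))))))⟩
noncomputable def kf1q1 : Fn2 := ⟨_, _, fun h1 h2 => (enc_norm (enc_mul (cv1m.enc h1) (bf1q1.enc h1 h2)))⟩
noncomputable def bx1q1_3 : Fn2 := ⟨_, _, fun h1 h2 => (enc_subr 1 4 h2)⟩
noncomputable def bx1q1 : Fn2 := ⟨_, _, fun h1 h2 => (enc_norm (enc_case (enc_subr 4 5 h1) (enc_case (enc_subr 7 10 h1) (enc_add (enc_sub (enc_rat _ 170083 2000000) (enc_scale 20289 200000 h1)) (enc_mul (enc_norm (bx1q1_3.enc h1 h2)) (enc_norm (enc_sub (enc_rat _ 13367 25000) (enc_scale 453 1000 h1))))) (enc_add (enc_sub (enc_rat _ 40461 500000) (enc_scale 2389 25000 h1)) (enc_mul (enc_norm (bx1q1_3.enc h1 h2)) (enc_norm (enc_sub (enc_rat _ 3193 6250) (enc_scale 419 1000 h1)))))) (enc_case (enc_subr 7 8 h1) (enc_add (enc_sub (enc_rat _ 36573 500000) (enc_scale 1073 12500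 h1)) (enc_mul (enc_norm (bx1q1_3.enc h1 h2)) (enc_norm (enc_sub (enc_rat _ 5123 9375) (enc_scale 869 1875 h1))))) (enc_case (enc_subr 19 20 h1) (enc_add (enc_sub (enc_rat _ 6199 93750) (enc_scale 1459 18750 h1)) (enc_mul (enc_norm (bx1q1_3.enc h1 h2)) (enc_norm (enc_sub (enc_rat _ 8149 12500) (enc_scale 73 125 h1))))) (enc_add (enc_sub (enc_rat _ 206 3125) (enc_scale 97 1250 h1)) (enc_mul (enc_norm (bx1q1_3.enc h1 h2)) (enc_norm (enc_sub (enc_rat _ 85123 100000) (enc_scale 3969 5000 h1)))))))))⟩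
noncomputable def l1q1 : Fn2 := ⟨_, _, fun h1 h2 => (enc_norm (enc_mul (cv1m.enc h1) (bx1q1.enc h1 h2)))⟩
noncomputable def xc12a : Fn1 := ⟨_, _, fun h1 => (enc_norm (enc_add (enc_half h1) (enc_half (enc_subr 1 2 (swg.enc (yag.enc h1))))))⟩
noncomputable def bf1q2_3 : Fn2 := ⟨_, _, fun h1 h2 => (enc_subr 1 4 h2)⟩
noncomputable def bf1q2 : Fn2 := ⟨_, _, fun h1 h2 => (enc_norm (enc_case (enc_subr 577 500 h1) (enc_case (enc_subr 53 50 h1) (enc_case (enc_subr 103 100 h1) (enc_add (enc_sub (enc_rat _ 15107 15000) (enc_scale 107 15000 h1)) (enc_mul (enc_norm (bf1q2_3.enc h1 h2)) (enc_norm (enc_sub (enc_rat _ 863 3000) (enc_scale 863 3000 h1))))) (enc_add (enc_add (enc_scale 2603 10000 h1) (enc_rat _ 731677 1000000)) (enc_mul (enc_norm (bf1q2_3.enc h1 h2)) (enc_norm (enc_subr 79523 150000 (enc_scale 1519 3000 h1)))))) (enc_case (enc_subr 11 10 h1) (enc_add (enc_add (enc_scale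 26981 40000 h1) (enc_rat _ 585197 2000000)) (enc_mul (enc_norm (bf1q2_3.enc h1 h2)) (enc_norm (enc_subr 141131 40000 (enc_scale 13339 4000 h1))))) (enc_add (enc_add (enc_scale 763129 843750 h1) (enc_rat _ 83704 2109375)) (enc_mul (enc_norm (bf1q2_3.enc h1 h2)) (enc_norm (enc_subr 91526041 13500000 (enc_scale 4246153 675000 h1))))))) (enc_case (enc_subr 29 25 h1) (enc_case (enc_subr 231 200 h1) (enc_add (enc_add (enc_scale 16927 31250 h1) (enc_rat _ 14323 31250)) (enc_mul (enc_norm (bf1q2_3.enc h1 h2)) (enc_norm (enc_subr 9733 3125 (enc_scale 9733 3125 h1))))) (enc_add (enc_add (enc_scale 68427 125000 h1) (enc_rat _ 11292311 25000000)) (enc_mul (enc_norm (bf1q2_3.enc h1 h2)) (enc_norm (enc_subr 2112689 625000 (enc_scale 10452 3125 h1)))))) (enc_case (enc_subr 5 4 h1) (enc_add (enc_add (enc_scale 48701 90000 h1) (enc_rat _ 4130939 9000000)) (enc_mul (enc_norm (bf1q2_3.enc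 h1 h2)) (enc_norm (enc_subr 125269 37500 (enc_scale 9931 3000 h1))))) (enc_case (enc_subr 27 20 h1) (enc_add (enc_add (enc_scale 53523 100000 h1) (enc_rat _ 932717 2000000)) (enc_mul (enc_norm (bf1q2_3.enc h1 h2)) (enc_norm (enc_subr 659193 200000 (enc_scale 32747 10000 h1))))) (enc_add (enc_add (enc_scale 797 1500 h1) (enc_rat _ 471619 1000000)) (enc_mul (enc_norm (bf1q2_3.enc h1 h2)) (enc_norm (enc_subr 326343 100000 (enc_scale 16253 5000 h1))))))))))⟩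
noncomputable def kfc12a : Fn2 := ⟨_, _, fun h1 h2 => (enc_norm (enc_mul (enc_norm (enc_add (enc_half h1) (enc_half (enc_subr 1 2 (swg.enc (yag.enc h1)))))) (bf1q2.enc (yag.enc h1) h2)))⟩
noncomputable def bx1q2_3 : Fn2 := ⟨_, _, fun h1 h2 => (enc_subr 1 4 h2)⟩
noncomputable def bx1q2 : Fn2 := ⟨_, _, fun h1 h2 => (enc_norm (enc_case (enc_subr 577 500 h1) (enc_case (enc_subr 53 50 h1) (enc_case (enc_subr 103 100 h1) (enc_add (enc_subr 4517 30000 (enc_scale 4517 30000 h1)) (enc_mul (enc_norm (bx1q2_3.enc h1 h2)) (enc_norm (enc_subr 79 200 (enc_scale 79 200 h1))))) (enc_add (enc_subr 313091 1500000 (enc_scale 6211 30000 h1)) (enc_mul (enc_norm (bx1q2_3.enc h1 h2)) (enc_norm (enc_add (enc_scale 1 250 h1) (enc_rat _ 773 100000)))))) (enc_case (enc_subr 11 10 h1) (enc_add (enc_subr 109593 500000 (enc_scale 2169 10000 h1)) (enc_mul (enc_norm (bx1q2_3.enc h1 h2)) (enc_norm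 (enc_sub (enc_rat _ 16333 200000) (enc_scale 263 4000 h1))))) (enc_add (enc_subr 1660373 6750000 (enc_scale 3257 13500 h1)) (enc_mul (enc_norm (bx1q2_3.enc h1 h2)) (enc_norm (enc_subr 267341 1350000 (enc_scale 509 2700 h1))))))) (enc_case (enc_subr 29 25 h1) (enc_case (enc_subr 231 200 h1) (enc_add (enc_rat _ 2027 62500) (enc_scale 61 3125 (bx1q2_3.enc h1 h2))) (enc_add (enc_subr 214507 1000000 (enc_scale 1069 5000 h1)) (enc_mul (enc_norm (bx1q2_3.enc h1 h2)) (enc_norm (enc_subr 554989 100000 (enc_scale 2411 500 h1)))))) (enc_case (enc_subr 5 4 h1) (enc_add (enc_subr 243159 1000000 (enc_scale 477 2000 h1)) (enc_mul (enc_norm (bx1q2_3.enc h1 h2)) (enc_norm (enc_subr 1762871 300000 (enc_scale 1531 300 h1))))) (enc_case (enc_subr 27 20 h1) (enc_add (enc_subr 246609 1000000 (enc_scale 12063 50000 h1)) (enc_mul (enc_norm (bx1q2_3.enc h1 h2)) (enc_norm (enc_subr 1173989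 200000 (enc_scale 50983 10000 h1))))) (enc_add (enc_subr 244557 1000000 (enc_scale 11987 50000 h1)) (enc_mul (enc_norm (bx1q2_3.enc h1 h2)) (enc_norm (enc_subr 581851 100000 (enc_scale 25301 5000 h1))))))))))⟩
noncomputable def lc12a : Fn2 := ⟨_, _, fun h1 h2 => (enc_norm (enc_mul (enc_norm (enc_add (enc_half h1) (enc_half (enc_subr 1 2 (swg.enc (yag.enc h1)))))) (bx1q2.enc (yag.enc h1) h2)))⟩
noncomputable def xc12b : Fn1 := ⟨_, _, fun h1 => (enc_norm (enc_half (enc_subr 1 2 (swg.enc h1))))⟩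
noncomputable def kfc12b : Fn2 := ⟨_, _, fun h1 h2 => (enc_norm (enc_mul (enc_norm (enc_half (enc_subr 1 2 (swg.enc h1)))) (bf1q2.enc h1 h2)))⟩
noncomputable def lc12b : Fn2 := ⟨_, _, fun h1 h2 => (enc_norm (enc_mul (enc_norm (enc_half (enc_subr 1 2 (swg.enc h1)))) (bx1q2.enc h1 h2)))⟩
noncomputable def cv1r : Fn1 := ⟨_, _, fun h1 => (enc_norm (enc_half (enc_subr 1 2 (swg.enc h1))))⟩
noncomputable def bf1q3 : Fn2 := ⟨_, _, fun h1 h2 => (enc_norm (enc_add (enc_subr 21691 500000 (enc_scale 991 125000 h1)) (enc_mul (enc_norm (enc_subr 1 4 h2)) (enc_norm (enc_subr 4163 100000 (enc_scale 2309 50000 h1))))))⟩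
noncomputable def kf1q3 : Fn2 := ⟨_, _, fun h1 h2 => (enc_norm (enc_mul (cv1r.enc h1) (bf1q3.enc h1 h2)))⟩
noncomputable def bx1q3 : Fn2 := ⟨_, _, fun h1 h2 => (enc_norm (enc_add (enc_sub (enc_rat _ 2551 15625) (enc_scale 2859 125000 h1)) (enc_mul (enc_norm (enc_subr 1 4 h2)) (enc_norm (enc_sub (enc_rat _ 176631 100000) (enc_scale 127 10000 h1))))))⟩
noncomputable def l1q3 : Fn2 := ⟨_, _, fun h1 h2 => (enc_norm (enc_mul (cv1r.enc h1) (bx1q3.enc h1 h2)))⟩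
noncomputable def cv2m : Fn1 := ⟨_, _, fun h1 => (enc_norm (enc_add (enc_scale 1 10 (c1g.enc h1)) (enc_scale 9 10 (enc_add (swg.enc h1) (enc_rat _ 1 2)))))⟩
noncomputable def bf2q0 : Fn2 := ⟨_, _, fun h1 h2 => (enc_norm (enc_sub (enc_sub (enc_pnc _ 1) (enc_scale 57807 100000 h1)) (enc_mul (enc_norm (enc_subr 1 4 h2)) (enc_scale 34099 25000 h1))))⟩
noncomputable def kf2q0 : Fn2 := ⟨_, _, fun h1 h2 => (enc_norm (enc_mul (cv2m.enc h1) (bf2q0.enc h1 h2)))⟩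
noncomputable def bx2q0 : Fn2 := ⟨_, _, fun h1 h2 => (enc_norm (enc_sub (enc_scale 64033 500000 h1) (enc_mul (enc_norm (enc_subr 1 4 h2)) (enc_scale 1181 2500 h1))))⟩
noncomputable def l2q0 : Fn2 := ⟨_, _, fun h1 h2 => (enc_norm (enc_mul (cv2m.enc h1) (bx2q0.enc h1 h2)))⟩
noncomputable def bf2q1_3 : Fn2 := ⟨_, _, fun h1 h2 => (enc_subr 1 4 h2)⟩
noncomputable def bf2q1 : Fn2 := ⟨_, _, fun h1 h2 => (enc_norm (enc_case (enc_subr 4 5 h1) (enc_case (enc_subr 7 10 h1) (enc_add (enc_add (enc_scale 172703 200000 h1) (enc_rat _ 1493 16000)) (enc_mul (enc_norm (bf2q1_3.enc h1 h2)) (enc_norm (enc_subr 111921 100000 (enc_scale 2273 2000 h1))))) (enc_add (enc_add (enc_scale 10857 12500 h1) (enc_rat _ 89781 1000000)) (enc_mul (enc_norm (bf2q1_3.enc h1 h2)) (enc_norm (enc_subr 110353 100000 (enc_scale 11141 10000 h1)))))) (enc_case (enc_subr 7 8 h1) (enc_add (enc_add (enc_scale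 10941 12500 h1) (enc_rat _ 16881 200000)) (enc_mul (enc_norm (bf2q1_3.enc h1 h2)) (enc_norm (enc_subr 319099 300000 (enc_scale 3991 3750 h1))))) (enc_case (enc_subr 19 20 h1) (enc_add (enc_add (enc_scale 11023 12500 h1) (enc_rat _ 15733 200000)) (enc_mul (enc_norm (bf2q1_3.enc h1 h2)) (enc_norm (enc_subr 150467 150000 (enc_scale 7463 7500 h1))))) (enc_add (enc_add (enc_scale 8791 10000 h1) (enc_rat _ 20317 250000)) (enc_mul (enc_norm (bf2q1_3.enc h1 h2)) (enc_norm (enc_subr 48927 50000 (enc_scale 2423 2500 h1)))))))))⟩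
noncomputable def kf2q1 : Fn2 := ⟨_, _, fun h1 h2 => (enc_norm (enc_mul (cv2m.enc h1) (bf2q1.enc h1 h2)))⟩
noncomputable def bx2q1_3 : Fn2 := ⟨_, _, fun h1 h2 => (enc_subr 1 4 h2)⟩
noncomputable def bx2q1 : Fn2 := ⟨_, _, fun h1 h2 => (enc_norm (enc_case (enc_subr 4 5 h1) (enc_case (enc_subr 7 10 h1) (enc_add (enc_sub (enc_rat _ 35397 400000) (enc_scale 18767 200000 h1)) (enc_mul (enc_norm (bx2q1_3.enc h1 h2)) (enc_norm (enc_sub (enc_rat _ 61927 200000) (enc_scale 7309 20000 h1))))) (enc_add (enc_sub (enc_rat _ 17457 200000) (enc_scale 9211 100000 h1)) (enc_mul (enc_norm (bx2q1_3.enc h1 h2)) (enc_norm (enc_sub (enc_rat _ 28447 100000) (enc_scale 659 2000 h1)))))) (enc_case (enc_subr 7 8 h1) (enc_add (enc_sub (enc_rat _ 238039 3000000) (enc_scale 1541 18750 h1)) (enc_mul (enc_norm (bx2q1_3.enc h1 h2)) (enc_norm (enc_sub (enc_rat _ 6471 100000) (enc_scale 137 2500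 h1))))) (enc_case (enc_subr 19 20 h1) (enc_add (enc_sub (enc_rat _ 31979 500000) (enc_scale 323 5000 h1)) (enc_mul (enc_norm (bx2q1_3.enc h1 h2)) (enc_norm (enc_sub (enc_rat _ 5179 25000) (enc_scale 136 625 h1))))) (enc_add (enc_sub (enc_rat _ 3311 62500) (enc_scale 663 12500 h1)) (enc_mul (enc_norm (bx2q1_3.enc h1 h2)) (enc_norm (enc_sub (enc_rat _ 5293 25000) (enc_scale 139 625 h1)))))))))⟩
noncomputable def l2q1 : Fn2 := ⟨_, _, fun h1 h2 => (enc_norm (enc_mul (cv2m.enc h1) (bx2q1.enc h1 h2)))⟩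
noncomputable def xc22a : Fn1 := ⟨_, _, fun h1 => (enc_norm (enc_add (enc_scale 1 10 h1) (enc_scale 9 10 (enc_subr 1 2 (swg.enc (yag.enc h1))))))⟩
noncomputable def bf2q2_3 : Fn2 := ⟨_, _, fun h1 h2 => (enc_subr 1 4 h2)⟩
noncomputable def bf2q2 : Fn2 := ⟨_, _, fun h1 h2 => (enc_norm (enc_case (enc_subr 11 10 h1) (enc_case (enc_subr 103 100 h1) (enc_add (enc_sub (enc_rat _ 19487 15000) (enc_scale 4487 15000 h1)) (enc_mul (enc_norm (bf2q2_3.enc h1 h2)) (enc_norm (enc_sub (enc_rat _ 77 375) (enc_scale 77 375 h1))))) (enc_case (enc_subr 53 50 h1) (enc_add (enc_sub (enc_rat _ 1340299 1000000) (enc_scale 3391 10000 h1)) (enc_mul (enc_norm (bf2q2_3.enc h1 h2)) (enc_norm (enc_subr 719 100000 (enc_scale 1 1000 h1))))) (enc_add (enc_sub (enc_rat _ 693867 500000) (enc_scale 7677 20000 h1)) (enc_mul (enc_norm (bf2q2_3.enc h1 h2)) (enc_norm (enc_subr 2663 8000 (enc_scale 1233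 4000 h1))))))) (enc_case (enc_subr 5 4 h1) (enc_case (enc_subr 29 25 h1) (enc_add (enc_sub (enc_rat _ 4376327 3000000) (enc_scale 13453 30000 h1)) (enc_mul (enc_norm (bf2q2_3.enc h1 h2)) (enc_norm (enc_subr 571 800 (enc_scale 1309 2000 h1))))) (enc_add (enc_sub (enc_rat _ 13586137 9000000) (enc_scale 443 900 h1)) (enc_mul (enc_norm (bf2q2_3.enc h1 h2)) (enc_norm (enc_subr 9141 100000 (enc_scale 59 500 h1)))))) (enc_case (enc_subr 27 20 h1) (enc_add (enc_sub (enc_rat _ 3048661 2000000) (enc_scale 50403 100000 h1)) (enc_mul (enc_norm (bf2q2_3.enc h1 h2)) (enc_norm (enc_sub (enc_rat _ 15343 200000) (enc_scale 33 2000 h1))))) (enc_add (enc_sub (enc_rat _ 761803 500000) (enc_scale 18881 37500 h1)) (enc_mul (enc_norm (bf2q2_3.enc h1 h2)) (enc_norm (enc_sub (enc_rat _ 11213 100000) (enc_scale 641 15000 h1)))))))))⟩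
noncomputable def kfc22a : Fn2 := ⟨_, _, fun h1 h2 => (enc_norm (enc_mul (enc_norm (enc_add (enc_scale 1 10 h1) (enc_scale 9 10 (enc_subr 1 2 (swg.enc (yag.enc h1)))))) (bf2q2.enc (yag.enc h1) h2)))⟩
noncomputable def bx2q2_3 : Fn2 := ⟨_, _, fun h1 h2 => (enc_subr 1 4 h2)⟩
noncomputable def bx2q2 : Fn2 := ⟨_, _, fun h1 h2 => (enc_norm (enc_case (enc_subr 11 10 h1) (enc_case (enc_subr 103 100 h1) (enc_add (enc_subr 863 10000 (enc_scale 863 10000 h1)) (enc_mul (enc_norm (bx2q2_3.enc h1 h2)) (enc_norm (enc_subr 221 750 (enc_scale 221 750 h1))))) (enc_case (enc_subr 53 50 h1) (enc_add (enc_subr 166331 1000000 (enc_scale 41 250 h1)) (enc_mul (enc_norm (bx2q2_3.enc h1 h2)) (enc_norm (enc_subr 60401 100000 (enc_scale 119 200 h1))))) (enc_add (enc_subr 121511 500000 (enc_scale 4727 20000 h1)) (enc_mul (enc_norm (bx2q2_3.enc h1 h2)) (enc_norm (enc_subr 178519 200000 (enc_scale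 3469 4000 h1))))))) (enc_case (enc_subr 5 4 h1) (enc_case (enc_subr 29 25 h1) (enc_add (enc_subr 312157 1000000 (enc_scale 187 625 h1)) (enc_mul (enc_norm (bx2q2_3.enc h1 h2)) (enc_norm (enc_subr 28699 75000 (enc_scale 1211 3000 h1))))) (enc_add (enc_subr 2434501 9000000 (enc_scale 1481 5625 h1)) (enc_mul (enc_norm (bx2q2_3.enc h1 h2)) (enc_norm (enc_subr 8431 15000 (enc_scale 67 120 h1)))))) (enc_case (enc_subr 27 20 h1) (enc_add (enc_subr 687303 2000000 (enc_scale 32181 100000 h1)) (enc_mul (enc_norm (bx2q2_3.enc h1 h2)) (enc_norm (enc_subr 727 5000 (enc_scale 9 40 h1))))) (enc_add (enc_subr 467019 1000000 (enc_scale 61979 150000 h1)) (enc_mul (enc_norm (bx2q2_3.enc h1 h2)) (enc_norm (enc_subr 123467 100000 (enc_scale 7739 7500 h1)))))))))⟩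
noncomputable def lc22a : Fn2 := ⟨_, _, fun h1 h2 => (enc_norm (enc_mul (enc_norm (enc_add (enc_scale 1 10 h1) (enc_scale 9 10 (enc_subr 1 2 (swg.enc (yag.enc h1)))))) (bx2q2.enc (yag.enc h1) h2)))⟩
noncomputable def xc22b : Fn1 := ⟨_, _, fun h1 => (enc_norm (enc_scale 9 10 (enc_subr 1 2 (swg.enc h1))))⟩
noncomputable def kfc22b : Fn2 := ⟨_, _, fun h1 h2 => (enc_norm (enc_mul (enc_norm (enc_scale 9 10 (enc_subr 1 2 (swg.enc h1)))) (bf2q2.enc h1 h2)))⟩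
noncomputable def lc22b : Fn2 := ⟨_, _, fun h1 h2 => (enc_norm (enc_mul (enc_norm (enc_scale 9 10 (enc_subr 1 2 (swg.enc h1)))) (bx2q2.enc h1 h2)))⟩
noncomputable def cv2r : Fn1 := ⟨_, _, fun h1 => (enc_norm (enc_scale 9 10 (enc_subr 1 2 (swg.enc h1))))⟩
noncomputable def bf2q3 : Fn2 := ⟨_, _, fun h1 h2 => (enc_norm (enc_add (enc_subr 65957 100000 (enc_scale 14133 500000 h1)) (enc_mul (enc_norm (enc_subr 1 4 h2)) (enc_norm (enc_add (enc_scale 9393 50000 h1) (enc_rat _ 26831 20000))))))⟩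
noncomputable def kf2q3 : Fn2 := ⟨_, _, fun h1 h2 => (enc_norm (enc_mul (cv2r.enc h1) (bf2q3.enc h1 h2)))⟩
noncomputable def bx2q3 : Fn2 := ⟨_, _, fun h1 h2 => (enc_norm (enc_add (enc_add (enc_scale 3301 500000 h1) (enc_rat _ 129049 1000000)) (enc_mul (enc_norm (enc_subr 1 4 h2)) (enc_norm (enc_add (enc_scale 7397 50000 h1) (enc_rat _ 17789 12500))))))⟩
noncomputable def l2q3 : Fn2 := ⟨_, _, fun h1 h2 => (enc_norm (enc_mul (cv2r.enc h1) (bx2q3.enc h1 h2)))⟩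
noncomputable def c3g : Fn1 := ⟨_, _, fun h1 => (enc_sqrtg (enc_sub (enc_pnc _ 3) (enc_scale 3 4 (enc_sq h1))))⟩
noncomputable def cv3m : Fn1 := ⟨_, _, fun h1 => (enc_norm (enc_add (enc_scale 4 5 (enc_add (swg.enc h1) (enc_rat _ 1 2))) (enc_scale 1 5 (c3g.enc h1))))⟩
noncomputable def bf3q0 : Fn2 := ⟨_, _, fun h1 h2 => (enc_norm (enc_add (enc_sub (enc_rat _ 10783 15625) (enc_scale 166903 500000 h1)) (enc_mul (enc_norm (enc_subr 1 4 h2)) (enc_norm (enc_sub (enc_rat _ 631 100000) (enc_scale 155121 50000 h1))))))⟩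
noncomputable def kf3q0 : Fn2 := ⟨_, _, fun h1 h2 => (enc_norm (enc_mul (cv3m.enc h1) (bf3q0.enc h1 h2)))⟩
noncomputable def bx3q0 : Fn2 := ⟨_, _, fun h1 h2 => (enc_norm (enc_add (enc_add (enc_scale 1749 31250 h1) (enc_rat _ 671 125000)) (enc_mul (enc_norm (enc_subr 1 4 h2)) (enc_norm (enc_subr 3151 50000 (enc_scale 22599 50000 h1))))))⟩
noncomputable def l3q0 : Fn2 := ⟨_, _, fun h1 h2 => (enc_norm (enc_mul (cv3m.enc h1) (bx3q0.enc h1 h2)))⟩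
noncomputable def gsg : Fn1 := ⟨_, _, fun h1 => (enc_sqrt (enc_sub (enc_pnc _ 1) (enc_scale 3 4 (enc_sq h1))))⟩
noncomputable def esg : Fn1 := ⟨_, _, fun h1 => (enc_norm (enc_subn 1 (enc_add (enc_half h1) (gsg.enc h1))))⟩
noncomputable def kf3q1_4 : Fn2 := ⟨_, _, fun h1 h2 => (enc_subr 1 4 h2)⟩
noncomputable def kf3q1_39 : Fn2 := ⟨_, _, fun h1 h2 => (enc_sub (enc_pnc _ 1) h1)⟩
noncomputable def kf3q1_40 : Fn2 := ⟨_, _, fun h1 h2 => (gsg.enc (enc_norm (kf3q1_39.enc h1 h2)))⟩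
noncomputable def kf3q1_46 : Fn2 := ⟨_, _, fun h1 h2 => (enc_scale 3 2 (kf3q1_39.enc h1 h2))⟩
noncomputable def kf3q1_48 : Fn2 := ⟨_, _, fun h1 h2 => (enc_add (enc_pnc _ 1) (kf3q1_40.enc h1 h2))⟩
noncomputable def kf3q1_67 : Fn2 := ⟨_, _, fun h1 h2 => (enc_mul (cv2m.enc h1) (bf2q1.enc h1 h2))⟩
noncomputable def kf3q1 : Fn2 := ⟨_, _, fun h1 h2 => (enc_norm (enc_case (enc_subr 5 8 h1) (enc_mul (cv3m.enc h1) (enc_norm (enc_add (enc_add (enc_scale 731541937 1250000000 h1) (enc_rat _ 596118063 2500000000)) (enc_mul (enc_norm (kf3q1_4.enc h1 h2)) (enc_norm (enc_subr 480794231 125000000 (enc_scale 415490481 62500000 h1))))))) (enc_case (enc_subr 7 8 h1) (enc_add (kf3q1_67.enc h1 h2) (enc_mul (enc_norm (enc_mul (enc_norm (enc_sub (enc_add (enc_add (enc_mul (enc_norm (enc_mul (enc_norm (enc_sub (kf3q1_40.enc h1 h2) (kf3q1_46.enc h1 h2))) (enc_norm (kf3q1_48.enc h1 h2))))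 (enc_inv (enc_sub (kf3q1_48.enc h1 h2) (kf3q1_46.enc h1 h2)))) (enc_mul (enc_norm (enc_sub (enc_half (kf3q1_39.enc h1 h2)) (enc_mul (enc_scale 3 4 (enc_sq (enc_norm (kf3q1_39.enc h1 h2)))) (enc_inv (kf3q1_40.enc h1 h2))))) (enc_inv (enc_nat 2 (esg.enc (enc_norm (kf3q1_39.enc h1 h2))))))) (enc_mul (kcg.enc (enc_norm (enc_sub (enc_scale 3 4 (kf3q1_39.enc h1 h2)) (enc_half (kf3q1_40.enc h1 h2)))) h2) (enc_norm (kf3q1_39.enc h1 h2)))) (kf3q1_67.enc h1 h2))) (enc_norm (enc_sub (cv3m.enc h1) (cv2m.enc h1))))) (enc_inv (enc_sub (enc_add (swg.enc h1) (enc_rat _ 1 2)) (cv2m.enc h1))))) (enc_mul (cv3m.enc h1) (enc_norm (enc_case (enc_subr 19 20 h1) (enc_add (enc_add (enc_scale 236770181 375000000 h1) (enc_rat _ 2797576561 7500000000)) (enc_mul (enc_norm (kf3q1_4.enc h1 h2)) (enc_norm (enc_sub (enc_rat _ 186181991 750000000) (enc_scale 9698789 37500000 h1))))) (enc_add (enc_add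 (enc_scale 6793 12500 h1) (enc_rat _ 5707 12500)) (enc_mul (enc_norm (kf3q1_4.enc h1 h2)) (enc_norm (enc_sub (enc_rat _ 127 2500) (enc_scale 127 2500 h1)))))))))))⟩
noncomputable def qsg : Fn1 := ⟨_, _, fun h1 => (enc_norm (enc_mul (enc_norm (enc_sub (enc_pnc _ 1) (gsg.enc h1))) (enc_norm (enc_subn 1 (enc_nat 2 (gsg.enc h1))))))⟩
noncomputable def l3q1_4 : Fn2 := ⟨_, _, fun h1 h2 => (enc_subr 1 4 h2)⟩
noncomputable def l3q1_18 : Fn2 := ⟨_, _, fun h1 h2 => (enc_sq (enc_norm (l3q1_4.enc h1 h2)))⟩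
noncomputable def l3q1_54 : Fn2 := ⟨_, _, fun h1 h2 => (enc_sub (enc_pnc _ 1) h1)⟩
noncomputable def l3q1_69 : Fn2 := ⟨_, _, fun h1 h2 => (enc_mul (cv2m.enc h1) (bx2q1.enc h1 h2))⟩
noncomputable def l3q1 : Fn2 := ⟨_, _, fun h1 h2 => (enc_norm (enc_case (enc_subr 5 8 h1) (enc_mul (cv3m.enc h1) (enc_norm (enc_add (enc_add (enc_add (enc_scale 32891133 1250000000 h1) (enc_rat _ 31766367 2500000000)) (enc_mul (enc_norm (l3q1_4.enc h1 h2)) (enc_norm (enc_sub (enc_rat _ 41759059 50000000) (enc_scale 33536059 25000000 h1))))) (enc_mul (l3q1_18.enc h1 h2) (enc_norm (enc_subr 10143 62500 (enc_scale 10143 31250 h1))))))) (enc_case (enc_subr 7 8 h1) (enc_add (l3q1_69.enc h1 h2) (enc_mul (enc_norm (enc_mul (enc_norm (enc_sub (enc_sub (qsg.enc (enc_norm (l3q1_54.enc h1 h2))) (enc_mul (enc_norm (enc_nat 2 (enc_sub (l3q1_54.enc h1 h2) h2))) (enc_norm (enc_mul (esg.enc (enc_norm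 (l3q1_54.enc h1 h2))) (kcg.enc (enc_norm (enc_sub (enc_scale 3 4 (l3q1_54.enc h1 h2)) (enc_half (gsg.enc (enc_norm (l3q1_54.enc h1 h2)))))) h2))))) (l3q1_69.enc h1 h2))) (enc_norm (enc_sub (cv3m.enc h1) (cv2m.enc h1))))) (enc_inv (enc_sub (enc_add (swg.enc h1) (enc_rat _ 1 2)) (cv2m.enc h1))))) (enc_mul (cv3m.enc h1) (enc_norm (enc_case (enc_subr 19 20 h1) (enc_add (enc_add (enc_sub (enc_rat _ 225801629 3750000000) (enc_scale 11607191 187500000 h1)) (enc_mul (enc_norm (l3q1_4.enc h1 h2)) (enc_norm (enc_sub (enc_rat _ 276139681 1500000000) (enc_scale 14126299 75000000 h1))))) (enc_mul (l3q1_18.enc h1 h2) (enc_norm (enc_sub (enc_rat _ 7049 187500) (enc_scale 371 9375 h1))))) (enc_add (enc_sub (enc_rat _ 351 12500) (enc_scale 351 12500 h1)) (enc_mul (enc_norm (l3q1_4.enc h1 h2)) (enc_norm (enc_sub (enc_rat _ 129 1250) (enc_scale 129 1250 h1)))))))))))⟩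
noncomputable def cv3p : Fn1 := ⟨_, _, fun h1 => (enc_norm (enc_add (enc_scale 4 5 (enc_subr 1 2 (swg.enc h1))) (enc_scale 1 5 (c3g.enc h1))))⟩
noncomputable def cv2p : Fn1 := ⟨_, _, fun h1 => (enc_norm (enc_add (enc_scale 1 10 (c1g.enc h1)) (enc_scale 9 10 (enc_subr 1 2 (swg.enc h1)))))⟩
noncomputable def kf3q2_4 : Fn2 := ⟨_, _, fun h1 h2 => (enc_subr 1 4 h2)⟩
noncomputable def kf3q2_62 : Fn2 := ⟨_, _, fun h1 h2 => (enc_subn 1 h1)⟩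
noncomputable def kf3q2_63 : Fn2 := ⟨_, _, fun h1 h2 => (gsg.enc (enc_norm (kf3q2_62.enc h1 h2)))⟩
noncomputable def kf3q2_69 : Fn2 := ⟨_, _, fun h1 h2 => (enc_scale 3 2 (kf3q2_62.enc h1 h2))⟩
noncomputable def kf3q2_71 : Fn2 := ⟨_, _, fun h1 h2 => (enc_add (enc_pnc _ 1) (kf3q2_63.enc h1 h2))⟩
noncomputable def kf3q2_90 : Fn2 := ⟨_, _, fun h1 h2 => (enc_mul (cv2p.enc h1) (bf2q2.enc h1 h2))⟩
noncomputable def kf3q2 : Fn2 := ⟨_, _, fun h1 h2 => (enc_norm (enc_case (enc_subr 9 8 h1) (enc_mul (cv3p.enc h1) (enc_norm (enc_case (enc_subr 53 50 h1) (enc_case (enc_subr 103 100 h1) (enc_add (enc_add (enc_scale 761 1000 h1) (enc_rat _ 118623 1000000)) (enc_mul (enc_norm (kf3q2_4.enc h1 h2)) (enc_norm (enc_sub (enc_rat _ 441 5000) (enc_scale 29 200 h1))))) (enc_add (enc_add (enc_scale 22927 30000 h1) (enc_rat _ 172939 1500000)) (enc_mul (enc_norm (kf3q2_4.enc h1 h2)) (enc_norm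 (enc_sub (enc_rat _ 134 3125) (enc_scale 101 1000 h1)))))) (enc_case (enc_subr 11 10 h1) (enc_add (enc_add (enc_scale 1909 2500 h1) (enc_rat _ 28991 250000)) (enc_mul (enc_norm (kf3q2_4.enc h1 h2)) (enc_norm (enc_subr 8167 100000 (enc_scale 33 2000 h1))))) (enc_add (enc_add (enc_scale 94676151 125000000 h1) (enc_rat _ 153467339 1250000000)) (enc_mul (enc_norm (kf3q2_4.enc h1 h2)) (enc_norm (enc_subr 1995883 6250000 (enc_scale 145353 625000 h1))))))))) (enc_case (enc_subr 11 8 h1) (enc_add (kf3q2_90.enc h1 h2) (enc_mul (enc_norm (enc_mul (enc_norm (enc_sub (enc_add (enc_sub (enc_mul (enc_norm (enc_mul (enc_norm (enc_sub (kf3q2_63.enc h1 h2) (kf3q2_69.enc h1 h2))) (enc_norm (kf3q2_71.enc h1 h2)))) (enc_inv (enc_sub (kf3q2_71.enc h1 h2) (kf3q2_69.enc h1 h2)))) (enc_mul (enc_norm (enc_sub (enc_half (kf3q2_62.enc h1 h2)) (enc_mul (enc_scale 3 4 (enc_sq (enc_norm (kf3q2_62.enc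 h1 h2)))) (enc_inv (kf3q2_63.enc h1 h2))))) (enc_inv (enc_nat 2 (esg.enc (enc_norm (kf3q2_62.enc h1 h2))))))) (enc_mul (kcg.enc (enc_norm (enc_sub (enc_scale 3 4 (kf3q2_62.enc h1 h2)) (enc_half (kf3q2_63.enc h1 h2)))) h2) (enc_norm (kf3q2_62.enc h1 h2)))) (kf3q2_90.enc h1 h2))) (enc_norm (enc_sub (cv3p.enc h1) (cv2p.enc h1))))) (enc_inv (enc_sub (enc_subr 1 2 (swg.enc h1)) (cv2p.enc h1))))) (enc_mul (cv3p.enc h1) (enc_norm (enc_add (enc_add (enc_scale 125324883 1250000000 h1) (enc_rat _ 756060351 2500000000)) (enc_mul (enc_norm (kf3q2_4.enc h1 h2)) (enc_norm (enc_subr 61077447 125000000 (enc_scale 34107899 62500000 h1))))))))))⟩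
noncomputable def l3q2_4 : Fn2 := ⟨_, _, fun h1 h2 => (enc_subr 1 4 h2)⟩
noncomputable def l3q2_58 : Fn2 := ⟨_, _, fun h1 h2 => (enc_sq (enc_norm (l3q2_4.enc h1 h2)))⟩
noncomputable def l3q2_82 : Fn2 := ⟨_, _, fun h1 h2 => (enc_subn 1 h1)⟩
noncomputable def l3q2_97 : Fn2 := ⟨_, _, fun h1 h2 => (enc_mul (cv2p.enc h1) (bx2q2.enc h1 h2))⟩
noncomputable def l3q2 : Fn2 := ⟨_, _, fun h1 h2 => (enc_norm (enc_case (enc_subr 9 8 h1) (enc_mul (cv3p.enc h1) (enc_norm (enc_case (enc_subr 53 50 h1) (enc_case (enc_subr 103 100 h1) (enc_add (enc_sub (enc_rat _ 12243 1000000) (enc_scale 277 10000 h1)) (enc_mul (enc_norm (l3q2_4.enc h1 h2)) (enc_norm (enc_subr 2939 300000 (enc_neg (enc_scale 11 600 h1)))))) (enc_add (enc_subr 2333 187500 (enc_neg (enc_scale 7 1875 h1))) (enc_mul (enc_norm (l3q2_4.enc h1 h2)) (enc_norm (enc_sub (enc_rat _ 8911 9375) (enc_scale 713 750 h1)))))) (enc_case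 (enc_subr 11 10 h1) (enc_add (enc_subr 9431 100000 (enc_scale 147 2000 h1)) (enc_mul (enc_norm (l3q2_4.enc h1 h2)) (enc_norm (enc_sub (enc_rat _ 123799 40000) (enc_scale 2379 800 h1))))) (enc_add (enc_add (enc_subr 614272361 2500000000 (enc_scale 52783851 250000000 h1)) (enc_mul (enc_norm (l3q2_4.enc h1 h2)) (enc_norm (enc_subr 935498273 125000000 (enc_scale 83043593 12500000 h1))))) (enc_mul (l3q2_58.enc h1 h2) (enc_norm (enc_subr 250261 125000 (enc_scale 22751 12500 h1))))))))) (enc_case (enc_subr 11 8 h1) (enc_add (l3q2_97.enc h1 h2) (enc_mul (enc_norm (enc_mul (enc_norm (enc_sub (enc_sub (qsg.enc (enc_norm (l3q2_82.enc h1 h2))) (enc_mul (enc_norm (enc_nat 2 (enc_sub (l3q2_82.enc h1 h2) h2))) (enc_norm (enc_mul (esg.enc (enc_norm (l3q2_82.enc h1 h2))) (kcg.enc (enc_norm (enc_sub (enc_scale 3 4 (l3q2_82.enc h1 h2)) (enc_half (gsg.enc (enc_norm (l3q2_82.enc h1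 h2)))))) h2))))) (l3q2_97.enc h1 h2))) (enc_norm (enc_sub (cv3p.enc h1) (cv2p.enc h1))))) (enc_inv (enc_sub (enc_subr 1 2 (swg.enc h1)) (cv2p.enc h1))))) (enc_mul (cv3p.enc h1) (enc_norm (enc_add (enc_add (enc_sub (enc_rat _ 24623183 78125000) (enc_scale 53072863 312500000 h1)) (enc_mul (enc_norm (l3q2_4.enc h1 h2)) (enc_norm (enc_sub (enc_rat _ 43019951 62500000) (enc_scale 18442067 31250000 h1))))) (enc_mul (l3q2_58.enc h1 h2) (enc_norm (enc_sub (enc_rat _ 831801 250000) (enc_scale 277267 125000 h1))))))))))⟩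
noncomputable def ycg : Fn1 := ⟨_, _, fun h1 => (enc_sqrtg (enc_scale 4 3 (enc_sub (enc_pnc _ 3) (enc_sq h1))))⟩
noncomputable def xc33 : Fn1 := ⟨_, _, fun h1 => (enc_norm (enc_add (enc_scale 4 5 (enc_subr 1 2 (swg.enc (ycg.enc h1)))) (enc_scale 1 5 h1)))⟩
noncomputable def bf3q3 : Fn2 := ⟨_, _, fun h1 h2 => (enc_norm (enc_add (enc_subr 21653 125000 (enc_scale 84153 250000 h1)) (enc_mul (enc_norm (enc_subr 1 4 h2)) (enc_norm (enc_subr 84887 25000 (enc_scale 84887 50000 h1))))))⟩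
noncomputable def kfc33 : Fn2 := ⟨_, _, fun h1 h2 => (enc_norm (enc_mul (enc_norm (enc_add (enc_scale 4 5 (enc_subr 1 2 (swg.enc (ycg.enc h1)))) (enc_scale 1 5 h1))) (bf3q3.enc (ycg.enc h1) h2)))⟩
noncomputable def bx3q3 : Fn2 := ⟨_, _, fun h1 h2 => (enc_norm (enc_add (enc_sub (enc_rat _ 845353 1600000) (enc_scale 222067 800000 h1)) (enc_mul (enc_norm (enc_subr 1 4 h2)) (enc_norm (enc_sub (enc_rat _ 1083137 3200000) (enc_scale 228939 1600000 h1))))))⟩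
noncomputable def lc33 : Fn2 := ⟨_, _, fun h1 h2 => (enc_norm (enc_mul (enc_norm (enc_add (enc_scale 4 5 (enc_subr 1 2 (swg.enc (ycg.enc h1)))) (enc_scale 1 5 h1))) (bx3q3.enc (ycg.enc h1) h2)))⟩
noncomputable def cv4m : Fn1 := ⟨_, _, fun h1 => (enc_norm (enc_add (enc_scale 2 5 (enc_add (swg.enc h1) (enc_rat _ 1 2))) (enc_scale 3 5 (c3g.enc h1))))⟩
noncomputable def bf4q0 : Fn2 := ⟨_, _, fun h1 h2 => (enc_norm (enc_add (enc_sub (enc_rat _ 66647 250000) (enc_scale 138259 250000 h1)) (enc_mul (enc_norm (enc_subr 1 4 h2)) (enc_norm (enc_sub (enc_rat _ 55473 100000) (enc_scale 292471 50000 h1))))))⟩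
noncomputable def kf4q0 : Fn2 := ⟨_, _, fun h1 h2 => (enc_norm (enc_mul (cv4m.enc h1) (bf4q0.enc h1 h2)))⟩
noncomputable def bx4q0 : Fn2 := ⟨_, _, fun h1 h2 => (enc_norm (enc_add (enc_add (enc_scale 7 250000 h1) (enc_rat _ 727 20000)) (enc_mul (enc_norm (enc_subr 1 4 h2)) (enc_norm (enc_sub (enc_rat _ 19839 50000) (enc_scale 37641 50000 h1))))))⟩
noncomputable def l4q0 : Fn2 := ⟨_, _, fun h1 h2 => (enc_norm (enc_mul (cv4m.enc h1) (bx4q0.enc h1 h2)))⟩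
noncomputable def bf4q1_3 : Fn2 := ⟨_, _, fun h1 h2 => (enc_subr 1 4 h2)⟩
noncomputable def bf4q1 : Fn2 := ⟨_, _, fun h1 h2 => (enc_norm (enc_case (enc_subr 4 5 h1) (enc_case (enc_subr 7 10 h1) (enc_add (enc_add (enc_scale 106867 200000 h1) (enc_rat _ 948861 2000000)) (enc_mul (enc_norm (bf4q1_3.enc h1 h2)) (enc_norm (enc_subr 111459 200000 (enc_scale 12069 20000 h1))))) (enc_add (enc_add (enc_scale 52839 100000 h1) (enc_rat _ 7478 15625)) (enc_mul (enc_norm (bf4q1_3.enc h1 h2)) (enc_norm (enc_subr 50147 100000 (enc_scale 5237 10000 h1)))))) (enc_case (enc_subr 7 8 h1) (enc_add (enc_add (enc_scale 38441 75000 h1) (enc_rat _ 7369 15000)) (enc_mul (enc_norm (bf4q1_3.enc h1 h2)) (enc_norm (enc_subr 5177 12000 (enc_scale 3271 7500 h1))))) (enc_case (enc_subr 19 20 h1) (enc_add (enc_add (enc_scale 1471 3000 h1) (enc_rat _ 153211 300000)) (enc_mul (enc_norm (bf4q1_3.enc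 h1 h2)) (enc_norm (enc_subr 4561 12000 (enc_scale 2831 7500 h1))))) (enc_add (enc_add (enc_scale 587 1250 h1) (enc_rat _ 663 1250)) (enc_mul (enc_norm (bf4q1_3.enc h1 h2)) (enc_norm (enc_subr 2149 5000 (enc_scale 2149 5000 h1)))))))))⟩
noncomputable def kf4q1 : Fn2 := ⟨_, _, fun h1 h2 => (enc_norm (enc_mul (cv4m.enc h1) (bf4q1.enc h1 h2)))⟩
noncomputable def bx4q1_3 : Fn2 := ⟨_, _, fun h1 h2 => (enc_subr 1 4 h2)⟩
noncomputable def bx4q1 : Fn2 := ⟨_, _, fun h1 h2 => (enc_norm (enc_case (enc_subr 4 5 h1) (enc_case (enc_subr 7 10 h1) (enc_add (enc_sub (enc_rat _ 156521 2000000) (enc_scale 3507 40000 h1)) (enc_mul (enc_norm (bx4q1_3.enc h1 h2)) (enc_norm (enc_sub (enc_rat _ 26827 200000) (enc_scale 2071 20000 h1))))) (enc_add (enc_sub (enc_rat _ 4433 62500) (enc_scale 193 2500 h1)) (enc_mul (enc_norm (bx4q1_3.enc h1 h2)) (enc_norm (enc_sub (enc_rat _ 3281 12500) (enc_scale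 2869 10000 h1)))))) (enc_case (enc_subr 7 8 h1) (enc_add (enc_sub (enc_rat _ 3369 62500) (enc_scale 699 12500 h1)) (enc_mul (enc_norm (bx4q1_3.enc h1 h2)) (enc_norm (enc_sub (enc_rat _ 441 3125) (enc_scale 169 1250 h1))))) (enc_case (enc_subr 19 20 h1) (enc_add (enc_sub (enc_rat _ 123317 3000000) (enc_scale 3097 75000 h1)) (enc_mul (enc_norm (bx4q1_3.enc h1 h2)) (enc_norm (enc_sub (enc_rat _ 23513 150000) (enc_scale 287 1875 h1))))) (enc_add (enc_sub (enc_rat _ 1877 50000) (enc_scale 1877 50000 h1)) (enc_mul (enc_norm (bx4q1_3.enc h1 h2)) (enc_norm (enc_sub (enc_rat _ 567 2500) (enc_scale 567 2500 h1)))))))))⟩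
noncomputable def l4q1 : Fn2 := ⟨_, _, fun h1 h2 => (enc_norm (enc_mul (cv4m.enc h1) (bx4q1.enc h1 h2)))⟩
noncomputable def cv4p : Fn1 := ⟨_, _, fun h1 => (enc_norm (enc_add (enc_scale 2 5 (enc_subr 1 2 (swg.enc h1))) (enc_scale 3 5 (c3g.enc h1))))⟩
noncomputable def bf4q2_3 : Fn2 := ⟨_, _, fun h1 h2 => (enc_subr 1 4 h2)⟩
noncomputable def bf4q2 : Fn2 := ⟨_, _, fun h1 h2 => (enc_norm (enc_case (enc_subr 11 10 h1) (enc_case (enc_subr 103 100 h1) (enc_add (enc_add (enc_scale 8803 30000 h1) (enc_rat _ 345511 600000)) (enc_mul (enc_norm (bf4q2_3.enc h1 h2)) (enc_norm (enc_subr 10247 25000 (enc_scale 9 125 h1))))) (enc_case (enc_subr 53 50 h1) (enc_add (enc_add (enc_scale 2171 7500 h1) (enc_rat _ 434953 750000)) (enc_mul (enc_norm (bf4q2_3.enc h1 h2)) (enc_norm (enc_subr 23089 60000 (enc_scale 143 3000 h1))))) (enc_add (enc_add (enc_scale 11337 40000 h1) (enc_rat _ 1172683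 2000000)) (enc_mul (enc_norm (bf4q2_3.enc h1 h2)) (enc_norm (enc_subr 71151 200000 (enc_scale 81 4000 h1))))))) (enc_case (enc_subr 5 4 h1) (enc_case (enc_subr 29 25 h1) (enc_add (enc_add (enc_scale 16553 60000 h1) (enc_rat _ 222989 375000)) (enc_mul (enc_norm (bf4q2_3.enc h1 h2)) (enc_norm (enc_subr 16289 50000 (enc_neg (enc_scale 7 1000 h1)))))) (enc_add (enc_add (enc_scale 24259 90000 h1) (enc_rat _ 2708957 4500000)) (enc_mul (enc_norm (bf4q2_3.enc h1 h2)) (enc_norm (enc_subr 3049 10000 (enc_neg (enc_scale 1 40 h1))))))) (enc_case (enc_subr 27 20 h1) (enc_add (enc_add (enc_scale 3327 12500 h1) (enc_rat _ 606221 1000000)) (enc_mul (enc_norm (bf4q2_3.enc h1 h2)) (enc_norm (enc_subr 11861 40000 (enc_neg (enc_scale 317 10000 h1)))))) (enc_add (enc_add (enc_scale 7931 30000 h1) (enc_rat _ 304321 500000)) (enc_mul (enc_norm (bf4q2_3.enc h1 h2)) (enc_norm (enc_subr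 14761 50000 (enc_neg (enc_scale 49 1500 h1))))))))))⟩
noncomputable def kf4q2 : Fn2 := ⟨_, _, fun h1 h2 => (enc_norm (enc_mul (cv4p.enc h1) (bf4q2.enc h1 h2)))⟩
noncomputable def bx4q2_3 : Fn2 := ⟨_, _, fun h1 h2 => (enc_subr 1 4 h2)⟩
noncomputable def bx4q2 : Fn2 := ⟨_, _, fun h1 h2 => (enc_norm (enc_case (enc_subr 11 10 h1) (enc_case (enc_subr 103 100 h1) (enc_add (enc_sub (enc_rat _ 265981 1500000) (enc_scale 2497 15000 h1)) (enc_mul (enc_norm (bx4q2_3.enc h1 h2)) (enc_norm (enc_subr 16453 75000 (enc_scale 11 60 h1))))) (enc_case (enc_subr 53 50 h1) (enc_add (enc_sub (enc_rat _ 219013 1500000) (enc_scale 2041 15000 h1)) (enc_mul (enc_norm (bx4q2_3.enc h1 h2)) (enc_norm (enc_subr 79099 300000 (enc_scale 679 3000 h1))))) (enc_add (enc_sub (enc_rat _ 10163 100000) (enc_scale 471 5000 h1)) (enc_mul (enc_norm (bx4q2_3.enc h1 h2)) (enc_norm (enc_subr 202 625 (enc_scale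 113 400 h1))))))) (enc_case (enc_subr 5 4 h1) (enc_case (enc_subr 29 25 h1) (enc_add (enc_sub (enc_rat _ 2767 60000) (enc_scale 82 1875 h1)) (enc_mul (enc_norm (bx4q2_3.enc h1 h2)) (enc_norm (enc_subr 24331 60000 (enc_scale 134 375 h1))))) (enc_add (enc_subr 8429 1500000 (enc_scale 13 15000 h1)) (enc_mul (enc_norm (bx4q2_3.enc h1 h2)) (enc_norm (enc_subr 397793 900000 (enc_scale 3499 9000 h1)))))) (enc_case (enc_subr 27 20 h1) (enc_add (enc_subr 16743 500000 (enc_scale 579 25000 h1)) (enc_mul (enc_norm (bx4q2_3.enc h1 h2)) (enc_norm (enc_subr 98179 200000 (enc_scale 4279 10000 h1))))) (enc_add (enc_subr 45087 1000000 (enc_scale 4763 150000 h1)) (enc_mul (enc_norm (bx4q2_3.enc h1 h2)) (enc_norm (enc_subr 10969 20000 (enc_scale 3529 7500 h1)))))))))⟩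
noncomputable def l4q2 : Fn2 := ⟨_, _, fun h1 h2 => (enc_norm (enc_mul (cv4p.enc h1) (bx4q2.enc h1 h2)))⟩
noncomputable def xc43 : Fn1 := ⟨_, _, fun h1 => (enc_norm (enc_add (enc_scale 2 5 (enc_subr 1 2 (swg.enc (ycg.enc h1)))) (enc_scale 3 5 h1)))⟩
noncomputable def bf4q3 : Fn2 := ⟨_, _, fun h1 h2 => (enc_norm (enc_add (enc_subr 513417 250000 (enc_scale 638417 500000 h1)) (enc_mul (enc_norm (enc_subr 1 4 h2)) (enc_norm (enc_subr 289187 12500 (enc_scale 289187 25000 h1))))))⟩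
noncomputable def kfc43 : Fn2 := ⟨_, _, fun h1 h2 => (enc_norm (enc_mul (enc_norm (enc_add (enc_scale 2 5 (enc_subr 1 2 (swg.enc (ycg.enc h1)))) (enc_scale 3 5 h1))) (bf4q3.enc (ycg.enc h1) h2)))⟩
noncomputable def bx4q3 : Fn2 := ⟨_, _, fun h1 h2 => (enc_norm (enc_add (enc_sub (enc_rat _ 3223981 8000000) (enc_scale 859639 4000000 h1)) (enc_mul (enc_norm (enc_subr 1 4 h2)) (enc_norm (enc_sub (enc_rat _ 1527681 3200000) (enc_scale 13603 64000 h1))))))⟩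
noncomputable def lc43 : Fn2 := ⟨_, _, fun h1 h2 => (enc_norm (enc_mul (enc_norm (enc_add (enc_scale 2 5 (enc_subr 1 2 (swg.enc (ycg.enc h1)))) (enc_scale 3 5 h1))) (bx4q3.enc (ycg.enc h1) h2)))⟩
noncomputable def kf5q0 : Fn2 := ⟨_, _, fun h1 h2 => (enc_norm (enc_sub (enc_mul h1 (kcg.enc (enc_half h1) h2)) (enc_mul (enc_norm (enc_mul (enc_sq h1) (enc_norm (enc_add (c3g.enc h1) (enc_rat _ 3 2))))) (enc_inv (enc_mul (enc_norm (enc_sub (enc_pnc _ 1) h1)) (enc_norm (enc_add (enc_pnc _ 1) h1)))))))⟩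
noncomputable def l5q0_6 : Fn2 := ⟨_, _, fun h1 h2 => (enc_half h1)⟩
noncomputable def l5q0_7 : Fn2 := ⟨_, _, fun h1 h2 => (enc_half (c3g.enc h1))⟩
noncomputable def l5q0_8 : Fn2 := ⟨_, _, fun h1 h2 => (enc_scale 1 4 h1)⟩
noncomputable def l5q0 : Fn2 := ⟨_, _, fun h1 h2 => (enc_norm (enc_add (txg.enc (l5q0_6.enc h1 h2) (enc_norm (enc_sub (l5q0_7.enc h1 h2) (l5q0_8.enc h1 h2))) h2) (txg.enc (enc_neg (l5q0_6.enc h1 h2)) (enc_norm (enc_add (l5q0_7.enc h1 h2) (l5q0_8.enc h1 h2))) h2)))⟩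
noncomputable def kf5q1 : Fn2 := ⟨_, _, fun h1 h2 => (enc_norm (enc_add (enc_mul (enc_norm (enc_mul h1 (enc_norm (enc_add (c3g.enc h1) (enc_rat _ 3 2))))) (enc_inv (enc_add (enc_pnc _ 1) h1))) (enc_mul (enc_norm (enc_subn 1 h1)) (kcg.enc (enc_half h1) h2))))⟩
noncomputable def l5q1_7 : Fn2 := ⟨_, _, fun h1 h2 => (enc_half h1)⟩
noncomputable def l5q1_8 : Fn2 := ⟨_, _, fun h1 h2 => (enc_half (c3g.enc h1))⟩
noncomputable def l5q1_9 : Fn2 := ⟨_, _, fun h1 h2 => (enc_scale 1 4 h1)⟩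
noncomputable def l5q1 : Fn2 := ⟨_, _, fun h1 h2 => (enc_norm (enc_add (txg.enc (l5q1_7.enc h1 h2) (enc_norm (enc_sub (l5q1_8.enc h1 h2) (l5q1_9.enc h1 h2))) h2) (txg.enc (enc_neg (l5q1_7.enc h1 h2)) (enc_norm (enc_add (l5q1_8.enc h1 h2) (l5q1_9.enc h1 h2))) h2)))⟩
noncomputable def kf5q2 : Fn2 := ⟨_, _, fun h1 h2 => (enc_norm (enc_add (enc_mul (enc_norm (enc_mul (enc_norm (enc_sub (enc_nat 2 (c3g.enc h1)) h1)) (enc_norm (enc_sub (enc_add (c3g.enc h1) (enc_pnc _ 3)) (enc_scale 3 2 h1))))) (enc_inv (enc_nat 4 (enc_sub (enc_pnc _ 2) h1)))) (enc_mul (enc_norm (enc_subn 1 h1)) (kcg.enc (enc_norm (enc_sub (enc_scale 1 4 h1) (enc_half (c3g.enc h1)))) h2))))⟩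
noncomputable def l5q2_7 : Fn2 := ⟨_, _, fun h1 h2 => (enc_half (c3g.enc h1))⟩
noncomputable def l5q2_8 : Fn2 := ⟨_, _, fun h1 h2 => (enc_scale 1 4 h1)⟩
noncomputable def l5q2_9 : Fn2 := ⟨_, _, fun h1 h2 => (enc_sub (l5q2_7.enc h1 h2) (l5q2_8.enc h1 h2))⟩
noncomputable def l5q2_12 : Fn2 := ⟨_, _, fun h1 h2 => (enc_add (enc_scale 1 4 (c3g.enc h1)) (enc_scale 3 8 h1))⟩
noncomputable def l5q2_14 : Fn2 := ⟨_, _, fun h1 h2 => (enc_half (l5q2_9.enc h1 h2))⟩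
noncomputable def l5q2 : Fn2 := ⟨_, _, fun h1 h2 => (enc_norm (enc_sub (enc_nat 2 (txg.enc (enc_norm (enc_sub (l5q2_8.enc h1 h2) (l5q2_7.enc h1 h2))) (enc_norm (enc_add (l5q2_12.enc h1 h2) (l5q2_14.enc h1 h2))) h2)) (txg.enc (enc_norm (l5q2_9.enc h1 h2)) (enc_norm (enc_sub (l5q2_12.enc h1 h2) (l5q2_14.enc h1 h2))) h2)))⟩
noncomputable def kfc53 : Fn2 := ⟨_, _, fun h1 h2 => (enc_norm (enc_sub (enc_mul (enc_norm (enc_subn 2 (ycg.enc h1))) (kcg.enc (enc_norm (enc_sub (enc_scale 1 4 (ycg.enc h1)) (enc_half h1))) h2)) (enc_mul (enc_norm (enc_mul (enc_norm (enc_sub (enc_nat 2 h1) (ycg.enc h1))) (enc_norm (enc_sub (enc_add h1 (enc_pnc _ 3)) (enc_scale 3 2 (ycg.enc h1)))))) (enc_inv (enc_nat 4 (enc_subn 1 (ycg.enc h1)))))))⟩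
noncomputable def lc53_7 : Fn2 := ⟨_, _, fun h1 h2 => (enc_half h1)⟩
noncomputable def lc53_8 : Fn2 := ⟨_, _, fun h1 h2 => (enc_scale 1 4 (ycg.enc h1))⟩
noncomputable def lc53_9 : Fn2 := ⟨_, _, fun h1 h2 => (enc_sub (lc53_7.enc h1 h2) (lc53_8.enc h1 h2))⟩
noncomputable def lc53_12 : Fn2 := ⟨_, _, fun h1 h2 => (enc_add (enc_scale 1 4 h1) (enc_scale 3 8 (ycg.enc h1)))⟩
noncomputable def lc53_14 : Fn2 := ⟨_, _, fun h1 h2 => (enc_half (lc53_9.enc h1 h2))⟩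
noncomputable def lc53 : Fn2 := ⟨_, _, fun h1 h2 => (enc_norm (enc_sub (enc_nat 2 (txg.enc (enc_norm (enc_sub (lc53_8.enc h1 h2) (lc53_7.enc h1 h2))) (enc_norm (enc_add (lc53_12.enc h1 h2) (lc53_14.enc h1 h2))) h2)) (txg.enc (enc_norm (lc53_9.enc h1 h2)) (enc_norm (enc_sub (lc53_12.enc h1 h2) (lc53_14.enc h1 h2))) h2)))⟩
noncomputable def lm4m : Fn2 := ⟨_, _, fun h1 h2 => (enc_lam (enc_norm (enc_sub h1 (cv4m.enc h2))) (enc_sub (c3g.enc h2) (cv4m.enc h2)))⟩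
noncomputable def lm3m : Fn2 := ⟨_, _, fun h1 h2 => (enc_lam (enc_norm (enc_sub h1 (cv3m.enc h2))) (enc_sub (cv4m.enc h2) (cv3m.enc h2)))⟩
noncomputable def lm2m : Fn2 := ⟨_, _, fun h1 h2 => (enc_lam (enc_norm (enc_sub h1 (cv2m.enc h2))) (enc_sub (cv3m.enc h2) (cv2m.enc h2)))⟩
noncomputable def lm1m : Fn2 := ⟨_, _, fun h1 h2 => (enc_lam (enc_norm (enc_sub h1 (cv1m.enc h2))) (enc_sub (cv2m.enc h2) (cv1m.enc h2)))⟩
noncomputable def lm0m : Fn2 := ⟨_, _, fun h1 h2 => (enc_lam (enc_norm (enc_sub h1 (c1g.enc h2))) (enc_sub (cv1m.enc h2) (c1g.enc h2)))⟩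
noncomputable def rkfq0 : Fn3 := ⟨_, _, fun h1 h2 h3 => (enc_case (enc_sub h1 (cv1m.enc h2)) (enc_add (enc_mul h1 (bf1q0.enc h2 h3)) (enc_mul (enc_norm (enc_sub (enc_pnc _ 1) (lm0m.enc h1 h2))) (enc_norm (enc_sub (kf0q0.enc h2 h3) (enc_mul (c1g.enc h2) (bf1q0.enc h2 h3)))))) (enc_case (enc_sub h1 (cv2m.enc h2)) (enc_add (enc_mul h1 (bf2q0.enc h2 h3)) (enc_mul (enc_norm (enc_mul (enc_norm (enc_sub (enc_pnc _ 1) (lm1m.enc h1 h2))) (cv1m.enc h2))) (enc_norm (enc_sub (bf1q0.enc h2 h3) (bf2q0.enc h2 h3))))) (enc_case (enc_sub h1 (cv3m.enc h2)) (enc_add (enc_mul h1 (bf3q0.enc h2 h3)) (enc_mul (enc_norm (enc_mul (enc_norm (enc_sub (enc_pnc _ 1) (lm2m.enc h1 h2))) (cv2m.enc h2))) (enc_norm (enc_sub (bf2q0.enc h2 h3) (bf3q0.enc h2 h3))))) (enc_case (enc_sub h1 (cv4m.enc h2)) (enc_add (enc_mul h1 (bf4q0.enc h2 h3)) (enc_mul (enc_norm (enc_mul (enc_norm (enc_sub (enc_pnc _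 1) (lm3m.enc h1 h2))) (cv3m.enc h2))) (enc_norm (enc_sub (bf3q0.enc h2 h3) (bf4q0.enc h2 h3))))) (enc_add (kf4q0.enc h2 h3) (enc_mul (lm4m.enc h1 h2) (enc_norm (enc_sub (kf5q0.enc h2 h3) (kf4q0.enc h2 h3)))))))))⟩
noncomputable def rsfq0 : Fn3 := ⟨_, _, fun h1 h2 h3 => (enc_case h1 (enc_neg (rkfq0.enc (enc_neg h1) h2 h3)) (rkfq0.enc h1 h2 h3))⟩
noncomputable def bf3q1_3 : Fn2 := ⟨_, _, fun h1 h2 => (enc_subr 1 4 h2)⟩
noncomputable def bf3q1 : Fn2 := ⟨_, _, fun h1 h2 => (enc_norm (enc_case (enc_subr 3 4 h1) (enc_add (enc_add (enc_scale 731541937 1250000000 h1) (enc_rat _ 596118063 2500000000)) (enc_mul (enc_norm (bf3q1_3.enc h1 h2)) (enc_norm (enc_subr 480794231 125000000 (enc_scale 415490481 62500000 h1))))) (enc_case (enc_subr 19 20 h1) (enc_add (enc_add (enc_scale 236770181 375000000 h1) (enc_rat _ 2797576561 7500000000)) (enc_mul (enc_norm (bf3q1_3.enc h1 h2))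 (enc_norm (enc_sub (enc_rat _ 186181991 750000000) (enc_scale 9698789 37500000 h1))))) (enc_add (enc_add (enc_scale 6793 12500 h1) (enc_rat _ 5707 12500)) (enc_mul (enc_norm (bf3q1_3.enc h1 h2)) (enc_norm (enc_sub (enc_rat _ 127 2500) (enc_scale 127 2500 h1))))))))⟩
noncomputable def rkfq1_36 : Fn3 := ⟨_, _, fun h1 h2 h3 => (enc_add (enc_mul h1 (bf3q1.enc h2 h3)) (enc_mul (enc_norm (enc_mul (enc_norm (enc_sub (enc_pnc _ 1) (lm2m.enc h1 h2))) (cv2m.enc h2))) (enc_norm (enc_sub (bf2q1.enc h2 h3) (bf3q1.enc h2 h3)))))⟩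
noncomputable def rkfq1_38 : Fn3 := ⟨_, _, fun h1 h2 h3 => (enc_sub (enc_pnc _ 1) h2)⟩
noncomputable def rkfq1_39 : Fn3 := ⟨_, _, fun h1 h2 h3 => (gsg.enc (enc_norm (rkfq1_38.enc h1 h2 h3)))⟩
noncomputable def rkfq1_45 : Fn3 := ⟨_, _, fun h1 h2 h3 => (enc_scale 3 2 (rkfq1_38.enc h1 h2 h3))⟩
noncomputable def rkfq1_47 : Fn3 := ⟨_, _, fun h1 h2 h3 => (enc_add (enc_pnc _ 1) (rkfq1_39.enc h1 h2 h3))⟩
noncomputable def rkfq1_68 : Fn3 := ⟨_, _, fun h1 h2 h3 => (enc_sub h1 (cv2m.enc h2))⟩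
noncomputable def rkfq1 : Fn3 := ⟨_, _, fun h1 h2 h3 => (enc_case (enc_sub h1 (cv1m.enc h2)) (enc_add (enc_mul h1 (bf1q1.enc h2 h3)) (enc_mul (enc_norm (enc_sub (enc_pnc _ 1) (lm0m.enc h1 h2))) (enc_norm (enc_sub (kf0q1.enc h2 h3) (enc_mul (c1g.enc h2) (bf1q1.enc h2 h3)))))) (enc_case (rkfq1_68.enc h1 h2 h3) (enc_add (enc_mul h1 (bf2q1.enc h2 h3)) (enc_mul (enc_norm (enc_mul (enc_norm (enc_sub (enc_pnc _ 1) (lm1m.enc h1 h2))) (cv1m.enc h2))) (enc_norm (enc_sub (bf1q1.enc h2 h3) (bf2q1.enc h2 h3))))) (enc_case (enc_sub h1 (cv3m.enc h2)) (enc_case (enc_subr 5 8 h2) (rkfq1_36.enc h1 h2 h3) (enc_case (enc_subr 7 8 h2) (enc_add (kf2q1.enc h2 h3) (enc_mul (enc_norm (enc_mul (enc_norm (rkfq1_68.enc h1 h2 h3)) (enc_inv (enc_sub (enc_add (swg.enc h2) (enc_rat _ 1 2)) (cv2m.enc h2))))) (enc_norm (enc_sub (enc_add (enc_add (enc_mul (enc_norm (enc_mul (enc_norm (enc_sub (rkfq1_39.enc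 h1 h2 h3) (rkfq1_45.enc h1 h2 h3))) (enc_norm (rkfq1_47.enc h1 h2 h3)))) (enc_inv (enc_sub (rkfq1_47.enc h1 h2 h3) (rkfq1_45.enc h1 h2 h3)))) (enc_mul (enc_norm (enc_sub (enc_half (rkfq1_38.enc h1 h2 h3)) (enc_mul (enc_scale 3 4 (enc_sq (enc_norm (rkfq1_38.enc h1 h2 h3)))) (enc_inv (rkfq1_39.enc h1 h2 h3))))) (enc_inv (enc_nat 2 (esg.enc (enc_norm (rkfq1_38.enc h1 h2 h3))))))) (enc_mul (kcg.enc (enc_norm (enc_sub (enc_scale 3 4 (rkfq1_38.enc h1 h2 h3)) (enc_half (rkfq1_39.enc h1 h2 h3)))) h3) (enc_norm (rkfq1_38.enc h1 h2 h3)))) (kf2q1.enc h2 h3))))) (rkfq1_36.enc h1 h2 h3))) (enc_case (enc_sub h1 (cv4m.enc h2)) (enc_add (enc_mul h1 (bf4q1.enc h2 h3)) (enc_mul (enc_norm (enc_sub (enc_pnc _ 1) (lm3m.enc h1 h2))) (enc_norm (enc_sub (kf3q1.enc h2 h3) (enc_mul (cv3m.enc h2) (bf4q1.enc h2 h3)))))) (enc_add (kf4q1.enc h2 h3) (enc_mul (lm4m.enc h1 h2) (enc_norm (enc_sub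 (kf5q1.enc h2 h3) (kf4q1.enc h2 h3)))))))))⟩
noncomputable def rsfq1 : Fn3 := ⟨_, _, fun h1 h2 h3 => (enc_case h1 (enc_neg (rkfq1.enc (enc_neg h1) h2 h3)) (rkfq1.enc h1 h2 h3))⟩
noncomputable def cv1p : Fn1 := ⟨_, _, fun h1 => (enc_norm (enc_add (enc_half (c1g.enc h1)) (enc_half (enc_subr 1 2 (swg.enc h1)))))⟩
noncomputable def lm4p : Fn2 := ⟨_, _, fun h1 h2 => (enc_lam (enc_norm (enc_sub h1 (cv4p.enc h2))) (enc_sub (c3g.enc h2) (cv4p.enc h2)))⟩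
noncomputable def lm3p : Fn2 := ⟨_, _, fun h1 h2 => (enc_lam (enc_norm (enc_sub h1 (cv3p.enc h2))) (enc_sub (cv4p.enc h2) (cv3p.enc h2)))⟩
noncomputable def bf3q2_3 : Fn2 := ⟨_, _, fun h1 h2 => (enc_subr 1 4 h2)⟩
noncomputable def bf3q2 : Fn2 := ⟨_, _, fun h1 h2 => (enc_norm (enc_case (enc_subr 5 4 h1) (enc_case (enc_subr 53 50 h1) (enc_case (enc_subr 103 100 h1) (enc_add (enc_add (enc_scale 761 1000 h1) (enc_rat _ 118623 1000000)) (enc_mul (enc_norm (bf3q2_3.enc h1 h2)) (enc_norm (enc_sub (enc_rat _ 441 5000) (enc_scale 29 200 h1))))) (enc_add (enc_add (enc_scale 22927 30000 h1) (enc_rat _ 172939 1500000)) (enc_mul (enc_norm (bf3q2_3.enc h1 h2)) (enc_norm (enc_sub (enc_rat _ 134 3125) (enc_scale 101 1000 h1)))))) (enc_case (enc_subr 11 10 h1) (enc_add (enc_add (enc_scale 1909 2500 h1) (enc_rat _ 28991 250000)) (enc_mul (enc_norm (bf3q2_3.enc h1 h2)) (enc_norm (enc_subr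 8167 100000 (enc_scale 33 2000 h1))))) (enc_add (enc_add (enc_scale 94676151 125000000 h1) (enc_rat _ 153467339 1250000000)) (enc_mul (enc_norm (bf3q2_3.enc h1 h2)) (enc_norm (enc_subr 1995883 6250000 (enc_scale 145353 625000 h1))))))) (enc_add (enc_add (enc_scale 125324883 1250000000 h1) (enc_rat _ 756060351 2500000000)) (enc_mul (enc_norm (bf3q2_3.enc h1 h2)) (enc_norm (enc_subr 61077447 125000000 (enc_scale 34107899 62500000 h1)))))))⟩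
noncomputable def lm2p : Fn2 := ⟨_, _, fun h1 h2 => (enc_lam (enc_norm (enc_sub h1 (cv2p.enc h2))) (enc_sub (cv3p.enc h2) (cv2p.enc h2)))⟩
noncomputable def kf2q2 : Fn2 := ⟨_, _, fun h1 h2 => (enc_norm (enc_mul (cv2p.enc h1) (bf2q2.enc h1 h2)))⟩
noncomputable def lm1p : Fn2 := ⟨_, _, fun h1 h2 => (enc_lam (enc_norm (enc_sub h1 (cv1p.enc h2))) (enc_sub (cv2p.enc h2) (cv1p.enc h2)))⟩
noncomputable def kf0q2 : Fn2 := ⟨_, _, fun h1 h2 => (enc_norm (enc_add (c1g.enc h1) (enc_mul (enc_norm (enc_subn 1 h1)) (kcg.enc (enc_neg (c1g.enc h1)) h2))))⟩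
noncomputable def lm0p : Fn2 := ⟨_, _, fun h1 h2 => (enc_lam (enc_norm (enc_sub h1 (c1g.enc h2))) (enc_sub (cv1p.enc h2) (c1g.enc h2)))⟩
noncomputable def n0b : Fn2 := ⟨_, _, fun h1 h2 => (enc_norm (enc_sub (enc_pnc _ 1) (enc_mul (enc_norm (enc_subn 1 h1)) (enc_norm (enc_subr 16927 31250 (enc_neg (enc_scale 9733 3125 (enc_subr 1 4 h2))))))))⟩
noncomputable def rkfq2_36 : Fn3 := ⟨_, _, fun h1 h2 h3 => (enc_add (enc_mul h1 (bf3q2.enc h2 h3)) (enc_mul (enc_norm (enc_mul (enc_norm (enc_sub (enc_pnc _ 1) (lm2p.enc h1 h2))) (cv2p.enc h2))) (enc_norm (enc_sub (bf2q2.enc h2 h3) (bf3q2.enc h2 h3)))))⟩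
noncomputable def rkfq2_37 : Fn3 := ⟨_, _, fun h1 h2 h3 => (enc_subn 1 h2)⟩
noncomputable def rkfq2_38 : Fn3 := ⟨_, _, fun h1 h2 h3 => (gsg.enc (enc_norm (rkfq2_37.enc h1 h2 h3)))⟩
noncomputable def rkfq2_44 : Fn3 := ⟨_, _, fun h1 h2 h3 => (enc_scale 3 2 (rkfq2_37.enc h1 h2 h3))⟩
noncomputable def rkfq2_46 : Fn3 := ⟨_, _, fun h1 h2 h3 => (enc_add (enc_pnc _ 1) (rkfq2_38.enc h1 h2 h3))⟩
noncomputable def rkfq2_68 : Fn3 := ⟨_, _, fun h1 h2 h3 => (enc_sub h1 (cv2p.enc h2))⟩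
noncomputable def rkfq2_95 : Fn3 := ⟨_, _, fun h1 h2 h3 => (enc_mul h1 (bf1q2.enc h2 h3))⟩
noncomputable def rkfq2_97 : Fn3 := ⟨_, _, fun h1 h2 h3 => (enc_sub (enc_pnc _ 1) (lm0p.enc h1 h2))⟩
noncomputable def rkfq2 : Fn3 := ⟨_, _, fun h1 h2 h3 => (enc_case (enc_sub h1 (cv1p.enc h2)) (enc_case (enc_subr 1153 1000 h2) (enc_add (rkfq2_95.enc h1 h2 h3) (enc_mul (enc_norm (rkfq2_97.enc h1 h2 h3)) (enc_norm (enc_sub (kf0q2.enc h2 h3) (enc_mul (c1g.enc h2) (bf1q2.enc h2 h3)))))) (enc_case (enc_subr 2887 2500 h2) (enc_add (rkfq2_95.enc h1 h2 h3) (enc_mul (enc_norm (rkfq2_97.enc h1 h2 h3)) (enc_norm (enc_mul (c1g.enc h2) (enc_norm (enc_sub (n0b.enc h2 h3) (bf1q2.enc h2 h3))))))) (rkfq2_95.enc h1 h2 h3))) (enc_case (rkfq2_68.enc h1 h2 h3) (enc_add (enc_mul h1 (bf2q2.enc h2 h3)) (enc_mul (enc_norm (enc_mul (enc_norm (enc_sub (enc_pnc _ 1) (lm1p.enc h1 h2))) (cv1p.enc h2)))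 (enc_norm (enc_sub (bf1q2.enc h2 h3) (bf2q2.enc h2 h3))))) (enc_case (enc_sub h1 (cv3p.enc h2)) (enc_case (enc_subr 9 8 h2) (rkfq2_36.enc h1 h2 h3) (enc_case (enc_subr 11 8 h2) (enc_add (kf2q2.enc h2 h3) (enc_mul (enc_norm (enc_mul (enc_norm (rkfq2_68.enc h1 h2 h3)) (enc_inv (enc_sub (enc_subr 1 2 (swg.enc h2)) (cv2p.enc h2))))) (enc_norm (enc_sub (enc_add (enc_sub (enc_mul (enc_norm (enc_mul (enc_norm (enc_sub (rkfq2_38.enc h1 h2 h3) (rkfq2_44.enc h1 h2 h3))) (enc_norm (rkfq2_46.enc h1 h2 h3)))) (enc_inv (enc_sub (rkfq2_46.enc h1 h2 h3) (rkfq2_44.enc h1 h2 h3)))) (enc_mul (enc_norm (enc_sub (enc_half (rkfq2_37.enc h1 h2 h3)) (enc_mul (enc_scale 3 4 (enc_sq (enc_norm (rkfq2_37.enc h1 h2 h3)))) (enc_inv (rkfq2_38.enc h1 h2 h3))))) (enc_inv (enc_nat 2 (esg.enc (enc_norm (rkfq2_37.enc h1 h2 h3))))))) (enc_mul (kcg.enc (enc_norm (enc_sub (enc_scale 3 4 (rkfq2_37.enc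 h1 h2 h3)) (enc_half (rkfq2_38.enc h1 h2 h3)))) h3) (enc_norm (rkfq2_37.enc h1 h2 h3)))) (kf2q2.enc h2 h3))))) (rkfq2_36.enc h1 h2 h3))) (enc_case (enc_sub h1 (cv4p.enc h2)) (enc_add (enc_mul h1 (bf4q2.enc h2 h3)) (enc_mul (enc_norm (enc_sub (enc_pnc _ 1) (lm3p.enc h1 h2))) (enc_norm (enc_sub (kf3q2.enc h2 h3) (enc_mul (cv3p.enc h2) (bf4q2.enc h2 h3)))))) (enc_add (kf4q2.enc h2 h3) (enc_mul (lm4p.enc h1 h2) (enc_norm (enc_sub (kf5q2.enc h2 h3) (kf4q2.enc h2 h3)))))))))⟩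
noncomputable def rsfq2 : Fn3 := ⟨_, _, fun h1 h2 h3 => (enc_case h1 (enc_neg (rkfq2.enc (enc_neg h1) h2 h3)) (rkfq2.enc h1 h2 h3))⟩
noncomputable def cv3r : Fn1 := ⟨_, _, fun h1 => (enc_norm (enc_add (enc_scale 4 5 (enc_subr 1 2 (swg.enc h1))) (enc_scale 1 5 (c3g.enc h1))))⟩
noncomputable def cv4r : Fn1 := ⟨_, _, fun h1 => (enc_norm (enc_add (enc_scale 2 5 (enc_subr 1 2 (swg.enc h1))) (enc_scale 3 5 (c3g.enc h1))))⟩
noncomputable def kf4q3 : Fn2 := ⟨_, _, fun h1 h2 => (enc_norm (enc_mul (cv4r.enc h1) (bf4q3.enc h1 h2)))⟩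
noncomputable def kf5q3 : Fn2 := ⟨_, _, fun h1 h2 => (enc_norm (enc_sub (enc_mul (enc_norm (enc_subn 2 h1)) (kcg.enc (enc_norm (enc_sub (enc_scale 1 4 h1) (enc_half (c3g.enc h1)))) h2)) (enc_mul (enc_norm (enc_mul (enc_norm (enc_sub (enc_nat 2 (c3g.enc h1)) h1)) (enc_norm (enc_sub (enc_add (c3g.enc h1) (enc_pnc _ 3)) (enc_scale 3 2 h1))))) (enc_inv (enc_nat 4 (enc_subn 1 h1))))))⟩
noncomputable def lm4r : Fn2 := ⟨_, _, fun h1 h2 => (enc_lam (enc_norm (enc_sub h1 (cv4r.enc h2))) (enc_sub (c3g.enc h2) (cv4r.enc h2)))⟩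
noncomputable def lm3r : Fn2 := ⟨_, _, fun h1 h2 => (enc_lam (enc_norm (enc_sub h1 (cv3r.enc h2))) (enc_sub (cv4r.enc h2) (cv3r.enc h2)))⟩
noncomputable def lm2r : Fn2 := ⟨_, _, fun h1 h2 => (enc_lam (enc_norm (enc_sub h1 (cv2r.enc h2))) (enc_sub (cv3r.enc h2) (cv2r.enc h2)))⟩
noncomputable def lm1r : Fn2 := ⟨_, _, fun h1 h2 => (enc_lam (enc_norm (enc_sub h1 (cv1r.enc h2))) (enc_sub (cv2r.enc h2) (cv1r.enc h2)))⟩
noncomputable def rkfq3 : Fn3 := ⟨_, _, fun h1 h2 h3 => (enc_case (enc_sub h1 (cv1r.enc h2)) (enc_mul h1 (bf1q3.enc h2 h3)) (enc_case (enc_sub h1 (cv2r.enc h2)) (enc_add (enc_mul h1 (bf2q3.enc h2 h3)) (enc_mul (enc_norm (enc_mul (enc_norm (enc_sub (enc_pnc _ 1) (lm1r.enc h1 h2))) (cv1r.enc h2))) (enc_norm (enc_sub (bf1q3.enc h2 h3) (bf2q3.enc h2 h3))))) (enc_case (enc_sub h1 (cv3r.enc h2)) (enc_add (enc_mul h1 (bf3q3.enc h2 h3)) (enc_mul (enc_norm (enc_mul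 (enc_norm (enc_sub (enc_pnc _ 1) (lm2r.enc h1 h2))) (cv2r.enc h2))) (enc_norm (enc_sub (bf2q3.enc h2 h3) (bf3q3.enc h2 h3))))) (enc_case (enc_sub h1 (cv4r.enc h2)) (enc_add (enc_mul h1 (bf4q3.enc h2 h3)) (enc_mul (enc_norm (enc_mul (enc_norm (enc_sub (enc_pnc _ 1) (lm3r.enc h1 h2))) (cv3r.enc h2))) (enc_norm (enc_sub (bf3q3.enc h2 h3) (bf4q3.enc h2 h3))))) (enc_add (kf4q3.enc h2 h3) (enc_mul (lm4r.enc h1 h2) (enc_norm (enc_sub (kf5q3.enc h2 h3) (kf4q3.enc h2 h3)))))))))⟩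
noncomputable def rsfq3 : Fn3 := ⟨_, _, fun h1 h2 h3 => (enc_case h1 (enc_neg (rkfq3.enc (enc_neg h1) h2 h3)) (rkfq3.enc h1 h2 h3))⟩
noncomputable def rxq0 : Fn3 := ⟨_, _, fun h1 h2 h3 => (enc_case (enc_sub h1 (cv1m.enc h2)) (enc_add (enc_mul h1 (bx1q0.enc h2 h3)) (enc_mul (enc_norm (enc_sub (enc_pnc _ 1) (lm0m.enc h1 h2))) (enc_norm (enc_sub (l0q0.enc h2 h3) (enc_mul (c1g.enc h2) (bx1q0.enc h2 h3)))))) (enc_case (enc_sub h1 (cv2m.enc h2)) (enc_add (enc_mul h1 (bx2q0.enc h2 h3)) (enc_mul (enc_norm (enc_mul (enc_norm (enc_sub (enc_pnc _ 1) (lm1m.enc h1 h2))) (cv1m.enc h2))) (enc_norm (enc_sub (bx1q0.enc h2 h3) (bx2q0.enc h2 h3))))) (enc_case (enc_sub h1 (cv3m.enc h2)) (enc_add (enc_mul h1 (bx3q0.enc h2 h3)) (enc_mul (enc_norm (enc_mul (enc_norm (enc_sub (enc_pnc _ 1) (lm2m.enc h1 h2))) (cv2m.enc h2))) (enc_norm (enc_sub (bx2q0.enc h2 h3) (bx3q0.enc h2 h3))))) (enc_case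 (enc_sub h1 (cv4m.enc h2)) (enc_add (enc_mul h1 (bx4q0.enc h2 h3)) (enc_mul (enc_norm (enc_mul (enc_norm (enc_sub (enc_pnc _ 1) (lm3m.enc h1 h2))) (cv3m.enc h2))) (enc_norm (enc_sub (bx3q0.enc h2 h3) (bx4q0.enc h2 h3))))) (enc_add (l4q0.enc h2 h3) (enc_mul (lm4m.enc h1 h2) (enc_norm (enc_sub (l5q0.enc h2 h3) (l4q0.enc h2 h3)))))))))⟩
noncomputable def rlq0 : Fn3 := ⟨_, _, fun h1 h2 h3 => (enc_case h1 (enc_neg (rxq0.enc (enc_neg h1) h2 h3)) (rxq0.enc h1 h2 h3))⟩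
noncomputable def bx3q1_3 : Fn2 := ⟨_, _, fun h1 h2 => (enc_subr 1 4 h2)⟩
noncomputable def bx3q1_17 : Fn2 := ⟨_, _, fun h1 h2 => (enc_sq (enc_norm (bx3q1_3.enc h1 h2)))⟩
noncomputable def bx3q1 : Fn2 := ⟨_, _, fun h1 h2 => (enc_norm (enc_case (enc_subr 3 4 h1) (enc_add (enc_add (enc_add (enc_scale 32891133 1250000000 h1) (enc_rat _ 31766367 2500000000)) (enc_mul (enc_norm (bx3q1_3.enc h1 h2)) (enc_norm (enc_sub (enc_rat _ 41759059 50000000) (enc_scale 33536059 25000000 h1))))) (enc_mul (bx3q1_17.enc h1 h2) (enc_norm (enc_subr 10143 62500 (enc_scale 10143 31250 h1))))) (enc_case (enc_subr 19 20 h1) (enc_add (enc_add (enc_sub (enc_rat _ 225801629 3750000000) (enc_scale 11607191 187500000 h1)) (enc_mul (enc_norm (bx3q1_3.enc h1 h2)) (enc_norm (enc_sub (enc_rat _ 276139681 1500000000) (enc_scale 14126299 75000000 h1))))) (enc_mul (bx3q1_17.enc h1 h2) (enc_norm (enc_sub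 (enc_rat _ 7049 187500) (enc_scale 371 9375 h1))))) (enc_add (enc_sub (enc_rat _ 351 12500) (enc_scale 351 12500 h1)) (enc_mul (enc_norm (bx3q1_3.enc h1 h2)) (enc_norm (enc_sub (enc_rat _ 129 1250) (enc_scale 129 1250 h1))))))))⟩
noncomputable def rxq1_36 : Fn3 := ⟨_, _, fun h1 h2 h3 => (enc_add (enc_mul h1 (bx3q1.enc h2 h3)) (enc_mul (enc_norm (enc_mul (enc_norm (enc_sub (enc_pnc _ 1) (lm2m.enc h1 h2))) (cv2m.enc h2))) (enc_norm (enc_sub (bx2q1.enc h2 h3) (bx3q1.enc h2 h3)))))⟩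
noncomputable def rxq1_38 : Fn3 := ⟨_, _, fun h1 h2 h3 => (enc_sub (enc_pnc _ 1) h2)⟩
noncomputable def rxq1_55 : Fn3 := ⟨_, _, fun h1 h2 h3 => (enc_sub h1 (cv2m.enc h2))⟩
noncomputable def rxq1 : Fn3 := ⟨_, _, fun h1 h2 h3 => (enc_case (enc_sub h1 (cv1m.enc h2)) (enc_add (enc_mul h1 (bx1q1.enc h2 h3)) (enc_mul (enc_norm (enc_sub (enc_pnc _ 1) (lm0m.enc h1 h2))) (enc_norm (enc_sub (l0q1.enc h2 h3) (enc_mul (c1g.enc h2) (bx1q1.enc h2 h3)))))) (enc_case (rxq1_55.enc h1 h2 h3) (enc_add (enc_mul h1 (bx2q1.enc h2 h3)) (enc_mul (enc_norm (enc_mul (enc_norm (enc_sub (enc_pnc _ 1) (lm1m.enc h1 h2))) (cv1m.enc h2))) (enc_norm (enc_sub (bx1q1.enc h2 h3) (bx2q1.enc h2 h3))))) (enc_case (enc_sub h1 (cv3m.enc h2)) (enc_case (enc_subr 5 8 h2) (rxq1_36.enc h1 h2 h3) (enc_case (enc_subr 7 8 h2) (enc_add (l2q1.enc h2 h3) (enc_mul (enc_norm (enc_mul (enc_norm (rxq1_55.enc h1 h2 h3))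 (enc_inv (enc_sub (enc_add (swg.enc h2) (enc_rat _ 1 2)) (cv2m.enc h2))))) (enc_norm (enc_sub (enc_sub (qsg.enc (enc_norm (rxq1_38.enc h1 h2 h3))) (enc_mul (enc_norm (enc_nat 2 (enc_sub (rxq1_38.enc h1 h2 h3) h3))) (enc_norm (enc_mul (esg.enc (enc_norm (rxq1_38.enc h1 h2 h3))) (kcg.enc (enc_norm (enc_sub (enc_scale 3 4 (rxq1_38.enc h1 h2 h3)) (enc_half (gsg.enc (enc_norm (rxq1_38.enc h1 h2 h3)))))) h3))))) (l2q1.enc h2 h3))))) (rxq1_36.enc h1 h2 h3))) (enc_case (enc_sub h1 (cv4m.enc h2)) (enc_add (enc_mul h1 (bx4q1.enc h2 h3)) (enc_mul (enc_norm (enc_sub (enc_pnc _ 1) (lm3m.enc h1 h2))) (enc_norm (enc_sub (l3q1.enc h2 h3) (enc_mul (cv3m.enc h2) (bx4q1.enc h2 h3)))))) (enc_add (l4q1.enc h2 h3) (enc_mul (lm4m.enc h1 h2) (enc_norm (enc_sub (l5q1.enc h2 h3) (l4q1.enc h2 h3)))))))))⟩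
noncomputable def rlq1 : Fn3 := ⟨_, _, fun h1 h2 h3 => (enc_case h1 (enc_neg (rxq1.enc (enc_neg h1) h2 h3)) (rxq1.enc h1 h2 h3))⟩
noncomputable def bx3q2_3 : Fn2 := ⟨_, _, fun h1 h2 => (enc_subr 1 4 h2)⟩
noncomputable def bx3q2_57 : Fn2 := ⟨_, _, fun h1 h2 => (enc_sq (enc_norm (bx3q2_3.enc h1 h2)))⟩
noncomputable def bx3q2 : Fn2 := ⟨_, _, fun h1 h2 => (enc_norm (enc_case (enc_subr 5 4 h1) (enc_case (enc_subr 53 50 h1) (enc_case (enc_subr 103 100 h1) (enc_add (enc_sub (enc_rat _ 12243 1000000) (enc_scale 277 10000 h1)) (enc_mul (enc_norm (bx3q2_3.enc h1 h2)) (enc_norm (enc_subr 2939 300000 (enc_neg (enc_scale 11 600 h1)))))) (enc_add (enc_subr 2333 187500 (enc_neg (enc_scale 7 1875 h1))) (enc_mul (enc_norm (bx3q2_3.enc h1 h2)) (enc_norm (enc_sub (enc_rat _ 8911 9375) (enc_scale 713 750 h1)))))) (enc_case (enc_subr 11 10 h1) (enc_add (enc_subr 9431 100000 (enc_scale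 147 2000 h1)) (enc_mul (enc_norm (bx3q2_3.enc h1 h2)) (enc_norm (enc_sub (enc_rat _ 123799 40000) (enc_scale 2379 800 h1))))) (enc_add (enc_add (enc_subr 614272361 2500000000 (enc_scale 52783851 250000000 h1)) (enc_mul (enc_norm (bx3q2_3.enc h1 h2)) (enc_norm (enc_subr 935498273 125000000 (enc_scale 83043593 12500000 h1))))) (enc_mul (bx3q2_57.enc h1 h2) (enc_norm (enc_subr 250261 125000 (enc_scale 22751 12500 h1))))))) (enc_add (enc_add (enc_sub (enc_rat _ 24623183 78125000) (enc_scale 53072863 312500000 h1)) (enc_mul (enc_norm (bx3q2_3.enc h1 h2)) (enc_norm (enc_sub (enc_rat _ 43019951 62500000) (enc_scale 18442067 31250000 h1))))) (enc_mul (bx3q2_57.enc h1 h2) (enc_norm (enc_sub (enc_rat _ 831801 250000) (enc_scale 277267 125000 h1)))))))⟩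
noncomputable def l2q2 : Fn2 := ⟨_, _, fun h1 h2 => (enc_norm (enc_mul (cv2p.enc h1) (bx2q2.enc h1 h2)))⟩
noncomputable def l0q2_7 : Fn2 := ⟨_, _, fun h1 h2 => (enc_scale 3 4 h1)⟩
noncomputable def l0q2_8 : Fn2 := ⟨_, _, fun h1 h2 => (enc_half (c1g.enc h1))⟩
noncomputable def l0q2 : Fn2 := ⟨_, _, fun h1 h2 => (enc_norm (enc_sub (txg.enc (enc_neg (c1g.enc h1)) (enc_norm (enc_add (l0q2_7.enc h1 h2) (l0q2_8.enc h1 h2))) h2) (txg.enc (c1g.enc h1) (enc_norm (enc_sub (l0q2_7.enc h1 h2) (l0q2_8.enc h1 h2))) h2)))⟩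
noncomputable def n0x : Fn2 := ⟨_, _, fun h1 h2 => (enc_norm (enc_add (enc_scale 61 3125 (enc_subr 1 4 h2)) (enc_rat _ 2027 62500)))⟩
noncomputable def rxq2_36 : Fn3 := ⟨_, _, fun h1 h2 h3 => (enc_add (enc_mul h1 (bx3q2.enc h2 h3)) (enc_mul (enc_norm (enc_mul (enc_norm (enc_sub (enc_pnc _ 1) (lm2p.enc h1 h2))) (cv2p.enc h2))) (enc_norm (enc_sub (bx2q2.enc h2 h3) (bx3q2.enc h2 h3)))))⟩
noncomputable def rxq2_37 : Fn3 := ⟨_, _, fun h1 h2 h3 => (enc_subn 1 h2)⟩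
noncomputable def rxq2_55 : Fn3 := ⟨_, _, fun h1 h2 h3 => (enc_sub h1 (cv2p.enc h2))⟩
noncomputable def rxq2_82 : Fn3 := ⟨_, _, fun h1 h2 h3 => (enc_mul h1 (bx1q2.enc h2 h3))⟩
noncomputable def rxq2_84 : Fn3 := ⟨_, _, fun h1 h2 h3 => (enc_sub (enc_pnc _ 1) (lm0p.enc h1 h2))⟩
noncomputable def rxq2 : Fn3 := ⟨_, _, fun h1 h2 h3 => (enc_case (enc_sub h1 (cv1p.enc h2)) (enc_case (enc_subr 1153 1000 h2) (enc_add (rxq2_82.enc h1 h2 h3) (enc_mul (enc_norm (rxq2_84.enc h1 h2 h3)) (enc_norm (enc_sub (l0q2.enc h2 h3) (enc_mul (c1g.enc h2) (bx1q2.enc h2 h3)))))) (enc_case (enc_subr 2887 2500 h2) (enc_add (rxq2_82.enc h1 h2 h3) (enc_mul (enc_norm (rxq2_84.enc h1 h2 h3)) (enc_norm (enc_mul (c1g.enc h2) (enc_norm (enc_sub (n0x.enc h2 h3) (bx1q2.enc h2 h3))))))) (rxq2_82.enc h1 h2 h3))) (enc_case (rxq2_55.enc h1 h2 h3) (enc_add (enc_mul h1 (bx2q2.enc h2 h3)) (enc_mul (enc_norm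 (enc_mul (enc_norm (enc_sub (enc_pnc _ 1) (lm1p.enc h1 h2))) (cv1p.enc h2))) (enc_norm (enc_sub (bx1q2.enc h2 h3) (bx2q2.enc h2 h3))))) (enc_case (enc_sub h1 (cv3p.enc h2)) (enc_case (enc_subr 9 8 h2) (rxq2_36.enc h1 h2 h3) (enc_case (enc_subr 11 8 h2) (enc_add (l2q2.enc h2 h3) (enc_mul (enc_norm (enc_mul (enc_norm (rxq2_55.enc h1 h2 h3)) (enc_inv (enc_sub (enc_subr 1 2 (swg.enc h2)) (cv2p.enc h2))))) (enc_norm (enc_sub (enc_sub (qsg.enc (enc_norm (rxq2_37.enc h1 h2 h3))) (enc_mul (enc_norm (enc_nat 2 (enc_sub (rxq2_37.enc h1 h2 h3) h3))) (enc_norm (enc_mul (esg.enc (enc_norm (rxq2_37.enc h1 h2 h3))) (kcg.enc (enc_norm (enc_sub (enc_scale 3 4 (rxq2_37.enc h1 h2 h3)) (enc_half (gsg.enc (enc_norm (rxq2_37.enc h1 h2 h3)))))) h3))))) (l2q2.enc h2 h3))))) (rxq2_36.enc h1 h2 h3))) (enc_case (enc_sub h1 (cv4p.enc h2)) (enc_add (enc_mul h1 (bx4q2.enc h2 h3)) (enc_mul (enc_norm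 (enc_sub (enc_pnc _ 1) (lm3p.enc h1 h2))) (enc_norm (enc_sub (l3q2.enc h2 h3) (enc_mul (cv3p.enc h2) (bx4q2.enc h2 h3)))))) (enc_add (l4q2.enc h2 h3) (enc_mul (lm4p.enc h1 h2) (enc_norm (enc_sub (l5q2.enc h2 h3) (l4q2.enc h2 h3)))))))))⟩
noncomputable def rlq2 : Fn3 := ⟨_, _, fun h1 h2 h3 => (enc_case h1 (enc_neg (rxq2.enc (enc_neg h1) h2 h3)) (rxq2.enc h1 h2 h3))⟩
noncomputable def l4q3 : Fn2 := ⟨_, _, fun h1 h2 => (enc_norm (enc_mul (cv4r.enc h1) (bx4q3.enc h1 h2)))⟩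
noncomputable def l5q3_7 : Fn2 := ⟨_, _, fun h1 h2 => (enc_half (c3g.enc h1))⟩
noncomputable def l5q3_8 : Fn2 := ⟨_, _, fun h1 h2 => (enc_scale 1 4 h1)⟩
noncomputable def l5q3_9 : Fn2 := ⟨_, _, fun h1 h2 => (enc_sub (l5q3_7.enc h1 h2) (l5q3_8.enc h1 h2))⟩
noncomputable def l5q3_12 : Fn2 := ⟨_, _, fun h1 h2 => (enc_add (enc_scale 1 4 (c3g.enc h1)) (enc_scale 3 8 h1))⟩
noncomputable def l5q3_14 : Fn2 := ⟨_, _, fun h1 h2 => (enc_half (l5q3_9.enc h1 h2))⟩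
noncomputable def l5q3 : Fn2 := ⟨_, _, fun h1 h2 => (enc_norm (enc_sub (enc_nat 2 (txg.enc (enc_norm (enc_sub (l5q3_8.enc h1 h2) (l5q3_7.enc h1 h2))) (enc_norm (enc_add (l5q3_12.enc h1 h2) (l5q3_14.enc h1 h2))) h2)) (txg.enc (enc_norm (l5q3_9.enc h1 h2)) (enc_norm (enc_sub (l5q3_12.enc h1 h2) (l5q3_14.enc h1 h2))) h2)))⟩
noncomputable def rxq3 : Fn3 := ⟨_, _, fun h1 h2 h3 => (enc_case (enc_sub h1 (cv1r.enc h2)) (enc_mul h1 (bx1q3.enc h2 h3)) (enc_case (enc_sub h1 (cv2r.enc h2)) (enc_add (enc_mul h1 (bx2q3.enc h2 h3)) (enc_mul (enc_norm (enc_mul (enc_norm (enc_sub (enc_pnc _ 1) (lm1r.enc h1 h2))) (cv1r.enc h2))) (enc_norm (enc_sub (bx1q3.enc h2 h3) (bx2q3.enc h2 h3))))) (enc_case (enc_sub h1 (cv3r.enc h2)) (enc_add (enc_mul h1 (bx3q3.enc h2 h3)) (enc_mul (enc_norm (enc_mul (enc_norm (enc_sub (enc_pnc _ 1) (lm2r.enc h1 h2))) (cv2r.enc h2))) (enc_norm (enc_sub (bx2q3.enc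 h2 h3) (bx3q3.enc h2 h3))))) (enc_case (enc_sub h1 (cv4r.enc h2)) (enc_add (enc_mul h1 (bx4q3.enc h2 h3)) (enc_mul (enc_norm (enc_mul (enc_norm (enc_sub (enc_pnc _ 1) (lm3r.enc h1 h2))) (cv3r.enc h2))) (enc_norm (enc_sub (bx3q3.enc h2 h3) (bx4q3.enc h2 h3))))) (enc_add (l4q3.enc h2 h3) (enc_mul (lm4r.enc h1 h2) (enc_norm (enc_sub (l5q3.enc h2 h3) (l4q3.enc h2 h3)))))))))⟩
noncomputable def rlq3 : Fn3 := ⟨_, _, fun h1 h2 h3 => (enc_case h1 (enc_neg (rxq3.enc (enc_neg h1) h2 h3)) (rxq3.enc h1 h2 h3))⟩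
noncomputable def mug3 : Fn1 := ⟨_, _, fun h1 => (enc_inv (enc_add (enc_nat 2 (gsg.enc h1)) (enc_pnc _ 3)))⟩
noncomputable def gug : Fn1 := ⟨_, _, fun h1 => (enc_norm (enc_add (enc_scale 3 4 h1) (enc_scale 3 2 (enc_sub (enc_pnc _ 1) (gsg.enc h1)))))⟩
noncomputable def kug_2 : Fn1 := ⟨_, _, fun h1 => (enc_sq h1)⟩
noncomputable def kug : Fn1 := ⟨_, _, fun h1 => (enc_norm (enc_add (enc_add (enc_scale 3 4 h1) (enc_scale 3 2 (kug_2.enc h1))) (enc_mul (enc_norm (enc_mul (enc_scale 3 4 (kug_2.enc h1)) (enc_inv (gsg.enc h1)))) (gug.enc h1))))⟩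
noncomputable def kp0q0_3 : Fn2 := ⟨_, _, fun h1 h2 => (enc_subr 1 4 h2)⟩
noncomputable def kp0q0_8 : Fn2 := ⟨_, _, fun h1 h2 => (enc_sub (enc_scale 3 4 h1) (enc_half (c1g.enc h1)))⟩
noncomputable def kp0q0 : Fn2 := ⟨_, _, fun h1 h2 => (enc_norm (enc_case (enc_add (kp0q0_8.enc h1 h2) (enc_rat _ 37 91)) (enc_mul h1 (enc_norm (enc_add (enc_subr 287795200079 170000000000 (enc_neg (enc_scale 443615160079 85000000000 (kp0q0_8.enc h1 h2)))) (enc_mul (enc_norm (kp0q0_3.enc h1 h2)) (enc_norm (enc_subr 50199029999 8500000000 (enc_neg (enc_scale 61209419999 4250000000 (kp0q0_8.enc h1 h2))))))))) (enc_case (enc_add (kp0q0_8.enc h1 h2) (enc_rat _ 47 247)) (enc_sub (kug.enc h1) (enc_mul h1 (enc_norm (enc_mul (kcg.enc (enc_norm (kp0q0_8.enc h1 h2)) h2) (enc_norm (enc_add (gug.enc h1) (enc_nat 2 (c1g.enc h1)))))))) (enc_mul h1 (enc_norm (enc_add (enc_sub (enc_rat _ 1692617012971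 3410000000000) (enc_scale 4818182092971 1705000000000 (kp0q0_8.enc h1 h2))) (enc_mul (enc_norm (kp0q0_3.enc h1 h2)) (enc_norm (enc_subr 1982826199963 3410000000000 (enc_neg (enc_scale 2434283200037 1705000000000 (kp0q0_8.enc h1 h2))))))))))))⟩
noncomputable def kn0q0 : Fn2 := ⟨_, _, fun h1 h2 => (enc_norm (enc_add (enc_mul (enc_norm (enc_add (enc_pnc _ 1) (enc_mul (mug3.enc h2) (gug.enc h2)))) (kf0q0.enc h1 h2)) (enc_mul (mug3.enc h2) (kp0q0.enc h1 h2))))⟩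
noncomputable def kp0q1_9 : Fn2 := ⟨_, _, fun h1 h2 => (enc_sub (enc_scale 3 4 h1) (enc_half (c1g.enc h1)))⟩
noncomputable def kp0q1 : Fn2 := ⟨_, _, fun h1 h2 => (enc_norm (enc_mul (enc_norm (enc_subn 1 h1)) (enc_norm (enc_add (enc_sub (enc_rat _ 1692617012971 3410000000000) (enc_scale 4818182092971 1705000000000 (kp0q1_9.enc h1 h2))) (enc_mul (enc_norm (enc_subr 1 4 h2)) (enc_norm (enc_subr 1982826199963 3410000000000 (enc_neg (enc_scale 2434283200037 1705000000000 (kp0q1_9.enc h1 h2))))))))))⟩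
noncomputable def kn0q1 : Fn2 := ⟨_, _, fun h1 h2 => (enc_norm (enc_add (enc_mul (enc_norm (enc_add (enc_pnc _ 1) (enc_mul (mug3.enc h2) (gug.enc h2)))) (kf0q1.enc h1 h2)) (enc_mul (mug3.enc h2) (kp0q1.enc h1 h2))))⟩
noncomputable def kpc02_4 : Fn2 := ⟨_, _, fun h1 h2 => (enc_subr 1 4 h2)⟩
noncomputable def kpc02 : Fn2 := ⟨_, _, fun h1 h2 => (enc_norm (enc_mul (enc_norm (enc_subn 1 (yag.enc h1))) (enc_norm (enc_case (enc_subr 1 10 h1) (enc_add (enc_scale 10927 6250 h1) (enc_mul (enc_norm (kpc02_4.enc h1 h2)) (enc_scale 59 625 h1))) (enc_add (enc_subr 10607 1000000 (enc_scale 185439 100000 h1)) (enc_mul (enc_norm (kpc02_4.enc h1 h2)) (enc_norm (enc_subr 62407 200000 (enc_scale 12859 4000 h1)))))))))⟩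
noncomputable def knc02 : Fn2 := ⟨_, _, fun h1 h2 => (enc_norm (enc_add (enc_mul (enc_norm (enc_add (enc_pnc _ 1) (enc_mul (mug3.enc h2) (gug.enc h2)))) (kfc02.enc h1 h2)) (enc_mul (mug3.enc h2) (kpc02.enc h1 h2))))⟩
noncomputable def bd1q0 : Fn2 := ⟨_, _, fun h1 h2 => (enc_norm (enc_sub (enc_neg (enc_scale 95271 500000 h1)) (enc_mul (enc_norm (enc_subr 1 4 h2)) (enc_scale 2437 12500 h1))))⟩
noncomputable def kp1q0 : Fn2 := ⟨_, _, fun h1 h2 => (enc_norm (enc_mul (cv1m.enc h1) (bd1q0.enc h1 h2)))⟩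
noncomputable def kn1q0 : Fn2 := ⟨_, _, fun h1 h2 => (enc_norm (enc_add (enc_mul (enc_norm (enc_add (enc_pnc _ 1) (enc_mul (mug3.enc h2) (gug.enc h2)))) (kf1q0.enc h1 h2)) (enc_mul (mug3.enc h2) (kp1q0.enc h1 h2))))⟩
noncomputable def bd1q1_3 : Fn2 := ⟨_, _, fun h1 h2 => (enc_subr 1 4 h2)⟩
noncomputable def bd1q1_24 : Fn2 := ⟨_, _, fun h1 h2 => (enc_mul (enc_norm (bd1q1_3.enc h1 h2)) (enc_norm (enc_subr 127067 100000 (enc_scale 168 625 h1))))⟩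
noncomputable def bd1q1 : Fn2 := ⟨_, _, fun h1 h2 => (enc_norm (enc_case (enc_subr 4 5 h1) (enc_case (enc_subr 7 10 h1) (enc_add (enc_add (enc_scale 233 25000 h1) (enc_rat _ 141009 1000000)) (enc_mul (enc_norm (bd1q1_3.enc h1 h2)) (enc_norm (enc_subr 253987 200000 (enc_scale 1071 4000 h1))))) (enc_add (enc_add (enc_scale 919 100000 h1) (enc_rat _ 1411 10000)) (bd1q1_24.enc h1 h2))) (enc_case (enc_subr 7 8 h1) (enc_add (enc_add (enc_scale 671 75000 h1) (enc_rat _ 105971 750000)) (bd1q1_24.enc h1 h2)) (enc_case (enc_subr 19 20 h1) (enc_add (enc_add (enc_scale 167 18750 h1) (enc_rat _ 423989 3000000)) (enc_mul (enc_norm (bd1q1_3.enc h1 h2)) (enc_norm (enc_subr 23801 18750 (enc_scale 401 1500 h1))))) (enc_add (enc_add (enc_scale 457 50000 h1) (enc_rat _ 35277 250000)) (enc_mul (enc_norm (bd1q1_3.enc h1 h2)) (enc_norm (enc_subr 25351 20000 (enc_scale 1327 5000 h1)))))))))⟩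
noncomputable def kp1q1 : Fn2 := ⟨_, _, fun h1 h2 => (enc_norm (enc_mul (cv1m.enc h1) (bd1q1.enc h1 h2)))⟩
noncomputable def kn1q1 : Fn2 := ⟨_, _, fun h1 h2 => (enc_norm (enc_add (enc_mul (enc_norm (enc_add (enc_pnc _ 1) (enc_mul (mug3.enc h2) (gug.enc h2)))) (kf1q1.enc h1 h2)) (enc_mul (mug3.enc h2) (kp1q1.enc h1 h2))))⟩
noncomputable def bd1q2_3 : Fn2 := ⟨_, _, fun h1 h2 => (enc_subr 1 4 h2)⟩
noncomputable def bd1q2 : Fn2 := ⟨_, _, fun h1 h2 => (enc_norm (enc_case (enc_subr 577 500 h1) (enc_case (enc_subr 53 50 h1) (enc_case (enc_subr 103 100 h1) (enc_add (enc_subr 46807 30000 (enc_scale 46807 30000 h1)) (enc_mul (enc_norm (bd1q2_3.enc h1 h2)) (enc_norm (enc_sub (enc_rat _ 12379 3000) (enc_scale 12379 3000 h1))))) (enc_add (enc_subr 2466937 1500000 (enc_scale 9853 6000 h1)) (enc_mul (enc_norm (bd1q2_3.enc h1 h2)) (enc_norm (enc_sub (enc_rat _ 116741 50000) (enc_scale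 2387 1000 h1)))))) (enc_case (enc_subr 11 10 h1) (enc_add (enc_subr 225431 125000 (enc_scale 224 125 h1)) (enc_mul (enc_norm (bd1q2_3.enc h1 h2)) (enc_norm (enc_subr 26221 20000 (enc_scale 421 400 h1))))) (enc_add (enc_subr 85483 45000 (enc_scale 52859 28125 h1)) (enc_mul (enc_norm (bd1q2_3.enc h1 h2)) (enc_norm (enc_subr 4822489 1350000 (enc_scale 209797 67500 h1))))))) (enc_case (enc_subr 29 25 h1) (enc_case (enc_subr 231 200 h1) (enc_add (enc_subr 10927 6250 (enc_scale 10927 6250 h1)) (enc_mul (enc_norm (bd1q2_3.enc h1 h2)) (enc_norm (enc_subr 59 625 (enc_scale 59 625 h1))))) (enc_add (enc_subr 4291567 2500000 (enc_scale 21511 12500 h1)) (enc_mul (enc_norm (bd1q2_3.enc h1 h2)) (enc_norm (enc_subr 23369 250000 (enc_scale 117 1250 h1)))))) (enc_case (enc_subr 5 4 h1) (enc_add (enc_subr 7582883 4500000 (enc_scale 9527 5625 h1)) (enc_mul (enc_norm (bd1q2_3.enc h1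 h2)) (enc_norm (enc_subr 559 6000 (enc_scale 7 75 h1))))) (enc_case (enc_subr 27 20 h1) (enc_add (enc_subr 829687 500000 (enc_scale 10457 6250 h1)) (enc_mul (enc_norm (bd1q2_3.enc h1 h2)) (enc_norm (enc_subr 751 8000 (enc_scale 939 10000 h1))))) (enc_add (enc_subr 1642589 1000000 (enc_scale 249103 150000 h1)) (enc_mul (enc_norm (bd1q2_3.enc h1 h2)) (enc_norm (enc_subr 9383 100000 (enc_scale 176 1875 h1))))))))))⟩
noncomputable def kpc12a : Fn2 := ⟨_, _, fun h1 h2 => (enc_norm (enc_mul (enc_norm (enc_add (enc_half h1) (enc_half (enc_subr 1 2 (swg.enc (yag.enc h1)))))) (bd1q2.enc (yag.enc h1) h2)))⟩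
noncomputable def knc12a : Fn2 := ⟨_, _, fun h1 h2 => (enc_norm (enc_add (enc_mul (enc_norm (enc_add (enc_pnc _ 1) (enc_mul (mug3.enc h2) (gug.enc h2)))) (kfc12a.enc h1 h2)) (enc_mul (mug3.enc h2) (kpc12a.enc h1 h2))))⟩
noncomputable def kpc12b : Fn2 := ⟨_, _, fun h1 h2 => (enc_norm (enc_mul (enc_norm (enc_half (enc_subr 1 2 (swg.enc h1)))) (bd1q2.enc h1 h2)))⟩
noncomputable def knc12b : Fn2 := ⟨_, _, fun h1 h2 => (enc_norm (enc_add (enc_mul (enc_norm (enc_add (enc_pnc _ 1) (enc_mul (mug3.enc h2) (gug.enc h2)))) (kfc12b.enc h1 h2)) (enc_mul (mug3.enc h2) (kpc12b.enc h1 h2))))⟩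
noncomputable def bd1q3 : Fn2 := ⟨_, _, fun h1 h2 => (enc_norm (enc_add (enc_subr 1979 500000 (enc_scale 219 100000 h1)) (enc_mul (enc_norm (enc_subr 1 4 h2)) (enc_norm (enc_add (enc_scale 37 5000 h1) (enc_rat _ 29 6250))))))⟩
noncomputable def kp1q3 : Fn2 := ⟨_, _, fun h1 h2 => (enc_norm (enc_mul (cv1r.enc h1) (bd1q3.enc h1 h2)))⟩
noncomputable def kn1q3 : Fn2 := ⟨_, _, fun h1 h2 => (enc_norm (enc_add (enc_mul (enc_norm (enc_add (enc_pnc _ 1) (enc_mul (mug3.enc h2) (gug.enc h2)))) (kf1q3.enc h1 h2)) (enc_mul (mug3.enc h2) (kp1q3.enc h1 h2))))⟩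
noncomputable def bd2q0 : Fn2 := ⟨_, _, fun h1 h2 => (enc_norm (enc_sub (enc_neg (enc_scale 47523 250000 h1)) (enc_mul (enc_norm (enc_subr 1 4 h2)) (enc_scale 7509 5000 h1))))⟩
noncomputable def kp2q0 : Fn2 := ⟨_, _, fun h1 h2 => (enc_norm (enc_mul (cv2m.enc h1) (bd2q0.enc h1 h2)))⟩
noncomputable def kn2q0 : Fn2 := ⟨_, _, fun h1 h2 => (enc_norm (enc_add (enc_mul (enc_norm (enc_add (enc_pnc _ 1) (enc_mul (mug3.enc h2) (gug.enc h2)))) (kf2q0.enc h1 h2)) (enc_mul (mug3.enc h2) (kp2q0.enc h1 h2))))⟩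
noncomputable def bd2q1_3 : Fn2 := ⟨_, _, fun h1 h2 => (enc_subr 1 4 h2)⟩
noncomputable def bd2q1 : Fn2 := ⟨_, _, fun h1 h2 => (enc_norm (enc_case (enc_subr 4 5 h1) (enc_case (enc_subr 7 10 h1) (enc_add (enc_subr 407607 500000 (enc_scale 26057 25000 h1)) (enc_mul (enc_norm (bd2q1_3.enc h1 h2)) (enc_norm (enc_sub (enc_rat _ 412187 200000) (enc_scale 1811 4000 h1))))) (enc_add (enc_subr 205179 250000 (enc_scale 52507 50000 h1)) (enc_mul (enc_norm (bd2q1_3.enc h1 h2)) (enc_norm (enc_sub (enc_rat _ 1278 625) (enc_scale 4297 10000 h1)))))) (enc_case (enc_subr 7 8 h1) (enc_add (enc_subr 621437 750000 (enc_scale 39749 37500 h1)) (enc_mul (enc_norm (bd2q1_3.enc h1 h2)) (enc_norm (enc_sub (enc_rat _ 76441 37500) (enc_scale 3163 7500 h1))))) (enc_case (enc_subr 19 20 h1) (enc_add (enc_subr 2512453 3000000 (enc_scale 80261 75000 h1)) (enc_mul (enc_norm (bd2q1_3.enc h1 h2))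 (enc_norm (enc_sub (enc_rat _ 204461 100000) (enc_scale 268 625 h1))))) (enc_add (enc_subr 209189 250000 (enc_scale 53469 50000 h1)) (enc_mul (enc_norm (bd2q1_3.enc h1 h2)) (enc_norm (enc_sub (enc_rat _ 41333 20000) (enc_scale 113 250 h1)))))))))⟩
noncomputable def kp2q1 : Fn2 := ⟨_, _, fun h1 h2 => (enc_norm (enc_mul (cv2m.enc h1) (bd2q1.enc h1 h2)))⟩
noncomputable def kn2q1 : Fn2 := ⟨_, _, fun h1 h2 => (enc_norm (enc_add (enc_mul (enc_norm (enc_add (enc_pnc _ 1) (enc_mul (mug3.enc h2) (gug.enc h2)))) (kf2q1.enc h1 h2)) (enc_mul (mug3.enc h2) (kp2q1.enc h1 h2))))⟩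
noncomputable def bd2q2_3 : Fn2 := ⟨_, _, fun h1 h2 => (enc_subr 1 4 h2)⟩
noncomputable def bd2q2 : Fn2 := ⟨_, _, fun h1 h2 => (enc_norm (enc_case (enc_subr 11 10 h1) (enc_case (enc_subr 103 100 h1) (enc_add (enc_subr 21449 30000 (enc_scale 21449 30000 h1)) (enc_mul (enc_norm (bd2q2_3.enc h1 h2)) (enc_norm (enc_sub (enc_rat _ 173 300) (enc_scale 173 300 h1))))) (enc_case (enc_subr 53 50 h1) (enc_add (enc_subr 358891 500000 (enc_scale 7177 10000 h1)) (enc_mul (enc_norm (bd2q2_3.enc h1 h2)) (enc_norm (enc_sub (enc_rat _ 30787 75000) (enc_scale 623 1500 h1))))) (enc_add (enc_subr 179631 250000 (enc_scale 449 625 h1)) (enc_mul (enc_norm (bd2q2_3.enc h1 h2)) (enc_norm (enc_sub (enc_rat _ 3337 25000) (enc_scale 77 500 h1))))))) (enc_case (enc_subr 5 4 h1) (enc_case (enc_subr 29 25 h1) (enc_add (enc_subr 702299 1000000 (enc_scale 14073 20000 h1)) (enc_mul (enc_norm (bd2q2_3.enc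 h1 h2)) (enc_norm (enc_subr 4253 25000 (enc_scale 61 500 h1))))) (enc_add (enc_subr 130913 200000 (enc_scale 53 80 h1)) (enc_mul (enc_norm (bd2q2_3.enc h1 h2)) (enc_norm (enc_subr 8464 28125 (enc_scale 2113 9000 h1)))))) (enc_case (enc_subr 27 20 h1) (enc_add (enc_subr 61389 100000 (enc_scale 15749 25000 h1)) (enc_mul (enc_norm (bd2q2_3.enc h1 h2)) (enc_norm (enc_subr 65269 200000 (enc_scale 2551 10000 h1))))) (enc_add (enc_subr 597987 1000000 (enc_scale 30909 50000 h1)) (enc_mul (enc_norm (bd2q2_3.enc h1 h2)) (enc_norm (enc_subr 1681 5000 (enc_scale 164 625 h1)))))))))⟩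
noncomputable def kpc22a : Fn2 := ⟨_, _, fun h1 h2 => (enc_norm (enc_mul (enc_norm (enc_add (enc_scale 1 10 h1) (enc_scale 9 10 (enc_subr 1 2 (swg.enc (yag.enc h1)))))) (bd2q2.enc (yag.enc h1) h2)))⟩
noncomputable def knc22a : Fn2 := ⟨_, _, fun h1 h2 => (enc_norm (enc_add (enc_mul (enc_norm (enc_add (enc_pnc _ 1) (enc_mul (mug3.enc h2) (gug.enc h2)))) (kfc22a.enc h1 h2)) (enc_mul (mug3.enc h2) (kpc22a.enc h1 h2))))⟩
noncomputable def kpc22b : Fn2 := ⟨_, _, fun h1 h2 => (enc_norm (enc_mul (enc_norm (enc_scale 9 10 (enc_subr 1 2 (swg.enc h1)))) (bd2q2.enc h1 h2)))⟩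
noncomputable def knc22b : Fn2 := ⟨_, _, fun h1 h2 => (enc_norm (enc_add (enc_mul (enc_norm (enc_add (enc_pnc _ 1) (enc_mul (mug3.enc h2) (gug.enc h2)))) (kfc22b.enc h1 h2)) (enc_mul (mug3.enc h2) (kpc22b.enc h1 h2))))⟩
noncomputable def bd2q3 : Fn2 := ⟨_, _, fun h1 h2 => (enc_norm (enc_add (enc_add (enc_scale 5933 500000 h1) (enc_rat _ 8 3125)) (enc_mul (enc_norm (enc_subr 1 4 h2)) (enc_norm (enc_add (enc_scale 2967 50000 h1) (enc_rat _ 175519 100000))))))⟩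
noncomputable def kp2q3 : Fn2 := ⟨_, _, fun h1 h2 => (enc_norm (enc_mul (cv2r.enc h1) (bd2q3.enc h1 h2)))⟩
noncomputable def kn2q3 : Fn2 := ⟨_, _, fun h1 h2 => (enc_norm (enc_add (enc_mul (enc_norm (enc_add (enc_pnc _ 1) (enc_mul (mug3.enc h2) (gug.enc h2)))) (kf2q3.enc h1 h2)) (enc_mul (mug3.enc h2) (kp2q3.enc h1 h2))))⟩
noncomputable def bd3q0 : Fn2 := ⟨_, _, fun h1 h2 => (enc_norm (enc_add (enc_sub (enc_rat _ 34919 500000) (enc_scale 10891 50000 h1)) (enc_mul (enc_norm (enc_subr 1 4 h2)) (enc_norm (enc_sub (enc_rat _ 21293 100000) (enc_scale 173967 50000 h1))))))⟩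
noncomputable def kp3q0 : Fn2 := ⟨_, _, fun h1 h2 => (enc_norm (enc_mul (cv3m.enc h1) (bd3q0.enc h1 h2)))⟩
noncomputable def kn3q0 : Fn2 := ⟨_, _, fun h1 h2 => (enc_norm (enc_add (enc_mul (enc_norm (enc_add (enc_pnc _ 1) (enc_mul (mug3.enc h2) (gug.enc h2)))) (kf3q0.enc h1 h2)) (enc_mul (mug3.enc h2) (kp3q0.enc h1 h2))))⟩
noncomputable def kp3q1_4 : Fn2 := ⟨_, _, fun h1 h2 => (enc_subr 1 4 h2)⟩
noncomputable def kp3q1_41 : Fn2 := ⟨_, _, fun h1 h2 => (enc_sub (enc_pnc _ 1) h1)⟩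
noncomputable def kp3q1_42 : Fn2 := ⟨_, _, fun h1 h2 => (gsg.enc (enc_norm (kp3q1_41.enc h1 h2)))⟩
noncomputable def kp3q1_46 : Fn2 := ⟨_, _, fun h1 h2 => (esg.enc (enc_norm (kp3q1_41.enc h1 h2)))⟩
noncomputable def kp3q1_54 : Fn2 := ⟨_, _, fun h1 h2 => (enc_mul (enc_scale 3 4 (enc_sq (enc_norm (kp3q1_41.enc h1 h2)))) (enc_inv (kp3q1_42.enc h1 h2)))⟩
noncomputable def kp3q1_79 : Fn2 := ⟨_, _, fun h1 h2 => (enc_mul (cv2m.enc h1) (bd2q1.enc h1 h2))⟩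
noncomputable def kp3q1 : Fn2 := ⟨_, _, fun h1 h2 => (enc_norm (enc_case (enc_subr 5 8 h1) (enc_mul (cv3m.enc h1) (enc_norm (enc_add (enc_add (enc_scale 49687979 156250000 h1) (enc_rat _ 318937167 625000000)) (enc_mul (enc_norm (kp3q1_4.enc h1 h2)) (enc_norm (enc_subr 1056509809 250000000 (enc_scale 589367309 125000000 h1))))))) (enc_case (enc_subr 7 8 h1) (enc_add (kp3q1_79.enc h1 h2) (enc_mul (enc_norm (enc_mul (enc_norm (enc_sub (enc_sub (enc_add (kug.enc (enc_norm (kp3q1_41.enc h1 h2))) (enc_mul (enc_norm (enc_sub (enc_mul (enc_norm (enc_mul (enc_norm (kp3q1_54.enc h1 h2)) (enc_norm (enc_subn 3 (enc_nat 4 (kp3q1_42.enc h1 h2)))))) (kp3q1_46.enc h1 h2)) (enc_mul (qsg.enc (enc_norm (kp3q1_41.enc h1 h2))) (enc_norm (enc_sub (enc_half (kp3q1_41.enc h1 h2)) (kp3q1_54.enc h1 h2)))))) (enc_inv (enc_mul (enc_nat 2 (kp3q1_46.enc h1 h2)) (kp3q1_46.enc h1 h2))))) (enc_mul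 (enc_norm (enc_mul (enc_norm (kp3q1_41.enc h1 h2)) (kcg.enc (enc_norm (enc_sub (enc_scale 3 4 (kp3q1_41.enc h1 h2)) (enc_half (kp3q1_42.enc h1 h2)))) h2))) (enc_norm (enc_add (enc_add (enc_pnc _ 1) (gug.enc (enc_norm (kp3q1_41.enc h1 h2)))) (enc_nat 2 (kp3q1_42.enc h1 h2)))))) (kp3q1_79.enc h1 h2))) (enc_norm (enc_sub (cv3m.enc h1) (cv2m.enc h1))))) (enc_inv (enc_sub (enc_add (swg.enc h1) (enc_rat _ 1 2)) (cv2m.enc h1))))) (enc_mul (cv3m.enc h1) (enc_norm (enc_case (enc_subr 19 20 h1) (enc_add (enc_sub (enc_rat _ 1648170523 5000000000) (enc_scale 80915817 250000000 h1)) (enc_mul (enc_norm (kp3q1_4.enc h1 h2)) (enc_norm (enc_subr 373229737 187500000 (enc_scale 18698473 9375000 h1))))) (enc_add (enc_sub (enc_rat _ 11077 25000) (enc_scale 11077 25000 h1)) (enc_mul (enc_norm (kp3q1_4.enc h1 h2)) (enc_norm (enc_subr 4789 2500 (enc_scale 4789 2500 h1)))))))))))⟩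
noncomputable def kn3q1 : Fn2 := ⟨_, _, fun h1 h2 => (enc_norm (enc_add (enc_mul (enc_norm (enc_add (enc_pnc _ 1) (enc_mul (mug3.enc h2) (gug.enc h2)))) (kf3q1.enc h1 h2)) (enc_mul (mug3.enc h2) (kp3q1.enc h1 h2))))⟩
noncomputable def kp3q2_4 : Fn2 := ⟨_, _, fun h1 h2 => (enc_subr 1 4 h2)⟩
noncomputable def kp3q2_68 : Fn2 := ⟨_, _, fun h1 h2 => (enc_subn 1 h1)⟩
noncomputable def kp3q2_69 : Fn2 := ⟨_, _, fun h1 h2 => (gsg.enc (enc_norm (kp3q2_68.enc h1 h2)))⟩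
noncomputable def kp3q2_73 : Fn2 := ⟨_, _, fun h1 h2 => (esg.enc (enc_norm (kp3q2_68.enc h1 h2)))⟩
noncomputable def kp3q2_81 : Fn2 := ⟨_, _, fun h1 h2 => (enc_mul (enc_scale 3 4 (enc_sq (enc_norm (kp3q2_68.enc h1 h2)))) (enc_inv (kp3q2_69.enc h1 h2)))⟩
noncomputable def kp3q2_104 : Fn2 := ⟨_, _, fun h1 h2 => (enc_mul (cv2p.enc h1) (bd2q2.enc h1 h2))⟩
noncomputable def kp3q2 : Fn2 := ⟨_, _, fun h1 h2 => (enc_norm (enc_case (enc_subr 9 8 h1) (enc_mul (cv3p.enc h1) (enc_norm (enc_case (enc_subr 53 50 h1) (enc_case (enc_subr 103 100 h1) (enc_add (enc_subr 1584373 3000000 (enc_scale 2357 6000 h1)) (enc_mul (enc_norm (kp3q2_4.enc h1 h2)) (enc_norm (enc_sub (enc_rat _ 272087 50000) (enc_scale 949 200 h1))))) (enc_add (enc_subr 527781 1000000 (enc_scale 157 400 h1)) (enc_mul (enc_norm (kp3q2_4.enc h1 h2)) (enc_norm (enc_sub (enc_rat _ 272499 50000) (enc_scale 4753 1000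 h1)))))) (enc_case (enc_subr 11 10 h1) (enc_add (enc_subr 210911 400000 (enc_scale 15681 40000 h1)) (enc_mul (enc_norm (kp3q2_4.enc h1 h2)) (enc_norm (enc_sub (enc_rat _ 68191 12500) (enc_scale 2379 500 h1))))) (enc_add (enc_subr 1320241917 2500000000 (enc_scale 98192447 250000000 h1)) (enc_mul (enc_norm (kp3q2_4.enc h1 h2)) (enc_norm (enc_sub (enc_rat _ 272935611 50000000) (enc_scale 23805601 5000000 h1))))))))) (enc_case (enc_subr 11 8 h1) (enc_add (kp3q2_104.enc h1 h2) (enc_mul (enc_norm (enc_mul (enc_norm (enc_sub (enc_add (enc_sub (kug.enc (enc_norm (kp3q2_68.enc h1 h2))) (enc_mul (enc_norm (enc_sub (enc_mul (enc_norm (enc_mul (enc_norm (kp3q2_81.enc h1 h2)) (enc_norm (enc_subn 3 (enc_nat 4 (kp3q2_69.enc h1 h2)))))) (kp3q2_73.enc h1 h2)) (enc_mul (qsg.enc (enc_norm (kp3q2_68.enc h1 h2))) (enc_norm (enc_sub (enc_half (kp3q2_68.enc h1 h2)) (kp3q2_81.enc h1 h2))))))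 (enc_inv (enc_mul (enc_nat 2 (kp3q2_73.enc h1 h2)) (kp3q2_73.enc h1 h2))))) (enc_mul (enc_norm (enc_mul (enc_norm (kp3q2_68.enc h1 h2)) (kcg.enc (enc_norm (enc_sub (enc_scale 3 4 (kp3q2_68.enc h1 h2)) (enc_half (kp3q2_69.enc h1 h2)))) h2))) (enc_norm (enc_sub (enc_sub (enc_pnc _ 1) (gug.enc (enc_norm (kp3q2_68.enc h1 h2)))) (enc_nat 2 (kp3q2_69.enc h1 h2)))))) (kp3q2_104.enc h1 h2))) (enc_norm (enc_sub (cv3p.enc h1) (cv2p.enc h1))))) (enc_inv (enc_sub (enc_subr 1 2 (swg.enc h1)) (cv2p.enc h1))))) (enc_mul (cv3p.enc h1) (enc_norm (enc_add (enc_subr 971120223 2500000000 (enc_scale 1374709241 1250000000 h1)) (enc_mul (enc_norm (kp3q2_4.enc h1 h2)) (enc_norm (enc_subr 118702937 250000000 (enc_neg (enc_scale 6676521 125000000 h1)))))))))))⟩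
noncomputable def kn3q2 : Fn2 := ⟨_, _, fun h1 h2 => (enc_norm (enc_add (enc_mul (enc_norm (enc_add (enc_pnc _ 1) (enc_mul (mug3.enc h2) (gug.enc h2)))) (kf3q2.enc h1 h2)) (enc_mul (mug3.enc h2) (kp3q2.enc h1 h2))))⟩
noncomputable def bd3q3 : Fn2 := ⟨_, _, fun h1 h2 => (enc_norm (enc_add (enc_subr 8789 62500 (enc_scale 8789 125000 h1)) (enc_mul (enc_norm (enc_subr 1 4 h2)) (enc_norm (enc_subr 1733 3125 (enc_scale 1733 6250 h1))))))⟩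
noncomputable def kpc33 : Fn2 := ⟨_, _, fun h1 h2 => (enc_norm (enc_mul (enc_norm (enc_add (enc_scale 4 5 (enc_subr 1 2 (swg.enc (ycg.enc h1)))) (enc_scale 1 5 h1))) (bd3q3.enc (ycg.enc h1) h2)))⟩
noncomputable def knc33 : Fn2 := ⟨_, _, fun h1 h2 => (enc_norm (enc_add (enc_mul (enc_norm (enc_add (enc_pnc _ 1) (enc_mul (mug3.enc h2) (gug.enc h2)))) (kfc33.enc h1 h2)) (enc_mul (mug3.enc h2) (kpc33.enc h1 h2))))⟩
noncomputable def bd4q0 : Fn2 := ⟨_, _, fun h1 h2 => (enc_norm (enc_add (enc_sub (enc_rat _ 11821 125000) (enc_scale 39151 250000 h1)) (enc_mul (enc_norm (enc_subr 1 4 h2)) (enc_norm (enc_sub (enc_rat _ 150343 100000) (enc_scale 39987 50000 h1))))))⟩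
noncomputable def kp4q0 : Fn2 := ⟨_, _, fun h1 h2 => (enc_norm (enc_mul (cv4m.enc h1) (bd4q0.enc h1 h2)))⟩
noncomputable def kn4q0 : Fn2 := ⟨_, _, fun h1 h2 => (enc_norm (enc_add (enc_mul (enc_norm (enc_add (enc_pnc _ 1) (enc_mul (mug3.enc h2) (gug.enc h2)))) (kf4q0.enc h1 h2)) (enc_mul (mug3.enc h2) (kp4q0.enc h1 h2))))⟩
noncomputable def bd4q1_3 : Fn2 := ⟨_, _, fun h1 h2 => (enc_subr 1 4 h2)⟩
noncomputable def bd4q1 : Fn2 := ⟨_, _, fun h1 h2 => (enc_norm (enc_case (enc_subr 4 5 h1) (enc_case (enc_subr 7 10 h1) (enc_add (enc_sub (enc_rat _ 413987 1000000) (enc_scale 4977 12500 h1)) (enc_mul (enc_norm (bd4q1_3.enc h1 h2)) (enc_norm (enc_sub (enc_rat _ 384463 100000) (enc_scale 38163 10000 h1))))) (enc_add (enc_sub (enc_rat _ 42399 100000) (enc_scale 8249 20000 h1)) (enc_mul (enc_norm (bd4q1_3.enc h1 h2)) (enc_norm (enc_sub (enc_rat _ 38993 10000) (enc_scale 2434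 625 h1)))))) (enc_case (enc_subr 7 8 h1) (enc_add (enc_sub (enc_rat _ 133649 300000) (enc_scale 659 1500 h1)) (enc_mul (enc_norm (bd4q1_3.enc h1 h2)) (enc_norm (enc_sub (enc_rat _ 197253 50000) (enc_scale 9879 2500 h1))))) (enc_case (enc_subr 19 20 h1) (enc_add (enc_sub (enc_rat _ 35773 75000) (enc_scale 4456 9375 h1)) (enc_mul (enc_norm (bd4q1_3.enc h1 h2)) (enc_norm (enc_sub (enc_rat _ 396081 100000) (enc_scale 2481 625 h1))))) (enc_add (enc_sub (enc_rat _ 3179 6250) (enc_scale 3179 6250 h1)) (enc_mul (enc_norm (bd4q1_3.enc h1 h2)) (enc_norm (enc_sub (enc_rat _ 18969 5000) (enc_scale 18969 5000 h1)))))))))⟩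
noncomputable def kp4q1 : Fn2 := ⟨_, _, fun h1 h2 => (enc_norm (enc_mul (cv4m.enc h1) (bd4q1.enc h1 h2)))⟩
noncomputable def kn4q1 : Fn2 := ⟨_, _, fun h1 h2 => (enc_norm (enc_add (enc_mul (enc_norm (enc_add (enc_pnc _ 1) (enc_mul (mug3.enc h2) (gug.enc h2)))) (kf4q1.enc h1 h2)) (enc_mul (mug3.enc h2) (kp4q1.enc h1 h2))))⟩
noncomputable def bd4q2_3 : Fn2 := ⟨_, _, fun h1 h2 => (enc_subr 1 4 h2)⟩
noncomputable def bd4q2 : Fn2 := ⟨_, _, fun h1 h2 => (enc_norm (enc_case (enc_subr 11 10 h1) (enc_case (enc_subr 103 100 h1) (enc_add (enc_add (enc_scale 3 2500 h1) (enc_rat _ 535219 1000000)) (enc_mul (enc_norm (bd4q2_3.enc h1 h2)) (enc_norm (enc_sub (enc_rat _ 8162 3125) (enc_scale 157 200 h1))))) (enc_case (enc_subr 53 50 h1) (enc_add (enc_add (enc_scale 1 1250 h1) (enc_rat _ 535631 1000000)) (enc_mul (enc_norm (bd4q2_3.enc h1 h2)) (enc_norm (enc_sub (enc_rat _ 65193 25000)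 (enc_scale 781 1000 h1))))) (enc_add (enc_sub (enc_rat _ 215111 400000) (enc_scale 49 40000 h1)) (enc_mul (enc_norm (bd4q2_3.enc h1 h2)) (enc_norm (enc_sub (enc_rat _ 519159 200000) (enc_scale 3079 4000 h1))))))) (enc_case (enc_subr 5 4 h1) (enc_case (enc_subr 29 25 h1) (enc_add (enc_sub (enc_rat _ 108111 200000) (enc_scale 3 800 h1)) (enc_mul (enc_norm (bd4q2_3.enc h1 h2)) (enc_norm (enc_sub (enc_rat _ 257077 100000) (enc_scale 747 1000 h1))))) (enc_add (enc_sub (enc_rat _ 4862849 9000000) (enc_scale 319 90000 h1)) (enc_mul (enc_norm (bd4q2_3.enc h1 h2)) (enc_norm (enc_sub (enc_rat _ 2275877 900000) (enc_scale 6397 9000 h1)))))) (enc_case (enc_subr 27 20 h1) (enc_add (enc_sub (enc_rat _ 537961 1000000) (enc_scale 83 50000 h1)) (enc_mul (enc_norm (bd4q2_3.enc h1 h2)) (enc_norm (enc_sub (enc_rat _ 248403 100000) (enc_scale 27 40 h1))))) (enc_add (enc_sub (enc_rat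 _ 53653 100000) (enc_scale 3 5000 h1)) (enc_mul (enc_norm (bd4q2_3.enc h1 h2)) (enc_norm (enc_sub (enc_rat _ 122811 50000) (enc_scale 409 625 h1)))))))))⟩
noncomputable def kp4q2 : Fn2 := ⟨_, _, fun h1 h2 => (enc_norm (enc_mul (cv4p.enc h1) (bd4q2.enc h1 h2)))⟩
noncomputable def kn4q2 : Fn2 := ⟨_, _, fun h1 h2 => (enc_norm (enc_add (enc_mul (enc_norm (enc_add (enc_pnc _ 1) (enc_mul (mug3.enc h2) (gug.enc h2)))) (kf4q2.enc h1 h2)) (enc_mul (mug3.enc h2) (kp4q2.enc h1 h2))))⟩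
noncomputable def bd4q3 : Fn2 := ⟨_, _, fun h1 h2 => (enc_norm (enc_add (enc_subr 64333 125000 (enc_scale 64333 250000 h1)) (enc_mul (enc_norm (enc_subr 1 4 h2)) (enc_norm (enc_subr 21549 25000 (enc_scale 21549 50000 h1))))))⟩
noncomputable def kpc43 : Fn2 := ⟨_, _, fun h1 h2 => (enc_norm (enc_mul (enc_norm (enc_add (enc_scale 2 5 (enc_subr 1 2 (swg.enc (ycg.enc h1)))) (enc_scale 3 5 h1))) (bd4q3.enc (ycg.enc h1) h2)))⟩
noncomputable def knc43 : Fn2 := ⟨_, _, fun h1 h2 => (enc_norm (enc_add (enc_mul (enc_norm (enc_add (enc_pnc _ 1) (enc_mul (mug3.enc h2) (gug.enc h2)))) (kfc43.enc h1 h2)) (enc_mul (mug3.enc h2) (kpc43.enc h1 h2))))⟩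
noncomputable def kp5q0 : Fn2 := ⟨_, _, fun h1 h2 => (enc_norm (enc_mul h1 (enc_norm (enc_add (enc_subr 168883 1000000 (enc_neg (enc_scale 149541 200000 h1))) (enc_mul (enc_norm (enc_subr 1 4 h2)) (enc_norm (enc_sub (enc_rat _ 210479 50000) (enc_scale 137623 25000 h1))))))))⟩
noncomputable def kn5q0 : Fn2 := ⟨_, _, fun h1 h2 => (enc_norm (enc_add (enc_mul (enc_norm (enc_add (enc_pnc _ 1) (enc_mul (mug3.enc h2) (gug.enc h2)))) (kf5q0.enc h1 h2)) (enc_mul (mug3.enc h2) (kp5q0.enc h1 h2))))⟩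
noncomputable def kp5q1 : Fn2 := ⟨_, _, fun h1 h2 => (enc_norm (enc_mul (enc_norm (enc_subn 1 h1)) (enc_norm (enc_add (enc_subr 168883 1000000 (enc_neg (enc_scale 149541 200000 h1))) (enc_mul (enc_norm (enc_subr 1 4 h2)) (enc_norm (enc_sub (enc_rat _ 210479 50000) (enc_scale 137623 25000 h1))))))))⟩
noncomputable def kn5q1 : Fn2 := ⟨_, _, fun h1 h2 => (enc_norm (enc_add (enc_mul (enc_norm (enc_add (enc_pnc _ 1) (enc_mul (mug3.enc h2) (gug.enc h2)))) (kf5q1.enc h1 h2)) (enc_mul (mug3.enc h2) (kp5q1.enc h1 h2))))⟩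
noncomputable def kp5q2_9 : Fn2 := ⟨_, _, fun h1 h2 => (enc_sub (enc_half (c3g.enc h1)) (enc_scale 1 4 h1))⟩
noncomputable def kp5q2 : Fn2 := ⟨_, _, fun h1 h2 => (enc_norm (enc_mul (enc_norm (enc_subn 1 h1)) (enc_norm (enc_add (enc_subr 632303 2000000 (enc_scale 2465479 1000000 (kp5q2_9.enc h1 h2))) (enc_mul (enc_norm (enc_subr 1 4 h2)) (enc_norm (enc_subr 30989 40000 (enc_scale 414013 100000 (kp5q2_9.enc h1 h2)))))))))⟩
noncomputable def kn5q2 : Fn2 := ⟨_, _, fun h1 h2 => (enc_norm (enc_add (enc_mul (enc_norm (enc_add (enc_pnc _ 1) (enc_mul (mug3.enc h2) (gug.enc h2)))) (kf5q2.enc h1 h2)) (enc_mul (mug3.enc h2) (kp5q2.enc h1 h2))))⟩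
noncomputable def kpc53_9 : Fn2 := ⟨_, _, fun h1 h2 => (enc_sub (enc_half h1) (enc_scale 1 4 (ycg.enc h1)))⟩
noncomputable def kpc53 : Fn2 := ⟨_, _, fun h1 h2 => (enc_norm (enc_mul (enc_norm (enc_subn 2 (ycg.enc h1))) (enc_norm (enc_add (enc_subr 632303 2000000 (enc_scale 2465479 1000000 (kpc53_9.enc h1 h2))) (enc_mul (enc_norm (enc_subr 1 4 h2)) (enc_norm (enc_subr 30989 40000 (enc_scale 414013 100000 (kpc53_9.enc h1 h2)))))))))⟩
noncomputable def knc53 : Fn2 := ⟨_, _, fun h1 h2 => (enc_norm (enc_add (enc_mul (enc_norm (enc_add (enc_pnc _ 1) (enc_mul (mug3.enc h2) (gug.enc h2)))) (kfc53.enc h1 h2)) (enc_mul (mug3.enc h2) (kpc53.enc h1 h2))))⟩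
noncomputable def bn4q0 : Fn2 := ⟨_, _, fun h1 h2 => (enc_norm (enc_add (enc_mul (enc_norm (enc_add (enc_pnc _ 1) (enc_mul (mug3.enc h2) (gug.enc h2)))) (bf4q0.enc h1 h2)) (enc_mul (mug3.enc h2) (bd4q0.enc h1 h2))))⟩
noncomputable def bn3q0 : Fn2 := ⟨_, _, fun h1 h2 => (enc_norm (enc_add (enc_mul (enc_norm (enc_add (enc_pnc _ 1) (enc_mul (mug3.enc h2) (gug.enc h2)))) (bf3q0.enc h1 h2)) (enc_mul (mug3.enc h2) (bd3q0.enc h1 h2))))⟩
noncomputable def bn2q0 : Fn2 := ⟨_, _, fun h1 h2 => (enc_norm (enc_add (enc_mul (enc_norm (enc_add (enc_pnc _ 1) (enc_mul (mug3.enc h2) (gug.enc h2)))) (bf2q0.enc h1 h2)) (enc_mul (mug3.enc h2) (bd2q0.enc h1 h2))))⟩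
noncomputable def bn1q0 : Fn2 := ⟨_, _, fun h1 h2 => (enc_norm (enc_add (enc_mul (enc_norm (enc_add (enc_pnc _ 1) (enc_mul (mug3.enc h2) (gug.enc h2)))) (bf1q0.enc h1 h2)) (enc_mul (mug3.enc h2) (bd1q0.enc h1 h2))))⟩
noncomputable def rknq0 : Fn3 := ⟨_, _, fun h1 h2 h3 => (enc_case (enc_sub h1 (cv1m.enc h2)) (enc_add (enc_mul h1 (bn1q0.enc h2 h3)) (enc_mul (enc_norm (enc_sub (enc_pnc _ 1) (lm0m.enc h1 h2))) (enc_norm (enc_sub (kn0q0.enc h2 h3) (enc_mul (c1g.enc h2) (bn1q0.enc h2 h3)))))) (enc_case (enc_sub h1 (cv2m.enc h2)) (enc_add (enc_mul h1 (bn2q0.enc h2 h3)) (enc_mul (enc_norm (enc_mul (enc_norm (enc_sub (enc_pnc _ 1) (lm1m.enc h1 h2))) (cv1m.enc h2))) (enc_norm (enc_sub (bn1q0.enc h2 h3) (bn2q0.enc h2 h3))))) (enc_case (enc_sub h1 (cv3m.enc h2)) (enc_add (enc_mul h1 (bn3q0.enc h2 h3)) (enc_mul (enc_norm (enc_mul (enc_norm (enc_sub (enc_pnc _ 1) (lm2m.enc h1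 h2))) (cv2m.enc h2))) (enc_norm (enc_sub (bn2q0.enc h2 h3) (bn3q0.enc h2 h3))))) (enc_case (enc_sub h1 (cv4m.enc h2)) (enc_add (enc_mul h1 (bn4q0.enc h2 h3)) (enc_mul (enc_norm (enc_mul (enc_norm (enc_sub (enc_pnc _ 1) (lm3m.enc h1 h2))) (cv3m.enc h2))) (enc_norm (enc_sub (bn3q0.enc h2 h3) (bn4q0.enc h2 h3))))) (enc_add (kn4q0.enc h2 h3) (enc_mul (lm4m.enc h1 h2) (enc_norm (enc_sub (kn5q0.enc h2 h3) (kn4q0.enc h2 h3)))))))))⟩
noncomputable def rsnq0 : Fn3 := ⟨_, _, fun h1 h2 h3 => (enc_case h1 (enc_neg (rknq0.enc (enc_neg h1) h2 h3)) (rknq0.enc h1 h2 h3))⟩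
noncomputable def bn4q1 : Fn2 := ⟨_, _, fun h1 h2 => (enc_norm (enc_add (enc_mul (enc_norm (enc_add (enc_pnc _ 1) (enc_mul (mug3.enc h2) (gug.enc h2)))) (bf4q1.enc h1 h2)) (enc_mul (mug3.enc h2) (bd4q1.enc h1 h2))))⟩
noncomputable def bd3q1_3 : Fn2 := ⟨_, _, fun h1 h2 => (enc_subr 1 4 h2)⟩
noncomputable def bd3q1 : Fn2 := ⟨_, _, fun h1 h2 => (enc_norm (enc_case (enc_subr 3 4 h1) (enc_add (enc_add (enc_scale 49687979 156250000 h1) (enc_rat _ 318937167 625000000)) (enc_mul (enc_norm (bd3q1_3.enc h1 h2)) (enc_norm (enc_subr 1056509809 250000000 (enc_scale 589367309 125000000 h1))))) (enc_case (enc_subr 19 20 h1) (enc_add (enc_sub (enc_rat _ 1648170523 5000000000) (enc_scale 80915817 250000000 h1)) (enc_mul (enc_norm (bd3q1_3.enc h1 h2)) (enc_norm (enc_subr 373229737 187500000 (enc_scale 18698473 9375000 h1))))) (enc_add (enc_sub (enc_rat _ 11077 25000) (enc_scale 11077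 25000 h1)) (enc_mul (enc_norm (bd3q1_3.enc h1 h2)) (enc_norm (enc_subr 4789 2500 (enc_scale 4789 2500 h1))))))))⟩
noncomputable def bn3q1 : Fn2 := ⟨_, _, fun h1 h2 => (enc_norm (enc_add (enc_mul (enc_norm (enc_add (enc_pnc _ 1) (enc_mul (mug3.enc h2) (gug.enc h2)))) (bf3q1.enc h1 h2)) (enc_mul (mug3.enc h2) (bd3q1.enc h1 h2))))⟩
noncomputable def bn2q1 : Fn2 := ⟨_, _, fun h1 h2 => (enc_norm (enc_add (enc_mul (enc_norm (enc_add (enc_pnc _ 1) (enc_mul (mug3.enc h2) (gug.enc h2)))) (bf2q1.enc h1 h2)) (enc_mul (mug3.enc h2) (bd2q1.enc h1 h2))))⟩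
noncomputable def bn1q1 : Fn2 := ⟨_, _, fun h1 h2 => (enc_norm (enc_add (enc_mul (enc_norm (enc_add (enc_pnc _ 1) (enc_mul (mug3.enc h2) (gug.enc h2)))) (bf1q1.enc h1 h2)) (enc_mul (mug3.enc h2) (bd1q1.enc h1 h2))))⟩
noncomputable def rknq1_36 : Fn3 := ⟨_, _, fun h1 h2 h3 => (enc_add (enc_mul h1 (bn3q1.enc h2 h3)) (enc_mul (enc_norm (enc_mul (enc_norm (enc_sub (enc_pnc _ 1) (lm2m.enc h1 h2))) (cv2m.enc h2))) (enc_norm (enc_sub (bn2q1.enc h2 h3) (bn3q1.enc h2 h3)))))⟩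
noncomputable def rknq1_42 : Fn3 := ⟨_, _, fun h1 h2 h3 => (enc_sub (enc_pnc _ 1) h2)⟩
noncomputable def rknq1_43 : Fn3 := ⟨_, _, fun h1 h2 h3 => (gsg.enc (enc_norm (rknq1_42.enc h1 h2 h3)))⟩
noncomputable def rknq1_47 : Fn3 := ⟨_, _, fun h1 h2 h3 => (esg.enc (enc_norm (rknq1_42.enc h1 h2 h3)))⟩
noncomputable def rknq1_48 : Fn3 := ⟨_, _, fun h1 h2 h3 => (kcg.enc (enc_norm (enc_sub (enc_scale 3 4 (rknq1_42.enc h1 h2 h3)) (enc_half (rknq1_43.enc h1 h2 h3)))) h3)⟩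
noncomputable def rknq1_49 : Fn3 := ⟨_, _, fun h1 h2 h3 => (enc_scale 3 2 (rknq1_42.enc h1 h2 h3))⟩
noncomputable def rknq1_51 : Fn3 := ⟨_, _, fun h1 h2 h3 => (enc_add (enc_pnc _ 1) (rknq1_43.enc h1 h2 h3))⟩
noncomputable def rknq1_60 : Fn3 := ⟨_, _, fun h1 h2 h3 => (enc_mul (enc_scale 3 4 (enc_sq (enc_norm (rknq1_42.enc h1 h2 h3)))) (enc_inv (rknq1_43.enc h1 h2 h3)))⟩
noncomputable def rknq1_61 : Fn3 := ⟨_, _, fun h1 h2 h3 => (enc_sub (enc_half (rknq1_42.enc h1 h2 h3)) (rknq1_60.enc h1 h2 h3))⟩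
noncomputable def rknq1_62 : Fn3 := ⟨_, _, fun h1 h2 h3 => (enc_nat 2 (rknq1_47.enc h1 h2 h3))⟩
noncomputable def rknq1_97 : Fn3 := ⟨_, _, fun h1 h2 h3 => (enc_sub h1 (cv2m.enc h2))⟩
noncomputable def rknq1 : Fn3 := ⟨_, _, fun h1 h2 h3 => (enc_case (enc_sub h1 (cv1m.enc h2)) (enc_add (enc_mul h1 (bn1q1.enc h2 h3)) (enc_mul (enc_norm (enc_sub (enc_pnc _ 1) (lm0m.enc h1 h2))) (enc_norm (enc_sub (kn0q1.enc h2 h3) (enc_mul (c1g.enc h2) (bn1q1.enc h2 h3)))))) (enc_case (rknq1_97.enc h1 h2 h3) (enc_add (enc_mul h1 (bn2q1.enc h2 h3)) (enc_mul (enc_norm (enc_mul (enc_norm (enc_sub (enc_pnc _ 1) (lm1m.enc h1 h2))) (cv1m.enc h2))) (enc_norm (enc_sub (bn1q1.enc h2 h3) (bn2q1.enc h2 h3))))) (enc_case (enc_sub h1 (cv3m.enc h2)) (enc_case (enc_subr 5 8 h2) (rknq1_36.enc h1 h2 h3) (enc_case (enc_subr 7 8 h2) (enc_add (kn2q1.enc h2 h3) (enc_mul (enc_norm (enc_mul (enc_norm (rknq1_97.enc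 h1 h2 h3)) (enc_inv (enc_sub (enc_add (swg.enc h2) (enc_rat _ 1 2)) (cv2m.enc h2))))) (enc_norm (enc_sub (enc_add (enc_mul (enc_norm (enc_add (enc_pnc _ 1) (enc_mul (mug3.enc h3) (gug.enc h3)))) (enc_norm (enc_add (enc_add (enc_mul (enc_norm (enc_mul (enc_norm (enc_sub (rknq1_43.enc h1 h2 h3) (rknq1_49.enc h1 h2 h3))) (enc_norm (rknq1_51.enc h1 h2 h3)))) (enc_inv (enc_sub (rknq1_51.enc h1 h2 h3) (rknq1_49.enc h1 h2 h3)))) (enc_mul (enc_norm (rknq1_61.enc h1 h2 h3)) (enc_inv (rknq1_62.enc h1 h2 h3)))) (enc_mul (rknq1_48.enc h1 h2 h3) (enc_norm (rknq1_42.enc h1 h2 h3)))))) (enc_mul (mug3.enc h3) (enc_norm (enc_sub (enc_add (kug.enc (enc_norm (rknq1_42.enc h1 h2 h3))) (enc_mul (enc_norm (enc_sub (enc_mul (enc_norm (enc_mul (enc_norm (rknq1_60.enc h1 h2 h3)) (enc_norm (enc_subn 3 (enc_nat 4 (rknq1_43.enc h1 h2 h3)))))) (rknq1_47.enc h1 h2 h3)) (enc_mul (qsg.enc (enc_norm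 (rknq1_42.enc h1 h2 h3))) (enc_norm (rknq1_61.enc h1 h2 h3))))) (enc_inv (enc_mul (rknq1_62.enc h1 h2 h3) (rknq1_47.enc h1 h2 h3))))) (enc_mul (enc_norm (enc_mul (enc_norm (rknq1_42.enc h1 h2 h3)) (rknq1_48.enc h1 h2 h3))) (enc_norm (enc_add (enc_add (enc_pnc _ 1) (gug.enc (enc_norm (rknq1_42.enc h1 h2 h3)))) (enc_nat 2 (rknq1_43.enc h1 h2 h3))))))))) (kn2q1.enc h2 h3))))) (rknq1_36.enc h1 h2 h3))) (enc_case (enc_sub h1 (cv4m.enc h2)) (enc_add (enc_mul h1 (bn4q1.enc h2 h3)) (enc_mul (enc_norm (enc_sub (enc_pnc _ 1) (lm3m.enc h1 h2))) (enc_norm (enc_sub (kn3q1.enc h2 h3) (enc_mul (cv3m.enc h2) (bn4q1.enc h2 h3)))))) (enc_add (kn4q1.enc h2 h3) (enc_mul (lm4m.enc h1 h2) (enc_norm (enc_sub (kn5q1.enc h2 h3) (kn4q1.enc h2 h3)))))))))⟩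
noncomputable def rsnq1 : Fn3 := ⟨_, _, fun h1 h2 h3 => (enc_case h1 (enc_neg (rknq1.enc (enc_neg h1) h2 h3)) (rknq1.enc h1 h2 h3))⟩
noncomputable def bn4q2 : Fn2 := ⟨_, _, fun h1 h2 => (enc_norm (enc_add (enc_mul (enc_norm (enc_add (enc_pnc _ 1) (enc_mul (mug3.enc h2) (gug.enc h2)))) (bf4q2.enc h1 h2)) (enc_mul (mug3.enc h2) (bd4q2.enc h1 h2))))⟩
noncomputable def bd3q2_3 : Fn2 := ⟨_, _, fun h1 h2 => (enc_subr 1 4 h2)⟩
noncomputable def bd3q2 : Fn2 := ⟨_, _, fun h1 h2 => (enc_norm (enc_case (enc_subr 5 4 h1) (enc_case (enc_subr 53 50 h1) (enc_case (enc_subr 103 100 h1) (enc_add (enc_subr 1584373 3000000 (enc_scale 2357 6000 h1)) (enc_mul (enc_norm (bd3q2_3.enc h1 h2)) (enc_norm (enc_sub (enc_rat _ 272087 50000) (enc_scale 949 200 h1))))) (enc_add (enc_subr 527781 1000000 (enc_scale 157 400 h1)) (enc_mul (enc_norm (bd3q2_3.enc h1 h2)) (enc_norm (enc_sub (enc_rat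 _ 272499 50000) (enc_scale 4753 1000 h1)))))) (enc_case (enc_subr 11 10 h1) (enc_add (enc_subr 210911 400000 (enc_scale 15681 40000 h1)) (enc_mul (enc_norm (bd3q2_3.enc h1 h2)) (enc_norm (enc_sub (enc_rat _ 68191 12500) (enc_scale 2379 500 h1))))) (enc_add (enc_subr 1320241917 2500000000 (enc_scale 98192447 250000000 h1)) (enc_mul (enc_norm (bd3q2_3.enc h1 h2)) (enc_norm (enc_sub (enc_rat _ 272935611 50000000) (enc_scale 23805601 5000000 h1))))))) (enc_add (enc_subr 971120223 2500000000 (enc_scale 1374709241 1250000000 h1)) (enc_mul (enc_norm (bd3q2_3.enc h1 h2)) (enc_norm (enc_subr 118702937 250000000 (enc_neg (enc_scale 6676521 125000000 h1))))))))⟩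
noncomputable def bn3q2 : Fn2 := ⟨_, _, fun h1 h2 => (enc_norm (enc_add (enc_mul (enc_norm (enc_add (enc_pnc _ 1) (enc_mul (mug3.enc h2) (gug.enc h2)))) (bf3q2.enc h1 h2)) (enc_mul (mug3.enc h2) (bd3q2.enc h1 h2))))⟩
noncomputable def bn2q2 : Fn2 := ⟨_, _, fun h1 h2 => (enc_norm (enc_add (enc_mul (enc_norm (enc_add (enc_pnc _ 1) (enc_mul (mug3.enc h2) (gug.enc h2)))) (bf2q2.enc h1 h2)) (enc_mul (mug3.enc h2) (bd2q2.enc h1 h2))))⟩
noncomputable def kp2q2 : Fn2 := ⟨_, _, fun h1 h2 => (enc_norm (enc_mul (cv2p.enc h1) (bd2q2.enc h1 h2)))⟩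
noncomputable def kn2q2 : Fn2 := ⟨_, _, fun h1 h2 => (enc_norm (enc_add (enc_mul (enc_norm (enc_add (enc_pnc _ 1) (enc_mul (mug3.enc h2) (gug.enc h2)))) (kf2q2.enc h1 h2)) (enc_mul (mug3.enc h2) (kp2q2.enc h1 h2))))⟩
noncomputable def bn1q2 : Fn2 := ⟨_, _, fun h1 h2 => (enc_norm (enc_add (enc_mul (enc_norm (enc_add (enc_pnc _ 1) (enc_mul (mug3.enc h2) (gug.enc h2)))) (bf1q2.enc h1 h2)) (enc_mul (mug3.enc h2) (bd1q2.enc h1 h2))))⟩
noncomputable def kp0q2_3 : Fn2 := ⟨_, _, fun h1 h2 => (enc_subr 1 4 h2)⟩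
noncomputable def kp0q2 : Fn2 := ⟨_, _, fun h1 h2 => (enc_norm (enc_mul (enc_norm (enc_subn 1 h1)) (enc_norm (enc_case (enc_subr 1 10 (c1g.enc h1)) (enc_add (enc_scale 10927 6250 (c1g.enc h1)) (enc_mul (enc_norm (kp0q2_3.enc h1 h2)) (enc_scale 59 625 (c1g.enc h1)))) (enc_add (enc_subr 10607 1000000 (enc_scale 185439 100000 (c1g.enc h1))) (enc_mul (enc_norm (kp0q2_3.enc h1 h2)) (enc_norm (enc_subr 62407 200000 (enc_scale 12859 4000 (c1g.enc h1))))))))))⟩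
noncomputable def kn0q2 : Fn2 := ⟨_, _, fun h1 h2 => (enc_norm (enc_add (enc_mul (enc_norm (enc_add (enc_pnc _ 1) (enc_mul (mug3.enc h2) (gug.enc h2)))) (kf0q2.enc h1 h2)) (enc_mul (mug3.enc h2) (kp0q2.enc h1 h2))))⟩
noncomputable def n0d : Fn2 := ⟨_, _, fun h1 h2 => (enc_norm (enc_mul (enc_norm (enc_subn 1 h1)) (enc_norm (enc_add (enc_scale 59 625 (enc_subr 1 4 h2)) (enc_rat _ 10927 6250)))))⟩
noncomputable def n0n : Fn2 := ⟨_, _, fun h1 h2 => (enc_norm (enc_add (enc_mul (enc_norm (enc_add (enc_pnc _ 1) (enc_mul (mug3.enc h2) (gug.enc h2)))) (n0b.enc h1 h2)) (enc_mul (mug3.enc h2) (n0d.enc h1 h2))))⟩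
noncomputable def rknq2_36 : Fn3 := ⟨_, _, fun h1 h2 h3 => (enc_add (enc_mul h1 (bn3q2.enc h2 h3)) (enc_mul (enc_norm (enc_mul (enc_norm (enc_sub (enc_pnc _ 1) (lm2p.enc h1 h2))) (cv2p.enc h2))) (enc_norm (enc_sub (bn2q2.enc h2 h3) (bn3q2.enc h2 h3)))))⟩
noncomputable def rknq2_41 : Fn3 := ⟨_, _, fun h1 h2 h3 => (enc_subn 1 h2)⟩
noncomputable def rknq2_42 : Fn3 := ⟨_, _, fun h1 h2 h3 => (gsg.enc (enc_norm (rknq2_41.enc h1 h2 h3)))⟩
noncomputable def rknq2_46 : Fn3 := ⟨_, _, fun h1 h2 h3 => (esg.enc (enc_norm (rknq2_41.enc h1 h2 h3)))⟩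
noncomputable def rknq2_47 : Fn3 := ⟨_, _, fun h1 h2 h3 => (kcg.enc (enc_norm (enc_sub (enc_scale 3 4 (rknq2_41.enc h1 h2 h3)) (enc_half (rknq2_42.enc h1 h2 h3)))) h3)⟩
noncomputable def rknq2_48 : Fn3 := ⟨_, _, fun h1 h2 h3 => (enc_scale 3 2 (rknq2_41.enc h1 h2 h3))⟩
noncomputable def rknq2_50 : Fn3 := ⟨_, _, fun h1 h2 h3 => (enc_add (enc_pnc _ 1) (rknq2_42.enc h1 h2 h3))⟩
noncomputable def rknq2_59 : Fn3 := ⟨_, _, fun h1 h2 h3 => (enc_mul (enc_scale 3 4 (enc_sq (enc_norm (rknq2_41.enc h1 h2 h3)))) (enc_inv (rknq2_42.enc h1 h2 h3)))⟩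
noncomputable def rknq2_60 : Fn3 := ⟨_, _, fun h1 h2 h3 => (enc_sub (enc_half (rknq2_41.enc h1 h2 h3)) (rknq2_59.enc h1 h2 h3))⟩
noncomputable def rknq2_61 : Fn3 := ⟨_, _, fun h1 h2 h3 => (enc_nat 2 (rknq2_46.enc h1 h2 h3))⟩
noncomputable def rknq2_95 : Fn3 := ⟨_, _, fun h1 h2 h3 => (enc_sub h1 (cv2p.enc h2))⟩
noncomputable def rknq2_122 : Fn3 := ⟨_, _, fun h1 h2 h3 => (enc_mul h1 (bn1q2.enc h2 h3))⟩
noncomputable def rknq2_124 : Fn3 := ⟨_, _, fun h1 h2 h3 => (enc_sub (enc_pnc _ 1) (lm0p.enc h1 h2))⟩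
noncomputable def rknq2 : Fn3 := ⟨_, _, fun h1 h2 h3 => (enc_case (enc_sub h1 (cv1p.enc h2)) (enc_case (enc_subr 1153 1000 h2) (enc_add (rknq2_122.enc h1 h2 h3) (enc_mul (enc_norm (rknq2_124.enc h1 h2 h3)) (enc_norm (enc_sub (kn0q2.enc h2 h3) (enc_mul (c1g.enc h2) (bn1q2.enc h2 h3)))))) (enc_case (enc_subr 2887 2500 h2) (enc_add (rknq2_122.enc h1 h2 h3) (enc_mul (enc_norm (rknq2_124.enc h1 h2 h3)) (enc_norm (enc_mul (c1g.enc h2) (enc_norm (enc_sub (n0n.enc h2 h3) (bn1q2.enc h2 h3))))))) (rknq2_122.enc h1 h2 h3))) (enc_case (rknq2_95.enc h1 h2 h3) (enc_add (enc_mul h1 (bn2q2.enc h2 h3)) (enc_mul (enc_norm (enc_mul (enc_norm (enc_sub (enc_pnc _ 1) (lm1p.enc h1 h2))) (cv1p.enc h2))) (enc_norm (enc_sub (bn1q2.enc h2 h3) (bn2q2.enc h2 h3))))) (enc_case (enc_sub h1 (cv3p.enc h2)) (enc_case (enc_subr 9 8 h2) (rknq2_36.enc h1 h2 h3) (enc_case (enc_subr 11 8 h2) (enc_add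 (kn2q2.enc h2 h3) (enc_mul (enc_norm (enc_mul (enc_norm (rknq2_95.enc h1 h2 h3)) (enc_inv (enc_sub (enc_subr 1 2 (swg.enc h2)) (cv2p.enc h2))))) (enc_norm (enc_sub (enc_add (enc_mul (enc_norm (enc_add (enc_pnc _ 1) (enc_mul (mug3.enc h3) (gug.enc h3)))) (enc_norm (enc_add (enc_sub (enc_mul (enc_norm (enc_mul (enc_norm (enc_sub (rknq2_42.enc h1 h2 h3) (rknq2_48.enc h1 h2 h3))) (enc_norm (rknq2_50.enc h1 h2 h3)))) (enc_inv (enc_sub (rknq2_50.enc h1 h2 h3) (rknq2_48.enc h1 h2 h3)))) (enc_mul (enc_norm (rknq2_60.enc h1 h2 h3)) (enc_inv (rknq2_61.enc h1 h2 h3)))) (enc_mul (rknq2_47.enc h1 h2 h3) (enc_norm (rknq2_41.enc h1 h2 h3)))))) (enc_mul (mug3.enc h3) (enc_norm (enc_add (enc_sub (kug.enc (enc_norm (rknq2_41.enc h1 h2 h3))) (enc_mul (enc_norm (enc_sub (enc_mul (enc_norm (enc_mul (enc_norm (rknq2_59.enc h1 h2 h3)) (enc_norm (enc_subn 3 (enc_nat 4 (rknq2_42.enc h1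 h2 h3)))))) (rknq2_46.enc h1 h2 h3)) (enc_mul (qsg.enc (enc_norm (rknq2_41.enc h1 h2 h3))) (enc_norm (rknq2_60.enc h1 h2 h3))))) (enc_inv (enc_mul (rknq2_61.enc h1 h2 h3) (rknq2_46.enc h1 h2 h3))))) (enc_mul (enc_norm (enc_mul (enc_norm (rknq2_41.enc h1 h2 h3)) (rknq2_47.enc h1 h2 h3))) (enc_norm (enc_sub (enc_sub (enc_pnc _ 1) (gug.enc (enc_norm (rknq2_41.enc h1 h2 h3)))) (enc_nat 2 (rknq2_42.enc h1 h2 h3))))))))) (kn2q2.enc h2 h3))))) (rknq2_36.enc h1 h2 h3))) (enc_case (enc_sub h1 (cv4p.enc h2)) (enc_add (enc_mul h1 (bn4q2.enc h2 h3)) (enc_mul (enc_norm (enc_sub (enc_pnc _ 1) (lm3p.enc h1 h2))) (enc_norm (enc_sub (kn3q2.enc h2 h3) (enc_mul (cv3p.enc h2) (bn4q2.enc h2 h3)))))) (enc_add (kn4q2.enc h2 h3) (enc_mul (lm4p.enc h1 h2) (enc_norm (enc_sub (kn5q2.enc h2 h3) (kn4q2.enc h2 h3)))))))))⟩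
noncomputable def rsnq2 : Fn3 := ⟨_, _, fun h1 h2 h3 => (enc_case h1 (enc_neg (rknq2.enc (enc_neg h1) h2 h3)) (rknq2.enc h1 h2 h3))⟩
noncomputable def kp4q3 : Fn2 := ⟨_, _, fun h1 h2 => (enc_norm (enc_mul (cv4r.enc h1) (bd4q3.enc h1 h2)))⟩
noncomputable def kn4q3 : Fn2 := ⟨_, _, fun h1 h2 => (enc_norm (enc_add (enc_mul (enc_norm (enc_add (enc_pnc _ 1) (enc_mul (mug3.enc h2) (gug.enc h2)))) (kf4q3.enc h1 h2)) (enc_mul (mug3.enc h2) (kp4q3.enc h1 h2))))⟩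
noncomputable def kp5q3_9 : Fn2 := ⟨_, _, fun h1 h2 => (enc_sub (enc_half (c3g.enc h1)) (enc_scale 1 4 h1))⟩
noncomputable def kp5q3 : Fn2 := ⟨_, _, fun h1 h2 => (enc_norm (enc_mul (enc_norm (enc_subn 2 h1)) (enc_norm (enc_add (enc_subr 632303 2000000 (enc_scale 2465479 1000000 (kp5q3_9.enc h1 h2))) (enc_mul (enc_norm (enc_subr 1 4 h2)) (enc_norm (enc_subr 30989 40000 (enc_scale 414013 100000 (kp5q3_9.enc h1 h2)))))))))⟩
noncomputable def kn5q3 : Fn2 := ⟨_, _, fun h1 h2 => (enc_norm (enc_add (enc_mul (enc_norm (enc_add (enc_pnc _ 1) (enc_mul (mug3.enc h2) (gug.enc h2)))) (kf5q3.enc h1 h2)) (enc_mul (mug3.enc h2) (kp5q3.enc h1 h2))))⟩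
noncomputable def bn4q3 : Fn2 := ⟨_, _, fun h1 h2 => (enc_norm (enc_add (enc_mul (enc_norm (enc_add (enc_pnc _ 1) (enc_mul (mug3.enc h2) (gug.enc h2)))) (bf4q3.enc h1 h2)) (enc_mul (mug3.enc h2) (bd4q3.enc h1 h2))))⟩
noncomputable def bn3q3 : Fn2 := ⟨_, _, fun h1 h2 => (enc_norm (enc_add (enc_mul (enc_norm (enc_add (enc_pnc _ 1) (enc_mul (mug3.enc h2) (gug.enc h2)))) (bf3q3.enc h1 h2)) (enc_mul (mug3.enc h2) (bd3q3.enc h1 h2))))⟩
noncomputable def bn2q3 : Fn2 := ⟨_, _, fun h1 h2 => (enc_norm (enc_add (enc_mul (enc_norm (enc_add (enc_pnc _ 1) (enc_mul (mug3.enc h2) (gug.enc h2)))) (bf2q3.enc h1 h2)) (enc_mul (mug3.enc h2) (bd2q3.enc h1 h2))))⟩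
noncomputable def bn1q3 : Fn2 := ⟨_, _, fun h1 h2 => (enc_norm (enc_add (enc_mul (enc_norm (enc_add (enc_pnc _ 1) (enc_mul (mug3.enc h2) (gug.enc h2)))) (bf1q3.enc h1 h2)) (enc_mul (mug3.enc h2) (bd1q3.enc h1 h2))))⟩
noncomputable def rknq3 : Fn3 := ⟨_, _, fun h1 h2 h3 => (enc_case (enc_sub h1 (cv1r.enc h2)) (enc_mul h1 (bn1q3.enc h2 h3)) (enc_case (enc_sub h1 (cv2r.enc h2)) (enc_add (enc_mul h1 (bn2q3.enc h2 h3)) (enc_mul (enc_norm (enc_mul (enc_norm (enc_sub (enc_pnc _ 1) (lm1r.enc h1 h2))) (cv1r.enc h2))) (enc_norm (enc_sub (bn1q3.enc h2 h3) (bn2q3.enc h2 h3))))) (enc_case (enc_sub h1 (cv3r.enc h2)) (enc_add (enc_mul h1 (bn3q3.enc h2 h3)) (enc_mul (enc_norm (enc_mul (enc_norm (enc_sub (enc_pnc _ 1) (lm2r.enc h1 h2))) (cv2r.enc h2))) (enc_norm (enc_sub (bn2q3.enc h2 h3) (bn3q3.enc h2 h3))))) (enc_case (enc_sub h1 (cv4r.enc h2)) (enc_add (enc_mul h1 (bn4q3.enc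 h2 h3)) (enc_mul (enc_norm (enc_mul (enc_norm (enc_sub (enc_pnc _ 1) (lm3r.enc h1 h2))) (cv3r.enc h2))) (enc_norm (enc_sub (bn3q3.enc h2 h3) (bn4q3.enc h2 h3))))) (enc_add (kn4q3.enc h2 h3) (enc_mul (lm4r.enc h1 h2) (enc_norm (enc_sub (kn5q3.enc h2 h3) (kn4q3.enc h2 h3)))))))))⟩
noncomputable def rsnq3 : Fn3 := ⟨_, _, fun h1 h2 h3 => (enc_case h1 (enc_neg (rknq3.enc (enc_neg h1) h2 h3)) (rknq3.enc h1 h2 h3))⟩
noncomputable def kf1q2 : Fn2 := ⟨_, _, fun h1 h2 => (enc_norm (enc_mul (cv1p.enc h1) (bf1q2.enc h1 h2)))⟩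
noncomputable def l1q2 : Fn2 := ⟨_, _, fun h1 h2 => (enc_norm (enc_mul (cv1p.enc h1) (bx1q2.enc h1 h2)))⟩
noncomputable def kp1q2 : Fn2 := ⟨_, _, fun h1 h2 => (enc_norm (enc_mul (cv1p.enc h1) (bd1q2.enc h1 h2)))⟩
noncomputable def kn1q2 : Fn2 := ⟨_, _, fun h1 h2 => (enc_norm (enc_add (enc_mul (enc_norm (enc_add (enc_pnc _ 1) (enc_mul (mug3.enc h2) (gug.enc h2)))) (kf1q2.enc h1 h2)) (enc_mul (mug3.enc h2) (kp1q2.enc h1 h2))))⟩

noncomputable def ndF0q0 : Node := ⟨idf, c1g, kf0q0, l0q0⟩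
noncomputable def ndF0q1 : Node := ⟨idf, c1g, kf0q1, l0q1⟩
noncomputable def ndF0q2 : Node := ⟨yag, idf, kfc02, lc02⟩
noncomputable def ndF1q0 : Node := ⟨idf, cv1m, kf1q0, l1q0⟩
noncomputable def ndF1q1 : Node := ⟨idf, cv1m, kf1q1, l1q1⟩
noncomputable def ndF1q2a : Node := ⟨yag, xc12a, kfc12a, lc12a⟩
noncomputable def ndF1q2b : Node := ⟨idf, xc12b, kfc12b, lc12b⟩
noncomputable def ndF1q3 : Node := ⟨idf, cv1r, kf1q3, l1q3⟩
noncomputable def ndF2q0 : Node := ⟨idf, cv2m, kf2q0, l2q0⟩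
noncomputable def ndF2q1 : Node := ⟨idf, cv2m, kf2q1, l2q1⟩
noncomputable def ndF2q2a : Node := ⟨yag, xc22a, kfc22a, lc22a⟩
noncomputable def ndF2q2b : Node := ⟨idf, xc22b, kfc22b, lc22b⟩
noncomputable def ndF2q3 : Node := ⟨idf, cv2r, kf2q3, l2q3⟩
noncomputable def ndF3q0 : Node := ⟨idf, cv3m, kf3q0, l3q0⟩
noncomputable def ndF3q1 : Node := ⟨idf, cv3m, kf3q1, l3q1⟩
noncomputable def ndF3q2 : Node := ⟨idf, cv3p, kf3q2, l3q2⟩
noncomputable def ndF3q3 : Node := ⟨ycg, xc33, kfc33, lc33⟩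
noncomputable def ndF4q0 : Node := ⟨idf, cv4m, kf4q0, l4q0⟩
noncomputable def ndF4q1 : Node := ⟨idf, cv4m, kf4q1, l4q1⟩
noncomputable def ndF4q2 : Node := ⟨idf, cv4p, kf4q2, l4q2⟩
noncomputable def ndF4q3 : Node := ⟨ycg, xc43, kfc43, lc43⟩
noncomputable def ndF5q0 : Node := ⟨idf, c3g, kf5q0, l5q0⟩
noncomputable def ndF5q1 : Node := ⟨idf, c3g, kf5q1, l5q1⟩
noncomputable def ndF5q2 : Node := ⟨idf, c3g, kf5q2, l5q2⟩
noncomputable def ndF5q3 : Node := ⟨ycg, idf, kfc53, lc53⟩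
noncomputable def pcF0 : Piece := ⟨rsfq0, rlq0⟩
noncomputable def pcF1 : Piece := ⟨rsfq1, rlq1⟩
noncomputable def pcF2 : Piece := ⟨rsfq2, rlq2⟩
noncomputable def pcF3 : Piece := ⟨rsfq3, rlq3⟩
noncomputable def ndN0q0 : Node := ⟨idf, c1g, kn0q0, l0q0⟩
noncomputable def ndN0q1 : Node := ⟨idf, c1g, kn0q1, l0q1⟩
noncomputable def ndN0q2 : Node := ⟨yag, idf, knc02, lc02⟩
noncomputable def ndN1q0 : Node := ⟨idf, cv1m, kn1q0, l1q0⟩
noncomputable def ndN1q1 : Node := ⟨idf, cv1m, kn1q1, l1q1⟩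
noncomputable def ndN1q2a : Node := ⟨yag, xc12a, knc12a, lc12a⟩
noncomputable def ndN1q2b : Node := ⟨idf, xc12b, knc12b, lc12b⟩
noncomputable def ndN1q3 : Node := ⟨idf, cv1r, kn1q3, l1q3⟩
noncomputable def ndN2q0 : Node := ⟨idf, cv2m, kn2q0, l2q0⟩
noncomputable def ndN2q1 : Node := ⟨idf, cv2m, kn2q1, l2q1⟩
noncomputable def ndN2q2a : Node := ⟨yag, xc22a, knc22a, lc22a⟩
noncomputable def ndN2q2b : Node := ⟨idf, xc22b, knc22b, lc22b⟩
noncomputable def ndN2q3 : Node := ⟨idf, cv2r, kn2q3, l2q3⟩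
noncomputable def ndN3q0 : Node := ⟨idf, cv3m, kn3q0, l3q0⟩
noncomputable def ndN3q1 : Node := ⟨idf, cv3m, kn3q1, l3q1⟩
noncomputable def ndN3q2 : Node := ⟨idf, cv3p, kn3q2, l3q2⟩
noncomputable def ndN3q3 : Node := ⟨ycg, xc33, knc33, lc33⟩
noncomputable def ndN4q0 : Node := ⟨idf, cv4m, kn4q0, l4q0⟩
noncomputable def ndN4q1 : Node := ⟨idf, cv4m, kn4q1, l4q1⟩
noncomputable def ndN4q2 : Node := ⟨idf, cv4p, kn4q2, l4q2⟩
noncomputable def ndN4q3 : Node := ⟨ycg, xc43, knc43, lc43⟩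
noncomputable def ndN5q0 : Node := ⟨idf, c3g, kn5q0, l5q0⟩
noncomputable def ndN5q1 : Node := ⟨idf, c3g, kn5q1, l5q1⟩
noncomputable def ndN5q2 : Node := ⟨idf, c3g, kn5q2, l5q2⟩
noncomputable def ndN5q3 : Node := ⟨ycg, idf, knc53, lc53⟩
noncomputable def pcN0 : Piece := ⟨rsnq0, rlq0⟩
noncomputable def pcN1 : Piece := ⟨rsnq1, rlq1⟩
noncomputable def pcN2 : Piece := ⟨rsnq2, rlq2⟩
noncomputable def pcN3 : Piece := ⟨rsnq3, rlq3⟩
noncomputable def ndF1q2 : Node := ⟨idf, cv1p, kf1q2, l1q2⟩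
noncomputable def ndF2q2 : Node := ⟨idf, cv2p, kf2q2, l2q2⟩
noncomputable def ndN1q2 : Node := ⟨idf, cv1p, kn1q2, l1q2⟩
noncomputable def ndN2q2 : Node := ⟨idf, cv2p, kn2q2, l2q2⟩
end Pool.Agent.Strip051.G.I3_16_5_16.Tab
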