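import Pool.Agent.Strip051.PB.FactC
import Pool.Agent.Strip051.G.I3_16_5_16.Tab

/-! # Facts about a table (generated) -/

set_option linter.all false

namespace Pool.Agent.Strip051.G.I3_16_5_16.Tab

open Pool.Agent.Strip051.PB Pool.Agent.StripNear Pool.Agent.Strip051.LC

noncomputable def kf3q3 : Fn2 := ⟨_, _, fun h1 h2 => (enc_norm (enc_mul (cv3r.enc h1) (bf3q3.enc h1 h2)))⟩
noncomputable def l3q3 : Fn2 := ⟨_, _, fun h1 h2 => (enc_norm (enc_mul (cv3r.enc h1) (bx3q3.enc h1 h2)))⟩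
noncomputable def kp3q3 : Fn2 := ⟨_, _, fun h1 h2 => (enc_norm (enc_mul (cv3r.enc h1) (bd3q3.enc h1 h2)))⟩
noncomputable def kn3q3 : Fn2 := ⟨_, _, fun h1 h2 => (enc_norm (enc_add (enc_mul (enc_norm (enc_add (enc_pnc _ 1) (enc_mul (mug3.enc h2) (gug.enc h2)))) (kf3q3.enc h1 h2)) (enc_mul (mug3.enc h2) (kp3q3.enc h1 h2))))⟩
theorem c1g_v : c1g.v = c1n := by funext y; simp [c1g, c1n]
theorem c3g_v : c3g.v = c3n := by funext y; simp [c3g, c3n]
theorem swg_v : swg.v = swn := by funext y; simp [swg, swn]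
theorem yag_v {y : ℝ} (h0y : 0 ≤ y) (h : h0 * y < 1) : yag.v (c1n y) = y := by
  have := ya_eq h0y h
  simpa [yag] using this
theorem ycg_v {y : ℝ} (h0y : 0 ≤ y) (h : y ≤ 2) : ycg.v (c3n y) = y := by
  have := yc_eq h0y h
  simpa [ycg] using this
theorem ya1 : yag.v (1/2) = 1 := by
  have := yag_v (y := 1) (by norm_num) (by rw [mul_one]; exact h0_lt_one)
  rwa [c1n_one] at this
theorem yc0 : ycg.v 0 = 2 := by
  have := ycg_v (y := 2) (by norm_num) le_rfl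
  rwa [c3n_two] at this
noncomputable def rh : Fin 6 → ℝ := ![0, 1 / 2, 9 / 10, 6 / 5, 8 / 5, 2]
noncomputable def PP : Pos 5 where
  ρ := rh
  zero := by simp [rh]
  last := by simp [rh, Fin.last]
  mono := by
    intro i j h
    fin_cases i <;> fin_cases j <;> simp_all [rh] <;> norm_num
theorem cv1m_v (y : ℝ) : cv1m.v y = c1n y * (1 - 1 / 2) + (swn y + 1 / 2) * (1 / 2) := by
  simp only [cv1m, c1g_v, c3g_v, swg_v]
  push_cast
  ring
theorem cv2m_v (y : ℝ) : cv2m.v y = c1n y * (1 - 9 / 10) + (swn y + 1 / 2) * (9 / 10) := by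
  simp only [cv2m, c1g_v, c3g_v, swg_v]
  push_cast
  ring
theorem cv3m_v (y : ℝ) : cv3m.v y = (swn y + 1 / 2) * (2 - 6 / 5) + c3n y * (6 / 5 - 1) := by
  simp only [cv3m, c1g_v, c3g_v, swg_v]
  push_cast
  ring
theorem cv4m_v (y : ℝ) : cv4m.v y = (swn y + 1 / 2) * (2 - 8 / 5) + c3n y * (8 / 5 - 1) := by
  simp only [cv4m, c1g_v, c3g_v, swg_v]
  push_cast
  ring
theorem cv1p_v (y : ℝ) : cv1p.v y = c1n y * (1 - 1 / 2) + (swn y - 1 / 2) * (1 / 2) := by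
  simp only [cv1p, c1g_v, c3g_v, swg_v]
  push_cast
  ring
theorem cv2p_v (y : ℝ) : cv2p.v y = c1n y * (1 - 9 / 10) + (swn y - 1 / 2) * (9 / 10) := by
  simp only [cv2p, c1g_v, c3g_v, swg_v]
  push_cast
  ring
theorem cv3p_v (y : ℝ) : cv3p.v y = (swn y - 1 / 2) * (2 - 6 / 5) + c3n y * (6 / 5 - 1) := by
  simp only [cv3p, c1g_v, c3g_v, swg_v]
  push_cast
  ring
theorem cv4p_v (y : ℝ) : cv4p.v y = (swn y - 1 / 2) * (2 - 8 / 5) + c3n y * (8 / 5 - 1) := by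
  simp only [cv4p, c1g_v, c3g_v, swg_v]
  push_cast
  ring
theorem cv1r_v (y : ℝ) : cv1r.v y = (swn y - 1 / 2) * (1 / 2) := by
  simp only [cv1r, c1g_v, c3g_v, swg_v]
  push_cast
  ring
theorem cv2r_v (y : ℝ) : cv2r.v y = (swn y - 1 / 2) * (9 / 10) := by
  simp only [cv2r, c1g_v, c3g_v, swg_v]
  push_cast
  ring
theorem cv3r_v (y : ℝ) : cv3r.v y = (swn y - 1 / 2) * (2 - 6 / 5) + c3n y * (6 / 5 - 1) := by
  simp only [cv3r, c1g_v, c3g_v, swg_v]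
  push_cast
  ring
theorem cv4r_v (y : ℝ) : cv4r.v y = (swn y - 1 / 2) * (2 - 8 / 5) + c3n y * (8 / 5 - 1) := by
  simp only [cv4r, c1g_v, c3g_v, swg_v]
  push_cast
  ring
theorem crv0 (q : ℕ) (y : ℝ) : crv PP 0 q y = c1n y := by simp [crv, gamn, PP, rh]
theorem crv1 (q : ℕ) (y : ℝ) : crv PP 1 q y = c1n y * (1 - 1 / 2) + Wn (decide (2 ≤ q)) y * (1 / 2) := by
  have : PP.ρ 1 = 1 / 2 := rfl
  simp only [crv, gamn, this]
  rw [if_pos (by norm_num)]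
  ring
theorem crv2 (q : ℕ) (y : ℝ) : crv PP 2 q y = c1n y * (1 - 9 / 10) + Wn (decide (2 ≤ q)) y * (9 / 10) := by
  have : PP.ρ 2 = 9 / 10 := rfl
  simp only [crv, gamn, this]
  rw [if_pos (by norm_num)]
  ring
theorem crv3 (q : ℕ) (y : ℝ) : crv PP 3 q y = Wn (decide (2 ≤ q)) y * (2 - 6 / 5) + c3n y * (6 / 5 - 1) := by
  have : PP.ρ 3 = 6 / 5 := rfl
  simp only [crv, gamn, this]
  rw [if_neg (by norm_num)]
  ring
theorem crv4 (q : ℕ) (y : ℝ) : crv PP 4 q y = Wn (decide (2 ≤ q)) y * (2 - 8 / 5) + c3n y * (8 / 5 - 1) := by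
  have : PP.ρ 4 = 8 / 5 := rfl
  simp only [crv, gamn, this]
  rw [if_neg (by norm_num)]
  ring
theorem crv5 (q : ℕ) (y : ℝ) : crv PP 5 q y = c3n y := by
  have : PP.ρ 5 = 2 := rfl
  simp only [crv, gamn, this]
  rw [if_neg (by norm_num)]
  ring
noncomputable def crd (j : Fin 6) (q : ℕ) (y : ℝ) : ℝ :=
  match j, q with
  | 0, 2 => c1n y
  | 3, 3 => c3n y
  | 4, 3 => c3n y
  | 5, 3 => c3n y
  | _, _ => y
theorem onc {j : Fin 6} {q : ℕ} {y : ℝ} (hq : InQ q y) (hj : j ≠ 0) : OnC j q y := ⟨hq, fun h => absurd h hj⟩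
theorem c1g_off {y : ℝ} (h : 1 ≤ h0 * y) : c1g.v y = 0 := by rw [c1g_v]; exact c1n_off h
theorem c1g_sq {y : ℝ} (hy : 0 ≤ y) (h : h0 * y < 1) : 0 ≤ c1g.v y ∧ c1g.v y ^ 2 = 1 - 3 / 4 * y ^ 2 := by
  rw [c1g_v]
  exact ⟨Real.sqrt_nonneg _, c1n_sq (on_sq hy h).le⟩
theorem lm0m_v (X y : ℝ) : lm0m.v X y = lam (X - c1g.v y) (cv1m.v y - c1g.v y) := rfl
theorem lm0p_v (X y : ℝ) : lm0p.v X y = lam (X - c1g.v y) (cv1p.v y - c1g.v y) := rfl
theorem lm1m_v (X y : ℝ) : lm1m.v X y = lam (X - cv1m.v y) (cv2m.v y - cv1m.v y) := rfl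
theorem lm1p_v (X y : ℝ) : lm1p.v X y = lam (X - cv1p.v y) (cv2p.v y - cv1p.v y) := rfl
theorem lm1r_v (X y : ℝ) : lm1r.v X y = lam (X - cv1r.v y) (cv2r.v y - cv1r.v y) := rfl
theorem lm2m_v (X y : ℝ) : lm2m.v X y = lam (X - cv2m.v y) (cv3m.v y - cv2m.v y) := rfl
theorem lm2p_v (X y : ℝ) : lm2p.v X y = lam (X - cv2p.v y) (cv3p.v y - cv2p.v y) := rfl
theorem lm2r_v (X y : ℝ) : lm2r.v X y = lam (X - cv2r.v y) (cv3r.v y - cv2r.v y) := rfl
theorem lm3m_v (X y : ℝ) : lm3m.v X y = lam (X - cv3m.v y) (cv4m.v y - cv3m.v y) := rfl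
theorem lm3p_v (X y : ℝ) : lm3p.v X y = lam (X - cv3p.v y) (cv4p.v y - cv3p.v y) := rfl
theorem lm3r_v (X y : ℝ) : lm3r.v X y = lam (X - cv3r.v y) (cv4r.v y - cv3r.v y) := rfl
theorem lm4m_v (X y : ℝ) : lm4m.v X y = lam (X - cv4m.v y) (c3g.v y - cv4m.v y) := rfl
theorem lm4p_v (X y : ℝ) : lm4p.v X y = lam (X - cv4p.v y) (c3g.v y - cv4p.v y) := rfl
theorem lm4r_v (X y : ℝ) : lm4r.v X y = lam (X - cv4r.v y) (c3g.v y - cv4r.v y) := rfl
theorem ecv1q0 {y : ℝ} : crv PP 1 0 y = cv1m.v y := by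
  rw [crv1, cv1m_v, wn0]
theorem ecv2q0 {y : ℝ} : crv PP 2 0 y = cv2m.v y := by
  rw [crv2, cv2m_v, wn0]
theorem ecv3q0 {y : ℝ} : crv PP 3 0 y = cv3m.v y := by
  rw [crv3, cv3m_v, wn0]
theorem ecv4q0 {y : ℝ} : crv PP 4 0 y = cv4m.v y := by
  rw [crv4, cv4m_v, wn0]
theorem ecv1q1 {y : ℝ} : crv PP 1 1 y = cv1m.v y := by
  rw [crv1, cv1m_v, wn1]
theorem ecv2q1 {y : ℝ} : crv PP 2 1 y = cv2m.v y := by
  rw [crv2, cv2m_v, wn1]
theorem ecv3q1 {y : ℝ} : crv PP 3 1 y = cv3m.v y := by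
  rw [crv3, cv3m_v, wn1]
theorem ecv4q1 {y : ℝ} : crv PP 4 1 y = cv4m.v y := by
  rw [crv4, cv4m_v, wn1]
theorem ecv1q2 {y : ℝ} : crv PP 1 2 y = cv1p.v y := by
  rw [crv1, cv1p_v, wn2]
theorem ecv2q2 {y : ℝ} : crv PP 2 2 y = cv2p.v y := by
  rw [crv2, cv2p_v, wn2]
theorem ecv3q2 {y : ℝ} : crv PP 3 2 y = cv3p.v y := by
  rw [crv3, cv3p_v, wn2]
theorem ecv4q2 {y : ℝ} : crv PP 4 2 y = cv4p.v y := by
  rw [crv4, cv4p_v, wn2]
theorem ecv1q3 {y : ℝ} (hy : 3 / 2 ≤ y) : crv PP 1 3 y = cv1r.v y := by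
  rw [crv1, cv1r_v, wn3, c1n_off (off_y hy)]
  ring
theorem ecv2q3 {y : ℝ} (hy : 3 / 2 ≤ y) : crv PP 2 3 y = cv2r.v y := by
  rw [crv2, cv2r_v, wn3, c1n_off (off_y hy)]
  ring
theorem ecv3q3 {y : ℝ} (hy : 3 / 2 ≤ y) : crv PP 3 3 y = cv3r.v y := by
  rw [crv3, cv3r_v, wn3]
theorem ecv4q3 {y : ℝ} (hy : 3 / 2 ≤ y) : crv PP 4 3 y = cv4r.v y := by
  rw [crv4, cv4r_v, wn3]
theorem kcg_near {p x : ℝ} (h1 : -(1 / 16) < p) (h2 : p < 1 / 16) : kcg.v p x = (-16927 / 31250 + (x - 1 / 4) * (-9733 / 3125)) * p := by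
  simp only [kcg, kcg_3, kcg_6, kcg_9, kcg_12, kcg_13, kcg_16, kcg_27, kcg_35, kcg_38, kcg_47, kcg_55, kcg_56, kcg_59, kcg_67, kcg_74, kcg_75, kcg_79, kcg_87, kcg_92, kcg_96, kcg_106, kcg_116, kcg_119, kcg_120, kcg_124, kcg_135, kcg_140, kcg_145, kcg_155, kcg_163, kcg_164, kcg_169, kcg_178, kcg_186, kcg_191, kcg_201, kcg_206, kcg_211, kcg_219, kcg_220, kcg_221, kcg_244, kcg_255, kcg_276, kcg_277, kcg_296]
  rcases le_or_gt p 0 with hp | hp
  · ((try push_cast); (repeat first | rw [if_pos (by linarith)] | rw [if_neg (by linarith)] | erw [if_pos (by linarith)] | erw [if_neg (by linarith)]); (try ring1))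
  · ((try push_cast); (repeat first | rw [if_pos (by linarith)] | rw [if_neg (by linarith)] | erw [if_pos (by linarith)] | erw [if_neg (by linarith)]); (try ring1))
theorem txg_nearL {p c x : ℝ} (h1 : -(1 / 16) < p) (h2 : p ≤ 0) : txg.v p c x = (15769747 / 256000000 + (x - 1 / 4) * (155241 / 1600000)) + (-2027 / 125000 + (x - 1 / 4) * (-61 / 6250)) * p + (-507923 / 1000000 + (x - 1 / 4) * (-32057 / 6250)) * p ^ 2 := by
  simp only [txg, txg_4, txg_6, txg_27, txg_61, txg_78, txg_80, txg_83, txg_86, txg_134, txg_153, txg_196, txg_198, txg_219, txg_259, txg_279]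
  ((try push_cast); (repeat first | rw [if_pos (by linarith)] | rw [if_neg (by linarith)] | erw [if_pos (by linarith)] | erw [if_neg (by linarith)]); (try ring1))
theorem txg_nearR {p c x : ℝ} (h1 : 0 ≤ p) (h2 : p < 1 / 16) : txg.v p c x = (15769747 / 256000000 + (x - 1 / 4) * (155241 / 1600000)) + (-2027 / 125000 + (x - 1 / 4) * (-61 / 6250)) * p + (-507923 / 1000000 + (x - 1 / 4) * (-32057 / 6250)) * p ^ 2 := by
  simp only [txg, txg_4, txg_6, txg_27, txg_61, txg_78, txg_80, txg_83, txg_86, txg_134, txg_153, txg_196, txg_198, txg_219, txg_259, txg_279]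
  ((try push_cast); (repeat first | rw [if_pos (by linarith)] | rw [if_neg (by linarith)] | erw [if_pos (by linarith)] | erw [if_neg (by linarith)]); (try ring1))
noncomputable def ndF (j : Fin 6) (q : ℕ) : Node :=
  match j, q with
  | 0, 0 => ndF0q0
  | 0, 1 => ndF0q1
  | 0, 2 => ndF0q2
  | 1, 0 => ndF1q0
  | 1, 1 => ndF1q1
  | 1, 2 => ndF1q2
  | 1, 3 => ndF1q3
  | 2, 0 => ndF2q0
  | 2, 1 => ndF2q1
  | 2, 2 => ndF2q2
  | 2, 3 => ndF2q3
  | 3, 0 => ndF3q0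
  | 3, 1 => ndF3q1
  | 3, 2 => ndF3q2
  | 3, 3 => ndF3q3
  | 4, 0 => ndF4q0
  | 4, 1 => ndF4q1
  | 4, 2 => ndF4q2
  | 4, 3 => ndF4q3
  | 5, 0 => ndF5q0
  | 5, 1 => ndF5q1
  | 5, 2 => ndF5q2
  | 5, 3 => ndF5q3
  | _, _ => ndF0q0
noncomputable def pcF (q : ℕ) : Piece :=
  match q with
  | 0 => pcF0
  | 1 => pcF1
  | 2 => pcF2
  | _ => pcF3
theorem nFY0 (q : ℕ) (y : ℝ) (h : OnC (0 : Fin 6) q y) : (ndF 0 q).Y.v (crd 0 q y) = y := by
  have h1 := h.1.nonneg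
  have h2 := h.1.le_two
  match q, h with
  | 0, _ => rfl
  | 1, _ => rfl
  | 2, h => exact yag_v h1 (h.2 rfl)
  | 3, h => exact absurd h.1.1 (by linarith [y_lt (h.2 rfl)])
  | _ + 4, h => exact h.1.elim
theorem nFX0 (q : ℕ) (y : ℝ) (h : OnC (0 : Fin 6) q y) : (ndF 0 q).X.v (crd 0 q y) = crv PP 0 q y := by
  have h1 := h.1.nonneg
  have h2 := h.1.le_two
  match q, h with
  | 0, _ =>
    rw [crv0]
    exact congrFun c1g_v y
  | 1, _ =>
    rw [crv0]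
    exact congrFun c1g_v y
  | 2, _ =>
    rw [crv0]
    rfl
  | 3, h => exact absurd h.1.1 (by linarith [y_lt (h.2 rfl)])
  | _ + 4, h => exact h.1.elim
theorem nFY1 (q : ℕ) (y : ℝ) (h : OnC (1 : Fin 6) q y) : (ndF 1 q).Y.v (crd 1 q y) = y := by
  have h1 := h.1.nonneg
  have h2 := h.1.le_two
  match q, h with
  | 0, _ => rfl
  | 1, _ => rfl
  | 2, h => rfl
  | 3, h => rfl
  | _ + 4, h => exact h.1.elim
theorem nFX1 (q : ℕ) (y : ℝ) (h : OnC (1 : Fin 6) q y) : (ndF 1 q).X.v (crd 1 q y) = crv PP 1 q y := by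
  have h1 := h.1.nonneg
  have h2 := h.1.le_two
  match q, h with
  | 0, _ => exact ecv1q0.symm
  | 1, _ => exact ecv1q1.symm
  | 2, _ => exact ecv1q2.symm
  | 3, h => exact (ecv1q3 h.1.1).symm
  | _ + 4, h => exact h.1.elim
theorem nFY2 (q : ℕ) (y : ℝ) (h : OnC (2 : Fin 6) q y) : (ndF 2 q).Y.v (crd 2 q y) = y := by
  have h1 := h.1.nonneg
  have h2 := h.1.le_two
  match q, h with
  | 0, _ => rfl
  | 1, _ => rfl
  | 2, h => rfl
  | 3, h => rfl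
  | _ + 4, h => exact h.1.elim
theorem nFX2 (q : ℕ) (y : ℝ) (h : OnC (2 : Fin 6) q y) : (ndF 2 q).X.v (crd 2 q y) = crv PP 2 q y := by
  have h1 := h.1.nonneg
  have h2 := h.1.le_two
  match q, h with
  | 0, _ => exact ecv2q0.symm
  | 1, _ => exact ecv2q1.symm
  | 2, _ => exact ecv2q2.symm
  | 3, h => exact (ecv2q3 h.1.1).symm
  | _ + 4, h => exact h.1.elim
theorem nFY3 (q : ℕ) (y : ℝ) (h : OnC (3 : Fin 6) q y) : (ndF 3 q).Y.v (crd 3 q y) = y := by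
  have h1 := h.1.nonneg
  have h2 := h.1.le_two
  match q, h with
  | 0, _ => rfl
  | 1, _ => rfl
  | 2, h => rfl
  | 3, h => exact ycg_v h1 h2
  | _ + 4, h => exact h.1.elim
theorem nFX3 (q : ℕ) (y : ℝ) (h : OnC (3 : Fin 6) q y) : (ndF 3 q).X.v (crd 3 q y) = crv PP 3 q y := by
  have h1 := h.1.nonneg
  have h2 := h.1.le_two
  match q, h with
  | 0, _ => exact ecv3q0.symm
  | 1, _ => exact ecv3q1.symm
  | 2, _ => exact ecv3q2.symm
  | 3, h =>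
    rw [crv3]
    show xc33.v (c3n y) = _
    simp only [xc33, c3g_v, swg_v, wn3, ycg_v h1 h2]
    push_cast
    ring
  | _ + 4, h => exact h.1.elim
theorem nFY4 (q : ℕ) (y : ℝ) (h : OnC (4 : Fin 6) q y) : (ndF 4 q).Y.v (crd 4 q y) = y := by
  have h1 := h.1.nonneg
  have h2 := h.1.le_two
  match q, h with
  | 0, _ => rfl
  | 1, _ => rfl
  | 2, h => rfl
  | 3, h => exact ycg_v h1 h2
  | _ + 4, h => exact h.1.elim
theorem nFX4 (q : ℕ) (y : ℝ) (h : OnC (4 : Fin 6) q y) : (ndF 4 q).X.v (crd 4 q y) = crv PP 4 q y := by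
  have h1 := h.1.nonneg
  have h2 := h.1.le_two
  match q, h with
  | 0, _ => exact ecv4q0.symm
  | 1, _ => exact ecv4q1.symm
  | 2, _ => exact ecv4q2.symm
  | 3, h =>
    rw [crv4]
    show xc43.v (c3n y) = _
    simp only [xc43, c3g_v, swg_v, wn3, ycg_v h1 h2]
    push_cast
    ring
  | _ + 4, h => exact h.1.elim
theorem nFY5 (q : ℕ) (y : ℝ) (h : OnC (5 : Fin 6) q y) : (ndF 5 q).Y.v (crd 5 q y) = y := by
  have h1 := h.1.nonneg
  have h2 := h.1.le_two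
  match q, h with
  | 0, _ => rfl
  | 1, _ => rfl
  | 2, h => rfl
  | 3, h => exact ycg_v h1 h2
  | _ + 4, h => exact h.1.elim
theorem nFX5 (q : ℕ) (y : ℝ) (h : OnC (5 : Fin 6) q y) : (ndF 5 q).X.v (crd 5 q y) = crv PP 5 q y := by
  have h1 := h.1.nonneg
  have h2 := h.1.le_two
  match q, h with
  | 0, _ =>
    rw [crv5]
    exact congrFun c3g_v y
  | 1, _ =>
    rw [crv5]
    exact congrFun c3g_v y
  | 2, _ =>
    rw [crv5]
    exact congrFun c3g_v y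
  | 3, _ =>
    rw [crv5]
    rfl
  | _ + 4, h => exact h.1.elim
noncomputable abbrev tKF : Fin 6 → ℕ → ℝ → ℝ → ℝ := tbF (fun j q => (ndF j q).K) crd
noncomputable abbrev tL : Fin 6 → ℕ → ℝ → ℝ → ℝ := tbF (fun j q => (ndF j q).L) crd
noncomputable def ndN (j : Fin 6) (q : ℕ) : Node :=
  match j, q with
  | 0, 0 => ndN0q0
  | 0, 1 => ndN0q1
  | 0, 2 => ndN0q2
  | 1, 0 => ndN1q0
  | 1, 1 => ndN1q1
  | 1, 2 => ndN1q2
  | 1, 3 => ndN1q3
  | 2, 0 => ndN2q0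
  | 2, 1 => ndN2q1
  | 2, 2 => ndN2q2
  | 2, 3 => ndN2q3
  | 3, 0 => ndN3q0
  | 3, 1 => ndN3q1
  | 3, 2 => ndN3q2
  | 3, 3 => ndN3q3
  | 4, 0 => ndN4q0
  | 4, 1 => ndN4q1
  | 4, 2 => ndN4q2
  | 4, 3 => ndN4q3
  | 5, 0 => ndN5q0
  | 5, 1 => ndN5q1
  | 5, 2 => ndN5q2
  | 5, 3 => ndN5q3
  | _, _ => ndN0q0
noncomputable def pcN (q : ℕ) : Piece :=
  match q with
  | 0 => pcN0
  | 1 => pcN1
  | 2 => pcN2
  | _ => pcN3
theorem nNY0 (q : ℕ) (y : ℝ) (h : OnC (0 : Fin 6) q y) : (ndN 0 q).Y.v (crd 0 q y) = y := by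
  have h1 := h.1.nonneg
  have h2 := h.1.le_two
  match q, h with
  | 0, _ => rfl
  | 1, _ => rfl
  | 2, h => exact yag_v h1 (h.2 rfl)
  | 3, h => exact absurd h.1.1 (by linarith [y_lt (h.2 rfl)])
  | _ + 4, h => exact h.1.elim
theorem nNX0 (q : ℕ) (y : ℝ) (h : OnC (0 : Fin 6) q y) : (ndN 0 q).X.v (crd 0 q y) = crv PP 0 q y := by
  have h1 := h.1.nonneg
  have h2 := h.1.le_two
  match q, h with
  | 0, _ =>
    rw [crv0]
    exact congrFun c1g_v y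
  | 1, _ =>
    rw [crv0]
    exact congrFun c1g_v y
  | 2, _ =>
    rw [crv0]
    rfl
  | 3, h => exact absurd h.1.1 (by linarith [y_lt (h.2 rfl)])
  | _ + 4, h => exact h.1.elim
theorem nNY1 (q : ℕ) (y : ℝ) (h : OnC (1 : Fin 6) q y) : (ndN 1 q).Y.v (crd 1 q y) = y := by
  have h1 := h.1.nonneg
  have h2 := h.1.le_two
  match q, h with
  | 0, _ => rfl
  | 1, _ => rfl
  | 2, h => rfl
  | 3, h => rfl
  | _ + 4, h => exact h.1.elim
theorem nNX1 (q : ℕ) (y : ℝ) (h : OnC (1 : Fin 6) q y) : (ndN 1 q).X.v (crd 1 q y) = crv PP 1 q y := by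
  have h1 := h.1.nonneg
  have h2 := h.1.le_two
  match q, h with
  | 0, _ => exact ecv1q0.symm
  | 1, _ => exact ecv1q1.symm
  | 2, _ => exact ecv1q2.symm
  | 3, h => exact (ecv1q3 h.1.1).symm
  | _ + 4, h => exact h.1.elim
theorem nNY2 (q : ℕ) (y : ℝ) (h : OnC (2 : Fin 6) q y) : (ndN 2 q).Y.v (crd 2 q y) = y := by
  have h1 := h.1.nonneg
  have h2 := h.1.le_two
  match q, h with
  | 0, _ => rfl
  | 1, _ => rfl
  | 2, h => rfl
  | 3, h => rfl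
  | _ + 4, h => exact h.1.elim
theorem nNX2 (q : ℕ) (y : ℝ) (h : OnC (2 : Fin 6) q y) : (ndN 2 q).X.v (crd 2 q y) = crv PP 2 q y := by
  have h1 := h.1.nonneg
  have h2 := h.1.le_two
  match q, h with
  | 0, _ => exact ecv2q0.symm
  | 1, _ => exact ecv2q1.symm
  | 2, _ => exact ecv2q2.symm
  | 3, h => exact (ecv2q3 h.1.1).symm
  | _ + 4, h => exact h.1.elim
theorem nNY3 (q : ℕ) (y : ℝ) (h : OnC (3 : Fin 6) q y) : (ndN 3 q).Y.v (crd 3 q y) = y := by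
  have h1 := h.1.nonneg
  have h2 := h.1.le_two
  match q, h with
  | 0, _ => rfl
  | 1, _ => rfl
  | 2, h => rfl
  | 3, h => exact ycg_v h1 h2
  | _ + 4, h => exact h.1.elim
theorem nNX3 (q : ℕ) (y : ℝ) (h : OnC (3 : Fin 6) q y) : (ndN 3 q).X.v (crd 3 q y) = crv PP 3 q y := by
  have h1 := h.1.nonneg
  have h2 := h.1.le_two
  match q, h with
  | 0, _ => exact ecv3q0.symm
  | 1, _ => exact ecv3q1.symm
  | 2, _ => exact ecv3q2.symm
  | 3, h =>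
    rw [crv3]
    show xc33.v (c3n y) = _
    simp only [xc33, c3g_v, swg_v, wn3, ycg_v h1 h2]
    push_cast
    ring
  | _ + 4, h => exact h.1.elim
theorem nNY4 (q : ℕ) (y : ℝ) (h : OnC (4 : Fin 6) q y) : (ndN 4 q).Y.v (crd 4 q y) = y := by
  have h1 := h.1.nonneg
  have h2 := h.1.le_two
  match q, h with
  | 0, _ => rfl
  | 1, _ => rfl
  | 2, h => rfl
  | 3, h => exact ycg_v h1 h2
  | _ + 4, h => exact h.1.elim
theorem nNX4 (q : ℕ) (y : ℝ) (h : OnC (4 : Fin 6) q y) : (ndN 4 q).X.v (crd 4 q y) = crv PP 4 q y := by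
  have h1 := h.1.nonneg
  have h2 := h.1.le_two
  match q, h with
  | 0, _ => exact ecv4q0.symm
  | 1, _ => exact ecv4q1.symm
  | 2, _ => exact ecv4q2.symm
  | 3, h =>
    rw [crv4]
    show xc43.v (c3n y) = _
    simp only [xc43, c3g_v, swg_v, wn3, ycg_v h1 h2]
    push_cast
    ring
  | _ + 4, h => exact h.1.elim
theorem nNY5 (q : ℕ) (y : ℝ) (h : OnC (5 : Fin 6) q y) : (ndN 5 q).Y.v (crd 5 q y) = y := by
  have h1 := h.1.nonneg
  have h2 := h.1.le_two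
  match q, h with
  | 0, _ => rfl
  | 1, _ => rfl
  | 2, h => rfl
  | 3, h => exact ycg_v h1 h2
  | _ + 4, h => exact h.1.elim
theorem nNX5 (q : ℕ) (y : ℝ) (h : OnC (5 : Fin 6) q y) : (ndN 5 q).X.v (crd 5 q y) = crv PP 5 q y := by
  have h1 := h.1.nonneg
  have h2 := h.1.le_two
  match q, h with
  | 0, _ =>
    rw [crv5]
    exact congrFun c3g_v y
  | 1, _ =>
    rw [crv5]
    exact congrFun c3g_v y
  | 2, _ =>
    rw [crv5]
    exact congrFun c3g_v y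
  | 3, _ =>
    rw [crv5]
    rfl
  | _ + 4, h => exact h.1.elim
noncomputable abbrev tKN : Fin 6 → ℕ → ℝ → ℝ → ℝ := tbF (fun j q => (ndN j q).K) crd
theorem corF00 (x : ℝ) : (ndF 0 0).X.v 0 = 1 ∧ (ndF 0 0).K.v 0 x = 1 * (1) ∧
    (ndF 0 0).L.v 0 x = 0 := by
  refine ⟨?_, ?_, ?_⟩
  · show c1g.v 0 = _
    simp only [cv1m, cv2m, cv3m, cv4m, cv1p, cv2p, cv3p, cv4p, cv1r, cv2r, cv3r, cv4r, c1g_v, swg_v, c3g_v, c1n_zero, swn_zero, c3n_zero]
    all_goals norm_num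
  · show kf0q0.v 0 x = _
    simp only [kf0q0, kf0q0_9, kf0q0_12, kcg, kcg_3, kcg_6, kcg_9, kcg_12, kcg_13, kcg_16, kcg_27, kcg_35, kcg_38, kcg_47, kcg_55, kcg_56, kcg_59, kcg_67, kcg_74, kcg_75, kcg_79, kcg_87, kcg_92, kcg_96, kcg_106, kcg_116, kcg_119, kcg_120, kcg_124, kcg_135, kcg_140, kcg_145, kcg_155, kcg_163, kcg_164, kcg_169, kcg_178, kcg_186, kcg_191, kcg_201, kcg_206, kcg_211, kcg_219, kcg_220, kcg_221, kcg_244, kcg_255, kcg_276, kcg_277, kcg_296, cv1m, cv2m, cv3m, cv4m, cv1p, cv2p, cv3p, cv4p, cv1r, cv2r, cv3r, cv4r, c1g_v, swg_v, c3g_v, c1n_zero, swn_zero, c3n_zero, ya1]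
    all_goals ((try norm_num) <;> (try ring))
  · show l0q0.v 0 x = _
    simp only [l0q0, txg, txg_4, txg_6, txg_27, txg_61, txg_78, txg_80, txg_83, txg_86, txg_134, txg_153, txg_196, txg_198, txg_219, txg_259, txg_279, kcg, kcg_3, kcg_6, kcg_9, kcg_12, kcg_13, kcg_16, kcg_27, kcg_35, kcg_38, kcg_47, kcg_55, kcg_56, kcg_59, kcg_67, kcg_74, kcg_75, kcg_79, kcg_87, kcg_92, kcg_96, kcg_106, kcg_116, kcg_119, kcg_120, kcg_124, kcg_135, kcg_140, kcg_145, kcg_155, kcg_163, kcg_164, kcg_169, kcg_178, kcg_186, kcg_191, kcg_201, kcg_206, kcg_211, kcg_219, kcg_220, kcg_221, kcg_244, kcg_255, kcg_276, kcg_277, kcg_296, cv1m, cv2m, cv3m, cv4m, cv1p, cv2p, cv3p, cv4p, cv1r, cv2r, cv3r, cv4r, c1g_v, swg_v, c3g_v, c1n_zero, swn_zero, c3n_zero, ya1]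
    all_goals ((try norm_num) <;> (try ring))
theorem corF01 (x : ℝ) : (ndF 0 1).X.v 1 = 1 / 2 ∧ (ndF 0 1).K.v 1 x = 1 * (1 / 2) ∧
    (ndF 0 1).L.v 1 x = 0 := by
  refine ⟨?_, ?_, ?_⟩
  · show c1g.v 1 = _
    simp only [cv1m, cv2m, cv3m, cv4m, cv1p, cv2p, cv3p, cv4p, cv1r, cv2r, cv3r, cv4r, c1g_v, swg_v, c3g_v, c1n_one, swn_one, c3n_one]
    all_goals norm_num
  · show kf0q1.v 1 x = _
    simp only [kf0q1, kf0q1_10, kcg, kcg_3, kcg_6, kcg_9, kcg_12, kcg_13, kcg_16, kcg_27, kcg_35, kcg_38, kcg_47, kcg_55, kcg_56, kcg_59, kcg_67, kcg_74, kcg_75, kcg_79, kcg_87, kcg_92, kcg_96, kcg_106, kcg_116, kcg_119, kcg_120, kcg_124, kcg_135, kcg_140, kcg_145, kcg_155, kcg_163, kcg_164, kcg_169, kcg_178, kcg_186, kcg_191, kcg_201, kcg_206, kcg_211, kcg_219, kcg_220, kcg_221, kcg_244, kcg_255, kcg_276, kcg_277, kcg_296, cv1m, cv2m, cv3m, cv4m, cv1p, cv2p, cv3p, cv4p, cv1r, cv2r, cv3r, cv4r, c1g_v,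 swg_v, c3g_v, c1n_one, swn_one, c3n_one, ya1]
    all_goals ((try norm_num) <;> (try ring))
  · show l0q1.v 1 x = _
    simp only [l0q1, txg, txg_4, txg_6, txg_27, txg_61, txg_78, txg_80, txg_83, txg_86, txg_134, txg_153, txg_196, txg_198, txg_219, txg_259, txg_279, kcg, kcg_3, kcg_6, kcg_9, kcg_12, kcg_13, kcg_16, kcg_27, kcg_35, kcg_38, kcg_47, kcg_55, kcg_56, kcg_59, kcg_67, kcg_74, kcg_75, kcg_79, kcg_87, kcg_92, kcg_96, kcg_106, kcg_116, kcg_119, kcg_120, kcg_124, kcg_135, kcg_140, kcg_145, kcg_155, kcg_163, kcg_164, kcg_169, kcg_178, kcg_186, kcg_191, kcg_201, kcg_206, kcg_211, kcg_219, kcg_220, kcg_221, kcg_244, kcg_255, kcg_276, kcg_277, kcg_296, cv1m, cv2m, cv3m, cv4m, cv1p, cv2p, cv3p, cv4p, cv1r, cv2r, cv3r, cv4r, c1g_v, swg_v, c3g_v, c1n_one, swn_one, c3n_one, ya1]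
    all_goals ((try norm_num) <;> (try ring))
theorem corF02 (x : ℝ) : (ndF 0 2).X.v (1 / 2) = 1 / 2 ∧ (ndF 0 2).K.v (1 / 2) x = 1 * (1 / 2) ∧
    (ndF 0 2).L.v (1 / 2) x = 0 := by
  refine ⟨?_, ?_, ?_⟩
  · show idf.v (1 / 2) = _
    simp only [idf, cv1m, cv2m, cv3m, cv4m, cv1p, cv2p, cv3p, cv4p, cv1r, cv2r, cv3r, cv4r, c1g_v, swg_v, c3g_v, c1n_one, swn_one, c3n_one]
    all_goals norm_num
  · show kfc02.v (1 / 2) x = _
    simp only [kfc02, kcg, kcg_3, kcg_6, kcg_9, kcg_12, kcg_13, kcg_16, kcg_27, kcg_35, kcg_38, kcg_47, kcg_55, kcg_56, kcg_59, kcg_67, kcg_74, kcg_75, kcg_79, kcg_87, kcg_92, kcg_96, kcg_106, kcg_116, kcg_119, kcg_120, kcg_124, kcg_135, kcg_140, kcg_145, kcg_155, kcg_163, kcg_164, kcg_169, kcg_178, kcg_186, kcg_191, kcg_201, kcg_206, kcg_211, kcg_219, kcg_220, kcg_221, kcg_244, kcg_255, kcg_276, kcg_277, kcg_296, cv1m, cv2m, cv3m, cv4m, cv1p, cv2p, cv3p, cv4p, cv1r,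 cv2r, cv3r, cv4r, c1g_v, swg_v, c3g_v, c1n_one, swn_one, c3n_one, ya1]
    all_goals ((try norm_num) <;> (try ring))
  · show lc02.v (1 / 2) x = _
    simp only [lc02, lc02_7, lc02_8, txg, txg_4, txg_6, txg_27, txg_61, txg_78, txg_80, txg_83, txg_86, txg_134, txg_153, txg_196, txg_198, txg_219, txg_259, txg_279, kcg, kcg_3, kcg_6, kcg_9, kcg_12, kcg_13, kcg_16, kcg_27, kcg_35, kcg_38, kcg_47, kcg_55, kcg_56, kcg_59, kcg_67, kcg_74, kcg_75, kcg_79, kcg_87, kcg_92, kcg_96, kcg_106, kcg_116, kcg_119, kcg_120, kcg_124, kcg_135, kcg_140, kcg_145, kcg_155, kcg_163, kcg_164, kcg_169, kcg_178, kcg_186, kcg_191, kcg_201, kcg_206, kcg_211, kcg_219, kcg_220, kcg_221, kcg_244, kcg_255, kcg_276, kcg_277, kcg_296, cv1m, cv2m, cv3m, cv4m, cv1p, cv2p, cv3p, cv4p, cv1r, cv2r, cv3r, cv4r, c1g_v, swg_v, c3g_v, c1n_one, swn_one, c3n_one, ya1]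
    all_goals ((try norm_num) <;> (try ring))
theorem corF10 (x : ℝ) : (ndF 1 0).X.v 0 = 1 ∧ (ndF 1 0).K.v 0 x = 1 * (1) ∧
    (ndF 1 0).L.v 0 x = 0 := by
  refine ⟨?_, ?_, ?_⟩
  · show cv1m.v 0 = _
    simp only [cv1m, cv1m, cv2m, cv3m, cv4m, cv1p, cv2p, cv3p, cv4p, cv1r, cv2r, cv3r, cv4r, c1g_v, swg_v, c3g_v, c1n_zero, swn_zero, c3n_zero]
    all_goals norm_num
  · show kf1q0.v 0 x = _
    simp only [kf1q0, bf1q0, cv1m, cv2m, cv3m, cv4m, cv1p, cv2p, cv3p, cv4p, cv1r, cv2r, cv3r, cv4r, c1g_v, swg_v, c3g_v, c1n_zero, swn_zero, c3n_zero, ya1]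
    all_goals ((try norm_num) <;> (try ring))
  · show l1q0.v 0 x = _
    simp only [l1q0, bx1q0, cv1m, cv2m, cv3m, cv4m, cv1p, cv2p, cv3p, cv4p, cv1r, cv2r, cv3r, cv4r, c1g_v, swg_v, c3g_v, c1n_zero, swn_zero, c3n_zero, ya1]
    all_goals ((try norm_num) <;> (try ring))
theorem corF12 (x : ℝ) : (ndF 1 2).X.v 1 = 1 / 2 ∧ (ndF 1 2).K.v 1 x = 1 * (1 / 2) ∧
    (ndF 1 2).L.v 1 x = 0 := by
  refine ⟨?_, ?_, ?_⟩
  · show cv1p.v 1 = _
    simp only [cv1p, cv1m, cv2m, cv3m, cv4m, cv1p, cv2p, cv3p, cv4p, cv1r, cv2r, cv3r, cv4r, c1g_v, swg_v, c3g_v, c1n_one, swn_one, c3n_one]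
    all_goals norm_num
  · show kf1q2.v 1 x = _
    simp only [kf1q2, bf1q2, bf1q2_3, cv1m, cv2m, cv3m, cv4m, cv1p, cv2p, cv3p, cv4p, cv1r, cv2r, cv3r, cv4r, c1g_v, swg_v, c3g_v, c1n_one, swn_one, c3n_one, ya1]
    all_goals ((try norm_num) <;> (try ring))
  · show l1q2.v 1 x = _
    simp only [l1q2, bx1q2, bx1q2_3, cv1m, cv2m, cv3m, cv4m, cv1p, cv2p, cv3p, cv4p, cv1r, cv2r, cv3r, cv4r, c1g_v, swg_v, c3g_v, c1n_one, swn_one, c3n_one, ya1]
    all_goals ((try norm_num) <;> (try ring))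
theorem corF20 (x : ℝ) : (ndF 2 0).X.v 0 = 1 ∧ (ndF 2 0).K.v 0 x = 1 * (1) ∧
    (ndF 2 0).L.v 0 x = 0 := by
  refine ⟨?_, ?_, ?_⟩
  · show cv2m.v 0 = _
    simp only [cv2m, cv1m, cv2m, cv3m, cv4m, cv1p, cv2p, cv3p, cv4p, cv1r, cv2r, cv3r, cv4r, c1g_v, swg_v, c3g_v, c1n_zero, swn_zero, c3n_zero]
    all_goals norm_num
  · show kf2q0.v 0 x = _
    simp only [kf2q0, bf2q0, cv1m, cv2m, cv3m, cv4m, cv1p, cv2p, cv3p, cv4p, cv1r, cv2r, cv3r, cv4r, c1g_v, swg_v, c3g_v, c1n_zero, swn_zero, c3n_zero, ya1]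
    all_goals ((try norm_num) <;> (try ring))
  · show l2q0.v 0 x = _
    simp only [l2q0, bx2q0, cv1m, cv2m, cv3m, cv4m, cv1p, cv2p, cv3p, cv4p, cv1r, cv2r, cv3r, cv4r, c1g_v, swg_v, c3g_v, c1n_zero, swn_zero, c3n_zero, ya1]
    all_goals ((try norm_num) <;> (try ring))
theorem corF22 (x : ℝ) : (ndF 2 2).X.v 1 = 1 / 2 ∧ (ndF 2 2).K.v 1 x = 1 * (1 / 2) ∧
    (ndF 2 2).L.v 1 x = 0 := by
  refine ⟨?_, ?_, ?_⟩
  · show cv2p.v 1 = _
    simp only [cv2p, cv1m, cv2m, cv3m, cv4m, cv1p, cv2p, cv3p, cv4p, cv1r, cv2r, cv3r, cv4r, c1g_v, swg_v, c3g_v, c1n_one, swn_one, c3n_one]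
    all_goals norm_num
  · show kf2q2.v 1 x = _
    simp only [kf2q2, bf2q2, bf2q2_3, cv1m, cv2m, cv3m, cv4m, cv1p, cv2p, cv3p, cv4p, cv1r, cv2r, cv3r, cv4r, c1g_v, swg_v, c3g_v, c1n_one, swn_one, c3n_one, ya1]
    all_goals ((try norm_num) <;> (try ring))
  · show l2q2.v 1 x = _
    simp only [l2q2, bx2q2, bx2q2_3, cv1m, cv2m, cv3m, cv4m, cv1p, cv2p, cv3p, cv4p, cv1r, cv2r, cv3r, cv4r, c1g_v, swg_v, c3g_v, c1n_one, swn_one, c3n_one, ya1]
    all_goals ((try norm_num) <;> (try ring))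
theorem corF31 (x : ℝ) : (ndF 3 1).X.v 1 = 3 / 2 ∧ (ndF 3 1).K.v 1 x = 1 * (3 / 2) ∧
    (ndF 3 1).L.v 1 x = 0 := by
  refine ⟨?_, ?_, ?_⟩
  · show cv3m.v 1 = _
    simp only [cv3m, cv1m, cv2m, cv3m, cv4m, cv1p, cv2p, cv3p, cv4p, cv1r, cv2r, cv3r, cv4r, c1g_v, swg_v, c3g_v, c1n_one, swn_one, c3n_one]
    all_goals norm_num
  · show kf3q1.v 1 x = _
    simp only [kf3q1, kf3q1_4, kf3q1_39, kf3q1_40, kf3q1_46, kf3q1_48, kf3q1_67, kcg, kcg_3, kcg_6, kcg_9, kcg_12, kcg_13, kcg_16, kcg_27, kcg_35, kcg_38, kcg_47, kcg_55, kcg_56, kcg_59, kcg_67, kcg_74, kcg_75, kcg_79, kcg_87, kcg_92, kcg_96, kcg_106, kcg_116, kcg_119, kcg_120, kcg_124, kcg_135, kcg_140, kcg_145, kcg_155, kcg_163, kcg_164, kcg_169, kcg_178, kcg_186, kcg_191, kcg_201, kcg_206, kcg_211, kcg_219, kcg_220, kcg_221, kcg_244, kcg_255, kcg_276, kcg_277, kcg_296, bf2q1, bf2q1_3, cv1m, cv2m, cv3m, cv4m, cv1p, cv2p, cv3p, cv4p,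 cv1r, cv2r, cv3r, cv4r, c1g_v, swg_v, c3g_v, c1n_one, swn_one, c3n_one, ya1]
    all_goals ((try norm_num) <;> (try ring))
  · show l3q1.v 1 x = _
    simp only [l3q1, l3q1_4, l3q1_18, l3q1_54, l3q1_69, kcg, kcg_3, kcg_6, kcg_9, kcg_12, kcg_13, kcg_16, kcg_27, kcg_35, kcg_38, kcg_47, kcg_55, kcg_56, kcg_59, kcg_67, kcg_74, kcg_75, kcg_79, kcg_87, kcg_92, kcg_96, kcg_106, kcg_116, kcg_119, kcg_120, kcg_124, kcg_135, kcg_140, kcg_145, kcg_155, kcg_163, kcg_164, kcg_169, kcg_178, kcg_186, kcg_191, kcg_201, kcg_206, kcg_211, kcg_219, kcg_220, kcg_221, kcg_244, kcg_255, kcg_276, kcg_277, kcg_296, bx2q1, bx2q1_3, cv1m, cv2m, cv3m, cv4m, cv1p, cv2p, cv3p, cv4p, cv1r, cv2r, cv3r, cv4r, c1g_v, swg_v, c3g_v, c1n_one, swn_one, c3n_one, ya1]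
    all_goals ((try norm_num) <;> (try ring))
theorem corF41 (x : ℝ) : (ndF 4 1).X.v 1 = 3 / 2 ∧ (ndF 4 1).K.v 1 x = 1 * (3 / 2) ∧
    (ndF 4 1).L.v 1 x = 0 := by
  refine ⟨?_, ?_, ?_⟩
  · show cv4m.v 1 = _
    simp only [cv4m, cv1m, cv2m, cv3m, cv4m, cv1p, cv2p, cv3p, cv4p, cv1r, cv2r, cv3r, cv4r, c1g_v, swg_v, c3g_v, c1n_one, swn_one, c3n_one]
    all_goals norm_num
  · show kf4q1.v 1 x = _
    simp only [kf4q1, bf4q1, bf4q1_3, cv1m, cv2m, cv3m, cv4m, cv1p, cv2p, cv3p, cv4p, cv1r, cv2r, cv3r, cv4r, c1g_v, swg_v, c3g_v, c1n_one, swn_one, c3n_one, ya1]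
    all_goals ((try norm_num) <;> (try ring))
  · show l4q1.v 1 x = _
    simp only [l4q1, bx4q1, bx4q1_3, cv1m, cv2m, cv3m, cv4m, cv1p, cv2p, cv3p, cv4p, cv1r, cv2r, cv3r, cv4r, c1g_v, swg_v, c3g_v, c1n_one, swn_one, c3n_one, ya1]
    all_goals ((try norm_num) <;> (try ring))
theorem corF51 (x : ℝ) : (ndF 5 1).X.v 1 = 3 / 2 ∧ (ndF 5 1).K.v 1 x = 1 * (3 / 2) ∧
    (ndF 5 1).L.v 1 x = 0 := by
  refine ⟨?_, ?_, ?_⟩
  · show c3g.v 1 = _
    simp only [cv1m, cv2m, cv3m, cv4m, cv1p, cv2p, cv3p, cv4p, cv1r, cv2r, cv3r, cv4r, c1g_v, swg_v, c3g_v, c1n_one, swn_one, c3n_one]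
    all_goals norm_num
  · show kf5q1.v 1 x = _
    simp only [kf5q1, kcg, kcg_3, kcg_6, kcg_9, kcg_12, kcg_13, kcg_16, kcg_27, kcg_35, kcg_38, kcg_47, kcg_55, kcg_56, kcg_59, kcg_67, kcg_74, kcg_75, kcg_79, kcg_87, kcg_92, kcg_96, kcg_106, kcg_116, kcg_119, kcg_120, kcg_124, kcg_135, kcg_140, kcg_145, kcg_155, kcg_163, kcg_164, kcg_169, kcg_178, kcg_186, kcg_191, kcg_201, kcg_206, kcg_211, kcg_219, kcg_220, kcg_221, kcg_244, kcg_255, kcg_276, kcg_277, kcg_296, cv1m, cv2m, cv3m, cv4m, cv1p, cv2p, cv3p, cv4p, cv1r, cv2r, cv3r, cv4r, c1g_v, swg_v, c3g_v, c1n_one, swn_one, c3n_one, ya1]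
    all_goals ((try norm_num) <;> (try ring))
  · show l5q1.v 1 x = _
    simp only [l5q1, l5q1_7, l5q1_8, l5q1_9, txg, txg_4, txg_6, txg_27, txg_61, txg_78, txg_80, txg_83, txg_86, txg_134, txg_153, txg_196, txg_198, txg_219, txg_259, txg_279, kcg, kcg_3, kcg_6, kcg_9, kcg_12, kcg_13, kcg_16, kcg_27, kcg_35, kcg_38, kcg_47, kcg_55, kcg_56, kcg_59, kcg_67, kcg_74, kcg_75, kcg_79, kcg_87, kcg_92, kcg_96, kcg_106, kcg_116, kcg_119, kcg_120, kcg_124, kcg_135, kcg_140, kcg_145, kcg_155, kcg_163, kcg_164, kcg_169, kcg_178, kcg_186, kcg_191, kcg_201, kcg_206, kcg_211, kcg_219, kcg_220, kcg_221, kcg_244, kcg_255, kcg_276, kcg_277, kcg_296, cv1m, cv2m, cv3m, cv4m, cv1p, cv2p, cv3p, cv4p, cv1r, cv2r, cv3r, cv4r, c1g_v, swg_v, c3g_v, c1n_one, swn_one, c3n_one, ya1]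
    all_goals ((try norm_num) <;> (try ring))
theorem corF52 (x : ℝ) : (ndF 5 2).X.v 1 = 3 / 2 ∧ (ndF 5 2).K.v 1 x = 1 * (3 / 2) ∧
    (ndF 5 2).L.v 1 x = 0 := by
  refine ⟨?_, ?_, ?_⟩
  · show c3g.v 1 = _
    simp only [cv1m, cv2m, cv3m, cv4m, cv1p, cv2p, cv3p, cv4p, cv1r, cv2r, cv3r, cv4r, c1g_v, swg_v, c3g_v, c1n_one, swn_one, c3n_one]
    all_goals norm_num
  · show kf5q2.v 1 x = _
    simp only [kf5q2, kcg, kcg_3, kcg_6, kcg_9, kcg_12, kcg_13, kcg_16, kcg_27, kcg_35, kcg_38, kcg_47, kcg_55, kcg_56, kcg_59, kcg_67, kcg_74, kcg_75, kcg_79, kcg_87, kcg_92, kcg_96, kcg_106, kcg_116, kcg_119, kcg_120, kcg_124, kcg_135, kcg_140, kcg_145, kcg_155, kcg_163, kcg_164, kcg_169, kcg_178, kcg_186, kcg_191, kcg_201, kcg_206, kcg_211, kcg_219, kcg_220, kcg_221, kcg_244, kcg_255, kcg_276, kcg_277, kcg_296, cv1m, cv2m, cv3m, cv4m, cv1p, cv2p, cv3p, cv4p, cv1r, cv2r, cv3r, cv4r, c1g_v, swg_v,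 c3g_v, c1n_one, swn_one, c3n_one, ya1]
    all_goals ((try norm_num) <;> (try ring))
  · show l5q2.v 1 x = _
    simp only [l5q2, l5q2_7, l5q2_8, l5q2_9, l5q2_12, l5q2_14, txg, txg_4, txg_6, txg_27, txg_61, txg_78, txg_80, txg_83, txg_86, txg_134, txg_153, txg_196, txg_198, txg_219, txg_259, txg_279, kcg, kcg_3, kcg_6, kcg_9, kcg_12, kcg_13, kcg_16, kcg_27, kcg_35, kcg_38, kcg_47, kcg_55, kcg_56, kcg_59, kcg_67, kcg_74, kcg_75, kcg_79, kcg_87, kcg_92, kcg_96, kcg_106, kcg_116, kcg_119, kcg_120, kcg_124, kcg_135, kcg_140, kcg_145, kcg_155, kcg_163, kcg_164, kcg_169, kcg_178, kcg_186, kcg_191, kcg_201, kcg_206, kcg_211, kcg_219, kcg_220, kcg_221, kcg_244, kcg_255, kcg_276, kcg_277, kcg_296, cv1m, cv2m, cv3m, cv4m, cv1p, cv2p, cv3p, cv4p, cv1r, cv2r, cv3r, cv4r, c1g_v, swg_v, c3g_v, c1n_one, swn_one, c3n_one, ya1]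
    all_goals ((try norm_num) <;> (try ring))
theorem corN00 (x : ℝ) : (ndN 0 0).X.v 0 = 1 ∧ (ndN 0 0).K.v 0 x = (1 + mug3.v x * gug.v x) * (1) ∧
    (ndN 0 0).L.v 0 x = 0 := by
  refine ⟨?_, ?_, ?_⟩
  · show c1g.v 0 = _
    simp only [cv1m, cv2m, cv3m, cv4m, cv1p, cv2p, cv3p, cv4p, cv1r, cv2r, cv3r, cv4r, c1g_v, swg_v, c3g_v, c1n_zero, swn_zero, c3n_zero]
    all_goals norm_num
  · show kn0q0.v 0 x = _
    simp only [kn0q0, kf0q0, kf0q0_9, kf0q0_12, kcg, kcg_3, kcg_6, kcg_9, kcg_12, kcg_13, kcg_16, kcg_27, kcg_35, kcg_38, kcg_47, kcg_55, kcg_56, kcg_59, kcg_67, kcg_74, kcg_75, kcg_79, kcg_87, kcg_92, kcg_96, kcg_106, kcg_116, kcg_119, kcg_120, kcg_124, kcg_135, kcg_140, kcg_145, kcg_155, kcg_163, kcg_164, kcg_169, kcg_178, kcg_186, kcg_191, kcg_201, kcg_206, kcg_211, kcg_219, kcg_220, kcg_221, kcg_244, kcg_255, kcg_276, kcg_277, kcg_296, kp0q0, kp0q0_3, kp0q0_8, cv1m, cv2m, cv3m,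 cv4m, cv1p, cv2p, cv3p, cv4p, cv1r, cv2r, cv3r, cv4r, c1g_v, swg_v, c3g_v, c1n_zero, swn_zero, c3n_zero, ya1]
    all_goals ((try norm_num) <;> (try ring))
  · show l0q0.v 0 x = _
    simp only [l0q0, txg, txg_4, txg_6, txg_27, txg_61, txg_78, txg_80, txg_83, txg_86, txg_134, txg_153, txg_196, txg_198, txg_219, txg_259, txg_279, kcg, kcg_3, kcg_6, kcg_9, kcg_12, kcg_13, kcg_16, kcg_27, kcg_35, kcg_38, kcg_47, kcg_55, kcg_56, kcg_59, kcg_67, kcg_74, kcg_75, kcg_79, kcg_87, kcg_92, kcg_96, kcg_106, kcg_116, kcg_119, kcg_120, kcg_124, kcg_135, kcg_140, kcg_145, kcg_155, kcg_163, kcg_164, kcg_169, kcg_178, kcg_186, kcg_191, kcg_201, kcg_206, kcg_211, kcg_219, kcg_220, kcg_221, kcg_244, kcg_255, kcg_276, kcg_277, kcg_296, cv1m, cv2m, cv3m, cv4m, cv1p, cv2p, cv3p, cv4p, cv1r, cv2r, cv3r, cv4r, c1g_v, swg_v, c3g_v, c1n_zero, swn_zero, c3n_zero, ya1]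
    all_goals ((try norm_num) <;> (try ring))
theorem corN01 (x : ℝ) : (ndN 0 1).X.v 1 = 1 / 2 ∧ (ndN 0 1).K.v 1 x = (1 + mug3.v x * gug.v x) * (1 / 2) ∧
    (ndN 0 1).L.v 1 x = 0 := by
  refine ⟨?_, ?_, ?_⟩
  · show c1g.v 1 = _
    simp only [cv1m, cv2m, cv3m, cv4m, cv1p, cv2p, cv3p, cv4p, cv1r, cv2r, cv3r, cv4r, c1g_v, swg_v, c3g_v, c1n_one, swn_one, c3n_one]
    all_goals norm_num
  · show kn0q1.v 1 x = _
    simp only [kn0q1, kf0q1, kf0q1_10, kcg, kcg_3, kcg_6, kcg_9, kcg_12, kcg_13, kcg_16, kcg_27, kcg_35, kcg_38, kcg_47, kcg_55, kcg_56, kcg_59, kcg_67, kcg_74, kcg_75, kcg_79, kcg_87, kcg_92, kcg_96, kcg_106, kcg_116, kcg_119, kcg_120, kcg_124, kcg_135, kcg_140, kcg_145, kcg_155, kcg_163, kcg_164, kcg_169, kcg_178, kcg_186, kcg_191, kcg_201, kcg_206, kcg_211, kcg_219, kcg_220, kcg_221, kcg_244, kcg_255, kcg_276, kcg_277, kcg_296, kp0q1, kp0q1_9, cv1m, cv2m, cv3m, cv4m, cv1p,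 cv2p, cv3p, cv4p, cv1r, cv2r, cv3r, cv4r, c1g_v, swg_v, c3g_v, c1n_one, swn_one, c3n_one, ya1]
    all_goals ((try norm_num) <;> (try ring))
  · show l0q1.v 1 x = _
    simp only [l0q1, txg, txg_4, txg_6, txg_27, txg_61, txg_78, txg_80, txg_83, txg_86, txg_134, txg_153, txg_196, txg_198, txg_219, txg_259, txg_279, kcg, kcg_3, kcg_6, kcg_9, kcg_12, kcg_13, kcg_16, kcg_27, kcg_35, kcg_38, kcg_47, kcg_55, kcg_56, kcg_59, kcg_67, kcg_74, kcg_75, kcg_79, kcg_87, kcg_92, kcg_96, kcg_106, kcg_116, kcg_119, kcg_120, kcg_124, kcg_135, kcg_140, kcg_145, kcg_155, kcg_163, kcg_164, kcg_169, kcg_178, kcg_186, kcg_191, kcg_201, kcg_206, kcg_211, kcg_219, kcg_220, kcg_221, kcg_244, kcg_255, kcg_276, kcg_277, kcg_296, cv1m, cv2m, cv3m, cv4m, cv1p, cv2p, cv3p, cv4p, cv1r, cv2r, cv3r, cv4r, c1g_v, swg_v, c3g_v, c1n_one, swn_one, c3n_one, ya1]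
    all_goals ((try norm_num) <;> (try ring))
theorem corN02 (x : ℝ) : (ndN 0 2).X.v (1 / 2) = 1 / 2 ∧ (ndN 0 2).K.v (1 / 2) x = (1 + mug3.v x * gug.v x) * (1 / 2) ∧
    (ndN 0 2).L.v (1 / 2) x = 0 := by
  refine ⟨?_, ?_, ?_⟩
  · show idf.v (1 / 2) = _
    simp only [idf, cv1m, cv2m, cv3m, cv4m, cv1p, cv2p, cv3p, cv4p, cv1r, cv2r, cv3r, cv4r, c1g_v, swg_v, c3g_v, c1n_one, swn_one, c3n_one]
    all_goals norm_num
  · show knc02.v (1 / 2) x = _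
    simp only [knc02, kfc02, kcg, kcg_3, kcg_6, kcg_9, kcg_12, kcg_13, kcg_16, kcg_27, kcg_35, kcg_38, kcg_47, kcg_55, kcg_56, kcg_59, kcg_67, kcg_74, kcg_75, kcg_79, kcg_87, kcg_92, kcg_96, kcg_106, kcg_116, kcg_119, kcg_120, kcg_124, kcg_135, kcg_140, kcg_145, kcg_155, kcg_163, kcg_164, kcg_169, kcg_178, kcg_186, kcg_191, kcg_201, kcg_206, kcg_211, kcg_219, kcg_220, kcg_221, kcg_244, kcg_255, kcg_276, kcg_277, kcg_296, kpc02, kpc02_4, cv1m, cv2m, cv3m, cv4m, cv1p, cv2p, cv3p, cv4p, cv1r, cv2r, cv3r, cv4r, c1g_v, swg_v, c3g_v, c1n_one, swn_one, c3n_one, ya1]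
    all_goals ((try norm_num) <;> (try ring))
  · show lc02.v (1 / 2) x = _
    simp only [lc02, lc02_7, lc02_8, txg, txg_4, txg_6, txg_27, txg_61, txg_78, txg_80, txg_83, txg_86, txg_134, txg_153, txg_196, txg_198, txg_219, txg_259, txg_279, kcg, kcg_3, kcg_6, kcg_9, kcg_12, kcg_13, kcg_16, kcg_27, kcg_35, kcg_38, kcg_47, kcg_55, kcg_56, kcg_59, kcg_67, kcg_74, kcg_75, kcg_79, kcg_87, kcg_92, kcg_96, kcg_106, kcg_116, kcg_119, kcg_120, kcg_124, kcg_135, kcg_140, kcg_145, kcg_155, kcg_163, kcg_164, kcg_169, kcg_178, kcg_186, kcg_191, kcg_201, kcg_206, kcg_211, kcg_219, kcg_220, kcg_221, kcg_244, kcg_255, kcg_276, kcg_277, kcg_296, cv1m, cv2m, cv3m, cv4m, cv1p, cv2p, cv3p, cv4p, cv1r, cv2r, cv3r, cv4r, c1g_v, swg_v, c3g_v, c1n_one, swn_one, c3n_one, ya1]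
    all_goals ((try norm_num) <;> (try ring))
theorem corN10 (x : ℝ) : (ndN 1 0).X.v 0 = 1 ∧ (ndN 1 0).K.v 0 x = (1 + mug3.v x * gug.v x) * (1) ∧
    (ndN 1 0).L.v 0 x = 0 := by
  refine ⟨?_, ?_, ?_⟩
  · show cv1m.v 0 = _
    simp only [cv1m, cv1m, cv2m, cv3m, cv4m, cv1p, cv2p, cv3p, cv4p, cv1r, cv2r, cv3r, cv4r, c1g_v, swg_v, c3g_v, c1n_zero, swn_zero, c3n_zero]
    all_goals norm_num
  · show kn1q0.v 0 x = _
    simp only [kn1q0, kf1q0, bf1q0, kp1q0, bd1q0, cv1m, cv2m, cv3m, cv4m, cv1p, cv2p, cv3p, cv4p, cv1r, cv2r, cv3r, cv4r, c1g_v, swg_v, c3g_v, c1n_zero, swn_zero, c3n_zero, ya1]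
    all_goals ((try norm_num) <;> (try ring))
  · show l1q0.v 0 x = _
    simp only [l1q0, bx1q0, cv1m, cv2m, cv3m, cv4m, cv1p, cv2p, cv3p, cv4p, cv1r, cv2r, cv3r, cv4r, c1g_v, swg_v, c3g_v, c1n_zero, swn_zero, c3n_zero, ya1]
    all_goals ((try norm_num) <;> (try ring))
theorem corN12 (x : ℝ) : (ndN 1 2).X.v 1 = 1 / 2 ∧ (ndN 1 2).K.v 1 x = (1 + mug3.v x * gug.v x) * (1 / 2) ∧
    (ndN 1 2).L.v 1 x = 0 := by
  refine ⟨?_, ?_, ?_⟩
  · show cv1p.v 1 = _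
    simp only [cv1p, cv1m, cv2m, cv3m, cv4m, cv1p, cv2p, cv3p, cv4p, cv1r, cv2r, cv3r, cv4r, c1g_v, swg_v, c3g_v, c1n_one, swn_one, c3n_one]
    all_goals norm_num
  · show kn1q2.v 1 x = _
    simp only [kn1q2, kf1q2, bf1q2, bf1q2_3, kp1q2, bd1q2, bd1q2_3, cv1m, cv2m, cv3m, cv4m, cv1p, cv2p, cv3p, cv4p, cv1r, cv2r, cv3r, cv4r, c1g_v, swg_v, c3g_v, c1n_one, swn_one, c3n_one, ya1]
    all_goals ((try norm_num) <;> (try ring))
  · show l1q2.v 1 x = _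
    simp only [l1q2, bx1q2, bx1q2_3, cv1m, cv2m, cv3m, cv4m, cv1p, cv2p, cv3p, cv4p, cv1r, cv2r, cv3r, cv4r, c1g_v, swg_v, c3g_v, c1n_one, swn_one, c3n_one, ya1]
    all_goals ((try norm_num) <;> (try ring))
theorem corN20 (x : ℝ) : (ndN 2 0).X.v 0 = 1 ∧ (ndN 2 0).K.v 0 x = (1 + mug3.v x * gug.v x) * (1) ∧
    (ndN 2 0).L.v 0 x = 0 := by
  refine ⟨?_, ?_, ?_⟩
  · show cv2m.v 0 = _
    simp only [cv2m, cv1m, cv2m, cv3m, cv4m, cv1p, cv2p, cv3p, cv4p, cv1r, cv2r, cv3r, cv4r, c1g_v, swg_v, c3g_v, c1n_zero, swn_zero, c3n_zero]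
    all_goals norm_num
  · show kn2q0.v 0 x = _
    simp only [kn2q0, kf2q0, bf2q0, kp2q0, bd2q0, cv1m, cv2m, cv3m, cv4m, cv1p, cv2p, cv3p, cv4p, cv1r, cv2r, cv3r, cv4r, c1g_v, swg_v, c3g_v, c1n_zero, swn_zero, c3n_zero, ya1]
    all_goals ((try norm_num) <;> (try ring))
  · show l2q0.v 0 x = _
    simp only [l2q0, bx2q0, cv1m, cv2m, cv3m, cv4m, cv1p, cv2p, cv3p, cv4p, cv1r, cv2r, cv3r, cv4r, c1g_v, swg_v, c3g_v, c1n_zero, swn_zero, c3n_zero, ya1]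
    all_goals ((try norm_num) <;> (try ring))
theorem corN22 (x : ℝ) : (ndN 2 2).X.v 1 = 1 / 2 ∧ (ndN 2 2).K.v 1 x = (1 + mug3.v x * gug.v x) * (1 / 2) ∧
    (ndN 2 2).L.v 1 x = 0 := by
  refine ⟨?_, ?_, ?_⟩
  · show cv2p.v 1 = _
    simp only [cv2p, cv1m, cv2m, cv3m, cv4m, cv1p, cv2p, cv3p, cv4p, cv1r, cv2r, cv3r, cv4r, c1g_v, swg_v, c3g_v, c1n_one, swn_one, c3n_one]
    all_goals norm_num
  · show kn2q2.v 1 x = _
    simp only [kn2q2, kf2q2, bf2q2, bf2q2_3, kp2q2, bd2q2, bd2q2_3, cv1m, cv2m, cv3m, cv4m, cv1p, cv2p, cv3p, cv4p, cv1r, cv2r, cv3r, cv4r, c1g_v, swg_v, c3g_v, c1n_one, swn_one, c3n_one, ya1]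
    all_goals ((try norm_num) <;> (try ring))
  · show l2q2.v 1 x = _
    simp only [l2q2, bx2q2, bx2q2_3, cv1m, cv2m, cv3m, cv4m, cv1p, cv2p, cv3p, cv4p, cv1r, cv2r, cv3r, cv4r, c1g_v, swg_v, c3g_v, c1n_one, swn_one, c3n_one, ya1]
    all_goals ((try norm_num) <;> (try ring))
theorem corN31 (x : ℝ) : (ndN 3 1).X.v 1 = 3 / 2 ∧ (ndN 3 1).K.v 1 x = (1 + mug3.v x * gug.v x) * (3 / 2) ∧
    (ndN 3 1).L.v 1 x = 0 := by
  refine ⟨?_, ?_, ?_⟩
  · show cv3m.v 1 = _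
    simp only [cv3m, cv1m, cv2m, cv3m, cv4m, cv1p, cv2p, cv3p, cv4p, cv1r, cv2r, cv3r, cv4r, c1g_v, swg_v, c3g_v, c1n_one, swn_one, c3n_one]
    all_goals norm_num
  · show kn3q1.v 1 x = _
    simp only [kn3q1, kf3q1, kf3q1_4, kf3q1_39, kf3q1_40, kf3q1_46, kf3q1_48, kf3q1_67, kcg, kcg_3, kcg_6, kcg_9, kcg_12, kcg_13, kcg_16, kcg_27, kcg_35, kcg_38, kcg_47, kcg_55, kcg_56, kcg_59, kcg_67, kcg_74, kcg_75, kcg_79, kcg_87, kcg_92, kcg_96, kcg_106, kcg_116, kcg_119, kcg_120, kcg_124, kcg_135, kcg_140, kcg_145, kcg_155, kcg_163, kcg_164, kcg_169, kcg_178, kcg_186, kcg_191, kcg_201, kcg_206, kcg_211, kcg_219, kcg_220, kcg_221, kcg_244, kcg_255, kcg_276, kcg_277, kcg_296, bf2q1, bf2q1_3, kp3q1, kp3q1_4, kp3q1_41, kp3q1_42, kp3q1_46, kp3q1_54, kp3q1_79, bd2q1, bd2q1_3, cv1m, cv2m, cv3m, cv4m, cv1p, cv2p, cv3p, cv4p, cv1r, cv2r, cv3r, cv4r, c1g_v, swg_v, c3g_v, c1n_one, swn_one, c3n_one,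 ya1]
    all_goals ((try norm_num) <;> (try ring))
  · show l3q1.v 1 x = _
    simp only [l3q1, l3q1_4, l3q1_18, l3q1_54, l3q1_69, kcg, kcg_3, kcg_6, kcg_9, kcg_12, kcg_13, kcg_16, kcg_27, kcg_35, kcg_38, kcg_47, kcg_55, kcg_56, kcg_59, kcg_67, kcg_74, kcg_75, kcg_79, kcg_87, kcg_92, kcg_96, kcg_106, kcg_116, kcg_119, kcg_120, kcg_124, kcg_135, kcg_140, kcg_145, kcg_155, kcg_163, kcg_164, kcg_169, kcg_178, kcg_186, kcg_191, kcg_201, kcg_206, kcg_211, kcg_219, kcg_220, kcg_221, kcg_244, kcg_255, kcg_276, kcg_277, kcg_296, bx2q1, bx2q1_3, cv1m, cv2m, cv3m, cv4m, cv1p, cv2p, cv3p, cv4p, cv1r, cv2r, cv3r, cv4r, c1g_v, swg_v, c3g_v, c1n_one, swn_one, c3n_one, ya1]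
    all_goals ((try norm_num) <;> (try ring))
theorem corN41 (x : ℝ) : (ndN 4 1).X.v 1 = 3 / 2 ∧ (ndN 4 1).K.v 1 x = (1 + mug3.v x * gug.v x) * (3 / 2) ∧
    (ndN 4 1).L.v 1 x = 0 := by
  refine ⟨?_, ?_, ?_⟩
  · show cv4m.v 1 = _
    simp only [cv4m, cv1m, cv2m, cv3m, cv4m, cv1p, cv2p, cv3p, cv4p, cv1r, cv2r, cv3r, cv4r, c1g_v, swg_v, c3g_v, c1n_one, swn_one, c3n_one]
    all_goals norm_num
  · show kn4q1.v 1 x = _
    simp only [kn4q1, kf4q1, bf4q1, bf4q1_3, kp4q1, bd4q1, bd4q1_3, cv1m, cv2m, cv3m, cv4m, cv1p, cv2p, cv3p, cv4p, cv1r, cv2r, cv3r, cv4r, c1g_v, swg_v, c3g_v, c1n_one, swn_one, c3n_one, ya1]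
    all_goals ((try norm_num) <;> (try ring))
  · show l4q1.v 1 x = _
    simp only [l4q1, bx4q1, bx4q1_3, cv1m, cv2m, cv3m, cv4m, cv1p, cv2p, cv3p, cv4p, cv1r, cv2r, cv3r, cv4r, c1g_v, swg_v, c3g_v, c1n_one, swn_one, c3n_one, ya1]
    all_goals ((try norm_num) <;> (try ring))
theorem corN51 (x : ℝ) : (ndN 5 1).X.v 1 = 3 / 2 ∧ (ndN 5 1).K.v 1 x = (1 + mug3.v x * gug.v x) * (3 / 2) ∧
    (ndN 5 1).L.v 1 x = 0 := by
  refine ⟨?_, ?_, ?_⟩
  · show c3g.v 1 = _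
    simp only [cv1m, cv2m, cv3m, cv4m, cv1p, cv2p, cv3p, cv4p, cv1r, cv2r, cv3r, cv4r, c1g_v, swg_v, c3g_v, c1n_one, swn_one, c3n_one]
    all_goals norm_num
  · show kn5q1.v 1 x = _
    simp only [kn5q1, kf5q1, kcg, kcg_3, kcg_6, kcg_9, kcg_12, kcg_13, kcg_16, kcg_27, kcg_35, kcg_38, kcg_47, kcg_55, kcg_56, kcg_59, kcg_67, kcg_74, kcg_75, kcg_79, kcg_87, kcg_92, kcg_96, kcg_106, kcg_116, kcg_119, kcg_120, kcg_124, kcg_135, kcg_140, kcg_145, kcg_155, kcg_163, kcg_164, kcg_169, kcg_178, kcg_186, kcg_191, kcg_201, kcg_206, kcg_211, kcg_219, kcg_220, kcg_221, kcg_244, kcg_255, kcg_276, kcg_277, kcg_296, kp5q1, cv1m, cv2m, cv3m, cv4m, cv1p, cv2p, cv3p, cv4p, cv1r, cv2r, cv3r, cv4r, c1g_v, swg_v, c3g_v, c1n_one, swn_one, c3n_one, ya1]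
    all_goals ((try norm_num) <;> (try ring))
  · show l5q1.v 1 x = _
    simp only [l5q1, l5q1_7, l5q1_8, l5q1_9, txg, txg_4, txg_6, txg_27, txg_61, txg_78, txg_80, txg_83, txg_86, txg_134, txg_153, txg_196, txg_198, txg_219, txg_259, txg_279, kcg, kcg_3, kcg_6, kcg_9, kcg_12, kcg_13, kcg_16, kcg_27, kcg_35, kcg_38, kcg_47, kcg_55, kcg_56, kcg_59, kcg_67, kcg_74, kcg_75, kcg_79, kcg_87, kcg_92, kcg_96, kcg_106, kcg_116, kcg_119, kcg_120, kcg_124, kcg_135, kcg_140, kcg_145, kcg_155, kcg_163, kcg_164, kcg_169, kcg_178, kcg_186, kcg_191, kcg_201, kcg_206, kcg_211, kcg_219, kcg_220, kcg_221, kcg_244, kcg_255, kcg_276, kcg_277, kcg_296, cv1m, cv2m, cv3m, cv4m, cv1p, cv2p, cv3p, cv4p, cv1r, cv2r, cv3r, cv4r, c1g_v, swg_v, c3g_v, c1n_one, swn_one, c3n_one, ya1]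
    all_goals ((try norm_num) <;> (try ring))
theorem corN52 (x : ℝ) : (ndN 5 2).X.v 1 = 3 / 2 ∧ (ndN 5 2).K.v 1 x = (1 + mug3.v x * gug.v x) * (3 / 2) ∧
    (ndN 5 2).L.v 1 x = 0 := by
  refine ⟨?_, ?_, ?_⟩
  · show c3g.v 1 = _
    simp only [cv1m, cv2m, cv3m, cv4m, cv1p, cv2p, cv3p, cv4p, cv1r, cv2r, cv3r, cv4r, c1g_v, swg_v, c3g_v, c1n_one, swn_one, c3n_one]
    all_goals norm_num
  · show kn5q2.v 1 x = _
    simp only [kn5q2, kf5q2, kcg, kcg_3, kcg_6, kcg_9, kcg_12, kcg_13, kcg_16, kcg_27, kcg_35, kcg_38, kcg_47, kcg_55, kcg_56, kcg_59, kcg_67, kcg_74, kcg_75, kcg_79, kcg_87, kcg_92, kcg_96, kcg_106, kcg_116, kcg_119, kcg_120, kcg_124, kcg_135, kcg_140, kcg_145, kcg_155, kcg_163, kcg_164, kcg_169, kcg_178, kcg_186, kcg_191, kcg_201, kcg_206, kcg_211, kcg_219, kcg_220, kcg_221, kcg_244, kcg_255, kcg_276, kcg_277, kcg_296, kp5q2, kp5q2_9, cv1m, cv2m, cv3m, cv4m, cv1p, cv2p, cv3p,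 cv4p, cv1r, cv2r, cv3r, cv4r, c1g_v, swg_v, c3g_v, c1n_one, swn_one, c3n_one, ya1]
    all_goals ((try norm_num) <;> (try ring))
  · show l5q2.v 1 x = _
    simp only [l5q2, l5q2_7, l5q2_8, l5q2_9, l5q2_12, l5q2_14, txg, txg_4, txg_6, txg_27, txg_61, txg_78, txg_80, txg_83, txg_86, txg_134, txg_153, txg_196, txg_198, txg_219, txg_259, txg_279, kcg, kcg_3, kcg_6, kcg_9, kcg_12, kcg_13, kcg_16, kcg_27, kcg_35, kcg_38, kcg_47, kcg_55, kcg_56, kcg_59, kcg_67, kcg_74, kcg_75, kcg_79, kcg_87, kcg_92, kcg_96, kcg_106, kcg_116, kcg_119, kcg_120, kcg_124, kcg_135, kcg_140, kcg_145, kcg_155, kcg_163, kcg_164, kcg_169, kcg_178, kcg_186, kcg_191, kcg_201, kcg_206, kcg_211, kcg_219, kcg_220, kcg_221, kcg_244, kcg_255, kcg_276, kcg_277, kcg_296, cv1m, cv2m, cv3m, cv4m, cv1p, cv2p, cv3p, cv4p, cv1r, cv2r, cv3r, cv4r, c1g_v, swg_v, c3g_v, c1n_one, swn_one, c3n_one, ya1]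
    all_goals ((try norm_num) <;> (try ring))
theorem pzeroKF (x : ℝ) : ∀ j, PP.ρ j ≤ 1 → (ndF j 0).K.v (crd j 0 0) x = (ndF 0 0).K.v (crd 0 0 0) x := by
  intro j hj
  fin_cases j
  · rfl
  · show kf1q0.v 0 x = kf0q0.v 0 x
    simp only [kf1q0, bf1q0, kf0q0, kf0q0_9, kf0q0_12, kcg, kcg_3, kcg_6, kcg_9, kcg_12, kcg_13, kcg_16, kcg_27, kcg_35, kcg_38, kcg_47, kcg_55, kcg_56, kcg_59, kcg_67, kcg_74, kcg_75, kcg_79, kcg_87, kcg_92, kcg_96, kcg_106, kcg_116, kcg_119, kcg_120, kcg_124, kcg_135, kcg_140, kcg_145, kcg_155, kcg_163, kcg_164, kcg_169, kcg_178, kcg_186, kcg_191, kcg_201, kcg_206, kcg_211, kcg_219, kcg_220, kcg_221, kcg_244, kcg_255, kcg_276, kcg_277, kcg_296, cv1m, cv2m, cv3m, cv4m, cv1p, cv2p, cv3p, cv4p, cv1r, cv2r, cv3r, cv4r, c1g_v, swg_v, c3g_v, c1n_zero, swn_zero]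
    ((try norm_num) <;> (try ring))
  · show kf2q0.v 0 x = kf0q0.v 0 x
    simp only [kf2q0, bf2q0, kf0q0, kf0q0_9, kf0q0_12, kcg, kcg_3, kcg_6, kcg_9, kcg_12, kcg_13, kcg_16, kcg_27, kcg_35, kcg_38, kcg_47, kcg_55, kcg_56, kcg_59, kcg_67, kcg_74, kcg_75, kcg_79, kcg_87, kcg_92, kcg_96, kcg_106, kcg_116, kcg_119, kcg_120, kcg_124, kcg_135, kcg_140, kcg_145, kcg_155, kcg_163, kcg_164, kcg_169, kcg_178, kcg_186, kcg_191, kcg_201, kcg_206, kcg_211, kcg_219, kcg_220, kcg_221, kcg_244, kcg_255, kcg_276, kcg_277, kcg_296, cv1m, cv2m, cv3m, cv4m, cv1p, cv2p, cv3p, cv4p, cv1r, cv2r, cv3r, cv4r, c1g_v, swg_v, c3g_v, c1n_zero, swn_zero]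
    ((try norm_num) <;> (try ring))
  · exact absurd (show (6 / 5 : ℝ) ≤ 1 from hj) (by norm_num)
  · exact absurd (show (8 / 5 : ℝ) ≤ 1 from hj) (by norm_num)
  · exact absurd (show (2 : ℝ) ≤ 1 from hj) (by norm_num)
theorem pmidKF (x : ℝ) : ∀ j, PP.ρ j ≤ 1 → (ndF j 2).K.v (crd j 2 1) x = (ndF 0 2).K.v (crd 0 2 1) x := by
  intro j hj
  fin_cases j
  · rfl
  · show kf1q2.v 1 x = kfc02.v (c1n 1) x
    simp only [kf1q2, bf1q2, bf1q2_3, kfc02, kcg, kcg_3, kcg_6, kcg_9, kcg_12, kcg_13, kcg_16, kcg_27, kcg_35, kcg_38, kcg_47, kcg_55, kcg_56, kcg_59, kcg_67, kcg_74, kcg_75, kcg_79, kcg_87, kcg_92, kcg_96, kcg_106, kcg_116, kcg_119, kcg_120, kcg_124, kcg_135, kcg_140, kcg_145, kcg_155, kcg_163, kcg_164, kcg_169, kcg_178, kcg_186, kcg_191, kcg_201, kcg_206, kcg_211, kcg_219, kcg_220, kcg_221, kcg_244, kcg_255, kcg_276, kcg_277, kcg_296, cv1m, cv2m, cv3m, cv4m, cv1p, cv2p, cv3p, cv4p, cv1r,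 cv2r, cv3r, cv4r, c1g_v, swg_v, c3g_v, c1n_one, swn_one, ya1]
    ((try norm_num) <;> (try ring))
  · show kf2q2.v 1 x = kfc02.v (c1n 1) x
    simp only [kf2q2, bf2q2, bf2q2_3, kfc02, kcg, kcg_3, kcg_6, kcg_9, kcg_12, kcg_13, kcg_16, kcg_27, kcg_35, kcg_38, kcg_47, kcg_55, kcg_56, kcg_59, kcg_67, kcg_74, kcg_75, kcg_79, kcg_87, kcg_92, kcg_96, kcg_106, kcg_116, kcg_119, kcg_120, kcg_124, kcg_135, kcg_140, kcg_145, kcg_155, kcg_163, kcg_164, kcg_169, kcg_178, kcg_186, kcg_191, kcg_201, kcg_206, kcg_211, kcg_219, kcg_220, kcg_221, kcg_244, kcg_255, kcg_276, kcg_277, kcg_296, cv1m, cv2m, cv3m, cv4m, cv1p, cv2p, cv3p, cv4p, cv1r, cv2r, cv3r, cv4r, c1g_v, swg_v, c3g_v, c1n_one, swn_one, ya1]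
    ((try norm_num) <;> (try ring))
  · exact absurd (show (6 / 5 : ℝ) ≤ 1 from hj) (by norm_num)
  · exact absurd (show (8 / 5 : ℝ) ≤ 1 from hj) (by norm_num)
  · exact absurd (show (2 : ℝ) ≤ 1 from hj) (by norm_num)
theorem ptopKF (x : ℝ) : ∀ j, j ≠ 0 → (ndF j 3).K.v (crd j 3 2) x = 0 := by
  intro j hj
  fin_cases j
  · exact absurd rfl hj
  · show kf1q3.v 2 x = 0
    simp only [kf1q3, bf1q3, cv1m, cv2m, cv3m, cv4m, cv1p, cv2p, cv3p, cv4p, cv1r, cv2r, cv3r, cv4r, c1g_v, swg_v, c3g_v, swn_two, c1n_two, c3n_two, yc0]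
    norm_num
  · show kf2q3.v 2 x = 0
    simp only [kf2q3, bf2q3, cv1m, cv2m, cv3m, cv4m, cv1p, cv2p, cv3p, cv4p, cv1r, cv2r, cv3r, cv4r, c1g_v, swg_v, c3g_v, swn_two, c1n_two, c3n_two, yc0]
    norm_num
  · show kfc33.v (c3n 2) x = 0
    simp only [kfc33, bf3q3, cv1m, cv2m, cv3m, cv4m, cv1p, cv2p, cv3p, cv4p, cv1r, cv2r, cv3r, cv4r, c1g_v, swg_v, c3g_v, swn_two, c1n_two, c3n_two, yc0]
    norm_num
  · show kfc43.v (c3n 2) x = 0
    simp only [kfc43, bf4q3, cv1m, cv2m, cv3m, cv4m, cv1p, cv2p, cv3p, cv4p, cv1r, cv2r, cv3r, cv4r, c1g_v, swg_v, c3g_v, swn_two, c1n_two, c3n_two, yc0]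
    norm_num
  · show kfc53.v (c3n 2) x = 0
    simp only [kfc53, kcg, kcg_3, kcg_6, kcg_9, kcg_12, kcg_13, kcg_16, kcg_27, kcg_35, kcg_38, kcg_47, kcg_55, kcg_56, kcg_59, kcg_67, kcg_74, kcg_75, kcg_79, kcg_87, kcg_92, kcg_96, kcg_106, kcg_116, kcg_119, kcg_120, kcg_124, kcg_135, kcg_140, kcg_145, kcg_155, kcg_163, kcg_164, kcg_169, kcg_178, kcg_186, kcg_191, kcg_201, kcg_206, kcg_211, kcg_219, kcg_220, kcg_221, kcg_244, kcg_255, kcg_276, kcg_277, kcg_296, cv1m, cv2m, cv3m, cv4m, cv1p, cv2p, cv3p, cv4p, cv1r, cv2r, cv3r, cv4r, c1g_v, swg_v, c3g_v, swn_two, c1n_two, c3n_two, yc0]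
    norm_num
theorem thKF0 {x : ℝ} (h : Pins PP tKF x) : ∀ X y, InQ 0 y → 1 ≤ qqn X y → qqn X y ≤ 3 →
    thd PP tKF 0 X y x = (pcF 0).K.v X y x := by
  intro X y hq k1 k3
  have hy0 := hq.nonneg
  have hy2 := hq.le_two
  have hyl := hq.1
  have hyr := hq.2
  have on0 : h0 * y < 1 := on_half (by linarith)
  refine third5 h hq (F := fun X => rkfq0.v X y x) (x0 := c1g.v y) (x1 := cv1m.v y) (x2 := cv2m.v y) (x3 := cv3m.v y) (x4 := cv4m.v y) (x5 := c3g.v y)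
    (v0 := kf0q0.v y x) (v1 := kf1q0.v y x) (v2 := kf2q0.v y x) (v3 := kf3q0.v y x) (v4 := kf4q0.v y x) (v5 := kf5q0.v y x)
    ?_ ?_ ?_ ?_ ?_ ?_ ?_ ?_ ?_ ?_ ?_ ?_ (fun X => rfl) ?_ ?_ ?_ ?_ ?_ k1 k3
  · rw [crv0]; rw [c1g_v]
  · exact ecv1q0
  · exact ecv2q0
  · exact ecv3q0
  · exact ecv4q0
  · rw [crv5, c3g_v]
  · exact tbF_on ⟨hq, fun _ => on0⟩
  · exact tbF_on (onc hq (by decide))
  · exact tbF_on (onc hq (by decide))
  · exact tbF_on (onc hq (by decide))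
  · exact tbF_on (onc hq (by decide))
  · exact tbF_on (onc hq (by decide))
  · intro X g0 g1
    refine lin_of g0 g1 fun L hL hX => ?_
    simp only [kf4q0, kf5q0, kf0q0, kf0q0_9, kf0q0_12, kf1q0, lm0m_v, hL]
    all_goals (clear hL; subst hX; ((try push_cast); all_goals (first | ring1 | (split_ifs <;> first | (exfalso; linarith) | ring1 | ((repeat first | erw [if_pos (by linarith)] | erw [if_neg (by linarith)]); ring1)))))
  · intro X g0 g1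
    refine lin_of g0 g1 fun L hL hX => ?_
    simp only [kf4q0, kf5q0, kf0q0, kf0q0_9, kf0q0_12, kf1q0, kf2q0, lm1m_v, hL]
    all_goals (clear hL; subst hX; ((try push_cast); all_goals (first | ring1 | (split_ifs <;> first | (exfalso; linarith) | ring1 | ((repeat first | erw [if_pos (by linarith)] | erw [if_neg (by linarith)]); ring1)))))
  · intro X g0 g1
    refine lin_of g0 g1 fun L hL hX => ?_
    simp only [kf4q0, kf5q0, kf0q0, kf0q0_9, kf0q0_12, kf2q0, kf3q0, lm2m_v, hL]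
    all_goals (clear hL; subst hX; ((try push_cast); all_goals (first | ring1 | (split_ifs <;> first | (exfalso; linarith) | ring1 | ((repeat first | erw [if_pos (by linarith)] | erw [if_neg (by linarith)]); ring1)))))
  · intro X g0 g1
    refine lin_of g0 g1 fun L hL hX => ?_
    simp only [kf4q0, kf5q0, kf0q0, kf0q0_9, kf0q0_12, kf3q0, lm3m_v, hL]
    all_goals (clear hL; subst hX; ((try push_cast); all_goals (first | ring1 | (split_ifs <;> first | (exfalso; linarith) | ring1 | ((repeat first | erw [if_pos (by linarith)] | erw [if_neg (by linarith)]); ring1)))))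
  · intro X g0 g1
    refine lin_of g0 g1 fun L hL hX => ?_
    simp only [kf4q0, kf5q0, kf0q0, kf0q0_9, kf0q0_12, lm4m_v, hL]
    all_goals (clear hL; subst hX; ((try push_cast); all_goals (first | ring1 | (split_ifs <;> first | (exfalso; linarith) | ring1 | ((repeat first | erw [if_pos (by linarith)] | erw [if_neg (by linarith)]); ring1)))))
theorem thKF1 {x : ℝ} (h : Pins PP tKF x) : ∀ X y, InQ 1 y → 1 ≤ qqn X y → qqn X y ≤ 3 →
    thd PP tKF 1 X y x = (pcF 1).K.v X y x := by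
  intro X y hq k1 k3
  have hy0 := hq.nonneg
  have hy2 := hq.le_two
  have hyl := hq.1
  have hyr := hq.2
  have on0 : h0 * y < 1 := on_half (by linarith)
  refine third5 h hq (F := fun X => rkfq1.v X y x) (x0 := c1g.v y) (x1 := cv1m.v y) (x2 := cv2m.v y) (x3 := cv3m.v y) (x4 := cv4m.v y) (x5 := c3g.v y)
    (v0 := kf0q1.v y x) (v1 := kf1q1.v y x) (v2 := kf2q1.v y x) (v3 := kf3q1.v y x) (v4 := kf4q1.v y x) (v5 := kf5q1.v y x)
    ?_ ?_ ?_ ?_ ?_ ?_ ?_ ?_ ?_ ?_ ?_ ?_ (fun X => rfl) ?_ ?_ ?_ ?_ ?_ k1 k3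
  · rw [crv0]; rw [c1g_v]
  · exact ecv1q1
  · exact ecv2q1
  · exact ecv3q1
  · exact ecv4q1
  · rw [crv5, c3g_v]
  · exact tbF_on ⟨hq, fun _ => on0⟩
  · exact tbF_on (onc hq (by decide))
  · exact tbF_on (onc hq (by decide))
  · exact tbF_on (onc hq (by decide))
  · exact tbF_on (onc hq (by decide))
  · exact tbF_on (onc hq (by decide))
  · intro X g0 g1
    refine lin_of g0 g1 fun L hL hX => ?_
    simp only [rkfq1_36, rkfq1_38, rkfq1_39, rkfq1_45, rkfq1_47, rkfq1_68, kf4q1, kf5q1, kf3q1, kf3q1_4, kf3q1_39, kf3q1_40, kf3q1_46, kf3q1_48, kf3q1_67, bf3q1, bf3q1_3, kf2q1, kf0q1, kf0q1_10, kf1q1, lm0m_v, hL]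
    all_goals (clear hL; subst hX; ((try push_cast); all_goals (first | ring1 | (split_ifs <;> first | (exfalso; linarith) | ring1 | ((repeat first | erw [if_pos (by linarith)] | erw [if_neg (by linarith)]); ring1)))))
  · intro X g0 g1
    refine lin_of g0 g1 fun L hL hX => ?_
    simp only [rkfq1_36, rkfq1_38, rkfq1_39, rkfq1_45, rkfq1_47, rkfq1_68, kf4q1, kf5q1, kf3q1, kf3q1_4, kf3q1_39, kf3q1_40, kf3q1_46, kf3q1_48, kf3q1_67, bf3q1, bf3q1_3, kf2q1, kf0q1, kf0q1_10, kf1q1, lm1m_v, hL]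
    all_goals (clear hL; subst hX; ((try push_cast); all_goals (first | ring1 | (split_ifs <;> first | (exfalso; linarith) | ring1 | ((repeat first | erw [if_pos (by linarith)] | erw [if_neg (by linarith)]); ring1)))))
  · intro X g0 g1
    refine lin_of g0 g1 fun L hL hX => ?_
    simp only [rkfq1_36, rkfq1_38, rkfq1_39, rkfq1_45, rkfq1_47, rkfq1_68, kf4q1, kf5q1, kf3q1, kf3q1_4, kf3q1_39, kf3q1_40, kf3q1_46, kf3q1_48, kf3q1_67, bf3q1, bf3q1_3, kf2q1, kf0q1, kf0q1_10, lm2m_v, hL]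
    all_goals (clear hL; subst hX; ((try push_cast); all_goals (first | ring1 | (split_ifs <;> first | (exfalso; linarith) | ring1 | ((repeat first | erw [if_pos (by linarith)] | erw [if_neg (by linarith)]); ring1)))))
  · intro X g0 g1
    refine lin_of g0 g1 fun L hL hX => ?_
    simp only [rkfq1_36, rkfq1_38, rkfq1_39, rkfq1_45, rkfq1_47, rkfq1_68, kf4q1, kf5q1, kf3q1, kf3q1_4, kf3q1_39, kf3q1_40, kf3q1_46, kf3q1_48, kf3q1_67, bf3q1, bf3q1_3, kf2q1, kf0q1, kf0q1_10, lm3m_v, hL]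
    all_goals (clear hL; subst hX; ((try push_cast); all_goals (first | ring1 | (split_ifs <;> first | (exfalso; linarith) | ring1 | ((repeat first | erw [if_pos (by linarith)] | erw [if_neg (by linarith)]); ring1)))))
  · intro X g0 g1
    refine lin_of g0 g1 fun L hL hX => ?_
    simp only [rkfq1_36, rkfq1_38, rkfq1_39, rkfq1_45, rkfq1_47, rkfq1_68, kf4q1, kf5q1, kf3q1, kf3q1_4, kf3q1_39, kf3q1_40, kf3q1_46, kf3q1_48, kf3q1_67, bf3q1, bf3q1_3, kf2q1, kf0q1, kf0q1_10, lm4m_v, hL]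
    all_goals (clear hL; subst hX; ((try push_cast); all_goals (first | ring1 | (split_ifs <;> first | (exfalso; linarith) | ring1 | ((repeat first | erw [if_pos (by linarith)] | erw [if_neg (by linarith)]); ring1)))))
theorem thKF2 {x : ℝ} (h : Pins PP tKF x) : ∀ X y, InQ 2 y → 1 ≤ qqn X y → qqn X y ≤ 3 →
    thd PP tKF 2 X y x = (pcF 2).K.v X y x := by
  intro X y hq k1 k3
  have hy0 := hq.nonneg
  have hy2 := hq.le_two
  have hyl := hq.1
  have hyr := hq.2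
  refine third5 h hq (F := fun X => rkfq2.v X y x) (x0 := c1g.v y) (x1 := cv1p.v y) (x2 := cv2p.v y) (x3 := cv3p.v y) (x4 := cv4p.v y) (x5 := c3g.v y)
    (v0 := tKF 0 2 y x) (v1 := kf1q2.v y x) (v2 := kf2q2.v y x) (v3 := kf3q2.v y x) (v4 := kf4q2.v y x) (v5 := kf5q2.v y x)
    ?_ ?_ ?_ ?_ ?_ ?_ ?_ ?_ ?_ ?_ ?_ ?_ (fun X => rfl) ?_ ?_ ?_ ?_ ?_ k1 k3
  · rw [crv0]; rw [c1g_v]
  · exact ecv1q2
  · exact ecv2q2
  · exact ecv3q2
  · exact ecv4q2
  · rw [crv5, c3g_v]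
  · rfl
  · exact tbF_on (onc hq (by decide))
  · exact tbF_on (onc hq (by decide))
  · exact tbF_on (onc hq (by decide))
  · exact tbF_on (onc hq (by decide))
  · exact tbF_on (onc hq (by decide))
  · intro X g0 g1
    refine lin_of g0 g1 fun L hL hX => ?_
    by_cases on : h0 * y < 1
    · have e0 : tKF 0 2 y x = kfc02.v (c1g.v y) x := by
        rw [c1g_v]; exact tbF_on ⟨hq, fun _ => on⟩
      have e1 : yag.v (c1g.v y) = y := by rw [c1g_v]; exact yag_v hy0 on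
      have hlt := on_lt on
      obtain ⟨c0, c2⟩ := c1g_sq hy0 on
      rw [e0]
      rcases le_or_gt (y - (1153 : ℕ) / (1000 : ℕ)) 0 with c | c
      · simp only [rkfq2_36, rkfq2_37, rkfq2_38, rkfq2_44, rkfq2_46, rkfq2_68, rkfq2_95, rkfq2_97, kf4q2, kf5q2, kf3q2, kf3q2_4, kf3q2_62, kf3q2_63, kf3q2_69, kf3q2_71, kf3q2_90, bf3q2, bf3q2_3, kf2q2, kf0q2, n0b, kf1q2, kfc02, lm0p_v, hL, e1, if_pos c]
        all_goals (clear hL; subst hX; ((try push_cast); all_goals (first | ring1 | (split_ifs <;> first | (exfalso; linarith) | ring1 | ((repeat first | erw [if_pos (by linarith)] | erw [if_neg (by linarith)]); ring1)))))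
      · have hc1 : c1g.v y < 1 / 16 := by
          push_cast at c
          nlinarith
        have hc' : ¬ (y - (1153 : ℕ) / (1000 : ℕ) ≤ 0) := not_le.2 c
        have kn1 := kcg_near (p := -c1g.v y) (x := x) (by linarith) (by linarith)
        have kn2 := kcg_near (p := c1g.v y) (x := x) (by linarith) (by linarith)
        simp only [rkfq2_36, rkfq2_37, rkfq2_38, rkfq2_44, rkfq2_46, rkfq2_68, rkfq2_95, rkfq2_97, kf4q2, kf5q2, kf3q2, kf3q2_4, kf3q2_62, kf3q2_63, kf3q2_69, kf3q2_71, kf3q2_90, bf3q2, bf3q2_3, kf2q2, kf0q2, n0b, kf1q2, kfc02, lm0p_v, hL, e1, if_neg hc', abs_neg, abs_of_nonneg c0, neg_neg, kn1, kn2]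
        all_goals (clear hL; subst hX; (try push_cast); (try simp only [← c2]); ((try push_cast); all_goals (first | ring1 | (split_ifs <;> first | (exfalso; linarith) | ring1 | ((repeat first | erw [if_pos (by linarith)] | erw [if_neg (by linarith)]); ring1)))))
    · have off : 1 ≤ h0 * y := not_lt.1 on
      have hc := c1g_off off
      have e0 : tKF 0 2 y x = 0 := tbF_off off
      have hlt := lt_off off
      simp only [rkfq2_36, rkfq2_37, rkfq2_38, rkfq2_44, rkfq2_46, rkfq2_68, rkfq2_95, rkfq2_97, kf4q2, kf5q2, kf3q2, kf3q2_4, kf3q2_62, kf3q2_63, kf3q2_69, kf3q2_71, kf3q2_90, bf3q2, bf3q2_3, kf2q2, kf0q2, n0b, kf1q2, lm0p_v, hL, hc, e0]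
      all_goals (clear hL; subst hX; (try simp only [hc]); ((try push_cast); all_goals (first | ring1 | (split_ifs <;> first | (exfalso; linarith) | ring1 | ((repeat first | erw [if_pos (by linarith)] | erw [if_neg (by linarith)]); ring1)))))
  · intro X g0 g1
    refine lin_of g0 g1 fun L hL hX => ?_
    simp only [rkfq2_36, rkfq2_37, rkfq2_38, rkfq2_44, rkfq2_46, rkfq2_68, rkfq2_95, rkfq2_97, kf4q2, kf5q2, kf3q2, kf3q2_4, kf3q2_62, kf3q2_63, kf3q2_69, kf3q2_71, kf3q2_90, bf3q2, bf3q2_3, kf2q2, kf0q2, n0b, kf1q2, lm1p_v, hL]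
    all_goals (clear hL; subst hX; ((try push_cast); all_goals (first | ring1 | (split_ifs <;> first | (exfalso; linarith) | ring1 | ((repeat first | erw [if_pos (by linarith)] | erw [if_neg (by linarith)]); ring1)))))
  · intro X g0 g1
    refine lin_of g0 g1 fun L hL hX => ?_
    simp only [rkfq2_36, rkfq2_37, rkfq2_38, rkfq2_44, rkfq2_46, rkfq2_68, rkfq2_95, rkfq2_97, kf4q2, kf5q2, kf3q2, kf3q2_4, kf3q2_62, kf3q2_63, kf3q2_69, kf3q2_71, kf3q2_90, bf3q2, bf3q2_3, kf2q2, kf0q2, n0b, lm2p_v, hL]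
    all_goals (clear hL; subst hX; ((try push_cast); all_goals (first | ring1 | (split_ifs <;> first | (exfalso; linarith) | ring1 | ((repeat first | erw [if_pos (by linarith)] | erw [if_neg (by linarith)]); ring1)))))
  · intro X g0 g1
    refine lin_of g0 g1 fun L hL hX => ?_
    simp only [rkfq2_36, rkfq2_37, rkfq2_38, rkfq2_44, rkfq2_46, rkfq2_68, rkfq2_95, rkfq2_97, kf4q2, kf5q2, kf3q2, kf3q2_4, kf3q2_62, kf3q2_63, kf3q2_69, kf3q2_71, kf3q2_90, bf3q2, bf3q2_3, kf2q2, kf0q2, n0b, lm3p_v, hL]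
    all_goals (clear hL; subst hX; ((try push_cast); all_goals (first | ring1 | (split_ifs <;> first | (exfalso; linarith) | ring1 | ((repeat first | erw [if_pos (by linarith)] | erw [if_neg (by linarith)]); ring1)))))
  · intro X g0 g1
    refine lin_of g0 g1 fun L hL hX => ?_
    simp only [rkfq2_36, rkfq2_37, rkfq2_38, rkfq2_44, rkfq2_46, rkfq2_68, rkfq2_95, rkfq2_97, kf4q2, kf5q2, kf3q2, kf3q2_4, kf3q2_62, kf3q2_63, kf3q2_69, kf3q2_71, kf3q2_90, bf3q2, bf3q2_3, kf2q2, kf0q2, n0b, lm4p_v, hL]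
    all_goals (clear hL; subst hX; ((try push_cast); all_goals (first | ring1 | (split_ifs <;> first | (exfalso; linarith) | ring1 | ((repeat first | erw [if_pos (by linarith)] | erw [if_neg (by linarith)]); ring1)))))
theorem thKF3 {x : ℝ} (h : Pins PP tKF x) : ∀ X y, InQ 3 y → 1 ≤ qqn X y → qqn X y ≤ 3 →
    thd PP tKF 3 X y x = (pcF 3).K.v X y x := by
  intro X y hq k1 k3
  have hy0 := hq.nonneg
  have hy2 := hq.le_two
  have hyl := hq.1
  have hyr := hq.2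
  refine third5 h hq (F := fun X => rkfq3.v X y x) (x0 := 0) (x1 := cv1r.v y) (x2 := cv2r.v y) (x3 := cv3r.v y) (x4 := cv4r.v y) (x5 := c3g.v y)
    (v0 := 0) (v1 := kf1q3.v y x) (v2 := kf2q3.v y x) (v3 := kf3q3.v y x) (v4 := kf4q3.v y x) (v5 := kf5q3.v y x)
    ?_ ?_ ?_ ?_ ?_ ?_ ?_ ?_ ?_ ?_ ?_ ?_ (fun X => rfl) ?_ ?_ ?_ ?_ ?_ k1 k3
  · rw [crv0]; exact c1n_off (off_y hyl)
  · exact ecv1q3 hyl
  · exact ecv2q3 hyl
  · exact ecv3q3 hyl
  · exact ecv4q3 hyl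
  · rw [crv5, c3g_v]
  · exact tbF_off (off_y hyl)
  · exact tbF_on (onc hq (by decide))
  · exact tbF_on (onc hq (by decide))
  · refine (tbF_on (onc hq (by decide))).trans ?_
    show kfc33.v (c3n y) x = _
    simp only [kf3q3, kfc33, ycg_v hy0 hy2, c3g_v, cv1r, cv2r, cv3r, cv4r]
    all_goals (try rfl)
  · refine (tbF_on (onc hq (by decide))).trans ?_
    show kfc43.v (c3n y) x = _
    simp only [kf4q3, kfc43, ycg_v hy0 hy2, c3g_v, cv1r, cv2r, cv3r, cv4r]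
    all_goals (try rfl)
  · refine (tbF_on (onc hq (by decide))).trans ?_
    show kfc53.v (c3n y) x = _
    simp only [kf5q3, kfc53, ycg_v hy0 hy2, c3g_v, c3g_v]
    all_goals (try rfl)
  · intro X g0 g1
    refine lin_of g0 g1 fun L hL hX => ?_
    simp only [kf4q3, kf5q3, kf1q3, hL]
    all_goals (clear hL; subst hX; ((try push_cast); all_goals (first | ring1 | (split_ifs <;> first | (exfalso; linarith) | ring1 | ((repeat first | erw [if_pos (by linarith)] | erw [if_neg (by linarith)]); ring1)))))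
  · intro X g0 g1
    refine lin_of g0 g1 fun L hL hX => ?_
    simp only [kf4q3, kf5q3, kf1q3, kf2q3, lm1r_v, hL]
    all_goals (clear hL; subst hX; ((try push_cast); all_goals (first | ring1 | (split_ifs <;> first | (exfalso; linarith) | ring1 | ((repeat first | erw [if_pos (by linarith)] | erw [if_neg (by linarith)]); ring1)))))
  · intro X g0 g1
    refine lin_of g0 g1 fun L hL hX => ?_
    simp only [kf4q3, kf5q3, kf2q3, kf3q3, lm2r_v, hL]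
    all_goals (clear hL; subst hX; ((try push_cast); all_goals (first | ring1 | (split_ifs <;> first | (exfalso; linarith) | ring1 | ((repeat first | erw [if_pos (by linarith)] | erw [if_neg (by linarith)]); ring1)))))
  · intro X g0 g1
    refine lin_of g0 g1 fun L hL hX => ?_
    simp only [kf4q3, kf5q3, kf3q3, lm3r_v, hL]
    all_goals (clear hL; subst hX; ((try push_cast); all_goals (first | ring1 | (split_ifs <;> first | (exfalso; linarith) | ring1 | ((repeat first | erw [if_pos (by linarith)] | erw [if_neg (by linarith)]); ring1)))))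
  · intro X g0 g1
    refine lin_of g0 g1 fun L hL hX => ?_
    simp only [kf4q3, kf5q3, lm4r_v, hL]
    all_goals (clear hL; subst hX; ((try push_cast); all_goals (first | ring1 | (split_ifs <;> first | (exfalso; linarith) | ring1 | ((repeat first | erw [if_pos (by linarith)] | erw [if_neg (by linarith)]); ring1)))))
theorem pzeroKN (x : ℝ) : ∀ j, PP.ρ j ≤ 1 → (ndN j 0).K.v (crd j 0 0) x = (ndN 0 0).K.v (crd 0 0 0) x := by
  intro j hj
  fin_cases j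
  · rfl
  · show kn1q0.v 0 x = kn0q0.v 0 x
    simp only [kn1q0, kf1q0, bf1q0, kp1q0, bd1q0, kn0q0, gug, kf0q0, kf0q0_9, kf0q0_12, kcg, kcg_3, kcg_6, kcg_9, kcg_12, kcg_13, kcg_16, kcg_27, kcg_35, kcg_38, kcg_47, kcg_55, kcg_56, kcg_59, kcg_67, kcg_74, kcg_75, kcg_79, kcg_87, kcg_92, kcg_96, kcg_106, kcg_116, kcg_119, kcg_120, kcg_124, kcg_135, kcg_140, kcg_145, kcg_155, kcg_163, kcg_164, kcg_169, kcg_178, kcg_186, kcg_191, kcg_201, kcg_206, kcg_211, kcg_219, kcg_220, kcg_221, kcg_244, kcg_255, kcg_276, kcg_277, kcg_296, kp0q0, kp0q0_3, kp0q0_8, kug, kug_2, cv1m, cv2m, cv3m, cv4m, cv1p, cv2p, cv3p, cv4p, cv1r, cv2r, cv3r, cv4r, c1g_v, swg_v, c3g_v, c1n_zero, swn_zero]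
    ((try norm_num) <;> (try ring))
  · show kn2q0.v 0 x = kn0q0.v 0 x
    simp only [kn2q0, kf2q0, bf2q0, kp2q0, bd2q0, kn0q0, gug, kf0q0, kf0q0_9, kf0q0_12, kcg, kcg_3, kcg_6, kcg_9, kcg_12, kcg_13, kcg_16, kcg_27, kcg_35, kcg_38, kcg_47, kcg_55, kcg_56, kcg_59, kcg_67, kcg_74, kcg_75, kcg_79, kcg_87, kcg_92, kcg_96, kcg_106, kcg_116, kcg_119, kcg_120, kcg_124, kcg_135, kcg_140, kcg_145, kcg_155, kcg_163, kcg_164, kcg_169, kcg_178, kcg_186, kcg_191, kcg_201, kcg_206, kcg_211, kcg_219, kcg_220, kcg_221, kcg_244, kcg_255, kcg_276, kcg_277, kcg_296, kp0q0, kp0q0_3, kp0q0_8, kug, kug_2, cv1m, cv2m, cv3m, cv4m, cv1p, cv2p, cv3p, cv4p, cv1r, cv2r, cv3r, cv4r, c1g_v, swg_v, c3g_v, c1n_zero, swn_zero]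
    ((try norm_num) <;> (try ring))
  · exact absurd (show (6 / 5 : ℝ) ≤ 1 from hj) (by norm_num)
  · exact absurd (show (8 / 5 : ℝ) ≤ 1 from hj) (by norm_num)
  · exact absurd (show (2 : ℝ) ≤ 1 from hj) (by norm_num)
theorem pmidKN (x : ℝ) : ∀ j, PP.ρ j ≤ 1 → (ndN j 2).K.v (crd j 2 1) x = (ndN 0 2).K.v (crd 0 2 1) x := by
  intro j hj
  fin_cases j
  · rfl
  · show kn1q2.v 1 x = knc02.v (c1n 1) x
    simp only [kn1q2, kf1q2, bf1q2, bf1q2_3, kp1q2, bd1q2, bd1q2_3, knc02, gug, kfc02, kcg, kcg_3, kcg_6, kcg_9, kcg_12, kcg_13, kcg_16, kcg_27, kcg_35, kcg_38, kcg_47, kcg_55, kcg_56, kcg_59, kcg_67, kcg_74, kcg_75, kcg_79, kcg_87, kcg_92, kcg_96, kcg_106, kcg_116, kcg_119, kcg_120, kcg_124, kcg_135, kcg_140, kcg_145, kcg_155, kcg_163, kcg_164, kcg_169, kcg_178, kcg_186, kcg_191, kcg_201, kcg_206, kcg_211, kcg_219, kcg_220, kcg_221, kcg_244, kcg_255, kcg_276, kcg_277, kcg_296, kpc02,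 kpc02_4, cv1m, cv2m, cv3m, cv4m, cv1p, cv2p, cv3p, cv4p, cv1r, cv2r, cv3r, cv4r, c1g_v, swg_v, c3g_v, c1n_one, swn_one, ya1]
    ((try norm_num) <;> (try ring))
  · show kn2q2.v 1 x = knc02.v (c1n 1) x
    simp only [kn2q2, kf2q2, bf2q2, bf2q2_3, kp2q2, bd2q2, bd2q2_3, knc02, gug, kfc02, kcg, kcg_3, kcg_6, kcg_9, kcg_12, kcg_13, kcg_16, kcg_27, kcg_35, kcg_38, kcg_47, kcg_55, kcg_56, kcg_59, kcg_67, kcg_74, kcg_75, kcg_79, kcg_87, kcg_92, kcg_96, kcg_106, kcg_116, kcg_119, kcg_120, kcg_124, kcg_135, kcg_140, kcg_145, kcg_155, kcg_163, kcg_164, kcg_169, kcg_178, kcg_186, kcg_191, kcg_201, kcg_206, kcg_211, kcg_219, kcg_220, kcg_221, kcg_244, kcg_255, kcg_276, kcg_277, kcg_296, kpc02, kpc02_4, cv1m, cv2m, cv3m, cv4m, cv1p, cv2p, cv3p, cv4p, cv1r, cv2r, cv3r, cv4r, c1g_v, swg_v, c3g_v, c1n_one, swn_one, ya1]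
    ((try norm_num) <;> (try ring))
  · exact absurd (show (6 / 5 : ℝ) ≤ 1 from hj) (by norm_num)
  · exact absurd (show (8 / 5 : ℝ) ≤ 1 from hj) (by norm_num)
  · exact absurd (show (2 : ℝ) ≤ 1 from hj) (by norm_num)
theorem ptopKN (x : ℝ) : ∀ j, j ≠ 0 → (ndN j 3).K.v (crd j 3 2) x = 0 := by
  intro j hj
  fin_cases j
  · exact absurd rfl hj
  · show kn1q3.v 2 x = 0
    simp only [kn1q3, kf1q3, bf1q3, kp1q3, bd1q3, cv1m, cv2m, cv3m, cv4m, cv1p, cv2p, cv3p, cv4p, cv1r, cv2r, cv3r, cv4r, c1g_v, swg_v, c3g_v, swn_two, c1n_two, c3n_two, yc0]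
    norm_num
  · show kn2q3.v 2 x = 0
    simp only [kn2q3, kf2q3, bf2q3, kp2q3, bd2q3, cv1m, cv2m, cv3m, cv4m, cv1p, cv2p, cv3p, cv4p, cv1r, cv2r, cv3r, cv4r, c1g_v, swg_v, c3g_v, swn_two, c1n_two, c3n_two, yc0]
    norm_num
  · show knc33.v (c3n 2) x = 0
    simp only [knc33, kfc33, bf3q3, kpc33, bd3q3, cv1m, cv2m, cv3m, cv4m, cv1p, cv2p, cv3p, cv4p, cv1r, cv2r, cv3r, cv4r, c1g_v, swg_v, c3g_v, swn_two, c1n_two, c3n_two, yc0]
    norm_num
  · show knc43.v (c3n 2) x = 0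
    simp only [knc43, kfc43, bf4q3, kpc43, bd4q3, cv1m, cv2m, cv3m, cv4m, cv1p, cv2p, cv3p, cv4p, cv1r, cv2r, cv3r, cv4r, c1g_v, swg_v, c3g_v, swn_two, c1n_two, c3n_two, yc0]
    norm_num
  · show knc53.v (c3n 2) x = 0
    simp only [knc53, kfc53, kcg, kcg_3, kcg_6, kcg_9, kcg_12, kcg_13, kcg_16, kcg_27, kcg_35, kcg_38, kcg_47, kcg_55, kcg_56, kcg_59, kcg_67, kcg_74, kcg_75, kcg_79, kcg_87, kcg_92, kcg_96, kcg_106, kcg_116, kcg_119, kcg_120, kcg_124, kcg_135, kcg_140, kcg_145, kcg_155, kcg_163, kcg_164, kcg_169, kcg_178, kcg_186, kcg_191, kcg_201, kcg_206, kcg_211, kcg_219, kcg_220, kcg_221, kcg_244, kcg_255, kcg_276, kcg_277, kcg_296, kpc53, kpc53_9, cv1m, cv2m, cv3m, cv4m, cv1p, cv2p, cv3p, cv4p, cv1r, cv2r, cv3r, cv4r, c1g_v, swg_v, c3g_v, swn_two, c1n_two, c3n_two, yc0]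
    norm_num
theorem thKN0 {x : ℝ} (h : Pins PP tKN x) : ∀ X y, InQ 0 y → 1 ≤ qqn X y → qqn X y ≤ 3 →
    thd PP tKN 0 X y x = (pcN 0).K.v X y x := by
  intro X y hq k1 k3
  have hy0 := hq.nonneg
  have hy2 := hq.le_two
  have hyl := hq.1
  have hyr := hq.2
  have on0 : h0 * y < 1 := on_half (by linarith)
  refine third5 h hq (F := fun X => rknq0.v X y x) (x0 := c1g.v y) (x1 := cv1m.v y) (x2 := cv2m.v y) (x3 := cv3m.v y) (x4 := cv4m.v y) (x5 := c3g.v y)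
    (v0 := kn0q0.v y x) (v1 := kn1q0.v y x) (v2 := kn2q0.v y x) (v3 := kn3q0.v y x) (v4 := kn4q0.v y x) (v5 := kn5q0.v y x)
    ?_ ?_ ?_ ?_ ?_ ?_ ?_ ?_ ?_ ?_ ?_ ?_ (fun X => rfl) ?_ ?_ ?_ ?_ ?_ k1 k3
  · rw [crv0]; rw [c1g_v]
  · exact ecv1q0
  · exact ecv2q0
  · exact ecv3q0
  · exact ecv4q0
  · rw [crv5, c3g_v]
  · exact tbF_on ⟨hq, fun _ => on0⟩
  · exact tbF_on (onc hq (by decide))
  · exact tbF_on (onc hq (by decide))
  · exact tbF_on (onc hq (by decide))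
  · exact tbF_on (onc hq (by decide))
  · exact tbF_on (onc hq (by decide))
  · intro X g0 g1
    refine lin_of g0 g1 fun L hL hX => ?_
    simp only [kn4q0, kf4q0, kp4q0, kn5q0, kf5q0, kp5q0, bn4q0, bn3q0, bn2q0, bn1q0, kn0q0, kf0q0, kf0q0_9, kf0q0_12, kp0q0, kp0q0_3, kp0q0_8, kn1q0, kf1q0, kp1q0, lm0m_v, hL]
    all_goals (clear hL; subst hX; ((try push_cast); all_goals (first | ring1 | (split_ifs <;> first | (exfalso; linarith) | ring1 | ((repeat first | erw [if_pos (by linarith)] | erw [if_neg (by linarith)]); ring1)))))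
  · intro X g0 g1
    refine lin_of g0 g1 fun L hL hX => ?_
    simp only [kn4q0, kf4q0, kp4q0, kn5q0, kf5q0, kp5q0, bn4q0, bn3q0, bn2q0, bn1q0, kn0q0, kf0q0, kf0q0_9, kf0q0_12, kp0q0, kp0q0_3, kp0q0_8, kn1q0, kf1q0, kp1q0, kn2q0, kf2q0, kp2q0, lm1m_v, hL]
    all_goals (clear hL; subst hX; ((try push_cast); all_goals (first | ring1 | (split_ifs <;> first | (exfalso; linarith) | ring1 | ((repeat first | erw [if_pos (by linarith)] | erw [if_neg (by linarith)]); ring1)))))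
  · intro X g0 g1
    refine lin_of g0 g1 fun L hL hX => ?_
    simp only [kn4q0, kf4q0, kp4q0, kn5q0, kf5q0, kp5q0, bn4q0, bn3q0, bn2q0, bn1q0, kn0q0, kf0q0, kf0q0_9, kf0q0_12, kp0q0, kp0q0_3, kp0q0_8, kn2q0, kf2q0, kp2q0, kn3q0, kf3q0, kp3q0, lm2m_v, hL]
    all_goals (clear hL; subst hX; ((try push_cast); all_goals (first | ring1 | (split_ifs <;> first | (exfalso; linarith) | ring1 | ((repeat first | erw [if_pos (by linarith)] | erw [if_neg (by linarith)]); ring1)))))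
  · intro X g0 g1
    refine lin_of g0 g1 fun L hL hX => ?_
    simp only [kn4q0, kf4q0, kp4q0, kn5q0, kf5q0, kp5q0, bn4q0, bn3q0, bn2q0, bn1q0, kn0q0, kf0q0, kf0q0_9, kf0q0_12, kp0q0, kp0q0_3, kp0q0_8, kn3q0, kf3q0, kp3q0, lm3m_v, hL]
    all_goals (clear hL; subst hX; ((try push_cast); all_goals (first | ring1 | (split_ifs <;> first | (exfalso; linarith) | ring1 | ((repeat first | erw [if_pos (by linarith)] | erw [if_neg (by linarith)]); ring1)))))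
  · intro X g0 g1
    refine lin_of g0 g1 fun L hL hX => ?_
    simp only [kn4q0, kf4q0, kp4q0, kn5q0, kf5q0, kp5q0, bn4q0, bn3q0, bn2q0, bn1q0, kn0q0, kf0q0, kf0q0_9, kf0q0_12, kp0q0, kp0q0_3, kp0q0_8, lm4m_v, hL]
    all_goals (clear hL; subst hX; ((try push_cast); all_goals (first | ring1 | (split_ifs <;> first | (exfalso; linarith) | ring1 | ((repeat first | erw [if_pos (by linarith)] | erw [if_neg (by linarith)]); ring1)))))
theorem thKN1 {x : ℝ} (h : Pins PP tKN x) : ∀ X y, InQ 1 y → 1 ≤ qqn X y → qqn X y ≤ 3 →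
    thd PP tKN 1 X y x = (pcN 1).K.v X y x := by
  intro X y hq k1 k3
  have hy0 := hq.nonneg
  have hy2 := hq.le_two
  have hyl := hq.1
  have hyr := hq.2
  have on0 : h0 * y < 1 := on_half (by linarith)
  refine third5 h hq (F := fun X => rknq1.v X y x) (x0 := c1g.v y) (x1 := cv1m.v y) (x2 := cv2m.v y) (x3 := cv3m.v y) (x4 := cv4m.v y) (x5 := c3g.v y)
    (v0 := kn0q1.v y x) (v1 := kn1q1.v y x) (v2 := kn2q1.v y x) (v3 := kn3q1.v y x) (v4 := kn4q1.v y x) (v5 := kn5q1.v y x)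
    ?_ ?_ ?_ ?_ ?_ ?_ ?_ ?_ ?_ ?_ ?_ ?_ (fun X => rfl) ?_ ?_ ?_ ?_ ?_ k1 k3
  · rw [crv0]; rw [c1g_v]
  · exact ecv1q1
  · exact ecv2q1
  · exact ecv3q1
  · exact ecv4q1
  · rw [crv5, c3g_v]
  · exact tbF_on ⟨hq, fun _ => on0⟩
  · exact tbF_on (onc hq (by decide))
  · exact tbF_on (onc hq (by decide))
  · exact tbF_on (onc hq (by decide))
  · exact tbF_on (onc hq (by decide))
  · exact tbF_on (onc hq (by decide))
  · intro X g0 g1
    refine lin_of g0 g1 fun L hL hX => ?_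
    simp only [rknq1_36, rknq1_42, rknq1_43, rknq1_47, rknq1_48, rknq1_49, rknq1_51, rknq1_60, rknq1_61, rknq1_62, rknq1_97, kn4q1, kf4q1, kp4q1, kn5q1, kf5q1, kp5q1, bn4q1, kn3q1, kf3q1, kf3q1_4, kf3q1_39, kf3q1_40, kf3q1_46, kf3q1_48, kf3q1_67, kp3q1, kp3q1_4, kp3q1_41, kp3q1_42, kp3q1_46, kp3q1_54, kp3q1_79, bn3q1, bf3q1, bf3q1_3, bd3q1, bd3q1_3, bn2q1, kn2q1, kf2q1, kp2q1, bn1q1, kn0q1, kf0q1, kf0q1_10, kp0q1, kp0q1_9, kn1q1, kf1q1, kp1q1, lm0m_v, hL]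
    all_goals (clear hL; subst hX; ((try push_cast); all_goals (first | ring1 | (split_ifs <;> first | (exfalso; linarith) | ring1 | ((repeat first | erw [if_pos (by linarith)] | erw [if_neg (by linarith)]); ring1)))))
  · intro X g0 g1
    refine lin_of g0 g1 fun L hL hX => ?_
    simp only [rknq1_36, rknq1_42, rknq1_43, rknq1_47, rknq1_48, rknq1_49, rknq1_51, rknq1_60, rknq1_61, rknq1_62, rknq1_97, kn4q1, kf4q1, kp4q1, kn5q1, kf5q1, kp5q1, bn4q1, kn3q1, kf3q1, kf3q1_4, kf3q1_39, kf3q1_40, kf3q1_46, kf3q1_48, kf3q1_67, kp3q1, kp3q1_4, kp3q1_41, kp3q1_42, kp3q1_46, kp3q1_54, kp3q1_79, bn3q1, bf3q1, bf3q1_3, bd3q1, bd3q1_3, bn2q1, kn2q1, kf2q1, kp2q1, bn1q1, kn0q1, kf0q1, kf0q1_10, kp0q1, kp0q1_9, kn1q1, kf1q1, kp1q1, lm1m_v, hL]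
    all_goals (clear hL; subst hX; ((try push_cast); all_goals (first | ring1 | (split_ifs <;> first | (exfalso; linarith) | ring1 | ((repeat first | erw [if_pos (by linarith)] | erw [if_neg (by linarith)]); ring1)))))
  · intro X g0 g1
    refine lin_of g0 g1 fun L hL hX => ?_
    simp only [rknq1_36, rknq1_42, rknq1_43, rknq1_47, rknq1_48, rknq1_49, rknq1_51, rknq1_60, rknq1_61, rknq1_62, rknq1_97, kn4q1, kf4q1, kp4q1, kn5q1, kf5q1, kp5q1, bn4q1, kn3q1, kf3q1, kf3q1_4, kf3q1_39, kf3q1_40, kf3q1_46, kf3q1_48, kf3q1_67, kp3q1, kp3q1_4, kp3q1_41, kp3q1_42, kp3q1_46, kp3q1_54, kp3q1_79, bn3q1, bf3q1, bf3q1_3, bd3q1, bd3q1_3, bn2q1, kn2q1, kf2q1, kp2q1, bn1q1, kn0q1, kf0q1, kf0q1_10, kp0q1, kp0q1_9, lm2m_v, hL]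
    all_goals (clear hL; subst hX; ((try push_cast); all_goals (first | ring1 | (split_ifs <;> first | (exfalso; linarith) | ring1 | ((repeat first | erw [if_pos (by linarith)] | erw [if_neg (by linarith)]); ring1)))))
  · intro X g0 g1
    refine lin_of g0 g1 fun L hL hX => ?_
    simp only [rknq1_36, rknq1_42, rknq1_43, rknq1_47, rknq1_48, rknq1_49, rknq1_51, rknq1_60, rknq1_61, rknq1_62, rknq1_97, kn4q1, kf4q1, kp4q1, kn5q1, kf5q1, kp5q1, bn4q1, kn3q1, kf3q1, kf3q1_4, kf3q1_39, kf3q1_40, kf3q1_46, kf3q1_48, kf3q1_67, kp3q1, kp3q1_4, kp3q1_41, kp3q1_42, kp3q1_46, kp3q1_54, kp3q1_79, bn3q1, bf3q1, bf3q1_3, bd3q1, bd3q1_3, bn2q1, kn2q1, kf2q1, kp2q1, bn1q1, kn0q1, kf0q1, kf0q1_10, kp0q1, kp0q1_9, lm3m_v, hL]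
    all_goals (clear hL; subst hX; ((try push_cast); all_goals (first | ring1 | (split_ifs <;> first | (exfalso; linarith) | ring1 | ((repeat first | erw [if_pos (by linarith)] | erw [if_neg (by linarith)]); ring1)))))
  · intro X g0 g1
    refine lin_of g0 g1 fun L hL hX => ?_
    simp only [rknq1_36, rknq1_42, rknq1_43, rknq1_47, rknq1_48, rknq1_49, rknq1_51, rknq1_60, rknq1_61, rknq1_62, rknq1_97, kn4q1, kf4q1, kp4q1, kn5q1, kf5q1, kp5q1, bn4q1, kn3q1, kf3q1, kf3q1_4, kf3q1_39, kf3q1_40, kf3q1_46, kf3q1_48, kf3q1_67, kp3q1, kp3q1_4, kp3q1_41, kp3q1_42, kp3q1_46, kp3q1_54, kp3q1_79, bn3q1, bf3q1, bf3q1_3, bd3q1, bd3q1_3, bn2q1, kn2q1, kf2q1, kp2q1, bn1q1, kn0q1, kf0q1, kf0q1_10, kp0q1, kp0q1_9, lm4m_v, hL]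
    all_goals (clear hL; subst hX; ((try push_cast); all_goals (first | ring1 | (split_ifs <;> first | (exfalso; linarith) | ring1 | ((repeat first | erw [if_pos (by linarith)] | erw [if_neg (by linarith)]); ring1)))))
theorem thKN2 {x : ℝ} (h : Pins PP tKN x) : ∀ X y, InQ 2 y → 1 ≤ qqn X y → qqn X y ≤ 3 →
    thd PP tKN 2 X y x = (pcN 2).K.v X y x := by
  intro X y hq k1 k3
  have hy0 := hq.nonneg
  have hy2 := hq.le_two
  have hyl := hq.1
  have hyr := hq.2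
  refine third5 h hq (F := fun X => rknq2.v X y x) (x0 := c1g.v y) (x1 := cv1p.v y) (x2 := cv2p.v y) (x3 := cv3p.v y) (x4 := cv4p.v y) (x5 := c3g.v y)
    (v0 := tKN 0 2 y x) (v1 := kn1q2.v y x) (v2 := kn2q2.v y x) (v3 := kn3q2.v y x) (v4 := kn4q2.v y x) (v5 := kn5q2.v y x)
    ?_ ?_ ?_ ?_ ?_ ?_ ?_ ?_ ?_ ?_ ?_ ?_ (fun X => rfl) ?_ ?_ ?_ ?_ ?_ k1 k3
  · rw [crv0]; rw [c1g_v]
  · exact ecv1q2
  · exact ecv2q2
  · exact ecv3q2
  · exact ecv4q2
  · rw [crv5, c3g_v]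
  · rfl
  · exact tbF_on (onc hq (by decide))
  · exact tbF_on (onc hq (by decide))
  · exact tbF_on (onc hq (by decide))
  · exact tbF_on (onc hq (by decide))
  · exact tbF_on (onc hq (by decide))
  · intro X g0 g1
    refine lin_of g0 g1 fun L hL hX => ?_
    by_cases on : h0 * y < 1
    · have e0 : tKN 0 2 y x = knc02.v (c1g.v y) x := by
        rw [c1g_v]; exact tbF_on ⟨hq, fun _ => on⟩
      have e1 : yag.v (c1g.v y) = y := by rw [c1g_v]; exact yag_v hy0 on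
      have hlt := on_lt on
      obtain ⟨c0, c2⟩ := c1g_sq hy0 on
      rw [e0]
      rcases le_or_gt (y - (1153 : ℕ) / (1000 : ℕ)) 0 with c | c
      · simp only [rknq2_36, rknq2_41, rknq2_42, rknq2_46, rknq2_47, rknq2_48, rknq2_50, rknq2_59, rknq2_60, rknq2_61, rknq2_95, rknq2_122, rknq2_124, kn4q2, kf4q2, kp4q2, kn5q2, kf5q2, kp5q2, kp5q2_9, bn4q2, kn3q2, kf3q2, kf3q2_4, kf3q2_62, kf3q2_63, kf3q2_69, kf3q2_71, kf3q2_90, kp3q2, kp3q2_4, kp3q2_68, kp3q2_69, kp3q2_73, kp3q2_81, kp3q2_104, bn3q2, bf3q2, bf3q2_3, bd3q2, bd3q2_3, bn2q2, kn2q2, kf2q2, kp2q2, bn1q2, kn0q2, kf0q2, kp0q2, kp0q2_3, n0n, n0b, n0d, kn1q2, kf1q2, kp1q2, knc02, kfc02, kpc02, kpc02_4, lm0p_v, hL, e1, if_pos c]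
        all_goals (clear hL; subst hX; ((try push_cast); all_goals (first | ring1 | (split_ifs <;> first | (exfalso; linarith) | ring1 | ((repeat first | erw [if_pos (by linarith)] | erw [if_neg (by linarith)]); ring1)))))
      · have hc1 : c1g.v y < 1 / 16 := by
          push_cast at c
          nlinarith
        have hc' : ¬ (y - (1153 : ℕ) / (1000 : ℕ) ≤ 0) := not_le.2 c
        have kn1 := kcg_near (p := -c1g.v y) (x := x) (by linarith) (by linarith)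
        have kn2 := kcg_near (p := c1g.v y) (x := x) (by linarith) (by linarith)
        simp only [rknq2_36, rknq2_41, rknq2_42, rknq2_46, rknq2_47, rknq2_48, rknq2_50, rknq2_59, rknq2_60, rknq2_61, rknq2_95, rknq2_122, rknq2_124, kn4q2, kf4q2, kp4q2, kn5q2, kf5q2, kp5q2, kp5q2_9, bn4q2, kn3q2, kf3q2, kf3q2_4, kf3q2_62, kf3q2_63, kf3q2_69, kf3q2_71, kf3q2_90, kp3q2, kp3q2_4, kp3q2_68, kp3q2_69, kp3q2_73, kp3q2_81, kp3q2_104, bn3q2, bf3q2, bf3q2_3, bd3q2, bd3q2_3, bn2q2, kn2q2, kf2q2, kp2q2, bn1q2, kn0q2, kf0q2, kp0q2, kp0q2_3, n0n, n0b, n0d, kn1q2, kf1q2, kp1q2, knc02, kfc02, kpc02, kpc02_4, lm0p_v, hL, e1, if_neg hc', abs_neg, abs_of_nonneg c0, neg_neg, kn1, kn2]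
        all_goals (clear hL; subst hX; (try push_cast); (try simp only [← c2]); ((try push_cast); all_goals (first | ring1 | (split_ifs <;> first | (exfalso; linarith) | ring1 | ((repeat first | erw [if_pos (by linarith)] | erw [if_neg (by linarith)]); ring1)))))
    · have off : 1 ≤ h0 * y := not_lt.1 on
      have hc := c1g_off off
      have e0 : tKN 0 2 y x = 0 := tbF_off off
      have hlt := lt_off off
      simp only [rknq2_36, rknq2_41, rknq2_42, rknq2_46, rknq2_47, rknq2_48, rknq2_50, rknq2_59, rknq2_60, rknq2_61, rknq2_95, rknq2_122, rknq2_124, kn4q2, kf4q2, kp4q2, kn5q2, kf5q2, kp5q2, kp5q2_9, bn4q2, kn3q2, kf3q2, kf3q2_4, kf3q2_62, kf3q2_63, kf3q2_69, kf3q2_71, kf3q2_90, kp3q2, kp3q2_4, kp3q2_68, kp3q2_69, kp3q2_73, kp3q2_81, kp3q2_104, bn3q2, bf3q2, bf3q2_3, bd3q2, bd3q2_3, bn2q2, kn2q2, kf2q2, kp2q2, bn1q2, kn0q2, kf0q2, kp0q2, kp0q2_3, n0n, n0b, n0d, kn1q2, kf1q2,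 kp1q2, lm0p_v, hL, hc, e0]
      all_goals (clear hL; subst hX; (try simp only [hc]); ((try push_cast); all_goals (first | ring1 | (split_ifs <;> first | (exfalso; linarith) | ring1 | ((repeat first | erw [if_pos (by linarith)] | erw [if_neg (by linarith)]); ring1)))))
  · intro X g0 g1
    refine lin_of g0 g1 fun L hL hX => ?_
    simp only [rknq2_36, rknq2_41, rknq2_42, rknq2_46, rknq2_47, rknq2_48, rknq2_50, rknq2_59, rknq2_60, rknq2_61, rknq2_95, rknq2_122, rknq2_124, kn4q2, kf4q2, kp4q2, kn5q2, kf5q2, kp5q2, kp5q2_9, bn4q2, kn3q2, kf3q2, kf3q2_4, kf3q2_62, kf3q2_63, kf3q2_69, kf3q2_71, kf3q2_90, kp3q2, kp3q2_4, kp3q2_68, kp3q2_69, kp3q2_73, kp3q2_81, kp3q2_104, bn3q2, bf3q2, bf3q2_3, bd3q2, bd3q2_3, bn2q2, kn2q2, kf2q2, kp2q2, bn1q2, kn0q2, kf0q2, kp0q2, kp0q2_3, n0n, n0b, n0d, kn1q2, kf1q2, kp1q2, lm1p_v, hL]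
    all_goals (clear hL; subst hX; ((try push_cast); all_goals (first | ring1 | (split_ifs <;> first | (exfalso; linarith) | ring1 | ((repeat first | erw [if_pos (by linarith)] | erw [if_neg (by linarith)]); ring1)))))
  · intro X g0 g1
    refine lin_of g0 g1 fun L hL hX => ?_
    simp only [rknq2_36, rknq2_41, rknq2_42, rknq2_46, rknq2_47, rknq2_48, rknq2_50, rknq2_59, rknq2_60, rknq2_61, rknq2_95, rknq2_122, rknq2_124, kn4q2, kf4q2, kp4q2, kn5q2, kf5q2, kp5q2, kp5q2_9, bn4q2, kn3q2, kf3q2, kf3q2_4, kf3q2_62, kf3q2_63, kf3q2_69, kf3q2_71, kf3q2_90, kp3q2, kp3q2_4, kp3q2_68, kp3q2_69, kp3q2_73, kp3q2_81, kp3q2_104, bn3q2, bf3q2, bf3q2_3, bd3q2, bd3q2_3, bn2q2, kn2q2, kf2q2, kp2q2, bn1q2, kn0q2, kf0q2, kp0q2, kp0q2_3, n0n, n0b, n0d, lm2p_v, hL]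
    all_goals (clear hL; subst hX; ((try push_cast); all_goals (first | ring1 | (split_ifs <;> first | (exfalso; linarith) | ring1 | ((repeat first | erw [if_pos (by linarith)] | erw [if_neg (by linarith)]); ring1)))))
  · intro X g0 g1
    refine lin_of g0 g1 fun L hL hX => ?_
    simp only [rknq2_36, rknq2_41, rknq2_42, rknq2_46, rknq2_47, rknq2_48, rknq2_50, rknq2_59, rknq2_60, rknq2_61, rknq2_95, rknq2_122, rknq2_124, kn4q2, kf4q2, kp4q2, kn5q2, kf5q2, kp5q2, kp5q2_9, bn4q2, kn3q2, kf3q2, kf3q2_4, kf3q2_62, kf3q2_63, kf3q2_69, kf3q2_71, kf3q2_90, kp3q2, kp3q2_4, kp3q2_68, kp3q2_69, kp3q2_73, kp3q2_81, kp3q2_104, bn3q2, bf3q2, bf3q2_3, bd3q2, bd3q2_3, bn2q2, kn2q2, kf2q2, kp2q2, bn1q2, kn0q2, kf0q2, kp0q2, kp0q2_3, n0n, n0b, n0d, lm3p_v, hL]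
    all_goals (clear hL; subst hX; ((try push_cast); all_goals (first | ring1 | (split_ifs <;> first | (exfalso; linarith) | ring1 | ((repeat first | erw [if_pos (by linarith)] | erw [if_neg (by linarith)]); ring1)))))
  · intro X g0 g1
    refine lin_of g0 g1 fun L hL hX => ?_
    simp only [rknq2_36, rknq2_41, rknq2_42, rknq2_46, rknq2_47, rknq2_48, rknq2_50, rknq2_59, rknq2_60, rknq2_61, rknq2_95, rknq2_122, rknq2_124, kn4q2, kf4q2, kp4q2, kn5q2, kf5q2, kp5q2, kp5q2_9, bn4q2, kn3q2, kf3q2, kf3q2_4, kf3q2_62, kf3q2_63, kf3q2_69, kf3q2_71, kf3q2_90, kp3q2, kp3q2_4, kp3q2_68, kp3q2_69, kp3q2_73, kp3q2_81, kp3q2_104, bn3q2, bf3q2, bf3q2_3, bd3q2, bd3q2_3, bn2q2, kn2q2, kf2q2, kp2q2, bn1q2, kn0q2, kf0q2, kp0q2, kp0q2_3, n0n, n0b, n0d, lm4p_v, hL]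
    all_goals (clear hL; subst hX; ((try push_cast); all_goals (first | ring1 | (split_ifs <;> first | (exfalso; linarith) | ring1 | ((repeat first | erw [if_pos (by linarith)] | erw [if_neg (by linarith)]); ring1)))))
theorem thKN3 {x : ℝ} (h : Pins PP tKN x) : ∀ X y, InQ 3 y → 1 ≤ qqn X y → qqn X y ≤ 3 →
    thd PP tKN 3 X y x = (pcN 3).K.v X y x := by
  intro X y hq k1 k3
  have hy0 := hq.nonneg
  have hy2 := hq.le_two
  have hyl := hq.1
  have hyr := hq.2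
  refine third5 h hq (F := fun X => rknq3.v X y x) (x0 := 0) (x1 := cv1r.v y) (x2 := cv2r.v y) (x3 := cv3r.v y) (x4 := cv4r.v y) (x5 := c3g.v y)
    (v0 := 0) (v1 := kn1q3.v y x) (v2 := kn2q3.v y x) (v3 := kn3q3.v y x) (v4 := kn4q3.v y x) (v5 := kn5q3.v y x)
    ?_ ?_ ?_ ?_ ?_ ?_ ?_ ?_ ?_ ?_ ?_ ?_ (fun X => rfl) ?_ ?_ ?_ ?_ ?_ k1 k3
  · rw [crv0]; exact c1n_off (off_y hyl)
  · exact ecv1q3 hyl
  · exact ecv2q3 hyl
  · exact ecv3q3 hyl
  · exact ecv4q3 hyl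
  · rw [crv5, c3g_v]
  · exact tbF_off (off_y hyl)
  · exact tbF_on (onc hq (by decide))
  · exact tbF_on (onc hq (by decide))
  · refine (tbF_on (onc hq (by decide))).trans ?_
    show knc33.v (c3n y) x = _
    simp only [kn3q3, kf3q3, kp3q3, knc33, kfc33, kpc33, ycg_v hy0 hy2, c3g_v, cv1r, cv2r, cv3r, cv4r]
    all_goals (try rfl)
  · refine (tbF_on (onc hq (by decide))).trans ?_
    show knc43.v (c3n y) x = _
    simp only [kn4q3, kf4q3, kp4q3, knc43, kfc43, kpc43, ycg_v hy0 hy2, c3g_v, cv1r, cv2r, cv3r, cv4r]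
    all_goals (try rfl)
  · refine (tbF_on (onc hq (by decide))).trans ?_
    show knc53.v (c3n y) x = _
    simp only [kn5q3, kf5q3, kp5q3, kp5q3_9, knc53, kfc53, kpc53, kpc53_9, ycg_v hy0 hy2, c3g_v, c3g_v]
    all_goals (try rfl)
  · intro X g0 g1
    refine lin_of g0 g1 fun L hL hX => ?_
    simp only [kn4q3, kf4q3, kp4q3, kn5q3, kf5q3, kp5q3, kp5q3_9, bn4q3, bn3q3, bn2q3, bn1q3, kn1q3, kf1q3, kp1q3, hL]
    all_goals (clear hL; subst hX; ((try push_cast); all_goals (first | ring1 | (split_ifs <;> first | (exfalso; linarith) | ring1 | ((repeat first | erw [if_pos (by linarith)] | erw [if_neg (by linarith)]); ring1)))))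
  · intro X g0 g1
    refine lin_of g0 g1 fun L hL hX => ?_
    simp only [kn4q3, kf4q3, kp4q3, kn5q3, kf5q3, kp5q3, kp5q3_9, bn4q3, bn3q3, bn2q3, bn1q3, kn1q3, kf1q3, kp1q3, kn2q3, kf2q3, kp2q3, lm1r_v, hL]
    all_goals (clear hL; subst hX; ((try push_cast); all_goals (first | ring1 | (split_ifs <;> first | (exfalso; linarith) | ring1 | ((repeat first | erw [if_pos (by linarith)] | erw [if_neg (by linarith)]); ring1)))))
  · intro X g0 g1
    refine lin_of g0 g1 fun L hL hX => ?_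
    simp only [kn4q3, kf4q3, kp4q3, kn5q3, kf5q3, kp5q3, kp5q3_9, bn4q3, bn3q3, bn2q3, bn1q3, kn2q3, kf2q3, kp2q3, kn3q3, kf3q3, kp3q3, lm2r_v, hL]
    all_goals (clear hL; subst hX; ((try push_cast); all_goals (first | ring1 | (split_ifs <;> first | (exfalso; linarith) | ring1 | ((repeat first | erw [if_pos (by linarith)] | erw [if_neg (by linarith)]); ring1)))))
  · intro X g0 g1
    refine lin_of g0 g1 fun L hL hX => ?_
    simp only [kn4q3, kf4q3, kp4q3, kn5q3, kf5q3, kp5q3, kp5q3_9, bn4q3, bn3q3, bn2q3, bn1q3, kn3q3, kf3q3, kp3q3, lm3r_v, hL]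
    all_goals (clear hL; subst hX; ((try push_cast); all_goals (first | ring1 | (split_ifs <;> first | (exfalso; linarith) | ring1 | ((repeat first | erw [if_pos (by linarith)] | erw [if_neg (by linarith)]); ring1)))))
  · intro X g0 g1
    refine lin_of g0 g1 fun L hL hX => ?_
    simp only [kn4q3, kf4q3, kp4q3, kn5q3, kf5q3, kp5q3, kp5q3_9, bn4q3, bn3q3, bn2q3, bn1q3, lm4r_v, hL]
    all_goals (clear hL; subst hX; ((try push_cast); all_goals (first | ring1 | (split_ifs <;> first | (exfalso; linarith) | ring1 | ((repeat first | erw [if_pos (by linarith)] | erw [if_neg (by linarith)]); ring1)))))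
theorem pzeroL (x : ℝ) : ∀ j, PP.ρ j ≤ 1 → (ndF j 0).L.v (crd j 0 0) x = (ndF 0 0).L.v (crd 0 0 0) x := by
  intro j hj
  fin_cases j
  · rfl
  · show l1q0.v 0 x = l0q0.v 0 x
    simp only [l1q0, bx1q0, l0q0, txg, txg_4, txg_6, txg_27, txg_61, txg_78, txg_80, txg_83, txg_86, txg_134, txg_153, txg_196, txg_198, txg_219, txg_259, txg_279, kcg, kcg_3, kcg_6, kcg_9, kcg_12, kcg_13, kcg_16, kcg_27, kcg_35, kcg_38, kcg_47, kcg_55, kcg_56, kcg_59, kcg_67, kcg_74, kcg_75, kcg_79, kcg_87, kcg_92, kcg_96, kcg_106, kcg_116, kcg_119, kcg_120, kcg_124, kcg_135, kcg_140, kcg_145, kcg_155, kcg_163, kcg_164, kcg_169, kcg_178, kcg_186, kcg_191, kcg_201, kcg_206, kcg_211, kcg_219, kcg_220, kcg_221, kcg_244, kcg_255, kcg_276, kcg_277, kcg_296, cv1m, cv2m, cv3m, cv4m, cv1p, cv2p, cv3p, cv4p, cv1r, cv2r, cv3r, cv4r, c1g_v, swg_v, c3g_v, c1n_zero, swn_zero]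
    ((try norm_num) <;> (try ring))
  · show l2q0.v 0 x = l0q0.v 0 x
    simp only [l2q0, bx2q0, l0q0, txg, txg_4, txg_6, txg_27, txg_61, txg_78, txg_80, txg_83, txg_86, txg_134, txg_153, txg_196, txg_198, txg_219, txg_259, txg_279, kcg, kcg_3, kcg_6, kcg_9, kcg_12, kcg_13, kcg_16, kcg_27, kcg_35, kcg_38, kcg_47, kcg_55, kcg_56, kcg_59, kcg_67, kcg_74, kcg_75, kcg_79, kcg_87, kcg_92, kcg_96, kcg_106, kcg_116, kcg_119, kcg_120, kcg_124, kcg_135, kcg_140, kcg_145, kcg_155, kcg_163, kcg_164, kcg_169, kcg_178, kcg_186, kcg_191, kcg_201, kcg_206, kcg_211, kcg_219, kcg_220, kcg_221, kcg_244, kcg_255, kcg_276, kcg_277, kcg_296, cv1m, cv2m, cv3m, cv4m, cv1p, cv2p, cv3p, cv4p, cv1r, cv2r, cv3r, cv4r, c1g_v, swg_v, c3g_v, c1n_zero, swn_zero]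
    ((try norm_num) <;> (try ring))
  · exact absurd (show (6 / 5 : ℝ) ≤ 1 from hj) (by norm_num)
  · exact absurd (show (8 / 5 : ℝ) ≤ 1 from hj) (by norm_num)
  · exact absurd (show (2 : ℝ) ≤ 1 from hj) (by norm_num)
theorem pmidL (x : ℝ) : ∀ j, PP.ρ j ≤ 1 → (ndF j 2).L.v (crd j 2 1) x = (ndF 0 2).L.v (crd 0 2 1) x := by
  intro j hj
  fin_cases j
  · rfl
  · show l1q2.v 1 x = lc02.v (c1n 1) x
    simp only [l1q2, bx1q2, bx1q2_3, lc02, lc02_7, lc02_8, txg, txg_4, txg_6, txg_27, txg_61, txg_78, txg_80, txg_83, txg_86, txg_134, txg_153, txg_196, txg_198, txg_219, txg_259, txg_279, kcg, kcg_3, kcg_6, kcg_9, kcg_12, kcg_13, kcg_16, kcg_27, kcg_35, kcg_38, kcg_47, kcg_55, kcg_56, kcg_59, kcg_67, kcg_74, kcg_75, kcg_79, kcg_87, kcg_92, kcg_96, kcg_106, kcg_116, kcg_119, kcg_120, kcg_124, kcg_135, kcg_140, kcg_145, kcg_155, kcg_163, kcg_164, kcg_169, kcg_178, kcg_186, kcg_191, kcg_201,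 kcg_206, kcg_211, kcg_219, kcg_220, kcg_221, kcg_244, kcg_255, kcg_276, kcg_277, kcg_296, cv1m, cv2m, cv3m, cv4m, cv1p, cv2p, cv3p, cv4p, cv1r, cv2r, cv3r, cv4r, c1g_v, swg_v, c3g_v, c1n_one, swn_one, ya1]
    ((try norm_num) <;> (try ring))
  · show l2q2.v 1 x = lc02.v (c1n 1) x
    simp only [l2q2, bx2q2, bx2q2_3, lc02, lc02_7, lc02_8, txg, txg_4, txg_6, txg_27, txg_61, txg_78, txg_80, txg_83, txg_86, txg_134, txg_153, txg_196, txg_198, txg_219, txg_259, txg_279, kcg, kcg_3, kcg_6, kcg_9, kcg_12, kcg_13, kcg_16, kcg_27, kcg_35, kcg_38, kcg_47, kcg_55, kcg_56, kcg_59, kcg_67, kcg_74, kcg_75, kcg_79, kcg_87, kcg_92, kcg_96, kcg_106, kcg_116, kcg_119, kcg_120, kcg_124, kcg_135, kcg_140, kcg_145, kcg_155, kcg_163, kcg_164, kcg_169, kcg_178, kcg_186, kcg_191, kcg_201, kcg_206, kcg_211, kcg_219, kcg_220, kcg_221, kcg_244, kcg_255, kcg_276, kcg_277, kcg_296, cv1m, cv2m, cv3m, cv4m, cv1p,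 cv2p, cv3p, cv4p, cv1r, cv2r, cv3r, cv4r, c1g_v, swg_v, c3g_v, c1n_one, swn_one, ya1]
    ((try norm_num) <;> (try ring))
  · exact absurd (show (6 / 5 : ℝ) ≤ 1 from hj) (by norm_num)
  · exact absurd (show (8 / 5 : ℝ) ≤ 1 from hj) (by norm_num)
  · exact absurd (show (2 : ℝ) ≤ 1 from hj) (by norm_num)
theorem ptopL (x : ℝ) : ∀ j, j ≠ 0 → (ndF j 3).L.v (crd j 3 2) x = 0 := by
  intro j hj
  fin_cases j
  · exact absurd rfl hj
  · show l1q3.v 2 x = 0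
    simp only [l1q3, bx1q3, cv1m, cv2m, cv3m, cv4m, cv1p, cv2p, cv3p, cv4p, cv1r, cv2r, cv3r, cv4r, c1g_v, swg_v, c3g_v, swn_two, c1n_two, c3n_two, yc0]
    norm_num
  · show l2q3.v 2 x = 0
    simp only [l2q3, bx2q3, cv1m, cv2m, cv3m, cv4m, cv1p, cv2p, cv3p, cv4p, cv1r, cv2r, cv3r, cv4r, c1g_v, swg_v, c3g_v, swn_two, c1n_two, c3n_two, yc0]
    norm_num
  · show lc33.v (c3n 2) x = 0
    simp only [lc33, bx3q3, cv1m, cv2m, cv3m, cv4m, cv1p, cv2p, cv3p, cv4p, cv1r, cv2r, cv3r, cv4r, c1g_v, swg_v, c3g_v, swn_two, c1n_two, c3n_two, yc0]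
    norm_num
  · show lc43.v (c3n 2) x = 0
    simp only [lc43, bx4q3, cv1m, cv2m, cv3m, cv4m, cv1p, cv2p, cv3p, cv4p, cv1r, cv2r, cv3r, cv4r, c1g_v, swg_v, c3g_v, swn_two, c1n_two, c3n_two, yc0]
    norm_num
  · show lc53.v (c3n 2) x = 0
    simp only [lc53, lc53_7, lc53_8, lc53_9, lc53_12, lc53_14, txg, txg_4, txg_6, txg_27, txg_61, txg_78, txg_80, txg_83, txg_86, txg_134, txg_153, txg_196, txg_198, txg_219, txg_259, txg_279, kcg, kcg_3, kcg_6, kcg_9, kcg_12, kcg_13, kcg_16, kcg_27, kcg_35, kcg_38, kcg_47, kcg_55, kcg_56, kcg_59, kcg_67, kcg_74, kcg_75, kcg_79, kcg_87, kcg_92, kcg_96, kcg_106, kcg_116, kcg_119, kcg_120, kcg_124, kcg_135, kcg_140, kcg_145, kcg_155, kcg_163, kcg_164, kcg_169, kcg_178, kcg_186, kcg_191, kcg_201, kcg_206, kcg_211, kcg_219, kcg_220, kcg_221, kcg_244, kcg_255, kcg_276, kcg_277, kcg_296, cv1m, cv2m, cv3m, cv4m, cv1p, cv2p, cv3p, cv4p, cv1r, cv2r, cv3r,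 cv4r, c1g_v, swg_v, c3g_v, swn_two, c1n_two, c3n_two, yc0]
    norm_num
theorem thL0 {x : ℝ} (h : Pins PP tL x) : ∀ X y, InQ 0 y → 1 ≤ qqn X y → qqn X y ≤ 3 →
    thd PP tL 0 X y x = (pcF 0).L.v X y x := by
  intro X y hq k1 k3
  have hy0 := hq.nonneg
  have hy2 := hq.le_two
  have hyl := hq.1
  have hyr := hq.2
  have on0 : h0 * y < 1 := on_half (by linarith)
  refine third5 h hq (F := fun X => rxq0.v X y x) (x0 := c1g.v y) (x1 := cv1m.v y) (x2 := cv2m.v y) (x3 := cv3m.v y) (x4 := cv4m.v y) (x5 := c3g.v y)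
    (v0 := l0q0.v y x) (v1 := l1q0.v y x) (v2 := l2q0.v y x) (v3 := l3q0.v y x) (v4 := l4q0.v y x) (v5 := l5q0.v y x)
    ?_ ?_ ?_ ?_ ?_ ?_ ?_ ?_ ?_ ?_ ?_ ?_ (fun X => rfl) ?_ ?_ ?_ ?_ ?_ k1 k3
  · rw [crv0]; rw [c1g_v]
  · exact ecv1q0
  · exact ecv2q0
  · exact ecv3q0
  · exact ecv4q0
  · rw [crv5, c3g_v]
  · exact tbF_on ⟨hq, fun _ => on0⟩
  · exact tbF_on (onc hq (by decide))
  · exact tbF_on (onc hq (by decide))
  · exact tbF_on (onc hq (by decide))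
  · exact tbF_on (onc hq (by decide))
  · exact tbF_on (onc hq (by decide))
  · intro X g0 g1
    refine lin_of g0 g1 fun L hL hX => ?_
    simp only [l4q0, l5q0, l5q0_6, l5q0_7, l5q0_8, l0q0, l1q0, lm0m_v, hL]
    all_goals (clear hL; subst hX; ((try push_cast); all_goals (first | ring1 | (split_ifs <;> first | (exfalso; linarith) | ring1 | ((repeat first | erw [if_pos (by linarith)] | erw [if_neg (by linarith)]); ring1)))))
  · intro X g0 g1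
    refine lin_of g0 g1 fun L hL hX => ?_
    simp only [l4q0, l5q0, l5q0_6, l5q0_7, l5q0_8, l0q0, l1q0, l2q0, lm1m_v, hL]
    all_goals (clear hL; subst hX; ((try push_cast); all_goals (first | ring1 | (split_ifs <;> first | (exfalso; linarith) | ring1 | ((repeat first | erw [if_pos (by linarith)] | erw [if_neg (by linarith)]); ring1)))))
  · intro X g0 g1
    refine lin_of g0 g1 fun L hL hX => ?_
    simp only [l4q0, l5q0, l5q0_6, l5q0_7, l5q0_8, l0q0, l2q0, l3q0, lm2m_v, hL]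
    all_goals (clear hL; subst hX; ((try push_cast); all_goals (first | ring1 | (split_ifs <;> first | (exfalso; linarith) | ring1 | ((repeat first | erw [if_pos (by linarith)] | erw [if_neg (by linarith)]); ring1)))))
  · intro X g0 g1
    refine lin_of g0 g1 fun L hL hX => ?_
    simp only [l4q0, l5q0, l5q0_6, l5q0_7, l5q0_8, l0q0, l3q0, lm3m_v, hL]
    all_goals (clear hL; subst hX; ((try push_cast); all_goals (first | ring1 | (split_ifs <;> first | (exfalso; linarith) | ring1 | ((repeat first | erw [if_pos (by linarith)] | erw [if_neg (by linarith)]); ring1)))))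
  · intro X g0 g1
    refine lin_of g0 g1 fun L hL hX => ?_
    simp only [l4q0, l5q0, l5q0_6, l5q0_7, l5q0_8, l0q0, lm4m_v, hL]
    all_goals (clear hL; subst hX; ((try push_cast); all_goals (first | ring1 | (split_ifs <;> first | (exfalso; linarith) | ring1 | ((repeat first | erw [if_pos (by linarith)] | erw [if_neg (by linarith)]); ring1)))))
theorem thL1 {x : ℝ} (h : Pins PP tL x) : ∀ X y, InQ 1 y → 1 ≤ qqn X y → qqn X y ≤ 3 →
    thd PP tL 1 X y x = (pcF 1).L.v X y x := by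
  intro X y hq k1 k3
  have hy0 := hq.nonneg
  have hy2 := hq.le_two
  have hyl := hq.1
  have hyr := hq.2
  have on0 : h0 * y < 1 := on_half (by linarith)
  refine third5 h hq (F := fun X => rxq1.v X y x) (x0 := c1g.v y) (x1 := cv1m.v y) (x2 := cv2m.v y) (x3 := cv3m.v y) (x4 := cv4m.v y) (x5 := c3g.v y)
    (v0 := l0q1.v y x) (v1 := l1q1.v y x) (v2 := l2q1.v y x) (v3 := l3q1.v y x) (v4 := l4q1.v y x) (v5 := l5q1.v y x)
    ?_ ?_ ?_ ?_ ?_ ?_ ?_ ?_ ?_ ?_ ?_ ?_ (fun X => rfl) ?_ ?_ ?_ ?_ ?_ k1 k3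
  · rw [crv0]; rw [c1g_v]
  · exact ecv1q1
  · exact ecv2q1
  · exact ecv3q1
  · exact ecv4q1
  · rw [crv5, c3g_v]
  · exact tbF_on ⟨hq, fun _ => on0⟩
  · exact tbF_on (onc hq (by decide))
  · exact tbF_on (onc hq (by decide))
  · exact tbF_on (onc hq (by decide))
  · exact tbF_on (onc hq (by decide))
  · exact tbF_on (onc hq (by decide))
  · intro X g0 g1
    refine lin_of g0 g1 fun L hL hX => ?_
    simp only [rxq1_36, rxq1_38, rxq1_55, l4q1, l5q1, l5q1_7, l5q1_8, l5q1_9, l3q1, l3q1_4, l3q1_18, l3q1_54, l3q1_69, bx3q1, bx3q1_3, bx3q1_17, l2q1, l0q1, l1q1, lm0m_v, hL]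
    all_goals (clear hL; subst hX; ((try push_cast); all_goals (first | ring1 | (split_ifs <;> first | (exfalso; linarith) | ring1 | ((repeat first | erw [if_pos (by linarith)] | erw [if_neg (by linarith)]); ring1)))))
  · intro X g0 g1
    refine lin_of g0 g1 fun L hL hX => ?_
    simp only [rxq1_36, rxq1_38, rxq1_55, l4q1, l5q1, l5q1_7, l5q1_8, l5q1_9, l3q1, l3q1_4, l3q1_18, l3q1_54, l3q1_69, bx3q1, bx3q1_3, bx3q1_17, l2q1, l0q1, l1q1, lm1m_v, hL]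
    all_goals (clear hL; subst hX; ((try push_cast); all_goals (first | ring1 | (split_ifs <;> first | (exfalso; linarith) | ring1 | ((repeat first | erw [if_pos (by linarith)] | erw [if_neg (by linarith)]); ring1)))))
  · intro X g0 g1
    refine lin_of g0 g1 fun L hL hX => ?_
    simp only [rxq1_36, rxq1_38, rxq1_55, l4q1, l5q1, l5q1_7, l5q1_8, l5q1_9, l3q1, l3q1_4, l3q1_18, l3q1_54, l3q1_69, bx3q1, bx3q1_3, bx3q1_17, l2q1, l0q1, lm2m_v, hL]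
    all_goals (clear hL; subst hX; ((try push_cast); all_goals (first | ring1 | (split_ifs <;> first | (exfalso; linarith) | ring1 | ((repeat first | erw [if_pos (by linarith)] | erw [if_neg (by linarith)]); ring1)))))
  · intro X g0 g1
    refine lin_of g0 g1 fun L hL hX => ?_
    simp only [rxq1_36, rxq1_38, rxq1_55, l4q1, l5q1, l5q1_7, l5q1_8, l5q1_9, l3q1, l3q1_4, l3q1_18, l3q1_54, l3q1_69, bx3q1, bx3q1_3, bx3q1_17, l2q1, l0q1, lm3m_v, hL]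
    all_goals (clear hL; subst hX; ((try push_cast); all_goals (first | ring1 | (split_ifs <;> first | (exfalso; linarith) | ring1 | ((repeat first | erw [if_pos (by linarith)] | erw [if_neg (by linarith)]); ring1)))))
  · intro X g0 g1
    refine lin_of g0 g1 fun L hL hX => ?_
    simp only [rxq1_36, rxq1_38, rxq1_55, l4q1, l5q1, l5q1_7, l5q1_8, l5q1_9, l3q1, l3q1_4, l3q1_18, l3q1_54, l3q1_69, bx3q1, bx3q1_3, bx3q1_17, l2q1, l0q1, lm4m_v, hL]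
    all_goals (clear hL; subst hX; ((try push_cast); all_goals (first | ring1 | (split_ifs <;> first | (exfalso; linarith) | ring1 | ((repeat first | erw [if_pos (by linarith)] | erw [if_neg (by linarith)]); ring1)))))
theorem thL2 {x : ℝ} (h : Pins PP tL x) : ∀ X y, InQ 2 y → 1 ≤ qqn X y → qqn X y ≤ 3 →
    thd PP tL 2 X y x = (pcF 2).L.v X y x := by
  intro X y hq k1 k3
  have hy0 := hq.nonneg
  have hy2 := hq.le_two
  have hyl := hq.1
  have hyr := hq.2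
  refine third5 h hq (F := fun X => rxq2.v X y x) (x0 := c1g.v y) (x1 := cv1p.v y) (x2 := cv2p.v y) (x3 := cv3p.v y) (x4 := cv4p.v y) (x5 := c3g.v y)
    (v0 := tL 0 2 y x) (v1 := l1q2.v y x) (v2 := l2q2.v y x) (v3 := l3q2.v y x) (v4 := l4q2.v y x) (v5 := l5q2.v y x)
    ?_ ?_ ?_ ?_ ?_ ?_ ?_ ?_ ?_ ?_ ?_ ?_ (fun X => rfl) ?_ ?_ ?_ ?_ ?_ k1 k3
  · rw [crv0]; rw [c1g_v]
  · exact ecv1q2
  · exact ecv2q2
  · exact ecv3q2
  · exact ecv4q2
  · rw [crv5, c3g_v]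
  · rfl
  · exact tbF_on (onc hq (by decide))
  · exact tbF_on (onc hq (by decide))
  · exact tbF_on (onc hq (by decide))
  · exact tbF_on (onc hq (by decide))
  · exact tbF_on (onc hq (by decide))
  · intro X g0 g1
    refine lin_of g0 g1 fun L hL hX => ?_
    by_cases on : h0 * y < 1
    · have e0 : tL 0 2 y x = lc02.v (c1g.v y) x := by
        rw [c1g_v]; exact tbF_on ⟨hq, fun _ => on⟩
      have e1 : yag.v (c1g.v y) = y := by rw [c1g_v]; exact yag_v hy0 on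
      have hlt := on_lt on
      obtain ⟨c0, c2⟩ := c1g_sq hy0 on
      rw [e0]
      rcases le_or_gt (y - (1153 : ℕ) / (1000 : ℕ)) 0 with c | c
      · simp only [rxq2_36, rxq2_37, rxq2_55, rxq2_82, rxq2_84, l4q2, l5q2, l5q2_7, l5q2_8, l5q2_9, l5q2_12, l5q2_14, l3q2, l3q2_4, l3q2_58, l3q2_82, l3q2_97, bx3q2, bx3q2_3, bx3q2_57, l2q2, l0q2, l0q2_7, l0q2_8, n0x, l1q2, lc02, lc02_7, lc02_8, lm0p_v, hL, e1, if_pos c]
        all_goals (clear hL; subst hX; ((try push_cast); all_goals (first | ring1 | (split_ifs <;> first | (exfalso; linarith) | ring1 | ((repeat first | erw [if_pos (by linarith)] | erw [if_neg (by linarith)]); ring1)))))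
      · have hc1 : c1g.v y < 1 / 16 := by
          push_cast at c
          nlinarith
        have hc' : ¬ (y - (1153 : ℕ) / (1000 : ℕ) ≤ 0) := not_le.2 c
        have tn1 := fun c' => txg_nearL (p := -c1g.v y) (c := c') (x := x) (by linarith) (by linarith)
        have tn2 := fun c' => txg_nearR (p := c1g.v y) (c := c') (x := x) (by linarith) (by linarith)
        simp only [rxq2_36, rxq2_37, rxq2_55, rxq2_82, rxq2_84, l4q2, l5q2, l5q2_7, l5q2_8, l5q2_9, l5q2_12, l5q2_14, l3q2, l3q2_4, l3q2_58, l3q2_82, l3q2_97, bx3q2, bx3q2_3, bx3q2_57, l2q2, l0q2, l0q2_7, l0q2_8, n0x, l1q2, lc02, lc02_7, lc02_8, lm0p_v, hL, e1, if_neg hc', abs_neg, abs_of_nonneg c0, neg_neg, tn1, tn2]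
        all_goals (clear hL; subst hX; (try push_cast); (try simp only [← c2]); ((try push_cast); all_goals (first | ring1 | (split_ifs <;> first | (exfalso; linarith) | ring1 | ((repeat first | erw [if_pos (by linarith)] | erw [if_neg (by linarith)]); ring1)))))
    · have off : 1 ≤ h0 * y := not_lt.1 on
      have hc := c1g_off off
      have e0 : tL 0 2 y x = 0 := tbF_off off
      have hlt := lt_off off
      simp only [rxq2_36, rxq2_37, rxq2_55, rxq2_82, rxq2_84, l4q2, l5q2, l5q2_7, l5q2_8, l5q2_9, l5q2_12, l5q2_14, l3q2, l3q2_4, l3q2_58, l3q2_82, l3q2_97, bx3q2, bx3q2_3, bx3q2_57, l2q2, l0q2, l0q2_7, l0q2_8, n0x, l1q2, lm0p_v, hL, hc, e0]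
      all_goals (clear hL; subst hX; (try simp only [hc]); ((try push_cast); all_goals (first | ring1 | (split_ifs <;> first | (exfalso; linarith) | ring1 | ((repeat first | erw [if_pos (by linarith)] | erw [if_neg (by linarith)]); ring1)))))
  · intro X g0 g1
    refine lin_of g0 g1 fun L hL hX => ?_
    simp only [rxq2_36, rxq2_37, rxq2_55, rxq2_82, rxq2_84, l4q2, l5q2, l5q2_7, l5q2_8, l5q2_9, l5q2_12, l5q2_14, l3q2, l3q2_4, l3q2_58, l3q2_82, l3q2_97, bx3q2, bx3q2_3, bx3q2_57, l2q2, l0q2, l0q2_7, l0q2_8, n0x, l1q2, lm1p_v, hL]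
    all_goals (clear hL; subst hX; ((try push_cast); all_goals (first | ring1 | (split_ifs <;> first | (exfalso; linarith) | ring1 | ((repeat first | erw [if_pos (by linarith)] | erw [if_neg (by linarith)]); ring1)))))
  · intro X g0 g1
    refine lin_of g0 g1 fun L hL hX => ?_
    simp only [rxq2_36, rxq2_37, rxq2_55, rxq2_82, rxq2_84, l4q2, l5q2, l5q2_7, l5q2_8, l5q2_9, l5q2_12, l5q2_14, l3q2, l3q2_4, l3q2_58, l3q2_82, l3q2_97, bx3q2, bx3q2_3, bx3q2_57, l2q2, l0q2, l0q2_7, l0q2_8, n0x, lm2p_v, hL]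
    all_goals (clear hL; subst hX; ((try push_cast); all_goals (first | ring1 | (split_ifs <;> first | (exfalso; linarith) | ring1 | ((repeat first | erw [if_pos (by linarith)] | erw [if_neg (by linarith)]); ring1)))))
  · intro X g0 g1
    refine lin_of g0 g1 fun L hL hX => ?_
    simp only [rxq2_36, rxq2_37, rxq2_55, rxq2_82, rxq2_84, l4q2, l5q2, l5q2_7, l5q2_8, l5q2_9, l5q2_12, l5q2_14, l3q2, l3q2_4, l3q2_58, l3q2_82, l3q2_97, bx3q2, bx3q2_3, bx3q2_57, l2q2, l0q2, l0q2_7, l0q2_8, n0x, lm3p_v, hL]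
    all_goals (clear hL; subst hX; ((try push_cast); all_goals (first | ring1 | (split_ifs <;> first | (exfalso; linarith) | ring1 | ((repeat first | erw [if_pos (by linarith)] | erw [if_neg (by linarith)]); ring1)))))
  · intro X g0 g1
    refine lin_of g0 g1 fun L hL hX => ?_
    simp only [rxq2_36, rxq2_37, rxq2_55, rxq2_82, rxq2_84, l4q2, l5q2, l5q2_7, l5q2_8, l5q2_9, l5q2_12, l5q2_14, l3q2, l3q2_4, l3q2_58, l3q2_82, l3q2_97, bx3q2, bx3q2_3, bx3q2_57, l2q2, l0q2, l0q2_7, l0q2_8, n0x, lm4p_v, hL]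
    all_goals (clear hL; subst hX; ((try push_cast); all_goals (first | ring1 | (split_ifs <;> first | (exfalso; linarith) | ring1 | ((repeat first | erw [if_pos (by linarith)] | erw [if_neg (by linarith)]); ring1)))))
theorem thL3 {x : ℝ} (h : Pins PP tL x) : ∀ X y, InQ 3 y → 1 ≤ qqn X y → qqn X y ≤ 3 →
    thd PP tL 3 X y x = (pcF 3).L.v X y x := by
  intro X y hq k1 k3
  have hy0 := hq.nonneg
  have hy2 := hq.le_two
  have hyl := hq.1
  have hyr := hq.2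
  refine third5 h hq (F := fun X => rxq3.v X y x) (x0 := 0) (x1 := cv1r.v y) (x2 := cv2r.v y) (x3 := cv3r.v y) (x4 := cv4r.v y) (x5 := c3g.v y)
    (v0 := 0) (v1 := l1q3.v y x) (v2 := l2q3.v y x) (v3 := l3q3.v y x) (v4 := l4q3.v y x) (v5 := l5q3.v y x)
    ?_ ?_ ?_ ?_ ?_ ?_ ?_ ?_ ?_ ?_ ?_ ?_ (fun X => rfl) ?_ ?_ ?_ ?_ ?_ k1 k3
  · rw [crv0]; exact c1n_off (off_y hyl)
  · exact ecv1q3 hyl
  · exact ecv2q3 hyl
  · exact ecv3q3 hyl
  · exact ecv4q3 hyl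
  · rw [crv5, c3g_v]
  · exact tbF_off (off_y hyl)
  · exact tbF_on (onc hq (by decide))
  · exact tbF_on (onc hq (by decide))
  · refine (tbF_on (onc hq (by decide))).trans ?_
    show lc33.v (c3n y) x = _
    simp only [l3q3, lc33, ycg_v hy0 hy2, c3g_v, cv1r, cv2r, cv3r, cv4r]
    all_goals (try rfl)
  · refine (tbF_on (onc hq (by decide))).trans ?_
    show lc43.v (c3n y) x = _
    simp only [l4q3, lc43, ycg_v hy0 hy2, c3g_v, cv1r, cv2r, cv3r, cv4r]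
    all_goals (try rfl)
  · refine (tbF_on (onc hq (by decide))).trans ?_
    show lc53.v (c3n y) x = _
    simp only [l5q3, l5q3_7, l5q3_8, l5q3_9, l5q3_12, l5q3_14, lc53, lc53_7, lc53_8, lc53_9, lc53_12, lc53_14, ycg_v hy0 hy2, c3g_v, c3g_v]
    all_goals (try rfl)
  · intro X g0 g1
    refine lin_of g0 g1 fun L hL hX => ?_
    simp only [l4q3, l5q3, l5q3_7, l5q3_8, l5q3_9, l5q3_12, l5q3_14, l1q3, hL]
    all_goals (clear hL; subst hX; ((try push_cast); all_goals (first | ring1 | (split_ifs <;> first | (exfalso; linarith) | ring1 | ((repeat first | erw [if_pos (by linarith)] | erw [if_neg (by linarith)]); ring1)))))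
  · intro X g0 g1
    refine lin_of g0 g1 fun L hL hX => ?_
    simp only [l4q3, l5q3, l5q3_7, l5q3_8, l5q3_9, l5q3_12, l5q3_14, l1q3, l2q3, lm1r_v, hL]
    all_goals (clear hL; subst hX; ((try push_cast); all_goals (first | ring1 | (split_ifs <;> first | (exfalso; linarith) | ring1 | ((repeat first | erw [if_pos (by linarith)] | erw [if_neg (by linarith)]); ring1)))))
  · intro X g0 g1
    refine lin_of g0 g1 fun L hL hX => ?_
    simp only [l4q3, l5q3, l5q3_7, l5q3_8, l5q3_9, l5q3_12, l5q3_14, l2q3, l3q3, lm2r_v, hL]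
    all_goals (clear hL; subst hX; ((try push_cast); all_goals (first | ring1 | (split_ifs <;> first | (exfalso; linarith) | ring1 | ((repeat first | erw [if_pos (by linarith)] | erw [if_neg (by linarith)]); ring1)))))
  · intro X g0 g1
    refine lin_of g0 g1 fun L hL hX => ?_
    simp only [l4q3, l5q3, l5q3_7, l5q3_8, l5q3_9, l5q3_12, l5q3_14, l3q3, lm3r_v, hL]
    all_goals (clear hL; subst hX; ((try push_cast); all_goals (first | ring1 | (split_ifs <;> first | (exfalso; linarith) | ring1 | ((repeat first | erw [if_pos (by linarith)] | erw [if_neg (by linarith)]); ring1)))))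
  · intro X g0 g1
    refine lin_of g0 g1 fun L hL hX => ?_
    simp only [l4q3, l5q3, l5q3_7, l5q3_8, l5q3_9, l5q3_12, l5q3_14, lm4r_v, hL]
    all_goals (clear hL; subst hX; ((try push_cast); all_goals (first | ring1 | (split_ifs <;> first | (exfalso; linarith) | ring1 | ((repeat first | erw [if_pos (by linarith)] | erw [if_neg (by linarith)]); ring1)))))
theorem bx00 : BoxC crd (0 : Fin 6) 0 0 536870912 := by
  refine boxC_of (lo := 0) (hi := 1 / 2) ?_ (by norm_num) (by norm_num)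
  intro y h
  obtain ⟨h1, h2⟩ := onC_rng h
  push_cast at h1 h2
  show 0 ≤ y ∧ y ≤ 1 / 2
  constructor <;> linarith
theorem bx01 : BoxC crd (0 : Fin 6) 1 536870912 536870912 := by
  refine boxC_of (lo := 1 / 2) (hi := 1) ?_ (by norm_num) (by norm_num)
  intro y h
  obtain ⟨h1, h2⟩ := onC_rng h
  push_cast at h1 h2
  show 1 / 2 ≤ y ∧ y ≤ 1
  constructor <;> linarith
theorem bx02 : BoxC crd (0 : Fin 6) 2 0 536870912 := by
  refine boxC_of (lo := 0) (hi := 1 / 2) ?_ (by norm_num) (by norm_num)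
  intro y h
  obtain ⟨h1, h2⟩ := onC_rng h
  push_cast at h1 h2
  exact c1n_half (by linarith)
theorem bx10 : BoxC crd (1 : Fin 6) 0 0 536870912 := by
  refine boxC_of (lo := 0) (hi := 1 / 2) ?_ (by norm_num) (by norm_num)
  intro y h
  obtain ⟨h1, h2⟩ := onC_rng h
  push_cast at h1 h2
  show 0 ≤ y ∧ y ≤ 1 / 2
  constructor <;> linarith
theorem bx11 : BoxC crd (1 : Fin 6) 1 536870912 536870912 := by
  refine boxC_of (lo := 1 / 2) (hi := 1) ?_ (by norm_num) (by norm_num)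
  intro y h
  obtain ⟨h1, h2⟩ := onC_rng h
  push_cast at h1 h2
  show 1 / 2 ≤ y ∧ y ≤ 1
  constructor <;> linarith
theorem bx12 : BoxC crd (1 : Fin 6) 2 1073741824 536870912 := by
  refine boxC_of (lo := 1) (hi := 3 / 2) ?_ (by norm_num) (by norm_num)
  intro y h
  obtain ⟨h1, h2⟩ := onC_rng h
  push_cast at h1 h2
  show 1 ≤ y ∧ y ≤ 3 / 2
  constructor <;> linarith
theorem bx13 : BoxC crd (1 : Fin 6) 3 1610612736 536870912 := by
  refine boxC_of (lo := 3 / 2) (hi := 2) ?_ (by norm_num) (by norm_num)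
  intro y h
  obtain ⟨h1, h2⟩ := onC_rng h
  push_cast at h1 h2
  show 3 / 2 ≤ y ∧ y ≤ 2
  constructor <;> linarith
theorem bx20 : BoxC crd (2 : Fin 6) 0 0 536870912 := by
  refine boxC_of (lo := 0) (hi := 1 / 2) ?_ (by norm_num) (by norm_num)
  intro y h
  obtain ⟨h1, h2⟩ := onC_rng h
  push_cast at h1 h2
  show 0 ≤ y ∧ y ≤ 1 / 2
  constructor <;> linarith
theorem bx21 : BoxC crd (2 : Fin 6) 1 536870912 536870912 := by
  refine boxC_of (lo := 1 / 2) (hi := 1) ?_ (by norm_num) (by norm_num)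
  intro y h
  obtain ⟨h1, h2⟩ := onC_rng h
  push_cast at h1 h2
  show 1 / 2 ≤ y ∧ y ≤ 1
  constructor <;> linarith
theorem bx22 : BoxC crd (2 : Fin 6) 2 1073741824 536870912 := by
  refine boxC_of (lo := 1) (hi := 3 / 2) ?_ (by norm_num) (by norm_num)
  intro y h
  obtain ⟨h1, h2⟩ := onC_rng h
  push_cast at h1 h2
  show 1 ≤ y ∧ y ≤ 3 / 2
  constructor <;> linarith
theorem bx23 : BoxC crd (2 : Fin 6) 3 1610612736 536870912 := by
  refine boxC_of (lo := 3 / 2) (hi := 2) ?_ (by norm_num) (by norm_num)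
  intro y h
  obtain ⟨h1, h2⟩ := onC_rng h
  push_cast at h1 h2
  show 3 / 2 ≤ y ∧ y ≤ 2
  constructor <;> linarith
theorem bx30 : BoxC crd (3 : Fin 6) 0 0 536870912 := by
  refine boxC_of (lo := 0) (hi := 1 / 2) ?_ (by norm_num) (by norm_num)
  intro y h
  obtain ⟨h1, h2⟩ := onC_rng h
  push_cast at h1 h2
  show 0 ≤ y ∧ y ≤ 1 / 2
  constructor <;> linarith
theorem bx31 : BoxC crd (3 : Fin 6) 1 536870912 536870912 := by
  refine boxC_of (lo := 1 / 2) (hi := 1) ?_ (by norm_num) (by norm_num)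
  intro y h
  obtain ⟨h1, h2⟩ := onC_rng h
  push_cast at h1 h2
  show 1 / 2 ≤ y ∧ y ≤ 1
  constructor <;> linarith
theorem bx32 : BoxC crd (3 : Fin 6) 2 1073741824 536870912 := by
  refine boxC_of (lo := 1) (hi := 3 / 2) ?_ (by norm_num) (by norm_num)
  intro y h
  obtain ⟨h1, h2⟩ := onC_rng h
  push_cast at h1 h2
  show 1 ≤ y ∧ y ≤ 3 / 2
  constructor <;> linarith
theorem bx33 : BoxC crd (3 : Fin 6) 3 0 1230186008 := by
  refine boxC_of (lo := 0) (hi := 11457 / 10000) ?_ (by norm_num) (by norm_num)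
  intro y h
  obtain ⟨h1, h2⟩ := onC_rng h
  push_cast at h1 h2
  exact c3n_box (by linarith)
theorem bx40 : BoxC crd (4 : Fin 6) 0 0 536870912 := by
  refine boxC_of (lo := 0) (hi := 1 / 2) ?_ (by norm_num) (by norm_num)
  intro y h
  obtain ⟨h1, h2⟩ := onC_rng h
  push_cast at h1 h2
  show 0 ≤ y ∧ y ≤ 1 / 2
  constructor <;> linarith
theorem bx41 : BoxC crd (4 : Fin 6) 1 536870912 536870912 := by
  refine boxC_of (lo := 1 / 2) (hi := 1) ?_ (by norm_num) (by norm_num)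
  intro y h
  obtain ⟨h1, h2⟩ := onC_rng h
  push_cast at h1 h2
  show 1 / 2 ≤ y ∧ y ≤ 1
  constructor <;> linarith
theorem bx42 : BoxC crd (4 : Fin 6) 2 1073741824 536870912 := by
  refine boxC_of (lo := 1) (hi := 3 / 2) ?_ (by norm_num) (by norm_num)
  intro y h
  obtain ⟨h1, h2⟩ := onC_rng h
  push_cast at h1 h2
  show 1 ≤ y ∧ y ≤ 3 / 2
  constructor <;> linarith
theorem bx43 : BoxC crd (4 : Fin 6) 3 0 1230186008 := by
  refine boxC_of (lo := 0) (hi := 11457 / 10000) ?_ (by norm_num) (by norm_num)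
  intro y h
  obtain ⟨h1, h2⟩ := onC_rng h
  push_cast at h1 h2
  exact c3n_box (by linarith)
theorem bx50 : BoxC crd (5 : Fin 6) 0 0 536870912 := by
  refine boxC_of (lo := 0) (hi := 1 / 2) ?_ (by norm_num) (by norm_num)
  intro y h
  obtain ⟨h1, h2⟩ := onC_rng h
  push_cast at h1 h2
  show 0 ≤ y ∧ y ≤ 1 / 2
  constructor <;> linarith
theorem bx51 : BoxC crd (5 : Fin 6) 1 536870912 536870912 := by
  refine boxC_of (lo := 1 / 2) (hi := 1) ?_ (by norm_num) (by norm_num)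
  intro y h
  obtain ⟨h1, h2⟩ := onC_rng h
  push_cast at h1 h2
  show 1 / 2 ≤ y ∧ y ≤ 1
  constructor <;> linarith
theorem bx52 : BoxC crd (5 : Fin 6) 2 1073741824 536870912 := by
  refine boxC_of (lo := 1) (hi := 3 / 2) ?_ (by norm_num) (by norm_num)
  intro y h
  obtain ⟨h1, h2⟩ := onC_rng h
  push_cast at h1 h2
  show 1 ≤ y ∧ y ≤ 3 / 2
  constructor <;> linarith
theorem bx53 : BoxC crd (5 : Fin 6) 3 0 1230186008 := by
  refine boxC_of (lo := 0) (hi := 11457 / 10000) ?_ (by norm_num) (by norm_num)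
  intro y h
  obtain ⟨h1, h2⟩ := onC_rng h
  push_cast at h1 h2
  exact c3n_box (by linarith)
theorem bdKF00 : ∃ t, chk3 (onCell 0 536870912 0 0 201326592 134217728 (bndR ((ndF 0 0).K))) t 1 1 1 = true := ⟨fullT 4 0, by decide +kernel⟩
theorem bdKF01 : ∃ t, chk3 (onCell 536870912 536870912 0 0 201326592 134217728 (bndR ((ndF 0 1).K))) t 1 1 1 = true := ⟨fullT 4 0, by decide +kernel⟩
theorem bdKF02 : ∃ t, chk3 (onCell 0 536870912 0 0 201326592 134217728 (bndR ((ndF 0 2).K))) t 1 1 1 = true := ⟨fullT 4 0, by decide +kernel⟩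
theorem bdKF10 : ∃ t, chk3 (onCell 0 536870912 0 0 201326592 134217728 (bndR ((ndF 1 0).K))) t 1 1 1 = true := ⟨fullT 4 0, by decide +kernel⟩
theorem bdKF11 : ∃ t, chk3 (onCell 536870912 536870912 0 0 201326592 134217728 (bndR ((ndF 1 1).K))) t 1 1 1 = true := ⟨fullT 4 0, by decide +kernel⟩
theorem bdKF12 : ∃ t, chk3 (onCell 1073741824 536870912 0 0 201326592 134217728 (bndR ((ndF 1 2).K))) t 1 1 1 = true := ⟨fullT 4 0, by decide +kernel⟩
theorem bdKF13 : ∃ t, chk3 (onCell 1610612736 536870912 0 0 201326592 134217728 (bndR ((ndF 1 3).K))) t 1 1 1 = true := ⟨fullT 4 0, by decide +kernel⟩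
theorem bdKF20 : ∃ t, chk3 (onCell 0 536870912 0 0 201326592 134217728 (bndR ((ndF 2 0).K))) t 1 1 1 = true := ⟨fullT 4 0, by decide +kernel⟩
theorem bdKF21 : ∃ t, chk3 (onCell 536870912 536870912 0 0 201326592 134217728 (bndR ((ndF 2 1).K))) t 1 1 1 = true := ⟨fullT 4 0, by decide +kernel⟩
theorem bdKF22 : ∃ t, chk3 (onCell 1073741824 536870912 0 0 201326592 134217728 (bndR ((ndF 2 2).K))) t 1 1 1 = true := ⟨fullT 4 0, by decide +kernel⟩
theorem bdKF23 : ∃ t, chk3 (onCell 1610612736 536870912 0 0 201326592 134217728 (bndR ((ndF 2 3).K))) t 1 1 1 = true := ⟨fullT 4 0, by decide +kernel⟩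
theorem bdKF30 : ∃ t, chk3 (onCell 0 536870912 0 0 201326592 134217728 (bndR ((ndF 3 0).K))) t 1 1 1 = true := ⟨fullT 4 0, by decide +kernel⟩
theorem bdKF31 : ∃ t, chk3 (onCell 536870912 536870912 0 0 201326592 134217728 (bndR ((ndF 3 1).K))) t 1 1 1 = true := ⟨fullT 4 0, by decide +kernel⟩
theorem bdKF32 : ∃ t, chk3 (onCell 1073741824 536870912 0 0 201326592 134217728 (bndR ((ndF 3 2).K))) t 1 1 1 = true := ⟨fullT 4 0, by decide +kernel⟩
theorem bdKF33 : ∃ t, chk3 (onCell 0 1230186008 0 0 201326592 134217728 (bndR ((ndF 3 3).K))) t 1 1 1 = true := ⟨fullT 4 0, by decide +kernel⟩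
theorem bdKF40 : ∃ t, chk3 (onCell 0 536870912 0 0 201326592 134217728 (bndR ((ndF 4 0).K))) t 1 1 1 = true := ⟨fullT 4 0, by decide +kernel⟩
theorem bdKF41 : ∃ t, chk3 (onCell 536870912 536870912 0 0 201326592 134217728 (bndR ((ndF 4 1).K))) t 1 1 1 = true := ⟨fullT 4 0, by decide +kernel⟩
theorem bdKF42 : ∃ t, chk3 (onCell 1073741824 536870912 0 0 201326592 134217728 (bndR ((ndF 4 2).K))) t 1 1 1 = true := ⟨fullT 4 0, by decide +kernel⟩
theorem bdKF43 : ∃ t, chk3 (onCell 0 1230186008 0 0 201326592 134217728 (bndR ((ndF 4 3).K))) t 1 1 1 = true := ⟨fullT 4 0, by decide +kernel⟩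
theorem bdKF50 : ∃ t, chk3 (onCell 0 536870912 0 0 201326592 134217728 (bndR ((ndF 5 0).K))) t 1 1 1 = true := ⟨fullT 4 0, by decide +kernel⟩
theorem bdKF51 : ∃ t, chk3 (onCell 536870912 536870912 0 0 201326592 134217728 (bndR ((ndF 5 1).K))) t 1 1 1 = true := ⟨fullT 4 0, by decide +kernel⟩
theorem bdKF52 : ∃ t, chk3 (onCell 1073741824 536870912 0 0 201326592 134217728 (bndR ((ndF 5 2).K))) t 1 1 1 = true := ⟨fullT 4 0, by decide +kernel⟩
theorem bdKF53 : ∃ t, chk3 (onCell 0 1230186008 0 0 201326592 134217728 (bndR ((ndF 5 3).K))) t 1 1 1 = true := ⟨fullT 4 0, by decide +kernel⟩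
theorem bddKF {x : ℝ} (hx : ((201326592 : ℕ) : ℝ) / S ≤ x) (hx' : x ≤ (((201326592 : ℕ) : ℝ) + (134217728 : ℕ)) / S) : ∃ C, ∀ j q y, OnC j q y → |((ndF j q).K).v (crd j q y) x| ≤ C := by
  refine ⟨64, ?_⟩
  intro j q y h
  fin_cases j
  · match q, h with
    | 0, h => exact bnd_sound bdKF00 (bx00 y h).1 (bx00 y h).2 hx hx'
    | 1, h => exact bnd_sound bdKF01 (bx01 y h).1 (bx01 y h).2 hx hx'
    | 2, h => exact bnd_sound bdKF02 (bx02 y h).1 (bx02 y h).2 hx hx'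
    | 3, h => exact absurd h.1.1 (by linarith [y_lt (h.2 rfl)])
    | _ + 4, h => exact h.1.elim
  · match q, h with
    | 0, h => exact bnd_sound bdKF10 (bx10 y h).1 (bx10 y h).2 hx hx'
    | 1, h => exact bnd_sound bdKF11 (bx11 y h).1 (bx11 y h).2 hx hx'
    | 2, h => exact bnd_sound bdKF12 (bx12 y h).1 (bx12 y h).2 hx hx'
    | 3, h => exact bnd_sound bdKF13 (bx13 y h).1 (bx13 y h).2 hx hx'
    | _ + 4, h => exact h.1.elim
  · match q, h with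
    | 0, h => exact bnd_sound bdKF20 (bx20 y h).1 (bx20 y h).2 hx hx'
    | 1, h => exact bnd_sound bdKF21 (bx21 y h).1 (bx21 y h).2 hx hx'
    | 2, h => exact bnd_sound bdKF22 (bx22 y h).1 (bx22 y h).2 hx hx'
    | 3, h => exact bnd_sound bdKF23 (bx23 y h).1 (bx23 y h).2 hx hx'
    | _ + 4, h => exact h.1.elim
  · match q, h with
    | 0, h => exact bnd_sound bdKF30 (bx30 y h).1 (bx30 y h).2 hx hx'
    | 1, h => exact bnd_sound bdKF31 (bx31 y h).1 (bx31 y h).2 hx hx'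
    | 2, h => exact bnd_sound bdKF32 (bx32 y h).1 (bx32 y h).2 hx hx'
    | 3, h => exact bnd_sound bdKF33 (bx33 y h).1 (bx33 y h).2 hx hx'
    | _ + 4, h => exact h.1.elim
  · match q, h with
    | 0, h => exact bnd_sound bdKF40 (bx40 y h).1 (bx40 y h).2 hx hx'
    | 1, h => exact bnd_sound bdKF41 (bx41 y h).1 (bx41 y h).2 hx hx'
    | 2, h => exact bnd_sound bdKF42 (bx42 y h).1 (bx42 y h).2 hx hx'
    | 3, h => exact bnd_sound bdKF43 (bx43 y h).1 (bx43 y h).2 hx hx'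
    | _ + 4, h => exact h.1.elim
  · match q, h with
    | 0, h => exact bnd_sound bdKF50 (bx50 y h).1 (bx50 y h).2 hx hx'
    | 1, h => exact bnd_sound bdKF51 (bx51 y h).1 (bx51 y h).2 hx hx'
    | 2, h => exact bnd_sound bdKF52 (bx52 y h).1 (bx52 y h).2 hx hx'
    | 3, h => exact bnd_sound bdKF53 (bx53 y h).1 (bx53 y h).2 hx hx'
    | _ + 4, h => exact h.1.elim
theorem bdKN00 : ∃ t, chk3 (onCell 0 536870912 0 0 201326592 134217728 (bndR ((ndN 0 0).K))) t 1 1 1 = true := ⟨fullT 4 0, by decide +kernel⟩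
theorem bdKN01 : ∃ t, chk3 (onCell 536870912 536870912 0 0 201326592 134217728 (bndR ((ndN 0 1).K))) t 1 1 1 = true := ⟨fullT 4 0, by decide +kernel⟩
theorem bdKN02 : ∃ t, chk3 (onCell 0 536870912 0 0 201326592 134217728 (bndR ((ndN 0 2).K))) t 1 1 1 = true := ⟨fullT 4 0, by decide +kernel⟩
theorem bdKN10 : ∃ t, chk3 (onCell 0 536870912 0 0 201326592 134217728 (bndR ((ndN 1 0).K))) t 1 1 1 = true := ⟨fullT 4 0, by decide +kernel⟩
theorem bdKN11 : ∃ t, chk3 (onCell 536870912 536870912 0 0 201326592 134217728 (bndR ((ndN 1 1).K))) t 1 1 1 = true := ⟨fullT 4 0, by decide +kernel⟩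
theorem bdKN12 : ∃ t, chk3 (onCell 1073741824 536870912 0 0 201326592 134217728 (bndR ((ndN 1 2).K))) t 1 1 1 = true := ⟨fullT 4 0, by decide +kernel⟩
theorem bdKN13 : ∃ t, chk3 (onCell 1610612736 536870912 0 0 201326592 134217728 (bndR ((ndN 1 3).K))) t 1 1 1 = true := ⟨fullT 4 0, by decide +kernel⟩
theorem bdKN20 : ∃ t, chk3 (onCell 0 536870912 0 0 201326592 134217728 (bndR ((ndN 2 0).K))) t 1 1 1 = true := ⟨fullT 4 0, by decide +kernel⟩
theorem bdKN21 : ∃ t, chk3 (onCell 536870912 536870912 0 0 201326592 134217728 (bndR ((ndN 2 1).K))) t 1 1 1 = true := ⟨fullT 4 0, by decide +kernel⟩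
theorem bdKN22 : ∃ t, chk3 (onCell 1073741824 536870912 0 0 201326592 134217728 (bndR ((ndN 2 2).K))) t 1 1 1 = true := ⟨fullT 4 0, by decide +kernel⟩
theorem bdKN23 : ∃ t, chk3 (onCell 1610612736 536870912 0 0 201326592 134217728 (bndR ((ndN 2 3).K))) t 1 1 1 = true := ⟨fullT 4 0, by decide +kernel⟩
theorem bdKN30 : ∃ t, chk3 (onCell 0 536870912 0 0 201326592 134217728 (bndR ((ndN 3 0).K))) t 1 1 1 = true := ⟨fullT 4 0, by decide +kernel⟩
theorem bdKN31 : ∃ t, chk3 (onCell 536870912 536870912 0 0 201326592 134217728 (bndR ((ndN 3 1).K))) t 1 1 1 = true := ⟨fullT 4 0, by decide +kernel⟩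
theorem bdKN32 : ∃ t, chk3 (onCell 1073741824 536870912 0 0 201326592 134217728 (bndR ((ndN 3 2).K))) t 1 1 1 = true := ⟨fullT 4 0, by decide +kernel⟩
theorem bdKN33 : ∃ t, chk3 (onCell 0 1230186008 0 0 201326592 134217728 (bndR ((ndN 3 3).K))) t 1 1 1 = true := ⟨fullT 4 0, by decide +kernel⟩
theorem bdKN40 : ∃ t, chk3 (onCell 0 536870912 0 0 201326592 134217728 (bndR ((ndN 4 0).K))) t 1 1 1 = true := ⟨fullT 4 0, by decide +kernel⟩
theorem bdKN41 : ∃ t, chk3 (onCell 536870912 536870912 0 0 201326592 134217728 (bndR ((ndN 4 1).K))) t 1 1 1 = true := ⟨fullT 4 0, by decide +kernel⟩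
theorem bdKN42 : ∃ t, chk3 (onCell 1073741824 536870912 0 0 201326592 134217728 (bndR ((ndN 4 2).K))) t 1 1 1 = true := ⟨fullT 4 0, by decide +kernel⟩
theorem bdKN43 : ∃ t, chk3 (onCell 0 1230186008 0 0 201326592 134217728 (bndR ((ndN 4 3).K))) t 1 1 1 = true := ⟨fullT 4 0, by decide +kernel⟩
theorem bdKN50 : ∃ t, chk3 (onCell 0 536870912 0 0 201326592 134217728 (bndR ((ndN 5 0).K))) t 1 1 1 = true := ⟨fullT 4 0, by decide +kernel⟩
theorem bdKN51 : ∃ t, chk3 (onCell 536870912 536870912 0 0 201326592 134217728 (bndR ((ndN 5 1).K))) t 1 1 1 = true := ⟨fullT 4 0, by decide +kernel⟩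
theorem bdKN52 : ∃ t, chk3 (onCell 1073741824 536870912 0 0 201326592 134217728 (bndR ((ndN 5 2).K))) t 1 1 1 = true := ⟨fullT 4 0, by decide +kernel⟩
theorem bdKN53 : ∃ t, chk3 (onCell 0 1230186008 0 0 201326592 134217728 (bndR ((ndN 5 3).K))) t 1 1 1 = true := ⟨fullT 4 0, by decide +kernel⟩
theorem bddKN {x : ℝ} (hx : ((201326592 : ℕ) : ℝ) / S ≤ x) (hx' : x ≤ (((201326592 : ℕ) : ℝ) + (134217728 : ℕ)) / S) : ∃ C, ∀ j q y, OnC j q y → |((ndN j q).K).v (crd j q y) x| ≤ C := by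
  refine ⟨64, ?_⟩
  intro j q y h
  fin_cases j
  · match q, h with
    | 0, h => exact bnd_sound bdKN00 (bx00 y h).1 (bx00 y h).2 hx hx'
    | 1, h => exact bnd_sound bdKN01 (bx01 y h).1 (bx01 y h).2 hx hx'
    | 2, h => exact bnd_sound bdKN02 (bx02 y h).1 (bx02 y h).2 hx hx'
    | 3, h => exact absurd h.1.1 (by linarith [y_lt (h.2 rfl)])
    | _ + 4, h => exact h.1.elim
  · match q, h with
    | 0, h => exact bnd_sound bdKN10 (bx10 y h).1 (bx10 y h).2 hx hx'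
    | 1, h => exact bnd_sound bdKN11 (bx11 y h).1 (bx11 y h).2 hx hx'
    | 2, h => exact bnd_sound bdKN12 (bx12 y h).1 (bx12 y h).2 hx hx'
    | 3, h => exact bnd_sound bdKN13 (bx13 y h).1 (bx13 y h).2 hx hx'
    | _ + 4, h => exact h.1.elim
  · match q, h with
    | 0, h => exact bnd_sound bdKN20 (bx20 y h).1 (bx20 y h).2 hx hx'
    | 1, h => exact bnd_sound bdKN21 (bx21 y h).1 (bx21 y h).2 hx hx'
    | 2, h => exact bnd_sound bdKN22 (bx22 y h).1 (bx22 y h).2 hx hx'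
    | 3, h => exact bnd_sound bdKN23 (bx23 y h).1 (bx23 y h).2 hx hx'
    | _ + 4, h => exact h.1.elim
  · match q, h with
    | 0, h => exact bnd_sound bdKN30 (bx30 y h).1 (bx30 y h).2 hx hx'
    | 1, h => exact bnd_sound bdKN31 (bx31 y h).1 (bx31 y h).2 hx hx'
    | 2, h => exact bnd_sound bdKN32 (bx32 y h).1 (bx32 y h).2 hx hx'
    | 3, h => exact bnd_sound bdKN33 (bx33 y h).1 (bx33 y h).2 hx hx'
    | _ + 4, h => exact h.1.elim
  · match q, h with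
    | 0, h => exact bnd_sound bdKN40 (bx40 y h).1 (bx40 y h).2 hx hx'
    | 1, h => exact bnd_sound bdKN41 (bx41 y h).1 (bx41 y h).2 hx hx'
    | 2, h => exact bnd_sound bdKN42 (bx42 y h).1 (bx42 y h).2 hx hx'
    | 3, h => exact bnd_sound bdKN43 (bx43 y h).1 (bx43 y h).2 hx hx'
    | _ + 4, h => exact h.1.elim
  · match q, h with
    | 0, h => exact bnd_sound bdKN50 (bx50 y h).1 (bx50 y h).2 hx hx'
    | 1, h => exact bnd_sound bdKN51 (bx51 y h).1 (bx51 y h).2 hx hx'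
    | 2, h => exact bnd_sound bdKN52 (bx52 y h).1 (bx52 y h).2 hx hx'
    | 3, h => exact bnd_sound bdKN53 (bx53 y h).1 (bx53 y h).2 hx hx'
    | _ + 4, h => exact h.1.elim
theorem bdL00 : ∃ t, chk3 (onCell 0 536870912 0 0 201326592 134217728 (bndR ((ndF 0 0).L))) t 1 1 1 = true := ⟨fullT 4 0, by decide +kernel⟩
theorem bdL01 : ∃ t, chk3 (onCell 536870912 536870912 0 0 201326592 134217728 (bndR ((ndF 0 1).L))) t 1 1 1 = true := ⟨fullT 4 0, by decide +kernel⟩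
theorem bdL02 : ∃ t, chk3 (onCell 0 536870912 0 0 201326592 134217728 (bndR ((ndF 0 2).L))) t 1 1 1 = true := ⟨fullT 4 0, by decide +kernel⟩
theorem bdL10 : ∃ t, chk3 (onCell 0 536870912 0 0 201326592 134217728 (bndR ((ndF 1 0).L))) t 1 1 1 = true := ⟨fullT 4 0, by decide +kernel⟩
theorem bdL11 : ∃ t, chk3 (onCell 536870912 536870912 0 0 201326592 134217728 (bndR ((ndF 1 1).L))) t 1 1 1 = true := ⟨fullT 4 0, by decide +kernel⟩
theorem bdL12 : ∃ t, chk3 (onCell 1073741824 536870912 0 0 201326592 134217728 (bndR ((ndF 1 2).L))) t 1 1 1 = true := ⟨fullT 4 0, by decide +kernel⟩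
theorem bdL13 : ∃ t, chk3 (onCell 1610612736 536870912 0 0 201326592 134217728 (bndR ((ndF 1 3).L))) t 1 1 1 = true := ⟨fullT 4 0, by decide +kernel⟩
theorem bdL20 : ∃ t, chk3 (onCell 0 536870912 0 0 201326592 134217728 (bndR ((ndF 2 0).L))) t 1 1 1 = true := ⟨fullT 4 0, by decide +kernel⟩
theorem bdL21 : ∃ t, chk3 (onCell 536870912 536870912 0 0 201326592 134217728 (bndR ((ndF 2 1).L))) t 1 1 1 = true := ⟨fullT 4 0, by decide +kernel⟩
theorem bdL22 : ∃ t, chk3 (onCell 1073741824 536870912 0 0 201326592 134217728 (bndR ((ndF 2 2).L))) t 1 1 1 = true := ⟨fullT 4 0, by decide +kernel⟩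
theorem bdL23 : ∃ t, chk3 (onCell 1610612736 536870912 0 0 201326592 134217728 (bndR ((ndF 2 3).L))) t 1 1 1 = true := ⟨fullT 4 0, by decide +kernel⟩
theorem bdL30 : ∃ t, chk3 (onCell 0 536870912 0 0 201326592 134217728 (bndR ((ndF 3 0).L))) t 1 1 1 = true := ⟨fullT 4 0, by decide +kernel⟩
theorem bdL31 : ∃ t, chk3 (onCell 536870912 536870912 0 0 201326592 134217728 (bndR ((ndF 3 1).L))) t 1 1 1 = true := ⟨fullT 4 0, by decide +kernel⟩
theorem bdL32 : ∃ t, chk3 (onCell 1073741824 536870912 0 0 201326592 134217728 (bndR ((ndF 3 2).L))) t 1 1 1 = true := ⟨fullT 4 0, by decide +kernel⟩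
theorem bdL33 : ∃ t, chk3 (onCell 0 1230186008 0 0 201326592 134217728 (bndR ((ndF 3 3).L))) t 1 1 1 = true := ⟨fullT 4 0, by decide +kernel⟩
theorem bdL40 : ∃ t, chk3 (onCell 0 536870912 0 0 201326592 134217728 (bndR ((ndF 4 0).L))) t 1 1 1 = true := ⟨fullT 4 0, by decide +kernel⟩
theorem bdL41 : ∃ t, chk3 (onCell 536870912 536870912 0 0 201326592 134217728 (bndR ((ndF 4 1).L))) t 1 1 1 = true := ⟨fullT 4 0, by decide +kernel⟩
theorem bdL42 : ∃ t, chk3 (onCell 1073741824 536870912 0 0 201326592 134217728 (bndR ((ndF 4 2).L))) t 1 1 1 = true := ⟨fullT 4 0, by decide +kernel⟩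
theorem bdL43 : ∃ t, chk3 (onCell 0 1230186008 0 0 201326592 134217728 (bndR ((ndF 4 3).L))) t 1 1 1 = true := ⟨fullT 4 0, by decide +kernel⟩
theorem bdL50 : ∃ t, chk3 (onCell 0 536870912 0 0 201326592 134217728 (bndR ((ndF 5 0).L))) t 1 1 1 = true := ⟨fullT 4 0, by decide +kernel⟩
theorem bdL51 : ∃ t, chk3 (onCell 536870912 536870912 0 0 201326592 134217728 (bndR ((ndF 5 1).L))) t 1 1 1 = true := ⟨fullT 4 0, by decide +kernel⟩
theorem bdL52 : ∃ t, chk3 (onCell 1073741824 536870912 0 0 201326592 134217728 (bndR ((ndF 5 2).L))) t 1 1 1 = true := ⟨fullT 4 0, by decide +kernel⟩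
theorem bdL53 : ∃ t, chk3 (onCell 0 1230186008 0 0 201326592 134217728 (bndR ((ndF 5 3).L))) t 1 1 1 = true := ⟨fullT 4 0, by decide +kernel⟩
theorem bddL {x : ℝ} (hx : ((201326592 : ℕ) : ℝ) / S ≤ x) (hx' : x ≤ (((201326592 : ℕ) : ℝ) + (134217728 : ℕ)) / S) : ∃ C, ∀ j q y, OnC j q y → |((ndF j q).L).v (crd j q y) x| ≤ C := by
  refine ⟨64, ?_⟩
  intro j q y h
  fin_cases j
  · match q, h with
    | 0, h => exact bnd_sound bdL00 (bx00 y h).1 (bx00 y h).2 hx hx'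
    | 1, h => exact bnd_sound bdL01 (bx01 y h).1 (bx01 y h).2 hx hx'
    | 2, h => exact bnd_sound bdL02 (bx02 y h).1 (bx02 y h).2 hx hx'
    | 3, h => exact absurd h.1.1 (by linarith [y_lt (h.2 rfl)])
    | _ + 4, h => exact h.1.elim
  · match q, h with
    | 0, h => exact bnd_sound bdL10 (bx10 y h).1 (bx10 y h).2 hx hx'
    | 1, h => exact bnd_sound bdL11 (bx11 y h).1 (bx11 y h).2 hx hx'
    | 2, h => exact bnd_sound bdL12 (bx12 y h).1 (bx12 y h).2 hx hx'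
    | 3, h => exact bnd_sound bdL13 (bx13 y h).1 (bx13 y h).2 hx hx'
    | _ + 4, h => exact h.1.elim
  · match q, h with
    | 0, h => exact bnd_sound bdL20 (bx20 y h).1 (bx20 y h).2 hx hx'
    | 1, h => exact bnd_sound bdL21 (bx21 y h).1 (bx21 y h).2 hx hx'
    | 2, h => exact bnd_sound bdL22 (bx22 y h).1 (bx22 y h).2 hx hx'
    | 3, h => exact bnd_sound bdL23 (bx23 y h).1 (bx23 y h).2 hx hx'
    | _ + 4, h => exact h.1.elim
  · match q, h with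
    | 0, h => exact bnd_sound bdL30 (bx30 y h).1 (bx30 y h).2 hx hx'
    | 1, h => exact bnd_sound bdL31 (bx31 y h).1 (bx31 y h).2 hx hx'
    | 2, h => exact bnd_sound bdL32 (bx32 y h).1 (bx32 y h).2 hx hx'
    | 3, h => exact bnd_sound bdL33 (bx33 y h).1 (bx33 y h).2 hx hx'
    | _ + 4, h => exact h.1.elim
  · match q, h with
    | 0, h => exact bnd_sound bdL40 (bx40 y h).1 (bx40 y h).2 hx hx'
    | 1, h => exact bnd_sound bdL41 (bx41 y h).1 (bx41 y h).2 hx hx'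
    | 2, h => exact bnd_sound bdL42 (bx42 y h).1 (bx42 y h).2 hx hx'
    | 3, h => exact bnd_sound bdL43 (bx43 y h).1 (bx43 y h).2 hx hx'
    | _ + 4, h => exact h.1.elim
  · match q, h with
    | 0, h => exact bnd_sound bdL50 (bx50 y h).1 (bx50 y h).2 hx hx'
    | 1, h => exact bnd_sound bdL51 (bx51 y h).1 (bx51 y h).2 hx hx'
    | 2, h => exact bnd_sound bdL52 (bx52 y h).1 (bx52 y h).2 hx hx'
    | 3, h => exact bnd_sound bdL53 (bx53 y h).1 (bx53 y h).2 hx hx'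
    | _ + 4, h => exact h.1.elim
theorem pinKF {x : ℝ} (hx : ((201326592 : ℕ) : ℝ) / S ≤ x) (hx' : x ≤ (((201326592 : ℕ) : ℝ) + (134217728 : ℕ)) / S) : Pins PP tKF x :=
  pins_of (fn := fun j q => (ndF j q).K) (pzeroKF x) (pmidKF x) (ptopKF x) (bddKF hx hx')
theorem thKF {x : ℝ} (h : Pins PP tKF x) : ∀ q X y, InQ q y → 1 ≤ qqn X y → qqn X y ≤ 3 →
    thd PP tKF q X y x = (pcF q).K.v X y x
  | 0 => thKF0 h
  | 1 => thKF1 h
  | 2 => thKF2 h
  | 3 => thKF3 h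
  | _ + 4 => fun _ _ h => h.elim
theorem pinKN {x : ℝ} (hx : ((201326592 : ℕ) : ℝ) / S ≤ x) (hx' : x ≤ (((201326592 : ℕ) : ℝ) + (134217728 : ℕ)) / S) : Pins PP tKN x :=
  pins_of (fn := fun j q => (ndN j q).K) (pzeroKN x) (pmidKN x) (ptopKN x) (bddKN hx hx')
theorem thKN {x : ℝ} (h : Pins PP tKN x) : ∀ q X y, InQ q y → 1 ≤ qqn X y → qqn X y ≤ 3 →
    thd PP tKN q X y x = (pcN q).K.v X y x
  | 0 => thKN0 h
  | 1 => thKN1 h
  | 2 => thKN2 h
  | 3 => thKN3 h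
  | _ + 4 => fun _ _ h => h.elim
theorem pinL {x : ℝ} (hx : ((201326592 : ℕ) : ℝ) / S ≤ x) (hx' : x ≤ (((201326592 : ℕ) : ℝ) + (134217728 : ℕ)) / S) : Pins PP tL x :=
  pins_of (fn := fun j q => (ndF j q).L) (pzeroL x) (pmidL x) (ptopL x) (bddL hx hx')
theorem thL {x : ℝ} (h : Pins PP tL x) : ∀ q X y, InQ q y → 1 ≤ qqn X y → qqn X y ≤ 3 →
    thd PP tL q X y x = (pcF q).L.v X y x
  | 0 => thL0 h
  | 1 => thL1 h
  | 2 => thL2 h
  | 3 => thL3 h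
  | _ + 4 => fun _ _ h => h.elim
theorem sideF {x : ℝ} (hx : ((201326592 : ℕ) : ℝ) / S ≤ x) (hx' : x ≤ (((201326592 : ℕ) : ℝ) + (134217728 : ℕ)) / S) : SideOk PP tKF tL pcF x :=
  ⟨pinKF hx hx', pinL hx hx', thKF (pinKF hx hx'), thL (pinL hx hx')⟩
theorem sideN {x : ℝ} (hx : ((201326592 : ℕ) : ℝ) / S ≤ x) (hx' : x ≤ (((201326592 : ℕ) : ℝ) + (134217728 : ℕ)) / S) : SideOk PP tKN tL pcN x := by
  refine ⟨pinKN hx hx', pinL hx hx', thKN (pinKN hx hx'), ?_⟩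
  intro q X y hq k1 k3
  rw [thL (pinL hx hx') q X y hq k1 k3]
  match q, hq with
  | 0, _ => rfl
  | 1, _ => rfl
  | 2, _ => rfl
  | 3, _ => rfl
  | _ + 4, h => exact h.elim
theorem atF00 {y x : ℝ} (h : OnC (0 : Fin 6) 0 y) : At PP tKF tL ndF0q0 0 0 y (y) x :=
  at_main (nFY0 0) (nFX0 0) rfl rfl h
theorem covF00 {x : ℝ} : Cov PP tKF tL ndF0q0 0 0 0 536870912 (fun _ => True) x :=
  cov_main (nFY0 0) (nFX0 0) rfl rfl bx00
theorem atF01 {y x : ℝ} (h : OnC (0 : Fin 6) 1 y) : At PP tKF tL ndF0q1 0 1 y (y) x :=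
  at_main (nFY0 1) (nFX0 1) rfl rfl h
theorem covF01 {x : ℝ} : Cov PP tKF tL ndF0q1 0 1 536870912 536870912 (fun _ => True) x :=
  cov_main (nFY0 1) (nFX0 1) rfl rfl bx01
theorem atF02 {y x : ℝ} (h : OnC (0 : Fin 6) 2 y) : At PP tKF tL ndF0q2 0 2 y (c1n y) x :=
  at_main (nFY0 2) (nFX0 2) rfl rfl h
theorem covF02 {x : ℝ} : Cov PP tKF tL ndF0q2 0 2 0 536870912 (fun _ => True) x :=
  cov_main (nFY0 2) (nFX0 2) rfl rfl bx02
theorem atF10 {y x : ℝ} (h : OnC (1 : Fin 6) 0 y) : At PP tKF tL ndF1q0 1 0 y (y) x :=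
  at_main (nFY1 0) (nFX1 0) rfl rfl h
theorem covF10 {x : ℝ} : Cov PP tKF tL ndF1q0 1 0 0 536870912 (fun _ => True) x :=
  cov_main (nFY1 0) (nFX1 0) rfl rfl bx10
theorem atF11 {y x : ℝ} (h : OnC (1 : Fin 6) 1 y) : At PP tKF tL ndF1q1 1 1 y (y) x :=
  at_main (nFY1 1) (nFX1 1) rfl rfl h
theorem covF11 {x : ℝ} : Cov PP tKF tL ndF1q1 1 1 536870912 536870912 (fun _ => True) x :=
  cov_main (nFY1 1) (nFX1 1) rfl rfl bx11
theorem atF12 {y x : ℝ} (h : OnC (1 : Fin 6) 2 y) : At PP tKF tL ndF1q2 1 2 y (y) x :=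
  at_main (nFY1 2) (nFX1 2) rfl rfl h
theorem covF12 {x : ℝ} : Cov PP tKF tL ndF1q2 1 2 1073741824 536870912 (fun _ => True) x :=
  cov_main (nFY1 2) (nFX1 2) rfl rfl bx12
theorem atF13 {y x : ℝ} (h : OnC (1 : Fin 6) 3 y) : At PP tKF tL ndF1q3 1 3 y (y) x :=
  at_main (nFY1 3) (nFX1 3) rfl rfl h
theorem covF13 {x : ℝ} : Cov PP tKF tL ndF1q3 1 3 1610612736 536870912 (fun _ => True) x :=
  cov_main (nFY1 3) (nFX1 3) rfl rfl bx13
theorem atF20 {y x : ℝ} (h : OnC (2 : Fin 6) 0 y) : At PP tKF tL ndF2q0 2 0 y (y) x :=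
  at_main (nFY2 0) (nFX2 0) rfl rfl h
theorem covF20 {x : ℝ} : Cov PP tKF tL ndF2q0 2 0 0 536870912 (fun _ => True) x :=
  cov_main (nFY2 0) (nFX2 0) rfl rfl bx20
theorem atF21 {y x : ℝ} (h : OnC (2 : Fin 6) 1 y) : At PP tKF tL ndF2q1 2 1 y (y) x :=
  at_main (nFY2 1) (nFX2 1) rfl rfl h
theorem covF21 {x : ℝ} : Cov PP tKF tL ndF2q1 2 1 536870912 536870912 (fun _ => True) x :=
  cov_main (nFY2 1) (nFX2 1) rfl rfl bx21
theorem atF22 {y x : ℝ} (h : OnC (2 : Fin 6) 2 y) : At PP tKF tL ndF2q2 2 2 y (y) x :=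
  at_main (nFY2 2) (nFX2 2) rfl rfl h
theorem covF22 {x : ℝ} : Cov PP tKF tL ndF2q2 2 2 1073741824 536870912 (fun _ => True) x :=
  cov_main (nFY2 2) (nFX2 2) rfl rfl bx22
theorem atF23 {y x : ℝ} (h : OnC (2 : Fin 6) 3 y) : At PP tKF tL ndF2q3 2 3 y (y) x :=
  at_main (nFY2 3) (nFX2 3) rfl rfl h
theorem covF23 {x : ℝ} : Cov PP tKF tL ndF2q3 2 3 1610612736 536870912 (fun _ => True) x :=
  cov_main (nFY2 3) (nFX2 3) rfl rfl bx23
theorem atF30 {y x : ℝ} (h : OnC (3 : Fin 6) 0 y) : At PP tKF tL ndF3q0 3 0 y (y) x :=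
  at_main (nFY3 0) (nFX3 0) rfl rfl h
theorem covF30 {x : ℝ} : Cov PP tKF tL ndF3q0 3 0 0 536870912 (fun _ => True) x :=
  cov_main (nFY3 0) (nFX3 0) rfl rfl bx30
theorem atF31 {y x : ℝ} (h : OnC (3 : Fin 6) 1 y) : At PP tKF tL ndF3q1 3 1 y (y) x :=
  at_main (nFY3 1) (nFX3 1) rfl rfl h
theorem covF31 {x : ℝ} : Cov PP tKF tL ndF3q1 3 1 536870912 536870912 (fun _ => True) x :=
  cov_main (nFY3 1) (nFX3 1) rfl rfl bx31
theorem atF32 {y x : ℝ} (h : OnC (3 : Fin 6) 2 y) : At PP tKF tL ndF3q2 3 2 y (y) x :=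
  at_main (nFY3 2) (nFX3 2) rfl rfl h
theorem covF32 {x : ℝ} : Cov PP tKF tL ndF3q2 3 2 1073741824 536870912 (fun _ => True) x :=
  cov_main (nFY3 2) (nFX3 2) rfl rfl bx32
theorem atF33 {y x : ℝ} (h : OnC (3 : Fin 6) 3 y) : At PP tKF tL ndF3q3 3 3 y (c3n y) x :=
  at_main (nFY3 3) (nFX3 3) rfl rfl h
theorem covF33 {x : ℝ} : Cov PP tKF tL ndF3q3 3 3 0 1230186008 (fun _ => True) x :=
  cov_main (nFY3 3) (nFX3 3) rfl rfl bx33
theorem atF40 {y x : ℝ} (h : OnC (4 : Fin 6) 0 y) : At PP tKF tL ndF4q0 4 0 y (y) x :=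
  at_main (nFY4 0) (nFX4 0) rfl rfl h
theorem covF40 {x : ℝ} : Cov PP tKF tL ndF4q0 4 0 0 536870912 (fun _ => True) x :=
  cov_main (nFY4 0) (nFX4 0) rfl rfl bx40
theorem atF41 {y x : ℝ} (h : OnC (4 : Fin 6) 1 y) : At PP tKF tL ndF4q1 4 1 y (y) x :=
  at_main (nFY4 1) (nFX4 1) rfl rfl h
theorem covF41 {x : ℝ} : Cov PP tKF tL ndF4q1 4 1 536870912 536870912 (fun _ => True) x :=
  cov_main (nFY4 1) (nFX4 1) rfl rfl bx41
theorem atF42 {y x : ℝ} (h : OnC (4 : Fin 6) 2 y) : At PP tKF tL ndF4q2 4 2 y (y) x :=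
  at_main (nFY4 2) (nFX4 2) rfl rfl h
theorem covF42 {x : ℝ} : Cov PP tKF tL ndF4q2 4 2 1073741824 536870912 (fun _ => True) x :=
  cov_main (nFY4 2) (nFX4 2) rfl rfl bx42
theorem atF43 {y x : ℝ} (h : OnC (4 : Fin 6) 3 y) : At PP tKF tL ndF4q3 4 3 y (c3n y) x :=
  at_main (nFY4 3) (nFX4 3) rfl rfl h
theorem covF43 {x : ℝ} : Cov PP tKF tL ndF4q3 4 3 0 1230186008 (fun _ => True) x :=
  cov_main (nFY4 3) (nFX4 3) rfl rfl bx43
theorem atF50 {y x : ℝ} (h : OnC (5 : Fin 6) 0 y) : At PP tKF tL ndF5q0 5 0 y (y) x :=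
  at_main (nFY5 0) (nFX5 0) rfl rfl h
theorem covF50 {x : ℝ} : Cov PP tKF tL ndF5q0 5 0 0 536870912 (fun _ => True) x :=
  cov_main (nFY5 0) (nFX5 0) rfl rfl bx50
theorem atF51 {y x : ℝ} (h : OnC (5 : Fin 6) 1 y) : At PP tKF tL ndF5q1 5 1 y (y) x :=
  at_main (nFY5 1) (nFX5 1) rfl rfl h
theorem covF51 {x : ℝ} : Cov PP tKF tL ndF5q1 5 1 536870912 536870912 (fun _ => True) x :=
  cov_main (nFY5 1) (nFX5 1) rfl rfl bx51
theorem atF52 {y x : ℝ} (h : OnC (5 : Fin 6) 2 y) : At PP tKF tL ndF5q2 5 2 y (y) x :=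
  at_main (nFY5 2) (nFX5 2) rfl rfl h
theorem covF52 {x : ℝ} : Cov PP tKF tL ndF5q2 5 2 1073741824 536870912 (fun _ => True) x :=
  cov_main (nFY5 2) (nFX5 2) rfl rfl bx52
theorem atF53 {y x : ℝ} (h : OnC (5 : Fin 6) 3 y) : At PP tKF tL ndF5q3 5 3 y (c3n y) x :=
  at_main (nFY5 3) (nFX5 3) rfl rfl h
theorem covF53 {x : ℝ} : Cov PP tKF tL ndF5q3 5 3 0 1230186008 (fun _ => True) x :=
  cov_main (nFY5 3) (nFX5 3) rfl rfl bx53
theorem atN00 {y x : ℝ} (h : OnC (0 : Fin 6) 0 y) : At PP tKN tL ndN0q0 0 0 y (y) x :=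
  at_main (nNY0 0) (nNX0 0) rfl rfl h
theorem covN00 {x : ℝ} : Cov PP tKN tL ndN0q0 0 0 0 536870912 (fun _ => True) x :=
  cov_main (nNY0 0) (nNX0 0) rfl rfl bx00
theorem atN01 {y x : ℝ} (h : OnC (0 : Fin 6) 1 y) : At PP tKN tL ndN0q1 0 1 y (y) x :=
  at_main (nNY0 1) (nNX0 1) rfl rfl h
theorem covN01 {x : ℝ} : Cov PP tKN tL ndN0q1 0 1 536870912 536870912 (fun _ => True) x :=
  cov_main (nNY0 1) (nNX0 1) rfl rfl bx01
theorem atN02 {y x : ℝ} (h : OnC (0 : Fin 6) 2 y) : At PP tKN tL ndN0q2 0 2 y (c1n y) x :=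
  at_main (nNY0 2) (nNX0 2) rfl rfl h
theorem covN02 {x : ℝ} : Cov PP tKN tL ndN0q2 0 2 0 536870912 (fun _ => True) x :=
  cov_main (nNY0 2) (nNX0 2) rfl rfl bx02
theorem atN10 {y x : ℝ} (h : OnC (1 : Fin 6) 0 y) : At PP tKN tL ndN1q0 1 0 y (y) x :=
  at_main (nNY1 0) (nNX1 0) rfl rfl h
theorem covN10 {x : ℝ} : Cov PP tKN tL ndN1q0 1 0 0 536870912 (fun _ => True) x :=
  cov_main (nNY1 0) (nNX1 0) rfl rfl bx10
theorem atN11 {y x : ℝ} (h : OnC (1 : Fin 6) 1 y) : At PP tKN tL ndN1q1 1 1 y (y) x :=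
  at_main (nNY1 1) (nNX1 1) rfl rfl h
theorem covN11 {x : ℝ} : Cov PP tKN tL ndN1q1 1 1 536870912 536870912 (fun _ => True) x :=
  cov_main (nNY1 1) (nNX1 1) rfl rfl bx11
theorem atN12 {y x : ℝ} (h : OnC (1 : Fin 6) 2 y) : At PP tKN tL ndN1q2 1 2 y (y) x :=
  at_main (nNY1 2) (nNX1 2) rfl rfl h
theorem covN12 {x : ℝ} : Cov PP tKN tL ndN1q2 1 2 1073741824 536870912 (fun _ => True) x :=
  cov_main (nNY1 2) (nNX1 2) rfl rfl bx12
theorem atN13 {y x : ℝ} (h : OnC (1 : Fin 6) 3 y) : At PP tKN tL ndN1q3 1 3 y (y) x :=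
  at_main (nNY1 3) (nNX1 3) rfl rfl h
theorem covN13 {x : ℝ} : Cov PP tKN tL ndN1q3 1 3 1610612736 536870912 (fun _ => True) x :=
  cov_main (nNY1 3) (nNX1 3) rfl rfl bx13
theorem atN20 {y x : ℝ} (h : OnC (2 : Fin 6) 0 y) : At PP tKN tL ndN2q0 2 0 y (y) x :=
  at_main (nNY2 0) (nNX2 0) rfl rfl h
theorem covN20 {x : ℝ} : Cov PP tKN tL ndN2q0 2 0 0 536870912 (fun _ => True) x :=
  cov_main (nNY2 0) (nNX2 0) rfl rfl bx20
theorem atN21 {y x : ℝ} (h : OnC (2 : Fin 6) 1 y) : At PP tKN tL ndN2q1 2 1 y (y) x :=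
  at_main (nNY2 1) (nNX2 1) rfl rfl h
theorem covN21 {x : ℝ} : Cov PP tKN tL ndN2q1 2 1 536870912 536870912 (fun _ => True) x :=
  cov_main (nNY2 1) (nNX2 1) rfl rfl bx21
theorem atN22 {y x : ℝ} (h : OnC (2 : Fin 6) 2 y) : At PP tKN tL ndN2q2 2 2 y (y) x :=
  at_main (nNY2 2) (nNX2 2) rfl rfl h
theorem covN22 {x : ℝ} : Cov PP tKN tL ndN2q2 2 2 1073741824 536870912 (fun _ => True) x :=
  cov_main (nNY2 2) (nNX2 2) rfl rfl bx22
theorem atN23 {y x : ℝ} (h : OnC (2 : Fin 6) 3 y) : At PP tKN tL ndN2q3 2 3 y (y) x :=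
  at_main (nNY2 3) (nNX2 3) rfl rfl h
theorem covN23 {x : ℝ} : Cov PP tKN tL ndN2q3 2 3 1610612736 536870912 (fun _ => True) x :=
  cov_main (nNY2 3) (nNX2 3) rfl rfl bx23
theorem atN30 {y x : ℝ} (h : OnC (3 : Fin 6) 0 y) : At PP tKN tL ndN3q0 3 0 y (y) x :=
  at_main (nNY3 0) (nNX3 0) rfl rfl h
theorem covN30 {x : ℝ} : Cov PP tKN tL ndN3q0 3 0 0 536870912 (fun _ => True) x :=
  cov_main (nNY3 0) (nNX3 0) rfl rfl bx30
theorem atN31 {y x : ℝ} (h : OnC (3 : Fin 6) 1 y) : At PP tKN tL ndN3q1 3 1 y (y) x :=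
  at_main (nNY3 1) (nNX3 1) rfl rfl h
theorem covN31 {x : ℝ} : Cov PP tKN tL ndN3q1 3 1 536870912 536870912 (fun _ => True) x :=
  cov_main (nNY3 1) (nNX3 1) rfl rfl bx31
theorem atN32 {y x : ℝ} (h : OnC (3 : Fin 6) 2 y) : At PP tKN tL ndN3q2 3 2 y (y) x :=
  at_main (nNY3 2) (nNX3 2) rfl rfl h
theorem covN32 {x : ℝ} : Cov PP tKN tL ndN3q2 3 2 1073741824 536870912 (fun _ => True) x :=
  cov_main (nNY3 2) (nNX3 2) rfl rfl bx32
theorem atN33 {y x : ℝ} (h : OnC (3 : Fin 6) 3 y) : At PP tKN tL ndN3q3 3 3 y (c3n y) x :=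
  at_main (nNY3 3) (nNX3 3) rfl rfl h
theorem covN33 {x : ℝ} : Cov PP tKN tL ndN3q3 3 3 0 1230186008 (fun _ => True) x :=
  cov_main (nNY3 3) (nNX3 3) rfl rfl bx33
theorem atN40 {y x : ℝ} (h : OnC (4 : Fin 6) 0 y) : At PP tKN tL ndN4q0 4 0 y (y) x :=
  at_main (nNY4 0) (nNX4 0) rfl rfl h
theorem covN40 {x : ℝ} : Cov PP tKN tL ndN4q0 4 0 0 536870912 (fun _ => True) x :=
  cov_main (nNY4 0) (nNX4 0) rfl rfl bx40
theorem atN41 {y x : ℝ} (h : OnC (4 : Fin 6) 1 y) : At PP tKN tL ndN4q1 4 1 y (y) x :=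
  at_main (nNY4 1) (nNX4 1) rfl rfl h
theorem covN41 {x : ℝ} : Cov PP tKN tL ndN4q1 4 1 536870912 536870912 (fun _ => True) x :=
  cov_main (nNY4 1) (nNX4 1) rfl rfl bx41
theorem atN42 {y x : ℝ} (h : OnC (4 : Fin 6) 2 y) : At PP tKN tL ndN4q2 4 2 y (y) x :=
  at_main (nNY4 2) (nNX4 2) rfl rfl h
theorem covN42 {x : ℝ} : Cov PP tKN tL ndN4q2 4 2 1073741824 536870912 (fun _ => True) x :=
  cov_main (nNY4 2) (nNX4 2) rfl rfl bx42
theorem atN43 {y x : ℝ} (h : OnC (4 : Fin 6) 3 y) : At PP tKN tL ndN4q3 4 3 y (c3n y) x :=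
  at_main (nNY4 3) (nNX4 3) rfl rfl h
theorem covN43 {x : ℝ} : Cov PP tKN tL ndN4q3 4 3 0 1230186008 (fun _ => True) x :=
  cov_main (nNY4 3) (nNX4 3) rfl rfl bx43
theorem atN50 {y x : ℝ} (h : OnC (5 : Fin 6) 0 y) : At PP tKN tL ndN5q0 5 0 y (y) x :=
  at_main (nNY5 0) (nNX5 0) rfl rfl h
theorem covN50 {x : ℝ} : Cov PP tKN tL ndN5q0 5 0 0 536870912 (fun _ => True) x :=
  cov_main (nNY5 0) (nNX5 0) rfl rfl bx50
theorem atN51 {y x : ℝ} (h : OnC (5 : Fin 6) 1 y) : At PP tKN tL ndN5q1 5 1 y (y) x :=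
  at_main (nNY5 1) (nNX5 1) rfl rfl h
theorem covN51 {x : ℝ} : Cov PP tKN tL ndN5q1 5 1 536870912 536870912 (fun _ => True) x :=
  cov_main (nNY5 1) (nNX5 1) rfl rfl bx51
theorem atN52 {y x : ℝ} (h : OnC (5 : Fin 6) 2 y) : At PP tKN tL ndN5q2 5 2 y (y) x :=
  at_main (nNY5 2) (nNX5 2) rfl rfl h
theorem covN52 {x : ℝ} : Cov PP tKN tL ndN5q2 5 2 1073741824 536870912 (fun _ => True) x :=
  cov_main (nNY5 2) (nNX5 2) rfl rfl bx52
theorem atN53 {y x : ℝ} (h : OnC (5 : Fin 6) 3 y) : At PP tKN tL ndN5q3 5 3 y (c3n y) x :=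
  at_main (nNY5 3) (nNX5 3) rfl rfl h
theorem covN53 {x : ℝ} : Cov PP tKN tL ndN5q3 5 3 0 1230186008 (fun _ => True) x :=
  cov_main (nNY5 3) (nNX5 3) rfl rfl bx53
theorem mu_v (x : ℝ) : mug3.v x = mun 3 x := by
  simp only [mug3, mun, gsg, c1n]
  push_cast
  rw [one_div]
  congr 1
  ring_nf
theorem one0 {x : ℝ} (hx : ((201326592 : ℕ) : ℝ) / S ≤ x) (hx' : x ≤ (((201326592 : ℕ) : ℝ) + (134217728 : ℕ)) / S) : 0 ≤ crv PP 0 2 1 - 1 / 2 + mun 3 x * tL 0 2 1 x := by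
  have e1 : crv PP 0 2 1 - 1 / 2 = 0 := by
    rw [crv0]
    simp only [c1n_one, swn_one]
    norm_num
  have e2 : tL 0 2 1 x = 0 := by
    refine (tbF_on (onC_one 0)).trans ?_
    show (ndF 0 2).L.v (c1n 1) x = 0
    rw [c1n_one]
    exact (corF02 x).2.2
  rw [e1, e2]
  norm_num
theorem one1 {x : ℝ} (hx : ((201326592 : ℕ) : ℝ) / S ≤ x) (hx' : x ≤ (((201326592 : ℕ) : ℝ) + (134217728 : ℕ)) / S) : 0 ≤ crv PP 1 2 1 - 1 / 2 + mun 3 x * tL 1 2 1 x := by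
  have e1 : crv PP 1 2 1 - 1 / 2 = 0 := by
    rw [crv1]
    simp only [wn2, c1n_one, swn_one]
    norm_num
  have e2 : tL 1 2 1 x = 0 := by
    refine (tbF_on (onC_one 1)).trans ?_
    show (ndF 1 2).L.v 1 x = 0
    exact (corF12 x).2.2
  rw [e1, e2]
  norm_num
theorem one2 {x : ℝ} (hx : ((201326592 : ℕ) : ℝ) / S ≤ x) (hx' : x ≤ (((201326592 : ℕ) : ℝ) + (134217728 : ℕ)) / S) : 0 ≤ crv PP 2 2 1 - 1 / 2 + mun 3 x * tL 2 2 1 x := by
  have e1 : crv PP 2 2 1 - 1 / 2 = 0 := by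
    rw [crv2]
    simp only [wn2, c1n_one, swn_one]
    norm_num
  have e2 : tL 2 2 1 x = 0 := by
    refine (tbF_on (onC_one 2)).trans ?_
    show (ndF 2 2).L.v 1 x = 0
    exact (corF22 x).2.2
  rw [e1, e2]
  norm_num
theorem one3 {x : ℝ} (hx : ((201326592 : ℕ) : ℝ) / S ≤ x) (hx' : x ≤ (((201326592 : ℕ) : ℝ) + (134217728 : ℕ)) / S) : 0 ≤ crv PP 3 2 1 - 1 / 2 + mun 3 x * tL 3 2 1 x := by
  have e1 : crv PP 3 2 1 - 1 / 2 = 1 / 5 := by
    rw [crv3]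
    simp only [wn2, c1n_one, swn_one, c3n_one]
    norm_num
  have e2 : tL 3 2 1 x = l3q2.v 1 x := tbF_on (onC_one 3)
  rw [e1, e2]
  refine one_of (by norm_num) (by norm_num) ?_
  simp only [l3q2, l3q2_4, l3q2_58, l3q2_82, l3q2_97, kcg, kcg_3, kcg_6, kcg_9, kcg_12, kcg_13, kcg_16, kcg_27, kcg_35, kcg_38, kcg_47, kcg_55, kcg_56, kcg_59, kcg_67, kcg_74, kcg_75, kcg_79, kcg_87, kcg_92, kcg_96, kcg_106, kcg_116, kcg_119, kcg_120, kcg_124, kcg_135, kcg_140, kcg_145, kcg_155, kcg_163, kcg_164, kcg_169, kcg_178, kcg_186, kcg_191, kcg_201, kcg_206, kcg_211, kcg_219, kcg_220, kcg_221, kcg_244, kcg_255, kcg_276, kcg_277, kcg_296, bx2q2, bx2q2_3, cv1m, cv2m, cv3m, cv4m, cv1p, cv2p, cv3p, cv4p, cv1r, cv2r, cv3r, cv4r, c1g_v, swg_v, c3g_v, c1n_one, swn_one, c3n_one]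
  rw [S_num] at hx hx'
  norm_num at hx hx' ⊢
  all_goals linarith
theorem one4 {x : ℝ} (hx : ((201326592 : ℕ) : ℝ) / S ≤ x) (hx' : x ≤ (((201326592 : ℕ) : ℝ) + (134217728 : ℕ)) / S) : 0 ≤ crv PP 4 2 1 - 1 / 2 + mun 3 x * tL 4 2 1 x := by
  have e1 : crv PP 4 2 1 - 1 / 2 = 3 / 5 := by
    rw [crv4]
    simp only [wn2, c1n_one, swn_one, c3n_one]
    norm_num
  have e2 : tL 4 2 1 x = l4q2.v 1 x := tbF_on (onC_one 4)
  rw [e1, e2]
  refine one_of (by norm_num) (by norm_num) ?_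
  simp only [l4q2, bx4q2, bx4q2_3, cv1m, cv2m, cv3m, cv4m, cv1p, cv2p, cv3p, cv4p, cv1r, cv2r, cv3r, cv4r, c1g_v, swg_v, c3g_v, c1n_one, swn_one, c3n_one]
  rw [S_num] at hx hx'
  norm_num at hx hx' ⊢
  all_goals linarith
theorem one5 {x : ℝ} (hx : ((201326592 : ℕ) : ℝ) / S ≤ x) (hx' : x ≤ (((201326592 : ℕ) : ℝ) + (134217728 : ℕ)) / S) : 0 ≤ crv PP 5 2 1 - 1 / 2 + mun 3 x * tL 5 2 1 x := by
  have e1 : crv PP 5 2 1 - 1 / 2 = 1 := by
    rw [crv5]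
    simp only [c3n_one]
    norm_num
  have e2 : tL 5 2 1 x = l5q2.v 1 x := tbF_on (onC_one 5)
  rw [e1, e2]
  refine one_of (by norm_num) (by norm_num) ?_
  simp only [l5q2, l5q2_7, l5q2_8, l5q2_9, l5q2_12, l5q2_14, txg, txg_4, txg_6, txg_27, txg_61, txg_78, txg_80, txg_83, txg_86, txg_134, txg_153, txg_196, txg_198, txg_219, txg_259, txg_279, kcg, kcg_3, kcg_6, kcg_9, kcg_12, kcg_13, kcg_16, kcg_27, kcg_35, kcg_38, kcg_47, kcg_55, kcg_56, kcg_59, kcg_67, kcg_74, kcg_75, kcg_79, kcg_87, kcg_92, kcg_96, kcg_106, kcg_116, kcg_119, kcg_120, kcg_124, kcg_135, kcg_140, kcg_145, kcg_155, kcg_163, kcg_164, kcg_169, kcg_178, kcg_186, kcg_191, kcg_201, kcg_206, kcg_211, kcg_219, kcg_220, kcg_221, kcg_244, kcg_255, kcg_276, kcg_277, kcg_296, cv1m, cv2m, cv3m, cv4m, cv1p, cv2p, cv3p, cv4p, cv1r, cv2r, cv3r, cv4r, c1g_v, swg_v, c3g_v, c1n_one, swn_one, c3n_one]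
  rw [S_num] at hx hx'
  norm_num at hx hx' ⊢
  all_goals linarith
theorem atF12a {y x : ℝ} (h : OnC (1 : Fin 6) 2 y) (hv : h0 * y < 1) : At PP tKF tL ndF1q2a 1 2 y (c1n y) x := by
  have h1 := h.1.nonneg
  have e := yag_v h1 hv
  refine ⟨?_, ?_, ?_, ?_⟩
  · exact e
  · rw [← nFX1 2 y h]
    show xc12a.v (c1n y) = cv1p.v y
    simp only [xc12a, cv1p, e, c1g_v]
    all_goals ((try push_cast); (try ring))
  · refine Eq.trans ?_ (tbF_on h).symm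
    show kfc12a.v (c1n y) x = kf1q2.v y x
    simp only [kfc12a, bf1q2, bf1q2_3, kf1q2, cv1p, e, c1g_v]
    all_goals ((try push_cast); (try ring))
  · refine Eq.trans ?_ (tbF_on h).symm
    show lc12a.v (c1n y) x = l1q2.v y x
    simp only [lc12a, bx1q2, bx1q2_3, l1q2, cv1p, e, c1g_v]
    all_goals ((try push_cast); (try ring))
theorem covF12a {x : ℝ} : Cov PP tKF tL ndF1q2a 1 2 0 536870912 (fun y => h0 * y < 1) x :=
  cov_var (lo := 0) (hi := 1 / 2) (fun y => c1n y) (fun y h hv => atF12a h hv)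
    (fun y h hv => c1n_half (by have := h.1.1; linarith)) (by norm_num) (by norm_num)
theorem atF12b {y x : ℝ} (h : OnC (1 : Fin 6) 2 y) (hv : 1 ≤ h0 * y) : At PP tKF tL ndF1q2b 1 2 y (y) x := by
  have h1 := h.1.nonneg
  have e := c1g_off hv
  refine ⟨?_, ?_, ?_, ?_⟩
  · exact rfl
  · rw [← nFX1 2 y h]
    show xc12b.v (y) = cv1p.v y
    simp only [xc12b, cv1p, e]
    all_goals ((try push_cast); (try ring))
  · refine Eq.trans ?_ (tbF_on h).symm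
    show kfc12b.v (y) x = kf1q2.v y x
    simp only [kfc12b, bf1q2, bf1q2_3, kf1q2, cv1p, e]
    all_goals ((try push_cast); (try ring))
  · refine Eq.trans ?_ (tbF_on h).symm
    show lc12b.v (y) x = l1q2.v y x
    simp only [lc12b, bx1q2, bx1q2_3, l1q2, cv1p, e]
    all_goals ((try push_cast); (try ring))
theorem covF12b {x : ℝ} : Cov PP tKF tL ndF1q2b 1 2 1239849684 370763052 (fun y => 1 ≤ h0 * y) x :=
  cov_var (lo := 11547 / 10000) (hi := 3 / 2) (fun y => y) (fun y h hv => atF12b h hv)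
    (fun y h hv => ⟨(lt_off hv).le, by have := h.1.2; linarith⟩) (by norm_num) (by norm_num)
theorem atF22a {y x : ℝ} (h : OnC (2 : Fin 6) 2 y) (hv : h0 * y < 1) : At PP tKF tL ndF2q2a 2 2 y (c1n y) x := by
  have h1 := h.1.nonneg
  have e := yag_v h1 hv
  refine ⟨?_, ?_, ?_, ?_⟩
  · exact e
  · rw [← nFX2 2 y h]
    show xc22a.v (c1n y) = cv2p.v y
    simp only [xc22a, cv2p, e, c1g_v]
    all_goals ((try push_cast); (try ring))
  · refine Eq.trans ?_ (tbF_on h).symm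
    show kfc22a.v (c1n y) x = kf2q2.v y x
    simp only [kfc22a, bf2q2, bf2q2_3, kf2q2, cv2p, e, c1g_v]
    all_goals ((try push_cast); (try ring))
  · refine Eq.trans ?_ (tbF_on h).symm
    show lc22a.v (c1n y) x = l2q2.v y x
    simp only [lc22a, bx2q2, bx2q2_3, l2q2, cv2p, e, c1g_v]
    all_goals ((try push_cast); (try ring))
theorem covF22a {x : ℝ} : Cov PP tKF tL ndF2q2a 2 2 0 536870912 (fun y => h0 * y < 1) x :=
  cov_var (lo := 0) (hi := 1 / 2) (fun y => c1n y) (fun y h hv => atF22a h hv)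
    (fun y h hv => c1n_half (by have := h.1.1; linarith)) (by norm_num) (by norm_num)
theorem atF22b {y x : ℝ} (h : OnC (2 : Fin 6) 2 y) (hv : 1 ≤ h0 * y) : At PP tKF tL ndF2q2b 2 2 y (y) x := by
  have h1 := h.1.nonneg
  have e := c1g_off hv
  refine ⟨?_, ?_, ?_, ?_⟩
  · exact rfl
  · rw [← nFX2 2 y h]
    show xc22b.v (y) = cv2p.v y
    simp only [xc22b, cv2p, e]
    all_goals ((try push_cast); (try ring))
  · refine Eq.trans ?_ (tbF_on h).symm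
    show kfc22b.v (y) x = kf2q2.v y x
    simp only [kfc22b, bf2q2, bf2q2_3, kf2q2, cv2p, e]
    all_goals ((try push_cast); (try ring))
  · refine Eq.trans ?_ (tbF_on h).symm
    show lc22b.v (y) x = l2q2.v y x
    simp only [lc22b, bx2q2, bx2q2_3, l2q2, cv2p, e]
    all_goals ((try push_cast); (try ring))
theorem covF22b {x : ℝ} : Cov PP tKF tL ndF2q2b 2 2 1239849684 370763052 (fun y => 1 ≤ h0 * y) x :=
  cov_var (lo := 11547 / 10000) (hi := 3 / 2) (fun y => y) (fun y h hv => atF22b h hv)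
    (fun y h hv => ⟨(lt_off hv).le, by have := h.1.2; linarith⟩) (by norm_num) (by norm_num)
theorem atN12a {y x : ℝ} (h : OnC (1 : Fin 6) 2 y) (hv : h0 * y < 1) : At PP tKN tL ndN1q2a 1 2 y (c1n y) x := by
  have h1 := h.1.nonneg
  have e := yag_v h1 hv
  refine ⟨?_, ?_, ?_, ?_⟩
  · exact e
  · rw [← nNX1 2 y h]
    show xc12a.v (c1n y) = cv1p.v y
    simp only [xc12a, cv1p, e, c1g_v]
    all_goals ((try push_cast); (try ring))
  · refine Eq.trans ?_ (tbF_on h).symm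
    show knc12a.v (c1n y) x = kn1q2.v y x
    simp only [knc12a, kfc12a, bf1q2, bf1q2_3, kpc12a, bd1q2, bd1q2_3, kn1q2, kf1q2, cv1p, kp1q2, e, c1g_v]
    all_goals ((try push_cast); (try ring))
  · refine Eq.trans ?_ (tbF_on h).symm
    show lc12a.v (c1n y) x = l1q2.v y x
    simp only [lc12a, bx1q2, bx1q2_3, l1q2, cv1p, e, c1g_v]
    all_goals ((try push_cast); (try ring))
theorem covN12a {x : ℝ} : Cov PP tKN tL ndN1q2a 1 2 0 536870912 (fun y => h0 * y < 1) x :=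
  cov_var (lo := 0) (hi := 1 / 2) (fun y => c1n y) (fun y h hv => atN12a h hv)
    (fun y h hv => c1n_half (by have := h.1.1; linarith)) (by norm_num) (by norm_num)
theorem atN12b {y x : ℝ} (h : OnC (1 : Fin 6) 2 y) (hv : 1 ≤ h0 * y) : At PP tKN tL ndN1q2b 1 2 y (y) x := by
  have h1 := h.1.nonneg
  have e := c1g_off hv
  refine ⟨?_, ?_, ?_, ?_⟩
  · exact rfl
  · rw [← nNX1 2 y h]
    show xc12b.v (y) = cv1p.v y
    simp only [xc12b, cv1p, e]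
    all_goals ((try push_cast); (try ring))
  · refine Eq.trans ?_ (tbF_on h).symm
    show knc12b.v (y) x = kn1q2.v y x
    simp only [knc12b, kfc12b, bf1q2, bf1q2_3, kpc12b, bd1q2, bd1q2_3, kn1q2, kf1q2, cv1p, kp1q2, e]
    all_goals ((try push_cast); (try ring))
  · refine Eq.trans ?_ (tbF_on h).symm
    show lc12b.v (y) x = l1q2.v y x
    simp only [lc12b, bx1q2, bx1q2_3, l1q2, cv1p, e]
    all_goals ((try push_cast); (try ring))
theorem covN12b {x : ℝ} : Cov PP tKN tL ndN1q2b 1 2 1239849684 370763052 (fun y => 1 ≤ h0 * y) x :=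
  cov_var (lo := 11547 / 10000) (hi := 3 / 2) (fun y => y) (fun y h hv => atN12b h hv)
    (fun y h hv => ⟨(lt_off hv).le, by have := h.1.2; linarith⟩) (by norm_num) (by norm_num)
theorem atN22a {y x : ℝ} (h : OnC (2 : Fin 6) 2 y) (hv : h0 * y < 1) : At PP tKN tL ndN2q2a 2 2 y (c1n y) x := by
  have h1 := h.1.nonneg
  have e := yag_v h1 hv
  refine ⟨?_, ?_, ?_, ?_⟩
  · exact e
  · rw [← nNX2 2 y h]
    show xc22a.v (c1n y) = cv2p.v y
    simp only [xc22a, cv2p, e, c1g_v]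
    all_goals ((try push_cast); (try ring))
  · refine Eq.trans ?_ (tbF_on h).symm
    show knc22a.v (c1n y) x = kn2q2.v y x
    simp only [knc22a, kfc22a, bf2q2, bf2q2_3, kpc22a, bd2q2, bd2q2_3, kn2q2, kf2q2, cv2p, kp2q2, e, c1g_v]
    all_goals ((try push_cast); (try ring))
  · refine Eq.trans ?_ (tbF_on h).symm
    show lc22a.v (c1n y) x = l2q2.v y x
    simp only [lc22a, bx2q2, bx2q2_3, l2q2, cv2p, e, c1g_v]
    all_goals ((try push_cast); (try ring))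
theorem covN22a {x : ℝ} : Cov PP tKN tL ndN2q2a 2 2 0 536870912 (fun y => h0 * y < 1) x :=
  cov_var (lo := 0) (hi := 1 / 2) (fun y => c1n y) (fun y h hv => atN22a h hv)
    (fun y h hv => c1n_half (by have := h.1.1; linarith)) (by norm_num) (by norm_num)
theorem atN22b {y x : ℝ} (h : OnC (2 : Fin 6) 2 y) (hv : 1 ≤ h0 * y) : At PP tKN tL ndN2q2b 2 2 y (y) x := by
  have h1 := h.1.nonneg
  have e := c1g_off hv
  refine ⟨?_, ?_, ?_, ?_⟩
  · exact rfl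
  · rw [← nNX2 2 y h]
    show xc22b.v (y) = cv2p.v y
    simp only [xc22b, cv2p, e]
    all_goals ((try push_cast); (try ring))
  · refine Eq.trans ?_ (tbF_on h).symm
    show knc22b.v (y) x = kn2q2.v y x
    simp only [knc22b, kfc22b, bf2q2, bf2q2_3, kpc22b, bd2q2, bd2q2_3, kn2q2, kf2q2, cv2p, kp2q2, e]
    all_goals ((try push_cast); (try ring))
  · refine Eq.trans ?_ (tbF_on h).symm
    show lc22b.v (y) x = l2q2.v y x
    simp only [lc22b, bx2q2, bx2q2_3, l2q2, cv2p, e]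
    all_goals ((try push_cast); (try ring))
theorem covN22b {x : ℝ} : Cov PP tKN tL ndN2q2b 2 2 1239849684 370763052 (fun y => 1 ≤ h0 * y) x :=
  cov_var (lo := 11547 / 10000) (hi := 3 / 2) (fun y => y) (fun y h hv => atN22b h hv)
    (fun y h hv => ⟨(lt_off hv).le, by have := h.1.2; linarith⟩) (by norm_num) (by norm_num)

end Pool.Agent.Strip051.G.I3_16_5_16.Tab
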