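import Pool.Agent.Strip051.G.I3_16_5_16.MolD

/-! # The tight charts of a table: certificates (generated) -/

set_option linter.all false
set_option maxRecDepth 100000

namespace Pool.Agent.Strip051.G.I3_16_5_16.Tab.Mo

open Pool.Agent.Strip051.PB Pool.Agent.Strip051.PB.Mol Pool.Agent.Strip051.PB.T
open Pool.Agent.Strip051.G.I3_16_5_16.Tab

noncomputable def f0Ap : ℕ → ℕ → ℕ → ℕ → Bool :=
  onCell 0 134217728 0 16777216 201326592 134217728 (c0_Ap.row false 67108864)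

def h0_0Ap : ∃ t, chk3 f0Ap t 2 1 4 = true :=
  ⟨(a (c (a (b (c (a (a (l 8) (l 8)) (b (l 8) (a (l 8) (c (l 8) (l 8))))) (b (a (l 8) (c (a (l 8) (l 8)) (l 8))) (a (c (l 8) (a (l 8) (l 8))) (c (a (l 8) (l 8)) (l 8))))) (c (a (b (a (l 8) (l 8)) (c (l 8) (a (l 8) (a (l 8) (l 8))))) (b (c (a (l 8) (l 8)) (a (l 8) (l 8))) (c (a (a (l 8) (l 8)) (l 8)) (l 8)))) (a (b (c (a (l 8) (l 8)) (a (l 8) (l 8))) (c (a (a (l 8) (l 8)) (l 8)) (l 8))) (b (a (l 8) (l 8)) (l 8))))) (b (b (c (a (c (a (l 8) (l 8)) (l 8)) (l 8)) (a (l 8) (l 8))) (c (a (c (a (l 8) (l 8)) (l 8)) (l 8)) (a (l 8) (l 8)))) (c (a (b (a (l 8) (l 8)) (l 8)) (l 8)) (a (l 8) (l 8))))) (a (b (b (c (a (b (a (l 8) (l 8)) (c (a (l 8) (l 8)) (l 8))) (l 8)) (a (l 8) (l 8))) (c (a (c (a (l 8) (l 8)) (l 8)) (l 8)) (a (l 8) (l 8)))) (c (a (b (a (l 8)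 (l 8)) (l 8)) (l 8)) (a (l 8) (l 8)))) (b (a (l 8) (l 8)) (a (l 8) (l 8))))) (c (a (b (a (l 8) (l 8)) (a (l 8) (l 8))) (b (a (l 8) (l 10)) (a (c (l 10) (l 10)) (l 10)))) (a (b (a (l 8) (l 8)) (a (l 8) (l 8))) (b (a (l 8) (l 10)) (a (l 10) (l 10)))))), by decide +kernel⟩

def h1_0Ap : ∃ t, chk3 f0Ap t 2 1 5 = true :=
  ⟨(a (c (a (b (a (l 8) (l 8)) (a (l 8) (l 8))) (b (a (l 8) (l 8)) (a (l 8) (l 8)))) (a (b (a (l 8) (l 8)) (a (l 8) (l 8))) (c (a (l 8) (l 8)) (l 8)))) (c (a (c (a (l 8) (l 8)) (l 8)) (a (b (l 8) (l 10)) (l 10))) (a (a (l 8) (l 8)) (b (l 10) (l 10))))), by decide +kernel⟩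

def h2_0Ap : ∃ t, chk3 f0Ap t 3 1 2 = true :=
  ⟨(c (a (c (a (a (b (l 10) (l 2)) (l 2)) (a (l 2) (l 2))) (a (a (l 10) (l 2)) (a (l 2) (l 2)))) (a (c (l 2) (l 2)) (c (l 2) (l 2)))) (a (b (a (c (l 10) (l 10)) (c (l 2) (l 2))) (a (c (l 2) (l 2)) (c (l 2) (l 2)))) (a (c (l 2) (l 2)) (c (l 2) (l 2))))), by decide +kernel⟩

def h3_0Ap : ∃ t, chk3 f0Ap t 1 1 3 = true :=
  ⟨(a (c (a (c (a (c (a (l 8) (l 8)) (l 8)) (a (l 8) (l 8))) (a (a (l 8) (l 8)) (a (l 8) (l 8)))) (a (c (a (l 8) (l 8)) (a (l 8) (l 8))) (b (c (l 10) (l 10)) (c (l 10) (l 10))))) (a (c (a (a (l 8) (l 8)) (a (l 8) (l 8))) (a (a (l 8) (l 8)) (l 8))) (a (c (l 8) (l 8)) (c (l 10) (l 10))))) (c (a (b (a (c (l 10) (l 10)) (c (l 2) (l 2))) (a (c (l 2) (l 2)) (c (l 2) (l 2)))) (a (c (l 2) (a (l 2) (l 2))) (c (a (l 2) (l 2)) (b (l 2) (l 4)))))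 (a (b (a (c (l 10) (l 10)) (c (l 2) (l 2))) (a (c (l 2) (l 2)) (c (l 2) (a (l 2) (l 2))))) (a (c (b (l 2) (a (l 2) (l 2))) (b (l 2) (a (l 2) (l 2)))) (c (b (l 4) (l 4)) (b (l 4) (l 4))))))), by decide +kernel⟩

theorem h4_0Ap : ∃ t, chk3 f0Ap t 2 1 2 = true := ex3_c h0_0Ap h1_0Ap

theorem h5_0Ap : ∃ t, chk3 f0Ap t 1 1 2 = true := ex3_a h4_0Ap h2_0Ap

theorem h6_0Ap : ∃ t, chk3 f0Ap t 1 1 1 = true := ex3_c h5_0Ap h3_0Ap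

theorem ct_0Ap : ∃ t, chk3 f0Ap t 1 1 1 = true := h6_0Ap

noncomputable def f0Apk1 : ℕ → ℕ → ℕ → ℕ → Bool :=
  onCell 0 134217728 0 16777216 201326592 134217728 (c0_Apk1.row false 67108864)

def h0_0Apk1 : ∃ t, chk3 f0Apk1 t 1 1 2 = true :=
  ⟨(a (c (a (c (a (b (c (a (l 8) (b (l 8) (a (l 8) (l 8)))) (b (a (l 8) (l 8)) (a (a (l 8) (l 8)) (l 8)))) (c (a (b (l 8) (a (l 8) (l 8))) (b (l 8) (l 8))) (a (b (l 8) (l 8)) (l 8)))) (b (b (c (a (l 8) (l 8)) (l 8)) (c (a (l 8) (l 8)) (l 8))) (c (a (l 8) (l 8)) (l 8)))) (a (b (b (c (a (l 8) (l 8)) (l 8)) (c (a (l 8) (l 8)) (l 8))) (c (a (l 8) (l 8)) (l 8))) (c (a (l 8) (l 8)) (l 8)))) (c (a (c (a (l 8) (l 8)) (l 8)) (b (a (l 8) (l 10)) (a (l 10) (l 10)))) (a (a (l 8) (l 8)) (a (b (l 8) (l 10)) (l 10))))) (a (c (a (c (a (l 8) (l 8)) (l 8)) (a (l 8) (l 8)))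 (a (a (l 8) (l 8)) (a (l 8) (l 8)))) (a (c (a (l 8) (l 8)) (l 8)) (c (a (l 10) (l 10)) (a (l 10) (l 10)))))) (c (a (a (c (a (l 10) (l 2)) (l 10)) (c (l 2) (l 2))) (a (c (l 2) (l 2)) (c (l 2) (l 2)))) (a (a (c (l 10) (l 10)) (c (l 2) (l 2))) (a (c (l 2) (l 2)) (l 2))))), by decide +kernel⟩

def h1_0Apk1 : ∃ t, chk3 f0Apk1 t 1 1 3 = true :=
  ⟨(a (c (a (c (a (a (l 8) (l 8)) (l 8)) (a (l 8) (l 8))) (a (c (l 8) (l 8)) (c (l 10) (l 10)))) (a (b (c (a (l 8) (l 8)) (l 8)) (c (a (l 8) (l 8)) (l 8))) (a (c (l 8) (l 8)) (c (l 10) (l 10))))) (c (a (a (c (l 10) (l 10)) (c (l 2) (l 2))) (c (l 2) (a (l 2) (l 2)))) (a (b (a (l 10) (l 2)) (a (l 2) (l 2))) (a (c (l 2) (l 2)) (c (l 2) (l 2)))))), by decide +kernel⟩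

theorem h2_0Apk1 : ∃ t, chk3 f0Apk1 t 1 1 1 = true := ex3_c h0_0Apk1 h1_0Apk1

theorem ct_0Apk1 : ∃ t, chk3 f0Apk1 t 1 1 1 = true := h2_0Apk1

noncomputable def f0Apk2 : ℕ → ℕ → ℕ → ℕ → Bool :=
  onCell 0 134217728 0 16777216 201326592 134217728 (c0_Apk2.row false 67108864)

def h0_0Apk2 : ∃ t, chk3 f0Apk2 t 1 1 1 = true :=
  ⟨(c (a (c (a (c (a (b (c (a (l 8) (l 8)) (l 8)) (c (a (l 8) (l 8)) (l 8))) (c (a (l 8) (l 8)) (l 8))) (a (c (a (l 8) (l 8)) (l 8)) (a (l 8) (l 8)))) (c (a (a (l 8) (l 8)) (c (a (l 10) (l 10)) (l 10))) (a (l 8) (a (l 10) (l 10))))) (a (c (a (l 8) (l 8)) (a (l 8) (l 8))) (a (c (l 8) (l 8)) (c (l 10) (l 10))))) (c (a (a (c (l 10) (l 10)) (c (l 2) (l 2))) (a (l 2) (l 2))) (a (a (c (l 10) (l 10)) (l 2)) (a (l 2) (l 2))))) (a (c (a (c (a (l 8) (l 8)) (a (l 8) (l 8))) (a (c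 (l 8) (l 8)) (c (l 10) (l 10)))) (a (a (l 8) (l 8)) (a (l 8) (l 10)))) (c (a (a (l 10) (l 2)) (a (l 2) (l 2))) (a (a (l 10) (l 2)) (a (l 2) (l 2)))))), by decide +kernel⟩

theorem ct_0Apk2 : ∃ t, chk3 f0Apk2 t 1 1 1 = true := h0_0Apk2

noncomputable def f0Am : ℕ → ℕ → ℕ → ℕ → Bool :=
  onCell 0 134217728 0 16777216 201326592 134217728 (c0_Am.row true 67108864)

def h0_0Am : ∃ t, chk3 f0Am t 8 2 8 = true :=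
  ⟨(c (a (b (a (c (l 8) (l 8)) (c (l 8) (l 8))) (a (b (c (l 8) (l 8)) (l 3)) (c (a (l 8) (l 8)) (a (l 8) (l 8))))) (b (a (c (l 8) (l 8)) (c (l 8) (l 8))) (a (c (a (l 8) (l 8)) (a (l 8) (l 8))) (c (a (l 8) (l 8)) (a (l 8) (l 8)))))) (b (a (a (c (l 8) (l 8)) (c (l 8) (l 8))) (a (c (l 8) (a (l 8) (l 8))) (c (a (l 8) (l 8)) (b (c (l 8) (a (l 8) (b (l 8) (l 16)))) (a (l 8) (l 8)))))) (a (c (a (a (l 3) (l 8)) (a (l 8) (l 8))) (a (a (l 3) (l 8)) (a (l 8) (l 8)))) (c (a (a (l 8) (l 8)) (a (l 8) (l 8))) (a (a (l 8) (l 8)) (b (l 16) (l 8))))))), by decide +kernel⟩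

def h1_0Am : ∃ t, chk3 f0Am t 8 3 8 = true :=
  ⟨(c (a (b (a (l 3) (b (c (l 16) (l 16)) (l 3))) (l 3)) (b (a (c (a (l 16) (l 16)) (a (l 16) (l 16))) (c (a (l 16) (l 16)) (a (l 16) (l 16)))) (a (b (a (l 3) (c (l 8) (l 8))) (l 3)) (c (b (a (l 8) (l 8)) (a (l 16) (l 16))) (b (l 16) (a (l 16) (l 16))))))) (a (b (a (l 3) (b (c (l 16) (l 16)) (l 3))) (l 3)) (b (c (a (a (l 16) (l 16)) (a (l 16) (l 16))) (a (a (l 16) (l 16)) (a (l 16) (l 16)))) (c (a (b (l 16) (l 3)) (b (l 16) (a (l 16) (l 16)))) (a (b (l 16) (l 3)) (b (l 16) (a (l 16) (l 16)))))))), by decide +kernel⟩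

def h2_0Am : ∃ t, chk3 f0Am t 9 2 16 = true :=
  ⟨(b (a (a (c (l 8) (a (l 8) (l 8))) (c (a (l 8) (l 8)) (b (c (l 8) (a (l 8) (b (l 8) (l 16)))) (a (l 8) (l 8))))) (c (a (b (c (l 8) (a (l 8) (b (l 8) (a (l 8) (l 8))))) (a (l 8) (l 8))) (b (a (c (b (l 8) (a (l 8) (l 8))) (l 8)) (l 8)) (c (a (l 8) (b (l 8) (a (l 8) (l 8)))) (a (b (l 8) (a (l 8) (l 8))) (l 8))))) (a (b (a (c (b (l 8) (a (l 8) (l 8))) (l 8)) (l 8)) (c (a (l 8) (b (l 8) (a (l 8) (l 8)))) (a (b (l 8) (a (l 8) (l 8))) (l 8)))) (b (l 8) (c (l 8) (l 8)))))) (a (c (a (a (l 8) (l 8)) (a (l 8) (l 8))) (a (a (l 8) (l 8)) (b (l 16) (l 8)))) (c (a (b (a (l 8) (l 8)) (l 8)) (b (c (l 8) (a (l 8) (b (a (l 8) (l 8)) (a (l 8) (l 16))))) (c (l 8) (a (l 8) (l 8))))) (a (b (c (l 8) (a (l 8) (b (a (l 8) (l 8)) (a (l 8) (l 16))))) (c (l 8) (a (l 8)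 (l 8)))) (b (c (a (b (a (l 8) (l 8)) (a (l 8) (l 16))) (l 8)) (a (l 8) (l 8))) (c (a (l 8) (b (b (l 8) (l 16)) (c (l 8) (a (l 8) (l 8))))) (a (b (b (l 8) (l 16)) (c (l 8) (a (l 8) (l 8)))) (l 8)))))))), by decide +kernel⟩

def h3_0Am : ∃ t, chk3 f0Am t 18 2 17 = true :=
  ⟨(b (c (a (b (c (l 8) (a (l 8) (b (l 8) (l 16)))) (a (l 8) (l 8))) (b (a (c (b (l 8) (l 16)) (l 8)) (l 8)) (c (a (l 8) (b (l 16) (a (l 8) (l 8)))) (a (b (l 16) (a (l 8) (l 8))) (l 8))))) (a (b (a (c (b (l 8) (l 16)) (l 8)) (l 8)) (c (a (l 8) (b (l 16) (a (l 8) (l 8)))) (a (b (l 16) (a (l 8) (l 16))) (l 8)))) (b (l 8) (c (a (l 8) (l 8)) (l 8))))) (c (a (b (l 16) (l 8)) (b (c (l 8) (a (l 8) (b (l 16) (a (l 8) (l 16))))) (c (l 8) (a (l 8) (l 8))))) (a (b (c (l 16) (a (l 8) (b (l 16) (a (l 8) (l 16))))) (c (l 8) (a (l 8) (l 8))))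 (b (c (a (b (l 16) (a (l 8) (l 16))) (l 8)) (a (l 8) (l 8))) (c (a (l 8) (b (c (l 16) (l 8)) (c (l 8) (a (l 8) (l 8))))) (a (b (a (l 16) (l 8)) (c (l 8) (a (l 8) (l 8)))) (a (l 8) (l 8)))))))), by decide +kernel⟩

def h4_0Am : ∃ t, chk3 f0Am t 19 2 17 = true :=
  ⟨(b (c (a (b (l 8) (c (a (l 8) (l 8)) (l 8))) (l 8)) (l 8)) (c (a (b (c (a (b (l 16) (a (l 8) (l 16))) (l 8)) (a (l 8) (l 8))) (c (a (l 8) (b (b (l 8) (l 16)) (c (l 8) (a (l 8) (l 8))))) (a (b (b (l 8) (l 16)) (c (l 8) (a (l 8) (l 8)))) (a (l 8) (l 8))))) (b (l 8) (c (a (l 8) (l 8)) (l 8)))) (a (b (l 8) (c (a (a (l 8) (l 8)) (l 8)) (l 8))) (l 8)))), by decide +kernel⟩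

def h5_0Am : ∃ t, chk3 f0Am t 9 3 16 = true :=
  ⟨(a (b (c (a (a (l 16) (l 16)) (a (l 16) (l 8))) (a (a (l 16) (l 16)) (a (l 16) (l 8)))) (c (a (b (l 16) (a (l 16) (l 16))) (b (l 16) (a (l 16) (l 16)))) (a (b (l 16) (a (l 16) (l 16))) (b (l 16) (a (l 16) (l 16)))))) (b (a (c (a (l 8) (l 8)) (a (l 8) (l 16))) (c (a (l 8) (l 8)) (b (c (a (l 8) (l 8)) (a (l 8) (b (c (a (l 8) (l 8)) (l 8)) (c (l 8) (a (l 8) (l 8)))))) (c (l 8) (a (l 8) (l 8)))))) (c (a (b (l 16) (a (l 8) (l 8))) (b (l 16) (a (l 8) (l 8)))) (a (b (l 16) (a (l 8) (l 8))) (b (a (l 8) (l 8)) (a (l 8) (l 8))))))), by decide +kernel⟩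

def h6_0Am : ∃ t, chk3 f0Am t 18 3 17 = true :=
  ⟨(b (a (c (a (l 16) (l 16)) (a (l 16) (l 16))) (c (a (l 16) (l 16)) (b (c (a (l 8) (l 8)) (a (l 8) (b (c (a (l 8) (l 8)) (l 8)) (c (l 8) (a (l 8) (l 8)))))) (c (l 8) (a (l 8) (l 8)))))) (c (a (b (l 16) (a (l 16) (l 16))) (b (l 16) (a (l 16) (l 8)))) (a (b (l 16) (a (l 16) (l 16))) (b (a (l 8) (l 8)) (a (l 8) (l 8)))))), by decide +kernel⟩

def h7_0Am : ∃ t, chk3 f0Am t 19 6 17 = true :=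
  ⟨(c (a (b (c (a (l 8) (l 8)) (a (l 8) (b (c (a (l 8) (l 8)) (l 8)) (c (l 8) (a (l 8) (l 8)))))) (c (l 8) (a (l 8) (l 8)))) (b (c (a (b (c (a (l 8) (l 8)) (l 8)) (c (l 8) (a (l 8) (l 8)))) (b (l 8) (l 16))) (a (b (l 8) (l 16)) (l 8))) (c (a (l 8) (b (c (a (l 8) (l 8)) (l 8)) (c (l 8) (a (l 8) (l 8))))) (a (b (c (a (l 8) (l 8)) (l 8)) (c (l 8) (a (l 8) (l 8)))) (b (l 8) (b (l 8) (l 16))))))) (a (b (c (a (b (c (a (l 8) (l 8)) (l 8)) (c (l 8) (a (l 8) (l 8)))) (b (l 8) (l 16))) (a (b (l 8) (l 16)) (l 8))) (c (a (l 8) (b (c (a (l 8) (l 8)) (l 16)) (c (l 8) (a (l 8) (l 8))))) (a (b (c (a (l 8) (l 8)) (l 16)) (c (l 8) (a (l 8) (l 16)))) (b (l 8) (b (l 8) (l 16)))))) (b (l 8) (c (a (b (l 8) (b (l 8) (l 16))) (l 8)) (l 8))))), by decide +kernel⟩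

def h8_0Am : ∃ t, chk3 f0Am t 19 7 17 = true :=
  ⟨(c (a (b (a (l 8) (l 8)) (a (l 8) (l 8))) (b (c (a (l 8) (l 8)) (a (l 8) (b (c (a (l 8) (l 16)) (a (l 16) (l 8))) (a (l 8) (c (l 8) (b (l 8) (l 16))))))) (c (l 8) (a (l 8) (l 16))))) (a (b (c (a (l 8) (l 8)) (a (l 8) (b (c (a (l 8) (l 16)) (a (l 16) (l 8))) (a (l 8) (c (l 8) (b (l 8) (l 16))))))) (c (l 8) (a (l 8) (l 8)))) (b (c (a (b (c (a (l 8) (l 16)) (a (l 16) (l 8))) (a (l 8) (c (l 8) (b (l 8) (l 16))))) (b (l 8) (c (a (b (l 8) (l 16)) (l 8)) (l 8)))) (a (b (l 8) (a (c (b (l 8) (l 16)) (l 8)) (l 8))) (l 8))) (a (c (l 16) (b (a (c (l 8) (b (l 8) (a (l 8) (l 8)))) (c (b (l 8) (a (l 8) (l 8))) (l 8))) (a (l 8) (c (l 8) (b (l 8) (a (l 8) (l 8))))))) (c (b (a (c (l 8) (b (l 8) (a (l 8) (l 8)))) (c (b (l 8) (a (l 8) (l 8))) (l 8))) (a (l 8)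 (c (l 8) (b (l 8) (a (l 8) (l 8)))))) (b (l 8) (a (c (b (l 8) (a (l 8) (l 8))) (l 8)) (l 8)))))))), by decide +kernel⟩

def h9_0Am : ∃ t, chk3 f0Am t 8 2 18 = true :=
  ⟨(b (a (b (a (c (l 8) (l 8)) (c (l 8) (c (l 8) (a (l 8) (b (l 16) (l 16)))))) (c (a (l 8) (l 8)) (a (l 8) (a (l 8) (l 8))))) (b (a (c (c (l 8) (a (l 8) (b (l 8) (l 16)))) (b (l 16) (l 16))) (c (c (b (l 16) (l 16)) (l 8)) (l 8))) (c (a (a (l 8) (l 8)) (c (a (l 8) (b (l 16) (a (l 8) (l 16)))) (a (b (l 16) (l 16)) (l 8)))) (a (c (a (l 8) (b (l 16) (l 16))) (a (b (l 16) (l 16)) (l 8))) (b (l 8) (l 16)))))) (a (c (a (l 16) (a (l 8) (l 8))) (a (l 16) (a (l 8) (l 8)))) (c (a (b (l 16) (l 8)) (b (c (l 16) (a (l 8) (b (l 16) (a (l 8) (l 16))))) (c (l 8) (l 16)))) (a (b (c (l 16) (a (l 8) (b (l 16) (a (l 8) (l 16))))) (a (l 8) (l 16)))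 (b (c (a (b (l 16) (a (l 8) (l 16))) (l 8)) (a (l 16) (l 8))) (c (a (l 8) (b (a (l 16) (l 8)) (c (l 8) (a (l 8) (l 8))))) (a (b (a (l 16) (l 8)) (c (l 8) (l 16))) (a (l 16) (l 8))))))))), by decide +kernel⟩

def h10_0Am : ∃ t, chk3 f0Am t 8 2 19 = true :=
  ⟨(a (b (b (a (c (c (l 8) (b (l 16) (l 16))) (b (l 16) (l 16))) (c (b (l 16) (l 16)) (l 8))) (c (a (a (l 8) (l 16)) (c (a (l 8) (b (l 16) (l 16))) (a (b (l 16) (l 16)) (l 8)))) (a (c (a (l 8) (b (l 16) (l 16))) (b (l 16) (l 16))) (a (l 16) (l 8))))) (c (a (a (l 3) (l 8)) (b (c (l 16) (a (l 8) (b (l 16) (a (l 8) (l 16))))) (a (l 8) (l 16)))) (a (b (c (l 16) (a (l 3) (b (l 16) (l 3)))) (l 3)) (b (c (a (b (l 16) (a (l 8) (l 16))) (l 16)) (a (l 16) (l 8))) (c (a (l 8) (b (l 16) (a (l 8) (l 16)))) (a (b (l 16) (l 3)) (l 16))))))) (b (c (a (b (l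 8) (b (l 8) (l 16))) (l 8)) (l 8)) (c (a (b (c (a (b (l 16) (a (l 8) (l 16))) (l 16)) (a (l 16) (l 8))) (c (a (l 8) (b (l 16) (a (l 8) (l 16)))) (a (b (l 16) (a (l 8) (l 16))) (a (l 16) (l 8))))) (b (l 8) (c (b (l 8) (l 16)) (l 8)))) (a (b (l 8) (a (b (l 8) (l 16)) (l 8))) (l 8))))), by decide +kernel⟩

def h11_0Am : ∃ t, chk3 f0Am t 8 3 18 = true :=
  ⟨(a (b (a (l 3) (b (c (l 16) (l 16)) (l 3))) (l 3)) (b (a (c (a (l 16) (l 16)) (a (l 16) (l 16))) (c (a (l 16) (l 16)) (b (c (a (l 8) (l 8)) (a (l 8) (b (a (c (l 8) (l 8)) (l 16)) (c (l 8) (a (l 8) (l 8)))))) (c (l 8) (a (l 8) (l 8)))))) (c (a (b (l 16) (l 3)) (b (l 16) (a (l 16) (l 16)))) (a (b (l 16) (l 3)) (b (a (l 8) (l 8)) (a (l 16) (l 16))))))), by decide +kernel⟩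

def h12_0Am : ∃ t, chk3 f0Am t 16 3 19 = true :=
  ⟨(b (a (l 3) (b (c (l 16) (a (l 3) (c (l 8) (b (a (l 3) (l 16)) (l 3))))) (l 3))) (l 3)), by decide +kernel⟩

def h13_0Am : ∃ t, chk3 f0Am t 17 6 19 = true :=
  ⟨(c (a (b (c (a (l 8) (l 8)) (a (l 8) (b (a (c (l 8) (l 8)) (l 16)) (c (l 8) (a (l 8) (l 16)))))) (c (l 8) (a (l 8) (l 8)))) (b (c (a (b (a (c (l 8) (l 8)) (l 16)) (c (l 8) (a (l 8) (l 8)))) (b (l 8) (l 16))) (a (b (l 8) (l 16)) (l 8))) (c (a (l 8) (b (a (c (l 8) (l 16)) (l 16)) (a (l 8) (c (l 8) (l 16))))) (a (b (a (c (l 8) (l 16)) (l 16)) (a (l 8) (c (l 8) (l 16)))) (b (l 8) (a (l 16) (l 8))))))) (a (b (c (a (b (a (c (l 8) (l 8)) (l 16)) (c (l 8) (a (l 8) (l 16)))) (b (l 8) (l 16))) (a (b (l 8) (l 16)) (l 8))) (a (c (l 8) (b (a (l 3) (l 16)) (l 3))) (c (b (a (c (l 8) (l 16)) (l 16))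 (a (l 8) (c (l 8) (l 16)))) (b (l 8) (a (l 16) (l 8)))))) (b (l 8) (a (c (b (l 8) (a (l 16) (l 8))) (l 8)) (l 8))))), by decide +kernel⟩

def h14_0Am : ∃ t, chk3 f0Am t 17 7 19 = true :=
  ⟨(c (a (b (l 16) (l 3)) (b (c (a (l 8) (l 8)) (a (l 8) (b (a (c (l 8) (l 16)) (c (l 16) (l 8))) (a (l 8) (c (l 8) (a (l 16) (l 8))))))) (c (l 16) (a (l 8) (l 8))))) (a (b (a (l 3) (c (l 8) (b (a (l 3) (c (l 16) (l 8))) (l 3)))) (l 3)) (b (a (c (b (a (c (l 8) (l 16)) (c (l 16) (l 8))) (a (l 8) (c (l 8) (a (l 16) (l 16))))) (b (l 8) (a (a (l 3) (l 16)) (l 8)))) (c (b (l 8) (a (c (a (l 16) (l 16)) (l 8)) (l 8))) (l 8))) (a (c (l 8) (b (a (l 3) (a (l 3) (l 16))) (l 3))) (c (b (a (c (l 8) (b (l 16) (a (l 8) (l 16)))) (c (b (l 16) (a (l 8) (l 16))) (l 8))) (a (l 8) (c (l 8) (b (l 16) (a (l 8) (l 16)))))) (b (l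 16) (a (a (l 3) (l 16)) (l 16)))))))), by decide +kernel⟩

def h15_0Am : ∃ t, chk3 f0Am t 9 2 9 = true :=
  ⟨(c (a (b (c (a (b (l 8) (b (l 8) (l 16))) (l 8)) (l 8)) (c (a (b (c (a (b (l 16) (a (l 8) (l 16))) (l 8)) (a (l 8) (l 8))) (c (a (l 8) (b (a (l 16) (l 8)) (c (l 8) (a (l 8) (l 8))))) (a (b (a (l 16) (l 8)) (c (l 8) (a (l 8) (l 8)))) (a (l 8) (l 8))))) (b (l 8) (c (a (a (l 8) (l 8)) (l 8)) (l 8)))) (a (b (l 8) (c (a (a (l 16) (l 8)) (l 8)) (l 8))) (l 8)))) (a (l 8) (l 8))) (a (a (l 8) (l 8)) (a (l 8) (l 8)))), by decide +kernel⟩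

def h16_0Am : ∃ t, chk3 f0Am t 18 6 18 = true :=
  ⟨(c (a (b (c (a (l 8) (l 8)) (a (l 8) (b (c (a (l 8) (l 8)) (l 8)) (c (l 8) (a (l 8) (l 8)))))) (c (l 8) (a (l 8) (l 8)))) (b (c (a (b (c (a (l 8) (l 8)) (l 8)) (c (l 8) (a (l 8) (l 8)))) (b (l 8) (l 16))) (a (b (l 8) (l 16)) (l 8))) (c (a (l 8) (b (c (a (l 8) (l 8)) (l 16)) (c (l 8) (a (l 8) (l 16))))) (a (b (c (a (l 8) (l 8)) (l 16)) (a (l 8) (c (l 8) (l 16)))) (b (l 8) (a (l 16) (l 8))))))) (a (b (c (a (b (c (a (l 8) (l 8)) (l 8)) (c (l 8) (a (l 8) (l 8)))) (b (l 8) (l 16))) (a (b (l 8) (l 16)) (l 8))) (c (a (l 8) (b (c (a (l 8) (l 16)) (l 16)) (a (l 8) (c (l 8) (l 16))))) (a (b (a (c (l 8) (l 16)) (l 16)) (a (l 8) (c (l 8) (l 16)))) (b (l 8) (a (l 16) (l 8)))))) (b (l 8) (c (a (b (l 8) (a (l 16) (l 8))) (l 8)) (l 8))))), by decide +kernel⟩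

def h17_0Am : ∃ t, chk3 f0Am t 18 7 18 = true :=
  ⟨(c (a (b (a (l 8) (l 8)) (a (l 16) (l 8))) (b (c (a (l 8) (l 16)) (a (l 16) (b (a (c (l 8) (l 16)) (c (l 16) (l 8))) (a (l 8) (c (l 8) (b (l 8) (l 16))))))) (c (l 8) (a (l 8) (l 8))))) (a (b (c (a (l 8) (l 16)) (a (l 16) (b (a (c (l 8) (l 16)) (c (l 16) (l 8))) (a (l 8) (c (l 8) (a (l 16) (l 8))))))) (c (l 16) (a (l 8) (l 8)))) (b (a (c (b (a (c (l 8) (l 16)) (c (l 16) (l 8))) (a (l 8) (c (l 8) (a (l 16) (l 8))))) (b (l 8) (a (c (a (l 16) (l 8)) (l 8)) (l 8)))) (c (b (l 8) (a (c (b (l 8) (l 16)) (l 8)) (l 8))) (l 8))) (a (c (l 8) (b (a (c (l 8) (b (l 8) (a (l 8) (l 8)))) (c (b (l 8) (a (l 8) (l 8))) (l 8))) (a (l 8) (c (l 8) (b (l 16) (a (l 8) (l 16))))))) (c (b (a (c (l 8) (b (l 8) (a (l 8) (l 8)))) (c (b (l 8) (a (l 8) (l 8))) (l 8))) (a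 (l 8) (c (l 8) (b (l 16) (a (l 8) (l 16)))))) (b (l 8) (a (c (b (l 16) (a (l 8) (l 16))) (l 8)) (l 8)))))))), by decide +kernel⟩

def h18_0Am : ∃ t, chk3 f0Am t 19 3 18 = true :=
  ⟨(b (c (a (b (l 8) (c (a (b (l 8) (a (l 16) (l 8))) (l 8)) (l 8))) (l 8)) (l 8)) (c (a (b (c (a (b (c (a (l 8) (l 16)) (a (l 16) (l 8))) (a (l 8) (c (l 8) (b (l 8) (l 16))))) (b (l 8) (a (c (b (l 8) (l 16)) (l 8)) (l 8)))) (a (b (l 8) (a (c (b (l 8) (l 16)) (l 8)) (l 8))) (l 8))) (a (c (l 8) (b (a (c (l 8) (b (l 8) (a (l 8) (l 8)))) (c (b (l 8) (a (l 8) (l 8))) (l 8))) (a (l 8) (c (l 8) (b (l 16) (a (l 8) (l 16))))))) (c (b (a (c (l 8) (b (l 8) (a (l 8) (l 8)))) (c (b (l 8) (a (l 8) (l 8))) (l 8))) (a (l 8) (c (l 8) (b (l 8) (a (l 8) (l 8)))))) (b (l 8) (a (c (b (l 16) (a (l 8) (l 16))) (l 8)) (l 8)))))) (b (l 8)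 (c (a (b (l 8) (a (c (b (l 8) (a (l 8) (l 8))) (l 8)) (l 8))) (l 8)) (l 8)))) (a (b (l 8) (c (a (b (l 8) (a (c (b (l 16) (a (l 8) (l 16))) (l 8)) (l 8))) (l 8)) (l 8))) (l 8)))), by decide +kernel⟩

def h19_0Am : ∃ t, chk3 f0Am t 9 3 19 = true :=
  ⟨(a (b (c (a (b (l 8) (a (c (b (l 8) (a (l 16) (l 8))) (l 8)) (l 8))) (l 8)) (l 8)) (c (a (b (a (c (b (a (c (l 8) (l 16)) (c (l 16) (l 8))) (a (l 8) (c (l 8) (a (l 16) (l 8))))) (b (l 8) (a (c (a (l 16) (l 8)) (l 8)) (l 8)))) (c (b (l 8) (a (c (a (l 16) (l 8)) (l 8)) (l 8))) (l 8))) (a (c (l 8) (b (a (c (l 8) (b (l 16) (a (l 8) (l 16)))) (c (b (l 16) (a (l 8) (l 16))) (l 8))) (a (l 8) (c (l 8) (b (l 16) (a (l 8) (l 16))))))) (c (b (a (c (l 8) (b (l 16) (a (l 8) (l 16)))) (c (b (l 16) (a (l 8) (l 16))) (l 8))) (a (l 8) (c (l 8) (b (l 16) (a (l 8)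 (l 16)))))) (b (l 8) (a (c (b (l 16) (a (l 8) (l 16))) (l 8)) (l 8)))))) (b (l 8) (c (a (b (l 8) (a (c (b (l 16) (a (l 8) (l 16))) (l 8)) (l 8))) (l 8)) (l 8)))) (a (b (l 8) (a (c (b (l 16) (a (c (b (l 16) (a (l 8) (l 16))) (l 8)) (l 8))) (l 8)) (l 8))) (l 8)))) (b (l 8) (a (l 8) (l 8)))), by decide +kernel⟩

def h20_0Am : ∃ t, chk3 f0Am t 10 2 8 = true :=
  ⟨(c (a (b (c (a (b (l 8) (a (l 8) (l 8))) (l 8)) (l 8)) (c (a (b (c (a (b (a (l 8) (l 8)) (a (l 8) (l 8))) (l 8)) (a (l 8) (l 8))) (c (a (l 8) (b (b (l 8) (l 16)) (c (l 8) (a (l 8) (l 8))))) (a (b (b (l 8) (l 16)) (c (l 8) (a (l 8) (l 8)))) (l 8)))) (b (l 8) (c (a (l 8) (l 8)) (l 8)))) (a (b (l 8) (c (a (l 8) (l 8)) (l 8))) (l 8)))) (a (l 8) (l 8))) (a (a (l 8) (l 8)) (a (l 8) (l 8)))), by decide +kernel⟩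

def h21_0Am : ∃ t, chk3 f0Am t 20 6 16 = true :=
  ⟨(c (a (b (c (a (l 8) (l 8)) (a (l 8) (b (c (a (l 8) (l 8)) (l 8)) (c (l 8) (a (l 8) (l 8)))))) (c (l 8) (a (l 8) (l 8)))) (b (c (a (b (c (a (l 8) (l 8)) (l 8)) (c (l 8) (a (l 8) (l 8)))) (a (l 8) (l 8))) (a (a (l 8) (l 8)) (l 8))) (c (a (l 8) (b (c (a (l 8) (l 8)) (l 8)) (c (l 8) (a (l 8) (l 8))))) (a (b (c (a (l 8) (l 8)) (l 8)) (c (l 8) (a (l 8) (l 8)))) (b (l 8) (a (l 8) (l 8))))))) (a (b (c (a (b (c (a (l 8) (l 8)) (l 8)) (c (l 8) (a (l 8) (l 8)))) (a (l 8) (l 8))) (a (a (l 8) (l 8)) (l 8))) (c (a (l 8) (b (c (a (l 8) (l 8)) (l 8)) (c (l 8) (a (l 8) (l 8))))) (a (b (c (a (l 8) (l 8)) (l 8)) (c (l 8) (a (l 8) (l 8)))) (b (l 8) (b (l 8) (l 16)))))) (b (l 8) (c (a (b (l 8) (c (l 8) (l 8))) (l 8)) (l 8))))), by decide +kernel⟩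

def h22_0Am : ∃ t, chk3 f0Am t 20 7 16 = true :=
  ⟨(c (a (b (a (l 8) (l 8)) (a (l 8) (l 8))) (b (c (a (l 8) (l 8)) (a (l 8) (b (c (a (l 8) (l 8)) (a (l 8) (l 8))) (c (l 8) (a (l 8) (a (l 8) (l 8))))))) (c (l 8) (a (l 8) (l 16))))) (a (b (c (a (l 8) (l 8)) (a (l 8) (b (c (a (l 8) (l 8)) (a (l 8) (l 8))) (a (l 8) (c (l 8) (a (l 16) (l 8))))))) (c (l 8) (a (l 8) (l 16)))) (b (c (a (b (c (a (l 8) (l 8)) (a (l 8) (l 8))) (c (l 8) (a (l 8) (a (l 8) (l 8))))) (b (l 8) (c (a (a (l 8) (l 8)) (l 8)) (l 8)))) (a (b (l 8) (c (a (a (l 16) (l 8)) (l 8)) (l 8))) (l 8))) (c (a (l 16) (b (c (a (l 8) (b (l 8) (a (l 8) (l 8)))) (a (b (l 8) (a (l 8) (l 8))) (l 8))) (a (l 8) (c (l 8) (b (l 8) (a (l 8) (l 8))))))) (a (b (c (a (l 8) (b (l 8) (a (l 8) (l 8)))) (a (b (l 8) (a (l 8) (l 8))) (l 8))) (a (l 8) (c (l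 8) (b (l 8) (a (l 8) (l 8)))))) (b (l 8) (c (a (b (l 8) (a (l 8) (l 8))) (l 8)) (l 8)))))))), by decide +kernel⟩

def h23_0Am : ∃ t, chk3 f0Am t 21 3 16 = true :=
  ⟨(b (c (a (b (l 8) (c (a (b (l 8) (a (l 8) (l 8))) (l 8)) (l 8))) (l 8)) (l 8)) (c (a (b (c (a (b (c (a (l 8) (l 8)) (a (l 8) (l 8))) (c (l 8) (a (l 8) (l 8)))) (b (l 8) (c (a (l 8) (l 8)) (l 8)))) (a (b (l 8) (c (a (l 8) (l 8)) (l 8))) (l 8))) (c (a (l 8) (b (c (a (l 8) (a (l 8) (l 8))) (a (b (l 8) (l 16)) (l 8))) (a (l 8) (c (l 8) (b (l 8) (a (l 8) (l 8))))))) (a (b (c (a (l 8) (b (l 8) (l 16))) (a (b (l 8) (a (l 8) (l 8))) (l 8))) (a (l 8) (c (l 8) (b (l 8) (a (l 8) (l 8)))))) (b (l 8) (c (a (b (l 8) (a (l 8) (l 8))) (l 8)) (l 8)))))) (b (l 8) (c (a (b (l 8) (c (a (b (l 8) (a (l 8) (l 8))) (l 8)) (l 8))) (l 8)) (l 8)))) (a (b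 (l 8) (c (a (b (l 8) (c (a (b (l 8) (a (l 8) (l 8))) (l 8)) (l 8))) (l 8)) (l 8))) (l 8)))), by decide +kernel⟩

def h24_0Am : ∃ t, chk3 f0Am t 10 3 17 = true :=
  ⟨(a (b (c (a (b (l 8) (c (a (b (l 8) (b (l 8) (l 16))) (l 8)) (l 8))) (l 8)) (l 8)) (c (a (b (c (a (b (c (a (l 8) (l 16)) (a (l 16) (l 8))) (a (l 8) (c (l 8) (b (l 8) (l 16))))) (b (l 8) (c (a (b (l 8) (l 16)) (l 8)) (l 8)))) (a (b (l 8) (c (a (b (l 8) (l 16)) (l 8)) (l 8))) (l 8))) (c (a (l 16) (b (c (a (l 8) (b (l 8) (a (l 8) (l 8)))) (a (b (l 8) (a (l 8) (l 8))) (l 8))) (a (l 8) (c (l 8) (b (l 8) (a (l 8) (l 8))))))) (a (b (c (a (l 8) (b (l 8) (a (l 8) (l 8)))) (a (b (l 8) (a (l 8) (l 8))) (l 8))) (a (l 8) (c (l 8) (b (l 8) (a (l 8) (l 8)))))) (b (l 8) (a (c (b (l 8) (a (l 8) (l 8))) (l 8)) (l 8)))))) (b (l 8) (c (a (b (l 8) (c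 (a (b (l 8) (a (l 8) (l 8))) (l 8)) (l 8))) (l 8)) (l 8)))) (a (b (l 8) (c (a (b (l 8) (a (c (b (l 8) (a (l 8) (l 8))) (l 8)) (l 8))) (l 8)) (l 8))) (l 8)))) (b (l 8) (a (l 8) (l 8)))), by decide +kernel⟩

def h25_0Am : ∃ t, chk3 f0Am t 11 1 8 = true :=
  ⟨(b (b (a (c (l 8) (l 8)) (c (l 10) (l 10))) (c (a (l 8) (l 8)) (a (l 8) (l 8)))) (a (c (c (l 8) (l 8)) (a (l 8) (l 8))) (c (a (l 8) (l 8)) (a (l 8) (l 8))))), by decide +kernel⟩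

def h26_0Am : ∃ t, chk3 f0Am t 5 1 9 = true :=
  ⟨(a (b (c (a (a (l 8) (l 8)) (a (l 8) (l 8))) (a (a (l 8) (l 8)) (l 8))) (c (a (b (l 8) (a (l 8) (l 8))) (a (l 8) (l 8))) (a (a (l 8) (l 8)) (a (l 8) (l 8))))) (b (b (a (c (l 8) (l 8)) (c (l 10) (l 10))) (a (c (l 8) (l 8)) (c (l 8) (l 8)))) (c (a (a (l 8) (l 8)) (a (l 8) (l 8))) (a (a (l 8) (l 8)) (a (l 8) (l 8)))))), by decide +kernel⟩

def h27_0Am : ∃ t, chk3 f0Am t 4 1 10 = true :=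
  ⟨(a (b (c (a (b (a (c (b (l 8) (a (l 16) (l 8))) (l 8)) (l 8)) (c (a (b (a (l 3) (c (l 16) (l 8))) (l 3)) (b (l 8) (a (c (l 16) (l 8)) (l 8)))) (a (a (l 3) (l 8)) (l 8)))) (a (l 8) (l 8))) (a (a (l 8) (l 8)) (a (l 8) (l 8)))) (c (a (b (a (l 3) (b (c (a (l 3) (a (l 3) (l 8))) (l 8)) (l 3))) (l 3)) (b (c (a (b (l 8) (a (a (l 3) (l 16)) (l 8))) (l 8)) (l 8)) (c (a (b (a (l 3) (a (l 3) (l 16))) (l 3)) (b (l 8) (a (b (l 16) (l 3)) (l 8)))) (a (a (l 3) (l 8)) (l 8))))) (a (b (a (l 3) (l 8)) (l 3)) (b (a (l 8) (l 8)) (a (l 8) (l 8)))))) (b (c (a (a (l 8) (l 8)) (a (l 8) (l 8))) (a (a (l 8) (l 8)) (a (l 8) (l 8)))) (c (a (b (l 8) (a (l 8) (l 8))) (b (l 8) (l 8))) (a (c (l 8) (l 8)) (b (l 8) (l 8)))))), by decide +kernel⟩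

def h28_0Am : ∃ t, chk3 f0Am t 4 1 11 = true :=
  ⟨(a (b (c (a (a (l 8) (l 8)) (a (l 8) (l 8))) (a (a (l 8) (l 8)) (a (l 8) (l 8)))) (c (a (b (a (l 3) (l 8)) (l 3)) (a (l 8) (l 8))) (a (a (l 3) (l 8)) (a (l 8) (l 8))))) (b (a (c (a (l 8) (l 8)) (a (l 8) (l 8))) (c (l 8) (l 8))) (c (a (a (l 8) (l 8)) (a (l 8) (l 8))) (a (a (l 8) (l 8)) (a (l 8) (l 8)))))), by decide +kernel⟩

def h29_0Am : ∃ t, chk3 f0Am t 5 1 5 = true :=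
  ⟨(c (a (b (a (c (a (l 8) (l 8)) (l 8)) (c (l 8) (l 8))) (c (a (a (l 8) (l 8)) (a (l 8) (l 8))) (a (a (l 8) (l 8)) (a (l 8) (l 8))))) (b (b (a (c (l 8) (l 8)) (c (l 10) (l 10))) (a (c (l 8) (l 8)) (c (l 8) (l 8)))) (c (a (a (l 8) (l 8)) (l 8)) (a (l 8) (l 8))))) (a (b (a (c (l 8) (l 8)) (c (l 8) (l 8))) (c (a (a (l 8) (l 8)) (a (l 8) (l 8))) (a (a (l 8) (l 8)) (l 8)))) (b (b (a (l 8) (c (l 10) (l 10))) (a (l 8) (l 8))) (c (a (l 8) (l 8)) (a (l 8) (l 8)))))), by decide +kernel⟩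

def h30_0Am : ∃ t, chk3 f0Am t 3 1 4 = true :=
  ⟨(a (c (a (b (a (c (a (l 10) (l 2)) (a (l 10) (l 2))) (c (b (a (l 2) (l 2)) (a (l 2) (l 2))) (a (l 2) (b (l 2) (l 2))))) (a (c (b (a (l 10) (l 2)) (a (l 10) (l 2))) (a (l 10) (l 2))) (c (b (a (l 2) (l 2)) (a (l 2) (l 2))) (b (a (l 2) (l 2)) (a (l 2) (l 2)))))) (b (a (c (a (l 4) (l 4)) (a (l 4) (l 4))) (c (l 4) (l 4))) (a (c (b (l 4) (l 4)) (a (l 4) (l 4))) (c (l 4) (l 4))))) (a (b (a (b (c (l 10) (l 10)) (c (l 10) (l 10))) (c (a (l 2) (l 2)) (a (l 2) (l 2)))) (a (c (a (l 10) (l 2)) (a (l 10) (l 2))) (c (a (l 2) (l 2)) (a (l 2) (l 2))))) (b (a (b (l 4) (c (l 4) (l 4))) (c (l 4) (l 4))) (a (c (a (l 4) (l 4)) (a (l 2) (l 4))) (c (l 4) (l 4)))))) (a (c (b (a (l 4) (l 4)) (a (c (l 4) (l 4)) (l 4))) (b (a (l 4) (l 4)) (a (c (l 4) (l 4)) (l 4)))) (c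 (b (l 4) (l 4)) (b (l 4) (a (l 4) (l 4)))))), by decide +kernel⟩

def h31_0Am : ∃ t, chk3 f0Am t 3 1 5 = true :=
  ⟨(a (a (b (c (a (c (l 10) (l 10)) (c (a (l 2) (l 2)) (a (l 2) (l 2)))) (a (c (l 10) (l 10)) (b (c (l 2) (l 2)) (c (l 2) (l 2))))) (c (a (c (a (l 10) (l 2)) (l 10)) (c (a (l 2) (l 2)) (a (l 2) (l 2)))) (a (c (l 10) (l 10)) (c (a (l 2) (l 2)) (l 2))))) (c (b (a (b (l 4) (c (l 4) (l 4))) (c (l 4) (l 4))) (a (c (a (l 2) (l 4)) (a (l 2) (l 2))) (c (l 4) (l 4)))) (b (a (b (l 4) (c (l 4) (l 2))) (c (l 4) (l 4))) (a (c (a (l 2) (l 2)) (a (l 2) (l 2))) (c (l 4) (l 4)))))) (a (c (b (a (l 4) (l 4)) (a (c (l 4) (l 4)) (l 4))) (b (a (l 4) (l 4)) (a (l 4) (l 4)))) (c (a (l 4) (l 4)) (a (l 4) (l 4))))), by decide +kernel⟩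

def h32_0Am : ∃ t, chk3 f0Am t 2 1 6 = true :=
  ⟨(a (c (a (b (a (c (a (l 8) (l 8)) (a (l 8) (l 8))) (c (a (l 8) (l 8)) (l 8))) (c (a (a (l 3) (l 8)) (a (l 8) (l 8))) (a (a (l 3) (l 8)) (a (l 8) (l 8))))) (b (a (c (l 8) (l 8)) (c (l 8) (l 8))) (c (a (a (l 8) (l 8)) (a (l 8) (l 8))) (a (a (l 8) (l 8)) (a (l 8) (l 8)))))) (a (b (a (c (l 8) (l 8)) (c (l 8) (l 8))) (c (a (a (l 3) (l 8)) (a (l 8) (l 8))) (a (a (l 3) (l 8)) (a (l 8) (l 8))))) (b (a (c (l 8) (l 8)) (c (l 8) (l 8))) (c (a (l 8) (l 8)) (a (l 8) (l 8)))))) (a (c (b (a (c (l 8) (l 8)) (c (l 8) (l 8))) (c (a (l 8) (l 8)) (a (l 8) (l 8)))) (b (a (c (l 8) (l 8)) (c (l 8) (l 8))) (c (a (l 8) (l 8)) (a (l 8) (l 8))))) (b (b (c (a (l 8) (c (l 10) (l 10))) (a (l 8) (l 10))) (c (a (l 8) (l 8)) (a (l 8) (l 8)))) (c (c (a (l 8) (l 8)) (a (l 8)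 (l 8))) (a (c (l 8) (l 8)) (c (l 8) (l 8))))))), by decide +kernel⟩

def h33_0Am : ∃ t, chk3 f0Am t 2 1 7 = true :=
  ⟨(a (a (c (b (a (c (l 8) (l 8)) (c (l 8) (l 8))) (c (a (a (l 3) (l 8)) (l 8)) (a (a (l 3) (l 8)) (l 8)))) (b (a (c (l 8) (l 8)) (c (l 8) (l 8))) (c (a (l 8) (l 8)) (a (l 8) (a (l 8) (l 8)))))) (c (b (a (c (l 8) (l 8)) (c (l 8) (l 8))) (c (a (l 8) (l 8)) (a (l 8) (l 8)))) (b (a (c (l 8) (l 8)) (c (l 8) (l 8))) (a (c (l 8) (l 8)) (c (l 8) (l 8)))))) (b (a (c (a (c (l 8) (l 8)) (c (l 8) (l 8))) (a (l 8) (l 8))) (b (c (a (l 8) (l 10)) (a (l 8) (l 10))) (c (a (l 8) (l 8)) (a (l 8) (l 8))))) (a (c (a (c (l 8) (l 8)) (c (l 8) (l 8))) (a (c (l 8) (l 8)) (c (l 8) (l 8)))) (c (a (c (l 8) (l 8)) (l 8)) (c (a (l 8) (l 8)) (l 8)))))), by decide +kernel⟩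

def h34_0Am : ∃ t, chk3 f0Am t 3 1 3 = true :=
  ⟨(c (a (b (a (c (a (c (l 10) (l 10)) (c (l 2) (l 2))) (a (c (l 10) (l 10)) (c (l 2) (l 2)))) (c (a (b (l 4) (l 4)) (c (l 4) (l 4))) (a (c (l 2) (l 2)) (c (l 4) (l 4))))) (a (c (a (c (l 10) (l 10)) (c (l 2) (l 2))) (a (c (l 10) (l 10)) (c (l 2) (l 2)))) (c (a (c (l 2) (l 2)) (c (l 4) (l 2))) (a (c (l 2) (l 2)) (c (l 2) (l 2)))))) (a (c (b (a (l 4) (l 4)) (a (l 4) (l 4))) (b (a (l 4) (l 4)) (a (l 4) (l 4)))) (c (a (l 4) (l 4)) (b (l 4) (l 4))))) (a (b (a (c (a (c (l 10) (l 10)) (c (l 2) (l 2))) (b (a (l 10) (c (l 2) (l 2))) (a (l 10) (c (l 2) (l 2))))) (c (a (b (l 4) (l 4)) (c (l 4) (l 4))) (a (b (c (l 4) (l 4)) (c (l 2) (l 4))) (c (l 4) (l 4))))) (a (c (a (c (l 10) (l 10)) (c (l 2) (l 2))) (a (c (l 10) (l 10)) (c (l 2) (l 2)))) (c (a (c (l 2)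 (l 2)) (c (l 2) (l 4))) (a (c (l 2) (a (l 2) (l 2))) (c (l 4) (l 4)))))) (a (c (b (a (l 4) (l 4)) (a (c (l 4) (l 4)) (l 4))) (b (a (l 4) (l 4)) (a (c (l 4) (l 4)) (l 4)))) (c (b (l 4) (a (l 4) (l 4))) (b (l 4) (a (l 4) (l 4))))))), by decide +kernel⟩

theorem h35_0Am : ∃ t, chk3 f0Am t 2 1 3 = true := ex3_c h32_0Am h33_0Am

theorem h36_0Am : ∃ t, chk3 f0Am t 1 1 3 = true := ex3_a h35_0Am h34_0Am

theorem h37_0Am : ∃ t, chk3 f0Am t 3 1 2 = true := ex3_c h30_0Am h31_0Am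

theorem h38_0Am : ∃ t, chk3 f0Am t 4 1 5 = true := ex3_c h27_0Am h28_0Am

theorem h39_0Am : ∃ t, chk3 f0Am t 2 1 5 = true := ex3_a h38_0Am h29_0Am

theorem h40_0Am : ∃ t, chk3 f0Am t 20 3 16 = true := ex3_b h21_0Am h22_0Am

theorem h41_0Am : ∃ t, chk3 f0Am t 10 3 16 = true := ex3_a h40_0Am h23_0Am

theorem h42_0Am : ∃ t, chk3 f0Am t 10 3 8 = true := ex3_c h41_0Am h24_0Am

theorem h43_0Am : ∃ t, chk3 f0Am t 10 1 8 = true := ex3_b h20_0Am h42_0Am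

theorem h44_0Am : ∃ t, chk3 f0Am t 5 1 8 = true := ex3_a h43_0Am h25_0Am

theorem h45_0Am : ∃ t, chk3 f0Am t 5 1 4 = true := ex3_c h44_0Am h26_0Am

theorem h46_0Am : ∃ t, chk3 f0Am t 18 3 18 = true := ex3_b h16_0Am h17_0Am

theorem h47_0Am : ∃ t, chk3 f0Am t 9 3 18 = true := ex3_a h46_0Am h18_0Am

theorem h48_0Am : ∃ t, chk3 f0Am t 9 3 9 = true := ex3_c h47_0Am h19_0Am

theorem h49_0Am : ∃ t, chk3 f0Am t 9 1 9 = true := ex3_b h15_0Am h48_0Am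

theorem h50_0Am : ∃ t, chk3 f0Am t 17 3 19 = true := ex3_b h13_0Am h14_0Am

theorem h51_0Am : ∃ t, chk3 f0Am t 8 3 19 = true := ex3_a h12_0Am h50_0Am

theorem h52_0Am : ∃ t, chk3 f0Am t 8 3 9 = true := ex3_c h11_0Am h51_0Am

theorem h53_0Am : ∃ t, chk3 f0Am t 8 2 9 = true := ex3_c h9_0Am h10_0Am

theorem h54_0Am : ∃ t, chk3 f0Am t 8 1 9 = true := ex3_b h53_0Am h52_0Am

theorem h55_0Am : ∃ t, chk3 f0Am t 4 1 9 = true := ex3_a h54_0Am h49_0Am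

theorem h56_0Am : ∃ t, chk3 f0Am t 19 3 17 = true := ex3_b h7_0Am h8_0Am

theorem h57_0Am : ∃ t, chk3 f0Am t 9 3 17 = true := ex3_a h6_0Am h56_0Am

theorem h58_0Am : ∃ t, chk3 f0Am t 9 3 8 = true := ex3_c h5_0Am h57_0Am

theorem h59_0Am : ∃ t, chk3 f0Am t 9 2 17 = true := ex3_a h3_0Am h4_0Am

theorem h60_0Am : ∃ t, chk3 f0Am t 9 2 8 = true := ex3_c h2_0Am h59_0Am

theorem h61_0Am : ∃ t, chk3 f0Am t 9 1 8 = true := ex3_b h60_0Am h58_0Am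

theorem h62_0Am : ∃ t, chk3 f0Am t 8 1 8 = true := ex3_b h0_0Am h1_0Am

theorem h63_0Am : ∃ t, chk3 f0Am t 4 1 8 = true := ex3_a h62_0Am h61_0Am

theorem h64_0Am : ∃ t, chk3 f0Am t 4 1 4 = true := ex3_c h63_0Am h55_0Am

theorem h65_0Am : ∃ t, chk3 f0Am t 2 1 4 = true := ex3_a h64_0Am h45_0Am

theorem h66_0Am : ∃ t, chk3 f0Am t 2 1 2 = true := ex3_c h65_0Am h39_0Am

theorem h67_0Am : ∃ t, chk3 f0Am t 1 1 2 = true := ex3_a h66_0Am h37_0Am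

theorem h68_0Am : ∃ t, chk3 f0Am t 1 1 1 = true := ex3_c h67_0Am h36_0Am

theorem ct_0Am : ∃ t, chk3 f0Am t 1 1 1 = true := h68_0Am

noncomputable def f0Bp : ℕ → ℕ → ℕ → ℕ → Bool :=
  onCell 0 134217728 0 16777216 201326592 134217728 (c0_Bp.row false 67108864)

def h0_0Bp : ∃ t, chk3 f0Bp t 4 1 8 = true :=
  ⟨(a (b (c (a (b (c (a (l 8) (l 8)) (a (l 8) (l 8))) (c (a (l 8) (l 8)) (a (l 8) (l 8)))) (b (c (a (l 8) (l 8)) (a (l 8) (l 8))) (c (a (l 8) (l 8)) (a (l 8) (l 8))))) (a (b (c (a (l 8) (l 8)) (a (l 8) (l 8))) (c (a (l 8) (l 8)) (a (l 8) (l 8)))) (b (a (l 8) (l 8)) (c (a (l 8) (l 8)) (l 8))))) (c (a (b (a (l 3) (c (l 8) (l 8))) (l 3)) (b (c (a (l 8) (l 8)) (a (l 8) (l 8))) (c (a (l 8) (l 8)) (a (l 8) (l 8))))) (a (b (a (l 3) (c (l 8) (l 8))) (l 3)) (b (c (a (l 8) (l 8)) (l 8)) (c (a (l 8)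 (l 8)) (a (l 8) (l 8))))))) (b (a (c (b (a (l 8) (l 8)) (a (l 8) (l 8))) (b (a (l 8) (l 8)) (a (l 8) (l 8)))) (c (c (a (l 8) (l 8)) (l 8)) (a (l 8) (l 8)))) (c (a (b (c (l 8) (l 8)) (c (a (l 8) (l 8)) (l 8))) (b (a (l 8) (l 8)) (a (l 8) (l 8)))) (a (b (a (l 8) (l 8)) (a (l 8) (l 8))) (c (a (l 8) (l 8)) (l 8)))))), by decide +kernel⟩

def h1_0Bp : ∃ t, chk3 f0Bp t 4 1 9 = true :=
  ⟨(a (b (a (c (b (a (c (l 8) (l 8)) (l 8)) (a (c (l 8) (l 8)) (l 8))) (b (a (l 8) (l 8)) (a (l 8) (l 8)))) (c (b (a (l 8) (l 8)) (a (l 8) (l 8))) (c (a (l 8) (l 8)) (l 8)))) (c (a (b (a (l 3) (c (l 8) (l 8))) (l 3)) (b (a (l 8) (l 8)) (a (l 8) (l 8)))) (a (b (a (l 3) (l 8)) (l 3)) (b (a (l 8) (l 8)) (a (l 8) (l 8)))))) (b (a (c (a (l 8) (l 8)) (a (l 8) (l 8))) (c (a (l 8) (l 8)) (l 8))) (a (c (a (b (l 8) (l 8)) (l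 8)) (a (l 8) (l 8))) (c (a (l 8) (l 8)) (a (l 8) (l 8)))))), by decide +kernel⟩

def h2_0Bp : ∃ t, chk3 f0Bp t 5 1 4 = true :=
  ⟨(c (a (b (a (c (a (l 8) (l 8)) (a (l 8) (l 8))) (c (l 8) (l 8))) (a (c (a (l 8) (l 8)) (a (l 8) (l 8))) (c (a (l 8) (l 8)) (l 8)))) (b (a (c (l 8) (l 8)) (c (l 10) (l 10))) (a (c (l 8) (l 8)) (c (a (l 8) (l 10)) (l 10))))) (a (b (a (c (l 8) (l 8)) (c (l 8) (l 8))) (a (c (a (l 8) (l 8)) (l 8)) (c (l 8) (l 8)))) (b (a (c (l 8) (l 8)) (c (l 10) (l 10))) (b (c (l 8) (l 8)) (c (a (l 8) (l 8)) (l 8)))))), by decide +kernel⟩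

def h3_0Bp : ∃ t, chk3 f0Bp t 2 1 5 = true :=
  ⟨(a (c (a (b (a (c (b (a (l 8) (l 8)) (a (l 8) (l 8))) (c (a (l 8) (l 8)) (l 8))) (c (a (l 8) (l 8)) (a (l 8) (l 8)))) (a (b (a (l 3) (c (l 8) (l 8))) (l 3)) (c (c (a (l 8) (l 8)) (l 8)) (a (l 8) (l 8))))) (b (a (c (a (l 8) (l 8)) (l 8)) (c (l 8) (l 8))) (a (c (a (l 8) (l 8)) (a (l 8) (l 8))) (c (l 8) (l 8))))) (a (b (a (c (a (l 8) (l 8)) (a (l 8) (l 8))) (c (a (l 8) (l 8)) (a (l 8) (l 8)))) (a (b (c (l 8) (l 8)) (l 3)) (c (a (l 8) (l 8)) (a (l 8) (l 8))))) (b (a (c (l 8) (l 8)) (c (l 8) (l 8))) (a (c (a (l 8) (l 8)) (l 8)) (c (l 8) (l 8)))))) (c (a (b (a (c (l 8) (l 8)) (c (l 8) (l 8))) (a (c (l 8) (l 8)) (c (l 8) (l 8)))) (b (a (l 8) (c (l 10) (l 10))) (b (a (l 8) (l 8)) (a (l 8) (l 8))))) (a (b (c (a (l 8) (l 8)) (l 8)) (a (c (l 8) (l 8))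 (c (l 8) (l 8)))) (b (a (l 8) (l 10)) (a (l 8) (c (l 8) (l 8))))))), by decide +kernel⟩

def h4_0Bp : ∃ t, chk3 f0Bp t 3 1 2 = true :=
  ⟨(c (a (c (a (b (b (a (c (l 10) (l 10)) (l 2)) (a (c (l 10) (l 10)) (l 2))) (a (c (l 10) (l 10)) (c (l 2) (l 2)))) (b (a (c (l 2) (l 2)) (c (l 2) (l 2))) (a (c (l 2) (l 2)) (c (l 2) (l 2))))) (a (b (b (a (l 10) (l 2)) (a (l 10) (l 2))) (a (c (l 10) (l 10)) (c (l 2) (l 2)))) (b (a (l 2) (l 2)) (a (c (l 2) (l 2)) (c (l 2) (l 2)))))) (c (a (b (a (l 2) (l 2)) (a (c (l 2) (l 2)) (l 4))) (b (l 4) (a (l 2) (l 2)))) (a (b (a (l 2) (l 2)) (a (l 2) (l 2))) (b (l 4) (a (l 2) (l 2)))))) (a (c (a (b (a (l 10) (l 2)) (a (c (l 10) (l 10)) (c (l 2) (l 2)))) (b (a (l 2) (l 2)) (a (l 2) (l 2)))) (b (a (a (l 10) (l 2)) (a (l 2) (l 2))) (a (a (l 10) (l 2)) (a (l 2) (l 2)))))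 (a (b (c (a (l 2) (l 2)) (a (l 2) (l 2))) (c (a (l 2) (l 2)) (a (l 2) (l 2)))) (b (c (l 4) (l 4)) (c (a (l 2) (l 2)) (a (l 2) (l 2))))))), by decide +kernel⟩

def h5_0Bp : ∃ t, chk3 f0Bp t 2 1 3 = true :=
  ⟨(c (a (c (a (b (a (c (a (l 8) (l 8)) (a (l 8) (l 8))) (c (l 8) (l 8))) (a (b (c (l 8) (l 8)) (l 3)) (c (a (l 8) (l 8)) (l 8)))) (b (c (a (l 8) (l 8)) (a (l 8) (l 8))) (a (c (l 8) (l 8)) (c (l 8) (l 8))))) (a (b (a (c (l 8) (l 8)) (c (l 8) (l 8))) (a (c (a (l 3) (l 8)) (l 8)) (c (l 8) (l 8)))) (b (c (a (l 8) (l 8)) (l 8)) (a (c (l 8) (l 8)) (c (l 8) (l 8)))))) (c (a (b (a (l 8) (l 8)) (c (a (l 8) (l 8)) (l 8))) (b (a (l 8) (l 10)) (a (l 8) (l 8)))) (a (b (a (l 8) (l 8)) (a (l 8) (l 8))) (b (a (l 8) (l 10)) (a (l 8) (l 8)))))) (a (c (a (b (a (c (l 8) (l 8)) (c (l 8) (l 8))) (a (c (l 8) (l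 8)) (c (l 8) (l 8)))) (b (a (l 8) (l 8)) (c (a (l 8) (l 8)) (l 8)))) (a (b (a (c (l 8) (l 8)) (l 8)) (a (c (l 8) (l 8)) (c (l 8) (l 8)))) (b (a (l 8) (l 8)) (a (l 8) (l 8))))) (c (a (b (a (l 8) (l 8)) (a (l 8) (l 8))) (b (l 10) (a (l 8) (l 8)))) (a (b (l 8) (a (l 8) (l 8))) (a (l 8) (l 10)))))), by decide +kernel⟩

def h6_0Bp : ∃ t, chk3 f0Bp t 3 1 3 = true :=
  ⟨(c (a (c (b (a (a (l 10) (l 2)) (a (l 2) (l 2))) (a (a (l 10) (l 2)) (a (l 2) (l 2)))) (b (a (a (l 10) (l 2)) (a (l 2) (l 2))) (a (a (l 10) (l 2)) (a (l 2) (l 2))))) (b (a (c (a (l 2) (l 2)) (a (l 2) (l 2))) (c (l 4) (l 4))) (a (c (a (l 2) (l 2)) (a (l 2) (l 2))) (c (a (l 2) (l 2)) (a (l 2) (l 2)))))) (a (b (a (c (l 10) (l 10)) (c (l 2) (l 2))) (a (c (a (l 10) (l 2)) (l 10)) (c (a (l 2) (l 2)) (a (l 2) (l 2))))) (b (a (c (a (l 2) (l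 2)) (a (l 2) (l 2))) (c (l 4) (l 4))) (a (c (a (l 2) (l 2)) (a (l 2) (l 2))) (c (a (l 2) (l 2)) (l 4)))))), by decide +kernel⟩

theorem h7_0Bp : ∃ t, chk3 f0Bp t 1 1 3 = true := ex3_a h5_0Bp h6_0Bp

theorem h8_0Bp : ∃ t, chk3 f0Bp t 4 1 4 = true := ex3_c h0_0Bp h1_0Bp

theorem h9_0Bp : ∃ t, chk3 f0Bp t 2 1 4 = true := ex3_a h8_0Bp h2_0Bp

theorem h10_0Bp : ∃ t, chk3 f0Bp t 2 1 2 = true := ex3_c h9_0Bp h3_0Bp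

theorem h11_0Bp : ∃ t, chk3 f0Bp t 1 1 2 = true := ex3_a h10_0Bp h4_0Bp

theorem h12_0Bp : ∃ t, chk3 f0Bp t 1 1 1 = true := ex3_c h11_0Bp h7_0Bp

theorem ct_0Bp : ∃ t, chk3 f0Bp t 1 1 1 = true := h12_0Bp

noncomputable def f0Bpk1 : ℕ → ℕ → ℕ → ℕ → Bool :=
  onCell 0 134217728 0 16777216 201326592 134217728 (c0_Bpk1.row false 67108864)

def h0_0Bpk1 : ∃ t, chk3 f0Bpk1 t 2 1 4 = true :=
  ⟨(a (c (a (b (c (a (a (l 8) (l 8)) (a (l 8) (l 8))) (a (a (l 8) (l 8)) (l 8))) (c (a (a (l 3) (l 8)) (a (l 8) (l 8))) (a (a (l 3) (l 8)) (a (l 8) (l 8))))) (b (c (a (l 8) (l 8)) (a (l 8) (l 8))) (c (a (a (l 8) (l 8)) (l 8)) (a (l 8) (l 8))))) (a (b (c (a (l 8) (l 8)) (a (l 8) (l 8))) (c (a (a (l 3) (l 8)) (l 8)) (a (l 8) (l 8)))) (b (c (a (l 8) (l 8)) (a (l 8) (l 8))) (c (a (l 8) (l 8)) (a (l 8) (l 8))))))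 (c (a (b (c (a (l 8) (l 8)) (a (l 8) (l 8))) (c (a (l 8) (l 8)) (a (l 8) (l 8)))) (b (a (l 8) (c (l 10) (l 10))) (a (c (l 8) (l 8)) (c (l 10) (l 10))))) (a (b (a (l 8) (l 8)) (c (a (l 8) (l 8)) (l 8))) (b (a (l 8) (l 10)) (a (l 8) (c (l 10) (l 10))))))), by decide +kernel⟩

def h1_0Bpk1 : ∃ t, chk3 f0Bpk1 t 2 1 5 = true :=
  ⟨(a (c (a (b (c (a (l 8) (l 8)) (a (l 8) (l 8))) (c (a (l 8) (l 8)) (a (l 8) (l 8)))) (b (a (l 8) (l 8)) (c (a (l 8) (l 8)) (l 8)))) (a (b (c (a (l 8) (l 8)) (l 8)) (c (a (l 8) (l 8)) (a (l 8) (l 8)))) (b (a (l 8) (l 8)) (a (l 8) (l 8))))) (c (a (b (a (l 8) (l 8)) (a (l 8) (l 8))) (b (a (l 8) (l 10)) (a (l 8) (l 10)))) (a (c (a (l 8) (l 8)) (l 8)) (a (l 8) (b (l 10) (l 10)))))), by decide +kernel⟩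

def h2_0Bpk1 : ∃ t, chk3 f0Bpk1 t 3 1 2 = true :=
  ⟨(c (a (c (a (b (a (c (l 10) (l 10)) (l 2)) (a (c (l 10) (l 10)) (c (l 2) (l 2)))) (b (a (l 2) (l 2)) (a (c (l 2) (l 2)) (l 2)))) (a (b (a (l 10) (l 2)) (a (l 10) (l 2))) (b (a (l 2) (l 2)) (a (l 2) (l 2))))) (c (a (b (a (l 2) (l 2)) (a (l 2) (l 2))) (b (l 2) (l 4))) (a (b (l 2) (a (l 2) (l 2))) (b (l 2) (l 2))))) (a (c (a (b (a (l 10) (l 2)) (a (l 10) (l 2))) (b (l 2) (a (l 2) (l 2)))) (a (b (l 10) (a (l 10) (l 2))) (b (l 2) (l 2)))) (a (b (c (l 2) (l 2)) (c (l 2) (l 2))) (b (c (l 2) (l 2)) (c (l 2) (l 2)))))), by decide +kernel⟩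

def h3_0Bpk1 : ∃ t, chk3 f0Bpk1 t 1 1 3 = true :=
  ⟨(a (c (a (c (a (b (a (l 8) (l 8)) (a (l 8) (l 8))) (c (a (l 8) (l 8)) (l 8))) (a (b (a (l 8) (l 8)) (a (l 8) (l 8))) (a (l 8) (l 8)))) (c (a (a (l 8) (l 8)) (a (l 8) (l 10))) (a (a (l 8) (l 8)) (a (l 8) (l 10))))) (a (c (a (a (l 8) (l 8)) (a (l 8) (l 8))) (a (a (l 8) (l 8)) (a (l 8) (l 8)))) (a (c (a (l 8) (l 8)) (l 8)) (c (a (l 8) (l 10)) (l 10))))) (c (a (a (b (c (l 10) (l 10)) (c (l 10) (l 10))) (b (c (l 2) (l 2)) (c (l 2) (l 2)))) (b (a (c (l 2) (l 2)) (c (l 2) (l 2))) (a (c (l 2) (l 2)) (c (l 2) (l 2))))) (a (b (a (c (l 10) (l 10)) (c (l 2) (l 2))) (a (c (l 10) (l 10)) (c (l 2) (l 2)))) (b (a (c (l 2) (l 2)) (c (l 2) (l 2))) (a (c (l 2) (l 2)) (c (l 2) (l 2))))))), by decide +kernel⟩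

theorem h4_0Bpk1 : ∃ t, chk3 f0Bpk1 t 2 1 2 = true := ex3_c h0_0Bpk1 h1_0Bpk1

theorem h5_0Bpk1 : ∃ t, chk3 f0Bpk1 t 1 1 2 = true := ex3_a h4_0Bpk1 h2_0Bpk1

theorem h6_0Bpk1 : ∃ t, chk3 f0Bpk1 t 1 1 1 = true := ex3_c h5_0Bpk1 h3_0Bpk1

theorem ct_0Bpk1 : ∃ t, chk3 f0Bpk1 t 1 1 1 = true := h6_0Bpk1

noncomputable def f0Bpk2 : ℕ → ℕ → ℕ → ℕ → Bool :=
  onCell 0 134217728 0 16777216 201326592 134217728 (c0_Bpk2.row false 67108864)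

def h0_0Bpk2 : ∃ t, chk3 f0Bpk2 t 1 1 2 = true :=
  ⟨(a (c (a (c (a (b (c (a (l 8) (l 8)) (a (l 8) (l 8))) (c (a (a (l 3) (l 8)) (l 8)) (a (l 8) (l 8)))) (b (c (l 8) (l 8)) (c (a (l 8) (l 8)) (l 8)))) (a (b (a (l 8) (l 8)) (c (a (l 8) (l 8)) (l 8))) (b (a (l 8) (l 8)) (a (l 8) (l 8))))) (c (a (b (a (l 8) (l 8)) (a (l 8) (l 8))) (b (a (l 8) (l 10)) (a (l 8) (l 10)))) (a (c (a (l 8) (l 8)) (l 8)) (a (l 8) (b (l 10) (l 10)))))) (a (c (a (b (a (l 8) (l 8)) (a (l 8) (l 8))) (c (a (l 8) (l 8)) (l 8))) (a (c (a (l 8) (l 8)) (l 8)) (a (l 8) (l 8)))) (c (a (a (l 8) (l 8)) (a (l 8) (l 10))) (a (a (l 8) (l 8)) (a (l 8) (l 10)))))) (c (a (c (a (b (a (l 10) (l 2)) (a (l 10) (l 2))) (b (a (l 2) (l 2)) (a (l 2) (l 2)))) (a (b (l 10) (a (l 10) (l 2))) (a (l 2) (l 2)))) (c (a (a (l 2) (l 2)) (a (l 2) (l 2)))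 (a (a (l 2) (l 2)) (a (l 2) (l 2))))) (a (c (a (a (l 10) (l 2)) (a (l 2) (l 2))) (a (a (l 10) (l 2)) (a (l 2) (l 2)))) (a (c (a (l 2) (l 2)) (l 2)) (c (l 2) (l 2)))))), by decide +kernel⟩

def h1_0Bpk2 : ∃ t, chk3 f0Bpk2 t 1 1 3 = true :=
  ⟨(a (c (a (c (a (a (l 8) (l 8)) (a (l 8) (l 8))) (a (a (l 8) (l 8)) (l 8))) (c (a (l 8) (a (l 8) (l 10))) (a (l 8) (l 10)))) (a (c (a (l 8) (l 8)) (a (l 8) (l 8))) (a (c (l 8) (l 8)) (c (l 10) (l 10))))) (c (a (a (c (l 10) (l 10)) (c (l 2) (l 2))) (a (c (l 2) (l 2)) (c (l 2) (l 2)))) (a (b (a (l 10) (l 2)) (a (l 10) (l 2))) (b (a (l 2) (l 2)) (c (a (l 2) (l 2)) (l 2)))))), by decide +kernel⟩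

theorem h2_0Bpk2 : ∃ t, chk3 f0Bpk2 t 1 1 1 = true := ex3_c h0_0Bpk2 h1_0Bpk2

theorem ct_0Bpk2 : ∃ t, chk3 f0Bpk2 t 1 1 1 = true := h2_0Bpk2

noncomputable def f0Bm : ℕ → ℕ → ℕ → ℕ → Bool :=
  onCell 0 134217728 0 16777216 201326592 134217728 (c0_Bm.row true 67108864)

def h0_0Bm : ∃ t, chk3 f0Bm t 8 2 8 = true :=
  ⟨(a (c (b (c (a (b (l 16) (l 16)) (b (l 16) (l 16))) (a (b (l 16) (l 16)) (b (l 16) (l 16)))) (c (a (b (a (l 16) (l 16)) (a (l 16) (l 16))) (b (a (l 16) (l 16)) (a (l 16) (l 16)))) (a (b (l 16) (a (l 16) (l 16))) (b (l 16) (a (l 16) (l 16)))))) (b (c (a (b (l 16) (l 16)) (b (l 16) (l 16))) (a (a (l 16) (l 16)) (b (l 16) (l 16)))) (c (a (b (l 16) (l 16)) (b (l 16) (l 16))) (a (b (l 16) (l 16)) (b (l 16) (l 16)))))) (c (b (c (a (b (l 16) (l 16)) (b (l 16) (l 16))) (a (b (l 16) (l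 16)) (b (l 16) (l 16)))) (c (a (b (a (l 16) (l 16)) (a (l 16) (l 16))) (b (a (l 16) (l 16)) (a (l 16) (l 16)))) (a (b (l 16) (a (l 16) (l 8))) (b (l 16) (l 16))))) (b (c (a (b (l 16) (l 16)) (b (l 16) (l 16))) (a (b (l 16) (l 16)) (b (l 16) (l 16)))) (c (a (b (l 16) (l 16)) (b (l 16) (l 16))) (a (b (l 16) (l 16)) (b (l 16) (l 8))))))), by decide +kernel⟩

def h1_0Bm : ∃ t, chk3 f0Bm t 9 2 8 = true :=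
  ⟨(c (a (b (c (a (b (l 16) (l 16)) (b (l 16) (a (l 16) (l 8)))) (a (b (l 16) (l 16)) (b (l 16) (l 16)))) (c (a (b (a (l 16) (l 16)) (a (l 16) (l 8))) (b (a (l 8) (l 8)) (a (l 8) (l 8)))) (a (b (l 16) (l 16)) (b (l 16) (l 16))))) (b (c (a (b (l 16) (a (l 8) (l 8))) (b (a (l 8) (l 8)) (a (l 8) (l 8)))) (a (b (l 16) (l 16)) (b (a (l 8) (l 8)) (a (l 8) (l 8))))) (c (a (b (a (l 8) (l 8)) (a (l 8) (l 8))) (b (a (l 8) (l 8)) (a (l 8) (l 8)))) (a (b (a (l 8) (l 8)) (a (l 8) (l 8))) (c (a (l 8) (l 8)) (l 8)))))) (a (b (c (a (b (l 16) (l 16)) (b (l 16) (l 16))) (a (a (l 8) (l 8)) (a (l 8) (l 8)))) (c (a (b (l 16) (l 16)) (b (l 16) (l 16))) (a (a (l 8) (l 8)) (a (l 8) (l 8))))) (b (c (a (b (l 8) (l 8)) (a (l 8) (l 8))) (a (a (l 8) (l 8)) (a (l 8) (l 8)))) (c (a (a (l 8) (l 8)) (a (l 8) (l 8))) (a (a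 (l 8) (l 8)) (a (l 8) (l 8))))))), by decide +kernel⟩

def h2_0Bm : ∃ t, chk3 f0Bm t 4 2 9 = true :=
  ⟨(a (c (a (b (c (a (a (l 16) (l 16)) (a (l 16) (l 8))) (b (l 16) (a (l 8) (l 8)))) (c (a (a (l 16) (l 16)) (a (l 16) (l 8))) (a (a (l 8) (l 8)) (a (l 8) (l 8))))) (b (c (a (a (l 8) (l 8)) (a (l 8) (l 8))) (a (a (l 8) (l 8)) (a (l 8) (l 8)))) (c (a (a (l 8) (l 8)) (a (l 8) (l 8))) (a (a (l 8) (l 8)) (a (l 8) (l 8)))))) (a (b (c (b (l 16) (a (l 8) (l 8))) (b (l 16) (l 16))) (c (a (a (l 8) (l 8)) (a (l 8) (l 8))) (a (l 16) (l 8)))) (b (c (a (a (l 8) (l 8)) (l 8)) (a (l 8) (l 8))) (c (a (a (l 8) (l 8)) (l 8)) (a (l 8) (l 8)))))) (b (a (c (c (a (a (l 8) (l 8)) (a (l 8) (l 8))) (a (a (l 8) (l 8)) (a (l 8) (l 8)))) (a (c (l 8) (l 8)) (c (l 8) (l 8)))) (c (a (c (a (l 8) (l 8)) (l 8)) (c (a (l 8) (l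 8)) (l 8))) (a (c (l 8) (l 8)) (c (l 8) (l 8))))) (a (c (c (a (a (l 8) (l 8)) (a (l 8) (l 8))) (a (a (l 8) (l 8)) (a (l 8) (l 8)))) (c (a (l 8) (l 8)) (a (l 8) (l 8)))) (c (c (a (a (l 8) (l 8)) (a (l 8) (l 8))) (a (l 8) (l 8))) (c (a (l 8) (l 8)) (a (l 8) (l 8))))))), by decide +kernel⟩

def h3_0Bm : ∃ t, chk3 f0Bm t 10 2 8 = true :=
  ⟨(c (a (b (c (a (b (a (l 8) (l 8)) (a (l 8) (l 8))) (b (a (l 8) (l 8)) (a (l 8) (l 8)))) (a (c (a (l 8) (l 8)) (l 8)) (b (a (l 8) (l 8)) (l 8)))) (c (a (b (a (l 8) (l 8)) (a (l 8) (l 8))) (b (a (l 8) (l 8)) (a (l 8) (l 8)))) (a (c (l 8) (l 8)) (a (l 8) (l 8))))) (b (c (a (b (a (l 8) (l 8)) (a (l 8) (l 8))) (b (a (l 8) (l 8)) (a (l 8) (l 8)))) (a (a (l 8) (l 8)) (a (l 8) (l 8)))) (c (a (c (a (l 8) (l 8)) (l 8)) (c (a (l 8) (l 8)) (l 8))) (a (a (l 8) (l 8)) (a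 (l 8) (l 8)))))) (a (b (c (a (a (l 8) (l 8)) (a (l 8) (l 8))) (a (a (l 8) (l 8)) (a (l 8) (l 8)))) (c (a (a (l 8) (l 8)) (a (l 8) (l 8))) (a (a (l 8) (l 8)) (a (l 8) (l 8))))) (b (c (a (a (l 8) (l 8)) (a (l 8) (l 8))) (a (a (l 8) (l 8)) (a (l 8) (l 8)))) (c (a (a (l 8) (l 8)) (a (l 8) (l 8))) (a (a (l 8) (l 8)) (a (l 8) (l 8))))))), by decide +kernel⟩

def h4_0Bm : ∃ t, chk3 f0Bm t 22 2 8 = true :=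
  ⟨(b (c (c (a (c (a (l 8) (l 8)) (l 8)) (c (a (l 8) (l 8)) (l 8))) (a (a (l 8) (l 8)) (a (l 8) (l 8)))) (a (c (a (l 8) (l 8)) (a (l 8) (l 8))) (c (a (l 8) (l 8)) (a (l 8) (l 8))))) (c (c (a (b (l 8) (l 8)) (a (l 8) (l 8))) (a (a (l 8) (l 8)) (a (l 8) (l 8)))) (c (a (a (l 8) (l 8)) (a (l 8) (l 8))) (a (a (l 8) (l 8)) (a (l 8) (l 8)))))), by decide +kernel⟩

def h5_0Bm : ∃ t, chk3 f0Bm t 23 2 8 = true :=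
  ⟨(b (a (c (c (b (a (l 8) (l 8)) (l 8)) (a (l 8) (l 8))) (c (a (l 8) (l 8)) (a (l 8) (l 8)))) (c (c (b (a (l 8) (c (a (l 10) (l 10)) (l 10))) (a (b (l 12) (l 12)) (l 10))) (b (a (l 8) (c (l 10) (l 10))) (a (b (l 12) (l 12)) (l 10)))) (c (b (a (l 8) (l 10)) (a (c (l 12) (l 10)) (l 10))) (b (a (l 8) (l 10)) (a (c (l 10) (l 10)) (l 10)))))) (c (a (c (b (a (l 8) (c (l 12) (l 12))) (a (c (l 12) (l 12)) (c (l 12) (l 12)))) (b (a (l 8) (c (l 12) (l 12))) (a (l 12) (l 12)))) (c (b (a (c (l 12) (l 10)) (l 2)) (a (l 2) (l 2))) (b (a (c (l 10) (l 10)) (l 2)) (a (l 2) (l 2))))) (a (c (b (a (l 8) (c (l 12) (l 12))) (a (l 12) (l 12))) (b (a (l 8) (l 12)) (a (l 12) (l 12)))) (c (a (b (l 10) (l 2)) (l 2)) (b (a (l 10) (l 2)) (l 2)))))), by decide +kernel⟩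

def h6_0Bm : ∃ t, chk3 f0Bm t 5 2 9 = true :=
  ⟨(a (c (a (b (a (c (a (l 8) (l 8)) (l 8)) (c (l 8) (l 8))) (c (a (a (l 8) (l 8)) (l 8)) (a (l 8) (l 8)))) (b (a (c (l 8) (l 8)) (c (l 8) (l 8))) (c (a (l 8) (a (l 8) (l 8))) (a (l 8) (l 8))))) (a (b (a (c (l 8) (l 8)) (c (l 8) (l 8))) (a (c (l 8) (l 8)) (c (l 8) (l 8)))) (b (a (c (l 8) (l 8)) (c (l 8) (l 8))) (a (c (l 8) (l 8)) (c (l 8) (l 8)))))) (a (c (b (a (c (a (l 8) (l 8)) (l 8)) (c (l 8) (l 8))) (c (a (l 8) (l 8)) (a (l 8) (l 8)))) (b (a (c (l 8) (l 8)) (c (l 8) (l 8))) (c (a (l 8) (l 8)) (a (l 8) (l 8))))) (b (c (a (c (l 8) (l 8)) (c (b (a (l 8) (l 10)) (a (c (l 10) (l 10)) (l 10))) (b (a (l 8) (l 10)) (a (l 10) (l 10))))) (a (c (l 8) (l 8)) (c (a (b (l 8) (l 10)) (l 10)) (a (b (l 8) (l 10)) (l 10))))) (c (a (c (b (a (l 8) (l 12)) (a (l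 12) (l 12))) (b (a (l 8) (l 12)) (a (l 12) (l 12)))) (c (b (a (l 10) (l 2)) (l 2)) (b (a (l 10) (l 2)) (l 2)))) (a (c (b (a (l 8) (l 12)) (l 12)) (b (a (l 8) (l 12)) (l 12))) (c (a (l 10) (l 2)) (a (l 10) (l 2)))))))), by decide +kernel⟩

def h7_0Bm : ∃ t, chk3 f0Bm t 4 2 10 = true :=
  ⟨(a (b (a (c (c (a (l 8) (l 8)) (a (l 8) (l 8))) (a (c (l 8) (l 8)) (c (l 8) (l 8)))) (c (a (c (l 8) (l 8)) (c (l 8) (l 8))) (a (c (l 8) (l 8)) (c (l 8) (l 8))))) (a (c (c (a (l 8) (l 8)) (a (l 8) (l 8))) (c (a (l 8) (l 8)) (a (l 8) (l 8)))) (c (c (a (l 8) (l 8)) (a (l 8) (l 8))) (a (c (l 8) (l 8)) (c (l 8) (l 8)))))) (b (a (c (a (c (l 8) (l 8)) (c (l 8) (l 8))) (a (c (l 8) (l 8)) (c (l 8) (l 8)))) (c (a (c (l 8) (l 8)) (c (l 8) (l 8))) (a (c (l 8) (l 8)) (c (l 8) (l 8))))) (a (c (a (c (l 8) (l 8)) (c (l 8)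 (l 8))) (a (c (l 8) (l 8)) (c (l 8) (l 8)))) (c (a (c (l 8) (l 8)) (c (l 8) (l 8))) (a (c (l 8) (l 8)) (c (l 8) (l 8))))))), by decide +kernel⟩

def h8_0Bm : ∃ t, chk3 f0Bm t 4 2 11 = true :=
  ⟨(a (b (a (c (b (l 16) (a (l 8) (l 8))) (c (a (l 8) (l 8)) (l 8))) (c (a (c (l 8) (l 8)) (c (l 8) (l 8))) (a (c (l 8) (l 8)) (l 8)))) (a (c (a (c (l 8) (l 8)) (c (l 8) (l 8))) (a (c (l 8) (l 8)) (c (l 8) (l 8)))) (c (a (c (l 8) (l 8)) (c (l 8) (l 8))) (a (c (l 8) (l 8)) (l 8))))) (a (c (b (c (a (l 8) (l 8)) (l 8)) (a (c (l 8) (l 8)) (c (l 8) (l 8)))) (b (a (l 8) (l 8)) (a (l 8) (l 8)))) (c (b (a (c (l 8) (l 8)) (l 8)) (c (a (l 8) (l 8)) (l 8))) (b (a (l 8) (l 8)) (a (l 8) (l 8)))))), by decide +kernel⟩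

def h9_0Bm : ∃ t, chk3 f0Bm t 10 2 5 = true :=
  ⟨(c (a (c (b (a (c (l 8) (l 8)) (c (l 8) (l 8))) (a (c (l 8) (l 8)) (c (l 8) (l 8)))) (b (a (c (l 8) (l 8)) (c (l 8) (l 8))) (a (c (l 8) (l 8)) (c (l 8) (l 8))))) (c (b (a (c (l 8) (l 8)) (c (l 8) (l 8))) (a (c (l 8) (l 8)) (c (l 8) (l 8)))) (b (a (c (l 8) (l 8)) (c (l 8) (l 8))) (a (c (l 8) (l 8)) (c (l 8) (l 8)))))) (a (c (b (a (l 8) (l 8)) (a (l 8) (l 8))) (b (a (l 8) (l 8)) (a (l 8) (l 8)))) (c (b (a (l 8) (l 8)) (a (l 8) (l 8))) (b (a (l 8) (l 8)) (a (l 8) (l 8)))))), by decide +kernel⟩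

def h10_0Bm : ∃ t, chk3 f0Bm t 11 2 5 = true :=
  ⟨(c (a (c (b (a (c (l 8) (l 8)) (c (l 8) (l 8))) (a (c (l 8) (l 8)) (c (l 8) (l 8)))) (b (a (c (l 8) (l 8)) (c (l 8) (l 8))) (a (c (l 8) (l 8)) (c (l 8) (l 8))))) (b (c (a (c (l 8) (l 8)) (c (b (a (l 8) (l 10)) (l 10)) (b (a (l 8) (l 10)) (l 10)))) (a (c (l 8) (l 8)) (c (a (l 10) (l 10)) (a (l 10) (l 10))))) (c (a (c (b (a (l 8) (l 10)) (l 12)) (b (l 12) (l 12))) (c (a (l 10) (l 2)) (a (l 10) (l 2)))) (a (c (b (l 12) (l 12)) (b (l 12) (l 12))) (c (l 10) (l 10)))))) (a (c (b (a (l 8) (l 8)) (a (l 8) (l 8))) (b (a (l 8) (l 8)) (a (l 8) (l 8)))) (b (c (a (l 8) (c (l 10) (l 10))) (a (l 8) (c (l 10) (l 10)))) (c (a (c (a (l 12) (l 10)) (a (l 12) (l 10))) (c (l 10) (l 10))) (a (c (a (l 10) (l 10)) (l 10)) (c (l 10) (l 10))))))), by decide +kernel⟩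

def h11_0Bm : ∃ t, chk3 f0Bm t 8 6 8 = true :=
  ⟨(c (a (b (c (a (b (l 16) (a (l 16) (l 16))) (c (a (l 16) (l 16)) (l 16))) (a (a (l 16) (l 16)) (a (l 16) (l 16)))) (c (a (a (l 16) (l 16)) (a (l 16) (l 16))) (a (a (l 16) (l 16)) (a (l 16) (l 16))))) (c (a (b (a (l 16) (l 16)) (a (l 16) (l 16))) (b (a (l 16) (l 16)) (a (l 16) (l 16)))) (a (b (a (l 16) (l 16)) (a (l 16) (l 16))) (b (a (l 8) (l 8)) (a (l 16) (l 16)))))) (a (c (a (b (a (l 16) (l 16)) (a (l 16) (l 8))) (b (a (l 16) (l 8)) (a (l 8) (l 8)))) (a (b (l 16) (a (l 8) (l 8))) (b (l 16) (a (l 8) (l 8))))) (c (a (b (l 16) (a (l 8) (l 8))) (b (l 16) (a (l 8) (l 8)))) (a (b (l 16) (a (l 8) (l 8))) (b (l 8) (a (l 8) (l 8))))))), by decide +kernel⟩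

def h12_0Bm : ∃ t, chk3 f0Bm t 8 7 8 = true :=
  ⟨(c (a (c (a (b (a (l 8) (l 8)) (a (l 8) (l 8))) (b (a (l 8) (l 8)) (a (l 8) (l 8)))) (a (b (a (l 8) (l 8)) (l 16)) (b (a (l 8) (l 8)) (l 16)))) (c (a (b (a (l 8) (l 8)) (a (l 8) (l 8))) (b (a (l 8) (l 8)) (a (l 8) (l 8)))) (a (b (a (l 8) (l 8)) (l 16)) (b (a (l 8) (l 8)) (l 16))))) (a (c (a (b (l 16) (l 16)) (b (l 16) (l 16))) (a (b (l 16) (l 8)) (b (l 16) (l 8)))) (c (a (b (l 16) (l 8)) (b (l 16) (l 8))) (a (b (l 16) (l 8)) (b (l 8) (l 8)))))), by decide +kernel⟩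

def h13_0Bm : ∃ t, chk3 f0Bm t 9 3 8 = true :=
  ⟨(b (a (c (c (a (b (a (l 16) (l 8)) (a (l 16) (l 16))) (b (a (l 8) (l 8)) (b (l 16) (l 16)))) (a (b (a (l 8) (l 8)) (a (l 16) (l 16))) (b (a (l 8) (l 8)) (a (l 16) (l 8))))) (c (a (b (l 16) (a (l 8) (l 8))) (b (l 16) (a (l 8) (l 8)))) (a (b (l 8) (a (l 8) (l 8))) (b (l 8) (l 16))))) (c (c (a (b (a (l 8) (l 8)) (b (l 16) (l 16))) (b (a (l 8) (l 8)) (b (l 16) (l 16)))) (a (b (a (l 8) (l 8)) (a (l 8) (l 8))) (b (a (l 8) (l 8)) (a (l 8) (l 8))))) (c (a (b (l 8) (a (l 8) (l 8))) (b (l 8) (a (l 8) (l 8)))) (a (b (l 8) (l 8)) (a (l 8) (l 8)))))) (a (c (c (a (b (a (l 8) (l 8)) (a (l 8) (l 8))) (b (a (l 8) (l 8)) (a (l 8) (l 8)))) (a (b (a (l 8) (l 8)) (l 8)) (b (a (l 8) (l 8)) (l 8)))) (c (a (b (l 16) (l 8)) (b (l 16) (l 8))) (a (b (l 8) (l 8)) (b (l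 8) (l 8))))) (c (c (a (b (a (l 8) (l 8)) (a (l 8) (l 8))) (b (a (l 8) (l 8)) (l 8))) (a (b (a (l 8) (l 8)) (l 8)) (b (a (l 8) (l 8)) (l 8)))) (c (a (b (l 8) (l 8)) (b (l 8) (l 8))) (a (b (l 8) (l 8)) (b (l 8) (l 8))))))), by decide +kernel⟩

def h14_0Bm : ∃ t, chk3 f0Bm t 8 3 9 = true :=
  ⟨(b (c (a (c (a (b (l 16) (l 16)) (b (l 8) (l 16))) (a (b (l 8) (l 16)) (b (l 8) (l 16)))) (c (a (b (l 8) (l 16)) (b (l 8) (l 16))) (a (b (l 8) (l 8)) (a (l 8) (l 8))))) (a (c (a (b (l 8) (l 8)) (a (l 16) (l 8))) (a (a (l 8) (l 8)) (a (l 8) (l 8)))) (c (a (a (l 8) (l 8)) (a (l 8) (l 8))) (a (a (l 8) (l 8)) (l 8))))) (c (a (c (a (b (l 16) (l 8)) (b (l 8) (l 8))) (a (b (l 8) (l 8)) (a (l 8) (l 8)))) (c (a (b (l 8) (l 8)) (b (l 8) (l 8))) (a (a (l 8) (l 8)) (a (l 8) (l 8))))) (a (c (a (a (l 8) (l 8)) (a (l 8)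 (l 8))) (a (a (l 8) (l 8)) (a (l 8) (l 8)))) (c (a (a (l 8) (l 8)) (a (l 8) (l 8))) (a (a (l 8) (l 8)) (a (l 8) (l 8))))))), by decide +kernel⟩

def h15_0Bm : ∃ t, chk3 f0Bm t 9 3 9 = true :=
  ⟨(b (c (a (c (a (b (l 8) (l 8)) (a (l 8) (l 8))) (a (a (l 8) (l 8)) (a (l 8) (l 8)))) (c (a (a (l 8) (l 8)) (a (l 8) (l 8))) (a (a (l 8) (l 8)) (l 8)))) (a (c (a (a (l 8) (l 8)) (l 8)) (a (l 8) (l 8))) (c (a (l 8) (l 8)) (a (l 8) (l 8))))) (a (c (c (a (a (l 8) (l 8)) (a (l 8) (l 8))) (a (a (l 8) (l 8)) (a (l 8) (l 8)))) (a (c (a (l 8) (l 8)) (a (l 8) (l 8))) (c (a (l 8) (l 8)) (a (l 8) (l 8))))) (c (a (c (a (l 8) (l 8)) (a (l 8) (l 8))) (c (a (l 8) (l 8)) (a (l 8) (l 8)))) (c (a (a (l 8) (l 8)) (a (l 8) (l 8))) (a (a (l 8) (l 8)) (a (l 8) (l 8))))))), by decide +kernel⟩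

def h16_0Bm : ∃ t, chk3 f0Bm t 10 3 8 = true :=
  ⟨(b (a (c (c (a (b (a (l 8) (l 8)) (a (l 8) (l 8))) (b (a (l 8) (l 8)) (a (l 8) (l 8)))) (a (b (l 8) (a (l 8) (l 8))) (b (l 8) (a (l 8) (l 8))))) (c (a (b (l 8) (l 8)) (a (l 8) (l 8))) (a (a (l 8) (l 8)) (a (l 8) (l 8))))) (c (c (a (b (a (l 8) (l 8)) (a (l 8) (l 8))) (b (l 8) (a (l 8) (l 8)))) (a (a (l 8) (l 8)) (a (l 8) (l 8)))) (c (a (a (l 8) (l 8)) (a (l 8) (l 8))) (a (a (l 8) (l 8)) (a (l 8) (l 8)))))) (a (c (c (a (b (a (l 8) (l 8)) (l 8)) (b (a (l 8) (l 8)) (l 8))) (a (b (a (l 8) (l 8)) (l 8)) (b (a (l 8) (l 8)) (l 8)))) (a (c (b (l 8) (l 8)) (b (l 8) (l 8))) (c (b (l 8) (l 8)) (b (l 8) (l 8))))) (c (a (c (b (a (l 8) (l 8)) (l 8)) (b (a (l 8) (l 8)) (l 8))) (c (b (a (l 8) (l 8)) (l 8)) (b (a (l 8) (l 8)) (l 8)))) (c (a (b (l 8) (l 8))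 (b (a (l 8) (l 8)) (l 8))) (a (b (l 8) (l 8)) (b (l 8) (l 8))))))), by decide +kernel⟩

def h17_0Bm : ∃ t, chk3 f0Bm t 10 3 9 = true :=
  ⟨(b (a (c (c (a (a (l 8) (l 8)) (a (l 8) (l 8))) (a (l 8) (l 8))) (c (a (l 8) (l 8)) (a (l 8) (l 8)))) (c (c (a (l 8) (l 8)) (a (l 8) (l 8))) (c (a (l 8) (l 8)) (a (l 8) (l 8))))) (a (c (c (a (b (l 8) (l 8)) (b (l 8) (l 8))) (a (a (l 8) (l 8)) (a (l 8) (l 8)))) (a (c (a (l 8) (l 8)) (a (l 8) (l 8))) (c (a (l 8) (l 8)) (a (l 8) (l 8))))) (c (a (c (b (l 8) (l 8)) (b (l 8) (l 8))) (c (b (l 8) (l 8)) (b (l 8) (l 8)))) (c (a (a (l 8) (l 8)) (a (l 8) (l 8))) (a (a (l 8) (l 8)) (a (l 8) (l 8))))))), by decide +kernel⟩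

def h18_0Bm : ∃ t, chk3 f0Bm t 11 6 8 = true :=
  ⟨(a (a (c (c (a (l 8) (l 8)) (a (l 8) (l 8))) (c (a (l 8) (l 8)) (a (l 8) (l 8)))) (c (c (b (a (l 8) (l 12)) (a (l 12) (l 12))) (b (a (l 8) (l 12)) (a (l 12) (l 12)))) (c (b (a (l 8) (l 12)) (a (l 12) (l 12))) (b (a (l 8) (l 12)) (a (l 12) (l 12)))))) (c (a (c (b (a (l 12) (l 4)) (a (l 4) (l 4))) (b (a (l 12) (l 4)) (a (l 4) (l 2)))) (c (b (a (l 2) (l 2)) (l 2)) (b (a (l 2) (l 2)) (l 2)))) (a (c (b (a (l 12) (l 4)) (a (l 4) (l 2))) (b (a (l 12) (l 2)) (a (l 4) (l 2)))) (c (a (l 2) (l 2)) (a (l 2) (l 2)))))), by decide +kernel⟩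

def h19_0Bm : ∃ t, chk3 f0Bm t 11 7 8 = true :=
  ⟨(c (a (b (a (c (a (l 8) (c (l 12) (l 12))) (b (l 8) (l 12))) (c (a (c (l 12) (l 12)) (c (l 4) (l 4))) (b (l 12) (l 12)))) (a (c (a (l 12) (l 12)) (a (l 12) (l 12))) (c (a (l 4) (l 4)) (a (l 4) (l 4))))) (b (a (c (b (l 4) (l 4)) (a (l 4) (l 4))) (c (a (l 2) (l 2)) (a (l 2) (l 2)))) (a (c (a (l 4) (l 2)) (a (l 4) (l 2))) (c (l 2) (l 2))))) (a (b (a (c (a (l 8) (l 12)) (a (l 8) (l 12))) (c (a (l 12) (l 4)) (a (l 12) (l 4)))) (a (c (a (l 12) (l 12)) (a (l 12) (l 12))) (c (a (l 4) (l 4)) (a (l 4) (l 4))))) (b (a (c (a (l 4) (l 2)) (a (l 4) (l 2))) (c (l 2) (l 2))) (a (c (a (l 4) (l 2)) (a (l 2) (l 2))) (c (l 2) (l 2)))))), by decide +kernel⟩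

def h20_0Bm : ∃ t, chk3 f0Bm t 11 3 9 = true :=
  ⟨(b (a (a (c (c (a (l 8) (l 8)) (l 8)) (c (l 8) (l 8))) (c (c (b (a (l 8) (l 12)) (l 12)) (b (l 12) (l 12))) (c (b (l 12) (l 12)) (b (l 12) (l 12))))) (c (a (c (b (a (l 12) (l 2)) (l 4)) (b (l 12) (l 4))) (c (a (l 2) (l 2)) (a (l 2) (l 2)))) (a (c (b (l 12) (l 4)) (b (l 12) (l 4))) (c (l 2) (l 2))))) (a (c (b (a (c (a (l 8) (l 12)) (a (l 8) (l 12))) (c (a (l 12) (l 4)) (l 12))) (a (c (a (l 12) (l 12)) (l 12)) (c (a (l 4) (l 4)) (l 4)))) (b (a (c (l 12) (l 12)) (c (l 12) (l 12))) (a (c (l 12) (l 12)) (c (l 12) (l 12))))) (c (b (a (c (a (l 4) (l 2)) (l 4)) (c (l 2) (l 2))) (a (c (l 4) (l 4)) (c (l 2) (l 2)))) (b (a (c (l 4) (l 2)) (c (l 2) (l 2))) (a (c (l 4) (l 4)) (c (l 2) (l 2))))))), by decide +kernel⟩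

def h21_0Bm : ∃ t, chk3 f0Bm t 4 3 10 = true :=
  ⟨(a (b (c (a (c (a (a (l 8) (l 8)) (a (l 8) (l 8))) (a (l 8) (l 8))) (c (a (l 8) (l 8)) (a (l 8) (l 8)))) (a (c (a (l 8) (l 8)) (a (l 8) (l 8))) (c (a (l 8) (l 8)) (a (l 8) (l 8))))) (c (a (c (a (a (l 8) (l 8)) (a (l 8) (l 8))) (a (a (l 8) (l 8)) (a (l 8) (l 8)))) (a (c (a (l 8) (l 8)) (a (l 8) (l 8))) (c (a (l 8) (l 8)) (a (l 8) (l 8))))) (a (c (a (l 8) (l 8)) (a (l 8) (l 8))) (c (a (l 8) (a (l 8) (l 8))) (a (l 8) (l 8)))))) (b (a (c (c (a (l 8) (l 8)) (a (l 8) (l 8))) (c (a (l 8) (l 8)) (a (l 8) (l 8)))) (c (c (a (l 8) (l 8)) (a (l 8) (l 8))) (c (a (l 8) (l 8)) (a (l 8) (l 8))))) (c (a (a (c (a (l 8) (l 8)) (a (l 8) (l 8))) (c (a (l 8) (l 8)) (a (l 8) (l 8)))) (a (c (a (l 8) (l 8)) (a (l 8) (l 8))) (c (a (l 8) (l 8)) (a (l 8) (l 8))))) (a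 (c (a (a (l 8) (l 8)) (a (l 8) (l 8))) (a (l 8) (l 8))) (c (a (a (l 8) (l 8)) (l 8)) (a (l 8) (l 8))))))), by decide +kernel⟩

def h22_0Bm : ∃ t, chk3 f0Bm t 4 3 11 = true :=
  ⟨(a (b (c (a (c (a (l 8) (l 8)) (a (l 8) (l 8))) (c (a (l 8) (l 8)) (a (l 8) (l 8)))) (a (c (a (l 8) (l 8)) (a (l 8) (l 8))) (a (c (l 8) (l 8)) (l 8)))) (c (a (c (a (l 8) (l 8)) (a (l 8) (l 8))) (c (a (l 8) (l 8)) (a (l 8) (l 8)))) (a (c (a (l 8) (l 8)) (a (l 8) (l 8))) (c (a (l 8) (l 8)) (a (l 8) (l 8)))))) (b (c (a (c (a (l 8) (l 8)) (a (l 8) (l 8))) (c (a (l 8) (l 8)) (l 8))) (a (a (l 8) (l 8)) (a (l 8) (l 8)))) (c (a (c (a (l 8) (l 8)) (a (l 8) (l 8))) (a (c (l 8) (l 8)) (c (l 8) (l 8)))) (a (c (a (l 8) (l 8)) (a (l 8) (l 8))) (c (a (l 8) (l 8)) (a (l 8) (l 8))))))), by decide +kernel⟩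

def h23_0Bm : ∃ t, chk3 f0Bm t 10 3 5 = true :=
  ⟨(c (b (a (c (c (a (l 8) (l 8)) (a (l 8) (l 8))) (c (a (l 8) (l 8)) (a (l 8) (l 8)))) (c (c (a (l 8) (l 8)) (a (l 8) (l 8))) (c (a (l 8) (l 8)) (a (l 8) (l 8))))) (c (a (c (a (a (l 8) (l 8)) (a (l 8) (l 8))) (a (a (l 8) (l 8)) (l 8))) (a (c (a (l 8) (l 8)) (l 8)) (c (a (l 8) (l 8)) (l 8)))) (a (a (c (l 8) (l 8)) (c (l 8) (l 8))) (a (c (l 8) (l 8)) (c (l 8) (l 8)))))) (b (a (c (c (a (l 8) (l 8)) (l 8)) (a (l 8) (l 8))) (c (a (c (l 8) (l 8)) (l 8)) (a (l 8) (l 8)))) (a (c (a (c (l 8) (l 8)) (c (l 8) (l 8))) (c (a (l 8) (l 8)) (a (l 8) (l 8)))) (c (c (a (l 8) (l 8)) (a (l 8) (l 8))) (a (c (l 8) (l 8)) (l 8)))))), by decide +kernel⟩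

def h24_0Bm : ∃ t, chk3 f0Bm t 11 3 5 = true :=
  ⟨(c (b (a (c (a (c (l 8) (l 8)) (c (a (l 12) (l 12)) (a (l 12) (l 12)))) (a (c (l 8) (l 8)) (c (a (l 12) (l 12)) (a (l 12) (l 12))))) (c (a (c (b (l 12) (l 4)) (a (l 12) (l 2))) (c (l 2) (l 2))) (a (c (a (l 12) (l 2)) (a (l 10) (l 2))) (c (l 2) (l 2))))) (a (c (a (b (c (l 12) (l 12)) (c (l 12) (l 12))) (b (c (l 12) (l 12)) (c (l 12) (l 12)))) (a (c (a (l 8) (l 12)) (a (l 8) (l 12))) (c (a (l 12) (l 4)) (a (l 12) (l 4))))) (c (a (c (b (l 2) (l 2)) (b (l 2) (l 2))) (c (l 2) (l 2))) (a (c (a (l 2) (l 2)) (a (l 2) (l 2))) (c (l 2) (l 2)))))) (b (a (c (a (l 8) (c (a (l 12) (l 12)) (a (l 12) (l 12)))) (a (l 8) (c (l 12) (l 12)))) (c (a (c (a (l 10) (l 2)) (l 10)) (c (l 2) (l 2))) (a (c (l 10) (l 10)) (l 2)))) (a (c (a (b (l 12) (c (l 12) (l 12)))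 (c (a (l 12) (l 2)) (l 12))) (a (c (l 12) (l 12)) (c (l 12) (l 12)))) (c (a (c (l 2) (l 2)) (l 2)) (a (c (l 2) (l 2)) (l 2)))))), by decide +kernel⟩

def h25_0Bm : ∃ t, chk3 f0Bm t 6 2 4 = true :=
  ⟨(a (c (a (b (c (a (b (c (a (l 10) (l 2)) (l 10)) (c (l 2) (l 2))) (c (l 2) (l 2))) (a (b (c (l 10) (l 10)) (c (l 2) (l 2))) (c (l 2) (l 2)))) (c (a (c (a (l 2) (l 2)) (l 2)) (c (l 2) (l 2))) (a (c (l 2) (l 2)) (l 2)))) (b (c (a (l 2) (l 2)) (a (l 2) (l 2))) (c (a (l 2) (l 2)) (a (l 2) (l 2))))) (a (b (c (a (a (c (l 10) (l 10)) (l 2)) (c (l 2) (l 2))) (a (c (l 10) (l 10)) (l 2))) (c (a (c (l 2) (l 2)) (l 2)) (a (c (l 2) (l 2)) (l 2)))) (b (c (a (l 2) (l 2)) (a (l 2) (l 2))) (c (a (l 2) (l 2)) (a (l 2) (l 2)))))) (c (a (b (c (l 2) (l 2)) (c (l 2) (l 2))) (c (l 4) (l 4))) (a (b (c (l 2) (l 2)) (c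 (l 2) (l 2))) (c (l 4) (l 4))))), by decide +kernel⟩

def h26_0Bm : ∃ t, chk3 f0Bm t 6 3 4 = true :=
  ⟨(a (c (b (a (c (a (c (l 2) (l 2)) (l 2)) (a (c (l 2) (l 2)) (l 2))) (c (a (l 2) (l 2)) (a (l 2) (l 2)))) (a (c (b (a (c (l 2) (l 2)) (l 2)) (a (c (l 2) (l 2)) (l 2))) (b (a (l 2) (l 2)) (a (c (l 2) (l 2)) (l 2)))) (c (a (c (l 2) (l 2)) (c (l 2) (l 2))) (a (c (l 2) (l 2)) (l 2))))) (b (a (c (a (c (l 2) (l 2)) (l 2)) (a (c (l 2) (l 2)) (l 2))) (c (a (l 2) (l 2)) (a (l 2) (l 2)))) (a (c (a (c (l 2) (l 2)) (c (l 2) (l 2))) (a (c (l 2) (l 2)) (l 2))) (c (a (l 2) (l 2)) (a (l 2) (l 2)))))) (c (b (a (c (l 2) (l 2)) (c (l 2) (l 2))) (a (c (a (l 2) (l 2)) (a (l 2) (l 2))) (c (l 4) (l 4)))) (a (c (b (l 2) (l 4)) (a (l 2) (l 2))) (c (a (l 2) (l 2)) (l 4))))), by decide +kernel⟩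

def h27_0Bm : ∃ t, chk3 f0Bm t 7 1 4 = true :=
  ⟨(a (c (b (a (l 4) (l 4)) (a (c (l 4) (l 4)) (l 4))) (b (a (l 4) (l 4)) (a (c (l 4) (l 4)) (l 4)))) (c (b (l 4) (a (l 4) (l 4))) (b (l 4) (a (l 4) (l 4))))), by decide +kernel⟩

def h28_0Bm : ∃ t, chk3 f0Bm t 3 1 5 = true :=
  ⟨(a (a (c (b (a (b (c (a (c (l 10) (l 10)) (l 2)) (a (c (l 10) (l 10)) (l 2))) (c (a (c (l 2) (l 2)) (l 2)) (a (l 2) (l 2)))) (b (c (a (l 2) (l 2)) (l 2)) (c (l 2) (l 2)))) (a (b (c (a (l 2) (l 2)) (a (l 2) (l 2))) (c (a (c (l 2) (l 2)) (l 2)) (a (l 2) (l 2)))) (c (b (l 2) (a (l 2) (l 2))) (a (l 2) (l 2))))) (b (a (b (c (a (c (l 10) (l 10)) (l 2)) (a (l 10) (l 2))) (c (a (l 2) (l 2)) (a (l 2) (l 2)))) (b (c (l 2) (l 2)) (c (l 2) (l 2)))) (a (c (b (a (l 2) (l 2)) (a (l 2) (l 2))) (a (b (l 2) (l 2)) (l 2))) (c (a (l 2) (l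 2)) (a (l 2) (l 2)))))) (b (c (a (b (c (l 2) (l 2)) (c (l 2) (l 2))) (c (l 4) (l 4))) (a (b (c (l 2) (l 2)) (c (l 2) (l 2))) (c (l 2) (l 2)))) (c (a (c (a (l 2) (l 2)) (a (l 2) (l 2))) (c (l 4) (l 4))) (a (c (a (l 2) (l 2)) (a (l 2) (l 2))) (c (l 2) (l 2)))))) (a (b (c (a (l 4) (l 4)) (a (l 4) (l 4))) (c (a (c (l 4) (l 2)) (l 4)) (a (c (l 2) (l 2)) (l 4)))) (b (c (l 4) (l 4)) (c (a (l 4) (l 4)) (a (l 4) (l 4)))))), by decide +kernel⟩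

def h29_0Bm : ∃ t, chk3 f0Bm t 4 2 6 = true :=
  ⟨(a (c (b (a (c (a (l 8) (l 8)) (a (l 8) (l 8))) (c (a (l 8) (l 8)) (a (l 8) (l 8)))) (a (c (a (l 8) (l 8)) (a (l 8) (l 8))) (c (a (l 8) (l 8)) (a (l 8) (l 8))))) (b (a (c (a (l 8) (l 8)) (l 8)) (c (l 8) (l 8))) (a (c (a (l 8) (l 8)) (l 8)) (c (a (l 8) (l 8)) (l 8))))) (c (a (c (b (a (l 8) (l 8)) (a (l 8) (l 8))) (b (a (l 8) (l 8)) (a (l 8) (l 8)))) (c (b (a (l 8) (l 8)) (a (l 8) (l 8))) (b (a (l 8) (l 8)) (a (l 8) (l 8))))) (a (c (a (l 8) (l 8)) (a (l 8) (l 8))) (c (a (l 8) (l 8)) (a (l 8) (l 8)))))), by decide +kernel⟩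

def h30_0Bm : ∃ t, chk3 f0Bm t 4 3 6 = true :=
  ⟨(a (c (b (c (a (a (l 8) (l 8)) (a (l 8) (l 8))) (a (a (l 8) (l 8)) (a (l 8) (l 8)))) (c (a (c (a (l 8) (l 8)) (a (l 8) (l 8))) (c (a (l 8) (l 8)) (a (l 8) (l 8)))) (a (b (l 16) (a (l 8) (l 8))) (c (l 8) (l 8))))) (c (a (b (a (l 8) (l 8)) (a (l 8) (l 8))) (b (a (l 8) (l 8)) (a (l 8) (l 8)))) (a (b (l 8) (a (l 8) (l 8))) (b (l 8) (a (l 8) (l 8)))))) (c (b (a (c (a (l 8) (l 8)) (a (l 8) (l 8))) (c (a (l 8) (l 8)) (a (l 8) (l 8)))) (a (c (c (a (l 8) (l 8)) (a (l 8) (l 8))) (a (l 8) (l 8))) (c (a (c (l 8) (l 8)) (l 8)) (a (l 8) (l 8))))) (a (c (b (l 8) (a (l 8) (l 8))) (b (l 8) (l 8))) (c (b (l 8) (a (l 8) (l 8))) (a (l 8) (l 8)))))), by decide +kernel⟩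

def h31_0Bm : ∃ t, chk3 f0Bm t 10 1 6 = true :=
  ⟨(c (b (a (c (b (a (l 8) (l 8)) (a (l 8) (l 8))) (b (a (l 8) (l 8)) (a (l 8) (l 8)))) (c (b (a (l 8) (l 8)) (a (l 8) (l 8))) (b (a (l 8) (l 8)) (a (l 8) (l 8))))) (a (c (b (a (l 8) (l 8)) (a (l 8) (l 8))) (b (a (l 8) (l 8)) (a (l 8) (l 8)))) (c (b (a (l 8) (l 8)) (a (l 8) (l 8))) (b (a (l 8) (l 8)) (a (l 8) (l 8)))))) (b (a (c (a (l 8) (l 8)) (a (l 8) (l 8))) (c (a (l 8) (l 8)) (a (l 8) (l 8)))) (a (c (a (l 8) (l 8)) (a (l 8) (l 8))) (c (a (l 8) (l 8)) (a (l 8) (l 8)))))), by decide +kernel⟩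

def h32_0Bm : ∃ t, chk3 f0Bm t 11 1 6 = true :=
  ⟨(b (a (c (c (b (a (l 8) (l 8)) (a (l 8) (l 8))) (b (a (l 8) (l 8)) (a (l 8) (l 8)))) (c (a (l 8) (l 8)) (a (l 8) (l 8)))) (c (b (c (a (l 8) (c (l 10) (l 10))) (a (l 8) (l 10))) (c (a (c (l 10) (l 10)) (l 10)) (a (c (l 10) (l 10)) (l 10)))) (b (c (a (l 8) (l 10)) (a (l 8) (l 10))) (c (a (l 10) (l 10)) (a (l 10) (l 10)))))) (c (a (c (b (a (l 8) (c (l 12) (l 12))) (a (c (l 12) (l 12)) (c (l 10) (l 10)))) (b (a (l 8) (c (l 10) (l 10))) (a (c (l 12) (l 12)) (c (l 10) (l 10))))) (c (b (a (c (l 10) (l 10)) (l 2)) (a (l 2) (l 2))) (b (a (l 10) (l 2)) (a (l 2) (l 2))))) (a (c (b (a (l 8) (c (l 10) (l 10))) (a (l 12) (l 10))) (b (a (l 8) (l 10)) (a (l 12) (l 10)))) (c (b (a (l 10) (l 2)) (a (l 2) (l 2))) (b (l 10) (l 2)))))), by decide +kernel⟩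

def h33_0Bm : ∃ t, chk3 f0Bm t 4 1 7 = true :=
  ⟨(a (c (b (b (a (c (l 8) (l 8)) (c (l 8) (l 8))) (a (c (l 8) (l 8)) (c (l 8) (l 8)))) (c (a (b (l 8) (a (l 8) (l 8))) (a (l 8) (l 8))) (a (a (l 8) (l 8)) (a (l 8) (l 8))))) (b (b (a (c (l 8) (l 8)) (c (l 8) (l 8))) (a (c (l 8) (l 8)) (c (l 8) (l 8)))) (c (a (a (l 8) (l 8)) (l 8)) (a (l 8) (a (l 8) (l 8)))))) (c (b (a (c (a (l 8) (l 8)) (l 8)) (c (a (l 8) (l 8)) (l 8))) (a (c (a (l 8) (l 8)) (a (l 8) (l 8))) (c (a (l 8) (l 8)) (a (l 8) (l 8))))) (b (a (c (l 8) (l 8)) (c (l 8) (l 8))) (c (a (l 8) (l 8)) (a (a (l 8) (l 8)) (l 8)))))), by decide +kernel⟩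

def h34_0Bm : ∃ t, chk3 f0Bm t 5 1 7 = true :=
  ⟨(a (b (c (a (c (a (l 8) (l 8)) (l 8)) (c (a (l 8) (l 8)) (l 8))) (a (c (l 8) (l 8)) (c (l 8) (l 8)))) (c (a (c (a (l 8) (l 8)) (a (l 8) (l 8))) (c (a (l 8) (l 8)) (l 8))) (c (a (l 8) (l 8)) (a (l 8) (l 8))))) (b (a (c (c (a (l 8) (l 8)) (l 8)) (c (l 8) (l 8))) (c (b (c (l 10) (l 10)) (c (l 10) (l 10))) (c (a (l 10) (l 10)) (l 10)))) (c (a (c (b (a (l 8) (l 10)) (a (l 10) (l 10))) (b (a (l 8) (l 10)) (l 12))) (c (a (l 10) (l 2)) (a (l 10) (l 2)))) (c (a (b (l 10) (l 10)) (l 10)) (a (a (l 10) (l 10)) (l 10)))))), by decide +kernel⟩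

def h35_0Bm : ∃ t, chk3 f0Bm t 3 1 6 = true :=
  ⟨(a (a (b (c (b (a (c (a (l 10) (l 2)) (a (l 10) (l 2))) (c (l 2) (l 2))) (a (c (a (l 2) (l 2)) (l 2)) (c (l 2) (l 2)))) (b (a (c (l 10) (l 10)) (c (l 2) (l 2))) (a (c (l 2) (l 2)) (c (l 2) (l 2))))) (c (a (c (b (a (l 2) (l 2)) (l 2)) (a (l 2) (l 2))) (c (a (l 2) (l 2)) (a (l 2) (l 2)))) (a (c (a (l 2) (l 2)) (a (l 2) (l 2))) (c (l 2) (l 2))))) (b (c (a (c (l 2) (l 2)) (c (l 2) (l 2))) (a (c (l 2) (l 2)) (c (l 2) (l 2)))) (c (a (c (l 2) (l 2)) (c (l 2) (l 2))) (a (c (l 2) (l 2)) (c (l 2) (l 2)))))) (a (b (c (a (l 4) (l 4)) (a (l 4) (l 4))) (c (a (c (l 2) (l 2)) (l 4)) (a (c (l 2) (l 2)) (l 4)))) (b (c (l 4) (l 4)) (c (a (l 4) (l 4)) (a (l 4) (l 4)))))), by decide +kernel⟩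

def h36_0Bm : ∃ t, chk3 f0Bm t 3 1 7 = true :=
  ⟨(a (a (b (c (b (a (c (l 10) (l 10)) (l 2)) (a (c (l 2) (l 2)) (l 2))) (b (a (c (l 10) (l 10)) (l 2)) (a (l 2) (l 2)))) (c (a (c (l 2) (l 2)) (c (l 2) (l 2))) (a (c (l 2) (l 2)) (c (l 2) (l 2))))) (b (c (a (c (l 2) (l 2)) (c (l 2) (l 2))) (b (a (l 2) (l 2)) (a (l 2) (l 2)))) (c (a (c (l 2) (l 2)) (c (l 2) (l 2))) (a (c (l 2) (l 2)) (c (l 2) (l 2)))))) (a (c (b (b (l 4) (l 4)) (a (c (l 2) (l 2)) (l 4))) (b (a (l 2) (l 2)) (a (l 2) (l 2)))) (b (c (l 4) (l 4)) (c (l 4) (l 4))))), by decide +kernel⟩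

theorem h37_0Bm : ∃ t, chk3 f0Bm t 3 1 3 = true := ex3_c h35_0Bm h36_0Bm

theorem h38_0Bm : ∃ t, chk3 f0Bm t 2 1 7 = true := ex3_a h33_0Bm h34_0Bm

theorem h39_0Bm : ∃ t, chk3 f0Bm t 5 1 6 = true := ex3_a h31_0Bm h32_0Bm

theorem h40_0Bm : ∃ t, chk3 f0Bm t 4 1 6 = true := ex3_b h29_0Bm h30_0Bm

theorem h41_0Bm : ∃ t, chk3 f0Bm t 2 1 6 = true := ex3_a h40_0Bm h39_0Bm

theorem h42_0Bm : ∃ t, chk3 f0Bm t 2 1 3 = true := ex3_c h41_0Bm h38_0Bm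

theorem h43_0Bm : ∃ t, chk3 f0Bm t 1 1 3 = true := ex3_a h42_0Bm h37_0Bm

theorem h44_0Bm : ∃ t, chk3 f0Bm t 6 1 4 = true := ex3_b h25_0Bm h26_0Bm

theorem h45_0Bm : ∃ t, chk3 f0Bm t 3 1 4 = true := ex3_a h44_0Bm h27_0Bm

theorem h46_0Bm : ∃ t, chk3 f0Bm t 3 1 2 = true := ex3_c h45_0Bm h28_0Bm

theorem h47_0Bm : ∃ t, chk3 f0Bm t 5 3 5 = true := ex3_a h23_0Bm h24_0Bm

theorem h48_0Bm : ∃ t, chk3 f0Bm t 4 3 5 = true := ex3_c h21_0Bm h22_0Bm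

theorem h49_0Bm : ∃ t, chk3 f0Bm t 2 3 5 = true := ex3_a h48_0Bm h47_0Bm

theorem h50_0Bm : ∃ t, chk3 f0Bm t 11 3 8 = true := ex3_b h18_0Bm h19_0Bm

theorem h51_0Bm : ∃ t, chk3 f0Bm t 11 3 4 = true := ex3_c h50_0Bm h20_0Bm

theorem h52_0Bm : ∃ t, chk3 f0Bm t 10 3 4 = true := ex3_c h16_0Bm h17_0Bm

theorem h53_0Bm : ∃ t, chk3 f0Bm t 5 3 4 = true := ex3_a h52_0Bm h51_0Bm

theorem h54_0Bm : ∃ t, chk3 f0Bm t 4 3 9 = true := ex3_a h14_0Bm h15_0Bm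

theorem h55_0Bm : ∃ t, chk3 f0Bm t 8 3 8 = true := ex3_b h11_0Bm h12_0Bm

theorem h56_0Bm : ∃ t, chk3 f0Bm t 4 3 8 = true := ex3_a h55_0Bm h13_0Bm

theorem h57_0Bm : ∃ t, chk3 f0Bm t 4 3 4 = true := ex3_c h56_0Bm h54_0Bm

theorem h58_0Bm : ∃ t, chk3 f0Bm t 2 3 4 = true := ex3_a h57_0Bm h53_0Bm

theorem h59_0Bm : ∃ t, chk3 f0Bm t 2 3 2 = true := ex3_c h58_0Bm h49_0Bm

theorem h60_0Bm : ∃ t, chk3 f0Bm t 5 2 5 = true := ex3_a h9_0Bm h10_0Bm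

theorem h61_0Bm : ∃ t, chk3 f0Bm t 4 2 5 = true := ex3_c h7_0Bm h8_0Bm

theorem h62_0Bm : ∃ t, chk3 f0Bm t 2 2 5 = true := ex3_a h61_0Bm h60_0Bm

theorem h63_0Bm : ∃ t, chk3 f0Bm t 11 2 8 = true := ex3_a h4_0Bm h5_0Bm

theorem h64_0Bm : ∃ t, chk3 f0Bm t 5 2 8 = true := ex3_a h3_0Bm h63_0Bm

theorem h65_0Bm : ∃ t, chk3 f0Bm t 5 2 4 = true := ex3_c h64_0Bm h6_0Bm

theorem h66_0Bm : ∃ t, chk3 f0Bm t 4 2 8 = true := ex3_a h0_0Bm h1_0Bm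

theorem h67_0Bm : ∃ t, chk3 f0Bm t 4 2 4 = true := ex3_c h66_0Bm h2_0Bm

theorem h68_0Bm : ∃ t, chk3 f0Bm t 2 2 4 = true := ex3_a h67_0Bm h65_0Bm

theorem h69_0Bm : ∃ t, chk3 f0Bm t 2 2 2 = true := ex3_c h68_0Bm h62_0Bm

theorem h70_0Bm : ∃ t, chk3 f0Bm t 2 1 2 = true := ex3_b h69_0Bm h59_0Bm

theorem h71_0Bm : ∃ t, chk3 f0Bm t 1 1 2 = true := ex3_a h70_0Bm h46_0Bm

theorem h72_0Bm : ∃ t, chk3 f0Bm t 1 1 1 = true := ex3_c h71_0Bm h43_0Bm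

theorem ct_0Bm : ∃ t, chk3 f0Bm t 1 1 1 = true := h72_0Bm

end Pool.Agent.Strip051.G.I3_16_5_16.Tab.Mo
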