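import Pool.Agent.Strip051.G.I3_16_5_16.StF

/-! # Unit strips 0 (generated) -/

set_option linter.all false
set_option maxRecDepth 100000

namespace Pool.Agent.Strip051.G.I3_16_5_16.Tab.St.C

open Pool.Agent.Strip051.PB Pool.Agent.Strip051.PB.T Pool.Agent.StripNear Pool.Agent.Strip051.LC
open Pool.Agent.Strip051.G.I3_16_5_16.Tab Pool.Agent.Strip051.G.I3_16_5_16.Tab.St

noncomputable def cut_A00pp_001_s1 : Cut := Cut.of [[⟨4, 0, 0, 1449551462⟩]]

noncomputable def f_A00pp_001_s1 : ℕ → ℕ → ℕ → ℕ → Bool := onCell 0 536870912 0 536870912 201326592 134217728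
    (rowFK 0 true true true .up 0 0 1 (qsf 0 536870912 0 536870912 1) ndF0q0 ndF0q0 pcF1 cut_A00pp_001_s1 Ext.none)

def k0_A00pp_001_s1 : ∃ t, chk3 f_A00pp_001_s1 t 1 1 1 = true :=
  ⟨(l 4), by decide +kernel⟩

theorem c_A00pp_001_s1 : CertF 0 536870912 0 536870912 201326592 134217728 true true true .up 0 0 1
    ndF0q0 ndF0q0 pcF1 cut_A00pp_001_s1 Ext.none :=
  certFK0 (fam := true) (s1 := true) (s2 := true) (a := 0) (b := 0) (c := 1) (cn := .up) (n1 := ndF0q0) (n2 := ndF0q0) (pc := pcF1) (cut := cut_A00pp_001_s1) (xt := Ext.none) (P1 := 0) (W1 := 536870912) (P2 := 0) (W2 := 536870912) (P3 := 201326592) (W3 := 134217728)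
    rfl rfl rfl k0_A00pp_001_s1

theorem s_A00pp_001_s1 {κ x : ℝ} (hκ : κ * h0 = ken x) (hx : ((201326592 : ℕ) : ℝ) / S ≤ x)
    (hx' : x ≤ (((201326592 : ℕ) : ℝ) + (134217728 : ℕ)) / S) :
    AltA (VF κ) PP tKF tL pcF [⟨3, 0, 0, 1449551462⟩] 0 0 1 0 0 (sgb true) (sgb true) x :=
  strip_altA (m := 1449551462) true rfl hκ covF00 covF00 hx hx' c_A00pp_001_s1 cutA_nil (noExt_A)

noncomputable def cut_A00pp_001_s3 : Cut := Cut.of [[⟨3, 0, 0, 2845415833⟩]]

noncomputable def f_A00pp_001_s3 : ℕ → ℕ → ℕ → ℕ → Bool := onCell 0 536870912 0 536870912 201326592 134217728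
    (rowFK 0 true true true .up 0 0 1 (qsf 0 536870912 0 536870912 1) ndF0q0 ndF0q0 pcF1 cut_A00pp_001_s3 Ext.none)

def k0_A00pp_001_s3 : ∃ t, chk3 f_A00pp_001_s3 t 1 1 1 = true :=
  ⟨(l 4), by decide +kernel⟩

theorem c_A00pp_001_s3 : CertF 0 536870912 0 536870912 201326592 134217728 true true true .up 0 0 1
    ndF0q0 ndF0q0 pcF1 cut_A00pp_001_s3 Ext.none :=
  certFK0 (fam := true) (s1 := true) (s2 := true) (a := 0) (b := 0) (c := 1) (cn := .up) (n1 := ndF0q0) (n2 := ndF0q0) (pc := pcF1) (cut := cut_A00pp_001_s3) (xt := Ext.none) (P1 := 0) (W1 := 536870912) (P2 := 0) (W2 := 536870912) (P3 := 201326592) (W3 := 134217728)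
    rfl rfl rfl k0_A00pp_001_s3

theorem s_A00pp_001_s3 {κ x : ℝ} (hκ : κ * h0 = ken x) (hx : ((201326592 : ℕ) : ℝ) / S ≤ x)
    (hx' : x ≤ (((201326592 : ℕ) : ℝ) + (134217728 : ℕ)) / S) :
    AltA (VF κ) PP tKF tL pcF [⟨4, 0, 0, 2845415833⟩] 0 0 1 0 0 (sgb true) (sgb true) x :=
  strip_altA (m := 2845415833) false rfl hκ covF00 covF00 hx hx' c_A00pp_001_s3 cutA_nil (noExt_A)

noncomputable def cut_A00pp_011_s1 : Cut := Cut.of [[⟨4, 0, 0, 1449551462⟩], [⟨0, 0, 0, 67108864⟩, ⟨1, 1, 0, 67108864⟩, ⟨2, 1, 0, 67108864⟩]]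

noncomputable def f_A00pp_011_s1 : ℕ → ℕ → ℕ → ℕ → Bool := onCell 0 536870912 536870912 536870912 201326592 134217728
    (rowFK 0 true true true .pnn 0 1 1 (qsf 0 536870912 536870912 536870912 1) ndF0q0 ndF0q1 pcF1 cut_A00pp_011_s1 Ext.none)

def k0_A00pp_011_s1 : ∃ t, chk3 f_A00pp_011_s1 t 1 1 1 = true :=
  ⟨(l 6), by decide +kernel⟩

theorem c_A00pp_011_s1 : CertF 0 536870912 536870912 536870912 201326592 134217728 true true true .pnn 0 1 1
    ndF0q0 ndF0q1 pcF1 cut_A00pp_011_s1 Ext.none :=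
  certFK0 (fam := true) (s1 := true) (s2 := true) (a := 0) (b := 1) (c := 1) (cn := .pnn) (n1 := ndF0q0) (n2 := ndF0q1) (pc := pcF1) (cut := cut_A00pp_011_s1) (xt := Ext.none) (P1 := 0) (W1 := 536870912) (P2 := 536870912) (W2 := 536870912) (P3 := 201326592) (W3 := 134217728)
    rfl rfl rfl k0_A00pp_011_s1

theorem s_A00pp_011_s1 {κ x : ℝ} (hκ : κ * h0 = ken x) (hx : ((201326592 : ℕ) : ℝ) / S ≤ x)
    (hx' : x ≤ (((201326592 : ℕ) : ℝ) + (134217728 : ℕ)) / S)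
    (H : CutA (VF κ) PP tKF tL pcF (Cut.of [[⟨0, 0, 0, 67108864⟩, ⟨1, 1, 0, 67108864⟩, ⟨2, 1, 0, 67108864⟩]]) 0 1 1 0 0 (sgb true) (sgb true) x) :
    AltA (VF κ) PP tKF tL pcF [⟨3, 0, 0, 1449551462⟩] 0 1 1 0 0 (sgb true) (sgb true) x :=
  strip_altA (m := 1449551462) true rfl hκ covF00 covF01 hx hx' c_A00pp_011_s1 H (noExt_A)

noncomputable def cut_A00pp_011_s3 : Cut := Cut.of [[⟨3, 0, 0, 2845415833⟩], [⟨0, 0, 0, 67108864⟩, ⟨1, 1, 0, 67108864⟩, ⟨2, 1, 0, 67108864⟩]]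

noncomputable def f_A00pp_011_s3 : ℕ → ℕ → ℕ → ℕ → Bool := onCell 0 536870912 536870912 536870912 201326592 134217728
    (rowFK 0 true true true .pnn 0 1 1 (qsf 0 536870912 536870912 536870912 1) ndF0q0 ndF0q1 pcF1 cut_A00pp_011_s3 Ext.none)

def k0_A00pp_011_s3 : ∃ t, chk3 f_A00pp_011_s3 t 1 1 1 = true :=
  ⟨(a (b (l 4) (b (l 4) (b (l 4) (a (a (b (l 4) (a (l 14) (l 4))) (l 4)) (l 2))))) (l 4)), by decide +kernel⟩

theorem c_A00pp_011_s3 : CertF 0 536870912 536870912 536870912 201326592 134217728 true true true .pnn 0 1 1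
    ndF0q0 ndF0q1 pcF1 cut_A00pp_011_s3 Ext.none :=
  certFK0 (fam := true) (s1 := true) (s2 := true) (a := 0) (b := 1) (c := 1) (cn := .pnn) (n1 := ndF0q0) (n2 := ndF0q1) (pc := pcF1) (cut := cut_A00pp_011_s3) (xt := Ext.none) (P1 := 0) (W1 := 536870912) (P2 := 536870912) (W2 := 536870912) (P3 := 201326592) (W3 := 134217728)
    rfl rfl rfl k0_A00pp_011_s3

theorem s_A00pp_011_s3 {κ x : ℝ} (hκ : κ * h0 = ken x) (hx : ((201326592 : ℕ) : ℝ) / S ≤ x)
    (hx' : x ≤ (((201326592 : ℕ) : ℝ) + (134217728 : ℕ)) / S)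
    (H : CutA (VF κ) PP tKF tL pcF (Cut.of [[⟨0, 0, 0, 67108864⟩, ⟨1, 1, 0, 67108864⟩, ⟨2, 1, 0, 67108864⟩]]) 0 1 1 0 0 (sgb true) (sgb true) x) :
    AltA (VF κ) PP tKF tL pcF [⟨4, 0, 0, 2845415833⟩] 0 1 1 0 0 (sgb true) (sgb true) x :=
  strip_altA (m := 2845415833) false rfl hκ covF00 covF01 hx hx' c_A00pp_011_s3 H (noExt_A)

noncomputable def cut_A00pp_012_s1 : Cut := Cut.of [[⟨4, 0, 0, 1449551462⟩], [⟨0, 0, 0, 67108864⟩, ⟨1, 1, 0, 67108864⟩, ⟨2, 1, 0, 67108864⟩]]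

noncomputable def f_A00pp_012_s1 : ℕ → ℕ → ℕ → ℕ → Bool := onCell 0 536870912 536870912 536870912 201326592 134217728
    (rowFK 0 true true true .pnp 0 1 2 (qsf 0 536870912 536870912 536870912 2) ndF0q0 ndF0q1 pcF2 cut_A00pp_012_s1 Ext.none)

def k0_A00pp_012_s1 : ∃ t, chk3 f_A00pp_012_s1 t 1 1 1 = true :=
  ⟨(l 6), by decide +kernel⟩

theorem c_A00pp_012_s1 : CertF 0 536870912 536870912 536870912 201326592 134217728 true true true .pnp 0 1 2
    ndF0q0 ndF0q1 pcF2 cut_A00pp_012_s1 Ext.none :=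
  certFK0 (fam := true) (s1 := true) (s2 := true) (a := 0) (b := 1) (c := 2) (cn := .pnp) (n1 := ndF0q0) (n2 := ndF0q1) (pc := pcF2) (cut := cut_A00pp_012_s1) (xt := Ext.none) (P1 := 0) (W1 := 536870912) (P2 := 536870912) (W2 := 536870912) (P3 := 201326592) (W3 := 134217728)
    rfl rfl rfl k0_A00pp_012_s1

theorem s_A00pp_012_s1 {κ x : ℝ} (hκ : κ * h0 = ken x) (hx : ((201326592 : ℕ) : ℝ) / S ≤ x)
    (hx' : x ≤ (((201326592 : ℕ) : ℝ) + (134217728 : ℕ)) / S)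
    (H : CutA (VF κ) PP tKF tL pcF (Cut.of [[⟨0, 0, 0, 67108864⟩, ⟨1, 1, 0, 67108864⟩, ⟨2, 1, 0, 67108864⟩]]) 0 1 2 0 0 (sgb true) (sgb true) x) :
    AltA (VF κ) PP tKF tL pcF [⟨3, 0, 0, 1449551462⟩] 0 1 2 0 0 (sgb true) (sgb true) x :=
  strip_altA (m := 1449551462) true rfl hκ covF00 covF01 hx hx' c_A00pp_012_s1 H (noExt_A)

noncomputable def cut_A00pp_012_s3 : Cut := Cut.of [[⟨3, 0, 0, 2845415833⟩], [⟨0, 0, 0, 67108864⟩, ⟨1, 1, 0, 67108864⟩, ⟨2, 1, 0, 67108864⟩]]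

noncomputable def f_A00pp_012_s3 : ℕ → ℕ → ℕ → ℕ → Bool := onCell 0 536870912 536870912 536870912 201326592 134217728
    (rowFK 0 true true true .pnp 0 1 2 (qsf 0 536870912 536870912 536870912 2) ndF0q0 ndF0q1 pcF2 cut_A00pp_012_s3 Ext.none)

def k0_A00pp_012_s3 : ∃ t, chk3 f_A00pp_012_s3 t 1 1 1 = true :=
  ⟨(b (l 4) (a (b (l 4) (a (a (a (b (l 1) (b (l 4) (l 14))) (l 4)) (l 4)) (l 4))) (l 4))), by decide +kernel⟩

theorem c_A00pp_012_s3 : CertF 0 536870912 536870912 536870912 201326592 134217728 true true true .pnp 0 1 2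
    ndF0q0 ndF0q1 pcF2 cut_A00pp_012_s3 Ext.none :=
  certFK0 (fam := true) (s1 := true) (s2 := true) (a := 0) (b := 1) (c := 2) (cn := .pnp) (n1 := ndF0q0) (n2 := ndF0q1) (pc := pcF2) (cut := cut_A00pp_012_s3) (xt := Ext.none) (P1 := 0) (W1 := 536870912) (P2 := 536870912) (W2 := 536870912) (P3 := 201326592) (W3 := 134217728)
    rfl rfl rfl k0_A00pp_012_s3

theorem s_A00pp_012_s3 {κ x : ℝ} (hκ : κ * h0 = ken x) (hx : ((201326592 : ℕ) : ℝ) / S ≤ x)
    (hx' : x ≤ (((201326592 : ℕ) : ℝ) + (134217728 : ℕ)) / S)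
    (H : CutA (VF κ) PP tKF tL pcF (Cut.of [[⟨0, 0, 0, 67108864⟩, ⟨1, 1, 0, 67108864⟩, ⟨2, 1, 0, 67108864⟩]]) 0 1 2 0 0 (sgb true) (sgb true) x) :
    AltA (VF κ) PP tKF tL pcF [⟨4, 0, 0, 2845415833⟩] 0 1 2 0 0 (sgb true) (sgb true) x :=
  strip_altA (m := 2845415833) false rfl hκ covF00 covF01 hx hx' c_A00pp_012_s3 H (noExt_A)

noncomputable def cut_A00pp_022_s1 : Cut := Cut.of [[⟨4, 0, 0, 1449551462⟩], [⟨0, 0, 0, 67108864⟩, ⟨1, 1, 0, 67108864⟩, ⟨2, 1, 0, 67108864⟩]]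

noncomputable def f_A00pp_022_s1 : ℕ → ℕ → ℕ → ℕ → Bool := onCell 0 536870912 0 536870912 201326592 134217728
    (rowFK 0 true true true .pp 0 2 2 (qsf 0 536870912 0 536870912 2) ndF0q0 ndF0q2 pcF2 cut_A00pp_022_s1 Ext.none)

def k0_A00pp_022_s1 : ∃ t, chk3 f_A00pp_022_s1 t 1 1 1 = true :=
  ⟨(l 6), by decide +kernel⟩

theorem c_A00pp_022_s1 : CertF 0 536870912 0 536870912 201326592 134217728 true true true .pp 0 2 2
    ndF0q0 ndF0q2 pcF2 cut_A00pp_022_s1 Ext.none :=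
  certFK0 (fam := true) (s1 := true) (s2 := true) (a := 0) (b := 2) (c := 2) (cn := .pp) (n1 := ndF0q0) (n2 := ndF0q2) (pc := pcF2) (cut := cut_A00pp_022_s1) (xt := Ext.none) (P1 := 0) (W1 := 536870912) (P2 := 0) (W2 := 536870912) (P3 := 201326592) (W3 := 134217728)
    rfl rfl rfl k0_A00pp_022_s1

theorem s_A00pp_022_s1 {κ x : ℝ} (hκ : κ * h0 = ken x) (hx : ((201326592 : ℕ) : ℝ) / S ≤ x)
    (hx' : x ≤ (((201326592 : ℕ) : ℝ) + (134217728 : ℕ)) / S)
    (H : CutA (VF κ) PP tKF tL pcF (Cut.of [[⟨0, 0, 0, 67108864⟩, ⟨1, 1, 0, 67108864⟩, ⟨2, 1, 0, 67108864⟩]]) 0 2 2 0 0 (sgb true) (sgb true) x) :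
    AltA (VF κ) PP tKF tL pcF [⟨3, 0, 0, 1449551462⟩] 0 2 2 0 0 (sgb true) (sgb true) x :=
  strip_altA (m := 1449551462) true rfl hκ covF00 covF02 hx hx' c_A00pp_022_s1 H (noExt_A)

noncomputable def cut_A00pp_022_s3 : Cut := Cut.of [[⟨3, 0, 0, 2845415833⟩], [⟨0, 0, 0, 67108864⟩, ⟨1, 1, 0, 67108864⟩, ⟨2, 1, 0, 67108864⟩]]

noncomputable def xt_A00pp_022_s3 : Ext := strExt dd true true true .u0 .u2 .s2 .pp 0 2 2 rfl rfl gl2 vv ndF0q0 ndF0q2

noncomputable def f_A00pp_022_s3 : ℕ → ℕ → ℕ → ℕ → Bool := onCell 0 536870912 0 536870912 201326592 134217728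
    (rowFK 0 true true true .pp 0 2 2 (qsf 0 536870912 0 536870912 2) ndF0q0 ndF0q2 pcF2 cut_A00pp_022_s3 xt_A00pp_022_s3)

def k0_A00pp_022_s3 : ∃ t, chk3 f_A00pp_022_s3 t 2 2 1 = true :=
  ⟨(a (b (l 6) (a (l 6) (b (l 6) (b (l 6) (a (l 16691824) (l 16736768)))))) (a (b (l 6) (b (a (l 6) (b (l 6) (l 16821352))) (a (b (l 16699776) (l 16762320)) (b (l 16799528) (l 16778344))))) (b (b (l 6) (a (l 6) (b (l 6) (l 16942120)))) (b (a (b (l 16894816) (l 16870528)) (b (l 16915504) (l 16887928))) (a (b (l 16846224) (l 538258959)) (b (l 539317775) (l 539193103))))))), by decide +kernel⟩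

def k1_A00pp_022_s3 : ∃ t, chk3 f_A00pp_022_s3 t 4 6 1 = true :=
  ⟨(a (b (b (a (l 6) (a (l 6) (l 16666408))) (a (a (a (l 6) (l 16673272)) (a (l 16675112) (l 16676944))) (a (l 16721592) (l 16725304)))) (c (c (a (a (b (a (l 16689120) (l 16691176)) (a (b (l 16699008) (l 16705792)) (b (l 16701520) (l 16708576)))) (b (a (l 16693256) (l 16695336)) (a (l 16728696) (l 16710392)))) (b (a (l 16698440) (l 16702736)) (a (a (l 16713088) (l 16715816)) (a (l 16718560) (l 16721352))))) (a (a (b (a (l 16685952) (l 16688288)) (a (b (l 16695776) (l 16702592)) (l 16723088))) (b (a (l 16690624) (l 16692968)) (a (l 16725992) (l 16707936)))) (b (a (l 16696440) (l 16701200)) (a (a (l 16710856) (l 16713800)) (a (l 16716760) (l 16719744)))))) (b (a (a (a (l 16679016) (l 16681888)) (a (l 16684736) (l 16687560))) (a (l 16712712) (l 16697384))) (c (c (a (a (a (b (l 16692696) (l 16699608)) (l 16699328)) (a (l 16702456) (l 16705584)))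 (a (a (l 16708712) (l 16711848)) (a (l 16715000) (l 16718168)))) (a (a (a (b (l 16690336) (l 16697352)) (l 16697192)) (a (l 16700488) (l 16703768))) (a (a (l 16707056) (l 16710336)) (a (l 16713632) (l 16716936))))) (a (a (a (b (l 16686328) (l 16693552)) (b (l 16689808) (l 16697288))) (a (l 16718120) (l 16700696))) (a (a (l 16704232) (l 16707760)) (a (l 16711280) (l 16714816)))))))) (a (b (b (a (l 16668776) (l 16671408)) (a (l 16729120) (l 16733200))) (a (b (a (l 16745960) (l 16748568)) (b (l 16739808) (a (l 16726320) (l 16729616)))) (b (a (l 16751216) (l 16753944)) (a (l 535721743) (l 535422735))))) (a (b (b (l 16674512) (l 16779600)) (b (a (l 16756752) (l 16759704)) (b (l 16752408) (l 535627791)))) (b (b (l 16678256) (l 16784704)) (b (c (l 16743504) (l 16742776)) (a (l 534781711) (l 534747663))))))), by decide +kernel⟩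

def k2_A00pp_022_s3 : ∃ t, chk3 f_A00pp_022_s3 t 16 14 1 = true :=
  ⟨(b (b (a (b (a (c (l 16709480) (l 16701632)) (l 16709336)) (a (c (l 16713008) (l 16705424)) (l 16723560))) (a (c (l 16717544) (l 16711048)) (c (l 16720696) (l 16714768)))) (b (c (a (a (l 16716600) (l 16719928)) (a (l 16723240) (l 16726568))) (a (a (l 16709320) (l 16713256)) (a (l 16717160) (l 16721048)))) (c (b (a (a (l 16719352) (l 16722760)) (a (l 16726152) (l 16729552))) (b (a (a (l 16720752) (l 16724192)) (a (l 16727632) (l 16731064))) (c (a (a (l 16723016) (l 16726368)) (a (l 16729712) (l 16733056))) (a (a (l 16720208) (l 16723808)) (a (l 16727400) (l 16730984)))))) (b (a (a (l 16712320) (l 16716336)) (a (l 16720320) (l 16724280))) (a (a (l 16714360) (l 16718424)) (a (l 16722456) (l 16726472))))))) (c (b (a (a (b (a (l 14) (l 16724960)) (l 14)) (a (b (l 16726728) (l 16730728)) (c (l 16731624) (l 16729288)))) (a (a (l 16742784)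 (l 16744568)) (a (l 16735864) (l 16737656)))) (a (a (l 14) (a (l 14) (b (l 16736752) (l 14)))) (a (a (b (l 16738608) (l 14)) (b (l 16740456) (l 16744920))) (a (b (l 16742312) (l 16746808)) (b (l 16744160) (l 16748704)))))) (b (a (b (a (a (l 14) (l 16718544)) (l 16721632)) (a (l 14) (a (l 16725016) (l 16727120)))) (a (a (l 16726968) (l 16729040)) (a (l 16731104) (l 16733160)))) (a (b (b (a (l 14) (l 16729496)) (l 14)) (l 14)) (b (a (c (l 16736232) (l 16733584)) (l 16744456)) (a (a (l 14) (l 16740936)) (a (l 16743104) (l 16745272)))))))), by decide +kernel⟩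

def k3_A00pp_022_s3 : ∃ t, chk3 f_A00pp_022_s3 t 17 14 1 = true :=
  ⟨(a (a (c (b (b (l 16723864) (l 16742424)) (b (a (l 16739440) (l 16741232)) (b (l 16752176) (a (l 16750600) (l 16752496))))) (b (b (l 16718488) (l 16727128)) (b (a (l 16735216) (l 16737272)) (b (l 16743464) (a (l 16747440) (l 16749600)))))) (b (b (a (l 16724048) (l 16725768)) (b (l 16731240) (l 16735568))) (a (b (c (l 16743032) (l 16739328)) (b (l 16748320) (l 535860495))) (b (b (l 16740960) (l 16745552)) (b (l 16760784) (l 535051279)))))) (a (b (b (l 16749312) (c (l 16738776) (l 16734968))) (b (a (l 535662351) (l 535119631)) (a (b (l 16762776) (l 534778383)) (l 535595023)))) (a (b (b (l 16730960) (l 16760808)) (b (l 534844943) (l 535052559))) (b (b (l 16732704) (l 16762656)) (b (l 534838543) (l 534778383)))))), by decide +kernel⟩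

def k4_A00pp_022_s3 : ∃ t, chk3 f_A00pp_022_s3 t 9 14 1 = true :=
  ⟨(a (a (b (a (b (l 16756280) (l 535684111)) (b (l 16759816) (l 535131151))) (a (b (l 536165135) (b (l 535314959) (l 535285007))) (b (l 535345935) (a (l 534759183) (l 534752527))))) (b (a (b (l 16763384) (l 534844431)) (b (l 534856463) (l 534823951))) (a (b (l 534792975) (l 535811599)) (b (l 534775311) (l 534721807))))) (b (a (b (l 535881743) (a (l 534802191) (l 534780175))) (a (b (l 534766863) (l 534750991)) (b (l 534739215) (l 534722831)))) (a (b (l 535811343) (l 536028943)) (b (a (l 534712591) (l 534693903)) (l 4))))), by decide +kernel⟩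

def k5_A00pp_022_s3 : ∃ t, chk3 f_A00pp_022_s3 t 4 15 1 = true :=
  ⟨(a (a (b (a (l 14) (b (a (l 14) (b (a (b (l 16748728) (a (l 14) (l 16751728))) (c (l 16758640) (l 16750448))) (a (l 14) (c (b (l 16757000) (l 16759456)) (a (l 16760504) (l 16761624)))))) (l 14))) (l 14)) (a (b (a (a (a (b (b (l 534765583) (l 534999823)) (b (l 535233039) (l 14))) (b (b (l 534764047) (l 534729999)) (b (l 534695183) (l 14)))) (b (a (b (l 534762511) (l 534728719)) (b (l 534760719) (l 534727183))) (b (a (l 534694159) (l 534692879)) (a (l 14) (l 534657807))))) (a (a (b (b (l 534758927) (l 534725647)) (b (l 534691599) (l 534656527))) (b (l 535009551) (b (l 534690063) (l 534655503)))) (a (b (l 534739215) (b (l 534688527) (l 534654223))) (b (l 534737167) (l 534938895))))) (a (l 14) (a (a (l 14) (a (l 14) (l 4))) (l 4)))) (b (a (b (a (a (l 534734863) (l 534732815)) (l 535800847)) (a (b (l 534681615) (l 534916367)) (b (l 534678287)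 (l 534645007)))) (a (b (l 534991119) (b (l 534674447) (l 4))) (b (l 534717711) (l 534923279)))) (l 4)))) (b (b (a (a (a (a (l 534712335) (l 534706959)) (a (l 534701071) (l 534694927))) (a (a (l 534688015) (l 4)) (l 4))) (l 4)) (l 4)) (l 4))), by decide +kernel⟩

def k6_A00pp_022_s3 : ∃ t, chk3 f_A00pp_022_s3 t 5 3 1 = true :=
  ⟨(b (a (a (b (a (b (l 16766576) (l 16790472)) (b (l 16776296) (l 16744416))) (b (a (l 535210511) (l 534855695)) (a (l 535231503) (l 534893071)))) (b (b (a (l 16741704) (l 16774480)) (a (l 534865167) (l 536046095))) (b (a (l 534763279) (l 535000847)) (a (l 534548751) (l 534455311))))) (b (a (b (l 537915407) (a (l 537006607) (l 537791503))) (b (l 539000335) (l 538713615))) (a (b (a (l 536191759) (l 537158927)) (a (l 535008527) (l 4))) (b (l 538286863) (l 4))))) (a (b (b (a (a (l 535497231) (l 534907151)) (a (l 534581263) (l 4))) (l 4)) (l 4)) (l 4))), by decide +kernel⟩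

def k7_A00pp_022_s3 : ∃ t, chk3 f_A00pp_022_s3 t 3 1 1 = true :=
  ⟨(b (a (b (a (b (a (l 6) (l 17006736)) (a (b (l 16973128) (l 16945528)) (b (l 16965248) (l 16934944)))) (a (b (l 16908448) (b (l 16947296) (l 16914888))) (a (b (l 16976248) (b (l 16929144) (l 16895536))) (l 2)))) (a (b (a (b (l 16915744) (l 16801240)) (b (l 16902528) (l 539764239))) (a (b (l 539896335) (l 539841807)) (b (l 540303119) (l 540295951)))) (b (b (a (c (l 16905808) (l 16854712)) (a (l 16859936) (l 540795919))) (a (b (l 540566287) (l 540569615)) (c (l 541593359) (a (l 539831823) (l 539966223))))) (a (c (l 541633039) (l 539536911)) (b (c (l 541636879) (l 539858959)) (l 540806159)))))) (b (l 2) (b (l 2) (b (l 2) (l 4))))) (a (b (b (a (a (b (l 539745295) (l 539589647)) (b (l 540258575) (l 4))) (l 4)) (l 4)) (l 4)) (l 4))), by decide +kernel⟩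

theorem t8_A00pp_022_s3 : ∃ t, chk3 f_A00pp_022_s3 t 8 14 1 = true := ex3_a k2_A00pp_022_s3 k3_A00pp_022_s3

theorem t9_A00pp_022_s3 : ∃ t, chk3 f_A00pp_022_s3 t 4 14 1 = true := ex3_a t8_A00pp_022_s3 k4_A00pp_022_s3

theorem t10_A00pp_022_s3 : ∃ t, chk3 f_A00pp_022_s3 t 4 7 1 = true := ex3_b t9_A00pp_022_s3 k5_A00pp_022_s3

theorem t11_A00pp_022_s3 : ∃ t, chk3 f_A00pp_022_s3 t 4 3 1 = true := ex3_b k1_A00pp_022_s3 t10_A00pp_022_s3

theorem t12_A00pp_022_s3 : ∃ t, chk3 f_A00pp_022_s3 t 2 3 1 = true := ex3_a t11_A00pp_022_s3 k6_A00pp_022_s3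

theorem t13_A00pp_022_s3 : ∃ t, chk3 f_A00pp_022_s3 t 2 1 1 = true := ex3_b k0_A00pp_022_s3 t12_A00pp_022_s3

theorem t14_A00pp_022_s3 : ∃ t, chk3 f_A00pp_022_s3 t 1 1 1 = true := ex3_a t13_A00pp_022_s3 k7_A00pp_022_s3

theorem c_A00pp_022_s3 : CertF 0 536870912 0 536870912 201326592 134217728 true true true .pp 0 2 2
    ndF0q0 ndF0q2 pcF2 cut_A00pp_022_s3 xt_A00pp_022_s3 :=
  certFK0 (fam := true) (s1 := true) (s2 := true) (a := 0) (b := 2) (c := 2) (cn := .pp) (n1 := ndF0q0) (n2 := ndF0q2) (pc := pcF2) (cut := cut_A00pp_022_s3) (xt := xt_A00pp_022_s3) (P1 := 0) (W1 := 536870912) (P2 := 0) (W2 := 536870912) (P3 := 201326592) (W3 := 134217728)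
    rfl rfl rfl t14_A00pp_022_s3

theorem s_A00pp_022_s3 {κ x : ℝ} (hκ : κ * h0 = ken x) (hx : ((201326592 : ℕ) : ℝ) / S ≤ x)
    (hx' : x ≤ (((201326592 : ℕ) : ℝ) + (134217728 : ℕ)) / S)
    (H : CutA (VF κ) PP tKF tL pcF (Cut.of [[⟨0, 0, 0, 67108864⟩, ⟨1, 1, 0, 67108864⟩, ⟨2, 1, 0, 67108864⟩]]) 0 2 2 0 0 (sgb true) (sgb true) x) :
    AltA (VF κ) PP tKF tL pcF [⟨4, 0, 0, 2845415833⟩] 0 2 2 0 0 (sgb true) (sgb true) x :=
  strip_altA (m := 2845415833) false rfl hκ covF00 covF02 hx hx' c_A00pp_022_s3 H ((okx hx hx').extA (T := tt) (sideF hx hx') hκ rfl rfl (.O 0 true) (.O 2 true) (Or.inl rfl))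

noncomputable def cut_A00pp_023_s1 : Cut := Cut.of [[⟨4, 0, 0, 1449551462⟩]]

noncomputable def f_A00pp_023_s1 : ℕ → ℕ → ℕ → ℕ → Bool := onCell 0 536870912 0 536870912 201326592 134217728
    (rowFK 0 true true true .up 0 2 3 (qsf 0 536870912 0 536870912 3) ndF0q0 ndF0q2 pcF3 cut_A00pp_023_s1 Ext.none)

def k0_A00pp_023_s1 : ∃ t, chk3 f_A00pp_023_s1 t 1 1 1 = true :=
  ⟨(l 6), by decide +kernel⟩

theorem c_A00pp_023_s1 : CertF 0 536870912 0 536870912 201326592 134217728 true true true .up 0 2 3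
    ndF0q0 ndF0q2 pcF3 cut_A00pp_023_s1 Ext.none :=
  certFK0 (fam := true) (s1 := true) (s2 := true) (a := 0) (b := 2) (c := 3) (cn := .up) (n1 := ndF0q0) (n2 := ndF0q2) (pc := pcF3) (cut := cut_A00pp_023_s1) (xt := Ext.none) (P1 := 0) (W1 := 536870912) (P2 := 0) (W2 := 536870912) (P3 := 201326592) (W3 := 134217728)
    rfl rfl rfl k0_A00pp_023_s1

theorem s_A00pp_023_s1 {κ x : ℝ} (hκ : κ * h0 = ken x) (hx : ((201326592 : ℕ) : ℝ) / S ≤ x)
    (hx' : x ≤ (((201326592 : ℕ) : ℝ) + (134217728 : ℕ)) / S) :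
    AltA (VF κ) PP tKF tL pcF [⟨3, 0, 0, 1449551462⟩] 0 2 3 0 0 (sgb true) (sgb true) x :=
  strip_altA (m := 1449551462) true rfl hκ covF00 covF02 hx hx' c_A00pp_023_s1 cutA_nil (noExt_A)

noncomputable def cut_A00pp_023_s3 : Cut := Cut.of [[⟨3, 0, 0, 2845415833⟩]]

noncomputable def xt_A00pp_023_s3 : Ext := strExt dd true true true .u0 .u2 .s2 .up 0 2 3 rfl rfl gl3 vv ndF0q0 ndF0q2

noncomputable def f_A00pp_023_s3 : ℕ → ℕ → ℕ → ℕ → Bool := onCell 0 536870912 0 536870912 201326592 134217728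
    (rowFK 0 true true true .up 0 2 3 (qsf 0 536870912 0 536870912 3) ndF0q0 ndF0q2 pcF3 cut_A00pp_023_s3 xt_A00pp_023_s3)

def k0_A00pp_023_s3 : ∃ t, chk3 f_A00pp_023_s3 t 1 1 1 = true :=
  ⟨(a (l 1) (b (a (b (b (a (l 1) (a (l 1) (a (c (b (l 17101056) (l 17053992)) (b (l 16937360) (l 16915008))) (c (b (l 17075432) (l 17028824)) (b (l 16929584) (l 16906600)))))) (a (l 1) (a (l 1) (c (a (b (l 17005688) (l 542616591)) (b (l 16980872) (l 542621967))) (b (a (l 539676431) (l 16882208)) (a (l 539730191) (l 539829519))))))) (a (l 1) (a (l 1) (a (b (b (c (l 542725135) (l 539759631)) (b (l 1) (l 1))) (l 1)) (b (b (c (l 542737167) (l 539866639)) (c (b (l 542803983) (l 542849551)) (b (l 539874575) (l 539875599)))) (b (b (c (l 542898191) (l 539874319)) (l 541327631)) (l 4))))))) (b (a (b (a (c (b (l 17037008) (l 542312207)) (a (a (l 16911392) (l 16906624)) (l 539778831))) (c (a (l 542176783) (l 542100751)) (a (l 539828751)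 (l 539861263)))) (a (b (c (l 542473231) (l 539889423)) (a (c (l 542629135) (l 539924239)) (l 541220623))) (b (a (l 541109007) (l 541094415)) (c (l 542587407) (a (l 540079887) (l 540127759)))))) (b (a (b (l 540765199) (l 540888079)) (c (b (l 541724175) (l 541835023)) (b (l 539861263) (l 539931407)))) (a (b (l 541048591) (a (l 541221647) (l 541203471))) (c (b (l 542045967) (l 542269455)) (b (l 540060175) (l 540189199)))))) (a (b (a (b (a (c (l 542749455) (l 539966991)) (b (l 541302543) (l 541337615))) (a (c (l 542577167) (l 539983375)) (l 541377807))) (b (c (l 542778895) (l 540192015)) (a (l 541427727) (l 4)))) (a (a (a (b (b (l 540805391) (l 4)) (l 4)) (l 4)) (l 4)) (l 4))) (a (a (b (b (l 541368335) (l 4)) (l 4)) (l 4)) (l 4))))) (a (b (l 1) (l 1)) (l 4)))), by decide +kernel⟩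

theorem c_A00pp_023_s3 : CertF 0 536870912 0 536870912 201326592 134217728 true true true .up 0 2 3
    ndF0q0 ndF0q2 pcF3 cut_A00pp_023_s3 xt_A00pp_023_s3 :=
  certFK0 (fam := true) (s1 := true) (s2 := true) (a := 0) (b := 2) (c := 3) (cn := .up) (n1 := ndF0q0) (n2 := ndF0q2) (pc := pcF3) (cut := cut_A00pp_023_s3) (xt := xt_A00pp_023_s3) (P1 := 0) (W1 := 536870912) (P2 := 0) (W2 := 536870912) (P3 := 201326592) (W3 := 134217728)
    rfl rfl rfl k0_A00pp_023_s3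

theorem s_A00pp_023_s3 {κ x : ℝ} (hκ : κ * h0 = ken x) (hx : ((201326592 : ℕ) : ℝ) / S ≤ x)
    (hx' : x ≤ (((201326592 : ℕ) : ℝ) + (134217728 : ℕ)) / S) :
    AltA (VF κ) PP tKF tL pcF [⟨4, 0, 0, 2845415833⟩] 0 2 3 0 0 (sgb true) (sgb true) x :=
  strip_altA (m := 2845415833) false rfl hκ covF00 covF02 hx hx' c_A00pp_023_s3 cutA_nil ((okx hx hx').extA (T := tt) (sideF hx hx') hκ rfl rfl (.O 0 true) (.O 2 true) (Or.inr rfl))

noncomputable def cut_A00pp_101_s1 : Cut := Cut.of [[⟨4, 0, 0, 1449551462⟩]]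

noncomputable def f_A00pp_101_s1 : ℕ → ℕ → ℕ → ℕ → Bool := onCell 536870912 536870912 0 536870912 201326592 134217728
    (rowFK 0 true true true .npn 1 0 1 (qsf 536870912 536870912 0 536870912 1) ndF0q1 ndF0q0 pcF1 cut_A00pp_101_s1 Ext.none)

def k0_A00pp_101_s1 : ∃ t, chk3 f_A00pp_101_s1 t 1 1 1 = true :=
  ⟨(l 6), by decide +kernel⟩

theorem c_A00pp_101_s1 : CertF 536870912 536870912 0 536870912 201326592 134217728 true true true .npn 1 0 1
    ndF0q1 ndF0q0 pcF1 cut_A00pp_101_s1 Ext.none :=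
  certFK0 (fam := true) (s1 := true) (s2 := true) (a := 1) (b := 0) (c := 1) (cn := .npn) (n1 := ndF0q1) (n2 := ndF0q0) (pc := pcF1) (cut := cut_A00pp_101_s1) (xt := Ext.none) (P1 := 536870912) (W1 := 536870912) (P2 := 0) (W2 := 536870912) (P3 := 201326592) (W3 := 134217728)
    rfl rfl rfl k0_A00pp_101_s1

theorem s_A00pp_101_s1 {κ x : ℝ} (hκ : κ * h0 = ken x) (hx : ((201326592 : ℕ) : ℝ) / S ≤ x)
    (hx' : x ≤ (((201326592 : ℕ) : ℝ) + (134217728 : ℕ)) / S) :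
    AltA (VF κ) PP tKF tL pcF [⟨3, 0, 0, 1449551462⟩] 1 0 1 0 0 (sgb true) (sgb true) x :=
  strip_altA (m := 1449551462) true rfl hκ covF01 covF00 hx hx' c_A00pp_101_s1 cutA_nil (noExt_A)

noncomputable def cut_A00pp_101_s3 : Cut := Cut.of [[⟨3, 0, 0, 2845415833⟩]]

noncomputable def f_A00pp_101_s3 : ℕ → ℕ → ℕ → ℕ → Bool := onCell 536870912 536870912 0 536870912 201326592 134217728
    (rowFK 0 true true true .npn 1 0 1 (qsf 536870912 536870912 0 536870912 1) ndF0q1 ndF0q0 pcF1 cut_A00pp_101_s3 Ext.none)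

def k0_A00pp_101_s3 : ∃ t, chk3 f_A00pp_101_s3 t 1 1 1 = true :=
  ⟨(a (l 4) (l 5)), by decide +kernel⟩

theorem c_A00pp_101_s3 : CertF 536870912 536870912 0 536870912 201326592 134217728 true true true .npn 1 0 1
    ndF0q1 ndF0q0 pcF1 cut_A00pp_101_s3 Ext.none :=
  certFK0 (fam := true) (s1 := true) (s2 := true) (a := 1) (b := 0) (c := 1) (cn := .npn) (n1 := ndF0q1) (n2 := ndF0q0) (pc := pcF1) (cut := cut_A00pp_101_s3) (xt := Ext.none) (P1 := 536870912) (W1 := 536870912) (P2 := 0) (W2 := 536870912) (P3 := 201326592) (W3 := 134217728)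
    rfl rfl rfl k0_A00pp_101_s3

theorem s_A00pp_101_s3 {κ x : ℝ} (hκ : κ * h0 = ken x) (hx : ((201326592 : ℕ) : ℝ) / S ≤ x)
    (hx' : x ≤ (((201326592 : ℕ) : ℝ) + (134217728 : ℕ)) / S) :
    AltA (VF κ) PP tKF tL pcF [⟨4, 0, 0, 2845415833⟩] 1 0 1 0 0 (sgb true) (sgb true) x :=
  strip_altA (m := 2845415833) false rfl hκ covF01 covF00 hx hx' c_A00pp_101_s3 cutA_nil (noExt_A)

noncomputable def cut_A00pp_102_s1 : Cut := Cut.of [[⟨4, 0, 0, 1449551462⟩]]

noncomputable def f_A00pp_102_s1 : ℕ → ℕ → ℕ → ℕ → Bool := onCell 536870912 536870912 0 536870912 201326592 134217728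
    (rowFK 0 true true true .npp 1 0 2 (qsf 536870912 536870912 0 536870912 2) ndF0q1 ndF0q0 pcF2 cut_A00pp_102_s1 Ext.none)

def k0_A00pp_102_s1 : ∃ t, chk3 f_A00pp_102_s1 t 1 1 1 = true :=
  ⟨(l 6), by decide +kernel⟩

theorem c_A00pp_102_s1 : CertF 536870912 536870912 0 536870912 201326592 134217728 true true true .npp 1 0 2
    ndF0q1 ndF0q0 pcF2 cut_A00pp_102_s1 Ext.none :=
  certFK0 (fam := true) (s1 := true) (s2 := true) (a := 1) (b := 0) (c := 2) (cn := .npp) (n1 := ndF0q1) (n2 := ndF0q0) (pc := pcF2) (cut := cut_A00pp_102_s1) (xt := Ext.none) (P1 := 536870912) (W1 := 536870912) (P2 := 0) (W2 := 536870912) (P3 := 201326592) (W3 := 134217728)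
    rfl rfl rfl k0_A00pp_102_s1

theorem s_A00pp_102_s1 {κ x : ℝ} (hκ : κ * h0 = ken x) (hx : ((201326592 : ℕ) : ℝ) / S ≤ x)
    (hx' : x ≤ (((201326592 : ℕ) : ℝ) + (134217728 : ℕ)) / S) :
    AltA (VF κ) PP tKF tL pcF [⟨3, 0, 0, 1449551462⟩] 1 0 2 0 0 (sgb true) (sgb true) x :=
  strip_altA (m := 1449551462) true rfl hκ covF01 covF00 hx hx' c_A00pp_102_s1 cutA_nil (noExt_A)

noncomputable def cut_A00pp_102_s3 : Cut := Cut.of [[⟨3, 0, 0, 2845415833⟩]]

noncomputable def f_A00pp_102_s3 : ℕ → ℕ → ℕ → ℕ → Bool := onCell 536870912 536870912 0 536870912 201326592 134217728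
    (rowFK 0 true true true .npp 1 0 2 (qsf 536870912 536870912 0 536870912 2) ndF0q1 ndF0q0 pcF2 cut_A00pp_102_s3 Ext.none)

def k0_A00pp_102_s3 : ∃ t, chk3 f_A00pp_102_s3 t 1 1 1 = true :=
  ⟨(a (l 4) (l 5)), by decide +kernel⟩

theorem c_A00pp_102_s3 : CertF 536870912 536870912 0 536870912 201326592 134217728 true true true .npp 1 0 2
    ndF0q1 ndF0q0 pcF2 cut_A00pp_102_s3 Ext.none :=
  certFK0 (fam := true) (s1 := true) (s2 := true) (a := 1) (b := 0) (c := 2) (cn := .npp) (n1 := ndF0q1) (n2 := ndF0q0) (pc := pcF2) (cut := cut_A00pp_102_s3) (xt := Ext.none) (P1 := 536870912) (W1 := 536870912) (P2 := 0) (W2 := 536870912) (P3 := 201326592) (W3 := 134217728)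
    rfl rfl rfl k0_A00pp_102_s3

theorem s_A00pp_102_s3 {κ x : ℝ} (hκ : κ * h0 = ken x) (hx : ((201326592 : ℕ) : ℝ) / S ≤ x)
    (hx' : x ≤ (((201326592 : ℕ) : ℝ) + (134217728 : ℕ)) / S) :
    AltA (VF κ) PP tKF tL pcF [⟨4, 0, 0, 2845415833⟩] 1 0 2 0 0 (sgb true) (sgb true) x :=
  strip_altA (m := 2845415833) false rfl hκ covF01 covF00 hx hx' c_A00pp_102_s3 cutA_nil (noExt_A)

noncomputable def cut_A00pp_112_s1 : Cut := Cut.of [[⟨4, 0, 0, 1449551462⟩]]

noncomputable def f_A00pp_112_s1 : ℕ → ℕ → ℕ → ℕ → Bool := onCell 536870912 536870912 536870912 536870912 201326592 134217728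
    (rowFK 0 true true true .dn 1 1 2 (qsf 536870912 536870912 536870912 536870912 2) ndF0q1 ndF0q1 pcF2 cut_A00pp_112_s1 Ext.none)

def k0_A00pp_112_s1 : ∃ t, chk3 f_A00pp_112_s1 t 1 1 1 = true :=
  ⟨(l 4), by decide +kernel⟩

theorem c_A00pp_112_s1 : CertF 536870912 536870912 536870912 536870912 201326592 134217728 true true true .dn 1 1 2
    ndF0q1 ndF0q1 pcF2 cut_A00pp_112_s1 Ext.none :=
  certFK0 (fam := true) (s1 := true) (s2 := true) (a := 1) (b := 1) (c := 2) (cn := .dn) (n1 := ndF0q1) (n2 := ndF0q1) (pc := pcF2) (cut := cut_A00pp_112_s1) (xt := Ext.none) (P1 := 536870912) (W1 := 536870912) (P2 := 536870912) (W2 := 536870912) (P3 := 201326592) (W3 := 134217728)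
    rfl rfl rfl k0_A00pp_112_s1

theorem s_A00pp_112_s1 {κ x : ℝ} (hκ : κ * h0 = ken x) (hx : ((201326592 : ℕ) : ℝ) / S ≤ x)
    (hx' : x ≤ (((201326592 : ℕ) : ℝ) + (134217728 : ℕ)) / S) :
    AltA (VF κ) PP tKF tL pcF [⟨3, 0, 0, 1449551462⟩] 1 1 2 0 0 (sgb true) (sgb true) x :=
  strip_altA (m := 1449551462) true rfl hκ covF01 covF01 hx hx' c_A00pp_112_s1 cutA_nil (noExt_A)

noncomputable def cut_A00pp_112_s3 : Cut := Cut.of [[⟨3, 0, 0, 2845415833⟩]]

noncomputable def f_A00pp_112_s3 : ℕ → ℕ → ℕ → ℕ → Bool := onCell 536870912 536870912 536870912 536870912 201326592 134217728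
    (rowFK 0 true true true .dn 1 1 2 (qsf 536870912 536870912 536870912 536870912 2) ndF0q1 ndF0q1 pcF2 cut_A00pp_112_s3 Ext.none)

def k0_A00pp_112_s3 : ∃ t, chk3 f_A00pp_112_s3 t 1 1 1 = true :=
  ⟨(l 4), by decide +kernel⟩

theorem c_A00pp_112_s3 : CertF 536870912 536870912 536870912 536870912 201326592 134217728 true true true .dn 1 1 2
    ndF0q1 ndF0q1 pcF2 cut_A00pp_112_s3 Ext.none :=
  certFK0 (fam := true) (s1 := true) (s2 := true) (a := 1) (b := 1) (c := 2) (cn := .dn) (n1 := ndF0q1) (n2 := ndF0q1) (pc := pcF2) (cut := cut_A00pp_112_s3) (xt := Ext.none) (P1 := 536870912) (W1 := 536870912) (P2 := 536870912) (W2 := 536870912) (P3 := 201326592) (W3 := 134217728)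
    rfl rfl rfl k0_A00pp_112_s3

theorem s_A00pp_112_s3 {κ x : ℝ} (hκ : κ * h0 = ken x) (hx : ((201326592 : ℕ) : ℝ) / S ≤ x)
    (hx' : x ≤ (((201326592 : ℕ) : ℝ) + (134217728 : ℕ)) / S) :
    AltA (VF κ) PP tKF tL pcF [⟨4, 0, 0, 2845415833⟩] 1 1 2 0 0 (sgb true) (sgb true) x :=
  strip_altA (m := 2845415833) false rfl hκ covF01 covF01 hx hx' c_A00pp_112_s3 cutA_nil (noExt_A)

noncomputable def cut_A00pp_113_s1 : Cut := Cut.of [[⟨4, 0, 0, 1449551462⟩]]

noncomputable def f_A00pp_113_s1 : ℕ → ℕ → ℕ → ℕ → Bool := onCell 536870912 536870912 536870912 536870912 201326592 134217728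
    (rowFK 0 true true true .nn 1 1 3 (qsf 536870912 536870912 536870912 536870912 3) ndF0q1 ndF0q1 pcF3 cut_A00pp_113_s1 Ext.none)

def k0_A00pp_113_s1 : ∃ t, chk3 f_A00pp_113_s1 t 1 1 1 = true :=
  ⟨(l 4), by decide +kernel⟩

theorem c_A00pp_113_s1 : CertF 536870912 536870912 536870912 536870912 201326592 134217728 true true true .nn 1 1 3
    ndF0q1 ndF0q1 pcF3 cut_A00pp_113_s1 Ext.none :=
  certFK0 (fam := true) (s1 := true) (s2 := true) (a := 1) (b := 1) (c := 3) (cn := .nn) (n1 := ndF0q1) (n2 := ndF0q1) (pc := pcF3) (cut := cut_A00pp_113_s1) (xt := Ext.none) (P1 := 536870912) (W1 := 536870912) (P2 := 536870912) (W2 := 536870912) (P3 := 201326592) (W3 := 134217728)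
    rfl rfl rfl k0_A00pp_113_s1

theorem s_A00pp_113_s1 {κ x : ℝ} (hκ : κ * h0 = ken x) (hx : ((201326592 : ℕ) : ℝ) / S ≤ x)
    (hx' : x ≤ (((201326592 : ℕ) : ℝ) + (134217728 : ℕ)) / S) :
    AltA (VF κ) PP tKF tL pcF [⟨3, 0, 0, 1449551462⟩] 1 1 3 0 0 (sgb true) (sgb true) x :=
  strip_altA (m := 1449551462) true rfl hκ covF01 covF01 hx hx' c_A00pp_113_s1 cutA_nil (noExt_A)

noncomputable def cut_A00pp_113_s3 : Cut := Cut.of [[⟨3, 0, 0, 2845415833⟩]]

noncomputable def f_A00pp_113_s3 : ℕ → ℕ → ℕ → ℕ → Bool := onCell 536870912 536870912 536870912 536870912 201326592 134217728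
    (rowFK 0 true true true .nn 1 1 3 (qsf 536870912 536870912 536870912 536870912 3) ndF0q1 ndF0q1 pcF3 cut_A00pp_113_s3 Ext.none)

def k0_A00pp_113_s3 : ∃ t, chk3 f_A00pp_113_s3 t 1 1 1 = true :=
  ⟨(l 4), by decide +kernel⟩

theorem c_A00pp_113_s3 : CertF 536870912 536870912 536870912 536870912 201326592 134217728 true true true .nn 1 1 3
    ndF0q1 ndF0q1 pcF3 cut_A00pp_113_s3 Ext.none :=
  certFK0 (fam := true) (s1 := true) (s2 := true) (a := 1) (b := 1) (c := 3) (cn := .nn) (n1 := ndF0q1) (n2 := ndF0q1) (pc := pcF3) (cut := cut_A00pp_113_s3) (xt := Ext.none) (P1 := 536870912) (W1 := 536870912) (P2 := 536870912) (W2 := 536870912) (P3 := 201326592) (W3 := 134217728)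
    rfl rfl rfl k0_A00pp_113_s3

theorem s_A00pp_113_s3 {κ x : ℝ} (hκ : κ * h0 = ken x) (hx : ((201326592 : ℕ) : ℝ) / S ≤ x)
    (hx' : x ≤ (((201326592 : ℕ) : ℝ) + (134217728 : ℕ)) / S) :
    AltA (VF κ) PP tKF tL pcF [⟨4, 0, 0, 2845415833⟩] 1 1 3 0 0 (sgb true) (sgb true) x :=
  strip_altA (m := 2845415833) false rfl hκ covF01 covF01 hx hx' c_A00pp_113_s3 cutA_nil (noExt_A)

noncomputable def cut_A00pp_123_s1 : Cut := Cut.of [[⟨4, 0, 0, 1449551462⟩]]

noncomputable def f_A00pp_123_s1 : ℕ → ℕ → ℕ → ℕ → Bool := onCell 536870912 536870912 0 536870912 201326592 134217728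
    (rowFK 0 true true true .npn 1 2 3 (qsf 536870912 536870912 0 536870912 3) ndF0q1 ndF0q2 pcF3 cut_A00pp_123_s1 Ext.none)

def k0_A00pp_123_s1 : ∃ t, chk3 f_A00pp_123_s1 t 1 1 1 = true :=
  ⟨(l 6), by decide +kernel⟩

theorem c_A00pp_123_s1 : CertF 536870912 536870912 0 536870912 201326592 134217728 true true true .npn 1 2 3
    ndF0q1 ndF0q2 pcF3 cut_A00pp_123_s1 Ext.none :=
  certFK0 (fam := true) (s1 := true) (s2 := true) (a := 1) (b := 2) (c := 3) (cn := .npn) (n1 := ndF0q1) (n2 := ndF0q2) (pc := pcF3) (cut := cut_A00pp_123_s1) (xt := Ext.none) (P1 := 536870912) (W1 := 536870912) (P2 := 0) (W2 := 536870912) (P3 := 201326592) (W3 := 134217728)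
    rfl rfl rfl k0_A00pp_123_s1

theorem s_A00pp_123_s1 {κ x : ℝ} (hκ : κ * h0 = ken x) (hx : ((201326592 : ℕ) : ℝ) / S ≤ x)
    (hx' : x ≤ (((201326592 : ℕ) : ℝ) + (134217728 : ℕ)) / S) :
    AltA (VF κ) PP tKF tL pcF [⟨3, 0, 0, 1449551462⟩] 1 2 3 0 0 (sgb true) (sgb true) x :=
  strip_altA (m := 1449551462) true rfl hκ covF01 covF02 hx hx' c_A00pp_123_s1 cutA_nil (noExt_A)

noncomputable def cut_A00pp_123_s3 : Cut := Cut.of [[⟨3, 0, 0, 2845415833⟩]]

noncomputable def xt_A00pp_123_s3 : Ext := strExt dd true true true .u0 .u2 .s2 .npn 1 2 3 rfl rfl gl3 vv ndF0q1 ndF0q2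

noncomputable def f_A00pp_123_s3 : ℕ → ℕ → ℕ → ℕ → Bool := onCell 536870912 536870912 0 536870912 201326592 134217728
    (rowFK 0 true true true .npn 1 2 3 (qsf 536870912 536870912 0 536870912 3) ndF0q1 ndF0q2 pcF3 cut_A00pp_123_s3 xt_A00pp_123_s3)

def k0_A00pp_123_s3 : ∃ t, chk3 f_A00pp_123_s3 t 1 1 1 = true :=
  ⟨(a (c (b (a (b (a (b (a (a (l 541664783) (l 541607695)) (l 541535759)) (b (a (l 541811983) (l 4)) (l 4))) (b (a (l 541434127) (l 4)) (l 4))) (l 4)) (l 4)) (l 4)) (c (b (a (b (a (b (a (l 540259855) (l 540248847)) (b (l 540378639) (l 4))) (b (l 540211215) (l 4))) (l 4)) (l 4)) (l 4)) (b (a (b (a (b (a (l 539611151) (l 539648527)) (b (l 540786447) (l 4))) (b (l 540474127) (l 4))) (l 4)) (l 4)) (l 4)))) (l 4)), by decide +kernel⟩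

theorem c_A00pp_123_s3 : CertF 536870912 536870912 0 536870912 201326592 134217728 true true true .npn 1 2 3
    ndF0q1 ndF0q2 pcF3 cut_A00pp_123_s3 xt_A00pp_123_s3 :=
  certFK0 (fam := true) (s1 := true) (s2 := true) (a := 1) (b := 2) (c := 3) (cn := .npn) (n1 := ndF0q1) (n2 := ndF0q2) (pc := pcF3) (cut := cut_A00pp_123_s3) (xt := xt_A00pp_123_s3) (P1 := 536870912) (W1 := 536870912) (P2 := 0) (W2 := 536870912) (P3 := 201326592) (W3 := 134217728)
    rfl rfl rfl k0_A00pp_123_s3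

theorem s_A00pp_123_s3 {κ x : ℝ} (hκ : κ * h0 = ken x) (hx : ((201326592 : ℕ) : ℝ) / S ≤ x)
    (hx' : x ≤ (((201326592 : ℕ) : ℝ) + (134217728 : ℕ)) / S) :
    AltA (VF κ) PP tKF tL pcF [⟨4, 0, 0, 2845415833⟩] 1 2 3 0 0 (sgb true) (sgb true) x :=
  strip_altA (m := 2845415833) false rfl hκ covF01 covF02 hx hx' c_A00pp_123_s3 cutA_nil ((okx hx hx').extA (T := tt) (sideF hx hx') hκ rfl rfl (.O 1 true) (.O 2 true) (Or.inr rfl))

noncomputable def cut_A00pp_202_s1 : Cut := Cut.of [[⟨4, 0, 0, 1449551462⟩]]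

noncomputable def f_A00pp_202_s1 : ℕ → ℕ → ℕ → ℕ → Bool := onCell 0 536870912 0 536870912 201326592 134217728
    (rowFK 0 true true true .pp 2 0 2 (qsf 0 536870912 0 536870912 2) ndF0q2 ndF0q0 pcF2 cut_A00pp_202_s1 Ext.none)

def k0_A00pp_202_s1 : ∃ t, chk3 f_A00pp_202_s1 t 1 1 1 = true :=
  ⟨(l 5), by decide +kernel⟩

theorem c_A00pp_202_s1 : CertF 0 536870912 0 536870912 201326592 134217728 true true true .pp 2 0 2
    ndF0q2 ndF0q0 pcF2 cut_A00pp_202_s1 Ext.none :=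
  certFK0 (fam := true) (s1 := true) (s2 := true) (a := 2) (b := 0) (c := 2) (cn := .pp) (n1 := ndF0q2) (n2 := ndF0q0) (pc := pcF2) (cut := cut_A00pp_202_s1) (xt := Ext.none) (P1 := 0) (W1 := 536870912) (P2 := 0) (W2 := 536870912) (P3 := 201326592) (W3 := 134217728)
    rfl rfl rfl k0_A00pp_202_s1

theorem s_A00pp_202_s1 {κ x : ℝ} (hκ : κ * h0 = ken x) (hx : ((201326592 : ℕ) : ℝ) / S ≤ x)
    (hx' : x ≤ (((201326592 : ℕ) : ℝ) + (134217728 : ℕ)) / S) :
    AltA (VF κ) PP tKF tL pcF [⟨3, 0, 0, 1449551462⟩] 2 0 2 0 0 (sgb true) (sgb true) x :=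
  strip_altA (m := 1449551462) true rfl hκ covF02 covF00 hx hx' c_A00pp_202_s1 cutA_nil (noExt_A)

noncomputable def cut_A00pp_202_s3 : Cut := Cut.of [[⟨3, 0, 0, 2845415833⟩]]

noncomputable def f_A00pp_202_s3 : ℕ → ℕ → ℕ → ℕ → Bool := onCell 0 536870912 0 536870912 201326592 134217728
    (rowFK 0 true true true .pp 2 0 2 (qsf 0 536870912 0 536870912 2) ndF0q2 ndF0q0 pcF2 cut_A00pp_202_s3 Ext.none)

def k0_A00pp_202_s3 : ∃ t, chk3 f_A00pp_202_s3 t 1 1 1 = true :=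
  ⟨(l 5), by decide +kernel⟩

theorem c_A00pp_202_s3 : CertF 0 536870912 0 536870912 201326592 134217728 true true true .pp 2 0 2
    ndF0q2 ndF0q0 pcF2 cut_A00pp_202_s3 Ext.none :=
  certFK0 (fam := true) (s1 := true) (s2 := true) (a := 2) (b := 0) (c := 2) (cn := .pp) (n1 := ndF0q2) (n2 := ndF0q0) (pc := pcF2) (cut := cut_A00pp_202_s3) (xt := Ext.none) (P1 := 0) (W1 := 536870912) (P2 := 0) (W2 := 536870912) (P3 := 201326592) (W3 := 134217728)
    rfl rfl rfl k0_A00pp_202_s3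

theorem s_A00pp_202_s3 {κ x : ℝ} (hκ : κ * h0 = ken x) (hx : ((201326592 : ℕ) : ℝ) / S ≤ x)
    (hx' : x ≤ (((201326592 : ℕ) : ℝ) + (134217728 : ℕ)) / S) :
    AltA (VF κ) PP tKF tL pcF [⟨4, 0, 0, 2845415833⟩] 2 0 2 0 0 (sgb true) (sgb true) x :=
  strip_altA (m := 2845415833) false rfl hκ covF02 covF00 hx hx' c_A00pp_202_s3 cutA_nil (noExt_A)

noncomputable def cut_A00pp_203_s1 : Cut := Cut.of [[⟨4, 0, 0, 1449551462⟩]]

noncomputable def f_A00pp_203_s1 : ℕ → ℕ → ℕ → ℕ → Bool := onCell 0 536870912 0 536870912 201326592 134217728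
    (rowFK 0 true true true .up 2 0 3 (qsf 0 536870912 0 536870912 3) ndF0q2 ndF0q0 pcF3 cut_A00pp_203_s1 Ext.none)

def k0_A00pp_203_s1 : ∃ t, chk3 f_A00pp_203_s1 t 1 1 1 = true :=
  ⟨(l 5), by decide +kernel⟩

theorem c_A00pp_203_s1 : CertF 0 536870912 0 536870912 201326592 134217728 true true true .up 2 0 3
    ndF0q2 ndF0q0 pcF3 cut_A00pp_203_s1 Ext.none :=
  certFK0 (fam := true) (s1 := true) (s2 := true) (a := 2) (b := 0) (c := 3) (cn := .up) (n1 := ndF0q2) (n2 := ndF0q0) (pc := pcF3) (cut := cut_A00pp_203_s1) (xt := Ext.none) (P1 := 0) (W1 := 536870912) (P2 := 0) (W2 := 536870912) (P3 := 201326592) (W3 := 134217728)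
    rfl rfl rfl k0_A00pp_203_s1

theorem s_A00pp_203_s1 {κ x : ℝ} (hκ : κ * h0 = ken x) (hx : ((201326592 : ℕ) : ℝ) / S ≤ x)
    (hx' : x ≤ (((201326592 : ℕ) : ℝ) + (134217728 : ℕ)) / S) :
    AltA (VF κ) PP tKF tL pcF [⟨3, 0, 0, 1449551462⟩] 2 0 3 0 0 (sgb true) (sgb true) x :=
  strip_altA (m := 1449551462) true rfl hκ covF02 covF00 hx hx' c_A00pp_203_s1 cutA_nil (noExt_A)

noncomputable def cut_A00pp_203_s3 : Cut := Cut.of [[⟨3, 0, 0, 2845415833⟩]]

noncomputable def f_A00pp_203_s3 : ℕ → ℕ → ℕ → ℕ → Bool := onCell 0 536870912 0 536870912 201326592 134217728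
    (rowFK 0 true true true .up 2 0 3 (qsf 0 536870912 0 536870912 3) ndF0q2 ndF0q0 pcF3 cut_A00pp_203_s3 Ext.none)

def k0_A00pp_203_s3 : ∃ t, chk3 f_A00pp_203_s3 t 1 1 1 = true :=
  ⟨(l 5), by decide +kernel⟩

theorem c_A00pp_203_s3 : CertF 0 536870912 0 536870912 201326592 134217728 true true true .up 2 0 3
    ndF0q2 ndF0q0 pcF3 cut_A00pp_203_s3 Ext.none :=
  certFK0 (fam := true) (s1 := true) (s2 := true) (a := 2) (b := 0) (c := 3) (cn := .up) (n1 := ndF0q2) (n2 := ndF0q0) (pc := pcF3) (cut := cut_A00pp_203_s3) (xt := Ext.none) (P1 := 0) (W1 := 536870912) (P2 := 0) (W2 := 536870912) (P3 := 201326592) (W3 := 134217728)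
    rfl rfl rfl k0_A00pp_203_s3

theorem s_A00pp_203_s3 {κ x : ℝ} (hκ : κ * h0 = ken x) (hx : ((201326592 : ℕ) : ℝ) / S ≤ x)
    (hx' : x ≤ (((201326592 : ℕ) : ℝ) + (134217728 : ℕ)) / S) :
    AltA (VF κ) PP tKF tL pcF [⟨4, 0, 0, 2845415833⟩] 2 0 3 0 0 (sgb true) (sgb true) x :=
  strip_altA (m := 2845415833) false rfl hκ covF02 covF00 hx hx' c_A00pp_203_s3 cutA_nil (noExt_A)

noncomputable def cut_A00pp_213_s1 : Cut := Cut.of [[⟨4, 0, 0, 1449551462⟩]]

noncomputable def f_A00pp_213_s1 : ℕ → ℕ → ℕ → ℕ → Bool := onCell 0 536870912 536870912 536870912 201326592 134217728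
    (rowFK 0 true true true .pnn 2 1 3 (qsf 0 536870912 536870912 536870912 3) ndF0q2 ndF0q1 pcF3 cut_A00pp_213_s1 Ext.none)

def k0_A00pp_213_s1 : ∃ t, chk3 f_A00pp_213_s1 t 1 1 1 = true :=
  ⟨(l 6), by decide +kernel⟩

theorem c_A00pp_213_s1 : CertF 0 536870912 536870912 536870912 201326592 134217728 true true true .pnn 2 1 3
    ndF0q2 ndF0q1 pcF3 cut_A00pp_213_s1 Ext.none :=
  certFK0 (fam := true) (s1 := true) (s2 := true) (a := 2) (b := 1) (c := 3) (cn := .pnn) (n1 := ndF0q2) (n2 := ndF0q1) (pc := pcF3) (cut := cut_A00pp_213_s1) (xt := Ext.none) (P1 := 0) (W1 := 536870912) (P2 := 536870912) (W2 := 536870912) (P3 := 201326592) (W3 := 134217728)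
    rfl rfl rfl k0_A00pp_213_s1

theorem s_A00pp_213_s1 {κ x : ℝ} (hκ : κ * h0 = ken x) (hx : ((201326592 : ℕ) : ℝ) / S ≤ x)
    (hx' : x ≤ (((201326592 : ℕ) : ℝ) + (134217728 : ℕ)) / S) :
    AltA (VF κ) PP tKF tL pcF [⟨3, 0, 0, 1449551462⟩] 2 1 3 0 0 (sgb true) (sgb true) x :=
  strip_altA (m := 1449551462) true rfl hκ covF02 covF01 hx hx' c_A00pp_213_s1 cutA_nil (noExt_A)

noncomputable def cut_A00pp_213_s3 : Cut := Cut.of [[⟨3, 0, 0, 2845415833⟩]]

noncomputable def f_A00pp_213_s3 : ℕ → ℕ → ℕ → ℕ → Bool := onCell 0 536870912 536870912 536870912 201326592 134217728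
    (rowFK 0 true true true .pnn 2 1 3 (qsf 0 536870912 536870912 536870912 3) ndF0q2 ndF0q1 pcF3 cut_A00pp_213_s3 Ext.none)

def k0_A00pp_213_s3 : ∃ t, chk3 f_A00pp_213_s3 t 1 1 1 = true :=
  ⟨(a (l 5) (l 4)), by decide +kernel⟩

theorem c_A00pp_213_s3 : CertF 0 536870912 536870912 536870912 201326592 134217728 true true true .pnn 2 1 3
    ndF0q2 ndF0q1 pcF3 cut_A00pp_213_s3 Ext.none :=
  certFK0 (fam := true) (s1 := true) (s2 := true) (a := 2) (b := 1) (c := 3) (cn := .pnn) (n1 := ndF0q2) (n2 := ndF0q1) (pc := pcF3) (cut := cut_A00pp_213_s3) (xt := Ext.none) (P1 := 0) (W1 := 536870912) (P2 := 536870912) (W2 := 536870912) (P3 := 201326592) (W3 := 134217728)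
    rfl rfl rfl k0_A00pp_213_s3

theorem s_A00pp_213_s3 {κ x : ℝ} (hκ : κ * h0 = ken x) (hx : ((201326592 : ℕ) : ℝ) / S ≤ x)
    (hx' : x ≤ (((201326592 : ℕ) : ℝ) + (134217728 : ℕ)) / S) :
    AltA (VF κ) PP tKF tL pcF [⟨4, 0, 0, 2845415833⟩] 2 1 3 0 0 (sgb true) (sgb true) x :=
  strip_altA (m := 2845415833) false rfl hκ covF02 covF01 hx hx' c_A00pp_213_s3 cutA_nil (noExt_A)

noncomputable def cut_A00pm_001_s1 : Cut := Cut.of [[⟨4, 0, 0, 1449551462⟩]]

noncomputable def f_A00pm_001_s1 : ℕ → ℕ → ℕ → ℕ → Bool := onCell 0 536870912 0 536870912 201326592 134217728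
    (rowFK 0 true true false .up 0 0 1 (qsf 0 536870912 0 536870912 1) ndF0q0 ndF0q0 pcF1 cut_A00pm_001_s1 Ext.none)

def k0_A00pm_001_s1 : ∃ t, chk3 f_A00pm_001_s1 t 1 1 1 = true :=
  ⟨(l 3), by decide +kernel⟩

theorem c_A00pm_001_s1 : CertF 0 536870912 0 536870912 201326592 134217728 true true false .up 0 0 1
    ndF0q0 ndF0q0 pcF1 cut_A00pm_001_s1 Ext.none :=
  certFK0 (fam := true) (s1 := true) (s2 := false) (a := 0) (b := 0) (c := 1) (cn := .up) (n1 := ndF0q0) (n2 := ndF0q0) (pc := pcF1) (cut := cut_A00pm_001_s1) (xt := Ext.none) (P1 := 0) (W1 := 536870912) (P2 := 0) (W2 := 536870912) (P3 := 201326592) (W3 := 134217728)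
    rfl rfl rfl k0_A00pm_001_s1

theorem s_A00pm_001_s1 {κ x : ℝ} (hκ : κ * h0 = ken x) (hx : ((201326592 : ℕ) : ℝ) / S ≤ x)
    (hx' : x ≤ (((201326592 : ℕ) : ℝ) + (134217728 : ℕ)) / S) :
    AltA (VF κ) PP tKF tL pcF [⟨3, 0, 0, 1449551462⟩] 0 0 1 0 0 (sgb true) (sgb false) x :=
  strip_altA (m := 1449551462) true rfl hκ covF00 covF00 hx hx' c_A00pm_001_s1 cutA_nil (noExt_A)

noncomputable def cut_A00pm_001_s3 : Cut := Cut.of [[⟨3, 0, 0, 2845415833⟩]]

noncomputable def f_A00pm_001_s3 : ℕ → ℕ → ℕ → ℕ → Bool := onCell 0 536870912 0 536870912 201326592 134217728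
    (rowFK 0 true true false .up 0 0 1 (qsf 0 536870912 0 536870912 1) ndF0q0 ndF0q0 pcF1 cut_A00pm_001_s3 Ext.none)

def k0_A00pm_001_s3 : ∃ t, chk3 f_A00pm_001_s3 t 1 1 1 = true :=
  ⟨(l 3), by decide +kernel⟩

theorem c_A00pm_001_s3 : CertF 0 536870912 0 536870912 201326592 134217728 true true false .up 0 0 1
    ndF0q0 ndF0q0 pcF1 cut_A00pm_001_s3 Ext.none :=
  certFK0 (fam := true) (s1 := true) (s2 := false) (a := 0) (b := 0) (c := 1) (cn := .up) (n1 := ndF0q0) (n2 := ndF0q0) (pc := pcF1) (cut := cut_A00pm_001_s3) (xt := Ext.none) (P1 := 0) (W1 := 536870912) (P2 := 0) (W2 := 536870912) (P3 := 201326592) (W3 := 134217728)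
    rfl rfl rfl k0_A00pm_001_s3

theorem s_A00pm_001_s3 {κ x : ℝ} (hκ : κ * h0 = ken x) (hx : ((201326592 : ℕ) : ℝ) / S ≤ x)
    (hx' : x ≤ (((201326592 : ℕ) : ℝ) + (134217728 : ℕ)) / S) :
    AltA (VF κ) PP tKF tL pcF [⟨4, 0, 0, 2845415833⟩] 0 0 1 0 0 (sgb true) (sgb false) x :=
  strip_altA (m := 2845415833) false rfl hκ covF00 covF00 hx hx' c_A00pm_001_s3 cutA_nil (noExt_A)

noncomputable def cut_A00pm_011_s1 : Cut := Cut.of [[⟨4, 0, 0, 1449551462⟩], [⟨0, 0, 0, 67108864⟩, ⟨1, 1, 0, 67108864⟩, ⟨2, 1, 0, 67108864⟩]]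

noncomputable def f_A00pm_011_s1 : ℕ → ℕ → ℕ → ℕ → Bool := onCell 536870912 536870912 536870912 536870912 201326592 134217728
    (rowFK 2 true true false .pnn 0 1 1 (qsf 0 536870912 536870912 536870912 1) ndF0q0 ndF0q1 pcF1 cut_A00pm_011_s1 Ext.none)

def k0_A00pm_011_s1 : ∃ t, chk3 f_A00pm_011_s1 t 1 1 1 = true :=
  ⟨(a (l 3) (b (l 3) (a (l 3) (b (l 3) (a (l 3) (b (l 3) (a (l 3) (b (l 3) (l 14))))))))), by decide +kernel⟩

theorem c_A00pm_011_s1 : CertF 0 536870912 536870912 536870912 201326592 134217728 true true false .pnn 0 1 1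
    ndF0q0 ndF0q1 pcF1 cut_A00pm_011_s1 Ext.none :=
  certFK2 (fam := true) (s1 := true) (s2 := false) (a := 0) (b := 1) (c := 1) (cn := .pnn) (n1 := ndF0q0) (n2 := ndF0q1) (pc := pcF1) (cut := cut_A00pm_011_s1) (xt := Ext.none) (P1 := 0) (W1 := 536870912) (P2 := 536870912) (W2 := 536870912) (P3 := 201326592) (W3 := 134217728)
    rfl rfl rfl (fun _ => rfl) k0_A00pm_011_s1

theorem s_A00pm_011_s1 {κ x : ℝ} (hκ : κ * h0 = ken x) (hx : ((201326592 : ℕ) : ℝ) / S ≤ x)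
    (hx' : x ≤ (((201326592 : ℕ) : ℝ) + (134217728 : ℕ)) / S)
    (H : CutA (VF κ) PP tKF tL pcF (Cut.of [[⟨0, 0, 0, 67108864⟩, ⟨1, 1, 0, 67108864⟩, ⟨2, 1, 0, 67108864⟩]]) 0 1 1 0 0 (sgb true) (sgb false) x) :
    AltA (VF κ) PP tKF tL pcF [⟨3, 0, 0, 1449551462⟩] 0 1 1 0 0 (sgb true) (sgb false) x :=
  strip_altA (m := 1449551462) true rfl hκ covF00 covF01 hx hx' c_A00pm_011_s1 H (noExt_A)

noncomputable def cut_A00pm_011_s3 : Cut := Cut.of [[⟨3, 0, 0, 2845415833⟩], [⟨0, 0, 0, 67108864⟩, ⟨1, 1, 0, 67108864⟩, ⟨2, 1, 0, 67108864⟩]]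

noncomputable def f_A00pm_011_s3 : ℕ → ℕ → ℕ → ℕ → Bool := onCell 0 536870912 536870912 536870912 201326592 134217728
    (rowFK 0 true true false .pnn 0 1 1 (qsf 0 536870912 536870912 536870912 1) ndF0q0 ndF0q1 pcF1 cut_A00pm_011_s3 Ext.none)

def k0_A00pm_011_s3 : ∃ t, chk3 f_A00pm_011_s3 t 1 1 1 = true :=
  ⟨(l 6), by decide +kernel⟩

theorem c_A00pm_011_s3 : CertF 0 536870912 536870912 536870912 201326592 134217728 true true false .pnn 0 1 1
    ndF0q0 ndF0q1 pcF1 cut_A00pm_011_s3 Ext.none :=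
  certFK0 (fam := true) (s1 := true) (s2 := false) (a := 0) (b := 1) (c := 1) (cn := .pnn) (n1 := ndF0q0) (n2 := ndF0q1) (pc := pcF1) (cut := cut_A00pm_011_s3) (xt := Ext.none) (P1 := 0) (W1 := 536870912) (P2 := 536870912) (W2 := 536870912) (P3 := 201326592) (W3 := 134217728)
    rfl rfl rfl k0_A00pm_011_s3

theorem s_A00pm_011_s3 {κ x : ℝ} (hκ : κ * h0 = ken x) (hx : ((201326592 : ℕ) : ℝ) / S ≤ x)
    (hx' : x ≤ (((201326592 : ℕ) : ℝ) + (134217728 : ℕ)) / S)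
    (H : CutA (VF κ) PP tKF tL pcF (Cut.of [[⟨0, 0, 0, 67108864⟩, ⟨1, 1, 0, 67108864⟩, ⟨2, 1, 0, 67108864⟩]]) 0 1 1 0 0 (sgb true) (sgb false) x) :
    AltA (VF κ) PP tKF tL pcF [⟨4, 0, 0, 2845415833⟩] 0 1 1 0 0 (sgb true) (sgb false) x :=
  strip_altA (m := 2845415833) false rfl hκ covF00 covF01 hx hx' c_A00pm_011_s3 H (noExt_A)

end Pool.Agent.Strip051.G.I3_16_5_16.Tab.St.C
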