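import Pool.Agent.Strip051.G.I3_16_5_16.StF

/-! # Unit strips 1 (generated) -/

set_option linter.all false
set_option maxRecDepth 100000

namespace Pool.Agent.Strip051.G.I3_16_5_16.Tab.St.C

open Pool.Agent.Strip051.PB Pool.Agent.Strip051.PB.T Pool.Agent.StripNear Pool.Agent.Strip051.LC
open Pool.Agent.Strip051.G.I3_16_5_16.Tab Pool.Agent.Strip051.G.I3_16_5_16.Tab.St

noncomputable def cut_A00pm_012_s1 : Cut := Cut.of [[⟨4, 0, 0, 1449551462⟩], [⟨0, 0, 0, 67108864⟩, ⟨1, 1, 0, 67108864⟩, ⟨2, 1, 0, 67108864⟩], [⟨0, 0, 1, 67108864⟩, ⟨1, 1, 0, 16777216⟩, ⟨2, 1, 1, 67108864⟩]]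

noncomputable def xt_A00pm_012_s1 : Ext := strExt dd true true false .u0 .u0m .u2 .pnp 0 1 2 rfl rfl gf2 vv ndF0q0 ndF0q1

noncomputable def f_A00pm_012_s1 : ℕ → ℕ → ℕ → ℕ → Bool := onCell 1073741824 536870912 536870912 536870912 201326592 134217728
    (rowFK 2 true true false .pnp 0 1 2 (qsf 0 536870912 536870912 536870912 2) ndF0q0 ndF0q1 pcF2 cut_A00pm_012_s1 xt_A00pm_012_s1)

def k0_A00pm_012_s1 : ∃ t, chk3 f_A00pm_012_s1 t 4 2 1 = true :=
  ⟨(b (l 3) (l 3)), by decide +kernel⟩

def k1_A00pm_012_s1 : ∃ t, chk3 f_A00pm_012_s1 t 40 2 1 = true :=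
  ⟨(c (b (l 3) (b (l 3) (b (l 3) (a (l 3) (a (a (l 3) (b (l 3) (b (l 3) (a (b (l 3) (l 543373183)) (b (l 543511423) (a (l 543399807) (l 543417727))))))) (a (b (l 3) (b (l 543724415) (l 544051727))) (b (l 544135039) (b (l 543803263) (l 544663423))))))))) (b (l 3) (b (l 3) (a (l 3) (b (l 3) (a (a (l 3) (b (l 3) (b (l 3) (a (l 539620367) (b (l 539607167) (l 539572607)))))) (b (a (l 3) (c (l 540885887) (l 539566463))) (a (b (l 539599487) (l 539539071)) (b (l 539636095) (l 539468159)))))))))), by decide +kernel⟩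

def k2_A00pm_012_s1 : ∃ t, chk3 f_A00pm_012_s1 t 41 4 1 = true :=
  ⟨(l 2), by decide +kernel⟩

def k3_A00pm_012_s1 : ∃ t, chk3 f_A00pm_012_s1 t 41 10 2 = true :=
  ⟨(b (a (l 3) (b (l 2) (a (a (l 3) (a (l 543621247) (l 543662719))) (b (l 2) (a (a (a (l 543784831) (l 543874943)) (a (l 543938175) (l 543984511))) (b (l 2) (l 16780232))))))) (a (a (l 3) (a (l 3) (b (l 3) (a (b (l 3) (l 544396671)) (b (a (l 3) (l 544283775)) (l 544330623)))))) (a (a (b (a (a (l 3) (l 544032127)) (l 543945087)) (a (c (b (a (l 545140095) (l 545063295)) (l 545176191)) (b (a (l 543414655) (l 543385215)) (l 543394943))) (c (b (l 544939135) (l 545049471)) (b (b (l 543330175) (l 543344511)) (l 543352191))))) (b (a (l 543844991) (l 543781247)) (a (b (c (l 544776831) (l 543294591)) (l 544086143)) (b (a (l 543949183) (l 543912831)) (l 544267135))))) (b (b (a (a (a (l 543766143) (l 543812735)) (a (l 543858047) (l 543898751))) (a (l 16782928) (l 16787536))) (a (a (a (l 543812223) (l 543825791)) (a (l 16782064) (l 16785664))) (a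 (l 16787128) (l 16789104)))) (b (a (a (a (l 543887743) (l 543879807)) (l 16786976)) (l 16784640)) (a (a (a (l 543945599) (l 543925631)) (l 16788960)) (l 16791824))))))), by decide +kernel⟩

def k4_A00pm_012_s1 : ∃ t, chk3 f_A00pm_012_s1 t 41 10 3 = true :=
  ⟨(b (a (l 3) (b (l 2) (a (a (l 3) (a (l 542005631) (a (l 542216831) (l 542360703)))) (b (l 2) (b (a (a (a (c (l 542806143) (l 542114431)) (l 2)) (l 2)) (l 2)) (a (a (a (c (l 542721407) (l 542044799)) (l 542481023)) (a (l 542537087) (l 542574975))) (a (a (l 2248157831) (l 16783456)) (l 16784648)))))))) (a (a (l 3) (a (l 3) (b (l 3) (a (b (l 3) (l 541011583)) (b (b (l 3) (l 541126527)) (l 541050239)))))) (a (a (b (a (a (l 3) (l 541343103)) (a (l 541389951) (l 541446015))) (b (b (a (a (c (l 541887615) (l 540689023)) (c (l 541899647) (l 540784767))) (a (l 541272447) (l 541317759))) (a (a (l 541157759) (c (l 541867647) (l 540704127))) (a (l 541217407) (l 541259391)))) (a (a (l 541081983) (l 541107071)) (a (l 541135743) (l 541172607))))) (b (a (a (l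 541577855) (l 541717631)) (a (l 541862015) (l 542012543))) (a (b (a (l 541342079) (l 541428095)) (a (l 541215871) (l 541267071))) (b (a (l 541569919) (l 541718655)) (a (l 541354367) (l 541497215)))))) (b (b (b (a (a (a (l 542302847) (l 542408319)) (a (l 542475903) (l 542523519))) (a (a (l 16783216) (l 16784008)) (l 16785208))) (a (a (a (l 542214015) (l 542327935)) (a (l 16782168) (l 16782976))) (b (l 16782208) (l 16782496)))) (c (a (a (a (l 542375551) (l 542515327)) (a (l 16783368) (l 16784240))) (l 16783760)) (a (a (a (l 541762431) (l 541869695)) (a (l 541948799) (l 542009215))) (b (l 16785008) (l 16785552))))) (b (a (a (a (l 541873279) (l 542003327)) (b (l 16784272) (l 16784832))) (b (a (l 16785896) (l 16787512)) (l 16782032))) (a (a (a (l 541647743) (l 541779583)) (b (l 16785376) (l 16785920))) (b (l 16787824) (l 16788368)))))))), by decide +kernel⟩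

def k5_A00pm_012_s1 : ∃ t, chk3 f_A00pm_012_s1 t 164 11 1 = true :=
  ⟨(b (b (l 3) (c (b (a (l 3) (a (c (l 545814911) (c (l 544035711) (l 542933375))) (l 544562559))) (b (a (l 3) (a (c (l 545813119) (l 543425407)) (c (l 545741439) (l 543403391)))) (a (c (l 545834511) (a (l 3) (l 543385983))) (a (c (l 545797759) (l 543381631)) (c (l 545735295) (l 543365503)))))) (a (b (l 3) (a (l 3) (b (l 3) (a (l 540257919) (l 540269439))))) (b (a (a (l 3) (c (l 541416831) (l 539679359))) (l 540530303)) (c (a (b (l 541318927) (l 541249807)) (b (l 541340287) (l 541273983))) (a (b (l 539572095) (l 539519103)) (b (l 539666303) (l 539607679)))))))) (a (c (c (b (l 545453951) (l 544979071)) (b (l 543065727) (l 542631551))) (b (c (l 540949375) (l 539479167)) (l 540399231))) (c (b (b (a (c (l 545655423) (l 543236367)) (c (l 545618047) (l 543234943))) (a (l 544171647) (l 544182143))) (a (b (l 543943039) (l 543720319)) (b (l 543962239) (l 543743615)))) (b (a (b (a (l 540133759) (l 540156431)) (l 539947135)) (b (a (l 540177535)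 (l 540199551)) (l 539986303))) (a (l 539641727) (l 540418687)))))), by decide +kernel⟩

def k6_A00pm_012_s1 : ∃ t, chk3 f_A00pm_012_s1 t 165 11 1 = true :=
  ⟨(b (b (b (b (a (l 3) (a (c (l 544408703) (l 540929663)) (c (l 544347007) (l 540969599)))) (a (a (l 3) (c (l 544473215) (l 540833919))) (a (c (a (l 544428671) (l 544398975)) (l 540872319)) (c (l 544355199) (l 540913279))))) (c (a (a (l 544527999) (l 544472959)) (a (l 544149375) (a (l 544376191) (l 544348799)))) (a (a (l 540703871) (l 540741759)) (a (l 540781951) (a (l 540813439) (l 540835455)))))) (a (b (a (c (l 544512639) (l 540569471)) (c (l 544462975) (l 540610175))) (a (b (c (l 544493439) (l 540461183)) (c (l 544474495) (l 540383871))) (c (c (l 545597823) (l 543345535)) (b (l 540503935) (l 540428159))))) (b (a (c (l 544413055) (l 540652415)) (c (l 544363391) (l 540696959))) (a (c (c (l 545526143) (l 543326335)) (c (l 541381247) (l 539922047))) (c (c (l 545453695) (l 543308159)) (b (l 540594559) (l 540522367))))))) (a (c (b (a (b (c (l 545573503)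 (l 543230079)) (l 543908223)) (b (l 544339215) (l 544162687))) (a (b (l 543968383) (l 543756927)) (b (l 543965711) (l 543762703)))) (b (a (b (c (l 541159295) (l 539583871)) (l 540030335)) (b (c (l 541190015) (l 539673471)) (l 540076927))) (a (b (l 539826815) (l 539620735)) (b (l 540141951) (l 539667839))))) (b (c (b (a (l 544307215) (b (l 16784568) (l 16791192))) (a (l 543338367) (l 544121103))) (a (b (c (l 541222015) (l 539768191)) (l 540126079)) (b (b (l 540434303) (l 16783776)) (l 540177423)))) (c (a (b (l 543420943) (b (l 16796216) (l 16797584))) (b (b (l 16795296) (l 16796664)) (b (l 16798016) (l 16799376)))) (a (b (l 539922703) (c (l 16787960) (l 16784576))) (b (l 16788072) (l 16788880))))))), by decide +kernel⟩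

def k7_A00pm_012_s1 : ∃ t, chk3 f_A00pm_012_s1 t 83 22 1 = true :=
  ⟨(c (b (a (a (a (b (a (l 544306047) (l 544274559)) (l 544307583)) (c (l 545172863) (a (l 543352703) (l 543335039)))) (a (c (l 545049983) (a (l 543317375) (l 543300735))) (a (l 544096895) (l 544058239)))) (b (a (a (a (l 16788824) (l 16789736)) (l 16791112)) (l 16793944)) (a (a (a (l 16791200) (l 16792096)) (l 16793464)) (l 16796264)))) (a (a (a (b (l 544313727) (c (l 545381247) (l 543291775))) (c (l 545282175) (l 543293055))) (a (c (l 545185407) (l 543269759)) (a (l 544154495) (l 544122751)))) (c (a (a (b (l 16796224) (l 16799384)) (l 16799760)) (a (l 16801704) (l 16803680))) (a (a (b (l 16787008) (l 16794528)) (a (l 543232383) (l 16790312))) (a (l 16791616) (l 16793368)))))) (b (a (a (a (b (a (l 540974207) (l 540997759)) (a (l 540857983) (l 540881791))) (a (b (l 541025663) (l 540908927)) (b (l 541058687) (l 540940159)))) (a (c (a (l 541745535) (l 541769599)) (a (l 540673919) (l 540769407))) (a (c (l 541799039) (l 540872063)) (c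 (l 541835135) (l 540982399))))) (b (a (a (a (l 541439359) (l 541567103)) (l 16786744)) (a (l 16788376) (l 16790000))) (a (a (a (l 16785752) (l 541367423)) (l 16787832)) (l 16790280)))) (a (a (b (a (l 540743807) (l 540798079)) (a (c (l 541439103) (l 540118399)) (c (l 541472383) (l 540233599)))) (a (a (l 540780927) (l 540817791)) (a (l 540859007) (b (l 16786088) (l 16787232))))) (b (a (a (a (l 16786832) (l 16787664)) (l 16788912)) (l 16791352)) (a (a (a (l 16787904) (l 16788736)) (l 16789984)) (l 16792408)))))), by decide +kernel⟩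

def k8_A00pm_012_s1 : ∃ t, chk3 f_A00pm_012_s1 t 83 23 2 = true :=
  ⟨(a (a (b (a (b (b (l 16791704) (l 16793064)) (b (l 16794416) (l 16795768))) (b (c (l 16796744) (l 16791880)) (l 16796928))) (a (b (l 16797800) (l 16800488)) (b (l 16799592) (l 16802248)))) (b (a (b (c (l 16798760) (l 16793520)) (l 16798720)) (b (c (l 16800712) (l 16795144)) (l 16800488))) (a (b (l 16801360) (l 16803992)) (b (l 16803096) (l 16805712))))) (b (c (b (c (b (c (b (a (a (l 16803608) (l 16805600)) (l 16808656)) (c (a (a (l 16804896) (l 16806904)) (l 16809976)) (a (a (l 16804120) (l 16806096)) (l 16809120)))) (b (a (a (l 16802136) (l 16804072)) (l 16807032)) (a (a (l 16802968) (l 16804904)) (l 16807864)))) (a (a (l 16805008) (l 16806976)) (l 16809976))) (b (c (a (a (l 16801088) (l 16802960)) (l 16805840)) (a (a (l 16799656) (l 16801472)) (l 16804256))) (a (a (l 16801816) (l 16803664)) (l 16806488)))) (a (a (l 16805736) (l 16807616)) (l 16810504))) (b (c (b (a (a (l 16797576) (l 16799304)) (l 16801968)) (a (a (l 16798784)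 (l 16800512)) (l 16803160))) (a (a (l 16795424) (l 16797056)) (l 16799536))) (a (a (l 16798928) (l 16800568)) (l 16803096)))) (c (b (a (a (l 16808840) (l 16810696)) (l 16813552)) (a (a (l 16811976) (l 16813824)) (l 16816648))) (b (a (a (l 16801008) (l 16802616)) (l 16805096)) (a (a (l 16803080) (l 16804672)) (l 16807104)))))), by decide +kernel⟩

def k9_A00pm_012_s1 : ∃ t, chk3 f_A00pm_012_s1 t 83 23 3 = true :=
  ⟨(a (a (b (a (b (b (l 540486671) (l 16784808)) (b (l 16785296) (l 16785760))) (b (c (l 16787568) (l 16784672)) (b (l 16786344) (l 16786800)))) (a (b (l 16786424) (l 16787200)) (b (l 16787440) (l 16788192)))) (b (a (b (c (l 16788864) (l 16785880)) (l 16787680)) (b (b (l 16787720) (l 16788200)) (l 16788848))) (a (b (l 16788504) (l 16789232)) (b (l 16789648) (l 16790344))))) (b (b (c (a (a (l 16791592) (l 16793064)) (l 16795296)) (a (a (a (l 16788320) (l 16789104)) (l 16790248)) (l 16792456))) (a (a (c (l 16792856) (l 16789504)) (l 16791680)) (l 16794056))) (b (a (a (a (l 16790552) (l 16791176))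 (l 16792376)) (l 16794680)) (a (a (b (l 16791368) (l 16791768)) (l 16793120)) (l 16795344))))), by decide +kernel⟩

def k10_A00pm_012_s1 : ∃ t, chk3 f_A00pm_012_s1 t 21 4 1 = true :=
  ⟨(l 2), by decide +kernel⟩

def k11_A00pm_012_s1 : ∃ t, chk3 f_A00pm_012_s1 t 21 10 1 = true :=
  ⟨(a (b (b (l 2) (a (b (l 2) (b (l 2) (a (c (l 16780960) (c (l 16789352) (l 16782664))) (l 2)))) (l 2))) (a (c (b (a (b (l 16787272) (l 16788824)) (c (l 16802264) (l 16800216))) (a (b (l 16785320) (l 16797696)) (b (l 16803792) (l 16805656)))) (b (a (c (b (l 16785032) (l 16786280)) (b (b (l 16783184) (l 16783720)) (b (l 16789504) (l 16790056)))) (b (c (l 16797104) (l 16794704)) (c (l 16798392) (l 16795808)))) (a (b (b (l 16786304) (l 16786888)) (b (l 16787448) (l 16788000))) (b (c (l 16799704) (l 16796928)) (l 16794232))))) (b (a (c (l 16798736) (b (l 16802360) (l 16803584))) (b (l 2) (l 16803808))) (c (b (l 16815776) (l 16817680)) (b (c (l 16810104) (l 16806056)) (c (l 16811416) (l 16807152))))))) (c (b (l 2) (a (b (l 16807816)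 (l 16832616)) (b (l 2) (l 16848080)))) (b (l 2) (a (b (b (l 2) (l 16819888)) (b (l 16821240) (l 16822504))) (b (l 2) (c (l 16838864) (l 16831408))))))), by decide +kernel⟩

def k12_A00pm_012_s1 : ∃ t, chk3 f_A00pm_012_s1 t 21 11 1 = true :=
  ⟨(a (c (b (a (a (b (b (l 16799752) (l 16802008)) (b (l 16804464) (l 16807104))) (b (b (l 16807664) (l 16809856)) (b (l 16812256) (l 16814856)))) (b (b (l 16819680) (l 16821840)) (b (l 16824168) (l 16826720)))) (a (b (b (c (l 16817448) (l 16809944)) (c (l 16820456) (l 16811888))) (b (a (l 16814704) (l 16822272)) (b (l 16820232) (l 16821432)))) (b (b (l 16829320) (l 16831736)) (b (l 16812992) (l 16815160))))) (a (b (b (a (b (c (l 16795136) (l 16792960)) (l 16789880)) (b (l 16795320) (l 16801608))) (a (b (l 16790944) (l 16791976)) (b (l 16802640) (l 16803648)))) (b (b (a (l 16798136) (l 16804528)) (a (l 16798784) (l 16805120))) (b (a (l 16799280) (l 16805528)) (a (l 16799792) (l 16805824))))) (b (b (b (c (l 16812616) (l 16808160)) (c (l 16813744) (l 16809112)))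 (b (l 16801928) (l 16802880))) (b (b (l 16803712) (c (l 16817392) (l 16812240))) (b (c (l 16818024) (l 16812552)) (a (l 16811984) (l 16818288))))))) (c (a (b (b (l 16836784) (b (l 16840224) (l 16842744))) (b (b (l 16845320) (l 16847720)) (b (l 16849944) (l 16851984)))) (b (b (l 16852680) (l 16857560)) (b (l 16841664) (b (l 16866032) (l 16868104))))) (b (b (a (b (l 16823672) (l 16824712)) (c (l 16841728) (l 16833656))) (a (b (l 16825680) (l 16826560)) (c (l 16843960) (l 16835392)))) (b (a (b (l 16827328) (l 16827824)) (b (l 16840760) (l 16841192))) (a (b (l 16828040) (l 16827936)) (b (l 16841328) (l 16841184))))))), by decide +kernel⟩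

def k13_A00pm_012_s1 : ∃ t, chk3 f_A00pm_012_s1 t 11 2 1 = true :=
  ⟨(b (l 2) (b (b (l 2) (b (l 2) (b (l 2) (a (a (a (l 16858440) (l 2)) (l 2)) (l 2))))) (c (a (b (a (b (l 16833648) (l 16860152)) (b (l 16905168) (l 16911016))) (a (b (b (l 16885200) (l 16887728)) (b (l 16890008) (l 16850216))) (b (l 16917232) (l 16890920)))) (b (b (l 2) (l 16910760)) (a (b (l 16945872) (l 16951944)) (b (l 16972568) (l 16979144))))) (a (a (a (b (b (l 16851344) (c (l 16858608) (l 16848248))) (b (b (l 16854512) (l 16854872)) (b (l 16854960) (l 16854744)))) (b (b (l 16865080) (l 16867440)) (b (l 16847824) (b (l 16868928) (l 16868656))))) (b (b (l 16865312) (c (l 16894880) (l 16881312))) (b (c (l 16896992) (l 16861720)) (b (l 16890544) (l 16890248))))) (b (a (b (l 2) (l 16917768)) (l 2)) (a (b (l 16876816) (b (l 16919264) (l 16919128))) (b (l 16945872) (l 16946664)))))))), by decide +kernel⟩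

def k14_A00pm_012_s1 : ∃ t, chk3 f_A00pm_012_s1 t 4 12 1 = true :=
  ⟨(a (l 3) (a (l 3) (a (l 3) (b (l 3) (a (a (l 3) (b (l 3) (b (l 3) (b (l 3) (l 539110415))))) (a (b (l 3) (b (a (l 3) (c (l 541409919) (l 538583935))) (a (c (l 541011839) (l 538431871)) (l 538690831)))) (b (c (l 541929087) (l 538841983)) (c (b (l 541549839) (l 541003135)) (b (l 538933887) (l 538539903)))))))))), by decide +kernel⟩

def k15_A00pm_012_s1 : ∃ t, chk3 f_A00pm_012_s1 t 4 13 1 = true :=
  ⟨(a (l 3) (a (a (l 3) (b (l 3) (a (l 3) (a (l 3) (b (l 3) (b (l 3) (c (l 537213823) (l 536731263)))))))) (a (b (b (l 3) (a (l 3) (b (a (l 3) (c (l 539032703) (l 537791103))) (a (c (l 538081807) (l 537541647)) (c (l 538490239) (l 537668735)))))) (c (a (b (a (l 538163071) (l 537722239)) (a (b (l 537707279) (c (l 537419135) (l 537202559))) (b (l 537534335) (l 537410175)))) (b (a (l 538524943) (a (l 537924991) (l 538225535))) (a (l 538121743) (b (l 537760127) (l 537636991))))) (a (b (a (l 537118847) (l 537214079)) (a (b (l 536944911) (l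 536964623)) (b (l 537040511) (l 536926335)))) (b (a (a (l 537319295) (l 537398143)) (c (l 537612415) (l 537353343))) (a (b (l 537180543) (l 537066111)) (b (l 537320063) (l 537206143))))))) (b (a (c (a (b (l 540038271) (l 539129215)) (b (l 540311935) (l 539464575))) (b (a (l 538084479) (l 538183039)) (a (l 537841023) (l 537944959)))) (a (b (c (a (l 540504959) (l 540628095)) (a (l 538253439) (l 538296703))) (c (l 539508239) (a (l 538019967) (l 538066815)))) (b (a (c (l 540746623) (l 538340223)) (b (l 538640911) (l 538522639))) (c (l 540067087) (l 538136079))))) (c (a (b (a (b (l 538307711) (l 537968767)) (l 538417535)) (a (l 538327567) (l 537875215))) (a (b (l 538803839) (l 538220415)) (b (l 538894719) (l 538043263)))) (a (b (a (b (l 537665919) (l 537555839)) (b (l 537773183) (l 537664895))) (a (b (l 537443711) (l 537331839)) (b (l 537556351) (l 537447551)))) (b (a (c (l 537920639) (l 537701503)) (c (l 538012031) (l 537804159))) (a (c (l 537709951) (l 537492607)) (b (l 537762175) (l 16783552)))))))))),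 by decide +kernel⟩

def k16_A00pm_012_s1 : ∃ t, chk3 f_A00pm_012_s1 t 8 14 1 = true :=
  ⟨(b (l 3) (a (l 3) (a (l 3) (b (l 3) (a (b (l 3) (b (l 3) (a (l 3) (c (a (c (l 535323007) (l 535092863)) (a (l 535503231) (c (l 535371535) (l 535136271)))) (a (c (l 534860159) (l 534625151)) (c (l 534889999) (l 534920319))))))) (c (a (a (b (l 3) (b (a (c (l 535698703) (l 535189263)) (l 535590415)) (c (a (b (a (l 535398159) (l 535404815)) (l 535388175)) (b (l 535414287) (l 535400463))) (a (b (l 535162895) (l 535150607)) (b (l 535174671) (l 535161615)))))) (b (b (l 3) (c (l 535502463) (l 535254399))) (b (c (l 535460223) (l 535216255)) (b (l 535579775) (a (l 535292943) (l 535303295)))))) (a (b (b (l 3) (l 535671823)) (b (l 535631631) (l 535595023))) (b (c (l 535611775) (l 535366527)) (b (l 535430783) (l 535393407))))) (a (b (a (l 3) (b (l 3) (l 535148815))) (a (b (c (l 535219215) (l 534706191)) (c (b (c (l 534987791) (l 534866959)) (l 534915599)) (b (l 534685199) (l 534673935)))) (b (l 535116159) (b (l 534825599)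 (a (l 534809871) (l 534818431)))))) (b (a (c (l 535310607) (l 534788479)) (c (l 535118207) (l 534867071))) (a (c (l 535241999) (l 534726783)) (b (l 534944639) (l 534913919))))))))))), by decide +kernel⟩

def k17_A00pm_012_s1 : ∃ t, chk3 f_A00pm_012_s1 t 36 28 1 = true :=
  ⟨(b (l 3) (a (l 3) (b (a (l 3) (a (l 3) (c (l 536442239) (l 535972223)))) (a (a (l 3) (c (l 536211839) (l 535739007))) (c (c (l 536402815) (l 536189055)) (c (l 535958655) (l 535711615))))))), by decide +kernel⟩

def k18_A00pm_012_s1 : ∃ t, chk3 f_A00pm_012_s1 t 36 29 1 = true :=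
  ⟨(b (a (a (b (l 3) (c (a (c (l 535780991) (l 535537023)) (c (l 535853439) (l 535617919))) (a (c (l 535288191) (l 535034239)) (c (l 535374975) (l 535124863))))) (c (b (a (c (l 536023823) (l 535789071)) (l 535976975)) (a (c (l 535922047) (l 535693839)) (c (l 535986815) (l 535765519)))) (c (b (a (b (l 3) (l 535524223)) (l 535622527)) (a (l 535456271) (l 535533071))) (b (a (b (l 3) (l 535272319)) (l 535372671)) (a (l 535209743) (l 535289359)))))) (c (a (b (c (l 536178815) (l 535960447)) (c (b (l 536103295) (l 536053375)) (a (l 535833471) (l 535897983)))) (b (c (l 536292479) (l 536084607)) (c (l 536188543) (l 535986559)))) (a (b (a (l 535574031) (l 535644943)) (c (a (l 535605519) (l 535673983)) (b (l 535421311) (l 535380495)))) (b (c (l 535860351) (l 535619455)) (c (l 535768335) (a (l 535502975) (l 535566719))))))) (a (c (a (b (a (c (l 535687551) (l 535451007)) (l 535645711)) (a (b (l 535510143) (l 535471231)) (b (l 535584639) (l 535545215)))) (b (a (l 535717135) (l 535784975)) (a (l 535632655) (l 535698959))))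 (a (b (a (c (l 535209087) (l 534961791)) (c (l 535294079) (l 535050623))) (a (b (l 535036287) (l 535003775)) (b (l 535122047) (l 535088511)))) (b (a (c (l 535374207) (l 535133823)) (c (l 535449727) (l 535212159))) (a (b (l 535202687) (l 535168383)) (c (l 535372671) (l 535140991)))))) (c (a (b (c (l 535978367) (l 535772687)) (c (l 535887999) (l 535688207))) (b (c (l 536090751) (l 535894399)) (c (l 535999359) (l 535808383)))) (a (b (c (a (l 535521151) (l 535588735)) (a (l 535286143) (l 535356031))) (c (a (l 535442815) (l 535509631)) (a (l 535213439) (l 535282047)))) (b (c (l 535681551) (a (l 535422335) (l 535485311))) (c (l 535600911) (a (l 535347327) (l 535409535)))))))), by decide +kernel⟩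

def k19_A00pm_012_s1 : ∃ t, chk3 f_A00pm_012_s1 t 37 28 1 = true :=
  ⟨(a (c (b (b (l 3) (a (a (l 3) (l 536663055)) (l 536751999))) (a (b (a (l 536497023) (l 536549391)) (l 536408335)) (b (b (l 536667663) (l 536604175)) (c (l 536608383) (l 536409727))))) (b (b (l 3) (a (a (l 3) (l 536195087)) (l 536421247))) (a (b (a (l 536033407) (a (l 536078207) (l 536107279))) (a (l 535932287) (l 535990399))) (b (c (l 536303887) (l 536055823)) (c (l 536190079) (l 535949839)))))) (c (b (a (b (l 536985215) (l 536867711)) (l 537297935)) (a (b (l 536750863) (l 536623631)) (b (l 536856703) (l 536730239)))) (b (a (b (l 536512127) (l 536404095)) (b (l 536619647) (l 536511103))) (a (b (c (l 536418943) (l 536170111)) (c (l 536303487) (l 536062591))) (b (l 536404239) (c (l 536410751) (l 536168575))))))), by decide +kernel⟩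

def k20_A00pm_012_s1 : ∃ t, chk3 f_A00pm_012_s1 t 37 29 1 = true :=
  ⟨(a (c (b (a (b (l 536300815) (c (l 536293247) (l 536099455))) (b (l 536403983) (l 536301583))) (b (a (c (l 536195199) (l 536006527)) (l 536205327)) (a (b (l 536038527) (l 535995775)) (b (l 536139391) (l 16771336))))) (b (a (b (c (l 535979903) (l 535742591)) (c (l 535886463) (a (l 535627391) (l 535685503)))) (a (b (l 535949951) (l 535858703)) (b (l 536005391) (l 535912975)))) (a (b (c (l 535798911) (a (l 535545215) (l 535602815))) (c (l 535716991) (a (l 535468671) (l 535525503)))) (b (a (l 535638799) (l 535826447)) (c (l 535824255) (c (l 535661183) (l 535546127))))))) (b (c (a (b (l 536508287) (l 536402703)) (b (l 536610175) (l 536500607))) (a (b (c (l 536198527) (l 535964031)) (c (l 536101247) (l 535872783))) (b (c (l 536301695) (l 536066431)) (c (l 536201343) (l 535972623))))) (c (b (a (l 536304143) (b (l 16773848) (l 16773152))) (a (b (l 16772208) (l 16771392)) (b (l 16772408) (l 16771608)))) (a (b (c (l 536010367) (a (l 535763327)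 (l 535813759))) (c (l 535926031) (b (l 535728255) (l 16767056)))) (a (b (l 535708943) (c (l 16769392) (l 535781247))) (b (l 536025103) (b (l 16768880) (l 16767856)))))))), by decide +kernel⟩

def k21_A00pm_012_s1 : ∃ t, chk3 f_A00pm_012_s1 t 19 28 1 = true :=
  ⟨(a (a (c (b (a (b (l 537193487) (l 537074303)) (b (l 537825919) (l 537170559))) (a (c (l 536988287) (l 536789519)) (b (l 537053311) (l 536929919)))) (b (a (b (l 536718607) (l 536610063)) (b (l 536815631) (l 536707087))) (a (b (l 536502799) (c (l 536511359) (l 536267391))) (b (l 536600591) (c (l 536610175) (l 536364927)))))) (c (b (a (l 537341455) (l 537454095)) (a (b (l 537167487) (l 537045119)) (l 537216527))) (b (a (b (l 536954239) (l 536845183)) (b (l 537094271) (l 536984959))) (a (b (l 536737919) (l 536629519)) (b (l 536877439) (l 536768127)))))) (c (a (b (a (l 537554703) (l 537646207)) (a (l 537320975) (b (l 16782808) (l 16782320)))) (a (b (l 537733759) (b (l 16784376) (l 16783904))) (b (l 537818495) (b (l 16786104) (l 16785264)))))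 (b (a (a (b (l 537221759) (l 537113215)) (c (l 537388927) (l 537167231))) (a (b (l 16781872) (l 16781544)) (b (l 16783432) (l 16783128)))) (b (a (a (l 537006207) (l 537127951)) (a (l 16781016) (l 16782632))) (a (a (l 536898575) (c (l 16779816) (l 16777648))) (c (a (l 16781344) (l 16782680)) (a (l 16779048) (b (l 16780856) (l 16780064))))))))), by decide +kernel⟩

def k22_A00pm_012_s1 : ∃ t, chk3 f_A00pm_012_s1 t 38 29 1 = true :=
  ⟨(a (c (b (a (b (l 536708735) (l 536595983)) (b (l 536806015) (l 536689935))) (a (b (b (l 16774200) (l 16773512)) (b (l 16772760) (a (l 16771736) (b (l 16772192) (l 16771552))))) (b (b (l 16774728) (l 16774032)) (b (a (l 16773040) (c (l 16774056) (l 16772184))) (a (b (l 16772224) (l 16770920)) (l 16770968)))))) (b (a (b (c (l 536399999) (l 536163199)) (c (l 536296831) (l 536067087))) (b (c (l 536498047) (l 536260479)) (c (l 536392319) (l 536162319)))) (c (a (b (l 536201343) (b (l 16769936) (a (l 16768832) (l 16768712)))) (b (l 536295183) (b (a (l 16770016) (l 16770016))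 (a (l 16768432) (l 16767608))))) (b (a (b (l 16769736) (l 16768768)) (b (l 16769760) (l 16768800))) (a (b (l 16767736) (b (l 16766840) (a (l 16766304) (l 16766024)))) (b (a (l 16767648) (b (l 16768064) (l 16767280))) (a (b (l 16766592) (l 16765112)) (l 16765008)))))))) (c (b (b (a (l 536921471) (l 16778816)) (a (l 536802831) (b (l 16778024) (l 16777432)))) (b (a (b (l 16775648) (c (l 16775432) (l 16773672))) (b (c (l 16777192) (l 16775520)) (a (l 16775072) (l 16774488)))) (a (b (a (b (l 16773840) (l 16772568)) (l 16772720)) (l 16770064)) (c (l 16771312) (l 16769208))))) (b (a (b (b (l 16774616) (l 16773952)) (c (l 16773904) (l 536300815))) (b (c (l 16776264) (l 16774176)) (b (l 16774232) (l 16773480)))) (b (a (b (l 16771632) (a (l 16770456) (b (l 16771176) (l 16770440)))) (a (b (l 16772320) (b (l 16771392) (l 16769944))) (b (c (l 16773792) (l 16771320)) (l 16770048)))) (b (a (a (b (l 16769496) (l 16768080)) (l 16768200)) (c (l 16768400) (l 16765696))) (c (a (l 16766592) (l 16765120)) (a (l 16763896)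 (l 16762280)))))))), by decide +kernel⟩

def k23_A00pm_012_s1 : ∃ t, chk3 f_A00pm_012_s1 t 39 29 1 = true :=
  ⟨(b (a (c (a (b (l 16780104) (b (l 16779328) (l 16778296))) (b (l 16781552) (b (l 16780256) (l 16778408)))) (a (b (c (l 16777472) (l 16775248)) (b (l 16775424) (c (l 16775416) (a (l 16772976) (l 16773264))))) (b (c (l 16778864) (l 16776504)) (b (c (l 16777400) (a (l 16774936) (l 16775200))) (c (l 16775328) (a (l 16773096) (l 16772168))))))) (c (b (a (c (l 16783112) (l 16781656)) (c (l 16783656) (l 16782072))) (a (l 16778552) (l 16777008))) (b (a (b (l 16779400) (c (l 16779376) (a (l 16776928) (l 16777032)))) (b (a (l 16780224) (l 16779960)) (l 16777064))) (a (c (l 16775328) (b (l 16774256) (l 16770768))) (c (l 16773464) (l 16770496)))))) (c (a (b (a (b (c (l 16777472) (l 16775720)) (l 16773544)) (l 16773760)) (b (a (l 16770496) (l 16769096)) (l 16769272))) (b (a (l 16772352) (l 16770840)) (b (l 16766800) (l 16763600)))) (a (b (a (b (a (c (l 16773840) (l 16771288)) (l 16771840)) (l 16768872))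 (b (l 16770600) (l 16767184))) (a (b (l 16765480) (l 16762056)) (c (l 16763512) (l 16760384)))) (b (c (b (l 16769296) (l 16765880)) (a (l 16765520) (l 16763448))) (a (c (l 16761704) (l 16758368)) (l 16758040)))))), by decide +kernel⟩

def k24_A00pm_012_s1 : ∃ t, chk3 f_A00pm_012_s1 t 16 30 1 = true :=
  ⟨(b (l 3) (a (l 3) (a (l 3) (b (l 3) (a (l 3) (b (l 3) (a (b (l 3) (b (l 3) (l 14))) (b (c (c (a (c (b (l 3) (l 534429823)) (l 534354303)) (c (b (l 534473343) (l 534467455)) (l 534391167))) (a (l 534237055) (l 534272383))) (c (l 534091903) (l 533928319))) (c (c (a (c (l 534554495) (l 534344063)) (l 534687871)) (a (l 534228351) (l 534263679))) (l 534273039)))))))))), by decide +kernel⟩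

def k25_A00pm_012_s1 : ∃ t, chk3 f_A00pm_012_s1 t 34 60 1 = true :=
  ⟨(a (l 3) (c (b (l 3) (a (a (l 3) (b (l 3) (a (b (l 3) (l 534835327)) (b (l 534877055) (l 534863743))))) (b (a (a (l 3) (c (l 535052159) (l 534846847))) (c (l 535224447) (l 535149951))) (a (a (c (l 534995583) (l 534795903)) (l 535123839)) (a (l 535216255) (l 534972031)))))) (b (l 3) (a (a (l 3) (b (l 3) (c (b (l 534561663) (l 534550655)) (l 534618639)))) (a (a (b (l 3) (l 534757135)) (b (l 534801023) (l 534779007))) (b (c (l 534669439) (l 534453887)) (c (l 534645631) (l 534432895)))))))), by decide +kernel⟩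

def k26_A00pm_012_s1 : ∃ t, chk3 f_A00pm_012_s1 t 35 60 1 = true :=
  ⟨(a (c (b (a (a (b (l 3) (c (l 535170175) (l 534954111))) (b (c (l 535247743) (l 535024255)) (c (l 535216767) (l 534996095)))) (a (b (c (l 535291519) (l 535063679)) (c (l 535260031) (l 535034751))) (b (l 535551871) (l 535185535)))) (a (b (a (a (l 535023743) (l 535046527)) (c (l 535186047) (l 534967935))) (a (c (l 535109759) (l 534899327)) (l 535182207))) (b (a (l 535386239) (l 535155071)) (a (l 535087999) (l 535124863))))) (b (a (a (b (l 3) (c (l 534734719) (l 534512511))) (b (c (l 534798463) (l 534569599)) (c (l 534772607) (l 534546303)))) (a (b (l 534985855) (l 534960767)) (b (l 534747519) (l 534722175)))) (a (a (b (c (l 534709887) (l 534490239)) (c (l 534685567) (l 534468479))) (b (l 534904191) (l 534880639))) (a (b (l 534667903) (l 534643839)) (b (l 534697343) (l 534673023)))))) (c (b (a (a (b (a (l 535244047) (l 535527695)) (a (l 535213183) (l 535229055))) (b (a (l 535272207) (l 535283727)) (b (l 535257103) (l 535242511))))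 (a (b (c (l 535420943) (l 535180047)) (l 535274767)) (b (l 535365135) (l 535340303)))) (a (a (b (l 535189519) (l 535158655)) (b (l 535218703) (l 535188607))) (a (b (l 535246607) (l 535217423)) (c (l 535409167) (l 535179535))))) (a (b (a (a (a (l 535019023) (l 535293967)) (b (l 534781455) (l 534756223))) (b (c (l 534916367) (l 534674191)) (l 535040015))) (a (b (l 534724111) (l 534968191)) (b (l 534747151) (l 534723199)))) (b (a (b (b (l 534822415) (l 534811663)) (l 534793743)) (b (l 534889231) (l 534867215))) (a (b (l 534770447) (l 534746895)) (c (l 534946319) (l 534709775))))))), by decide +kernel⟩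

def k27_A00pm_012_s1 : ∃ t, chk3 f_A00pm_012_s1 t 68 122 1 = true :=
  ⟨(c (a (b (l 3) (a (l 3) (a (l 3) (a (l 3) (a (l 3) (b (l 3) (l 534769279))))))) (b (b (l 3) (a (l 3) (a (b (l 3) (c (a (l 3) (l 534780943)) (l 534590991))) (a (b (l 3) (c (l 534797839) (l 534615055))) (c (l 534884623) (l 534633231)))))) (a (a (b (l 3) (c (l 534676095) (l 534502783))) (b (c (l 534860159) (l 534548351)) (c (l 534712447) (l 534537087)))) (a (b (c (l 534761087) (l 534581631)) (l 534927743)) (b (c (b (l 534798863) (l 534791439)) (b (l 534616591) (l 534610703))) (c (l 534779919) (l 534600975))))))) (a (b (l 3) (b (l 3) (a (l 3) (c (l 534270847) (l 534092159))))) (b (a (l 3) (b (l 3) (a (b (l 3) (c (l 534405391) (l 534215807))) (b (c (l 534439951) (l 534247439)) (c (a (l 534428175) (l 534442623)) (l 534243087)))))) (a (a (b (l 3) (l 534234239)) (b (l 534542463) (l 534265471))) (a (b (l 534572415) (l 534295167)) (b (c (l 534695439) (l 534236431)) (a (l 534316927) (l 534330751)))))))), by decide +kernel⟩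

def k28_A00pm_012_s1 : ∃ t, chk3 f_A00pm_012_s1 t 68 123 1 = true :=
  ⟨(a (b (b (a (l 3) (c (c (a (c (l 534626687) (l 534543999)) (l 534625151)) (a (l 534417791) (l 534455935))) (c (l 534262399) (l 534085247)))) (c (a (a (a (l 3) (b (l 3) (l 534417279))) (c (l 534665743) (l 534367871))) (c (a (l 534573183) (l 534612607)) (l 534424447))) (a (c (l 534178431) (l 534007935)) (l 534435199)))) (a (c (b (c (a (l 534610559) (l 534519679)) (l 534335359)) (c (a (l 534464895) (l 534508159)) (l 534325887))) (b (l 534355327) (l 534080127))) (c (b (c (l 534846847) (l 534414463)) (c (l 534566271) (l 534404223))) (b (l 534159231) (l 534152063))))) (b (a (c (b (c (a (l 534663039) (l 534699391)) (l 534507135)) (c (l 534666367) (l 534496383))) (b (l 534508559) (l 534231935))) (a (c (b (l 534646911) (l 534634623)) (l 534548607)) (c (b (l 534947455) (l 534666367)) (b (l 534314623) (l 534305919))))) (a (c (b (c (l 534653311) (l 534485631)) (l 534558591)) (b (l 534223999) (l 534216063))) (c (a (l 534613631) (l 534913663))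 (b (l 534282111) (l 534273663)))))), by decide +kernel⟩

def k29_A00pm_012_s1 : ∃ t, chk3 f_A00pm_012_s1 t 69 61 1 = true :=
  ⟨(b (c (b (a (a (b (a (l 534895999) (l 534792831)) (a (b (l 534753151) (l 534747007)) (l 534780031))) (b (a (l 534822271) (l 534850687)) (a (l 534809471) (l 534837631)))) (a (c (l 535113087) (l 535049599)) (a (l 534920319) (l 534944127)))) (a (a (b (a (b (l 534740495) (l 534733583)) (l 534901263)) (a (l 534722831) (l 534887295))) (b (a (l 534796159) (l 534824319)) (a (l 534782335) (l 534810239)))) (a (b (l 534996607) (l 534848383)) (b (l 534911871) (l 534897535))))) (b (a (a (b (c (l 534487935) (l 534290559)) (a (c (l 534465407) (l 534270591)) (l 534394239))) (b (c (l 534539903) (l 534337663)) (c (l 534529151) (l 534328447)))) (a (c (l 534847871) (l 534373503)) (c (l 534622335) (l 534412159)))) (a (a (b (a (c (l 534455055) (l 534261775)) (l 534652943)) (a (l 534350095) (l 534375295))) (b (c (l 534518399) (l 534319231)) (a (l 534399615) (l 534422399)))) (a (b (l 534732047)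 (l 534453631)) (b (l 534504063) (l 534493567)))))) (c (b (a (a (b (a (l 534709887) (l 534739583)) (l 534710031)) (b (l 534780687) (l 534766975))) (a (b (l 534833791) (l 534819711)) (b (l 534882943) (l 534868351)))) (a (a (b (l 534965887) (l 534684799)) (b (l 534753663) (l 534740607))) (a (b (l 534805631) (l 534792063)) (b (l 534853759) (l 534839679))))) (b (a (a (b (a (l 534340991) (l 534366335)) (l 534343183)) (b (l 534400271) (l 534390911))) (a (b (l 534443903) (l 534434175)) (b (l 534483583) (l 534473599)))) (a (a (b (l 534334335) (l 534325631)) (b (l 534381695) (l 534372479))) (a (l 534819711) (l 534724735)))))), by decide +kernel⟩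

def k30_A00pm_012_s1 : ∃ t, chk3 f_A00pm_012_s1 t 70 61 1 = true :=
  ⟨(b (c (a (b (a (a (l 534967167) (l 534989183)) (l 535019135)) (a (b (l 534957439) (l 534942847)) (l 535124095))) (b (a (l 535058303) (l 535094655)) (a (l 535028607) (l 535064447)))) (a (b (a (l 534957839) (l 534857855)) (a (b (l 534540927) (l 534530175)) (l 534835471))) (b (a (l 534620799) (l 534649471)) (a (l 534598015) (l 534626431))))) (c (b (a (a (l 534918015) (l 534959743)) (a (l 534998143) (l 535302015))) (b (a (a (l 534898303) (l 534939519)) (a (l 534977407) (l 535281023))) (a (a (l 535151999) (l 535226383)) (c (a (l 16767032) (c (l 16766648) (l 16766024))) (a (l 16765904) (l 16765088)))))) (a (a (b (l 534780799) (l 534760575)) (b (l 534545791) (l 534524799))) (c (b (l 534962047) (b (l 16765240) (a (l 16764744) (l 16763808)))) (b (l 534745983) (b (l 16764072) (l 16763000))))))), by decide +kernel⟩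

def k31_A00pm_012_s1 : ∃ t, chk3 f_A00pm_012_s1 t 71 61 1 = true :=
  ⟨(a (c (b (b (a (l 535128191) (l 535158399)) (a (l 535097727) (l 535127935))) (b (a (b (l 16767504) (l 16766696)) (c (l 535205759) (l 16765728))) (b (b (a (l 16766080) (l 16765376)) (a (l 16765664) (c (c (l 16765976) (l 16765256)) (l 16764160)))) (b (a (c (c (l 16766192) (l 16765512)) (l 16764488)) (c (a (l 16765416) (l 16764992)) (l 16763744))) (a (c (a (l 16765632) (l 16765304)) (l 16764072)) (l 16766496)))))) (b (b (a (l 534675839) (l 534699391)) (a (l 534652543) (l 534676095))) (b (a (l 534630015) (l 534653311)) (b (a (l 16763200) (l 16764776)) (c (a (l 16762848) (l 16761944)) (a (l 16761424) (l 16760384))))))) (c (b (b (c (l 535332111) (l 535104271)) (a (l 535426175) (b (l 16767216) (l 16766472)))) (b (b (a (l 535404671) (c (l 16766464) (l 16764952))) (a (c (c (l 16766400) (l 16765656)) (l 16764528)) (c (b (l 16765840) (a (l 16765552) (l 16765392))) (b (l 16764280) (l 16763880))))) (a (b (a (b (l 16767432) (l 16767008)) (b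 (a (l 16764576) (l 16764456)) (l 16763928))) (c (l 16764080) (l 16762456))) (b (c (l 16764624) (l 16762976)) (l 16762608))))) (b (a (b (l 534723599) (l 534700415)) (b (l 534796927) (l 534773263))) (b (a (c (l 16763456) (l 16761960)) (b (l 16762632) (c (l 16762440) (l 16760800)))) (a (b (c (l 16767296) (l 16760440)) (l 16759968)) (c (l 16760664) (l 16758928))))))), by decide +kernel⟩

def k32_A00pm_012_s1 : ∃ t, chk3 f_A00pm_012_s1 t 36 60 1 = true :=
  ⟨(c (c (a (b (a (a (l 535535631) (l 535603583)) (l 535695631)) (a (b (l 535531647) (l 535502719)) (b (l 535926655) (b (l 16769440) (l 16768888))))) (b (a (l 535813647) (b (l 16771368) (l 16770480))) (a (b (l 535772799) (b (l 16769056) (l 16768528))) (b (l 536147471) (b (l 16768808) (a (l 16768352) (b (l 16768344) (l 16768032)))))))) (a (a (b (b (l 535362687) (l 535337487)) (a (l 535260031) (l 535603327))) (b (a (l 535457151) (l 535524991)) (b (l 535452287) (l 535694863)))) (b (a (l 535617295) (b (l 16770176) (l 16769160))) (a (b (l 535577727) (b (l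 16767624) (l 16767032))) (b (l 535961871) (b (l 16767272) (a (l 16766776) (b (l 16766728) (l 16766376))))))))) (c (a (a (b (b (l 535133823) (l 535109903)) (a (l 535300479) (l 535111951))) (b (a (l 535236479) (l 535308671)) (b (l 535235455) (l 535210767)))) (b (a (a (l 535377023) (l 535442047)) (b (l 535550335) (l 535519103))) (a (b (l 535368831) (b (l 16766104) (l 16765432))) (b (l 535490575) (b (l 16765584) (a (l 16765056) (b (l 16764952) (l 16764560)))))))) (c (a (a (b (b (l 534957695) (l 534934399)) (b (l 534911615) (l 534888063))) (b (l 535367439) (b (l 535065727) (l 535041919)))) (b (a (l 535239951) (l 535366783)) (a (b (l 16765952) (l 16764528)) (b (l 16765256) (b (l 16764232) (a (l 16763680) (l 16763256))))))) (a (b (a (b (l 534838143) (l 534815615)) (a (l 534946943) (l 535021951))) (a (b (l 534793599) (l 534770815)) (b (l 534949247) (l 534926207)))) (b (a (b (l 535141503) (l 535113855)) (b (l 535270527) (l 535240831))) (a (b (l 535087999) (l 16763664)) (b (l 16764368) (b (l 16763280) (a (l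 16762720) (l 16762248)))))))))), by decide +kernel⟩

def k33_A00pm_012_s1 : ∃ t, chk3 f_A00pm_012_s1 t 36 122 2 = true :=
  ⟨(a (a (a (b (l 535332367) (c (l 535409167) (l 16765816))) (c (b (l 16768344) (b (l 16767392) (b (l 16766896) (l 16766496)))) (b (l 16766960) (b (l 16765896) (l 16765096))))) (c (a (b (l 535574143) (b (l 16767192) (b (a (l 16766744) (l 16766616)) (a (l 16766368) (l 16766104))))) (b (l 535903359) (b (b (l 16767136) (a (l 16766856) (l 16766760))) (b (l 16766320) (l 16765672))))) (a (b (l 16766672) (b (l 16765640) (b (l 16765024) (l 16764624)))) (b (l 535434623) (b (b (l 16765544) (l 16765152)) (l 16766960)))))) (c (a (b (b (a (l 16768064) (l 16767872)) (a (b (l 16767640) (l 16767256)) (b (l 16770040) (l 16766968)))) (b (a (b (a (l 16767016) (l 16766776)) (l 16766304)) (l 16766000)) (a (l 16765376) (l 16764744)))) (b (b (a (b (l 16767864) (a (l 16767640) (l 16767392))) (a (l 16767424) (l 16767056))) (a (l 16766608) (l 16765952))) (b (l 16765016) (l 16763728)))) (b (a (b (a (l 16766528)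 (l 16766288)) (a (b (l 16766056) (l 16765640)) (b (l 16765768) (l 16765280)))) (b (a (b (l 16766240) (l 16765872)) (l 16765544)) (a (l 16764872) (l 16764144)))) (a (b (a (b (l 16765264) (l 16764608)) (l 16764248)) (l 16763264)) (b (l 16763152) (l 16761784)))))), by decide +kernel⟩

def k34_A00pm_012_s1 : ∃ t, chk3 f_A00pm_012_s1 t 36 122 3 = true :=
  ⟨(a (b (a (c (l 535035407) (l 535074687)) (a (l 535308815) (c (l 16764832) (l 16763144)))) (a (a (l 535127823) (b (l 16763544) (l 16765264))) (b (a (l 16763168) (c (l 16763592) (l 16761792))) (a (c (l 16765728) (l 16761320)) (c (l 16762552) (l 16760672)))))) (b (c (a (b (a (l 16764888) (l 16764576)) (a (l 16764072) (b (l 16764000) (l 16763464)))) (b (a (b (l 16764472) (l 16764056)) (l 16763664)) (a (l 16763000) (l 16762184)))) (a (b (l 16762912) (a (l 16762256) (b (l 16762104) (l 16761528)))) (b (a (b (l 16762560) (l 16762096)) (l 16761632)) (l 16760536)))) (c (a (b (a (b (l 16763488) (l 16762800)) (l 16762376)) (l 16761360)) (b (l 16761160) (l 16759712)))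 (a (b (a (l 16761288) (l 16760392)) (l 16759352)) (b (l 16759032) (l 16757512)))))), by decide +kernel⟩

def k35_A00pm_012_s1 : ∃ t, chk3 f_A00pm_012_s1 t 36 123 1 = true :=
  ⟨(a (c (b (b (a (b (a (l 16765640) (c (a (l 16766208) (l 16766096)) (l 16764520))) (a (c (a (l 16766072) (l 16765960)) (l 16764392)) (c (l 16765624) (l 16763968)))) (a (c (l 16765344) (l 16763648)) (l 16769120))) (a (a (c (b (a (l 16765696) (l 16765416)) (l 16764960)) (l 16766304)) (c (l 16764712) (l 16763008))) (c (l 16763808) (l 16762008)))) (a (b (c (a (l 16764080) (l 16763496)) (l 16762056)) (c (l 16762576) (l 16760776))) (b (c (l 16762552) (l 16760680)) (c (l 16761280) (l 16759336))))) (a (b (b (a (c (l 16762944) (l 16761288)) (c (l 16767824) (l 16760816))) (a (c (l 16761992) (l 16760248)) (l 16760344))) (a (c (l 16759968) (l 16758144)) (c (l 16759232) (l 16757312)))) (b (c (b (l 16761504) (l 16760128)) (a (l 16759320) (l 16758472))) (c (b (l 16758736) (l 16757328)) (b (l 16756720) (l 16755248)))))) (b (c (a (c (b (l 16763792)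 (l 16762512)) (b (l 16761920) (l 16760560))) (b (c (l 16762424) (l 16760392)) (c (l 16761104) (l 16758984)))) (a (c (b (l 16759944) (l 16758512)) (b (l 16757872) (l 16756368))) (c (b (l 16758248) (l 16756768)) (b (l 16755984) (l 16754432))))) (c (a (b (c (l 16761200) (l 16759176)) (c (l 16759880) (l 16757776))) (c (b (l 16759752) (l 16758392)) (b (l 16757560) (l 16756120)))) (a (b (c (l 16757064) (l 16754856)) (c (l 16755600) (l 16753336))) (c (b (l 16755272) (l 16753760)) (b (l 16752872) (l 16751304))))))), by decide +kernel⟩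

def k36_A00pm_012_s1 : ∃ t, chk3 f_A00pm_012_s1 t 37 60 2 = true :=
  ⟨(c (a (b (a (b (l 16771200) (l 16770328)) (b (l 16771176) (l 16770336))) (b (a (b (l 16769656) (a (l 16769208) (l 16769088))) (a (b (l 16769624) (a (l 16769072) (l 16768968))) (b (l 16769520) (l 16768440)))) (a (b (a (l 16768600) (b (l 16768696) (l 16768160))) (a (a (l 16768024) (l 16767672)) (l 16767176))) (a (l 16767152) (l 16766472))))) (b (a (b (l 16771320) (b (l 16770496) (a (l 16770056) (l 16769824)))) (b (a (l 16771344) (l 16771384)) (a (l 16769872) (l 16769096)))) (a (b (a (l 16771112) (l 16767760)) (l 16765416)) (b (l 16766712) (l 16763976))))) (a (a (b (b (l 16769872) (l 16768888)) (b (b (l 16768120) (a (l 16767640) (l 16767464))) (a (b (l 16766968) (a (l 16766328) (l 16765936))) (b (b (l 16767016) (l 16766432)) (l 16765376))))) (b (b (l 16769720) (l 535932687)) (b (a (b (l 16768000) (b (l 16767528) (l 16767088))) (b (l 16767824) (l 16766656))) (a (l 16765320) (l 16764544))))) (b (a (b (l 16769728) (b (l 16768824) (a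 (l 16768352) (l 16768024)))) (b (a (l 16769648) (b (l 16770032) (l 16769312))) (a (b (l 16768672) (l 16767192)) (l 16767136)))) (b (a (a (b (l 16767352) (l 16765888)) (l 16765824)) (l 16764616)) (a (l 16763344) (l 16761688)))))), by decide +kernel⟩

def k37_A00pm_012_s1 : ∃ t, chk3 f_A00pm_012_s1 t 37 61 2 = true :=
  ⟨(b (a (b (a (b (a (l 16768296) (l 16764960)) (c (l 16764928) (l 16762992))) (c (l 16764168) (l 16762096))) (a (b (l 16762624) (l 16761264)) (c (l 16761480) (l 16759224)))) (b (a (c (l 16762704) (l 16760440)) (c (l 16761200) (l 16758728))) (a (c (l 16759952) (l 16757496)) (c (l 16758392) (l 16755728))))) (a (b (b (a (c (l 16760960) (l 16758760)) (l 16758248)) (a (c (l 16759608) (l 16757320)) (c (l 16758048) (l 16755568)))) (a (b (c (l 16758232) (l 16755856)) (c (l 16756832) (l 16754376))) (c (b (l 16756640) (l 16755216)) (b (l 16754072) (l 16752568))))) (b (a (b (l 16756568) (c (l 16756432) (l 16753760))) (c (b (l 16756248) (l 16754808)) (l 16752680))) (a (b (c (l 16755008) (l 16752240))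 (c (l 16753560) (l 16750712))) (c (b (l 16753352) (l 16751880)) (b (l 16750368) (l 16748816))))))), by decide +kernel⟩

def k38_A00pm_012_s1 : ∃ t, chk3 f_A00pm_012_s1 t 37 60 3 = true :=
  ⟨(a (b (a (b (c (l 16768408) (l 535445631)) (c (l 16767288) (l 535414399))) (b (c (l 16768088) (l 535553407)) (c (l 535737615) (l 16765048)))) (c (b (a (b (l 16766416) (a (l 16765912) (l 16765664))) (a (b (l 16766176) (b (l 16765648) (l 16765168))) (b (l 16768536) (l 16764664)))) (a (b (a (l 16765176) (b (l 16765144) (l 16764528))) (a (a (l 16764464) (l 16764040)) (l 16763408))) (a (l 16763296) (l 16762432)))) (b (a (b (l 16764552) (a (l 16764016) (l 16763680))) (b (a (l 16764160) (l 16766416)) (a (b (l 16763576) (l 16763056)) (l 16762472)))) (b (a (a (l 16763208) (b (l 16763096) (l 16762440))) (l 16761384)) (a (a (l 16764864) (l 16761272)) (l 16759824)))))) (b (c (a (b (l 16767920) (a (b (l 16767152) (l 16766432)) (b (l 16766952) (l 16766000)))) (b (a (l 16767720) (b (l 16768032) (l 16767232))) (a (b (l 16766624)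 (l 16765064)) (l 16764936)))) (b (a (l 16765896) (b (l 16765800) (a (l 16765272) (l 16764896)))) (a (b (a (l 16765080) (l 16764776)) (a (l 16764280) (l 16763736))) (b (a (l 16764328) (l 16763304)) (l 16762200))))) (c (b (a (a (b (l 16765344) (l 16763800)) (l 16763672)) (l 16762312)) (a (l 16761072) (l 16759216))) (b (a (b (a (l 16763112) (l 16762104)) (l 16761008)) (l 16759792)) (a (a (l 16759128) (l 16758112)) (l 16756544)))))), by decide +kernel⟩

def k39_A00pm_012_s1 : ∃ t, chk3 f_A00pm_012_s1 t 37 61 3 = true :=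
  ⟨(a (b (b (a (c (b (l 16762368) (l 16760904)) (b (l 16760200) (l 16758664))) (c (l 16759864) (b (l 16758256) (l 16756672)))) (a (c (b (l 16759424) (l 16757936)) (a (l 16756832) (l 16755832))) (c (b (l 16757584) (l 16756056)) (a (l 16754808) (l 16753760))))) (b (a (c (b (l 16756424) (l 16754912)) (b (l 16753976) (l 16752392))) (c (b (l 16754520) (l 16752968)) (b (l 16751872) (l 16750248)))) (a (c (b (l 16753376) (l 16751824)) (b (l 16750792) (l 16749176))) (c (b (l 16751400) (l 16749824)) (b (l 16748616) (l 16746976)))))) (b (b (a (c (l 16758008) (a (l 16755936) (l 16754880))) (c (l 16756080) (l 16753272))) (a (c (l 16754896) (l 16754776)) (c (l 16752912) (l 16749960)))) (b (a (c (l 16754376) (l 16754112)) (c (l 16749712) (l 16746616))) (a (c (l 16753808) (l 16745544)) (c (l 16746472) (l 16743240)))))), by decide +kernel⟩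

def k40_A00pm_012_s1 : ∃ t, chk3 f_A00pm_012_s1 t 38 60 1 = true :=
  ⟨(a (c (b (b (a (a (b (l 16770896) (l 16769528)) (l 16769512)) (a (l 16768776) (l 16768072))) (a (c (l 16768056) (l 16765928)) (l 16765520))) (b (a (l 16764160) (l 16762600)) (a (l 16761264) (l 16759656)))) (b (b (a (a (b (c (l 16767840) (l 16765464)) (l 16765160)) (l 16764992)) (c (l 16764880) (l 16762192))) (a (c (l 16763568) (l 16760968)) (c (l 16761728) (l 16758904)))) (a (b (c (l 16760440) (l 16757696)) (c (l 16757288) (l 16754400))) (b (c (l 16758544) (l 16755584)) (c (l 16755344) (l 16752232)))))) (b (c (b (a (l 16767112) (l 16765752)) (a (l 16764136) (l 16762704))) (a (b (c (l 16763376) (l 16760536)) (c (l 16760136) (l 16757152))) (b (l 16760360) (l 16756968)))) (c (b (a (l 16761144) (l 16759640)) (a (l 16758128) (l 16756560))) (a (b (l 16755336) (l 16751976)) (b (l 16753544) (l 16750112)))))), by decide +kernel⟩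

def k41_A00pm_012_s1 : ∃ t, chk3 f_A00pm_012_s1 t 38 61 1 = true :=
  ⟨(a (c (b (b (a (c (l 16759672) (l 16756968)) (c (l 16758128) (l 16755200))) (a (c (l 16756808) (l 16753920)) (c (b (l 16755952) (l 16754488)) (l 16752104)))) (b (a (c (b (l 16754632) (l 16753168)) (l 16750832)) (c (b (l 16753016) (l 16751528)) (l 16751592))) (a (c (b (l 16751688) (l 16750200)) (l 16747696)) (c (b (l 16750032) (c (l 16749384) (l 16747648))) (b (l 16746592) (l 16745000)))))) (b (b (a (c (l 16754104) (l 16751072)) (c (l 16752112) (l 16748864))) (a (c (l 16750888) (l 16747720)) (c (l 16748848) (l 16745464)))) (b (a (c (l 16747640) (l 16744328)) (c (l 16745560) (l 16742032))) (a (c (l 16744352) (l 16740912)) (c (l 16742232) (l 16738576)))))) (c (b (b (a (c (l 16756600) (l 16753528)) (l 16758696)) (a (c (l 16753632) (l 16750360)) (c (l 16752016) (l 16748592)))) (b (a (c (b (l 16751376) (l 16749864)) (l 16747160)) (c (l 16748952) (l 16745328))) (c (a (c (l 16748472) (l 16746672)) (l 16745856)) (a (l 16743928) (l 16742040)))))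 (b (b (a (l 16753840) (l 16746648)) (a (l 16750424) (l 16743168))) (b (a (l 16746992) (l 16739664)) (a (l 16748768) (l 16736136)))))), by decide +kernel⟩

def k42_A00pm_012_s1 : ∃ t, chk3 f_A00pm_012_s1 t 39 30 1 = true :=
  ⟨(b (a (b (c (b (a (l 16764312) (l 16762800)) (a (l 16761200) (l 16759640))) (a (b (l 16758600) (l 16755136)) (b (l 16756720) (l 16753200)))) (c (b (a (l 16758080) (l 16756472)) (a (l 16754944) (l 16753288))) (a (b (l 16751648) (l 16748152)) (b (l 16749656) (l 16746104))))) (b (c (b (l 16760376) (l 16767640)) (a (b (l 16754736) (l 16751168)) (l 16750848))) (c (b (a (l 16754816) (l 16753128)) (a (l 16751592) (l 16749880))) (a (b (l 16747584) (l 16743992)) (l 16754112))))) (c (a (b (b (a (l 16751784) (l 16750088)) (c (a (l 16750384) (l 16748744)) (l 16745832))) (b (c (a (l 16747280) (l 16745600)) (l 16747752)) (c (a (l 16744136) (l 16742424)) (l 16749632)))) (b (b (a (l 16748360) (l 16746624)) (c (l 16746248) (l 16742104))) (b (c (l 16743072) (l 16738720)) (c (l 16739864) (l 16735312)))))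 (a (b (b (a (l 16744624) (l 16742536)) (a (l 16741088) (l 16738952))) (b (a (l 16737528) (l 16735344)) (c (l 16734952) (l 16730656)))) (b (b (l 16749736) (l 16746112)) (b (l 16742472) (l 16728328)))))), by decide +kernel⟩

def k43_A00pm_012_s1 : ∃ t, chk3 f_A00pm_012_s1 t 16 31 1 = true :=
  ⟨(b (a (l 14) (b (a (l 14) (a (l 14) (a (l 14) (a (l 14) (b (c (c (b (l 534408575) (l 14)) (l 534515071)) (l 534278783)) (l 14)))))) (l 14))) (l 14)), by decide +kernel⟩

def k44_A00pm_012_s1 : ∃ t, chk3 f_A00pm_012_s1 t 68 62 1 = true :=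
  ⟨(a (b (b (a (c (b (c (l 534741119) (l 534316415)) (c (l 534461567) (l 534307455))) (b (l 534073727) (l 534067071))) (c (b (l 534743567) (l 534464383)) (b (l 534144895) (l 534137727)))) (a (l 14) (c (b (l 534453887) (l 14)) (l 534659455)))) (l 14)) (b (a (b (c (b (l 534547071) (l 534535807)) (l 534737535)) (c (b (l 534524799) (l 534514047)) (l 534722175))) (b (c (b (l 534612607) (l 534600831)) (l 534727551)) (c (b (l 534589311) (l 534846479)) (b (l 534249599) (l 16767096))))) (b (a (l 14) (b (c (c (l 534914431) (l 16767024)) (l 534502527)) (l 14))) (l 14)))), by decide +kernel⟩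

def k45_A00pm_012_s1 : ∃ t, chk3 f_A00pm_012_s1 t 69 124 1 = true :=
  ⟨(c (a (a (b (b (l 534672511) (l 534660479)) (b (l 534916879) (c (l 534987135) (l 16767160)))) (a (b (l 534975503) (b (l 534691455) (l 534947855))) (b (l 535068943) (b (l 534717567) (b (l 16766720) (a (l 16766320) (b (l 16766248) (l 16765992)))))))) (a (b (b (l 535047039) (c (l 534853759) (l 16767376))) (b (c (b (l 16767496) (l 16767032)) (l 16766400)) (c (b (a (l 16766752) (b (l 16766472) (l 16766256))) (a (a (l 16766360) (l 16766192)) (l 16765848))) (b (a (l 16765864) (l 16765408)) (a (l 16765360) (l 16764880)))))) (b (b (c (l 16768312) (l 16767464)) (c (l 535171087) (l 16766512))) (b (c (b (l 16766752) (a (c (l 16766664) (l 16766200)) (b (l 16766200) (l 16765992)))) (b (l 16765792) (a (l 16765472) (l 16765080)))) (c (b (a (c (l 16766256) (l 16765768)) (l 16765552)) (l 16765208)) (b (l 16767408) (l 16764152))))))) (b (a (a (l 534577791) (l 534624271)) (a (b (l 16767192) (l 16766128)) (b (l 16766152) (l 16765096)))) (a (a (b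 (l 16767144) (l 534292095)) (b (l 16766080) (c (b (l 16765680) (l 16765088)) (l 16764464)))) (a (b (l 534387727) (c (b (l 16764648) (l 16764160)) (b (l 16763672) (l 16763144)))) (b (b (l 16764288) (c (l 16764232) (l 16763176))) (b (l 16765800) (l 16762504))))))), by decide +kernel⟩

def k46_A00pm_012_s1 : ∃ t, chk3 f_A00pm_012_s1 t 69 125 1 = true :=
  ⟨(b (c (a (b (a (b (c (a (l 16767344) (l 16766912)) (l 16766344)) (c (a (l 16766808) (l 16766472)) (a (l 16766040) (l 16765640)))) (c (b (a (c (l 16766744) (l 16766336)) (l 16766176)) (l 16765808)) (b (a (l 16765696) (l 16765280)) (l 16764904)))) (a (c (b (l 16766128) (l 14)) (l 16767632)) (c (l 16767600) (l 16764032)))) (b (a (c (b (l 16765504) (l 16764952)) (l 16764232)) (c (l 16766984) (l 16763264))) (a (c (l 16764104) (l 16763048)) (l 16765264)))) (a (a (b (b (l 16765136) (c (l 16765008) (l 16764136))) (c (l 16764128) (l 16763208))) (b (c (b (l 16764584) (l 16763960)) (l 16765984)) (l 16762536))) (a (b (l 16765296) (l 16761392)) (b (l 16761544)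 (l 16760240))))) (a (a (l 14) (b (c (l 16765984) (l 16761248)) (l 14))) (b (c (a (l 16762408) (l 16761448)) (c (l 16760128) (l 16758880))) (c (c (l 16761336) (l 16760104)) (c (l 16758832) (l 16757520)))))), by decide +kernel⟩

def k47_A00pm_012_s1 : ∃ t, chk3 f_A00pm_012_s1 t 35 124 2 = true :=
  ⟨(a (b (a (b (a (c (l 534963327) (l 16766616)) (c (l 535274255) (l 16765792))) (a (a (a (l 534841727) (l 535120767)) (b (l 16766232) (c (l 16766272) (l 16765208)))) (c (a (b (l 16766392) (b (l 16766032) (l 16765832))) (b (c (l 16766288) (l 16765720)) (c (l 16765864) (l 16765280)))) (b (l 16765032) (a (l 16764800) (l 16764384)))))) (b (b (a (a (l 16766000) (l 16765632)) (c (a (l 16765856) (l 16765552)) (l 16764384))) (a (c (a (l 16766120) (a (l 16765856) (l 16765704))) (l 16764696)) (c (a (l 16765440) (l 16764984)) (l 16763896)))) (a (c (a (b (c (l 16765992) (l 16765392)) (l 16765112)) (l 16767600)) (b (l 16766888) (l 16763632))) (c (c (l 16764672) (l 16763992)) (l 16762960))))) (a (b (a (a (b (b (l 16765808)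 (c (l 16766072) (l 16765024))) (c (l 16765712) (l 16764632))) (b (c (b (l 16765960) (l 16765680)) (l 16764744)) (l 16767320))) (c (b (c (l 16765480) (l 16764896)) (l 16764616)) (l 16763704))) (c (a (b (l 16764912) (l 16764344)) (l 16763760)) (a (l 16763480) (l 16762496)))) (a (b (c (l 16764048) (l 16762728)) (l 16764824)) (b (c (l 16763176) (l 16761744)) (l 16761264))))) (b (a (b (a (c (b (l 16764912) (l 16764344)) (l 16763184)) (c (l 16763776) (l 16762216))) (c (a (l 16763480) (l 16762616)) (l 16761488))) (b (a (l 16764712) (l 16761400)) (a (l 16760896) (l 16760168)))) (a (b (a (l 16761536) (l 16760600)) (c (l 16760672) (l 16759008))) (b (a (l 16759672) (l 16758920)) (a (c (l 16759352) (l 16757512)) (c (l 16758608) (l 16756688))))))), by decide +kernel⟩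

def k48_A00pm_012_s1 : ∃ t, chk3 f_A00pm_012_s1 t 35 124 3 = true :=
  ⟨(a (a (a (b (b (l 16765128) (c (l 16764584) (l 16763504))) (b (c (b (l 16763816) (l 16763256)) (l 16765032)) (l 16761688))) (b (b (l 16764128) (c (b (l 16763880) (l 16763408)) (l 16762424))) (b (c (l 16762464) (l 16761200)) (l 16760544)))) (b (b (a (c (l 16763680) (l 16762432)) (c (l 16765432) (l 16761432))) (a (c (l 16765320) (l 16761368)) (l 16760832))) (b (a (l 16760688) (l 16759536)) (a (l 16759384) (l 16758224))))) (a (b (b (a (l 16760976) (l 16759824)) (a (l 16759680) (l 16758520))) (c (b (l 16758616) (l 16757320)) (b (l 16756952) (l 16755600)))) (b (a (c (l 16758904) (l 16757152)) (c (l 16758072) (l 16756224))) (a (c (l 16756312) (l 16754448)) (c (l 16755408) (l 16753448)))))), by decide +kernel⟩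

def k49_A00pm_012_s1 : ∃ t, chk3 f_A00pm_012_s1 t 35 125 1 = true :=
  ⟨(a (c (b (a (b (a (c (l 16763480) (l 16762272)) (l 16761944)) (a (l 16761688) (l 16760728))) (b (a (l 16760992) (l 16760040)) (c (l 16760048) (l 16758504)))) (a (b (c (l 16760672) (l 16759296)) (c (l 16759456) (l 16758024))) (a (b (l 16758520) (l 16757256)) (b (l 16757544) (l 16756264))))) (b (a (b (a (l 16760392) (l 16759232)) (l 16758488)) (b (l 16757480) (l 16756128))) (a (b (l 16757152) (l 16758416)) (b (l 16754768) (l 16753392))))) (c (b (a (a (b (l 16759088) (l 16757832)) (b (l 16758128) (l 16756864))) (b (a (c (l 16758120) (l 16756232)) (c (l 16757344) (l 16755368))) (c (a (l 16756872) (l 16756056)) (a (l 16754936) (l 16754040))))) (a (c (b (a (l 16757432) (l 16756512)) (a (l 16756168) (l 16755232))) (b (l 16755160) (l 16753840))) (b (c (a (l 16755600) (l 16754752)) (a (l 16753616) (l 16752688))) (c (a (l 16754304) (l 16753432)) (l 16754424))))) (b (a (b (c (l 16756000) (l 16754224)) (c (l 16754664) (l 16752840))) (a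 (c (l 16753648) (l 16751680)) (c (l 16752680) (l 16750616)))) (b (a (l 16755000) (c (l 16751096) (l 16749008))) (a (l 16750976) (c (l 16749696) (l 16747552))))))), by decide +kernel⟩

def k50_A00pm_012_s1 : ∃ t, chk3 f_A00pm_012_s1 t 34 63 1 = true :=
  ⟨(b (b (b (b (a (l 14) (a (l 14) (c (l 16759808) (l 16757176)))) (l 14)) (l 14)) (l 14)) (l 14)), by decide +kernel⟩

def k51_A00pm_012_s1 : ∃ t, chk3 f_A00pm_012_s1 t 35 126 1 = true :=
  ⟨(a (b (a (c (b (c (l 16758224) (l 16756736)) (c (l 16756976) (l 16755432))) (b (l 16757040) (l 16755648))) (c (a (b (l 16755976) (l 16754672)) (b (l 16754968) (l 16753648))) (b (l 16751992) (l 16750576)))) (b (c (a (a (l 14) (l 16754392)) (a (l 16753352) (l 16754936))) (a (l 16751616) (l 16749144))) (a (l 14) (c (c (l 16752400) (l 16750552)) (l 16747696))))) (c (b (a (b (c (a (l 16754888) (l 16753936)) (l 16752496)) (c (c (l 16753576) (l 16752616)) (l 16751144))) (b (c (a (l 16753000) (l 16752096)) (l 16753048)) (c (a (l 16751672) (l 16750736)) (l 16749040))))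 (a (a (b (l 16753912) (l 16752544)) (c (b (l 16751288) (l 16749936)) (l 16751160))) (c (b (c (l 16753000) (l 16749288)) (c (l 16749008) (l 16747896))) (b (l 16747632) (l 16746208))))) (b (a (b (l 16749568) (l 16748136)) (c (b (l 16748280) (l 16746840)) (l 16750592))) (a (a (l 16751816) (l 16750584)) (a (l 16749360) (l 16748152)))))), by decide +kernel⟩

def k52_A00pm_012_s1 : ∃ t, chk3 f_A00pm_012_s1 t 35 127 1 = true :=
  ⟨(b (c (a (a (l 14) (b (b (l 16750456) (l 14)) (l 14))) (a (b (c (b (l 16749392) (l 16748728)) (l 16746928)) (c (c (l 16748464) (l 16747400)) (l 16745768))) (b (c (a (b (l 16747920) (l 16747320)) (c (l 16747200) (l 16746040))) (a (l 16745344) (l 16744280))) (c (a (c (l 16747136) (l 16745984)) (l 16745608)) (c (l 16744304) (l 16743104)))))) (a (b (a (l 14) (l 16751432)) (l 14)) (a (b (l 16748944) (l 16742416)) (b (c (l 16742480) (l 16740088)) (c (l 16741280) (l 16738808)))))) (c (a (l 14) (a (a (l 14) (b (c (l 16746464) (l 16744152)) (l 14))) (a (a (b (c (l 16745792) (l 16743400))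 (l 14)) (c (b (c (l 16745952) (l 16744744)) (b (l 16744600) (l 14))) (b (l 16742904) (l 16741816)))) (b (c (c (l 16745272) (l 16744024)) (l 16742136)) (c (c (b (l 16744552) (l 16744064)) (l 16743016)) (l 16741056)))))) (a (l 14) (b (a (c (l 16742344) (l 16739984)) (c (l 16740120) (l 16737552))) (a (l 14) (c (c (l 16739600) (l 16738280)) (l 16736280))))))), by decide +kernel⟩

def k53_A00pm_012_s1 : ∃ t, chk3 f_A00pm_012_s1 t 36 124 1 = true :=
  ⟨(a (b (a (c (b (c (l 16761336) (l 16759480)) (c (l 16760080) (l 16758160))) (b (c (l 16757568) (l 16755616)) (c (l 16756200) (l 16754184)))) (c (b (c (l 16759984) (l 16757976)) (c (l 16758664) (l 16756600))) (c (b (l 16755904) (l 16754464)) (b (l 16753768) (l 16752272))))) (a (c (b (c (a (l 16759160) (l 16758448)) (l 16756832)) (c (a (l 16757880) (l 16757136)) (l 16755480))) (b (c (l 16754808) (l 16752744)) (c (l 16753400) (l 16751280)))) (c (b (c (a (l 16757712) (l 16756952)) (l 16755200)) (c (c (l 16756512) (l 16755432)) (l 16753784))) (c (b (l 16753008)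 (l 16751536)) (b (l 16750760) (l 16749232)))))) (b (c (a (b (c (l 16758536) (l 16756368)) (c (l 16757168) (l 16754928))) (c (b (l 16757000) (l 16755600)) (b (l 16754664) (l 16753184)))) (a (b (c (l 16754120) (l 16751792)) (c (l 16752624) (l 16750240))) (c (b (l 16752232) (l 16750688)) (b (l 16749712) (l 16748112))))) (c (a (c (b (c (l 16756344) (l 16755216)) (c (l 16754960) (l 16753792))) (b (l 16753480) (l 16752016))) (c (b (c (l 16754784) (l 16753560)) (c (l 16753352) (l 16752096))) (b (l 16751688) (l 16750176)))) (a (c (b (l 16751112) (l 16749584)) (b (l 16748672) (l 16747088))) (c (b (l 16749128) (l 16747560)) (l 16750928)))))), by decide +kernel⟩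

def k54_A00pm_012_s1 : ∃ t, chk3 f_A00pm_012_s1 t 36 125 1 = true :=
  ⟨(c (a (b (a (c (b (a (l 16756584) (l 16755808)) (c (l 16755384) (l 16754328))) (b (l 16754112) (l 16752720))) (b (c (c (l 16755152) (l 16754048)) (l 16752352)) (c (c (l 16753776) (l 16752632)) (l 16750904)))) (a (b (c (a (l 16753928) (l 16753080)) (l 16751312)) (c (c (l 16752680) (l 16751568)) (l 16749888))) (c (b (c (l 16752376) (l 16751208)) (c (l 16750952) (l 16749760))) (b (l 16749432) (l 16747944))))) (b (a (c (b (c (l 16753552) (l 16752352)) (c (l 16752120) (l 16750896))) (b (l 16750528) (l 16749024))) (c (b (c (l 16751904) (l 16750616)) (c (l 16750440) (l 16749112))) (b (l 16748648) (l 16747104)))) (c (a (b (c (l 16750672) (l 16749416)) (c (l 16749200) (l 16747920))) (b (c (l 16748952) (l 16747592)) (c (l 16747440) (l 16746056)))) (a (b (l 16747504) (l 16745960)) (b (l 16745536) (l 16743952)))))) (a (b (a (c (b (l 16751984) (l 16750544)) (b (l 16749808) (l 16748320))) (c (b (l 16750048) (l 16748544)) (l 16752160))) (a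 (b (l 16753200) (l 16751696)) (b (l 16751040) (l 16744240)))) (b (a (c (b (l 16748040) (l 16746480)) (l 16749928)) (c (l 16750416) (l 16742400))) (a (c (l 16749352) (l 16741432)) (c (l 16741928) (l 16739056)))))), by decide +kernel⟩

def k55_A00pm_012_s1 : ∃ t, chk3 f_A00pm_012_s1 t 37 124 1 = true :=
  ⟨(c (a (b (a (c (b (l 16755416) (c (l 16754616) (l 16753328))) (b (l 16752880) (l 16751368))) (c (b (l 16753776) (c (l 16753000) (l 16751616))) (b (l 16751048) (l 16749504)))) (a (c (b (c (l 16753176) (l 16751856)) (c (l 16751712) (l 16750360))) (b (l 16749840) (l 16748296))) (c (b (c (l 16751536) (l 16750112)) (c (l 16750056) (l 16748592))) (b (l 16747952) (l 16746376))))) (b (a (c (b (l 16752096) (l 16753240)) (b (l 16749160) (l 16747600))) (c (b (l 16750400) (c (l 16749696) (l 16748104))) (b (l 16747248) (l 16745672)))) (c (b (a (c (l 16749880) (l 16748352)) (c (l 16748200) (l 16746560))) (a (c (l 16748376) (l 16746808)) (l 16748472))) (a (b (l 16746024) (l 16744432)) (l 16748512))))) (a (b (a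 (c (b (l 16750264) (l 16748680)) (l 16751976)) (c (l 16752672) (l 16744480))) (a (b (l 16750920) (l 16749288)) (c (l 16749416) (l 16741112)))) (b (a (c (l 16750568) (l 16742176)) (c (l 16743192) (l 16739832))) (c (a (l 16742032) (l 16739856)) (a (l 16738760) (l 16736376)))))), by decide +kernel⟩

def k56_A00pm_012_s1 : ∃ t, chk3 f_A00pm_012_s1 t 37 125 1 = true :=
  ⟨(c (c (a (b (a (b (c (l 16750232) (l 16748848)) (c (l 16748736) (l 16747312))) (b (c (l 16748552) (l 16747056)) (c (l 16747024) (l 16745496)))) (a (b (c (l 16747216) (l 16745760)) (l 16750176)) (b (l 16749944) (l 16743120)))) (b (b (a (l 16748672) (c (l 16745152) (l 16743440))) (a (c (l 16745312) (l 16743672)) (l 16747968))) (a (b (l 16742912) (l 16741312)) (b (l 16741128) (l 16739520))))) (a (b (a (b (l 16746728) (l 16745144)) (b (l 16744784) (l 16743176))) (a (l 16747984) (l 16745968))) (b (a (l 16747248) (l 16740016)) (a (l 16738712) (l 16736696))))) (a (b (a (c (l 16743032) (l 16740064)) (c (l 16740864) (l 16737696))) (c (a (l 16739720)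 (l 16737496)) (l 16745912))) (b (c (a (l 16738672) (l 16736472)) (l 16744560)) (c (l 16744616) (l 16730536))))), by decide +kernel⟩

def k57_A00pm_012_s1 : ∃ t, chk3 f_A00pm_012_s1 t 18 126 1 = true :=
  ⟨(c (a (a (b (a (c (b (c (l 16751296) (l 16750168)) (c (l 16749896) (l 16748744))) (b (l 16748448) (l 16746992))) (c (b (l 16751528) (l 16752672)) (b (l 16746440) (l 16744920)))) (a (c (b (c (l 16748480) (l 16747304)) (l 16746440)) (b (l 16745512) (l 16744016))) (c (b (l 16745936) (c (l 16745032) (l 16743744))) (b (l 16743376) (l 16741784))))) (c (b (a (b (l 16752304) (l 16745536)) (b (l 16745208) (l 16743648))) (b (a (l 16744000) (l 16742064)) (a (c (l 16743136) (l 16741736)) (c (l 16741376) (l 16739872))))) (b (a (b (l 16744408) (l 16742832)) (l 16746792)) (b (l 16740160) (a (l 16739632) (l 16737608)))))) (c (b (a (a (b (l 16743360) (l 16741768)) (a (l 16746424) (l 16745504))) (a (a (l 16744584) (l 16738432)) (a (l 16737520) (l 16736624)))) (a (a (b (l 16740152) (l 16738920)) (b (l 16743480) (l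 16737264))) (b (c (a (l 16737416) (l 16735912)) (l 16734824)) (c (l 16735976) (l 16734056))))) (b (a (b (l 16739256) (l 16737592)) (b (l 16735160) (l 16733456))) (a (b (a (l 16736984) (l 16734840)) (l 16740008)) (b (l 16737248) (l 16731168)))))) (a (a (b (a (b (l 16750184) (l 16743408)) (c (l 16743152) (l 16740568))) (a (c (l 16742328) (l 16739832)) (c (l 16745168) (l 16737256)))) (b (a (c (l 16740896) (l 16738128)) (l 16747632)) (b (l 16746288) (c (l 16746168) (l 16732688))))) (b (a (c (l 16745680) (l 16731920)) (c (l 16730640) (l 16726952))) (a (b (c (l 16732560) (l 16729216)) (c (l 16731368) (l 16727944))) (a (b (l 16727408) (l 16726392)) (l 16730120)))))), by decide +kernel⟩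

def k58_A00pm_012_s1 : ∃ t, chk3 f_A00pm_012_s1 t 36 127 1 = true :=
  ⟨(c (b (a (c (b (a (a (l 16748272) (l 16744696)) (c (l 16743952) (l 16742624))) (a (c (l 16744832) (l 16743560)) (c (l 16743072) (l 16741696)))) (b (a (l 16742696) (l 16740608)) (a (l 16741624) (l 16739608)))) (a (c (b (l 16741456) (l 16740656)) (b (l 16738568) (l 16737672))) (c (b (l 16739760) (l 16739016)) (l 16736232)))) (a (a (c (b (c (b (l 16744160) (l 16743704)) (l 16742608)) (c (a (l 16743440) (l 16742584)) (a (l 16742096) (l 16741200)))) (b (l 16740608) (c (l 16740264) (l 16738880)))) (c (b (c (l 16742224) (l 16740800)) (c (l 16743976) (l 16739888))) (b (l 16738648) (l 16737664)))) (a (c (b (l 16742456) (c (l 16739784) (l 16738208))) (b (l 16736760) (l 16735824))) (c (b (l 16738248) (l 16740088)) (b (l 16734944) (l 16734064)))))) (c (b (a (b (a (l 16740168) (l 16737880)) (l 16743128)) (b (l 16734552) (l 16733584))) (a (b (a (l 16737896) (l 16735728)) (a (l 16736768) (l 16734648))) (b (l 16732600) (a (l 16732592) (l 16730608)))))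 (b (a (b (l 16741608) (l 16735120)) (l 16730944)) (a (b (l 16733936) (a (l 16733912) (l 16731584))) (b (l 16729312) (l 16728200)))))), by decide +kernel⟩

def k59_A00pm_012_s1 : ∃ t, chk3 f_A00pm_012_s1 t 37 127 1 = true :=
  ⟨(c (b (a (c (c (b (l 16738232) (l 16737600)) (b (l 16736512) (l 16735824))) (b (l 16733912) (l 16733152))) (c (a (b (l 16735192) (l 16734616)) (b (l 16733840) (l 16733328))) (b (l 16730536) (l 16729880)))) (a (a (c (b (l 16736752) (l 16736024)) (b (l 16733208) (l 16732376))) (c (b (l 16735344) (l 16734664)) (b (l 16731552) (l 16730776)))) (c (a (b (l 16734024) (l 16733400)) (b (l 16732784) (c (l 16733328) (l 16731120)))) (b (c (l 16730256) (l 16728160)) (c (l 16729584) (l 16727432)))))) (b (a (c (b (l 16730416) (l 16729544)) (l 16726408)) (c (b (l 16726552) (l 16725784)) (l 16722112))) (a (c (b (l 16728656) (l 16727744)) (b (l 16724912) (l 16723888))) (c (b (l 16725000) (c (l 16725272) (l 16723104))) (b (l 16720760) (l 16719832)))))), by decide +kernel⟩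

def k60_A00pm_012_s1 : ∃ t, chk3 f_A00pm_012_s1 t 38 62 1 = true :=
  ⟨(c (b (a (b (c (b (a (l 16748696) (c (l 16747888) (l 16746104))) (a (l 16749800) (c (l 16746376) (l 16744552)))) (a (l 16749768) (l 16747832))) (c (b (a (l 16748272) (c (l 16744848) (l 16742984))) (a (c (l 16745000) (l 16743208)) (c (l 16743312) (l 16741400)))) (a (l 16746544) (l 16744576)))) (b (a (c (a (l 16744928) (l 16744040)) (l 16740656)) (b (l 16746776) (l 16745144))) (a (c (a (l 16747040) (l 16740880)) (l 16737344)) (b (l 16743504) (l 16747096))))) (c (a (b (a (c (b (l 16743456) (l 16741896)) (l 16740824)) (c (b (l 16741760) (l 16740200)) (l 16744256))) (a (b (l 16739360) (l 16737744)) (b (l 16742840) (l 16735976)))) (b (a (a (l 16743856) (l 16737680)) (l 16736288)) (a (c (l 16735976) (l 16733824)) (l 16733000)))) (a (b (a (l 16738024) (l 16736032)) (a (l 16734688) (l 16732680))) (b (a (l 16733992) (l 16731944)) (l 16734776))))) (b (a (a (b (c (l 16741032) (l 16737464)) (l 16746312)) (b (c (l 16738872) (l 16735088)) (l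 16744016))) (b (c (l 16746176) (l 16731640)) (c (l 16732200) (l 16728024)))) (a (a (b (l 16732360) (l 16728832)) (b (l 16730032) (l 16726488))) (b (l 16737016) (a (l 16724120) (l 16721728)))))), by decide +kernel⟩

def k61_A00pm_012_s1 : ∃ t, chk3 f_A00pm_012_s1 t 38 63 2 = true :=
  ⟨(b (a (a (b (c (b (l 16736104) (l 16739656)) (l 16731216)) (c (b (l 16733480) (l 16733016)) (l 16729104))) (b (c (b (l 16734328) (c (a (l 16734208) (l 16733448)) (l 16731704))) (b (l 16730120) (l 16728496))) (c (a (l 16732280) (b (l 16731800) (l 16731464))) (l 16727504)))) (b (c (a (b (l 16732424) (c (l 16732304) (l 16730048))) (b (l 16730488) (l 16729680))) (a (b (l 16728008) (l 16726672)) (b (l 16725864) (l 16724952)))) (c (c (a (l 16731784) (l 16730544)) (a (l 16729432) (l 16728080))) (c (l 16726328) (l 16723928))))) (a (a (b (c (b (l 16732584) (l 16732128)) (l 16727944)) (c (b (l 16734264) (c (l 16732312) (l 16729968))) (b (l 16727056) (l 16726440)))) (b (c (a (c (l 16732656) (l 16730344)) (c (b (l 16732280) (l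 16731920)) (l 16729728))) (b (l 16726768) (l 16726248))) (c (a (b (l 16730848) (l 16730392)) (b (c (l 16731544) (l 16729080)) (a (l 16730024) (l 16729744)))) (b (c (l 16726928) (l 16724488)) (c (l 16726392) (l 16723896)))))) (b (c (a (c (b (l 16731360) (l 16731056)) (l 16728752)) (c (l 16730120) (l 16727528))) (c (b (l 16725784) (l 16725384)) (l 16728296))) (c (a (b (c (l 16730728) (l 16728168)) (c (l 16730376) (l 16727752))) (c (b (l 16729720) (l 16729432)) (b (l 16727040) (l 16726688)))) (a (b (l 16724328) (c (l 16725136) (l 16722512))) (b (l 16723008) (c (l 16723936) (l 16721184)))))))), by decide +kernel⟩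

def k62_A00pm_012_s1 : ∃ t, chk3 f_A00pm_012_s1 t 38 63 3 = true :=
  ⟨(a (b (a (b (l 16725200) (l 16722816)) (b (b (l 16723800) (a (l 16722608) (l 16721520))) (c (l 16723056) (l 16718608)))) (a (b (c (l 16723512) (l 16719072)) (c (b (l 16722448) (l 16721712)) (l 16717400))) (b (c (b (l 16722136) (l 16721488)) (l 16717112)) (c (b (l 16720832) (a (l 16720536) (l 16719760))) (a (l 16716000) (b (l 16715472) (l 16714672))))))) (b (b (a (b (l 16721392) (c (l 16722176) (l 16717696))) (c (b (l 16721248) (l 16720232)) (l 16721400))) (c (l 16720328) (l 16715544))) (b (c (c (l 16720528) (l 16717992)) (l 16714200)) (c (a (b (l 16719200) (l 16718568)) (b (l 16717624) (l 16717048))) (b (l 16713128) (a (l 16713296) (l 16711520))))))), by decide +kernel⟩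

def k63_A00pm_012_s1 : ∃ t, chk3 f_A00pm_012_s1 t 39 62 1 = true :=
  ⟨(a (c (b (b (c (a (l 16740952) (l 16739208)) (l 16735760)) (c (a (l 16737728) (l 16735960)) (l 16732336))) (a (b (l 16742672) (l 16734024)) (b (l 16730288) (b (l 16727720) (l 16726000))))) (b (b (l 16739672) (l 16736024)) (b (c (l 16724208) (l 16719520)) (a (l 16719352) (l 16717000))))) (c (b (b (c (l 16736632) (l 16731872)) (a (l 16731824) (l 16730008))) (b (a (l 16728424) (b (l 16727456) (l 16725744))) (b (a (l 16725848) (c (l 16726720) (l 16721336))) (a (a (a (l 16724800) (l 16729592)) (c (l 16726400) (l 16721112))) (c (a (b (l 16725880) (l 16725536)) (b (l 16725216) (l 16725080))) (a (l 16720336) (l 16719648))))))) (b (b (l 16724648) (c (l 16723448) (l 16718456))) (b (c (l 16719800) (l 16714680)) (b (c (l 16717048) (l 16711840)) (a (c (l 16716376) (l 16711208)) (c (a (l 16714952) (l 16714136)) (l 16709168)))))))), by decide +kernel⟩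

def k64_A00pm_012_s1 : ∃ t, chk3 f_A00pm_012_s1 t 39 63 2 = true :=
  ⟨(a (b (b (a (c (b (l 16728816) (l 16728352)) (b (l 16723968) (l 16723384))) (a (c (l 16727664) (l 16722576)) (c (l 16727048) (l 16721832)))) (c (a (l 16733376) (c (l 16728416) (l 16725696))) (a (l 16722960) (l 16721632)))) (b (c (a (c (l 16729112) (l 16726392)) (a (l 16727032) (l 16731824))) (a (l 16722312) (l 16721096))) (c (a (c (b (l 16728824) (c (l 16729312) (l 16727872))) (b (l 16726000) (l 16725712))) (c (b (l 16728024) (c (l 16728616) (l 16727112))) (b (l 16725072) (l 16724848)))) (a (b (l 16721776) (l 16726632)) (b (l 16720640) (l 16720312)))))) (b (a (c (b (a (l 16726464) (l 16725984)) (c (l 16727552) (l 16724696))) (b (a (l 16721120) (l 16720496)) (l 16720424))) (c (b (a (l 16725536) (l 16725128)) (a (l 16725512) (l 16725152))) (b (a (l 16719912) (l 16719368)) (c (l 16720840) (l 16717856))))) (a (b (c (c (b (l 16727480) (l 16727424)) (l 16724464)) (l 16719984)) (c (c (b (l 16727344) (c (l 16728032) (l 16726448))) (b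 (l 16724248) (l 16724080))) (b (l 16719608) (l 16719336)))) (a (b (c (c (l 16726976) (l 16723880)) (l 16719240)) (c (c (b (l 16726920) (l 16726856)) (l 16723656)) (l 16718800))) (b (c (c (l 16726704) (l 16723528)) (l 16718776)) (c (b (c (l 16726680) (l 16723400)) (c (l 16726640) (l 16723296))) (b (l 16718488) (l 16718272)))))))), by decide +kernel⟩

def k65_A00pm_012_s1 : ∃ t, chk3 f_A00pm_012_s1 t 39 63 3 = true :=
  ⟨(b (b (a (a (c (b (l 16719144) (l 16718432)) (l 16714016)) (c (l 16717104) (l 16711992))) (a (c (l 16715416) (l 16710056)) (c (l 16713968) (l 16708344)))) (a (c (a (l 16717800) (l 16716216)) (l 16711720)) (a (c (l 16714744) (l 16709088)) (c (l 16713392) (l 16707456))))) (c (a (b (a (l 16716880) (l 16715400)) (a (b (l 16716136) (l 16715616)) (l 16714504))) (b (a (l 16714016) (l 16712744)) (a (l 16713224) (b (l 16712216) (l 16711840))))) (a (b (l 16710560) (a (l 16710160) (l 16708520))) (b (a (l 16708064) (l 16706512)) (a (l 16706968) (l 16705496)))))), by decide +kernel⟩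

def k66_A00pm_012_s1 : ∃ t, chk3 f_A00pm_012_s1 t 80 12 1 = true :=
  ⟨(b (a (b (l 3) (c (l 542505855) (l 539178367))) (b (b (l 3) (c (l 542904191) (l 539433855))) (c (l 542631039) (c (l 539340415) (l 539178879))))) (c (b (a (l 542083967) (l 542228607)) (a (b (l 541725823) (l 541463167)) (l 541768319))) (b (a (l 538948991) (l 539047551)) (a (b (l 538776191) (l 538650239)) (c (l 538892671) (l 538728575)))))), by decide +kernel⟩

def k67_A00pm_012_s1 : ∃ t, chk3 f_A00pm_012_s1 t 81 24 1 = true :=
  ⟨(a (c (b (a (b (b (a (l 3) (l 543236735)) (a (a (l 3) (b (l 3) (a (l 542007567) (l 542820879)))) (c (l 544318847) (l 542004607)))) (b (a (a (l 543007615) (a (l 543017599) (l 542486031))) (c (l 544230527) (l 541906447))) (a (l 542927887) (l 542956047)))) (b (a (l 543221375) (l 543256191)) (a (b (c (l 544259455) (l 541937023)) (l 542987135)) (b (l 543106175) (l 543018623))))) (a (a (l 542704511) (l 542733951)) (a (b (l 542854271) (l 542671231)) (b (l 542884991) (l 542702207))))) (b (a (b (c (a (a (l 3) (b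 (l 3) (c (l 540380175) (l 539598095)))) (l 539960079)) (a (a (l 3) (c (l 539551759) (l 539463439))) (l 539565839))) (a (a (l 539482751) (a (l 539489663) (b (b (l 539536911) (l 539507327)) (l 539468159)))) (c (b (l 539791119) (l 539677311)) (b (a (l 539444607) (l 539437439)) (l 539396991))))) (b (a (l 539545727) (l 539519359)) (a (b (b (l 539500415) (l 539489151)) (l 539462015)) (b (l 539468415) (l 539444863))))) (a (a (l 539327103) (l 539343119)) (a (b (l 539396623) (l 539299711)) (b (l 539388799) (l 539300735)))))) (b (b (a (a (c (b (l 543342207) (l 543239807)) (l 540296831)) (c (l 543326079) (l 539462271))) (c (b (l 543431551) (l 543327359)) (l 539413887))) (a (c (b (l 543157007) (l 542530175)) (b (l 539428991) (l 539411471))) (c (b (l 543225727) (l 543131775)) (l 539900431)))) (b (a (c (l 542931727) (c (l 539646079) (l 539310719))) (c (l 542994447) (l 539330063))) (a (c (l 542480767) (c (l 16783608) (l 539232639))) (c (l 16795256) (l 539271695)))))), by decide +kernel⟩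

def k68_A00pm_012_s1 : ∃ t, chk3 f_A00pm_012_s1 t 81 25 1 = true :=
  ⟨(a (a (c (b (l 542330127) (l 541888383)) (b (a (l 539110271) (l 539131007)) (l 538898447))) (c (b (l 542396175) (l 541965439)) (b (c (l 539199103) (l 539078015)) (l 538938127)))) (b (a (c (b (l 16784488) (l 16797816)) (c (l 539200127) (b (l 16784320) (l 16785400)))) (c (b (l 16798144) (l 16800928)) (b (l 539200015) (l 16786816)))) (a (c (l 542039679) (b (l 16786696) (l 16787648))) (c (l 16789112) (b (l 16787872) (l 16788824)))))), by decide +kernel⟩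

def k69_A00pm_012_s1 : ∃ t, chk3 f_A00pm_012_s1 t 40 13 1 = true :=
  ⟨(a (b (a (c (b (a (l 540971647) (l 541078399)) (l 538995071)) (b (b (l 538525823) (l 538407551)) (c (l 538326399) (l 538129023)))) (c (b (l 540694287) (l 539514751)) (b (c (l 538649727) (l 538475135)) (l 538340879)))) (c (a (b (l 538692223) (l 538461055)) (b (l 539002751) (l 538447375))) (b (a (b (l 538070911) (l 16785032)) (b (l 16786688) (l 16786992))) (a (b (l 16785240) (l 16785304)) (b (l 16787192) (l 16787264)))))) (c (a (b (a (b (l 541375871) (l 16793000)) (b (l 16787616) (l 16806296))) (b (b (l 16805504) (l 16804904)) (l 16791496))) (b (b (b (l 16806728) (l 16808624)) (l 16794936)) (b (l 16790296) (l 16787328)))) (b (a (a (b (l 538652799) (l 538419583)) (b (l 538699903) (l 538468735))) (b (b (c (l 16789336) (l 16788600)) (l 16789720)) (b (l 16790320) (l 16790816)))) (a (b (b (l 16788880) (l 16789176)) (c (l 16790320) (l 16788456))) (b (c (l 16792112) (l 16790576)) (c (l 16792768) (l 16790792))))))), by decide +kernel⟩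

def k70_A00pm_012_s1 : ∃ t, chk3 f_A00pm_012_s1 t 82 12 1 = true :=
  ⟨(b (a (b (a (b (c (a (l 543432575) (l 543468415)) (l 539885439)) (c (a (l 543226495) (l 543260543)) (l 539843455))) (a (b (c (l 543502975) (l 539324543)) (c (l 543293567) (l 16786608))) (b (c (l 544065151) (l 539364735)) (c (l 543320191) (l 16784592))))) (a (c (b (b (l 16794928) (l 16796384)) (l 16798552)) (b (l 539286031) (l 16785632))) (b (c (b (l 16798368) (l 16799784)) (a (l 16785240) (l 16785832))) (c (l 16801904) (l 16786768))))) (b (a (c (b (a (l 543546239) (l 543826303)) (a (l 16801480) (l 16800600))) (b (a (l 539409535) (l 539457407)) (a (l 16785256) (l 16785976)))) (c (b (a (b (l 16798952) (l 16800304)) (l 16801392)) (a (l 16802336) (l 16804072))) (b (a (l 16788672) (l 16786928)) (a (l 16786760) (l 16787600))))) (a (b (c (b (l 16801808) (l 16803192)) (l 16792064)) (c (l 16805264) (l 16788072))) (b (c (b (l 16805240) (l 16806600)) (l 16793592)) (c (l 16808632) (l 16789600)))))) (a (a (b (c (b (l 16801376) (l 16804104))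 (b (l 16786824) (l 16787952))) (c (l 16797464) (b (l 16789024) (l 16789992)))) (b (c (b (l 16804664) (l 16807336)) (b (l 16787968) (l 16789120))) (c (l 16811112) (c (l 16790912) (l 16790432))))) (a (b (c (b (l 16807976) (l 16810600)) (c (l 16791160) (l 16789696))) (c (l 16814328) (b (l 16791552) (l 16792568)))) (b (b (c (l 16811304) (l 16790808)) (l 16799752)) (c (l 16817584) (l 16793656)))))), by decide +kernel⟩

def k71_A00pm_012_s1 : ∃ t, chk3 f_A00pm_012_s1 t 82 13 1 = true :=
  ⟨(c (a (b (b (c (l 16823744) (l 16793768)) (l 16795808)) (b (l 16796600) (l 16804360))) (b (b (c (l 16831128) (l 16799176)) (l 16802248)) (b (l 16803240) (b (l 16822800) (l 16819896))))) (c (a (b (b (l 16792144) (l 16793584)) (b (l 16794712) (l 16805032))) (b (b (l 16794976) (l 16796560)) (b (l 16797456) (b (l 16796824) (l 16793552))))) (a (b (b (b (l 16790976) (l 16791616)) (l 16792392)) (b (l 16793080) (b (l 16793312) (l 16792376)))) (b (b (b (l 16793728) (l 16794400)) (l 16795232)) (b (b (l 16795816) (l 16795872))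 (b (l 16794568) (l 16790992))))))), by decide +kernel⟩

def k72_A00pm_012_s1 : ∃ t, chk3 f_A00pm_012_s1 t 166 6 1 = true :=
  ⟨(b (b (c (a (b (a (b (l 16803144) (l 16805800)) (b (l 16804888) (l 16807512))) (b (b (l 16808656) (l 16809992)) (l 16812000))) (b (a (b (l 16806608) (l 16809216)) (b (l 16808312) (l 16810904))) (a (b (l 16811856) (l 16814512)) (b (l 16813536) (l 16816192))))) (a (b (a (b (l 16787848) (l 16788512)) (b (l 16788808) (l 16789512))) (b (a (l 16789672) (l 16790648)) (l 16791352))) (b (a (b (l 16789832) (l 16790640)) (b (l 16790952) (l 16791896))) (a (b (l 16791736) (l 16792928)) (b (l 16792952) (l 16794112)))))) (b (a (b (c (l 16814640) (l 16792576)) (l 16802232)) (a (b (l 16803176) (l 16804176)) (c (l 16820128) (l 16795896)))) (a (c (l 16820880) (l 16795432)) (b (l 16805600) (l 16806040))))) (b (c (a (b (l 16825152) (l 16828280)) (b (l 16828536) (l 16831712))) (c (a (b (l 16797712) (l 16799360)) (b (l 16799872) (l 16801096))) (a (b (l 16796624) (l 16797808)) (b (l 16798584) (l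 16799352))))) (c (b (a (l 16808384) (l 16801128)) (b (l 16828864) (l 16825752))) (b (a (b (l 16799272) (l 16798080)) (b (l 16799368) (l 16795264))) (b (l 16791656) (l 16786368)))))), by decide +kernel⟩

def k73_A00pm_012_s1 : ∃ t, chk3 f_A00pm_012_s1 t 167 12 1 = true :=
  ⟨(b (b (c (c (c (a (a (b (l 16817792) (l 16821288)) (l 16821456)) (l 16824360)) (a (a (b (l 16812536) (l 16815416)) (l 16815752)) (l 16818448))) (b (a (a (l 16805112) (l 16806688)) (l 16809088)) (b (a (a (l 16806616) (l 16808176)) (l 16810560)) (a (a (l 16807616) (l 16809176)) (l 16811544))))) (b (a (a (a (l 16792040) (l 16792784)) (l 16793904)) (l 16796048)) (a (a (l 16798536) (l 16794744)) (l 16796800)))) (c (b (c (c (a (a (l 16824888) (l 16826792)) (l 16829680)) (a (a (l 16818360) (l 16820112)) (l 16822792))) (c (a (a (l 16812128) (l 16813744)) (l 16816208)) (a (a (l 16806200) (l 16807680)) (l 16809936)))) (c (c (a (a (l 16828584) (l 16830488)) (l 16833376)) (a (a (l 16821352) (l 16823112)) (l 16825776))) (c (a (a (l 16814440)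 (l 16816056)) (l 16818504)) (a (a (l 16807856) (l 16809328)) (l 16811568))))) (b (a (a (l 16794304) (l 16795696)) (l 16797672)) (a (a (l 16795424) (l 16796768)) (l 16798664))))) (b (c (c (c (c (a (a (l 16836408) (l 16838368)) (l 16841328)) (a (a (l 16832128) (l 16834008)) (l 16836856))) (c (a (a (l 16827936) (l 16829736)) (l 16832472)) (a (a (l 16823824) (l 16825552)) (l 16828176)))) (c (c (a (a (l 16819808) (l 16821456)) (l 16823968)) (a (a (l 16815872) (l 16817456)) (l 16819856))) (c (a (a (l 16812032) (l 16813544)) (l 16815832)) (a (a (l 16808280) (l 16809728)) (l 16811904))))) (a (a (c (l 16799328) (l 16796584)) (l 16798448)) (l 16800256))) (c (c (c (a (a (l 16841904) (l 16843840)) (l 16846776)) (a (a (l 16831712) (l 16833496)) (l 16836192))) (c (a (a (l 16821904) (l 16823544)) (l 16826016)) (a (a (l 16812504) (l 16814000)) (l 16816248)))) (a (a (l 16799280) (l 16800504)) (l 16802192))))), by decide +kernel⟩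

def k74_A00pm_012_s1 : ∃ t, chk3 f_A00pm_012_s1 t 334 13 1 = true :=
  ⟨(a (b (b (a (l 16807728) (l 16808448)) (b (l 16806808) (l 16804624))) (b (c (l 16834768) (l 16794280)) (b (l 16789272) (l 16784456)))) (a (b (b (l 16809176) (b (l 16807728) (l 16804872))) (b (b (l 16800648) (l 16795184)) (b (l 16788200) (l 16782344)))) (a (a (b (b (l 16809632) (b (l 16808000) (l 16804856))) (b (b (l 16800656) (l 16795208)) (b (l 16788232) (l 16781256)))) (a (b (b (l 16809776) (b (l 16808016) (l 16804832))) (b (l 16798104) (b (l 16788224) (l 16780880)))) (a (b (b (l 16809840) (b (l 16808000) (l 16804824))) (b (l 16798096) (b (l 16788224) (l 16780688)))) (b (b (l 16809880) (b (l 16807984) (l 16804816))) (b (l 16798088) (b (l 16788216) (l 16780544))))))) (b (b (b (l 16810184) (l 16809720)) (b (l 16807896) (l 16804744))) (b (b (l 16800560) (l 16795128)) (b (l 16788160) (l 16800816))))))), by decide +kernel⟩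

def k75_A00pm_012_s1 : ∃ t, chk3 f_A00pm_012_s1 t 335 13 1 = true :=
  ⟨(a (a (a (b (b (b (l 16810544) (l 16809824)) (b (l 16807680) (l 16804552))) (b (b (l 16800376) (l 16794944)) (b (l 16787984) (l 16800152)))) (b (b (a (b (l 16810712) (l 16809624)) (b (l 16810704) (l 16809288))) (b (l 16801968) (l 16798864))) (b (b (c (l 16837392) (l 16786768)) (c (l 16836648) (l 16782216))) (c (b (l 16834864) (l 16810816)) (b (l 16777552) (l 16772784)))))) (a (a (b (b (b (l 16810760) (l 16809248)) (b (l 16807024) (l 16803928))) (b (b (l 16799768) (l 16794328)) (c (l 16807488) (l 16773728)))) (a (b (b (b (l 16810896) (l 16809384)) (b (l 16807168) (l 16804072))) (b (b (l 16799912) (l 16794472)) (c (l 16807672) (l 16773792)))) (a (b (b (b (l 16810960) (l 16809448)) (b (l 16807232) (l 16804136))) (b (b (l 16799984) (l 16794544)) (c (l 16813000) (l 16773824)))) (b (b (b (l 16811008) (l 16809496)) (b (l 16807280) (l 16804184))) (b (b (l 16800032) (l 16794592)) (c (l 16813064) (l 16773840))))))) (b (b (b (l 16811216)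 (l 16809696)) (b (l 16807480) (l 16804392))) (b (b (l 16800240) (l 16794816)) (c (l 16808096) (l 16773944)))))) (b (b (b (l 16812128) (l 16810616)) (b (l 16808400) (l 16805320))) (b (b (l 16801184) (l 16795792)) (b (l 16799352) (l 16801096))))), by decide +kernel⟩

def k76_A00pm_012_s1 : ∃ t, chk3 f_A00pm_012_s1 t 21 12 1 = true :=
  ⟨(c (b (a (b (b (a (b (l 16822648) (l 16823872)) (b (l 16837736) (l 16838848))) (a (c (l 16832472) (l 16819272)) (l 16830080))) (a (b (a (l 16824696) (l 16831872)) (a (l 16827320) (l 16834448))) (b (l 16842960) (l 16845448)))) (b (b (a (l 16853976) (l 16869992)) (a (l 16856000) (l 16871880))) (b (a (l 16858216) (l 16873872)) (a (l 16860568) (l 16876072))))) (b (a (a (b (l 16833480) (l 16836080)) (b (l 16848008) (l 16850592))) (b (a (l 16863024) (l 16878416)) (a (l 16865576) (l 16880880)))) (a (a (b (l 16838616) (l 16841040)) (b (l 16853160) (l 16855648))) (b (a (l 16868144) (l 16883440)) (a (l 16870696) (l 16886024)))))) (b (a (b (a (b (a (l 16800336) (l 16806160)) (a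 (l 16800928) (l 16806544))) (b (a (l 16812112) (l 16818208)) (l 16820448))) (a (b (a (l 16801632) (l 16807032)) (a (l 16802464) (l 16807632))) (b (l 16820624) (l 16815664)))) (a (b (b (l 16827664) (l 16827304)) (b (l 16827072) (l 16826944))) (b (b (l 16840696) (l 16840072)) (b (l 16839408) (l 16838872))))) (b (a (b (a (l 16805816) (l 16816080)) (a (l 16806648) (l 16816536))) (a (b (l 16826912) (l 16827000)) (b (l 16838432) (l 16838080)))) (a (a (b (l 16807432) (l 16808144)) (b (l 16817024) (l 16817440))) (b (a (l 16827128) (l 16837848)) (a (l 16827264) (l 16837624))))))), by decide +kernel⟩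

def k77_A00pm_012_s1 : ∃ t, chk3 f_A00pm_012_s1 t 21 13 1 = true :=
  ⟨(b (b (a (a (b (c (l 16843256) (l 16807480)) (c (l 16845072) (l 16803640))) (b (c (l 16857976) (l 16816928)) (l 16830336))) (b (c (a (l 16873136) (l 16888576)) (a (l 16826800) (l 16837120))) (c (l 16882912) (l 16843816)))) (b (a (a (c (l 16846504) (l 16799336)) (l 16823000)) (c (l 16863688) (l 16843536))) (a (a (c (l 16847416) (l 16794784)) (c (l 16862528) (l 16803096))) (c (l 16865096) (a (l 16812040) (l 16821608)))))) (c (a (b (b (a (l 16847688) (l 16863080)) (a (l 16847168) (l 16862936))) (b (a (l 16803744) (l 16861928)) (a (l 16822032) (l 16817912)))) (b (b (a (l 16878968) (l 16895184)) (a (l 16879200) (l 16895784))) (b (a (l 16878672) (l 16895720)) (a (l 16877192) (l 16894824))))) (a (b (a (b (l 16790024) (l 16785120)) (b (l 16797768) (l 16792248))) (a (b (l 16780104) (l 16774984)) (b (l 16786600) (l 16780848)))) (b (a (b (l 16806144) (l 16800048)) (b (l 16815200) (l 16808512))) (b (a (l 16793768) (l 16801632)) (a (l 16787368)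 (l 16794584))))))), by decide +kernel⟩

def k78_A00pm_012_s1 : ∃ t, chk3 f_A00pm_012_s1 t 40 14 1 = true :=
  ⟨(c (b (a (a (b (l 537902719) (b (l 16788024) (l 16786336))) (b (l 16790296) (b (l 16789224) (l 16785480)))) (b (a (b (l 16795752) (l 16791832)) (b (l 16802376) (l 16795464))) (b (a (l 16789160) (l 16786816)) (l 16792808)))) (b (a (b (c (l 16781360) (l 16779424)) (a (l 16775416) (l 16773688))) (b (l 16787080) (a (l 16771792) (l 16769688)))) (a (b (b (l 16769848) (l 16766688)) (b (l 16763488) (l 16760240))) (b (a (l 16765592) (l 16763536)) (b (l 16759720) (l 16756512)))))) (b (b (a (a (b (l 16785200) (l 16784928)) (b (l 16787184) (l 16786936))) (a (b (l 16789400) (c (l 16789488) (l 16787064))) (b (l 16791056) (c (l 16789432) (l 16786768))))) (a (b (a (l 16784464) (c (l 16786664) (b (l 16785000) (l 16783824)))) (a (c (b (l 16784536) (l 16782880)) (b (l 16782032) (l 16780224))) (c (l 16782400) (l 16779592)))) (b (a (c (l 16786280) (l 16783544)) (l 16782080)) (a (l 16778552) (l 16775768)))))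 (a (b (b (a (c (l 16778080) (l 16775200)) (l 16774472)) (a (l 16769968) (l 16767696))) (b (a (l 16763008) (l 16760720)) (a (l 16755880) (l 16753584)))) (b (b (a (l 16771992) (l 16769224)) (a (l 16765216) (l 16762480))) (b (a (l 16758256) (l 16755568)) (a (l 16751144) (l 16748520))))))), by decide +kernel⟩

def k79_A00pm_012_s1 : ∃ t, chk3 f_A00pm_012_s1 t 40 30 1 = true :=
  ⟨(b (c (b (a (b (l 16756984) (l 16764216)) (b (l 16753288) (l 16760536))) (a (b (l 16760952) (c (l 16749296) (l 16745064))) (b (l 16757304) (l 16754064)))) (b (a (a (l 16748648) (l 16746352)) (a (l 16743936) (l 16741392))) (a (a (l 16741392) (l 16739088)) (a (l 16736712) (l 16734232))))) (c (b (b (a (c (l 16746144) (l 16741688)) (l 16750816)) (a (c (l 16742976) (l 16738304)) (l 16747568))) (a (c (b (l 16739784) (l 16736576)) (b (l 16734912) (l 16731496))) (b (l 16744312) (l 16733168)))) (b (a (a (l 16734112) (l 16731808)) (b (l 16730000) (l 16726400))) (a (b (l 16727440) (l 16723776)) (b (l 16722792) (c (l 16722032) (l 16716336))))))),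 by decide +kernel⟩

def k80_A00pm_012_s1 : ∃ t, chk3 f_A00pm_012_s1 t 40 62 1 = true :=
  ⟨(b (c (c (a (b (l 16733336) (a (l 16730896) (l 16729304))) (b (l 16730184) (a (l 16727760) (l 16726272)))) (a (b (l 16728056) (l 16724600)) (b (l 16724328) (a (l 16721872) (l 16720080))))) (a (b (c (l 16722760) (l 16717440)) (c (l 16719144) (l 16713688))) (b (c (l 16718488) (l 16712656)) (c (a (l 16716008) (l 16713936)) (l 16708968))))) (c (a (b (c (a (l 16727592) (b (l 16726832) (l 16725176))) (a (l 16722080) (b (l 16721096) (l 16719352)))) (a (a (b (a (l 16722920) (c (l 16725272) (l 16719656))) (c (l 16724704) (l 16719016))) (b (c (l 16724736) (l 16719024)) (c (l 16724272) (l 16718440)))) (c (b (a (l 16729400) (l 16723696)) (l 16723744)) (b (a (l 16718304) (l 16717696)) (l 16717688))))) (b (a (b (c (l 16725312) (l 16719288)) (a (c (l 16724024) (l 16717984)) (c (b (l 16723720) (l 16723128)) (l 16722472)))) (b (c (a (l 16724216) (l 16726104)) (a (l 16717968) (l 16717080))) (c (a (b (l 16723056) (l 16722792))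 (l 16722664)) (a (l 16716640) (l 16716168))))) (a (c (b (a (l 16723312) (l 16723008)) (l 16723136)) (b (l 16716960) (l 16716784))) (c (b (l 16727904) (l 16722640)) (b (l 16716120) (l 16715976)))))) (c (a (b (a (l 16716592) (l 16714480)) (a (a (b (l 16714352) (l 16713360)) (l 16713096)) (b (l 16712168) (l 16711680)))) (b (a (b (l 16713312) (l 16711568)) (b (l 16711232) (l 16710112))) (a (l 16710672) (l 16709520)))) (a (b (l 16709928) (a (b (l 16708304) (l 16707352)) (l 16706136))) (b (a (l 16706424) (l 16709720)) (a (l 16704496) (l 16703048))))))), by decide +kernel⟩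

def k81_A00pm_012_s1 : ∃ t, chk3 f_A00pm_012_s1 t 40 63 2 = true :=
  ⟨(b (a (a (c (b (a (l 16729976) (l 16724336)) (a (l 16724776) (l 16724360))) (b (a (l 16718824) (l 16718288)) (a (l 16718584) (l 16718032)))) (b (c (b (l 16723768) (l 16723776)) (l 16717520)) (c (b (l 16723776) (l 16723752)) (l 16717240)))) (b (a (c (b (l 16723136) (l 16723120)) (l 16716584)) (c (b (l 16722608) (l 16722560)) (l 16715744))) (a (c (b (l 16723096) (l 16723056)) (l 16716272)) (c (b (l 16722504) (l 16722432)) (l 16715384))))) (c (a (b (a (a (c (l 16726376) (l 16723128)) (l 16724328)) (b (l 16723720) (l 16728920))) (a (b (a (c (l 16726360) (l 16723016)) (l 16724256)) (c (a (l 16726336) (l 16725928)) (a (l 16722920) (l 16722448)))) (b (c (l 16725360) (l 16721864)) (c (a (l 16725536) (l 16725152)) (l 16721752))))) (b (a (b (l 16723000) (c (l 16724712) (l 16721144))) (b (l 16722352) (c (l 16724104) (l 16720400)))) (a (b (c (l 16724656) (l 16721032)) (c (a (l 16724792) (l 16724440)) (l 16723520))) (a (b (l 16722328) (c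 (l 16724104) (l 16720320))) (b (l 16721984) (c (l 16726400) (l 16719936))))))) (a (b (a (a (l 16718280) (l 16717720)) (l 16716904)) (a (a (a (l 16718056) (l 16717768)) (l 16717344)) (b (l 16716616) (l 16716400)))) (b (a (l 16721152) (c (l 16716808) (l 16713144))) (a (b (l 16715592) (l 16715368)) (b (l 16714632) (c (l 16716296) (l 16712480)))))))), by decide +kernel⟩

def k82_A00pm_012_s1 : ∃ t, chk3 f_A00pm_012_s1 t 40 63 3 = true :=
  ⟨(b (a (a (c (b (l 16712608) (l 16712064)) (b (l 16706712) (l 16705864))) (b (c (l 16711304) (l 16705128)) (l 16717992))) (b (c (a (l 16710080) (l 16708952)) (l 16713376)) (a (l 16716616) (l 16715312)))) (a (a (b (c (l 16711464) (l 16704960)) (c (b (l 16710968) (l 16710616)) (l 16703984))) (b (c (l 16710128) (l 16703368)) (c (l 16709448) (l 16702400)))) (b (c (a (l 16708864) (l 16707672)) (l 16711560)) (a (c (l 16708176) (l 16700872)) (c (l 16706952) (l 16699400)))))), by decide +kernel⟩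

def k83_A00pm_012_s1 : ∃ t, chk3 f_A00pm_012_s1 t 82 14 1 = true :=
  ⟨(b (b (b (a (c (l 16808920) (l 16790752)) (c (l 16814888) (l 16786600))) (c (l 16794040) (a (l 16784864) (l 16780840)))) (c (b (a (l 16791448) (l 16798280)) (a (l 16778832) (l 16785568))) (b (a (l 16778824) (l 16774880)) (a (l 16772560) (l 16768728))))) (c (b (b (a (l 16773176) (l 16770216)) (a (l 16767304) (l 16764488))) (b (a (l 16761248) (l 16763832)) (a (l 16755032) (l 16763016)))) (b (b (a (l 16766080) (l 16762376)) (a (l 16759416) (l 16755864))) (b (a (l 16752608) (l 16749216)) (a (l 16745664) (l 16742456)))))), by decide +kernel⟩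

def k84_A00pm_012_s1 : ∃ t, chk3 f_A00pm_012_s1 t 82 30 1 = true :=
  ⟨(a (c (b (b (l 16748728) (l 16752872)) (b (l 16746512) (b (l 16731224) (l 16728016)))) (b (b (l 16738656) (l 16731624)) (b (l 16724584) (b (l 16719280) (l 16715752))))) (c (b (b (l 16756888) (l 16750736)) (b (l 16744544) (b (l 16729376) (l 16726256)))) (b (b (l 16735632) (l 16728800)) (b (l 16721944) (b (l 16716792) (l 16713360)))))), by decide +kernel⟩

def k85_A00pm_012_s1 : ∃ t, chk3 f_A00pm_012_s1 t 82 62 1 = true :=
  ⟨(c (b (b (a (b (l 16725608) (l 16723992)) (b (l 16723912) (l 16727584))) (a (b (c (l 16725616) (l 16719152)) (c (l 16724032) (l 16717488))) (b (c (l 16724176) (l 16717384)) (c (a (l 16725632) (l 16725256)) (a (l 16716216) (l 16715664)))))) (a (b (c (b (a (b (l 16723208) (l 16722616)) (b (l 16722616) (l 16722376))) (a (l 16722432) (l 16722312))) (b (a (b (l 16716672) (l 16716032)) (l 16715832)) (l 16715624))) (c (b (l 16727560) (l 16722256)) (b (l 16715456) (l 16715280)))) (b (c (a (b (l 16722352) (l 16722224))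 (l 16727472)) (a (l 16720624) (l 16715112))) (c (a (l 16722096) (l 16722008)) (a (l 16714936) (l 16714680)))))) (b (a (b (l 16712224) (c (l 16711880) (l 16705512))) (a (b (l 16710536) (c (l 16710328) (l 16703744))) (b (l 16709376) (c (l 16714704) (l 16702728))))) (a (b (c (b (l 16714840) (l 16708960)) (l 16702872)) (c (l 16708528) (l 16701752))) (b (c (a (l 16708520) (l 16708088)) (l 16701520)) (c (l 16707640) (l 16700552)))))), by decide +kernel⟩

def k86_A00pm_012_s1 : ∃ t, chk3 f_A00pm_012_s1 t 82 63 1 = true :=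
  ⟨(c (b (a (b (c (b (l 16722184) (l 16722096)) (l 16715000)) (c (b (l 16722008) (l 16721896)) (l 16714584))) (b (c (a (l 16721888) (l 16721744)) (l 16714360)) (c (a (l 16721632) (l 16721440)) (l 16724360)))) (b (a (c (b (l 16721776) (c (l 16723568) (l 16719736))) (c (l 16716016) (l 16712224))) (c (c (l 22) (a (l 16719376) (l 16719104))) (c (l 16715304) (l 16711376)))) (b (a (c (a (l 16721664) (l 16726608)) (l 16713736)) (c (a (l 16726320) (l 16726048)) (l 16718152))) (c (c (a (a (b (l 16723504) (l 16723440)) (l 22)) (l 22)) (a (a (l 16719560) (l 16719208)) (a (l 16718872) (l 16718544)))) (a (c (l 16715432) (l 16711496)) (a (l 16712816) (l 16712392))))))) (b (a (c (b (l 16707912) (l 16707248)) (l 16700440)) (c (b (l 16706968) (l 16706248)) (l 16699176))) (b (a (c (l 16706544) (l 16699000)) (c (l 16705496) (l 16697672))) (a (c (l 16705784) (l 16697976)) (c (b (l 16704888) (l 16704472)) (l 16696616)))))), by decide +kernel⟩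

def k87_A00pm_012_s1 : ∃ t, chk3 f_A00pm_012_s1 t 83 28 1 = true :=
  ⟨(c (a (b (b (l 16821032) (l 16814320)) (b (l 16784208) (a (l 16791288) (l 16795016)))) (b (b (a (l 16804544) (a (a (a (l 16827040) (l 16806184)) (l 16827704)) (l 16829280))) (a (l 16803256) (a (a (a (l 16820544) (a (l 16820632) (l 16820632))) (l 16821192)) (l 16822856)))) (b (a (a (l 16809496) (l 16810968)) (a (a (a (l 16811752) (a (l 16811832) (l 16811808))) (l 16812408)) (l 16814184))) (a (a (l 16797728) (l 16799312)) (a (a (a (l 16800152) (a (l 16800224) (l 16800200))) (l 16800840)) (l 16802752)))))) (a (b (b (l 16780912) (l 16775312)) (b (l 16769560) (l 16763640))) (b (a (b (l 16774248) (l 16768936)) (b (c (l 16781496) (l 16777752)) (c (l 16776624) (l 16772528)))) (b (a (l 16763512) (a (c (l 16771424) (l 16756536)) (l 16757144))) (a (l 16757944) (a (c (l 16766368) (l 16751136)) (l 16752016))))))), by decide +kernel⟩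

def k88_A00pm_012_s1 : ∃ t, chk3 f_A00pm_012_s1 t 83 29 1 = true :=
  ⟨(c (a (b (b (c (l 16822624) (l 16764160)) (a (l 16762008) (l 16759840))) (b (c (l 16789528) (l 16752648)) (c (l 16775704) (l 16746688)))) (b (a (b (a (l 16782488) (l 16784232)) (a (l 16763048) (l 16786000))) (b (a (a (a (l 16785160) (a (l 16785248) (b (l 16789312) (l 16780872)))) (l 16785920)) (l 16788008)) (a (a (a (l 16787056) (a (l 16787168) (c (l 16818824) (l 16749568)))) (l 16787936)) (l 16790240)))) (a (b (a (l 16752456) (l 16782080)) (a (l 16746936) (l 16776776))) (b (a (a (a (l 16791008) (a (l 16790120) (b (l 16790696) (l 16788104)))) (l 16789056)) (l 16789312)) (a (a (c (a (l 16778032) (a (l 16778384) (l 16778552))) (l 16750760)) (l 16784176)) (l 16784384)))))) (c (a (b (b (l 16759824) (l 16753760)) (b (l 16747568) (l 16741256))) (b (a (a (l 16753376) (l 16751032)) (a (b (l 16761176) (l 16755848)) (l 16746784))) (b (a (l 16743192) (l 16750520)) (a (l 16737304) (l 16744960))))) (a (b (b (l 16755184) (l 16748792)) (b (l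 16742296) (l 16735704))) (b (b (a (l 16749736) (l 16756216)) (a (l 16743752) (l 16740064))) (b (a (l 16737664) (l 16734304)) (a (l 16731488) (l 16728472))))))), by decide +kernel⟩

def k89_A00pm_012_s1 : ∃ t, chk3 f_A00pm_012_s1 t 83 30 1 = true :=
  ⟨(c (c (a (b (b (l 16746344) (l 16740688)) (b (l 16734992) (b (l 16730672) (l 16727776)))) (b (b (a (l 16745208) (a (a (a (l 16749064) (a (l 16749504) (l 16791672))) (l 16750936)) (l 16754184))) (a (l 16738216) (a (b (l 16742872) (l 16740408)) (l 16735840)))) (b (a (l 16732920) (b (l 16732760) (l 16735528))) (a (a (l 16728024) (l 16727288)) (a (a (a (l 16726712) (b (l 16727568) (a (l 16725080) (l 16724896)))) (l 16725992)) (l 16726040)))))) (b (b (a (l 16740664) (a (l 16737432) (l 16745640))) (a (l 16734624) (a (l 16731816) (l 16740352)))) (a (b (l 16728560) (b (l 16723976) (l 16720920))) (b (a (l 16726168) (b (l 16725872) (l 16728472))) (a (a (l 16721000) (l 16720160)) (a (a (a (l 16719512) (a (l 16719128) (b (l 16720184) (l 16717584)))) (l 16718720))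 (l 16718696))))))) (b (a (b (l 16732000) (l 16725488)) (b (a (l 16728328) (b (l 16737648) (l 16734784))) (a (l 16722256) (a (b (l 16731928) (l 16729072)) (l 16719184))))) (c (a (b (l 16722152) (b (l 16717344) (l 16714136))) (b (a (l 16719480) (b (l 16719056) (b (l 16716952) (l 16726064)))) (a (a (l 16714072) (l 16713136)) (a (a (a (l 16712432) (a (l 16712024) (b (l 16713136) (l 16710408)))) (l 16711576)) (l 16711488))))) (b (a (l 16715768) (a (l 16712856) (a (a (a (l 16711424) (l 16710736)) (l 16710296)) (l 16710192)))) (a (l 16709112) (a (a (l 16707232) (l 16706224)) (a (a (a (l 16705464) (a (l 16705048) (b (l 16706216) (l 16703360)))) (l 16704568)) (l 16704416)))))))), by decide +kernel⟩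

def k90_A00pm_012_s1 : ∃ t, chk3 f_A00pm_012_s1 t 83 62 2 = true :=
  ⟨(c (a (b (b (a (l 16725344) (l 16724464)) (a (b (l 16723144) (l 16722496)) (b (l 16722880) (l 16722520)))) (b (a (l 16722232) (l 16722280)) (a (l 16721952) (l 16721936)))) (a (b (a (b (l 16723888) (l 16722728)) (b (l 16723728) (l 16722880))) (a (l 16722184) (l 16727512))) (b (a (a (a (l 16723384) (a (l 16723416) (l 16723384))) (l 16723416)) (l 16723408)) (a (a (a (l 16722336) (b (l 16722632) (a (l 16722120) (l 16722152)))) (l 16722440)) (l 16722408))))) (a (b (b (a (l 16718416) (l 16717344)) (a (b (l 16716088) (l 16715352)) (b (l 16715648) (l 16715192)))) (b (a (l 16714936) (l 16714808)) (a (l 16714456) (l 16714280)))) (a (b (a (b (l 16716632) (l 16715304)) (b (a (l 16716336) (l 16716232)) (l 16715344))) (a (l 16714480) (l 16714472))) (b (a (a (a (l 16715872) (a (l 16715872) (l 16715824))) (l 16715824)) (l 16715760)) (a (a (a (l 16714480) (a (l 16714504) (l 16714536))) (l 16714512)) (l 16714424)))))), by decide +kernel⟩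

def k91_A00pm_012_s1 : ∃ t, chk3 f_A00pm_012_s1 t 166 63 2 = true :=
  ⟨(b (b (a (c (l 16721632) (l 16713944)) (c (l 16721560) (l 16713712))) (a (c (l 16721280) (l 16713392)) (c (l 16721152) (l 16713112)))) (b (c (c (l 22) (a (l 16718856) (l 16718640))) (a (l 16712800) (l 16712472))) (b (c (c (l 22) (a (l 16718496) (l 16718232))) (a (l 16712320) (l 16711960))) (c (c (l 22) (a (l 16718240) (a (l 16718016) (l 16717872)))) (a (l 16711992) (c (l 16713720) (l 16709496))))))), by decide +kernel⟩

def k92_A00pm_012_s1 : ∃ t, chk3 f_A00pm_012_s1 t 167 126 2 = true :=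
  ⟨(c (a (b (a (l 16721528) (l 16721552)) (a (l 16721064) (l 16726288))) (b (a (a (a (l 16721568) (a (l 16721600) (l 16732112))) (l 16721616)) (l 16721560)) (c (l 22) (a (a (a (l 16718960) (a (l 16718968) (l 16724216))) (l 16718952)) (l 16718872))))) (a (a (l 16713256) (a (l 16713184) (l 16713144))) (a (a (a (l 16713128) (a (l 16713128) (b (l 16713480) (l 16723232)))) (l 16713096)) (l 16712984)))), by decide +kernel⟩

def k93_A00pm_012_s1 : ∃ t, chk3 f_A00pm_012_s1 t 167 127 2 = true :=
  ⟨(a (a (b (c (b (l 16720688) (l 16720424)) (l 16712232)) (c (c (l 22) (b (l 16718040) (l 16717736))) (a (l 16716792) (l 16716704)))) (a (b (c (l 16725752) (l 16712120)) (b (c (l 16725320) (l 16711560)) (c (c (l 22) (l 16717632)) (l 16711176)))) (a (c (c (l 22) (b (l 16718376) (a (l 16717752) (l 16717736)))) (b (l 16712064) (l 16716552))) (c (b (l 16725712) (b (l 16720016) (c (l 22) (l 16717544)))) (b (l 16712032) (l 16716504)))))) (a (a (c (b (c (l 22) (c (l 22) (a (l 16717288) (a (l 16717280) (a (a (l 16717280)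 (l 16717280)) (l 16717272)))))) (c (l 22) (c (l 22) (c (l 22) (a (l 16716072) (a (l 16716048) (a (a (l 16716040) (b (l 16716216) (l 16715848))) (l 16716032)))))))) (b (a (l 16712008) (a (l 16711992) (a (a (l 16711984) (l 16711984)) (l 16711976)))) (a (b (l 16711416) (l 16711016)) (a (b (l 16711392) (l 16710984)) (a (a (c (l 16713344) (l 16709024)) (c (b (l 16713528) (l 16718376)) (l 16709024))) (l 16711168)))))) (a (a (b (c (l 16725696) (l 16711960)) (c (c (l 22) (l 16717640)) (l 16711152))) (a (b (c (l 16720440) (l 16711944)) (c (c (l 22) (l 16717632)) (l 16711136))) (a (b (c (l 16720440) (l 16711936)) (c (c (l 22) (l 16717624)) (l 16711128))) (b (c (l 16720432) (l 16711936)) (c (c (l 22) (l 16717616)) (l 16711120)))))) (b (c (l 16725664) (l 16711912)) (c (c (l 22) (l 16717600)) (l 16711096))))) (b (c (b (l 16720512) (l 16720192)) (l 16711808)) (c (b (l 16725104) (c (l 22) (l 16717336))) (c (l 16713160) (l 16708808)))))), by decide +kernel⟩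

def k94_A00pm_012_s1 : ∃ t, chk3 f_A00pm_012_s1 t 83 31 3 = true :=
  ⟨(c (b (a (b (b (a (l 16711576) (l 16710336)) (a (l 16714056) (l 16708344))) (b (a (l 16707744) (l 16707440)) (l 16706888))) (a (b (b (a (l 16709496) (l 16709136)) (l 16718464)) (a (l 16706872) (l 16706768))) (b (a (a (a (l 16708488) (a (l 16708464) (l 16708392))) (l 16708368)) (l 16708240)) (a (a (a (l 16706720) (a (l 16706728) (l 16706736))) (l 16706688)) (l 16706544))))) (a (b (b (l 16706144) (l 16705360)) (b (a (l 16704744) (l 16704272)) (a (l 16703888) (l 16703384)))) (b (a (a (l 16705256) (l 16705096)) (a (a (a (l 16704992) (a (l 16704976) (l 16715456))) (l 16704912)) (l 16704744))) (b (a (a (l 16703928) (l 16703728)) (a (a (a (l 16703584) (a (l 16703552) (l 16703536))) (l 16703464)) (l 16703288))) (a (a (l 16703008) (l 16713264)) (a (a (a (l 16702616) (a (l 16702576) (a (a (l 16702552) (l 16702544)) (l 16702536)))) (l 16702464)) (l 16702280))))))) (b (a (b (b (a (l 16704824) (l 16703432)) (a (l 16701920) (l 16701280)))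 (b (l 16700408) (l 16699472))) (b (a (a (l 16707032) (a (l 16701488) (l 16701352))) (a (a (a (l 16701224) (a (l 16701176) (l 16701088))) (l 16701032)) (l 16700840))) (a (l 16709768) (a (a (a (l 16699056) (l 16720016)) (l 16698968)) (l 16698760))))) (a (b (a (l 16698280) (l 16697720)) (b (l 16696440) (l 16705824))) (b (a (a (l 16697312) (l 16697072)) (a (a (a (l 16696920) (a (l 16696888) (l 16696864))) (l 16696784)) (l 16696560))) (a (a (l 16695112) (a (l 16694880) (l 16694736))) (a (a (a (l 16694632) (a (l 16694584) (b (l 16695128) (l 16693928)))) (l 16694448)) (l 16694224))))))), by decide +kernel⟩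

def k95_A00pm_012_s1 : ∃ t, chk3 f_A00pm_012_s1 t 21 14 1 = true :=
  ⟨(b (c (b (a (b (a (l 16817904) (l 16814536)) (a (b (l 16834640) (l 16831200)) (l 16830552))) (b (a (l 16832608) (l 16892888)) (a (l 16828552) (l 16847760)))) (a (b (a (b (l 16827200) (l 16822584)) (b (l 16846568) (l 16842584))) (a (b (l 16817288) (l 16811256)) (b (l 16837992) (l 16832736)))) (b (a (l 16822784) (l 16843032)) (a (c (l 16900408) (l 16813520)) (l 16836432))))) (a (b (b (a (l 16769784) (l 16775008)) (a (l 16764496) (l 16769080))) (b (a (l 16759144) (l 16763088)) (a (l 16753680) (l 16757008)))) (b (b (a (l 16780872) (l 16787424)) (a (l 16774296) (l 16780184))) (b (c (l 16773752) (l 16766440)) (c (l 16766840) (l 16759248)))))) (c (a (a (b (b (b (l 16804400) (l 16796648)) (b (l 16787920) (l 16788600))) (b (a (l 16785744) (l 16789024)) (b (l 16787000) (l 16784360)))) (b (b (b (l 16826744) (l 16819960)) (c (l 16819264) (l 16755160))) (b (b (l 16793976) (l 16783136)) (b (l 16771032) (l 16799480))))) (b (b (a (b (l 16807400)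 (l 16801504)) (l 16822336)) (a (c (l 16886184) (l 16780224)) (b (l 16819216) (l 16812696)))) (b (a (b (l 16820768) (l 16811272)) (c (l 16901480) (l 16785216))) (a (b (l 16800640) (l 16788784)) (b (l 16787816) (l 16819400)))))) (b (a (a (b (l 16748096) (l 16742408)) (b (l 16750824) (l 16744560))) (b (c (l 16759856) (l 16751992)) (c (l 16752792) (l 16744680)))) (a (b (c (l 16740632) (l 16733992)) (c (l 16734640) (l 16727744))) (b (c (l 16745680) (l 16737320)) (c (l 16738528) (l 16729944))))))), by decide +kernel⟩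

def k96_A00pm_012_s1 : ∃ t, chk3 f_A00pm_012_s1 t 21 30 1 = true :=
  ⟨(b (c (a (b (a (b (l 16781712) (l 16737128)) (a (l 16781952) (l 16784952))) (c (b (a (l 16749520) (l 16786608)) (l 16735248)) (l 16735328))) (b (a (c (l 16798512) (l 16738968)) (c (l 16872488) (l 16741704))) (c (a (l 16815848) (l 16851472)) (l 16738624)))) (a (b (a (l 16724904) (l 16725384)) (b (l 16720456) (l 16717400))) (b (a (l 16726336) (l 16727808)) (c (l 16724272) (l 16715256))))) (c (b (a (b (c (l 16733584) (l 16725800)) (c (l 16730864) (l 16722936))) (b (c (l 16770928) (l 16728272)) (c (l 16754840) (l 16724864)))) (a (b (a (l 16723848) (l 16724496)) (a (b (l 16721824) (l 16720488)) (b (l 16722280) (l 16720800)))) (b (a (l 16725592) (l 16727184)) (a (b (l 16723184) (l 16721560)) (b (l 16724560) (l 16722816)))))) (b (a (a (l 16723656) (l 16712624)) (b (l 16714368) (l 16710792))) (a (b (a (l 16708760) (l 16707848)) (a (c (l 16709576) (l 16702048)) (c (l 16708800) (l 16700528)))) (b (a (l 16707336) (l 16707288)) (a (c (l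 16708432) (l 16699384)) (c (l 16708536) (l 16698696)))))))), by decide +kernel⟩

def k97_A00pm_012_s1 : ∃ t, chk3 f_A00pm_012_s1 t 21 62 1 = true :=
  ⟨(c (a (b (a (b (c (l 16723712) (l 16715752)) (l 16724304)) (b (l 16719816) (l 16719008))) (b (a (l 16723616) (l 16718176)) (a (c (l 16721896) (l 16713480)) (c (l 16721888) (l 16712808))))) (b (a (b (c (l 16725120) (l 16715592)) (l 16719360)) (b (c (l 16719808) (l 16716168)) (l 16720128))) (b (a (l 16718376) (l 16718952)) (c (a (l 16722264) (l 16723024)) (a (l 16712480) (l 16712520)))))) (a (b (a (b (c (l 16707936) (l 16700264)) (l 16713576)) (b (c (l 16706904) (l 16698504)) (l 16712088))) (a (c (l 16705656) (l 16697528)) (c (l 16704360) (l 16695576)))) (b (a (b (c (l 16706248) (l 16697088)) (c (l 16705120) (l 16695840))) (b (c (l 16706032) (l 16696096)) (c (l 16704736) (l 16694704)))) (a (c (l 16713896) (l 16693936)) (c (l 16713304) (l 16692640)))))), by decide +kernel⟩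

def k98_A00pm_012_s1 : ∃ t, chk3 f_A00pm_012_s1 t 21 63 1 = true :=
  ⟨(c (a (b (b (a (c (b (l 16721408) (l 16721072)) (l 16712688)) (c (l 16721072) (l 16711872))) (a (c (a (l 16720768) (l 22)) (l 16717104)) (c (l 22) (l 16710928)))) (b (a (a (c (c (l 22) (l 16717920)) (l 16711384)) (c (l 22) (l 16710792))) (c (l 22) (a (l 16710264) (l 16715048)))) (c (c (l 22) (a (a (b (l 16717368) (b (l 16717080) (l 16716896))) (l 22)) (l 22))) (a (a (b (l 16710744) (c (l 16712536) (l 16708080))) (b (l 16710112) (c (l 16711944) (l 16707360)))) (a (b (l 16709544) (c (l 16711416) (l 16706696))) (b (l 16709040) (c (l 16713576) (l 16706096)))))))) (b (c (b (a (l 16721264) (l 16721824)) (l 22)) (b (a (l 16711400) (l 16711280)) (a (l 16720800) (b (l 16710328) (l 16709688))))) (c (l 22) (c (c (l 22) (a (b (l 16713064) (b (l 16709608) (a (l 16709304) (l 22)))) (l 22))) (a (b (l 16706696) (b (l 16705832) (a (l 16705560) (l 16705080)))) (b (b (l 16706408) (l 16705752)) (b (a (l 16705304) (l 16705000)) (a (l 16704664) (l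 16704320))))))))) (a (b (a (c (b (l 16704208) (l 16703216)) (l 16695224)) (c (b (l 16702760) (l 16701680)) (l 16693136))) (a (b (c (l 16702192) (l 16693408)) (c (a (l 16701664) (l 16700760)) (l 16692152))) (b (c (l 16700576) (l 16691232)) (c (a (l 16699912) (l 16699120)) (l 16689928))))) (b (a (c (b (l 16701640) (l 16700448)) (l 16691328)) (c (b (l 16700848) (l 16699512)) (l 16689816))) (a (b (c (l 16704464) (l 16689304)) (c (c (b (l 16700808) (l 16700200)) (l 16695472)) (l 16687928))) (b (c (c (l 16700800) (l 16695528)) (l 16687640)) (a (c (c (l 16699736) (l 16694496)) (l 16686632)) (c (c (l 16699272) (l 16693888)) (l 16685808)))))))), by decide +kernel⟩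

def k99_A00pm_012_s1 : ∃ t, chk3 f_A00pm_012_s1 t 11 12 1 = true :=
  ⟨(c (a (b (a (b (b (l 16873176) (a (l 16887952) (l 16904040))) (b (a (l 16889840) (l 16905880)) (a (l 16891840) (l 16907808)))) (b (b (l 16925640) (l 16927696)) (b (l 16929704) (l 16889672)))) (a (b (a (b (l 16894064) (l 16896440)) (b (l 16909864) (l 16912136))) (b (a (l 16898936) (l 16914576)) (a (l 16901536) (l 16917136)))) (b (b (l 16912696) (l 16925360)) (a (l 16926280) (l 16947144))))) (b (a (b (l 16956912) (l 16919464)) (b (l 16985088) (l 16990304))) (a (b (a (l 16958152) (l 16973432)) (a (l 16962744) (l 16978040))) (b (l 16995336) (a (l 16993024) (l 17007640)))))) (a (b (a (b (a (b (l 16854216) (l 16853384)) (l 16857208)) (a (b (l 16852448) (l 16851472)) (b (l 16866216) (l 16865280)))) (b (b (l 16889688) (l 16889016)) (a (l 16880368) (l 16895216)))) (a (b (a (b (l 16850624) (l 16849872)) (b (l 16864296) (l 16863344))) (a (b (l 16849200) (l 16848624)) (b (l 16862344) (l 16861216)))) (b (a (l 16878400) (l 16893168)) (a (l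 16881416) (l 16890880))))) (b (b (a (a (l 16911360) (l 16925776)) (l 16946848)) (a (l 16896312) (l 16946192))) (a (b (a (l 16908088) (l 16923072)) (a (l 16905928) (l 16920984))) (b (l 16945048) (l 16943360)))))), by decide +kernel⟩

def k100_A00pm_012_s1 : ∃ t, chk3 f_A00pm_012_s1 t 11 13 1 = true :=
  ⟨(a (b (b (a (c (b (a (l 16904160) (l 16919808)) (a (l 16906512) (l 16922320))) (b (a (l 16847944) (l 16859896)) (a (l 16844744) (l 16857120)))) (b (c (l 16943240) (l 16881592)) (a (c (l 16938088) (l 16872048)) (c (l 16953744) (l 16887160))))) (a (c (b (l 16916424) (l 16918240)) (a (l 16856184) (l 16859320))) (c (b (l 16948216) (l 16950376)) (a (l 16874656) (l 16879832))))) (c (a (b (b (l 16898784) (l 16878944)) (b (l 16879552) (a (l 16912560) (l 16930280)))) (b (b (l 16952416) (l 16954200)) (b (l 16913680) (l 16914624)))) (b (a (b (l 16841592) (l 16838800)) (a (l 16851144) (l 16867424))) (a (b (a (l 16810184) (l 16822064)) (a (l 16802520) (l 16811608))) (b (l 16847376) (l 16837976)))))) (b (a (b (a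 (c (l 16967864) (l 16903160)) (c (l 16983168) (l 16918432))) (a (c (l 16972944) (l 16895728)) (c (l 16988392) (b (l 16914368) (l 16908968))))) (b (a (c (l 16998304) (l 16933808)) (c (l 17013008) (l 16948928))) (b (c (l 17009800) (l 16980144)) (a (l 16984864) (l 16979400))))) (b (b (a (c (l 16984288) (l 16937064)) (c (l 17014984) (l 16927712))) (a (c (l 16986624) (l 16930704)) (c (l 17017752) (l 16922000)))) (b (a (c (l 16988784) (l 16923600)) (c (l 17020456) (l 16915720))) (a (c (l 16990616) (l 16915504)) (c (l 17023040) (l 16908760))))))), by decide +kernel⟩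

def k101_A00pm_012_s1 : ∃ t, chk3 f_A00pm_012_s1 t 22 14 1 = true :=
  ⟨(b (c (a (b (b (a (l 16911320) (l 16929680)) (a (l 16867008) (l 16928096))) (b (a (l 16863272) (l 16841408)) (a (l 16857864) (l 16837120)))) (b (b (l 16914928) (l 16914424)) (b (a (l 16945104) (l 16964536)) (a (l 16857968) (l 16962256))))) (c (b (a (b (l 16801448) (l 16789968)) (b (l 16859008) (l 16849472))) (a (b (a (l 16787176) (l 16807496)) (l 16781072)) (b (l 16838136) (l 16793216)))) (b (a (b (l 16794072) (l 16785712)) (b (l 16810376) (l 16800784))) (a (b (l 16777272) (l 16768760)) (b (l 16791000) (l 16781072)))))) (c (a (a (b (b (l 16850440) (l 16819648)) (b (b (l 16831424) (l 16824288)) (b (l 16816264) (l 16807280)))) (b (b (l 16831024) (l 16822800)) (b (l 16833000) (l 16808728)))) (b (b (a (l 16853112) (l 16874664)) (a (l 16846352) (l 16869264))) (b (a (l 16837336) (l 16861856)) (a (l 16825624) (l 16852056))))) (b (a (b (c (l 16769888) (l 16760176)) (c (l 16761480) (l 16751560))) (b (c (l 16787760) (l 16771104)) (c (l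 16768912) (l 16761096)))) (a (b (c (l 16753064) (l 16742936)) (c (l 16744640) (l 16734312))) (b (c (l 16767640) (l 16751096)) (c (l 16753256) (l 16741120))))))), by decide +kernel⟩

def k102_A00pm_012_s1 : ∃ t, chk3 f_A00pm_012_s1 t 23 14 1 = true :=
  ⟨(c (a (b (b (b (l 16991992) (l 16992776)) (b (l 16908912) (l 16907960))) (b (b (l 16905824) (l 16881304)) (b (c (l 17034632) (l 16843504)) (c (l 17032048) (l 16831568))))) (b (b (b (l 17025352) (l 17027248)) (b (l 17028584) (l 17029184))) (b (a (l 16934688) (l 16954008)) (b (l 16940816) (l 16936512))))) (b (b (a (b (l 16906216) (l 16885016)) (a (l 16908288) (l 16905752))) (b (a (a (l 16830880) (l 16851368)) (l 16881472)) (a (a (l 16815824) (l 16837560)) (l 16890400)))) (b (a (b (a (l 16798304) (l 16821528)) (c (l 16839072) (l 16773536))) (c (b (l 16898368) (l 16885904)) (b (l 16812736) (l 16792736)))) (a (b (c (l 16820864) (l 16762072)) (c (l 16757472) (l 16750648))) (c (b (l 16871152) (l 16853752)) (b (l 16776136) (l 16763160))))))), by decide +kernel⟩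

def k103_A00pm_012_s1 : ∃ t, chk3 f_A00pm_012_s1 t 11 30 1 = true :=
  ⟨(a (b (a (a (c (b (l 16791800) (c (l 16885640) (l 16737264))) (b (l 16729824) (l 16721728))) (c (b (l 16801864) (l 16780272)) (b (l 16732400) (l 16723696)))) (c (b (a (l 16810768) (l 16839456)) (a (l 16792168) (l 16823560))) (b (c (l 16743536) (l 16731240)) (c (l 16733928) (l 16721480))))) (b (c (c (a (a (l 16862968) (l 16899192)) (l 16866120)) (a (l 16730784) (l 16738480))) (a (b (l 16716360) (l 16712208)) (b (l 16720504) (l 16715744)))) (b (c (c (a (l 16778160) (l 16936392)) (a (l 16724808) (l 16723840))) (a (a (l 16707712) (l 16708640)) (a (l 16710104) (l 16712120)))) (c (c (a (l 16721400) (l 16841904)) (a (a (l 16719976) (l 16721880)) (l 16725992))) (a (b (l 16710248) (c (l 16708520) (l 16697440))) (a (l 16705552) (l 16702008))))))) (c (b (c (a (b (l 17027592) (l 17020928)) (l 17073480)) (a (b (l 16816840) (l 16798824)) (b (l 16953840) (l 16940392)))) (c (a (b (l 17011584) (l 16998944)) (l 17062960)) (a (b (l 16776936) (b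 (l 16841408) (l 16742960))) (b (l 16839976) (b (l 16909096) (l 16897968)))))) (b (a (b (c (l 16753256) (l 16739328)) (c (l 16744680) (l 16728160))) (b (c (l 16833320) (l 16750312)) (c (l 16809360) (l 16737624)))) (b (a (c (l 16731552) (l 16717160)) (c (l 16739336) (l 16725128))) (a (b (c (l 16723480) (l 16709016)) (c (l 16718144) (l 16703632))) (b (c (l 16757096) (l 16715880)) (c (l 16697352) (l 16709776)))))))), by decide +kernel⟩

def k104_A00pm_012_s1 : ∃ t, chk3 f_A00pm_012_s1 t 22 62 1 = true :=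
  ⟨(c (b (c (a (a (b (l 16724952) (l 16706624)) (l 16719640)) (a (l 16720336) (l 16844128))) (b (a (a (l 16717208) (l 16718744)) (a (l 16720792) (l 16707104))) (a (a (l 16715752) (l 16717008)) (l 16719752)))) (a (a (b (l 16719928) (c (l 16726624) (l 16712912))) (c (b (l 16736192) (l 16716912)) (l 16714536))) (a (b (l 16720608) (c (l 16766256) (l 16714888))) (c (b (l 16909816) (l 16812048)) (l 16717640))))) (a (b (b (a (c (l 16706256) (l 16695536)) (c (l 16706960) (l 16695424))) (a (c (l 16704752) (l 16693968)) (l 16709888))) (a (c (l 16713064) (l 16691688)) (c (l 16702736) (l 16691112)))) (b (b (a (c (l 16708160) (l 16695792)) (c (l 16709888) (l 16696672))) (a (l 16710408) (l 16700928))) (a (c (l 16703304) (l 16690928)) (c (l 16704304) (l 16691168)))))), by decide +kernel⟩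

def k105_A00pm_012_s1 : ∃ t, chk3 f_A00pm_012_s1 t 22 63 1 = true :=
  ⟨(c (a (a (c (b (b (l 16722712) (l 22)) (l 22)) (a (c (b (b (l 16714184) (l 22)) (l 22)) (b (l 16708000) (b (l 16705848) (b (l 16704760) (b (l 16704216) (l 16703848)))))) (b (b (l 16711608) (l 22)) (l 22)))) (b (b (c (c (l 16754688) (l 16720960)) (l 16712024)) (l 22)) (l 22))) (b (b (a (c (l 16737528) (l 16712952)) (c (l 16754624) (l 16714280))) (l 22)) (l 22))) (a (b (a (c (b (l 16700360) (l 16698872)) (l 16693848)) (b (c (l 16700216) (l 16688552)) (c (l 16698544) (l 16686840)))) (a (b (c (b (l 16697744) (l 16696984)) (l 16686248)) (c (b (c (l 16699016) (l 16693424)) (c (a (l 16698488) (l 16698128)) (l 16692648))) (c (l 16687448) (l 16681856)))) (b (c (b (l 16697272) (l 16696424)) (l 16685112)) (c (b (c (l 16698520) (l 16692632)) (c (a (l 16697824) (l 16697592)) (l 16691776))) (c (l 16686320) (l 16680440)))))) (b (b (a (c (l 16700448) (l 16688080)) (c (l 16701056) (l 16687976))) (c (a (l 16698544) (l 16698896)) (a (l 16686176)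 (l 16685856)))) (b (a (c (a (l 16696696) (l 16696664)) (l 16684280)) (c (c (l 22) (l 16693488)) (l 16683744))) (c (c (a (a (b (l 16698360) (l 16697424)) (l 22)) (l 22)) (a (a (l 16691784) (l 16691568)) (b (l 16691880) (a (l 16690896) (l 16690784))))) (a (a (l 16682624) (l 16682184)) (c (b (l 16685392) (l 16684328)) (l 16678384)))))))), by decide +kernel⟩

def k106_A00pm_012_s1 : ∃ t, chk3 f_A00pm_012_s1 t 23 31 1 = true :=
  ⟨(b (c (b (c (a (a (l 16965368) (l 17000296)) (l 17048480)) (a (b (l 16716912) (l 16711480)) (b (l 16718200) (l 16789840)))) (c (a (a (l 16860576) (l 16899064)) (l 16951784)) (a (b (l 16715200) (b (l 16711696) (l 16712328))) (a (a (l 16739208) (l 16759608)) (l 6))))) (a (b (b (a (c (l 16712176) (l 16698096)) (c (l 16715048) (l 16700088))) (a (l 16702448) (l 16704496))) (a (b (l 16700000) (l 16702808)) (c (l 16707728) (l 16693008)))) (b (b (c (b (l 16724984) (l 16719376)) (a (l 16702688) (l 16705944))) (a (l 16707120) (l 16710360))) (a (c (l 16710184) (l 16694656)) (l 6))))) (b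 (b (c (c (a (a (l 16841496) (l 16883088)) (l 16939760)) (a (a (l 16716032) (l 16710392)) (a (l 16724616) (l 6)))) (b (a (c (l 16703328) (l 16689136)) (c (l 16707296) (l 16691576))) (a (c (l 16707256) (l 16687872)) (l 6)))) (a (c (l 22) (c (a (l 16699616) (l 22)) (a (l 16685888) (l 16686288)))) (l 6))) (a (a (c (l 22) (a (b (c (b (l 16697648) (l 16696464)) (l 16683568)) (a (c (c (l 22) (l 16691336)) (l 16681328)) (c (l 22) (l 16686472)))) (c (l 22) (b (l 16683536) (c (l 16684544) (l 16677680)))))) (c (l 22) (c (l 22) (b (c (l 16687200) (l 16680064)) (l 6))))) (l 6)))), by decide +kernel⟩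

def k107_A00pm_012_s1 : ∃ t, chk3 f_A00pm_012_s1 t 3 2 1 = true :=
  ⟨(a (b (l 2) (b (l 2) (b (l 2) (b (l 2) (a (a (a (l 16946000) (l 2)) (l 2)) (l 2)))))) (l 2)), by decide +kernel⟩

def k108_A00pm_012_s1 : ∃ t, chk3 f_A00pm_012_s1 t 6 6 1 = true :=
  ⟨(a (c (b (a (b (b (l 17022640) (a (l 17016896) (l 17040752))) (b (a (l 17022680) (l 17047520)) (a (l 17028400) (l 17054008)))) (b (b (l 2) (l 17072096)) (b (l 17079616) (l 17087128)))) (a (b (a (b (l 17034160) (b (l 17038744) (l 17041512))) (b (l 17060576) (l 17067096))) (a (b (l 17045752) (b (l 17050392) (l 17053560))) (b (l 17073440) (l 17080216)))) (b (a (b (l 17084272) (l 17091712)) (l 17109336)) (a (b (l 17098776) (l 17106360)) (b (l 17121560) (l 17129888)))))) (b (a (a (b (b (l 16973408) (l 16973704)) (b (l 16973368) (l 16972560))) (b (b (l 16998256) (l 16999176)) (b (l 16999896) (l 17000024)))) (b (b (l 2) (l 17033704)) (b (l 16951512) (l 16994872)))) (a (b (b (a (l 16971120) (l 16999624)) (a (a (l 16938680) (l 16975120)) (l 16976392))) (b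 (a (c (l 16978728) (l 16936544)) (l 16989088)) (a (c (l 16972000) (l 16878912)) (l 17020760)))) (b (a (b (l 17026016) (l 17025480)) (l 17008576)) (b (a (l 17019152) (l 17047200)) (a (l 17010152) (l 17039384))))))) (a (b (b (l 2) (b (l 2) (l 17015512))) (a (b (b (l 17096336) (l 17101992)) (b (l 17105928) (l 6))) (l 6))) (l 6))), by decide +kernel⟩

def k109_A00pm_012_s1 : ∃ t, chk3 f_A00pm_012_s1 t 6 7 1 = true :=
  ⟨(b (a (c (b (a (b (a (b (l 17056592) (l 17059416)) (l 17087448)) (a (b (l 17061880) (l 17063800)) (l 17094072))) (b (a (l 17114368) (l 17138896)) (a (l 17122472) (l 6)))) (a (b (a (c (l 17109320) (l 17021640)) (l 17099104)) (a (a (l 16970200) (l 17073712)) (l 17017416))) (b (a (l 17129568) (l 6)) (l 6)))) (b (a (b (a (b (l 16936320) (l 16928752)) (b (l 16970280) (l 16963920))) (a (b (l 16920136) (l 16910160)) (b (l 16956712) (l 16948504)))) (b (a (l 16999960) (l 17030864)) (a (l 16966968) (l 6)))) (a (b (b (a (l 16898600) (l 16939064)) (a (l 16885192) (l 16928096))) (a (c (b (l 16918088)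 (l 16904168)) (a (l 16776680) (l 16781560))) (b (l 16915384) (l 16858680)))) (b (a (b (l 16976664) (l 16967768)) (l 6)) (l 6))))) (l 6)) (a (a (a (b (c (b (b (l 16975752) (l 16970832)) (b (l 16963904) (l 16954552))) (b (c (b (l 16887752) (l 16784584)) (b (l 16773784) (l 16750056))) (b (c (l 16803912) (l 16735944)) (c (l 16735448) (b (l 16725504) (l 16718616)))))) (l 6)) (b (b (b (c (l 17100384) (l 16841552)) (l 6)) (l 6)) (l 6))) (l 6)) (l 6))), by decide +kernel⟩

def k110_A00pm_012_s1 : ∃ t, chk3 f_A00pm_012_s1 t 7 3 1 = true :=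
  ⟨(l 6), by decide +kernel⟩

theorem t111_A00pm_012_s1 : ∃ t, chk3 f_A00pm_012_s1 t 6 3 1 = true := ex3_b k108_A00pm_012_s1 k109_A00pm_012_s1

theorem t112_A00pm_012_s1 : ∃ t, chk3 f_A00pm_012_s1 t 3 3 1 = true := ex3_a t111_A00pm_012_s1 k110_A00pm_012_s1

theorem t113_A00pm_012_s1 : ∃ t, chk3 f_A00pm_012_s1 t 3 1 1 = true := ex3_b k107_A00pm_012_s1 t112_A00pm_012_s1

theorem t114_A00pm_012_s1 : ∃ t, chk3 f_A00pm_012_s1 t 22 31 1 = true := ex3_b k104_A00pm_012_s1 k105_A00pm_012_s1

theorem t115_A00pm_012_s1 : ∃ t, chk3 f_A00pm_012_s1 t 11 31 1 = true := ex3_a t114_A00pm_012_s1 k106_A00pm_012_s1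

theorem t116_A00pm_012_s1 : ∃ t, chk3 f_A00pm_012_s1 t 11 15 1 = true := ex3_b k103_A00pm_012_s1 t115_A00pm_012_s1

theorem t117_A00pm_012_s1 : ∃ t, chk3 f_A00pm_012_s1 t 11 14 1 = true := ex3_a k101_A00pm_012_s1 k102_A00pm_012_s1

theorem t118_A00pm_012_s1 : ∃ t, chk3 f_A00pm_012_s1 t 11 7 1 = true := ex3_b t117_A00pm_012_s1 t116_A00pm_012_s1

theorem t119_A00pm_012_s1 : ∃ t, chk3 f_A00pm_012_s1 t 11 6 1 = true := ex3_b k99_A00pm_012_s1 k100_A00pm_012_s1

theorem t120_A00pm_012_s1 : ∃ t, chk3 f_A00pm_012_s1 t 11 3 1 = true := ex3_b t119_A00pm_012_s1 t118_A00pm_012_s1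

theorem t121_A00pm_012_s1 : ∃ t, chk3 f_A00pm_012_s1 t 21 31 1 = true := ex3_b k97_A00pm_012_s1 k98_A00pm_012_s1

theorem t122_A00pm_012_s1 : ∃ t, chk3 f_A00pm_012_s1 t 21 15 1 = true := ex3_b k96_A00pm_012_s1 t121_A00pm_012_s1

theorem t123_A00pm_012_s1 : ∃ t, chk3 f_A00pm_012_s1 t 21 7 1 = true := ex3_b k95_A00pm_012_s1 t122_A00pm_012_s1

theorem t124_A00pm_012_s1 : ∃ t, chk3 f_A00pm_012_s1 t 167 63 2 = true := ex3_b k92_A00pm_012_s1 k93_A00pm_012_s1

theorem t125_A00pm_012_s1 : ∃ t, chk3 f_A00pm_012_s1 t 83 63 2 = true := ex3_a k91_A00pm_012_s1 t124_A00pm_012_s1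

theorem t126_A00pm_012_s1 : ∃ t, chk3 f_A00pm_012_s1 t 83 31 2 = true := ex3_b k90_A00pm_012_s1 t125_A00pm_012_s1

theorem t127_A00pm_012_s1 : ∃ t, chk3 f_A00pm_012_s1 t 83 31 1 = true := ex3_c t126_A00pm_012_s1 k94_A00pm_012_s1

theorem t128_A00pm_012_s1 : ∃ t, chk3 f_A00pm_012_s1 t 83 15 1 = true := ex3_b k89_A00pm_012_s1 t127_A00pm_012_s1

theorem t129_A00pm_012_s1 : ∃ t, chk3 f_A00pm_012_s1 t 83 14 1 = true := ex3_b k87_A00pm_012_s1 k88_A00pm_012_s1

theorem t130_A00pm_012_s1 : ∃ t, chk3 f_A00pm_012_s1 t 83 7 1 = true := ex3_b t129_A00pm_012_s1 t128_A00pm_012_s1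

theorem t131_A00pm_012_s1 : ∃ t, chk3 f_A00pm_012_s1 t 82 31 1 = true := ex3_b k85_A00pm_012_s1 k86_A00pm_012_s1

theorem t132_A00pm_012_s1 : ∃ t, chk3 f_A00pm_012_s1 t 82 15 1 = true := ex3_b k84_A00pm_012_s1 t131_A00pm_012_s1

theorem t133_A00pm_012_s1 : ∃ t, chk3 f_A00pm_012_s1 t 82 7 1 = true := ex3_b k83_A00pm_012_s1 t132_A00pm_012_s1

theorem t134_A00pm_012_s1 : ∃ t, chk3 f_A00pm_012_s1 t 41 7 1 = true := ex3_a t133_A00pm_012_s1 t130_A00pm_012_s1

theorem t135_A00pm_012_s1 : ∃ t, chk3 f_A00pm_012_s1 t 40 63 1 = true := ex3_c k81_A00pm_012_s1 k82_A00pm_012_s1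

theorem t136_A00pm_012_s1 : ∃ t, chk3 f_A00pm_012_s1 t 40 31 1 = true := ex3_b k80_A00pm_012_s1 t135_A00pm_012_s1

theorem t137_A00pm_012_s1 : ∃ t, chk3 f_A00pm_012_s1 t 40 15 1 = true := ex3_b k79_A00pm_012_s1 t136_A00pm_012_s1

theorem t138_A00pm_012_s1 : ∃ t, chk3 f_A00pm_012_s1 t 40 7 1 = true := ex3_b k78_A00pm_012_s1 t137_A00pm_012_s1

theorem t139_A00pm_012_s1 : ∃ t, chk3 f_A00pm_012_s1 t 20 7 1 = true := ex3_a t138_A00pm_012_s1 t134_A00pm_012_s1

theorem t140_A00pm_012_s1 : ∃ t, chk3 f_A00pm_012_s1 t 10 7 1 = true := ex3_a t139_A00pm_012_s1 t123_A00pm_012_s1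

theorem t141_A00pm_012_s1 : ∃ t, chk3 f_A00pm_012_s1 t 21 6 1 = true := ex3_b k76_A00pm_012_s1 k77_A00pm_012_s1

theorem t142_A00pm_012_s1 : ∃ t, chk3 f_A00pm_012_s1 t 167 13 1 = true := ex3_a k74_A00pm_012_s1 k75_A00pm_012_s1

theorem t143_A00pm_012_s1 : ∃ t, chk3 f_A00pm_012_s1 t 167 6 1 = true := ex3_b k73_A00pm_012_s1 t142_A00pm_012_s1

theorem t144_A00pm_012_s1 : ∃ t, chk3 f_A00pm_012_s1 t 83 6 1 = true := ex3_a k72_A00pm_012_s1 t143_A00pm_012_s1

theorem t145_A00pm_012_s1 : ∃ t, chk3 f_A00pm_012_s1 t 82 6 1 = true := ex3_b k70_A00pm_012_s1 k71_A00pm_012_s1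

theorem t146_A00pm_012_s1 : ∃ t, chk3 f_A00pm_012_s1 t 41 6 1 = true := ex3_a t145_A00pm_012_s1 t144_A00pm_012_s1

theorem t147_A00pm_012_s1 : ∃ t, chk3 f_A00pm_012_s1 t 81 12 1 = true := ex3_b k67_A00pm_012_s1 k68_A00pm_012_s1

theorem t148_A00pm_012_s1 : ∃ t, chk3 f_A00pm_012_s1 t 40 12 1 = true := ex3_a k66_A00pm_012_s1 t147_A00pm_012_s1

theorem t149_A00pm_012_s1 : ∃ t, chk3 f_A00pm_012_s1 t 40 6 1 = true := ex3_b t148_A00pm_012_s1 k69_A00pm_012_s1

theorem t150_A00pm_012_s1 : ∃ t, chk3 f_A00pm_012_s1 t 20 6 1 = true := ex3_a t149_A00pm_012_s1 t146_A00pm_012_s1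

theorem t151_A00pm_012_s1 : ∃ t, chk3 f_A00pm_012_s1 t 10 6 1 = true := ex3_a t150_A00pm_012_s1 t141_A00pm_012_s1

theorem t152_A00pm_012_s1 : ∃ t, chk3 f_A00pm_012_s1 t 10 3 1 = true := ex3_b t151_A00pm_012_s1 t140_A00pm_012_s1

theorem t153_A00pm_012_s1 : ∃ t, chk3 f_A00pm_012_s1 t 5 3 1 = true := ex3_a t152_A00pm_012_s1 t120_A00pm_012_s1

theorem t154_A00pm_012_s1 : ∃ t, chk3 f_A00pm_012_s1 t 39 63 1 = true := ex3_c k64_A00pm_012_s1 k65_A00pm_012_s1

theorem t155_A00pm_012_s1 : ∃ t, chk3 f_A00pm_012_s1 t 39 31 1 = true := ex3_b k63_A00pm_012_s1 t154_A00pm_012_s1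

theorem t156_A00pm_012_s1 : ∃ t, chk3 f_A00pm_012_s1 t 38 63 1 = true := ex3_c k61_A00pm_012_s1 k62_A00pm_012_s1

theorem t157_A00pm_012_s1 : ∃ t, chk3 f_A00pm_012_s1 t 38 31 1 = true := ex3_b k60_A00pm_012_s1 t156_A00pm_012_s1

theorem t158_A00pm_012_s1 : ∃ t, chk3 f_A00pm_012_s1 t 19 31 1 = true := ex3_a t157_A00pm_012_s1 t155_A00pm_012_s1

theorem t159_A00pm_012_s1 : ∃ t, chk3 f_A00pm_012_s1 t 18 127 1 = true := ex3_a k58_A00pm_012_s1 k59_A00pm_012_s1

theorem t160_A00pm_012_s1 : ∃ t, chk3 f_A00pm_012_s1 t 18 63 1 = true := ex3_b k57_A00pm_012_s1 t159_A00pm_012_s1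

theorem t161_A00pm_012_s1 : ∃ t, chk3 f_A00pm_012_s1 t 37 62 1 = true := ex3_b k55_A00pm_012_s1 k56_A00pm_012_s1

theorem t162_A00pm_012_s1 : ∃ t, chk3 f_A00pm_012_s1 t 36 62 1 = true := ex3_b k53_A00pm_012_s1 k54_A00pm_012_s1

theorem t163_A00pm_012_s1 : ∃ t, chk3 f_A00pm_012_s1 t 18 62 1 = true := ex3_a t162_A00pm_012_s1 t161_A00pm_012_s1

theorem t164_A00pm_012_s1 : ∃ t, chk3 f_A00pm_012_s1 t 18 31 1 = true := ex3_b t163_A00pm_012_s1 t160_A00pm_012_s1

theorem t165_A00pm_012_s1 : ∃ t, chk3 f_A00pm_012_s1 t 9 31 1 = true := ex3_a t164_A00pm_012_s1 t158_A00pm_012_s1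

theorem t166_A00pm_012_s1 : ∃ t, chk3 f_A00pm_012_s1 t 35 63 1 = true := ex3_b k51_A00pm_012_s1 k52_A00pm_012_s1

theorem t167_A00pm_012_s1 : ∃ t, chk3 f_A00pm_012_s1 t 17 63 1 = true := ex3_a k50_A00pm_012_s1 t166_A00pm_012_s1

theorem t168_A00pm_012_s1 : ∃ t, chk3 f_A00pm_012_s1 t 35 124 1 = true := ex3_c k47_A00pm_012_s1 k48_A00pm_012_s1

theorem t169_A00pm_012_s1 : ∃ t, chk3 f_A00pm_012_s1 t 35 62 1 = true := ex3_b t168_A00pm_012_s1 k49_A00pm_012_s1

theorem t170_A00pm_012_s1 : ∃ t, chk3 f_A00pm_012_s1 t 69 62 1 = true := ex3_b k45_A00pm_012_s1 k46_A00pm_012_s1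

theorem t171_A00pm_012_s1 : ∃ t, chk3 f_A00pm_012_s1 t 34 62 1 = true := ex3_a k44_A00pm_012_s1 t170_A00pm_012_s1

theorem t172_A00pm_012_s1 : ∃ t, chk3 f_A00pm_012_s1 t 17 62 1 = true := ex3_a t171_A00pm_012_s1 t169_A00pm_012_s1

theorem t173_A00pm_012_s1 : ∃ t, chk3 f_A00pm_012_s1 t 17 31 1 = true := ex3_b t172_A00pm_012_s1 t167_A00pm_012_s1

theorem t174_A00pm_012_s1 : ∃ t, chk3 f_A00pm_012_s1 t 8 31 1 = true := ex3_a k43_A00pm_012_s1 t173_A00pm_012_s1

theorem t175_A00pm_012_s1 : ∃ t, chk3 f_A00pm_012_s1 t 4 31 1 = true := ex3_a t174_A00pm_012_s1 t165_A00pm_012_s1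

theorem t176_A00pm_012_s1 : ∃ t, chk3 f_A00pm_012_s1 t 38 30 1 = true := ex3_b k40_A00pm_012_s1 k41_A00pm_012_s1

theorem t177_A00pm_012_s1 : ∃ t, chk3 f_A00pm_012_s1 t 19 30 1 = true := ex3_a t176_A00pm_012_s1 k42_A00pm_012_s1

theorem t178_A00pm_012_s1 : ∃ t, chk3 f_A00pm_012_s1 t 37 30 3 = true := ex3_b k38_A00pm_012_s1 k39_A00pm_012_s1

theorem t179_A00pm_012_s1 : ∃ t, chk3 f_A00pm_012_s1 t 37 30 2 = true := ex3_b k36_A00pm_012_s1 k37_A00pm_012_s1

theorem t180_A00pm_012_s1 : ∃ t, chk3 f_A00pm_012_s1 t 37 30 1 = true := ex3_c t179_A00pm_012_s1 t178_A00pm_012_s1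

theorem t181_A00pm_012_s1 : ∃ t, chk3 f_A00pm_012_s1 t 36 122 1 = true := ex3_c k33_A00pm_012_s1 k34_A00pm_012_s1

theorem t182_A00pm_012_s1 : ∃ t, chk3 f_A00pm_012_s1 t 36 61 1 = true := ex3_b t181_A00pm_012_s1 k35_A00pm_012_s1

theorem t183_A00pm_012_s1 : ∃ t, chk3 f_A00pm_012_s1 t 36 30 1 = true := ex3_b k32_A00pm_012_s1 t182_A00pm_012_s1

theorem t184_A00pm_012_s1 : ∃ t, chk3 f_A00pm_012_s1 t 18 30 1 = true := ex3_a t183_A00pm_012_s1 t180_A00pm_012_s1

theorem t185_A00pm_012_s1 : ∃ t, chk3 f_A00pm_012_s1 t 9 30 1 = true := ex3_a t184_A00pm_012_s1 t177_A00pm_012_s1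

theorem t186_A00pm_012_s1 : ∃ t, chk3 f_A00pm_012_s1 t 35 61 1 = true := ex3_a k30_A00pm_012_s1 k31_A00pm_012_s1

theorem t187_A00pm_012_s1 : ∃ t, chk3 f_A00pm_012_s1 t 68 61 1 = true := ex3_b k27_A00pm_012_s1 k28_A00pm_012_s1

theorem t188_A00pm_012_s1 : ∃ t, chk3 f_A00pm_012_s1 t 34 61 1 = true := ex3_a t187_A00pm_012_s1 k29_A00pm_012_s1

theorem t189_A00pm_012_s1 : ∃ t, chk3 f_A00pm_012_s1 t 17 61 1 = true := ex3_a t188_A00pm_012_s1 t186_A00pm_012_s1

theorem t190_A00pm_012_s1 : ∃ t, chk3 f_A00pm_012_s1 t 17 60 1 = true := ex3_a k25_A00pm_012_s1 k26_A00pm_012_s1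

theorem t191_A00pm_012_s1 : ∃ t, chk3 f_A00pm_012_s1 t 17 30 1 = true := ex3_b t190_A00pm_012_s1 t189_A00pm_012_s1

theorem t192_A00pm_012_s1 : ∃ t, chk3 f_A00pm_012_s1 t 8 30 1 = true := ex3_a k24_A00pm_012_s1 t191_A00pm_012_s1

theorem t193_A00pm_012_s1 : ∃ t, chk3 f_A00pm_012_s1 t 4 30 1 = true := ex3_a t192_A00pm_012_s1 t185_A00pm_012_s1

theorem t194_A00pm_012_s1 : ∃ t, chk3 f_A00pm_012_s1 t 4 15 1 = true := ex3_b t193_A00pm_012_s1 t175_A00pm_012_s1

theorem t195_A00pm_012_s1 : ∃ t, chk3 f_A00pm_012_s1 t 19 29 1 = true := ex3_a k22_A00pm_012_s1 k23_A00pm_012_s1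

theorem t196_A00pm_012_s1 : ∃ t, chk3 f_A00pm_012_s1 t 19 14 1 = true := ex3_b k21_A00pm_012_s1 t195_A00pm_012_s1

theorem t197_A00pm_012_s1 : ∃ t, chk3 f_A00pm_012_s1 t 37 14 1 = true := ex3_b k19_A00pm_012_s1 k20_A00pm_012_s1

theorem t198_A00pm_012_s1 : ∃ t, chk3 f_A00pm_012_s1 t 36 14 1 = true := ex3_b k17_A00pm_012_s1 k18_A00pm_012_s1

theorem t199_A00pm_012_s1 : ∃ t, chk3 f_A00pm_012_s1 t 18 14 1 = true := ex3_a t198_A00pm_012_s1 t197_A00pm_012_s1

theorem t200_A00pm_012_s1 : ∃ t, chk3 f_A00pm_012_s1 t 9 14 1 = true := ex3_a t199_A00pm_012_s1 t196_A00pm_012_s1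

theorem t201_A00pm_012_s1 : ∃ t, chk3 f_A00pm_012_s1 t 4 14 1 = true := ex3_a k16_A00pm_012_s1 t200_A00pm_012_s1

theorem t202_A00pm_012_s1 : ∃ t, chk3 f_A00pm_012_s1 t 4 7 1 = true := ex3_b t201_A00pm_012_s1 t194_A00pm_012_s1

theorem t203_A00pm_012_s1 : ∃ t, chk3 f_A00pm_012_s1 t 4 6 1 = true := ex3_b k14_A00pm_012_s1 k15_A00pm_012_s1

theorem t204_A00pm_012_s1 : ∃ t, chk3 f_A00pm_012_s1 t 4 3 1 = true := ex3_b t203_A00pm_012_s1 t202_A00pm_012_s1

theorem t205_A00pm_012_s1 : ∃ t, chk3 f_A00pm_012_s1 t 2 3 1 = true := ex3_a t204_A00pm_012_s1 t153_A00pm_012_s1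

theorem t206_A00pm_012_s1 : ∃ t, chk3 f_A00pm_012_s1 t 21 5 1 = true := ex3_b k11_A00pm_012_s1 k12_A00pm_012_s1

theorem t207_A00pm_012_s1 : ∃ t, chk3 f_A00pm_012_s1 t 21 2 1 = true := ex3_b k10_A00pm_012_s1 t206_A00pm_012_s1

theorem t208_A00pm_012_s1 : ∃ t, chk3 f_A00pm_012_s1 t 83 23 1 = true := ex3_c k8_A00pm_012_s1 k9_A00pm_012_s1

theorem t209_A00pm_012_s1 : ∃ t, chk3 f_A00pm_012_s1 t 83 11 1 = true := ex3_b k7_A00pm_012_s1 t208_A00pm_012_s1

theorem t210_A00pm_012_s1 : ∃ t, chk3 f_A00pm_012_s1 t 82 11 1 = true := ex3_a k5_A00pm_012_s1 k6_A00pm_012_s1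

theorem t211_A00pm_012_s1 : ∃ t, chk3 f_A00pm_012_s1 t 41 11 1 = true := ex3_a t210_A00pm_012_s1 t209_A00pm_012_s1

theorem t212_A00pm_012_s1 : ∃ t, chk3 f_A00pm_012_s1 t 41 10 1 = true := ex3_c k3_A00pm_012_s1 k4_A00pm_012_s1

theorem t213_A00pm_012_s1 : ∃ t, chk3 f_A00pm_012_s1 t 41 5 1 = true := ex3_b t212_A00pm_012_s1 t211_A00pm_012_s1

theorem t214_A00pm_012_s1 : ∃ t, chk3 f_A00pm_012_s1 t 41 2 1 = true := ex3_b k2_A00pm_012_s1 t213_A00pm_012_s1

theorem t215_A00pm_012_s1 : ∃ t, chk3 f_A00pm_012_s1 t 20 2 1 = true := ex3_a k1_A00pm_012_s1 t214_A00pm_012_s1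

theorem t216_A00pm_012_s1 : ∃ t, chk3 f_A00pm_012_s1 t 10 2 1 = true := ex3_a t215_A00pm_012_s1 t207_A00pm_012_s1

theorem t217_A00pm_012_s1 : ∃ t, chk3 f_A00pm_012_s1 t 5 2 1 = true := ex3_a t216_A00pm_012_s1 k13_A00pm_012_s1

theorem t218_A00pm_012_s1 : ∃ t, chk3 f_A00pm_012_s1 t 2 2 1 = true := ex3_a k0_A00pm_012_s1 t217_A00pm_012_s1

theorem t219_A00pm_012_s1 : ∃ t, chk3 f_A00pm_012_s1 t 2 1 1 = true := ex3_b t218_A00pm_012_s1 t205_A00pm_012_s1

theorem t220_A00pm_012_s1 : ∃ t, chk3 f_A00pm_012_s1 t 1 1 1 = true := ex3_a t219_A00pm_012_s1 t113_A00pm_012_s1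

theorem c_A00pm_012_s1 : CertF 0 536870912 536870912 536870912 201326592 134217728 true true false .pnp 0 1 2
    ndF0q0 ndF0q1 pcF2 cut_A00pm_012_s1 xt_A00pm_012_s1 :=
  certFK2 (fam := true) (s1 := true) (s2 := false) (a := 0) (b := 1) (c := 2) (cn := .pnp) (n1 := ndF0q0) (n2 := ndF0q1) (pc := pcF2) (cut := cut_A00pm_012_s1) (xt := xt_A00pm_012_s1) (P1 := 0) (W1 := 536870912) (P2 := 536870912) (W2 := 536870912) (P3 := 201326592) (W3 := 134217728)
    rfl rfl rfl (fun _ => rfl) t220_A00pm_012_s1

theorem s_A00pm_012_s1 {κ x : ℝ} (hκ : κ * h0 = ken x) (hx : ((201326592 : ℕ) : ℝ) / S ≤ x)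
    (hx' : x ≤ (((201326592 : ℕ) : ℝ) + (134217728 : ℕ)) / S)
    (H : CutA (VF κ) PP tKF tL pcF (Cut.of [[⟨0, 0, 0, 67108864⟩, ⟨1, 1, 0, 67108864⟩, ⟨2, 1, 0, 67108864⟩], [⟨0, 0, 1, 67108864⟩, ⟨1, 1, 0, 16777216⟩, ⟨2, 1, 1, 67108864⟩]]) 0 1 2 0 0 (sgb true) (sgb false) x) :
    AltA (VF κ) PP tKF tL pcF [⟨3, 0, 0, 1449551462⟩] 0 1 2 0 0 (sgb true) (sgb false) x :=
  strip_altA (m := 1449551462) true rfl hκ covF00 covF01 hx hx' c_A00pm_012_s1 H ((okx hx hx').extA (T := tt) (sideF hx hx') hκ rfl rfl (.O 0 true) (.O 1 false) rfl)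

end Pool.Agent.Strip051.G.I3_16_5_16.Tab.St.C
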