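import Pool.Agent.Strip051.G.I3_16_5_16.StF

/-! # Unit strips 2 (generated) -/

set_option linter.all false
set_option maxRecDepth 100000

namespace Pool.Agent.Strip051.G.I3_16_5_16.Tab.St.C

open Pool.Agent.Strip051.PB Pool.Agent.Strip051.PB.T Pool.Agent.StripNear Pool.Agent.Strip051.LC
open Pool.Agent.Strip051.G.I3_16_5_16.Tab Pool.Agent.Strip051.G.I3_16_5_16.Tab.St

noncomputable def cut_A00pm_012_s3 : Cut := Cut.of [[⟨3, 0, 0, 2845415833⟩], [⟨0, 0, 0, 67108864⟩, ⟨1, 1, 0, 67108864⟩, ⟨2, 1, 0, 67108864⟩], [⟨0, 0, 1, 67108864⟩, ⟨1, 1, 0, 16777216⟩, ⟨2, 1, 1, 67108864⟩]]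

noncomputable def f_A00pm_012_s3 : ℕ → ℕ → ℕ → ℕ → Bool := onCell 0 536870912 536870912 536870912 201326592 134217728
    (rowFK 0 true true false .pnp 0 1 2 (qsf 0 536870912 536870912 536870912 2) ndF0q0 ndF0q1 pcF2 cut_A00pm_012_s3 Ext.none)

def k0_A00pm_012_s3 : ∃ t, chk3 f_A00pm_012_s3 t 1 1 1 = true :=
  ⟨(l 6), by decide +kernel⟩

theorem c_A00pm_012_s3 : CertF 0 536870912 536870912 536870912 201326592 134217728 true true false .pnp 0 1 2
    ndF0q0 ndF0q1 pcF2 cut_A00pm_012_s3 Ext.none :=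
  certFK0 (fam := true) (s1 := true) (s2 := false) (a := 0) (b := 1) (c := 2) (cn := .pnp) (n1 := ndF0q0) (n2 := ndF0q1) (pc := pcF2) (cut := cut_A00pm_012_s3) (xt := Ext.none) (P1 := 0) (W1 := 536870912) (P2 := 536870912) (W2 := 536870912) (P3 := 201326592) (W3 := 134217728)
    rfl rfl rfl k0_A00pm_012_s3

theorem s_A00pm_012_s3 {κ x : ℝ} (hκ : κ * h0 = ken x) (hx : ((201326592 : ℕ) : ℝ) / S ≤ x)
    (hx' : x ≤ (((201326592 : ℕ) : ℝ) + (134217728 : ℕ)) / S)
    (H : CutA (VF κ) PP tKF tL pcF (Cut.of [[⟨0, 0, 0, 67108864⟩, ⟨1, 1, 0, 67108864⟩, ⟨2, 1, 0, 67108864⟩], [⟨0, 0, 1, 67108864⟩, ⟨1, 1, 0, 16777216⟩, ⟨2, 1, 1, 67108864⟩]]) 0 1 2 0 0 (sgb true) (sgb false) x) :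
    AltA (VF κ) PP tKF tL pcF [⟨4, 0, 0, 2845415833⟩] 0 1 2 0 0 (sgb true) (sgb false) x :=
  strip_altA (m := 2845415833) false rfl hκ covF00 covF01 hx hx' c_A00pm_012_s3 H (noExt_A)

noncomputable def cut_A00pm_022_s1 : Cut := Cut.of [[⟨4, 0, 0, 1449551462⟩], [⟨0, 0, 0, 67108864⟩, ⟨1, 1, 0, 67108864⟩, ⟨2, 1, 0, 67108864⟩], [⟨0, 0, 1, 67108864⟩, ⟨1, 1, 0, 16777216⟩, ⟨2, 1, 1, 67108864⟩]]

noncomputable def f_A00pm_022_s1 : ℕ → ℕ → ℕ → ℕ → Bool := onCell 1073741824 536870912 0 536870912 201326592 134217728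
    (rowFK 2 true true false .pp 0 2 2 (qsf 0 536870912 0 536870912 2) ndF0q0 ndF0q2 pcF2 cut_A00pm_022_s1 Ext.none)

def k0_A00pm_022_s1 : ∃ t, chk3 f_A00pm_022_s1 t 2 2 1 = true :=
  ⟨(a (a (l 1) (l 6)) (l 6)), by decide +kernel⟩

def k1_A00pm_022_s1 : ∃ t, chk3 f_A00pm_022_s1 t 4 6 1 = true :=
  ⟨(a (l 1) (a (b (l 1) (b (a (l 1) (a (b (l 1) (l 16618752)) (b (l 16599976) (l 16625640)))) (a (a (l 1) (b (l 16636912) (l 16662344))) (a (b (l 16623320) (l 16648880)) (a (l 16636296) (l 16629264)))))) (b (l 6) (b (a (a (b (a (l 16589088) (l 6)) (l 16611200)) (a (l 16601960) (l 16604520))) (l 6)) (a (c (b (l 16641800) (l 16633816)) (a (l 16623560) (l 16605304))) (a (c (l 16613432) (l 16608360)) (c (l 16660040) (l 16653296)))))))), by decide +kernel⟩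

def k2_A00pm_022_s1 : ∃ t, chk3 f_A00pm_022_s1 t 8 7 1 = true :=
  ⟨(b (a (l 1) (b (a (l 1) (a (l 1) (b (l 1) (c (l 16677152) (l 16673936))))) (a (l 14) (a (l 14) (a (l 14) (b (l 16676392) (l 16679840))))))) (b (a (l 14) (a (l 14) (a (l 14) (a (l 14) (a (l 14) (b (l 16723128) (l 16718384))))))) (a (l 14) (b (a (l 14) (a (l 14) (a (l 14) (b (l 16710280) (l 16729160))))) (a (l 14) (a (l 14) (a (l 14) (a (l 14) (a (l 14) (b (l 16736880) (b (c (l 16735104) (l 16730160)) (c (b (l 16738360) (c (l 16741840) (l 16739200))) (l 16739400))))))))))))), by decide +kernel⟩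

def k3_A00pm_022_s1 : ∃ t, chk3 f_A00pm_022_s1 t 18 14 1 = true :=
  ⟨(b (a (a (b (c (l 16660232) (l 16657224)) (l 16684016)) (b (l 16666792) (l 16671120))) (a (b (l 16674416) (l 16678856)) (b (l 16662544) (l 16655232)))) (c (a (b (c (l 16681664) (l 16681680)) (a (l 16712216) (l 16705360))) (a (b (l 16648368) (l 16705400)) (b (l 16649504) (l 16663872)))) (a (b (l 16681472) (l 16685592)) (b (l 16646608) (l 16681328))))), by decide +kernel⟩

def k4_A00pm_022_s1 : ∃ t, chk3 f_A00pm_022_s1 t 18 15 1 = true :=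
  ⟨(b (b (a (c (a (l 16701400) (l 16700384)) (l 16693592)) (c (a (l 16699728) (l 16699432)) (l 16695216))) (a (c (a (l 16707728) (l 16706024)) (c (l 16714880) (l 16713336))) (c (c (b (l 16691120) (l 16698808)) (l 16713216)) (l 16709216)))) (b (c (b (a (a (l 16709888) (l 16707664)) (c (l 16717000) (l 16703400))) (a (a (l 16718352) (l 16715784)) (a (l 16713568) (l 16722184)))) (a (a (l 16731160) (l 16727816)) (b (l 16698768) (l 16705800)))) (b (c (a (a (c (l 16728040) (l 16725600)) (c (l 16725360) (l 16722472))) (c (a (l 16723048) (l 16721112)) (a (l 16719656) (l 16717176)))) (a (a (l 16721904) (l 16718096)) (a (l 16714544) (l 16711256)))) (b (a (a (c (c (l 16734512) (l 16731840)) (l 16727768)) (c (c (l 16731576) (l 16728464)) (l 16723728))) (c (c (a (l 16729000) (l 16726792)) (a (l 16725400) (l 16722656))) (a (l 16719936) (l 16716416)))) (c (b (a (c (a (l 16737752) (l 16734688)) (a (l 16734968) (l 16731464))) (a (c (l 16731984)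 (l 16728272)) (c (l 16729640) (l 16725408)))) (a (a (a (c (a (l 16746432) (l 16740336)) (l 16737992)) (c (b (l 16738560) (l 16739632)) (l 16736128))) (a (c (l 16737520) (l 16734336)) (c (l 16736032) (l 16732624)))) (a (a (a (l 16738432) (l 16737696)) (c (l 16733336) (l 16729424))) (a (c (l 16732120) (l 16727952)) (c (l 16731000) (l 16726552)))))) (a (a (a (c (l 16734176) (l 16731360)) (a (l 16741640) (l 16730088))) (c (b (l 16728192) (l 16730112)) (l 16725800))) (a (c (b (l 16724528) (l 16726360)) (l 16721616)) (c (b (l 16721136) (l 16722896)) (l 16717680))))))))), by decide +kernel⟩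

def k5_A00pm_022_s1 : ∃ t, chk3 f_A00pm_022_s1 t 38 7 1 = true :=
  ⟨(b (c (b (b (l 16646768) (a (l 16637592) (l 16640096))) (a (b (l 16651016) (l 16685648)) (b (l 16652784) (l 16665704)))) (b (a (l 16648792) (l 16629184)) (b (l 16646768) (l 16659200)))) (b (c (b (c (a (l 16680136) (l 16680760)) (l 16676880)) (c (a (c (l 16716288) (l 16693480)) (l 16694280)) (a (l 16690744) (l 16690008)))) (b (c (l 16673464) (l 16670104)) (c (l 16707360) (l 16682536)))) (b (c (c (a (b (l 16705136) (c (l 16713400) (l 16711264))) (b (l 16704464) (l 16711288))) (a (b (l 16701120) (l 16708064)) (l 16724120))) (a (c (l 16700488) (l 16696392)) (b (l 16692984) (l 16699200)))) (c (b (c (a (a (l 16719920) (l 16724464)) (c (l 16719384) (l 16716840))) (a (l 16715024) (l 16713024))) (c (a (b (a (l 16725392) (l 16729800)) (a (b (l 16728136) (l 16729960)) (a (l 16728360) (a (l 16728024) (l 16727760))))) (a (b (l 16723664) (c (l 16728440) (l 16725824))) (b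 (l 16722840) (c (b (l 16726728) (l 16728432)) (l 16724832))))) (b (a (l 16720248) (l 16717976)) (a (a (l 16729600) (a (l 16723448) (l 16728080))) (b (l 16720448) (a (l 16727968) (l 16721512))))))) (b (a (a (l 16708984) (l 16707552)) (l 16715904)) (a (a (b (l 16713960) (c (l 16719640) (l 16714904))) (b (l 16717648) (a (a (l 16726736) (l 16726336)) (c (l 16717776) (l 16712696))))) (a (b (l 16710848) (c (l 16721872) (l 16711360))) (b (l 16709352) (c (l 16715184) (l 16709656)))))))))), by decide +kernel⟩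

def k6_A00pm_022_s1 : ∃ t, chk3 f_A00pm_022_s1 t 39 7 1 = true :=
  ⟨(b (c (b (a (l 16658080) (c (l 16684288) (l 16680328))) (a (b (l 16654888) (l 16667072)) (b (l 16657096) (l 16710536)))) (a (b (l 16630864) (l 16674432)) (b (l 16674496) (b (l 16648392) (l 16659160))))) (b (c (a (b (l 16679480) (c (l 16694480) (l 16689576))) (b (l 16701272) (a (l 16692232) (l 16692448)))) (a (b (l 16670640) (l 16682304)) (b (l 16712016) (l 16702072)))) (b (a (c (c (b (l 16704096) (l 16710520)) (l 16722952)) (b (l 16691088) (l 16696960))) (c (b (a (l 16701248) (l 16701192)) (a (l 16707280) (l 16707040))) (a (l 16692720) (l 16712896)))) (c (b (c (a (c (l 16718376) (l 16715544)) (a (l 16716384) (l 16716112))) (a (l 16711304) (a (l 16710272) (l 16709688)))) (a (a (c (b (l 16722112) (c (b (l 16726000) (l 16727648)) (l 16723936))) (b (l 16716448) (l 16724848))) (c (b (l 16721496) (c (a (l 16726328) (l 16726032)) (l 16723152))) (b (l 16715536) (l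 16723848)))) (a (c (b (l 16720984) (c (a (l 16731008) (l 16730768)) (l 16722464))) (b (l 16714736) (c (l 16719288) (l 16716120)))) (c (b (l 16731048) (c (b (l 16724448) (a (l 16726064) (l 16725872))) (b (l 16721136) (l 16727856)))) (b (l 16714008) (c (l 16718560) (l 16715232))))))) (b (a (c (l 16705664) (l 16700032)) (a (l 16701152) (l 16700104))) (b (a (c (l 16710160) (l 16704352)) (a (l 16705368) (l 16714688))) (a (c (a (l 16713816) (l 16712544)) (l 16712480)) (c (a (l 16711352) (l 16710256)) (a (l 16705008) (l 16703616)))))))))), by decide +kernel⟩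

def k7_A00pm_022_s1 : ∃ t, chk3 f_A00pm_022_s1 t 20 6 1 = true :=
  ⟨(a (b (l 6) (a (b (l 6) (c (l 16704464) (l 16696736))) (l 6))) (l 6)), by decide +kernel⟩

def k8_A00pm_022_s1 : ∃ t, chk3 f_A00pm_022_s1 t 40 7 1 = true :=
  ⟨(b (b (a (c (l 16683864) (l 16675040)) (c (l 16682496) (l 16715360))) (a (b (l 16695024) (c (l 16669016) (l 16658504))) (b (l 16693336) (l 16682880)))) (b (b (c (a (l 16701240) (l 16678592)) (a (l 16668952) (l 16666648))) (c (a (a (l 16692208) (l 16691336)) (l 16710840)) (a (l 16721448) (l 16677016)))) (b (c (a (b (l 16721168) (a (l 16706504) (l 16705544))) (b (l 16698352) (l 16725024))) (a (a (l 16711880) (l 16689552)) (b (l 16684832) (l 16690080)))) (b (c (a (a (c (l 16715584) (l 16708896)) (l 16721744)) (a (l 16720808) (l 16719904))) (a (a (l 16698912) (l 16697488)) (b (l 16694032) (l 16717656)))) (c (b (a (a (c (l 16719960) (l 16713136)) (c (l 16719088) (l 16712032))) (a (c (l 16718272) (l 16710992))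 (c (l 16717504) (l 16709984)))) (c (b (a (a (c (l 16723872) (l 16720424)) (l 16721280)) (a (l 16720480) (l 16719720))) (a (a (a (a (l 16729216) (l 16723752)) (l 16728656)) (a (l 16728232) (l 16727816))) (a (b (l 16721584) (a (l 16722536) (l 16727392))) (c (a (l 16723304) (l 16722976)) (l 16719288))))) (b (a (a (l 16715256) (l 16714160)) (a (l 16713112) (l 16712120))) (a (a (c (l 16718416) (l 16714944)) (l 16715576)) (a (l 16714536) (l 16713544)))))) (b (a (a (l 16713408) (l 16701472)) (c (l 16703024) (l 16695648))) (a (a (c (l 16709064) (l 16702152)) (c (l 16707720) (l 16700576))) (c (a (l 16706440) (l 16705200)) (l 16708736))))))))), by decide +kernel⟩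

def k9_A00pm_022_s1 : ∃ t, chk3 f_A00pm_022_s1 t 41 14 1 = true :=
  ⟨(b (c (a (l 16680896) (a (l 16637128) (a (l 16635792) (l 16676584)))) (a (l 16671624) (a (l 16627840) (a (l 16626600) (l 16667496))))) (c (a (b (l 16654848) (l 16665760)) (a (l 16679680) (a (l 16678528) (b (l 16734784) (l 16704000))))) (a (b (l 16644280) (l 16654232)) (b (a (l 16642376) (a (l 16641176) (l 16640192))) (a (l 16652296) (a (l 16651128) (l 16692128))))))), by decide +kernel⟩

def k10_A00pm_022_s1 : ∃ t, chk3 f_A00pm_022_s1 t 41 30 1 = true :=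
  ⟨(c (a (b (l 16676872) (b (l 16685280) (l 16690928))) (a (b (l 16675264) (l 16686608)) (a (b (l 16674256) (l 16685712)) (b (l 16694392) (b (l 16703032) (l 16708880)))))) (a (b (l 16664344) (l 16716520)) (a (b (l 16662376) (l 16672616)) (a (b (l 16661240) (l 16671528)) (b (l 16702296) (b (l 16710016) (l 16715248))))))), by decide +kernel⟩

def k11_A00pm_022_s1 : ∃ t, chk3 f_A00pm_022_s1 t 41 31 4 = true :=
  ⟨(b (a (b (l 16700200) (l 16727016)) (a (b (l 16698920) (l 16704896)) (b (a (l 16698200) (l 16718592)) (a (l 16704264) (a (a (a (l 16703904) (l 16724792)) (l 16703720)) (l 16703608)))))) (a (a (b (l 16712328) (b (l 16716776) (b (l 16719016) (a (c (l 16722656) (l 16718728)) (c (l 22) (l 16718360)))))) (b (l 16711600) (c (b (l 16718096) (l 22)) (b (l 16714104) (a (l 16717264) (l 16722160)))))) (b (a (b (l 16709408) (l 16712448)) (a (a (l 16710424) (l 16710248)) (a (a (a (l 16710096) (a (l 16710048) (l 16720496))) (l 16709952))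 (l 16709848)))) (a (c (l 22) (b (l 16723928) (a (a (l 16716664) (l 16716504)) (a (l 16716344) (l 16716184))))) (b (c (l 22) (a (a (l 16712960) (l 16712800)) (a (a (a (l 16712672) (a (l 16712632) (l 16723088))) (l 16712544)) (l 16712440)))) (a (c (l 22) (c (l 22) (a (l 16714968) (a (l 16714840) (l 16714768))))) (b (a (a (a (l 16717144) (a (l 16717112) (a (a (l 16717096) (c (l 22) (l 16714944))) (l 16717080)))) (l 16717048)) (l 16716952)) (b (a (a (a (l 16718328) (a (l 16723544) (a (a (l 16718288) (c (l 22) (l 16716120))) (l 16718280)))) (l 16718240)) (l 16718152)) (c (l 22) (c (l 22) (a (a (a (l 16715864) (a (l 16715840) (a (a (l 16715824) (l 16721056)) (l 16715808)))) (l 16715768)) (l 16715656)))))))))))), by decide +kernel⟩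

def k12_A00pm_022_s1 : ∃ t, chk3 f_A00pm_022_s1 t 41 31 5 = true :=
  ⟨(b (a (b (l 16693040) (l 16698632)) (a (l 16715328) (a (l 16714528) (b (l 16710984) (a (a (a (l 16696016) (l 16695928)) (l 16695808)) (l 16695656)))))) (a (b (a (l 16704768) (l 16703816)) (b (a (l 16709032) (l 16708120)) (a (b (l 16711176) (l 16717848)) (a (l 16711216) (l 16721264))))) (b (a (l 16702928) (a (l 16712720) (a (a (a (l 16701880) (a (l 16701824) (l 16701784))) (l 16701712)) (l 16701560)))) (a (b (l 16717760) (a (l 16715600) (a (l 16710040) (l 16709840)))) (b (a (a (l 16706688) (l 16706488)) (a (a (a (l 16706328) (a (l 16706280) (l 16716728))) (l 16706176)) (l 16706032))) (a (a (l 16720128) (a (l 16709488) (l 16719880))) (a (a (a (l 16719800) (a (l 16719760) (a (a (l 16709256) (b (l 16708496) (c (l 16712168) (l 16707832)))) (l 16709240)))) (l 16709184)) (l 16709040)))))))), by decide +kernel⟩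

def k13_A00pm_022_s1 : ∃ t, chk3 f_A00pm_022_s1 t 41 31 3 = true :=
  ⟨(a (b (b (l 16682328) (l 16708512)) (b (a (l 16693448) (l 16692168)) (b (a (l 16697416) (l 16696152)) (a (c (l 16704016) (l 16696144)) (c (l 16702880) (l 16694760)))))) (c (b (a (l 16686792) (a (l 16706832) (b (l 16703368) (b (l 16707480) (b (l 16709552) (l 16710936)))))) (a (b (l 16694936) (a (l 16700672) (a (l 16700264) (l 16699992)))) (b (a (l 16694080) (a (a (a (l 16693672) (a (l 16693608) (l 16693560))) (l 16693472)) (l 16693280))) (b (a (l 16708728) (a (a (a (l 16697872) (a (l 16697816) (l 16697776))) (l 16697688)) (l 16697496))) (a (a (l 16701120) (l 16700872)) (a (a (a (l 16700688) (a (l 16700640) (a (a (l 16700616) (l 16700608)) (l 16700592)))) (l 16700528)) (l 16700336))))))) (b (a (l 16679240) (a (l 16678168) (b (l 16695752) (b (l 16699632) (l 16702232))))) (a (b (l 16686944) (b (l 16690840) (l 16693456))) (a (b (l 16685928) (b (l 16689848) (l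 16702968))) (a (a (b (a (l 16685472) (l 16706344)) (a (l 16690744) (a (l 16690680) (l 16701128)))) (l 16708872)) (l 16698152))))))), by decide +kernel⟩

def k14_A00pm_022_s1 : ∃ t, chk3 f_A00pm_022_s1 t 21 6 1 = true :=
  ⟨(l 6), by decide +kernel⟩

def k15_A00pm_022_s1 : ∃ t, chk3 f_A00pm_022_s1 t 21 14 1 = true :=
  ⟨(b (a (l 6) (l 6)) (a (b (a (l 16644088) (l 16642608)) (c (l 16680128) (l 16647000))) (b (l 6) (c (l 16656184) (l 16643408))))), by decide +kernel⟩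

def k16_A00pm_022_s1 : ∃ t, chk3 f_A00pm_022_s1 t 21 15 1 = true :=
  ⟨(b (b (c (a (l 16691688) (l 16667936)) (a (l 16699136) (l 16653488))) (c (a (a (l 16683744) (l 16682432)) (b (l 16676984) (l 16683128))) (a (a (l 16669064) (l 16667096)) (l 16684848)))) (b (c (a (b (a (l 16692672) (l 16691448)) (a (l 16698728) (l 16697568))) (b (l 16710344) (a (l 16696536) (l 16695616)))) (a (a (l 16700648) (l 16698648)) (a (l 16696768) (l 16694992)))) (b (c (c (a (a (l 16719600) (l 16708264)) (l 22)) (a (a (l 16700584) (l 16699280)) (a (l 16698136) (l 16697168)))) (a (a (l 16708760) (l 16706752)) (a (l 16704920) (l 16703248)))) (c (b (c (a (a (b (l 16713104) (l 16719944)) (l 22)) (l 22)) (a (a (l 16705096) (l 16703840)) (a (l 16702784) (l 16701936)))) (b (c (a (a (a (l 16716624) (l 22)) (l 22)) (l 22)) (a (a (a (l 16707808) (l 16707128)) (c (l 16708504) (l 16703784))) (a (c (l 16707624) (l 16702640)) (c (l 22) (l 16701720))))) (a (c (a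 (a (a (c (l 22) (l 16716152)) (l 22)) (l 22)) (l 22)) (a (b (a (l 16708944) (l 16708272)) (a (l 16709704) (l 16714280))) (a (a (l 16708208) (l 16718400)) (a (l 16712880) (l 16712624))))) (c (l 22) (c (a (a (l 16709480) (l 22)) (l 22)) (a (a (l 16704504) (l 16704000)) (a (l 16703560) (l 16703176)))))))) (b (a (a (c (l 16696296) (l 16687496)) (c (l 16694544) (l 16685248))) (a (c (l 16692992) (l 16683200)) (c (l 16691640) (l 16681336)))) (c (b (a (a (l 16698440) (l 16696696)) (a (l 16695176) (l 16693864))) (a (a (c (l 16702128) (l 16697616)) (c (l 16700528) (l 16695752))) (a (c (l 16699152) (l 16694112)) (c (l 16698000) (l 16692696))))) (a (a (l 16690168) (l 16687920)) (a (l 16685880) (l 16684056))))))))), by decide +kernel⟩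

def k17_A00pm_022_s1 : ∃ t, chk3 f_A00pm_022_s1 t 11 3 1 = true :=
  ⟨(b (l 6) (b (l 6) (b (a (a (b (c (l 16664760) (l 16649552)) (c (b (l 16674320) (l 16680840)) (l 16702176))) (l 6)) (l 6)) (b (a (c (a (b (l 16708440) (a (l 16694824) (l 16694200))) (b (l 16696576) (l 22))) (a (a (l 16693312) (l 16691776)) (a (l 16690384) (l 6)))) (l 6)) (a (b (c (a (c (l 22) (a (l 16696368) (l 16695784))) (l 22)) (a (a (c (l 16685976) (l 16675552)) (c (l 16684912) (l 16674008))) (a (c (l 16684064) (l 16672656)) (c (l 16683408) (l 16671496))))) (b (c (a (a (c (l 22) (l 16711784)) (l 22)) (l 22)) (a (a (c (l 16690488) (l 16679672)) (c (l 16689568) (l 16678224))) (a (c (l 16688880) (l 16677000)) (c (l 16688416) (l 16675992))))) (c (c (l 22) (c (l 22) (a (a (a (a (l 16702136) (l 16701976)) (l 22)) (l 22)) (l 22)))) (c (b (a (a (l 16692768) (l 16691920)) (a (l 16701800) (c (l 22) (l 16687784)))) (c (a (a (b (l 16696696) (l 16702728)) (a (l 16696608)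 (l 16696336))) (a (a (l 16696128) (l 22)) (l 22))) (a (a (l 16691512) (l 16690568)) (a (l 16695120) (a (l 16689552) (l 16689392)))))) (a (a (l 16692936) (b (l 16680360) (l 16681784))) (a (b (l 16679192) (l 16691152)) (a (l 16679264) (l 16678872)))))))) (a (a (a (b (l 6) (b (l 6) (c (l 22) (c (c (l 22) (l 16693696)) (l 16689032))))) (l 6)) (l 6)) (l 6))))))), by decide +kernel⟩

def k18_A00pm_022_s1 : ∃ t, chk3 f_A00pm_022_s1 t 3 1 1 = true :=
  ⟨(b (l 6) (l 6)), by decide +kernel⟩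

theorem t19_A00pm_022_s1 : ∃ t, chk3 f_A00pm_022_s1 t 21 7 1 = true := ex3_b k15_A00pm_022_s1 k16_A00pm_022_s1

theorem t20_A00pm_022_s1 : ∃ t, chk3 f_A00pm_022_s1 t 21 3 1 = true := ex3_b k14_A00pm_022_s1 t19_A00pm_022_s1

theorem t21_A00pm_022_s1 : ∃ t, chk3 f_A00pm_022_s1 t 41 31 2 = true := ex3_c k11_A00pm_022_s1 k12_A00pm_022_s1

theorem t22_A00pm_022_s1 : ∃ t, chk3 f_A00pm_022_s1 t 41 31 1 = true := ex3_c t21_A00pm_022_s1 k13_A00pm_022_s1

theorem t23_A00pm_022_s1 : ∃ t, chk3 f_A00pm_022_s1 t 41 15 1 = true := ex3_b k10_A00pm_022_s1 t22_A00pm_022_s1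

theorem t24_A00pm_022_s1 : ∃ t, chk3 f_A00pm_022_s1 t 41 7 1 = true := ex3_b k9_A00pm_022_s1 t23_A00pm_022_s1

theorem t25_A00pm_022_s1 : ∃ t, chk3 f_A00pm_022_s1 t 20 7 1 = true := ex3_a k8_A00pm_022_s1 t24_A00pm_022_s1

theorem t26_A00pm_022_s1 : ∃ t, chk3 f_A00pm_022_s1 t 20 3 1 = true := ex3_b k7_A00pm_022_s1 t25_A00pm_022_s1

theorem t27_A00pm_022_s1 : ∃ t, chk3 f_A00pm_022_s1 t 10 3 1 = true := ex3_a t26_A00pm_022_s1 t20_A00pm_022_s1

theorem t28_A00pm_022_s1 : ∃ t, chk3 f_A00pm_022_s1 t 5 3 1 = true := ex3_a t27_A00pm_022_s1 k17_A00pm_022_s1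

theorem t29_A00pm_022_s1 : ∃ t, chk3 f_A00pm_022_s1 t 19 7 1 = true := ex3_a k5_A00pm_022_s1 k6_A00pm_022_s1

theorem t30_A00pm_022_s1 : ∃ t, chk3 f_A00pm_022_s1 t 18 7 1 = true := ex3_b k3_A00pm_022_s1 k4_A00pm_022_s1

theorem t31_A00pm_022_s1 : ∃ t, chk3 f_A00pm_022_s1 t 9 7 1 = true := ex3_a t30_A00pm_022_s1 t29_A00pm_022_s1

theorem t32_A00pm_022_s1 : ∃ t, chk3 f_A00pm_022_s1 t 4 7 1 = true := ex3_a k2_A00pm_022_s1 t31_A00pm_022_s1

theorem t33_A00pm_022_s1 : ∃ t, chk3 f_A00pm_022_s1 t 4 3 1 = true := ex3_b k1_A00pm_022_s1 t32_A00pm_022_s1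

theorem t34_A00pm_022_s1 : ∃ t, chk3 f_A00pm_022_s1 t 2 3 1 = true := ex3_a t33_A00pm_022_s1 t28_A00pm_022_s1

theorem t35_A00pm_022_s1 : ∃ t, chk3 f_A00pm_022_s1 t 2 1 1 = true := ex3_b k0_A00pm_022_s1 t34_A00pm_022_s1

theorem t36_A00pm_022_s1 : ∃ t, chk3 f_A00pm_022_s1 t 1 1 1 = true := ex3_a t35_A00pm_022_s1 k18_A00pm_022_s1

theorem c_A00pm_022_s1 : CertF 0 536870912 0 536870912 201326592 134217728 true true false .pp 0 2 2
    ndF0q0 ndF0q2 pcF2 cut_A00pm_022_s1 Ext.none :=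
  certFK2 (fam := true) (s1 := true) (s2 := false) (a := 0) (b := 2) (c := 2) (cn := .pp) (n1 := ndF0q0) (n2 := ndF0q2) (pc := pcF2) (cut := cut_A00pm_022_s1) (xt := Ext.none) (P1 := 0) (W1 := 536870912) (P2 := 0) (W2 := 536870912) (P3 := 201326592) (W3 := 134217728)
    rfl rfl rfl (fun _ => rfl) t36_A00pm_022_s1

theorem s_A00pm_022_s1 {κ x : ℝ} (hκ : κ * h0 = ken x) (hx : ((201326592 : ℕ) : ℝ) / S ≤ x)
    (hx' : x ≤ (((201326592 : ℕ) : ℝ) + (134217728 : ℕ)) / S)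
    (H : CutA (VF κ) PP tKF tL pcF (Cut.of [[⟨0, 0, 0, 67108864⟩, ⟨1, 1, 0, 67108864⟩, ⟨2, 1, 0, 67108864⟩], [⟨0, 0, 1, 67108864⟩, ⟨1, 1, 0, 16777216⟩, ⟨2, 1, 1, 67108864⟩]]) 0 2 2 0 0 (sgb true) (sgb false) x) :
    AltA (VF κ) PP tKF tL pcF [⟨3, 0, 0, 1449551462⟩] 0 2 2 0 0 (sgb true) (sgb false) x :=
  strip_altA (m := 1449551462) true rfl hκ covF00 covF02 hx hx' c_A00pm_022_s1 H (noExt_A)

noncomputable def cut_A00pm_022_s3 : Cut := Cut.of [[⟨3, 0, 0, 2845415833⟩], [⟨0, 0, 0, 67108864⟩, ⟨1, 1, 0, 67108864⟩, ⟨2, 1, 0, 67108864⟩], [⟨0, 0, 1, 67108864⟩, ⟨1, 1, 0, 16777216⟩, ⟨2, 1, 1, 67108864⟩]]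

noncomputable def f_A00pm_022_s3 : ℕ → ℕ → ℕ → ℕ → Bool := onCell 1073741824 536870912 0 536870912 201326592 134217728
    (rowFK 2 true true false .pp 0 2 2 (qsf 0 536870912 0 536870912 2) ndF0q0 ndF0q2 pcF2 cut_A00pm_022_s3 Ext.none)

def k0_A00pm_022_s3 : ∃ t, chk3 f_A00pm_022_s3 t 1 1 1 = true :=
  ⟨(a (l 6) (b (l 6) (l 6))), by decide +kernel⟩

theorem c_A00pm_022_s3 : CertF 0 536870912 0 536870912 201326592 134217728 true true false .pp 0 2 2
    ndF0q0 ndF0q2 pcF2 cut_A00pm_022_s3 Ext.none :=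
  certFK2 (fam := true) (s1 := true) (s2 := false) (a := 0) (b := 2) (c := 2) (cn := .pp) (n1 := ndF0q0) (n2 := ndF0q2) (pc := pcF2) (cut := cut_A00pm_022_s3) (xt := Ext.none) (P1 := 0) (W1 := 536870912) (P2 := 0) (W2 := 536870912) (P3 := 201326592) (W3 := 134217728)
    rfl rfl rfl (fun _ => rfl) k0_A00pm_022_s3

theorem s_A00pm_022_s3 {κ x : ℝ} (hκ : κ * h0 = ken x) (hx : ((201326592 : ℕ) : ℝ) / S ≤ x)
    (hx' : x ≤ (((201326592 : ℕ) : ℝ) + (134217728 : ℕ)) / S)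
    (H : CutA (VF κ) PP tKF tL pcF (Cut.of [[⟨0, 0, 0, 67108864⟩, ⟨1, 1, 0, 67108864⟩, ⟨2, 1, 0, 67108864⟩], [⟨0, 0, 1, 67108864⟩, ⟨1, 1, 0, 16777216⟩, ⟨2, 1, 1, 67108864⟩]]) 0 2 2 0 0 (sgb true) (sgb false) x) :
    AltA (VF κ) PP tKF tL pcF [⟨4, 0, 0, 2845415833⟩] 0 2 2 0 0 (sgb true) (sgb false) x :=
  strip_altA (m := 2845415833) false rfl hκ covF00 covF02 hx hx' c_A00pm_022_s3 H (noExt_A)

noncomputable def cut_A00pm_023_s1 : Cut := Cut.of [[⟨4, 0, 0, 1449551462⟩]]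

noncomputable def f_A00pm_023_s1 : ℕ → ℕ → ℕ → ℕ → Bool := onCell 1610612736 536870912 0 536870912 201326592 134217728
    (rowFK 2 true true false .up 0 2 3 (qsf 0 536870912 0 536870912 3) ndF0q0 ndF0q2 pcF3 cut_A00pm_023_s1 Ext.none)

def k0_A00pm_023_s1 : ∃ t, chk3 f_A00pm_023_s1 t 1 1 1 = true :=
  ⟨(l 6), by decide +kernel⟩

theorem c_A00pm_023_s1 : CertF 0 536870912 0 536870912 201326592 134217728 true true false .up 0 2 3
    ndF0q0 ndF0q2 pcF3 cut_A00pm_023_s1 Ext.none :=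
  certFK2 (fam := true) (s1 := true) (s2 := false) (a := 0) (b := 2) (c := 3) (cn := .up) (n1 := ndF0q0) (n2 := ndF0q2) (pc := pcF3) (cut := cut_A00pm_023_s1) (xt := Ext.none) (P1 := 0) (W1 := 536870912) (P2 := 0) (W2 := 536870912) (P3 := 201326592) (W3 := 134217728)
    rfl rfl rfl (fun _ => rfl) k0_A00pm_023_s1

theorem s_A00pm_023_s1 {κ x : ℝ} (hκ : κ * h0 = ken x) (hx : ((201326592 : ℕ) : ℝ) / S ≤ x)
    (hx' : x ≤ (((201326592 : ℕ) : ℝ) + (134217728 : ℕ)) / S) :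
    AltA (VF κ) PP tKF tL pcF [⟨3, 0, 0, 1449551462⟩] 0 2 3 0 0 (sgb true) (sgb false) x :=
  strip_altA (m := 1449551462) true rfl hκ covF00 covF02 hx hx' c_A00pm_023_s1 cutA_nil (noExt_A)

noncomputable def cut_A00pm_023_s3 : Cut := Cut.of [[⟨3, 0, 0, 2845415833⟩]]

noncomputable def xt_A00pm_023_s3 : Ext := strExt dd true true false .u0 .u2 .s2 .up 0 2 3 rfl rfl gl3 vv ndF0q0 ndF0q2

noncomputable def f_A00pm_023_s3 : ℕ → ℕ → ℕ → ℕ → Bool := onCell 0 536870912 0 536870912 201326592 134217728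
    (rowFK 0 true true false .up 0 2 3 (qsf 0 536870912 0 536870912 3) ndF0q0 ndF0q2 pcF3 cut_A00pm_023_s3 xt_A00pm_023_s3)

def k0_A00pm_023_s3 : ∃ t, chk3 f_A00pm_023_s3 t 1 1 1 = true :=
  ⟨(a (l 1) (b (a (b (b (b (a (l 1) (a (l 1) (a (l 6) (c (l 17121360) (l 16951336))))) (l 6)) (l 6)) (l 6)) (b (b (b (a (a (c (l 17082248) (l 16938880)) (c (l 17029536) (l 16918624))) (a (l 540664847) (l 540601103))) (a (a (l 6) (c (l 17073288) (l 16941728))) (a (l 540578319) (l 540527631)))) (a (l 6) (a (c (l 541602319) (l 539606287)) (c (b (l 17012520) (l 17056752)) (l 540472591))))) (a (l 6) (l 6)))) (l 6))), by decide +kernel⟩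

theorem c_A00pm_023_s3 : CertF 0 536870912 0 536870912 201326592 134217728 true true false .up 0 2 3
    ndF0q0 ndF0q2 pcF3 cut_A00pm_023_s3 xt_A00pm_023_s3 :=
  certFK0 (fam := true) (s1 := true) (s2 := false) (a := 0) (b := 2) (c := 3) (cn := .up) (n1 := ndF0q0) (n2 := ndF0q2) (pc := pcF3) (cut := cut_A00pm_023_s3) (xt := xt_A00pm_023_s3) (P1 := 0) (W1 := 536870912) (P2 := 0) (W2 := 536870912) (P3 := 201326592) (W3 := 134217728)
    rfl rfl rfl k0_A00pm_023_s3

theorem s_A00pm_023_s3 {κ x : ℝ} (hκ : κ * h0 = ken x) (hx : ((201326592 : ℕ) : ℝ) / S ≤ x)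
    (hx' : x ≤ (((201326592 : ℕ) : ℝ) + (134217728 : ℕ)) / S) :
    AltA (VF κ) PP tKF tL pcF [⟨4, 0, 0, 2845415833⟩] 0 2 3 0 0 (sgb true) (sgb false) x :=
  strip_altA (m := 2845415833) false rfl hκ covF00 covF02 hx hx' c_A00pm_023_s3 cutA_nil ((okx hx hx').extA (T := tt) (sideF hx hx') hκ rfl rfl (.O 0 true) (.O 2 false) (Or.inr rfl))

noncomputable def cut_A00pm_101_s1 : Cut := Cut.of [[⟨4, 0, 0, 1449551462⟩], [⟨0, 1, 0, 67108864⟩, ⟨1, 0, 0, 67108864⟩, ⟨2, 1, 0, 67108864⟩]]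

noncomputable def f_A00pm_101_s1 : ℕ → ℕ → ℕ → ℕ → Bool := onCell 536870912 536870912 536870912 536870912 201326592 134217728
    (rowFK 1 true true false .npn 1 0 1 (qsf 536870912 536870912 0 536870912 1) ndF0q1 ndF0q0 pcF1 cut_A00pm_101_s1 Ext.none)

def k0_A00pm_101_s1 : ∃ t, chk3 f_A00pm_101_s1 t 1 1 1 = true :=
  ⟨(b (l 3) (a (l 3) (b (l 3) (a (l 3) (b (l 3) (a (l 3) (b (l 3) (a (l 3) (l 14))))))))), by decide +kernel⟩

theorem c_A00pm_101_s1 : CertF 536870912 536870912 0 536870912 201326592 134217728 true true false .npn 1 0 1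
    ndF0q1 ndF0q0 pcF1 cut_A00pm_101_s1 Ext.none :=
  certFK1 (fam := true) (s1 := true) (s2 := false) (a := 1) (b := 0) (c := 1) (cn := .npn) (n1 := ndF0q1) (n2 := ndF0q0) (pc := pcF1) (cut := cut_A00pm_101_s1) (xt := Ext.none) (P1 := 536870912) (W1 := 536870912) (P2 := 0) (W2 := 536870912) (P3 := 201326592) (W3 := 134217728)
    rfl rfl rfl (fun _ => rfl) k0_A00pm_101_s1

theorem s_A00pm_101_s1 {κ x : ℝ} (hκ : κ * h0 = ken x) (hx : ((201326592 : ℕ) : ℝ) / S ≤ x)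
    (hx' : x ≤ (((201326592 : ℕ) : ℝ) + (134217728 : ℕ)) / S)
    (H : CutA (VF κ) PP tKF tL pcF (Cut.of [[⟨0, 1, 0, 67108864⟩, ⟨1, 0, 0, 67108864⟩, ⟨2, 1, 0, 67108864⟩]]) 1 0 1 0 0 (sgb true) (sgb false) x) :
    AltA (VF κ) PP tKF tL pcF [⟨3, 0, 0, 1449551462⟩] 1 0 1 0 0 (sgb true) (sgb false) x :=
  strip_altA (m := 1449551462) true rfl hκ covF01 covF00 hx hx' c_A00pm_101_s1 H (noExt_A)

noncomputable def cut_A00pm_101_s3 : Cut := Cut.of [[⟨3, 0, 0, 2845415833⟩], [⟨0, 1, 0, 67108864⟩, ⟨1, 0, 0, 67108864⟩, ⟨2, 1, 0, 67108864⟩]]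

noncomputable def f_A00pm_101_s3 : ℕ → ℕ → ℕ → ℕ → Bool := onCell 536870912 536870912 0 536870912 201326592 134217728
    (rowFK 0 true true false .npn 1 0 1 (qsf 536870912 536870912 0 536870912 1) ndF0q1 ndF0q0 pcF1 cut_A00pm_101_s3 Ext.none)

def k0_A00pm_101_s3 : ∃ t, chk3 f_A00pm_101_s3 t 1 1 1 = true :=
  ⟨(l 6), by decide +kernel⟩

theorem c_A00pm_101_s3 : CertF 536870912 536870912 0 536870912 201326592 134217728 true true false .npn 1 0 1
    ndF0q1 ndF0q0 pcF1 cut_A00pm_101_s3 Ext.none :=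
  certFK0 (fam := true) (s1 := true) (s2 := false) (a := 1) (b := 0) (c := 1) (cn := .npn) (n1 := ndF0q1) (n2 := ndF0q0) (pc := pcF1) (cut := cut_A00pm_101_s3) (xt := Ext.none) (P1 := 536870912) (W1 := 536870912) (P2 := 0) (W2 := 536870912) (P3 := 201326592) (W3 := 134217728)
    rfl rfl rfl k0_A00pm_101_s3

theorem s_A00pm_101_s3 {κ x : ℝ} (hκ : κ * h0 = ken x) (hx : ((201326592 : ℕ) : ℝ) / S ≤ x)
    (hx' : x ≤ (((201326592 : ℕ) : ℝ) + (134217728 : ℕ)) / S)
    (H : CutA (VF κ) PP tKF tL pcF (Cut.of [[⟨0, 1, 0, 67108864⟩, ⟨1, 0, 0, 67108864⟩, ⟨2, 1, 0, 67108864⟩]]) 1 0 1 0 0 (sgb true) (sgb false) x) :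
    AltA (VF κ) PP tKF tL pcF [⟨4, 0, 0, 2845415833⟩] 1 0 1 0 0 (sgb true) (sgb false) x :=
  strip_altA (m := 2845415833) false rfl hκ covF01 covF00 hx hx' c_A00pm_101_s3 H (noExt_A)

end Pool.Agent.Strip051.G.I3_16_5_16.Tab.St.C
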