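import Pool.Agent.Strip051.G.I3_16_5_16.StF

/-! # Unit strips 3 (generated) -/

set_option linter.all false
set_option maxRecDepth 100000

namespace Pool.Agent.Strip051.G.I3_16_5_16.Tab.St.C

open Pool.Agent.Strip051.PB Pool.Agent.Strip051.PB.T Pool.Agent.StripNear Pool.Agent.Strip051.LC
open Pool.Agent.Strip051.G.I3_16_5_16.Tab Pool.Agent.Strip051.G.I3_16_5_16.Tab.St

noncomputable def cut_A00pm_102_s1 : Cut := Cut.of [[⟨4, 0, 0, 1449551462⟩], [⟨0, 1, 0, 67108864⟩, ⟨1, 0, 0, 67108864⟩, ⟨2, 1, 0, 67108864⟩], [⟨0, 1, 0, 16777216⟩, ⟨1, 0, 1, 67108864⟩, ⟨2, 1, 1, 67108864⟩]]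

noncomputable def xt_A00pm_102_s1 : Ext := strExt dd true true false .u0 .u0m .u2 .npp 1 0 2 rfl rfl gf2 vv ndF0q1 ndF0q0

noncomputable def f_A00pm_102_s1 : ℕ → ℕ → ℕ → ℕ → Bool := onCell 536870912 536870912 1073741824 536870912 201326592 134217728
    (rowFK 1 true true false .npp 1 0 2 (qsf 536870912 536870912 0 536870912 2) ndF0q1 ndF0q0 pcF2 cut_A00pm_102_s1 xt_A00pm_102_s1)

def k0_A00pm_102_s1 : ∃ t, chk3 f_A00pm_102_s1 t 2 4 1 = true :=
  ⟨(a (l 3) (l 3)), by decide +kernel⟩

def k1_A00pm_102_s1 : ∃ t, chk3 f_A00pm_102_s1 t 2 40 1 = true :=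
  ⟨(c (a (l 3) (a (l 3) (b (l 3) (a (l 3) (b (b (l 3) (a (l 3) (a (l 3) (b (a (l 3) (l 543373199)) (a (l 543511439) (b (l 543399823) (l 543686287))))))) (b (a (l 3) (a (l 543724687) (l 543515535))) (a (l 544135567) (a (l 543803535) (l 543589775))))))))) (a (l 3) (a (l 3) (b (l 3) (a (l 3) (b (b (l 3) (a (l 3) (a (l 3) (b (l 539620239) (a (l 539607183) (l 539572623)))))) (a (b (l 3) (c (l 540886159) (l 539566735))) (b (l 539568527) (a (l 539636111) (l 539468431)))))))))), by decide +kernel⟩

def k2_A00pm_102_s1 : ∃ t, chk3 f_A00pm_102_s1 t 4 41 1 = true :=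
  ⟨(l 2), by decide +kernel⟩

def k3_A00pm_102_s1 : ∃ t, chk3 f_A00pm_102_s1 t 10 41 2 = true :=
  ⟨(a (b (l 3) (a (l 2) (b (b (l 3) (b (l 543621519) (l 543662735))) (a (l 2) (b (b (b (l 543784847) (l 543874959)) (b (l 543938191) (l 543984527))) (a (l 2) (l 16780232))))))) (b (b (l 3) (b (l 3) (b (a (l 3) (a (l 3) (l 544396687))) (a (l 3) (a (a (l 3) (l 544308111)) (l 544330895)))))) (b (b (a (b (b (l 3) (l 544032655)) (l 543945615)) (b (c (b (l 545705359) (l 545108623)) (a (b (l 543406479) (l 543384463)) (l 543931791))) (c (a (l 544961679) (l 545051279)) (a (a (l 543331983) (l 543351951)) (l 543352975))))) (a (b (l 543845519) (l 543781775)) (b (a (c (l 544775823) (l 543293839)) (l 544623247)) (a (b (l 543949199) (l 543913103)) (l 543998863))))) (a (a (b (b (b (l 543766159) (l 543812751)) (b (l 543858063) (l 543898767))) (b (l 16782928) (l 16787536))) (b (b (b (l 543812239) (l 543825807)) (b (l 16782064) (l 16785664))) (b (l 16787128) (l 16789104)))) (a (b (b (b (l 543888783) (l 543881615)) (l 16786976))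 (l 16784640)) (b (b (b (l 543945615) (l 543925903)) (l 16788960)) (l 16791824))))))), by decide +kernel⟩

def k4_A00pm_102_s1 : ∃ t, chk3 f_A00pm_102_s1 t 10 41 3 = true :=
  ⟨(a (b (l 3) (a (l 2) (b (b (l 3) (b (l 542005647) (b (l 542216591) (l 542360463)))) (a (l 2) (a (b (b (b (b (l 542433167) (l 2)) (l 2)) (l 2)) (l 2)) (b (b (b (c (l 542721679) (l 542044815)) (l 542481039)) (b (l 542537359) (l 542574991))) (b (b (l 2248157831) (l 16783456)) (l 16784648)))))))) (b (b (l 3) (b (l 3) (a (l 3) (a (b (l 3) (a (l 3) (l 541126543))) (b (l 541011599) (l 541050255)))))) (b (b (a (b (b (l 3) (l 541343119)) (b (l 541389967) (l 541446031))) (b (b (a (a (c (l 541888911) (l 540700047)) (l 541157775)) (l 541081999)) (a (c (a (l 541899919) (l 541867919)) (a (l 540767887) (l 540709519))) (l 541105807))) (b (a (a (l 541274767) (l 541217423)) (l 541135759)) (a (a (l 541320591) (l 541259407)) (l 541172623))))) (a (b (b (l 541577615) (l 541717135)) (b (l 541861519) (l 542012047))) (b (a (b (l 541341327) (l 541427599))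 (b (l 541215887) (l 541267087))) (a (b (l 541570191) (l 541719183)) (b (l 541354383) (l 541497231)))))) (a (a (a (b (b (b (l 542302863) (l 542408335)) (b (l 542476175) (l 542523791))) (b (b (l 16783216) (l 16784008)) (l 16785208))) (b (b (b (l 542214031) (l 542327951)) (b (l 16782168) (l 16782976))) (a (l 16782208) (l 16782496)))) (c (b (b (b (l 542375567) (l 542515087)) (b (l 16783368) (l 16784240))) (l 16783760)) (b (b (b (l 541762191) (l 541869711)) (a (l 16782760) (l 16783296))) (a (l 16785008) (l 16785552))))) (a (b (b (b (c (l 542181775) (l 541583759)) (l 542005391)) (a (l 16784272) (l 16784832))) (a (b (l 16785896) (l 16787512)) (l 16782032))) (b (b (b (l 541647759) (l 541779343)) (a (l 16785376) (l 16785920))) (a (l 16787824) (l 16788368)))))))), by decide +kernel⟩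

def k5_A00pm_102_s1 : ∃ t, chk3 f_A00pm_102_s1 t 11 164 1 = true :=
  ⟨(a (a (l 3) (c (b (a (l 3) (a (l 3) (b (l 3) (l 544548751)))) (a (b (c (l 545815183) (c (l 544035983) (l 542933391))) (l 544562575)) (b (c (a (l 545813135) (l 545826703)) (a (l 543425423) (b (l 543391375) (l 543375247)))) (c (a (l 545741455) (l 545735311)) (a (l 543403407) (l 543365775)))))) (a (b (l 3) (b (b (l 3) (c (l 540880271) (l 539679375))) (l 540530319))) (a (b (l 3) (b (c (b (l 541313935) (l 541324175)) (l 539572111)) (c (l 541340303) (l 539666575)))) (b (b (l 3) (l 540262287)) (b (b (l 540285583) (b (l 540304015) (l 540314255))) (c (l 541274511) (l 539610255)))))))) (c (b (a (c (l 545454479) (l 543065999)) (a (l 543884431) (l 544201871))) (a (a (b (c (l 545631887) (l 543225487)) (c (l 545619343) (l 543235471))) (b (l 544171663) (l 544182415))) (b (a (l 543943311) (l 543720335)) (a (l 543962511) (l 543743887))))) (a (b (c (c (l 541451919) (l 540466063)) (l 539747983)) (b (a (b (l 540139663) (l 540156815)) (l 539947151))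 (a (c (l 541129359) (l 539502991)) (l 539986319)))) (b (c (l 540538511) (l 539400335)) (b (l 539910543) (c (l 540620943) (l 539356303))))))), by decide +kernel⟩

def k6_A00pm_102_s1 : ∃ t, chk3 f_A00pm_102_s1 t 11 165 1 = true :=
  ⟨(a (a (b (a (a (l 3) (b (l 3) (c (l 544473231) (l 540833935)))) (c (c (l 545602703) (l 543460495)) (b (l 540703887) (l 540742031)))) (c (c (b (l 545457295) (l 545368719)) (b (l 543434639) (l 543405455))) (b (c (a (l 541688207) (l 541596559)) (l 540207503)) (c (l 541664399) (l 540307343))))) (c (a (b (l 544488847) (b (l 544413327) (l 544363663))) (a (b (b (l 544225167) (l 544447631)) (b (l 544402063) (l 544356239))) (b (b (l 544477071) (l 544436367)) (b (l 544395663) (l 544348559))))) (a (b (b (l 540569487) (l 540610191)) (b (l 540652431) (l 540696975))) (b (b (a (c (l 541362575) (l 539761295)) (l 540386447)) (a (l 540503951) (l 540432527))) (b (a (l 540548495) (l 540480399)) (c (l 541427087) (l 540053647))))))) (c (a (a (b (b (a (l 544412047) (l 544323983)) (l 544340623))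 (b (l 544040335) (a (l 16784568) (l 16791192)))) (b (b (l 544176783) (l 543625871)) (b (l 544143759) (a (l 16792560) (l 16793936))))) (b (b (a (l 543968655) (l 543757199)) (a (l 543966351) (l 543763087))) (b (a (a (l 16793464) (l 16794840)) (a (l 16796216) (l 16797584))) (a (a (l 16795296) (l 16796664)) (a (l 16798016) (l 16799376)))))) (a (a (b (b (c (l 541159311) (l 539582607)) (c (l 541190031) (l 539671951))) (b (c (l 541222031) (l 539766159)) (a (l 540433295) (l 16783776)))) (b (b (l 540030351) (l 540077199)) (b (l 540126095) (l 540177295)))) (b (b (c (l 540656783) (l 539382927)) (c (l 540693391) (l 539425679))) (b (a (a (l 16784280) (l 16784728)) (l 539985807)) (a (l 16788072) (l 16788880))))))), by decide +kernel⟩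

def k7_A00pm_102_s1 : ∃ t, chk3 f_A00pm_102_s1 t 22 83 2 = true :=
  ⟨(a (b (a (b (b (b (l 544306063) (l 544274831)) (l 544219023)) (b (l 544136335) (l 544053903))) (b (b (l 544307599) (l 544244623)) (b (l 544171919) (b (l 16789408) (l 16790304))))) (a (b (b (b (l 16788824) (l 16789736)) (l 16791112)) (l 16793944)) (b (b (b (l 16791200) (l 16792096)) (l 16793464)) (l 16796264)))) (b (b (a (b (l 544313743) (l 544258191)) (b (c (l 545381519) (l 543291791)) (a (l 16790784) (l 16792176)))) (b (a (l 544194703) (c (l 16795528) (l 16791232))) (a (c (l 16794320) (l 16790592)) (c (l 16797488) (l 16792872))))) (c (a (b (b (l 16796224) (l 16798128)) (l 16801064)) (c (a (b (b (l 16799800) (l 16801760)) (l 16804768)) (c (a (b (b (l 16801784) (l 16803776)) (l 16806824)) (b (b (l 16802696) (l 16804688)) (l 16807744))) (b (b (l 16800872) (l 16802800)) (l 16805768)))) (a (b (b (l 16797368) (l 16799216)) (l 16802056)) (c (b (b (l 16799528) (l 16801408)) (l 16804280)) (b (b (l 16798224) (l 16800040)) (l 16802832))))))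 (a (b (b (l 16787008) (l 16793952)) (l 16796568)) (c (a (b (b (l 16795048) (l 16796792)) (l 16799472)) (c (b (b (l 16796944) (l 16798712)) (l 16801416)) (b (b (l 16795704) (l 16797416)) (l 16800040)))) (a (b (b (l 16792856) (l 16794496)) (l 16797008)) (b (b (l 16793904) (l 16795536)) (l 16798040)))))))), by decide +kernel⟩

def k8_A00pm_102_s1 : ∃ t, chk3 f_A00pm_102_s1 t 22 83 3 = true :=
  ⟨(a (b (b (b (b (a (l 540974223) (l 540857999)) (a (l 540997775) (l 540881807))) (c (b (l 541708431) (l 541725327)) (b (l 540507023) (l 540585871)))) (b (c (b (l 541745551) (l 541769615)) (b (l 540673679) (l 540768911))) (b (c (l 541799055) (l 540871567)) (c (l 541835151) (l 540981903))))) (a (b (b (b (l 541439119) (l 541566863)) (l 16786744)) (b (l 16788376) (l 16790000))) (b (b (b (l 16785752) (l 541367183)) (l 16787832)) (l 16790280)))) (b (b (b (a (l 540744079) (c (l 541439119) (l 540118415))) (a (l 540798351) (c (l 541472399) (l 540233359)))) (b (a (b (l 540848015) (l 540885647)) (b (l 540712079) (l 16785992)))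 (a (b (l 16785440) (l 16786088)) (c (l 16788768) (l 16786272))))) (a (c (c (b (b (l 16789552) (l 16791104)) (l 16793488)) (b (b (l 16787888) (l 16789344)) (l 16791760))) (c (b (b (l 16786984) (l 16788592)) (l 16790936)) (b (b (b (l 16786096) (l 16786832)) (l 16787936)) (l 16790080)))) (c (c (a (b (b (l 16790792) (l 16792328)) (l 16794688)) (b (b (l 16791632) (l 16793160)) (l 16795496))) (b (b (l 16789192) (l 16790624)) (l 16792832))) (c (b (b (l 16788048) (l 16789648)) (l 16791976)) (b (b (l 16787472) (l 16788944)) (l 16791080))))))), by decide +kernel⟩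

def k9_A00pm_102_s1 : ∃ t, chk3 f_A00pm_102_s1 t 23 83 2 = true :=
  ⟨(b (b (a (b (a (c (l 16794664) (l 16790240)) (a (l 16794416) (l 16795768))) (a (c (l 16796744) (l 16791880)) (l 16796928))) (b (a (l 16797800) (l 16800488)) (a (l 16799592) (l 16802248)))) (a (b (a (c (l 16798760) (l 16793520)) (l 16798720)) (a (c (l 16800712) (l 16795144)) (l 16800488))) (b (a (l 16801360) (l 16803992)) (a (l 16803096) (l 16805712))))) (a (c (a (c (a (c (a (c (b (b (l 16803976) (l 16805984)) (l 16809064)) (b (b (l 16803232) (l 16805216)) (l 16808248))) (b (b (l 16804504) (l 16806496)) (l 16809552))) (a (b (b (l 16802136) (l 16804072)) (l 16807032)) (b (b (l 16802968) (l 16804904)) (l 16807864)))) (b (b (l 16805008) (l 16806976)) (l 16809976))) (a (c (b (b (l 16801088) (l 16802960)) (l 16805840)) (b (b (l 16799656) (l 16801472)) (l 16804256))) (b (b (l 16801816) (l 16803664)) (l 16806488)))) (c (b (b (l 16807544) (l 16809488)) (l 16812480)) (b (b (l 16803968) (l 16805784)) (l 16808584)))) (a (c (a (b (b (l 16797576)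 (l 16799304)) (l 16801968)) (b (b (l 16798784) (l 16800512)) (l 16803160))) (b (b (l 16795424) (l 16797056)) (l 16799536))) (b (b (l 16798928) (l 16800568)) (l 16803096)))) (c (a (b (b (l 16808840) (l 16810696)) (l 16813552)) (b (b (l 16811976) (l 16813824)) (l 16816648))) (a (b (b (l 16801008) (l 16802616)) (l 16805096)) (b (b (l 16803080) (l 16804672)) (l 16807104)))))), by decide +kernel⟩

def k10_A00pm_102_s1 : ∃ t, chk3 f_A00pm_102_s1 t 23 83 3 = true :=
  ⟨(b (b (a (b (c (a (l 541289103) (l 16787688)) (a (l 539961231) (l 16784472))) (c (a (l 16787568) (l 16788904)) (a (l 16784672) (l 16785528)))) (b (a (l 16786424) (l 16787200)) (a (l 16787440) (l 16788192)))) (a (b (a (c (l 16788864) (l 16785880)) (l 16787680)) (a (c (l 16790200) (l 16787216)) (l 16788848))) (b (a (l 16788504) (l 16789232)) (a (l 16789648) (l 16790344))))) (a (a (c (c (b (b (l 16792832) (l 16794352)) (l 16796664)) (b (b (l 16790400) (l 16791816)) (l 16793968))) (b (b (b (l 16788320) (l 16789104)) (l 16790248)) (l 16792456)))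 (b (b (c (l 16792856) (l 16789504)) (l 16791680)) (l 16794056))) (a (b (b (b (l 16790552) (l 16791176)) (l 16792376)) (l 16794680)) (b (b (a (l 16791368) (l 16791768)) (l 16793120)) (l 16795344))))), by decide +kernel⟩

def k11_A00pm_102_s1 : ∃ t, chk3 f_A00pm_102_s1 t 4 21 1 = true :=
  ⟨(l 2), by decide +kernel⟩

def k12_A00pm_102_s1 : ∃ t, chk3 f_A00pm_102_s1 t 10 21 1 = true :=
  ⟨(b (a (a (l 2) (b (a (l 2) (a (l 2) (b (c (l 16780960) (c (l 16789352) (l 16782664))) (l 2)))) (l 2))) (b (c (a (b (a (l 16787272) (l 16788824)) (c (l 16802264) (l 16800216))) (b (a (l 16785320) (l 16797696)) (a (l 16803792) (l 16805656)))) (a (b (c (a (l 16785032) (l 16786280)) (a (a (l 16783184) (l 16783720)) (a (l 16789504) (l 16790056)))) (a (c (l 16797104) (l 16794704)) (c (l 16798392) (l 16795808)))) (b (a (a (l 16786304) (l 16786888)) (a (l 16787448) (l 16788000))) (a (c (l 16799704) (l 16796928)) (l 16794232))))) (a (b (c (l 16798736) (a (l 16802360) (l 16803584))) (a (l 2) (l 16803808))) (c (a (l 16815776) (l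 16817680)) (a (c (l 16810104) (l 16806056)) (c (l 16811416) (l 16807152))))))) (c (a (l 2) (b (a (l 16807816) (l 16832616)) (a (l 2) (l 16848080)))) (a (l 2) (b (a (a (l 2) (l 16819888)) (a (l 16821240) (l 16822504))) (a (l 2) (c (l 16838864) (l 16831408))))))), by decide +kernel⟩

def k13_A00pm_102_s1 : ∃ t, chk3 f_A00pm_102_s1 t 11 21 1 = true :=
  ⟨(b (c (a (b (b (a (a (l 16799752) (l 16802008)) (a (l 16804464) (l 16807104))) (a (a (l 16807664) (l 16809856)) (a (l 16812256) (l 16814856)))) (a (a (l 16819680) (l 16821840)) (a (l 16824168) (l 16826720)))) (b (a (a (c (l 16817448) (l 16809944)) (c (l 16820456) (l 16811888))) (a (b (l 16814704) (l 16822272)) (a (l 16820232) (l 16821432)))) (a (a (l 16829320) (l 16831736)) (a (l 16812992) (l 16815160))))) (b (a (a (b (a (c (l 16795136) (l 16792960)) (l 16789880)) (a (l 16795320) (l 16801608))) (a (b (l 16790944) (l 16802640)) (b (l 16791976) (l 16803648)))) (a (a (b (l 16798136) (l 16804528)) (b (l 16798784) (l 16805120))) (a (b (l 16799280) (l 16805528))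 (b (l 16799792) (l 16805824))))) (a (a (a (c (l 16812616) (l 16808160)) (c (l 16813744) (l 16809112))) (a (l 16801928) (l 16802880))) (a (a (l 16803712) (c (l 16817392) (l 16812240))) (a (c (l 16818024) (l 16812552)) (b (l 16811984) (l 16818288))))))) (c (a (a (b (l 16836784) (l 16852680)) (a (l 16827264) (l 16829824))) (a (b (a (l 16845320) (l 16847720)) (l 16841664)) (a (b (l 16849944) (l 16866032)) (b (l 16851984) (l 16868104))))) (a (a (a (b (l 16823672) (l 16837104)) (b (l 16824712) (l 16838216))) (b (a (l 16825680) (l 16826560)) (c (l 16843960) (l 16835392)))) (a (b (a (l 16827328) (l 16827824)) (a (l 16840760) (l 16841192))) (b (a (l 16828040) (l 16827936)) (a (l 16841328) (l 16841184))))))), by decide +kernel⟩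

def k14_A00pm_102_s1 : ∃ t, chk3 f_A00pm_102_s1 t 2 11 1 = true :=
  ⟨(a (l 2) (a (a (l 2) (a (l 2) (a (l 2) (b (b (b (l 16858440) (l 2)) (l 2)) (l 2))))) (c (b (a (b (a (l 16833648) (l 16860152)) (a (l 16905168) (l 16911016))) (b (a (a (l 16885200) (l 16887728)) (a (l 16890008) (l 16850216))) (a (l 16917232) (l 16890920)))) (a (a (l 2) (l 16910760)) (b (a (l 16945872) (l 16951944)) (a (l 16972568) (l 16979144))))) (b (b (b (a (a (l 16851344) (c (l 16858608) (l 16848248))) (a (a (l 16854512) (l 16854872)) (a (l 16854960) (l 16854744)))) (a (a (l 16865080) (l 16867440)) (a (l 16847824) (a (l 16868928) (l 16868656))))) (a (a (l 16865312) (c (l 16894880) (l 16881312))) (a (c (l 16896992) (l 16861720)) (a (l 16890544) (l 16890248))))) (a (b (a (l 2) (l 16917768)) (l 2)) (b (a (l 16876816) (a (l 16919264) (l 16919128))) (a (l 16945872) (l 16946664)))))))), by decide +kernel⟩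

def k15_A00pm_102_s1 : ∃ t, chk3 f_A00pm_102_s1 t 2 3 1 = true :=
  ⟨(a (l 2) (b (a (l 2) (a (l 2) (a (l 2) (b (b (b (l 16946000) (l 2)) (l 2)) (l 2))))) (l 2))), by decide +kernel⟩

def k16_A00pm_102_s1 : ∃ t, chk3 f_A00pm_102_s1 t 12 4 1 = true :=
  ⟨(b (l 3) (b (l 3) (b (l 3) (a (l 3) (b (b (l 3) (a (l 3) (a (l 3) (c (l 540844943) (l 538365839))))) (a (b (l 3) (c (l 541929615) (l 538841743))) (b (b (a (l 3) (c (l 541011855) (l 538431887))) (a (c (l 541410191) (l 538589327)) (c (l 541118351) (l 538472079)))) (c (a (l 541550223) (l 541003151)) (a (l 538652559) (l 538540431)))))))))), by decide +kernel⟩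

def k17_A00pm_102_s1 : ∃ t, chk3 f_A00pm_102_s1 t 13 8 1 = true :=
  ⟨(l 3), by decide +kernel⟩

def k18_A00pm_102_s1 : ∃ t, chk3 f_A00pm_102_s1 t 13 18 1 = true :=
  ⟨(b (l 3) (a (l 3) (b (l 3) (a (l 3) (a (l 3) (b (l 3) (c (l 537213839) (l 536731279)))))))), by decide +kernel⟩

def k19_A00pm_102_s1 : ∃ t, chk3 f_A00pm_102_s1 t 13 38 1 = true :=
  ⟨(a (a (l 3) (a (b (l 3) (b (l 3) (c (l 539032719) (l 537791119)))) (b (l 3) (b (a (l 3) (c (l 538003599) (l 537507983))) (c (l 538490767) (l 537673615)))))) (c (b (a (b (a (l 3) (l 537565071)) (l 538257039)) (b (a (b (l 537415055) (l 537463439)) (c (l 537418895) (l 537202575))) (a (l 537534351) (l 538081167)))) (a (b (b (l 537807503) (l 537865871)) (a (l 538007951) (l 537883791))) (b (a (l 537649551) (l 537525135)) (a (l 537759887) (l 537636751))))) (b (a (b (l 537452943) (a (l 537276559) (l 537157263))) (b (a (l 536944527) (c (l 536960399) (l 536692623))) (a (l 537040527) (a (l 536955791) (l 536899471))))) (a (b (c (l 537484943) (l 537211791)) (a (l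 537552271) (l 537435535))) (b (a (l 537180303) (l 537065871)) (a (l 537319823) (l 537205647))))))), by decide +kernel⟩

def k20_A00pm_102_s1 : ∃ t, chk3 f_A00pm_102_s1 t 13 39 1 = true :=
  ⟨(a (b (c (a (b (l 540038799) (l 540312463)) (b (a (l 539374735) (l 538870159)) (l 539465103))) (a (b (l 538083983) (l 538182287)) (b (a (l 537903247) (l 537783183)) (l 537943439)))) (c (b (a (b (l 540505487) (l 540628623)) (b (l 539701391) (l 539851919))) (a (b (l 540747407) (l 540862095)) (b (l 539997327) (l 540137359)))) (b (a (b (l 538252175) (l 538295439)) (b (l 538017935) (l 538064783))) (a (b (l 538338959) (l 538387599)) (c (l 538233487) (l 538018959)))))) (b (c (a (b (a (l 538308495) (l 537968783)) (a (l 538701455) (l 538120079))) (b (a (l 537851279) (l 537732751)) (a (l 537932687) (l 537819279)))) (a (b (a (l 537667727) (l 537555855)) (a (l 537773967) (l 537664911))) (b (a (l 537443471) (l 537331599)) (a (l 537556111) (l 537447055))))) (c (a (b (a (l 539067023) (l 538528143)) (a (l 539407247) (l 16789640)))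 (b (a (l 538007695) (l 16784432)) (l 538579599))) (a (b (a (l 537873807) (l 537767055)) (a (l 537969807) (l 537864335))) (b (a (l 537661583) (l 537555855)) (a (l 537761679) (l 16783552))))))), by decide +kernel⟩

def k21_A00pm_102_s1 : ∃ t, chk3 f_A00pm_102_s1 t 12 40 2 = true :=
  ⟨(a (b (a (a (l 3) (b (l 3) (l 542904207))) (b (l 542506383) (l 542631823))) (b (a (a (a (b (b (l 3) (l 543236751)) (b (l 543271823) (l 543306895))) (a (b (b (l 3) (l 543161231)) (l 543213455)) (b (b (b (l 3) (a (b (l 3) (l 543101839)) (c (l 544257679) (l 541940367)))) (c (l 544289423) (l 541976719))) (b (l 543144079) (l 543179663))))) (b (b (b (l 542964879) (a (b (l 543017615) (c (l 544212367) (l 541886351))) (l 542934927))) (a (c (l 544230031) (b (l 541898383) (l 541914767))) (l 542956431))) (b (a (l 541733263) (l 542987151)) (a (l 543108239) (l 543018639))))) (b (b (l 542705295) (l 542734735)) (a (b (l 542854287) (l 542885263)) (l 541881743)))) (a (a (b (a (b (l 543342223) (l 543377551)) (b (l 543239823) (l 543274639)))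 (a (l 543431567) (l 543327375))) (b (a (b (l 543141519) (l 16786000)) (l 543067023)) (a (b (l 16787688) (l 16789400)) (l 543131791)))) (b (a (c (l 16786096) (l 541783439)) (l 542749327)) (a (l 542995087) (l 16795256)))))) (b (a (b (l 542084751) (l 542229391)) (b (a (l 541725583) (l 541463439)) (a (l 541889167) (l 541641871)))) (b (b (a (l 542331023) (l 541889167)) (a (c (l 543650447) (l 541187983)) (l 541965967))) (a (b (a (l 16784488) (l 16797816)) (a (l 16798144) (l 16800928))) (b (a (l 16800512) (l 16803000)) (l 16789112)))))), by decide +kernel⟩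

def k22_A00pm_102_s1 : ∃ t, chk3 f_A00pm_102_s1 t 13 40 2 = true :=
  ⟨(b (a (a (b (b (l 540972431) (l 541079183)) (a (l 541373839) (l 16786864))) (b (l 538995855) (a (l 16788392) (l 16799816)))) (a (b (a (l 16794976) (l 16794216)) (a (l 16800016) (l 16799328))) (b (a (l 16792280) (l 16788880)) (a (l 16797520) (l 16794328))))) (a (b (b (a (l 541376655) (l 16793000)) (a (l 16787616) (l 16806296))) (a (a (l 16806728) (l 16808624)) (l 16794936))) (b (a (a (l 16805504) (l 16804904)) (l 16791496)) (a (l 16790296) (l 16787328))))), by decide +kernel⟩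

def k23_A00pm_102_s1 : ∃ t, chk3 f_A00pm_102_s1 t 6 82 2 = true :=
  ⟨(a (a (b (a (a (b (b (l 543432591) (l 543468431)) (b (l 543771535) (l 544065423))) (b (a (l 543830415) (l 543465103)) (a (b (l 16794640) (l 16796400)) (l 16796944)))) (b (a (b (l 16794808) (l 16796504)) (l 16798552)) (a (a (l 16798368) (l 16799784)) (l 16801904)))) (a (b (a (b (l 544083087) (c (l 16801496) (l 16794400))) (b (l 16801480) (l 16800600))) (a (b (a (l 16798952) (l 16800304)) (l 16801392)) (b (l 16802336) (l 16804072)))) (b (a (a (l 16801808) (l 16803192)) (l 16805264)) (a (a (l 16805240) (l 16806600)) (l 16808632))))) (b (a (b (a (l 16801376) (l 16804104)) (a (l 16804664) (l 16807336))) (b (l 16797464) (l 16811112))) (b (a (a (l 16807976) (l 16810600)) (l 16814328)) (a (c (l 16819752) (l 16805800)) (l 16817584))))) (a (b (a (c (l 16823744) (l 16793768)) (l 16795808)) (a (c (l 16831128) (l 16799176)) (l 16802248))) (a (b (l 16796600) (l 16803240)) (b (l 16804360) (a (l 16822800) (l 16819896)))))), by decide +kernel⟩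

def k24_A00pm_102_s1 : ∃ t, chk3 f_A00pm_102_s1 t 6 166 2 = true :=
  ⟨(a (a (b (a (a (b (l 16803144) (l 16804888)) (b (l 16805800) (l 16807512))) (a (a (l 16808656) (l 16809992)) (l 16812000))) (a (b (a (l 16806608) (l 16809216)) (a (l 16808312) (l 16810904))) (b (a (l 16811856) (l 16814512)) (a (l 16813536) (l 16816192))))) (b (a (c (l 16823536) (l 16808696)) (l 16820880)) (a (a (l 16817984) (l 16820544)) (c (l 16833976) (l 16814856))))) (b (a (a (l 16825152) (l 16828280)) (a (l 16808384) (l 16826104))) (a (a (l 16828536) (l 16831712)) (a (l 16801128) (l 16797584))))), by decide +kernel⟩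

def k25_A00pm_102_s1 : ∃ t, chk3 f_A00pm_102_s1 t 12 167 2 = true :=
  ⟨(a (a (c (c (b (b (a (l 16817792) (l 16821288)) (l 16821456)) (l 16824360)) (b (b (a (l 16812536) (l 16815416)) (l 16815752)) (l 16818448))) (a (b (b (l 16805112) (l 16806688)) (l 16809088)) (a (b (b (l 16806616) (l 16808176)) (l 16810560)) (b (b (l 16807616) (l 16809176)) (l 16811544))))) (a (c (c (b (b (l 16824888) (l 16826792)) (l 16829680)) (b (b (l 16818360) (l 16820112)) (l 16822792))) (c (b (b (l 16812128) (l 16813744)) (l 16816208)) (b (b (l 16806200) (l 16807680)) (l 16809936)))) (c (c (b (b (l 16828584) (l 16830488)) (l 16833376)) (b (b (l 16821352) (l 16823112)) (l 16825776))) (c (b (b (l 16814440) (l 16816056)) (l 16818504)) (b (b (l 16807856) (l 16809328)) (l 16811568)))))) (a (c (c (c (b (b (l 16836408) (l 16838368)) (l 16841328)) (b (b (l 16832128) (l 16834008)) (l 16836856))) (c (b (b (l 16827936) (l 16829736)) (l 16832472)) (b (b (l 16823824) (l 16825552)) (l 16828176)))) (c (c (b (b (l 16819808) (l 16821456))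 (l 16823968)) (b (b (l 16815872) (l 16817456)) (l 16819856))) (c (b (b (l 16812032) (l 16813544)) (l 16815832)) (b (b (l 16808280) (l 16809728)) (l 16811904))))) (c (c (b (b (l 16841904) (l 16843840)) (l 16846776)) (c (b (b (l 16834224) (l 16836040)) (l 16838800)) (b (b (l 16829224) (l 16830968)) (l 16833608)))) (c (c (b (b (l 16824320) (l 16825992)) (l 16828520)) (b (b (l 16819520) (l 16821120)) (l 16823536))) (b (b (l 16812504) (l 16814000)) (l 16816248)))))), by decide +kernel⟩

def k26_A00pm_102_s1 : ∃ t, chk3 f_A00pm_102_s1 t 13 167 2 = true :=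
  ⟨(b (b (a (a (l 16831112) (l 16834288)) (a (l 16834768) (l 16789296))) (b (a (a (l 16832416) (l 16835504)) (a (l 16835808) (l 16790352))) (b (b (a (a (l 16832960) (l 16835976)) (a (l 16836232) (l 16832712))) (b (a (a (l 16833128) (l 16836104)) (a (l 16836360) (l 16832832))) (b (a (a (l 16833208) (l 16836168)) (a (l 16836416) (l 16832888))) (a (a (l 16833264) (l 16836208)) (a (l 16836456) (l 16832928)))))) (a (a (l 16833496) (l 16836384)) (a (l 16836632) (l 16812120)))))) (b (b (a (a (b (l 16833904) (a (l 16833304) (l 16835136))) (a (l 16836320) (l 16837120))) (b (a (l 16836928) (l 16812384)) (a (a (l 16837392) (l 16836648)) (a (l 16834864) (l 16810816))))) (b (b (a (a (l 16834568) (l 16837232)) (a (l 16837376) (l 16807488))) (b (a (a (l 16834736) (l 16837400)) (a (l 16837552) (l 16807672))) (b (a (a (l 16834816) (l 16837480)) (a (l 16837632) (l 16813000))) (a (a (l 16834872) (l 16837536)) (a (l 16837696) (l 16813064)))))) (a (a (l 16835112) (l 16837784)) (a (l 16837952) (l 16808096))))) (a (a (l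 16836208) (l 16838896)) (a (l 16839104) (a (l 16836856) (l 16833840)))))), by decide +kernel⟩

def k27_A00pm_102_s1 : ∃ t, chk3 f_A00pm_102_s1 t 12 40 3 = true :=
  ⟨(a (b (a (a (l 3) (b (l 3) (l 539434127))) (b (l 539178383) (c (l 539340431) (l 539178895)))) (b (a (a (a (b (b (l 3) (l 539591055)) (b (l 539564943) (l 539537295))) (b (a (b (l 3) (l 539561359)) (b (b (l 3) (b (c (l 539839887) (l 539476111)) (c (l 539850895) (l 539480463)))) (a (l 539546511) (c (l 539862159) (l 539476111))))) (b (a (l 539536527) (l 539513487)) (l 539501455)))) (b (b (b (l 539482511) (a (b (l 539516047) (a (c (l 539794319) (l 539454863)) (l 539507343))) (l 539465871))) (a (c (b (l 539781263) (l 539801231)) (b (l 539442319) (l 539440271))) (b (l 539471503) (l 539470223)))) (a (b (a (l 539503247) (l 539489167)) (l 539472783)) (b (l 539462031) (l 539444879))))) (b (b (l 539326351) (c (l 539396495) (l 539266959))) (a (b (c (l 539542671) (l 539326351)) (l 539388559)) (b (l 539299727) (l 539300495))))) (a (a (b (a (b (l 539508623)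 (l 539478415)) (l 539459215)) (l 540219279)) (b (a (c (l 539920271) (l 539380879)) (l 539410575)) (a (l 539374479) (l 539358607)))) (b (a (c (l 539646095) (l 539310735)) (c (l 16783608) (l 539232655))) (a (c (l 16784240) (l 539284367)) (c (l 16785184) (l 16784360))))))) (b (a (b (l 538949007) (l 539047311)) (b (a (l 538781327) (l 538649487)) (c (l 538892943) (l 538729103)))) (b (b (a (c (l 539177871) (l 539039887)) (c (l 538960783) (l 538818703))) (a (c (l 539198351) (l 539077519)) (a (l 538993807) (l 16786456)))) (a (b (c (l 539199375) (l 539096207)) (a (c (l 16785856) (l 16785504)) (l 16786816))) (b (a (l 16786696) (l 16787648)) (a (l 16787872) (l 16788824))))))), by decide +kernel⟩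

def k28_A00pm_102_s1 : ∃ t, chk3 f_A00pm_102_s1 t 13 40 3 = true :=
  ⟨(b (a (a (b (a (l 538525839) (l 538407567)) (c (l 538648719) (l 538473871))) (b (c (l 538324623) (l 538127247)) (a (l 538396559) (l 16786264)))) (a (b (a (l 538070671) (l 16785032)) (a (l 16786688) (l 16786992))) (b (a (l 16785240) (l 16785304)) (a (l 16787192) (l 16787264))))) (a (b (b (a (l 538651279) (l 538417295)) (a (l 538697871) (l 538466447))) (a (a (c (l 16789336) (l 16788600)) (l 16789720)) (a (l 16790320) (l 16790816)))) (b (a (a (l 16788880) (l 16789176)) (c (l 16790320) (l 16788456))) (a (a (l 16791224) (l 16791536)) (c (l 16792768) (l 16790792)))))), by decide +kernel⟩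

def k29_A00pm_102_s1 : ∃ t, chk3 f_A00pm_102_s1 t 6 82 3 = true :=
  ⟨(a (a (b (a (a (b (l 540153999) (b (l 539324559) (l 539364751))) (b (a (l 539316111) (l 16783440)) (b (l 16786608) (l 16784592)))) (b (a (c (l 16785936) (l 16784296)) (l 16785632)) (a (b (l 16785240) (l 16785832)) (l 16786768)))) (a (b (a (b (l 539409551) (l 539457423)) (b (l 16785256) (l 16785976))) (a (b (l 16788672) (l 16786928)) (b (l 16786760) (l 16787600)))) (b (a (l 16792064) (l 16788072)) (a (l 16793592) (l 16789600))))) (b (a (b (a (l 16786824) (l 16787952)) (a (l 16787968) (l 16789120))) (b (a (l 16789024) (l 16789992)) (c (l 16790912) (l 16790432)))) (b (a (c (l 16791160) (l 16789696)) (a (l 16791552) (l 16792568))) (a (c (l 16793112) (l 16791184)) (l 16793656))))) (c (a (b (a (l 16792144) (l 16793584)) (a (l 16794976) (l 16796560))) (a (b (l 16794712) (l 16797456)) (b (l 16805032) (a (l 16796824) (l 16793552))))) (a (b (a (a (l 16790976) (l 16791616)) (l 16792392)) (a (a (l 16793728) (l 16794400)) (l 16795232))) (b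 (a (l 16793080) (a (l 16793312) (l 16792376))) (a (a (l 16795816) (l 16795872)) (a (l 16794568) (l 16790992))))))), by decide +kernel⟩

def k30_A00pm_102_s1 : ∃ t, chk3 f_A00pm_102_s1 t 6 83 3 = true :=
  ⟨(b (a (a (b (a (a (b (l 16787848) (l 16788808)) (b (l 16788512) (l 16789512))) (a (b (l 16789672) (l 16790648)) (l 16791352))) (a (b (a (l 16789832) (l 16790640)) (a (l 16790952) (l 16791896))) (b (a (l 16791736) (l 16792928)) (a (l 16792952) (l 16794112))))) (b (a (c (l 16795208) (l 16792872)) (l 16795432)) (a (b (l 16794744) (l 16795896)) (c (l 16797880) (l 16796928))))) (a (c (a (b (l 16797712) (l 16799872)) (b (l 16799360) (l 16801096))) (a (b (l 16796624) (l 16798584)) (b (l 16797808) (l 16799352)))) (a (b (a (l 16799272) (l 16798080)) (a (l 16799368) (l 16795264))) (a (l 16791656) (l 16786368))))) (a (a (a (a (b (b (b (l 16792040) (l 16792784)) (l 16793904)) (l 16796048)) (b (b (l 16798536) (l 16794744)) (l 16796800))) (a (b (b (l 16794304) (l 16795696)) (l 16797672)) (b (b (l 16795424) (l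 16796768)) (l 16798664)))) (a (b (b (c (l 16799328) (l 16796584)) (l 16798448)) (l 16800256)) (b (b (l 16799280) (l 16800504)) (l 16802192)))) (a (b (a (b (l 16801040) (b (l 16801920) (l 16802160))) (a (b (l 16801856) (l 16801120)) (b (l 16800760) (l 16797488)))) (a (b (b (b (l 16807216) (a (b (l 16802296) (l 16801688)) (b (l 16800360) (l 16798440)))) (l 16799784)) (l 16800624)) (b (b (a (l 16806944) (l 16802688)) (l 16791816)) (l 16792560)))) (a (b (b (l 16794280) (l 16790600)) (b (b (a (l 16798248) (l 16793664)) (l 16783072)) (l 16783704))) (b (b (l 16784272) (l 16791296)) (a (a (l 16790712) (l 16788296)) (a (l 16785864) (l 16788648)))))))), by decide +kernel⟩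

def k31_A00pm_102_s1 : ∃ t, chk3 f_A00pm_102_s1 t 12 21 1 = true :=
  ⟨(c (a (b (a (a (b (a (l 16822648) (l 16823872)) (a (l 16837736) (l 16838848))) (b (c (l 16832472) (l 16819272)) (l 16830080))) (b (a (b (l 16824696) (l 16831872)) (b (l 16827320) (l 16834448))) (a (l 16842960) (l 16845448)))) (a (a (b (l 16853976) (l 16869992)) (b (l 16856000) (l 16871880))) (a (b (l 16858216) (l 16873872)) (b (l 16860568) (l 16876072))))) (a (b (b (a (l 16833480) (l 16836080)) (a (l 16848008) (l 16850592))) (a (b (l 16863024) (l 16878416)) (b (l 16865576) (l 16880880)))) (b (b (a (l 16838616) (l 16841040)) (a (l 16853160) (l 16855648))) (a (b (l 16868144) (l 16883440)) (b (l 16870696) (l 16886024)))))) (a (b (a (b (a (b (l 16800336) (l 16806160)) (b (l 16800928) (l 16806544))) (a (b (l 16812112) (l 16818208)) (l 16820448))) (b (a (b (l 16801632) (l 16807032)) (b (l 16802464) (l 16807632))) (a (l 16820624) (l 16815664)))) (b (a (a (l 16827664) (l 16827304)) (a (l 16827072) (l 16826944))) (a (a (l 16840696) (l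 16840072)) (a (l 16839408) (l 16838872))))) (a (b (a (b (l 16805816) (l 16816080)) (b (l 16806648) (l 16816536))) (b (a (l 16826912) (l 16827000)) (a (l 16838432) (l 16838080)))) (b (b (a (l 16807432) (l 16808144)) (a (l 16817024) (l 16817440))) (a (b (l 16827128) (l 16837848)) (b (l 16827264) (l 16837624))))))), by decide +kernel⟩

def k32_A00pm_102_s1 : ∃ t, chk3 f_A00pm_102_s1 t 13 21 1 = true :=
  ⟨(a (a (b (b (a (c (l 16843256) (l 16807480)) (c (l 16845072) (l 16803640))) (a (c (l 16857976) (l 16816928)) (l 16830336))) (a (c (b (l 16873136) (l 16888576)) (b (l 16826800) (l 16837120))) (c (l 16882912) (l 16843816)))) (a (b (b (c (l 16846504) (l 16799336)) (l 16823000)) (c (l 16863688) (l 16843536))) (b (b (c (l 16847416) (l 16794784)) (c (l 16862528) (l 16803096))) (c (l 16865096) (b (l 16812040) (l 16821608)))))) (c (b (a (a (b (l 16847688) (l 16863080)) (b (l 16847168) (l 16862936))) (a (b (l 16803744) (l 16861928)) (b (l 16822032) (l 16817912)))) (a (a (b (l 16878968) (l 16895184)) (b (l 16879200)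 (l 16895784))) (a (b (l 16878672) (l 16895720)) (b (l 16877192) (l 16894824))))) (b (a (b (a (l 16790024) (l 16785120)) (a (l 16797768) (l 16792248))) (b (a (l 16780104) (l 16774984)) (a (l 16786600) (l 16780848)))) (a (b (a (l 16806144) (l 16800048)) (a (l 16815200) (l 16808512))) (a (b (l 16793768) (l 16801632)) (b (l 16787368) (l 16794584))))))), by decide +kernel⟩

def k33_A00pm_102_s1 : ∃ t, chk3 f_A00pm_102_s1 t 12 11 1 = true :=
  ⟨(c (b (a (b (a (a (l 16873176) (b (l 16887952) (l 16904040))) (a (b (l 16889840) (l 16905880)) (b (l 16891840) (l 16907808)))) (a (a (l 16925640) (l 16927696)) (a (l 16929704) (l 16889672)))) (b (a (b (a (l 16894064) (l 16896440)) (a (l 16909864) (l 16912136))) (a (b (l 16898936) (l 16914576)) (b (l 16901536) (l 16917136)))) (a (a (l 16912696) (l 16925360)) (b (l 16926280) (l 16947144))))) (a (b (a (l 16956912) (l 16919464)) (a (l 16985088) (l 16990304))) (b (a (b (l 16958152) (l 16973432)) (b (l 16962744) (l 16978040))) (a (l 16995336) (b (l 16993024) (l 17007640))))))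 (b (a (b (a (b (a (l 16854216) (l 16853384)) (l 16857208)) (b (a (l 16852448) (l 16851472)) (a (l 16866216) (l 16865280)))) (a (a (l 16889688) (l 16889016)) (b (l 16880368) (l 16895216)))) (b (a (b (a (l 16850624) (l 16849872)) (a (l 16864296) (l 16863344))) (b (a (l 16849200) (l 16848624)) (a (l 16862344) (l 16861216)))) (a (b (l 16878400) (l 16893168)) (b (l 16881416) (l 16890880))))) (a (a (b (b (l 16911360) (l 16925776)) (l 16946848)) (b (l 16896312) (l 16946192))) (b (a (b (l 16908088) (l 16923072)) (b (l 16905928) (l 16920984))) (a (l 16945048) (l 16943360)))))), by decide +kernel⟩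

def k34_A00pm_102_s1 : ∃ t, chk3 f_A00pm_102_s1 t 13 11 1 = true :=
  ⟨(b (a (a (b (c (a (b (l 16904160) (l 16919808)) (b (l 16906512) (l 16922320))) (a (b (l 16847944) (l 16859896)) (b (l 16844744) (l 16857120)))) (a (c (l 16943240) (l 16881592)) (b (c (l 16938088) (l 16872048)) (c (l 16953744) (l 16887160))))) (b (c (a (l 16916424) (l 16918240)) (b (l 16856184) (l 16859320))) (c (a (l 16948216) (l 16950376)) (b (l 16874656) (l 16879832))))) (c (b (a (a (l 16898784) (l 16878944)) (a (l 16879552) (b (l 16912560) (l 16930280)))) (a (a (l 16952416) (l 16954200)) (a (l 16913680) (l 16914624)))) (a (a (b (l 16841592) (l 16862696)) (b (l 16838800) (l 16855536))) (b (a (b (l 16810184) (l 16822064)) (b (l 16802520) (l 16811608))) (a (l 16847376) (l 16837976)))))) (a (b (a (b (c (l 16967864) (l 16903160)) (c (l 16983168) (l 16918432))) (b (c (l 16972944) (l 16895728)) (c (l 16988392) (a (l 16914368) (l 16908968))))) (a (b (c (l 16998304) (l 16933808)) (c (l 17013008) (l 16948928))) (a (c (l 17009800) (l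 16980144)) (b (l 16984864) (l 16979400))))) (a (a (b (c (l 16984288) (l 16937064)) (c (l 17014984) (l 16927712))) (b (c (l 16986624) (l 16930704)) (c (l 17017752) (l 16922000)))) (a (b (c (l 16988784) (l 16923600)) (c (l 17020456) (l 16915720))) (b (c (l 16990616) (l 16915504)) (c (l 17023040) (l 16908760))))))), by decide +kernel⟩

def k35_A00pm_102_s1 : ∃ t, chk3 f_A00pm_102_s1 t 28 8 1 = true :=
  ⟨(l 3), by decide +kernel⟩

def k36_A00pm_102_s1 : ∃ t, chk3 f_A00pm_102_s1 t 29 16 1 = true :=
  ⟨(l 3), by decide +kernel⟩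

def k37_A00pm_102_s1 : ∃ t, chk3 f_A00pm_102_s1 t 29 34 1 = true :=
  ⟨(l 3), by decide +kernel⟩

def k38_A00pm_102_s1 : ∃ t, chk3 f_A00pm_102_s1 t 58 35 1 = true :=
  ⟨(l 3), by decide +kernel⟩

def k39_A00pm_102_s1 : ∃ t, chk3 f_A00pm_102_s1 t 59 70 1 = true :=
  ⟨(a (l 3) (b (l 3) (a (l 3) (b (a (l 3) (c (c (l 535316879) (l 535086991)) (l 534738063))) (a (c (a (a (l 3) (l 535258767)) (l 535252879)) (a (a (l 3) (l 534783887)) (l 534778767))) (c (l 535509391) (l 534768527))))))), by decide +kernel⟩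

def k40_A00pm_102_s1 : ∃ t, chk3 f_A00pm_102_s1 t 59 71 1 = true :=
  ⟨(a (a (b (l 3) (b (l 3) (a (c (l 535525775) (l 535023503)) (c (l 535504271) (l 535005583))))) (b (b (l 3) (c (c (l 535501967) (l 535254159)) (c (l 535005071) (l 534754703)))) (c (b (c (l 535527567) (l 535277711)) (c (l 535592335) (l 535348623))) (b (c (l 535026831) (l 534774671)) (c (l 535102095) (l 534852751)))))) (c (b (a (b (a (b (l 3) (l 535601039)) (b (b (l 3) (l 535304079)) (l 535313039))) (c (l 535459727) (l 535215503))) (c (a (b (a (b (a (b (l 535405199) (l 535412111)) (b (l 535401103) (l 535408783))) (l 535551119)) (b (b (l 535394703) (l 535402639)) (l 535411855))) (a (l 535437199) (l 535428239))) (b (b (l 535654287) (l 535400847)) (l 535418511))) (a (b (a (b (c (a (l 535230095) (l 535225999)) (a (l 535110287) (l 535106191))) (l 535177359)) (b (b (l 535156879) (l 535164047)) (l 535172239))) (a (l 535195279) (l 535187087))) (b (b (l 535148431) (l 535161999)) (l 535177871))))) (a (b (c (l 535485327) (l 535239311)) (c (l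 535549583) (l 535309711))) (a (b (c (l 535456399) (l 535213199)) (l 535537039)) (b (c (l 535441295) (l 535199375)) (l 535386255))))) (b (a (a (b (b (l 3) (l 534843279)) (l 534856847)) (b (c (b (l 534938767) (l 534949263)) (l 534699919)) (l 534840975))) (c (a (b (a (b (c (l 534987919) (l 534867087)) (l 534936207)) (b (l 534920335) (l 534931087))) (a (l 534952079) (l 534944655))) (b (b (l 534909327) (l 534921615)) (l 534935695))) (a (b (c (a (l 534751375) (l 534744463)) (a (l 534629519) (l 534622863))) (a (l 534707343) (l 534700687))) (b (l 534941839) (l 534692239))))) (a (b (c (l 534992015) (l 534743439)) (c (l 535066511) (l 534820495))) (a (b (c (l 534968719) (l 534722703)) (c (l 535043215) (l 534799503))) (b (c (l 534955663) (l 534710927)) (l 534908047))))))), by decide +kernel⟩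

def k41_A00pm_102_s1 : ∃ t, chk3 f_A00pm_102_s1 t 28 18 1 = true :=
  ⟨(b (a (l 3) (b (l 3) (c (b (a (l 3) (a (l 3) (a (l 536034591) (l 536007055)))) (a (a (l 3) (b (l 3) (l 536414863))) (c (l 536402063) (l 536188303)))) (b (a (l 3) (a (l 3) (b (l 3) (l 535716495)))) (a (a (l 3) (c (l 536038543) (l 535786639))) (c (a (l 535986575) (l 535936143)) (a (l 535737999) (l 535690639)))))))) (a (a (b (l 3) (c (b (l 536984975) (l 537092495)) (b (l 536512143) (l 536619407)))) (b (a (b (l 3) (c (l 536782991) (l 536315535))) (b (b (l 3) (c (l 536639375) (l 536172431))) (c (l 536725647) (l 536262799)))) (c (b (l 536867215) (l 536974223)) (b (l 536403599) (l 536510607))))) (b (c (b (a (c (l 536892815) (b (l 536386703) (l 536440975))) (b (l 536381327) (l 536434063))) (a (c (l 536729487) (l 536524431)) (b (l 536486031) (l 536540559)))) (b (a (c (a (l 536212623) (l 536159119)) (a (l 535961743) (l 535911311))) (b (a (l 535958159) (l 535909007)) (c (l 536107151) (l 535864719)))) (a (c (a (l 536327567) (l 536274831))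 (a (l 536078735) (l 536028815))) (c (a (l 536219791) (l 536167823)) (a (l 535977359) (l 535928207)))))) (a (c (b (a (l 536784015) (l 536718735)) (l 536856719)) (b (a (l 536327311) (l 536269967)) (c (l 536525711) (l 536275599)))) (a (c (b (l 536655503) (l 536763791)) (b (l 536214671) (l 536321935))) (c (b (l 536595599) (l 536701071)) (b (c (l 536278415) (l 536039055)) (l 536267151)))))))), by decide +kernel⟩

def k42_A00pm_102_s1 : ∃ t, chk3 f_A00pm_102_s1 t 28 19 1 = true :=
  ⟨(b (a (b (c (b (a (b (l 537169295) (l 537217423)) (l 537073807)) (a (l 537288591) (l 537169807))) (b (a (b (l 536694927) (l 536742287)) (c (l 536734351) (l 536477327))) (a (l 536814479) (c (l 536831375) (l 536573583))))) (c (b (a (l 537403535) (l 537284239)) (a (l 537515663) (l 537396623))) (b (a (l 536953743) (l 536844431)) (a (l 537093775) (l 536983951))))) (b (c (b (a (l 536959375) (l 536830095)) (a (l 537052303) (l 536928143))) (a (b (c (l 536627087) (l 536374927)) (c (l 536721807) (l 536469647))) (b (c (l 536509839) (l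 536265615)) (c (l 536608399) (l 536363407))))) (c (b (a (l 537166223) (l 537043343)) (a (l 537278863) (l 16779624))) (a (b (c (l 536854927) (l 536611471)) (c (l 16778088) (l 16776424))) (b (c (l 16776328) (l 536504975)) (c (l 16777312) (l 16775424))))))) (c (b (a (b (a (l 537614735) (l 16781656)) (a (l 16783072) (l 16783048))) (a (b (l 16781408) (l 16782808)) (a (l 16781704) (l 16781376)))) (b (a (a (l 16784608) (l 16784592)) (a (l 16784376) (l 16783904))) (a (a (l 16786296) (l 16786296)) (a (l 16786104) (l 16785264))))) (c (a (b (b (l 537268879) (l 537382287)) (b (a (l 16782688) (l 16782448)) (a (l 16784304) (l 16784096)))) (b (a (b (l 16779216) (l 16780528)) (a (l 16779296) (l 16778872))) (a (l 16782800) (b (l 16781344) (l 16782680))))) (b (a (b (a (l 16778608) (l 16778104)) (a (l 16779696) (l 16779224))) (a (b (l 16777392) (l 16778552)) (b (l 16776448) (l 16777648)))) (b (a (a (l 16780976) (l 16780536)) (a (l 16779904) (l 16779048))) (a (a (l 16782456) (l 16782048)) (a (l 16781456) (a (l 16780856)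 (l 16780064))))))))), by decide +kernel⟩

def k43_A00pm_102_s1 : ∃ t, chk3 f_A00pm_102_s1 t 58 36 1 = true :=
  ⟨(b (c (a (a (l 3) (b (l 3) (b (c (l 535999887) (l 535766415)) (l 535953295)))) (a (b (b (l 3) (l 535762575)) (b (c (l 535948943) (l 535719055)) (l 535903631))) (b (b (l 535638927) (l 535715215)) (b (l 535787407) (l 535855759))))) (b (a (l 3) (a (b (l 3) (l 535541391)) (c (l 535312271) (l 535062159)))) (a (a (l 3) (b (c (l 535523983) (l 535272079)) (l 535478415))) (a (b (c (l 535479695) (l 535231375)) (c (l 535556751) (l 535311247))) (b (c (l 535437199) (l 535191951)) (c (l 535513487) (l 535271311))))))) (c (c (a (b (a (l 536209039) (l 536155791)) (l 536291215)) (b (a (l 536104079) (l 536054159)) (l 536454543))) (a (b (a (l 535988879) (l 535938959)) (a (l 536113039) (l 536062607))) (b (a (l 535890319) (l 535843471)) (a (l 536013455) (l 535965839))))) (c (b (a (a (l 535755407) (l 535708303)) (a (l 535663135) (l 535618959))) (a (a (l 535887247) (l 535839631)) (a (l 535793295) (l 535748751))))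 (a (b (a (l 535508111) (l 535464079)) (a (l 535644559) (l 535600015))) (b (a (b (l 535386767) (l 535457935)) (l 535347487)) (a (l 535556751) (l 535514767))))))), by decide +kernel⟩

def k44_A00pm_102_s1 : ∃ t, chk3 f_A00pm_102_s1 t 59 36 1 = true :=
  ⟨(b (a (b (c (a (b (l 535593871) (l 535669903)) (b (l 535550863) (l 535626127))) (a (b (l 535374991) (l 535193999)) (b (l 535338639) (l 535156879)))) (c (b (a (l 535741583) (l 535697039)) (a (l 535809423) (l 535764623))) (a (b (l 535276175) (l 535353487)) (b (l 535238287) (l 535314831))))) (c (b (a (b (l 535509135) (l 535583887)) (a (b (l 535481487) (l 535555727)) (b (l 535464079) (l 535537807)))) (a (b (l 535654287) (l 535721359)) (c (b (l 535719567) (l 535782543)) (a (l 535551375) (l 535533199))))) (a (b (b (l 535303823) (l 535121039)) (b (l 535201679) (l 535277711))) (b (a (c (l 535172751) (l 534934415)) (c (l 535157135) (l 534920079))) (c (a (l 535329423) (l 535312527)) (a (l 535096975) (l 535081359))))))) (c (c (a (b (a (l 536005775) (l 535958927))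 (a (l 536117903) (l 536070543))) (a (b (l 535913615) (l 536024719)) (b (l 535870607) (l 16772232)))) (a (b (a (l 535797903) (l 535754127)) (a (l 535920015) (l 535875471))) (a (b (l 535711887) (l 535832463)) (b (l 535671439) (l 535791247))))) (a (b (a (c (l 535576463) (l 535341199)) (c (l 535535503) (l 535303055))) (a (c (l 535705487) (l 535474319)) (c (l 535663503) (l 535435151)))) (a (b (c (l 535496079) (l 535266447)) (c (l 535623311) (l 535397263))) (b (c (b (l 535425935) (l 16770496)) (a (l 535241615) (l 535225231))) (c (l 535584799) (b (l 16768944) (l 16768544)))))))), by decide +kernel⟩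

def k45_A00pm_102_s1 : ∃ t, chk3 f_A00pm_102_s1 t 29 37 1 = true :=
  ⟨(a (b (c (a (b (c (l 536396175) (l 536196751)) (c (l 536496015) (l 536302991))) (a (b (l 536226447) (l 536328847)) (b (l 536177295) (l 536279183)))) (c (b (a (a (l 536006543) (l 535958671)) (a (l 535912079) (l 535866767))) (a (a (l 536117391) (l 536068751)) (a (l 536021391) (l 535975823)))) (a (b (a (l 535767695) (l 535722639)) (a (l 535880847) (l 535835023))) (b (a (l 535678607) (l 535636111)) (a (l 535790479) (l 535747215)))))) (c (a (b (c (l 536598159) (l 536408719)) (c (l 536699023) (l 536511119))) (b (c (l 536488335) (l 536304527)) (a (l 536529295) (l 16774488)))) (c (a (b (l 536196751) (l 536299663)) (b (a (l 536127119) (l 16772504)) (a (l 16773152) (l 16772416)))) (a (b (a (l 535989903) (l 535942543)) (a (l 536093071) (l 536044175))) (b (a (l 535896719) (l 535852431)) (a (l 535997071) (l 16770824))))))) (b (c (a (a (b (l 536129423) (l 536231055)) (b (l 536083087) (l 536184207))) (a (b (l 536038543) (l 536139151)) (b (a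 (l 16771656) (l 16771216)) (l 16771336)))) (c (a (b (a (l 535822991) (l 535780495)) (a (l 535931279) (l 535888271))) (a (b (l 535739535) (l 16770128)) (b (l 535700111) (l 16769128)))) (a (b (a (l 535594895) (l 535554959)) (a (l 535705231) (l 535664783))) (a (b (b (l 16769360) (l 16769024)) (l 535625759)) (b (b (l 16768184) (l 16767864)) (c (l 16767888) (l 16767016))))))) (c (a (b (a (l 536330127) (l 16772960)) (a (l 16773848) (l 16773152))) (a (b (l 16772208) (l 16772408)) (b (l 16771392) (l 16771608)))) (c (a (b (a (l 16771704) (l 16770840)) (a (l 16771616) (l 16770760))) (a (b (l 16769912) (l 16769856)) (b (l 16768936) (l 16768888)))) (a (b (a (l 535809423) (l 535767951)) (a (l 16769904) (l 16768920))) (a (b (c (l 16768616) (l 16767696)) (l 16767880)) (b (l 16767056) (l 16766792)))))))), by decide +kernel⟩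

def k46_A00pm_102_s1 : ∃ t, chk3 f_A00pm_102_s1 t 29 76 1 = true :=
  ⟨(c (a (a (b (a (l 16776432) (l 16775952)) (l 536803215)) (b (a (l 16775424) (l 16774840)) (a (l 16775968) (l 16775376)))) (a (b (a (l 16774200) (l 16773512)) (a (l 16774728) (l 16774032))) (b (a (l 16772760) (b (l 16771736) (a (l 16772192) (l 16771552)))) (a (b (l 16773040) (c (l 16774056) (l 16772184))) (b (a (l 16772224) (l 16770920)) (l 16770968)))))) (a (c (a (b (l 536397711) (l 536495503)) (b (a (l 16773216) (l 16772472)) (c (l 16773576) (l 16772632)))) (a (b (a (l 16773064) (l 16772312)) (a (l 16773072) (l 16772328))) (b (a (l 16771512) (l 16770648)) (a (l 16771528) (l 16770672))))) (a (b (c (a (l 16771680) (l 16770840)) (a (l 16769736) (l 16768768))) (c (a (l 16771936) (l 16771096)) (a (l 16769760) (l 16768800)))) (b (c (a (l 16769936) (b (l 16768832) (l 16768712))) (a (l 16767736) (a (l 16766840) (b (l 16766304) (l 16766024))))) (b (a (l 16768864) (c (l 16768432) (a (l 16766592) (l 16765112)))) (a (c (l 16770016) (a (l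 16768064) (l 16767280))) (l 16766344))))))), by decide +kernel⟩

def k47_A00pm_102_s1 : ∃ t, chk3 f_A00pm_102_s1 t 29 77 1 = true :=
  ⟨(c (a (a (b (c (l 16778376) (l 16776928)) (l 16778816)) (b (a (l 16776888) (l 16776288)) (a (l 16778024) (l 16777432)))) (a (b (a (l 16775648) (c (l 16775432) (l 16773672))) (a (c (l 16777192) (l 16775520)) (b (l 16775072) (l 16774488)))) (b (a (b (a (l 16773840) (l 16772568)) (l 16772720)) (l 16770064)) (c (l 16771312) (l 16769208))))) (a (a (b (a (l 16774616) (l 16773952)) (c (l 16776264) (l 16774176))) (b (a (l 16773232) (l 16772456)) (c (l 16774976) (l 16772680)))) (a (b (a (l 16771632) (a (l 16770920) (b (l 16770232) (l 16770440)))) (b (a (l 16772320) (a (l 16771392) (l 16769944))) (a (c (l 16773792) (l 16771320)) (l 16770048)))) (a (b (a (b (l 16769496) (l 16769016)) (l 16767728)) (c (l 16768400) (l 16765696))) (c (b (l 16766592) (l 16765120)) (b (l 16763896) (l 16762280))))))), by decide +kernel⟩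

def k48_A00pm_102_s1 : ∃ t, chk3 f_A00pm_102_s1 t 29 39 1 = true :=
  ⟨(a (b (a (c (a (l 16780992) (l 16780544)) (b (c (l 16777472) (l 16775248)) (c (l 16778864) (l 16776504)))) (a (c (b (l 16779328) (l 16780256)) (b (l 16775424) (c (l 16777400) (b (l 16774936) (l 16775200))))) (c (b (l 16778296) (l 16778408)) (b (c (l 16775416) (b (l 16772976) (l 16773264))) (c (l 16775328) (b (l 16773096) (l 16772168))))))) (c (a (b (c (l 16783112) (l 16781656)) (c (l 16783656) (l 16782072))) (b (l 16778552) (l 16777008))) (a (b (a (l 16779400) (c (l 16779376) (b (l 16776928) (l 16777032)))) (a (b (l 16780224) (l 16779960)) (l 16777064))) (b (c (l 16775328) (a (l 16774256) (l 16770768))) (c (l 16773464) (l 16770496)))))) (c (b (a (b (a (c (l 16777472) (l 16775720)) (l 16773544)) (l 16773760)) (a (b (l 16770496) (l 16769096)) (l 16769272))) (a (b (l 16772352) (l 16770840)) (a (l 16766800) (l 16763600)))) (b (a (b (a (b (c (l 16773840) (l 16771288)) (l 16771840)) (l 16768872)) (a (l 16770600) (l 16767184))) (a (b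 (l 16765480) (l 16763728)) (b (l 16762056) (l 16760232)))) (a (c (a (l 16769296) (l 16765880)) (b (l 16765520) (l 16763448))) (b (c (l 16761704) (l 16758368)) (l 16758040)))))), by decide +kernel⟩

def k49_A00pm_102_s1 : ∃ t, chk3 f_A00pm_102_s1 t 30 16 1 = true :=
  ⟨(a (l 3) (b (l 3) (a (l 3) (b (l 3) (a (l 3) (b (l 3) (b (a (l 3) (a (l 3) (l 14))) (a (a (a (l 3) (b (l 3) (b (l 3) (c (l 534366607) (l 534041999))))) (c (c (b (c (l 534497167) (l 534353039)) (l 534562959)) (l 534252943)) (l 534011791))) (a (c (c (b (c (l 534424463) (l 534347919)) (l 534423439)) (l 534248591)) (l 534008719)) (c (c (b (l 534380943) (l 534418063)) (l 534244239)) (l 534005903))))))))))), by decide +kernel⟩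

def k50_A00pm_102_s1 : ∃ t, chk3 f_A00pm_102_s1 t 60 34 1 = true :=
  ⟨(a (l 3) (b (l 3) (c (a (b (l 3) (b (a (l 3) (b (l 3) (l 535212687))) (a (c (l 535099791) (l 534890383)) (c (l 535085199) (l 534877071))))) (b (b (l 3) (a (a (l 3) (b (l 3) (l 534874511))) (c (l 534945935) (l 535018895)))) (b (a (c (l 535017359) (l 534815631)) (c (l 535003023) (l 534802831))) (a (c (l 535070351) (l 534863759)) (c (l 535055759) (l 534850703)))))) (b (b (l 3) (a (l 3) (a (c (l 534562191) (l 534357391)) (c (l 534551183) (l 534347663))))) (b (a (a (l 3) (c (l 534621583) (l 534410895))) (a (c (l 534610063) (l 534400655)) (c (l 534598543) (l 534390671)))) (a (a (c (l 534677647) (l 534461327)) (c (l 534665615) (l 534450575))) (a (c (l 534653583) (l 534440079)) (c (l 534642063) (l 534429583))))))))), by decide +kernel⟩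

def k51_A00pm_102_s1 : ∃ t, chk3 f_A00pm_102_s1 t 60 70 1 = true :=
  ⟨(a (b (b (a (l 3) (c (a (c (l 535179663) (l 534962831)) (c (l 535164559) (l 534949007))) (a (c (l 534742927) (l 534519951)) (l 534888335)))) (a (a (l 3) (c (c (l 535241871) (l 535018895)) (l 534679695))) (c (a (c (l 535226511) (l 535004815)) (l 535369615)) (a (l 534667407) (l 534655375))))) (a (c (b (a (c (l 535301007) (l 535072399)) (l 535440527)) (a (l 535225487) (l 535210127))) (b (a (l 534725263) (l 534712463)) (a (l 534755471) (l 534742671)))) (c (b (a (l 535156879) (l 535142031)) (a (l 535194767) (l 535179663))) (b (a (l 534700175) (l 534687631)) (a (l 534729871) (l 534717327)))))) (c (a (b (b (a (c (l 535149711) (l 534935439)) (c (l 535134607) (l 534921871))) (a (l 535355023) (l 535071887))) (b (a (l 535126927) (l 535112079)) (a (l 535164303) (l 535149199)))) (b (b (a (l 535148431) (l 535268495)) (a (l 535057295) (l 535042703))) (a (b (l 535097231) (l 535134095)) (b (l 535082383) (l 535118991))))) (b (a (b (a (l 534876559)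 (l 534865039)) (a (l 534643343) (l 534631567))) (b (a (l 534853519) (l 534573711)) (a (l 534619791) (l 534608271)))) (a (b (a (l 534675599) (l 534663311)) (a (l 534705039) (l 534692751))) (b (a (l 534651535) (l 534639759)) (a (l 534680463) (l 534668687))))))), by decide +kernel⟩

def k52_A00pm_102_s1 : ∃ t, chk3 f_A00pm_102_s1 t 60 71 1 = true :=
  ⟨(a (c (b (a (b (b (a (l 535252623) (l 535237263)) (a (l 535267471) (l 535252623))) (a (c (l 535404943) (l 535165071)) (l 535271567))) (b (a (l 535497871) (l 535213967)) (a (l 535257231) (l 535242639)))) (a (b (a (c (l 535428751) (l 535187343)) (l 535564431)) (a (l 535372431) (l 535360399))) (b (a (l 535283087) (l 535269263)) (a (l 535348111) (l 535335055))))) (c (b (a (b (a (l 534902415) (l 534889103)) (a (l 534923919) (l 534911631))) (b (l 535134607) (l 534889871))) (a (b (a (l 534944399) (l 534933391)) (l 535008143)) (b (l 535181455) (l 534985103)))) (b (a (b (a (l 534662031) (l 534649743)) (l 534673295)) (b (l 534629007) (l 534649999))) (a (b (l 534961295)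 (l 534766991)) (b (l 534670991) (l 534745487)))))) (c (a (b (b (a (l 535198607) (l 535183247)) (a (l 535227791) (l 535212687))) (b (a (l 535255183) (l 535240847)) (a (l 535321487) (l 535307407)))) (b (b (a (l 535167887) (l 535152783)) (a (l 535197583) (l 535182479))) (b (a (l 535226255) (l 535211407)) (a (l 16769968) (l 16769312))))) (b (a (b (a (l 534731919) (l 534719375)) (a (l 534754703) (l 534742415))) (b (a (l 534707087) (l 534695055)) (a (l 534730383) (l 534718351)))) (c (b (a (l 534887823) (l 535130767)) (a (l 534960527) (l 534934927))) (a (b (l 534648463) (l 534722703)) (b (l 534893967) (l 16769480))))))), by decide +kernel⟩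

def k53_A00pm_102_s1 : ∃ t, chk3 f_A00pm_102_s1 t 122 68 1 = true :=
  ⟨(a (b (l 3) (b (l 3) (a (l 3) (c (b (a (l 3) (a (l 3) (a (l 3) (l 534948751)))) (b (a (l 3) (a (b (l 3) (l 534712975)) (c (c (l 534841231) (l 534751119)) (l 534613903)))) (a (l 534729615) (a (l 534725263) (c (l 534880143) (l 534629519)))))) (b (a (l 3) (c (a (l 3) (l 534404751)) (l 534484367))) (a (c (l 534440335) (l 534247567)) (c (a (l 534436751) (l 534568591)) (a (l 534244751) (l 534242703))))))))) (b (b (l 3) (b (l 3) (b (l 3) (a (l 3) (c (a (l 3) (l 534828943)) (l 534477711)))))) (a (a (b (l 3) (b (c (c (l 534765199) (l 534585231)) (l 534306959)) (b (c (c (l 534790799) (l 534609295)) (l 534328463)) (c (a (l 534853007) (l 534715535)) (c (l 534437519) (l 534245775)))))) (b (b (l 3) (c (c (l 534723471) (l 534546575)) (l 534272655))) (c (b (l 534937999) (b (l 534694031) (l 534710159))) (b (l 534302607) (b (l 534324111) (l 534337679)))))) (a (b (c (c (b (l 534680463) (l 534716815)) (l 534523023)) (c (l 534343567) (l 534160015)))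 (b (c (l 534663311) (l 534298255)) (c (l 534964111) (l 534326415)))) (b (c (c (l 534691215) (l 534517391)) (l 534248079)) (c (b (l 534656911) (l 534689167)) (b (l 534293903) (l 534321807)))))))), by decide +kernel⟩

def k54_A00pm_102_s1 : ∃ t, chk3 f_A00pm_102_s1 t 122 69 1 = true :=
  ⟨(c (a (b (a (b (c (a (l 534874767) (l 534868111)) (a (l 534685583) (l 534679695))) (b (l 534989711) (l 534850191))) (b (a (c (l 534861455) (l 534673807)) (b (a (l 534748815) (l 534745999)) (l 534777743))) (a (l 534961295) (c (l 534915983) (l 534723983))))) (a (b (c (l 534988687) (l 534790031)) (c (l 535040911) (l 534837647))) (b (c (l 534974351) (l 534777231)) (c (l 535026319) (l 534824591))))) (b (a (b (a (b (a (l 534876815) (l 534739087)) (l 534771087)) (b (l 534733711) (l 534764175))) (a (c (l 534908815) (l 534717839)) (c (l 534901391) (l 534711439)))) (b (b (a (l 534727055) (l 534720399)) (a (l 534757263) (l 534750351))) (a (l 534800015) (l 534792847)))) (a (b (a (l 534867599) (l 534860431)) (a (l 534916751) (l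 534909839))) (b (a (l 534853519) (l 534846351)) (a (l 534902671) (l 534895247)))))) (a (b (a (b (c (a (l 534492047) (l 534486927)) (l 534291087)) (c (l 534540175) (l 534337935))) (b (a (c (l 534481551) (l 534285199)) (c (b (l 534463631) (l 534490511)) (l 534280591))) (c (l 534797711) (l 534328463)))) (a (b (c (l 534587279) (l 534380687)) (c (l 534630287) (l 534419343))) (b (c (l 534576015) (l 534370959)) (c (l 534618767) (l 534409359))))) (b (a (b (a (b (c (l 534458511) (l 534264719)) (l 534387599)) (b (l 534357647) (l 534382991))) (a (c (l 534522511) (l 534322831)) (l 534686863))) (b (a (c (l 534461071) (l 534268303)) (l 534629263)) (a (l 534413711) (l 534408847)))) (a (b (a (l 534467471) (l 534462607)) (a (l 534507919) (l 534502799))) (b (a (l 534457487) (l 534452623)) (a (l 534497423) (l 534492559))))))), by decide +kernel⟩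

def k55_A00pm_102_s1 : ∃ t, chk3 f_A00pm_102_s1 t 123 68 1 = true :=
  ⟨(a (b (b (a (l 3) (c (c (a (b (l 3) (l 534535823)) (b (l 534620303) (l 534529679))) (a (l 534349711) (l 534344847))) (c (l 534413711) (l 534008463)))) (a (a (c (c (b (l 534589583) (l 534629519)) (l 534439823)) (l 534178447)) (c (c (b (l 534583439) (l 534623119)) (l 534434703)) (l 534174607))) (c (c (a (l 534730639) (l 534590095)) (a (l 534429327) (l 534424463))) (c (l 534254223) (l 534078863))))) (b (a (c (c (a (l 534684815) (l 534678159)) (a (l 534512015) (l 534506639))) (a (l 534243983) (l 534240143))) (c (c (a (l 534671759) (l 534665359)) (l 534764943)) (a (l 534236047) (l 534231951)))) (a (c (b (a (l 534650767) (l 534644623)) (a (l 534682767) (l 534676623))) (a (l 534571407) (l 534298767))) (c (b (l 534901903) (l 534933647)) (a (l 534294415) (l 534290319)))))) (b (b (a (c (b (c (a (l 534480271) (l 534474639)) (l 534583951)) (a (l 534644623) (l 534438031))) (c (l 534171023) (l 534002319))) (c (c (a (l 534489743) (l 534484111))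 (a (l 534330767) (l 534326159))) (a (l 534084239) (l 534081167)))) (a (c (c (a (l 534583951) (l 534578063)) (a (l 534419343) (l 534414223))) (a (l 534163343) (l 534159759))) (c (c (a (l 534571919) (l 534566031)) (l 534672783)) (a (l 534156175) (l 534152591))))) (b (a (c (a (l 534575247) (l 534569615)) (a (l 534228111) (l 534224015))) (c (a (l 534563727) (l 534558095)) (l 534484367))) (a (c (a (l 534641807) (l 534635663)) (a (l 534285967) (l 534281871))) (c (a (l 534629775) (l 534623631)) (l 534541711)))))), by decide +kernel⟩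

def k56_A00pm_102_s1 : ∃ t, chk3 f_A00pm_102_s1 t 123 69 1 = true :=
  ⟨(a (c (a (b (b (b (l 534977167) (l 534738575)) (a (l 534785935) (l 534779023))) (b (a (l 534839183) (l 534832015)) (l 535150991))) (b (b (a (l 534715279) (l 534708879)) (a (l 534772111) (l 534765455))) (b (l 535087759) (l 534867855)))) (a (b (b (a (l 534356111) (l 534351759)) (a (l 534404239) (l 534399375))) (b (a (l 534447759) (l 534442895)) (l 534751631))) (b (b (a (l 534347151) (l 534342799)) (a (l 534394767) (l 534390159))) (b (l 534702223) (l 534741647))))) (c (b (a (b (a (l 534702479) (l 534696335)) (l 535021711)) (b (l 535086991) (l 535008399))) (a (b (l 534805135) (l 535121551)) (b (c (l 16769944) (l 16769280)) (c (l 16769176) (l 16768400))))) (b (a (b (l 534602639) (l 534649743)) (b (l 534593679) (l 534371983))) (a (b (l 534692495) (l 534463119)) (b (l 534414479) (l 16767184)))))), by decide +kernel⟩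

def k57_A00pm_102_s1 : ∃ t, chk3 f_A00pm_102_s1 t 61 70 1 = true :=
  ⟨(a (c (a (b (a (b (l 534985871) (l 535028367)) (b (l 534971535) (l 535013775))) (a (b (l 535067535) (l 535103887)) (b (l 535052687) (l 535088783)))) (b (a (b (l 535091343) (l 534999183)) (b (l 534942607) (l 534984335))) (a (b (l 535037839) (l 535073679)) (b (l 535022735) (l 16769016))))) (a (b (a (b (l 534562703) (l 534596751)) (b (l 534819983) (l 534585487))) (a (b (l 534627983) (l 534656911)) (b (l 534616463) (l 534645135)))) (b (a (b (l 534809231) (l 534574479)) (b (l 534798479) (l 534563471))) (a (b (l 534605199) (l 534633615)) (b (l 534594191) (l 16769664)))))) (c (a (b (a (b (l 534927503) (l 534968975)) (c (l 535299215) (l 535100047))) (a (b (l 535007375) (l 16768232)) (b (l 16768160) (l 16767424)))) (a (b (b (c (l 16769272) (l 16768448)) (c (l 16768552) (l 16767608))) (b (c (l 16767856) (l 16766792)) (c (l 16767184) (l 16765992)))) (b (b (c (l 16768432) (l 16767544)) (c (l 16767720) (l 16766712))) (c (b (l 16767032) (c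 (l 16766648) (l 16766024))) (b (l 16765904) (l 16765088)))))) (a (b (a (b (l 534519439) (l 534552719)) (b (l 534509199) (l 16769760))) (a (b (l 16769720) (l 16766104)) (b (l 16766136) (l 16765144)))) (b (a (b (l 16769792) (l 16766152)) (b (l 16766160) (l 16765152))) (a (c (l 16765240) (l 16764072)) (b (l 16764152) (l 16763152))))))), by decide +kernel⟩

def k58_A00pm_102_s1 : ∃ t, chk3 f_A00pm_102_s1 t 61 71 1 = true :=
  ⟨(b (c (a (c (a (a (l 535264655) (l 535248527)) (a (l 535232143) (l 535484047))) (a (a (l 535038095) (l 535023759)) (a (l 535009423) (l 534994831)))) (a (a (b (l 16767504) (l 16766792)) (b (l 16766696) (c (l 16766680) (l 16765304)))) (a (a (b (l 16766080) (l 16765376)) (b (l 16765664) (c (c (l 16765976) (l 16765256)) (l 16764160)))) (a (b (c (c (l 16766192) (l 16765512)) (l 16764488)) (c (b (l 16765416) (l 16764992)) (l 16763744))) (b (c (b (l 16765632) (l 16765304)) (l 16764072)) (l 16766496)))))) (a (a (b (a (l 534683023) (l 534671247)) (a (l 16770408) (l 16766904))) (a (b (l 16769600)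 (l 16766008)) (b (l 16766064) (l 16765096)))) (a (a (b (l 16765128) (l 16764160)) (c (l 16764352) (l 16763008))) (a (b (l 16763200) (l 16764776)) (c (b (l 16762848) (l 16761944)) (b (l 16761424) (l 16760384))))))) (c (a (a (b (a (l 16769096) (l 16768384)) (a (l 16768632) (l 16767928))) (a (b (l 16767648) (l 16767216)) (b (l 16766888) (l 16766472)))) (a (b (c (a (l 16766824) (c (l 16766400) (l 16765656))) (a (l 16765392) (l 16764528))) (c (a (l 16766464) (a (l 16765840) (b (l 16765552) (l 16765392)))) (a (l 16764952) (a (l 16764280) (l 16763880))))) (b (a (a (b (l 16767432) (a (l 16767248) (l 16764384))) (b (l 16767008) (l 16763928))) (c (l 16764080) (l 16762456))) (a (c (l 16764624) (l 16762976)) (l 16762608))))) (a (a (a (b (l 16769456) (l 16766168)) (b (l 16765960) (l 16765312))) (a (b (l 16765064) (l 16764440)) (c (l 16764552) (l 16763120)))) (a (b (c (l 16763456) (l 16761960)) (a (l 16762632) (c (l 16762440) (l 16760800)))) (b (a (c (l 16767296) (l 16760440)) (l 16759968)) (c (l 16760664) (l 16758928))))))),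 by decide +kernel⟩

def k59_A00pm_102_s1 : ∃ t, chk3 f_A00pm_102_s1 t 60 36 2 = true :=
  ⟨(c (b (a (b (a (b (l 535552143) (l 535620239)) (b (l 535526031) (l 535592591))) (a (l 535714959) (l 535685007))) (a (b (b (l 535498383) (l 16770672)) (a (l 16770496) (l 16769976))) (b (a (l 16769976) (l 16769384)) (a (l 16769440) (l 16768888))))) (b (a (a (l 535833487) (l 536069519)) (a (a (l 16770056) (l 16769560)) (a (l 16769056) (l 16768528)))) (a (a (l 16771368) (l 16770480)) (a (a (l 16769776) (l 16769304)) (a (l 16768808) (b (l 16768352) (a (l 16768344) (l 16768032)))))))) (c (b (a (a (b (l 535419279) (l 535559823)) (b (b (l 535357839) (l 16771032)) (l 535530639))) (b (a (l 535367055) (b (l 16768976) (l 16768624))) (a (l 535772559) (a (l 16768472) (l 16767864))))) (b (a (a (l 535687055) (l 16769896)) (a (l 16768832) (a (l 16767992) (l 16767416)))) (a (a (l 16770488) (l 16769504)) (a (l 16768472) (a (l 16767664) (b (l 16767184) (l 16766920))))))) (c (b (a (a (b (l 535334799) (l 535479951)) (b (l 535309455)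 (l 535451279))) (b (a (l 535283599) (l 535525007)) (a (l 535425167) (l 16767656)))) (a (a (b (l 16770520) (l 16770024)) (b (l 16769440) (l 16768992))) (a (b (l 16768320) (l 16767912)) (b (l 16767144) (a (l 16767064) (b (l 16766568) (l 16766280))))))) (b (a (a (b (l 535277967) (l 535425679)) (b (l 535252879) (l 535397519))) (b (a (l 535227535) (b (l 16768232) (l 16767832))) (a (l 535371407) (l 16767304)))) (a (a (b (l 535558799) (l 16769704)) (b (l 16769128) (l 16768640))) (a (b (l 16767968) (l 16767520)) (b (l 16766760) (a (l 16766656) (b (l 16766144) (l 16765840)))))))))), by decide +kernel⟩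

def k60_A00pm_102_s1 : ∃ t, chk3 f_A00pm_102_s1 t 60 36 6 = true :=
  ⟨(c (b (a (a (b (l 535191951) (l 535343247)) (b (b (l 535128463) (l 16770064)) (l 535315343))) (b (a (b (l 16769224) (l 16768744)) (b (l 16767784) (l 16767352))) (a (b (l 16768312) (l 16767928)) (l 16769400)))) (b (a (a (l 535479183) (l 535449231)) (a (l 16767440) (a (l 16766488) (l 16765840)))) (a (a (l 16769216) (l 16768096)) (a (l 16766928) (a (l 16766016) (b (l 16765496) (l 16765168))))))) (c (b (a (a (b (l 535104911) (l 535259279)) (b (l 535080847) (l 535231887))) (b (a (l 535056527) (b (l 16767328) (l 16766864))) (a (l 535206799) (l 16766240)))) (b (a (a (l 535397775) (l 16768160)) (a (l 16766888) (l 16765568))) (a (a (l 16768712) (l 16767536)) (a (l 16766320) (a (l 16765368) (b (l 16764832) (l 16764472))))))) (b (a (a (b (l 535046543) (l 535202447)) (b (l 535022479) (l 535175567))) (b (a (l 534998671) (b (l 16767024) (l 16766528))) (a (l 535150735) (l 16765872)))) (b (a (a (l 535342223) (l 16767824)) (a (l 16766520) (l 16765160)))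 (a (a (l 16768368) (l 16767160)) (a (l 16765896) (a (l 16764920) (b (l 16764376) (l 16763992))))))))), by decide +kernel⟩

def k61_A00pm_102_s1 : ∃ t, chk3 f_A00pm_102_s1 t 60 36 7 = true :=
  ⟨(c (c (b (a (a (b (l 534987663) (l 535145103)) (b (l 534963855) (l 535118479))) (b (a (l 534940559) (b (l 16766712) (l 16766200))) (a (l 535362191) (l 16765504)))) (a (a (b (l 535285903) (l 16768016)) (b (l 16767488) (l 16766768))) (a (b (l 16766144) (l 16765472)) (b (l 16764736) (a (l 16764464) (b (l 16763912) (l 16763504))))))) (a (b (a (b (l 534928271) (l 535086991)) (b (l 534904975) (l 535060623))) (a (b (l 535228815) (l 16767656)) (b (l 16769768) (l 16766376)))) (b (b (a (l 534881679) (b (l 16766408) (l 16765864))) (a (a (l 16767008) (l 16766272)) (l 16765136))) (a (b (l 16765760) (l 16765040)) (b (l 16764312) (a (l 16764000) (b (l 16763440) (l 16763008)))))))) (c (a (b (a (b (l 534868367) (l 535028111)) (b (l 534845583) (l 535001999))) (a (b (l 535170703) (l 16767296)) (b (l 535142543) (l 16765968))))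 (b (b (a (l 535091087) (b (l 16766096) (l 16765528))) (a (b (l 16766576) (l 16766064)) (l 16764752))) (a (b (l 16765368) (l 16764592)) (b (l 16763880) (a (l 16763520) (b (l 16762960) (l 16762504))))))) (a (b (a (b (l 534808207) (l 534968719)) (b (l 534785679) (l 534942863))) (a (b (l 535111823) (l 16769544)) (b (l 535083663) (l 16765560)))) (b (b (a (l 535031695) (b (l 16765784) (l 16765184))) (a (b (l 16766248) (l 16765704)) (l 16764376))) (a (b (l 16764968) (l 16764144)) (b (l 16763448) (a (l 16763040) (b (l 16762472) (l 16761984))))))))), by decide +kernel⟩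

def k62_A00pm_102_s1 : ∃ t, chk3 f_A00pm_102_s1 t 122 36 2 = true :=
  ⟨(b (b (b (a (a (l 16768288) (l 16767608)) (a (l 16766912) (c (l 16766936) (l 16765440)))) (c (a (l 16768344) (a (l 16767392) (a (l 16766896) (l 16766496)))) (a (l 16766960) (a (l 16765896) (l 16765096))))) (a (a (b (l 16767720) (l 16767496)) (b (l 16767080) (c (l 16767640) (l 16766096)))) (a (c (b (l 16767192) (a (l 16767136) (b (l 16766856) (l 16766760)))) (b (l 16765640) (a (l 16765544) (l 16765152)))) (b (c (a (b (l 16766744) (l 16766616)) (b (l 16766368) (l 16766104))) (a (l 16765024) (l 16764624))) (c (a (l 16766320) (l 16765672)) (l 16766960)))))) (c (b (a (a (b (l 16768064) (l 16767872)) (b (a (l 16767640) (l 16767256)) (a (l 16770040) (l 16766968)))) (a (b (a (b (l 16767016) (l 16766776)) (l 16766304)) (l 16766000)) (b (l 16765376) (l 16764744)))) (a (a (b (a (l 16767864) (b (l 16767640) (l 16767392))) (b (l 16767424) (l 16767056))) (b (l 16766608) (l 16765952))) (a (l 16765016) (l 16763728)))) (a (b (a (b (l 16766528)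 (l 16766288)) (b (a (l 16766056) (l 16765640)) (a (l 16765768) (l 16765280)))) (a (b (a (l 16766240) (l 16765872)) (l 16765544)) (b (l 16764872) (l 16764144)))) (b (a (b (a (l 16765264) (l 16764608)) (l 16764248)) (l 16763264)) (a (l 16763152) (l 16761784)))))), by decide +kernel⟩

def k63_A00pm_102_s1 : ∃ t, chk3 f_A00pm_102_s1 t 122 36 3 = true :=
  ⟨(b (a (b (a (c (l 16766104) (l 16764704)) (c (l 16765320) (l 16763840))) (a (b (l 16764760) (l 16764376)) (b (l 16763968) (l 16763608)))) (b (a (a (l 16763960) (l 16763536)) (b (l 16763104) (l 16765264))) (a (b (l 16763168) (c (l 16763592) (l 16761792))) (b (c (l 16765728) (l 16761320)) (c (l 16762552) (l 16760672)))))) (a (c (b (a (b (l 16764888) (l 16764576)) (b (l 16764072) (a (l 16764000) (l 16763464)))) (a (b (a (l 16764472) (l 16764056)) (l 16763664)) (b (l 16763000) (l 16762184)))) (b (a (l 16762912) (b (l 16762256) (a (l 16762104) (l 16761528)))) (a (b (a (l 16762560) (l 16762096)) (l 16761632)) (l 16760536)))) (c (b (a (b (a (l 16763488) (l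 16762800)) (l 16762376)) (l 16761360)) (a (l 16761160) (l 16759712))) (b (a (b (l 16761288) (l 16760392)) (l 16759352)) (a (l 16759032) (l 16757512)))))), by decide +kernel⟩

def k64_A00pm_102_s1 : ∃ t, chk3 f_A00pm_102_s1 t 123 36 1 = true :=
  ⟨(b (c (a (a (b (a (b (l 16765640) (c (b (l 16766208) (l 16766096)) (l 16764520))) (b (c (b (l 16766072) (l 16765960)) (l 16764392)) (c (l 16765624) (l 16763968)))) (b (c (l 16765344) (l 16763648)) (l 16769120))) (b (b (c (a (b (l 16765696) (l 16765416)) (l 16764960)) (l 16766304)) (c (l 16764712) (l 16763008))) (c (l 16763808) (l 16762008)))) (b (a (c (b (l 16764080) (l 16763496)) (l 16762056)) (c (l 16762576) (l 16760776))) (a (c (l 16762552) (l 16760680)) (c (l 16761280) (l 16759336))))) (b (a (a (b (c (l 16762944) (l 16761288)) (c (l 16767824) (l 16760816))) (b (c (l 16761992) (l 16760248)) (l 16760344))) (b (c (l 16759968) (l 16758144)) (c (l 16759232) (l 16757312)))) (a (c (a (l 16761504) (l 16760128)) (b (l 16759320) (l 16758472))) (c (a (l 16758736)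 (l 16757328)) (a (l 16756720) (l 16755248)))))) (a (c (b (c (a (l 16763792) (l 16762512)) (a (l 16761920) (l 16760560))) (a (c (l 16762424) (l 16760392)) (c (l 16761104) (l 16758984)))) (b (c (a (l 16759944) (l 16758512)) (a (l 16757872) (l 16756368))) (c (a (l 16758248) (l 16756768)) (a (l 16755984) (l 16754432))))) (c (b (a (c (l 16761200) (l 16759176)) (c (l 16759880) (l 16757776))) (c (a (l 16759752) (l 16758392)) (a (l 16757560) (l 16756120)))) (b (a (c (l 16757064) (l 16754856)) (c (l 16755600) (l 16753336))) (c (a (l 16755272) (l 16753760)) (a (l 16752872) (l 16751304))))))), by decide +kernel⟩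

def k65_A00pm_102_s1 : ∃ t, chk3 f_A00pm_102_s1 t 60 37 2 = true :=
  ⟨(c (b (a (a (b (l 16771200) (l 16771176)) (b (l 16770328) (l 16770336))) (a (b (a (l 16769656) (b (l 16769208) (l 16769088))) (b (a (l 16769624) (b (l 16769072) (l 16768968))) (a (l 16769520) (l 16768440)))) (b (a (b (l 16768600) (a (l 16768696) (l 16768160))) (b (b (l 16768024) (l 16767672)) (l 16767176))) (b (l 16767152) (l 16766472))))) (a (b (a (l 16771320) (a (l 16770496) (b (l 16770056) (l 16769824)))) (a (b (l 16771344) (l 16771384)) (b (l 16769872) (l 16769096)))) (b (a (b (l 16771112) (l 16767760)) (l 16765416)) (a (l 16766712) (l 16763976))))) (b (a (a (b (l 16769872) (l 16769720)) (b (l 16768888) (a (l 16769008) (l 16768520)))) (b (a (a (l 16768120) (b (l 16767640) (l 16767464))) (b (a (l 16766968) (b (l 16766328) (l 16765936))) (a (a (l 16767016) (l 16766432)) (l 16765376)))) (a (b (a (l 16768000) (a (l 16767528) (l 16767088))) (a (l 16767824) (l 16766656))) (b (l 16765320) (l 16764544))))) (a (b (a (l 16769728) (a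 (l 16768824) (b (l 16768352) (l 16768024)))) (a (b (l 16769648) (a (l 16770032) (l 16769312))) (b (a (l 16768672) (l 16767192)) (l 16767136)))) (a (b (b (a (l 16767352) (l 16765888)) (l 16765824)) (l 16764616)) (b (l 16763344) (l 16761688)))))), by decide +kernel⟩

def k66_A00pm_102_s1 : ∃ t, chk3 f_A00pm_102_s1 t 61 37 2 = true :=
  ⟨(a (b (a (b (a (b (l 16768296) (l 16764960)) (c (l 16764928) (l 16762992))) (c (l 16764168) (l 16762096))) (a (b (l 16762624) (l 16761072)) (b (l 16761264) (l 16759664)))) (a (b (c (l 16762704) (l 16760440)) (c (l 16761200) (l 16758728))) (b (c (l 16759952) (l 16757496)) (c (l 16758392) (l 16755728))))) (b (a (a (b (c (l 16760960) (l 16758760)) (l 16758248)) (b (c (l 16759608) (l 16757320)) (c (l 16758048) (l 16755568)))) (b (a (c (l 16758232) (l 16755856)) (c (l 16756832) (l 16754376))) (c (a (l 16756640) (l 16755216)) (a (l 16754072) (l 16752568))))) (a (b (a (l 16756568) (c (l 16756432) (l 16753760))) (c (a (l 16756248) (l 16754808)) (l 16752680))) (b (a (c (l 16755008)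 (l 16752240)) (c (l 16753560) (l 16750712))) (c (a (l 16753352) (l 16751880)) (a (l 16750368) (l 16748816))))))), by decide +kernel⟩

def k67_A00pm_102_s1 : ∃ t, chk3 f_A00pm_102_s1 t 60 37 3 = true :=
  ⟨(b (b (c (a (a (l 16768408) (l 16767288)) (a (a (l 16766416) (b (l 16765912) (l 16765664))) (a (b (l 16765176) (a (l 16765144) (l 16764528))) (b (b (l 16764464) (l 16764040)) (l 16763408))))) (a (a (c (l 16767216) (l 16766376)) (c (l 16765984) (l 16765072))) (a (a (l 16764552) (b (l 16764016) (l 16763680))) (a (b (l 16763208) (a (l 16763096) (l 16762440))) (b (l 16764864) (l 16761272)))))) (c (a (a (l 16768088) (a (l 16767272) (l 16766720))) (a (b (a (l 16766176) (a (l 16765648) (l 16765168))) (a (l 16768536) (l 16764664))) (b (l 16763296) (l 16762432)))) (b (a (a (l 16766392) (l 16765160)) (a (a (l 16764160) (a (l 16763576) (l 16763056))) (l 16761096))) (a (a (l 16766168) (l 16764952)) (a (a (l 16766416) (l 16762472)) (l 16760128)))))) (a (c (b (a (l 16767920) (b (a (l 16767152) (l 16766432)) (a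 (l 16766952) (l 16766000)))) (a (b (l 16767720) (a (l 16768032) (l 16767232))) (b (a (l 16766624) (l 16765064)) (l 16764936)))) (a (b (l 16765896) (a (l 16765800) (b (l 16765272) (l 16764896)))) (b (a (b (l 16765080) (l 16764776)) (b (l 16764280) (l 16763736))) (a (b (l 16764328) (l 16763304)) (l 16762200))))) (c (a (b (b (a (l 16765344) (l 16763800)) (l 16763672)) (l 16762312)) (b (l 16761072) (l 16759216))) (a (b (a (b (l 16763112) (l 16762104)) (l 16761008)) (l 16759792)) (b (b (l 16759128) (l 16758112)) (l 16756544)))))), by decide +kernel⟩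

def k68_A00pm_102_s1 : ∃ t, chk3 f_A00pm_102_s1 t 61 37 3 = true :=
  ⟨(b (a (a (b (c (a (l 16762368) (l 16760904)) (a (l 16760200) (l 16758664))) (c (l 16759864) (a (l 16758256) (l 16756672)))) (b (c (a (l 16759424) (l 16757936)) (b (l 16756832) (l 16755832))) (c (a (l 16757584) (l 16756056)) (b (l 16754808) (l 16753760))))) (a (b (c (a (l 16756424) (l 16754912)) (a (l 16753976) (l 16752392))) (c (a (l 16754520) (l 16752968)) (a (l 16751872) (l 16750248)))) (b (c (a (l 16753376) (l 16751824)) (a (l 16750792) (l 16749176))) (c (a (l 16751400) (l 16749824)) (a (l 16748616) (l 16746976)))))) (a (a (b (c (l 16758008) (b (l 16755936) (l 16754880))) (c (l 16756080) (l 16753272))) (b (c (l 16754896) (l 16754776)) (c (l 16752912) (l 16749960)))) (a (b (c (l 16754376) (l 16754112)) (c (l 16749712) (l 16746616))) (b (c (l 16753808) (l 16745544)) (c (l 16746472) (l 16743240)))))), by decide +kernel⟩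

def k69_A00pm_102_s1 : ∃ t, chk3 f_A00pm_102_s1 t 60 38 1 = true :=
  ⟨(b (c (a (a (b (b (a (l 16770896) (l 16769528)) (l 16769512)) (b (l 16768776) (l 16768072))) (b (c (l 16768056) (l 16765928)) (l 16765520))) (a (b (l 16764160) (l 16762600)) (b (l 16761264) (l 16759656)))) (a (a (b (b (a (c (l 16767840) (l 16765464)) (l 16765160)) (l 16764992)) (c (l 16764880) (l 16762192))) (b (c (l 16763568) (l 16760968)) (c (l 16761728) (l 16758904)))) (b (a (c (l 16760440) (l 16757696)) (c (l 16757288) (l 16754400))) (a (c (l 16758544) (l 16755584)) (c (l 16755344) (l 16752232)))))) (a (c (a (b (l 16767112) (l 16765752)) (b (l 16764136) (l 16762704))) (b (a (c (l 16763376) (l 16760536)) (c (l 16760136) (l 16757152))) (a (l 16760360) (l 16756968)))) (c (a (b (l 16761144) (l 16759640)) (b (l 16758128) (l 16756560))) (b (a (l 16755336) (l 16751976)) (a (l 16753544) (l 16750112)))))), by decide +kernel⟩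

def k70_A00pm_102_s1 : ∃ t, chk3 f_A00pm_102_s1 t 61 38 1 = true :=
  ⟨(b (c (a (a (b (c (l 16759672) (l 16756968)) (c (l 16758128) (l 16755200))) (b (c (l 16756808) (l 16753920)) (c (a (l 16755952) (l 16754488)) (l 16752104)))) (a (b (c (a (l 16754632) (l 16753168)) (l 16750832)) (c (a (l 16753016) (l 16751528)) (l 16751592))) (b (c (a (l 16751688) (l 16750200)) (l 16747696)) (c (a (l 16750032) (c (l 16749384) (l 16747648))) (a (l 16746592) (l 16745000)))))) (a (a (b (c (l 16754104) (l 16751072)) (c (l 16752112) (l 16748864))) (b (c (l 16750888) (l 16747720)) (c (l 16748848) (l 16745464)))) (a (b (c (l 16747640) (l 16744328)) (c (l 16745560) (l 16742032))) (b (c (l 16744352) (l 16740912)) (c (l 16742232) (l 16738576)))))) (c (a (a (b (c (l 16756600) (l 16753528)) (l 16758696)) (b (c (l 16753632) (l 16750360)) (c (l 16752016) (l 16748592)))) (a (b (c (a (l 16751376) (l 16749864)) (l 16747160)) (c (l 16748952) (l 16745328))) (c (b (c (l 16748472) (l 16746672)) (l 16745856)) (b (l 16743928) (l 16742040)))))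 (a (a (b (l 16753840) (l 16746648)) (b (l 16750424) (l 16743168))) (a (b (l 16746992) (l 16739664)) (b (l 16748768) (l 16736136)))))), by decide +kernel⟩

def k71_A00pm_102_s1 : ∃ t, chk3 f_A00pm_102_s1 t 30 39 1 = true :=
  ⟨(a (b (a (c (a (b (l 16764312) (l 16762800)) (b (l 16761200) (l 16759640))) (b (a (l 16758600) (l 16755136)) (a (l 16756720) (l 16753200)))) (c (a (b (l 16758080) (l 16756472)) (b (l 16754944) (l 16753288))) (b (a (l 16751648) (l 16748152)) (a (l 16749656) (l 16746104))))) (a (c (a (l 16760376) (l 16767640)) (b (a (l 16754736) (l 16751168)) (l 16750848))) (c (a (b (l 16754816) (l 16753128)) (b (l 16751592) (l 16749880))) (b (a (l 16747584) (l 16743992)) (l 16754112))))) (c (b (a (a (b (l 16751784) (l 16750088)) (c (b (l 16750384) (l 16748744)) (l 16745832))) (a (c (b (l 16747280) (l 16745600)) (l 16747752)) (c (b (l 16744136) (l 16742424)) (l 16749632)))) (a (a (b (l 16748360) (l 16746624)) (c (l 16746248) (l 16742104))) (a (c (l 16743072) (l 16738720)) (c (l 16739864) (l 16735312)))))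 (b (a (a (b (l 16744624) (l 16742536)) (b (l 16741088) (l 16738952))) (a (b (l 16737528) (l 16735344)) (c (l 16734952) (l 16730656)))) (a (a (l 16749736) (l 16746112)) (a (l 16742472) (l 16728328)))))), by decide +kernel⟩

def k72_A00pm_102_s1 : ∃ t, chk3 f_A00pm_102_s1 t 31 16 1 = true :=
  ⟨(a (b (l 14) (a (a (b (l 3) (b (l 14) (b (l 14) (b (l 14) (a (a (c (l 534604431) (l 534019471)) (l 14)) (l 14)))))) (l 14)) (l 14))) (l 14)), by decide +kernel⟩

def k73_A00pm_102_s1 : ∃ t, chk3 f_A00pm_102_s1 t 62 68 1 = true :=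
  ⟨(b (a (a (b (b (a (c (a (l 534380431) (l 534375311)) (l 534055311)) (l 14)) (a (c (a (l 534422415) (l 534417295)) (l 534092943)) (c (a (l 534412175) (l 14)) (l 534086031)))) (a (c (a (l 534480527) (l 534475151)) (l 534547343)) (c (a (l 534469775) (l 534464399)) (l 534674063)))) (a (a (b (l 14) (b (l 14) (l 534720911))) (l 14)) (l 14))) (l 14)) (a (a (c (b (a (a (l 534552463) (l 534546831)) (a (l 534541199) (l 534535567))) (a (a (l 534617743) (l 534611855)) (b (l 534584975) (l 16770168)))) (a (b (l 534476431) (l 534533263)) (b (l 534468495) (l 534524815)))) (a (b (c (a (l 534530191) (l 534524559)) (l 534729103)) (c (c (l 16769688) (l 16769120)) (c (l 16768536) (l 16767936)))) (b (a (b (l 14) (l 534910863)) (l 14)) (c (c (l 16768704) (l 16768080)) (l 16767096))))) (a (b (l 14) (a (a (c (l 16767624) (l 16766232)) (l 14)) (l 14))) (l 14)))), by decide +kernel⟩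

def k74_A00pm_102_s1 : ∃ t, chk3 f_A00pm_102_s1 t 124 69 1 = true :=
  ⟨(c (b (a (a (b (l 535141519) (c (l 16769872) (l 16769240))) (b (c (l 16769784) (l 16769184)) (c (l 16768960) (l 16768264)))) (a (b (c (l 16768840) (l 16768184)) (a (l 16767896) (c (l 16767800) (l 16767024)))) (a (b (l 16767768) (c (l 16767328) (l 16766520))) (c (b (l 16767632) (b (l 16767040) (c (l 16766824) (l 16766400)))) (b (l 16766896) (b (l 16766232) (l 16765752))))))) (b (a (a (c (l 16769072) (l 16768336)) (c (a (l 16768400) (l 16767952)) (l 16767376))) (a (c (a (l 16767496) (l 16767032)) (l 16766400)) (c (a (a (l 16766648) (b (l 16766632) (l 16766256))) (a (b (l 16766376) (l 16765984)) (l 16765944))) (a (b (l 16765864) (l 16765408)) (b (l 16765360) (l 16764880)))))) (a (a (c (l 16768312) (l 16767464)) (c (a (l 16767648) (l 16767200)) (l 16766512))) (a (c (a (l 16766752) (a (b (l 16766592) (l 16766200)) (b (l 16766328) (l 16765992)))) (a (l 16765792) (b (l 16765472) (l 16765080)))) (c (a (a (b (l 16766128) (l 16765688))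 (l 16765624)) (l 16765208)) (a (l 16767408) (l 16764152))))))) (a (b (a (b (l 534584719) (l 534362767)) (b (l 534844303) (l 16767176))) (a (b (l 16767192) (l 16766152)) (b (l 16766128) (l 16765096)))) (b (a (b (l 16767144) (l 16766080)) (c (b (l 16766408) (a (l 16765680) (l 16765088))) (b (l 16765632) (l 16764464)))) (b (c (a (l 16765504) (a (l 16764648) (l 16764160))) (a (l 16764576) (a (l 16763672) (l 16763144)))) (a (a (l 16764288) (c (l 16764232) (l 16763176))) (a (l 16765800) (l 16762504))))))), by decide +kernel⟩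

def k75_A00pm_102_s1 : ∃ t, chk3 f_A00pm_102_s1 t 125 69 1 = true :=
  ⟨(a (c (b (a (b (a (c (b (l 16767344) (l 16766912)) (l 16766344)) (c (b (l 16766808) (l 16766472)) (b (l 16766040) (l 16765640)))) (c (a (b (c (l 16766744) (l 16766336)) (l 16766176)) (l 16765808)) (a (b (l 16765696) (l 16765280)) (l 16764904)))) (b (c (a (l 16766128) (l 14)) (l 16767632)) (c (l 16767600) (l 16764032)))) (a (b (c (a (l 16765504) (l 16764952)) (l 16764232)) (c (l 16766984) (l 16763264))) (b (c (l 16764104) (l 16763048)) (l 16765264)))) (b (b (a (a (l 16765136) (c (l 16765008) (l 16764136))) (c (l 16764128) (l 16763208))) (a (c (a (l 16764584) (l 16763960)) (l 16765984)) (l 16762536))) (a (b (l 16765296) (l 16761544)) (c (l 16761408) (l 16760216))))) (b (b (l 14) (a (c (l 16765984) (l 16761248)) (l 14))) (a (c (b (l 16762408) (l 16761448)) (c (l 16760128) (l 16758880))) (c (c (l 16761336) (l 16760104)) (c (l 16758832) (l 16757520)))))), by decide +kernel⟩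

def k76_A00pm_102_s1 : ∃ t, chk3 f_A00pm_102_s1 t 124 35 2 = true :=
  ⟨(b (a (b (a (b (c (a (l 16767792) (l 16767360)) (l 16766616)) (c (a (l 16767088) (l 16766656)) (l 16765792))) (b (a (b (l 16766616) (l 16766232)) (c (b (l 16766656) (l 16766272)) (l 16765408))) (c (b (a (l 16766392) (a (l 16766032) (l 16765832))) (a (c (l 16766288) (l 16765720)) (c (l 16765864) (l 16765280)))) (a (l 16765032) (b (l 16764800) (l 16764384)))))) (a (a (b (b (l 16766000) (l 16765632)) (c (b (l 16765856) (l 16765552)) (l 16764384))) (b (c (a (l 16766040) (b (l 16766016) (l 16765688))) (l 16764696)) (c (b (l 16765440) (l 16764984)) (l 16763896)))) (b (c (a (b (c (l 16765992) (l 16765392)) (l 16765256)) (l 16764904)) (a (l 16766888) (l 16763632))) (c (c (l 16764672) (l 16763992)) (l 16762960))))) (b (a (b (b (a (a (l 16765808) (c (l 16766072) (l 16765024))) (c (l 16765712) (l 16764632))) (a (c (a (l 16765960) (l 16765680)) (l 16764744)) (l 16767320))) (c (a (c (l 16765480) (l 16764896)) (l 16764616)) (l 16763704)))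 (c (b (a (l 16764912) (l 16764344)) (l 16763760)) (b (l 16763480) (l 16762496)))) (b (a (c (l 16764048) (l 16762728)) (l 16764824)) (a (c (l 16763176) (l 16761744)) (l 16761264))))) (a (b (a (b (c (a (l 16764912) (l 16764344)) (l 16763184)) (c (l 16763776) (l 16762216))) (c (b (l 16763480) (l 16762616)) (l 16761488))) (a (b (l 16764712) (l 16761400)) (b (l 16760896) (l 16760168)))) (b (a (b (l 16761536) (l 16760600)) (c (l 16760672) (l 16759008))) (a (b (l 16759672) (l 16758920)) (b (c (l 16759352) (l 16757512)) (c (l 16758608) (l 16756688))))))), by decide +kernel⟩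

def k77_A00pm_102_s1 : ∃ t, chk3 f_A00pm_102_s1 t 124 35 3 = true :=
  ⟨(b (b (b (a (a (l 16765128) (c (l 16764584) (l 16763504))) (a (c (a (l 16763816) (l 16763256)) (l 16765032)) (l 16761688))) (a (a (l 16764128) (c (a (l 16763880) (l 16763408)) (l 16762424))) (a (c (l 16762464) (l 16761200)) (l 16760544)))) (a (a (b (c (l 16763680) (l 16762432)) (c (l 16765432) (l 16761432))) (b (c (l 16765320) (l 16761368)) (l 16760832))) (a (b (l 16760688) (l 16759536)) (b (l 16759384) (l 16758224))))) (b (a (a (b (l 16760976) (l 16759824)) (b (l 16759680) (l 16758520))) (c (a (l 16758616) (l 16757320)) (a (l 16756952) (l 16755600)))) (a (b (c (l 16758904) (l 16757152)) (c (l 16758072) (l 16756224))) (b (c (l 16756312) (l 16754448)) (c (l 16755408) (l 16753448)))))), by decide +kernel⟩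

def k78_A00pm_102_s1 : ∃ t, chk3 f_A00pm_102_s1 t 125 35 1 = true :=
  ⟨(b (c (a (b (a (b (c (l 16763480) (l 16762272)) (l 16761944)) (b (l 16761688) (l 16760728))) (a (b (l 16760992) (l 16760040)) (c (l 16760048) (l 16758504)))) (b (a (c (l 16760672) (l 16759296)) (c (l 16759456) (l 16758024))) (a (c (l 16758824) (l 16757232)) (b (l 16757256) (l 16756264))))) (a (b (a (b (l 16760392) (l 16759232)) (l 16758488)) (a (l 16757480) (l 16756128))) (b (a (l 16757152) (l 16758416)) (a (l 16754768) (l 16753392))))) (c (a (b (a (c (l 16759456) (l 16757744)) (b (l 16757832) (l 16756864))) (a (b (c (l 16758120) (l 16756232)) (c (l 16757344) (l 16755368))) (c (b (l 16756872) (l 16756056)) (b (l 16754936) (l 16754040))))) (b (c (a (b (l 16757432) (l 16756512)) (b (l 16756168) (l 16755232))) (a (l 16755160) (l 16753840))) (a (c (b (l 16755600) (l 16754752)) (b (l 16753616) (l 16752688))) (c (b (l 16754304) (l 16753432)) (l 16754424))))) (a (b (a (c (l 16756000) (l 16754224)) (c (l 16754664) (l 16752840))) (b (c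 (l 16753648) (l 16751680)) (c (l 16752680) (l 16750616)))) (a (b (l 16755000) (c (l 16751096) (l 16749008))) (b (l 16750976) (c (l 16749696) (l 16747552))))))), by decide +kernel⟩

def k79_A00pm_102_s1 : ∃ t, chk3 f_A00pm_102_s1 t 63 34 1 = true :=
  ⟨(a (a (a (a (b (l 14) (b (l 14) (c (l 16759808) (l 16757176)))) (l 14)) (l 14)) (l 14)) (l 14)), by decide +kernel⟩

def k80_A00pm_102_s1 : ∃ t, chk3 f_A00pm_102_s1 t 126 35 1 = true :=
  ⟨(b (a (b (c (a (c (l 16758224) (l 16756736)) (c (l 16756976) (l 16755432))) (a (l 16757040) (l 16755648))) (c (a (b (l 16755976) (l 16754968)) (b (l 16754672) (l 16753648))) (a (l 16751992) (l 16750576)))) (a (c (b (b (l 14) (l 16754392)) (b (l 16753352) (l 16754936))) (b (l 16751616) (l 16749144))) (b (l 14) (c (c (l 16752400) (l 16750552)) (l 16747696))))) (c (a (b (a (c (b (l 16754888) (l 16753936)) (l 16752496)) (c (c (l 16753576) (l 16752616)) (l 16751144))) (a (c (b (l 16753000) (l 16752096)) (l 16753048)) (c (b (l 16751672) (l 16750736)) (l 16749040)))) (b (b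 (a (l 16753912) (l 16752544)) (c (a (l 16751288) (l 16749936)) (l 16751160))) (c (a (c (l 16753000) (l 16749288)) (c (l 16749008) (l 16747896))) (a (l 16747632) (l 16746208))))) (a (a (b (l 16749568) (a (l 16747552) (l 16746824))) (b (l 16748136) (l 16750968))) (a (b (l 16746680) (l 16749496)) (b (l 16745216) (l 16742760)))))), by decide +kernel⟩

def k81_A00pm_102_s1 : ∃ t, chk3 f_A00pm_102_s1 t 127 35 1 = true :=
  ⟨(a (c (b (a (a (b (l 14) (l 16750456)) (l 14)) (l 14)) (b (a (c (a (l 16749392) (l 16748728)) (l 16746928)) (c (c (l 16748464) (l 16747400)) (l 16745768))) (a (c (b (a (l 16747920) (l 16747320)) (c (l 16747200) (l 16746040))) (b (l 16745344) (l 16744280))) (c (b (c (l 16747136) (l 16745984)) (l 16745608)) (c (l 16744304) (l 16743104)))))) (b (a (b (l 14) (l 16751432)) (l 14)) (b (a (l 16748944) (l 16742416)) (a (c (l 16742480) (l 16740088)) (c (l 16741280) (l 16738808)))))) (c (b (l 14) (a (b (a (c (l 16747168) (l 16744936)) (l 14)) (b (c (c (a (l 16746408) (l 16745920)) (l 16744968))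 (l 16743152)) (c (c (l 16745272) (l 16744024)) (l 16742136)))) (b (l 14) (a (c (b (c (l 16745424) (l 16744200)) (l 16743912)) (c (l 16742464) (l 16741184))) (b (l 14) (c (c (l 16744064) (l 16742760)) (l 16740784))))))) (b (l 14) (a (b (c (l 16742344) (l 16739984)) (c (l 16740120) (l 16737552))) (b (l 14) (c (c (l 16739600) (l 16738280)) (l 16736280))))))), by decide +kernel⟩

def k82_A00pm_102_s1 : ∃ t, chk3 f_A00pm_102_s1 t 124 36 1 = true :=
  ⟨(b (a (b (c (a (c (l 16761336) (l 16759480)) (c (l 16760080) (l 16758160))) (a (c (l 16757568) (l 16755616)) (c (l 16756200) (l 16754184)))) (c (a (c (l 16759984) (l 16757976)) (c (l 16758664) (l 16756600))) (c (a (l 16755904) (l 16754464)) (a (l 16753768) (l 16752272))))) (b (c (a (c (b (l 16759160) (l 16758448)) (l 16756832)) (c (b (l 16757880) (l 16757136)) (l 16755480))) (a (c (l 16754808) (l 16752744)) (c (l 16753400) (l 16751280)))) (c (a (c (b (l 16757712) (l 16756952)) (l 16755200)) (c (c (l 16756512) (l 16755432)) (l 16753784))) (c (a (l 16753008)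 (l 16751536)) (a (l 16750760) (l 16749232)))))) (a (c (b (a (c (l 16758536) (l 16756368)) (c (l 16757168) (l 16754928))) (c (a (l 16757000) (l 16755600)) (a (l 16754664) (l 16753184)))) (b (a (c (l 16754120) (l 16751792)) (c (l 16752624) (l 16750240))) (c (a (l 16752232) (l 16750688)) (a (l 16749712) (l 16748112))))) (c (b (c (a (c (l 16756344) (l 16755216)) (c (l 16754960) (l 16753792))) (a (l 16753480) (l 16752016))) (c (a (c (l 16754784) (l 16753560)) (c (l 16753352) (l 16752096))) (a (l 16751688) (l 16750176)))) (b (c (a (l 16751112) (l 16749584)) (a (l 16748672) (l 16747088))) (c (a (l 16749128) (l 16747560)) (l 16750928)))))), by decide +kernel⟩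

def k83_A00pm_102_s1 : ∃ t, chk3 f_A00pm_102_s1 t 125 36 1 = true :=
  ⟨(c (b (a (b (c (a (b (l 16756584) (l 16755808)) (c (l 16755384) (l 16754328))) (a (l 16754112) (l 16752720))) (a (c (c (l 16755152) (l 16754048)) (l 16752352)) (c (c (l 16753776) (l 16752632)) (l 16750904)))) (b (a (c (b (l 16753928) (l 16753080)) (l 16751312)) (c (c (l 16752680) (l 16751568)) (l 16749888))) (c (a (c (l 16752376) (l 16751208)) (c (l 16750952) (l 16749760))) (a (l 16749432) (l 16747944))))) (a (b (c (a (c (l 16753552) (l 16752352)) (c (l 16752120) (l 16750896))) (a (l 16750528) (l 16749024))) (c (a (c (l 16751904) (l 16750616)) (c (l 16750440) (l 16749112))) (a (l 16748648) (l 16747104)))) (c (b (a (c (l 16750672) (l 16749416)) (c (l 16749200) (l 16747920))) (a (c (l 16748952) (l 16747592)) (c (l 16747440) (l 16746056)))) (b (a (l 16747504) (l 16745960)) (a (l 16745536) (l 16743952)))))) (b (a (b (c (a (l 16751984) (l 16750544)) (a (l 16749808) (l 16748320))) (c (a (l 16750048) (l 16748544)) (l 16752160))) (a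 (b (l 16753200) (l 16751040)) (b (l 16751696) (l 16744240)))) (a (b (c (a (l 16748040) (l 16746480)) (l 16749928)) (c (l 16750416) (l 16742400))) (b (c (l 16749352) (l 16741432)) (c (l 16741928) (l 16739056)))))), by decide +kernel⟩

def k84_A00pm_102_s1 : ∃ t, chk3 f_A00pm_102_s1 t 124 37 1 = true :=
  ⟨(c (b (a (b (c (a (l 16755416) (c (l 16754616) (l 16753328))) (a (l 16752880) (l 16751368))) (c (a (l 16753776) (c (l 16753000) (l 16751616))) (a (l 16751048) (l 16749504)))) (b (c (a (c (l 16753176) (l 16751856)) (c (l 16751712) (l 16750360))) (a (l 16749840) (l 16748296))) (c (a (c (l 16751536) (l 16750112)) (c (l 16750056) (l 16748592))) (a (l 16747952) (l 16746376))))) (a (b (c (a (l 16752096) (l 16753240)) (a (l 16749160) (l 16747600))) (c (a (l 16750400) (c (l 16749696) (l 16748104))) (a (l 16747248) (l 16745672)))) (c (a (b (c (l 16749880) (l 16748352)) (c (l 16748200) (l 16746560))) (b (c (l 16748376) (l 16746808)) (l 16748472))) (b (a (l 16746024) (l 16744432)) (l 16748512))))) (b (a (b (c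 (a (l 16750264) (l 16748680)) (l 16751976)) (c (l 16752672) (l 16744480))) (a (b (l 16750920) (l 16753968)) (b (l 16749288) (l 16741816)))) (a (b (c (l 16750568) (l 16742176)) (c (l 16743192) (l 16739832))) (c (b (l 16742032) (l 16739856)) (b (l 16738760) (l 16736376)))))), by decide +kernel⟩

def k85_A00pm_102_s1 : ∃ t, chk3 f_A00pm_102_s1 t 125 37 1 = true :=
  ⟨(c (c (b (a (b (a (c (l 16750232) (l 16748848)) (c (l 16748736) (l 16747312))) (a (c (l 16748552) (l 16747056)) (c (l 16747024) (l 16745496)))) (a (b (c (l 16747216) (l 16745760)) (l 16749944)) (b (l 16750176) (l 16743120)))) (a (a (b (l 16748672) (c (l 16745152) (l 16743440))) (b (c (l 16745312) (l 16743672)) (l 16747968))) (a (b (l 16742912) (l 16741128)) (b (l 16741312) (l 16739520))))) (b (a (b (a (l 16746728) (l 16745144)) (a (l 16744784) (l 16743176))) (b (l 16747984) (l 16745968))) (a (b (l 16747248) (l 16740016)) (b (l 16738712) (l 16736696))))) (b (a (b (c (l 16743032) (l 16740064)) (c (l 16740864) (l 16737696))) (c (b (l 16739720)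 (l 16737496)) (l 16745912))) (a (c (b (l 16738672) (l 16736472)) (l 16744560)) (c (l 16744616) (l 16730536))))), by decide +kernel⟩

def k86_A00pm_102_s1 : ∃ t, chk3 f_A00pm_102_s1 t 126 18 1 = true :=
  ⟨(c (b (b (a (b (c (a (c (l 16751296) (l 16750168)) (c (l 16749896) (l 16748744))) (a (l 16748448) (l 16746992))) (c (a (l 16751528) (l 16752672)) (a (l 16746440) (l 16744920)))) (b (c (a (c (l 16748480) (l 16747304)) (l 16746440)) (a (l 16745512) (l 16744016))) (c (a (l 16745936) (c (l 16745032) (l 16743744))) (a (l 16743376) (l 16741784))))) (c (a (b (a (l 16752304) (l 16745536)) (a (l 16745208) (l 16743648))) (a (b (l 16744000) (l 16742064)) (b (c (l 16743136) (l 16741736)) (c (l 16741376) (l 16739872))))) (a (b (a (l 16744408) (l 16742832)) (l 16746792)) (a (l 16740160) (b (l 16739632) (l 16737608)))))) (c (a (b (a (b (l 16743360) (l 16741520)) (a (l 16746472) (l 16740416))) (a (a (l 16744432) (l 16743616)) (c (l 16738048) (l 16736216)))) (b (a (b (l 16740152) (l 16743480)) (b (l 16738920) (l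 16737264))) (a (c (b (l 16737416) (l 16735912)) (l 16734824)) (c (l 16735976) (l 16734056))))) (a (b (a (l 16739256) (l 16737592)) (a (l 16735160) (l 16733456))) (b (a (b (l 16736984) (l 16734840)) (l 16740008)) (a (l 16737248) (l 16731168)))))) (b (b (a (a (b (l 16750184) (l 16742656)) (b (l 16743408) (l 16741064))) (b (c (l 16742328) (l 16739832)) (c (l 16745168) (l 16737256)))) (a (b (c (l 16740896) (l 16738128)) (l 16747632)) (a (l 16746288) (c (l 16746168) (l 16732688))))) (a (b (c (l 16745680) (l 16731920)) (c (l 16730640) (l 16726952))) (b (a (c (l 16732560) (l 16729216)) (c (l 16731368) (l 16727944))) (b (a (l 16727408) (l 16726392)) (l 16730120)))))), by decide +kernel⟩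

def k87_A00pm_102_s1 : ∃ t, chk3 f_A00pm_102_s1 t 127 36 1 = true :=
  ⟨(c (a (b (c (a (b (b (l 16748272) (l 16744696)) (c (l 16743952) (l 16742624))) (b (c (l 16744832) (l 16743560)) (c (l 16743072) (l 16741696)))) (a (b (l 16742696) (l 16740608)) (b (l 16741624) (l 16739608)))) (b (c (a (l 16741456) (l 16740656)) (a (l 16738568) (l 16737672))) (c (a (l 16739760) (l 16739016)) (l 16736232)))) (b (b (c (a (c (a (l 16744160) (l 16743704)) (l 16742608)) (c (b (l 16743440) (l 16742584)) (b (l 16742096) (l 16741200)))) (a (l 16740608) (c (l 16740264) (l 16738880)))) (c (a (c (l 16742224) (l 16740800)) (c (l 16743976) (l 16739888))) (a (l 16738648) (l 16737664)))) (b (c (a (l 16742456) (c (l 16739784) (l 16738208))) (a (l 16736760) (l 16735824))) (c (a (l 16738248) (l 16740088)) (a (l 16734944) (l 16734064)))))) (c (a (b (a (b (l 16740168) (l 16737880)) (l 16743128)) (a (l 16734552) (l 16733584))) (b (a (b (l 16737896) (l 16735728)) (b (l 16736768) (l 16734648))) (a (l 16732600) (b (l 16732592) (l 16730608)))))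 (a (b (a (l 16741608) (l 16735120)) (l 16730944)) (b (a (l 16733936) (b (l 16733912) (l 16731584))) (a (l 16729312) (l 16728200)))))), by decide +kernel⟩

def k88_A00pm_102_s1 : ∃ t, chk3 f_A00pm_102_s1 t 127 37 1 = true :=
  ⟨(c (a (b (c (c (a (l 16738232) (l 16737600)) (a (l 16736512) (l 16735824))) (a (l 16733912) (l 16733152))) (c (a (c (l 16735488) (l 16733512)) (b (l 16734616) (l 16733328))) (a (l 16730536) (l 16729880)))) (b (b (c (a (l 16736752) (l 16736024)) (a (l 16733208) (l 16732376))) (c (a (l 16735344) (l 16734664)) (a (l 16731552) (l 16730776)))) (c (b (a (l 16734024) (l 16733400)) (a (l 16732784) (c (l 16733328) (l 16731120)))) (a (c (l 16730256) (l 16728160)) (c (l 16729584) (l 16727432)))))) (a (b (c (a (l 16730416) (l 16729544)) (l 16726408)) (c (a (l 16726552) (l 16725784)) (l 16722112))) (b (c (a (l 16728656) (l 16727744)) (a (l 16724912) (l 16723888))) (c (a (l 16725000) (c (l 16725272) (l 16723104))) (a (l 16720760) (l 16719832)))))), by decide +kernel⟩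

def k89_A00pm_102_s1 : ∃ t, chk3 f_A00pm_102_s1 t 62 38 1 = true :=
  ⟨(c (a (b (a (c (a (b (l 16748696) (c (l 16747888) (l 16746104))) (b (l 16749800) (c (l 16746376) (l 16744552)))) (b (l 16749768) (l 16747832))) (c (a (b (l 16748272) (c (l 16744848) (l 16742984))) (b (c (l 16745000) (l 16743208)) (c (l 16743312) (l 16741400)))) (b (l 16746544) (l 16744576)))) (a (b (c (a (l 16745256) (l 16743696)) (l 16740656)) (a (l 16746776) (l 16745144))) (b (c (a (l 16742120) (l 16740536)) (l 16737344)) (a (l 16743504) (l 16747096))))) (c (b (a (b (c (a (l 16743456) (l 16741896)) (l 16740824)) (c (a (l 16741760) (l 16740200)) (l 16744256))) (a (b (l 16739360) (l 16742840)) (b (l 16737744) (l 16735976)))) (a (b (a (l 16738944) (l 16737336)) (l 16736288)) (b (c (l 16735976) (l 16733824)) (l 16733000)))) (b (a (b (l 16738024) (l 16736032)) (b (l 16734688) (l 16732680))) (a (b (l 16733992) (l 16731944)) (l 16734776))))) (a (b (b (a (c (l 16741032) (l 16737464)) (l 16746312)) (a (c (l 16738872) (l 16735088)) (l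 16744016))) (a (c (l 16746176) (l 16731640)) (c (l 16732200) (l 16728024)))) (b (a (b (l 16732360) (l 16730032)) (c (l 16729656) (l 16725632))) (a (l 16737016) (b (l 16724120) (l 16721728)))))), by decide +kernel⟩

def k90_A00pm_102_s1 : ∃ t, chk3 f_A00pm_102_s1 t 63 38 2 = true :=
  ⟨(a (b (b (a (c (a (l 16736104) (l 16739656)) (l 16731216)) (c (a (l 16733480) (l 16733016)) (l 16729104))) (a (c (a (l 16734328) (c (b (l 16734208) (l 16733448)) (l 16731704))) (a (l 16730120) (l 16728496))) (c (b (l 16732280) (a (l 16731800) (l 16731464))) (l 16727504)))) (a (c (b (a (l 16732424) (c (l 16732304) (l 16730048))) (a (l 16730488) (l 16729680))) (b (a (l 16728008) (l 16726672)) (a (l 16725864) (l 16724952)))) (c (c (b (l 16731784) (l 16730544)) (b (l 16729432) (l 16728080))) (c (l 16726328) (l 16723928))))) (b (b (a (c (a (l 16732584) (l 16732128)) (l 16727944)) (c (a (l 16734264) (c (l 16732312) (l 16729968))) (a (l 16727056) (l 16726440)))) (a (c (b (c (l 16732656) (l 16730344)) (c (a (l 16732280) (l 16731920))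 (l 16729728))) (a (l 16726768) (l 16726248))) (c (b (a (l 16730848) (l 16730392)) (a (c (l 16731544) (l 16729080)) (b (l 16730024) (l 16729744)))) (a (c (l 16726928) (l 16724488)) (b (l 16725472) (l 16730072)))))) (a (c (b (c (a (l 16731360) (l 16731056)) (l 16728752)) (c (l 16730120) (l 16727528))) (c (a (l 16725784) (l 16725384)) (l 16728296))) (c (b (a (c (l 16730728) (l 16728168)) (c (l 16730376) (l 16727752))) (c (a (l 16729720) (l 16729432)) (a (l 16727040) (l 16726688)))) (b (a (l 16724328) (c (l 16725136) (l 16722512))) (a (l 16723008) (c (l 16723936) (l 16721184)))))))), by decide +kernel⟩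

def k91_A00pm_102_s1 : ∃ t, chk3 f_A00pm_102_s1 t 63 38 3 = true :=
  ⟨(c (a (b (a (b (l 16727208) (l 16725008)) (b (l 16724912) (l 16723056))) (a (b (a (l 16723592) (l 16722176)) (a (l 16721248) (l 16720232))) (l 16720328))) (b (a (b (l 16723512) (a (l 16722136) (l 16721488))) (b (a (l 16722448) (l 16721712)) (a (l 16720832) (b (l 16720536) (l 16719760))))) (a (c (l 16720528) (l 16717992)) (b (a (l 16719200) (l 16718568)) (a (l 16717624) (l 16717048)))))) (a (b (a (b (l 16723192) (a (l 16721696) (l 16719944))) (b (l 16720712) (l 16718608))) (a (b (l 16718408) (l 16721400)) (l 16715544))) (b (a (b (l 16719072) (l 16717112)) (b (l 16717400) (b (l 16716000) (a (l 16715472) (l 16714672))))) (a (l 16714200) (a (l 16713128) (b (l 16713296) (l 16711520))))))), by decide +kernel⟩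

def k92_A00pm_102_s1 : ∃ t, chk3 f_A00pm_102_s1 t 62 39 1 = true :=
  ⟨(b (c (a (a (c (b (l 16740952) (l 16739208)) (l 16735760)) (c (b (l 16737728) (l 16735960)) (l 16732336))) (a (b (l 16742672) (l 16730288)) (b (l 16734024) (a (l 16727720) (l 16726000))))) (a (a (l 16739672) (l 16736024)) (a (c (l 16724208) (l 16719520)) (b (l 16719352) (l 16717000))))) (c (a (a (c (l 16736632) (l 16731872)) (b (l 16731824) (l 16730008))) (a (b (l 16728424) (a (l 16727456) (l 16725744))) (a (b (l 16725848) (c (l 16726720) (l 16721336))) (b (a (l 16724552) (c (b (l 16726776) (l 16726104)) (l 16721216))) (c (b (a (l 16725880) (l 16725536)) (a (l 16725216) (l 16725080))) (b (l 16720336) (l 16719648))))))) (a (a (l 16724648) (c (l 16723448) (l 16718456))) (a (c (l 16719800) (l 16714680)) (a (c (l 16717048) (l 16711840)) (b (c (l 16716376) (l 16711208)) (c (b (l 16714952) (l 16714136)) (l 16709168)))))))), by decide +kernel⟩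

def k93_A00pm_102_s1 : ∃ t, chk3 f_A00pm_102_s1 t 63 39 2 = true :=
  ⟨(b (a (a (b (c (a (l 16728816) (l 16728352)) (a (l 16723968) (l 16723384))) (b (c (l 16727664) (l 16722576)) (c (l 16727048) (l 16721832)))) (c (b (l 16733376) (c (l 16728416) (l 16725696))) (b (l 16722960) (l 16721632)))) (a (c (b (c (l 16729112) (l 16726392)) (b (l 16727032) (l 16731824))) (b (l 16722312) (l 16721096))) (c (b (c (a (l 16728824) (c (l 16729312) (l 16727872))) (a (l 16726000) (l 16725712))) (c (a (l 16728024) (c (l 16728616) (l 16727112))) (a (l 16725072) (l 16724848)))) (b (a (l 16721776) (l 16721392)) (a (l 16720640) (l 16720312)))))) (a (b (c (a (b (l 16726464) (l 16725984)) (c (l 16727552) (l 16724696))) (a (b (l 16721120) (l 16720496)) (l 16720424))) (c (a (b (l 16725536) (l 16725128)) (b (l 16725512) (l 16725152))) (a (b (l 16719912) (l 16719368)) (c (l 16720840) (l 16717856))))) (b (a (c (c (a (l 16727480) (l 16727424)) (l 16724464)) (l 16719984)) (c (c (a (l 16727344) (c (l 16728032) (l 16726448))) (a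 (l 16724248) (l 16724080))) (a (l 16719608) (l 16719336)))) (b (a (c (c (l 16726976) (l 16723880)) (l 16719240)) (c (c (a (l 16726920) (l 16726856)) (l 16723656)) (l 16718800))) (a (c (c (l 16726704) (l 16723528)) (l 16718776)) (c (a (c (l 16726680) (l 16723400)) (c (l 16726640) (l 16723296))) (a (l 16718488) (l 16718272)))))))), by decide +kernel⟩

def k94_A00pm_102_s1 : ∃ t, chk3 f_A00pm_102_s1 t 63 39 3 = true :=
  ⟨(a (a (b (b (c (a (l 16719144) (l 16718432)) (l 16714016)) (c (l 16717104) (l 16711992))) (b (c (l 16715416) (l 16710056)) (c (l 16713968) (l 16708344)))) (b (c (b (l 16717800) (l 16716216)) (l 16711720)) (b (c (l 16714744) (l 16709088)) (c (l 16713392) (l 16707456))))) (c (b (a (b (l 16716880) (l 16715400)) (b (a (l 16716136) (l 16715616)) (l 16714504))) (a (b (l 16714016) (l 16712744)) (b (l 16713224) (a (l 16712216) (l 16711840))))) (b (a (l 16710560) (b (l 16710160) (l 16708520))) (a (b (l 16708064) (l 16706512)) (b (l 16706968) (l 16705496)))))), by decide +kernel⟩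

def k95_A00pm_102_s1 : ∃ t, chk3 f_A00pm_102_s1 t 14 40 1 = true :=
  ⟨(c (a (b (b (a (c (l 16781376) (l 16787648)) (a (l 16788024) (l 16786336))) (a (l 16790296) (a (l 16789224) (l 16785480)))) (a (b (a (l 16795752) (l 16791832)) (a (l 16802376) (l 16795464))) (a (b (l 16789160) (l 16786816)) (l 16792808)))) (a (b (a (c (l 16781360) (l 16779424)) (b (l 16775416) (l 16773688))) (a (l 16787080) (b (l 16771792) (l 16769688)))) (b (a (a (l 16769848) (l 16766688)) (a (l 16763488) (l 16760240))) (a (b (l 16765592) (l 16763536)) (a (l 16759720) (l 16756512)))))) (a (a (b (b (a (l 16785200) (l 16784928)) (a (l 16787184) (l 16786936))) (b (a (l 16789400) (c (l 16789488) (l 16787064))) (a (l 16791056) (c (l 16789432) (l 16786768))))) (b (a (b (l 16784464) (c (l 16786664) (a (l 16785000) (l 16783824)))) (b (c (a (l 16784536) (l 16782880)) (a (l 16782032) (l 16780224))) (c (l 16782400) (l 16779592)))) (a (b (c (l 16786280) (l 16783544)) (l 16782080)) (b (l 16778552) (l 16775768))))) (b (a (a (b (c (l 16778080)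 (l 16775200)) (l 16774472)) (b (l 16769968) (l 16767696))) (a (b (l 16763008) (l 16760720)) (b (l 16755880) (l 16753584)))) (a (a (b (l 16771992) (l 16769224)) (b (l 16765216) (l 16762480))) (a (b (l 16758256) (l 16755568)) (b (l 16751144) (l 16748520))))))), by decide +kernel⟩

def k96_A00pm_102_s1 : ∃ t, chk3 f_A00pm_102_s1 t 30 40 1 = true :=
  ⟨(a (c (a (b (a (l 16756984) (l 16764216)) (a (l 16753288) (l 16760536))) (b (a (l 16760952) (c (l 16749296) (l 16745064))) (a (l 16757304) (l 16754064)))) (a (b (b (l 16748648) (l 16746352)) (b (l 16743936) (l 16741392))) (b (b (l 16741392) (l 16739088)) (b (l 16736712) (l 16734232))))) (c (a (a (b (c (l 16746144) (l 16741688)) (l 16750816)) (b (c (l 16742976) (l 16738304)) (l 16747568))) (b (c (a (l 16739784) (l 16736576)) (a (l 16734912) (l 16731496))) (a (l 16744312) (l 16733168)))) (a (b (b (l 16734112) (l 16731808)) (a (l 16730000) (l 16726400))) (b (a (l 16727440) (l 16723776)) (a (l 16722792) (c (l 16722032) (l 16716336))))))), by decide +kernel⟩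

def k97_A00pm_102_s1 : ∃ t, chk3 f_A00pm_102_s1 t 62 40 1 = true :=
  ⟨(a (c (c (b (a (l 16733336) (b (l 16730896) (l 16729304))) (a (l 16730184) (b (l 16727760) (l 16726272)))) (b (a (l 16728056) (l 16724600)) (a (l 16724328) (b (l 16721872) (l 16720080))))) (b (a (c (l 16722760) (l 16717440)) (c (l 16719144) (l 16713688))) (a (c (l 16718488) (l 16712656)) (c (b (l 16716008) (l 16713936)) (l 16708968))))) (c (b (a (c (b (l 16727592) (a (l 16726832) (l 16725176))) (b (l 16722080) (a (l 16721096) (l 16719352)))) (b (b (a (b (l 16722920) (c (l 16725272) (l 16719656))) (c (l 16724704) (l 16719016))) (a (c (l 16724736) (l 16719024)) (c (l 16724272) (l 16718440)))) (c (a (b (l 16729400) (l 16723696)) (l 16723744)) (a (b (l 16718304) (l 16717696)) (l 16717688))))) (a (b (a (c (l 16725312) (l 16719288)) (b (c (l 16724024) (l 16717984)) (c (a (l 16723720) (l 16723128)) (l 16722472)))) (a (c (b (l 16724216) (l 16726104)) (b (l 16717968) (l 16717080))) (c (b (a (l 16723056) (l 16722792)) (l 16722664)) (b (l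 16716640) (l 16716168))))) (b (c (a (b (l 16723312) (l 16723008)) (l 16723136)) (a (l 16716960) (l 16716784))) (c (a (l 16727904) (l 16722640)) (a (l 16716128) (l 16715976)))))) (c (b (a (b (l 16716592) (l 16714480)) (a (b (b (l 16714352) (l 16713360)) (l 16712168)) (b (l 16713032) (l 16711680)))) (a (b (a (l 16713312) (l 16711568)) (a (l 16711232) (l 16710112))) (b (l 16710672) (l 16709520)))) (b (a (l 16709928) (b (a (l 16708304) (l 16707352)) (l 16706136))) (a (b (l 16706424) (l 16709720)) (b (l 16704496) (l 16703048))))))), by decide +kernel⟩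

def k98_A00pm_102_s1 : ∃ t, chk3 f_A00pm_102_s1 t 63 40 2 = true :=
  ⟨(a (b (b (c (a (b (l 16729976) (l 16724336)) (b (l 16724776) (l 16724360))) (a (b (l 16718824) (l 16718288)) (b (l 16718584) (l 16718032)))) (a (c (a (l 16723768) (l 16723776)) (l 16717520)) (c (a (l 16723776) (l 16723752)) (l 16717240)))) (a (b (c (a (l 16723136) (l 16723120)) (l 16716584)) (c (a (l 16722608) (l 16722560)) (l 16715744))) (b (c (a (l 16723096) (l 16723056)) (l 16716272)) (c (a (l 16722504) (l 16722432)) (l 16715384))))) (c (b (a (b (b (c (l 16726376) (l 16723128)) (l 16724328)) (a (l 16723720) (l 16728920))) (b (a (b (c (l 16726360) (l 16723016)) (l 16724256)) (c (b (l 16726336) (l 16725928)) (b (l 16722920) (l 16722448)))) (a (c (l 16725360) (l 16721864)) (c (b (l 16725536) (l 16725152)) (l 16721752))))) (a (b (a (l 16723000) (c (l 16724712) (l 16721144))) (a (l 16722352) (c (l 16724104) (l 16720400)))) (b (a (c (l 16724656) (l 16721032)) (c (b (l 16724792) (l 16724440)) (l 16723520))) (b (a (l 16722328) (c (l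 16724104) (l 16720320))) (a (l 16721984) (c (l 16726400) (l 16719936))))))) (b (a (b (b (l 16718280) (l 16717720)) (l 16716904)) (b (b (a (l 16718000) (l 16717800)) (l 16717344)) (a (l 16716616) (l 16716400)))) (a (b (l 16721152) (c (l 16716808) (l 16713144))) (b (a (l 16715592) (l 16715368)) (a (l 16714632) (c (l 16716296) (l 16712480)))))))), by decide +kernel⟩

def k99_A00pm_102_s1 : ∃ t, chk3 f_A00pm_102_s1 t 63 40 3 = true :=
  ⟨(a (b (b (c (a (l 16712608) (l 16712064)) (a (l 16706712) (l 16705864))) (a (c (l 16711304) (l 16705128)) (l 16717992))) (a (c (b (l 16710080) (l 16708952)) (l 16713376)) (b (l 16716616) (l 16715312)))) (b (b (a (c (l 16711464) (l 16704960)) (c (a (l 16710968) (l 16710616)) (l 16703984))) (a (c (l 16710128) (l 16703368)) (c (l 16709448) (l 16702400)))) (a (c (b (l 16708864) (l 16707672)) (l 16711560)) (b (c (l 16708176) (l 16700872)) (c (l 16706952) (l 16699400)))))), by decide +kernel⟩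

def k100_A00pm_102_s1 : ∃ t, chk3 f_A00pm_102_s1 t 14 82 1 = true :=
  ⟨(a (a (a (b (c (l 16808920) (l 16790752)) (c (l 16814888) (l 16786600))) (c (l 16794040) (b (l 16784864) (l 16780840)))) (c (a (b (l 16791448) (l 16798280)) (b (l 16778832) (l 16785568))) (a (b (l 16778824) (l 16774880)) (b (l 16772560) (l 16768728))))) (c (a (a (b (l 16773176) (l 16770216)) (b (l 16767304) (l 16764488))) (a (b (l 16761248) (l 16763832)) (b (l 16755032) (l 16763016)))) (a (a (b (l 16766080) (l 16762376)) (b (l 16759416) (l 16755864))) (a (b (l 16752608) (l 16749216)) (b (l 16745664) (l 16742456)))))), by decide +kernel⟩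

def k101_A00pm_102_s1 : ∃ t, chk3 f_A00pm_102_s1 t 30 82 1 = true :=
  ⟨(b (c (a (a (l 16748728) (l 16752872)) (a (l 16746512) (a (l 16731224) (l 16728016)))) (a (a (l 16738656) (l 16731624)) (a (l 16724584) (a (l 16719280) (l 16715752))))) (c (a (a (l 16756888) (l 16750736)) (a (l 16744544) (a (l 16729376) (l 16726256)))) (a (a (l 16735632) (l 16728800)) (a (l 16721944) (a (l 16716792) (l 16713360)))))), by decide +kernel⟩

def k102_A00pm_102_s1 : ∃ t, chk3 f_A00pm_102_s1 t 62 82 1 = true :=
  ⟨(c (a (a (b (a (l 16725608) (l 16723992)) (a (l 16723912) (l 16727584))) (b (a (c (l 16725616) (l 16719152)) (c (l 16724032) (l 16717488))) (a (c (l 16724176) (l 16717384)) (c (b (l 16725632) (l 16725256)) (b (l 16716216) (l 16715664)))))) (b (a (c (a (b (a (l 16723208) (l 16722616)) (a (l 16722616) (l 16722376))) (b (l 16722432) (l 16722312))) (a (b (a (l 16716672) (l 16716032)) (l 16715832)) (l 16715624))) (c (a (l 16727560) (l 16722256)) (a (l 16715456) (l 16715280)))) (a (c (b (a (l 16722352) (l 16722224))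 (l 16727472)) (b (l 16720624) (l 16715112))) (c (b (l 16722096) (l 16722008)) (b (l 16714936) (l 16714680)))))) (a (b (a (l 16712224) (c (l 16711880) (l 16705512))) (b (a (l 16710536) (c (l 16710328) (l 16703744))) (a (l 16709376) (c (l 16714704) (l 16702728))))) (b (a (c (a (l 16714840) (l 16708960)) (l 16702872)) (c (l 16708528) (l 16701752))) (a (c (b (l 16708520) (l 16708088)) (l 16701520)) (c (l 16707640) (l 16700552)))))), by decide +kernel⟩

def k103_A00pm_102_s1 : ∃ t, chk3 f_A00pm_102_s1 t 63 82 1 = true :=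
  ⟨(c (a (b (a (c (a (l 16722184) (l 16722096)) (l 16715000)) (c (a (l 16722008) (l 16721896)) (l 16714584))) (a (c (b (l 16721888) (l 16721744)) (l 16714360)) (c (b (l 16721632) (l 16721440)) (l 16724360)))) (a (b (c (a (l 16721776) (c (l 16723568) (l 16719736))) (c (l 16716016) (l 16712224))) (c (c (l 22) (a (l 16719336) (l 16719144))) (c (l 16715304) (l 16711376)))) (a (b (c (b (l 16721664) (l 16726608)) (l 16713736)) (c (b (l 16726320) (l 16726048)) (l 16718152))) (c (c (b (b (a (l 16723504) (l 16723440)) (l 22)) (l 22)) (b (b (l 16719560) (l 16719208)) (b (l 16718872) (l 16718544)))) (b (c (l 16715432) (l 16711496)) (b (l 16712816) (l 16712392))))))) (a (b (c (a (l 16707912) (l 16707248)) (l 16700440)) (c (a (l 16706968) (l 16706248)) (l 16699176))) (a (b (c (l 16706544) (l 16699000)) (c (l 16705496) (l 16697672))) (b (c (l 16705784) (l 16697976)) (c (a (l 16704888) (l 16704472)) (l 16696616)))))), by decide +kernel⟩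

def k104_A00pm_102_s1 : ∃ t, chk3 f_A00pm_102_s1 t 28 83 1 = true :=
  ⟨(c (b (a (a (l 16821032) (l 16814320)) (a (l 16784208) (b (l 16791288) (l 16795016)))) (a (a (b (l 16804544) (b (b (b (l 16827040) (l 16806184)) (l 16827704)) (l 16829280))) (b (l 16803256) (b (b (b (l 16820544) (b (l 16820632) (l 16820632))) (l 16821192)) (l 16822856)))) (a (b (b (l 16809496) (l 16810968)) (b (b (b (l 16811752) (b (l 16811832) (l 16811808))) (l 16812408)) (l 16814184))) (b (b (l 16797728) (l 16799312)) (b (b (b (l 16800152) (b (l 16800224) (l 16800200))) (l 16800840)) (l 16802752)))))) (b (a (a (l 16780912) (l 16775312)) (a (l 16769560) (l 16763640))) (a (b (a (l 16774248) (l 16768936)) (a (c (l 16781496) (l 16777752)) (c (l 16776624) (l 16772528)))) (a (b (l 16763512) (b (c (l 16771424) (l 16756536)) (l 16757144))) (b (l 16757944) (b (c (l 16766368) (l 16751136)) (l 16752016))))))), by decide +kernel⟩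

def k105_A00pm_102_s1 : ∃ t, chk3 f_A00pm_102_s1 t 29 83 1 = true :=
  ⟨(c (b (a (a (c (l 16822624) (l 16764160)) (b (l 16762008) (l 16759840))) (a (c (l 16789528) (l 16752648)) (c (l 16775704) (l 16746688)))) (a (b (a (b (l 16782488) (l 16784232)) (b (l 16763048) (l 16786000))) (a (b (b (b (l 16785160) (b (l 16785248) (a (l 16789312) (l 16780872)))) (l 16785920)) (l 16788008)) (b (b (b (l 16787056) (b (l 16787168) (c (l 16818824) (l 16749568)))) (l 16787936)) (l 16790240)))) (b (a (b (l 16752456) (l 16782080)) (b (l 16746936) (l 16776776))) (a (b (b (b (l 16791008) (b (l 16790120) (a (l 16790696) (l 16788104)))) (l 16789056)) (l 16789312)) (b (b (c (b (l 16778032) (b (l 16778384) (l 16778552))) (l 16750760)) (l 16784176)) (l 16784384)))))) (c (b (a (a (l 16759824) (l 16753760)) (a (l 16747568) (l 16741256))) (a (a (b (l 16754664) (a (l 16752176) (l 16749520))) (b (l 16748984) (l 16755992))) (a (b (l 16743192) (l 16750520)) (b (l 16737304) (l 16744960))))) (b (a (a (l 16755184) (l 16748792)) (a (l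 16742296) (l 16735704))) (a (a (b (l 16749736) (l 16756216)) (b (l 16743752) (l 16740064))) (a (b (l 16737664) (l 16734304)) (b (l 16731488) (l 16728472))))))), by decide +kernel⟩

def k106_A00pm_102_s1 : ∃ t, chk3 f_A00pm_102_s1 t 30 83 1 = true :=
  ⟨(c (c (b (a (a (l 16746344) (l 16740688)) (a (l 16734992) (a (l 16730672) (l 16727776)))) (a (a (b (l 16745208) (b (b (b (l 16749064) (b (l 16749504) (l 16791672))) (l 16750936)) (l 16754184))) (b (l 16738216) (a (a (l 16743592) (l 16737112)) (l 16740496)))) (a (b (l 16732920) (a (l 16732760) (l 16735528))) (b (b (l 16728024) (l 16727288)) (b (b (b (l 16726712) (a (l 16727568) (b (l 16725080) (l 16724896)))) (l 16725992)) (l 16726040)))))) (a (a (b (l 16740664) (b (l 16737432) (l 16745640))) (b (l 16734624) (b (l 16731816) (l 16740352)))) (b (a (l 16728560) (a (l 16723976) (l 16720920))) (a (b (l 16726168) (a (l 16725872) (l 16728472))) (b (b (l 16721000) (l 16720160)) (b (b (b (l 16719512) (b (l 16719128) (a (l 16720184) (l 16717584)))) (l 16718720))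 (l 16718696))))))) (a (b (a (l 16732000) (l 16725488)) (a (b (l 16728328) (a (l 16737648) (l 16734784))) (b (l 16722256) (a (l 16731920) (a (l 16729760) (l 16728328)))))) (c (b (a (l 16722152) (a (l 16717344) (l 16714136))) (a (b (l 16719480) (a (l 16719056) (a (l 16716952) (l 16726064)))) (b (b (l 16714072) (l 16713136)) (b (b (b (l 16712432) (b (l 16712024) (a (l 16713136) (l 16710408)))) (l 16711576)) (l 16711488))))) (a (b (l 16715768) (b (l 16712856) (b (b (b (l 16711424) (l 16710736)) (l 16710296)) (l 16710192)))) (b (l 16709112) (b (b (l 16707232) (l 16706224)) (b (b (b (l 16705464) (b (l 16705048) (a (l 16706216) (l 16703360)))) (l 16704568)) (l 16704416)))))))), by decide +kernel⟩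

def k107_A00pm_102_s1 : ∃ t, chk3 f_A00pm_102_s1 t 62 83 2 = true :=
  ⟨(c (b (a (a (b (l 16725344) (l 16724464)) (b (a (l 16723144) (l 16722496)) (a (l 16722880) (l 16722520)))) (a (b (l 16722232) (l 16722280)) (b (l 16721952) (l 16721936)))) (b (a (a (b (l 16723888) (l 16723728)) (a (l 16722920) (l 16722728))) (b (l 16722184) (l 16727512))) (a (b (b (b (l 16723384) (b (l 16723416) (l 16723384))) (l 16723416)) (l 16723408)) (b (b (b (l 16722336) (a (l 16722632) (b (l 16722120) (l 16722152)))) (l 16722440)) (l 16722408))))) (b (a (a (b (l 16718416) (l 16717344)) (b (a (l 16716088) (l 16715352)) (a (l 16715648) (l 16715192)))) (a (b (l 16714936) (l 16714808)) (b (l 16714456) (l 16714280)))) (b (a (a (b (l 16716632) (a (l 16716648) (l 16715928))) (a (l 16715480) (l 16715200))) (b (l 16714480) (l 16714472))) (a (b (b (b (l 16715872) (b (l 16715872) (l 16715824))) (l 16715824)) (l 16715760)) (b (b (b (l 16714480) (b (l 16714504) (l 16714536))) (l 16714512)) (l 16714424)))))), by decide +kernel⟩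

def k108_A00pm_102_s1 : ∃ t, chk3 f_A00pm_102_s1 t 63 166 2 = true :=
  ⟨(a (a (b (c (l 16721632) (l 16713944)) (c (l 16721560) (l 16713712))) (b (c (l 16721280) (l 16713392)) (c (l 16721152) (l 16713112)))) (a (c (c (l 22) (b (l 16718856) (l 16718640))) (b (l 16712800) (l 16712472))) (a (c (c (l 22) (b (l 16718496) (l 16718232))) (b (l 16712320) (l 16711960))) (c (c (l 22) (b (l 16718240) (b (l 16718016) (l 16717872)))) (b (l 16711992) (c (l 16713720) (l 16709496))))))), by decide +kernel⟩

def k109_A00pm_102_s1 : ∃ t, chk3 f_A00pm_102_s1 t 126 167 2 = true :=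
  ⟨(c (b (a (b (l 16721528) (l 16721552)) (b (l 16721064) (l 16726288))) (a (b (b (b (l 16721568) (b (l 16721600) (l 16732112))) (l 16721616)) (l 16721560)) (c (l 22) (b (b (b (l 16718960) (b (l 16718968) (l 16724216))) (l 16718952)) (l 16718872))))) (b (b (l 16713256) (b (l 16713184) (l 16713144))) (b (b (b (l 16713128) (b (l 16713128) (a (l 16713480) (l 16723232)))) (l 16713096)) (l 16712984)))), by decide +kernel⟩

def k110_A00pm_102_s1 : ∃ t, chk3 f_A00pm_102_s1 t 127 167 2 = true :=
  ⟨(b (b (a (c (a (l 16720688) (l 16720424)) (l 16712232)) (c (c (l 22) (a (l 16718040) (l 16717736))) (a (l 16711688) (l 16711320)))) (b (a (c (l 16725752) (l 16712120)) (a (c (l 16725320) (l 16711560)) (c (c (l 22) (l 16717632)) (l 16711176)))) (b (c (c (l 22) (a (l 16718376) (b (l 16717752) (l 16717736)))) (a (l 16712064) (l 16716552))) (c (a (l 16725712) (a (l 16720016) (c (l 22) (l 16717544)))) (a (l 16712032) (l 16716504)))))) (b (b (c (a (c (l 22) (c (l 22) (b (l 16717288) (b (l 16717280) (b (b (l 16717280)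 (l 16717280)) (l 16717272)))))) (c (l 22) (c (l 22) (c (l 22) (b (l 16716072) (b (l 16716048) (b (b (l 16716040) (a (l 16716216) (l 16715848))) (l 16716032)))))))) (a (b (l 16712008) (b (l 16711992) (b (b (l 16711984) (l 16711984)) (l 16711976)))) (b (a (l 16711416) (l 16711016)) (b (a (l 16711392) (l 16710984)) (b (b (c (l 16713344) (l 16709024)) (c (a (l 16713528) (l 16718376)) (l 16709024))) (l 16711168)))))) (b (b (a (c (l 16725696) (l 16711960)) (c (c (l 22) (l 16717640)) (l 16711152))) (b (a (c (l 16720440) (l 16711944)) (c (c (l 22) (l 16717632)) (l 16711136))) (b (a (c (l 16720440) (l 16711936)) (c (c (l 22) (l 16717624)) (l 16711128))) (a (c (l 16720432) (l 16711936)) (c (c (l 22) (l 16717616)) (l 16711120)))))) (a (c (l 16725664) (l 16711912)) (c (c (l 22) (l 16717600)) (l 16711096))))) (a (c (a (l 16720512) (l 16720192)) (l 16711808)) (c (a (l 16725104) (c (l 22) (l 16717336))) (c (l 16713160) (l 16708808)))))), by decide +kernel⟩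

def k111_A00pm_102_s1 : ∃ t, chk3 f_A00pm_102_s1 t 31 83 3 = true :=
  ⟨(c (a (b (a (a (b (l 16711576) (l 16710336)) (b (l 16714056) (l 16708344))) (a (b (l 16707744) (l 16707440)) (l 16706888))) (b (a (a (b (l 16709496) (l 16709136)) (l 16718464)) (b (l 16706872) (l 16706768))) (a (b (b (b (l 16708488) (b (l 16708464) (l 16708392))) (l 16708368)) (l 16708240)) (b (b (b (l 16706720) (b (l 16706728) (l 16706736))) (l 16706688)) (l 16706544))))) (b (a (a (l 16706144) (l 16705360)) (a (b (l 16704744) (l 16704272)) (b (l 16703888) (l 16703384)))) (a (b (b (l 16705256) (l 16705096)) (b (b (b (l 16704992) (b (l 16704976) (l 16715456))) (l 16704912)) (l 16704744))) (a (b (b (l 16703928) (l 16703728)) (b (b (b (l 16703584) (b (l 16703552) (l 16703536))) (l 16703464)) (l 16703288))) (b (b (l 16703008) (l 16713264)) (b (b (b (l 16702616) (b (l 16702576) (b (b (l 16702552) (l 16702544)) (l 16702536)))) (l 16702464)) (l 16702280))))))) (a (b (a (a (b (l 16704824) (l 16703432)) (b (l 16701920) (l 16701280)))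 (a (l 16700408) (l 16699472))) (a (b (b (l 16707032) (b (l 16701488) (l 16701352))) (b (b (b (l 16701224) (b (l 16701176) (l 16701088))) (l 16701032)) (l 16700840))) (b (l 16709768) (b (b (b (l 16699056) (l 16720016)) (l 16698968)) (l 16698760))))) (b (a (b (l 16698280) (l 16697720)) (a (l 16696440) (l 16705824))) (a (b (b (l 16697312) (l 16697072)) (b (b (b (l 16696920) (b (l 16696888) (l 16696864))) (l 16696784)) (l 16696560))) (b (b (l 16695112) (b (l 16694880) (l 16694736))) (b (b (b (l 16694632) (b (l 16694584) (a (l 16695128) (l 16693928)))) (l 16694448)) (l 16694224))))))), by decide +kernel⟩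

def k112_A00pm_102_s1 : ∃ t, chk3 f_A00pm_102_s1 t 14 21 1 = true :=
  ⟨(a (c (a (b (a (b (l 16817904) (l 16814536)) (b (a (l 16834640) (l 16831200)) (l 16830552))) (a (b (l 16832608) (l 16892888)) (b (l 16828552) (l 16847760)))) (b (a (b (a (l 16827200) (l 16822584)) (a (l 16846568) (l 16842584))) (b (a (l 16817288) (l 16811256)) (a (l 16837992) (l 16832736)))) (a (b (l 16822784) (l 16843032)) (b (c (l 16900408) (l 16813520)) (l 16836432))))) (b (a (a (b (l 16769784) (l 16775008)) (b (l 16764496) (l 16769080))) (a (b (l 16759144) (l 16763088)) (b (l 16753680) (l 16757008)))) (a (a (b (l 16780872) (l 16787424)) (b (l 16774296) (l 16780184))) (a (c (l 16773752) (l 16766440)) (c (l 16766840) (l 16759248)))))) (c (b (b (a (a (a (l 16804400) (l 16796648)) (a (l 16787920) (l 16788600))) (a (a (l 16788096) (l 16775816)) (a (l 16787000) (l 16784360)))) (a (a (a (l 16826744) (l 16819960)) (c (l 16819264) (l 16755160))) (a (a (l 16793976) (l 16783136)) (a (l 16771032) (l 16799480))))) (a (a (b (a (l 16807400)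 (l 16801504)) (l 16822336)) (b (c (l 16886184) (l 16780224)) (a (l 16819216) (l 16812696)))) (a (b (a (l 16820768) (l 16811272)) (c (l 16901480) (l 16785216))) (b (a (l 16800640) (l 16788784)) (a (l 16787816) (l 16819400)))))) (a (b (a (b (l 16748096) (l 16750824)) (a (l 16744888) (l 16741872))) (a (c (l 16759856) (l 16751992)) (c (l 16752792) (l 16744680)))) (b (a (c (l 16740632) (l 16733992)) (c (l 16734640) (l 16727744))) (a (c (l 16745680) (l 16737320)) (c (l 16738528) (l 16729944))))))), by decide +kernel⟩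

def k113_A00pm_102_s1 : ∃ t, chk3 f_A00pm_102_s1 t 30 21 1 = true :=
  ⟨(a (c (b (a (a (b (l 16781712) (l 16784480)) (b (l 16737128) (l 16739104))) (c (a (b (l 16749520) (l 16786608)) (l 16735248)) (l 16735328))) (a (b (c (l 16798512) (l 16738968)) (c (l 16872488) (l 16741704))) (c (b (l 16815848) (l 16851472)) (l 16738624)))) (b (a (b (l 16724904) (l 16725384)) (a (l 16720456) (l 16717400))) (a (b (l 16726336) (l 16727808)) (c (l 16724272) (l 16715256))))) (c (a (b (a (c (l 16733584) (l 16725800)) (c (l 16730864) (l 16722936))) (a (c (l 16770928) (l 16728272)) (c (l 16754840) (l 16724864)))) (b (a (b (l 16723848) (l 16724496)) (b (a (l 16721824) (l 16720488)) (a (l 16722280) (l 16720800)))) (a (b (l 16725592) (l 16727184)) (b (a (l 16723184) (l 16721560)) (a (l 16724560) (l 16722816)))))) (a (b (b (l 16723656) (l 16712624)) (a (l 16714368) (l 16710792))) (b (a (b (l 16708760) (l 16707848)) (b (c (l 16709576) (l 16702048)) (c (l 16708800) (l 16700528)))) (a (b (l 16707336) (l 16707288)) (b (c (l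 16708432) (l 16699384)) (c (l 16708536) (l 16698696)))))))), by decide +kernel⟩

def k114_A00pm_102_s1 : ∃ t, chk3 f_A00pm_102_s1 t 62 21 1 = true :=
  ⟨(c (b (a (b (a (c (l 16723712) (l 16715752)) (l 16724304)) (a (l 16719816) (l 16719008))) (a (b (l 16723616) (l 16718176)) (b (c (l 16721896) (l 16713480)) (c (l 16721888) (l 16712808))))) (a (b (a (c (l 16725120) (l 16715592)) (l 16719360)) (a (c (l 16719808) (l 16716168)) (l 16720128))) (a (b (l 16718376) (l 16718952)) (c (b (l 16722264) (l 16723024)) (b (l 16712480) (l 16712520)))))) (b (a (b (a (c (l 16707936) (l 16700264)) (l 16713576)) (a (c (l 16706904) (l 16698504)) (l 16712088))) (b (c (l 16705656) (l 16697528)) (c (l 16704360) (l 16695576)))) (a (b (a (c (l 16706248) (l 16697088)) (c (l 16705120) (l 16695840))) (a (c (l 16706032) (l 16696096)) (c (l 16704736) (l 16694704)))) (b (c (l 16713896) (l 16693936)) (c (l 16713304) (l 16692640)))))), by decide +kernel⟩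

def k115_A00pm_102_s1 : ∃ t, chk3 f_A00pm_102_s1 t 63 21 1 = true :=
  ⟨(c (b (a (a (b (c (a (l 16721408) (l 16721072)) (l 16712688)) (c (l 16721072) (l 16711872))) (b (c (b (l 16720768) (l 22)) (l 16717104)) (c (l 22) (l 16710928)))) (a (b (b (c (c (l 22) (l 16717920)) (l 16711384)) (c (l 22) (l 16710792))) (c (l 22) (b (l 16710264) (l 16715048)))) (c (c (l 22) (b (b (a (l 16717368) (a (l 16717080) (l 16716896))) (l 22)) (l 22))) (b (b (a (l 16710744) (c (l 16712536) (l 16708080))) (a (l 16710112) (c (l 16711944) (l 16707360)))) (b (a (l 16709544) (c (l 16711416) (l 16706696))) (a (l 16709040) (c (l 16713576) (l 16706096)))))))) (a (c (a (b (l 16721264) (l 16721824)) (l 22)) (a (b (l 16711400) (l 16711280)) (b (l 16720800) (a (l 16710328) (l 16709688))))) (c (l 22) (c (c (l 22) (b (a (l 16713064) (a (l 16709608) (b (l 16709304) (l 22)))) (l 22))) (b (a (l 16706696) (a (l 16705832) (b (l 16705560) (l 16705080)))) (a (a (l 16706408) (l 16705752)) (a (b (l 16705304) (l 16705000)) (b (l 16704664) (l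 16704320))))))))) (b (a (b (c (a (l 16704208) (l 16703216)) (l 16695224)) (c (a (l 16702760) (l 16701680)) (l 16693136))) (b (a (c (l 16702192) (l 16693408)) (c (b (l 16701664) (l 16700760)) (l 16692152))) (a (c (l 16700576) (l 16691232)) (c (b (l 16699912) (l 16699120)) (l 16689928))))) (a (b (c (a (l 16701640) (l 16700448)) (l 16691328)) (c (a (l 16700848) (l 16699512)) (l 16689816))) (b (a (c (l 16704464) (l 16689304)) (c (c (a (l 16700808) (l 16700200)) (l 16695472)) (l 16687928))) (a (c (c (l 16700800) (l 16695528)) (l 16687640)) (b (c (c (l 16699736) (l 16694496)) (l 16686632)) (c (c (l 16699272) (l 16693888)) (l 16685808)))))))), by decide +kernel⟩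

def k116_A00pm_102_s1 : ∃ t, chk3 f_A00pm_102_s1 t 14 22 1 = true :=
  ⟨(a (c (b (a (a (b (l 16911320) (l 16929680)) (b (l 16867008) (l 16928096))) (a (b (l 16863272) (l 16841408)) (b (l 16857864) (l 16837120)))) (a (a (l 16914928) (l 16914424)) (a (b (l 16945104) (l 16964536)) (b (l 16857968) (l 16962256))))) (c (a (b (a (l 16801448) (l 16789968)) (a (l 16859008) (l 16849472))) (b (a (b (l 16787176) (l 16807496)) (l 16781072)) (a (l 16838136) (l 16793216)))) (a (b (a (l 16794072) (l 16785712)) (a (l 16810376) (l 16800784))) (b (a (l 16777272) (l 16768760)) (a (l 16791000) (l 16781072)))))) (c (b (a (a (b (l 16850440) (l 16831024)) (b (l 16819648) (l 16822800))) (a (b (a (l 16831424) (l 16824288)) (l 16833000)) (b (a (l 16816264) (l 16807280)) (l 16808728)))) (a (a (b (l 16853112) (l 16874664)) (b (l 16846352) (l 16869264))) (a (b (l 16837336) (l 16861856)) (b (l 16825624) (l 16852056))))) (a (b (a (c (l 16769888) (l 16760176)) (c (l 16761480) (l 16751560))) (a (c (l 16787760) (l 16771104)) (c (l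 16768912) (l 16761096)))) (b (a (c (l 16753064) (l 16742936)) (c (l 16744640) (l 16734312))) (a (c (l 16767640) (l 16751096)) (c (l 16753256) (l 16741120))))))), by decide +kernel⟩

def k117_A00pm_102_s1 : ∃ t, chk3 f_A00pm_102_s1 t 14 23 1 = true :=
  ⟨(c (b (a (a (a (l 16991992) (l 16992776)) (a (l 16908912) (l 16907960))) (a (a (l 16905824) (l 16881304)) (a (c (l 17034632) (l 16843504)) (c (l 17032048) (l 16831568))))) (a (a (a (l 17025352) (l 17027248)) (a (l 17028584) (l 17029184))) (a (a (l 17028864) (l 16943560)) (a (l 16940816) (l 16936512))))) (a (a (a (b (l 16906216) (l 16900896)) (b (l 16885016) (l 16891872))) (a (b (b (l 16830880) (l 16851368)) (l 16881472)) (b (b (l 16815824) (l 16837560)) (l 16890400)))) (a (b (a (b (l 16798304) (l 16821528)) (c (l 16839072) (l 16773536))) (c (a (l 16898368) (l 16885904)) (a (l 16812736) (l 16792736)))) (b (a (c (l 16820864) (l 16762072)) (c (l 16757472) (l 16750648))) (c (a (l 16871152) (l 16853752)) (a (l 16776136) (l 16763160))))))), by decide +kernel⟩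

def k118_A00pm_102_s1 : ∃ t, chk3 f_A00pm_102_s1 t 30 11 1 = true :=
  ⟨(b (a (b (b (c (a (l 16791800) (c (l 16885640) (l 16737264))) (a (l 16729824) (l 16721728))) (c (a (l 16801864) (l 16780272)) (a (l 16732400) (l 16723696)))) (c (a (b (l 16810768) (l 16839456)) (b (l 16792168) (l 16823560))) (a (c (l 16743536) (l 16731240)) (c (l 16733928) (l 16721480))))) (a (c (c (b (b (l 16862968) (l 16899192)) (l 16866120)) (b (l 16730784) (l 16738480))) (b (a (l 16716360) (l 16712208)) (a (l 16720504) (l 16715744)))) (a (c (c (b (l 16778160) (l 16936392)) (b (l 16724808) (l 16723840))) (b (b (l 16707712) (l 16708640)) (b (l 16710104) (l 16712120)))) (c (c (b (l 16721400) (l 16841904)) (b (b (l 16719976) (l 16721880)) (l 16725992))) (b (a (l 16710248) (c (l 16708520) (l 16697440))) (b (l 16705552) (l 16702008))))))) (c (a (c (b (a (l 17027592) (l 17020928)) (l 17073480)) (b (a (l 16816840) (l 16798824)) (a (l 16953840) (l 16940392)))) (c (b (a (l 17011584) (l 16998944)) (l 17062960)) (b (a (l 16776936) (a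 (l 16841408) (l 16742960))) (a (l 16839976) (a (l 16909096) (l 16897968)))))) (a (b (a (c (l 16753256) (l 16739328)) (c (l 16744680) (l 16728160))) (a (c (l 16833320) (l 16750312)) (c (l 16809360) (l 16737624)))) (a (b (c (l 16731552) (l 16717160)) (c (l 16739336) (l 16725128))) (b (a (c (l 16723480) (l 16709016)) (c (l 16718144) (l 16703632))) (a (c (l 16757096) (l 16715880)) (c (l 16697352) (l 16709776)))))))), by decide +kernel⟩

def k119_A00pm_102_s1 : ∃ t, chk3 f_A00pm_102_s1 t 62 22 1 = true :=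
  ⟨(c (a (c (b (b (a (l 16724952) (l 16706624)) (l 16719640)) (b (l 16720336) (l 16844128))) (a (b (b (l 16717208) (l 16718744)) (b (l 16720792) (l 16707104))) (b (b (l 16715752) (l 16717008)) (l 16719752)))) (b (b (a (l 16719928) (c (l 16726624) (l 16712912))) (c (a (l 16736192) (l 16716912)) (l 16714536))) (a (c (l 16720744) (l 16712416)) (c (b (l 16766256) (l 16812048)) (b (l 16714888) (l 16716512)))))) (b (a (a (b (c (l 16706256) (l 16695536)) (c (l 16706960) (l 16695424))) (b (c (l 16704752) (l 16693968)) (l 16709888))) (b (c (l 16713064) (l 16691688)) (c (l 16702736) (l 16691112)))) (a (a (b (c (l 16708160) (l 16695792)) (c (l 16709888) (l 16696672))) (b (l 16710408) (l 16700928))) (b (c (l 16703304) (l 16690928)) (c (l 16704304) (l 16691168)))))), by decide +kernel⟩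

def k120_A00pm_102_s1 : ∃ t, chk3 f_A00pm_102_s1 t 63 22 1 = true :=
  ⟨(c (b (b (c (a (a (l 16722712) (l 22)) (l 22)) (b (c (a (a (l 16714184) (l 22)) (l 22)) (a (l 16708000) (a (l 16705848) (a (l 16704760) (a (l 16704216) (l 16703848)))))) (a (a (l 16711608) (l 22)) (l 22)))) (a (a (c (c (l 16754688) (l 16720960)) (l 16712024)) (l 22)) (l 22))) (a (a (b (c (l 16737528) (l 16712952)) (c (l 16754624) (l 16714280))) (l 22)) (l 22))) (b (a (b (c (a (l 16700360) (l 16698872)) (l 16693848)) (a (c (l 16700216) (l 16688552)) (c (l 16698544) (l 16686840)))) (b (a (c (a (l 16697744) (l 16696984)) (l 16686248)) (c (c (a (l 16699016) (b (l 16698488) (l 16698128))) (a (l 16693424) (l 16692648))) (c (l 16687448) (l 16681856)))) (a (c (a (l 16697272) (l 16696424)) (l 16685112)) (c (a (c (l 16698520) (l 16692632)) (c (b (l 16697824) (l 16697592)) (l 16691776))) (c (l 16686320) (l 16680440)))))) (a (a (b (c (l 16700448) (l 16688080)) (c (l 16701056) (l 16687976))) (c (b (l 16698544) (l 16698896)) (b (l 16686176)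 (l 16685856)))) (a (b (c (b (l 16696696) (l 16696664)) (l 16684280)) (c (c (l 22) (l 16693488)) (l 16683744))) (c (c (b (b (a (l 16698360) (l 16697424)) (l 22)) (l 22)) (b (b (l 16691784) (l 16691568)) (a (l 16691880) (b (l 16690896) (l 16690784))))) (b (b (l 16682624) (l 16682184)) (c (a (l 16685392) (l 16684328)) (l 16678384)))))))), by decide +kernel⟩

def k121_A00pm_102_s1 : ∃ t, chk3 f_A00pm_102_s1 t 31 23 1 = true :=
  ⟨(a (c (a (c (b (b (l 16965368) (l 17000296)) (l 17048480)) (b (a (l 16716912) (l 16711480)) (a (l 16718200) (l 16789840)))) (c (b (b (l 16860576) (l 16899064)) (l 16951784)) (b (a (l 16715200) (a (l 16711696) (l 16712328))) (b (a (l 16840928) (l 16741552)) (l 6))))) (b (a (a (b (c (l 16712176) (l 16698096)) (c (l 16715048) (l 16700088))) (b (l 16702448) (l 16704496))) (b (a (l 16700000) (l 16702808)) (c (l 16707728) (l 16693008)))) (a (a (c (a (l 16724984) (l 16719376)) (b (l 16702688) (l 16705944))) (b (l 16707120) (l 16710360))) (b (c (l 16710184) (l 16694656)) (l 6))))) (a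 (a (c (c (b (b (l 16841496) (l 16883088)) (l 16939760)) (b (b (l 16716032) (l 16710392)) (b (l 16724616) (l 6)))) (a (b (c (l 16703328) (l 16689136)) (c (l 16707296) (l 16691576))) (b (c (l 16707256) (l 16687872)) (l 6)))) (b (c (l 22) (c (b (l 16699616) (l 22)) (b (l 16685888) (l 16686288)))) (l 6))) (b (b (c (l 22) (b (a (c (a (l 16697648) (l 16696464)) (l 16683568)) (b (c (c (l 22) (l 16691336)) (l 16681328)) (c (l 22) (l 16686472)))) (c (l 22) (a (l 16683536) (c (l 16684544) (l 16677680)))))) (c (l 22) (c (l 22) (a (c (l 16687200) (l 16680064)) (l 6))))) (l 6)))), by decide +kernel⟩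

def k122_A00pm_102_s1 : ∃ t, chk3 f_A00pm_102_s1 t 6 6 1 = true :=
  ⟨(b (c (a (b (a (a (l 17022640) (b (l 17016896) (l 17040752))) (a (b (l 17022680) (l 17047520)) (b (l 17028400) (l 17054008)))) (a (a (l 2) (l 17072096)) (a (l 17079616) (l 17087128)))) (b (a (b (a (l 17034160) (a (l 17038744) (l 17041512))) (a (l 17060576) (l 17067096))) (b (a (l 17045752) (a (l 17050392) (l 17053560))) (a (l 17073440) (l 17080216)))) (a (b (a (l 17084272) (l 17091712)) (l 17109336)) (b (a (l 17098776) (l 17106360)) (a (l 17121560) (l 17129888)))))) (a (b (b (a (a (l 16973408) (l 16973704)) (a (l 16973368) (l 16972560))) (a (a (l 16998256) (l 16999176)) (a (l 16999896) (l 17000024)))) (a (a (l 2) (l 17033704)) (a (l 16951512) (l 16994872)))) (b (a (a (b (l 16971120) (l 16999624)) (b (b (l 16938680) (l 16975120)) (l 16976392))) (a (b (c (l 16978728) (l 16936544)) (l 16989088)) (b (c (l 16972000) (l 16878912)) (l 17020760)))) (a (b (a (l 17026016) (l 17025480)) (l 17008576)) (a (b (l 17019152) (l 17047200)) (b (l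 17010152) (l 17039384))))))) (b (a (a (l 2) (a (l 2) (l 17015512))) (b (a (a (l 17096336) (l 17101992)) (a (l 17105928) (l 6))) (l 6))) (l 6))), by decide +kernel⟩

def k123_A00pm_102_s1 : ∃ t, chk3 f_A00pm_102_s1 t 7 6 1 = true :=
  ⟨(a (b (c (a (b (a (b (a (l 17056592) (l 17059416)) (l 17087448)) (b (a (l 17061880) (l 17063800)) (l 17094072))) (a (b (l 17114368) (l 17138896)) (b (l 17122472) (l 6)))) (b (a (b (c (l 17109320) (l 17021640)) (l 17099104)) (b (a (l 17064768) (l 17062912)) (l 17017416))) (a (b (l 17129568) (l 6)) (l 6)))) (a (b (a (b (a (l 16936320) (l 16928752)) (a (l 16970280) (l 16963920))) (b (a (l 16920136) (l 16910160)) (a (l 16956712) (l 16948504)))) (a (b (l 16999960) (l 17030864)) (b (l 16966968) (l 6)))) (b (a (a (b (l 16898600) (l 16939064)) (b (l 16885192) (l 16928096))) (b (c (a (l 16918088) (l 16904168)) (b (l 16776680) (l 16781560))) (a (l 16915384) (l 16858680)))) (a (b (a (l 16976664) (l 16967768)) (l 6)) (l 6))))) (l 6)) (b (b (b (a (c (a (a (l 16975752) (l 16970832))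 (a (l 16963904) (l 16954552))) (a (c (a (l 16887752) (l 16784584)) (a (l 16773784) (l 16750056))) (a (c (l 16803912) (l 16735944)) (c (l 16735448) (a (l 16725504) (l 16718616)))))) (l 6)) (a (a (a (c (l 17100384) (l 16841552)) (l 6)) (l 6)) (l 6))) (l 6)) (l 6))), by decide +kernel⟩

def k124_A00pm_102_s1 : ∃ t, chk3 f_A00pm_102_s1 t 3 7 1 = true :=
  ⟨(l 6), by decide +kernel⟩

theorem t125_A00pm_102_s1 : ∃ t, chk3 f_A00pm_102_s1 t 3 6 1 = true := ex3_a k122_A00pm_102_s1 k123_A00pm_102_s1

theorem t126_A00pm_102_s1 : ∃ t, chk3 f_A00pm_102_s1 t 3 3 1 = true := ex3_b t125_A00pm_102_s1 k124_A00pm_102_s1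

theorem t127_A00pm_102_s1 : ∃ t, chk3 f_A00pm_102_s1 t 31 22 1 = true := ex3_a k119_A00pm_102_s1 k120_A00pm_102_s1

theorem t128_A00pm_102_s1 : ∃ t, chk3 f_A00pm_102_s1 t 31 11 1 = true := ex3_b t127_A00pm_102_s1 k121_A00pm_102_s1

theorem t129_A00pm_102_s1 : ∃ t, chk3 f_A00pm_102_s1 t 15 11 1 = true := ex3_a k118_A00pm_102_s1 t128_A00pm_102_s1

theorem t130_A00pm_102_s1 : ∃ t, chk3 f_A00pm_102_s1 t 14 11 1 = true := ex3_b k116_A00pm_102_s1 k117_A00pm_102_s1

theorem t131_A00pm_102_s1 : ∃ t, chk3 f_A00pm_102_s1 t 7 11 1 = true := ex3_a t130_A00pm_102_s1 t129_A00pm_102_s1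

theorem t132_A00pm_102_s1 : ∃ t, chk3 f_A00pm_102_s1 t 31 21 1 = true := ex3_a k114_A00pm_102_s1 k115_A00pm_102_s1

theorem t133_A00pm_102_s1 : ∃ t, chk3 f_A00pm_102_s1 t 15 21 1 = true := ex3_a k113_A00pm_102_s1 t132_A00pm_102_s1

theorem t134_A00pm_102_s1 : ∃ t, chk3 f_A00pm_102_s1 t 7 21 1 = true := ex3_a k112_A00pm_102_s1 t133_A00pm_102_s1

theorem t135_A00pm_102_s1 : ∃ t, chk3 f_A00pm_102_s1 t 63 167 2 = true := ex3_a k109_A00pm_102_s1 k110_A00pm_102_s1

theorem t136_A00pm_102_s1 : ∃ t, chk3 f_A00pm_102_s1 t 63 83 2 = true := ex3_b k108_A00pm_102_s1 t135_A00pm_102_s1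

theorem t137_A00pm_102_s1 : ∃ t, chk3 f_A00pm_102_s1 t 31 83 2 = true := ex3_a k107_A00pm_102_s1 t136_A00pm_102_s1

theorem t138_A00pm_102_s1 : ∃ t, chk3 f_A00pm_102_s1 t 31 83 1 = true := ex3_c t137_A00pm_102_s1 k111_A00pm_102_s1

theorem t139_A00pm_102_s1 : ∃ t, chk3 f_A00pm_102_s1 t 15 83 1 = true := ex3_a k106_A00pm_102_s1 t138_A00pm_102_s1

theorem t140_A00pm_102_s1 : ∃ t, chk3 f_A00pm_102_s1 t 14 83 1 = true := ex3_a k104_A00pm_102_s1 k105_A00pm_102_s1

theorem t141_A00pm_102_s1 : ∃ t, chk3 f_A00pm_102_s1 t 7 83 1 = true := ex3_a t140_A00pm_102_s1 t139_A00pm_102_s1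

theorem t142_A00pm_102_s1 : ∃ t, chk3 f_A00pm_102_s1 t 31 82 1 = true := ex3_a k102_A00pm_102_s1 k103_A00pm_102_s1

theorem t143_A00pm_102_s1 : ∃ t, chk3 f_A00pm_102_s1 t 15 82 1 = true := ex3_a k101_A00pm_102_s1 t142_A00pm_102_s1

theorem t144_A00pm_102_s1 : ∃ t, chk3 f_A00pm_102_s1 t 7 82 1 = true := ex3_a k100_A00pm_102_s1 t143_A00pm_102_s1

theorem t145_A00pm_102_s1 : ∃ t, chk3 f_A00pm_102_s1 t 7 41 1 = true := ex3_b t144_A00pm_102_s1 t141_A00pm_102_s1

theorem t146_A00pm_102_s1 : ∃ t, chk3 f_A00pm_102_s1 t 63 40 1 = true := ex3_c k98_A00pm_102_s1 k99_A00pm_102_s1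

theorem t147_A00pm_102_s1 : ∃ t, chk3 f_A00pm_102_s1 t 31 40 1 = true := ex3_a k97_A00pm_102_s1 t146_A00pm_102_s1

theorem t148_A00pm_102_s1 : ∃ t, chk3 f_A00pm_102_s1 t 15 40 1 = true := ex3_a k96_A00pm_102_s1 t147_A00pm_102_s1

theorem t149_A00pm_102_s1 : ∃ t, chk3 f_A00pm_102_s1 t 7 40 1 = true := ex3_a k95_A00pm_102_s1 t148_A00pm_102_s1

theorem t150_A00pm_102_s1 : ∃ t, chk3 f_A00pm_102_s1 t 7 20 1 = true := ex3_b t149_A00pm_102_s1 t145_A00pm_102_s1

theorem t151_A00pm_102_s1 : ∃ t, chk3 f_A00pm_102_s1 t 7 10 1 = true := ex3_b t150_A00pm_102_s1 t134_A00pm_102_s1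

theorem t152_A00pm_102_s1 : ∃ t, chk3 f_A00pm_102_s1 t 7 5 1 = true := ex3_b t151_A00pm_102_s1 t131_A00pm_102_s1

theorem t153_A00pm_102_s1 : ∃ t, chk3 f_A00pm_102_s1 t 63 39 1 = true := ex3_c k93_A00pm_102_s1 k94_A00pm_102_s1

theorem t154_A00pm_102_s1 : ∃ t, chk3 f_A00pm_102_s1 t 31 39 1 = true := ex3_a k92_A00pm_102_s1 t153_A00pm_102_s1

theorem t155_A00pm_102_s1 : ∃ t, chk3 f_A00pm_102_s1 t 63 38 1 = true := ex3_c k90_A00pm_102_s1 k91_A00pm_102_s1

theorem t156_A00pm_102_s1 : ∃ t, chk3 f_A00pm_102_s1 t 31 38 1 = true := ex3_a k89_A00pm_102_s1 t155_A00pm_102_s1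

theorem t157_A00pm_102_s1 : ∃ t, chk3 f_A00pm_102_s1 t 31 19 1 = true := ex3_b t156_A00pm_102_s1 t154_A00pm_102_s1

theorem t158_A00pm_102_s1 : ∃ t, chk3 f_A00pm_102_s1 t 127 18 1 = true := ex3_b k87_A00pm_102_s1 k88_A00pm_102_s1

theorem t159_A00pm_102_s1 : ∃ t, chk3 f_A00pm_102_s1 t 63 18 1 = true := ex3_a k86_A00pm_102_s1 t158_A00pm_102_s1

theorem t160_A00pm_102_s1 : ∃ t, chk3 f_A00pm_102_s1 t 62 37 1 = true := ex3_a k84_A00pm_102_s1 k85_A00pm_102_s1

theorem t161_A00pm_102_s1 : ∃ t, chk3 f_A00pm_102_s1 t 62 36 1 = true := ex3_a k82_A00pm_102_s1 k83_A00pm_102_s1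

theorem t162_A00pm_102_s1 : ∃ t, chk3 f_A00pm_102_s1 t 62 18 1 = true := ex3_b t161_A00pm_102_s1 t160_A00pm_102_s1

theorem t163_A00pm_102_s1 : ∃ t, chk3 f_A00pm_102_s1 t 31 18 1 = true := ex3_a t162_A00pm_102_s1 t159_A00pm_102_s1

theorem t164_A00pm_102_s1 : ∃ t, chk3 f_A00pm_102_s1 t 31 9 1 = true := ex3_b t163_A00pm_102_s1 t157_A00pm_102_s1

theorem t165_A00pm_102_s1 : ∃ t, chk3 f_A00pm_102_s1 t 63 35 1 = true := ex3_a k80_A00pm_102_s1 k81_A00pm_102_s1

theorem t166_A00pm_102_s1 : ∃ t, chk3 f_A00pm_102_s1 t 63 17 1 = true := ex3_b k79_A00pm_102_s1 t165_A00pm_102_s1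

theorem t167_A00pm_102_s1 : ∃ t, chk3 f_A00pm_102_s1 t 124 35 1 = true := ex3_c k76_A00pm_102_s1 k77_A00pm_102_s1

theorem t168_A00pm_102_s1 : ∃ t, chk3 f_A00pm_102_s1 t 62 35 1 = true := ex3_a t167_A00pm_102_s1 k78_A00pm_102_s1

theorem t169_A00pm_102_s1 : ∃ t, chk3 f_A00pm_102_s1 t 62 69 1 = true := ex3_a k74_A00pm_102_s1 k75_A00pm_102_s1

theorem t170_A00pm_102_s1 : ∃ t, chk3 f_A00pm_102_s1 t 62 34 1 = true := ex3_b k73_A00pm_102_s1 t169_A00pm_102_s1

theorem t171_A00pm_102_s1 : ∃ t, chk3 f_A00pm_102_s1 t 62 17 1 = true := ex3_b t170_A00pm_102_s1 t168_A00pm_102_s1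

theorem t172_A00pm_102_s1 : ∃ t, chk3 f_A00pm_102_s1 t 31 17 1 = true := ex3_a t171_A00pm_102_s1 t166_A00pm_102_s1

theorem t173_A00pm_102_s1 : ∃ t, chk3 f_A00pm_102_s1 t 31 8 1 = true := ex3_b k72_A00pm_102_s1 t172_A00pm_102_s1

theorem t174_A00pm_102_s1 : ∃ t, chk3 f_A00pm_102_s1 t 31 4 1 = true := ex3_b t173_A00pm_102_s1 t164_A00pm_102_s1

theorem t175_A00pm_102_s1 : ∃ t, chk3 f_A00pm_102_s1 t 30 38 1 = true := ex3_a k69_A00pm_102_s1 k70_A00pm_102_s1

theorem t176_A00pm_102_s1 : ∃ t, chk3 f_A00pm_102_s1 t 30 19 1 = true := ex3_b t175_A00pm_102_s1 k71_A00pm_102_s1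

theorem t177_A00pm_102_s1 : ∃ t, chk3 f_A00pm_102_s1 t 30 37 3 = true := ex3_a k67_A00pm_102_s1 k68_A00pm_102_s1

theorem t178_A00pm_102_s1 : ∃ t, chk3 f_A00pm_102_s1 t 30 37 2 = true := ex3_a k65_A00pm_102_s1 k66_A00pm_102_s1

theorem t179_A00pm_102_s1 : ∃ t, chk3 f_A00pm_102_s1 t 30 37 1 = true := ex3_c t178_A00pm_102_s1 t177_A00pm_102_s1

theorem t180_A00pm_102_s1 : ∃ t, chk3 f_A00pm_102_s1 t 122 36 1 = true := ex3_c k62_A00pm_102_s1 k63_A00pm_102_s1

theorem t181_A00pm_102_s1 : ∃ t, chk3 f_A00pm_102_s1 t 61 36 1 = true := ex3_a t180_A00pm_102_s1 k64_A00pm_102_s1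

theorem t182_A00pm_102_s1 : ∃ t, chk3 f_A00pm_102_s1 t 60 36 3 = true := ex3_c k60_A00pm_102_s1 k61_A00pm_102_s1

theorem t183_A00pm_102_s1 : ∃ t, chk3 f_A00pm_102_s1 t 60 36 1 = true := ex3_c k59_A00pm_102_s1 t182_A00pm_102_s1

theorem t184_A00pm_102_s1 : ∃ t, chk3 f_A00pm_102_s1 t 30 36 1 = true := ex3_a t183_A00pm_102_s1 t181_A00pm_102_s1

theorem t185_A00pm_102_s1 : ∃ t, chk3 f_A00pm_102_s1 t 30 18 1 = true := ex3_b t184_A00pm_102_s1 t179_A00pm_102_s1

theorem t186_A00pm_102_s1 : ∃ t, chk3 f_A00pm_102_s1 t 30 9 1 = true := ex3_b t185_A00pm_102_s1 t176_A00pm_102_s1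

theorem t187_A00pm_102_s1 : ∃ t, chk3 f_A00pm_102_s1 t 61 35 1 = true := ex3_b k57_A00pm_102_s1 k58_A00pm_102_s1

theorem t188_A00pm_102_s1 : ∃ t, chk3 f_A00pm_102_s1 t 123 34 1 = true := ex3_b k55_A00pm_102_s1 k56_A00pm_102_s1

theorem t189_A00pm_102_s1 : ∃ t, chk3 f_A00pm_102_s1 t 122 34 1 = true := ex3_b k53_A00pm_102_s1 k54_A00pm_102_s1

theorem t190_A00pm_102_s1 : ∃ t, chk3 f_A00pm_102_s1 t 61 34 1 = true := ex3_a t189_A00pm_102_s1 t188_A00pm_102_s1

theorem t191_A00pm_102_s1 : ∃ t, chk3 f_A00pm_102_s1 t 61 17 1 = true := ex3_b t190_A00pm_102_s1 t187_A00pm_102_s1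

theorem t192_A00pm_102_s1 : ∃ t, chk3 f_A00pm_102_s1 t 60 35 1 = true := ex3_b k51_A00pm_102_s1 k52_A00pm_102_s1

theorem t193_A00pm_102_s1 : ∃ t, chk3 f_A00pm_102_s1 t 60 17 1 = true := ex3_b k50_A00pm_102_s1 t192_A00pm_102_s1

theorem t194_A00pm_102_s1 : ∃ t, chk3 f_A00pm_102_s1 t 30 17 1 = true := ex3_a t193_A00pm_102_s1 t191_A00pm_102_s1

theorem t195_A00pm_102_s1 : ∃ t, chk3 f_A00pm_102_s1 t 30 8 1 = true := ex3_b k49_A00pm_102_s1 t194_A00pm_102_s1

theorem t196_A00pm_102_s1 : ∃ t, chk3 f_A00pm_102_s1 t 30 4 1 = true := ex3_b t195_A00pm_102_s1 t186_A00pm_102_s1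

theorem t197_A00pm_102_s1 : ∃ t, chk3 f_A00pm_102_s1 t 15 4 1 = true := ex3_a t196_A00pm_102_s1 t174_A00pm_102_s1

theorem t198_A00pm_102_s1 : ∃ t, chk3 f_A00pm_102_s1 t 29 38 1 = true := ex3_b k46_A00pm_102_s1 k47_A00pm_102_s1

theorem t199_A00pm_102_s1 : ∃ t, chk3 f_A00pm_102_s1 t 29 19 1 = true := ex3_b t198_A00pm_102_s1 k48_A00pm_102_s1

theorem t200_A00pm_102_s1 : ∃ t, chk3 f_A00pm_102_s1 t 29 36 1 = true := ex3_a k43_A00pm_102_s1 k44_A00pm_102_s1

theorem t201_A00pm_102_s1 : ∃ t, chk3 f_A00pm_102_s1 t 29 18 1 = true := ex3_b t200_A00pm_102_s1 k45_A00pm_102_s1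

theorem t202_A00pm_102_s1 : ∃ t, chk3 f_A00pm_102_s1 t 29 9 1 = true := ex3_b t201_A00pm_102_s1 t199_A00pm_102_s1

theorem t203_A00pm_102_s1 : ∃ t, chk3 f_A00pm_102_s1 t 28 9 1 = true := ex3_b k41_A00pm_102_s1 k42_A00pm_102_s1

theorem t204_A00pm_102_s1 : ∃ t, chk3 f_A00pm_102_s1 t 14 9 1 = true := ex3_a t203_A00pm_102_s1 t202_A00pm_102_s1

theorem t205_A00pm_102_s1 : ∃ t, chk3 f_A00pm_102_s1 t 59 35 1 = true := ex3_b k39_A00pm_102_s1 k40_A00pm_102_s1

theorem t206_A00pm_102_s1 : ∃ t, chk3 f_A00pm_102_s1 t 29 35 1 = true := ex3_a k38_A00pm_102_s1 t205_A00pm_102_s1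

theorem t207_A00pm_102_s1 : ∃ t, chk3 f_A00pm_102_s1 t 29 17 1 = true := ex3_b k37_A00pm_102_s1 t206_A00pm_102_s1

theorem t208_A00pm_102_s1 : ∃ t, chk3 f_A00pm_102_s1 t 29 8 1 = true := ex3_b k36_A00pm_102_s1 t207_A00pm_102_s1

theorem t209_A00pm_102_s1 : ∃ t, chk3 f_A00pm_102_s1 t 14 8 1 = true := ex3_a k35_A00pm_102_s1 t208_A00pm_102_s1

theorem t210_A00pm_102_s1 : ∃ t, chk3 f_A00pm_102_s1 t 14 4 1 = true := ex3_b t209_A00pm_102_s1 t204_A00pm_102_s1

theorem t211_A00pm_102_s1 : ∃ t, chk3 f_A00pm_102_s1 t 7 4 1 = true := ex3_a t210_A00pm_102_s1 t197_A00pm_102_s1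

theorem t212_A00pm_102_s1 : ∃ t, chk3 f_A00pm_102_s1 t 7 2 1 = true := ex3_b t211_A00pm_102_s1 t152_A00pm_102_s1

theorem t213_A00pm_102_s1 : ∃ t, chk3 f_A00pm_102_s1 t 6 11 1 = true := ex3_a k33_A00pm_102_s1 k34_A00pm_102_s1

theorem t214_A00pm_102_s1 : ∃ t, chk3 f_A00pm_102_s1 t 6 21 1 = true := ex3_a k31_A00pm_102_s1 k32_A00pm_102_s1

theorem t215_A00pm_102_s1 : ∃ t, chk3 f_A00pm_102_s1 t 6 41 3 = true := ex3_b k29_A00pm_102_s1 k30_A00pm_102_s1

theorem t216_A00pm_102_s1 : ∃ t, chk3 f_A00pm_102_s1 t 6 40 3 = true := ex3_a k27_A00pm_102_s1 k28_A00pm_102_s1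

theorem t217_A00pm_102_s1 : ∃ t, chk3 f_A00pm_102_s1 t 6 20 3 = true := ex3_b t216_A00pm_102_s1 t215_A00pm_102_s1

theorem t218_A00pm_102_s1 : ∃ t, chk3 f_A00pm_102_s1 t 6 167 2 = true := ex3_a k25_A00pm_102_s1 k26_A00pm_102_s1

theorem t219_A00pm_102_s1 : ∃ t, chk3 f_A00pm_102_s1 t 6 83 2 = true := ex3_b k24_A00pm_102_s1 t218_A00pm_102_s1

theorem t220_A00pm_102_s1 : ∃ t, chk3 f_A00pm_102_s1 t 6 41 2 = true := ex3_b k23_A00pm_102_s1 t219_A00pm_102_s1

theorem t221_A00pm_102_s1 : ∃ t, chk3 f_A00pm_102_s1 t 6 40 2 = true := ex3_a k21_A00pm_102_s1 k22_A00pm_102_s1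

theorem t222_A00pm_102_s1 : ∃ t, chk3 f_A00pm_102_s1 t 6 20 2 = true := ex3_b t221_A00pm_102_s1 t220_A00pm_102_s1

theorem t223_A00pm_102_s1 : ∃ t, chk3 f_A00pm_102_s1 t 6 20 1 = true := ex3_c t222_A00pm_102_s1 t217_A00pm_102_s1

theorem t224_A00pm_102_s1 : ∃ t, chk3 f_A00pm_102_s1 t 6 10 1 = true := ex3_b t223_A00pm_102_s1 t214_A00pm_102_s1

theorem t225_A00pm_102_s1 : ∃ t, chk3 f_A00pm_102_s1 t 6 5 1 = true := ex3_b t224_A00pm_102_s1 t213_A00pm_102_s1

theorem t226_A00pm_102_s1 : ∃ t, chk3 f_A00pm_102_s1 t 13 19 1 = true := ex3_b k19_A00pm_102_s1 k20_A00pm_102_s1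

theorem t227_A00pm_102_s1 : ∃ t, chk3 f_A00pm_102_s1 t 13 9 1 = true := ex3_b k18_A00pm_102_s1 t226_A00pm_102_s1

theorem t228_A00pm_102_s1 : ∃ t, chk3 f_A00pm_102_s1 t 13 4 1 = true := ex3_b k17_A00pm_102_s1 t227_A00pm_102_s1

theorem t229_A00pm_102_s1 : ∃ t, chk3 f_A00pm_102_s1 t 6 4 1 = true := ex3_a k16_A00pm_102_s1 t228_A00pm_102_s1

theorem t230_A00pm_102_s1 : ∃ t, chk3 f_A00pm_102_s1 t 6 2 1 = true := ex3_b t229_A00pm_102_s1 t225_A00pm_102_s1

theorem t231_A00pm_102_s1 : ∃ t, chk3 f_A00pm_102_s1 t 3 2 1 = true := ex3_a t230_A00pm_102_s1 t212_A00pm_102_s1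

theorem t232_A00pm_102_s1 : ∃ t, chk3 f_A00pm_102_s1 t 3 1 1 = true := ex3_b t231_A00pm_102_s1 t126_A00pm_102_s1

theorem t233_A00pm_102_s1 : ∃ t, chk3 f_A00pm_102_s1 t 5 21 1 = true := ex3_a k12_A00pm_102_s1 k13_A00pm_102_s1

theorem t234_A00pm_102_s1 : ∃ t, chk3 f_A00pm_102_s1 t 2 21 1 = true := ex3_a k11_A00pm_102_s1 t233_A00pm_102_s1

theorem t235_A00pm_102_s1 : ∃ t, chk3 f_A00pm_102_s1 t 23 83 1 = true := ex3_c k9_A00pm_102_s1 k10_A00pm_102_s1

theorem t236_A00pm_102_s1 : ∃ t, chk3 f_A00pm_102_s1 t 22 83 1 = true := ex3_c k7_A00pm_102_s1 k8_A00pm_102_s1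

theorem t237_A00pm_102_s1 : ∃ t, chk3 f_A00pm_102_s1 t 11 83 1 = true := ex3_a t236_A00pm_102_s1 t235_A00pm_102_s1

theorem t238_A00pm_102_s1 : ∃ t, chk3 f_A00pm_102_s1 t 11 82 1 = true := ex3_b k5_A00pm_102_s1 k6_A00pm_102_s1

theorem t239_A00pm_102_s1 : ∃ t, chk3 f_A00pm_102_s1 t 11 41 1 = true := ex3_b t238_A00pm_102_s1 t237_A00pm_102_s1

theorem t240_A00pm_102_s1 : ∃ t, chk3 f_A00pm_102_s1 t 10 41 1 = true := ex3_c k3_A00pm_102_s1 k4_A00pm_102_s1

theorem t241_A00pm_102_s1 : ∃ t, chk3 f_A00pm_102_s1 t 5 41 1 = true := ex3_a t240_A00pm_102_s1 t239_A00pm_102_s1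

theorem t242_A00pm_102_s1 : ∃ t, chk3 f_A00pm_102_s1 t 2 41 1 = true := ex3_a k2_A00pm_102_s1 t241_A00pm_102_s1

theorem t243_A00pm_102_s1 : ∃ t, chk3 f_A00pm_102_s1 t 2 20 1 = true := ex3_b k1_A00pm_102_s1 t242_A00pm_102_s1

theorem t244_A00pm_102_s1 : ∃ t, chk3 f_A00pm_102_s1 t 2 10 1 = true := ex3_b t243_A00pm_102_s1 t234_A00pm_102_s1

theorem t245_A00pm_102_s1 : ∃ t, chk3 f_A00pm_102_s1 t 2 5 1 = true := ex3_b t244_A00pm_102_s1 k14_A00pm_102_s1

theorem t246_A00pm_102_s1 : ∃ t, chk3 f_A00pm_102_s1 t 2 2 1 = true := ex3_b k0_A00pm_102_s1 t245_A00pm_102_s1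

theorem t247_A00pm_102_s1 : ∃ t, chk3 f_A00pm_102_s1 t 2 1 1 = true := ex3_b t246_A00pm_102_s1 k15_A00pm_102_s1

theorem t248_A00pm_102_s1 : ∃ t, chk3 f_A00pm_102_s1 t 1 1 1 = true := ex3_a t247_A00pm_102_s1 t232_A00pm_102_s1

theorem c_A00pm_102_s1 : CertF 536870912 536870912 0 536870912 201326592 134217728 true true false .npp 1 0 2
    ndF0q1 ndF0q0 pcF2 cut_A00pm_102_s1 xt_A00pm_102_s1 :=
  certFK1 (fam := true) (s1 := true) (s2 := false) (a := 1) (b := 0) (c := 2) (cn := .npp) (n1 := ndF0q1) (n2 := ndF0q0) (pc := pcF2) (cut := cut_A00pm_102_s1) (xt := xt_A00pm_102_s1) (P1 := 536870912) (W1 := 536870912) (P2 := 0) (W2 := 536870912) (P3 := 201326592) (W3 := 134217728)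
    rfl rfl rfl (fun _ => rfl) t248_A00pm_102_s1

theorem s_A00pm_102_s1 {κ x : ℝ} (hκ : κ * h0 = ken x) (hx : ((201326592 : ℕ) : ℝ) / S ≤ x)
    (hx' : x ≤ (((201326592 : ℕ) : ℝ) + (134217728 : ℕ)) / S)
    (H : CutA (VF κ) PP tKF tL pcF (Cut.of [[⟨0, 1, 0, 67108864⟩, ⟨1, 0, 0, 67108864⟩, ⟨2, 1, 0, 67108864⟩], [⟨0, 1, 0, 16777216⟩, ⟨1, 0, 1, 67108864⟩, ⟨2, 1, 1, 67108864⟩]]) 1 0 2 0 0 (sgb true) (sgb false) x) :
    AltA (VF κ) PP tKF tL pcF [⟨3, 0, 0, 1449551462⟩] 1 0 2 0 0 (sgb true) (sgb false) x :=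
  strip_altA (m := 1449551462) true rfl hκ covF01 covF00 hx hx' c_A00pm_102_s1 H ((okx hx hx').extA (T := tt) (sideF hx hx') hκ rfl rfl (.O 1 true) (.O 0 false) rfl)

end Pool.Agent.Strip051.G.I3_16_5_16.Tab.St.C
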