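import Pool.Agent.Strip051.G.I3_16_5_16.StF

/-! # Unit strips 4 (generated) -/

set_option linter.all false
set_option maxRecDepth 100000

namespace Pool.Agent.Strip051.G.I3_16_5_16.Tab.St.C

open Pool.Agent.Strip051.PB Pool.Agent.Strip051.PB.T Pool.Agent.StripNear Pool.Agent.Strip051.LC
open Pool.Agent.Strip051.G.I3_16_5_16.Tab Pool.Agent.Strip051.G.I3_16_5_16.Tab.St

noncomputable def cut_A00pm_102_s3 : Cut := Cut.of [[⟨3, 0, 0, 2845415833⟩], [⟨0, 1, 0, 67108864⟩, ⟨1, 0, 0, 67108864⟩, ⟨2, 1, 0, 67108864⟩], [⟨0, 1, 0, 16777216⟩, ⟨1, 0, 1, 67108864⟩, ⟨2, 1, 1, 67108864⟩]]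

noncomputable def f_A00pm_102_s3 : ℕ → ℕ → ℕ → ℕ → Bool := onCell 536870912 536870912 0 536870912 201326592 134217728
    (rowFK 0 true true false .npp 1 0 2 (qsf 536870912 536870912 0 536870912 2) ndF0q1 ndF0q0 pcF2 cut_A00pm_102_s3 Ext.none)

def k0_A00pm_102_s3 : ∃ t, chk3 f_A00pm_102_s3 t 1 1 1 = true :=
  ⟨(l 6), by decide +kernel⟩

theorem c_A00pm_102_s3 : CertF 536870912 536870912 0 536870912 201326592 134217728 true true false .npp 1 0 2
    ndF0q1 ndF0q0 pcF2 cut_A00pm_102_s3 Ext.none :=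
  certFK0 (fam := true) (s1 := true) (s2 := false) (a := 1) (b := 0) (c := 2) (cn := .npp) (n1 := ndF0q1) (n2 := ndF0q0) (pc := pcF2) (cut := cut_A00pm_102_s3) (xt := Ext.none) (P1 := 536870912) (W1 := 536870912) (P2 := 0) (W2 := 536870912) (P3 := 201326592) (W3 := 134217728)
    rfl rfl rfl k0_A00pm_102_s3

theorem s_A00pm_102_s3 {κ x : ℝ} (hκ : κ * h0 = ken x) (hx : ((201326592 : ℕ) : ℝ) / S ≤ x)
    (hx' : x ≤ (((201326592 : ℕ) : ℝ) + (134217728 : ℕ)) / S)
    (H : CutA (VF κ) PP tKF tL pcF (Cut.of [[⟨0, 1, 0, 67108864⟩, ⟨1, 0, 0, 67108864⟩, ⟨2, 1, 0, 67108864⟩], [⟨0, 1, 0, 16777216⟩, ⟨1, 0, 1, 67108864⟩, ⟨2, 1, 1, 67108864⟩]]) 1 0 2 0 0 (sgb true) (sgb false) x) :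
    AltA (VF κ) PP tKF tL pcF [⟨4, 0, 0, 2845415833⟩] 1 0 2 0 0 (sgb true) (sgb false) x :=
  strip_altA (m := 2845415833) false rfl hκ covF01 covF00 hx hx' c_A00pm_102_s3 H (noExt_A)

noncomputable def cut_A00pm_112_s1 : Cut := Cut.of [[⟨4, 0, 0, 1449551462⟩]]

noncomputable def xt_A00pm_112_s1 : Ext := strExt dd true true false .u0 .u0m .u2 .dn 1 1 2 rfl rfl gf2 vv ndF0q1 ndF0q1

noncomputable def f_A00pm_112_s1 : ℕ → ℕ → ℕ → ℕ → Bool := onCell 536870912 536870912 1073741824 536870912 201326592 134217728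
    (rowFK 1 true true false .dn 1 1 2 (qsf 536870912 536870912 536870912 536870912 2) ndF0q1 ndF0q1 pcF2 cut_A00pm_112_s1 xt_A00pm_112_s1)

def k0_A00pm_112_s1 : ∃ t, chk3 f_A00pm_112_s1 t 2 4 1 = true :=
  ⟨(a (l 3) (l 3)), by decide +kernel⟩

def k1_A00pm_112_s1 : ∃ t, chk3 f_A00pm_112_s1 t 2 40 1 = true :=
  ⟨(a (l 3) (a (l 3) (l 1))), by decide +kernel⟩

def k2_A00pm_112_s1 : ∃ t, chk3 f_A00pm_112_s1 t 4 82 1 = true :=
  ⟨(l 3), by decide +kernel⟩

def k3_A00pm_112_s1 : ∃ t, chk3 f_A00pm_112_s1 t 4 166 1 = true :=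
  ⟨(c (a (a (b (l 3) (a (b (l 3) (b (l 543589247) (a (l 543704703) (l 543918975)))) (l 3))) (l 3)) (l 3)) (a (a (b (l 3) (a (b (l 3) (a (b (l 542232703) (l 542365823)) (b (l 3) (a (l 542474623) (a (l 542519167) (l 3)))))) (l 3))) (l 3)) (l 3))), by decide +kernel⟩

def k4_A00pm_112_s1 : ∃ t, chk3 f_A00pm_112_s1 t 16 167 1 = true :=
  ⟨(a (c (a (b (b (b (l 543816575) (l 543929471)) (b (l 543983231) (l 544018303))) (a (l 16780072) (a (l 16779568) (l 16784472)))) (c (b (b (b (l 544263807) (l 544265343)) (l 545064319)) (a (l 16784232) (l 16778344))) (b (b (b (l 543648127) (l 543653247)) (b (l 543678335) (l 543685503))) (a (l 16778408) (a (l 16783192) (l 16782896)))))) (c (a (b (b (b (l 542825855) (l 542915711)) (b (l 542952575) (l 542976127))) (a (l 16781504) (l 16780928))) (a (b (b (b (l 542955903) (l 542980223)) (b (l 542996351) (l 16780720))) (l 16780368)) (b (b (b (l 542976383) (l 542987135)) (b (l 542993791) (l 542999167))) (b (l 16778928) (l 16783352)))))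 (a (a (b (b (b (l 542110335) (l 542176127)) (b (l 542211711) (l 16781288))) (b (l 16782496) (l 16784112))) (b (b (b (b (l 542152575) (l 542193535)) (l 542225535)) (b (l 542250367) (l 542266751))) (b (b (l 16781592) (l 16782392)) (l 16783608)))) (a (b (b (b (b (l 542237567) (l 542242943)) (l 542260607)) (b (l 542274943) (l 542284927))) (b (b (l 16781104) (l 16781904)) (l 16783112))) (b (b (b (b (c (l 542439807) (l 542076799)) (l 542264191)) (l 542271359)) (b (l 542278783) (l 542284671))) (b (a (l 16781152) (l 16780928)) (l 16782640))))))) (b (l 543390783) (b (b (l 543397423) (b (b (l 543397167) (b (l 543397167) (b (l 543397167) (c (a (c (l 16782120) (l 16781688)) (c (l 16781096) (l 16780752))) (a (a (l 16781224) (l 16780800)) (a (l 16780400) (a (l 16780112) (l 16779928)))))))) (l 543397471))) (a (a (a (a (l 16780736) (l 16780608)) (l 543370079)) (l 543386207)) (l 543416415))))), by decide +kernel⟩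

def k5_A00pm_112_s1 : ∃ t, chk3 f_A00pm_112_s1 t 17 167 1 = true :=
  ⟨(b (l 543487295) (b (b (l 543494191) (b (b (l 543494191) (b (l 543494447) (b (l 543494447) (a (c (a (a (l 16780256) (l 16779864)) (a (l 16779504) (l 16779176))) (a (a (c (l 16779824) (l 16779520)) (c (l 16779480) (l 16779224))) (a (c (l 16779176) (l 16778952)) (c (l 16778896) (l 16778704))))) (a (c (a (l 16778888) (l 16778632)) (a (c (l 16778648) (l 16778480)) (c (l 16778432) (l 16778288)))) (a (c (l 16778416) (a (l 16778224) (l 16778144))) (a (a (l 16778192) (l 16778160)) (a (l 16778120) (l 16778088))))))))) (l 543494495))) (l 543495007))), by decide +kernel⟩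

def k6_A00pm_112_s1 : ∃ t, chk3 f_A00pm_112_s1 t 9 167 1 = true :=
  ⟨(b (a (l 3) (l 543478863)) (b (b (l 543534127) (b (b (l 543534895) (b (l 543535151) (b (l 543535151) (a (a (c (a (a (c (l 16778136) (l 16778048)) (c (l 16778024) (l 16777952))) (a (c (l 16777952) (l 16777888)) (c (l 16777920) (l 16777856)))) (a (b (a (a (l 16777936) (l 16777888)) (a (l 16777840) (l 16777808))) (l 542818911)) (b (a (a (l 16777784) (l 16777760)) (a (l 16777744) (l 16777744))) (l 542824031)))) (c (a (a (c (l 16777920) (l 16777864)) (c (l 16777968) (l 16777904))) (a (c (l 16778056) (l 16777976)) (c (l 16778176) (l 16778088)))) (a (a (a (l 16777760) (l 16777768)) (a (l 16777784) (l 16777808))) (a (a (l 16777840) (l 16777880)) (a (l 16777928) (l 16777984)))))) (a (a (a (a (a (l 16778128) (l 16778168)) (a (l 16778208) (l 16778248))) (c (l 16778480) (a (l 16778192) (l 16778280)))) (c (a (l 16778712) (l 16778976)) (a (c (l 16778496) (l 16778352)) (c (l 16778720) (l 16778552)))))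 (c (a (a (l 16779272) (l 16779608)) (a (l 16779984) (l 16780392))) (a (a (c (l 16778984) (l 16778776)) (c (l 16779272) (l 16779032))) (a (c (l 16779584) (l 16779312)) (c (l 16779936) (l 16779624)))))))))) (l 543535711))) (l 543537759))), by decide +kernel⟩

def k7_A00pm_112_s1 : ∃ t, chk3 f_A00pm_112_s1 t 10 41 2 = true :=
  ⟨(a (c (b (l 3) (b (b (l 3) (a (a (l 3) (b (l 3) (l 544045199))) (b (l 544129423) (l 544069775)))) (a (a (b (l 544415311) (b (b (l 544425263) (l 16781280)) (l 16782840))) (b (b (b (l 544399759) (l 544317327)) (l 544327055)) (b (a (l 16781544) (l 16782112)) (l 16783864)))) (a (b (b (b (l 544185999) (l 544331919)) (l 544315791)) (a (l 16783736) (l 16784400))) (b (b (b (l 544154511) (l 544207759)) (b (l 544248975) (l 16782888))) (b (l 16784424) (l 16786472))))))) (b (l 3) (a (b (a (l 3) (b (l 3) (b (l 3) (b (l 3) (l 543570575))))) (a (b (l 543741007) (a (a (l 16778432) (l 16778656)) (a (l 16778880) (l 16779112)))) (a (b (l 543708495) (l 16779480))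 (b (b (b (l 543698319) (l 543680655)) (l 543687823)) (l 16780000))))) (b (b (l 3) (b (l 543139727) (l 543274127))) (a (b (b (b (l 543590543) (l 543702671)) (b (l 543695247) (l 543709071))) (a (l 16780568) (l 16783808))) (b (b (b (l 543429007) (l 543548815)) (b (l 543615631) (l 543658127))) (b (l 16783824) (l 16785712)))))))) (b (l 1) (b (l 1) (a (a (b (l 1) (l 71437399143)) (l 1)) (l 1))))), by decide +kernel⟩

def k8_A00pm_112_s1 : ∃ t, chk3 f_A00pm_112_s1 t 10 41 3 = true :=
  ⟨(a (b (l 3) (a (b (b (l 3) (b (l 3) (a (l 3) (a (l 3) (a (l 3) (b (l 3) (l 542518927))))))) (c (a (a (b (l 543054159) (b (b (l 543067183) (l 16780344)) (l 16781624))) (b (l 543034959) (a (l 16778448) (l 16778656)))) (a (b (l 543014223) (a (l 16778872) (l 16779096))) (b (b (b (l 542999183) (l 542987663)) (b (l 542994319) (l 542999951))) (a (l 16779328) (l 16779568))))) (b (a (l 542326607) (b (b (a (l 542286671) (a (l 542271055) (b (l 542251663) (l 542262159)))) (l 542272655)) (b (l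 542281615) (l 542288015)))) (b (a (a (b (l 542349871) (l 16779976)) (b (l 542332463) (l 16780336))) (a (b (l 542313519) (l 16780728)) (a (l 16780656) (l 16780872)))) (a (l 542347615) (a (l 16781848) (l 16782248))))))) (b (b (l 3) (b (l 542006159) (b (l 542216847) (l 542360719)))) (c (a (a (b (b (b (l 542940303) (l 542985871)) (b (l 542999439) (l 16780488))) (b (l 16781736) (l 16783416))) (b (b (b (l 542868367) (l 542951311)) (b (l 542982031) (l 16781024))) (l 16780504))) (b (b (b (l 542763407) (l 542864271)) (b (l 542919311) (l 542955151))) (a (l 16781072) (l 16784272)))) (a (a (b (b (b (b (l 542211215) (l 542246543)) (l 542265999)) (b (l 542279055) (l 542288271))) (b (a (l 16781096) (l 16781328)) (l 16782696))) (b (b (b (b (l 542154639) (l 542198671)) (l 542233487)) (b (l 542259855) (l 542276495))) (b (b (l 16781320) (l 16782056)) (l 16783168)))) (a (b (b (b (l 542114447) (l 542186383)) (b (l 542225039) (l 16781064))) (a (l 16780176) (l 16780424))) (b (b (b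 (l 542044815) (l 542128271)) (b (l 16780824) (l 16781568))) (b (l 16782688) (l 16784176))))))))) (b (l 1) (b (l 1) (b (l 1) (a (a (a (a (l 58015621799) (l 1)) (l 1)) (l 1)) (l 1)))))), by decide +kernel⟩

def k9_A00pm_112_s1 : ∃ t, chk3 f_A00pm_112_s1 t 11 41 1 = true :=
  ⟨(l 1), by decide +kernel⟩

def k10_A00pm_112_s1 : ∃ t, chk3 f_A00pm_112_s1 t 8 21 1 = true :=
  ⟨(b (a (b (b (c (a (a (b (l 16789304) (l 16793624)) (c (l 16785272) (l 16784200))) (a (a (l 16783840) (l 16783288)) (a (l 16782800) (l 16782336)))) (b (c (a (a (l 16787520) (l 16783736)) (a (l 16782712) (l 16781872))) (c (a (a (l 16786600) (l 16785560)) (a (l 16782016) (l 16781240))) (a (a (a (l 16786224) (l 16785728)) (a (l 16785248) (l 16784776))) (a (a (l 16784352) (l 16783960)) (l 542167903))))) (c (a (a (l 16791216) (l 16790016)) (a (l 16788960) (l 16788112))) (a (a (l 16789536) (l 16788512)) (a (l 16787600) (l 16786856)))))) (a (c (a (l 16800128) (l 16798680)) (a (c (l 16796792) (l 16794448))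 (c (l 16795544) (l 16793392)))) (c (a (l 16797328) (l 16796264)) (a (c (l 16794440) (l 16792448)) (c (l 16793552) (l 16791672)))))) (a (b (c (l 16808024) (a (l 16802672) (l 16801472))) (a (l 16803440) (l 16801936))) (a (b (a (l 16803464) (l 16802888)) (l 16800560)) (b (l 543415407) (l 16809984))))) (a (b (b (b (l 543467615) (a (a (l 16782880) (l 16782520)) (a (l 16782192) (l 16781896)))) (c (a (l 16795424) (l 16794688)) (a (l 16786704) (l 16786112)))) (l 543471215)) (b (b (b (l 543515487) (b (l 543516767) (a (l 16787704) (l 16787296)))) (c (b (l 16791752) (l 16795984)) (a (l 16790872) (l 16790504)))) (l 543527023)))) (c (b (a (a (l 16829752) (l 16826640)) (l 544196463)) (a (a (l 16847160) (l 16843504)) (a (l 16841768) (l 16841096)))) (b (c (a (a (l 16822688) (l 16820008)) (l 543164527)) (a (a (a (l 16817816) (l 16816624)) (l 16815064)) (l 542449007))) (a (a (c (l 16838224) (l 16830904)) (l 16831992)) (a (l 16830216) (l 16829112)))))), by decide +kernel⟩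

def k11_A00pm_112_s1 : ∃ t, chk3 f_A00pm_112_s1 t 9 21 1 = true :=
  ⟨(b (a (b (b (a (b (l 543539807) (b (l 543542367) (a (l 16787008) (l 16786856)))) (b (l 543540831) (b (l 543544159) (a (l 16786824) (l 16786928))))) (a (a (a (l 16781360) (l 16791728)) (l 16786376)) (a (l 16786328) (c (l 16793136) (l 16790112))))) (l 543569007)) (b (b (a (b (l 543517791) (b (l 543522399) (a (l 16787152) (l 16787512)))) (b (l 543471455) (a (a (l 16786928) (l 16781960)) (a (l 16782272) (l 16782608))))) (a (c (b (l 16791488) (l 16795624)) (a (l 16790288) (l 16790584))) (c (b (l 16792512) (l 16796592)) (a (l 16790984) (l 16786240))))) (l 543540335))) (c (l 544300655) (l 542903919))), by decide +kernel⟩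

def k12_A00pm_112_s1 : ∃ t, chk3 f_A00pm_112_s1 t 5 21 1 = true :=
  ⟨(a (b (a (b (c (a (a (b (a (l 16782112) (l 16782560)) (l 16795616)) (b (a (l 16783040) (l 16783552)) (l 16796496))) (a (b (c (l 16784912) (l 16783872)) (l 16797624)) (b (c (l 16791584) (l 16785192)) (l 16799008)))) (b (b (c (a (a (l 16781768) (l 16782600)) (a (l 16783592) (l 16787368))) (c (a (a (l 16781144) (l 16784528)) (a (l 16785424) (l 16786464))) (a (b (a (l 16782616) (l 16783328)) (l 542160479)) (a (a (l 16784664) (l 16785128)) (a (l 16785600) (l 16786096)))))) (c (a (a (l 16787816) (l 16788616)) (a (l 16789592) (l 16790752))) (a (a (l 16786600) (l 16787304)) (a (l 16788144) (l 16789144))))) (a (a (l 16786856) (c (l 16793752) (l 16791848))) (a (c (l 16794688) (l 16792656)) (c (l 16795824) (l 16793624)))))) (a (l 543454319) (b (c (l 16806296) (a (l 16800128) (l 16801168))) (a (l 16810192) (l 16800888))))) (b (a (a (b (a (c (l 16792144) (c (l 16789960) (l 16783184))) (a (l 58015630439)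 (l 1))) (c (l 16800480) (c (l 16797096) (l 16794704)))) (c (l 58552504535) (b (l 1) (l 57478771319)))) (l 1)) (a (c (b (l 16809208) (l 16817016)) (a (c (l 16807344) (l 16793272)) (c (l 16808736) (l 16794424)))) (c (l 96133526663) (a (l 61236889655) (l 1)))))) (c (b (a (a (l 16824632) (l 16826056)) (a (l 16807808) (l 16811624))) (a (l 16841672) (a (l 16844280) (l 16848064)))) (b (c (a (a (l 16817960) (l 16819440)) (a (l 16821896) (l 16824792))) (a (a (l 16813336) (l 16814592)) (a (a (l 16816032) (l 16817160)) (a (l 16818368) (l 16819504))))) (a (a (l 16829336) (l 16830504)) (a (c (l 16835992) (l 16829112)) (c (l 16838856) (l 16831392))))))) (a (a (a (a (b (l 1) (l 58015690615)) (l 1)) (l 1)) (l 1)) (l 1))), by decide +kernel⟩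

def k13_A00pm_112_s1 : ∃ t, chk3 f_A00pm_112_s1 t 2 11 1 = true :=
  ⟨(a (a (c (a (b (b (a (l 16831408) (l 16868928)) (a (l 16908504) (l 16902536))) (a (b (l 16942760) (l 16976168)) (l 16869088))) (b (b (a (l 16866192) (l 16865696)) (l 16897600)) (a (l 16947416) (l 16942624)))) (a (b (b (a (a (l 16857672) (l 16856288)) (c (l 16859064) (l 16849544))) (a (c (l 16894264) (l 16880704)) (l 16885024))) (a (b (l 16918552) (l 16946616)) (b (l 16917096) (l 16945328)))) (b (b (a (l 16831192) (l 16850888)) (a (l 16882704) (l 16880904))) (a (b (l 16914568) (l 16944648)) (l 16887256))))) (a (b (a (l 543102063) (l 543670895)) (b (l 543689839) (l 16909608))) (b (l 543684463) (l 543821935)))) (a (b (c (a (a (l 16840192) (l 16833888)) (b (a (l 16867128) (l 16828952)) (l 16898560))) (a (a (l 542937711) (b (l 16830352) (l 16880240))) (b (a (c (l 16857608) (l 16848392)) (a (l 16854872) (l 16856200))) (a (l 16881608) (l 16883704))))) (a (a (l 16858816) (l 16876664)) (c (l 16941232)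 (b (a (l 16911672) (l 16913448)) (l 16944184))))) (a (a (b (c (b (l 16833624) (l 16905152)) (b (b (l 16851328) (l 16865072)) (l 16865304))) (b (l 16882768) (l 16951760))) (b (b (c (l 16860112) (l 60163231303)) (c (l 16910992) (l 27414151751))) (c (l 16910744) (b (l 16917752) (l 16944632))))) (b (a (a (b (l 1) (l 62847639447)) (l 1)) (l 1)) (a (c (l 41909745175) (a (l 29561680599) (l 26877326935))) (b (l 63384553847) (l 38688546567))))))), by decide +kernel⟩

def k14_A00pm_112_s1 : ∃ t, chk3 f_A00pm_112_s1 t 2 3 1 = true :=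
  ⟨(b (a (a (b (b (c (a (a (l 17023072) (l 17015976)) (l 17005840)) (a (a (b (l 16973368) (l 16999024)) (l 16943408)) (a (l 16900336) (l 16983792)))) (a (a (l 16973320) (l 16968624)) (a (l 16964168) (l 16960152)))) (b (a (a (l 17105560) (l 17099600)) (a (l 17094080) (l 17089264))) (l 6))) (a (b (a (b (l 16948880) (l 17040392)) (b (l 16990024) (l 17037760))) (b (c (l 17096296) (l 17071656)) (l 6))) (b (c (b (l 16994648) (l 17040776)) (b (l 16910384) (l 17034584))) (b (l 17077208) (l 6))))) (a (a (b (b (a (l 17003032) (l 16995304)) (l 17043512)) (b (l 17077024) (l 6))) (b (b (c (l 16993280) (l 16925304)) (l 16954088)) (b (l 17080784) (l 6)))) (c (a (b (b (l 16999656) (l 17043072)) (l 17095960)) (b (b (a (l 17008760) (l 17015928)) (l 17054664)) (l 17187896))) (b (b (a (b (l 16929008) (l 16996152)) (a (l 16900048) (b (l 16972704) (l 16997032)))) (a (l 17031408) (a (l 17030400) (l 17031000)))) (b (a (l 17072336) (l 16986920)) (l 6)))))) (a (l 6) (l 6))), by decide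 +kernel⟩

def k15_A00pm_112_s1 : ∃ t, chk3 f_A00pm_112_s1 t 3 1 1 = true :=
  ⟨(b (a (b (l 1) (b (l 1) (a (a (b (l 1) (b (l 1) (a (l 62847722567) (l 1)))) (l 1)) (l 1)))) (l 1)) (b (a (b (c (a (b (a (a (l 17022608) (l 56405498231)) (b (l 1) (l 97207757655))) (a (a (l 17064672) (l 17072080)) (b (l 17073112) (l 17093112)))) (b (l 1) (a (l 107408484951) (l 1)))) (a (a (b (a (l 34930497367) (l 26340542423)) (a (l 17032032) (l 17033688))) (b (b (l 1) (l 65532188375)) (a (l 16951472) (l 16994800)))) (b (l 1) (a (b (l 1) (l 70900998279)) (l 1))))) (b (a (a (c (l 17102832) (l 16988536)) (a (l 17093744) (l 17099384))) (b (a (l 58016277463) (l 1)) (l 6))) (l 6))) (b (l 1) (a (l 6) (l 1)))) (l 6))), by decide +kernel⟩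

theorem t16_A00pm_112_s1 : ∃ t, chk3 f_A00pm_112_s1 t 4 21 1 = true := ex3_a k10_A00pm_112_s1 k11_A00pm_112_s1

theorem t17_A00pm_112_s1 : ∃ t, chk3 f_A00pm_112_s1 t 2 21 1 = true := ex3_a t16_A00pm_112_s1 k12_A00pm_112_s1

theorem t18_A00pm_112_s1 : ∃ t, chk3 f_A00pm_112_s1 t 10 41 1 = true := ex3_c k7_A00pm_112_s1 k8_A00pm_112_s1

theorem t19_A00pm_112_s1 : ∃ t, chk3 f_A00pm_112_s1 t 5 41 1 = true := ex3_a t18_A00pm_112_s1 k9_A00pm_112_s1

theorem t20_A00pm_112_s1 : ∃ t, chk3 f_A00pm_112_s1 t 8 167 1 = true := ex3_a k4_A00pm_112_s1 k5_A00pm_112_s1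

theorem t21_A00pm_112_s1 : ∃ t, chk3 f_A00pm_112_s1 t 4 167 1 = true := ex3_a t20_A00pm_112_s1 k6_A00pm_112_s1

theorem t22_A00pm_112_s1 : ∃ t, chk3 f_A00pm_112_s1 t 4 83 1 = true := ex3_b k3_A00pm_112_s1 t21_A00pm_112_s1

theorem t23_A00pm_112_s1 : ∃ t, chk3 f_A00pm_112_s1 t 4 41 1 = true := ex3_b k2_A00pm_112_s1 t22_A00pm_112_s1

theorem t24_A00pm_112_s1 : ∃ t, chk3 f_A00pm_112_s1 t 2 41 1 = true := ex3_a t23_A00pm_112_s1 t19_A00pm_112_s1

theorem t25_A00pm_112_s1 : ∃ t, chk3 f_A00pm_112_s1 t 2 20 1 = true := ex3_b k1_A00pm_112_s1 t24_A00pm_112_s1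

theorem t26_A00pm_112_s1 : ∃ t, chk3 f_A00pm_112_s1 t 2 10 1 = true := ex3_b t25_A00pm_112_s1 t17_A00pm_112_s1

theorem t27_A00pm_112_s1 : ∃ t, chk3 f_A00pm_112_s1 t 2 5 1 = true := ex3_b t26_A00pm_112_s1 k13_A00pm_112_s1

theorem t28_A00pm_112_s1 : ∃ t, chk3 f_A00pm_112_s1 t 2 2 1 = true := ex3_b k0_A00pm_112_s1 t27_A00pm_112_s1

theorem t29_A00pm_112_s1 : ∃ t, chk3 f_A00pm_112_s1 t 2 1 1 = true := ex3_b t28_A00pm_112_s1 k14_A00pm_112_s1

theorem t30_A00pm_112_s1 : ∃ t, chk3 f_A00pm_112_s1 t 1 1 1 = true := ex3_a t29_A00pm_112_s1 k15_A00pm_112_s1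

theorem c_A00pm_112_s1 : CertF 536870912 536870912 536870912 536870912 201326592 134217728 true true false .dn 1 1 2
    ndF0q1 ndF0q1 pcF2 cut_A00pm_112_s1 xt_A00pm_112_s1 :=
  certFK1 (fam := true) (s1 := true) (s2 := false) (a := 1) (b := 1) (c := 2) (cn := .dn) (n1 := ndF0q1) (n2 := ndF0q1) (pc := pcF2) (cut := cut_A00pm_112_s1) (xt := xt_A00pm_112_s1) (P1 := 536870912) (W1 := 536870912) (P2 := 536870912) (W2 := 536870912) (P3 := 201326592) (W3 := 134217728)
    rfl rfl rfl (fun _ => rfl) t30_A00pm_112_s1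

theorem s_A00pm_112_s1 {κ x : ℝ} (hκ : κ * h0 = ken x) (hx : ((201326592 : ℕ) : ℝ) / S ≤ x)
    (hx' : x ≤ (((201326592 : ℕ) : ℝ) + (134217728 : ℕ)) / S) :
    AltA (VF κ) PP tKF tL pcF [⟨3, 0, 0, 1449551462⟩] 1 1 2 0 0 (sgb true) (sgb false) x :=
  strip_altA (m := 1449551462) true rfl hκ covF01 covF01 hx hx' c_A00pm_112_s1 cutA_nil ((okx hx hx').extA (T := tt) (sideF hx hx') hκ rfl rfl (.O 1 true) (.O 1 false) rfl)

noncomputable def cut_A00pm_112_s3 : Cut := Cut.of [[⟨3, 0, 0, 2845415833⟩]]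

noncomputable def f_A00pm_112_s3 : ℕ → ℕ → ℕ → ℕ → Bool := onCell 536870912 536870912 1073741824 536870912 201326592 134217728
    (rowFK 1 true true false .dn 1 1 2 (qsf 536870912 536870912 536870912 536870912 2) ndF0q1 ndF0q1 pcF2 cut_A00pm_112_s3 Ext.none)

def k0_A00pm_112_s3 : ∃ t, chk3 f_A00pm_112_s3 t 1 1 1 = true :=
  ⟨(l 6), by decide +kernel⟩

theorem c_A00pm_112_s3 : CertF 536870912 536870912 536870912 536870912 201326592 134217728 true true false .dn 1 1 2
    ndF0q1 ndF0q1 pcF2 cut_A00pm_112_s3 Ext.none :=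
  certFK1 (fam := true) (s1 := true) (s2 := false) (a := 1) (b := 1) (c := 2) (cn := .dn) (n1 := ndF0q1) (n2 := ndF0q1) (pc := pcF2) (cut := cut_A00pm_112_s3) (xt := Ext.none) (P1 := 536870912) (W1 := 536870912) (P2 := 536870912) (W2 := 536870912) (P3 := 201326592) (W3 := 134217728)
    rfl rfl rfl (fun _ => rfl) k0_A00pm_112_s3

theorem s_A00pm_112_s3 {κ x : ℝ} (hκ : κ * h0 = ken x) (hx : ((201326592 : ℕ) : ℝ) / S ≤ x)
    (hx' : x ≤ (((201326592 : ℕ) : ℝ) + (134217728 : ℕ)) / S) :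
    AltA (VF κ) PP tKF tL pcF [⟨4, 0, 0, 2845415833⟩] 1 1 2 0 0 (sgb true) (sgb false) x :=
  strip_altA (m := 2845415833) false rfl hκ covF01 covF01 hx hx' c_A00pm_112_s3 cutA_nil (noExt_A)

noncomputable def cut_A00pm_113_s1 : Cut := Cut.of [[⟨4, 0, 0, 1449551462⟩], [⟨0, 1, 0, 57167902⟩, ⟨1, 1, 0, 57167902⟩, ⟨2, 2, 0, 11758673⟩]]

noncomputable def f_A00pm_113_s1 : ℕ → ℕ → ℕ → ℕ → Bool := onCell 536870912 536870912 1610612736 536870912 201326592 134217728
    (rowFK 1 true true false .nn 1 1 3 (qsf 536870912 536870912 536870912 536870912 3) ndF0q1 ndF0q1 pcF3 cut_A00pm_113_s1 Ext.none)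

def k0_A00pm_113_s1 : ∃ t, chk3 f_A00pm_113_s1 t 1 1 1 = true :=
  ⟨(b (a (b (l 6) (l 6)) (l 6)) (l 6)), by decide +kernel⟩

theorem c_A00pm_113_s1 : CertF 536870912 536870912 536870912 536870912 201326592 134217728 true true false .nn 1 1 3
    ndF0q1 ndF0q1 pcF3 cut_A00pm_113_s1 Ext.none :=
  certFK1 (fam := true) (s1 := true) (s2 := false) (a := 1) (b := 1) (c := 3) (cn := .nn) (n1 := ndF0q1) (n2 := ndF0q1) (pc := pcF3) (cut := cut_A00pm_113_s1) (xt := Ext.none) (P1 := 536870912) (W1 := 536870912) (P2 := 536870912) (W2 := 536870912) (P3 := 201326592) (W3 := 134217728)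
    rfl rfl rfl (fun _ => rfl) k0_A00pm_113_s1

theorem s_A00pm_113_s1 {κ x : ℝ} (hκ : κ * h0 = ken x) (hx : ((201326592 : ℕ) : ℝ) / S ≤ x)
    (hx' : x ≤ (((201326592 : ℕ) : ℝ) + (134217728 : ℕ)) / S)
    (H : CutA (VF κ) PP tKF tL pcF (Cut.of [[⟨0, 1, 0, 57167902⟩, ⟨1, 1, 0, 57167902⟩, ⟨2, 2, 0, 11758673⟩]]) 1 1 3 0 0 (sgb true) (sgb false) x) :
    AltA (VF κ) PP tKF tL pcF [⟨3, 0, 0, 1449551462⟩] 1 1 3 0 0 (sgb true) (sgb false) x :=
  strip_altA (m := 1449551462) true rfl hκ covF01 covF01 hx hx' c_A00pm_113_s1 H (noExt_A)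

noncomputable def cut_A00pm_113_s3 : Cut := Cut.of [[⟨3, 0, 0, 2845415833⟩], [⟨0, 1, 0, 57167902⟩, ⟨1, 1, 0, 57167902⟩, ⟨2, 2, 0, 11758673⟩]]

noncomputable def f_A00pm_113_s3 : ℕ → ℕ → ℕ → ℕ → Bool := onCell 536870912 536870912 536870912 536870912 201326592 134217728
    (rowFK 0 true true false .nn 1 1 3 (qsf 536870912 536870912 536870912 536870912 3) ndF0q1 ndF0q1 pcF3 cut_A00pm_113_s3 Ext.none)

def k0_A00pm_113_s3 : ∃ t, chk3 f_A00pm_113_s3 t 2 1 1 = true :=
  ⟨(l 6), by decide +kernel⟩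

def k1_A00pm_113_s3 : ∃ t, chk3 f_A00pm_113_s3 t 3 2 1 = true :=
  ⟨(l 6), by decide +kernel⟩

def k2_A00pm_113_s3 : ∃ t, chk3 f_A00pm_113_s3 t 3 6 1 = true :=
  ⟨(b (l 6) (a (l 6) (a (l 6) (a (l 6) (a (l 6) (a (l 6) (a (l 6) (l 16977240)))))))), by decide +kernel⟩

def k3_A00pm_113_s3 : ∃ t, chk3 f_A00pm_113_s3 t 6 7 1 = true :=
  ⟨(a (l 6) (b (l 6) (a (l 6) (a (l 6) (b (l 6) (b (l 6) (l 16971072))))))), by decide +kernel⟩

def k4_A00pm_113_s3 : ∃ t, chk3 f_A00pm_113_s3 t 7 14 1 = true :=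
  ⟨(a (l 6) (c (a (l 17099320) (b (l 17181336) (a (l 16983520) (l 17080240)))) (a (l 17139024) (a (b (l 16931056) (l 16978024)) (a (b (l 16938616) (l 16897832)) (b (l 17017648) (a (l 16986200) (l 16979664)))))))), by decide +kernel⟩

def k5_A00pm_113_s3 : ∃ t, chk3 f_A00pm_113_s3 t 7 15 1 = true :=
  ⟨(a (c (b (l 17099320) (a (l 17181336) (b (l 16983520) (l 17080240)))) (b (l 17139024) (b (a (l 16931056) (l 16978024)) (b (a (l 16938616) (l 16897832)) (a (l 17017648) (b (l 16986200) (l 16979664))))))) (b (a (l 16876496) (c (a (l 16943752) (b (l 17011560) (b (l 16933024) (l 16932000)))) (a (l 16940864) (b (a (l 16862040) (c (l 16954240) (l 16926152))) (a (l 16922976) (a (l 16842720) (b (l 16850120) (l 16880000)))))))) (a (c (b (l 16943752) (a (l 17011560) (a (l 16933024) (l 16932000)))) (b (l 16940864) (a (b (l 16862040) (c (l 16954240) (l 16926152))) (b (l 16922976) (b (l 16842720) (a (l 16850120) (l 16880000))))))) (b (a (l 16826736) (c (a (l 16903984) (b (l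 16897944) (a (l 16895736) (b (l 16863808) (l 16856008))))) (a (l 16860056) (b (a (l 16821920) (a (l 16825872) (l 16825296))) (a (l 16851112) (a (l 16811496) (a (l 16808136) (l 16811920)))))))) (a (c (b (l 16903984) (a (l 16897944) (b (l 16895736) (a (l 16863808) (l 16856008))))) (b (l 16860056) (a (b (l 16821920) (a (l 16828752) (l 16843136))) (b (l 16851112) (b (l 16811496) (a (l 16815896) (l 16830160))))))) (b (a (l 16801904) (a (c (l 16841032) (l 16829408)) (a (b (l 16801592) (a (l 16793264) (l 16794120))) (a (b (l 16804744) (b (l 16798360) (l 16794032))) (b (c (l 16807768) (l 16802272)) (c (l 16820224) (b (l 16797200) (l 14)))))))) (a (b (c (l 16841032) (l 16829408)) (b (a (l 16801592) (a (l 16795384) (l 16791888))) (b (a (l 16804744) (a (l 16798360) (l 16794032))) (a (c (l 16807768) (l 16802272)) (c (l 16820224) (a (l 16797200) (l 14))))))) (b (a (l 16789536) (a (b (l 16810472) (l 14)) (l 14))) (a (b (a (l 16810472) (l 14)) (l 14)) (l 14)))))))))), by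 decide +kernel⟩

theorem t6_A00pm_113_s3 : ∃ t, chk3 f_A00pm_113_s3 t 7 7 1 = true := ex3_b k4_A00pm_113_s3 k5_A00pm_113_s3

theorem t7_A00pm_113_s3 : ∃ t, chk3 f_A00pm_113_s3 t 3 7 1 = true := ex3_a k3_A00pm_113_s3 t6_A00pm_113_s3

theorem t8_A00pm_113_s3 : ∃ t, chk3 f_A00pm_113_s3 t 3 3 1 = true := ex3_b k2_A00pm_113_s3 t7_A00pm_113_s3

theorem t9_A00pm_113_s3 : ∃ t, chk3 f_A00pm_113_s3 t 3 1 1 = true := ex3_b k1_A00pm_113_s3 t8_A00pm_113_s3

theorem t10_A00pm_113_s3 : ∃ t, chk3 f_A00pm_113_s3 t 1 1 1 = true := ex3_a k0_A00pm_113_s3 t9_A00pm_113_s3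

theorem c_A00pm_113_s3 : CertF 536870912 536870912 536870912 536870912 201326592 134217728 true true false .nn 1 1 3
    ndF0q1 ndF0q1 pcF3 cut_A00pm_113_s3 Ext.none :=
  certFK0 (fam := true) (s1 := true) (s2 := false) (a := 1) (b := 1) (c := 3) (cn := .nn) (n1 := ndF0q1) (n2 := ndF0q1) (pc := pcF3) (cut := cut_A00pm_113_s3) (xt := Ext.none) (P1 := 536870912) (W1 := 536870912) (P2 := 536870912) (W2 := 536870912) (P3 := 201326592) (W3 := 134217728)
    rfl rfl rfl t10_A00pm_113_s3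

theorem s_A00pm_113_s3 {κ x : ℝ} (hκ : κ * h0 = ken x) (hx : ((201326592 : ℕ) : ℝ) / S ≤ x)
    (hx' : x ≤ (((201326592 : ℕ) : ℝ) + (134217728 : ℕ)) / S)
    (H : CutA (VF κ) PP tKF tL pcF (Cut.of [[⟨0, 1, 0, 57167902⟩, ⟨1, 1, 0, 57167902⟩, ⟨2, 2, 0, 11758673⟩]]) 1 1 3 0 0 (sgb true) (sgb false) x) :
    AltA (VF κ) PP tKF tL pcF [⟨4, 0, 0, 2845415833⟩] 1 1 3 0 0 (sgb true) (sgb false) x :=
  strip_altA (m := 2845415833) false rfl hκ covF01 covF01 hx hx' c_A00pm_113_s3 H (noExt_A)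

noncomputable def cut_A00pm_123_s1 : Cut := Cut.of [[⟨4, 0, 0, 1449551462⟩], [⟨0, 1, 0, 57167902⟩, ⟨1, 1, 0, 57167902⟩, ⟨2, 2, 0, 11758673⟩]]

noncomputable def f_A00pm_123_s1 : ℕ → ℕ → ℕ → ℕ → Bool := onCell 536870912 536870912 0 536870912 201326592 134217728
    (rowFK 0 true true false .npn 1 2 3 (qsf 536870912 536870912 0 536870912 3) ndF0q1 ndF0q2 pcF3 cut_A00pm_123_s1 Ext.none)

def k0_A00pm_123_s1 : ∃ t, chk3 f_A00pm_123_s1 t 1 1 1 = true :=
  ⟨(l 6), by decide +kernel⟩

theorem c_A00pm_123_s1 : CertF 536870912 536870912 0 536870912 201326592 134217728 true true false .npn 1 2 3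
    ndF0q1 ndF0q2 pcF3 cut_A00pm_123_s1 Ext.none :=
  certFK0 (fam := true) (s1 := true) (s2 := false) (a := 1) (b := 2) (c := 3) (cn := .npn) (n1 := ndF0q1) (n2 := ndF0q2) (pc := pcF3) (cut := cut_A00pm_123_s1) (xt := Ext.none) (P1 := 536870912) (W1 := 536870912) (P2 := 0) (W2 := 536870912) (P3 := 201326592) (W3 := 134217728)
    rfl rfl rfl k0_A00pm_123_s1

theorem s_A00pm_123_s1 {κ x : ℝ} (hκ : κ * h0 = ken x) (hx : ((201326592 : ℕ) : ℝ) / S ≤ x)
    (hx' : x ≤ (((201326592 : ℕ) : ℝ) + (134217728 : ℕ)) / S)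
    (H : CutA (VF κ) PP tKF tL pcF (Cut.of [[⟨0, 1, 0, 57167902⟩, ⟨1, 1, 0, 57167902⟩, ⟨2, 2, 0, 11758673⟩]]) 1 2 3 0 0 (sgb true) (sgb false) x) :
    AltA (VF κ) PP tKF tL pcF [⟨3, 0, 0, 1449551462⟩] 1 2 3 0 0 (sgb true) (sgb false) x :=
  strip_altA (m := 1449551462) true rfl hκ covF01 covF02 hx hx' c_A00pm_123_s1 H (noExt_A)

noncomputable def cut_A00pm_123_s3 : Cut := Cut.of [[⟨3, 0, 0, 2845415833⟩], [⟨0, 1, 0, 57167902⟩, ⟨1, 1, 0, 57167902⟩, ⟨2, 2, 0, 11758673⟩]]

noncomputable def xt_A00pm_123_s3 : Ext := strExt dd true true false .u0 .u2 .s2 .npn 1 2 3 rfl rfl gl3 vv ndF0q1 ndF0q2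

noncomputable def f_A00pm_123_s3 : ℕ → ℕ → ℕ → ℕ → Bool := onCell 1610612736 536870912 0 536870912 201326592 134217728
    (rowFK 2 true true false .npn 1 2 3 (qsf 536870912 536870912 0 536870912 3) ndF0q1 ndF0q2 pcF3 cut_A00pm_123_s3 xt_A00pm_123_s3)

def k0_A00pm_123_s3 : ∃ t, chk3 f_A00pm_123_s3 t 2 1 1 = true :=
  ⟨(b (a (b (l 1) (l 6)) (b (a (a (a (l 1) (b (l 540548111) (b (l 16945896) (l 16975896)))) (b (a (l 540530959) (l 540521487)) (b (l 540715791) (a (l 16959208) (l 16942560))))) (a (b (l 540503567) (b (l 540437263) (c (l 541333519) (l 539784463)))) (b (b (l 540494863) (l 540447247)) (b (c (l 541246735) (l 539804687)) (c (l 541284623) (b (l 539815695) (l 539828495))))))) (a (b (b (a (a (l 6) (l 17006032)) (a (l 16989688) (l 16973280))) (a (l 6) (a (l 6) (l 17003088)))) (l 6)) (b (a (a (b (l 16956616) (l 16986568)) (b (c (l 16980424) (l 16910200)) (c (l 17018768) (l 16934544)))) (c (a (b (l 16958168) (l 16996232)) (b (l 16936072) (l 16973792))) (b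 (b (l 539841551) (l 539854863)) (a (l 16921432) (l 16907904))))) (a (a (l 6) (b (b (l 16991056) (l 6)) (l 6))) (c (b (a (b (l 17023400) (l 17041152)) (l 17009344)) (a (l 17061352) (b (l 17034496) (l 17047688)))) (b (a (a (l 16947672) (l 16940960)) (l 16930768)) (a (l 16987680) (b (l 16947384) (l 16958656)))))))))) (a (l 6) (a (l 6) (b (l 6) (l 6))))), by decide +kernel⟩

def k1_A00pm_123_s3 : ∃ t, chk3 f_A00pm_123_s3 t 6 4 1 = true :=
  ⟨(a (b (b (a (l 540449807) (l 4)) (a (c (l 541182223) (l 539824655)) (a (a (l 540381711) (l 540347663)) (l 4)))) (a (c (b (c (l 541614607) (l 540749583)) (a (l 541255951) (l 541246223))) (b (c (l 540071183) (l 539600399)) (a (l 539846415) (l 539865103)))) (b (a (c (l 541146639) (l 539834895)) (b (l 540396047) (l 540438031))) (a (b (l 540457487) (a (l 540487951) (l 540500495))) (b (l 540479247) (l 540513807)))))) (b (l 4) (a (b (a (b (l 4) (l 540451855)) (l 4)) (c (a (b (l 541230351) (l 541266703)) (b (l 541195791) (l 541231119)))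 (a (b (l 539929359) (l 539943439)) (b (l 539931663) (l 539944975))))) (b (l 4) (l 4))))), by decide +kernel⟩

def k2_A00pm_123_s3 : ∃ t, chk3 f_A00pm_123_s3 t 12 5 1 = true :=
  ⟨(a (c (b (b (b (l 541312271) (a (l 16923744) (l 16901992))) (a (l 16951464) (b (l 16920416) (l 16938200)))) (b (a (b (l 16978000) (l 16995224)) (b (l 16955400) (l 16972160))) (a (b (a (l 17017960) (l 17006256)) (a (l 17032128) (l 17021480))) (b (l 16988664) (b (l 17001008) (a (l 17014088) (l 17002672))))))) (b (b (b (l 539884303) (a (l 16875896) (l 16861848))) (a (l 16904520) (b (l 16874032) (l 16885752)))) (b (a (a (l 16920368) (l 16913336)) (a (l 16906184) (l 16898920))) (a (b (a (l 16936856) (l 16929720)) (a (l 16947864) (l 16940568))) (b (l 16918808) (a (l 16954160) (l 16946608))))))) (c (b (b (a (b (l 541327887) (l 541371151)) (b (l 541327375) (l 541366287))) (a (b (l 16898264) (l 16915616)) (b (l 541381391) (l 541374223)))) (b (a (b (l 16921840) (a (l 16954600) (l 16942576)))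 (b (a (l 16914544) (l 16902504)) (a (l 16930368) (l 16918056)))) (a (b (a (l 16970624) (l 16958312)) (a (l 16986328) (l 16973704))) (b (a (l 16945808) (l 16933208)) (a (l 16960928) (l 16948032)))))) (b (b (a (b (l 539925519) (l 539943183)) (b (l 539948047) (l 539962895))) (a (b (l 539949327) (l 540212751)) (b (l 539964175) (l 539953167)))) (c (b (a (b (l 16891872) (l 16903656)) (b (l 16874960) (l 16886488))) (a (a (l 16925072) (l 16916432)) (b (l 16897728) (l 16908696)))) (b (a (l 16900856) (b (l 16860616) (l 16870544))) (a (a (l 16903224) (l 16896024)) (b (l 16880248) (l 16889728)))))))), by decide +kernel⟩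

def k3_A00pm_123_s3 : ∃ t, chk3 f_A00pm_123_s3 t 13 5 1 = true :=
  ⟨(b (a (a (b (b (a (l 540542479) (l 540537615)) (c (l 541338895) (l 539969551))) (c (b (l 541344783) (l 541325583)) (b (l 539965967) (l 540217103)))) (a (b (b (l 540530959) (l 540550415)) (b (l 540776975) (c (l 16840568) (l 539938319)))) (b (b (b (l 540517135) (l 540528143)) (l 540670479)) (b (l 540525327) (l 540488975))))) (a (c (b (b (l 541210383) (a (l 541277455) (l 541222159))) (a (l 541193231) (l 541132559))) (b (b (l 539951375) (a (l 539974159) (l 539956495))) (a (l 539920655) (l 539900175)))) (a (b (b (l 4) (l 540472335)) (l 540126479)) (b (l 4) (l 540354319))))) (a (b (c (a (b (a (l 16890408) (l 16878320)) (a (l 16905680) (l 16893296))) (b (a (l 16866240) (l 16854192)) (a (l 16880920) (l 16868520)))) (a (b (a (l 16855152) (l 16847208)) (a (l 16865608) (l 16857560))) (b (a (l 16839216) (l 539894543)) (a (l 16849464) (l 16841296))))) (c (a (b (a (l 16920560) (l 16907880)) (a (l 16935080)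 (l 16922096))) (a (b (l 16895192) (l 16909048)) (b (l 16882504) (l 16896120)))) (c (a (b (l 16879864) (l 16890552)) (a (l 16871512) (l 16862384))) (a (b (l 16865320) (l 16874608)) (a (l 16858528) (l 16850872)))))) (a (b (c (b (a (l 541119503) (l 541048591)) (a (l 16856280) (l 16833816))) (b (a (l 539872527) (l 539846415)) (a (l 539843855) (l 539819535)))) (c (a (b (l 16869992) (l 16883424)) (b (l 16857864) (l 16871136))) (a (b (l 16842920) (l 16852472)) (b (l 539800079) (l 16844288))))) (b (c (b (b (l 540963599) (l 540940047)) (a (l 540943887) (l 540885519))) (b (a (l 539822095) (l 539798799)) (a (l 539797519) (l 539777039)))) (a (b (c (l 16846128) (l 539780367)) (c (l 16859216) (l 16836232))) (b (l 540033807) (c (l 16847624) (l 539752207)))))))), by decide +kernel⟩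

def k4_A00pm_123_s3 : ∃ t, chk3 f_A00pm_123_s3 t 12 6 1 = true :=
  ⟨(b (a (b (c (a (l 17044624) (b (a (l 17022976) (l 17011808)) (l 17028568))) (a (l 16961032) (b (a (l 16944144) (l 16936264)) (l 16951160)))) (a (l 6) (b (l 16995752) (l 6)))) (c (b (a (b (a (b (l 16997464) (l 17003344)) (b (l 16985152) (l 16991512))) (l 17005496)) (b (a (b (l 16972080) (b (l 16977672) (l 16980952))) (l 16962560)) (a (l 16987632) (b (a (l 16975928) (l 16974920)) (l 16978104))))) (a (l 17020944) (b (l 16991624) (l 17001384)))) (a (b (b (a (b (l 16925600) (l 16930928)) (b (l 16917592) (l 16922656))) (l 16934784)) (l 16950568)) (a (b (b (c (l 16923992) (l 16902744)) (l 16922088)) (l 16937568)) (b (b (l 16903696) (b (c (l 16922632) (l 16901936)) (l 16916048))) (l 16928720)))))) (a (l 6) (a (b (b (l 16997424) (l 6)) (l 6)) (b (b (l 16976112) (l 16986392)) (l 17001848))))), by decide +kernel⟩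

def k5_A00pm_123_s3 : ∃ t, chk3 f_A00pm_123_s3 t 13 6 1 = true :=
  ⟨(b (b (c (a (a (b (a (l 16949304) (l 16935992)) (a (b (a (l 16963216) (l 16956448)) (b (l 16964432) (l 16967040))) (b (l 16946232) (b (l 16951376) (l 16954344))))) (a (b (l 16922640) (l 16936024)) (b (l 16909456) (l 16922656)))) (a (a (b (l 16896624) (l 16909656)) (b (l 16884160) (l 16897008))) (a (b (l 16872056) (l 16884712)) (b (l 16860280) (l 16872720))))) (a (a (b (a (l 16895392) (l 16887008)) (a (b (c (l 16913304) (l 16894112)) (l 16907272)) (b (l 16893952) (c (l 16908832) (l 16890592))))) (c (a (l 16891872) (l 16882512)) (a (l 16876248) (l 16868432)))) (a (a (b (l 16861760) (l 16870776)) (b (l 16853528) (l 16862480))) (a (b (l 16845400) (l 16854304)) (b (l 16837392) (l 16846216)))))) (a (c (b (a (a (l 16973008) (l 16960480)) (b (a (b (l 16944176) (l 16946840)) (l 16932528)) (a (l 16950456) (l 16938112)))) (a (l 16976176) (l 16951320))) (a (b (c (l 16921208) (l 16901584)) (l 16920240))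 (b (a (c (l 16906632) (l 16889200)) (b (l 16885848) (l 16890424))) (l 16902144)))) (c (a (b (a (b (l 16919384) (l 16925696)) (l 16909736)) (b (a (l 16930960) (l 16918920)) (l 16929760))) (b (a (l 16897224) (l 16884992)) (a (b (l 16906600) (l 16912192)) (l 16897160)))) (b (a (a (c (l 16887792) (l 16873144)) (l 16871184)) (a (l 16862936) (l 16854760))) (b (a (a (l 16886392) (l 16877712)) (a (l 16869272) (l 16861016))) (a (l 16886760) (a (l 16873640) (l 16865128)))))))) (a (b (a (b (l 16954592) (l 16964584)) (c (l 16965296) (l 16916816))) (c (l 16996024) (a (l 16955488) (l 16936672)))) (b (a (b (c (l 16936704) (l 16893920)) (l 16880256)) (a (c (l 16923704) (l 16885192)) (b (c (l 16907672) (l 16871728)) (l 16896512)))) (b (a (l 16931920) (l 16868976)) (c (l 16951808) (l 16892192)))))), by decide +kernel⟩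

def k6_A00pm_123_s3 : ∃ t, chk3 f_A00pm_123_s3 t 6 7 1 = true :=
  ⟨(a (l 6) (c (a (b (b (l 17014432) (l 17113776)) (l 6)) (b (b (l 16964624) (l 17064344)) (b (l 17140664) (l 16925848)))) (a (a (b (b (l 16976560) (l 6)) (l 6)) (b (b (l 16957096) (l 16977672)) (l 6))) (a (b (b (l 16937416) (l 16957512)) (b (l 17043736) (l 6))) (b (b (l 16917704) (l 16937048)) (b (l 17067712) (l 16913688))))))), by decide +kernel⟩

def k7_A00pm_123_s3 : ∃ t, chk3 f_A00pm_123_s3 t 28 2 1 = true :=
  ⟨(b (l 4) (b (a (b (l 4) (b (a (l 540339471) (l 4)) (a (l 540291343) (l 540253455)))) (l 4)) (b (b (a (a (b (a (l 540267023) (l 540248335)) (l 540240399)) (c (b (l 540813071) (l 540800015)) (b (l 539759887) (l 539753487)))) (a (a (b (l 539929359) (l 540188943)) (l 540179727)) (l 540158991))) (a (a (a (l 540231183) (l 540216079)) (a (l 540202511) (l 540189967))) (a (l 540169743) (l 540143119)))) (b (a (a (a (l 540213775) (l 540200719)) (a (l 540188687) (l 540176143))) (a (l 540155919)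 (l 540130063))) (a (a (c (l 16836336) (l 539739663)) (a (l 540177167) (l 540164623))) (a (l 540144911) (l 540119311))))))), by decide +kernel⟩

def k8_A00pm_123_s3 : ∃ t, chk3 f_A00pm_123_s3 t 28 3 1 = true :=
  ⟨(b (b (a (b (c (a (b (l 16848768) (l 16860984)) (b (l 16837496) (l 16849456))) (c (a (l 16837920) (l 539916559)) (a (l 539556111) (l 539546639)))) (c (a (b (l 16872984) (l 16884880)) (b (l 16861192) (l 16872816))) (a (b (l 16846624) (l 16854800)) (b (l 16838520) (l 16846592))))) (a (b (c (l 540693263) (b (l 539705871) (l 539694607))) (b (c (l 16849616) (l 16830456)) (c (l 16860968) (l 16838416)))) (b (c (l 540646927) (b (l 539693327) (l 539681295))) (b (c (l 16838264) (l 539669775)) (c (l 16849344) (l 16830296)))))) (a (b (c (b (a (l 16875056) (b (l 16881528) (l 16887040))) (l 16899456)) (b (a (b (l 16860864) (l 16865160)) (b (l 16852512) (l 16856488))) (a (l 16871840) (l 16862888)))) (b (c (l 16908032) (l 16876128)) (l 16857120))) (a (b (c (b (l 16872272)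 (l 16882528)) (b (c (l 16851304) (l 16841928)) (b (l 16852008) (l 16856160)))) (b (l 16854080) (l 16883544))) (b (c (b (l 16860360) (b (l 16868584) (l 16873576))) (b (l 16837936) (b (l 16843528) (l 16847440)))) (b (c (l 16879792) (l 16853552)) (l 16873328)))))) (a (c (b (b (l 16928448) (l 16944360)) (b (l 17026616) (l 16906696))) (b (b (l 16898080) (l 16916288)) (b (b (l 16927464) (l 16918256)) (l 16900160)))) (c (b (b (l 16904776) (l 16919648)) (b (l 17005368) (l 16892592))) (b (b (l 16878720) (l 16895648)) (b (a (l 16993616) (l 16984064)) (l 16885808)))))), by decide +kernel⟩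

def k9_A00pm_123_s3 : ∃ t, chk3 f_A00pm_123_s3 t 29 2 1 = true :=
  ⟨(b (l 4) (b (l 4) (a (a (b (b (l 4) (l 540116751)) (c (l 540613135) (l 539700239))) (b (l 4) (c (l 540566031) (b (l 539686671) (l 539679759))))) (b (l 4) (a (c (l 540518927) (b (l 4) (l 539666703))) (l 4)))))), by decide +kernel⟩

def k10_A00pm_123_s3 : ∃ t, chk3 f_A00pm_123_s3 t 29 6 1 = true :=
  ⟨(b (a (a (c (b (l 540600591) (b (l 16806152) (l 16837936))) (b (b (l 539680271) (l 539667215)) (b (l 539655695) (l 539647759)))) (b (c (l 540554511) (b (l 539665679) (l 539653135))) (b (c (l 540559631) (l 539642639)) (c (l 16805760) (l 539636239))))) (a (b (b (l 540031503) (c (l 540508687) (l 539641103))) (b (c (l 540514063) (l 539631887)) (c (l 540528655) (l 539626767)))) (a (b (c (l 540475151) (l 539639311)) (b (l 540003855) (l 540008207))) (b (c (l 540451599) (l 539634191)) (b (l 539992847) (l 539997967)))))) (b (c (a (a (b (l 16848656) (l 16838280)) (c (l 16847864) (l 16837200))) (a (b (l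 16804896) (l 16835912)) (b (l 540513039) (l 16814000)))) (b (a (a (l 16819288) (c (l 16824800) (l 16819048))) (a (c (l 16816112) (l 16806256)) (a (l 16802352) (l 539622159)))) (a (a (b (l 16835320) (l 16828440)) (c (l 16832672) (l 16825776))) (a (c (l 16823856) (l 16818168)) (a (l 16814680) (l 16805376)))))) (a (b (c (a (l 16868728) (b (l 16855160) (l 16859752))) (a (b (l 16832296) (l 16846720)) (b (a (l 16836328) (l 16832200)) (a (l 16840136) (l 16835832))))) (a (l 16842272) (c (l 16865336) (l 16843696)))) (a (b (c (b (l 16843416) (l 16848224)) (b (l 16826024) (a (l 16831536) (l 16827376)))) (c (l 16854424) (b (a (l 16835200) (l 16830904)) (l 16836688)))) (c (b (l 16834088) (b (l 16830584) (l 16845256))) (b (a (l 16821552) (l 16817432)) (b (a (b (l 16825728) (l 16827448)) (l 16822376)) (a (l 16830072) (b (l 16824864) (l 16826560)))))))))), by decide +kernel⟩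

def k11_A00pm_123_s3 : ∃ t, chk3 f_A00pm_123_s3 t 29 7 1 = true :=
  ⟨(b (b (a (b (c (l 16878120) (l 16855888)) (l 16852496)) (b (c (l 16855616) (a (l 16842136) (l 16833072))) (c (l 16862064) (l 16834088)))) (c (a (l 16895280) (l 16871192)) (a (l 16875208) (b (l 16851568) (l 16858616))))) (b (a (b (l 16895120) (l 16974656)) (b (l 16872784) (a (l 16961688) (l 16952216)))) (a (l 16957296) (l 16982392)))), by decide +kernel⟩

def k12_A00pm_123_s3 : ∃ t, chk3 f_A00pm_123_s3 t 15 2 1 = true :=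
  ⟨(l 4), by decide +kernel⟩

def k13_A00pm_123_s3 : ∃ t, chk3 f_A00pm_123_s3 t 30 12 1 = true :=
  ⟨(a (a (b (c (l 540413967) (c (l 539791375) (l 540555279))) (a (b (l 539979535) (l 539989007)) (b (l 539969295) (l 539980047)))) (b (l 4) (a (b (l 539959567) (l 539970575)) (b (l 539949071) (l 539960591))))) (b (l 4) (a (b (l 4) (a (l 539950095) (l 539938831))) (l 4)))), by decide +kernel⟩

def k14_A00pm_123_s3 : ∃ t, chk3 f_A00pm_123_s3 t 30 13 1 = true :=
  ⟨(b (a (b (a (c (l 540472079) (c (l 539795983) (l 540271119))) (c (l 540426255) (c (l 540055311) (l 541078799)))) (a (c (l 540507919) (a (l 539628047) (l 539628047))) (c (l 541804303) (a (l 539628047) (l 539963919))))) (a (c (b (l 541985807) (c (l 540656143) (l 541527055))) (a (b (l 539618575) (b (l 539625999) (l 539632399))) (b (c (l 539778063) (l 539476495)) (c (l 539794447) (l 540021007))))) (a (b (b (l 539939855) (l 539949839)) (c (l 540374287) (c (l 539789839) (l 540293391)))) (b (l 4) (c (l 540343567)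 (c (l 539784463) (l 540566031))))))) (a (c (c (a (b (l 16826048) (l 16825192)) (b (l 16792544) (l 16822864))) (a (b (l 16819168) (b (l 16825432) (l 16829384))) (b (l 541326607) (l 16816592)))) (c (c (a (b (l 16814840) (a (l 16824408) (l 16819768))) (b (l 16800296) (l 16812608))) (c (a (b (l 16812944) (a (l 16821944) (l 16817584))) (b (l 16798928) (l 16810856))) (a (b (l 16811776) (a (l 16820432) (l 16816232))) (b (l 541023247) (l 16809768))))) (a (a (b (l 16811152) (b (l 16815712) (b (l 16817920) (l 16819448)))) (b (l 16807288) (l 16813272))) (b (a (l 16803408) (l 540558607)) (a (l 16809352) (l 16805400)))))) (a (a (b (c (l 540471823) (a (l 539643919) (l 539913487))) (c (l 16810792) (b (l 16796136) (l 16804424)))) (b (c (l 540444687) (b (l 539641103) (l 539649551))) (c (l 16794480) (c (l 16794728) (a (l 16798432) (l 16796424)))))) (b (b (a (c (l 540406287) (l 539642639)) (c (l 540375311) (l 539643663))) (a (a (l 540007183) (l 540001807)) (a (l 539995919) (l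 539989263)))) (b (a (a (l 540020495) (l 540014607)) (a (l 540008207) (l 540001295))) (a (c (l 16801136) (c (l 16796944) (l 16794792))) (c (l 540434703) (c (l 539833359) (l 540594447))))))))), by decide +kernel⟩

def k15_A00pm_123_s3 : ∃ t, chk3 f_A00pm_123_s3 t 30 14 1 = true :=
  ⟨(a (c (b (b (b (a (l 16827120) (a (l 16828848) (l 16822928))) (a (l 16840648) (a (l 16832480) (l 16826776)))) (a (l 16845088) (l 16833864))) (a (l 16853544) (l 16841904))) (b (b (a (b (a (l 16824728) (b (l 16814280) (l 16821176))) (l 16825784)) (b (a (b (l 16815248) (c (l 16819512) (l 16814352))) (l 16811712)) (a (l 16819160) (b (c (l 16816424) (l 16811696)) (l 16810264))))) (a (l 16830616) (b (l 16819928) (l 16822952)))) (b (a (l 16837016) (l 16827432)) (l 16838368)))) (b (c (a (a (b (b (l 16816888) (l 16820744)) (l 16825736)) (b (l 16812816) (b (a (l 16819968) (l 16816920)) (l 16821400)))) (b (a (l 16796328) (c (l 16802456) (l 16794160))) (b (a (l 16812392) (l 16806320)) (a (b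 (l 16815056) (l 16816640)) (a (l 16811288) (l 16808344)))))) (a (b (a (b (l 16807400) (c (l 16812456) (a (l 16809320) (l 16807344)))) (b (l 16797816) (l 16805936))) (b (a (b (a (l 16813616) (l 16811400)) (l 16813936)) (c (b (l 16810040) (l 16811608)) (b (l 16806208) (a (l 16808696) (l 16806536))))) (a (l 16816080) (l 16811544)))) (b (c (a (l 16796304) (b (l 16795336) (l 16798320))) (a (b (l 16797520) (l 16800176)) (b (c (l 16793848) (l 16792992)) (l 16796032)))) (b (a (a (l 16805424) (l 16803208)) (a (l 16800976) (l 16798728))) (b (a (a (a (l 16808104) (l 16806944)) (c (l 16807000) (l 16803616))) (l 16801872)) (a (a (l 16808848) (l 16801408)) (a (a (a (l 16805208) (l 16804616)) (l 16803736)) (l 16802072)))))))) (b (a (c (l 16827936) (b (l 16816592) (l 16819376))) (b (b (a (l 16813016) (c (l 16812312) (a (l 16805656) (c (l 16805008) (b (l 16801592) (l 16802280)))))) (a (l 16814296) (l 16798792))) (c (l 16817960) (l 16799472)))) (a (l 16817416) (c (l 16821400)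 (l 16803256)))))), by decide +kernel⟩

def k16_A00pm_123_s3 : ∃ t, chk3 f_A00pm_123_s3 t 30 15 1 = true :=
  ⟨(c (a (b (a (l 16944728) (l 16933384)) (l 16924848)) (b (a (l 16880152) (b (l 16825840) (l 16829352))) (b (l 16909968) (l 16919496)))) (a (b (b (l 16844608) (a (l 16937512) (l 16885624))) (b (l 16838008) (l 16847880))) (b (a (b (l 16829024) (l 16875440)) (b (l 16818728) (l 16865112))) (a (l 16906544) (b (l 16862256) (l 16823152)))))), by decide +kernel⟩

def k17_A00pm_123_s3 : ∃ t, chk3 f_A00pm_123_s3 t 62 6 1 = true :=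
  ⟨(b (l 4) (b (a (b (l 4) (a (c (l 540309519) (c (l 540046095) (l 540838159))) (l 4))) (l 4)) (a (b (a (a (b (l 539970831) (l 539981839)) (b (l 539962383) (l 539973903))) (c (l 541922319) (b (l 540986127) (c (l 539798031) (l 540323599))))) (a (c (c (l 541144335) (l 541524751)) (a (b (l 539662095) (l 539671567)) (b (l 539662351) (l 539672591)))) (c (a (l 540631567) (l 541148943)) (a (b (l 539662863) (l 539673871)) (b (l 539663375) (l 539674639)))))) (b (l 4) (a (c (a (l 541396495) (l 541374223)) (a (b (l 539663375) (l 539675151)) (b (l 4) (l 539675151)))) (a (b (l 4) (c (l 540288015) (l 539942671))) (l 4))))))), by decide +kernel⟩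

def k18_A00pm_123_s3 : ∃ t, chk3 f_A00pm_123_s3 t 124 14 1 = true :=
  ⟨(b (b (a (c (b (l 540423439) (l 16791544)) (a (b (l 539683343) (l 16793776)) (b (l 539685135) (c (l 16792360) (l 16790792))))) (a (c (c (l 16786240) (l 541553679)) (b (l 539686927) (c (l 16789968) (l 16788680)))) (c (b (l 540380687) (l 16784232)) (b (l 539957007) (c (l 16787568) (l 540101647)))))) (c (a (c (l 16803584) (l 16795216)) (b (c (l 16795328) (l 16788056)) (l 16792328))) (a (b (a (l 16796472) (l 16794216)) (a (l 16799128) (l 16796832))) (c (a (l 16791520) (c (l 16792096) (l 16788680))) (b (a (l 16791184) (l 16789032)) (a (l 16793632) (l 16791456))))))) (b (c (a (b (a (a (l 16809312) (l 16807744)) (l 16805384)) (l 16809768)) (b (l 16790344) (a (b (l 16804760) (l 16806080)) (b (l 16801696) (l 16803184))))) (a (b (b (a (a (l 16801616) (l 16800512)) (l 16798768)) (c (a (l 16803920) (l 16801352)) (a (b (a (l 16801248) (l 16800136)) (l 16801288)) (b (l 16798496) (a (l 16799664) (l 16798536))))))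 (a (l 16804160) (b (c (l 16802744) (b (l 16799752) (l 16800288))) (l 16802440)))) (c (b (l 16796976) (a (b (b (l 16799864) (l 16800576)) (l 16801456)) (b (l 16797712) (a (l 16799656) (l 16798328))))) (a (b (l 16796024) (b (b (c (l 16798016) (l 16796928)) (a (l 16798672) (l 16797520))) (l 16798976))) (b (l 16793824) (b (l 16795576) (b (a (a (l 16797296) (l 16796704)) (l 16795864)) (a (l 16797560) (a (l 16796760) (l 16796168)))))))))) (c (a (l 16812896) (l 16807232)) (a (l 16806520) (b (c (l 16801880) (l 16799504)) (l 16802832)))))), by decide +kernel⟩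

def k19_A00pm_123_s3 : ∃ t, chk3 f_A00pm_123_s3 t 125 28 1 = true :=
  ⟨(b (a (b (c (l 541953295) (a (l 540494863) (l 540763919))) (a (c (l 540390159) (c (l 539857167) (l 540375311))) (c (l 540368143) (c (l 539854095) (l 540916751))))) (a (b (c (l 540313871) (c (l 539828751) (l 540367887))) (c (l 540344079) (c (l 540118287) (l 540921103)))) (b (c (l 540286991) (c (l 539822351) (l 540638735))) (c (l 540317199) (c (l 540380687) (l 540924175)))))) (a (b (a (c (l 16784592) (b (l 539721487) (l 539732495))) (c (l 540402703) (b (l 539723535) (l 540271631)))) (a (c (l 16793032) (c (l 16790584) (l 16789264))) (a (b (l 540066831) (l 539815183)) (b (l 540062991) (l 540079887))))) (b (a (a (b (l 540027919) (l 540042767)) (b (l 540023055) (l 540037903))) (c (l 541157391) (a (l 540806159) (l 541074447)))) (c (a (l 541492495) (l 541734415)) (a (c (l 541513231) (a (l 16785384) (c (l 16784432) (l 16784104)))) (a (b (l 539751439) (l 539765519)) (b (l 539751695) (l 539766031)))))))),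 by decide +kernel⟩

def k20_A00pm_123_s3 : ∃ t, chk3 f_A00pm_123_s3 t 125 58 1 = true :=
  ⟨(c (a (a (b (l 16796176) (l 16799224)) (b (l 16793088) (l 16796136))) (b (a (l 16784776) (b (l 16783640) (l 16787704))) (a (l 16792984) (c (l 16790544) (l 16789200))))) (c (a (b (a (l 16793200) (l 16790672)) (a (l 16795728) (l 16793216))) (b (a (l 16788136) (b (l 16782352) (l 16786208))) (a (l 16790632) (c (l 16788304) (l 16787760))))) (c (a (a (b (l 16791976) (a (l 16794872) (l 16793760))) (b (l 16789664) (l 16792000))) (b (a (l 16787344) (b (l 16784432) (l 16785568))) (a (l 16789640) (c (l 16787376) (l 16787136))))) (b (a (a (l 16791248) (l 16789072)) (a (b (l 16786320) (l 16787424)) (a (l 16785208) (l 16784088)))) (a (a (a (l 16793984) (l 16792936)) (l 16791272)) (a (c (l 16789192) (l 16788904)) (b (l 16786264) (l 16787320)))))))), by decide +kernel⟩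

def k21_A00pm_123_s3 : ∃ t, chk3 f_A00pm_123_s3 t 125 59 2 = true :=
  ⟨(b (a (a (b (l 16801536) (l 16802560)) (b (l 16798320) (l 16799800))) (a (a (l 16793976) (l 16795120)) (l 16792696))) (a (l 16802584) (b (a (c (l 16799144) (l 16796872)) (a (l 16795520) (l 16793968))) (a (l 16798800) (a (l 16796704) (l 16795248)))))), by decide +kernel⟩

def k22_A00pm_123_s3 : ∃ t, chk3 f_A00pm_123_s3 t 125 59 3 = true :=
  ⟨(a (b (b (a (c (a (l 16798352) (l 16797040)) (c (a (l 16796704) (b (l 16795184) (l 16795816))) (a (b (b (l 16795288) (l 16795568)) (l 16795952)) (b (l 16794280) (b (l 16794736) (l 16794976)))))) (a (a (b (l 16794800) (b (l 16795232) (l 16795536))) (l 16794456)) (l 16793560))) (a (l 16797656) (c (a (l 16796960) (b (l 16795352) (l 16795968))) (a (b (c (l 16795192) (l 16794304)) (l 16795216)) (b (a (a (l 16793992) (l 16793688)) (l 16793240)) (l 16794112)))))) (b (l 16797496) (l 16798504))) (b (c (a (a (b (l 16793144) (l 16794296)) (l 16792424)) (l 16790424))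 (c (a (a (b (l 16791936) (b (l 16792784) (l 16793304))) (l 16791288)) (l 16789456)) (c (a (a (b (l 16791392) (b (l 16792200) (a (l 16793016) (l 16792408)))) (l 16790768)) (b (l 16788504) (l 16789544))) (a (a (b (l 16791048) (b (l 16791832) (a (b (l 16792488) (l 16792776)) (l 16792040)))) (l 16790448)) (b (l 16788240) (l 16789256)))))) (a (b (b (c (a (l 16795224) (l 16793896)) (a (l 16793464) (a (b (l 16792424) (l 16792712)) (a (l 16792104) (l 16791816))))) (c (l 16795096) (a (l 16793912) (l 16792792)))) (l 16794864)) (a (c (b (b (l 16792576) (l 16793128)) (l 16793896)) (b (b (l 16791080) (a (b (l 16791760) (l 16792032)) (a (b (l 16791320) (l 16791576)) (l 16791128)))) (b (l 16792096) (l 16792528)))) (c (b (l 16791504) (b (l 16792328) (l 16792864))) (b (l 16790136) (b (c (a (l 16791560) (l 16790896)) (a (b (c (l 16790896) (l 16790568)) (l 16790992)) (a (b (l 16790304) (l 16790544)) (l 16790104)))) (l 16791384)))))))), by decide +kernel⟩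

def k23_A00pm_123_s3 : ∃ t, chk3 f_A00pm_123_s3 t 62 15 1 = true :=
  ⟨(b (a (b (c (l 16814032) (l 16803264)) (l 16815056)) (b (a (b (l 16802064) (l 16803896)) (b (c (l 16798624) (a (l 16796248) (l 16793768))) (l 16798384))) (a (l 16806416) (l 16800664)))) (b (b (a (l 16847608) (a (l 16808336) (l 16802760))) (a (l 16810088) (a (l 16805264) (l 16822440)))) (a (c (l 16817936) (l 16854704)) (c (l 16847552) (a (l 16846696) (l 16830808)))))), by decide +kernel⟩

def k24_A00pm_123_s3 : ∃ t, chk3 f_A00pm_123_s3 t 126 6 1 = true :=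
  ⟨(l 4), by decide +kernel⟩

def k25_A00pm_123_s3 : ∃ t, chk3 f_A00pm_123_s3 t 126 28 1 = true :=
  ⟨(a (b (a (b (l 4) (a (c (l 540298511) (l 539976975)) (l 4))) (l 4)) (a (c (b (l 541395471) (c (l 541344783) (l 541537295))) (b (a (l 541073935) (l 541072655)) (a (c (l 540433935) (l 541241359)) (a (l 541101327) (l 541101071))))) (b (a (c (l 540301071) (l 541070863)) (l 4)) (b (a (l 540021519) (l 540012303)) (a (l 540039695) (l 540299279)))))) (b (l 4) (a (b (l 4) (a (b (l 4) (a (l 540024591) (l 540019215))) (l 4))) (l 4)))), by decide +kernel⟩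

def k26_A00pm_123_s3 : ∃ t, chk3 f_A00pm_123_s3 t 126 58 1 = true :=
  ⟨(a (b (b (a (c (l 540665103) (a (l 539781647) (l 539781135))) (a (c (l 540377615) (l 539780623)) (b (l 540045583) (l 540058639)))) (c (a (l 541232655) (l 541738767)) (a (a (l 540069647) (l 540338703)) (a (c (l 539939343) (l 539942927)) (l 540606735))))) (c (a (a (l 16787512) (l 16783344)) (b (l 542039055) (a (l 16785096) (l 16783544)))) (a (a (b (l 16785088) (l 16786216)) (b (c (l 16784184) (l 16783560)) (l 16784968))) (a (b (c (l 16782880) (l 16782384)) (c (l 16784032) (l 16783432))) (a (b (l 539825679) (l 16782776)) (b (l 539825167) (l 16782144))))))) (a (b (a (b (c (l 540341263) (c (l 539905551) (l 539925775))) (a (l 540073487) (l 540067855))) (b (c (l 540317967) (l 540040975)) (c (l 540349711) (l 540600079)))) (a (b (a (l 540101135) (l 540095503)) (c (l 540440079) (c (l 540249359) (l 541329679)))) (a (b (l 540089359) (l 540118287)) (b (l 540082703) (l 540111631))))) (b (a (b (l 4)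 (c (l 540323087) (l 540593423))) (l 4)) (a (a (b (l 540075279) (l 540104463)) (b (l 540067343) (l 540364815))) (a (b (l 540058383) (l 540356111)) (b (l 4) (l 540614927))))))), by decide +kernel⟩

def k27_A00pm_123_s3 : ∃ t, chk3 f_A00pm_123_s3 t 126 59 1 = true :=
  ⟨(a (c (a (a (b (l 16790280) (b (l 16792320) (l 16793536))) (b (l 16788672) (l 16791320))) (b (a (l 16787064) (l 16782848)) (b (l 16788200) (l 16789464)))) (c (a (a (b (l 16788416) (b (l 16790136) (b (l 16790984) (l 16791504)))) (b (l 16787072) (l 16789312))) (b (a (l 16785720) (c (l 16784544) (l 16784208))) (b (l 16786696) (l 16787776)))) (c (a (a (b (l 16787616) (b (l 16789208) (b (l 16789984) (a (l 16790808) (l 16790144))))) (b (l 16786384) (l 16788456))) (b (a (l 16785144) (l 16783896)) (b (l 16786048) (l 16787048)))) (b (a (a (l 16787136) (l 16785968)) (a (l 16784792) (b (l 16783120) (l 16784088)))) (c (a (b (l 16788176) (a (b (l 16789528) (a (b (l 16790184) (l 16790448)) (l 16789680))) (l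 16788552))) (a (l 16786840) (l 16785616))) (a (a (b (l 16788512) (b (l 16789240) (a (b (a (l 16790040) (l 16789728)) (l 16790136)) (b (l 16789304) (a (l 16789680) (l 16789376)))))) (b (l 16787336) (l 16788288))) (b (a (l 16786152) (l 16784960)) (a (l 16787096) (l 16785896))))))))) (a (a (b (a (c (l 16784280) (b (l 16782568) (l 16783600))) (c (l 16780872) (b (l 16781928) (l 16782960)))) (c (l 16783736) (c (l 16785144) (a (l 16784768) (l 16784144))))) (b (b (c (l 540452367) (a (l 540138255) (l 540136207))) (c (l 16780304) (a (l 16782312) (l 16781656)))) (b (a (c (l 16784536) (l 16783312)) (l 14)) (l 14)))) (b (a (a (b (c (l 540435983) (l 540133647)) (c (l 16781744) (l 541233935))) (b (c (l 540422159) (l 540130319)) (c (l 16780960) (l 540962575)))) (b (a (l 541460495) (l 541450767)) (a (c (l 540444687) (l 540958991)) (l 14)))) (l 14)))), by decide +kernel⟩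

def k28_A00pm_123_s3 : ∃ t, chk3 f_A00pm_123_s3 t 252 30 1 = true :=
  ⟨(b (c (b (b (b (a (a (l 16794480) (l 16792872)) (l 16790400)) (a (l 16794200) (a (l 16791800) (l 16790168)))) (a (l 16794688) (a (l 16792600) (a (l 16791440) (l 16790552))))) (l 16794296)) (b (c (a (b (a (l 16792248) (b (a (l 16791024) (l 16790296)) (l 16791184))) (l 16792384)) (b (a (b (l 16789280) (a (l 16790144) (l 16789416))) (l 16788128)) (a (l 16790520) (a (b (l 16789232) (l 16789664)) (b (l 16788528) (l 16789048)))))) (a (b (a (a (l 16791128) (b (l 16790352) (l 16790744))) (b (a (a (b (l 16789760) (l 16789984)) (b (l 16789448) (l 16789704))) (a (b (l 16789144) (l 16789376)) (l 16788952))) (a (l 16790152) (a (l 16789704) (b (l 16789320) (l 16789512)))))) (l 16791072)) (b (b (a (l 16788168) (l 16786904)) (a (a (a (b (l 16788984) (l 16789224)) (b (l 16788688) (a (l 16789008) (l 16788840)))) (c (l 16788560) (l 16788040))) (l 16787376))) (b (a (a (l 16789368) (a (l 16788936) (b (a (l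 16788608) (l 16788440)) (l 16788720)))) (a (b (l 16788024) (a (l 16788440) (a (l 16788192) (l 16788024)))) (l 16787504))) (a (l 16789464) (a (l 16788560) (b (c (l 16788104) (a (l 16787784) (l 16787448))) (l 16788064)))))))) (a (l 16792896) (b (l 16789976) (l 16790720))))) (b (l 16789056) (l 16795600))), by decide +kernel⟩

def k29_A00pm_123_s3 : ∃ t, chk3 f_A00pm_123_s3 t 253 30 1 = true :=
  ⟨(b (c (a (a (b (c (l 16794416) (b (l 16787648) (l 16788664))) (b (b (l 16790168) (l 16790472)) (l 16790952))) (l 14)) (l 14)) (a (b (a (a (b (l 16786608) (c (l 16788000) (b (l 16786872) (a (b (l 16787376) (a (l 16787688) (l 16787520))) (l 16787136))))) (b (l 16785936) (l 16786888))) (l 14)) (a (b (b (a (c (l 16788768) (l 16787752)) (c (l 16788080) (b (a (a (l 16787256) (l 16787080)) (l 16786840)) (c (l 16787472) (a (l 16787136) (l 16786856)))))) (l 16788264)) (l 16788792)) (l 14))) (l 14))) (a (a (b (l 16790792) (l 16791992)) (l 14)) (l 14))), by decide +kernel⟩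

def k30_A00pm_123_s3 : ∃ t, chk3 f_A00pm_123_s3 t 126 31 1 = true :=
  ⟨(a (c (b (l 16817928) (l 16838064)) (b (b (l 16795712) (l 16816840)) (a (l 16816232) (l 16818752)))) (a (a (b (l 16803560) (c (l 16834088) (l 16811456))) (b (l 14) (l 14))) (l 14))), by decide +kernel⟩

def k31_A00pm_123_s3 : ∃ t, chk3 f_A00pm_123_s3 t 127 3 1 = true :=
  ⟨(a (b (l 4) (b (b (l 4) (b (a (b (l 4) (a (b (l 4) (b (l 4) (l 541407503))) (l 4))) (l 4)) (a (b (b (a (a (l 541171727) (l 541159951)) (l 4)) (l 14)) (l 14)) (l 14)))) (l 14))) (b (l 4) (b (l 4) (l 14)))), by decide +kernel⟩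

theorem t32_A00pm_123_s3 : ∃ t, chk3 f_A00pm_123_s3 t 126 30 1 = true := ex3_a k28_A00pm_123_s3 k29_A00pm_123_s3

theorem t33_A00pm_123_s3 : ∃ t, chk3 f_A00pm_123_s3 t 126 15 1 = true := ex3_b t32_A00pm_123_s3 k30_A00pm_123_s3

theorem t34_A00pm_123_s3 : ∃ t, chk3 f_A00pm_123_s3 t 126 29 1 = true := ex3_b k26_A00pm_123_s3 k27_A00pm_123_s3

theorem t35_A00pm_123_s3 : ∃ t, chk3 f_A00pm_123_s3 t 126 14 1 = true := ex3_b k25_A00pm_123_s3 t34_A00pm_123_s3

theorem t36_A00pm_123_s3 : ∃ t, chk3 f_A00pm_123_s3 t 126 7 1 = true := ex3_b t35_A00pm_123_s3 t33_A00pm_123_s3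

theorem t37_A00pm_123_s3 : ∃ t, chk3 f_A00pm_123_s3 t 126 3 1 = true := ex3_b k24_A00pm_123_s3 t36_A00pm_123_s3

theorem t38_A00pm_123_s3 : ∃ t, chk3 f_A00pm_123_s3 t 63 3 1 = true := ex3_a t37_A00pm_123_s3 k31_A00pm_123_s3

theorem t39_A00pm_123_s3 : ∃ t, chk3 f_A00pm_123_s3 t 125 59 1 = true := ex3_c k21_A00pm_123_s3 k22_A00pm_123_s3

theorem t40_A00pm_123_s3 : ∃ t, chk3 f_A00pm_123_s3 t 125 29 1 = true := ex3_b k20_A00pm_123_s3 t39_A00pm_123_s3

theorem t41_A00pm_123_s3 : ∃ t, chk3 f_A00pm_123_s3 t 125 14 1 = true := ex3_b k19_A00pm_123_s3 t40_A00pm_123_s3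

theorem t42_A00pm_123_s3 : ∃ t, chk3 f_A00pm_123_s3 t 62 14 1 = true := ex3_a k18_A00pm_123_s3 t41_A00pm_123_s3

theorem t43_A00pm_123_s3 : ∃ t, chk3 f_A00pm_123_s3 t 62 7 1 = true := ex3_b t42_A00pm_123_s3 k23_A00pm_123_s3

theorem t44_A00pm_123_s3 : ∃ t, chk3 f_A00pm_123_s3 t 62 3 1 = true := ex3_b k17_A00pm_123_s3 t43_A00pm_123_s3

theorem t45_A00pm_123_s3 : ∃ t, chk3 f_A00pm_123_s3 t 31 3 1 = true := ex3_a t44_A00pm_123_s3 t38_A00pm_123_s3

theorem t46_A00pm_123_s3 : ∃ t, chk3 f_A00pm_123_s3 t 30 7 1 = true := ex3_b k15_A00pm_123_s3 k16_A00pm_123_s3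

theorem t47_A00pm_123_s3 : ∃ t, chk3 f_A00pm_123_s3 t 30 6 1 = true := ex3_b k13_A00pm_123_s3 k14_A00pm_123_s3

theorem t48_A00pm_123_s3 : ∃ t, chk3 f_A00pm_123_s3 t 30 3 1 = true := ex3_b t47_A00pm_123_s3 t46_A00pm_123_s3

theorem t49_A00pm_123_s3 : ∃ t, chk3 f_A00pm_123_s3 t 15 3 1 = true := ex3_a t48_A00pm_123_s3 t45_A00pm_123_s3

theorem t50_A00pm_123_s3 : ∃ t, chk3 f_A00pm_123_s3 t 15 1 1 = true := ex3_b k12_A00pm_123_s3 t49_A00pm_123_s3

theorem t51_A00pm_123_s3 : ∃ t, chk3 f_A00pm_123_s3 t 29 3 1 = true := ex3_b k10_A00pm_123_s3 k11_A00pm_123_s3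

theorem t52_A00pm_123_s3 : ∃ t, chk3 f_A00pm_123_s3 t 29 1 1 = true := ex3_b k9_A00pm_123_s3 t51_A00pm_123_s3

theorem t53_A00pm_123_s3 : ∃ t, chk3 f_A00pm_123_s3 t 28 1 1 = true := ex3_b k7_A00pm_123_s3 k8_A00pm_123_s3

theorem t54_A00pm_123_s3 : ∃ t, chk3 f_A00pm_123_s3 t 14 1 1 = true := ex3_a t53_A00pm_123_s3 t52_A00pm_123_s3

theorem t55_A00pm_123_s3 : ∃ t, chk3 f_A00pm_123_s3 t 7 1 1 = true := ex3_a t54_A00pm_123_s3 t50_A00pm_123_s3

theorem t56_A00pm_123_s3 : ∃ t, chk3 f_A00pm_123_s3 t 6 6 1 = true := ex3_a k4_A00pm_123_s3 k5_A00pm_123_s3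

theorem t57_A00pm_123_s3 : ∃ t, chk3 f_A00pm_123_s3 t 6 3 1 = true := ex3_b t56_A00pm_123_s3 k6_A00pm_123_s3

theorem t58_A00pm_123_s3 : ∃ t, chk3 f_A00pm_123_s3 t 6 5 1 = true := ex3_a k2_A00pm_123_s3 k3_A00pm_123_s3

theorem t59_A00pm_123_s3 : ∃ t, chk3 f_A00pm_123_s3 t 6 2 1 = true := ex3_b k1_A00pm_123_s3 t58_A00pm_123_s3

theorem t60_A00pm_123_s3 : ∃ t, chk3 f_A00pm_123_s3 t 6 1 1 = true := ex3_b t59_A00pm_123_s3 t57_A00pm_123_s3

theorem t61_A00pm_123_s3 : ∃ t, chk3 f_A00pm_123_s3 t 3 1 1 = true := ex3_a t60_A00pm_123_s3 t55_A00pm_123_s3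

theorem t62_A00pm_123_s3 : ∃ t, chk3 f_A00pm_123_s3 t 1 1 1 = true := ex3_a k0_A00pm_123_s3 t61_A00pm_123_s3

theorem c_A00pm_123_s3 : CertF 536870912 536870912 0 536870912 201326592 134217728 true true false .npn 1 2 3
    ndF0q1 ndF0q2 pcF3 cut_A00pm_123_s3 xt_A00pm_123_s3 :=
  certFK2 (fam := true) (s1 := true) (s2 := false) (a := 1) (b := 2) (c := 3) (cn := .npn) (n1 := ndF0q1) (n2 := ndF0q2) (pc := pcF3) (cut := cut_A00pm_123_s3) (xt := xt_A00pm_123_s3) (P1 := 536870912) (W1 := 536870912) (P2 := 0) (W2 := 536870912) (P3 := 201326592) (W3 := 134217728)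
    rfl rfl rfl (fun _ => rfl) t62_A00pm_123_s3

theorem s_A00pm_123_s3 {κ x : ℝ} (hκ : κ * h0 = ken x) (hx : ((201326592 : ℕ) : ℝ) / S ≤ x)
    (hx' : x ≤ (((201326592 : ℕ) : ℝ) + (134217728 : ℕ)) / S)
    (H : CutA (VF κ) PP tKF tL pcF (Cut.of [[⟨0, 1, 0, 57167902⟩, ⟨1, 1, 0, 57167902⟩, ⟨2, 2, 0, 11758673⟩]]) 1 2 3 0 0 (sgb true) (sgb false) x) :
    AltA (VF κ) PP tKF tL pcF [⟨4, 0, 0, 2845415833⟩] 1 2 3 0 0 (sgb true) (sgb false) x :=
  strip_altA (m := 2845415833) false rfl hκ covF01 covF02 hx hx' c_A00pm_123_s3 H ((okx hx hx').extA (T := tt) (sideF hx hx') hκ rfl rfl (.O 1 true) (.O 2 false) (Or.inr rfl))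

noncomputable def cut_A00pm_202_s1 : Cut := Cut.of [[⟨4, 0, 0, 1449551462⟩], [⟨0, 1, 0, 67108864⟩, ⟨1, 0, 0, 67108864⟩, ⟨2, 1, 0, 67108864⟩], [⟨0, 1, 0, 16777216⟩, ⟨1, 0, 1, 67108864⟩, ⟨2, 1, 1, 67108864⟩]]

noncomputable def f_A00pm_202_s1 : ℕ → ℕ → ℕ → ℕ → Bool := onCell 0 536870912 1073741824 536870912 201326592 134217728
    (rowFK 1 true true false .pp 2 0 2 (qsf 0 536870912 0 536870912 2) ndF0q2 ndF0q0 pcF2 cut_A00pm_202_s1 Ext.none)

def k0_A00pm_202_s1 : ∃ t, chk3 f_A00pm_202_s1 t 2 1 1 = true :=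
  ⟨(b (b (b (l 1) (l 6)) (l 6)) (l 6)), by decide +kernel⟩

def k1_A00pm_202_s1 : ∃ t, chk3 f_A00pm_202_s1 t 6 2 1 = true :=
  ⟨(b (a (b (l 1) (b (l 1) (l 6))) (b (l 1) (a (b (b (l 1) (b (a (l 1) (l 16618752)) (a (c (l 16600744) (l 16599008)) (l 16625640)))) (b (a (c (l 16598432) (c (l 16599312) (l 16604936))) (b (l 16611200) (l 16588392))) (l 6))) (b (b (b (l 1) (a (l 16636912) (c (l 16642576) (l 16639992)))) (a (b (l 16644296) (l 16609376)) (c (l 16642104) (l 16641840)))) (b (c (a (l 16641800) (l 16633816)) (b (l 16623560) (l 16605304))) (b (c (l 16613432) (l 16608360)) (c (l 16660040) (l 16653296)))))))) (b (b (b (a (l 6) (a (l 6) (b (c (l 16704464) (l 16696736)) (l 6)))) (l 6)) (l 6)) (l 6))), by decide +kernel⟩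

def k2_A00pm_202_s1 : ∃ t, chk3 f_A00pm_202_s1 t 14 4 1 = true :=
  ⟨(b (b (l 1) (a (a (l 1) (b (l 1) (b (l 1) (a (l 16674600) (l 16676616))))) (b (l 14) (b (l 14) (b (l 14) (a (l 16676392) (l 16679840))))))) (b (a (b (b (a (c (l 16660232) (l 16657224)) (l 16684016)) (a (l 16666792) (l 16671120))) (c (a (l 16646312) (c (l 16655728) (l 16633968))) (l 16654736))) (c (b (a (c (l 16681664) (l 16681680)) (b (l 16712216) (l 16705360))) (a (a (l 16645192) (l 16694432)) (c (l 16674928) (l 16704688)))) (b (a (l 16681472) (l 16685592)) (a (l 16646608) (l 16681328))))) (b (c (a (a (l 16646768) (a (l 16635504) (l 16641992))) (a (a (l 16648512) (l 16665576)) (b (l 16685648) (l 16665704)))) (a (b (l 16648792) (l 16629184)) (a (l 16646768) (l 16659200)))) (c (a (b (l 16658080) (c (l 16684288) (l 16680328))) (b (a (l 16654888) (l 16667072)) (a (l 16657096) (l 16710536)))) (b (a (l 16630864) (l 16674432)) (a (l 16674496) (a (l 16648392) (l 16659160)))))))), by decide +kernel⟩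

def k3_A00pm_202_s1 : ∃ t, chk3 f_A00pm_202_s1 t 15 8 1 = true :=
  ⟨(a (b (l 14) (b (l 14) (b (l 14) (a (c (l 16706480) (l 16686040)) (a (l 16715072) (l 16713032)))))) (b (l 14) (a (b (l 14) (b (l 14) (a (l 16721496) (a (l 16717368) (l 16732088))))) (b (l 14) (b (l 14) (b (l 14) (b (l 14) (b (l 14) (a (l 16736880) (a (c (l 16735104) (l 16730160)) (c (a (l 16738360) (c (l 16741840) (l 16739200))) (l 16739400)))))))))))), by decide +kernel⟩

def k4_A00pm_202_s1 : ∃ t, chk3 f_A00pm_202_s1 t 15 18 1 = true :=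
  ⟨(a (a (b (c (b (l 16701400) (l 16700384)) (l 16693592)) (c (a (l 16674768) (l 16682280)) (l 16695216))) (b (c (b (l 16707728) (l 16706024)) (c (l 16714880) (l 16713336))) (c (c (a (l 16691120) (l 16698808)) (l 16713216)) (l 16709216)))) (a (c (a (b (b (l 16709888) (l 16707664)) (c (l 16717000) (l 16703400))) (b (b (l 16718352) (l 16715784)) (b (l 16713568) (l 16722184)))) (b (b (l 16731160) (l 16727816)) (a (l 16698768) (l 16705800)))) (a (c (b (b (c (l 16728040) (l 16725600)) (c (l 16725360) (l 16722472))) (c (b (l 16723048) (l 16721112)) (b (l 16719656) (l 16717176)))) (b (b (l 16721904) (l 16718096)) (b (l 16714544) (l 16711256)))) (a (b (b (c (c (l 16734512) (l 16731840)) (l 16727768)) (c (c (l 16731576) (l 16728464)) (l 16723728))) (c (c (b (l 16729000) (l 16726792)) (b (l 16725400) (l 16722656))) (b (l 16719936) (l 16716416)))) (c (a (b (c (b (l 16737752) (l 16734688)) (b (l 16734968) (l 16731464))) (b (c (l 16731984) (l 16728272)) (c (l 16729640)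 (l 16725408)))) (b (b (b (c (b (l 16746432) (l 16740336)) (l 16737992)) (c (a (l 16738560) (l 16739632)) (l 16736128))) (b (c (l 16737520) (l 16734336)) (c (l 16736032) (l 16732624)))) (b (b (b (l 16738432) (l 16737696)) (c (l 16733336) (l 16729424))) (b (c (l 16732120) (l 16727952)) (c (l 16731000) (l 16726552)))))) (b (b (a (l 16735944) (b (a (l 16733264) (l 16739496)) (l 16736824))) (c (a (l 16728192) (l 16730112)) (l 16725800))) (b (c (a (l 16724528) (l 16726360)) (l 16721616)) (c (a (l 16721136) (l 16722896)) (l 16717680))))))))), by decide +kernel⟩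

def k5_A00pm_202_s1 : ∃ t, chk3 f_A00pm_202_s1 t 15 38 1 = true :=
  ⟨(a (c (a (c (b (l 16680136) (l 16680760)) (l 16676880)) (c (b (c (l 16716288) (l 16693480)) (l 16694280)) (b (l 16690744) (l 16690008)))) (a (c (l 16673464) (l 16670104)) (c (l 16707360) (l 16682536)))) (a (c (c (b (a (l 16705136) (c (l 16713400) (l 16711264))) (a (l 16704464) (l 16711288))) (b (a (l 16701120) (l 16708064)) (l 16724120))) (b (c (l 16700488) (l 16696392)) (a (l 16692984) (l 16699200)))) (c (a (c (b (b (l 16719920) (l 16724464)) (c (l 16719384) (l 16716840))) (b (l 16715024) (l 16713024))) (c (b (a (b (l 16725392) (l 16729800)) (b (a (l 16728136) (l 16729960)) (b (l 16728360) (b (l 16728024) (l 16727760))))) (b (a (l 16723664) (c (l 16728440) (l 16725824))) (a (l 16722840) (c (a (l 16726728) (l 16728432)) (l 16724832))))) (a (b (l 16720248) (l 16717976)) (b (b (l 16729600) (b (l 16723448) (l 16728080))) (a (l 16720448) (b (l 16727968) (l 16721512))))))) (a (b (b (l 16708984)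 (l 16707552)) (l 16715904)) (b (b (a (l 16713960) (c (l 16719640) (l 16714904))) (a (l 16717648) (b (a (l 16715232) (l 16727344)) (c (l 16717776) (l 16712696))))) (b (a (l 16710848) (c (l 16721872) (l 16711360))) (a (l 16709352) (c (l 16715184) (l 16709656))))))))), by decide +kernel⟩

def k6_A00pm_202_s1 : ∃ t, chk3 f_A00pm_202_s1 t 15 39 1 = true :=
  ⟨(a (c (b (a (l 16679480) (c (l 16694480) (l 16689576))) (a (l 16701272) (b (l 16692232) (l 16692448)))) (b (a (l 16670640) (l 16682304)) (a (l 16670080) (l 16702072)))) (a (b (c (c (a (l 16704096) (l 16710520)) (l 16701984)) (a (l 16691088) (l 16696960))) (c (a (b (l 16701248) (l 16701192)) (b (l 16707280) (l 16707040))) (b (l 16692720) (l 16712896)))) (c (a (c (b (c (l 16718376) (l 16715544)) (b (l 16716384) (l 16716112))) (b (l 16711304) (b (l 16710272) (l 16709688)))) (b (b (c (a (l 16722112) (c (a (l 16726000) (l 16727648)) (l 16723936))) (a (l 16716448) (l 16724848))) (c (a (l 16721496) (c (b (l 16726328)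 (l 16726032)) (l 16723152))) (a (l 16715536) (l 16723848)))) (b (c (a (l 16720984) (c (b (l 16725768) (l 16730768)) (l 16722464))) (a (l 16714736) (c (l 16719288) (l 16716120)))) (c (a (l 16731048) (c (a (l 16724448) (b (l 16726064) (l 16725872))) (a (l 16721136) (l 16727856)))) (a (l 16714008) (c (l 16718560) (l 16715232))))))) (a (b (c (l 16705664) (l 16700032)) (b (l 16701152) (l 16700104))) (a (b (c (l 16710160) (l 16704352)) (b (l 16705368) (l 16714688))) (b (c (b (l 16713816) (l 16712544)) (l 16717720)) (c (b (l 16711352) (l 16710256)) (b (l 16705008) (l 16703616))))))))), by decide +kernel⟩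

def k7_A00pm_202_s1 : ∃ t, chk3 f_A00pm_202_s1 t 7 40 1 = true :=
  ⟨(a (a (b (c (l 16683864) (l 16675040)) (c (l 16682496) (l 16715360))) (b (a (l 16695024) (c (l 16669016) (l 16658504))) (a (l 16693336) (l 16703856)))) (a (a (c (b (l 16701240) (l 16678592)) (b (l 16668952) (l 16666648))) (c (b (b (l 16692208) (l 16691336)) (l 16710840)) (b (l 16721448) (l 16677016)))) (a (c (b (a (l 16721168) (b (l 16706504) (l 16705544))) (a (l 16698352) (l 16725024))) (b (b (l 16711880) (l 16689552)) (a (l 16684832) (l 16690080)))) (a (c (b (b (c (l 16715584) (l 16708896)) (l 16721744)) (b (l 16731296) (l 16719904))) (b (b (l 16698912) (l 16697488)) (a (l 16694032) (l 16717656)))) (c (a (b (b (c (l 16719960) (l 16713136)) (c (l 16719088) (l 16712032))) (b (c (l 16718272) (l 16710992)) (c (l 16717504) (l 16709984)))) (c (a (b (b (c (l 16723872) (l 16720424)) (l 16721280)) (b (l 16720480) (l 16719720))) (b (b (b (b (l 16729216) (l 16723752)) (l 16728656)) (b (l 16728232)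 (l 16727816))) (b (a (l 16721584) (b (l 16722536) (l 16727392))) (c (b (l 16723304) (l 16722976)) (l 16719288))))) (a (b (b (l 16715256) (l 16714160)) (b (l 16713112) (l 16712120))) (b (b (c (l 16718416) (l 16714944)) (l 16715576)) (b (l 16714536) (l 16713544)))))) (a (b (b (l 16702920) (l 16701472)) (c (l 16703024) (l 16695648))) (b (b (c (l 16709064) (l 16702152)) (c (l 16707720) (l 16700576))) (c (b (l 16706440) (l 16705200)) (l 16708736))))))))), by decide +kernel⟩

def k8_A00pm_202_s1 : ∃ t, chk3 f_A00pm_202_s1 t 14 41 1 = true :=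
  ⟨(a (c (b (l 16680896) (b (l 16637128) (b (l 16635792) (l 16676584)))) (b (l 16671624) (b (l 16627840) (b (l 16626600) (l 16667496))))) (c (b (a (l 16654848) (l 16665760)) (b (l 16679680) (b (l 16678528) (a (l 16734784) (l 16704000))))) (b (a (l 16644280) (l 16654232)) (a (b (l 16642376) (b (l 16641176) (l 16640192))) (b (l 16652296) (b (l 16651128) (l 16692128))))))), by decide +kernel⟩

def k9_A00pm_202_s1 : ∃ t, chk3 f_A00pm_202_s1 t 30 41 1 = true :=
  ⟨(c (b (a (l 16676872) (l 16719568)) (b (a (l 16675264) (l 16686608)) (b (a (l 16674256) (l 16685712)) (a (l 16694392) (a (l 16703032) (l 16708880)))))) (b (a (l 16664344) (l 16716520)) (b (a (l 16662376) (l 16672616)) (b (a (l 16661240) (l 16671528)) (a (l 16702296) (a (l 16710016) (l 16715248))))))), by decide +kernel⟩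

def k10_A00pm_202_s1 : ∃ t, chk3 f_A00pm_202_s1 t 31 41 4 = true :=
  ⟨(a (b (a (l 16700200) (l 16727016)) (b (l 16722888) (a (b (l 16698200) (l 16718592)) (b (l 16704264) (b (b (b (l 16703904) (l 16724792)) (l 16703720)) (l 16703608)))))) (b (b (a (l 16712328) (a (l 16716776) (a (l 16719016) (b (c (l 16722656) (l 16718728)) (c (l 22) (l 16718360)))))) (a (l 16711600) (c (a (l 16718096) (l 22)) (a (l 16714104) (b (l 16717264) (l 16722160)))))) (a (b (l 16721416) (b (b (l 16710424) (l 16710248)) (b (b (b (l 16710096) (b (l 16710048) (l 16720496))) (l 16709952)) (l 16709848)))) (b (c (l 22) (a (l 16723928) (b (a (l 16715832) (l 16717344)) (b (l 16716344) (l 16716184))))) (a (c (l 22) (b (b (l 16712960) (l 16712800)) (b (b (b (l 16712672) (b (l 16712632) (l 16723088))) (l 16712544)) (l 16712440)))) (b (c (l 22) (b (l 16721280) (b (l 16715912) (l 16721088)))) (a (b (b (b (l 16717144) (b (l 16717112) (b (b (l 16717096) (c (l 22) (l 16714944))) (l 16717080)))) (l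 16717048)) (l 16716952)) (a (b (b (b (l 16718328) (b (l 16723544) (b (b (l 16718288) (c (l 22) (l 16716120))) (l 16718280)))) (l 16718240)) (l 16718152)) (c (l 22) (c (l 22) (b (b (b (l 16715864) (b (l 16715840) (b (b (l 16715824) (l 16721056)) (l 16715808)))) (l 16715768)) (l 16715656)))))))))))), by decide +kernel⟩

def k11_A00pm_202_s1 : ∃ t, chk3 f_A00pm_202_s1 t 31 41 5 = true :=
  ⟨(a (b (a (l 16693040) (l 16698632)) (b (l 16715328) (b (l 16714528) (a (l 16710984) (b (b (b (l 16696016) (l 16695928)) (l 16695808)) (l 16695656)))))) (b (a (b (l 16704768) (l 16703816)) (a (b (l 16709032) (l 16708120)) (b (a (l 16711176) (l 16717848)) (b (l 16711216) (l 16721264))))) (a (b (l 16702928) (b (l 16712720) (b (b (b (l 16701880) (b (l 16701824) (l 16701784))) (l 16701712)) (l 16701560)))) (b (a (l 16717760) (b (l 16715600) (a (l 16709216) (l 16715936)))) (a (b (b (l 16706688) (l 16706488)) (b (b (b (l 16706328) (b (l 16706280) (l 16716728))) (l 16706176)) (l 16706032)))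 (b (b (l 16720128) (b (l 16709488) (l 16719880))) (b (b (b (l 16709312) (b (l 16719760) (b (b (l 16709256) (a (l 16708496) (c (l 16712168) (l 16707832)))) (l 16709240)))) (l 16709184)) (l 16709040)))))))), by decide +kernel⟩

def k12_A00pm_202_s1 : ∃ t, chk3 f_A00pm_202_s1 t 31 41 3 = true :=
  ⟨(b (a (a (l 16682328) (l 16708512)) (a (b (l 16693448) (l 16692168)) (a (b (l 16697416) (l 16696152)) (b (c (l 16704016) (l 16696144)) (c (l 16702880) (l 16694760)))))) (c (a (b (l 16686792) (b (l 16706832) (a (l 16703368) (a (l 16707480) (a (l 16709552) (l 16710936)))))) (b (a (l 16694936) (b (l 16700672) (l 16710624))) (a (b (l 16694080) (b (b (b (l 16693672) (b (l 16693608) (l 16693560))) (l 16693472)) (l 16693280))) (a (b (l 16708728) (b (b (b (l 16697872) (b (l 16697816) (l 16697776))) (l 16697688)) (l 16697496))) (b (b (l 16701120) (l 16700872)) (b (b (b (l 16700688) (b (l 16700640) (a (l 16699896) (c (l 16708728) (l 16699144))))) (l 16700528)) (l 16700336)))))))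 (a (b (l 16679240) (b (l 16678168) (a (l 16695752) (a (l 16699632) (l 16702232))))) (b (a (l 16686944) (a (l 16690840) (l 16693456))) (b (a (l 16685928) (a (l 16689848) (l 16702968))) (b (b (b (l 16698608) (a (l 16706344) (b (l 16690680) (l 16701128)))) (l 16687904)) (l 16687664))))))), by decide +kernel⟩

def k13_A00pm_202_s1 : ∃ t, chk3 f_A00pm_202_s1 t 14 21 1 = true :=
  ⟨(a (b (l 6) (l 6)) (b (a (b (l 16644088) (l 16642608)) (c (l 16680128) (l 16647000))) (a (l 6) (c (l 16656184) (l 16643408))))), by decide +kernel⟩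

def k14_A00pm_202_s1 : ∃ t, chk3 f_A00pm_202_s1 t 15 21 1 = true :=
  ⟨(a (a (c (b (l 16691688) (l 16667936)) (b (l 16699136) (l 16653488))) (c (b (b (l 16683744) (l 16682432)) (a (l 16676984) (l 16683128))) (b (b (l 16669064) (l 16667096)) (l 16684848)))) (a (c (b (a (b (l 16692672) (l 16691448)) (b (l 16698728) (l 16697568))) (a (l 16710344) (b (l 16696536) (l 16695616)))) (b (b (l 16700648) (l 16698648)) (b (l 16696768) (l 16694992)))) (a (c (c (b (b (l 16719600) (l 16708264)) (l 22)) (b (b (l 16700584) (l 16699280)) (b (l 16698136) (l 16697168)))) (b (b (l 16708760) (l 16706752)) (b (l 16704920) (l 16703248)))) (c (a (c (b (b (a (l 16713104) (l 16719944)) (l 22)) (l 22)) (b (b (l 16705096) (l 16703840)) (b (l 16702784) (l 16701936)))) (a (c (b (b (b (l 16716624) (l 22)) (l 22)) (l 22)) (b (b (b (l 16707808) (l 16707128)) (c (l 16708504) (l 16703784))) (b (c (l 16707624) (l 16702640)) (c (l 22) (l 16701720))))) (b (c (b (b (b (c (l 22) (l 16716152)) (l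 22)) (l 22)) (l 22)) (b (a (b (l 16708944) (l 16708272)) (b (l 16709704) (l 16714280))) (b (b (l 16708208) (l 16718400)) (b (l 16712880) (l 16712624))))) (c (l 22) (c (b (b (l 16709480) (l 22)) (l 22)) (b (b (l 16704504) (l 16704000)) (b (l 16703560) (l 16703176)))))))) (a (b (b (c (l 16696296) (l 16687496)) (c (l 16694544) (l 16685248))) (b (c (l 16692992) (l 16683200)) (c (l 16691640) (l 16681336)))) (c (a (b (b (l 16698440) (l 16696696)) (b (l 16695176) (l 16693864))) (b (b (c (l 16702128) (l 16697616)) (c (l 16700528) (l 16695752))) (b (c (l 16699152) (l 16694112)) (c (l 16698000) (l 16692696))))) (b (b (l 16690168) (l 16687920)) (b (l 16685880) (l 16684056))))))))), by decide +kernel⟩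

def k15_A00pm_202_s1 : ∃ t, chk3 f_A00pm_202_s1 t 7 11 1 = true :=
  ⟨(a (l 6) (a (b (b (a (c (l 16664760) (l 16649552)) (c (a (l 16674320) (l 16680840)) (l 16702176))) (l 6)) (l 6)) (a (b (c (b (a (l 16708440) (b (l 16694824) (l 16694200))) (a (l 16696576) (l 22))) (b (b (l 16693312) (l 16691776)) (b (l 16690384) (l 6)))) (l 6)) (b (a (c (b (c (l 22) (b (l 16696368) (l 16695784))) (l 22)) (b (b (c (l 16685976) (l 16675552)) (c (l 16684912) (l 16674008))) (b (c (l 16684064) (l 16672656)) (c (l 16683408) (l 16671496))))) (a (c (b (b (c (l 22) (l 16711784)) (l 22)) (l 22)) (b (b (c (l 16690488) (l 16679672)) (c (l 16689568) (l 16678224))) (b (c (l 16688880) (l 16677000)) (c (l 16688416) (l 16675992))))) (c (c (l 22) (c (l 22) (b (b (a (l 16701032) (b (l 16702856) (l 22))) (l 22)) (l 22)))) (c (a (b (b (l 16692768) (l 16691920)) (b (l 16701800) (c (l 22) (l 16687784)))) (c (b (b (a (l 16696696) (l 16702728)) (b (l 16696608) (l 16696336))) (b (b (l 16696128) (l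 22)) (l 22))) (b (b (l 16691512) (l 16690568)) (b (l 16695120) (b (l 16689552) (l 16689392)))))) (b (b (l 16692936) (a (l 16680360) (l 16681784))) (b (a (l 16679192) (l 16691152)) (b (l 16679264) (l 16678872)))))))) (b (b (b (a (l 6) (a (l 6) (c (l 22) (c (c (l 22) (l 16693696)) (l 16689032))))) (l 6)) (l 6)) (l 6)))))), by decide +kernel⟩

def k16_A00pm_202_s1 : ∃ t, chk3 f_A00pm_202_s1 t 3 3 1 = true :=
  ⟨(l 6), by decide +kernel⟩

theorem t17_A00pm_202_s1 : ∃ t, chk3 f_A00pm_202_s1 t 7 21 1 = true := ex3_a k13_A00pm_202_s1 k14_A00pm_202_s1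

theorem t18_A00pm_202_s1 : ∃ t, chk3 f_A00pm_202_s1 t 31 41 2 = true := ex3_c k10_A00pm_202_s1 k11_A00pm_202_s1

theorem t19_A00pm_202_s1 : ∃ t, chk3 f_A00pm_202_s1 t 31 41 1 = true := ex3_c t18_A00pm_202_s1 k12_A00pm_202_s1

theorem t20_A00pm_202_s1 : ∃ t, chk3 f_A00pm_202_s1 t 15 41 1 = true := ex3_a k9_A00pm_202_s1 t19_A00pm_202_s1

theorem t21_A00pm_202_s1 : ∃ t, chk3 f_A00pm_202_s1 t 7 41 1 = true := ex3_a k8_A00pm_202_s1 t20_A00pm_202_s1

theorem t22_A00pm_202_s1 : ∃ t, chk3 f_A00pm_202_s1 t 7 20 1 = true := ex3_b k7_A00pm_202_s1 t21_A00pm_202_s1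

theorem t23_A00pm_202_s1 : ∃ t, chk3 f_A00pm_202_s1 t 7 10 1 = true := ex3_b t22_A00pm_202_s1 t17_A00pm_202_s1

theorem t24_A00pm_202_s1 : ∃ t, chk3 f_A00pm_202_s1 t 7 5 1 = true := ex3_b t23_A00pm_202_s1 k15_A00pm_202_s1

theorem t25_A00pm_202_s1 : ∃ t, chk3 f_A00pm_202_s1 t 15 19 1 = true := ex3_b k5_A00pm_202_s1 k6_A00pm_202_s1

theorem t26_A00pm_202_s1 : ∃ t, chk3 f_A00pm_202_s1 t 15 9 1 = true := ex3_b k4_A00pm_202_s1 t25_A00pm_202_s1

theorem t27_A00pm_202_s1 : ∃ t, chk3 f_A00pm_202_s1 t 15 4 1 = true := ex3_b k3_A00pm_202_s1 t26_A00pm_202_s1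

theorem t28_A00pm_202_s1 : ∃ t, chk3 f_A00pm_202_s1 t 7 4 1 = true := ex3_a k2_A00pm_202_s1 t27_A00pm_202_s1

theorem t29_A00pm_202_s1 : ∃ t, chk3 f_A00pm_202_s1 t 7 2 1 = true := ex3_b t28_A00pm_202_s1 t24_A00pm_202_s1

theorem t30_A00pm_202_s1 : ∃ t, chk3 f_A00pm_202_s1 t 3 2 1 = true := ex3_a k1_A00pm_202_s1 t29_A00pm_202_s1

theorem t31_A00pm_202_s1 : ∃ t, chk3 f_A00pm_202_s1 t 3 1 1 = true := ex3_b t30_A00pm_202_s1 k16_A00pm_202_s1

theorem t32_A00pm_202_s1 : ∃ t, chk3 f_A00pm_202_s1 t 1 1 1 = true := ex3_a k0_A00pm_202_s1 t31_A00pm_202_s1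

theorem c_A00pm_202_s1 : CertF 0 536870912 0 536870912 201326592 134217728 true true false .pp 2 0 2
    ndF0q2 ndF0q0 pcF2 cut_A00pm_202_s1 Ext.none :=
  certFK1 (fam := true) (s1 := true) (s2 := false) (a := 2) (b := 0) (c := 2) (cn := .pp) (n1 := ndF0q2) (n2 := ndF0q0) (pc := pcF2) (cut := cut_A00pm_202_s1) (xt := Ext.none) (P1 := 0) (W1 := 536870912) (P2 := 0) (W2 := 536870912) (P3 := 201326592) (W3 := 134217728)
    rfl rfl rfl (fun _ => rfl) t32_A00pm_202_s1

theorem s_A00pm_202_s1 {κ x : ℝ} (hκ : κ * h0 = ken x) (hx : ((201326592 : ℕ) : ℝ) / S ≤ x)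
    (hx' : x ≤ (((201326592 : ℕ) : ℝ) + (134217728 : ℕ)) / S)
    (H : CutA (VF κ) PP tKF tL pcF (Cut.of [[⟨0, 1, 0, 67108864⟩, ⟨1, 0, 0, 67108864⟩, ⟨2, 1, 0, 67108864⟩], [⟨0, 1, 0, 16777216⟩, ⟨1, 0, 1, 67108864⟩, ⟨2, 1, 1, 67108864⟩]]) 2 0 2 0 0 (sgb true) (sgb false) x) :
    AltA (VF κ) PP tKF tL pcF [⟨3, 0, 0, 1449551462⟩] 2 0 2 0 0 (sgb true) (sgb false) x :=
  strip_altA (m := 1449551462) true rfl hκ covF02 covF00 hx hx' c_A00pm_202_s1 H (noExt_A)

noncomputable def cut_A00pm_202_s3 : Cut := Cut.of [[⟨3, 0, 0, 2845415833⟩], [⟨0, 1, 0, 67108864⟩, ⟨1, 0, 0, 67108864⟩, ⟨2, 1, 0, 67108864⟩], [⟨0, 1, 0, 16777216⟩, ⟨1, 0, 1, 67108864⟩, ⟨2, 1, 1, 67108864⟩]]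

noncomputable def f_A00pm_202_s3 : ℕ → ℕ → ℕ → ℕ → Bool := onCell 0 536870912 1073741824 536870912 201326592 134217728
    (rowFK 1 true true false .pp 2 0 2 (qsf 0 536870912 0 536870912 2) ndF0q2 ndF0q0 pcF2 cut_A00pm_202_s3 Ext.none)

def k0_A00pm_202_s3 : ∃ t, chk3 f_A00pm_202_s3 t 1 1 1 = true :=
  ⟨(a (b (l 6) (l 6)) (l 6)), by decide +kernel⟩

theorem c_A00pm_202_s3 : CertF 0 536870912 0 536870912 201326592 134217728 true true false .pp 2 0 2
    ndF0q2 ndF0q0 pcF2 cut_A00pm_202_s3 Ext.none :=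
  certFK1 (fam := true) (s1 := true) (s2 := false) (a := 2) (b := 0) (c := 2) (cn := .pp) (n1 := ndF0q2) (n2 := ndF0q0) (pc := pcF2) (cut := cut_A00pm_202_s3) (xt := Ext.none) (P1 := 0) (W1 := 536870912) (P2 := 0) (W2 := 536870912) (P3 := 201326592) (W3 := 134217728)
    rfl rfl rfl (fun _ => rfl) k0_A00pm_202_s3

theorem s_A00pm_202_s3 {κ x : ℝ} (hκ : κ * h0 = ken x) (hx : ((201326592 : ℕ) : ℝ) / S ≤ x)
    (hx' : x ≤ (((201326592 : ℕ) : ℝ) + (134217728 : ℕ)) / S)
    (H : CutA (VF κ) PP tKF tL pcF (Cut.of [[⟨0, 1, 0, 67108864⟩, ⟨1, 0, 0, 67108864⟩, ⟨2, 1, 0, 67108864⟩], [⟨0, 1, 0, 16777216⟩, ⟨1, 0, 1, 67108864⟩, ⟨2, 1, 1, 67108864⟩]]) 2 0 2 0 0 (sgb true) (sgb false) x) :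
    AltA (VF κ) PP tKF tL pcF [⟨4, 0, 0, 2845415833⟩] 2 0 2 0 0 (sgb true) (sgb false) x :=
  strip_altA (m := 2845415833) false rfl hκ covF02 covF00 hx hx' c_A00pm_202_s3 H (noExt_A)

noncomputable def cut_A00pm_203_s1 : Cut := Cut.of [[⟨4, 0, 0, 1449551462⟩]]

noncomputable def f_A00pm_203_s1 : ℕ → ℕ → ℕ → ℕ → Bool := onCell 0 536870912 1610612736 536870912 201326592 134217728
    (rowFK 1 true true false .up 2 0 3 (qsf 0 536870912 0 536870912 3) ndF0q2 ndF0q0 pcF3 cut_A00pm_203_s1 Ext.none)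

def k0_A00pm_203_s1 : ∃ t, chk3 f_A00pm_203_s1 t 1 1 1 = true :=
  ⟨(l 6), by decide +kernel⟩

theorem c_A00pm_203_s1 : CertF 0 536870912 0 536870912 201326592 134217728 true true false .up 2 0 3
    ndF0q2 ndF0q0 pcF3 cut_A00pm_203_s1 Ext.none :=
  certFK1 (fam := true) (s1 := true) (s2 := false) (a := 2) (b := 0) (c := 3) (cn := .up) (n1 := ndF0q2) (n2 := ndF0q0) (pc := pcF3) (cut := cut_A00pm_203_s1) (xt := Ext.none) (P1 := 0) (W1 := 536870912) (P2 := 0) (W2 := 536870912) (P3 := 201326592) (W3 := 134217728)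
    rfl rfl rfl (fun _ => rfl) k0_A00pm_203_s1

theorem s_A00pm_203_s1 {κ x : ℝ} (hκ : κ * h0 = ken x) (hx : ((201326592 : ℕ) : ℝ) / S ≤ x)
    (hx' : x ≤ (((201326592 : ℕ) : ℝ) + (134217728 : ℕ)) / S) :
    AltA (VF κ) PP tKF tL pcF [⟨3, 0, 0, 1449551462⟩] 2 0 3 0 0 (sgb true) (sgb false) x :=
  strip_altA (m := 1449551462) true rfl hκ covF02 covF00 hx hx' c_A00pm_203_s1 cutA_nil (noExt_A)

noncomputable def cut_A00pm_203_s3 : Cut := Cut.of [[⟨3, 0, 0, 2845415833⟩]]

noncomputable def xt_A00pm_203_s3 : Ext := strExt dd true true false .u2 .u0m .s2m .up 2 0 3 rfl rfl gl3 vv ndF0q2 ndF0q0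

noncomputable def f_A00pm_203_s3 : ℕ → ℕ → ℕ → ℕ → Bool := onCell 0 536870912 0 536870912 201326592 134217728
    (rowFK 0 true true false .up 2 0 3 (qsf 0 536870912 0 536870912 3) ndF0q2 ndF0q0 pcF3 cut_A00pm_203_s3 xt_A00pm_203_s3)

def k0_A00pm_203_s3 : ∃ t, chk3 f_A00pm_203_s3 t 1 1 1 = true :=
  ⟨(a (b (l 1) (b (a (a (a (b (l 1) (b (l 1) (b (l 6) (c (l 17121360) (l 16951336))))) (l 6)) (l 6)) (l 6)) (a (a (b (a (b (c (l 17082248) (l 16938880)) (c (l 17029536) (l 16918624))) (b (l 6) (c (l 17073288) (l 16941728)))) (b (c (a (l 16977072) (l 17020008)) (a (l 16894968) (l 16919416))) (c (b (l 541620239) (l 541550351)) (l 541104399)))) (b (l 6) (a (b (b (l 17005080) (l 16987048)) (b (l 16969168) (l 16951592))) (b (l 6) (b (l 17002408) (l 16985160)))))) (b (l 6) (l 6))))) (l 6)), by decide +kernel⟩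

theorem c_A00pm_203_s3 : CertF 0 536870912 0 536870912 201326592 134217728 true true false .up 2 0 3
    ndF0q2 ndF0q0 pcF3 cut_A00pm_203_s3 xt_A00pm_203_s3 :=
  certFK0 (fam := true) (s1 := true) (s2 := false) (a := 2) (b := 0) (c := 3) (cn := .up) (n1 := ndF0q2) (n2 := ndF0q0) (pc := pcF3) (cut := cut_A00pm_203_s3) (xt := xt_A00pm_203_s3) (P1 := 0) (W1 := 536870912) (P2 := 0) (W2 := 536870912) (P3 := 201326592) (W3 := 134217728)
    rfl rfl rfl k0_A00pm_203_s3

theorem s_A00pm_203_s3 {κ x : ℝ} (hκ : κ * h0 = ken x) (hx : ((201326592 : ℕ) : ℝ) / S ≤ x)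
    (hx' : x ≤ (((201326592 : ℕ) : ℝ) + (134217728 : ℕ)) / S) :
    AltA (VF κ) PP tKF tL pcF [⟨4, 0, 0, 2845415833⟩] 2 0 3 0 0 (sgb true) (sgb false) x :=
  strip_altA (m := 2845415833) false rfl hκ covF02 covF00 hx hx' c_A00pm_203_s3 cutA_nil ((okx hx hx').extA (T := tt) (sideF hx hx') hκ rfl rfl (.O 2 true) (.O 0 false) (Or.inr rfl))

noncomputable def cut_A00pm_213_s1 : Cut := Cut.of [[⟨4, 0, 0, 1449551462⟩], [⟨0, 1, 0, 57167902⟩, ⟨1, 1, 0, 57167902⟩, ⟨2, 2, 0, 11758673⟩]]

noncomputable def f_A00pm_213_s1 : ℕ → ℕ → ℕ → ℕ → Bool := onCell 0 536870912 536870912 536870912 201326592 134217728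
    (rowFK 0 true true false .pnn 2 1 3 (qsf 0 536870912 536870912 536870912 3) ndF0q2 ndF0q1 pcF3 cut_A00pm_213_s1 Ext.none)

def k0_A00pm_213_s1 : ∃ t, chk3 f_A00pm_213_s1 t 1 1 1 = true :=
  ⟨(l 6), by decide +kernel⟩

theorem c_A00pm_213_s1 : CertF 0 536870912 536870912 536870912 201326592 134217728 true true false .pnn 2 1 3
    ndF0q2 ndF0q1 pcF3 cut_A00pm_213_s1 Ext.none :=
  certFK0 (fam := true) (s1 := true) (s2 := false) (a := 2) (b := 1) (c := 3) (cn := .pnn) (n1 := ndF0q2) (n2 := ndF0q1) (pc := pcF3) (cut := cut_A00pm_213_s1) (xt := Ext.none) (P1 := 0) (W1 := 536870912) (P2 := 536870912) (W2 := 536870912) (P3 := 201326592) (W3 := 134217728)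
    rfl rfl rfl k0_A00pm_213_s1

theorem s_A00pm_213_s1 {κ x : ℝ} (hκ : κ * h0 = ken x) (hx : ((201326592 : ℕ) : ℝ) / S ≤ x)
    (hx' : x ≤ (((201326592 : ℕ) : ℝ) + (134217728 : ℕ)) / S)
    (H : CutA (VF κ) PP tKF tL pcF (Cut.of [[⟨0, 1, 0, 57167902⟩, ⟨1, 1, 0, 57167902⟩, ⟨2, 2, 0, 11758673⟩]]) 2 1 3 0 0 (sgb true) (sgb false) x) :
    AltA (VF κ) PP tKF tL pcF [⟨3, 0, 0, 1449551462⟩] 2 1 3 0 0 (sgb true) (sgb false) x :=
  strip_altA (m := 1449551462) true rfl hκ covF02 covF01 hx hx' c_A00pm_213_s1 H (noExt_A)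

end Pool.Agent.Strip051.G.I3_16_5_16.Tab.St.C
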