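import Pool.Agent.Strip051.G.I3_16_5_16.StF

/-! # Unit strips 5 (generated) -/

set_option linter.all false
set_option maxRecDepth 100000

namespace Pool.Agent.Strip051.G.I3_16_5_16.Tab.St.C

open Pool.Agent.Strip051.PB Pool.Agent.Strip051.PB.T Pool.Agent.StripNear Pool.Agent.Strip051.LC
open Pool.Agent.Strip051.G.I3_16_5_16.Tab Pool.Agent.Strip051.G.I3_16_5_16.Tab.St

noncomputable def cut_A00pm_213_s3 : Cut := Cut.of [[⟨3, 0, 0, 2845415833⟩], [⟨0, 1, 0, 57167902⟩, ⟨1, 1, 0, 57167902⟩, ⟨2, 2, 0, 11758673⟩]]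

noncomputable def xt_A00pm_213_s3 : Ext := strExt dd true true false .u2 .u0m .s2m .pnn 2 1 3 rfl rfl gl3 vv ndF0q2 ndF0q1

noncomputable def f_A00pm_213_s3 : ℕ → ℕ → ℕ → ℕ → Bool := onCell 0 536870912 1610612736 536870912 201326592 134217728
    (rowFK 1 true true false .pnn 2 1 3 (qsf 0 536870912 536870912 536870912 3) ndF0q2 ndF0q1 pcF3 cut_A00pm_213_s3 xt_A00pm_213_s3)

def k0_A00pm_213_s3 : ∃ t, chk3 f_A00pm_213_s3 t 1 2 1 = true :=
  ⟨(a (b (a (l 1) (l 6)) (b (a (a (b (b (l 1) (a (l 540582415) (l 16936528))) (b (a (l 540561167) (l 540498447)) (l 540516623))) (a (b (b (l 1) (l 16945896)) (b (l 16928880) (l 540445455))) (b (b (l 1) (l 16975896)) (b (l 16959208) (l 16942560))))) (a (a (b (b (l 6) (l 17006032)) (b (l 16989688) (l 16973280))) (b (l 6) (b (l 6) (l 17003088)))) (l 6))) (a (a (b (a (l 540530703) (l 540476687)) (a (l 540495119) (l 540447759))) (a (b (c (l 541320463) (l 539781647)) (c (a (l 541246991) (l 541251855))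 (a (l 539805967) (l 539806735)))) (b (c (b (l 16963488) (l 16941288)) (b (l 16898008) (l 16885016))) (c (b (l 16919304) (l 16897552)) (b (l 16871688) (c (l 16865664) (l 16852200))))))) (a (a (b (b (l 16956616) (c (l 16980424) (l 16910200))) (b (a (l 16915072) (l 16930480)) (c (l 16936072) (l 16883432)))) (b (b (l 16986568) (a (l 16962536) (l 16977032))) (b (c (l 16996232) (l 16921432)) (c (l 16973792) (l 16907904))))) (b (a (a (b (l 6) (l 16991056)) (l 6)) (l 6)) (c (a (b (a (l 17023400) (l 17041152)) (l 17009344)) (b (l 17061352) (a (l 17034496) (l 17047688)))) (a (b (b (l 16947672) (l 16940960)) (l 16930768)) (b (l 16987680) (a (l 16947384) (l 16958656)))))))))) (b (l 6) (b (l 6) (a (l 6) (l 6))))), by decide +kernel⟩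

def k1_A00pm_213_s3 : ∃ t, chk3 f_A00pm_213_s3 t 4 6 1 = true :=
  ⟨(b (a (a (b (l 540450063) (l 4)) (a (b (l 540419599) (l 4)) (b (b (l 540410639) (l 540390159)) (b (b (l 540373263) (l 540363791)) (l 4))))) (a (a (b (b (l 540398095) (a (l 540380943) (l 540385807))) (b (c (c (l 541535247) (l 540714511)) (b (l 539811343) (l 539811599))) (c (l 541119759) (l 539844367)))) (b (b (c (l 541202191) (l 539819023)) (c (l 541175311) (l 539828239))) (b (b (l 540409359) (l 540421647)) (l 540438031)))) (b (b (a (c (l 16866712) (l 539836687)) (c (l 16885640) (l 16850696))) (a (c (l 541221903) (l 539852815)) (c (l 16843344) (l 539876367)))) (b (c (a (l 541228303) (l 541281039)) (a (l 539878671) (l 539904783))) (c (a (l 541234959) (l 541285391)) (a (l 539906319) (l 539930639))))))) (a (l 4) (b (a (a (l 4) (b (b (l 540449807) (l 4)) (l 4))) (a (c (b (l 541229839) (b (l 541213711) (l 4))) (b (c (l 540188431) (l 539715343)) (b (l 539938063) (l 4))))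 (b (b (a (l 540514063) (l 540525583)) (l 540515599)) (c (b (l 541241871) (l 541220623)) (b (l 539945487) (l 539944463)))))) (a (l 4) (l 4))))), by decide +kernel⟩

def k2_A00pm_213_s3 : ∃ t, chk3 f_A00pm_213_s3 t 5 12 1 = true :=
  ⟨(b (c (b (a (a (l 16914168) (l 16951464)) (a (a (l 16978000) (l 16995224)) (a (b (l 17017960) (l 17006256)) (b (l 17032128) (l 17021480))))) (a (a (a (l 16883088) (l 16901992)) (a (l 16920416) (l 16938200))) (a (a (l 16955400) (l 16972160)) (a (l 16988664) (a (l 17001008) (b (l 17014088) (l 17002672))))))) (a (a (a (b (l 16863328) (l 16849312)) (b (l 16875896) (l 16861848))) (b (l 16904520) (a (l 16874032) (l 16885752)))) (a (b (b (l 16920368) (l 16913336)) (b (l 16906184) (l 16898920))) (b (a (b (l 16936856) (l 16929720)) (b (l 16947864) (l 16940568))) (a (l 16918808) (b (l 16954160) (l 16946608))))))) (c (a (a (a (b (l 541327887) (l 541327375)) (b (l 541371407) (b (l 16863592) (l 16852376)))) (c (b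 (l 16921056) (a (l 16885880) (l 16904616))) (b (l 16894256) (a (l 16866128) (l 16881272))))) (a (a (b (l 16921840) (c (l 16922648) (l 16895800))) (c (b (l 16967656) (l 16940152)) (b (l 16931488) (l 16909872)))) (b (a (b (l 16970624) (l 16958312)) (b (l 16986328) (l 16973704))) (a (b (l 16945808) (l 16933208)) (b (l 16960928) (l 16948032)))))) (c (a (a (a (b (l 16840280) (l 540219151)) (b (l 16853840) (l 540237839))) (b (l 16873408) (a (l 16850648) (l 16863056)))) (a (a (b (l 16891872) (l 16874960)) (b (l 16903656) (l 16886488))) (b (b (l 16925072) (l 16916432)) (a (l 16897728) (l 16908696))))) (a (a (a (b (l 16830984) (l 539729423)) (b (l 16842464) (l 539741711))) (a (b (l 16853680) (l 16839808)) (b (l 16864440) (l 16850408)))) (a (b (l 16900856) (a (l 16860616) (l 16870544))) (b (b (l 16903224) (l 16896024)) (a (l 16880248) (l 16889728)))))))), by decide +kernel⟩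

def k3_A00pm_213_s3 : ∃ t, chk3 f_A00pm_213_s3 t 10 13 1 = true :=
  ⟨(b (a (a (b (b (l 540542223) (a (l 540531983) (l 540542991))) (c (b (l 541277455) (l 541255695)) (b (l 539958543) (l 539957519)))) (b (c (b (l 541348111) (l 541330447)) (b (l 539969295) (l 539970319))) (c (b (l 541310223) (l 541277199)) (b (l 539969807) (l 539963663))))) (a (b (c (b (l 16858240) (l 16836208)) (b (l 16833144) (l 539964943))) (b (c (l 541306127) (l 539961359)) (c (l 541272847) (l 539954447)))) (b (c (b (l 16874656) (l 16862840)) (b (l 16844376) (l 16836528))) (b (c (l 16840568) (l 539938063)) (c (l 541231631) (l 539926287)))))) (a (a (b (c (l 541216015) (l 539952911)) (l 4)) (b (c (b (l 541256463) (l 541226255)) (b (l 539962639) (l 539958031))) (a (b (l 540223759) (l 4)) (l 540438543)))) (b (a (b (c (l 541230351) (l 539943183)) (b (l 540474639) (l 540452111))) (b (c (l 541175567) (l 539908111)) (c (l 541104911) (l 539882511)))) (a (b (l 540420367)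 (l 540379151)) (b (l 540101391) (a (l 540342287) (l 540318223))))))), by decide +kernel⟩

def k4_A00pm_213_s3 : ∃ t, chk3 f_A00pm_213_s3 t 11 13 1 = true :=
  ⟨(b (a (c (b (a (b (l 16890408) (l 16878320)) (b (l 16905680) (l 16893296))) (a (b (l 16866240) (l 16854192)) (b (l 16880920) (l 16868520)))) (b (a (b (l 16855152) (l 16847208)) (b (l 16865608) (l 16857560))) (a (b (l 16839216) (l 540162831)) (b (l 16849464) (l 16841296))))) (c (b (a (b (l 16920560) (l 16907880)) (b (l 16935080) (l 16922096))) (a (b (l 16895192) (l 16882504)) (b (l 16909048) (l 16896120)))) (b (a (b (l 16875808) (l 16867648)) (b (l 16885744) (l 16877480))) (a (b (l 16859440) (l 16851168)) (b (l 16869128) (l 16860776)))))) (a (b (a (b (c (l 541118991) (l 539872271)) (a (l 540375311) (l 540354063))) (c (b (l 16856280) (l 16833816)) (b (l 539843343) (l 539819279)))) (a (b (a (l 540334607) (l 540314383)) (a (a (l 540301071) (l 540290063)) (l 540276495))) (c (b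 (l 540943631) (l 540885263)) (b (l 539797263) (l 539776783))))) (a (b (c (b (l 16869992) (l 16857864)) (b (l 16842920) (l 540068367))) (c (b (l 16846128) (l 540860943)) (b (l 539780367) (l 539762447)))) (b (c (b (l 16883424) (l 16871136)) (b (l 16852472) (l 16844288))) (b (c (l 16859216) (l 16836232)) (c (l 16847624) (l 539751951))))))), by decide +kernel⟩

def k5_A00pm_213_s3 : ∃ t, chk3 f_A00pm_213_s3 t 6 12 1 = true :=
  ⟨(a (b (a (c (b (l 17044624) (a (b (l 17022976) (l 17011808)) (l 17028568))) (b (l 16961032) (a (b (l 16944144) (l 16936264)) (l 16951160)))) (b (l 6) (a (l 16995752) (l 6)))) (c (a (b (a (b (a (l 16997464) (l 17003344)) (a (l 16985152) (l 16991512))) (l 17005496)) (a (b (a (l 16972080) (a (l 16977672) (l 16980952))) (l 16962560)) (a (b (l 16985088) (b (l 16975928) (l 16974920))) (l 16984168)))) (b (l 17020944) (a (l 16991624) (l 17001384)))) (b (a (a (b (a (l 16925600) (l 16930928)) (a (l 16917592) (l 16922656)))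 (l 16934784)) (l 16950568)) (a (a (b (c (l 16923992) (l 16902744)) (l 16903696)) (b (l 16922088) (a (c (l 16922632) (l 16901936)) (l 16916048)))) (a (l 16928072) (l 16938288)))))) (b (l 6) (b (a (a (l 16997424) (l 6)) (l 6)) (a (a (l 16976112) (l 16986392)) (l 17001848))))), by decide +kernel⟩

def k6_A00pm_213_s3 : ∃ t, chk3 f_A00pm_213_s3 t 12 13 1 = true :=
  ⟨(a (c (a (b (b (b (l 16949304) (l 16935992)) (b (l 16922640) (l 16909456))) (b (b (l 16896624) (l 16884160)) (b (l 16872056) (l 16860280)))) (b (b (b (a (b (l 16963216) (l 16956448)) (a (l 16964432) (l 16967040))) (a (l 16946232) (a (l 16951376) (l 16954344)))) (b (l 16936024) (l 16922656))) (b (b (l 16909656) (l 16897008)) (b (l 16884712) (l 16872720))))) (b (c (b (a (l 16900944) (a (b (l 16913304) (l 16903848)) (b (l 16918368) (l 16908832)))) (b (l 16891872) (l 16882512))) (b (a (l 16883616) (b (a (l 16894112) (l 16898624)) (l 16888448))) (b (l 16876248) (l 16868432))))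 (b (a (b (l 16861760) (l 16853528)) (b (l 16870776) (l 16862480))) (a (b (l 16845400) (l 16837392)) (b (l 16854304) (l 16846216)))))) (b (c (a (b (b (l 16973008) (l 16960480)) (a (b (a (l 16944176) (l 16946840)) (l 16932528)) (b (l 16950456) (l 16938112)))) (b (l 16976176) (l 16951320))) (b (a (c (l 16921208) (l 16901584)) (l 16920240)) (a (b (c (l 16906632) (l 16889200)) (a (l 16885848) (l 16890424))) (l 16902144)))) (c (b (a (b (a (l 16919384) (l 16925696)) (l 16909736)) (a (b (l 16930960) (l 16918920)) (l 16929760))) (a (b (l 16897224) (l 16884992)) (b (a (l 16906600) (l 16912192)) (l 16897160)))) (a (b (b (c (l 16887792) (l 16873144)) (l 16871184)) (c (l 16865040) (l 16853832))) (a (b (b (l 16886392) (l 16877712)) (b (l 16869272) (l 16861016))) (b (l 16886760) (b (l 16873640) (l 16865128)))))))), by decide +kernel⟩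

def k7_A00pm_213_s3 : ∃ t, chk3 f_A00pm_213_s3 t 13 13 1 = true :=
  ⟨(a (b (b (a (l 16954592) (l 16964584)) (c (l 16965296) (l 16916816))) (b (a (c (l 16936704) (l 16893920)) (l 16880256)) (b (c (l 16923704) (l 16885192)) (a (c (l 16907672) (l 16871728)) (l 16896512))))) (b (c (l 16996024) (b (l 16955488) (l 16936672))) (a (b (l 16931920) (l 16868976)) (c (l 16951808) (l 16892192))))), by decide +kernel⟩

def k8_A00pm_213_s3 : ∃ t, chk3 f_A00pm_213_s3 t 7 6 1 = true :=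
  ⟨(b (l 6) (c (b (a (a (l 17014432) (l 17113776)) (l 6)) (a (a (l 16964624) (l 17064344)) (a (l 17140664) (l 16925848)))) (b (b (a (a (l 16976560) (l 6)) (l 6)) (a (a (l 16957096) (l 16977672)) (l 6))) (b (a (a (l 16937416) (l 16957512)) (a (l 17043736) (l 6))) (a (a (l 16917704) (l 16937048)) (a (l 17067712) (l 16913688))))))), by decide +kernel⟩

def k9_A00pm_213_s3 : ∃ t, chk3 f_A00pm_213_s3 t 2 28 1 = true :=
  ⟨(a (l 4) (a (a (l 4) (b (a (b (l 540339215) (l 4)) (c (b (a (l 540927759) (l 540899599)) (l 540853007)) (b (l 539808527) (l 539785231)))) (l 4))) (a (b (b (a (a (b (l 540267023) (l 540248335)) (b (l 540249359) (l 540232207))) (b (l 539962383) (l 540215823))) (a (c (a (l 540814095) (l 540793359)) (a (l 539761167) (l 539748879))) (b (l 540202255) (l 540189711)))) (a (a (b (c (l 540758543) (l 539741455)) (l 4)) (b (l 540181519) (l 540154639))) (b (l 540169487) (l 540142863)))) (a (b (b (b (l 540213519) (l 540200463)) (b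 (l 540188431) (l 540175887))) (b (l 540155663) (l 540129807))) (b (b (c (l 16836336) (l 539739407)) (c (l 540750607) (l 539727631))) (c (b (l 540702991) (l 540655631)) (c (l 539901967) (l 540617743)))))))), by decide +kernel⟩

def k10_A00pm_213_s3 : ∃ t, chk3 f_A00pm_213_s3 t 3 28 1 = true :=
  ⟨(a (a (a (a (a (b (b (l 540187663) (l 540162831)) (b (l 540137231) (l 540111631))) (b (b (l 539780367) (l 539889679)) (b (l 540132367) (l 540106767)))) (b (b (b (l 16839864) (l 16835104)) (c (l 16849456) (l 16830192))) (b (c (l 16838136) (l 539694351)) (c (l 16806056) (l 539681039))))) (b (a (c (b (l 16872984) (l 16861192)) (b (l 16846624) (l 16838520))) (c (b (l 16884880) (l 16872816)) (b (l 16854800) (l 16846592)))) (a (c (b (l 16849616) (l 16838264)) (b (l 16830456) (c (l 16825592) (l 16819808)))) (c (c (l 16862024) (l 16848840)) (b (l 16838416) (l 16830296)))))) (b (a (c (a (b (l 16875056) (a (l 16881528) (l 16887040))) (l 16899456))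 (a (b (a (l 16860864) (l 16865160)) (a (l 16852512) (l 16856488))) (b (l 16871840) (l 16862888)))) (a (c (l 16908032) (l 16876128)) (l 16857120))) (b (a (c (a (l 16872272) (l 16882528)) (a (c (l 16851304) (l 16841928)) (a (l 16852008) (l 16856160)))) (a (l 16854080) (l 16883544))) (a (c (a (l 16860360) (a (l 16868584) (l 16873576))) (a (l 16837936) (a (l 16843528) (l 16847440)))) (a (c (l 16879792) (l 16853552)) (l 16873328)))))) (b (c (a (a (l 16928448) (l 16944360)) (a (l 17026616) (l 16906696))) (a (a (l 16898080) (l 16916288)) (a (a (l 16927464) (l 16918256)) (l 16900160)))) (c (a (a (l 16904776) (l 16919648)) (a (l 17005368) (l 16892592))) (a (a (l 16878720) (l 16895648)) (a (a (l 16907296) (l 16901216)) (l 16885808)))))), by decide +kernel⟩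

def k11_A00pm_213_s3 : ∃ t, chk3 f_A00pm_213_s3 t 2 29 1 = true :=
  ⟨(a (l 4) (a (l 4) (a (b (b (a (l 4) (l 540116495)) (l 4)) (l 4)) (a (b (b (l 540103951) (l 540078351)) (l 4)) (b (c (c (l 540872719) (l 540316175)) (c (l 539866639) (l 540869391))) (b (c (l 540513807) (l 539667983)) (l 4))))))), by decide +kernel⟩

def k12_A00pm_213_s3 : ∃ t, chk3 f_A00pm_213_s3 t 6 29 1 = true :=
  ⟨(a (a (a (a (b (b (l 540086031) (l 540059151)) (b (l 540034063) (l 540008975))) (b (b (l 540080911) (l 540054543)) (b (l 540029199) (l 540004623)))) (b (b (c (l 540600335) (l 539666959)) (c (l 540554511) (l 539652879))) (b (c (l 540508431) (l 539640847)) (c (l 540462095) (l 539630351))))) (b (b (c (a (l 16806152) (l 16837936)) (a (c (l 16816992) (l 16812312)) (c (l 16825368) (l 16819592)))) (c (a (l 540559119) (l 16805760)) (a (b (l 16808496) (l 539640591)) (c (l 16816736) (l 16812072))))) (b (a (c (l 540513551) (a (l 539633935) (l 539629839))) (c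 (l 540528399) (c (l 16797688) (l 540275727)))) (a (c (l 540468239) (c (l 539797263) (l 539472399))) (c (l 540483087) (c (l 539796751) (l 540539919))))))) (a (a (b (b (c (l 16848656) (l 16819288)) (c (l 16837160) (c (l 16824800) (l 16819048)))) (b (c (l 16804896) (b (l 16815632) (l 16811608))) (c (l 541317903) (a (l 539620367) (l 539622159))))) (b (b (c (l 16838280) (a (l 16835320) (l 16828440))) (c (l 16847512) (b (l 16830976) (l 16826888)))) (c (b (l 16835912) (l 16814000)) (b (b (l 16822816) (l 16818744)) (b (l 16814680) (l 16805376)))))) (b (a (c (b (l 16868728) (a (l 16855160) (l 16859752))) (b (a (l 16832296) (l 16846720)) (a (b (l 16836328) (l 16832200)) (b (l 16840136) (l 16835832))))) (b (l 16842272) (c (l 16865336) (l 16843696)))) (b (a (c (a (l 16843416) (l 16848224)) (a (l 16826024) (b (l 16831536) (l 16827376)))) (c (l 16854424) (a (b (l 16835200) (l 16830904)) (l 16836688)))) (c (a (l 16834088) (a (l 16830584) (l 16845256)))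 (b (a (l 16821552) (a (a (l 16825728) (l 16827448)) (l 16830072))) (a (l 16817432) (a (l 16822376) (a (l 16824864) (l 16826560)))))))))), by decide +kernel⟩

def k13_A00pm_213_s3 : ∃ t, chk3 f_A00pm_213_s3 t 7 29 1 = true :=
  ⟨(a (a (b (a (c (l 16878120) (l 16855888)) (l 16852496)) (a (c (l 16855616) (b (l 16842136) (l 16833072))) (c (l 16862064) (l 16834088)))) (c (b (l 16895280) (l 16871192)) (b (l 16875208) (a (l 16851568) (l 16858616))))) (a (a (b (l 16895120) (l 16872784)) (a (b (l 16895472) (l 16875632)) (l 16877320))) (b (l 16957296) (l 16982392)))), by decide +kernel⟩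

def k14_A00pm_213_s3 : ∃ t, chk3 f_A00pm_213_s3 t 2 15 1 = true :=
  ⟨(l 4), by decide +kernel⟩

def k15_A00pm_213_s3 : ∃ t, chk3 f_A00pm_213_s3 t 12 30 1 = true :=
  ⟨(b (a (b (a (l 4) (c (l 540414991) (l 539621391))) (l 4)) (b (c (a (l 540421135) (l 540436495)) (a (c (l 539783183) (l 539737103)) (c (l 539783695) (l 540805903)))) (c (a (l 540373007) (l 540396047)) (a (c (l 539770127) (l 540271887)) (c (l 539776015) (l 540539663)))))) (a (l 4) (a (l 4) (b (c (l 540345359) (c (l 540301583) (l 541078287))) (l 4))))), by decide +kernel⟩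

def k16_A00pm_213_s3 : ∃ t, chk3 f_A00pm_213_s3 t 26 30 1 = true :=
  ⟨(b (a (a (b (c (l 540463375) (l 539617039)) (c (l 540418319) (l 539614735))) (b (b (l 540008207) (l 539999759)) (b (l 539991055) (l 539981583)))) (b (a (b (l 540018191) (l 540009743)) (c (l 16815576) (c (l 16808168) (l 16799304)))) (a (b (l 540001295) (l 539723535)) (c (l 540471567) (c (l 539804687) (l 540815887)))))) (b (b (a (a (l 539962127) (l 539971599)) (c (l 540697615) (a (l 539625999) (l 539632143)))) (a (a (l 539951375) (a (l 539958799) (l 539963919))) (c (l 540939535) (a (l 539626255) (l 539633167))))) (a (b (c (l 540338191) (a (l 539614991) (l 539620111))) (l 4)) (a (c (l 541147919) (b (l 539626511) (l 539626511))) (c (l 541972239) (b (l 539633935) (l 539634447))))))), by decide +kernel⟩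

def k17_A00pm_213_s3 : ∃ t, chk3 f_A00pm_213_s3 t 27 30 1 = true :=
  ⟨(b (c (c (a (b (l 16826048) (l 16792544)) (b (l 16825192) (l 16822864))) (a (b (l 16819168) (c (l 16809776) (l 16807552))) (b (a (l 16825432) (l 16829384)) (l 16816592)))) (c (c (a (b (l 16814840) (l 16800296)) (b (b (l 16824408) (l 16819768)) (l 16812608))) (c (a (b (l 16812944) (l 16798928)) (b (b (l 16821944) (l 16817584)) (l 16810856))) (a (b (l 16811776) (b (l 16805448) (l 16801216))) (b (b (l 16820432) (l 16816232)) (l 16809768))))) (c (b (a (l 16810176) (a (l 16814888) (b (l 16819968) (l 16815912)))) (a (b (l 16804184) (l 16800152)) (a (l 16806792) (l 16809784)))) (b (b (a (l 16810208) (a (l 16814616) (l 16817464))) (a (l 16806464) (l 16812248))) (a (b (l 16802696) (l 16798912)) (a (l 16805144) (l 16807936))))))) (a (b (c (a (l 541515279) (a (l 540459023) (l 540469519))) (a (b (l 539639311) (l 539640847)) (c (l 541427727) (b (l 16797088) (l 16790512)))))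 (c (b (c (l 540922895) (l 541270287)) (c (l 541149199) (l 541518351))) (b (a (l 539642383) (c (l 539817487) (l 539503375))) (a (l 540717071) (c (l 539812879) (l 539777551)))))) (b (c (b (l 16810792) (l 16794480)) (b (a (l 16796136) (l 16804424)) (c (l 16794728) (a (l 16796024) (l 16798840))))) (b (c (c (l 16800696) (l 16792552)) (a (c (l 16793792) (l 540313871)) (c (l 16796944) (l 16794792)))) (a (c (l 540413967) (c (l 539821839) (l 540587791))) (c (l 540434191) (a (l 539665679) (l 539938831)))))))), by decide +kernel⟩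

def k18_A00pm_213_s3 : ∃ t, chk3 f_A00pm_213_s3 t 14 30 1 = true :=
  ⟨(b (c (a (a (a (b (l 16827120) (b (l 16828848) (l 16822928))) (b (l 16840648) (b (l 16832480) (l 16826776)))) (b (l 16845088) (l 16833864))) (b (l 16853544) (l 16841904))) (a (a (b (a (b (l 16824728) (a (l 16814280) (l 16821176))) (l 16825784)) (a (b (a (l 16815248) (c (l 16819512) (l 16814352))) (l 16811712)) (b (l 16819160) (a (c (l 16816424) (l 16811696)) (l 16810264))))) (b (l 16830616) (a (l 16819928) (l 16822952)))) (a (b (l 16837016) (l 16827432)) (l 16838368)))) (a (c (b (b (a (a (l 16816888) (l 16820744)) (l 16825736)) (a (l 16812816) (a (a (l 16817576) (l 16819384)) (l 16821400)))) (a (b (l 16796328) (c (l 16802456) (l 16794160))) (a (b (l 16812392) (l 16806320)) (b (a (l 16815056) (l 16816640)) (b (l 16811288) (l 16808344)))))) (b (a (a (b (l 16807400) (l 16797816)) (b (c (l 16812456) (b (l 16809320) (l 16807344))) (l 16805936))) (a (b (a (b (l 16813616)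 (l 16811400)) (l 16813936)) (c (a (l 16810040) (l 16811608)) (a (l 16806208) (b (l 16808696) (l 16806536))))) (b (l 16816080) (l 16811544)))) (a (b (c (l 16796304) (a (l 16797520) (l 16800176))) (a (b (l 16795416) (l 16793216)) (c (l 16798320) (l 16796032)))) (a (b (b (l 16805424) (l 16803208)) (a (l 16793936) (l 16800528))) (a (b (a (b (l 16807152) (l 16804920)) (b (l 16807880) (l 16805568))) (l 16801872)) (b (b (l 16808848) (l 16801408)) (b (a (l 16803976) (a (l 16804504) (l 16804864))) (l 16802072)))))))) (a (b (c (l 16827936) (a (l 16816592) (l 16819376))) (a (a (b (l 16813016) (c (l 16812312) (b (l 16805656) (c (l 16805008) (a (l 16801592) (l 16802280)))))) (b (l 16814296) (l 16798792))) (c (l 16817960) (l 16799472)))) (b (l 16817416) (c (l 16821400) (l 16803256)))))), by decide +kernel⟩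

def k19_A00pm_213_s3 : ∃ t, chk3 f_A00pm_213_s3 t 15 30 1 = true :=
  ⟨(c (b (a (b (l 16944728) (l 16933384)) (l 16924848)) (a (b (l 16880152) (a (l 16825840) (l 16829352))) (a (l 16909968) (l 16919496)))) (b (a (a (l 16844608) (a (l 16848880) (l 16890832))) (a (l 16838008) (l 16847880))) (a (b (a (l 16829024) (l 16875440)) (a (l 16818728) (l 16865112))) (b (l 16906544) (a (l 16862256) (l 16823152)))))), by decide +kernel⟩

def k20_A00pm_213_s3 : ∃ t, chk3 f_A00pm_213_s3 t 6 62 1 = true :=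
  ⟨(a (l 4) (a (b (a (l 4) (b (c (l 541114639) (b (l 541242639) (l 4))) (l 4))) (l 4)) (b (a (b (a (c (l 540341007) (l 540985871)) (c (l 540362255) (c (l 539807503) (l 540320015)))) (a (c (l 540303375) (l 540985103)) (b (l 539965967) (l 539957775)))) (a (c (b (l 540375311) (l 540338447)) (b (c (l 539814159) (l 540860687)) (c (l 540076815) (l 540867343)))) (c (b (l 540397839) (l 540628239)) (b (b (l 539940111) (l 540209423)) (b (l 540210703) (l 540211471)))))) (a (l 4) (a (b (c (l 540563983) (c (l 540604687) (l 541140751))) (l 4)) (b (c (l 541122319) (b (l 540480527) (l 540480271))) (b (c (l 540287759) (l 540747791)) (l 4)))))))), by decide +kernel⟩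

def k21_A00pm_213_s3 : ∃ t, chk3 f_A00pm_213_s3 t 14 124 1 = true :=
  ⟨(a (a (c (a (b (l 541227791) (l 541458447)) (b (l 16791544) (b (l 16792384) (l 16784232)))) (a (b (c (l 541184015) (b (l 16790296) (l 16788208))) (c (l 541178895) (a (l 539810831) (l 540622095)))) (b (b (l 16793776) (c (l 16792360) (l 16790792))) (a (b (l 16788624) (l 539700495)) (b (l 16789960) (l 16785080)))))) (c (a (b (l 16800264) (c (l 16795328) (l 16788056))) (b (l 16803696) (l 16792328))) (a (b (b (l 16796472) (l 16794216)) (b (c (l 16792776) (l 16791184)) (c (l 16790344) (l 16789032)))) (c (b (l 16799216) (c (l 16794784) (l 16793824))) (b (c (l 16797400) (l 16796352)) (b (l 16793632) (l 16791456))))))) (a (c (a (b (a (l 16806160) (a (l 16807408) (l 16808232))) (l 16790344)) (a (b (l 16809208) (b (l 16804760) (l 16801696))) (b (l 16810192) (b (l 16806080) (l 16803184))))) (b (a (a (b (b (l 16801616) (l 16800512)) (l 16798768)) (c (b (l 16803920) (l 16801352))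 (b (a (b (l 16801248) (l 16800136)) (l 16801288)) (a (l 16798496) (b (l 16799664) (l 16798536)))))) (b (l 16804160) (a (c (l 16802744) (a (l 16799752) (l 16800288))) (l 16802440)))) (a (c (l 16796976) (b (l 16796024) (l 16793824))) (b (a (a (b (l 16799208) (l 16798064)) (b (l 16799872) (a (l 16798504) (l 16798840)))) (l 16800152)) (a (l 16796592) (c (b (l 16799656) (l 16798328)) (a (b (a (l 16796840) (l 16797168)) (l 16795864)) (a (b (l 16797424) (l 16796304)) (l 16797184))))))))) (c (b (l 16812896) (l 16807232)) (b (l 16806520) (a (c (l 16801880) (l 16799504)) (l 16802832)))))), by decide +kernel⟩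

def k22_A00pm_213_s3 : ∃ t, chk3 f_A00pm_213_s3 t 28 125 1 = true :=
  ⟨(a (b (a (a (b (l 539993103) (l 539984143)) (b (l 540003599) (l 539994895))) (b (c (l 540389903) (a (l 539702031) (l 539711247))) (c (l 540367887) (a (l 539703311) (l 539712783))))) (a (a (b (l 539973647) (l 4)) (c (l 541373199) (b (l 539694351) (l 539693071)))) (c (b (l 540880655) (l 540854031)) (a (b (l 539703567) (l 539702543)) (b (l 539713295) (l 539712783)))))) (b (a (c (b (l 16784592) (l 541207823)) (b (c (l 16787904) (c (l 16787104) (l 16786632))) (a (l 539723023) (a (l 539731727) (l 539737359))))) (c (b (l 16793032) (l 16784776)) (b (c (l 16790584) (l 16789264)) (c (l 16788096) (a (l 16786472) (l 16787640)))))) (a (b (a (c (l 540369679) (l 539992591)) (b (l 540042767) (l 540037903))) (c (l 541425679) (a (l 539992335) (l 540809743)))) (b (c (c (l 16787576) (l 541576463)) (a (c (l 16784968) (l 540150543)) (a (l 539758351) (l 539765519)))) (a (b (l 540048911)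 (l 540043279)) (c (l 540403215) (a (l 539759631) (l 539766799)))))))), by decide +kernel⟩

def k23_A00pm_213_s3 : ∃ t, chk3 f_A00pm_213_s3 t 58 125 1 = true :=
  ⟨(c (b (b (a (l 16796176) (l 16799224)) (a (l 16793088) (l 16796136))) (a (b (l 16784776) (b (l 16787736) (l 16783600))) (b (l 16792984) (c (l 16790544) (l 16789200))))) (c (b (a (b (l 16793200) (l 16790672)) (b (l 16795728) (l 16793216))) (a (b (l 16788136) (a (l 16782352) (l 16786208))) (b (l 16790632) (c (l 16788304) (l 16787760))))) (c (b (a (b (l 16791976) (l 16789664)) (b (b (l 16794872) (l 16793760)) (l 16792000))) (a (b (l 16787344) (a (l 16784432) (l 16785568))) (b (l 16789640) (c (l 16787376) (l 16787136))))) (a (b (b (l 16791248) (l 16789072)) (b (a (l 16786320) (l 16787424)) (b (l 16785208) (l 16784088)))) (b (b (b (l 16793984) (l 16792936)) (l 16791272)) (a (b (l 16788512) (l 16786264)) (b (l 16789584) (l 16787320)))))))), by decide +kernel⟩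

def k24_A00pm_213_s3 : ∃ t, chk3 f_A00pm_213_s3 t 59 125 2 = true :=
  ⟨(a (b (a (b (l 16801536) (l 16798320)) (b (l 16802560) (l 16799800))) (b (a (l 16795208) (l 16793912)) (l 16792696))) (b (l 16802584) (a (a (b (l 16797664) (l 16794448)) (b (l 16798192) (l 16792408))) (b (l 16798800) (b (l 16796704) (l 16795248)))))), by decide +kernel⟩

def k25_A00pm_213_s3 : ∃ t, chk3 f_A00pm_213_s3 t 59 125 3 = true :=
  ⟨(b (a (a (b (c (b (l 16798352) (l 16797040)) (c (b (l 16796704) (a (l 16795184) (l 16795816))) (b (a (a (l 16795288) (l 16795568)) (l 16795952)) (a (l 16794280) (a (l 16794736) (l 16794976)))))) (a (l 16793880) (b (a (l 16794928) (b (l 16795536) (l 16794904))) (l 16793848)))) (b (l 16797656) (c (b (l 16796960) (a (l 16795352) (l 16795968))) (b (a (c (l 16795192) (l 16794304)) (l 16795216)) (a (a (l 16793400) (b (l 16793992) (l 16793384))) (l 16794112)))))) (a (l 16797496) (l 16798504))) (a (c (b (b (a (l 16793144) (l 16794296))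 (l 16792424)) (l 16790424)) (c (b (b (a (l 16791936) (a (l 16792784) (l 16793304))) (l 16791288)) (l 16789456)) (c (a (b (l 16790816) (l 16788504)) (b (b (a (l 16792200) (b (l 16793016) (l 16792408))) (l 16791304)) (l 16789544))) (a (b (l 16790488) (l 16788240)) (b (b (a (l 16791832) (b (a (l 16792488) (l 16792776)) (l 16792040))) (l 16790960)) (l 16789256)))))) (b (a (a (c (b (l 16795224) (l 16793896)) (b (l 16793464) (a (b (l 16792424) (l 16791848)) (b (l 16792712) (l 16792096))))) (c (l 16795096) (b (l 16793912) (l 16792792)))) (l 16794864)) (b (c (a (a (l 16792576) (l 16793128)) (l 16793896)) (a (a (l 16791080) (a (b (l 16791760) (l 16791168)) (b (l 16792032) (a (l 16791352) (l 16791488))))) (a (l 16792096) (l 16792528)))) (c (a (l 16791504) (a (l 16792328) (l 16792864))) (a (l 16790136) (a (c (b (l 16791560) (l 16790896)) (b (a (c (l 16790896) (l 16790568)) (l 16790992)) (a (l 16790152) (a (l 16790320) (l 16790456))))) (l 16791384)))))))),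 by decide +kernel⟩

def k26_A00pm_213_s3 : ∃ t, chk3 f_A00pm_213_s3 t 15 62 1 = true :=
  ⟨(a (b (a (c (l 16814032) (l 16803264)) (l 16815056)) (a (b (a (l 16802064) (l 16803896)) (a (c (l 16798624) (b (l 16796248) (l 16793768))) (l 16798384))) (b (l 16806416) (l 16800664)))) (a (a (b (l 16847608) (b (l 16808336) (l 16802760))) (b (l 16810088) (a (l 16825728) (l 16801568)))) (b (c (l 16817936) (l 16854704)) (c (l 16847552) (b (l 16846696) (l 16830808)))))), by decide +kernel⟩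

def k27_A00pm_213_s3 : ∃ t, chk3 f_A00pm_213_s3 t 6 126 1 = true :=
  ⟨(l 4), by decide +kernel⟩

def k28_A00pm_213_s3 : ∃ t, chk3 f_A00pm_213_s3 t 28 126 1 = true :=
  ⟨(a (b (a (l 4) (b (b (c (l 540298767) (l 540782351)) (l 4)) (l 4))) (l 4)) (b (a (a (b (c (l 540313103) (l 540258831)) (l 4)) (b (c (l 540331791) (l 541076495)) (c (l 540296719) (l 541340943)))) (b (a (b (l 540036879) (l 540029711)) (c (l 540373263) (c (l 540167951) (l 541245455)))) (a (b (l 540021519) (l 540012303)) (c (l 540338447) (a (l 540292367) (l 540836879)))))) (b (b (a (l 4) (a (l 4) (c (l 540314639) (l 540027151)))) (l 4)) (l 4)))), by decide +kernel⟩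

def k29_A00pm_213_s3 : ∃ t, chk3 f_A00pm_213_s3 t 58 126 1 = true :=
  ⟨(b (a (a (b (c (l 540397327) (b (l 540050191) (l 540318479))) (b (c (l 540377615) (l 540317455)) (a (l 540045839) (l 540058383)))) (b (c (l 541231375) (c (l 541280527) (b (l 16783648) (l 16782488)))) (a (b (l 540079375) (l 540071951)) (b (l 540093199) (l 540085519))))) (c (b (b (l 16787512) (l 16783344)) (a (l 542038031) (b (l 16785096) (l 16783544)))) (b (b (a (l 16785088) (l 16786216)) (a (c (l 16784184) (l 16783560)) (l 16784968))) (a (b (c (l 16782880) (l 16782384)) (c (l 539960335) (l 540770319))) (a (b (l 16783448) (l 539841551)) (b (l 16783992) (l 16782728))))))) (a (b (c (a (l 541931279) (l 541963535)) (b (a (c (l 539904271) (l 540193295)) (c (l 539929359) (l 540482063))) (a (l 540307727) (l 540599823)))) (a (l 4) (b (c (l 540322831) (l 540593423)) (l 4)))) (b (a (b (c (l 540405775) (c (l 539954703) (l 540771087))) (c (l 540382479) (l 541159695))) (b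 (c (l 540439823) (a (l 539839503) (l 539851535))) (c (l 540416527) (c (l 540509711) (l 541328655))))) (a (b (c (l 540355599) (l 541153295)) (c (l 540325135) (l 541144847))) (a (b (l 540090383) (l 540072463)) (b (a (l 540101903) (l 540109327)) (l 540892431))))))), by decide +kernel⟩

def k30_A00pm_213_s3 : ∃ t, chk3 f_A00pm_213_s3 t 59 126 1 = true :=
  ⟨(b (c (b (b (a (l 16790280) (a (l 16792320) (l 16793536))) (a (l 16788672) (l 16791320))) (a (b (l 16787064) (l 16782848)) (a (l 16788200) (l 16789464)))) (c (b (b (a (l 16788416) (a (l 16790136) (a (l 16790984) (l 16791504)))) (a (l 16787072) (l 16789312))) (a (b (l 16785720) (c (l 16784544) (l 16784208))) (a (l 16786696) (l 16787776)))) (c (b (a (a (l 16786472) (l 16787536)) (a (l 16788576) (b (a (l 16789984) (b (l 16790808) (l 16790144))) (l 16788968)))) (a (b (l 16785144) (l 16783896)) (a (l 16786048) (l 16787048)))) (a (b (b (l 16787136) (l 16785968)) (b (l 16784792) (a (l 16783120)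 (l 16784088)))) (c (b (a (l 16788176) (b (a (l 16789528) (b (a (l 16790184) (l 16790448)) (l 16789680))) (l 16788552))) (b (l 16786840) (l 16785616))) (b (a (b (l 16788512) (l 16787336)) (b (a (l 16789240) (b (a (b (l 16790040) (l 16789728)) (l 16790136)) (a (l 16789304) (b (l 16789680) (l 16789376))))) (l 16788288))) (a (b (l 16786152) (l 16784960)) (b (l 16787096) (l 16785896))))))))) (a (b (a (b (c (l 16783264) (a (l 539863823) (l 540144655))) (c (l 540988943) (a (l 539860239) (l 539872783)))) (c (b (l 16784520) (l 16780304)) (b (c (l 16783560) (l 16783016)) (b (l 16782312) (l 16781656))))) (a (c (b (l 541230607) (l 541468431)) (a (b (l 539854607) (l 539846671)) (b (l 540135951) (l 540128015)))) (a (b (c (l 540453391) (l 540417551)) (c (l 540422927) (l 540678415))) (b (c (l 540472335) (l 540967951)) (l 14))))) (b (a (c (b (l 16785752) (l 16784128)) (b (c (l 16784624) (l 16783984)) (c (l 16783240) (l 16782736)))) (b (c (l 16786968)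 (c (l 16785672) (l 16784936))) (l 14))) (l 14)))), by decide +kernel⟩

def k31_A00pm_213_s3 : ∃ t, chk3 f_A00pm_213_s3 t 30 252 1 = true :=
  ⟨(a (c (a (a (a (b (b (l 16794480) (l 16792872)) (l 16790400)) (b (l 16794200) (b (l 16791800) (l 16790168)))) (b (l 16794688) (a (b (l 16792392) (l 16790688)) (l 16792088)))) (l 16794296)) (a (c (b (a (b (l 16792248) (a (b (l 16791024) (l 16790296)) (l 16791184))) (l 16792384)) (a (b (a (l 16789280) (b (l 16790144) (l 16789416))) (l 16788128)) (b (l 16790520) (a (a (l 16788744) (l 16788992)) (a (l 16789280) (l 16789456)))))) (b (a (b (a (b (l 16790912) (l 16790352)) (l 16791040)) (a (b (a (b (l 16789760) (l 16789448)) (c (l 16790168) (l 16789568))) (a (l 16788992) (b (l 16789376) (l 16789072)))) (a (b (l 16790048) (b (l 16789608) (l 16789320))) (l 16789960)))) (l 16791072)) (a (a (b (l 16788168) (l 16786904)) (b (b (b (a (l 16788984) (l 16789224)) (a (l 16788688) (a (l 16788856) (l 16788976))))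 (c (l 16788560) (l 16788040))) (l 16787376))) (a (b (a (a (b (l 16789216) (b (l 16788784) (l 16788456))) (l 16789048)) (l 16789168)) (b (a (l 16788024) (a (b (l 16788384) (l 16788048)) (l 16788336))) (l 16787504))) (b (l 16789464) (b (l 16788560) (a (c (l 16788104) (b (l 16787784) (l 16787448))) (l 16788064)))))))) (b (l 16792896) (a (l 16789976) (l 16790720))))) (a (l 16789056) (l 16795600))), by decide +kernel⟩

def k32_A00pm_213_s3 : ∃ t, chk3 f_A00pm_213_s3 t 30 253 1 = true :=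
  ⟨(a (c (b (b (a (c (l 16794416) (a (l 16787648) (l 16788664))) (a (a (l 16790168) (l 16790472)) (l 16790952))) (l 14)) (l 14)) (b (a (b (a (c (l 16786704) (l 16785864)) (b (c (l 16788000) (a (l 16786872) (a (l 16787216) (b (a (l 16787544) (l 16787656)) (l 16787264))))) (l 16786888))) (l 14)) (b (a (a (b (c (l 16788768) (l 16787752)) (c (l 16788080) (a (a (l 16786936) (b (l 16787240) (l 16786896))) (c (l 16787472) (b (l 16787136) (l 16786856)))))) (l 16788264)) (l 16788792)) (l 14))) (l 14))) (b (a (a (l 16789776) (l 16790400)) (l 16791272)) (l 14))), by decide +kernel⟩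

def k33_A00pm_213_s3 : ∃ t, chk3 f_A00pm_213_s3 t 31 126 1 = true :=
  ⟨(b (c (a (l 16817928) (l 16838064)) (a (a (l 16795712) (l 16816840)) (a (l 16791688) (l 16818264)))) (b (b (a (l 16803560) (c (l 16834088) (l 16811456))) (a (l 14) (l 14))) (l 14))), by decide +kernel⟩

def k34_A00pm_213_s3 : ∃ t, chk3 f_A00pm_213_s3 t 3 127 1 = true :=
  ⟨(b (a (l 4) (a (a (l 4) (a (b (a (l 4) (a (l 4) (b (b (l 541141263) (l 4)) (l 4)))) (l 4)) (b (a (a (b (b (l 541708815) (l 541697039)) (l 4)) (l 14)) (l 14)) (l 14)))) (l 14))) (a (l 4) (a (l 4) (l 14)))), by decide +kernel⟩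

theorem t35_A00pm_213_s3 : ∃ t, chk3 f_A00pm_213_s3 t 30 126 1 = true := ex3_b k31_A00pm_213_s3 k32_A00pm_213_s3

theorem t36_A00pm_213_s3 : ∃ t, chk3 f_A00pm_213_s3 t 15 126 1 = true := ex3_a t35_A00pm_213_s3 k33_A00pm_213_s3

theorem t37_A00pm_213_s3 : ∃ t, chk3 f_A00pm_213_s3 t 29 126 1 = true := ex3_a k29_A00pm_213_s3 k30_A00pm_213_s3

theorem t38_A00pm_213_s3 : ∃ t, chk3 f_A00pm_213_s3 t 14 126 1 = true := ex3_a k28_A00pm_213_s3 t37_A00pm_213_s3

theorem t39_A00pm_213_s3 : ∃ t, chk3 f_A00pm_213_s3 t 7 126 1 = true := ex3_a t38_A00pm_213_s3 t36_A00pm_213_s3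

theorem t40_A00pm_213_s3 : ∃ t, chk3 f_A00pm_213_s3 t 3 126 1 = true := ex3_a k27_A00pm_213_s3 t39_A00pm_213_s3

theorem t41_A00pm_213_s3 : ∃ t, chk3 f_A00pm_213_s3 t 3 63 1 = true := ex3_b t40_A00pm_213_s3 k34_A00pm_213_s3

theorem t42_A00pm_213_s3 : ∃ t, chk3 f_A00pm_213_s3 t 59 125 1 = true := ex3_c k24_A00pm_213_s3 k25_A00pm_213_s3

theorem t43_A00pm_213_s3 : ∃ t, chk3 f_A00pm_213_s3 t 29 125 1 = true := ex3_a k23_A00pm_213_s3 t42_A00pm_213_s3

theorem t44_A00pm_213_s3 : ∃ t, chk3 f_A00pm_213_s3 t 14 125 1 = true := ex3_a k22_A00pm_213_s3 t43_A00pm_213_s3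

theorem t45_A00pm_213_s3 : ∃ t, chk3 f_A00pm_213_s3 t 14 62 1 = true := ex3_b k21_A00pm_213_s3 t44_A00pm_213_s3

theorem t46_A00pm_213_s3 : ∃ t, chk3 f_A00pm_213_s3 t 7 62 1 = true := ex3_a t45_A00pm_213_s3 k26_A00pm_213_s3

theorem t47_A00pm_213_s3 : ∃ t, chk3 f_A00pm_213_s3 t 3 62 1 = true := ex3_a k20_A00pm_213_s3 t46_A00pm_213_s3

theorem t48_A00pm_213_s3 : ∃ t, chk3 f_A00pm_213_s3 t 3 31 1 = true := ex3_b t47_A00pm_213_s3 t41_A00pm_213_s3

theorem t49_A00pm_213_s3 : ∃ t, chk3 f_A00pm_213_s3 t 7 30 1 = true := ex3_a k18_A00pm_213_s3 k19_A00pm_213_s3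

theorem t50_A00pm_213_s3 : ∃ t, chk3 f_A00pm_213_s3 t 13 30 1 = true := ex3_a k16_A00pm_213_s3 k17_A00pm_213_s3

theorem t51_A00pm_213_s3 : ∃ t, chk3 f_A00pm_213_s3 t 6 30 1 = true := ex3_a k15_A00pm_213_s3 t50_A00pm_213_s3

theorem t52_A00pm_213_s3 : ∃ t, chk3 f_A00pm_213_s3 t 3 30 1 = true := ex3_a t51_A00pm_213_s3 t49_A00pm_213_s3

theorem t53_A00pm_213_s3 : ∃ t, chk3 f_A00pm_213_s3 t 3 15 1 = true := ex3_b t52_A00pm_213_s3 t48_A00pm_213_s3

theorem t54_A00pm_213_s3 : ∃ t, chk3 f_A00pm_213_s3 t 1 15 1 = true := ex3_a k14_A00pm_213_s3 t53_A00pm_213_s3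

theorem t55_A00pm_213_s3 : ∃ t, chk3 f_A00pm_213_s3 t 3 29 1 = true := ex3_a k12_A00pm_213_s3 k13_A00pm_213_s3

theorem t56_A00pm_213_s3 : ∃ t, chk3 f_A00pm_213_s3 t 1 29 1 = true := ex3_a k11_A00pm_213_s3 t55_A00pm_213_s3

theorem t57_A00pm_213_s3 : ∃ t, chk3 f_A00pm_213_s3 t 1 28 1 = true := ex3_a k9_A00pm_213_s3 k10_A00pm_213_s3

theorem t58_A00pm_213_s3 : ∃ t, chk3 f_A00pm_213_s3 t 1 14 1 = true := ex3_b t57_A00pm_213_s3 t56_A00pm_213_s3

theorem t59_A00pm_213_s3 : ∃ t, chk3 f_A00pm_213_s3 t 1 7 1 = true := ex3_b t58_A00pm_213_s3 t54_A00pm_213_s3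

theorem t60_A00pm_213_s3 : ∃ t, chk3 f_A00pm_213_s3 t 6 13 1 = true := ex3_a k6_A00pm_213_s3 k7_A00pm_213_s3

theorem t61_A00pm_213_s3 : ∃ t, chk3 f_A00pm_213_s3 t 6 6 1 = true := ex3_b k5_A00pm_213_s3 t60_A00pm_213_s3

theorem t62_A00pm_213_s3 : ∃ t, chk3 f_A00pm_213_s3 t 3 6 1 = true := ex3_a t61_A00pm_213_s3 k8_A00pm_213_s3

theorem t63_A00pm_213_s3 : ∃ t, chk3 f_A00pm_213_s3 t 5 13 1 = true := ex3_a k3_A00pm_213_s3 k4_A00pm_213_s3

theorem t64_A00pm_213_s3 : ∃ t, chk3 f_A00pm_213_s3 t 5 6 1 = true := ex3_b k2_A00pm_213_s3 t63_A00pm_213_s3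

theorem t65_A00pm_213_s3 : ∃ t, chk3 f_A00pm_213_s3 t 2 6 1 = true := ex3_a k1_A00pm_213_s3 t64_A00pm_213_s3

theorem t66_A00pm_213_s3 : ∃ t, chk3 f_A00pm_213_s3 t 1 6 1 = true := ex3_a t65_A00pm_213_s3 t62_A00pm_213_s3

theorem t67_A00pm_213_s3 : ∃ t, chk3 f_A00pm_213_s3 t 1 3 1 = true := ex3_b t66_A00pm_213_s3 t59_A00pm_213_s3

theorem t68_A00pm_213_s3 : ∃ t, chk3 f_A00pm_213_s3 t 1 1 1 = true := ex3_b k0_A00pm_213_s3 t67_A00pm_213_s3

theorem c_A00pm_213_s3 : CertF 0 536870912 536870912 536870912 201326592 134217728 true true false .pnn 2 1 3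
    ndF0q2 ndF0q1 pcF3 cut_A00pm_213_s3 xt_A00pm_213_s3 :=
  certFK1 (fam := true) (s1 := true) (s2 := false) (a := 2) (b := 1) (c := 3) (cn := .pnn) (n1 := ndF0q2) (n2 := ndF0q1) (pc := pcF3) (cut := cut_A00pm_213_s3) (xt := xt_A00pm_213_s3) (P1 := 0) (W1 := 536870912) (P2 := 536870912) (W2 := 536870912) (P3 := 201326592) (W3 := 134217728)
    rfl rfl rfl (fun _ => rfl) t68_A00pm_213_s3

theorem s_A00pm_213_s3 {κ x : ℝ} (hκ : κ * h0 = ken x) (hx : ((201326592 : ℕ) : ℝ) / S ≤ x)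
    (hx' : x ≤ (((201326592 : ℕ) : ℝ) + (134217728 : ℕ)) / S)
    (H : CutA (VF κ) PP tKF tL pcF (Cut.of [[⟨0, 1, 0, 57167902⟩, ⟨1, 1, 0, 57167902⟩, ⟨2, 2, 0, 11758673⟩]]) 2 1 3 0 0 (sgb true) (sgb false) x) :
    AltA (VF κ) PP tKF tL pcF [⟨4, 0, 0, 2845415833⟩] 2 1 3 0 0 (sgb true) (sgb false) x :=
  strip_altA (m := 2845415833) false rfl hκ covF02 covF01 hx hx' c_A00pm_213_s3 H ((okx hx hx').extA (T := tt) (sideF hx hx') hκ rfl rfl (.O 2 true) (.O 1 false) (Or.inr rfl))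

noncomputable def cut_A00mm_001_s1 : Cut := Cut.of [[⟨4, 0, 0, 1449551462⟩]]

noncomputable def f_A00mm_001_s1 : ℕ → ℕ → ℕ → ℕ → Bool := onCell 0 536870912 0 536870912 201326592 134217728
    (rowFK 0 true false false .up 0 0 1 (qsf 0 536870912 0 536870912 1) ndF0q0 ndF0q0 pcF1 cut_A00mm_001_s1 Ext.none)

def k0_A00mm_001_s1 : ∃ t, chk3 f_A00mm_001_s1 t 1 1 1 = true :=
  ⟨(l 4), by decide +kernel⟩

theorem c_A00mm_001_s1 : CertF 0 536870912 0 536870912 201326592 134217728 true false false .up 0 0 1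
    ndF0q0 ndF0q0 pcF1 cut_A00mm_001_s1 Ext.none :=
  certFK0 (fam := true) (s1 := false) (s2 := false) (a := 0) (b := 0) (c := 1) (cn := .up) (n1 := ndF0q0) (n2 := ndF0q0) (pc := pcF1) (cut := cut_A00mm_001_s1) (xt := Ext.none) (P1 := 0) (W1 := 536870912) (P2 := 0) (W2 := 536870912) (P3 := 201326592) (W3 := 134217728)
    rfl rfl rfl k0_A00mm_001_s1

theorem s_A00mm_001_s1 {κ x : ℝ} (hκ : κ * h0 = ken x) (hx : ((201326592 : ℕ) : ℝ) / S ≤ x)
    (hx' : x ≤ (((201326592 : ℕ) : ℝ) + (134217728 : ℕ)) / S) :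
    AltA (VF κ) PP tKF tL pcF [⟨3, 0, 0, 1449551462⟩] 0 0 1 0 0 (sgb false) (sgb false) x :=
  strip_altA (m := 1449551462) true rfl hκ covF00 covF00 hx hx' c_A00mm_001_s1 cutA_nil (noExt_A)

noncomputable def cut_A00mm_001_s3 : Cut := Cut.of [[⟨3, 0, 0, 2845415833⟩]]

noncomputable def f_A00mm_001_s3 : ℕ → ℕ → ℕ → ℕ → Bool := onCell 0 536870912 0 536870912 201326592 134217728
    (rowFK 0 true false false .up 0 0 1 (qsf 0 536870912 0 536870912 1) ndF0q0 ndF0q0 pcF1 cut_A00mm_001_s3 Ext.none)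

def k0_A00mm_001_s3 : ∃ t, chk3 f_A00mm_001_s3 t 1 1 1 = true :=
  ⟨(l 4), by decide +kernel⟩

theorem c_A00mm_001_s3 : CertF 0 536870912 0 536870912 201326592 134217728 true false false .up 0 0 1
    ndF0q0 ndF0q0 pcF1 cut_A00mm_001_s3 Ext.none :=
  certFK0 (fam := true) (s1 := false) (s2 := false) (a := 0) (b := 0) (c := 1) (cn := .up) (n1 := ndF0q0) (n2 := ndF0q0) (pc := pcF1) (cut := cut_A00mm_001_s3) (xt := Ext.none) (P1 := 0) (W1 := 536870912) (P2 := 0) (W2 := 536870912) (P3 := 201326592) (W3 := 134217728)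
    rfl rfl rfl k0_A00mm_001_s3

theorem s_A00mm_001_s3 {κ x : ℝ} (hκ : κ * h0 = ken x) (hx : ((201326592 : ℕ) : ℝ) / S ≤ x)
    (hx' : x ≤ (((201326592 : ℕ) : ℝ) + (134217728 : ℕ)) / S) :
    AltA (VF κ) PP tKF tL pcF [⟨4, 0, 0, 2845415833⟩] 0 0 1 0 0 (sgb false) (sgb false) x :=
  strip_altA (m := 2845415833) false rfl hκ covF00 covF00 hx hx' c_A00mm_001_s3 cutA_nil (noExt_A)

noncomputable def cut_A00mm_011_s1 : Cut := Cut.of [[⟨4, 0, 0, 1449551462⟩]]

noncomputable def f_A00mm_011_s1 : ℕ → ℕ → ℕ → ℕ → Bool := onCell 0 536870912 536870912 536870912 201326592 134217728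
    (rowFK 0 true false false .pnn 0 1 1 (qsf 0 536870912 536870912 536870912 1) ndF0q0 ndF0q1 pcF1 cut_A00mm_011_s1 Ext.none)

def k0_A00mm_011_s1 : ∃ t, chk3 f_A00mm_011_s1 t 1 1 1 = true :=
  ⟨(l 6), by decide +kernel⟩

theorem c_A00mm_011_s1 : CertF 0 536870912 536870912 536870912 201326592 134217728 true false false .pnn 0 1 1
    ndF0q0 ndF0q1 pcF1 cut_A00mm_011_s1 Ext.none :=
  certFK0 (fam := true) (s1 := false) (s2 := false) (a := 0) (b := 1) (c := 1) (cn := .pnn) (n1 := ndF0q0) (n2 := ndF0q1) (pc := pcF1) (cut := cut_A00mm_011_s1) (xt := Ext.none) (P1 := 0) (W1 := 536870912) (P2 := 536870912) (W2 := 536870912) (P3 := 201326592) (W3 := 134217728)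
    rfl rfl rfl k0_A00mm_011_s1

theorem s_A00mm_011_s1 {κ x : ℝ} (hκ : κ * h0 = ken x) (hx : ((201326592 : ℕ) : ℝ) / S ≤ x)
    (hx' : x ≤ (((201326592 : ℕ) : ℝ) + (134217728 : ℕ)) / S) :
    AltA (VF κ) PP tKF tL pcF [⟨3, 0, 0, 1449551462⟩] 0 1 1 0 0 (sgb false) (sgb false) x :=
  strip_altA (m := 1449551462) true rfl hκ covF00 covF01 hx hx' c_A00mm_011_s1 cutA_nil (noExt_A)

noncomputable def cut_A00mm_011_s3 : Cut := Cut.of [[⟨3, 0, 0, 2845415833⟩]]

noncomputable def f_A00mm_011_s3 : ℕ → ℕ → ℕ → ℕ → Bool := onCell 0 536870912 536870912 536870912 201326592 134217728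
    (rowFK 0 true false false .pnn 0 1 1 (qsf 0 536870912 536870912 536870912 1) ndF0q0 ndF0q1 pcF1 cut_A00mm_011_s3 Ext.none)

def k0_A00mm_011_s3 : ∃ t, chk3 f_A00mm_011_s3 t 1 1 1 = true :=
  ⟨(a (l 5) (l 4)), by decide +kernel⟩

theorem c_A00mm_011_s3 : CertF 0 536870912 536870912 536870912 201326592 134217728 true false false .pnn 0 1 1
    ndF0q0 ndF0q1 pcF1 cut_A00mm_011_s3 Ext.none :=
  certFK0 (fam := true) (s1 := false) (s2 := false) (a := 0) (b := 1) (c := 1) (cn := .pnn) (n1 := ndF0q0) (n2 := ndF0q1) (pc := pcF1) (cut := cut_A00mm_011_s3) (xt := Ext.none) (P1 := 0) (W1 := 536870912) (P2 := 536870912) (W2 := 536870912) (P3 := 201326592) (W3 := 134217728)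
    rfl rfl rfl k0_A00mm_011_s3

theorem s_A00mm_011_s3 {κ x : ℝ} (hκ : κ * h0 = ken x) (hx : ((201326592 : ℕ) : ℝ) / S ≤ x)
    (hx' : x ≤ (((201326592 : ℕ) : ℝ) + (134217728 : ℕ)) / S) :
    AltA (VF κ) PP tKF tL pcF [⟨4, 0, 0, 2845415833⟩] 0 1 1 0 0 (sgb false) (sgb false) x :=
  strip_altA (m := 2845415833) false rfl hκ covF00 covF01 hx hx' c_A00mm_011_s3 cutA_nil (noExt_A)

noncomputable def cut_A00mm_012_s1 : Cut := Cut.of [[⟨4, 0, 0, 1449551462⟩]]

noncomputable def f_A00mm_012_s1 : ℕ → ℕ → ℕ → ℕ → Bool := onCell 0 536870912 536870912 536870912 201326592 134217728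
    (rowFK 0 true false false .pnp 0 1 2 (qsf 0 536870912 536870912 536870912 2) ndF0q0 ndF0q1 pcF2 cut_A00mm_012_s1 Ext.none)

def k0_A00mm_012_s1 : ∃ t, chk3 f_A00mm_012_s1 t 1 1 1 = true :=
  ⟨(l 6), by decide +kernel⟩

theorem c_A00mm_012_s1 : CertF 0 536870912 536870912 536870912 201326592 134217728 true false false .pnp 0 1 2
    ndF0q0 ndF0q1 pcF2 cut_A00mm_012_s1 Ext.none :=
  certFK0 (fam := true) (s1 := false) (s2 := false) (a := 0) (b := 1) (c := 2) (cn := .pnp) (n1 := ndF0q0) (n2 := ndF0q1) (pc := pcF2) (cut := cut_A00mm_012_s1) (xt := Ext.none) (P1 := 0) (W1 := 536870912) (P2 := 536870912) (W2 := 536870912) (P3 := 201326592) (W3 := 134217728)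
    rfl rfl rfl k0_A00mm_012_s1

theorem s_A00mm_012_s1 {κ x : ℝ} (hκ : κ * h0 = ken x) (hx : ((201326592 : ℕ) : ℝ) / S ≤ x)
    (hx' : x ≤ (((201326592 : ℕ) : ℝ) + (134217728 : ℕ)) / S) :
    AltA (VF κ) PP tKF tL pcF [⟨3, 0, 0, 1449551462⟩] 0 1 2 0 0 (sgb false) (sgb false) x :=
  strip_altA (m := 1449551462) true rfl hκ covF00 covF01 hx hx' c_A00mm_012_s1 cutA_nil (noExt_A)

noncomputable def cut_A00mm_012_s3 : Cut := Cut.of [[⟨3, 0, 0, 2845415833⟩]]

noncomputable def f_A00mm_012_s3 : ℕ → ℕ → ℕ → ℕ → Bool := onCell 0 536870912 536870912 536870912 201326592 134217728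
    (rowFK 0 true false false .pnp 0 1 2 (qsf 0 536870912 536870912 536870912 2) ndF0q0 ndF0q1 pcF2 cut_A00mm_012_s3 Ext.none)

def k0_A00mm_012_s3 : ∃ t, chk3 f_A00mm_012_s3 t 1 1 1 = true :=
  ⟨(b (l 4) (l 5)), by decide +kernel⟩

theorem c_A00mm_012_s3 : CertF 0 536870912 536870912 536870912 201326592 134217728 true false false .pnp 0 1 2
    ndF0q0 ndF0q1 pcF2 cut_A00mm_012_s3 Ext.none :=
  certFK0 (fam := true) (s1 := false) (s2 := false) (a := 0) (b := 1) (c := 2) (cn := .pnp) (n1 := ndF0q0) (n2 := ndF0q1) (pc := pcF2) (cut := cut_A00mm_012_s3) (xt := Ext.none) (P1 := 0) (W1 := 536870912) (P2 := 536870912) (W2 := 536870912) (P3 := 201326592) (W3 := 134217728)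
    rfl rfl rfl k0_A00mm_012_s3

theorem s_A00mm_012_s3 {κ x : ℝ} (hκ : κ * h0 = ken x) (hx : ((201326592 : ℕ) : ℝ) / S ≤ x)
    (hx' : x ≤ (((201326592 : ℕ) : ℝ) + (134217728 : ℕ)) / S) :
    AltA (VF κ) PP tKF tL pcF [⟨4, 0, 0, 2845415833⟩] 0 1 2 0 0 (sgb false) (sgb false) x :=
  strip_altA (m := 2845415833) false rfl hκ covF00 covF01 hx hx' c_A00mm_012_s3 cutA_nil (noExt_A)

noncomputable def cut_A00mm_022_s1 : Cut := Cut.of [[⟨4, 0, 0, 1449551462⟩]]

noncomputable def f_A00mm_022_s1 : ℕ → ℕ → ℕ → ℕ → Bool := onCell 0 536870912 0 536870912 201326592 134217728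
    (rowFK 0 true false false .pp 0 2 2 (qsf 0 536870912 0 536870912 2) ndF0q0 ndF0q2 pcF2 cut_A00mm_022_s1 Ext.none)

def k0_A00mm_022_s1 : ∃ t, chk3 f_A00mm_022_s1 t 1 1 1 = true :=
  ⟨(l 5), by decide +kernel⟩

theorem c_A00mm_022_s1 : CertF 0 536870912 0 536870912 201326592 134217728 true false false .pp 0 2 2
    ndF0q0 ndF0q2 pcF2 cut_A00mm_022_s1 Ext.none :=
  certFK0 (fam := true) (s1 := false) (s2 := false) (a := 0) (b := 2) (c := 2) (cn := .pp) (n1 := ndF0q0) (n2 := ndF0q2) (pc := pcF2) (cut := cut_A00mm_022_s1) (xt := Ext.none) (P1 := 0) (W1 := 536870912) (P2 := 0) (W2 := 536870912) (P3 := 201326592) (W3 := 134217728)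
    rfl rfl rfl k0_A00mm_022_s1

theorem s_A00mm_022_s1 {κ x : ℝ} (hκ : κ * h0 = ken x) (hx : ((201326592 : ℕ) : ℝ) / S ≤ x)
    (hx' : x ≤ (((201326592 : ℕ) : ℝ) + (134217728 : ℕ)) / S) :
    AltA (VF κ) PP tKF tL pcF [⟨3, 0, 0, 1449551462⟩] 0 2 2 0 0 (sgb false) (sgb false) x :=
  strip_altA (m := 1449551462) true rfl hκ covF00 covF02 hx hx' c_A00mm_022_s1 cutA_nil (noExt_A)

noncomputable def cut_A00mm_022_s3 : Cut := Cut.of [[⟨3, 0, 0, 2845415833⟩]]

noncomputable def f_A00mm_022_s3 : ℕ → ℕ → ℕ → ℕ → Bool := onCell 0 536870912 0 536870912 201326592 134217728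
    (rowFK 0 true false false .pp 0 2 2 (qsf 0 536870912 0 536870912 2) ndF0q0 ndF0q2 pcF2 cut_A00mm_022_s3 Ext.none)

def k0_A00mm_022_s3 : ∃ t, chk3 f_A00mm_022_s3 t 1 1 1 = true :=
  ⟨(l 5), by decide +kernel⟩

theorem c_A00mm_022_s3 : CertF 0 536870912 0 536870912 201326592 134217728 true false false .pp 0 2 2
    ndF0q0 ndF0q2 pcF2 cut_A00mm_022_s3 Ext.none :=
  certFK0 (fam := true) (s1 := false) (s2 := false) (a := 0) (b := 2) (c := 2) (cn := .pp) (n1 := ndF0q0) (n2 := ndF0q2) (pc := pcF2) (cut := cut_A00mm_022_s3) (xt := Ext.none) (P1 := 0) (W1 := 536870912) (P2 := 0) (W2 := 536870912) (P3 := 201326592) (W3 := 134217728)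
    rfl rfl rfl k0_A00mm_022_s3

theorem s_A00mm_022_s3 {κ x : ℝ} (hκ : κ * h0 = ken x) (hx : ((201326592 : ℕ) : ℝ) / S ≤ x)
    (hx' : x ≤ (((201326592 : ℕ) : ℝ) + (134217728 : ℕ)) / S) :
    AltA (VF κ) PP tKF tL pcF [⟨4, 0, 0, 2845415833⟩] 0 2 2 0 0 (sgb false) (sgb false) x :=
  strip_altA (m := 2845415833) false rfl hκ covF00 covF02 hx hx' c_A00mm_022_s3 cutA_nil (noExt_A)

noncomputable def cut_A00mm_023_s1 : Cut := Cut.of [[⟨4, 0, 0, 1449551462⟩]]

noncomputable def f_A00mm_023_s1 : ℕ → ℕ → ℕ → ℕ → Bool := onCell 0 536870912 0 536870912 201326592 134217728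
    (rowFK 0 true false false .up 0 2 3 (qsf 0 536870912 0 536870912 3) ndF0q0 ndF0q2 pcF3 cut_A00mm_023_s1 Ext.none)

def k0_A00mm_023_s1 : ∃ t, chk3 f_A00mm_023_s1 t 1 1 1 = true :=
  ⟨(l 5), by decide +kernel⟩

theorem c_A00mm_023_s1 : CertF 0 536870912 0 536870912 201326592 134217728 true false false .up 0 2 3
    ndF0q0 ndF0q2 pcF3 cut_A00mm_023_s1 Ext.none :=
  certFK0 (fam := true) (s1 := false) (s2 := false) (a := 0) (b := 2) (c := 3) (cn := .up) (n1 := ndF0q0) (n2 := ndF0q2) (pc := pcF3) (cut := cut_A00mm_023_s1) (xt := Ext.none) (P1 := 0) (W1 := 536870912) (P2 := 0) (W2 := 536870912) (P3 := 201326592) (W3 := 134217728)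
    rfl rfl rfl k0_A00mm_023_s1

theorem s_A00mm_023_s1 {κ x : ℝ} (hκ : κ * h0 = ken x) (hx : ((201326592 : ℕ) : ℝ) / S ≤ x)
    (hx' : x ≤ (((201326592 : ℕ) : ℝ) + (134217728 : ℕ)) / S) :
    AltA (VF κ) PP tKF tL pcF [⟨3, 0, 0, 1449551462⟩] 0 2 3 0 0 (sgb false) (sgb false) x :=
  strip_altA (m := 1449551462) true rfl hκ covF00 covF02 hx hx' c_A00mm_023_s1 cutA_nil (noExt_A)

noncomputable def cut_A00mm_023_s3 : Cut := Cut.of [[⟨3, 0, 0, 2845415833⟩]]

noncomputable def f_A00mm_023_s3 : ℕ → ℕ → ℕ → ℕ → Bool := onCell 0 536870912 0 536870912 201326592 134217728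
    (rowFK 0 true false false .up 0 2 3 (qsf 0 536870912 0 536870912 3) ndF0q0 ndF0q2 pcF3 cut_A00mm_023_s3 Ext.none)

def k0_A00mm_023_s3 : ∃ t, chk3 f_A00mm_023_s3 t 1 1 1 = true :=
  ⟨(l 5), by decide +kernel⟩

theorem c_A00mm_023_s3 : CertF 0 536870912 0 536870912 201326592 134217728 true false false .up 0 2 3
    ndF0q0 ndF0q2 pcF3 cut_A00mm_023_s3 Ext.none :=
  certFK0 (fam := true) (s1 := false) (s2 := false) (a := 0) (b := 2) (c := 3) (cn := .up) (n1 := ndF0q0) (n2 := ndF0q2) (pc := pcF3) (cut := cut_A00mm_023_s3) (xt := Ext.none) (P1 := 0) (W1 := 536870912) (P2 := 0) (W2 := 536870912) (P3 := 201326592) (W3 := 134217728)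
    rfl rfl rfl k0_A00mm_023_s3

theorem s_A00mm_023_s3 {κ x : ℝ} (hκ : κ * h0 = ken x) (hx : ((201326592 : ℕ) : ℝ) / S ≤ x)
    (hx' : x ≤ (((201326592 : ℕ) : ℝ) + (134217728 : ℕ)) / S) :
    AltA (VF κ) PP tKF tL pcF [⟨4, 0, 0, 2845415833⟩] 0 2 3 0 0 (sgb false) (sgb false) x :=
  strip_altA (m := 2845415833) false rfl hκ covF00 covF02 hx hx' c_A00mm_023_s3 cutA_nil (noExt_A)

noncomputable def cut_A00mm_101_s1 : Cut := Cut.of [[⟨4, 0, 0, 1449551462⟩], [⟨0, 1, 0, 67108864⟩, ⟨1, 0, 0, 67108864⟩, ⟨2, 1, 0, 67108864⟩]]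

noncomputable def f_A00mm_101_s1 : ℕ → ℕ → ℕ → ℕ → Bool := onCell 536870912 536870912 0 536870912 201326592 134217728
    (rowFK 0 true false false .npn 1 0 1 (qsf 536870912 536870912 0 536870912 1) ndF0q1 ndF0q0 pcF1 cut_A00mm_101_s1 Ext.none)

def k0_A00mm_101_s1 : ∃ t, chk3 f_A00mm_101_s1 t 1 1 1 = true :=
  ⟨(l 6), by decide +kernel⟩

theorem c_A00mm_101_s1 : CertF 536870912 536870912 0 536870912 201326592 134217728 true false false .npn 1 0 1
    ndF0q1 ndF0q0 pcF1 cut_A00mm_101_s1 Ext.none :=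
  certFK0 (fam := true) (s1 := false) (s2 := false) (a := 1) (b := 0) (c := 1) (cn := .npn) (n1 := ndF0q1) (n2 := ndF0q0) (pc := pcF1) (cut := cut_A00mm_101_s1) (xt := Ext.none) (P1 := 536870912) (W1 := 536870912) (P2 := 0) (W2 := 536870912) (P3 := 201326592) (W3 := 134217728)
    rfl rfl rfl k0_A00mm_101_s1

theorem s_A00mm_101_s1 {κ x : ℝ} (hκ : κ * h0 = ken x) (hx : ((201326592 : ℕ) : ℝ) / S ≤ x)
    (hx' : x ≤ (((201326592 : ℕ) : ℝ) + (134217728 : ℕ)) / S)
    (H : CutA (VF κ) PP tKF tL pcF (Cut.of [[⟨0, 1, 0, 67108864⟩, ⟨1, 0, 0, 67108864⟩, ⟨2, 1, 0, 67108864⟩]]) 1 0 1 0 0 (sgb false) (sgb false) x) :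
    AltA (VF κ) PP tKF tL pcF [⟨3, 0, 0, 1449551462⟩] 1 0 1 0 0 (sgb false) (sgb false) x :=
  strip_altA (m := 1449551462) true rfl hκ covF01 covF00 hx hx' c_A00mm_101_s1 H (noExt_A)

noncomputable def cut_A00mm_101_s3 : Cut := Cut.of [[⟨3, 0, 0, 2845415833⟩], [⟨0, 1, 0, 67108864⟩, ⟨1, 0, 0, 67108864⟩, ⟨2, 1, 0, 67108864⟩]]

noncomputable def f_A00mm_101_s3 : ℕ → ℕ → ℕ → ℕ → Bool := onCell 536870912 536870912 0 536870912 201326592 134217728
    (rowFK 0 true false false .npn 1 0 1 (qsf 536870912 536870912 0 536870912 1) ndF0q1 ndF0q0 pcF1 cut_A00mm_101_s3 Ext.none)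

def k0_A00mm_101_s3 : ∃ t, chk3 f_A00mm_101_s3 t 1 1 1 = true :=
  ⟨(a (l 4) (b (a (l 4) (a (l 4) (b (b (a (l 4) (b (l 14) (l 4))) (l 4)) (l 2)))) (l 4))), by decide +kernel⟩

theorem c_A00mm_101_s3 : CertF 536870912 536870912 0 536870912 201326592 134217728 true false false .npn 1 0 1
    ndF0q1 ndF0q0 pcF1 cut_A00mm_101_s3 Ext.none :=
  certFK0 (fam := true) (s1 := false) (s2 := false) (a := 1) (b := 0) (c := 1) (cn := .npn) (n1 := ndF0q1) (n2 := ndF0q0) (pc := pcF1) (cut := cut_A00mm_101_s3) (xt := Ext.none) (P1 := 536870912) (W1 := 536870912) (P2 := 0) (W2 := 536870912) (P3 := 201326592) (W3 := 134217728)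
    rfl rfl rfl k0_A00mm_101_s3

theorem s_A00mm_101_s3 {κ x : ℝ} (hκ : κ * h0 = ken x) (hx : ((201326592 : ℕ) : ℝ) / S ≤ x)
    (hx' : x ≤ (((201326592 : ℕ) : ℝ) + (134217728 : ℕ)) / S)
    (H : CutA (VF κ) PP tKF tL pcF (Cut.of [[⟨0, 1, 0, 67108864⟩, ⟨1, 0, 0, 67108864⟩, ⟨2, 1, 0, 67108864⟩]]) 1 0 1 0 0 (sgb false) (sgb false) x) :
    AltA (VF κ) PP tKF tL pcF [⟨4, 0, 0, 2845415833⟩] 1 0 1 0 0 (sgb false) (sgb false) x :=
  strip_altA (m := 2845415833) false rfl hκ covF01 covF00 hx hx' c_A00mm_101_s3 H (noExt_A)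

noncomputable def cut_A00mm_102_s1 : Cut := Cut.of [[⟨4, 0, 0, 1449551462⟩], [⟨0, 1, 0, 67108864⟩, ⟨1, 0, 0, 67108864⟩, ⟨2, 1, 0, 67108864⟩]]

noncomputable def f_A00mm_102_s1 : ℕ → ℕ → ℕ → ℕ → Bool := onCell 536870912 536870912 0 536870912 201326592 134217728
    (rowFK 0 true false false .npp 1 0 2 (qsf 536870912 536870912 0 536870912 2) ndF0q1 ndF0q0 pcF2 cut_A00mm_102_s1 Ext.none)

def k0_A00mm_102_s1 : ∃ t, chk3 f_A00mm_102_s1 t 1 1 1 = true :=
  ⟨(l 6), by decide +kernel⟩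

theorem c_A00mm_102_s1 : CertF 536870912 536870912 0 536870912 201326592 134217728 true false false .npp 1 0 2
    ndF0q1 ndF0q0 pcF2 cut_A00mm_102_s1 Ext.none :=
  certFK0 (fam := true) (s1 := false) (s2 := false) (a := 1) (b := 0) (c := 2) (cn := .npp) (n1 := ndF0q1) (n2 := ndF0q0) (pc := pcF2) (cut := cut_A00mm_102_s1) (xt := Ext.none) (P1 := 536870912) (W1 := 536870912) (P2 := 0) (W2 := 536870912) (P3 := 201326592) (W3 := 134217728)
    rfl rfl rfl k0_A00mm_102_s1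

theorem s_A00mm_102_s1 {κ x : ℝ} (hκ : κ * h0 = ken x) (hx : ((201326592 : ℕ) : ℝ) / S ≤ x)
    (hx' : x ≤ (((201326592 : ℕ) : ℝ) + (134217728 : ℕ)) / S)
    (H : CutA (VF κ) PP tKF tL pcF (Cut.of [[⟨0, 1, 0, 67108864⟩, ⟨1, 0, 0, 67108864⟩, ⟨2, 1, 0, 67108864⟩]]) 1 0 2 0 0 (sgb false) (sgb false) x) :
    AltA (VF κ) PP tKF tL pcF [⟨3, 0, 0, 1449551462⟩] 1 0 2 0 0 (sgb false) (sgb false) x :=
  strip_altA (m := 1449551462) true rfl hκ covF01 covF00 hx hx' c_A00mm_102_s1 H (noExt_A)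

noncomputable def cut_A00mm_102_s3 : Cut := Cut.of [[⟨3, 0, 0, 2845415833⟩], [⟨0, 1, 0, 67108864⟩, ⟨1, 0, 0, 67108864⟩, ⟨2, 1, 0, 67108864⟩]]

noncomputable def f_A00mm_102_s3 : ℕ → ℕ → ℕ → ℕ → Bool := onCell 536870912 536870912 0 536870912 201326592 134217728
    (rowFK 0 true false false .npp 1 0 2 (qsf 536870912 536870912 0 536870912 2) ndF0q1 ndF0q0 pcF2 cut_A00mm_102_s3 Ext.none)

def k0_A00mm_102_s3 : ∃ t, chk3 f_A00mm_102_s3 t 1 1 1 = true :=
  ⟨(a (l 4) (b (a (l 4) (b (a (l 4) (a (l 4) (b (b (l 14) (l 4)) (l 4)))) (l 4))) (l 4))), by decide +kernel⟩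

theorem c_A00mm_102_s3 : CertF 536870912 536870912 0 536870912 201326592 134217728 true false false .npp 1 0 2
    ndF0q1 ndF0q0 pcF2 cut_A00mm_102_s3 Ext.none :=
  certFK0 (fam := true) (s1 := false) (s2 := false) (a := 1) (b := 0) (c := 2) (cn := .npp) (n1 := ndF0q1) (n2 := ndF0q0) (pc := pcF2) (cut := cut_A00mm_102_s3) (xt := Ext.none) (P1 := 536870912) (W1 := 536870912) (P2 := 0) (W2 := 536870912) (P3 := 201326592) (W3 := 134217728)
    rfl rfl rfl k0_A00mm_102_s3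

theorem s_A00mm_102_s3 {κ x : ℝ} (hκ : κ * h0 = ken x) (hx : ((201326592 : ℕ) : ℝ) / S ≤ x)
    (hx' : x ≤ (((201326592 : ℕ) : ℝ) + (134217728 : ℕ)) / S)
    (H : CutA (VF κ) PP tKF tL pcF (Cut.of [[⟨0, 1, 0, 67108864⟩, ⟨1, 0, 0, 67108864⟩, ⟨2, 1, 0, 67108864⟩]]) 1 0 2 0 0 (sgb false) (sgb false) x) :
    AltA (VF κ) PP tKF tL pcF [⟨4, 0, 0, 2845415833⟩] 1 0 2 0 0 (sgb false) (sgb false) x :=
  strip_altA (m := 2845415833) false rfl hκ covF01 covF00 hx hx' c_A00mm_102_s3 H (noExt_A)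

noncomputable def cut_A00mm_112_s1 : Cut := Cut.of [[⟨4, 0, 0, 1449551462⟩]]

noncomputable def f_A00mm_112_s1 : ℕ → ℕ → ℕ → ℕ → Bool := onCell 536870912 536870912 536870912 536870912 201326592 134217728
    (rowFK 0 true false false .dn 1 1 2 (qsf 536870912 536870912 536870912 536870912 2) ndF0q1 ndF0q1 pcF2 cut_A00mm_112_s1 Ext.none)

def k0_A00mm_112_s1 : ∃ t, chk3 f_A00mm_112_s1 t 1 1 1 = true :=
  ⟨(l 4), by decide +kernel⟩

theorem c_A00mm_112_s1 : CertF 536870912 536870912 536870912 536870912 201326592 134217728 true false false .dn 1 1 2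
    ndF0q1 ndF0q1 pcF2 cut_A00mm_112_s1 Ext.none :=
  certFK0 (fam := true) (s1 := false) (s2 := false) (a := 1) (b := 1) (c := 2) (cn := .dn) (n1 := ndF0q1) (n2 := ndF0q1) (pc := pcF2) (cut := cut_A00mm_112_s1) (xt := Ext.none) (P1 := 536870912) (W1 := 536870912) (P2 := 536870912) (W2 := 536870912) (P3 := 201326592) (W3 := 134217728)
    rfl rfl rfl k0_A00mm_112_s1

theorem s_A00mm_112_s1 {κ x : ℝ} (hκ : κ * h0 = ken x) (hx : ((201326592 : ℕ) : ℝ) / S ≤ x)
    (hx' : x ≤ (((201326592 : ℕ) : ℝ) + (134217728 : ℕ)) / S) :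
    AltA (VF κ) PP tKF tL pcF [⟨3, 0, 0, 1449551462⟩] 1 1 2 0 0 (sgb false) (sgb false) x :=
  strip_altA (m := 1449551462) true rfl hκ covF01 covF01 hx hx' c_A00mm_112_s1 cutA_nil (noExt_A)

noncomputable def cut_A00mm_112_s3 : Cut := Cut.of [[⟨3, 0, 0, 2845415833⟩]]

noncomputable def f_A00mm_112_s3 : ℕ → ℕ → ℕ → ℕ → Bool := onCell 536870912 536870912 536870912 536870912 201326592 134217728
    (rowFK 0 true false false .dn 1 1 2 (qsf 536870912 536870912 536870912 536870912 2) ndF0q1 ndF0q1 pcF2 cut_A00mm_112_s3 Ext.none)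

def k0_A00mm_112_s3 : ∃ t, chk3 f_A00mm_112_s3 t 1 1 1 = true :=
  ⟨(l 4), by decide +kernel⟩

theorem c_A00mm_112_s3 : CertF 536870912 536870912 536870912 536870912 201326592 134217728 true false false .dn 1 1 2
    ndF0q1 ndF0q1 pcF2 cut_A00mm_112_s3 Ext.none :=
  certFK0 (fam := true) (s1 := false) (s2 := false) (a := 1) (b := 1) (c := 2) (cn := .dn) (n1 := ndF0q1) (n2 := ndF0q1) (pc := pcF2) (cut := cut_A00mm_112_s3) (xt := Ext.none) (P1 := 536870912) (W1 := 536870912) (P2 := 536870912) (W2 := 536870912) (P3 := 201326592) (W3 := 134217728)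
    rfl rfl rfl k0_A00mm_112_s3

theorem s_A00mm_112_s3 {κ x : ℝ} (hκ : κ * h0 = ken x) (hx : ((201326592 : ℕ) : ℝ) / S ≤ x)
    (hx' : x ≤ (((201326592 : ℕ) : ℝ) + (134217728 : ℕ)) / S) :
    AltA (VF κ) PP tKF tL pcF [⟨4, 0, 0, 2845415833⟩] 1 1 2 0 0 (sgb false) (sgb false) x :=
  strip_altA (m := 2845415833) false rfl hκ covF01 covF01 hx hx' c_A00mm_112_s3 cutA_nil (noExt_A)

noncomputable def cut_A00mm_113_s1 : Cut := Cut.of [[⟨4, 0, 0, 1449551462⟩]]

noncomputable def f_A00mm_113_s1 : ℕ → ℕ → ℕ → ℕ → Bool := onCell 536870912 536870912 536870912 536870912 201326592 134217728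
    (rowFK 0 true false false .nn 1 1 3 (qsf 536870912 536870912 536870912 536870912 3) ndF0q1 ndF0q1 pcF3 cut_A00mm_113_s1 Ext.none)

def k0_A00mm_113_s1 : ∃ t, chk3 f_A00mm_113_s1 t 1 1 1 = true :=
  ⟨(l 4), by decide +kernel⟩

theorem c_A00mm_113_s1 : CertF 536870912 536870912 536870912 536870912 201326592 134217728 true false false .nn 1 1 3
    ndF0q1 ndF0q1 pcF3 cut_A00mm_113_s1 Ext.none :=
  certFK0 (fam := true) (s1 := false) (s2 := false) (a := 1) (b := 1) (c := 3) (cn := .nn) (n1 := ndF0q1) (n2 := ndF0q1) (pc := pcF3) (cut := cut_A00mm_113_s1) (xt := Ext.none) (P1 := 536870912) (W1 := 536870912) (P2 := 536870912) (W2 := 536870912) (P3 := 201326592) (W3 := 134217728)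
    rfl rfl rfl k0_A00mm_113_s1

theorem s_A00mm_113_s1 {κ x : ℝ} (hκ : κ * h0 = ken x) (hx : ((201326592 : ℕ) : ℝ) / S ≤ x)
    (hx' : x ≤ (((201326592 : ℕ) : ℝ) + (134217728 : ℕ)) / S) :
    AltA (VF κ) PP tKF tL pcF [⟨3, 0, 0, 1449551462⟩] 1 1 3 0 0 (sgb false) (sgb false) x :=
  strip_altA (m := 1449551462) true rfl hκ covF01 covF01 hx hx' c_A00mm_113_s1 cutA_nil (noExt_A)

noncomputable def cut_A00mm_113_s3 : Cut := Cut.of [[⟨3, 0, 0, 2845415833⟩]]

noncomputable def f_A00mm_113_s3 : ℕ → ℕ → ℕ → ℕ → Bool := onCell 536870912 536870912 536870912 536870912 201326592 134217728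
    (rowFK 0 true false false .nn 1 1 3 (qsf 536870912 536870912 536870912 536870912 3) ndF0q1 ndF0q1 pcF3 cut_A00mm_113_s3 Ext.none)

def k0_A00mm_113_s3 : ∃ t, chk3 f_A00mm_113_s3 t 1 1 1 = true :=
  ⟨(l 4), by decide +kernel⟩

theorem c_A00mm_113_s3 : CertF 536870912 536870912 536870912 536870912 201326592 134217728 true false false .nn 1 1 3
    ndF0q1 ndF0q1 pcF3 cut_A00mm_113_s3 Ext.none :=
  certFK0 (fam := true) (s1 := false) (s2 := false) (a := 1) (b := 1) (c := 3) (cn := .nn) (n1 := ndF0q1) (n2 := ndF0q1) (pc := pcF3) (cut := cut_A00mm_113_s3) (xt := Ext.none) (P1 := 536870912) (W1 := 536870912) (P2 := 536870912) (W2 := 536870912) (P3 := 201326592) (W3 := 134217728)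
    rfl rfl rfl k0_A00mm_113_s3

theorem s_A00mm_113_s3 {κ x : ℝ} (hκ : κ * h0 = ken x) (hx : ((201326592 : ℕ) : ℝ) / S ≤ x)
    (hx' : x ≤ (((201326592 : ℕ) : ℝ) + (134217728 : ℕ)) / S) :
    AltA (VF κ) PP tKF tL pcF [⟨4, 0, 0, 2845415833⟩] 1 1 3 0 0 (sgb false) (sgb false) x :=
  strip_altA (m := 2845415833) false rfl hκ covF01 covF01 hx hx' c_A00mm_113_s3 cutA_nil (noExt_A)

noncomputable def cut_A00mm_123_s1 : Cut := Cut.of [[⟨4, 0, 0, 1449551462⟩]]

noncomputable def f_A00mm_123_s1 : ℕ → ℕ → ℕ → ℕ → Bool := onCell 536870912 536870912 0 536870912 201326592 134217728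
    (rowFK 0 true false false .npn 1 2 3 (qsf 536870912 536870912 0 536870912 3) ndF0q1 ndF0q2 pcF3 cut_A00mm_123_s1 Ext.none)

def k0_A00mm_123_s1 : ∃ t, chk3 f_A00mm_123_s1 t 1 1 1 = true :=
  ⟨(l 6), by decide +kernel⟩

theorem c_A00mm_123_s1 : CertF 536870912 536870912 0 536870912 201326592 134217728 true false false .npn 1 2 3
    ndF0q1 ndF0q2 pcF3 cut_A00mm_123_s1 Ext.none :=
  certFK0 (fam := true) (s1 := false) (s2 := false) (a := 1) (b := 2) (c := 3) (cn := .npn) (n1 := ndF0q1) (n2 := ndF0q2) (pc := pcF3) (cut := cut_A00mm_123_s1) (xt := Ext.none) (P1 := 536870912) (W1 := 536870912) (P2 := 0) (W2 := 536870912) (P3 := 201326592) (W3 := 134217728)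
    rfl rfl rfl k0_A00mm_123_s1

theorem s_A00mm_123_s1 {κ x : ℝ} (hκ : κ * h0 = ken x) (hx : ((201326592 : ℕ) : ℝ) / S ≤ x)
    (hx' : x ≤ (((201326592 : ℕ) : ℝ) + (134217728 : ℕ)) / S) :
    AltA (VF κ) PP tKF tL pcF [⟨3, 0, 0, 1449551462⟩] 1 2 3 0 0 (sgb false) (sgb false) x :=
  strip_altA (m := 1449551462) true rfl hκ covF01 covF02 hx hx' c_A00mm_123_s1 cutA_nil (noExt_A)

noncomputable def cut_A00mm_123_s3 : Cut := Cut.of [[⟨3, 0, 0, 2845415833⟩]]

noncomputable def f_A00mm_123_s3 : ℕ → ℕ → ℕ → ℕ → Bool := onCell 536870912 536870912 0 536870912 201326592 134217728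
    (rowFK 0 true false false .npn 1 2 3 (qsf 536870912 536870912 0 536870912 3) ndF0q1 ndF0q2 pcF3 cut_A00mm_123_s3 Ext.none)

def k0_A00mm_123_s3 : ∃ t, chk3 f_A00mm_123_s3 t 1 1 1 = true :=
  ⟨(a (l 5) (l 4)), by decide +kernel⟩

theorem c_A00mm_123_s3 : CertF 536870912 536870912 0 536870912 201326592 134217728 true false false .npn 1 2 3
    ndF0q1 ndF0q2 pcF3 cut_A00mm_123_s3 Ext.none :=
  certFK0 (fam := true) (s1 := false) (s2 := false) (a := 1) (b := 2) (c := 3) (cn := .npn) (n1 := ndF0q1) (n2 := ndF0q2) (pc := pcF3) (cut := cut_A00mm_123_s3) (xt := Ext.none) (P1 := 536870912) (W1 := 536870912) (P2 := 0) (W2 := 536870912) (P3 := 201326592) (W3 := 134217728)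
    rfl rfl rfl k0_A00mm_123_s3

theorem s_A00mm_123_s3 {κ x : ℝ} (hκ : κ * h0 = ken x) (hx : ((201326592 : ℕ) : ℝ) / S ≤ x)
    (hx' : x ≤ (((201326592 : ℕ) : ℝ) + (134217728 : ℕ)) / S) :
    AltA (VF κ) PP tKF tL pcF [⟨4, 0, 0, 2845415833⟩] 1 2 3 0 0 (sgb false) (sgb false) x :=
  strip_altA (m := 2845415833) false rfl hκ covF01 covF02 hx hx' c_A00mm_123_s3 cutA_nil (noExt_A)

noncomputable def cut_A00mm_202_s1 : Cut := Cut.of [[⟨4, 0, 0, 1449551462⟩], [⟨0, 1, 0, 67108864⟩, ⟨1, 0, 0, 67108864⟩, ⟨2, 1, 0, 67108864⟩]]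

noncomputable def f_A00mm_202_s1 : ℕ → ℕ → ℕ → ℕ → Bool := onCell 0 536870912 0 536870912 201326592 134217728
    (rowFK 0 true false false .pp 2 0 2 (qsf 0 536870912 0 536870912 2) ndF0q2 ndF0q0 pcF2 cut_A00mm_202_s1 Ext.none)

def k0_A00mm_202_s1 : ∃ t, chk3 f_A00mm_202_s1 t 1 1 1 = true :=
  ⟨(l 6), by decide +kernel⟩

theorem c_A00mm_202_s1 : CertF 0 536870912 0 536870912 201326592 134217728 true false false .pp 2 0 2
    ndF0q2 ndF0q0 pcF2 cut_A00mm_202_s1 Ext.none :=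
  certFK0 (fam := true) (s1 := false) (s2 := false) (a := 2) (b := 0) (c := 2) (cn := .pp) (n1 := ndF0q2) (n2 := ndF0q0) (pc := pcF2) (cut := cut_A00mm_202_s1) (xt := Ext.none) (P1 := 0) (W1 := 536870912) (P2 := 0) (W2 := 536870912) (P3 := 201326592) (W3 := 134217728)
    rfl rfl rfl k0_A00mm_202_s1

theorem s_A00mm_202_s1 {κ x : ℝ} (hκ : κ * h0 = ken x) (hx : ((201326592 : ℕ) : ℝ) / S ≤ x)
    (hx' : x ≤ (((201326592 : ℕ) : ℝ) + (134217728 : ℕ)) / S)
    (H : CutA (VF κ) PP tKF tL pcF (Cut.of [[⟨0, 1, 0, 67108864⟩, ⟨1, 0, 0, 67108864⟩, ⟨2, 1, 0, 67108864⟩]]) 2 0 2 0 0 (sgb false) (sgb false) x) :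
    AltA (VF κ) PP tKF tL pcF [⟨3, 0, 0, 1449551462⟩] 2 0 2 0 0 (sgb false) (sgb false) x :=
  strip_altA (m := 1449551462) true rfl hκ covF02 covF00 hx hx' c_A00mm_202_s1 H (noExt_A)

noncomputable def cut_A00mm_202_s3 : Cut := Cut.of [[⟨3, 0, 0, 2845415833⟩], [⟨0, 1, 0, 67108864⟩, ⟨1, 0, 0, 67108864⟩, ⟨2, 1, 0, 67108864⟩]]

noncomputable def xt_A00mm_202_s3 : Ext := strExt dd true false false .u2 .u0m .s2m .pp 2 0 2 rfl rfl gl2 vv ndF0q2 ndF0q0

noncomputable def f_A00mm_202_s3 : ℕ → ℕ → ℕ → ℕ → Bool := onCell 0 536870912 0 536870912 201326592 134217728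
    (rowFK 0 true false false .pp 2 0 2 (qsf 0 536870912 0 536870912 2) ndF0q2 ndF0q0 pcF2 cut_A00mm_202_s3 xt_A00mm_202_s3)

def k0_A00mm_202_s3 : ∃ t, chk3 f_A00mm_202_s3 t 2 1 1 = true :=
  ⟨(b (a (b (l 6) (b (l 6) (a (l 6) (b (l 6) (a (l 6) (l 16942120)))))) (b (a (l 6) (b (l 6) (a (l 6) (b (l 16691824) (l 16736768))))) (a (b (b (l 6) (a (l 6) (l 16821352))) (b (a (l 16894816) (l 16870528)) (a (l 16915504) (l 16887928)))) (a (b (b (l 16699776) (l 16799528)) (b (l 16846224) (b (l 16859232) (l 16860648)))) (b (b (l 16762320) (l 16778344)) (b (b (l 16815312) (l 16827872)) (b (l 16833264) (l 16833072)))))))) (b (a (b (a (b (l 6) (l 17006736)) (b (a (l 16973128) (l 16945528)) (a (l 16965248) (l 16934944)))) (b (a (l 16908448) (a (l 16947296) (l 16914888))) (b (a (l 16976248) (a (l 16929144) (l 16895536))) (l 2)))) (a (b (a (b (l 16915744) (l 16902528)) (b (l 16801240) (c (l 16898456) (l 16839824)))) (b (a (c (l 16905808) (l 16854712))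 (a (b (l 16860544) (l 16847216)) (l 540569871))) (b (a (l 16859936) (a (l 16832752) (c (l 16802360) (l 16785128)))) (b (a (l 16848808) (a (l 16821304) (l 540769551))) (l 2))))) (b (b (a (b (l 16857672) (l 16851224)) (a (l 539859727) (l 539822863))) (a (a (l 540303631) (l 540303887)) (c (l 541527823) (l 539040015)))) (a (b (a (l 540579599) (l 540590863)) (a (a (b (l 540720399) (a (l 540791567) (l 540795151))) (l 540768015)) (l 540780815))) (b (c (l 541675023) (l 539514895)) (l 540806415)))))) (a (l 2) (a (l 2) (a (l 2) (l 4)))))), by decide +kernel⟩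

def k1_A00mm_202_s3 : ∃ t, chk3 f_A00mm_202_s3 t 6 4 1 = true :=
  ⟨(b (a (a (b (l 6) (b (l 6) (l 16666408))) (b (b (b (l 6) (l 16673272)) (b (l 16675112) (l 16676944))) (b (a (l 16675760) (l 16683440)) (l 16725304)))) (c (a (b (b (b (a (l 16684408) (l 16690872)) (l 16689872)) (b (l 16692072) (l 16694280))) (b (a (l 16693608) (l 16701472)) (l 16723040))) (b (b (b (a (l 16697512) (l 16704296)) (a (l 16700152) (l 16707208))) (a (b (l 16702792) (l 16705448)) (b (l 16710112) (l 16713024)))) (a (b (l 16709424) (l 16714856)) (b (b (l 16715960) (l 16718928)) (l 16723368))))) (a (b (b (b (a (l 16675704) (l 16682248)) (l 16681888)) (a (l 16682448) (l 16689712))) (b (a (l 16687792) (l 16695648)) (l 16697384))) (b (b (b (a (l 16689056) (l 16696136)) (a (l 16692344) (l 16699680))) (a (l 16702448) (b (l 16703192) (l 16706688)))) (a (b (l 16703680) (l 16710160)) (b (l 16711888) (l 16718872))))))) (a (b (a (b (l 16668776) (l 16671408)) (b (l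 16729120) (l 16733200))) (a (b (l 16674512) (l 16678256)) (b (l 16779600) (l 16784704)))) (a (b (a (b (l 16700720) (l 16705736)) (b (l 16709760) (l 16715368))) (a (b (l 16711112) (l 16717072)) (b (l 16721280) (l 16769696)))) (b (a (b (l 16739808) (l 16745960)) (b (b (l 16726320) (l 16729616)) (b (l 16732952) (l 16736344)))) (a (b (l 16752408) (l 535028239)) (b (l 535899407) (l 535294479))))))), by decide +kernel⟩

def k2_A00mm_202_s3 : ∃ t, chk3 f_A00mm_202_s3 t 7 16 1 = true :=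
  ⟨(a (a (a (a (b (b (c (l 16709480) (l 16701632)) (l 16709336)) (b (l 16712696) (l 16716056))) (b (b (c (l 16713008) (l 16705424)) (l 16723560)) (b (l 16716552) (l 16720024)))) (a (b (b (b (l 16712400) (l 16714208)) (c (l 16719928) (l 16713256))) (b (l 16720488) (l 16724072))) (b (b (b (c (l 16719432) (l 16712328)) (l 16718056)) (c (l 16723712) (l 16717376))) (b (c (l 16727136) (l 16721384)) (l 16738688))))) (a (b (a (b (a (b (l 14) (l 16721016)) (l 14)) (b (l 16734416) (l 16725832))) (b (l 14) (a (b (l 16727040) (l 16728976)) (b (l 14) (l 16731128))))) (a (b (b (l 16727720) (l 16729616)) (b (l 16731504) (l 16733392))) (b (b (l 16731992) (l 16733928)) (c (l 16738856) (l 16734424))))) (b (a (b (l 14) (a (b (l 14) (l 16733328)) (l 14))) (l 14)) (a (a (b (b (l 16735304) (l 16737280)) (l 534846735)) (b (b (l 16737568) (l 16739560)) (l 535098127))) (b (b (l 14) (a (l 16741888) (l 16744264))) (a (b (l 16743904) (l 16745912)) (b (l 16746296)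 (l 16748328)))))))) (b (l 14) (b (a (l 14) (l 14)) (a (a (a (a (a (l 534783759) (l 534775055)) (a (l 534766351) (l 534757647))) (b (l 14) (a (l 535277839) (c (l 16759456) (l 16757184))))) (l 14)) (l 14))))), by decide +kernel⟩

def k3_A00mm_202_s3 : ∃ t, chk3 f_A00mm_202_s3 t 14 17 1 = true :=
  ⟨(a (a (b (a (b (l 16719416) (l 16722800)) (b (l 16723496) (l 16726984))) (b (l 16749312) (l 16752784))) (b (a (b (l 16727648) (l 16731240)) (b (l 16731880) (l 16735568))) (a (l 535992847) (b (l 16739280) (l 16743008))))) (a (a (b (b (c (l 16738168) (l 16733888)) (l 535417871)) (b (l 534868495) (l 16758112))) (b (b (c (l 16742480) (l 16738584)) (b (l 16743608) (l 16745552))) (b (l 535642127) (l 535360783)))) (a (b (b (b (l 16744360) (l 16746336)) (b (l 16748320) (l 16760784))) (b (c (l 535438863) (l 16762424)) (a (l 534804239) (l 534788879)))) (a (b (b (l 534804495) (l 534795535)) (b (l 534785039) (l 534773263))) (b (b (l 535056143) (l 534779151))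 (b (l 534769167) (l 534757903))))))), by decide +kernel⟩

def k4_A00mm_202_s3 : ∃ t, chk3 f_A00mm_202_s3 t 15 17 1 = true :=
  ⟨(b (a (a (a (a (b (b (l 16752832) (l 16754880)) (l 534762511)) (b (b (l 16760592) (l 16762656)) (l 535282703))) (a (b (a (l 534742799) (l 534734095)) (a (l 534735375) (l 534727183))) (a (b (l 534725391) (l 534718735)) (b (l 534716687) (l 534710287))))) (a (a (a (b (l 534707983) (l 534701583)) (b (l 534967567) (l 534693135))) (a (b (b (l 14) (l 534689039)) (l 534684431)) (b (b (l 14) (l 534680335)) (l 534944271)))) (a (a (b (b (l 14) (l 534671375)) (l 535203855)) (b (b (l 14) (l 534662159)) (b (l 534659599) (l 534656783)))) (b (l 14) (b (a (l 534650639) (l 534909967)) (a (l 534647823) (l 534638863))))))) (b (l 14) (b (b (l 14) (b (l 14) (l 4))) (l 4)))) (a (a (a (a (b (l 534753039) (l 534742543)) (b (l 534736911) (l 534726671))) (a (b (l 535257359) (l 534979087)) (b (a (l 534710543) (l 534702351)) (l 535499791))))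 (a (a (a (a (l 534960655) (l 534956559)) (b (l 534685711) (l 534677263))) (a (b (l 534677263) (l 534669071)) (b (l 534668815) (l 4)))) (a (b (a (l 534660367) (l 534920207)) (l 4)) (l 4)))) (l 4))), by decide +kernel⟩

def k5_A00mm_202_s3 : ∃ t, chk3 f_A00mm_202_s3 t 7 9 1 = true :=
  ⟨(b (a (a (a (b (b (l 16756280) (l 16759816)) (b (l 16763384) (l 535926031))) (b (a (l 534885135) (l 535397135)) (a (l 535112975) (l 535091471)))) (a (a (b (l 535905551) (l 535065103)) (b (c (l 535694863) (l 535503119)) (l 535574031))) (a (b (b (l 535853071) (l 535570447)) (b (l 535286287) (l 535000591))) (a (b (b (l 534760719) (l 534746895)) (l 534723599)) (b (b (l 534745615) (l 534732559)) (l 535514895)))))) (a (a (b (a (a (b (l 534730511) (l 534717967)) (b (l 534715407) (l 534703119))) (a (b (l 534699791) (l 534688015)) (b (l 535221007) (l 4)))) (a (a (b (l 534703887) (l 4)) (l 4)) (l 4))) (l 4)) (l 4))) (a (a (a (b (c (l 535935759) (l 536081167))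 (a (l 534755087) (l 534748687))) (a (b (l 535333647) (b (l 534754831) (l 534726415))) (b (l 535582735) (b (l 535013903) (l 534987279))))) (a (a (b (l 535023887) (c (l 535307791) (l 535437071))) (b (l 535266319) (l 535759631))) (a (b (l 535507983) (l 4)) (l 4)))) (l 4))), by decide +kernel⟩

def k6_A00mm_202_s3 : ∃ t, chk3 f_A00mm_202_s3 t 3 5 1 = true :=
  ⟨(a (a (b (a (b (b (l 16766576) (l 16776296)) (b (l 16741704) (l 16774480))) (b (b (l 16748528) (l 16744416)) (a (l 535727631) (l 535236367)))) (a (b (a (l 538015247) (l 537810191)) (a (l 539056911) (l 538939663))) (b (a (l 537563919) (l 537267727)) (a (l 538797839) (l 538624783))))) (b (a (b (b (a (l 16807568) (l 16776768)) (a (l 16772792) (l 534593551))) (a (b (l 16770080) (l 535305999)) (b (l 534771983) (l 534684943)))) (a (b (b (l 534688015) (l 534880271)) (a (l 535015951) (l 534495759))) (b (b (l 534961935) (l 534894607)) (b (l 534822159) (l 534475791))))) (a (b (a (l 536910863)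 (l 536480783)) (a (l 538413327) (l 4))) (b (a (b (l 535354639) (l 4)) (l 4)) (l 4))))) (b (a (a (a (b (b (l 535495183) (l 535436303)) (a (l 534534159) (l 4))) (b (a (l 535196943) (l 535459343)) (l 4))) (l 4)) (l 4)) (l 4))), by decide +kernel⟩

def k7_A00mm_202_s3 : ∃ t, chk3 f_A00mm_202_s3 t 3 3 1 = true :=
  ⟨(b (a (a (b (a (b (b (l 539583503) (l 539891727)) (l 540259087)) (b (a (l 539635983) (l 539542031)) (l 4))) (l 4)) (l 4)) (l 4)) (l 4)), by decide +kernel⟩

theorem t8_A00mm_202_s3 : ∃ t, chk3 f_A00mm_202_s3 t 7 17 1 = true := ex3_a k3_A00mm_202_s3 k4_A00mm_202_s3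

theorem t9_A00mm_202_s3 : ∃ t, chk3 f_A00mm_202_s3 t 7 8 1 = true := ex3_b k2_A00mm_202_s3 t8_A00mm_202_s3

theorem t10_A00mm_202_s3 : ∃ t, chk3 f_A00mm_202_s3 t 7 4 1 = true := ex3_b t9_A00mm_202_s3 k5_A00mm_202_s3

theorem t11_A00mm_202_s3 : ∃ t, chk3 f_A00mm_202_s3 t 3 4 1 = true := ex3_a k1_A00mm_202_s3 t10_A00mm_202_s3

theorem t12_A00mm_202_s3 : ∃ t, chk3 f_A00mm_202_s3 t 3 2 1 = true := ex3_b t11_A00mm_202_s3 k6_A00mm_202_s3

theorem t13_A00mm_202_s3 : ∃ t, chk3 f_A00mm_202_s3 t 3 1 1 = true := ex3_b t12_A00mm_202_s3 k7_A00mm_202_s3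

theorem t14_A00mm_202_s3 : ∃ t, chk3 f_A00mm_202_s3 t 1 1 1 = true := ex3_a k0_A00mm_202_s3 t13_A00mm_202_s3

theorem c_A00mm_202_s3 : CertF 0 536870912 0 536870912 201326592 134217728 true false false .pp 2 0 2
    ndF0q2 ndF0q0 pcF2 cut_A00mm_202_s3 xt_A00mm_202_s3 :=
  certFK0 (fam := true) (s1 := false) (s2 := false) (a := 2) (b := 0) (c := 2) (cn := .pp) (n1 := ndF0q2) (n2 := ndF0q0) (pc := pcF2) (cut := cut_A00mm_202_s3) (xt := xt_A00mm_202_s3) (P1 := 0) (W1 := 536870912) (P2 := 0) (W2 := 536870912) (P3 := 201326592) (W3 := 134217728)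
    rfl rfl rfl t14_A00mm_202_s3

theorem s_A00mm_202_s3 {κ x : ℝ} (hκ : κ * h0 = ken x) (hx : ((201326592 : ℕ) : ℝ) / S ≤ x)
    (hx' : x ≤ (((201326592 : ℕ) : ℝ) + (134217728 : ℕ)) / S)
    (H : CutA (VF κ) PP tKF tL pcF (Cut.of [[⟨0, 1, 0, 67108864⟩, ⟨1, 0, 0, 67108864⟩, ⟨2, 1, 0, 67108864⟩]]) 2 0 2 0 0 (sgb false) (sgb false) x) :
    AltA (VF κ) PP tKF tL pcF [⟨4, 0, 0, 2845415833⟩] 2 0 2 0 0 (sgb false) (sgb false) x :=
  strip_altA (m := 2845415833) false rfl hκ covF02 covF00 hx hx' c_A00mm_202_s3 H ((okx hx hx').extA (T := tt) (sideF hx hx') hκ rfl rfl (.O 2 false) (.O 0 false) (Or.inl rfl))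

noncomputable def cut_A00mm_203_s1 : Cut := Cut.of [[⟨4, 0, 0, 1449551462⟩]]

noncomputable def f_A00mm_203_s1 : ℕ → ℕ → ℕ → ℕ → Bool := onCell 0 536870912 0 536870912 201326592 134217728
    (rowFK 0 true false false .up 2 0 3 (qsf 0 536870912 0 536870912 3) ndF0q2 ndF0q0 pcF3 cut_A00mm_203_s1 Ext.none)

def k0_A00mm_203_s1 : ∃ t, chk3 f_A00mm_203_s1 t 1 1 1 = true :=
  ⟨(l 6), by decide +kernel⟩

theorem c_A00mm_203_s1 : CertF 0 536870912 0 536870912 201326592 134217728 true false false .up 2 0 3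
    ndF0q2 ndF0q0 pcF3 cut_A00mm_203_s1 Ext.none :=
  certFK0 (fam := true) (s1 := false) (s2 := false) (a := 2) (b := 0) (c := 3) (cn := .up) (n1 := ndF0q2) (n2 := ndF0q0) (pc := pcF3) (cut := cut_A00mm_203_s1) (xt := Ext.none) (P1 := 0) (W1 := 536870912) (P2 := 0) (W2 := 536870912) (P3 := 201326592) (W3 := 134217728)
    rfl rfl rfl k0_A00mm_203_s1

theorem s_A00mm_203_s1 {κ x : ℝ} (hκ : κ * h0 = ken x) (hx : ((201326592 : ℕ) : ℝ) / S ≤ x)
    (hx' : x ≤ (((201326592 : ℕ) : ℝ) + (134217728 : ℕ)) / S) :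
    AltA (VF κ) PP tKF tL pcF [⟨3, 0, 0, 1449551462⟩] 2 0 3 0 0 (sgb false) (sgb false) x :=
  strip_altA (m := 1449551462) true rfl hκ covF02 covF00 hx hx' c_A00mm_203_s1 cutA_nil (noExt_A)

noncomputable def cut_A00mm_203_s3 : Cut := Cut.of [[⟨3, 0, 0, 2845415833⟩]]

noncomputable def xt_A00mm_203_s3 : Ext := strExt dd true false false .u2 .u0m .s2m .up 2 0 3 rfl rfl gl3 vv ndF0q2 ndF0q0

noncomputable def f_A00mm_203_s3 : ℕ → ℕ → ℕ → ℕ → Bool := onCell 0 536870912 1610612736 536870912 201326592 134217728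
    (rowFK 1 true false false .up 2 0 3 (qsf 0 536870912 0 536870912 3) ndF0q2 ndF0q0 pcF3 cut_A00mm_203_s3 xt_A00mm_203_s3)

def k0_A00mm_203_s3 : ∃ t, chk3 f_A00mm_203_s3 t 4 4 1 = true :=
  ⟨(b (a (c (b (a (b (l 17098168) (l 17072576)) (b (l 17049344) (l 17024208))) (a (l 17034112) (b (l 16999072) (l 16973768)))) (b (b (a (l 16936536) (l 16913536)) (a (l 16928664) (l 16904952))) (a (b (l 16919792) (l 16909912)) (b (l 16895392) (l 16884816))))) (a (b (b (c (l 16997536) (c (l 16912880) (l 16866112))) (c (l 16972720) (l 16879024))) (c (b (l 16947888) (l 16922864)) (b (l 16868712) (l 16857408)))) (b (c (b (c (l 16965272) (l 16919896)) (c (l 16936704) (l 16899056))) (b (b (l 16863192) (l 16858312)) (b (l 16853208) (l 16847856)))) (a (c (l 542588687) (l 540257295)) (b (l 541233679) (l 541270031)))))) (a (b (a (c (l 16982232) (l 16893136)) (b (c (l 16948256) (l 16873256)) (c (l 16922488) (l 16860792)))) (a (b (l 16926384) (l 540741647))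 (b (l 540898831) (l 540857615)))) (a (b (b (c (l 542414095) (l 539999503)) (c (l 542341135) (l 540032783))) (c (c (l 542868495) (l 541602831)) (b (l 540054031) (l 540070671)))) (b (b (a (l 541215503) (l 541285135)) (a (l 541197839) (l 541268495))) (c (a (l 542358031) (l 542446863)) (a (l 540153103) (l 540206095))))))), by decide +kernel⟩

def k1_A00mm_203_s3 : ∃ t, chk3 f_A00mm_203_s3 t 5 4 1 = true :=
  ⟨(a (b (b (a (b (a (c (l 16897944) (l 539836175)) (b (l 541206799) (l 541234703))) (a (l 541238031) (l 541278479))) (b (c (a (l 542806287) (b (l 542852111) (l 542859279))) (a (l 539617295) (b (l 539881999) (l 539936527)))) (a (l 541314575) (l 541351439)))) (b (a (a (l 541290511) (l 541333007)) (l 541387791)) (a (a (c (l 542738703) (l 540119567)) (l 541382415)) (l 541436175)))) (a (b (b (c (a (l 542743823) (l 542804751)) (a (l 540199951) (l 540233999))) (a (l 541339663) (l 4))) (l 4)) (l 4))) (b (a (a (b (b (c (a (b (l 542890511)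 (l 542895887)) (l 542923535)) (a (b (l 539900687) (l 539953935)) (l 539943183))) (l 4)) (l 4)) (l 4)) (l 4)) (l 4))), by decide +kernel⟩

def k2_A00mm_203_s3 : ∃ t, chk3 f_A00mm_203_s3 t 2 5 1 = true :=
  ⟨(a (b (a (b (a (b (l 540700943) (l 540661263)) (c (a (l 541798159) (l 541873935)) (a (l 539917839) (l 539967247)))) (l 2)) (b (a (c (l 542010383) (l 540056079)) (c (l 543022607) (a (l 540162575) (l 4)))) (l 2))) (l 2)) (l 4)), by decide +kernel⟩

def k3_A00mm_203_s3 : ∃ t, chk3 f_A00mm_203_s3 t 2 3 1 = true :=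
  ⟨(l 2), by decide +kernel⟩

def k4_A00mm_203_s3 : ∃ t, chk3 f_A00mm_203_s3 t 3 1 1 = true :=
  ⟨(b (l 4) (l 2)), by decide +kernel⟩

theorem t5_A00mm_203_s3 : ∃ t, chk3 f_A00mm_203_s3 t 2 4 1 = true := ex3_a k0_A00mm_203_s3 k1_A00mm_203_s3

theorem t6_A00mm_203_s3 : ∃ t, chk3 f_A00mm_203_s3 t 2 2 1 = true := ex3_b t5_A00mm_203_s3 k2_A00mm_203_s3

theorem t7_A00mm_203_s3 : ∃ t, chk3 f_A00mm_203_s3 t 2 1 1 = true := ex3_b t6_A00mm_203_s3 k3_A00mm_203_s3

theorem t8_A00mm_203_s3 : ∃ t, chk3 f_A00mm_203_s3 t 1 1 1 = true := ex3_a t7_A00mm_203_s3 k4_A00mm_203_s3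

theorem c_A00mm_203_s3 : CertF 0 536870912 0 536870912 201326592 134217728 true false false .up 2 0 3
    ndF0q2 ndF0q0 pcF3 cut_A00mm_203_s3 xt_A00mm_203_s3 :=
  certFK1 (fam := true) (s1 := false) (s2 := false) (a := 2) (b := 0) (c := 3) (cn := .up) (n1 := ndF0q2) (n2 := ndF0q0) (pc := pcF3) (cut := cut_A00mm_203_s3) (xt := xt_A00mm_203_s3) (P1 := 0) (W1 := 536870912) (P2 := 0) (W2 := 536870912) (P3 := 201326592) (W3 := 134217728)
    rfl rfl rfl (fun _ => rfl) t8_A00mm_203_s3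

theorem s_A00mm_203_s3 {κ x : ℝ} (hκ : κ * h0 = ken x) (hx : ((201326592 : ℕ) : ℝ) / S ≤ x)
    (hx' : x ≤ (((201326592 : ℕ) : ℝ) + (134217728 : ℕ)) / S) :
    AltA (VF κ) PP tKF tL pcF [⟨4, 0, 0, 2845415833⟩] 2 0 3 0 0 (sgb false) (sgb false) x :=
  strip_altA (m := 2845415833) false rfl hκ covF02 covF00 hx hx' c_A00mm_203_s3 cutA_nil ((okx hx hx').extA (T := tt) (sideF hx hx') hκ rfl rfl (.O 2 false) (.O 0 false) (Or.inr rfl))

noncomputable def cut_A00mm_213_s1 : Cut := Cut.of [[⟨4, 0, 0, 1449551462⟩]]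

noncomputable def f_A00mm_213_s1 : ℕ → ℕ → ℕ → ℕ → Bool := onCell 0 536870912 536870912 536870912 201326592 134217728
    (rowFK 0 true false false .pnn 2 1 3 (qsf 0 536870912 536870912 536870912 3) ndF0q2 ndF0q1 pcF3 cut_A00mm_213_s1 Ext.none)

def k0_A00mm_213_s1 : ∃ t, chk3 f_A00mm_213_s1 t 1 1 1 = true :=
  ⟨(l 6), by decide +kernel⟩

theorem c_A00mm_213_s1 : CertF 0 536870912 536870912 536870912 201326592 134217728 true false false .pnn 2 1 3
    ndF0q2 ndF0q1 pcF3 cut_A00mm_213_s1 Ext.none :=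
  certFK0 (fam := true) (s1 := false) (s2 := false) (a := 2) (b := 1) (c := 3) (cn := .pnn) (n1 := ndF0q2) (n2 := ndF0q1) (pc := pcF3) (cut := cut_A00mm_213_s1) (xt := Ext.none) (P1 := 0) (W1 := 536870912) (P2 := 536870912) (W2 := 536870912) (P3 := 201326592) (W3 := 134217728)
    rfl rfl rfl k0_A00mm_213_s1

theorem s_A00mm_213_s1 {κ x : ℝ} (hκ : κ * h0 = ken x) (hx : ((201326592 : ℕ) : ℝ) / S ≤ x)
    (hx' : x ≤ (((201326592 : ℕ) : ℝ) + (134217728 : ℕ)) / S) :
    AltA (VF κ) PP tKF tL pcF [⟨3, 0, 0, 1449551462⟩] 2 1 3 0 0 (sgb false) (sgb false) x :=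
  strip_altA (m := 1449551462) true rfl hκ covF02 covF01 hx hx' c_A00mm_213_s1 cutA_nil (noExt_A)

noncomputable def cut_A00mm_213_s3 : Cut := Cut.of [[⟨3, 0, 0, 2845415833⟩]]

noncomputable def xt_A00mm_213_s3 : Ext := strExt dd true false false .u2 .u0m .s2m .pnn 2 1 3 rfl rfl gl3 vv ndF0q2 ndF0q1

noncomputable def f_A00mm_213_s3 : ℕ → ℕ → ℕ → ℕ → Bool := onCell 0 536870912 536870912 536870912 201326592 134217728
    (rowFK 0 true false false .pnn 2 1 3 (qsf 0 536870912 536870912 536870912 3) ndF0q2 ndF0q1 pcF3 cut_A00mm_213_s3 xt_A00mm_213_s3)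

def k0_A00mm_213_s3 : ∃ t, chk3 f_A00mm_213_s3 t 1 1 1 = true :=
  ⟨(a (b (a (b (b (a (b (a (b (l 540634383) (l 540617999)) (b (c (l 541693967) (l 539919631)) (l 540693519))) (a (l 540594447) (c (l 541577487) (l 539946511)))) (a (a (b (b (l 540815119) (l 4)) (l 4)) (l 4)) (l 4))) (a (b (a (l 540552719) (l 4)) (l 4)) (l 4))) (l 4)) (l 4)) (l 4)) (l 4)), by decide +kernel⟩

theorem c_A00mm_213_s3 : CertF 0 536870912 536870912 536870912 201326592 134217728 true false false .pnn 2 1 3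
    ndF0q2 ndF0q1 pcF3 cut_A00mm_213_s3 xt_A00mm_213_s3 :=
  certFK0 (fam := true) (s1 := false) (s2 := false) (a := 2) (b := 1) (c := 3) (cn := .pnn) (n1 := ndF0q2) (n2 := ndF0q1) (pc := pcF3) (cut := cut_A00mm_213_s3) (xt := xt_A00mm_213_s3) (P1 := 0) (W1 := 536870912) (P2 := 536870912) (W2 := 536870912) (P3 := 201326592) (W3 := 134217728)
    rfl rfl rfl k0_A00mm_213_s3

theorem s_A00mm_213_s3 {κ x : ℝ} (hκ : κ * h0 = ken x) (hx : ((201326592 : ℕ) : ℝ) / S ≤ x)
    (hx' : x ≤ (((201326592 : ℕ) : ℝ) + (134217728 : ℕ)) / S) :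
    AltA (VF κ) PP tKF tL pcF [⟨4, 0, 0, 2845415833⟩] 2 1 3 0 0 (sgb false) (sgb false) x :=
  strip_altA (m := 2845415833) false rfl hκ covF02 covF01 hx hx' c_A00mm_213_s3 cutA_nil ((okx hx hx').extA (T := tt) (sideF hx hx') hκ rfl rfl (.O 2 false) (.O 1 false) (Or.inr rfl))

noncomputable def cut_A05pp_001_s1 : Cut := Cut.of [[⟨4, 0, 0, 1449551462⟩]]

noncomputable def f_A05pp_001_s1 : ℕ → ℕ → ℕ → ℕ → Bool := onCell 0 536870912 0 536870912 201326592 134217728
    (rowFK 0 true true true .up 0 0 1 (qsf 0 536870912 0 536870912 1) ndF0q0 ndF5q0 pcF1 cut_A05pp_001_s1 Ext.none)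

def k0_A05pp_001_s1 : ∃ t, chk3 f_A05pp_001_s1 t 1 1 1 = true :=
  ⟨(l 4), by decide +kernel⟩

theorem c_A05pp_001_s1 : CertF 0 536870912 0 536870912 201326592 134217728 true true true .up 0 0 1
    ndF0q0 ndF5q0 pcF1 cut_A05pp_001_s1 Ext.none :=
  certFK0 (fam := true) (s1 := true) (s2 := true) (a := 0) (b := 0) (c := 1) (cn := .up) (n1 := ndF0q0) (n2 := ndF5q0) (pc := pcF1) (cut := cut_A05pp_001_s1) (xt := Ext.none) (P1 := 0) (W1 := 536870912) (P2 := 0) (W2 := 536870912) (P3 := 201326592) (W3 := 134217728)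
    rfl rfl rfl k0_A05pp_001_s1

theorem s_A05pp_001_s1 {κ x : ℝ} (hκ : κ * h0 = ken x) (hx : ((201326592 : ℕ) : ℝ) / S ≤ x)
    (hx' : x ≤ (((201326592 : ℕ) : ℝ) + (134217728 : ℕ)) / S) :
    AltA (VF κ) PP tKF tL pcF [⟨3, 0, 0, 1449551462⟩] 0 0 1 0 5 (sgb true) (sgb true) x :=
  strip_altA (m := 1449551462) true rfl hκ covF00 covF50 hx hx' c_A05pp_001_s1 cutA_nil (noExt_A)

noncomputable def cut_A05pp_011_s1 : Cut := Cut.of [[⟨4, 0, 0, 1449551462⟩]]

noncomputable def f_A05pp_011_s1 : ℕ → ℕ → ℕ → ℕ → Bool := onCell 0 536870912 536870912 536870912 201326592 134217728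
    (rowFK 0 true true true .pnn 0 1 1 (qsf 0 536870912 536870912 536870912 1) ndF0q0 ndF5q1 pcF1 cut_A05pp_011_s1 Ext.none)

def k0_A05pp_011_s1 : ∃ t, chk3 f_A05pp_011_s1 t 1 1 1 = true :=
  ⟨(l 4), by decide +kernel⟩

theorem c_A05pp_011_s1 : CertF 0 536870912 536870912 536870912 201326592 134217728 true true true .pnn 0 1 1
    ndF0q0 ndF5q1 pcF1 cut_A05pp_011_s1 Ext.none :=
  certFK0 (fam := true) (s1 := true) (s2 := true) (a := 0) (b := 1) (c := 1) (cn := .pnn) (n1 := ndF0q0) (n2 := ndF5q1) (pc := pcF1) (cut := cut_A05pp_011_s1) (xt := Ext.none) (P1 := 0) (W1 := 536870912) (P2 := 536870912) (W2 := 536870912) (P3 := 201326592) (W3 := 134217728)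
    rfl rfl rfl k0_A05pp_011_s1

theorem s_A05pp_011_s1 {κ x : ℝ} (hκ : κ * h0 = ken x) (hx : ((201326592 : ℕ) : ℝ) / S ≤ x)
    (hx' : x ≤ (((201326592 : ℕ) : ℝ) + (134217728 : ℕ)) / S) :
    AltA (VF κ) PP tKF tL pcF [⟨3, 0, 0, 1449551462⟩] 0 1 1 0 5 (sgb true) (sgb true) x :=
  strip_altA (m := 1449551462) true rfl hκ covF00 covF51 hx hx' c_A05pp_011_s1 cutA_nil (noExt_A)

noncomputable def cut_A05pp_012_s1 : Cut := Cut.of [[⟨4, 0, 0, 1449551462⟩]]

noncomputable def f_A05pp_012_s1 : ℕ → ℕ → ℕ → ℕ → Bool := onCell 0 536870912 536870912 536870912 201326592 134217728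
    (rowFK 0 true true true .pnp 0 1 2 (qsf 0 536870912 536870912 536870912 2) ndF0q0 ndF5q1 pcF2 cut_A05pp_012_s1 Ext.none)

def k0_A05pp_012_s1 : ∃ t, chk3 f_A05pp_012_s1 t 1 1 1 = true :=
  ⟨(l 4), by decide +kernel⟩

theorem c_A05pp_012_s1 : CertF 0 536870912 536870912 536870912 201326592 134217728 true true true .pnp 0 1 2
    ndF0q0 ndF5q1 pcF2 cut_A05pp_012_s1 Ext.none :=
  certFK0 (fam := true) (s1 := true) (s2 := true) (a := 0) (b := 1) (c := 2) (cn := .pnp) (n1 := ndF0q0) (n2 := ndF5q1) (pc := pcF2) (cut := cut_A05pp_012_s1) (xt := Ext.none) (P1 := 0) (W1 := 536870912) (P2 := 536870912) (W2 := 536870912) (P3 := 201326592) (W3 := 134217728)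
    rfl rfl rfl k0_A05pp_012_s1

theorem s_A05pp_012_s1 {κ x : ℝ} (hκ : κ * h0 = ken x) (hx : ((201326592 : ℕ) : ℝ) / S ≤ x)
    (hx' : x ≤ (((201326592 : ℕ) : ℝ) + (134217728 : ℕ)) / S) :
    AltA (VF κ) PP tKF tL pcF [⟨3, 0, 0, 1449551462⟩] 0 1 2 0 5 (sgb true) (sgb true) x :=
  strip_altA (m := 1449551462) true rfl hκ covF00 covF51 hx hx' c_A05pp_012_s1 cutA_nil (noExt_A)

noncomputable def cut_A05pp_022_s1 : Cut := Cut.of [[⟨4, 0, 0, 1449551462⟩]]

noncomputable def f_A05pp_022_s1 : ℕ → ℕ → ℕ → ℕ → Bool := onCell 0 536870912 1073741824 536870912 201326592 134217728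
    (rowFK 0 true true true .pp 0 2 2 (qsf 0 536870912 1073741824 536870912 2) ndF0q0 ndF5q2 pcF2 cut_A05pp_022_s1 Ext.none)

def k0_A05pp_022_s1 : ∃ t, chk3 f_A05pp_022_s1 t 1 1 1 = true :=
  ⟨(l 4), by decide +kernel⟩

theorem c_A05pp_022_s1 : CertF 0 536870912 1073741824 536870912 201326592 134217728 true true true .pp 0 2 2
    ndF0q0 ndF5q2 pcF2 cut_A05pp_022_s1 Ext.none :=
  certFK0 (fam := true) (s1 := true) (s2 := true) (a := 0) (b := 2) (c := 2) (cn := .pp) (n1 := ndF0q0) (n2 := ndF5q2) (pc := pcF2) (cut := cut_A05pp_022_s1) (xt := Ext.none) (P1 := 0) (W1 := 536870912) (P2 := 1073741824) (W2 := 536870912) (P3 := 201326592) (W3 := 134217728)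
    rfl rfl rfl k0_A05pp_022_s1

theorem s_A05pp_022_s1 {κ x : ℝ} (hκ : κ * h0 = ken x) (hx : ((201326592 : ℕ) : ℝ) / S ≤ x)
    (hx' : x ≤ (((201326592 : ℕ) : ℝ) + (134217728 : ℕ)) / S) :
    AltA (VF κ) PP tKF tL pcF [⟨3, 0, 0, 1449551462⟩] 0 2 2 0 5 (sgb true) (sgb true) x :=
  strip_altA (m := 1449551462) true rfl hκ covF00 covF52 hx hx' c_A05pp_022_s1 cutA_nil (noExt_A)

noncomputable def cut_A05pp_023_s1 : Cut := Cut.of [[⟨4, 0, 0, 1449551462⟩]]

noncomputable def f_A05pp_023_s1 : ℕ → ℕ → ℕ → ℕ → Bool := onCell 0 536870912 1073741824 536870912 201326592 134217728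
    (rowFK 0 true true true .up 0 2 3 (qsf 0 536870912 1073741824 536870912 3) ndF0q0 ndF5q2 pcF3 cut_A05pp_023_s1 Ext.none)

def k0_A05pp_023_s1 : ∃ t, chk3 f_A05pp_023_s1 t 1 1 1 = true :=
  ⟨(l 4), by decide +kernel⟩

theorem c_A05pp_023_s1 : CertF 0 536870912 1073741824 536870912 201326592 134217728 true true true .up 0 2 3
    ndF0q0 ndF5q2 pcF3 cut_A05pp_023_s1 Ext.none :=
  certFK0 (fam := true) (s1 := true) (s2 := true) (a := 0) (b := 2) (c := 3) (cn := .up) (n1 := ndF0q0) (n2 := ndF5q2) (pc := pcF3) (cut := cut_A05pp_023_s1) (xt := Ext.none) (P1 := 0) (W1 := 536870912) (P2 := 1073741824) (W2 := 536870912) (P3 := 201326592) (W3 := 134217728)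
    rfl rfl rfl k0_A05pp_023_s1

theorem s_A05pp_023_s1 {κ x : ℝ} (hκ : κ * h0 = ken x) (hx : ((201326592 : ℕ) : ℝ) / S ≤ x)
    (hx' : x ≤ (((201326592 : ℕ) : ℝ) + (134217728 : ℕ)) / S) :
    AltA (VF κ) PP tKF tL pcF [⟨3, 0, 0, 1449551462⟩] 0 2 3 0 5 (sgb true) (sgb true) x :=
  strip_altA (m := 1449551462) true rfl hκ covF00 covF52 hx hx' c_A05pp_023_s1 cutA_nil (noExt_A)

noncomputable def cut_A05pp_033_s1 : Cut := Cut.of [[⟨4, 0, 0, 1449551462⟩]]

noncomputable def f_A05pp_033_s1 : ℕ → ℕ → ℕ → ℕ → Bool := onCell 0 536870912 0 1230186008 201326592 134217728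
    (rowFK 0 true true true .pnn 0 3 3 (qsf 0 536870912 0 1230186008 3) ndF0q0 ndF5q3 pcF3 cut_A05pp_033_s1 Ext.none)

def k0_A05pp_033_s1 : ∃ t, chk3 f_A05pp_033_s1 t 1 1 1 = true :=
  ⟨(l 4), by decide +kernel⟩

theorem c_A05pp_033_s1 : CertF 0 536870912 0 1230186008 201326592 134217728 true true true .pnn 0 3 3
    ndF0q0 ndF5q3 pcF3 cut_A05pp_033_s1 Ext.none :=
  certFK0 (fam := true) (s1 := true) (s2 := true) (a := 0) (b := 3) (c := 3) (cn := .pnn) (n1 := ndF0q0) (n2 := ndF5q3) (pc := pcF3) (cut := cut_A05pp_033_s1) (xt := Ext.none) (P1 := 0) (W1 := 536870912) (P2 := 0) (W2 := 1230186008) (P3 := 201326592) (W3 := 134217728)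
    rfl rfl rfl k0_A05pp_033_s1

theorem s_A05pp_033_s1 {κ x : ℝ} (hκ : κ * h0 = ken x) (hx : ((201326592 : ℕ) : ℝ) / S ≤ x)
    (hx' : x ≤ (((201326592 : ℕ) : ℝ) + (134217728 : ℕ)) / S) :
    AltA (VF κ) PP tKF tL pcF [⟨3, 0, 0, 1449551462⟩] 0 3 3 0 5 (sgb true) (sgb true) x :=
  strip_altA (m := 1449551462) true rfl hκ covF00 covF53 hx hx' c_A05pp_033_s1 cutA_nil (noExt_A)

noncomputable def cut_A05pp_101_s1 : Cut := Cut.of [[⟨4, 0, 0, 1449551462⟩]]

noncomputable def f_A05pp_101_s1 : ℕ → ℕ → ℕ → ℕ → Bool := onCell 536870912 536870912 0 536870912 201326592 134217728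
    (rowFK 0 true true true .npn 1 0 1 (qsf 536870912 536870912 0 536870912 1) ndF0q1 ndF5q0 pcF1 cut_A05pp_101_s1 Ext.none)

def k0_A05pp_101_s1 : ∃ t, chk3 f_A05pp_101_s1 t 1 1 1 = true :=
  ⟨(l 4), by decide +kernel⟩

theorem c_A05pp_101_s1 : CertF 536870912 536870912 0 536870912 201326592 134217728 true true true .npn 1 0 1
    ndF0q1 ndF5q0 pcF1 cut_A05pp_101_s1 Ext.none :=
  certFK0 (fam := true) (s1 := true) (s2 := true) (a := 1) (b := 0) (c := 1) (cn := .npn) (n1 := ndF0q1) (n2 := ndF5q0) (pc := pcF1) (cut := cut_A05pp_101_s1) (xt := Ext.none) (P1 := 536870912) (W1 := 536870912) (P2 := 0) (W2 := 536870912) (P3 := 201326592) (W3 := 134217728)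
    rfl rfl rfl k0_A05pp_101_s1

theorem s_A05pp_101_s1 {κ x : ℝ} (hκ : κ * h0 = ken x) (hx : ((201326592 : ℕ) : ℝ) / S ≤ x)
    (hx' : x ≤ (((201326592 : ℕ) : ℝ) + (134217728 : ℕ)) / S) :
    AltA (VF κ) PP tKF tL pcF [⟨3, 0, 0, 1449551462⟩] 1 0 1 0 5 (sgb true) (sgb true) x :=
  strip_altA (m := 1449551462) true rfl hκ covF01 covF50 hx hx' c_A05pp_101_s1 cutA_nil (noExt_A)

noncomputable def cut_A05pp_102_s1 : Cut := Cut.of [[⟨4, 0, 0, 1449551462⟩]]

noncomputable def f_A05pp_102_s1 : ℕ → ℕ → ℕ → ℕ → Bool := onCell 536870912 536870912 0 536870912 201326592 134217728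
    (rowFK 0 true true true .npp 1 0 2 (qsf 536870912 536870912 0 536870912 2) ndF0q1 ndF5q0 pcF2 cut_A05pp_102_s1 Ext.none)

def k0_A05pp_102_s1 : ∃ t, chk3 f_A05pp_102_s1 t 1 1 1 = true :=
  ⟨(l 4), by decide +kernel⟩

theorem c_A05pp_102_s1 : CertF 536870912 536870912 0 536870912 201326592 134217728 true true true .npp 1 0 2
    ndF0q1 ndF5q0 pcF2 cut_A05pp_102_s1 Ext.none :=
  certFK0 (fam := true) (s1 := true) (s2 := true) (a := 1) (b := 0) (c := 2) (cn := .npp) (n1 := ndF0q1) (n2 := ndF5q0) (pc := pcF2) (cut := cut_A05pp_102_s1) (xt := Ext.none) (P1 := 536870912) (W1 := 536870912) (P2 := 0) (W2 := 536870912) (P3 := 201326592) (W3 := 134217728)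
    rfl rfl rfl k0_A05pp_102_s1

theorem s_A05pp_102_s1 {κ x : ℝ} (hκ : κ * h0 = ken x) (hx : ((201326592 : ℕ) : ℝ) / S ≤ x)
    (hx' : x ≤ (((201326592 : ℕ) : ℝ) + (134217728 : ℕ)) / S) :
    AltA (VF κ) PP tKF tL pcF [⟨3, 0, 0, 1449551462⟩] 1 0 2 0 5 (sgb true) (sgb true) x :=
  strip_altA (m := 1449551462) true rfl hκ covF01 covF50 hx hx' c_A05pp_102_s1 cutA_nil (noExt_A)

noncomputable def cut_A05pp_112_s1 : Cut := Cut.of [[⟨4, 0, 0, 1449551462⟩]]

noncomputable def f_A05pp_112_s1 : ℕ → ℕ → ℕ → ℕ → Bool := onCell 536870912 536870912 536870912 536870912 201326592 134217728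
    (rowFK 0 true true true .dn 1 1 2 (qsf 536870912 536870912 536870912 536870912 2) ndF0q1 ndF5q1 pcF2 cut_A05pp_112_s1 Ext.none)

def k0_A05pp_112_s1 : ∃ t, chk3 f_A05pp_112_s1 t 1 1 1 = true :=
  ⟨(l 4), by decide +kernel⟩

theorem c_A05pp_112_s1 : CertF 536870912 536870912 536870912 536870912 201326592 134217728 true true true .dn 1 1 2
    ndF0q1 ndF5q1 pcF2 cut_A05pp_112_s1 Ext.none :=
  certFK0 (fam := true) (s1 := true) (s2 := true) (a := 1) (b := 1) (c := 2) (cn := .dn) (n1 := ndF0q1) (n2 := ndF5q1) (pc := pcF2) (cut := cut_A05pp_112_s1) (xt := Ext.none) (P1 := 536870912) (W1 := 536870912) (P2 := 536870912) (W2 := 536870912) (P3 := 201326592) (W3 := 134217728)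
    rfl rfl rfl k0_A05pp_112_s1

theorem s_A05pp_112_s1 {κ x : ℝ} (hκ : κ * h0 = ken x) (hx : ((201326592 : ℕ) : ℝ) / S ≤ x)
    (hx' : x ≤ (((201326592 : ℕ) : ℝ) + (134217728 : ℕ)) / S) :
    AltA (VF κ) PP tKF tL pcF [⟨3, 0, 0, 1449551462⟩] 1 1 2 0 5 (sgb true) (sgb true) x :=
  strip_altA (m := 1449551462) true rfl hκ covF01 covF51 hx hx' c_A05pp_112_s1 cutA_nil (noExt_A)

noncomputable def cut_A05pp_113_s1 : Cut := Cut.of [[⟨4, 0, 0, 1449551462⟩]]

noncomputable def f_A05pp_113_s1 : ℕ → ℕ → ℕ → ℕ → Bool := onCell 536870912 536870912 536870912 536870912 201326592 134217728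
    (rowFK 0 true true true .nn 1 1 3 (qsf 536870912 536870912 536870912 536870912 3) ndF0q1 ndF5q1 pcF3 cut_A05pp_113_s1 Ext.none)

def k0_A05pp_113_s1 : ∃ t, chk3 f_A05pp_113_s1 t 1 1 1 = true :=
  ⟨(l 4), by decide +kernel⟩

theorem c_A05pp_113_s1 : CertF 536870912 536870912 536870912 536870912 201326592 134217728 true true true .nn 1 1 3
    ndF0q1 ndF5q1 pcF3 cut_A05pp_113_s1 Ext.none :=
  certFK0 (fam := true) (s1 := true) (s2 := true) (a := 1) (b := 1) (c := 3) (cn := .nn) (n1 := ndF0q1) (n2 := ndF5q1) (pc := pcF3) (cut := cut_A05pp_113_s1) (xt := Ext.none) (P1 := 536870912) (W1 := 536870912) (P2 := 536870912) (W2 := 536870912) (P3 := 201326592) (W3 := 134217728)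
    rfl rfl rfl k0_A05pp_113_s1

theorem s_A05pp_113_s1 {κ x : ℝ} (hκ : κ * h0 = ken x) (hx : ((201326592 : ℕ) : ℝ) / S ≤ x)
    (hx' : x ≤ (((201326592 : ℕ) : ℝ) + (134217728 : ℕ)) / S) :
    AltA (VF κ) PP tKF tL pcF [⟨3, 0, 0, 1449551462⟩] 1 1 3 0 5 (sgb true) (sgb true) x :=
  strip_altA (m := 1449551462) true rfl hκ covF01 covF51 hx hx' c_A05pp_113_s1 cutA_nil (noExt_A)

noncomputable def cut_A05pp_123_s1 : Cut := Cut.of [[⟨4, 0, 0, 1449551462⟩]]

noncomputable def f_A05pp_123_s1 : ℕ → ℕ → ℕ → ℕ → Bool := onCell 536870912 536870912 1073741824 536870912 201326592 134217728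
    (rowFK 0 true true true .npn 1 2 3 (qsf 536870912 536870912 1073741824 536870912 3) ndF0q1 ndF5q2 pcF3 cut_A05pp_123_s1 Ext.none)

def k0_A05pp_123_s1 : ∃ t, chk3 f_A05pp_123_s1 t 1 1 1 = true :=
  ⟨(l 4), by decide +kernel⟩

theorem c_A05pp_123_s1 : CertF 536870912 536870912 1073741824 536870912 201326592 134217728 true true true .npn 1 2 3
    ndF0q1 ndF5q2 pcF3 cut_A05pp_123_s1 Ext.none :=
  certFK0 (fam := true) (s1 := true) (s2 := true) (a := 1) (b := 2) (c := 3) (cn := .npn) (n1 := ndF0q1) (n2 := ndF5q2) (pc := pcF3) (cut := cut_A05pp_123_s1) (xt := Ext.none) (P1 := 536870912) (W1 := 536870912) (P2 := 1073741824) (W2 := 536870912) (P3 := 201326592) (W3 := 134217728)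
    rfl rfl rfl k0_A05pp_123_s1

theorem s_A05pp_123_s1 {κ x : ℝ} (hκ : κ * h0 = ken x) (hx : ((201326592 : ℕ) : ℝ) / S ≤ x)
    (hx' : x ≤ (((201326592 : ℕ) : ℝ) + (134217728 : ℕ)) / S) :
    AltA (VF κ) PP tKF tL pcF [⟨3, 0, 0, 1449551462⟩] 1 2 3 0 5 (sgb true) (sgb true) x :=
  strip_altA (m := 1449551462) true rfl hκ covF01 covF52 hx hx' c_A05pp_123_s1 cutA_nil (noExt_A)

noncomputable def cut_A05pp_133_s1 : Cut := Cut.of [[⟨4, 0, 0, 1449551462⟩]]

noncomputable def f_A05pp_133_s1 : ℕ → ℕ → ℕ → ℕ → Bool := onCell 536870912 536870912 0 1230186008 201326592 134217728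
    (rowFK 0 true true true .dn 1 3 3 (qsf 536870912 536870912 0 1230186008 3) ndF0q1 ndF5q3 pcF3 cut_A05pp_133_s1 Ext.none)

def k0_A05pp_133_s1 : ∃ t, chk3 f_A05pp_133_s1 t 1 1 1 = true :=
  ⟨(l 4), by decide +kernel⟩

theorem c_A05pp_133_s1 : CertF 536870912 536870912 0 1230186008 201326592 134217728 true true true .dn 1 3 3
    ndF0q1 ndF5q3 pcF3 cut_A05pp_133_s1 Ext.none :=
  certFK0 (fam := true) (s1 := true) (s2 := true) (a := 1) (b := 3) (c := 3) (cn := .dn) (n1 := ndF0q1) (n2 := ndF5q3) (pc := pcF3) (cut := cut_A05pp_133_s1) (xt := Ext.none) (P1 := 536870912) (W1 := 536870912) (P2 := 0) (W2 := 1230186008) (P3 := 201326592) (W3 := 134217728)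
    rfl rfl rfl k0_A05pp_133_s1

theorem s_A05pp_133_s1 {κ x : ℝ} (hκ : κ * h0 = ken x) (hx : ((201326592 : ℕ) : ℝ) / S ≤ x)
    (hx' : x ≤ (((201326592 : ℕ) : ℝ) + (134217728 : ℕ)) / S) :
    AltA (VF κ) PP tKF tL pcF [⟨3, 0, 0, 1449551462⟩] 1 3 3 0 5 (sgb true) (sgb true) x :=
  strip_altA (m := 1449551462) true rfl hκ covF01 covF53 hx hx' c_A05pp_133_s1 cutA_nil (noExt_A)

noncomputable def cut_A05pp_202_s1 : Cut := Cut.of [[⟨4, 0, 0, 1449551462⟩]]

noncomputable def f_A05pp_202_s1 : ℕ → ℕ → ℕ → ℕ → Bool := onCell 0 536870912 0 536870912 201326592 134217728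
    (rowFK 0 true true true .pp 2 0 2 (qsf 0 536870912 0 536870912 2) ndF0q2 ndF5q0 pcF2 cut_A05pp_202_s1 Ext.none)

def k0_A05pp_202_s1 : ∃ t, chk3 f_A05pp_202_s1 t 1 1 1 = true :=
  ⟨(l 4), by decide +kernel⟩

theorem c_A05pp_202_s1 : CertF 0 536870912 0 536870912 201326592 134217728 true true true .pp 2 0 2
    ndF0q2 ndF5q0 pcF2 cut_A05pp_202_s1 Ext.none :=
  certFK0 (fam := true) (s1 := true) (s2 := true) (a := 2) (b := 0) (c := 2) (cn := .pp) (n1 := ndF0q2) (n2 := ndF5q0) (pc := pcF2) (cut := cut_A05pp_202_s1) (xt := Ext.none) (P1 := 0) (W1 := 536870912) (P2 := 0) (W2 := 536870912) (P3 := 201326592) (W3 := 134217728)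
    rfl rfl rfl k0_A05pp_202_s1

theorem s_A05pp_202_s1 {κ x : ℝ} (hκ : κ * h0 = ken x) (hx : ((201326592 : ℕ) : ℝ) / S ≤ x)
    (hx' : x ≤ (((201326592 : ℕ) : ℝ) + (134217728 : ℕ)) / S) :
    AltA (VF κ) PP tKF tL pcF [⟨3, 0, 0, 1449551462⟩] 2 0 2 0 5 (sgb true) (sgb true) x :=
  strip_altA (m := 1449551462) true rfl hκ covF02 covF50 hx hx' c_A05pp_202_s1 cutA_nil (noExt_A)

noncomputable def cut_A05pp_203_s1 : Cut := Cut.of [[⟨4, 0, 0, 1449551462⟩]]

noncomputable def f_A05pp_203_s1 : ℕ → ℕ → ℕ → ℕ → Bool := onCell 0 536870912 0 536870912 201326592 134217728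
    (rowFK 0 true true true .up 2 0 3 (qsf 0 536870912 0 536870912 3) ndF0q2 ndF5q0 pcF3 cut_A05pp_203_s1 Ext.none)

def k0_A05pp_203_s1 : ∃ t, chk3 f_A05pp_203_s1 t 1 1 1 = true :=
  ⟨(l 4), by decide +kernel⟩

theorem c_A05pp_203_s1 : CertF 0 536870912 0 536870912 201326592 134217728 true true true .up 2 0 3
    ndF0q2 ndF5q0 pcF3 cut_A05pp_203_s1 Ext.none :=
  certFK0 (fam := true) (s1 := true) (s2 := true) (a := 2) (b := 0) (c := 3) (cn := .up) (n1 := ndF0q2) (n2 := ndF5q0) (pc := pcF3) (cut := cut_A05pp_203_s1) (xt := Ext.none) (P1 := 0) (W1 := 536870912) (P2 := 0) (W2 := 536870912) (P3 := 201326592) (W3 := 134217728)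
    rfl rfl rfl k0_A05pp_203_s1

theorem s_A05pp_203_s1 {κ x : ℝ} (hκ : κ * h0 = ken x) (hx : ((201326592 : ℕ) : ℝ) / S ≤ x)
    (hx' : x ≤ (((201326592 : ℕ) : ℝ) + (134217728 : ℕ)) / S) :
    AltA (VF κ) PP tKF tL pcF [⟨3, 0, 0, 1449551462⟩] 2 0 3 0 5 (sgb true) (sgb true) x :=
  strip_altA (m := 1449551462) true rfl hκ covF02 covF50 hx hx' c_A05pp_203_s1 cutA_nil (noExt_A)

noncomputable def cut_A05pp_213_s1 : Cut := Cut.of [[⟨4, 0, 0, 1449551462⟩]]

noncomputable def f_A05pp_213_s1 : ℕ → ℕ → ℕ → ℕ → Bool := onCell 0 536870912 536870912 536870912 201326592 134217728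
    (rowFK 0 true true true .pnn 2 1 3 (qsf 0 536870912 536870912 536870912 3) ndF0q2 ndF5q1 pcF3 cut_A05pp_213_s1 Ext.none)

def k0_A05pp_213_s1 : ∃ t, chk3 f_A05pp_213_s1 t 1 1 1 = true :=
  ⟨(l 4), by decide +kernel⟩

theorem c_A05pp_213_s1 : CertF 0 536870912 536870912 536870912 201326592 134217728 true true true .pnn 2 1 3
    ndF0q2 ndF5q1 pcF3 cut_A05pp_213_s1 Ext.none :=
  certFK0 (fam := true) (s1 := true) (s2 := true) (a := 2) (b := 1) (c := 3) (cn := .pnn) (n1 := ndF0q2) (n2 := ndF5q1) (pc := pcF3) (cut := cut_A05pp_213_s1) (xt := Ext.none) (P1 := 0) (W1 := 536870912) (P2 := 536870912) (W2 := 536870912) (P3 := 201326592) (W3 := 134217728)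
    rfl rfl rfl k0_A05pp_213_s1

theorem s_A05pp_213_s1 {κ x : ℝ} (hκ : κ * h0 = ken x) (hx : ((201326592 : ℕ) : ℝ) / S ≤ x)
    (hx' : x ≤ (((201326592 : ℕ) : ℝ) + (134217728 : ℕ)) / S) :
    AltA (VF κ) PP tKF tL pcF [⟨3, 0, 0, 1449551462⟩] 2 1 3 0 5 (sgb true) (sgb true) x :=
  strip_altA (m := 1449551462) true rfl hκ covF02 covF51 hx hx' c_A05pp_213_s1 cutA_nil (noExt_A)

noncomputable def cut_A05pm_001_s1 : Cut := Cut.of [[⟨4, 0, 0, 1449551462⟩]]

noncomputable def xt_A05pm_001_s1 : Ext := strExt dd true true false .u0 .s0m .u0m .up 0 0 1 rfl rfl gf1 vv ndF0q0 ndF5q0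

noncomputable def f_A05pm_001_s1 : ℕ → ℕ → ℕ → ℕ → Bool := onCell 0 536870912 536870912 536870912 201326592 134217728
    (rowFK 1 true true false .up 0 0 1 (qsf 0 536870912 0 536870912 1) ndF0q0 ndF5q0 pcF1 cut_A05pm_001_s1 xt_A05pm_001_s1)

def k0_A05pm_001_s1 : ∃ t, chk3 f_A05pm_001_s1 t 1 1 1 = true :=
  ⟨(a (b (l 3) (b (b (l 3) (l 2)) (l 2))) (b (b (l 3) (a (l 3) (a (b (l 3) (a (b (l 3) (a (l 552769295) (l 552703503))) (b (c (l 555852815) (l 550571791)) (c (l 555492111) (l 550092815))))) (b (b (a (l 3) (a (l 3) (l 551932687))) (a (c (l 555271951) (l 550577935)) (l 552151823))) (c (a (b (l 555053327) (l 554707215)) (b (l 554214671) (l 553924623))) (a (b (l 550204175) (l 549764879)) (b (l 549788943) (l 549398287)))))))) (b (a (b (b (a (l 3) (a (l 3) (l 552192271))) (a (a (l 3) (l 551703823)) (a (l 551757071) (l 551668495)))) (a (a (l 2) (b (l 550753807) (l 2))) (b (a (l 551002127) (l 551035663)) (a (l 550066703) (l 550291215)))))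 (a (a (b (b (c (l 554851343) (l 549298191)) (c (l 554378255) (l 548684815))) (b (l 550950671) (l 16930528))) (b (b (l 551922703) (l 551355407)) (b (l 17009560) (l 17068936)))) (a (b (b (b (l 16837800) (l 16954512)) (l 17002888)) (b (l 17064784) (l 17123448))) (b (b (l 16910712) (l 17057256)) (b (l 17117888) (l 17175752)))))) (a (b (a (l 2) (a (l 2) (b (l 79020967735) (l 2)))) (l 2)) (b (b (a (a (l 17067152) (l 17122576)) (l 17204504)) (a (a (l 17107760) (l 17166400)) (l 17251096))) (a (b (l 104791218503) (l 2)) (b (l 17285920) (l 17301736)))))))), by decide +kernel⟩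

theorem c_A05pm_001_s1 : CertF 0 536870912 0 536870912 201326592 134217728 true true false .up 0 0 1
    ndF0q0 ndF5q0 pcF1 cut_A05pm_001_s1 xt_A05pm_001_s1 :=
  certFK1 (fam := true) (s1 := true) (s2 := false) (a := 0) (b := 0) (c := 1) (cn := .up) (n1 := ndF0q0) (n2 := ndF5q0) (pc := pcF1) (cut := cut_A05pm_001_s1) (xt := xt_A05pm_001_s1) (P1 := 0) (W1 := 536870912) (P2 := 0) (W2 := 536870912) (P3 := 201326592) (W3 := 134217728)
    rfl rfl rfl (fun _ => rfl) k0_A05pm_001_s1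

theorem s_A05pm_001_s1 {κ x : ℝ} (hκ : κ * h0 = ken x) (hx : ((201326592 : ℕ) : ℝ) / S ≤ x)
    (hx' : x ≤ (((201326592 : ℕ) : ℝ) + (134217728 : ℕ)) / S) :
    AltA (VF κ) PP tKF tL pcF [⟨3, 0, 0, 1449551462⟩] 0 0 1 0 5 (sgb true) (sgb false) x :=
  strip_altA (m := 1449551462) true rfl hκ covF00 covF50 hx hx' c_A05pm_001_s1 cutA_nil ((okx hx hx').extA (T := tt) (sideF hx hx') hκ rfl rfl (.O 0 true) (.N 0 false) (Or.inr rfl))

noncomputable def cut_A05pm_011_s1 : Cut := Cut.of [[⟨4, 0, 0, 1449551462⟩], [⟨0, 0, 0, 67108864⟩, ⟨1, 1, 0, 67108864⟩, ⟨2, 1, 0, 67108864⟩]]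

noncomputable def xt_A05pm_011_s1 : Ext := strExt dd true true false .u0 .s0m .u0m .pnn 0 1 1 rfl rfl gf1 vv ndF0q0 ndF5q1

noncomputable def f_A05pm_011_s1 : ℕ → ℕ → ℕ → ℕ → Bool := onCell 0 536870912 536870912 536870912 201326592 134217728
    (rowFK 1 true true false .pnn 0 1 1 (qsf 0 536870912 536870912 536870912 1) ndF0q0 ndF5q1 pcF1 cut_A05pm_011_s1 xt_A05pm_011_s1)

def k0_A05pm_011_s1 : ∃ t, chk3 f_A05pm_011_s1 t 1 2 1 = true :=
  ⟨(a (l 3) (b (l 1) (a (l 3) (l 1)))), by decide +kernel⟩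

def k1_A05pm_011_s1 : ∃ t, chk3 f_A05pm_011_s1 t 1 6 1 = true :=
  ⟨(a (b (l 3) (a (l 3) (a (l 3) (b (l 3) (a (a (l 3) (c (l 552228111) (l 538494991))) (c (l 553193487) (a (l 540299279) (l 541766927)))))))) (a (b (b (a (l 3) (l 1)) (a (a (l 3) (l 551703311)) (c (l 554965263) (l 548519695)))) (a (a (b (l 548887311) (c (l 553838351) (l 543472143))) (b (l 550753295) (l 549565455))) (a (b (l 551001615) (l 550066191)) (b (l 551035151) (l 550290447))))) (a (a (b (l 1) (b (l 1) (l 17014192))) (l 1)) (l 1)))), by decide +kernel⟩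

def k2_A05pm_011_s1 : ∃ t, chk3 f_A05pm_011_s1 t 2 14 1 = true :=
  ⟨(a (b (l 3) (a (l 3) (a (l 3) (a (l 3) (b (l 3) (b (l 3) (a (l 526545423) (l 526611471)))))))) (a (a (b (l 3) (a (b (l 3) (c (l 527661327) (l 526782735))) (b (c (l 530805775) (l 526482447)) (c (l 527618319) (l 526717967))))) (b (b (l 3) (a (l 529217551) (l 533668623))) (b (a (c (l 536291855) (l 526697743)) (l 529000719)) (a (c (l 530504463) (l 526939151)) (l 527384335))))) (b (a (a (b (l 540214287) (l 537170447)) (b (l 542424591) (l 539934735))) (b (c (l 551667983) (l 538178319)) (a (l 542122255) (l 543851791)))) (a (a (b (l 533401103) (l 528719631)) (b (l 536873231) (l 533091343))) (a (b (l 539614479) (l 536536335)) (b (l 541783311) (l 16762760))))))), by decide +kernel⟩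

def k3_A05pm_011_s1 : ∃ t, chk3 f_A05pm_011_s1 t 4 15 1 = true :=
  ⟨(b (a (b (l 3) (a (l 3) (a (l 3) (a (l 3) (a (l 3) (b (l 3) (l 526285839))))))) (a (a (b (l 3) (a (b (l 3) (c (l 527343119) (l 526398991))) (b (c (l 526797839) (l 526151951)) (l 526954511)))) (b (a (l 3) (l 528003087)) (a (b (c (l 526621711) (l 526227983)) (l 527305999)) (b (l 527311631) (l 526848271))))) (a (a (b (l 527278351) (b (l 526586127) (l 526659087))) (b (l 526821903) (b (l 526665231) (l 526737935)))) (b (a (l 526633487) (l 527506191)) (b (a (l 526744591) (l 526823695)) (l 528186127)))))) (a (b (b (a (l 3) (a (a (l 3) (a (l 3) (l 527539215))) (a (a (l 526774543) (l 526278159)) (a (l 526318351) (l 526358543))))) (a (l 14) (a (a (a (l 14) (b (l 527515151) (l 14))) (a (c (l 527787535) (l 526815503)) (l 527879183))) (a (a (l 527114511) (l 526349583)) (a (l 526390031) (l 526430223)))))) (a (l 14) (a (a (l 14) (a (l 14) (b (c (l 527382287) (l 526373391)) (l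 14)))) (a (a (b (l 527453455) (l 14)) (b (l 526688783) (b (l 526476559) (l 14)))) (a (b (l 526460687) (l 527067663)) (b (l 526501135) (l 526571023))))))) (a (a (b (a (b (c (l 527435279) (l 526455055)) (a (l 526470415) (l 526510607))) (b (l 527027215) (l 527367439))) (a (b (a (l 526541327) (l 526581519)) (b (l 16738800) (l 527177743))) (b (l 527438351) (b (l 16742488) (l 16725536))))) (b (a (a (l 526855695) (l 526896399)) (b (l 526653711) (l 526725903))) (a (b (l 526715407) (l 527322639)) (b (l 526797071) (l 526867471))))) (b (b (a (a (l 526733071) (l 526811663)) (l 528259087)) (a (a (l 526805775) (l 526884623)) (l 528063503))) (a (a (b (l 526877455) (l 526948111)) (b (l 16725056) (l 16712632))) (b (l 528135951) (l 528744463))))))), by decide +kernel⟩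

def k4_A05pm_011_s1 : ∃ t, chk3 f_A05pm_011_s1 t 5 15 1 = true :=
  ⟨(a (a (b (a (a (b (l 527901967) (l 527209231)) (b (l 527460367) (l 527041295))) (b (c (l 527298063) (l 526876431)) (a (l 527153935) (l 527273743)))) (a (b (a (l 527082767) (l 527175951)) (b (l 16701944) (l 527569679))) (b (b (l 527299087) (l 16722152)) (b (l 16710384) (l 16698696))))) (b (b (a (l 527867151) (l 527587855)) (a (l 528260879) (l 527720463))) (a (b (l 528641295) (b (l 16656664) (l 16645216))) (b (l 527832335) (l 528206863))))) (a (b (b (a (l 527861519) (l 528394255)) (a (l 528000783) (l 528284943))) (b (a (l 528113935) (l 16725912)) (b (l 16714832) (l 16704256)))) (b (b (a (l 16746952) (l 16767272)) (a (l 16736568) (l 16701704))) (b (c (l 16775720) (l 16706432)) (b (l 16614064) (l 16604360)))))), by decide +kernel⟩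

def k5_A05pm_011_s1 : ∃ t, chk3 f_A05pm_011_s1 t 3 7 1 = true :=
  ⟨(a (b (b (a (a (a (l 545961231) (l 546918415)) (c (l 553053455) (l 542915087))) (a (l 548875279) (l 16927824))) (a (a (a (l 542510863) (l 544033807)) (b (l 16836768) (l 16921688))) (a (l 547240463) (l 17047608)))) (b (a (a (b (l 540013839) (l 16699592)) (b (l 16910624) (l 16883736))) (a (c (l 17127464) (l 16837064)) (l 17058504))) (a (a (b (l 16708016) (l 16596264)) (b (l 16835848) (l 16760176))) (a (b (l 16945536) (l 16896848)) (l 17027936))))) (b (b (a (a (l 17066984) (l 17122320)) (l 1)) (a (c (l 17245952) (l 17029040)) (l 17250392))) (a (b (a (l 17128864) (l 17194424)) (a (l 17117936) (l 17197144))) (b (l 17285488) (l 17301656))))), by decide +kernel⟩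

theorem t6_A05pm_011_s1 : ∃ t, chk3 f_A05pm_011_s1 t 2 15 1 = true := ex3_a k3_A05pm_011_s1 k4_A05pm_011_s1

theorem t7_A05pm_011_s1 : ∃ t, chk3 f_A05pm_011_s1 t 2 7 1 = true := ex3_b k2_A05pm_011_s1 t6_A05pm_011_s1

theorem t8_A05pm_011_s1 : ∃ t, chk3 f_A05pm_011_s1 t 1 7 1 = true := ex3_a t7_A05pm_011_s1 k5_A05pm_011_s1

theorem t9_A05pm_011_s1 : ∃ t, chk3 f_A05pm_011_s1 t 1 3 1 = true := ex3_b k1_A05pm_011_s1 t8_A05pm_011_s1

theorem t10_A05pm_011_s1 : ∃ t, chk3 f_A05pm_011_s1 t 1 1 1 = true := ex3_b k0_A05pm_011_s1 t9_A05pm_011_s1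

theorem c_A05pm_011_s1 : CertF 0 536870912 536870912 536870912 201326592 134217728 true true false .pnn 0 1 1
    ndF0q0 ndF5q1 pcF1 cut_A05pm_011_s1 xt_A05pm_011_s1 :=
  certFK1 (fam := true) (s1 := true) (s2 := false) (a := 0) (b := 1) (c := 1) (cn := .pnn) (n1 := ndF0q0) (n2 := ndF5q1) (pc := pcF1) (cut := cut_A05pm_011_s1) (xt := xt_A05pm_011_s1) (P1 := 0) (W1 := 536870912) (P2 := 536870912) (W2 := 536870912) (P3 := 201326592) (W3 := 134217728)
    rfl rfl rfl (fun _ => rfl) t10_A05pm_011_s1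

theorem s_A05pm_011_s1 {κ x : ℝ} (hκ : κ * h0 = ken x) (hx : ((201326592 : ℕ) : ℝ) / S ≤ x)
    (hx' : x ≤ (((201326592 : ℕ) : ℝ) + (134217728 : ℕ)) / S)
    (H : CutA (VF κ) PP tKF tL pcF (Cut.of [[⟨0, 0, 0, 67108864⟩, ⟨1, 1, 0, 67108864⟩, ⟨2, 1, 0, 67108864⟩]]) 0 1 1 0 5 (sgb true) (sgb false) x) :
    AltA (VF κ) PP tKF tL pcF [⟨3, 0, 0, 1449551462⟩] 0 1 1 0 5 (sgb true) (sgb false) x :=
  strip_altA (m := 1449551462) true rfl hκ covF00 covF51 hx hx' c_A05pm_011_s1 H ((okx hx hx').extA (T := tt) (sideF hx hx') hκ rfl rfl (.O 0 true) (.N 1 false) (Or.inr rfl))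

noncomputable def cut_A05pm_012_s1 : Cut := Cut.of [[⟨4, 0, 0, 1449551462⟩], [⟨0, 0, 0, 67108864⟩, ⟨1, 1, 0, 67108864⟩, ⟨2, 1, 0, 67108864⟩]]

noncomputable def f_A05pm_012_s1 : ℕ → ℕ → ℕ → ℕ → Bool := onCell 1073741824 536870912 536870912 536870912 201326592 134217728
    (rowFK 2 true true false .pnp 0 1 2 (qsf 0 536870912 536870912 536870912 2) ndF0q0 ndF5q1 pcF2 cut_A05pm_012_s1 Ext.none)

def k0_A05pm_012_s1 : ∃ t, chk3 f_A05pm_012_s1 t 2 2 1 = true :=
  ⟨(a (b (a (b (a (b (l 17513120) (l 17434112)) (l 6)) (a (b (l 17347136) (a (l 17212240) (l 17287280))) (b (l 17484072) (l 17397736)))) (l 6)) (b (b (a (a (a (l 16847584) (l 17179408)) (l 17131280)) (a (l 17451728) (l 6))) (a (a (a (l 16633224) (l 16969992)) (a (l 17140208) (l 17226112))) (a (l 17351712) (l 6)))) (a (a (a (b (a (l 16704600) (l 16749072)) (a (l 16590416) (l 16637592))) (b (l 16818152) (l 16628720))) (b (a (l 16996360) (l 17091184)) (a (l 16817008) (l 16923360))))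 (a (b (l 17147056) (l 16997472)) (a (l 17134504) (l 6)))))) (a (l 6) (l 6))), by decide +kernel⟩

def k1_A05pm_012_s1 : ∃ t, chk3 f_A05pm_012_s1 t 4 6 1 = true :=
  ⟨(a (a (b (a (b (a (b (l 16585792) (l 16600304)) (l 16578608)) (a (b (l 16615480) (l 16631240)) (l 16608096))) (b (l 16599656) (a (l 16593176) (l 16578512)))) (a (b (a (b (l 16647624) (l 16622744)) (c (l 16641600) (l 16638664))) (a (b (l 16619488) (l 16637632)) (c (l 16633864) (l 16673616)))) (b (a (l 16624344) (l 16608848)) (b (l 16641400) (l 16616792))))) (b (b (a (l 16586576) (l 16708456)) (a (l 16556944) (l 16529400))) (b (a (b (l 16494768) (l 16593888)) (l 16682624)) (a (c (l 16580136) (l 16614152)) (c (l 16551008) (l 16581528)))))) (a (b (b (l 16807216) (a (l 16569344) (l 16712648))) (b (a (l 16612336) (l 16585128)) (a (b (l 16466104) (l 16481176)) (b (l 16437576) (l 16451968))))) (a (b (b (l 17066832) (l 16851232)) (b (l 16645936) (b (l 16493792) (l 16507408))))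 (b (a (l 16973864) (b (l 17204976) (l 17015600))) (b (a (l 16685216) (l 16764400)) (a (l 16480184) (l 16587280))))))), by decide +kernel⟩

def k2_A05pm_012_s1 : ∃ t, chk3 f_A05pm_012_s1 t 16 7 1 = true :=
  ⟨(b (a (b (a (b (c (l 16656304) (l 16676792)) (a (l 16679952) (l 16691080))) (b (l 16701856) (l 16678128))) (a (b (a (c (l 16698056) (l 16698152)) (l 16709224)) (a (a (l 16709184) (l 16712776)) (l 16706192))) (b (l 16675248) (c (l 16693880) (l 16692304))))) (b (b (c (l 16636664) (l 16590512)) (c (l 16644072) (l 16650488))) (b (a (l 16658040) (l 16661912)) (a (c (l 16677296) (l 16695232)) (c (l 16681848) (l 16635376)))))) (a (b (b (b (a (a (l 16718368) (l 16719520)) (c (l 16707096) (l 16684616))) (a (a (l 14) (l 16728344)) (a (l 16719520) (l 16689760)))) (a (l 14) (a (l 14) (b (l 16719424) (l 14))))) (l 14)) (b (b (a (b (l 16688936) (c (l 16699056) (l 16675192))) (a (l 16680304) (l 16671704))) (a (b (c (l 16697192) (l 16683824))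 (a (l 14) (l 16689480))) (b (c (l 16670016) (l 16665720)) (c (l 16699472) (l 16674224))))) (a (l 14) (b (b (a (l 14) (c (l 16682752) (l 16678112))) (l 14)) (l 14)))))), by decide +kernel⟩

def k3_A05pm_012_s1 : ∃ t, chk3 f_A05pm_012_s1 t 17 7 1 = true :=
  ⟨(b (b (a (b (l 16601608) (a (l 16585400) (l 16568936))) (b (l 16569656) (c (l 16549856) (l 16539392)))) (a (a (b (l 16645056) (l 16641664)) (b (l 16628392) (l 16624872))) (a (b (l 16569904) (l 16608216)) (b (l 16553568) (l 16612656))))) (b (a (b (a (c (l 16661904) (l 16635024)) (c (l 16645856) (l 16617384))) (a (b (c (l 16653656) (l 16647848)) (c (l 16662048) (l 16656288))) (b (l 16633848) (c (l 16645848) (l 16638528))))) (b (a (c (l 16608952) (l 16599864)) (c (l 16593112) (l 16582432))) (a (b (l 16617056) (l 16635856)) (c (b (l 16605672) (l 16613896)) (l 16599248))))) (b (a (b (a (c (l 16675640) (l 16664640)) (c (l 16654112) (l 16646832))) (a (c (b (l 16676624) (l 14)) (l 16678160))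 (c (b (l 16660272) (l 16664360)) (l 16655040)))) (a (b (c (l 16637992) (l 16629152)) (c (l 16646112) (l 16637312))) (b (c (l 16622032) (l 16611608)) (c (l 16630088) (l 16619720))))) (b (a (a (l 14) (a (l 14) (b (l 16660576) (l 14)))) (a (c (b (l 16652168) (l 16656184)) (l 16655856)) (c (b (l 16636088) (l 16640056)) (l 16627720)))) (a (l 14) (a (b (c (l 16660176) (l 16651352)) (l 14)) (c (b (l 16644008) (a (l 16651976) (l 16643928))) (b (l 16633664) (l 16637584))))))))), by decide +kernel⟩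

def k4_A05pm_012_s1 : ∃ t, chk3 f_A05pm_012_s1 t 18 7 1 = true :=
  ⟨(b (b (a (b (l 16580752) (l 16554952)) (b (l 16550792) (l 16524328))) (c (b (a (l 16536464) (l 16506992)) (a (l 16595024) (l 16523024))) (b (a (l 16522808) (l 16489744)) (a (l 16539688) (l 16506128))))) (b (b (a (c (a (l 16577568) (l 16562200)) (l 16598552)) (c (b (l 16535240) (l 16543384)) (l 16522632))) (b (a (c (l 16582296) (l 16569184)) (c (l 16551568) (l 16535040))) (a (c (c (l 16593776) (l 16587248)) (l 16577464)) (c (c (l 16563816) (l 16555536)) (l 16543216))))) (b (c (a (b (c (l 16601824) (l 16595360)) (a (l 16614384) (l 16598848))) (a (b (l 16575456) (l 16583400)) (b (l 16560064) (l 16568008)))) (a (b (l 16585624) (a (l 16602328) (l 16585080))) (b (l 16551320) (l 16580304)))) (c (b (a (a (b (l 16620336) (l 16624272)) (c (l 16610096) (l 16603312))) (a (a (l 16595104) (l 16587384)) (a (l 16579680) (l 16571984)))) (a (a (b (l 16628184) (c (l 16634992) (l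 16629128))) (b (l 16612552) (c (l 16619760) (l 16613040)))) (b (c (a (l 16600840) (l 16585848)) (l 16585256)) (c (a (l 16604656) (l 16589640)) (a (l 16597064) (l 16581176)))))) (a (b (a (l 16610288) (l 16593000)) (a (b (l 16616192) (l 16620088)) (b (l 16598872) (l 16602744)))) (b (c (l 16581784) (l 16563112)) (a (b (l 16581648) (l 16585504)) (c (l 16570720) (l 16562112))))))))), by decide +kernel⟩

def k5_A05pm_012_s1 : ∃ t, chk3 f_A05pm_012_s1 t 19 7 1 = true :=
  ⟨(b (a (c (b (b (l 16448920) (l 16463416)) (b (l 16478392) (l 16535672))) (b (l 16434256) (b (l 16457448) (l 16473224)))) (b (a (b (l 16416664) (l 16430944)) (b (l 16403112) (l 16416992))) (a (b (l 16445656) (l 16502704)) (b (l 16515248) (c (l 16458944) (l 16433544)))))) (b (c (a (b (c (l 16556512) (l 16504304)) (a (c (l 16537576) (l 16527960)) (b (l 16513976) (l 16521848)))) (b (a (l 16487784) (l 16473728)) (a (l 16503224) (l 16530776)))) (a (b (l 16489240) (c (l 16510264)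 (l 16500424))) (b (a (l 16464776) (l 16448792)) (a (l 16480528) (l 16464256))))) (c (a (b (b (a (l 16555232) (l 16529720)) (c (a (l 16557392) (l 16542776)) (l 16550600))) (b (c (a (b (l 16563248) (l 16567096)) (l 16561000)) (a (l 16555760) (l 16540192))) (a (c (a (b (l 16574648) (l 16578432)) (b (l 16567200) (l 16570984))) (b (l 16561552) (l 16565368))) (c (b (l 16556272) (c (l 16562616) (l 16557488))) (b (l 16545984) (l 16549792)))))) (b (a (b (l 16514888) (l 16522640)) (b (l 16500288) (c (l 16514064) (l 16501792)))) (b (a (c (l 16536008) (l 16524744)) (c (l 16542608) (l 16509432))) (a (c (b (l 16541736) (c (l 16548312) (l 16542712))) (b (l 16530512) (l 16534320))) (a (c (l 16543208) (l 16520816)) (c (l 16535944) (l 16513096))))))) (a (a (b (b (l 16525816) (l 16533776)) (b (l 16562600) (c (l 16554064) (l 16544624)))) (b (b (l 16509008) (l 16516920)) (b (l 16524744) (c (l 16537600) (l 16527296))))) (b (a (l 16517224) (b (l 16475896)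 (l 16483624))) (a (b (l 16507952) (c (l 16521224) (l 16510048))) (b (l 16512280) (a (l 16503048) (l 16494664))))))))), by decide +kernel⟩

def k6_A05pm_012_s1 : ∃ t, chk3 f_A05pm_012_s1 t 10 6 1 = true :=
  ⟨(a (a (b (b (l 6) (a (l 17077824) (l 17137544))) (b (a (l 16841032) (l 16914992)) (a (l 16517592) (l 16612368)))) (a (b (l 6) (b (l 16986416) (l 16703520))) (b (l 6) (b (l 6) (a (l 16769576) (a (l 16801888) (l 16655400))))))) (a (b (l 6) (b (l 6) (l 16580440))) (l 6))), by decide +kernel⟩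

def k7_A05pm_012_s1 : ∃ t, chk3 f_A05pm_012_s1 t 40 7 1 = true :=
  ⟨(b (b (a (b (l 16391656) (l 16404880)) (b (l 16383520) (l 16395744))) (a (b (l 16418664) (l 16474768)) (b (l 16408576) (l 16505776)))) (b (b (a (c (l 16461120) (l 16433896)) (l 16477488)) (a (c (l 16517584) (l 16448880)) (c (l 16464360) (l 16434992)))) (b (a (c (b (l 16486720) (l 16536056)) (b (l 16460216) (l 16467760))) (c (b (l 16474816) (l 16481824)) (l 16491368))) (c (a (a (b (l 16504680) (c (l 16518592) (l 16505720))) (b (l 16498208) (b (l 16503696) (l 16507344)))) (b (l 16509832) (b (l 16515120) (c (l 16504832) (l 16490520))))) (a (b (l 16475280) (c (l 16489248) (l 16476264))) (b (l 16460296) (c (l 16474536) (l 16460480)))))))), by decide +kernel⟩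

def k8_A05pm_012_s1 : ∃ t, chk3 f_A05pm_012_s1 t 41 7 1 = true :=
  ⟨(b (b (a (b (l 16419728) (l 16387544)) (a (l 16394176) (a (l 16436840) (b (l 16566640) (l 16379440))))) (a (b (l 16399352) (l 16495592)) (c (a (l 16493168) (a (l 16545480) (l 16453936))) (a (l 16381064) (a (l 16377688) (l 16375664)))))) (b (a (b (c (l 16441136) (l 16408248)) (c (l 16453832) (l 16421712))) (b (a (l 16500856) (a (l 16497448) (c (l 16430424) (l 16393136)))) (c (a (l 16446696) (a (l 16443472) (l 16441520))) (a (l 16412392) (a (l 16408008) (l 16405264)))))) (c (a (b (b (l 16463576) (l 16470152)) (b (a (l 16479736) (l 16473944)) (a (b (l 16484808) (l 16488184)) (b (l 16478856) (l 16482128))))) (a (b (l 16458928) (b (l 16468328) (b (l 16473064) (l 16497200)))) (b (a (l 16455256) (b (l 16450096) (l 16497872))) (c (a (b (l 16473032) (l 16479032)) (b (l 16491696) (b (l 16496080) (a (a (a (l 16479216) (l 16478920)) (l 16478464)) (l 16477464))))) (a (b (l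 16455728) (l 16461960)) (b (l 16494992) (a (a (a (l 16460448) (l 16481080)) (l 16459592)) (l 16458480)))))))) (c (b (a (l 16443144) (a (l 16433680) (a (l 16429192) (l 16426360)))) (a (b (l 16453432) (l 16460288)) (a (b (l 16443504) (l 16450072)) (a (b (l 16438744) (l 16445144)) (b (l 16435712) (b (l 16440424) (l 16464544))))))) (b (a (l 16427736) (a (l 16417296) (a (l 16412296) (l 16409104)))) (a (b (l 16438168) (l 16445096)) (a (l 16430640) (a (l 16425328) (b (l 16418704) (l 16446096)))))))))), by decide +kernel⟩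

def k9_A05pm_012_s1 : ∃ t, chk3 f_A05pm_012_s1 t 21 7 1 = true :=
  ⟨(b (b (a (b (l 16679928) (l 16484504)) (l 6)) (a (b (l 16466200) (l 16444208)) (b (l 16498720) (l 16419400)))) (b (a (b (c (l 16422632) (l 16381656)) (c (l 16474432) (l 16392696))) (b (c (l 16547104) (l 16361952)) (c (l 16417592) (l 16371240)))) (b (a (c (b (l 16440240) (l 16487424)) (b (l 16401296) (l 16407088))) (c (b (l 16423832) (l 16428056)) (b (l 16378560) (l 16383512)))) (c (a (c (b (l 16481488) (a (l 16470336) (l 16460592))) (b (l 16483120) (a (l 16452032) (l 16440856)))) (b (a (l 16436304) (l 16428104)) (a (b (l 16439848) (l 16463208)) (l 16458520)))) (a (b (a (l 16419064) (l 16406216)) (a (l 16446152) (l 16453912))) (b (l 16430512) (c (l 16425272) (l 16383208)))))))), by decide +kernel⟩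

def k10_A05pm_012_s1 : ∃ t, chk3 f_A05pm_012_s1 t 11 3 1 = true :=
  ⟨(a (a (b (l 6) (b (l 6) (b (a (b (l 6) (l 16424648)) (l 6)) (b (c (b (l 16442632) (l 16414680)) (l 16403232)) (c (b (l 16438888) (a (l 16445528) (l 16417800))) (b (l 16367464) (a (l 16376664) (l 16366544)))))))) (b (l 6) (b (l 6) (l 6)))) (l 6)), by decide +kernel⟩

def k11_A05pm_012_s1 : ∃ t, chk3 f_A05pm_012_s1 t 3 1 1 = true :=
  ⟨(b (l 6) (l 6)), by decide +kernel⟩

theorem t12_A05pm_012_s1 : ∃ t, chk3 f_A05pm_012_s1 t 20 7 1 = true := ex3_a k7_A05pm_012_s1 k8_A05pm_012_s1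

theorem t13_A05pm_012_s1 : ∃ t, chk3 f_A05pm_012_s1 t 10 7 1 = true := ex3_a t12_A05pm_012_s1 k9_A05pm_012_s1

theorem t14_A05pm_012_s1 : ∃ t, chk3 f_A05pm_012_s1 t 10 3 1 = true := ex3_b k6_A05pm_012_s1 t13_A05pm_012_s1

theorem t15_A05pm_012_s1 : ∃ t, chk3 f_A05pm_012_s1 t 5 3 1 = true := ex3_a t14_A05pm_012_s1 k10_A05pm_012_s1

theorem t16_A05pm_012_s1 : ∃ t, chk3 f_A05pm_012_s1 t 9 7 1 = true := ex3_a k4_A05pm_012_s1 k5_A05pm_012_s1

theorem t17_A05pm_012_s1 : ∃ t, chk3 f_A05pm_012_s1 t 8 7 1 = true := ex3_a k2_A05pm_012_s1 k3_A05pm_012_s1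

theorem t18_A05pm_012_s1 : ∃ t, chk3 f_A05pm_012_s1 t 4 7 1 = true := ex3_a t17_A05pm_012_s1 t16_A05pm_012_s1

theorem t19_A05pm_012_s1 : ∃ t, chk3 f_A05pm_012_s1 t 4 3 1 = true := ex3_b k1_A05pm_012_s1 t18_A05pm_012_s1

theorem t20_A05pm_012_s1 : ∃ t, chk3 f_A05pm_012_s1 t 2 3 1 = true := ex3_a t19_A05pm_012_s1 t15_A05pm_012_s1

theorem t21_A05pm_012_s1 : ∃ t, chk3 f_A05pm_012_s1 t 2 1 1 = true := ex3_b k0_A05pm_012_s1 t20_A05pm_012_s1

theorem t22_A05pm_012_s1 : ∃ t, chk3 f_A05pm_012_s1 t 1 1 1 = true := ex3_a t21_A05pm_012_s1 k11_A05pm_012_s1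

theorem c_A05pm_012_s1 : CertF 0 536870912 536870912 536870912 201326592 134217728 true true false .pnp 0 1 2
    ndF0q0 ndF5q1 pcF2 cut_A05pm_012_s1 Ext.none :=
  certFK2 (fam := true) (s1 := true) (s2 := false) (a := 0) (b := 1) (c := 2) (cn := .pnp) (n1 := ndF0q0) (n2 := ndF5q1) (pc := pcF2) (cut := cut_A05pm_012_s1) (xt := Ext.none) (P1 := 0) (W1 := 536870912) (P2 := 536870912) (W2 := 536870912) (P3 := 201326592) (W3 := 134217728)
    rfl rfl rfl (fun _ => rfl) t22_A05pm_012_s1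

theorem s_A05pm_012_s1 {κ x : ℝ} (hκ : κ * h0 = ken x) (hx : ((201326592 : ℕ) : ℝ) / S ≤ x)
    (hx' : x ≤ (((201326592 : ℕ) : ℝ) + (134217728 : ℕ)) / S)
    (H : CutA (VF κ) PP tKF tL pcF (Cut.of [[⟨0, 0, 0, 67108864⟩, ⟨1, 1, 0, 67108864⟩, ⟨2, 1, 0, 67108864⟩]]) 0 1 2 0 5 (sgb true) (sgb false) x) :
    AltA (VF κ) PP tKF tL pcF [⟨3, 0, 0, 1449551462⟩] 0 1 2 0 5 (sgb true) (sgb false) x :=
  strip_altA (m := 1449551462) true rfl hκ covF00 covF51 hx hx' c_A05pm_012_s1 H (noExt_A)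

noncomputable def cut_A05pm_022_s1 : Cut := Cut.of [[⟨4, 0, 0, 1449551462⟩], [⟨0, 0, 0, 67108864⟩, ⟨1, 1, 0, 67108864⟩, ⟨2, 1, 0, 67108864⟩]]

noncomputable def f_A05pm_022_s1 : ℕ → ℕ → ℕ → ℕ → Bool := onCell 1073741824 536870912 1073741824 536870912 201326592 134217728
    (rowFK 2 true true false .pp 0 2 2 (qsf 0 536870912 1073741824 536870912 2) ndF0q0 ndF5q2 pcF2 cut_A05pm_022_s1 Ext.none)

def k0_A05pm_022_s1 : ∃ t, chk3 f_A05pm_022_s1 t 8 4 1 = true :=
  ⟨(b (a (b (l 14) (b (l 14) (l 1))) (b (a (l 14) (a (l 14) (a (l 14) (b (b (c (l 16645696) (l 16635824)) (c (l 16645104) (l 16636960))) (b (l 16641000) (l 16640496)))))) (a (b (l 14) (b (l 14) (l 1))) (b (a (l 14) (b (l 16664280) (l 16683736))) (a (b (l 14) (a (l 1) (l 263637004151))) (b (l 16686032) (a (l 72510992679) (l 16684392)))))))) (b (a (l 1) (a (l 1) (b (a (l 1) (b (a (l 1) (l 265784460391)) (l 1))) (l 1)))) (l 1))), by decide +kernel⟩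

def k1_A05pm_022_s1 : ∃ t, chk3 f_A05pm_022_s1 t 18 4 1 = true :=
  ⟨(b (b (b (c (b (b (a (a (l 16633952) (c (l 16621528) (l 16615032))) (c (a (l 16606432) (l 16591440)) (a (l 16599072) (l 16583216)))) (a (c (l 16628736) (l 16623096)) (c (l 16598624) (l 16591280)))) (a (a (l 16633352) (l 16617824)) (c (l 16598080) (l 16591400)))) (a (a (b (a (l 16627112) (l 16618432)) (l 16623992)) (b (l 16610704) (l 16606824))) (b (a (l 16588272) (l 16571176)) (l 16591736)))) (a (b (c (a (l 16632552) (l 16617128)) (l 16616344)) (a (l 16633552) (l 16612248))) (a (c (l 16601448) (l 16591400)) (c (l 16586328) (l 16574640))))) (a (b (b (a (l 16627064) (l 16611416)) (c (l 16660912) (l 16657712))) (a (c (l 16674688) (l 16674592)) (l 16648008))) (b (a (b (l 16595792) (l 16594120)) (b (l 16580208) (l 16579200))) (c (l 16626816) (l 16623040))))) (b (a (b (a (b (a (l 73047836823) (l 16671184)) (a (l 1) (l 269542530743))) (b (l 16711688) (l 50499238439)))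 (a (l 1) (b (l 264173810039) (l 1)))) (b (c (l 16653224) (l 16653624)) (a (b (l 53183566455) (l 265784396439)) (c (l 16652432) (l 16650016))))) (a (l 1) (b (a (l 1) (b (l 266858111655) (l 1))) (l 1))))), by decide +kernel⟩

def k2_A05pm_022_s1 : ∃ t, chk3 f_A05pm_022_s1 t 19 4 1 = true :=
  ⟨(b (a (a (b (b (c (b (c (a (l 16580160) (a (l 16574592) (l 16570912))) (l 16572808)) (c (l 16575936) (l 16567952))) (b (c (l 16558640) (l 16549656)) (l 16555912))) (c (b (l 16571600) (l 16570952)) (l 16557960))) (b (c (l 16569176) (l 16559320)) (l 16582000))) (b (b (c (b (c (a (l 16565488) (l 16558264)) (l 16552064)) (l 16557048)) (b (c (l 16542240) (l 16532392)) (l 16539216))) (c (l 16556608) (l 16541480))) (b (c (l 16554992) (l 16543384)) (l 16588768)))) (a (b (b (c (b (c (b (l 16552664) (l 16547392)) (l 16536672)) (l 16542280)) (b (c (l 16525944) (l 16515216)) (l 16522616))) (c (l 16542048) (l 16525096))) (b (c (l 16540704) (l 16527304))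 (l 16574432))) (b (b (c (b (a (c (l 16536552) (l 16525120)) (c (l 16529312) (l 16517424))) (l 16538040)) (b (c (l 16509704) (l 16498112)) (l 16506088))) (c (l 16527536) (l 16508768))) (b (c (l 16526440) (l 16511256)) (l 16517976))))) (a (b (b (l 16589504) (l 16626424)) (b (a (b (l 16646240) (l 267931826583)) (l 16624320)) (a (l 1) (l 273300524983)))) (b (b (a (l 16610904) (l 16597904)) (l 16596480)) (b (l 16619840) (a (l 88080126151) (l 16596640)))))), by decide +kernel⟩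

def k3_A05pm_022_s1 : ∃ t, chk3 f_A05pm_022_s1 t 4 5 1 = true :=
  ⟨(a (l 1) (b (a (l 1) (b (a (l 1) (b (a (l 1) (l 274374211527)) (l 1))) (l 1))) (l 1))), by decide +kernel⟩

def k4_A05pm_022_s1 : ∃ t, chk3 f_A05pm_022_s1 t 20 4 1 = true :=
  ⟨(b (a (b (b (c (a (b (c (b (l 16529688) (l 16519264)) (b (l 16506296) (l 16506808))) (l 16534288)) (b (c (l 16517056) (l 16492752)) (l 16499976))) (a (b (c (l 16493960) (l 16481432)) (l 16489928)) (b (b (l 16471680) (l 16472832)) (l 16474456)))) (a (c (l 16513424) (l 16492744)) (c (l 16499976) (l 16477248)))) (b (c (l 16547728) (l 16529688)) (a (l 16503480) (l 16488952)))) (b (b (c (a (b (b (c (l 16494496) (l 16479240)) (l 16486968)) (l 16487064)) (b (a (b (l 16498816) (l 16477880)) (a (a (l 16474320) (l 16493864)) (a (a (a (l 16472056) (c (l 16501072) (l 16463408))) (l 16471216)) (l 16470136)))) (a (l 16477848) (a (l 16473408) (l 16470576))))) (b (a (b (l 16456688) (l 16457784)) (a (l 16446376)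 (a (l 16441112) (b (c (l 16466488) (l 16428968)) (l 16480128))))) (a (l 16459328) (a (l 16448368) (a (l 16443024) (l 16439560)))))) (c (a (l 16486912) (a (l 16477496) (a (l 16472896) (l 16469944)))) (a (l 16462048) (a (l 16450960) (a (l 16445512) (l 16441968)))))) (b (a (l 16475152) (a (l 16464712) (b (l 16499752) (l 16541672)))) (a (l 16474656) (a (l 16464152) (l 16541048)))))) (a (a (b (a (l 16542720) (l 16536256)) (l 16589832)) (b (l 16526128) (l 16557608))) (a (b (l 16512568) (l 16540088)) (b (a (l 16460640) (l 16495760)) (a (l 16532368) (a (l 16528400) (l 16525280))))))), by decide +kernel⟩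

def k5_A05pm_022_s1 : ∃ t, chk3 f_A05pm_022_s1 t 21 4 1 = true :=
  ⟨(b (b (c (b (a (b (a (a (l 16487576) (l 16482000)) (a (l 16455632) (l 16450424))) (l 16500208)) (b (a (l 16474512) (l 16454864)) (l 16437608))) (a (l 16457208) (l 16435832))) (b (a (b (a (l 16450160) (l 16415728)) (l 16424352)) (b (a (l 16402896) (l 16390776)) (l 16398288))) (a (l 16426472) (l 16399952)))) (b (a (l 16483720) (l 16500992)) (c (l 16483200) (l 16500352)))) (b (b (l 16468160) (l 16506552)) (b (l 16501576) (l 16494328)))), by decide +kernel⟩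

def k6_A05pm_022_s1 : ∃ t, chk3 f_A05pm_022_s1 t 10 5 1 = true :=
  ⟨(b (a (b (a (b (a (l 16598968) (l 16609496)) (a (l 1) (l 274374152695))) (a (l 38687893351) (a (l 16569024) (l 16562928)))) (a (l 1) (b (a (l 1) (a (l 1) (l 16578632))) (l 1)))) (b (l 16505176) (a (b (l 16562904) (l 258267928711)) (l 16522872)))) (a (l 1) (b (a (l 1) (l 262026009447)) (l 1)))), by decide +kernel⟩

def k7_A05pm_022_s1 : ∃ t, chk3 f_A05pm_022_s1 t 11 2 1 = true :=
  ⟨(b (a (b (b (b (b (c (a (a (l 16446664) (l 16418448)) (b (l 16431144) (l 16408928))) (a (b (l 16395024) (l 16374480)) (b (l 16396792) (l 16354976)))) (a (c (l 16420408) (l 16375072)) (c (l 16406976) (l 16355080)))) (a (c (l 16417616) (l 16376032)) (c (l 16402976) (l 16355152)))) (b (c (l 16447400) (l 16449744)) (l 16445488))) (b (b (l 16463096) (l 16374840)) (a (l 16377528) (l 16354736)))) (b (b (l 6) (b (l 6) (l 16389856))) (b (b (l 16341672) (l 16335008)) (l 16407624)))) (b (a (b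 (l 16513328) (l 16437536)) (b (l 16386400) (l 16354712))) (a (b (a (l 132640192023) (l 16479224)) (l 264710334039)) (b (l 16396432) (l 135861341479))))), by decide +kernel⟩

def k8_A05pm_022_s1 : ∃ t, chk3 f_A05pm_022_s1 t 2 3 1 = true :=
  ⟨(a (l 1) (a (l 1) (b (b (a (l 1) (b (l 266320880679) (l 1))) (l 1)) (l 1)))), by decide +kernel⟩

def k9_A05pm_022_s1 : ∃ t, chk3 f_A05pm_022_s1 t 3 1 1 = true :=
  ⟨(a (b (a (b (l 6) (a (b (b (l 16421152) (l 16425584)) (l 16392848)) (l 6))) (l 6)) (b (a (b (a (b (l 16709520) (l 291554350199)) (b (l 16868376) (l 16930920))) (a (l 1) (l 330746617815))) (l 6)) (a (l 1) (b (l 361885904407) (l 1))))) (b (l 6) (l 6))), by decide +kernel⟩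

theorem t10_A05pm_022_s1 : ∃ t, chk3 f_A05pm_022_s1 t 10 4 1 = true := ex3_a k4_A05pm_022_s1 k5_A05pm_022_s1

theorem t11_A05pm_022_s1 : ∃ t, chk3 f_A05pm_022_s1 t 10 2 1 = true := ex3_b t10_A05pm_022_s1 k6_A05pm_022_s1

theorem t12_A05pm_022_s1 : ∃ t, chk3 f_A05pm_022_s1 t 5 2 1 = true := ex3_a t11_A05pm_022_s1 k7_A05pm_022_s1

theorem t13_A05pm_022_s1 : ∃ t, chk3 f_A05pm_022_s1 t 9 4 1 = true := ex3_a k1_A05pm_022_s1 k2_A05pm_022_s1

theorem t14_A05pm_022_s1 : ∃ t, chk3 f_A05pm_022_s1 t 4 4 1 = true := ex3_a k0_A05pm_022_s1 t13_A05pm_022_s1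

theorem t15_A05pm_022_s1 : ∃ t, chk3 f_A05pm_022_s1 t 4 2 1 = true := ex3_b t14_A05pm_022_s1 k3_A05pm_022_s1

theorem t16_A05pm_022_s1 : ∃ t, chk3 f_A05pm_022_s1 t 2 2 1 = true := ex3_a t15_A05pm_022_s1 t12_A05pm_022_s1

theorem t17_A05pm_022_s1 : ∃ t, chk3 f_A05pm_022_s1 t 2 1 1 = true := ex3_b t16_A05pm_022_s1 k8_A05pm_022_s1

theorem t18_A05pm_022_s1 : ∃ t, chk3 f_A05pm_022_s1 t 1 1 1 = true := ex3_a t17_A05pm_022_s1 k9_A05pm_022_s1

theorem c_A05pm_022_s1 : CertF 0 536870912 1073741824 536870912 201326592 134217728 true true false .pp 0 2 2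
    ndF0q0 ndF5q2 pcF2 cut_A05pm_022_s1 Ext.none :=
  certFK2 (fam := true) (s1 := true) (s2 := false) (a := 0) (b := 2) (c := 2) (cn := .pp) (n1 := ndF0q0) (n2 := ndF5q2) (pc := pcF2) (cut := cut_A05pm_022_s1) (xt := Ext.none) (P1 := 0) (W1 := 536870912) (P2 := 1073741824) (W2 := 536870912) (P3 := 201326592) (W3 := 134217728)
    rfl rfl rfl (fun _ => rfl) t18_A05pm_022_s1

theorem s_A05pm_022_s1 {κ x : ℝ} (hκ : κ * h0 = ken x) (hx : ((201326592 : ℕ) : ℝ) / S ≤ x)
    (hx' : x ≤ (((201326592 : ℕ) : ℝ) + (134217728 : ℕ)) / S)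
    (H : CutA (VF κ) PP tKF tL pcF (Cut.of [[⟨0, 0, 0, 67108864⟩, ⟨1, 1, 0, 67108864⟩, ⟨2, 1, 0, 67108864⟩]]) 0 2 2 0 5 (sgb true) (sgb false) x) :
    AltA (VF κ) PP tKF tL pcF [⟨3, 0, 0, 1449551462⟩] 0 2 2 0 5 (sgb true) (sgb false) x :=
  strip_altA (m := 1449551462) true rfl hκ covF00 covF52 hx hx' c_A05pm_022_s1 H (noExt_A)

noncomputable def cut_A05pm_023_s1 : Cut := Cut.of [[⟨4, 0, 0, 1449551462⟩]]

noncomputable def f_A05pm_023_s1 : ℕ → ℕ → ℕ → ℕ → Bool := onCell 1610612736 536870912 1073741824 536870912 201326592 134217728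
    (rowFK 2 true true false .up 0 2 3 (qsf 0 536870912 1073741824 536870912 3) ndF0q0 ndF5q2 pcF3 cut_A05pm_023_s1 Ext.none)

def k0_A05pm_023_s1 : ∃ t, chk3 f_A05pm_023_s1 t 1 1 1 = true :=
  ⟨(a (l 6) (l 6)), by decide +kernel⟩

theorem c_A05pm_023_s1 : CertF 0 536870912 1073741824 536870912 201326592 134217728 true true false .up 0 2 3
    ndF0q0 ndF5q2 pcF3 cut_A05pm_023_s1 Ext.none :=
  certFK2 (fam := true) (s1 := true) (s2 := false) (a := 0) (b := 2) (c := 3) (cn := .up) (n1 := ndF0q0) (n2 := ndF5q2) (pc := pcF3) (cut := cut_A05pm_023_s1) (xt := Ext.none) (P1 := 0) (W1 := 536870912) (P2 := 1073741824) (W2 := 536870912) (P3 := 201326592) (W3 := 134217728)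
    rfl rfl rfl (fun _ => rfl) k0_A05pm_023_s1

theorem s_A05pm_023_s1 {κ x : ℝ} (hκ : κ * h0 = ken x) (hx : ((201326592 : ℕ) : ℝ) / S ≤ x)
    (hx' : x ≤ (((201326592 : ℕ) : ℝ) + (134217728 : ℕ)) / S) :
    AltA (VF κ) PP tKF tL pcF [⟨3, 0, 0, 1449551462⟩] 0 2 3 0 5 (sgb true) (sgb false) x :=
  strip_altA (m := 1449551462) true rfl hκ covF00 covF52 hx hx' c_A05pm_023_s1 cutA_nil (noExt_A)

noncomputable def cut_A05pm_033_s1 : Cut := Cut.of [[⟨4, 0, 0, 1449551462⟩]]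

noncomputable def f_A05pm_033_s1 : ℕ → ℕ → ℕ → ℕ → Bool := onCell 1610612736 536870912 0 1230186008 201326592 134217728
    (rowFK 2 true true false .pnn 0 3 3 (qsf 0 536870912 0 1230186008 3) ndF0q0 ndF5q3 pcF3 cut_A05pm_033_s1 Ext.none)

def k0_A05pm_033_s1 : ∃ t, chk3 f_A05pm_033_s1 t 1 1 1 = true :=
  ⟨(b (l 6) (l 6)), by decide +kernel⟩

theorem c_A05pm_033_s1 : CertF 0 536870912 0 1230186008 201326592 134217728 true true false .pnn 0 3 3
    ndF0q0 ndF5q3 pcF3 cut_A05pm_033_s1 Ext.none :=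
  certFK2 (fam := true) (s1 := true) (s2 := false) (a := 0) (b := 3) (c := 3) (cn := .pnn) (n1 := ndF0q0) (n2 := ndF5q3) (pc := pcF3) (cut := cut_A05pm_033_s1) (xt := Ext.none) (P1 := 0) (W1 := 536870912) (P2 := 0) (W2 := 1230186008) (P3 := 201326592) (W3 := 134217728)
    rfl rfl rfl (fun _ => rfl) k0_A05pm_033_s1

theorem s_A05pm_033_s1 {κ x : ℝ} (hκ : κ * h0 = ken x) (hx : ((201326592 : ℕ) : ℝ) / S ≤ x)
    (hx' : x ≤ (((201326592 : ℕ) : ℝ) + (134217728 : ℕ)) / S) :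
    AltA (VF κ) PP tKF tL pcF [⟨3, 0, 0, 1449551462⟩] 0 3 3 0 5 (sgb true) (sgb false) x :=
  strip_altA (m := 1449551462) true rfl hκ covF00 covF53 hx hx' c_A05pm_033_s1 cutA_nil (noExt_A)

noncomputable def cut_A05pm_101_s1 : Cut := Cut.of [[⟨4, 0, 0, 1449551462⟩]]

noncomputable def xt_A05pm_101_s1 : Ext := strExt dd true true false .u0 .s0m .u0m .npn 1 0 1 rfl rfl gf1 vv ndF0q1 ndF5q0

noncomputable def f_A05pm_101_s1 : ℕ → ℕ → ℕ → ℕ → Bool := onCell 536870912 536870912 536870912 536870912 201326592 134217728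
    (rowFK 1 true true false .npn 1 0 1 (qsf 536870912 536870912 0 536870912 1) ndF0q1 ndF5q0 pcF1 cut_A05pm_101_s1 xt_A05pm_101_s1)

def k0_A05pm_101_s1 : ∃ t, chk3 f_A05pm_101_s1 t 1 1 1 = true :=
  ⟨(b (b (a (a (b (a (l 3) (b (l 1) (l 552122639))) (a (a (l 552260879) (l 551809807)) (l 551171599))) (a (b (l 1) (a (l 550550799) (l 1))) (l 1))) (l 1)) (a (a (b (b (a (c (l 553060879) (l 549444879)) (l 550370063)) (a (c (a (l 553295375) (l 552512527)) (a (l 549441807) (l 548950287))) (a (l 16885352) (l 17027736)))) (b (a (a (a (l 551391247) (l 16932952)) (l 16891288)) (l 550823439)) (a (a (l 16901000) (l 17038336)) (l 17118752)))) (a (a (b (b (l 17031592) (l 17086208)) (l 17170584)) (b (l 83249116167) (l 17226416))) (b (b (l 1) (l 17255672)) (l 17320384)))) (a (a (b (l 1) (l 17452320)) (l 1)) (l 1)))) (a (b (b (a (b (a (a (l 17047616) (l 17098624)) (l 17175216)) (a (c (l 17188632) (l 17079608)) (l 17230104))) (a (l 17302704) (l 17407168)))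 (a (a (b (l 17192192) (l 17248680)) (l 17312736)) (a (l 17401744) (l 17496392)))) (a (a (b (b (l 17302712) (l 17351696)) (b (l 17392696) (l 17420576))) (b (l 17416840) (l 17504032))) (b (a (l 17499640) (l 6)) (l 6)))) (a (a (b (l 6) (l 6)) (l 6)) (l 6)))), by decide +kernel⟩

theorem c_A05pm_101_s1 : CertF 536870912 536870912 0 536870912 201326592 134217728 true true false .npn 1 0 1
    ndF0q1 ndF5q0 pcF1 cut_A05pm_101_s1 xt_A05pm_101_s1 :=
  certFK1 (fam := true) (s1 := true) (s2 := false) (a := 1) (b := 0) (c := 1) (cn := .npn) (n1 := ndF0q1) (n2 := ndF5q0) (pc := pcF1) (cut := cut_A05pm_101_s1) (xt := xt_A05pm_101_s1) (P1 := 536870912) (W1 := 536870912) (P2 := 0) (W2 := 536870912) (P3 := 201326592) (W3 := 134217728)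
    rfl rfl rfl (fun _ => rfl) k0_A05pm_101_s1

theorem s_A05pm_101_s1 {κ x : ℝ} (hκ : κ * h0 = ken x) (hx : ((201326592 : ℕ) : ℝ) / S ≤ x)
    (hx' : x ≤ (((201326592 : ℕ) : ℝ) + (134217728 : ℕ)) / S) :
    AltA (VF κ) PP tKF tL pcF [⟨3, 0, 0, 1449551462⟩] 1 0 1 0 5 (sgb true) (sgb false) x :=
  strip_altA (m := 1449551462) true rfl hκ covF01 covF50 hx hx' c_A05pm_101_s1 cutA_nil ((okx hx hx').extA (T := tt) (sideF hx hx') hκ rfl rfl (.O 1 true) (.N 0 false) (Or.inr rfl))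

noncomputable def cut_A05pm_102_s1 : Cut := Cut.of [[⟨4, 0, 0, 1449551462⟩]]

noncomputable def f_A05pm_102_s1 : ℕ → ℕ → ℕ → ℕ → Bool := onCell 536870912 536870912 1073741824 536870912 201326592 134217728
    (rowFK 1 true true false .npp 1 0 2 (qsf 536870912 536870912 0 536870912 2) ndF0q1 ndF5q0 pcF2 cut_A05pm_102_s1 Ext.none)

def k0_A05pm_102_s1 : ∃ t, chk3 f_A05pm_102_s1 t 1 1 1 = true :=
  ⟨(a (b (a (b (a (b (b (l 17585472) (l 6)) (l 6)) (l 6)) (l 6)) (l 6)) (l 6)) (l 6)), by decide +kernel⟩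

theorem c_A05pm_102_s1 : CertF 536870912 536870912 0 536870912 201326592 134217728 true true false .npp 1 0 2
    ndF0q1 ndF5q0 pcF2 cut_A05pm_102_s1 Ext.none :=
  certFK1 (fam := true) (s1 := true) (s2 := false) (a := 1) (b := 0) (c := 2) (cn := .npp) (n1 := ndF0q1) (n2 := ndF5q0) (pc := pcF2) (cut := cut_A05pm_102_s1) (xt := Ext.none) (P1 := 536870912) (W1 := 536870912) (P2 := 0) (W2 := 536870912) (P3 := 201326592) (W3 := 134217728)
    rfl rfl rfl (fun _ => rfl) k0_A05pm_102_s1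

theorem s_A05pm_102_s1 {κ x : ℝ} (hκ : κ * h0 = ken x) (hx : ((201326592 : ℕ) : ℝ) / S ≤ x)
    (hx' : x ≤ (((201326592 : ℕ) : ℝ) + (134217728 : ℕ)) / S) :
    AltA (VF κ) PP tKF tL pcF [⟨3, 0, 0, 1449551462⟩] 1 0 2 0 5 (sgb true) (sgb false) x :=
  strip_altA (m := 1449551462) true rfl hκ covF01 covF50 hx hx' c_A05pm_102_s1 cutA_nil (noExt_A)

noncomputable def cut_A05pm_112_s1 : Cut := Cut.of [[⟨4, 0, 0, 1449551462⟩]]

noncomputable def f_A05pm_112_s1 : ℕ → ℕ → ℕ → ℕ → Bool := onCell 536870912 536870912 1073741824 536870912 201326592 134217728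
    (rowFK 1 true true false .dn 1 1 2 (qsf 536870912 536870912 536870912 536870912 2) ndF0q1 ndF5q1 pcF2 cut_A05pm_112_s1 Ext.none)

def k0_A05pm_112_s1 : ∃ t, chk3 f_A05pm_112_s1 t 1 1 1 = true :=
  ⟨(a (b (a (b (a (b (l 17606608) (l 6)) (l 6)) (l 6)) (l 6)) (l 6)) (l 6)), by decide +kernel⟩

theorem c_A05pm_112_s1 : CertF 536870912 536870912 536870912 536870912 201326592 134217728 true true false .dn 1 1 2
    ndF0q1 ndF5q1 pcF2 cut_A05pm_112_s1 Ext.none :=
  certFK1 (fam := true) (s1 := true) (s2 := false) (a := 1) (b := 1) (c := 2) (cn := .dn) (n1 := ndF0q1) (n2 := ndF5q1) (pc := pcF2) (cut := cut_A05pm_112_s1) (xt := Ext.none) (P1 := 536870912) (W1 := 536870912) (P2 := 536870912) (W2 := 536870912) (P3 := 201326592) (W3 := 134217728)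
    rfl rfl rfl (fun _ => rfl) k0_A05pm_112_s1

theorem s_A05pm_112_s1 {κ x : ℝ} (hκ : κ * h0 = ken x) (hx : ((201326592 : ℕ) : ℝ) / S ≤ x)
    (hx' : x ≤ (((201326592 : ℕ) : ℝ) + (134217728 : ℕ)) / S) :
    AltA (VF κ) PP tKF tL pcF [⟨3, 0, 0, 1449551462⟩] 1 1 2 0 5 (sgb true) (sgb false) x :=
  strip_altA (m := 1449551462) true rfl hκ covF01 covF51 hx hx' c_A05pm_112_s1 cutA_nil (noExt_A)

noncomputable def cut_A05pm_113_s1 : Cut := Cut.of [[⟨4, 0, 0, 1449551462⟩]]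

noncomputable def f_A05pm_113_s1 : ℕ → ℕ → ℕ → ℕ → Bool := onCell 536870912 536870912 1610612736 536870912 201326592 134217728
    (rowFK 1 true true false .nn 1 1 3 (qsf 536870912 536870912 536870912 536870912 3) ndF0q1 ndF5q1 pcF3 cut_A05pm_113_s1 Ext.none)

def k0_A05pm_113_s1 : ∃ t, chk3 f_A05pm_113_s1 t 1 1 1 = true :=
  ⟨(l 6), by decide +kernel⟩

theorem c_A05pm_113_s1 : CertF 536870912 536870912 536870912 536870912 201326592 134217728 true true false .nn 1 1 3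
    ndF0q1 ndF5q1 pcF3 cut_A05pm_113_s1 Ext.none :=
  certFK1 (fam := true) (s1 := true) (s2 := false) (a := 1) (b := 1) (c := 3) (cn := .nn) (n1 := ndF0q1) (n2 := ndF5q1) (pc := pcF3) (cut := cut_A05pm_113_s1) (xt := Ext.none) (P1 := 536870912) (W1 := 536870912) (P2 := 536870912) (W2 := 536870912) (P3 := 201326592) (W3 := 134217728)
    rfl rfl rfl (fun _ => rfl) k0_A05pm_113_s1

theorem s_A05pm_113_s1 {κ x : ℝ} (hκ : κ * h0 = ken x) (hx : ((201326592 : ℕ) : ℝ) / S ≤ x)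
    (hx' : x ≤ (((201326592 : ℕ) : ℝ) + (134217728 : ℕ)) / S) :
    AltA (VF κ) PP tKF tL pcF [⟨3, 0, 0, 1449551462⟩] 1 1 3 0 5 (sgb true) (sgb false) x :=
  strip_altA (m := 1449551462) true rfl hκ covF01 covF51 hx hx' c_A05pm_113_s1 cutA_nil (noExt_A)

noncomputable def cut_A05pm_123_s1 : Cut := Cut.of [[⟨4, 0, 0, 1449551462⟩]]

noncomputable def f_A05pm_123_s1 : ℕ → ℕ → ℕ → ℕ → Bool := onCell 536870912 536870912 1073741824 536870912 201326592 134217728
    (rowFK 0 true true false .npn 1 2 3 (qsf 536870912 536870912 1073741824 536870912 3) ndF0q1 ndF5q2 pcF3 cut_A05pm_123_s1 Ext.none)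

def k0_A05pm_123_s1 : ∃ t, chk3 f_A05pm_123_s1 t 1 1 1 = true :=
  ⟨(l 6), by decide +kernel⟩

theorem c_A05pm_123_s1 : CertF 536870912 536870912 1073741824 536870912 201326592 134217728 true true false .npn 1 2 3
    ndF0q1 ndF5q2 pcF3 cut_A05pm_123_s1 Ext.none :=
  certFK0 (fam := true) (s1 := true) (s2 := false) (a := 1) (b := 2) (c := 3) (cn := .npn) (n1 := ndF0q1) (n2 := ndF5q2) (pc := pcF3) (cut := cut_A05pm_123_s1) (xt := Ext.none) (P1 := 536870912) (W1 := 536870912) (P2 := 1073741824) (W2 := 536870912) (P3 := 201326592) (W3 := 134217728)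
    rfl rfl rfl k0_A05pm_123_s1

theorem s_A05pm_123_s1 {κ x : ℝ} (hκ : κ * h0 = ken x) (hx : ((201326592 : ℕ) : ℝ) / S ≤ x)
    (hx' : x ≤ (((201326592 : ℕ) : ℝ) + (134217728 : ℕ)) / S) :
    AltA (VF κ) PP tKF tL pcF [⟨3, 0, 0, 1449551462⟩] 1 2 3 0 5 (sgb true) (sgb false) x :=
  strip_altA (m := 1449551462) true rfl hκ covF01 covF52 hx hx' c_A05pm_123_s1 cutA_nil (noExt_A)

noncomputable def cut_A05pm_133_s1 : Cut := Cut.of [[⟨4, 0, 0, 1449551462⟩]]

noncomputable def f_A05pm_133_s1 : ℕ → ℕ → ℕ → ℕ → Bool := onCell 536870912 536870912 0 1230186008 201326592 134217728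
    (rowFK 0 true true false .dn 1 3 3 (qsf 536870912 536870912 0 1230186008 3) ndF0q1 ndF5q3 pcF3 cut_A05pm_133_s1 Ext.none)

def k0_A05pm_133_s1 : ∃ t, chk3 f_A05pm_133_s1 t 1 1 1 = true :=
  ⟨(l 6), by decide +kernel⟩

theorem c_A05pm_133_s1 : CertF 536870912 536870912 0 1230186008 201326592 134217728 true true false .dn 1 3 3
    ndF0q1 ndF5q3 pcF3 cut_A05pm_133_s1 Ext.none :=
  certFK0 (fam := true) (s1 := true) (s2 := false) (a := 1) (b := 3) (c := 3) (cn := .dn) (n1 := ndF0q1) (n2 := ndF5q3) (pc := pcF3) (cut := cut_A05pm_133_s1) (xt := Ext.none) (P1 := 536870912) (W1 := 536870912) (P2 := 0) (W2 := 1230186008) (P3 := 201326592) (W3 := 134217728)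
    rfl rfl rfl k0_A05pm_133_s1

theorem s_A05pm_133_s1 {κ x : ℝ} (hκ : κ * h0 = ken x) (hx : ((201326592 : ℕ) : ℝ) / S ≤ x)
    (hx' : x ≤ (((201326592 : ℕ) : ℝ) + (134217728 : ℕ)) / S) :
    AltA (VF κ) PP tKF tL pcF [⟨3, 0, 0, 1449551462⟩] 1 3 3 0 5 (sgb true) (sgb false) x :=
  strip_altA (m := 1449551462) true rfl hκ covF01 covF53 hx hx' c_A05pm_133_s1 cutA_nil (noExt_A)

noncomputable def cut_A05pm_202_s1 : Cut := Cut.of [[⟨4, 0, 0, 1449551462⟩]]

noncomputable def f_A05pm_202_s1 : ℕ → ℕ → ℕ → ℕ → Bool := onCell 0 536870912 0 536870912 201326592 134217728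
    (rowFK 0 true true false .pp 2 0 2 (qsf 0 536870912 0 536870912 2) ndF0q2 ndF5q0 pcF2 cut_A05pm_202_s1 Ext.none)

def k0_A05pm_202_s1 : ∃ t, chk3 f_A05pm_202_s1 t 1 1 1 = true :=
  ⟨(l 6), by decide +kernel⟩

theorem c_A05pm_202_s1 : CertF 0 536870912 0 536870912 201326592 134217728 true true false .pp 2 0 2
    ndF0q2 ndF5q0 pcF2 cut_A05pm_202_s1 Ext.none :=
  certFK0 (fam := true) (s1 := true) (s2 := false) (a := 2) (b := 0) (c := 2) (cn := .pp) (n1 := ndF0q2) (n2 := ndF5q0) (pc := pcF2) (cut := cut_A05pm_202_s1) (xt := Ext.none) (P1 := 0) (W1 := 536870912) (P2 := 0) (W2 := 536870912) (P3 := 201326592) (W3 := 134217728)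
    rfl rfl rfl k0_A05pm_202_s1

theorem s_A05pm_202_s1 {κ x : ℝ} (hκ : κ * h0 = ken x) (hx : ((201326592 : ℕ) : ℝ) / S ≤ x)
    (hx' : x ≤ (((201326592 : ℕ) : ℝ) + (134217728 : ℕ)) / S) :
    AltA (VF κ) PP tKF tL pcF [⟨3, 0, 0, 1449551462⟩] 2 0 2 0 5 (sgb true) (sgb false) x :=
  strip_altA (m := 1449551462) true rfl hκ covF02 covF50 hx hx' c_A05pm_202_s1 cutA_nil (noExt_A)

noncomputable def cut_A05pm_203_s1 : Cut := Cut.of [[⟨4, 0, 0, 1449551462⟩]]

noncomputable def f_A05pm_203_s1 : ℕ → ℕ → ℕ → ℕ → Bool := onCell 0 536870912 0 536870912 201326592 134217728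
    (rowFK 0 true true false .up 2 0 3 (qsf 0 536870912 0 536870912 3) ndF0q2 ndF5q0 pcF3 cut_A05pm_203_s1 Ext.none)

def k0_A05pm_203_s1 : ∃ t, chk3 f_A05pm_203_s1 t 1 1 1 = true :=
  ⟨(l 6), by decide +kernel⟩

theorem c_A05pm_203_s1 : CertF 0 536870912 0 536870912 201326592 134217728 true true false .up 2 0 3
    ndF0q2 ndF5q0 pcF3 cut_A05pm_203_s1 Ext.none :=
  certFK0 (fam := true) (s1 := true) (s2 := false) (a := 2) (b := 0) (c := 3) (cn := .up) (n1 := ndF0q2) (n2 := ndF5q0) (pc := pcF3) (cut := cut_A05pm_203_s1) (xt := Ext.none) (P1 := 0) (W1 := 536870912) (P2 := 0) (W2 := 536870912) (P3 := 201326592) (W3 := 134217728)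
    rfl rfl rfl k0_A05pm_203_s1

theorem s_A05pm_203_s1 {κ x : ℝ} (hκ : κ * h0 = ken x) (hx : ((201326592 : ℕ) : ℝ) / S ≤ x)
    (hx' : x ≤ (((201326592 : ℕ) : ℝ) + (134217728 : ℕ)) / S) :
    AltA (VF κ) PP tKF tL pcF [⟨3, 0, 0, 1449551462⟩] 2 0 3 0 5 (sgb true) (sgb false) x :=
  strip_altA (m := 1449551462) true rfl hκ covF02 covF50 hx hx' c_A05pm_203_s1 cutA_nil (noExt_A)

noncomputable def cut_A05pm_213_s1 : Cut := Cut.of [[⟨4, 0, 0, 1449551462⟩]]

noncomputable def f_A05pm_213_s1 : ℕ → ℕ → ℕ → ℕ → Bool := onCell 0 536870912 536870912 536870912 201326592 134217728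
    (rowFK 0 true true false .pnn 2 1 3 (qsf 0 536870912 536870912 536870912 3) ndF0q2 ndF5q1 pcF3 cut_A05pm_213_s1 Ext.none)

def k0_A05pm_213_s1 : ∃ t, chk3 f_A05pm_213_s1 t 1 1 1 = true :=
  ⟨(l 6), by decide +kernel⟩

theorem c_A05pm_213_s1 : CertF 0 536870912 536870912 536870912 201326592 134217728 true true false .pnn 2 1 3
    ndF0q2 ndF5q1 pcF3 cut_A05pm_213_s1 Ext.none :=
  certFK0 (fam := true) (s1 := true) (s2 := false) (a := 2) (b := 1) (c := 3) (cn := .pnn) (n1 := ndF0q2) (n2 := ndF5q1) (pc := pcF3) (cut := cut_A05pm_213_s1) (xt := Ext.none) (P1 := 0) (W1 := 536870912) (P2 := 536870912) (W2 := 536870912) (P3 := 201326592) (W3 := 134217728)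
    rfl rfl rfl k0_A05pm_213_s1

theorem s_A05pm_213_s1 {κ x : ℝ} (hκ : κ * h0 = ken x) (hx : ((201326592 : ℕ) : ℝ) / S ≤ x)
    (hx' : x ≤ (((201326592 : ℕ) : ℝ) + (134217728 : ℕ)) / S) :
    AltA (VF κ) PP tKF tL pcF [⟨3, 0, 0, 1449551462⟩] 2 1 3 0 5 (sgb true) (sgb false) x :=
  strip_altA (m := 1449551462) true rfl hκ covF02 covF51 hx hx' c_A05pm_213_s1 cutA_nil (noExt_A)

noncomputable def cut_A05mm_001_s1 : Cut := Cut.of [[⟨4, 0, 0, 1449551462⟩]]

noncomputable def f_A05mm_001_s1 : ℕ → ℕ → ℕ → ℕ → Bool := onCell 0 536870912 0 536870912 201326592 134217728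
    (rowFK 0 true false false .up 0 0 1 (qsf 0 536870912 0 536870912 1) ndF0q0 ndF5q0 pcF1 cut_A05mm_001_s1 Ext.none)

def k0_A05mm_001_s1 : ∃ t, chk3 f_A05mm_001_s1 t 1 1 1 = true :=
  ⟨(l 4), by decide +kernel⟩

theorem c_A05mm_001_s1 : CertF 0 536870912 0 536870912 201326592 134217728 true false false .up 0 0 1
    ndF0q0 ndF5q0 pcF1 cut_A05mm_001_s1 Ext.none :=
  certFK0 (fam := true) (s1 := false) (s2 := false) (a := 0) (b := 0) (c := 1) (cn := .up) (n1 := ndF0q0) (n2 := ndF5q0) (pc := pcF1) (cut := cut_A05mm_001_s1) (xt := Ext.none) (P1 := 0) (W1 := 536870912) (P2 := 0) (W2 := 536870912) (P3 := 201326592) (W3 := 134217728)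
    rfl rfl rfl k0_A05mm_001_s1

theorem s_A05mm_001_s1 {κ x : ℝ} (hκ : κ * h0 = ken x) (hx : ((201326592 : ℕ) : ℝ) / S ≤ x)
    (hx' : x ≤ (((201326592 : ℕ) : ℝ) + (134217728 : ℕ)) / S) :
    AltA (VF κ) PP tKF tL pcF [⟨3, 0, 0, 1449551462⟩] 0 0 1 0 5 (sgb false) (sgb false) x :=
  strip_altA (m := 1449551462) true rfl hκ covF00 covF50 hx hx' c_A05mm_001_s1 cutA_nil (noExt_A)

noncomputable def cut_A05mm_011_s1 : Cut := Cut.of [[⟨4, 0, 0, 1449551462⟩]]

noncomputable def f_A05mm_011_s1 : ℕ → ℕ → ℕ → ℕ → Bool := onCell 0 536870912 536870912 536870912 201326592 134217728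
    (rowFK 0 true false false .pnn 0 1 1 (qsf 0 536870912 536870912 536870912 1) ndF0q0 ndF5q1 pcF1 cut_A05mm_011_s1 Ext.none)

def k0_A05mm_011_s1 : ∃ t, chk3 f_A05mm_011_s1 t 1 1 1 = true :=
  ⟨(l 4), by decide +kernel⟩

theorem c_A05mm_011_s1 : CertF 0 536870912 536870912 536870912 201326592 134217728 true false false .pnn 0 1 1
    ndF0q0 ndF5q1 pcF1 cut_A05mm_011_s1 Ext.none :=
  certFK0 (fam := true) (s1 := false) (s2 := false) (a := 0) (b := 1) (c := 1) (cn := .pnn) (n1 := ndF0q0) (n2 := ndF5q1) (pc := pcF1) (cut := cut_A05mm_011_s1) (xt := Ext.none) (P1 := 0) (W1 := 536870912) (P2 := 536870912) (W2 := 536870912) (P3 := 201326592) (W3 := 134217728)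
    rfl rfl rfl k0_A05mm_011_s1

theorem s_A05mm_011_s1 {κ x : ℝ} (hκ : κ * h0 = ken x) (hx : ((201326592 : ℕ) : ℝ) / S ≤ x)
    (hx' : x ≤ (((201326592 : ℕ) : ℝ) + (134217728 : ℕ)) / S) :
    AltA (VF κ) PP tKF tL pcF [⟨3, 0, 0, 1449551462⟩] 0 1 1 0 5 (sgb false) (sgb false) x :=
  strip_altA (m := 1449551462) true rfl hκ covF00 covF51 hx hx' c_A05mm_011_s1 cutA_nil (noExt_A)

noncomputable def cut_A05mm_012_s1 : Cut := Cut.of [[⟨4, 0, 0, 1449551462⟩]]

noncomputable def f_A05mm_012_s1 : ℕ → ℕ → ℕ → ℕ → Bool := onCell 0 536870912 536870912 536870912 201326592 134217728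
    (rowFK 0 true false false .pnp 0 1 2 (qsf 0 536870912 536870912 536870912 2) ndF0q0 ndF5q1 pcF2 cut_A05mm_012_s1 Ext.none)

def k0_A05mm_012_s1 : ∃ t, chk3 f_A05mm_012_s1 t 1 1 1 = true :=
  ⟨(l 4), by decide +kernel⟩

theorem c_A05mm_012_s1 : CertF 0 536870912 536870912 536870912 201326592 134217728 true false false .pnp 0 1 2
    ndF0q0 ndF5q1 pcF2 cut_A05mm_012_s1 Ext.none :=
  certFK0 (fam := true) (s1 := false) (s2 := false) (a := 0) (b := 1) (c := 2) (cn := .pnp) (n1 := ndF0q0) (n2 := ndF5q1) (pc := pcF2) (cut := cut_A05mm_012_s1) (xt := Ext.none) (P1 := 0) (W1 := 536870912) (P2 := 536870912) (W2 := 536870912) (P3 := 201326592) (W3 := 134217728)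
    rfl rfl rfl k0_A05mm_012_s1

theorem s_A05mm_012_s1 {κ x : ℝ} (hκ : κ * h0 = ken x) (hx : ((201326592 : ℕ) : ℝ) / S ≤ x)
    (hx' : x ≤ (((201326592 : ℕ) : ℝ) + (134217728 : ℕ)) / S) :
    AltA (VF κ) PP tKF tL pcF [⟨3, 0, 0, 1449551462⟩] 0 1 2 0 5 (sgb false) (sgb false) x :=
  strip_altA (m := 1449551462) true rfl hκ covF00 covF51 hx hx' c_A05mm_012_s1 cutA_nil (noExt_A)

noncomputable def cut_A05mm_022_s1 : Cut := Cut.of [[⟨4, 0, 0, 1449551462⟩]]

noncomputable def f_A05mm_022_s1 : ℕ → ℕ → ℕ → ℕ → Bool := onCell 0 536870912 1073741824 536870912 201326592 134217728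
    (rowFK 0 true false false .pp 0 2 2 (qsf 0 536870912 1073741824 536870912 2) ndF0q0 ndF5q2 pcF2 cut_A05mm_022_s1 Ext.none)

def k0_A05mm_022_s1 : ∃ t, chk3 f_A05mm_022_s1 t 1 1 1 = true :=
  ⟨(l 4), by decide +kernel⟩

theorem c_A05mm_022_s1 : CertF 0 536870912 1073741824 536870912 201326592 134217728 true false false .pp 0 2 2
    ndF0q0 ndF5q2 pcF2 cut_A05mm_022_s1 Ext.none :=
  certFK0 (fam := true) (s1 := false) (s2 := false) (a := 0) (b := 2) (c := 2) (cn := .pp) (n1 := ndF0q0) (n2 := ndF5q2) (pc := pcF2) (cut := cut_A05mm_022_s1) (xt := Ext.none) (P1 := 0) (W1 := 536870912) (P2 := 1073741824) (W2 := 536870912) (P3 := 201326592) (W3 := 134217728)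
    rfl rfl rfl k0_A05mm_022_s1

theorem s_A05mm_022_s1 {κ x : ℝ} (hκ : κ * h0 = ken x) (hx : ((201326592 : ℕ) : ℝ) / S ≤ x)
    (hx' : x ≤ (((201326592 : ℕ) : ℝ) + (134217728 : ℕ)) / S) :
    AltA (VF κ) PP tKF tL pcF [⟨3, 0, 0, 1449551462⟩] 0 2 2 0 5 (sgb false) (sgb false) x :=
  strip_altA (m := 1449551462) true rfl hκ covF00 covF52 hx hx' c_A05mm_022_s1 cutA_nil (noExt_A)

noncomputable def cut_A05mm_023_s1 : Cut := Cut.of [[⟨4, 0, 0, 1449551462⟩]]

noncomputable def f_A05mm_023_s1 : ℕ → ℕ → ℕ → ℕ → Bool := onCell 0 536870912 1073741824 536870912 201326592 134217728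
    (rowFK 0 true false false .up 0 2 3 (qsf 0 536870912 1073741824 536870912 3) ndF0q0 ndF5q2 pcF3 cut_A05mm_023_s1 Ext.none)

def k0_A05mm_023_s1 : ∃ t, chk3 f_A05mm_023_s1 t 1 1 1 = true :=
  ⟨(l 4), by decide +kernel⟩

theorem c_A05mm_023_s1 : CertF 0 536870912 1073741824 536870912 201326592 134217728 true false false .up 0 2 3
    ndF0q0 ndF5q2 pcF3 cut_A05mm_023_s1 Ext.none :=
  certFK0 (fam := true) (s1 := false) (s2 := false) (a := 0) (b := 2) (c := 3) (cn := .up) (n1 := ndF0q0) (n2 := ndF5q2) (pc := pcF3) (cut := cut_A05mm_023_s1) (xt := Ext.none) (P1 := 0) (W1 := 536870912) (P2 := 1073741824) (W2 := 536870912) (P3 := 201326592) (W3 := 134217728)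
    rfl rfl rfl k0_A05mm_023_s1

theorem s_A05mm_023_s1 {κ x : ℝ} (hκ : κ * h0 = ken x) (hx : ((201326592 : ℕ) : ℝ) / S ≤ x)
    (hx' : x ≤ (((201326592 : ℕ) : ℝ) + (134217728 : ℕ)) / S) :
    AltA (VF κ) PP tKF tL pcF [⟨3, 0, 0, 1449551462⟩] 0 2 3 0 5 (sgb false) (sgb false) x :=
  strip_altA (m := 1449551462) true rfl hκ covF00 covF52 hx hx' c_A05mm_023_s1 cutA_nil (noExt_A)

noncomputable def cut_A05mm_033_s1 : Cut := Cut.of [[⟨4, 0, 0, 1449551462⟩]]

noncomputable def f_A05mm_033_s1 : ℕ → ℕ → ℕ → ℕ → Bool := onCell 0 536870912 0 1230186008 201326592 134217728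
    (rowFK 0 true false false .pnn 0 3 3 (qsf 0 536870912 0 1230186008 3) ndF0q0 ndF5q3 pcF3 cut_A05mm_033_s1 Ext.none)

def k0_A05mm_033_s1 : ∃ t, chk3 f_A05mm_033_s1 t 1 1 1 = true :=
  ⟨(l 4), by decide +kernel⟩

theorem c_A05mm_033_s1 : CertF 0 536870912 0 1230186008 201326592 134217728 true false false .pnn 0 3 3
    ndF0q0 ndF5q3 pcF3 cut_A05mm_033_s1 Ext.none :=
  certFK0 (fam := true) (s1 := false) (s2 := false) (a := 0) (b := 3) (c := 3) (cn := .pnn) (n1 := ndF0q0) (n2 := ndF5q3) (pc := pcF3) (cut := cut_A05mm_033_s1) (xt := Ext.none) (P1 := 0) (W1 := 536870912) (P2 := 0) (W2 := 1230186008) (P3 := 201326592) (W3 := 134217728)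
    rfl rfl rfl k0_A05mm_033_s1

theorem s_A05mm_033_s1 {κ x : ℝ} (hκ : κ * h0 = ken x) (hx : ((201326592 : ℕ) : ℝ) / S ≤ x)
    (hx' : x ≤ (((201326592 : ℕ) : ℝ) + (134217728 : ℕ)) / S) :
    AltA (VF κ) PP tKF tL pcF [⟨3, 0, 0, 1449551462⟩] 0 3 3 0 5 (sgb false) (sgb false) x :=
  strip_altA (m := 1449551462) true rfl hκ covF00 covF53 hx hx' c_A05mm_033_s1 cutA_nil (noExt_A)

noncomputable def cut_A05mm_101_s1 : Cut := Cut.of [[⟨4, 0, 0, 1449551462⟩]]

noncomputable def f_A05mm_101_s1 : ℕ → ℕ → ℕ → ℕ → Bool := onCell 536870912 536870912 0 536870912 201326592 134217728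
    (rowFK 0 true false false .npn 1 0 1 (qsf 536870912 536870912 0 536870912 1) ndF0q1 ndF5q0 pcF1 cut_A05mm_101_s1 Ext.none)

def k0_A05mm_101_s1 : ∃ t, chk3 f_A05mm_101_s1 t 1 1 1 = true :=
  ⟨(l 4), by decide +kernel⟩

theorem c_A05mm_101_s1 : CertF 536870912 536870912 0 536870912 201326592 134217728 true false false .npn 1 0 1
    ndF0q1 ndF5q0 pcF1 cut_A05mm_101_s1 Ext.none :=
  certFK0 (fam := true) (s1 := false) (s2 := false) (a := 1) (b := 0) (c := 1) (cn := .npn) (n1 := ndF0q1) (n2 := ndF5q0) (pc := pcF1) (cut := cut_A05mm_101_s1) (xt := Ext.none) (P1 := 536870912) (W1 := 536870912) (P2 := 0) (W2 := 536870912) (P3 := 201326592) (W3 := 134217728)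
    rfl rfl rfl k0_A05mm_101_s1

theorem s_A05mm_101_s1 {κ x : ℝ} (hκ : κ * h0 = ken x) (hx : ((201326592 : ℕ) : ℝ) / S ≤ x)
    (hx' : x ≤ (((201326592 : ℕ) : ℝ) + (134217728 : ℕ)) / S) :
    AltA (VF κ) PP tKF tL pcF [⟨3, 0, 0, 1449551462⟩] 1 0 1 0 5 (sgb false) (sgb false) x :=
  strip_altA (m := 1449551462) true rfl hκ covF01 covF50 hx hx' c_A05mm_101_s1 cutA_nil (noExt_A)

noncomputable def cut_A05mm_102_s1 : Cut := Cut.of [[⟨4, 0, 0, 1449551462⟩]]

noncomputable def f_A05mm_102_s1 : ℕ → ℕ → ℕ → ℕ → Bool := onCell 536870912 536870912 0 536870912 201326592 134217728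
    (rowFK 0 true false false .npp 1 0 2 (qsf 536870912 536870912 0 536870912 2) ndF0q1 ndF5q0 pcF2 cut_A05mm_102_s1 Ext.none)

def k0_A05mm_102_s1 : ∃ t, chk3 f_A05mm_102_s1 t 1 1 1 = true :=
  ⟨(l 4), by decide +kernel⟩

theorem c_A05mm_102_s1 : CertF 536870912 536870912 0 536870912 201326592 134217728 true false false .npp 1 0 2
    ndF0q1 ndF5q0 pcF2 cut_A05mm_102_s1 Ext.none :=
  certFK0 (fam := true) (s1 := false) (s2 := false) (a := 1) (b := 0) (c := 2) (cn := .npp) (n1 := ndF0q1) (n2 := ndF5q0) (pc := pcF2) (cut := cut_A05mm_102_s1) (xt := Ext.none) (P1 := 536870912) (W1 := 536870912) (P2 := 0) (W2 := 536870912) (P3 := 201326592) (W3 := 134217728)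
    rfl rfl rfl k0_A05mm_102_s1

theorem s_A05mm_102_s1 {κ x : ℝ} (hκ : κ * h0 = ken x) (hx : ((201326592 : ℕ) : ℝ) / S ≤ x)
    (hx' : x ≤ (((201326592 : ℕ) : ℝ) + (134217728 : ℕ)) / S) :
    AltA (VF κ) PP tKF tL pcF [⟨3, 0, 0, 1449551462⟩] 1 0 2 0 5 (sgb false) (sgb false) x :=
  strip_altA (m := 1449551462) true rfl hκ covF01 covF50 hx hx' c_A05mm_102_s1 cutA_nil (noExt_A)

noncomputable def cut_A05mm_112_s1 : Cut := Cut.of [[⟨4, 0, 0, 1449551462⟩]]

noncomputable def f_A05mm_112_s1 : ℕ → ℕ → ℕ → ℕ → Bool := onCell 536870912 536870912 536870912 536870912 201326592 134217728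
    (rowFK 0 true false false .dn 1 1 2 (qsf 536870912 536870912 536870912 536870912 2) ndF0q1 ndF5q1 pcF2 cut_A05mm_112_s1 Ext.none)

def k0_A05mm_112_s1 : ∃ t, chk3 f_A05mm_112_s1 t 1 1 1 = true :=
  ⟨(l 4), by decide +kernel⟩

theorem c_A05mm_112_s1 : CertF 536870912 536870912 536870912 536870912 201326592 134217728 true false false .dn 1 1 2
    ndF0q1 ndF5q1 pcF2 cut_A05mm_112_s1 Ext.none :=
  certFK0 (fam := true) (s1 := false) (s2 := false) (a := 1) (b := 1) (c := 2) (cn := .dn) (n1 := ndF0q1) (n2 := ndF5q1) (pc := pcF2) (cut := cut_A05mm_112_s1) (xt := Ext.none) (P1 := 536870912) (W1 := 536870912) (P2 := 536870912) (W2 := 536870912) (P3 := 201326592) (W3 := 134217728)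
    rfl rfl rfl k0_A05mm_112_s1

theorem s_A05mm_112_s1 {κ x : ℝ} (hκ : κ * h0 = ken x) (hx : ((201326592 : ℕ) : ℝ) / S ≤ x)
    (hx' : x ≤ (((201326592 : ℕ) : ℝ) + (134217728 : ℕ)) / S) :
    AltA (VF κ) PP tKF tL pcF [⟨3, 0, 0, 1449551462⟩] 1 1 2 0 5 (sgb false) (sgb false) x :=
  strip_altA (m := 1449551462) true rfl hκ covF01 covF51 hx hx' c_A05mm_112_s1 cutA_nil (noExt_A)

noncomputable def cut_A05mm_113_s1 : Cut := Cut.of [[⟨4, 0, 0, 1449551462⟩]]

noncomputable def f_A05mm_113_s1 : ℕ → ℕ → ℕ → ℕ → Bool := onCell 536870912 536870912 536870912 536870912 201326592 134217728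
    (rowFK 0 true false false .nn 1 1 3 (qsf 536870912 536870912 536870912 536870912 3) ndF0q1 ndF5q1 pcF3 cut_A05mm_113_s1 Ext.none)

def k0_A05mm_113_s1 : ∃ t, chk3 f_A05mm_113_s1 t 1 1 1 = true :=
  ⟨(l 4), by decide +kernel⟩

theorem c_A05mm_113_s1 : CertF 536870912 536870912 536870912 536870912 201326592 134217728 true false false .nn 1 1 3
    ndF0q1 ndF5q1 pcF3 cut_A05mm_113_s1 Ext.none :=
  certFK0 (fam := true) (s1 := false) (s2 := false) (a := 1) (b := 1) (c := 3) (cn := .nn) (n1 := ndF0q1) (n2 := ndF5q1) (pc := pcF3) (cut := cut_A05mm_113_s1) (xt := Ext.none) (P1 := 536870912) (W1 := 536870912) (P2 := 536870912) (W2 := 536870912) (P3 := 201326592) (W3 := 134217728)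
    rfl rfl rfl k0_A05mm_113_s1

theorem s_A05mm_113_s1 {κ x : ℝ} (hκ : κ * h0 = ken x) (hx : ((201326592 : ℕ) : ℝ) / S ≤ x)
    (hx' : x ≤ (((201326592 : ℕ) : ℝ) + (134217728 : ℕ)) / S) :
    AltA (VF κ) PP tKF tL pcF [⟨3, 0, 0, 1449551462⟩] 1 1 3 0 5 (sgb false) (sgb false) x :=
  strip_altA (m := 1449551462) true rfl hκ covF01 covF51 hx hx' c_A05mm_113_s1 cutA_nil (noExt_A)

noncomputable def cut_A05mm_123_s1 : Cut := Cut.of [[⟨4, 0, 0, 1449551462⟩]]

noncomputable def f_A05mm_123_s1 : ℕ → ℕ → ℕ → ℕ → Bool := onCell 536870912 536870912 1073741824 536870912 201326592 134217728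
    (rowFK 0 true false false .npn 1 2 3 (qsf 536870912 536870912 1073741824 536870912 3) ndF0q1 ndF5q2 pcF3 cut_A05mm_123_s1 Ext.none)

def k0_A05mm_123_s1 : ∃ t, chk3 f_A05mm_123_s1 t 1 1 1 = true :=
  ⟨(l 4), by decide +kernel⟩

theorem c_A05mm_123_s1 : CertF 536870912 536870912 1073741824 536870912 201326592 134217728 true false false .npn 1 2 3
    ndF0q1 ndF5q2 pcF3 cut_A05mm_123_s1 Ext.none :=
  certFK0 (fam := true) (s1 := false) (s2 := false) (a := 1) (b := 2) (c := 3) (cn := .npn) (n1 := ndF0q1) (n2 := ndF5q2) (pc := pcF3) (cut := cut_A05mm_123_s1) (xt := Ext.none) (P1 := 536870912) (W1 := 536870912) (P2 := 1073741824) (W2 := 536870912) (P3 := 201326592) (W3 := 134217728)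
    rfl rfl rfl k0_A05mm_123_s1

theorem s_A05mm_123_s1 {κ x : ℝ} (hκ : κ * h0 = ken x) (hx : ((201326592 : ℕ) : ℝ) / S ≤ x)
    (hx' : x ≤ (((201326592 : ℕ) : ℝ) + (134217728 : ℕ)) / S) :
    AltA (VF κ) PP tKF tL pcF [⟨3, 0, 0, 1449551462⟩] 1 2 3 0 5 (sgb false) (sgb false) x :=
  strip_altA (m := 1449551462) true rfl hκ covF01 covF52 hx hx' c_A05mm_123_s1 cutA_nil (noExt_A)

noncomputable def cut_A05mm_133_s1 : Cut := Cut.of [[⟨4, 0, 0, 1449551462⟩]]

noncomputable def f_A05mm_133_s1 : ℕ → ℕ → ℕ → ℕ → Bool := onCell 536870912 536870912 0 1230186008 201326592 134217728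
    (rowFK 0 true false false .dn 1 3 3 (qsf 536870912 536870912 0 1230186008 3) ndF0q1 ndF5q3 pcF3 cut_A05mm_133_s1 Ext.none)

def k0_A05mm_133_s1 : ∃ t, chk3 f_A05mm_133_s1 t 1 1 1 = true :=
  ⟨(l 4), by decide +kernel⟩

theorem c_A05mm_133_s1 : CertF 536870912 536870912 0 1230186008 201326592 134217728 true false false .dn 1 3 3
    ndF0q1 ndF5q3 pcF3 cut_A05mm_133_s1 Ext.none :=
  certFK0 (fam := true) (s1 := false) (s2 := false) (a := 1) (b := 3) (c := 3) (cn := .dn) (n1 := ndF0q1) (n2 := ndF5q3) (pc := pcF3) (cut := cut_A05mm_133_s1) (xt := Ext.none) (P1 := 536870912) (W1 := 536870912) (P2 := 0) (W2 := 1230186008) (P3 := 201326592) (W3 := 134217728)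
    rfl rfl rfl k0_A05mm_133_s1

theorem s_A05mm_133_s1 {κ x : ℝ} (hκ : κ * h0 = ken x) (hx : ((201326592 : ℕ) : ℝ) / S ≤ x)
    (hx' : x ≤ (((201326592 : ℕ) : ℝ) + (134217728 : ℕ)) / S) :
    AltA (VF κ) PP tKF tL pcF [⟨3, 0, 0, 1449551462⟩] 1 3 3 0 5 (sgb false) (sgb false) x :=
  strip_altA (m := 1449551462) true rfl hκ covF01 covF53 hx hx' c_A05mm_133_s1 cutA_nil (noExt_A)

noncomputable def cut_A05mm_202_s1 : Cut := Cut.of [[⟨4, 0, 0, 1449551462⟩]]

noncomputable def f_A05mm_202_s1 : ℕ → ℕ → ℕ → ℕ → Bool := onCell 0 536870912 0 536870912 201326592 134217728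
    (rowFK 0 true false false .pp 2 0 2 (qsf 0 536870912 0 536870912 2) ndF0q2 ndF5q0 pcF2 cut_A05mm_202_s1 Ext.none)

def k0_A05mm_202_s1 : ∃ t, chk3 f_A05mm_202_s1 t 1 1 1 = true :=
  ⟨(l 4), by decide +kernel⟩

theorem c_A05mm_202_s1 : CertF 0 536870912 0 536870912 201326592 134217728 true false false .pp 2 0 2
    ndF0q2 ndF5q0 pcF2 cut_A05mm_202_s1 Ext.none :=
  certFK0 (fam := true) (s1 := false) (s2 := false) (a := 2) (b := 0) (c := 2) (cn := .pp) (n1 := ndF0q2) (n2 := ndF5q0) (pc := pcF2) (cut := cut_A05mm_202_s1) (xt := Ext.none) (P1 := 0) (W1 := 536870912) (P2 := 0) (W2 := 536870912) (P3 := 201326592) (W3 := 134217728)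
    rfl rfl rfl k0_A05mm_202_s1

theorem s_A05mm_202_s1 {κ x : ℝ} (hκ : κ * h0 = ken x) (hx : ((201326592 : ℕ) : ℝ) / S ≤ x)
    (hx' : x ≤ (((201326592 : ℕ) : ℝ) + (134217728 : ℕ)) / S) :
    AltA (VF κ) PP tKF tL pcF [⟨3, 0, 0, 1449551462⟩] 2 0 2 0 5 (sgb false) (sgb false) x :=
  strip_altA (m := 1449551462) true rfl hκ covF02 covF50 hx hx' c_A05mm_202_s1 cutA_nil (noExt_A)

noncomputable def cut_A05mm_203_s1 : Cut := Cut.of [[⟨4, 0, 0, 1449551462⟩]]

noncomputable def f_A05mm_203_s1 : ℕ → ℕ → ℕ → ℕ → Bool := onCell 0 536870912 0 536870912 201326592 134217728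
    (rowFK 0 true false false .up 2 0 3 (qsf 0 536870912 0 536870912 3) ndF0q2 ndF5q0 pcF3 cut_A05mm_203_s1 Ext.none)

def k0_A05mm_203_s1 : ∃ t, chk3 f_A05mm_203_s1 t 1 1 1 = true :=
  ⟨(l 4), by decide +kernel⟩

theorem c_A05mm_203_s1 : CertF 0 536870912 0 536870912 201326592 134217728 true false false .up 2 0 3
    ndF0q2 ndF5q0 pcF3 cut_A05mm_203_s1 Ext.none :=
  certFK0 (fam := true) (s1 := false) (s2 := false) (a := 2) (b := 0) (c := 3) (cn := .up) (n1 := ndF0q2) (n2 := ndF5q0) (pc := pcF3) (cut := cut_A05mm_203_s1) (xt := Ext.none) (P1 := 0) (W1 := 536870912) (P2 := 0) (W2 := 536870912) (P3 := 201326592) (W3 := 134217728)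
    rfl rfl rfl k0_A05mm_203_s1

theorem s_A05mm_203_s1 {κ x : ℝ} (hκ : κ * h0 = ken x) (hx : ((201326592 : ℕ) : ℝ) / S ≤ x)
    (hx' : x ≤ (((201326592 : ℕ) : ℝ) + (134217728 : ℕ)) / S) :
    AltA (VF κ) PP tKF tL pcF [⟨3, 0, 0, 1449551462⟩] 2 0 3 0 5 (sgb false) (sgb false) x :=
  strip_altA (m := 1449551462) true rfl hκ covF02 covF50 hx hx' c_A05mm_203_s1 cutA_nil (noExt_A)

noncomputable def cut_A05mm_213_s1 : Cut := Cut.of [[⟨4, 0, 0, 1449551462⟩]]

noncomputable def f_A05mm_213_s1 : ℕ → ℕ → ℕ → ℕ → Bool := onCell 0 536870912 536870912 536870912 201326592 134217728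
    (rowFK 0 true false false .pnn 2 1 3 (qsf 0 536870912 536870912 536870912 3) ndF0q2 ndF5q1 pcF3 cut_A05mm_213_s1 Ext.none)

def k0_A05mm_213_s1 : ∃ t, chk3 f_A05mm_213_s1 t 1 1 1 = true :=
  ⟨(l 4), by decide +kernel⟩

theorem c_A05mm_213_s1 : CertF 0 536870912 536870912 536870912 201326592 134217728 true false false .pnn 2 1 3
    ndF0q2 ndF5q1 pcF3 cut_A05mm_213_s1 Ext.none :=
  certFK0 (fam := true) (s1 := false) (s2 := false) (a := 2) (b := 1) (c := 3) (cn := .pnn) (n1 := ndF0q2) (n2 := ndF5q1) (pc := pcF3) (cut := cut_A05mm_213_s1) (xt := Ext.none) (P1 := 0) (W1 := 536870912) (P2 := 536870912) (W2 := 536870912) (P3 := 201326592) (W3 := 134217728)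
    rfl rfl rfl k0_A05mm_213_s1

theorem s_A05mm_213_s1 {κ x : ℝ} (hκ : κ * h0 = ken x) (hx : ((201326592 : ℕ) : ℝ) / S ≤ x)
    (hx' : x ≤ (((201326592 : ℕ) : ℝ) + (134217728 : ℕ)) / S) :
    AltA (VF κ) PP tKF tL pcF [⟨3, 0, 0, 1449551462⟩] 2 1 3 0 5 (sgb false) (sgb false) x :=
  strip_altA (m := 1449551462) true rfl hκ covF02 covF51 hx hx' c_A05mm_213_s1 cutA_nil (noExt_A)

noncomputable def cut_B00pp_001_s1 : Cut := Cut.of [[⟨4, 0, 0, 1449551462⟩]]

noncomputable def f_B00pp_001_s1 : ℕ → ℕ → ℕ → ℕ → Bool := onCell 0 536870912 0 536870912 201326592 134217728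
    (rowFK 1 false true true .up 0 0 1 (qsf 0 536870912 536870912 536870912 0) ndF0q0 ndF0q1 pcF0 cut_B00pp_001_s1 Ext.none)

def k0_B00pp_001_s1 : ∃ t, chk3 f_B00pp_001_s1 t 1 1 1 = true :=
  ⟨(l 3), by decide +kernel⟩

theorem c_B00pp_001_s1 : CertF 0 536870912 536870912 536870912 201326592 134217728 false true true .up 0 0 1
    ndF0q0 ndF0q1 pcF0 cut_B00pp_001_s1 Ext.none :=
  certFK1 (fam := false) (s1 := true) (s2 := true) (a := 0) (b := 0) (c := 1) (cn := .up) (n1 := ndF0q0) (n2 := ndF0q1) (pc := pcF0) (cut := cut_B00pp_001_s1) (xt := Ext.none) (P1 := 0) (W1 := 536870912) (P2 := 536870912) (W2 := 536870912) (P3 := 201326592) (W3 := 134217728)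
    rfl rfl rfl (fun _ => rfl) k0_B00pp_001_s1

theorem s_B00pp_001_s1 {κ x : ℝ} (hκ : κ * h0 = ken x) (hx : ((201326592 : ℕ) : ℝ) / S ≤ x)
    (hx' : x ≤ (((201326592 : ℕ) : ℝ) + (134217728 : ℕ)) / S) :
    AltB (VF κ) PP tKF tL pcF [⟨3, 0, 0, 1449551462⟩] 0 0 1 0 0 (sgb true) (sgb true) x :=
  strip_altB (m := 1449551462) true rfl hκ covF00 covF01 hx hx' c_B00pp_001_s1 cutB_nil (noExt_B)

noncomputable def cut_B00pp_001_s3 : Cut := Cut.of [[⟨3, 0, 0, 2845415833⟩]]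

noncomputable def f_B00pp_001_s3 : ℕ → ℕ → ℕ → ℕ → Bool := onCell 0 536870912 536870912 536870912 201326592 134217728
    (rowFK 0 false true true .up 0 0 1 (qsf 0 536870912 536870912 536870912 0) ndF0q0 ndF0q1 pcF0 cut_B00pp_001_s3 Ext.none)

def k0_B00pp_001_s3 : ∃ t, chk3 f_B00pp_001_s3 t 1 1 1 = true :=
  ⟨(l 6), by decide +kernel⟩

theorem c_B00pp_001_s3 : CertF 0 536870912 536870912 536870912 201326592 134217728 false true true .up 0 0 1
    ndF0q0 ndF0q1 pcF0 cut_B00pp_001_s3 Ext.none :=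
  certFK0 (fam := false) (s1 := true) (s2 := true) (a := 0) (b := 0) (c := 1) (cn := .up) (n1 := ndF0q0) (n2 := ndF0q1) (pc := pcF0) (cut := cut_B00pp_001_s3) (xt := Ext.none) (P1 := 0) (W1 := 536870912) (P2 := 536870912) (W2 := 536870912) (P3 := 201326592) (W3 := 134217728)
    rfl rfl rfl k0_B00pp_001_s3

theorem s_B00pp_001_s3 {κ x : ℝ} (hκ : κ * h0 = ken x) (hx : ((201326592 : ℕ) : ℝ) / S ≤ x)
    (hx' : x ≤ (((201326592 : ℕ) : ℝ) + (134217728 : ℕ)) / S) :
    AltB (VF κ) PP tKF tL pcF [⟨4, 0, 0, 2845415833⟩] 0 0 1 0 0 (sgb true) (sgb true) x :=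
  strip_altB (m := 2845415833) false rfl hκ covF00 covF01 hx hx' c_B00pp_001_s3 cutB_nil (noExt_B)

noncomputable def cut_B00pp_011_s1 : Cut := Cut.of [[⟨4, 0, 0, 1449551462⟩], [⟨0, 0, 0, 67108864⟩, ⟨1, 1, 0, 67108864⟩, ⟨2, 1, 0, 67108864⟩]]

noncomputable def f_B00pp_011_s1 : ℕ → ℕ → ℕ → ℕ → Bool := onCell 536870912 536870912 536870912 536870912 201326592 134217728
    (rowFK 2 false true true .pnn 0 1 1 (qsf 0 536870912 536870912 536870912 1) ndF0q0 ndF0q1 pcF1 cut_B00pp_011_s1 Ext.none)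

def k0_B00pp_011_s1 : ∃ t, chk3 f_B00pp_011_s1 t 1 1 1 = true :=
  ⟨(a (l 3) (b (l 3) (a (l 3) (b (l 3) (b (l 3) (a (l 3) (b (l 3) (a (l 3) (l 14))))))))), by decide +kernel⟩

theorem c_B00pp_011_s1 : CertF 0 536870912 536870912 536870912 201326592 134217728 false true true .pnn 0 1 1
    ndF0q0 ndF0q1 pcF1 cut_B00pp_011_s1 Ext.none :=
  certFK2 (fam := false) (s1 := true) (s2 := true) (a := 0) (b := 1) (c := 1) (cn := .pnn) (n1 := ndF0q0) (n2 := ndF0q1) (pc := pcF1) (cut := cut_B00pp_011_s1) (xt := Ext.none) (P1 := 0) (W1 := 536870912) (P2 := 536870912) (W2 := 536870912) (P3 := 201326592) (W3 := 134217728)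
    rfl rfl rfl (fun _ => rfl) k0_B00pp_011_s1

theorem s_B00pp_011_s1 {κ x : ℝ} (hκ : κ * h0 = ken x) (hx : ((201326592 : ℕ) : ℝ) / S ≤ x)
    (hx' : x ≤ (((201326592 : ℕ) : ℝ) + (134217728 : ℕ)) / S)
    (H : CutB (VF κ) PP tKF tL pcF (Cut.of [[⟨0, 0, 0, 67108864⟩, ⟨1, 1, 0, 67108864⟩, ⟨2, 1, 0, 67108864⟩]]) 0 1 1 0 0 (sgb true) (sgb true) x) :
    AltB (VF κ) PP tKF tL pcF [⟨3, 0, 0, 1449551462⟩] 0 1 1 0 0 (sgb true) (sgb true) x :=
  strip_altB (m := 1449551462) true rfl hκ covF00 covF01 hx hx' c_B00pp_011_s1 H (noExt_B)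

noncomputable def cut_B00pp_011_s3 : Cut := Cut.of [[⟨3, 0, 0, 2845415833⟩], [⟨0, 0, 0, 67108864⟩, ⟨1, 1, 0, 67108864⟩, ⟨2, 1, 0, 67108864⟩]]

noncomputable def f_B00pp_011_s3 : ℕ → ℕ → ℕ → ℕ → Bool := onCell 0 536870912 536870912 536870912 201326592 134217728
    (rowFK 0 false true true .pnn 0 1 1 (qsf 0 536870912 536870912 536870912 1) ndF0q0 ndF0q1 pcF1 cut_B00pp_011_s3 Ext.none)

def k0_B00pp_011_s3 : ∃ t, chk3 f_B00pp_011_s3 t 1 1 1 = true :=
  ⟨(l 6), by decide +kernel⟩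

theorem c_B00pp_011_s3 : CertF 0 536870912 536870912 536870912 201326592 134217728 false true true .pnn 0 1 1
    ndF0q0 ndF0q1 pcF1 cut_B00pp_011_s3 Ext.none :=
  certFK0 (fam := false) (s1 := true) (s2 := true) (a := 0) (b := 1) (c := 1) (cn := .pnn) (n1 := ndF0q0) (n2 := ndF0q1) (pc := pcF1) (cut := cut_B00pp_011_s3) (xt := Ext.none) (P1 := 0) (W1 := 536870912) (P2 := 536870912) (W2 := 536870912) (P3 := 201326592) (W3 := 134217728)
    rfl rfl rfl k0_B00pp_011_s3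

theorem s_B00pp_011_s3 {κ x : ℝ} (hκ : κ * h0 = ken x) (hx : ((201326592 : ℕ) : ℝ) / S ≤ x)
    (hx' : x ≤ (((201326592 : ℕ) : ℝ) + (134217728 : ℕ)) / S)
    (H : CutB (VF κ) PP tKF tL pcF (Cut.of [[⟨0, 0, 0, 67108864⟩, ⟨1, 1, 0, 67108864⟩, ⟨2, 1, 0, 67108864⟩]]) 0 1 1 0 0 (sgb true) (sgb true) x) :
    AltB (VF κ) PP tKF tL pcF [⟨4, 0, 0, 2845415833⟩] 0 1 1 0 0 (sgb true) (sgb true) x :=
  strip_altB (m := 2845415833) false rfl hκ covF00 covF01 hx hx' c_B00pp_011_s3 H (noExt_B)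

end Pool.Agent.Strip051.G.I3_16_5_16.Tab.St.C
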