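import Pool.Agent.Strip051.G.I3_16_5_16.Tab

/-! # Certificates F0 (generated) -/

set_option linter.all false
set_option maxRecDepth 100000

namespace Pool.Agent.Strip051.G.I3_16_5_16.Tab.C.FA00

open Pool.Agent.Strip051.PB Pool.Agent.Strip051.PB.T
open Pool.Agent.Strip051.G.I3_16_5_16.Tab

noncomputable def cut_pp_001 : Cut := Cut.of [[⟨3, 0, 0, 1449551462⟩], [⟨4, 0, 0, 2845415833⟩]]

noncomputable def f_pp_001 : ℕ → ℕ → ℕ → ℕ → Bool := onCell 0 536870912 0 536870912 201326592 134217728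
    (rowF 0 true true true .up 0 0 1 (qsf 0 536870912 0 536870912 1) ndF0q0 ndF0q0 pcF1 cut_pp_001 Ext.none)

def k0_pp_001 : ∃ t, chk3 f_pp_001 t 1 1 1 = true :=
  ⟨(l 4), by decide +kernel⟩

theorem c_pp_001 : CertF 0 536870912 0 536870912 201326592 134217728 true true true .up 0 0 1
    ndF0q0 ndF0q0 pcF1 cut_pp_001 Ext.none :=
  certF0 (fam := true) (s1 := true) (s2 := true) (a := 0) (b := 0) (c := 1) (cn := .up) (n1 := ndF0q0) (n2 := ndF0q0) (pc := pcF1) (cut := cut_pp_001) (xt := Ext.none) (P1 := 0) (W1 := 536870912) (P2 := 0) (W2 := 536870912) (P3 := 201326592) (W3 := 134217728)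
    rfl k0_pp_001

noncomputable def cut_pp_011 : Cut := Cut.of [[⟨3, 0, 0, 1449551462⟩], [⟨4, 0, 0, 2845415833⟩], [⟨0, 0, 0, 67108864⟩, ⟨1, 1, 0, 67108864⟩, ⟨2, 1, 0, 67108864⟩]]

noncomputable def f_pp_011 : ℕ → ℕ → ℕ → ℕ → Bool := onCell 0 536870912 536870912 536870912 201326592 134217728
    (rowF 0 true true true .pnn 0 1 1 (qsf 0 536870912 536870912 536870912 1) ndF0q0 ndF0q1 pcF1 cut_pp_011 Ext.none)

def k0_pp_011 : ∃ t, chk3 f_pp_011 t 1 1 1 = true :=
  ⟨(l 14), by decide +kernel⟩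

theorem c_pp_011 : CertF 0 536870912 536870912 536870912 201326592 134217728 true true true .pnn 0 1 1
    ndF0q0 ndF0q1 pcF1 cut_pp_011 Ext.none :=
  certF0 (fam := true) (s1 := true) (s2 := true) (a := 0) (b := 1) (c := 1) (cn := .pnn) (n1 := ndF0q0) (n2 := ndF0q1) (pc := pcF1) (cut := cut_pp_011) (xt := Ext.none) (P1 := 0) (W1 := 536870912) (P2 := 536870912) (W2 := 536870912) (P3 := 201326592) (W3 := 134217728)
    rfl k0_pp_011

noncomputable def cut_pp_012 : Cut := Cut.of [[⟨3, 0, 0, 1449551462⟩], [⟨4, 0, 0, 2845415833⟩], [⟨0, 0, 0, 67108864⟩, ⟨1, 1, 0, 67108864⟩, ⟨2, 1, 0, 67108864⟩]]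

noncomputable def f_pp_012 : ℕ → ℕ → ℕ → ℕ → Bool := onCell 0 536870912 536870912 536870912 201326592 134217728
    (rowF 0 true true true .pnp 0 1 2 (qsf 0 536870912 536870912 536870912 2) ndF0q0 ndF0q1 pcF2 cut_pp_012 Ext.none)

def k0_pp_012 : ∃ t, chk3 f_pp_012 t 1 1 1 = true :=
  ⟨(l 14), by decide +kernel⟩

theorem c_pp_012 : CertF 0 536870912 536870912 536870912 201326592 134217728 true true true .pnp 0 1 2
    ndF0q0 ndF0q1 pcF2 cut_pp_012 Ext.none :=
  certF0 (fam := true) (s1 := true) (s2 := true) (a := 0) (b := 1) (c := 2) (cn := .pnp) (n1 := ndF0q0) (n2 := ndF0q1) (pc := pcF2) (cut := cut_pp_012) (xt := Ext.none) (P1 := 0) (W1 := 536870912) (P2 := 536870912) (W2 := 536870912) (P3 := 201326592) (W3 := 134217728)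
    rfl k0_pp_012

noncomputable def cut_pp_022 : Cut := Cut.of [[⟨3, 0, 0, 1449551462⟩], [⟨4, 0, 0, 2845415833⟩], [⟨0, 0, 0, 67108864⟩, ⟨1, 1, 0, 67108864⟩, ⟨2, 1, 0, 67108864⟩]]

noncomputable def f_pp_022 : ℕ → ℕ → ℕ → ℕ → Bool := onCell 0 536870912 0 536870912 201326592 134217728
    (rowF 0 true true true .pp 0 2 2 (qsf 0 536870912 0 536870912 2) ndF0q0 ndF0q2 pcF2 cut_pp_022 Ext.none)

def k0_pp_022 : ∃ t, chk3 f_pp_022 t 4 2 1 = true :=
  ⟨(b (a (b (a (c (b (a (l 16562784) (l 16549872)) (a (l 16636464) (l 16581688))) (b (a (l 16569816) (l 16560504)) (a (l 16581672) (l 16572112)))) (c (b (l 16599760) (l 16580376)) (b (l 16584960) (l 16554904)))) (a (a (c (b (l 16580032) (l 16590848)) (b (l 16586896) (l 16595112))) (c (b (l 16568440) (l 16581696)) (l 16583696))) (c (b (l 16592632) (l 16609696)) (b (l 16564912) (l 16578680))))) (a (b (c (b (l 16676640) (l 16629112)) (b (l 16561272) (l 16531368))) (c (b (l 16614872) (l 16592256)) (l 16619128))) (b (c (b (l 16863552)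 (l 16855288)) (l 16584448)) (c (b (l 16840856) (l 16820520)) (l 16603520))))) (a (b (a (c (a (b (l 16605960) (l 16622144)) (b (l 16599264) (l 16617792))) (a (b (l 16606440) (l 16618840)) (l 16651568))) (c (a (b (l 16592504) (l 16613416)) (l 16660584)) (b (l 16595504) (l 16613104)))) (a (c (a (b (l 16636640) (c (l 16650960) (l 16648928))) (b (l 16634432) (l 16649888))) (a (b (l 16630744) (l 16642776)) (b (l 16630392) (l 16644184)))) (c (b (a (l 16632200) (l 16630048)) (a (l 16649616) (l 16649400))) (a (b (l 16629984) (l 16645528)) (l 16680712))))) (b (a (c (b (l 16596680) (l 16623784)) (b (l 16586760) (l 16608736))) (c (b (l 16794800) (l 16763960)) (l 16655376))) (a (c (b (l 16648064) (l 16670336)) (b (l 16629296) (l 16649200))) (b (c (l 16728336) (l 16630144)) (c (l 16668256) (l 16653632))))))), by decide +kernel⟩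

def k1_pp_022 : ∃ t, chk3 f_pp_022 t 5 2 1 = true :=
  ⟨(b (a (c (b (a (l 16988768) (l 17058744)) (a (l 16848984) (l 17015904))) (b (a (l 16579600) (l 16736808)) (a (l 16596648) (l 16724864)))) (b (c (a (l 17090560) (l 17097424)) (a (l 16836704) (l 16897672))) (c (a (l 17039896) (l 17039776)) (a (l 16815640) (l 16867696))))) (a (b (a (c (b (l 16916776) (l 16886944)) (l 16651408)) (c (b (l 16974416) (l 16942672)) (l 16725744))) (b (a (c (l 16854560) (l 16633056)) (c (l 16909480) (l 16689328))) (a (c (l 16820592) (l 16681216)) (l 14)))) (b (b (a (c (l 16993352) (l 16795872)) (c (l 16988520) (l 16841920))) (a (c (l 16958800) (l 16781800)) (l 14))) (l 14)))), by decide +kernel⟩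

def k2_pp_022 : ∃ t, chk3 f_pp_022 t 2 3 1 = true :=
  ⟨(a (b (a (a (b (a (c (b (c (l 16664224) (l 16661688)) (a (c (l 16676416) (l 16673424)) (l 16676616))) (b (l 16655072) (a (l 16666384) (l 16668632)))) (c (b (l 16685608) (c (l 16679840) (l 16677576))) (b (l 16658080) (l 16692888)))) (b (b (a (c (a (l 16684408) (l 16686448)) (a (l 16675704) (l 16678424))) (l 14)) (l 14)) (l 14))) (b (c (a (b (l 16666128) (c (l 16682648) (l 16680920))) (b (l 16667672) (l 16706016))) (a (b (l 16661024) (l 16676288)) (b (l 16663992) (l 16680680)))) (l 14))) (b (a (b (c (a (l 16669384) (l 16671384)) (l 16710592)) (l 14)) (l 14)) (l 14))) (l 14)) (l 14)), by decide +kernel⟩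

def k3_pp_022 : ∃ t, chk3 f_pp_022 t 3 1 1 = true :=
  ⟨(b (b (a (a (b (c (a (l 17087664) (l 17066576)) (a (l 16931424) (l 16945760))) (a (c (l 17024200) (l 16893384)) (c (l 16998544) (b (l 16912680) (l 14))))) (b (a (c (l 17037696) (l 16945992)) (c (l 17003496) (l 16935864))) (l 14))) (l 2)) (l 14)) (l 14)), by decide +kernel⟩

theorem s4_pp_022 : ∃ t, chk3 f_pp_022 t 2 2 1 = true := ex3_a k0_pp_022 k1_pp_022

theorem s5_pp_022 : ∃ t, chk3 f_pp_022 t 2 1 1 = true := ex3_b s4_pp_022 k2_pp_022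

theorem s6_pp_022 : ∃ t, chk3 f_pp_022 t 1 1 1 = true := ex3_a s5_pp_022 k3_pp_022

theorem c_pp_022 : CertF 0 536870912 0 536870912 201326592 134217728 true true true .pp 0 2 2
    ndF0q0 ndF0q2 pcF2 cut_pp_022 Ext.none :=
  certF0 (fam := true) (s1 := true) (s2 := true) (a := 0) (b := 2) (c := 2) (cn := .pp) (n1 := ndF0q0) (n2 := ndF0q2) (pc := pcF2) (cut := cut_pp_022) (xt := Ext.none) (P1 := 0) (W1 := 536870912) (P2 := 0) (W2 := 536870912) (P3 := 201326592) (W3 := 134217728)
    rfl s6_pp_022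

noncomputable def cut_pp_023 : Cut := Cut.of [[⟨3, 0, 0, 1449551462⟩], [⟨4, 0, 0, 2845415833⟩]]

noncomputable def f_pp_023 : ℕ → ℕ → ℕ → ℕ → Bool := onCell 1610612736 536870912 0 536870912 201326592 134217728
    (rowF 2 true true true .up 0 2 3 (qsf 0 536870912 0 536870912 3) ndF0q0 ndF0q2 pcF3 cut_pp_023 Ext.none)

def k0_pp_023 : ∃ t, chk3 f_pp_023 t 1 1 1 = true :=
  ⟨(a (a (b (a (b (b (b (a (c (a (l 17098168) (l 17072576)) (a (l 16936536) (l 16928664))) (l 14)) (l 14)) (l 14)) (l 14)) (l 14)) (l 4)) (l 14)) (l 2)), by decide +kernel⟩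

theorem c_pp_023 : CertF 0 536870912 0 536870912 201326592 134217728 true true true .up 0 2 3
    ndF0q0 ndF0q2 pcF3 cut_pp_023 Ext.none :=
  certF2 (fam := true) (s1 := true) (s2 := true) (a := 0) (b := 2) (c := 3) (cn := .up) (n1 := ndF0q0) (n2 := ndF0q2) (pc := pcF3) (cut := cut_pp_023) (xt := Ext.none) (P1 := 0) (W1 := 536870912) (P2 := 0) (W2 := 536870912) (P3 := 201326592) (W3 := 134217728)
    rfl (fun _ => rfl) k0_pp_023

noncomputable def cut_pp_101 : Cut := Cut.of [[⟨3, 0, 0, 1449551462⟩], [⟨4, 0, 0, 2845415833⟩]]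

noncomputable def f_pp_101 : ℕ → ℕ → ℕ → ℕ → Bool := onCell 536870912 536870912 0 536870912 201326592 134217728
    (rowF 0 true true true .npn 1 0 1 (qsf 536870912 536870912 0 536870912 1) ndF0q1 ndF0q0 pcF1 cut_pp_101 Ext.none)

def k0_pp_101 : ∃ t, chk3 f_pp_101 t 1 1 1 = true :=
  ⟨(l 14), by decide +kernel⟩

theorem c_pp_101 : CertF 536870912 536870912 0 536870912 201326592 134217728 true true true .npn 1 0 1
    ndF0q1 ndF0q0 pcF1 cut_pp_101 Ext.none :=
  certF0 (fam := true) (s1 := true) (s2 := true) (a := 1) (b := 0) (c := 1) (cn := .npn) (n1 := ndF0q1) (n2 := ndF0q0) (pc := pcF1) (cut := cut_pp_101) (xt := Ext.none) (P1 := 536870912) (W1 := 536870912) (P2 := 0) (W2 := 536870912) (P3 := 201326592) (W3 := 134217728)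
    rfl k0_pp_101

noncomputable def cut_pp_102 : Cut := Cut.of [[⟨3, 0, 0, 1449551462⟩], [⟨4, 0, 0, 2845415833⟩]]

noncomputable def f_pp_102 : ℕ → ℕ → ℕ → ℕ → Bool := onCell 536870912 536870912 0 536870912 201326592 134217728
    (rowF 0 true true true .npp 1 0 2 (qsf 536870912 536870912 0 536870912 2) ndF0q1 ndF0q0 pcF2 cut_pp_102 Ext.none)

def k0_pp_102 : ∃ t, chk3 f_pp_102 t 1 1 1 = true :=
  ⟨(l 14), by decide +kernel⟩

theorem c_pp_102 : CertF 536870912 536870912 0 536870912 201326592 134217728 true true true .npp 1 0 2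
    ndF0q1 ndF0q0 pcF2 cut_pp_102 Ext.none :=
  certF0 (fam := true) (s1 := true) (s2 := true) (a := 1) (b := 0) (c := 2) (cn := .npp) (n1 := ndF0q1) (n2 := ndF0q0) (pc := pcF2) (cut := cut_pp_102) (xt := Ext.none) (P1 := 536870912) (W1 := 536870912) (P2 := 0) (W2 := 536870912) (P3 := 201326592) (W3 := 134217728)
    rfl k0_pp_102

noncomputable def cut_pp_112 : Cut := Cut.of [[⟨3, 0, 0, 1449551462⟩], [⟨4, 0, 0, 2845415833⟩]]

noncomputable def f_pp_112 : ℕ → ℕ → ℕ → ℕ → Bool := onCell 536870912 536870912 536870912 536870912 201326592 134217728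
    (rowF 0 true true true .dn 1 1 2 (qsf 536870912 536870912 536870912 536870912 2) ndF0q1 ndF0q1 pcF2 cut_pp_112 Ext.none)

def k0_pp_112 : ∃ t, chk3 f_pp_112 t 1 1 1 = true :=
  ⟨(l 4), by decide +kernel⟩

theorem c_pp_112 : CertF 536870912 536870912 536870912 536870912 201326592 134217728 true true true .dn 1 1 2
    ndF0q1 ndF0q1 pcF2 cut_pp_112 Ext.none :=
  certF0 (fam := true) (s1 := true) (s2 := true) (a := 1) (b := 1) (c := 2) (cn := .dn) (n1 := ndF0q1) (n2 := ndF0q1) (pc := pcF2) (cut := cut_pp_112) (xt := Ext.none) (P1 := 536870912) (W1 := 536870912) (P2 := 536870912) (W2 := 536870912) (P3 := 201326592) (W3 := 134217728)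
    rfl k0_pp_112

noncomputable def cut_pp_113 : Cut := Cut.of [[⟨3, 0, 0, 1449551462⟩], [⟨4, 0, 0, 2845415833⟩]]

noncomputable def f_pp_113 : ℕ → ℕ → ℕ → ℕ → Bool := onCell 536870912 536870912 536870912 536870912 201326592 134217728
    (rowF 0 true true true .nn 1 1 3 (qsf 536870912 536870912 536870912 536870912 3) ndF0q1 ndF0q1 pcF3 cut_pp_113 Ext.none)

def k0_pp_113 : ∃ t, chk3 f_pp_113 t 1 1 1 = true :=
  ⟨(l 4), by decide +kernel⟩

theorem c_pp_113 : CertF 536870912 536870912 536870912 536870912 201326592 134217728 true true true .nn 1 1 3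
    ndF0q1 ndF0q1 pcF3 cut_pp_113 Ext.none :=
  certF0 (fam := true) (s1 := true) (s2 := true) (a := 1) (b := 1) (c := 3) (cn := .nn) (n1 := ndF0q1) (n2 := ndF0q1) (pc := pcF3) (cut := cut_pp_113) (xt := Ext.none) (P1 := 536870912) (W1 := 536870912) (P2 := 536870912) (W2 := 536870912) (P3 := 201326592) (W3 := 134217728)
    rfl k0_pp_113

noncomputable def cut_pp_123 : Cut := Cut.of [[⟨3, 0, 0, 1449551462⟩], [⟨4, 0, 0, 2845415833⟩]]

noncomputable def f_pp_123 : ℕ → ℕ → ℕ → ℕ → Bool := onCell 536870912 536870912 0 536870912 201326592 134217728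
    (rowF 0 true true true .npn 1 2 3 (qsf 536870912 536870912 0 536870912 3) ndF0q1 ndF0q2 pcF3 cut_pp_123 Ext.none)

def k0_pp_123 : ∃ t, chk3 f_pp_123 t 1 1 1 = true :=
  ⟨(a (l 14) (l 4)), by decide +kernel⟩

theorem c_pp_123 : CertF 536870912 536870912 0 536870912 201326592 134217728 true true true .npn 1 2 3
    ndF0q1 ndF0q2 pcF3 cut_pp_123 Ext.none :=
  certF0 (fam := true) (s1 := true) (s2 := true) (a := 1) (b := 2) (c := 3) (cn := .npn) (n1 := ndF0q1) (n2 := ndF0q2) (pc := pcF3) (cut := cut_pp_123) (xt := Ext.none) (P1 := 536870912) (W1 := 536870912) (P2 := 0) (W2 := 536870912) (P3 := 201326592) (W3 := 134217728)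
    rfl k0_pp_123

noncomputable def cut_pp_202 : Cut := Cut.of [[⟨3, 0, 0, 1449551462⟩], [⟨4, 0, 0, 2845415833⟩]]

noncomputable def f_pp_202 : ℕ → ℕ → ℕ → ℕ → Bool := onCell 0 536870912 0 536870912 201326592 134217728
    (rowF 0 true true true .pp 2 0 2 (qsf 0 536870912 0 536870912 2) ndF0q2 ndF0q0 pcF2 cut_pp_202 Ext.none)

def k0_pp_202 : ∃ t, chk3 f_pp_202 t 1 1 1 = true :=
  ⟨(l 5), by decide +kernel⟩

theorem c_pp_202 : CertF 0 536870912 0 536870912 201326592 134217728 true true true .pp 2 0 2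
    ndF0q2 ndF0q0 pcF2 cut_pp_202 Ext.none :=
  certF0 (fam := true) (s1 := true) (s2 := true) (a := 2) (b := 0) (c := 2) (cn := .pp) (n1 := ndF0q2) (n2 := ndF0q0) (pc := pcF2) (cut := cut_pp_202) (xt := Ext.none) (P1 := 0) (W1 := 536870912) (P2 := 0) (W2 := 536870912) (P3 := 201326592) (W3 := 134217728)
    rfl k0_pp_202

noncomputable def cut_pp_203 : Cut := Cut.of [[⟨3, 0, 0, 1449551462⟩], [⟨4, 0, 0, 2845415833⟩]]

noncomputable def f_pp_203 : ℕ → ℕ → ℕ → ℕ → Bool := onCell 0 536870912 0 536870912 201326592 134217728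
    (rowF 0 true true true .up 2 0 3 (qsf 0 536870912 0 536870912 3) ndF0q2 ndF0q0 pcF3 cut_pp_203 Ext.none)

def k0_pp_203 : ∃ t, chk3 f_pp_203 t 1 1 1 = true :=
  ⟨(l 5), by decide +kernel⟩

theorem c_pp_203 : CertF 0 536870912 0 536870912 201326592 134217728 true true true .up 2 0 3
    ndF0q2 ndF0q0 pcF3 cut_pp_203 Ext.none :=
  certF0 (fam := true) (s1 := true) (s2 := true) (a := 2) (b := 0) (c := 3) (cn := .up) (n1 := ndF0q2) (n2 := ndF0q0) (pc := pcF3) (cut := cut_pp_203) (xt := Ext.none) (P1 := 0) (W1 := 536870912) (P2 := 0) (W2 := 536870912) (P3 := 201326592) (W3 := 134217728)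
    rfl k0_pp_203

noncomputable def cut_pp_213 : Cut := Cut.of [[⟨3, 0, 0, 1449551462⟩], [⟨4, 0, 0, 2845415833⟩]]

noncomputable def f_pp_213 : ℕ → ℕ → ℕ → ℕ → Bool := onCell 0 536870912 536870912 536870912 201326592 134217728
    (rowF 0 true true true .pnn 2 1 3 (qsf 0 536870912 536870912 536870912 3) ndF0q2 ndF0q1 pcF3 cut_pp_213 Ext.none)

def k0_pp_213 : ∃ t, chk3 f_pp_213 t 1 1 1 = true :=
  ⟨(a (l 5) (l 4)), by decide +kernel⟩

theorem c_pp_213 : CertF 0 536870912 536870912 536870912 201326592 134217728 true true true .pnn 2 1 3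
    ndF0q2 ndF0q1 pcF3 cut_pp_213 Ext.none :=
  certF0 (fam := true) (s1 := true) (s2 := true) (a := 2) (b := 1) (c := 3) (cn := .pnn) (n1 := ndF0q2) (n2 := ndF0q1) (pc := pcF3) (cut := cut_pp_213) (xt := Ext.none) (P1 := 0) (W1 := 536870912) (P2 := 536870912) (W2 := 536870912) (P3 := 201326592) (W3 := 134217728)
    rfl k0_pp_213

noncomputable def cut_pm_001 : Cut := Cut.of [[⟨3, 0, 0, 1449551462⟩], [⟨4, 0, 0, 2845415833⟩]]

noncomputable def f_pm_001 : ℕ → ℕ → ℕ → ℕ → Bool := onCell 0 536870912 0 536870912 201326592 134217728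
    (rowF 0 true true false .up 0 0 1 (qsf 0 536870912 0 536870912 1) ndF0q0 ndF0q0 pcF1 cut_pm_001 Ext.none)

def k0_pm_001 : ∃ t, chk3 f_pm_001 t 1 1 1 = true :=
  ⟨(l 3), by decide +kernel⟩

theorem c_pm_001 : CertF 0 536870912 0 536870912 201326592 134217728 true true false .up 0 0 1
    ndF0q0 ndF0q0 pcF1 cut_pm_001 Ext.none :=
  certF0 (fam := true) (s1 := true) (s2 := false) (a := 0) (b := 0) (c := 1) (cn := .up) (n1 := ndF0q0) (n2 := ndF0q0) (pc := pcF1) (cut := cut_pm_001) (xt := Ext.none) (P1 := 0) (W1 := 536870912) (P2 := 0) (W2 := 536870912) (P3 := 201326592) (W3 := 134217728)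
    rfl k0_pm_001

noncomputable def cut_pm_011 : Cut := Cut.of [[⟨3, 0, 0, 1449551462⟩], [⟨4, 0, 0, 2845415833⟩], [⟨0, 0, 0, 67108864⟩, ⟨1, 1, 0, 67108864⟩, ⟨2, 1, 0, 67108864⟩]]

noncomputable def f_pm_011 : ℕ → ℕ → ℕ → ℕ → Bool := onCell 0 536870912 536870912 536870912 201326592 134217728
    (rowF 1 true true false .pnn 0 1 1 (qsf 0 536870912 536870912 536870912 1) ndF0q0 ndF0q1 pcF1 cut_pm_011 Ext.none)

def k0_pm_011 : ∃ t, chk3 f_pm_011 t 1 1 1 = true :=
  ⟨(l 6), by decide +kernel⟩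

theorem c_pm_011 : CertF 0 536870912 536870912 536870912 201326592 134217728 true true false .pnn 0 1 1
    ndF0q0 ndF0q1 pcF1 cut_pm_011 Ext.none :=
  certF1 (fam := true) (s1 := true) (s2 := false) (a := 0) (b := 1) (c := 1) (cn := .pnn) (n1 := ndF0q0) (n2 := ndF0q1) (pc := pcF1) (cut := cut_pm_011) (xt := Ext.none) (P1 := 0) (W1 := 536870912) (P2 := 536870912) (W2 := 536870912) (P3 := 201326592) (W3 := 134217728)
    rfl (fun _ => rfl) k0_pm_011

noncomputable def cut_pm_012 : Cut := Cut.of [[⟨3, 0, 0, 1449551462⟩], [⟨4, 0, 0, 2845415833⟩], [⟨0, 0, 0, 67108864⟩, ⟨1, 1, 0, 67108864⟩, ⟨2, 1, 0, 67108864⟩], [⟨0, 0, 1, 67108864⟩, ⟨1, 1, 0, 16777216⟩, ⟨2, 1, 1, 67108864⟩]]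

noncomputable def f_pm_012 : ℕ → ℕ → ℕ → ℕ → Bool := onCell 0 536870912 536870912 536870912 201326592 134217728
    (rowF 0 true true false .pnp 0 1 2 (qsf 0 536870912 536870912 536870912 2) ndF0q0 ndF0q1 pcF2 cut_pm_012 Ext.none)

def k0_pm_012 : ∃ t, chk3 f_pm_012 t 2 1 1 = true :=
  ⟨(b (l 3) (a (l 6) (b (l 6) (a (l 6) (b (l 6) (b (l 6) (b (l 6) (a (l 6) (c (c (a (b (l 6) (l 30)) (c (b (a (l 16993120) (l 17032296)) (a (l 30) (l 17051552))) (b (a (b (l 6) (l 30)) (l 16888040)) (l 30)))) (b (b (a (l 6) (a (l 6) (c (l 16804184) (l 16723928)))) (l 30)) (l 30))) (b (a (l 6) (c (b (a (l 6) (a (l 16703520) (l 16704408))) (l 30)) (b (a (l 6) (l 16689200)) (c (a (l 16689704) (l 16690568)) (a (l 16682600) (l 16683112)))))) (a (c (c (l 30) (a (b (l 6) (c (l 30) (b (l 16690208) (a (l 16689080) (l 30))))) (b (c (l 30) (l 16692136)) (l 30)))) (a (b (l 6) (b (c (l 16685192) (l 16678528)) (c (a (l 16684080) (l 16683952)) (l 16677248)))) (c (b (l 16692200) (c (a (l 16686256) (b (l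 16686960) (l 30))) (a (l 16682784) (l 16682776)))) (b (l 16680064) (a (l 16677584) (l 16677456)))))) (c (l 30) (a (c (b (c (l 16689128) (l 16685512)) (c (l 30) (a (l 16682840) (b (l 16683672) (l 30))))) (b (l 16680096) (a (l 16680016) (c (l 16679272) (l 16675568))))) (c (b (c (l 30) (l 16686144)) (l 30)) (b (l 16680472) (b (l 16678328) (a (l 16676768) (l 16676912)))))))))))))))))), by decide +kernel⟩

def k1_pm_012 : ∃ t, chk3 f_pm_012 t 3 2 1 = true :=
  ⟨(l 6), by decide +kernel⟩

def k2_pm_012 : ∃ t, chk3 f_pm_012 t 6 6 1 = true :=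
  ⟨(l 6), by decide +kernel⟩

def k3_pm_012 : ∃ t, chk3 f_pm_012 t 6 14 1 = true :=
  ⟨(b (l 6) (a (l 6) (b (a (l 6) (c (c (a (l 17125656) (l 17155776)) (a (l 17039920) (l 17074032))) (a (c (l 16934304) (l 16871744)) (c (l 16993400) (l 16913888))))) (c (a (a (l 6) (c (l 17133176) (l 17012376))) (c (l 17181000) (a (l 17071200) (l 17105232)))) (a (a (l 6) (b (l 6) (a (l 16834712) (l 16879680)))) (a (c (l 16977208) (l 16884048)) (c (l 17016248) (l 16928104)))))))), by decide +kernel⟩

def k4_pm_012 : ∃ t, chk3 f_pm_012 t 12 30 1 = true :=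
  ⟨(c (a (b (l 6) (a (l 6) (a (l 6) (b (l 6) (c (l 17058768) (l 16903704)))))) (c (b (a (l 6) (l 17096016)) (a (l 17026160) (l 17136520))) (b (a (l 6) (b (l 6) (l 16980032))) (a (b (l 16875696) (l 16908752)) (b (l 16993664) (l 17007208)))))) (a (a (l 6) (a (l 6) (b (l 6) (b (l 6) (c (l 16748408) (l 16712872)))))) (a (b (l 6) (c (b (l 16777080) (l 16728928)) (b (l 16727576) (c (l 16723920) (l 16715088))))) (b (b (l 6) (c (l 16812280) (l 16746680))) (c (b (l 16840048) (l 16846744)) (b (l 16739144) (l 16730952))))))), by decide +kernel⟩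

def k5_pm_012 : ∃ t, chk3 f_pm_012 t 24 31 1 = true :=
  ⟨(c (b (c (a (b (c (l 17044384) (l 16956144)) (c (l 17065024) (l 16972408))) (b (l 17063480) (l 17083016))) (c (a (b (a (l 6) (l 16886528)) (a (l 16859792) (l 16899024))) (b (l 16939216) (l 16911096))) (b (a (b (l 6) (l 16718224)) (a (l 16837920) (l 16874064))) (a (b (l 16711608) (a (l 16767152) (l 16809888))) (a (l 16826488) (l 16884568)))))) (c (a (a (c (l 17078520) (b (l 16969800) (l 30))) (b (l 17033344) (l 16988576))) (b (l 17081264) (c (l 17167976) (l 17073664)))) (a (b (b (b (c (l 16845192) (l 16713040)) (l 30)) (l 30)) (l 30)) (c (b (a (l 16948832) (l 16983664)) (a (l 30) (l 16996680))) (b (a (b (l 16854464) (l 30)) (l 16852752)) (l 30)))))) (b (a (a (b (l 6) (b (l 6) (c (l 16707968) (l 16692712)))) (c (b (c (l 16719056) (l 16711312)) (c (l 16716528) (l 16707624))) (b (c (l 16703632) (l 16696024)) (c (l 16699656) (l 16691744))))) (c (b (c (b (l 16708624) (l 16753672)) (a (l 16714704) (l 16718752))) (c (a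 (l 16717248) (l 16778224)) (b (l 16713488) (l 16711224)))) (b (a (c (l 16706576) (l 16698520)) (c (l 16710160) (l 16701648))) (b (c (l 16704944) (l 16696448)) (c (l 16702576) (l 16693968)))))) (b (b (b (c (a (c (l 16711592) (l 16703640)) (c (l 16709888) (l 16709304))) (a (c (l 16695736) (l 16687864)) (c (l 16700592) (l 16691912)))) (c (l 30) (a (c (l 30) (l 16686600)) (l 30)))) (c (l 30) (a (c (l 30) (a (l 16684024) (l 16685336))) (l 30)))) (a (c (l 30) (c (l 30) (c (a (b (l 16683176) (l 30)) (l 30)) (a (b (l 16679224) (a (l 16675976) (l 16676264))) (b (l 16680232) (l 30)))))) (l 30))))), by decide +kernel⟩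

def k6_pm_012 : ∃ t, chk3 f_pm_012 t 25 31 1 = true :=
  ⟨(c (b (c (a (l 17107784) (l 17176784)) (a (b (l 16921264) (c (l 17017000) (l 16935832))) (b (l 17020904) (l 17034760)))) (c (a (c (l 17210736) (l 17124520)) (l 17215344)) (a (a (c (l 17022904) (b (l 16930064) (l 30))) (b (l 17004592) (l 16974424))) (b (l 17047840) (c (l 17100904) (l 17018560)))))) (b (c (a (b (b (l 16721728) (l 16704048)) (b (l 16717936) (c (l 16835600) (l 16711528)))) (a (b (l 16795784) (c (l 16904968) (l 16827600))) (b (l 16890472) (l 16856592)))) (a (b (b (c (l 16717848) (l 16708672)) (l 16710656)) (a (c (l 16709368) (l 16700136)) (c (l 16713864) (l 16704168)))) (b (b (c (l 16764000) (l 16719352)) (l 16707768)) (a (l 16713960) (l 16717240))))) (c (a (b (b (c (a (l 16842272) (l 16877944)) (l 16713696)) (l 30)) (l 30)) (b (a (b (l 16787576) (l 30)) (b (l 16882968) (l 16812744))) (c (a (l 30) (l 16951600)) (l 30)))) (c (b (b (a (l 16712032) (l 16712672)) (l 30)) (l 30)) (b (b (a (l 16697232) (l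 16710856)) (l 30)) (l 30)))))), by decide +kernel⟩

def k7_pm_012 : ∃ t, chk3 f_pm_012 t 13 30 1 = true :=
  ⟨(c (a (c (b (a (l 17137320) (l 17173880)) (l 17196792)) (b (a (b (l 17013592) (l 17028224)) (l 17063808)) (a (l 17050064) (l 17093920)))) (c (b (l 17220360) (l 17259232)) (b (l 17119480) (l 17149808)))) (a (c (b (a (b (l 16900640) (l 16909280)) (b (l 16949256) (l 16959120))) (a (b (l 16917832) (l 16926256)) (l 16910784))) (b (a (b (l 16788208) (l 16790680)) (b (l 16842904) (l 16847288))) (a (b (l 16793024) (l 16753256)) (b (l 16851520) (l 16855544))))) (b (c (a (l 16998672) (l 17038536)) (a (l 16874832) (l 16941688))) (c (a (l 17019608) (l 17060240)) (a (b (l 16904184) (l 16909520)) (l 16954568)))))), by decide +kernel⟩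

def k8_pm_012 : ∃ t, chk3 f_pm_012 t 13 31 1 = true :=
  ⟨(a (c (b (c (l 17236624) (a (l 17036864) (l 17123128))) (c (a (l 17255904) (l 17290224)) (a (b (l 17098688) (l 17110384)) (l 17148448)))) (b (c (a (b (l 16913768) (c (l 16978848) (l 16907600))) (b (l 16987840) (l 16996504))) (b (a (b (l 16733728) (l 16756368)) (b (l 16858352) (l 16860424))) (b (a (l 16716064) (l 16820296)) (a (c (l 16816232) (l 16702264)) (c (l 16897320) (l 16787928)))))) (a (c (c (b (l 16987560) (l 16994632)) (b (a (l 16898360) (l 16928016)) (a (l 30) (l 16931984)))) (b (b (a (l 16711696) (c (l 16854480) (l 16782240))) (l 30)) (l 30))) (a (c (b (l 16991048) (l 16996400)) (b (c (l 16885128) (b (l 16814608) (l 30))) (l 30))) (c (b (l 17015848) (l 17020992)) (b (c (l 16913272) (b (l 16844984) (l 30))) (c (l 16913968) (l 30)))))))) (c (b (c (l 17296952) (a (l 17161560) (l 17194648))) (c (l 17331520) (a (l 17185912) (l 17217768)))) (b (a (c (b (l 17034672) (l 17043208)) (b (b (l 16913360) (l 16915696))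 (a (l 16884008) (l 16930880)))) (c (b (l 17075776) (l 17084008)) (b (l 16942416) (a (l 16955216) (l 16978072))))) (c (a (b (l 17049984) (l 17054768)) (b (l 17090216) (l 17094280))) (a (c (b (l 16952168) (a (l 16940104) (l 16964512))) (b (a (l 16831392) (l 16900064)) (a (l 30) (b (l 16898304) (l 16896208))))) (b (a (l 16956256) (l 16978800)) (a (l 16912768) (l 16976856)))))))), by decide +kernel⟩

def k9_pm_012 : ∃ t, chk3 f_pm_012 t 7 6 1 = true :=
  ⟨(b (l 6) (b (a (l 6) (a (l 6) (b (c (l 17105200) (l 17050024)) (c (l 17132256) (l 17073776))))) (b (a (l 6) (a (c (a (l 17110592) (l 17131792)) (a (l 17033560) (l 17060144))) (c (l 17158072) (l 17115576)))) (a (a (l 6) (a (l 6) (c (l 17118512) (l 17025112)))) (c (a (a (l 17140712) (l 17159880)) (l 17183072)) (a (l 17066232) (l 17111216))))))), by decide +kernel⟩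

def k10_pm_012 : ∃ t, chk3 f_pm_012 t 7 14 1 = true :=
  ⟨(a (b (a (c (b (a (l 6) (c (l 17131512) (l 17071272))) (c (l 17156928) (a (l 17073616) (l 17102344)))) (b (a (l 6) (c (l 17012584) (l 16955440))) (a (c (l 17004624) (l 16936976)) (l 16983608)))) (c (b (c (l 17166816) (l 17111336)) (c (l 17201584) (l 17140488))) (b (a (l 17015656) (l 17045440)) (a (l 17036184) (l 17065288))))) (c (a (c (b (l 17194728) (l 17231720)) (b (l 17119256) (l 17149448))) (c (l 17252216) (b (l 17168928) (l 17196560)))) (a (b (a (c (l 17028432) (l 16953016)) (l 17003776)) (a (c (l 17051576) (l 16968376)) (l 17002256))) (b (a (l 17056072) (l 17084488)) (a (l 17075216) (l 17102960)))))) (b (c (a (b (l 17179344) (l 17207440)) (l 17219832)) (a (b (l 17084960) (l 17103216)) (l 17135000))) (c (a (b (l 17234760) (l 17261224)) (l 17266224)) (a (b (l 17120848) (l 17137808)) (l 17164888))))), by decide +kernel⟩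

def k11_pm_012 : ∃ t, chk3 f_pm_012 t 7 15 1 = true :=
  ⟨(b (a (c (a (c (l 17286096) (b (l 17179008) (l 17207992))) (c (l 17317016) (l 17236864))) (a (b (a (c (l 17074096) (l 16983056)) (c (l 17105712) (l 17020344))) (c (l 17091256) (a (l 16997016) (l 17034832)))) (b (c (l 17146256) (l 17069216)) (c (l 17166864) (l 17083648))))) (c (a (l 17299768) (l 17309872)) (a (b (l 17154168) (l 17170016)) (l 17192752)))) (a (a (a (c (b (l 17276256) (l 17283184)) (b (b (c (l 17111656) (l 17006600)) (c (l 17119480) (l 17009752))) (c (b (l 17125288) (l 17130224)) (b (a (l 16999864) (l 17020200)) (a (l 16998536) (l 17020528)))))) (c (b (l 17296520) (l 17324064)) (b (c (l 17146896) (b (l 17044688) (l 17048184))) (b (c (l 17157168) (l 17050048)) (l 17002816))))) (c (b (a (l 17312736) (l 17325088)) (l 17345800)) (b (a (b (l 17061072) (l 17130360)) (l 17153728)) (c (l 17200616) (a (l 17087120) (l 17118112)))))) (c (a (l 17348664) (l 17351192)) (a (b (c (l 17222984) (l 17146264)) (l 17154472))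 (b (l 17212088) (l 17223144)))))), by decide +kernel⟩

theorem s12_pm_012 : ∃ t, chk3 f_pm_012 t 7 7 1 = true := ex3_b k10_pm_012 k11_pm_012

theorem s13_pm_012 : ∃ t, chk3 f_pm_012 t 7 3 1 = true := ex3_b k9_pm_012 s12_pm_012

theorem s14_pm_012 : ∃ t, chk3 f_pm_012 t 13 15 1 = true := ex3_b k7_pm_012 k8_pm_012

theorem s15_pm_012 : ∃ t, chk3 f_pm_012 t 12 31 1 = true := ex3_a k5_pm_012 k6_pm_012

theorem s16_pm_012 : ∃ t, chk3 f_pm_012 t 12 15 1 = true := ex3_b k4_pm_012 s15_pm_012

theorem s17_pm_012 : ∃ t, chk3 f_pm_012 t 6 15 1 = true := ex3_a s16_pm_012 s14_pm_012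

theorem s18_pm_012 : ∃ t, chk3 f_pm_012 t 6 7 1 = true := ex3_b k3_pm_012 s17_pm_012

theorem s19_pm_012 : ∃ t, chk3 f_pm_012 t 6 3 1 = true := ex3_b k2_pm_012 s18_pm_012

theorem s20_pm_012 : ∃ t, chk3 f_pm_012 t 3 3 1 = true := ex3_a s19_pm_012 s13_pm_012

theorem s21_pm_012 : ∃ t, chk3 f_pm_012 t 3 1 1 = true := ex3_b k1_pm_012 s20_pm_012

theorem s22_pm_012 : ∃ t, chk3 f_pm_012 t 1 1 1 = true := ex3_a k0_pm_012 s21_pm_012

theorem c_pm_012 : CertF 0 536870912 536870912 536870912 201326592 134217728 true true false .pnp 0 1 2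
    ndF0q0 ndF0q1 pcF2 cut_pm_012 Ext.none :=
  certF0 (fam := true) (s1 := true) (s2 := false) (a := 0) (b := 1) (c := 2) (cn := .pnp) (n1 := ndF0q0) (n2 := ndF0q1) (pc := pcF2) (cut := cut_pm_012) (xt := Ext.none) (P1 := 0) (W1 := 536870912) (P2 := 536870912) (W2 := 536870912) (P3 := 201326592) (W3 := 134217728)
    rfl s22_pm_012

noncomputable def cut_pm_022 : Cut := Cut.of [[⟨3, 0, 0, 1449551462⟩], [⟨4, 0, 0, 2845415833⟩], [⟨0, 0, 0, 67108864⟩, ⟨1, 1, 0, 67108864⟩, ⟨2, 1, 0, 67108864⟩], [⟨0, 0, 1, 67108864⟩, ⟨1, 1, 0, 16777216⟩, ⟨2, 1, 1, 67108864⟩]]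

noncomputable def f_pm_022 : ℕ → ℕ → ℕ → ℕ → Bool := onCell 1073741824 536870912 0 536870912 201326592 134217728
    (rowF 2 true true false .pp 0 2 2 (qsf 0 536870912 0 536870912 2) ndF0q0 ndF0q2 pcF2 cut_pm_022 Ext.none)

def k0_pm_022 : ∃ t, chk3 f_pm_022 t 2 2 1 = true :=
  ⟨(a (b (l 1) (a (l 1) (a (l 1) (a (l 1) (a (l 1) (b (l 1) (b (l 1) (c (l 16566952) (l 16539568))))))))) (a (a (b (a (l 1) (a (b (l 1) (c (l 16586640) (l 16544568))) (a (b (l 1) (c (l 16561720) (l 16541160))) (b (c (c (l 16574024) (l 16577456)) (l 16620568)) (c (c (l 16579080) (l 16580904)) (l 16622864)))))) (a (a (b (l 1) (c (b (l 16548664) (l 16545696)) (b (l 16532024) (l 16529840)))) (c (b (b (l 16535608) (l 16505592)) (b (l 16520888) (l 16538552))) (b (l 16538712) (l 16566072)))) (a (b (c (b (l 16529624) (l 16520280)) (l 16569712)) (c (b (l 16514320) (l 16533104)) (l 16559472))) (a (b (c (l 16542000) (l 16523880)) (c (l 16539608) (l 16534104))) (b (c (b (l 16564984) (l 16576456)) (c (l 16604976)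 (l 16605432))) (c (b (l 16580864) (a (l 16511208) (l 16531480))) (c (l 16603808) (l 16605672)))))))) (a (b (b (c (b (l 16551672) (l 16543720)) (l 16552352)) (c (l 16584136) (l 16554344))) (b (c (b (l 16516544) (l 16506992)) (l 16557240)) (c (b (l 16521864) (l 16531168)) (l 16545640)))) (b (b (c (l 16577160) (l 16542240)) (c (l 16560568) (l 16543080))) (b (c (l 16540152) (l 16502480)) (c (b (l 16509704) (l 16533744)) (l 16538608)))))) (b (a (b (c (b (l 16559720) (l 16552832)) (l 16610368)) (c (b (l 16545920) (l 16537496)) (l 16590048))) (b (c (b (l 16647944) (l 16646048)) (l 16564776)) (c (b (l 16644360) (l 16642648)) (l 16545888)))) (b (a (c (a (l 16527192) (l 16514704)) (a (l 16490384) (l 16478896))) (c (b (l 16641192) (l 16641168)) (l 16530168))) (a (c (a (b (l 16492168) (l 16513776)) (l 16546656)) (b (l 16528848) (l 16550048))) (c (b (l 16643224) (l 16647072)) (a (l 16520976) (l 16498680)))))))), by decide +kernel⟩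

def k1_pm_022 : ∃ t, chk3 f_pm_022 t 4 3 1 = true :=
  ⟨(b (a (l 1) (a (b (l 1) (b (b (a (l 1) (a (l 1) (c (l 16600744) (l 16599008)))) (l 6)) (l 6))) (a (b (c (b (l 16549384) (a (l 16602024) (l 16576416))) (b (l 16570400) (a (b (l 1) (l 16581736)) (l 16588376)))) (c (b (c (b (l 16598064) (l 16608320)) (l 16601256)) (c (a (l 6) (l 16630584)) (l 16626712))) (b (c (l 16609808) (b (l 16604936) (l 16605920))) (a (l 6) (l 16626280))))) (b (c (a (b (l 16548936) (l 16582672)) (b (a (l 16538016) (l 16560464)) (c (l 16611400) (l 16608608)))) (a (b (l 16551752) (l 16558384)) (b (l 16560464) (l 16604880)))) (a (b (c (l 16610608) (l 16585560)) (c (c (l 16614752) (l 16612136)) (l 16608360))) (b (c (c (l 16639056) (l 16636040)) (a (l 16589096) (l 16591392))) (c (b (l 16633416) (l 16644560)) (b (l 16626912) (l 16637560))))))))) (l 6)), by decide +kernel⟩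

def k2_pm_022 : ∃ t, chk3 f_pm_022 t 20 3 1 = true :=
  ⟨(b (a (b (b (c (a (l 16583200) (l 16583192)) (a (l 16556728) (l 16535832))) (a (c (l 16613576) (l 16607544)) (c (b (l 16584296) (l 16599136)) (l 16585968)))) (b (c (a (c (l 16621648) (l 16618208)) (c (l 16620496) (l 16617232))) (a (l 16634080) (l 16612240))) (c (a (c (l 16643496) (l 16639616)) (l 16640360)) (a (l 16633824) (l 16632608))))) (a (b (b (c (l 16582864) (l 16535664)) (c (a (l 16570128) (l 16569104)) (l 16585064))) (b (c (l 16638312) (l 16611016)) (c (l 16659784) (l 16631128)))) (a (b (c (c (l 16597520) (l 16594920)) (l 16591160)) (c (b (l 16594264) (l 16636848)) (b (l 16588360) (l 16608400)))) (a (b (c (c (l 16596136) (l 16593720)) (l 16590160)) (c (b (l 16613536) (l 16635320)) (b (l 16587016) (l 16607104)))) (b (c (b (l 16579696) (l 16606928)) (c (l 16611304) (l 16609072))) (b (c (b (l 16606320) (l 16617704)) (b (l 16601448) (l 16612096))) (c (l 16665440) (l 16647920)))))))) (a (b (b (b (a (c (l 16636496)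 (l 16627960)) (c (l 16635168) (l 16626440))) (l 6)) (l 6)) (l 6)) (b (a (b (c (c (l 16662184) (l 16657640)) (l 16650656)) (l 6)) (b (c (a (l 16668584) (a (c (l 16638000) (l 16633552)) (c (l 16678752) (l 16653400)))) (a (l 16627840) (a (l 16626600) (l 16667496)))) (a (l 6) (a (l 6) (a (l 6) (b (c (l 16650536) (l 16639872)) (l 6))))))) (l 6)))), by decide +kernel⟩

def k3_pm_022 : ∃ t, chk3 f_pm_022 t 21 3 1 = true :=
  ⟨(b (b (a (c (b (l 16557192) (l 16583232)) (a (l 16588408) (l 16588664))) (c (b (l 16557784) (l 16581896)) (l 16608632))) (c (b (a (c (l 16609504) (l 16607544)) (l 16605864)) (a (c (l 16632184) (l 16629160)) (c (l 16608080) (l 16605512)))) (b (a (l 16603920) (l 16581232)) (a (l 16624032) (l 16600744))))) (b (c (a (b (c (l 16665104) (l 16650320)) (b (c (l 16650504) (l 16645240)) (c (l 16662128) (l 16656160)))) (b (c (l 16651456) (l 16626360)) (c (b (l 16647496) (l 16659256)) (b (l 16642160) (l 16653064))))) (a (b (a (l 16624000) (l 16622656)) (b (l 16637040)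 (l 16667968))) (b (l 16661440) (b (l 16633664) (l 16643408))))) (b (a (l 6) (b (c (c (l 16671464) (l 16664376)) (l 16684944)) (l 6))) (l 6)))), by decide +kernel⟩

def k4_pm_022 : ∃ t, chk3 f_pm_022 t 11 6 1 = true :=
  ⟨(a (b (c (b (a (l 16535440) (l 16532384)) (a (l 16557184) (l 16551272))) (b (l 16592480) (a (l 16554960) (l 16550312)))) (c (a (b (l 16600232) (l 16643232)) (b (l 16591856) (l 16624856))) (a (b (l 16577168) (l 16596392)) (b (l 16570680) (l 16590040))))) (b (c (b (a (l 16576352) (l 16720280)) (a (l 16586336) (l 16725176))) (b (l 16564384) (l 16580736))) (c (b (a (l 16598616) (l 16731448)) (a (c (l 16772680) (l 16583160)) (c (l 16884968) (l 16600096)))) (b (a (l 16561824) (l 16550448)) (a (l 16581536) (l 16570640)))))), by decide +kernel⟩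

def k5_pm_022 : ∃ t, chk3 f_pm_022 t 11 14 1 = true :=
  ⟨(a (a (c (b (c (l 16625336) (l 16621616)) (c (b (l 16643056) (l 16655504)) (l 16675040))) (b (l 16636072) (b (l 16629320) (l 16639256)))) (c (b (c (l 16652752) (l 16615264)) (c (b (l 16672352) (l 16687552)) (l 16659752))) (b (l 16630264) (b (l 16624184) (l 16634608))))) (b (c (a (c (l 16787504) (l 16607616)) (c (l 16895672) (l 16622992))) (a (l 16602184) (l 16614448))) (c (c (a (b (l 16802080) (l 16813928)) (b (l 16907152) (l 16916880))) (a (l 16654384) (b (l 16644080) (l 16660520)))) (a (b (l 16618232) (l 16629528)) (b (l 16611256) (l 16623768)))))), by decide +kernel⟩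

def k6_pm_022 : ∃ t, chk3 f_pm_022 t 22 15 1 = true :=
  ⟨(b (c (a (b (c (l 16668440) (l 16661040)) (c (b (l 16678432) (l 16685232)) (l 16694256))) (c (b (l 16704640) (a (l 16690216) (l 16756112))) (b (l 16657528) (l 16670760)))) (a (b (l 16670528) (c (l 16664624) (l 16655816))) (b (l 16666448) (c (l 16661504) (l 16652064))))) (c (b (b (c (a (l 16702648) (l 16700232)) (a (l 16682760) (l 16681008))) (a (l 6) (l 30))) (a (l 6) (l 30))) (a (a (l 6) (b (b (l 16667936) (l 6)) (l 6))) (a (b (c (l 16674640) (l 16664160)) (b (c (l 16694552) (l 16672656)) (l 6))) (b (c (l 16673616) (l 16662704)) (b (c (l 16693888) (l 16671496)) (c (c (l 30) (b (l 16685312) (b (l 16687784) (l 6)))) (b (l 16675992) (c (b (l 16681440) (l 6)) (l 16675840)))))))))), by decide +kernel⟩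

def k7_pm_022 : ∃ t, chk3 f_pm_022 t 23 15 1 = true :=
  ⟨(b (c (a (b (c (l 16806688) (l 16654000)) (c (b (l 16839264) (l 16784768)) (l 16689472))) (c (b (l 16928488) (c (l 17002728) (l 16881424))) (b (l 16679048) (l 16681392)))) (a (b (l 16662280) (c (l 16658608) (l 16648504))) (b (l 16668296) (c (l 16655824) (l 16645024))))) (c (b (b (a (c (c (l 16921000) (l 16792256)) (l 16679792)) (c (c (l 17012864) (l 16894344)) (c (l 16775928) (l 16675992)))) (c (a (l 30) (c (l 17020280) (l 30))) (l 30))) (c (a (l 30) (c (b (l 17028232) (l 16994792)) (l 30))) (l 30))) (b (a (c (b (l 16668728) (l 16696608)) (b (l 16657536) (l 16663704))) (c (b (l 16667048) (l 30)) (b (l 16654992) (l 16661840)))) (b (a (c (c (l 30) (a (l 16679840) (l 16679448))) (a (l 16670520) (l 16669728))) (c (l 30) (a (l 16669136) (l 16668736)))) (a (a (c (c (l 30) (b (l 16684944) (a (c (l 30) (l 16686800)) (l 30)))) (b (l 16675208) (c (a (l 16681848) (l 16681656)) (l 16675040)))) (c (l 30) (b (l 16685144) (c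 (c (b (l 16682344) (l 16689336)) (l 16684976)) (b (l 16673688) (l 16675312)))))) (c (l 30) (a (c (b (l 16677872) (c (l 30) (b (l 16678776) (l 16680576)))) (b (l 16670800) (c (l 16676040) (l 16672400)))) (c (l 30) (b (l 16670576) (c (b (l 16675176) (l 16677032)) (l 16672304))))))))))), by decide +kernel⟩

def k8_pm_022 : ∃ t, chk3 f_pm_022 t 6 2 1 = true :=
  ⟨(a (b (b (a (c (b (l 16875072) (l 16877496)) (l 16548648)) (c (b (l 17008672) (l 17014528)) (b (l 16583272) (l 16578400)))) (a (c (b (l 16879040) (l 16879936)) (l 16506272)) (c (l 17020768) (l 16573928)))) (b (a (c (b (l 16880456) (l 16880888)) (l 16497976)) (c (l 17026608) (l 16571448))) (a (c (b (l 16881208) (l 16881432)) (c (l 16538152) (l 16534752))) (c (b (l 17028448) (l 17027912)) (b (l 16572272) (l 16574152)))))) (b (b (a (c (b (l 17084064) (l 17094208)) (b (l 16745296) (l 16744432))) (c (b (l 17121864) (l 17136992)) (b (l 16851688) (l 16855984)))) (a (c (l 17103888) (l 16741640)) (c (l 17149744) (l 16854200))))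 (b (a (c (l 17114600) (l 16739640)) (c (l 17165032) (l 16852440))) (a (c (b (l 17119056) (l 17119504)) (b (l 16738160) (l 16736840))) (c (b (l 17173088) (l 17175800)) (b (l 16850088) (l 16847368))))))), by decide +kernel⟩

def k9_pm_022 : ∃ t, chk3 f_pm_022 t 12 6 1 = true :=
  ⟨(b (a (c (b (l 16860664) (a (l 16835440) (l 16923544))) (b (l 16528976) (l 16559912))) (c (b (l 17026440) (a (l 16994192) (l 17051024))) (b (l 16576672) (l 16684536)))) (a (c (b (a (l 16837576) (l 16922984)) (a (c (l 16974880) (l 16714456)) (l 16885248))) (b (a (l 16536608) (l 16540904)) (a (l 16557120) (l 16561128)))) (c (b (a (l 16992024) (l 17048096)) (a (l 16973336) (l 16986192))) (b (a (l 16536944) (l 16624720)) (a (l 16549824) (l 16716776)))))), by decide +kernel⟩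

def k10_pm_022 : ∃ t, chk3 f_pm_022 t 12 14 1 = true :=
  ⟨(a (b (c (a (c (l 16983224) (l 16732928)) (c (l 17054480) (l 16823024))) (a (l 16603880) (l 16590888))) (c (a (c (b (l 16992912) (l 17001392)) (b (l 16750784) (l 16765032))) (c (l 17066952) (b (l 16838840) (l 16851744)))) (a (b (l 16603064) (l 16617184)) (b (l 16593096) (l 16609328))))) (c (b (a (c (l 17112584) (l 16896968)) (c (l 17160232) (l 16957928))) (a (c (l 17124624) (l 16896568)) (c (l 17172360) (l 16977824)))) (b (a (b (l 16567760) (l 16582232)) (b (l 16648960) (l 16662440))) (a (b (l 16598808) (l 16622976)) (b (l 16678128) (l 16717256)))))), by decide +kernel⟩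

def k11_pm_022 : ∃ t, chk3 f_pm_022 t 12 15 1 = true :=
  ⟨(a (b (c (a (c (b (l 17011704) (l 17002976)) (b (l 16781352) (a (l 16776512) (l 16822304)))) (c (b (l 17080704) (l 17092208)) (b (l 16866720) (a (l 16864264) (l 16902728))))) (a (b (c (l 16636720) (l 16627032)) (c (l 16653032) (l 16641496))) (b (c (l 16653344) (l 16621128)) (c (l 16655088) (l 16637784))))) (c (c (a (b (c (l 17092648) (l 16983808)) (c (l 17107288) (a (l 30) (l 17020672)))) (b (l 17105680) (c (l 17170232) (l 17072248)))) (b (a (b (a (l 16792232) (l 16837384)) (l 30)) (b (l 16856336) (c (l 16958792) (l 30)))) (a (l 30) (a (l 30) (c (l 16991808) (l 30)))))) (a (a (b (c (l 16680768) (l 16657096)) (c (l 30) (b (l 16668536) (c (l 30) (b (l 16670600) (c (l 30) (b (l 16671536) (l 16673456)))))))) (b (c (l 16680472) (l 16656312)) (b (c (l 30) (l 16689528)) (l 30)))) (b (b (c (l 16694776) (l 16650776)) (l 30)) (l 30))))) (c (b (c (a (l 17143328) (l 17191104)) (a (b (l 16938080) (l 16954552)) (b (l 16997984)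 (l 17014208)))) (c (a (b (l 17162336) (l 17177456)) (l 17217232)) (b (a (c (l 17020584) (l 16926160)) (l 17032768)) (c (a (l 17040288) (l 17096528)) (a (a (l 30) (l 16965304)) (l 17010920)))))) (a (b (b (c (l 16738680) (l 16613976)) (c (b (l 16754640) (l 16766120)) (l 16633496))) (b (b (c (l 16757312) (l 16648760)) (l 30)) (l 30))) (b (b (c (l 16810616) (l 16623680)) (c (b (l 16826232) (l 16837504)) (l 16649736))) (b (c (b (l 16828512) (a (l 30) (l 16878256))) (b (l 16650352) (l 30))) (a (l 30) (c (c (l 16940752) (l 30)) (l 30)))))))), by decide +kernel⟩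

def k12_pm_022 : ∃ t, chk3 f_pm_022 t 13 6 1 = true :=
  ⟨(b (a (c (b (l 17118592) (c (l 17212232) (l 17020744))) (b (l 16735040) (a (l 16699360) (l 16762504)))) (c (b (l 17177168) (a (l 17164440) (l 17189352))) (b (a (l 16820144) (l 16865408)) (a (l 16815480) (l 16860168))))) (a (c (b (a (l 17093928) (l 17026864)) (a (c (l 17192624) (l 16995936)) (c (l 17225208) (b (l 17036600) (l 17040512))))) (b (a (l 16697344) (l 16758088)) (a (b (l 16697496) (l 16705440)) (b (a (l 16741680) (l 16768352)) (l 16762120))))) (c (b (a (c (l 17251512) (l 17074904)) (c (l 17273872) (b (l 17106336) (l 17105440)))) (a (c (b (l 17251904) (l 17254064)) (b (a (l 17064312) (l 17081200)) (l 17076288))) (c (b (a (l 17270240) (l 17281600)) (l 17278184)) (b (a (l 17096960) (b (l 17111984) (c (l 17154200) (l 17069056)))) (a (l 17099768) (l 17114176)))))) (c (b (a (l 16898056) (b (l 16939056) (l 16936200))) (a (b (a (l 16883424) (l 16904344)) (l 16898752)) (b (b (l 16933872) (a (l 16923328) (b (l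 16941736) (l 16941240)))) (a (l 16927432) (a (l 16940680) (l 16949144)))))) (b (a (l 16741936) (b (l 16771504) (l 16766928))) (a (b (a (l 16702672) (l 16727640)) (l 16763400)) (b (b (l 16763208) (a (l 16750088) (b (l 16772128) (l 16771264)))) (a (l 16755416) (l 16776088))))))))), by decide +kernel⟩

def k13_pm_022 : ∃ t, chk3 f_pm_022 t 13 14 1 = true :=
  ⟨(a (c (b (c (l 17216848) (a (l 17008464) (l 17050712))) (c (l 17229568) (a (l 17028264) (l 17070712)))) (b (a (b (l 16716240) (l 16729200)) (b (l 16772544) (c (l 16875112) (l 16695504)))) (a (b (l 16744504) (c (l 16852984) (l 16671912))) (b (c (l 16888592) (l 16712520)) (c (l 16904592) (l 16732496)))))) (c (c (b (a (l 17260208) (b (l 17281880) (l 17286944))) (a (l 17273464) (l 17297400))) (b (a (a (l 17077984) (l 17094464)) (a (l 17109744) (b (l 17120248) (l 17128280)))) (a (l 17106688) (b (l 17131384) (l 17143776))))) (b (a (a (c (l 16902592) (l 16727480)) (c (l 16922744) (l 16751328))) (a (c (b (l 16936160) (l 16947280))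 (l 16815376)) (c (b (l 16953496) (l 16964568)) (b (l 16787200) (l 16801344))))) (a (b (c (l 16932384) (a (l 16751960) (l 16775896))) (c (l 16948640) (a (l 16772144) (l 16796272)))) (b (c (a (l 16960968) (l 16978304)) (a (l 16798112) (l 16818704))) (c (a (l 16977424) (l 16994880)) (a (l 16818664) (l 16839424)))))))), by decide +kernel⟩

def k14_pm_022 : ∃ t, chk3 f_pm_022 t 13 15 1 = true :=
  ⟨(a (c (b (c (a (l 17231168) (l 17264864)) (a (l 17035368) (l 17099184))) (c (a (l 17257392) (l 17291240)) (a (b (l 17083352) (l 17104272)) (l 17136744)))) (b (a (b (c (l 16871480) (l 16694808)) (c (l 16871704) (a (l 16704064) (l 16736952)))) (b (c (l 16923288) (a (l 16741200) (l 16769400))) (c (l 16944776) (a (l 16767504) (l 16795960))))) (b (c (a (a (l 16902288) (l 16930488)) (c (l 17008408) (l 16929736))) (a (b (a (l 16725664) (l 16758664)) (l 30)) (a (b (l 16789400) (l 30)) (b (l 16818040) (l 16833832))))) (c (a (a (c (l 16969912) (l 30)) (a (l 16929544) (l 16964152))) (b (l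 16989104) (l 16982360))) (c (a (l 30) (a (l 30) (l 16896336))) (l 30)))))) (c (c (b (a (l 17293272) (l 17317280)) (a (l 17319672) (l 17343472))) (b (a (l 17135648) (b (l 17158480) (l 17175448))) (a (l 17173608) (l 17204968)))) (b (a (c (b (l 16967672) (l 16989536)) (b (a (l 16795616) (l 16819976)) (a (l 16822432) (l 16847088)))) (b (c (l 17005640) (a (l 16842632) (l 16863640))) (c (l 17027928) (a (l 16870008) (l 16891312))))) (b (a (c (l 17014216) (a (c (l 16890328) (l 16814928)) (l 16856568))) (c (l 17053008) (a (l 16900760) (l 16922360)))) (c (a (l 17020640) (l 17080736)) (a (a (c (l 16922248) (l 30)) (b (l 16902480) (l 16920112))) (a (a (l 16929000) (l 16940344)) (l 16935648)))))))), by decide +kernel⟩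

def k15_pm_022 : ∃ t, chk3 f_pm_022 t 7 2 1 = true :=
  ⟨(a (b (b (c (a (l 17143144) (l 17140400)) (a (l 16923112) (l 16966112))) (a (c (l 17172512) (l 16932448)) (c (l 17179512) (b (l 16985928) (l 16987864))))) (a (b (c (l 17192928) (l 16932752)) (c (a (l 17201000) (l 17214336)) (a (l 16911888) (l 16949416)))) (b (c (l 17205192) (l 16991392)) (c (l 17226680) (l 16995104))))) (b (b (c (a (l 17124360) (l 17099248)) (a (l 16987616) (l 16993808))) (c (b (l 17153776) (l 17175128)) (b (a (l 17016200) (l 17029216)) (a (l 17024440) (l 17045984))))) (c (b (a (l 17204120) (l 17192408)) (a (l 17230872) (l 17223496))) (b (a (l 17030920) (l 17055264)) (a (l 17039224) (l 17067456)))))), by decide +kernel⟩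

def k16_pm_022 : ∃ t, chk3 f_pm_022 t 14 3 1 = true :=
  ⟨(b (a (b (c (a (b (l 17207864) (l 17211096)) (l 17226120)) (a (b (l 16907768) (l 16903520)) (l 16946400))) (a (b (c (c (l 17292864) (l 17134984)) (a (b (l 16887520) (l 16884080)) (l 16909576))) (a (c (c (b (l 17292240) (l 17294872)) (b (b (l 17127320) (l 17085240)) (l 17108664))) (a (b (b (l 16874776) (c (l 16935064) (l 16810464))) (c (l 16959112) (l 16793304))) (b (l 16907608) (l 16888944)))) (c (b (l 17159304) (l 17120296)) (b (l 16905192) (l 16907376))))) (c (b (l 17234320) (b (l 17238568) (l 17242216))) (b (l 16942192) (b (l 16939464) (l 16941576)))))) (b (c (l 17243504) (l 16996768)) (c (b (l 17256264) (l 17265592)) (b (l 16997296) (a (l 16980696) (l 17015168)))))) (a (b (a (c (b (c (a (l 17300856) (l 17311392)) (a (b (l 17135776) (l 17143864)) (l 17155832))) (c (l 17319680) (a (l 17159912) (l 17176328)))) (b (a (c (b (l 16973496) (l 16984616)) (b (l 16811744) (l 16825928))) (c (l 17000856) (l 16846464)))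 (a (b (c (l 16998352) (l 16843264)) (c (l 17014872) (l 16863920))) (c (l 17028368) (l 16881000))))) (c (b (l 17251184) (l 17268360)) (b (l 16957976) (l 16904840)))) (a (c (b (c (l 17339152) (a (l 17189120) (l 17204992))) (c (l 17364168) (l 17234344))) (b (c (b (l 17003384) (l 17067144)) (a (b (l 16887944) (l 16915336)) (l 16927952))) (c (b (l 17091504) (l 17118288)) (a (b (l 16945984) (l 16979688)) (b (l 16971152) (l 17003632)))))) (c (b (l 17291752) (l 17320840)) (b (c (l 17095064) (l 16964472)) (c (l 17140824) (b (l 17005680) (l 17036440))))))) (b (c (b (l 17278184) (l 17295528)) (b (l 17016112) (l 17025168))) (c (b (l 17317696) (l 17344080)) (b (a (l 17067760) (l 17100032)) (b (l 17097960) (a (l 17087008) (l 17157568)))))))), by decide +kernel⟩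

def k17_pm_022 : ∃ t, chk3 f_pm_022 t 15 3 1 = true :=
  ⟨(a (b (c (b (l 17253528) (l 17277408)) (b (l 17046496) (b (l 17052416) (l 17057408)))) (c (b (l 17306672) (b (l 17336632) (l 17359704))) (b (b (l 17074584) (l 17103608)) (b (l 17138848) (a (l 17169600) (l 17189040)))))) (b (c (b (l 17250840) (l 17279592)) (b (l 17079480) (b (l 17089776) (c (l 17145424) (l 17050456))))) (c (b (l 17312440) (l 17350168)) (b (b (c (l 17162112) (l 17067496)) (l 17142184)) (b (l 17174224) (l 17209776)))))), by decide +kernel⟩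

theorem s18_pm_022 : ∃ t, chk3 f_pm_022 t 7 3 1 = true := ex3_a k16_pm_022 k17_pm_022

theorem s19_pm_022 : ∃ t, chk3 f_pm_022 t 7 1 1 = true := ex3_b k15_pm_022 s18_pm_022

theorem s20_pm_022 : ∃ t, chk3 f_pm_022 t 13 7 1 = true := ex3_b k13_pm_022 k14_pm_022

theorem s21_pm_022 : ∃ t, chk3 f_pm_022 t 13 3 1 = true := ex3_b k12_pm_022 s20_pm_022

theorem s22_pm_022 : ∃ t, chk3 f_pm_022 t 12 7 1 = true := ex3_b k10_pm_022 k11_pm_022

theorem s23_pm_022 : ∃ t, chk3 f_pm_022 t 12 3 1 = true := ex3_b k9_pm_022 s22_pm_022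

theorem s24_pm_022 : ∃ t, chk3 f_pm_022 t 6 3 1 = true := ex3_a s23_pm_022 s21_pm_022

theorem s25_pm_022 : ∃ t, chk3 f_pm_022 t 6 1 1 = true := ex3_b k8_pm_022 s24_pm_022

theorem s26_pm_022 : ∃ t, chk3 f_pm_022 t 3 1 1 = true := ex3_a s25_pm_022 s19_pm_022

theorem s27_pm_022 : ∃ t, chk3 f_pm_022 t 11 15 1 = true := ex3_a k6_pm_022 k7_pm_022

theorem s28_pm_022 : ∃ t, chk3 f_pm_022 t 11 7 1 = true := ex3_b k5_pm_022 s27_pm_022

theorem s29_pm_022 : ∃ t, chk3 f_pm_022 t 11 3 1 = true := ex3_b k4_pm_022 s28_pm_022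

theorem s30_pm_022 : ∃ t, chk3 f_pm_022 t 10 3 1 = true := ex3_a k2_pm_022 k3_pm_022

theorem s31_pm_022 : ∃ t, chk3 f_pm_022 t 5 3 1 = true := ex3_a s30_pm_022 s29_pm_022

theorem s32_pm_022 : ∃ t, chk3 f_pm_022 t 2 3 1 = true := ex3_a k1_pm_022 s31_pm_022

theorem s33_pm_022 : ∃ t, chk3 f_pm_022 t 2 1 1 = true := ex3_b k0_pm_022 s32_pm_022

theorem s34_pm_022 : ∃ t, chk3 f_pm_022 t 1 1 1 = true := ex3_a s33_pm_022 s26_pm_022

theorem c_pm_022 : CertF 0 536870912 0 536870912 201326592 134217728 true true false .pp 0 2 2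
    ndF0q0 ndF0q2 pcF2 cut_pm_022 Ext.none :=
  certF2 (fam := true) (s1 := true) (s2 := false) (a := 0) (b := 2) (c := 2) (cn := .pp) (n1 := ndF0q0) (n2 := ndF0q2) (pc := pcF2) (cut := cut_pm_022) (xt := Ext.none) (P1 := 0) (W1 := 536870912) (P2 := 0) (W2 := 536870912) (P3 := 201326592) (W3 := 134217728)
    rfl (fun _ => rfl) s34_pm_022

noncomputable def cut_pm_023 : Cut := Cut.of [[⟨3, 0, 0, 1449551462⟩], [⟨4, 0, 0, 2845415833⟩]]

noncomputable def f_pm_023 : ℕ → ℕ → ℕ → ℕ → Bool := onCell 1610612736 536870912 0 536870912 201326592 134217728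
    (rowF 2 true true false .up 0 2 3 (qsf 0 536870912 0 536870912 3) ndF0q0 ndF0q2 pcF3 cut_pm_023 Ext.none)

def k0_pm_023 : ∃ t, chk3 f_pm_023 t 4 2 1 = true :=
  ⟨(b (a (c (a (b (b (a (l 17144544) (l 17118448)) (c (l 17234248) (l 17119152))) (b (c (l 17283616) (a (l 17164816) (l 17143072))) (c (a (b (l 17336576) (l 17346304)) (l 17313096)) (a (b (l 17190336) (l 17198952)) (l 17175616))))) (b (b (l 17079296) (l 17122104)) (b (l 17162976) (a (l 17217032) (l 17188792))))) (a (b (a (b (c (l 16999008) (l 16920752)) (c (l 17023408) (l 16935712))) (b (l 16950496) (l 16970456))) (a (b (c (l 17046000) (a (l 16949288) (l 16949360))) (b (a (c (l 17064776) (l 16958792)) (l 17005960)) (c (l 17069808) (l 16965072)))) (b (l 16988920) (b (l 17002072) (l 17010256))))) (b (b (l 16937848) (l 16958952)) (b (l 16978624) (a (l 17000912) (l 16993800)))))) (c (a (b (b (l 17026552) (l 17068312)) (b (l 17108312) (l 17147272))) (b (b (l 14) (l 17015248)) (b (l 17054672) (l 17093536)))) (a (b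 (b (l 16917360) (l 16939792)) (b (l 16960976) (l 16981456))) (b (b (l 14) (l 16917248)) (b (l 16939800) (l 16961928)))))) (a (c (b (a (c (b (l 17340000) (l 17346856)) (b (l 17199808) (l 17210920))) (b (l 17227504) (l 17242528))) (a (c (l 17357120) (b (l 17221320) (l 17231168))) (l 17261272))) (a (b (b (a (c (l 17079784) (l 16974016)) (l 17021568)) (a (c (l 17091864) (l 16984768)) (l 17035440))) (c (b (l 17101536) (l 17112256)) (a (b (l 16993992) (l 17002032)) (l 17004648)))) (b (b (l 17014792) (l 17031424)) (b (l 17046288) (l 17060104))))) (b (a (c (b (l 17182208) (l 17203344)) (b (l 17001576) (l 17020736))) (c (b (l 17132952) (l 17160488)) (b (l 16984032) (l 17004944)))) (c (a (l 17226944) (l 17191040)) (a (l 17046536) (l 17034640)))))), by decide +kernel⟩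

def k1_pm_023 : ∃ t, chk3 f_pm_023 t 5 2 1 = true :=
  ⟨(a (a (b (b (l 14) (a (c (l 17035976) (l 16934008)) (b (l 14) (l 16996856)))) (c (b (b (l 17082888) (l 17118720)) (l 17154856)) (b (b (l 16963608) (l 16986320)) (l 72041944311)))) (b (b (l 2) (l 2)) (l 2))) (l 2)), by decide +kernel⟩

def k2_pm_023 : ∃ t, chk3 f_pm_023 t 2 3 1 = true :=
  ⟨(a (b (a (c (a (b (c (l 17371696) (l 17244976)) (c (l 17390856) (l 17266688))) (b (l 17286456) (l 17315072))) (a (a (b (c (l 17125200) (b (l 17009104) (l 17015296))) (c (b (l 17138440) (l 17148192)) (b (l 17021032) (a (l 17022144) (l 17031544))))) (b (b (l 17069416) (l 17079264)) (b (l 17089224) (l 17100048)))) (b (a (l 17078248) (l 17080136)) (b (l 17099320) (l 17113688))))) (b (c (a (l 17259528) (l 17230200)) (a (l 17079344) (l 17072536))) (c (a (l 17296256) (l 17272192)) (a (b (l 17104520) (l 17122632)) (b (l 17101688) (l 2)))))) (b (b (a (c (a (c (l 17403800) (l 17283592)) (l 17338016)) (a (a (c (l 17158864) (b (b (l 17031416)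 (l 17035064)) (l 17042720))) (b (l 17109312) (l 17117704))) (b (l 17125568) (l 17134464)))) (a (a (c (l 17329184) (l 42514227799)) (l 2)) (l 2))) (a (c (a (l 17348040) (l 17342464)) (a (c (l 17183688) (a (b (l 17056144) (l 17073080)) (l 17083488))) (l 17152440))) (l 2))) (a (a (c (b (l 17358784) (l 17371544)) (c (b (l 17212752) (l 17247960)) (c (b (l 17138728) (l 17183784)) (a (b (b (l 17066576) (l 17090704)) (b (l 17117104) (l 17145016))) (b (l 17098464) (l 17148032)))))) (c (l 17373632) (b (l 17183648) (l 2)))) (l 2)))) (b (l 2) (l 2))), by decide +kernel⟩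

def k3_pm_023 : ∃ t, chk3 f_pm_023 t 3 1 1 = true :=
  ⟨(l 2), by decide +kernel⟩

theorem s4_pm_023 : ∃ t, chk3 f_pm_023 t 2 2 1 = true := ex3_a k0_pm_023 k1_pm_023

theorem s5_pm_023 : ∃ t, chk3 f_pm_023 t 2 1 1 = true := ex3_b s4_pm_023 k2_pm_023

theorem s6_pm_023 : ∃ t, chk3 f_pm_023 t 1 1 1 = true := ex3_a s5_pm_023 k3_pm_023

theorem c_pm_023 : CertF 0 536870912 0 536870912 201326592 134217728 true true false .up 0 2 3
    ndF0q0 ndF0q2 pcF3 cut_pm_023 Ext.none :=
  certF2 (fam := true) (s1 := true) (s2 := false) (a := 0) (b := 2) (c := 3) (cn := .up) (n1 := ndF0q0) (n2 := ndF0q2) (pc := pcF3) (cut := cut_pm_023) (xt := Ext.none) (P1 := 0) (W1 := 536870912) (P2 := 0) (W2 := 536870912) (P3 := 201326592) (W3 := 134217728)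
    rfl (fun _ => rfl) s6_pm_023

noncomputable def cut_pm_101 : Cut := Cut.of [[⟨3, 0, 0, 1449551462⟩], [⟨4, 0, 0, 2845415833⟩], [⟨0, 1, 0, 67108864⟩, ⟨1, 0, 0, 67108864⟩, ⟨2, 1, 0, 67108864⟩]]

noncomputable def f_pm_101 : ℕ → ℕ → ℕ → ℕ → Bool := onCell 536870912 536870912 536870912 536870912 201326592 134217728
    (rowF 1 true true false .npn 1 0 1 (qsf 536870912 536870912 0 536870912 1) ndF0q1 ndF0q0 pcF1 cut_pm_101 Ext.none)

def k0_pm_101 : ∃ t, chk3 f_pm_101 t 1 1 1 = true :=
  ⟨(l 6), by decide +kernel⟩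

theorem c_pm_101 : CertF 536870912 536870912 0 536870912 201326592 134217728 true true false .npn 1 0 1
    ndF0q1 ndF0q0 pcF1 cut_pm_101 Ext.none :=
  certF1 (fam := true) (s1 := true) (s2 := false) (a := 1) (b := 0) (c := 1) (cn := .npn) (n1 := ndF0q1) (n2 := ndF0q0) (pc := pcF1) (cut := cut_pm_101) (xt := Ext.none) (P1 := 536870912) (W1 := 536870912) (P2 := 0) (W2 := 536870912) (P3 := 201326592) (W3 := 134217728)
    rfl (fun _ => rfl) k0_pm_101

noncomputable def cut_pm_102 : Cut := Cut.of [[⟨3, 0, 0, 1449551462⟩], [⟨4, 0, 0, 2845415833⟩], [⟨0, 1, 0, 67108864⟩, ⟨1, 0, 0, 67108864⟩, ⟨2, 1, 0, 67108864⟩], [⟨0, 1, 0, 16777216⟩, ⟨1, 0, 1, 67108864⟩, ⟨2, 1, 1, 67108864⟩]]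

noncomputable def f_pm_102 : ℕ → ℕ → ℕ → ℕ → Bool := onCell 536870912 536870912 0 536870912 201326592 134217728
    (rowF 0 true true false .npp 1 0 2 (qsf 536870912 536870912 0 536870912 2) ndF0q1 ndF0q0 pcF2 cut_pm_102 Ext.none)

def k0_pm_102 : ∃ t, chk3 f_pm_102 t 2 1 1 = true :=
  ⟨(l 6), by decide +kernel⟩

def k1_pm_102 : ∃ t, chk3 f_pm_102 t 3 2 1 = true :=
  ⟨(a (l 6) (b (l 6) (a (l 6) (b (l 6) (a (l 6) (a (l 6) (b (l 6) (c (c (b (a (l 6) (l 30)) (c (a (b (l 16993120) (l 17032296)) (b (l 30) (l 17051552))) (a (b (a (l 6) (l 30)) (l 16888040)) (l 30)))) (a (a (a (b (l 6) (c (l 16717328) (l 16714344))) (l 30)) (l 30)) (l 30))) (a (b (l 6) (c (a (a (b (l 6) (l 16704424)) (l 30)) (l 30)) (a (b (l 6) (l 16689200)) (c (b (l 16689704) (l 16690568)) (b (l 16682600) (l 16683112)))))) (b (c (c (l 30) (b (a (l 6) (c (l 30) (a (l 16690208) (b (l 16689080) (l 30))))) (a (c (l 30) (l 16692136)) (l 30)))) (b (a (l 6) (a (c (l 16685192) (l 16678528)) (c (b (l 16684080) (l 16683952))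 (l 16677248)))) (c (a (l 16692200) (c (b (l 16686256) (a (l 16686960) (l 30))) (b (l 16682784) (l 16682776)))) (a (l 16680064) (b (l 16677584) (l 16677456)))))) (c (l 30) (b (c (a (c (l 16689128) (l 16685512)) (c (l 30) (b (l 16682840) (a (l 16683672) (l 30))))) (a (l 16680096) (b (l 16682640) (c (l 16679272) (l 16675568))))) (c (a (c (l 30) (l 16686144)) (l 30)) (a (l 16680472) (a (l 16678328) (b (l 16676768) (l 16676912))))))))))))))))), by decide +kernel⟩

def k2_pm_102 : ∃ t, chk3 f_pm_102 t 6 3 1 = true :=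
  ⟨(b (l 6) (a (l 6) (a (b (l 6) (b (l 6) (a (c (l 17105200) (l 17050024)) (c (l 17132256) (l 17073776))))) (a (b (l 6) (b (c (b (l 17110592) (l 17131792)) (b (l 17033560) (l 17060144))) (c (l 17158072) (l 17115576)))) (b (b (l 6) (b (l 6) (c (l 17118512) (l 17025112)))) (c (b (b (l 17140712) (l 17159880)) (l 17183072)) (b (l 17066232) (l 17111216)))))))), by decide +kernel⟩

def k3_pm_102 : ∃ t, chk3 f_pm_102 t 14 6 1 = true :=
  ⟨(a (l 6) (b (l 6) (a (b (l 6) (c (c (b (l 17125656) (l 17155776)) (b (l 17039920) (l 17074032))) (b (c (l 16934304) (l 16871744)) (c (l 16993400) (l 16913888))))) (c (b (b (l 6) (c (l 17133176) (l 17012376))) (c (l 17181000) (b (l 17071200) (l 17105232)))) (b (a (l 6) (b (l 6) (a (l 16850232) (l 16838152)))) (b (c (l 16977208) (l 16884048)) (c (l 17016248) (l 16928104)))))))), by decide +kernel⟩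

def k4_pm_102 : ∃ t, chk3 f_pm_102 t 30 12 1 = true :=
  ⟨(c (b (a (l 6) (a (l 6) (a (l 6) (b (l 6) (c (l 17049136) (l 16868560)))))) (c (a (b (l 6) (l 17096016)) (b (l 17026160) (l 17136520))) (a (b (l 6) (a (l 6) (l 16980032))) (b (a (l 16875696) (l 16908752)) (a (l 16993664) (l 17007208)))))) (b (b (l 6) (b (l 6) (a (l 6) (a (l 6) (c (l 16748408) (l 16712872)))))) (b (a (l 6) (c (a (l 16777080) (l 16728928)) (a (l 16727576) (c (l 16723920) (l 16715088))))) (a (a (l 6) (c (l 16812280) (l 16746680))) (c (a (l 16840048) (l 16846744)) (a (l 16739144) (l 16730952))))))), by decide +kernel⟩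

def k5_pm_102 : ∃ t, chk3 f_pm_102 t 31 24 1 = true :=
  ⟨(c (a (c (b (a (c (l 17044384) (l 16956144)) (c (l 17065024) (l 16972408))) (a (l 17063480) (l 17083016))) (c (b (a (b (l 6) (l 16886528)) (b (l 16859792) (l 16899024))) (a (l 16939216) (l 16911096))) (a (b (a (l 6) (l 16718224)) (b (l 16837920) (l 16874064))) (b (a (l 16711608) (a (l 16766920) (l 16747856))) (b (l 16826488) (l 16884568)))))) (c (b (b (c (l 17078520) (a (l 16969800) (l 30))) (a (l 17033344) (l 16988576))) (a (l 17081264) (c (l 17167976) (l 17073664)))) (b (a (a (a (c (l 16845192) (l 16713040)) (l 30)) (l 30)) (l 30)) (c (a (b (l 16948832) (l 16983664)) (b (l 30) (l 16996680))) (a (b (a (l 16854464) (l 30)) (l 16852752)) (l 30)))))) (a (b (b (a (l 6) (a (l 6) (c (l 16707968) (l 16692712)))) (c (a (c (l 16719056) (l 16711312)) (c (l 16716528) (l 16707624))) (a (c (l 16703632) (l 16696024)) (c (l 16699656) (l 16691744))))) (c (a (c (a (l 16708624) (l 16753672)) (b (l 16714704) (l 16718752))) (c (b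 (l 16717248) (l 16778224)) (a (l 16713488) (l 16711224)))) (a (b (c (l 16706576) (l 16698520)) (c (l 16710160) (l 16701648))) (a (c (l 16704944) (l 16696448)) (c (l 16702576) (l 16693968)))))) (a (a (a (c (b (c (l 16711592) (l 16703640)) (c (l 16709888) (l 16709304))) (b (c (l 16695736) (l 16687864)) (c (l 16700592) (l 16691912)))) (c (l 30) (b (c (l 30) (l 16686600)) (l 30)))) (c (l 30) (b (c (l 30) (b (l 16684024) (l 16685336))) (l 30)))) (b (c (l 30) (c (l 30) (c (b (a (l 16683176) (l 30)) (l 30)) (b (a (l 16679224) (b (l 16675976) (l 16676264))) (a (l 16680232) (l 30)))))) (l 30))))), by decide +kernel⟩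

def k6_pm_102 : ∃ t, chk3 f_pm_102 t 31 25 1 = true :=
  ⟨(c (a (c (b (l 17107784) (l 17176784)) (b (a (l 16921264) (c (l 17017000) (l 16935832))) (a (l 17020904) (l 17034760)))) (c (b (c (l 17210736) (l 17124520)) (l 17215344)) (b (b (c (l 17022904) (a (l 16930064) (l 30))) (a (l 17004592) (l 16974424))) (a (l 17047840) (c (l 17100904) (l 17018560)))))) (a (c (b (a (a (l 16721728) (l 16704048)) (a (l 16717936) (c (l 16835600) (l 16711528)))) (a (a (l 16830728) (l 16855720)) (b (c (l 16904968) (l 16827600)) (l 16856592)))) (b (a (a (c (l 16717848) (l 16708672)) (l 16710656)) (b (c (l 16709368) (l 16700136)) (c (l 16713864) (l 16704168)))) (a (a (c (l 16764000) (l 16719352)) (l 16707768)) (b (l 16713960) (l 16717240))))) (c (b (a (a (c (b (l 16842272) (l 16877944)) (l 16713696)) (l 30)) (l 30)) (a (a (b (l 16787576) (l 16882968)) (b (l 30) (l 16812744))) (c (b (l 30) (l 16951600)) (l 30)))) (c (a (a (b (l 16712032) (l 16712672)) (l 30)) (l 30)) (a (a (b (l 16697232) (l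 16710856)) (l 30)) (l 30)))))), by decide +kernel⟩

def k7_pm_102 : ∃ t, chk3 f_pm_102 t 30 13 1 = true :=
  ⟨(c (b (c (a (b (l 17137320) (l 17173880)) (l 17196792)) (a (b (a (l 17013592) (l 17028224)) (l 17063808)) (b (l 17050064) (l 17093920)))) (c (a (l 17220360) (l 17259232)) (a (l 17119480) (l 17149808)))) (b (c (a (b (a (l 16900640) (l 16909280)) (a (l 16949256) (l 16959120))) (b (a (l 16917832) (l 16926256)) (l 16910784))) (a (b (a (l 16788208) (l 16790680)) (a (l 16842904) (l 16847288))) (b (a (l 16793024) (l 16753256)) (a (l 16851520) (l 16855544))))) (a (c (b (l 16998672) (l 17038536)) (b (l 16874832) (l 16941688))) (c (b (l 17019608) (l 17060240)) (b (a (l 16904184) (l 16909520)) (l 16954568)))))), by decide +kernel⟩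

def k8_pm_102 : ∃ t, chk3 f_pm_102 t 31 13 1 = true :=
  ⟨(b (c (a (c (l 17236624) (b (l 17036864) (l 17123128))) (c (b (l 17255904) (l 17290224)) (b (a (l 17098688) (l 17110384)) (l 17148448)))) (a (c (b (a (l 16913768) (c (l 16978848) (l 16907600))) (a (l 16987840) (l 16996504))) (a (b (a (l 16733728) (l 16756368)) (a (l 16858352) (l 16860424))) (a (b (l 16716064) (l 16820296)) (b (c (l 16816232) (l 16702264)) (c (l 16897320) (l 16787928)))))) (b (c (c (a (l 16987560) (l 16994632)) (a (b (l 16898360) (l 16928016)) (b (l 30) (l 16931984)))) (a (a (b (l 16711696) (c (l 16854480) (l 16782240))) (l 30)) (l 30))) (b (c (a (l 16991048) (l 16996400)) (a (c (l 16885128) (a (l 16814608) (l 30))) (l 30))) (c (a (l 17015848) (l 17020992)) (a (c (l 16913272) (a (l 16844984) (l 30))) (c (l 16913968) (l 30)))))))) (c (a (c (l 17296952) (b (l 17161560) (l 17194648))) (c (l 17331520) (b (l 17185912) (l 17216520)))) (a (b (c (a (l 17034672) (l 17043208)) (a (a (l 16913360) (l 16915696))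 (b (l 16884008) (l 16930880)))) (c (a (l 17075776) (l 17084008)) (a (l 16942416) (b (l 16955216) (l 16978072))))) (c (b (a (l 17049984) (l 17054768)) (a (l 17090216) (l 17094280))) (b (c (a (l 16952168) (b (l 16940104) (l 16964512))) (a (b (l 16831392) (l 16900064)) (b (l 30) (a (l 16898304) (l 16896208))))) (a (b (l 16956256) (l 16978800)) (b (l 16912768) (a (l 16977648) (l 16975936))))))))), by decide +kernel⟩

def k9_pm_102 : ∃ t, chk3 f_pm_102 t 14 7 1 = true :=
  ⟨(b (a (b (c (a (a (l 6) (b (l 6) (l 17109824))) (c (l 17156928) (b (l 17073616) (l 17102344)))) (a (b (l 6) (c (l 17012584) (l 16955440))) (b (c (l 17004624) (l 16936976)) (l 16983608)))) (c (a (c (l 17166816) (l 17111336)) (c (l 17201584) (l 17140488))) (a (b (l 17015656) (l 17045440)) (b (l 17036184) (l 17065288))))) (c (b (c (a (l 17194728) (l 17231720)) (a (l 17119256) (l 17149448))) (c (l 17252216) (a (l 17168928) (l 17196560)))) (b (a (b (c (l 17028432) (l 16953016)) (l 17003776)) (b (c (l 17051576)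 (l 16968376)) (l 17002256))) (a (b (l 17056072) (l 17084488)) (b (l 17075216) (l 17102960)))))) (a (c (b (a (l 17179344) (l 17207440)) (l 17219832)) (b (a (l 17084960) (l 17103216)) (l 17135000))) (c (b (a (l 17234760) (l 17261224)) (l 17266224)) (b (a (l 17120848) (l 17137808)) (l 17164888))))), by decide +kernel⟩

def k10_pm_102 : ∃ t, chk3 f_pm_102 t 15 7 1 = true :=
  ⟨(a (b (c (b (c (l 17286096) (a (l 17179008) (l 17207992))) (c (l 17317016) (l 17236864))) (b (a (b (c (l 17074096) (l 16983056)) (c (l 17105712) (l 17020344))) (c (l 17091256) (b (l 16997016) (l 17034832)))) (a (c (l 17146256) (l 17069216)) (c (l 17166864) (l 17083648))))) (c (b (l 17299768) (l 17309872)) (b (a (l 17154168) (l 17170016)) (l 17192752)))) (b (a (a (c (b (l 17237536) (l 17312504)) (b (b (c (l 17111656) (l 17006600)) (c (l 17142760) (l 17044688))) (b (l 17061072) (l 17150216)))) (c (b (l 17294168) (l 17326168)) (b (b (c (l 17119480) (l 17009752)) (l 17036536)) (l 17102216)))) (b (b (c (l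 17283176) (c (a (l 17125288) (l 17130224)) (a (b (l 16999232) (l 17020200)) (b (l 16998536) (l 17021176))))) (c (l 17324528) (a (c (l 17157168) (l 17050048)) (l 17002816)))) (c (l 17345800) (c (l 17200616) (b (l 17087120) (l 17118112)))))) (c (b (l 17348664) (l 17351192)) (b (a (c (l 17222984) (l 17146264)) (l 17154472)) (a (l 17212088) (l 17223144)))))), by decide +kernel⟩

theorem s11_pm_102 : ∃ t, chk3 f_pm_102 t 7 7 1 = true := ex3_a k9_pm_102 k10_pm_102

theorem s12_pm_102 : ∃ t, chk3 f_pm_102 t 15 13 1 = true := ex3_a k7_pm_102 k8_pm_102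

theorem s13_pm_102 : ∃ t, chk3 f_pm_102 t 31 12 1 = true := ex3_b k5_pm_102 k6_pm_102

theorem s14_pm_102 : ∃ t, chk3 f_pm_102 t 15 12 1 = true := ex3_a k4_pm_102 s13_pm_102

theorem s15_pm_102 : ∃ t, chk3 f_pm_102 t 15 6 1 = true := ex3_b s14_pm_102 s12_pm_102

theorem s16_pm_102 : ∃ t, chk3 f_pm_102 t 7 6 1 = true := ex3_a k3_pm_102 s15_pm_102

theorem s17_pm_102 : ∃ t, chk3 f_pm_102 t 7 3 1 = true := ex3_b s16_pm_102 s11_pm_102

theorem s18_pm_102 : ∃ t, chk3 f_pm_102 t 3 3 1 = true := ex3_a k2_pm_102 s17_pm_102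

theorem s19_pm_102 : ∃ t, chk3 f_pm_102 t 3 1 1 = true := ex3_b k1_pm_102 s18_pm_102

theorem s20_pm_102 : ∃ t, chk3 f_pm_102 t 1 1 1 = true := ex3_a k0_pm_102 s19_pm_102

theorem c_pm_102 : CertF 536870912 536870912 0 536870912 201326592 134217728 true true false .npp 1 0 2
    ndF0q1 ndF0q0 pcF2 cut_pm_102 Ext.none :=
  certF0 (fam := true) (s1 := true) (s2 := false) (a := 1) (b := 0) (c := 2) (cn := .npp) (n1 := ndF0q1) (n2 := ndF0q0) (pc := pcF2) (cut := cut_pm_102) (xt := Ext.none) (P1 := 536870912) (W1 := 536870912) (P2 := 0) (W2 := 536870912) (P3 := 201326592) (W3 := 134217728)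
    rfl s20_pm_102

noncomputable def cut_pm_112 : Cut := Cut.of [[⟨3, 0, 0, 1449551462⟩], [⟨4, 0, 0, 2845415833⟩]]

noncomputable def f_pm_112 : ℕ → ℕ → ℕ → ℕ → Bool := onCell 536870912 536870912 536870912 536870912 201326592 134217728
    (rowF 0 true true false .dn 1 1 2 (qsf 536870912 536870912 536870912 536870912 2) ndF0q1 ndF0q1 pcF2 cut_pm_112 Ext.none)

def k0_pm_112 : ∃ t, chk3 f_pm_112 t 2 1 1 = true :=
  ⟨(b (a (b (l 6) (b (l 6) (a (l 6) (c (a (b (l 6) (l 17072944)) (l 17083968)) (a (b (l 6) (l 17051536)) (b (l 17031752) (l 17088040))))))) (b (a (l 6) (b (l 6) (c (b (a (l 6) (l 17072944)) (l 17083968)) (b (a (l 6) (l 17051536)) (a (l 17031752) (l 17088040)))))) (a (b (a (b (l 6) (l 17017584)) (c (l 17078408) (l 17020368))) (c (l 17125176) (a (l 17104832) (l 17133184)))) (b (c (l 17125176) (b (l 17104832) (l 17133184))) (c (l 17161880) (l 17166256)))))) (a (b (b (b (a (a (l 6) (c (l 17086488) (l 17032512))) (c (l 17171728) (a (l 17089472) (l 17118352)))) (a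 (c (a (l 17102072) (l 17132248)) (a (a (l 17047448) (l 17067416)) (l 17093824))) (c (l 17163536) (l 17071376)))) (a (b (a (c (l 17150296) (l 17100576)) (c (l 17172288) (l 17129616))) (c (a (l 17214640) (l 17207272)) (a (b (l 17129200) (l 17144168)) (l 17159720)))) (b (c (l 17191536) (l 17158936)) (c (l 17214344) (l 17241360))))) (b (a (b (c (a (l 17234800) (l 17240504)) (a (l 17163376) (l 17181256))) (c (a (l 17273536) (l 17272096)) (a (l 17187528) (l 17199616)))) (b (c (l 17318920) (l 17380720)) (c (l 17256416) (l 17201792)))) (b (a (c (l 17306392) (a (l 17210080) (l 17216776))) (c (l 17275744) (l 17210880))) (a (c (a (l 17343656) (l 17328232)) (a (l 17251848) (l 17232680))) (l 2))))) (b (a (b (c (l 17173752) (l 17157864)) (a (l 17293920) (l 17184944))) (b (l 17238248) (l 17170360))) (b (a (c (l 17442440) (l 17432272)) (l 2)) (l 2))))), by decide +kernel⟩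

def k1_pm_112 : ∃ t, chk3 f_pm_112 t 3 1 1 = true :=
  ⟨(b (a (b (a (a (b (b (l 6) (c (l 17086488) (l 17032512))) (c (l 17171728) (b (l 17089472) (l 17118352)))) (b (c (b (l 17102072) (l 17132248)) (b (b (l 17047448) (l 17067416)) (l 17093824))) (c (l 17163536) (l 17071376)))) (b (a (b (c (l 17150296) (l 17100576)) (c (l 17172288) (l 17129616))) (c (b (l 17214640) (l 17207272)) (b (a (l 17129200) (l 17144168)) (l 17159720)))) (a (c (l 17191536) (l 17158936)) (c (l 17214344) (l 17241360))))) (b (a (c (l 17173752) (l 17157864)) (a (l 17183616) (l 17190224))) (a (l 17238248) (l 17170360)))) (a (b (b (a (c (b (l 17234800) (l 17240504)) (b (l 17163376) (l 17181256))) (c (b (l 17273536) (l 17272096)) (b (l 17187528) (l 17199616)))) (a (c (l 17318920) (l 17380720)) (c (l 17256416) (l 17201792)))) (b (c (l 17442440) (l 17432272)) (l 2))) (b (a (b (c (l 17306392) (b (l 17210080) (l 17216776))) (c (l 17275744) (l 17210880))) (b (c (b (l 17343656) (l 17328232)) (b (l 17251848)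 (l 17232680))) (l 2))) (l 2)))) (a (b (a (c (l 17235864) (l 17276760)) (l 2)) (l 2)) (l 2))), by decide +kernel⟩

theorem s2_pm_112 : ∃ t, chk3 f_pm_112 t 1 1 1 = true := ex3_a k0_pm_112 k1_pm_112

theorem c_pm_112 : CertF 536870912 536870912 536870912 536870912 201326592 134217728 true true false .dn 1 1 2
    ndF0q1 ndF0q1 pcF2 cut_pm_112 Ext.none :=
  certF0 (fam := true) (s1 := true) (s2 := false) (a := 1) (b := 1) (c := 2) (cn := .dn) (n1 := ndF0q1) (n2 := ndF0q1) (pc := pcF2) (cut := cut_pm_112) (xt := Ext.none) (P1 := 536870912) (W1 := 536870912) (P2 := 536870912) (W2 := 536870912) (P3 := 201326592) (W3 := 134217728)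
    rfl s2_pm_112

noncomputable def cut_pm_113 : Cut := Cut.of [[⟨3, 0, 0, 1449551462⟩], [⟨4, 0, 0, 2845415833⟩], [⟨0, 1, 0, 57167902⟩, ⟨1, 1, 0, 57167902⟩, ⟨2, 2, 0, 11758673⟩]]

noncomputable def f_pm_113 : ℕ → ℕ → ℕ → ℕ → Bool := onCell 536870912 536870912 536870912 536870912 201326592 134217728
    (rowF 0 true true false .nn 1 1 3 (qsf 536870912 536870912 536870912 536870912 3) ndF0q1 ndF0q1 pcF3 cut_pm_113 Ext.none)

def k0_pm_113 : ∃ t, chk3 f_pm_113 t 2 1 1 = true :=
  ⟨(b (a (l 1) (a (l 1) (b (l 1) (b (l 1) (l 106335083287))))) (b (a (b (l 1) (a (l 1) (c (l 93450160695) (l 107408610599)))) (b (a (c (l 98818680199) (l 93449920055)) (c (l 17189072) (l 17169368))) (a (c (l 17240168) (l 17178664)) (a (l 17196760) (l 17180752))))) (a (b (b (a (l 1) (c (l 17327752) (l 100429369143))) (a (c (l 95061141479) (l 119756568519)) (c (l 17292216) (l 17203232)))) (c (b (a (l 73586342439) (l 17289320)) (a (b (l 54258981095) (l 17376976)) (c (l 17535528) (l 17525256)))) (b (a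 (a (l 124588356647) (l 17211096)) (l 17213232)) (b (a (c (l 17295440) (a (b (l 131030808775) (a (l 133178303863) (l 17190704))) (l 17199000))) (a (l 17223408) (l 17209560))) (a (c (l 17263936) (a (a (b (l 132104529223) (l 17138552)) (l 17192744)) (l 17203696))) (l 17222400)))))) (b (a (c (l 15067423511) (c (l 17439992) (l 9698555527))) (a (l 17362384) (b (l 17174728) (l 17159944)))) (b (c (a (l 17290936) (l 17149184)) (a (l 17184304) (l 17130144))) (a (c (b (l 17202736) (l 17353848)) (a (l 17355680) (l 17157136))) (a (l 17357200) (l 17268192)))))))), by decide +kernel⟩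

def k1_pm_113 : ∃ t, chk3 f_pm_113 t 3 2 1 = true :=
  ⟨(a (b (a (l 1) (b (l 1) (c (l 93450160519) (l 107408610599)))) (a (b (c (l 98818680199) (l 93449920055)) (c (l 17189072) (l 17169368))) (b (c (l 17240168) (l 17178664)) (b (l 17196760) (l 17180752))))) (b (a (a (b (l 1) (c (l 17327752) (l 100429369143))) (b (c (l 76807530471) (l 119756568519)) (c (l 17292216) (l 17203232)))) (c (a (b (l 59090827815) (l 17289320)) (b (a (l 54258981095) (l 17376976)) (c (l 17535528) (l 17525256)))) (a (b (b (l 124588356647) (l 17211096)) (l 17213232)) (a (b (c (l 17295440) (b (a (l 131030808439) (a (l 131567711095) (l 129957069367))) (l 17199000))) (b (l 17223408) (l 17209560))) (b (c (l 17263936) (b (a (l 131030823607) (b (l 17138552) (l 17193128))) (l 17203696))) (l 17222400)))))) (a (b (c (l 15067423511) (c (l 17439992) (l 9698555527))) (b (l 17362384) (a (l 17174728) (l 17159944)))) (a (c (b (l 17290936) (l 17149184)) (b (l 17184304) (l 17130144))) (b (c (a (l 17202736) (l 17353848))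 (b (l 17355680) (l 17157136))) (b (l 17357200) (l 17268192))))))), by decide +kernel⟩

def k2_pm_113 : ∃ t, chk3 f_pm_113 t 3 3 1 = true :=
  ⟨(b (a (a (c (l 17222768) (l 17257944)) (l 17349024)) (a (b (c (l 17263816) (l 17230608)) (l 17047064)) (a (b (l 17130128) (c (l 17096512) (l 17138808))) (b (b (l 17209912) (l 17212256)) (a (l 17136424) (c (l 17043784) (a (l 16985776) (l 17099848)))))))) (a (b (a (c (l 17263816) (l 17230608)) (l 17047064)) (b (a (l 17130128) (c (l 17096512) (l 17138808))) (a (a (l 17209912) (l 17212256)) (b (l 17136424) (c (l 17043784) (a (l 16991776) (l 16965912))))))) (b (a (l 16973744) (b (a (l 17092936) (c (l 17139392) (b (l 17089288) (a (l 16921224) (l 16926592))))) (a (l 17080016) (a (c (l 16962552) (l 16957056)) (l 14))))) (a (a (b (l 17092936) (c (l 17139392) (a (l 17089288) (b (l 16921224) (l 16926592))))) (b (l 17080016) (b (c (l 16962552) (l 16957056)) (l 14)))) (b (a (l 16876496) (l 14)) (l 14)))))), by decide +kernel⟩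

theorem s3_pm_113 : ∃ t, chk3 f_pm_113 t 3 1 1 = true := ex3_b k1_pm_113 k2_pm_113

theorem s4_pm_113 : ∃ t, chk3 f_pm_113 t 1 1 1 = true := ex3_a k0_pm_113 s3_pm_113

theorem c_pm_113 : CertF 536870912 536870912 536870912 536870912 201326592 134217728 true true false .nn 1 1 3
    ndF0q1 ndF0q1 pcF3 cut_pm_113 Ext.none :=
  certF0 (fam := true) (s1 := true) (s2 := false) (a := 1) (b := 1) (c := 3) (cn := .nn) (n1 := ndF0q1) (n2 := ndF0q1) (pc := pcF3) (cut := cut_pm_113) (xt := Ext.none) (P1 := 536870912) (W1 := 536870912) (P2 := 536870912) (W2 := 536870912) (P3 := 201326592) (W3 := 134217728)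
    rfl s4_pm_113

noncomputable def cut_pm_123 : Cut := Cut.of [[⟨3, 0, 0, 1449551462⟩], [⟨4, 0, 0, 2845415833⟩], [⟨0, 1, 0, 57167902⟩, ⟨1, 1, 0, 57167902⟩, ⟨2, 2, 0, 11758673⟩]]

noncomputable def f_pm_123 : ℕ → ℕ → ℕ → ℕ → Bool := onCell 1610612736 536870912 0 536870912 201326592 134217728
    (rowF 2 true true false .npn 1 2 3 (qsf 536870912 536870912 0 536870912 3) ndF0q1 ndF0q2 pcF3 cut_pm_123 Ext.none)

def k0_pm_123 : ∃ t, chk3 f_pm_123 t 2 2 1 = true :=
  ⟨(a (b (l 1) (a (l 1) (a (l 1) (b (l 1) (c (l 17191120) (l 17034680)))))) (a (b (b (l 14) (a (a (l 1) (b (l 14) (l 16996864))) (l 14))) (c (b (a (b (l 17082920) (l 17118752)) (b (l 17036424) (a (l 17087104) (l 17064024)))) (a (l 17154888) (b (l 17105328) (l 17129944)))) (b (a (b (l 16963624) (l 17007304)) (a (b (l 16947000) (l 16970608)) (l 16968072))) (a (b (l 17007976) (l 17029056)) (b (a (l 16992896) (l 16981720)) (l 17009640)))))) (b (l 14) (a (b (b (l 14) (c (a (l 17041368) (l 17018768)) (a (l 16947152)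 (l 16934544)))) (c (b (a (l 17075688) (b (l 17046168) (l 17062712))) (l 17091592)) (b (a (l 16969904) (l 16978416)) (a (l 16992496) (l 16980000))))) (b (l 14) (c (b (a (b (l 17023400) (l 17041152)) (l 14)) (a (l 17040376) (b (c (l 17064912) (l 17007352)) (l 17047688)))) (b (a (b (l 16938720) (l 16949912)) (l 14)) (a (b (l 16961048) (l 16972528)) (b (a (l 16950816) (l 16943896)) (l 16958656)))))))))), by decide +kernel⟩

def k1_pm_123 : ∃ t, chk3 f_pm_123 t 4 3 1 = true :=
  ⟨(b (a (l 1) (b (a (l 1) (c (l 17230248) (b (l 17063352) (l 17082200)))) (c (a (l 17296320) (l 17272200)) (a (b (l 17104536) (l 17122648)) (b (l 17101696) (l 17122416)))))) (b (b (a (a (l 1) (a (l 1) (c (l 17335600) (l 17133792)))) (c (a (l 17325048) (l 17305368)) (a (b (l 17137384) (l 17147048)) (c (l 17183760) (b (l 17100352) (l 17111056)))))) (a (a (l 1) (c (l 17342496) (l 17152440))) (c (a (l 17329032) (l 17309192)) (a (l 17163504) (l 17164472))))) (b (a (c (a (l 17358816) (l 17349552)) (a (c (l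 17212752) (l 136936271671)) (l 17183648))) (c (l 17319448) (a (l 17190568) (l 17186640)))) (a (c (a (l 17371560) (l 17355552)) (c (a (l 17247960) (l 17254144)) (a (a (c (l 17176736) (b (l 17117096) (l 18824708711))) (l 17168936)) (l 17183456)))) (c (l 17314496) (a (l 17219128) (l 17208016))))))), by decide +kernel⟩

def k2_pm_123 : ∃ t, chk3 f_pm_123 t 5 3 1 = true :=
  ⟨(b (a (b (c (a (l 17198336) (l 17164040)) (a (b (l 17049816) (l 17070592)) (b (l 17031520) (l 17053288)))) (c (a (l 17243824) (l 17210584)) (a (b (l 17091824) (l 17114248)) (b (l 17075552) (l 17098944))))) (b (a (c (b (l 17115224) (l 17138488)) (b (l 17008808) (l 17031144))) (c (b (a (l 17085656) (l 17065472)) (l 17098816)) (b (a (l 16989456) (l 16975632)) (a (l 17011936) (l 16998032))))) (a (c (b (l 17161888) (l 17186000)) (b (l 17053896) (l 17077744))) (c (b (l 17121744) (l 17144384)) (b (a (l 17034768) (l 17020560)) (c (l 17072192) (l 17031328))))))) (b (b (a (c (a (l 17278984) (l 17246952)) (a (c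 (l 17172168) (b (l 17098760) (l 17110280))) (c (l 17153376) (b (l 17088952) (l 17101216))))) (c (a (l 17210304) (l 17167144)) (a (c (l 17128456) (l 17078344)) (c (l 17097064) (l 17055016))))) (a (c (a (l 17283488) (l 17253768)) (a (l 17156960) (b (c (l 17168376) (l 17111648)) (l 17145592)))) (a (c (l 17218984) (b (c (l 17144952) (l 17095696)) (l 17123992))) (c (b (l 17180952) (l 17174048)) (b (c (l 17114496) (l 17072864)) (l 17096928)))))) (b (a (c (l 17256928) (a (l 17173840) (l 17153824))) (c (a (l 17197232) (l 17150912)) (a (l 17127448) (l 17095464)))) (a (a (l 17223864) (l 17187592)) (a (l 17334056) (l 17267016)))))), by decide +kernel⟩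

def k3_pm_123 : ∃ t, chk3 f_pm_123 t 3 1 1 = true :=
  ⟨(a (b (a (a (a (b (l 14) (a (b (l 14) (b (l 14) (b (l 14) (c (l 17032128) (l 16947864))))) (l 14))) (l 14)) (l 14)) (l 14)) (b (a (b (a (c (b (a (c (l 17072600) (l 17019376)) (b (l 14) (l 17028568))) (a (l 17067216) (l 17044584))) (b (a (b (l 16955496) (l 16966640)) (b (l 14) (l 16951160))) (a (l 16983184) (l 16967288)))) (a (b (l 14) (a (c (l 17026968) (l 16954832)) (c (l 17014896) (l 16946264)))) (l 14))) (a (c (b (c (l 17101832) (l 17054376)) (l 17098016)) (b (a (l 17005272) (l 16988856)) (a (l 17027832) (l 17010784)))) (c (b (a (l 17040872) (l 17015512)) (l 17047072)) (b (a (l 16971536) (l 16953504)) (a (l 16992800) (l 16974280)))))) (a (b (l 14) (b (l 14) (a (c (l 17008768) (l 16955488)) (l 14)))) (l 14))) (a (b (b (a (c (l 17117848) (l 17063272)) (c (l 17066264) (l 17026488))) (a (c (b (l 17132008) (l 17130000)) (b (l 17060208) (l 17065624))) (c (b (l 17080400) (l 17083400)) (b (l 17022832) (l 17030776)))))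 (b (a (c (l 17103408) (l 17060280)) (b (l 17046936) (l 17032824))) (c (l 17114592) (l 17086368)))) (b (b (a (c (l 17014432) (a (l 16976560) (l 16957096))) (l 14)) (a (c (l 17155712) (b (l 16983152) (l 16992664))) (c (l 17064344) (a (l 16957512) (l 14))))) (b (a (b (l 17007752) (l 16991624)) (a (b (l 16979640) (l 16962128)) (b (l 14) (l 16943216)))) (c (l 17063488) (l 17108416))))))) (a (b (l 14) (b (l 14) (l 14))) (l 14))), by decide +kernel⟩

theorem s4_pm_123 : ∃ t, chk3 f_pm_123 t 2 3 1 = true := ex3_a k1_pm_123 k2_pm_123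

theorem s5_pm_123 : ∃ t, chk3 f_pm_123 t 2 1 1 = true := ex3_b k0_pm_123 s4_pm_123

theorem s6_pm_123 : ∃ t, chk3 f_pm_123 t 1 1 1 = true := ex3_a s5_pm_123 k3_pm_123

theorem c_pm_123 : CertF 536870912 536870912 0 536870912 201326592 134217728 true true false .npn 1 2 3
    ndF0q1 ndF0q2 pcF3 cut_pm_123 Ext.none :=
  certF2 (fam := true) (s1 := true) (s2 := false) (a := 1) (b := 2) (c := 3) (cn := .npn) (n1 := ndF0q1) (n2 := ndF0q2) (pc := pcF3) (cut := cut_pm_123) (xt := Ext.none) (P1 := 536870912) (W1 := 536870912) (P2 := 0) (W2 := 536870912) (P3 := 201326592) (W3 := 134217728)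
    rfl (fun _ => rfl) s6_pm_123

noncomputable def cut_pm_202 : Cut := Cut.of [[⟨3, 0, 0, 1449551462⟩], [⟨4, 0, 0, 2845415833⟩], [⟨0, 1, 0, 67108864⟩, ⟨1, 0, 0, 67108864⟩, ⟨2, 1, 0, 67108864⟩], [⟨0, 1, 0, 16777216⟩, ⟨1, 0, 1, 67108864⟩, ⟨2, 1, 1, 67108864⟩]]

noncomputable def f_pm_202 : ℕ → ℕ → ℕ → ℕ → Bool := onCell 0 536870912 1073741824 536870912 201326592 134217728
    (rowF 1 true true false .pp 2 0 2 (qsf 0 536870912 0 536870912 2) ndF0q2 ndF0q0 pcF2 cut_pm_202 Ext.none)

def k0_pm_202 : ∃ t, chk3 f_pm_202 t 4 2 1 = true :=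
  ⟨(b (l 1) (b (b (b (l 1) (b (a (l 1) (c (a (l 1) (l 16540080)) (l 16544568))) (b (a (l 1) (c (l 16561720) (l 16541160))) (a (c (a (l 16558680) (l 16571448)) (l 16620568)) (c (c (l 16600048) (l 16580904)) (a (l 16543344) (l 16555328))))))) (a (b (c (a (l 16551672) (l 16543720)) (l 16573320)) (c (l 16577160) (l 16542240))) (c (b (a (l 16535992) (l 16527128)) (l 16560568)) (b (l 16554344) (l 16543080))))) (b (a (c (a (l 16559720) (l 16552832)) (l 16610368)) (c (a (l 16545920) (l 16537496)) (l 16590048))) (a (c (a (l 16647944) (l 16646048)) (l 16564776)) (c (a (l 16644360) (l 16642648)) (l 16545888)))))), by decide +kernel⟩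

def k1_pm_202 : ∃ t, chk3 f_pm_202 t 5 2 1 = true :=
  ⟨(b (a (l 1) (a (l 1) (b (l 1) (b (l 1) (b (l 1) (b (l 1) (c (l 16572192) (l 16539568)))))))) (b (b (b (b (a (l 1) (c (a (l 16559144) (l 16545696)) (a (l 16532024) (l 16529840)))) (a (a (c (l 16535608) (l 16536760)) (c (l 16514768) (l 16529832))) (c (c (l 16554208) (l 16552176)) (l 16576560)))) (b (a (c (a (l 16529624) (l 16520280)) (l 16569712)) (c (c (l 16547520) (l 16555952)) (l 16559472))) (b (a (c (l 16542000) (l 16523880)) (c (l 16540920) (l 16534104))) (a (c (a (l 16585960) (l 16576456)) (c (l 16604976) (l 16605432))) (c (a (l 16580864) (b (l 16511208) (l 16531480))) (a (l 16575128) (l 16592608))))))) (a (b (c (a (l 16516544) (l 16506992)) (l 16557240)) (c (l 16545392) (l 16523448))) (c (b (a (l 16521864) (l 16531168)) (a (l 16509704) (l 16533744))) (b (l 16545640) (l 16559576))))) (a (b (c (b (l 16527192) (l 16514704)) (b (l 16490384) (l 16478896))) (c (a (l 16641192) (l 16641168)) (l 16530168))) (b (c (a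 (b (l 16492168) (l 16494760)) (b (l 16513776) (l 16513528))) (a (l 16528848) (l 16550048))) (c (a (l 16643224) (l 16647072)) (b (l 16520976) (l 16498680))))))), by decide +kernel⟩

def k2_pm_202 : ∃ t, chk3 f_pm_202 t 2 3 1 = true :=
  ⟨(b (b (a (a (b (c (a (l 16875072) (l 16877496)) (l 16548648)) (c (a (l 17008672) (l 17014528)) (a (l 16583272) (l 16578400)))) (b (c (a (l 16879040) (l 16879936)) (l 16506272)) (c (l 17020768) (l 16573928)))) (a (b (c (a (l 16880456) (l 16880888)) (l 16497976)) (c (l 17026608) (l 16571448))) (b (c (a (l 16881208) (l 16881432)) (l 16557416)) (c (a (l 17028448) (l 17027912)) (a (l 16572272) (l 16574152)))))) (a (a (b (c (a (l 17084064) (l 17094208)) (a (l 16745296) (l 16744432))) (c (a (l 17121864) (l 17136992)) (a (l 16851688) (l 16855984)))) (b (c (l 17103888) (l 16741640)) (c (l 17149744) (l 16854200)))) (a (b (c (l 17114600) (l 16739640)) (c (l 17165032) (l 16852440))) (b (c (a (l 17119056) (l 17119504)) (a (l 16738160) (l 16736840)))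 (c (a (l 17173088) (l 17175800)) (a (l 16850088) (l 16847368))))))) (b (a (a (c (b (l 17143144) (l 17140400)) (b (l 16923112) (l 16966112))) (b (c (l 17172512) (l 16932448)) (c (l 17179512) (a (l 16985928) (l 16987864))))) (b (a (c (l 17192928) (l 16932752)) (c (l 17208336) (b (l 16911888) (l 16949416)))) (a (c (l 17205192) (l 16991392)) (c (l 17226680) (l 16995104))))) (a (a (c (b (l 17124360) (l 17099248)) (b (l 16987616) (l 16993808))) (c (a (l 17153776) (l 17175128)) (a (b (l 17016200) (l 17029216)) (b (l 17024440) (l 17045984))))) (c (a (b (l 17204120) (l 17192408)) (b (l 17230872) (l 17223496))) (a (b (l 17030920) (l 17055264)) (b (l 17039224) (l 17067456))))))), by decide +kernel⟩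

def k3_pm_202 : ∃ t, chk3 f_pm_202 t 6 4 1 = true :=
  ⟨(a (b (l 1) (b (l 1) (b (b (a (l 1) (a (l 1) (c (l 16582016) (c (l 16581896) (l 16581504))))) (c (a (l 16563248) (l 16576416)) (a (l 16564224) (l 16588376)))) (a (b (c (l 16548936) (l 16551752)) (c (b (l 16538016) (l 16560464)) (l 16560464))) (b (c (l 16582672) (l 16558384)) (c (c (l 16611400) (l 16608608)) (l 16604880))))))) (b (l 1) (b (a (a (b (l 1) (b (l 1) (c (l 16600744) (l 16599008)))) (l 6)) (l 6)) (b (c (a (c (a (l 16598064) (l 16608320)) (l 16606504)) (c (b (l 6) (l 16630584)) (l 16626712))) (a (c (l 12381251255) (a (l 17749948007) (l 16605920))) (b (l 6) (l 16626280)))) (b (a (c (l 16610608) (l 16606528)) (c (c (l 16614752) (l 16612136)) (l 16608360))) (a (c (c (l 16639056) (l 16636040)) (b (l 16589096) (l 16591392))) (c (a (l 16633416) (l 16644560)) (a (l 16626912) (l 16637560))))))))), by decide +kernel⟩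

def k4_pm_202 : ∃ t, chk3 f_pm_202 t 6 10 1 = true :=
  ⟨(b (b (a (a (c (b (l 16583200) (l 16583192)) (b (l 16556728) (l 16535832))) (b (c (c (l 16594232) (l 16591024)) (l 16607544)) (c (a (l 16584296) (l 16599136)) (l 16585968)))) (a (c (b (c (l 16621648) (l 16618208)) (c (l 16620496) (l 16617232))) (b (l 16634080) (l 16612240))) (c (b (c (l 16643496) (l 16639616)) (l 16640360)) (b (l 16633824) (l 16632608))))) (b (a (a (c (l 16582864) (l 16535664)) (c (a (l 16583320) (l 16597736)) (l 16585064))) (a (c (l 16638312) (l 16611016)) (c (l 16659784) (l 16631128)))) (b (a (c (c (l 16597520) (l 16594920)) (l 16591160)) (c (a (l 16594264) (l 16636848)) (a (l 16588360) (l 16608400)))) (b (a (c (c (l 16596136) (l 16593720)) (l 16590160)) (c (a (l 16613536) (l 16635320)) (a (l 16587016) (l 16607104)))) (a (c (a (l 16579696) (l 16606928)) (c (l 16611304) (l 16609072))) (a (c (a (l 16606320) (l 16617704)) (a (l 16601448) (l 16612096))) (c (l 16665440) (l 16647920)))))))) (a (b (c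 (a (l 16557192) (l 16583232)) (b (l 16588408) (l 16588664))) (c (a (l 16557784) (l 16581896)) (a (l 16533040) (l 16557584)))) (c (a (b (c (l 16609504) (l 16607544)) (l 16605864)) (b (c (l 16632184) (l 16629160)) (c (l 16608080) (l 16605512)))) (a (b (l 16603920) (l 16581232)) (b (l 16624032) (l 16600744)))))), by decide +kernel⟩

def k5_pm_202 : ∃ t, chk3 f_pm_202 t 6 11 1 = true :=
  ⟨(b (a (c (a (b (l 16535440) (l 16532384)) (b (l 16557184) (l 16551272))) (a (l 16592480) (b (l 16554960) (l 16550312)))) (c (b (a (l 16600232) (l 16643232)) (a (l 16591856) (l 16624856))) (b (a (l 16577168) (l 16596392)) (a (l 16570680) (l 16590040))))) (a (c (a (b (l 16576352) (l 16720280)) (b (l 16586336) (l 16725176))) (a (l 16564384) (l 16580736))) (c (a (b (l 16598616) (l 16731448)) (b (c (l 16772680) (l 16583160)) (l 16758160))) (a (b (l 16561824) (l 16550448)) (b (l 16581536) (l 16570640)))))), by decide +kernel⟩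

def k6_pm_202 : ∃ t, chk3 f_pm_202 t 7 4 1 = true :=
  ⟨(l 6), by decide +kernel⟩

def k7_pm_202 : ∃ t, chk3 f_pm_202 t 7 10 1 = true :=
  ⟨(b (b (a (a (a (b (c (l 16636496) (l 16627960)) (c (l 16635168) (l 16626440))) (l 6)) (l 6)) (l 6)) (a (b (a (c (c (l 16662184) (l 16657640)) (l 16650656)) (l 6)) (a (c (b (l 16668584) (b (c (l 16638000) (l 16633552)) (c (l 16678752) (l 16653400)))) (b (l 16627840) (b (l 16626600) (l 16667496)))) (b (l 6) (a (a (b (l 6) (c (l 16669080) (l 16637688))) (l 6)) (l 6))))) (l 6))) (a (c (b (a (c (l 16665104) (l 16650320)) (a (c (l 16650504) (l 16645240)) (c (l 16662128) (l 16656160)))) (a (c (l 16651456) (l 16626360)) (c (a (l 16647496) (l 16659256)) (a (l 16642160) (l 16653064))))) (b (a (b (l 16624000) (l 16622656)) (a (l 16637040) (l 16667968))) (a (l 16661440) (a (l 16633664) (l 16643408))))) (a (a (b (l 6) (c (c (l 16671464) (l 16664376)) (l 16684944))) (l 6)) (l 6)))), by decide +kernel⟩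

def k8_pm_202 : ∃ t, chk3 f_pm_202 t 14 11 1 = true :=
  ⟨(b (b (c (a (c (l 16625336) (l 16621616)) (c (a (l 16643056) (l 16655504)) (l 16675040))) (a (l 16636072) (a (l 16629320) (l 16639256)))) (c (a (c (l 16652752) (l 16615264)) (c (a (l 16672352) (l 16687552)) (l 16659752))) (a (l 16609288) (a (l 16624184) (l 16634608))))) (a (c (b (c (l 16787504) (l 16607616)) (c (l 16895672) (l 16622992))) (b (l 16602184) (l 16614448))) (c (c (b (a (l 16802080) (l 16813928)) (a (l 16907152) (l 16916880))) (b (l 16654384) (a (l 16644080) (l 16660520)))) (b (a (l 16618232) (l 16629528)) (a (l 16611256) (l 16623768)))))), by decide +kernel⟩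

def k9_pm_202 : ∃ t, chk3 f_pm_202 t 15 22 1 = true :=
  ⟨(a (c (b (c (a (l 16668440) (b (l 16682744) (l 16681600))) (a (l 16661040) (l 16694256))) (c (a (l 16704640) (b (l 16690216) (l 16756112))) (a (l 16657528) (l 16670760)))) (b (a (l 16670528) (c (l 16664624) (l 16655816))) (a (l 16666448) (c (l 16661504) (l 16652064))))) (c (a (a (c (b (l 16702648) (l 16700232)) (b (l 16682760) (l 16681008))) (b (l 6) (l 30))) (b (l 6) (l 30))) (b (a (a (b (l 6) (l 16667936)) (l 6)) (l 6)) (b (a (c (l 16674640) (l 16664160)) (a (c (l 16705032) (l 16672656)) (l 6))) (a (c (l 16673616) (l 16662704)) (a (c (l 16693888) (l 16671496)) (c (c (l 30) (a (l 16685312) (a (l 16687784) (l 6)))) (a (l 16675992) (c (a (l 16681440) (l 6)) (l 16675840)))))))))), by decide +kernel⟩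

def k10_pm_202 : ∃ t, chk3 f_pm_202 t 15 23 1 = true :=
  ⟨(a (c (b (a (c (l 16806688) (l 16654000)) (c (b (l 16815800) (l 16869968)) (l 16689472))) (c (a (l 16928488) (c (l 17002728) (l 16881424))) (a (l 16679048) (l 16681392)))) (b (a (l 16662280) (c (l 16658608) (l 16648504))) (a (l 16668296) (c (l 16655824) (l 16645024))))) (c (a (a (b (c (c (l 16921000) (l 16792256)) (l 16679792)) (c (c (l 17012864) (l 16894344)) (c (l 16775928) (l 16675992)))) (c (b (l 30) (c (l 17020280) (l 30))) (l 30))) (c (b (l 30) (c (a (l 17028232) (l 16994792)) (l 30))) (l 30))) (a (b (c (a (l 16668728) (l 16696608)) (a (l 16657536) (l 16663704))) (c (a (l 16667048) (l 30)) (a (l 16654992) (l 16661840)))) (a (b (c (c (l 30) (b (l 16679840) (l 16679448))) (b (l 16670520) (l 16669728))) (c (l 30) (b (l 16669136) (l 16668736)))) (b (b (c (c (l 30) (a (l 16684944) (b (c (l 30) (l 16686800)) (l 30)))) (a (l 16675208) (c (b (l 16681848) (l 16681656)) (l 16675040)))) (c (l 30) (a (l 16685144) (c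 (c (a (l 16682344) (l 16689336)) (l 16684976)) (a (l 16673688) (l 16675312)))))) (c (l 30) (b (c (a (l 16677872) (c (l 30) (a (l 16678776) (l 16680576)))) (a (l 16670800) (c (l 16676040) (l 16672400)))) (c (l 30) (a (l 16670576) (b (l 16674192) (l 16679496))))))))))), by decide +kernel⟩

def k11_pm_202 : ∃ t, chk3 f_pm_202 t 6 12 1 = true :=
  ⟨(a (b (c (a (l 16860664) (b (l 16835440) (l 16923544))) (a (l 16528976) (l 16559912))) (c (a (l 17026440) (b (l 16994192) (l 17051024))) (a (l 16576672) (l 16663560)))) (b (c (a (b (l 16837576) (l 16922984)) (b (l 16771168) (l 16906216))) (a (b (l 16536608) (l 16540904)) (b (l 16557120) (l 16561128)))) (c (a (b (l 16992024) (l 17048096)) (b (l 16994304) (l 17007160))) (a (b (l 16536944) (l 16624720)) (b (l 16549824) (l 16695808)))))), by decide +kernel⟩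

def k12_pm_202 : ∃ t, chk3 f_pm_202 t 14 12 1 = true :=
  ⟨(b (a (c (b (c (l 16983224) (l 16732928)) (c (l 17054480) (l 16823024))) (b (l 16603880) (l 16590888))) (c (b (c (a (l 16992912) (l 17001392)) (a (l 16750784) (l 16765032))) (c (l 17066952) (a (l 16838840) (l 16851744)))) (b (a (l 16603064) (l 16617184)) (a (l 16593096) (l 16609328))))) (c (a (b (c (l 17112584) (l 16896968)) (c (l 17160232) (l 16957928))) (b (c (l 17124624) (l 16917544)) (c (l 17172360) (l 16977824)))) (a (b (a (l 16567760) (l 16582232)) (c (l 16756176) (l 16554992))) (b (a (l 16598808) (l 16617728)) (a (l 16678128) (l 16717256)))))), by decide +kernel⟩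

def k13_pm_202 : ∃ t, chk3 f_pm_202 t 15 12 1 = true :=
  ⟨(b (a (c (b (c (a (l 17011704) (l 17002976)) (a (l 16781352) (b (l 16776512) (l 16822304)))) (c (a (l 17080704) (l 17092208)) (a (l 16866720) (b (l 16864264) (l 16902728))))) (b (a (c (l 16636720) (l 16627032)) (c (l 16653032) (l 16641496))) (a (c (l 16653344) (l 16621128)) (c (l 16655088) (l 16637784))))) (c (c (b (a (c (l 17092648) (l 16983808)) (c (l 17107280) (b (l 30) (l 17020672)))) (a (l 17105680) (c (l 17170232) (l 17072248)))) (a (b (a (b (l 16792232) (l 16837384)) (l 30)) (b (c (l 16935472) (l 16832600)) (l 16880048))) (b (l 30) (b (l 30) (c (l 16991808) (l 30)))))) (b (b (a (c (l 16680768) (l 16657096)) (c (l 30) (a (l 16668536) (c (l 30) (a (l 16670600) (c (l 30) (a (l 16671536) (l 16673456)))))))) (a (c (l 16680472) (l 16656312)) (c (l 30) (a (l 16689528) (l 30))))) (a (a (c (l 16694776) (l 16650776)) (l 30)) (l 30))))) (c (a (c (b (l 17143328) (l 17191104)) (b (a (l 16938080) (l 16954552)) (a (l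 16997984) (l 17014208)))) (c (b (a (l 17162336) (l 17177456)) (l 17217224)) (b (c (a (l 17020584) (l 17040288)) (a (l 16926160) (b (l 30) (l 16965304)))) (a (l 17032768) (a (l 17048248) (l 17059320)))))) (b (a (a (c (l 16738680) (l 16613976)) (c (a (l 16754640) (l 16766120)) (l 16633496))) (a (a (c (l 16757312) (l 16648760)) (l 30)) (l 30))) (a (a (c (l 16810616) (l 16623680)) (c (l 16747912) (l 16649736))) (a (c (a (l 16828512) (b (l 30) (l 16878256))) (a (l 16650352) (l 30))) (b (l 30) (c (c (l 16940752) (l 30)) (l 30)))))))), by decide +kernel⟩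

def k14_pm_202 : ∃ t, chk3 f_pm_202 t 6 13 1 = true :=
  ⟨(a (b (c (a (l 17118592) (c (l 17212232) (l 17020744))) (a (l 16735040) (b (l 16699360) (l 16762504)))) (c (a (l 17177168) (b (l 17164440) (l 17189352))) (a (b (l 16820144) (l 16865408)) (b (l 16815480) (l 16860168))))) (b (c (a (b (l 17093928) (l 17047840)) (b (c (l 17192624) (l 16995936)) (c (l 17225208) (a (l 17036600) (l 17040512))))) (a (b (l 16697344) (l 16758088)) (b (a (l 16697496) (l 16705440)) (a (b (l 16741680) (l 16768352)) (l 16762120))))) (c (a (b (c (l 17251512) (l 17074904)) (c (l 17273872) (a (l 17106336) (l 17105440)))) (b (c (a (l 17251904) (l 17254064)) (a (b (l 17064312) (l 17081200)) (l 17076288))) (c (a (b (l 17270240) (l 17281600)) (l 17278184)) (a (b (l 17096960) (a (l 17111984) (c (l 17154200) (l 17069056)))) (b (l 17099768) (l 17114176)))))) (c (a (b (l 16898056) (a (l 16939056) (l 16936200))) (b (a (b (l 16883424) (l 16904344)) (l 16898752)) (a (a (l 16933872) (b (l 16923328) (a (l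 16941736) (l 16941240)))) (b (l 16927432) (b (l 16940680) (l 16949144)))))) (a (b (l 16720968) (a (l 16771504) (l 16766928))) (b (a (b (l 16702672) (l 16727640)) (l 16763400)) (a (a (l 16763208) (b (l 16750088) (a (l 16772128) (l 16771264)))) (b (l 16755416) (l 16776088))))))))), by decide +kernel⟩

def k15_pm_202 : ∃ t, chk3 f_pm_202 t 14 13 1 = true :=
  ⟨(b (c (a (c (l 17216848) (b (l 17008464) (l 17050712))) (c (l 17229568) (b (l 17028264) (l 17070712)))) (a (b (a (l 16716240) (l 16729200)) (a (l 16772544) (c (l 16875112) (l 16695504)))) (b (a (l 16744504) (c (l 16852984) (l 16671912))) (a (c (l 16888592) (l 16712520)) (c (l 16904592) (l 16732496)))))) (c (c (a (b (l 17260208) (b (l 17278464) (l 17289688))) (b (l 17273464) (l 17297400))) (a (b (b (l 17077984) (l 17094464)) (b (l 17109744) (a (l 17120248) (l 17128280)))) (b (l 17106688) (a (l 17131384) (l 17143776))))) (a (b (b (c (l 16902592) (l 16727480)) (c (l 16922744) (l 16751328))) (b (c (a (l 16936160) (l 16947280))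 (l 16815376)) (c (a (l 16953496) (l 16964568)) (a (l 16787200) (l 16801344))))) (b (a (c (l 16932384) (b (l 16751960) (l 16775896))) (c (l 16948640) (b (l 16772144) (l 16796272)))) (a (c (b (l 16960968) (l 16978304)) (b (l 16798112) (l 16818704))) (c (b (l 16977424) (l 16994880)) (b (l 16818664) (l 16839424)))))))), by decide +kernel⟩

def k16_pm_202 : ∃ t, chk3 f_pm_202 t 15 13 1 = true :=
  ⟨(b (c (a (c (b (l 17231168) (l 17264864)) (b (l 17056336) (l 17099184))) (c (b (l 17257392) (l 17291232)) (b (a (l 17083352) (l 17104272)) (l 17136744)))) (a (b (a (c (l 16871480) (l 16694808)) (c (l 16871704) (b (l 16704064) (l 16736952)))) (a (c (l 16923288) (b (l 16741200) (l 16769400))) (c (l 16944776) (b (l 16767504) (l 16795960))))) (a (c (b (b (l 16902288) (l 16930488)) (c (l 17008408) (l 16929736))) (b (a (b (l 16725664) (l 16758664)) (l 30)) (b (a (l 16789400) (l 30)) (a (l 16818040) (l 16833832))))) (c (b (b (c (l 16969912) (l 30)) (a (l 16950376) (l 16964536))) (a (l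 16989104) (l 16982360))) (c (b (l 30) (b (l 30) (l 16896336))) (l 30)))))) (c (c (a (b (l 17293272) (l 17317280)) (b (l 17319672) (l 17343464))) (a (b (l 17135648) (l 17124736)) (b (l 17173600) (l 17204960)))) (a (b (c (a (l 16967672) (l 16989536)) (a (b (l 16795616) (l 16819976)) (b (l 16822432) (l 16847088)))) (c (a (l 17005640) (l 17027928)) (a (b (l 16842632) (l 16863640)) (b (l 16870008) (l 16891312))))) (a (b (c (l 17014216) (b (c (l 16890328) (l 16814928)) (l 16856568))) (c (l 17053008) (b (l 16900760) (l 16922360)))) (c (b (l 17020632) (l 17080736)) (b (b (c (l 16922248) (l 30)) (a (l 16902480) (l 16920112))) (b (l 16892784) (l 16935648)))))))), by decide +kernel⟩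

def k17_pm_202 : ∃ t, chk3 f_pm_202 t 3 14 1 = true :=
  ⟨(a (b (a (c (b (a (l 17207864) (l 17211096)) (l 17226120)) (b (a (l 16907768) (l 16903520)) (l 16946400))) (b (a (c (c (l 17292864) (l 17134984)) (b (a (l 16887520) (l 16884080)) (l 16909576))) (a (c (b (c (l 17292240) (a (l 17127320) (l 17085240))) (l 17159304)) (b (b (a (l 16874776) (c (l 16935064) (l 16810464))) (l 16907608)) (l 16905192))) (c (c (l 17279096) (b (l 17108664) (l 17145520))) (b (c (b (l 16959112) (l 16970408)) (l 16863536)) (l 16907376))))) (c (a (l 17234320) (a (l 17238568) (l 17242216))) (a (l 16942192) (a (l 16939464) (l 16941576)))))) (a (c (l 17243504) (l 16996768)) (c (a (l 17256264) (l 17265592)) (a (l 16997296) (b (l 16980696) (l 17015168)))))) (b (a (b (c (a (c (b (l 17300856) (l 17311392)) (b (a (l 17135776) (l 17143864)) (l 17155832))) (c (l 17319680) (b (l 17159912) (l 17176328)))) (a (b (c (a (l 16973496) (l 16984616)) (a (l 16811744) (l 16825928))) (c (l 17000856) (l 16846464)))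 (b (a (c (l 16998352) (l 16843264)) (c (l 17014872) (l 16863920))) (c (l 17028368) (l 16881000))))) (c (a (l 17251184) (l 17268360)) (a (l 16957976) (l 16904840)))) (a (c (b (c (l 17339152) (b (l 17189120) (l 17204992))) (l 17291752)) (b (c (a (l 17003384) (l 17067144)) (b (a (l 16887944) (l 16915336)) (l 16927952))) (c (l 17095064) (l 16964472)))) (c (b (c (l 17364168) (l 17234344)) (l 17320840)) (b (c (b (l 17094592) (l 17114232)) (b (a (l 16945984) (l 16979688)) (a (l 16971152) (l 17003632)))) (c (l 17140816) (a (l 17005680) (l 17036440))))))) (a (c (a (l 17278184) (l 17295528)) (a (l 17016112) (l 17025168))) (c (a (l 17317696) (l 17344080)) (a (b (l 17067760) (l 17100032)) (c (l 17184568) (a (l 17064344) (l 17050064)))))))), by decide +kernel⟩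

def k18_pm_202 : ∃ t, chk3 f_pm_202 t 3 15 1 = true :=
  ⟨(b (a (c (a (l 17253528) (l 17277408)) (a (l 17046496) (a (l 17052416) (l 17057408)))) (c (a (l 17306672) (a (l 17336632) (l 17359704))) (a (a (l 17074584) (l 17103608)) (a (l 17138848) (a (l 17169096) (l 17190824)))))) (a (c (a (l 17250840) (l 17279592)) (a (l 17079480) (a (l 17089776) (c (l 17145424) (l 17050456))))) (c (a (l 17312440) (l 17350152)) (a (a (c (l 17162112) (l 17067496)) (l 17142184)) (a (l 17174224) (l 17209776)))))), by decide +kernel⟩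

theorem s19_pm_202 : ∃ t, chk3 f_pm_202 t 3 7 1 = true := ex3_b k17_pm_202 k18_pm_202

theorem s20_pm_202 : ∃ t, chk3 f_pm_202 t 7 13 1 = true := ex3_a k15_pm_202 k16_pm_202

theorem s21_pm_202 : ∃ t, chk3 f_pm_202 t 3 13 1 = true := ex3_a k14_pm_202 s20_pm_202

theorem s22_pm_202 : ∃ t, chk3 f_pm_202 t 7 12 1 = true := ex3_a k12_pm_202 k13_pm_202

theorem s23_pm_202 : ∃ t, chk3 f_pm_202 t 3 12 1 = true := ex3_a k11_pm_202 s22_pm_202

theorem s24_pm_202 : ∃ t, chk3 f_pm_202 t 3 6 1 = true := ex3_b s23_pm_202 s21_pm_202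

theorem s25_pm_202 : ∃ t, chk3 f_pm_202 t 3 3 1 = true := ex3_b s24_pm_202 s19_pm_202

theorem s26_pm_202 : ∃ t, chk3 f_pm_202 t 15 11 1 = true := ex3_b k9_pm_202 k10_pm_202

theorem s27_pm_202 : ∃ t, chk3 f_pm_202 t 7 11 1 = true := ex3_a k8_pm_202 s26_pm_202

theorem s28_pm_202 : ∃ t, chk3 f_pm_202 t 7 5 1 = true := ex3_b k7_pm_202 s27_pm_202

theorem s29_pm_202 : ∃ t, chk3 f_pm_202 t 7 2 1 = true := ex3_b k6_pm_202 s28_pm_202

theorem s30_pm_202 : ∃ t, chk3 f_pm_202 t 6 5 1 = true := ex3_b k4_pm_202 k5_pm_202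

theorem s31_pm_202 : ∃ t, chk3 f_pm_202 t 6 2 1 = true := ex3_b k3_pm_202 s30_pm_202

theorem s32_pm_202 : ∃ t, chk3 f_pm_202 t 3 2 1 = true := ex3_a s31_pm_202 s29_pm_202

theorem s33_pm_202 : ∃ t, chk3 f_pm_202 t 3 1 1 = true := ex3_b s32_pm_202 s25_pm_202

theorem s34_pm_202 : ∃ t, chk3 f_pm_202 t 2 2 1 = true := ex3_a k0_pm_202 k1_pm_202

theorem s35_pm_202 : ∃ t, chk3 f_pm_202 t 2 1 1 = true := ex3_b s34_pm_202 k2_pm_202

theorem s36_pm_202 : ∃ t, chk3 f_pm_202 t 1 1 1 = true := ex3_a s35_pm_202 s33_pm_202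

theorem c_pm_202 : CertF 0 536870912 0 536870912 201326592 134217728 true true false .pp 2 0 2
    ndF0q2 ndF0q0 pcF2 cut_pm_202 Ext.none :=
  certF1 (fam := true) (s1 := true) (s2 := false) (a := 2) (b := 0) (c := 2) (cn := .pp) (n1 := ndF0q2) (n2 := ndF0q0) (pc := pcF2) (cut := cut_pm_202) (xt := Ext.none) (P1 := 0) (W1 := 536870912) (P2 := 0) (W2 := 536870912) (P3 := 201326592) (W3 := 134217728)
    rfl (fun _ => rfl) s36_pm_202

noncomputable def cut_pm_203 : Cut := Cut.of [[⟨3, 0, 0, 1449551462⟩], [⟨4, 0, 0, 2845415833⟩]]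

noncomputable def f_pm_203 : ℕ → ℕ → ℕ → ℕ → Bool := onCell 0 536870912 1610612736 536870912 201326592 134217728
    (rowF 1 true true false .up 2 0 3 (qsf 0 536870912 0 536870912 3) ndF0q2 ndF0q0 pcF3 cut_pm_203 Ext.none)

def k0_pm_203 : ∃ t, chk3 f_pm_203 t 2 4 1 = true :=
  ⟨(a (b (c (b (a (a (b (l 17144544) (l 17118448)) (c (l 17234248) (l 17119152))) (a (c (l 17283616) (b (l 17164816) (l 17143072))) (c (b (a (l 17336576) (l 17346304)) (l 17313096)) (b (a (l 17190336) (l 17198952)) (l 17175616))))) (a (a (l 17079296) (l 17122104)) (a (l 17162976) (b (l 17217032) (l 17188792))))) (b (a (b (a (c (l 16999008) (l 16920752)) (c (l 17023408) (l 16935712))) (a (l 16950496) (l 16970456))) (b (a (c (l 17046000) (b (l 16949288) (l 16949360))) (a (b (c (l 17064776) (l 16958792)) (l 17005960)) (c (l 17069808) (l 16965072)))) (a (l 16988920) (a (l 17002072) (l 17010256))))) (a (a (l 16937848) (l 16958952)) (a (l 16978624) (b (l 17000912) (l 16993800)))))) (c (b (a (a (l 17026552)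 (l 17068312)) (a (l 17108312) (l 17147272))) (a (a (l 14) (l 17015248)) (a (l 17054672) (l 17093536)))) (b (a (a (l 16917360) (l 16939792)) (a (l 16960976) (l 16981456))) (a (a (l 14) (l 16917248)) (a (l 16939800) (l 16961928)))))) (b (c (a (b (c (a (l 17340000) (l 17346856)) (a (l 17199808) (l 17210920))) (a (l 17227504) (l 17242528))) (b (c (l 17357120) (a (l 17221320) (l 17231168))) (l 17261272))) (b (a (a (b (c (l 17079784) (l 16974016)) (l 17021568)) (b (c (l 17091864) (l 16984768)) (l 17035440))) (c (a (l 17101536) (l 17112256)) (b (a (l 16993992) (l 17002032)) (l 17004648)))) (a (a (l 17014792) (l 17031424)) (a (l 17046288) (l 17060104))))) (a (b (c (a (l 17182208) (l 17203344)) (a (l 17001576) (l 17020736))) (c (a (l 17132952) (l 17160488)) (a (l 16984032) (l 17004944)))) (c (b (l 17226944) (l 17191040)) (b (l 17046536) (l 17034640)))))), by decide +kernel⟩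

def k1_pm_203 : ∃ t, chk3 f_pm_203 t 2 5 1 = true :=
  ⟨(b (b (a (a (l 14) (a (b (l 16984320) (l 14)) (b (l 16992928) (l 16996856)))) (c (a (a (l 17082888) (l 17118720)) (l 17154856)) (a (a (l 16963608) (l 16986320)) (l 72041944311)))) (a (a (l 2) (l 2)) (l 2))) (l 2)), by decide +kernel⟩

def k2_pm_203 : ∃ t, chk3 f_pm_203 t 2 3 1 = true :=
  ⟨(l 2), by decide +kernel⟩

def k3_pm_203 : ∃ t, chk3 f_pm_203 t 3 1 1 = true :=
  ⟨(b (b (a (b (c (b (a (c (l 17371696) (l 17244976)) (c (l 17390856) (l 17266688))) (a (l 17286456) (l 17315072))) (b (b (a (c (l 17125200) (a (l 17009104) (l 17015296))) (c (a (l 17138440) (l 17148192)) (a (l 17021032) (b (l 17022144) (l 17031544))))) (a (a (l 17069416) (l 17079264)) (a (l 17089224) (l 17100048)))) (a (b (l 17078248) (l 17080136)) (a (l 17099320) (l 17113688))))) (a (c (b (l 17259528) (l 17230200)) (b (l 17079344) (l 17072536))) (c (b (l 17296256) (l 17272192)) (b (a (l 17104520) (l 17122632)) (a (l 17101688) (l 2)))))) (a (a (b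 (c (b (c (l 17403800) (l 17283592)) (l 17338016)) (b (b (c (l 17158864) (a (a (l 17031416) (l 17035064)) (l 17042720))) (a (l 17109312) (l 17117704))) (a (l 17125568) (l 17134464)))) (b (b (c (l 17329184) (l 42514227799)) (l 2)) (l 2))) (b (c (b (l 17348040) (l 17342464)) (b (c (l 17183688) (b (a (l 17056144) (l 17073080)) (l 17083488))) (l 17152440))) (l 2))) (b (b (c (a (l 17358784) (l 17371544)) (c (a (l 17212752) (l 17247960)) (c (a (l 17138728) (l 17183784)) (b (a (a (l 17066576) (l 17090704)) (a (l 17117104) (l 17145016))) (a (l 17098464) (l 17148032)))))) (c (l 17373632) (a (l 17183648) (l 2)))) (l 2)))) (a (l 2) (l 2))) (l 2)), by decide +kernel⟩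

theorem s4_pm_203 : ∃ t, chk3 f_pm_203 t 2 2 1 = true := ex3_b k0_pm_203 k1_pm_203

theorem s5_pm_203 : ∃ t, chk3 f_pm_203 t 2 1 1 = true := ex3_b s4_pm_203 k2_pm_203

theorem s6_pm_203 : ∃ t, chk3 f_pm_203 t 1 1 1 = true := ex3_a s5_pm_203 k3_pm_203

theorem c_pm_203 : CertF 0 536870912 0 536870912 201326592 134217728 true true false .up 2 0 3
    ndF0q2 ndF0q0 pcF3 cut_pm_203 Ext.none :=
  certF1 (fam := true) (s1 := true) (s2 := false) (a := 2) (b := 0) (c := 3) (cn := .up) (n1 := ndF0q2) (n2 := ndF0q0) (pc := pcF3) (cut := cut_pm_203) (xt := Ext.none) (P1 := 0) (W1 := 536870912) (P2 := 0) (W2 := 536870912) (P3 := 201326592) (W3 := 134217728)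
    rfl (fun _ => rfl) s6_pm_203

noncomputable def cut_pm_213 : Cut := Cut.of [[⟨3, 0, 0, 1449551462⟩], [⟨4, 0, 0, 2845415833⟩], [⟨0, 1, 0, 57167902⟩, ⟨1, 1, 0, 57167902⟩, ⟨2, 2, 0, 11758673⟩]]

noncomputable def f_pm_213 : ℕ → ℕ → ℕ → ℕ → Bool := onCell 0 536870912 1610612736 536870912 201326592 134217728
    (rowF 1 true true false .pnn 2 1 3 (qsf 0 536870912 536870912 536870912 3) ndF0q2 ndF0q1 pcF3 cut_pm_213 Ext.none)

def k0_pm_213 : ∃ t, chk3 f_pm_213 t 2 2 1 = true :=
  ⟨(b (a (l 1) (a (l 1) (b (l 1) (b (l 1) (c (l 17191120) (l 17034680)))))) (b (a (a (l 14) (b (b (l 1) (a (l 14) (l 16996864))) (l 14))) (c (a (b (a (l 17082920) (l 17118752)) (a (l 17036424) (b (l 17087104) (l 17064024)))) (b (l 17154888) (a (l 17105328) (l 17129944)))) (a (b (a (l 16963624) (l 17007304)) (b (a (l 16947000) (l 16970608)) (l 16968072))) (b (a (l 17007976) (l 17029056)) (a (b (l 16992896) (l 16981720)) (l 17009640)))))) (a (l 14) (b (a (a (l 14) (c (b (l 17041368) (l 17018768))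 (b (l 16947152) (l 16934544)))) (c (a (b (l 17075688) (a (l 17046168) (l 17062712))) (l 17091592)) (a (b (l 16969904) (l 16978416)) (b (l 16992496) (l 16980000))))) (a (l 14) (c (a (b (a (l 17023400) (l 17041152)) (l 14)) (b (l 17040376) (a (c (l 17064912) (l 17007352)) (l 17047688)))) (a (b (a (l 16938720) (l 16949912)) (l 14)) (b (a (l 16961048) (l 16972528)) (a (b (l 16950816) (l 16943896)) (l 16958656)))))))))), by decide +kernel⟩

def k1_pm_213 : ∃ t, chk3 f_pm_213 t 3 4 1 = true :=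
  ⟨(a (b (l 1) (a (b (l 1) (c (l 17230248) (a (l 17063352) (l 17082200)))) (c (b (l 17296320) (l 17272200)) (b (a (l 17104536) (l 17122648)) (a (l 17101696) (l 17122416)))))) (a (a (b (a (l 1) (c (l 119220082119) (b (l 1) (l 17134472)))) (c (b (l 17325048) (l 17305368)) (a (b (l 17137384) (l 17139280)) (b (l 17147048) (a (l 17147760) (l 17152416)))))) (b (b (l 1) (c (l 17342496) (l 17152440))) (c (b (l 17329032) (l 17309192)) (b (l 17163504) (l 17164472))))) (a (b (c (b (l 17358816) (l 17349552)) (b (c (l 17212752) (l 136936271671)) (l 17183648))) (c (l 17319448) (b (l 17190568) (l 17186640)))) (b (c (b (l 17371560) (l 17355552)) (c (b (l 17247960) (l 17254144)) (b (b (c (l 17176736) (a (l 17117096) (l 15066612327))) (l 17168936)) (l 17183456)))) (c (l 17314496) (b (l 17219128) (l 17208016))))))), by decide +kernel⟩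

def k2_pm_213 : ∃ t, chk3 f_pm_213 t 3 5 1 = true :=
  ⟨(a (b (a (c (b (l 17198336) (l 17164040)) (b (a (l 17049816) (l 17070592)) (a (l 17031520) (l 17053288)))) (c (b (l 17243824) (l 17210584)) (b (a (l 17091824) (l 17114248)) (a (l 17075552) (l 17098944))))) (a (b (c (a (l 17115224) (l 17138488)) (a (l 17008808) (l 17031144))) (c (a (b (l 17085656) (l 17065472)) (l 17098816)) (a (b (l 16989456) (l 16975632)) (b (l 17011936) (l 16998032))))) (b (c (a (l 17161888) (l 17186000)) (a (l 17053896) (l 17077744))) (c (a (l 17121744) (l 17144384)) (a (b (l 17034768) (l 17020560)) (c (l 17072192) (l 17031328))))))) (a (a (b (c (b (l 17278984) (l 17246952)) (b (c (l 17172168) (a (l 17098760) (l 17110280))) (c (l 17153376) (a (l 17088952) (l 17101216))))) (c (b (l 17210304) (l 17167144)) (b (c (l 17128456) (l 17078344)) (c (l 17097064) (l 17055016))))) (b (c (b (l 17283488) (l 17253768)) (b (l 17156960) (a (c (l 17168376) (l 17111648)) (l 17145592)))) (a (c (b (l 17222744) (l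 17180952)) (b (c (l 17144952) (l 17095696)) (c (l 17114496) (l 17072864)))) (c (l 17194592) (b (l 17123992) (l 17096928)))))) (a (b (c (l 17256928) (b (l 17173840) (l 17153824))) (c (b (l 17197232) (l 17150912)) (b (l 17127448) (l 17095464)))) (b (b (l 17223864) (l 17187592)) (b (l 17334056) (l 17267016)))))), by decide +kernel⟩

def k3_pm_213 : ∃ t, chk3 f_pm_213 t 1 3 1 = true :=
  ⟨(b (a (b (b (b (a (l 14) (b (a (l 14) (a (l 14) (a (l 14) (c (l 17032128) (l 16947864))))) (l 14))) (l 14)) (l 14)) (l 14)) (a (b (a (b (c (a (b (c (l 17072600) (l 17019376)) (a (l 14) (l 17028568))) (b (l 17067216) (l 17044584))) (a (b (a (l 16955496) (l 16966640)) (a (l 14) (l 16951160))) (b (l 16983184) (l 16967288)))) (a (l 14) (b (a (c (l 17015912) (l 16945352)) (c (l 17026048) (l 16955832))) (l 14)))) (b (c (a (c (l 17101832) (l 17054376)) (l 17098016)) (a (b (l 17005272) (l 16988856)) (b (l 17027832) (l 17010784)))) (c (a (b (l 17040872) (l 17015512)) (l 17047072)) (a (b (l 16971536)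 (l 16953504)) (b (l 16992800) (l 16974280)))))) (b (a (l 14) (a (l 14) (b (c (l 17008768) (l 16955488)) (l 14)))) (l 14))) (b (a (a (b (c (l 17117848) (l 17063272)) (c (l 17066264) (l 17026488))) (b (c (a (l 17132008) (l 17130000)) (a (l 17060208) (l 17065624))) (c (a (l 17080400) (l 17083400)) (a (l 17022832) (l 17030776))))) (a (b (c (l 17103408) (l 17060280)) (a (l 17046936) (l 17032824))) (c (l 17114592) (l 17086368)))) (a (a (b (c (l 17014432) (b (l 16976560) (l 16957096))) (l 14)) (b (c (l 17155712) (a (l 16983152) (l 16992664))) (c (l 17064344) (b (l 16957512) (l 14))))) (a (a (b (l 17007752) (b (l 16979640) (l 14))) (b (l 16991624) (b (l 16962128) (l 16943216)))) (c (l 17063488) (l 17108416))))))) (b (a (l 14) (a (l 14) (l 14))) (l 14))), by decide +kernel⟩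

theorem s4_pm_213 : ∃ t, chk3 f_pm_213 t 3 2 1 = true := ex3_b k1_pm_213 k2_pm_213

theorem s5_pm_213 : ∃ t, chk3 f_pm_213 t 1 2 1 = true := ex3_a k0_pm_213 s4_pm_213

theorem s6_pm_213 : ∃ t, chk3 f_pm_213 t 1 1 1 = true := ex3_b s5_pm_213 k3_pm_213

theorem c_pm_213 : CertF 0 536870912 536870912 536870912 201326592 134217728 true true false .pnn 2 1 3
    ndF0q2 ndF0q1 pcF3 cut_pm_213 Ext.none :=
  certF1 (fam := true) (s1 := true) (s2 := false) (a := 2) (b := 1) (c := 3) (cn := .pnn) (n1 := ndF0q2) (n2 := ndF0q1) (pc := pcF3) (cut := cut_pm_213) (xt := Ext.none) (P1 := 0) (W1 := 536870912) (P2 := 536870912) (W2 := 536870912) (P3 := 201326592) (W3 := 134217728)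
    rfl (fun _ => rfl) s6_pm_213

noncomputable def cut_mm_001 : Cut := Cut.of [[⟨3, 0, 0, 1449551462⟩], [⟨4, 0, 0, 2845415833⟩]]

noncomputable def f_mm_001 : ℕ → ℕ → ℕ → ℕ → Bool := onCell 0 536870912 0 536870912 201326592 134217728
    (rowF 0 true false false .up 0 0 1 (qsf 0 536870912 0 536870912 1) ndF0q0 ndF0q0 pcF1 cut_mm_001 Ext.none)

def k0_mm_001 : ∃ t, chk3 f_mm_001 t 1 1 1 = true :=
  ⟨(l 4), by decide +kernel⟩

theorem c_mm_001 : CertF 0 536870912 0 536870912 201326592 134217728 true false false .up 0 0 1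
    ndF0q0 ndF0q0 pcF1 cut_mm_001 Ext.none :=
  certF0 (fam := true) (s1 := false) (s2 := false) (a := 0) (b := 0) (c := 1) (cn := .up) (n1 := ndF0q0) (n2 := ndF0q0) (pc := pcF1) (cut := cut_mm_001) (xt := Ext.none) (P1 := 0) (W1 := 536870912) (P2 := 0) (W2 := 536870912) (P3 := 201326592) (W3 := 134217728)
    rfl k0_mm_001

noncomputable def cut_mm_011 : Cut := Cut.of [[⟨3, 0, 0, 1449551462⟩], [⟨4, 0, 0, 2845415833⟩]]

noncomputable def f_mm_011 : ℕ → ℕ → ℕ → ℕ → Bool := onCell 0 536870912 536870912 536870912 201326592 134217728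
    (rowF 0 true false false .pnn 0 1 1 (qsf 0 536870912 536870912 536870912 1) ndF0q0 ndF0q1 pcF1 cut_mm_011 Ext.none)

def k0_mm_011 : ∃ t, chk3 f_mm_011 t 1 1 1 = true :=
  ⟨(l 14), by decide +kernel⟩

theorem c_mm_011 : CertF 0 536870912 536870912 536870912 201326592 134217728 true false false .pnn 0 1 1
    ndF0q0 ndF0q1 pcF1 cut_mm_011 Ext.none :=
  certF0 (fam := true) (s1 := false) (s2 := false) (a := 0) (b := 1) (c := 1) (cn := .pnn) (n1 := ndF0q0) (n2 := ndF0q1) (pc := pcF1) (cut := cut_mm_011) (xt := Ext.none) (P1 := 0) (W1 := 536870912) (P2 := 536870912) (W2 := 536870912) (P3 := 201326592) (W3 := 134217728)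
    rfl k0_mm_011

noncomputable def cut_mm_012 : Cut := Cut.of [[⟨3, 0, 0, 1449551462⟩], [⟨4, 0, 0, 2845415833⟩]]

noncomputable def f_mm_012 : ℕ → ℕ → ℕ → ℕ → Bool := onCell 0 536870912 536870912 536870912 201326592 134217728
    (rowF 0 true false false .pnp 0 1 2 (qsf 0 536870912 536870912 536870912 2) ndF0q0 ndF0q1 pcF2 cut_mm_012 Ext.none)

def k0_mm_012 : ∃ t, chk3 f_mm_012 t 1 1 1 = true :=
  ⟨(l 14), by decide +kernel⟩

theorem c_mm_012 : CertF 0 536870912 536870912 536870912 201326592 134217728 true false false .pnp 0 1 2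
    ndF0q0 ndF0q1 pcF2 cut_mm_012 Ext.none :=
  certF0 (fam := true) (s1 := false) (s2 := false) (a := 0) (b := 1) (c := 2) (cn := .pnp) (n1 := ndF0q0) (n2 := ndF0q1) (pc := pcF2) (cut := cut_mm_012) (xt := Ext.none) (P1 := 0) (W1 := 536870912) (P2 := 536870912) (W2 := 536870912) (P3 := 201326592) (W3 := 134217728)
    rfl k0_mm_012

noncomputable def cut_mm_022 : Cut := Cut.of [[⟨3, 0, 0, 1449551462⟩], [⟨4, 0, 0, 2845415833⟩]]

noncomputable def f_mm_022 : ℕ → ℕ → ℕ → ℕ → Bool := onCell 0 536870912 0 536870912 201326592 134217728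
    (rowF 0 true false false .pp 0 2 2 (qsf 0 536870912 0 536870912 2) ndF0q0 ndF0q2 pcF2 cut_mm_022 Ext.none)

def k0_mm_022 : ∃ t, chk3 f_mm_022 t 1 1 1 = true :=
  ⟨(l 5), by decide +kernel⟩

theorem c_mm_022 : CertF 0 536870912 0 536870912 201326592 134217728 true false false .pp 0 2 2
    ndF0q0 ndF0q2 pcF2 cut_mm_022 Ext.none :=
  certF0 (fam := true) (s1 := false) (s2 := false) (a := 0) (b := 2) (c := 2) (cn := .pp) (n1 := ndF0q0) (n2 := ndF0q2) (pc := pcF2) (cut := cut_mm_022) (xt := Ext.none) (P1 := 0) (W1 := 536870912) (P2 := 0) (W2 := 536870912) (P3 := 201326592) (W3 := 134217728)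
    rfl k0_mm_022

noncomputable def cut_mm_023 : Cut := Cut.of [[⟨3, 0, 0, 1449551462⟩], [⟨4, 0, 0, 2845415833⟩]]

noncomputable def f_mm_023 : ℕ → ℕ → ℕ → ℕ → Bool := onCell 0 536870912 0 536870912 201326592 134217728
    (rowF 0 true false false .up 0 2 3 (qsf 0 536870912 0 536870912 3) ndF0q0 ndF0q2 pcF3 cut_mm_023 Ext.none)

def k0_mm_023 : ∃ t, chk3 f_mm_023 t 1 1 1 = true :=
  ⟨(l 5), by decide +kernel⟩

theorem c_mm_023 : CertF 0 536870912 0 536870912 201326592 134217728 true false false .up 0 2 3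
    ndF0q0 ndF0q2 pcF3 cut_mm_023 Ext.none :=
  certF0 (fam := true) (s1 := false) (s2 := false) (a := 0) (b := 2) (c := 3) (cn := .up) (n1 := ndF0q0) (n2 := ndF0q2) (pc := pcF3) (cut := cut_mm_023) (xt := Ext.none) (P1 := 0) (W1 := 536870912) (P2 := 0) (W2 := 536870912) (P3 := 201326592) (W3 := 134217728)
    rfl k0_mm_023

noncomputable def cut_mm_101 : Cut := Cut.of [[⟨3, 0, 0, 1449551462⟩], [⟨4, 0, 0, 2845415833⟩], [⟨0, 1, 0, 67108864⟩, ⟨1, 0, 0, 67108864⟩, ⟨2, 1, 0, 67108864⟩]]

noncomputable def f_mm_101 : ℕ → ℕ → ℕ → ℕ → Bool := onCell 536870912 536870912 0 536870912 201326592 134217728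
    (rowF 0 true false false .npn 1 0 1 (qsf 536870912 536870912 0 536870912 1) ndF0q1 ndF0q0 pcF1 cut_mm_101 Ext.none)

def k0_mm_101 : ∃ t, chk3 f_mm_101 t 1 1 1 = true :=
  ⟨(l 14), by decide +kernel⟩

theorem c_mm_101 : CertF 536870912 536870912 0 536870912 201326592 134217728 true false false .npn 1 0 1
    ndF0q1 ndF0q0 pcF1 cut_mm_101 Ext.none :=
  certF0 (fam := true) (s1 := false) (s2 := false) (a := 1) (b := 0) (c := 1) (cn := .npn) (n1 := ndF0q1) (n2 := ndF0q0) (pc := pcF1) (cut := cut_mm_101) (xt := Ext.none) (P1 := 536870912) (W1 := 536870912) (P2 := 0) (W2 := 536870912) (P3 := 201326592) (W3 := 134217728)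
    rfl k0_mm_101

noncomputable def cut_mm_102 : Cut := Cut.of [[⟨3, 0, 0, 1449551462⟩], [⟨4, 0, 0, 2845415833⟩], [⟨0, 1, 0, 67108864⟩, ⟨1, 0, 0, 67108864⟩, ⟨2, 1, 0, 67108864⟩]]

noncomputable def f_mm_102 : ℕ → ℕ → ℕ → ℕ → Bool := onCell 536870912 536870912 0 536870912 201326592 134217728
    (rowF 0 true false false .npp 1 0 2 (qsf 536870912 536870912 0 536870912 2) ndF0q1 ndF0q0 pcF2 cut_mm_102 Ext.none)

def k0_mm_102 : ∃ t, chk3 f_mm_102 t 1 1 1 = true :=
  ⟨(l 14), by decide +kernel⟩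

theorem c_mm_102 : CertF 536870912 536870912 0 536870912 201326592 134217728 true false false .npp 1 0 2
    ndF0q1 ndF0q0 pcF2 cut_mm_102 Ext.none :=
  certF0 (fam := true) (s1 := false) (s2 := false) (a := 1) (b := 0) (c := 2) (cn := .npp) (n1 := ndF0q1) (n2 := ndF0q0) (pc := pcF2) (cut := cut_mm_102) (xt := Ext.none) (P1 := 536870912) (W1 := 536870912) (P2 := 0) (W2 := 536870912) (P3 := 201326592) (W3 := 134217728)
    rfl k0_mm_102

noncomputable def cut_mm_112 : Cut := Cut.of [[⟨3, 0, 0, 1449551462⟩], [⟨4, 0, 0, 2845415833⟩]]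

noncomputable def f_mm_112 : ℕ → ℕ → ℕ → ℕ → Bool := onCell 536870912 536870912 536870912 536870912 201326592 134217728
    (rowF 0 true false false .dn 1 1 2 (qsf 536870912 536870912 536870912 536870912 2) ndF0q1 ndF0q1 pcF2 cut_mm_112 Ext.none)

def k0_mm_112 : ∃ t, chk3 f_mm_112 t 1 1 1 = true :=
  ⟨(l 4), by decide +kernel⟩

theorem c_mm_112 : CertF 536870912 536870912 536870912 536870912 201326592 134217728 true false false .dn 1 1 2
    ndF0q1 ndF0q1 pcF2 cut_mm_112 Ext.none :=
  certF0 (fam := true) (s1 := false) (s2 := false) (a := 1) (b := 1) (c := 2) (cn := .dn) (n1 := ndF0q1) (n2 := ndF0q1) (pc := pcF2) (cut := cut_mm_112) (xt := Ext.none) (P1 := 536870912) (W1 := 536870912) (P2 := 536870912) (W2 := 536870912) (P3 := 201326592) (W3 := 134217728)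
    rfl k0_mm_112

noncomputable def cut_mm_113 : Cut := Cut.of [[⟨3, 0, 0, 1449551462⟩], [⟨4, 0, 0, 2845415833⟩]]

noncomputable def f_mm_113 : ℕ → ℕ → ℕ → ℕ → Bool := onCell 536870912 536870912 536870912 536870912 201326592 134217728
    (rowF 0 true false false .nn 1 1 3 (qsf 536870912 536870912 536870912 536870912 3) ndF0q1 ndF0q1 pcF3 cut_mm_113 Ext.none)

def k0_mm_113 : ∃ t, chk3 f_mm_113 t 1 1 1 = true :=
  ⟨(l 4), by decide +kernel⟩

theorem c_mm_113 : CertF 536870912 536870912 536870912 536870912 201326592 134217728 true false false .nn 1 1 3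
    ndF0q1 ndF0q1 pcF3 cut_mm_113 Ext.none :=
  certF0 (fam := true) (s1 := false) (s2 := false) (a := 1) (b := 1) (c := 3) (cn := .nn) (n1 := ndF0q1) (n2 := ndF0q1) (pc := pcF3) (cut := cut_mm_113) (xt := Ext.none) (P1 := 536870912) (W1 := 536870912) (P2 := 536870912) (W2 := 536870912) (P3 := 201326592) (W3 := 134217728)
    rfl k0_mm_113

noncomputable def cut_mm_123 : Cut := Cut.of [[⟨3, 0, 0, 1449551462⟩], [⟨4, 0, 0, 2845415833⟩]]

noncomputable def f_mm_123 : ℕ → ℕ → ℕ → ℕ → Bool := onCell 536870912 536870912 0 536870912 201326592 134217728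
    (rowF 0 true false false .npn 1 2 3 (qsf 536870912 536870912 0 536870912 3) ndF0q1 ndF0q2 pcF3 cut_mm_123 Ext.none)

def k0_mm_123 : ∃ t, chk3 f_mm_123 t 1 1 1 = true :=
  ⟨(a (l 5) (l 4)), by decide +kernel⟩

theorem c_mm_123 : CertF 536870912 536870912 0 536870912 201326592 134217728 true false false .npn 1 2 3
    ndF0q1 ndF0q2 pcF3 cut_mm_123 Ext.none :=
  certF0 (fam := true) (s1 := false) (s2 := false) (a := 1) (b := 2) (c := 3) (cn := .npn) (n1 := ndF0q1) (n2 := ndF0q2) (pc := pcF3) (cut := cut_mm_123) (xt := Ext.none) (P1 := 536870912) (W1 := 536870912) (P2 := 0) (W2 := 536870912) (P3 := 201326592) (W3 := 134217728)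
    rfl k0_mm_123

noncomputable def cut_mm_202 : Cut := Cut.of [[⟨3, 0, 0, 1449551462⟩], [⟨4, 0, 0, 2845415833⟩], [⟨0, 1, 0, 67108864⟩, ⟨1, 0, 0, 67108864⟩, ⟨2, 1, 0, 67108864⟩]]

noncomputable def f_mm_202 : ℕ → ℕ → ℕ → ℕ → Bool := onCell 0 536870912 0 536870912 201326592 134217728
    (rowF 0 true false false .pp 2 0 2 (qsf 0 536870912 0 536870912 2) ndF0q2 ndF0q0 pcF2 cut_mm_202 Ext.none)

def k0_mm_202 : ∃ t, chk3 f_mm_202 t 4 2 1 = true :=
  ⟨(b (b (a (b (c (a (b (l 16562784) (l 16549872)) (b (c (l 16569680) (l 16576680)) (l 16581688))) (a (b (l 16569816) (l 16560504)) (b (l 16581672) (l 16572112)))) (c (a (c (l 16562464) (l 16552496)) (l 16580376)) (a (l 16584960) (l 16554904)))) (b (b (c (a (l 16580032) (l 16590848)) (a (l 16586896) (l 16595112))) (c (a (l 16568440) (l 16581696)) (l 16604664))) (c (a (l 16592632) (l 16609696)) (a (l 16564912) (l 16578680))))) (a (b (c (a (l 16697616) (l 16629112)) (a (l 16561272) (l 16531368))) (c (a (l 16863552) (l 16855288))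 (l 16584448))) (b (c (a (l 16614872) (l 16592256)) (l 16619128)) (c (a (l 16840856) (l 16820520)) (l 16603520))))) (b (c (a (b (l 16988768) (l 17058744)) (b (a (l 16965320) (l 16943192)) (l 17015904))) (a (b (l 16579600) (l 16736808)) (b (l 16596648) (l 16724864)))) (a (c (b (l 17090560) (l 17097424)) (b (l 16836704) (l 16897672))) (c (b (l 17039896) (l 17039776)) (b (l 16815640) (l 16867696)))))), by decide +kernel⟩

def k1_mm_202 : ∃ t, chk3 f_mm_202 t 5 2 1 = true :=
  ⟨(b (b (a (b (c (b (a (l 16605960) (l 16622136)) (a (l 16599264) (l 16617792))) (b (a (l 16606440) (l 16618840)) (a (l 16602120) (l 16616592)))) (c (a (l 16631064) (b (l 16613416) (l 16609064))) (a (l 16595504) (l 16613104)))) (b (c (b (a (l 16636640) (c (l 16650960) (l 16648928))) (a (l 16634432) (l 16649888))) (b (a (l 16630744) (l 16642776)) (a (l 16630392) (l 16644184)))) (c (a (b (l 16632200) (l 16630048)) (b (l 16649616) (l 16649400))) (b (a (l 16629984) (l 16645528)) (l 16701680))))) (a (b (c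 (a (l 16596680) (l 16623784)) (a (l 16586760) (l 16608736))) (c (a (l 16794800) (l 16763960)) (l 16655376))) (b (c (a (l 16648064) (l 16680816)) (a (l 16629296) (l 16649200))) (a (c (l 16728336) (l 16630144)) (c (l 16668256) (l 16653632)))))) (b (a (b (c (a (l 16916776) (l 16886944)) (l 16651408)) (c (a (l 16974416) (l 16942672)) (a (l 16710776) (l 16699832)))) (a (b (c (l 16854560) (l 16633056)) (c (l 16909480) (l 16689328))) (b (c (l 16820592) (l 16681216)) (l 14)))) (a (a (b (c (l 16993352) (l 16795872)) (c (l 16988520) (l 16841920))) (b (c (l 16958800) (l 16781800)) (l 14))) (l 14)))), by decide +kernel⟩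

def k2_mm_202 : ∃ t, chk3 f_mm_202 t 2 3 1 = true :=
  ⟨(a (b (b (a (c (b (l 17087664) (l 17066576)) (b (l 16931424) (l 16945760))) (b (c (l 17024200) (l 16893384)) (c (l 16998544) (a (l 16912680) (l 14))))) (a (b (c (l 17037696) (l 16945992)) (c (l 17003496) (l 16935864))) (l 14))) (l 2)) (l 14)), by decide +kernel⟩

def k3_mm_202 : ∃ t, chk3 f_mm_202 t 3 1 1 = true :=
  ⟨(b (b (a (b (b (a (b (c (a (c (l 16664224) (l 16661688)) (b (c (l 16676416) (l 16673424)) (l 16687104))) (a (b (l 16654328) (l 16655864)) (b (l 16666384) (l 16668632)))) (c (a (l 16706584) (c (l 16679840) (l 16677576))) (a (l 16658080) (l 16691576)))) (a (a (b (c (b (l 16684408) (l 16686448)) (b (l 16675704) (l 16678424))) (l 14)) (l 14)) (l 14))) (a (c (a (b (l 16666128) (l 16667672)) (b (c (l 16682648) (l 16680920)) (l 16706016))) (a (b (l 16661024) (l 16663992)) (b (l 16676288) (l 16680680)))) (l 14))) (a (b (a (c (b (l 16669384) (l 16671384)) (l 16710592)) (l 14)) (l 14)) (l 14))) (l 14)) (l 14))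 (l 14)), by decide +kernel⟩

theorem s4_mm_202 : ∃ t, chk3 f_mm_202 t 2 2 1 = true := ex3_a k0_mm_202 k1_mm_202

theorem s5_mm_202 : ∃ t, chk3 f_mm_202 t 2 1 1 = true := ex3_b s4_mm_202 k2_mm_202

theorem s6_mm_202 : ∃ t, chk3 f_mm_202 t 1 1 1 = true := ex3_a s5_mm_202 k3_mm_202

theorem c_mm_202 : CertF 0 536870912 0 536870912 201326592 134217728 true false false .pp 2 0 2
    ndF0q2 ndF0q0 pcF2 cut_mm_202 Ext.none :=
  certF0 (fam := true) (s1 := false) (s2 := false) (a := 2) (b := 0) (c := 2) (cn := .pp) (n1 := ndF0q2) (n2 := ndF0q0) (pc := pcF2) (cut := cut_mm_202) (xt := Ext.none) (P1 := 0) (W1 := 536870912) (P2 := 0) (W2 := 536870912) (P3 := 201326592) (W3 := 134217728)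
    rfl s6_mm_202

noncomputable def cut_mm_203 : Cut := Cut.of [[⟨3, 0, 0, 1449551462⟩], [⟨4, 0, 0, 2845415833⟩]]

noncomputable def f_mm_203 : ℕ → ℕ → ℕ → ℕ → Bool := onCell 0 536870912 1610612736 536870912 201326592 134217728
    (rowF 1 true false false .up 2 0 3 (qsf 0 536870912 0 536870912 3) ndF0q2 ndF0q0 pcF3 cut_mm_203 Ext.none)

def k0_mm_203 : ∃ t, chk3 f_mm_203 t 1 1 1 = true :=
  ⟨(a (b (b (b (a (a (a (b (c (b (l 17098168) (l 17072576)) (b (l 16936536) (l 16928664))) (l 14)) (l 14)) (l 14)) (l 14)) (l 14)) (l 14)) (l 2)) (l 14)), by decide +kernel⟩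

theorem c_mm_203 : CertF 0 536870912 0 536870912 201326592 134217728 true false false .up 2 0 3
    ndF0q2 ndF0q0 pcF3 cut_mm_203 Ext.none :=
  certF1 (fam := true) (s1 := false) (s2 := false) (a := 2) (b := 0) (c := 3) (cn := .up) (n1 := ndF0q2) (n2 := ndF0q0) (pc := pcF3) (cut := cut_mm_203) (xt := Ext.none) (P1 := 0) (W1 := 536870912) (P2 := 0) (W2 := 536870912) (P3 := 201326592) (W3 := 134217728)
    rfl (fun _ => rfl) k0_mm_203

noncomputable def cut_mm_213 : Cut := Cut.of [[⟨3, 0, 0, 1449551462⟩], [⟨4, 0, 0, 2845415833⟩]]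

noncomputable def f_mm_213 : ℕ → ℕ → ℕ → ℕ → Bool := onCell 0 536870912 536870912 536870912 201326592 134217728
    (rowF 0 true false false .pnn 2 1 3 (qsf 0 536870912 536870912 536870912 3) ndF0q2 ndF0q1 pcF3 cut_mm_213 Ext.none)

def k0_mm_213 : ∃ t, chk3 f_mm_213 t 1 1 1 = true :=
  ⟨(a (l 14) (l 4)), by decide +kernel⟩

theorem c_mm_213 : CertF 0 536870912 536870912 536870912 201326592 134217728 true false false .pnn 2 1 3
    ndF0q2 ndF0q1 pcF3 cut_mm_213 Ext.none :=
  certF0 (fam := true) (s1 := false) (s2 := false) (a := 2) (b := 1) (c := 3) (cn := .pnn) (n1 := ndF0q2) (n2 := ndF0q1) (pc := pcF3) (cut := cut_mm_213) (xt := Ext.none) (P1 := 0) (W1 := 536870912) (P2 := 536870912) (W2 := 536870912) (P3 := 201326592) (W3 := 134217728)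
    rfl k0_mm_213

end Pool.Agent.Strip051.G.I3_16_5_16.Tab.C.FA00

namespace Pool.Agent.Strip051.G.I3_16_5_16.Tab.C.FA01

open Pool.Agent.Strip051.PB Pool.Agent.Strip051.PB.T
open Pool.Agent.Strip051.G.I3_16_5_16.Tab

noncomputable def f_pp_001 : ℕ → ℕ → ℕ → ℕ → Bool := onCell 0 536870912 0 536870912 201326592 134217728
    (rowF 0 true true true .up 0 0 1 (qsf 0 536870912 0 536870912 1) ndF0q0 ndF1q0 pcF1 Cut.none Ext.none)

def k0_pp_001 : ∃ t, chk3 f_pp_001 t 1 1 1 = true :=
  ⟨(l 4), by decide +kernel⟩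

theorem c_pp_001 : CertF 0 536870912 0 536870912 201326592 134217728 true true true .up 0 0 1
    ndF0q0 ndF1q0 pcF1 Cut.none Ext.none :=
  certF0 (fam := true) (s1 := true) (s2 := true) (a := 0) (b := 0) (c := 1) (cn := .up) (n1 := ndF0q0) (n2 := ndF1q0) (pc := pcF1) (cut := Cut.none) (xt := Ext.none) (P1 := 0) (W1 := 536870912) (P2 := 0) (W2 := 536870912) (P3 := 201326592) (W3 := 134217728)
    rfl k0_pp_001

noncomputable def f_pp_011 : ℕ → ℕ → ℕ → ℕ → Bool := onCell 0 536870912 536870912 536870912 201326592 134217728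
    (rowF 0 true true true .pnn 0 1 1 (qsf 0 536870912 536870912 536870912 1) ndF0q0 ndF1q1 pcF1 Cut.none Ext.none)

def k0_pp_011 : ∃ t, chk3 f_pp_011 t 1 1 1 = true :=
  ⟨(l 4), by decide +kernel⟩

theorem c_pp_011 : CertF 0 536870912 536870912 536870912 201326592 134217728 true true true .pnn 0 1 1
    ndF0q0 ndF1q1 pcF1 Cut.none Ext.none :=
  certF0 (fam := true) (s1 := true) (s2 := true) (a := 0) (b := 1) (c := 1) (cn := .pnn) (n1 := ndF0q0) (n2 := ndF1q1) (pc := pcF1) (cut := Cut.none) (xt := Ext.none) (P1 := 0) (W1 := 536870912) (P2 := 536870912) (W2 := 536870912) (P3 := 201326592) (W3 := 134217728)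
    rfl k0_pp_011

noncomputable def f_pp_012 : ℕ → ℕ → ℕ → ℕ → Bool := onCell 0 536870912 536870912 536870912 201326592 134217728
    (rowF 0 true true true .pnp 0 1 2 (qsf 0 536870912 536870912 536870912 2) ndF0q0 ndF1q1 pcF2 Cut.none Ext.none)

def k0_pp_012 : ∃ t, chk3 f_pp_012 t 1 1 1 = true :=
  ⟨(l 4), by decide +kernel⟩

theorem c_pp_012 : CertF 0 536870912 536870912 536870912 201326592 134217728 true true true .pnp 0 1 2
    ndF0q0 ndF1q1 pcF2 Cut.none Ext.none :=
  certF0 (fam := true) (s1 := true) (s2 := true) (a := 0) (b := 1) (c := 2) (cn := .pnp) (n1 := ndF0q0) (n2 := ndF1q1) (pc := pcF2) (cut := Cut.none) (xt := Ext.none) (P1 := 0) (W1 := 536870912) (P2 := 536870912) (W2 := 536870912) (P3 := 201326592) (W3 := 134217728)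
    rfl k0_pp_012

end Pool.Agent.Strip051.G.I3_16_5_16.Tab.C.FA01

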