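import Pool.Agent.Strip051.G.I3_16_5_16.Tab

/-! # Certificates F1 (generated) -/

set_option linter.all false
set_option maxRecDepth 100000

namespace Pool.Agent.Strip051.G.I3_16_5_16.Tab.C.FA01

open Pool.Agent.Strip051.PB Pool.Agent.Strip051.PB.T
open Pool.Agent.Strip051.G.I3_16_5_16.Tab

noncomputable def cut_pp_022_a : Cut := Cut.of [[⟨0, 0, 0, 67108864⟩, ⟨1, 1, 0, 67108864⟩, ⟨2, 1, 0, 67108864⟩]]

noncomputable def f_pp_022_a : ℕ → ℕ → ℕ → ℕ → Bool := onCell 0 536870912 0 536870912 201326592 134217728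
    (rowF 0 true true true .pp 0 2 2 (qsf 0 536870912 0 536870912 2) ndF0q0 ndF1q2a pcF2 cut_pp_022_a Ext.none)

def k0_pp_022_a : ∃ t, chk3 f_pp_022_a t 4 2 1 = true :=
  ⟨(a (b (b (a (c (a (l 16575632) (l 16578616)) (l 16578568)) (c (l 16583704) (l 16587696))) (a (c (a (l 16582656) (l 16587776)) (a (l 16582272) (l 16588480))) (c (a (l 16593248) (l 16599296)) (l 16598232)))) (a (b (c (a (c (l 16594280) (l 16595200)) (l 16622760)) (a (l 16593248) (l 16600992))) (c (a (b (l 16606976) (c (l 16616464) (l 16616168))) (b (l 16614872) (l 16624920))) (a (b (l 16604264) (l 16613136)) (l 16638648)))) (b (c (a (l 16609000) (l 16616680)) (a (l 16609008) (l 16617392))) (c (a (b (l 16623056) (l 16633624)) (l 16679152)) (a (l 16647728) (l 16636168)))))) (b (a (c (b (l 16668144) (l 16638360)) (b (l 16598752) (l 16613296))) (b (c (l 16852704) (l 16613120)) (c (l 16829008) (l 16631864)))) (a (b (c (a (l 16625096) (l 16642272)) (l 16651920)) (c (a (l 16667568) (l 16677784)) (b (l 16645720) (l 16677280))))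 (b (c (a (l 16745440) (l 16814832)) (l 16673296)) (a (c (l 16697512) (l 16688976)) (c (l 16756400) (l 16724664))))))), by decide +kernel⟩

def k1_pp_022_a : ∃ t, chk3 f_pp_022_a t 4 6 1 = true :=
  ⟨(a (b (a (a (c (b (c (l 16627376) (l 16626544)) (a (c (l 16637336) (l 16635904)) (l 16641216))) (b (l 16623104) (a (l 16631944) (l 16636768)))) (c (b (l 16667376) (c (l 16648464) (l 16647280))) (b (l 16632576) (l 16643992)))) (a (c (b (l 16645008) (c (l 16657752) (l 16656696))) (b (l 16642224) (l 16653840))) (c (b (l 16654400) (l 16687920)) (b (l 16652104) (l 16663896))))) (a (a (b (c (a (c (l 16651200) (l 16649560)) (c (l 16655688) (l 16654168))) (a (l 16645664) (l 16650568))) (c (a (c (b (l 16662728) (l 16670992)) (l 16686120)) (c (l 16692304) (l 16669776))) (a (b (l 16657360) (l 16665776)) (l 16687464)))) (b (c (a (c (l 16660248) (l 16658824)) (l 16685248)) (a (l 16655496) (l 16660440))) (c (a (c (l 16696848) (l 16674440)) (c (l 16701456) (l 16679152))) (a (l 16692416) (l 16697384)))))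 (a (c (b (a (l 16689976) (l 16673808)) (a (b (l 16680528) (l 16688688)) (c (l 16710888) (l 16688744)))) (b (l 16699328) (a (l 16702384) (l 16707408)))) (a (c (b (l 16678672) (b (l 16690192) (l 16720520))) (b (l 16675528) (l 16713264))) (b (c (l 16683632) (l 16680672)) (c (b (l 16696744) (l 16730224)) (l 16731688))))))) (a (b (a (c (b (l 16664248) (l 16697920)) (b (l 16662360) (l 16674264))) (b (c (l 16674760) (l 16673176)) (c (l 16723024) (l 16709632)))) (a (a (b (c (l 16710984) (l 16708016)) (c (l 29225850631) (l 16744376))) (b (c (l 16719760) (l 16716480)) (l 4))) (l 4))) (b (a (b (c (l 16711184) (l 16688280)) (l 4)) (l 4)) (l 4)))), by decide +kernel⟩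

def k2_pp_022_a : ∃ t, chk3 f_pp_022_a t 4 7 1 = true :=
  ⟨(a (b (a (b (a (c (a (a (c (b (l 16678632) (l 16688136)) (l 16702608)) (c (l 16706552) (l 16704896))) (c (b (l 16684184) (l 16693648)) (b (l 16682608) (l 16692128)))) (a (b (l 16674680) (a (l 16683272) (l 16685728))) (b (l 16679616) (l 16689400)))) (a (c (b (c (l 16688680) (l 16687248)) (c (l 16698104) (l 16696728))) (b (l 16684544) (l 16694312))) (c (b (l 16703096) (c (l 16702608) (l 16701360))) (b (l 16689496) (l 16699232))))) (a (b (a (a (l 6) (a (l 6) (c (l 16701328) (l 16698152)))) (c (c (a (l 16703632) (l 16705840)) (l 16713936)) (a (l 16699992) (l 16702448)))) (a (l 6) (a (l 6) (b (c (l 16714136) (l 16711848)) (l 6))))) (a (c (b (c (l 16719624) (l 16708040)) (c (a (l 16730328) (l 16732568)) (a (l 16719000) (l 16731816)))) (b (l 16719232) (a (l 16728032) (l 16730528)))) (a (c (b (l 16722504) (c (l 16735760) (l 16735016))) (b (l 16709832) (l 16739024))) (b (c (l 16730312) (l 16712536)) (b (c (l 16735552) (l 16723312))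 (l 4))))))) (b (b (a (c (a (l 16707752) (l 16723832)) (a (l 16694464) (l 16700200))) (a (c (l 16732944) (l 16729896)) (l 4))) (a (c (a (c (l 16718184) (l 16727504)) (c (l 16737160) (l 16735840))) (a (l 16725576) (l 16733720))) (l 4))) (a (a (b (a (c (a (l 16727560) (l 16729808)) (l 16737216)) (l 4)) (l 4)) (l 4)) (l 4)))) (a (a (l 6) (a (b (l 6) (l 4)) (l 4))) (l 4))) (l 4)), by decide +kernel⟩

def k3_pp_022_a : ∃ t, chk3 f_pp_022_a t 5 1 1 = true :=
  ⟨(b (a (a (b (b (c (l 16937064) (l 16637328)) (c (l 16913664) (l 16654968))) (b (c (l 16853912) (l 16721352)) (b (c (l 16838728) (l 16723648)) (c (l 38352787511) (l 37815855927))))) (b (b (l 16834704) (c (l 16939560) (l 16740960))) (b (c (l 30299871463) (l 28152212327)) (l 4)))) (b (a (b (l 16881624) (c (l 16932640) (l 16795152))) (b (c (l 16936640) (l 16827568)) (c (l 31373629207) (l 29762915271)))) (l 4))) (l 4)), by decide +kernel⟩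

def k4_pp_022_a : ∃ t, chk3 f_pp_022_a t 3 1 1 = true :=
  ⟨(b (a (a (b (b (a (c (l 16904440) (l 16831080)) (l 4)) (l 4)) (l 4)) (l 4)) (l 4)) (l 4)), by decide +kernel⟩

theorem s5_pp_022_a : ∃ t, chk3 f_pp_022_a t 4 3 1 = true := ex3_b k1_pp_022_a k2_pp_022_a

theorem s6_pp_022_a : ∃ t, chk3 f_pp_022_a t 4 1 1 = true := ex3_b k0_pp_022_a s5_pp_022_a

theorem s7_pp_022_a : ∃ t, chk3 f_pp_022_a t 2 1 1 = true := ex3_a s6_pp_022_a k3_pp_022_a

theorem s8_pp_022_a : ∃ t, chk3 f_pp_022_a t 1 1 1 = true := ex3_a s7_pp_022_a k4_pp_022_a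

theorem c_pp_022_a : CertF 0 536870912 0 536870912 201326592 134217728 true true true .pp 0 2 2
    ndF0q0 ndF1q2a pcF2 cut_pp_022_a Ext.none :=
  certF0 (fam := true) (s1 := true) (s2 := true) (a := 0) (b := 2) (c := 2) (cn := .pp) (n1 := ndF0q0) (n2 := ndF1q2a) (pc := pcF2) (cut := cut_pp_022_a) (xt := Ext.none) (P1 := 0) (W1 := 536870912) (P2 := 0) (W2 := 536870912) (P3 := 201326592) (W3 := 134217728)
    rfl s8_pp_022_a

noncomputable def cut_pp_022_b : Cut := Cut.of [[⟨0, 0, 0, 67108864⟩, ⟨1, 1, 0, 67108864⟩, ⟨2, 1, 0, 67108864⟩]]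

noncomputable def f_pp_022_b : ℕ → ℕ → ℕ → ℕ → Bool := onCell 0 536870912 1239849684 370763052 201326592 134217728
    (rowF 0 true true true .pp 0 2 2 (qsf 0 536870912 1239849684 370763052 2) ndF0q0 ndF1q2b pcF2 cut_pp_022_b Ext.none)

def k0_pp_022_b : ∃ t, chk3 f_pp_022_b t 2 1 1 = true :=
  ⟨(b (a (b (a (b (a (c (b (a (l 16576440) (l 16558024)) (a (l 16520248) (l 16524528))) (a (b (l 16557000) (l 16521584)) (l 16585232))) (c (b (a (l 16560968) (l 16564568)) (a (l 16591080) (l 16750816))) (b (l 16567048) (l 16535600)))) (a (c (a (l 16535840) (l 16765208)) (b (l 16491336) (l 16461312))) (c (b (l 16883264) (l 17060360)) (l 16514352)))) (b (a (b (c (a (l 16694368) (l 16805912)) (l 16577672)) (c (l 16909776) (l 16550680))) (c (b (l 16914120) (l 17023712)) (b (l 16592008) (l 16605128)))) (a (c (b (l 17049664) (l 17174504)) (l 16588104)) (c (l 17173976) (l 16767480))))) (a (b (a (c (b (l 17051432) (l 17236944)) (l 16421680)) (c (l 17280032) (l 16669872))) (a (c (l 17459088) (l 16781392))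 (c (l 17504160) (l 16960544)))) (b (a (c (l 17334888) (l 16853120)) (c (l 17343536) (l 16960256))) (c (a (l 17504336) (l 17477952)) (a (l 17065472) (l 17123024)))))) (b (a (b (a (c (b (l 16986064) (l 17069816)) (b (l 16673784) (l 16752608))) (b (c (l 17007584) (l 16775968)) (l 16870592))) (c (a (l 17187752) (l 17173768)) (a (l 16871032) (l 16926424)))) (b (a (b (c (l 16999528) (l 16828568)) (l 16966104)) (b (c (l 16974520) (l 16849952)) (l 16958408))) (a (c (l 17143832) (l 16951368)) (l 4)))) (a (b (c (a (l 17325000) (l 17290256)) (a (l 17019136) (l 17046312))) (a (l 17291256) (l 4))) (l 4)))) (a (a (b (b (c (a (l 17676168) (l 17666016)) (a (l 17082360) (l 17181200))) (c (l 18055608) (a (l 17302696) (l 17347480)))) (b (a (l 17690056) (l 4)) (l 4))) (b (b (a (l 17430560) (l 4)) (l 4)) (l 4))) (l 4))), by decide +kernel⟩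

def k1_pp_022_b : ∃ t, chk3 f_pp_022_b t 3 1 1 = true :=
  ⟨(b (a (b (a (b (a (b (c (l 16941120) (l 16852616)) (l 4)) (l 4)) (l 4)) (l 4)) (l 4)) (l 2)) (l 2)), by decide +kernel⟩

theorem s2_pp_022_b : ∃ t, chk3 f_pp_022_b t 1 1 1 = true := ex3_a k0_pp_022_b k1_pp_022_b

theorem c_pp_022_b : CertF 0 536870912 1239849684 370763052 201326592 134217728 true true true .pp 0 2 2
    ndF0q0 ndF1q2b pcF2 cut_pp_022_b Ext.none :=
  certF0 (fam := true) (s1 := true) (s2 := true) (a := 0) (b := 2) (c := 2) (cn := .pp) (n1 := ndF0q0) (n2 := ndF1q2b) (pc := pcF2) (cut := cut_pp_022_b) (xt := Ext.none) (P1 := 0) (W1 := 536870912) (P2 := 1239849684) (W2 := 370763052) (P3 := 201326592) (W3 := 134217728)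
    rfl s2_pp_022_b

noncomputable def f_pp_023_a : ℕ → ℕ → ℕ → ℕ → Bool := onCell 1610612736 536870912 0 536870912 201326592 134217728
    (rowF 2 true true true .up 0 2 3 (qsf 0 536870912 0 536870912 3) ndF0q0 ndF1q2a pcF3 Cut.none Ext.none)

def k0_pp_023_a : ∃ t, chk3 f_pp_023_a t 1 1 1 = true :=
  ⟨(a (l 4) (l 2)), by decide +kernel⟩

theorem c_pp_023_a : CertF 0 536870912 0 536870912 201326592 134217728 true true true .up 0 2 3
    ndF0q0 ndF1q2a pcF3 Cut.none Ext.none :=
  certF2 (fam := true) (s1 := true) (s2 := true) (a := 0) (b := 2) (c := 3) (cn := .up) (n1 := ndF0q0) (n2 := ndF1q2a) (pc := pcF3) (cut := Cut.none) (xt := Ext.none) (P1 := 0) (W1 := 536870912) (P2 := 0) (W2 := 536870912) (P3 := 201326592) (W3 := 134217728)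
    rfl (fun _ => rfl) k0_pp_023_a

noncomputable def f_pp_023_b : ℕ → ℕ → ℕ → ℕ → Bool := onCell 1610612736 536870912 1239849684 370763052 201326592 134217728
    (rowF 2 true true true .up 0 2 3 (qsf 0 536870912 1239849684 370763052 3) ndF0q0 ndF1q2b pcF3 Cut.none Ext.none)

def k0_pp_023_b : ∃ t, chk3 f_pp_023_b t 1 1 1 = true :=
  ⟨(a (l 4) (l 4)), by decide +kernel⟩

theorem c_pp_023_b : CertF 0 536870912 1239849684 370763052 201326592 134217728 true true true .up 0 2 3
    ndF0q0 ndF1q2b pcF3 Cut.none Ext.none :=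
  certF2 (fam := true) (s1 := true) (s2 := true) (a := 0) (b := 2) (c := 3) (cn := .up) (n1 := ndF0q0) (n2 := ndF1q2b) (pc := pcF3) (cut := Cut.none) (xt := Ext.none) (P1 := 0) (W1 := 536870912) (P2 := 1239849684) (W2 := 370763052) (P3 := 201326592) (W3 := 134217728)
    rfl (fun _ => rfl) k0_pp_023_b

noncomputable def f_pp_033 : ℕ → ℕ → ℕ → ℕ → Bool := onCell 0 536870912 1610612736 536870912 201326592 134217728
    (rowF 0 true true true .pnn 0 3 3 (qsf 0 536870912 1610612736 536870912 3) ndF0q0 ndF1q3 pcF3 Cut.none Ext.none)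

def k0_pp_033 : ∃ t, chk3 f_pp_033 t 1 1 1 = true :=
  ⟨(a (b (l 4) (l 4)) (l 4)), by decide +kernel⟩

theorem c_pp_033 : CertF 0 536870912 1610612736 536870912 201326592 134217728 true true true .pnn 0 3 3
    ndF0q0 ndF1q3 pcF3 Cut.none Ext.none :=
  certF0 (fam := true) (s1 := true) (s2 := true) (a := 0) (b := 3) (c := 3) (cn := .pnn) (n1 := ndF0q0) (n2 := ndF1q3) (pc := pcF3) (cut := Cut.none) (xt := Ext.none) (P1 := 0) (W1 := 536870912) (P2 := 1610612736) (W2 := 536870912) (P3 := 201326592) (W3 := 134217728)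
    rfl k0_pp_033

noncomputable def f_pp_101 : ℕ → ℕ → ℕ → ℕ → Bool := onCell 536870912 536870912 0 536870912 201326592 134217728
    (rowF 0 true true true .npn 1 0 1 (qsf 536870912 536870912 0 536870912 1) ndF0q1 ndF1q0 pcF1 Cut.none Ext.none)

def k0_pp_101 : ∃ t, chk3 f_pp_101 t 1 1 1 = true :=
  ⟨(l 5), by decide +kernel⟩

theorem c_pp_101 : CertF 536870912 536870912 0 536870912 201326592 134217728 true true true .npn 1 0 1
    ndF0q1 ndF1q0 pcF1 Cut.none Ext.none :=
  certF0 (fam := true) (s1 := true) (s2 := true) (a := 1) (b := 0) (c := 1) (cn := .npn) (n1 := ndF0q1) (n2 := ndF1q0) (pc := pcF1) (cut := Cut.none) (xt := Ext.none) (P1 := 536870912) (W1 := 536870912) (P2 := 0) (W2 := 536870912) (P3 := 201326592) (W3 := 134217728)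
    rfl k0_pp_101

noncomputable def f_pp_102 : ℕ → ℕ → ℕ → ℕ → Bool := onCell 536870912 536870912 0 536870912 201326592 134217728
    (rowF 0 true true true .npp 1 0 2 (qsf 536870912 536870912 0 536870912 2) ndF0q1 ndF1q0 pcF2 Cut.none Ext.none)

def k0_pp_102 : ∃ t, chk3 f_pp_102 t 1 1 1 = true :=
  ⟨(l 5), by decide +kernel⟩

theorem c_pp_102 : CertF 536870912 536870912 0 536870912 201326592 134217728 true true true .npp 1 0 2
    ndF0q1 ndF1q0 pcF2 Cut.none Ext.none :=
  certF0 (fam := true) (s1 := true) (s2 := true) (a := 1) (b := 0) (c := 2) (cn := .npp) (n1 := ndF0q1) (n2 := ndF1q0) (pc := pcF2) (cut := Cut.none) (xt := Ext.none) (P1 := 536870912) (W1 := 536870912) (P2 := 0) (W2 := 536870912) (P3 := 201326592) (W3 := 134217728)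
    rfl k0_pp_102

noncomputable def f_pp_112 : ℕ → ℕ → ℕ → ℕ → Bool := onCell 536870912 536870912 536870912 536870912 201326592 134217728
    (rowF 0 true true true .dn 1 1 2 (qsf 536870912 536870912 536870912 536870912 2) ndF0q1 ndF1q1 pcF2 Cut.none Ext.none)

def k0_pp_112 : ∃ t, chk3 f_pp_112 t 1 1 1 = true :=
  ⟨(l 4), by decide +kernel⟩

theorem c_pp_112 : CertF 536870912 536870912 536870912 536870912 201326592 134217728 true true true .dn 1 1 2
    ndF0q1 ndF1q1 pcF2 Cut.none Ext.none :=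
  certF0 (fam := true) (s1 := true) (s2 := true) (a := 1) (b := 1) (c := 2) (cn := .dn) (n1 := ndF0q1) (n2 := ndF1q1) (pc := pcF2) (cut := Cut.none) (xt := Ext.none) (P1 := 536870912) (W1 := 536870912) (P2 := 536870912) (W2 := 536870912) (P3 := 201326592) (W3 := 134217728)
    rfl k0_pp_112

noncomputable def f_pp_113 : ℕ → ℕ → ℕ → ℕ → Bool := onCell 536870912 536870912 536870912 536870912 201326592 134217728
    (rowF 0 true true true .nn 1 1 3 (qsf 536870912 536870912 536870912 536870912 3) ndF0q1 ndF1q1 pcF3 Cut.none Ext.none)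

def k0_pp_113 : ∃ t, chk3 f_pp_113 t 1 1 1 = true :=
  ⟨(l 4), by decide +kernel⟩

theorem c_pp_113 : CertF 536870912 536870912 536870912 536870912 201326592 134217728 true true true .nn 1 1 3
    ndF0q1 ndF1q1 pcF3 Cut.none Ext.none :=
  certF0 (fam := true) (s1 := true) (s2 := true) (a := 1) (b := 1) (c := 3) (cn := .nn) (n1 := ndF0q1) (n2 := ndF1q1) (pc := pcF3) (cut := Cut.none) (xt := Ext.none) (P1 := 536870912) (W1 := 536870912) (P2 := 536870912) (W2 := 536870912) (P3 := 201326592) (W3 := 134217728)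
    rfl k0_pp_113

noncomputable def f_pp_123_a : ℕ → ℕ → ℕ → ℕ → Bool := onCell 536870912 536870912 0 536870912 201326592 134217728
    (rowF 0 true true true .npn 1 2 3 (qsf 536870912 536870912 0 536870912 3) ndF0q1 ndF1q2a pcF3 Cut.none Ext.none)

def k0_pp_123_a : ∃ t, chk3 f_pp_123_a t 1 1 1 = true :=
  ⟨(l 4), by decide +kernel⟩

theorem c_pp_123_a : CertF 536870912 536870912 0 536870912 201326592 134217728 true true true .npn 1 2 3
    ndF0q1 ndF1q2a pcF3 Cut.none Ext.none :=
  certF0 (fam := true) (s1 := true) (s2 := true) (a := 1) (b := 2) (c := 3) (cn := .npn) (n1 := ndF0q1) (n2 := ndF1q2a) (pc := pcF3) (cut := Cut.none) (xt := Ext.none) (P1 := 536870912) (W1 := 536870912) (P2 := 0) (W2 := 536870912) (P3 := 201326592) (W3 := 134217728)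
    rfl k0_pp_123_a

noncomputable def f_pp_123_b : ℕ → ℕ → ℕ → ℕ → Bool := onCell 536870912 536870912 1239849684 370763052 201326592 134217728
    (rowF 0 true true true .npn 1 2 3 (qsf 536870912 536870912 1239849684 370763052 3) ndF0q1 ndF1q2b pcF3 Cut.none Ext.none)

def k0_pp_123_b : ∃ t, chk3 f_pp_123_b t 1 1 1 = true :=
  ⟨(l 4), by decide +kernel⟩

theorem c_pp_123_b : CertF 536870912 536870912 1239849684 370763052 201326592 134217728 true true true .npn 1 2 3
    ndF0q1 ndF1q2b pcF3 Cut.none Ext.none :=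
  certF0 (fam := true) (s1 := true) (s2 := true) (a := 1) (b := 2) (c := 3) (cn := .npn) (n1 := ndF0q1) (n2 := ndF1q2b) (pc := pcF3) (cut := Cut.none) (xt := Ext.none) (P1 := 536870912) (W1 := 536870912) (P2 := 1239849684) (W2 := 370763052) (P3 := 201326592) (W3 := 134217728)
    rfl k0_pp_123_b

noncomputable def f_pp_133 : ℕ → ℕ → ℕ → ℕ → Bool := onCell 536870912 536870912 1610612736 536870912 201326592 134217728
    (rowF 0 true true true .dn 1 3 3 (qsf 536870912 536870912 1610612736 536870912 3) ndF0q1 ndF1q3 pcF3 Cut.none Ext.none)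

def k0_pp_133 : ∃ t, chk3 f_pp_133 t 1 1 1 = true :=
  ⟨(l 4), by decide +kernel⟩

theorem c_pp_133 : CertF 536870912 536870912 1610612736 536870912 201326592 134217728 true true true .dn 1 3 3
    ndF0q1 ndF1q3 pcF3 Cut.none Ext.none :=
  certF0 (fam := true) (s1 := true) (s2 := true) (a := 1) (b := 3) (c := 3) (cn := .dn) (n1 := ndF0q1) (n2 := ndF1q3) (pc := pcF3) (cut := Cut.none) (xt := Ext.none) (P1 := 536870912) (W1 := 536870912) (P2 := 1610612736) (W2 := 536870912) (P3 := 201326592) (W3 := 134217728)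
    rfl k0_pp_133

noncomputable def f_pp_202 : ℕ → ℕ → ℕ → ℕ → Bool := onCell 0 536870912 0 536870912 201326592 134217728
    (rowF 0 true true true .pp 2 0 2 (qsf 0 536870912 0 536870912 2) ndF0q2 ndF1q0 pcF2 Cut.none Ext.none)

def k0_pp_202 : ∃ t, chk3 f_pp_202 t 1 1 1 = true :=
  ⟨(l 5), by decide +kernel⟩

theorem c_pp_202 : CertF 0 536870912 0 536870912 201326592 134217728 true true true .pp 2 0 2
    ndF0q2 ndF1q0 pcF2 Cut.none Ext.none :=
  certF0 (fam := true) (s1 := true) (s2 := true) (a := 2) (b := 0) (c := 2) (cn := .pp) (n1 := ndF0q2) (n2 := ndF1q0) (pc := pcF2) (cut := Cut.none) (xt := Ext.none) (P1 := 0) (W1 := 536870912) (P2 := 0) (W2 := 536870912) (P3 := 201326592) (W3 := 134217728)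
    rfl k0_pp_202

noncomputable def f_pp_203 : ℕ → ℕ → ℕ → ℕ → Bool := onCell 0 536870912 0 536870912 201326592 134217728
    (rowF 0 true true true .up 2 0 3 (qsf 0 536870912 0 536870912 3) ndF0q2 ndF1q0 pcF3 Cut.none Ext.none)

def k0_pp_203 : ∃ t, chk3 f_pp_203 t 1 1 1 = true :=
  ⟨(l 5), by decide +kernel⟩

theorem c_pp_203 : CertF 0 536870912 0 536870912 201326592 134217728 true true true .up 2 0 3
    ndF0q2 ndF1q0 pcF3 Cut.none Ext.none :=
  certF0 (fam := true) (s1 := true) (s2 := true) (a := 2) (b := 0) (c := 3) (cn := .up) (n1 := ndF0q2) (n2 := ndF1q0) (pc := pcF3) (cut := Cut.none) (xt := Ext.none) (P1 := 0) (W1 := 536870912) (P2 := 0) (W2 := 536870912) (P3 := 201326592) (W3 := 134217728)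
    rfl k0_pp_203

noncomputable def f_pp_213 : ℕ → ℕ → ℕ → ℕ → Bool := onCell 0 536870912 536870912 536870912 201326592 134217728
    (rowF 0 true true true .pnn 2 1 3 (qsf 0 536870912 536870912 536870912 3) ndF0q2 ndF1q1 pcF3 Cut.none Ext.none)

def k0_pp_213 : ∃ t, chk3 f_pp_213 t 1 1 1 = true :=
  ⟨(l 4), by decide +kernel⟩

theorem c_pp_213 : CertF 0 536870912 536870912 536870912 201326592 134217728 true true true .pnn 2 1 3
    ndF0q2 ndF1q1 pcF3 Cut.none Ext.none :=
  certF0 (fam := true) (s1 := true) (s2 := true) (a := 2) (b := 1) (c := 3) (cn := .pnn) (n1 := ndF0q2) (n2 := ndF1q1) (pc := pcF3) (cut := Cut.none) (xt := Ext.none) (P1 := 0) (W1 := 536870912) (P2 := 536870912) (W2 := 536870912) (P3 := 201326592) (W3 := 134217728)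
    rfl k0_pp_213

noncomputable def f_pm_001 : ℕ → ℕ → ℕ → ℕ → Bool := onCell 0 536870912 0 536870912 201326592 134217728
    (rowF 0 true true false .up 0 0 1 (qsf 0 536870912 0 536870912 1) ndF0q0 ndF1q0 pcF1 Cut.none Ext.none)

def k0_pm_001 : ∃ t, chk3 f_pm_001 t 1 1 1 = true :=
  ⟨(l 3), by decide +kernel⟩

theorem c_pm_001 : CertF 0 536870912 0 536870912 201326592 134217728 true true false .up 0 0 1
    ndF0q0 ndF1q0 pcF1 Cut.none Ext.none :=
  certF0 (fam := true) (s1 := true) (s2 := false) (a := 0) (b := 0) (c := 1) (cn := .up) (n1 := ndF0q0) (n2 := ndF1q0) (pc := pcF1) (cut := Cut.none) (xt := Ext.none) (P1 := 0) (W1 := 536870912) (P2 := 0) (W2 := 536870912) (P3 := 201326592) (W3 := 134217728)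
    rfl k0_pm_001

noncomputable def f_pm_011 : ℕ → ℕ → ℕ → ℕ → Bool := onCell 0 536870912 536870912 536870912 201326592 134217728
    (rowF 1 true true false .pnn 0 1 1 (qsf 0 536870912 536870912 536870912 1) ndF0q0 ndF1q1 pcF1 Cut.none Ext.none)

def k0_pm_011 : ∃ t, chk3 f_pm_011 t 1 1 1 = true :=
  ⟨(l 3), by decide +kernel⟩

theorem c_pm_011 : CertF 0 536870912 536870912 536870912 201326592 134217728 true true false .pnn 0 1 1
    ndF0q0 ndF1q1 pcF1 Cut.none Ext.none :=
  certF1 (fam := true) (s1 := true) (s2 := false) (a := 0) (b := 1) (c := 1) (cn := .pnn) (n1 := ndF0q0) (n2 := ndF1q1) (pc := pcF1) (cut := Cut.none) (xt := Ext.none) (P1 := 0) (W1 := 536870912) (P2 := 536870912) (W2 := 536870912) (P3 := 201326592) (W3 := 134217728)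
    rfl (fun _ => rfl) k0_pm_011

noncomputable def f_pm_012 : ℕ → ℕ → ℕ → ℕ → Bool := onCell 1073741824 536870912 536870912 536870912 201326592 134217728
    (rowF 2 true true false .pnp 0 1 2 (qsf 0 536870912 536870912 536870912 2) ndF0q0 ndF1q1 pcF2 Cut.none Ext.none)

def k0_pm_012 : ∃ t, chk3 f_pm_012 t 2 2 1 = true :=
  ⟨(a (a (l 3) (a (l 3) (b (b (l 2) (a (l 3) (b (l 2) (c (l 83920574455) (l 17094896))))) (b (a (l 3) (b (c (l 78551857239) (l 17071288)) (l 3))) (l 3))))) (a (a (a (a (b (b (l 2) (c (l 17178184) (l 17040168))) (b (c (l 17172864) (l 17069344)) (b (l 53855636407) (l 3)))) (b (l 2) (b (c (l 17176616) (l 17089032)) (c (b (l 17149592) (l 17151432)) (b (l 17025584) (l 17026352)))))) (b (l 2) (a (b (c (l 17159368) (l 17046696)) (c (b (l 17149528) (l 17148608)) (b (l 17019872) (l 17016808)))) (a (b (c (l 17163824) (l 17026928)) (c (l 17149752) (l 17015112))) (a (b (c (l 17166992) (l 17028248)) (c (l 17151632) (l 17014328))) (b (c (l 17168664) (l 17028704)) (c (l 17153160)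 (l 17014024)))))))) (b (l 2) (b (c (l 17186544) (l 17121392)) (b (l 17093896) (a (l 17080992) (l 17089040)))))) (b (l 2) (a (b (c (l 17220584) (l 17061000)) (c (l 17200480) (l 17031384))) (b (l 2) (c (l 17235584) (l 17059240))))))), by decide +kernel⟩

def k1_pm_012 : ∃ t, chk3 f_pm_012 t 4 3 1 = true :=
  ⟨(l 3), by decide +kernel⟩

def k2_pm_012 : ∃ t, chk3 f_pm_012 t 10 3 1 = true :=
  ⟨(a (a (b (b (a (l 3) (c (b (l 17151464) (l 17142056)) (l 91973209207))) (l 3)) (l 3)) (b (a (b (c (b (l 17147072) (l 17136592)) (b (l 17005984) (l 16996200))) (c (b (l 17105872) (l 17062144)) (b (l 17002104) (l 17000152)))) (a (b (c (l 17141464) (l 16986416)) (c (b (l 17103448) (l 17043280)) (b (l 16986296) (l 16985424)))) (a (b (c (l 17142208) (l 16983872)) (c (l 17076944) (b (l 16979312) (l 16979008)))) (b (c (l 17143128) (l 16982544)) (c (l 17078272) (l 16976088)))))) (a (b (l 3) (l 3)) (a (b (c (b (l 17040352) (l 17030920)) (b (l 16977528) (l 316921963895))) (l 3)) (b (a (c (b (l 17033128)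 (l 17024008)) (b (l 16971520) (a (l 16959016) (l 16957280)))) (c (b (l 17028912) (l 17020064)) (b (l 16967864) (l 16954664)))) (a (a (b (c (l 17010352) (l 420537962423)) (l 3)) (b (c (l 17008440) (l 16938784)) (c (l 16967080) (b (l 16921608) (l 3))))) (b (c (l 17005560) (l 16936288)) (c (l 16964320) (b (l 16919176) (l 16906176)))))))))) (b (b (c (b (l 17158016) (l 17146040)) (b (l 16990352) (l 16956928))) (c (b (l 17117864) (l 17059440)) (b (l 16935792) (l 16939568)))) (b (b (c (l 16991304) (l 16935488)) (c (l 16985120) (a (l 16938840) (l 16909472)))) (b (b (c (l 16975928) (l 16912152)) (c (l 16968168) (l 16902408))) (c (b (l 16958752) (a (l 16962760) (l 16932456))) (b (a (l 16904464) (l 16877488)) (a (a (l 16898176) (l 16885160)) (l 16865232)))))))), by decide +kernel⟩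

def k3_pm_012 : ∃ t, chk3 f_pm_012 t 11 3 1 = true :=
  ⟨(a (b (b (b (l 17092936) (l 17070896)) (b (l 17032928) (l 16964776))) (b (b (l 16892232) (c (l 16913920) (l 16862864))) (b (c (l 16905616) (l 16849592)) (c (l 16890280) (b (l 16835168) (l 16823832)))))) (b (b (c (l 17219968) (l 17015304)) (c (l 17187928) (l 16921096))) (b (b (l 16939208) (l 16815144)) (b (l 16809712) (c (l 16821528) (l 16769728)))))), by decide +kernel⟩

def k4_pm_012 : ∃ t, chk3 f_pm_012 t 3 1 1 = true :=
  ⟨(b (a (b (l 2) (a (b (l 2) (c (l 17282520) (l 17212456))) (l 2))) (l 2)) (a (b (b (a (c (l 17277064) (a (l 17053504) (l 17094192))) (c (l 17335568) (l 17233968))) (a (c (a (l 17239920) (l 17287792)) (b (l 17030016) (l 16982208))) (c (l 17346872) (l 17223600)))) (b (a (b (a (l 17028800) (l 17109904)) (c (l 17185144) (l 16791000))) (c (b (l 17349392) (l 17342200)) (b (l 17070944) (l 17016120)))) (a (b (a (l 16765664) (l 16934040)) (a (l 16725176) (l 16757656))) (b (c (l 17319512) (l 16930712)) (c (l 17269504)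 (l 16797288)))))) (b (b (l 2) (a (c (l 17393712) (l 17241960)) (l 2))) (a (b (c (l 17424920) (l 17177784)) (c (b (l 17442856) (l 17445056)) (b (l 17135024) (l 17081768)))) (b (c (l 17454168) (l 17275800)) (c (l 17507744) (l 17247976))))))), by decide +kernel⟩

theorem s5_pm_012 : ∃ t, chk3 f_pm_012 t 5 3 1 = true := ex3_a k2_pm_012 k3_pm_012

theorem s6_pm_012 : ∃ t, chk3 f_pm_012 t 2 3 1 = true := ex3_a k1_pm_012 s5_pm_012

theorem s7_pm_012 : ∃ t, chk3 f_pm_012 t 2 1 1 = true := ex3_b k0_pm_012 s6_pm_012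

theorem s8_pm_012 : ∃ t, chk3 f_pm_012 t 1 1 1 = true := ex3_a s7_pm_012 k4_pm_012

theorem c_pm_012 : CertF 0 536870912 536870912 536870912 201326592 134217728 true true false .pnp 0 1 2
    ndF0q0 ndF1q1 pcF2 Cut.none Ext.none :=
  certF2 (fam := true) (s1 := true) (s2 := false) (a := 0) (b := 1) (c := 2) (cn := .pnp) (n1 := ndF0q0) (n2 := ndF1q1) (pc := pcF2) (cut := Cut.none) (xt := Ext.none) (P1 := 0) (W1 := 536870912) (P2 := 536870912) (W2 := 536870912) (P3 := 201326592) (W3 := 134217728)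
    rfl (fun _ => rfl) s8_pm_012

noncomputable def cut_pm_022_a : Cut := Cut.of [[⟨0, 0, 0, 67108864⟩, ⟨1, 1, 0, 67108864⟩, ⟨2, 1, 0, 67108864⟩], [⟨0, 0, 1, 67108864⟩, ⟨1, 1, 0, 16777216⟩, ⟨2, 1, 1, 67108864⟩]]

noncomputable def f_pm_022_a : ℕ → ℕ → ℕ → ℕ → Bool := onCell 1073741824 536870912 0 536870912 201326592 134217728
    (rowF 2 true true false .pp 0 2 2 (qsf 0 536870912 0 536870912 2) ndF0q0 ndF1q2a pcF2 cut_pm_022_a Ext.none)

def k0_pm_022_a : ∃ t, chk3 f_pm_022_a t 4 2 1 = true :=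
  ⟨(b (l 1) (a (l 1) (a (l 1) (a (l 1) (b (l 1) (a (l 1) (b (l 1) (c (c (l 16558736) (l 16544624)) (l 16554752))))))))), by decide +kernel⟩

def k1_pm_022_a : ∃ t, chk3 f_pm_022_a t 10 2 1 = true :=
  ⟨(a (a (a (b (l 1) (b (l 1) (c (b (l 16534112) (c (l 16538176) (l 16541544))) (b (l 16531240) (l 16545344))))) (b (l 1) (b (c (b (l 16507368) (l 16516904)) (l 16517320)) (c (b (l 16525432) (l 16548552)) (b (l 16508864) (l 16522768)))))) (a (b (b (l 1) (c (l 16512592) (l 16492576))) (b (c (b (l 16511632) (l 16527864)) (b (l 16502656) (l 16494576))) (c (b (l 16541560) (l 16548936)) (a (l 16535792) (l 16534584))))) (b (a (b (l 1) (c (l 16498608) (l 16467384))) (a (c (b (l 16502464) (l 16497472)) (b (l 16471640) (l 16465752))) (c (b (l 16522960) (l 16523288)) (b (l 16491816) (l 16506904))))) (a (b (c (b (l 16497576) (l 16504232)) (l 16507200)) (c (b (l 16518000) (l 16533328)) (l 16554176))) (b (c (a (b (l 16496472) (l 16502240)) (c (l 16521896) (l 16517792))) (a (l 16505696) (c (l 16544080)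 (l 16548272)))) (c (a (c (l 16542456) (l 16547328)) (b (c (l 16532568) (l 16517128)) (c (l 16548592) (l 16532200)))) (a (c (l 16530216) (l 16533064)) (b (l 16544376) (l 16558176))))))))) (b (a (c (b (l 16507256) (a (l 16493920) (l 16487368))) (b (l 16485808) (l 16500680))) (c (b (l 16484448) (l 16495224)) (b (l 16451240) (l 16474504)))) (b (c (a (c (l 16506344) (l 16503256)) (c (l 16494000) (l 16510104))) (a (c (l 16519584) (l 16524184)) (b (l 16470944) (l 16483960)))) (c (a (b (a (l 16512480) (l 16510696)) (a (l 16528064) (l 16526240))) (c (b (l 16502248) (l 16518560)) (l 16538072))) (a (c (l 16546392) (l 16549680)) (c (l 16543192) (b (l 16498344) (l 16511272)))))))), by decide +kernel⟩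

def k2_pm_022_a : ∃ t, chk3 f_pm_022_a t 11 2 1 = true :=
  ⟨(a (b (c (b (a (l 16474320) (l 16466032)) (a (a (l 16471152) (l 16466976)) (l 16462064))) (b (l 16493656) (a (l 16450432) (l 16445424)))) (c (b (a (b (l 16471568) (l 16505376)) (b (l 16462648) (l 16495224))) (a (c (l 16523912) (l 16531608)) (b (l 16509744) (l 16505392)))) (b (a (l 16514808) (l 16486640)) (a (l 16540128) (l 16532640))))) (b (c (b (a (l 16536896) (l 16708288)) (a (l 16536408) (l 16707688))) (b (l 16466592) (l 16501416))) (b (c (a (l 16655344) (l 16707872)) (b (l 16507184) (l 16516800))) (c (a (c (l 16748120) (l 16510688)) (b (l 16708696) (l 16710232))) (b (l 16528840) (l 16543152)))))), by decide +kernel⟩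

def k3_pm_022_a : ∃ t, chk3 f_pm_022_a t 4 6 1 = true :=
  ⟨(a (l 1) (a (c (b (l 1) (a (b (l 1) (a (l 1) (b (c (l 16642184) (l 16639064)) (c (b (l 16645360) (l 16647496)) (l 16643952))))) (b (a (c (b (l 1) (l 16625064)) (l 16619576)) (c (b (a (l 1) (l 16604160)) (a (l 16615144) (l 16608416))) (b (l 16604368) (l 16609112)))) (a (b (c (b (l 16628232) (l 16630376)) (l 16626680)) (c (l 16633608) (l 16631584))) (c (b (l 16616096) (l 16641376)) (l 16637464)))))) (b (l 1) (b (a (l 1) (a (l 16614680) (l 16623720))) (a (a (l 1) (b (l 16634536) (l 16640280))) (a (b (l 16622920) (l 16628672)) (l 16634936)))))) (a (a (b (b (l 1) (c (c (b (l 1) (a (l 16593056) (l 16586096))) (l 16605032)) (l 16600472))) (c (b (c (b (c (l 16605048) (l 16593184)) (l 16619128)) (l 16604176)) (c (b (l 16623448) (l 16627776)) (l 16624408))) (b (l 16611480) (l 16622728)))) (b (c (b (c (l 16585688) (l 16560768)) (c (b (l 16581656) (l 16596608)) (l 16581096))) (b (l 16555672) (l 16566944))) (c (b (c (l 16597920) (l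 16580344)) (c (l 16605432) (l 16614032))) (b (l 16578024) (l 16614848))))) (b (a (c (b (c (l 16565944) (l 16546848)) (c (l 16580096) (l 16556832))) (b (l 16542680) (l 16554152))) (c (b (c (l 16561960) (l 16556672)) (c (l 16572960) (l 16574608))) (b (l 16559856) (l 16576368)))) (b (c (a (c (l 16591640) (l 16571920)) (c (l 16604256) (l 16594440))) (a (l 16573296) (l 16615848))) (c (a (c (l 16614608) (l 16593816)) (c (l 16626576) (l 16615688))) (a (l 16614720) (l 16614704)))))))), by decide +kernel⟩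

def k4_pm_022_a : ∃ t, chk3 f_pm_022_a t 8 7 1 = true :=
  ⟨(b (c (b (a (l 1) (a (l 1) (a (l 1) (b (l 1) (a (b (l 1) (l 6)) (c (a (l 16677816) (l 16674784)) (l 16674440))))))) (a (l 1) (a (l 6) (a (l 6) (a (l 6) (a (l 6) (b (l 16680976) (l 16679888)))))))) (c (c (a (l 1) (b (a (l 1) (a (l 1) (b (l 1) (l 16675840)))) (a (l 6) (a (l 6) (b (l 16679736) (l 16683360)))))) (a (l 1) (b (a (l 1) (a (l 1) (b (l 1) (l 16674776)))) (a (l 6) (a (l 6) (b (l 16678968) (l 16682904))))))) (a (l 1) (b (a (l 1) (a (l 1) (b (l 1) (l 16673136)))) (a (l 6) (a (l 6) (b (l 16677776) (l 16682184)))))))) (a (l 6) (b (a (l 6) (a (l 6) (c (b (c (l 16697632) (l 16697448)) (c (l 16709272) (l 16706192))) (b (l 16697088) (l 16705544))))) (b (a (l 6) (a (l 6) (a (l 6) (c (b (l 16709088) (l 16723720)) (l 16732096))))) (b (a (l 6) (a (l 6) (c (c (l 16737568) (l 16727872)) (c (l 16726008) (l 16724112))))) (a (l 6) (c (a (l 6) (a (l 6) (a (l 6) (a (l 6) (c (b (l 16735584) (c (b (l 16739872) (l 16742360)) (l 16739848)))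 (b (l 16733248) (c (l 16738568) (l 16737272)))))))) (a (l 6) (a (l 6) (a (l 6) (b (l 16729928) (c (l 16740824) (l 16732944))))))))))))), by decide +kernel⟩

def k5_pm_022_a : ∃ t, chk3 f_pm_022_a t 18 14 1 = true :=
  ⟨(b (a (c (b (a (c (b (a (l 1) (l 16659008)) (a (l 16667288) (l 16661144))) (b (l 16659672) (l 16662160))) (c (l 16661208) (l 16648904))) (c (a (b (l 16666344) (l 16667968)) (l 16665192)) (a (l 16665616) (l 16653584)))) (a (b (c (l 16658648) (l 16656320)) (l 16684112)) (c (l 16670792) (l 16669256)))) (c (c (b (a (l 16658864) (l 16645672)) (a (l 16662840) (l 16649640))) (b (l 16651248) (l 16655912))) (b (l 16649648) (l 16655272)))) (a (a (c (b (c (l 16680512) (l 16669024)) (c (l 16683024) (l 16672128))) (b (l 16667416) (l 16692392))) (c (c (b (l 16678480) (l 16680936)) (l 16669040)) (c (l 16668728) (l 16678864)))) (c (b (c (l 16650952) (l 16660048)) (c (a (l 16676400) (l 16675272)) (l 16675096))) (a (l 16668296) (l 16666048))))), by decide +kernel⟩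

def k6_pm_022_a : ∃ t, chk3 f_pm_022_a t 18 30 1 = true :=
  ⟨(c (a (b (c (a (l 16696544) (l 16694352)) (l 16684520)) (c (a (l 16703872) (l 16701384)) (a (l 16713504) (l 16710600)))) (b (c (c (l 16681560) (l 16680912)) (l 16679952)) (c (a (l 16699264) (l 16708000)) (l 16706808)))) (b (a (l 16684016) (l 16678040)) (a (c (l 16705688) (l 16709888)) (c (l 16704824) (l 16681856))))), by decide +kernel⟩

def k7_pm_022_a : ∃ t, chk3 f_pm_022_a t 18 31 1 = true :=
  ⟨(b (a (c (c (a (b (l 16707400) (l 16716872)) (c (l 16730840) (l 16729832))) (a (l 16721016) (l 16728304))) (c (a (l 16729872) (l 16705264)) (b (l 16701064) (l 16709224)))) (c (c (a (c (l 16728544) (l 16727296)) (c (l 16726640) (l 16704168))) (a (l 16725416) (l 16722864))) (c (b (l 16696160) (l 16704456)) (l 16718480)))) (c (b (a (c (a (l 16726448) (l 16733944)) (a (l 16724208) (l 16720800))) (c (c (a (l 16721608) (l 16719488)) (a (l 16720048) (l 16717664))) (a (l 16717696) (l 16714920)))) (b (c (a (a (l 16744168) (l 16730600))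 (c (a (l 16728728) (l 16726496)) (l 16725680))) (a (c (l 16730000) (l 16728600)) (c (l 16723824) (l 16721952)))) (c (b (a (c (a (l 16738008) (l 16734976)) (a (l 16736656) (l 16733408))) (c (a (l 16732312) (l 16730024)) (l 16729160))) (a (c (a (a (a (l 16744344) (l 16740888)) (l 16742296)) (c (l 16737808) (l 16737000))) (a (a (l 16742560) (l 16738216)) (c (l 16736184) (l 16735368)))) (c (a (c (l 16735176) (l 16734240)) (c (l 16732920) (l 16731856))) (a (l 16732840) (c (l 16730792) (l 16729720)))))) (b (a (c (l 16738736) (l 16732008)) (c (l 16727208) (l 16725248))) (a (c (a (c (l 16738000) (l 16737280)) (l 16734144)) (a (l 16741448) (l 16732488))) (c (a (l 16730960) (l 16728112)) (a (l 16729072) (l 16725960)))))))) (b (a (a (l 16720792) (l 16716728)) (c (l 16712816) (l 16709352))) (b (a (c (l 16731728) (l 16723624)) (c (l 16719120) (l 16715320))) (a (c (a (c (b (l 16732520) (l 16734760)) (l 16737448)) (c (l 16729720) (l 16728072))) (a (c (l 16730760) (l 16729304)) (l 16730824)))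 (c (a (c (l 16726088) (l 16724200)) (c (l 16722736) (l 16720600))) (a (l 16721352) (c (l 16718456) (l 16716296))))))))), by decide +kernel⟩

def k8_pm_022_a : ∃ t, chk3 f_pm_022_a t 38 7 1 = true :=
  ⟨(b (c (b (c (b (c (l 16620968) (l 16631496)) (a (l 16644704) (l 16623848))) (a (l 16638064) (l 16637808))) (c (b (a (l 16659384) (l 16638200)) (a (l 16653560) (l 16653016))) (b (l 16658056) (l 16672456)))) (a (b (l 16638000) (c (l 16664680) (l 16663512))) (b (l 16636912) (l 16662360)))) (b (c (c (b (a (l 16669064) (l 16668200)) (a (c (l 16686376) (l 16684984)) (l 16684496))) (b (l 16687168) (a (l 16682888) (l 16681160)))) (b (c (l 16663840) (l 16661488)) (c (l 16699848) (l 16675800)))) (c (b (c (a (c (b (l 16699648) (l 16708648)) (l 16723344)) (c (l 16723752) (l 16700720))) (a (c (l 16700576) (l 16698784)) (l 16718600))) (c (b (a (c (a (l 16718160) (l 16717376)) (l 16715648)) (c (l 16716128) (l 16713752))) (a (c (b (a (l 16725080) (l 16724240)) (a (b (l 16728568) (l 16730896)) (a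 (l 16729072) (a (l 16728752) (l 16728504))))) (b (l 16722368) (a (l 16727416) (a (l 16726648) (l 16731376))))) (c (b (l 16722888) (c (a (l 16728544) (l 16727688)) (b (l 16725640) (l 16727904)))) (b (l 16720352) (b (l 16723672) (c (l 16726560) (l 16725216))))))) (b (a (l 16712480) (l 16710176)) (b (c (a (l 16720088) (l 16717800)) (l 16716464)) (a (c (a (l 16725096) (b (l 16722824) (l 16727640))) (a (l 16722768) (l 16724072))) (a (c (l 16722712) (l 16720112)) (c (l 16721560) (l 16718832)))))))) (b (c (a (l 16696088) (l 16693488)) (a (l 16692472) (l 16689336))) (a (c (b (l 16708232) (b (l 16714376) (a (c (l 16720432) (l 16718096)) (c (l 16721600) (l 16716504))))) (b (l 16703976) (b (l 16709768) (a (l 16714568) (c (l 16714016) (l 16711528)))))) (c (b (l 16705400) (b (l 16711424) (c (b (l 16715768) (l 16717816)) (l 16719360)))) (b (l 16700608) (b (l 16706296) (c (l 16711448) (l 16708768)))))))))), by decide +kernel⟩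

def k9_pm_022_a : ∃ t, chk3 f_pm_022_a t 39 14 1 = true :=
  ⟨(a (c (b (c (l 16638976) (l 16637880)) (c (b (l 16638312) (l 16652800)) (l 16664320))) (b (l 16636120) (l 16660896))) (b (c (c (l 16647680) (l 16638136)) (b (l 16630008) (l 16640832))) (c (c (a (l 16666872) (l 16667160)) (l 16663952)) (c (l 16661072) (l 16658168))))), by decide +kernel⟩

def k10_pm_022_a : ∃ t, chk3 f_pm_022_a t 39 15 1 = true :=
  ⟨(b (a (c (c (b (l 16667664) (l 16683624)) (b (l 16664472) (l 16679720))) (b (l 16659664) (l 16673848))) (c (c (b (l 16667424) (l 16704040)) (b (l 16663624) (l 16678560))) (b (l 16678896) (c (l 16674056) (l 16669552))))) (b (c (c (a (c (l 16722688) (l 16699368)) (c (b (l 16696720) (l 16705208)) (l 16719304))) (a (l 16716824) (c (l 16716664) (l 16714024)))) (a (c (l 16691160) (l 16686456)) (c (a (l 16689656) (l 16688744)) (l 16704784)))) (c (b (c (a (c (l 16714784) (l 16712136)) (c (a (l 16714080) (l 16713720)) (l 16721336))) (a (l 16718632) (c (l 16707904) (l 16704960))))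 (a (c (c (b (c (l 16722120) (l 16720712)) (c (a (l 16732184) (b (l 16725184) (l 16727416))) (a (l 16725512) (l 16724800)))) (b (l 16718600) (c (a (l 16724080) (l 16723304)) (l 16722208)))) (a (c (b (l 16716256) (l 16720512)) (l 16720824)) (c (b (l 16715344) (l 16719552)) (l 16724992)))) (c (c (b (a (l 16720600) (l 16720176)) (b (a (l 16723888) (l 16728672)) (a (c (l 16726872) (l 16725288)) (c (c (l 16726848) (l 16726024)) (l 16724776))))) (b (a (l 16717568) (l 16716992)) (a (c (l 16722624) (l 16721056)) (c (l 16724672) (l 16720408))))) (c (b (a (l 16714536) (l 16713816)) (a (l 16718696) (b (l 16716904) (l 16718976)))) (b (l 16710976) (a (l 16715552) (l 16714648))))))) (b (a (c (l 16702824) (l 16697496)) (c (a (l 16701136) (l 16700112)) (l 16694640))) (c (b (a (l 16708728) (c (l 16707872) (l 16704760))) (a (c (l 16714152) (l 16711208)) (a (l 16716080) (a (l 16710000) (l 16709464))))) (a (a (l 16716216) (l 16704176)) (a (l 16702704) (l 16711800)))))))), by decide +kernel⟩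

def k11_pm_022_a : ∃ t, chk3 f_pm_022_a t 20 6 1 = true :=
  ⟨(a (b (c (a (b (a (l 16557352) (l 16556496)) (c (l 16573984) (l 16575320))) (b (l 16565208) (b (l 16568000) (l 16577352)))) (a (b (l 16539480) (l 16576504)) (c (l 16587288) (l 16588152)))) (c (b (a (c (l 16594392) (l 16594712)) (a (l 16593368) (l 16592272))) (a (c (l 16616328) (l 16615544)) (c (l 16614344) (l 16613472)))) (b (a (l 16594560) (l 16592424)) (a (l 16613920) (l 16611616))))) (a (b (c (b (b (l 16548104) (l 16556776)) (c (l 16569664) (l 16571208))) (b (l 16556680) (l 16572424))) (c (c (b (l 16590176) (l 16612256)) (b (l 16590528) (l 16611304))) (b (l 16590176) (l 16609248)))) (b (a (c (b (l 16550096) (l 16568232)) (b (l 16533648) (l 16549376))) (c (a (b (l 16548424) (l 16566688)) (b (b (l 16553032) (l 16561872)) (c (l 16585312) (l 16566272)))) (a (b (l 16553224) (l 16568984)) (b (l 16573024) (l 16588840))))) (b (c (a (l 16588264) (a (l 16586848) (b (l 16601296) (l 16590912)))) (a (l 16567104) (a (l 16565792)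 (b (l 16580952) (l 16590320))))) (c (a (l 16609832) (a (l 16608544) (c (l 16607904) (l 16606984)))) (a (l 16586168) (a (l 16584896) (l 16604856)))))))), by decide +kernel⟩

def k12_pm_022_a : ∃ t, chk3 f_pm_022_a t 40 14 1 = true :=
  ⟨(c (b (a (c (l 16639688) (l 16637584)) (c (l 16637784) (l 16635480))) (a (c (l 16676816) (l 16663000)) (c (l 16664472) (l 16660856)))) (b (a (l 16634240) (l 16631776)) (a (c (l 16659632) (l 16656224)) (l 16655312)))), by decide +kernel⟩

def k13_pm_022_a : ∃ t, chk3 f_pm_022_a t 40 30 1 = true :=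
  ⟨(a (b (c (c (l 16666688) (l 16662376)) (l 16655904)) (c (c (l 16703104) (l 16677104)) (l 16690536))) (c (c (b (l 16664864) (l 16680320)) (b (l 16660208) (l 16674912))) (b (l 16653168) (l 16687736)))), by decide +kernel⟩

def k14_pm_022_a : ∃ t, chk3 f_pm_022_a t 40 31 1 = true :=
  ⟨(b (c (c (a (a (l 16720048) (l 16719120)) (c (l 16719248) (l 16716144))) (a (c (l 16715120) (l 16712216)) (b (l 16686552) (l 16694440)))) (a (c (l 16707864) (l 16702064)) (c (l 16705240) (l 16678032)))) (c (b (c (a (c (a (l 16713160) (l 16712304)) (l 16719920)) (c (l 16721512) (l 16707592))) (a (c (l 16706224) (l 16703016)) (c (l 16704160) (l 16700720)))) (c (a (b (c (a (l 16719584) (l 16718752)) (a (l 16716272) (l 16715320))) (b (c (a (l 16728072) (l 16722008)) (a (l 16719432) (l 16718496))) (c (a (a (c (l 16726088) (l 16724376)) (c (l 16725680) (l 16723944))) (c (b (l 16724536) (l 16725640)) (l 16723296))) (a (c (l 16722408) (l 16720688)) (c (l 16721512) (l 16719728)))))) (b (c (a (l 16717976)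 (l 16717256)) (a (l 16714432) (l 16713592))) (b (c (a (l 16721256) (l 16720552)) (a (l 16717616) (l 16716800))) (c (a (c (a (l 16724568) (l 14)) (l 16722528)) (c (l 14) (b (l 16721256) (l 16722360)))) (a (c (l 16720680) (l 16718832)) (c (l 16719904) (l 16717992))))))) (b (a (a (l 16716536) (l 16710168)) (c (l 16710328) (l 16706720))) (a (c (a (b (l 16716032) (l 16718096)) (l 16716008)) (a (l 16713640) (l 16712472))) (c (a (b (l 16713984) (l 16716064)) (b (l 16713040) (l 16715128))) (a (l 16711360) (l 16710296))))))) (b (a (c (a (l 16698952) (l 16697592)) (l 16691776)) (c (l 16695568) (l 16688688))) (c (a (a (c (l 16708272) (l 16704904)) (a (l 16716072) (l 16715408))) (b (l 16711800) (c (a (l 16707696) (l 16706512)) (l 16708560)))) (a (a (l 16699848) (l 16698256)) (a (l 16696720) (l 16695232))))))), by decide +kernel⟩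

def k15_pm_022_a : ∃ t, chk3 f_pm_022_a t 41 14 1 = true :=
  ⟨(b (c (a (c (l 16635824) (l 16633336)) (a (c (l 16613056) (l 16610464)) (a (c (l 16611928) (l 16609312)) (c (l 16631968) (l 16629344))))) (a (l 16629288) (a (l 16606208) (a (l 16604984) (l 16645976))))) (a (c (c (l 16662640) (l 16658736)) (l 16673696)) (c (a (c (l 16640056) (l 16635968)) (a (c (l 16639080) (l 16634920)) (c (l 16680224) (l 16655064)))) (a (l 16650624) (a (l 16649456) (b (l 16642272) (l 16654720))))))), by decide +kernel⟩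

def k16_pm_022_a : ∃ t, chk3 f_pm_022_a t 41 30 1 = true :=
  ⟨(c (b (a (c (l 16663088) (l 16658096)) (a (l 16679952) (a (l 16679040) (c (l 16681000) (l 16654648))))) (a (c (l 16699560) (l 16672800)) (a (c (l 16677216) (l 16671160)) (a (c (l 16676448) (l 16670272)) (c (l 16702064) (l 16690568)))))) (a (b (l 16650520) (l 16685048)) (a (b (l 16648416) (l 16662016)) (b (a (l 16647296) (l 16667424)) (a (l 16660936) (c (l 16684280) (l 16677944))))))), by decide +kernel⟩

def k17_pm_022_a : ∃ t, chk3 f_pm_022_a t 82 31 1 = true :=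
  ⟨(b (c (a (c (l 16716512) (l 16688992)) (c (l 16715656) (l 16687944))) (c (a (l 16682440) (l 16681184)) (l 16696120))) (c (b (a (c (c (l 16710008) (l 16706400)) (l 16700992)) (c (c (l 16709336) (l 16705616)) (l 16700032))) (c (b (c (a (l 16716584) (l 16715960)) (a (l 16712792) (l 16712056))) (b (c (a (l 16725144) (l 14)) (a (l 16716024) (l 16715312))) (c (a (a (c (l 14) (l 16721320)) (l 14)) (l 14)) (a (c (b (l 16718632) (l 16719728)) (l 16717208)) (a (c (l 16718672) (l 16716656)) (c (l 16718352) (l 16716304))))))) (b (a (l 16707120) (c (l 16708152) (l 16704240))) (c (a (b (l 16712152) (l 16716872)) (a (l 16712576) (l 16712168))) (a (l 16709296) (l 16713584)))))) (b (c (a (l 16693768) (l 16692576)) (l 16685824)) (a (c (c (l 16703408) (l 16699560)) (l 16693784)) (c (b (l 16698384) (c (l 16704312) (l 16700272))) (l 16692392)))))), by decide +kernel⟩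

def k18_pm_022_a : ∃ t, chk3 f_pm_022_a t 166 31 1 = true :=
  ⟨(b (c (c (b (l 16689656) (l 16698152)) (l 16707928)) (c (l 16679984) (l 16672992))) (c (b (c (c (l 16708728) (l 16704896)) (c (l 16701056) (l 16697216))) (c (c (l 14) (b (l 16721880) (b (a (l 16714800) (l 16714488)) (a (c (l 16718040) (l 16715960)) (c (l 14) (l 16715640)))))) (a (c (b (l 16707528) (l 16717016)) (l 16716080)) (b (l 16705104) (c (a (l 16711488) (l 16711296)) (l 16707216)))))) (c (b (l 16691448) (b (l 16697296) (c (a (l 16703528) (l 16703024)) (l 16699152)))) (b (l 16683752) (b (l 16689224) (l 16703400)))))), by decide +kernel⟩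

def k19_pm_022_a : ∃ t, chk3 f_pm_022_a t 167 62 1 = true :=
  ⟨(c (a (c (b (l 16688992) (l 16697568)) (l 16707160)) (a (a (c (a (l 16692952) (c (l 16715640) (l 16712072))) (a (l 16685808) (c (l 16708488) (l 16704904)))) (c (l 16692784) (l 16685616))) (c (l 16692664) (l 16685448)))) (b (a (l 16671784) (c (l 16695520) (l 16667536))) (a (l 16694896) (c (b (l 16701248) (l 16705104)) (l 16695688))))), by decide +kernel⟩

def k20_pm_022_a : ∃ t, chk3 f_pm_022_a t 167 63 2 = true :=
  ⟨(a (b (c (c (l 14) (l 16704344)) (c (l 16700424) (l 16696496))) (c (c (l 14) (c (b (l 16722424) (l 14)) (b (l 16709872) (a (l 16714296) (a (l 16714168) (l 16714096)))))) (b (c (a (l 16706824) (l 16706640)) (l 16702664)) (a (c (l 16716360) (l 16706880)) (c (a (l 16710976) (l 16716128)) (l 16711928)))))) (b (c (c (l 14) (a (a (a (l 16704056) (a (l 16704016) (l 16703984))) (l 16703920)) (l 16703800))) (a (a (a (l 16698128) (a (l 16698080) (l 16708528))) (l 16697968)) (l 16697816))) (c (c (l 14) (c (l 14)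 (a (a (a (b (l 16709608) (l 16714032)) (b (a (l 16709576) (l 16709552)) (a (l 16714000) (a (a (l 16713984) (b (l 16712864) (c (l 14) (l 16714552)))) (l 16713968))))) (l 16722200)) (l 16716840)))) (b (a (a (a (l 16704424) (a (l 16704384) (c (l 16706432) (l 16702272)))) (l 16704288)) (l 16704136)) (c (a (a (a (l 16716056) (a (b (l 16709696) (l 16711864)) (a (a (l 16710768) (b (l 16709672) (c (l 16712928) (l 16710760)))) (l 16710752)))) (l 16710696)) (l 16710568)) (a (a (a (l 16706528) (a (l 16706488) (a (a (l 16706472) (l 16716952)) (l 16706456)))) (l 16706392)) (l 16706240))))))), by decide +kernel⟩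

def k21_pm_022_a : ∃ t, chk3 f_pm_022_a t 167 63 3 = true :=
  ⟨(b (a (c (l 16690600) (l 16682728)) (c (a (a (a (l 16690216) (a (l 16690152) (l 16690112))) (l 16690024)) (l 16689824)) (a (a (a (l 16682280) (l 16703168)) (l 16682056)) (l 16681816)))) (a (a (c (b (l 16696568) (l 16700528)) (l 16690208)) (c (c (l 16710880) (l 16696192)) (l 16689888))) (c (a (a (a (b (l 16696120) (l 16700104)) (b (a (l 16696064) (l 16696032)) (a (l 16710536) (c (b (l 16701144) (c (l 16709512) (l 16702104))) (l 16697872))))) (b (l 16695944) (l 16699936))) (b (l 16695752) (l 16699752))) (a (a (a (l 16689672) (a (l 16689608) (b (l 16687696) (l 16701912)))) (l 16689464)) (l 16689224))))), by decide +kernel⟩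

def k22_pm_022_a : ∃ t, chk3 f_pm_022_a t 21 6 1 = true :=
  ⟨(b (a (c (b (c (l 16541112) (l 16544856)) (a (l 16563544) (l 16561696))) (b (l 16548672) (l 16564440))) (c (b (c (l 16536528) (l 16540880)) (c (l 16556080) (l 16537664))) (b (l 16545264) (l 16560728)))) (b (c (a (c (l 16581688) (l 16582360)) (c (l 16577536) (l 16557400))) (a (l 16582224) (l 16578240))) (c (a (c (l 16604512) (l 16603592)) (c (l 16600600) (l 16578648))) (a (l 16601360) (l 16597112))))), by decide +kernel⟩

def k23_pm_022_a : ∃ t, chk3 f_pm_022_a t 21 14 1 = true :=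
  ⟨(c (b (a (c (l 16628824) (l 16626080)) (c (l 16625064) (l 16601120))) (a (c (b (l 16628088) (l 16642544)) (l 16662392)) (c (l 16652984) (l 16648144)))) (b (a (l 16631984) (l 16617000)) (a (c (l 16647368) (l 16642672)) (b (l 16613240) (l 16625712))))), by decide +kernel⟩

def k24_pm_022_a : ∃ t, chk3 f_pm_022_a t 21 30 1 = true :=
  ⟨(a (c (c (b (l 16657432) (l 16694464)) (b (l 16651744) (l 16687848))) (b (l 16664032) (c (l 16660216) (l 16653496)))) (c (c (b (l 16654536) (l 16692088)) (b (l 16648256) (l 16663776))) (b (l 16638600) (c (l 16656352) (l 16648848))))), by decide +kernel⟩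

def k25_pm_022_a : ∃ t, chk3 f_pm_022_a t 21 31 1 = true :=
  ⟨(b (c (a (c (b (l 16707352) (a (l 16696152) (l 16695112))) (a (l 16684344) (l 16682808))) (c (b (l 16684424) (l 14)) (b (l 16676232) (l 16705720)))) (a (c (a (l 16676864) (l 16674896)) (a (l 16669360) (l 16666944))) (c (a (l 16673080) (l 16671400)) (l 16684320)))) (c (b (c (a (c (l 14) (a (l 16702992) (l 16701968))) (l 14)) (a (a (l 16707296) (l 16705920)) (a (l 16704728) (a (l 16693544) (l 16693088))))) (a (a (c (c (l 14) (b (l 16709672) (a (b (l 16713400) (c (l 14) (l 16714552))) (l 14)))) (b (c (l 16705352) (l 16701024)) (c (a (c (l 16711224) (l 16709024)) (c (l 16710648) (l 16708376))) (a (l 16705720) (l 16704976))))) (c (l 14) (b (c (l 16704184) (l 16699608)) (c (a (c (l 16715360) (l 16707792)) (c (l 14) (l 16707256))) (b (l 16702824) (c (l 16706168) (l 16703784))))))) (c (l 14) (b (c (a (l 16703224) (l 14)) (a (l 16698400) (l 16697400))) (b (c (a (l 16711856) (l 14)) (a (l 16701664) (l 16700736))) (c (a (c (l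 14) (a (l 16707904) (l 14))) (l 14)) (a (c (a (l 16705424) (l 16704952)) (l 16702600)) (c (a (l 16704536) (l 14)) (a (l 16701920) (l 16701504)))))))))) (b (a (c (a (l 16688560) (l 16686704)) (a (l 16680296) (l 16677952))) (c (a (l 16685032) (l 16683544)) (l 16687664))) (a (c (a (b (l 16694528) (c (b (l 16699768) (l 16701824)) (l 16696328))) (b (l 16692736) (c (b (l 16698136) (l 16700216)) (l 16694448)))) (a (b (l 16685864) (l 16689624)) (b (l 16683568) (l 16687360)))) (c (b (a (l 16691144) (l 16689768)) (a (c (a (l 16698168) (l 16697520)) (l 16692784)) (c (a (l 16696928) (l 16696392)) (l 16691344)))) (a (a (l 16683944) (l 16693440)) (c (l 16694592) (l 16678928)))))))), by decide +kernel⟩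

def k26_pm_022_a : ∃ t, chk3 f_pm_022_a t 11 6 1 = true :=
  ⟨(a (b (c (a (b (c (l 16529576) (l 16513784)) (l 16561816)) (b (l 16523576) (l 16543160))) (a (b (l 16519048) (l 16534472)) (l 16572168))) (c (a (b (l 16585400) (c (l 16574136) (l 16573296))) (b (l 16575304) (c (l 16617744) (l 16566824)))) (a (b (l 16551936) (l 16570800)) (b (l 16545152) (l 16564456))))) (b (c (a (b (l 16558688) (l 16569280)) (b (l 16713432) (l 16718736))) (a (l 16552544) (b (l 16490168) (l 16507360)))) (b (c (a (l 16562120) (l 16726808)) (a (l 16536896) (l 16527008))) (c (c (a (l 16769488) (l 16891616)) (l 16606816)) (a (l 16557072) (l 16548608)))))), by decide +kernel⟩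

def k27_pm_022_a : ∃ t, chk3 f_pm_022_a t 11 14 1 = true :=
  ⟨(b (a (c (a (c (l 16599336) (l 16596264)) (c (l 16639144) (l 16590680))) (a (l 16611848) (l 16585088))) (c (a (c (l 16783072) (l 16584728)) (c (l 16899792) (l 16608976))) (a (l 16578872) (l 16572056)))) (a (c (a (c (l 16649104) (l 16622960)) (c (l 16646408) (l 16618712))) (a (l 16656640) (l 16630800))) (c (a (c (l 16740088) (l 16614568)) (c (l 16913872) (l 16640128))) (a (l 16625944) (l 16620928))))), by decide +kernel⟩

def k28_pm_022_a : ∃ t, chk3 f_pm_022_a t 11 30 1 = true :=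
  ⟨(a (c (a (c (b (l 16651712) (l 16669048)) (b (l 16644864) (l 16660992))) (c (b (l 16693848) (l 16673088)) (b (l 16641752) (l 16658752)))) (a (b (l 16634288) (c (l 16652824) (l 16644544))) (b (l 16630232) (l 16666256)))) (c (a (c (b (l 16822808) (l 16734344)) (b (l 16639096) (l 16657112))) (c (b (l 16928920) (l 16920920)) (b (l 16669016) (l 16691792)))) (a (b (l 16626520) (l 16673840)) (c (l 16667960) (l 16647416))))), by decide +kernel⟩

def k29_pm_022_a : ∃ t, chk3 f_pm_022_a t 22 31 1 = true :=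
  ⟨(c (a (c (b (b (l 16682968) (l 14)) (l 14)) (c (b (l 16701728) (l 14)) (a (b (l 16676792) (b (l 16689896) (b (l 16696632) (a (c (l 14) (l 16700016)) (l 14))))) (b (l 16675784) (b (l 16689208) (l 14)))))) (b (b (c (l 16712024) (l 16672400)) (l 14)) (l 14))) (b (a (c (b (l 16664848) (l 16673096)) (l 16680456)) (c (b (l 16662400) (l 16671032)) (l 16656272))) (b (a (c (a (l 16682248) (l 16681176)) (a (l 16672024) (l 16670440))) (c (a (l 16680344) (l 16679728)) (l 16684088))) (c (b (a (a (l 16699088) (a (l 16687928) (l 16687528))) (c (a (l 16689944) (l 14)) (a (l 16684048) (l 16683472)))) (c (a (a (b (l 16694568) (c (l 16703400) (l 16695376))) (b (l 16693848) (c (a (l 16697728) (l 14)) (l 16694640)))) (a (a (c (l 14) (l 16693160)) (l 14)) (l 14))) (a (a (b (l 16689080) (l 16691200)) (a (l 16689432) (l 16689008))) (a (a (l 16688648) (l 16688344)) (b (l 16686856) (a (l 16689240) (l 16694328))))))) (a (c (b (l 16679720) (a (l 16684608) (l 16683368))) (a (l 16677144) (l 16675576))) (b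 (a (l 16675192) (l 16674192)) (c (a (l 16682368) (b (l 16680528) (l 16682704))) (a (l 16676280) (l 16675240))))))))), by decide +kernel⟩

def k30_pm_022_a : ∃ t, chk3 f_pm_022_a t 23 31 1 = true :=
  ⟨(b (c (b (c (a (l 16769560) (l 16932400)) (a (l 16671616) (l 16710928))) (c (a (l 14) (c (l 17021080) (l 14))) (l 14))) (a (c (l 16686184) (l 16653792)) (c (b (l 16659544) (l 14)) (l 16651952)))) (c (a (l 14) (a (l 14) (c (c (l 17052928) (l 14)) (l 14)))) (b (a (c (c (l 14) (l 16675976)) (a (l 16667000) (l 16666272))) (c (l 14) (a (l 16665776) (l 16665496)))) (b (c (a (c (l 14) (a (l 16683128) (l 14))) (l 14)) (a (c (l 16686848) (l 16669752)) (a (l 16672632) (l 16683104)))) (c (c (l 14) (a (a (b (l 16686616) (c (l 14) (l 16692520))) (l 14)) (l 14))) (a (c (a (a (l 16681240) (l 16681056)) (b (l 16679728) (c (l 16683800) (l 16680288)))) (a (l 16674448) (l 16684400))) (c (a (b (l 16679728) (c (l 14) (l 16680288))) (l 14)) (a (b (l 16672504) (l 16680032)) (a (l 16673640) (l 16684200)))))))))),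 by decide +kernel⟩

def k31_pm_022_a : ∃ t, chk3 f_pm_022_a t 6 2 1 = true :=
  ⟨(a (b (a (c (b (l 16857224) (a (l 16842680) (l 16949744))) (b (l 16452080) (l 16452528))) (c (b (l 17068776) (l 17070928)) (b (l 16533192) (l 16530776)))) (a (b (c (a (l 16840760) (l 16946672)) (a (l 16449384) (l 16430936))) (c (a (b (l 16838608) (l 16837440)) (l 16857000)) (a (l 16492208) (l 16471184)))) (c (b (a (l 17031512) (l 17099688)) (a (l 17023912) (l 17091128))) (b (a (l 16471760) (l 16585768)) (a (l 16478488) (l 16587552)))))) (b (a (c (b (l 17175176) (l 17180200)) (b (l 16725728) (l 16723800))) (c (b (l 17241120) (l 17249864)) (b (l 16857008) (l 16814640)))) (a (c (b (c (l 17291192) (l 17064456)) (c (l 17281648) (b (l 17059344) (l 17054912)))) (b (a (l 16680040) (l 16758440)) (a (l 16698888) (b (l 16754576) (l 16752392))))) (c (b (c (l 17349176) (l 17151968)) (c (a (l 17330008) (l 17355768)) (a (l 17125872) (l 17163048)))) (b (a (l 16824104) (l 16879464)) (a (b (l 16819144) (l 16815296))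 (b (l 16874024) (c (l 16966648) (l 16771264))))))))), by decide +kernel⟩

def k32_pm_022_a : ∃ t, chk3 f_pm_022_a t 12 6 1 = true :=
  ⟨(a (b (c (a (b (l 16837464) (l 16839144)) (b (l 16937528) (l 16936768))) (a (l 16526632) (l 16509224))) (c (a (b (l 16822256) (l 16703640)) (b (l 16938136) (l 16879408))) (b (a (l 16515360) (l 16501480)) (a (l 16538944) (l 16527592))))) (c (b (a (b (l 17018600) (l 17016216)) (l 16998568)) (b (a (l 17015752) (l 17079464)) (c (l 17166224) (l 16934952)))) (b (a (l 16506112) (l 16661464)) (b (a (l 16517736) (l 16615712)) (a (l 16538704) (l 16633056)))))), by decide +kernel⟩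

def k33_pm_022_a : ∃ t, chk3 f_pm_022_a t 12 7 1 = true :=
  ⟨(b (a (c (b (a (c (l 16995168) (l 16728168)) (c (l 17073512) (l 16826872))) (a (c (l 17005184) (l 16753160)) (c (l 17080688) (l 16847344)))) (b (a (l 16564504) (l 16555880)) (a (l 16615720) (l 16609936)))) (c (b (a (l 16939480) (l 17084128)) (c (l 17170488) (a (l 16926040) (l 16992016)))) (b (a (l 16565480) (l 16656072)) (a (l 16600696) (l 16690096))))) (a (b (c (a (c (b (l 17016808) (l 17027296)) (b (l 16777040) (l 16796264))) (c (l 17094064) (b (l 16867568) (l 16884176)))) (a (c (l 16668288) (l 16644256)) (c (l 16657552) (l 16641216)))) (c (a (b (c (l 16956352) (b (l 16812608) (l 14))) (c (b (l 16967440) (c (l 17111808) (l 16965048))) (l 14))) (c (b (l 17109624) (l 17038704)) (a (b (l 16883592) (l 14)) (b (l 16922720) (c (l 16992376) (l 14)))))) (a (c (b (b (l 16659080) (l 14)) (l 14)) (c (b (l 16654184) (l 14)) (b (l 16647400) (b (l 16661752) (a (c (l 14) (a (l 16669496) (l 16680112))) (l 14)))))) (b (c (b (l 16690376)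 (l 14)) (l 16671256)) (l 14))))) (c (b (c (a (l 17154352) (l 17204840)) (a (b (l 16943624) (l 16958344)) (l 17014256))) (c (b (l 17193576) (a (l 17179376) (l 17227368))) (b (a (l 16954752) (l 17037080)) (a (a (b (l 16973632) (l 16900432)) (l 16948328)) (b (l 17050456) (l 17060072)))))) (a (b (b (l 16633232) (c (l 16758560) (l 16627600))) (b (c (b (l 16777048) (l 14)) (l 16671304)) (l 14))) (c (a (b (l 16805832) (b (l 16839848) (l 14))) (b (l 16841048) (b (l 16873920) (c (l 16941720) (l 14))))) (b (l 16643992) (b (l 16666944) (l 14)))))))), by decide +kernel⟩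

def k34_pm_022_a : ∃ t, chk3 f_pm_022_a t 13 6 1 = true :=
  ⟨(a (c (b (a (l 17136040) (l 17180264)) (c (l 17257464) (b (l 17049608) (l 17052584)))) (b (a (l 16705000) (b (l 16753728) (l 16757960))) (a (b (l 16697416) (l 16712080)) (b (l 16765976) (l 16778648))))) (c (b (a (c (l 17317024) (l 17117104)) (c (l 17343392) (l 17153352))) (c (a (l 17305888) (l 17331800)) (a (l 17115360) (l 17150272)))) (b (a (b (l 16814864) (l 16817504)) (b (l 16866880) (l 16868080))) (a (b (l 16823968) (l 16835152)) (b (l 16873224) (l 16883208)))))), by decide +kernel⟩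

def k35_pm_022_a : ∃ t, chk3 f_pm_022_a t 13 7 1 = true :=
  ⟨(b (c (a (b (c (l 17254560) (l 17059200)) (c (l 17257600) (l 17072056))) (c (b (l 17315792) (l 17318200)) (a (l 17127456) (l 17161272)))) (a (b (a (l 16732336) (l 16796944)) (a (b (l 16752880) (l 16769584)) (c (l 16913968) (l 16733600)))) (b (a (l 16831056) (l 16878072)) (a (c (l 16963080) (l 16792200)) (c (l 17004984) (l 16842560)))))) (a (c (b (c (l 17265752) (a (l 17068016) (l 17113696))) (c (l 17280960) (a (b (l 17089376) (l 17106352)) (l 17141832)))) (a (b (b (l 16788608) (c (l 16898592) (l 16722808))) (b (c (l 16899448) (b (l 16744008) (l 14))) (c (c (l 16985216) (a (l 14) (l 16919136))) (l 14)))) (b (b (l 16828984) (c (l 16953968) (l 16788200))) (a (b (c (l 16961960) (l 16800496)) (c (l 16985528) (l 14))) (b (c (l 16987208) (l 16830432)) (c (l 17010304) (c (l 16898088) (l 14)))))))) (a (c (b (l 17232480) (c (l 17326272) (l 17179504))) (b (c (l 16992704) (b (l 16821480) (l 16844920))) (b (c (l 17021760) (a (l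 16858352) (l 16884360))) (c (l 17044216) (a (c (l 16924376) (l 14)) (a (l 16907384) (l 16919728))))))) (c (b (l 17261384) (l 17280912)) (b (c (l 17033808) (b (l 16871144) (l 16894008))) (b (c (l 17062080) (l 16920016)) (c (l 17083856) (a (l 16937448) (l 16959664))))))))), by decide +kernel⟩

def k36_pm_022_a : ∃ t, chk3 f_pm_022_a t 7 1 1 = true :=
  ⟨(b (a (a (b (c (b (l 17280136) (l 17292512)) (b (l 16949952) (l 16951880))) (c (b (a (l 17288120) (l 17305672)) (a (c (l 17375592) (l 17194488)) (l 17304952))) (b (a (l 16927744) (l 16970472)) (a (b (l 16922968) (a (l 16905880) (l 16929952))) (l 16965024))))) (b (c (l 17307496) (l 17020384)) (c (l 17324336) (b (l 17023816) (l 17020992))))) (b (c (l 17314056) (l 17088560)) (c (l 17423528) (a (l 17077288) (l 17115408))))) (a (b (a (c (b (a (c (l 17365352) (l 17185944)) (l 17298248)) (a (c (l 17354568) (l 17183176)) (l 17293192))) (a (b (b (l 16915664) (l 16916792)) (b (l 16921752) (l 16931392))) (b (l 16961824) (l 16973328)))) (c (b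 (l 17323296) (l 17320480)) (b (l 17019864) (l 17032656)))) (a (b (c (a (c (l 17351408) (l 17193736)) (l 17297136)) (a (b (l 16862752) (a (l 16957632) (l 16982432))) (b (l 16993704) (l 17016352)))) (c (a (b (l 17287968) (l 17306016)) (b (l 17311272) (l 17327480))) (b (a (b (l 16993880) (l 16887000)) (l 17046984)) (c (a (l 17111136) (l 17147056)) (a (b (l 16967904) (b (l 16988024) (l 17002184))) (b (l 17014336) (l 17039416))))))) (b (c (l 17324640) (b (l 17052360) (l 17073376))) (c (b (l 17336888) (l 17350536)) (b (l 17101248) (c (l 17190536) (b (l 17072528) (l 17094800)))))))) (a (b (c (b (l 17342392) (l 17341912)) (b (l 17078920) (l 17092568))) (c (b (l 17345616) (l 17360496)) (b (l 17120568) (b (l 17154848) (c (l 17230616) (l 17139776)))))) (b (c (l 17345936) (b (l 17120304) (l 17134096))) (c (b (l 17351632) (l 17362768)) (b (l 17159752) (b (l 17189760) (l 17215032)))))))), by decide +kernel⟩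

theorem s37_pm_022_a : ∃ t, chk3 f_pm_022_a t 13 3 1 = true := ex3_b k34_pm_022_a k35_pm_022_a

theorem s38_pm_022_a : ∃ t, chk3 f_pm_022_a t 12 3 1 = true := ex3_b k32_pm_022_a k33_pm_022_a

theorem s39_pm_022_a : ∃ t, chk3 f_pm_022_a t 6 3 1 = true := ex3_a s38_pm_022_a s37_pm_022_a

theorem s40_pm_022_a : ∃ t, chk3 f_pm_022_a t 6 1 1 = true := ex3_b k31_pm_022_a s39_pm_022_a

theorem s41_pm_022_a : ∃ t, chk3 f_pm_022_a t 3 1 1 = true := ex3_a s40_pm_022_a k36_pm_022_a

theorem s42_pm_022_a : ∃ t, chk3 f_pm_022_a t 11 31 1 = true := ex3_a k29_pm_022_a k30_pm_022_a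

theorem s43_pm_022_a : ∃ t, chk3 f_pm_022_a t 11 15 1 = true := ex3_b k28_pm_022_a s42_pm_022_a

theorem s44_pm_022_a : ∃ t, chk3 f_pm_022_a t 11 7 1 = true := ex3_b k27_pm_022_a s43_pm_022_a

theorem s45_pm_022_a : ∃ t, chk3 f_pm_022_a t 11 3 1 = true := ex3_b k26_pm_022_a s44_pm_022_a

theorem s46_pm_022_a : ∃ t, chk3 f_pm_022_a t 21 15 1 = true := ex3_b k24_pm_022_a k25_pm_022_a

theorem s47_pm_022_a : ∃ t, chk3 f_pm_022_a t 21 7 1 = true := ex3_b k23_pm_022_a s46_pm_022_a

theorem s48_pm_022_a : ∃ t, chk3 f_pm_022_a t 21 3 1 = true := ex3_b k22_pm_022_a s47_pm_022_a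

theorem s49_pm_022_a : ∃ t, chk3 f_pm_022_a t 167 63 1 = true := ex3_c k20_pm_022_a k21_pm_022_a

theorem s50_pm_022_a : ∃ t, chk3 f_pm_022_a t 167 31 1 = true := ex3_b k19_pm_022_a s49_pm_022_a

theorem s51_pm_022_a : ∃ t, chk3 f_pm_022_a t 83 31 1 = true := ex3_a k18_pm_022_a s50_pm_022_a

theorem s52_pm_022_a : ∃ t, chk3 f_pm_022_a t 41 31 1 = true := ex3_a k17_pm_022_a s51_pm_022_a

theorem s53_pm_022_a : ∃ t, chk3 f_pm_022_a t 41 15 1 = true := ex3_b k16_pm_022_a s52_pm_022_a

theorem s54_pm_022_a : ∃ t, chk3 f_pm_022_a t 41 7 1 = true := ex3_b k15_pm_022_a s53_pm_022_a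

theorem s55_pm_022_a : ∃ t, chk3 f_pm_022_a t 40 15 1 = true := ex3_b k13_pm_022_a k14_pm_022_a

theorem s56_pm_022_a : ∃ t, chk3 f_pm_022_a t 40 7 1 = true := ex3_b k12_pm_022_a s55_pm_022_a

theorem s57_pm_022_a : ∃ t, chk3 f_pm_022_a t 20 7 1 = true := ex3_a s56_pm_022_a s54_pm_022_a

theorem s58_pm_022_a : ∃ t, chk3 f_pm_022_a t 20 3 1 = true := ex3_b k11_pm_022_a s57_pm_022_a

theorem s59_pm_022_a : ∃ t, chk3 f_pm_022_a t 10 3 1 = true := ex3_a s58_pm_022_a s48_pm_022_a

theorem s60_pm_022_a : ∃ t, chk3 f_pm_022_a t 5 3 1 = true := ex3_a s59_pm_022_a s45_pm_022_a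

theorem s61_pm_022_a : ∃ t, chk3 f_pm_022_a t 39 7 1 = true := ex3_b k9_pm_022_a k10_pm_022_a

theorem s62_pm_022_a : ∃ t, chk3 f_pm_022_a t 19 7 1 = true := ex3_a k8_pm_022_a s61_pm_022_a

theorem s63_pm_022_a : ∃ t, chk3 f_pm_022_a t 18 15 1 = true := ex3_b k6_pm_022_a k7_pm_022_a

theorem s64_pm_022_a : ∃ t, chk3 f_pm_022_a t 18 7 1 = true := ex3_b k5_pm_022_a s63_pm_022_a

theorem s65_pm_022_a : ∃ t, chk3 f_pm_022_a t 9 7 1 = true := ex3_a s64_pm_022_a s62_pm_022_a

theorem s66_pm_022_a : ∃ t, chk3 f_pm_022_a t 4 7 1 = true := ex3_a k4_pm_022_a s65_pm_022_a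

theorem s67_pm_022_a : ∃ t, chk3 f_pm_022_a t 4 3 1 = true := ex3_b k3_pm_022_a s66_pm_022_a

theorem s68_pm_022_a : ∃ t, chk3 f_pm_022_a t 2 3 1 = true := ex3_a s67_pm_022_a s60_pm_022_a

theorem s69_pm_022_a : ∃ t, chk3 f_pm_022_a t 5 2 1 = true := ex3_a k1_pm_022_a k2_pm_022_a

theorem s70_pm_022_a : ∃ t, chk3 f_pm_022_a t 2 2 1 = true := ex3_a k0_pm_022_a s69_pm_022_a

theorem s71_pm_022_a : ∃ t, chk3 f_pm_022_a t 2 1 1 = true := ex3_b s70_pm_022_a s68_pm_022_a

theorem s72_pm_022_a : ∃ t, chk3 f_pm_022_a t 1 1 1 = true := ex3_a s71_pm_022_a s41_pm_022_a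

theorem c_pm_022_a : CertF 0 536870912 0 536870912 201326592 134217728 true true false .pp 0 2 2
    ndF0q0 ndF1q2a pcF2 cut_pm_022_a Ext.none :=
  certF2 (fam := true) (s1 := true) (s2 := false) (a := 0) (b := 2) (c := 2) (cn := .pp) (n1 := ndF0q0) (n2 := ndF1q2a) (pc := pcF2) (cut := cut_pm_022_a) (xt := Ext.none) (P1 := 0) (W1 := 536870912) (P2 := 0) (W2 := 536870912) (P3 := 201326592) (W3 := 134217728)
    rfl (fun _ => rfl) s72_pm_022_a

noncomputable def cut_pm_022_b : Cut := Cut.of [[⟨0, 0, 0, 67108864⟩, ⟨1, 1, 0, 67108864⟩, ⟨2, 1, 0, 67108864⟩], [⟨0, 0, 1, 67108864⟩, ⟨1, 1, 0, 16777216⟩, ⟨2, 1, 1, 67108864⟩]]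

noncomputable def f_pm_022_b : ℕ → ℕ → ℕ → ℕ → Bool := onCell 0 536870912 1073741824 536870912 201326592 134217728
    (rowF 1 true true false .pp 0 2 2 (qsf 0 536870912 1239849684 370763052 2) ndF0q0 ndF1q2b pcF2 cut_pm_022_b Ext.none)

def k0_pm_022_b : ∃ t, chk3 f_pm_022_b t 2 2 1 = true :=
  ⟨(a (b (l 1) (b (a (a (b (b (l 1) (b (l 1) (a (b (l 1) (b (l 1) (c (l 16535392) (l 16485256)))) (l 1)))) (c (b (a (l 16520352) (l 16537616)) (a (l 16470648) (l 16487136))) (b (l 16541376) (l 16487776)))) (b (l 1) (b (l 1) (c (l 16538312) (l 16526408))))) (l 1)) (a (b (a (c (b (l 16474112) (l 16429616)) (b (l 16437088) (l 16409728))) (c (b (l 16506080) (l 16481936)) (b (l 16495120) (l 16466720)))) (c (a (b (l 16511272) (l 16727472)) (b (l 16522408) (l 16713976))) (a (l 16425576) (l 16451024)))) (b (a (b (l 1) (c (l 16533072) (l 16516904))) (l 1)) (a (c (b (l 16543776) (l 16708664)) (b (l 16480584) (l 16431328))) (c (b (l 1) (l 16712904)) (l 20971160231))))))) (l 1)), by decide +kernel⟩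

def k1_pm_022_b : ∃ t, chk3 f_pm_022_b t 2 3 1 = true :=
  ⟨(b (a (b (b (a (c (a (b (l 16914352) (l 17076592)) (b (l 16882344) (l 17030656))) (b (l 16400640) (l 16360888))) (c (a (b (l 16857032) (l 16990272)) (b (l 16839656) (l 16956448))) (a (l 16442912) (l 16518064)))) (a (c (a (l 17218744) (l 17221152)) (b (l 16364760) (l 16507424))) (c (a (l 17164800) (l 17113480)) (a (l 16488552) (l 16508280))))) (c (a (b (c (l 17634888) (l 17287328)) (l 17623272)) (b (a (l 17356704) (l 17291240)) (l 17472848))) (b (a (a (l 16727416) (l 16753008)) (a (l 16740256) (l 16731376))) (a (b (l 16938040) (l 17038952)) (a (l 16945472) (l 16918992)))))) (b (a (b (a (c (l 56941753463) (l 34392911319)) (l 1)) (c (a (l 17004936) (l 65531951127)) (a (l 16534320) (l 16567192)))) (l 1)) (a (c (b (a (l 17229896) (l 17172840)) (a (l 17366912) (l 17300208))) (b (a (l 16726608) (l 16726520)) (a (l 16895232) (l 16874344)))) (b (a (c (l 69827155767) (l 46741168535)) (l 1)) (c (a (l 17236984) (l 81638485543)) (a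 (l 53183690615) (l 63384284103))))))) (b (a (c (b (a (l 17741888) (l 17587088)) (l 17756376)) (b (a (l 17154360) (l 17081088)) (a (l 17278648) (l 17197360)))) (b (a (c (l 17441200) (l 17016048)) (c (l 87544323927) (a (l 16973280) (l 16948832)))) (a (c (l 17529424) (l 17123424)) (c (l 17389560) (l 17057432))))) (a (c (l 17867264) (a (l 17429768) (l 17339576))) (c (a (l 17636744) (l 17491920)) (a (l 17255584) (l 17177600)))))), by decide +kernel⟩

def k2_pm_022_b : ∃ t, chk3 f_pm_022_b t 3 1 1 = true :=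
  ⟨(a (b (l 1) (b (l 1) (a (b (b (c (l 214782633191) (l 183643668487)) (c (l 17262696) (l 146062737255))) (c (l 17357368) (l 17109096))) (b (l 1) (c (l 202971571975) (l 194918252583)))))) (l 1)), by decide +kernel⟩

theorem s3_pm_022_b : ∃ t, chk3 f_pm_022_b t 2 1 1 = true := ex3_b k0_pm_022_b k1_pm_022_b

theorem s4_pm_022_b : ∃ t, chk3 f_pm_022_b t 1 1 1 = true := ex3_a s3_pm_022_b k2_pm_022_b

theorem c_pm_022_b : CertF 0 536870912 1239849684 370763052 201326592 134217728 true true false .pp 0 2 2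
    ndF0q0 ndF1q2b pcF2 cut_pm_022_b Ext.none :=
  certF1 (fam := true) (s1 := true) (s2 := false) (a := 0) (b := 2) (c := 2) (cn := .pp) (n1 := ndF0q0) (n2 := ndF1q2b) (pc := pcF2) (cut := cut_pm_022_b) (xt := Ext.none) (P1 := 0) (W1 := 536870912) (P2 := 1239849684) (W2 := 370763052) (P3 := 201326592) (W3 := 134217728)
    rfl (fun _ => rfl) s4_pm_022_b

noncomputable def f_pm_023_a : ℕ → ℕ → ℕ → ℕ → Bool := onCell 1610612736 536870912 0 536870912 201326592 134217728
    (rowF 2 true true false .up 0 2 3 (qsf 0 536870912 0 536870912 3) ndF0q0 ndF1q2a pcF3 Cut.none Ext.none)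

def k0_pm_023_a : ∃ t, chk3 f_pm_023_a t 1 1 1 = true :=
  ⟨(a (a (b (a (b (c (a (l 17377944) (l 17351128)) (a (b (l 17114416) (l 17128064)) (l 17122752))) (c (a (l 17395464) (l 17374680)) (a (b (l 17135896) (l 17138560)) (l 17145480)))) (b (c (l 17298800) (l 17111264)) (c (l 17331960) (a (l 17145312) (l 17137664))))) (b (a (c (b (a (l 17394192) (l 17380568)) (a (l 17378232) (l 17369592))) (a (b (b (l 17138024) (l 17135224)) (c (l 17194584) (l 17072512))) (b (l 17152640) (l 17154816)))) (c (b (l 17346384) (l 17345688)) (b (l 24260963271) (a (l 17165408) (l 17166896))))) (a (c (b (a (l 17368488) (l 17360144)) (b (l 17366304) (l 17367968))) (b (a (c (l 17206088) (b (l 17087480) (l 17107536))) (l 17173344)) (a (c (l 17242376) (a (b (l 17125936) (b (l 17152016) (l 17149928))) (a (l 48419915191) (l 17162632)))) (c (l 17250416) (l 57010012199))))) (b (c (l 17332408) (a (l 17182552) (l 2))) (l 2))))) (b (a (b (c (l 17220288) (l 17119040)) (c (l 17261520) (l 52178207303))) (l 2)) (b (l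 2) (l 2)))) (l 2)), by decide +kernel⟩

theorem c_pm_023_a : CertF 0 536870912 0 536870912 201326592 134217728 true true false .up 0 2 3
    ndF0q0 ndF1q2a pcF3 Cut.none Ext.none :=
  certF2 (fam := true) (s1 := true) (s2 := false) (a := 0) (b := 2) (c := 3) (cn := .up) (n1 := ndF0q0) (n2 := ndF1q2a) (pc := pcF3) (cut := Cut.none) (xt := Ext.none) (P1 := 0) (W1 := 536870912) (P2 := 0) (W2 := 536870912) (P3 := 201326592) (W3 := 134217728)
    rfl (fun _ => rfl) k0_pm_023_a

noncomputable def f_pm_023_b : ℕ → ℕ → ℕ → ℕ → Bool := onCell 1610612736 536870912 1239849684 370763052 201326592 134217728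
    (rowF 2 true true false .up 0 2 3 (qsf 0 536870912 1239849684 370763052 3) ndF0q0 ndF1q2b pcF3 Cut.none Ext.none)

def k0_pm_023_b : ∃ t, chk3 f_pm_023_b t 1 1 1 = true :=
  ⟨(a (a (b (b (a (c (b (a (l 17404144) (l 17372792)) (l 17471712)) (b (a (b (l 17121168) (l 17152760)) (l 17133888)) (a (l 17201656) (l 17195400)))) (b (c (l 17314560) (a (l 17123704) (l 17107976))) (c (l 17392496) (l 17173600)))) (a (c (b (l 17551664) (l 17628536)) (b (a (l 17267632) (l 17259088)) (l 17329376))) (c (l 17512024) (b (l 17236800) (l 17299136))))) (b (a (c (l 17736544) (b (l 17393616) (l 17457168))) (c (l 17653920) (b (l 17361912) (l 17424480)))) (a (c (l 17873520) (b (l 17521208) (l 17585968))) (c (l 17786192) (l 17517504))))) (b (b (a (b (c (l 66673705303) (a (l 17086712) (l 17062800))) (c (l 17300928) (l 17128568))) (b (a (l 266926243831) (l 2)) (a (l 17149976) (l 17108744)))) (b (a (c (l 17376896) (l 17187816)) (a (l 17215576) (l 17169816))) (a (l 17414504) (l 17261976)))) (a (b (c (l 17557664)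 (l 17345456)) (c (l 17692608) (l 17466976))) (b (c (l 17449120) (l 17282304)) (l 17496848))))) (b (b (l 2) (a (a (a (l 209481716839) (l 350678546039)) (a (l 317928960759) (l 2))) (l 2))) (a (a (b (b (l 17235168) (l 17302264)) (a (l 17424464) (l 17375312))) (b (a (l 17218072) (l 17150352)) (a (l 17323200) (l 4)))) (l 4)))), by decide +kernel⟩

theorem c_pm_023_b : CertF 0 536870912 1239849684 370763052 201326592 134217728 true true false .up 0 2 3
    ndF0q0 ndF1q2b pcF3 Cut.none Ext.none :=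
  certF2 (fam := true) (s1 := true) (s2 := false) (a := 0) (b := 2) (c := 3) (cn := .up) (n1 := ndF0q0) (n2 := ndF1q2b) (pc := pcF3) (cut := Cut.none) (xt := Ext.none) (P1 := 0) (W1 := 536870912) (P2 := 1239849684) (W2 := 370763052) (P3 := 201326592) (W3 := 134217728)
    rfl (fun _ => rfl) k0_pm_023_b

noncomputable def f_pm_033 : ℕ → ℕ → ℕ → ℕ → Bool := onCell 1610612736 536870912 1610612736 536870912 201326592 134217728
    (rowF 2 true true false .pnn 0 3 3 (qsf 0 536870912 1610612736 536870912 3) ndF0q0 ndF1q3 pcF3 Cut.none Ext.none)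

def k0_pm_033 : ∃ t, chk3 f_pm_033 t 1 1 1 = true :=
  ⟨(a (b (a (b (a (c (l 18064072) (b (l 17681624) (l 17789392))) (c (l 17894208) (b (l 17601504) (l 17706944)))) (a (l 1) (c (l 18138784) (l 17868896)))) (a (b (c (l 17786272) (l 17567432)) (c (l 18030384) (l 17768976))) (b (c (l 17665168) (l 17474408)) (c (l 17901576) (l 17657792))))) (b (a (l 1) (a (l 1) (c (l 18132672) (l 17838040)))) (l 1))) (a (b (a (b (a (l 17487344) (l 17430160)) (a (l 17680304) (l 4))) (l 4)) (l 4)) (l 4))), by decide +kernel⟩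

theorem c_pm_033 : CertF 0 536870912 1610612736 536870912 201326592 134217728 true true false .pnn 0 3 3
    ndF0q0 ndF1q3 pcF3 Cut.none Ext.none :=
  certF2 (fam := true) (s1 := true) (s2 := false) (a := 0) (b := 3) (c := 3) (cn := .pnn) (n1 := ndF0q0) (n2 := ndF1q3) (pc := pcF3) (cut := Cut.none) (xt := Ext.none) (P1 := 0) (W1 := 536870912) (P2 := 1610612736) (W2 := 536870912) (P3 := 201326592) (W3 := 134217728)
    rfl (fun _ => rfl) k0_pm_033

noncomputable def cut_pm_101 : Cut := Cut.of [[⟨0, 1, 0, 67108864⟩, ⟨1, 0, 0, 67108864⟩, ⟨2, 1, 0, 67108864⟩]]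

noncomputable def f_pm_101 : ℕ → ℕ → ℕ → ℕ → Bool := onCell 536870912 536870912 0 536870912 201326592 134217728
    (rowF 2 true true false .npn 1 0 1 (qsf 536870912 536870912 0 536870912 1) ndF0q1 ndF1q0 pcF1 cut_pm_101 Ext.none)

def k0_pm_101 : ∃ t, chk3 f_pm_101 t 1 1 1 = true :=
  ⟨(a (l 3) (b (a (l 3) (b (a (l 3) (a (l 3) (a (l 3) (b (b (l 6) (l 3)) (l 3))))) (l 3))) (l 3))), by decide +kernel⟩

theorem c_pm_101 : CertF 536870912 536870912 0 536870912 201326592 134217728 true true false .npn 1 0 1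
    ndF0q1 ndF1q0 pcF1 cut_pm_101 Ext.none :=
  certF2 (fam := true) (s1 := true) (s2 := false) (a := 1) (b := 0) (c := 1) (cn := .npn) (n1 := ndF0q1) (n2 := ndF1q0) (pc := pcF1) (cut := cut_pm_101) (xt := Ext.none) (P1 := 536870912) (W1 := 536870912) (P2 := 0) (W2 := 536870912) (P3 := 201326592) (W3 := 134217728)
    rfl (fun _ => rfl) k0_pm_101

noncomputable def cut_pm_102 : Cut := Cut.of [[⟨0, 1, 0, 67108864⟩, ⟨1, 0, 0, 67108864⟩, ⟨2, 1, 0, 67108864⟩]]

noncomputable def f_pm_102 : ℕ → ℕ → ℕ → ℕ → Bool := onCell 536870912 536870912 1073741824 536870912 201326592 134217728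
    (rowF 1 true true false .npp 1 0 2 (qsf 536870912 536870912 0 536870912 2) ndF0q1 ndF1q0 pcF2 cut_pm_102 Ext.none)

def k0_pm_102 : ∃ t, chk3 f_pm_102 t 2 1 1 = true :=
  ⟨(b (b (b (l 3) (a (b (l 3) (a (l 2) (b (b (a (l 3) (c (l 224043708167) (a (l 264308891799) (l 169819578439)))) (a (l 2) (c (a (l 156934805399) (l 17140848)) (a (l 83316234583) (l 17069272))))) (a (l 2) (c (l 17138408) (l 17067232)))))) (c (b (a (b (l 3) (a (l 227264876103) (l 163914020919))) (a (b (l 279878085223) (l 156397773639)) (b (l 178409433879) (l 16992696)))) (b (a (a (b (l 156934765063) (l 17108608)) (l 17068368)) (l 17142392)) (a (a (l 17095112) (l 17049680)) (a (l 17000864) (l 16951856))))) (b (a (b (l 3) (a (l 282025570487) (l 173577579031))) (a (b (l 302963429127) (l 162303297239)) (b (l 181630580327) (l 16956672)))) (a (b (a (b (l 164987697527) (l 17043904)) (l 17012760)) (a (l 17033160) (l 16997824))) (b (a (l 16976176) (l 16939432)) (l 16983088))))))) (b (b (b (a (a (l 2) (c (l 57009854391)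 (l 79021410295))) (a (a (l 17046944) (l 17005552)) (l 17127560))) (a (l 2) (a (b (l 17181008) (l 17149536)) (l 17045152)))) (a (l 2) (a (a (l 17003992) (l 16960912)) (l 16892632)))) (a (l 2) (a (l 16938384) (l 16844032))))) (a (l 2) (b (a (l 2) (l 16816232)) (l 2)))), by decide +kernel⟩

def k1_pm_102 : ∃ t, chk3 f_pm_102 t 3 1 1 = true :=
  ⟨(b (a (a (b (b (b (l 3) (b (l 3) (a (l 3) (b (l 3) (l 244981188439))))) (b (c (b (a (l 17033856) (l 16928744)) (l 17053224)) (b (a (l 181630463767) (l 16906640)) (l 17029416))) (c (l 17104056) (l 17107080)))) (b (b (l 17013472) (l 16808072)) (l 16838616))) (b (b (a (b (l 3) (b (l 3) (l 135996583399))) (b (l 3) (b (l 137607142999) (l 16973664)))) (b (c (l 17004688) (l 17034376)) (l 16941408))) (b (b (b (l 16792384) (l 16905800)) (l 16801056)) (l 16853584)))) (b (a (b (b (a (c (l 202031487623) (l 209547647591)) (b (l 3) (a (l 140828230215) (l 139754442695)))) (b (c (l 16968080) (l 16958936)) (l 16979920))) (b (a (l 16894360) (l 16875472)) (b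 (l 16833728) (l 16832248)))) (b (b (a (a (b (l 221358676039) (l 16878792)) (b (c (l 200957586407) (l 206863156103)) (l 16858208))) (b (l 6) (a (a (l 16824024) (l 6)) (l 6)))) (a (b (b (l 16811512) (l 16783088)) (l 16823256)) (a (b (l 16769208) (l 16762576)) (b (a (l 16760632) (l 6)) (l 16751512))))) (b (a (l 16771192) (a (l 16756832) (l 16746456))) (b (a (l 16769640) (l 16752344)) (a (l 16770528) (l 16796272)))))) (b (b (b (a (l 16790240) (a (l 16772688) (l 16757336))) (b (a (l 16789920) (l 16809392)) (a (l 16790592) (a (l 16773344) (l 16820344))))) (a (l 16788424) (a (l 16768848) (l 16751432)))) (a (l 16964736) (b (l 16801392) (l 16787144)))))) (b (a (b (a (l 16860784) (l 16932360)) (a (l 16921144) (l 17008008))) (b (a (l 16971840) (b (l 16891728) (l 16970184))) (a (b (l 17041952) (l 17087784)) (b (l 17032136) (l 17085904))))) (b (a (a (l 2) (l 17070936)) (b (a (l 17130480) (l 17145824)) (a (l 17163912) (l 17198848)))) (a (l 2) (a (l 17200664) (l 17251704)))))), by decide +kernel⟩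

theorem s2_pm_102 : ∃ t, chk3 f_pm_102 t 1 1 1 = true := ex3_a k0_pm_102 k1_pm_102

theorem c_pm_102 : CertF 536870912 536870912 0 536870912 201326592 134217728 true true false .npp 1 0 2
    ndF0q1 ndF1q0 pcF2 cut_pm_102 Ext.none :=
  certF1 (fam := true) (s1 := true) (s2 := false) (a := 1) (b := 0) (c := 2) (cn := .npp) (n1 := ndF0q1) (n2 := ndF1q0) (pc := pcF2) (cut := cut_pm_102) (xt := Ext.none) (P1 := 536870912) (W1 := 536870912) (P2 := 0) (W2 := 536870912) (P3 := 201326592) (W3 := 134217728)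
    rfl (fun _ => rfl) s2_pm_102

noncomputable def f_pm_112 : ℕ → ℕ → ℕ → ℕ → Bool := onCell 536870912 536870912 1073741824 536870912 201326592 134217728
    (rowF 1 true true false .dn 1 1 2 (qsf 536870912 536870912 536870912 536870912 2) ndF0q1 ndF1q1 pcF2 Cut.none Ext.none)

def k0_pm_112 : ∃ t, chk3 f_pm_112 t 1 1 1 = true :=
  ⟨(a (b (b (b (l 3) (a (b (l 3) (a (b (l 3) (c (a (l 93584250839) (l 17252672)) (a (l 17033688) (l 17044504)))) (a (b (c (b (l 3) (l 17246744)) (l 95194679287)) (c (l 17207088) (l 17061200))) (b (a (c (b (l 108616738103) (l 17228000)) (l 97342186199)) (c (l 276523188439) (l 286186561927))) (c (l 17236768) (l 17083712)))))) (a (b (l 1) (b (l 1) (c (l 296924385959) (l 303903319623)))) (l 1)))) (b (b (b (a (a (c (b (l 17175704) (l 17177480)) (b (l 17038600) (l 17038880))) (c (b (l 17222960) (l 17224248)) (b (l 17073080) (l 17074360)))) (a (a (b (l 17296368) (l 17192416)) (l 1)) (l 1))) (a (b (a (c (l 17179296) (l 17039312)) (c (l 17225024) (l 17075112)))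 (b (a (c (l 17181912) (l 17040360)) (l 17170064)) (b (a (c (l 17182872) (l 17040352)) (l 17146744)) (a (c (l 17182944) (l 17039776)) (l 17143696))))) (a (b (c (l 17288016) (l 17128336)) (c (l 17279840) (l 17121656))) (l 1)))) (a (a (c (l 17192816) (l 17043472)) (l 17147848)) (a (l 17197760) (l 300682241575)))) (a (a (c (l 17226240) (l 17059872)) (c (l 17247208) (l 17089112))) (a (l 17206416) (l 17266688))))) (a (b (a (c (b (l 17279520) (l 17340976)) (b (l 17092608) (l 17136992))) (b (l 17201048) (l 17242808))) (a (b (l 17300608) (l 17367200)) (c (l 17400216) (l 17225048)))) (b (a (b (l 17224200) (l 17247576)) (l 17267968)) (a (l 17288824) (l 17278960))))) (b (a (b (l 1) (b (l 1) (a (l 300145919207) (l 1)))) (l 1)) (b (b (a (a (l 17324416) (l 299609143175)) (l 1)) (a (a (l 17308048) (l 17348504)) (b (l 1) (l 389266709991)))) (b (a (b (l 17308784) (l 17298376)) (b (l 17457128) (l 17350824))) (a (l 17280432) (l 17382560)))))), by decide +kernel⟩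

theorem c_pm_112 : CertF 536870912 536870912 536870912 536870912 201326592 134217728 true true false .dn 1 1 2
    ndF0q1 ndF1q1 pcF2 Cut.none Ext.none :=
  certF1 (fam := true) (s1 := true) (s2 := false) (a := 1) (b := 1) (c := 2) (cn := .dn) (n1 := ndF0q1) (n2 := ndF1q1) (pc := pcF2) (cut := Cut.none) (xt := Ext.none) (P1 := 536870912) (W1 := 536870912) (P2 := 536870912) (W2 := 536870912) (P3 := 201326592) (W3 := 134217728)
    rfl (fun _ => rfl) k0_pm_112

noncomputable def f_pm_113 : ℕ → ℕ → ℕ → ℕ → Bool := onCell 536870912 536870912 1610612736 536870912 201326592 134217728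
    (rowF 1 true true false .nn 1 1 3 (qsf 536870912 536870912 536870912 536870912 3) ndF0q1 ndF1q1 pcF3 Cut.none Ext.none)

def k0_pm_113 : ∃ t, chk3 f_pm_113 t 1 1 1 = true :=
  ⟨(b (a (a (b (a (c (l 17552824) (l 17350240)) (b (l 17352296) (l 17409088))) (a (l 2) (b (l 17448912) (l 2)))) (b (a (l 17544064) (l 17279976)) (a (b (l 17511072) (l 17629832)) (a (l 17320064) (l 17298952))))) (b (a (a (l 17381776) (l 17209336)) (a (l 17318720) (l 17270680))) (a (a (l 17456448) (b (l 17149728) (l 17099320))) (b (a (l 17195104) (l 17201120)) (a (l 17136800) (l 17141856)))))) (a (b (a (l 2) (a (l 2) (b (a (l 2) (l 17287080)) (l 2)))) (l 2)) (a (b (a (b (l 17179808) (l 171363749655)) (b (l 17109160) (l 17077960))) (b (a (l 2) (l 165994683607)) (l 2))) (b (b (a (l 17068288) (l 17079776)) (b (l 17026640) (l 16995400))) (b (b (l 16958544) (l 16913304)) (b (l 16855336) (a (l 2) (l 4)))))))), by decide +kernel⟩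

theorem c_pm_113 : CertF 536870912 536870912 536870912 536870912 201326592 134217728 true true false .nn 1 1 3
    ndF0q1 ndF1q1 pcF3 Cut.none Ext.none :=
  certF1 (fam := true) (s1 := true) (s2 := false) (a := 1) (b := 1) (c := 3) (cn := .nn) (n1 := ndF0q1) (n2 := ndF1q1) (pc := pcF3) (cut := Cut.none) (xt := Ext.none) (P1 := 536870912) (W1 := 536870912) (P2 := 536870912) (W2 := 536870912) (P3 := 201326592) (W3 := 134217728)
    rfl (fun _ => rfl) k0_pm_113

noncomputable def cut_pm_123_a : Cut := Cut.of [[⟨0, 1, 0, 57167902⟩, ⟨1, 1, 0, 57167902⟩, ⟨2, 2, 0, 11758673⟩]]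

noncomputable def f_pm_123_a : ℕ → ℕ → ℕ → ℕ → Bool := onCell 1610612736 536870912 0 536870912 201326592 134217728
    (rowF 2 true true false .npn 1 2 3 (qsf 536870912 536870912 0 536870912 3) ndF0q1 ndF1q2a pcF3 cut_pm_123_a Ext.none)

def k0_pm_123_a : ∃ t, chk3 f_pm_123_a t 2 1 1 = true :=
  ⟨(a (b (a (l 1) (b (l 1) (c (l 17332528) (a (l 1) (l 17137760))))) (b (a (l 1) (b (a (l 1) (l 17243832)) (c (l 17345784) (a (l 17165440) (l 17166904))))) (a (a (b (l 1) (c (l 17373192) (c (l 17242376) (b (l 143915705975) (a (c (l 17183952) (b (l 17128536) (l 17148864))) (l 17175976)))))) (b (c (l 17360208) (l 17173360)) (c (l 17358608) (b (l 17201368) (l 17224920))))) (b (c (l 17332416) (a (l 17182552) (l 17181536))) (c (b (l 17324296) (l 17315400)) (a (l 17215176) (l 17206056))))))) (b (a (b (c (l 17220392) (a (l 17086904) (l 17066008))) (c (l 17261576) (a (l 17124608) (l 17106336)))) (b (a (c (l 17159896) (l 17041712)) (c (l 17117240) (l 17013920))) (c (l 17183440) (a (l 17083784) (l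 17056856))))) (c (b (a (b (l 17285560) (l 17293312)) (a (b (l 17230368) (l 17242352)) (l 17297080))) (a (b (a (l 17292296) (l 17259672)) (a (l 17266800) (l 17223992))) (b (a (l 17222328) (l 17181592)) (b (l 17292024) (l 17196344))))) (b (a (b (l 17160936) (a (l 17160600) (l 17146960))) (b (l 17118568) (a (l 17127064) (l 17100856)))) (a (b (a (l 17171904) (l 17155384)) (a (l 17187952) (l 17162168))) (b (a (l 17132664) (l 17105064)) (b (a (l 17132352) (l 17097696)) (l 17107040)))))))), by decide +kernel⟩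

def k1_pm_123_a : ∃ t, chk3 f_pm_123_a t 6 1 1 = true :=
  ⟨(b (a (c (b (a (l 17072880) (b (l 17013208) (l 17042768))) (a (l 17119128) (l 17072048))) (b (a (l 16983800) (b (l 16940976) (l 16963968))) (a (l 17026632) (l 16992784)))) (b (a (b (c (l 16962224) (l 16908104)) (c (l 16993088) (l 16929816))) (c (l 17049544) (l 17030408))) (a (b (l 16978664) (l 16994512)) (c (l 17114472) (b (l 16910888) (l 16925600)))))) (b (a (a (c (l 17272384) (b (l 17052680) (l 17069264))) (c (l 17096592) (l 17275536))) (c (b (l 17138848) (l 17189696)) (a (l 17152584) (l 17090744)))) (a (a (b (b (l 17112072) (l 17096336)) (c (l 17073272) (l 17052896))) (b (b (l 17070944) (l 17055056)) (b (l 17032048) (l 17001792)))) (b (b (a (l 17026304) (l 16980568)) (a (l 17015056) (l 17081416))) (b (l 17157624) (c (l 16990416) (l 17045160))))))), by decide +kernel⟩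

def k2_pm_123_a : ∃ t, chk3 f_pm_123_a t 7 1 1 = true :=
  ⟨(a (b (a (b (a (l 16975752) (l 16935264)) (b (l 16974208) (a (l 16915944) (l 16894528)))) (a (b (c (l 16839360) (l 16827712)) (b (l 16860208) (l 16873728))) (b (b (l 160222570263) (l 16829064)) (l 16888792)))) (a (b (b (l 16979296) (l 16989624)) (b (c (l 17029312) (b (l 16919720) (l 16922768))) (b (l 16912488) (l 17030576)))) (b (a (l 17035512) (l 17045712)) (b (b (l 16930160) (c (l 16899632) (l 16881576))) (b (c (l 16904632) (l 16916600)) (c (l 16940440) (l 16989040))))))) (a (b (b (a (b (l 4) (l 126936603767)) (l 4)) (a (c (l 16973216) (l 71639137415)) (b (l 119420511447) (l 16952080)))) (b (b (a (l 16884968) (l 16865808)) (a (l 16851248) (l 16913688))) (b (c (l 16851320) (l 16879992)) (b (a (l 16937384) (c (l 16858000) (l 16872440))) (a (c (l 16869600) (l 16904568)) (c (l 16921792) (a (l 16869192) (l 16880280)))))))) (b (a (b (l 4) (b (l 4) (l 92576965367))) (l 4)) (a (a (b (b (l 16811344) (l 16813856)) (b (b (l 16817688)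 (l 16818992)) (b (l 16839664) (c (l 16873240) (b (l 16809368) (l 16856440)))))) (b (b (l 16845464) (l 16905784)) (b (b (l 16806296) (l 16829648)) (b (b (l 16808640) (l 16808272)) (b (l 16824488) (c (l 16849664) (a (l 16827208) (l 16832088)))))))) (a (b (b (l 4) (l 16891280)) (a (b (b (l 16798288) (l 16800272)) (b (l 16800072) (b (l 16797760) (c (l 16818736) (b (l 16791976) (l 16818784)))))) (a (b (b (l 16794416) (l 16774528)) (b (l 16795728) (b (l 16794376) (c (l 16813680) (l 16811624))))) (b (b (l 16792064) (l 16771344)) (l 6))))) (b (l 4) (b (a (c (l 16885504) (b (l 16800392) (l 16865200))) (a (b (l 4) (l 16824664)) (l 4))) (l 6)))))))), by decide +kernel⟩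

theorem s3_pm_123_a : ∃ t, chk3 f_pm_123_a t 3 1 1 = true := ex3_a k1_pm_123_a k2_pm_123_a

theorem s4_pm_123_a : ∃ t, chk3 f_pm_123_a t 1 1 1 = true := ex3_a k0_pm_123_a s3_pm_123_a

theorem c_pm_123_a : CertF 536870912 536870912 0 536870912 201326592 134217728 true true false .npn 1 2 3
    ndF0q1 ndF1q2a pcF3 cut_pm_123_a Ext.none :=
  certF2 (fam := true) (s1 := true) (s2 := false) (a := 1) (b := 2) (c := 3) (cn := .npn) (n1 := ndF0q1) (n2 := ndF1q2a) (pc := pcF3) (cut := cut_pm_123_a) (xt := Ext.none) (P1 := 536870912) (W1 := 536870912) (P2 := 0) (W2 := 536870912) (P3 := 201326592) (W3 := 134217728)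
    rfl (fun _ => rfl) s4_pm_123_a

noncomputable def cut_pm_123_b : Cut := Cut.of [[⟨0, 1, 0, 57167902⟩, ⟨1, 1, 0, 57167902⟩, ⟨2, 2, 0, 11758673⟩]]

noncomputable def f_pm_123_b : ℕ → ℕ → ℕ → ℕ → Bool := onCell 1610612736 536870912 1239849684 370763052 201326592 134217728
    (rowF 2 true true false .npn 1 2 3 (qsf 536870912 536870912 1239849684 370763052 3) ndF0q1 ndF1q2b pcF3 cut_pm_123_b Ext.none)

def k0_pm_123_b : ∃ t, chk3 f_pm_123_b t 1 1 1 = true :=
  ⟨(a (b (a (l 1) (b (a (b (a (c (l 17248672) (l 17086936)) (c (l 17204640) (l 17062896))) (l 1)) (a (b (b (l 17079664) (l 17105792)) (l 17150184)) (b (c (l 17115392) (l 17007584)) (l 17108808)))) (a (l 1) (b (a (l 1) (l 17170112)) (l 1))))) (l 1)) (a (b (a (a (b (b (b (l 17006744) (l 17030152)) (l 17068376)) (b (l 17126672) (l 1))) (b (b (c (l 17018144) (l 16967592)) (l 17028984)) (b (l 17084144) (l 17144968)))) (a (b (b (b (c (l 16956888) (l 16905024)) (l 16952824)) (l 16990824)) (b (l 17045064) (l 17102296))) (b (b (b (a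 (l 16899488) (l 16879208)) (l 16915040)) (l 16954504)) (b (l 17009584) (l 17065152))))) (a (l 1) (b (a (b (l 17163696) (l 1)) (l 17150880)) (l 1)))) (a (b (b (a (b (b (a (l 16860120) (l 16843712)) (a (l 16888296) (l 16872816))) (a (l 16931152) (l 16915968))) (b (b (a (l 44795364599) (l 4)) (l 4)) (l 4))) (a (b (l 16998048) (l 4)) (l 4))) (l 4)) (l 4)))), by decide +kernel⟩

theorem c_pm_123_b : CertF 536870912 536870912 1239849684 370763052 201326592 134217728 true true false .npn 1 2 3
    ndF0q1 ndF1q2b pcF3 cut_pm_123_b Ext.none :=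
  certF2 (fam := true) (s1 := true) (s2 := false) (a := 1) (b := 2) (c := 3) (cn := .npn) (n1 := ndF0q1) (n2 := ndF1q2b) (pc := pcF3) (cut := cut_pm_123_b) (xt := Ext.none) (P1 := 536870912) (W1 := 536870912) (P2 := 1239849684) (W2 := 370763052) (P3 := 201326592) (W3 := 134217728)
    rfl (fun _ => rfl) k0_pm_123_b

noncomputable def f_pm_133 : ℕ → ℕ → ℕ → ℕ → Bool := onCell 536870912 536870912 1610612736 536870912 201326592 134217728
    (rowF 0 true true false .dn 1 3 3 (qsf 536870912 536870912 1610612736 536870912 3) ndF0q1 ndF1q3 pcF3 Cut.none Ext.none)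

def k0_pm_133 : ∃ t, chk3 f_pm_133 t 1 1 1 = true :=
  ⟨(l 4), by decide +kernel⟩

theorem c_pm_133 : CertF 536870912 536870912 1610612736 536870912 201326592 134217728 true true false .dn 1 3 3
    ndF0q1 ndF1q3 pcF3 Cut.none Ext.none :=
  certF0 (fam := true) (s1 := true) (s2 := false) (a := 1) (b := 3) (c := 3) (cn := .dn) (n1 := ndF0q1) (n2 := ndF1q3) (pc := pcF3) (cut := Cut.none) (xt := Ext.none) (P1 := 536870912) (W1 := 536870912) (P2 := 1610612736) (W2 := 536870912) (P3 := 201326592) (W3 := 134217728)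
    rfl k0_pm_133

noncomputable def cut_pm_202 : Cut := Cut.of [[⟨0, 1, 0, 67108864⟩, ⟨1, 0, 0, 67108864⟩, ⟨2, 1, 0, 67108864⟩]]

noncomputable def f_pm_202 : ℕ → ℕ → ℕ → ℕ → Bool := onCell 0 536870912 1073741824 536870912 201326592 134217728
    (rowF 1 true true false .pp 2 0 2 (qsf 0 536870912 0 536870912 2) ndF0q2 ndF1q0 pcF2 cut_pm_202 Ext.none)

def k0_pm_202 : ∃ t, chk3 f_pm_202 t 2 1 1 = true :=
  ⟨(b (a (b (l 1) (b (b (b (l 1) (b (a (l 1) (c (a (l 1) (l 16540920)) (l 110091765799))) (b (a (l 1) (c (l 177200583415) (l 16540912))) (a (c (a (l 16558736) (l 16571168)) (l 141230348455)) (c (c (l 16598496) (l 16579512)) (l 16621680)))))) (a (b (c (a (l 16548536) (l 16540224)) (l 16570632)) (c (l 16526000) (l 16534848))) (c (b (l 16568912) (l 16507976)) (b (l 16550528) (l 16513544))))) (b (a (a (l 16588960) (l 16539936)) (c (l 16477568) (l 16488112))) (a (l 16542536) (l 16481584))))) (b (a (l 1) (a (l 1) (b (l 1) (b (l 1) (b (l 1) (b (l 1) (c (l 125124073959) (l 16581720))))))))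 (b (b (b (a (b (l 1) (c (a (l 16537192) (l 16547696)) (l 138009019799))) (b (c (a (l 16559488) (l 16544312)) (a (l 16553264) (l 16528728))) (c (a (l 16540400) (l 16514368)) (l 16564136)))) (b (a (c (a (l 16550224) (l 16518448)) (l 16568784)) (c (l 16550000) (l 16534912))) (a (c (b (l 16539208) (l 16598384)) (a (l 16649560) (l 16640544))) (c (a (l 16627944) (l 16627416)) (a (l 16633960) (l 16631840)))))) (b (a (a (l 16554448) (l 16544096)) (c (l 16498448) (l 16494768))) (a (l 16551624) (l 16521472)))) (b (a (l 16547360) (c (l 16511912) (l 16503880))) (a (l 16488728) (l 16522560)))))) (b (b (a (a (l 16706344) (l 16705912)) (a (l 16710256) (l 16698496))) (a (l 16982768) (a (l 17010192) (l 17017808)))) (b (a (l 17084112) (a (l 17135432) (l 17160544))) (a (l 17102504) (l 17184440))))), by decide +kernel⟩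

def k1_pm_202 : ∃ t, chk3 f_pm_202 t 6 2 1 = true :=
  ⟨(b (a (b (l 1) (b (l 1) (a (b (b (l 1) (c (l 16585752) (l 16586408))) (b (c (l 16569848) (l 16551704)) (c (l 16568264) (l 16559176)))) (c (b (b (c (l 82711321591) (l 125124125415)) (l 149283277319)) (b (l 16561240) (l 16567208))) (b (b (a (l 1) (l 124050381047)) (l 129955941607)) (b (l 16557624) (l 16561648))))))) (b (l 1) (b (b (a (l 1) (b (l 1) (c (a (l 94522587831) (l 136398525527)) (a (l 98817530135) (l 124050491351))))) (a (a (b (l 1) (c (l 112776125623) (l 126197897687))) (b (c (l 100965003607) (l 109554933383)) (c (l 16614976) (l 131029742167)))) (c (b (a (l 142840939655) (l 16626592)) (l 16629520)) (b (a (l 124587328103) (l 16625688)) (l 16629936))))) (b (a (c (c (l 139082775767) (l 167536936631)) (b (a (l 171295024039) (l 16587864)) (l 16582184))) (c (l 16609424) (l 16606408))) (b (c (a (l 16591776) (l 16619384)) (l 16569064)) (a (b (l 16593960) (l 16596752)) (l 16643448))))))) (b (b (b (a (b (c (a (l 16540400) (l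 16570608)) (l 16560168)) (c (l 16534672) (l 16549272))) (a (b (l 16618544) (l 16596584)) (b (l 16626360) (l 16626232)))) (b (a (c (l 16555248) (l 16548856)) (a (l 16595472) (l 16625424))) (a (b (l 16561600) (a (l 16619680) (l 16626880))) (b (l 16630328) (l 16733696))))) (a (b (l 16611856) (l 16551520)) (a (l 16649200) (l 16676872)))) (b (a (l 16615928) (b (l 16603560) (l 16601584))) (a (l 16558168) (l 16596920))))), by decide +kernel⟩

def k2_pm_202 : ∃ t, chk3 f_pm_202 t 7 2 1 = true :=
  ⟨(b (a (b (a (b (l 1) (b (l 1) (b (l 1) (a (l 1) (c (b (l 150357227495) (l 162705253399)) (l 145525378855)))))) (b (l 1) (b (l 6) (b (l 6) (b (l 6) (c (l 16692896) (l 16697064))))))) (b (a (b (b (a (c (b (l 134251064663) (l 16656560)) (l 151967817351)) (c (l 16673344) (l 16660976))) (a (c (l 16666136) (l 16643656)) (l 16663312))) (c (l 16639632) (l 16627976))) (b (c (a (l 16678768) (l 16664832)) (l 16680304)) (c (l 16660280) (l 16657296)))) (b (a (c (l 16637776) (l 16633264)) (l 16664120)) (a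 (b (l 16642696) (l 16647968)) (b (l 16669944) (l 16674344)))))) (b (b (l 6) (b (l 6) (b (l 6) (a (a (l 16683544) (l 16699424)) (l 16705408))))) (b (a (b (a (l 16681032) (l 16698016)) (l 16690520)) (b (l 16745216) (l 16723688))) (b (a (l 16694224) (l 16725800)) (b (l 16714264) (l 16717408)))))) (b (b (b (a (b (l 16706768) (l 16686056)) (a (l 16724992) (l 16732936))) (b (a (l 16665000) (l 16719192)) (a (a (l 16819224) (l 16823848)) (b (l 16718392) (b (l 16717600) (l 16716808)))))) (a (b (l 16659920) (l 16659432)) (b (l 16715192) (l 16714680)))) (b (a (b (l 16656344) (l 16650976)) (l 16707576)) (a (l 16660088) (l 16691496))))), by decide +kernel⟩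

def k3_pm_202 : ∃ t, chk3 f_pm_202 t 3 3 1 = true :=
  ⟨(b (b (a (a (l 16712560) (l 16752856)) (a (b (l 16688088) (l 16853736)) (b (l 16743824) (l 16876952)))) (a (b (l 16967632) (l 17062216)) (b (a (l 16970712) (l 16975864)) (l 17263400)))) (b (a (b (l 17135800) (l 17190208)) (b (l 17131408) (l 17196296))) (a (l 17234376) (l 17255104)))), by decide +kernel⟩

theorem s4_pm_202 : ∃ t, chk3 f_pm_202 t 3 2 1 = true := ex3_a k1_pm_202 k2_pm_202

theorem s5_pm_202 : ∃ t, chk3 f_pm_202 t 3 1 1 = true := ex3_b s4_pm_202 k3_pm_202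

theorem s6_pm_202 : ∃ t, chk3 f_pm_202 t 1 1 1 = true := ex3_a k0_pm_202 s5_pm_202

theorem c_pm_202 : CertF 0 536870912 0 536870912 201326592 134217728 true true false .pp 2 0 2
    ndF0q2 ndF1q0 pcF2 cut_pm_202 Ext.none :=
  certF1 (fam := true) (s1 := true) (s2 := false) (a := 2) (b := 0) (c := 2) (cn := .pp) (n1 := ndF0q2) (n2 := ndF1q0) (pc := pcF2) (cut := cut_pm_202) (xt := Ext.none) (P1 := 0) (W1 := 536870912) (P2 := 0) (W2 := 536870912) (P3 := 201326592) (W3 := 134217728)
    rfl (fun _ => rfl) s6_pm_202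

noncomputable def f_pm_203 : ℕ → ℕ → ℕ → ℕ → Bool := onCell 0 536870912 1610612736 536870912 201326592 134217728
    (rowF 1 true true false .up 2 0 3 (qsf 0 536870912 0 536870912 3) ndF0q2 ndF1q0 pcF3 Cut.none Ext.none)

def k0_pm_203 : ∃ t, chk3 f_pm_203 t 1 1 1 = true :=
  ⟨(b (b (a (b (a (b (l 17099416) (l 22784680663)) (c (l 17311328) (l 17085480))) (a (b (l 17173616) (l 17088200)) (b (l 17189160) (l 17185560)))) (c (a (b (a (l 17405080) (l 17443336)) (l 17435248)) (b (l 17483232) (l 17509824))) (a (b (l 17363576) (l 17165952)) (b (l 17170112) (l 17225080))))) (a (b (a (l 4) (c (l 17390288) (l 17296456))) (l 2)) (a (l 2) (l 2)))) (l 2)), by decide +kernel⟩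

theorem c_pm_203 : CertF 0 536870912 0 536870912 201326592 134217728 true true false .up 2 0 3
    ndF0q2 ndF1q0 pcF3 Cut.none Ext.none :=
  certF1 (fam := true) (s1 := true) (s2 := false) (a := 2) (b := 0) (c := 3) (cn := .up) (n1 := ndF0q2) (n2 := ndF1q0) (pc := pcF3) (cut := Cut.none) (xt := Ext.none) (P1 := 0) (W1 := 536870912) (P2 := 0) (W2 := 536870912) (P3 := 201326592) (W3 := 134217728)
    rfl (fun _ => rfl) k0_pm_203

noncomputable def f_pm_213 : ℕ → ℕ → ℕ → ℕ → Bool := onCell 0 536870912 1610612736 536870912 201326592 134217728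
    (rowF 1 true true false .pnn 2 1 3 (qsf 0 536870912 536870912 536870912 3) ndF0q2 ndF1q1 pcF3 Cut.none Ext.none)

def k0_pm_213 : ∃ t, chk3 f_pm_213 t 1 1 1 = true :=
  ⟨(a (b (a (b (l 1) (l 4)) (b (b (l 1) (l 17337440)) (b (b (l 17047472) (l 17014152)) (b (l 16977992) (l 4))))) (l 4)) (b (b (a (b (l 1) (c (l 17072576) (l 17098080))) (b (l 17216160) (l 17177200))) (b (a (l 17037680) (l 17191728)) (a (l 17127400) (l 17181016)))) (b (b (a (l 17025520) (l 17187952)) (a (l 4) (l 16989712))) (b (a (l 4) (l 17127232)) (l 4))))), by decide +kernel⟩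

theorem c_pm_213 : CertF 0 536870912 536870912 536870912 201326592 134217728 true true false .pnn 2 1 3
    ndF0q2 ndF1q1 pcF3 Cut.none Ext.none :=
  certF1 (fam := true) (s1 := true) (s2 := false) (a := 2) (b := 1) (c := 3) (cn := .pnn) (n1 := ndF0q2) (n2 := ndF1q1) (pc := pcF3) (cut := Cut.none) (xt := Ext.none) (P1 := 0) (W1 := 536870912) (P2 := 536870912) (W2 := 536870912) (P3 := 201326592) (W3 := 134217728)
    rfl (fun _ => rfl) k0_pm_213

noncomputable def f_mm_001 : ℕ → ℕ → ℕ → ℕ → Bool := onCell 0 536870912 0 536870912 201326592 134217728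
    (rowF 0 true false false .up 0 0 1 (qsf 0 536870912 0 536870912 1) ndF0q0 ndF1q0 pcF1 Cut.none Ext.none)

def k0_mm_001 : ∃ t, chk3 f_mm_001 t 1 1 1 = true :=
  ⟨(l 4), by decide +kernel⟩

theorem c_mm_001 : CertF 0 536870912 0 536870912 201326592 134217728 true false false .up 0 0 1
    ndF0q0 ndF1q0 pcF1 Cut.none Ext.none :=
  certF0 (fam := true) (s1 := false) (s2 := false) (a := 0) (b := 0) (c := 1) (cn := .up) (n1 := ndF0q0) (n2 := ndF1q0) (pc := pcF1) (cut := Cut.none) (xt := Ext.none) (P1 := 0) (W1 := 536870912) (P2 := 0) (W2 := 536870912) (P3 := 201326592) (W3 := 134217728)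
    rfl k0_mm_001

noncomputable def f_mm_011 : ℕ → ℕ → ℕ → ℕ → Bool := onCell 0 536870912 536870912 536870912 201326592 134217728
    (rowF 0 true false false .pnn 0 1 1 (qsf 0 536870912 536870912 536870912 1) ndF0q0 ndF1q1 pcF1 Cut.none Ext.none)

def k0_mm_011 : ∃ t, chk3 f_mm_011 t 1 1 1 = true :=
  ⟨(l 4), by decide +kernel⟩

theorem c_mm_011 : CertF 0 536870912 536870912 536870912 201326592 134217728 true false false .pnn 0 1 1
    ndF0q0 ndF1q1 pcF1 Cut.none Ext.none :=
  certF0 (fam := true) (s1 := false) (s2 := false) (a := 0) (b := 1) (c := 1) (cn := .pnn) (n1 := ndF0q0) (n2 := ndF1q1) (pc := pcF1) (cut := Cut.none) (xt := Ext.none) (P1 := 0) (W1 := 536870912) (P2 := 536870912) (W2 := 536870912) (P3 := 201326592) (W3 := 134217728)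
    rfl k0_mm_011

noncomputable def f_mm_012 : ℕ → ℕ → ℕ → ℕ → Bool := onCell 0 536870912 536870912 536870912 201326592 134217728
    (rowF 0 true false false .pnp 0 1 2 (qsf 0 536870912 536870912 536870912 2) ndF0q0 ndF1q1 pcF2 Cut.none Ext.none)

def k0_mm_012 : ∃ t, chk3 f_mm_012 t 1 1 1 = true :=
  ⟨(l 4), by decide +kernel⟩

theorem c_mm_012 : CertF 0 536870912 536870912 536870912 201326592 134217728 true false false .pnp 0 1 2
    ndF0q0 ndF1q1 pcF2 Cut.none Ext.none :=
  certF0 (fam := true) (s1 := false) (s2 := false) (a := 0) (b := 1) (c := 2) (cn := .pnp) (n1 := ndF0q0) (n2 := ndF1q1) (pc := pcF2) (cut := Cut.none) (xt := Ext.none) (P1 := 0) (W1 := 536870912) (P2 := 536870912) (W2 := 536870912) (P3 := 201326592) (W3 := 134217728)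
    rfl k0_mm_012

noncomputable def f_mm_022_a : ℕ → ℕ → ℕ → ℕ → Bool := onCell 0 536870912 0 536870912 201326592 134217728
    (rowF 0 true false false .pp 0 2 2 (qsf 0 536870912 0 536870912 2) ndF0q0 ndF1q2a pcF2 Cut.none Ext.none)

def k0_mm_022_a : ∃ t, chk3 f_mm_022_a t 1 1 1 = true :=
  ⟨(l 5), by decide +kernel⟩

theorem c_mm_022_a : CertF 0 536870912 0 536870912 201326592 134217728 true false false .pp 0 2 2
    ndF0q0 ndF1q2a pcF2 Cut.none Ext.none :=
  certF0 (fam := true) (s1 := false) (s2 := false) (a := 0) (b := 2) (c := 2) (cn := .pp) (n1 := ndF0q0) (n2 := ndF1q2a) (pc := pcF2) (cut := Cut.none) (xt := Ext.none) (P1 := 0) (W1 := 536870912) (P2 := 0) (W2 := 536870912) (P3 := 201326592) (W3 := 134217728)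
    rfl k0_mm_022_a

noncomputable def f_mm_022_b : ℕ → ℕ → ℕ → ℕ → Bool := onCell 0 536870912 1239849684 370763052 201326592 134217728
    (rowF 0 true false false .pp 0 2 2 (qsf 0 536870912 1239849684 370763052 2) ndF0q0 ndF1q2b pcF2 Cut.none Ext.none)

def k0_mm_022_b : ∃ t, chk3 f_mm_022_b t 1 1 1 = true :=
  ⟨(l 5), by decide +kernel⟩

theorem c_mm_022_b : CertF 0 536870912 1239849684 370763052 201326592 134217728 true false false .pp 0 2 2
    ndF0q0 ndF1q2b pcF2 Cut.none Ext.none :=
  certF0 (fam := true) (s1 := false) (s2 := false) (a := 0) (b := 2) (c := 2) (cn := .pp) (n1 := ndF0q0) (n2 := ndF1q2b) (pc := pcF2) (cut := Cut.none) (xt := Ext.none) (P1 := 0) (W1 := 536870912) (P2 := 1239849684) (W2 := 370763052) (P3 := 201326592) (W3 := 134217728)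
    rfl k0_mm_022_b

noncomputable def f_mm_023_a : ℕ → ℕ → ℕ → ℕ → Bool := onCell 0 536870912 0 536870912 201326592 134217728
    (rowF 0 true false false .up 0 2 3 (qsf 0 536870912 0 536870912 3) ndF0q0 ndF1q2a pcF3 Cut.none Ext.none)

def k0_mm_023_a : ∃ t, chk3 f_mm_023_a t 1 1 1 = true :=
  ⟨(l 5), by decide +kernel⟩

theorem c_mm_023_a : CertF 0 536870912 0 536870912 201326592 134217728 true false false .up 0 2 3
    ndF0q0 ndF1q2a pcF3 Cut.none Ext.none :=
  certF0 (fam := true) (s1 := false) (s2 := false) (a := 0) (b := 2) (c := 3) (cn := .up) (n1 := ndF0q0) (n2 := ndF1q2a) (pc := pcF3) (cut := Cut.none) (xt := Ext.none) (P1 := 0) (W1 := 536870912) (P2 := 0) (W2 := 536870912) (P3 := 201326592) (W3 := 134217728)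
    rfl k0_mm_023_a

noncomputable def f_mm_023_b : ℕ → ℕ → ℕ → ℕ → Bool := onCell 0 536870912 1239849684 370763052 201326592 134217728
    (rowF 0 true false false .up 0 2 3 (qsf 0 536870912 1239849684 370763052 3) ndF0q0 ndF1q2b pcF3 Cut.none Ext.none)

def k0_mm_023_b : ∃ t, chk3 f_mm_023_b t 1 1 1 = true :=
  ⟨(l 5), by decide +kernel⟩

theorem c_mm_023_b : CertF 0 536870912 1239849684 370763052 201326592 134217728 true false false .up 0 2 3
    ndF0q0 ndF1q2b pcF3 Cut.none Ext.none :=
  certF0 (fam := true) (s1 := false) (s2 := false) (a := 0) (b := 2) (c := 3) (cn := .up) (n1 := ndF0q0) (n2 := ndF1q2b) (pc := pcF3) (cut := Cut.none) (xt := Ext.none) (P1 := 0) (W1 := 536870912) (P2 := 1239849684) (W2 := 370763052) (P3 := 201326592) (W3 := 134217728)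
    rfl k0_mm_023_b

noncomputable def f_mm_033 : ℕ → ℕ → ℕ → ℕ → Bool := onCell 0 536870912 1610612736 536870912 201326592 134217728
    (rowF 0 true false false .pnn 0 3 3 (qsf 0 536870912 1610612736 536870912 3) ndF0q0 ndF1q3 pcF3 Cut.none Ext.none)

def k0_mm_033 : ∃ t, chk3 f_mm_033 t 1 1 1 = true :=
  ⟨(l 5), by decide +kernel⟩

theorem c_mm_033 : CertF 0 536870912 1610612736 536870912 201326592 134217728 true false false .pnn 0 3 3
    ndF0q0 ndF1q3 pcF3 Cut.none Ext.none :=
  certF0 (fam := true) (s1 := false) (s2 := false) (a := 0) (b := 3) (c := 3) (cn := .pnn) (n1 := ndF0q0) (n2 := ndF1q3) (pc := pcF3) (cut := Cut.none) (xt := Ext.none) (P1 := 0) (W1 := 536870912) (P2 := 1610612736) (W2 := 536870912) (P3 := 201326592) (W3 := 134217728)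
    rfl k0_mm_033

noncomputable def cut_mm_101 : Cut := Cut.of [[⟨0, 1, 0, 67108864⟩, ⟨1, 0, 0, 67108864⟩, ⟨2, 1, 0, 67108864⟩]]

noncomputable def f_mm_101 : ℕ → ℕ → ℕ → ℕ → Bool := onCell 536870912 536870912 0 536870912 201326592 134217728
    (rowF 0 true false false .npn 1 0 1 (qsf 536870912 536870912 0 536870912 1) ndF0q1 ndF1q0 pcF1 cut_mm_101 Ext.none)

def k0_mm_101 : ∃ t, chk3 f_mm_101 t 1 1 1 = true :=
  ⟨(a (l 4) (b (a (l 4) (a (l 4) (a (l 4) (b (b (b (l 6) (l 4)) (l 2)) (l 2))))) (l 4))), by decide +kernel⟩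

theorem c_mm_101 : CertF 536870912 536870912 0 536870912 201326592 134217728 true false false .npn 1 0 1
    ndF0q1 ndF1q0 pcF1 cut_mm_101 Ext.none :=
  certF0 (fam := true) (s1 := false) (s2 := false) (a := 1) (b := 0) (c := 1) (cn := .npn) (n1 := ndF0q1) (n2 := ndF1q0) (pc := pcF1) (cut := cut_mm_101) (xt := Ext.none) (P1 := 536870912) (W1 := 536870912) (P2 := 0) (W2 := 536870912) (P3 := 201326592) (W3 := 134217728)
    rfl k0_mm_101

noncomputable def cut_mm_102 : Cut := Cut.of [[⟨0, 1, 0, 67108864⟩, ⟨1, 0, 0, 67108864⟩, ⟨2, 1, 0, 67108864⟩]]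

noncomputable def f_mm_102 : ℕ → ℕ → ℕ → ℕ → Bool := onCell 536870912 536870912 0 536870912 201326592 134217728
    (rowF 0 true false false .npp 1 0 2 (qsf 536870912 536870912 0 536870912 2) ndF0q1 ndF1q0 pcF2 cut_mm_102 Ext.none)

def k0_mm_102 : ∃ t, chk3 f_mm_102 t 1 1 1 = true :=
  ⟨(a (l 4) (b (a (l 4) (b (a (l 4) (a (l 4) (b (b (l 6) (l 4)) (l 4)))) (l 4))) (l 4))), by decide +kernel⟩

theorem c_mm_102 : CertF 536870912 536870912 0 536870912 201326592 134217728 true false false .npp 1 0 2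
    ndF0q1 ndF1q0 pcF2 cut_mm_102 Ext.none :=
  certF0 (fam := true) (s1 := false) (s2 := false) (a := 1) (b := 0) (c := 2) (cn := .npp) (n1 := ndF0q1) (n2 := ndF1q0) (pc := pcF2) (cut := cut_mm_102) (xt := Ext.none) (P1 := 536870912) (W1 := 536870912) (P2 := 0) (W2 := 536870912) (P3 := 201326592) (W3 := 134217728)
    rfl k0_mm_102

noncomputable def f_mm_112 : ℕ → ℕ → ℕ → ℕ → Bool := onCell 536870912 536870912 536870912 536870912 201326592 134217728
    (rowF 0 true false false .dn 1 1 2 (qsf 536870912 536870912 536870912 536870912 2) ndF0q1 ndF1q1 pcF2 Cut.none Ext.none)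

def k0_mm_112 : ∃ t, chk3 f_mm_112 t 1 1 1 = true :=
  ⟨(l 4), by decide +kernel⟩

theorem c_mm_112 : CertF 536870912 536870912 536870912 536870912 201326592 134217728 true false false .dn 1 1 2
    ndF0q1 ndF1q1 pcF2 Cut.none Ext.none :=
  certF0 (fam := true) (s1 := false) (s2 := false) (a := 1) (b := 1) (c := 2) (cn := .dn) (n1 := ndF0q1) (n2 := ndF1q1) (pc := pcF2) (cut := Cut.none) (xt := Ext.none) (P1 := 536870912) (W1 := 536870912) (P2 := 536870912) (W2 := 536870912) (P3 := 201326592) (W3 := 134217728)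
    rfl k0_mm_112

noncomputable def f_mm_113 : ℕ → ℕ → ℕ → ℕ → Bool := onCell 536870912 536870912 536870912 536870912 201326592 134217728
    (rowF 0 true false false .nn 1 1 3 (qsf 536870912 536870912 536870912 536870912 3) ndF0q1 ndF1q1 pcF3 Cut.none Ext.none)

def k0_mm_113 : ∃ t, chk3 f_mm_113 t 1 1 1 = true :=
  ⟨(l 4), by decide +kernel⟩

theorem c_mm_113 : CertF 536870912 536870912 536870912 536870912 201326592 134217728 true false false .nn 1 1 3
    ndF0q1 ndF1q1 pcF3 Cut.none Ext.none :=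
  certF0 (fam := true) (s1 := false) (s2 := false) (a := 1) (b := 1) (c := 3) (cn := .nn) (n1 := ndF0q1) (n2 := ndF1q1) (pc := pcF3) (cut := Cut.none) (xt := Ext.none) (P1 := 536870912) (W1 := 536870912) (P2 := 536870912) (W2 := 536870912) (P3 := 201326592) (W3 := 134217728)
    rfl k0_mm_113

noncomputable def f_mm_123_a : ℕ → ℕ → ℕ → ℕ → Bool := onCell 536870912 536870912 0 536870912 201326592 134217728
    (rowF 0 true false false .npn 1 2 3 (qsf 536870912 536870912 0 536870912 3) ndF0q1 ndF1q2a pcF3 Cut.none Ext.none)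

def k0_mm_123_a : ∃ t, chk3 f_mm_123_a t 1 1 1 = true :=
  ⟨(l 4), by decide +kernel⟩

theorem c_mm_123_a : CertF 536870912 536870912 0 536870912 201326592 134217728 true false false .npn 1 2 3
    ndF0q1 ndF1q2a pcF3 Cut.none Ext.none :=
  certF0 (fam := true) (s1 := false) (s2 := false) (a := 1) (b := 2) (c := 3) (cn := .npn) (n1 := ndF0q1) (n2 := ndF1q2a) (pc := pcF3) (cut := Cut.none) (xt := Ext.none) (P1 := 536870912) (W1 := 536870912) (P2 := 0) (W2 := 536870912) (P3 := 201326592) (W3 := 134217728)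
    rfl k0_mm_123_a

noncomputable def f_mm_123_b : ℕ → ℕ → ℕ → ℕ → Bool := onCell 536870912 536870912 1239849684 370763052 201326592 134217728
    (rowF 0 true false false .npn 1 2 3 (qsf 536870912 536870912 1239849684 370763052 3) ndF0q1 ndF1q2b pcF3 Cut.none Ext.none)

def k0_mm_123_b : ∃ t, chk3 f_mm_123_b t 1 1 1 = true :=
  ⟨(l 4), by decide +kernel⟩

theorem c_mm_123_b : CertF 536870912 536870912 1239849684 370763052 201326592 134217728 true false false .npn 1 2 3
    ndF0q1 ndF1q2b pcF3 Cut.none Ext.none :=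
  certF0 (fam := true) (s1 := false) (s2 := false) (a := 1) (b := 2) (c := 3) (cn := .npn) (n1 := ndF0q1) (n2 := ndF1q2b) (pc := pcF3) (cut := Cut.none) (xt := Ext.none) (P1 := 536870912) (W1 := 536870912) (P2 := 1239849684) (W2 := 370763052) (P3 := 201326592) (W3 := 134217728)
    rfl k0_mm_123_b

noncomputable def f_mm_133 : ℕ → ℕ → ℕ → ℕ → Bool := onCell 536870912 536870912 1610612736 536870912 201326592 134217728
    (rowF 0 true false false .dn 1 3 3 (qsf 536870912 536870912 1610612736 536870912 3) ndF0q1 ndF1q3 pcF3 Cut.none Ext.none)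

def k0_mm_133 : ∃ t, chk3 f_mm_133 t 1 1 1 = true :=
  ⟨(l 4), by decide +kernel⟩

theorem c_mm_133 : CertF 536870912 536870912 1610612736 536870912 201326592 134217728 true false false .dn 1 3 3
    ndF0q1 ndF1q3 pcF3 Cut.none Ext.none :=
  certF0 (fam := true) (s1 := false) (s2 := false) (a := 1) (b := 3) (c := 3) (cn := .dn) (n1 := ndF0q1) (n2 := ndF1q3) (pc := pcF3) (cut := Cut.none) (xt := Ext.none) (P1 := 536870912) (W1 := 536870912) (P2 := 1610612736) (W2 := 536870912) (P3 := 201326592) (W3 := 134217728)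
    rfl k0_mm_133

noncomputable def cut_mm_202 : Cut := Cut.of [[⟨0, 1, 0, 67108864⟩, ⟨1, 0, 0, 67108864⟩, ⟨2, 1, 0, 67108864⟩]]

noncomputable def f_mm_202 : ℕ → ℕ → ℕ → ℕ → Bool := onCell 0 536870912 0 536870912 201326592 134217728
    (rowF 0 true false false .pp 2 0 2 (qsf 0 536870912 0 536870912 2) ndF0q2 ndF1q0 pcF2 cut_mm_202 Ext.none)

def k0_mm_202 : ∃ t, chk3 f_mm_202 t 2 1 1 = true :=
  ⟨(b (a (b (b (b (b (a (a (c (l 16600864) (l 16566632)) (c (b (l 16596008) (l 16564928)) (l 16599248))) (c (a (l 16575792) (l 16586600)) (a (l 16582592) (l 16590816)))) (a (a (l 16631104) (l 16596512)) (c (l 16563392) (l 16571336)))) (a (a (l 16582728) (l 16567088)) (c (l 16537976) (l 16548936)))) (a (l 16573520) (b (l 16515424) (l 16566936)))) (b (a (l 16854120) (l 16829384)) (l 16982136))) (b (c (b (a (b (b (a (l 16601704) (l 16638840)) (l 16596776)) (l 16599680)) (b (b (a (l 16653328) (b (l 16648056) (l 16643776))) (l 16630576)) (l 16639696))) (a (l 16647824) (l 16655544))) (b (a (b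 (b (a (l 16602152) (l 16614552)) (l 16597288)) (l 16581448)) (b (b (a (l 16626472) (l 16638528)) (l 16625488)) (l 16636272))) (a (l 16575880) (l 16662992)))) (b (a (l 16790632) (b (l 16680184) (l 16790304))) (a (l 16910968) (b (l 16841672) (l 4)))))) (b (b (a (a (l 17037240) (l 16985240)) (a (l 4) (l 4))) (a (a (l 17029280) (l 4)) (l 4))) (l 4))), by decide +kernel⟩

def k1_mm_202 : ∃ t, chk3 f_mm_202 t 3 4 1 = true :=
  ⟨(a (b (b (a (b (b (c (a (l 16660616) (c (l 16674240) (l 16671248))) (a (l 16652200) (l 16664272))) (c (a (l 16657200) (l 16670256)) (l 16677256))) (c (l 16701744) (l 16695040))) (b (b (c (a (c (b (l 16687536) (l 16686416)) (l 16683784)) (b (c (a (l 16697304) (l 16704024)) (l 16718392)) (l 16719400))) (a (a (l 16673608) (l 16680168)) (b (a (l 16687208) (l 16694232)) (l 16690432)))) (c (a (l 16683512) (l 16697368)) (a (l 16675728) (l 16689960)))) (a (c (l 16680888) (l 16674088)) (c (l 16695592) (l 16689192))))) (a (b (c (l 16655136) (l 16649408)) (l 16691120)) (b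 (a (l 16675616) (l 16712496)) (a (l 16674120) (l 16691096))))) (a (b (c (l 16647968) (l 16642896)) (l 16689528)) (b (a (l 16673336) (l 16734056)) (a (l 16694408) (l 4))))) (b (a (b (b (a (b (c (a (b (c (l 16710864) (l 16707720)) (l 16708840)) (b (c (b (l 16718072) (l 16717808)) (l 16714976)) (l 16716112))) (a (b (c (l 16703808) (l 16699152)) (l 16701456)) (b (c (l 16711376) (l 16707128)) (l 16709344)))) (c (a (l 16708088) (l 16715536)) (a (l 16701312) (l 16709384)))) (b (a (b (l 6) (c (l 16723776) (l 16717768))) (l 6)) (c (a (l 16723368) (l 16731784)) (a (l 16717976) (l 16727272))))) (b (a (c (l 16711120) (l 16705360)) (c (l 16748272) (l 16744056))) (a (l 16729168) (a (l 16720856) (l 16730056))))) (a (b (l 16739472) (l 16731872)) (c (b (l 16784144) (l 16729120)) (b (l 16749192) (l 16723648))))) (b (a (b (l 6) (a (b (l 6) (l 16741600)) (l 6))) (l 6)) (a (b (a (b (l 16749952) (l 4)) (l 4)) (l 4)) (l 4)))) (a (a (b (a (l 16747520) (l 16771200)) (l 4)) (l 4)) (l 4)))), by decide +kernel⟩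

def k2_mm_202 : ∃ t, chk3 f_mm_202 t 3 5 1 = true :=
  ⟨(a (b (a (b (l 16716008) (l 4)) (l 4)) (l 4)) (l 4)), by decide +kernel⟩

def k3_mm_202 : ∃ t, chk3 f_mm_202 t 3 3 1 = true :=
  ⟨(l 4), by decide +kernel⟩

theorem s4_mm_202 : ∃ t, chk3 f_mm_202 t 3 2 1 = true := ex3_b k1_mm_202 k2_mm_202

theorem s5_mm_202 : ∃ t, chk3 f_mm_202 t 3 1 1 = true := ex3_b s4_mm_202 k3_mm_202

theorem s6_mm_202 : ∃ t, chk3 f_mm_202 t 1 1 1 = true := ex3_a k0_mm_202 s5_mm_202

theorem c_mm_202 : CertF 0 536870912 0 536870912 201326592 134217728 true false false .pp 2 0 2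
    ndF0q2 ndF1q0 pcF2 cut_mm_202 Ext.none :=
  certF0 (fam := true) (s1 := false) (s2 := false) (a := 2) (b := 0) (c := 2) (cn := .pp) (n1 := ndF0q2) (n2 := ndF1q0) (pc := pcF2) (cut := cut_mm_202) (xt := Ext.none) (P1 := 0) (W1 := 536870912) (P2 := 0) (W2 := 536870912) (P3 := 201326592) (W3 := 134217728)
    rfl s6_mm_202

noncomputable def f_mm_203 : ℕ → ℕ → ℕ → ℕ → Bool := onCell 0 536870912 0 536870912 201326592 134217728
    (rowF 0 true false false .up 2 0 3 (qsf 0 536870912 0 536870912 3) ndF0q2 ndF1q0 pcF3 Cut.none Ext.none)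

def k0_mm_203 : ∃ t, chk3 f_mm_203 t 1 1 1 = true :=
  ⟨(b (l 1) (a (b (b (l 1) (a (a (l 17177032) (l 4)) (l 4))) (l 4)) (l 4))), by decide +kernel⟩

theorem c_mm_203 : CertF 0 536870912 0 536870912 201326592 134217728 true false false .up 2 0 3
    ndF0q2 ndF1q0 pcF3 Cut.none Ext.none :=
  certF0 (fam := true) (s1 := false) (s2 := false) (a := 2) (b := 0) (c := 3) (cn := .up) (n1 := ndF0q2) (n2 := ndF1q0) (pc := pcF3) (cut := Cut.none) (xt := Ext.none) (P1 := 0) (W1 := 536870912) (P2 := 0) (W2 := 536870912) (P3 := 201326592) (W3 := 134217728)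
    rfl k0_mm_203

noncomputable def f_mm_213 : ℕ → ℕ → ℕ → ℕ → Bool := onCell 0 536870912 536870912 536870912 201326592 134217728
    (rowF 0 true false false .pnn 2 1 3 (qsf 0 536870912 536870912 536870912 3) ndF0q2 ndF1q1 pcF3 Cut.none Ext.none)

def k0_mm_213 : ∃ t, chk3 f_mm_213 t 1 1 1 = true :=
  ⟨(l 4), by decide +kernel⟩

theorem c_mm_213 : CertF 0 536870912 536870912 536870912 201326592 134217728 true false false .pnn 2 1 3
    ndF0q2 ndF1q1 pcF3 Cut.none Ext.none :=
  certF0 (fam := true) (s1 := false) (s2 := false) (a := 2) (b := 1) (c := 3) (cn := .pnn) (n1 := ndF0q2) (n2 := ndF1q1) (pc := pcF3) (cut := Cut.none) (xt := Ext.none) (P1 := 0) (W1 := 536870912) (P2 := 536870912) (W2 := 536870912) (P3 := 201326592) (W3 := 134217728)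
    rfl k0_mm_213

end Pool.Agent.Strip051.G.I3_16_5_16.Tab.C.FA01

namespace Pool.Agent.Strip051.G.I3_16_5_16.Tab.C.FA02

open Pool.Agent.Strip051.PB Pool.Agent.Strip051.PB.T
open Pool.Agent.Strip051.G.I3_16_5_16.Tab

noncomputable def f_pp_001 : ℕ → ℕ → ℕ → ℕ → Bool := onCell 0 536870912 0 536870912 201326592 134217728
    (rowF 0 true true true .up 0 0 1 (qsf 0 536870912 0 536870912 1) ndF0q0 ndF2q0 pcF1 Cut.none Ext.none)

def k0_pp_001 : ∃ t, chk3 f_pp_001 t 1 1 1 = true :=
  ⟨(l 4), by decide +kernel⟩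

theorem c_pp_001 : CertF 0 536870912 0 536870912 201326592 134217728 true true true .up 0 0 1
    ndF0q0 ndF2q0 pcF1 Cut.none Ext.none :=
  certF0 (fam := true) (s1 := true) (s2 := true) (a := 0) (b := 0) (c := 1) (cn := .up) (n1 := ndF0q0) (n2 := ndF2q0) (pc := pcF1) (cut := Cut.none) (xt := Ext.none) (P1 := 0) (W1 := 536870912) (P2 := 0) (W2 := 536870912) (P3 := 201326592) (W3 := 134217728)
    rfl k0_pp_001

noncomputable def f_pp_011 : ℕ → ℕ → ℕ → ℕ → Bool := onCell 0 536870912 536870912 536870912 201326592 134217728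
    (rowF 0 true true true .pnn 0 1 1 (qsf 0 536870912 536870912 536870912 1) ndF0q0 ndF2q1 pcF1 Cut.none Ext.none)

def k0_pp_011 : ∃ t, chk3 f_pp_011 t 1 1 1 = true :=
  ⟨(l 4), by decide +kernel⟩

theorem c_pp_011 : CertF 0 536870912 536870912 536870912 201326592 134217728 true true true .pnn 0 1 1
    ndF0q0 ndF2q1 pcF1 Cut.none Ext.none :=
  certF0 (fam := true) (s1 := true) (s2 := true) (a := 0) (b := 1) (c := 1) (cn := .pnn) (n1 := ndF0q0) (n2 := ndF2q1) (pc := pcF1) (cut := Cut.none) (xt := Ext.none) (P1 := 0) (W1 := 536870912) (P2 := 536870912) (W2 := 536870912) (P3 := 201326592) (W3 := 134217728)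
    rfl k0_pp_011

noncomputable def f_pp_012 : ℕ → ℕ → ℕ → ℕ → Bool := onCell 0 536870912 536870912 536870912 201326592 134217728
    (rowF 0 true true true .pnp 0 1 2 (qsf 0 536870912 536870912 536870912 2) ndF0q0 ndF2q1 pcF2 Cut.none Ext.none)

def k0_pp_012 : ∃ t, chk3 f_pp_012 t 1 1 1 = true :=
  ⟨(l 4), by decide +kernel⟩

theorem c_pp_012 : CertF 0 536870912 536870912 536870912 201326592 134217728 true true true .pnp 0 1 2
    ndF0q0 ndF2q1 pcF2 Cut.none Ext.none :=
  certF0 (fam := true) (s1 := true) (s2 := true) (a := 0) (b := 1) (c := 2) (cn := .pnp) (n1 := ndF0q0) (n2 := ndF2q1) (pc := pcF2) (cut := Cut.none) (xt := Ext.none) (P1 := 0) (W1 := 536870912) (P2 := 536870912) (W2 := 536870912) (P3 := 201326592) (W3 := 134217728)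
    rfl k0_pp_012

noncomputable def cut_pp_022_a : Cut := Cut.of [[⟨0, 0, 0, 67108864⟩, ⟨1, 1, 0, 67108864⟩, ⟨2, 1, 0, 67108864⟩]]

noncomputable def f_pp_022_a : ℕ → ℕ → ℕ → ℕ → Bool := onCell 0 536870912 0 536870912 201326592 134217728
    (rowF 0 true true true .pp 0 2 2 (qsf 0 536870912 0 536870912 2) ndF0q0 ndF2q2a pcF2 cut_pp_022_a Ext.none)

def k0_pp_022_a : ∃ t, chk3 f_pp_022_a t 1 1 1 = true :=
  ⟨(a (a (b (l 4) (b (l 4) (a (b (l 4) (a (b (l 4) (l 6)) (l 4))) (l 4)))) (l 4)) (l 4)), by decide +kernel⟩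

theorem c_pp_022_a : CertF 0 536870912 0 536870912 201326592 134217728 true true true .pp 0 2 2
    ndF0q0 ndF2q2a pcF2 cut_pp_022_a Ext.none :=
  certF0 (fam := true) (s1 := true) (s2 := true) (a := 0) (b := 2) (c := 2) (cn := .pp) (n1 := ndF0q0) (n2 := ndF2q2a) (pc := pcF2) (cut := cut_pp_022_a) (xt := Ext.none) (P1 := 0) (W1 := 536870912) (P2 := 0) (W2 := 536870912) (P3 := 201326592) (W3 := 134217728)
    rfl k0_pp_022_a

noncomputable def cut_pp_022_b : Cut := Cut.of [[⟨0, 0, 0, 67108864⟩, ⟨1, 1, 0, 67108864⟩, ⟨2, 1, 0, 67108864⟩]]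

noncomputable def f_pp_022_b : ℕ → ℕ → ℕ → ℕ → Bool := onCell 0 536870912 1239849684 370763052 201326592 134217728
    (rowF 0 true true true .pp 0 2 2 (qsf 0 536870912 1239849684 370763052 2) ndF0q0 ndF2q2b pcF2 cut_pp_022_b Ext.none)

def k0_pp_022_b : ∃ t, chk3 f_pp_022_b t 1 1 1 = true :=
  ⟨(a (b (l 4) (l 4)) (l 4)), by decide +kernel⟩

theorem c_pp_022_b : CertF 0 536870912 1239849684 370763052 201326592 134217728 true true true .pp 0 2 2
    ndF0q0 ndF2q2b pcF2 cut_pp_022_b Ext.none :=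
  certF0 (fam := true) (s1 := true) (s2 := true) (a := 0) (b := 2) (c := 2) (cn := .pp) (n1 := ndF0q0) (n2 := ndF2q2b) (pc := pcF2) (cut := cut_pp_022_b) (xt := Ext.none) (P1 := 0) (W1 := 536870912) (P2 := 1239849684) (W2 := 370763052) (P3 := 201326592) (W3 := 134217728)
    rfl k0_pp_022_b

noncomputable def f_pp_023_a : ℕ → ℕ → ℕ → ℕ → Bool := onCell 1610612736 536870912 0 536870912 201326592 134217728
    (rowF 2 true true true .up 0 2 3 (qsf 0 536870912 0 536870912 3) ndF0q0 ndF2q2a pcF3 Cut.none Ext.none)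

def k0_pp_023_a : ∃ t, chk3 f_pp_023_a t 1 1 1 = true :=
  ⟨(l 4), by decide +kernel⟩

theorem c_pp_023_a : CertF 0 536870912 0 536870912 201326592 134217728 true true true .up 0 2 3
    ndF0q0 ndF2q2a pcF3 Cut.none Ext.none :=
  certF2 (fam := true) (s1 := true) (s2 := true) (a := 0) (b := 2) (c := 3) (cn := .up) (n1 := ndF0q0) (n2 := ndF2q2a) (pc := pcF3) (cut := Cut.none) (xt := Ext.none) (P1 := 0) (W1 := 536870912) (P2 := 0) (W2 := 536870912) (P3 := 201326592) (W3 := 134217728)
    rfl (fun _ => rfl) k0_pp_023_a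

noncomputable def f_pp_023_b : ℕ → ℕ → ℕ → ℕ → Bool := onCell 1610612736 536870912 1239849684 370763052 201326592 134217728
    (rowF 2 true true true .up 0 2 3 (qsf 0 536870912 1239849684 370763052 3) ndF0q0 ndF2q2b pcF3 Cut.none Ext.none)

def k0_pp_023_b : ∃ t, chk3 f_pp_023_b t 1 1 1 = true :=
  ⟨(l 4), by decide +kernel⟩

theorem c_pp_023_b : CertF 0 536870912 1239849684 370763052 201326592 134217728 true true true .up 0 2 3
    ndF0q0 ndF2q2b pcF3 Cut.none Ext.none :=
  certF2 (fam := true) (s1 := true) (s2 := true) (a := 0) (b := 2) (c := 3) (cn := .up) (n1 := ndF0q0) (n2 := ndF2q2b) (pc := pcF3) (cut := Cut.none) (xt := Ext.none) (P1 := 0) (W1 := 536870912) (P2 := 1239849684) (W2 := 370763052) (P3 := 201326592) (W3 := 134217728)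
    rfl (fun _ => rfl) k0_pp_023_b

noncomputable def f_pp_033 : ℕ → ℕ → ℕ → ℕ → Bool := onCell 0 536870912 1610612736 536870912 201326592 134217728
    (rowF 0 true true true .pnn 0 3 3 (qsf 0 536870912 1610612736 536870912 3) ndF0q0 ndF2q3 pcF3 Cut.none Ext.none)

def k0_pp_033 : ∃ t, chk3 f_pp_033 t 1 1 1 = true :=
  ⟨(l 4), by decide +kernel⟩

theorem c_pp_033 : CertF 0 536870912 1610612736 536870912 201326592 134217728 true true true .pnn 0 3 3
    ndF0q0 ndF2q3 pcF3 Cut.none Ext.none :=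
  certF0 (fam := true) (s1 := true) (s2 := true) (a := 0) (b := 3) (c := 3) (cn := .pnn) (n1 := ndF0q0) (n2 := ndF2q3) (pc := pcF3) (cut := Cut.none) (xt := Ext.none) (P1 := 0) (W1 := 536870912) (P2 := 1610612736) (W2 := 536870912) (P3 := 201326592) (W3 := 134217728)
    rfl k0_pp_033

noncomputable def f_pp_101 : ℕ → ℕ → ℕ → ℕ → Bool := onCell 536870912 536870912 0 536870912 201326592 134217728
    (rowF 0 true true true .npn 1 0 1 (qsf 536870912 536870912 0 536870912 1) ndF0q1 ndF2q0 pcF1 Cut.none Ext.none)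

def k0_pp_101 : ∃ t, chk3 f_pp_101 t 1 1 1 = true :=
  ⟨(l 5), by decide +kernel⟩

theorem c_pp_101 : CertF 536870912 536870912 0 536870912 201326592 134217728 true true true .npn 1 0 1
    ndF0q1 ndF2q0 pcF1 Cut.none Ext.none :=
  certF0 (fam := true) (s1 := true) (s2 := true) (a := 1) (b := 0) (c := 1) (cn := .npn) (n1 := ndF0q1) (n2 := ndF2q0) (pc := pcF1) (cut := Cut.none) (xt := Ext.none) (P1 := 536870912) (W1 := 536870912) (P2 := 0) (W2 := 536870912) (P3 := 201326592) (W3 := 134217728)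
    rfl k0_pp_101

noncomputable def f_pp_102 : ℕ → ℕ → ℕ → ℕ → Bool := onCell 536870912 536870912 0 536870912 201326592 134217728
    (rowF 0 true true true .npp 1 0 2 (qsf 536870912 536870912 0 536870912 2) ndF0q1 ndF2q0 pcF2 Cut.none Ext.none)

def k0_pp_102 : ∃ t, chk3 f_pp_102 t 1 1 1 = true :=
  ⟨(l 5), by decide +kernel⟩

theorem c_pp_102 : CertF 536870912 536870912 0 536870912 201326592 134217728 true true true .npp 1 0 2
    ndF0q1 ndF2q0 pcF2 Cut.none Ext.none :=
  certF0 (fam := true) (s1 := true) (s2 := true) (a := 1) (b := 0) (c := 2) (cn := .npp) (n1 := ndF0q1) (n2 := ndF2q0) (pc := pcF2) (cut := Cut.none) (xt := Ext.none) (P1 := 536870912) (W1 := 536870912) (P2 := 0) (W2 := 536870912) (P3 := 201326592) (W3 := 134217728)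
    rfl k0_pp_102

noncomputable def f_pp_112 : ℕ → ℕ → ℕ → ℕ → Bool := onCell 536870912 536870912 536870912 536870912 201326592 134217728
    (rowF 0 true true true .dn 1 1 2 (qsf 536870912 536870912 536870912 536870912 2) ndF0q1 ndF2q1 pcF2 Cut.none Ext.none)

def k0_pp_112 : ∃ t, chk3 f_pp_112 t 1 1 1 = true :=
  ⟨(l 4), by decide +kernel⟩

theorem c_pp_112 : CertF 536870912 536870912 536870912 536870912 201326592 134217728 true true true .dn 1 1 2
    ndF0q1 ndF2q1 pcF2 Cut.none Ext.none :=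
  certF0 (fam := true) (s1 := true) (s2 := true) (a := 1) (b := 1) (c := 2) (cn := .dn) (n1 := ndF0q1) (n2 := ndF2q1) (pc := pcF2) (cut := Cut.none) (xt := Ext.none) (P1 := 536870912) (W1 := 536870912) (P2 := 536870912) (W2 := 536870912) (P3 := 201326592) (W3 := 134217728)
    rfl k0_pp_112

noncomputable def f_pp_113 : ℕ → ℕ → ℕ → ℕ → Bool := onCell 536870912 536870912 536870912 536870912 201326592 134217728
    (rowF 0 true true true .nn 1 1 3 (qsf 536870912 536870912 536870912 536870912 3) ndF0q1 ndF2q1 pcF3 Cut.none Ext.none)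

def k0_pp_113 : ∃ t, chk3 f_pp_113 t 1 1 1 = true :=
  ⟨(l 4), by decide +kernel⟩

theorem c_pp_113 : CertF 536870912 536870912 536870912 536870912 201326592 134217728 true true true .nn 1 1 3
    ndF0q1 ndF2q1 pcF3 Cut.none Ext.none :=
  certF0 (fam := true) (s1 := true) (s2 := true) (a := 1) (b := 1) (c := 3) (cn := .nn) (n1 := ndF0q1) (n2 := ndF2q1) (pc := pcF3) (cut := Cut.none) (xt := Ext.none) (P1 := 536870912) (W1 := 536870912) (P2 := 536870912) (W2 := 536870912) (P3 := 201326592) (W3 := 134217728)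
    rfl k0_pp_113

noncomputable def f_pp_123_a : ℕ → ℕ → ℕ → ℕ → Bool := onCell 536870912 536870912 0 536870912 201326592 134217728
    (rowF 0 true true true .npn 1 2 3 (qsf 536870912 536870912 0 536870912 3) ndF0q1 ndF2q2a pcF3 Cut.none Ext.none)

def k0_pp_123_a : ∃ t, chk3 f_pp_123_a t 1 1 1 = true :=
  ⟨(l 4), by decide +kernel⟩

theorem c_pp_123_a : CertF 536870912 536870912 0 536870912 201326592 134217728 true true true .npn 1 2 3
    ndF0q1 ndF2q2a pcF3 Cut.none Ext.none :=
  certF0 (fam := true) (s1 := true) (s2 := true) (a := 1) (b := 2) (c := 3) (cn := .npn) (n1 := ndF0q1) (n2 := ndF2q2a) (pc := pcF3) (cut := Cut.none) (xt := Ext.none) (P1 := 536870912) (W1 := 536870912) (P2 := 0) (W2 := 536870912) (P3 := 201326592) (W3 := 134217728)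
    rfl k0_pp_123_a

noncomputable def f_pp_123_b : ℕ → ℕ → ℕ → ℕ → Bool := onCell 536870912 536870912 1239849684 370763052 201326592 134217728
    (rowF 0 true true true .npn 1 2 3 (qsf 536870912 536870912 1239849684 370763052 3) ndF0q1 ndF2q2b pcF3 Cut.none Ext.none)

def k0_pp_123_b : ∃ t, chk3 f_pp_123_b t 1 1 1 = true :=
  ⟨(l 4), by decide +kernel⟩

theorem c_pp_123_b : CertF 536870912 536870912 1239849684 370763052 201326592 134217728 true true true .npn 1 2 3
    ndF0q1 ndF2q2b pcF3 Cut.none Ext.none :=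
  certF0 (fam := true) (s1 := true) (s2 := true) (a := 1) (b := 2) (c := 3) (cn := .npn) (n1 := ndF0q1) (n2 := ndF2q2b) (pc := pcF3) (cut := Cut.none) (xt := Ext.none) (P1 := 536870912) (W1 := 536870912) (P2 := 1239849684) (W2 := 370763052) (P3 := 201326592) (W3 := 134217728)
    rfl k0_pp_123_b

noncomputable def f_pp_133 : ℕ → ℕ → ℕ → ℕ → Bool := onCell 536870912 536870912 1610612736 536870912 201326592 134217728
    (rowF 0 true true true .dn 1 3 3 (qsf 536870912 536870912 1610612736 536870912 3) ndF0q1 ndF2q3 pcF3 Cut.none Ext.none)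

def k0_pp_133 : ∃ t, chk3 f_pp_133 t 1 1 1 = true :=
  ⟨(l 4), by decide +kernel⟩

theorem c_pp_133 : CertF 536870912 536870912 1610612736 536870912 201326592 134217728 true true true .dn 1 3 3
    ndF0q1 ndF2q3 pcF3 Cut.none Ext.none :=
  certF0 (fam := true) (s1 := true) (s2 := true) (a := 1) (b := 3) (c := 3) (cn := .dn) (n1 := ndF0q1) (n2 := ndF2q3) (pc := pcF3) (cut := Cut.none) (xt := Ext.none) (P1 := 536870912) (W1 := 536870912) (P2 := 1610612736) (W2 := 536870912) (P3 := 201326592) (W3 := 134217728)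
    rfl k0_pp_133

noncomputable def f_pp_202 : ℕ → ℕ → ℕ → ℕ → Bool := onCell 0 536870912 0 536870912 201326592 134217728
    (rowF 0 true true true .pp 2 0 2 (qsf 0 536870912 0 536870912 2) ndF0q2 ndF2q0 pcF2 Cut.none Ext.none)

def k0_pp_202 : ∃ t, chk3 f_pp_202 t 1 1 1 = true :=
  ⟨(l 5), by decide +kernel⟩

theorem c_pp_202 : CertF 0 536870912 0 536870912 201326592 134217728 true true true .pp 2 0 2
    ndF0q2 ndF2q0 pcF2 Cut.none Ext.none :=
  certF0 (fam := true) (s1 := true) (s2 := true) (a := 2) (b := 0) (c := 2) (cn := .pp) (n1 := ndF0q2) (n2 := ndF2q0) (pc := pcF2) (cut := Cut.none) (xt := Ext.none) (P1 := 0) (W1 := 536870912) (P2 := 0) (W2 := 536870912) (P3 := 201326592) (W3 := 134217728)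
    rfl k0_pp_202

noncomputable def f_pp_203 : ℕ → ℕ → ℕ → ℕ → Bool := onCell 0 536870912 0 536870912 201326592 134217728
    (rowF 0 true true true .up 2 0 3 (qsf 0 536870912 0 536870912 3) ndF0q2 ndF2q0 pcF3 Cut.none Ext.none)

def k0_pp_203 : ∃ t, chk3 f_pp_203 t 1 1 1 = true :=
  ⟨(l 5), by decide +kernel⟩

theorem c_pp_203 : CertF 0 536870912 0 536870912 201326592 134217728 true true true .up 2 0 3
    ndF0q2 ndF2q0 pcF3 Cut.none Ext.none :=
  certF0 (fam := true) (s1 := true) (s2 := true) (a := 2) (b := 0) (c := 3) (cn := .up) (n1 := ndF0q2) (n2 := ndF2q0) (pc := pcF3) (cut := Cut.none) (xt := Ext.none) (P1 := 0) (W1 := 536870912) (P2 := 0) (W2 := 536870912) (P3 := 201326592) (W3 := 134217728)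
    rfl k0_pp_203

noncomputable def f_pp_213 : ℕ → ℕ → ℕ → ℕ → Bool := onCell 0 536870912 536870912 536870912 201326592 134217728
    (rowF 0 true true true .pnn 2 1 3 (qsf 0 536870912 536870912 536870912 3) ndF0q2 ndF2q1 pcF3 Cut.none Ext.none)

def k0_pp_213 : ∃ t, chk3 f_pp_213 t 1 1 1 = true :=
  ⟨(l 4), by decide +kernel⟩

theorem c_pp_213 : CertF 0 536870912 536870912 536870912 201326592 134217728 true true true .pnn 2 1 3
    ndF0q2 ndF2q1 pcF3 Cut.none Ext.none :=
  certF0 (fam := true) (s1 := true) (s2 := true) (a := 2) (b := 1) (c := 3) (cn := .pnn) (n1 := ndF0q2) (n2 := ndF2q1) (pc := pcF3) (cut := Cut.none) (xt := Ext.none) (P1 := 0) (W1 := 536870912) (P2 := 536870912) (W2 := 536870912) (P3 := 201326592) (W3 := 134217728)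
    rfl k0_pp_213

noncomputable def f_pm_001 : ℕ → ℕ → ℕ → ℕ → Bool := onCell 0 536870912 536870912 536870912 201326592 134217728
    (rowF 1 true true false .up 0 0 1 (qsf 0 536870912 0 536870912 1) ndF0q0 ndF2q0 pcF1 Cut.none Ext.none)

def k0_pm_001 : ∃ t, chk3 f_pm_001 t 1 1 1 = true :=
  ⟨(b (l 3) (l 3)), by decide +kernel⟩

theorem c_pm_001 : CertF 0 536870912 0 536870912 201326592 134217728 true true false .up 0 0 1
    ndF0q0 ndF2q0 pcF1 Cut.none Ext.none :=
  certF1 (fam := true) (s1 := true) (s2 := false) (a := 0) (b := 0) (c := 1) (cn := .up) (n1 := ndF0q0) (n2 := ndF2q0) (pc := pcF1) (cut := Cut.none) (xt := Ext.none) (P1 := 0) (W1 := 536870912) (P2 := 0) (W2 := 536870912) (P3 := 201326592) (W3 := 134217728)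
    rfl (fun _ => rfl) k0_pm_001

noncomputable def f_pm_011 : ℕ → ℕ → ℕ → ℕ → Bool := onCell 0 536870912 536870912 536870912 201326592 134217728
    (rowF 1 true true false .pnn 0 1 1 (qsf 0 536870912 536870912 536870912 1) ndF0q0 ndF2q1 pcF1 Cut.none Ext.none)

def k0_pm_011 : ∃ t, chk3 f_pm_011 t 1 1 1 = true :=
  ⟨(b (l 3) (l 3)), by decide +kernel⟩

theorem c_pm_011 : CertF 0 536870912 536870912 536870912 201326592 134217728 true true false .pnn 0 1 1
    ndF0q0 ndF2q1 pcF1 Cut.none Ext.none :=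
  certF1 (fam := true) (s1 := true) (s2 := false) (a := 0) (b := 1) (c := 1) (cn := .pnn) (n1 := ndF0q0) (n2 := ndF2q1) (pc := pcF1) (cut := Cut.none) (xt := Ext.none) (P1 := 0) (W1 := 536870912) (P2 := 536870912) (W2 := 536870912) (P3 := 201326592) (W3 := 134217728)
    rfl (fun _ => rfl) k0_pm_011

noncomputable def f_pm_012 : ℕ → ℕ → ℕ → ℕ → Bool := onCell 1073741824 536870912 536870912 536870912 201326592 134217728
    (rowF 2 true true false .pnp 0 1 2 (qsf 0 536870912 536870912 536870912 2) ndF0q0 ndF2q1 pcF2 Cut.none Ext.none)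

def k0_pm_012 : ∃ t, chk3 f_pm_012 t 4 4 1 = true :=
  ⟨(a (b (a (a (l 3) (a (l 3) (c (b (l 17421064) (l 17389328)) (b (c (l 17226592) (l 17105032)) (c (l 17194248) (l 17073088)))))) (c (a (c (l 17500688) (b (l 17377832) (l 17346440))) (b (l 2) (l 17450336))) (a (b (a (l 17177520) (l 2)) (a (l 17145640) (l 17157024))) (b (l 2) (l 17174888))))) (a (a (l 3) (a (l 3) (a (l 3) (b (c (l 17364584) (l 17104200)) (c (l 17330264) (l 17066712)))))) (c (a (b (a (l 17377656) (l 17395008)) (c (l 17427040) (l 17282352))) (b (l 17421760) (l 17390456))) (a (b (a (l 17111616) (l 17122320)) (a (l 17073872) (l 17083952))) (b (l 17140288) (l 17101448)))))) (a (b (a (a (c (l 17486792) (l 17209288)) (l 2)) (l 2)) (c (a (l 17441568) (l 17475016)) (a (b (l 17165608) (l 17126872)) (b (l 17191720) (l 17154400))))) (b (l 2) (c (a (l 17509256) (l 17543336)) (a (l 17203192) (l 17234232)))))), by decide +kernel⟩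

def k1_pm_012 : ∃ t, chk3 f_pm_012 t 4 5 1 = true :=
  ⟨(a (a (b (l 3) (l 3)) (b (c (a (b (c (l 17391336) (l 17242144)) (c (l 17349488) (l 17192728))) (b (l 17355088) (l 17312576))) (a (b (a (l 57076412423) (l 17037800)) (a (c (l 17038816) (l 16900056)) (l 16977768))) (b (a (l 17048576) (l 17060840)) (a (l 16988776) (l 17001624))))) (c (a (b (c (l 17296208) (l 47413006343)) (c (l 17224144) (a (l 17031808) (l 17052096)))) (b (c (l 17347720) (l 17168824)) (c (l 17281520) (l 17084208)))) (a (b (a (b (l 16910272) (l 16842008)) (l 16791848)) (a (l 45264882231) (l 16741912))) (b (a (l 16907784) (l 16921192)) (a (l 16795384) (l 16810000))))))) (a (b (c (a (b (l 17394312) (l 17355424)) (l 17416008)) (b (a (l 17081072) (l 17110048)) (a (l 17023048) (l 17054368)))) (c (a (b (l 17305144) (l 17215112)) (b (l 17352216) (l 17290088))) (b (a (l 16945240) (l 16980688)) (a (a (l 16828040) (l 16847360)) (l 16879008))))) (b (c (a (l 17455280) (l 17495496)) (a (b (l 17140896) (l 17088408)) (l 17152104)))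 (c (a (l 17373976) (b (l 17444864) (l 17397824))) (a (b (l 17019576) (l 16925432)) (b (l 17060984) (l 16974984))))))), by decide +kernel⟩

def k2_pm_012 : ∃ t, chk3 f_pm_012 t 5 2 1 = true :=
  ⟨(a (b (a (a (b (l 2) (c (l 17577056) (l 17266464))) (l 2)) (l 2)) (a (a (b (c (l 17535920) (l 17189768)) (c (l 17473512) (b (l 17105784) (l 17026936)))) (c (b (l 17575632) (a (l 17510792) (l 17535528))) (b (a (l 17218744) (l 17237992)) (a (l 17106544) (l 17131600))))) (b (c (l 17628104) (l 17284032)) (c (l 17593144) (b (l 17220216) (l 17160736)))))) (b (l 2) (b (a (c (l 17689592) (l 17353736)) (l 2)) (c (a (l 17675712) (l 17742752)) (a (l 17285568) (l 17368144)))))), by decide +kernel⟩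

def k3_pm_012 : ∃ t, chk3 f_pm_012 t 8 6 1 = true :=
  ⟨(a (l 3) (b (a (c (b (a (c (l 17110448) (l 16758248)) (c (l 17141024) (l 16927352))) (a (l 3) (c (l 41506877127) (l 16743984)))) (b (a (c (l 16753168) (l 178408870103)) (c (l 16721912) (l 16701208))) (a (l 3) (c (l 39359277383) (b (l 16707472) (l 16709824)))))) (c (b (c (l 17187464) (a (l 16951136) (l 16977592))) (a (c (l 17029120) (l 16771936)) (l 16682720))) (b (a (l 16672192) (l 16652240)) (a (c (l 16683984) (l 16681096)) (l 16674616))))) (a (a (l 3) (c (b (c (l 32916842439) (l 32916837831)) (c (b (l 16726120) (l 159081496519)) (b (l 16743944) (l 151028416759)))) (b (c (b (l 16716800) (l 40432997159)) (b (l 49559791047) (l 49559789431))) (a (l 3) (b (c (l 16711736) (l 52780986423)) (c (l 16711120) (l 122037330039))))))) (b (c (c (a (l 16727952) (l 16837760)) (a (l 16692152) (l 16661728))) (a (c (l 16710760) (b (l 16684288) (l 16685192))) (c (l 16660960) (l 16657680)))) (c (c (a (b (l 16696904) (l 16698888)) (l 16688168))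 (a (b (l 16695144) (l 16696032)) (l 16687376))) (a (b (c (l 16691280) (l 16685312)) (c (l 16691328) (a (l 16691320) (l 16678192)))) (b (l 16661136) (c (l 16663560) (l 16658408))))))))), by decide +kernel⟩

def k4_pm_012 : ∃ t, chk3 f_pm_012 t 16 7 1 = true :=
  ⟨(l 3), by decide +kernel⟩

def k5_pm_012 : ∃ t, chk3 f_pm_012 t 17 14 1 = true :=
  ⟨(a (l 3) (b (c (a (c (b (l 16699632) (l 21642490343)) (b (l 16695896) (a (l 16701760) (l 16687976)))) (c (b (l 16669480) (l 16669656)) (b (l 16667168) (l 16666584)))) (a (b (c (a (l 16697328) (l 16683776)) (a (l 52780956711) (l 16677144))) (c (a (l 44191034535) (l 16682504)) (a (l 50633469127) (l 16675640)))) (b (c (l 16663184) (l 16657552)) (c (l 16662088) (l 16656168))))) (c (a (a (b (c (l 16705048) (l 75329555991)) (l 3)) (b (c (l 16691280) (l 16686648)) (c (l 16689888) (l 16684872)))) (b (c (l 16669080) (l 16665408)) (c (b (l 16668248) (l 16667576)) (a (l 16670872) (l 16656784))))) (a (a (b (c (l 64592123831) (l 49022851527)) (l 3))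 (b (c (l 16680856) (l 16673920)) (c (l 42580389111) (b (l 16672536) (l 16671600))))) (b (c (l 16660552) (l 16675464)) (a (b (l 16662904) (l 16661976)) (l 16649232))))))), by decide +kernel⟩

def k6_pm_012 : ∃ t, chk3 f_pm_012 t 17 15 1 = true :=
  ⟨(b (a (l 3) (c (a (a (l 3) (b (c (b (l 16688608) (l 16687704)) (l 33453592487)) (a (l 3) (c (l 28621747847) (l 35064187703))))) (b (c (b (l 16666856) (l 16666128)) (b (l 16662496) (l 16661640))) (c (b (l 16665456) (l 16685784)) (b (l 16660864) (l 16660144))))) (a (a (l 3) (a (b (c (l 16680104) (l 46875336503)) (l 3)) (b (c (l 16673832) (l 16667248)) (c (l 16672096) (l 44190972471))))) (b (c (b (l 16657336) (l 16656456)) (a (l 16657520) (l 16644488))) (c (b (l 16655688) (l 16654992)) (b (l 16649928) (l 16649376))))))) (a (l 3) (b (a (l 3) (a (c (c (b (l 16671544) (l 16670824)) (b (l 16666560) (l 16665848))) (b (l 16668888) (l 27547976567))) (c (c (b (l 16656816) (l 16656208)) (b (l 16652360) (l 16651728))) (b (l 16644968) (l 16644488)))))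 (a (l 3) (a (c (b (c (l 16670048) (l 16665120)) (c (b (l 16669448) (l 16669008)) (l 18421180103))) (b (c (l 16660032) (l 16654768)) (c (l 16669960) (l 16654496)))) (c (b (c (l 16655608) (l 16651144)) (c (l 16655016) (l 16650608))) (b (l 16644104) (c (l 16646104) (l 16641512))))))))), by decide +kernel⟩

def k7_pm_012 : ∃ t, chk3 f_pm_012 t 9 6 1 = true :=
  ⟨(a (b (a (c (b (c (l 17254320) (l 17021672)) (c (l 17127376) (l 16647528))) (b (l 16664136) (a (l 16624712) (l 16595392)))) (c (b (l 17201272) (c (l 17209288) (l 16933744))) (b (l 16736184) (l 16567912)))) (a (a (c (b (l 16663208) (c (l 16636568) (l 16637440))) (b (l 16632176) (b (l 16634296) (l 16634696)))) (c (b (l 16640192) (c (l 16667272) (l 16608232))) (b (l 16604552) (l 16629032)))) (c (b (c (l 17039080) (l 16711416)) (b (l 16618760) (c (l 16685504) (l 16563672)))) (b (l 16601160) (c (l 16607048) (l 16607624)))))) (b (c (b (a (l 17266096) (l 17330328)) (a (l 17109224) (l 17230896))) (b (a (l 16793624) (l 16855072)) (a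 (l 16605800) (l 16685280)))) (b (a (c (c (l 17143160) (l 16815512)) (l 16515064)) (c (l 16976984) (l 16440360))) (a (c (c (l 16809328) (l 16516120)) (l 16545184)) (c (c (l 17050160) (l 16659632)) (l 16478816)))))), by decide +kernel⟩

def k8_pm_012 : ∃ t, chk3 f_pm_012 t 18 14 1 = true :=
  ⟨(a (b (c (c (b (l 16645520) (l 16646296)) (b (l 16624640) (l 16645496))) (b (a (l 16634296) (l 16608384)) (a (l 16633224) (l 16607520)))) (c (b (c (a (l 16639752) (l 16610584)) (a (l 16637480) (l 16609832))) (c (a (l 16638816) (l 16609864)) (a (l 16636016) (l 16608504)))) (b (a (l 16631672) (l 16606096)) (a (c (l 16632168) (l 16627272)) (l 16604296))))) (b (c (c (b (l 16583592) (l 16585648)) (b (l 16566112) (l 16588136))) (b (l 16630456) (a (l 16581392) (l 16553048)))) (c (b (c (l 16607520) (l 16588176)) (c (l 16617856) (l 16608296))) (b (a (l 16580280) (l 16552928)) (a (l 16578840) (l 16552256)))))), by decide +kernel⟩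

def k9_pm_012 : ∃ t, chk3 f_pm_012 t 18 15 1 = true :=
  ⟨(b (a (c (b (c (a (l 16637424) (l 16608576)) (a (l 16634240) (l 16606752))) (c (a (b (l 16636272) (l 16635568)) (l 16607080)) (a (l 16653472) (l 16604928)))) (b (a (c (l 16630232) (l 16625408)) (l 16602288)) (a (c (l 16628456) (l 16623816)) (c (l 16602080) (l 16598536))))) (c (b (c (a (l 16579768) (l 16550232)) (a (l 16579376) (l 16551304))) (c (b (l 16584488) (l 16604760)) (a (l 16577480) (l 16549616)))) (b (a (l 16576832) (l 16550736)) (a (l 16574784) (l 16548832))))) (a (b (c (a (c (b (l 16634888) (l 16634240)) (b (l 16631312) (l 16630608))) (c (b (l 16605888) (l 16605176)) (l 16613688))) (a (b (l 16625136) (l 16645512)) (b (l 16599104) (l 16598376)))) (c (b (c (a (l 16633600) (l 16604480)) (a (l 16629952) (l 16602024))) (a (c (b (l 16633120) (l 16632808)) (b (l 16629480) (l 16629184))) (c (l 16603808) (l 16601320)))) (b (a (l 16635840) (l 16597736)) (a (c (l 16636064) (l 16621680)) (l 16607680))))) (a (b (c (c (l 16597608)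 (l 16575592)) (c (l 16573952) (l 16571728))) (c (b (c (l 16575456) (l 16574272)) (c (l 16574728) (l 16573480))) (b (l 16571696) (l 16571008)))) (b (c (c (l 16568488) (l 16547848)) (c (l 16547456) (l 16546360))) (c (b (c (l 16546472) (l 16546608)) (c (l 16545680) (l 16545720))) (b (l 16545784) (l 16544968))))))), by decide +kernel⟩

def k10_pm_012 : ∃ t, chk3 f_pm_012 t 19 7 1 = true :=
  ⟨(b (b (a (c (c (l 16548464) (l 16543512)) (b (l 16506528) (l 16528616))) (c (c (l 16679032) (l 16452960)) (l 16485152))) (c (a (b (c (l 16519888) (l 16503816)) (c (l 16521392) (l 16525416))) (c (a (l 16468096) (l 16431496)) (l 16478768))) (a (b (l 16528952) (l 16549664)) (b (l 16466040) (l 16487376))))) (a (b (b (c (c (l 16542976) (l 16525320)) (c (l 16527376) (l 16528184))) (c (c (l 16542960) (l 16545736)) (b (l 16548144) (l 16547640)))) (c (b (a (c (l 16538208) (l 16539832)) (c (l 16504832) (l 16507952))) (a (c (b (l 16537512) (l 16536920)) (b (l 16517984) (l 16538264))) (c (l 16509528) (l 16507104))))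 (a (b (l 16561752) (b (l 16539904) (l 16539256))) (b (l 16510992) (b (l 16510248) (l 16488872)))))) (b (a (c (b (l 16473304) (l 16485256)) (b (l 16461144) (l 16481400))) (c (c (l 16431112) (l 16452504)) (c (l 16447704) (l 16410168)))) (c (b (c (l 16474584) (l 16479432)) (c (l 16478280) (l 16473616))) (b (b (l 16485856) (l 16485392)) (a (l 16479528) (l 16456800))))))), by decide +kernel⟩

def k11_pm_012 : ∃ t, chk3 f_pm_012 t 10 6 1 = true :=
  ⟨(c (a (b (a (b (l 17393192) (l 17308560)) (a (l 17406384) (a (l 17431752) (l 17448584)))) (a (b (l 17181584) (c (l 17179088) (l 16798160))) (a (b (l 17253440) (l 17083600)) (a (b (l 17288328) (l 17129480)) (b (l 17311792) (c (l 17342784) (l 16976880))))))) (b (b (l 17544744) (l 17491752)) (b (l 17411248) (c (l 17465088) (l 17111552))))) (a (b (a (b (l 16918632) (l 16766672)) (a (b (l 16967336) (l 16827856)) (a (l 16930848) (l 16865072)))) (a (b (l 16549136) (a (l 16383944) (l 16347064))) (b (a (l 16629840) (a (l 16669608) (l 16653872)))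 (a (l 16343184) (a (l 16397424) (a (l 16424224) (l 16441736))))))) (b (b (l 17080048) (l 16968152)) (b (l 16810512) (l 16543504))))), by decide +kernel⟩

def k12_pm_012 : ∃ t, chk3 f_pm_012 t 10 7 1 = true :=
  ⟨(a (b (c (a (b (b (l 16776704) (l 16589896)) (c (b (l 16630616) (l 16391368)) (l 16417192))) (b (a (l 16674536) (a (l 16842672) (c (l 17146312) (l 16705152)))) (a (b (l 16529672) (l 16383272)) (a (c (l 16776264) (l 16349280)) (c (a (l 16818144) (l 16845528)) (l 16390608)))))) (a (b (l 16437408) (c (l 16416232) (l 16424024))) (b (a (l 16340864) (a (l 16307664) (l 16368904))) (a (l 16356256) (a (l 16333304) (b (l 16367112) (l 16380848))))))) (a (b (c (c (b (l 16406944) (l 16423232)) (l 16417152)) (c (l 16415456) (l 16445064))) (c (b (c (l 16440224) (l 16432696)) (c (l 16468176) (l 16450440))) (b (l 16423224) (a (l 16445824) (l 16435952))))) (c (b (a (c (l 16409944) (l 16399736)) (a (c (l 16387832) (l 16376664)) (c (b (l 16469136) (l 16394760)) (b (l 16390040) (l 16383288)))))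 (a (b (c (l 16411824) (l 16402376)) (c (l 16427800) (l 16418688))) (a (b (c (l 16409480) (l 16399120)) (c (l 16424728) (l 16414728))) (b (c (l 16429976) (l 16419032)) (c (l 16465856) (l 16434328)))))) (b (a (l 16407744) (a (l 16383184) (c (l 16407216) (l 16418800)))) (a (b (l 16389992) (l 16427392)) (a (b (l 16385296) (l 16401056)) (b (l 16446208) (c (l 16424432) (l 16415200))))))))) (b (b (c (c (l 17288400) (b (l 16952968) (l 16815928))) (a (l 16325824) (l 16346816))) (c (b (c (l 17134160) (l 16645784)) (c (l 16955752) (l 16433040))) (b (l 16336384) (l 16346488)))) (b (c (b (c (l 16607352) (l 16357056)) (c (a (l 16388632) (l 16663464)) (l 16368312))) (b (l 16357864) (l 16390808))) (c (b (c (l 16425760) (l 16401504)) (c (a (l 16435760) (l 16420360)) (a (l 16402728) (l 16384824)))) (b (c (l 16388640) (l 16376696)) (c (a (l 16391352) (l 16371000)) (a (l 16380648) (l 16357912)))))))), by decide +kernel⟩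

def k13_pm_012 : ∃ t, chk3 f_pm_012 t 11 3 1 = true :=
  ⟨(b (b (c (a (l 17636824) (l 17733872)) (a (b (l 17201016) (l 17116880)) (l 17281944))) (c (a (b (l 17569120) (l 17489152)) (b (l 17701568) (l 17656016))) (a (b (l 16998520) (l 16830456)) (b (l 17164064) (l 17041880))))) (b (a (c (b (c (l 17557496) (l 17169256)) (c (b (l 17445560) (l 17344536)) (b (l 17002288) (l 16856920)))) (b (b (l 16658088) (l 16513496)) (b (l 16338544) (l 16306464)))) (c (b (l 17579128) (c (l 17663824) (l 17243320))) (b (l 16635984) (b (l 16685736) (l 16533272))))) (b (c (a (c (b (l 17110424) (a (l 16929896) (l 17160288))) (b (l 16633584) (l 16447400))) (c (b (l 17552120) (l 17449472)) (b (l 17070904) (a (l 16813416) (l 17018944))))) (a (b (l 16334064) (l 16361904)) (b (l 16327488) (a (l 16306120) (l 16299776))))) (a (c (b (c (a (l 16605248) (l 16822720)) (l 16354664)) (c (b (l 16402080) (l 16410568)) (b (l 16360760) (l 16364928)))) (b (c (l 16336568) (l 16319464)) (c (a (l 16353136) (l 16337984)) (a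 (l 16337552) (l 16319808))))) (c (c (b (a (l 17209736) (l 17416136)) (a (b (l 17068648) (l 16727208)) (c (l 17421768) (l 17106192)))) (b (a (l 16602112) (l 16805992)) (b (l 16365736) (l 16356552)))) (b (c (l 16316960) (l 16294432)) (c (a (l 16325688) (l 16316456)) (a (l 16304840) (l 16292904))))))))), by decide +kernel⟩

def k14_pm_012 : ∃ t, chk3 f_pm_012 t 3 2 1 = true :=
  ⟨(a (b (l 2) (a (b (l 2) (a (l 17614416) (l 2))) (l 2))) (l 2)), by decide +kernel⟩

def k15_pm_012 : ∃ t, chk3 f_pm_012 t 6 3 1 = true :=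
  ⟨(b (a (b (c (l 17841408) (a (l 17384792) (l 17468936))) (c (a (l 17801856) (l 17894008)) (a (b (l 17306096) (l 17221656)) (l 17400752)))) (b (a (l 17715184) (l 2)) (c (a (l 17958552) (l 17993672)) (a (l 17507952) (l 17589264))))) (a (b (c (a (b (l 17752296) (l 17617856)) (b (l 17887912) (l 17857840))) (a (b (l 17098200) (b (l 16970336) (l 16841416))) (b (l 17290112) (b (l 17203032) (l 17129056))))) (c (b (a (c (l 17783040) (b (l 17379248) (l 17280768))) (c (l 17994968) (l 17592064))) (a (c (b (l 17673464) (a (l 17476480) (l 17658296))) (b (a (l 17061040) (l 17246880)) (a (b (l 16934760) (l 16690616)) (l 16876824)))) (c (l 17914240) (b (l 17483008) (a (l 17298560) (l 17465016)))))) (b (a (b (l 16480096) (a (l 16470632) (l 16649168))) (b (l 16955168) (c (l 17139736) (l 16718616)))) (a (b (c (a (l 16527064) (l 16745104)) (l 16280656)) (c (a (l 16310232) (l 16303616)) (a (l 16283800) (l 16277648)))) (b (c (l 16815224) (a (l 16464320) (l 16662048))) (c (a (b (l 16823336) (l 16736712))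 (l 16958616)) (a (l 16276208) (l 16450904)))))))) (b (c (a (l 17992536) (l 18072504)) (a (b (l 17446400) (l 17370344)) (b (l 17570560) (l 17532520)))) (c (a (b (l 17972632) (c (l 18128432) (l 17706088))) (b (l 18104264) (l 18097312))) (a (b (b (l 17285976) (l 17045272)) (c (b (l 17326696) (a (l 17154504) (l 17308920))) (b (l 16898664) (a (l 16676608) (l 16879920))))) (b (a (l 17414664) (l 17508960)) (a (c (l 17479176) (l 16945656)) (c (l 17591264) (l 17228272))))))))), by decide +kernel⟩

def k16_pm_012 : ∃ t, chk3 f_pm_012 t 7 3 1 = true :=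
  ⟨(a (b (a (b (l 2) (c (l 18014568) (l 17648856))) (l 2)) (b (a (c (l 18125224) (l 17659176)) (c (l 18157936) (l 17733488))) (c (a (b (l 18194352) (l 18223144)) (l 18280576)) (a (b (l 17622488) (a (l 17515064) (l 17603400))) (b (l 17737336) (l 17713072)))))) (b (l 2) (b (c (l 18177040) (l 17803504)) (c (l 18333736) (b (l 17848240) (l 17864872)))))), by decide +kernel⟩

theorem s17_pm_012 : ∃ t, chk3 f_pm_012 t 3 3 1 = true := ex3_a k15_pm_012 k16_pm_012

theorem s18_pm_012 : ∃ t, chk3 f_pm_012 t 3 1 1 = true := ex3_b k14_pm_012 s17_pm_012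

theorem s19_pm_012 : ∃ t, chk3 f_pm_012 t 10 3 1 = true := ex3_b k11_pm_012 k12_pm_012

theorem s20_pm_012 : ∃ t, chk3 f_pm_012 t 5 3 1 = true := ex3_a s19_pm_012 k13_pm_012

theorem s21_pm_012 : ∃ t, chk3 f_pm_012 t 18 7 1 = true := ex3_b k8_pm_012 k9_pm_012

theorem s22_pm_012 : ∃ t, chk3 f_pm_012 t 9 7 1 = true := ex3_a s21_pm_012 k10_pm_012

theorem s23_pm_012 : ∃ t, chk3 f_pm_012 t 9 3 1 = true := ex3_b k7_pm_012 s22_pm_012

theorem s24_pm_012 : ∃ t, chk3 f_pm_012 t 17 7 1 = true := ex3_b k5_pm_012 k6_pm_012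

theorem s25_pm_012 : ∃ t, chk3 f_pm_012 t 8 7 1 = true := ex3_a k4_pm_012 s24_pm_012

theorem s26_pm_012 : ∃ t, chk3 f_pm_012 t 8 3 1 = true := ex3_b k3_pm_012 s25_pm_012

theorem s27_pm_012 : ∃ t, chk3 f_pm_012 t 4 3 1 = true := ex3_a s26_pm_012 s23_pm_012

theorem s28_pm_012 : ∃ t, chk3 f_pm_012 t 2 3 1 = true := ex3_a s27_pm_012 s20_pm_012

theorem s29_pm_012 : ∃ t, chk3 f_pm_012 t 4 2 1 = true := ex3_b k0_pm_012 k1_pm_012

theorem s30_pm_012 : ∃ t, chk3 f_pm_012 t 2 2 1 = true := ex3_a s29_pm_012 k2_pm_012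

theorem s31_pm_012 : ∃ t, chk3 f_pm_012 t 2 1 1 = true := ex3_b s30_pm_012 s28_pm_012

theorem s32_pm_012 : ∃ t, chk3 f_pm_012 t 1 1 1 = true := ex3_a s31_pm_012 s18_pm_012

theorem c_pm_012 : CertF 0 536870912 536870912 536870912 201326592 134217728 true true false .pnp 0 1 2
    ndF0q0 ndF2q1 pcF2 Cut.none Ext.none :=
  certF2 (fam := true) (s1 := true) (s2 := false) (a := 0) (b := 1) (c := 2) (cn := .pnp) (n1 := ndF0q0) (n2 := ndF2q1) (pc := pcF2) (cut := Cut.none) (xt := Ext.none) (P1 := 0) (W1 := 536870912) (P2 := 536870912) (W2 := 536870912) (P3 := 201326592) (W3 := 134217728)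
    rfl (fun _ => rfl) s32_pm_012

end Pool.Agent.Strip051.G.I3_16_5_16.Tab.C.FA02

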