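import Pool.Agent.Strip051.G.I3_16_5_16.Tab

/-! # Certificates F2 (generated) -/

set_option linter.all false
set_option maxRecDepth 100000

namespace Pool.Agent.Strip051.G.I3_16_5_16.Tab.C.FA02

open Pool.Agent.Strip051.PB Pool.Agent.Strip051.PB.T
open Pool.Agent.Strip051.G.I3_16_5_16.Tab

noncomputable def cut_pm_022_a : Cut := Cut.of [[⟨0, 0, 0, 67108864⟩, ⟨1, 1, 0, 67108864⟩, ⟨2, 1, 0, 67108864⟩], [⟨0, 0, 1, 67108864⟩, ⟨1, 1, 0, 16777216⟩, ⟨2, 1, 1, 67108864⟩]]

noncomputable def f_pm_022_a : ℕ → ℕ → ℕ → ℕ → Bool := onCell 1073741824 536870912 0 536870912 201326592 134217728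
    (rowF 2 true true false .pp 0 2 2 (qsf 0 536870912 0 536870912 2) ndF0q0 ndF2q2a pcF2 cut_pm_022_a Ext.none)

def k0_pm_022_a : ∃ t, chk3 f_pm_022_a t 4 2 1 = true :=
  ⟨(b (l 1) (a (l 1) (a (l 1) (a (l 1) (a (l 1) (b (l 1) (b (l 1) (c (c (a (b (l 1) (c (b (l 16589048) (l 16589496)) (b (l 16586200) (l 16586744)))) (b (c (b (l 16582248) (l 16582712)) (b (l 16579304) (l 16579856))) (c (l 19897403271) (l 16580656)))) (a (b (l 1) (c (l 16583688) (l 16580904))) (b (c (l 16576696) (l 16573808)) (c (l 16577952) (l 16575256))))) (c (a (b (l 1) (l 16576736)) (b (l 16569504) (l 16571240))) (a (b (l 1) (l 16571208)) (b (l 16563800) (l 16565928)))))))))))), by decide +kernel⟩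

def k1_pm_022_a : ∃ t, chk3 f_pm_022_a t 40 2 1 = true :=
  ⟨(b (l 1) (c (b (a (l 1) (c (b (a (l 1) (c (l 16559232) (l 16555576))) (a (b (l 1) (c (l 16565496) (l 16562152))) (b (c (l 16560376) (l 16556888)) (c (l 16561144) (l 16557784))))) (b (a (l 1) (b (l 1) (l 16550640))) (a (b (l 1) (c (l 16558832) (l 16555544))) (c (l 16553960) (l 16550600)))))) (a (b (c (a (b (l 1) (c (b (l 16576016) (l 16576472)) (l 16573224))) (b (c (l 16570800) (l 16567608)) (c (l 16571656) (l 16568624)))) (a (b (l 1) (c (l 16570208) (l 16567208))) (b (c (l 16564440) (l 16561296)) (l 16574600)))) (c (b (a (c (l 16577136) (l 16574280)) (c (l 16572464) (l 16569600))) (c (a (l 16577952) (l 16573192)) (l 16583520))) (b (a (c (l 16571440) (l 16568608)) (l 16565360)) (a (l 16571312) (l 16566576))))) (b (c (a (c (a (l 16567800) (l 16565552)) (l 19360493799)) (b (l 16570760) (l 16561048))) (b (a (l 16558360) (l 16553912)) (a (l 16559544) (l 16555024)))) (c (b (c (l 16565648) (l 16562776)) (l 16575376)) (b (l 16579512)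 (l 16559624)))))) (b (a (l 1) (a (b (l 1) (c (b (l 1) (l 16550656)) (l 16543408))) (b (c (l 16543016) (l 16536016)) (c (b (l 16544920) (l 16546288)) (l 16539112))))) (a (a (b (c (b (l 1) (l 16562736)) (l 16561104)) (c (b (l 16564400) (l 16566080)) (l 26876682311))) (b (c (b (l 16556608) (l 16558184)) (l 16551408)) (c (l 16560616) (l 16555336)))) (b (c (b (a (l 16552128) (l 16547704)) (l 16572480)) (b (l 16559656) (l 16545744))) (c (b (l 16553000) (l 16554496)) (l 16569560))))))), by decide +kernel⟩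

def k2_pm_022_a : ∃ t, chk3 f_pm_022_a t 82 4 2 = true :=
  ⟨(a (l 1) (b (l 1) (b (l 1) (c (c (b (l 16549536) (l 16550152)) (b (l 16545592) (l 16546280))) (c (l 16547328) (l 16538264)))))), by decide +kernel⟩

def k3_pm_022_a : ∃ t, chk3 f_pm_022_a t 83 8 2 = true :=
  ⟨(a (l 1) (a (a (b (l 1) (c (c (l 16542160) (l 16537944)) (l 16542208))) (c (b (c (l 16540816) (l 16536544)) (c (l 16541392) (l 16537152))) (b (c (l 16532336) (l 16528184)) (c (l 16532968) (l 16528848))))) (c (b (c (a (a (a (l 16540480) (a (l 16540416) (b (l 16540296) (l 16540504)))) (l 16540160)) (l 16539424)) (a (a (a (l 16536184) (a (l 16536112) (b (l 16535984) (l 16536192)))) (l 16535840)) (l 16535104))) (c (a (a (a (l 16541032) (a (l 16540960) (b (l 16540776) (l 16541096)))) (l 16540688)) (l 16539952)) (a (a (a (l 16536768) (a (l 16536696) (b (l 16536480) (l 16536832)))) (l 16536408)) (l 16535664)))) (b (a (a (a (l 16529856) (c (a (l 16531872) (l 16542328)) (a (l 16527696) (l 16527664)))) (l 16529488)) (l 16528744))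 (a (a (a (l 16530496) (a (l 16535648) (c (l 16532448) (l 16528296)))) (l 16530096)) (l 16529352)))))), by decide +kernel⟩

def k4_pm_022_a : ∃ t, chk3 f_pm_022_a t 83 9 2 = true :=
  ⟨(c (a (a (b (c (l 16545976) (l 16541896)) (c (l 16547048) (l 16543104))) (b (c (l 16544208) (l 16540096)) (c (l 16545216) (l 16541248)))) (a (b (c (b (l 16542240) (l 16542680)) (b (l 16538064) (l 16538568))) (c (l 16553896) (l 16539408))) (b (c (a (a (a (l 16541784) (a (l 16541712) (b (l 16541472) (l 16541880)))) (l 16541416)) (l 16540664)) (a (a (a (l 16537608) (a (l 16537528) (l 16547976))) (l 16537224)) (l 16536464))) (c (a (a (a (l 16542688) (a (l 16542592) (l 16542560))) (l 16542288)) (l 16541520)) (a (a (a (l 16538648) (a (l 16538552) (l 16538512))) (l 16538232)) (l 16537456)))))) (a (a (b (l 16541120) (l 16537280)) (b (c (l 16536048) (l 16532048)) (l 16535392))) (a (b (c (l 16544728) (l 16530216)) (c (l 16535464) (l 16531584))) (b (a (a (a (l 16531464) (a (l 16541856) (c (l 16533360) (l 16529296))))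 (l 16531048)) (l 16530288)) (a (a (a (l 16532712) (a (l 16532608) (b (l 16542696) (l 16532880)))) (l 16532272)) (l 16531496)))))), by decide +kernel⟩

def k5_pm_022_a : ∃ t, chk3 f_pm_022_a t 41 4 3 = true :=
  ⟨(a (a (l 1) (b (l 1) (b (l 1) (c (b (l 16532128) (l 16533096)) (l 16525272))))) (a (b (l 1) (b (c (a (l 16528032) (l 16526160)) (a (l 16520384) (l 16518504))) (c (b (l 16528200) (l 16529112)) (l 16521312)))) (a (b (c (b (a (l 1) (l 16522064)) (a (l 16523632) (l 16522784))) (b (l 16514464) (a (l 16515784) (l 16514912)))) (c (b (a (l 16524824) (l 16523952)) (b (l 16525432) (l 16526304))) (b (l 16537600) (l 16518488)))) (b (c (b (a (a (a (l 16521640) (a (l 16521544) (c (l 16523536) (l 16519480)))) (l 16521232)) (l 16520488)) (a (a (a (l 16522344) (a (l 16522240) (c (l 16524216) (l 16520192)))) (l 16521920)) (l 16521168))) (b (a (a (a (l 16513672) (a (l 16513568) (l 16513512))) (l 16513240)) (l 16512496)) (a (a (a (l 16514448) (a (l 16514336) (l 16514272))) (l 16514000)) (l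 16513256)))) (c (b (a (a (a (l 16523496) (a (l 16523384) (c (l 16525304) (l 16521368)))) (l 16523048)) (l 16522288)) (a (a (a (l 16525032) (a (l 16524912) (l 16545824))) (l 16524560)) (l 16523792))) (b (a (a (a (l 16515784) (a (l 16515656) (l 16515592))) (l 16515312)) (l 16514552)) (a (a (a (l 16517616) (a (l 16517480) (l 16517408))) (l 16517120)) (l 16516352)))))))), by decide +kernel⟩

def k6_pm_022_a : ∃ t, chk3 f_pm_022_a t 82 5 1 = true :=
  ⟨(b (a (c (c (b (c (b (l 16554760) (l 16555472)) (b (l 16551024) (l 16551832))) (c (l 16556544) (l 16553088))) (b (b (l 16545480) (l 16546448)) (b (l 16547456) (l 16548488)))) (b (c (b (l 16538232) (l 16539416)) (l 16531864)) (c (l 16541336) (l 16534856)))) (c (c (b (c (l 16551112) (l 16547392)) (c (l 16552376) (l 16548896))) (b (b (l 16541424) (l 16542328)) (l 16543768))) (b (c (l 16534728) (l 16527760)) (c (l 16537112) (l 16530648))))) (c (c (b (b (a (l 16555904) (l 16551600)) (l 16570104)) (a (l 16557520) (l 16552976))) (b (a (l 16550064)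 (l 16545688)) (l 16570752))) (b (c (a (l 16544032) (l 16539664)) (l 16556968)) (c (l 16565488) (l 16539448))))), by decide +kernel⟩

def k7_pm_022_a : ∃ t, chk3 f_pm_022_a t 83 5 1 = true :=
  ⟨(c (b (c (a (b (c (l 16547168) (l 16543400)) (c (l 16548272) (l 16544760))) (a (b (c (l 16544424) (l 16540616)) (c (l 16545392) (l 16541848))) (b (a (a (a (l 16541712) (a (l 16546848) (c (l 16543488) (l 16539640)))) (l 16541272)) (l 16540480)) (c (b (l 16564392) (l 16564792)) (b (l 16560736) (l 16561288)))))) (a (b (c (l 16539688) (l 16536040)) (l 16539600)) (a (b (c (l 16536872) (l 16533184)) (l 16536640)) (b (a (a (a (l 16534168) (c (l 16556840) (l 16553128))) (l 16533696)) (l 16532904)) (b (c (l 16557152) (l 16553632)) (l 16556160)))))) (a (c (b (l 16547624) (l 16548480)) (b (l 16541360) (l 16543008))) (a (c (b (l 16544584) (l 16545272)) (b (l 16538272) (l 16539768))) (c (b (c (l 16565304) (l 16562064)) (l 16564240)) (b (b (l 16556928) (l 16557672)) (l 16558712)))))) (b (b (a (c (l 16530664)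 (l 16523704)) (a (c (l 16527784) (l 16520800)) (c (a (a (a (l 16526896) (a (l 16526768) (l 16526696))) (l 16526400)) (l 16525608)) (a (a (a (l 16519888) (l 16540664)) (l 16519368)) (l 16518584))))) (c (a (l 16532920) (a (l 16529936) (a (b (l 16549016) (l 16550104)) (l 16527656)))) (a (l 16526480) (a (l 16523480) (b (l 16541864) (l 16543240)))))) (a (b (c (l 16535328) (l 16529536)) (l 16535240)) (a (b (c (l 16532224) (l 16526432)) (l 16532000)) (b (c (l 16551248) (l 16545448)) (c (l 16553456) (l 16548472))))))), by decide +kernel⟩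

def k8_pm_022_a : ∃ t, chk3 f_pm_022_a t 21 2 1 = true :=
  ⟨(b (c (a (b (c (a (b (c (l 16535328) (l 16530952)) (c (l 16535784) (l 16531448))) (b (l 16525424) (l 16525792))) (a (b (c (l 16526648) (l 16522424)) (c (l 16527184) (l 16522992))) (b (l 16516616) (l 16517072)))) (c (b (a (c (l 16536416) (l 16532168)) (l 16526320)) (a (c (l 16537152) (l 16533056)) (l 16526944))) (b (a (c (l 16527992) (l 16523904)) (l 16517808)) (a (c (l 16529032) (l 16525088)) (l 16518752))))) (b (c (b (l 16536000) (l 16536168)) (a (l 16509168) (l 16501792))) (c (b (l 16536432) (l 16536736)) (b (l 16506568) (l 16507232))))) (a (a (b (c (b (l 16516232) (l 16537824)) (b (l 16508232) (l 16508936))) (c (b (l 16538872) (l 16519312)) (b (l 16510168) (l 16511888)))) (b (c (l 16508504) (l 16500512)) (c (b (l 16509672) (l 16510944)) (l 16502768)))) (b (c (l 16518248) (l 16510080)) (c (b (l 16498176) (l 16499192)) (l 16522472))))) (c (b (a (c (b (a (c (l 16537920) (l 16534032)) (l 16527592)) (a (l 16547272) (l 16528136)))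 (b (a (l 16549312) (l 16519840)) (a (l 16529712) (l 16520968)))) (c (b (l 16536984) (l 16516096)) (b (l 16507968) (l 16508688)))) (a (c (b (a (l 16537440) (l 16528464)) (a (l 16537760) (l 16528416))) (b (a (l 16531056) (l 16522024)) (l 16549056))) (c (b (l 16515888) (l 16515208)) (b (l 16509264) (l 16509544))))) (a (a (b (b (c (l 16521024) (l 16514024)) (c (l 16522944) (l 16516496))) (b (l 16543024) (l 16524472))) (b (b (l 16529904) (l 16510920)) (b (l 16513048) (l 16515192)))) (b (b (c (l 16500408) (l 16493336)) (l 16519432)) (b (l 16521160) (l 16522832)))))), by decide +kernel⟩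

def k9_pm_022_a : ∃ t, chk3 f_pm_022_a t 11 2 1 = true :=
  ⟨(a (b (c (a (b (c (l 16501608) (l 16491824)) (c (l 16522320) (l 16492128))) (b (c (l 16574640) (l 16479144)) (c (l 16572528) (l 16478640)))) (b (a (l 16499344) (l 16464952)) (a (c (l 16483544) (l 16475600)) (l 16465400)))) (b (c (a (c (l 16521640) (l 16513544)) (c (l 16569976) (l 16477904))) (a (b (l 16480904) (l 16482056)) (l 16487456))) (c (a (c (l 16519592) (l 16513264)) (c (l 16569608) (l 16497032))) (a (b (l 16483200) (l 16505184)) (l 16488408))))) (b (c (b (a (c (l 16766200) (l 16468016)) (l 16716064)) (a (c (l 16762496) (l 16466568)) (l 16671456))) (b (a (l 16453064) (l 16443120)) (a (l 16452712) (l 16441832)))) (c (b (a (c (l 16756496) (l 16464504)) (l 16646760)) (a (b (l 16541264) (l 16543976)) (l 16623376))) (b (a (l 16452672) (l 16440488)) (a (l 16473104) (l 16438256)))))), by decide +kernel⟩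

def k10_pm_022_a : ∃ t, chk3 f_pm_022_a t 8 6 1 = true :=
  ⟨(l 1), by decide +kernel⟩

def k11_pm_022_a : ∃ t, chk3 f_pm_022_a t 18 6 1 = true :=
  ⟨(b (l 1) (a (a (l 1) (b (l 1) (c (a (b (l 1) (c (b (l 16663584) (c (l 16664944) (l 16663328))) (b (l 16660000) (l 16660864)))) (b (c (c (l 16658216) (l 16656296)) (l 16653376)) (c (b (c (l 16658960) (l 16657248)) (l 16663856)) (b (l 16654664) (l 16655480))))) (b (c (l 16651992) (l 16647864)) (c (a (b (l 16656344) (l 16657520)) (l 16651736)) (a (l 16653368) (l 16648328))))))) (c (b (b (b (l 1) (a (l 1) (a (l 1) (c (c (a (l 16635456) (l 16632608)) (l 16631936)) (c (l 16629816) (l 16627688)))))) (b (a (l 1) (c (c (a (a (l 16641624) (l 16638808)) (l 16634536)) (a (l 16638168) (l 16632560))) (c (l 16628112) (l 16631312)))) (c (a (a (l 1) (c (a (l 1) (l 16644952)) (l 16644360))) (c (a (l 16640720) (l 16634992)) (l 7549479175))) (a (a (l 1) (l 16641336)) (c (l 16634096) (l 16632200)))))) (a (b (c (a (b (c (l 16652432) (l 16650504)) (c (l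 16652928) (l 16651136))) (c (b (l 16646848) (l 16647288)) (l 2180783431))) (a (b (l 16647584) (l 16648432)) (b (l 16642176) (l 16642984)))) (c (c (b (l 16650544) (l 16650896)) (b (l 16648936) (l 16649448))) (b (l 16654376) (l 16647264)))) (c (b (c (b (l 16638304) (l 16638680)) (b (l 16636560) (l 16637080))) (c (l 16639144) (l 16637776))) (b (c (l 16635160) (l 16633472)) (l 16635720))))) (b (a (b (l 1) (c (a (l 1) (l 16636696)) (l 16634936))) (b (c (a (l 1) (l 16623928)) (l 16622016)) (c (a (l 16631440) (l 16626112)) (l 16624792)))) (a (b (c (a (b (l 16643632) (l 16644776)) (l 16638952)) (l 16643064)) (c (b (l 16643248) (l 16644320)) (l 16640656))) (b (c (l 16630936) (l 16627536)) (c (l 16632968) (l 16630208)))))))), by decide +kernel⟩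

def k12_pm_022_a : ∃ t, chk3 f_pm_022_a t 38 12 1 = true :=
  ⟨(c (b (a (l 1) (a (l 1) (a (l 1) (b (l 1) (b (l 1) (b (l 1) (c (c (l 16607248) (l 16604744)) (l 16600992)))))))) (a (b (l 1) (c (a (c (b (l 1) (l 16627264)) (l 16624696)) (c (b (a (l 1) (c (l 16620200) (l 16619056))) (a (l 16622952) (l 16620080))) (b (l 16618752) (l 16619336)))) (a (l 16621176) (c (l 16616792) (l 16614528))))) (a (c (b (c (b (l 16614632) (a (l 16616440) (l 16613616))) (b (l 16612136) (l 16612664))) (c (b (l 17213108519) (l 16615824)) (l 16618688))) (b (c (l 16609968) (l 16607520)) (c (l 16611256) (l 16609072)))) (c (b (c (b (c (l 16609576) (l 16608368)) (l 16609344)) (l 3254448423)) (c (l 16609880) (l 16607768))) (b (c (l 16604432) (l 16602064)) (l 16604608)))))) (b (a (l 1) (a (l 1) (a (l 1) (c (l 16594360) (l 16588936))))) (b (a (l 1) (c (a (l 16603840) (l 16598512)) (l 16596352))) (a (c (a (l 16616440) (l 16611112)) (a (l 16611656) (l 16606520))) (c (l 16613584) (l 16598792)))))), by decide +kernel⟩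

def k13_pm_022_a : ∃ t, chk3 f_pm_022_a t 38 13 1 = true :=
  ⟨(c (a (b (c (b (a (c (b (a (l 16629232) (l 16626360)) (l 16628304)) (l 16625976)) (c (b (l 16622024) (l 16622480)) (l 16620264))) (c (a (l 16628976) (l 16623096)) (a (l 16627152) (l 16621360)))) (b (a (c (l 16623880) (l 16621776)) (l 16622488)) (c (l 16622488) (l 16620696)))) (c (b (c (l 16626736) (l 16625240)) (l 16637072)) (b (l 16622984) (l 16624208)))) (b (c (b (c (l 16624112) (l 16611728)) (c (l 16614336) (l 16612704))) (b (l 16619368) (l 16610272))) (c (b (l 16614168) (l 16614568)) (l 16622576)))) (b (a (c (b (a (l 16618600) (l 16613200)) (l 16628488)) (b (l 22581818535) (l 16614400))) (c (b (l 16605096) (l 16607040)) (l 16602616))) (a (b (a (l 16621192) (l 16615752)) (l 16631160)) (c (l 16609776) (l 16607496))))), by decide +kernel⟩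

def k14_pm_022_a : ∃ t, chk3 f_pm_022_a t 39 6 1 = true :=
  ⟨(b (c (a (b (c (b (a (c (l 16601784) (l 16599032)) (c (b (a (l 1) (l 16594328)) (l 16596216)) (b (l 16593064) (l 16593592)))) (c (a (b (a (l 16603872) (l 16600992)) (l 16139341879)) (b (l 16596624) (l 16596992))) (a (b (l 16599840) (l 16600360)) (l 16594360)))) (b (a (l 16594904) (c (l 16590664) (l 16587992))) (c (a (l 16597584) (l 16591912)) (l 16592280)))) (c (b (c (a (l 16603384) (l 16597496)) (a (l 16601096) (l 16595280))) (c (l 16601072) (l 16599072))) (b (c (l 16595960) (l 16593720)) (l 16596096)))) (a (b (c (b (c (l 31171702823) (l 16587536)) (c (l 16590872) (l 16588504))) (b (c (l 16584944) (l 16582368)) (l 16584960))) (c (b (l 16590424) (l 16591056)) (l 16586816))) (b (c (b (c (l 16584168) (l 16581656)) (l 16583712)) (b (l 16577920) (l 16579168))) (c (l 16595192) (l 16580928))))) (a (b (c (b (a (l 16589392) (l 16584000)) (a (l 16591256) (l 16585816))) (b (l 16581296) (l 16583600))) (c (b (l 16590360) (l 16592152))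 (b (l 16585912) (l 16588232)))) (b (a (c (b (l 16578512) (l 16580280)) (l 16574560)) (c (l 16584352) (l 16569208))) (c (b (l 16579320) (l 16580984)) (l 16597392))))) (c (b (a (c (b (l 16600904) (l 16601584)) (b (l 16597440) (l 16598680))) (c (c (l 16600352) (l 16609416)) (l 16607312))) (a (c (l 16612704) (l 16621216)) (c (l 16610672) (l 16609088)))) (b (a (c (l 16594968) (l 16591864)) (c (l 16604560) (l 16601888))) (a (l 16618352) (l 16606864))))), by decide +kernel⟩

def k15_pm_022_a : ∃ t, chk3 f_pm_022_a t 8 7 1 = true :=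
  ⟨(b (c (a (l 1) (b (a (l 1) (a (l 1) (b (l 1) (c (a (b (l 1) (l 6)) (b (c (l 16682696) (l 16681376)) (l 16682632))) (a (b (l 1) (l 6)) (b (l 16679360) (l 16680272))))))) (a (l 6) (a (l 6) (a (l 6) (b (c (l 16683464) (l 16681600)) (c (l 16684312) (l 16683136)))))))) (c (a (l 1) (b (a (l 1) (a (l 1) (b (l 1) (a (b (l 1) (l 6)) (l 16677232))))) (a (l 6) (a (l 6) (b (b (l 16692208) (l 16682936)) (l 16695152)))))) (a (l 1) (b (a (l 1) (a (l 1) (b (l 1) (b (l 16676264) (l 16677880))))) (a (l 6) (a (l 6) (b (b (l 16679480) (l 16681048)) (l 16683352)))))))) (a (l 6) (b (a (l 6) (a (l 6) (c (b (c (l 16698248) (l 16697752)) (c (l 16707776) (l 16704912))) (b (l 16696984) (l 16704528))))) (b (a (l 6) (a (l 6) (a (l 6) (c (c (l 16723720) (l 16733032)) (l 16731208))))) (b (a (l 6) (a (l 6) (c (c (l 16739560) (l 16727312)) (l 16735080)))) (a (l 6) (c (a (l 6) (a (l 6) (a (l 6) (a (l 6) (c (b (l 16735192) (c (b (l 16739672) (l 16742288)) (l 16739720))) (b (l 16732896) (c (l 16738448) (l 16737160))))))))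 (a (l 6) (a (l 6) (a (l 6) (b (l 16729640) (c (l 16740712) (l 16732840))))))))))))), by decide +kernel⟩

def k16_pm_022_a : ∃ t, chk3 f_pm_022_a t 18 14 1 = true :=
  ⟨(a (b (c (a (b (c (a (b (l 1) (c (l 16676808) (l 16675384))) (b (c (l 16670896) (l 16669368)) (l 16670632))) (a (b (l 1) (l 16673208)) (b (l 16667048) (l 16667872)))) (c (b (c (l 16674456) (l 16673232)) (l 16674352)) (b (l 16676600) (l 16672184)))) (b (a (c (b (l 16664640) (l 16665080)) (l 27413751671)) (c (l 16664520) (l 16656624))) (c (b (l 16662640) (l 16663032)) (l 16660808)))) (a (b (c (a (b (l 1) (l 16670232)) (l 16664472)) (a (l 16666424) (l 16661408))) (c (b (l 16668800) (l 16669968)) (b (l 16666184) (l 16667696)))) (b (c (b (l 16656040) (l 16657128)) (l 16664272)) (c (l 16658736) (l 16656624))))) (c (b (c (a (b (l 16674832) (l 16675240)) (l 16663560)) (a (l 16683880) (l 16662192))) (c (a (l 16686192) (l 16684920)) (b (l 16689768) (l 16679832)))) (b (a (c (l 16671688) (l 16669952)) (l 16660120)) (a (l 16683784)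 (l 16683344))))) (c (b (c (b (a (c (l 16651320) (l 16650120)) (l 16639000)) (a (l 16651256) (l 16639304))) (b (a (l 16648304) (l 16636928)) (a (l 16649536) (l 16637944)))) (b (c (c (l 16661648) (l 16666464)) (l 16665824)) (c (l 16661632) (l 16667040)))) (b (a (b (c (l 16645864) (l 16643408)) (l 16646936)) (c (l 16656760) (l 16655048))) (b (c (l 16664992) (l 16664176)) (l 16656752))))), by decide +kernel⟩

def k17_pm_022_a : ∃ t, chk3 f_pm_022_a t 18 30 1 = true :=
  ⟨(c (a (b (c (a (l 16696960) (l 16689768)) (l 16683576)) (c (a (l 16701568) (l 16708744)) (a (l 16711480) (l 16707816)))) (b (c (l 16680152) (l 16684728)) (c (c (l 16694312) (l 16704032)) (l 16702872)))) (b (a (b (l 16685224) (l 16685224)) (l 16678416)) (a (c (l 16703560) (l 16707992)) (c (l 16701280) (l 16699640))))), by decide +kernel⟩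

def k18_pm_022_a : ∃ t, chk3 f_pm_022_a t 18 31 1 = true :=
  ⟨(b (a (b (c (c (l 16714376) (l 16702488)) (c (l 16701056) (l 16699576))) (c (c (a (l 16715504) (l 16712240)) (l 16722424)) (c (l 16710040) (l 16708088)))) (a (c (c (l 16720096) (l 16723080)) (l 16714368)) (c (c (l 16717560) (l 16699096)) (l 16715872)))) (c (b (a (c (a (l 16725568) (l 16722336)) (a (l 16723424) (l 16719784))) (a (c (l 16719456) (l 16716448)) (c (l 16727440) (l 16713440)))) (b (c (a (c (l 16737464) (l 16730872)) (c (l 16731992) (l 16724928))) (a (c (l 16729520) (l 16728144)) (c (l 16723104) (l 16721264)))) (c (b (a (c (a (l 16737760) (l 16734672)) (l 16739944)) (c (l 16730696) (l 16728776))) (a (c (a (a (a (l 16744264) (l 16740808)) (l 16742208)) (c (l 16737704) (l 16736896))) (a (a (l 16745112) (l 16738136)) (c (l 16736088) (l 16735272)))) (c (a (c (l 16735048) (l 16734120)) (c (l 16732768) (l 16731712))) (a (l 16732720) (c (l 16730648) (l 16729584)))))) (b (a (c (l 16738488) (l 16731776)) (c (l 16726840)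 (l 16724904))) (a (c (a (c (l 16737920) (l 16737208)) (l 16734048)) (a (l 16741376) (l 16732400))) (c (a (l 16730848) (l 16727984)) (a (l 16728968) (l 16725840)))))))) (b (a (c (l 16724392) (l 16716704)) (c (l 16711576) (l 16708224))) (b (a (c (l 16736544) (l 16723240)) (c (l 16718480) (l 16714736))) (a (c (a (c (b (l 16732328) (l 16734688)) (l 16737328)) (c (l 16729552) (l 16727912))) (a (c (l 16730640) (l 16729192)) (l 16730672))) (c (a (c (l 16725880) (l 16724008)) (c (l 16722496) (l 16720368))) (a (l 16721176) (c (l 16718232) (l 16716088))))))))), by decide +kernel⟩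

def k19_pm_022_a : ∃ t, chk3 f_pm_022_a t 19 14 1 = true :=
  ⟨(a (b (c (c (a (b (l 16626912) (l 16647960)) (l 16627792)) (b (l 16640336) (l 16641032))) (a (c (l 16645360) (l 16644072)) (l 16628112))) (b (c (c (l 16633904) (l 16644520)) (l 16634160)) (c (c (l 16657040) (l 16661600)) (c (l 16639904) (l 16639136))))) (a (c (b (c (l 16623008) (l 16622456)) (c (l 16650656) (l 16649728))) (b (l 16621736) (l 16648232))) (c (b (c (l 16614648) (l 16614880)) (b (l 16639800) (l 16657272))) (b (l 16615088) (l 16656096))))), by decide +kernel⟩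

def k20_pm_022_a : ∃ t, chk3 f_pm_022_a t 38 15 1 = true :=
  ⟨(b (c (b (c (a (l 16660992) (l 16658928)) (l 16679272)) (c (a (l 16701024) (l 16678016)) (l 16697408))) (b (c (l 16677656) (l 16655024)) (c (l 16694856) (l 16671288)))) (b (c (c (a (c (l 16721456) (l 16698864)) (c (l 16698584) (l 16696704))) (a (l 16717384) (l 16693880))) (c (a (l 16693112) (l 16690072)) (a (l 16689776) (l 16686232)))) (c (c (b (a (c (l 16715824) (l 16713808)) (c (l 16713944) (l 16711656))) (a (c (b (a (l 16724128) (l 16723224)) (a (b (l 16728080) (l 16730736)) (a (l 16728736) (a (l 16728408) (l 16728152))))) (b (l 16721424) (a (l 16727112) (a (l 16726328) (l 16731040))))) (c (b (l 16721776) (c (a (l 16728168) (l 16727296)) (b (l 16725080) (l 16727712)))) (b (l 16719280) (b (l 16723128) (c (l 16726376) (l 16725040))))))) (b (a (l 16710760) (l 16708224)) (b (a (l 16718072) (l 16715528)) (a (c (a (l 16724800) (b (l 16722352) (l 16727480))) (a (l 16722488) (l 16726400))) (a (c (l 16722376) (l 16719792))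 (c (l 16721208) (l 16718496))))))) (b (c (a (l 16706672) (l 16703616)) (a (l 16702552) (l 16698984))) (b (c (a (l 16713568) (l 16710504)) (a (l 16709040) (l 16705464))) (c (a (c (a (l 16720168) (l 16723936)) (a (l 16717840) (l 16716224))) (c (b (l 16715296) (l 16717656)) (l 16719064))) (a (a (l 16714328) (c (l 16713752) (l 16711280))) (c (l 16711152) (l 16708488))))))))), by decide +kernel⟩

def k21_pm_022_a : ∃ t, chk3 f_pm_022_a t 39 15 1 = true :=
  ⟨(b (c (a (c (b (l 16657184) (l 16676280)) (l 16695440)) (c (b (l 16655816) (l 16674912)) (b (l 16652992) (l 16671096)))) (a (b (l 16651368) (l 16668032)) (c (l 16700664) (l 16676296)))) (b (c (c (a (c (l 16696984) (l 16694848)) (c (l 16716720) (l 16693328))) (a (l 16691624) (l 16710656))) (a (c (l 16687296) (l 16682936)) (c (l 16684800) (l 16679896)))) (c (b (c (a (c (l 16712336) (l 16709784)) (c (l 16721576) (l 16708256))) (a (l 16705952) (c (l 16705416) (l 16702576)))) (c (a (c (b (l 16720168) (c (a (l 16731768) (b (l 16724528)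 (l 16727200))) (a (l 16725104) (l 16724376)))) (b (l 16717400) (c (a (l 16723688) (l 16722880)) (l 16721808)))) (c (b (a (l 16719256) (l 16718760)) (b (a (l 16723208) (l 16722720)) (a (c (l 16726640) (l 16725064)) (c (c (l 16726608) (l 16725784)) (l 16724544))))) (c (b (l 16716624) (a (l 16722184) (l 16721592))) (b (l 16715104) (a (l 16720624) (l 16719952)))))) (b (a (c (l 16714632) (l 16711864)) (c (l 16712816) (l 16709768))) (a (a (c (l 16720136) (l 16717288)) (c (l 16719160) (l 16716176))) (c (a (l 16718280) (b (l 16716248) (l 16718752))) (a (l 16715152) (l 16714232))))))) (b (a (c (l 16700816) (l 16695656)) (c (l 16698312) (l 16692600))) (c (b (a (l 16707696) (c (l 16706712) (l 16703656))) (a (c (l 16713792) (l 16710872)) (a (l 16720944) (a (l 16709608) (l 16709064))))) (a (a (l 16715608) (l 16703528)) (a (l 16702024) (l 16700592)))))))), by decide +kernel⟩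

def k22_pm_022_a : ∃ t, chk3 f_pm_022_a t 20 6 1 = true :=
  ⟨(a (b (c (a (b (c (b (a (l 16577448) (l 16572592)) (l 16586304)) (b (l 16591240) (l 16571400))) (c (b (l 16576344) (l 16576760)) (l 16593936))) (b (c (b (l 16565480) (l 16565936)) (l 16582136)) (c (l 16566376) (l 16562856)))) (a (b (c (b (l 16565480) (l 16567080)) (b (l 16560776) (l 16562856))) (c (l 16590400) (l 16565992))) (b (c (l 16556720) (l 16552424)) (l 16578800)))) (a (c (b (c (l 16598416) (l 16595896)) (c (l 16598512) (l 16576288))) (b (l 16592296) (l 16595576))) (c (b (c (l 16587696) (l 16585328)) (l 16581424)) (b (l 16582032) (l 16584864))))) (a (b (c (b (c (l 16576960) (l 16551456)) (c (l 16556144) (l 16552720))) (b (l 16566000) (l 16568904))) (c (b (c (l 16576928) (l 16553736)) (l 16581304)) (b (l 16571720) (l 16577608)))) (a (b (c (b (c (l 16548888) (l 16544376)) (l 16557432)) (b (l 16538040) (l 16540648))) (c (b (l 16567920) (l 16574064)) (b (l 16543128) (l 16554272)))) (b (a (c (b (c (l 16545488) (l 16540968))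 (l 16553824)) (b (l 16534656) (l 16537096))) (c (b (c (l 16564328) (l 16559792)) (c (l 16563728) (l 16560376))) (b (l 16553480) (l 16555800)))) (c (b (c (l 16586016) (l 16582656)) (c (l 16614328) (l 16614992))) (b (c (l 16580824) (l 16579216)) (l 16607752))))))), by decide +kernel⟩

def k23_pm_022_a : ∃ t, chk3 f_pm_022_a t 40 14 1 = true :=
  ⟨(c (b (c (a (l 16612984) (l 16610624)) (a (l 16612832) (l 16610176))) (c (a (l 16647688) (l 16645504)) (a (l 16645824) (l 16643288)))) (b (c (l 16631792) (l 16631320)) (a (l 16642896) (l 16639792)))), by decide +kernel⟩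

def k24_pm_022_a : ∃ t, chk3 f_pm_022_a t 40 15 1 = true :=
  ⟨(b (c (c (b (l 16684432) (a (l 16673416) (l 16671432))) (a (l 16691528) (l 16678616))) (a (c (l 16677192) (l 16673296)) (b (l 16642864) (l 16659504)))) (b (c (c (a (c (l 16715352) (l 16691704)) (l 16710832)) (a (l 16708648) (l 16685360))) (a (c (l 16682288) (l 16676872)) (c (l 16679520) (l 16673656)))) (c (b (c (a (c (l 16720256) (l 16706672)) (c (l 16708104) (l 16704776))) (a (c (l 16703576) (l 16700472)) (l 16720752))) (c (b (a (c (a (l 16718128) (l 16717280)) (a (l 16714872) (l 16713904))) (c (a (l 16716496) (l 16715760)) (l 16712504))) (b (a (c (a (l 16722096) (l 16721264)) (a (l 16718728) (l 16717776))) (c (a (l 16720504) (l 16719800)) (a (l 16716896) (l 16716072)))) (a (c (a (c (a (l 16725840) (l 16725432)) (l 16723896)) (c (b (l 16724160) (l 16725512)) (l 16723056))) (a (c (l 16722176) (l 16720448)) (c (l 16721272) (l 16719488)))) (c (a (c (a (l 16724320) (l 14)) (l 16722280)) (c (l 14) (b (l 16720888) (l 16722232))))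 (a (c (l 16720440) (l 16718592)) (c (l 16719656) (l 16717752))))))) (b (a (c (l 16711000) (l 16707688)) (c (l 16708952) (l 16705392))) (a (c (a (b (l 16715352) (l 16717872)) (l 16715552)) (a (l 16713208) (l 16712032))) (c (a (l 16719800) (b (l 16712344) (l 16714896))) (a (l 16710912) (l 16709848))))))) (b (a (c (l 16695808) (l 16689584)) (c (l 16693104) (l 16686416))) (a (a (c (a (l 16716624) (l 16705448)) (l 16699104)) (c (b (l 16702080) (l 16706736)) (l 16697496))) (a (c (b (l 16700760) (l 16705440)) (l 16695952)) (c (b (l 16699488) (l 16714680)) (l 16694448)))))))), by decide +kernel⟩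

def k25_pm_022_a : ∃ t, chk3 f_pm_022_a t 41 14 1 = true :=
  ⟨(a (b (c (l 16618512) (l 16606272)) (c (c (l 16643472) (l 16640872)) (l 16636808))) (c (b (a (l 16606176) (c (l 16636960) (l 16635848))) (a (l 16640472) (a (l 16639576) (c (l 16640408) (l 16637352))))) (b (a (l 16603960) (c (l 16634584) (l 16643656))) (a (l 16613584) (a (l 16612432) (l 16632560)))))), by decide +kernel⟩

def k26_pm_022_a : ∃ t, chk3 f_pm_022_a t 41 30 1 = true :=
  ⟨(c (a (c (b (l 16650320) (l 16669592)) (l 16697280)) (a (c (l 16679536) (l 16674608)) (a (c (l 16678816) (l 16673744)) (c (b (l 16647488) (l 16687984)) (b (l 16642872) (l 16661304)))))) (a (b (l 16639928) (l 16656600)) (a (l 16688072) (a (l 16686984) (b (l 16635800) (l 16673600)))))), by decide +kernel⟩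

def k27_pm_022_a : ∃ t, chk3 f_pm_022_a t 82 31 1 = true :=
  ⟨(b (c (c (b (l 16684424) (l 16694560)) (l 16704224)) (c (l 16676960) (l 16670640))) (c (b (c (c (l 16727696) (l 16703160)) (c (l 16699592) (l 16696024))) (a (c (c (b (l 16715080) (c (l 14) (a (l 16719712) (l 16724632)))) (b (l 16711352) (b (l 16715296) (c (l 16724176) (l 16716968))))) (b (l 16705744) (c (b (l 16711448) (l 16719264)) (l 16708840)))) (c (c (b (l 16714464) (l 14)) (b (l 16710608) (a (c (l 16717080) (l 16715088)) (c (l 16716752) (l 16714728))))) (b (l 16704824) (c (a (l 16712104) (l 16711696)) (l 16707888)))))) (b (c (l 16690656) (l 16683488)) (a (c (c (l 16702536) (l 16698720)) (l 16692992)) (c (c (l 16711936) (l 16697504)) (l 16691592)))))), by decide +kernel⟩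

def k28_pm_022_a : ∃ t, chk3 f_pm_022_a t 166 31 1 = true :=
  ⟨(b (c (c (l 16709264) (l 16681704)) (l 16692728)) (c (b (c (c (l 16705784) (l 16702040)) (l 16696424)) (c (c (l 14) (b (l 16709952) (a (c (l 16721680) (l 16714384)) (b (l 16713760) (c (l 14) (l 16715400)))))) (a (b (l 16704152) (c (l 16716544) (l 16707192))) (b (l 16703728) (c (a (l 16711016) (l 16710824)) (l 16706760)))))) (c (b (l 16688912) (b (l 16696000) (c (b (l 16701648) (l 16709336)) (l 16698728)))) (b (l 16681384) (b (l 16688024) (l 16702992)))))), by decide +kernel⟩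

def k29_pm_022_a : ∃ t, chk3 f_pm_022_a t 167 62 1 = true :=
  ⟨(c (a (c (l 16708688) (l 16680960)) (b (c (l 16703072) (l 16675536)) (c (c (l 16715216) (l 16711640)) (l 16706264)))) (a (l 16691736) (c (a (l 16705128) (l 16673344)) (l 16687560)))), by decide +kernel⟩

def k30_pm_022_a : ∃ t, chk3 f_pm_022_a t 167 63 1 = true :=
  ⟨(c (b (c (c (l 14) (a (l 16701512) (a (a (a (l 16701248) (l 16722176)) (l 16701128)) (l 16701000)))) (a (l 16716728) (a (a (a (l 16695448) (a (l 16695400) (l 16695376))) (l 16695304)) (l 16695144)))) (a (c (c (l 14) (c (b (l 16710488) (l 14)) (b (l 16708448) (a (l 16713808) (a (l 16713688) (l 16713616)))))) (b (c (l 16705392) (l 16701312)) (a (c (l 16715888) (l 16706424)) (c (a (l 16710504) (l 16715664)) (l 16716712))))) (c (c (l 14) (c (l 14) (a (a (a (b (l 16708192) (l 16713552)) (b (a (l 16708160) (l 16708136)) (a (l 16713520) (a (a (l 16713512) (b (l 16712152) (c (l 14) (l 16714312)))) (l 16713496))))) (l 16721256)) (l 16715896)))) (b (a (a (a (l 16703056)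 (a (l 16703024) (c (l 16705048) (l 16700936)))) (l 16702928)) (l 16702776)) (c (a (a (a (l 16715592) (a (l 16715560) (a (a (l 16710296) (b (l 16708976) (c (l 16712688) (l 16710528)))) (l 16710288)))) (l 16710232)) (l 16710104)) (a (a (a (l 16706080) (a (l 16706040) (a (a (l 16706024) (l 16716496)) (l 16706000)))) (l 16705944)) (l 16705792))))))) (b (a (c (l 16688072) (l 16680368)) (a (a (a (l 16704784) (c (l 16708600) (l 16679848))) (l 16683616)) (l 16704360))) (a (a (c (b (l 16695280) (l 16700096)) (l 16689400)) (c (c (l 16710008) (l 16695352)) (l 16689088))) (c (a (a (a (b (l 16694840) (l 16699672)) (a (b (l 16694792) (l 16710112)) (b (l 16694752) (c (b (l 16700496) (c (l 16714536) (l 16701888))) (l 16697448))))) (l 16707576)) (b (l 16694472) (l 16699320))) (a (a (a (l 16688872) (b (l 16707504) (a (l 16691064) (l 16701512)))) (l 16688664)) (l 16688424)))))), by decide +kernel⟩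

def k31_pm_022_a : ∃ t, chk3 f_pm_022_a t 21 6 1 = true :=
  ⟨(b (c (a (b (c (l 16554216) (l 16549664)) (c (l 16553016) (l 16549712))) (b (c (l 16513856) (l 16509344)) (c (l 16532568) (l 16508456)))) (a (b (l 16543424) (l 16545288)) (b (l 16524304) (l 16525384)))) (c (a (b (c (l 16551296) (l 16549368)) (c (l 16568472) (l 16568912))) (b (l 16539088) (l 16564000))) (b (a (l 16546944) (l 16536632)) (a (l 16569160) (l 16563416))))), by decide +kernel⟩

def k32_pm_022_a : ∃ t, chk3 f_pm_022_a t 21 14 1 = true :=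
  ⟨(c (b (a (c (l 16601880) (l 16600464)) (l 16607176)) (a (c (l 16637480) (l 16634096)) (c (l 16633816) (l 16608792)))) (b (a (l 16598024) (l 16592352)) (a (l 16628792) (l 16623408)))), by decide +kernel⟩

def k33_pm_022_a : ∃ t, chk3 f_pm_022_a t 21 30 1 = true :=
  ⟨(b (c (a (c (l 16644896) (l 16639896)) (c (l 16641752) (l 16636000))) (a (l 16632232) (l 16627160))) (c (a (c (l 16664664) (l 16658528)) (c (l 16662112) (l 16655136))) (a (l 16670184) (l 16644528)))), by decide +kernel⟩

def k34_pm_022_a : ∃ t, chk3 f_pm_022_a t 21 31 1 = true :=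
  ⟨(b (c (a (c (a (l 16707224) (l 16706040)) (a (l 16679120) (l 16677480))) (c (b (l 16677920) (l 14)) (b (l 16669984) (l 16680192)))) (a (c (l 16691528) (l 16663144)) (c (l 16687736) (l 16658408)))) (c (b (c (a (c (l 14) (a (l 16700176) (l 16699104))) (l 14)) (a (a (l 16694112) (l 16692680)) (c (l 16713952) (l 16688328)))) (c (c (l 14) (c (l 14) (a (a (b (l 16707168) (b (l 16711232) (a (l 16714312) (l 14)))) (l 14)) (l 14)))) (b (a (c (a (l 16703960) (l 16702760)) (a (l 16699672) (l 16698224))) (c (a (l 16701792) (l 14)) (a (l 16696992) (l 16695984)))) (a (b (c (a (l 16707928) (l 16706792)) (a (l 16703512) (l 16702128))) (c (a (c (a (l 16712096) (l 16711520)) (a (l 16709880) (l 16709240))) (c (a (l 16711000) (l 14)) (a (l 16708656) (l 16708128)))) (a (c (l 16707216) (l 16704976)) (c (l 16705936) (l 16703552))))) (a (c (a (c (l 14) (l 16706296)) (l 14)) (b (l 16700960) (c (a (l 16705184) (l 16704712)) (l 16702368)))) (c (l 14) (a (c (l 16702936) (l 16700344)) (c (l 14) (l 16699912)))))))))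 (b (a (c (a (l 16686024) (l 16684096)) (l 16676400)) (c (a (l 16682360) (l 16680840)) (l 16672008))) (a (c (a (b (l 16693240) (c (b (l 16699104) (l 16701600)) (l 16695896))) (b (l 16691408) (c (b (l 16697456) (l 16699992)) (l 16694008)))) (a (b (l 16684656) (l 16689216)) (b (l 16682312) (l 16686936)))) (c (b (a (l 16689792) (l 16688392)) (a (c (a (l 16697704) (l 16697056)) (l 16692336)) (c (a (l 16696456) (l 16695928)) (l 16690888)))) (a (a (l 16683080) (l 16692568)) (c (l 16693696) (l 16678056)))))))), by decide +kernel⟩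

def k35_pm_022_a : ∃ t, chk3 f_pm_022_a t 11 6 1 = true :=
  ⟨(a (b (c (a (b (l 16513984) (l 16511328)) (c (l 16576016) (l 16492816))) (a (l 16511400) (l 16509072))) (c (b (c (l 16544504) (l 16545888)) (c (l 16576296) (l 16575776))) (b (l 16547208) (l 16579616)))) (b (c (a (b (l 16548880) (l 16556824)) (b (l 16708560) (l 16712216))) (b (l 16485096) (l 16507704))) (c (a (b (l 16568792) (l 16586000)) (b (l 16719136) (l 16730432))) (b (l 16533488) (l 16561952))))), by decide +kernel⟩

def k36_pm_022_a : ∃ t, chk3 f_pm_022_a t 11 14 1 = true :=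
  ⟨(a (c (b (a (l 16592024) (l 16587352)) (a (c (l 16609200) (l 16604520)) (c (l 16656448) (l 16600736)))) (b (c (l 16605592) (l 16602408)) (a (l 16618136) (l 16592328)))) (c (b (a (l 16609968) (l 16747536)) (c (a (l 16797992) (l 16914248)) (l 16637680))) (b (l 16593344) (a (l 16588000) (l 16584096))))), by decide +kernel⟩

def k37_pm_022_a : ∃ t, chk3 f_pm_022_a t 11 30 1 = true :=
  ⟨(a (c (c (b (l 16668656) (a (l 16660152) (l 16709080))) (a (l 16673872) (l 16661008))) (a (b (l 16622544) (l 16640392)) (b (l 16618496) (l 16636992)))) (c (a (c (b (l 16819512) (l 16836936)) (l 16659432)) (c (b (l 16929880) (l 16942872)) (l 16652744))) (a (b (l 16615160) (l 16634352)) (b (l 16612448) (l 16632488))))), by decide +kernel⟩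

def k38_pm_022_a : ∃ t, chk3 f_pm_022_a t 22 31 1 = true :=
  ⟨(b (c (c (b (a (l 16676544) (l 16728552)) (l 14)) (a (l 16693952) (l 16692744))) (a (c (l 16663704) (l 16654376)) (c (l 16661480) (l 16651136)))) (c (a (c (l 14) (c (l 14) (b (l 16686552) (a (b (l 16695208) (a (c (l 14) (l 16699544)) (l 14))) (l 14))))) (l 14)) (b (a (c (a (l 16679520) (l 16678448)) (l 16668408)) (c (c (l 16680032) (l 16674312)) (l 16665704))) (c (c (b (a (a (l 16689880) (l 16689088)) (a (l 16688560) (l 14))) (a (a (b (l 16693856) (c (l 16703168) (l 16695144))) (a (a (l 16694784) (l 16705112)) (c (l 14) (l 16692944)))) (a (a (c (l 14) (l 16692688)) (l 14)) (l 14)))) (b (a (l 16683832) (l 16682240)) (a (a (b (l 16688392) (l 16690968)) (b (l 16687400) (l 16695264))) (a (a (l 16688184) (l 16687880)) (a (l 16692896) (a (l 16687528) (l 16687456))))))) (b (a (a (l 16676552) (l 16675072)) (c (l 16676216) (l 16670192))) (a (a (c (l 16684160) (l 16678640)) (c (l 16682912) (l 16677112))) (c (a (l 16681912) (b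 (l 16679848) (l 16682480))) (a (l 16675824) (l 16674784))))))))), by decide +kernel⟩

def k39_pm_022_a : ∃ t, chk3 f_pm_022_a t 23 31 1 = true :=
  ⟨(b (c (c (a (b (l 16851720) (l 14)) (c (l 17019024) (l 16897096))) (a (l 16692544) (l 16682768))) (a (c (l 16660192) (l 16648768)) (c (l 16659776) (l 16647224)))) (c (a (l 14) (a (l 14) (c (c (l 17053608) (l 14)) (l 14)))) (b (c (a (c (l 14) (l 16673376)) (l 14)) (a (l 16663920) (l 16663096))) (b (c (a (c (l 14) (l 16692128)) (l 14)) (a (c (l 16675040) (l 16668432)) (c (l 16674896) (l 16667688)))) (c (c (l 14) (a (a (b (l 16685944) (c (l 14) (l 16692296))) (l 14)) (l 14))) (a (c (a (a (l 16680792) (l 16680608)) (a (l 16680496) (l 16685688))) (a (l 16674000) (l 16673472))) (c (a (b (l 16679088) (c (l 14) (l 16680072))) (l 14)) (a (b (l 16671864) (l 16685064)) (a (l 16673224) (l 16673304)))))))))), by decide +kernel⟩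

def k40_pm_022_a : ∃ t, chk3 f_pm_022_a t 6 2 1 = true :=
  ⟨(a (b (a (c (b (a (l 16856536) (l 16970560)) (a (l 16853024) (l 16966560))) (b (l 16453696) (l 16450688))) (c (b (l 17103480) (l 17099176)) (b (l 16510864) (l 16510760)))) (c (a (b (a (l 16847160) (l 16959216)) (a (l 16820176) (l 16950648))) (b (l 17090496) (l 16974560))) (a (b (a (l 16430216) (l 16422240)) (c (l 16444368) (l 16438816))) (b (l 16513144) (l 16520424))))) (b (a (c (l 17226064) (b (l 16719296) (l 16717872))) (c (l 17310616) (b (l 16867432) (l 16865256)))) (a (c (b (l 17214976) (l 17202232)) (b (l 16716688) (l 16718128))) (c (b (l 17299424) (l 17286000)) (b (l 16861792) (l 16859464)))))), by decide +kernel⟩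

def k41_pm_022_a : ∃ t, chk3 f_pm_022_a t 12 3 1 = true :=
  ⟨(b (c (a (b (a (l 16733840) (l 16944336)) (b (a (l 16842424) (l 16944152)) (a (l 16849320) (l 16947744)))) (b (c (l 17202320) (l 16936112)) (b (l 17065000) (l 17044128)))) (b (a (a (l 16461840) (l 16451480)) (a (l 16478344) (l 16590104))) (a (a (l 16537648) (l 16509040)) (b (l 16557992) (l 16578880))))) (b (a (c (b (a (l 16840256) (l 16955712)) (a (c (l 17010416) (l 16748288)) (l 16822240))) (b (l 16562288) (a (l 16580632) (l 16577376)))) (c (b (c (l 17184392) (l 16953216)) (c (l 17185672) (l 16968224))) (b (l 16627392) (a (l 16593656) (l 16686680))))) (b (c (a (a (c (l 17026112) (b (l 16774088) (l 16794344))) (c (l 17101232) (l 16876880))) (c (l 17191568) (a (l 16955296) (l 17021744)))) (b (a (l 16640720) (a (l 16628824) (l 16717448))) (a (a (l 16631320) (l 16630840)) (a (l 16655816) (l 16741224))))) (c (a (a (b (c (l 17042584) (b (l 16811184) (l 14))) (c (b (l 17031552) (c (l 17112360) (l 16986264))) (l 14))) (c (b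 (l 17113520) (l 17081984)) (b (l 16841360) (a (l 14) (c (l 16993056) (l 14)))))) (a (c (l 17177024) (b (l 16978216) (a (b (l 16974696) (l 16921760)) (l 16991272)))) (c (l 17226304) (b (l 17041152) (l 16972728))))) (b (a (a (c (l 16660280) (l 16646552)) (c (l 16674072) (l 16646760))) (a (c (l 16720344) (l 16647832)) (c (l 16858888) (l 16676600)))) (c (c (a (l 14) (a (l 14) (a (l 14) (l 16942664)))) (l 14)) (c (l 14) (a (a (b (l 16659536) (a (c (l 14) (a (l 16668704) (l 16679336))) (l 14))) (l 14)) (l 14))))))))), by decide +kernel⟩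

def k42_pm_022_a : ∃ t, chk3 f_pm_022_a t 13 3 1 = true :=
  ⟨(b (c (a (b (l 17189216) (c (l 17288352) (l 17071712))) (b (l 17271648) (l 17260104))) (a (b (l 16726112) (b (l 16739600) (l 16754064))) (b (l 16778224) (a (l 16847000) (l 16902032))))) (b (c (a (b (l 17179360) (l 17036424)) (c (l 17344192) (l 17169432))) (a (b (l 16774320) (a (l 16766128) (l 16834256))) (b (l 16854800) (a (l 16892960) (l 16943408))))) (c (b (a (c (l 17280256) (l 17103152)) (c (l 17342128) (l 17184688))) (a (c (l 17286160) (b (l 17118672) (a (l 17108224) (l 17152328)))) (a (l 17174464) (l 17286752)))) (b (a (a (b (l 16793416) (l 16793688)) (b (l 16858816) (l 16857088))) (a (c (l 17004920) (l 16842952)) (l 16867104))) (a (a (b (c (l 16923920) (l 16752968)) (c (a (b (l 16925336) (l 16874408)) (l 16918304)) (l 14))) (b (c (l 16979976) (l 16819312)) (a (c (l 16987168) (l 14)) (c (l 17012192) (c (l 16899616) (l 14)))))) (b (a (c (l 17028320) (l 16877048)) (c (l 17069864) (l 16927112))) (c (a (l 17046456)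 (l 17086512)) (a (b (l 16896208) (a (c (l 16932656) (l 14)) (l 16922328))) (b (l 16944872) (l 16894544)))))))))), by decide +kernel⟩

def k43_pm_022_a : ∃ t, chk3 f_pm_022_a t 7 1 1 = true :=
  ⟨(b (a (a (b (c (l 17366376) (l 16973608)) (c (l 17349664) (b (l 16969720) (l 16966928)))) (b (c (l 17400712) (l 17053624)) (c (l 17386856) (l 17050216)))) (b (l 17131840) (c (l 17412360) (l 17133824)))) (b (a (a (c (b (l 17330440) (l 17318712)) (b (l 16968288) (a (l 16953576) (l 17001760)))) (c (l 17363112) (b (l 17051952) (l 17061888)))) (c (a (l 17385552) (l 17392384)) (b (l 17136736) (l 17145752)))) (a (b (c (a (a (l 17300528) (l 17325104)) (l 17352552)) (a (a (b (l 16972200) (l 16991712)) (l 17027792)) (l 17085440))) (c (b (a (l 17317056) (l 17353168)) (a (c (l 17385928) (l 17260712)) (l 17356168))) (b (a (a (l 17018032) (l 17061480)) (l 17115224)) (a (b (a (l 17000408) (l 17083672)) (c (l 17142752) (a (l 16997672) (l 17041912)))) (b (l 17134760) (c (l 17201432) (l 17097152))))))) (b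 (c (l 17378224) (a (l 17143312) (l 17182168))) (c (a (l 17371320) (l 17373472)) (a (b (l 17168304) (c (l 17235512) (l 17144200))) (b (l 17202832) (l 17219536)))))))), by decide +kernel⟩

theorem s44_pm_022_a : ∃ t, chk3 f_pm_022_a t 6 3 1 = true := ex3_a k41_pm_022_a k42_pm_022_a

theorem s45_pm_022_a : ∃ t, chk3 f_pm_022_a t 6 1 1 = true := ex3_b k40_pm_022_a s44_pm_022_a

theorem s46_pm_022_a : ∃ t, chk3 f_pm_022_a t 3 1 1 = true := ex3_a s45_pm_022_a k43_pm_022_a

theorem s47_pm_022_a : ∃ t, chk3 f_pm_022_a t 11 31 1 = true := ex3_a k38_pm_022_a k39_pm_022_a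

theorem s48_pm_022_a : ∃ t, chk3 f_pm_022_a t 11 15 1 = true := ex3_b k37_pm_022_a s47_pm_022_a

theorem s49_pm_022_a : ∃ t, chk3 f_pm_022_a t 11 7 1 = true := ex3_b k36_pm_022_a s48_pm_022_a

theorem s50_pm_022_a : ∃ t, chk3 f_pm_022_a t 11 3 1 = true := ex3_b k35_pm_022_a s49_pm_022_a

theorem s51_pm_022_a : ∃ t, chk3 f_pm_022_a t 21 15 1 = true := ex3_b k33_pm_022_a k34_pm_022_a

theorem s52_pm_022_a : ∃ t, chk3 f_pm_022_a t 21 7 1 = true := ex3_b k32_pm_022_a s51_pm_022_a

theorem s53_pm_022_a : ∃ t, chk3 f_pm_022_a t 21 3 1 = true := ex3_b k31_pm_022_a s52_pm_022_a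

theorem s54_pm_022_a : ∃ t, chk3 f_pm_022_a t 167 31 1 = true := ex3_b k29_pm_022_a k30_pm_022_a

theorem s55_pm_022_a : ∃ t, chk3 f_pm_022_a t 83 31 1 = true := ex3_a k28_pm_022_a s54_pm_022_a

theorem s56_pm_022_a : ∃ t, chk3 f_pm_022_a t 41 31 1 = true := ex3_a k27_pm_022_a s55_pm_022_a

theorem s57_pm_022_a : ∃ t, chk3 f_pm_022_a t 41 15 1 = true := ex3_b k26_pm_022_a s56_pm_022_a

theorem s58_pm_022_a : ∃ t, chk3 f_pm_022_a t 41 7 1 = true := ex3_b k25_pm_022_a s57_pm_022_a

theorem s59_pm_022_a : ∃ t, chk3 f_pm_022_a t 40 7 1 = true := ex3_b k23_pm_022_a k24_pm_022_a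

theorem s60_pm_022_a : ∃ t, chk3 f_pm_022_a t 20 7 1 = true := ex3_a s59_pm_022_a s58_pm_022_a

theorem s61_pm_022_a : ∃ t, chk3 f_pm_022_a t 20 3 1 = true := ex3_b k22_pm_022_a s60_pm_022_a

theorem s62_pm_022_a : ∃ t, chk3 f_pm_022_a t 10 3 1 = true := ex3_a s61_pm_022_a s53_pm_022_a

theorem s63_pm_022_a : ∃ t, chk3 f_pm_022_a t 5 3 1 = true := ex3_a s62_pm_022_a s50_pm_022_a

theorem s64_pm_022_a : ∃ t, chk3 f_pm_022_a t 19 15 1 = true := ex3_a k20_pm_022_a k21_pm_022_a

theorem s65_pm_022_a : ∃ t, chk3 f_pm_022_a t 19 7 1 = true := ex3_b k19_pm_022_a s64_pm_022_a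

theorem s66_pm_022_a : ∃ t, chk3 f_pm_022_a t 18 15 1 = true := ex3_b k17_pm_022_a k18_pm_022_a

theorem s67_pm_022_a : ∃ t, chk3 f_pm_022_a t 18 7 1 = true := ex3_b k16_pm_022_a s66_pm_022_a

theorem s68_pm_022_a : ∃ t, chk3 f_pm_022_a t 9 7 1 = true := ex3_a s67_pm_022_a s65_pm_022_a

theorem s69_pm_022_a : ∃ t, chk3 f_pm_022_a t 4 7 1 = true := ex3_a k15_pm_022_a s68_pm_022_a

theorem s70_pm_022_a : ∃ t, chk3 f_pm_022_a t 38 6 1 = true := ex3_b k12_pm_022_a k13_pm_022_a

theorem s71_pm_022_a : ∃ t, chk3 f_pm_022_a t 19 6 1 = true := ex3_a s70_pm_022_a k14_pm_022_a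

theorem s72_pm_022_a : ∃ t, chk3 f_pm_022_a t 9 6 1 = true := ex3_a k11_pm_022_a s71_pm_022_a

theorem s73_pm_022_a : ∃ t, chk3 f_pm_022_a t 4 6 1 = true := ex3_a k10_pm_022_a s72_pm_022_a

theorem s74_pm_022_a : ∃ t, chk3 f_pm_022_a t 4 3 1 = true := ex3_b s73_pm_022_a s69_pm_022_a

theorem s75_pm_022_a : ∃ t, chk3 f_pm_022_a t 2 3 1 = true := ex3_a s74_pm_022_a s63_pm_022_a

theorem s76_pm_022_a : ∃ t, chk3 f_pm_022_a t 41 5 1 = true := ex3_a k6_pm_022_a k7_pm_022_a

theorem s77_pm_022_a : ∃ t, chk3 f_pm_022_a t 83 4 2 = true := ex3_b k3_pm_022_a k4_pm_022_a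

theorem s78_pm_022_a : ∃ t, chk3 f_pm_022_a t 41 4 2 = true := ex3_a k2_pm_022_a s77_pm_022_a

theorem s79_pm_022_a : ∃ t, chk3 f_pm_022_a t 41 4 1 = true := ex3_c s78_pm_022_a k5_pm_022_a

theorem s80_pm_022_a : ∃ t, chk3 f_pm_022_a t 41 2 1 = true := ex3_b s79_pm_022_a s76_pm_022_a

theorem s81_pm_022_a : ∃ t, chk3 f_pm_022_a t 20 2 1 = true := ex3_a k1_pm_022_a s80_pm_022_a

theorem s82_pm_022_a : ∃ t, chk3 f_pm_022_a t 10 2 1 = true := ex3_a s81_pm_022_a k8_pm_022_a

theorem s83_pm_022_a : ∃ t, chk3 f_pm_022_a t 5 2 1 = true := ex3_a s82_pm_022_a k9_pm_022_a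

theorem s84_pm_022_a : ∃ t, chk3 f_pm_022_a t 2 2 1 = true := ex3_a k0_pm_022_a s83_pm_022_a

theorem s85_pm_022_a : ∃ t, chk3 f_pm_022_a t 2 1 1 = true := ex3_b s84_pm_022_a s75_pm_022_a

theorem s86_pm_022_a : ∃ t, chk3 f_pm_022_a t 1 1 1 = true := ex3_a s85_pm_022_a s46_pm_022_a

theorem c_pm_022_a : CertF 0 536870912 0 536870912 201326592 134217728 true true false .pp 0 2 2
    ndF0q0 ndF2q2a pcF2 cut_pm_022_a Ext.none :=
  certF2 (fam := true) (s1 := true) (s2 := false) (a := 0) (b := 2) (c := 2) (cn := .pp) (n1 := ndF0q0) (n2 := ndF2q2a) (pc := pcF2) (cut := cut_pm_022_a) (xt := Ext.none) (P1 := 0) (W1 := 536870912) (P2 := 0) (W2 := 536870912) (P3 := 201326592) (W3 := 134217728)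
    rfl (fun _ => rfl) s86_pm_022_a

noncomputable def cut_pm_022_b : Cut := Cut.of [[⟨0, 0, 0, 67108864⟩, ⟨1, 1, 0, 67108864⟩, ⟨2, 1, 0, 67108864⟩], [⟨0, 0, 1, 67108864⟩, ⟨1, 1, 0, 16777216⟩, ⟨2, 1, 1, 67108864⟩]]

noncomputable def f_pm_022_b : ℕ → ℕ → ℕ → ℕ → Bool := onCell 0 536870912 1073741824 536870912 201326592 134217728
    (rowF 1 true true false .pp 0 2 2 (qsf 0 536870912 1239849684 370763052 2) ndF0q0 ndF2q2b pcF2 cut_pm_022_b Ext.none)

def k0_pm_022_b : ∃ t, chk3 f_pm_022_b t 4 4 1 = true :=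
  ⟨(l 1), by decide +kernel⟩

def k1_pm_022_b : ∃ t, chk3 f_pm_022_b t 4 10 1 = true :=
  ⟨(b (b (l 1) (a (b (l 1) (a (c (b (l 1) (a (a (b (l 1) (c (c (b (b (b (l 1) (b (l 1) (l 16541096))) (l 16540784)) (l 16539888)) (b (b (b (l 1) (b (l 1) (l 16536968))) (l 16536624)) (l 16535696))) (b (b (b (l 1) (b (l 1) (c (l 16532896) (l 16528888)))) (l 16530520)) (l 16529528)))) (l 1)) (l 1))) (b (l 1) (a (a (b (l 1) (c (b (b (b (l 1) (b (l 1) (l 16523000))) (l 16522600)) (l 16521536)) (b (b (b (l 1) (b (l 1) (l 16515368))) (l 16514936)) (l 16513808)))) (l 1)) (l 1)))) (l 1))) (l 1))) (a (c (a (b (c (a (a (c (b (l 16534832) (l 16525752)) (b (l 16530392) (l 16520832))) (c (l 16553512) (l 16549160))) (b (l 1) (l 16527120))) (a (b (a (c (l 16526016) (l 16521720)) (l 16526344)) (c (l 16517176) (l 16512616))) (b (l 1) (l 16519320)))) (c (b (a (c (l 16518112) (l 16512856)) (l 16518344)) (a (c (l 16510360) (l 16504568)) (l 16510264))) (a (a (c (l 16523592) (l 16518120)) (l 16523184)) (l 16526360))))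 (a (b (l 1) (c (l 16516568) (l 16508800))) (l 1))) (a (b (a (c (a (b (l 16515416) (l 16504320)) (b (l 16518632) (l 16507456))) (b (a (l 16507264) (l 16511232)) (l 16507872))) (c (b (l 1) (l 16511896)) (l 16542808))) (a (c (b (a (l 16493768) (l 16496808)) (l 16485320)) (b (l 16485936) (l 16475040))) (c (l 16496496) (l 16488104)))) (b (l 1) (a (l 16519040) (l 1))))) (l 1))), by decide +kernel⟩

def k2_pm_022_b : ∃ t, chk3 f_pm_022_b t 4 11 1 = true :=
  ⟨(b (a (c (a (b (c (a (c (a (l 16499800) (l 16501280)) (b (l 16497024) (l 16490200))) (l 16515712)) (a (b (a (l 16486536) (l 16488880)) (l 16490552)) (l 16488360))) (c (a (a (b (l 16491072) (l 16536520)) (l 16484904)) (c (l 16735568) (l 16484600))) (a (b (l 16473032) (l 16466728)) (l 16474168)))) (b (c (a (l 16501656) (l 16502224)) (l 16513968)) (c (a (l 16584848) (l 16575896)) (l 16499512)))) (a (a (b (b (c (l 16475928) (l 16464688)) (c (l 16467144) (l 16454896))) (c (a (l 16453832) (l 16456864)) (a (l 16439600) (l 16443352)))) (b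 (c (l 16477400) (l 16467104)) (c (l 16460976) (l 16448584)))) (b (c (l 16505432) (l 16497536)) (a (l 16460072) (l 16464696))))) (b (l 1) (a (a (c (l 16505808) (l 16468600)) (l 1)) (l 1)))) (a (c (a (c (b (a (b (c (l 16930520) (l 16660952)) (l 16757816)) (l 16657696)) (a (c (l 17175072) (l 16929832)) (l 17020304))) (b (a (b (l 16461232) (l 16456624)) (l 16462992)) (a (l 16463552) (l 16544424)))) (c (b (a (l 16802736) (l 16783568)) (l 16977096)) (b (l 16467112) (l 16526200)))) (a (b (a (c (l 16462864) (l 16425712)) (c (l 16447392) (l 16432736))) (c (a (l 16431968) (l 16437296)) (a (l 16413320) (l 16420200)))) (b (c (l 16453904) (l 16441640)) (c (l 16443584) (l 16428936))))) (c (a (b (c (l 16762312) (l 16468904)) (c (l 16930472) (l 16514440))) (b (l 1) (l 16688160))) (a (b (l 16475840) (l 16442792)) (a (l 16493672) (l 1)))))), by decide +kernel⟩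

def k3_pm_022_b : ∃ t, chk3 f_pm_022_b t 5 2 1 = true :=
  ⟨(l 1), by decide +kernel⟩

def k4_pm_022_b : ∃ t, chk3 f_pm_022_b t 4 6 1 = true :=
  ⟨(b (a (c (b (c (b (a (c (l 17318432) (l 17093784)) (l 17137328)) (a (l 17352856) (l 17277040))) (a (b (a (b (l 16718264) (l 16814416)) (l 16744272)) (a (l 16946752) (l 16918688))) (b (l 16714888) (l 16880832)))) (c (b (l 17438848) (l 17547408)) (b (a (l 17087600) (l 17027512)) (a (l 17223864) (l 17157544))))) (b (a (b (c (a (l 16426312) (l 16431328)) (a (l 16405016) (l 16411624))) (c (l 16441224) (l 16405160))) (b (c (l 16437232) (l 16420040)) (l 16425736))) (a (b (c (a (l 16703728) (l 16682104)) (l 16408544)) (c (l 16855528) (l 16421808))) (b (l 16466128) (l 16568064))))) (c (b (a (b (c (l 17078848) (l 16686200)) (l 16856984)) (b (l 16810464) (l 16981664))) (a (c (l 17378848) (l 17038720)) (c (l 17311616) (l 16992552)))) (b (a (b (l 16434624) (l 16431216)) (b (l 16437128) (l 16432848))) (a (b (l 16448168) (l 16600184)) (b (l 16442000)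 (l 16579536)))))) (b (c (a (c (l 17683736) (b (l 17307832) (l 17411808))) (c (l 17522832) (l 17227832))) (a (b (a (c (l 17000592) (l 16655272)) (l 16716832)) (a (c (l 17129896) (l 16808864)) (l 16914176))) (a (b (l 16738544) (l 16864736)) (l 16681456)))) (c (a (b (l 17648384) (l 17718160)) (b (l 17496784) (l 17567136))) (a (b (a (c (l 17244952) (l 16947000)) (l 17035632)) (a (l 17210016) (l 17145944))) (b (a (l 16979912) (l 16930288)) (l 17036456)))))), by decide +kernel⟩

def k5_pm_022_b : ∃ t, chk3 f_pm_022_b t 5 6 1 = true :=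
  ⟨(b (a (b (a (c (b (l 1) (l 16951760)) (l 25266096391)) (l 1)) (c (a (l 16938168) (l 52646989399)) (a (l 16511152) (l 16545880)))) (l 1)) (b (b (a (c (l 17216024) (l 16676896)) (l 1)) (a (c (l 17293632) (l 16776344)) (c (l 56405541063) (l 24729371623)))) (c (a (c (l 17519616) (l 17278488)) (a (l 17315488) (l 17271304))) (a (b (l 16870048) (l 16958672)) (a (l 16847888) (l 34930061351)))))), by decide +kernel⟩

def k6_pm_022_b : ∃ t, chk3 f_pm_022_b t 2 7 1 = true :=
  ⟨(b (a (b (c (a (b (l 17771040) (l 17810688)) (l 17646136)) (a (b (c (l 17389848) (l 17133288)) (l 17320824)) (b (l 17140112) (l 17204480)))) (c (a (l 17858904) (l 17723432)) (a (l 17388960) (l 17284448)))) (b (c (a (l 17511624) (l 38152407479)) (a (b (l 17035648) (l 17100056)) (b (l 16958984) (l 17019072)))) (a (c (l 17594744) (l 17183912)) (c (l 17477336) (l 17098856))))) (a (c (a (l 17936128) (l 17803496)) (a (l 17493872) (l 17398240))) (a (c (l 17681320) (l 17308448)) (c (l 17567640) (l 17225032))))), by decide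 +kernel⟩

def k7_pm_022_b : ∃ t, chk3 f_pm_022_b t 3 1 1 = true :=
  ⟨(a (b (l 1) (b (l 1) (a (b (b (c (l 182570622647) (l 161095186487)) (c (l 17382344) (l 17044712))) (c (l 17466544) (l 17156904))) (b (l 1) (l 218540737287))))) (l 1)), by decide +kernel⟩

theorem s8_pm_022_b : ∃ t, chk3 f_pm_022_b t 2 6 1 = true := ex3_a k4_pm_022_b k5_pm_022_b

theorem s9_pm_022_b : ∃ t, chk3 f_pm_022_b t 2 3 1 = true := ex3_b s8_pm_022_b k6_pm_022_b

theorem s10_pm_022_b : ∃ t, chk3 f_pm_022_b t 4 5 1 = true := ex3_b k1_pm_022_b k2_pm_022_b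

theorem s11_pm_022_b : ∃ t, chk3 f_pm_022_b t 4 2 1 = true := ex3_b k0_pm_022_b s10_pm_022_b

theorem s12_pm_022_b : ∃ t, chk3 f_pm_022_b t 2 2 1 = true := ex3_a s11_pm_022_b k3_pm_022_b

theorem s13_pm_022_b : ∃ t, chk3 f_pm_022_b t 2 1 1 = true := ex3_b s12_pm_022_b s9_pm_022_b

theorem s14_pm_022_b : ∃ t, chk3 f_pm_022_b t 1 1 1 = true := ex3_a s13_pm_022_b k7_pm_022_b

theorem c_pm_022_b : CertF 0 536870912 1239849684 370763052 201326592 134217728 true true false .pp 0 2 2
    ndF0q0 ndF2q2b pcF2 cut_pm_022_b Ext.none :=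
  certF1 (fam := true) (s1 := true) (s2 := false) (a := 0) (b := 2) (c := 2) (cn := .pp) (n1 := ndF0q0) (n2 := ndF2q2b) (pc := pcF2) (cut := cut_pm_022_b) (xt := Ext.none) (P1 := 0) (W1 := 536870912) (P2 := 1239849684) (W2 := 370763052) (P3 := 201326592) (W3 := 134217728)
    rfl (fun _ => rfl) s14_pm_022_b

noncomputable def f_pm_023_a : ℕ → ℕ → ℕ → ℕ → Bool := onCell 0 536870912 0 536870912 201326592 134217728
    (rowF 0 true true false .up 0 2 3 (qsf 0 536870912 0 536870912 3) ndF0q0 ndF2q2a pcF3 Cut.none Ext.none)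

def k0_pm_023_a : ∃ t, chk3 f_pm_023_a t 1 1 1 = true :=
  ⟨(a (l 1) (b (a (a (l 1) (c (l 177202394007) (a (l 195455276071) (l 189549691991)))) (a (c (l 17429960) (b (l 17200480) (l 17185336))) (b (l 17287552) (l 17287176)))) (a (b (l 1) (l 1)) (a (b (c (l 170759819479) (a (l 220688208103) (l 173980369847))) (c (l 201898189527) (b (l 222298766807) (l 1)))) (b (c (l 17383144) (b (l 17190208) (l 17188296))) (c (b (l 17384984) (l 136400011431)) (b (a (l 153579238183) (l 17195832)) (a (l 242699971991) (b (l 140694406871) (a (l 249142485399) (c (l 17252744) (l 141231372775)))))))))))), by decide +kernel⟩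

theorem c_pm_023_a : CertF 0 536870912 0 536870912 201326592 134217728 true true false .up 0 2 3
    ndF0q0 ndF2q2a pcF3 Cut.none Ext.none :=
  certF0 (fam := true) (s1 := true) (s2 := false) (a := 0) (b := 2) (c := 3) (cn := .up) (n1 := ndF0q0) (n2 := ndF2q2a) (pc := pcF3) (cut := Cut.none) (xt := Ext.none) (P1 := 0) (W1 := 536870912) (P2 := 0) (W2 := 536870912) (P3 := 201326592) (W3 := 134217728)
    rfl k0_pm_023_a

noncomputable def f_pm_023_b : ℕ → ℕ → ℕ → ℕ → Bool := onCell 1610612736 536870912 1239849684 370763052 201326592 134217728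
    (rowF 2 true true false .up 0 2 3 (qsf 0 536870912 1239849684 370763052 3) ndF0q0 ndF2q2b pcF3 Cut.none Ext.none)

def k0_pm_023_b : ∃ t, chk3 f_pm_023_b t 1 1 1 = true :=
  ⟨(a (a (b (b (a (c (b (l 17486136) (l 17553992)) (b (l 17221512) (l 17281944))) (c (l 17587720) (b (l 17221744) (l 17266768)))) (a (c (l 17650240) (b (l 17342368) (l 17398624))) (c (l 17581848) (l 17340576)))) (b (a (c (l 17767248) (l 17478856)) (l 17652232)) (a (c (l 17880280) (l 17585352)) (l 17756504)))) (b (b (a (b (l 17275504) (l 17316944)) (b (l 17205520) (l 17238088))) (a (b (l 17365488) (l 17418592)) (b (l 17281520) (l 17331608)))) (b (a (l 17496112) (l 17412296)) (a (l 17599144) (l 17514760))))) (b (a (b (l 2) (a (l 272832534359) (b (l 2) (l 17139880)))) (l 2)) (b (a (a (l 17333536) (b (l 17186016) (l 17237128))) (a (a (l 17137872) (l 17085488)) (l 2))) (a (a (l 17420408) (l 17314712)) (a (a (l 17235072) (l 17177256)) (l 4)))))), by decide +kernel⟩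

theorem c_pm_023_b : CertF 0 536870912 1239849684 370763052 201326592 134217728 true true false .up 0 2 3
    ndF0q0 ndF2q2b pcF3 Cut.none Ext.none :=
  certF2 (fam := true) (s1 := true) (s2 := false) (a := 0) (b := 2) (c := 3) (cn := .up) (n1 := ndF0q0) (n2 := ndF2q2b) (pc := pcF3) (cut := Cut.none) (xt := Ext.none) (P1 := 0) (W1 := 536870912) (P2 := 1239849684) (W2 := 370763052) (P3 := 201326592) (W3 := 134217728)
    rfl (fun _ => rfl) k0_pm_023_b

noncomputable def f_pm_033 : ℕ → ℕ → ℕ → ℕ → Bool := onCell 0 536870912 1610612736 536870912 201326592 134217728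
    (rowF 1 true true false .pnn 0 3 3 (qsf 0 536870912 1610612736 536870912 3) ndF0q0 ndF2q3 pcF3 Cut.none Ext.none)

def k0_pm_033 : ∃ t, chk3 f_pm_033 t 1 1 1 = true :=
  ⟨(b (a (b (a (c (l 136938356615) (b (a (l 17642568) (l 17564472)) (l 17622992))) (b (l 1) (l 298535876359))) (b (a (c (l 17897144) (l 17646472)) (l 149285785063)) (a (c (l 17899912) (l 17656616)) (c (l 17697880) (l 17485056))))) (b (l 1) (a (b (l 1) (l 279207929879)) (l 1)))) (b (a (a (b (b (l 17779360) (l 17764328)) (l 17728392)) (b (b (l 17596704) (l 17593896)) (l 17663216))) (a (b (c (l 17477624) (l 17308696)) (b (l 17395056) (l 17392736))) (b (l 1) (l 271154667447)))) (b (a (l 4) (a (l 17595520) (a (l 17230240) (l 17118072)))) (a (l 4) (l 4))))), by decide +kernel⟩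

theorem c_pm_033 : CertF 0 536870912 1610612736 536870912 201326592 134217728 true true false .pnn 0 3 3
    ndF0q0 ndF2q3 pcF3 Cut.none Ext.none :=
  certF1 (fam := true) (s1 := true) (s2 := false) (a := 0) (b := 3) (c := 3) (cn := .pnn) (n1 := ndF0q0) (n2 := ndF2q3) (pc := pcF3) (cut := Cut.none) (xt := Ext.none) (P1 := 0) (W1 := 536870912) (P2 := 1610612736) (W2 := 536870912) (P3 := 201326592) (W3 := 134217728)
    rfl (fun _ => rfl) k0_pm_033

noncomputable def cut_pm_101 : Cut := Cut.of [[⟨0, 1, 0, 67108864⟩, ⟨1, 0, 0, 67108864⟩, ⟨2, 1, 0, 67108864⟩]]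

noncomputable def f_pm_101 : ℕ → ℕ → ℕ → ℕ → Bool := onCell 536870912 536870912 0 536870912 201326592 134217728
    (rowF 2 true true false .npn 1 0 1 (qsf 536870912 536870912 0 536870912 1) ndF0q1 ndF2q0 pcF1 cut_pm_101 Ext.none)

def k0_pm_101 : ∃ t, chk3 f_pm_101 t 1 1 1 = true :=
  ⟨(a (l 3) (a (l 3) (b (b (a (l 3) (b (a (l 3) (a (l 3) (b (l 6) (l 3)))) (l 3))) (l 3)) (l 3)))), by decide +kernel⟩

theorem c_pm_101 : CertF 536870912 536870912 0 536870912 201326592 134217728 true true false .npn 1 0 1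
    ndF0q1 ndF2q0 pcF1 cut_pm_101 Ext.none :=
  certF2 (fam := true) (s1 := true) (s2 := false) (a := 1) (b := 0) (c := 1) (cn := .npn) (n1 := ndF0q1) (n2 := ndF2q0) (pc := pcF1) (cut := cut_pm_101) (xt := Ext.none) (P1 := 536870912) (W1 := 536870912) (P2 := 0) (W2 := 536870912) (P3 := 201326592) (W3 := 134217728)
    rfl (fun _ => rfl) k0_pm_101

noncomputable def cut_pm_102 : Cut := Cut.of [[⟨0, 1, 0, 67108864⟩, ⟨1, 0, 0, 67108864⟩, ⟨2, 1, 0, 67108864⟩]]

noncomputable def f_pm_102 : ℕ → ℕ → ℕ → ℕ → Bool := onCell 536870912 536870912 1073741824 536870912 201326592 134217728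
    (rowF 1 true true false .npp 1 0 2 (qsf 536870912 536870912 0 536870912 2) ndF0q1 ndF2q0 pcF2 cut_pm_102 Ext.none)

def k0_pm_102 : ∃ t, chk3 f_pm_102 t 2 1 1 = true :=
  ⟨(b (a (b (b (a (b (b (l 3) (b (a (l 3) (c (l 1363821518279) (l 451140531463))) (a (c (c (l 154184227031) (l 162237132647)) (l 173511220935)) (c (l 17491912) (l 17353600))))) (c (b (a (l 160626575303) (l 17479448)) (l 131635765847)) (a (l 159015883351) (l 17359120)))) (b (c (l 161767319351) (a (l 200958582983) (l 201495375463))) (c (l 17414336) (b (l 17282288) (l 17267208))))) (b (a (a (l 2) (l 17372920)) (l 17299912)) (a (l 2) (l 17311456)))) (b (b (a (l 2) (l 17368904)) (l 2)) (l 2))) (b (b (b (a (c (l 158009087831) (b (l 3) (l 196126672823))) (a (l 203642683575) (l 203105727463))) (a (c (l 17288096) (l 17233208)) (c (l 17175816) (l 17102544)))) (b (a (l 17202832) (l 17100136)) (a (l 17211672) (l 17064448)))) (b (b (a (l 17307968) (b (l 17039712) (l 17023400))) (l 17260760)) (l 83853481303)))) (b (a (l 2)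 (b (l 17124200) (l 2))) (l 2))), by decide +kernel⟩

def k1_pm_102 : ∃ t, chk3 f_pm_102 t 3 1 1 = true :=
  ⟨(b (a (b (a (b (a (b (l 202031910439) (l 17063880)) (b (l 205789868087) (l 17017280))) (b (l 17000544) (l 17067232))) (b (b (c (l 17178472) (c (l 199347257415) (l 210621625783))) (l 16949504)) (b (l 16907864) (l 17077312)))) (b (b (b (l 16966120) (a (l 16916792) (l 16879976))) (l 16963384)) (a (l 16839720) (l 16889776)))) (b (a (b (b (a (c (l 17001744) (l 192367858903)) (b (c (l 16942704) (l 16944328)) (l 16871272))) (a (l 16884352) (l 16840648))) (b (l 16818320) (b (l 16784320) (l 16773896)))) (b (b (b (a (a (l 16919112) (b (l 6) (l 16828544))) (l 6)) (a (l 16826320) (a (b (l 6) (l 16788744)) (l 6)))) (a (b (l 16806560) (l 16790280)) (b (a (l 16773928) (l 16747208)) (l 16800104)))) (b (a (l 16751296) (l 16771840)) (b (l 16803672) (l 16890872))))) (a (b (b (b (l 16778800) (l 17011176)) (l 16767536)) (l 16997808)) (b (b (b (l 16811056) (b (l 16747000) (l 16871120))) (l 16773624))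 (b (l 16720208) (l 16750552)))))) (b (b (a (a (l 16810256) (l 16879672)) (a (l 16934048) (b (l 16862248) (l 16953288)))) (a (a (l 16902256) (l 16972640)) (a (l 17028192) (l 17249048)))) (b (a (l 16989848) (c (l 17222672) (l 17055768))) (a (l 2) (l 17177976))))), by decide +kernel⟩

theorem s2_pm_102 : ∃ t, chk3 f_pm_102 t 1 1 1 = true := ex3_a k0_pm_102 k1_pm_102

theorem c_pm_102 : CertF 536870912 536870912 0 536870912 201326592 134217728 true true false .npp 1 0 2
    ndF0q1 ndF2q0 pcF2 cut_pm_102 Ext.none :=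
  certF1 (fam := true) (s1 := true) (s2 := false) (a := 1) (b := 0) (c := 2) (cn := .npp) (n1 := ndF0q1) (n2 := ndF2q0) (pc := pcF2) (cut := cut_pm_102) (xt := Ext.none) (P1 := 536870912) (W1 := 536870912) (P2 := 0) (W2 := 536870912) (P3 := 201326592) (W3 := 134217728)
    rfl (fun _ => rfl) s2_pm_102

noncomputable def f_pm_112 : ℕ → ℕ → ℕ → ℕ → Bool := onCell 536870912 536870912 1073741824 536870912 201326592 134217728
    (rowF 1 true true false .dn 1 1 2 (qsf 536870912 536870912 536870912 536870912 2) ndF0q1 ndF2q1 pcF2 Cut.none Ext.none)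

def k0_pm_112 : ∃ t, chk3 f_pm_112 t 1 1 1 = true :=
  ⟨(a (b (a (b (b (b (b (l 3) (a (a (c (l 87678812663) (c (l 81772988599) (b (l 3) (l 17108888)))) (c (l 266322661639) (c (l 270080568471) (l 271690955639)))) (l 1))) (a (c (b (a (l 17438200) (l 17466744)) (l 17470576)) (b (a (b (l 17173576) (l 17177376)) (b (l 17203960) (l 17208368))) (a (l 17182984) (l 17214272)))) (c (l 296924767255) (b (l 1) (l 307124679319))))) (a (b (c (l 17496064) (a (l 17195232) (l 17227528))) (c (b (l 17526000) (l 17548184)) (b (l 17228848) (l 17242536)))) (b (c (l 17544520) (b (l 17267424) (l 17277536))) (b (l 17427080) (l 17442968))))) (a (b (b (b (c (l 17572192) (l 17258088)) (c (l 17597328) (b (l 17270496) (l 17279104)))) (c (l 17633624) (l 17300416))) (c (l 17712456) (l 17359400))) (b (b (b (l 17460024) (c (l 17626600) (l 17332576))) (l 17502288)) (c (l 17712440) (l 17403328))))) (a (b (b (l 1) (b (l 1) (c (l 17639680) (l 314641557783)))) (b (b (b (l 17505400) (c (l 17658272) (l 17383056))) (l 17536352))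 (b (l 17563208) (l 17589024)))) (b (l 1) (b (b (l 1) (l 17577848)) (l 218005292775))))) (b (b (a (a (b (l 17612040) (l 17665856)) (l 17633584)) (a (l 17624600) (l 17623112))) (a (a (c (l 17940656) (l 17558640)) (l 17810168)) (b (l 17639776) (l 17646032)))) (b (a (b (a (l 17848608) (l 17774120)) (a (l 17925272) (l 17834936))) (b (l 17671976) (l 17716360))) (a (a (l 18044520) (l 17932640)) (l 17792912))))) (b (a (b (l 1) (b (l 1) (b (l 1) (l 371550431175)))) (l 1)) (b (b (a (b (l 17642088) (l 17630296)) (l 1)) (a (b (l 17615456) (l 17602920)) (l 357054926903))) (b (a (l 17860944) (l 200825493879)) (a (l 17689464) (l 17663568)))))), by decide +kernel⟩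

theorem c_pm_112 : CertF 536870912 536870912 536870912 536870912 201326592 134217728 true true false .dn 1 1 2
    ndF0q1 ndF2q1 pcF2 Cut.none Ext.none :=
  certF1 (fam := true) (s1 := true) (s2 := false) (a := 1) (b := 1) (c := 2) (cn := .dn) (n1 := ndF0q1) (n2 := ndF2q1) (pc := pcF2) (cut := Cut.none) (xt := Ext.none) (P1 := 536870912) (W1 := 536870912) (P2 := 536870912) (W2 := 536870912) (P3 := 201326592) (W3 := 134217728)
    rfl (fun _ => rfl) k0_pm_112

noncomputable def f_pm_113 : ℕ → ℕ → ℕ → ℕ → Bool := onCell 536870912 536870912 1610612736 536870912 201326592 134217728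
    (rowF 1 true true false .nn 1 1 3 (qsf 536870912 536870912 536870912 536870912 3) ndF0q1 ndF2q1 pcF3 Cut.none Ext.none)

def k0_pm_113 : ∃ t, chk3 f_pm_113 t 1 1 1 = true :=
  ⟨(b (a (b (a (b (a (c (l 18362792) (l 18007192)) (l 17997584)) (a (c (l 18552336) (l 18169336)) (l 18147224))) (c (l 17897992) (a (l 17785224) (l 17664768)))) (a (b (a (l 2) (l 18299976)) (l 2)) (a (c (l 18262704) (l 18009936)) (b (l 17890288) (l 17990192))))) (b (a (b (l 17548208) (l 17603360)) (b (l 17486472) (l 17565944))) (a (b (l 17662552) (l 17972064)) (b (l 17465448) (l 17462792))))) (a (b (a (l 2) (b (a (l 2) (l 18084744)) (l 2))) (l 2)) (b (a (b (a (l 17876264) (l 17699024)) (c (l 17921720) (l 17733456))) (b (l 17464984) (l 4))) (a (a (l 2) (l 4)) (l 4))))), by decide +kernel⟩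

theorem c_pm_113 : CertF 536870912 536870912 536870912 536870912 201326592 134217728 true true false .nn 1 1 3
    ndF0q1 ndF2q1 pcF3 Cut.none Ext.none :=
  certF1 (fam := true) (s1 := true) (s2 := false) (a := 1) (b := 1) (c := 3) (cn := .nn) (n1 := ndF0q1) (n2 := ndF2q1) (pc := pcF3) (cut := Cut.none) (xt := Ext.none) (P1 := 536870912) (W1 := 536870912) (P2 := 536870912) (W2 := 536870912) (P3 := 201326592) (W3 := 134217728)
    rfl (fun _ => rfl) k0_pm_113

noncomputable def cut_pm_123_a : Cut := Cut.of [[⟨0, 1, 0, 57167902⟩, ⟨1, 1, 0, 57167902⟩, ⟨2, 2, 0, 11758673⟩]]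

noncomputable def f_pm_123_a : ℕ → ℕ → ℕ → ℕ → Bool := onCell 1610612736 536870912 0 536870912 201326592 134217728
    (rowF 2 true true false .npn 1 2 3 (qsf 536870912 536870912 0 536870912 3) ndF0q1 ndF2q2a pcF3 cut_pm_123_a Ext.none)

def k0_pm_123_a : ∃ t, chk3 f_pm_123_a t 2 1 1 = true :=
  ⟨(b (a (a (l 1) (b (l 1) (l 150358796295))) (a (b (l 17260736) (l 17252712)) (b (l 17198832) (l 17260264)))) (a (b (a (l 1) (c (l 17362432) (b (l 17190976) (l 17194784)))) (a (b (c (l 17382728) (a (l 1) (l 17199488))) (b (c (l 17376144) (a (l 142841997303) (l 17216456))) (c (l 17370992) (a (a (b (l 17207208) (c (l 17259512) (l 17174008))) (l 17222240)) (l 17229872))))) (b (c (l 17341800) (l 17205136)) (c (b (l 17329320) (l 17316592)) (a (l 17223784) (l 17213200)))))) (b (a (b (l 17242752) (l 17236400)) (b (l 17188176) (l 17176528))) (a (b (a (l 17242656) (l 17213920)) (b (l 17282216) (a (l 17226416) (l 17188256)))) (a (b (l 17179720) (a (l 17165016) (l 17142568))) (b (l 17141472) (l 17128632))))))),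 by decide +kernel⟩

def k1_pm_123_a : ∃ t, chk3 f_pm_123_a t 3 1 1 = true :=
  ⟨(a (b (a (a (l 17288088) (l 17161856)) (a (l 17114648) (l 17086168))) (b (a (b (a (l 17138280) (l 17098864)) (a (l 17122456) (l 17081536))) (a (b (l 17052128) (l 17041344)) (b (l 17003256) (l 16997656)))) (a (a (b (l 17098792) (l 17081552)) (b (l 17055696) (l 17096656))) (a (b (l 17012592) (l 17072824)) (b (l 16972488) (l 17072616)))))) (a (a (b (l 16974496) (b (b (l 16953888) (l 16951872)) (b (l 16935392) (b (l 16903160) (l 16995096))))) (b (l 16905120) (b (l 16905056) (b (l 17085376) (b (l 16869296) (c (l 16905344) (l 16977992))))))) (a (a (b (l 16872088) (b (l 16870408) (b (l 16866544) (b (l 16846896) (a (l 16896520) (l 16907360)))))) (b (l 16978232) (b (l 17043240) (b (l 17025176) (b (l 16833384) (a (l 16899504) (a (l 16888648) (l 16872640)))))))) (b (a (l 16894520) (a (l 16803824) (l 4))) (a (b (l 17059600) (b (l 16823392) (b (b (l 16819656) (l 16813928)) (b (l 16824584) (b (l 16851096) (a (l 16806816)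 (c (l 16813064) (b (l 16805752) (l 16808616))))))))) (a (b (l 16888632) (b (b (l 16811888) (l 16805832)) (b (l 16862112) (b (l 16816472) (b (l 16790944) (b (l 16816224) (a (l 16791128) (a (l 16796440) (l 6))))))))) (b (a (l 16791976) (b (l 4) (l 4))) (b (a (l 16860288) (a (l 16807640) (a (l 16778344) (l 4)))) (l 6))))))))), by decide +kernel⟩

theorem s2_pm_123_a : ∃ t, chk3 f_pm_123_a t 1 1 1 = true := ex3_a k0_pm_123_a k1_pm_123_a

theorem c_pm_123_a : CertF 536870912 536870912 0 536870912 201326592 134217728 true true false .npn 1 2 3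
    ndF0q1 ndF2q2a pcF3 cut_pm_123_a Ext.none :=
  certF2 (fam := true) (s1 := true) (s2 := false) (a := 1) (b := 2) (c := 3) (cn := .npn) (n1 := ndF0q1) (n2 := ndF2q2a) (pc := pcF3) (cut := cut_pm_123_a) (xt := Ext.none) (P1 := 536870912) (W1 := 536870912) (P2 := 0) (W2 := 536870912) (P3 := 201326592) (W3 := 134217728)
    rfl (fun _ => rfl) s2_pm_123_a

noncomputable def cut_pm_123_b : Cut := Cut.of [[⟨0, 1, 0, 57167902⟩, ⟨1, 1, 0, 57167902⟩, ⟨2, 2, 0, 11758673⟩]]

noncomputable def f_pm_123_b : ℕ → ℕ → ℕ → ℕ → Bool := onCell 536870912 536870912 1610612736 536870912 201326592 134217728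
    (rowF 1 true true false .npn 1 2 3 (qsf 536870912 536870912 1239849684 370763052 3) ndF0q1 ndF2q2b pcF3 cut_pm_123_b Ext.none)

def k0_pm_123_b : ∃ t, chk3 f_pm_123_b t 1 1 1 = true :=
  ⟨(b (a (a (b (l 1) (b (a (l 255585528903) (l 1)) (a (l 17296512) (l 264712216567)))) (l 1)) (l 1)) (b (a (a (b (a (l 17178384) (l 17132296)) (a (l 17146968) (l 17090216))) (a (b (l 270080773303) (l 17043568)) (b (l 1) (b (l 264711918567) (l 16992080))))) (l 1)) (a (a (b (a (l 17116280) (b (l 17066048) (l 17049008))) (b (l 17089072) (l 4))) (b (a (b (l 17010304) (l 16996800)) (b (l 16961376) (l 16936584))) (b (a (l 16969056) (l 16916528)) (l 4)))) (a (b (a (b (l 17015912) (l 284575890135)) (l 1)) (b (a (l 17118432) (l 300145034311)) (b (l 292628825015) (b (l 17030152) (l 4))))) (l 1))))), by decide +kernel⟩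

theorem c_pm_123_b : CertF 536870912 536870912 1239849684 370763052 201326592 134217728 true true false .npn 1 2 3
    ndF0q1 ndF2q2b pcF3 cut_pm_123_b Ext.none :=
  certF1 (fam := true) (s1 := true) (s2 := false) (a := 1) (b := 2) (c := 3) (cn := .npn) (n1 := ndF0q1) (n2 := ndF2q2b) (pc := pcF3) (cut := cut_pm_123_b) (xt := Ext.none) (P1 := 536870912) (W1 := 536870912) (P2 := 1239849684) (W2 := 370763052) (P3 := 201326592) (W3 := 134217728)
    rfl (fun _ => rfl) k0_pm_123_b

noncomputable def f_pm_133 : ℕ → ℕ → ℕ → ℕ → Bool := onCell 536870912 536870912 1610612736 536870912 201326592 134217728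
    (rowF 0 true true false .dn 1 3 3 (qsf 536870912 536870912 1610612736 536870912 3) ndF0q1 ndF2q3 pcF3 Cut.none Ext.none)

def k0_pm_133 : ∃ t, chk3 f_pm_133 t 1 1 1 = true :=
  ⟨(a (l 4) (l 2)), by decide +kernel⟩

theorem c_pm_133 : CertF 536870912 536870912 1610612736 536870912 201326592 134217728 true true false .dn 1 3 3
    ndF0q1 ndF2q3 pcF3 Cut.none Ext.none :=
  certF0 (fam := true) (s1 := true) (s2 := false) (a := 1) (b := 3) (c := 3) (cn := .dn) (n1 := ndF0q1) (n2 := ndF2q3) (pc := pcF3) (cut := Cut.none) (xt := Ext.none) (P1 := 536870912) (W1 := 536870912) (P2 := 1610612736) (W2 := 536870912) (P3 := 201326592) (W3 := 134217728)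
    rfl k0_pm_133

noncomputable def cut_pm_202 : Cut := Cut.of [[⟨0, 1, 0, 67108864⟩, ⟨1, 0, 0, 67108864⟩, ⟨2, 1, 0, 67108864⟩]]

noncomputable def f_pm_202 : ℕ → ℕ → ℕ → ℕ → Bool := onCell 0 536870912 1073741824 536870912 201326592 134217728
    (rowF 1 true true false .pp 2 0 2 (qsf 0 536870912 0 536870912 2) ndF0q2 ndF2q0 pcF2 cut_pm_202 Ext.none)

def k0_pm_202 : ∃ t, chk3 f_pm_202 t 2 1 1 = true :=
  ⟨(b (a (b (l 1) (b (b (b (l 1) (b (a (l 1) (c (a (l 1) (l 237866977751)) (l 266321198663))) (b (a (l 1) (c (l 300144021927) (l 16561976))) (a (c (a (l 16579680) (l 16571296)) (l 278132431079)) (c (a (l 16563032) (l 16553608)) (a (l 16542840) (l 16533360))))))) (a (c (b (a (l 16549680) (l 16541520)) (l 16546544)) (b (l 16571288) (l 16533504))) (b (c (l 16570784) (l 16530584)) (l 16576856)))) (b (a (b (l 16596288) (l 16494320)) (l 16590264)) (a (l 16458464) (l 16478456))))) (b (a (l 1) (b (l 1) (b (l 1) (b (l 1) (b (l 1) (a (l 1) (c (l 252362475271) (l 325376936903)))))))) (b (b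 (b (a (b (l 1) (c (a (l 209949677703) (l 272763547255)) (l 280816677687))) (b (c (a (l 253436194695) (l 16545680)) (a (l 16574032) (l 16529608))) (c (a (l 16541592) (l 16517280)) (l 16575928)))) (c (a (b (a (l 16550456) (l 16540664)) (b (l 16540864) (l 16600576))) (b (l 16532480) (a (l 16589824) (l 16585944)))) (b (a (l 292090955239) (l 16516128)) (a (a (l 16629448) (l 16621072)) (l 16636968))))) (a (b (c (l 16507936) (l 16511280)) (l 16513416)) (b (l 16538480) (l 16477592)))) (b (a (l 16506016) (l 16496064)) (a (l 16453464) (l 16485120)))))) (b (b (a (b (l 16579888) (l 16800104)) (a (l 16703576) (l 16715056))) (a (l 16995176) (l 17025416))) (a (b (l 17110136) (l 17148336)) (b (l 17163584) (l 17212792))))), by decide +kernel⟩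

def k1_pm_202 : ∃ t, chk3 f_pm_202 t 6 2 1 = true :=
  ⟨(b (a (b (l 1) (b (l 1) (b (b (a (l 1) (c (a (l 1) (l 292627844695)) (b (l 259341839351) (l 221760870855)))) (a (c (l 366715959223) (l 330208739671)) (c (l 287795975559) (l 271689855207)))) (b (c (a (l 314639490919) (l 16555296)) (a (l 252362477975) (l 16553936))) (a (c (l 16566544) (l 16560344)) (c (l 16556904) (l 16553136))))))) (b (l 1) (b (b (a (l 1) (b (l 1) (c (a (l 316787114935) (l 313029047799)) (a (l 237330213975) (l 250215153767))))) (a (a (b (l 1) (c (l 329671942343) (l 242161980695))) (b (c (l 321082045959) (l 241088275303)) (c (l 291554147399) (l 253436309975)))) (c (a (b (l 279743026551) (l 16608720)) (l 16641624)) (a (b (l 248604508007) (l 16607872)) (l 16640512))))) (b (a (c (b (a (l 318397653927) (l 16588160)) (l 16577992)) (b (a (l 307660236951) (l 16588392)) (l 16576808))) (c (l 16600224) (l 16599480))) (b (a (l 16579040) (l 16604408)) (a (l 16580304) (l 16606576))))))) (b (b (b (a (a (c (b (l 16531288)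 (l 16526976)) (l 16609168)) (b (l 16574880) (l 16549760))) (b (l 16655880) (l 16588664))) (b (a (l 16596712) (l 16584400)) (a (b (l 16530472) (l 16612040)) (b (l 16580664) (l 16578000))))) (a (b (l 16523144) (l 16520240)) (l 16589888))) (b (a (l 16516096) (l 16560088)) (a (l 16518624) (l 16556080))))), by decide +kernel⟩

def k2_pm_202 : ∃ t, chk3 f_pm_202 t 7 2 1 = true :=
  ⟨(b (a (b (b (l 1) (b (a (l 1) (l 6)) (a (b (l 1) (a (l 1) (b (c (l 294775490599) (l 258268272439)) (c (l 304439161815) (l 286722419911))))) (b (l 6) (b (l 6) (c (l 16691704) (l 16678680))))))) (b (b (a (a (b (c (b (l 289943619111) (l 291017368983)) (l 277595610007)) (c (l 16646936) (l 16644688))) (b (c (l 16685776) (l 16662168)) (l 16671496))) (c (l 16691400) (l 16694752))) (a (c (l 16627224) (l 16626504)) (l 16646312))) (b (a (l 16623504) (l 16648800)) (a (l 16753600) (l 16673736))))) (b (b (l 6) (b (l 6) (a (b (l 6) (l 16692256)) (l 16713024)))) (b (a (b (l 16676360) (l 16674336)) (l 16705352)) (b (l 16691424)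 (b (l 16695128) (l 16677392)))))) (b (b (b (a (b (l 16645832) (l 16621688)) (l 16761320)) (b (a (l 16638448) (l 16696136)) (a (b (l 16634352) (l 16631408)) (b (l 16693376) (l 16690920))))) (a (l 16596952) (l 16677416))) (b (a (l 16608544) (l 16664680)) (a (l 16598728) (l 16649560))))), by decide +kernel⟩

def k3_pm_202 : ∃ t, chk3 f_pm_202 t 3 3 1 = true :=
  ⟨(b (b (a (b (l 16620344) (l 16836664)) (a (l 16773712) (l 16811568))) (a (b (l 16993440) (l 17103464)) (b (l 17002512) (l 17100944)))) (b (a (l 17200984) (b (l 17181976) (l 17240336))) (a (l 17258040) (l 17280696)))), by decide +kernel⟩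

theorem s4_pm_202 : ∃ t, chk3 f_pm_202 t 3 2 1 = true := ex3_a k1_pm_202 k2_pm_202

theorem s5_pm_202 : ∃ t, chk3 f_pm_202 t 3 1 1 = true := ex3_b s4_pm_202 k3_pm_202

theorem s6_pm_202 : ∃ t, chk3 f_pm_202 t 1 1 1 = true := ex3_a k0_pm_202 s5_pm_202

theorem c_pm_202 : CertF 0 536870912 0 536870912 201326592 134217728 true true false .pp 2 0 2
    ndF0q2 ndF2q0 pcF2 cut_pm_202 Ext.none :=
  certF1 (fam := true) (s1 := true) (s2 := false) (a := 2) (b := 0) (c := 2) (cn := .pp) (n1 := ndF0q2) (n2 := ndF2q0) (pc := pcF2) (cut := cut_pm_202) (xt := Ext.none) (P1 := 0) (W1 := 536870912) (P2 := 0) (W2 := 536870912) (P3 := 201326592) (W3 := 134217728)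
    rfl (fun _ => rfl) s6_pm_202

noncomputable def f_pm_203 : ℕ → ℕ → ℕ → ℕ → Bool := onCell 0 536870912 1610612736 536870912 201326592 134217728
    (rowF 1 true true false .up 2 0 3 (qsf 0 536870912 0 536870912 3) ndF0q2 ndF2q0 pcF3 Cut.none Ext.none)

def k0_pm_203 : ∃ t, chk3 f_pm_203 t 1 1 1 = true :=
  ⟨(b (b (a (a (l 4) (b (l 17234656) (l 17250376))) (b (a (l 17286656) (a (l 17317280) (l 17335360))) (a (l 17306400) (l 17358296)))) (a (l 4) (a (l 2) (l 2)))) (l 2)), by decide +kernel⟩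

theorem c_pm_203 : CertF 0 536870912 0 536870912 201326592 134217728 true true false .up 2 0 3
    ndF0q2 ndF2q0 pcF3 Cut.none Ext.none :=
  certF1 (fam := true) (s1 := true) (s2 := false) (a := 2) (b := 0) (c := 3) (cn := .up) (n1 := ndF0q2) (n2 := ndF2q0) (pc := pcF3) (cut := Cut.none) (xt := Ext.none) (P1 := 0) (W1 := 536870912) (P2 := 0) (W2 := 536870912) (P3 := 201326592) (W3 := 134217728)
    rfl (fun _ => rfl) k0_pm_203

noncomputable def f_pm_213 : ℕ → ℕ → ℕ → ℕ → Bool := onCell 0 536870912 1610612736 536870912 201326592 134217728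
    (rowF 1 true true false .pnn 2 1 3 (qsf 0 536870912 536870912 536870912 3) ndF0q2 ndF2q1 pcF3 Cut.none Ext.none)

def k0_pm_213 : ∃ t, chk3 f_pm_213 t 1 1 1 = true :=
  ⟨(a (b (b (b (l 1) (a (l 1) (l 329137032695))) (l 4)) (l 4)) (b (b (b (a (l 1) (l 17496608)) (a (l 17535032) (l 17388240))) (b (a (l 17313472) (l 17374392)) (c (l 17298496) (l 17222464)))) (l 4))), by decide +kernel⟩

theorem c_pm_213 : CertF 0 536870912 536870912 536870912 201326592 134217728 true true false .pnn 2 1 3
    ndF0q2 ndF2q1 pcF3 Cut.none Ext.none :=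
  certF1 (fam := true) (s1 := true) (s2 := false) (a := 2) (b := 1) (c := 3) (cn := .pnn) (n1 := ndF0q2) (n2 := ndF2q1) (pc := pcF3) (cut := Cut.none) (xt := Ext.none) (P1 := 0) (W1 := 536870912) (P2 := 536870912) (W2 := 536870912) (P3 := 201326592) (W3 := 134217728)
    rfl (fun _ => rfl) k0_pm_213

noncomputable def f_mm_001 : ℕ → ℕ → ℕ → ℕ → Bool := onCell 0 536870912 0 536870912 201326592 134217728
    (rowF 0 true false false .up 0 0 1 (qsf 0 536870912 0 536870912 1) ndF0q0 ndF2q0 pcF1 Cut.none Ext.none)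

def k0_mm_001 : ∃ t, chk3 f_mm_001 t 1 1 1 = true :=
  ⟨(l 4), by decide +kernel⟩

theorem c_mm_001 : CertF 0 536870912 0 536870912 201326592 134217728 true false false .up 0 0 1
    ndF0q0 ndF2q0 pcF1 Cut.none Ext.none :=
  certF0 (fam := true) (s1 := false) (s2 := false) (a := 0) (b := 0) (c := 1) (cn := .up) (n1 := ndF0q0) (n2 := ndF2q0) (pc := pcF1) (cut := Cut.none) (xt := Ext.none) (P1 := 0) (W1 := 536870912) (P2 := 0) (W2 := 536870912) (P3 := 201326592) (W3 := 134217728)
    rfl k0_mm_001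

noncomputable def f_mm_011 : ℕ → ℕ → ℕ → ℕ → Bool := onCell 0 536870912 536870912 536870912 201326592 134217728
    (rowF 0 true false false .pnn 0 1 1 (qsf 0 536870912 536870912 536870912 1) ndF0q0 ndF2q1 pcF1 Cut.none Ext.none)

def k0_mm_011 : ∃ t, chk3 f_mm_011 t 1 1 1 = true :=
  ⟨(l 4), by decide +kernel⟩

theorem c_mm_011 : CertF 0 536870912 536870912 536870912 201326592 134217728 true false false .pnn 0 1 1
    ndF0q0 ndF2q1 pcF1 Cut.none Ext.none :=
  certF0 (fam := true) (s1 := false) (s2 := false) (a := 0) (b := 1) (c := 1) (cn := .pnn) (n1 := ndF0q0) (n2 := ndF2q1) (pc := pcF1) (cut := Cut.none) (xt := Ext.none) (P1 := 0) (W1 := 536870912) (P2 := 536870912) (W2 := 536870912) (P3 := 201326592) (W3 := 134217728)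
    rfl k0_mm_011

noncomputable def f_mm_012 : ℕ → ℕ → ℕ → ℕ → Bool := onCell 0 536870912 536870912 536870912 201326592 134217728
    (rowF 0 true false false .pnp 0 1 2 (qsf 0 536870912 536870912 536870912 2) ndF0q0 ndF2q1 pcF2 Cut.none Ext.none)

def k0_mm_012 : ∃ t, chk3 f_mm_012 t 1 1 1 = true :=
  ⟨(l 4), by decide +kernel⟩

theorem c_mm_012 : CertF 0 536870912 536870912 536870912 201326592 134217728 true false false .pnp 0 1 2
    ndF0q0 ndF2q1 pcF2 Cut.none Ext.none :=
  certF0 (fam := true) (s1 := false) (s2 := false) (a := 0) (b := 1) (c := 2) (cn := .pnp) (n1 := ndF0q0) (n2 := ndF2q1) (pc := pcF2) (cut := Cut.none) (xt := Ext.none) (P1 := 0) (W1 := 536870912) (P2 := 536870912) (W2 := 536870912) (P3 := 201326592) (W3 := 134217728)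
    rfl k0_mm_012

noncomputable def f_mm_022_a : ℕ → ℕ → ℕ → ℕ → Bool := onCell 0 536870912 0 536870912 201326592 134217728
    (rowF 0 true false false .pp 0 2 2 (qsf 0 536870912 0 536870912 2) ndF0q0 ndF2q2a pcF2 Cut.none Ext.none)

def k0_mm_022_a : ∃ t, chk3 f_mm_022_a t 1 1 1 = true :=
  ⟨(l 5), by decide +kernel⟩

theorem c_mm_022_a : CertF 0 536870912 0 536870912 201326592 134217728 true false false .pp 0 2 2
    ndF0q0 ndF2q2a pcF2 Cut.none Ext.none :=
  certF0 (fam := true) (s1 := false) (s2 := false) (a := 0) (b := 2) (c := 2) (cn := .pp) (n1 := ndF0q0) (n2 := ndF2q2a) (pc := pcF2) (cut := Cut.none) (xt := Ext.none) (P1 := 0) (W1 := 536870912) (P2 := 0) (W2 := 536870912) (P3 := 201326592) (W3 := 134217728)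
    rfl k0_mm_022_a

noncomputable def f_mm_022_b : ℕ → ℕ → ℕ → ℕ → Bool := onCell 0 536870912 1239849684 370763052 201326592 134217728
    (rowF 0 true false false .pp 0 2 2 (qsf 0 536870912 1239849684 370763052 2) ndF0q0 ndF2q2b pcF2 Cut.none Ext.none)

def k0_mm_022_b : ∃ t, chk3 f_mm_022_b t 1 1 1 = true :=
  ⟨(l 5), by decide +kernel⟩

theorem c_mm_022_b : CertF 0 536870912 1239849684 370763052 201326592 134217728 true false false .pp 0 2 2
    ndF0q0 ndF2q2b pcF2 Cut.none Ext.none :=
  certF0 (fam := true) (s1 := false) (s2 := false) (a := 0) (b := 2) (c := 2) (cn := .pp) (n1 := ndF0q0) (n2 := ndF2q2b) (pc := pcF2) (cut := Cut.none) (xt := Ext.none) (P1 := 0) (W1 := 536870912) (P2 := 1239849684) (W2 := 370763052) (P3 := 201326592) (W3 := 134217728)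
    rfl k0_mm_022_b

noncomputable def f_mm_023_a : ℕ → ℕ → ℕ → ℕ → Bool := onCell 0 536870912 0 536870912 201326592 134217728
    (rowF 0 true false false .up 0 2 3 (qsf 0 536870912 0 536870912 3) ndF0q0 ndF2q2a pcF3 Cut.none Ext.none)

def k0_mm_023_a : ∃ t, chk3 f_mm_023_a t 1 1 1 = true :=
  ⟨(l 5), by decide +kernel⟩

theorem c_mm_023_a : CertF 0 536870912 0 536870912 201326592 134217728 true false false .up 0 2 3
    ndF0q0 ndF2q2a pcF3 Cut.none Ext.none :=
  certF0 (fam := true) (s1 := false) (s2 := false) (a := 0) (b := 2) (c := 3) (cn := .up) (n1 := ndF0q0) (n2 := ndF2q2a) (pc := pcF3) (cut := Cut.none) (xt := Ext.none) (P1 := 0) (W1 := 536870912) (P2 := 0) (W2 := 536870912) (P3 := 201326592) (W3 := 134217728)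
    rfl k0_mm_023_a

noncomputable def f_mm_023_b : ℕ → ℕ → ℕ → ℕ → Bool := onCell 0 536870912 1239849684 370763052 201326592 134217728
    (rowF 0 true false false .up 0 2 3 (qsf 0 536870912 1239849684 370763052 3) ndF0q0 ndF2q2b pcF3 Cut.none Ext.none)

def k0_mm_023_b : ∃ t, chk3 f_mm_023_b t 1 1 1 = true :=
  ⟨(l 5), by decide +kernel⟩

theorem c_mm_023_b : CertF 0 536870912 1239849684 370763052 201326592 134217728 true false false .up 0 2 3
    ndF0q0 ndF2q2b pcF3 Cut.none Ext.none :=
  certF0 (fam := true) (s1 := false) (s2 := false) (a := 0) (b := 2) (c := 3) (cn := .up) (n1 := ndF0q0) (n2 := ndF2q2b) (pc := pcF3) (cut := Cut.none) (xt := Ext.none) (P1 := 0) (W1 := 536870912) (P2 := 1239849684) (W2 := 370763052) (P3 := 201326592) (W3 := 134217728)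
    rfl k0_mm_023_b

noncomputable def f_mm_033 : ℕ → ℕ → ℕ → ℕ → Bool := onCell 0 536870912 1610612736 536870912 201326592 134217728
    (rowF 0 true false false .pnn 0 3 3 (qsf 0 536870912 1610612736 536870912 3) ndF0q0 ndF2q3 pcF3 Cut.none Ext.none)

def k0_mm_033 : ∃ t, chk3 f_mm_033 t 1 1 1 = true :=
  ⟨(l 4), by decide +kernel⟩

theorem c_mm_033 : CertF 0 536870912 1610612736 536870912 201326592 134217728 true false false .pnn 0 3 3
    ndF0q0 ndF2q3 pcF3 Cut.none Ext.none :=
  certF0 (fam := true) (s1 := false) (s2 := false) (a := 0) (b := 3) (c := 3) (cn := .pnn) (n1 := ndF0q0) (n2 := ndF2q3) (pc := pcF3) (cut := Cut.none) (xt := Ext.none) (P1 := 0) (W1 := 536870912) (P2 := 1610612736) (W2 := 536870912) (P3 := 201326592) (W3 := 134217728)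
    rfl k0_mm_033

noncomputable def cut_mm_101 : Cut := Cut.of [[⟨0, 1, 0, 67108864⟩, ⟨1, 0, 0, 67108864⟩, ⟨2, 1, 0, 67108864⟩]]

noncomputable def f_mm_101 : ℕ → ℕ → ℕ → ℕ → Bool := onCell 536870912 536870912 0 536870912 201326592 134217728
    (rowF 0 true false false .npn 1 0 1 (qsf 536870912 536870912 0 536870912 1) ndF0q1 ndF2q0 pcF1 cut_mm_101 Ext.none)

def k0_mm_101 : ∃ t, chk3 f_mm_101 t 1 1 1 = true :=
  ⟨(a (l 4) (b (a (l 4) (a (l 4) (b (a (l 4) (b (b (l 6) (l 4)) (l 2))) (l 2)))) (l 4))), by decide +kernel⟩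

theorem c_mm_101 : CertF 536870912 536870912 0 536870912 201326592 134217728 true false false .npn 1 0 1
    ndF0q1 ndF2q0 pcF1 cut_mm_101 Ext.none :=
  certF0 (fam := true) (s1 := false) (s2 := false) (a := 1) (b := 0) (c := 1) (cn := .npn) (n1 := ndF0q1) (n2 := ndF2q0) (pc := pcF1) (cut := cut_mm_101) (xt := Ext.none) (P1 := 536870912) (W1 := 536870912) (P2 := 0) (W2 := 536870912) (P3 := 201326592) (W3 := 134217728)
    rfl k0_mm_101

noncomputable def cut_mm_102 : Cut := Cut.of [[⟨0, 1, 0, 67108864⟩, ⟨1, 0, 0, 67108864⟩, ⟨2, 1, 0, 67108864⟩]]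

noncomputable def f_mm_102 : ℕ → ℕ → ℕ → ℕ → Bool := onCell 536870912 536870912 0 536870912 201326592 134217728
    (rowF 0 true false false .npp 1 0 2 (qsf 536870912 536870912 0 536870912 2) ndF0q1 ndF2q0 pcF2 cut_mm_102 Ext.none)

def k0_mm_102 : ∃ t, chk3 f_mm_102 t 1 1 1 = true :=
  ⟨(a (l 4) (b (a (l 4) (b (a (l 4) (a (l 4) (b (b (l 6) (l 4)) (l 4)))) (l 4))) (l 4))), by decide +kernel⟩

theorem c_mm_102 : CertF 536870912 536870912 0 536870912 201326592 134217728 true false false .npp 1 0 2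
    ndF0q1 ndF2q0 pcF2 cut_mm_102 Ext.none :=
  certF0 (fam := true) (s1 := false) (s2 := false) (a := 1) (b := 0) (c := 2) (cn := .npp) (n1 := ndF0q1) (n2 := ndF2q0) (pc := pcF2) (cut := cut_mm_102) (xt := Ext.none) (P1 := 536870912) (W1 := 536870912) (P2 := 0) (W2 := 536870912) (P3 := 201326592) (W3 := 134217728)
    rfl k0_mm_102

noncomputable def f_mm_112 : ℕ → ℕ → ℕ → ℕ → Bool := onCell 536870912 536870912 536870912 536870912 201326592 134217728
    (rowF 0 true false false .dn 1 1 2 (qsf 536870912 536870912 536870912 536870912 2) ndF0q1 ndF2q1 pcF2 Cut.none Ext.none)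

def k0_mm_112 : ∃ t, chk3 f_mm_112 t 1 1 1 = true :=
  ⟨(l 4), by decide +kernel⟩

theorem c_mm_112 : CertF 536870912 536870912 536870912 536870912 201326592 134217728 true false false .dn 1 1 2
    ndF0q1 ndF2q1 pcF2 Cut.none Ext.none :=
  certF0 (fam := true) (s1 := false) (s2 := false) (a := 1) (b := 1) (c := 2) (cn := .dn) (n1 := ndF0q1) (n2 := ndF2q1) (pc := pcF2) (cut := Cut.none) (xt := Ext.none) (P1 := 536870912) (W1 := 536870912) (P2 := 536870912) (W2 := 536870912) (P3 := 201326592) (W3 := 134217728)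
    rfl k0_mm_112

noncomputable def f_mm_113 : ℕ → ℕ → ℕ → ℕ → Bool := onCell 536870912 536870912 536870912 536870912 201326592 134217728
    (rowF 0 true false false .nn 1 1 3 (qsf 536870912 536870912 536870912 536870912 3) ndF0q1 ndF2q1 pcF3 Cut.none Ext.none)

def k0_mm_113 : ∃ t, chk3 f_mm_113 t 1 1 1 = true :=
  ⟨(l 4), by decide +kernel⟩

theorem c_mm_113 : CertF 536870912 536870912 536870912 536870912 201326592 134217728 true false false .nn 1 1 3
    ndF0q1 ndF2q1 pcF3 Cut.none Ext.none :=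
  certF0 (fam := true) (s1 := false) (s2 := false) (a := 1) (b := 1) (c := 3) (cn := .nn) (n1 := ndF0q1) (n2 := ndF2q1) (pc := pcF3) (cut := Cut.none) (xt := Ext.none) (P1 := 536870912) (W1 := 536870912) (P2 := 536870912) (W2 := 536870912) (P3 := 201326592) (W3 := 134217728)
    rfl k0_mm_113

noncomputable def f_mm_123_a : ℕ → ℕ → ℕ → ℕ → Bool := onCell 536870912 536870912 0 536870912 201326592 134217728
    (rowF 0 true false false .npn 1 2 3 (qsf 536870912 536870912 0 536870912 3) ndF0q1 ndF2q2a pcF3 Cut.none Ext.none)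

def k0_mm_123_a : ∃ t, chk3 f_mm_123_a t 1 1 1 = true :=
  ⟨(l 4), by decide +kernel⟩

theorem c_mm_123_a : CertF 536870912 536870912 0 536870912 201326592 134217728 true false false .npn 1 2 3
    ndF0q1 ndF2q2a pcF3 Cut.none Ext.none :=
  certF0 (fam := true) (s1 := false) (s2 := false) (a := 1) (b := 2) (c := 3) (cn := .npn) (n1 := ndF0q1) (n2 := ndF2q2a) (pc := pcF3) (cut := Cut.none) (xt := Ext.none) (P1 := 536870912) (W1 := 536870912) (P2 := 0) (W2 := 536870912) (P3 := 201326592) (W3 := 134217728)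
    rfl k0_mm_123_a

noncomputable def f_mm_123_b : ℕ → ℕ → ℕ → ℕ → Bool := onCell 536870912 536870912 1239849684 370763052 201326592 134217728
    (rowF 0 true false false .npn 1 2 3 (qsf 536870912 536870912 1239849684 370763052 3) ndF0q1 ndF2q2b pcF3 Cut.none Ext.none)

def k0_mm_123_b : ∃ t, chk3 f_mm_123_b t 1 1 1 = true :=
  ⟨(l 4), by decide +kernel⟩

theorem c_mm_123_b : CertF 536870912 536870912 1239849684 370763052 201326592 134217728 true false false .npn 1 2 3
    ndF0q1 ndF2q2b pcF3 Cut.none Ext.none :=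
  certF0 (fam := true) (s1 := false) (s2 := false) (a := 1) (b := 2) (c := 3) (cn := .npn) (n1 := ndF0q1) (n2 := ndF2q2b) (pc := pcF3) (cut := Cut.none) (xt := Ext.none) (P1 := 536870912) (W1 := 536870912) (P2 := 1239849684) (W2 := 370763052) (P3 := 201326592) (W3 := 134217728)
    rfl k0_mm_123_b

noncomputable def f_mm_133 : ℕ → ℕ → ℕ → ℕ → Bool := onCell 536870912 536870912 1610612736 536870912 201326592 134217728
    (rowF 0 true false false .dn 1 3 3 (qsf 536870912 536870912 1610612736 536870912 3) ndF0q1 ndF2q3 pcF3 Cut.none Ext.none)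

def k0_mm_133 : ∃ t, chk3 f_mm_133 t 1 1 1 = true :=
  ⟨(l 4), by decide +kernel⟩

theorem c_mm_133 : CertF 536870912 536870912 1610612736 536870912 201326592 134217728 true false false .dn 1 3 3
    ndF0q1 ndF2q3 pcF3 Cut.none Ext.none :=
  certF0 (fam := true) (s1 := false) (s2 := false) (a := 1) (b := 3) (c := 3) (cn := .dn) (n1 := ndF0q1) (n2 := ndF2q3) (pc := pcF3) (cut := Cut.none) (xt := Ext.none) (P1 := 536870912) (W1 := 536870912) (P2 := 1610612736) (W2 := 536870912) (P3 := 201326592) (W3 := 134217728)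
    rfl k0_mm_133

noncomputable def cut_mm_202 : Cut := Cut.of [[⟨0, 1, 0, 67108864⟩, ⟨1, 0, 0, 67108864⟩, ⟨2, 1, 0, 67108864⟩]]

noncomputable def f_mm_202 : ℕ → ℕ → ℕ → ℕ → Bool := onCell 0 536870912 0 536870912 201326592 134217728
    (rowF 0 true false false .pp 2 0 2 (qsf 0 536870912 0 536870912 2) ndF0q2 ndF2q0 pcF2 cut_mm_202 Ext.none)

def k0_mm_202 : ∃ t, chk3 f_mm_202 t 2 1 1 = true :=
  ⟨(b (a (b (b (b (a (a (b (c (l 16621464) (l 16586800)) (l 16590600)) (b (c (b (l 16596176) (l 16563344)) (l 16598464)) (l 16552504))) (b (a (c (l 16575384) (l 16581280)) (c (l 16586176) (l 16589504))) (c (l 16562840) (l 16567952)))) (a (c (l 16513032) (l 16522648)) (l 16605200))) (b (c (l 16598568) (l 16502360)) (l 16561976))) (b (l 16845176) (l 17004216))) (b (b (a (b (a (b (c (l 16622240) (l 16600848)) (l 16587456)) (b (c (l 16638400) (l 16613264)) (l 16603776))) (l 16641408)) (a (b (b (c (b (l 16634768) (l 16629184)) (l 16625192)) (l 16618848)) (l 16606016)) (b (b (c (b (l 16647792)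 (l 16643152)) (l 16637256)) (l 16633368)) (l 16623160)))) (a (b (l 16561872) (l 16554600)) (b (l 16606072) (l 16613096)))) (b (a (l 16791400) (l 16928480)) (l 4)))) (b (a (b (l 17057168) (l 4)) (l 4)) (l 4))), by decide +kernel⟩

def k1_mm_202 : ∃ t, chk3 f_mm_202 t 3 1 1 = true :=
  ⟨(b (b (a (b (b (a (b (c (b (a (l 16660360) (b (l 16683976) (l 16671864))) (l 16684352)) (b (a (l 16651552) (l 16663640)) (l 16654480))) (c (l 16659016) (l 16649864))) (b (b (a (a (c (l 16692464) (l 16672992)) (c (a (l 16686800) (l 16690080)) (l 16679560))) (c (b (c (a (l 16697224) (l 16703944)) (l 16712968)) (l 16698072)) (b (a (l 16686904) (l 16693936)) (l 16689560)))) (c (a (l 16682888) (l 16696760)) (a (l 16674000) (l 16688312)))) (a (l 16717776) (c (l 16694816) (l 16686208))))) (a (b (l 16671040) (l 16646816)) (a (l 16713984) (b (l 16689032) (l 16717984))))) (a (b (b (l 16645456) (l 16654152)) (l 16694992)) (b (b (l 16748256) (l 4)) (l 4)))) (b (a (b (b (a (b (c (b (a (c (l 16710792) (l 16707544))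 (c (b (l 16718032) (l 16717712)) (l 16714808))) (a (l 16708496) (l 16715776))) (b (a (b (l 16701464) (l 16701120)) (c (l 16711128) (l 16706824))) (l 16704600))) (c (l 16711256) (l 16703792))) (b (a (b (l 6) (c (l 16723464) (l 16716992))) (l 6)) (c (a (l 16722840) (l 16731288)) (a (l 16716496) (l 16725856))))) (a (b (l 16727760) (l 16706128)) (a (l 16750632) (a (l 16748392) (l 16776840))))) (a (b (c (l 16736912) (l 16727808)) (l 16716808)) (b (a (l 16715584) (l 4)) (l 4)))) (b (a (a (b (l 6) (b (l 6) (l 16756304))) (l 6)) (l 6)) (l 4))) (l 4))) (l 4)) (l 4)), by decide +kernel⟩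

theorem s2_mm_202 : ∃ t, chk3 f_mm_202 t 1 1 1 = true := ex3_a k0_mm_202 k1_mm_202

theorem c_mm_202 : CertF 0 536870912 0 536870912 201326592 134217728 true false false .pp 2 0 2
    ndF0q2 ndF2q0 pcF2 cut_mm_202 Ext.none :=
  certF0 (fam := true) (s1 := false) (s2 := false) (a := 2) (b := 0) (c := 2) (cn := .pp) (n1 := ndF0q2) (n2 := ndF2q0) (pc := pcF2) (cut := cut_mm_202) (xt := Ext.none) (P1 := 0) (W1 := 536870912) (P2 := 0) (W2 := 536870912) (P3 := 201326592) (W3 := 134217728)
    rfl s2_mm_202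

noncomputable def f_mm_203 : ℕ → ℕ → ℕ → ℕ → Bool := onCell 0 536870912 1610612736 536870912 201326592 134217728
    (rowF 1 true false false .up 2 0 3 (qsf 0 536870912 0 536870912 3) ndF0q2 ndF2q0 pcF3 Cut.none Ext.none)

def k0_mm_203 : ∃ t, chk3 f_mm_203 t 1 1 1 = true :=
  ⟨(l 4), by decide +kernel⟩

theorem c_mm_203 : CertF 0 536870912 0 536870912 201326592 134217728 true false false .up 2 0 3
    ndF0q2 ndF2q0 pcF3 Cut.none Ext.none :=
  certF1 (fam := true) (s1 := false) (s2 := false) (a := 2) (b := 0) (c := 3) (cn := .up) (n1 := ndF0q2) (n2 := ndF2q0) (pc := pcF3) (cut := Cut.none) (xt := Ext.none) (P1 := 0) (W1 := 536870912) (P2 := 0) (W2 := 536870912) (P3 := 201326592) (W3 := 134217728)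
    rfl (fun _ => rfl) k0_mm_203

noncomputable def f_mm_213 : ℕ → ℕ → ℕ → ℕ → Bool := onCell 0 536870912 536870912 536870912 201326592 134217728
    (rowF 0 true false false .pnn 2 1 3 (qsf 0 536870912 536870912 536870912 3) ndF0q2 ndF2q1 pcF3 Cut.none Ext.none)

def k0_mm_213 : ∃ t, chk3 f_mm_213 t 1 1 1 = true :=
  ⟨(l 4), by decide +kernel⟩

theorem c_mm_213 : CertF 0 536870912 536870912 536870912 201326592 134217728 true false false .pnn 2 1 3
    ndF0q2 ndF2q1 pcF3 Cut.none Ext.none :=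
  certF0 (fam := true) (s1 := false) (s2 := false) (a := 2) (b := 1) (c := 3) (cn := .pnn) (n1 := ndF0q2) (n2 := ndF2q1) (pc := pcF3) (cut := Cut.none) (xt := Ext.none) (P1 := 0) (W1 := 536870912) (P2 := 536870912) (W2 := 536870912) (P3 := 201326592) (W3 := 134217728)
    rfl k0_mm_213

end Pool.Agent.Strip051.G.I3_16_5_16.Tab.C.FA02

namespace Pool.Agent.Strip051.G.I3_16_5_16.Tab.C.FA03

open Pool.Agent.Strip051.PB Pool.Agent.Strip051.PB.T
open Pool.Agent.Strip051.G.I3_16_5_16.Tab

noncomputable def f_pp_001 : ℕ → ℕ → ℕ → ℕ → Bool := onCell 0 536870912 0 536870912 201326592 134217728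
    (rowF 0 true true true .up 0 0 1 (qsf 0 536870912 0 536870912 1) ndF0q0 ndF3q0 pcF1 Cut.none Ext.none)

def k0_pp_001 : ∃ t, chk3 f_pp_001 t 1 1 1 = true :=
  ⟨(l 4), by decide +kernel⟩

theorem c_pp_001 : CertF 0 536870912 0 536870912 201326592 134217728 true true true .up 0 0 1
    ndF0q0 ndF3q0 pcF1 Cut.none Ext.none :=
  certF0 (fam := true) (s1 := true) (s2 := true) (a := 0) (b := 0) (c := 1) (cn := .up) (n1 := ndF0q0) (n2 := ndF3q0) (pc := pcF1) (cut := Cut.none) (xt := Ext.none) (P1 := 0) (W1 := 536870912) (P2 := 0) (W2 := 536870912) (P3 := 201326592) (W3 := 134217728)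
    rfl k0_pp_001

noncomputable def f_pp_011 : ℕ → ℕ → ℕ → ℕ → Bool := onCell 0 536870912 536870912 536870912 201326592 134217728
    (rowF 0 true true true .pnn 0 1 1 (qsf 0 536870912 536870912 536870912 1) ndF0q0 ndF3q1 pcF1 Cut.none Ext.none)

def k0_pp_011 : ∃ t, chk3 f_pp_011 t 1 1 1 = true :=
  ⟨(l 4), by decide +kernel⟩

theorem c_pp_011 : CertF 0 536870912 536870912 536870912 201326592 134217728 true true true .pnn 0 1 1
    ndF0q0 ndF3q1 pcF1 Cut.none Ext.none :=
  certF0 (fam := true) (s1 := true) (s2 := true) (a := 0) (b := 1) (c := 1) (cn := .pnn) (n1 := ndF0q0) (n2 := ndF3q1) (pc := pcF1) (cut := Cut.none) (xt := Ext.none) (P1 := 0) (W1 := 536870912) (P2 := 536870912) (W2 := 536870912) (P3 := 201326592) (W3 := 134217728)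
    rfl k0_pp_011

noncomputable def f_pp_012 : ℕ → ℕ → ℕ → ℕ → Bool := onCell 0 536870912 536870912 536870912 201326592 134217728
    (rowF 0 true true true .pnp 0 1 2 (qsf 0 536870912 536870912 536870912 2) ndF0q0 ndF3q1 pcF2 Cut.none Ext.none)

def k0_pp_012 : ∃ t, chk3 f_pp_012 t 1 1 1 = true :=
  ⟨(l 4), by decide +kernel⟩

theorem c_pp_012 : CertF 0 536870912 536870912 536870912 201326592 134217728 true true true .pnp 0 1 2
    ndF0q0 ndF3q1 pcF2 Cut.none Ext.none :=
  certF0 (fam := true) (s1 := true) (s2 := true) (a := 0) (b := 1) (c := 2) (cn := .pnp) (n1 := ndF0q0) (n2 := ndF3q1) (pc := pcF2) (cut := Cut.none) (xt := Ext.none) (P1 := 0) (W1 := 536870912) (P2 := 536870912) (W2 := 536870912) (P3 := 201326592) (W3 := 134217728)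
    rfl k0_pp_012

noncomputable def f_pp_022 : ℕ → ℕ → ℕ → ℕ → Bool := onCell 0 536870912 1073741824 536870912 201326592 134217728
    (rowF 0 true true true .pp 0 2 2 (qsf 0 536870912 1073741824 536870912 2) ndF0q0 ndF3q2 pcF2 Cut.none Ext.none)

def k0_pp_022 : ∃ t, chk3 f_pp_022 t 1 1 1 = true :=
  ⟨(l 4), by decide +kernel⟩

theorem c_pp_022 : CertF 0 536870912 1073741824 536870912 201326592 134217728 true true true .pp 0 2 2
    ndF0q0 ndF3q2 pcF2 Cut.none Ext.none :=
  certF0 (fam := true) (s1 := true) (s2 := true) (a := 0) (b := 2) (c := 2) (cn := .pp) (n1 := ndF0q0) (n2 := ndF3q2) (pc := pcF2) (cut := Cut.none) (xt := Ext.none) (P1 := 0) (W1 := 536870912) (P2 := 1073741824) (W2 := 536870912) (P3 := 201326592) (W3 := 134217728)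
    rfl k0_pp_022

noncomputable def f_pp_023 : ℕ → ℕ → ℕ → ℕ → Bool := onCell 0 536870912 1073741824 536870912 201326592 134217728
    (rowF 0 true true true .up 0 2 3 (qsf 0 536870912 1073741824 536870912 3) ndF0q0 ndF3q2 pcF3 Cut.none Ext.none)

def k0_pp_023 : ∃ t, chk3 f_pp_023 t 1 1 1 = true :=
  ⟨(l 4), by decide +kernel⟩

theorem c_pp_023 : CertF 0 536870912 1073741824 536870912 201326592 134217728 true true true .up 0 2 3
    ndF0q0 ndF3q2 pcF3 Cut.none Ext.none :=
  certF0 (fam := true) (s1 := true) (s2 := true) (a := 0) (b := 2) (c := 3) (cn := .up) (n1 := ndF0q0) (n2 := ndF3q2) (pc := pcF3) (cut := Cut.none) (xt := Ext.none) (P1 := 0) (W1 := 536870912) (P2 := 1073741824) (W2 := 536870912) (P3 := 201326592) (W3 := 134217728)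
    rfl k0_pp_023

noncomputable def f_pp_033 : ℕ → ℕ → ℕ → ℕ → Bool := onCell 0 536870912 0 1230186008 201326592 134217728
    (rowF 0 true true true .pnn 0 3 3 (qsf 0 536870912 0 1230186008 3) ndF0q0 ndF3q3 pcF3 Cut.none Ext.none)

def k0_pp_033 : ∃ t, chk3 f_pp_033 t 1 1 1 = true :=
  ⟨(b (l 4) (l 4)), by decide +kernel⟩

theorem c_pp_033 : CertF 0 536870912 0 1230186008 201326592 134217728 true true true .pnn 0 3 3
    ndF0q0 ndF3q3 pcF3 Cut.none Ext.none :=
  certF0 (fam := true) (s1 := true) (s2 := true) (a := 0) (b := 3) (c := 3) (cn := .pnn) (n1 := ndF0q0) (n2 := ndF3q3) (pc := pcF3) (cut := Cut.none) (xt := Ext.none) (P1 := 0) (W1 := 536870912) (P2 := 0) (W2 := 1230186008) (P3 := 201326592) (W3 := 134217728)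
    rfl k0_pp_033

noncomputable def f_pp_101 : ℕ → ℕ → ℕ → ℕ → Bool := onCell 536870912 536870912 0 536870912 201326592 134217728
    (rowF 0 true true true .npn 1 0 1 (qsf 536870912 536870912 0 536870912 1) ndF0q1 ndF3q0 pcF1 Cut.none Ext.none)

def k0_pp_101 : ∃ t, chk3 f_pp_101 t 1 1 1 = true :=
  ⟨(l 4), by decide +kernel⟩

theorem c_pp_101 : CertF 536870912 536870912 0 536870912 201326592 134217728 true true true .npn 1 0 1
    ndF0q1 ndF3q0 pcF1 Cut.none Ext.none :=
  certF0 (fam := true) (s1 := true) (s2 := true) (a := 1) (b := 0) (c := 1) (cn := .npn) (n1 := ndF0q1) (n2 := ndF3q0) (pc := pcF1) (cut := Cut.none) (xt := Ext.none) (P1 := 536870912) (W1 := 536870912) (P2 := 0) (W2 := 536870912) (P3 := 201326592) (W3 := 134217728)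
    rfl k0_pp_101

noncomputable def f_pp_102 : ℕ → ℕ → ℕ → ℕ → Bool := onCell 536870912 536870912 0 536870912 201326592 134217728
    (rowF 0 true true true .npp 1 0 2 (qsf 536870912 536870912 0 536870912 2) ndF0q1 ndF3q0 pcF2 Cut.none Ext.none)

def k0_pp_102 : ∃ t, chk3 f_pp_102 t 1 1 1 = true :=
  ⟨(l 4), by decide +kernel⟩

theorem c_pp_102 : CertF 536870912 536870912 0 536870912 201326592 134217728 true true true .npp 1 0 2
    ndF0q1 ndF3q0 pcF2 Cut.none Ext.none :=
  certF0 (fam := true) (s1 := true) (s2 := true) (a := 1) (b := 0) (c := 2) (cn := .npp) (n1 := ndF0q1) (n2 := ndF3q0) (pc := pcF2) (cut := Cut.none) (xt := Ext.none) (P1 := 536870912) (W1 := 536870912) (P2 := 0) (W2 := 536870912) (P3 := 201326592) (W3 := 134217728)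
    rfl k0_pp_102

noncomputable def f_pp_112 : ℕ → ℕ → ℕ → ℕ → Bool := onCell 536870912 536870912 536870912 536870912 201326592 134217728
    (rowF 0 true true true .dn 1 1 2 (qsf 536870912 536870912 536870912 536870912 2) ndF0q1 ndF3q1 pcF2 Cut.none Ext.none)

def k0_pp_112 : ∃ t, chk3 f_pp_112 t 1 1 1 = true :=
  ⟨(l 4), by decide +kernel⟩

theorem c_pp_112 : CertF 536870912 536870912 536870912 536870912 201326592 134217728 true true true .dn 1 1 2
    ndF0q1 ndF3q1 pcF2 Cut.none Ext.none :=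
  certF0 (fam := true) (s1 := true) (s2 := true) (a := 1) (b := 1) (c := 2) (cn := .dn) (n1 := ndF0q1) (n2 := ndF3q1) (pc := pcF2) (cut := Cut.none) (xt := Ext.none) (P1 := 536870912) (W1 := 536870912) (P2 := 536870912) (W2 := 536870912) (P3 := 201326592) (W3 := 134217728)
    rfl k0_pp_112

noncomputable def f_pp_113 : ℕ → ℕ → ℕ → ℕ → Bool := onCell 536870912 536870912 536870912 536870912 201326592 134217728
    (rowF 0 true true true .nn 1 1 3 (qsf 536870912 536870912 536870912 536870912 3) ndF0q1 ndF3q1 pcF3 Cut.none Ext.none)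

def k0_pp_113 : ∃ t, chk3 f_pp_113 t 1 1 1 = true :=
  ⟨(l 4), by decide +kernel⟩

theorem c_pp_113 : CertF 536870912 536870912 536870912 536870912 201326592 134217728 true true true .nn 1 1 3
    ndF0q1 ndF3q1 pcF3 Cut.none Ext.none :=
  certF0 (fam := true) (s1 := true) (s2 := true) (a := 1) (b := 1) (c := 3) (cn := .nn) (n1 := ndF0q1) (n2 := ndF3q1) (pc := pcF3) (cut := Cut.none) (xt := Ext.none) (P1 := 536870912) (W1 := 536870912) (P2 := 536870912) (W2 := 536870912) (P3 := 201326592) (W3 := 134217728)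
    rfl k0_pp_113

noncomputable def f_pp_123 : ℕ → ℕ → ℕ → ℕ → Bool := onCell 536870912 536870912 1073741824 536870912 201326592 134217728
    (rowF 0 true true true .npn 1 2 3 (qsf 536870912 536870912 1073741824 536870912 3) ndF0q1 ndF3q2 pcF3 Cut.none Ext.none)

def k0_pp_123 : ∃ t, chk3 f_pp_123 t 1 1 1 = true :=
  ⟨(l 4), by decide +kernel⟩

theorem c_pp_123 : CertF 536870912 536870912 1073741824 536870912 201326592 134217728 true true true .npn 1 2 3
    ndF0q1 ndF3q2 pcF3 Cut.none Ext.none :=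
  certF0 (fam := true) (s1 := true) (s2 := true) (a := 1) (b := 2) (c := 3) (cn := .npn) (n1 := ndF0q1) (n2 := ndF3q2) (pc := pcF3) (cut := Cut.none) (xt := Ext.none) (P1 := 536870912) (W1 := 536870912) (P2 := 1073741824) (W2 := 536870912) (P3 := 201326592) (W3 := 134217728)
    rfl k0_pp_123

noncomputable def f_pp_133 : ℕ → ℕ → ℕ → ℕ → Bool := onCell 536870912 536870912 0 1230186008 201326592 134217728
    (rowF 0 true true true .dn 1 3 3 (qsf 536870912 536870912 0 1230186008 3) ndF0q1 ndF3q3 pcF3 Cut.none Ext.none)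

def k0_pp_133 : ∃ t, chk3 f_pp_133 t 1 1 1 = true :=
  ⟨(l 4), by decide +kernel⟩

theorem c_pp_133 : CertF 536870912 536870912 0 1230186008 201326592 134217728 true true true .dn 1 3 3
    ndF0q1 ndF3q3 pcF3 Cut.none Ext.none :=
  certF0 (fam := true) (s1 := true) (s2 := true) (a := 1) (b := 3) (c := 3) (cn := .dn) (n1 := ndF0q1) (n2 := ndF3q3) (pc := pcF3) (cut := Cut.none) (xt := Ext.none) (P1 := 536870912) (W1 := 536870912) (P2 := 0) (W2 := 1230186008) (P3 := 201326592) (W3 := 134217728)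
    rfl k0_pp_133

noncomputable def f_pp_202 : ℕ → ℕ → ℕ → ℕ → Bool := onCell 0 536870912 0 536870912 201326592 134217728
    (rowF 0 true true true .pp 2 0 2 (qsf 0 536870912 0 536870912 2) ndF0q2 ndF3q0 pcF2 Cut.none Ext.none)

def k0_pp_202 : ∃ t, chk3 f_pp_202 t 1 1 1 = true :=
  ⟨(l 5), by decide +kernel⟩

theorem c_pp_202 : CertF 0 536870912 0 536870912 201326592 134217728 true true true .pp 2 0 2
    ndF0q2 ndF3q0 pcF2 Cut.none Ext.none :=
  certF0 (fam := true) (s1 := true) (s2 := true) (a := 2) (b := 0) (c := 2) (cn := .pp) (n1 := ndF0q2) (n2 := ndF3q0) (pc := pcF2) (cut := Cut.none) (xt := Ext.none) (P1 := 0) (W1 := 536870912) (P2 := 0) (W2 := 536870912) (P3 := 201326592) (W3 := 134217728)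
    rfl k0_pp_202

noncomputable def f_pp_203 : ℕ → ℕ → ℕ → ℕ → Bool := onCell 0 536870912 0 536870912 201326592 134217728
    (rowF 0 true true true .up 2 0 3 (qsf 0 536870912 0 536870912 3) ndF0q2 ndF3q0 pcF3 Cut.none Ext.none)

def k0_pp_203 : ∃ t, chk3 f_pp_203 t 1 1 1 = true :=
  ⟨(l 5), by decide +kernel⟩

theorem c_pp_203 : CertF 0 536870912 0 536870912 201326592 134217728 true true true .up 2 0 3
    ndF0q2 ndF3q0 pcF3 Cut.none Ext.none :=
  certF0 (fam := true) (s1 := true) (s2 := true) (a := 2) (b := 0) (c := 3) (cn := .up) (n1 := ndF0q2) (n2 := ndF3q0) (pc := pcF3) (cut := Cut.none) (xt := Ext.none) (P1 := 0) (W1 := 536870912) (P2 := 0) (W2 := 536870912) (P3 := 201326592) (W3 := 134217728)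
    rfl k0_pp_203

noncomputable def f_pp_213 : ℕ → ℕ → ℕ → ℕ → Bool := onCell 0 536870912 536870912 536870912 201326592 134217728
    (rowF 0 true true true .pnn 2 1 3 (qsf 0 536870912 536870912 536870912 3) ndF0q2 ndF3q1 pcF3 Cut.none Ext.none)

def k0_pp_213 : ∃ t, chk3 f_pp_213 t 1 1 1 = true :=
  ⟨(l 4), by decide +kernel⟩

theorem c_pp_213 : CertF 0 536870912 536870912 536870912 201326592 134217728 true true true .pnn 2 1 3
    ndF0q2 ndF3q1 pcF3 Cut.none Ext.none :=
  certF0 (fam := true) (s1 := true) (s2 := true) (a := 2) (b := 1) (c := 3) (cn := .pnn) (n1 := ndF0q2) (n2 := ndF3q1) (pc := pcF3) (cut := Cut.none) (xt := Ext.none) (P1 := 0) (W1 := 536870912) (P2 := 536870912) (W2 := 536870912) (P3 := 201326592) (W3 := 134217728)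
    rfl k0_pp_213

noncomputable def f_pm_001 : ℕ → ℕ → ℕ → ℕ → Bool := onCell 0 536870912 0 536870912 201326592 134217728
    (rowF 0 true true false .up 0 0 1 (qsf 0 536870912 0 536870912 1) ndF0q0 ndF3q0 pcF1 Cut.none Ext.none)

def k0_pm_001 : ∃ t, chk3 f_pm_001 t 1 1 1 = true :=
  ⟨(a (l 3) (b (l 3) (a (l 3) (b (l 3) (a (l 3) (b (l 3) (a (l 3) (b (a (l 3) (c (l 256793655095) (l 263772628327))) (a (b (b (l 3) (l 3)) (b (a (l 3) (c (a (l 248740511447) (l 200422061159)) (l 255719599879))) (a (c (c (l 246593280311) (l 251424916951)) (c (l 254645962151) (l 254645803943))) (c (c (l 17636336) (l 17538936)) (l 17408160))))) (c (c (l 193979836183) (l 199348357607)) (c (l 204180030135) (l 209011725639)))))))))))), by decide +kernel⟩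

theorem c_pm_001 : CertF 0 536870912 0 536870912 201326592 134217728 true true false .up 0 0 1
    ndF0q0 ndF3q0 pcF1 Cut.none Ext.none :=
  certF0 (fam := true) (s1 := true) (s2 := false) (a := 0) (b := 0) (c := 1) (cn := .up) (n1 := ndF0q0) (n2 := ndF3q0) (pc := pcF1) (cut := Cut.none) (xt := Ext.none) (P1 := 0) (W1 := 536870912) (P2 := 0) (W2 := 536870912) (P3 := 201326592) (W3 := 134217728)
    rfl k0_pm_001

noncomputable def cut_pm_011 : Cut := Cut.of [[⟨0, 0, 0, 67108864⟩, ⟨1, 1, 0, 67108864⟩, ⟨2, 1, 0, 67108864⟩]]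

noncomputable def f_pm_011 : ℕ → ℕ → ℕ → ℕ → Bool := onCell 536870912 536870912 536870912 536870912 201326592 134217728
    (rowF 2 true true false .pnn 0 1 1 (qsf 0 536870912 536870912 536870912 1) ndF0q0 ndF3q1 pcF1 cut_pm_011 Ext.none)

def k0_pm_011 : ∃ t, chk3 f_pm_011 t 2 1 1 = true :=
  ⟨(l 3), by decide +kernel⟩

def k1_pm_011 : ∃ t, chk3 f_pm_011 t 3 4 1 = true :=
  ⟨(a (l 3) (b (a (l 3) (a (l 3) (c (a (b (c (b (l 17434016) (l 17413368)) (b (a (c (l 17333176) (l 17277120)) (l 17325344)) (l 17255768))) (c (l 17383440) (b (l 17280784) (l 17264616)))) (b (c (l 17477080) (l 17345800)) (c (l 17438176) (l 17311736)))) (a (b (c (a (b (b (l 73182969191) (l 17192224)) (l 65666759959)) (b (l 17209648) (l 17194216))) (a (b (b (l 69961632599) (l 17090136)) (l 62445344311)) (b (l 17100504) (l 17086200)))) (c (b (l 62982400359) (l 17158344)) (a (b (l 56539746103) (l 17052800)) (b (l 17071904) (l 17057544))))) (b (c (l 17220808) (a (l 17099320) (l 17104696))) (b (l 17116352) (l 17058872)))))))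 (a (l 3) (a (l 3) (b (c (a (c (l 17347216) (l 17241712)) (l 17340904)) (b (a (c (l 17144216) (a (l 17038864) (l 17042744))) (l 17064000)) (a (c (l 17130024) (l 47949761911)) (l 17068592)))) (c (b (a (l 17272032) (l 17317632)) (a (l 83383565255) (l 17302704))) (a (b (c (l 17115672) (l 44728508679)) (c (l 73182824519) (a (l 57613324439) (l 16990912)))) (b (c (l 17134112) (l 17009304)) (c (l 17116720) (l 16987520)))))))))), by decide +kernel⟩

def k2_pm_011 : ∃ t, chk3 f_pm_011 t 6 5 1 = true :=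
  ⟨(l 3), by decide +kernel⟩

def k3_pm_011 : ∃ t, chk3 f_pm_011 t 14 5 1 = true :=
  ⟨(l 3), by decide +kernel⟩

def k4_pm_011 : ∃ t, chk3 f_pm_011 t 15 10 1 = true :=
  ⟨(c (a (l 3) (b (a (c (l 83920584903) (b (l 17184024) (l 67277265175))) (b (l 17281592) (c (l 17317216) (l 17180176)))) (a (a (l 3) (c (l 71035518215) (b (l 17116480) (l 58150270231)))) (c (b (l 17284808) (l 17246440)) (b (l 17136912) (a (l 17081984) (l 17092560))))))) (b (a (l 3) (a (a (l 3) (c (b (l 17077648) (l 67813893431)) (b (b (l 16968992) (l 16943496)) (b (l 16874960) (a (l 16870176) (l 16887040)))))) (b (c (l 17086296) (b (l 16962896) (l 16935248))) (c (l 17038168) (a (l 16874360) (l 16886848)))))) (a (l 3) (a (a (l 3) (c (b (b (l 16995840) (l 59223822423)) (b (l 55465668343) (a (l 197736384631) (l 16891824)))) (b (b (a (l 54928634263) (l 16857536)) (a (l 33990608231) (l 16826656))) (c (b (l 53854912631) (a (l 116131859719) (l 16798856))) (a (b (l 29695622343) (l 79087671591)) (l 47949135191)))))) (b (c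 (a (l 16984048) (l 16984320)) (a (b (l 16849288) (l 16816672)) (l 16820504))) (c (a (b (l 16940720) (l 16909792)) (l 16921928)) (a (a (l 16685080) (l 16760208)) (l 16683728)))))))), by decide +kernel⟩

def k5_pm_011 : ∃ t, chk3 f_pm_011 t 30 11 1 = true :=
  ⟨(l 3), by decide +kernel⟩

def k6_pm_011 : ∃ t, chk3 f_pm_011 t 31 22 1 = true :=
  ⟨(c (a (a (l 3) (c (b (l 17165816) (l 50634137047)) (b (b (l 52781478919) (l 49560194711)) (c (l 46339017927) (b (l 45265161639) (l 42043872135)))))) (c (b (l 17201616) (a (l 17139472) (l 17159648))) (b (a (l 16943344) (l 17034520)) (a (b (l 16981568) (c (l 16993352) (l 16903912))) (l 16968320))))) (a (a (l 3) (b (a (l 3) (c (b (c (l 16920544) (l 16843032)) (c (l 16889240) (l 53854834647))) (b (c (l 16764520) (l 16685000)) (c (l 52781040263) (l 16679160))))) (a (l 3) (c (b (c (l 50096828119) (l 50633557207)) (c (l 46875531911) (a (l 39359266263) (l 16734688)))) (b (l 48486001943) (l 44191034279)))))) (a (b (c (b (l 16877136) (a (l 16844992)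 (l 16840296))) (b (l 16708520) (l 16668784))) (b (c (a (l 16788424) (l 16803160)) (l 16677528)) (c (a (l 16729912) (l 16763896)) (l 16675192)))) (b (c (l 16809792) (l 16643528)) (c (b (l 16793392) (l 16751504)) (l 16620792)))))), by decide +kernel⟩

def k7_pm_011 : ∃ t, chk3 f_pm_011 t 31 23 1 = true :=
  ⟨(a (c (a (l 3) (a (l 3) (c (b (c (l 17110120) (l 17025424)) (c (l 17049696) (b (l 16976976) (l 36138336487)))) (b (c (b (l 16956384) (l 41507016311)) (b (l 43654401015) (a (l 3) (l 45801800311)))) (a (l 3) (c (b (l 16824904) (l 36675017623)) (b (b (l 16764016) (l 39896134103)) (b (l 37211774967) (l 34527419223))))))))) (a (l 3) (a (l 3) (c (c (b (b (a (l 70497780647) (l 16741600)) (l 40969830647)) (b (l 36674865879) (l 36137996327))) (b (b (l 43117303687) (l 38822336663)) (b (l 35064237143) (l 31306138519)))) (b (b (l 39896061655) (l 36137961799)) (b (l 32379863911) (l 28621767319))))))) (c (c (b (a (c (l 17127232) (l 17035304)) (l 17097912)) (a (c (l 17063960) (b (l 16984072)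 (l 16926064))) (c (l 17080856) (l 16971816)))) (a (b (b (c (l 16959944) (l 16867616)) (a (c (l 16924152) (l 16831360)) (l 16875816))) (a (b (c (l 16887232) (a (l 16793160) (l 16789912))) (b (c (l 16858048) (l 16760144)) (c (l 16837832) (l 16738416)))) (b (l 16814584) (l 16729768)))) (b (b (l 16912648) (l 16872320)) (b (l 16829208) (l 16762080))))) (a (a (c (b (b (c (l 16778056) (l 16686216)) (c (l 16737656) (l 16676032))) (c (b (l 16694976) (l 16694952)) (b (l 16675080) (l 16674848)))) (b (b (l 16661120) (l 16660376)) (c (l 16686208) (l 16656016)))) (b (c (l 16679640) (l 16643952)) (c (c (l 16667816) (l 16658152)) (l 16644304)))) (b (c (l 16662664) (l 16618752)) (c (l 16658528) (l 16619720)))))), by decide +kernel⟩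

def k8_pm_011 : ∃ t, chk3 f_pm_011 t 6 3 1 = true :=
  ⟨(l 3), by decide +kernel⟩

def k9_pm_011 : ∃ t, chk3 f_pm_011 t 14 12 1 = true :=
  ⟨(l 3), by decide +kernel⟩

def k10_pm_011 : ∃ t, chk3 f_pm_011 t 30 12 1 = true :=
  ⟨(l 3), by decide +kernel⟩

def k11_pm_011 : ∃ t, chk3 f_pm_011 t 31 24 1 = true :=
  ⟨(a (a (l 3) (a (l 3) (b (b (b (c (c (l 209547595655) (c (l 164450357831) (l 44191083671))) (c (c (l 29695542407) (l 28084910823)) (l 26474280967))) (l 3)) (l 3)) (l 3)))) (c (b (a (c (c (b (l 17010528) (l 46338932343)) (a (b (l 46875675319) (b (l 16834624) (l 43117487239))) (b (l 16907656) (l 16864272)))) (c (b (a (a (b (l 16818184) (l 16755032)) (l 16804928)) (l 16800736)) (a (a (b (l 42580479527) (l 40432957783)) (l 16738936)) (l 16753744))) (a (b (b (l 16726520) (l 46338526183)) (a (l 39896080135) (l 16689296))) (l 16687040)))) (c (b (l 16923584) (c (l 16980464) (l 16861144))) (b (l 16712616) (l 16670024)))) (a (c (a (c (b (l 40970130615) (b (l 38822595479) (a (l 31843222855)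 (l 16873960)))) (c (b (a (l 36675053047) (l 16848224)) (b (l 38285617255) (a (l 31306243831) (l 16789384)))) (a (b (b (l 16766016) (l 35601200071)) (l 32916778103)) (b (l 16793856) (l 16703424))))) (b (c (l 16931288) (l 16796816)) (c (l 16864448) (a (l 16769808) (l 16766072))))) (a (c (a (b (c (l 37211737895) (l 36137991927)) (c (l 32379903655) (l 31306154055))) (b (l 16701448) (c (l 16700680) (l 16696672)))) (b (a (l 35064241959) (l 16689776)) (a (l 30232404743) (l 16690792)))) (c (b (l 16703496) (l 16686168)) (b (l 16677344) (l 16678488))))) (b (c (a (l 16831520) (l 16871992)) (l 16677144)) (c (a (l 16738976) (l 16818616)) (l 16678272))))) (a (c (b (a (c (b (l 16694760) (l 41506676135)) (b (l 16675256) (l 16676216))) (c (l 16667776) (l 16659296))) (a (b (c (l 37748581591) (l 16698640)) (c (l 33990487991) (l 16700544))) (c (l 16691008) (l 16662624)))) (a (b (b (l 16683288) (l 16685056)) (b (l 16687280) (l 16689912))) (b (l 16647152) (l 16672960)))) (b (c (l 16670120) (l 16644080))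 (c (a (l 16650096) (l 16633808)) (l 16649416)))))), by decide +kernel⟩

def k12_pm_011 : ∃ t, chk3 f_pm_011 t 62 25 1 = true :=
  ⟨(l 3), by decide +kernel⟩

def k13_pm_011 : ∃ t, chk3 f_pm_011 t 63 25 2 = true :=
  ⟨(a (b (c (b (a (c (a (b (l 112373811399) (l 3)) (c (l 16846104) (b (l 16821784) (l 16775928)))) (b (c (a (l 42580483143) (l 16764424)) (l 35064265015)) (c (l 33990528727) (l 33453654407)))) (c (a (l 16794896) (l 16835328)) (l 16703984))) (a (a (l 3) (c (c (b (l 16830248) (l 35064358791)) (b (l 37748647815) (l 35601135031))) (c (b (l 16711840) (l 35064260855)) (l 35064255127)))) (c (a (b (l 16798056) (l 16770984)) (l 16781384)) (a (l 16699936) (l 16691600))))) (a (c (a (b (c (l 27548066135) (l 27011187655)) (l 3)) (b (c (l 16701528) (l 16697792)) (c (l 34527377127) (l 16699312)))) (b (a (l 25937439287) (l 16692288)) (a (l 3) (l 16704664)))) (c (b (l 16687280) (l 16699352)) (b (l 16680112) (l 16682176))))) (c (a (a (l 3) (c (b (c (b (a (l 46875461463) (l 16777200)) (l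 31843047079)) (b (l 33453654455) (l 30769302263))) (a (l 3) (c (b (l 16720512) (l 29158690807)) (l 30232427671)))) (b (c (b (l 32379907127) (l 30232424663)) (l 30769290295)) (b (l 27548071511) (l 25400589095))))) (c (b (a (b (l 16742896) (l 16713760)) (l 16723184)) (a (c (b (l 16716336) (l 16711624)) (l 16713248)) (l 16701288))) (b (a (l 16711928) (l 16693192)) (b (l 16709296) (l 16710360))))) (a (a (l 3) (b (c (c (l 30232413095) (l 16709048)) (l 30232401255)) (c (c (l 27011191191) (l 27011185447)) (l 27548049735)))) (b (c (l 16701368) (l 16684648)) (c (l 16709008) (l 16687464)))))) (b (c (c (a (b (l 16832928) (l 16776400)) (l 16757968)) (a (l 16688664) (l 16661256))) (a (c (l 16671304) (l 16664640)) (l 16651440))) (c (c (a (b (l 16715176) (l 16688792)) (l 16670776)) (b (l 16693432) (l 16695632))) (a (c (l 16696552) (l 16669816)) (l 16677464))))), by decide +kernel⟩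

def k14_pm_011 : ∃ t, chk3 f_pm_011 t 63 25 3 = true :=
  ⟨(a (b (c (a (b (c (l 30769265511) (l 16692368)) (c (l 28084914743) (l 28621773367))) (c (l 16692568) (l 16688712))) (a (b (l 29695499127) (l 29158629943)) (l 16679424))) (c (a (a (l 3) (b (a (l 30769254695) (l 16685376)) (l 33453611239))) (b (l 16696624) (l 16700048))) (b (a (l 31306114247) (l 16664360)) (a (l 33453600999) (l 16668536))))) (c (b (a (l 16655064) (l 16639104)) (b (l 16673120) (l 16676768))) (b (l 16656328) (b (l 16641576) (l 16645960))))), by decide +kernel⟩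

def k15_pm_011 : ∃ t, chk3 f_pm_011 t 14 13 1 = true :=
  ⟨(l 3), by decide +kernel⟩

def k16_pm_011 : ∃ t, chk3 f_pm_011 t 30 13 1 = true :=
  ⟨(l 3), by decide +kernel⟩

def k17_pm_011 : ∃ t, chk3 f_pm_011 t 62 26 1 = true :=
  ⟨(l 3), by decide +kernel⟩

def k18_pm_011 : ∃ t, chk3 f_pm_011 t 63 26 2 = true :=
  ⟨(a (b (c (b (a (a (l 3) (a (l 3) (c (c (b (l 25937466391) (l 23253113015)) (l 24863721623)) (c (l 24863715927) (l 16715056))))) (c (a (c (b (l 16712480) (l 16718680)) (b (l 16709480) (l 16710544))) (l 16703200)) (a (c (l 16717512) (l 16704168)) (l 16697528)))) (a (l 3) (c (a (c (b (l 31306172503) (l 29158690903)) (b (l 16711680) (l 16718128))) (l 16715984)) (a (c (l 29695552903) (l 16717304)) (l 16700232))))) (b (a (a (l 3) (a (l 3) (c (l 25400576119) (l 16700016)))) (c (a (l 16710440) (l 16692016)) (l 16711552))) (a (l 3) (c (a (l 16713400) (l 16695112)) (l 16714960))))) (a (l 3) (c (c (a (b (c (b (l 27011209591) (l 25400598999)) (b (l 27548075335) (l 25937464935)))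 (a (l 3) (c (b (l 16717576) (l 16718976)) (l 25937465239)))) (b (c (l 16709400) (l 16706920)) (c (l 16722760) (l 16709984)))) (b (a (b (l 27011199431) (l 25400589319)) (l 16703272)) (a (b (l 24326850231) (l 23253111239)) (l 16717088)))) (b (c (a (l 26474323975) (l 16698520)) (l 27548057063)) (c (a (l 23789974935) (l 16702200)) (a (l 16715640) (l 16697912))))))) (b (c (a (c (b (l 16690848) (l 16693280)) (b (l 16685368) (l 16688200))) (c (l 16696152) (l 16670184))) (a (c (l 16702272) (l 16697312)) (l 16683928))) (c (a (c (b (l 16706544) (l 16709632)) (b (l 16691352) (l 16694800))) (c (l 16701936) (l 16697688))) (a (b (l 16705512) (l 16709464)) (l 16691520))))), by decide +kernel⟩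

def k19_pm_011 : ∃ t, chk3 f_pm_011 t 63 26 3 = true :=
  ⟨(a (b (c (a (b (c (l 25400568631) (l 29695524167)) (l 3)) (b (l 16703744) (c (l 16689112) (l 16684376)))) (b (a (l 30232385287) (l 16672944)) (a (l 3) (l 16677568)))) (a (l 3) (c (b (c (l 16714080) (l 16688712)) (c (l 16707800) (l 16693232))) (b (l 16682368) (l 16708304))))) (b (c (a (l 16690152) (l 16653824)) (a (l 16660160) (l 16645272))) (c (b (l 16689336) (a (l 16680496) (l 16665472))) (a (l 16691008) (l 16655392))))), by decide +kernel⟩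

def k20_pm_011 : ∃ t, chk3 f_pm_011 t 62 27 1 = true :=
  ⟨(l 3), by decide +kernel⟩

def k21_pm_011 : ∃ t, chk3 f_pm_011 t 63 54 1 = true :=
  ⟨(c (a (a (l 3) (c (a (a (l 3) (a (l 3) (b (c (c (l 23789982919) (l 16723288)) (l 25937463703)) (l 3)))) (c (b (a (b (l 16715648) (l 16722576)) (l 16722896)) (c (b (l 16723352) (l 25400603079)) (b (l 16716112) (l 16717928)))) (b (c (l 16721712) (l 16709160)) (c (l 25400587655) (l 16723496))))) (a (b (c (l 22716238647) (l 16719560)) (l 3)) (b (c (l 16706112) (l 16702144)) (c (l 16720680) (l 16706520)))))) (c (a (b (c (a (l 16706472) (l 16698536)) (l 16719472)) (c (a (l 16720544) (l 16702192)) (l 16723400))) (b (l 16705656) (l 16709568))) (a (b (l 16713640) (c (l 16698824) (l 16695304))) (c (l 16701736) (l 16698320))))) (a (a (l 3) (c (b (c (l 30769282423) (l 16718880)) (c (l 29158678423) (l 16713200))) (b (l 16713408) (l 16708136)))) (c (a (b (l 16685264) (l 16690200)) (l 16693376)) (b (l 16692016) (l 16697504))))), by decide +kernel⟩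

def k22_pm_011 : ∃ t, chk3 f_pm_011 t 63 55 1 = true :=
  ⟨(c (a (a (l 3) (a (l 3) (c (b (c (c (b (l 24326864487) (l 23253126279)) (b (l 16725024) (l 25400606071))) (b (l 16724928) (l 26474344311))) (a (l 3) (c (b (l 28621832055) (l 27011223255)) (c (l 25937477767) (l 16730120))))) (b (c (l 25937467671) (l 16721496)) (c (b (l 16717816) (l 16730536)) (l 25937471639)))))) (a (c (c (b (b (l 16719648) (l 16721632)) (a (b (l 16717056) (l 16729656)) (l 16710288))) (b (c (l 16728392) (l 16726704)) (b (l 16730944) (l 16722712)))) (b (c (l 16724216) (l 16700000)) (c (c (l 16729696) (l 16728176)) (l 16725936)))) (c (b (c (l 16694320) (l 16691136)) (c (l 16719608) (l 16695712))) (b (l 16686504) (l 16691456))))) (a (a (l 3) (c (a (l 3) (b (l 16716576) (l 28621819495))) (b (l 31306159831) (l 29695557447)))) (a (c (b (l 16716256) (l 16711096)) (b (l 16689280) (l 16695048))) (c (b (l 16680592) (l 16686008)) (l 16698656))))), by decide +kernel⟩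

def k23_pm_011 : ∃ t, chk3 f_pm_011 t 14 14 1 = true :=
  ⟨(l 3), by decide +kernel⟩

def k24_pm_011 : ∃ t, chk3 f_pm_011 t 15 28 1 = true :=
  ⟨(a (l 3) (a (l 3) (b (a (a (l 3) (a (l 3) (a (l 3) (b (c (c (c (b (c (l 25937485415) (l 16726128)) (l 24863746535)) (b (l 16723816) (l 16726152))) (c (l 27011220823) (l 16718960))) (c (l 16725224) (l 16709352))) (l 3))))) (c (a (c (b (c (a (b (l 16726656) (l 16729088)) (l 16725272)) (b (l 16725080) (l 16727584))) (c (a (c (a (l 16735192) (l 16726232)) (l 28084970567)) (l 16719760)) (a (l 29695580039) (l 16717024)))) (a (b (c (l 16727064) (l 16713728)) (c (l 16721744) (l 16719040))) (b (l 16728680) (l 16713032)))) (c (b (c (l 16724168) (l 16700472)) (c (l 16708224) (l 16705640))) (b (l 16717480) (l 16701880)))) (a (c (b (c (l 16728280) (l 16704648)) (l 16722008)) (b (l 16721736) (l 16706592))) (b (a (l 16713544) (l 16685400)) (l 16715728))))) (a (l 3) (c (a (a (c (a (a (l 3) (b (c (l 27011238711) (l 16730248)) (l 3))) (c (b (l 16735504)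 (c (l 16740736) (l 16734232))) (b (l 16727600) (l 16732368)))) (c (b (l 16731912) (l 30769334359)) (b (l 16724120) (l 16729128)))) (c (c (b (l 16724544) (l 16734536)) (b (l 16721952) (l 16726864))) (c (l 16727232) (l 16719600)))) (c (a (c (l 16729792) (l 16716896)) (c (l 16711648) (l 16709344))) (a (l 16713392) (l 16705992)))) (a (c (b (l 38822372279) (a (l 16725688) (l 16718848))) (a (l 16729000) (l 16711744))) (a (l 16713344) (l 16699672)))))))), by decide +kernel⟩

def k25_pm_011 : ∃ t, chk3 f_pm_011 t 15 29 1 = true :=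
  ⟨(a (l 3) (a (l 3) (a (l 3) (a (c (b (b (c (b (a (c (a (l 3) (l 28084989783)) (l 27548118839)) (c (l 16732824) (l 16730528))) (a (l 3) (c (l 16740408) (l 16732952)))) (a (c (l 29695600407) (l 16739312)) (l 16733704))) (a (l 3) (b (c (c (l 32916826663) (l 16735352)) (l 16732272)) (c (c (l 31306218311) (l 16737712)) (l 16734784))))) (a (l 3) (a (b (c (c (l 35064319015) (l 16742888)) (l 16740168)) (l 3)) (c (b (c (l 16741408) (l 16739552)) (c (l 16745848) (l 16744208))) (b (l 16736856) (l 16741840)))))) (a (b (c (b (l 16736136) (l 3)) (l 38822393863)) (l 3)) (b (c (b (l 16724304) (l 16729712)) (l 16733736)) (c (b (l 16735064) (l 16745616)) (b (l 16731856) (l 16737568)))))) (a (c (c (b (c (b (l 16726416) (l 16731136)) (l 16731976)) (b (c (l 16735800) (l 16734008)) (c (l 16740408) (l 16738824)))) (b (c (l 16724712) (l 16722744)) (b (l 16731408) (l 16736528)))) (b (c (l 16719904) (l 16716312)) (b (l 16726568) (l 16742744)))) (c (c (b (c (l 16731704) (l 16719240)) (b (l 16727416) (l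 16732168))) (b (l 16716376) (b (l 16724112) (l 16729264)))) (b (l 16716568) (c (l 16734264) (l 16721040))))))))), by decide +kernel⟩

def k26_pm_011 : ∃ t, chk3 f_pm_011 t 7 15 1 = true :=
  ⟨(a (l 3) (a (l 3) (a (l 3) (b (a (l 3) (b (b (b (b (b (b (c (a (a (l 3) (c (l 20031948615) (l 16745952))) (c (l 16748872) (l 16735616))) (a (c (l 16751408) (l 16748824)) (l 16742272))) (l 6)) (l 6)) (l 6)) (l 6)) (l 6)) (l 6))) (l 6))))), by decide +kernel⟩

theorem s27_pm_011 : ∃ t, chk3 f_pm_011 t 15 14 1 = true := ex3_b k24_pm_011 k25_pm_011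

theorem s28_pm_011 : ∃ t, chk3 f_pm_011 t 7 14 1 = true := ex3_a k23_pm_011 s27_pm_011

theorem s29_pm_011 : ∃ t, chk3 f_pm_011 t 7 7 1 = true := ex3_b s28_pm_011 k26_pm_011

theorem s30_pm_011 : ∃ t, chk3 f_pm_011 t 63 27 1 = true := ex3_b k21_pm_011 k22_pm_011

theorem s31_pm_011 : ∃ t, chk3 f_pm_011 t 31 27 1 = true := ex3_a k20_pm_011 s30_pm_011

theorem s32_pm_011 : ∃ t, chk3 f_pm_011 t 63 26 1 = true := ex3_c k18_pm_011 k19_pm_011

theorem s33_pm_011 : ∃ t, chk3 f_pm_011 t 31 26 1 = true := ex3_a k17_pm_011 s32_pm_011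

theorem s34_pm_011 : ∃ t, chk3 f_pm_011 t 31 13 1 = true := ex3_b s33_pm_011 s31_pm_011

theorem s35_pm_011 : ∃ t, chk3 f_pm_011 t 15 13 1 = true := ex3_a k16_pm_011 s34_pm_011

theorem s36_pm_011 : ∃ t, chk3 f_pm_011 t 7 13 1 = true := ex3_a k15_pm_011 s35_pm_011

theorem s37_pm_011 : ∃ t, chk3 f_pm_011 t 63 25 1 = true := ex3_c k13_pm_011 k14_pm_011

theorem s38_pm_011 : ∃ t, chk3 f_pm_011 t 31 25 1 = true := ex3_a k12_pm_011 s37_pm_011

theorem s39_pm_011 : ∃ t, chk3 f_pm_011 t 31 12 1 = true := ex3_b k11_pm_011 s38_pm_011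

theorem s40_pm_011 : ∃ t, chk3 f_pm_011 t 15 12 1 = true := ex3_a k10_pm_011 s39_pm_011

theorem s41_pm_011 : ∃ t, chk3 f_pm_011 t 7 12 1 = true := ex3_a k9_pm_011 s40_pm_011

theorem s42_pm_011 : ∃ t, chk3 f_pm_011 t 7 6 1 = true := ex3_b s41_pm_011 s36_pm_011

theorem s43_pm_011 : ∃ t, chk3 f_pm_011 t 7 3 1 = true := ex3_b s42_pm_011 s29_pm_011

theorem s44_pm_011 : ∃ t, chk3 f_pm_011 t 3 3 1 = true := ex3_a k8_pm_011 s43_pm_011

theorem s45_pm_011 : ∃ t, chk3 f_pm_011 t 31 11 1 = true := ex3_b k6_pm_011 k7_pm_011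

theorem s46_pm_011 : ∃ t, chk3 f_pm_011 t 15 11 1 = true := ex3_a k5_pm_011 s45_pm_011

theorem s47_pm_011 : ∃ t, chk3 f_pm_011 t 15 5 1 = true := ex3_b k4_pm_011 s46_pm_011

theorem s48_pm_011 : ∃ t, chk3 f_pm_011 t 7 5 1 = true := ex3_a k3_pm_011 s47_pm_011

theorem s49_pm_011 : ∃ t, chk3 f_pm_011 t 3 5 1 = true := ex3_a k2_pm_011 s48_pm_011

theorem s50_pm_011 : ∃ t, chk3 f_pm_011 t 3 2 1 = true := ex3_b k1_pm_011 s49_pm_011

theorem s51_pm_011 : ∃ t, chk3 f_pm_011 t 3 1 1 = true := ex3_b s50_pm_011 s44_pm_011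

theorem s52_pm_011 : ∃ t, chk3 f_pm_011 t 1 1 1 = true := ex3_a k0_pm_011 s51_pm_011

theorem c_pm_011 : CertF 0 536870912 536870912 536870912 201326592 134217728 true true false .pnn 0 1 1
    ndF0q0 ndF3q1 pcF1 cut_pm_011 Ext.none :=
  certF2 (fam := true) (s1 := true) (s2 := false) (a := 0) (b := 1) (c := 1) (cn := .pnn) (n1 := ndF0q0) (n2 := ndF3q1) (pc := pcF1) (cut := cut_pm_011) (xt := Ext.none) (P1 := 0) (W1 := 536870912) (P2 := 536870912) (W2 := 536870912) (P3 := 201326592) (W3 := 134217728)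
    rfl (fun _ => rfl) s52_pm_011

end Pool.Agent.Strip051.G.I3_16_5_16.Tab.C.FA03

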