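import Pool.Agent.Strip051.G.I3_16_5_16.Tab

/-! # Certificates F3 (generated) -/

set_option linter.all false
set_option maxRecDepth 100000

namespace Pool.Agent.Strip051.G.I3_16_5_16.Tab.C.FA03

open Pool.Agent.Strip051.PB Pool.Agent.Strip051.PB.T
open Pool.Agent.Strip051.G.I3_16_5_16.Tab

noncomputable def cut_pm_012 : Cut := Cut.of [[⟨0, 0, 0, 67108864⟩, ⟨1, 1, 0, 67108864⟩, ⟨2, 1, 0, 67108864⟩]]

noncomputable def f_pm_012 : ℕ → ℕ → ℕ → ℕ → Bool := onCell 1073741824 536870912 536870912 536870912 201326592 134217728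
    (rowF 2 true true false .pnp 0 1 2 (qsf 0 536870912 536870912 536870912 2) ndF0q0 ndF3q1 pcF2 cut_pm_012 Ext.none)

def k0_pm_012 : ∃ t, chk3 f_pm_012 t 4 4 1 = true :=
  ⟨(a (b (a (a (c (b (l 17472712) (l 17435088)) (b (c (l 17263256) (l 17131440)) (c (l 17228336) (l 17095752)))) (c (l 17818887687) (b (l 17220072) (l 17183400)))) (c (l 17543120) (b (l 17260176) (l 17222880)))) (b (a (c (a (l 17398976) (l 17433640)) (a (c (l 17193160) (l 17057384)) (l 17144600))) (c (l 17488312) (l 17182096))) (c (a (a (l 17322688) (l 17397784)) (l 17451592)) (a (a (b (l 17095344) (l 17030992)) (b (l 17112568) (l 17089000))) (a (l 17122976) (l 17150464)))))) (a (b (c (l 17614896) (l 17301864)) (c (b (l 17563096) (l 17527952)) (b (l 17243712) (l 17198440)))) (b (l 2) (a (b (l 17456392) (l 17419968)) (c (l 17642280) (b (l 2) (l 17288520))))))), by decide +kernel⟩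

def k1_pm_012 : ∃ t, chk3 f_pm_012 t 8 5 1 = true :=
  ⟨(b (b (c (a (a (c (l 17393944) (l 17244376)) (l 17355504)) (c (l 17498080) (l 17329584))) (a (b (a (c (l 17112848) (l 16958592)) (l 17053280)) (a (c (l 17063168) (l 16897344)) (l 17001336))) (b (l 17090840) (l 17045672)))) (a (c (a (c (l 17329904) (b (l 17179912) (l 17128768))) (c (l 17378880) (l 17194616))) (a (a (b (c (l 17001296) (l 16826208)) (c (l 16936872) (l 16749520))) (b (l 16923600) (l 16812320))) (b (l 16942416) (l 16833728)))) (c (c (l 17457168) (l 17263168)) (a (b (l 16974960) (l 16912720)) (l 16986512))))) (a (c (b (b (a (c (l 17264336) (l 17069824)) (l 17218200)) (a (c (l 17210888) (a (l 16991352) (l 17013504))) (l 16931368))) (a (c (b (l 17085432) (a (l 16954312) (l 17091992))) (b (a (a (l 16865440) (l 16918320)) (l 16936472)) (a (b (l 16846152) (l 16797608)) (l 16847472)))) (c (b (l 17213912) (l 17146024)) (b (l 16978016) (l 16892544))))) (a (b (b (a (c (l 16864072) (l 16663832)) (l 16734176)) (a (c (l 16718800) (l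 16595080)) (l 16687968))) (a (b (c (a (l 16684792) (l 16691976)) (l 16593400)) (c (l 16633704) (l 16594624))) (b (l 16587976) (l 16590792)))) (b (b (l 16716288) (l 16651752)) (b (c (l 16738504) (l 16507696)) (l 16560208))))) (c (b (c (l 17391136) (a (l 17139400) (l 17198896))) (a (c (l 17255688) (l 17003176)) (c (l 17333128) (l 17075840)))) (b (a (b (l 16841904) (l 16761376)) (l 16729896)) (a (b (l 16669416) (l 16563896)) (b (l 16731752) (l 16633528))))))), by decide +kernel⟩

def k2_pm_012 : ∃ t, chk3 f_pm_012 t 9 5 1 = true :=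
  ⟨(a (b (c (b (l 17499144) (l 17464856)) (b (l 17140848) (b (l 17080528) (l 17032144)))) (c (b (l 17407120) (c (l 17450288) (l 17190232))) (b (a (l 16914216) (l 16976056)) (a (l 16757080) (l 16833656))))) (b (c (a (b (l 17564504) (l 17544184)) (b (l 17606712) (l 17595336))) (a (b (l 17202016) (l 17133896)) (b (l 17244104) (l 17185880)))) (c (a (b (l 17502272) (l 17435144)) (b (l 17563392) (l 17508368))) (a (b (l 17039552) (l 16911864)) (b (l 17103008) (a (l 16970448) (l 17009160))))))), by decide +kernel⟩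

def k3_pm_012 : ∃ t, chk3 f_pm_012 t 5 2 1 = true :=
  ⟨(b (a (b (l 2) (a (a (c (l 17676600) (l 17429784)) (l 2)) (l 2))) (l 2)) (a (a (c (b (a (l 17645648) (a (l 17675144) (l 17693712))) (a (b (l 17621792) (l 17578128)) (a (l 17647296) (b (l 17687640) (l 17657600))))) (b (a (b (l 17286128) (l 17237456)) (a (b (l 17315848) (l 17274432)) (b (l 17335144) (l 17298480)))) (a (b (l 17165624) (l 17065624)) (a (b (l 17210736) (l 17120552)) (b (a (l 17232640) (l 17247040)) (a (l 17147280) (l 17164832))))))) (b (c (l 17733880) (b (l 17379600) (l 17354616))) (c (b (l 17745024) (l 17728040)) (b (l 17309384) (l 17240944))))) (a (b (c (l 17792760) (l 17485776)) (c (l 17830664) (b (l 17412648) (l 17366296)))) (b (l 2) (c (l 17901216) (l 17489144)))))), by decide +kernel⟩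

def k4_pm_012 : ∃ t, chk3 f_pm_012 t 8 12 1 = true :=
  ⟨(a (c (a (b (a (c (b (b (l 16995600) (l 16864944)) (a (b (l 16847928) (l 16771872)) (l 16837896))) (b (b (l 16745368) (l 16689088)) (a (l 16661432) (l 16623472)))) (b (c (l 17007472) (l 16744144)) (c (l 16865936) (l 16623504)))) (a (c (b (a (b (l 16712048) (l 16704640)) (l 16718520)) (a (c (l 16680472) (l 16656960)) (l 16653384))) (b (a (l 16664416) (l 16626688)) (a (l 16669080) (l 16631552)))) (b (c (l 16727040) (l 16601392)) (c (l 16638760) (l 16606592))))) (b (b (c (l 17065832) (l 16792856)) (c (l 16866024) (l 16676032))) (b (c (a (l 16834120) (l 16882528)) (l 16571048)) (c (a (l 16696696) (l 16749680)) (l 16576944))))) (a (a (b (b (c (l 16634912) (l 16598176)) (c (l 16638264) (l 16603624))) (c (b (l 16643376) (l 16670904)) (b (l 16610584) (l 16639744)))) (b (b (l 16593824) (l 16598760)) (b (l 16605296) (l 16613096)))) (b (b (l 16564248) (l 16570088)) (b (l 16577376) (l 16585864))))) (b (c (a (b (c (l 17150856) (l 16869408)) (c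 (l 17064088) (l 16760376))) (c (l 17203096) (l 16906144))) (a (c (l 16521880) (l 16492776)) (b (l 16519968) (l 16430936)))) (c (a (b (c (l 16960464) (l 16631496)) (a (l 16678448) (l 16686504))) (b (l 16672792) (c (l 16958192) (l 16596296)))) (a (b (l 16510304) (l 16519832)) (c (l 16464544) (l 16457312)))))), by decide +kernel⟩

def k5_pm_012 : ∃ t, chk3 f_pm_012 t 8 13 1 = true :=
  ⟨(a (b (b (a (c (a (c (a (c (l 16687976) (l 16661752)) (l 16668488)) (a (l 16675136) (l 16637856))) (c (l 16643040) (l 16613216))) (a (c (l 16678640) (l 16648912)) (l 16621976))) (c (c (l 16612464) (l 16605232)) (l 16595392))) (a (c (a (c (a (c (l 16693312) (l 16688840)) (l 16674448)) (a (l 16682360) (l 16645296))) (c (l 16649368) (l 16641960))) (a (c (l 16676856) (l 16658872)) (l 16631712))) (c (c (l 16619440) (l 16613624)) (a (l 16600464) (l 16568824))))) (a (a (b (c (c (a (b (l 16696552) (l 16700216)) (l 16681392)) (b (l 16680864) (l 16685192))) (c (a (l 16683440) (l 16647040)) (l 16690344))) (c (c (a (b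 (l 16704080) (c (l 16688824) (l 16685760))) (l 16689648)) (b (l 16689672) (l 16699664))) (a (b (l 16688344) (l 16693800)) (l 16675776)))) (c (b (c (l 16656624) (l 16650504)) (c (l 16675632) (l 16660112))) (b (l 16641984) (l 16674032)))) (b (b (c (c (l 16604928) (l 16599992)) (l 16593256)) (c (c (l 16609152) (l 16604784)) (l 16598808))) (c (a (c (l 16632168) (l 16628104)) (a (l 16605488) (l 16588960))) (l 16638560))))) (b (a (c (c (b (l 16685512) (l 16549840)) (b (l 16536832) (l 16546216))) (c (l 16557128) (l 16553832))) (c (c (b (l 16823056) (l 16658248)) (l 16495232)) (b (l 16462688) (l 16481056)))) (a (c (b (b (l 16555560) (l 16560544)) (c (l 16568832) (l 16567320))) (b (l 16553128) (l 16565432))) (c (b (c (l 16499464) (l 16499472)) (c (l 16539784) (l 16518024))) (b (l 16499040) (l 16516536)))))), by decide +kernel⟩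

def k6_pm_012 : ∃ t, chk3 f_pm_012 t 9 6 1 = true :=
  ⟨(a (b (c (b (c (l 17345360) (a (l 16999536) (l 17094016))) (b (c (l 17236192) (l 16902840)) (c (l 17144320) (l 16783728)))) (b (a (l 16636544) (l 16643032)) (b (a (l 16388112) (l 16456928)) (a (l 16405104) (l 16388576))))) (b (c (b (a (l 16682840) (l 16844168)) (a (c (l 16818312) (l 16440768)) (l 16700400))) (b (l 16453952) (a (l 16438064) (l 16417016)))) (c (b (c (a (l 16639968) (l 16820968)) (l 16490168)) (c (a (l 16498944) (l 16629912)) (l 16505832))) (a (b (l 16454224) (l 16490912)) (b (l 16431272) (l 16445280)))))) (b (a (b (c (l 17335616) (l 16739936)) (c (c (l 17362168) (l 17020992)) (b (l 16572096) (l 16435776)))) (c (b (l 17340384) (c (l 17468624) (l 17132992))) (b (a (l 16812104) (l 16859632)) (a (l 16597080) (l 16656456))))) (a (b (c (b (l 16980376) (l 16771464)) (b (l 16385032) (l 16396984))) (c (b (c (l 16993632) (l 16538824)) (c (l 16830176) (l 16433216))) (b (l 16409208) (l 16421424)))) (b (c (a (c (l 17284488) (l 16891536))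 (c (l 17349360) (l 16960968))) (b (l 16420280) (l 16400440))) (c (b (a (l 16893496) (l 16911944)) (a (l 16706512) (l 16653496))) (b (l 16410448) (l 16441616))))))), by decide +kernel⟩

def k7_pm_012 : ∃ t, chk3 f_pm_012 t 8 28 1 = true :=
  ⟨(a (a (a (a (c (b (c (b (c (l 16693088) (l 16690248)) (l 16717424)) (b (l 16686096) (l 16691200))) (b (c (l 16721992) (l 16696104)) (c (l 16716064) (l 16701008)))) (b (b (l 16699200) (l 16683784)) (c (l 16694072) (l 16689800)))) (c (b (c (l 16708736) (l 16693360)) (c (l 16687248) (l 16682952))) (b (c (l 16688712) (l 16684304)) (l 16676936)))) (c (b (c (l 16689664) (l 16669744)) (c (l 16684056) (l 16680416))) (b (l 16684856) (l 16675384)))) (b (c (c (a (l 16641304) (l 16608304)) (l 16653536)) (a (l 16654504) (l 16623848))) (c (c (a (l 16651576) (l 16618840)) (l 16653960)) (c (l 16651872) (l 16649992))))) (b (a (c (c (l 16582192) (l 16582984)) (l 16583840)) (c (c (l 16548592) (l 16536768)) (l 16555504))) (a (c (c (l 16581456) (l 16581840)) (l 16582080))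 (c (c (l 16556640) (l 16555000)) (l 16552304))))), by decide +kernel⟩

def k8_pm_012 : ∃ t, chk3 f_pm_012 t 8 29 1 = true :=
  ⟨(a (a (a (c (a (a (c (b (c (l 16717456) (l 16715336)) (b (l 16723072) (l 16727488))) (b (l 16712256) (l 16724608))) (c (b (l 16708376) (l 16717312)) (b (l 16704464) (l 16714192)))) (c (b (l 16717304) (l 16726272)) (b (l 16692744) (l 16723464)))) (b (a (c (l 16725536) (l 16700984)) (l 16708736)) (a (b (l 16731864) (l 16732088)) (l 16719616)))) (b (c (c (l 16693136) (l 16690200)) (l 16686184)) (c (a (c (l 16699712) (l 16707800)) (c (l 16694056) (l 16692080))) (a (l 16704568) (l 16689464))))) (c (a (a (b (l 16657168) (l 16671816)) (b (l 16651608) (l 16655768))) (b (l 16630096) (c (l 16645936) (l 16646432)))) (a (b (l 16655920) (l 16666736)) (b (l 16625968) (l 16646840))))) (c (c (a (b (l 16610888) (a (l 16631800) (l 16617872))) (b (l 16576656) (a (l 16583120) (l 16569496)))) (a (b (l 16602816) (a (l 16631400) (l 16595576))) (b (l 16574536) (l 16605000)))) (a (b (l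 16594656) (a (l 16630480) (l 16614288))) (b (l 16571120) (c (l 16591688) (l 16588736)))))), by decide +kernel⟩

def k9_pm_012 : ∃ t, chk3 f_pm_012 t 16 15 1 = true :=
  ⟨(a (b (a (b (b (c (a (c (c (l 16739032) (l 16737720)) (l 16735832)) (c (l 16722384) (l 16709744))) (a (c (l 16743944) (l 16720768)) (l 16717320))) (a (l 6) (a (l 6) (c (l 16722048) (l 16708648))))) (l 6)) (a (b (c (c (l 16713856) (l 16712312)) (l 16712912)) (l 6)) (b (c (b (l 16689512) (l 16696872)) (l 16689920)) (b (c (l 16700984) (l 16712528)) (l 6))))) (l 6)) (b (b (a (c (c (b (l 16677712) (l 16678624)) (l 16678712)) (b (l 16679312) (l 16679248))) (c (c (b (l 16662848) (l 16673968)) (b (l 16662784) (l 16673528))) (b (l 16662384) (l 16672584)))) (c (c (a (b (l 16683664) (b (l 16696440) (l 6))) (b (l 16673480) (a (l 16676664) (l 16668872)))) (a (b (l 16689016) (a (l 6) (l 16684208))) (b (l 16662336) (l 16692856)))) (a (a (b (l 16703760) (l 6)) (b (l 16674072) (l 16683464))) (b (l 16682032) (a (l 16674680) (l 16665936))))))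 (a (l 6) (a (l 6) (a (l 6) (b (b (c (l 16675960) (l 16672888)) (l 6)) (l 6))))))), by decide +kernel⟩

def k10_pm_012 : ∃ t, chk3 f_pm_012 t 17 30 1 = true :=
  ⟨(c (b (a (c (a (a (l 16657360) (l 16650128)) (b (l 16613080) (l 16623688))) (a (l 16652608) (l 16637320))) (c (a (l 16625048) (l 16610872)) (a (l 16601176) (l 16586104)))) (a (a (c (b (l 16647936) (l 16657416)) (b (l 16646448) (l 16655752))) (c (b (l 16633152) (l 16642368)) (b (l 16630800) (l 16639864)))) (c (a (b (l 16618520) (l 16627488)) (b (l 16604032) (l 16612768))) (a (b (l 16615296) (l 16624128)) (l 16606824))))) (b (a (a (c (l 16651352) (l 16649952)) (b (l 16608216) (l 16617992))) (a (l 16617568) (c (l 16582200) (l 16578200)))) (a (a (b (l 16643936) (l 16652968)) (b (l 16627008) (l 16635832))) (a (b (l 16610216) (l 16618840)) (c (l 16599920) (l 16595528)))))), by decide +kernel⟩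

def k11_pm_012 : ∃ t, chk3 f_pm_012 t 17 31 1 = true :=
  ⟨(b (a (c (b (c (a (b (l 16664568) (l 16669344)) (l 16651624)) (a (l 16665064) (l 16648936))) (a (a (l 6) (b (l 16669120) (l 6))) (c (b (l 16658600) (l 16663264)) (l 16658024)))) (a (b (c (l 16663040) (l 16660856)) (c (l 16672128) (l 16669712))) (b (l 16644624) (c (l 16654976) (l 16651776))))) (c (a (b (c (l 16636488) (l 16632968)) (c (l 16645520) (l 16641816))) (c (b (l 16621520) (l 16630304)) (b (l 16617160) (l 16625784)))) (b (a (l 16627432) (l 16610368)) (a (c (l 16637976) (l 16633984)) (c (l 16621128) (l 16616328)))))) (a (b (b (a (l 6) (c (c (l 16667928) (l 16664848)) (l 16659952))) (l 6)) (l 6)) (c (b (c (a (b (l 16652328) (l 16656872)) (c (l 16640272) (l 16637952))) (a (b (l 16648472) (l 16652896)) (l 16637032))) (c (a (b (l 16661416) (l 6)) (b (c (l 16646952) (l 16644552)) (c (l 16651408) (l 16648952)))) (a (b (l 16657328) (l 6)) (b (l 16640888) (l 16650448))))) (b (a (c (l 16646616) (l 16642416)) (c (l 16629560) (l 16624568)))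 (a (a (l 6) (b (l 16646512) (l 6))) (c (b (l 16635880) (l 16640080)) (b (l 16630736) (l 16634816)))))))), by decide +kernel⟩

def k12_pm_012 : ∃ t, chk3 f_pm_012 t 9 14 1 = true :=
  ⟨(a (b (b (c (c (a (l 16516408) (l 16474768)) (a (l 16512808) (l 16468848))) (a (l 16507288) (l 16459968))) (c (c (a (l 16512160) (l 16489776)) (a (l 16508368) (l 16483736))) (a (l 16502536) (l 16474664)))) (c (b (c (a (l 16530560) (l 16506448)) (a (l 16526384) (l 16500136))) (a (c (l 16570632) (l 16545000)) (c (l 16544984) (l 16517312)))) (b (a (l 16519984) (l 16490648)) (a (c (l 16540264) (l 16535464)) (l 16528216))))) (b (a (c (b (c (l 16626896) (l 16446744)) (c (l 16468224) (l 16459928))) (b (l 16434496) (l 16447592))) (c (b (c (a (l 16792200) (l 16896616)) (l 16447728)) (a (l 16468968) (c (l 16691048) (l 16431944)))) (b (a (l 16416096) (l 16404192)) (l 16464352)))) (a (c (c (b (l 16483264) (l 16520160)) (b (l 16474768) (l 16490400))) (b (l 16462120) (c (l 16481664) (l 16472984)))) (c (c (b (a (l 16466808)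 (l 16456176)) (a (l 16481528) (l 16470056))) (b (l 16472344) (l 16507368))) (a (b (l 16441424) (l 16455576)) (b (l 16427960) (l 16441360))))))), by decide +kernel⟩

def k13_pm_012 : ∃ t, chk3 f_pm_012 t 18 30 1 = true :=
  ⟨(c (b (a (c (b (l 16564408) (l 16574152)) (a (l 16571336) (l 16556744))) (c (b (l 16537696) (l 16546824)) (b (l 16530632) (l 16539512)))) (a (c (a (b (l 16589872) (l 16598384)) (b (l 16575848) (l 16584160))) (b (l 16577288) (l 16585616))) (c (b (l 16554976) (c (l 16564768) (l 16561032))) (b (l 16547560) (l 16555424))))) (b (a (a (l 16564056) (l 16548056)) (c (l 16527824) (l 16520624))) (a (b (c (l 16571696) (l 16566032)) (c (l 16579912) (l 16574112))) (c (b (l 16540128) (l 16547896)) (l 16536464))))), by decide +kernel⟩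

def k14_pm_012 : ∃ t, chk3 f_pm_012 t 18 31 1 = true :=
  ⟨(b (c (a (c (b (a (l 16606912) (l 16592480)) (a (l 16615456) (l 16600800))) (b (a (l 16601640) (l 16586280)) (a (l 16610048) (l 16594480)))) (c (b (c (l 16572776) (l 16569008)) (c (a (l 16588024) (l 16573744)) (l 16577024))) (b (l 16563320) (a (l 16579000) (l 16563584))))) (a (b (c (l 16588088) (l 16582160)) (c (a (l 16604520) (l 16588056)) (l 16590176))) (c (b (l 16555696) (l 16563504)) (b (l 16548016) (l 16555688))))) (c (a (b (c (a (c (l 16625392) (l 16622640)) (c (l 16610728) (l 16607528))) (a (l 16618456) (l 16602672))) (c (a (b (c (l 16631880) (l 16629056)) (c (l 16636208) (l 16633336))) (c (b (l 16617032) (l 16621232)) (b (l 16613768) (l 16617928)))) (a (b (l 16624768) (l 16628968)) (b (l 16608824) (l 16612920))))) (c (b (c (b (l 16586896) (l 16590928)) (b (l 16583032) (l 16587024))) (a (c (b (l 16602304) (l 16606384)) (b (l 16598600) (l 16602640))) (c (b (l 16587664) (l 16591640)) (b (l 16583512) (l 16587456))))) (b (a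 (l 16586992) (l 16571384)) (a (b (l 16592992) (c (l 16598872) (l 16595080))) (c (l 16583904) (l 16577072)))))) (a (b (c (a (l 16612760) (l 16596104)) (a (l 16606928) (l 16589424))) (c (a (b (l 16618928) (l 16623024)) (b (l 16602128) (l 16606128))) (a (l 16614952) (l 16597264)))) (b (c (a (l 16579544) (l 16563072)) (l 16563320)) (c (a (b (l 16585432) (l 16589344)) (l 16581208)) (a (l 16579688) (l 16562192))))))), by decide +kernel⟩

def k15_pm_012 : ∃ t, chk3 f_pm_012 t 19 30 1 = true :=
  ⟨(a (c (b (c (a (l 16522368) (l 16509584)) (b (l 16502688) (l 16510928))) (c (a (c (l 16540288) (l 16535864)) (c (l 16527088) (l 16522152))) (b (l 16518344) (l 16525664)))) (b (c (l 16497616) (l 16488544)) (c (a (l 16520400) (l 16504976)) (l 16513824)))) (c (b (c (a (l 16497056) (l 16484784)) (a (l 16486288) (l 16472928))) (c (a (c (l 16514120) (l 16508664)) (c (l 16501368) (l 16495392))) (a (l 16500520) (l 16486480)))) (b (a (l 16470328) (c (l 16461224) (l 16449664))) (a (c (l 16489728) (l 16479024))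 (c (l 16474688) (l 16463024)))))), by decide +kernel⟩

def k16_pm_012 : ∃ t, chk3 f_pm_012 t 19 31 1 = true :=
  ⟨(a (c (b (c (a (b (l 16549536) (c (l 16559496) (l 16554984))) (b (l 16535608) (c (l 16545568) (l 16540576)))) (b (c (l 16535480) (l 16530768)) (c (l 16542984) (l 16538232)))) (c (b (a (c (b (l 16565336) (l 16569208)) (l 16562696)) (c (l 16553112) (l 16548080))) (a (c (b (c (l 16574232) (l 16571936)) (a (l 16580632) (l 16574624))) (b (l 16568488) (l 16571680))) (c (b (l 16558816) (c (l 16563872) (l 16561320))) (b (l 16553744) (l 16557496))))) (b (a (c (l 16558128) (l 16553552)) (c (l 16543040) (l 16538000))) (a (c (b (l 16563872) (l 16567688)) (l 16561128)) (c (b (l 16548664) (l 16552392)) (l 16545416)))))) (a (b (c (l 16544528) (l 16526320)) (c (b (l 16546656) (c (l 16556472) (l 16551800))) (b (l 16537432) (l 16544768)))) (b (c (l 16519440) (l 16509512)) (c (b (l 16530432) (c (l 16540304) (l 16535192))) (b (l 16520328) (l 16527512)))))) (c (b (c (a (b (l 16521912) (c (l 16531816)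 (l 16526328))) (b (l 16508400) (c (l 16518240) (l 16512264)))) (a (b (l 16511008) (l 16518120)) (b (l 16496496) (l 16503320)))) (c (a (b (c (l 16539120) (l 16533600)) (c (b (l 16544656) (c (l 16549736) (l 16546944))) (b (l 16539096) (l 16542760)))) (b (c (l 16546216) (l 16519240)) (c (b (l 16530584) (a (l 16537648) (l 16530512))) (b (l 16524552) (l 16538600))))) (a (b (l 16535816) (c (l 16540600) (l 16529792))) (b (c (l 16513248) (l 16507264)) (c (a (l 16523992) (l 16516424)) (l 16524760)))))) (b (a (c (l 16503640) (l 16492808)) (c (l 16498520) (l 16476288))) (a (c (b (l 16514320) (c (l 16524232) (l 16518672))) (b (l 16503328) (l 16510336))) (c (b (l 16498328) (c (l 16508256) (l 16502256))) (b (l 16486448) (l 16493272))))))), by decide +kernel⟩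

def k17_pm_012 : ∃ t, chk3 f_pm_012 t 5 6 1 = true :=
  ⟨(a (a (b (a (c (b (l 17508472) (c (l 17568632) (l 17239608))) (b (a (l 16906328) (l 16951928)) (a (l 16714728) (l 16771712)))) (c (a (b (l 17567376) (l 17476816)) (b (l 17604936) (a (l 17511472) (l 17534016)))) (a (b (l 16996616) (l 16827384)) (b (a (l 17029424) (l 16967072)) (a (l 16868216) (a (l 16888320) (l 16901600))))))) (a (c (b (c (l 17441776) (b (l 17111720) (l 17005064))) (b (c (l 17305744) (l 16876688)) (c (l 17188896) (l 16721328)))) (b (b (l 16559928) (l 16409832)) (b (l 16371992) (l 16400944)))) (c (b (a (l 17300608) (a (l 17386056) (c (l 17597024) (l 17231352)))) (a (c (l 17362216) (l 16926048)) (a (c (l 17415216) (l 16984952)) (c (l 17449528) (b (l 17082584) (l 16957520)))))) (a (b (l 16594856) (b (l 16362984) (l 16368920))) (b (a (l 16646704) (a (l 16672208) (l 16689056))) (a (l 16362920) (a (l 16371136) (b (l 16476808) (l 16362008))))))))) (b (c (b (l 17691256) (l 17608608)) (b (a (l 17103560) (l 17184456)) (a (l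 16960248) (l 17059800)))) (c (b (c (l 17710160) (l 17357808)) (a (c (l 17531768) (l 17115408)) (c (l 17653656) (l 17252768)))) (b (a (l 16574384) (l 16887960)) (a (b (l 16566424) (l 16404464)) (b (l 16716480) (l 16575728))))))) (b (c (a (b (l 17814248) (l 17780136)) (l 17911448)) (a (b (l 17296344) (a (l 17153016) (l 17239840))) (b (l 17427488) (l 17357912)))) (c (a (b (l 17720632) (c (l 17814176) (l 17436464))) (b (l 17872808) (l 17816840))) (a (b (a (l 17004176) (l 17111936)) (b (l 16690408) (a (l 16733640) (l 16878808)))) (b (a (l 17211480) (l 17303008)) (b (l 17156992) (l 17053136))))))), by decide +kernel⟩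

def k18_pm_012 : ∃ t, chk3 f_pm_012 t 10 14 1 = true :=
  ⟨(a (b (a (c (b (c (l 16897832) (l 16532080)) (c (l 16697280) (l 16418520))) (b (l 16431144) (l 16419840))) (a (c (b (c (l 17182472) (l 16685568)) (l 16606328)) (b (l 16376336) (l 16384336))) (c (b (a (l 16877392) (c (l 17289784) (a (l 16794184) (l 16817600)))) (a (l 16770904) (c (l 17150896) (l 16515808)))) (b (a (l 16371064) (a (l 16368776) (l 16367464))) (a (l 16378136) (l 16416216)))))) (a (c (c (b (a (l 16572352) (l 16705392)) (a (l 16459776) (l 16451400))) (b (l 16429912) (l 16463184))) (b (l 16473048) (a (l 16428024) (l 16416120)))) (a (c (c (b (l 16830968) (l 16584704)) (l 16422256)) (b (l 16394072) (l 16404808))) (c (a (c (l 16582296) (l 16416536)) (c (a (l 16650584) (b (l 16992320) (l 16777808))) (a (l 16414000) (l 16412496)))) (a (l 16391784) (a (l 16388344) (b (l 16381832) (l 16391072)))))))) (b (c (c (b (l 17466384) (l 17103648)) (b (a (l 16919472) (l 17087344)) (a (l 16752888) (l 16947032)))) (b (a (l 16361464) (l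 16408400)) (a (l 16366184) (l 16354056)))) (c (c (a (b (l 17114936) (l 16818744)) (b (l 17313520) (l 17157792))) (a (b (l 16548896) (l 16409912)) (b (l 16776040) (l 16565776)))) (a (b (l 16372920) (l 16380912)) (b (l 16358272) (l 16363928)))))), by decide +kernel⟩

def k19_pm_012 : ∃ t, chk3 f_pm_012 t 40 15 1 = true :=
  ⟨(b (a (c (c (b (l 16473640) (l 16507328)) (b (l 16460568) (l 16473304))) (b (l 16462304) (c (l 16460416) (l 16447688)))) (c (c (b (l 16464216) (l 16475936)) (b (l 16449760) (l 16461552))) (b (l 16428536) (c (l 16447392) (l 16433448))))) (c (b (c (a (c (l 16523224) (l 16495720)) (b (l 16484672) (l 16490720))) (a (b (l 16482792) (l 16489280)) (b (l 16470384) (l 16476472)))) (c (a (b (c (l 16512208) (l 16505664)) (a (c (l 16522024) (l 16515608)) (c (l 16515840) (l 16509128)))) (b (c (l 16500528) (l 16493368)) (c (b (l 16505312) (l 16508536)) (b (l 16498152) (l 16501368))))) (a (b (c (l 16499144) (l 16492648)) (c (b (l 16504200) (l 16507592)) (l 16499352))) (b (l 16482704)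 (c (l 16492608) (l 16485512)))))) (b (a (c (l 16473096) (l 16460344)) (c (l 16459288) (l 16445384))) (a (c (b (l 16482952) (c (l 16492848) (l 16486360))) (b (l 16470104) (l 16476672))) (c (b (l 16468600) (c (l 16478440) (l 16471408))) (b (l 16454656) (l 16460912))))))), by decide +kernel⟩

def k20_pm_012 : ∃ t, chk3 f_pm_012 t 82 15 1 = true :=
  ⟨(b (c (c (b (l 16455520) (l 16466232)) (b (l 16439608) (l 16450456))) (b (l 16416320) (c (l 16434960) (l 16419744)))) (c (b (c (b (l 16474192) (l 16500744)) (b (l 16458576) (l 16464216))) (c (b (c (l 16489456) (l 16481648)) (c (a (l 16498216) (l 16492696)) (a (l 16490584) (l 16484736)))) (b (c (l 16473896) (l 16466192)) (c (a (l 16482992) (l 16476824)) (l 16472152))))) (b (c (l 16445992) (l 16430880)) (c (b (l 16454728) (c (l 16464496) (l 16456880))) (b (l 16439624) (l 16445552)))))), by decide +kernel⟩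

def k21_pm_012 : ∃ t, chk3 f_pm_012 t 83 15 1 = true :=
  ⟨(b (c (a (c (b (l 16449768) (l 16459648)) (b (l 16432704) (l 16442776))) (c (b (a (l 16464144) (l 16463352)) (a (l 16456648) (l 16475792))) (b (a (l 16429520) (l 16427576)) (a (l 16439192) (l 16436968))))) (a (b (l 16407776) (l 16418064)) (b (a (l 16403744) (l 16443152)) (a (l 16434640) (c (l 16419480) (l 16402368)))))) (c (a (c (b (c (l 16473736) (l 16465352)) (b (c (l 16481768) (l 16473448)) (c (l 16487352) (l 16479056)))) (b (l 16452912) (b (l 16461080) (c (l 16470816) (l 16462640))))) (b (c (a (c (l 16470448) (l 16461784)) (c (b (l 16466080) (l 16470888)) (l 16480536))) (a (l 16448928) (b (l 16444008) (l 16469936)))) (c (a (c (b (l 16478168) (l 16494040)) (b (l 16469576) (l 16475000))) (b (c (l 16496896) (l 16488120)) (c (a (a (a (l 16482296) (a (l 16482096) (l 16481968))) (l 16481584)) (l 16480632)) (a (a (a (l 16473640) (a (l 16473416) (l 16473280))) (l 16472864)) (l 16471848))))) (a (b (l 16456824) (c (l 16466504) (l 16458080)))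 (b (c (l 16458448) (l 16449816)) (a (a (a (l 16460768) (c (l 16485688) (l 16456160))) (l 16459912)) (l 16479768))))))) (a (b (c (l 16436560) (l 16420496)) (c (b (l 16444816) (l 16450472)) (l 16452560))) (b (a (c (l 16432056) (l 16415496)) (c (b (l 16426712) (l 16431776)) (l 16412288))) (a (c (b (l 16440048) (l 16445552)) (l 16447248)) (c (b (l 16457976) (c (b (l 16445288) (l 16468976)) (l 16459136))) (b (l 16420176) (b (l 16424224) (l 16447928))))))))), by decide +kernel⟩

def k22_pm_012 : ∃ t, chk3 f_pm_012 t 21 15 1 = true :=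
  ⟨(b (c (a (c (b (l 16450712) (b (l 16455768) (l 16448672))) (b (l 16418872) (l 16448024))) (b (c (c (l 17125536) (l 16797600)) (l 16404624)) (c (b (l 16674856) (l 16533056)) (l 16410744)))) (a (b (c (l 16399424) (l 16380448)) (c (l 16407864) (l 16389112))) (b (c (l 16381920) (l 16359816)) (c (l 16388376) (l 16366592))))) (c (b (c (a (b (l 16473632) (c (l 16461736) (l 16452048))) (c (l 16458464) (l 16433808))) (a (b (l 16433296) (l 16458656)) (b (l 16415456) (l 16418808)))) (c (a (b (c (a (l 16470232) (l 16461392)) (l 16477496)) (c (a (b (l 16473928) (l 16476448)) (l 16465808)) (a (l 16465984) (l 16455896)))) (b (c (l 16450200) (l 16438992)) (c (a (l 16457328) (l 16449832)) (a (l 16446640) (l 16438320))))) (a (b (c (l 16446992) (l 16437552)) (c (a (l 16456880) (l 16446080)) (a (l 16447856) (l 16436352)))) (b (c (l 16427912) (l 16416960)) (c (a (l 16436064) (l 16426944)) (a (l 16425600) (l 16415696))))))) (b (a (c (b (l 16414344) (l 16418864)) (l 16419024)) (c (l 16426544) (l 16373696)))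 (a (c (b (a (l 16429336) (l 16417240)) (a (l 16434456) (l 16421928))) (b (l 16405224) (a (l 16416856) (l 16403032)))) (c (b (l 16400768) (a (l 16410104) (l 16399064))) (b (l 16379616) (l 16404704))))))), by decide +kernel⟩

def k23_pm_012 : ∃ t, chk3 f_pm_012 t 11 14 1 = true :=
  ⟨(b (c (a (b (c (l 17732584) (l 17310264)) (c (l 17660312) (l 17203144))) (b (l 17751784) (l 17694232))) (a (b (a (l 16589200) (l 16754608)) (l 16388712)) (b (a (l 16905648) (l 17043288)) (a (l 16779288) (l 16935912))))) (c (a (c (a (l 17430488) (l 17598800)) (a (b (l 16979360) (l 16804520)) (l 16987592))) (c (l 17814808) (a (l 17267136) (l 17422656)))) (a (a (b (l 16348048) (l 16351072)) (b (l 16430520) (l 16342904))) (a (b (l 16629072) (l 16449320)) (b (l 16808464) (l 16656272)))))), by decide +kernel⟩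

def k24_pm_012 : ∃ t, chk3 f_pm_012 t 11 15 1 = true :=
  ⟨(a (b (c (c (b (a (l 17122072) (l 17419352)) (a (c (l 17175448) (l 16812424)) (l 17069360))) (a (b (l 16588792) (l 16398360)) (b (l 16838424) (l 16512088)))) (a (b (l 16376456) (c (l 16372544) (l 16347448))) (b (l 16344560) (c (l 16360832) (l 16332192))))) (c (b (c (a (b (c (l 17003112) (l 16631336)) (l 16440768)) (c (l 17167256) (b (l 16935576) (l 16809848)))) (a (b (l 16401384) (l 16403680)) (l 16391952))) (a (c (b (a (l 16434368) (l 16432208)) (c (a (l 16443360) (l 16535024)) (a (l 16430992) (l 16424664)))) (b (l 16432440) (c (l 16436200) (l 16402736)))) (c (c (b (l 16970704) (a (l 16723672) (l 17001464))) (b (l 16583824) (l 16422712))) (b (l 16393952) (c (l 16402728) (l 16388464)))))) (b (a (c (l 16377160) (l 16352568)) (c (l 16363072) (l 16335032))) (a (c (b (l 16381304) (c (l 16390392) (l 16378208))) (b (l 16357040) (l 16360224))) (c (b (l 16365520) (c (l 16374392) (l 16360512))) (b (l 16337896) (l 16340064))))))) (c (b (c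 (a (b (l 17605816) (l 17477856)) (l 17721624)) (a (b (l 17058352) (l 16771824)) (b (l 17252440) (l 17104080)))) (c (b (a (c (l 17480192) (l 17148808)) (l 17540160)) (a (c (b (l 17342528) (l 17213888)) (b (l 16983816) (a (l 16773720) (l 16934472)))) (c (l 17547216) (b (l 17254224) (l 17152728))))) (b (a (l 16398816) (b (l 16969688) (l 16783208))) (a (b (l 16402448) (c (l 16392056) (l 16378408))) (c (b (l 16919912) (l 16611824)) (l 16371280)))))) (b (a (b (l 16338656) (c (l 16353936) (l 16321512))) (b (l 16410744) (l 16355360))) (b (c (a (l 16353408) (l 16349072)) (a (l 16321696) (l 16313464))) (c (a (b (l 16353960) (l 16354632)) (b (l 16347392) (l 16346680))) (a (b (l 16322736) (l 16323728)) (l 16343544))))))), by decide +kernel⟩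

def k25_pm_012 : ∃ t, chk3 f_pm_012 t 3 2 1 = true :=
  ⟨(a (b (l 2) (a (b (l 2) (c (l 17967752) (a (l 17567584) (l 2)))) (l 2))) (l 2)), by decide +kernel⟩

def k26_pm_012 : ∃ t, chk3 f_pm_012 t 6 6 1 = true :=
  ⟨(a (b (c (a (l 17995112) (l 18051016)) (a (b (l 17535896) (l 17492712)) (l 17614192))) (c (a (b (l 17992208) (l 17968464)) (l 18085440)) (a (b (l 17425608) (b (l 17354832) (l 17296184))) (b (l 17562472) (l 17499816))))) (b (a (c (l 18081128) (l 17686232)) (l 2)) (b (a (l 17902432) (l 17954256)) (c (l 18267880) (a (l 17637864) (l 17741928)))))), by decide +kernel⟩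

def k27_pm_012 : ∃ t, chk3 f_pm_012 t 6 7 1 = true :=
  ⟨(b (a (b (c (a (l 17815856) (l 18069824)) (a (b (l 17226624) (l 17122712)) (b (l 17432816) (l 17376576)))) (c (a (c (l 18044448) (l 17623928)) (l 18029312)) (a (a (b (l 16970488) (l 16842264)) (l 16897688)) (a (l 17206264) (l 17333144))))) (b (c (a (l 18177008) (l 18243448)) (a (l 17585048) (l 17724088))) (a (c (l 18174080) (l 17290128)) (c (l 18272224) (l 17681568))))) (a (c (a (b (c (l 17943872) (a (l 17240960) (l 17529440))) (c (a (b (l 17734672) (l 17481232)) (l 17856872)) (b (a (l 17049280) (l 17358800)) (a (b (l 16871976) (c (l 17079160) (l 16688096))) (c (l 17358632) (l 17039120)))))) (b (c (l 18175000) (l 17737424)) (c (l 18083544) (a (b (l 17537920) (l 17419208)) (l 17650912))))) (a (b (a (b (l 16520880) (l 16335216)) (c (b (l 17112944) (l 16977424)) (l 16334240))) (a (b (c (l 16486936) (l 16311224)) (c (b (l 16392504) (l 16344408)) (l 16306616))) (b (c (l 16770336) (l 16316304)) (c (b (l 16665136) (l 16428016)) (l 16307920)))))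 (c (b (a (l 17219456) (l 17371872)) (b (a (l 17025720) (l 17214744)) (a (b (l 16904912) (l 16708792)) (l 16975376)))) (b (a (l 16533328) (l 16943248)) (b (a (l 16510952) (l 16732456)) (a (l 16317736) (l 16367080))))))) (c (a (b (l 18150824) (c (l 18314440) (l 17843624))) (b (l 18290016) (l 18093896))) (a (b (a (c (l 17507336) (l 17104528)) (l 17438816)) (c (a (b (l 17382256) (l 17274288)) (l 17490176)) (a (b (l 16930856) (l 16638152)) (b (l 17108392) (l 16989288))))) (b (a (l 17556952) (l 17661832)) (a (c (l 17630368) (b (l 17266952) (l 17171216))) (c (l 17753832) (l 17373168)))))))), by decide +kernel⟩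

def k28_pm_012 : ∃ t, chk3 f_pm_012 t 7 3 1 = true :=
  ⟨(b (a (b (l 2) (a (c (l 18218432) (l 17814144)) (l 2))) (l 2)) (b (a (a (b (c (l 18288904) (l 17819616)) (c (l 18335984) (l 17808712))) (b (l 18110472) (l 18139296))) (b (l 2) (l 18208928))) (a (a (c (b (l 18380768) (l 18409744)) (b (l 17778536) (a (l 17673232) (l 17759232)))) (c (l 18466704) (b (l 17889808) (l 17865192)))) (c (l 18532088) (a (l 17967288) (l 18029912)))))), by decide +kernel⟩

theorem s29_pm_012 : ∃ t, chk3 f_pm_012 t 6 3 1 = true := ex3_b k26_pm_012 k27_pm_012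

theorem s30_pm_012 : ∃ t, chk3 f_pm_012 t 3 3 1 = true := ex3_a s29_pm_012 k28_pm_012

theorem s31_pm_012 : ∃ t, chk3 f_pm_012 t 3 1 1 = true := ex3_b k25_pm_012 s30_pm_012

theorem s32_pm_012 : ∃ t, chk3 f_pm_012 t 11 7 1 = true := ex3_b k23_pm_012 k24_pm_012

theorem s33_pm_012 : ∃ t, chk3 f_pm_012 t 41 15 1 = true := ex3_a k20_pm_012 k21_pm_012

theorem s34_pm_012 : ∃ t, chk3 f_pm_012 t 20 15 1 = true := ex3_a k19_pm_012 s33_pm_012

theorem s35_pm_012 : ∃ t, chk3 f_pm_012 t 10 15 1 = true := ex3_a s34_pm_012 k22_pm_012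

theorem s36_pm_012 : ∃ t, chk3 f_pm_012 t 10 7 1 = true := ex3_b k18_pm_012 s35_pm_012

theorem s37_pm_012 : ∃ t, chk3 f_pm_012 t 5 7 1 = true := ex3_a s36_pm_012 s32_pm_012

theorem s38_pm_012 : ∃ t, chk3 f_pm_012 t 5 3 1 = true := ex3_b k17_pm_012 s37_pm_012

theorem s39_pm_012 : ∃ t, chk3 f_pm_012 t 19 15 1 = true := ex3_b k15_pm_012 k16_pm_012

theorem s40_pm_012 : ∃ t, chk3 f_pm_012 t 18 15 1 = true := ex3_b k13_pm_012 k14_pm_012

theorem s41_pm_012 : ∃ t, chk3 f_pm_012 t 9 15 1 = true := ex3_a s40_pm_012 s39_pm_012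

theorem s42_pm_012 : ∃ t, chk3 f_pm_012 t 9 7 1 = true := ex3_b k12_pm_012 s41_pm_012

theorem s43_pm_012 : ∃ t, chk3 f_pm_012 t 17 15 1 = true := ex3_b k10_pm_012 k11_pm_012

theorem s44_pm_012 : ∃ t, chk3 f_pm_012 t 8 15 1 = true := ex3_a k9_pm_012 s43_pm_012

theorem s45_pm_012 : ∃ t, chk3 f_pm_012 t 8 14 1 = true := ex3_b k7_pm_012 k8_pm_012

theorem s46_pm_012 : ∃ t, chk3 f_pm_012 t 8 7 1 = true := ex3_b s45_pm_012 s44_pm_012

theorem s47_pm_012 : ∃ t, chk3 f_pm_012 t 4 7 1 = true := ex3_a s46_pm_012 s42_pm_012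

theorem s48_pm_012 : ∃ t, chk3 f_pm_012 t 8 6 1 = true := ex3_b k4_pm_012 k5_pm_012

theorem s49_pm_012 : ∃ t, chk3 f_pm_012 t 4 6 1 = true := ex3_a s48_pm_012 k6_pm_012

theorem s50_pm_012 : ∃ t, chk3 f_pm_012 t 4 3 1 = true := ex3_b s49_pm_012 s47_pm_012

theorem s51_pm_012 : ∃ t, chk3 f_pm_012 t 2 3 1 = true := ex3_a s50_pm_012 s38_pm_012

theorem s52_pm_012 : ∃ t, chk3 f_pm_012 t 4 5 1 = true := ex3_a k1_pm_012 k2_pm_012

theorem s53_pm_012 : ∃ t, chk3 f_pm_012 t 4 2 1 = true := ex3_b k0_pm_012 s52_pm_012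

theorem s54_pm_012 : ∃ t, chk3 f_pm_012 t 2 2 1 = true := ex3_a s53_pm_012 k3_pm_012

theorem s55_pm_012 : ∃ t, chk3 f_pm_012 t 2 1 1 = true := ex3_b s54_pm_012 s51_pm_012

theorem s56_pm_012 : ∃ t, chk3 f_pm_012 t 1 1 1 = true := ex3_a s55_pm_012 s31_pm_012

theorem c_pm_012 : CertF 0 536870912 536870912 536870912 201326592 134217728 true true false .pnp 0 1 2
    ndF0q0 ndF3q1 pcF2 cut_pm_012 Ext.none :=
  certF2 (fam := true) (s1 := true) (s2 := false) (a := 0) (b := 1) (c := 2) (cn := .pnp) (n1 := ndF0q0) (n2 := ndF3q1) (pc := pcF2) (cut := cut_pm_012) (xt := Ext.none) (P1 := 0) (W1 := 536870912) (P2 := 536870912) (W2 := 536870912) (P3 := 201326592) (W3 := 134217728)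
    rfl (fun _ => rfl) s56_pm_012

noncomputable def f_pm_022 : ℕ → ℕ → ℕ → ℕ → Bool := onCell 1073741824 536870912 1073741824 536870912 201326592 134217728
    (rowF 2 true true false .pp 0 2 2 (qsf 0 536870912 1073741824 536870912 2) ndF0q0 ndF3q2 pcF2 Cut.none Ext.none)

def k0_pm_022 : ∃ t, chk3 f_pm_022 t 4 2 1 = true :=
  ⟨(b (a (l 3) (b (a (l 3) (a (b (a (a (l 3) (a (l 3) (b (l 3) (c (c (l 16654536) (l 16654808)) (l 16644544))))) (b (c (b (a (c (l 16650680) (l 16651408)) (c (l 16648408) (l 16658512))) (c (l 16652824) (l 16652960))) (a (b (c (l 16652136) (l 16652752)) (l 16647024)) (b (l 16642360) (l 16651320)))) (c (c (l 16639464) (l 16645112)) (c (l 16645464) (l 16645760))))) (b (c (a (a (l 3) (c (l 16645696) (l 16645696))) (c (l 16634072) (l 16634192))) (a (b (l 16652768) (l 16646816)) (l 16634304))) (a (a (l 3) (c (l 16633944) (l 16633608))) (c (l 16620208) (l 16622664))))) (b (b (c (a (c (b (l 16644888) (l 16648152)) (a (l 16642144) (l 16650368))) (c (c (l 16636744) (l 16636704))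 (l 16636584))) (a (c (l 16643320) (l 16643048)) (c (l 16636328) (l 16635960)))) (c (a (c (l 16637312) (l 16637424)) (c (l 16632768) (l 16633032))) (a (l 16627024) (l 16633144)))) (c (b (c (l 16621376) (l 16621080)) (a (l 16609384) (l 16604744))) (b (c (l 16621472) (l 16621736)) (l 16613328)))))) (b (a (l 3) (a (c (b (a (a (l 3) (l 16621888)) (l 16611096)) (c (l 16617080) (l 16616888))) (a (b (l 16625528) (l 16613000)) (c (l 16604816) (l 16604536)))) (c (b (c (l 16592608) (l 16593512)) (l 16589952)) (a (l 16590032) (l 16585720))))) (a (l 3) (b (a (c (c (l 16604328) (l 16604208)) (a (c (l 16600464) (l 16600048)) (l 16585936))) (c (c (l 16565560) (l 16566432)) (l 16577936))) (a (b (c (l 16584096) (l 16562672)) (l 1)) (c (b (l 16556000) (l 16576488)) (b (l 16536336) (l 16549992))))))))) (b (a (l 1) (b (b (a (l 1) (a (l 1) (b (c (l 16567864) (l 16544464)) (l 1)))) (l 1)) (l 1))) (l 1))), by decide +kernel⟩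

def k1_pm_022 : ∃ t, chk3 f_pm_022 t 10 8 1 = true :=
  ⟨(a (a (b (c (a (b (c (l 16632424) (l 16643056)) (c (l 16607440) (l 16608024))) (b (c (l 16628384) (l 16639464)) (c (l 16603304) (l 16604360)))) (a (b (c (l 16642952) (l 16621624)) (l 16629312)) (b (c (l 16618664) (l 16618408)) (l 16605048)))) (c (a (b (l 16614528) (l 16600448)) (b (l 16610688) (l 16596568))) (a (b (l 16594848) (l 16581352)) (l 16616248)))) (a (c (b (b (c (l 16635648) (l 16636624)) (c (l 16600120) (l 16601504))) (b (l 16607384) (l 16592960))) (b (b (a (l 16616576) (l 16615648)) (l 16623360)) (c (l 16602104) (l 16602728)))) (a (b (c (b (c (l 16611424) (l 16612256)) (l 16617184)) (b (l 16633312) (l 16597472))) (c (l 16609208) (l 16595856))) (b (a (c (c (l 16615672) (l 16616456)) (b (l 16603480) (l 16588200))) (c (c (l 16609384) (l 16609928)) (c (l 16610064) (l 16609816)))) (c (b (l 16589696) (l 16574136)) (l 16604712)))))) (b (c (b (c (l 16609240) (l 16613344)) (c (l 16575968) (l 16575416))) (b (c (l 16611832) (l 16609952))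 (l 16594824))) (c (b (l 16580192) (l 16563952)) (b (l 16579240) (l 16563856))))), by decide +kernel⟩

def k2_pm_022 : ∃ t, chk3 f_pm_022 t 10 9 1 = true :=
  ⟨(b (a (a (c (a (l 16579480) (l 16575512)) (a (l 16561000) (l 16578808))) (a (c (l 16592064) (b (l 16561096) (l 16547144))) (c (l 16586288) (l 16600184)))) (c (b (l 16526840) (l 16511032)) (l 16561696))) (a (a (b (c (a (l 16538152) (l 16555064)) (a (l 16540776) (l 16537656))) (c (b (a (l 16528000) (l 16523896)) (a (l 16541608) (l 16537464))) (b (l 16528888) (l 16563536)))) (a (b (c (l 16549912) (l 16533016)) (b (c (l 16518240) (l 16522408)) (c (l 16552304) (l 16514648)))) (b (c (l 16553016) (l 16535968)) (c (b (l 16520648) (l 16538656)) (b (l 16503768) (l 16537680)))))) (b (c (l 16495168) (l 16497216)) (c (b (l 16483328) (l 16495792)) (b (l 16485816) (l 16477632)))))), by decide +kernel⟩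

def k3_pm_022 : ∃ t, chk3 f_pm_022 t 11 4 1 = true :=
  ⟨(b (b (c (b (a (c (b (l 16603760) (l 16593368)) (l 16594336)) (c (a (l 16842360) (l 16975336)) (l 16604952))) (a (c (l 16578112) (l 16574792)) (c (l 16894136) (l 16582184)))) (b (a (c (l 16589808) (l 16584872)) (c (l 16597096) (l 16588760))) (a (l 16568992) (l 16571616)))) (c (a (c (l 16569912) (l 16567664)) (b (l 16702296) (l 16680160))) (a (l 16584376) (l 16562120)))) (b (c (a (l 16533488) (l 16650800)) (a (l 16509256) (l 16503288))) (b (c (a (l 16486880) (l 16625552)) (l 16500960)) (b (c (l 16491520) (l 16467544)) (c (a (l 16465064) (l 16606800)) (l 16500600)))))), by decide +kernel⟩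

def k4_pm_022 : ∃ t, chk3 f_pm_022 t 5 10 1 = true :=
  ⟨(a (a (a (b (b (c (b (a (l 16531056) (l 16526888)) (a (l 16526848) (l 16511680))) (b (l 16538224) (l 16540544))) (b (c (c (l 16556272) (l 16540568)) (l 16544576)) (l 1))) (l 1)) (b (a (b (c (b (l 16541192) (l 16524944)) (b (l 16504536) (l 16490544))) (b (c (l 16513832) (l 16496728)) (b (c (l 16507112) (l 16474160)) (l 1)))) (b (c (b (l 16532504) (l 16541776)) (b (l 16527344) (l 16534456))) (b (c (a (l 16501584) (l 16524288)) (l 16535904)) (c (b (l 16139217687) (b (c (l 16535184) (l 16527800)) (c (l 16558496) (l 16550664)))) (b (l 16537768) (b (l 16539192) (c (l 16543640) (l 16558408)))))))) (b (a (l 1) (a (l 1) (a (l 1) (c (l 16518976) (l 16501888))))) (l 1)))) (b (b (c (b (l 16484096) (l 16490240)) (c (l 16542032) (l 16544160))) (b (c (l 16516056) (l 16486456)) (b (c (l 16499712) (l 16467896)) (c (b (l 16502696) (a (l 16530200) (l 16490112))) (b (l 16490592) (l 16513040)))))) (c (b (c (l 35466545239) (l 16507440)) (a (l 16533192)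 (l 23118473511))) (b (a (l 16509312) (l 16481472)) (a (l 16468992) (l 16463304)))))) (b (b (c (b (a (l 16452720) (l 16600320)) (a (l 16435368) (l 16595536))) (b (l 16489440) (l 16432896))) (b (c (a (l 16438112) (l 16592328)) (l 16469776)) (c (b (a (l 16423168) (l 16591248)) (a (b (l 16441592) (l 16465448)) (b (l 16591280) (l 16591592)))) (b (l 16425616) (b (l 16439632) (a (l 16441144) (l 16387624))))))) (c (a (b (l 16474136) (a (l 16478088) (l 16428680))) (b (l 16593160) (l 16599472))) (a (b (l 16438832) (l 16443536)) (b (l 16367344) (l 16366328)))))), by decide +kernel⟩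

def k5_pm_022 : ∃ t, chk3 f_pm_022 t 5 11 1 = true :=
  ⟨(a (a (l 1) (a (l 1) (b (b (c (l 16496000) (l 16447088)) (l 1)) (l 1)))) (b (a (c (b (a (l 16495960) (l 16442968)) (c (l 16489896) (l 16462912))) (b (l 30634578023) (l 25265879655))) (c (b (l 16424928) (c (l 16895808) (l 16391016))) (b (l 16397072) (l 16408848)))) (c (a (b (c (l 16511472) (l 16457408)) (l 1)) (b (a (l 48351321207) (l 78952978215)) (c (l 73584749287) (l 16461360)))) (a (b (l 16469392) (l 1)) (b (l 48351252023) (l 46203794839)))))), by decide +kernel⟩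

def k6_pm_022 : ∃ t, chk3 f_pm_022 t 2 3 1 = true :=
  ⟨(a (l 1) (b (a (l 1) (a (l 1) (b (a (l 1) (b (b (c (l 66605170359) (l 16404280)) (l 1)) (l 1))) (l 1)))) (l 1))), by decide +kernel⟩

def k7_pm_022 : ∃ t, chk3 f_pm_022 t 6 2 1 = true :=
  ⟨(b (a (b (b (c (a (b (c (l 17135984) (l 16869160)) (l 16838944)) (b (l 16949784) (l 17171384))) (a (b (l 16628912) (l 16583072)) (b (l 16728408) (l 16689504)))) (c (a (b (l 16971560) (l 16959360)) (l 17161264)) (a (l 16547512) (l 16636224)))) (b (c (a (l 16944712) (l 17154080)) (l 16569352)) (b (c (l 17052576) (l 16473912)) (c (b (l 17051064) (l 17050272)) (b (l 16458312) (l 16447592)))))) (b (c (b (a (b (l 17308560) (l 17304800)) (l 17399016)) (a (l 17302240) (l 17402568))) (b (a (b (l 16919192) (l 16888720)) (l 17049776)) (a (l 16847440) (l 17006328)))) (b (c (l 17362528) (l 16891768)) (b (c (l 17370504) (l 16866992)) (c (l 17375664) (b (l 16856144) (l 16849216))))))) (b (b (b (a (c (b (l 17049104) (l 17047616)) (b (l 16435088) (l 16418680)))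 (c (l 17380720) (b (l 16842112) (l 16834632)))) (a (b (c (l 17047088) (l 16401800)) (b (c (l 17047272) (l 16388248)) (c (b (l 17047560) (a (l 16921696) (l 17154072))) (b (l 16380912) (l 16396640))))) (b (c (l 17382320) (l 16827920)) (c (b (l 17383064) (l 17383640)) (b (l 16823312) (b (l 16821128) (l 16819704))))))) (b (a (c (a (l 16924000) (l 17156600)) (l 16396368)) (c (l 17386072) (l 16814544))) (a (c (a (l 16931624) (l 17164640)) (l 16361040)) (c (l 17394048) (l 16808576))))) (a (b (b (c (a (l 16944912) (l 17176680)) (l 16363480)) (c (a (l 16964464) (l 17193256)) (l 16373032))) (c (a (b (c (l 17212216) (l 16768072)) (c (l 17248272) (l 16798592))) (c (l 17418712) (l 17036680))) (a (b (l 16353440) (l 16372984)) (l 16383616)))) (c (b (l 17263160) (a (l 17383520) (l 17492496))) (b (a (l 16701896) (l 16897088)) (a (l 16715944) (l 16908320))))))), by decide +kernel⟩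

def k8_pm_022 : ∃ t, chk3 f_pm_022 t 7 2 1 = true :=
  ⟨(b (a (b (c (b (a (l 17461952) (l 17501248)) (l 17496944)) (b (a (l 17158312) (l 17237584)) (l 17172048))) (b (c (l 17513616) (l 17149936)) (b (l 17332632) (c (l 17538024) (l 17129936))))) (b (c (b (l 17524432) (l 17546936)) (b (l 17311528) (l 17298512))) (b (c (l 17571408) (l 17288800)) (b (l 17437656) (c (l 17604144) (l 17281536)))))) (a (b (b (b (c (l 17546440) (l 17123040)) (b (l 17311736) (c (l 17550944) (b (l 17113184) (l 17111064))))) (c (l 17553992) (l 17103328))) (c (b (l 17572024) (l 17595360)) (b (l 17101752) (l 17109616)))) (b (b (b (l 17446504) (b (l 17446248) (c (l 17620336) (l 17271896)))) (c (l 17622288) (l 17263936))) (b (l 17451376) (l 17462576))))), by decide +kernel⟩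

def k9_pm_022 : ∃ t, chk3 f_pm_022 t 3 3 1 = true :=
  ⟨(b (a (b (a (b (b (c (a (c (l 17288456) (l 89153740279)) (l 17275176)) (a (l 66067965607) (l 16490648))) (c (a (c (l 17330968) (l 77879581111)) (l 17104680)) (a (l 52109362055) (l 16399160)))) (b (c (a (l 129419696919) (c (l 17552320) (l 17162752))) (a (l 86469147111) (l 91300921511))) (a (l 1) (c (l 141231355799) (l 84321667975))))) (c (b (a (l 17436720) (l 17535512)) (a (l 17279608) (l 17593808))) (b (a (b (l 16742304) (l 16769120)) (l 16938584)) (a (b (l 16804296) (a (l 16799392) (l 16894032))) (l 16993048))))) (a (a (l 1) (a (l 1) (b (b (c (l 17470720) (l 116533983591)) (l 1)) (l 1)))) (c (b (a (c (l 17764984) (l 182570968775)) (l 17670488)) (a (l 227668352279) (l 198677579719))) (b (a (b (c (l 16967176) (l 129955906327)) (c (l 150894716855) (l 124050485111))) (b (l 17053664) (l 17019960))) (a (b (l 190623147687) (l 1)) (b (a (l 161095035479) (l 17186280)) (l 165390222071))))))) (b (b (a (c (l 17626480) (l 17130056)) (l 17478688))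 (a (c (l 17667328) (l 17166720)) (l 17501344))) (a (c (b (l 17720040) (a (l 17784024) (l 17785192))) (b (a (l 17182592) (l 17258656)) (a (b (l 17248856) (l 17301040)) (l 17330496)))) (c (l 17746992) (b (l 17332744) (l 17380104)))))) (a (b (a (l 1) (a (l 1) (b (b (c (l 17820424) (l 221224839303)) (l 1)) (l 1)))) (l 1)) (b (a (c (b (a (l 17859192) (l 17856912)) (l 219079335207)) (a (b (b (l 17341432) (l 17367000)) (l 17401600)) (b (l 17402264) (l 17457528)))) (b (c (l 17824672) (l 17437376)) (l 17693400))) (a (a (l 1) (l 241090066823)) (c (l 17984720) (l 17565296)))))), by decide +kernel⟩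

theorem s10_pm_022 : ∃ t, chk3 f_pm_022 t 3 2 1 = true := ex3_a k7_pm_022 k8_pm_022

theorem s11_pm_022 : ∃ t, chk3 f_pm_022 t 3 1 1 = true := ex3_b s10_pm_022 k9_pm_022

theorem s12_pm_022 : ∃ t, chk3 f_pm_022 t 5 5 1 = true := ex3_b k4_pm_022 k5_pm_022

theorem s13_pm_022 : ∃ t, chk3 f_pm_022 t 10 4 1 = true := ex3_b k1_pm_022 k2_pm_022

theorem s14_pm_022 : ∃ t, chk3 f_pm_022 t 5 4 1 = true := ex3_a s13_pm_022 k3_pm_022

theorem s15_pm_022 : ∃ t, chk3 f_pm_022 t 5 2 1 = true := ex3_b s14_pm_022 s12_pm_022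

theorem s16_pm_022 : ∃ t, chk3 f_pm_022 t 2 2 1 = true := ex3_a k0_pm_022 s15_pm_022

theorem s17_pm_022 : ∃ t, chk3 f_pm_022 t 2 1 1 = true := ex3_b s16_pm_022 k6_pm_022

theorem s18_pm_022 : ∃ t, chk3 f_pm_022 t 1 1 1 = true := ex3_a s17_pm_022 s11_pm_022

theorem c_pm_022 : CertF 0 536870912 1073741824 536870912 201326592 134217728 true true false .pp 0 2 2
    ndF0q0 ndF3q2 pcF2 Cut.none Ext.none :=
  certF2 (fam := true) (s1 := true) (s2 := false) (a := 0) (b := 2) (c := 2) (cn := .pp) (n1 := ndF0q0) (n2 := ndF3q2) (pc := pcF2) (cut := Cut.none) (xt := Ext.none) (P1 := 0) (W1 := 536870912) (P2 := 1073741824) (W2 := 536870912) (P3 := 201326592) (W3 := 134217728)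
    rfl (fun _ => rfl) s18_pm_022

noncomputable def f_pm_023 : ℕ → ℕ → ℕ → ℕ → Bool := onCell 1610612736 536870912 1073741824 536870912 201326592 134217728
    (rowF 2 true true false .up 0 2 3 (qsf 0 536870912 1073741824 536870912 3) ndF0q0 ndF3q2 pcF3 Cut.none Ext.none)

def k0_pm_023 : ∃ t, chk3 f_pm_023 t 1 1 1 = true :=
  ⟨(a (b (a (b (a (b (c (b (l 17539888) (l 17556184)) (b (l 17327384) (l 17322960))) (b (l 17451512) (b (l 17463488) (l 17470928)))) (b (c (l 17674800) (l 141836209303)) (b (l 17442816) (b (l 17455472) (l 17463432))))) (b (b (b (a (l 17477816) (l 17471240)) (a (b (l 17479808) (c (l 17627368) (l 17332552))) (b (l 17472792) (l 17473712)))) (a (l 17480080) (l 17472744))) (a (b (l 17490048) (l 17499928)) (b (l 17482392) (l 17491472))))) (a (b (b (l 2) (b (l 2) (b (l 2) (l 17419400)))) (b (b (b (l 17426600) (l 17639880)) (l 17426888)) (b (l 17436536) (l 17444376)))) (b (l 2) (b (b (l 2) (l 17356384)) (l 89222994663))))) (b (a (b (a (c (l 17678472) (l 17378080)) (c (l 17631472)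 (l 17369928))) (a (b (l 17541072) (l 17565424)) (c (l 17641472) (l 17384384)))) (b (a (l 17598664) (l 17417800)) (a (l 17451768) (l 17371752)))) (a (b (b (a (l 17610528) (l 17554120)) (a (l 17665976) (l 17605632))) (a (l 17745392) (l 17677568))) (b (b (l 17443088) (l 17492976)) (a (l 17601016) (l 17515568)))))) (b (a (b (l 2) (b (l 2) (a (l 179953916727) (l 2)))) (l 2)) (a (b (b (a (l 17286464) (l 17362392)) (a (l 17279552) (l 17244920))) (b (a (l 17481016) (l 17277648)) (a (l 17418232) (l 17310032)))) (a (b (b (l 2) (l 17111136)) (b (l 17242200) (l 17197384))) (b (l 2) (a (b (l 17033384) (l 17109072)) (a (b (l 2) (l 17060400)) (l 4)))))))), by decide +kernel⟩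

theorem c_pm_023 : CertF 0 536870912 1073741824 536870912 201326592 134217728 true true false .up 0 2 3
    ndF0q0 ndF3q2 pcF3 Cut.none Ext.none :=
  certF2 (fam := true) (s1 := true) (s2 := false) (a := 0) (b := 2) (c := 3) (cn := .up) (n1 := ndF0q0) (n2 := ndF3q2) (pc := pcF3) (cut := Cut.none) (xt := Ext.none) (P1 := 0) (W1 := 536870912) (P2 := 1073741824) (W2 := 536870912) (P3 := 201326592) (W3 := 134217728)
    rfl (fun _ => rfl) k0_pm_023

noncomputable def f_pm_033 : ℕ → ℕ → ℕ → ℕ → Bool := onCell 1610612736 536870912 0 1230186008 201326592 134217728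
    (rowF 2 true true false .pnn 0 3 3 (qsf 0 536870912 0 1230186008 3) ndF0q0 ndF3q3 pcF3 Cut.none Ext.none)

def k0_pm_033 : ∃ t, chk3 f_pm_033 t 1 1 1 = true :=
  ⟨(a (b (l 1) (b (a (l 1) (a (l 1) (b (l 1) (l 205657667447)))) (a (b (l 1) (a (b (l 1) (l 17816888)) (b (l 17768288) (l 17693592)))) (b (a (l 17770256) (l 17864840)) (a (b (l 17653528) (l 17576184)) (l 17499192)))))) (a (b (l 1) (b (a (b (l 1) (l 17690120)) (b (l 17647960) (l 17538712))) (b (a (l 17766072) (l 17410976)) (a (l 17380616) (b (l 17306192) (l 17220608)))))) (b (l 4) (a (b (b (l 4) (l 17422032)) (b (l 17297640) (b (l 17186320) (l 17099840)))) (b (l 4) (a (b (l 4) (l 17046432)) (l 4))))))), by decide +kernel⟩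

theorem c_pm_033 : CertF 0 536870912 0 1230186008 201326592 134217728 true true false .pnn 0 3 3
    ndF0q0 ndF3q3 pcF3 Cut.none Ext.none :=
  certF2 (fam := true) (s1 := true) (s2 := false) (a := 0) (b := 3) (c := 3) (cn := .pnn) (n1 := ndF0q0) (n2 := ndF3q3) (pc := pcF3) (cut := Cut.none) (xt := Ext.none) (P1 := 0) (W1 := 536870912) (P2 := 0) (W2 := 1230186008) (P3 := 201326592) (W3 := 134217728)
    rfl (fun _ => rfl) k0_pm_033

noncomputable def f_pm_101 : ℕ → ℕ → ℕ → ℕ → Bool := onCell 536870912 536870912 536870912 536870912 201326592 134217728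
    (rowF 1 true true false .npn 1 0 1 (qsf 536870912 536870912 0 536870912 1) ndF0q1 ndF3q0 pcF1 Cut.none Ext.none)

def k0_pm_101 : ∃ t, chk3 f_pm_101 t 1 1 1 = true :=
  ⟨(a (b (a (l 3) (b (a (b (l 1) (l 3)) (l 1)) (l 3))) (b (l 3) (b (l 3) (a (c (a (a (c (l 196664095591) (a (l 203106399559) (l 202569472231))) (a (l 199348268775) (l 198811337143))) (a (l 198274374903) (l 197200516999))) (a (b (b (l 3) (a (l 212769809927) (l 213843449863))) (a (b (l 17363984) (l 17360176)) (l 17318784))) (b (a (l 217064635911) (l 217064554215)) (a (l 17275632) (l 17232368))))) (a (a (c (l 206864066583) (l 212232707175)) (c (l 192905584519) (l 199347894855))) (c (l 183241921975) (l 184315582087))))))) (b (a (b (l 1) (a (b (l 1) (l 3)) (l 1))) (l 1)) (a (b (l 3) (b (l 3) (a (c (l 17196320) (l 185389386983)) (b (c (l 17098680) (l 185389025447)) (l 17080248))))) (b (a (b (l 1) (l 3)) (l 1)) (b (a (l 3) (l 3)) (a (b (c (l 139218146615) (a (l 186462619431) (l 188610070887))) (l 17066376)) (a (b (b (c (l 536368243671)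 (b (l 3) (l 138009908647))) (l 129420006071)) (l 17053016)) (b (l 592202742503) (l 17044928))))))))), by decide +kernel⟩

theorem c_pm_101 : CertF 536870912 536870912 0 536870912 201326592 134217728 true true false .npn 1 0 1
    ndF0q1 ndF3q0 pcF1 Cut.none Ext.none :=
  certF1 (fam := true) (s1 := true) (s2 := false) (a := 1) (b := 0) (c := 1) (cn := .npn) (n1 := ndF0q1) (n2 := ndF3q0) (pc := pcF1) (cut := Cut.none) (xt := Ext.none) (P1 := 536870912) (W1 := 536870912) (P2 := 0) (W2 := 536870912) (P3 := 201326592) (W3 := 134217728)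
    rfl (fun _ => rfl) k0_pm_101

noncomputable def f_pm_102 : ℕ → ℕ → ℕ → ℕ → Bool := onCell 536870912 536870912 1073741824 536870912 201326592 134217728
    (rowF 1 true true false .npp 1 0 2 (qsf 536870912 536870912 0 536870912 2) ndF0q1 ndF3q0 pcF2 Cut.none Ext.none)

def k0_pm_102 : ∃ t, chk3 f_pm_102 t 1 1 1 = true :=
  ⟨(a (b (a (b (a (b (c (l 17465272) (a (l 17364640) (l 17319544))) (b (l 17385640) (l 2))) (b (c (l 17336752) (l 17252200)) (b (l 17273360) (l 17431128)))) (b (b (b (l 143983660167) (l 2)) (l 2)) (l 2))) (b (b (a (l 17406904) (l 17246152)) (b (a (l 17161920) (l 17109392)) (b (l 17275736) (l 17356808)))) (b (b (b (l 17268696) (a (l 17155464) (l 17085168))) (l 17238248)) (a (l 17103344) (l 17013024))))) (b (b (a (l 2) (l 17207912)) (l 2)) (l 2))) (b (a (b (b (a (l 17146744) (l 17094048)) (b (l 17290376) (b (l 17074168) (l 17194680)))) (b (b (b (l 17062360) (b (l 17053440) (l 17088664))) (l 17025408)) (b (l 17002192) (l 16978752)))) (b (a (b (b (l 17092976) (l 17076504))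 (b (l 17071272) (b (l 17073656) (l 17074808)))) (b (b (c (a (l 17116312) (l 17115824)) (a (l 17054704) (l 17044024))) (a (l 17075160) (l 17070056))) (b (a (l 17094064) (l 17143352)) (b (l 17167232) (l 17182128))))) (b (b (b (a (l 17076088) (l 17195104)) (a (b (l 17074632) (l 17074080)) (l 17328792))) (a (l 17073408) (l 17204080))) (a (l 17142688) (l 17220240))))) (b (a (b (l 17076664) (l 16957880)) (b (l 17407568) (l 17331424))) (b (a (l 16960248) (l 17380952)) (a (l 2) (l 17181136)))))), by decide +kernel⟩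

theorem c_pm_102 : CertF 536870912 536870912 0 536870912 201326592 134217728 true true false .npp 1 0 2
    ndF0q1 ndF3q0 pcF2 Cut.none Ext.none :=
  certF1 (fam := true) (s1 := true) (s2 := false) (a := 1) (b := 0) (c := 2) (cn := .npp) (n1 := ndF0q1) (n2 := ndF3q0) (pc := pcF2) (cut := Cut.none) (xt := Ext.none) (P1 := 536870912) (W1 := 536870912) (P2 := 0) (W2 := 536870912) (P3 := 201326592) (W3 := 134217728)
    rfl (fun _ => rfl) k0_pm_102

noncomputable def f_pm_112 : ℕ → ℕ → ℕ → ℕ → Bool := onCell 536870912 536870912 1073741824 536870912 201326592 134217728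
    (rowF 1 true true false .dn 1 1 2 (qsf 536870912 536870912 536870912 536870912 2) ndF0q1 ndF3q1 pcF2 Cut.none Ext.none)

def k0_pm_112 : ∃ t, chk3 f_pm_112 t 2 2 1 = true :=
  ⟨(a (b (a (b (a (c (b (b (l 17501280) (l 17517224)) (l 17542792)) (b (b (l 17222160) (l 17228888)) (l 17241640))) (c (l 263101773847) (l 216393447271))) (b (c (l 17597144) (l 17283072)) (b (l 17464928) (c (l 17715464) (a (l 17299520) (l 17337696)))))) (b (c (l 282429443335) (l 244310988679)) (b (c (l 17664560) (l 17352944)) (b (l 17530192) (l 17546016))))) (b (b (a (b (c (l 17669424) (a (l 17315480) (l 17352984))) (c (b (l 17683784) (l 17695840)) (b (l 17347688) (a (l 17338984) (l 17370968))))) (b (l 17561536) (b (l 17570928) (l 17576864)))) (a (c (a (l 17733560) (l 17725008)) (a (l 17367792) (l 17392432))) (a (c (l 17738592) (l 17420408)) (l 17600616)))) (a (b (c (l 17802440) (a (l 17428184) (l 17443416))) (c (l 17890608) (l 17500360))) (a (b (l 17615056) (l 17671560)) (b (l 17627832) (l 17656200)))))) (a (b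 (b (l 1) (b (l 1) (b (l 1) (l 17607040)))) (b (b (b (l 17619688) (b (l 17626416) (l 17630432))) (l 17636592)) (b (l 17652656) (a (l 17661712) (l 17672104))))) (b (l 1) (b (b (l 1) (l 17689088)) (b (l 17695944) (l 17698832)))))), by decide +kernel⟩

def k1_pm_112 : ∃ t, chk3 f_pm_112 t 2 3 1 = true :=
  ⟨(a (b (b (a (b (c (l 17966856) (l 17562256)) (c (l 18038648) (l 17624552))) (b (c (l 17879448) (l 17558528)) (c (l 17954624) (l 17621792)))) (a (b (c (l 18105776) (l 17688256)) (c (l 18165256) (a (l 17747944) (l 17747008)))) (b (l 17846968) (l 17902760)))) (b (a (b (a (c (l 18269600) (l 17824088)) (l 18015696)) (a (a (l 18131560) (l 18124032)) (l 18099472))) (b (l 17972504) (l 18047216))) (a (a (l 18247832) (b (c (l 18418160) (l 17964624)) (l 18247032))) (a (b (l 18139640) (l 18225904)) (l 18227248))))) (b (b (a (b (c (l 17821232) (l 17547736)) (l 17720696)) (b (l 17700624) (l 17714648))) (a (b (l 17765208) (l 17826712)) (b (l 17713336) (l 17739608)))) (b (a (b (l 17893464) (l 17970024))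 (b (l 17795248) (l 17881912))) (a (a (l 18094312) (l 18054264)) (l 17990752))))), by decide +kernel⟩

def k2_pm_112 : ∃ t, chk3 f_pm_112 t 3 1 1 = true :=
  ⟨(b (a (b (l 1) (b (l 1) (b (l 1) (l 17757576)))) (l 1)) (a (b (b (l 17973832) (a (b (l 17717136) (l 17723680)) (l 17730792))) (b (a (b (l 17734520) (l 17786504)) (b (l 17733448) (l 17764832))) (a (l 17876760) (l 17870248)))) (b (b (l 1) (l 17879992)) (b (l 18028736) (a (b (l 17777824) (l 17790880)) (l 17757640)))))), by decide +kernel⟩

theorem s3_pm_112 : ∃ t, chk3 f_pm_112 t 2 1 1 = true := ex3_b k0_pm_112 k1_pm_112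

theorem s4_pm_112 : ∃ t, chk3 f_pm_112 t 1 1 1 = true := ex3_a s3_pm_112 k2_pm_112

theorem c_pm_112 : CertF 536870912 536870912 536870912 536870912 201326592 134217728 true true false .dn 1 1 2
    ndF0q1 ndF3q1 pcF2 Cut.none Ext.none :=
  certF1 (fam := true) (s1 := true) (s2 := false) (a := 1) (b := 1) (c := 2) (cn := .dn) (n1 := ndF0q1) (n2 := ndF3q1) (pc := pcF2) (cut := Cut.none) (xt := Ext.none) (P1 := 536870912) (W1 := 536870912) (P2 := 536870912) (W2 := 536870912) (P3 := 201326592) (W3 := 134217728)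
    rfl (fun _ => rfl) s4_pm_112

noncomputable def f_pm_113 : ℕ → ℕ → ℕ → ℕ → Bool := onCell 1610612736 536870912 536870912 536870912 201326592 134217728
    (rowF 2 true true false .nn 1 1 3 (qsf 536870912 536870912 536870912 536870912 3) ndF0q1 ndF3q1 pcF3 Cut.none Ext.none)

def k0_pm_113 : ∃ t, chk3 f_pm_113 t 1 1 1 = true :=
  ⟨(a (b (a (b (a (b (l 17511872) (l 17726248)) (b (a (l 17499872) (l 2)) (l 17750112))) (a (b (l 17757168) (l 17708400)) (b (l 17562960) (l 17674192)))) (b (a (b (l 2) (c (l 17330824) (l 17294856))) (l 2)) (a (b (c (l 17454584) (l 17402856)) (l 17634056)) (b (l 4) (l 17472504))))) (a (b (a (b (l 17835592) (c (l 18056584) (l 17865848))) (b (l 18008272) (c (l 17997920) (l 17847464)))) (b (a (b (l 18074120) (l 18147512)) (b (l 18035072) (l 18110376))) (a (c (l 18435040) (l 18087360)) (l 18236760)))) (b (a (b (l 17756928) (a (l 17892496) (l 17861296))) (c (l 17788216) (l 17860520))) (b (a (b (l 17971760) (l 18046160)) (b (l 17894280) (l 17964432))) (a (l 18361792)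 (l 18085496)))))) (b (a (b (l 2) (l 4)) (l 2)) (a (a (b (b (l 4) (l 4)) (b (a (l 17859216) (l 4)) (l 17950272))) (b (l 4) (l 4))) (b (l 4) (l 4))))), by decide +kernel⟩

theorem c_pm_113 : CertF 536870912 536870912 536870912 536870912 201326592 134217728 true true false .nn 1 1 3
    ndF0q1 ndF3q1 pcF3 Cut.none Ext.none :=
  certF2 (fam := true) (s1 := true) (s2 := false) (a := 1) (b := 1) (c := 3) (cn := .nn) (n1 := ndF0q1) (n2 := ndF3q1) (pc := pcF3) (cut := Cut.none) (xt := Ext.none) (P1 := 536870912) (W1 := 536870912) (P2 := 536870912) (W2 := 536870912) (P3 := 201326592) (W3 := 134217728)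
    rfl (fun _ => rfl) k0_pm_113

noncomputable def f_pm_123 : ℕ → ℕ → ℕ → ℕ → Bool := onCell 1610612736 536870912 1073741824 536870912 201326592 134217728
    (rowF 2 true true false .npn 1 2 3 (qsf 536870912 536870912 1073741824 536870912 3) ndF0q1 ndF3q2 pcF3 Cut.none Ext.none)

def k0_pm_123 : ∃ t, chk3 f_pm_123 t 2 1 1 = true :=
  ⟨(b (a (b (a (b (b (a (l 17430200) (l 17434296)) (l 99356046279)) (b (l 17451712) (l 1))) (b (b (l 17418088) (l 17429320)) (b (l 17442864) (b (l 17455552) (l 17463568))))) (b (b (b (a (l 1) (l 17471448)) (l 1)) (l 1)) (l 1))) (b (a (b (b (l 17364736) (l 17382744)) (b (l 17398832) (b (l 17411912) (l 17419408)))) (b (b (l 17283512) (l 17306432)) (b (l 17329400) (b (l 17344144) (l 17351720))))) (b (b (b (a (l 17426624) (l 17358136)) (a (l 70902324151) (l 17507928))) (a (l 17427112) (l 17356384))) (a (b (l 17437040) (l 1)) (b (l 17364384) (l 17370344)))))) (a (l 1) (b (b (a (l 1) (l 168612724647)) (l 1)) (l 1)))), by decide +kernel⟩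

def k1_pm_123 : ∃ t, chk3 f_pm_123 t 3 1 1 = true :=
  ⟨(b (a (b (a (b (l 17367576) (b (l 17238352) (b (l 17256752) (l 17265408)))) (b (l 17163600) (b (l 17135968) (b (l 17155736) (l 17165264))))) (b (b (b (a (l 17271680) (l 17171216)) (a (l 17463144) (l 17172584))) (a (l 17269640) (l 17165272))) (a (b (l 17275840) (l 17281184)) (l 17390664)))) (b (a (b (a (l 17038200) (b (l 17178528) (l 17001816))) (b (l 17038008) (b (l 17053624) (l 17056120)))) (b (a (b (l 17168624) (l 16953256)) (a (l 16900096) (a (l 16857976) (a (l 16864080) (l 17133608))))) (b (a (l 16972360) (a (l 16932568) (a (l 16899880) (a (l 16888432) (l 16902336))))) (a (b (l 16986024) (l 16991016)) (a (b (l 16952088) (l 16959832)) (a (b (l 16925544) (l 16941256)) (b (l 17167576) (a (l 16927104) (l 16924016))))))))) (a (b (b (b (l 17067440) (l 17065712)) (l 17059592)) (b (l 17098240) (l 17092856))) (b (a (b (b (l 16994448) (l 16994400)) (l 16987024)) (a (b (b (l 16964632) (l 16961672)) (l 16958568)) (a (b (b (l 16949488) (l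 16948296)) (l 16950080)) (b (b (a (l 16940704) (l 16932592)) (a (l 16942288) (l 17147864))) (l 17023120))))) (a (l 17014080) (a (l 16976624) (a (l 16961224) (a (l 16954456) (l 16936096))))))))) (a (b (b (a (l 17286832) (l 17362360)) (a (l 17449256) (l 17329240))) (b (a (l 1) (l 255048619943)) (l 1))) (a (b (b (a (l 17131544) (l 17203040)) (l 17153048)) (b (l 17347480) (l 17199344))) (b (a (b (l 17023904) (l 17011312)) (a (b (l 16996888) (l 16967744)) (a (b (l 16971584) (l 16941600)) (b (l 16942072) (l 4))))) (a (b (l 17033376) (l 17109424)) (a (b (l 16989464) (l 17060504)) (l 4))))))), by decide +kernel⟩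

theorem s2_pm_123 : ∃ t, chk3 f_pm_123 t 1 1 1 = true := ex3_a k0_pm_123 k1_pm_123

theorem c_pm_123 : CertF 536870912 536870912 1073741824 536870912 201326592 134217728 true true false .npn 1 2 3
    ndF0q1 ndF3q2 pcF3 Cut.none Ext.none :=
  certF2 (fam := true) (s1 := true) (s2 := false) (a := 1) (b := 2) (c := 3) (cn := .npn) (n1 := ndF0q1) (n2 := ndF3q2) (pc := pcF3) (cut := Cut.none) (xt := Ext.none) (P1 := 536870912) (W1 := 536870912) (P2 := 1073741824) (W2 := 536870912) (P3 := 201326592) (W3 := 134217728)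
    rfl (fun _ => rfl) s2_pm_123

noncomputable def f_pm_133 : ℕ → ℕ → ℕ → ℕ → Bool := onCell 536870912 536870912 0 1230186008 201326592 134217728
    (rowF 0 true true false .dn 1 3 3 (qsf 536870912 536870912 0 1230186008 3) ndF0q1 ndF3q3 pcF3 Cut.none Ext.none)

def k0_pm_133 : ∃ t, chk3 f_pm_133 t 1 1 1 = true :=
  ⟨(b (l 2) (b (l 2) (a (l 4) (l 2)))), by decide +kernel⟩

theorem c_pm_133 : CertF 536870912 536870912 0 1230186008 201326592 134217728 true true false .dn 1 3 3
    ndF0q1 ndF3q3 pcF3 Cut.none Ext.none :=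
  certF0 (fam := true) (s1 := true) (s2 := false) (a := 1) (b := 3) (c := 3) (cn := .dn) (n1 := ndF0q1) (n2 := ndF3q3) (pc := pcF3) (cut := Cut.none) (xt := Ext.none) (P1 := 536870912) (W1 := 536870912) (P2 := 0) (W2 := 1230186008) (P3 := 201326592) (W3 := 134217728)
    rfl k0_pm_133

noncomputable def f_pm_202 : ℕ → ℕ → ℕ → ℕ → Bool := onCell 0 536870912 1073741824 536870912 201326592 134217728
    (rowF 1 true true false .pp 2 0 2 (qsf 0 536870912 0 536870912 2) ndF0q2 ndF3q0 pcF2 Cut.none Ext.none)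

def k0_pm_202 : ∃ t, chk3 f_pm_202 t 1 1 1 = true :=
  ⟨(a (b (a (b (l 1) (b (b (b (l 1) (l 17026776)) (l 16892144)) (l 16953176))) (b (a (l 1) (b (l 1) (b (l 1) (b (l 1) (l 16929352))))) (b (b (b (a (l 16894048) (l 16940896)) (a (l 16906488) (l 16950376))) (l 16951000)) (l 17181288)))) (b (b (a (l 17006064) (l 17058352)) (a (l 17074816) (l 17156000))) (a (l 17091736) (l 17439896)))) (b (a (b (a (b (l 1) (b (l 1) (b (l 16964952) (l 16976072)))) (b (l 1) (b (b (l 260953202327) (l 17000584)) (b (l 17012400) (l 17022288))))) (b (b (b (l 17009944) (a (l 16993440) (l 17038464))) (l 17025744)) (b (l 17047976) (l 17080640)))) (b (a (a (b (b (l 1) (b (l 1) (l 17013624))) (b (l 17030864) (b (l 17048208) (l 17058544)))) (b (b (l 1) (b (b (l 17024760) (l 17030632)) (l 17039048))) (b (l 17056008) (b (l 17074232) (l 17085200))))) (b (b (a (b (l 1) (c (l 273301522055) (l 244847203991))) (c (l 161632396567) (a (l 17024224) (l 17041096)))) (a (b (l 17054408) (l 17065528)) (l 17089976))) (b (l 17099776)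 (b (l 17120544) (l 17133040))))) (b (b (b (a (l 17081728) (l 17144416)) (a (l 17088544) (l 17151816))) (l 17123992)) (b (l 17142096) (l 17162832))))) (b (b (a (l 17125488) (l 17220624)) (a (l 17246488) (l 17311464))) (b (a (l 17280728) (l 17322696)) (l 17280256))))), by decide +kernel⟩

theorem c_pm_202 : CertF 0 536870912 0 536870912 201326592 134217728 true true false .pp 2 0 2
    ndF0q2 ndF3q0 pcF2 Cut.none Ext.none :=
  certF1 (fam := true) (s1 := true) (s2 := false) (a := 2) (b := 0) (c := 2) (cn := .pp) (n1 := ndF0q2) (n2 := ndF3q0) (pc := pcF2) (cut := Cut.none) (xt := Ext.none) (P1 := 0) (W1 := 536870912) (P2 := 0) (W2 := 536870912) (P3 := 201326592) (W3 := 134217728)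
    rfl (fun _ => rfl) k0_pm_202

noncomputable def f_pm_203 : ℕ → ℕ → ℕ → ℕ → Bool := onCell 0 536870912 1610612736 536870912 201326592 134217728
    (rowF 1 true true false .up 2 0 3 (qsf 0 536870912 0 536870912 3) ndF0q2 ndF3q0 pcF3 Cut.none Ext.none)

def k0_pm_203 : ∃ t, chk3 f_pm_203 t 1 1 1 = true :=
  ⟨(b (b (a (l 4) (b (a (l 17238728) (l 17287208)) (a (l 17245360) (l 17304232)))) (a (l 4) (a (l 2) (l 2)))) (l 2)), by decide +kernel⟩

theorem c_pm_203 : CertF 0 536870912 0 536870912 201326592 134217728 true true false .up 2 0 3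
    ndF0q2 ndF3q0 pcF3 Cut.none Ext.none :=
  certF1 (fam := true) (s1 := true) (s2 := false) (a := 2) (b := 0) (c := 3) (cn := .up) (n1 := ndF0q2) (n2 := ndF3q0) (pc := pcF3) (cut := Cut.none) (xt := Ext.none) (P1 := 0) (W1 := 536870912) (P2 := 0) (W2 := 536870912) (P3 := 201326592) (W3 := 134217728)
    rfl (fun _ => rfl) k0_pm_203

noncomputable def f_pm_213 : ℕ → ℕ → ℕ → ℕ → Bool := onCell 0 536870912 1610612736 536870912 201326592 134217728
    (rowF 1 true true false .pnn 2 1 3 (qsf 0 536870912 536870912 536870912 3) ndF0q2 ndF3q1 pcF3 Cut.none Ext.none)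

def k0_pm_213 : ∃ t, chk3 f_pm_213 t 1 1 1 = true :=
  ⟨(b (a (b (l 4) (l 4)) (b (a (b (l 1) (l 17652424)) (b (l 17504496) (a (l 17530200) (l 17668848)))) (a (l 4) (b (a (l 4) (l 17460208)) (l 4))))) (l 4)), by decide +kernel⟩

theorem c_pm_213 : CertF 0 536870912 536870912 536870912 201326592 134217728 true true false .pnn 2 1 3
    ndF0q2 ndF3q1 pcF3 Cut.none Ext.none :=
  certF1 (fam := true) (s1 := true) (s2 := false) (a := 2) (b := 1) (c := 3) (cn := .pnn) (n1 := ndF0q2) (n2 := ndF3q1) (pc := pcF3) (cut := Cut.none) (xt := Ext.none) (P1 := 0) (W1 := 536870912) (P2 := 536870912) (W2 := 536870912) (P3 := 201326592) (W3 := 134217728)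
    rfl (fun _ => rfl) k0_pm_213

noncomputable def f_mm_001 : ℕ → ℕ → ℕ → ℕ → Bool := onCell 0 536870912 0 536870912 201326592 134217728
    (rowF 0 true false false .up 0 0 1 (qsf 0 536870912 0 536870912 1) ndF0q0 ndF3q0 pcF1 Cut.none Ext.none)

def k0_mm_001 : ∃ t, chk3 f_mm_001 t 1 1 1 = true :=
  ⟨(l 4), by decide +kernel⟩

theorem c_mm_001 : CertF 0 536870912 0 536870912 201326592 134217728 true false false .up 0 0 1
    ndF0q0 ndF3q0 pcF1 Cut.none Ext.none :=
  certF0 (fam := true) (s1 := false) (s2 := false) (a := 0) (b := 0) (c := 1) (cn := .up) (n1 := ndF0q0) (n2 := ndF3q0) (pc := pcF1) (cut := Cut.none) (xt := Ext.none) (P1 := 0) (W1 := 536870912) (P2 := 0) (W2 := 536870912) (P3 := 201326592) (W3 := 134217728)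
    rfl k0_mm_001

noncomputable def f_mm_011 : ℕ → ℕ → ℕ → ℕ → Bool := onCell 0 536870912 536870912 536870912 201326592 134217728
    (rowF 0 true false false .pnn 0 1 1 (qsf 0 536870912 536870912 536870912 1) ndF0q0 ndF3q1 pcF1 Cut.none Ext.none)

def k0_mm_011 : ∃ t, chk3 f_mm_011 t 1 1 1 = true :=
  ⟨(l 4), by decide +kernel⟩

theorem c_mm_011 : CertF 0 536870912 536870912 536870912 201326592 134217728 true false false .pnn 0 1 1
    ndF0q0 ndF3q1 pcF1 Cut.none Ext.none :=
  certF0 (fam := true) (s1 := false) (s2 := false) (a := 0) (b := 1) (c := 1) (cn := .pnn) (n1 := ndF0q0) (n2 := ndF3q1) (pc := pcF1) (cut := Cut.none) (xt := Ext.none) (P1 := 0) (W1 := 536870912) (P2 := 536870912) (W2 := 536870912) (P3 := 201326592) (W3 := 134217728)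
    rfl k0_mm_011

noncomputable def f_mm_012 : ℕ → ℕ → ℕ → ℕ → Bool := onCell 0 536870912 536870912 536870912 201326592 134217728
    (rowF 0 true false false .pnp 0 1 2 (qsf 0 536870912 536870912 536870912 2) ndF0q0 ndF3q1 pcF2 Cut.none Ext.none)

def k0_mm_012 : ∃ t, chk3 f_mm_012 t 1 1 1 = true :=
  ⟨(l 4), by decide +kernel⟩

theorem c_mm_012 : CertF 0 536870912 536870912 536870912 201326592 134217728 true false false .pnp 0 1 2
    ndF0q0 ndF3q1 pcF2 Cut.none Ext.none :=
  certF0 (fam := true) (s1 := false) (s2 := false) (a := 0) (b := 1) (c := 2) (cn := .pnp) (n1 := ndF0q0) (n2 := ndF3q1) (pc := pcF2) (cut := Cut.none) (xt := Ext.none) (P1 := 0) (W1 := 536870912) (P2 := 536870912) (W2 := 536870912) (P3 := 201326592) (W3 := 134217728)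
    rfl k0_mm_012

noncomputable def f_mm_022 : ℕ → ℕ → ℕ → ℕ → Bool := onCell 0 536870912 1073741824 536870912 201326592 134217728
    (rowF 0 true false false .pp 0 2 2 (qsf 0 536870912 1073741824 536870912 2) ndF0q0 ndF3q2 pcF2 Cut.none Ext.none)

def k0_mm_022 : ∃ t, chk3 f_mm_022 t 1 1 1 = true :=
  ⟨(l 4), by decide +kernel⟩

theorem c_mm_022 : CertF 0 536870912 1073741824 536870912 201326592 134217728 true false false .pp 0 2 2
    ndF0q0 ndF3q2 pcF2 Cut.none Ext.none :=
  certF0 (fam := true) (s1 := false) (s2 := false) (a := 0) (b := 2) (c := 2) (cn := .pp) (n1 := ndF0q0) (n2 := ndF3q2) (pc := pcF2) (cut := Cut.none) (xt := Ext.none) (P1 := 0) (W1 := 536870912) (P2 := 1073741824) (W2 := 536870912) (P3 := 201326592) (W3 := 134217728)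
    rfl k0_mm_022

noncomputable def f_mm_023 : ℕ → ℕ → ℕ → ℕ → Bool := onCell 0 536870912 1073741824 536870912 201326592 134217728
    (rowF 0 true false false .up 0 2 3 (qsf 0 536870912 1073741824 536870912 3) ndF0q0 ndF3q2 pcF3 Cut.none Ext.none)

def k0_mm_023 : ∃ t, chk3 f_mm_023 t 1 1 1 = true :=
  ⟨(l 4), by decide +kernel⟩

theorem c_mm_023 : CertF 0 536870912 1073741824 536870912 201326592 134217728 true false false .up 0 2 3
    ndF0q0 ndF3q2 pcF3 Cut.none Ext.none :=
  certF0 (fam := true) (s1 := false) (s2 := false) (a := 0) (b := 2) (c := 3) (cn := .up) (n1 := ndF0q0) (n2 := ndF3q2) (pc := pcF3) (cut := Cut.none) (xt := Ext.none) (P1 := 0) (W1 := 536870912) (P2 := 1073741824) (W2 := 536870912) (P3 := 201326592) (W3 := 134217728)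
    rfl k0_mm_023

noncomputable def f_mm_033 : ℕ → ℕ → ℕ → ℕ → Bool := onCell 0 536870912 0 1230186008 201326592 134217728
    (rowF 0 true false false .pnn 0 3 3 (qsf 0 536870912 0 1230186008 3) ndF0q0 ndF3q3 pcF3 Cut.none Ext.none)

def k0_mm_033 : ∃ t, chk3 f_mm_033 t 1 1 1 = true :=
  ⟨(l 5), by decide +kernel⟩

theorem c_mm_033 : CertF 0 536870912 0 1230186008 201326592 134217728 true false false .pnn 0 3 3
    ndF0q0 ndF3q3 pcF3 Cut.none Ext.none :=
  certF0 (fam := true) (s1 := false) (s2 := false) (a := 0) (b := 3) (c := 3) (cn := .pnn) (n1 := ndF0q0) (n2 := ndF3q3) (pc := pcF3) (cut := Cut.none) (xt := Ext.none) (P1 := 0) (W1 := 536870912) (P2 := 0) (W2 := 1230186008) (P3 := 201326592) (W3 := 134217728)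
    rfl k0_mm_033

noncomputable def f_mm_101 : ℕ → ℕ → ℕ → ℕ → Bool := onCell 536870912 536870912 0 536870912 201326592 134217728
    (rowF 0 true false false .npn 1 0 1 (qsf 536870912 536870912 0 536870912 1) ndF0q1 ndF3q0 pcF1 Cut.none Ext.none)

def k0_mm_101 : ∃ t, chk3 f_mm_101 t 1 1 1 = true :=
  ⟨(l 4), by decide +kernel⟩

theorem c_mm_101 : CertF 536870912 536870912 0 536870912 201326592 134217728 true false false .npn 1 0 1
    ndF0q1 ndF3q0 pcF1 Cut.none Ext.none :=
  certF0 (fam := true) (s1 := false) (s2 := false) (a := 1) (b := 0) (c := 1) (cn := .npn) (n1 := ndF0q1) (n2 := ndF3q0) (pc := pcF1) (cut := Cut.none) (xt := Ext.none) (P1 := 536870912) (W1 := 536870912) (P2 := 0) (W2 := 536870912) (P3 := 201326592) (W3 := 134217728)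
    rfl k0_mm_101

noncomputable def f_mm_102 : ℕ → ℕ → ℕ → ℕ → Bool := onCell 536870912 536870912 0 536870912 201326592 134217728
    (rowF 0 true false false .npp 1 0 2 (qsf 536870912 536870912 0 536870912 2) ndF0q1 ndF3q0 pcF2 Cut.none Ext.none)

def k0_mm_102 : ∃ t, chk3 f_mm_102 t 1 1 1 = true :=
  ⟨(l 4), by decide +kernel⟩

theorem c_mm_102 : CertF 536870912 536870912 0 536870912 201326592 134217728 true false false .npp 1 0 2
    ndF0q1 ndF3q0 pcF2 Cut.none Ext.none :=
  certF0 (fam := true) (s1 := false) (s2 := false) (a := 1) (b := 0) (c := 2) (cn := .npp) (n1 := ndF0q1) (n2 := ndF3q0) (pc := pcF2) (cut := Cut.none) (xt := Ext.none) (P1 := 536870912) (W1 := 536870912) (P2 := 0) (W2 := 536870912) (P3 := 201326592) (W3 := 134217728)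
    rfl k0_mm_102

noncomputable def f_mm_112 : ℕ → ℕ → ℕ → ℕ → Bool := onCell 536870912 536870912 536870912 536870912 201326592 134217728
    (rowF 0 true false false .dn 1 1 2 (qsf 536870912 536870912 536870912 536870912 2) ndF0q1 ndF3q1 pcF2 Cut.none Ext.none)

def k0_mm_112 : ∃ t, chk3 f_mm_112 t 1 1 1 = true :=
  ⟨(l 4), by decide +kernel⟩

theorem c_mm_112 : CertF 536870912 536870912 536870912 536870912 201326592 134217728 true false false .dn 1 1 2
    ndF0q1 ndF3q1 pcF2 Cut.none Ext.none :=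
  certF0 (fam := true) (s1 := false) (s2 := false) (a := 1) (b := 1) (c := 2) (cn := .dn) (n1 := ndF0q1) (n2 := ndF3q1) (pc := pcF2) (cut := Cut.none) (xt := Ext.none) (P1 := 536870912) (W1 := 536870912) (P2 := 536870912) (W2 := 536870912) (P3 := 201326592) (W3 := 134217728)
    rfl k0_mm_112

noncomputable def f_mm_113 : ℕ → ℕ → ℕ → ℕ → Bool := onCell 536870912 536870912 536870912 536870912 201326592 134217728
    (rowF 0 true false false .nn 1 1 3 (qsf 536870912 536870912 536870912 536870912 3) ndF0q1 ndF3q1 pcF3 Cut.none Ext.none)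

def k0_mm_113 : ∃ t, chk3 f_mm_113 t 1 1 1 = true :=
  ⟨(l 4), by decide +kernel⟩

theorem c_mm_113 : CertF 536870912 536870912 536870912 536870912 201326592 134217728 true false false .nn 1 1 3
    ndF0q1 ndF3q1 pcF3 Cut.none Ext.none :=
  certF0 (fam := true) (s1 := false) (s2 := false) (a := 1) (b := 1) (c := 3) (cn := .nn) (n1 := ndF0q1) (n2 := ndF3q1) (pc := pcF3) (cut := Cut.none) (xt := Ext.none) (P1 := 536870912) (W1 := 536870912) (P2 := 536870912) (W2 := 536870912) (P3 := 201326592) (W3 := 134217728)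
    rfl k0_mm_113

noncomputable def f_mm_123 : ℕ → ℕ → ℕ → ℕ → Bool := onCell 536870912 536870912 1073741824 536870912 201326592 134217728
    (rowF 0 true false false .npn 1 2 3 (qsf 536870912 536870912 1073741824 536870912 3) ndF0q1 ndF3q2 pcF3 Cut.none Ext.none)

def k0_mm_123 : ∃ t, chk3 f_mm_123 t 1 1 1 = true :=
  ⟨(l 4), by decide +kernel⟩

theorem c_mm_123 : CertF 536870912 536870912 1073741824 536870912 201326592 134217728 true false false .npn 1 2 3
    ndF0q1 ndF3q2 pcF3 Cut.none Ext.none :=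
  certF0 (fam := true) (s1 := false) (s2 := false) (a := 1) (b := 2) (c := 3) (cn := .npn) (n1 := ndF0q1) (n2 := ndF3q2) (pc := pcF3) (cut := Cut.none) (xt := Ext.none) (P1 := 536870912) (W1 := 536870912) (P2 := 1073741824) (W2 := 536870912) (P3 := 201326592) (W3 := 134217728)
    rfl k0_mm_123

noncomputable def f_mm_133 : ℕ → ℕ → ℕ → ℕ → Bool := onCell 536870912 536870912 0 1230186008 201326592 134217728
    (rowF 0 true false false .dn 1 3 3 (qsf 536870912 536870912 0 1230186008 3) ndF0q1 ndF3q3 pcF3 Cut.none Ext.none)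

def k0_mm_133 : ∃ t, chk3 f_mm_133 t 1 1 1 = true :=
  ⟨(l 4), by decide +kernel⟩

theorem c_mm_133 : CertF 536870912 536870912 0 1230186008 201326592 134217728 true false false .dn 1 3 3
    ndF0q1 ndF3q3 pcF3 Cut.none Ext.none :=
  certF0 (fam := true) (s1 := false) (s2 := false) (a := 1) (b := 3) (c := 3) (cn := .dn) (n1 := ndF0q1) (n2 := ndF3q3) (pc := pcF3) (cut := Cut.none) (xt := Ext.none) (P1 := 536870912) (W1 := 536870912) (P2 := 0) (W2 := 1230186008) (P3 := 201326592) (W3 := 134217728)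
    rfl k0_mm_133

noncomputable def f_mm_202 : ℕ → ℕ → ℕ → ℕ → Bool := onCell 0 536870912 0 536870912 201326592 134217728
    (rowF 0 true false false .pp 2 0 2 (qsf 0 536870912 0 536870912 2) ndF0q2 ndF3q0 pcF2 Cut.none Ext.none)

def k0_mm_202 : ∃ t, chk3 f_mm_202 t 1 1 1 = true :=
  ⟨(b (a (b (a (b (b (l 16892976) (l 16932760)) (l 16969072)) (b (b (a (l 16906960) (l 16929672)) (l 17006680)) (b (l 16945200) (l 4)))) (a (b (l 16953360) (l 4)) (l 4))) (b (a (b (b (a (l 16945736) (l 4)) (l 4)) (l 4)) (l 4)) (l 4))) (l 4)), by decide +kernel⟩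

theorem c_mm_202 : CertF 0 536870912 0 536870912 201326592 134217728 true false false .pp 2 0 2
    ndF0q2 ndF3q0 pcF2 Cut.none Ext.none :=
  certF0 (fam := true) (s1 := false) (s2 := false) (a := 2) (b := 0) (c := 2) (cn := .pp) (n1 := ndF0q2) (n2 := ndF3q0) (pc := pcF2) (cut := Cut.none) (xt := Ext.none) (P1 := 0) (W1 := 536870912) (P2 := 0) (W2 := 536870912) (P3 := 201326592) (W3 := 134217728)
    rfl k0_mm_202

noncomputable def f_mm_203 : ℕ → ℕ → ℕ → ℕ → Bool := onCell 0 536870912 1610612736 536870912 201326592 134217728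
    (rowF 1 true false false .up 2 0 3 (qsf 0 536870912 0 536870912 3) ndF0q2 ndF3q0 pcF3 Cut.none Ext.none)

def k0_mm_203 : ∃ t, chk3 f_mm_203 t 1 1 1 = true :=
  ⟨(l 4), by decide +kernel⟩

theorem c_mm_203 : CertF 0 536870912 0 536870912 201326592 134217728 true false false .up 2 0 3
    ndF0q2 ndF3q0 pcF3 Cut.none Ext.none :=
  certF1 (fam := true) (s1 := false) (s2 := false) (a := 2) (b := 0) (c := 3) (cn := .up) (n1 := ndF0q2) (n2 := ndF3q0) (pc := pcF3) (cut := Cut.none) (xt := Ext.none) (P1 := 0) (W1 := 536870912) (P2 := 0) (W2 := 536870912) (P3 := 201326592) (W3 := 134217728)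
    rfl (fun _ => rfl) k0_mm_203

noncomputable def f_mm_213 : ℕ → ℕ → ℕ → ℕ → Bool := onCell 0 536870912 536870912 536870912 201326592 134217728
    (rowF 0 true false false .pnn 2 1 3 (qsf 0 536870912 536870912 536870912 3) ndF0q2 ndF3q1 pcF3 Cut.none Ext.none)

def k0_mm_213 : ∃ t, chk3 f_mm_213 t 1 1 1 = true :=
  ⟨(l 4), by decide +kernel⟩

theorem c_mm_213 : CertF 0 536870912 536870912 536870912 201326592 134217728 true false false .pnn 2 1 3
    ndF0q2 ndF3q1 pcF3 Cut.none Ext.none :=
  certF0 (fam := true) (s1 := false) (s2 := false) (a := 2) (b := 1) (c := 3) (cn := .pnn) (n1 := ndF0q2) (n2 := ndF3q1) (pc := pcF3) (cut := Cut.none) (xt := Ext.none) (P1 := 0) (W1 := 536870912) (P2 := 536870912) (W2 := 536870912) (P3 := 201326592) (W3 := 134217728)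
    rfl k0_mm_213

end Pool.Agent.Strip051.G.I3_16_5_16.Tab.C.FA03

namespace Pool.Agent.Strip051.G.I3_16_5_16.Tab.C.FA04

open Pool.Agent.Strip051.PB Pool.Agent.Strip051.PB.T
open Pool.Agent.Strip051.G.I3_16_5_16.Tab

noncomputable def f_pp_001 : ℕ → ℕ → ℕ → ℕ → Bool := onCell 0 536870912 0 536870912 201326592 134217728
    (rowF 0 true true true .up 0 0 1 (qsf 0 536870912 0 536870912 1) ndF0q0 ndF4q0 pcF1 Cut.none Ext.none)

def k0_pp_001 : ∃ t, chk3 f_pp_001 t 1 1 1 = true :=
  ⟨(l 4), by decide +kernel⟩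

theorem c_pp_001 : CertF 0 536870912 0 536870912 201326592 134217728 true true true .up 0 0 1
    ndF0q0 ndF4q0 pcF1 Cut.none Ext.none :=
  certF0 (fam := true) (s1 := true) (s2 := true) (a := 0) (b := 0) (c := 1) (cn := .up) (n1 := ndF0q0) (n2 := ndF4q0) (pc := pcF1) (cut := Cut.none) (xt := Ext.none) (P1 := 0) (W1 := 536870912) (P2 := 0) (W2 := 536870912) (P3 := 201326592) (W3 := 134217728)
    rfl k0_pp_001

noncomputable def f_pp_011 : ℕ → ℕ → ℕ → ℕ → Bool := onCell 0 536870912 536870912 536870912 201326592 134217728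
    (rowF 0 true true true .pnn 0 1 1 (qsf 0 536870912 536870912 536870912 1) ndF0q0 ndF4q1 pcF1 Cut.none Ext.none)

def k0_pp_011 : ∃ t, chk3 f_pp_011 t 1 1 1 = true :=
  ⟨(l 4), by decide +kernel⟩

theorem c_pp_011 : CertF 0 536870912 536870912 536870912 201326592 134217728 true true true .pnn 0 1 1
    ndF0q0 ndF4q1 pcF1 Cut.none Ext.none :=
  certF0 (fam := true) (s1 := true) (s2 := true) (a := 0) (b := 1) (c := 1) (cn := .pnn) (n1 := ndF0q0) (n2 := ndF4q1) (pc := pcF1) (cut := Cut.none) (xt := Ext.none) (P1 := 0) (W1 := 536870912) (P2 := 536870912) (W2 := 536870912) (P3 := 201326592) (W3 := 134217728)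
    rfl k0_pp_011

noncomputable def f_pp_012 : ℕ → ℕ → ℕ → ℕ → Bool := onCell 0 536870912 536870912 536870912 201326592 134217728
    (rowF 0 true true true .pnp 0 1 2 (qsf 0 536870912 536870912 536870912 2) ndF0q0 ndF4q1 pcF2 Cut.none Ext.none)

def k0_pp_012 : ∃ t, chk3 f_pp_012 t 1 1 1 = true :=
  ⟨(l 4), by decide +kernel⟩

theorem c_pp_012 : CertF 0 536870912 536870912 536870912 201326592 134217728 true true true .pnp 0 1 2
    ndF0q0 ndF4q1 pcF2 Cut.none Ext.none :=
  certF0 (fam := true) (s1 := true) (s2 := true) (a := 0) (b := 1) (c := 2) (cn := .pnp) (n1 := ndF0q0) (n2 := ndF4q1) (pc := pcF2) (cut := Cut.none) (xt := Ext.none) (P1 := 0) (W1 := 536870912) (P2 := 536870912) (W2 := 536870912) (P3 := 201326592) (W3 := 134217728)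
    rfl k0_pp_012

noncomputable def f_pp_022 : ℕ → ℕ → ℕ → ℕ → Bool := onCell 0 536870912 1073741824 536870912 201326592 134217728
    (rowF 0 true true true .pp 0 2 2 (qsf 0 536870912 1073741824 536870912 2) ndF0q0 ndF4q2 pcF2 Cut.none Ext.none)

def k0_pp_022 : ∃ t, chk3 f_pp_022 t 1 1 1 = true :=
  ⟨(l 4), by decide +kernel⟩

theorem c_pp_022 : CertF 0 536870912 1073741824 536870912 201326592 134217728 true true true .pp 0 2 2
    ndF0q0 ndF4q2 pcF2 Cut.none Ext.none :=
  certF0 (fam := true) (s1 := true) (s2 := true) (a := 0) (b := 2) (c := 2) (cn := .pp) (n1 := ndF0q0) (n2 := ndF4q2) (pc := pcF2) (cut := Cut.none) (xt := Ext.none) (P1 := 0) (W1 := 536870912) (P2 := 1073741824) (W2 := 536870912) (P3 := 201326592) (W3 := 134217728)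
    rfl k0_pp_022

noncomputable def f_pp_023 : ℕ → ℕ → ℕ → ℕ → Bool := onCell 0 536870912 1073741824 536870912 201326592 134217728
    (rowF 0 true true true .up 0 2 3 (qsf 0 536870912 1073741824 536870912 3) ndF0q0 ndF4q2 pcF3 Cut.none Ext.none)

def k0_pp_023 : ∃ t, chk3 f_pp_023 t 1 1 1 = true :=
  ⟨(l 4), by decide +kernel⟩

theorem c_pp_023 : CertF 0 536870912 1073741824 536870912 201326592 134217728 true true true .up 0 2 3
    ndF0q0 ndF4q2 pcF3 Cut.none Ext.none :=
  certF0 (fam := true) (s1 := true) (s2 := true) (a := 0) (b := 2) (c := 3) (cn := .up) (n1 := ndF0q0) (n2 := ndF4q2) (pc := pcF3) (cut := Cut.none) (xt := Ext.none) (P1 := 0) (W1 := 536870912) (P2 := 1073741824) (W2 := 536870912) (P3 := 201326592) (W3 := 134217728)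
    rfl k0_pp_023

noncomputable def f_pp_033 : ℕ → ℕ → ℕ → ℕ → Bool := onCell 0 536870912 0 1230186008 201326592 134217728
    (rowF 0 true true true .pnn 0 3 3 (qsf 0 536870912 0 1230186008 3) ndF0q0 ndF4q3 pcF3 Cut.none Ext.none)

def k0_pp_033 : ∃ t, chk3 f_pp_033 t 1 1 1 = true :=
  ⟨(b (l 4) (l 4)), by decide +kernel⟩

theorem c_pp_033 : CertF 0 536870912 0 1230186008 201326592 134217728 true true true .pnn 0 3 3
    ndF0q0 ndF4q3 pcF3 Cut.none Ext.none :=
  certF0 (fam := true) (s1 := true) (s2 := true) (a := 0) (b := 3) (c := 3) (cn := .pnn) (n1 := ndF0q0) (n2 := ndF4q3) (pc := pcF3) (cut := Cut.none) (xt := Ext.none) (P1 := 0) (W1 := 536870912) (P2 := 0) (W2 := 1230186008) (P3 := 201326592) (W3 := 134217728)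
    rfl k0_pp_033

noncomputable def f_pp_101 : ℕ → ℕ → ℕ → ℕ → Bool := onCell 536870912 536870912 0 536870912 201326592 134217728
    (rowF 0 true true true .npn 1 0 1 (qsf 536870912 536870912 0 536870912 1) ndF0q1 ndF4q0 pcF1 Cut.none Ext.none)

def k0_pp_101 : ∃ t, chk3 f_pp_101 t 1 1 1 = true :=
  ⟨(l 4), by decide +kernel⟩

theorem c_pp_101 : CertF 536870912 536870912 0 536870912 201326592 134217728 true true true .npn 1 0 1
    ndF0q1 ndF4q0 pcF1 Cut.none Ext.none :=
  certF0 (fam := true) (s1 := true) (s2 := true) (a := 1) (b := 0) (c := 1) (cn := .npn) (n1 := ndF0q1) (n2 := ndF4q0) (pc := pcF1) (cut := Cut.none) (xt := Ext.none) (P1 := 536870912) (W1 := 536870912) (P2 := 0) (W2 := 536870912) (P3 := 201326592) (W3 := 134217728)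
    rfl k0_pp_101

noncomputable def f_pp_102 : ℕ → ℕ → ℕ → ℕ → Bool := onCell 536870912 536870912 0 536870912 201326592 134217728
    (rowF 0 true true true .npp 1 0 2 (qsf 536870912 536870912 0 536870912 2) ndF0q1 ndF4q0 pcF2 Cut.none Ext.none)

def k0_pp_102 : ∃ t, chk3 f_pp_102 t 1 1 1 = true :=
  ⟨(l 4), by decide +kernel⟩

theorem c_pp_102 : CertF 536870912 536870912 0 536870912 201326592 134217728 true true true .npp 1 0 2
    ndF0q1 ndF4q0 pcF2 Cut.none Ext.none :=
  certF0 (fam := true) (s1 := true) (s2 := true) (a := 1) (b := 0) (c := 2) (cn := .npp) (n1 := ndF0q1) (n2 := ndF4q0) (pc := pcF2) (cut := Cut.none) (xt := Ext.none) (P1 := 536870912) (W1 := 536870912) (P2 := 0) (W2 := 536870912) (P3 := 201326592) (W3 := 134217728)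
    rfl k0_pp_102

noncomputable def f_pp_112 : ℕ → ℕ → ℕ → ℕ → Bool := onCell 536870912 536870912 536870912 536870912 201326592 134217728
    (rowF 0 true true true .dn 1 1 2 (qsf 536870912 536870912 536870912 536870912 2) ndF0q1 ndF4q1 pcF2 Cut.none Ext.none)

def k0_pp_112 : ∃ t, chk3 f_pp_112 t 1 1 1 = true :=
  ⟨(l 4), by decide +kernel⟩

theorem c_pp_112 : CertF 536870912 536870912 536870912 536870912 201326592 134217728 true true true .dn 1 1 2
    ndF0q1 ndF4q1 pcF2 Cut.none Ext.none :=
  certF0 (fam := true) (s1 := true) (s2 := true) (a := 1) (b := 1) (c := 2) (cn := .dn) (n1 := ndF0q1) (n2 := ndF4q1) (pc := pcF2) (cut := Cut.none) (xt := Ext.none) (P1 := 536870912) (W1 := 536870912) (P2 := 536870912) (W2 := 536870912) (P3 := 201326592) (W3 := 134217728)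
    rfl k0_pp_112

noncomputable def f_pp_113 : ℕ → ℕ → ℕ → ℕ → Bool := onCell 536870912 536870912 536870912 536870912 201326592 134217728
    (rowF 0 true true true .nn 1 1 3 (qsf 536870912 536870912 536870912 536870912 3) ndF0q1 ndF4q1 pcF3 Cut.none Ext.none)

def k0_pp_113 : ∃ t, chk3 f_pp_113 t 1 1 1 = true :=
  ⟨(l 4), by decide +kernel⟩

theorem c_pp_113 : CertF 536870912 536870912 536870912 536870912 201326592 134217728 true true true .nn 1 1 3
    ndF0q1 ndF4q1 pcF3 Cut.none Ext.none :=
  certF0 (fam := true) (s1 := true) (s2 := true) (a := 1) (b := 1) (c := 3) (cn := .nn) (n1 := ndF0q1) (n2 := ndF4q1) (pc := pcF3) (cut := Cut.none) (xt := Ext.none) (P1 := 536870912) (W1 := 536870912) (P2 := 536870912) (W2 := 536870912) (P3 := 201326592) (W3 := 134217728)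
    rfl k0_pp_113

noncomputable def f_pp_123 : ℕ → ℕ → ℕ → ℕ → Bool := onCell 536870912 536870912 1073741824 536870912 201326592 134217728
    (rowF 0 true true true .npn 1 2 3 (qsf 536870912 536870912 1073741824 536870912 3) ndF0q1 ndF4q2 pcF3 Cut.none Ext.none)

def k0_pp_123 : ∃ t, chk3 f_pp_123 t 1 1 1 = true :=
  ⟨(l 4), by decide +kernel⟩

theorem c_pp_123 : CertF 536870912 536870912 1073741824 536870912 201326592 134217728 true true true .npn 1 2 3
    ndF0q1 ndF4q2 pcF3 Cut.none Ext.none :=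
  certF0 (fam := true) (s1 := true) (s2 := true) (a := 1) (b := 2) (c := 3) (cn := .npn) (n1 := ndF0q1) (n2 := ndF4q2) (pc := pcF3) (cut := Cut.none) (xt := Ext.none) (P1 := 536870912) (W1 := 536870912) (P2 := 1073741824) (W2 := 536870912) (P3 := 201326592) (W3 := 134217728)
    rfl k0_pp_123

noncomputable def f_pp_133 : ℕ → ℕ → ℕ → ℕ → Bool := onCell 536870912 536870912 0 1230186008 201326592 134217728
    (rowF 0 true true true .dn 1 3 3 (qsf 536870912 536870912 0 1230186008 3) ndF0q1 ndF4q3 pcF3 Cut.none Ext.none)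

def k0_pp_133 : ∃ t, chk3 f_pp_133 t 1 1 1 = true :=
  ⟨(l 4), by decide +kernel⟩

theorem c_pp_133 : CertF 536870912 536870912 0 1230186008 201326592 134217728 true true true .dn 1 3 3
    ndF0q1 ndF4q3 pcF3 Cut.none Ext.none :=
  certF0 (fam := true) (s1 := true) (s2 := true) (a := 1) (b := 3) (c := 3) (cn := .dn) (n1 := ndF0q1) (n2 := ndF4q3) (pc := pcF3) (cut := Cut.none) (xt := Ext.none) (P1 := 536870912) (W1 := 536870912) (P2 := 0) (W2 := 1230186008) (P3 := 201326592) (W3 := 134217728)
    rfl k0_pp_133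

noncomputable def f_pp_202 : ℕ → ℕ → ℕ → ℕ → Bool := onCell 0 536870912 0 536870912 201326592 134217728
    (rowF 0 true true true .pp 2 0 2 (qsf 0 536870912 0 536870912 2) ndF0q2 ndF4q0 pcF2 Cut.none Ext.none)

def k0_pp_202 : ∃ t, chk3 f_pp_202 t 1 1 1 = true :=
  ⟨(l 5), by decide +kernel⟩

theorem c_pp_202 : CertF 0 536870912 0 536870912 201326592 134217728 true true true .pp 2 0 2
    ndF0q2 ndF4q0 pcF2 Cut.none Ext.none :=
  certF0 (fam := true) (s1 := true) (s2 := true) (a := 2) (b := 0) (c := 2) (cn := .pp) (n1 := ndF0q2) (n2 := ndF4q0) (pc := pcF2) (cut := Cut.none) (xt := Ext.none) (P1 := 0) (W1 := 536870912) (P2 := 0) (W2 := 536870912) (P3 := 201326592) (W3 := 134217728)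
    rfl k0_pp_202

noncomputable def f_pp_203 : ℕ → ℕ → ℕ → ℕ → Bool := onCell 0 536870912 0 536870912 201326592 134217728
    (rowF 0 true true true .up 2 0 3 (qsf 0 536870912 0 536870912 3) ndF0q2 ndF4q0 pcF3 Cut.none Ext.none)

def k0_pp_203 : ∃ t, chk3 f_pp_203 t 1 1 1 = true :=
  ⟨(l 5), by decide +kernel⟩

theorem c_pp_203 : CertF 0 536870912 0 536870912 201326592 134217728 true true true .up 2 0 3
    ndF0q2 ndF4q0 pcF3 Cut.none Ext.none :=
  certF0 (fam := true) (s1 := true) (s2 := true) (a := 2) (b := 0) (c := 3) (cn := .up) (n1 := ndF0q2) (n2 := ndF4q0) (pc := pcF3) (cut := Cut.none) (xt := Ext.none) (P1 := 0) (W1 := 536870912) (P2 := 0) (W2 := 536870912) (P3 := 201326592) (W3 := 134217728)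
    rfl k0_pp_203

noncomputable def f_pp_213 : ℕ → ℕ → ℕ → ℕ → Bool := onCell 0 536870912 536870912 536870912 201326592 134217728
    (rowF 0 true true true .pnn 2 1 3 (qsf 0 536870912 536870912 536870912 3) ndF0q2 ndF4q1 pcF3 Cut.none Ext.none)

def k0_pp_213 : ∃ t, chk3 f_pp_213 t 1 1 1 = true :=
  ⟨(l 4), by decide +kernel⟩

theorem c_pp_213 : CertF 0 536870912 536870912 536870912 201326592 134217728 true true true .pnn 2 1 3
    ndF0q2 ndF4q1 pcF3 Cut.none Ext.none :=
  certF0 (fam := true) (s1 := true) (s2 := true) (a := 2) (b := 1) (c := 3) (cn := .pnn) (n1 := ndF0q2) (n2 := ndF4q1) (pc := pcF3) (cut := Cut.none) (xt := Ext.none) (P1 := 0) (W1 := 536870912) (P2 := 536870912) (W2 := 536870912) (P3 := 201326592) (W3 := 134217728)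
    rfl k0_pp_213

noncomputable def f_pm_001 : ℕ → ℕ → ℕ → ℕ → Bool := onCell 0 536870912 536870912 536870912 201326592 134217728
    (rowF 1 true true false .up 0 0 1 (qsf 0 536870912 0 536870912 1) ndF0q0 ndF4q0 pcF1 Cut.none Ext.none)

def k0_pm_001 : ∃ t, chk3 f_pm_001 t 1 1 1 = true :=
  ⟨(b (l 3) (a (b (l 3) (l 2)) (b (a (l 3) (a (l 3) (b (l 3) (b (l 3) (a (l 3) (a (l 3) (c (l 295984755575) (c (l 129554407591) (l 134386174007))))))))) (a (a (l 2) (b (b (b (l 3) (l 2)) (l 2)) (l 2))) (a (b (a (c (b (b (l 3) (b (a (l 3) (a (l 849498775831) (l 213306733463))) (a (l 2) (a (l 300749589943) (l 17368448))))) (a (l 2) (l 294307238631))) (b (b (l 3) (b (a (l 3) (c (l 552608919463) (l 557977529239))) (a (l 2) (c (l 199817642039) (a (l 270684512839) (l 17232664)))))) (c (l 291085765559) (l 312560513639)))) (a (b (b (l 3) (c (b (l 211695987111) (l 17364856)) (c (l 196663473543) (c (l 145123642487) (l 17143936))))) (c (l 17382168) (c (l 17290720) (l 17276232)))) (b (c (b (l 518786148471) (l 17330112))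 (c (l 206327120679) (a (l 165524810743) (l 137070538327)))) (c (l 17350936) (l 17176472))))) (a (l 2) (c (l 300749802999) (l 215386598615)))) (a (b (b (c (c (l 227265362727) (l 222970294791)) (c (c (l 217601650359) (l 146734202983)) (b (l 129554361799) (l 17189472)))) (c (l 17309392) (c (l 17263544) (l 17213536)))) (c (l 17356456) (l 17213816))) (b (c (b (l 222970508311) (l 17273424)) (b (c (l 17198224) (l 124185850391)) (l 17210096))) (c (l 17329288) (l 17263352))))))))), by decide +kernel⟩

theorem c_pm_001 : CertF 0 536870912 0 536870912 201326592 134217728 true true false .up 0 0 1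
    ndF0q0 ndF4q0 pcF1 Cut.none Ext.none :=
  certF1 (fam := true) (s1 := true) (s2 := false) (a := 0) (b := 0) (c := 1) (cn := .up) (n1 := ndF0q0) (n2 := ndF4q0) (pc := pcF1) (cut := Cut.none) (xt := Ext.none) (P1 := 0) (W1 := 536870912) (P2 := 0) (W2 := 536870912) (P3 := 201326592) (W3 := 134217728)
    rfl (fun _ => rfl) k0_pm_001

noncomputable def cut_pm_011 : Cut := Cut.of [[⟨0, 0, 0, 67108864⟩, ⟨1, 1, 0, 67108864⟩, ⟨2, 1, 0, 67108864⟩]]

noncomputable def f_pm_011 : ℕ → ℕ → ℕ → ℕ → Bool := onCell 0 536870912 536870912 536870912 201326592 134217728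
    (rowF 1 true true false .pnn 0 1 1 (qsf 0 536870912 536870912 536870912 1) ndF0q0 ndF4q1 pcF1 cut_pm_011 Ext.none)

def k0_pm_011 : ∃ t, chk3 f_pm_011 t 1 2 1 = true :=
  ⟨(l 3), by decide +kernel⟩

def k1_pm_011 : ∃ t, chk3 f_pm_011 t 2 6 1 = true :=
  ⟨(l 3), by decide +kernel⟩

def k2_pm_011 : ∃ t, chk3 f_pm_011 t 4 14 1 = true :=
  ⟨(l 3), by decide +kernel⟩

def k3_pm_011 : ∃ t, chk3 f_pm_011 t 8 15 1 = true :=
  ⟨(b (l 3) (a (b (l 3) (l 6)) (b (a (l 3) (b (l 3) (a (l 3) (a (l 3) (a (l 3) (a (l 3) (b (l 3) (b (l 3) (c (l 16751840) (l 16753856)))))))))) (b (a (b (b (l 3) (l 6)) (l 6)) (b (a (a (b (l 3) (c (c (b (l 16758184) (l 16756088)) (l 16758016)) (a (c (l 16759768) (l 16760264)) (a (l 16758544) (l 16757520))))) (b (a (l 3) (b (l 3) (c (l 16752968) (l 16757200)))) (c (c (l 16752760) (l 16753768)) (b (l 16756064) (l 16753736))))) (a (c (b (c (l 16752856) (l 16753960)) (c (l 16754032) (l 16754568))) (c (c (l 16754928) (l 16755312)) (b (l 16755472) (l 16756152)))) (b (c (c (l 16753680)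 (l 16754904)) (l 16753648)) (c (l 16745696) (l 16751480))))) (a (c (c (a (l 16753184) (l 16748120)) (b (l 16753768) (l 16747440))) (c (a (l 16754984) (l 16749936)) (b (c (l 16755048) (l 16755304)) (l 16750392)))) (c (c (a (l 16744384) (l 16745920)) (l 16743832)) (c (l 16745952) (l 16746808)))))) (a (l 6) (a (a (l 6) (b (b (c (l 16743072) (l 16746264)) (l 6)) (l 6))) (b (c (c (b (l 16743392) (l 16750968)) (l 16737840)) (l 16736048)) (b (c (l 16736752) (l 16744464)) (a (l 6) (c (l 16721480) (l 16718392))))))))))), by decide +kernel⟩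

def k4_pm_011 : ∃ t, chk3 f_pm_011 t 9 30 1 = true :=
  ⟨(a (l 3) (b (l 3) (a (l 3) (a (l 3) (b (l 3) (b (l 3) (b (l 3) (c (c (l 211157928359) (l 16736808)) (l 16731216))))))))), by decide +kernel⟩

def k5_pm_011 : ∃ t, chk3 f_pm_011 t 18 62 1 = true :=
  ⟨(a (b (l 3) (a (b (l 3) (b (a (l 3) (c (c (l 16753520) (l 16755016)) (l 16754064))) (c (c (a (l 16753704) (l 16749216)) (l 16750224)) (c (l 16751352) (l 16754808))))) (a (b (l 3) (b (c (l 1241453735) (l 16752624)) (c (l 16742744) (l 16748016)))) (b (b (l 3) (c (l 16746584) (l 16752736))) (c (c (l 16742808) (l 16743944)) (c (l 16745400) (l 16746504))))))) (a (b (l 3) (b (c (c (b (l 186461895927) (l 16742144)) (l 16746256)) (c (l 16747912) (l 16749160))) (c (c (l 16734648) (l 16736960)) (l 16744624)))) (b (b (l 3) (b (l 3) (c (c (l 191293734919) (l 16743944)) (l 16746720)))) (c (c (b (b (a (l 16739680) (l 16745880)) (l 16734288)) (l 16730072)) (b (l 16737288) (l 16738080))) (c (b (l 16739256) (l 16740048)) (l 16743832)))))), by decide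 +kernel⟩

def k6_pm_011 : ∃ t, chk3 f_pm_011 t 19 62 1 = true :=
  ⟨(b (a (c (b (a (l 3) (c (b (l 3) (l 211157945063)) (l 16737112))) (a (c (b (a (l 3) (l 16734656)) (a (l 16734936) (l 16730984))) (l 16738528)) (c (b (a (l 16730312) (l 16736712)) (l 16725328)) (l 16728264)))) (b (a (l 3) (a (l 3) (l 16738944))) (a (a (l 16742584) (l 16738392)) (a (l 16734184) (l 16740400))))) (c (b (a (c (b (a (l 3) (l 211157936135)) (a (l 16725488) (l 16731904))) (l 16728520)) (c (b (a (c (l 16732248) (l 16731784)) (l 16727104)) (l 16726248)) (l 16719480))) (a (c (b (l 16731024) (l 16728392)) (l 16729472)) (c (l 16711856) (l 16719944)))) (b (c (a (l 16731552) (l 16733400)) (a (l 16744392) (l 16736080))) (c (l 16722800) (l 16730632))))) (b (a (c (a (c (l 16725888) (l 16738352)) (c (l 16721296) (l 16728784))) (c (l 16730920) (l 16738160))) (c (c (a (l 16724448) (l 16717160)) (l 16716800)) (l 16719440))) (a (c (c (a (l 16733448) (l 16726392)) (l 16718888)) (l 16727408)) (c (c (a (l 16719224) (l 16712008))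 (l 16711504)) (l 16709480))))), by decide +kernel⟩

def k7_pm_011 : ∃ t, chk3 f_pm_011 t 9 63 1 = true :=
  ⟨(a (b (a (c (c (a (b (b (l 16747632) (l 16744736)) (l 16738424)) (b (l 16736216) (l 16733128))) (b (a (l 16745640) (l 16737024)) (l 16736912))) (b (a (c (l 16746848) (l 16747768)) (l 16741152)) (c (l 16738696) (l 16739072)))) (c (a (c (b (l 16731608) (l 16736464)) (l 16726504)) (c (b (l 16734968) (l 16729408)) (l 16719008))) (b (l 16733064) (l 16722032)))) (b (a (c (c (a (l 16734640) (l 16737936)) (a (l 16732856) (l 16714832))) (l 16729952)) (c (c (l 16719464) (l 16724624)) (l 16721280))) (a (c (b (c (l 16737232) (l 16735144)) (c (l 16723904) (l 16732216))) (b (l 16732552) (l 16729480))) (c (c (b (l 16723176) (l 16720416)) (l 16708416)) (l 16710032))))) (b (c (a (c (b (a (l 16727928) (l 16720984)) (l 16718976)) (l 16709824)) (c (b (l 16710400) (l 16705224)) (b (l 16706200) (l 16700872)))) (a (c (l 16710272) (l 16713904)) (l 16698248))) (c (a (b (c (l 16713560) (l 16709976)) (c (l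 16708168) (l 16704400))) (b (c (l 16700048) (l 16695520)) (c (l 16694864) (l 16669176)))) (a (b (l 16705528) (l 16699672)) (b (l 16689864) (l 16684200)))))), by decide +kernel⟩

def k8_pm_011 : ∃ t, chk3 f_pm_011 t 5 14 1 = true :=
  ⟨(a (l 3) (b (l 3) (b (l 3) (b (l 3) (a (l 3) (a (l 3) (a (l 3) (c (c (l 16954880) (l 49559979431)) (c (l 30232471831) (l 38285380919)))))))))), by decide +kernel⟩

def k9_pm_011 : ∃ t, chk3 f_pm_011 t 20 30 1 = true :=
  ⟨(b (l 3) (b (b (l 3) (b (l 3) (a (l 3) (a (l 3) (c (c (c (a (l 3) (l 46875394935)) (l 199883602103)) (l 16706696)) (l 25400590199)))))) (a (a (b (l 3) (c (c (b (a (l 3) (l 202031111527)) (a (c (l 16727608) (l 16726888)) (l 16722400))) (l 16719520)) (c (l 16733872) (l 16736904)))) (b (a (l 3) (c (c (c (l 150491501879) (l 195588634279)) (l 16716768)) (l 20031896311))) (c (c (b (a (c (l 16723088) (l 16721760)) (l 16717824)) (a (l 16718736) (l 16715200))) (l 16720600)) (l 16721496)))) (a (b (c (c (b (a (l 3) (c (l 16718504) (l 202567941079)))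 (a (c (l 16718728) (l 16716384)) (c (l 16715016) (l 16711880)))) (l 16712344)) (c (l 16725048) (l 16728888))) (c (c (a (l 16699712) (l 16709560)) (l 16710608)) (l 16717512))) (c (b (c (b (c (a (l 16704064) (l 16710944)) (a (l 122574187191) (l 16707488))) (c (l 16709984) (l 16706616))) (l 16702424)) (c (c (l 16706240) (l 16702864)) (l 16700224))) (b (c (l 16715656) (l 16719944)) (l 16707960))))))), by decide +kernel⟩

def k10_pm_011 : ∃ t, chk3 f_pm_011 t 21 30 1 = true :=
  ⟨(b (a (l 3) (a (l 3) (b (l 3) (b (l 3) (c (c (c (l 48486165031) (l 45264903271)) (c (l 36138026551) (l 16698224))) (l 74255819031)))))) (c (b (a (a (b (l 3) (c (c (b (a (l 3) (l 39896174615)) (a (l 30769326103) (l 32379965159))) (b (a (l 3) (l 181093107239)) (a (b (l 16707744) (l 16706016)) (l 16703224)))) (b (l 16701872) (l 16696752)))) (a (b (l 3) (c (b (c (l 27011276199) (c (l 16703560) (l 16701624))) (c (l 16723320) (l 16699800))) (l 16691312))) (c (b (c (l 40969925959) (l 35064296439)) (b (c (l 16747088) (l 16698952))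 (l 16742464))) (b (l 28621768535) (l 16696464))))) (c (a (b (c (b (l 42580543847) (l 31843123623)) (b (l 39896157527) (l 32916820071))) (c (a (l 16756056) (l 16769880)) (l 16711784))) (b (c (l 34527499063) (l 34527479847)) (l 16759376))) (b (a (b (l 30232371911) (l 16686552)) (c (l 39359216807) (l 16689064))) (a (b (l 16690728) (l 16685584)) (b (l 16681216) (l 16678912)))))) (a (c (b (a (c (b (a (l 16707680) (l 16696888)) (l 16703624)) (b (l 16702384) (l 16699920))) (c (l 16713104) (l 16694560))) (a (l 16698048) (l 16691792))) (b (a (l 16699744) (b (l 16691480) (l 16687816))) (a (l 16691160) (l 16684232)))) (c (a (b (l 16745720) (l 16676656)) (b (l 16734440) (l 16711112))) (a (l 16679728) (l 16673144))))) (b (b (a (a (l 3) (c (l 16704448) (l 16720344))) (c (a (l 16705272) (l 16694960)) (l 16706376))) (a (c (a (l 16704920) (l 16705720)) (l 16715624)) (c (c (l 16688376) (l 16691864)) (l 16696448)))) (b (a (c (a (l 16705712) (l 16695528)) (l 16705792)) (l 16683216)) (a (l 16693240) (l 16672968)))))),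 by decide +kernel⟩

def k11_pm_011 : ∃ t, chk3 f_pm_011 t 11 60 1 = true :=
  ⟨(a (c (a (b (l 3) (c (a (b (l 3) (c (l 29158857335) (l 30769394855))) (b (l 48486163895) (c (l 16860584) (l 16798824)))) (b (a (l 3) (l 50096749655)) (a (b (l 44728000423) (l 35064308999)) (l 36674971303))))) (a (b (l 3) (c (b (l 32916945159) (l 16852968)) (b (l 32916887287) (l 16729184)))) (b (c (l 61371166263) (l 40433095335)) (c (b (l 16880064) (l 16876344)) (b (l 16764952) (l 16750904)))))) (a (b (l 3) (b (c (l 32916740103) (l 16705136)) (c (l 16689600) (l 16695928)))) (b (a (l 3) (c (l 30232484919) (l 16692344))) (b (c (l 34527311751) (l 16684112)) (c (l 16664976) (l 16674120)))))) (c (c (a (b (a (l 32380176503) (l 36675181991)) (a (l 16901048) (l 16923544))) (b (l 38822714759) (l 16956912))) (a (b (a (l 33453781239) (l 25400726935)) (a (l 16779200) (l 16800280))) (b (a (l 29158832679) (l 16854912)) (l 16831888)))) (c (a (a (b (l 25937498023) (l 16660920)) (b (l 30769306071) (l 16680624))) (b (b (a (l 16739192)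 (l 16755472)) (l 16734008)) (l 16710504))) (c (a (b (b (l 51707159287) (l 51170290887)) (l 16653112)) (b (b (l 16652936) (l 16654744)) (l 16642848))) (b (a (l 55465277079) (a (l 16659744) (l 56538957495))) (l 16666816)))))), by decide +kernel⟩

def k12_pm_011 : ∃ t, chk3 f_pm_011 t 11 61 1 = true :=
  ⟨(a (c (a (b (c (a (b (c (l 16829024) (l 16762080)) (l 16781656)) (b (l 16820592) (l 16809152))) (b (a (l 16705224) (l 16686736)) (l 16691568))) (c (a (l 16755400) (l 16787024)) (a (l 16666880) (l 16660928)))) (c (b (a (l 16841400) (l 16867392)) (l 16833296)) (b (a (l 16700200) (l 16725376)) (l 16666648)))) (a (b (b (c (l 16678320) (l 16685960)) (l 16677296)) (l 16667168)) (b (a (l 16665416) (l 16669344)) (l 16658480)))) (c (c (a (b (l 16905760) (l 16892408)) (l 16952632)) (a (b (l 16762856) (l 16726896)) (b (l 16811768) (l 16784192)))) (b (a (c (l 16644760) (l 16635112)) (c (l 16672040) (l 16616656))) (a (l 16646152) (l 16614208))))), by decide +kernel⟩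

def k13_pm_011 : ∃ t, chk3 f_pm_011 t 5 31 1 = true :=
  ⟨(a (b (a (c (c (b (a (b (a (b (l 16721536) (l 16718960)) (l 16702640)) (a (l 16715104) (l 16708064))) (b (a (l 16706232) (l 16699568)) (l 16697888))) (a (b (l 16701224) (l 16701432)) (b (l 16692968) (l 16688080)))) (b (a (b (a (l 16720440) (l 16710552)) (l 16706632)) (a (l 16697992) (l 16690768))) (a (l 16691024) (l 16684320)))) (b (a (b (c (l 16719680) (l 16722968)) (l 16711408)) (b (l 16702728) (l 16692688))) (a (l 16701664) (l 16677680)))) (c (b (a (c (b (c (l 16692008) (l 16688120)) (l 16685224)) (l 16676560)) (c (a (l 16678728) (l 16668432)) (l 16667136))) (a (c (l 16672816) (l 16670616)) (c (l 16666712) (l 16657872)))) (b (a (l 16688600) (l 16668160)) (a (l 16661360) (l 16646768))))) (a (c (b (a (c (b (l 16696432) (l 16691464)) (l 16688624)) (c (l 16680808) (l 16674360))) (a (c (b (l 16665560) (l 16660656)) (l 16678408)) (c (l 16671248) (l 16664448)))) (b (l 16684848) (a (l 16671296) (l 16655864)))) (c (b (c (a (l 16668664)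 (l 16636712)) (a (l 16660952) (l 16627616))) (c (b (l 16656104) (l 16651592)) (b (l 16647464) (l 16642752)))) (b (l 16649192) (a (l 16641104) (l 16627208)))))) (c (b (a (a (b (c (l 16727696) (l 16654896)) (c (l 16668472) (l 16646024))) (b (c (l 16801960) (l 16643872)) (c (l 16758312) (l 16614304)))) (b (c (l 16903440) (l 16714696)) (c (l 16877304) (l 16661904)))) (a (b (a (c (l 16626856) (l 16616224)) (l 16674664)) (a (c (l 16618352) (l 16607384)) (l 16666392))) (b (c (l 16840672) (l 16595496)) (a (l 16616520) (l 16703648))))) (b (c (a (a (l 16644008) (l 16628984)) (b (l 16616840) (l 16608496))) (a (l 16650128) (l 16606584))) (a (b (l 16638008) (a (l 16614248) (l 16581032))) (b (l 16594120) (l 16585592)))))), by decide +kernel⟩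

def k14_pm_011 : ∃ t, chk3 f_pm_011 t 3 6 1 = true :=
  ⟨(a (l 3) (a (l 3) (l 1))), by decide +kernel⟩

def k15_pm_011 : ∃ t, chk3 f_pm_011 t 6 14 1 = true :=
  ⟨(a (b (l 3) (c (a (b (l 3) (c (a (l 36138419863) (l 42044069559)) (a (b (l 3) (l 30769543047)) (b (l 75329889255) (l 16921160))))) (b (c (l 94657437847) (l 106468563559)) (c (l 50097228279) (a (b (l 16950576) (l 16954944)) (l 16985712))))) (a (b (l 3) (b (a (l 3) (a (l 3) (b (l 3) (c (l 16817656) (l 35601131223))))) (a (c (b (l 33453723079) (a (l 16760648) (l 16797240))) (b (a (l 3) (l 33453636711)) (a (l 16709712) (l 16702528)))) (c (a (b (l 16798360) (l 16812872)) (l 16810608)) (b (a (l 38822339831) (l 16721520)) (a (l 16716504) (l 16730664))))))) (a (b (l 3) (a (c (b (l 32916976935) (l 16846920)) (b (b (l 3) (l 39359251623)) (b (l 16755816) (l 16744960)))) (c (b (l 35601357511) (l 16862256)) (b (b (l 41506774327) (l 16736160)) (l 16764440))))) (b (a (l 3) (c (l 78551100887) (b (l 3) (c (l 64055497239) (l 52244265095))))) (c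 (b (l 38822617431) (l 16885232)) (b (a (b (l 38822443111) (l 16790888)) (c (l 16829384) (l 16785016))) (l 16764440)))))))) (b (a (l 3) (a (l 3) (b (l 3) (c (l 60834653127) (c (l 56539550071) (l 54391998391)))))) (c (a (b (c (l 17036752) (l 53855240839)) (c (l 17138168) (l 17033672))) (b (c (l 17166352) (l 17074128)) (l 17150032))) (a (b (c (a (b (l 3) (l 38285805831)) (l 40970224519)) (a (b (l 3) (a (c (l 16849776) (l 36675030743)) (l 39896278487))) (b (l 80698581751) (c (l 16880736) (l 43117530823))))) (c (a (b (l 16918640) (l 16915656)) (l 16946664)) (a (b (a (l 16819768) (l 16832496)) (l 16813384)) (b (l 16851712) (l 16841264))))) (b (c (a (l 16971088) (l 16997920)) (a (b (l 42043847303) (l 16883448)) (b (l 16910336) (l 16907752)))) (c (l 16989960) (a (l 16873536) (l 16900088)))))))), by decide +kernel⟩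

def k16_pm_011 : ∃ t, chk3 f_pm_011 t 6 15 1 = true :=
  ⟨(b (a (c (a (c (b (a (l 16976704) (l 17038344)) (a (l 17002648) (l 17050048))) (b (a (b (l 16882784) (l 16873552)) (b (l 16919656) (l 16914248))) (a (l 16849568) (l 16897656)))) (b (c (l 17096960) (a (l 16955256) (l 16991984))) (c (l 17116456) (l 16965160)))) (a (b (a (b (c (b (l 16759192) (l 16769384)) (b (l 16679408) (l 16661392))) (c (l 16750360) (l 16630872))) (b (c (l 16809296) (l 16702416)) (c (l 16789672) (l 16668768)))) (b (a (l 16671424) (l 16695720)) (a (l 16602080) (l 16655320)))) (b (a (b (c (l 16843400) (l 16734328)) (l 16724536)) (c (l 16871552) (b (l 16765976) (l 16741976)))) (b (a (l 16739080) (l 16780456)) (l 16708392))))) (c (a (b (c (l 17170648) (l 17045032)) (l 17121720)) (c (l 17255992) (l 17117928))) (a (b (c (a (l 16905896) (l 16939304)) (a (l 16787568) (l 16819728))) (a (l 16808936) (l 16848552))) (b (c (l 16987720) (l 16866504)) (l 16904512))))) (a (c (a (b (c (l 17017304) (a (l 16793392) (l 16855384)))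 (b (l 16838016) (l 16841440))) (b (c (l 17123792) (l 16939280)) (c (l 17114096) (l 16890080)))) (b (a (b (l 16659640) (l 16584712)) (b (l 16692040) (l 16647120))) (a (b (l 16576760) (l 16547816)) (l 16636448)))) (c (a (b (l 17125584) (l 17115232)) (b (l 17208192) (l 17210408))) (a (b (l 16776856) (l 16700824)) (b (l 16868400) (l 16814424)))))), by decide +kernel⟩

def k17_pm_011 : ∃ t, chk3 f_pm_011 t 7 7 1 = true :=
  ⟨(b (a (b (c (b (a (l 3) (l 1)) (a (c (l 17189144) (l 69961540279)) (l 113850861543))) (b (a (l 3) (l 1)) (a (c (a (l 62445183175) (l 68887683751)) (b (a (l 3) (l 60834457431)) (a (l 63518773943) (l 16956688)))) (c (l 108481994055) (l 105260615879))))) (c (a (b (c (l 17230960) (l 17133168)) (l 17212640)) (b (l 17243248) (l 17274392))) (a (b (c (l 17016936) (a (l 16933208) (l 16957248))) (c (l 17046600) (l 16939528))) (b (c (l 17091440) (l 16993576)) (l 17046472))))) (b (l 1) (c (l 119756760103) (a (l 109555723271) (l 1))))) (a (c (b (a (l 17252856) (l 17316328)) (a (l 17288200)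 (l 17358072))) (b (a (b (l 16987320) (l 16973432)) (b (l 17045192) (l 17037072))) (a (b (l 16948736) (l 16910304)) (l 17008048)))) (c (b (a (l 17377608) (l 17435608)) (l 17453280)) (b (a (l 17100016) (l 17155712)) (a (l 17077192) (l 17141328)))))), by decide +kernel⟩

theorem s18_pm_011 : ∃ t, chk3 f_pm_011 t 6 7 1 = true := ex3_b k15_pm_011 k16_pm_011

theorem s19_pm_011 : ∃ t, chk3 f_pm_011 t 3 7 1 = true := ex3_a s18_pm_011 k17_pm_011

theorem s20_pm_011 : ∃ t, chk3 f_pm_011 t 3 3 1 = true := ex3_b k14_pm_011 s19_pm_011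

theorem s21_pm_011 : ∃ t, chk3 f_pm_011 t 11 30 1 = true := ex3_b k11_pm_011 k12_pm_011

theorem s22_pm_011 : ∃ t, chk3 f_pm_011 t 10 30 1 = true := ex3_a k9_pm_011 k10_pm_011

theorem s23_pm_011 : ∃ t, chk3 f_pm_011 t 5 30 1 = true := ex3_a s22_pm_011 s21_pm_011

theorem s24_pm_011 : ∃ t, chk3 f_pm_011 t 5 15 1 = true := ex3_b s23_pm_011 k13_pm_011

theorem s25_pm_011 : ∃ t, chk3 f_pm_011 t 5 7 1 = true := ex3_b k8_pm_011 s24_pm_011

theorem s26_pm_011 : ∃ t, chk3 f_pm_011 t 9 62 1 = true := ex3_a k5_pm_011 k6_pm_011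

theorem s27_pm_011 : ∃ t, chk3 f_pm_011 t 9 31 1 = true := ex3_b s26_pm_011 k7_pm_011

theorem s28_pm_011 : ∃ t, chk3 f_pm_011 t 9 15 1 = true := ex3_b k4_pm_011 s27_pm_011

theorem s29_pm_011 : ∃ t, chk3 f_pm_011 t 4 15 1 = true := ex3_a k3_pm_011 s28_pm_011

theorem s30_pm_011 : ∃ t, chk3 f_pm_011 t 4 7 1 = true := ex3_b k2_pm_011 s29_pm_011

theorem s31_pm_011 : ∃ t, chk3 f_pm_011 t 2 7 1 = true := ex3_a s30_pm_011 s25_pm_011

theorem s32_pm_011 : ∃ t, chk3 f_pm_011 t 2 3 1 = true := ex3_b k1_pm_011 s31_pm_011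

theorem s33_pm_011 : ∃ t, chk3 f_pm_011 t 1 3 1 = true := ex3_a s32_pm_011 s20_pm_011

theorem s34_pm_011 : ∃ t, chk3 f_pm_011 t 1 1 1 = true := ex3_b k0_pm_011 s33_pm_011

theorem c_pm_011 : CertF 0 536870912 536870912 536870912 201326592 134217728 true true false .pnn 0 1 1
    ndF0q0 ndF4q1 pcF1 cut_pm_011 Ext.none :=
  certF1 (fam := true) (s1 := true) (s2 := false) (a := 0) (b := 1) (c := 1) (cn := .pnn) (n1 := ndF0q0) (n2 := ndF4q1) (pc := pcF1) (cut := cut_pm_011) (xt := Ext.none) (P1 := 0) (W1 := 536870912) (P2 := 536870912) (W2 := 536870912) (P3 := 201326592) (W3 := 134217728)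
    rfl (fun _ => rfl) s34_pm_011

end Pool.Agent.Strip051.G.I3_16_5_16.Tab.C.FA04

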