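import Pool.Agent.Strip051.G.I3_16_5_16.Tab

/-! # Certificates F4 (generated) -/

set_option linter.all false
set_option maxRecDepth 100000

namespace Pool.Agent.Strip051.G.I3_16_5_16.Tab.C.FA04

open Pool.Agent.Strip051.PB Pool.Agent.Strip051.PB.T
open Pool.Agent.Strip051.G.I3_16_5_16.Tab

noncomputable def cut_pm_012 : Cut := Cut.of [[⟨0, 0, 0, 67108864⟩, ⟨1, 1, 0, 67108864⟩, ⟨2, 1, 0, 67108864⟩]]

noncomputable def f_pm_012 : ℕ → ℕ → ℕ → ℕ → Bool := onCell 1073741824 536870912 536870912 536870912 201326592 134217728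
    (rowF 2 true true false .pnp 0 1 2 (qsf 0 536870912 536870912 536870912 2) ndF0q0 ndF4q1 pcF2 cut_pm_012 Ext.none)

def k0_pm_012 : ∃ t, chk3 f_pm_012 t 4 2 1 = true :=
  ⟨(b (b (a (c (a (b (l 17632736) (l 17569176)) (l 17727336)) (a (b (l 17230816) (l 17032000)) (l 17311592))) (a (c (l 17842632) (l 17423304)) (l 2))) (a (a (c (b (l 17499432) (a (l 17384904) (l 17459800))) (b (a (l 17047112) (l 17108344)) (a (l 16871344) (l 17018608)))) (c (b (l 17638016) (l 17569680)) (b (l 17201688) (l 17116760)))) (a (c (l 17738272) (l 17287704)) (a (c (l 17830176) (l 17379080)) (c (l 17885392) (l 17435936)))))) (a (b (a (c (b (a (l 17295328) (l 17375008)) (a (c (l 17310984) (l 17069880)) (l 17275304))) (b (a (a (l 16810288) (l 16863464)) (l 16913744)) (a (a (l 16658600) (l 16733872)) (l 16786832)))) (c (b (l 17492544) (l 17402728)) (b (l 17017888) (l 16878584)))) (a (c (a (b (c (l 17191248) (a (l 16912280) (l 16955064))) (a (c (l 17015952) (l 16739544)) (c (l 17067856) (l 16785008))))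 (b (l 17112152) (c (l 17147504) (l 16857168)))) (a (b (a (l 16560376) (l 16573704)) (b (l 16514376) (l 16545760))) (b (l 16629896) (l 16478544)))) (c (b (a (l 17247400) (l 17339800)) (a (l 17063368) (l 17208928))) (b (a (l 16710688) (l 16795304)) (a (l 16519344) (l 16614624)))))) (a (b (c (b (l 17642024) (l 17565472)) (b (l 17159064) (l 17053560))) (c (b (l 17474008) (l 17297392)) (b (l 16924608) (l 16761816)))) (a (b (c (l 17714520) (l 17216944)) (c (l 17554816) (l 16983984))) (b (c (l 17781408) (a (l 17269440) (l 17303496))) (c (a (l 17618448) (l 17659328)) (a (l 17049752) (l 17092816)))))))), by decide +kernel⟩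

def k1_pm_012 : ∃ t, chk3 f_pm_012 t 5 2 1 = true :=
  ⟨(a (b (a (a (b (l 2) (c (l 17934792) (l 17489016))) (l 2)) (l 2)) (a (a (b (c (l 17843224) (l 17351264)) (c (b (l 17752136) (l 17675088)) (b (l 17211320) (l 17090816)))) (b (a (c (l 17883088) (l 17396352)) (c (l 17907648) (a (l 17417704) (l 17431504)))) (c (a (l 17768080) (a (l 17792616) (l 17808424))) (a (l 17213456) (a (l 17241824) (a (l 17255688) (l 17264784))))))) (c (b (l 17959816) (l 17874552)) (b (l 17490088) (a (l 17305528) (l 17375112)))))) (b (l 2) (a (c (b (l 18035672) (l 17979184)) (b (l 17586184) (l 17469560))) (b (l 2) (c (l 18058816) (l 17577624)))))), by decide +kernel⟩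

def k2_pm_012 : ∃ t, chk3 f_pm_012 t 8 6 1 = true :=
  ⟨(b (a (c (a (b (c (a (l 16716432) (l 16877392)) (a (l 16564288) (l 16563800))) (c (a (b (l 16634216) (l 16585056)) (l 16621944)) (a (l 16569472) (l 16557520)))) (b (c (l 16923528) (l 16642856)) (c (b (l 16789088) (l 16645416)) (l 16550328)))) (a (b (a (l 16538920) (l 16516456)) (c (l 16576192) (l 16590304))) (b (l 16519944) (l 16550200)))) (c (b (a (c (l 17086080) (l 16755912)) (l 16871416)) (a (c (l 16796592) (l 16517376)) (c (l 17000808) (l 16621984)))) (b (a (l 16476944) (l 16435320)) (a (l 16520936) (l 16475872))))) (a (a (b (c (a (c (a (l 16609024) (l 16602680)) (l 16609936)) (c (l 16603776) (l 16586008))) (a (l 16620200) (l 16597912))) (c (a (b (c (l 16629104) (l 16624312)) (c (l 16645640) (l 16641736))) (c (b (l 16615600) (l 16631544)) (l 16639128))) (a (l 16659464) (l 16632720)))) (b (c (c (b (l 16568784) (l 16581776)) (b (l 16559464) (l 16573648))) (c (l 16579560) (l 16551912))) (c (c (b (l 16595784) (l 16618664))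 (a (l 16603704) (l 16589496))) (a (l 16616960) (l 16601432))))) (c (b (a (c (b (l 16631976) (l 16537016)) (l 16541096)) (c (b (l 16794928) (l 16622832)) (l 16517224))) (a (c (b (l 16549728) (l 16584376)) (b (l 16540760) (l 16555472))) (c (b (l 16525832) (l 16538264)) (l 16563288)))) (b (a (l 16548024) (l 16500192)) (a (b (l 16549896) (l 16565920)) (c (l 16532744) (l 16524024))))))), by decide +kernel⟩

def k3_pm_012 : ∃ t, chk3 f_pm_012 t 9 6 1 = true :=
  ⟨(a (b (c (b (c (l 17381472) (l 17046976)) (a (c (l 17139728) (l 16761224)) (l 16917608))) (b (a (l 16493144) (l 16608424)) (a (l 16432096) (l 16410576)))) (c (b (a (c (l 16883264) (l 16473376)) (c (l 17047272) (l 16614776))) (a (c (b (l 16617976) (l 16514408)) (l 16516912)) (c (b (l 16815136) (l 16617448)) (l 16471696)))) (b (a (l 16474296) (l 16428552)) (a (l 16520832) (l 16472504))))) (a (b (c (b (l 17379184) (l 17089080)) (b (l 16722072) (l 16477384))) (c (b (c (l 17202688) (l 16777920)) (c (b (l 17001024) (l 16830552))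 (l 16448096))) (b (l 16404856) (l 16445896)))) (b (c (a (b (l 17457352) (l 17307544)) (b (l 17507560) (l 17366952))) (a (l 16699800) (b (l 16859392) (l 16643416)))) (c (b (a (l 17040568) (l 16966320)) (a (c (l 17059712) (l 16572032)) (c (l 17148272) (l 16667960)))) (b (a (l 16388072) (l 16377584)) (a (l 16405856) (l 16393640))))))), by decide +kernel⟩

def k4_pm_012 : ∃ t, chk3 f_pm_012 t 16 14 1 = true :=
  ⟨(a (b (a (b (c (c (l 16662464) (l 16659312)) (l 16661416)) (c (a (l 16682008) (l 16674112)) (l 16688808))) (c (b (c (l 16647864) (l 16643896)) (c (l 16664248) (l 16660968))) (l 16658312))) (a (b (b (c (l 16690880) (l 16690776)) (c (a (l 16693456) (l 16695544)) (l 16699000))) (a (c (b (l 16707280) (l 16714424)) (l 16718776)) (c (c (l 16709240) (l 16707680)) (l 16705784)))) (c (b (c (l 16680848) (l 16678176)) (c (b (l 16693368) (l 16701736)) (l 16695376))) (b (l 16674808) (l 16683448))))) (b (c (c (b (a (l 16633432) (l 16598280)) (a (l 16649432) (l 16613824))) (b (l 16621040)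 (l 16648032))) (b (l 16624768) (c (l 16654472) (l 16629920)))) (c (c (b (a (l 16665720) (l 16650704)) (a (c (l 16682832) (l 16681312)) (l 16666792))) (b (a (l 16662240) (l 16625440)) (a (l 16679136) (l 16642088)))) (b (a (l 16657680) (l 16640664)) (a (l 16675216) (l 16657952)))))), by decide +kernel⟩

def k5_pm_012 : ∃ t, chk3 f_pm_012 t 16 15 1 = true :=
  ⟨(a (b (a (b (a (b (c (c (l 16719608) (l 16729752)) (l 16725584)) (l 6)) (c (c (a (l 16728344) (l 16724328)) (l 16719912)) (l 16715816))) (l 6)) (a (b (c (b (l 16702792) (l 16711352)) (l 16709520)) (l 6)) (b (c (b (l 16705176) (l 16703160)) (l 16705880)) (a (l 6) (b (c (l 16698864) (l 16695608)) (l 6)))))) (l 6)) (b (c (b (a (c (b (l 16673456) (l 16692168)) (b (l 16670872) (l 16679304))) (c (b (l 16657928) (l 16665984)) (b (l 16654568) (l 16662840)))) (a (a (b (c (l 16693696) (l 16691712)) (l 6)) (b (l 16689760) (c (l 16693632) (l 16691472)))) (b (c (l 16673800) (l 16670888)) (c (a (l 16685592) (l 16677616)) (l 16678896)))))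 (b (a (a (l 16697032) (l 16688232)) (b (l 16649872) (l 16658384))) (a (b (l 16705408) (a (l 6) (l 16688328))) (b (l 16666696) (l 16685416))))) (a (l 6) (a (l 6) (b (b (b (c (l 16682088) (l 16676624)) (l 6)) (l 6)) (l 6)))))), by decide +kernel⟩

def k6_pm_012 : ∃ t, chk3 f_pm_012 t 17 14 1 = true :=
  ⟨(b (c (a (b (c (l 16598672) (l 16570672)) (c (l 16613400) (l 16607160))) (c (b (l 16551272) (l 16585840)) (b (l 16542352) (l 16556800)))) (a (b (l 16582256) (l 16598728)) (b (l 16530192) (l 16566680)))) (a (c (b (c (a (l 16615048) (l 16600616)) (l 16623168)) (c (b (l 16640488) (l 16648344)) (a (l 16626272) (l 16610632)))) (b (c (l 16617984) (l 16613184)) (a (l 16619928) (l 16603024)))) (c (b (c (l 16600176) (l 16571872)) (c (a (l 16601416) (l 16586928)) (a (l 16595128) (l 16579768)))) (b (l 16603608) (a (l 16586264) (l 16569632)))))), by decide +kernel⟩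

def k7_pm_012 : ∃ t, chk3 f_pm_012 t 17 30 1 = true :=
  ⟨(a (b (c (a (c (b (l 16642736) (l 16650624)) (l 16663552)) (c (b (l 16627776) (l 16635520)) (l 16626704))) (a (b (l 16632632) (l 16641016)) (l 16640640))) (c (a (c (b (l 16658272) (l 16665880)) (b (l 16654568) (l 16662408))) (c (b (l 16643008) (l 16650448)) (b (l 16638472) (l 16646168)))) (a (b (l 16649192) (l 16657296)) (b (l 16631872) (l 16639848))))) (c (b (c (a (l 16637672) (l 16622856)) (a (l 16610936) (l 16595264))) (c (a (b (l 16627888) (l 16635176)) (b (l 16612912) (l 16620064))) (a (b (l 16622520) (l 16630072)) (l 16620864)))) (b (a (l 16602656) (l 16585744)) (a (b (l 16614680) (l 16622528)) (c (l 16604408) (l 16598536)))))), by decide +kernel⟩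

def k8_pm_012 : ∃ t, chk3 f_pm_012 t 17 31 1 = true :=
  ⟨(b (a (c (b (a (c (b (l 16671624) (l 16675456)) (l 16670256)) (c (l 16657920) (l 16653856))) (a (a (l 6) (c (l 16677256) (l 16673952))) (c (b (l 16663552) (l 16667312)) (l 16661544)))) (b (a (l 16670592) (l 16647776)) (a (c (l 16674952) (l 16671768)) (c (l 16657632) (l 16653680))))) (a (c (b (c (l 16642480) (l 16637616)) (c (l 16655056) (l 16645152))) (b (l 16630336) (l 16643336))) (c (c (b (l 16627224) (c (l 16635752) (l 16633024))) (b (l 16621528) (l 16628920))) (b (l 16613032) (c (l 16623432) (l 16617904)))))) (a (b (b (a (l 6) (c (c (l 16671080) (l 16667320)) (l 16661552))) (l 6)) (l 6)) (c (b (c (a (b (l 16655336) (l 16659024)) (c (l 16642880) (l 16640264))) (a (b (l 16650808) (l 16654576)) (b (l 16634472) (l 16638160)))) (c (a (b (l 16667952) (l 6)) (b (c (l 16648264) (l 16645712)) (c (l 16651848) (l 16649344)))) (a (b (l 16658336) (l 6)) (b (l 16641840) (l 16648144))))) (b (a (c (l 16648120) (l 16643472)) (c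 (l 16630960) (l 16625536))) (a (a (l 6) (b (l 16647136) (l 6))) (c (b (l 16636584) (l 16640320)) (b (l 16631216) (l 16634984)))))))), by decide +kernel⟩

def k9_pm_012 : ∃ t, chk3 f_pm_012 t 18 14 1 = true :=
  ⟨(b (c (a (c (b (l 16526216) (l 16538576)) (b (l 16515256) (l 16528544))) (c (b (l 16502176) (l 16513384)) (l 16536888))) (a (b (l 16500152) (l 16514600)) (b (l 16470992) (l 16484384)))) (c (b (c (a (l 16551832) (l 16525432)) (a (l 16542592) (l 16514216))) (a (c (a (l 16572776) (l 16558896)) (l 16557216)) (c (l 16559304) (l 16527856)))) (b (a (l 16529632) (l 16498392)) (a (c (l 16549024) (l 16541192)) (l 16533912))))), by decide +kernel⟩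

def k10_pm_012 : ∃ t, chk3 f_pm_012 t 18 30 1 = true :=
  ⟨(c (b (a (c (a (l 16587416) (l 16573136)) (a (l 16579888) (l 16564680))) (c (b (l 16548480) (l 16555344)) (l 16562984))) (a (c (b (a (l 16598248) (l 16583720)) (a (l 16605280) (l 16590648))) (b (l 16583360) (l 16590632))) (c (b (l 16562080) (c (l 16571072) (l 16566488))) (b (l 16552688) (l 16559672))))) (b (a (c (l 16564496) (l 16557008)) (c (l 16532480) (l 16523248))) (b (a (l 16582800) (l 16539000)) (a (c (l 16583448) (l 16576376)) (c (l 16550736) (l 16541952)))))), by decide +kernel⟩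

def k11_pm_012 : ∃ t, chk3 f_pm_012 t 18 31 1 = true :=
  ⟨(b (c (c (a (b (a (l 16612304) (l 16597560)) (a (l 16619328) (c (l 16606264) (l 16602640)))) (b (c (l 16577728) (l 16573288)) (c (a (l 16591696) (l 16577192)) (l 16580112)))) (a (b (a (l 16605728) (l 16590072)) (a (l 16612992) (l 16597216))) (b (l 16566680) (c (l 16575824) (l 16571552))))) (a (b (c (l 16590888) (l 16583968)) (c (l 16603528) (l 16591496))) (c (b (l 16557952) (l 16565160)) (b (l 16549328) (l 16556672))))) (c (a (b (c (a (c (l 16627872) (l 16624832)) (c (l 16613080) (l 16609592))) (a (l 16620232) (l 16604328))) (c (a (b (c (l 16633120) (l 16630152)) (c (l 16636624) (l 16633704))) (c (b (l 16618208) (l 16621624)) (b (l 16614808) (l 16618272)))) (a (b (l 16625656) (l 16629264)) (b (l 16609656) (l 16613200))))) (a (c (b (c (l 16598392) (l 16594456)) (c (b (l 16603424) (l 16606760)) (b (l 16599568) (l 16602968)))) (b (l 16588536) (b (l 16593768) (c (l 16599152) (l 16595320))))) (c (b (c (l 16583776) (l 16579392))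 (c (b (l 16588712) (l 16591992)) (b (l 16584424) (l 16587760)))) (b (l 16572808) (c (b (l 16580120) (l 16583512)) (l 16577512)))))) (a (a (b (c (l 16614048) (l 16607792)) (c (b (l 16619576) (l 16623248)) (l 16615240))) (b (c (l 16597280) (l 16590192)) (c (b (l 16602728) (l 16606328)) (l 16597528)))) (b (c (a (l 16580616) (l 16564024)) (l 16563928)) (c (a (b (l 16585976) (l 16589528)) (l 16576296)) (a (l 16579912) (l 16562384))))))), by decide +kernel⟩

def k12_pm_012 : ∃ t, chk3 f_pm_012 t 19 14 1 = true :=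
  ⟨(a (c (b (c (b (l 16621176) (l 16489032)) (l 16489968)) (c (b (l 16520936) (a (l 16518248) (l 16505304))) (b (l 16486704) (l 16499264)))) (b (b (l 16442680) (l 16454952)) (b (l 16467944) (c (l 16487304) (l 16475824))))) (b (c (a (c (l 16685584) (l 16450560)) (c (l 16604056) (l 16438576))) (a (l 16427656) (l 16435056))) (c (a (c (b (l 16481768) (l 16492664)) (l 16472544)) (c (b (l 16470040) (l 16480336)) (l 16501344))) (a (b (l 16445784) (l 16458600)) (b (l 16431384) (l 16443656)))))), by decide +kernel⟩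

def k13_pm_012 : ∃ t, chk3 f_pm_012 t 38 15 1 = true :=
  ⟨(b (c (b (c (a (l 16551992) (l 16517552)) (l 16533448)) (c (a (c (l 16546560) (l 16541208)) (c (l 16532880) (l 16527032))) (b (l 16522504) (l 16529144)))) (b (c (l 16501096) (l 16490088)) (c (b (l 16511536) (l 16518440)) (l 16504344)))) (c (b (c (a (b (c (l 16556232) (l 16551112)) (c (l 16562720) (l 16557744))) (b (l 16539424) (c (l 16548560) (l 16543120)))) (b (c (l 16538536) (l 16533256)) (c (l 16545208) (l 16540048)))) (c (b (a (c (b (l 16567608) (l 16570840)) (l 16564376)) (c (l 16554936) (l 16549624))) (a (c (b (c (l 16575256) (l 16572888)) (a (l 16580968) (c (l 16574840) (l 16572448)))) (b (l 16569336) (a (l 16576400) (l 16568856)))) (c (b (l 16559728) (c (l 16564192) (l 16561616))) (b (l 16554520) (l 16557760))))) (b (c (a (l 16559552) (l 16544336)) (a (l 16554728) (l 16539056))) (a (c (b (l 16564592) (l 16567928)) (l 16561528)) (c (b (l 16549320) (l 16552608)) (l 16545776)))))) (b (c (b (l 16525408) (l 16536288))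 (b (l 16515072) (l 16522176))) (c (b (a (l 16547504) (l 16531160)) (a (c (l 16556800) (l 16552056)) (c (l 16540592) (l 16535416)))) (b (a (l 16537888) (l 16520680)) (a (l 16544928) (l 16527640))))))), by decide +kernel⟩

def k14_pm_012 : ∃ t, chk3 f_pm_012 t 39 15 1 = true :=
  ⟨(b (c (b (c (a (l 16504328) (l 16491408)) (a (l 16491056) (l 16477096))) (c (a (c (l 16519424) (l 16513072)) (c (l 16506224) (l 16499360))) (a (l 16503680) (l 16489216)))) (b (a (l 16471936) (l 16456480)) (a (c (l 16491416) (l 16479448)) (c (l 16475984) (l 16463088))))) (c (b (c (a (b (l 16525400) (c (l 16534576) (l 16528648))) (b (l 16532552) (c (l 16520784) (l 16514368)))) (a (b (l 16513320) (l 16519816)) (b (l 16498528) (l 16504824)))) (c (a (b (c (l 16540800) (l 16535016)) (c (b (l 16545504) (c (l 16550032) (l 16547216))) (b (l 16539816) (l 16543000)))) (b (c (l 16547768) (l 16520528)) (b (c (l 16531368) (l 16525208)) (c (a (l 16537912) (l 16530768)) (l 16538168))))) (a (b (l 16531616) (c (l 16538376)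 (l 16530112))) (b (c (l 16514288) (l 16508080)) (c (a (l 16524360) (l 16516776)) (a (l 16518376) (l 16510568))))))) (b (a (c (l 16504776) (l 16493192)) (c (b (l 16485704) (l 16492248)) (l 16476464))) (a (c (b (l 16514928) (c (l 16524480) (l 16518856))) (b (l 16503568) (l 16510432))) (c (b (l 16498824) (c (l 16508472) (l 16502400))) (b (l 16486592) (l 16493328))))))), by decide +kernel⟩

def k15_pm_012 : ∃ t, chk3 f_pm_012 t 10 6 1 = true :=
  ⟨(a (a (b (c (b (l 17578048) (c (l 17630440) (l 17272272))) (b (a (l 16912192) (l 16963368)) (a (l 16707256) (l 16769408)))) (c (b (a (l 17140928) (l 17312512)) (a (c (l 17233016) (l 16760392)) (c (l 17313872) (l 16849352)))) (b (a (l 16432800) (l 16510496)) (a (l 16383168) (l 16375536))))) (b (c (a (l 17570264) (a (l 17625448) (b (l 17695704) (l 17592352)))) (a (b (l 17013232) (l 16829896)) (a (l 16946856) (a (l 16987472) (b (l 17079320) (l 16910192)))))) (c (a (b (l 17376632) (c (l 17391088) (l 16934736))) (a (b (l 17422936) (l 17095600))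 (b (c (l 17647704) (l 17258520)) (c (l 17482528) (a (l 17026608) (l 17046432)))))) (a (b (l 16585904) (l 16368864)) (a (b (l 16640960) (l 16365048)) (b (a (l 16668016) (l 16685888)) (a (l 16363648) (l 16380680)))))))) (b (c (a (l 17701048) (l 17782040)) (a (b (l 17131560) (l 16973416)) (b (l 17220376) (l 17080264)))) (c (b (a (l 17525200) (l 17633248)) (a (c (l 17568496) (l 17132920)) (l 17381016))) (b (a (l 16764272) (l 16895912)) (a (l 16480792) (l 16647544)))))), by decide +kernel⟩

def k16_pm_012 : ∃ t, chk3 f_pm_012 t 40 7 1 = true :=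
  ⟨(b (c (b (a (c (l 16747672) (l 16428272)) (c (l 16959320) (l 16472896))) (c (a (b (l 16572328) (l 16469464)) (b (l 16708888) (l 16460912))) (b (l 16459392) (l 16490304)))) (b (a (l 16401920) (l 16392008)) (a (b (l 16418152) (l 16429768)) (b (l 16406848) (l 16417632))))) (b (a (c (c (b (l 16479824) (c (l 16494192) (l 16486744))) (b (l 16464304) (l 16475744))) (b (l 16441984) (c (l 16461416) (l 16447472)))) (c (c (b (l 16470272) (l 16500912)) (b (l 16453344) (l 16463888))) (b (l 16429008) (c (l 16448272) (l 16433096))))) (c (b (c (a (c (b (l 16502352) (l 16507952)) (l 16519008)) (b (l 16487584) (l 16513824))) (a (b (l 16484608) (l 16490632)) (b (l 16472136) (l 16477768)))) (c (a (b (c (l 16513672) (l 16506864)) (a (c (l 16522520) (l 16516016)) (c (l 16516328) (l 16509536)))) (b (c (l 16501968) (l 16494544)) (c (b (l 16506048) (l 16508784)) (b (l 16498752) (l 16501568))))) (a (b (c (l 16500104) (l 16493384)) (c (b (l 16504688) (l 16507760)) (l 16499608))) (b (l 16483512) (c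 (l 16492928) (l 16485752)))))) (b (a (c (l 16473840) (l 16460360)) (c (l 16459952) (l 16445312))) (a (c (b (l 16483368) (c (l 16493032) (l 16486480))) (b (l 16470168) (l 16476704))) (c (b (l 16468984) (c (l 16478616) (l 16471512))) (b (l 16454672) (l 16460928)))))))), by decide +kernel⟩

def k17_pm_012 : ∃ t, chk3 f_pm_012 t 41 14 1 = true :=
  ⟨(c (a (b (c (l 17123664) (l 16586320)) (c (b (l 16837696) (l 16586832)) (l 16429248))) (b (a (c (l 17196352) (l 16667944)) (a (c (l 17231632) (l 16707696)) (c (l 17254768) (l 16733824)))) (a (c (b (l 16929528) (l 16696232)) (l 16423520)) (a (c (b (l 16973976) (l 16749048)) (l 16421032)) (c (b (l 17003104) (l 16783608)) (l 16419600)))))) (a (b (l 16382976) (b (l 16396272) (l 16406128))) (b (a (l 16377144) (a (l 16374656) (l 16394208))) (a (l 16414456) (a (l 16411040) (c (l 16398312) (l 16377904))))))), by decide +kernel⟩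

def k18_pm_012 : ∃ t, chk3 f_pm_012 t 82 15 1 = true :=
  ⟨(b (c (c (b (l 16461496) (l 16491152)) (b (l 16443080) (l 16452712))) (b (l 16416640) (c (l 16435744) (l 16419280)))) (c (b (c (c (l 16504584) (l 16475224)) (b (l 16460264) (l 16465480))) (c (b (c (l 16490880) (l 16482808)) (c (a (l 16498704) (l 16493184)) (a (l 16490976) (l 16485136)))) (b (c (l 16474800) (l 16466864)) (c (a (l 16483304) (l 16477136)) (l 16472384))))) (b (c (l 16446600) (l 16430744)) (c (b (l 16455080) (c (l 16464656) (l 16456976))) (b (l 16439608) (l 16445560)))))), by decide +kernel⟩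

def k19_pm_012 : ∃ t, chk3 f_pm_012 t 83 15 1 = true :=
  ⟨(b (c (a (c (b (l 16455768) (l 16463608)) (b (l 16436168) (l 16445016))) (c (a (b (l 16465256) (l 16460648)) (b (a (l 16475680) (l 16517304)) (c (l 16463856) (l 16453912)))) (a (b (l 16433024) (l 16441464)) (b (l 16431128) (l 16439272))))) (a (b (l 16408048) (l 16418160)) (a (b (l 16404024) (l 16434744)) (b (l 16422488) (c (l 16420280) (l 16401872)))))) (c (a (b (c (c (l 16476512) (l 16467584)) (l 16454384)) (c (b (c (l 16483200) (l 16474608)) (c (l 16487840) (l 16479448))) (b (l 16461864) (c (l 16471128) (l 16462872))))) (b (c (a (c (l 16473248) (l 16464032)) (b (l 16485528) (c (l 16473264) (l 16463976)))) (a (l 16450424) (b (l 16445728) (l 16471216)))) (c (a (c (b (l 16479608) (b (l 16482928) (l 16485184))) (b (l 16470744) (l 16475400))) (b (c (b (l 16476344) (l 16478448)) (l 16489304)) (c (a (a (a (l 16482792) (a (l 16482592) (l 16482464))) (l 16482080)) (l 16481128)) (a (a (a (l 16474040) (a (l 16473824) (l 16473680)))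 (l 16473272)) (l 16472248))))) (a (b (l 16457608) (c (l 16466824) (l 16458312))) (b (c (l 16459368) (l 16450496)) (a (a (a (l 16482016) (c (l 16486008) (l 16456400))) (l 16481160)) (l 16469560))))))) (a (b (c (l 16437152) (l 16420336)) (c (b (l 16445160) (l 16450600)) (b (l 16428768) (l 16434456)))) (b (a (c (l 16432656) (l 16415336)) (c (b (l 16427392) (l 16432312)) (l 16412128))) (a (c (b (l 16440400) (l 16445672)) (b (l 16423520) (l 16429064))) (a (c (b (l 16459128) (c (b (l 16446320) (l 16469872)) (l 16460072))) (b (l 16421024) (b (l 16425120) (l 16448832)))) (c (b (l 16436640) (l 16441768)) (l 16422016)))))))), by decide +kernel⟩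

def k20_pm_012 : ∃ t, chk3 f_pm_012 t 21 7 1 = true :=
  ⟨(b (c (b (a (c (l 17355024) (l 16700352)) (c (l 17518672) (l 17033008))) (c (a (b (l 17128648) (l 16764248)) (b (l 17331712) (l 17170184))) (a (b (l 16549464) (l 16415808)) (b (l 16781632) (l 16567592))))) (b (a (l 16418656) (l 16354728)) (a (b (l 16374968) (l 16382112)) (b (l 16359784) (l 16364696))))) (b (c (a (c (b (a (l 16607696) (l 16759640)) (a (l 16454080) (l 16461704))) (b (l 16422384) (l 16450304))) (c (b (a (l 16901368) (l 17033680)) (b (l 16700152) (l 16536024))) (b (l 16407920) (l 16412872)))) (a (b (c (l 16400664) (l 16379736)) (c (l 16408608) (l 16388544))) (b (l 16391664) (c (l 16388920) (l 16365776))))) (c (b (c (a (b (c (l 16460832) (l 16450392)) (c (l 16464120) (l 16453960))) (b (l 16457840) (c (l 16508648) (l 16437400)))) (a (b (l 16435008) (l 16459920)) (b (l 16417056) (l 16420008)))) (c (a (b (c (a (l 16471680) (l 16462824)) (l 16478672)) (c (a (b (l 16474664) (l 16476696)) (l 16466296)) (a (l 16466384)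 (l 16456288)))) (b (c (l 16451632) (l 16440136)) (c (a (l 16457816) (l 16450312)) (a (l 16447032) (l 16438712))))) (a (b (c (l 16447912) (l 16438224)) (c (a (l 16457200) (l 16446384)) (a (l 16448088) (l 16436576)))) (b (c (l 16428784) (l 16417584)) (c (a (l 16436368) (l 16427240)) (a (l 16425816) (l 16415912))))))) (b (a (c (b (l 16414984) (l 16419376)) (l 16418824)) (c (l 16427000) (l 16373352))) (a (c (b (a (l 16429680) (l 16417552)) (a (l 16434584) (l 16422040))) (b (l 16405176) (a (l 16416856) (l 16403016)))) (c (b (l 16401040) (a (l 16410208) (l 16399160))) (b (l 16379488) (l 16399432)))))))), by decide +kernel⟩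

def k21_pm_012 : ∃ t, chk3 f_pm_012 t 11 6 1 = true :=
  ⟨(b (c (a (b (l 17915904) (l 17856864)) (l 18005576)) (a (b (l 17342104) (l 17164040)) (b (l 17483168) (l 17397224)))) (a (c (b (l 17776464) (c (l 17862496) (l 17467216))) (b (a (l 17018112) (l 17131128)) (a (l 16801400) (l 16942944)))) (c (b (l 17935640) (l 17863032)) (b (l 17284280) (a (l 17072680) (l 17191384)))))), by decide +kernel⟩

def k22_pm_012 : ∃ t, chk3 f_pm_012 t 11 14 1 = true :=
  ⟨(a (c (b (c (l 17732192) (a (l 17200920) (l 17352216))) (c (a (l 17407384) (l 17620728)) (a (b (l 16989312) (l 16810224)) (l 17019912)))) (b (a (l 16482896) (l 16622872)) (a (b (l 16349320) (l 16351648)) (b (l 16428200) (l 16343536))))) (c (b (c (l 17964224) (l 17550784)) (c (l 17840504) (a (l 17281616) (l 17439840)))) (b (a (l 16830440) (l 17002056)) (a (b (l 16630728) (l 16448488)) (b (l 16813696) (l 16658648)))))), by decide +kernel⟩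

def k23_pm_012 : ∃ t, chk3 f_pm_012 t 11 15 1 = true :=
  ⟨(a (b (c (c (a (b (l 17174096) (c (l 17182840) (l 16816800))) (b (l 17431872) (l 17077176))) (b (a (l 16590896) (l 16843384)) (a (l 16400480) (l 16556264)))) (a (b (l 16355240) (c (l 16373000) (l 16346496))) (b (l 16344344) (c (l 16361352) (l 16331232))))) (c (b (c (a (b (c (l 17007792) (l 16633816)) (l 16443056)) (c (l 17172368) (b (l 16939600) (l 16812496)))) (a (b (l 16402976) (l 16404872)) (l 16393424))) (a (c (b (a (l 16446144) (l 16433600)) (c (a (l 16443848) (l 16514640)) (a (l 16431384) (l 16425064)))) (b (c (l 16413432) (l 16400544)) (c (l 16436504) (l 16402944)))) (c (c (b (l 16973096) (a (l 16703408) (l 17002272))) (b (l 16585280) (l 16423152))) (b (l 16394728) (c (l 16403048) (l 16388688)))))) (b (a (c (l 16377568) (l 16352136)) (c (l 16363512) (l 16334592))) (a (c (b (l 16381560) (c (l 16390520) (l 16378264))) (b (l 16356880) (l 16360176))) (c (b (l 16365784) (c (l 16374528) (l 16360576))) (b (l 16337728)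 (l 16340016))))))) (c (b (c (a (b (l 17620424) (l 17487328)) (l 17735224)) (a (b (l 17065800) (l 16797000)) (b (l 17262064) (l 17110016)))) (c (b (a (c (l 17486360) (l 17153288)) (l 17546432)) (a (c (b (l 17345496) (l 17193880)) (b (l 16985904) (a (l 16774328) (l 16935184)))) (c (l 17549504) (b (l 17256864) (l 17153584))))) (b (a (l 16400816) (b (l 16973496) (l 16785760))) (a (b (l 16403248) (c (l 16392424) (l 16378656))) (c (b (l 16921752) (l 16612408)) (l 16371936)))))) (b (a (c (l 16375488) (l 16320608)) (b (l 16473696) (l 16355592))) (b (a (c (l 16353960) (l 16321328)) (c (l 16349832) (l 16313256))) (c (a (b (l 16354280) (l 16354744)) (b (l 16347816) (l 16346832))) (a (b (l 16322600) (l 16323696)) (b (l 16312304) (l 16312008)))))))), by decide +kernel⟩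

def k24_pm_012 : ∃ t, chk3 f_pm_012 t 3 2 1 = true :=
  ⟨(a (b (l 2) (a (a (b (l 2) (c (l 18118072) (l 17665664))) (l 2)) (l 2))) (l 2)), by decide +kernel⟩

def k25_pm_012 : ∃ t, chk3 f_pm_012 t 6 6 1 = true :=
  ⟨(a (b (c (a (l 18094280) (l 18156688)) (a (l 17571048) (l 17673024))) (c (a (l 18041600) (l 18144200)) (a (b (l 17458512) (l 17350272)) (b (l 17600464) (l 17528072))))) (b (a (l 17975312) (l 2)) (a (c (l 18213688) (l 17691872)) (c (l 18256944) (l 17785112))))), by decide +kernel⟩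

def k26_pm_012 : ∃ t, chk3 f_pm_012 t 6 7 1 = true :=
  ⟨(a (b (c (a (b (l 17956240) (c (l 18073792) (l 17644488))) (b (l 18108184) (l 18057064))) (a (b (a (l 17138696) (l 17262592)) (a (b (l 16978896) (l 16847512)) (l 16970112))) (b (l 17426880) (a (l 17218240) (l 17347328))))) (c (a (b (c (l 17959408) (a (l 17334288) (l 17540360))) (c (a (b (l 17741752) (l 17462576)) (l 17862024)) (b (a (l 17053464) (l 17363872)) (a (b (l 16873968) (c (l 17079928) (l 16688616))) (c (l 17360504) (l 17019552)))))) (b (c (l 18192376) (l 17750200)) (c (l 18089288) (a (b (l 17543768) (l 17421144)) (l 17655272))))) (a (b (b (a (l 16628232) (l 16864816)) (a (c (l 16773464) (l 16317488)) (l 16476712))) (b (a (c (l 16509288) (l 16311280)) (c (l 16793776) (l 16316744))) (c (a (b (l 16393032) (l 16344608)) (b (l 16666256) (l 16428376))) (a (l 16306672) (l 16308096))))) (b (a (b (l 17060368) (l 16740104)) (c (l 17380976) (l 16948368))) (c (b (a (l 17029176) (l 17219088)) (a (b (l 16906576) (l 16709336))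 (l 16955832))) (b (a (l 16512112) (l 16734712)) (a (l 16318088) (l 16367792)))))))) (b (c (a (l 18212288) (l 18295384)) (a (b (l 17608160) (l 17370064)) (b (l 17748312) (l 17701960)))) (c (a (b (l 18167328) (c (l 18320720) (l 17764688))) (b (l 18307256) (c (l 18483992) (l 18092800)))) (a (b (a (c (l 17517752) (l 17111344)) (l 17448728)) (c (a (b (l 17387400) (l 17276024)) (l 17494112)) (a (b (l 16934128) (l 16618272)) (b (l 17112584) (l 16990728))))) (b (a (l 17568008) (l 17673880)) (a (c (l 17634728) (b (l 17271952) (l 17172960))) (c (l 17758552) (l 17377072)))))))), by decide +kernel⟩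

def k27_pm_012 : ∃ t, chk3 f_pm_012 t 7 3 1 = true :=
  ⟨(a (b (a (b (l 2) (l 18075968)) (l 2)) (b (a (c (l 18354072) (b (l 17844136) (l 17827000))) (l 18158544)) (a (c (b (l 18398144) (l 18415800)) (b (l 17790304) (a (l 17635728) (l 17763584)))) (c (l 18479224) (b (l 17899152) (l 17868480)))))) (b (l 2) (b (c (l 18456440) (l 17996032)) (c (l 18546120) (a (l 17973440) (l 18037048)))))), by decide +kernel⟩

theorem s28_pm_012 : ∃ t, chk3 f_pm_012 t 6 3 1 = true := ex3_b k25_pm_012 k26_pm_012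

theorem s29_pm_012 : ∃ t, chk3 f_pm_012 t 3 3 1 = true := ex3_a s28_pm_012 k27_pm_012

theorem s30_pm_012 : ∃ t, chk3 f_pm_012 t 3 1 1 = true := ex3_b k24_pm_012 s29_pm_012

theorem s31_pm_012 : ∃ t, chk3 f_pm_012 t 11 7 1 = true := ex3_b k22_pm_012 k23_pm_012

theorem s32_pm_012 : ∃ t, chk3 f_pm_012 t 11 3 1 = true := ex3_b k21_pm_012 s31_pm_012

theorem s33_pm_012 : ∃ t, chk3 f_pm_012 t 41 15 1 = true := ex3_a k18_pm_012 k19_pm_012

theorem s34_pm_012 : ∃ t, chk3 f_pm_012 t 41 7 1 = true := ex3_b k17_pm_012 s33_pm_012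

theorem s35_pm_012 : ∃ t, chk3 f_pm_012 t 20 7 1 = true := ex3_a k16_pm_012 s34_pm_012

theorem s36_pm_012 : ∃ t, chk3 f_pm_012 t 10 7 1 = true := ex3_a s35_pm_012 k20_pm_012

theorem s37_pm_012 : ∃ t, chk3 f_pm_012 t 10 3 1 = true := ex3_b k15_pm_012 s36_pm_012

theorem s38_pm_012 : ∃ t, chk3 f_pm_012 t 5 3 1 = true := ex3_a s37_pm_012 s32_pm_012

theorem s39_pm_012 : ∃ t, chk3 f_pm_012 t 19 15 1 = true := ex3_a k13_pm_012 k14_pm_012

theorem s40_pm_012 : ∃ t, chk3 f_pm_012 t 19 7 1 = true := ex3_b k12_pm_012 s39_pm_012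

theorem s41_pm_012 : ∃ t, chk3 f_pm_012 t 18 15 1 = true := ex3_b k10_pm_012 k11_pm_012

theorem s42_pm_012 : ∃ t, chk3 f_pm_012 t 18 7 1 = true := ex3_b k9_pm_012 s41_pm_012

theorem s43_pm_012 : ∃ t, chk3 f_pm_012 t 9 7 1 = true := ex3_a s42_pm_012 s40_pm_012

theorem s44_pm_012 : ∃ t, chk3 f_pm_012 t 17 15 1 = true := ex3_b k7_pm_012 k8_pm_012

theorem s45_pm_012 : ∃ t, chk3 f_pm_012 t 17 7 1 = true := ex3_b k6_pm_012 s44_pm_012

theorem s46_pm_012 : ∃ t, chk3 f_pm_012 t 16 7 1 = true := ex3_b k4_pm_012 k5_pm_012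

theorem s47_pm_012 : ∃ t, chk3 f_pm_012 t 8 7 1 = true := ex3_a s46_pm_012 s45_pm_012

theorem s48_pm_012 : ∃ t, chk3 f_pm_012 t 4 7 1 = true := ex3_a s47_pm_012 s43_pm_012

theorem s49_pm_012 : ∃ t, chk3 f_pm_012 t 4 6 1 = true := ex3_a k2_pm_012 k3_pm_012

theorem s50_pm_012 : ∃ t, chk3 f_pm_012 t 4 3 1 = true := ex3_b s49_pm_012 s48_pm_012

theorem s51_pm_012 : ∃ t, chk3 f_pm_012 t 2 3 1 = true := ex3_a s50_pm_012 s38_pm_012

theorem s52_pm_012 : ∃ t, chk3 f_pm_012 t 2 2 1 = true := ex3_a k0_pm_012 k1_pm_012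

theorem s53_pm_012 : ∃ t, chk3 f_pm_012 t 2 1 1 = true := ex3_b s52_pm_012 s51_pm_012

theorem s54_pm_012 : ∃ t, chk3 f_pm_012 t 1 1 1 = true := ex3_a s53_pm_012 s30_pm_012

theorem c_pm_012 : CertF 0 536870912 536870912 536870912 201326592 134217728 true true false .pnp 0 1 2
    ndF0q0 ndF4q1 pcF2 cut_pm_012 Ext.none :=
  certF2 (fam := true) (s1 := true) (s2 := false) (a := 0) (b := 1) (c := 2) (cn := .pnp) (n1 := ndF0q0) (n2 := ndF4q1) (pc := pcF2) (cut := cut_pm_012) (xt := Ext.none) (P1 := 0) (W1 := 536870912) (P2 := 536870912) (W2 := 536870912) (P3 := 201326592) (W3 := 134217728)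
    rfl (fun _ => rfl) s54_pm_012

noncomputable def f_pm_022 : ℕ → ℕ → ℕ → ℕ → Bool := onCell 0 536870912 1073741824 536870912 201326592 134217728
    (rowF 1 true true false .pp 0 2 2 (qsf 0 536870912 1073741824 536870912 2) ndF0q0 ndF4q2 pcF2 Cut.none Ext.none)

def k0_pm_022 : ∃ t, chk3 f_pm_022 t 1 2 1 = true :=
  ⟨(b (a (l 3) (l 1)) (a (b (b (b (a (l 3) (l 3)) (b (a (l 3) (a (b (l 3) (c (l 9696956567) (l 16621888))) (l 1))) (a (b (a (c (a (l 3) (l 16583504)) (l 571398193719)) (c (a (l 16575912) (l 16565064)) (a (l 16590384) (l 16584208)))) (b (a (c (b (l 16621568) (l 16577320)) (b (l 16589168) (l 16586976))) (c (a (l 16567992) (l 16557272)) (a (l 16583264) (l 16577216)))) (a (c (l 16573832) (l 16583672)) (c (l 16559264) (l 16576848))))) (a (a (b (c (l 16550576) (l 16575048)) (b (c (l 16542920) (l 16568200)) (l 16595088))) (b (l 1) (b (l 1) (l 16578544)))) (l 1))))) (a (a (c (a (l 16577120) (l 16531488)) (a (l 16545608) (l 16545168))) (c (a (l 16524504) (l 16514224)) (l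 16603160))) (a (c (a (l 16500280) (l 16522824)) (a (l 16528176) (l 16515152))) (a (c (l 151430476807) (l 16496000)) (l 1))))) (a (a (c (b (l 16520920) (l 16622176)) (b (l 16473624) (l 16399352))) (c (b (l 16488096) (l 16586480)) (b (l 16470128) (l 16398432)))) (a (c (b (l 16481984) (l 16568232)) (b (l 16496408) (l 16405712))) (a (c (b (l 16382528) (l 16574672)) (b (l 16429136) (l 16339720))) (c (l 16421528) (l 40298080247)))))) (b (l 1) (a (a (a (c (l 108480741607) (l 16377808)) (l 1)) (l 1)) (l 1))))), by decide +kernel⟩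

def k1_pm_022 : ∃ t, chk3 f_pm_022 t 1 3 1 = true :=
  ⟨(a (a (b (a (b (c (l 17135072) (l 16325776)) (c (l 17568008) (l 16839136))) (b (c (l 17087144) (b (l 16324848) (l 16418080))) (c (l 17537408) (l 16824248)))) (c (b (l 17815344) (l 17979224)) (a (l 17339176) (l 17315816)))) (a (b (b (c (b (l 16947576) (l 17226216)) (b (l 16313440) (l 16405368))) (c (l 17521104) (l 16815976))) (b (l 17470704) (l 17659360))) (b (b (c (b (l 16961600) (l 17236240)) (b (l 16280536) (l 16406520))) (c (l 17521848) (l 16818560))) (c (l 17835080) (l 17292440))))) (b (a (b (c (a (a (l 93986187415) (l 86470056055)) (b (l 1) (l 17349776))) (a (l 16353232) (a (l 16328064) (l 1)))) (c (a (l 17546864) (b (l 17530008) (l 17661216))) (a (a (l 16834136) (l 16854376)) (b (l 71437101511) (l 16997824))))) (b (l 1) (a (c (l 267396972183) (a (l 201360036263) (l 1))) (l 1)))) (c (a (a (l 17830392) (l 17844928)) (a (b (l 17839552) (l 17909520)) (l 199215471207))) (a (b (a (l 17181640) (l 17216416)) (a (l 17387048)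 (l 17400520))) (b (a (a (l 17263528) (l 17303512)) (l 281355187895)) (a (l 17437704) (l 17499784))))))), by decide +kernel⟩

theorem s2_pm_022 : ∃ t, chk3 f_pm_022 t 1 1 1 = true := ex3_b k0_pm_022 k1_pm_022

theorem c_pm_022 : CertF 0 536870912 1073741824 536870912 201326592 134217728 true true false .pp 0 2 2
    ndF0q0 ndF4q2 pcF2 Cut.none Ext.none :=
  certF1 (fam := true) (s1 := true) (s2 := false) (a := 0) (b := 2) (c := 2) (cn := .pp) (n1 := ndF0q0) (n2 := ndF4q2) (pc := pcF2) (cut := Cut.none) (xt := Ext.none) (P1 := 0) (W1 := 536870912) (P2 := 1073741824) (W2 := 536870912) (P3 := 201326592) (W3 := 134217728)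
    rfl (fun _ => rfl) s2_pm_022

noncomputable def f_pm_023 : ℕ → ℕ → ℕ → ℕ → Bool := onCell 0 536870912 1073741824 536870912 201326592 134217728
    (rowF 0 true true false .up 0 2 3 (qsf 0 536870912 1073741824 536870912 3) ndF0q0 ndF4q2 pcF3 Cut.none Ext.none)

def k0_pm_023 : ∃ t, chk3 f_pm_023 t 1 1 1 = true :=
  ⟨(a (a (b (l 1) (b (l 252364078279) (l 231426416199))) (b (b (l 1) (l 244310936135)) (b (l 267933504823) (l 17831368)))) (b (a (b (l 259880355703) (l 246458623671)) (a (l 236795020519) (b (l 224447176375) (l 17706464)))) (a (b (l 17770520) (l 17745928)) (b (l 17661656) (b (l 17584336) (a (l 17581336) (b (l 17479640) (a (l 17475984) (a (l 17429712) (b (l 17408416) (b (l 17394888) (a (l 17393256) (b (l 17380696) (a (l 17379880) (l 17372392))))))))))))))), by decide +kernel⟩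

theorem c_pm_023 : CertF 0 536870912 1073741824 536870912 201326592 134217728 true true false .up 0 2 3
    ndF0q0 ndF4q2 pcF3 Cut.none Ext.none :=
  certF0 (fam := true) (s1 := true) (s2 := false) (a := 0) (b := 2) (c := 3) (cn := .up) (n1 := ndF0q0) (n2 := ndF4q2) (pc := pcF3) (cut := Cut.none) (xt := Ext.none) (P1 := 0) (W1 := 536870912) (P2 := 1073741824) (W2 := 536870912) (P3 := 201326592) (W3 := 134217728)
    rfl k0_pm_023

noncomputable def f_pm_033 : ℕ → ℕ → ℕ → ℕ → Bool := onCell 1610612736 536870912 0 1230186008 201326592 134217728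
    (rowF 2 true true false .pnn 0 3 3 (qsf 0 536870912 0 1230186008 3) ndF0q0 ndF4q3 pcF3 Cut.none Ext.none)

def k0_pm_033 : ∃ t, chk3 f_pm_033 t 1 1 1 = true :=
  ⟨(a (b (l 1) (b (b (l 1) (a (l 1) (a (l 1) (b (l 1) (l 17765616))))) (b (a (l 1) (a (b (l 17911144) (l 17861248)) (b (l 17755864) (l 17729352)))) (a (b (c (l 18023608) (l 17750608)) (c (l 17897216) (a (l 17685280) (l 17629728)))) (b (a (l 17760616) (l 17661744)) (c (l 17656600) (l 17535224))))))) (a (b (l 1) (b (a (b (l 1) (b (l 17692616) (l 17931216))) (b (l 17856064) (a (l 17587088) (l 17529712)))) (b (a (b (l 17616936) (l 17595712)) (c (l 17523320) (l 17453568))) (b (a (l 17548336) (l 17682064)) (a (l 17456208) (l 17405832)))))) (b (a (b (l 1) (l 17621424)) (l 4)) (a (b (b (l 17511496) (l 17672472)) (b (c (l 17393448) (l 17356632)) (b (l 17301400) (l 17221104)))) (b (a (l 17596776) (l 4)) (a (b (l 17290160) (l 17379640)) (a (b (l 17252296) (l 17121200)) (b (a (l 17238608) (l 4)) (a (l 17098408) (l 17251944)))))))))),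 by decide +kernel⟩

theorem c_pm_033 : CertF 0 536870912 0 1230186008 201326592 134217728 true true false .pnn 0 3 3
    ndF0q0 ndF4q3 pcF3 Cut.none Ext.none :=
  certF2 (fam := true) (s1 := true) (s2 := false) (a := 0) (b := 3) (c := 3) (cn := .pnn) (n1 := ndF0q0) (n2 := ndF4q3) (pc := pcF3) (cut := Cut.none) (xt := Ext.none) (P1 := 0) (W1 := 536870912) (P2 := 0) (W2 := 1230186008) (P3 := 201326592) (W3 := 134217728)
    rfl (fun _ => rfl) k0_pm_033

noncomputable def f_pm_101 : ℕ → ℕ → ℕ → ℕ → Bool := onCell 536870912 536870912 536870912 536870912 201326592 134217728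
    (rowF 1 true true false .npn 1 0 1 (qsf 536870912 536870912 0 536870912 1) ndF0q1 ndF4q0 pcF1 Cut.none Ext.none)

def k0_pm_101 : ∃ t, chk3 f_pm_101 t 2 1 1 = true :=
  ⟨(b (a (l 3) (b (a (b (l 1) (l 3)) (l 1)) (l 3))) (b (a (b (l 3) (a (a (b (l 3) (b (l 3) (c (l 189684209895) (l 154250550215)))) (b (l 3) (c (c (l 17209712) (l 17190448)) (b (l 145660549927) (l 17149104))))) (a (b (l 3) (c (l 17222032) (l 151566186455))) (b (c (l 174114802615) (l 187536447015)) (c (l 17248464) (l 17175272)))))) (b (a (l 3) (b (l 3) (c (l 199884765143) (l 139755160183)))) (a (b (b (a (l 3) (l 183778495607)) (c (l 152640067447) (l 147808105047))) (c (l 17295200) (a (l 17197336) (l 17220968)))) (b (c (l 178947029847) (a (l 17214864) (l 17237960))) (c (l 17368512) (l 17257576)))))) (a (b (c (a (b (c (l 17242936) (l 17224192)) (l 17271704)) (b (l 17271272) (l 17305008))) (a (a (b (a (l 17168464) (l 17167712)) (l 17199136)) (b (l 17172008) (l 17201432))) (b (l 17193928) (l 17220784)))) (c (a (l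 17325760) (l 17353880)) (a (b (l 17229536) (l 17260816)) (l 17259040)))) (c (a (b (l 17345360) (l 17404832)) (b (l 17417128) (l 17472432))) (b (a (b (l 17237016) (l 17262216)) (l 17298688)) (a (l 17295816) (l 17343456))))))), by decide +kernel⟩

def k1_pm_101 : ∃ t, chk3 f_pm_101 t 3 1 1 = true :=
  ⟨(b (a (b (l 1) (a (b (l 1) (l 3)) (l 1))) (l 1)) (a (b (b (b (l 3) (c (a (l 167672647895) (l 401077623751)) (a (c (l 153713952663) (a (l 81236119223) (l 83383637431))) (a (l 324841373543) (l 1))))) (c (a (b (l 17397000) (l 17433872)) (l 17493032)) (a (b (c (l 17296000) (l 17231600)) (l 17294360)) (b (c (l 17319216) (l 17245072)) (l 17310152))))) (b (c (a (l 17483184) (l 17527752)) (a (l 17338152) (l 17356328))) (c (l 17567256) (a (l 17387032) (l 17413616))))) (b (a (b (l 1) (c (l 431142671239) (b (l 1) (l 17321048)))) (l 1)) (b (c (a (l 17558640) (l 17566992)) (a (l 17359776) (l 367254720647))) (c (l 17623568) (a (l 17414232) (l 17395696))))))), by decide +kernel⟩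

theorem s2_pm_101 : ∃ t, chk3 f_pm_101 t 1 1 1 = true := ex3_a k0_pm_101 k1_pm_101

theorem c_pm_101 : CertF 536870912 536870912 0 536870912 201326592 134217728 true true false .npn 1 0 1
    ndF0q1 ndF4q0 pcF1 Cut.none Ext.none :=
  certF1 (fam := true) (s1 := true) (s2 := false) (a := 1) (b := 0) (c := 1) (cn := .npn) (n1 := ndF0q1) (n2 := ndF4q0) (pc := pcF1) (cut := Cut.none) (xt := Ext.none) (P1 := 536870912) (W1 := 536870912) (P2 := 0) (W2 := 536870912) (P3 := 201326592) (W3 := 134217728)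
    rfl (fun _ => rfl) s2_pm_101

noncomputable def f_pm_102 : ℕ → ℕ → ℕ → ℕ → Bool := onCell 536870912 536870912 1073741824 536870912 201326592 134217728
    (rowF 1 true true false .npp 1 0 2 (qsf 536870912 536870912 0 536870912 2) ndF0q1 ndF4q0 pcF2 Cut.none Ext.none)

def k0_pm_102 : ∃ t, chk3 f_pm_102 t 1 1 1 = true :=
  ⟨(a (b (a (b (a (b (c (l 17449168) (l 17335080)) (b (l 17413872) (l 2))) (b (c (l 17475952) (l 17347320)) (b (l 17420280) (b (l 17417024) (l 17412072))))) (b (b (b (a (l 2) (l 17404888)) (l 2)) (l 2)) (l 2))) (a (b (b (c (l 17534120) (l 17390128)) (b (l 17461832) (b (l 17455240) (l 17448312)))) (b (b (b (l 17439392) (b (l 17428568) (l 17420728))) (l 17396832)) (l 63452764215))) (b (b (c (l 17614416) (l 17449304)) (b (l 17525280) (b (l 17517032) (l 17509264)))) (b (b (b (l 17499728) (l 17486288)) (l 17458352)) (l 17406584))))) (b (a (l 2) (b (a (l 2) (l 17329888)) (l 2))) (l 2))) (b (a (b (b (c (l 17741560) (a (l 17510512) (l 17561272))) (b (c (l 17716864)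 (l 17534872)) (b (l 17622624) (l 17636440)))) (b (b (b (l 17606848) (c (l 17661520) (l 17517576))) (l 17571720)) (c (l 17570280) (l 17472120)))) (b (b (a (l 17763824) (l 17750880)) (b (c (l 17851048) (l 17615728)) (b (l 17734280) (l 17731040)))) (b (b (b (l 17726488) (c (l 17812032) (l 17622952))) (l 17706352)) (a (l 17640312) (l 17714952))))) (b (a (b (c (l 17488112) (l 17424792)) (l 17494384)) (b (l 17761360) (l 17571928))) (a (b (l 17330760) (l 2)) (b (l 17494432) (l 17396816)))))), by decide +kernel⟩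

theorem c_pm_102 : CertF 536870912 536870912 0 536870912 201326592 134217728 true true false .npp 1 0 2
    ndF0q1 ndF4q0 pcF2 Cut.none Ext.none :=
  certF1 (fam := true) (s1 := true) (s2 := false) (a := 1) (b := 0) (c := 2) (cn := .npp) (n1 := ndF0q1) (n2 := ndF4q0) (pc := pcF2) (cut := Cut.none) (xt := Ext.none) (P1 := 536870912) (W1 := 536870912) (P2 := 0) (W2 := 536870912) (P3 := 201326592) (W3 := 134217728)
    rfl (fun _ => rfl) k0_pm_102

noncomputable def f_pm_112 : ℕ → ℕ → ℕ → ℕ → Bool := onCell 536870912 536870912 1073741824 536870912 201326592 134217728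
    (rowF 1 true true false .dn 1 1 2 (qsf 536870912 536870912 536870912 536870912 2) ndF0q1 ndF4q1 pcF2 Cut.none Ext.none)

def k0_pm_112 : ∃ t, chk3 f_pm_112 t 1 1 1 = true :=
  ⟨(a (b (a (b (a (b (c (l 17721928) (b (l 17297264) (l 17344112))) (b (c (l 17817840) (l 17392000)) (b (l 17645840) (c (l 17896288) (l 17451664))))) (b (c (l 17825720) (l 192234435783)) (b (l 17706128) (b (l 17742792) (l 17765256))))) (b (b (b (a (c (l 17924664) (l 17474064)) (l 17786280)) (a (b (l 17713976) (c (l 17952752) (l 17518856))) (c (l 18013568) (b (l 17591288) (l 17598936))))) (c (l 18006416) (a (l 17519408) (l 17615744)))) (a (c (l 18042272) (b (l 17560872) (l 17602408))) (c (l 18079104) (l 17663192))))) (a (b (b (l 1) (b (l 1) (b (l 1) (l 17842808)))) (b (b (b (l 17859160) (c (l 18068936) (l 17677320))) (l 17884584)) (l 17917352))) (b (l 1) (b (b (l 1) (l 17942384)) (l 17961536))))) (b (b (a (a (b (l 17879080) (l 17924304)) (l 17936112)) (a (l 17961408) (l 17987008))) (a (c (l 18356336)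 (a (l 17765192) (l 17794872))) (l 18253496))) (b (a (c (b (l 18282904) (l 18351752)) (b (l 17856128) (l 17912152))) (a (l 18067032) (l 18055128))) (a (a (l 18250888) (l 18200016)) (l 18136744))))) (b (a (b (l 1) (b (l 1) (l 18148080))) (l 1)) (b (a (b (l 18026304) (l 18029720)) (b (l 1) (l 18050792))) (a (b (l 18058848) (l 18085312)) (b (l 18027280) (l 17992824)))))), by decide +kernel⟩

theorem c_pm_112 : CertF 536870912 536870912 536870912 536870912 201326592 134217728 true true false .dn 1 1 2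
    ndF0q1 ndF4q1 pcF2 Cut.none Ext.none :=
  certF1 (fam := true) (s1 := true) (s2 := false) (a := 1) (b := 1) (c := 2) (cn := .dn) (n1 := ndF0q1) (n2 := ndF4q1) (pc := pcF2) (cut := Cut.none) (xt := Ext.none) (P1 := 536870912) (W1 := 536870912) (P2 := 536870912) (W2 := 536870912) (P3 := 201326592) (W3 := 134217728)
    rfl (fun _ => rfl) k0_pm_112

noncomputable def f_pm_113 : ℕ → ℕ → ℕ → ℕ → Bool := onCell 536870912 536870912 1610612736 536870912 201326592 134217728
    (rowF 1 true true false .nn 1 1 3 (qsf 536870912 536870912 536870912 536870912 3) ndF0q1 ndF4q1 pcF3 Cut.none Ext.none)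

def k0_pm_113 : ∃ t, chk3 f_pm_113 t 1 1 1 = true :=
  ⟨(b (a (b (a (a (c (l 18621608) (l 18210304)) (c (l 18419304) (l 18095608))) (b (c (l 18118896) (l 17910352)) (a (l 18173936) (l 18045208)))) (a (a (l 2) (c (l 18669288) (l 18302440))) (b (a (l 18264976) (l 18109960)) (a (l 18350216) (l 18173424))))) (b (a (b (a (l 17885144) (l 17826656)) (a (l 17938872) (l 17868072))) (b (l 17795320) (a (l 17815600) (l 17774616)))) (a (b (l 17937048) (l 17959544)) (b (a (l 17812680) (l 17728784)) (a (l 17790904) (l 4)))))) (a (b (a (l 2) (b (a (l 2) (l 18227272)) (l 2))) (l 2)) (b (a (b (l 18167784) (l 17979808)) (l 4)) (l 4)))), by decide +kernel⟩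

theorem c_pm_113 : CertF 536870912 536870912 536870912 536870912 201326592 134217728 true true false .nn 1 1 3
    ndF0q1 ndF4q1 pcF3 Cut.none Ext.none :=
  certF1 (fam := true) (s1 := true) (s2 := false) (a := 1) (b := 1) (c := 3) (cn := .nn) (n1 := ndF0q1) (n2 := ndF4q1) (pc := pcF3) (cut := Cut.none) (xt := Ext.none) (P1 := 536870912) (W1 := 536870912) (P2 := 536870912) (W2 := 536870912) (P3 := 201326592) (W3 := 134217728)
    rfl (fun _ => rfl) k0_pm_113

noncomputable def f_pm_123 : ℕ → ℕ → ℕ → ℕ → Bool := onCell 536870912 536870912 1610612736 536870912 201326592 134217728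
    (rowF 1 true true false .npn 1 2 3 (qsf 536870912 536870912 1073741824 536870912 3) ndF0q1 ndF4q2 pcF3 Cut.none Ext.none)

def k0_pm_123 : ∃ t, chk3 f_pm_123 t 1 1 1 = true :=
  ⟨(b (a (a (b (a (c (l 17926440) (l 17617184)) (l 202972967415)) (a (l 17673928) (l 17684800))) (b (a (l 275987928279) (l 1)) (a (c (l 17841368) (l 17585744)) (b (l 17762464) (l 17638096))))) (b (l 1) (a (a (b (l 1) (l 17561392)) (l 1)) (l 1)))) (b (a (a (a (l 17554496) (b (l 17577808) (l 17502248))) (a (b (l 17566584) (l 17466120)) (b (l 17515104) (l 17434200)))) (a (b (a (l 17457608) (l 17429400)) (a (l 17361760) (l 17336120))) (b (l 1) (c (l 17409544) (l 17398880))))) (a (b (a (l 17431792) (a (l 17370480) (l 17323424))) (b (a (l 17375904) (l 17280280)) (b (a (l 17348568) (l 17248328)) (b (a (l 17334768) (l 17239176)) (a (l 17325816) (l 17388392)))))) (a (b (b (l 17356288) (l 17227128)) (b (l 17191384) (b (l 17170736) (l 4)))) (b (l 135326406247) (b (l 17171360) (l 4))))))), by decide +kernel⟩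

theorem c_pm_123 : CertF 536870912 536870912 1073741824 536870912 201326592 134217728 true true false .npn 1 2 3
    ndF0q1 ndF4q2 pcF3 Cut.none Ext.none :=
  certF1 (fam := true) (s1 := true) (s2 := false) (a := 1) (b := 2) (c := 3) (cn := .npn) (n1 := ndF0q1) (n2 := ndF4q2) (pc := pcF3) (cut := Cut.none) (xt := Ext.none) (P1 := 536870912) (W1 := 536870912) (P2 := 1073741824) (W2 := 536870912) (P3 := 201326592) (W3 := 134217728)
    rfl (fun _ => rfl) k0_pm_123

noncomputable def f_pm_133 : ℕ → ℕ → ℕ → ℕ → Bool := onCell 536870912 536870912 0 1230186008 201326592 134217728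
    (rowF 0 true true false .dn 1 3 3 (qsf 536870912 536870912 0 1230186008 3) ndF0q1 ndF4q3 pcF3 Cut.none Ext.none)

def k0_pm_133 : ∃ t, chk3 f_pm_133 t 1 1 1 = true :=
  ⟨(b (l 2) (b (l 2) (a (b (l 2) (a (b (l 2) (a (l 16907016) (l 2))) (l 2))) (l 2)))), by decide +kernel⟩

theorem c_pm_133 : CertF 536870912 536870912 0 1230186008 201326592 134217728 true true false .dn 1 3 3
    ndF0q1 ndF4q3 pcF3 Cut.none Ext.none :=
  certF0 (fam := true) (s1 := true) (s2 := false) (a := 1) (b := 3) (c := 3) (cn := .dn) (n1 := ndF0q1) (n2 := ndF4q3) (pc := pcF3) (cut := Cut.none) (xt := Ext.none) (P1 := 536870912) (W1 := 536870912) (P2 := 0) (W2 := 1230186008) (P3 := 201326592) (W3 := 134217728)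
    rfl k0_pm_133

noncomputable def f_pm_202 : ℕ → ℕ → ℕ → ℕ → Bool := onCell 0 536870912 1073741824 536870912 201326592 134217728
    (rowF 1 true true false .pp 2 0 2 (qsf 0 536870912 0 536870912 2) ndF0q2 ndF4q0 pcF2 Cut.none Ext.none)

def k0_pm_202 : ∃ t, chk3 f_pm_202 t 1 1 1 = true :=
  ⟨(a (a (b (b (l 1) (b (b (l 17648024) (l 17687544)) (l 17682664))) (l 4)) (b (b (a (l 1) (b (l 1) (b (l 1) (l 17657704)))) (b (b (l 17700704) (l 17741200)) (l 17777904))) (b (b (l 17715064) (l 17575896)) (l 4)))) (b (a (b (b (l 1) (b (a (l 1) (b (l 17669808) (l 17705320))) (a (l 17703096) (l 17748056)))) (b (l 17879344) (l 17829688))) (b (a (b (c (l 17767064) (l 171297263383)) (b (l 17754896) (l 17804840))) (b (c (l 17914872) (a (l 17568152) (l 17644488))) (b (l 17817272) (l 17802056)))) (b (b (a (l 17856272) (l 17794000)) (l 17793128)) (l 17766944)))) (b (a (l 17935208) (l 17854320)) (b (a (l 17522856) (l 17550968)) (l 17555472))))), by decide +kernel⟩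

theorem c_pm_202 : CertF 0 536870912 0 536870912 201326592 134217728 true true false .pp 2 0 2
    ndF0q2 ndF4q0 pcF2 Cut.none Ext.none :=
  certF1 (fam := true) (s1 := true) (s2 := false) (a := 2) (b := 0) (c := 2) (cn := .pp) (n1 := ndF0q2) (n2 := ndF4q0) (pc := pcF2) (cut := Cut.none) (xt := Ext.none) (P1 := 0) (W1 := 536870912) (P2 := 0) (W2 := 536870912) (P3 := 201326592) (W3 := 134217728)
    rfl (fun _ => rfl) k0_pm_202

noncomputable def f_pm_203 : ℕ → ℕ → ℕ → ℕ → Bool := onCell 0 536870912 1610612736 536870912 201326592 134217728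
    (rowF 1 true true false .up 2 0 3 (qsf 0 536870912 0 536870912 3) ndF0q2 ndF4q0 pcF3 Cut.none Ext.none)

def k0_pm_203 : ∃ t, chk3 f_pm_203 t 1 1 1 = true :=
  ⟨(b (b (a (l 4) (a (l 4) (b (c (l 17276144) (l 17295736)) (l 17398008)))) (l 4)) (l 2)), by decide +kernel⟩

theorem c_pm_203 : CertF 0 536870912 0 536870912 201326592 134217728 true true false .up 2 0 3
    ndF0q2 ndF4q0 pcF3 Cut.none Ext.none :=
  certF1 (fam := true) (s1 := true) (s2 := false) (a := 2) (b := 0) (c := 3) (cn := .up) (n1 := ndF0q2) (n2 := ndF4q0) (pc := pcF3) (cut := Cut.none) (xt := Ext.none) (P1 := 0) (W1 := 536870912) (P2 := 0) (W2 := 536870912) (P3 := 201326592) (W3 := 134217728)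
    rfl (fun _ => rfl) k0_pm_203

noncomputable def f_pm_213 : ℕ → ℕ → ℕ → ℕ → Bool := onCell 0 536870912 1610612736 536870912 201326592 134217728
    (rowF 1 true true false .pnn 2 1 3 (qsf 0 536870912 536870912 536870912 3) ndF0q2 ndF4q1 pcF3 Cut.none Ext.none)

def k0_pm_213 : ∃ t, chk3 f_pm_213 t 1 1 1 = true :=
  ⟨(b (a (l 4) (a (l 4) (b (b (l 17852920) (l 17930528)) (l 4)))) (l 4)), by decide +kernel⟩

theorem c_pm_213 : CertF 0 536870912 536870912 536870912 201326592 134217728 true true false .pnn 2 1 3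
    ndF0q2 ndF4q1 pcF3 Cut.none Ext.none :=
  certF1 (fam := true) (s1 := true) (s2 := false) (a := 2) (b := 1) (c := 3) (cn := .pnn) (n1 := ndF0q2) (n2 := ndF4q1) (pc := pcF3) (cut := Cut.none) (xt := Ext.none) (P1 := 0) (W1 := 536870912) (P2 := 536870912) (W2 := 536870912) (P3 := 201326592) (W3 := 134217728)
    rfl (fun _ => rfl) k0_pm_213

noncomputable def f_mm_001 : ℕ → ℕ → ℕ → ℕ → Bool := onCell 0 536870912 0 536870912 201326592 134217728
    (rowF 0 true false false .up 0 0 1 (qsf 0 536870912 0 536870912 1) ndF0q0 ndF4q0 pcF1 Cut.none Ext.none)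

def k0_mm_001 : ∃ t, chk3 f_mm_001 t 1 1 1 = true :=
  ⟨(l 4), by decide +kernel⟩

theorem c_mm_001 : CertF 0 536870912 0 536870912 201326592 134217728 true false false .up 0 0 1
    ndF0q0 ndF4q0 pcF1 Cut.none Ext.none :=
  certF0 (fam := true) (s1 := false) (s2 := false) (a := 0) (b := 0) (c := 1) (cn := .up) (n1 := ndF0q0) (n2 := ndF4q0) (pc := pcF1) (cut := Cut.none) (xt := Ext.none) (P1 := 0) (W1 := 536870912) (P2 := 0) (W2 := 536870912) (P3 := 201326592) (W3 := 134217728)
    rfl k0_mm_001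

noncomputable def f_mm_011 : ℕ → ℕ → ℕ → ℕ → Bool := onCell 0 536870912 536870912 536870912 201326592 134217728
    (rowF 0 true false false .pnn 0 1 1 (qsf 0 536870912 536870912 536870912 1) ndF0q0 ndF4q1 pcF1 Cut.none Ext.none)

def k0_mm_011 : ∃ t, chk3 f_mm_011 t 1 1 1 = true :=
  ⟨(l 4), by decide +kernel⟩

theorem c_mm_011 : CertF 0 536870912 536870912 536870912 201326592 134217728 true false false .pnn 0 1 1
    ndF0q0 ndF4q1 pcF1 Cut.none Ext.none :=
  certF0 (fam := true) (s1 := false) (s2 := false) (a := 0) (b := 1) (c := 1) (cn := .pnn) (n1 := ndF0q0) (n2 := ndF4q1) (pc := pcF1) (cut := Cut.none) (xt := Ext.none) (P1 := 0) (W1 := 536870912) (P2 := 536870912) (W2 := 536870912) (P3 := 201326592) (W3 := 134217728)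
    rfl k0_mm_011

noncomputable def f_mm_012 : ℕ → ℕ → ℕ → ℕ → Bool := onCell 0 536870912 536870912 536870912 201326592 134217728
    (rowF 0 true false false .pnp 0 1 2 (qsf 0 536870912 536870912 536870912 2) ndF0q0 ndF4q1 pcF2 Cut.none Ext.none)

def k0_mm_012 : ∃ t, chk3 f_mm_012 t 1 1 1 = true :=
  ⟨(l 4), by decide +kernel⟩

theorem c_mm_012 : CertF 0 536870912 536870912 536870912 201326592 134217728 true false false .pnp 0 1 2
    ndF0q0 ndF4q1 pcF2 Cut.none Ext.none :=
  certF0 (fam := true) (s1 := false) (s2 := false) (a := 0) (b := 1) (c := 2) (cn := .pnp) (n1 := ndF0q0) (n2 := ndF4q1) (pc := pcF2) (cut := Cut.none) (xt := Ext.none) (P1 := 0) (W1 := 536870912) (P2 := 536870912) (W2 := 536870912) (P3 := 201326592) (W3 := 134217728)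
    rfl k0_mm_012

noncomputable def f_mm_022 : ℕ → ℕ → ℕ → ℕ → Bool := onCell 0 536870912 1073741824 536870912 201326592 134217728
    (rowF 0 true false false .pp 0 2 2 (qsf 0 536870912 1073741824 536870912 2) ndF0q0 ndF4q2 pcF2 Cut.none Ext.none)

def k0_mm_022 : ∃ t, chk3 f_mm_022 t 1 1 1 = true :=
  ⟨(l 4), by decide +kernel⟩

theorem c_mm_022 : CertF 0 536870912 1073741824 536870912 201326592 134217728 true false false .pp 0 2 2
    ndF0q0 ndF4q2 pcF2 Cut.none Ext.none :=
  certF0 (fam := true) (s1 := false) (s2 := false) (a := 0) (b := 2) (c := 2) (cn := .pp) (n1 := ndF0q0) (n2 := ndF4q2) (pc := pcF2) (cut := Cut.none) (xt := Ext.none) (P1 := 0) (W1 := 536870912) (P2 := 1073741824) (W2 := 536870912) (P3 := 201326592) (W3 := 134217728)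
    rfl k0_mm_022

noncomputable def f_mm_023 : ℕ → ℕ → ℕ → ℕ → Bool := onCell 0 536870912 1073741824 536870912 201326592 134217728
    (rowF 0 true false false .up 0 2 3 (qsf 0 536870912 1073741824 536870912 3) ndF0q0 ndF4q2 pcF3 Cut.none Ext.none)

def k0_mm_023 : ∃ t, chk3 f_mm_023 t 1 1 1 = true :=
  ⟨(l 4), by decide +kernel⟩

theorem c_mm_023 : CertF 0 536870912 1073741824 536870912 201326592 134217728 true false false .up 0 2 3
    ndF0q0 ndF4q2 pcF3 Cut.none Ext.none :=
  certF0 (fam := true) (s1 := false) (s2 := false) (a := 0) (b := 2) (c := 3) (cn := .up) (n1 := ndF0q0) (n2 := ndF4q2) (pc := pcF3) (cut := Cut.none) (xt := Ext.none) (P1 := 0) (W1 := 536870912) (P2 := 1073741824) (W2 := 536870912) (P3 := 201326592) (W3 := 134217728)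
    rfl k0_mm_023

noncomputable def f_mm_033 : ℕ → ℕ → ℕ → ℕ → Bool := onCell 0 536870912 0 1230186008 201326592 134217728
    (rowF 0 true false false .pnn 0 3 3 (qsf 0 536870912 0 1230186008 3) ndF0q0 ndF4q3 pcF3 Cut.none Ext.none)

def k0_mm_033 : ∃ t, chk3 f_mm_033 t 1 1 1 = true :=
  ⟨(l 5), by decide +kernel⟩

theorem c_mm_033 : CertF 0 536870912 0 1230186008 201326592 134217728 true false false .pnn 0 3 3
    ndF0q0 ndF4q3 pcF3 Cut.none Ext.none :=
  certF0 (fam := true) (s1 := false) (s2 := false) (a := 0) (b := 3) (c := 3) (cn := .pnn) (n1 := ndF0q0) (n2 := ndF4q3) (pc := pcF3) (cut := Cut.none) (xt := Ext.none) (P1 := 0) (W1 := 536870912) (P2 := 0) (W2 := 1230186008) (P3 := 201326592) (W3 := 134217728)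
    rfl k0_mm_033

noncomputable def f_mm_101 : ℕ → ℕ → ℕ → ℕ → Bool := onCell 536870912 536870912 0 536870912 201326592 134217728
    (rowF 0 true false false .npn 1 0 1 (qsf 536870912 536870912 0 536870912 1) ndF0q1 ndF4q0 pcF1 Cut.none Ext.none)

def k0_mm_101 : ∃ t, chk3 f_mm_101 t 1 1 1 = true :=
  ⟨(l 4), by decide +kernel⟩

theorem c_mm_101 : CertF 536870912 536870912 0 536870912 201326592 134217728 true false false .npn 1 0 1
    ndF0q1 ndF4q0 pcF1 Cut.none Ext.none :=
  certF0 (fam := true) (s1 := false) (s2 := false) (a := 1) (b := 0) (c := 1) (cn := .npn) (n1 := ndF0q1) (n2 := ndF4q0) (pc := pcF1) (cut := Cut.none) (xt := Ext.none) (P1 := 536870912) (W1 := 536870912) (P2 := 0) (W2 := 536870912) (P3 := 201326592) (W3 := 134217728)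
    rfl k0_mm_101

noncomputable def f_mm_102 : ℕ → ℕ → ℕ → ℕ → Bool := onCell 536870912 536870912 0 536870912 201326592 134217728
    (rowF 0 true false false .npp 1 0 2 (qsf 536870912 536870912 0 536870912 2) ndF0q1 ndF4q0 pcF2 Cut.none Ext.none)

def k0_mm_102 : ∃ t, chk3 f_mm_102 t 1 1 1 = true :=
  ⟨(l 4), by decide +kernel⟩

theorem c_mm_102 : CertF 536870912 536870912 0 536870912 201326592 134217728 true false false .npp 1 0 2
    ndF0q1 ndF4q0 pcF2 Cut.none Ext.none :=
  certF0 (fam := true) (s1 := false) (s2 := false) (a := 1) (b := 0) (c := 2) (cn := .npp) (n1 := ndF0q1) (n2 := ndF4q0) (pc := pcF2) (cut := Cut.none) (xt := Ext.none) (P1 := 536870912) (W1 := 536870912) (P2 := 0) (W2 := 536870912) (P3 := 201326592) (W3 := 134217728)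
    rfl k0_mm_102

noncomputable def f_mm_112 : ℕ → ℕ → ℕ → ℕ → Bool := onCell 536870912 536870912 536870912 536870912 201326592 134217728
    (rowF 0 true false false .dn 1 1 2 (qsf 536870912 536870912 536870912 536870912 2) ndF0q1 ndF4q1 pcF2 Cut.none Ext.none)

def k0_mm_112 : ∃ t, chk3 f_mm_112 t 1 1 1 = true :=
  ⟨(l 4), by decide +kernel⟩

theorem c_mm_112 : CertF 536870912 536870912 536870912 536870912 201326592 134217728 true false false .dn 1 1 2
    ndF0q1 ndF4q1 pcF2 Cut.none Ext.none :=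
  certF0 (fam := true) (s1 := false) (s2 := false) (a := 1) (b := 1) (c := 2) (cn := .dn) (n1 := ndF0q1) (n2 := ndF4q1) (pc := pcF2) (cut := Cut.none) (xt := Ext.none) (P1 := 536870912) (W1 := 536870912) (P2 := 536870912) (W2 := 536870912) (P3 := 201326592) (W3 := 134217728)
    rfl k0_mm_112

noncomputable def f_mm_113 : ℕ → ℕ → ℕ → ℕ → Bool := onCell 536870912 536870912 536870912 536870912 201326592 134217728
    (rowF 0 true false false .nn 1 1 3 (qsf 536870912 536870912 536870912 536870912 3) ndF0q1 ndF4q1 pcF3 Cut.none Ext.none)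

def k0_mm_113 : ∃ t, chk3 f_mm_113 t 1 1 1 = true :=
  ⟨(l 4), by decide +kernel⟩

theorem c_mm_113 : CertF 536870912 536870912 536870912 536870912 201326592 134217728 true false false .nn 1 1 3
    ndF0q1 ndF4q1 pcF3 Cut.none Ext.none :=
  certF0 (fam := true) (s1 := false) (s2 := false) (a := 1) (b := 1) (c := 3) (cn := .nn) (n1 := ndF0q1) (n2 := ndF4q1) (pc := pcF3) (cut := Cut.none) (xt := Ext.none) (P1 := 536870912) (W1 := 536870912) (P2 := 536870912) (W2 := 536870912) (P3 := 201326592) (W3 := 134217728)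
    rfl k0_mm_113

noncomputable def f_mm_123 : ℕ → ℕ → ℕ → ℕ → Bool := onCell 536870912 536870912 1073741824 536870912 201326592 134217728
    (rowF 0 true false false .npn 1 2 3 (qsf 536870912 536870912 1073741824 536870912 3) ndF0q1 ndF4q2 pcF3 Cut.none Ext.none)

def k0_mm_123 : ∃ t, chk3 f_mm_123 t 1 1 1 = true :=
  ⟨(l 4), by decide +kernel⟩

theorem c_mm_123 : CertF 536870912 536870912 1073741824 536870912 201326592 134217728 true false false .npn 1 2 3
    ndF0q1 ndF4q2 pcF3 Cut.none Ext.none :=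
  certF0 (fam := true) (s1 := false) (s2 := false) (a := 1) (b := 2) (c := 3) (cn := .npn) (n1 := ndF0q1) (n2 := ndF4q2) (pc := pcF3) (cut := Cut.none) (xt := Ext.none) (P1 := 536870912) (W1 := 536870912) (P2 := 1073741824) (W2 := 536870912) (P3 := 201326592) (W3 := 134217728)
    rfl k0_mm_123

noncomputable def f_mm_133 : ℕ → ℕ → ℕ → ℕ → Bool := onCell 536870912 536870912 0 1230186008 201326592 134217728
    (rowF 0 true false false .dn 1 3 3 (qsf 536870912 536870912 0 1230186008 3) ndF0q1 ndF4q3 pcF3 Cut.none Ext.none)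

def k0_mm_133 : ∃ t, chk3 f_mm_133 t 1 1 1 = true :=
  ⟨(l 4), by decide +kernel⟩

theorem c_mm_133 : CertF 536870912 536870912 0 1230186008 201326592 134217728 true false false .dn 1 3 3
    ndF0q1 ndF4q3 pcF3 Cut.none Ext.none :=
  certF0 (fam := true) (s1 := false) (s2 := false) (a := 1) (b := 3) (c := 3) (cn := .dn) (n1 := ndF0q1) (n2 := ndF4q3) (pc := pcF3) (cut := Cut.none) (xt := Ext.none) (P1 := 536870912) (W1 := 536870912) (P2 := 0) (W2 := 1230186008) (P3 := 201326592) (W3 := 134217728)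
    rfl k0_mm_133

noncomputable def f_mm_202 : ℕ → ℕ → ℕ → ℕ → Bool := onCell 0 536870912 0 536870912 201326592 134217728
    (rowF 0 true false false .pp 2 0 2 (qsf 0 536870912 0 536870912 2) ndF0q2 ndF4q0 pcF2 Cut.none Ext.none)

def k0_mm_202 : ∃ t, chk3 f_mm_202 t 1 1 1 = true :=
  ⟨(b (a (l 4) (l 4)) (l 4)), by decide +kernel⟩

theorem c_mm_202 : CertF 0 536870912 0 536870912 201326592 134217728 true false false .pp 2 0 2
    ndF0q2 ndF4q0 pcF2 Cut.none Ext.none :=
  certF0 (fam := true) (s1 := false) (s2 := false) (a := 2) (b := 0) (c := 2) (cn := .pp) (n1 := ndF0q2) (n2 := ndF4q0) (pc := pcF2) (cut := Cut.none) (xt := Ext.none) (P1 := 0) (W1 := 536870912) (P2 := 0) (W2 := 536870912) (P3 := 201326592) (W3 := 134217728)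
    rfl k0_mm_202

noncomputable def f_mm_203 : ℕ → ℕ → ℕ → ℕ → Bool := onCell 0 536870912 1610612736 536870912 201326592 134217728
    (rowF 1 true false false .up 2 0 3 (qsf 0 536870912 0 536870912 3) ndF0q2 ndF4q0 pcF3 Cut.none Ext.none)

def k0_mm_203 : ∃ t, chk3 f_mm_203 t 1 1 1 = true :=
  ⟨(l 4), by decide +kernel⟩

theorem c_mm_203 : CertF 0 536870912 0 536870912 201326592 134217728 true false false .up 2 0 3
    ndF0q2 ndF4q0 pcF3 Cut.none Ext.none :=
  certF1 (fam := true) (s1 := false) (s2 := false) (a := 2) (b := 0) (c := 3) (cn := .up) (n1 := ndF0q2) (n2 := ndF4q0) (pc := pcF3) (cut := Cut.none) (xt := Ext.none) (P1 := 0) (W1 := 536870912) (P2 := 0) (W2 := 536870912) (P3 := 201326592) (W3 := 134217728)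
    rfl (fun _ => rfl) k0_mm_203

noncomputable def f_mm_213 : ℕ → ℕ → ℕ → ℕ → Bool := onCell 0 536870912 536870912 536870912 201326592 134217728
    (rowF 0 true false false .pnn 2 1 3 (qsf 0 536870912 536870912 536870912 3) ndF0q2 ndF4q1 pcF3 Cut.none Ext.none)

def k0_mm_213 : ∃ t, chk3 f_mm_213 t 1 1 1 = true :=
  ⟨(l 4), by decide +kernel⟩

theorem c_mm_213 : CertF 0 536870912 536870912 536870912 201326592 134217728 true false false .pnn 2 1 3
    ndF0q2 ndF4q1 pcF3 Cut.none Ext.none :=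
  certF0 (fam := true) (s1 := false) (s2 := false) (a := 2) (b := 1) (c := 3) (cn := .pnn) (n1 := ndF0q2) (n2 := ndF4q1) (pc := pcF3) (cut := Cut.none) (xt := Ext.none) (P1 := 0) (W1 := 536870912) (P2 := 536870912) (W2 := 536870912) (P3 := 201326592) (W3 := 134217728)
    rfl k0_mm_213

end Pool.Agent.Strip051.G.I3_16_5_16.Tab.C.FA04

namespace Pool.Agent.Strip051.G.I3_16_5_16.Tab.C.FA05

open Pool.Agent.Strip051.PB Pool.Agent.Strip051.PB.T
open Pool.Agent.Strip051.G.I3_16_5_16.Tab

noncomputable def cut_pp_001 : Cut := Cut.of [[⟨3, 0, 0, 1449551462⟩]]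

noncomputable def f_pp_001 : ℕ → ℕ → ℕ → ℕ → Bool := onCell 0 536870912 0 536870912 201326592 134217728
    (rowF 0 true true true .up 0 0 1 (qsf 0 536870912 0 536870912 1) ndF0q0 ndF5q0 pcF1 cut_pp_001 Ext.none)

def k0_pp_001 : ∃ t, chk3 f_pp_001 t 1 1 1 = true :=
  ⟨(l 4), by decide +kernel⟩

theorem c_pp_001 : CertF 0 536870912 0 536870912 201326592 134217728 true true true .up 0 0 1
    ndF0q0 ndF5q0 pcF1 cut_pp_001 Ext.none :=
  certF0 (fam := true) (s1 := true) (s2 := true) (a := 0) (b := 0) (c := 1) (cn := .up) (n1 := ndF0q0) (n2 := ndF5q0) (pc := pcF1) (cut := cut_pp_001) (xt := Ext.none) (P1 := 0) (W1 := 536870912) (P2 := 0) (W2 := 536870912) (P3 := 201326592) (W3 := 134217728)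
    rfl k0_pp_001

noncomputable def cut_pp_011 : Cut := Cut.of [[⟨3, 0, 0, 1449551462⟩]]

noncomputable def f_pp_011 : ℕ → ℕ → ℕ → ℕ → Bool := onCell 0 536870912 536870912 536870912 201326592 134217728
    (rowF 0 true true true .pnn 0 1 1 (qsf 0 536870912 536870912 536870912 1) ndF0q0 ndF5q1 pcF1 cut_pp_011 Ext.none)

def k0_pp_011 : ∃ t, chk3 f_pp_011 t 1 1 1 = true :=
  ⟨(l 4), by decide +kernel⟩

theorem c_pp_011 : CertF 0 536870912 536870912 536870912 201326592 134217728 true true true .pnn 0 1 1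
    ndF0q0 ndF5q1 pcF1 cut_pp_011 Ext.none :=
  certF0 (fam := true) (s1 := true) (s2 := true) (a := 0) (b := 1) (c := 1) (cn := .pnn) (n1 := ndF0q0) (n2 := ndF5q1) (pc := pcF1) (cut := cut_pp_011) (xt := Ext.none) (P1 := 0) (W1 := 536870912) (P2 := 536870912) (W2 := 536870912) (P3 := 201326592) (W3 := 134217728)
    rfl k0_pp_011

noncomputable def cut_pp_012 : Cut := Cut.of [[⟨3, 0, 0, 1449551462⟩]]

noncomputable def f_pp_012 : ℕ → ℕ → ℕ → ℕ → Bool := onCell 0 536870912 536870912 536870912 201326592 134217728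
    (rowF 0 true true true .pnp 0 1 2 (qsf 0 536870912 536870912 536870912 2) ndF0q0 ndF5q1 pcF2 cut_pp_012 Ext.none)

def k0_pp_012 : ∃ t, chk3 f_pp_012 t 1 1 1 = true :=
  ⟨(l 4), by decide +kernel⟩

theorem c_pp_012 : CertF 0 536870912 536870912 536870912 201326592 134217728 true true true .pnp 0 1 2
    ndF0q0 ndF5q1 pcF2 cut_pp_012 Ext.none :=
  certF0 (fam := true) (s1 := true) (s2 := true) (a := 0) (b := 1) (c := 2) (cn := .pnp) (n1 := ndF0q0) (n2 := ndF5q1) (pc := pcF2) (cut := cut_pp_012) (xt := Ext.none) (P1 := 0) (W1 := 536870912) (P2 := 536870912) (W2 := 536870912) (P3 := 201326592) (W3 := 134217728)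
    rfl k0_pp_012

noncomputable def cut_pp_022 : Cut := Cut.of [[⟨3, 0, 0, 1449551462⟩]]

noncomputable def f_pp_022 : ℕ → ℕ → ℕ → ℕ → Bool := onCell 0 536870912 1073741824 536870912 201326592 134217728
    (rowF 0 true true true .pp 0 2 2 (qsf 0 536870912 1073741824 536870912 2) ndF0q0 ndF5q2 pcF2 cut_pp_022 Ext.none)

def k0_pp_022 : ∃ t, chk3 f_pp_022 t 1 1 1 = true :=
  ⟨(l 4), by decide +kernel⟩

theorem c_pp_022 : CertF 0 536870912 1073741824 536870912 201326592 134217728 true true true .pp 0 2 2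
    ndF0q0 ndF5q2 pcF2 cut_pp_022 Ext.none :=
  certF0 (fam := true) (s1 := true) (s2 := true) (a := 0) (b := 2) (c := 2) (cn := .pp) (n1 := ndF0q0) (n2 := ndF5q2) (pc := pcF2) (cut := cut_pp_022) (xt := Ext.none) (P1 := 0) (W1 := 536870912) (P2 := 1073741824) (W2 := 536870912) (P3 := 201326592) (W3 := 134217728)
    rfl k0_pp_022

noncomputable def cut_pp_023 : Cut := Cut.of [[⟨3, 0, 0, 1449551462⟩]]

noncomputable def f_pp_023 : ℕ → ℕ → ℕ → ℕ → Bool := onCell 0 536870912 1073741824 536870912 201326592 134217728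
    (rowF 0 true true true .up 0 2 3 (qsf 0 536870912 1073741824 536870912 3) ndF0q0 ndF5q2 pcF3 cut_pp_023 Ext.none)

def k0_pp_023 : ∃ t, chk3 f_pp_023 t 1 1 1 = true :=
  ⟨(l 4), by decide +kernel⟩

theorem c_pp_023 : CertF 0 536870912 1073741824 536870912 201326592 134217728 true true true .up 0 2 3
    ndF0q0 ndF5q2 pcF3 cut_pp_023 Ext.none :=
  certF0 (fam := true) (s1 := true) (s2 := true) (a := 0) (b := 2) (c := 3) (cn := .up) (n1 := ndF0q0) (n2 := ndF5q2) (pc := pcF3) (cut := cut_pp_023) (xt := Ext.none) (P1 := 0) (W1 := 536870912) (P2 := 1073741824) (W2 := 536870912) (P3 := 201326592) (W3 := 134217728)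
    rfl k0_pp_023

noncomputable def cut_pp_033 : Cut := Cut.of [[⟨3, 0, 0, 1449551462⟩]]

noncomputable def f_pp_033 : ℕ → ℕ → ℕ → ℕ → Bool := onCell 0 536870912 0 1230186008 201326592 134217728
    (rowF 0 true true true .pnn 0 3 3 (qsf 0 536870912 0 1230186008 3) ndF0q0 ndF5q3 pcF3 cut_pp_033 Ext.none)

def k0_pp_033 : ∃ t, chk3 f_pp_033 t 1 1 1 = true :=
  ⟨(l 4), by decide +kernel⟩

theorem c_pp_033 : CertF 0 536870912 0 1230186008 201326592 134217728 true true true .pnn 0 3 3
    ndF0q0 ndF5q3 pcF3 cut_pp_033 Ext.none :=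
  certF0 (fam := true) (s1 := true) (s2 := true) (a := 0) (b := 3) (c := 3) (cn := .pnn) (n1 := ndF0q0) (n2 := ndF5q3) (pc := pcF3) (cut := cut_pp_033) (xt := Ext.none) (P1 := 0) (W1 := 536870912) (P2 := 0) (W2 := 1230186008) (P3 := 201326592) (W3 := 134217728)
    rfl k0_pp_033

noncomputable def cut_pp_101 : Cut := Cut.of [[⟨3, 0, 0, 1449551462⟩]]

noncomputable def f_pp_101 : ℕ → ℕ → ℕ → ℕ → Bool := onCell 536870912 536870912 0 536870912 201326592 134217728
    (rowF 0 true true true .npn 1 0 1 (qsf 536870912 536870912 0 536870912 1) ndF0q1 ndF5q0 pcF1 cut_pp_101 Ext.none)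

def k0_pp_101 : ∃ t, chk3 f_pp_101 t 1 1 1 = true :=
  ⟨(l 4), by decide +kernel⟩

theorem c_pp_101 : CertF 536870912 536870912 0 536870912 201326592 134217728 true true true .npn 1 0 1
    ndF0q1 ndF5q0 pcF1 cut_pp_101 Ext.none :=
  certF0 (fam := true) (s1 := true) (s2 := true) (a := 1) (b := 0) (c := 1) (cn := .npn) (n1 := ndF0q1) (n2 := ndF5q0) (pc := pcF1) (cut := cut_pp_101) (xt := Ext.none) (P1 := 536870912) (W1 := 536870912) (P2 := 0) (W2 := 536870912) (P3 := 201326592) (W3 := 134217728)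
    rfl k0_pp_101

noncomputable def cut_pp_102 : Cut := Cut.of [[⟨3, 0, 0, 1449551462⟩]]

noncomputable def f_pp_102 : ℕ → ℕ → ℕ → ℕ → Bool := onCell 536870912 536870912 0 536870912 201326592 134217728
    (rowF 0 true true true .npp 1 0 2 (qsf 536870912 536870912 0 536870912 2) ndF0q1 ndF5q0 pcF2 cut_pp_102 Ext.none)

def k0_pp_102 : ∃ t, chk3 f_pp_102 t 1 1 1 = true :=
  ⟨(l 4), by decide +kernel⟩

theorem c_pp_102 : CertF 536870912 536870912 0 536870912 201326592 134217728 true true true .npp 1 0 2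
    ndF0q1 ndF5q0 pcF2 cut_pp_102 Ext.none :=
  certF0 (fam := true) (s1 := true) (s2 := true) (a := 1) (b := 0) (c := 2) (cn := .npp) (n1 := ndF0q1) (n2 := ndF5q0) (pc := pcF2) (cut := cut_pp_102) (xt := Ext.none) (P1 := 536870912) (W1 := 536870912) (P2 := 0) (W2 := 536870912) (P3 := 201326592) (W3 := 134217728)
    rfl k0_pp_102

noncomputable def cut_pp_112 : Cut := Cut.of [[⟨3, 0, 0, 1449551462⟩]]

noncomputable def f_pp_112 : ℕ → ℕ → ℕ → ℕ → Bool := onCell 536870912 536870912 536870912 536870912 201326592 134217728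
    (rowF 0 true true true .dn 1 1 2 (qsf 536870912 536870912 536870912 536870912 2) ndF0q1 ndF5q1 pcF2 cut_pp_112 Ext.none)

def k0_pp_112 : ∃ t, chk3 f_pp_112 t 1 1 1 = true :=
  ⟨(l 4), by decide +kernel⟩

theorem c_pp_112 : CertF 536870912 536870912 536870912 536870912 201326592 134217728 true true true .dn 1 1 2
    ndF0q1 ndF5q1 pcF2 cut_pp_112 Ext.none :=
  certF0 (fam := true) (s1 := true) (s2 := true) (a := 1) (b := 1) (c := 2) (cn := .dn) (n1 := ndF0q1) (n2 := ndF5q1) (pc := pcF2) (cut := cut_pp_112) (xt := Ext.none) (P1 := 536870912) (W1 := 536870912) (P2 := 536870912) (W2 := 536870912) (P3 := 201326592) (W3 := 134217728)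
    rfl k0_pp_112

noncomputable def cut_pp_113 : Cut := Cut.of [[⟨3, 0, 0, 1449551462⟩]]

noncomputable def f_pp_113 : ℕ → ℕ → ℕ → ℕ → Bool := onCell 536870912 536870912 536870912 536870912 201326592 134217728
    (rowF 0 true true true .nn 1 1 3 (qsf 536870912 536870912 536870912 536870912 3) ndF0q1 ndF5q1 pcF3 cut_pp_113 Ext.none)

def k0_pp_113 : ∃ t, chk3 f_pp_113 t 1 1 1 = true :=
  ⟨(l 4), by decide +kernel⟩

theorem c_pp_113 : CertF 536870912 536870912 536870912 536870912 201326592 134217728 true true true .nn 1 1 3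
    ndF0q1 ndF5q1 pcF3 cut_pp_113 Ext.none :=
  certF0 (fam := true) (s1 := true) (s2 := true) (a := 1) (b := 1) (c := 3) (cn := .nn) (n1 := ndF0q1) (n2 := ndF5q1) (pc := pcF3) (cut := cut_pp_113) (xt := Ext.none) (P1 := 536870912) (W1 := 536870912) (P2 := 536870912) (W2 := 536870912) (P3 := 201326592) (W3 := 134217728)
    rfl k0_pp_113

noncomputable def cut_pp_123 : Cut := Cut.of [[⟨3, 0, 0, 1449551462⟩]]

noncomputable def f_pp_123 : ℕ → ℕ → ℕ → ℕ → Bool := onCell 536870912 536870912 1073741824 536870912 201326592 134217728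
    (rowF 0 true true true .npn 1 2 3 (qsf 536870912 536870912 1073741824 536870912 3) ndF0q1 ndF5q2 pcF3 cut_pp_123 Ext.none)

def k0_pp_123 : ∃ t, chk3 f_pp_123 t 1 1 1 = true :=
  ⟨(l 4), by decide +kernel⟩

theorem c_pp_123 : CertF 536870912 536870912 1073741824 536870912 201326592 134217728 true true true .npn 1 2 3
    ndF0q1 ndF5q2 pcF3 cut_pp_123 Ext.none :=
  certF0 (fam := true) (s1 := true) (s2 := true) (a := 1) (b := 2) (c := 3) (cn := .npn) (n1 := ndF0q1) (n2 := ndF5q2) (pc := pcF3) (cut := cut_pp_123) (xt := Ext.none) (P1 := 536870912) (W1 := 536870912) (P2 := 1073741824) (W2 := 536870912) (P3 := 201326592) (W3 := 134217728)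
    rfl k0_pp_123

noncomputable def cut_pp_133 : Cut := Cut.of [[⟨3, 0, 0, 1449551462⟩]]

noncomputable def f_pp_133 : ℕ → ℕ → ℕ → ℕ → Bool := onCell 536870912 536870912 0 1230186008 201326592 134217728
    (rowF 0 true true true .dn 1 3 3 (qsf 536870912 536870912 0 1230186008 3) ndF0q1 ndF5q3 pcF3 cut_pp_133 Ext.none)

def k0_pp_133 : ∃ t, chk3 f_pp_133 t 1 1 1 = true :=
  ⟨(l 4), by decide +kernel⟩

theorem c_pp_133 : CertF 536870912 536870912 0 1230186008 201326592 134217728 true true true .dn 1 3 3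
    ndF0q1 ndF5q3 pcF3 cut_pp_133 Ext.none :=
  certF0 (fam := true) (s1 := true) (s2 := true) (a := 1) (b := 3) (c := 3) (cn := .dn) (n1 := ndF0q1) (n2 := ndF5q3) (pc := pcF3) (cut := cut_pp_133) (xt := Ext.none) (P1 := 536870912) (W1 := 536870912) (P2 := 0) (W2 := 1230186008) (P3 := 201326592) (W3 := 134217728)
    rfl k0_pp_133

noncomputable def cut_pp_202 : Cut := Cut.of [[⟨3, 0, 0, 1449551462⟩]]

noncomputable def f_pp_202 : ℕ → ℕ → ℕ → ℕ → Bool := onCell 0 536870912 0 536870912 201326592 134217728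
    (rowF 0 true true true .pp 2 0 2 (qsf 0 536870912 0 536870912 2) ndF0q2 ndF5q0 pcF2 cut_pp_202 Ext.none)

def k0_pp_202 : ∃ t, chk3 f_pp_202 t 1 1 1 = true :=
  ⟨(l 4), by decide +kernel⟩

theorem c_pp_202 : CertF 0 536870912 0 536870912 201326592 134217728 true true true .pp 2 0 2
    ndF0q2 ndF5q0 pcF2 cut_pp_202 Ext.none :=
  certF0 (fam := true) (s1 := true) (s2 := true) (a := 2) (b := 0) (c := 2) (cn := .pp) (n1 := ndF0q2) (n2 := ndF5q0) (pc := pcF2) (cut := cut_pp_202) (xt := Ext.none) (P1 := 0) (W1 := 536870912) (P2 := 0) (W2 := 536870912) (P3 := 201326592) (W3 := 134217728)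
    rfl k0_pp_202

noncomputable def cut_pp_203 : Cut := Cut.of [[⟨3, 0, 0, 1449551462⟩]]

noncomputable def f_pp_203 : ℕ → ℕ → ℕ → ℕ → Bool := onCell 0 536870912 0 536870912 201326592 134217728
    (rowF 0 true true true .up 2 0 3 (qsf 0 536870912 0 536870912 3) ndF0q2 ndF5q0 pcF3 cut_pp_203 Ext.none)

def k0_pp_203 : ∃ t, chk3 f_pp_203 t 1 1 1 = true :=
  ⟨(l 4), by decide +kernel⟩

theorem c_pp_203 : CertF 0 536870912 0 536870912 201326592 134217728 true true true .up 2 0 3
    ndF0q2 ndF5q0 pcF3 cut_pp_203 Ext.none :=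
  certF0 (fam := true) (s1 := true) (s2 := true) (a := 2) (b := 0) (c := 3) (cn := .up) (n1 := ndF0q2) (n2 := ndF5q0) (pc := pcF3) (cut := cut_pp_203) (xt := Ext.none) (P1 := 0) (W1 := 536870912) (P2 := 0) (W2 := 536870912) (P3 := 201326592) (W3 := 134217728)
    rfl k0_pp_203

noncomputable def cut_pp_213 : Cut := Cut.of [[⟨3, 0, 0, 1449551462⟩]]

noncomputable def f_pp_213 : ℕ → ℕ → ℕ → ℕ → Bool := onCell 0 536870912 536870912 536870912 201326592 134217728
    (rowF 0 true true true .pnn 2 1 3 (qsf 0 536870912 536870912 536870912 3) ndF0q2 ndF5q1 pcF3 cut_pp_213 Ext.none)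

def k0_pp_213 : ∃ t, chk3 f_pp_213 t 1 1 1 = true :=
  ⟨(l 4), by decide +kernel⟩

theorem c_pp_213 : CertF 0 536870912 536870912 536870912 201326592 134217728 true true true .pnn 2 1 3
    ndF0q2 ndF5q1 pcF3 cut_pp_213 Ext.none :=
  certF0 (fam := true) (s1 := true) (s2 := true) (a := 2) (b := 1) (c := 3) (cn := .pnn) (n1 := ndF0q2) (n2 := ndF5q1) (pc := pcF3) (cut := cut_pp_213) (xt := Ext.none) (P1 := 0) (W1 := 536870912) (P2 := 536870912) (W2 := 536870912) (P3 := 201326592) (W3 := 134217728)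
    rfl k0_pp_213

noncomputable def cut_pm_001 : Cut := Cut.of [[⟨3, 0, 0, 1449551462⟩]]

noncomputable def f_pm_001 : ℕ → ℕ → ℕ → ℕ → Bool := onCell 0 536870912 0 536870912 201326592 134217728
    (rowF 0 true true false .up 0 0 1 (qsf 0 536870912 0 536870912 1) ndF0q0 ndF5q0 pcF1 cut_pm_001 Ext.none)

def k0_pm_001 : ∃ t, chk3 f_pm_001 t 1 1 1 = true :=
  ⟨(a (l 3) (b (l 6) (a (l 6) (b (l 6) (a (l 6) (a (l 6) (b (l 6) (b (l 6) (l 17326504))))))))), by decide +kernel⟩

theorem c_pm_001 : CertF 0 536870912 0 536870912 201326592 134217728 true true false .up 0 0 1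
    ndF0q0 ndF5q0 pcF1 cut_pm_001 Ext.none :=
  certF0 (fam := true) (s1 := true) (s2 := false) (a := 0) (b := 0) (c := 1) (cn := .up) (n1 := ndF0q0) (n2 := ndF5q0) (pc := pcF1) (cut := cut_pm_001) (xt := Ext.none) (P1 := 0) (W1 := 536870912) (P2 := 0) (W2 := 536870912) (P3 := 201326592) (W3 := 134217728)
    rfl k0_pm_001

noncomputable def cut_pm_011 : Cut := Cut.of [[⟨3, 0, 0, 1449551462⟩], [⟨0, 0, 0, 67108864⟩, ⟨1, 1, 0, 67108864⟩, ⟨2, 1, 0, 67108864⟩]]

noncomputable def f_pm_011 : ℕ → ℕ → ℕ → ℕ → Bool := onCell 0 536870912 536870912 536870912 201326592 134217728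
    (rowF 1 true true false .pnn 0 1 1 (qsf 0 536870912 536870912 536870912 1) ndF0q0 ndF5q1 pcF1 cut_pm_011 Ext.none)

def k0_pm_011 : ∃ t, chk3 f_pm_011 t 1 1 1 = true :=
  ⟨(b (l 6) (a (l 6) (b (l 6) (a (l 6) (a (l 6) (a (l 6) (a (l 6) (b (l 1) (l 17340808))))))))), by decide +kernel⟩

theorem c_pm_011 : CertF 0 536870912 536870912 536870912 201326592 134217728 true true false .pnn 0 1 1
    ndF0q0 ndF5q1 pcF1 cut_pm_011 Ext.none :=
  certF1 (fam := true) (s1 := true) (s2 := false) (a := 0) (b := 1) (c := 1) (cn := .pnn) (n1 := ndF0q0) (n2 := ndF5q1) (pc := pcF1) (cut := cut_pm_011) (xt := Ext.none) (P1 := 0) (W1 := 536870912) (P2 := 536870912) (W2 := 536870912) (P3 := 201326592) (W3 := 134217728)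
    rfl (fun _ => rfl) k0_pm_011

noncomputable def cut_pm_012 : Cut := Cut.of [[⟨3, 0, 0, 1449551462⟩], [⟨0, 0, 0, 67108864⟩, ⟨1, 1, 0, 67108864⟩, ⟨2, 1, 0, 67108864⟩]]

noncomputable def f_pm_012 : ℕ → ℕ → ℕ → ℕ → Bool := onCell 1073741824 536870912 536870912 536870912 201326592 134217728
    (rowF 2 true true false .pnp 0 1 2 (qsf 0 536870912 536870912 536870912 2) ndF0q0 ndF5q1 pcF2 cut_pm_012 Ext.none)

def k0_pm_012 : ∃ t, chk3 f_pm_012 t 2 2 1 = true :=
  ⟨(a (b (b (a (c (a (l 17693056) (l 17817656)) (a (b (l 17298624) (l 17213864)) (l 17375712))) (a (c (l 17928168) (l 17486056)) (l 2))) (a (a (a (l 6) (c (l 17569424) (l 17103448))) (c (l 17679760) (b (l 17251888) (l 17156096)))) (a (c (l 17814496) (l 17337488)) (a (l 17667096) (c (l 17958280) (l 17487192)))))) (a (a (l 6) (a (l 6) (b (c (l 17546872) (l 17001464)) (l 6)))) (a (b (c (l 17667784) (b (l 17195848) (l 17080288))) (a (l 6) (c (l 17511184) (l 16906152)))) (a (b (c (l 17779264) (l 17254064)) (c (l 17603264)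 (l 17001552))) (b (c (l 17846392) (l 17325096)) (c (a (l 17669240) (l 17711360)) (a (l 17070888) (l 17116040)))))))) (a (b (a (a (b (l 2) (c (l 18006160) (l 17540440))) (l 2)) (l 2)) (a (a (b (c (l 17907672) (l 17392128)) (c (l 17768288) (a (l 17159456) (l 17200736)))) (a (b (l 17608392) (c (l 17820696) (l 17240832))) (b (c (l 17971232) (l 17467312)) (c (a (l 17845064) (l 17860704)) (a (l 17269968) (a (l 17284168) (l 17293456))))))) (b (c (l 18024432) (l 17534664)) (c (l 17926480) (a (l 17335264) (l 17406800)))))) (b (l 2) (b (a (l 17721912) (l 2)) (c (a (l 18032760) (l 18116200)) (a (l 17504144) (l 17616512))))))), by decide +kernel⟩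

def k1_pm_012 : ∃ t, chk3 f_pm_012 t 4 3 1 = true :=
  ⟨(b (b (a (l 6) (a (l 6) (a (a (l 6) (c (l 17296144) (l 16635880))) (c (a (l 17416936) (l 17242264)) (a (l 16698944) (l 16718704)))))) (l 6)) (l 6)), by decide +kernel⟩

def k2_pm_012 : ∃ t, chk3 f_pm_012 t 10 3 1 = true :=
  ⟨(b (a (a (a (b (c (l 17400464) (b (l 16921352) (l 16705888))) (l 6)) (b (c (l 17576432) (l 16815976)) (b (c (l 17328584) (l 16501640)) (l 6)))) (b (c (a (l 17624600) (a (l 17659216) (b (l 17734752) (l 17620952)))) (a (l 16851568) (a (l 16976760) (a (l 16997024) (l 16989408))))) (a (c (b (l 17393760) (l 16981024)) (b (l 16579168) (l 16343376))) (c (a (b (l 17440768) (l 17229320)) (b (c (l 17670808) (l 17271648)) (a (l 17258328) (l 17130568)))) (a (b (l 16635760) (l 16339552)) (b (a (l 16663568) (l 16681936)) (a (l 16345368) (l 16368848)))))))) (b (c (a (l 17735560) (l 17817608)) (a (b (l 17148048) (l 16980408)) (l 17106800))) (c (b (a (l 17544544) (l 17654312)) (a (c (l 17582608) (l 17138264)) (l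 17497784))) (b (a (l 16762424) (l 16897472)) (a (l 16471208) (l 16641520)))))) (a (l 6) (a (b (c (b (c (l 17360424) (l 16823672)) (c (b (l 17128576) (l 6)) (l 16441136))) (b (l 16368544) (b (l 16361048) (l 6)))) (l 6)) (b (c (b (c (l 17526088) (l 17033168)) (c (b (l 17333808) (l 17169336)) (b (l 16777320) (l 16561080)))) (b (l 16335552) (b (l 16345424) (l 16353264)))) (a (l 6) (b (c (c (b (l 17031024) (l 16704800)) (b (l 16394128) (l 16401848))) (b (l 16357272) (l 16366104))) (l 6))))))), by decide +kernel⟩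

def k3_pm_012 : ∃ t, chk3 f_pm_012 t 11 6 1 = true :=
  ⟨(b (c (a (l 17925136) (l 18044128)) (a (b (l 17364760) (l 17241136)) (l 17318856))) (a (c (b (l 17799456) (c (l 17880280) (l 17478104))) (b (a (l 17022768) (l 17138576)) (a (l 16798656) (l 16943200)))) (c (b (l 17960384) (l 17880024)) (b (l 17295352) (a (l 17075672) (l 17196848)))))), by decide +kernel⟩

def k4_pm_012 : ∃ t, chk3 f_pm_012 t 11 14 1 = true :=
  ⟨(a (c (b (a (c (l 17674256) (l 17203480)) (l 17560816)) (c (a (l 17451872) (l 17624992)) (a (b (l 16987496) (l 16806160)) (l 17082080)))) (b (a (l 16495288) (l 16680312)) (a (b (l 16334824) (l 16340088)) (l 16351704)))) (c (b (c (l 17976728) (l 17558280)) (c (l 17846904) (a (l 17282872) (l 17442864)))) (b (a (l 16848792) (l 17002048)) (a (b (l 16625120) (l 16441592)) (b (l 16810680) (l 16654224)))))), by decide +kernel⟩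

def k5_pm_012 : ∃ t, chk3 f_pm_012 t 11 15 1 = true :=
  ⟨(a (b (c (c (a (b (l 17214776) (c (l 17181104) (l 16834392))) (b (l 17432264) (l 17118024))) (a (b (l 16585312) (l 16393352)) (b (l 16839864) (l 16573088)))) (a (b (l 16346384) (c (l 16366584) (l 16340696))) (b (l 16335568) (c (l 16355008) (l 16325432))))) (c (b (c (a (b (c (l 17005656) (l 16630440)) (l 16440576)) (c (l 17171312) (b (l 16937488) (l 16810560)))) (a (b (l 16398192) (l 16401560)) (l 16389488))) (a (a (l 6) (c (b (l 16431944) (c (l 16514072) (l 16424400))) (c (l 16409600) (l 16396496)))) (c (c (b (l 16972184) (a (l 16702952) (l 17001936))) (b (l 16583840) (l 16422568))) (b (l 16392848) (c (l 16402424) (l 16388088)))))) (b (a (c (l 16373936) (l 16348840)) (c (l 16359912) (l 16331288))) (a (a (l 6) (c (a (l 16379328) (l 16375024)) (l 16352048))) (c (b (l 16364056) (c (l 16373960) (l 16360024))) (b (l 16336136) (l 16339504))))))) (b (c (c (a (b (l 17622240) (l 17487504)) (l 17737376)) (a (b (l 17064128) (l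 16836400)) (b (l 17262032) (l 17108888)))) (a (b (l 16330184) (l 16352600)) (b (l 16468464) (l 16329088)))) (c (c (b (a (c (l 17486200) (l 17152248)) (l 17546656)) (a (c (b (l 17345112) (l 17193680)) (b (l 16985056) (a (l 16773912) (l 16934872)))) (c (l 17549512) (b (l 17256520) (l 17153408))))) (b (a (l 16398408) (b (l 16972096) (l 16805416))) (a (b (l 16401656) (c (l 16391888) (l 16378088))) (c (b (l 16920976) (l 16591112)) (l 16371064))))) (b (a (c (l 16350480) (l 16318096)) (c (l 16346576) (l 16310192))) (a (c (b (l 16352600) (l 16375176)) (b (l 16321040) (l 16323192))) (c (b (l 16346248) (l 16346320)) (b (l 16310824) (l 16311528)))))))), by decide +kernel⟩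

def k6_pm_012 : ∃ t, chk3 f_pm_012 t 3 2 1 = true :=
  ⟨(a (b (l 2) (a (b (l 2) (c (l 18206312) (l 17748768))) (l 2))) (l 2)), by decide +kernel⟩

def k7_pm_012 : ∃ t, chk3 f_pm_012 t 6 6 1 = true :=
  ⟨(a (b (c (l 18216424) (a (l 17597832) (l 17704144))) (c (a (l 18064432) (l 18169584)) (a (b (l 17473392) (l 17358936)) (b (l 17618360) (l 17539728))))) (b (a (l 18020248) (l 2)) (a (c (l 18244488) (l 17708888)) (c (l 18293144) (l 17804984))))), by decide +kernel⟩

def k8_pm_012 : ∃ t, chk3 f_pm_012 t 6 7 1 = true :=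
  ⟨(a (b (c (a (b (l 17968520) (c (l 18082256) (l 17649752))) (b (l 18121664) (l 18065712))) (a (b (a (l 17141072) (l 17267120)) (a (b (l 16978248) (l 16845352)) (l 17012760))) (b (l 17434200) (a (l 17220888) (l 17351744))))) (a (c (b (c (l 17963008) (a (l 17335032) (l 17542304))) (c (b (l 17830352) (a (l 17441760) (l 17808024))) (b (a (l 17053000) (l 17364208)) (a (b (l 16873496) (c (l 17079784) (l 16688336))) (c (l 17360584) (l 16998432)))))) (b (a (b (l 16646024) (c (l 16771288) (l 16312616))) (b (l 16884488) (l 16474880))) (b (a (c (l 16486344) (l 16308488)) (c (l 16792808) (l 16314352))) (a (c (b (l 16391760) (l 16344152)) (l 16326768)) (c (b (l 16665560) (l 16428088)) (l 16307352)))))) (c (b (c (l 18197336) (l 17753648)) (c (l 18027872) (b (l 17626280) (a (l 17421392) (l 17604696))))) (b (a (b (l 17060792) (l 16739720)) (c (l 17383320) (l 16948944))) (c (b (a (l 17029128) (l 17219864)) (a (b (l 16906392) (l 16709240)) (l 16935040))) (b (a (l 16510856) (l 16734512)) (a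 (l 16317512) (l 16325672)))))))) (b (c (a (b (l 18231496) (l 18213040)) (l 18309936)) (a (b (l 17617288) (l 17397752)) (b (l 17756912) (l 17707760)))) (c (a (b (l 18172664) (c (l 18322696) (a (l 17804728) (l 17933656)))) (b (l 18313064) (c (l 18486200) (l 18094984)))) (a (b (a (c (l 17521232) (l 17113464)) (l 17452752)) (c (a (b (l 17388912) (l 17276496)) (l 17495608)) (a (b (l 16934896) (l 16576528)) (b (l 17114232) (l 16991264))))) (b (a (l 17573064) (l 17679824)) (a (c (l 17636640) (b (l 17274368) (l 17173800))) (c (l 17760800) (l 17379248)))))))), by decide +kernel⟩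

def k9_pm_012 : ∃ t, chk3 f_pm_012 t 7 3 1 = true :=
  ⟨(a (b (a (b (l 2) (l 18108232)) (l 2)) (b (a (c (l 18372880) (b (l 17854584) (l 17831672))) (l 18132464)) (a (c (b (l 18404360) (l 18418016)) (b (a (l 17762968) (l 17826112)) (a (l 17575152) (l 17765840)))) (c (l 18484272) (b (l 17901656) (l 17869416)))))) (b (l 2) (b (c (l 18479976) (l 18009768)) (c (l 18552576) (a (l 17975512) (l 18040096)))))), by decide +kernel⟩

theorem s10_pm_012 : ∃ t, chk3 f_pm_012 t 6 3 1 = true := ex3_b k7_pm_012 k8_pm_012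

theorem s11_pm_012 : ∃ t, chk3 f_pm_012 t 3 3 1 = true := ex3_a s10_pm_012 k9_pm_012

theorem s12_pm_012 : ∃ t, chk3 f_pm_012 t 3 1 1 = true := ex3_b k6_pm_012 s11_pm_012

theorem s13_pm_012 : ∃ t, chk3 f_pm_012 t 11 7 1 = true := ex3_b k4_pm_012 k5_pm_012

theorem s14_pm_012 : ∃ t, chk3 f_pm_012 t 11 3 1 = true := ex3_b k3_pm_012 s13_pm_012

theorem s15_pm_012 : ∃ t, chk3 f_pm_012 t 5 3 1 = true := ex3_a k2_pm_012 s14_pm_012

theorem s16_pm_012 : ∃ t, chk3 f_pm_012 t 2 3 1 = true := ex3_a k1_pm_012 s15_pm_012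

theorem s17_pm_012 : ∃ t, chk3 f_pm_012 t 2 1 1 = true := ex3_b k0_pm_012 s16_pm_012

theorem s18_pm_012 : ∃ t, chk3 f_pm_012 t 1 1 1 = true := ex3_a s17_pm_012 s12_pm_012

theorem c_pm_012 : CertF 0 536870912 536870912 536870912 201326592 134217728 true true false .pnp 0 1 2
    ndF0q0 ndF5q1 pcF2 cut_pm_012 Ext.none :=
  certF2 (fam := true) (s1 := true) (s2 := false) (a := 0) (b := 1) (c := 2) (cn := .pnp) (n1 := ndF0q0) (n2 := ndF5q1) (pc := pcF2) (cut := cut_pm_012) (xt := Ext.none) (P1 := 0) (W1 := 536870912) (P2 := 536870912) (W2 := 536870912) (P3 := 201326592) (W3 := 134217728)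
    rfl (fun _ => rfl) s18_pm_012

noncomputable def cut_pm_022 : Cut := Cut.of [[⟨3, 0, 0, 1449551462⟩], [⟨0, 0, 0, 67108864⟩, ⟨1, 1, 0, 67108864⟩, ⟨2, 1, 0, 67108864⟩]]

noncomputable def f_pm_022 : ℕ → ℕ → ℕ → ℕ → Bool := onCell 1073741824 536870912 1073741824 536870912 201326592 134217728
    (rowF 2 true true false .pp 0 2 2 (qsf 0 536870912 1073741824 536870912 2) ndF0q0 ndF5q2 pcF2 cut_pm_022 Ext.none)

def k0_pm_022 : ∃ t, chk3 f_pm_022 t 2 1 1 = true :=
  ⟨(b (a (l 6) (a (l 6) (b (b (a (b (a (a (l 6) (b (c (c (c (l 16441744) (l 16423696)) (b (l 16426800) (l 6))) (c (l 16402072) (l 16357640))) (l 6))) (c (c (b (b (c (a (l 16735072) (l 16916512)) (l 16416584)) (l 16426640)) (l 16520888)) (b (b (c (l 16402544) (l 16388696)) (l 16393728)) (l 16390760))) (b (c (b (l 16389248) (l 16367776)) (b (l 16341712) (l 16342568))) (c (l 16366848) (l 16343632))))) (a (l 6) (c (c (l 16489592) (l 16384216)) (b (l 16354872) (l 16354112))))) (a (c (b (c (b (c (l 16999984) (b (l 16583936)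 (l 16748016))) (l 16777864)) (b (c (l 16391680) (l 16376360)) (l 16378296))) (c (l 16777080) (l 16369224))) (b (b (c (b (l 16354464) (l 16353184)) (l 16345480)) (c (l 16351032) (l 16324600))) (l 16376976))) (b (c (c (b (c (l 17427336) (l 17069184)) (l 17193720)) (b (a (l 16384736) (l 16379680)) (l 16487376))) (b (c (b (l 16345312) (l 16343016)) (l 16311200)) (l 16366344))) (c (c (l 17121848) (l 16433312)) (l 16340040))))) (a (l 6) (c (b (c (l 16831504) (l 16347792)) (c (l 16867272) (l 16330376))) (b (l 16361776) (l 16310768))))) (a (l 6) (b (b (c (l 16527696) (l 16315920)) (l 6)) (l 6)))))) (l 6)), by decide +kernel⟩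

def k1_pm_022 : ∃ t, chk3 f_pm_022 t 6 2 1 = true :=
  ⟨(a (b (b (c (a (b (c (a (b (l 17499488) (l 17441632)) (l 17683824)) (a (b (b (c (l 17013136) (l 16677744)) (l 16819896)) (l 16783904)) (b (c (l 17248816) (l 16937528)) (l 17040584)))) (c (a (l 17364080) (l 17573088)) (a (l 16720920) (l 16971032)))) (b (c (l 17949504) (a (l 17060448) (l 17487032))) (c (l 17834712) (l 17287760)))) (a (b (b (c (a (b (l 16341608) (l 16338088)) (l 16343392)) (a (l 16303008) (l 16301072))) (c (l 16331320) (l 16295880))) (b (l 16327680) (l 16299648))) (b (b (a (c (b (l 16729856) (l 16724600)) (l 16306928)) (c (l 16973368) (l 16427640))) (a (l 16398792) (l 16523552))) (b (l 16337032) (l 16445360))))) (c (a (b (c (l 17383200) (l 16779856)) (l 16875432)) (b (c (l 17736472) (l 17201712)) (l 17394952))) (a (b (l 16288728) (l 16272944)) (b (l 16397400) (l 16352024))))) (b (c (a (b (l 16983240) (l 16965352)) (b (l 17338832) (l 17300992))) (b (a (l 16253856) (l 16327216)) (a (l 16225888) (l 16322904))))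 (c (a (b (l 16969424) (l 16995512)) (l 17278920)) (a (l 16362992) (l 16356344))))) (b (b (b (c (a (c (l 18221448) (l 17734824)) (l 18207232)) (a (a (c (l 17152456) (b (l 16672256) (l 16618352))) (c (l 17334904) (b (l 16890152) (l 16832584)))) (a (c (l 17496000) (l 17053488)) (c (l 17638400) (l 17226040))))) (c (a (l 17802168) (l 18095256)) (a (a (l 16798248) (l 16990960)) (a (l 17163064) (l 17317144))))) (c (a (b (l 17766712) (l 17683856)) (l 17950416)) (a (b (l 16812608) (l 16747704)) (b (l 17146056) (l 17066928))))) (b (c (a (l 17590216) (l 17804392)) (a (b (l 16702584) (l 16677096)) (l 16878328))) (a (c (l 17521624) (l 16674008)) (c (l 17716584) (l 16936384)))))), by decide +kernel⟩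

def k2_pm_022 : ∃ t, chk3 f_pm_022 t 6 3 1 = true :=
  ⟨(b (a (b (b (c (a (l 16859584) (l 17297960)) (l 133713795015)) (c (l 233035957111) (l 181495436935))) (c (l 333431583015) (l 301217743655))) (b (c (l 17603848) (a (l 16735288) (l 16955584))) (c (l 286724434247) (a (l 236793808071) (l 17041088))))) (a (l 1) (b (a (l 1) (l 358127433335)) (l 1)))), by decide +kernel⟩

def k3_pm_022 : ∃ t, chk3 f_pm_022 t 7 1 1 = true :=
  ⟨(b (a (b (a (c (b (a (l 18275896) (l 18339208)) (l 18117976)) (b (a (b (l 17559096) (l 17444968)) (l 17603568)) (b (l 17399664) (l 17316352)))) (b (c (l 18414456) (l 17733640)) (c (l 18238200) (l 17547192)))) (b (a (c (l 17970368) (l 17221432)) (c (l 18095632) (l 17410992))) (c (a (l 17871536) (l 17992160)) (a (l 17152336) (l 17328392))))) (b (b (c (l 18507520) (a (l 17864840) (l 17956680))) (c (l 18351968) (l 17751352))) (b (c (l 18222320) (l 17620896)) (c (l 18120392) (l 17530208))))) (b (a (b (c (l 17877064) (l 17222784)) (c (l 17860320) (l 17251928)))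 (b (c (l 18046952) (l 17478968)) (l 17734288))) (a (b (c (l 17895648) (l 288871615591)) (l 374234153495)) (b (l 17739736) (l 17782880))))), by decide +kernel⟩

theorem s4_pm_022 : ∃ t, chk3 f_pm_022 t 6 1 1 = true := ex3_b k1_pm_022 k2_pm_022

theorem s5_pm_022 : ∃ t, chk3 f_pm_022 t 3 1 1 = true := ex3_a s4_pm_022 k3_pm_022

theorem s6_pm_022 : ∃ t, chk3 f_pm_022 t 1 1 1 = true := ex3_a k0_pm_022 s5_pm_022

theorem c_pm_022 : CertF 0 536870912 1073741824 536870912 201326592 134217728 true true false .pp 0 2 2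
    ndF0q0 ndF5q2 pcF2 cut_pm_022 Ext.none :=
  certF2 (fam := true) (s1 := true) (s2 := false) (a := 0) (b := 2) (c := 2) (cn := .pp) (n1 := ndF0q0) (n2 := ndF5q2) (pc := pcF2) (cut := cut_pm_022) (xt := Ext.none) (P1 := 0) (W1 := 536870912) (P2 := 1073741824) (W2 := 536870912) (P3 := 201326592) (W3 := 134217728)
    rfl (fun _ => rfl) s6_pm_022

noncomputable def cut_pm_023 : Cut := Cut.of [[⟨3, 0, 0, 1449551462⟩]]

noncomputable def f_pm_023 : ℕ → ℕ → ℕ → ℕ → Bool := onCell 0 536870912 1073741824 536870912 201326592 134217728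
    (rowF 0 true true false .up 0 2 3 (qsf 0 536870912 1073741824 536870912 3) ndF0q0 ndF5q2 pcF3 cut_pm_023 Ext.none)

def k0_pm_023 : ∃ t, chk3 f_pm_023 t 1 1 1 = true :=
  ⟨(a (b (b (l 1) (a (l 1) (c (l 330211332903) (b (l 1) (l 301755965687))))) (b (a (b (l 1) (l 333431860487)) (b (c (l 329138075639) (l 325915459399)) (l 289945526743))) (a (b (l 336653007991) (l 319473553351)) (b (l 17870152) (l 17850624))))) (b (c (a (b (l 373698576439) (l 331823193895)) (b (a (l 343634763239) (l 18676912)) (a (l 18262400) (l 18197832)))) (a (b (b (l 1) (l 328063267463)) (a (l 326989589399) (l 344706992375))) (b (a (l 362960588791) (b (l 368866945351) (l 17988216))) (a (l 17861480) (l 17864704))))) (a (b (a (b (l 17927616) (l 17904072)) (l 17928464)) (a (l 17816816) (l 17776984))) (b (a (l 17890800) (b (l 17863704) (l 17742832))) (a (l 17672712) (b (b (l 17653088) (l 17591544)) (b (l 17527744) (a (l 17495928) (a (l 17446016) (b (l 17430176) (a (l 17403672) (b (l 17395280) (l 4))))))))))))),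 by decide +kernel⟩

theorem c_pm_023 : CertF 0 536870912 1073741824 536870912 201326592 134217728 true true false .up 0 2 3
    ndF0q0 ndF5q2 pcF3 cut_pm_023 Ext.none :=
  certF0 (fam := true) (s1 := true) (s2 := false) (a := 0) (b := 2) (c := 3) (cn := .up) (n1 := ndF0q0) (n2 := ndF5q2) (pc := pcF3) (cut := cut_pm_023) (xt := Ext.none) (P1 := 0) (W1 := 536870912) (P2 := 1073741824) (W2 := 536870912) (P3 := 201326592) (W3 := 134217728)
    rfl k0_pm_023

noncomputable def cut_pm_033 : Cut := Cut.of [[⟨3, 0, 0, 1449551462⟩]]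

noncomputable def f_pm_033 : ℕ → ℕ → ℕ → ℕ → Bool := onCell 1610612736 536870912 0 1230186008 201326592 134217728
    (rowF 2 true true false .pnn 0 3 3 (qsf 0 536870912 0 1230186008 3) ndF0q0 ndF5q3 pcF3 cut_pm_033 Ext.none)

def k0_pm_033 : ∃ t, chk3 f_pm_033 t 1 1 1 = true :=
  ⟨(a (b (l 1) (b (a (l 1) (b (l 1) (b (l 1) (l 18028864)))) (b (a (l 1) (b (l 17892368) (l 17847240))) (a (b (l 366718922919) (l 116537202279)) (b (l 17826944) (l 17820600)))))) (b (b (a (l 1) (l 4)) (a (l 1) (a (l 198677912471) (a (l 17519656) (l 4))))) (a (b (a (b (l 1) (b (l 17819520) (l 17804936))) (b (l 17913768) (b (l 17642904) (l 17671184)))) (b (b (l 17700048) (l 17674944)) (b (l 17668184) (a (l 17724160) (l 17639784))))) (a (b (b (l 17513000) (l 17544096)) (b (l 17530744) (b (l 17525328) (l 17538536)))) (b (a (b (l 17440888) (l 17436680)) (a (l 17397192) (a (l 17389632) (b (l 4) (l 17385800))))) (a (b (l 17444888) (l 17573992)) (b (a (l 17401432) (a (l 17379400) (l 17365584))) (a (l 17405928)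 (a (l 17380616) (l 17361072)))))))))), by decide +kernel⟩

theorem c_pm_033 : CertF 0 536870912 0 1230186008 201326592 134217728 true true false .pnn 0 3 3
    ndF0q0 ndF5q3 pcF3 cut_pm_033 Ext.none :=
  certF2 (fam := true) (s1 := true) (s2 := false) (a := 0) (b := 3) (c := 3) (cn := .pnn) (n1 := ndF0q0) (n2 := ndF5q3) (pc := pcF3) (cut := cut_pm_033) (xt := Ext.none) (P1 := 0) (W1 := 536870912) (P2 := 0) (W2 := 1230186008) (P3 := 201326592) (W3 := 134217728)
    rfl (fun _ => rfl) k0_pm_033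

noncomputable def cut_pm_101 : Cut := Cut.of [[⟨3, 0, 0, 1449551462⟩]]

noncomputable def f_pm_101 : ℕ → ℕ → ℕ → ℕ → Bool := onCell 536870912 536870912 536870912 536870912 201326592 134217728
    (rowF 1 true true false .npn 1 0 1 (qsf 536870912 536870912 0 536870912 1) ndF0q1 ndF5q0 pcF1 cut_pm_101 Ext.none)

def k0_pm_101 : ∃ t, chk3 f_pm_101 t 1 1 1 = true :=
  ⟨(b (a (b (l 6) (a (l 6) (b (l 6) (a (l 6) (c (l 17389280) (l 17251968)))))) (b (l 1) (a (b (l 1) (a (l 206193231975) (l 1))) (l 1)))) (a (b (a (l 6) (a (b (c (l 17371656) (l 17233896)) (c (l 17487552) (l 17315832))) (b (c (l 17488968) (l 17325864)) (l 17496392)))) (a (b (a (l 6) (c (l 17524016) (l 17309544))) (a (b (l 17392696) (l 17420576)) (c (l 17651368) (l 17356280)))) (b (a (c (l 17608304) (l 17390560)) (l 17585912)) (a (l 17587088) (l 17668112))))) (b (a (a (b (l 17513512) (l 17587016)) (b (l 17723960) (l 17709528))) (a (b (l 1) (l 17859792)) (l 1))) (a (a (b (l 17669120) (l 17748248)) (b (l 17756744) (l 17860872)))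 (a (b (l 17926280) (l 18028104)) (c (l 18362960) (l 18022280))))))), by decide +kernel⟩

theorem c_pm_101 : CertF 536870912 536870912 0 536870912 201326592 134217728 true true false .npn 1 0 1
    ndF0q1 ndF5q0 pcF1 cut_pm_101 Ext.none :=
  certF1 (fam := true) (s1 := true) (s2 := false) (a := 1) (b := 0) (c := 1) (cn := .npn) (n1 := ndF0q1) (n2 := ndF5q0) (pc := pcF1) (cut := cut_pm_101) (xt := Ext.none) (P1 := 536870912) (W1 := 536870912) (P2 := 0) (W2 := 536870912) (P3 := 201326592) (W3 := 134217728)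
    rfl (fun _ => rfl) k0_pm_101

noncomputable def cut_pm_102 : Cut := Cut.of [[⟨3, 0, 0, 1449551462⟩]]

noncomputable def f_pm_102 : ℕ → ℕ → ℕ → ℕ → Bool := onCell 536870912 536870912 1073741824 536870912 201326592 134217728
    (rowF 1 true true false .npp 1 0 2 (qsf 536870912 536870912 0 536870912 2) ndF0q1 ndF5q0 pcF2 cut_pm_102 Ext.none)

def k0_pm_102 : ∃ t, chk3 f_pm_102 t 1 1 1 = true :=
  ⟨(a (b (a (b (a (b (c (l 17823952) (a (l 17355912) (l 17428744))) (b (l 177806454199) (l 2))) (b (c (l 17937504) (l 17526520)) (b (l 17788504) (b (l 17818360) (l 17837888))))) (b (b (b (a (l 2) (l 17856736)) (l 2)) (l 2)) (l 2))) (b (a (b (c (l 18038280) (l 17640136)) (b (l 17881032) (b (l 17903424) (l 17918224)))) (b (l 17877112) (b (l 17966272) (b (l 17980864) (l 17990672))))) (b (b (b (a (l 17932528) (l 18000216)) (a (l 17944928) (l 18008272))) (a (l 17960528) (l 18018648))) (a (l 17999176) (l 18045296))))) (a (l 2) (b (b (a (l 2) (l 18079072)) (l 2)) (l 2)))) (b (b (a (b (a (l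 18036192) (l 18127944)) (b (a (l 18044232) (l 18115760)) (a (l 18050704) (l 18113768)))) (b (a (l 18229088) (l 18370848)) (b (l 18263304) (l 18239728)))) (a (b (b (a (l 18062960) (l 18114224)) (l 18101424)) (a (l 18085968) (l 18119936))) (b (l 18215128) (l 18178520)))) (b (a (b (a (l 18107752) (l 18125744)) (a (l 18133328) (l 18130976))) (b (l 18145776) (l 18113416))) (a (a (l 2) (l 18163104)) (b (l 18074768) (l 18027688)))))), by decide +kernel⟩

theorem c_pm_102 : CertF 536870912 536870912 0 536870912 201326592 134217728 true true false .npp 1 0 2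
    ndF0q1 ndF5q0 pcF2 cut_pm_102 Ext.none :=
  certF1 (fam := true) (s1 := true) (s2 := false) (a := 1) (b := 0) (c := 2) (cn := .npp) (n1 := ndF0q1) (n2 := ndF5q0) (pc := pcF2) (cut := cut_pm_102) (xt := Ext.none) (P1 := 536870912) (W1 := 536870912) (P2 := 0) (W2 := 536870912) (P3 := 201326592) (W3 := 134217728)
    rfl (fun _ => rfl) k0_pm_102

noncomputable def cut_pm_112 : Cut := Cut.of [[⟨3, 0, 0, 1449551462⟩]]

noncomputable def f_pm_112 : ℕ → ℕ → ℕ → ℕ → Bool := onCell 536870912 536870912 1073741824 536870912 201326592 134217728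
    (rowF 1 true true false .dn 1 1 2 (qsf 536870912 536870912 536870912 536870912 2) ndF0q1 ndF5q1 pcF2 cut_pm_112 Ext.none)

def k0_pm_112 : ∃ t, chk3 f_pm_112 t 1 1 1 = true :=
  ⟨(a (b (a (b (a (b (c (l 17821008) (l 17393112)) (b (l 17676512) (b (l 17713152) (c (l 17969920) (l 17504080))))) (b (l 171296818327) (b (l 17786616) (b (l 17816832) (l 17836184))))) (b (b (b (a (l 17759488) (l 17854840)) (a (c (l 18017200) (b (l 17537568) (l 17546352))) (c (l 18088864) (l 17653848)))) (a (l 17742424) (l 17890872))) (a (c (l 18106296) (l 17624304)) (l 17937448)))) (b (b (l 1) (b (l 1) (b (l 1) (l 221764102071)))) (b (b (b (l 17967864) (a (l 17943040) (l 1))) (l 17989680)) (a (l 17991952) (l 18039416))))) (b (a (b (a (c (l 18191544) (l 17706064)) (l 17999992)) (a (c (l 18269392) (l 17793528)) (l 18055128))) (b (l 18077744) (l 18089000))) (a (a (b (b (l 18108536) (l 18170360)) (l 18262960)) (b (l 18134528) (l 18229088))) (b (l 18348144) (l 18197400))))) (b (a (b (l 1) (b (l 1) (l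 18103944))) (l 1)) (b (a (b (l 18115536) (l 18124448)) (l 18285760)) (a (b (l 18133800) (l 18138008)) (l 18144040))))), by decide +kernel⟩

theorem c_pm_112 : CertF 536870912 536870912 536870912 536870912 201326592 134217728 true true false .dn 1 1 2
    ndF0q1 ndF5q1 pcF2 cut_pm_112 Ext.none :=
  certF1 (fam := true) (s1 := true) (s2 := false) (a := 1) (b := 1) (c := 2) (cn := .dn) (n1 := ndF0q1) (n2 := ndF5q1) (pc := pcF2) (cut := cut_pm_112) (xt := Ext.none) (P1 := 536870912) (W1 := 536870912) (P2 := 536870912) (W2 := 536870912) (P3 := 201326592) (W3 := 134217728)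
    rfl (fun _ => rfl) k0_pm_112

noncomputable def cut_pm_113 : Cut := Cut.of [[⟨3, 0, 0, 1449551462⟩]]

noncomputable def f_pm_113 : ℕ → ℕ → ℕ → ℕ → Bool := onCell 536870912 536870912 1610612736 536870912 201326592 134217728
    (rowF 1 true true false .nn 1 1 3 (qsf 536870912 536870912 536870912 536870912 3) ndF0q1 ndF5q1 pcF3 cut_pm_113 Ext.none)

def k0_pm_113 : ∃ t, chk3 f_pm_113 t 1 1 1 = true :=
  ⟨(b (a (b (a (c (a (l 18619544) (l 18427960)) (a (b (l 18148056) (l 18269720)) (l 18102752))) (a (c (l 18261816) (l 18011856)) (b (l 18010464) (l 18069064)))) (a (a (l 2) (l 259950225351)) (b (a (l 18266168) (l 18123088)) (a (l 18341168) (l 18174624))))) (b (a (b (a (l 17943144) (l 17912840)) (l 17956696)) (b (a (l 17899512) (l 17881952)) (a (l 17887752) (l 17822312)))) (a (b (l 17972904) (a (l 18038216) (l 17924896))) (a (b (l 17854296) (l 17815736)) (l 4))))) (a (b (a (l 2) (b (a (l 2) (l 18218200)) (l 2))) (l 2)) (a (b (b (l 237937461703) (l 17978240)) (l 4)) (l 4)))),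 by decide +kernel⟩

theorem c_pm_113 : CertF 536870912 536870912 536870912 536870912 201326592 134217728 true true false .nn 1 1 3
    ndF0q1 ndF5q1 pcF3 cut_pm_113 Ext.none :=
  certF1 (fam := true) (s1 := true) (s2 := false) (a := 1) (b := 1) (c := 3) (cn := .nn) (n1 := ndF0q1) (n2 := ndF5q1) (pc := pcF3) (cut := cut_pm_113) (xt := Ext.none) (P1 := 536870912) (W1 := 536870912) (P2 := 536870912) (W2 := 536870912) (P3 := 201326592) (W3 := 134217728)
    rfl (fun _ => rfl) k0_pm_113

noncomputable def cut_pm_123 : Cut := Cut.of [[⟨3, 0, 0, 1449551462⟩]]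

noncomputable def f_pm_123 : ℕ → ℕ → ℕ → ℕ → Bool := onCell 536870912 536870912 1610612736 536870912 201326592 134217728
    (rowF 1 true true false .npn 1 2 3 (qsf 536870912 536870912 1073741824 536870912 3) ndF0q1 ndF5q2 pcF3 cut_pm_123 Ext.none)

def k0_pm_123 : ∃ t, chk3 f_pm_123 t 1 1 1 = true :=
  ⟨(b (a (a (b (c (a (l 18475200) (l 18576512)) (a (b (l 18149312) (l 18039800)) (l 368867267527))) (a (l 18114688) (b (l 18170696) (l 18017912)))) (b (a (c (l 18688728) (l 377457506135)) (l 1)) (b (a (l 18267608) (l 310348655719)) (a (l 18087728) (l 18176064))))) (b (l 1) (a (b (l 1) (a (l 18291472) (l 1))) (l 1)))) (b (a (a (b (l 17850528) (a (l 17701104) (l 17723888))) (b (a (l 17915944) (l 17974576)) (a (l 17751904) (l 17784544)))) (a (b (c (l 18198816) (l 17967288)) (a (l 17832752) (l 4))) (l 4))) (a (a (b (l 17828272) (b (l 17472792) (b (l 17422656) (l 4)))) (b (l 17754024) (l 4))) (b (l 4) (l 4))))), by decide +kernel⟩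

theorem c_pm_123 : CertF 536870912 536870912 1073741824 536870912 201326592 134217728 true true false .npn 1 2 3
    ndF0q1 ndF5q2 pcF3 cut_pm_123 Ext.none :=
  certF1 (fam := true) (s1 := true) (s2 := false) (a := 1) (b := 2) (c := 3) (cn := .npn) (n1 := ndF0q1) (n2 := ndF5q2) (pc := pcF3) (cut := cut_pm_123) (xt := Ext.none) (P1 := 536870912) (W1 := 536870912) (P2 := 1073741824) (W2 := 536870912) (P3 := 201326592) (W3 := 134217728)
    rfl (fun _ => rfl) k0_pm_123

noncomputable def cut_pm_133 : Cut := Cut.of [[⟨3, 0, 0, 1449551462⟩]]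

noncomputable def f_pm_133 : ℕ → ℕ → ℕ → ℕ → Bool := onCell 536870912 536870912 0 1230186008 201326592 134217728
    (rowF 0 true true false .dn 1 3 3 (qsf 536870912 536870912 0 1230186008 3) ndF0q1 ndF5q3 pcF3 cut_pm_133 Ext.none)

def k0_pm_133 : ∃ t, chk3 f_pm_133 t 1 1 1 = true :=
  ⟨(b (l 2) (b (l 2) (a (b (l 2) (l 4)) (l 2)))), by decide +kernel⟩

theorem c_pm_133 : CertF 536870912 536870912 0 1230186008 201326592 134217728 true true false .dn 1 3 3
    ndF0q1 ndF5q3 pcF3 cut_pm_133 Ext.none :=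
  certF0 (fam := true) (s1 := true) (s2 := false) (a := 1) (b := 3) (c := 3) (cn := .dn) (n1 := ndF0q1) (n2 := ndF5q3) (pc := pcF3) (cut := cut_pm_133) (xt := Ext.none) (P1 := 536870912) (W1 := 536870912) (P2 := 0) (W2 := 1230186008) (P3 := 201326592) (W3 := 134217728)
    rfl k0_pm_133

noncomputable def cut_pm_202 : Cut := Cut.of [[⟨3, 0, 0, 1449551462⟩]]

noncomputable def f_pm_202 : ℕ → ℕ → ℕ → ℕ → Bool := onCell 0 536870912 0 536870912 201326592 134217728
    (rowF 0 true true false .pp 2 0 2 (qsf 0 536870912 0 536870912 2) ndF0q2 ndF5q0 pcF2 cut_pm_202 Ext.none)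

def k0_pm_202 : ∃ t, chk3 f_pm_202 t 1 1 1 = true :=
  ⟨(a (l 4) (a (b (b (b (a (l 18315024) (l 18384376)) (l 18223408)) (b (l 18096016) (l 17981224))) (l 4)) (b (b (b (a (l 18373352) (l 18467232)) (a (l 18314432) (l 18349496))) (b (l 18244136) (l 18155408))) (b (b (l 18176400) (a (l 17937192) (l 18039488))) (a (l 4) (b (l 17960736) (l 17879480))))))), by decide +kernel⟩

theorem c_pm_202 : CertF 0 536870912 0 536870912 201326592 134217728 true true false .pp 2 0 2
    ndF0q2 ndF5q0 pcF2 cut_pm_202 Ext.none :=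
  certF0 (fam := true) (s1 := true) (s2 := false) (a := 2) (b := 0) (c := 2) (cn := .pp) (n1 := ndF0q2) (n2 := ndF5q0) (pc := pcF2) (cut := cut_pm_202) (xt := Ext.none) (P1 := 0) (W1 := 536870912) (P2 := 0) (W2 := 536870912) (P3 := 201326592) (W3 := 134217728)
    rfl k0_pm_202

noncomputable def cut_pm_203 : Cut := Cut.of [[⟨3, 0, 0, 1449551462⟩]]

noncomputable def f_pm_203 : ℕ → ℕ → ℕ → ℕ → Bool := onCell 0 536870912 1610612736 536870912 201326592 134217728
    (rowF 1 true true false .up 2 0 3 (qsf 0 536870912 0 536870912 3) ndF0q2 ndF5q0 pcF3 cut_pm_203 Ext.none)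

def k0_pm_203 : ∃ t, chk3 f_pm_203 t 1 1 1 = true :=
  ⟨(a (l 4) (b (l 4) (l 2))), by decide +kernel⟩

theorem c_pm_203 : CertF 0 536870912 0 536870912 201326592 134217728 true true false .up 2 0 3
    ndF0q2 ndF5q0 pcF3 cut_pm_203 Ext.none :=
  certF1 (fam := true) (s1 := true) (s2 := false) (a := 2) (b := 0) (c := 3) (cn := .up) (n1 := ndF0q2) (n2 := ndF5q0) (pc := pcF3) (cut := cut_pm_203) (xt := Ext.none) (P1 := 0) (W1 := 536870912) (P2 := 0) (W2 := 536870912) (P3 := 201326592) (W3 := 134217728)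
    rfl (fun _ => rfl) k0_pm_203

noncomputable def cut_pm_213 : Cut := Cut.of [[⟨3, 0, 0, 1449551462⟩]]

noncomputable def f_pm_213 : ℕ → ℕ → ℕ → ℕ → Bool := onCell 0 536870912 536870912 536870912 201326592 134217728
    (rowF 0 true true false .pnn 2 1 3 (qsf 0 536870912 536870912 536870912 3) ndF0q2 ndF5q1 pcF3 cut_pm_213 Ext.none)

def k0_pm_213 : ∃ t, chk3 f_pm_213 t 1 1 1 = true :=
  ⟨(a (l 4) (b (l 4) (l 4))), by decide +kernel⟩

theorem c_pm_213 : CertF 0 536870912 536870912 536870912 201326592 134217728 true true false .pnn 2 1 3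
    ndF0q2 ndF5q1 pcF3 cut_pm_213 Ext.none :=
  certF0 (fam := true) (s1 := true) (s2 := false) (a := 2) (b := 1) (c := 3) (cn := .pnn) (n1 := ndF0q2) (n2 := ndF5q1) (pc := pcF3) (cut := cut_pm_213) (xt := Ext.none) (P1 := 0) (W1 := 536870912) (P2 := 536870912) (W2 := 536870912) (P3 := 201326592) (W3 := 134217728)
    rfl k0_pm_213

noncomputable def cut_mm_001 : Cut := Cut.of [[⟨3, 0, 0, 1449551462⟩]]

noncomputable def f_mm_001 : ℕ → ℕ → ℕ → ℕ → Bool := onCell 0 536870912 0 536870912 201326592 134217728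
    (rowF 0 true false false .up 0 0 1 (qsf 0 536870912 0 536870912 1) ndF0q0 ndF5q0 pcF1 cut_mm_001 Ext.none)

def k0_mm_001 : ∃ t, chk3 f_mm_001 t 1 1 1 = true :=
  ⟨(l 4), by decide +kernel⟩

theorem c_mm_001 : CertF 0 536870912 0 536870912 201326592 134217728 true false false .up 0 0 1
    ndF0q0 ndF5q0 pcF1 cut_mm_001 Ext.none :=
  certF0 (fam := true) (s1 := false) (s2 := false) (a := 0) (b := 0) (c := 1) (cn := .up) (n1 := ndF0q0) (n2 := ndF5q0) (pc := pcF1) (cut := cut_mm_001) (xt := Ext.none) (P1 := 0) (W1 := 536870912) (P2 := 0) (W2 := 536870912) (P3 := 201326592) (W3 := 134217728)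
    rfl k0_mm_001

noncomputable def cut_mm_011 : Cut := Cut.of [[⟨3, 0, 0, 1449551462⟩]]

noncomputable def f_mm_011 : ℕ → ℕ → ℕ → ℕ → Bool := onCell 0 536870912 536870912 536870912 201326592 134217728
    (rowF 0 true false false .pnn 0 1 1 (qsf 0 536870912 536870912 536870912 1) ndF0q0 ndF5q1 pcF1 cut_mm_011 Ext.none)

def k0_mm_011 : ∃ t, chk3 f_mm_011 t 1 1 1 = true :=
  ⟨(l 4), by decide +kernel⟩

theorem c_mm_011 : CertF 0 536870912 536870912 536870912 201326592 134217728 true false false .pnn 0 1 1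
    ndF0q0 ndF5q1 pcF1 cut_mm_011 Ext.none :=
  certF0 (fam := true) (s1 := false) (s2 := false) (a := 0) (b := 1) (c := 1) (cn := .pnn) (n1 := ndF0q0) (n2 := ndF5q1) (pc := pcF1) (cut := cut_mm_011) (xt := Ext.none) (P1 := 0) (W1 := 536870912) (P2 := 536870912) (W2 := 536870912) (P3 := 201326592) (W3 := 134217728)
    rfl k0_mm_011

noncomputable def cut_mm_012 : Cut := Cut.of [[⟨3, 0, 0, 1449551462⟩]]

noncomputable def f_mm_012 : ℕ → ℕ → ℕ → ℕ → Bool := onCell 0 536870912 536870912 536870912 201326592 134217728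
    (rowF 0 true false false .pnp 0 1 2 (qsf 0 536870912 536870912 536870912 2) ndF0q0 ndF5q1 pcF2 cut_mm_012 Ext.none)

def k0_mm_012 : ∃ t, chk3 f_mm_012 t 1 1 1 = true :=
  ⟨(l 4), by decide +kernel⟩

theorem c_mm_012 : CertF 0 536870912 536870912 536870912 201326592 134217728 true false false .pnp 0 1 2
    ndF0q0 ndF5q1 pcF2 cut_mm_012 Ext.none :=
  certF0 (fam := true) (s1 := false) (s2 := false) (a := 0) (b := 1) (c := 2) (cn := .pnp) (n1 := ndF0q0) (n2 := ndF5q1) (pc := pcF2) (cut := cut_mm_012) (xt := Ext.none) (P1 := 0) (W1 := 536870912) (P2 := 536870912) (W2 := 536870912) (P3 := 201326592) (W3 := 134217728)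
    rfl k0_mm_012

noncomputable def cut_mm_022 : Cut := Cut.of [[⟨3, 0, 0, 1449551462⟩]]

noncomputable def f_mm_022 : ℕ → ℕ → ℕ → ℕ → Bool := onCell 0 536870912 1073741824 536870912 201326592 134217728
    (rowF 0 true false false .pp 0 2 2 (qsf 0 536870912 1073741824 536870912 2) ndF0q0 ndF5q2 pcF2 cut_mm_022 Ext.none)

def k0_mm_022 : ∃ t, chk3 f_mm_022 t 1 1 1 = true :=
  ⟨(l 4), by decide +kernel⟩

theorem c_mm_022 : CertF 0 536870912 1073741824 536870912 201326592 134217728 true false false .pp 0 2 2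
    ndF0q0 ndF5q2 pcF2 cut_mm_022 Ext.none :=
  certF0 (fam := true) (s1 := false) (s2 := false) (a := 0) (b := 2) (c := 2) (cn := .pp) (n1 := ndF0q0) (n2 := ndF5q2) (pc := pcF2) (cut := cut_mm_022) (xt := Ext.none) (P1 := 0) (W1 := 536870912) (P2 := 1073741824) (W2 := 536870912) (P3 := 201326592) (W3 := 134217728)
    rfl k0_mm_022

noncomputable def cut_mm_023 : Cut := Cut.of [[⟨3, 0, 0, 1449551462⟩]]

noncomputable def f_mm_023 : ℕ → ℕ → ℕ → ℕ → Bool := onCell 0 536870912 1073741824 536870912 201326592 134217728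
    (rowF 0 true false false .up 0 2 3 (qsf 0 536870912 1073741824 536870912 3) ndF0q0 ndF5q2 pcF3 cut_mm_023 Ext.none)

def k0_mm_023 : ∃ t, chk3 f_mm_023 t 1 1 1 = true :=
  ⟨(l 4), by decide +kernel⟩

theorem c_mm_023 : CertF 0 536870912 1073741824 536870912 201326592 134217728 true false false .up 0 2 3
    ndF0q0 ndF5q2 pcF3 cut_mm_023 Ext.none :=
  certF0 (fam := true) (s1 := false) (s2 := false) (a := 0) (b := 2) (c := 3) (cn := .up) (n1 := ndF0q0) (n2 := ndF5q2) (pc := pcF3) (cut := cut_mm_023) (xt := Ext.none) (P1 := 0) (W1 := 536870912) (P2 := 1073741824) (W2 := 536870912) (P3 := 201326592) (W3 := 134217728)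
    rfl k0_mm_023

noncomputable def cut_mm_033 : Cut := Cut.of [[⟨3, 0, 0, 1449551462⟩]]

noncomputable def f_mm_033 : ℕ → ℕ → ℕ → ℕ → Bool := onCell 0 536870912 0 1230186008 201326592 134217728
    (rowF 0 true false false .pnn 0 3 3 (qsf 0 536870912 0 1230186008 3) ndF0q0 ndF5q3 pcF3 cut_mm_033 Ext.none)

def k0_mm_033 : ∃ t, chk3 f_mm_033 t 1 1 1 = true :=
  ⟨(l 4), by decide +kernel⟩

theorem c_mm_033 : CertF 0 536870912 0 1230186008 201326592 134217728 true false false .pnn 0 3 3
    ndF0q0 ndF5q3 pcF3 cut_mm_033 Ext.none :=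
  certF0 (fam := true) (s1 := false) (s2 := false) (a := 0) (b := 3) (c := 3) (cn := .pnn) (n1 := ndF0q0) (n2 := ndF5q3) (pc := pcF3) (cut := cut_mm_033) (xt := Ext.none) (P1 := 0) (W1 := 536870912) (P2 := 0) (W2 := 1230186008) (P3 := 201326592) (W3 := 134217728)
    rfl k0_mm_033

noncomputable def cut_mm_101 : Cut := Cut.of [[⟨3, 0, 0, 1449551462⟩]]

noncomputable def f_mm_101 : ℕ → ℕ → ℕ → ℕ → Bool := onCell 536870912 536870912 0 536870912 201326592 134217728
    (rowF 0 true false false .npn 1 0 1 (qsf 536870912 536870912 0 536870912 1) ndF0q1 ndF5q0 pcF1 cut_mm_101 Ext.none)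

def k0_mm_101 : ∃ t, chk3 f_mm_101 t 1 1 1 = true :=
  ⟨(l 4), by decide +kernel⟩

theorem c_mm_101 : CertF 536870912 536870912 0 536870912 201326592 134217728 true false false .npn 1 0 1
    ndF0q1 ndF5q0 pcF1 cut_mm_101 Ext.none :=
  certF0 (fam := true) (s1 := false) (s2 := false) (a := 1) (b := 0) (c := 1) (cn := .npn) (n1 := ndF0q1) (n2 := ndF5q0) (pc := pcF1) (cut := cut_mm_101) (xt := Ext.none) (P1 := 536870912) (W1 := 536870912) (P2 := 0) (W2 := 536870912) (P3 := 201326592) (W3 := 134217728)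
    rfl k0_mm_101

noncomputable def cut_mm_102 : Cut := Cut.of [[⟨3, 0, 0, 1449551462⟩]]

noncomputable def f_mm_102 : ℕ → ℕ → ℕ → ℕ → Bool := onCell 536870912 536870912 0 536870912 201326592 134217728
    (rowF 0 true false false .npp 1 0 2 (qsf 536870912 536870912 0 536870912 2) ndF0q1 ndF5q0 pcF2 cut_mm_102 Ext.none)

def k0_mm_102 : ∃ t, chk3 f_mm_102 t 1 1 1 = true :=
  ⟨(l 4), by decide +kernel⟩

theorem c_mm_102 : CertF 536870912 536870912 0 536870912 201326592 134217728 true false false .npp 1 0 2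
    ndF0q1 ndF5q0 pcF2 cut_mm_102 Ext.none :=
  certF0 (fam := true) (s1 := false) (s2 := false) (a := 1) (b := 0) (c := 2) (cn := .npp) (n1 := ndF0q1) (n2 := ndF5q0) (pc := pcF2) (cut := cut_mm_102) (xt := Ext.none) (P1 := 536870912) (W1 := 536870912) (P2 := 0) (W2 := 536870912) (P3 := 201326592) (W3 := 134217728)
    rfl k0_mm_102

noncomputable def cut_mm_112 : Cut := Cut.of [[⟨3, 0, 0, 1449551462⟩]]

noncomputable def f_mm_112 : ℕ → ℕ → ℕ → ℕ → Bool := onCell 536870912 536870912 536870912 536870912 201326592 134217728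
    (rowF 0 true false false .dn 1 1 2 (qsf 536870912 536870912 536870912 536870912 2) ndF0q1 ndF5q1 pcF2 cut_mm_112 Ext.none)

def k0_mm_112 : ∃ t, chk3 f_mm_112 t 1 1 1 = true :=
  ⟨(l 4), by decide +kernel⟩

theorem c_mm_112 : CertF 536870912 536870912 536870912 536870912 201326592 134217728 true false false .dn 1 1 2
    ndF0q1 ndF5q1 pcF2 cut_mm_112 Ext.none :=
  certF0 (fam := true) (s1 := false) (s2 := false) (a := 1) (b := 1) (c := 2) (cn := .dn) (n1 := ndF0q1) (n2 := ndF5q1) (pc := pcF2) (cut := cut_mm_112) (xt := Ext.none) (P1 := 536870912) (W1 := 536870912) (P2 := 536870912) (W2 := 536870912) (P3 := 201326592) (W3 := 134217728)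
    rfl k0_mm_112

noncomputable def cut_mm_113 : Cut := Cut.of [[⟨3, 0, 0, 1449551462⟩]]

noncomputable def f_mm_113 : ℕ → ℕ → ℕ → ℕ → Bool := onCell 536870912 536870912 536870912 536870912 201326592 134217728
    (rowF 0 true false false .nn 1 1 3 (qsf 536870912 536870912 536870912 536870912 3) ndF0q1 ndF5q1 pcF3 cut_mm_113 Ext.none)

def k0_mm_113 : ∃ t, chk3 f_mm_113 t 1 1 1 = true :=
  ⟨(l 4), by decide +kernel⟩

theorem c_mm_113 : CertF 536870912 536870912 536870912 536870912 201326592 134217728 true false false .nn 1 1 3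
    ndF0q1 ndF5q1 pcF3 cut_mm_113 Ext.none :=
  certF0 (fam := true) (s1 := false) (s2 := false) (a := 1) (b := 1) (c := 3) (cn := .nn) (n1 := ndF0q1) (n2 := ndF5q1) (pc := pcF3) (cut := cut_mm_113) (xt := Ext.none) (P1 := 536870912) (W1 := 536870912) (P2 := 536870912) (W2 := 536870912) (P3 := 201326592) (W3 := 134217728)
    rfl k0_mm_113

noncomputable def cut_mm_123 : Cut := Cut.of [[⟨3, 0, 0, 1449551462⟩]]

noncomputable def f_mm_123 : ℕ → ℕ → ℕ → ℕ → Bool := onCell 536870912 536870912 1073741824 536870912 201326592 134217728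
    (rowF 0 true false false .npn 1 2 3 (qsf 536870912 536870912 1073741824 536870912 3) ndF0q1 ndF5q2 pcF3 cut_mm_123 Ext.none)

def k0_mm_123 : ∃ t, chk3 f_mm_123 t 1 1 1 = true :=
  ⟨(l 4), by decide +kernel⟩

theorem c_mm_123 : CertF 536870912 536870912 1073741824 536870912 201326592 134217728 true false false .npn 1 2 3
    ndF0q1 ndF5q2 pcF3 cut_mm_123 Ext.none :=
  certF0 (fam := true) (s1 := false) (s2 := false) (a := 1) (b := 2) (c := 3) (cn := .npn) (n1 := ndF0q1) (n2 := ndF5q2) (pc := pcF3) (cut := cut_mm_123) (xt := Ext.none) (P1 := 536870912) (W1 := 536870912) (P2 := 1073741824) (W2 := 536870912) (P3 := 201326592) (W3 := 134217728)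
    rfl k0_mm_123

noncomputable def cut_mm_133 : Cut := Cut.of [[⟨3, 0, 0, 1449551462⟩]]

noncomputable def f_mm_133 : ℕ → ℕ → ℕ → ℕ → Bool := onCell 536870912 536870912 0 1230186008 201326592 134217728
    (rowF 0 true false false .dn 1 3 3 (qsf 536870912 536870912 0 1230186008 3) ndF0q1 ndF5q3 pcF3 cut_mm_133 Ext.none)

def k0_mm_133 : ∃ t, chk3 f_mm_133 t 1 1 1 = true :=
  ⟨(l 4), by decide +kernel⟩

theorem c_mm_133 : CertF 536870912 536870912 0 1230186008 201326592 134217728 true false false .dn 1 3 3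
    ndF0q1 ndF5q3 pcF3 cut_mm_133 Ext.none :=
  certF0 (fam := true) (s1 := false) (s2 := false) (a := 1) (b := 3) (c := 3) (cn := .dn) (n1 := ndF0q1) (n2 := ndF5q3) (pc := pcF3) (cut := cut_mm_133) (xt := Ext.none) (P1 := 536870912) (W1 := 536870912) (P2 := 0) (W2 := 1230186008) (P3 := 201326592) (W3 := 134217728)
    rfl k0_mm_133

noncomputable def cut_mm_202 : Cut := Cut.of [[⟨3, 0, 0, 1449551462⟩]]

noncomputable def f_mm_202 : ℕ → ℕ → ℕ → ℕ → Bool := onCell 0 536870912 0 536870912 201326592 134217728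
    (rowF 0 true false false .pp 2 0 2 (qsf 0 536870912 0 536870912 2) ndF0q2 ndF5q0 pcF2 cut_mm_202 Ext.none)

def k0_mm_202 : ∃ t, chk3 f_mm_202 t 1 1 1 = true :=
  ⟨(l 4), by decide +kernel⟩

theorem c_mm_202 : CertF 0 536870912 0 536870912 201326592 134217728 true false false .pp 2 0 2
    ndF0q2 ndF5q0 pcF2 cut_mm_202 Ext.none :=
  certF0 (fam := true) (s1 := false) (s2 := false) (a := 2) (b := 0) (c := 2) (cn := .pp) (n1 := ndF0q2) (n2 := ndF5q0) (pc := pcF2) (cut := cut_mm_202) (xt := Ext.none) (P1 := 0) (W1 := 536870912) (P2 := 0) (W2 := 536870912) (P3 := 201326592) (W3 := 134217728)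
    rfl k0_mm_202

noncomputable def cut_mm_203 : Cut := Cut.of [[⟨3, 0, 0, 1449551462⟩]]

noncomputable def f_mm_203 : ℕ → ℕ → ℕ → ℕ → Bool := onCell 0 536870912 0 536870912 201326592 134217728
    (rowF 0 true false false .up 2 0 3 (qsf 0 536870912 0 536870912 3) ndF0q2 ndF5q0 pcF3 cut_mm_203 Ext.none)

def k0_mm_203 : ∃ t, chk3 f_mm_203 t 1 1 1 = true :=
  ⟨(l 4), by decide +kernel⟩

theorem c_mm_203 : CertF 0 536870912 0 536870912 201326592 134217728 true false false .up 2 0 3
    ndF0q2 ndF5q0 pcF3 cut_mm_203 Ext.none :=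
  certF0 (fam := true) (s1 := false) (s2 := false) (a := 2) (b := 0) (c := 3) (cn := .up) (n1 := ndF0q2) (n2 := ndF5q0) (pc := pcF3) (cut := cut_mm_203) (xt := Ext.none) (P1 := 0) (W1 := 536870912) (P2 := 0) (W2 := 536870912) (P3 := 201326592) (W3 := 134217728)
    rfl k0_mm_203

noncomputable def cut_mm_213 : Cut := Cut.of [[⟨3, 0, 0, 1449551462⟩]]

noncomputable def f_mm_213 : ℕ → ℕ → ℕ → ℕ → Bool := onCell 0 536870912 536870912 536870912 201326592 134217728
    (rowF 0 true false false .pnn 2 1 3 (qsf 0 536870912 536870912 536870912 3) ndF0q2 ndF5q1 pcF3 cut_mm_213 Ext.none)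

def k0_mm_213 : ∃ t, chk3 f_mm_213 t 1 1 1 = true :=
  ⟨(l 4), by decide +kernel⟩

theorem c_mm_213 : CertF 0 536870912 536870912 536870912 201326592 134217728 true false false .pnn 2 1 3
    ndF0q2 ndF5q1 pcF3 cut_mm_213 Ext.none :=
  certF0 (fam := true) (s1 := false) (s2 := false) (a := 2) (b := 1) (c := 3) (cn := .pnn) (n1 := ndF0q2) (n2 := ndF5q1) (pc := pcF3) (cut := cut_mm_213) (xt := Ext.none) (P1 := 0) (W1 := 536870912) (P2 := 536870912) (W2 := 536870912) (P3 := 201326592) (W3 := 134217728)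
    rfl k0_mm_213

end Pool.Agent.Strip051.G.I3_16_5_16.Tab.C.FA05

namespace Pool.Agent.Strip051.G.I3_16_5_16.Tab.C.FA11

open Pool.Agent.Strip051.PB Pool.Agent.Strip051.PB.T
open Pool.Agent.Strip051.G.I3_16_5_16.Tab

noncomputable def f_pp_001 : ℕ → ℕ → ℕ → ℕ → Bool := onCell 0 536870912 0 536870912 201326592 134217728
    (rowF 0 true true true .up 0 0 1 (qsf 0 536870912 0 536870912 1) ndF1q0 ndF1q0 pcF1 Cut.none Ext.none)

def k0_pp_001 : ∃ t, chk3 f_pp_001 t 1 1 1 = true :=
  ⟨(l 4), by decide +kernel⟩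

theorem c_pp_001 : CertF 0 536870912 0 536870912 201326592 134217728 true true true .up 0 0 1
    ndF1q0 ndF1q0 pcF1 Cut.none Ext.none :=
  certF0 (fam := true) (s1 := true) (s2 := true) (a := 0) (b := 0) (c := 1) (cn := .up) (n1 := ndF1q0) (n2 := ndF1q0) (pc := pcF1) (cut := Cut.none) (xt := Ext.none) (P1 := 0) (W1 := 536870912) (P2 := 0) (W2 := 536870912) (P3 := 201326592) (W3 := 134217728)
    rfl k0_pp_001

noncomputable def f_pp_011 : ℕ → ℕ → ℕ → ℕ → Bool := onCell 0 536870912 536870912 536870912 201326592 134217728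
    (rowF 0 true true true .pnn 0 1 1 (qsf 0 536870912 536870912 536870912 1) ndF1q0 ndF1q1 pcF1 Cut.none Ext.none)

def k0_pp_011 : ∃ t, chk3 f_pp_011 t 1 1 1 = true :=
  ⟨(l 4), by decide +kernel⟩

theorem c_pp_011 : CertF 0 536870912 536870912 536870912 201326592 134217728 true true true .pnn 0 1 1
    ndF1q0 ndF1q1 pcF1 Cut.none Ext.none :=
  certF0 (fam := true) (s1 := true) (s2 := true) (a := 0) (b := 1) (c := 1) (cn := .pnn) (n1 := ndF1q0) (n2 := ndF1q1) (pc := pcF1) (cut := Cut.none) (xt := Ext.none) (P1 := 0) (W1 := 536870912) (P2 := 536870912) (W2 := 536870912) (P3 := 201326592) (W3 := 134217728)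
    rfl k0_pp_011

noncomputable def f_pp_012 : ℕ → ℕ → ℕ → ℕ → Bool := onCell 0 536870912 536870912 536870912 201326592 134217728
    (rowF 0 true true true .pnp 0 1 2 (qsf 0 536870912 536870912 536870912 2) ndF1q0 ndF1q1 pcF2 Cut.none Ext.none)

def k0_pp_012 : ∃ t, chk3 f_pp_012 t 1 1 1 = true :=
  ⟨(l 4), by decide +kernel⟩

theorem c_pp_012 : CertF 0 536870912 536870912 536870912 201326592 134217728 true true true .pnp 0 1 2
    ndF1q0 ndF1q1 pcF2 Cut.none Ext.none :=
  certF0 (fam := true) (s1 := true) (s2 := true) (a := 0) (b := 1) (c := 2) (cn := .pnp) (n1 := ndF1q0) (n2 := ndF1q1) (pc := pcF2) (cut := Cut.none) (xt := Ext.none) (P1 := 0) (W1 := 536870912) (P2 := 536870912) (W2 := 536870912) (P3 := 201326592) (W3 := 134217728)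
    rfl k0_pp_012

noncomputable def cut_pp_022_a : Cut := Cut.of [[⟨0, 0, 0, 67108864⟩, ⟨1, 1, 0, 67108864⟩, ⟨2, 1, 0, 67108864⟩]]

noncomputable def f_pp_022_a : ℕ → ℕ → ℕ → ℕ → Bool := onCell 0 536870912 0 536870912 201326592 134217728
    (rowF 0 true true true .pp 0 2 2 (qsf 0 536870912 0 536870912 2) ndF1q0 ndF1q2a pcF2 cut_pp_022_a Ext.none)

def k0_pp_022_a : ∃ t, chk3 f_pp_022_a t 1 1 1 = true :=
  ⟨(a (b (a (a (b (a (a (c (b (l 16571400) (l 16578408)) (b (l 16572192) (l 16577968))) (c (l 16571744) (l 16572712))) (a (l 16612896) (l 16591248))) (a (b (a (c (a (l 16591176) (l 16590408)) (l 16588960)) (c (l 16589768) (l 16588640))) (a (c (a (c (l 16607584) (l 16607456)) (l 16607552)) (a (l 16604488) (l 16604712))) (c (l 16607816) (l 16605360)))) (b (l 16653800) (a (l 16629624) (l 16637168))))) (b (a (l 16636032) (l 16664240)) (a (c (l 16805320) (b (l 16607784) (l 16669808))) (l 4)))) (a (b (a (l 16780200) (l 4)) (l 4)) (l 4))) (a (b (a (a (b (a (c (a (b (l 16622816) (c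 (l 16635160) (l 16633728))) (l 16649928)) (a (b (l 16618664) (l 16629832)) (l 16624936))) (c (l 16650672) (l 16647064))) (a (c (a (b (c (l 16649024) (l 16647392)) (a (c (l 16664664) (l 16662944)) (l 16664000))) (b (l 16648648) (l 16664272))) (a (b (l 16643576) (a (l 16659320) (l 16659744))) (b (l 16644400) (l 16660408)))) (c (b (l 16650408) (l 16712320)) (b (l 16646536) (l 16708288))))) (b (a (c (l 16658448) (l 16654200)) (l 16699264)) (a (b (l 16687120) (l 4)) (l 4)))) (l 4)) (a (a (a (b (a (b (c (a (c (l 16703256) (l 16701536)) (l 16702568)) (a (b (l 16672448) (l 16682272)) (l 16677816))) (a (l 6) (c (c (l 16725120) (l 16723928)) (l 16721872)))) (b (c (l 16702896) (l 16699552)) (b (c (l 16720088) (l 16696384)) (c (l 16734624) (l 16732184))))) (l 6)) (a (b (b (a (l 16704016) (l 16709312)) (l 4)) (l 4)) (l 4))) (l 4)) (l 4))) (l 4))) (l 4)), by decide +kernel⟩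

theorem c_pp_022_a : CertF 0 536870912 0 536870912 201326592 134217728 true true true .pp 0 2 2
    ndF1q0 ndF1q2a pcF2 cut_pp_022_a Ext.none :=
  certF0 (fam := true) (s1 := true) (s2 := true) (a := 0) (b := 2) (c := 2) (cn := .pp) (n1 := ndF1q0) (n2 := ndF1q2a) (pc := pcF2) (cut := cut_pp_022_a) (xt := Ext.none) (P1 := 0) (W1 := 536870912) (P2 := 0) (W2 := 536870912) (P3 := 201326592) (W3 := 134217728)
    rfl k0_pp_022_a

noncomputable def cut_pp_022_b : Cut := Cut.of [[⟨0, 0, 0, 67108864⟩, ⟨1, 1, 0, 67108864⟩, ⟨2, 1, 0, 67108864⟩]]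

noncomputable def f_pp_022_b : ℕ → ℕ → ℕ → ℕ → Bool := onCell 0 536870912 1239849684 370763052 201326592 134217728
    (rowF 0 true true true .pp 0 2 2 (qsf 0 536870912 1239849684 370763052 2) ndF1q0 ndF1q2b pcF2 cut_pp_022_b Ext.none)

def k0_pp_022_b : ∃ t, chk3 f_pp_022_b t 1 1 1 = true :=
  ⟨(a (b (a (a (b (b (a (c (a (b (l 16572248) (l 16516152)) (l 16529072)) (a (b (l 16552680) (l 16517272)) (l 16530952))) (c (l 16568480) (l 16548664))) (a (c (a (l 16532896) (l 16782080)) (a (l 16467672) (l 16467984))) (c (l 16975776) (l 16472120)))) (a (b (c (a (l 17098072) (l 17194616)) (l 16414136)) (c (l 17464472) (l 16779416))) (b (c (l 17291576) (l 16661112)) (c (l 17523656) (l 16964800))))) (b (b (a (c (l 16831248) (l 16529920)) (l 16752408)) (a (l 16805496) (l 16982968))) (a (b (l 17107088) (l 17310432)) (l 4)))) (b (a (b (a (l 16878968) (l 4)) (l 4)) (l 4)) (l 4))) (a (a (b (a (b (c (l 17683992) (l 17084648)) (c (l 17834336) (l 17308928))) (b (l 17274000) (l 4))) (a (b (l 17698312)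 (l 4)) (l 4))) (l 4)) (l 4))) (l 4)), by decide +kernel⟩

theorem c_pp_022_b : CertF 0 536870912 1239849684 370763052 201326592 134217728 true true true .pp 0 2 2
    ndF1q0 ndF1q2b pcF2 cut_pp_022_b Ext.none :=
  certF0 (fam := true) (s1 := true) (s2 := true) (a := 0) (b := 2) (c := 2) (cn := .pp) (n1 := ndF1q0) (n2 := ndF1q2b) (pc := pcF2) (cut := cut_pp_022_b) (xt := Ext.none) (P1 := 0) (W1 := 536870912) (P2 := 1239849684) (W2 := 370763052) (P3 := 201326592) (W3 := 134217728)
    rfl k0_pp_022_b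

noncomputable def f_pp_023_a : ℕ → ℕ → ℕ → ℕ → Bool := onCell 1610612736 536870912 0 536870912 201326592 134217728
    (rowF 2 true true true .up 0 2 3 (qsf 0 536870912 0 536870912 3) ndF1q0 ndF1q2a pcF3 Cut.none Ext.none)

def k0_pp_023_a : ∃ t, chk3 f_pp_023_a t 1 1 1 = true :=
  ⟨(l 4), by decide +kernel⟩

theorem c_pp_023_a : CertF 0 536870912 0 536870912 201326592 134217728 true true true .up 0 2 3
    ndF1q0 ndF1q2a pcF3 Cut.none Ext.none :=
  certF2 (fam := true) (s1 := true) (s2 := true) (a := 0) (b := 2) (c := 3) (cn := .up) (n1 := ndF1q0) (n2 := ndF1q2a) (pc := pcF3) (cut := Cut.none) (xt := Ext.none) (P1 := 0) (W1 := 536870912) (P2 := 0) (W2 := 536870912) (P3 := 201326592) (W3 := 134217728)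
    rfl (fun _ => rfl) k0_pp_023_a

noncomputable def f_pp_023_b : ℕ → ℕ → ℕ → ℕ → Bool := onCell 1610612736 536870912 1239849684 370763052 201326592 134217728
    (rowF 2 true true true .up 0 2 3 (qsf 0 536870912 1239849684 370763052 3) ndF1q0 ndF1q2b pcF3 Cut.none Ext.none)

def k0_pp_023_b : ∃ t, chk3 f_pp_023_b t 1 1 1 = true :=
  ⟨(a (l 4) (l 4)), by decide +kernel⟩

theorem c_pp_023_b : CertF 0 536870912 1239849684 370763052 201326592 134217728 true true true .up 0 2 3
    ndF1q0 ndF1q2b pcF3 Cut.none Ext.none :=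
  certF2 (fam := true) (s1 := true) (s2 := true) (a := 0) (b := 2) (c := 3) (cn := .up) (n1 := ndF1q0) (n2 := ndF1q2b) (pc := pcF3) (cut := Cut.none) (xt := Ext.none) (P1 := 0) (W1 := 536870912) (P2 := 1239849684) (W2 := 370763052) (P3 := 201326592) (W3 := 134217728)
    rfl (fun _ => rfl) k0_pp_023_b

noncomputable def f_pp_033 : ℕ → ℕ → ℕ → ℕ → Bool := onCell 0 536870912 1610612736 536870912 201326592 134217728
    (rowF 0 true true true .pnn 0 3 3 (qsf 0 536870912 1610612736 536870912 3) ndF1q0 ndF1q3 pcF3 Cut.none Ext.none)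

def k0_pp_033 : ∃ t, chk3 f_pp_033 t 1 1 1 = true :=
  ⟨(a (b (l 4) (l 4)) (l 4)), by decide +kernel⟩

theorem c_pp_033 : CertF 0 536870912 1610612736 536870912 201326592 134217728 true true true .pnn 0 3 3
    ndF1q0 ndF1q3 pcF3 Cut.none Ext.none :=
  certF0 (fam := true) (s1 := true) (s2 := true) (a := 0) (b := 3) (c := 3) (cn := .pnn) (n1 := ndF1q0) (n2 := ndF1q3) (pc := pcF3) (cut := Cut.none) (xt := Ext.none) (P1 := 0) (W1 := 536870912) (P2 := 1610612736) (W2 := 536870912) (P3 := 201326592) (W3 := 134217728)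
    rfl k0_pp_033

noncomputable def f_pp_101 : ℕ → ℕ → ℕ → ℕ → Bool := onCell 536870912 536870912 0 536870912 201326592 134217728
    (rowF 0 true true true .npn 1 0 1 (qsf 536870912 536870912 0 536870912 1) ndF1q1 ndF1q0 pcF1 Cut.none Ext.none)

def k0_pp_101 : ∃ t, chk3 f_pp_101 t 1 1 1 = true :=
  ⟨(l 4), by decide +kernel⟩

theorem c_pp_101 : CertF 536870912 536870912 0 536870912 201326592 134217728 true true true .npn 1 0 1
    ndF1q1 ndF1q0 pcF1 Cut.none Ext.none :=
  certF0 (fam := true) (s1 := true) (s2 := true) (a := 1) (b := 0) (c := 1) (cn := .npn) (n1 := ndF1q1) (n2 := ndF1q0) (pc := pcF1) (cut := Cut.none) (xt := Ext.none) (P1 := 536870912) (W1 := 536870912) (P2 := 0) (W2 := 536870912) (P3 := 201326592) (W3 := 134217728)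
    rfl k0_pp_101

noncomputable def f_pp_102 : ℕ → ℕ → ℕ → ℕ → Bool := onCell 536870912 536870912 0 536870912 201326592 134217728
    (rowF 0 true true true .npp 1 0 2 (qsf 536870912 536870912 0 536870912 2) ndF1q1 ndF1q0 pcF2 Cut.none Ext.none)

def k0_pp_102 : ∃ t, chk3 f_pp_102 t 1 1 1 = true :=
  ⟨(l 4), by decide +kernel⟩

theorem c_pp_102 : CertF 536870912 536870912 0 536870912 201326592 134217728 true true true .npp 1 0 2
    ndF1q1 ndF1q0 pcF2 Cut.none Ext.none :=
  certF0 (fam := true) (s1 := true) (s2 := true) (a := 1) (b := 0) (c := 2) (cn := .npp) (n1 := ndF1q1) (n2 := ndF1q0) (pc := pcF2) (cut := Cut.none) (xt := Ext.none) (P1 := 536870912) (W1 := 536870912) (P2 := 0) (W2 := 536870912) (P3 := 201326592) (W3 := 134217728)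
    rfl k0_pp_102

noncomputable def f_pp_112 : ℕ → ℕ → ℕ → ℕ → Bool := onCell 536870912 536870912 536870912 536870912 201326592 134217728
    (rowF 0 true true true .dn 1 1 2 (qsf 536870912 536870912 536870912 536870912 2) ndF1q1 ndF1q1 pcF2 Cut.none Ext.none)

def k0_pp_112 : ∃ t, chk3 f_pp_112 t 1 1 1 = true :=
  ⟨(l 4), by decide +kernel⟩

theorem c_pp_112 : CertF 536870912 536870912 536870912 536870912 201326592 134217728 true true true .dn 1 1 2
    ndF1q1 ndF1q1 pcF2 Cut.none Ext.none :=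
  certF0 (fam := true) (s1 := true) (s2 := true) (a := 1) (b := 1) (c := 2) (cn := .dn) (n1 := ndF1q1) (n2 := ndF1q1) (pc := pcF2) (cut := Cut.none) (xt := Ext.none) (P1 := 536870912) (W1 := 536870912) (P2 := 536870912) (W2 := 536870912) (P3 := 201326592) (W3 := 134217728)
    rfl k0_pp_112

noncomputable def f_pp_113 : ℕ → ℕ → ℕ → ℕ → Bool := onCell 536870912 536870912 536870912 536870912 201326592 134217728
    (rowF 0 true true true .nn 1 1 3 (qsf 536870912 536870912 536870912 536870912 3) ndF1q1 ndF1q1 pcF3 Cut.none Ext.none)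

def k0_pp_113 : ∃ t, chk3 f_pp_113 t 1 1 1 = true :=
  ⟨(l 4), by decide +kernel⟩

theorem c_pp_113 : CertF 536870912 536870912 536870912 536870912 201326592 134217728 true true true .nn 1 1 3
    ndF1q1 ndF1q1 pcF3 Cut.none Ext.none :=
  certF0 (fam := true) (s1 := true) (s2 := true) (a := 1) (b := 1) (c := 3) (cn := .nn) (n1 := ndF1q1) (n2 := ndF1q1) (pc := pcF3) (cut := Cut.none) (xt := Ext.none) (P1 := 536870912) (W1 := 536870912) (P2 := 536870912) (W2 := 536870912) (P3 := 201326592) (W3 := 134217728)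
    rfl k0_pp_113

noncomputable def f_pp_123_a : ℕ → ℕ → ℕ → ℕ → Bool := onCell 536870912 536870912 0 536870912 201326592 134217728
    (rowF 0 true true true .npn 1 2 3 (qsf 536870912 536870912 0 536870912 3) ndF1q1 ndF1q2a pcF3 Cut.none Ext.none)

def k0_pp_123_a : ∃ t, chk3 f_pp_123_a t 1 1 1 = true :=
  ⟨(l 4), by decide +kernel⟩

theorem c_pp_123_a : CertF 536870912 536870912 0 536870912 201326592 134217728 true true true .npn 1 2 3
    ndF1q1 ndF1q2a pcF3 Cut.none Ext.none :=
  certF0 (fam := true) (s1 := true) (s2 := true) (a := 1) (b := 2) (c := 3) (cn := .npn) (n1 := ndF1q1) (n2 := ndF1q2a) (pc := pcF3) (cut := Cut.none) (xt := Ext.none) (P1 := 536870912) (W1 := 536870912) (P2 := 0) (W2 := 536870912) (P3 := 201326592) (W3 := 134217728)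
    rfl k0_pp_123_a

noncomputable def f_pp_123_b : ℕ → ℕ → ℕ → ℕ → Bool := onCell 536870912 536870912 1239849684 370763052 201326592 134217728
    (rowF 0 true true true .npn 1 2 3 (qsf 536870912 536870912 1239849684 370763052 3) ndF1q1 ndF1q2b pcF3 Cut.none Ext.none)

def k0_pp_123_b : ∃ t, chk3 f_pp_123_b t 1 1 1 = true :=
  ⟨(l 4), by decide +kernel⟩

theorem c_pp_123_b : CertF 536870912 536870912 1239849684 370763052 201326592 134217728 true true true .npn 1 2 3
    ndF1q1 ndF1q2b pcF3 Cut.none Ext.none :=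
  certF0 (fam := true) (s1 := true) (s2 := true) (a := 1) (b := 2) (c := 3) (cn := .npn) (n1 := ndF1q1) (n2 := ndF1q2b) (pc := pcF3) (cut := Cut.none) (xt := Ext.none) (P1 := 536870912) (W1 := 536870912) (P2 := 1239849684) (W2 := 370763052) (P3 := 201326592) (W3 := 134217728)
    rfl k0_pp_123_b

noncomputable def f_pp_133 : ℕ → ℕ → ℕ → ℕ → Bool := onCell 536870912 536870912 1610612736 536870912 201326592 134217728
    (rowF 0 true true true .dn 1 3 3 (qsf 536870912 536870912 1610612736 536870912 3) ndF1q1 ndF1q3 pcF3 Cut.none Ext.none)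

def k0_pp_133 : ∃ t, chk3 f_pp_133 t 1 1 1 = true :=
  ⟨(l 4), by decide +kernel⟩

theorem c_pp_133 : CertF 536870912 536870912 1610612736 536870912 201326592 134217728 true true true .dn 1 3 3
    ndF1q1 ndF1q3 pcF3 Cut.none Ext.none :=
  certF0 (fam := true) (s1 := true) (s2 := true) (a := 1) (b := 3) (c := 3) (cn := .dn) (n1 := ndF1q1) (n2 := ndF1q3) (pc := pcF3) (cut := Cut.none) (xt := Ext.none) (P1 := 536870912) (W1 := 536870912) (P2 := 1610612736) (W2 := 536870912) (P3 := 201326592) (W3 := 134217728)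
    rfl k0_pp_133

noncomputable def f_pp_202_a : ℕ → ℕ → ℕ → ℕ → Bool := onCell 0 536870912 0 536870912 201326592 134217728
    (rowF 0 true true true .pp 2 0 2 (qsf 0 536870912 0 536870912 2) ndF1q2a ndF1q0 pcF2 Cut.none Ext.none)

def k0_pp_202_a : ∃ t, chk3 f_pp_202_a t 1 1 1 = true :=
  ⟨(l 5), by decide +kernel⟩

theorem c_pp_202_a : CertF 0 536870912 0 536870912 201326592 134217728 true true true .pp 2 0 2
    ndF1q2a ndF1q0 pcF2 Cut.none Ext.none :=
  certF0 (fam := true) (s1 := true) (s2 := true) (a := 2) (b := 0) (c := 2) (cn := .pp) (n1 := ndF1q2a) (n2 := ndF1q0) (pc := pcF2) (cut := Cut.none) (xt := Ext.none) (P1 := 0) (W1 := 536870912) (P2 := 0) (W2 := 536870912) (P3 := 201326592) (W3 := 134217728)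
    rfl k0_pp_202_a

noncomputable def f_pp_202_b : ℕ → ℕ → ℕ → ℕ → Bool := onCell 1239849684 370763052 0 536870912 201326592 134217728
    (rowF 0 true true true .pp 2 0 2 (qsf 1239849684 370763052 0 536870912 2) ndF1q2b ndF1q0 pcF2 Cut.none Ext.none)

def k0_pp_202_b : ∃ t, chk3 f_pp_202_b t 1 1 1 = true :=
  ⟨(l 5), by decide +kernel⟩

theorem c_pp_202_b : CertF 1239849684 370763052 0 536870912 201326592 134217728 true true true .pp 2 0 2
    ndF1q2b ndF1q0 pcF2 Cut.none Ext.none :=
  certF0 (fam := true) (s1 := true) (s2 := true) (a := 2) (b := 0) (c := 2) (cn := .pp) (n1 := ndF1q2b) (n2 := ndF1q0) (pc := pcF2) (cut := Cut.none) (xt := Ext.none) (P1 := 1239849684) (W1 := 370763052) (P2 := 0) (W2 := 536870912) (P3 := 201326592) (W3 := 134217728)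
    rfl k0_pp_202_b

noncomputable def f_pp_203_a : ℕ → ℕ → ℕ → ℕ → Bool := onCell 0 536870912 0 536870912 201326592 134217728
    (rowF 0 true true true .up 2 0 3 (qsf 0 536870912 0 536870912 3) ndF1q2a ndF1q0 pcF3 Cut.none Ext.none)

def k0_pp_203_a : ∃ t, chk3 f_pp_203_a t 1 1 1 = true :=
  ⟨(l 5), by decide +kernel⟩

theorem c_pp_203_a : CertF 0 536870912 0 536870912 201326592 134217728 true true true .up 2 0 3
    ndF1q2a ndF1q0 pcF3 Cut.none Ext.none :=
  certF0 (fam := true) (s1 := true) (s2 := true) (a := 2) (b := 0) (c := 3) (cn := .up) (n1 := ndF1q2a) (n2 := ndF1q0) (pc := pcF3) (cut := Cut.none) (xt := Ext.none) (P1 := 0) (W1 := 536870912) (P2 := 0) (W2 := 536870912) (P3 := 201326592) (W3 := 134217728)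
    rfl k0_pp_203_a

noncomputable def f_pp_203_b : ℕ → ℕ → ℕ → ℕ → Bool := onCell 1239849684 370763052 0 536870912 201326592 134217728
    (rowF 0 true true true .up 2 0 3 (qsf 1239849684 370763052 0 536870912 3) ndF1q2b ndF1q0 pcF3 Cut.none Ext.none)

def k0_pp_203_b : ∃ t, chk3 f_pp_203_b t 1 1 1 = true :=
  ⟨(l 5), by decide +kernel⟩

theorem c_pp_203_b : CertF 1239849684 370763052 0 536870912 201326592 134217728 true true true .up 2 0 3
    ndF1q2b ndF1q0 pcF3 Cut.none Ext.none :=
  certF0 (fam := true) (s1 := true) (s2 := true) (a := 2) (b := 0) (c := 3) (cn := .up) (n1 := ndF1q2b) (n2 := ndF1q0) (pc := pcF3) (cut := Cut.none) (xt := Ext.none) (P1 := 1239849684) (W1 := 370763052) (P2 := 0) (W2 := 536870912) (P3 := 201326592) (W3 := 134217728)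
    rfl k0_pp_203_b

noncomputable def f_pp_213_a : ℕ → ℕ → ℕ → ℕ → Bool := onCell 0 536870912 536870912 536870912 201326592 134217728
    (rowF 0 true true true .pnn 2 1 3 (qsf 0 536870912 536870912 536870912 3) ndF1q2a ndF1q1 pcF3 Cut.none Ext.none)

def k0_pp_213_a : ∃ t, chk3 f_pp_213_a t 1 1 1 = true :=
  ⟨(l 4), by decide +kernel⟩

theorem c_pp_213_a : CertF 0 536870912 536870912 536870912 201326592 134217728 true true true .pnn 2 1 3
    ndF1q2a ndF1q1 pcF3 Cut.none Ext.none :=
  certF0 (fam := true) (s1 := true) (s2 := true) (a := 2) (b := 1) (c := 3) (cn := .pnn) (n1 := ndF1q2a) (n2 := ndF1q1) (pc := pcF3) (cut := Cut.none) (xt := Ext.none) (P1 := 0) (W1 := 536870912) (P2 := 536870912) (W2 := 536870912) (P3 := 201326592) (W3 := 134217728)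
    rfl k0_pp_213_a

noncomputable def f_pp_213_b : ℕ → ℕ → ℕ → ℕ → Bool := onCell 1239849684 370763052 536870912 536870912 201326592 134217728
    (rowF 0 true true true .pnn 2 1 3 (qsf 1239849684 370763052 536870912 536870912 3) ndF1q2b ndF1q1 pcF3 Cut.none Ext.none)

def k0_pp_213_b : ∃ t, chk3 f_pp_213_b t 1 1 1 = true :=
  ⟨(l 4), by decide +kernel⟩

theorem c_pp_213_b : CertF 1239849684 370763052 536870912 536870912 201326592 134217728 true true true .pnn 2 1 3
    ndF1q2b ndF1q1 pcF3 Cut.none Ext.none :=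
  certF0 (fam := true) (s1 := true) (s2 := true) (a := 2) (b := 1) (c := 3) (cn := .pnn) (n1 := ndF1q2b) (n2 := ndF1q1) (pc := pcF3) (cut := Cut.none) (xt := Ext.none) (P1 := 1239849684) (W1 := 370763052) (P2 := 536870912) (W2 := 536870912) (P3 := 201326592) (W3 := 134217728)
    rfl k0_pp_213_b

noncomputable def f_pp_303 : ℕ → ℕ → ℕ → ℕ → Bool := onCell 1610612736 536870912 0 536870912 201326592 134217728
    (rowF 0 true true true .npn 3 0 3 (qsf 1610612736 536870912 0 536870912 3) ndF1q3 ndF1q0 pcF3 Cut.none Ext.none)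

def k0_pp_303 : ∃ t, chk3 f_pp_303 t 1 1 1 = true :=
  ⟨(l 5), by decide +kernel⟩

theorem c_pp_303 : CertF 1610612736 536870912 0 536870912 201326592 134217728 true true true .npn 3 0 3
    ndF1q3 ndF1q0 pcF3 Cut.none Ext.none :=
  certF0 (fam := true) (s1 := true) (s2 := true) (a := 3) (b := 0) (c := 3) (cn := .npn) (n1 := ndF1q3) (n2 := ndF1q0) (pc := pcF3) (cut := Cut.none) (xt := Ext.none) (P1 := 1610612736) (W1 := 536870912) (P2 := 0) (W2 := 536870912) (P3 := 201326592) (W3 := 134217728)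
    rfl k0_pp_303

noncomputable def f_pp_313 : ℕ → ℕ → ℕ → ℕ → Bool := onCell 1610612736 536870912 536870912 536870912 201326592 134217728
    (rowF 0 true true true .dn 3 1 3 (qsf 1610612736 536870912 536870912 536870912 3) ndF1q3 ndF1q1 pcF3 Cut.none Ext.none)

def k0_pp_313 : ∃ t, chk3 f_pp_313 t 1 1 1 = true :=
  ⟨(l 4), by decide +kernel⟩

theorem c_pp_313 : CertF 1610612736 536870912 536870912 536870912 201326592 134217728 true true true .dn 3 1 3
    ndF1q3 ndF1q1 pcF3 Cut.none Ext.none :=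
  certF0 (fam := true) (s1 := true) (s2 := true) (a := 3) (b := 1) (c := 3) (cn := .dn) (n1 := ndF1q3) (n2 := ndF1q1) (pc := pcF3) (cut := Cut.none) (xt := Ext.none) (P1 := 1610612736) (W1 := 536870912) (P2 := 536870912) (W2 := 536870912) (P3 := 201326592) (W3 := 134217728)
    rfl k0_pp_313

noncomputable def f_pm_001 : ℕ → ℕ → ℕ → ℕ → Bool := onCell 0 536870912 0 536870912 201326592 134217728
    (rowF 0 true true false .up 0 0 1 (qsf 0 536870912 0 536870912 1) ndF1q0 ndF1q0 pcF1 Cut.none Ext.none)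

def k0_pm_001 : ∃ t, chk3 f_pm_001 t 1 1 1 = true :=
  ⟨(l 3), by decide +kernel⟩

theorem c_pm_001 : CertF 0 536870912 0 536870912 201326592 134217728 true true false .up 0 0 1
    ndF1q0 ndF1q0 pcF1 Cut.none Ext.none :=
  certF0 (fam := true) (s1 := true) (s2 := false) (a := 0) (b := 0) (c := 1) (cn := .up) (n1 := ndF1q0) (n2 := ndF1q0) (pc := pcF1) (cut := Cut.none) (xt := Ext.none) (P1 := 0) (W1 := 536870912) (P2 := 0) (W2 := 536870912) (P3 := 201326592) (W3 := 134217728)
    rfl k0_pm_001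

noncomputable def f_pm_011 : ℕ → ℕ → ℕ → ℕ → Bool := onCell 0 536870912 536870912 536870912 201326592 134217728
    (rowF 1 true true false .pnn 0 1 1 (qsf 0 536870912 536870912 536870912 1) ndF1q0 ndF1q1 pcF1 Cut.none Ext.none)

def k0_pm_011 : ∃ t, chk3 f_pm_011 t 1 1 1 = true :=
  ⟨(l 3), by decide +kernel⟩

theorem c_pm_011 : CertF 0 536870912 536870912 536870912 201326592 134217728 true true false .pnn 0 1 1
    ndF1q0 ndF1q1 pcF1 Cut.none Ext.none :=
  certF1 (fam := true) (s1 := true) (s2 := false) (a := 0) (b := 1) (c := 1) (cn := .pnn) (n1 := ndF1q0) (n2 := ndF1q1) (pc := pcF1) (cut := Cut.none) (xt := Ext.none) (P1 := 0) (W1 := 536870912) (P2 := 536870912) (W2 := 536870912) (P3 := 201326592) (W3 := 134217728)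
    rfl (fun _ => rfl) k0_pm_011

noncomputable def f_pm_012 : ℕ → ℕ → ℕ → ℕ → Bool := onCell 1073741824 536870912 536870912 536870912 201326592 134217728
    (rowF 2 true true false .pnp 0 1 2 (qsf 0 536870912 536870912 536870912 2) ndF1q0 ndF1q1 pcF2 Cut.none Ext.none)

def k0_pm_012 : ∃ t, chk3 f_pm_012 t 1 1 1 = true :=
  ⟨(a (a (l 3) (a (a (a (l 3) (b (a (l 3) (a (l 3) (l 17218256))) (a (l 3) (b (a (l 3) (a (l 17034008) (l 17030616))) (a (b (l 16977744) (l 16929704)) (b (a (l 16972952) (l 16969208)) (a (l 16924648) (l 16920696)))))))) (b (l 16970840) (b (l 17009424) (b (l 16937928) (l 16887688))))) (b (l 16965592) (b (l 17015920) (b (l 16846456) (l 16791096)))))) (b (a (l 16999848) (l 2)) (b (a (l 17099400) (l 17193528)) (a (b (l 17079224) (a (l 16777600) (l 17075536))) (l 17336344))))), by decide +kernel⟩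

theorem c_pm_012 : CertF 0 536870912 536870912 536870912 201326592 134217728 true true false .pnp 0 1 2
    ndF1q0 ndF1q1 pcF2 Cut.none Ext.none :=
  certF2 (fam := true) (s1 := true) (s2 := false) (a := 0) (b := 1) (c := 2) (cn := .pnp) (n1 := ndF1q0) (n2 := ndF1q1) (pc := pcF2) (cut := Cut.none) (xt := Ext.none) (P1 := 0) (W1 := 536870912) (P2 := 536870912) (W2 := 536870912) (P3 := 201326592) (W3 := 134217728)
    rfl (fun _ => rfl) k0_pm_012

noncomputable def cut_pm_022_a : Cut := Cut.of [[⟨0, 0, 0, 67108864⟩, ⟨1, 1, 0, 67108864⟩, ⟨2, 1, 0, 67108864⟩]]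

noncomputable def f_pm_022_a : ℕ → ℕ → ℕ → ℕ → Bool := onCell 1073741824 536870912 0 536870912 201326592 134217728
    (rowF 2 true true false .pp 0 2 2 (qsf 0 536870912 0 536870912 2) ndF1q0 ndF1q2a pcF2 cut_pm_022_a Ext.none)

def k0_pm_022_a : ∃ t, chk3 f_pm_022_a t 2 2 1 = true :=
  ⟨(a (b (l 1) (a (l 1) (a (l 1) (a (l 1) (a (l 1) (b (l 1) (c (b (l 1) (a (l 131029592087) (l 16538664))) (l 88079951943)))))))) (a (a (a (b (l 1) (a (b (l 1) (c (c (l 117607817095) (l 105796648487)) (b (l 16541568) (l 16525152)))) (b (c (l 118681523239) (l 16516040)) (c (b (l 16533592) (l 16519392)) (l 16521928))))) (a (b (b (l 1) (c (l 59625714711) (l 16493608))) (b (c (b (l 16511248) (l 16507696)) (l 16509384)) (c (l 16562704) (l 16516600)))) (b (a (c (b (l 1) (l 16498296)) (l 16526016)) (a (c (b (l 16502624) (l 16496304)) (l 16521096)) (c (b (l 16522528) (l 16516264)) (b (l 16491464) (l 16505472))))) (a (b (c (l 16497992) (l 16486408)) (c (l 16508480) (l 16515304))) (a (b (c (l 16495944)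 (l 16484768)) (c (l 16506920) (l 16514168))) (b (c (l 16515136) (l 16504272)) (b (l 16559280) (l 16559560)))))))) (c (b (a (b (l 16514392) (l 16508144)) (l 16493280)) (b (a (l 16521432) (l 16465904)) (a (l 16501896) (l 16498712)))) (b (a (b (l 16483112) (l 16475888)) (l 16486536)) (b (a (l 16479752) (l 16477528)) (a (l 16510376) (l 16508744)))))) (b (a (c (l 16513912) (l 16504832)) (l 16486112)) (a (b (c (l 16478184) (l 16470952)) (a (l 16499712) (l 16493848))) (c (l 16622048) (l 16477696)))))), by decide +kernel⟩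

def k1_pm_022_a : ∃ t, chk3 f_pm_022_a t 4 6 1 = true :=
  ⟨(a (l 1) (a (b (l 1) (a (b (l 1) (a (l 1) (c (b (c (l 119218629495) (l 137472234183)) (c (a (l 138546004279) (l 170221379831)) (l 155725879143))) (b (l 115460549207) (l 171295133495))))) (b (c (c (a (b (l 1) (l 124050433415)) (b (l 131566590743) (l 161094522823))) (a (l 145525260279) (l 150357104103))) (a (l 121366102759) (l 150893973591))) (a (c (b (c (l 150894010951) (l 163242037639)) (c (l 16631816) (l 16629856))) (b (l 171295099735) (l 16627048))) (c (c (l 16630856) (l 16613416)) (l 16611104)))))) (a (b (c (a (b (l 1) (c (b (l 1) (l 150893927767)) (l 122976646791))) (b (c (l 144988281255) (l 16584392)) (c (b (l 173979346263) (l 16584136)) (l 167000028279)))) (b (l 99354318391) (a (l 135861547351) (l 16587008)))) (c (b (a (c (b (l 180958709575) (l 16616104)) (l 196527970519)) (l 16592128)) (l 16616264)) (b (a (l 16609600) (l 16574216)) (l 16596568)))) (b (a (c (b (c (l 140156442743) (l 16557264)) (l 16572288))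 (l 150357005079)) (c (b (c (l 16555248) (l 16557864)) (l 16555968)) (b (l 16560816) (l 16557896)))) (a (c (b (l 16574784) (l 16599736)) (l 16587808)) (b (l 16620712) (l 16602416))))))), by decide +kernel⟩

def k2_pm_022_a : ∃ t, chk3 f_pm_022_a t 4 7 1 = true :=
  ⟨(a (a (b (l 1) (l 6)) (a (b (b (l 1) (l 6)) (l 6)) (a (b (b (l 1) (l 6)) (l 6)) (a (b (b (b (l 1) (b (l 1) (l 6))) (l 6)) (l 6)) (b (b (b (l 1) (c (c (l 179348246343) (l 182569470711)) (l 187401305927))) (c (b (l 16677464) (l 16679520)) (l 16697360))) (b (l 16687264) (l 16724544))))))) (a (b (a (a (b (b (c (c (a (l 148746575751) (l 179348212775)) (l 162168363239)) (l 166463327895)) (c (c (b (l 16665544) (l 16666640)) (l 16675040)) (l 16683096))) (c (l 16684160) (l 16666976))) (b (c (b (c (l 16659816) (l 16647552)) (l 16651520)) (b (l 16644880) (l 16649336))) (l 16670120))) (b (c (b (l 16647448) (l 16629328)) (l 16647800)) (c (l 16650808) (l 16649864)))) (b (a (l 16687664) (l 16683736)) (a (l 16701424) (l 16721096))))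 (a (b (b (c (l 16622464) (l 16621272)) (l 16651992)) (b (l 16685200) (l 16722456))) (b (b (l 16708856) (l 16696744)) (a (l 16706912) (l 16709320)))))), by decide +kernel⟩

def k3_pm_022_a : ∃ t, chk3 f_pm_022_a t 5 3 1 = true :=
  ⟨(a (a (a (b (b (a (c (b (l 16538368) (l 16558536)) (l 16592776)) (c (l 16569144) (l 16550288))) (b (b (l 16647488) (l 16648368)) (l 16666344))) (b (b (l 16649832) (l 16637504)) (a (l 16710912) (l 16710632)))) (b (a (b (c (l 16547232) (l 16549560)) (c (l 16592440) (l 16590352))) (b (a (c (l 16524672) (l 16548360)) (b (b (l 16615536) (l 16624720)) (l 16639400))) (b (b (l 16719800) (l 16731216)) (l 16749272)))) (a (b (l 16643880) (l 16710192)) (b (a (l 16642856) (l 16725800)) (a (l 16709352) (l 16750504)))))) (b (b (a (l 16605728) (l 16541392)) (a (l 16565400) (l 16585144))) (b (l 16740088) (l 16765488)))) (b (a (b (a (l 16537008) (l 16530040)) (l 16638768)) (b (l 16516224) (l 16559192))) (a (b (l 16609184) (l 16698272)) (b (l 16611728) (l 16682224))))),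 by decide +kernel⟩

def k4_pm_022_a : ∃ t, chk3 f_pm_022_a t 3 1 1 = true :=
  ⟨(a (b (a (b (a (l 16559528) (l 16802856)) (a (l 16570784) (l 16806920))) (b (l 17030376) (a (l 16968960) (l 17081952)))) (a (b (a (l 16629520) (l 16817648)) (b (a (l 16664832) (l 16837808)) (a (l 16735952) (l 16870576)))) (b (a (l 16963504) (l 17067936)) (a (b (l 16961736) (l 16970888)) (l 17051488))))) (b (a (b (l 17197768) (l 17201512)) (l 17425096)) (a (b (a (l 17152984) (l 17219656)) (a (l 17135344) (l 17206544))) (b (l 17281680) (l 17273080))))), by decide +kernel⟩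

theorem s5_pm_022_a : ∃ t, chk3 f_pm_022_a t 4 3 1 = true := ex3_b k1_pm_022_a k2_pm_022_a

theorem s6_pm_022_a : ∃ t, chk3 f_pm_022_a t 2 3 1 = true := ex3_a s5_pm_022_a k3_pm_022_a

theorem s7_pm_022_a : ∃ t, chk3 f_pm_022_a t 2 1 1 = true := ex3_b k0_pm_022_a s6_pm_022_a

theorem s8_pm_022_a : ∃ t, chk3 f_pm_022_a t 1 1 1 = true := ex3_a s7_pm_022_a k4_pm_022_a

theorem c_pm_022_a : CertF 0 536870912 0 536870912 201326592 134217728 true true false .pp 0 2 2
    ndF1q0 ndF1q2a pcF2 cut_pm_022_a Ext.none :=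
  certF2 (fam := true) (s1 := true) (s2 := false) (a := 0) (b := 2) (c := 2) (cn := .pp) (n1 := ndF1q0) (n2 := ndF1q2a) (pc := pcF2) (cut := cut_pm_022_a) (xt := Ext.none) (P1 := 0) (W1 := 536870912) (P2 := 0) (W2 := 536870912) (P3 := 201326592) (W3 := 134217728)
    rfl (fun _ => rfl) s8_pm_022_a

noncomputable def cut_pm_022_b : Cut := Cut.of [[⟨0, 0, 0, 67108864⟩, ⟨1, 1, 0, 67108864⟩, ⟨2, 1, 0, 67108864⟩]]

noncomputable def f_pm_022_b : ℕ → ℕ → ℕ → ℕ → Bool := onCell 0 536870912 1073741824 536870912 201326592 134217728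
    (rowF 1 true true false .pp 0 2 2 (qsf 0 536870912 1239849684 370763052 2) ndF1q0 ndF1q2b pcF2 cut_pm_022_b Ext.none)

def k0_pm_022_b : ∃ t, chk3 f_pm_022_b t 1 1 1 = true :=
  ⟨(a (b (a (b (l 1) (b (a (b (b (l 1) (b (l 1) (a (a (b (l 1) (b (l 1) (c (l 16522576) (l 16483384)))) (l 1)) (l 1)))) (a (c (a (b (l 16517768) (l 16467648)) (l 16560656)) (b (l 16532072) (l 16483088))) (c (l 16579080) (l 16576368)))) (l 1)) (c (a (b (a (b (l 16467296) (l 16421696)) (l 16475784)) (a (a (l 16412664) (l 16614072)) (l 16608592))) (b (l 16556376) (l 16625016))) (a (b (a (a (l 16454328) (l 16425152)) (l 16466664)) (a (l 16407176) (l 16366264))) (b (l 16533592) (l 16467024)))))) (l 1)) (b (a (b (a (a (b (c (b (l 16910600) (l 17074200)) (l 16340640)) (c (l 17281072) (l 16308472))) (c (b (l 16952696) (l 17220840)) (l 16440408))) (b (a (l 16534496) (l 16558680)) (c (l 17142720) (l 16468648)))) (a (c (b (l 17464184) (l 17629544)) (b (a (l 16655848) (l 16732296)) (a (l 16999000) (l 16957128))))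 (b (c (l 17334416) (l 16710136)) (l 17179472)))) (b (a (b (l 16623680) (l 16805568)) (l 1)) (a (b (l 16972856) (l 17120808)) (l 149821409335)))) (b (a (b (a (c (l 17752608) (l 17146024)) (l 17340952)) (c (l 17780888) (l 17233176))) (a (l 17304096) (l 17224968))) (a (c (l 17900600) (a (l 17433960) (l 17351960))) (l 17439664))))) (a (b (l 1) (b (l 1) (b (a (l 17162048) (l 1)) (l 17257672)))) (l 1))), by decide +kernel⟩

theorem c_pm_022_b : CertF 0 536870912 1239849684 370763052 201326592 134217728 true true false .pp 0 2 2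
    ndF1q0 ndF1q2b pcF2 cut_pm_022_b Ext.none :=
  certF1 (fam := true) (s1 := true) (s2 := false) (a := 0) (b := 2) (c := 2) (cn := .pp) (n1 := ndF1q0) (n2 := ndF1q2b) (pc := pcF2) (cut := cut_pm_022_b) (xt := Ext.none) (P1 := 0) (W1 := 536870912) (P2 := 1239849684) (W2 := 370763052) (P3 := 201326592) (W3 := 134217728)
    rfl (fun _ => rfl) k0_pm_022_b

noncomputable def f_pm_023_a : ℕ → ℕ → ℕ → ℕ → Bool := onCell 1610612736 536870912 0 536870912 201326592 134217728
    (rowF 2 true true false .up 0 2 3 (qsf 0 536870912 0 536870912 3) ndF1q0 ndF1q2a pcF3 Cut.none Ext.none)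

def k0_pm_023_a : ∃ t, chk3 f_pm_023_a t 1 1 1 = true :=
  ⟨(a (a (b (a (b (l 17369840) (l 17336104)) (b (l 17302032) (l 17346704))) (b (a (l 17342400) (l 17367416)) (a (l 17339816) (l 17385800)))) (b (a (l 17481400) (l 2)) (b (l 2) (l 2)))) (l 2)), by decide +kernel⟩

theorem c_pm_023_a : CertF 0 536870912 0 536870912 201326592 134217728 true true false .up 0 2 3
    ndF1q0 ndF1q2a pcF3 Cut.none Ext.none :=
  certF2 (fam := true) (s1 := true) (s2 := false) (a := 0) (b := 2) (c := 3) (cn := .up) (n1 := ndF1q0) (n2 := ndF1q2a) (pc := pcF3) (cut := Cut.none) (xt := Ext.none) (P1 := 0) (W1 := 536870912) (P2 := 0) (W2 := 536870912) (P3 := 201326592) (W3 := 134217728)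
    rfl (fun _ => rfl) k0_pm_023_a

noncomputable def f_pm_023_b : ℕ → ℕ → ℕ → ℕ → Bool := onCell 1610612736 536870912 1239849684 370763052 201326592 134217728
    (rowF 2 true true false .up 0 2 3 (qsf 0 536870912 1239849684 370763052 3) ndF1q0 ndF1q2b pcF3 Cut.none Ext.none)

def k0_pm_023_b : ∃ t, chk3 f_pm_023_b t 1 1 1 = true :=
  ⟨(a (a (b (a (c (l 17575544) (l 17366232)) (b (l 17332488) (l 17456992))) (a (b (c (l 17794760) (l 17449720)) (c (l 17911120) (a (l 17573552) (l 17568616)))) (c (l 17789864) (l 17493984)))) (a (b (b (l 17312824) (l 17421832)) (l 17635256)) (a (b (l 17345176) (l 17549360)) (l 4)))) (a (l 4) (l 4))), by decide +kernel⟩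

theorem c_pm_023_b : CertF 0 536870912 1239849684 370763052 201326592 134217728 true true false .up 0 2 3
    ndF1q0 ndF1q2b pcF3 Cut.none Ext.none :=
  certF2 (fam := true) (s1 := true) (s2 := false) (a := 0) (b := 2) (c := 3) (cn := .up) (n1 := ndF1q0) (n2 := ndF1q2b) (pc := pcF3) (cut := Cut.none) (xt := Ext.none) (P1 := 0) (W1 := 536870912) (P2 := 1239849684) (W2 := 370763052) (P3 := 201326592) (W3 := 134217728)
    rfl (fun _ => rfl) k0_pm_023_b

noncomputable def f_pm_033 : ℕ → ℕ → ℕ → ℕ → Bool := onCell 0 536870912 1610612736 536870912 201326592 134217728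
    (rowF 1 true true false .pnn 0 3 3 (qsf 0 536870912 1610612736 536870912 3) ndF1q0 ndF1q3 pcF3 Cut.none Ext.none)

def k0_pm_033 : ∃ t, chk3 f_pm_033 t 1 1 1 = true :=
  ⟨(b (b (a (b (a (c (l 197068004311) (a (l 17638288) (l 17543192))) (l 1)) (a (c (l 17883016) (l 17622432)) (l 17559392))) (l 1)) (a (b (a (l 17770248) (l 17581784)) (a (b (l 17765344) (l 17751672)) (l 17588344))) (b (l 1) (b (l 1) (l 4))))) (b (l 4) (l 4))), by decide +kernel⟩

theorem c_pm_033 : CertF 0 536870912 1610612736 536870912 201326592 134217728 true true false .pnn 0 3 3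
    ndF1q0 ndF1q3 pcF3 Cut.none Ext.none :=
  certF1 (fam := true) (s1 := true) (s2 := false) (a := 0) (b := 3) (c := 3) (cn := .pnn) (n1 := ndF1q0) (n2 := ndF1q3) (pc := pcF3) (cut := Cut.none) (xt := Ext.none) (P1 := 0) (W1 := 536870912) (P2 := 1610612736) (W2 := 536870912) (P3 := 201326592) (W3 := 134217728)
    rfl (fun _ => rfl) k0_pm_033

noncomputable def f_pm_101 : ℕ → ℕ → ℕ → ℕ → Bool := onCell 536870912 536870912 0 536870912 201326592 134217728
    (rowF 2 true true false .npn 1 0 1 (qsf 536870912 536870912 0 536870912 1) ndF1q1 ndF1q0 pcF1 Cut.none Ext.none)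

def k0_pm_101 : ∃ t, chk3 f_pm_101 t 1 1 1 = true :=
  ⟨(l 3), by decide +kernel⟩

theorem c_pm_101 : CertF 536870912 536870912 0 536870912 201326592 134217728 true true false .npn 1 0 1
    ndF1q1 ndF1q0 pcF1 Cut.none Ext.none :=
  certF2 (fam := true) (s1 := true) (s2 := false) (a := 1) (b := 0) (c := 1) (cn := .npn) (n1 := ndF1q1) (n2 := ndF1q0) (pc := pcF1) (cut := Cut.none) (xt := Ext.none) (P1 := 536870912) (W1 := 536870912) (P2 := 0) (W2 := 536870912) (P3 := 201326592) (W3 := 134217728)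
    rfl (fun _ => rfl) k0_pm_101

noncomputable def f_pm_102 : ℕ → ℕ → ℕ → ℕ → Bool := onCell 536870912 536870912 1073741824 536870912 201326592 134217728
    (rowF 1 true true false .npp 1 0 2 (qsf 536870912 536870912 0 536870912 2) ndF1q1 ndF1q0 pcF2 Cut.none Ext.none)

def k0_pm_102 : ∃ t, chk3 f_pm_102 t 1 1 1 = true :=
  ⟨(b (b (l 3) (b (b (b (l 3) (a (b (l 3) (b (l 3) (l 17218256))) (b (l 3) (a (b (l 3) (b (l 17034008) (l 17030616))) (b (a (l 16977744) (l 16929704)) (a (b (l 16972952) (l 16969208)) (b (l 16924648) (l 16920696)))))))) (a (l 16970840) (a (l 17009424) (a (l 16937928) (l 16887688))))) (a (l 16965592) (a (l 17015920) (a (l 16846456) (l 16791096)))))) (b (a (l 16999848) (a (l 17099400) (a (l 17079224) (l 16943176)))) (a (l 2) (a (l 17193528) (l 17294408))))), by decide +kernel⟩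

theorem c_pm_102 : CertF 536870912 536870912 0 536870912 201326592 134217728 true true false .npp 1 0 2
    ndF1q1 ndF1q0 pcF2 Cut.none Ext.none :=
  certF1 (fam := true) (s1 := true) (s2 := false) (a := 1) (b := 0) (c := 2) (cn := .npp) (n1 := ndF1q1) (n2 := ndF1q0) (pc := pcF2) (cut := Cut.none) (xt := Ext.none) (P1 := 536870912) (W1 := 536870912) (P2 := 0) (W2 := 536870912) (P3 := 201326592) (W3 := 134217728)
    rfl (fun _ => rfl) k0_pm_102

noncomputable def f_pm_112 : ℕ → ℕ → ℕ → ℕ → Bool := onCell 536870912 536870912 1073741824 536870912 201326592 134217728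
    (rowF 1 true true false .dn 1 1 2 (qsf 536870912 536870912 536870912 536870912 2) ndF1q1 ndF1q1 pcF2 Cut.none Ext.none)

def k0_pm_112 : ∃ t, chk3 f_pm_112 t 1 1 1 = true :=
  ⟨(b (b (l 3) (a (b (b (b (l 3) (b (l 3) (b (l 3) (l 197737741847)))) (l 17221632)) (l 17291096)) (b (l 1) (l 379603098807)))) (a (b (l 17337488) (l 17310120)) (b (l 285650666039) (l 17347856)))), by decide +kernel⟩

theorem c_pm_112 : CertF 536870912 536870912 536870912 536870912 201326592 134217728 true true false .dn 1 1 2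
    ndF1q1 ndF1q1 pcF2 Cut.none Ext.none :=
  certF1 (fam := true) (s1 := true) (s2 := false) (a := 1) (b := 1) (c := 2) (cn := .dn) (n1 := ndF1q1) (n2 := ndF1q1) (pc := pcF2) (cut := Cut.none) (xt := Ext.none) (P1 := 536870912) (W1 := 536870912) (P2 := 536870912) (W2 := 536870912) (P3 := 201326592) (W3 := 134217728)
    rfl (fun _ => rfl) k0_pm_112

noncomputable def f_pm_113 : ℕ → ℕ → ℕ → ℕ → Bool := onCell 536870912 536870912 536870912 536870912 201326592 134217728
    (rowF 0 true true false .nn 1 1 3 (qsf 536870912 536870912 536870912 536870912 3) ndF1q1 ndF1q1 pcF3 Cut.none Ext.none)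

def k0_pm_113 : ∃ t, chk3 f_pm_113 t 1 1 1 = true :=
  ⟨(a (b (l 320547133767) (l 17394592)) (b (l 17394592) (b (l 17326232) (a (l 17109064) (b (l 16974248) (a (l 16952440) (b (l 16878536) (a (l 16865624) (b (l 16828336) (a (l 16821360) (a (l 16802856) (b (l 16799232) (a (l 16790048) (b (l 16788208) (l 16782312))))))))))))))), by decide +kernel⟩

theorem c_pm_113 : CertF 536870912 536870912 536870912 536870912 201326592 134217728 true true false .nn 1 1 3
    ndF1q1 ndF1q1 pcF3 Cut.none Ext.none :=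
  certF0 (fam := true) (s1 := true) (s2 := false) (a := 1) (b := 1) (c := 3) (cn := .nn) (n1 := ndF1q1) (n2 := ndF1q1) (pc := pcF3) (cut := Cut.none) (xt := Ext.none) (P1 := 536870912) (W1 := 536870912) (P2 := 536870912) (W2 := 536870912) (P3 := 201326592) (W3 := 134217728)
    rfl k0_pm_113

noncomputable def f_pm_123_a : ℕ → ℕ → ℕ → ℕ → Bool := onCell 1610612736 536870912 0 536870912 201326592 134217728
    (rowF 2 true true false .npn 1 2 3 (qsf 536870912 536870912 0 536870912 3) ndF1q1 ndF1q2a pcF3 Cut.none Ext.none)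

def k0_pm_123_a : ∃ t, chk3 f_pm_123_a t 1 1 1 = true :=
  ⟨(a (a (b (a (l 1) (l 194381947751)) (a (l 17330088) (b (l 17140528) (l 17203792)))) (b (a (l 17035456) (l 17078080)) (a (b (l 17095480) (l 17156296)) (b (l 17043528) (l 17103880))))) (a (b (a (l 16959696) (l 4)) (a (b (l 16990792) (l 17046432)) (b (l 16941296) (l 16992584)))) (a (b (l 4) (b (l 4) (l 17004352))) (l 4)))), by decide +kernel⟩

theorem c_pm_123_a : CertF 536870912 536870912 0 536870912 201326592 134217728 true true false .npn 1 2 3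
    ndF1q1 ndF1q2a pcF3 Cut.none Ext.none :=
  certF2 (fam := true) (s1 := true) (s2 := false) (a := 1) (b := 2) (c := 3) (cn := .npn) (n1 := ndF1q1) (n2 := ndF1q2a) (pc := pcF3) (cut := Cut.none) (xt := Ext.none) (P1 := 536870912) (W1 := 536870912) (P2 := 0) (W2 := 536870912) (P3 := 201326592) (W3 := 134217728)
    rfl (fun _ => rfl) k0_pm_123_a

noncomputable def f_pm_123_b : ℕ → ℕ → ℕ → ℕ → Bool := onCell 1610612736 536870912 1239849684 370763052 201326592 134217728
    (rowF 2 true true false .npn 1 2 3 (qsf 536870912 536870912 1239849684 370763052 3) ndF1q1 ndF1q2b pcF3 Cut.none Ext.none)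

def k0_pm_123_b : ∃ t, chk3 f_pm_123_b t 1 1 1 = true :=
  ⟨(b (a (a (l 1) (a (l 17028376) (l 17114720))) (l 4)) (a (l 1) (l 4))), by decide +kernel⟩

theorem c_pm_123_b : CertF 536870912 536870912 1239849684 370763052 201326592 134217728 true true false .npn 1 2 3
    ndF1q1 ndF1q2b pcF3 Cut.none Ext.none :=
  certF2 (fam := true) (s1 := true) (s2 := false) (a := 1) (b := 2) (c := 3) (cn := .npn) (n1 := ndF1q1) (n2 := ndF1q2b) (pc := pcF3) (cut := Cut.none) (xt := Ext.none) (P1 := 536870912) (W1 := 536870912) (P2 := 1239849684) (W2 := 370763052) (P3 := 201326592) (W3 := 134217728)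
    rfl (fun _ => rfl) k0_pm_123_b

noncomputable def f_pm_133 : ℕ → ℕ → ℕ → ℕ → Bool := onCell 536870912 536870912 1610612736 536870912 201326592 134217728
    (rowF 0 true true false .dn 1 3 3 (qsf 536870912 536870912 1610612736 536870912 3) ndF1q1 ndF1q3 pcF3 Cut.none Ext.none)

def k0_pm_133 : ∃ t, chk3 f_pm_133 t 1 1 1 = true :=
  ⟨(l 4), by decide +kernel⟩

theorem c_pm_133 : CertF 536870912 536870912 1610612736 536870912 201326592 134217728 true true false .dn 1 3 3
    ndF1q1 ndF1q3 pcF3 Cut.none Ext.none :=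
  certF0 (fam := true) (s1 := true) (s2 := false) (a := 1) (b := 3) (c := 3) (cn := .dn) (n1 := ndF1q1) (n2 := ndF1q3) (pc := pcF3) (cut := Cut.none) (xt := Ext.none) (P1 := 536870912) (W1 := 536870912) (P2 := 1610612736) (W2 := 536870912) (P3 := 201326592) (W3 := 134217728)
    rfl k0_pm_133

noncomputable def cut_pm_202_a : Cut := Cut.of [[⟨0, 1, 0, 67108864⟩, ⟨1, 0, 0, 67108864⟩, ⟨2, 1, 0, 67108864⟩]]

noncomputable def f_pm_202_a : ℕ → ℕ → ℕ → ℕ → Bool := onCell 0 536870912 1073741824 536870912 201326592 134217728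
    (rowF 1 true true false .pp 2 0 2 (qsf 0 536870912 0 536870912 2) ndF1q2a ndF1q0 pcF2 cut_pm_202_a Ext.none)

def k0_pm_202_a : ∃ t, chk3 f_pm_202_a t 2 1 1 = true :=
  ⟨(b (a (b (l 1) (b (b (b (l 1) (a (b (l 1) (b (l 1) (c (b (l 16502624) (l 16522528)) (a (l 16556872) (l 16554776))))) (b (c (l 64457552919) (l 16514576)) (b (c (l 16498296) (l 16467136)) (c (b (l 16496304) (l 16516264)) (b (l 16464808) (l 16505472))))))) (b (c (a (l 16514392) (l 16508144)) (a (l 16483112) (l 16475888))) (c (l 16503768) (l 16486536)))) (b (c (l 16513912) (l 16504832)) (l 16487424)))) (b (a (l 1) (a (l 1) (b (l 1) (b (l 1) (b (l 1) (b (l 1) (c (c (l 176126777095) (l 16555656)) (l 16549432)))))))) (b (b (b (a (b (l 1) (c (a (l 16514928) (l 16517232)) (l 97743541015))) (c (b (a (l 154651890471) (b (l 16541344) (l 16520216))) (a (l 171294888119) (l 16519392))) (b (a (l 16520592) (l 16525152)) (l 110091581159)))) (c (b (a (a (l 16511248) (l 16507696)) (a (l 16501704) (l 16518352))) (a (b (l 16497992)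 (b (l 16495944) (l 16515136))) (b (l 16508480) (b (l 16506920) (l 16505488))))) (b (a (l 90764203399) (l 16537568)) (b (a (l 16486408) (l 16515304)) (a (b (l 16484768) (l 16504272)) (b (l 16514168) (l 16513096))))))) (c (a (b (l 16500456) (l 16465904)) (b (l 16501896) (l 16498712))) (a (b (l 16479752) (l 16477528)) (b (l 16510376) (l 16508744))))) (b (c (a (l 16478184) (l 16487472)) (a (l 16470952) (l 16500360))) (c (l 16622048) (l 16477696)))))) (b (b (a (b (l 16559528) (l 16802856)) (b (l 16570784) (l 16806920))) (a (l 17030376) (b (l 16968960) (l 17081952)))) (b (a (l 17197768) (l 17201512)) (l 17278296)))), by decide +kernel⟩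

def k1_pm_202_a : ∃ t, chk3 f_pm_202_a t 6 2 1 = true :=
  ⟨(b (a (b (l 1) (b (l 1) (b (c (b (a (l 1) (c (a (l 1) (b (l 93985616247) (l 148209562039))) (l 125661001351))) (a (c (l 147135785879) (l 102038636999)) (c (a (l 173979346263) (l 16584136)) (l 166463157367)))) (a (b (l 1) (l 16579080)) (b (l 138009030999) (l 16587008)))) (b (c (a (c (l 140156442743) (l 16562512)) (l 16572288)) (a (l 16563592) (l 16555320))) (c (a (c (l 16555248) (l 16557864)) (l 16555968)) (a (l 16560816) (l 16557896))))))) (b (l 1) (b (b (a (l 1) (b (l 1) (c (a (c (l 120829242231) (l 139082846919)) (c (a (l 157873339447) (l 164315816231)) (l 155725879143))) (a (l 116534291191) (l 171295133495))))) (a (b (c (a (l 1) (c (l 125661046151) (l 109554940471))) (l 124050457319)) (c (c (a (l 133714074391) (l 161094522823)) (l 149283362279)) (l 150893973591))) (b (c (a (c (b (l 146599039895) (l 178811280727)) (l 163242037639)) (c (l 16631816) (l 16629856))) (a (l 171295099735) (l 16627048))) (c (c (l 16630856)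 (l 16613416)) (l 16611104))))) (c (b (a (b (c (a (l 180958709575) (l 16616104)) (l 195454228695)) (l 16592128)) (b (l 16619360) (l 16596576))) (a (b (l 16574784) (l 16578656)) (l 16662688))) (b (a (b (l 16609600) (l 16574216)) (l 16596568)) (b (l 16587808) (l 16590112))))))) (b (b (b (a (b (c (a (l 16538368) (l 16558536)) (l 16592776)) (c (l 16569144) (l 16550288))) (a (a (l 16647488) (l 16648368)) (l 16666344))) (b (a (c (l 16547232) (l 16549560)) (c (l 16592440) (l 16590352))) (a (b (c (l 16524672) (l 16548360)) (a (a (l 16615536) (l 16624720)) (l 16639400))) (a (a (l 16719800) (l 16731216)) (l 16749272))))) (a (b (l 16616216) (l 16541392)) (b (l 16565400) (l 16585144)))) (b (a (b (l 16537008) (l 16530040)) (l 16638768)) (c (l 16653392) (l 16543888))))), by decide +kernel⟩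

def k2_pm_202_a : ∃ t, chk3 f_pm_202_a t 7 2 1 = true :=
  ⟨(b (a (b (a (b (l 1) (b (l 1) (b (l 1) (a (l 1) (c (b (a (l 1) (l 6)) (c (l 179348246343) (l 182569470711))) (b (l 172905803191) (l 187401305927))))))) (b (l 1) (b (l 6) (b (l 6) (b (l 6) (a (c (l 16677464) (l 16674720)) (l 16678760))))))) (b (b (a (b (a (c (c (a (l 152504663863) (l 159484011127)) (l 162168352759)) (b (l 172905766599) (l 182032560135))) (c (c (a (l 16665544) (l 16666640)) (l 16675040)) (l 16677848))) (c (a (c (l 16659816) (l 16647552)) (l 16651520)) (a (l 16644880) (l 16649336)))) (c (a (l 16681504) (l 16662296)) (a (l 16679944) (l 16661920)))) (a (c (a (l 16647448) (l 16629328)) (l 16647800)) (c (l 16650808) (l 16649864)))) (b (a (c (l 16622464) (l 16621272)) (l 16651992)) (a (l 16708856) (l 16696744))))) (b (b (l 6) (b (l 6) (b (l 6) (a (a (l 16684568) (l 16696568)) (l 16725072))))) (b (a (b (l 16687664) (l 16683736)) (b (l 16722392) (l 16721096))) (b (a (l 16685200) (l 16722456)) (b (l 16706912)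 (l 16709320)))))) (b (b (b (a (a (l 16649832) (l 16637504)) (b (l 16710912) (l 16710632))) (b (a (l 16643880) (l 16710192)) (a (a (l 16753848) (l 16762624)) (b (l 16709352) (l 16750504))))) (a (l 16740088) (l 16744520))) (b (a (l 16609184) (l 16698272)) (a (l 16611728) (l 16682224))))), by decide +kernel⟩

def k3_pm_202_a : ∃ t, chk3 f_pm_202_a t 3 3 1 = true :=
  ⟨(b (b (a (b (l 16629520) (l 16817648)) (a (b (l 16664832) (l 16837808)) (b (l 16735936) (l 16870544)))) (a (b (l 16963504) (l 17067936)) (b (l 16965616) (l 17051336)))) (b (a (b (l 17152984) (l 17219656)) (b (l 17135192) (l 17206392))) (a (l 17281680) (l 17272840)))), by decide +kernel⟩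

theorem s4_pm_202_a : ∃ t, chk3 f_pm_202_a t 3 2 1 = true := ex3_a k1_pm_202_a k2_pm_202_a

theorem s5_pm_202_a : ∃ t, chk3 f_pm_202_a t 3 1 1 = true := ex3_b s4_pm_202_a k3_pm_202_a

theorem s6_pm_202_a : ∃ t, chk3 f_pm_202_a t 1 1 1 = true := ex3_a k0_pm_202_a s5_pm_202_a

theorem c_pm_202_a : CertF 0 536870912 0 536870912 201326592 134217728 true true false .pp 2 0 2
    ndF1q2a ndF1q0 pcF2 cut_pm_202_a Ext.none :=
  certF1 (fam := true) (s1 := true) (s2 := false) (a := 2) (b := 0) (c := 2) (cn := .pp) (n1 := ndF1q2a) (n2 := ndF1q0) (pc := pcF2) (cut := cut_pm_202_a) (xt := Ext.none) (P1 := 0) (W1 := 536870912) (P2 := 0) (W2 := 536870912) (P3 := 201326592) (W3 := 134217728)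
    rfl (fun _ => rfl) s6_pm_202_a

noncomputable def cut_pm_202_b : Cut := Cut.of [[⟨0, 1, 0, 67108864⟩, ⟨1, 0, 0, 67108864⟩, ⟨2, 1, 0, 67108864⟩]]

noncomputable def f_pm_202_b : ℕ → ℕ → ℕ → ℕ → Bool := onCell 1073741824 536870912 0 536870912 201326592 134217728
    (rowF 2 true true false .pp 2 0 2 (qsf 1239849684 370763052 0 536870912 2) ndF1q2b ndF1q0 pcF2 cut_pm_202_b Ext.none)

def k0_pm_202_b : ∃ t, chk3 f_pm_202_b t 1 1 1 = true :=
  ⟨(a (b (a (l 1) (a (b (b (a (a (l 1) (a (l 1) (b (a (l 1) (a (l 1) (b (c (l 16522576) (l 16483384)) (l 1)))) (l 1)))) (b (c (b (a (l 16517768) (l 16467648)) (l 16560656)) (a (l 16532728) (l 16483088))) (c (l 16579080) (l 16576368)))) (l 1)) (l 1)) (b (c (b (a (b (a (l 16467296) (l 16421696)) (l 16475784)) (b (b (l 16412664) (l 16614072)) (l 16608592))) (a (l 16556376) (l 16625016))) (b (a (b (b (l 16454328) (l 16425152)) (l 16466664)) (b (l 16417664) (l 16366264))) (a (l 16533592) (l 16467024)))) (l 1)))) (l 1)) (a (b (a (b (b (b (a (c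 (a (l 16910600) (l 17074200)) (l 16340640)) (c (l 17281072) (l 16308472))) (c (a (l 16952696) (l 17220840)) (l 16440408))) (a (b (l 16534496) (l 16558680)) (c (l 17142720) (l 16468648)))) (b (a (l 16623680) (l 16805568)) (l 1))) (b (b (c (a (l 17464184) (l 17629544)) (a (b (l 16634880) (l 16732296)) (b (l 16999000) (l 16957128)))) (a (c (l 17334416) (l 16710136)) (l 17179472))) (b (a (l 16972856) (l 17120808)) (l 149821409335)))) (l 1)) (b (a (b (a (b (c (l 17752608) (l 17146024)) (l 17340952)) (c (l 17780888) (l 17233176))) (b (l 17304096) (l 17224968))) (b (c (l 17900600) (b (l 17433960) (l 17351960))) (l 17439664))) (b (a (b (l 17162048) (l 1)) (l 17257672)) (l 1))))), by decide +kernel⟩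

theorem c_pm_202_b : CertF 1239849684 370763052 0 536870912 201326592 134217728 true true false .pp 2 0 2
    ndF1q2b ndF1q0 pcF2 cut_pm_202_b Ext.none :=
  certF2 (fam := true) (s1 := true) (s2 := false) (a := 2) (b := 0) (c := 2) (cn := .pp) (n1 := ndF1q2b) (n2 := ndF1q0) (pc := pcF2) (cut := cut_pm_202_b) (xt := Ext.none) (P1 := 1239849684) (W1 := 370763052) (P2 := 0) (W2 := 536870912) (P3 := 201326592) (W3 := 134217728)
    rfl (fun _ => rfl) k0_pm_202_b

noncomputable def f_pm_203_a : ℕ → ℕ → ℕ → ℕ → Bool := onCell 0 536870912 1610612736 536870912 201326592 134217728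
    (rowF 1 true true false .up 2 0 3 (qsf 0 536870912 0 536870912 3) ndF1q2a ndF1q0 pcF3 Cut.none Ext.none)

def k0_pm_203_a : ∃ t, chk3 f_pm_203_a t 1 1 1 = true :=
  ⟨(b (b (a (b (a (l 17369840) (l 17336104)) (a (l 17302032) (l 17346704))) (a (b (l 17342400) (l 17367416)) (b (l 17339816) (l 17385800)))) (a (b (l 17481400) (l 2)) (a (l 2) (l 2)))) (l 2)), by decide +kernel⟩

theorem c_pm_203_a : CertF 0 536870912 0 536870912 201326592 134217728 true true false .up 2 0 3
    ndF1q2a ndF1q0 pcF3 Cut.none Ext.none :=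
  certF1 (fam := true) (s1 := true) (s2 := false) (a := 2) (b := 0) (c := 3) (cn := .up) (n1 := ndF1q2a) (n2 := ndF1q0) (pc := pcF3) (cut := Cut.none) (xt := Ext.none) (P1 := 0) (W1 := 536870912) (P2 := 0) (W2 := 536870912) (P3 := 201326592) (W3 := 134217728)
    rfl (fun _ => rfl) k0_pm_203_a

noncomputable def f_pm_203_b : ℕ → ℕ → ℕ → ℕ → Bool := onCell 1239849684 370763052 1610612736 536870912 201326592 134217728
    (rowF 1 true true false .up 2 0 3 (qsf 1239849684 370763052 0 536870912 3) ndF1q2b ndF1q0 pcF3 Cut.none Ext.none)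

def k0_pm_203_b : ∃ t, chk3 f_pm_203_b t 1 1 1 = true :=
  ⟨(b (b (a (b (c (l 17575544) (l 17366232)) (a (l 17332488) (l 17456992))) (b (a (c (l 17794760) (l 17449720)) (c (l 17911120) (b (l 17573552) (l 17568616)))) (c (l 17789864) (l 17493984)))) (b (a (a (l 17312824) (l 17421832)) (l 17635256)) (b (a (l 17345176) (l 17549360)) (l 4)))) (b (l 4) (l 4))), by decide +kernel⟩

theorem c_pm_203_b : CertF 1239849684 370763052 0 536870912 201326592 134217728 true true false .up 2 0 3
    ndF1q2b ndF1q0 pcF3 Cut.none Ext.none :=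
  certF1 (fam := true) (s1 := true) (s2 := false) (a := 2) (b := 0) (c := 3) (cn := .up) (n1 := ndF1q2b) (n2 := ndF1q0) (pc := pcF3) (cut := Cut.none) (xt := Ext.none) (P1 := 1239849684) (W1 := 370763052) (P2 := 0) (W2 := 536870912) (P3 := 201326592) (W3 := 134217728)
    rfl (fun _ => rfl) k0_pm_203_b

noncomputable def f_pm_213_a : ℕ → ℕ → ℕ → ℕ → Bool := onCell 0 536870912 1610612736 536870912 201326592 134217728
    (rowF 1 true true false .pnn 2 1 3 (qsf 0 536870912 536870912 536870912 3) ndF1q2a ndF1q1 pcF3 Cut.none Ext.none)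

def k0_pm_213_a : ∃ t, chk3 f_pm_213_a t 1 1 1 = true :=
  ⟨(b (b (a (b (l 1) (l 194381947751)) (b (l 17330088) (a (l 17140528) (l 17203792)))) (a (b (l 17035456) (l 17078080)) (b (a (l 17095480) (l 17156296)) (a (l 17043528) (l 17103880))))) (b (a (b (l 16959696) (l 4)) (b (a (l 16990792) (l 17046432)) (a (l 16941296) (l 16992584)))) (b (a (l 4) (a (l 4) (l 17004352))) (l 4)))), by decide +kernel⟩

theorem c_pm_213_a : CertF 0 536870912 536870912 536870912 201326592 134217728 true true false .pnn 2 1 3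
    ndF1q2a ndF1q1 pcF3 Cut.none Ext.none :=
  certF1 (fam := true) (s1 := true) (s2 := false) (a := 2) (b := 1) (c := 3) (cn := .pnn) (n1 := ndF1q2a) (n2 := ndF1q1) (pc := pcF3) (cut := Cut.none) (xt := Ext.none) (P1 := 0) (W1 := 536870912) (P2 := 536870912) (W2 := 536870912) (P3 := 201326592) (W3 := 134217728)
    rfl (fun _ => rfl) k0_pm_213_a

noncomputable def f_pm_213_b : ℕ → ℕ → ℕ → ℕ → Bool := onCell 1239849684 370763052 1610612736 536870912 201326592 134217728
    (rowF 1 true true false .pnn 2 1 3 (qsf 1239849684 370763052 536870912 536870912 3) ndF1q2b ndF1q1 pcF3 Cut.none Ext.none)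

def k0_pm_213_b : ∃ t, chk3 f_pm_213_b t 1 1 1 = true :=
  ⟨(a (b (b (l 1) (b (l 17028376) (l 17114720))) (l 4)) (b (l 1) (l 4))), by decide +kernel⟩

theorem c_pm_213_b : CertF 1239849684 370763052 536870912 536870912 201326592 134217728 true true false .pnn 2 1 3
    ndF1q2b ndF1q1 pcF3 Cut.none Ext.none :=
  certF1 (fam := true) (s1 := true) (s2 := false) (a := 2) (b := 1) (c := 3) (cn := .pnn) (n1 := ndF1q2b) (n2 := ndF1q1) (pc := pcF3) (cut := Cut.none) (xt := Ext.none) (P1 := 1239849684) (W1 := 370763052) (P2 := 536870912) (W2 := 536870912) (P3 := 201326592) (W3 := 134217728)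
    rfl (fun _ => rfl) k0_pm_213_b

noncomputable def f_pm_303 : ℕ → ℕ → ℕ → ℕ → Bool := onCell 1610612736 536870912 0 536870912 201326592 134217728
    (rowF 2 true true false .npn 3 0 3 (qsf 1610612736 536870912 0 536870912 3) ndF1q3 ndF1q0 pcF3 Cut.none Ext.none)

def k0_pm_303 : ∃ t, chk3 f_pm_303 t 1 1 1 = true :=
  ⟨(a (a (b (a (b (c (l 319474572247) (b (l 17638288) (l 17543192))) (l 1)) (b (c (l 17883016) (l 17622432)) (l 17559392))) (l 1)) (b (a (b (l 17770248) (l 17581784)) (b (a (l 17765344) (l 17751672)) (l 17588344))) (a (l 1) (a (l 1) (l 4))))) (a (l 4) (l 4))), by decide +kernel⟩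

theorem c_pm_303 : CertF 1610612736 536870912 0 536870912 201326592 134217728 true true false .npn 3 0 3
    ndF1q3 ndF1q0 pcF3 Cut.none Ext.none :=
  certF2 (fam := true) (s1 := true) (s2 := false) (a := 3) (b := 0) (c := 3) (cn := .npn) (n1 := ndF1q3) (n2 := ndF1q0) (pc := pcF3) (cut := Cut.none) (xt := Ext.none) (P1 := 1610612736) (W1 := 536870912) (P2 := 0) (W2 := 536870912) (P3 := 201326592) (W3 := 134217728)
    rfl (fun _ => rfl) k0_pm_303

noncomputable def f_pm_313 : ℕ → ℕ → ℕ → ℕ → Bool := onCell 1610612736 536870912 536870912 536870912 201326592 134217728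
    (rowF 0 true true false .dn 3 1 3 (qsf 1610612736 536870912 536870912 536870912 3) ndF1q3 ndF1q1 pcF3 Cut.none Ext.none)

def k0_pm_313 : ∃ t, chk3 f_pm_313 t 1 1 1 = true :=
  ⟨(l 4), by decide +kernel⟩

theorem c_pm_313 : CertF 1610612736 536870912 536870912 536870912 201326592 134217728 true true false .dn 3 1 3
    ndF1q3 ndF1q1 pcF3 Cut.none Ext.none :=
  certF0 (fam := true) (s1 := true) (s2 := false) (a := 3) (b := 1) (c := 3) (cn := .dn) (n1 := ndF1q3) (n2 := ndF1q1) (pc := pcF3) (cut := Cut.none) (xt := Ext.none) (P1 := 1610612736) (W1 := 536870912) (P2 := 536870912) (W2 := 536870912) (P3 := 201326592) (W3 := 134217728)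
    rfl k0_pm_313

noncomputable def f_mm_001 : ℕ → ℕ → ℕ → ℕ → Bool := onCell 0 536870912 0 536870912 201326592 134217728
    (rowF 0 true false false .up 0 0 1 (qsf 0 536870912 0 536870912 1) ndF1q0 ndF1q0 pcF1 Cut.none Ext.none)

def k0_mm_001 : ∃ t, chk3 f_mm_001 t 1 1 1 = true :=
  ⟨(l 4), by decide +kernel⟩

theorem c_mm_001 : CertF 0 536870912 0 536870912 201326592 134217728 true false false .up 0 0 1
    ndF1q0 ndF1q0 pcF1 Cut.none Ext.none :=
  certF0 (fam := true) (s1 := false) (s2 := false) (a := 0) (b := 0) (c := 1) (cn := .up) (n1 := ndF1q0) (n2 := ndF1q0) (pc := pcF1) (cut := Cut.none) (xt := Ext.none) (P1 := 0) (W1 := 536870912) (P2 := 0) (W2 := 536870912) (P3 := 201326592) (W3 := 134217728)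
    rfl k0_mm_001

noncomputable def f_mm_011 : ℕ → ℕ → ℕ → ℕ → Bool := onCell 0 536870912 536870912 536870912 201326592 134217728
    (rowF 0 true false false .pnn 0 1 1 (qsf 0 536870912 536870912 536870912 1) ndF1q0 ndF1q1 pcF1 Cut.none Ext.none)

def k0_mm_011 : ∃ t, chk3 f_mm_011 t 1 1 1 = true :=
  ⟨(l 4), by decide +kernel⟩

theorem c_mm_011 : CertF 0 536870912 536870912 536870912 201326592 134217728 true false false .pnn 0 1 1
    ndF1q0 ndF1q1 pcF1 Cut.none Ext.none :=
  certF0 (fam := true) (s1 := false) (s2 := false) (a := 0) (b := 1) (c := 1) (cn := .pnn) (n1 := ndF1q0) (n2 := ndF1q1) (pc := pcF1) (cut := Cut.none) (xt := Ext.none) (P1 := 0) (W1 := 536870912) (P2 := 536870912) (W2 := 536870912) (P3 := 201326592) (W3 := 134217728)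
    rfl k0_mm_011

noncomputable def f_mm_012 : ℕ → ℕ → ℕ → ℕ → Bool := onCell 0 536870912 536870912 536870912 201326592 134217728
    (rowF 0 true false false .pnp 0 1 2 (qsf 0 536870912 536870912 536870912 2) ndF1q0 ndF1q1 pcF2 Cut.none Ext.none)

def k0_mm_012 : ∃ t, chk3 f_mm_012 t 1 1 1 = true :=
  ⟨(l 4), by decide +kernel⟩

theorem c_mm_012 : CertF 0 536870912 536870912 536870912 201326592 134217728 true false false .pnp 0 1 2
    ndF1q0 ndF1q1 pcF2 Cut.none Ext.none :=
  certF0 (fam := true) (s1 := false) (s2 := false) (a := 0) (b := 1) (c := 2) (cn := .pnp) (n1 := ndF1q0) (n2 := ndF1q1) (pc := pcF2) (cut := Cut.none) (xt := Ext.none) (P1 := 0) (W1 := 536870912) (P2 := 536870912) (W2 := 536870912) (P3 := 201326592) (W3 := 134217728)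
    rfl k0_mm_012

noncomputable def f_mm_022_a : ℕ → ℕ → ℕ → ℕ → Bool := onCell 0 536870912 0 536870912 201326592 134217728
    (rowF 0 true false false .pp 0 2 2 (qsf 0 536870912 0 536870912 2) ndF1q0 ndF1q2a pcF2 Cut.none Ext.none)

def k0_mm_022_a : ∃ t, chk3 f_mm_022_a t 1 1 1 = true :=
  ⟨(l 5), by decide +kernel⟩

theorem c_mm_022_a : CertF 0 536870912 0 536870912 201326592 134217728 true false false .pp 0 2 2
    ndF1q0 ndF1q2a pcF2 Cut.none Ext.none :=
  certF0 (fam := true) (s1 := false) (s2 := false) (a := 0) (b := 2) (c := 2) (cn := .pp) (n1 := ndF1q0) (n2 := ndF1q2a) (pc := pcF2) (cut := Cut.none) (xt := Ext.none) (P1 := 0) (W1 := 536870912) (P2 := 0) (W2 := 536870912) (P3 := 201326592) (W3 := 134217728)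
    rfl k0_mm_022_a

noncomputable def f_mm_022_b : ℕ → ℕ → ℕ → ℕ → Bool := onCell 0 536870912 1239849684 370763052 201326592 134217728
    (rowF 0 true false false .pp 0 2 2 (qsf 0 536870912 1239849684 370763052 2) ndF1q0 ndF1q2b pcF2 Cut.none Ext.none)

def k0_mm_022_b : ∃ t, chk3 f_mm_022_b t 1 1 1 = true :=
  ⟨(l 5), by decide +kernel⟩

theorem c_mm_022_b : CertF 0 536870912 1239849684 370763052 201326592 134217728 true false false .pp 0 2 2
    ndF1q0 ndF1q2b pcF2 Cut.none Ext.none :=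
  certF0 (fam := true) (s1 := false) (s2 := false) (a := 0) (b := 2) (c := 2) (cn := .pp) (n1 := ndF1q0) (n2 := ndF1q2b) (pc := pcF2) (cut := Cut.none) (xt := Ext.none) (P1 := 0) (W1 := 536870912) (P2 := 1239849684) (W2 := 370763052) (P3 := 201326592) (W3 := 134217728)
    rfl k0_mm_022_b

noncomputable def f_mm_023_a : ℕ → ℕ → ℕ → ℕ → Bool := onCell 0 536870912 0 536870912 201326592 134217728
    (rowF 0 true false false .up 0 2 3 (qsf 0 536870912 0 536870912 3) ndF1q0 ndF1q2a pcF3 Cut.none Ext.none)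

def k0_mm_023_a : ∃ t, chk3 f_mm_023_a t 1 1 1 = true :=
  ⟨(l 5), by decide +kernel⟩

theorem c_mm_023_a : CertF 0 536870912 0 536870912 201326592 134217728 true false false .up 0 2 3
    ndF1q0 ndF1q2a pcF3 Cut.none Ext.none :=
  certF0 (fam := true) (s1 := false) (s2 := false) (a := 0) (b := 2) (c := 3) (cn := .up) (n1 := ndF1q0) (n2 := ndF1q2a) (pc := pcF3) (cut := Cut.none) (xt := Ext.none) (P1 := 0) (W1 := 536870912) (P2 := 0) (W2 := 536870912) (P3 := 201326592) (W3 := 134217728)
    rfl k0_mm_023_a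

noncomputable def f_mm_023_b : ℕ → ℕ → ℕ → ℕ → Bool := onCell 0 536870912 1239849684 370763052 201326592 134217728
    (rowF 0 true false false .up 0 2 3 (qsf 0 536870912 1239849684 370763052 3) ndF1q0 ndF1q2b pcF3 Cut.none Ext.none)

def k0_mm_023_b : ∃ t, chk3 f_mm_023_b t 1 1 1 = true :=
  ⟨(l 5), by decide +kernel⟩

theorem c_mm_023_b : CertF 0 536870912 1239849684 370763052 201326592 134217728 true false false .up 0 2 3
    ndF1q0 ndF1q2b pcF3 Cut.none Ext.none :=
  certF0 (fam := true) (s1 := false) (s2 := false) (a := 0) (b := 2) (c := 3) (cn := .up) (n1 := ndF1q0) (n2 := ndF1q2b) (pc := pcF3) (cut := Cut.none) (xt := Ext.none) (P1 := 0) (W1 := 536870912) (P2 := 1239849684) (W2 := 370763052) (P3 := 201326592) (W3 := 134217728)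
    rfl k0_mm_023_b

noncomputable def f_mm_033 : ℕ → ℕ → ℕ → ℕ → Bool := onCell 0 536870912 1610612736 536870912 201326592 134217728
    (rowF 0 true false false .pnn 0 3 3 (qsf 0 536870912 1610612736 536870912 3) ndF1q0 ndF1q3 pcF3 Cut.none Ext.none)

def k0_mm_033 : ∃ t, chk3 f_mm_033 t 1 1 1 = true :=
  ⟨(l 5), by decide +kernel⟩

theorem c_mm_033 : CertF 0 536870912 1610612736 536870912 201326592 134217728 true false false .pnn 0 3 3
    ndF1q0 ndF1q3 pcF3 Cut.none Ext.none :=
  certF0 (fam := true) (s1 := false) (s2 := false) (a := 0) (b := 3) (c := 3) (cn := .pnn) (n1 := ndF1q0) (n2 := ndF1q3) (pc := pcF3) (cut := Cut.none) (xt := Ext.none) (P1 := 0) (W1 := 536870912) (P2 := 1610612736) (W2 := 536870912) (P3 := 201326592) (W3 := 134217728)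
    rfl k0_mm_033

noncomputable def f_mm_101 : ℕ → ℕ → ℕ → ℕ → Bool := onCell 536870912 536870912 0 536870912 201326592 134217728
    (rowF 0 true false false .npn 1 0 1 (qsf 536870912 536870912 0 536870912 1) ndF1q1 ndF1q0 pcF1 Cut.none Ext.none)

def k0_mm_101 : ∃ t, chk3 f_mm_101 t 1 1 1 = true :=
  ⟨(l 4), by decide +kernel⟩

theorem c_mm_101 : CertF 536870912 536870912 0 536870912 201326592 134217728 true false false .npn 1 0 1
    ndF1q1 ndF1q0 pcF1 Cut.none Ext.none :=
  certF0 (fam := true) (s1 := false) (s2 := false) (a := 1) (b := 0) (c := 1) (cn := .npn) (n1 := ndF1q1) (n2 := ndF1q0) (pc := pcF1) (cut := Cut.none) (xt := Ext.none) (P1 := 536870912) (W1 := 536870912) (P2 := 0) (W2 := 536870912) (P3 := 201326592) (W3 := 134217728)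
    rfl k0_mm_101

noncomputable def f_mm_102 : ℕ → ℕ → ℕ → ℕ → Bool := onCell 536870912 536870912 0 536870912 201326592 134217728
    (rowF 0 true false false .npp 1 0 2 (qsf 536870912 536870912 0 536870912 2) ndF1q1 ndF1q0 pcF2 Cut.none Ext.none)

def k0_mm_102 : ∃ t, chk3 f_mm_102 t 1 1 1 = true :=
  ⟨(l 4), by decide +kernel⟩

theorem c_mm_102 : CertF 536870912 536870912 0 536870912 201326592 134217728 true false false .npp 1 0 2
    ndF1q1 ndF1q0 pcF2 Cut.none Ext.none :=
  certF0 (fam := true) (s1 := false) (s2 := false) (a := 1) (b := 0) (c := 2) (cn := .npp) (n1 := ndF1q1) (n2 := ndF1q0) (pc := pcF2) (cut := Cut.none) (xt := Ext.none) (P1 := 536870912) (W1 := 536870912) (P2 := 0) (W2 := 536870912) (P3 := 201326592) (W3 := 134217728)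
    rfl k0_mm_102

noncomputable def f_mm_112 : ℕ → ℕ → ℕ → ℕ → Bool := onCell 536870912 536870912 536870912 536870912 201326592 134217728
    (rowF 0 true false false .dn 1 1 2 (qsf 536870912 536870912 536870912 536870912 2) ndF1q1 ndF1q1 pcF2 Cut.none Ext.none)

def k0_mm_112 : ∃ t, chk3 f_mm_112 t 1 1 1 = true :=
  ⟨(l 4), by decide +kernel⟩

theorem c_mm_112 : CertF 536870912 536870912 536870912 536870912 201326592 134217728 true false false .dn 1 1 2
    ndF1q1 ndF1q1 pcF2 Cut.none Ext.none :=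
  certF0 (fam := true) (s1 := false) (s2 := false) (a := 1) (b := 1) (c := 2) (cn := .dn) (n1 := ndF1q1) (n2 := ndF1q1) (pc := pcF2) (cut := Cut.none) (xt := Ext.none) (P1 := 536870912) (W1 := 536870912) (P2 := 536870912) (W2 := 536870912) (P3 := 201326592) (W3 := 134217728)
    rfl k0_mm_112

noncomputable def f_mm_113 : ℕ → ℕ → ℕ → ℕ → Bool := onCell 536870912 536870912 536870912 536870912 201326592 134217728
    (rowF 0 true false false .nn 1 1 3 (qsf 536870912 536870912 536870912 536870912 3) ndF1q1 ndF1q1 pcF3 Cut.none Ext.none)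

def k0_mm_113 : ∃ t, chk3 f_mm_113 t 1 1 1 = true :=
  ⟨(l 4), by decide +kernel⟩

theorem c_mm_113 : CertF 536870912 536870912 536870912 536870912 201326592 134217728 true false false .nn 1 1 3
    ndF1q1 ndF1q1 pcF3 Cut.none Ext.none :=
  certF0 (fam := true) (s1 := false) (s2 := false) (a := 1) (b := 1) (c := 3) (cn := .nn) (n1 := ndF1q1) (n2 := ndF1q1) (pc := pcF3) (cut := Cut.none) (xt := Ext.none) (P1 := 536870912) (W1 := 536870912) (P2 := 536870912) (W2 := 536870912) (P3 := 201326592) (W3 := 134217728)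
    rfl k0_mm_113

noncomputable def f_mm_123_a : ℕ → ℕ → ℕ → ℕ → Bool := onCell 536870912 536870912 0 536870912 201326592 134217728
    (rowF 0 true false false .npn 1 2 3 (qsf 536870912 536870912 0 536870912 3) ndF1q1 ndF1q2a pcF3 Cut.none Ext.none)

def k0_mm_123_a : ∃ t, chk3 f_mm_123_a t 1 1 1 = true :=
  ⟨(l 4), by decide +kernel⟩

theorem c_mm_123_a : CertF 536870912 536870912 0 536870912 201326592 134217728 true false false .npn 1 2 3
    ndF1q1 ndF1q2a pcF3 Cut.none Ext.none :=
  certF0 (fam := true) (s1 := false) (s2 := false) (a := 1) (b := 2) (c := 3) (cn := .npn) (n1 := ndF1q1) (n2 := ndF1q2a) (pc := pcF3) (cut := Cut.none) (xt := Ext.none) (P1 := 536870912) (W1 := 536870912) (P2 := 0) (W2 := 536870912) (P3 := 201326592) (W3 := 134217728)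
    rfl k0_mm_123_a

noncomputable def f_mm_123_b : ℕ → ℕ → ℕ → ℕ → Bool := onCell 536870912 536870912 1239849684 370763052 201326592 134217728
    (rowF 0 true false false .npn 1 2 3 (qsf 536870912 536870912 1239849684 370763052 3) ndF1q1 ndF1q2b pcF3 Cut.none Ext.none)

def k0_mm_123_b : ∃ t, chk3 f_mm_123_b t 1 1 1 = true :=
  ⟨(l 4), by decide +kernel⟩

theorem c_mm_123_b : CertF 536870912 536870912 1239849684 370763052 201326592 134217728 true false false .npn 1 2 3
    ndF1q1 ndF1q2b pcF3 Cut.none Ext.none :=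
  certF0 (fam := true) (s1 := false) (s2 := false) (a := 1) (b := 2) (c := 3) (cn := .npn) (n1 := ndF1q1) (n2 := ndF1q2b) (pc := pcF3) (cut := Cut.none) (xt := Ext.none) (P1 := 536870912) (W1 := 536870912) (P2 := 1239849684) (W2 := 370763052) (P3 := 201326592) (W3 := 134217728)
    rfl k0_mm_123_b

noncomputable def f_mm_133 : ℕ → ℕ → ℕ → ℕ → Bool := onCell 536870912 536870912 1610612736 536870912 201326592 134217728
    (rowF 0 true false false .dn 1 3 3 (qsf 536870912 536870912 1610612736 536870912 3) ndF1q1 ndF1q3 pcF3 Cut.none Ext.none)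

def k0_mm_133 : ∃ t, chk3 f_mm_133 t 1 1 1 = true :=
  ⟨(l 4), by decide +kernel⟩

theorem c_mm_133 : CertF 536870912 536870912 1610612736 536870912 201326592 134217728 true false false .dn 1 3 3
    ndF1q1 ndF1q3 pcF3 Cut.none Ext.none :=
  certF0 (fam := true) (s1 := false) (s2 := false) (a := 1) (b := 3) (c := 3) (cn := .dn) (n1 := ndF1q1) (n2 := ndF1q3) (pc := pcF3) (cut := Cut.none) (xt := Ext.none) (P1 := 536870912) (W1 := 536870912) (P2 := 1610612736) (W2 := 536870912) (P3 := 201326592) (W3 := 134217728)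
    rfl k0_mm_133

noncomputable def cut_mm_202_a : Cut := Cut.of [[⟨0, 1, 0, 67108864⟩, ⟨1, 0, 0, 67108864⟩, ⟨2, 1, 0, 67108864⟩]]

noncomputable def f_mm_202_a : ℕ → ℕ → ℕ → ℕ → Bool := onCell 0 536870912 0 536870912 201326592 134217728
    (rowF 0 true false false .pp 2 0 2 (qsf 0 536870912 0 536870912 2) ndF1q2a ndF1q0 pcF2 cut_mm_202_a Ext.none)

def k0_mm_202_a : ∃ t, chk3 f_mm_202_a t 1 1 1 = true :=
  ⟨(b (a (b (b (a (b (b (c (a (l 16571400) (l 16599384)) (a (l 16572192) (l 16577968))) (c (l 16613688) (l 16593688))) (a (l 16564240) (l 16596472))) (b (a (b (c (b (l 16612152) (l 16590408)) (l 16588960)) (c (l 16589768) (l 16588640))) (b (c (b (a (l 16602920) (l 16612304)) (l 16607552)) (b (l 16604488) (l 16604712))) (c (l 16607816) (l 16605360)))) (a (c (l 16590904) (l 16589864)) (b (l 16629624) (l 16637168))))) (a (b (l 16657000) (l 16706184)) (b (a (b (l 16598736) (l 16618096)) (b (l 16637424) (l 4))) (l 4)))) (a (b (b (l 16780200) (l 4)) (l 4)) (l 4))) (b (a (b (a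 (b (b (c (b (a (l 16622816) (c (l 16635160) (l 16633728))) (l 16670896)) (a (l 16618872) (b (l 16629832) (l 16630528)))) (c (l 16650672) (l 16647064))) (b (a (l 16625616) (l 16663832)) (l 16720240))) (b (b (a (b (c (a (l 16644616) (l 16652000)) (l 16643576)) (c (l 16648648) (l 16644400))) (b (c (b (c (l 16664664) (l 16662944)) (l 16664000)) (b (l 16659320) (l 16659744))) (c (l 16664272) (l 16660408)))) (a (c (l 16650408) (l 16646536)) (c (l 16712320) (l 16708288)))) (b (a (l 16687120) (l 4)) (l 4)))) (l 4)) (b (b (b (a (a (b (c (b (c (a (l 16677544) (l 16687056)) (l 16701536)) (l 16702568)) (b (a (l 16672448) (l 16682272)) (l 16677816))) (c (l 16702896) (l 16699552))) (b (a (b (l 6) (c (l 16697592) (l 16694568))) (l 6)) (a (c (l 16720088) (l 16696384)) (c (l 16734624) (l 16732184))))) (l 6)) (a (a (b (a (l 16700032) (l 16713288)) (l 4)) (l 4)) (l 4))) (l 4)) (l 4))) (l 4))) (l 4)), by decide +kernel⟩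

theorem c_mm_202_a : CertF 0 536870912 0 536870912 201326592 134217728 true false false .pp 2 0 2
    ndF1q2a ndF1q0 pcF2 cut_mm_202_a Ext.none :=
  certF0 (fam := true) (s1 := false) (s2 := false) (a := 2) (b := 0) (c := 2) (cn := .pp) (n1 := ndF1q2a) (n2 := ndF1q0) (pc := pcF2) (cut := cut_mm_202_a) (xt := Ext.none) (P1 := 0) (W1 := 536870912) (P2 := 0) (W2 := 536870912) (P3 := 201326592) (W3 := 134217728)
    rfl k0_mm_202_a

noncomputable def cut_mm_202_b : Cut := Cut.of [[⟨0, 1, 0, 67108864⟩, ⟨1, 0, 0, 67108864⟩, ⟨2, 1, 0, 67108864⟩]]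

noncomputable def f_mm_202_b : ℕ → ℕ → ℕ → ℕ → Bool := onCell 1239849684 370763052 0 536870912 201326592 134217728
    (rowF 0 true false false .pp 2 0 2 (qsf 1239849684 370763052 0 536870912 2) ndF1q2b ndF1q0 pcF2 cut_mm_202_b Ext.none)

def k0_mm_202_b : ∃ t, chk3 f_mm_202_b t 1 1 1 = true :=
  ⟨(b (a (b (b (a (a (b (b (c (a (l 16572248) (l 16516152)) (a (l 16552680) (l 16517272))) (c (l 16529072) (l 16530952))) (c (l 16568480) (l 16548664))) (b (c (b (l 16532896) (l 16782080)) (b (l 16467672) (l 16467984))) (c (l 16975776) (l 16472120)))) (b (a (c (b (l 17098072) (l 17194616)) (l 16414136)) (c (l 17464472) (l 16779416))) (a (c (l 17291576) (l 16661112)) (c (l 17523656) (l 16964800))))) (a (a (b (c (l 16831248) (l 16529920)) (l 16752408)) (b (l 16805496) (l 16982968))) (b (a (l 17107088) (l 17310432)) (l 4)))) (a (b (a (b (l 16878968) (l 4)) (l 4)) (l 4)) (l 4))) (b (b (a (b (a (c (l 17683992) (l 17084648)) (c (l 17834336) (l 17308928))) (a (l 17274000) (l 4))) (a (b (l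 17698312) (l 4)) (l 4))) (l 4)) (l 4))) (l 4)), by decide +kernel⟩

theorem c_mm_202_b : CertF 1239849684 370763052 0 536870912 201326592 134217728 true false false .pp 2 0 2
    ndF1q2b ndF1q0 pcF2 cut_mm_202_b Ext.none :=
  certF0 (fam := true) (s1 := false) (s2 := false) (a := 2) (b := 0) (c := 2) (cn := .pp) (n1 := ndF1q2b) (n2 := ndF1q0) (pc := pcF2) (cut := cut_mm_202_b) (xt := Ext.none) (P1 := 1239849684) (W1 := 370763052) (P2 := 0) (W2 := 536870912) (P3 := 201326592) (W3 := 134217728)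
    rfl k0_mm_202_b

noncomputable def f_mm_203_a : ℕ → ℕ → ℕ → ℕ → Bool := onCell 0 536870912 1610612736 536870912 201326592 134217728
    (rowF 1 true false false .up 2 0 3 (qsf 0 536870912 0 536870912 3) ndF1q2a ndF1q0 pcF3 Cut.none Ext.none)

def k0_mm_203_a : ∃ t, chk3 f_mm_203_a t 1 1 1 = true :=
  ⟨(l 4), by decide +kernel⟩

theorem c_mm_203_a : CertF 0 536870912 0 536870912 201326592 134217728 true false false .up 2 0 3
    ndF1q2a ndF1q0 pcF3 Cut.none Ext.none :=
  certF1 (fam := true) (s1 := false) (s2 := false) (a := 2) (b := 0) (c := 3) (cn := .up) (n1 := ndF1q2a) (n2 := ndF1q0) (pc := pcF3) (cut := Cut.none) (xt := Ext.none) (P1 := 0) (W1 := 536870912) (P2 := 0) (W2 := 536870912) (P3 := 201326592) (W3 := 134217728)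
    rfl (fun _ => rfl) k0_mm_203_a

noncomputable def f_mm_203_b : ℕ → ℕ → ℕ → ℕ → Bool := onCell 1239849684 370763052 1610612736 536870912 201326592 134217728
    (rowF 1 true false false .up 2 0 3 (qsf 1239849684 370763052 0 536870912 3) ndF1q2b ndF1q0 pcF3 Cut.none Ext.none)

def k0_mm_203_b : ∃ t, chk3 f_mm_203_b t 1 1 1 = true :=
  ⟨(b (l 4) (l 4)), by decide +kernel⟩

theorem c_mm_203_b : CertF 1239849684 370763052 0 536870912 201326592 134217728 true false false .up 2 0 3
    ndF1q2b ndF1q0 pcF3 Cut.none Ext.none :=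
  certF1 (fam := true) (s1 := false) (s2 := false) (a := 2) (b := 0) (c := 3) (cn := .up) (n1 := ndF1q2b) (n2 := ndF1q0) (pc := pcF3) (cut := Cut.none) (xt := Ext.none) (P1 := 1239849684) (W1 := 370763052) (P2 := 0) (W2 := 536870912) (P3 := 201326592) (W3 := 134217728)
    rfl (fun _ => rfl) k0_mm_203_b

noncomputable def f_mm_213_a : ℕ → ℕ → ℕ → ℕ → Bool := onCell 0 536870912 536870912 536870912 201326592 134217728
    (rowF 0 true false false .pnn 2 1 3 (qsf 0 536870912 536870912 536870912 3) ndF1q2a ndF1q1 pcF3 Cut.none Ext.none)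

def k0_mm_213_a : ∃ t, chk3 f_mm_213_a t 1 1 1 = true :=
  ⟨(l 4), by decide +kernel⟩

theorem c_mm_213_a : CertF 0 536870912 536870912 536870912 201326592 134217728 true false false .pnn 2 1 3
    ndF1q2a ndF1q1 pcF3 Cut.none Ext.none :=
  certF0 (fam := true) (s1 := false) (s2 := false) (a := 2) (b := 1) (c := 3) (cn := .pnn) (n1 := ndF1q2a) (n2 := ndF1q1) (pc := pcF3) (cut := Cut.none) (xt := Ext.none) (P1 := 0) (W1 := 536870912) (P2 := 536870912) (W2 := 536870912) (P3 := 201326592) (W3 := 134217728)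
    rfl k0_mm_213_a

noncomputable def f_mm_213_b : ℕ → ℕ → ℕ → ℕ → Bool := onCell 1239849684 370763052 536870912 536870912 201326592 134217728
    (rowF 0 true false false .pnn 2 1 3 (qsf 1239849684 370763052 536870912 536870912 3) ndF1q2b ndF1q1 pcF3 Cut.none Ext.none)

def k0_mm_213_b : ∃ t, chk3 f_mm_213_b t 1 1 1 = true :=
  ⟨(l 4), by decide +kernel⟩

theorem c_mm_213_b : CertF 1239849684 370763052 536870912 536870912 201326592 134217728 true false false .pnn 2 1 3
    ndF1q2b ndF1q1 pcF3 Cut.none Ext.none :=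
  certF0 (fam := true) (s1 := false) (s2 := false) (a := 2) (b := 1) (c := 3) (cn := .pnn) (n1 := ndF1q2b) (n2 := ndF1q1) (pc := pcF3) (cut := Cut.none) (xt := Ext.none) (P1 := 1239849684) (W1 := 370763052) (P2 := 536870912) (W2 := 536870912) (P3 := 201326592) (W3 := 134217728)
    rfl k0_mm_213_b

noncomputable def f_mm_303 : ℕ → ℕ → ℕ → ℕ → Bool := onCell 1610612736 536870912 0 536870912 201326592 134217728
    (rowF 0 true false false .npn 3 0 3 (qsf 1610612736 536870912 0 536870912 3) ndF1q3 ndF1q0 pcF3 Cut.none Ext.none)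

def k0_mm_303 : ∃ t, chk3 f_mm_303 t 1 1 1 = true :=
  ⟨(a (b (l 4) (l 4)) (l 4)), by decide +kernel⟩

theorem c_mm_303 : CertF 1610612736 536870912 0 536870912 201326592 134217728 true false false .npn 3 0 3
    ndF1q3 ndF1q0 pcF3 Cut.none Ext.none :=
  certF0 (fam := true) (s1 := false) (s2 := false) (a := 3) (b := 0) (c := 3) (cn := .npn) (n1 := ndF1q3) (n2 := ndF1q0) (pc := pcF3) (cut := Cut.none) (xt := Ext.none) (P1 := 1610612736) (W1 := 536870912) (P2 := 0) (W2 := 536870912) (P3 := 201326592) (W3 := 134217728)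
    rfl k0_mm_303

noncomputable def f_mm_313 : ℕ → ℕ → ℕ → ℕ → Bool := onCell 1610612736 536870912 536870912 536870912 201326592 134217728
    (rowF 0 true false false .dn 3 1 3 (qsf 1610612736 536870912 536870912 536870912 3) ndF1q3 ndF1q1 pcF3 Cut.none Ext.none)

def k0_mm_313 : ∃ t, chk3 f_mm_313 t 1 1 1 = true :=
  ⟨(l 4), by decide +kernel⟩

theorem c_mm_313 : CertF 1610612736 536870912 536870912 536870912 201326592 134217728 true false false .dn 3 1 3
    ndF1q3 ndF1q1 pcF3 Cut.none Ext.none :=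
  certF0 (fam := true) (s1 := false) (s2 := false) (a := 3) (b := 1) (c := 3) (cn := .dn) (n1 := ndF1q3) (n2 := ndF1q1) (pc := pcF3) (cut := Cut.none) (xt := Ext.none) (P1 := 1610612736) (W1 := 536870912) (P2 := 536870912) (W2 := 536870912) (P3 := 201326592) (W3 := 134217728)
    rfl k0_mm_313

end Pool.Agent.Strip051.G.I3_16_5_16.Tab.C.FA11

namespace Pool.Agent.Strip051.G.I3_16_5_16.Tab.C.FA12

open Pool.Agent.Strip051.PB Pool.Agent.Strip051.PB.T
open Pool.Agent.Strip051.G.I3_16_5_16.Tab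

noncomputable def f_pp_001 : ℕ → ℕ → ℕ → ℕ → Bool := onCell 0 536870912 0 536870912 201326592 134217728
    (rowF 0 true true true .up 0 0 1 (qsf 0 536870912 0 536870912 1) ndF1q0 ndF2q0 pcF1 Cut.none Ext.none)

def k0_pp_001 : ∃ t, chk3 f_pp_001 t 1 1 1 = true :=
  ⟨(l 4), by decide +kernel⟩

theorem c_pp_001 : CertF 0 536870912 0 536870912 201326592 134217728 true true true .up 0 0 1
    ndF1q0 ndF2q0 pcF1 Cut.none Ext.none :=
  certF0 (fam := true) (s1 := true) (s2 := true) (a := 0) (b := 0) (c := 1) (cn := .up) (n1 := ndF1q0) (n2 := ndF2q0) (pc := pcF1) (cut := Cut.none) (xt := Ext.none) (P1 := 0) (W1 := 536870912) (P2 := 0) (W2 := 536870912) (P3 := 201326592) (W3 := 134217728)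
    rfl k0_pp_001

noncomputable def f_pp_011 : ℕ → ℕ → ℕ → ℕ → Bool := onCell 0 536870912 536870912 536870912 201326592 134217728
    (rowF 0 true true true .pnn 0 1 1 (qsf 0 536870912 536870912 536870912 1) ndF1q0 ndF2q1 pcF1 Cut.none Ext.none)

def k0_pp_011 : ∃ t, chk3 f_pp_011 t 1 1 1 = true :=
  ⟨(l 4), by decide +kernel⟩

theorem c_pp_011 : CertF 0 536870912 536870912 536870912 201326592 134217728 true true true .pnn 0 1 1
    ndF1q0 ndF2q1 pcF1 Cut.none Ext.none :=
  certF0 (fam := true) (s1 := true) (s2 := true) (a := 0) (b := 1) (c := 1) (cn := .pnn) (n1 := ndF1q0) (n2 := ndF2q1) (pc := pcF1) (cut := Cut.none) (xt := Ext.none) (P1 := 0) (W1 := 536870912) (P2 := 536870912) (W2 := 536870912) (P3 := 201326592) (W3 := 134217728)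
    rfl k0_pp_011

noncomputable def f_pp_012 : ℕ → ℕ → ℕ → ℕ → Bool := onCell 0 536870912 536870912 536870912 201326592 134217728
    (rowF 0 true true true .pnp 0 1 2 (qsf 0 536870912 536870912 536870912 2) ndF1q0 ndF2q1 pcF2 Cut.none Ext.none)

def k0_pp_012 : ∃ t, chk3 f_pp_012 t 1 1 1 = true :=
  ⟨(l 4), by decide +kernel⟩

theorem c_pp_012 : CertF 0 536870912 536870912 536870912 201326592 134217728 true true true .pnp 0 1 2
    ndF1q0 ndF2q1 pcF2 Cut.none Ext.none :=
  certF0 (fam := true) (s1 := true) (s2 := true) (a := 0) (b := 1) (c := 2) (cn := .pnp) (n1 := ndF1q0) (n2 := ndF2q1) (pc := pcF2) (cut := Cut.none) (xt := Ext.none) (P1 := 0) (W1 := 536870912) (P2 := 536870912) (W2 := 536870912) (P3 := 201326592) (W3 := 134217728)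
    rfl k0_pp_012

noncomputable def cut_pp_022_a : Cut := Cut.of [[⟨0, 0, 0, 67108864⟩, ⟨1, 1, 0, 67108864⟩, ⟨2, 1, 0, 67108864⟩]]

noncomputable def f_pp_022_a : ℕ → ℕ → ℕ → ℕ → Bool := onCell 0 536870912 0 536870912 201326592 134217728
    (rowF 0 true true true .pp 0 2 2 (qsf 0 536870912 0 536870912 2) ndF1q0 ndF2q2a pcF2 cut_pp_022_a Ext.none)

def k0_pp_022_a : ∃ t, chk3 f_pp_022_a t 1 1 1 = true :=
  ⟨(a (b (l 4) (a (b (l 4) (a (b (l 4) (a (b (l 4) (l 6)) (l 4))) (l 4))) (l 4))) (l 4)), by decide +kernel⟩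

theorem c_pp_022_a : CertF 0 536870912 0 536870912 201326592 134217728 true true true .pp 0 2 2
    ndF1q0 ndF2q2a pcF2 cut_pp_022_a Ext.none :=
  certF0 (fam := true) (s1 := true) (s2 := true) (a := 0) (b := 2) (c := 2) (cn := .pp) (n1 := ndF1q0) (n2 := ndF2q2a) (pc := pcF2) (cut := cut_pp_022_a) (xt := Ext.none) (P1 := 0) (W1 := 536870912) (P2 := 0) (W2 := 536870912) (P3 := 201326592) (W3 := 134217728)
    rfl k0_pp_022_a

noncomputable def cut_pp_022_b : Cut := Cut.of [[⟨0, 0, 0, 67108864⟩, ⟨1, 1, 0, 67108864⟩, ⟨2, 1, 0, 67108864⟩]]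

noncomputable def f_pp_022_b : ℕ → ℕ → ℕ → ℕ → Bool := onCell 0 536870912 1239849684 370763052 201326592 134217728
    (rowF 0 true true true .pp 0 2 2 (qsf 0 536870912 1239849684 370763052 2) ndF1q0 ndF2q2b pcF2 cut_pp_022_b Ext.none)

def k0_pp_022_b : ∃ t, chk3 f_pp_022_b t 1 1 1 = true :=
  ⟨(a (b (l 4) (l 4)) (l 4)), by decide +kernel⟩

theorem c_pp_022_b : CertF 0 536870912 1239849684 370763052 201326592 134217728 true true true .pp 0 2 2
    ndF1q0 ndF2q2b pcF2 cut_pp_022_b Ext.none :=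
  certF0 (fam := true) (s1 := true) (s2 := true) (a := 0) (b := 2) (c := 2) (cn := .pp) (n1 := ndF1q0) (n2 := ndF2q2b) (pc := pcF2) (cut := cut_pp_022_b) (xt := Ext.none) (P1 := 0) (W1 := 536870912) (P2 := 1239849684) (W2 := 370763052) (P3 := 201326592) (W3 := 134217728)
    rfl k0_pp_022_b

noncomputable def f_pp_023_a : ℕ → ℕ → ℕ → ℕ → Bool := onCell 1610612736 536870912 0 536870912 201326592 134217728
    (rowF 2 true true true .up 0 2 3 (qsf 0 536870912 0 536870912 3) ndF1q0 ndF2q2a pcF3 Cut.none Ext.none)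

def k0_pp_023_a : ∃ t, chk3 f_pp_023_a t 1 1 1 = true :=
  ⟨(l 4), by decide +kernel⟩

theorem c_pp_023_a : CertF 0 536870912 0 536870912 201326592 134217728 true true true .up 0 2 3
    ndF1q0 ndF2q2a pcF3 Cut.none Ext.none :=
  certF2 (fam := true) (s1 := true) (s2 := true) (a := 0) (b := 2) (c := 3) (cn := .up) (n1 := ndF1q0) (n2 := ndF2q2a) (pc := pcF3) (cut := Cut.none) (xt := Ext.none) (P1 := 0) (W1 := 536870912) (P2 := 0) (W2 := 536870912) (P3 := 201326592) (W3 := 134217728)
    rfl (fun _ => rfl) k0_pp_023_a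

noncomputable def f_pp_023_b : ℕ → ℕ → ℕ → ℕ → Bool := onCell 1610612736 536870912 1239849684 370763052 201326592 134217728
    (rowF 2 true true true .up 0 2 3 (qsf 0 536870912 1239849684 370763052 3) ndF1q0 ndF2q2b pcF3 Cut.none Ext.none)

def k0_pp_023_b : ∃ t, chk3 f_pp_023_b t 1 1 1 = true :=
  ⟨(l 4), by decide +kernel⟩

theorem c_pp_023_b : CertF 0 536870912 1239849684 370763052 201326592 134217728 true true true .up 0 2 3
    ndF1q0 ndF2q2b pcF3 Cut.none Ext.none :=
  certF2 (fam := true) (s1 := true) (s2 := true) (a := 0) (b := 2) (c := 3) (cn := .up) (n1 := ndF1q0) (n2 := ndF2q2b) (pc := pcF3) (cut := Cut.none) (xt := Ext.none) (P1 := 0) (W1 := 536870912) (P2 := 1239849684) (W2 := 370763052) (P3 := 201326592) (W3 := 134217728)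
    rfl (fun _ => rfl) k0_pp_023_b

noncomputable def f_pp_033 : ℕ → ℕ → ℕ → ℕ → Bool := onCell 0 536870912 1610612736 536870912 201326592 134217728
    (rowF 0 true true true .pnn 0 3 3 (qsf 0 536870912 1610612736 536870912 3) ndF1q0 ndF2q3 pcF3 Cut.none Ext.none)

def k0_pp_033 : ∃ t, chk3 f_pp_033 t 1 1 1 = true :=
  ⟨(l 4), by decide +kernel⟩

theorem c_pp_033 : CertF 0 536870912 1610612736 536870912 201326592 134217728 true true true .pnn 0 3 3
    ndF1q0 ndF2q3 pcF3 Cut.none Ext.none :=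
  certF0 (fam := true) (s1 := true) (s2 := true) (a := 0) (b := 3) (c := 3) (cn := .pnn) (n1 := ndF1q0) (n2 := ndF2q3) (pc := pcF3) (cut := Cut.none) (xt := Ext.none) (P1 := 0) (W1 := 536870912) (P2 := 1610612736) (W2 := 536870912) (P3 := 201326592) (W3 := 134217728)
    rfl k0_pp_033

noncomputable def f_pp_101 : ℕ → ℕ → ℕ → ℕ → Bool := onCell 536870912 536870912 0 536870912 201326592 134217728
    (rowF 0 true true true .npn 1 0 1 (qsf 536870912 536870912 0 536870912 1) ndF1q1 ndF2q0 pcF1 Cut.none Ext.none)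

def k0_pp_101 : ∃ t, chk3 f_pp_101 t 1 1 1 = true :=
  ⟨(l 4), by decide +kernel⟩

theorem c_pp_101 : CertF 536870912 536870912 0 536870912 201326592 134217728 true true true .npn 1 0 1
    ndF1q1 ndF2q0 pcF1 Cut.none Ext.none :=
  certF0 (fam := true) (s1 := true) (s2 := true) (a := 1) (b := 0) (c := 1) (cn := .npn) (n1 := ndF1q1) (n2 := ndF2q0) (pc := pcF1) (cut := Cut.none) (xt := Ext.none) (P1 := 536870912) (W1 := 536870912) (P2 := 0) (W2 := 536870912) (P3 := 201326592) (W3 := 134217728)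
    rfl k0_pp_101

noncomputable def f_pp_102 : ℕ → ℕ → ℕ → ℕ → Bool := onCell 536870912 536870912 0 536870912 201326592 134217728
    (rowF 0 true true true .npp 1 0 2 (qsf 536870912 536870912 0 536870912 2) ndF1q1 ndF2q0 pcF2 Cut.none Ext.none)

def k0_pp_102 : ∃ t, chk3 f_pp_102 t 1 1 1 = true :=
  ⟨(l 4), by decide +kernel⟩

theorem c_pp_102 : CertF 536870912 536870912 0 536870912 201326592 134217728 true true true .npp 1 0 2
    ndF1q1 ndF2q0 pcF2 Cut.none Ext.none :=
  certF0 (fam := true) (s1 := true) (s2 := true) (a := 1) (b := 0) (c := 2) (cn := .npp) (n1 := ndF1q1) (n2 := ndF2q0) (pc := pcF2) (cut := Cut.none) (xt := Ext.none) (P1 := 536870912) (W1 := 536870912) (P2 := 0) (W2 := 536870912) (P3 := 201326592) (W3 := 134217728)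
    rfl k0_pp_102

noncomputable def f_pp_112 : ℕ → ℕ → ℕ → ℕ → Bool := onCell 536870912 536870912 536870912 536870912 201326592 134217728
    (rowF 0 true true true .dn 1 1 2 (qsf 536870912 536870912 536870912 536870912 2) ndF1q1 ndF2q1 pcF2 Cut.none Ext.none)

def k0_pp_112 : ∃ t, chk3 f_pp_112 t 1 1 1 = true :=
  ⟨(l 4), by decide +kernel⟩

theorem c_pp_112 : CertF 536870912 536870912 536870912 536870912 201326592 134217728 true true true .dn 1 1 2
    ndF1q1 ndF2q1 pcF2 Cut.none Ext.none :=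
  certF0 (fam := true) (s1 := true) (s2 := true) (a := 1) (b := 1) (c := 2) (cn := .dn) (n1 := ndF1q1) (n2 := ndF2q1) (pc := pcF2) (cut := Cut.none) (xt := Ext.none) (P1 := 536870912) (W1 := 536870912) (P2 := 536870912) (W2 := 536870912) (P3 := 201326592) (W3 := 134217728)
    rfl k0_pp_112

noncomputable def f_pp_113 : ℕ → ℕ → ℕ → ℕ → Bool := onCell 536870912 536870912 536870912 536870912 201326592 134217728
    (rowF 0 true true true .nn 1 1 3 (qsf 536870912 536870912 536870912 536870912 3) ndF1q1 ndF2q1 pcF3 Cut.none Ext.none)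

def k0_pp_113 : ∃ t, chk3 f_pp_113 t 1 1 1 = true :=
  ⟨(l 4), by decide +kernel⟩

theorem c_pp_113 : CertF 536870912 536870912 536870912 536870912 201326592 134217728 true true true .nn 1 1 3
    ndF1q1 ndF2q1 pcF3 Cut.none Ext.none :=
  certF0 (fam := true) (s1 := true) (s2 := true) (a := 1) (b := 1) (c := 3) (cn := .nn) (n1 := ndF1q1) (n2 := ndF2q1) (pc := pcF3) (cut := Cut.none) (xt := Ext.none) (P1 := 536870912) (W1 := 536870912) (P2 := 536870912) (W2 := 536870912) (P3 := 201326592) (W3 := 134217728)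
    rfl k0_pp_113

noncomputable def f_pp_123_a : ℕ → ℕ → ℕ → ℕ → Bool := onCell 536870912 536870912 0 536870912 201326592 134217728
    (rowF 0 true true true .npn 1 2 3 (qsf 536870912 536870912 0 536870912 3) ndF1q1 ndF2q2a pcF3 Cut.none Ext.none)

def k0_pp_123_a : ∃ t, chk3 f_pp_123_a t 1 1 1 = true :=
  ⟨(l 4), by decide +kernel⟩

theorem c_pp_123_a : CertF 536870912 536870912 0 536870912 201326592 134217728 true true true .npn 1 2 3
    ndF1q1 ndF2q2a pcF3 Cut.none Ext.none :=
  certF0 (fam := true) (s1 := true) (s2 := true) (a := 1) (b := 2) (c := 3) (cn := .npn) (n1 := ndF1q1) (n2 := ndF2q2a) (pc := pcF3) (cut := Cut.none) (xt := Ext.none) (P1 := 536870912) (W1 := 536870912) (P2 := 0) (W2 := 536870912) (P3 := 201326592) (W3 := 134217728)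
    rfl k0_pp_123_a

noncomputable def f_pp_123_b : ℕ → ℕ → ℕ → ℕ → Bool := onCell 536870912 536870912 1239849684 370763052 201326592 134217728
    (rowF 0 true true true .npn 1 2 3 (qsf 536870912 536870912 1239849684 370763052 3) ndF1q1 ndF2q2b pcF3 Cut.none Ext.none)

def k0_pp_123_b : ∃ t, chk3 f_pp_123_b t 1 1 1 = true :=
  ⟨(l 4), by decide +kernel⟩

theorem c_pp_123_b : CertF 536870912 536870912 1239849684 370763052 201326592 134217728 true true true .npn 1 2 3
    ndF1q1 ndF2q2b pcF3 Cut.none Ext.none :=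
  certF0 (fam := true) (s1 := true) (s2 := true) (a := 1) (b := 2) (c := 3) (cn := .npn) (n1 := ndF1q1) (n2 := ndF2q2b) (pc := pcF3) (cut := Cut.none) (xt := Ext.none) (P1 := 536870912) (W1 := 536870912) (P2 := 1239849684) (W2 := 370763052) (P3 := 201326592) (W3 := 134217728)
    rfl k0_pp_123_b

noncomputable def f_pp_133 : ℕ → ℕ → ℕ → ℕ → Bool := onCell 536870912 536870912 1610612736 536870912 201326592 134217728
    (rowF 0 true true true .dn 1 3 3 (qsf 536870912 536870912 1610612736 536870912 3) ndF1q1 ndF2q3 pcF3 Cut.none Ext.none)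

def k0_pp_133 : ∃ t, chk3 f_pp_133 t 1 1 1 = true :=
  ⟨(l 4), by decide +kernel⟩

theorem c_pp_133 : CertF 536870912 536870912 1610612736 536870912 201326592 134217728 true true true .dn 1 3 3
    ndF1q1 ndF2q3 pcF3 Cut.none Ext.none :=
  certF0 (fam := true) (s1 := true) (s2 := true) (a := 1) (b := 3) (c := 3) (cn := .dn) (n1 := ndF1q1) (n2 := ndF2q3) (pc := pcF3) (cut := Cut.none) (xt := Ext.none) (P1 := 536870912) (W1 := 536870912) (P2 := 1610612736) (W2 := 536870912) (P3 := 201326592) (W3 := 134217728)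
    rfl k0_pp_133

noncomputable def f_pp_202_a : ℕ → ℕ → ℕ → ℕ → Bool := onCell 0 536870912 0 536870912 201326592 134217728
    (rowF 0 true true true .pp 2 0 2 (qsf 0 536870912 0 536870912 2) ndF1q2a ndF2q0 pcF2 Cut.none Ext.none)

def k0_pp_202_a : ∃ t, chk3 f_pp_202_a t 1 1 1 = true :=
  ⟨(l 5), by decide +kernel⟩

theorem c_pp_202_a : CertF 0 536870912 0 536870912 201326592 134217728 true true true .pp 2 0 2
    ndF1q2a ndF2q0 pcF2 Cut.none Ext.none :=
  certF0 (fam := true) (s1 := true) (s2 := true) (a := 2) (b := 0) (c := 2) (cn := .pp) (n1 := ndF1q2a) (n2 := ndF2q0) (pc := pcF2) (cut := Cut.none) (xt := Ext.none) (P1 := 0) (W1 := 536870912) (P2 := 0) (W2 := 536870912) (P3 := 201326592) (W3 := 134217728)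
    rfl k0_pp_202_a

noncomputable def f_pp_202_b : ℕ → ℕ → ℕ → ℕ → Bool := onCell 1239849684 370763052 0 536870912 201326592 134217728
    (rowF 0 true true true .pp 2 0 2 (qsf 1239849684 370763052 0 536870912 2) ndF1q2b ndF2q0 pcF2 Cut.none Ext.none)

def k0_pp_202_b : ∃ t, chk3 f_pp_202_b t 1 1 1 = true :=
  ⟨(l 5), by decide +kernel⟩

theorem c_pp_202_b : CertF 1239849684 370763052 0 536870912 201326592 134217728 true true true .pp 2 0 2
    ndF1q2b ndF2q0 pcF2 Cut.none Ext.none :=
  certF0 (fam := true) (s1 := true) (s2 := true) (a := 2) (b := 0) (c := 2) (cn := .pp) (n1 := ndF1q2b) (n2 := ndF2q0) (pc := pcF2) (cut := Cut.none) (xt := Ext.none) (P1 := 1239849684) (W1 := 370763052) (P2 := 0) (W2 := 536870912) (P3 := 201326592) (W3 := 134217728)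
    rfl k0_pp_202_b

noncomputable def f_pp_203_a : ℕ → ℕ → ℕ → ℕ → Bool := onCell 0 536870912 0 536870912 201326592 134217728
    (rowF 0 true true true .up 2 0 3 (qsf 0 536870912 0 536870912 3) ndF1q2a ndF2q0 pcF3 Cut.none Ext.none)

def k0_pp_203_a : ∃ t, chk3 f_pp_203_a t 1 1 1 = true :=
  ⟨(l 5), by decide +kernel⟩

theorem c_pp_203_a : CertF 0 536870912 0 536870912 201326592 134217728 true true true .up 2 0 3
    ndF1q2a ndF2q0 pcF3 Cut.none Ext.none :=
  certF0 (fam := true) (s1 := true) (s2 := true) (a := 2) (b := 0) (c := 3) (cn := .up) (n1 := ndF1q2a) (n2 := ndF2q0) (pc := pcF3) (cut := Cut.none) (xt := Ext.none) (P1 := 0) (W1 := 536870912) (P2 := 0) (W2 := 536870912) (P3 := 201326592) (W3 := 134217728)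
    rfl k0_pp_203_a

noncomputable def f_pp_203_b : ℕ → ℕ → ℕ → ℕ → Bool := onCell 1239849684 370763052 0 536870912 201326592 134217728
    (rowF 0 true true true .up 2 0 3 (qsf 1239849684 370763052 0 536870912 3) ndF1q2b ndF2q0 pcF3 Cut.none Ext.none)

def k0_pp_203_b : ∃ t, chk3 f_pp_203_b t 1 1 1 = true :=
  ⟨(l 5), by decide +kernel⟩

theorem c_pp_203_b : CertF 1239849684 370763052 0 536870912 201326592 134217728 true true true .up 2 0 3
    ndF1q2b ndF2q0 pcF3 Cut.none Ext.none :=
  certF0 (fam := true) (s1 := true) (s2 := true) (a := 2) (b := 0) (c := 3) (cn := .up) (n1 := ndF1q2b) (n2 := ndF2q0) (pc := pcF3) (cut := Cut.none) (xt := Ext.none) (P1 := 1239849684) (W1 := 370763052) (P2 := 0) (W2 := 536870912) (P3 := 201326592) (W3 := 134217728)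
    rfl k0_pp_203_b

noncomputable def f_pp_213_a : ℕ → ℕ → ℕ → ℕ → Bool := onCell 0 536870912 536870912 536870912 201326592 134217728
    (rowF 0 true true true .pnn 2 1 3 (qsf 0 536870912 536870912 536870912 3) ndF1q2a ndF2q1 pcF3 Cut.none Ext.none)

def k0_pp_213_a : ∃ t, chk3 f_pp_213_a t 1 1 1 = true :=
  ⟨(l 4), by decide +kernel⟩

theorem c_pp_213_a : CertF 0 536870912 536870912 536870912 201326592 134217728 true true true .pnn 2 1 3
    ndF1q2a ndF2q1 pcF3 Cut.none Ext.none :=
  certF0 (fam := true) (s1 := true) (s2 := true) (a := 2) (b := 1) (c := 3) (cn := .pnn) (n1 := ndF1q2a) (n2 := ndF2q1) (pc := pcF3) (cut := Cut.none) (xt := Ext.none) (P1 := 0) (W1 := 536870912) (P2 := 536870912) (W2 := 536870912) (P3 := 201326592) (W3 := 134217728)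
    rfl k0_pp_213_a

noncomputable def f_pp_213_b : ℕ → ℕ → ℕ → ℕ → Bool := onCell 1239849684 370763052 536870912 536870912 201326592 134217728
    (rowF 0 true true true .pnn 2 1 3 (qsf 1239849684 370763052 536870912 536870912 3) ndF1q2b ndF2q1 pcF3 Cut.none Ext.none)

def k0_pp_213_b : ∃ t, chk3 f_pp_213_b t 1 1 1 = true :=
  ⟨(l 4), by decide +kernel⟩

theorem c_pp_213_b : CertF 1239849684 370763052 536870912 536870912 201326592 134217728 true true true .pnn 2 1 3
    ndF1q2b ndF2q1 pcF3 Cut.none Ext.none :=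
  certF0 (fam := true) (s1 := true) (s2 := true) (a := 2) (b := 1) (c := 3) (cn := .pnn) (n1 := ndF1q2b) (n2 := ndF2q1) (pc := pcF3) (cut := Cut.none) (xt := Ext.none) (P1 := 1239849684) (W1 := 370763052) (P2 := 536870912) (W2 := 536870912) (P3 := 201326592) (W3 := 134217728)
    rfl k0_pp_213_b

noncomputable def f_pp_303 : ℕ → ℕ → ℕ → ℕ → Bool := onCell 1610612736 536870912 0 536870912 201326592 134217728
    (rowF 0 true true true .npn 3 0 3 (qsf 1610612736 536870912 0 536870912 3) ndF1q3 ndF2q0 pcF3 Cut.none Ext.none)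

def k0_pp_303 : ∃ t, chk3 f_pp_303 t 1 1 1 = true :=
  ⟨(l 5), by decide +kernel⟩

theorem c_pp_303 : CertF 1610612736 536870912 0 536870912 201326592 134217728 true true true .npn 3 0 3
    ndF1q3 ndF2q0 pcF3 Cut.none Ext.none :=
  certF0 (fam := true) (s1 := true) (s2 := true) (a := 3) (b := 0) (c := 3) (cn := .npn) (n1 := ndF1q3) (n2 := ndF2q0) (pc := pcF3) (cut := Cut.none) (xt := Ext.none) (P1 := 1610612736) (W1 := 536870912) (P2 := 0) (W2 := 536870912) (P3 := 201326592) (W3 := 134217728)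
    rfl k0_pp_303

noncomputable def f_pp_313 : ℕ → ℕ → ℕ → ℕ → Bool := onCell 1610612736 536870912 536870912 536870912 201326592 134217728
    (rowF 0 true true true .dn 3 1 3 (qsf 1610612736 536870912 536870912 536870912 3) ndF1q3 ndF2q1 pcF3 Cut.none Ext.none)

def k0_pp_313 : ∃ t, chk3 f_pp_313 t 1 1 1 = true :=
  ⟨(l 4), by decide +kernel⟩

theorem c_pp_313 : CertF 1610612736 536870912 536870912 536870912 201326592 134217728 true true true .dn 3 1 3
    ndF1q3 ndF2q1 pcF3 Cut.none Ext.none :=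
  certF0 (fam := true) (s1 := true) (s2 := true) (a := 3) (b := 1) (c := 3) (cn := .dn) (n1 := ndF1q3) (n2 := ndF2q1) (pc := pcF3) (cut := Cut.none) (xt := Ext.none) (P1 := 1610612736) (W1 := 536870912) (P2 := 536870912) (W2 := 536870912) (P3 := 201326592) (W3 := 134217728)
    rfl k0_pp_313

noncomputable def f_pm_001 : ℕ → ℕ → ℕ → ℕ → Bool := onCell 0 536870912 0 536870912 201326592 134217728
    (rowF 0 true true false .up 0 0 1 (qsf 0 536870912 0 536870912 1) ndF1q0 ndF2q0 pcF1 Cut.none Ext.none)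

def k0_pm_001 : ∃ t, chk3 f_pm_001 t 1 1 1 = true :=
  ⟨(l 3), by decide +kernel⟩

theorem c_pm_001 : CertF 0 536870912 0 536870912 201326592 134217728 true true false .up 0 0 1
    ndF1q0 ndF2q0 pcF1 Cut.none Ext.none :=
  certF0 (fam := true) (s1 := true) (s2 := false) (a := 0) (b := 0) (c := 1) (cn := .up) (n1 := ndF1q0) (n2 := ndF2q0) (pc := pcF1) (cut := Cut.none) (xt := Ext.none) (P1 := 0) (W1 := 536870912) (P2 := 0) (W2 := 536870912) (P3 := 201326592) (W3 := 134217728)
    rfl k0_pm_001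

noncomputable def f_pm_011 : ℕ → ℕ → ℕ → ℕ → Bool := onCell 0 536870912 536870912 536870912 201326592 134217728
    (rowF 1 true true false .pnn 0 1 1 (qsf 0 536870912 536870912 536870912 1) ndF1q0 ndF2q1 pcF1 Cut.none Ext.none)

def k0_pm_011 : ∃ t, chk3 f_pm_011 t 1 1 1 = true :=
  ⟨(b (l 3) (b (l 3) (l 3))), by decide +kernel⟩

theorem c_pm_011 : CertF 0 536870912 536870912 536870912 201326592 134217728 true true false .pnn 0 1 1
    ndF1q0 ndF2q1 pcF1 Cut.none Ext.none :=
  certF1 (fam := true) (s1 := true) (s2 := false) (a := 0) (b := 1) (c := 1) (cn := .pnn) (n1 := ndF1q0) (n2 := ndF2q1) (pc := pcF1) (cut := Cut.none) (xt := Ext.none) (P1 := 0) (W1 := 536870912) (P2 := 536870912) (W2 := 536870912) (P3 := 201326592) (W3 := 134217728)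
    rfl (fun _ => rfl) k0_pm_011

noncomputable def f_pm_012 : ℕ → ℕ → ℕ → ℕ → Bool := onCell 1073741824 536870912 536870912 536870912 201326592 134217728
    (rowF 2 true true false .pnp 0 1 2 (qsf 0 536870912 536870912 536870912 2) ndF1q0 ndF2q1 pcF2 Cut.none Ext.none)

def k0_pm_012 : ∃ t, chk3 f_pm_012 t 1 1 1 = true :=
  ⟨(a (a (b (a (l 3) (a (l 3) (b (l 17167208) (l 17159784)))) (a (b (l 3) (l 3)) (b (a (l 3) (b (l 16970440) (l 16587568))) (a (a (l 3) (b (l 16558880) (b (l 16550368) (l 16547520)))) (b (a (l 16504816) (l 16446840)) (b (l 16537136) (a (l 16489152) (l 16449728)))))))) (a (a (a (b (b (l 17203912) (l 17215416)) (b (b (l 17066320) (l 16753640)) (b (l 16387336) (l 16456224)))) (b (b (l 2) (a (l 17239192) (a (l 17251616) (a (l 17258096) (l 17261976))))) (a (b (l 17003368) (b (l 16342408) (l 16392648))) (a (b (l 17032656) (b (l 16333424) (l 16390400))) (b (a (l 17046768) (l 17055480)) (b (l 16340936) (l 16395328))))))) (b (b (l 2) (l 17298440)) (b (l 17135304)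 (b (l 16510016) (l 16416416))))) (b (b (l 2) (l 17391800)) (b (l 17337248) (b (l 16977736) (b (l 16511624) (l 16316880))))))) (a (b (b (l 2) (l 17526008)) (b (b (l 17610136) (l 17628336)) (b (l 17493280) (a (b (l 17209480) (l 16965032)) (l 17598928))))) (b (l 2) (b (l 17811944) (b (l 17951864) (l 18005176)))))), by decide +kernel⟩

theorem c_pm_012 : CertF 0 536870912 536870912 536870912 201326592 134217728 true true false .pnp 0 1 2
    ndF1q0 ndF2q1 pcF2 Cut.none Ext.none :=
  certF2 (fam := true) (s1 := true) (s2 := false) (a := 0) (b := 1) (c := 2) (cn := .pnp) (n1 := ndF1q0) (n2 := ndF2q1) (pc := pcF2) (cut := Cut.none) (xt := Ext.none) (P1 := 0) (W1 := 536870912) (P2 := 536870912) (W2 := 536870912) (P3 := 201326592) (W3 := 134217728)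
    rfl (fun _ => rfl) k0_pm_012

end Pool.Agent.Strip051.G.I3_16_5_16.Tab.C.FA12

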