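import Pool.Agent.Strip051.G.I3_16_5_16.Tab

/-! # Certificates F5 (generated) -/

set_option linter.all false
set_option maxRecDepth 100000

namespace Pool.Agent.Strip051.G.I3_16_5_16.Tab.C.FA12

open Pool.Agent.Strip051.PB Pool.Agent.Strip051.PB.T
open Pool.Agent.Strip051.G.I3_16_5_16.Tab

noncomputable def cut_pm_022_a : Cut := Cut.of [[⟨0, 0, 0, 67108864⟩, ⟨1, 1, 0, 67108864⟩, ⟨2, 1, 0, 67108864⟩]]

noncomputable def f_pm_022_a : ℕ → ℕ → ℕ → ℕ → Bool := onCell 1073741824 536870912 0 536870912 201326592 134217728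
    (rowF 2 true true false .pp 0 2 2 (qsf 0 536870912 0 536870912 2) ndF1q0 ndF2q2a pcF2 cut_pm_022_a Ext.none)

def k0_pm_022_a : ∃ t, chk3 f_pm_022_a t 4 2 1 = true :=
  ⟨(b (l 1) (a (l 1) (a (l 1) (a (l 1) (b (l 1) (a (l 1) (b (l 1) (c (a (b (l 1) (c (c (b (l 168610646471) (l 212634060183)) (l 198138540471)) (b (l 170221244871) (l 215318401015)))) (a (c (c (b (l 165389411111) (l 234645765479)) (b (l 165389405207) (l 238940726999))) (b (l 165926267287) (l 241625076087))) (b (c (c (l 191159207175) (l 193843555959)) (l 199212256455)) (c (l 16584056) (l 16573544))))) (c (b (a (l 1) (l 194917281351)) (a (l 202970359095) (l 242698810215))) (a (l 195991025591) (a (l 221223948407) (l 242698778103)))))))))))), by decide +kernel⟩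

def k1_pm_022_a : ∃ t, chk3 f_pm_022_a t 40 2 1 = true :=
  ⟨(b (l 1) (b (a (l 1) (c (b (a (l 1) (a (l 1) (b (l 1) (c (l 143914525255) (l 149820085623))))) (a (b (l 1) (c (c (l 186327338535) (l 189548557287)) (l 194380385527))) (b (c (c (l 195991003991) (l 199212222471)) (l 204044050311)) (c (c (l 238403818999) (l 16566976)) (l 245919998183))))) (c (b (a (l 1) (l 158946879911)) (a (l 189011663255) (l 227129496455))) (b (a (l 1) (l 163778703895)) (a (l 194917230039) (l 233035053047)))))) (a (b (c (a (b (l 1) (c (c (l 182032393335) (l 185253612711)) (a (l 160020673831) (l 199212244071)))) (b (c (c (l 182032382279) (l 185253601335)) (l 190085429991)) (c (c (l 229277035127) (l 234108866663)) (l 236793215575)))) (c (a (b (l 1) (l 196527880727)) (b (l 196527868343) (l 244309396247))) (a (l 193843513799) (l 226055756535)))) (a (c (b (c (c (l 230350788151) (l 235719490631)) (b (l 231424517431) (l 16568904))) (c (l 16573624) (l 16568472))) (b (c (l 246456892263) (l 253973073367)) (l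 16560896))) (c (c (l 16567664) (l 16562368)) (l 16575608)))) (b (a (c (b (c (c (l 231424507911) (l 236256339127)) (l 239477558455)) (c (l 16562768) (l 16556872))) (b (c (l 246456867623) (l 252899306119)) (l 16548280))) (c (c (l 16556936) (l 16550912)) (l 16542168))) (c (c (l 16558192) (l 16552992)) (l 16545512)))))), by decide +kernel⟩

def k2_pm_022_a : ∃ t, chk3 f_pm_022_a t 82 2 1 = true :=
  ⟨(b (a (l 1) (b (l 1) (b (l 1) (c (c (c (l 175053018199) (l 177737364919)) (b (l 153041291479) (l 195454093319))) (c (l 187401014615) (l 192232838055)))))) (b (c (b (a (b (c (c (l 163241868599) (l 165926215639)) (l 170221171799)) (c (c (l 211023378695) (l 206728417911)) (l 208875894743))) (c (c (l 226055771367) (l 228203247287)) (b (l 229276979095) (l 16540256)))) (c (a (c (l 16554112) (l 16550712)) (l 16546448)) (a (b (l 16545856) (l 16545504)) (l 16539752)))) (c (b (a (l 204580895655) (l 237330030487)) (a (l 16539144) (l 16533264))) (b (a (l 210486461703) (l 243772467159)) (a (l 16532784)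 (l 16527008))))) (c (c (l 16567624) (l 16562088)) (b (l 16533208) (l 16533208))))), by decide +kernel⟩

def k3_pm_022_a : ∃ t, chk3 f_pm_022_a t 166 4 1 = true :=
  ⟨(b (l 1) (c (b (c (c (a (l 143377627095) (l 186327307079)) (a (l 145525102551) (l 189548524343))) (c (l 174516120807) (l 177200467383))) (c (a (c (l 214244597831) (l 217465815431)) (l 16551992)) (c (l 215855203463) (l 219076419975)))) (c (b (a (l 149283186487) (l 199749047735)) (b (l 217465798535) (l 16527528))) (b (l 185253530855) (l 226055720567))))), by decide +kernel⟩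

def k4_pm_022_a : ∃ t, chk3 f_pm_022_a t 167 4 1 = true :=
  ⟨(a (b (c (a (b (l 1) (c (c (l 137472047639) (l 139619522839)) (l 142840740295))) (c (b (c (l 16541144) (l 16536864)) (c (l 157873142935) (l 158946876295))) (b (c (l 16532648) (l 16528488)) (b (l 139619513559) (l 16530712))))) (c (b (c (l 93448612135) (l 94522346551)) (a (l 147135691399) (l 161631206727))) (b (l 93985468359) (l 153578139591)))) (c (c (b (b (c (l 16541528) (l 16537368)) (l 16539256)) (l 16538800)) (b (a (l 16542440) (l 16530672)) (l 16531000))) (b (c (b (l 16544264) (l 16523376)) (l 16536672)) (l 16540760)))) (b (c (c (b (a (c (a (a (l 16540512) (a (l 16540368) (b (l 16540264) (l 16540336)))) (l 16539904)) (a (a (l 16536216) (a (l 16536064) (l 16546472))) (l 16535592))) (l 16536664)) (a (c (a (a (l 16540536) (a (l 16540384) (l 16540304))) (l 16539904)) (a (a (l 16536280) (a (l 16536120) (l 16536032))) (l 16535632))) (l 16536680))) (b (a (a (a (l 16529888) (a (l 16529728) (c (l 16531736) (l 16527552))))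 (l 16529240)) (l 16528168)) (a (a (a (l 16530016) (a (l 16529848) (b (l 16529744) (l 16529760)))) (l 16529352)) (l 16528272)))) (c (b (a (a (a (l 16521672) (a (l 16521496) (c (l 16523432) (l 16519376)))) (l 16521000)) (l 16519936)) (a (a (a (l 16521888) (a (l 16521704) (l 16521600))) (l 16521200)) (l 16520128))) (b (a (a (a (l 16513704) (a (l 16513520) (l 16513408))) (l 16513016)) (l 16511968)) (a (a (a (l 16514008) (a (l 16513824) (l 16513712))) (l 16513304)) (l 16512256))))) (c (c (b (b (c (l 16560112) (l 16555920)) (l 16557800)) (l 16536344)) (b (b (c (l 16551800) (l 16547736)) (l 16549688)) (l 16528496))) (c (b (b (c (l 16543752) (l 16539824)) (l 16541848)) (l 16520936)) (b (b (l 16539312) (l 16534280)) (l 16513656)))))), by decide +kernel⟩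

def k5_pm_022_a : ∃ t, chk3 f_pm_022_a t 83 5 1 = true :=
  ⟨(b (c (b (a (c (l 16541912) (l 16534616)) (a (l 16534168) (l 16552632))) (a (l 16537232) (a (l 16533112) (l 16530560)))) (a (b (l 16524120) (l 16524344)) (a (l 16520152) (l 16559512)))) (c (a (l 16534872) (b (l 16572000) (l 16549000))) (a (l 16524384) (l 16581504)))), by decide +kernel⟩

def k6_pm_022_a : ∃ t, chk3 f_pm_022_a t 21 2 1 = true :=
  ⟨(b (a (b (c (a (c (b (l 16530520) (l 16530480)) (b (l 16521992) (l 16522048))) (l 16514864)) (a (c (b (l 16513784) (l 16513928)) (l 16526992)) (l 16498472))) (c (a (c (b (l 16530160) (l 16529496)) (l 16542744)) (l 16514208)) (a (b (l 16510208) (l 16510400)) (l 16498720)))) (c (b (l 16499264) (l 16498264)) (l 16524224))) (b (c (a (a (l 16545080) (l 16512280)) (l 16495872)) (a (l 16526208) (l 16481752))) (a (c (l 16536360) (l 16504720)) (l 16527568)))), by decide +kernel⟩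

def k7_pm_022_a : ∃ t, chk3 f_pm_022_a t 11 2 1 = true :=
  ⟨(a (a (b (c (l 16478912) (l 16440104)) (b (l 16487928) (l 16463208))) (b (l 16493344) (l 16487488))) (b (l 16514976) (l 16506592))), by decide +kernel⟩

def k8_pm_022_a : ∃ t, chk3 f_pm_022_a t 8 6 1 = true :=
  ⟨(l 1), by decide +kernel⟩

def k9_pm_022_a : ∃ t, chk3 f_pm_022_a t 18 6 1 = true :=
  ⟨(a (b (l 1) (b (l 1) (a (l 1) (b (a (l 1) (a (l 1) (a (l 1) (c (c (l 141230366935) (l 150894030375)) (l 166463285463))))) (c (c (a (b (l 137472281943) (a (l 171295152279) (l 202433666183))) (b (c (l 191696233351) (l 198138680887)) (l 16657840))) (a (b (l 146599080247) (l 202970526455)) (b (l 207802352119) (l 16654720)))) (c (a (l 193843713719) (l 236256503943)) (a (l 204044253863) (l 245920173575)))))))) (b (l 1) (b (a (b (l 1) (a (l 1) (a (l 1) (b (l 1) (b (l 1) (c (c (a (l 159483950807) (l 207265464599)) (l 196528041799)) (l 212097290567))))))) (b (a (l 1) (b (l 1) (c (c (c (l 181495636631) (l 187938083367)) (l 199749237047))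 (c (l 215855355831) (l 231424603623))))) (c (a (b (c (c (l 168610747495) (l 173979452503)) (l 184179993591)) (c (c (l 220687225255) (l 219613488951)) (l 229814032311))) (b (c (c (l 224445318487) (l 233035248999)) (l 243772663271)) (c (l 16632472) (l 16628832)))) (c (a (l 218002852999) (l 263636879351)) (l 242698921719))))) (a (b (c (c (c (a (b (l 148746548663) (l 199749284759)) (b (l 209412948727) (l 16646168))) (a (l 186327508519) (b (l 216929137799) (l 16644472)))) (a (b (l 160557698983) (l 216929144967)) (b (l 226055937703) (l 16641912)))) (c (a (l 207265460823) (l 243772681447)) (a (l 213171033111) (l 257731319495)))) (a (c (c (b (l 16651616) (l 16651344)) (l 16648384)) (b (l 16643368) (l 16643944))) (c (l 16643376) (l 16637520)))) (c (b (c (l 16648456) (l 16632080)) (l 16633176)) (b (a (l 16630304) (l 16623976)) (l 16628008))))))), by decide +kernel⟩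

def k10_pm_022_a : ∃ t, chk3 f_pm_022_a t 38 6 1 = true :=
  ⟨(b (b (b (l 1) (b (l 1) (a (l 1) (a (l 1) (c (c (c (l 167000072247) (l 171295034407)) (l 177200606743)) (c (l 184716789207) (l 192232971639))))))) (a (b (l 1) (c (a (c (c (l 148746499223) (l 153578332711)) (l 161631389255)) (b (a (l 1) (c (c (l 185253704327) (l 190085537943)) (l 196527981959))) (c (c (a (l 197601741335) (l 246993864759)) (l 218539699047)) (l 221760930407)))) (c (a (l 177737507031) (l 216929070759)) (l 222834647815)))) (c (b (a (c (c (b (l 152504570567) (a (l 163778862071) (l 215318462631))) (l 184179948919)) (b (l 161631363431) (l 204581035991))) (b (c (c (a (l 194917362071) (l 241625131463)) (l 218002802887)) (l 221760891991)) (c (c (l 16608104) (l 16605832)) (l 16602416)))) (a (b (c (c (a (l 227129635399) (l 16612840)) (l 235182694471)) (l 237867044551)) (c (l 16613024) (l 16608864))) (c (l 16606120) (l 16602024)))) (c (b (a (l 198675446295) (l 229813959143)) (a (l 248067583399) (l 16597944)))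 (b (l 220687137479) (l 250215057415)))))) (b (a (c (b (a (b (c (c (l 195991138279) (l 204044197671)) (l 216929093079)) (c (c (l 16627280) (l 16625280)) (l 16622256))) (c (c (l 16620424) (l 16618456)) (l 16615504))) (c (l 16622144) (l 16618696))) (c (b (a (l 236793308375) (l 16611552)) (l 16615248)) (b (a (l 248067602167) (l 16607592)) (l 16611800)))) (c (c (l 16608216) (l 16604912)) (l 16600016))) (c (b (l 16633536) (l 16632528)) (l 16639192)))), by decide +kernel⟩

def k11_pm_022_a : ∃ t, chk3 f_pm_022_a t 39 6 1 = true :=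
  ⟨(b (a (b (c (b (a (c (c (l 151430804183) (l 151430798599)) (l 163778821191)) (c (c (b (l 178811206631) (l 222297749367)) (l 206191617207)) (b (l 182032418375) (l 228740187239)))) (a (b (c (c (l 194917346423) (l 196527953959)) (l 199749171655)) (c (c (a (l 229277087255) (l 16600248)) (l 235719540279)) (l 236793277207))) (c (b (c (l 16595288) (l 16592808)) (l 16593472)) (b (l 16589096) (l 16588800))))) (c (b (a (l 173979357319) (l 214781533095)) (a (l 230350803319) (l 16584176))) (b (l 207265336215) (l 242698817703)))) (c (b (c (a (l 16599992) (l 16592528)) (l 16591944)) (l 16593120)) (b (c (l 16587632) (l 16583344)) (l 16585744)))) (b (c (b (a (b (c (c (l 245920067047) (l 249678157847)) (l 249141281719)) (c (l 16587072) (l 16582104))) (c (l 16579680) (l 16574848))) (c (l 16582488) (l 16578056))) (b (a (c (l 253973109527) (l 16572176)) (l 16567720)) (l 16571536))) (c (l 16599552) (l 16571704)))) (b (c (a (l 16591680) (l 16576168)) (l 16642800)) (c (l 16624176) (l 16600888)))),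 by decide +kernel⟩

def k12_pm_022_a : ∃ t, chk3 f_pm_022_a t 4 7 1 = true :=
  ⟨(a (a (b (l 1) (l 6)) (b (b (a (l 1) (a (l 1) (b (l 1) (b (a (l 1) (c (c (l 182569474279) (l 191696274423)) (a (l 180958850583) (l 224445398407)))) (a (l 6) (c (c (l 229814123623) (l 16679856)) (l 252362693479))))))) (a (l 6) (a (l 6) (a (l 6) (a (l 6) (c (l 16680128) (l 16677088))))))) (a (l 6) (a (l 6) (b (b (l 16684728) (l 16695384)) (l 16724416)))))) (a (b (a (b (a (b (c (c (a (b (l 1) (l 186327558775)) (b (a (l 165926455175) (l 208876128935)) (l 230350970903))) (a (b (l 1) (l 195454358487)) (b (l 198675571607) (l 16667320)))) (c (a (l 187938159111) (l 229277207863)) (a (l 196528087239) (l 238404007255)))) (a (c (b (c (l 227129757255) (l 16673560)) (l 16675032)) (c (l 250752067527) (l 16668800))) (c (l 16668792) (l 16664240)))) (b (a (b (c (c (l 234645926519) (l 16661048)) (c (l 16658048) (l 16655000))) (c (l 16662504) (l 16657232))) (c (l 16656176) (l 16650912))) (c (l 16659216) (l 16655216))))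 (c (b (l 16686672) (l 16665576)) (b (l 16683704) (l 16664080)))) (b (c (b (l 16660440) (l 16638768)) (b (l 16656256) (l 16636088))) (l 16665328))) (b (a (l 16690072) (l 16679144)) (a (l 16700328) (l 16719416)))) (a (b (b (c (l 16609656) (l 16608296)) (l 16640376)) (b (l 16678808) (l 16720168))) (b (b (l 16667176) (l 16640552)) (a (l 16701552) (l 16703376)))))), by decide +kernel⟩

def k13_pm_022_a : ∃ t, chk3 f_pm_022_a t 5 3 1 = true :=
  ⟨(a (a (a (c (b (b (b (a (l 16587448) (l 16553432)) (l 16599776)) (l 16617064)) (b (l 16625216) (l 16687608))) (b (b (b (a (l 16558056) (l 16545472)) (l 16593904)) (l 16598792)) (b (l 16621960) (l 16677384)))) (b (a (b (c (l 16539080) (l 16532656)) (l 16554200)) (b (c (a (l 16529752) (l 16565664)) (l 16626024)) (a (l 16552880) (l 16614768)))) (a (b (l 16622904) (l 16703512)) (b (a (l 16621784) (l 16620880)) (a (l 16702632) (l 16680888)))))) (b (b (c (l 16562624) (l 16534424)) (l 16649800)) (b (l 16669504) (a (l 16699424) (l 16698296))))) (b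 (a (b (l 16521016) (l 16537944)) (c (l 16641160) (l 16498632))) (a (b (l 16608552) (l 16691352)) (b (l 16592320) (l 16675904))))), by decide +kernel⟩

def k14_pm_022_a : ∃ t, chk3 f_pm_022_a t 3 1 1 = true :=
  ⟨(a (a (b (a (b (l 16554832) (l 16558096)) (b (l 16808064) (l 16800888))) (b (a (l 16588144) (l 16802192)) (a (l 16691776) (l 16846864)))) (b (a (b (l 16983544) (l 16970312)) (l 17098664)) (b (a (l 16953064) (l 17065288)) (a (l 16959184) (l 17047888))))) (a (b (a (l 17189760) (l 17258272)) (a (b (l 17158520) (l 17136600)) (l 17303280))) (b (l 17326688) (l 17523912)))), by decide +kernel⟩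

theorem s15_pm_022_a : ∃ t, chk3 f_pm_022_a t 19 6 1 = true := ex3_a k10_pm_022_a k11_pm_022_a

theorem s16_pm_022_a : ∃ t, chk3 f_pm_022_a t 9 6 1 = true := ex3_a k9_pm_022_a s15_pm_022_a

theorem s17_pm_022_a : ∃ t, chk3 f_pm_022_a t 4 6 1 = true := ex3_a k8_pm_022_a s16_pm_022_a

theorem s18_pm_022_a : ∃ t, chk3 f_pm_022_a t 4 3 1 = true := ex3_b s17_pm_022_a k12_pm_022_a

theorem s19_pm_022_a : ∃ t, chk3 f_pm_022_a t 2 3 1 = true := ex3_a s18_pm_022_a k13_pm_022_a

theorem s20_pm_022_a : ∃ t, chk3 f_pm_022_a t 83 4 1 = true := ex3_a k3_pm_022_a k4_pm_022_a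

theorem s21_pm_022_a : ∃ t, chk3 f_pm_022_a t 83 2 1 = true := ex3_b s20_pm_022_a k5_pm_022_a

theorem s22_pm_022_a : ∃ t, chk3 f_pm_022_a t 41 2 1 = true := ex3_a k2_pm_022_a s21_pm_022_a

theorem s23_pm_022_a : ∃ t, chk3 f_pm_022_a t 20 2 1 = true := ex3_a k1_pm_022_a s22_pm_022_a

theorem s24_pm_022_a : ∃ t, chk3 f_pm_022_a t 10 2 1 = true := ex3_a s23_pm_022_a k6_pm_022_a

theorem s25_pm_022_a : ∃ t, chk3 f_pm_022_a t 5 2 1 = true := ex3_a s24_pm_022_a k7_pm_022_a

theorem s26_pm_022_a : ∃ t, chk3 f_pm_022_a t 2 2 1 = true := ex3_a k0_pm_022_a s25_pm_022_a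

theorem s27_pm_022_a : ∃ t, chk3 f_pm_022_a t 2 1 1 = true := ex3_b s26_pm_022_a s19_pm_022_a

theorem s28_pm_022_a : ∃ t, chk3 f_pm_022_a t 1 1 1 = true := ex3_a s27_pm_022_a k14_pm_022_a

theorem c_pm_022_a : CertF 0 536870912 0 536870912 201326592 134217728 true true false .pp 0 2 2
    ndF1q0 ndF2q2a pcF2 cut_pm_022_a Ext.none :=
  certF2 (fam := true) (s1 := true) (s2 := false) (a := 0) (b := 2) (c := 2) (cn := .pp) (n1 := ndF1q0) (n2 := ndF2q2a) (pc := pcF2) (cut := cut_pm_022_a) (xt := Ext.none) (P1 := 0) (W1 := 536870912) (P2 := 0) (W2 := 536870912) (P3 := 201326592) (W3 := 134217728)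
    rfl (fun _ => rfl) s28_pm_022_a

noncomputable def cut_pm_022_b : Cut := Cut.of [[⟨0, 0, 0, 67108864⟩, ⟨1, 1, 0, 67108864⟩, ⟨2, 1, 0, 67108864⟩]]

noncomputable def f_pm_022_b : ℕ → ℕ → ℕ → ℕ → Bool := onCell 0 536870912 1073741824 536870912 201326592 134217728
    (rowF 1 true true false .pp 0 2 2 (qsf 0 536870912 1239849684 370763052 2) ndF1q0 ndF2q2b pcF2 cut_pm_022_b Ext.none)

def k0_pm_022_b : ∃ t, chk3 f_pm_022_b t 4 4 1 = true :=
  ⟨(l 1), by decide +kernel⟩

def k1_pm_022_b : ∃ t, chk3 f_pm_022_b t 4 10 1 = true :=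
  ⟨(b (b (l 1) (a (b (l 1) (a (a (c (a (a (b (l 1) (a (b (l 1) (c (c (b (b (b (l 1) (b (l 1) (l 16539976))) (l 16539656)) (l 16538760)) (b (b (b (l 1) (b (l 1) (l 16535712))) (l 16535376)) (l 16534440))) (b (b (b (l 1) (c (b (l 1) (l 16531520)) (l 16548376))) (l 16529080)) (l 16528088)))) (l 1))) (l 1)) (l 1)) (b (l 1) (a (a (b (l 1) (c (b (b (b (l 1) (b (l 1) (l 16521312))) (l 16520904)) (l 16519848)) (b (b (b (l 1) (b (l 1) (l 16513536))) (l 16513096)) (l 16511968)))) (l 1)) (l 1)))) (l 1)) (l 1))) (l 1))) (a (a (a (c (a (b (c (b (c (l 16533008) (l 16528592)) (c (l 16523904) (l 16519000))) (a (b (c (l 16524504) (l 16520136)) (l 16512080)) (l 16517368))) (c (a (c (l 16533536) (l 16527752)) (l 16508744)) (b (l 16523104) (l 16493064)))) (b (l 16541808) (l 16523032))) (a (a (b (c (b (l 16513712) (l 16502640)) (b (l 16505416) (l 16493568))) (c (b (l 16492072) (l 16482048)) (l 16487576))) (b (c (l 16508704) (l 16500392)) (l 16503208))) (b (l 16504760) (l 16482240)))) (c (b (l 16518744)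 (l 16499768)) (b (l 16505208) (l 16482312)))) (c (l 16570232) (l 16559264))) (l 1))), by decide +kernel⟩

def k2_pm_022_b : ∃ t, chk3 f_pm_022_b t 4 11 1 = true :=
  ⟨(b (a (a (a (c (a (c (b (c (l 16508464) (l 16491128)) (b (l 16489528) (l 16514432))) (b (b (l 16484696) (l 16477024)) (a (l 16488312) (l 16466800)))) (c (l 16509024) (l 16494984))) (a (b (c (a (l 16489496) (l 16468312)) (l 16477296)) (c (l 16452040) (l 16437800))) (b (l 16462224) (l 16444744)))) (c (b (l 16483880) (l 16471200)) (l 16496160))) (c (l 16515624) (l 16474576))) (a (l 16533792) (l 1))) (a (a (a (a (c (b (c (b (l 16654792) (l 16869688)) (l 16456136)) (c (l 16893368) (l 16458952))) (b (c (l 16438624) (l 16422056)) (c (l 16428864) (l 16409784)))) (c (b (l 16494696) (l 16547448)) (l 16472024))) (c (c (l 16926088) (l 16450376)) (l 16424816))) (c (l 16648064) (l 16424192))) (c (l 16623176) (l 16441400)))), by decide +kernel⟩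

def k3_pm_022_b : ∃ t, chk3 f_pm_022_b t 5 2 1 = true :=
  ⟨(l 1), by decide +kernel⟩

def k4_pm_022_b : ∃ t, chk3 f_pm_022_b t 2 3 1 = true :=
  ⟨(b (b (a (a (b (a (c (a (c (b (l 17226184) (l 17375328)) (b (a (l 16584080) (l 16759840)) (l 16947056))) (c (l 17268472) (l 16833504))) (a (b (c (l 16423496) (l 16402024)) (c (l 16494784) (l 16399368))) (l 16411928))) (c (l 17008832) (l 16412336))) (a (c (c (l 17543312) (b (l 17090168) (l 17228312))) (c (a (b (l 16703288) (l 16869544)) (l 16764768)) (b (l 16404824) (l 16420160)))) (c (l 17287448) (l 16546072)))) (b (c (l 16940720) (l 16410032)) (c (l 17197416) (l 16508760)))) (a (b (l 16577152) (l 16802984)) (l 1))) (a (a (b (c (a (c (l 17735680) (l 17404560)) (l 17504136)) (a (a (b (c (l 17017424) (l 16667112)) (l 16797976)) (l 16891776)) (l 16856312))) (c (b (l 17664608) (l 17733928)) (a (a (b (l 17031568) (l 17230856)) (l 17003152)) (l 17105088)))) (b (c (l 17403784) (l 16788672)) (c (l 17565096) (l 17016440)))) (b (a (l 17003984)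 (l 16954920)) (a (l 17177520) (l 17094688))))) (b (a (b (a (c (b (l 17784840) (l 17823136)) (b (a (l 17296824) (l 17234496)) (l 17317824))) (c (l 17675816) (l 17172368))) (a (c (l 17873104) (l 17385520)) (l 17516952))) (b (l 17261600) (l 17362496))) (a (c (l 17899608) (l 17449032)) (l 17479104)))), by decide +kernel⟩

def k5_pm_022_b : ∃ t, chk3 f_pm_022_b t 3 1 1 = true :=
  ⟨(a (b (l 1) (b (l 1) (b (b (l 17136464) (l 17226000)) (l 17331376)))) (l 1)), by decide +kernel⟩

theorem s6_pm_022_b : ∃ t, chk3 f_pm_022_b t 4 5 1 = true := ex3_b k1_pm_022_b k2_pm_022_b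

theorem s7_pm_022_b : ∃ t, chk3 f_pm_022_b t 4 2 1 = true := ex3_b k0_pm_022_b s6_pm_022_b

theorem s8_pm_022_b : ∃ t, chk3 f_pm_022_b t 2 2 1 = true := ex3_a s7_pm_022_b k3_pm_022_b

theorem s9_pm_022_b : ∃ t, chk3 f_pm_022_b t 2 1 1 = true := ex3_b s8_pm_022_b k4_pm_022_b

theorem s10_pm_022_b : ∃ t, chk3 f_pm_022_b t 1 1 1 = true := ex3_a s9_pm_022_b k5_pm_022_b

theorem c_pm_022_b : CertF 0 536870912 1239849684 370763052 201326592 134217728 true true false .pp 0 2 2
    ndF1q0 ndF2q2b pcF2 cut_pm_022_b Ext.none :=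
  certF1 (fam := true) (s1 := true) (s2 := false) (a := 0) (b := 2) (c := 2) (cn := .pp) (n1 := ndF1q0) (n2 := ndF2q2b) (pc := pcF2) (cut := cut_pm_022_b) (xt := Ext.none) (P1 := 0) (W1 := 536870912) (P2 := 1239849684) (W2 := 370763052) (P3 := 201326592) (W3 := 134217728)
    rfl (fun _ => rfl) s10_pm_022_b

noncomputable def f_pm_023_a : ℕ → ℕ → ℕ → ℕ → Bool := onCell 1610612736 536870912 0 536870912 201326592 134217728
    (rowF 2 true true false .up 0 2 3 (qsf 0 536870912 0 536870912 3) ndF1q0 ndF2q2a pcF3 Cut.none Ext.none)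

def k0_pm_023_a : ∃ t, chk3 f_pm_023_a t 1 1 1 = true :=
  ⟨(a (a (b (l 17505368) (b (l 17404936) (a (l 17357832) (l 17405712)))) (b (a (l 17426008) (l 2)) (a (l 17424544) (l 2)))) (l 2)), by decide +kernel⟩

theorem c_pm_023_a : CertF 0 536870912 0 536870912 201326592 134217728 true true false .up 0 2 3
    ndF1q0 ndF2q2a pcF3 Cut.none Ext.none :=
  certF2 (fam := true) (s1 := true) (s2 := false) (a := 0) (b := 2) (c := 3) (cn := .up) (n1 := ndF1q0) (n2 := ndF2q2a) (pc := pcF3) (cut := Cut.none) (xt := Ext.none) (P1 := 0) (W1 := 536870912) (P2 := 0) (W2 := 536870912) (P3 := 201326592) (W3 := 134217728)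
    rfl (fun _ => rfl) k0_pm_023_a

noncomputable def f_pm_023_b : ℕ → ℕ → ℕ → ℕ → Bool := onCell 1610612736 536870912 1239849684 370763052 201326592 134217728
    (rowF 2 true true false .up 0 2 3 (qsf 0 536870912 1239849684 370763052 3) ndF1q0 ndF2q2b pcF3 Cut.none Ext.none)

def k0_pm_023_b : ∃ t, chk3 f_pm_023_b t 1 1 1 = true :=
  ⟨(a (a (b (c (l 17669856) (l 17447912)) (c (l 18071872) (a (b (l 17496000) (l 17600152)) (l 17519832)))) (a (b (l 17474280) (l 17621976)) (b (l 17442848) (l 17563672)))) (a (a (b (l 17414368) (l 17504416)) (b (l 17394088) (l 17448968))) (l 4))), by decide +kernel⟩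

theorem c_pm_023_b : CertF 0 536870912 1239849684 370763052 201326592 134217728 true true false .up 0 2 3
    ndF1q0 ndF2q2b pcF3 Cut.none Ext.none :=
  certF2 (fam := true) (s1 := true) (s2 := false) (a := 0) (b := 2) (c := 3) (cn := .up) (n1 := ndF1q0) (n2 := ndF2q2b) (pc := pcF3) (cut := Cut.none) (xt := Ext.none) (P1 := 0) (W1 := 536870912) (P2 := 1239849684) (W2 := 370763052) (P3 := 201326592) (W3 := 134217728)
    rfl (fun _ => rfl) k0_pm_023_b

noncomputable def f_pm_033 : ℕ → ℕ → ℕ → ℕ → Bool := onCell 0 536870912 1610612736 536870912 201326592 134217728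
    (rowF 1 true true false .pnn 0 3 3 (qsf 0 536870912 1610612736 536870912 3) ndF1q0 ndF2q3 pcF3 Cut.none Ext.none)

def k0_pm_033 : ∃ t, chk3 f_pm_033 t 1 1 1 = true :=
  ⟨(b (b (a (a (c (l 17918032) (b (l 17638144) (l 17644008))) (l 317326441383)) (l 1)) (a (b (a (c (l 17931776) (l 17671216)) (l 17648408)) (a (l 17818304) (l 17664736))) (b (l 1) (l 282428808983)))) (b (a (b (b (l 17736736) (l 17829872)) (l 4)) (b (a (l 17504576) (l 1)) (l 17516696))) (l 4))), by decide +kernel⟩

theorem c_pm_033 : CertF 0 536870912 1610612736 536870912 201326592 134217728 true true false .pnn 0 3 3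
    ndF1q0 ndF2q3 pcF3 Cut.none Ext.none :=
  certF1 (fam := true) (s1 := true) (s2 := false) (a := 0) (b := 3) (c := 3) (cn := .pnn) (n1 := ndF1q0) (n2 := ndF2q3) (pc := pcF3) (cut := Cut.none) (xt := Ext.none) (P1 := 0) (W1 := 536870912) (P2 := 1610612736) (W2 := 536870912) (P3 := 201326592) (W3 := 134217728)
    rfl (fun _ => rfl) k0_pm_033

noncomputable def f_pm_101 : ℕ → ℕ → ℕ → ℕ → Bool := onCell 536870912 536870912 0 536870912 201326592 134217728
    (rowF 2 true true false .npn 1 0 1 (qsf 536870912 536870912 0 536870912 1) ndF1q1 ndF2q0 pcF1 Cut.none Ext.none)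

def k0_pm_101 : ∃ t, chk3 f_pm_101 t 1 1 1 = true :=
  ⟨(a (l 3) (l 3)), by decide +kernel⟩

theorem c_pm_101 : CertF 536870912 536870912 0 536870912 201326592 134217728 true true false .npn 1 0 1
    ndF1q1 ndF2q0 pcF1 Cut.none Ext.none :=
  certF2 (fam := true) (s1 := true) (s2 := false) (a := 1) (b := 0) (c := 1) (cn := .npn) (n1 := ndF1q1) (n2 := ndF2q0) (pc := pcF1) (cut := Cut.none) (xt := Ext.none) (P1 := 536870912) (W1 := 536870912) (P2 := 0) (W2 := 536870912) (P3 := 201326592) (W3 := 134217728)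
    rfl (fun _ => rfl) k0_pm_101

noncomputable def f_pm_102 : ℕ → ℕ → ℕ → ℕ → Bool := onCell 536870912 536870912 1073741824 536870912 201326592 134217728
    (rowF 1 true true false .npp 1 0 2 (qsf 536870912 536870912 0 536870912 2) ndF1q1 ndF2q0 pcF2 Cut.none Ext.none)

def k0_pm_102 : ∃ t, chk3 f_pm_102 t 1 1 1 = true :=
  ⟨(a (b (b (b (l 3) (b (l 3) (l 221359595063))) (b (b (b (l 17021784) (b (l 16987184) (b (l 16980536) (l 9765303703)))) (l 16956272)) (l 17034104))) (a (l 2) (b (l 16891000) (l 2)))) (b (b (b (l 3) (l 3)) (b (b (b (a (l 17058688) (a (l 17032984) (l 16973488))) (b (a (l 17076272) (a (l 17018280) (l 16957592))) (a (b (l 17071216) (b (l 17067488) (l 17064800))) (b (a (l 17011000) (l 16950008)) (a (l 17046160) (b (l 16944680) (l 16940832))))))) (a (l 17042064) (a (l 16972664) (l 16908416)))) (a (l 16984192) (a (l 16884160) (l 16812464))))) (a (b (l 17019192) (l 17113632)) (b (a (l 17048120) (b (l 16765368) (l 17054864))) (a (l 17245120) (l 17298024)))))), by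 decide +kernel⟩

theorem c_pm_102 : CertF 536870912 536870912 0 536870912 201326592 134217728 true true false .npp 1 0 2
    ndF1q1 ndF2q0 pcF2 Cut.none Ext.none :=
  certF1 (fam := true) (s1 := true) (s2 := false) (a := 1) (b := 0) (c := 2) (cn := .npp) (n1 := ndF1q1) (n2 := ndF2q0) (pc := pcF2) (cut := Cut.none) (xt := Ext.none) (P1 := 536870912) (W1 := 536870912) (P2 := 0) (W2 := 536870912) (P3 := 201326592) (W3 := 134217728)
    rfl (fun _ => rfl) k0_pm_102

noncomputable def f_pm_112 : ℕ → ℕ → ℕ → ℕ → Bool := onCell 536870912 536870912 1073741824 536870912 201326592 134217728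
    (rowF 1 true true false .dn 1 1 2 (qsf 536870912 536870912 536870912 536870912 2) ndF1q1 ndF2q1 pcF2 Cut.none Ext.none)

def k0_pm_112 : ∃ t, chk3 f_pm_112 t 1 1 1 = true :=
  ⟨(a (b (b (b (l 3) (b (l 3) (l 735145673495))) (b (b (b (a (l 17418640) (l 17428640)) (b (l 17438112) (b (l 17447096) (b (l 17451784) (l 17454824))))) (l 17479944)) (a (l 17578448) (l 17530512)))) (b (a (l 17739424) (l 17629232)) (a (l 17950872) (l 17757408)))) (b (b (l 1) (b (l 1) (l 458523367287))) (b (l 338264302359) (l 17563592)))), by decide +kernel⟩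

theorem c_pm_112 : CertF 536870912 536870912 536870912 536870912 201326592 134217728 true true false .dn 1 1 2
    ndF1q1 ndF2q1 pcF2 Cut.none Ext.none :=
  certF1 (fam := true) (s1 := true) (s2 := false) (a := 1) (b := 1) (c := 2) (cn := .dn) (n1 := ndF1q1) (n2 := ndF2q1) (pc := pcF2) (cut := Cut.none) (xt := Ext.none) (P1 := 536870912) (W1 := 536870912) (P2 := 536870912) (W2 := 536870912) (P3 := 201326592) (W3 := 134217728)
    rfl (fun _ => rfl) k0_pm_112

noncomputable def f_pm_113 : ℕ → ℕ → ℕ → ℕ → Bool := onCell 536870912 536870912 1610612736 536870912 201326592 134217728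
    (rowF 1 true true false .nn 1 1 3 (qsf 536870912 536870912 536870912 536870912 3) ndF1q1 ndF2q1 pcF3 Cut.none Ext.none)

def k0_pm_113 : ∃ t, chk3 f_pm_113 t 1 1 1 = true :=
  ⟨(a (b (b (a (l 18148520) (l 17875208)) (a (b (l 18322504) (l 2)) (l 18055760))) (b (a (l 2) (b (l 18285840) (l 2))) (l 2))) (b (b (a (l 17649312) (l 17473960)) (a (l 17735912) (l 17417112))) (b (a (l 17805712) (l 17464096)) (b (l 167606732439) (b (l 17822928) (b (l 17791152) (b (l 17822632) (l 17869464)))))))), by decide +kernel⟩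

theorem c_pm_113 : CertF 536870912 536870912 536870912 536870912 201326592 134217728 true true false .nn 1 1 3
    ndF1q1 ndF2q1 pcF3 Cut.none Ext.none :=
  certF1 (fam := true) (s1 := true) (s2 := false) (a := 1) (b := 1) (c := 3) (cn := .nn) (n1 := ndF1q1) (n2 := ndF2q1) (pc := pcF3) (cut := Cut.none) (xt := Ext.none) (P1 := 536870912) (W1 := 536870912) (P2 := 536870912) (W2 := 536870912) (P3 := 201326592) (W3 := 134217728)
    rfl (fun _ => rfl) k0_pm_113

noncomputable def f_pm_123_a : ℕ → ℕ → ℕ → ℕ → Bool := onCell 1610612736 536870912 0 536870912 201326592 134217728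
    (rowF 2 true true false .npn 1 2 3 (qsf 536870912 536870912 0 536870912 3) ndF1q1 ndF2q2a pcF3 Cut.none Ext.none)

def k0_pm_123_a : ∃ t, chk3 f_pm_123_a t 1 1 1 = true :=
  ⟨(a (a (b (l 17146000) (l 17425176)) (b (a (l 17099520) (l 17054744)) (a (l 17157512) (l 17106896)))) (a (a (b (l 17003744) (l 17050448)) (b (l 16954680) (l 17163784))) (a (b (l 4) (a (l 16946352) (l 4))) (l 4)))), by decide +kernel⟩

theorem c_pm_123_a : CertF 536870912 536870912 0 536870912 201326592 134217728 true true false .npn 1 2 3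
    ndF1q1 ndF2q2a pcF3 Cut.none Ext.none :=
  certF2 (fam := true) (s1 := true) (s2 := false) (a := 1) (b := 2) (c := 3) (cn := .npn) (n1 := ndF1q1) (n2 := ndF2q2a) (pc := pcF3) (cut := Cut.none) (xt := Ext.none) (P1 := 536870912) (W1 := 536870912) (P2 := 0) (W2 := 536870912) (P3 := 201326592) (W3 := 134217728)
    rfl (fun _ => rfl) k0_pm_123_a

noncomputable def f_pm_123_b : ℕ → ℕ → ℕ → ℕ → Bool := onCell 1610612736 536870912 1239849684 370763052 201326592 134217728
    (rowF 2 true true false .npn 1 2 3 (qsf 536870912 536870912 1239849684 370763052 3) ndF1q1 ndF2q2b pcF3 Cut.none Ext.none)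

def k0_pm_123_b : ∃ t, chk3 f_pm_123_b t 1 1 1 = true :=
  ⟨(a (a (l 1) (b (a (l 17040680) (l 17005824)) (l 1))) (a (a (b (l 16961328) (l 1)) (b (l 16920280) (l 16893840))) (l 4))), by decide +kernel⟩

theorem c_pm_123_b : CertF 536870912 536870912 1239849684 370763052 201326592 134217728 true true false .npn 1 2 3
    ndF1q1 ndF2q2b pcF3 Cut.none Ext.none :=
  certF2 (fam := true) (s1 := true) (s2 := false) (a := 1) (b := 2) (c := 3) (cn := .npn) (n1 := ndF1q1) (n2 := ndF2q2b) (pc := pcF3) (cut := Cut.none) (xt := Ext.none) (P1 := 536870912) (W1 := 536870912) (P2 := 1239849684) (W2 := 370763052) (P3 := 201326592) (W3 := 134217728)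
    rfl (fun _ => rfl) k0_pm_123_b

noncomputable def f_pm_133 : ℕ → ℕ → ℕ → ℕ → Bool := onCell 536870912 536870912 1610612736 536870912 201326592 134217728
    (rowF 0 true true false .dn 1 3 3 (qsf 536870912 536870912 1610612736 536870912 3) ndF1q1 ndF2q3 pcF3 Cut.none Ext.none)

def k0_pm_133 : ∃ t, chk3 f_pm_133 t 1 1 1 = true :=
  ⟨(l 4), by decide +kernel⟩

theorem c_pm_133 : CertF 536870912 536870912 1610612736 536870912 201326592 134217728 true true false .dn 1 3 3
    ndF1q1 ndF2q3 pcF3 Cut.none Ext.none :=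
  certF0 (fam := true) (s1 := true) (s2 := false) (a := 1) (b := 3) (c := 3) (cn := .dn) (n1 := ndF1q1) (n2 := ndF2q3) (pc := pcF3) (cut := Cut.none) (xt := Ext.none) (P1 := 536870912) (W1 := 536870912) (P2 := 1610612736) (W2 := 536870912) (P3 := 201326592) (W3 := 134217728)
    rfl k0_pm_133

noncomputable def cut_pm_202_a : Cut := Cut.of [[⟨0, 1, 0, 67108864⟩, ⟨1, 0, 0, 67108864⟩, ⟨2, 1, 0, 67108864⟩]]

noncomputable def f_pm_202_a : ℕ → ℕ → ℕ → ℕ → Bool := onCell 0 536870912 1073741824 536870912 201326592 134217728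
    (rowF 1 true true false .pp 2 0 2 (qsf 0 536870912 0 536870912 2) ndF1q2a ndF2q0 pcF2 cut_pm_202_a Ext.none)

def k0_pm_202_a : ∃ t, chk3 f_pm_202_a t 2 1 1 = true :=
  ⟨(b (a (b (l 1) (b (b (b (l 1) (a (b (l 1) (b (l 1) (c (b (l 16502552) (l 16522720)) (a (l 16556864) (l 391948872839))))) (b (c (a (l 1) (l 273837189607)) (l 254509833367)) (b (c (l 311418138327) (l 16488200)) (c (b (l 16496880) (l 16517096)) (a (l 16551552) (l 16546904))))))) (b (a (c (l 16515632) (l 16483776)) (c (l 16510024) (l 16476928))) (c (l 16475312) (l 16441840)))) (b (b (l 16472304) (l 16412648)) (l 16403344)))) (b (a (l 1) (a (l 1) (b (l 1) (b (l 1) (b (l 1) (b (l 1) (c (b (l 431677294039) (l 340946105191)) (l 313028847751)))))))) (b (b (b (b (a (l 1) (c (a (l 361347194567) (l 369400265367)) (a (l 332893018711) (l 16523040)))) (a (c (a (l 279742784295) (l 349536004423)) (l 302828229431)) (c (a (l 16522392) (l 16513440)) (l 321081851975)))) (b (a (c (a (l 320008089607) (l 16525088)) (l 293164536983))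 (c (l 16523456) (l 16510600))) (a (b (c (l 16496968) (l 16481352)) (c (a (l 16557120) (l 16557360)) (b (l 16478080) (l 16475656)))) (b (l 16544872) (c (l 16577512) (l 16556216)))))) (a (b (c (l 16487440) (l 16468064)) (l 16473408)) (b (l 16552552) (l 16479336)))) (b (b (l 16477672) (l 16447232)) (l 16434576))))) (b (b (a (l 16687784) (b (l 16557584) (l 16809336))) (a (l 17058344) (l 17058032))) (b (a (l 17237648) (l 17251984)) (l 17318576)))), by decide +kernel⟩

def k1_pm_202_a : ∃ t, chk3 f_pm_202_a t 6 2 1 = true :=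
  ⟨(b (a (b (l 1) (b (l 1) (b (a (b (l 1) (c (c (l 359736665351) (l 344167380423)) (l 382285205431))) (b (a (l 1) (c (c (a (l 336114369111) (l 369937239911)) (l 373695328567)) (l 394096415063))) (c (c (a (l 406981314567) (l 16587512)) (l 371010976487)) (l 344704301159)))) (b (a (c (c (l 333966839063) (l 329134962663)) (l 341483027415)) (c (l 16575824) (l 16551944))) (a (c (a (l 402149433127) (l 16557200)) (l 16558296)) (c (l 16548800) (l 16552424))))))) (b (l 1) (b (b (a (l 1) (b (l 1) (a (a (l 1) (c (c (l 327524542263) (l 340409438679)) (l 359736783479))) (c (c (b (l 360810551767) (l 384432859719)) (l 396244020935)) (l 416645108215))))) (a (b (a (l 1) (a (l 1) (c (c (l 336114443271) (l 353294306647)) (l 376379747591)))) (c (c (a (l 342020012999) (b (l 359736741271) (l 16608032))) (a (l 360810462631) (l 380674721831))) (l 337725051335))) (b (a (c (c (a (l 371011056663) (l 390338413735)) (l 361884247927)) (l 353294305703)) (c (c (l 16633680) (l 16631304)) (l 16627952))) (c (a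 (l 16624784) (l 16618656)) (l 16612240))))) (b (a (b (c (a (c (l 388190887431) (l 391948975047)) (l 16616560)) (l 394633339847)) (c (l 16578224) (l 16574296))) (c (l 16593896) (l 16590768))) (b (a (l 16568040) (l 16588408)) (l 16642608)))))) (b (b (b (c (a (b (l 16582504) (l 16537000)) (l 16576000)) (a (b (l 16544616) (l 16541864)) (l 16578528))) (b (a (l 16536392) (l 16574104)) (a (b (l 16532904) (l 16655960)) (l 16780544)))) (a (b (l 16521640) (l 16512056)) (l 16594752))) (b (a (l 16494712) (l 16535760)) (l 16497800)))), by decide +kernel⟩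

def k2_pm_202_a : ∃ t, chk3 f_pm_202_a t 7 2 1 = true :=
  ⟨(b (a (b (b (l 1) (b (a (l 1) (l 6)) (a (b (l 1) (a (l 1) (b (a (l 1) (l 6)) (c (c (a (l 376379860055) (l 16677760)) (l 375842987655)) (l 369400530551))))) (b (l 6) (b (l 6) (c (l 16693080) (l 16678984))))))) (b (b (a (b (a (b (c (c (l 355978746455) (l 365642418407)) (l 380137926119)) (c (c (l 379601055351) (l 374232341767)) (l 373158603751))) (c (a (c (l 409665860247) (l 16665120)) (l 16668440)) (l 417182057703))) (a (c (c (l 408592091879) (l 16649120)) (l 16645912)) (l 16674352))) (c (l 16688776) (l 16685432))) (a (c (l 16653776) (l 16629552)) (l 16639384))) (b (a (l 16609888) (l 16636640)) (b (l 16624864) (l 16626696))))) (b (b (l 6) (b (l 6) (a (b (l 6) (l 16693168)) (l 16711888)))) (b (a (l 16711160) (l 16703128)) (b (l 16685208) (l 16684376))))) (b (b (b (a (l 16646312) (l 16689712)) (b (a (l 16622472) (l 16687536)) (a (l 16724488) (b (l 16685040) (l 16682944))))) (a (l 16603080) (l 16669720))) (b (a (l 16587440)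 (l 16655688)) (l 16604736)))), by decide +kernel⟩

def k3_pm_202_a : ∃ t, chk3 f_pm_202_a t 3 3 1 = true :=
  ⟨(b (b (a (l 16738120) (a (l 16754128) (l 16802240))) (a (l 17050904) (l 17216464))) (b (a (l 17242688) (l 17220960)) (a (l 17326968) (l 17303000)))), by decide +kernel⟩

theorem s4_pm_202_a : ∃ t, chk3 f_pm_202_a t 3 2 1 = true := ex3_a k1_pm_202_a k2_pm_202_a

theorem s5_pm_202_a : ∃ t, chk3 f_pm_202_a t 3 1 1 = true := ex3_b s4_pm_202_a k3_pm_202_a

theorem s6_pm_202_a : ∃ t, chk3 f_pm_202_a t 1 1 1 = true := ex3_a k0_pm_202_a s5_pm_202_a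

theorem c_pm_202_a : CertF 0 536870912 0 536870912 201326592 134217728 true true false .pp 2 0 2
    ndF1q2a ndF2q0 pcF2 cut_pm_202_a Ext.none :=
  certF1 (fam := true) (s1 := true) (s2 := false) (a := 2) (b := 0) (c := 2) (cn := .pp) (n1 := ndF1q2a) (n2 := ndF2q0) (pc := pcF2) (cut := cut_pm_202_a) (xt := Ext.none) (P1 := 0) (W1 := 536870912) (P2 := 0) (W2 := 536870912) (P3 := 201326592) (W3 := 134217728)
    rfl (fun _ => rfl) s6_pm_202_a

noncomputable def cut_pm_202_b : Cut := Cut.of [[⟨0, 1, 0, 67108864⟩, ⟨1, 0, 0, 67108864⟩, ⟨2, 1, 0, 67108864⟩]]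

noncomputable def f_pm_202_b : ℕ → ℕ → ℕ → ℕ → Bool := onCell 1073741824 536870912 0 536870912 201326592 134217728
    (rowF 2 true true false .pp 2 0 2 (qsf 1239849684 370763052 0 536870912 2) ndF1q2b ndF2q0 pcF2 cut_pm_202_b Ext.none)

def k0_pm_202_b : ∃ t, chk3 f_pm_202_b t 1 1 1 = true :=
  ⟨(a (b (a (l 1) (a (b (b (a (a (l 1) (a (l 1) (a (l 1) (a (l 1) (b (b (c (l 16534184) (l 16484024)) (l 1)) (l 1)))))) (b (c (b (a (l 16518680) (l 16468232)) (l 16521320)) (a (b (l 16477160) (l 16484248)) (l 16494192))) (l 26339919447))) (l 1)) (l 1)) (b (a (b (b (a (c (l 16467896) (l 16431672)) (c (l 16421408) (l 16381768))) (l 16514312)) (l 16607960)) (b (b (c (b (l 16412816) (l 16614232)) (l 16420944)) (l 16412136)) (l 16493248))) (l 1)))) (l 1)) (a (b (b (a (b (b (a (c (a (l 16912872) (l 17077640)) (l 16357520)) (c (l 17118280) (l 16303904))) (a (l 16520136) (l 16836656))) (a (l 16534696) (l 16806920))) (a (b (b (c (l 17506040) (b (l 16767784) (l 16748144))) (l 17087200)) (l 17032096))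 (b (c (l 17645296) (b (l 16976232) (l 16953136))) (l 17217080)))) (a (b (l 16752032) (l 1)) (b (l 17071088) (l 17039080)))) (l 1)) (b (a (b (b (c (a (l 17772088) (l 17873256)) (a (b (l 17169672) (l 17125824)) (l 17281624))) (a (l 17366552) (l 17490376))) (b (l 17348040) (l 17267168))) (b (b (c (l 17994384) (l 17444944)) (l 17642520)) (l 17500840))) (b (a (l 17145904) (l 17292272)) (l 1))))), by decide +kernel⟩

theorem c_pm_202_b : CertF 1239849684 370763052 0 536870912 201326592 134217728 true true false .pp 2 0 2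
    ndF1q2b ndF2q0 pcF2 cut_pm_202_b Ext.none :=
  certF2 (fam := true) (s1 := true) (s2 := false) (a := 2) (b := 0) (c := 2) (cn := .pp) (n1 := ndF1q2b) (n2 := ndF2q0) (pc := pcF2) (cut := cut_pm_202_b) (xt := Ext.none) (P1 := 1239849684) (W1 := 370763052) (P2 := 0) (W2 := 536870912) (P3 := 201326592) (W3 := 134217728)
    rfl (fun _ => rfl) k0_pm_202_b

noncomputable def f_pm_203_a : ℕ → ℕ → ℕ → ℕ → Bool := onCell 0 536870912 1610612736 536870912 201326592 134217728
    (rowF 1 true true false .up 2 0 3 (qsf 0 536870912 0 536870912 3) ndF1q2a ndF2q0 pcF3 Cut.none Ext.none)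

def k0_pm_203_a : ∃ t, chk3 f_pm_203_a t 1 1 1 = true :=
  ⟨(b (b (b (a (l 17354136) (a (l 17371184) (l 17375504))) (a (b (l 17363584) (l 17368216)) (a (l 17393440) (l 17389736)))) (a (b (b (l 17373976) (l 4)) (l 2)) (a (l 2) (l 2)))) (l 2)), by decide +kernel⟩

theorem c_pm_203_a : CertF 0 536870912 0 536870912 201326592 134217728 true true false .up 2 0 3
    ndF1q2a ndF2q0 pcF3 Cut.none Ext.none :=
  certF1 (fam := true) (s1 := true) (s2 := false) (a := 2) (b := 0) (c := 3) (cn := .up) (n1 := ndF1q2a) (n2 := ndF2q0) (pc := pcF3) (cut := Cut.none) (xt := Ext.none) (P1 := 0) (W1 := 536870912) (P2 := 0) (W2 := 536870912) (P3 := 201326592) (W3 := 134217728)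
    rfl (fun _ => rfl) k0_pm_203_a

noncomputable def f_pm_203_b : ℕ → ℕ → ℕ → ℕ → Bool := onCell 1239849684 370763052 1610612736 536870912 201326592 134217728
    (rowF 1 true true false .up 2 0 3 (qsf 1239849684 370763052 0 536870912 3) ndF1q2b ndF2q0 pcF3 Cut.none Ext.none)

def k0_pm_203_b : ∃ t, chk3 f_pm_203_b t 1 1 1 = true :=
  ⟨(b (b (a (b (a (l 17397776) (l 17552040)) (a (l 17400528) (l 17541632))) (b (b (a (l 17695680) (c (l 17972496) (a (l 17577400) (l 17621792)))) (a (l 17689816) (l 17798264))) (a (l 17674448) (l 17786032)))) (a (l 4) (b (b (l 17706648) (l 17685192)) (l 4)))) (l 4)), by decide +kernel⟩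

theorem c_pm_203_b : CertF 1239849684 370763052 0 536870912 201326592 134217728 true true false .up 2 0 3
    ndF1q2b ndF2q0 pcF3 Cut.none Ext.none :=
  certF1 (fam := true) (s1 := true) (s2 := false) (a := 2) (b := 0) (c := 3) (cn := .up) (n1 := ndF1q2b) (n2 := ndF2q0) (pc := pcF3) (cut := Cut.none) (xt := Ext.none) (P1 := 1239849684) (W1 := 370763052) (P2 := 0) (W2 := 536870912) (P3 := 201326592) (W3 := 134217728)
    rfl (fun _ => rfl) k0_pm_203_b

noncomputable def f_pm_213_a : ℕ → ℕ → ℕ → ℕ → Bool := onCell 0 536870912 1610612736 536870912 201326592 134217728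
    (rowF 1 true true false .pnn 2 1 3 (qsf 0 536870912 536870912 536870912 3) ndF1q2a ndF2q1 pcF3 Cut.none Ext.none)

def k0_pm_213_a : ∃ t, chk3 f_pm_213_a t 1 1 1 = true :=
  ⟨(b (b (b (a (l 1) (a (l 1) (l 17347712))) (a (l 17502056) (l 17351856))) (a (b (l 17254824) (l 4)) (b (l 17377256) (l 17441848)))) (b (l 4) (l 4))), by decide +kernel⟩

theorem c_pm_213_a : CertF 0 536870912 536870912 536870912 201326592 134217728 true true false .pnn 2 1 3
    ndF1q2a ndF2q1 pcF3 Cut.none Ext.none :=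
  certF1 (fam := true) (s1 := true) (s2 := false) (a := 2) (b := 1) (c := 3) (cn := .pnn) (n1 := ndF1q2a) (n2 := ndF2q1) (pc := pcF3) (cut := Cut.none) (xt := Ext.none) (P1 := 0) (W1 := 536870912) (P2 := 536870912) (W2 := 536870912) (P3 := 201326592) (W3 := 134217728)
    rfl (fun _ => rfl) k0_pm_213_a

noncomputable def f_pm_213_b : ℕ → ℕ → ℕ → ℕ → Bool := onCell 1239849684 370763052 536870912 536870912 201326592 134217728
    (rowF 0 true true false .pnn 2 1 3 (qsf 1239849684 370763052 536870912 536870912 3) ndF1q2b ndF2q1 pcF3 Cut.none Ext.none)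

def k0_pm_213_b : ∃ t, chk3 f_pm_213_b t 1 1 1 = true :=
  ⟨(l 4), by decide +kernel⟩

theorem c_pm_213_b : CertF 1239849684 370763052 536870912 536870912 201326592 134217728 true true false .pnn 2 1 3
    ndF1q2b ndF2q1 pcF3 Cut.none Ext.none :=
  certF0 (fam := true) (s1 := true) (s2 := false) (a := 2) (b := 1) (c := 3) (cn := .pnn) (n1 := ndF1q2b) (n2 := ndF2q1) (pc := pcF3) (cut := Cut.none) (xt := Ext.none) (P1 := 1239849684) (W1 := 370763052) (P2 := 536870912) (W2 := 536870912) (P3 := 201326592) (W3 := 134217728)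
    rfl k0_pm_213_b

noncomputable def f_pm_303 : ℕ → ℕ → ℕ → ℕ → Bool := onCell 1610612736 536870912 0 536870912 201326592 134217728
    (rowF 2 true true false .npn 3 0 3 (qsf 1610612736 536870912 0 536870912 3) ndF1q3 ndF2q0 pcF3 Cut.none Ext.none)

def k0_pm_303 : ∃ t, chk3 f_pm_303 t 1 1 1 = true :=
  ⟨(a (a (b (b (a (b (c (l 17943808) (a (l 17645544) (l 17663296))) (l 17747656)) (c (l 17940648) (l 17655824))) (a (l 1) (l 17638920))) (l 1)) (b (a (b (c (l 17949744) (l 17676456)) (l 281356314823)) (b (c (l 17929920) (l 17668960)) (l 4))) (a (l 1) (l 4)))) (a (b (l 4) (l 4)) (l 4))), by decide +kernel⟩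

theorem c_pm_303 : CertF 1610612736 536870912 0 536870912 201326592 134217728 true true false .npn 3 0 3
    ndF1q3 ndF2q0 pcF3 Cut.none Ext.none :=
  certF2 (fam := true) (s1 := true) (s2 := false) (a := 3) (b := 0) (c := 3) (cn := .npn) (n1 := ndF1q3) (n2 := ndF2q0) (pc := pcF3) (cut := Cut.none) (xt := Ext.none) (P1 := 1610612736) (W1 := 536870912) (P2 := 0) (W2 := 536870912) (P3 := 201326592) (W3 := 134217728)
    rfl (fun _ => rfl) k0_pm_303

noncomputable def f_pm_313 : ℕ → ℕ → ℕ → ℕ → Bool := onCell 1610612736 536870912 536870912 536870912 201326592 134217728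
    (rowF 0 true true false .dn 3 1 3 (qsf 1610612736 536870912 536870912 536870912 3) ndF1q3 ndF2q1 pcF3 Cut.none Ext.none)

def k0_pm_313 : ∃ t, chk3 f_pm_313 t 1 1 1 = true :=
  ⟨(l 4), by decide +kernel⟩

theorem c_pm_313 : CertF 1610612736 536870912 536870912 536870912 201326592 134217728 true true false .dn 3 1 3
    ndF1q3 ndF2q1 pcF3 Cut.none Ext.none :=
  certF0 (fam := true) (s1 := true) (s2 := false) (a := 3) (b := 1) (c := 3) (cn := .dn) (n1 := ndF1q3) (n2 := ndF2q1) (pc := pcF3) (cut := Cut.none) (xt := Ext.none) (P1 := 1610612736) (W1 := 536870912) (P2 := 536870912) (W2 := 536870912) (P3 := 201326592) (W3 := 134217728)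
    rfl k0_pm_313

noncomputable def f_mm_001 : ℕ → ℕ → ℕ → ℕ → Bool := onCell 0 536870912 0 536870912 201326592 134217728
    (rowF 0 true false false .up 0 0 1 (qsf 0 536870912 0 536870912 1) ndF1q0 ndF2q0 pcF1 Cut.none Ext.none)

def k0_mm_001 : ∃ t, chk3 f_mm_001 t 1 1 1 = true :=
  ⟨(l 4), by decide +kernel⟩

theorem c_mm_001 : CertF 0 536870912 0 536870912 201326592 134217728 true false false .up 0 0 1
    ndF1q0 ndF2q0 pcF1 Cut.none Ext.none :=
  certF0 (fam := true) (s1 := false) (s2 := false) (a := 0) (b := 0) (c := 1) (cn := .up) (n1 := ndF1q0) (n2 := ndF2q0) (pc := pcF1) (cut := Cut.none) (xt := Ext.none) (P1 := 0) (W1 := 536870912) (P2 := 0) (W2 := 536870912) (P3 := 201326592) (W3 := 134217728)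
    rfl k0_mm_001

noncomputable def f_mm_011 : ℕ → ℕ → ℕ → ℕ → Bool := onCell 0 536870912 536870912 536870912 201326592 134217728
    (rowF 0 true false false .pnn 0 1 1 (qsf 0 536870912 536870912 536870912 1) ndF1q0 ndF2q1 pcF1 Cut.none Ext.none)

def k0_mm_011 : ∃ t, chk3 f_mm_011 t 1 1 1 = true :=
  ⟨(l 4), by decide +kernel⟩

theorem c_mm_011 : CertF 0 536870912 536870912 536870912 201326592 134217728 true false false .pnn 0 1 1
    ndF1q0 ndF2q1 pcF1 Cut.none Ext.none :=
  certF0 (fam := true) (s1 := false) (s2 := false) (a := 0) (b := 1) (c := 1) (cn := .pnn) (n1 := ndF1q0) (n2 := ndF2q1) (pc := pcF1) (cut := Cut.none) (xt := Ext.none) (P1 := 0) (W1 := 536870912) (P2 := 536870912) (W2 := 536870912) (P3 := 201326592) (W3 := 134217728)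
    rfl k0_mm_011

noncomputable def f_mm_012 : ℕ → ℕ → ℕ → ℕ → Bool := onCell 0 536870912 536870912 536870912 201326592 134217728
    (rowF 0 true false false .pnp 0 1 2 (qsf 0 536870912 536870912 536870912 2) ndF1q0 ndF2q1 pcF2 Cut.none Ext.none)

def k0_mm_012 : ∃ t, chk3 f_mm_012 t 1 1 1 = true :=
  ⟨(l 4), by decide +kernel⟩

theorem c_mm_012 : CertF 0 536870912 536870912 536870912 201326592 134217728 true false false .pnp 0 1 2
    ndF1q0 ndF2q1 pcF2 Cut.none Ext.none :=
  certF0 (fam := true) (s1 := false) (s2 := false) (a := 0) (b := 1) (c := 2) (cn := .pnp) (n1 := ndF1q0) (n2 := ndF2q1) (pc := pcF2) (cut := Cut.none) (xt := Ext.none) (P1 := 0) (W1 := 536870912) (P2 := 536870912) (W2 := 536870912) (P3 := 201326592) (W3 := 134217728)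
    rfl k0_mm_012

noncomputable def f_mm_022_a : ℕ → ℕ → ℕ → ℕ → Bool := onCell 0 536870912 0 536870912 201326592 134217728
    (rowF 0 true false false .pp 0 2 2 (qsf 0 536870912 0 536870912 2) ndF1q0 ndF2q2a pcF2 Cut.none Ext.none)

def k0_mm_022_a : ∃ t, chk3 f_mm_022_a t 1 1 1 = true :=
  ⟨(l 5), by decide +kernel⟩

theorem c_mm_022_a : CertF 0 536870912 0 536870912 201326592 134217728 true false false .pp 0 2 2
    ndF1q0 ndF2q2a pcF2 Cut.none Ext.none :=
  certF0 (fam := true) (s1 := false) (s2 := false) (a := 0) (b := 2) (c := 2) (cn := .pp) (n1 := ndF1q0) (n2 := ndF2q2a) (pc := pcF2) (cut := Cut.none) (xt := Ext.none) (P1 := 0) (W1 := 536870912) (P2 := 0) (W2 := 536870912) (P3 := 201326592) (W3 := 134217728)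
    rfl k0_mm_022_a

noncomputable def f_mm_022_b : ℕ → ℕ → ℕ → ℕ → Bool := onCell 0 536870912 1239849684 370763052 201326592 134217728
    (rowF 0 true false false .pp 0 2 2 (qsf 0 536870912 1239849684 370763052 2) ndF1q0 ndF2q2b pcF2 Cut.none Ext.none)

def k0_mm_022_b : ∃ t, chk3 f_mm_022_b t 1 1 1 = true :=
  ⟨(l 5), by decide +kernel⟩

theorem c_mm_022_b : CertF 0 536870912 1239849684 370763052 201326592 134217728 true false false .pp 0 2 2
    ndF1q0 ndF2q2b pcF2 Cut.none Ext.none :=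
  certF0 (fam := true) (s1 := false) (s2 := false) (a := 0) (b := 2) (c := 2) (cn := .pp) (n1 := ndF1q0) (n2 := ndF2q2b) (pc := pcF2) (cut := Cut.none) (xt := Ext.none) (P1 := 0) (W1 := 536870912) (P2 := 1239849684) (W2 := 370763052) (P3 := 201326592) (W3 := 134217728)
    rfl k0_mm_022_b

noncomputable def f_mm_023_a : ℕ → ℕ → ℕ → ℕ → Bool := onCell 0 536870912 0 536870912 201326592 134217728
    (rowF 0 true false false .up 0 2 3 (qsf 0 536870912 0 536870912 3) ndF1q0 ndF2q2a pcF3 Cut.none Ext.none)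

def k0_mm_023_a : ∃ t, chk3 f_mm_023_a t 1 1 1 = true :=
  ⟨(l 5), by decide +kernel⟩

theorem c_mm_023_a : CertF 0 536870912 0 536870912 201326592 134217728 true false false .up 0 2 3
    ndF1q0 ndF2q2a pcF3 Cut.none Ext.none :=
  certF0 (fam := true) (s1 := false) (s2 := false) (a := 0) (b := 2) (c := 3) (cn := .up) (n1 := ndF1q0) (n2 := ndF2q2a) (pc := pcF3) (cut := Cut.none) (xt := Ext.none) (P1 := 0) (W1 := 536870912) (P2 := 0) (W2 := 536870912) (P3 := 201326592) (W3 := 134217728)
    rfl k0_mm_023_a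

noncomputable def f_mm_023_b : ℕ → ℕ → ℕ → ℕ → Bool := onCell 0 536870912 1239849684 370763052 201326592 134217728
    (rowF 0 true false false .up 0 2 3 (qsf 0 536870912 1239849684 370763052 3) ndF1q0 ndF2q2b pcF3 Cut.none Ext.none)

def k0_mm_023_b : ∃ t, chk3 f_mm_023_b t 1 1 1 = true :=
  ⟨(l 5), by decide +kernel⟩

theorem c_mm_023_b : CertF 0 536870912 1239849684 370763052 201326592 134217728 true false false .up 0 2 3
    ndF1q0 ndF2q2b pcF3 Cut.none Ext.none :=
  certF0 (fam := true) (s1 := false) (s2 := false) (a := 0) (b := 2) (c := 3) (cn := .up) (n1 := ndF1q0) (n2 := ndF2q2b) (pc := pcF3) (cut := Cut.none) (xt := Ext.none) (P1 := 0) (W1 := 536870912) (P2 := 1239849684) (W2 := 370763052) (P3 := 201326592) (W3 := 134217728)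
    rfl k0_mm_023_b

noncomputable def f_mm_033 : ℕ → ℕ → ℕ → ℕ → Bool := onCell 0 536870912 1610612736 536870912 201326592 134217728
    (rowF 0 true false false .pnn 0 3 3 (qsf 0 536870912 1610612736 536870912 3) ndF1q0 ndF2q3 pcF3 Cut.none Ext.none)

def k0_mm_033 : ∃ t, chk3 f_mm_033 t 1 1 1 = true :=
  ⟨(l 4), by decide +kernel⟩

theorem c_mm_033 : CertF 0 536870912 1610612736 536870912 201326592 134217728 true false false .pnn 0 3 3
    ndF1q0 ndF2q3 pcF3 Cut.none Ext.none :=
  certF0 (fam := true) (s1 := false) (s2 := false) (a := 0) (b := 3) (c := 3) (cn := .pnn) (n1 := ndF1q0) (n2 := ndF2q3) (pc := pcF3) (cut := Cut.none) (xt := Ext.none) (P1 := 0) (W1 := 536870912) (P2 := 1610612736) (W2 := 536870912) (P3 := 201326592) (W3 := 134217728)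
    rfl k0_mm_033

noncomputable def f_mm_101 : ℕ → ℕ → ℕ → ℕ → Bool := onCell 536870912 536870912 0 536870912 201326592 134217728
    (rowF 0 true false false .npn 1 0 1 (qsf 536870912 536870912 0 536870912 1) ndF1q1 ndF2q0 pcF1 Cut.none Ext.none)

def k0_mm_101 : ∃ t, chk3 f_mm_101 t 1 1 1 = true :=
  ⟨(l 4), by decide +kernel⟩

theorem c_mm_101 : CertF 536870912 536870912 0 536870912 201326592 134217728 true false false .npn 1 0 1
    ndF1q1 ndF2q0 pcF1 Cut.none Ext.none :=
  certF0 (fam := true) (s1 := false) (s2 := false) (a := 1) (b := 0) (c := 1) (cn := .npn) (n1 := ndF1q1) (n2 := ndF2q0) (pc := pcF1) (cut := Cut.none) (xt := Ext.none) (P1 := 536870912) (W1 := 536870912) (P2 := 0) (W2 := 536870912) (P3 := 201326592) (W3 := 134217728)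
    rfl k0_mm_101

noncomputable def f_mm_102 : ℕ → ℕ → ℕ → ℕ → Bool := onCell 536870912 536870912 0 536870912 201326592 134217728
    (rowF 0 true false false .npp 1 0 2 (qsf 536870912 536870912 0 536870912 2) ndF1q1 ndF2q0 pcF2 Cut.none Ext.none)

def k0_mm_102 : ∃ t, chk3 f_mm_102 t 1 1 1 = true :=
  ⟨(l 4), by decide +kernel⟩

theorem c_mm_102 : CertF 536870912 536870912 0 536870912 201326592 134217728 true false false .npp 1 0 2
    ndF1q1 ndF2q0 pcF2 Cut.none Ext.none :=
  certF0 (fam := true) (s1 := false) (s2 := false) (a := 1) (b := 0) (c := 2) (cn := .npp) (n1 := ndF1q1) (n2 := ndF2q0) (pc := pcF2) (cut := Cut.none) (xt := Ext.none) (P1 := 536870912) (W1 := 536870912) (P2 := 0) (W2 := 536870912) (P3 := 201326592) (W3 := 134217728)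
    rfl k0_mm_102

noncomputable def f_mm_112 : ℕ → ℕ → ℕ → ℕ → Bool := onCell 536870912 536870912 536870912 536870912 201326592 134217728
    (rowF 0 true false false .dn 1 1 2 (qsf 536870912 536870912 536870912 536870912 2) ndF1q1 ndF2q1 pcF2 Cut.none Ext.none)

def k0_mm_112 : ∃ t, chk3 f_mm_112 t 1 1 1 = true :=
  ⟨(l 4), by decide +kernel⟩

theorem c_mm_112 : CertF 536870912 536870912 536870912 536870912 201326592 134217728 true false false .dn 1 1 2
    ndF1q1 ndF2q1 pcF2 Cut.none Ext.none :=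
  certF0 (fam := true) (s1 := false) (s2 := false) (a := 1) (b := 1) (c := 2) (cn := .dn) (n1 := ndF1q1) (n2 := ndF2q1) (pc := pcF2) (cut := Cut.none) (xt := Ext.none) (P1 := 536870912) (W1 := 536870912) (P2 := 536870912) (W2 := 536870912) (P3 := 201326592) (W3 := 134217728)
    rfl k0_mm_112

noncomputable def f_mm_113 : ℕ → ℕ → ℕ → ℕ → Bool := onCell 536870912 536870912 536870912 536870912 201326592 134217728
    (rowF 0 true false false .nn 1 1 3 (qsf 536870912 536870912 536870912 536870912 3) ndF1q1 ndF2q1 pcF3 Cut.none Ext.none)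

def k0_mm_113 : ∃ t, chk3 f_mm_113 t 1 1 1 = true :=
  ⟨(l 4), by decide +kernel⟩

theorem c_mm_113 : CertF 536870912 536870912 536870912 536870912 201326592 134217728 true false false .nn 1 1 3
    ndF1q1 ndF2q1 pcF3 Cut.none Ext.none :=
  certF0 (fam := true) (s1 := false) (s2 := false) (a := 1) (b := 1) (c := 3) (cn := .nn) (n1 := ndF1q1) (n2 := ndF2q1) (pc := pcF3) (cut := Cut.none) (xt := Ext.none) (P1 := 536870912) (W1 := 536870912) (P2 := 536870912) (W2 := 536870912) (P3 := 201326592) (W3 := 134217728)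
    rfl k0_mm_113

noncomputable def f_mm_123_a : ℕ → ℕ → ℕ → ℕ → Bool := onCell 536870912 536870912 0 536870912 201326592 134217728
    (rowF 0 true false false .npn 1 2 3 (qsf 536870912 536870912 0 536870912 3) ndF1q1 ndF2q2a pcF3 Cut.none Ext.none)

def k0_mm_123_a : ∃ t, chk3 f_mm_123_a t 1 1 1 = true :=
  ⟨(l 4), by decide +kernel⟩

theorem c_mm_123_a : CertF 536870912 536870912 0 536870912 201326592 134217728 true false false .npn 1 2 3
    ndF1q1 ndF2q2a pcF3 Cut.none Ext.none :=
  certF0 (fam := true) (s1 := false) (s2 := false) (a := 1) (b := 2) (c := 3) (cn := .npn) (n1 := ndF1q1) (n2 := ndF2q2a) (pc := pcF3) (cut := Cut.none) (xt := Ext.none) (P1 := 536870912) (W1 := 536870912) (P2 := 0) (W2 := 536870912) (P3 := 201326592) (W3 := 134217728)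
    rfl k0_mm_123_a

noncomputable def f_mm_123_b : ℕ → ℕ → ℕ → ℕ → Bool := onCell 536870912 536870912 1239849684 370763052 201326592 134217728
    (rowF 0 true false false .npn 1 2 3 (qsf 536870912 536870912 1239849684 370763052 3) ndF1q1 ndF2q2b pcF3 Cut.none Ext.none)

def k0_mm_123_b : ∃ t, chk3 f_mm_123_b t 1 1 1 = true :=
  ⟨(l 4), by decide +kernel⟩

theorem c_mm_123_b : CertF 536870912 536870912 1239849684 370763052 201326592 134217728 true false false .npn 1 2 3
    ndF1q1 ndF2q2b pcF3 Cut.none Ext.none :=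
  certF0 (fam := true) (s1 := false) (s2 := false) (a := 1) (b := 2) (c := 3) (cn := .npn) (n1 := ndF1q1) (n2 := ndF2q2b) (pc := pcF3) (cut := Cut.none) (xt := Ext.none) (P1 := 536870912) (W1 := 536870912) (P2 := 1239849684) (W2 := 370763052) (P3 := 201326592) (W3 := 134217728)
    rfl k0_mm_123_b

noncomputable def f_mm_133 : ℕ → ℕ → ℕ → ℕ → Bool := onCell 536870912 536870912 1610612736 536870912 201326592 134217728
    (rowF 0 true false false .dn 1 3 3 (qsf 536870912 536870912 1610612736 536870912 3) ndF1q1 ndF2q3 pcF3 Cut.none Ext.none)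

def k0_mm_133 : ∃ t, chk3 f_mm_133 t 1 1 1 = true :=
  ⟨(l 4), by decide +kernel⟩

theorem c_mm_133 : CertF 536870912 536870912 1610612736 536870912 201326592 134217728 true false false .dn 1 3 3
    ndF1q1 ndF2q3 pcF3 Cut.none Ext.none :=
  certF0 (fam := true) (s1 := false) (s2 := false) (a := 1) (b := 3) (c := 3) (cn := .dn) (n1 := ndF1q1) (n2 := ndF2q3) (pc := pcF3) (cut := Cut.none) (xt := Ext.none) (P1 := 536870912) (W1 := 536870912) (P2 := 1610612736) (W2 := 536870912) (P3 := 201326592) (W3 := 134217728)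
    rfl k0_mm_133

noncomputable def cut_mm_202_a : Cut := Cut.of [[⟨0, 1, 0, 67108864⟩, ⟨1, 0, 0, 67108864⟩, ⟨2, 1, 0, 67108864⟩]]

noncomputable def f_mm_202_a : ℕ → ℕ → ℕ → ℕ → Bool := onCell 0 536870912 0 536870912 201326592 134217728
    (rowF 0 true false false .pp 2 0 2 (qsf 0 536870912 0 536870912 2) ndF1q2a ndF2q0 pcF2 cut_mm_202_a Ext.none)

def k0_mm_202_a : ∃ t, chk3 f_mm_202_a t 1 1 1 = true :=
  ⟨(b (a (b (b (a (b (b (c (a (l 16570992) (l 16619936)) (a (l 16570880) (l 16576656))) (c (l 16571208) (l 16569336))) (a (l 16562096) (l 16573496))) (b (a (b (c (b (l 16611896) (l 16589824)) (l 16608632)) (l 16629744)) (b (c (b (a (l 16602664) (l 16612040)) (l 16606936)) (b (l 16624792) (l 16602848))) (c (l 16607104) (l 16602032)))) (a (l 16701376) (c (l 16700464) (l 16689064))))) (a (b (l 16700696) (l 16664200)) (l 4))) (l 4)) (b (b (a (a (b (b (c (b (a (l 16622552) (b (l 16634424) (l 16634256))) (l 16649296)) (b (a (l 16618016) (l 16629200)) (l 16623128))) (c (l 16674688)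 (l 16668096))) (b (l 16719040) (l 4))) (b (c (b (b (a (a (l 16644360) (l 16651744)) (b (c (l 16664584) (l 16662768)) (l 16663648))) (a (l 16648024) (l 16663976))) (a (l 16681424) (l 16706904))) (b (b (a (l 16663936) (b (l 16659016) (l 16658872))) (l 16708680)) (a (l 16652680) (l 16698192)))) (l 4))) (b (b (a (a (b (c (b (c (a (l 16677472) (l 16686992)) (l 16703992)) (l 16681256)) (b (a (l 16672168) (l 16681992)) (l 16676992))) (c (l 16706216) (l 16701256))) (b (b (l 6) (c (b (l 6) (l 16724880)) (l 16721512))) (b (a (l 16719504) (l 6)) (l 4)))) (l 6)) (l 4)) (l 4))) (l 4)) (l 4))) (l 4)), by decide +kernel⟩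

theorem c_mm_202_a : CertF 0 536870912 0 536870912 201326592 134217728 true false false .pp 2 0 2
    ndF1q2a ndF2q0 pcF2 cut_mm_202_a Ext.none :=
  certF0 (fam := true) (s1 := false) (s2 := false) (a := 2) (b := 0) (c := 2) (cn := .pp) (n1 := ndF1q2a) (n2 := ndF2q0) (pc := pcF2) (cut := cut_mm_202_a) (xt := Ext.none) (P1 := 0) (W1 := 536870912) (P2 := 0) (W2 := 536870912) (P3 := 201326592) (W3 := 134217728)
    rfl k0_mm_202_a

noncomputable def cut_mm_202_b : Cut := Cut.of [[⟨0, 1, 0, 67108864⟩, ⟨1, 0, 0, 67108864⟩, ⟨2, 1, 0, 67108864⟩]]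

noncomputable def f_mm_202_b : ℕ → ℕ → ℕ → ℕ → Bool := onCell 1239849684 370763052 0 536870912 201326592 134217728
    (rowF 0 true false false .pp 2 0 2 (qsf 1239849684 370763052 0 536870912 2) ndF1q2b ndF2q0 pcF2 cut_mm_202_b Ext.none)

def k0_mm_202_b : ∃ t, chk3 f_mm_202_b t 1 1 1 = true :=
  ⟨(b (a (b (a (b (b (b (a (c (a (l 16592832) (l 16515848)) (a (l 16551352) (l 16515960))) (c (l 16533288) (l 16466424))) (a (c (l 16528800) (l 16527584)) (l 16509928))) (b (a (l 16547376) (l 16537416)) (a (l 16526728) (l 16690376)))) (b (a (l 16623616) (l 16868176)) (a (l 16769544) (l 4)))) (a (b (b (c (b (l 17101248) (l 17205280)) (l 16412432)) (b (l 16939224) (l 17033976))) (b (l 4) (l 4))) (b (b (c (l 17474344) (b (l 16720496) (l 16838048))) (c (l 17556168) (l 16983584))) (l 4)))) (l 4)) (b (b (a (b (a (c (l 17696360) (l 17091824)) (c (l 17847552) (l 17318224))) (a (l 17471632) (l 4))) (b (a (l 17709824) (l 4)) (l 4))) (l 4)) (l 4))) (l 4)), by decide +kernel⟩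

theorem c_mm_202_b : CertF 1239849684 370763052 0 536870912 201326592 134217728 true false false .pp 2 0 2
    ndF1q2b ndF2q0 pcF2 cut_mm_202_b Ext.none :=
  certF0 (fam := true) (s1 := false) (s2 := false) (a := 2) (b := 0) (c := 2) (cn := .pp) (n1 := ndF1q2b) (n2 := ndF2q0) (pc := pcF2) (cut := cut_mm_202_b) (xt := Ext.none) (P1 := 1239849684) (W1 := 370763052) (P2 := 0) (W2 := 536870912) (P3 := 201326592) (W3 := 134217728)
    rfl k0_mm_202_b

noncomputable def f_mm_203_a : ℕ → ℕ → ℕ → ℕ → Bool := onCell 0 536870912 1610612736 536870912 201326592 134217728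
    (rowF 1 true false false .up 2 0 3 (qsf 0 536870912 0 536870912 3) ndF1q2a ndF2q0 pcF3 Cut.none Ext.none)

def k0_mm_203_a : ∃ t, chk3 f_mm_203_a t 1 1 1 = true :=
  ⟨(l 4), by decide +kernel⟩

theorem c_mm_203_a : CertF 0 536870912 0 536870912 201326592 134217728 true false false .up 2 0 3
    ndF1q2a ndF2q0 pcF3 Cut.none Ext.none :=
  certF1 (fam := true) (s1 := false) (s2 := false) (a := 2) (b := 0) (c := 3) (cn := .up) (n1 := ndF1q2a) (n2 := ndF2q0) (pc := pcF3) (cut := Cut.none) (xt := Ext.none) (P1 := 0) (W1 := 536870912) (P2 := 0) (W2 := 536870912) (P3 := 201326592) (W3 := 134217728)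
    rfl (fun _ => rfl) k0_mm_203_a

noncomputable def f_mm_203_b : ℕ → ℕ → ℕ → ℕ → Bool := onCell 1239849684 370763052 1610612736 536870912 201326592 134217728
    (rowF 1 true false false .up 2 0 3 (qsf 1239849684 370763052 0 536870912 3) ndF1q2b ndF2q0 pcF3 Cut.none Ext.none)

def k0_mm_203_b : ∃ t, chk3 f_mm_203_b t 1 1 1 = true :=
  ⟨(b (b (l 4) (l 4)) (l 4)), by decide +kernel⟩

theorem c_mm_203_b : CertF 1239849684 370763052 0 536870912 201326592 134217728 true false false .up 2 0 3
    ndF1q2b ndF2q0 pcF3 Cut.none Ext.none :=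
  certF1 (fam := true) (s1 := false) (s2 := false) (a := 2) (b := 0) (c := 3) (cn := .up) (n1 := ndF1q2b) (n2 := ndF2q0) (pc := pcF3) (cut := Cut.none) (xt := Ext.none) (P1 := 1239849684) (W1 := 370763052) (P2 := 0) (W2 := 536870912) (P3 := 201326592) (W3 := 134217728)
    rfl (fun _ => rfl) k0_mm_203_b

noncomputable def f_mm_213_a : ℕ → ℕ → ℕ → ℕ → Bool := onCell 0 536870912 536870912 536870912 201326592 134217728
    (rowF 0 true false false .pnn 2 1 3 (qsf 0 536870912 536870912 536870912 3) ndF1q2a ndF2q1 pcF3 Cut.none Ext.none)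

def k0_mm_213_a : ∃ t, chk3 f_mm_213_a t 1 1 1 = true :=
  ⟨(l 4), by decide +kernel⟩

theorem c_mm_213_a : CertF 0 536870912 536870912 536870912 201326592 134217728 true false false .pnn 2 1 3
    ndF1q2a ndF2q1 pcF3 Cut.none Ext.none :=
  certF0 (fam := true) (s1 := false) (s2 := false) (a := 2) (b := 1) (c := 3) (cn := .pnn) (n1 := ndF1q2a) (n2 := ndF2q1) (pc := pcF3) (cut := Cut.none) (xt := Ext.none) (P1 := 0) (W1 := 536870912) (P2 := 536870912) (W2 := 536870912) (P3 := 201326592) (W3 := 134217728)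
    rfl k0_mm_213_a

noncomputable def f_mm_213_b : ℕ → ℕ → ℕ → ℕ → Bool := onCell 1239849684 370763052 536870912 536870912 201326592 134217728
    (rowF 0 true false false .pnn 2 1 3 (qsf 1239849684 370763052 536870912 536870912 3) ndF1q2b ndF2q1 pcF3 Cut.none Ext.none)

def k0_mm_213_b : ∃ t, chk3 f_mm_213_b t 1 1 1 = true :=
  ⟨(l 4), by decide +kernel⟩

theorem c_mm_213_b : CertF 1239849684 370763052 536870912 536870912 201326592 134217728 true false false .pnn 2 1 3
    ndF1q2b ndF2q1 pcF3 Cut.none Ext.none :=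
  certF0 (fam := true) (s1 := false) (s2 := false) (a := 2) (b := 1) (c := 3) (cn := .pnn) (n1 := ndF1q2b) (n2 := ndF2q1) (pc := pcF3) (cut := Cut.none) (xt := Ext.none) (P1 := 1239849684) (W1 := 370763052) (P2 := 536870912) (W2 := 536870912) (P3 := 201326592) (W3 := 134217728)
    rfl k0_mm_213_b

noncomputable def f_mm_303 : ℕ → ℕ → ℕ → ℕ → Bool := onCell 1610612736 536870912 0 536870912 201326592 134217728
    (rowF 0 true false false .npn 3 0 3 (qsf 1610612736 536870912 0 536870912 3) ndF1q3 ndF2q0 pcF3 Cut.none Ext.none)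

def k0_mm_303 : ∃ t, chk3 f_mm_303 t 1 1 1 = true :=
  ⟨(a (b (l 4) (l 4)) (l 4)), by decide +kernel⟩

theorem c_mm_303 : CertF 1610612736 536870912 0 536870912 201326592 134217728 true false false .npn 3 0 3
    ndF1q3 ndF2q0 pcF3 Cut.none Ext.none :=
  certF0 (fam := true) (s1 := false) (s2 := false) (a := 3) (b := 0) (c := 3) (cn := .npn) (n1 := ndF1q3) (n2 := ndF2q0) (pc := pcF3) (cut := Cut.none) (xt := Ext.none) (P1 := 1610612736) (W1 := 536870912) (P2 := 0) (W2 := 536870912) (P3 := 201326592) (W3 := 134217728)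
    rfl k0_mm_303

noncomputable def f_mm_313 : ℕ → ℕ → ℕ → ℕ → Bool := onCell 1610612736 536870912 536870912 536870912 201326592 134217728
    (rowF 0 true false false .dn 3 1 3 (qsf 1610612736 536870912 536870912 536870912 3) ndF1q3 ndF2q1 pcF3 Cut.none Ext.none)

def k0_mm_313 : ∃ t, chk3 f_mm_313 t 1 1 1 = true :=
  ⟨(l 4), by decide +kernel⟩

theorem c_mm_313 : CertF 1610612736 536870912 536870912 536870912 201326592 134217728 true false false .dn 3 1 3
    ndF1q3 ndF2q1 pcF3 Cut.none Ext.none :=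
  certF0 (fam := true) (s1 := false) (s2 := false) (a := 3) (b := 1) (c := 3) (cn := .dn) (n1 := ndF1q3) (n2 := ndF2q1) (pc := pcF3) (cut := Cut.none) (xt := Ext.none) (P1 := 1610612736) (W1 := 536870912) (P2 := 536870912) (W2 := 536870912) (P3 := 201326592) (W3 := 134217728)
    rfl k0_mm_313

end Pool.Agent.Strip051.G.I3_16_5_16.Tab.C.FA12

namespace Pool.Agent.Strip051.G.I3_16_5_16.Tab.C.FA13

open Pool.Agent.Strip051.PB Pool.Agent.Strip051.PB.T
open Pool.Agent.Strip051.G.I3_16_5_16.Tab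

noncomputable def f_pp_001 : ℕ → ℕ → ℕ → ℕ → Bool := onCell 0 536870912 0 536870912 201326592 134217728
    (rowF 0 true true true .up 0 0 1 (qsf 0 536870912 0 536870912 1) ndF1q0 ndF3q0 pcF1 Cut.none Ext.none)

def k0_pp_001 : ∃ t, chk3 f_pp_001 t 1 1 1 = true :=
  ⟨(l 4), by decide +kernel⟩

theorem c_pp_001 : CertF 0 536870912 0 536870912 201326592 134217728 true true true .up 0 0 1
    ndF1q0 ndF3q0 pcF1 Cut.none Ext.none :=
  certF0 (fam := true) (s1 := true) (s2 := true) (a := 0) (b := 0) (c := 1) (cn := .up) (n1 := ndF1q0) (n2 := ndF3q0) (pc := pcF1) (cut := Cut.none) (xt := Ext.none) (P1 := 0) (W1 := 536870912) (P2 := 0) (W2 := 536870912) (P3 := 201326592) (W3 := 134217728)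
    rfl k0_pp_001

noncomputable def f_pp_011 : ℕ → ℕ → ℕ → ℕ → Bool := onCell 0 536870912 536870912 536870912 201326592 134217728
    (rowF 0 true true true .pnn 0 1 1 (qsf 0 536870912 536870912 536870912 1) ndF1q0 ndF3q1 pcF1 Cut.none Ext.none)

def k0_pp_011 : ∃ t, chk3 f_pp_011 t 1 1 1 = true :=
  ⟨(l 4), by decide +kernel⟩

theorem c_pp_011 : CertF 0 536870912 536870912 536870912 201326592 134217728 true true true .pnn 0 1 1
    ndF1q0 ndF3q1 pcF1 Cut.none Ext.none :=
  certF0 (fam := true) (s1 := true) (s2 := true) (a := 0) (b := 1) (c := 1) (cn := .pnn) (n1 := ndF1q0) (n2 := ndF3q1) (pc := pcF1) (cut := Cut.none) (xt := Ext.none) (P1 := 0) (W1 := 536870912) (P2 := 536870912) (W2 := 536870912) (P3 := 201326592) (W3 := 134217728)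
    rfl k0_pp_011

noncomputable def f_pp_012 : ℕ → ℕ → ℕ → ℕ → Bool := onCell 0 536870912 536870912 536870912 201326592 134217728
    (rowF 0 true true true .pnp 0 1 2 (qsf 0 536870912 536870912 536870912 2) ndF1q0 ndF3q1 pcF2 Cut.none Ext.none)

def k0_pp_012 : ∃ t, chk3 f_pp_012 t 1 1 1 = true :=
  ⟨(l 4), by decide +kernel⟩

theorem c_pp_012 : CertF 0 536870912 536870912 536870912 201326592 134217728 true true true .pnp 0 1 2
    ndF1q0 ndF3q1 pcF2 Cut.none Ext.none :=
  certF0 (fam := true) (s1 := true) (s2 := true) (a := 0) (b := 1) (c := 2) (cn := .pnp) (n1 := ndF1q0) (n2 := ndF3q1) (pc := pcF2) (cut := Cut.none) (xt := Ext.none) (P1 := 0) (W1 := 536870912) (P2 := 536870912) (W2 := 536870912) (P3 := 201326592) (W3 := 134217728)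
    rfl k0_pp_012

noncomputable def f_pp_022 : ℕ → ℕ → ℕ → ℕ → Bool := onCell 0 536870912 1073741824 536870912 201326592 134217728
    (rowF 0 true true true .pp 0 2 2 (qsf 0 536870912 1073741824 536870912 2) ndF1q0 ndF3q2 pcF2 Cut.none Ext.none)

def k0_pp_022 : ∃ t, chk3 f_pp_022 t 1 1 1 = true :=
  ⟨(l 4), by decide +kernel⟩

theorem c_pp_022 : CertF 0 536870912 1073741824 536870912 201326592 134217728 true true true .pp 0 2 2
    ndF1q0 ndF3q2 pcF2 Cut.none Ext.none :=
  certF0 (fam := true) (s1 := true) (s2 := true) (a := 0) (b := 2) (c := 2) (cn := .pp) (n1 := ndF1q0) (n2 := ndF3q2) (pc := pcF2) (cut := Cut.none) (xt := Ext.none) (P1 := 0) (W1 := 536870912) (P2 := 1073741824) (W2 := 536870912) (P3 := 201326592) (W3 := 134217728)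
    rfl k0_pp_022

noncomputable def f_pp_023 : ℕ → ℕ → ℕ → ℕ → Bool := onCell 0 536870912 1073741824 536870912 201326592 134217728
    (rowF 0 true true true .up 0 2 3 (qsf 0 536870912 1073741824 536870912 3) ndF1q0 ndF3q2 pcF3 Cut.none Ext.none)

def k0_pp_023 : ∃ t, chk3 f_pp_023 t 1 1 1 = true :=
  ⟨(l 4), by decide +kernel⟩

theorem c_pp_023 : CertF 0 536870912 1073741824 536870912 201326592 134217728 true true true .up 0 2 3
    ndF1q0 ndF3q2 pcF3 Cut.none Ext.none :=
  certF0 (fam := true) (s1 := true) (s2 := true) (a := 0) (b := 2) (c := 3) (cn := .up) (n1 := ndF1q0) (n2 := ndF3q2) (pc := pcF3) (cut := Cut.none) (xt := Ext.none) (P1 := 0) (W1 := 536870912) (P2 := 1073741824) (W2 := 536870912) (P3 := 201326592) (W3 := 134217728)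
    rfl k0_pp_023

noncomputable def f_pp_033 : ℕ → ℕ → ℕ → ℕ → Bool := onCell 0 536870912 0 1230186008 201326592 134217728
    (rowF 0 true true true .pnn 0 3 3 (qsf 0 536870912 0 1230186008 3) ndF1q0 ndF3q3 pcF3 Cut.none Ext.none)

def k0_pp_033 : ∃ t, chk3 f_pp_033 t 1 1 1 = true :=
  ⟨(b (l 4) (l 4)), by decide +kernel⟩

theorem c_pp_033 : CertF 0 536870912 0 1230186008 201326592 134217728 true true true .pnn 0 3 3
    ndF1q0 ndF3q3 pcF3 Cut.none Ext.none :=
  certF0 (fam := true) (s1 := true) (s2 := true) (a := 0) (b := 3) (c := 3) (cn := .pnn) (n1 := ndF1q0) (n2 := ndF3q3) (pc := pcF3) (cut := Cut.none) (xt := Ext.none) (P1 := 0) (W1 := 536870912) (P2 := 0) (W2 := 1230186008) (P3 := 201326592) (W3 := 134217728)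
    rfl k0_pp_033

noncomputable def f_pp_101 : ℕ → ℕ → ℕ → ℕ → Bool := onCell 536870912 536870912 0 536870912 201326592 134217728
    (rowF 0 true true true .npn 1 0 1 (qsf 536870912 536870912 0 536870912 1) ndF1q1 ndF3q0 pcF1 Cut.none Ext.none)

def k0_pp_101 : ∃ t, chk3 f_pp_101 t 1 1 1 = true :=
  ⟨(l 4), by decide +kernel⟩

theorem c_pp_101 : CertF 536870912 536870912 0 536870912 201326592 134217728 true true true .npn 1 0 1
    ndF1q1 ndF3q0 pcF1 Cut.none Ext.none :=
  certF0 (fam := true) (s1 := true) (s2 := true) (a := 1) (b := 0) (c := 1) (cn := .npn) (n1 := ndF1q1) (n2 := ndF3q0) (pc := pcF1) (cut := Cut.none) (xt := Ext.none) (P1 := 536870912) (W1 := 536870912) (P2 := 0) (W2 := 536870912) (P3 := 201326592) (W3 := 134217728)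
    rfl k0_pp_101

noncomputable def f_pp_102 : ℕ → ℕ → ℕ → ℕ → Bool := onCell 536870912 536870912 0 536870912 201326592 134217728
    (rowF 0 true true true .npp 1 0 2 (qsf 536870912 536870912 0 536870912 2) ndF1q1 ndF3q0 pcF2 Cut.none Ext.none)

def k0_pp_102 : ∃ t, chk3 f_pp_102 t 1 1 1 = true :=
  ⟨(l 4), by decide +kernel⟩

theorem c_pp_102 : CertF 536870912 536870912 0 536870912 201326592 134217728 true true true .npp 1 0 2
    ndF1q1 ndF3q0 pcF2 Cut.none Ext.none :=
  certF0 (fam := true) (s1 := true) (s2 := true) (a := 1) (b := 0) (c := 2) (cn := .npp) (n1 := ndF1q1) (n2 := ndF3q0) (pc := pcF2) (cut := Cut.none) (xt := Ext.none) (P1 := 536870912) (W1 := 536870912) (P2 := 0) (W2 := 536870912) (P3 := 201326592) (W3 := 134217728)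
    rfl k0_pp_102

noncomputable def f_pp_112 : ℕ → ℕ → ℕ → ℕ → Bool := onCell 536870912 536870912 536870912 536870912 201326592 134217728
    (rowF 0 true true true .dn 1 1 2 (qsf 536870912 536870912 536870912 536870912 2) ndF1q1 ndF3q1 pcF2 Cut.none Ext.none)

def k0_pp_112 : ∃ t, chk3 f_pp_112 t 1 1 1 = true :=
  ⟨(l 4), by decide +kernel⟩

theorem c_pp_112 : CertF 536870912 536870912 536870912 536870912 201326592 134217728 true true true .dn 1 1 2
    ndF1q1 ndF3q1 pcF2 Cut.none Ext.none :=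
  certF0 (fam := true) (s1 := true) (s2 := true) (a := 1) (b := 1) (c := 2) (cn := .dn) (n1 := ndF1q1) (n2 := ndF3q1) (pc := pcF2) (cut := Cut.none) (xt := Ext.none) (P1 := 536870912) (W1 := 536870912) (P2 := 536870912) (W2 := 536870912) (P3 := 201326592) (W3 := 134217728)
    rfl k0_pp_112

noncomputable def f_pp_113 : ℕ → ℕ → ℕ → ℕ → Bool := onCell 536870912 536870912 536870912 536870912 201326592 134217728
    (rowF 0 true true true .nn 1 1 3 (qsf 536870912 536870912 536870912 536870912 3) ndF1q1 ndF3q1 pcF3 Cut.none Ext.none)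

def k0_pp_113 : ∃ t, chk3 f_pp_113 t 1 1 1 = true :=
  ⟨(l 4), by decide +kernel⟩

theorem c_pp_113 : CertF 536870912 536870912 536870912 536870912 201326592 134217728 true true true .nn 1 1 3
    ndF1q1 ndF3q1 pcF3 Cut.none Ext.none :=
  certF0 (fam := true) (s1 := true) (s2 := true) (a := 1) (b := 1) (c := 3) (cn := .nn) (n1 := ndF1q1) (n2 := ndF3q1) (pc := pcF3) (cut := Cut.none) (xt := Ext.none) (P1 := 536870912) (W1 := 536870912) (P2 := 536870912) (W2 := 536870912) (P3 := 201326592) (W3 := 134217728)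
    rfl k0_pp_113

noncomputable def f_pp_123 : ℕ → ℕ → ℕ → ℕ → Bool := onCell 536870912 536870912 1073741824 536870912 201326592 134217728
    (rowF 0 true true true .npn 1 2 3 (qsf 536870912 536870912 1073741824 536870912 3) ndF1q1 ndF3q2 pcF3 Cut.none Ext.none)

def k0_pp_123 : ∃ t, chk3 f_pp_123 t 1 1 1 = true :=
  ⟨(l 4), by decide +kernel⟩

theorem c_pp_123 : CertF 536870912 536870912 1073741824 536870912 201326592 134217728 true true true .npn 1 2 3
    ndF1q1 ndF3q2 pcF3 Cut.none Ext.none :=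
  certF0 (fam := true) (s1 := true) (s2 := true) (a := 1) (b := 2) (c := 3) (cn := .npn) (n1 := ndF1q1) (n2 := ndF3q2) (pc := pcF3) (cut := Cut.none) (xt := Ext.none) (P1 := 536870912) (W1 := 536870912) (P2 := 1073741824) (W2 := 536870912) (P3 := 201326592) (W3 := 134217728)
    rfl k0_pp_123

noncomputable def f_pp_133 : ℕ → ℕ → ℕ → ℕ → Bool := onCell 536870912 536870912 0 1230186008 201326592 134217728
    (rowF 0 true true true .dn 1 3 3 (qsf 536870912 536870912 0 1230186008 3) ndF1q1 ndF3q3 pcF3 Cut.none Ext.none)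

def k0_pp_133 : ∃ t, chk3 f_pp_133 t 1 1 1 = true :=
  ⟨(l 4), by decide +kernel⟩

theorem c_pp_133 : CertF 536870912 536870912 0 1230186008 201326592 134217728 true true true .dn 1 3 3
    ndF1q1 ndF3q3 pcF3 Cut.none Ext.none :=
  certF0 (fam := true) (s1 := true) (s2 := true) (a := 1) (b := 3) (c := 3) (cn := .dn) (n1 := ndF1q1) (n2 := ndF3q3) (pc := pcF3) (cut := Cut.none) (xt := Ext.none) (P1 := 536870912) (W1 := 536870912) (P2 := 0) (W2 := 1230186008) (P3 := 201326592) (W3 := 134217728)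
    rfl k0_pp_133

noncomputable def f_pp_202_a : ℕ → ℕ → ℕ → ℕ → Bool := onCell 0 536870912 0 536870912 201326592 134217728
    (rowF 0 true true true .pp 2 0 2 (qsf 0 536870912 0 536870912 2) ndF1q2a ndF3q0 pcF2 Cut.none Ext.none)

def k0_pp_202_a : ∃ t, chk3 f_pp_202_a t 1 1 1 = true :=
  ⟨(l 5), by decide +kernel⟩

theorem c_pp_202_a : CertF 0 536870912 0 536870912 201326592 134217728 true true true .pp 2 0 2
    ndF1q2a ndF3q0 pcF2 Cut.none Ext.none :=
  certF0 (fam := true) (s1 := true) (s2 := true) (a := 2) (b := 0) (c := 2) (cn := .pp) (n1 := ndF1q2a) (n2 := ndF3q0) (pc := pcF2) (cut := Cut.none) (xt := Ext.none) (P1 := 0) (W1 := 536870912) (P2 := 0) (W2 := 536870912) (P3 := 201326592) (W3 := 134217728)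
    rfl k0_pp_202_a

noncomputable def f_pp_202_b : ℕ → ℕ → ℕ → ℕ → Bool := onCell 1239849684 370763052 0 536870912 201326592 134217728
    (rowF 0 true true true .pp 2 0 2 (qsf 1239849684 370763052 0 536870912 2) ndF1q2b ndF3q0 pcF2 Cut.none Ext.none)

def k0_pp_202_b : ∃ t, chk3 f_pp_202_b t 1 1 1 = true :=
  ⟨(l 5), by decide +kernel⟩

theorem c_pp_202_b : CertF 1239849684 370763052 0 536870912 201326592 134217728 true true true .pp 2 0 2
    ndF1q2b ndF3q0 pcF2 Cut.none Ext.none :=
  certF0 (fam := true) (s1 := true) (s2 := true) (a := 2) (b := 0) (c := 2) (cn := .pp) (n1 := ndF1q2b) (n2 := ndF3q0) (pc := pcF2) (cut := Cut.none) (xt := Ext.none) (P1 := 1239849684) (W1 := 370763052) (P2 := 0) (W2 := 536870912) (P3 := 201326592) (W3 := 134217728)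
    rfl k0_pp_202_b

noncomputable def f_pp_203_a : ℕ → ℕ → ℕ → ℕ → Bool := onCell 0 536870912 0 536870912 201326592 134217728
    (rowF 0 true true true .up 2 0 3 (qsf 0 536870912 0 536870912 3) ndF1q2a ndF3q0 pcF3 Cut.none Ext.none)

def k0_pp_203_a : ∃ t, chk3 f_pp_203_a t 1 1 1 = true :=
  ⟨(l 5), by decide +kernel⟩

theorem c_pp_203_a : CertF 0 536870912 0 536870912 201326592 134217728 true true true .up 2 0 3
    ndF1q2a ndF3q0 pcF3 Cut.none Ext.none :=
  certF0 (fam := true) (s1 := true) (s2 := true) (a := 2) (b := 0) (c := 3) (cn := .up) (n1 := ndF1q2a) (n2 := ndF3q0) (pc := pcF3) (cut := Cut.none) (xt := Ext.none) (P1 := 0) (W1 := 536870912) (P2 := 0) (W2 := 536870912) (P3 := 201326592) (W3 := 134217728)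
    rfl k0_pp_203_a

noncomputable def f_pp_203_b : ℕ → ℕ → ℕ → ℕ → Bool := onCell 1239849684 370763052 0 536870912 201326592 134217728
    (rowF 0 true true true .up 2 0 3 (qsf 1239849684 370763052 0 536870912 3) ndF1q2b ndF3q0 pcF3 Cut.none Ext.none)

def k0_pp_203_b : ∃ t, chk3 f_pp_203_b t 1 1 1 = true :=
  ⟨(l 5), by decide +kernel⟩

theorem c_pp_203_b : CertF 1239849684 370763052 0 536870912 201326592 134217728 true true true .up 2 0 3
    ndF1q2b ndF3q0 pcF3 Cut.none Ext.none :=
  certF0 (fam := true) (s1 := true) (s2 := true) (a := 2) (b := 0) (c := 3) (cn := .up) (n1 := ndF1q2b) (n2 := ndF3q0) (pc := pcF3) (cut := Cut.none) (xt := Ext.none) (P1 := 1239849684) (W1 := 370763052) (P2 := 0) (W2 := 536870912) (P3 := 201326592) (W3 := 134217728)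
    rfl k0_pp_203_b

noncomputable def f_pp_213_a : ℕ → ℕ → ℕ → ℕ → Bool := onCell 0 536870912 536870912 536870912 201326592 134217728
    (rowF 0 true true true .pnn 2 1 3 (qsf 0 536870912 536870912 536870912 3) ndF1q2a ndF3q1 pcF3 Cut.none Ext.none)

def k0_pp_213_a : ∃ t, chk3 f_pp_213_a t 1 1 1 = true :=
  ⟨(l 4), by decide +kernel⟩

theorem c_pp_213_a : CertF 0 536870912 536870912 536870912 201326592 134217728 true true true .pnn 2 1 3
    ndF1q2a ndF3q1 pcF3 Cut.none Ext.none :=
  certF0 (fam := true) (s1 := true) (s2 := true) (a := 2) (b := 1) (c := 3) (cn := .pnn) (n1 := ndF1q2a) (n2 := ndF3q1) (pc := pcF3) (cut := Cut.none) (xt := Ext.none) (P1 := 0) (W1 := 536870912) (P2 := 536870912) (W2 := 536870912) (P3 := 201326592) (W3 := 134217728)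
    rfl k0_pp_213_a

noncomputable def f_pp_213_b : ℕ → ℕ → ℕ → ℕ → Bool := onCell 1239849684 370763052 536870912 536870912 201326592 134217728
    (rowF 0 true true true .pnn 2 1 3 (qsf 1239849684 370763052 536870912 536870912 3) ndF1q2b ndF3q1 pcF3 Cut.none Ext.none)

def k0_pp_213_b : ∃ t, chk3 f_pp_213_b t 1 1 1 = true :=
  ⟨(l 4), by decide +kernel⟩

theorem c_pp_213_b : CertF 1239849684 370763052 536870912 536870912 201326592 134217728 true true true .pnn 2 1 3
    ndF1q2b ndF3q1 pcF3 Cut.none Ext.none :=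
  certF0 (fam := true) (s1 := true) (s2 := true) (a := 2) (b := 1) (c := 3) (cn := .pnn) (n1 := ndF1q2b) (n2 := ndF3q1) (pc := pcF3) (cut := Cut.none) (xt := Ext.none) (P1 := 1239849684) (W1 := 370763052) (P2 := 536870912) (W2 := 536870912) (P3 := 201326592) (W3 := 134217728)
    rfl k0_pp_213_b

noncomputable def f_pp_303 : ℕ → ℕ → ℕ → ℕ → Bool := onCell 1610612736 536870912 0 536870912 201326592 134217728
    (rowF 0 true true true .npn 3 0 3 (qsf 1610612736 536870912 0 536870912 3) ndF1q3 ndF3q0 pcF3 Cut.none Ext.none)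

def k0_pp_303 : ∃ t, chk3 f_pp_303 t 1 1 1 = true :=
  ⟨(l 4), by decide +kernel⟩

theorem c_pp_303 : CertF 1610612736 536870912 0 536870912 201326592 134217728 true true true .npn 3 0 3
    ndF1q3 ndF3q0 pcF3 Cut.none Ext.none :=
  certF0 (fam := true) (s1 := true) (s2 := true) (a := 3) (b := 0) (c := 3) (cn := .npn) (n1 := ndF1q3) (n2 := ndF3q0) (pc := pcF3) (cut := Cut.none) (xt := Ext.none) (P1 := 1610612736) (W1 := 536870912) (P2 := 0) (W2 := 536870912) (P3 := 201326592) (W3 := 134217728)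
    rfl k0_pp_303

noncomputable def f_pp_313 : ℕ → ℕ → ℕ → ℕ → Bool := onCell 1610612736 536870912 536870912 536870912 201326592 134217728
    (rowF 0 true true true .dn 3 1 3 (qsf 1610612736 536870912 536870912 536870912 3) ndF1q3 ndF3q1 pcF3 Cut.none Ext.none)

def k0_pp_313 : ∃ t, chk3 f_pp_313 t 1 1 1 = true :=
  ⟨(l 4), by decide +kernel⟩

theorem c_pp_313 : CertF 1610612736 536870912 536870912 536870912 201326592 134217728 true true true .dn 3 1 3
    ndF1q3 ndF3q1 pcF3 Cut.none Ext.none :=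
  certF0 (fam := true) (s1 := true) (s2 := true) (a := 3) (b := 1) (c := 3) (cn := .dn) (n1 := ndF1q3) (n2 := ndF3q1) (pc := pcF3) (cut := Cut.none) (xt := Ext.none) (P1 := 1610612736) (W1 := 536870912) (P2 := 536870912) (W2 := 536870912) (P3 := 201326592) (W3 := 134217728)
    rfl k0_pp_313

noncomputable def f_pm_001 : ℕ → ℕ → ℕ → ℕ → Bool := onCell 0 536870912 0 536870912 201326592 134217728
    (rowF 0 true true false .up 0 0 1 (qsf 0 536870912 0 536870912 1) ndF1q0 ndF3q0 pcF1 Cut.none Ext.none)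

def k0_pm_001 : ∃ t, chk3 f_pm_001 t 1 1 1 = true :=
  ⟨(a (l 3) (l 3)), by decide +kernel⟩

theorem c_pm_001 : CertF 0 536870912 0 536870912 201326592 134217728 true true false .up 0 0 1
    ndF1q0 ndF3q0 pcF1 Cut.none Ext.none :=
  certF0 (fam := true) (s1 := true) (s2 := false) (a := 0) (b := 0) (c := 1) (cn := .up) (n1 := ndF1q0) (n2 := ndF3q0) (pc := pcF1) (cut := Cut.none) (xt := Ext.none) (P1 := 0) (W1 := 536870912) (P2 := 0) (W2 := 536870912) (P3 := 201326592) (W3 := 134217728)
    rfl k0_pm_001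

noncomputable def cut_pm_011 : Cut := Cut.of [[⟨0, 0, 0, 67108864⟩, ⟨1, 1, 0, 67108864⟩, ⟨2, 1, 0, 67108864⟩]]

noncomputable def f_pm_011 : ℕ → ℕ → ℕ → ℕ → Bool := onCell 0 536870912 536870912 536870912 201326592 134217728
    (rowF 1 true true false .pnn 0 1 1 (qsf 0 536870912 536870912 536870912 1) ndF1q0 ndF3q1 pcF1 cut_pm_011 Ext.none)

def k0_pm_011 : ∃ t, chk3 f_pm_011 t 1 1 1 = true :=
  ⟨(b (l 3) (a (a (b (l 3) (a (b (l 3) (b (l 3) (a (b (l 3) (l 6)) (l 3)))) (l 3))) (l 3)) (l 3))), by decide +kernel⟩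

theorem c_pm_011 : CertF 0 536870912 536870912 536870912 201326592 134217728 true true false .pnn 0 1 1
    ndF1q0 ndF3q1 pcF1 cut_pm_011 Ext.none :=
  certF1 (fam := true) (s1 := true) (s2 := false) (a := 0) (b := 1) (c := 1) (cn := .pnn) (n1 := ndF1q0) (n2 := ndF3q1) (pc := pcF1) (cut := cut_pm_011) (xt := Ext.none) (P1 := 0) (W1 := 536870912) (P2 := 536870912) (W2 := 536870912) (P3 := 201326592) (W3 := 134217728)
    rfl (fun _ => rfl) k0_pm_011

noncomputable def cut_pm_012 : Cut := Cut.of [[⟨0, 0, 0, 67108864⟩, ⟨1, 1, 0, 67108864⟩, ⟨2, 1, 0, 67108864⟩]]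

noncomputable def f_pm_012 : ℕ → ℕ → ℕ → ℕ → Bool := onCell 1073741824 536870912 536870912 536870912 201326592 134217728
    (rowF 2 true true false .pnp 0 1 2 (qsf 0 536870912 536870912 536870912 2) ndF1q0 ndF3q1 pcF2 cut_pm_012 Ext.none)

def k0_pm_012 : ∃ t, chk3 f_pm_012 t 2 1 1 = true :=
  ⟨(b (a (a (l 3) (a (b (b (l 17217696) (l 17223944)) (b (l 17196304) (l 17075424))) (b (b (l 2) (l 17278048)) (b (l 17270376) (l 17186664))))) (b (a (a (a (b (l 2) (l 17312488)) (l 2)) (l 2)) (l 2)) (a (a (a (b (l 17319048) (l 17275272)) (b (l 17336216) (l 17316824))) (b (l 17381104) (l 17389152))) (b (l 17461968) (l 17517992))))) (a (b (a (b (l 3) (a (l 3) (b (l 16556120) (l 16605800)))) (b (a (l 16796224) (b (l 17051696) (l 16897328))) (a (b (l 16456920) (l 16482272)) (b (l 16669904) (l 16438888))))) (a (a (b (l 3) (a (b (l 3) (l 6)) (b (b (l 16667088) (l 16702768)) (b (a (l 6) (l 16708616)) (l 6))))) (b (b (l 16678344) (a (l 16610816) (l 16577496))) (b (a (b (l 16630928) (l 16626008))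 (l 16650920)) (a (b (l 16705224) (b (l 16675304) (l 6))) (b (l 16630320) (c (l 16648936) (l 16641752))))))) (b (a (b (l 16532032) (l 16598688)) (b (l 16547240) (a (l 16494872) (l 16474864)))) (a (b (a (l 16577344) (l 16547096)) (b (l 16624472) (a (l 16612448) (l 16581040)))) (b (l 16510328) (c (l 16542152) (l 16524032))))))) (b (a (b (a (a (l 17112760) (l 17190080)) (l 17303576)) (a (b (l 16922192) (l 16674312)) (l 17065968))) (b (l 17500664) (l 17377344))) (b (b (a (a (l 16546160) (l 16701744)) (l 17165008)) (a (a (a (l 16459432) (l 16442736)) (l 16430656)) (l 16927344))) (a (b (a (a (l 16480120) (l 16456744)) (l 16443088)) (a (a (l 16498480) (l 16510576)) (l 16453040))) (b (l 16567584) (l 16389112))))))), by decide +kernel⟩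

def k1_pm_012 : ∃ t, chk3 f_pm_012 t 3 1 1 = true :=
  ⟨(b (a (b (l 2) (b (l 2) (l 17695144))) (l 2)) (a (b (b (l 17769760) (l 17790080)) (b (b (l 17752208) (l 17689928)) (a (c (l 17720856) (l 16706992)) (l 17744152)))) (b (a (l 18134632) (l 2)) (b (a (l 18081568) (l 18196424)) (l 18170624))))), by decide +kernel⟩

theorem s2_pm_012 : ∃ t, chk3 f_pm_012 t 1 1 1 = true := ex3_a k0_pm_012 k1_pm_012

theorem c_pm_012 : CertF 0 536870912 536870912 536870912 201326592 134217728 true true false .pnp 0 1 2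
    ndF1q0 ndF3q1 pcF2 cut_pm_012 Ext.none :=
  certF2 (fam := true) (s1 := true) (s2 := false) (a := 0) (b := 1) (c := 2) (cn := .pnp) (n1 := ndF1q0) (n2 := ndF3q1) (pc := pcF2) (cut := cut_pm_012) (xt := Ext.none) (P1 := 0) (W1 := 536870912) (P2 := 536870912) (W2 := 536870912) (P3 := 201326592) (W3 := 134217728)
    rfl (fun _ => rfl) s2_pm_012

noncomputable def f_pm_022 : ℕ → ℕ → ℕ → ℕ → Bool := onCell 0 536870912 1073741824 536870912 201326592 134217728
    (rowF 0 true true false .pp 0 2 2 (qsf 0 536870912 1073741824 536870912 2) ndF1q0 ndF3q2 pcF2 Cut.none Ext.none)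

def k0_pm_022 : ∃ t, chk3 f_pm_022 t 8 4 1 = true :=
  ⟨(b (a (b (l 3) (a (l 3) (b (l 3) (a (l 3) (b (l 3) (l 16673528)))))) (b (a (l 3) (b (l 3) (c (l 16742968) (l 16758744)))) (a (b (c (l 145122788583) (l 108615655719)) (c (l 29158696391) (c (l 16704120) (l 16702776)))) (b (a (l 16675864) (l 16640560)) (c (l 16682768) (l 16684944)))))) (b (a (a (b (a (l 3) (a (l 3) (b (l 3) (l 113447269511)))) (a (b (l 3) (c (l 121500304743) (l 119889693863))) (c (c (l 16632808) (l 16632400)) (c (l 16642400) (l 16652312))))) (b (c (b (l 117205475559) (l 16660040)) (b (l 113447375287) (l 16658944))) (a (c (l 16615144) (l 16614240)) (c (l 16584088) (l 16565240))))) (b (a (a (l 16641232) (l 16622304)) (a (l 16619144) (b (l 16580816) (l 16568416)))) (a (a (l 16611456) (b (l 16564800) (l 16552464))) (a (b (l 16560432) (a (l 16546984) (l 16539904))) (l 16631536))))) (a (b (a (a (c (b (l 16606328) (l 16575040)) (b (c (l 16595488) (l 16605608)) (l 16574304))) (c (l 16600616) (l 16602056))) (a (c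 (l 16586152) (l 16588568)) (b (l 16569328) (c (l 16534408) (l 16538240))))) (a (b (c (a (l 16556272) (l 16531152)) (a (l 16536696) (l 16533648))) (a (c (l 16565064) (l 16546408)) (c (l 16571128) (l 16543208)))) (b (a (c (l 16526768) (l 16530424)) (a (l 16567616) (l 16561640))) (a (b (c (l 16517688) (l 16521720)) (c (l 16508896) (l 16513032))) (c (l 16576888) (l 16560344)))))) (b (a (a (b (l 16586488) (a (l 16532904) (l 16504920))) (b (a (l 16540024) (l 16532808)) (l 16608440))) (c (l 16565792) (l 16569968))) (c (b (l 16593872) (l 16542128)) (b (l 16597784) (l 16545768))))))), by decide +kernel⟩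

def k1_pm_022 : ∃ t, chk3 f_pm_022 t 9 4 1 = true :=
  ⟨(b (b (a (b (a (l 100025775671) (l 16737608)) (a (a (l 16663920) (l 16636432)) (a (l 16633720) (l 16631176)))) (b (a (l 16754768) (a (l 16646248) (l 16661376))) (a (b (l 16632736) (l 16682240)) (l 16684288)))) (a (b (a (a (l 16616440) (l 16614344)) (a (l 16610960) (l 16690712))) (a (a (l 16614768) (l 16694912)) (a (b (l 16592104) (l 16572440)) (l 16624984)))) (c (l 16671496) (l 16718016)))) (b (a (a (b (a (b (l 16576368) (l 16557192)) (l 16628016)) (l 16627472)) (l 16697200)) (l 16508344)) (b (l 16500208) (b (l 16460616) (l 16468496))))), by decide +kernel⟩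

def k2_pm_022 : ∃ t, chk3 f_pm_022 t 4 5 1 = true :=
  ⟨(b (b (a (a (a (b (b (a (c (c (l 16548160) (l 16550912)) (l 16553920)) (b (c (l 16529360) (l 16512824)) (c (l 16517152) (l 16501832)))) (a (b (c (l 16524072) (l 16499168)) (c (l 16526136) (l 16509232))) (c (l 16576016) (l 16579248)))) (b (a (a (b (c (l 16501992) (l 16479232)) (c (l 16482712) (l 16472120))) (c (l 16562208) (l 16557632))) (c (l 16536032) (l 16526544))) (c (b (c (l 16540296) (l 16533704)) (a (b (l 16524616) (l 16536512)) (l 16564392))) (b (l 16546304) (b (l 16524776) (l 16525480)))))) (b (b (c (l 16592888) (l 16602160)) (c (l 16522320) (l 16505968))) (b (l 16504248) (b (l 16486112) (c (l 16550800) (l 16497088)))))) (b (b (l 16500192) (l 16480320)) (b (l 16459624) (c (b (l 16401480) (l 16482032)) (l 16574160))))) (b (c (l 16488504) (l 16421960)) (b (l 16411240) (b (l 16373200) (a (l 16454112) (l 16488528)))))) (a (a (a (c (b (c (l 16493744) (l 16484808)) (l 16490576)) (b (l 16494000) (l 16448448))) (c (l 16516568)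 (l 16498096))) (c (l 16471200) (l 16433184))) (a (l 16445336) (l 16669936)))) (a (a (a (c (b (b (l 16455032) (l 16445312)) (c (b (l 16932112) (l 17126784)) (l 16460936))) (b (b (l 16428000) (l 16390920)) (b (l 16379464) (l 16373352)))) (b (c (l 16519944) (l 16415128)) (c (l 16857160) (l 16352448)))) (b (c (l 16808000) (l 16353880)) (c (l 17137280) (l 16317272)))) (b (a (c (l 17092264) (l 16280680)) (l 16937256)) (a (l 16924280) (l 17151848))))), by decide +kernel⟩

def k3_pm_022 : ∃ t, chk3 f_pm_022 t 5 2 1 = true :=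
  ⟨(b (a (b (b (a (c (l 16667408) (l 16735024)) (l 16580096)) (l 16536816)) (b (l 16486648) (b (l 16476168) (l 16600568)))) (b (b (l 16562328) (l 16631528)) (b (l 16847480) (b (l 16989632) (l 17073200))))) (b (b (b (a (l 16752864) (l 17150368)) (a (b (l 16842736) (b (l 16885112) (l 16912456))) (b (l 17202680) (l 17235008)))) (a (a (l 16925936) (l 17113984)) (a (l 17252344) (l 17354992)))) (a (b (a (l 17127200) (l 17266992)) (a (l 17289104) (l 17388680))) (b (a (l 17369480) (l 17444600)) (l 17489368))))), by decide +kernel⟩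

def k4_pm_022 : ∃ t, chk3 f_pm_022 t 2 3 1 = true :=
  ⟨(a (b (b (a (a (c (b (a (c (l 17367440) (b (l 16838000) (l 17013624))) (l 17256160)) (c (l 17642520) (l 17109024))) (b (b (l 16383304) (l 16408552)) (a (b (l 16570064) (l 16663120)) (l 16776880)))) (b (c (l 17387080) (l 16642384)) (c (l 17575800) (a (l 16877664) (l 16965704))))) (a (b (c (l 17518184) (l 16863448)) (c (l 17657416) (l 17077952))) (b (l 17322376) (l 17452400)))) (a (a (b (c (a (l 17629664) (l 17668400)) (a (b (l 16778048) (l 16979408)) (l 16966104))) (c (b (l 17756976) (l 17813328)) (a (b (l 17142744) (l 17144128)) (l 17181768)))) (b (c (l 17715112) (l 17147760)) (c (l 17811664) (a (l 17305440) (l 17341656))))) (b (a (c (l 17756240) (l 17246312)) (l 17551864)) (l 17611672)))) (b (a (b (a (c (b (l 17855304) (l 17889264)) (b (a (l 17346048) (l 17380664)) (l 17417176))) (l 17531920)) (c (l 17925360) (l 17499472))) (b (l 17666504) (l 17708088))) (a (a (l 17785760) (l 17777824)) (l 17751704)))) (b (b (a (b (a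 (l 17415552) (l 17483784)) (l 17534712)) (l 17568904)) (a (l 17608168) (l 17602048))) (b (a (l 17663048) (l 2)) (l 2)))), by decide +kernel⟩

def k5_pm_022 : ∃ t, chk3 f_pm_022 t 3 1 1 = true :=
  ⟨(b (a (b (a (b (b (l 16890792) (l 17036192)) (b (l 17173376) (b (l 17264600) (l 17319624)))) (b (b (l 17160328) (l 17263672)) (b (l 17360632) (b (l 17421024) (l 17458144))))) (b (b (a (b (l 17370384) (l 17411112)) (b (l 17490840) (l 17516552))) (l 17507544)) (b (l 17551544) (l 17578960)))) (b (b (a (a (l 17542432) (l 17385752)) (l 17446296)) (b (l 17497472) (b (l 17534488) (l 17554536)))) (b (b (b (l 17570680) (l 2)) (l 2)) (l 2)))) (a (b (b (l 17591040) (l 2)) (l 2)) (l 2))), by decide +kernel⟩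

theorem s6_pm_022 : ∃ t, chk3 f_pm_022 t 4 4 1 = true := ex3_a k0_pm_022 k1_pm_022

theorem s7_pm_022 : ∃ t, chk3 f_pm_022 t 4 2 1 = true := ex3_b s6_pm_022 k2_pm_022

theorem s8_pm_022 : ∃ t, chk3 f_pm_022 t 2 2 1 = true := ex3_a s7_pm_022 k3_pm_022

theorem s9_pm_022 : ∃ t, chk3 f_pm_022 t 2 1 1 = true := ex3_b s8_pm_022 k4_pm_022

theorem s10_pm_022 : ∃ t, chk3 f_pm_022 t 1 1 1 = true := ex3_a s9_pm_022 k5_pm_022

theorem c_pm_022 : CertF 0 536870912 1073741824 536870912 201326592 134217728 true true false .pp 0 2 2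
    ndF1q0 ndF3q2 pcF2 Cut.none Ext.none :=
  certF0 (fam := true) (s1 := true) (s2 := false) (a := 0) (b := 2) (c := 2) (cn := .pp) (n1 := ndF1q0) (n2 := ndF3q2) (pc := pcF2) (cut := Cut.none) (xt := Ext.none) (P1 := 0) (W1 := 536870912) (P2 := 1073741824) (W2 := 536870912) (P3 := 201326592) (W3 := 134217728)
    rfl s10_pm_022

noncomputable def f_pm_023 : ℕ → ℕ → ℕ → ℕ → Bool := onCell 1610612736 536870912 1073741824 536870912 201326592 134217728
    (rowF 2 true true false .up 0 2 3 (qsf 0 536870912 1073741824 536870912 3) ndF1q0 ndF3q2 pcF3 Cut.none Ext.none)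

def k0_pm_023 : ∃ t, chk3 f_pm_023 t 1 1 1 = true :=
  ⟨(a (b (a (b (b (l 17518920) (b (l 17553544) (b (l 17571208) (l 17581168)))) (b (b (b (l 17589784) (l 17678320)) (l 17594040)) (l 17792752))) (b (a (b (l 2) (b (l 2) (l 17745784))) (l 2)) (b (b (b (l 17636488) (l 17635832)) (l 17625416)) (a (l 17623376) (l 17603480))))) (b (a (b (l 17643104) (a (l 17644536) (l 17632432))) (b (l 17596912) (l 17562832))) (b (a (a (l 17874056) (l 17672048)) (l 17579800)) (a (a (l 17774448) (l 17729520)) (l 17633864))))) (b (a (b (l 2) (b (l 2) (a (l 17575952) (l 2)))) (l 2)) (a (b (b (a (l 17542624) (l 17505816)) (a (l 17485008) (l 17435744))) (b (a (l 17484064) (l 17422448)) (l 17496872))) (a (b (b (l 2) (l 17384736)) (b (l 17361208) (l 17391248))) (l 4))))), by decide +kernel⟩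

theorem c_pm_023 : CertF 0 536870912 1073741824 536870912 201326592 134217728 true true false .up 0 2 3
    ndF1q0 ndF3q2 pcF3 Cut.none Ext.none :=
  certF2 (fam := true) (s1 := true) (s2 := false) (a := 0) (b := 2) (c := 3) (cn := .up) (n1 := ndF1q0) (n2 := ndF3q2) (pc := pcF3) (cut := Cut.none) (xt := Ext.none) (P1 := 0) (W1 := 536870912) (P2 := 1073741824) (W2 := 536870912) (P3 := 201326592) (W3 := 134217728)
    rfl (fun _ => rfl) k0_pm_023

noncomputable def f_pm_033 : ℕ → ℕ → ℕ → ℕ → Bool := onCell 1610612736 536870912 0 1230186008 201326592 134217728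
    (rowF 2 true true false .pnn 0 3 3 (qsf 0 536870912 0 1230186008 3) ndF1q0 ndF3q3 pcF3 Cut.none Ext.none)

def k0_pm_033 : ∃ t, chk3 f_pm_033 t 1 1 1 = true :=
  ⟨(b (a (l 1) (a (l 1) (b (l 4) (l 4)))) (b (a (b (l 1) (a (l 1) (a (l 1) (a (l 1) (l 17721312))))) (a (a (b (l 1) (l 17662864)) (b (l 17634088) (l 17563800))) (l 4))) (a (b (a (l 1) (a (l 578245926135) (l 17665928))) (a (a (b (l 1) (c (l 17909816) (l 290482962487))) (b (l 562676741543) (l 17716456))) (a (l 17647984) (l 17552936)))) (a (a (b (l 17572872) (l 17453752)) (l 17615544)) (a (l 17310792) (l 4)))))), by decide +kernel⟩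

theorem c_pm_033 : CertF 0 536870912 0 1230186008 201326592 134217728 true true false .pnn 0 3 3
    ndF1q0 ndF3q3 pcF3 Cut.none Ext.none :=
  certF2 (fam := true) (s1 := true) (s2 := false) (a := 0) (b := 3) (c := 3) (cn := .pnn) (n1 := ndF1q0) (n2 := ndF3q3) (pc := pcF3) (cut := Cut.none) (xt := Ext.none) (P1 := 0) (W1 := 536870912) (P2 := 0) (W2 := 1230186008) (P3 := 201326592) (W3 := 134217728)
    rfl (fun _ => rfl) k0_pm_033

noncomputable def f_pm_101 : ℕ → ℕ → ℕ → ℕ → Bool := onCell 536870912 536870912 0 536870912 201326592 134217728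
    (rowF 2 true true false .npn 1 0 1 (qsf 536870912 536870912 0 536870912 1) ndF1q1 ndF3q0 pcF1 Cut.none Ext.none)

def k0_pm_101 : ∃ t, chk3 f_pm_101 t 1 1 1 = true :=
  ⟨(a (l 3) (l 3)), by decide +kernel⟩

theorem c_pm_101 : CertF 536870912 536870912 0 536870912 201326592 134217728 true true false .npn 1 0 1
    ndF1q1 ndF3q0 pcF1 Cut.none Ext.none :=
  certF2 (fam := true) (s1 := true) (s2 := false) (a := 1) (b := 0) (c := 1) (cn := .npn) (n1 := ndF1q1) (n2 := ndF3q0) (pc := pcF1) (cut := Cut.none) (xt := Ext.none) (P1 := 536870912) (W1 := 536870912) (P2 := 0) (W2 := 536870912) (P3 := 201326592) (W3 := 134217728)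
    rfl (fun _ => rfl) k0_pm_101

noncomputable def f_pm_102 : ℕ → ℕ → ℕ → ℕ → Bool := onCell 536870912 536870912 1073741824 536870912 201326592 134217728
    (rowF 1 true true false .npp 1 0 2 (qsf 536870912 536870912 0 536870912 2) ndF1q1 ndF3q0 pcF2 Cut.none Ext.none)

def k0_pm_102 : ∃ t, chk3 f_pm_102 t 1 1 1 = true :=
  ⟨(a (b (b (b (l 3) (a (l 17156624) (l 17084968))) (b (b (b (l 16946344) (b (l 16936656) (a (l 2) (l 16862472)))) (l 16905792)) (l 16868800))) (b (l 17046840) (l 2))) (b (b (b (l 3) (b (l 3) (a (l 16781536) (l 184314938999)))) (b (b (b (a (l 16784872) (l 16742576)) (b (a (l 16793384) (l 16741760)) (a (b (l 16798296) (l 16802048)) (b (l 16740232) (l 16728952))))) (a (l 16820720) (l 16718072))) (a (l 16877120) (l 16799312)))) (b (a (l 16985912) (b (l 17006016) (l 17144760))) (b (a (l 17068360) (l 17239072)) (l 17209080))))), by decide +kernel⟩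

theorem c_pm_102 : CertF 536870912 536870912 0 536870912 201326592 134217728 true true false .npp 1 0 2
    ndF1q1 ndF3q0 pcF2 Cut.none Ext.none :=
  certF1 (fam := true) (s1 := true) (s2 := false) (a := 1) (b := 0) (c := 2) (cn := .npp) (n1 := ndF1q1) (n2 := ndF3q0) (pc := pcF2) (cut := Cut.none) (xt := Ext.none) (P1 := 536870912) (W1 := 536870912) (P2 := 0) (W2 := 536870912) (P3 := 201326592) (W3 := 134217728)
    rfl (fun _ => rfl) k0_pm_102

noncomputable def f_pm_112 : ℕ → ℕ → ℕ → ℕ → Bool := onCell 1073741824 536870912 536870912 536870912 201326592 134217728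
    (rowF 2 true true false .dn 1 1 2 (qsf 536870912 536870912 536870912 536870912 2) ndF1q1 ndF3q1 pcF2 Cut.none Ext.none)

def k0_pm_112 : ∃ t, chk3 f_pm_112 t 1 1 1 = true :=
  ⟨(a (b (a (a (l 3) (b (b (l 210622303703) (a (l 17297992) (l 17403376))) (b (a (l 1) (l 364570167815)) (l 1)))) (b (a (a (a (b (l 17486024) (l 17463904)) (b (a (l 17505400) (l 17512920)) (l 17493904))) (b (l 17538088) (l 17534568))) (b (l 17587240) (l 17597152))) (b (a (a (a (l 17458256) (l 17503640)) (l 17562968)) (l 17648656)) (a (a (l 1) (l 17611640)) (l 17733488))))) (a (l 1) (b (a (l 1) (b (l 17774552) (l 1))) (l 1)))) (b (a (b (b (l 17627376) (l 17652360)) (b (l 17728392) (l 17851400))) (b (a (l 17640536) (l 17590080)) (a (l 17789048) (l 17751408)))) (a (b (b (l 17943640) (l 426848903943)) (b (l 415037876631) (l 1))) (b (a (l 18128904) (l 18032056)) (b (a (l 18196576) (l 18210008)) (l 18281696)))))), by decide +kernel⟩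

theorem c_pm_112 : CertF 536870912 536870912 536870912 536870912 201326592 134217728 true true false .dn 1 1 2
    ndF1q1 ndF3q1 pcF2 Cut.none Ext.none :=
  certF2 (fam := true) (s1 := true) (s2 := false) (a := 1) (b := 1) (c := 2) (cn := .dn) (n1 := ndF1q1) (n2 := ndF3q1) (pc := pcF2) (cut := Cut.none) (xt := Ext.none) (P1 := 536870912) (W1 := 536870912) (P2 := 536870912) (W2 := 536870912) (P3 := 201326592) (W3 := 134217728)
    rfl (fun _ => rfl) k0_pm_112

noncomputable def f_pm_113 : ℕ → ℕ → ℕ → ℕ → Bool := onCell 1610612736 536870912 536870912 536870912 201326592 134217728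
    (rowF 2 true true false .nn 1 1 3 (qsf 536870912 536870912 536870912 536870912 3) ndF1q1 ndF3q1 pcF3 Cut.none Ext.none)

def k0_pm_113 : ∃ t, chk3 f_pm_113 t 1 1 1 = true :=
  ⟨(a (b (a (b (b (l 17505304) (l 17394176)) (a (l 17635152) (l 17515008))) (b (a (b (l 2) (l 17275968)) (l 2)) (a (l 17467992) (b (l 17244288) (l 17387344))))) (a (b (b (l 17835576) (l 17986232)) (b (l 18146544) (l 18263208))) (b (a (l 17733784) (l 17653088)) (b (l 17939424) (l 18078816))))) (b (a (b (l 2) (a (b (l 2) (l 17288024)) (l 2))) (l 2)) (a (b (a (l 17519896) (l 17390816)) (b (a (l 17752664) (l 17671552)) (l 17863736))) (b (a (l 17299616) (l 2)) (a (b (l 17510696) (l 17650840)) (b (l 4) (l 4))))))), by decide +kernel⟩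

theorem c_pm_113 : CertF 536870912 536870912 536870912 536870912 201326592 134217728 true true false .nn 1 1 3
    ndF1q1 ndF3q1 pcF3 Cut.none Ext.none :=
  certF2 (fam := true) (s1 := true) (s2 := false) (a := 1) (b := 1) (c := 3) (cn := .nn) (n1 := ndF1q1) (n2 := ndF3q1) (pc := pcF3) (cut := Cut.none) (xt := Ext.none) (P1 := 536870912) (W1 := 536870912) (P2 := 536870912) (W2 := 536870912) (P3 := 201326592) (W3 := 134217728)
    rfl (fun _ => rfl) k0_pm_113

noncomputable def f_pm_123 : ℕ → ℕ → ℕ → ℕ → Bool := onCell 1610612736 536870912 1073741824 536870912 201326592 134217728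
    (rowF 2 true true false .npn 1 2 3 (qsf 536870912 536870912 1073741824 536870912 3) ndF1q1 ndF3q2 pcF3 Cut.none Ext.none)

def k0_pm_123 : ∃ t, chk3 f_pm_123 t 1 1 1 = true :=
  ⟨(a (b (a (b (b (l 17385528) (b (l 17375528) (l 17351424))) (b (b (l 224447226215) (l 1)) (l 1))) (b (b (l 17312552) (b (l 17307504) (l 17288024))) (b (b (b (l 17289296) (l 17276120)) (l 17245168)) (l 17236656)))) (b (a (l 1) (b (l 17098936) (l 1))) (l 1))) (b (a (b (b (l 17183920) (a (b (l 17223680) (l 17210688)) (b (l 17155152) (l 17147744)))) (b (b (a (l 17212616) (l 17154272)) (l 17410488)) (a (l 17135960) (l 17089664)))) (b (a (b (l 17074888) (b (l 17087784) (l 17103920))) (a (b (l 16994120) (b (l 17011568) (l 17011352))) (l 4))) (a (b (b (l 17283232) (l 17072336)) (l 17040464)) (b (a (b (l 17027256) (l 4)) (l 4)) (l 4))))) (a (b (a (l 17248632) (b (l 17023128) (l 16918760))) (b (a (l 1) (l 16873952)) (l 1))) (a (b (b (l 16984176) (l 16898088)) (b (l 16889568) (l 16889504))) (l 4))))), by decide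 +kernel⟩

theorem c_pm_123 : CertF 536870912 536870912 1073741824 536870912 201326592 134217728 true true false .npn 1 2 3
    ndF1q1 ndF3q2 pcF3 Cut.none Ext.none :=
  certF2 (fam := true) (s1 := true) (s2 := false) (a := 1) (b := 2) (c := 3) (cn := .npn) (n1 := ndF1q1) (n2 := ndF3q2) (pc := pcF3) (cut := Cut.none) (xt := Ext.none) (P1 := 536870912) (W1 := 536870912) (P2 := 1073741824) (W2 := 536870912) (P3 := 201326592) (W3 := 134217728)
    rfl (fun _ => rfl) k0_pm_123

noncomputable def f_pm_133 : ℕ → ℕ → ℕ → ℕ → Bool := onCell 536870912 536870912 0 1230186008 201326592 134217728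
    (rowF 0 true true false .dn 1 3 3 (qsf 536870912 536870912 0 1230186008 3) ndF1q1 ndF3q3 pcF3 Cut.none Ext.none)

def k0_pm_133 : ∃ t, chk3 f_pm_133 t 1 1 1 = true :=
  ⟨(b (l 2) (b (l 2) (l 4))), by decide +kernel⟩

theorem c_pm_133 : CertF 536870912 536870912 0 1230186008 201326592 134217728 true true false .dn 1 3 3
    ndF1q1 ndF3q3 pcF3 Cut.none Ext.none :=
  certF0 (fam := true) (s1 := true) (s2 := false) (a := 1) (b := 3) (c := 3) (cn := .dn) (n1 := ndF1q1) (n2 := ndF3q3) (pc := pcF3) (cut := Cut.none) (xt := Ext.none) (P1 := 536870912) (W1 := 536870912) (P2 := 0) (W2 := 1230186008) (P3 := 201326592) (W3 := 134217728)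
    rfl k0_pm_133

noncomputable def f_pm_202_a : ℕ → ℕ → ℕ → ℕ → Bool := onCell 0 536870912 1073741824 536870912 201326592 134217728
    (rowF 1 true true false .pp 2 0 2 (qsf 0 536870912 0 536870912 2) ndF1q2a ndF3q0 pcF2 Cut.none Ext.none)

def k0_pm_202_a : ∃ t, chk3 f_pm_202_a t 1 1 1 = true :=
  ⟨(a (b (a (b (l 1) (b (b (b (l 1) (b (l 16914424) (l 16917168))) (l 16921688)) (l 16948712))) (b (a (l 1) (b (l 1) (b (l 1) (b (l 1) (l 16959336))))) (b (b (b (l 16996064) (b (l 16956648) (l 16957840))) (l 16958616)) (l 16977128)))) (b (b (a (l 17009232) (l 17040456)) (l 17178456)) (l 17344576))) (b (a (b (b (l 1) (b (a (l 1) (b (l 16993872) (l 17004888))) (b (a (l 16980664) (l 17015656)) (a (l 16989536) (l 17024136))))) (b (b (b (l 17014488) (b (l 17016096) (l 17017024))) (l 17016808)) (l 17032072))) (b (a (b (a (b (l 1) (b (l 1) (l 17012784))) (b (l 1) (b (b (l 17025824) (l 17029456)) (l 17036192)))) (b (b (l 17035152) (l 17046112)) (b (l 17057496) (l 17067344)))) (b (b (a (b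 (l 1) (c (l 17084600) (l 254510872839))) (c (l 171832943543) (l 160021669095))) (a (b (l 17052760) (l 17062240)) (l 17088640))) (b (l 17096984) (b (l 17117472) (l 17129672))))) (b (b (b (l 17108200) (b (l 17111448) (l 17113328))) (l 17114640)) (l 17363296)))) (b (b (a (l 17077448) (l 17195528)) (a (l 17261536) (l 17315168))) (b (l 17528360) (l 17331200))))), by decide +kernel⟩

theorem c_pm_202_a : CertF 0 536870912 0 536870912 201326592 134217728 true true false .pp 2 0 2
    ndF1q2a ndF3q0 pcF2 Cut.none Ext.none :=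
  certF1 (fam := true) (s1 := true) (s2 := false) (a := 2) (b := 0) (c := 2) (cn := .pp) (n1 := ndF1q2a) (n2 := ndF3q0) (pc := pcF2) (cut := Cut.none) (xt := Ext.none) (P1 := 0) (W1 := 536870912) (P2 := 0) (W2 := 536870912) (P3 := 201326592) (W3 := 134217728)
    rfl (fun _ => rfl) k0_pm_202_a

noncomputable def f_pm_202_b : ℕ → ℕ → ℕ → ℕ → Bool := onCell 1073741824 536870912 0 536870912 201326592 134217728
    (rowF 2 true true false .pp 2 0 2 (qsf 1239849684 370763052 0 536870912 2) ndF1q2b ndF3q0 pcF2 Cut.none Ext.none)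

def k0_pm_202_b : ∃ t, chk3 f_pm_202_b t 1 1 1 = true :=
  ⟨(a (b (b (a (l 1) (b (a (a (a (l 1) (b (l 16934352) (l 1))) (l 16931488)) (a (l 16899824) (l 16866800))) (a (l 1) (l 17000920)))) (l 1)) (l 1)) (a (b (b (a (b (l 16822536) (l 16942128)) (b (l 16926152) (l 17008664))) (a (b (l 17065496) (l 1)) (l 17140200))) (l 1)) (a (b (b (b (l 17276888) (l 17278640)) (l 17267136)) (b (l 17221360) (l 1))) (b (b (l 17487480) (l 17388224)) (b (l 17261416) (l 1)))))), by decide +kernel⟩

theorem c_pm_202_b : CertF 1239849684 370763052 0 536870912 201326592 134217728 true true false .pp 2 0 2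
    ndF1q2b ndF3q0 pcF2 Cut.none Ext.none :=
  certF2 (fam := true) (s1 := true) (s2 := false) (a := 2) (b := 0) (c := 2) (cn := .pp) (n1 := ndF1q2b) (n2 := ndF3q0) (pc := pcF2) (cut := Cut.none) (xt := Ext.none) (P1 := 1239849684) (W1 := 370763052) (P2 := 0) (W2 := 536870912) (P3 := 201326592) (W3 := 134217728)
    rfl (fun _ => rfl) k0_pm_202_b

noncomputable def f_pm_203_a : ℕ → ℕ → ℕ → ℕ → Bool := onCell 0 536870912 1610612736 536870912 201326592 134217728
    (rowF 1 true true false .up 2 0 3 (qsf 0 536870912 0 536870912 3) ndF1q2a ndF3q0 pcF3 Cut.none Ext.none)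

def k0_pm_203_a : ∃ t, chk3 f_pm_203_a t 1 1 1 = true :=
  ⟨(b (b (b (a (l 17282664) (l 17308240)) (a (l 17287256) (l 17325088))) (a (l 4) (b (l 17347672) (l 2)))) (l 2)), by decide +kernel⟩

theorem c_pm_203_a : CertF 0 536870912 0 536870912 201326592 134217728 true true false .up 2 0 3
    ndF1q2a ndF3q0 pcF3 Cut.none Ext.none :=
  certF1 (fam := true) (s1 := true) (s2 := false) (a := 2) (b := 0) (c := 3) (cn := .up) (n1 := ndF1q2a) (n2 := ndF3q0) (pc := pcF3) (cut := Cut.none) (xt := Ext.none) (P1 := 0) (W1 := 536870912) (P2 := 0) (W2 := 536870912) (P3 := 201326592) (W3 := 134217728)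
    rfl (fun _ => rfl) k0_pm_203_a

noncomputable def f_pm_203_b : ℕ → ℕ → ℕ → ℕ → Bool := onCell 1239849684 370763052 1610612736 536870912 201326592 134217728
    (rowF 1 true true false .up 2 0 3 (qsf 1239849684 370763052 0 536870912 3) ndF1q2b ndF3q0 pcF3 Cut.none Ext.none)

def k0_pm_203_b : ∃ t, chk3 f_pm_203_b t 1 1 1 = true :=
  ⟨(b (b (b (a (a (l 17302456) (l 17407168)) (a (l 17504456) (l 17588192))) (a (l 4) (a (l 17502888) (l 17845128)))) (l 4)) (l 4)), by decide +kernel⟩

theorem c_pm_203_b : CertF 1239849684 370763052 0 536870912 201326592 134217728 true true false .up 2 0 3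
    ndF1q2b ndF3q0 pcF3 Cut.none Ext.none :=
  certF1 (fam := true) (s1 := true) (s2 := false) (a := 2) (b := 0) (c := 3) (cn := .up) (n1 := ndF1q2b) (n2 := ndF3q0) (pc := pcF3) (cut := Cut.none) (xt := Ext.none) (P1 := 1239849684) (W1 := 370763052) (P2 := 0) (W2 := 536870912) (P3 := 201326592) (W3 := 134217728)
    rfl (fun _ => rfl) k0_pm_203_b

noncomputable def f_pm_213_a : ℕ → ℕ → ℕ → ℕ → Bool := onCell 0 536870912 1610612736 536870912 201326592 134217728
    (rowF 1 true true false .pnn 2 1 3 (qsf 0 536870912 536870912 536870912 3) ndF1q2a ndF3q1 pcF3 Cut.none Ext.none)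

def k0_pm_213_a : ∃ t, chk3 f_pm_213_a t 1 1 1 = true :=
  ⟨(b (a (b (b (l 1) (l 17375136)) (l 4)) (b (b (l 17473408) (a (l 17425024) (b (l 17475552) (l 17537416)))) (a (l 4) (b (b (l 17440096) (l 4)) (l 4))))) (l 4)), by decide +kernel⟩

theorem c_pm_213_a : CertF 0 536870912 536870912 536870912 201326592 134217728 true true false .pnn 2 1 3
    ndF1q2a ndF3q1 pcF3 Cut.none Ext.none :=
  certF1 (fam := true) (s1 := true) (s2 := false) (a := 2) (b := 1) (c := 3) (cn := .pnn) (n1 := ndF1q2a) (n2 := ndF3q1) (pc := pcF3) (cut := Cut.none) (xt := Ext.none) (P1 := 0) (W1 := 536870912) (P2 := 536870912) (W2 := 536870912) (P3 := 201326592) (W3 := 134217728)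
    rfl (fun _ => rfl) k0_pm_213_a

noncomputable def f_pm_213_b : ℕ → ℕ → ℕ → ℕ → Bool := onCell 1239849684 370763052 536870912 536870912 201326592 134217728
    (rowF 0 true true false .pnn 2 1 3 (qsf 1239849684 370763052 536870912 536870912 3) ndF1q2b ndF3q1 pcF3 Cut.none Ext.none)

def k0_pm_213_b : ∃ t, chk3 f_pm_213_b t 1 1 1 = true :=
  ⟨(l 4), by decide +kernel⟩

theorem c_pm_213_b : CertF 1239849684 370763052 536870912 536870912 201326592 134217728 true true false .pnn 2 1 3
    ndF1q2b ndF3q1 pcF3 Cut.none Ext.none :=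
  certF0 (fam := true) (s1 := true) (s2 := false) (a := 2) (b := 1) (c := 3) (cn := .pnn) (n1 := ndF1q2b) (n2 := ndF3q1) (pc := pcF3) (cut := Cut.none) (xt := Ext.none) (P1 := 1239849684) (W1 := 370763052) (P2 := 536870912) (W2 := 536870912) (P3 := 201326592) (W3 := 134217728)
    rfl k0_pm_213_b

noncomputable def f_pm_303 : ℕ → ℕ → ℕ → ℕ → Bool := onCell 1610612736 536870912 0 536870912 201326592 134217728
    (rowF 2 true true false .npn 3 0 3 (qsf 1610612736 536870912 0 536870912 3) ndF1q3 ndF3q0 pcF3 Cut.none Ext.none)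

def k0_pm_303 : ∃ t, chk3 f_pm_303 t 1 1 1 = true :=
  ⟨(a (a (b (b (a (l 17749360) (a (l 17597512) (l 17611088))) (c (l 375308372199) (l 363496655319))) (l 1)) (a (b (c (l 17638728) (l 17418616)) (l 1)) (l 4))) (l 4)), by decide +kernel⟩

theorem c_pm_303 : CertF 1610612736 536870912 0 536870912 201326592 134217728 true true false .npn 3 0 3
    ndF1q3 ndF3q0 pcF3 Cut.none Ext.none :=
  certF2 (fam := true) (s1 := true) (s2 := false) (a := 3) (b := 0) (c := 3) (cn := .npn) (n1 := ndF1q3) (n2 := ndF3q0) (pc := pcF3) (cut := Cut.none) (xt := Ext.none) (P1 := 1610612736) (W1 := 536870912) (P2 := 0) (W2 := 536870912) (P3 := 201326592) (W3 := 134217728)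
    rfl (fun _ => rfl) k0_pm_303

noncomputable def f_pm_313 : ℕ → ℕ → ℕ → ℕ → Bool := onCell 1610612736 536870912 536870912 536870912 201326592 134217728
    (rowF 0 true true false .dn 3 1 3 (qsf 1610612736 536870912 536870912 536870912 3) ndF1q3 ndF3q1 pcF3 Cut.none Ext.none)

def k0_pm_313 : ∃ t, chk3 f_pm_313 t 1 1 1 = true :=
  ⟨(l 4), by decide +kernel⟩

theorem c_pm_313 : CertF 1610612736 536870912 536870912 536870912 201326592 134217728 true true false .dn 3 1 3
    ndF1q3 ndF3q1 pcF3 Cut.none Ext.none :=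
  certF0 (fam := true) (s1 := true) (s2 := false) (a := 3) (b := 1) (c := 3) (cn := .dn) (n1 := ndF1q3) (n2 := ndF3q1) (pc := pcF3) (cut := Cut.none) (xt := Ext.none) (P1 := 1610612736) (W1 := 536870912) (P2 := 536870912) (W2 := 536870912) (P3 := 201326592) (W3 := 134217728)
    rfl k0_pm_313

noncomputable def f_mm_001 : ℕ → ℕ → ℕ → ℕ → Bool := onCell 0 536870912 0 536870912 201326592 134217728
    (rowF 0 true false false .up 0 0 1 (qsf 0 536870912 0 536870912 1) ndF1q0 ndF3q0 pcF1 Cut.none Ext.none)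

def k0_mm_001 : ∃ t, chk3 f_mm_001 t 1 1 1 = true :=
  ⟨(l 4), by decide +kernel⟩

theorem c_mm_001 : CertF 0 536870912 0 536870912 201326592 134217728 true false false .up 0 0 1
    ndF1q0 ndF3q0 pcF1 Cut.none Ext.none :=
  certF0 (fam := true) (s1 := false) (s2 := false) (a := 0) (b := 0) (c := 1) (cn := .up) (n1 := ndF1q0) (n2 := ndF3q0) (pc := pcF1) (cut := Cut.none) (xt := Ext.none) (P1 := 0) (W1 := 536870912) (P2 := 0) (W2 := 536870912) (P3 := 201326592) (W3 := 134217728)
    rfl k0_mm_001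

noncomputable def f_mm_011 : ℕ → ℕ → ℕ → ℕ → Bool := onCell 0 536870912 536870912 536870912 201326592 134217728
    (rowF 0 true false false .pnn 0 1 1 (qsf 0 536870912 536870912 536870912 1) ndF1q0 ndF3q1 pcF1 Cut.none Ext.none)

def k0_mm_011 : ∃ t, chk3 f_mm_011 t 1 1 1 = true :=
  ⟨(l 4), by decide +kernel⟩

theorem c_mm_011 : CertF 0 536870912 536870912 536870912 201326592 134217728 true false false .pnn 0 1 1
    ndF1q0 ndF3q1 pcF1 Cut.none Ext.none :=
  certF0 (fam := true) (s1 := false) (s2 := false) (a := 0) (b := 1) (c := 1) (cn := .pnn) (n1 := ndF1q0) (n2 := ndF3q1) (pc := pcF1) (cut := Cut.none) (xt := Ext.none) (P1 := 0) (W1 := 536870912) (P2 := 536870912) (W2 := 536870912) (P3 := 201326592) (W3 := 134217728)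
    rfl k0_mm_011

noncomputable def f_mm_012 : ℕ → ℕ → ℕ → ℕ → Bool := onCell 0 536870912 536870912 536870912 201326592 134217728
    (rowF 0 true false false .pnp 0 1 2 (qsf 0 536870912 536870912 536870912 2) ndF1q0 ndF3q1 pcF2 Cut.none Ext.none)

def k0_mm_012 : ∃ t, chk3 f_mm_012 t 1 1 1 = true :=
  ⟨(l 4), by decide +kernel⟩

theorem c_mm_012 : CertF 0 536870912 536870912 536870912 201326592 134217728 true false false .pnp 0 1 2
    ndF1q0 ndF3q1 pcF2 Cut.none Ext.none :=
  certF0 (fam := true) (s1 := false) (s2 := false) (a := 0) (b := 1) (c := 2) (cn := .pnp) (n1 := ndF1q0) (n2 := ndF3q1) (pc := pcF2) (cut := Cut.none) (xt := Ext.none) (P1 := 0) (W1 := 536870912) (P2 := 536870912) (W2 := 536870912) (P3 := 201326592) (W3 := 134217728)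
    rfl k0_mm_012

noncomputable def f_mm_022 : ℕ → ℕ → ℕ → ℕ → Bool := onCell 0 536870912 1073741824 536870912 201326592 134217728
    (rowF 0 true false false .pp 0 2 2 (qsf 0 536870912 1073741824 536870912 2) ndF1q0 ndF3q2 pcF2 Cut.none Ext.none)

def k0_mm_022 : ∃ t, chk3 f_mm_022 t 1 1 1 = true :=
  ⟨(l 4), by decide +kernel⟩

theorem c_mm_022 : CertF 0 536870912 1073741824 536870912 201326592 134217728 true false false .pp 0 2 2
    ndF1q0 ndF3q2 pcF2 Cut.none Ext.none :=
  certF0 (fam := true) (s1 := false) (s2 := false) (a := 0) (b := 2) (c := 2) (cn := .pp) (n1 := ndF1q0) (n2 := ndF3q2) (pc := pcF2) (cut := Cut.none) (xt := Ext.none) (P1 := 0) (W1 := 536870912) (P2 := 1073741824) (W2 := 536870912) (P3 := 201326592) (W3 := 134217728)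
    rfl k0_mm_022

noncomputable def f_mm_023 : ℕ → ℕ → ℕ → ℕ → Bool := onCell 0 536870912 1073741824 536870912 201326592 134217728
    (rowF 0 true false false .up 0 2 3 (qsf 0 536870912 1073741824 536870912 3) ndF1q0 ndF3q2 pcF3 Cut.none Ext.none)

def k0_mm_023 : ∃ t, chk3 f_mm_023 t 1 1 1 = true :=
  ⟨(l 4), by decide +kernel⟩

theorem c_mm_023 : CertF 0 536870912 1073741824 536870912 201326592 134217728 true false false .up 0 2 3
    ndF1q0 ndF3q2 pcF3 Cut.none Ext.none :=
  certF0 (fam := true) (s1 := false) (s2 := false) (a := 0) (b := 2) (c := 3) (cn := .up) (n1 := ndF1q0) (n2 := ndF3q2) (pc := pcF3) (cut := Cut.none) (xt := Ext.none) (P1 := 0) (W1 := 536870912) (P2 := 1073741824) (W2 := 536870912) (P3 := 201326592) (W3 := 134217728)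
    rfl k0_mm_023

noncomputable def f_mm_033 : ℕ → ℕ → ℕ → ℕ → Bool := onCell 0 536870912 0 1230186008 201326592 134217728
    (rowF 0 true false false .pnn 0 3 3 (qsf 0 536870912 0 1230186008 3) ndF1q0 ndF3q3 pcF3 Cut.none Ext.none)

def k0_mm_033 : ∃ t, chk3 f_mm_033 t 1 1 1 = true :=
  ⟨(l 5), by decide +kernel⟩

theorem c_mm_033 : CertF 0 536870912 0 1230186008 201326592 134217728 true false false .pnn 0 3 3
    ndF1q0 ndF3q3 pcF3 Cut.none Ext.none :=
  certF0 (fam := true) (s1 := false) (s2 := false) (a := 0) (b := 3) (c := 3) (cn := .pnn) (n1 := ndF1q0) (n2 := ndF3q3) (pc := pcF3) (cut := Cut.none) (xt := Ext.none) (P1 := 0) (W1 := 536870912) (P2 := 0) (W2 := 1230186008) (P3 := 201326592) (W3 := 134217728)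
    rfl k0_mm_033

noncomputable def f_mm_101 : ℕ → ℕ → ℕ → ℕ → Bool := onCell 536870912 536870912 0 536870912 201326592 134217728
    (rowF 0 true false false .npn 1 0 1 (qsf 536870912 536870912 0 536870912 1) ndF1q1 ndF3q0 pcF1 Cut.none Ext.none)

def k0_mm_101 : ∃ t, chk3 f_mm_101 t 1 1 1 = true :=
  ⟨(l 4), by decide +kernel⟩

theorem c_mm_101 : CertF 536870912 536870912 0 536870912 201326592 134217728 true false false .npn 1 0 1
    ndF1q1 ndF3q0 pcF1 Cut.none Ext.none :=
  certF0 (fam := true) (s1 := false) (s2 := false) (a := 1) (b := 0) (c := 1) (cn := .npn) (n1 := ndF1q1) (n2 := ndF3q0) (pc := pcF1) (cut := Cut.none) (xt := Ext.none) (P1 := 536870912) (W1 := 536870912) (P2 := 0) (W2 := 536870912) (P3 := 201326592) (W3 := 134217728)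
    rfl k0_mm_101

noncomputable def f_mm_102 : ℕ → ℕ → ℕ → ℕ → Bool := onCell 536870912 536870912 0 536870912 201326592 134217728
    (rowF 0 true false false .npp 1 0 2 (qsf 536870912 536870912 0 536870912 2) ndF1q1 ndF3q0 pcF2 Cut.none Ext.none)

def k0_mm_102 : ∃ t, chk3 f_mm_102 t 1 1 1 = true :=
  ⟨(l 4), by decide +kernel⟩

theorem c_mm_102 : CertF 536870912 536870912 0 536870912 201326592 134217728 true false false .npp 1 0 2
    ndF1q1 ndF3q0 pcF2 Cut.none Ext.none :=
  certF0 (fam := true) (s1 := false) (s2 := false) (a := 1) (b := 0) (c := 2) (cn := .npp) (n1 := ndF1q1) (n2 := ndF3q0) (pc := pcF2) (cut := Cut.none) (xt := Ext.none) (P1 := 536870912) (W1 := 536870912) (P2 := 0) (W2 := 536870912) (P3 := 201326592) (W3 := 134217728)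
    rfl k0_mm_102

noncomputable def f_mm_112 : ℕ → ℕ → ℕ → ℕ → Bool := onCell 536870912 536870912 536870912 536870912 201326592 134217728
    (rowF 0 true false false .dn 1 1 2 (qsf 536870912 536870912 536870912 536870912 2) ndF1q1 ndF3q1 pcF2 Cut.none Ext.none)

def k0_mm_112 : ∃ t, chk3 f_mm_112 t 1 1 1 = true :=
  ⟨(l 4), by decide +kernel⟩

theorem c_mm_112 : CertF 536870912 536870912 536870912 536870912 201326592 134217728 true false false .dn 1 1 2
    ndF1q1 ndF3q1 pcF2 Cut.none Ext.none :=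
  certF0 (fam := true) (s1 := false) (s2 := false) (a := 1) (b := 1) (c := 2) (cn := .dn) (n1 := ndF1q1) (n2 := ndF3q1) (pc := pcF2) (cut := Cut.none) (xt := Ext.none) (P1 := 536870912) (W1 := 536870912) (P2 := 536870912) (W2 := 536870912) (P3 := 201326592) (W3 := 134217728)
    rfl k0_mm_112

noncomputable def f_mm_113 : ℕ → ℕ → ℕ → ℕ → Bool := onCell 536870912 536870912 536870912 536870912 201326592 134217728
    (rowF 0 true false false .nn 1 1 3 (qsf 536870912 536870912 536870912 536870912 3) ndF1q1 ndF3q1 pcF3 Cut.none Ext.none)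

def k0_mm_113 : ∃ t, chk3 f_mm_113 t 1 1 1 = true :=
  ⟨(l 4), by decide +kernel⟩

theorem c_mm_113 : CertF 536870912 536870912 536870912 536870912 201326592 134217728 true false false .nn 1 1 3
    ndF1q1 ndF3q1 pcF3 Cut.none Ext.none :=
  certF0 (fam := true) (s1 := false) (s2 := false) (a := 1) (b := 1) (c := 3) (cn := .nn) (n1 := ndF1q1) (n2 := ndF3q1) (pc := pcF3) (cut := Cut.none) (xt := Ext.none) (P1 := 536870912) (W1 := 536870912) (P2 := 536870912) (W2 := 536870912) (P3 := 201326592) (W3 := 134217728)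
    rfl k0_mm_113

noncomputable def f_mm_123 : ℕ → ℕ → ℕ → ℕ → Bool := onCell 536870912 536870912 1073741824 536870912 201326592 134217728
    (rowF 0 true false false .npn 1 2 3 (qsf 536870912 536870912 1073741824 536870912 3) ndF1q1 ndF3q2 pcF3 Cut.none Ext.none)

def k0_mm_123 : ∃ t, chk3 f_mm_123 t 1 1 1 = true :=
  ⟨(l 4), by decide +kernel⟩

theorem c_mm_123 : CertF 536870912 536870912 1073741824 536870912 201326592 134217728 true false false .npn 1 2 3
    ndF1q1 ndF3q2 pcF3 Cut.none Ext.none :=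
  certF0 (fam := true) (s1 := false) (s2 := false) (a := 1) (b := 2) (c := 3) (cn := .npn) (n1 := ndF1q1) (n2 := ndF3q2) (pc := pcF3) (cut := Cut.none) (xt := Ext.none) (P1 := 536870912) (W1 := 536870912) (P2 := 1073741824) (W2 := 536870912) (P3 := 201326592) (W3 := 134217728)
    rfl k0_mm_123

noncomputable def f_mm_133 : ℕ → ℕ → ℕ → ℕ → Bool := onCell 536870912 536870912 0 1230186008 201326592 134217728
    (rowF 0 true false false .dn 1 3 3 (qsf 536870912 536870912 0 1230186008 3) ndF1q1 ndF3q3 pcF3 Cut.none Ext.none)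

def k0_mm_133 : ∃ t, chk3 f_mm_133 t 1 1 1 = true :=
  ⟨(l 4), by decide +kernel⟩

theorem c_mm_133 : CertF 536870912 536870912 0 1230186008 201326592 134217728 true false false .dn 1 3 3
    ndF1q1 ndF3q3 pcF3 Cut.none Ext.none :=
  certF0 (fam := true) (s1 := false) (s2 := false) (a := 1) (b := 3) (c := 3) (cn := .dn) (n1 := ndF1q1) (n2 := ndF3q3) (pc := pcF3) (cut := Cut.none) (xt := Ext.none) (P1 := 536870912) (W1 := 536870912) (P2 := 0) (W2 := 1230186008) (P3 := 201326592) (W3 := 134217728)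
    rfl k0_mm_133

noncomputable def f_mm_202_a : ℕ → ℕ → ℕ → ℕ → Bool := onCell 0 536870912 0 536870912 201326592 134217728
    (rowF 0 true false false .pp 2 0 2 (qsf 0 536870912 0 536870912 2) ndF1q2a ndF3q0 pcF2 Cut.none Ext.none)

def k0_mm_202_a : ∃ t, chk3 f_mm_202_a t 1 1 1 = true :=
  ⟨(b (a (b (b (b (a (l 16855584) (l 4)) (l 4)) (l 4)) (l 4)) (l 4)) (l 4)), by decide +kernel⟩

theorem c_mm_202_a : CertF 0 536870912 0 536870912 201326592 134217728 true false false .pp 2 0 2
    ndF1q2a ndF3q0 pcF2 Cut.none Ext.none :=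
  certF0 (fam := true) (s1 := false) (s2 := false) (a := 2) (b := 0) (c := 2) (cn := .pp) (n1 := ndF1q2a) (n2 := ndF3q0) (pc := pcF2) (cut := Cut.none) (xt := Ext.none) (P1 := 0) (W1 := 536870912) (P2 := 0) (W2 := 536870912) (P3 := 201326592) (W3 := 134217728)
    rfl k0_mm_202_a

noncomputable def f_mm_202_b : ℕ → ℕ → ℕ → ℕ → Bool := onCell 1239849684 370763052 0 536870912 201326592 134217728
    (rowF 0 true false false .pp 2 0 2 (qsf 1239849684 370763052 0 536870912 2) ndF1q2b ndF3q0 pcF2 Cut.none Ext.none)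

def k0_mm_202_b : ∃ t, chk3 f_mm_202_b t 1 1 1 = true :=
  ⟨(b (a (b (b (a (b (a (l 16828880) (l 4)) (l 4)) (l 4)) (l 4)) (l 4)) (l 4)) (l 4)), by decide +kernel⟩

theorem c_mm_202_b : CertF 1239849684 370763052 0 536870912 201326592 134217728 true false false .pp 2 0 2
    ndF1q2b ndF3q0 pcF2 Cut.none Ext.none :=
  certF0 (fam := true) (s1 := false) (s2 := false) (a := 2) (b := 0) (c := 2) (cn := .pp) (n1 := ndF1q2b) (n2 := ndF3q0) (pc := pcF2) (cut := Cut.none) (xt := Ext.none) (P1 := 1239849684) (W1 := 370763052) (P2 := 0) (W2 := 536870912) (P3 := 201326592) (W3 := 134217728)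
    rfl k0_mm_202_b

noncomputable def f_mm_203_a : ℕ → ℕ → ℕ → ℕ → Bool := onCell 0 536870912 1610612736 536870912 201326592 134217728
    (rowF 1 true false false .up 2 0 3 (qsf 0 536870912 0 536870912 3) ndF1q2a ndF3q0 pcF3 Cut.none Ext.none)

def k0_mm_203_a : ∃ t, chk3 f_mm_203_a t 1 1 1 = true :=
  ⟨(l 4), by decide +kernel⟩

theorem c_mm_203_a : CertF 0 536870912 0 536870912 201326592 134217728 true false false .up 2 0 3
    ndF1q2a ndF3q0 pcF3 Cut.none Ext.none :=
  certF1 (fam := true) (s1 := false) (s2 := false) (a := 2) (b := 0) (c := 3) (cn := .up) (n1 := ndF1q2a) (n2 := ndF3q0) (pc := pcF3) (cut := Cut.none) (xt := Ext.none) (P1 := 0) (W1 := 536870912) (P2 := 0) (W2 := 536870912) (P3 := 201326592) (W3 := 134217728)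
    rfl (fun _ => rfl) k0_mm_203_a

noncomputable def f_mm_203_b : ℕ → ℕ → ℕ → ℕ → Bool := onCell 1239849684 370763052 1610612736 536870912 201326592 134217728
    (rowF 1 true false false .up 2 0 3 (qsf 1239849684 370763052 0 536870912 3) ndF1q2b ndF3q0 pcF3 Cut.none Ext.none)

def k0_mm_203_b : ∃ t, chk3 f_mm_203_b t 1 1 1 = true :=
  ⟨(l 4), by decide +kernel⟩

theorem c_mm_203_b : CertF 1239849684 370763052 0 536870912 201326592 134217728 true false false .up 2 0 3
    ndF1q2b ndF3q0 pcF3 Cut.none Ext.none :=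
  certF1 (fam := true) (s1 := false) (s2 := false) (a := 2) (b := 0) (c := 3) (cn := .up) (n1 := ndF1q2b) (n2 := ndF3q0) (pc := pcF3) (cut := Cut.none) (xt := Ext.none) (P1 := 1239849684) (W1 := 370763052) (P2 := 0) (W2 := 536870912) (P3 := 201326592) (W3 := 134217728)
    rfl (fun _ => rfl) k0_mm_203_b

noncomputable def f_mm_213_a : ℕ → ℕ → ℕ → ℕ → Bool := onCell 0 536870912 536870912 536870912 201326592 134217728
    (rowF 0 true false false .pnn 2 1 3 (qsf 0 536870912 536870912 536870912 3) ndF1q2a ndF3q1 pcF3 Cut.none Ext.none)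

def k0_mm_213_a : ∃ t, chk3 f_mm_213_a t 1 1 1 = true :=
  ⟨(l 4), by decide +kernel⟩

theorem c_mm_213_a : CertF 0 536870912 536870912 536870912 201326592 134217728 true false false .pnn 2 1 3
    ndF1q2a ndF3q1 pcF3 Cut.none Ext.none :=
  certF0 (fam := true) (s1 := false) (s2 := false) (a := 2) (b := 1) (c := 3) (cn := .pnn) (n1 := ndF1q2a) (n2 := ndF3q1) (pc := pcF3) (cut := Cut.none) (xt := Ext.none) (P1 := 0) (W1 := 536870912) (P2 := 536870912) (W2 := 536870912) (P3 := 201326592) (W3 := 134217728)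
    rfl k0_mm_213_a

noncomputable def f_mm_213_b : ℕ → ℕ → ℕ → ℕ → Bool := onCell 1239849684 370763052 536870912 536870912 201326592 134217728
    (rowF 0 true false false .pnn 2 1 3 (qsf 1239849684 370763052 536870912 536870912 3) ndF1q2b ndF3q1 pcF3 Cut.none Ext.none)

def k0_mm_213_b : ∃ t, chk3 f_mm_213_b t 1 1 1 = true :=
  ⟨(l 4), by decide +kernel⟩

theorem c_mm_213_b : CertF 1239849684 370763052 536870912 536870912 201326592 134217728 true false false .pnn 2 1 3
    ndF1q2b ndF3q1 pcF3 Cut.none Ext.none :=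
  certF0 (fam := true) (s1 := false) (s2 := false) (a := 2) (b := 1) (c := 3) (cn := .pnn) (n1 := ndF1q2b) (n2 := ndF3q1) (pc := pcF3) (cut := Cut.none) (xt := Ext.none) (P1 := 1239849684) (W1 := 370763052) (P2 := 536870912) (W2 := 536870912) (P3 := 201326592) (W3 := 134217728)
    rfl k0_mm_213_b

noncomputable def f_mm_303 : ℕ → ℕ → ℕ → ℕ → Bool := onCell 1610612736 536870912 0 536870912 201326592 134217728
    (rowF 0 true false false .npn 3 0 3 (qsf 1610612736 536870912 0 536870912 3) ndF1q3 ndF3q0 pcF3 Cut.none Ext.none)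

def k0_mm_303 : ∃ t, chk3 f_mm_303 t 1 1 1 = true :=
  ⟨(l 4), by decide +kernel⟩

theorem c_mm_303 : CertF 1610612736 536870912 0 536870912 201326592 134217728 true false false .npn 3 0 3
    ndF1q3 ndF3q0 pcF3 Cut.none Ext.none :=
  certF0 (fam := true) (s1 := false) (s2 := false) (a := 3) (b := 0) (c := 3) (cn := .npn) (n1 := ndF1q3) (n2 := ndF3q0) (pc := pcF3) (cut := Cut.none) (xt := Ext.none) (P1 := 1610612736) (W1 := 536870912) (P2 := 0) (W2 := 536870912) (P3 := 201326592) (W3 := 134217728)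
    rfl k0_mm_303

noncomputable def f_mm_313 : ℕ → ℕ → ℕ → ℕ → Bool := onCell 1610612736 536870912 536870912 536870912 201326592 134217728
    (rowF 0 true false false .dn 3 1 3 (qsf 1610612736 536870912 536870912 536870912 3) ndF1q3 ndF3q1 pcF3 Cut.none Ext.none)

def k0_mm_313 : ∃ t, chk3 f_mm_313 t 1 1 1 = true :=
  ⟨(l 4), by decide +kernel⟩

theorem c_mm_313 : CertF 1610612736 536870912 536870912 536870912 201326592 134217728 true false false .dn 3 1 3
    ndF1q3 ndF3q1 pcF3 Cut.none Ext.none :=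
  certF0 (fam := true) (s1 := false) (s2 := false) (a := 3) (b := 1) (c := 3) (cn := .dn) (n1 := ndF1q3) (n2 := ndF3q1) (pc := pcF3) (cut := Cut.none) (xt := Ext.none) (P1 := 1610612736) (W1 := 536870912) (P2 := 536870912) (W2 := 536870912) (P3 := 201326592) (W3 := 134217728)
    rfl k0_mm_313

end Pool.Agent.Strip051.G.I3_16_5_16.Tab.C.FA13

namespace Pool.Agent.Strip051.G.I3_16_5_16.Tab.C.FA14

open Pool.Agent.Strip051.PB Pool.Agent.Strip051.PB.T
open Pool.Agent.Strip051.G.I3_16_5_16.Tab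

noncomputable def f_pp_001 : ℕ → ℕ → ℕ → ℕ → Bool := onCell 0 536870912 0 536870912 201326592 134217728
    (rowF 0 true true true .up 0 0 1 (qsf 0 536870912 0 536870912 1) ndF1q0 ndF4q0 pcF1 Cut.none Ext.none)

def k0_pp_001 : ∃ t, chk3 f_pp_001 t 1 1 1 = true :=
  ⟨(l 4), by decide +kernel⟩

theorem c_pp_001 : CertF 0 536870912 0 536870912 201326592 134217728 true true true .up 0 0 1
    ndF1q0 ndF4q0 pcF1 Cut.none Ext.none :=
  certF0 (fam := true) (s1 := true) (s2 := true) (a := 0) (b := 0) (c := 1) (cn := .up) (n1 := ndF1q0) (n2 := ndF4q0) (pc := pcF1) (cut := Cut.none) (xt := Ext.none) (P1 := 0) (W1 := 536870912) (P2 := 0) (W2 := 536870912) (P3 := 201326592) (W3 := 134217728)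
    rfl k0_pp_001

noncomputable def f_pp_011 : ℕ → ℕ → ℕ → ℕ → Bool := onCell 0 536870912 536870912 536870912 201326592 134217728
    (rowF 0 true true true .pnn 0 1 1 (qsf 0 536870912 536870912 536870912 1) ndF1q0 ndF4q1 pcF1 Cut.none Ext.none)

def k0_pp_011 : ∃ t, chk3 f_pp_011 t 1 1 1 = true :=
  ⟨(l 4), by decide +kernel⟩

theorem c_pp_011 : CertF 0 536870912 536870912 536870912 201326592 134217728 true true true .pnn 0 1 1
    ndF1q0 ndF4q1 pcF1 Cut.none Ext.none :=
  certF0 (fam := true) (s1 := true) (s2 := true) (a := 0) (b := 1) (c := 1) (cn := .pnn) (n1 := ndF1q0) (n2 := ndF4q1) (pc := pcF1) (cut := Cut.none) (xt := Ext.none) (P1 := 0) (W1 := 536870912) (P2 := 536870912) (W2 := 536870912) (P3 := 201326592) (W3 := 134217728)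
    rfl k0_pp_011

noncomputable def f_pp_012 : ℕ → ℕ → ℕ → ℕ → Bool := onCell 0 536870912 536870912 536870912 201326592 134217728
    (rowF 0 true true true .pnp 0 1 2 (qsf 0 536870912 536870912 536870912 2) ndF1q0 ndF4q1 pcF2 Cut.none Ext.none)

def k0_pp_012 : ∃ t, chk3 f_pp_012 t 1 1 1 = true :=
  ⟨(l 4), by decide +kernel⟩

theorem c_pp_012 : CertF 0 536870912 536870912 536870912 201326592 134217728 true true true .pnp 0 1 2
    ndF1q0 ndF4q1 pcF2 Cut.none Ext.none :=
  certF0 (fam := true) (s1 := true) (s2 := true) (a := 0) (b := 1) (c := 2) (cn := .pnp) (n1 := ndF1q0) (n2 := ndF4q1) (pc := pcF2) (cut := Cut.none) (xt := Ext.none) (P1 := 0) (W1 := 536870912) (P2 := 536870912) (W2 := 536870912) (P3 := 201326592) (W3 := 134217728)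
    rfl k0_pp_012

noncomputable def f_pp_022 : ℕ → ℕ → ℕ → ℕ → Bool := onCell 0 536870912 1073741824 536870912 201326592 134217728
    (rowF 0 true true true .pp 0 2 2 (qsf 0 536870912 1073741824 536870912 2) ndF1q0 ndF4q2 pcF2 Cut.none Ext.none)

def k0_pp_022 : ∃ t, chk3 f_pp_022 t 1 1 1 = true :=
  ⟨(l 4), by decide +kernel⟩

theorem c_pp_022 : CertF 0 536870912 1073741824 536870912 201326592 134217728 true true true .pp 0 2 2
    ndF1q0 ndF4q2 pcF2 Cut.none Ext.none :=
  certF0 (fam := true) (s1 := true) (s2 := true) (a := 0) (b := 2) (c := 2) (cn := .pp) (n1 := ndF1q0) (n2 := ndF4q2) (pc := pcF2) (cut := Cut.none) (xt := Ext.none) (P1 := 0) (W1 := 536870912) (P2 := 1073741824) (W2 := 536870912) (P3 := 201326592) (W3 := 134217728)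
    rfl k0_pp_022

noncomputable def f_pp_023 : ℕ → ℕ → ℕ → ℕ → Bool := onCell 0 536870912 1073741824 536870912 201326592 134217728
    (rowF 0 true true true .up 0 2 3 (qsf 0 536870912 1073741824 536870912 3) ndF1q0 ndF4q2 pcF3 Cut.none Ext.none)

def k0_pp_023 : ∃ t, chk3 f_pp_023 t 1 1 1 = true :=
  ⟨(l 4), by decide +kernel⟩

theorem c_pp_023 : CertF 0 536870912 1073741824 536870912 201326592 134217728 true true true .up 0 2 3
    ndF1q0 ndF4q2 pcF3 Cut.none Ext.none :=
  certF0 (fam := true) (s1 := true) (s2 := true) (a := 0) (b := 2) (c := 3) (cn := .up) (n1 := ndF1q0) (n2 := ndF4q2) (pc := pcF3) (cut := Cut.none) (xt := Ext.none) (P1 := 0) (W1 := 536870912) (P2 := 1073741824) (W2 := 536870912) (P3 := 201326592) (W3 := 134217728)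
    rfl k0_pp_023

noncomputable def f_pp_033 : ℕ → ℕ → ℕ → ℕ → Bool := onCell 0 536870912 0 1230186008 201326592 134217728
    (rowF 0 true true true .pnn 0 3 3 (qsf 0 536870912 0 1230186008 3) ndF1q0 ndF4q3 pcF3 Cut.none Ext.none)

def k0_pp_033 : ∃ t, chk3 f_pp_033 t 1 1 1 = true :=
  ⟨(b (l 4) (l 4)), by decide +kernel⟩

theorem c_pp_033 : CertF 0 536870912 0 1230186008 201326592 134217728 true true true .pnn 0 3 3
    ndF1q0 ndF4q3 pcF3 Cut.none Ext.none :=
  certF0 (fam := true) (s1 := true) (s2 := true) (a := 0) (b := 3) (c := 3) (cn := .pnn) (n1 := ndF1q0) (n2 := ndF4q3) (pc := pcF3) (cut := Cut.none) (xt := Ext.none) (P1 := 0) (W1 := 536870912) (P2 := 0) (W2 := 1230186008) (P3 := 201326592) (W3 := 134217728)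
    rfl k0_pp_033

noncomputable def f_pp_101 : ℕ → ℕ → ℕ → ℕ → Bool := onCell 536870912 536870912 0 536870912 201326592 134217728
    (rowF 0 true true true .npn 1 0 1 (qsf 536870912 536870912 0 536870912 1) ndF1q1 ndF4q0 pcF1 Cut.none Ext.none)

def k0_pp_101 : ∃ t, chk3 f_pp_101 t 1 1 1 = true :=
  ⟨(l 4), by decide +kernel⟩

theorem c_pp_101 : CertF 536870912 536870912 0 536870912 201326592 134217728 true true true .npn 1 0 1
    ndF1q1 ndF4q0 pcF1 Cut.none Ext.none :=
  certF0 (fam := true) (s1 := true) (s2 := true) (a := 1) (b := 0) (c := 1) (cn := .npn) (n1 := ndF1q1) (n2 := ndF4q0) (pc := pcF1) (cut := Cut.none) (xt := Ext.none) (P1 := 536870912) (W1 := 536870912) (P2 := 0) (W2 := 536870912) (P3 := 201326592) (W3 := 134217728)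
    rfl k0_pp_101

noncomputable def f_pp_102 : ℕ → ℕ → ℕ → ℕ → Bool := onCell 536870912 536870912 0 536870912 201326592 134217728
    (rowF 0 true true true .npp 1 0 2 (qsf 536870912 536870912 0 536870912 2) ndF1q1 ndF4q0 pcF2 Cut.none Ext.none)

def k0_pp_102 : ∃ t, chk3 f_pp_102 t 1 1 1 = true :=
  ⟨(l 4), by decide +kernel⟩

theorem c_pp_102 : CertF 536870912 536870912 0 536870912 201326592 134217728 true true true .npp 1 0 2
    ndF1q1 ndF4q0 pcF2 Cut.none Ext.none :=
  certF0 (fam := true) (s1 := true) (s2 := true) (a := 1) (b := 0) (c := 2) (cn := .npp) (n1 := ndF1q1) (n2 := ndF4q0) (pc := pcF2) (cut := Cut.none) (xt := Ext.none) (P1 := 536870912) (W1 := 536870912) (P2 := 0) (W2 := 536870912) (P3 := 201326592) (W3 := 134217728)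
    rfl k0_pp_102

noncomputable def f_pp_112 : ℕ → ℕ → ℕ → ℕ → Bool := onCell 536870912 536870912 536870912 536870912 201326592 134217728
    (rowF 0 true true true .dn 1 1 2 (qsf 536870912 536870912 536870912 536870912 2) ndF1q1 ndF4q1 pcF2 Cut.none Ext.none)

def k0_pp_112 : ∃ t, chk3 f_pp_112 t 1 1 1 = true :=
  ⟨(l 4), by decide +kernel⟩

theorem c_pp_112 : CertF 536870912 536870912 536870912 536870912 201326592 134217728 true true true .dn 1 1 2
    ndF1q1 ndF4q1 pcF2 Cut.none Ext.none :=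
  certF0 (fam := true) (s1 := true) (s2 := true) (a := 1) (b := 1) (c := 2) (cn := .dn) (n1 := ndF1q1) (n2 := ndF4q1) (pc := pcF2) (cut := Cut.none) (xt := Ext.none) (P1 := 536870912) (W1 := 536870912) (P2 := 536870912) (W2 := 536870912) (P3 := 201326592) (W3 := 134217728)
    rfl k0_pp_112

noncomputable def f_pp_113 : ℕ → ℕ → ℕ → ℕ → Bool := onCell 536870912 536870912 536870912 536870912 201326592 134217728
    (rowF 0 true true true .nn 1 1 3 (qsf 536870912 536870912 536870912 536870912 3) ndF1q1 ndF4q1 pcF3 Cut.none Ext.none)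

def k0_pp_113 : ∃ t, chk3 f_pp_113 t 1 1 1 = true :=
  ⟨(l 4), by decide +kernel⟩

theorem c_pp_113 : CertF 536870912 536870912 536870912 536870912 201326592 134217728 true true true .nn 1 1 3
    ndF1q1 ndF4q1 pcF3 Cut.none Ext.none :=
  certF0 (fam := true) (s1 := true) (s2 := true) (a := 1) (b := 1) (c := 3) (cn := .nn) (n1 := ndF1q1) (n2 := ndF4q1) (pc := pcF3) (cut := Cut.none) (xt := Ext.none) (P1 := 536870912) (W1 := 536870912) (P2 := 536870912) (W2 := 536870912) (P3 := 201326592) (W3 := 134217728)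
    rfl k0_pp_113

noncomputable def f_pp_123 : ℕ → ℕ → ℕ → ℕ → Bool := onCell 536870912 536870912 1073741824 536870912 201326592 134217728
    (rowF 0 true true true .npn 1 2 3 (qsf 536870912 536870912 1073741824 536870912 3) ndF1q1 ndF4q2 pcF3 Cut.none Ext.none)

def k0_pp_123 : ∃ t, chk3 f_pp_123 t 1 1 1 = true :=
  ⟨(l 4), by decide +kernel⟩

theorem c_pp_123 : CertF 536870912 536870912 1073741824 536870912 201326592 134217728 true true true .npn 1 2 3
    ndF1q1 ndF4q2 pcF3 Cut.none Ext.none :=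
  certF0 (fam := true) (s1 := true) (s2 := true) (a := 1) (b := 2) (c := 3) (cn := .npn) (n1 := ndF1q1) (n2 := ndF4q2) (pc := pcF3) (cut := Cut.none) (xt := Ext.none) (P1 := 536870912) (W1 := 536870912) (P2 := 1073741824) (W2 := 536870912) (P3 := 201326592) (W3 := 134217728)
    rfl k0_pp_123

noncomputable def f_pp_133 : ℕ → ℕ → ℕ → ℕ → Bool := onCell 536870912 536870912 0 1230186008 201326592 134217728
    (rowF 0 true true true .dn 1 3 3 (qsf 536870912 536870912 0 1230186008 3) ndF1q1 ndF4q3 pcF3 Cut.none Ext.none)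

def k0_pp_133 : ∃ t, chk3 f_pp_133 t 1 1 1 = true :=
  ⟨(l 4), by decide +kernel⟩

theorem c_pp_133 : CertF 536870912 536870912 0 1230186008 201326592 134217728 true true true .dn 1 3 3
    ndF1q1 ndF4q3 pcF3 Cut.none Ext.none :=
  certF0 (fam := true) (s1 := true) (s2 := true) (a := 1) (b := 3) (c := 3) (cn := .dn) (n1 := ndF1q1) (n2 := ndF4q3) (pc := pcF3) (cut := Cut.none) (xt := Ext.none) (P1 := 536870912) (W1 := 536870912) (P2 := 0) (W2 := 1230186008) (P3 := 201326592) (W3 := 134217728)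
    rfl k0_pp_133

noncomputable def f_pp_202_a : ℕ → ℕ → ℕ → ℕ → Bool := onCell 0 536870912 0 536870912 201326592 134217728
    (rowF 0 true true true .pp 2 0 2 (qsf 0 536870912 0 536870912 2) ndF1q2a ndF4q0 pcF2 Cut.none Ext.none)

def k0_pp_202_a : ∃ t, chk3 f_pp_202_a t 1 1 1 = true :=
  ⟨(l 4), by decide +kernel⟩

theorem c_pp_202_a : CertF 0 536870912 0 536870912 201326592 134217728 true true true .pp 2 0 2
    ndF1q2a ndF4q0 pcF2 Cut.none Ext.none :=
  certF0 (fam := true) (s1 := true) (s2 := true) (a := 2) (b := 0) (c := 2) (cn := .pp) (n1 := ndF1q2a) (n2 := ndF4q0) (pc := pcF2) (cut := Cut.none) (xt := Ext.none) (P1 := 0) (W1 := 536870912) (P2 := 0) (W2 := 536870912) (P3 := 201326592) (W3 := 134217728)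
    rfl k0_pp_202_a

noncomputable def f_pp_202_b : ℕ → ℕ → ℕ → ℕ → Bool := onCell 1239849684 370763052 0 536870912 201326592 134217728
    (rowF 0 true true true .pp 2 0 2 (qsf 1239849684 370763052 0 536870912 2) ndF1q2b ndF4q0 pcF2 Cut.none Ext.none)

def k0_pp_202_b : ∃ t, chk3 f_pp_202_b t 1 1 1 = true :=
  ⟨(l 4), by decide +kernel⟩

theorem c_pp_202_b : CertF 1239849684 370763052 0 536870912 201326592 134217728 true true true .pp 2 0 2
    ndF1q2b ndF4q0 pcF2 Cut.none Ext.none :=
  certF0 (fam := true) (s1 := true) (s2 := true) (a := 2) (b := 0) (c := 2) (cn := .pp) (n1 := ndF1q2b) (n2 := ndF4q0) (pc := pcF2) (cut := Cut.none) (xt := Ext.none) (P1 := 1239849684) (W1 := 370763052) (P2 := 0) (W2 := 536870912) (P3 := 201326592) (W3 := 134217728)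
    rfl k0_pp_202_b

noncomputable def f_pp_203_a : ℕ → ℕ → ℕ → ℕ → Bool := onCell 0 536870912 0 536870912 201326592 134217728
    (rowF 0 true true true .up 2 0 3 (qsf 0 536870912 0 536870912 3) ndF1q2a ndF4q0 pcF3 Cut.none Ext.none)

def k0_pp_203_a : ∃ t, chk3 f_pp_203_a t 1 1 1 = true :=
  ⟨(l 4), by decide +kernel⟩

theorem c_pp_203_a : CertF 0 536870912 0 536870912 201326592 134217728 true true true .up 2 0 3
    ndF1q2a ndF4q0 pcF3 Cut.none Ext.none :=
  certF0 (fam := true) (s1 := true) (s2 := true) (a := 2) (b := 0) (c := 3) (cn := .up) (n1 := ndF1q2a) (n2 := ndF4q0) (pc := pcF3) (cut := Cut.none) (xt := Ext.none) (P1 := 0) (W1 := 536870912) (P2 := 0) (W2 := 536870912) (P3 := 201326592) (W3 := 134217728)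
    rfl k0_pp_203_a

noncomputable def f_pp_203_b : ℕ → ℕ → ℕ → ℕ → Bool := onCell 1239849684 370763052 0 536870912 201326592 134217728
    (rowF 0 true true true .up 2 0 3 (qsf 1239849684 370763052 0 536870912 3) ndF1q2b ndF4q0 pcF3 Cut.none Ext.none)

def k0_pp_203_b : ∃ t, chk3 f_pp_203_b t 1 1 1 = true :=
  ⟨(l 4), by decide +kernel⟩

theorem c_pp_203_b : CertF 1239849684 370763052 0 536870912 201326592 134217728 true true true .up 2 0 3
    ndF1q2b ndF4q0 pcF3 Cut.none Ext.none :=
  certF0 (fam := true) (s1 := true) (s2 := true) (a := 2) (b := 0) (c := 3) (cn := .up) (n1 := ndF1q2b) (n2 := ndF4q0) (pc := pcF3) (cut := Cut.none) (xt := Ext.none) (P1 := 1239849684) (W1 := 370763052) (P2 := 0) (W2 := 536870912) (P3 := 201326592) (W3 := 134217728)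
    rfl k0_pp_203_b

noncomputable def f_pp_213_a : ℕ → ℕ → ℕ → ℕ → Bool := onCell 0 536870912 536870912 536870912 201326592 134217728
    (rowF 0 true true true .pnn 2 1 3 (qsf 0 536870912 536870912 536870912 3) ndF1q2a ndF4q1 pcF3 Cut.none Ext.none)

def k0_pp_213_a : ∃ t, chk3 f_pp_213_a t 1 1 1 = true :=
  ⟨(l 4), by decide +kernel⟩

theorem c_pp_213_a : CertF 0 536870912 536870912 536870912 201326592 134217728 true true true .pnn 2 1 3
    ndF1q2a ndF4q1 pcF3 Cut.none Ext.none :=
  certF0 (fam := true) (s1 := true) (s2 := true) (a := 2) (b := 1) (c := 3) (cn := .pnn) (n1 := ndF1q2a) (n2 := ndF4q1) (pc := pcF3) (cut := Cut.none) (xt := Ext.none) (P1 := 0) (W1 := 536870912) (P2 := 536870912) (W2 := 536870912) (P3 := 201326592) (W3 := 134217728)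
    rfl k0_pp_213_a

noncomputable def f_pp_213_b : ℕ → ℕ → ℕ → ℕ → Bool := onCell 1239849684 370763052 536870912 536870912 201326592 134217728
    (rowF 0 true true true .pnn 2 1 3 (qsf 1239849684 370763052 536870912 536870912 3) ndF1q2b ndF4q1 pcF3 Cut.none Ext.none)

def k0_pp_213_b : ∃ t, chk3 f_pp_213_b t 1 1 1 = true :=
  ⟨(l 4), by decide +kernel⟩

theorem c_pp_213_b : CertF 1239849684 370763052 536870912 536870912 201326592 134217728 true true true .pnn 2 1 3
    ndF1q2b ndF4q1 pcF3 Cut.none Ext.none :=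
  certF0 (fam := true) (s1 := true) (s2 := true) (a := 2) (b := 1) (c := 3) (cn := .pnn) (n1 := ndF1q2b) (n2 := ndF4q1) (pc := pcF3) (cut := Cut.none) (xt := Ext.none) (P1 := 1239849684) (W1 := 370763052) (P2 := 536870912) (W2 := 536870912) (P3 := 201326592) (W3 := 134217728)
    rfl k0_pp_213_b

noncomputable def f_pp_303 : ℕ → ℕ → ℕ → ℕ → Bool := onCell 1610612736 536870912 0 536870912 201326592 134217728
    (rowF 0 true true true .npn 3 0 3 (qsf 1610612736 536870912 0 536870912 3) ndF1q3 ndF4q0 pcF3 Cut.none Ext.none)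

def k0_pp_303 : ∃ t, chk3 f_pp_303 t 1 1 1 = true :=
  ⟨(l 4), by decide +kernel⟩

theorem c_pp_303 : CertF 1610612736 536870912 0 536870912 201326592 134217728 true true true .npn 3 0 3
    ndF1q3 ndF4q0 pcF3 Cut.none Ext.none :=
  certF0 (fam := true) (s1 := true) (s2 := true) (a := 3) (b := 0) (c := 3) (cn := .npn) (n1 := ndF1q3) (n2 := ndF4q0) (pc := pcF3) (cut := Cut.none) (xt := Ext.none) (P1 := 1610612736) (W1 := 536870912) (P2 := 0) (W2 := 536870912) (P3 := 201326592) (W3 := 134217728)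
    rfl k0_pp_303

noncomputable def f_pp_313 : ℕ → ℕ → ℕ → ℕ → Bool := onCell 1610612736 536870912 536870912 536870912 201326592 134217728
    (rowF 0 true true true .dn 3 1 3 (qsf 1610612736 536870912 536870912 536870912 3) ndF1q3 ndF4q1 pcF3 Cut.none Ext.none)

def k0_pp_313 : ∃ t, chk3 f_pp_313 t 1 1 1 = true :=
  ⟨(l 4), by decide +kernel⟩

theorem c_pp_313 : CertF 1610612736 536870912 536870912 536870912 201326592 134217728 true true true .dn 3 1 3
    ndF1q3 ndF4q1 pcF3 Cut.none Ext.none :=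
  certF0 (fam := true) (s1 := true) (s2 := true) (a := 3) (b := 1) (c := 3) (cn := .dn) (n1 := ndF1q3) (n2 := ndF4q1) (pc := pcF3) (cut := Cut.none) (xt := Ext.none) (P1 := 1610612736) (W1 := 536870912) (P2 := 536870912) (W2 := 536870912) (P3 := 201326592) (W3 := 134217728)
    rfl k0_pp_313

noncomputable def f_pm_001 : ℕ → ℕ → ℕ → ℕ → Bool := onCell 0 536870912 0 536870912 201326592 134217728
    (rowF 0 true true false .up 0 0 1 (qsf 0 536870912 0 536870912 1) ndF1q0 ndF4q0 pcF1 Cut.none Ext.none)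

def k0_pm_001 : ∃ t, chk3 f_pm_001 t 1 1 1 = true :=
  ⟨(a (l 3) (l 3)), by decide +kernel⟩

theorem c_pm_001 : CertF 0 536870912 0 536870912 201326592 134217728 true true false .up 0 0 1
    ndF1q0 ndF4q0 pcF1 Cut.none Ext.none :=
  certF0 (fam := true) (s1 := true) (s2 := false) (a := 0) (b := 0) (c := 1) (cn := .up) (n1 := ndF1q0) (n2 := ndF4q0) (pc := pcF1) (cut := Cut.none) (xt := Ext.none) (P1 := 0) (W1 := 536870912) (P2 := 0) (W2 := 536870912) (P3 := 201326592) (W3 := 134217728)
    rfl k0_pm_001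

noncomputable def cut_pm_011 : Cut := Cut.of [[⟨0, 0, 0, 67108864⟩, ⟨1, 1, 0, 67108864⟩, ⟨2, 1, 0, 67108864⟩]]

noncomputable def f_pm_011 : ℕ → ℕ → ℕ → ℕ → Bool := onCell 0 536870912 536870912 536870912 201326592 134217728
    (rowF 1 true true false .pnn 0 1 1 (qsf 0 536870912 536870912 536870912 1) ndF1q0 ndF4q1 pcF1 cut_pm_011 Ext.none)

def k0_pm_011 : ∃ t, chk3 f_pm_011 t 1 1 1 = true :=
  ⟨(b (l 3) (b (l 3) (a (a (b (l 3) (a (b (l 3) (a (b (l 3) (l 6)) (l 3))) (l 3))) (l 3)) (l 3)))), by decide +kernel⟩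

theorem c_pm_011 : CertF 0 536870912 536870912 536870912 201326592 134217728 true true false .pnn 0 1 1
    ndF1q0 ndF4q1 pcF1 cut_pm_011 Ext.none :=
  certF1 (fam := true) (s1 := true) (s2 := false) (a := 0) (b := 1) (c := 1) (cn := .pnn) (n1 := ndF1q0) (n2 := ndF4q1) (pc := pcF1) (cut := cut_pm_011) (xt := Ext.none) (P1 := 0) (W1 := 536870912) (P2 := 536870912) (W2 := 536870912) (P3 := 201326592) (W3 := 134217728)
    rfl (fun _ => rfl) k0_pm_011

noncomputable def cut_pm_012 : Cut := Cut.of [[⟨0, 0, 0, 67108864⟩, ⟨1, 1, 0, 67108864⟩, ⟨2, 1, 0, 67108864⟩]]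

noncomputable def f_pm_012 : ℕ → ℕ → ℕ → ℕ → Bool := onCell 1073741824 536870912 536870912 536870912 201326592 134217728
    (rowF 2 true true false .pnp 0 1 2 (qsf 0 536870912 536870912 536870912 2) ndF1q0 ndF4q1 pcF2 cut_pm_012 Ext.none)

def k0_pm_012 : ∃ t, chk3 f_pm_012 t 1 1 1 = true :=
  ⟨(a (b (a (a (b (l 227265595415) (a (l 3) (l 17044488))) (a (b (l 17364768) (l 17177016)) (b (l 17438816) (l 17305232)))) (a (b (l 17531216) (a (l 17416240) (l 17508088))) (b (l 2) (l 17632512)))) (a (a (b (a (b (l 3) (l 3)) (b (l 16554904) (l 192367151255))) (a (b (a (l 3) (b (l 16629184) (l 16653408))) (a (b (a (l 3) (l 16720952)) (l 6)) (b (b (l 16672576) (l 16693352)) (b (a (l 6) (l 16691592)) (l 6))))) (b (a (b (l 16595064) (l 16619992)) (l 16643568)) (b (a (b (l 16639736) (l 16652960)) (l 16636648)) (b (a (l 16687776) (l 16633808)) (a (b (l 16676984) (l 6)) (c (l 16650720) (l 16642800)))))))) (b (a (b (l 16774456) (a (l 16511024) (l 16486152))) (b (l 16987072) (l 16501624))) (b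 (a (b (l 16528232) (l 16569144)) (l 16514360)) (a (b (a (l 16584432) (l 16555728)) (b (l 16586496) (a (l 16613792) (l 16582416)))) (b (l 16518576) (c (l 16545528) (l 16526080))))))) (b (a (a (b (l 17180176) (l 16813720)) (l 17238856)) (b (l 17560000) (l 17407664))) (b (a (a (c (l 16599296) (l 16461504)) (l 16522512)) (l 17071848)) (a (b (a (l 16596528) (l 16448584)) (a (a (l 16500952) (l 16511584)) (l 16454864))) (b (l 16571760) (l 16391112))))))) (a (b (a (l 17714456) (l 2)) (b (a (l 17752112) (l 17918376)) (b (a (l 17572224) (l 17891984)) (a (c (l 17730248) (l 16710752)) (l 17752600))))) (b (l 2) (a (b (l 18019120) (b (l 18091288) (l 18073648))) (b (l 2) (l 18237208)))))), by decide +kernel⟩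

theorem c_pm_012 : CertF 0 536870912 536870912 536870912 201326592 134217728 true true false .pnp 0 1 2
    ndF1q0 ndF4q1 pcF2 cut_pm_012 Ext.none :=
  certF2 (fam := true) (s1 := true) (s2 := false) (a := 0) (b := 1) (c := 2) (cn := .pnp) (n1 := ndF1q0) (n2 := ndF4q1) (pc := pcF2) (cut := cut_pm_012) (xt := Ext.none) (P1 := 0) (W1 := 536870912) (P2 := 536870912) (W2 := 536870912) (P3 := 201326592) (W3 := 134217728)
    rfl (fun _ => rfl) k0_pm_012

noncomputable def f_pm_022 : ℕ → ℕ → ℕ → ℕ → Bool := onCell 0 536870912 1073741824 536870912 201326592 134217728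
    (rowF 1 true true false .pp 0 2 2 (qsf 0 536870912 1073741824 536870912 2) ndF1q0 ndF4q2 pcF2 Cut.none Ext.none)

def k0_pm_022 : ∃ t, chk3 f_pm_022 t 1 1 1 = true :=
  ⟨(b (b (l 3) (a (b (b (b (l 3) (b (l 3) (b (l 3) (a (b (a (b (l 3) (c (l 16582992) (l 16572112))) (l 16536608)) (a (c (l 16579408) (l 16568712)) (l 16531952))) (b (l 3) (l 16475864)))))) (a (a (a (c (l 16568504) (l 16537200)) (l 16537480)) (l 16491080)) (l 16496592))) (a (a (a (c (l 16514296) (l 16467176)) (l 16505416)) (l 16478008)) (l 16470928))) (b (l 1) (a (l 16494248) (l 1))))) (a (b (a (a (b (a (c (l 17142944) (l 16268456)) (l 16676480)) (c (l 17576512) (l 16831224))) (b (l 16658288) (l 17182880))) (b (l 16676896) (l 17184720))) (a (c (l 17934552) (a (l 17343392) (l 17327264))) (l 17606968))) (b (a (b (l 16808592) (l 17249624)) (l 279207825015)) (a (l 17614112) (l 17661016))))), by decide +kernel⟩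

theorem c_pm_022 : CertF 0 536870912 1073741824 536870912 201326592 134217728 true true false .pp 0 2 2
    ndF1q0 ndF4q2 pcF2 Cut.none Ext.none :=
  certF1 (fam := true) (s1 := true) (s2 := false) (a := 0) (b := 2) (c := 2) (cn := .pp) (n1 := ndF1q0) (n2 := ndF4q2) (pc := pcF2) (cut := Cut.none) (xt := Ext.none) (P1 := 0) (W1 := 536870912) (P2 := 1073741824) (W2 := 536870912) (P3 := 201326592) (W3 := 134217728)
    rfl (fun _ => rfl) k0_pm_022

noncomputable def f_pm_023 : ℕ → ℕ → ℕ → ℕ → Bool := onCell 1610612736 536870912 1073741824 536870912 201326592 134217728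
    (rowF 2 true true false .up 0 2 3 (qsf 0 536870912 1073741824 536870912 3) ndF1q0 ndF4q2 pcF3 Cut.none Ext.none)

def k0_pm_023 : ∃ t, chk3 f_pm_023 t 1 1 1 = true :=
  ⟨(b (a (a (l 17820896) (l 17849352)) (a (b (l 2) (l 17794864)) (l 2))) (a (a (b (l 17832712) (a (l 17840280) (l 17886080))) (a (l 17872696) (l 18020592))) (a (b (l 17787048) (l 17802320)) (a (l 17710784) (a (l 17676368) (a (l 17657592) (a (l 17641808) (l 17625440)))))))), by decide +kernel⟩

theorem c_pm_023 : CertF 0 536870912 1073741824 536870912 201326592 134217728 true true false .up 0 2 3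
    ndF1q0 ndF4q2 pcF3 Cut.none Ext.none :=
  certF2 (fam := true) (s1 := true) (s2 := false) (a := 0) (b := 2) (c := 3) (cn := .up) (n1 := ndF1q0) (n2 := ndF4q2) (pc := pcF3) (cut := Cut.none) (xt := Ext.none) (P1 := 0) (W1 := 536870912) (P2 := 1073741824) (W2 := 536870912) (P3 := 201326592) (W3 := 134217728)
    rfl (fun _ => rfl) k0_pm_023

noncomputable def f_pm_033 : ℕ → ℕ → ℕ → ℕ → Bool := onCell 1610612736 536870912 0 1230186008 201326592 134217728
    (rowF 2 true true false .pnn 0 3 3 (qsf 0 536870912 0 1230186008 3) ndF1q0 ndF4q3 pcF3 Cut.none Ext.none)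

def k0_pm_033 : ∃ t, chk3 f_pm_033 t 1 1 1 = true :=
  ⟨(b (a (l 1) (a (l 1) (b (l 4) (a (l 17694880) (l 4))))) (b (a (b (l 1) (a (l 1) (a (l 1) (a (l 1) (l 17972432))))) (a (a (b (l 1) (b (l 17674424) (l 17657384))) (c (l 17863664) (l 200288397575))) (a (b (l 17532736) (l 17486616)) (l 4)))) (a (b (a (l 1) (a (b (l 708169005831) (l 591131083879)) (b (l 17753984) (l 17733528)))) (a (a (b (l 1) (c (l 17944344) (l 359739212983))) (b (l 535296268487) (l 17775272))) (a (b (l 17791416) (l 17711136)) (b (l 17689480) (l 17630320))))) (a (b (a (a (l 17647120) (l 17600384)) (l 17530440)) (b (l 17538032) (l 17488712))) (a (b (l 17439096) (l 17381088)) (a (l 17347336) (a (l 17319608) (l 4)))))))), by decide +kernel⟩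

theorem c_pm_033 : CertF 0 536870912 0 1230186008 201326592 134217728 true true false .pnn 0 3 3
    ndF1q0 ndF4q3 pcF3 Cut.none Ext.none :=
  certF2 (fam := true) (s1 := true) (s2 := false) (a := 0) (b := 3) (c := 3) (cn := .pnn) (n1 := ndF1q0) (n2 := ndF4q3) (pc := pcF3) (cut := Cut.none) (xt := Ext.none) (P1 := 0) (W1 := 536870912) (P2 := 0) (W2 := 1230186008) (P3 := 201326592) (W3 := 134217728)
    rfl (fun _ => rfl) k0_pm_033

noncomputable def f_pm_101 : ℕ → ℕ → ℕ → ℕ → Bool := onCell 536870912 536870912 0 536870912 201326592 134217728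
    (rowF 2 true true false .npn 1 0 1 (qsf 536870912 536870912 0 536870912 1) ndF1q1 ndF4q0 pcF1 Cut.none Ext.none)

def k0_pm_101 : ∃ t, chk3 f_pm_101 t 1 1 1 = true :=
  ⟨(a (l 3) (b (l 3) (l 3))), by decide +kernel⟩

theorem c_pm_101 : CertF 536870912 536870912 0 536870912 201326592 134217728 true true false .npn 1 0 1
    ndF1q1 ndF4q0 pcF1 Cut.none Ext.none :=
  certF2 (fam := true) (s1 := true) (s2 := false) (a := 1) (b := 0) (c := 1) (cn := .npn) (n1 := ndF1q1) (n2 := ndF4q0) (pc := pcF1) (cut := Cut.none) (xt := Ext.none) (P1 := 536870912) (W1 := 536870912) (P2 := 0) (W2 := 536870912) (P3 := 201326592) (W3 := 134217728)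
    rfl (fun _ => rfl) k0_pm_101

noncomputable def f_pm_102 : ℕ → ℕ → ℕ → ℕ → Bool := onCell 536870912 536870912 1073741824 536870912 201326592 134217728
    (rowF 1 true true false .npp 1 0 2 (qsf 536870912 536870912 0 536870912 2) ndF1q1 ndF4q0 pcF2 Cut.none Ext.none)

def k0_pm_102 : ∃ t, chk3 f_pm_102 t 1 1 1 = true :=
  ⟨(a (b (b (b (a (c (l 17292296) (l 17146592)) (l 210085857255)) (c (b (l 17287008) (l 17264160)) (b (l 17180120) (l 17174896)))) (b (a (l 17144824) (b (l 17243344) (l 17220808))) (l 17306376))) (b (b (l 17115824) (l 2)) (l 2))) (b (a (b (b (l 220823415527) (b (l 17372024) (l 17358448))) (b (b (l 17350920) (l 17337512)) (l 17323984))) (b (b (c (l 17545600) (l 17559000)) (b (l 17467344) (l 17505128))) (b (b (b (l 17492048) (l 17497416)) (l 17502296)) (l 17504128)))) (b (b (a (l 17298608) (l 17493496)) (a (l 17265968) (l 17491936))) (b (a (l 17237240) (l 17397792)) (l 17257792))))), by decide +kernel⟩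

theorem c_pm_102 : CertF 536870912 536870912 0 536870912 201326592 134217728 true true false .npp 1 0 2
    ndF1q1 ndF4q0 pcF2 Cut.none Ext.none :=
  certF1 (fam := true) (s1 := true) (s2 := false) (a := 1) (b := 0) (c := 2) (cn := .npp) (n1 := ndF1q1) (n2 := ndF4q0) (pc := pcF2) (cut := Cut.none) (xt := Ext.none) (P1 := 536870912) (W1 := 536870912) (P2 := 0) (W2 := 536870912) (P3 := 201326592) (W3 := 134217728)
    rfl (fun _ => rfl) k0_pm_102

noncomputable def f_pm_112 : ℕ → ℕ → ℕ → ℕ → Bool := onCell 536870912 536870912 1073741824 536870912 201326592 134217728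
    (rowF 1 true true false .dn 1 1 2 (qsf 536870912 536870912 536870912 536870912 2) ndF1q1 ndF4q1 pcF2 Cut.none Ext.none)

def k0_pm_112 : ∃ t, chk3 f_pm_112 t 1 1 1 = true :=
  ⟨(a (b (b (b (b (l 3) (l 17576064)) (b (l 17633424) (a (l 17645336) (l 17717912)))) (b (b (a (l 17708384) (l 17750240)) (l 17773352)) (l 17837896))) (b (b (l 17917664) (l 17989648)) (b (a (l 18134384) (l 17987952)) (l 18125400)))) (b (b (l 1) (b (l 1) (l 17819944))) (b (b (l 17818384) (l 17796880)) (b (l 17786216) (l 17790688))))), by decide +kernel⟩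

theorem c_pm_112 : CertF 536870912 536870912 536870912 536870912 201326592 134217728 true true false .dn 1 1 2
    ndF1q1 ndF4q1 pcF2 Cut.none Ext.none :=
  certF1 (fam := true) (s1 := true) (s2 := false) (a := 1) (b := 1) (c := 2) (cn := .dn) (n1 := ndF1q1) (n2 := ndF4q1) (pc := pcF2) (cut := Cut.none) (xt := Ext.none) (P1 := 536870912) (W1 := 536870912) (P2 := 536870912) (W2 := 536870912) (P3 := 201326592) (W3 := 134217728)
    rfl (fun _ => rfl) k0_pm_112

noncomputable def f_pm_113 : ℕ → ℕ → ℕ → ℕ → Bool := onCell 536870912 536870912 1610612736 536870912 201326592 134217728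
    (rowF 1 true true false .nn 1 1 3 (qsf 536870912 536870912 536870912 536870912 3) ndF1q1 ndF4q1 pcF3 Cut.none Ext.none)

def k0_pm_113 : ∃ t, chk3 f_pm_113 t 1 1 1 = true :=
  ⟨(a (b (b (a (l 18327272) (l 18077032)) (a (l 18477296) (l 18168424))) (b (a (l 2) (l 18272000)) (l 2))) (b (b (a (l 17806768) (l 17601600)) (a (l 17872336) (l 17638424))) (b (b (l 17795632) (l 17831856)) (b (l 17815752) (b (l 17852336) (b (l 17892376) (l 4))))))), by decide +kernel⟩

theorem c_pm_113 : CertF 536870912 536870912 536870912 536870912 201326592 134217728 true true false .nn 1 1 3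
    ndF1q1 ndF4q1 pcF3 Cut.none Ext.none :=
  certF1 (fam := true) (s1 := true) (s2 := false) (a := 1) (b := 1) (c := 3) (cn := .nn) (n1 := ndF1q1) (n2 := ndF4q1) (pc := pcF3) (cut := Cut.none) (xt := Ext.none) (P1 := 536870912) (W1 := 536870912) (P2 := 536870912) (W2 := 536870912) (P3 := 201326592) (W3 := 134217728)
    rfl (fun _ => rfl) k0_pm_113

noncomputable def f_pm_123 : ℕ → ℕ → ℕ → ℕ → Bool := onCell 536870912 536870912 1610612736 536870912 201326592 134217728
    (rowF 1 true true false .npn 1 2 3 (qsf 536870912 536870912 1073741824 536870912 3) ndF1q1 ndF4q2 pcF3 Cut.none Ext.none)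

def k0_pm_123 : ∃ t, chk3 f_pm_123 t 1 1 1 = true :=
  ⟨(b (a (a (l 17847944) (l 17706424)) (a (l 17738496) (l 1))) (b (a (a (l 17363032) (l 17408592)) (l 17461640)) (b (a (l 17254400) (l 17292944)) (b (a (l 17204864) (l 17211672)) (a (b (l 17175984) (b (l 17163096) (l 17144056))) (b (l 17171176) (b (l 17150960) (l 17179192)))))))), by decide +kernel⟩

theorem c_pm_123 : CertF 536870912 536870912 1073741824 536870912 201326592 134217728 true true false .npn 1 2 3
    ndF1q1 ndF4q2 pcF3 Cut.none Ext.none :=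
  certF1 (fam := true) (s1 := true) (s2 := false) (a := 1) (b := 2) (c := 3) (cn := .npn) (n1 := ndF1q1) (n2 := ndF4q2) (pc := pcF3) (cut := Cut.none) (xt := Ext.none) (P1 := 536870912) (W1 := 536870912) (P2 := 1073741824) (W2 := 536870912) (P3 := 201326592) (W3 := 134217728)
    rfl (fun _ => rfl) k0_pm_123

noncomputable def f_pm_133 : ℕ → ℕ → ℕ → ℕ → Bool := onCell 536870912 536870912 0 1230186008 201326592 134217728
    (rowF 0 true true false .dn 1 3 3 (qsf 536870912 536870912 0 1230186008 3) ndF1q1 ndF4q3 pcF3 Cut.none Ext.none)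

def k0_pm_133 : ∃ t, chk3 f_pm_133 t 1 1 1 = true :=
  ⟨(b (l 2) (b (l 2) (a (b (l 2) (l 4)) (l 2)))), by decide +kernel⟩

theorem c_pm_133 : CertF 536870912 536870912 0 1230186008 201326592 134217728 true true false .dn 1 3 3
    ndF1q1 ndF4q3 pcF3 Cut.none Ext.none :=
  certF0 (fam := true) (s1 := true) (s2 := false) (a := 1) (b := 3) (c := 3) (cn := .dn) (n1 := ndF1q1) (n2 := ndF4q3) (pc := pcF3) (cut := Cut.none) (xt := Ext.none) (P1 := 536870912) (W1 := 536870912) (P2 := 0) (W2 := 1230186008) (P3 := 201326592) (W3 := 134217728)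
    rfl k0_pm_133

noncomputable def f_pm_202_a : ℕ → ℕ → ℕ → ℕ → Bool := onCell 0 536870912 1073741824 536870912 201326592 134217728
    (rowF 1 true true false .pp 2 0 2 (qsf 0 536870912 0 536870912 2) ndF1q2a ndF4q0 pcF2 Cut.none Ext.none)

def k0_pm_202_a : ∃ t, chk3 f_pm_202_a t 1 1 1 = true :=
  ⟨(a (b (b (a (l 1) (b (l 1) (b (l 1) (a (l 1) (l 17634480))))) (b (a (l 17666232) (l 17702536)) (l 17765328))) (b (b (l 17822832) (l 17689304)) (b (l 17556304) (l 17422136)))) (b (a (b (b (l 1) (b (c (l 17711112) (l 17555400)) (a (l 17682192) (l 17733456)))) (b (b (l 17753168) (l 17801128)) (l 17876800))) (b (b (c (a (l 17768304) (l 17912432)) (a (l 186866526647) (l 17751688))) (b (a (l 17751392) (l 17820176)) (a (l 17799112) (l 17804104)))) (b (b (a (l 17855832) (l 17794360)) (l 17798616)) (l 17769608)))) (b (a (l 17724472) (l 17692776)) (b (l 17568328) (l 17453144))))), by decide +kernel⟩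

theorem c_pm_202_a : CertF 0 536870912 0 536870912 201326592 134217728 true true false .pp 2 0 2
    ndF1q2a ndF4q0 pcF2 Cut.none Ext.none :=
  certF1 (fam := true) (s1 := true) (s2 := false) (a := 2) (b := 0) (c := 2) (cn := .pp) (n1 := ndF1q2a) (n2 := ndF4q0) (pc := pcF2) (cut := Cut.none) (xt := Ext.none) (P1 := 0) (W1 := 536870912) (P2 := 0) (W2 := 536870912) (P3 := 201326592) (W3 := 134217728)
    rfl (fun _ => rfl) k0_pm_202_a

noncomputable def f_pm_202_b : ℕ → ℕ → ℕ → ℕ → Bool := onCell 1073741824 536870912 0 536870912 201326592 134217728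
    (rowF 2 true true false .pp 2 0 2 (qsf 1239849684 370763052 0 536870912 2) ndF1q2b ndF4q0 pcF2 Cut.none Ext.none)

def k0_pm_202_b : ∃ t, chk3 f_pm_202_b t 1 1 1 = true :=
  ⟨(a (b (a (l 1) (b (a (b (l 17727616) (l 1)) (b (l 17674144) (l 17792304))) (l 1))) (l 1)) (a (b (b (a (l 17655296) (l 17565928)) (a (l 17687472) (l 17667440))) (l 1)) (b (a (b (l 17448080) (l 4)) (l 4)) (l 4)))), by decide +kernel⟩

theorem c_pm_202_b : CertF 1239849684 370763052 0 536870912 201326592 134217728 true true false .pp 2 0 2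
    ndF1q2b ndF4q0 pcF2 Cut.none Ext.none :=
  certF2 (fam := true) (s1 := true) (s2 := false) (a := 2) (b := 0) (c := 2) (cn := .pp) (n1 := ndF1q2b) (n2 := ndF4q0) (pc := pcF2) (cut := Cut.none) (xt := Ext.none) (P1 := 1239849684) (W1 := 370763052) (P2 := 0) (W2 := 536870912) (P3 := 201326592) (W3 := 134217728)
    rfl (fun _ => rfl) k0_pm_202_b

noncomputable def f_pm_203_a : ℕ → ℕ → ℕ → ℕ → Bool := onCell 0 536870912 1610612736 536870912 201326592 134217728
    (rowF 1 true true false .up 2 0 3 (qsf 0 536870912 0 536870912 3) ndF1q2a ndF4q0 pcF3 Cut.none Ext.none)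

def k0_pm_203_a : ∃ t, chk3 f_pm_203_a t 1 1 1 = true :=
  ⟨(a (b (l 4) (l 2)) (b (b (b (c (l 17300512) (l 17310184)) (a (l 4) (l 17211800))) (l 4)) (l 2))), by decide +kernel⟩

theorem c_pm_203_a : CertF 0 536870912 0 536870912 201326592 134217728 true true false .up 2 0 3
    ndF1q2a ndF4q0 pcF3 Cut.none Ext.none :=
  certF1 (fam := true) (s1 := true) (s2 := false) (a := 2) (b := 0) (c := 3) (cn := .up) (n1 := ndF1q2a) (n2 := ndF4q0) (pc := pcF3) (cut := Cut.none) (xt := Ext.none) (P1 := 0) (W1 := 536870912) (P2 := 0) (W2 := 536870912) (P3 := 201326592) (W3 := 134217728)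
    rfl (fun _ => rfl) k0_pm_203_a

noncomputable def f_pm_203_b : ℕ → ℕ → ℕ → ℕ → Bool := onCell 1239849684 370763052 1610612736 536870912 201326592 134217728
    (rowF 1 true true false .up 2 0 3 (qsf 1239849684 370763052 0 536870912 3) ndF1q2b ndF4q0 pcF3 Cut.none Ext.none)

def k0_pm_203_b : ∃ t, chk3 f_pm_203_b t 1 1 1 = true :=
  ⟨(l 4), by decide +kernel⟩

theorem c_pm_203_b : CertF 1239849684 370763052 0 536870912 201326592 134217728 true true false .up 2 0 3
    ndF1q2b ndF4q0 pcF3 Cut.none Ext.none :=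
  certF1 (fam := true) (s1 := true) (s2 := false) (a := 2) (b := 0) (c := 3) (cn := .up) (n1 := ndF1q2b) (n2 := ndF4q0) (pc := pcF3) (cut := Cut.none) (xt := Ext.none) (P1 := 1239849684) (W1 := 370763052) (P2 := 0) (W2 := 536870912) (P3 := 201326592) (W3 := 134217728)
    rfl (fun _ => rfl) k0_pm_203_b

noncomputable def f_pm_213_a : ℕ → ℕ → ℕ → ℕ → Bool := onCell 0 536870912 1610612736 536870912 201326592 134217728
    (rowF 1 true true false .pnn 2 1 3 (qsf 0 536870912 536870912 536870912 3) ndF1q2a ndF4q1 pcF3 Cut.none Ext.none)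

def k0_pm_213_a : ∃ t, chk3 f_pm_213_a t 1 1 1 = true :=
  ⟨(b (a (l 4) (b (b (a (l 1) (l 17766096)) (a (l 4) (l 17701632))) (l 4))) (l 4)), by decide +kernel⟩

theorem c_pm_213_a : CertF 0 536870912 536870912 536870912 201326592 134217728 true true false .pnn 2 1 3
    ndF1q2a ndF4q1 pcF3 Cut.none Ext.none :=
  certF1 (fam := true) (s1 := true) (s2 := false) (a := 2) (b := 1) (c := 3) (cn := .pnn) (n1 := ndF1q2a) (n2 := ndF4q1) (pc := pcF3) (cut := Cut.none) (xt := Ext.none) (P1 := 0) (W1 := 536870912) (P2 := 536870912) (W2 := 536870912) (P3 := 201326592) (W3 := 134217728)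
    rfl (fun _ => rfl) k0_pm_213_a

noncomputable def f_pm_213_b : ℕ → ℕ → ℕ → ℕ → Bool := onCell 1239849684 370763052 536870912 536870912 201326592 134217728
    (rowF 0 true true false .pnn 2 1 3 (qsf 1239849684 370763052 536870912 536870912 3) ndF1q2b ndF4q1 pcF3 Cut.none Ext.none)

def k0_pm_213_b : ∃ t, chk3 f_pm_213_b t 1 1 1 = true :=
  ⟨(l 4), by decide +kernel⟩

theorem c_pm_213_b : CertF 1239849684 370763052 536870912 536870912 201326592 134217728 true true false .pnn 2 1 3
    ndF1q2b ndF4q1 pcF3 Cut.none Ext.none :=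
  certF0 (fam := true) (s1 := true) (s2 := false) (a := 2) (b := 1) (c := 3) (cn := .pnn) (n1 := ndF1q2b) (n2 := ndF4q1) (pc := pcF3) (cut := Cut.none) (xt := Ext.none) (P1 := 1239849684) (W1 := 370763052) (P2 := 536870912) (W2 := 536870912) (P3 := 201326592) (W3 := 134217728)
    rfl k0_pm_213_b

noncomputable def f_pm_303 : ℕ → ℕ → ℕ → ℕ → Bool := onCell 1610612736 536870912 0 536870912 201326592 134217728
    (rowF 2 true true false .npn 3 0 3 (qsf 1610612736 536870912 0 536870912 3) ndF1q3 ndF4q0 pcF3 Cut.none Ext.none)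

def k0_pm_303 : ∃ t, chk3 f_pm_303 t 1 1 1 = true :=
  ⟨(l 4), by decide +kernel⟩

theorem c_pm_303 : CertF 1610612736 536870912 0 536870912 201326592 134217728 true true false .npn 3 0 3
    ndF1q3 ndF4q0 pcF3 Cut.none Ext.none :=
  certF2 (fam := true) (s1 := true) (s2 := false) (a := 3) (b := 0) (c := 3) (cn := .npn) (n1 := ndF1q3) (n2 := ndF4q0) (pc := pcF3) (cut := Cut.none) (xt := Ext.none) (P1 := 1610612736) (W1 := 536870912) (P2 := 0) (W2 := 536870912) (P3 := 201326592) (W3 := 134217728)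
    rfl (fun _ => rfl) k0_pm_303

noncomputable def f_pm_313 : ℕ → ℕ → ℕ → ℕ → Bool := onCell 1610612736 536870912 536870912 536870912 201326592 134217728
    (rowF 0 true true false .dn 3 1 3 (qsf 1610612736 536870912 536870912 536870912 3) ndF1q3 ndF4q1 pcF3 Cut.none Ext.none)

def k0_pm_313 : ∃ t, chk3 f_pm_313 t 1 1 1 = true :=
  ⟨(l 4), by decide +kernel⟩

theorem c_pm_313 : CertF 1610612736 536870912 536870912 536870912 201326592 134217728 true true false .dn 3 1 3
    ndF1q3 ndF4q1 pcF3 Cut.none Ext.none :=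
  certF0 (fam := true) (s1 := true) (s2 := false) (a := 3) (b := 1) (c := 3) (cn := .dn) (n1 := ndF1q3) (n2 := ndF4q1) (pc := pcF3) (cut := Cut.none) (xt := Ext.none) (P1 := 1610612736) (W1 := 536870912) (P2 := 536870912) (W2 := 536870912) (P3 := 201326592) (W3 := 134217728)
    rfl k0_pm_313

noncomputable def f_mm_001 : ℕ → ℕ → ℕ → ℕ → Bool := onCell 0 536870912 0 536870912 201326592 134217728
    (rowF 0 true false false .up 0 0 1 (qsf 0 536870912 0 536870912 1) ndF1q0 ndF4q0 pcF1 Cut.none Ext.none)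

def k0_mm_001 : ∃ t, chk3 f_mm_001 t 1 1 1 = true :=
  ⟨(l 4), by decide +kernel⟩

theorem c_mm_001 : CertF 0 536870912 0 536870912 201326592 134217728 true false false .up 0 0 1
    ndF1q0 ndF4q0 pcF1 Cut.none Ext.none :=
  certF0 (fam := true) (s1 := false) (s2 := false) (a := 0) (b := 0) (c := 1) (cn := .up) (n1 := ndF1q0) (n2 := ndF4q0) (pc := pcF1) (cut := Cut.none) (xt := Ext.none) (P1 := 0) (W1 := 536870912) (P2 := 0) (W2 := 536870912) (P3 := 201326592) (W3 := 134217728)
    rfl k0_mm_001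

noncomputable def f_mm_011 : ℕ → ℕ → ℕ → ℕ → Bool := onCell 0 536870912 536870912 536870912 201326592 134217728
    (rowF 0 true false false .pnn 0 1 1 (qsf 0 536870912 536870912 536870912 1) ndF1q0 ndF4q1 pcF1 Cut.none Ext.none)

def k0_mm_011 : ∃ t, chk3 f_mm_011 t 1 1 1 = true :=
  ⟨(l 4), by decide +kernel⟩

theorem c_mm_011 : CertF 0 536870912 536870912 536870912 201326592 134217728 true false false .pnn 0 1 1
    ndF1q0 ndF4q1 pcF1 Cut.none Ext.none :=
  certF0 (fam := true) (s1 := false) (s2 := false) (a := 0) (b := 1) (c := 1) (cn := .pnn) (n1 := ndF1q0) (n2 := ndF4q1) (pc := pcF1) (cut := Cut.none) (xt := Ext.none) (P1 := 0) (W1 := 536870912) (P2 := 536870912) (W2 := 536870912) (P3 := 201326592) (W3 := 134217728)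
    rfl k0_mm_011

noncomputable def f_mm_012 : ℕ → ℕ → ℕ → ℕ → Bool := onCell 0 536870912 536870912 536870912 201326592 134217728
    (rowF 0 true false false .pnp 0 1 2 (qsf 0 536870912 536870912 536870912 2) ndF1q0 ndF4q1 pcF2 Cut.none Ext.none)

def k0_mm_012 : ∃ t, chk3 f_mm_012 t 1 1 1 = true :=
  ⟨(l 4), by decide +kernel⟩

theorem c_mm_012 : CertF 0 536870912 536870912 536870912 201326592 134217728 true false false .pnp 0 1 2
    ndF1q0 ndF4q1 pcF2 Cut.none Ext.none :=
  certF0 (fam := true) (s1 := false) (s2 := false) (a := 0) (b := 1) (c := 2) (cn := .pnp) (n1 := ndF1q0) (n2 := ndF4q1) (pc := pcF2) (cut := Cut.none) (xt := Ext.none) (P1 := 0) (W1 := 536870912) (P2 := 536870912) (W2 := 536870912) (P3 := 201326592) (W3 := 134217728)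
    rfl k0_mm_012

noncomputable def f_mm_022 : ℕ → ℕ → ℕ → ℕ → Bool := onCell 0 536870912 1073741824 536870912 201326592 134217728
    (rowF 0 true false false .pp 0 2 2 (qsf 0 536870912 1073741824 536870912 2) ndF1q0 ndF4q2 pcF2 Cut.none Ext.none)

def k0_mm_022 : ∃ t, chk3 f_mm_022 t 1 1 1 = true :=
  ⟨(l 4), by decide +kernel⟩

theorem c_mm_022 : CertF 0 536870912 1073741824 536870912 201326592 134217728 true false false .pp 0 2 2
    ndF1q0 ndF4q2 pcF2 Cut.none Ext.none :=
  certF0 (fam := true) (s1 := false) (s2 := false) (a := 0) (b := 2) (c := 2) (cn := .pp) (n1 := ndF1q0) (n2 := ndF4q2) (pc := pcF2) (cut := Cut.none) (xt := Ext.none) (P1 := 0) (W1 := 536870912) (P2 := 1073741824) (W2 := 536870912) (P3 := 201326592) (W3 := 134217728)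
    rfl k0_mm_022

noncomputable def f_mm_023 : ℕ → ℕ → ℕ → ℕ → Bool := onCell 0 536870912 1073741824 536870912 201326592 134217728
    (rowF 0 true false false .up 0 2 3 (qsf 0 536870912 1073741824 536870912 3) ndF1q0 ndF4q2 pcF3 Cut.none Ext.none)

def k0_mm_023 : ∃ t, chk3 f_mm_023 t 1 1 1 = true :=
  ⟨(l 4), by decide +kernel⟩

theorem c_mm_023 : CertF 0 536870912 1073741824 536870912 201326592 134217728 true false false .up 0 2 3
    ndF1q0 ndF4q2 pcF3 Cut.none Ext.none :=
  certF0 (fam := true) (s1 := false) (s2 := false) (a := 0) (b := 2) (c := 3) (cn := .up) (n1 := ndF1q0) (n2 := ndF4q2) (pc := pcF3) (cut := Cut.none) (xt := Ext.none) (P1 := 0) (W1 := 536870912) (P2 := 1073741824) (W2 := 536870912) (P3 := 201326592) (W3 := 134217728)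
    rfl k0_mm_023

noncomputable def f_mm_033 : ℕ → ℕ → ℕ → ℕ → Bool := onCell 0 536870912 0 1230186008 201326592 134217728
    (rowF 0 true false false .pnn 0 3 3 (qsf 0 536870912 0 1230186008 3) ndF1q0 ndF4q3 pcF3 Cut.none Ext.none)

def k0_mm_033 : ∃ t, chk3 f_mm_033 t 1 1 1 = true :=
  ⟨(l 5), by decide +kernel⟩

theorem c_mm_033 : CertF 0 536870912 0 1230186008 201326592 134217728 true false false .pnn 0 3 3
    ndF1q0 ndF4q3 pcF3 Cut.none Ext.none :=
  certF0 (fam := true) (s1 := false) (s2 := false) (a := 0) (b := 3) (c := 3) (cn := .pnn) (n1 := ndF1q0) (n2 := ndF4q3) (pc := pcF3) (cut := Cut.none) (xt := Ext.none) (P1 := 0) (W1 := 536870912) (P2 := 0) (W2 := 1230186008) (P3 := 201326592) (W3 := 134217728)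
    rfl k0_mm_033

noncomputable def f_mm_101 : ℕ → ℕ → ℕ → ℕ → Bool := onCell 536870912 536870912 0 536870912 201326592 134217728
    (rowF 0 true false false .npn 1 0 1 (qsf 536870912 536870912 0 536870912 1) ndF1q1 ndF4q0 pcF1 Cut.none Ext.none)

def k0_mm_101 : ∃ t, chk3 f_mm_101 t 1 1 1 = true :=
  ⟨(l 4), by decide +kernel⟩

theorem c_mm_101 : CertF 536870912 536870912 0 536870912 201326592 134217728 true false false .npn 1 0 1
    ndF1q1 ndF4q0 pcF1 Cut.none Ext.none :=
  certF0 (fam := true) (s1 := false) (s2 := false) (a := 1) (b := 0) (c := 1) (cn := .npn) (n1 := ndF1q1) (n2 := ndF4q0) (pc := pcF1) (cut := Cut.none) (xt := Ext.none) (P1 := 536870912) (W1 := 536870912) (P2 := 0) (W2 := 536870912) (P3 := 201326592) (W3 := 134217728)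
    rfl k0_mm_101

noncomputable def f_mm_102 : ℕ → ℕ → ℕ → ℕ → Bool := onCell 536870912 536870912 0 536870912 201326592 134217728
    (rowF 0 true false false .npp 1 0 2 (qsf 536870912 536870912 0 536870912 2) ndF1q1 ndF4q0 pcF2 Cut.none Ext.none)

def k0_mm_102 : ∃ t, chk3 f_mm_102 t 1 1 1 = true :=
  ⟨(l 4), by decide +kernel⟩

theorem c_mm_102 : CertF 536870912 536870912 0 536870912 201326592 134217728 true false false .npp 1 0 2
    ndF1q1 ndF4q0 pcF2 Cut.none Ext.none :=
  certF0 (fam := true) (s1 := false) (s2 := false) (a := 1) (b := 0) (c := 2) (cn := .npp) (n1 := ndF1q1) (n2 := ndF4q0) (pc := pcF2) (cut := Cut.none) (xt := Ext.none) (P1 := 536870912) (W1 := 536870912) (P2 := 0) (W2 := 536870912) (P3 := 201326592) (W3 := 134217728)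
    rfl k0_mm_102

noncomputable def f_mm_112 : ℕ → ℕ → ℕ → ℕ → Bool := onCell 536870912 536870912 536870912 536870912 201326592 134217728
    (rowF 0 true false false .dn 1 1 2 (qsf 536870912 536870912 536870912 536870912 2) ndF1q1 ndF4q1 pcF2 Cut.none Ext.none)

def k0_mm_112 : ∃ t, chk3 f_mm_112 t 1 1 1 = true :=
  ⟨(l 4), by decide +kernel⟩

theorem c_mm_112 : CertF 536870912 536870912 536870912 536870912 201326592 134217728 true false false .dn 1 1 2
    ndF1q1 ndF4q1 pcF2 Cut.none Ext.none :=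
  certF0 (fam := true) (s1 := false) (s2 := false) (a := 1) (b := 1) (c := 2) (cn := .dn) (n1 := ndF1q1) (n2 := ndF4q1) (pc := pcF2) (cut := Cut.none) (xt := Ext.none) (P1 := 536870912) (W1 := 536870912) (P2 := 536870912) (W2 := 536870912) (P3 := 201326592) (W3 := 134217728)
    rfl k0_mm_112

noncomputable def f_mm_113 : ℕ → ℕ → ℕ → ℕ → Bool := onCell 536870912 536870912 536870912 536870912 201326592 134217728
    (rowF 0 true false false .nn 1 1 3 (qsf 536870912 536870912 536870912 536870912 3) ndF1q1 ndF4q1 pcF3 Cut.none Ext.none)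

def k0_mm_113 : ∃ t, chk3 f_mm_113 t 1 1 1 = true :=
  ⟨(l 4), by decide +kernel⟩

theorem c_mm_113 : CertF 536870912 536870912 536870912 536870912 201326592 134217728 true false false .nn 1 1 3
    ndF1q1 ndF4q1 pcF3 Cut.none Ext.none :=
  certF0 (fam := true) (s1 := false) (s2 := false) (a := 1) (b := 1) (c := 3) (cn := .nn) (n1 := ndF1q1) (n2 := ndF4q1) (pc := pcF3) (cut := Cut.none) (xt := Ext.none) (P1 := 536870912) (W1 := 536870912) (P2 := 536870912) (W2 := 536870912) (P3 := 201326592) (W3 := 134217728)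
    rfl k0_mm_113

noncomputable def f_mm_123 : ℕ → ℕ → ℕ → ℕ → Bool := onCell 536870912 536870912 1073741824 536870912 201326592 134217728
    (rowF 0 true false false .npn 1 2 3 (qsf 536870912 536870912 1073741824 536870912 3) ndF1q1 ndF4q2 pcF3 Cut.none Ext.none)

def k0_mm_123 : ∃ t, chk3 f_mm_123 t 1 1 1 = true :=
  ⟨(l 4), by decide +kernel⟩

theorem c_mm_123 : CertF 536870912 536870912 1073741824 536870912 201326592 134217728 true false false .npn 1 2 3
    ndF1q1 ndF4q2 pcF3 Cut.none Ext.none :=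
  certF0 (fam := true) (s1 := false) (s2 := false) (a := 1) (b := 2) (c := 3) (cn := .npn) (n1 := ndF1q1) (n2 := ndF4q2) (pc := pcF3) (cut := Cut.none) (xt := Ext.none) (P1 := 536870912) (W1 := 536870912) (P2 := 1073741824) (W2 := 536870912) (P3 := 201326592) (W3 := 134217728)
    rfl k0_mm_123

noncomputable def f_mm_133 : ℕ → ℕ → ℕ → ℕ → Bool := onCell 536870912 536870912 0 1230186008 201326592 134217728
    (rowF 0 true false false .dn 1 3 3 (qsf 536870912 536870912 0 1230186008 3) ndF1q1 ndF4q3 pcF3 Cut.none Ext.none)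

def k0_mm_133 : ∃ t, chk3 f_mm_133 t 1 1 1 = true :=
  ⟨(l 4), by decide +kernel⟩

theorem c_mm_133 : CertF 536870912 536870912 0 1230186008 201326592 134217728 true false false .dn 1 3 3
    ndF1q1 ndF4q3 pcF3 Cut.none Ext.none :=
  certF0 (fam := true) (s1 := false) (s2 := false) (a := 1) (b := 3) (c := 3) (cn := .dn) (n1 := ndF1q1) (n2 := ndF4q3) (pc := pcF3) (cut := Cut.none) (xt := Ext.none) (P1 := 536870912) (W1 := 536870912) (P2 := 0) (W2 := 1230186008) (P3 := 201326592) (W3 := 134217728)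
    rfl k0_mm_133

noncomputable def f_mm_202_a : ℕ → ℕ → ℕ → ℕ → Bool := onCell 0 536870912 0 536870912 201326592 134217728
    (rowF 0 true false false .pp 2 0 2 (qsf 0 536870912 0 536870912 2) ndF1q2a ndF4q0 pcF2 Cut.none Ext.none)

def k0_mm_202_a : ∃ t, chk3 f_mm_202_a t 1 1 1 = true :=
  ⟨(l 4), by decide +kernel⟩

theorem c_mm_202_a : CertF 0 536870912 0 536870912 201326592 134217728 true false false .pp 2 0 2
    ndF1q2a ndF4q0 pcF2 Cut.none Ext.none :=
  certF0 (fam := true) (s1 := false) (s2 := false) (a := 2) (b := 0) (c := 2) (cn := .pp) (n1 := ndF1q2a) (n2 := ndF4q0) (pc := pcF2) (cut := Cut.none) (xt := Ext.none) (P1 := 0) (W1 := 536870912) (P2 := 0) (W2 := 536870912) (P3 := 201326592) (W3 := 134217728)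
    rfl k0_mm_202_a

noncomputable def f_mm_202_b : ℕ → ℕ → ℕ → ℕ → Bool := onCell 1239849684 370763052 0 536870912 201326592 134217728
    (rowF 0 true false false .pp 2 0 2 (qsf 1239849684 370763052 0 536870912 2) ndF1q2b ndF4q0 pcF2 Cut.none Ext.none)

def k0_mm_202_b : ∃ t, chk3 f_mm_202_b t 1 1 1 = true :=
  ⟨(l 4), by decide +kernel⟩

theorem c_mm_202_b : CertF 1239849684 370763052 0 536870912 201326592 134217728 true false false .pp 2 0 2
    ndF1q2b ndF4q0 pcF2 Cut.none Ext.none :=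
  certF0 (fam := true) (s1 := false) (s2 := false) (a := 2) (b := 0) (c := 2) (cn := .pp) (n1 := ndF1q2b) (n2 := ndF4q0) (pc := pcF2) (cut := Cut.none) (xt := Ext.none) (P1 := 1239849684) (W1 := 370763052) (P2 := 0) (W2 := 536870912) (P3 := 201326592) (W3 := 134217728)
    rfl k0_mm_202_b

noncomputable def f_mm_203_a : ℕ → ℕ → ℕ → ℕ → Bool := onCell 0 536870912 0 536870912 201326592 134217728
    (rowF 0 true false false .up 2 0 3 (qsf 0 536870912 0 536870912 3) ndF1q2a ndF4q0 pcF3 Cut.none Ext.none)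

def k0_mm_203_a : ∃ t, chk3 f_mm_203_a t 1 1 1 = true :=
  ⟨(l 4), by decide +kernel⟩

theorem c_mm_203_a : CertF 0 536870912 0 536870912 201326592 134217728 true false false .up 2 0 3
    ndF1q2a ndF4q0 pcF3 Cut.none Ext.none :=
  certF0 (fam := true) (s1 := false) (s2 := false) (a := 2) (b := 0) (c := 3) (cn := .up) (n1 := ndF1q2a) (n2 := ndF4q0) (pc := pcF3) (cut := Cut.none) (xt := Ext.none) (P1 := 0) (W1 := 536870912) (P2 := 0) (W2 := 536870912) (P3 := 201326592) (W3 := 134217728)
    rfl k0_mm_203_a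

noncomputable def f_mm_203_b : ℕ → ℕ → ℕ → ℕ → Bool := onCell 1239849684 370763052 0 536870912 201326592 134217728
    (rowF 0 true false false .up 2 0 3 (qsf 1239849684 370763052 0 536870912 3) ndF1q2b ndF4q0 pcF3 Cut.none Ext.none)

def k0_mm_203_b : ∃ t, chk3 f_mm_203_b t 1 1 1 = true :=
  ⟨(l 4), by decide +kernel⟩

theorem c_mm_203_b : CertF 1239849684 370763052 0 536870912 201326592 134217728 true false false .up 2 0 3
    ndF1q2b ndF4q0 pcF3 Cut.none Ext.none :=
  certF0 (fam := true) (s1 := false) (s2 := false) (a := 2) (b := 0) (c := 3) (cn := .up) (n1 := ndF1q2b) (n2 := ndF4q0) (pc := pcF3) (cut := Cut.none) (xt := Ext.none) (P1 := 1239849684) (W1 := 370763052) (P2 := 0) (W2 := 536870912) (P3 := 201326592) (W3 := 134217728)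
    rfl k0_mm_203_b

noncomputable def f_mm_213_a : ℕ → ℕ → ℕ → ℕ → Bool := onCell 0 536870912 536870912 536870912 201326592 134217728
    (rowF 0 true false false .pnn 2 1 3 (qsf 0 536870912 536870912 536870912 3) ndF1q2a ndF4q1 pcF3 Cut.none Ext.none)

def k0_mm_213_a : ∃ t, chk3 f_mm_213_a t 1 1 1 = true :=
  ⟨(l 4), by decide +kernel⟩

theorem c_mm_213_a : CertF 0 536870912 536870912 536870912 201326592 134217728 true false false .pnn 2 1 3
    ndF1q2a ndF4q1 pcF3 Cut.none Ext.none :=
  certF0 (fam := true) (s1 := false) (s2 := false) (a := 2) (b := 1) (c := 3) (cn := .pnn) (n1 := ndF1q2a) (n2 := ndF4q1) (pc := pcF3) (cut := Cut.none) (xt := Ext.none) (P1 := 0) (W1 := 536870912) (P2 := 536870912) (W2 := 536870912) (P3 := 201326592) (W3 := 134217728)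
    rfl k0_mm_213_a

noncomputable def f_mm_213_b : ℕ → ℕ → ℕ → ℕ → Bool := onCell 1239849684 370763052 536870912 536870912 201326592 134217728
    (rowF 0 true false false .pnn 2 1 3 (qsf 1239849684 370763052 536870912 536870912 3) ndF1q2b ndF4q1 pcF3 Cut.none Ext.none)

def k0_mm_213_b : ∃ t, chk3 f_mm_213_b t 1 1 1 = true :=
  ⟨(l 4), by decide +kernel⟩

theorem c_mm_213_b : CertF 1239849684 370763052 536870912 536870912 201326592 134217728 true false false .pnn 2 1 3
    ndF1q2b ndF4q1 pcF3 Cut.none Ext.none :=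
  certF0 (fam := true) (s1 := false) (s2 := false) (a := 2) (b := 1) (c := 3) (cn := .pnn) (n1 := ndF1q2b) (n2 := ndF4q1) (pc := pcF3) (cut := Cut.none) (xt := Ext.none) (P1 := 1239849684) (W1 := 370763052) (P2 := 536870912) (W2 := 536870912) (P3 := 201326592) (W3 := 134217728)
    rfl k0_mm_213_b

noncomputable def f_mm_303 : ℕ → ℕ → ℕ → ℕ → Bool := onCell 1610612736 536870912 0 536870912 201326592 134217728
    (rowF 0 true false false .npn 3 0 3 (qsf 1610612736 536870912 0 536870912 3) ndF1q3 ndF4q0 pcF3 Cut.none Ext.none)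

def k0_mm_303 : ∃ t, chk3 f_mm_303 t 1 1 1 = true :=
  ⟨(l 4), by decide +kernel⟩

theorem c_mm_303 : CertF 1610612736 536870912 0 536870912 201326592 134217728 true false false .npn 3 0 3
    ndF1q3 ndF4q0 pcF3 Cut.none Ext.none :=
  certF0 (fam := true) (s1 := false) (s2 := false) (a := 3) (b := 0) (c := 3) (cn := .npn) (n1 := ndF1q3) (n2 := ndF4q0) (pc := pcF3) (cut := Cut.none) (xt := Ext.none) (P1 := 1610612736) (W1 := 536870912) (P2 := 0) (W2 := 536870912) (P3 := 201326592) (W3 := 134217728)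
    rfl k0_mm_303

noncomputable def f_mm_313 : ℕ → ℕ → ℕ → ℕ → Bool := onCell 1610612736 536870912 536870912 536870912 201326592 134217728
    (rowF 0 true false false .dn 3 1 3 (qsf 1610612736 536870912 536870912 536870912 3) ndF1q3 ndF4q1 pcF3 Cut.none Ext.none)

def k0_mm_313 : ∃ t, chk3 f_mm_313 t 1 1 1 = true :=
  ⟨(l 4), by decide +kernel⟩

theorem c_mm_313 : CertF 1610612736 536870912 536870912 536870912 201326592 134217728 true false false .dn 3 1 3
    ndF1q3 ndF4q1 pcF3 Cut.none Ext.none :=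
  certF0 (fam := true) (s1 := false) (s2 := false) (a := 3) (b := 1) (c := 3) (cn := .dn) (n1 := ndF1q3) (n2 := ndF4q1) (pc := pcF3) (cut := Cut.none) (xt := Ext.none) (P1 := 1610612736) (W1 := 536870912) (P2 := 536870912) (W2 := 536870912) (P3 := 201326592) (W3 := 134217728)
    rfl k0_mm_313

end Pool.Agent.Strip051.G.I3_16_5_16.Tab.C.FA14

namespace Pool.Agent.Strip051.G.I3_16_5_16.Tab.C.FA15

open Pool.Agent.Strip051.PB Pool.Agent.Strip051.PB.T
open Pool.Agent.Strip051.G.I3_16_5_16.Tab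

noncomputable def f_pp_001 : ℕ → ℕ → ℕ → ℕ → Bool := onCell 0 536870912 0 536870912 201326592 134217728
    (rowF 0 true true true .up 0 0 1 (qsf 0 536870912 0 536870912 1) ndF1q0 ndF5q0 pcF1 Cut.none Ext.none)

def k0_pp_001 : ∃ t, chk3 f_pp_001 t 1 1 1 = true :=
  ⟨(l 4), by decide +kernel⟩

theorem c_pp_001 : CertF 0 536870912 0 536870912 201326592 134217728 true true true .up 0 0 1
    ndF1q0 ndF5q0 pcF1 Cut.none Ext.none :=
  certF0 (fam := true) (s1 := true) (s2 := true) (a := 0) (b := 0) (c := 1) (cn := .up) (n1 := ndF1q0) (n2 := ndF5q0) (pc := pcF1) (cut := Cut.none) (xt := Ext.none) (P1 := 0) (W1 := 536870912) (P2 := 0) (W2 := 536870912) (P3 := 201326592) (W3 := 134217728)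
    rfl k0_pp_001

noncomputable def f_pp_011 : ℕ → ℕ → ℕ → ℕ → Bool := onCell 0 536870912 536870912 536870912 201326592 134217728
    (rowF 0 true true true .pnn 0 1 1 (qsf 0 536870912 536870912 536870912 1) ndF1q0 ndF5q1 pcF1 Cut.none Ext.none)

def k0_pp_011 : ∃ t, chk3 f_pp_011 t 1 1 1 = true :=
  ⟨(l 4), by decide +kernel⟩

theorem c_pp_011 : CertF 0 536870912 536870912 536870912 201326592 134217728 true true true .pnn 0 1 1
    ndF1q0 ndF5q1 pcF1 Cut.none Ext.none :=
  certF0 (fam := true) (s1 := true) (s2 := true) (a := 0) (b := 1) (c := 1) (cn := .pnn) (n1 := ndF1q0) (n2 := ndF5q1) (pc := pcF1) (cut := Cut.none) (xt := Ext.none) (P1 := 0) (W1 := 536870912) (P2 := 536870912) (W2 := 536870912) (P3 := 201326592) (W3 := 134217728)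
    rfl k0_pp_011

noncomputable def f_pp_012 : ℕ → ℕ → ℕ → ℕ → Bool := onCell 0 536870912 536870912 536870912 201326592 134217728
    (rowF 0 true true true .pnp 0 1 2 (qsf 0 536870912 536870912 536870912 2) ndF1q0 ndF5q1 pcF2 Cut.none Ext.none)

def k0_pp_012 : ∃ t, chk3 f_pp_012 t 1 1 1 = true :=
  ⟨(l 4), by decide +kernel⟩

theorem c_pp_012 : CertF 0 536870912 536870912 536870912 201326592 134217728 true true true .pnp 0 1 2
    ndF1q0 ndF5q1 pcF2 Cut.none Ext.none :=
  certF0 (fam := true) (s1 := true) (s2 := true) (a := 0) (b := 1) (c := 2) (cn := .pnp) (n1 := ndF1q0) (n2 := ndF5q1) (pc := pcF2) (cut := Cut.none) (xt := Ext.none) (P1 := 0) (W1 := 536870912) (P2 := 536870912) (W2 := 536870912) (P3 := 201326592) (W3 := 134217728)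
    rfl k0_pp_012

noncomputable def f_pp_022 : ℕ → ℕ → ℕ → ℕ → Bool := onCell 0 536870912 1073741824 536870912 201326592 134217728
    (rowF 0 true true true .pp 0 2 2 (qsf 0 536870912 1073741824 536870912 2) ndF1q0 ndF5q2 pcF2 Cut.none Ext.none)

def k0_pp_022 : ∃ t, chk3 f_pp_022 t 1 1 1 = true :=
  ⟨(l 4), by decide +kernel⟩

theorem c_pp_022 : CertF 0 536870912 1073741824 536870912 201326592 134217728 true true true .pp 0 2 2
    ndF1q0 ndF5q2 pcF2 Cut.none Ext.none :=
  certF0 (fam := true) (s1 := true) (s2 := true) (a := 0) (b := 2) (c := 2) (cn := .pp) (n1 := ndF1q0) (n2 := ndF5q2) (pc := pcF2) (cut := Cut.none) (xt := Ext.none) (P1 := 0) (W1 := 536870912) (P2 := 1073741824) (W2 := 536870912) (P3 := 201326592) (W3 := 134217728)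
    rfl k0_pp_022

noncomputable def f_pp_023 : ℕ → ℕ → ℕ → ℕ → Bool := onCell 0 536870912 1073741824 536870912 201326592 134217728
    (rowF 0 true true true .up 0 2 3 (qsf 0 536870912 1073741824 536870912 3) ndF1q0 ndF5q2 pcF3 Cut.none Ext.none)

def k0_pp_023 : ∃ t, chk3 f_pp_023 t 1 1 1 = true :=
  ⟨(l 4), by decide +kernel⟩

theorem c_pp_023 : CertF 0 536870912 1073741824 536870912 201326592 134217728 true true true .up 0 2 3
    ndF1q0 ndF5q2 pcF3 Cut.none Ext.none :=
  certF0 (fam := true) (s1 := true) (s2 := true) (a := 0) (b := 2) (c := 3) (cn := .up) (n1 := ndF1q0) (n2 := ndF5q2) (pc := pcF3) (cut := Cut.none) (xt := Ext.none) (P1 := 0) (W1 := 536870912) (P2 := 1073741824) (W2 := 536870912) (P3 := 201326592) (W3 := 134217728)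
    rfl k0_pp_023

noncomputable def f_pp_033 : ℕ → ℕ → ℕ → ℕ → Bool := onCell 0 536870912 0 1230186008 201326592 134217728
    (rowF 0 true true true .pnn 0 3 3 (qsf 0 536870912 0 1230186008 3) ndF1q0 ndF5q3 pcF3 Cut.none Ext.none)

def k0_pp_033 : ∃ t, chk3 f_pp_033 t 1 1 1 = true :=
  ⟨(l 4), by decide +kernel⟩

theorem c_pp_033 : CertF 0 536870912 0 1230186008 201326592 134217728 true true true .pnn 0 3 3
    ndF1q0 ndF5q3 pcF3 Cut.none Ext.none :=
  certF0 (fam := true) (s1 := true) (s2 := true) (a := 0) (b := 3) (c := 3) (cn := .pnn) (n1 := ndF1q0) (n2 := ndF5q3) (pc := pcF3) (cut := Cut.none) (xt := Ext.none) (P1 := 0) (W1 := 536870912) (P2 := 0) (W2 := 1230186008) (P3 := 201326592) (W3 := 134217728)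
    rfl k0_pp_033

noncomputable def f_pp_101 : ℕ → ℕ → ℕ → ℕ → Bool := onCell 536870912 536870912 0 536870912 201326592 134217728
    (rowF 0 true true true .npn 1 0 1 (qsf 536870912 536870912 0 536870912 1) ndF1q1 ndF5q0 pcF1 Cut.none Ext.none)

def k0_pp_101 : ∃ t, chk3 f_pp_101 t 1 1 1 = true :=
  ⟨(l 4), by decide +kernel⟩

theorem c_pp_101 : CertF 536870912 536870912 0 536870912 201326592 134217728 true true true .npn 1 0 1
    ndF1q1 ndF5q0 pcF1 Cut.none Ext.none :=
  certF0 (fam := true) (s1 := true) (s2 := true) (a := 1) (b := 0) (c := 1) (cn := .npn) (n1 := ndF1q1) (n2 := ndF5q0) (pc := pcF1) (cut := Cut.none) (xt := Ext.none) (P1 := 536870912) (W1 := 536870912) (P2 := 0) (W2 := 536870912) (P3 := 201326592) (W3 := 134217728)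
    rfl k0_pp_101

noncomputable def f_pp_102 : ℕ → ℕ → ℕ → ℕ → Bool := onCell 536870912 536870912 0 536870912 201326592 134217728
    (rowF 0 true true true .npp 1 0 2 (qsf 536870912 536870912 0 536870912 2) ndF1q1 ndF5q0 pcF2 Cut.none Ext.none)

def k0_pp_102 : ∃ t, chk3 f_pp_102 t 1 1 1 = true :=
  ⟨(l 4), by decide +kernel⟩

theorem c_pp_102 : CertF 536870912 536870912 0 536870912 201326592 134217728 true true true .npp 1 0 2
    ndF1q1 ndF5q0 pcF2 Cut.none Ext.none :=
  certF0 (fam := true) (s1 := true) (s2 := true) (a := 1) (b := 0) (c := 2) (cn := .npp) (n1 := ndF1q1) (n2 := ndF5q0) (pc := pcF2) (cut := Cut.none) (xt := Ext.none) (P1 := 536870912) (W1 := 536870912) (P2 := 0) (W2 := 536870912) (P3 := 201326592) (W3 := 134217728)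
    rfl k0_pp_102

noncomputable def f_pp_112 : ℕ → ℕ → ℕ → ℕ → Bool := onCell 536870912 536870912 536870912 536870912 201326592 134217728
    (rowF 0 true true true .dn 1 1 2 (qsf 536870912 536870912 536870912 536870912 2) ndF1q1 ndF5q1 pcF2 Cut.none Ext.none)

def k0_pp_112 : ∃ t, chk3 f_pp_112 t 1 1 1 = true :=
  ⟨(l 4), by decide +kernel⟩

theorem c_pp_112 : CertF 536870912 536870912 536870912 536870912 201326592 134217728 true true true .dn 1 1 2
    ndF1q1 ndF5q1 pcF2 Cut.none Ext.none :=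
  certF0 (fam := true) (s1 := true) (s2 := true) (a := 1) (b := 1) (c := 2) (cn := .dn) (n1 := ndF1q1) (n2 := ndF5q1) (pc := pcF2) (cut := Cut.none) (xt := Ext.none) (P1 := 536870912) (W1 := 536870912) (P2 := 536870912) (W2 := 536870912) (P3 := 201326592) (W3 := 134217728)
    rfl k0_pp_112

noncomputable def f_pp_113 : ℕ → ℕ → ℕ → ℕ → Bool := onCell 536870912 536870912 536870912 536870912 201326592 134217728
    (rowF 0 true true true .nn 1 1 3 (qsf 536870912 536870912 536870912 536870912 3) ndF1q1 ndF5q1 pcF3 Cut.none Ext.none)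

def k0_pp_113 : ∃ t, chk3 f_pp_113 t 1 1 1 = true :=
  ⟨(l 4), by decide +kernel⟩

theorem c_pp_113 : CertF 536870912 536870912 536870912 536870912 201326592 134217728 true true true .nn 1 1 3
    ndF1q1 ndF5q1 pcF3 Cut.none Ext.none :=
  certF0 (fam := true) (s1 := true) (s2 := true) (a := 1) (b := 1) (c := 3) (cn := .nn) (n1 := ndF1q1) (n2 := ndF5q1) (pc := pcF3) (cut := Cut.none) (xt := Ext.none) (P1 := 536870912) (W1 := 536870912) (P2 := 536870912) (W2 := 536870912) (P3 := 201326592) (W3 := 134217728)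
    rfl k0_pp_113

noncomputable def f_pp_123 : ℕ → ℕ → ℕ → ℕ → Bool := onCell 536870912 536870912 1073741824 536870912 201326592 134217728
    (rowF 0 true true true .npn 1 2 3 (qsf 536870912 536870912 1073741824 536870912 3) ndF1q1 ndF5q2 pcF3 Cut.none Ext.none)

def k0_pp_123 : ∃ t, chk3 f_pp_123 t 1 1 1 = true :=
  ⟨(l 4), by decide +kernel⟩

theorem c_pp_123 : CertF 536870912 536870912 1073741824 536870912 201326592 134217728 true true true .npn 1 2 3
    ndF1q1 ndF5q2 pcF3 Cut.none Ext.none :=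
  certF0 (fam := true) (s1 := true) (s2 := true) (a := 1) (b := 2) (c := 3) (cn := .npn) (n1 := ndF1q1) (n2 := ndF5q2) (pc := pcF3) (cut := Cut.none) (xt := Ext.none) (P1 := 536870912) (W1 := 536870912) (P2 := 1073741824) (W2 := 536870912) (P3 := 201326592) (W3 := 134217728)
    rfl k0_pp_123

noncomputable def f_pp_133 : ℕ → ℕ → ℕ → ℕ → Bool := onCell 536870912 536870912 0 1230186008 201326592 134217728
    (rowF 0 true true true .dn 1 3 3 (qsf 536870912 536870912 0 1230186008 3) ndF1q1 ndF5q3 pcF3 Cut.none Ext.none)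

def k0_pp_133 : ∃ t, chk3 f_pp_133 t 1 1 1 = true :=
  ⟨(l 4), by decide +kernel⟩

theorem c_pp_133 : CertF 536870912 536870912 0 1230186008 201326592 134217728 true true true .dn 1 3 3
    ndF1q1 ndF5q3 pcF3 Cut.none Ext.none :=
  certF0 (fam := true) (s1 := true) (s2 := true) (a := 1) (b := 3) (c := 3) (cn := .dn) (n1 := ndF1q1) (n2 := ndF5q3) (pc := pcF3) (cut := Cut.none) (xt := Ext.none) (P1 := 536870912) (W1 := 536870912) (P2 := 0) (W2 := 1230186008) (P3 := 201326592) (W3 := 134217728)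
    rfl k0_pp_133

noncomputable def f_pp_202_a : ℕ → ℕ → ℕ → ℕ → Bool := onCell 0 536870912 0 536870912 201326592 134217728
    (rowF 0 true true true .pp 2 0 2 (qsf 0 536870912 0 536870912 2) ndF1q2a ndF5q0 pcF2 Cut.none Ext.none)

def k0_pp_202_a : ∃ t, chk3 f_pp_202_a t 1 1 1 = true :=
  ⟨(l 4), by decide +kernel⟩

theorem c_pp_202_a : CertF 0 536870912 0 536870912 201326592 134217728 true true true .pp 2 0 2
    ndF1q2a ndF5q0 pcF2 Cut.none Ext.none :=
  certF0 (fam := true) (s1 := true) (s2 := true) (a := 2) (b := 0) (c := 2) (cn := .pp) (n1 := ndF1q2a) (n2 := ndF5q0) (pc := pcF2) (cut := Cut.none) (xt := Ext.none) (P1 := 0) (W1 := 536870912) (P2 := 0) (W2 := 536870912) (P3 := 201326592) (W3 := 134217728)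
    rfl k0_pp_202_a

noncomputable def f_pp_202_b : ℕ → ℕ → ℕ → ℕ → Bool := onCell 1239849684 370763052 0 536870912 201326592 134217728
    (rowF 0 true true true .pp 2 0 2 (qsf 1239849684 370763052 0 536870912 2) ndF1q2b ndF5q0 pcF2 Cut.none Ext.none)

def k0_pp_202_b : ∃ t, chk3 f_pp_202_b t 1 1 1 = true :=
  ⟨(l 4), by decide +kernel⟩

theorem c_pp_202_b : CertF 1239849684 370763052 0 536870912 201326592 134217728 true true true .pp 2 0 2
    ndF1q2b ndF5q0 pcF2 Cut.none Ext.none :=
  certF0 (fam := true) (s1 := true) (s2 := true) (a := 2) (b := 0) (c := 2) (cn := .pp) (n1 := ndF1q2b) (n2 := ndF5q0) (pc := pcF2) (cut := Cut.none) (xt := Ext.none) (P1 := 1239849684) (W1 := 370763052) (P2 := 0) (W2 := 536870912) (P3 := 201326592) (W3 := 134217728)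
    rfl k0_pp_202_b

noncomputable def f_pp_203_a : ℕ → ℕ → ℕ → ℕ → Bool := onCell 0 536870912 0 536870912 201326592 134217728
    (rowF 0 true true true .up 2 0 3 (qsf 0 536870912 0 536870912 3) ndF1q2a ndF5q0 pcF3 Cut.none Ext.none)

def k0_pp_203_a : ∃ t, chk3 f_pp_203_a t 1 1 1 = true :=
  ⟨(l 4), by decide +kernel⟩

theorem c_pp_203_a : CertF 0 536870912 0 536870912 201326592 134217728 true true true .up 2 0 3
    ndF1q2a ndF5q0 pcF3 Cut.none Ext.none :=
  certF0 (fam := true) (s1 := true) (s2 := true) (a := 2) (b := 0) (c := 3) (cn := .up) (n1 := ndF1q2a) (n2 := ndF5q0) (pc := pcF3) (cut := Cut.none) (xt := Ext.none) (P1 := 0) (W1 := 536870912) (P2 := 0) (W2 := 536870912) (P3 := 201326592) (W3 := 134217728)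
    rfl k0_pp_203_a

noncomputable def f_pp_203_b : ℕ → ℕ → ℕ → ℕ → Bool := onCell 1239849684 370763052 0 536870912 201326592 134217728
    (rowF 0 true true true .up 2 0 3 (qsf 1239849684 370763052 0 536870912 3) ndF1q2b ndF5q0 pcF3 Cut.none Ext.none)

def k0_pp_203_b : ∃ t, chk3 f_pp_203_b t 1 1 1 = true :=
  ⟨(l 4), by decide +kernel⟩

theorem c_pp_203_b : CertF 1239849684 370763052 0 536870912 201326592 134217728 true true true .up 2 0 3
    ndF1q2b ndF5q0 pcF3 Cut.none Ext.none :=
  certF0 (fam := true) (s1 := true) (s2 := true) (a := 2) (b := 0) (c := 3) (cn := .up) (n1 := ndF1q2b) (n2 := ndF5q0) (pc := pcF3) (cut := Cut.none) (xt := Ext.none) (P1 := 1239849684) (W1 := 370763052) (P2 := 0) (W2 := 536870912) (P3 := 201326592) (W3 := 134217728)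
    rfl k0_pp_203_b

noncomputable def f_pp_213_a : ℕ → ℕ → ℕ → ℕ → Bool := onCell 0 536870912 536870912 536870912 201326592 134217728
    (rowF 0 true true true .pnn 2 1 3 (qsf 0 536870912 536870912 536870912 3) ndF1q2a ndF5q1 pcF3 Cut.none Ext.none)

def k0_pp_213_a : ∃ t, chk3 f_pp_213_a t 1 1 1 = true :=
  ⟨(l 4), by decide +kernel⟩

theorem c_pp_213_a : CertF 0 536870912 536870912 536870912 201326592 134217728 true true true .pnn 2 1 3
    ndF1q2a ndF5q1 pcF3 Cut.none Ext.none :=
  certF0 (fam := true) (s1 := true) (s2 := true) (a := 2) (b := 1) (c := 3) (cn := .pnn) (n1 := ndF1q2a) (n2 := ndF5q1) (pc := pcF3) (cut := Cut.none) (xt := Ext.none) (P1 := 0) (W1 := 536870912) (P2 := 536870912) (W2 := 536870912) (P3 := 201326592) (W3 := 134217728)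
    rfl k0_pp_213_a

noncomputable def f_pp_213_b : ℕ → ℕ → ℕ → ℕ → Bool := onCell 1239849684 370763052 536870912 536870912 201326592 134217728
    (rowF 0 true true true .pnn 2 1 3 (qsf 1239849684 370763052 536870912 536870912 3) ndF1q2b ndF5q1 pcF3 Cut.none Ext.none)

def k0_pp_213_b : ∃ t, chk3 f_pp_213_b t 1 1 1 = true :=
  ⟨(l 4), by decide +kernel⟩

theorem c_pp_213_b : CertF 1239849684 370763052 536870912 536870912 201326592 134217728 true true true .pnn 2 1 3
    ndF1q2b ndF5q1 pcF3 Cut.none Ext.none :=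
  certF0 (fam := true) (s1 := true) (s2 := true) (a := 2) (b := 1) (c := 3) (cn := .pnn) (n1 := ndF1q2b) (n2 := ndF5q1) (pc := pcF3) (cut := Cut.none) (xt := Ext.none) (P1 := 1239849684) (W1 := 370763052) (P2 := 536870912) (W2 := 536870912) (P3 := 201326592) (W3 := 134217728)
    rfl k0_pp_213_b

noncomputable def f_pp_303 : ℕ → ℕ → ℕ → ℕ → Bool := onCell 1610612736 536870912 0 536870912 201326592 134217728
    (rowF 0 true true true .npn 3 0 3 (qsf 1610612736 536870912 0 536870912 3) ndF1q3 ndF5q0 pcF3 Cut.none Ext.none)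

def k0_pp_303 : ∃ t, chk3 f_pp_303 t 1 1 1 = true :=
  ⟨(l 4), by decide +kernel⟩

theorem c_pp_303 : CertF 1610612736 536870912 0 536870912 201326592 134217728 true true true .npn 3 0 3
    ndF1q3 ndF5q0 pcF3 Cut.none Ext.none :=
  certF0 (fam := true) (s1 := true) (s2 := true) (a := 3) (b := 0) (c := 3) (cn := .npn) (n1 := ndF1q3) (n2 := ndF5q0) (pc := pcF3) (cut := Cut.none) (xt := Ext.none) (P1 := 1610612736) (W1 := 536870912) (P2 := 0) (W2 := 536870912) (P3 := 201326592) (W3 := 134217728)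
    rfl k0_pp_303

noncomputable def f_pp_313 : ℕ → ℕ → ℕ → ℕ → Bool := onCell 1610612736 536870912 536870912 536870912 201326592 134217728
    (rowF 0 true true true .dn 3 1 3 (qsf 1610612736 536870912 536870912 536870912 3) ndF1q3 ndF5q1 pcF3 Cut.none Ext.none)

def k0_pp_313 : ∃ t, chk3 f_pp_313 t 1 1 1 = true :=
  ⟨(l 4), by decide +kernel⟩

theorem c_pp_313 : CertF 1610612736 536870912 536870912 536870912 201326592 134217728 true true true .dn 3 1 3
    ndF1q3 ndF5q1 pcF3 Cut.none Ext.none :=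
  certF0 (fam := true) (s1 := true) (s2 := true) (a := 3) (b := 1) (c := 3) (cn := .dn) (n1 := ndF1q3) (n2 := ndF5q1) (pc := pcF3) (cut := Cut.none) (xt := Ext.none) (P1 := 1610612736) (W1 := 536870912) (P2 := 536870912) (W2 := 536870912) (P3 := 201326592) (W3 := 134217728)
    rfl k0_pp_313

noncomputable def f_pm_001 : ℕ → ℕ → ℕ → ℕ → Bool := onCell 0 536870912 0 536870912 201326592 134217728
    (rowF 0 true true false .up 0 0 1 (qsf 0 536870912 0 536870912 1) ndF1q0 ndF5q0 pcF1 Cut.none Ext.none)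

def k0_pm_001 : ∃ t, chk3 f_pm_001 t 1 1 1 = true :=
  ⟨(a (l 3) (b (l 3) (b (l 3) (a (l 3) (b (l 3) (a (l 3) (b (l 3) (l 17178096)))))))), by decide +kernel⟩

theorem c_pm_001 : CertF 0 536870912 0 536870912 201326592 134217728 true true false .up 0 0 1
    ndF1q0 ndF5q0 pcF1 Cut.none Ext.none :=
  certF0 (fam := true) (s1 := true) (s2 := false) (a := 0) (b := 0) (c := 1) (cn := .up) (n1 := ndF1q0) (n2 := ndF5q0) (pc := pcF1) (cut := Cut.none) (xt := Ext.none) (P1 := 0) (W1 := 536870912) (P2 := 0) (W2 := 536870912) (P3 := 201326592) (W3 := 134217728)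
    rfl k0_pm_001

noncomputable def cut_pm_011 : Cut := Cut.of [[⟨0, 0, 0, 67108864⟩, ⟨1, 1, 0, 67108864⟩, ⟨2, 1, 0, 67108864⟩]]

noncomputable def f_pm_011 : ℕ → ℕ → ℕ → ℕ → Bool := onCell 0 536870912 536870912 536870912 201326592 134217728
    (rowF 1 true true false .pnn 0 1 1 (qsf 0 536870912 536870912 536870912 1) ndF1q0 ndF5q1 pcF1 cut_pm_011 Ext.none)

def k0_pm_011 : ∃ t, chk3 f_pm_011 t 1 1 1 = true :=
  ⟨(b (l 3) (b (l 3) (b (l 3) (a (a (a (b (l 3) (a (b (l 3) (l 6)) (l 3))) (l 3)) (l 3)) (a (c (l 864530024679) (l 849497584183)) (b (l 3) (l 17204128))))))), by decide +kernel⟩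

theorem c_pm_011 : CertF 0 536870912 536870912 536870912 201326592 134217728 true true false .pnn 0 1 1
    ndF1q0 ndF5q1 pcF1 cut_pm_011 Ext.none :=
  certF1 (fam := true) (s1 := true) (s2 := false) (a := 0) (b := 1) (c := 1) (cn := .pnn) (n1 := ndF1q0) (n2 := ndF5q1) (pc := pcF1) (cut := cut_pm_011) (xt := Ext.none) (P1 := 0) (W1 := 536870912) (P2 := 536870912) (W2 := 536870912) (P3 := 201326592) (W3 := 134217728)
    rfl (fun _ => rfl) k0_pm_011

noncomputable def cut_pm_012 : Cut := Cut.of [[⟨0, 0, 0, 67108864⟩, ⟨1, 1, 0, 67108864⟩, ⟨2, 1, 0, 67108864⟩]]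

noncomputable def f_pm_012 : ℕ → ℕ → ℕ → ℕ → Bool := onCell 1073741824 536870912 536870912 536870912 201326592 134217728
    (rowF 2 true true false .pnp 0 1 2 (qsf 0 536870912 536870912 536870912 2) ndF1q0 ndF5q1 pcF2 cut_pm_012 Ext.none)

def k0_pm_012 : ∃ t, chk3 f_pm_012 t 1 1 1 = true :=
  ⟨(a (b (a (b (a (a (l 17275656) (l 17356472)) (a (l 17434568) (l 17504392))) (a (a (b (l 17058424) (l 16796272)) (l 17076792)) (a (l 17212160) (l 17339984)))) (a (b (a (l 17822520) (l 2)) (a (a (l 17428456) (l 17489176)) (l 17558184))) (b (l 2) (l 17683864)))) (a (b (a (a (b (l 16586392) (l 16698088)) (b (l 16549552) (a (l 16545616) (l 16522320)))) (b (a (l 16775504) (l 16995208)) (a (l 16468288) (l 16494896)))) (a (a (b (b (l 16713032) (a (l 16718904) (l 16643288))) (a (b (a (l 270213806263) (l 16726136)) (l 6)) (b (b (l 16667432) (l 16682984)) (b (a (l 6) (l 16690840)) (l 6))))) (b (a (l 16608240) (l 16636768)) (b (a (b (l 16636496) (l 16650832)) (l 16612904)) (b (a (l 16686432) (l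 16632976)) (a (b (l 16676576) (l 6)) (l 16688624)))))) (b (a (b (l 16522600) (l 16545264)) (l 16531704)) (b (a (l 16610224) (l 16516824)) (a (b (l 16585824) (c (l 16603816) (l 16591504))) (c (l 16544872) (l 16525904))))))) (a (b (a (b (l 17197056) (a (l 16738904) (l 16887296))) (l 17022600)) (b (a (a (l 16463432) (l 16450016)) (l 16517568)) (b (a (l 16610496) (l 16444216)) (a (a (l 16500368) (l 16509536)) (l 16453648))))) (b (b (l 17587376) (l 17420600)) (b (l 17074072) (b (l 16569592) (l 16390080))))))) (b (a (a (b (l 2) (l 17800472)) (l 2)) (l 2)) (a (b (a (l 17777272) (l 17942208)) (a (b (l 17580104) (c (l 17732656) (l 16710952))) (b (l 17902728) (l 17755624)))) (a (b (l 18036848) (b (l 18102208) (l 18077512))) (b (l 2) (l 18246400)))))), by decide +kernel⟩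

theorem c_pm_012 : CertF 0 536870912 536870912 536870912 201326592 134217728 true true false .pnp 0 1 2
    ndF1q0 ndF5q1 pcF2 cut_pm_012 Ext.none :=
  certF2 (fam := true) (s1 := true) (s2 := false) (a := 0) (b := 1) (c := 2) (cn := .pnp) (n1 := ndF1q0) (n2 := ndF5q1) (pc := pcF2) (cut := cut_pm_012) (xt := Ext.none) (P1 := 0) (W1 := 536870912) (P2 := 536870912) (W2 := 536870912) (P3 := 201326592) (W3 := 134217728)
    rfl (fun _ => rfl) k0_pm_012

noncomputable def cut_pm_022 : Cut := Cut.of [[⟨0, 0, 0, 67108864⟩, ⟨1, 1, 0, 67108864⟩, ⟨2, 1, 0, 67108864⟩]]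

noncomputable def f_pm_022 : ℕ → ℕ → ℕ → ℕ → Bool := onCell 0 536870912 1073741824 536870912 201326592 134217728
    (rowF 0 true true false .pp 0 2 2 (qsf 0 536870912 1073741824 536870912 2) ndF1q0 ndF5q2 pcF2 cut_pm_022 Ext.none)

def k0_pm_022 : ∃ t, chk3 f_pm_022 t 4 4 1 = true :=
  ⟨(a (b (b (a (a (l 6) (b (l 6) (c (a (l 6) (l 16640808)) (l 16709776)))) (b (a (c (l 16693768) (l 16688408)) (l 16677992)) (c (l 16683736) (l 16698248)))) (a (a (a (b (l 6) (c (b (l 16701760) (l 16677840)) (l 16703824))) (c (c (l 16698504) (l 16698576)) (l 16701176))) (c (b (l 16654192) (l 16616832)) (b (l 16652264) (l 16615168)))) (a (c (l 16646032) (l 16641232)) (b (l 16587248) (l 16553296))))) (a (b (a (a (c (c (b (l 16658368) (l 16631824)) (l 16685848)) (c (l 16684752) (l 16683416))) (c (l 16655312) (l 16633744))) (c (l 16628320) (l 16630360))) (a (c (a (b (l 16604352) (l 16576432)) (l 16599240)) (a (l 16650064) (l 16598488))) (a (b (l 16561840) (l 16552392)) (b (l 16508360) (c (l 16550184)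 (l 16552832)))))) (b (b (c (l 16580536) (l 16573952)) (a (l 16535328) (b (l 16476384) (l 16596848)))) (c (c (l 16600192) (l 16617672)) (b (a (l 16575152) (l 16481856)) (l 16564208)))))) (b (b (b (a (a (l 16603048) (l 16572144)) (l 16615784)) (a (l 16639200) (c (l 16610968) (l 16633032)))) (a (b (l 16629304) (a (l 16505528) (l 16619272))) (a (b (l 16603752) (l 16550152)) (c (l 16435208) (l 16445184))))) (a (b (b (a (l 16633920) (l 16564472)) (a (l 16577896) (l 16424008))) (l 16405064)) (l 16474128)))), by decide +kernel⟩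

def k1_pm_022 : ∃ t, chk3 f_pm_022 t 4 5 1 = true :=
  ⟨(a (b (a (b (a (a (c (b (l 16567552) (c (l 16595136) (l 16614928))) (b (l 16543552) (c (l 16613104) (b (l 16595744) (l 16567688))))) (b (b (l 16541808) (c (l 16581728) (l 16580264))) (c (l 16548200) (l 16567168)))) (c (b (l 16583216) (l 16413160)) (b (l 16605448) (l 16413464)))) (a (c (l 16481384) (l 16455984)) (l 16441424))) (c (l 16429816) (l 16405792))) (a (b (c (l 16431136) (l 16404496)) (c (l 16832800) (l 16325616))) (c (l 16985752) (l 16254376)))) (b (c (a (l 16528144) (l 16978160)) (l 16304120)) (c (l 17427928) (l 16521616)))), by decide +kernel⟩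

def k2_pm_022 : ∃ t, chk3 f_pm_022 t 5 2 1 = true :=
  ⟨(b (b (a (b (a (a (b (l 16591048) (l 16518816)) (b (l 16501800) (l 16451320))) (l 16430288)) (l 16394624)) (l 16443016)) (a (c (l 16815848) (l 16286272)) (l 17076216))) (b (a (l 16783472) (l 17515360)) (a (l 17449304) (l 17761024)))), by decide +kernel⟩

def k3_pm_022 : ∃ t, chk3 f_pm_022 t 2 3 1 = true :=
  ⟨(a (b (a (b (c (a (b (l 17179768) (l 17438272)) (l 17532368)) (a (l 16477456) (l 16739784))) (c (l 17774640) (a (l 17042032) (l 17198264)))) (b (c (l 17788552) (l 17067176)) (l 17685768))) (b (a (c (l 17960352) (l 17423424)) (l 17823088)) (l 17855608))) (b (b (l 17808840) (l 17900088)) (l 17925512))), by decide +kernel⟩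

def k4_pm_022 : ∃ t, chk3 f_pm_022 t 3 1 1 = true :=
  ⟨(b (a (b (b (a (l 17173552) (l 17765896)) (c (l 18203640) (l 17419352))) (b (l 17958152) (l 18022880))) (b (b (l 18200344) (l 18218704)) (l 18170872))) (b (a (l 18020960) (l 2)) (l 2))), by decide +kernel⟩

theorem s5_pm_022 : ∃ t, chk3 f_pm_022 t 4 2 1 = true := ex3_b k0_pm_022 k1_pm_022

theorem s6_pm_022 : ∃ t, chk3 f_pm_022 t 2 2 1 = true := ex3_a s5_pm_022 k2_pm_022

theorem s7_pm_022 : ∃ t, chk3 f_pm_022 t 2 1 1 = true := ex3_b s6_pm_022 k3_pm_022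

theorem s8_pm_022 : ∃ t, chk3 f_pm_022 t 1 1 1 = true := ex3_a s7_pm_022 k4_pm_022

theorem c_pm_022 : CertF 0 536870912 1073741824 536870912 201326592 134217728 true true false .pp 0 2 2
    ndF1q0 ndF5q2 pcF2 cut_pm_022 Ext.none :=
  certF0 (fam := true) (s1 := true) (s2 := false) (a := 0) (b := 2) (c := 2) (cn := .pp) (n1 := ndF1q0) (n2 := ndF5q2) (pc := pcF2) (cut := cut_pm_022) (xt := Ext.none) (P1 := 0) (W1 := 536870912) (P2 := 1073741824) (W2 := 536870912) (P3 := 201326592) (W3 := 134217728)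
    rfl s8_pm_022

noncomputable def f_pm_023 : ℕ → ℕ → ℕ → ℕ → Bool := onCell 1610612736 536870912 1073741824 536870912 201326592 134217728
    (rowF 2 true true false .up 0 2 3 (qsf 0 536870912 1073741824 536870912 3) ndF1q0 ndF5q2 pcF3 Cut.none Ext.none)

def k0_pm_023 : ∃ t, chk3 f_pm_023 t 1 1 1 = true :=
  ⟨(b (a (b (a (l 18319496) (a (l 18369456) (l 2))) (a (l 18115560) (l 18241928))) (a (b (l 2) (l 18131784)) (l 2))) (b (a (a (l 17974184) (l 18032296)) (a (l 17979328) (a (l 17899232) (l 2)))) (a (b (l 17945120) (l 17909832)) (a (l 17856152) (a (l 17768744) (a (l 17718496) (a (l 17692064) (a (l 17678288) (l 17669936))))))))), by decide +kernel⟩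

theorem c_pm_023 : CertF 0 536870912 1073741824 536870912 201326592 134217728 true true false .up 0 2 3
    ndF1q0 ndF5q2 pcF3 Cut.none Ext.none :=
  certF2 (fam := true) (s1 := true) (s2 := false) (a := 0) (b := 2) (c := 3) (cn := .up) (n1 := ndF1q0) (n2 := ndF5q2) (pc := pcF3) (cut := Cut.none) (xt := Ext.none) (P1 := 0) (W1 := 536870912) (P2 := 1073741824) (W2 := 536870912) (P3 := 201326592) (W3 := 134217728)
    rfl (fun _ => rfl) k0_pm_023

noncomputable def f_pm_033 : ℕ → ℕ → ℕ → ℕ → Bool := onCell 1610612736 536870912 0 1230186008 201326592 134217728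
    (rowF 2 true true false .pnn 0 3 3 (qsf 0 536870912 0 1230186008 3) ndF1q0 ndF5q3 pcF3 Cut.none Ext.none)

def k0_pm_033 : ∃ t, chk3 f_pm_033 t 1 1 1 = true :=
  ⟨(b (a (l 1) (a (l 1) (b (a (l 1) (l 4)) (a (l 623879676119) (a (l 17525968) (l 4)))))) (b (a (b (l 1) (a (l 1) (a (l 1) (l 699578971799)))) (a (b (a (l 1) (l 17713424)) (a (c (l 17920112) (l 17895048)) (l 222837372951))) (a (b (l 17527880) (l 17558056)) (a (l 17466200) (a (l 17445792) (a (l 4) (l 4))))))) (a (b (a (l 1) (b (l 651797497943) (l 17852712))) (a (b (l 678640577127) (l 345243637831)) (l 17967048))) (a (b (a (l 18019896) (l 17691944)) (l 17764712)) (a (b (l 17596480) (l 17658680)) (a (b (l 17512744) (l 17598160)) (a (b (l 17476568) (l 17567032)) (b (a (l 17467120) (l 17468176)) (a (l 17551640) (l 17542528)))))))))), by decide +kernel⟩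

theorem c_pm_033 : CertF 0 536870912 0 1230186008 201326592 134217728 true true false .pnn 0 3 3
    ndF1q0 ndF5q3 pcF3 Cut.none Ext.none :=
  certF2 (fam := true) (s1 := true) (s2 := false) (a := 0) (b := 3) (c := 3) (cn := .pnn) (n1 := ndF1q0) (n2 := ndF5q3) (pc := pcF3) (cut := Cut.none) (xt := Ext.none) (P1 := 0) (W1 := 536870912) (P2 := 0) (W2 := 1230186008) (P3 := 201326592) (W3 := 134217728)
    rfl (fun _ => rfl) k0_pm_033

noncomputable def f_pm_101 : ℕ → ℕ → ℕ → ℕ → Bool := onCell 536870912 536870912 0 536870912 201326592 134217728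
    (rowF 2 true true false .npn 1 0 1 (qsf 536870912 536870912 0 536870912 1) ndF1q1 ndF5q0 pcF1 Cut.none Ext.none)

def k0_pm_101 : ∃ t, chk3 f_pm_101 t 1 1 1 = true :=
  ⟨(a (l 3) (b (a (b (a (l 3) (l 192369374903)) (l 3)) (a (b (l 131703109687) (l 166599707175)) (b (l 17849696) (l 17718064)))) (a (l 3) (b (a (l 288469347383) (l 177337341559)) (a (l 3) (b (l 17501472) (l 17394560))))))), by decide +kernel⟩

theorem c_pm_101 : CertF 536870912 536870912 0 536870912 201326592 134217728 true true false .npn 1 0 1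
    ndF1q1 ndF5q0 pcF1 Cut.none Ext.none :=
  certF2 (fam := true) (s1 := true) (s2 := false) (a := 1) (b := 0) (c := 1) (cn := .npn) (n1 := ndF1q1) (n2 := ndF5q0) (pc := pcF1) (cut := Cut.none) (xt := Ext.none) (P1 := 536870912) (W1 := 536870912) (P2 := 0) (W2 := 536870912) (P3 := 201326592) (W3 := 134217728)
    rfl (fun _ => rfl) k0_pm_101

noncomputable def f_pm_102 : ℕ → ℕ → ℕ → ℕ → Bool := onCell 536870912 536870912 1073741824 536870912 201326592 134217728
    (rowF 1 true true false .npp 1 0 2 (qsf 536870912 536870912 0 536870912 2) ndF1q1 ndF5q0 pcF2 Cut.none Ext.none)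

def k0_pm_102 : ∃ t, chk3 f_pm_102 t 1 1 1 = true :=
  ⟨(a (b (a (b (b (a (l 17479728) (l 17589624)) (b (l 17638280) (a (l 2) (l 17721248)))) (b (b (b (l 17747472) (l 2)) (l 2)) (l 2))) (b (b (l 17702272) (b (l 17752584) (b (l 17778384) (l 17795816)))) (b (b (b (l 17812944) (l 17828632)) (l 17850808)) (l 17899400)))) (a (l 2) (b (b (l 18039968) (l 2)) (l 2)))) (b (a (b (b (l 17817328) (b (l 17835472) (a (l 17823840) (l 17858944)))) (b (b (b (l 17862496) (l 17867344)) (l 17869736)) (l 17883448))) (b (b (l 17971200) (b (l 17960304) (b (l 17955016) (l 17952216)))) (b (b (b (l 17948520) (l 17941056)) (l 17925136)) (l 17901576)))) (b (a (b (l 17888648) (l 17976752)) (b (l 17861344) (l 17804096))) (b (a (l 17887776) (l 17788408)) (a (l 2) (l 17802208)))))), by decide +kernel⟩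

theorem c_pm_102 : CertF 536870912 536870912 0 536870912 201326592 134217728 true true false .npp 1 0 2
    ndF1q1 ndF5q0 pcF2 Cut.none Ext.none :=
  certF1 (fam := true) (s1 := true) (s2 := false) (a := 1) (b := 0) (c := 2) (cn := .npp) (n1 := ndF1q1) (n2 := ndF5q0) (pc := pcF2) (cut := Cut.none) (xt := Ext.none) (P1 := 536870912) (W1 := 536870912) (P2 := 0) (W2 := 536870912) (P3 := 201326592) (W3 := 134217728)
    rfl (fun _ => rfl) k0_pm_102

noncomputable def f_pm_112 : ℕ → ℕ → ℕ → ℕ → Bool := onCell 536870912 536870912 1073741824 536870912 201326592 134217728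
    (rowF 1 true true false .dn 1 1 2 (qsf 536870912 536870912 536870912 536870912 2) ndF1q1 ndF5q1 pcF2 Cut.none Ext.none)

def k0_pm_112 : ∃ t, chk3 f_pm_112 t 1 1 1 = true :=
  ⟨(a (b (b (a (b (l 17537736) (b (l 17631088) (l 17691608))) (b (l 1) (b (l 1) (l 17777240)))) (b (b (b (a (l 17738384) (l 17806552)) (a (l 17767672) (l 17821896))) (l 17831248)) (a (l 17890544) (l 17882952)))) (b (b (a (l 17988640) (l 17932688)) (a (l 18075312) (l 17969528))) (b (a (l 18155584) (l 18013288)) (l 18151600)))) (b (a (b (l 1) (b (l 1) (l 17871592))) (l 1)) (b (b (a (l 17875416) (l 1)) (l 17972632)) (b (a (l 17865256) (l 17776152)) (l 17848824))))), by decide +kernel⟩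

theorem c_pm_112 : CertF 536870912 536870912 536870912 536870912 201326592 134217728 true true false .dn 1 1 2
    ndF1q1 ndF5q1 pcF2 Cut.none Ext.none :=
  certF1 (fam := true) (s1 := true) (s2 := false) (a := 1) (b := 1) (c := 2) (cn := .dn) (n1 := ndF1q1) (n2 := ndF5q1) (pc := pcF2) (cut := Cut.none) (xt := Ext.none) (P1 := 536870912) (W1 := 536870912) (P2 := 536870912) (W2 := 536870912) (P3 := 201326592) (W3 := 134217728)
    rfl (fun _ => rfl) k0_pm_112

noncomputable def f_pm_113 : ℕ → ℕ → ℕ → ℕ → Bool := onCell 536870912 536870912 1610612736 536870912 201326592 134217728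
    (rowF 1 true true false .nn 1 1 3 (qsf 536870912 536870912 536870912 536870912 3) ndF1q1 ndF5q1 pcF3 Cut.none Ext.none)

def k0_pm_113 : ∃ t, chk3 f_pm_113 t 1 1 1 = true :=
  ⟨(a (b (b (a (l 18332072) (l 18081352)) (a (l 18471640) (l 18173928))) (b (a (l 2) (l 18364632)) (l 2))) (b (b (a (l 17807024) (l 17610528)) (a (l 17893760) (l 17638696))) (b (b (l 18003944) (a (l 17942312) (l 17652832))) (b (l 17968824) (a (l 2) (b (l 17698712) (l 4))))))), by decide +kernel⟩

theorem c_pm_113 : CertF 536870912 536870912 536870912 536870912 201326592 134217728 true true false .nn 1 1 3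
    ndF1q1 ndF5q1 pcF3 Cut.none Ext.none :=
  certF1 (fam := true) (s1 := true) (s2 := false) (a := 1) (b := 1) (c := 3) (cn := .nn) (n1 := ndF1q1) (n2 := ndF5q1) (pc := pcF3) (cut := Cut.none) (xt := Ext.none) (P1 := 536870912) (W1 := 536870912) (P2 := 536870912) (W2 := 536870912) (P3 := 201326592) (W3 := 134217728)
    rfl (fun _ => rfl) k0_pm_113

noncomputable def f_pm_123 : ℕ → ℕ → ℕ → ℕ → Bool := onCell 1610612736 536870912 1073741824 536870912 201326592 134217728
    (rowF 2 true true false .npn 1 2 3 (qsf 536870912 536870912 1073741824 536870912 3) ndF1q1 ndF5q2 pcF3 Cut.none Ext.none)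

def k0_pm_123 : ∃ t, chk3 f_pm_123 t 1 1 1 = true :=
  ⟨(a (b (b (a (l 439197254583) (a (l 18114120) (l 18014280))) (a (l 17878616) (l 17835016))) (b (l 486440761399) (l 1))) (a (b (b (a (l 17922456) (l 17815560)) (l 17721152)) (b (l 17520288) (l 17303424))) (a (b (b (l 17673752) (l 17567032)) (b (l 17431248) (l 17248248))) (b (a (l 17691400) (a (l 17511968) (a (l 17508168) (l 17522488)))) (a (l 17327032) (a (l 17281184) (a (l 17269200) (l 17346752)))))))), by decide +kernel⟩

theorem c_pm_123 : CertF 536870912 536870912 1073741824 536870912 201326592 134217728 true true false .npn 1 2 3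
    ndF1q1 ndF5q2 pcF3 Cut.none Ext.none :=
  certF2 (fam := true) (s1 := true) (s2 := false) (a := 1) (b := 2) (c := 3) (cn := .npn) (n1 := ndF1q1) (n2 := ndF5q2) (pc := pcF3) (cut := Cut.none) (xt := Ext.none) (P1 := 536870912) (W1 := 536870912) (P2 := 1073741824) (W2 := 536870912) (P3 := 201326592) (W3 := 134217728)
    rfl (fun _ => rfl) k0_pm_123

noncomputable def f_pm_133 : ℕ → ℕ → ℕ → ℕ → Bool := onCell 536870912 536870912 0 1230186008 201326592 134217728
    (rowF 0 true true false .dn 1 3 3 (qsf 536870912 536870912 0 1230186008 3) ndF1q1 ndF5q3 pcF3 Cut.none Ext.none)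

def k0_pm_133 : ∃ t, chk3 f_pm_133 t 1 1 1 = true :=
  ⟨(b (l 2) (b (l 2) (a (b (l 2) (a (b (l 2) (a (l 16985832) (l 2))) (l 2))) (l 2)))), by decide +kernel⟩

theorem c_pm_133 : CertF 536870912 536870912 0 1230186008 201326592 134217728 true true false .dn 1 3 3
    ndF1q1 ndF5q3 pcF3 Cut.none Ext.none :=
  certF0 (fam := true) (s1 := true) (s2 := false) (a := 1) (b := 3) (c := 3) (cn := .dn) (n1 := ndF1q1) (n2 := ndF5q3) (pc := pcF3) (cut := Cut.none) (xt := Ext.none) (P1 := 536870912) (W1 := 536870912) (P2 := 0) (W2 := 1230186008) (P3 := 201326592) (W3 := 134217728)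
    rfl k0_pm_133

noncomputable def f_pm_202_a : ℕ → ℕ → ℕ → ℕ → Bool := onCell 0 536870912 1073741824 536870912 201326592 134217728
    (rowF 1 true true false .pp 2 0 2 (qsf 0 536870912 0 536870912 2) ndF1q2a ndF5q0 pcF2 Cut.none Ext.none)

def k0_pm_202_a : ∃ t, chk3 f_pm_202_a t 1 1 1 = true :=
  ⟨(b (b (a (b (l 1) (a (l 1) (l 18061408))) (a (b (l 1) (l 18215088)) (b (c (l 18619144) (l 18163632)) (c (l 18618888) (l 18234616))))) (a (b (l 18140784) (l 18163024)) (b (a (l 18317416) (a (l 18291792) (l 18281448))) (a (l 18205216) (l 18205696))))) (b (a (l 18192936) (b (l 18120448) (l 18256672))) (a (l 4) (b (l 18040000) (l 17974352))))), by decide +kernel⟩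

theorem c_pm_202_a : CertF 0 536870912 0 536870912 201326592 134217728 true true false .pp 2 0 2
    ndF1q2a ndF5q0 pcF2 Cut.none Ext.none :=
  certF1 (fam := true) (s1 := true) (s2 := false) (a := 2) (b := 0) (c := 2) (cn := .pp) (n1 := ndF1q2a) (n2 := ndF5q0) (pc := pcF2) (cut := Cut.none) (xt := Ext.none) (P1 := 0) (W1 := 536870912) (P2 := 0) (W2 := 536870912) (P3 := 201326592) (W3 := 134217728)
    rfl (fun _ => rfl) k0_pm_202_a

noncomputable def f_pm_202_b : ℕ → ℕ → ℕ → ℕ → Bool := onCell 1239849684 370763052 0 536870912 201326592 134217728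
    (rowF 0 true true false .pp 2 0 2 (qsf 1239849684 370763052 0 536870912 2) ndF1q2b ndF5q0 pcF2 Cut.none Ext.none)

def k0_pm_202_b : ∃ t, chk3 f_pm_202_b t 1 1 1 = true :=
  ⟨(l 4), by decide +kernel⟩

theorem c_pm_202_b : CertF 1239849684 370763052 0 536870912 201326592 134217728 true true false .pp 2 0 2
    ndF1q2b ndF5q0 pcF2 Cut.none Ext.none :=
  certF0 (fam := true) (s1 := true) (s2 := false) (a := 2) (b := 0) (c := 2) (cn := .pp) (n1 := ndF1q2b) (n2 := ndF5q0) (pc := pcF2) (cut := Cut.none) (xt := Ext.none) (P1 := 1239849684) (W1 := 370763052) (P2 := 0) (W2 := 536870912) (P3 := 201326592) (W3 := 134217728)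
    rfl k0_pm_202_b

noncomputable def f_pm_203_a : ℕ → ℕ → ℕ → ℕ → Bool := onCell 0 536870912 1610612736 536870912 201326592 134217728
    (rowF 1 true true false .up 2 0 3 (qsf 0 536870912 0 536870912 3) ndF1q2a ndF5q0 pcF3 Cut.none Ext.none)

def k0_pm_203_a : ∃ t, chk3 f_pm_203_a t 1 1 1 = true :=
  ⟨(a (l 4) (b (l 4) (l 2))), by decide +kernel⟩

theorem c_pm_203_a : CertF 0 536870912 0 536870912 201326592 134217728 true true false .up 2 0 3
    ndF1q2a ndF5q0 pcF3 Cut.none Ext.none :=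
  certF1 (fam := true) (s1 := true) (s2 := false) (a := 2) (b := 0) (c := 3) (cn := .up) (n1 := ndF1q2a) (n2 := ndF5q0) (pc := pcF3) (cut := Cut.none) (xt := Ext.none) (P1 := 0) (W1 := 536870912) (P2 := 0) (W2 := 536870912) (P3 := 201326592) (W3 := 134217728)
    rfl (fun _ => rfl) k0_pm_203_a

noncomputable def f_pm_203_b : ℕ → ℕ → ℕ → ℕ → Bool := onCell 1239849684 370763052 0 536870912 201326592 134217728
    (rowF 0 true true false .up 2 0 3 (qsf 1239849684 370763052 0 536870912 3) ndF1q2b ndF5q0 pcF3 Cut.none Ext.none)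

def k0_pm_203_b : ∃ t, chk3 f_pm_203_b t 1 1 1 = true :=
  ⟨(l 4), by decide +kernel⟩

theorem c_pm_203_b : CertF 1239849684 370763052 0 536870912 201326592 134217728 true true false .up 2 0 3
    ndF1q2b ndF5q0 pcF3 Cut.none Ext.none :=
  certF0 (fam := true) (s1 := true) (s2 := false) (a := 2) (b := 0) (c := 3) (cn := .up) (n1 := ndF1q2b) (n2 := ndF5q0) (pc := pcF3) (cut := Cut.none) (xt := Ext.none) (P1 := 1239849684) (W1 := 370763052) (P2 := 0) (W2 := 536870912) (P3 := 201326592) (W3 := 134217728)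
    rfl k0_pm_203_b

noncomputable def f_pm_213_a : ℕ → ℕ → ℕ → ℕ → Bool := onCell 0 536870912 536870912 536870912 201326592 134217728
    (rowF 0 true true false .pnn 2 1 3 (qsf 0 536870912 536870912 536870912 3) ndF1q2a ndF5q1 pcF3 Cut.none Ext.none)

def k0_pm_213_a : ∃ t, chk3 f_pm_213_a t 1 1 1 = true :=
  ⟨(a (l 4) (b (l 4) (l 4))), by decide +kernel⟩

theorem c_pm_213_a : CertF 0 536870912 536870912 536870912 201326592 134217728 true true false .pnn 2 1 3
    ndF1q2a ndF5q1 pcF3 Cut.none Ext.none :=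
  certF0 (fam := true) (s1 := true) (s2 := false) (a := 2) (b := 1) (c := 3) (cn := .pnn) (n1 := ndF1q2a) (n2 := ndF5q1) (pc := pcF3) (cut := Cut.none) (xt := Ext.none) (P1 := 0) (W1 := 536870912) (P2 := 536870912) (W2 := 536870912) (P3 := 201326592) (W3 := 134217728)
    rfl k0_pm_213_a

noncomputable def f_pm_213_b : ℕ → ℕ → ℕ → ℕ → Bool := onCell 1239849684 370763052 536870912 536870912 201326592 134217728
    (rowF 0 true true false .pnn 2 1 3 (qsf 1239849684 370763052 536870912 536870912 3) ndF1q2b ndF5q1 pcF3 Cut.none Ext.none)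

def k0_pm_213_b : ∃ t, chk3 f_pm_213_b t 1 1 1 = true :=
  ⟨(l 4), by decide +kernel⟩

theorem c_pm_213_b : CertF 1239849684 370763052 536870912 536870912 201326592 134217728 true true false .pnn 2 1 3
    ndF1q2b ndF5q1 pcF3 Cut.none Ext.none :=
  certF0 (fam := true) (s1 := true) (s2 := false) (a := 2) (b := 1) (c := 3) (cn := .pnn) (n1 := ndF1q2b) (n2 := ndF5q1) (pc := pcF3) (cut := Cut.none) (xt := Ext.none) (P1 := 1239849684) (W1 := 370763052) (P2 := 536870912) (W2 := 536870912) (P3 := 201326592) (W3 := 134217728)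
    rfl k0_pm_213_b

noncomputable def f_pm_303 : ℕ → ℕ → ℕ → ℕ → Bool := onCell 1610612736 536870912 0 536870912 201326592 134217728
    (rowF 0 true true false .npn 3 0 3 (qsf 1610612736 536870912 0 536870912 3) ndF1q3 ndF5q0 pcF3 Cut.none Ext.none)

def k0_pm_303 : ∃ t, chk3 f_pm_303 t 1 1 1 = true :=
  ⟨(l 4), by decide +kernel⟩

theorem c_pm_303 : CertF 1610612736 536870912 0 536870912 201326592 134217728 true true false .npn 3 0 3
    ndF1q3 ndF5q0 pcF3 Cut.none Ext.none :=
  certF0 (fam := true) (s1 := true) (s2 := false) (a := 3) (b := 0) (c := 3) (cn := .npn) (n1 := ndF1q3) (n2 := ndF5q0) (pc := pcF3) (cut := Cut.none) (xt := Ext.none) (P1 := 1610612736) (W1 := 536870912) (P2 := 0) (W2 := 536870912) (P3 := 201326592) (W3 := 134217728)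
    rfl k0_pm_303

noncomputable def f_pm_313 : ℕ → ℕ → ℕ → ℕ → Bool := onCell 1610612736 536870912 536870912 536870912 201326592 134217728
    (rowF 0 true true false .dn 3 1 3 (qsf 1610612736 536870912 536870912 536870912 3) ndF1q3 ndF5q1 pcF3 Cut.none Ext.none)

def k0_pm_313 : ∃ t, chk3 f_pm_313 t 1 1 1 = true :=
  ⟨(l 4), by decide +kernel⟩

theorem c_pm_313 : CertF 1610612736 536870912 536870912 536870912 201326592 134217728 true true false .dn 3 1 3
    ndF1q3 ndF5q1 pcF3 Cut.none Ext.none :=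
  certF0 (fam := true) (s1 := true) (s2 := false) (a := 3) (b := 1) (c := 3) (cn := .dn) (n1 := ndF1q3) (n2 := ndF5q1) (pc := pcF3) (cut := Cut.none) (xt := Ext.none) (P1 := 1610612736) (W1 := 536870912) (P2 := 536870912) (W2 := 536870912) (P3 := 201326592) (W3 := 134217728)
    rfl k0_pm_313

noncomputable def f_mm_001 : ℕ → ℕ → ℕ → ℕ → Bool := onCell 0 536870912 0 536870912 201326592 134217728
    (rowF 0 true false false .up 0 0 1 (qsf 0 536870912 0 536870912 1) ndF1q0 ndF5q0 pcF1 Cut.none Ext.none)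

def k0_mm_001 : ∃ t, chk3 f_mm_001 t 1 1 1 = true :=
  ⟨(l 4), by decide +kernel⟩

theorem c_mm_001 : CertF 0 536870912 0 536870912 201326592 134217728 true false false .up 0 0 1
    ndF1q0 ndF5q0 pcF1 Cut.none Ext.none :=
  certF0 (fam := true) (s1 := false) (s2 := false) (a := 0) (b := 0) (c := 1) (cn := .up) (n1 := ndF1q0) (n2 := ndF5q0) (pc := pcF1) (cut := Cut.none) (xt := Ext.none) (P1 := 0) (W1 := 536870912) (P2 := 0) (W2 := 536870912) (P3 := 201326592) (W3 := 134217728)
    rfl k0_mm_001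

noncomputable def f_mm_011 : ℕ → ℕ → ℕ → ℕ → Bool := onCell 0 536870912 536870912 536870912 201326592 134217728
    (rowF 0 true false false .pnn 0 1 1 (qsf 0 536870912 536870912 536870912 1) ndF1q0 ndF5q1 pcF1 Cut.none Ext.none)

def k0_mm_011 : ∃ t, chk3 f_mm_011 t 1 1 1 = true :=
  ⟨(l 4), by decide +kernel⟩

theorem c_mm_011 : CertF 0 536870912 536870912 536870912 201326592 134217728 true false false .pnn 0 1 1
    ndF1q0 ndF5q1 pcF1 Cut.none Ext.none :=
  certF0 (fam := true) (s1 := false) (s2 := false) (a := 0) (b := 1) (c := 1) (cn := .pnn) (n1 := ndF1q0) (n2 := ndF5q1) (pc := pcF1) (cut := Cut.none) (xt := Ext.none) (P1 := 0) (W1 := 536870912) (P2 := 536870912) (W2 := 536870912) (P3 := 201326592) (W3 := 134217728)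
    rfl k0_mm_011

noncomputable def f_mm_012 : ℕ → ℕ → ℕ → ℕ → Bool := onCell 0 536870912 536870912 536870912 201326592 134217728
    (rowF 0 true false false .pnp 0 1 2 (qsf 0 536870912 536870912 536870912 2) ndF1q0 ndF5q1 pcF2 Cut.none Ext.none)

def k0_mm_012 : ∃ t, chk3 f_mm_012 t 1 1 1 = true :=
  ⟨(l 4), by decide +kernel⟩

theorem c_mm_012 : CertF 0 536870912 536870912 536870912 201326592 134217728 true false false .pnp 0 1 2
    ndF1q0 ndF5q1 pcF2 Cut.none Ext.none :=
  certF0 (fam := true) (s1 := false) (s2 := false) (a := 0) (b := 1) (c := 2) (cn := .pnp) (n1 := ndF1q0) (n2 := ndF5q1) (pc := pcF2) (cut := Cut.none) (xt := Ext.none) (P1 := 0) (W1 := 536870912) (P2 := 536870912) (W2 := 536870912) (P3 := 201326592) (W3 := 134217728)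
    rfl k0_mm_012

noncomputable def f_mm_022 : ℕ → ℕ → ℕ → ℕ → Bool := onCell 0 536870912 1073741824 536870912 201326592 134217728
    (rowF 0 true false false .pp 0 2 2 (qsf 0 536870912 1073741824 536870912 2) ndF1q0 ndF5q2 pcF2 Cut.none Ext.none)

def k0_mm_022 : ∃ t, chk3 f_mm_022 t 1 1 1 = true :=
  ⟨(l 4), by decide +kernel⟩

theorem c_mm_022 : CertF 0 536870912 1073741824 536870912 201326592 134217728 true false false .pp 0 2 2
    ndF1q0 ndF5q2 pcF2 Cut.none Ext.none :=
  certF0 (fam := true) (s1 := false) (s2 := false) (a := 0) (b := 2) (c := 2) (cn := .pp) (n1 := ndF1q0) (n2 := ndF5q2) (pc := pcF2) (cut := Cut.none) (xt := Ext.none) (P1 := 0) (W1 := 536870912) (P2 := 1073741824) (W2 := 536870912) (P3 := 201326592) (W3 := 134217728)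
    rfl k0_mm_022

noncomputable def f_mm_023 : ℕ → ℕ → ℕ → ℕ → Bool := onCell 0 536870912 1073741824 536870912 201326592 134217728
    (rowF 0 true false false .up 0 2 3 (qsf 0 536870912 1073741824 536870912 3) ndF1q0 ndF5q2 pcF3 Cut.none Ext.none)

def k0_mm_023 : ∃ t, chk3 f_mm_023 t 1 1 1 = true :=
  ⟨(l 4), by decide +kernel⟩

theorem c_mm_023 : CertF 0 536870912 1073741824 536870912 201326592 134217728 true false false .up 0 2 3
    ndF1q0 ndF5q2 pcF3 Cut.none Ext.none :=
  certF0 (fam := true) (s1 := false) (s2 := false) (a := 0) (b := 2) (c := 3) (cn := .up) (n1 := ndF1q0) (n2 := ndF5q2) (pc := pcF3) (cut := Cut.none) (xt := Ext.none) (P1 := 0) (W1 := 536870912) (P2 := 1073741824) (W2 := 536870912) (P3 := 201326592) (W3 := 134217728)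
    rfl k0_mm_023

noncomputable def f_mm_033 : ℕ → ℕ → ℕ → ℕ → Bool := onCell 0 536870912 0 1230186008 201326592 134217728
    (rowF 0 true false false .pnn 0 3 3 (qsf 0 536870912 0 1230186008 3) ndF1q0 ndF5q3 pcF3 Cut.none Ext.none)

def k0_mm_033 : ∃ t, chk3 f_mm_033 t 1 1 1 = true :=
  ⟨(l 4), by decide +kernel⟩

theorem c_mm_033 : CertF 0 536870912 0 1230186008 201326592 134217728 true false false .pnn 0 3 3
    ndF1q0 ndF5q3 pcF3 Cut.none Ext.none :=
  certF0 (fam := true) (s1 := false) (s2 := false) (a := 0) (b := 3) (c := 3) (cn := .pnn) (n1 := ndF1q0) (n2 := ndF5q3) (pc := pcF3) (cut := Cut.none) (xt := Ext.none) (P1 := 0) (W1 := 536870912) (P2 := 0) (W2 := 1230186008) (P3 := 201326592) (W3 := 134217728)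
    rfl k0_mm_033

noncomputable def f_mm_101 : ℕ → ℕ → ℕ → ℕ → Bool := onCell 536870912 536870912 0 536870912 201326592 134217728
    (rowF 0 true false false .npn 1 0 1 (qsf 536870912 536870912 0 536870912 1) ndF1q1 ndF5q0 pcF1 Cut.none Ext.none)

def k0_mm_101 : ∃ t, chk3 f_mm_101 t 1 1 1 = true :=
  ⟨(l 4), by decide +kernel⟩

theorem c_mm_101 : CertF 536870912 536870912 0 536870912 201326592 134217728 true false false .npn 1 0 1
    ndF1q1 ndF5q0 pcF1 Cut.none Ext.none :=
  certF0 (fam := true) (s1 := false) (s2 := false) (a := 1) (b := 0) (c := 1) (cn := .npn) (n1 := ndF1q1) (n2 := ndF5q0) (pc := pcF1) (cut := Cut.none) (xt := Ext.none) (P1 := 536870912) (W1 := 536870912) (P2 := 0) (W2 := 536870912) (P3 := 201326592) (W3 := 134217728)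
    rfl k0_mm_101

noncomputable def f_mm_102 : ℕ → ℕ → ℕ → ℕ → Bool := onCell 536870912 536870912 0 536870912 201326592 134217728
    (rowF 0 true false false .npp 1 0 2 (qsf 536870912 536870912 0 536870912 2) ndF1q1 ndF5q0 pcF2 Cut.none Ext.none)

def k0_mm_102 : ∃ t, chk3 f_mm_102 t 1 1 1 = true :=
  ⟨(l 4), by decide +kernel⟩

theorem c_mm_102 : CertF 536870912 536870912 0 536870912 201326592 134217728 true false false .npp 1 0 2
    ndF1q1 ndF5q0 pcF2 Cut.none Ext.none :=
  certF0 (fam := true) (s1 := false) (s2 := false) (a := 1) (b := 0) (c := 2) (cn := .npp) (n1 := ndF1q1) (n2 := ndF5q0) (pc := pcF2) (cut := Cut.none) (xt := Ext.none) (P1 := 536870912) (W1 := 536870912) (P2 := 0) (W2 := 536870912) (P3 := 201326592) (W3 := 134217728)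
    rfl k0_mm_102

noncomputable def f_mm_112 : ℕ → ℕ → ℕ → ℕ → Bool := onCell 536870912 536870912 536870912 536870912 201326592 134217728
    (rowF 0 true false false .dn 1 1 2 (qsf 536870912 536870912 536870912 536870912 2) ndF1q1 ndF5q1 pcF2 Cut.none Ext.none)

def k0_mm_112 : ∃ t, chk3 f_mm_112 t 1 1 1 = true :=
  ⟨(l 4), by decide +kernel⟩

theorem c_mm_112 : CertF 536870912 536870912 536870912 536870912 201326592 134217728 true false false .dn 1 1 2
    ndF1q1 ndF5q1 pcF2 Cut.none Ext.none :=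
  certF0 (fam := true) (s1 := false) (s2 := false) (a := 1) (b := 1) (c := 2) (cn := .dn) (n1 := ndF1q1) (n2 := ndF5q1) (pc := pcF2) (cut := Cut.none) (xt := Ext.none) (P1 := 536870912) (W1 := 536870912) (P2 := 536870912) (W2 := 536870912) (P3 := 201326592) (W3 := 134217728)
    rfl k0_mm_112

noncomputable def f_mm_113 : ℕ → ℕ → ℕ → ℕ → Bool := onCell 536870912 536870912 536870912 536870912 201326592 134217728
    (rowF 0 true false false .nn 1 1 3 (qsf 536870912 536870912 536870912 536870912 3) ndF1q1 ndF5q1 pcF3 Cut.none Ext.none)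

def k0_mm_113 : ∃ t, chk3 f_mm_113 t 1 1 1 = true :=
  ⟨(l 4), by decide +kernel⟩

theorem c_mm_113 : CertF 536870912 536870912 536870912 536870912 201326592 134217728 true false false .nn 1 1 3
    ndF1q1 ndF5q1 pcF3 Cut.none Ext.none :=
  certF0 (fam := true) (s1 := false) (s2 := false) (a := 1) (b := 1) (c := 3) (cn := .nn) (n1 := ndF1q1) (n2 := ndF5q1) (pc := pcF3) (cut := Cut.none) (xt := Ext.none) (P1 := 536870912) (W1 := 536870912) (P2 := 536870912) (W2 := 536870912) (P3 := 201326592) (W3 := 134217728)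
    rfl k0_mm_113

noncomputable def f_mm_123 : ℕ → ℕ → ℕ → ℕ → Bool := onCell 536870912 536870912 1073741824 536870912 201326592 134217728
    (rowF 0 true false false .npn 1 2 3 (qsf 536870912 536870912 1073741824 536870912 3) ndF1q1 ndF5q2 pcF3 Cut.none Ext.none)

def k0_mm_123 : ∃ t, chk3 f_mm_123 t 1 1 1 = true :=
  ⟨(l 4), by decide +kernel⟩

theorem c_mm_123 : CertF 536870912 536870912 1073741824 536870912 201326592 134217728 true false false .npn 1 2 3
    ndF1q1 ndF5q2 pcF3 Cut.none Ext.none :=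
  certF0 (fam := true) (s1 := false) (s2 := false) (a := 1) (b := 2) (c := 3) (cn := .npn) (n1 := ndF1q1) (n2 := ndF5q2) (pc := pcF3) (cut := Cut.none) (xt := Ext.none) (P1 := 536870912) (W1 := 536870912) (P2 := 1073741824) (W2 := 536870912) (P3 := 201326592) (W3 := 134217728)
    rfl k0_mm_123

noncomputable def f_mm_133 : ℕ → ℕ → ℕ → ℕ → Bool := onCell 536870912 536870912 0 1230186008 201326592 134217728
    (rowF 0 true false false .dn 1 3 3 (qsf 536870912 536870912 0 1230186008 3) ndF1q1 ndF5q3 pcF3 Cut.none Ext.none)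

def k0_mm_133 : ∃ t, chk3 f_mm_133 t 1 1 1 = true :=
  ⟨(l 4), by decide +kernel⟩

theorem c_mm_133 : CertF 536870912 536870912 0 1230186008 201326592 134217728 true false false .dn 1 3 3
    ndF1q1 ndF5q3 pcF3 Cut.none Ext.none :=
  certF0 (fam := true) (s1 := false) (s2 := false) (a := 1) (b := 3) (c := 3) (cn := .dn) (n1 := ndF1q1) (n2 := ndF5q3) (pc := pcF3) (cut := Cut.none) (xt := Ext.none) (P1 := 536870912) (W1 := 536870912) (P2 := 0) (W2 := 1230186008) (P3 := 201326592) (W3 := 134217728)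
    rfl k0_mm_133

noncomputable def f_mm_202_a : ℕ → ℕ → ℕ → ℕ → Bool := onCell 0 536870912 0 536870912 201326592 134217728
    (rowF 0 true false false .pp 2 0 2 (qsf 0 536870912 0 536870912 2) ndF1q2a ndF5q0 pcF2 Cut.none Ext.none)

def k0_mm_202_a : ∃ t, chk3 f_mm_202_a t 1 1 1 = true :=
  ⟨(l 4), by decide +kernel⟩

theorem c_mm_202_a : CertF 0 536870912 0 536870912 201326592 134217728 true false false .pp 2 0 2
    ndF1q2a ndF5q0 pcF2 Cut.none Ext.none :=
  certF0 (fam := true) (s1 := false) (s2 := false) (a := 2) (b := 0) (c := 2) (cn := .pp) (n1 := ndF1q2a) (n2 := ndF5q0) (pc := pcF2) (cut := Cut.none) (xt := Ext.none) (P1 := 0) (W1 := 536870912) (P2 := 0) (W2 := 536870912) (P3 := 201326592) (W3 := 134217728)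
    rfl k0_mm_202_a

noncomputable def f_mm_202_b : ℕ → ℕ → ℕ → ℕ → Bool := onCell 1239849684 370763052 0 536870912 201326592 134217728
    (rowF 0 true false false .pp 2 0 2 (qsf 1239849684 370763052 0 536870912 2) ndF1q2b ndF5q0 pcF2 Cut.none Ext.none)

def k0_mm_202_b : ∃ t, chk3 f_mm_202_b t 1 1 1 = true :=
  ⟨(l 4), by decide +kernel⟩

theorem c_mm_202_b : CertF 1239849684 370763052 0 536870912 201326592 134217728 true false false .pp 2 0 2
    ndF1q2b ndF5q0 pcF2 Cut.none Ext.none :=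
  certF0 (fam := true) (s1 := false) (s2 := false) (a := 2) (b := 0) (c := 2) (cn := .pp) (n1 := ndF1q2b) (n2 := ndF5q0) (pc := pcF2) (cut := Cut.none) (xt := Ext.none) (P1 := 1239849684) (W1 := 370763052) (P2 := 0) (W2 := 536870912) (P3 := 201326592) (W3 := 134217728)
    rfl k0_mm_202_b

noncomputable def f_mm_203_a : ℕ → ℕ → ℕ → ℕ → Bool := onCell 0 536870912 0 536870912 201326592 134217728
    (rowF 0 true false false .up 2 0 3 (qsf 0 536870912 0 536870912 3) ndF1q2a ndF5q0 pcF3 Cut.none Ext.none)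

def k0_mm_203_a : ∃ t, chk3 f_mm_203_a t 1 1 1 = true :=
  ⟨(l 4), by decide +kernel⟩

theorem c_mm_203_a : CertF 0 536870912 0 536870912 201326592 134217728 true false false .up 2 0 3
    ndF1q2a ndF5q0 pcF3 Cut.none Ext.none :=
  certF0 (fam := true) (s1 := false) (s2 := false) (a := 2) (b := 0) (c := 3) (cn := .up) (n1 := ndF1q2a) (n2 := ndF5q0) (pc := pcF3) (cut := Cut.none) (xt := Ext.none) (P1 := 0) (W1 := 536870912) (P2 := 0) (W2 := 536870912) (P3 := 201326592) (W3 := 134217728)
    rfl k0_mm_203_a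

noncomputable def f_mm_203_b : ℕ → ℕ → ℕ → ℕ → Bool := onCell 1239849684 370763052 0 536870912 201326592 134217728
    (rowF 0 true false false .up 2 0 3 (qsf 1239849684 370763052 0 536870912 3) ndF1q2b ndF5q0 pcF3 Cut.none Ext.none)

def k0_mm_203_b : ∃ t, chk3 f_mm_203_b t 1 1 1 = true :=
  ⟨(l 4), by decide +kernel⟩

theorem c_mm_203_b : CertF 1239849684 370763052 0 536870912 201326592 134217728 true false false .up 2 0 3
    ndF1q2b ndF5q0 pcF3 Cut.none Ext.none :=
  certF0 (fam := true) (s1 := false) (s2 := false) (a := 2) (b := 0) (c := 3) (cn := .up) (n1 := ndF1q2b) (n2 := ndF5q0) (pc := pcF3) (cut := Cut.none) (xt := Ext.none) (P1 := 1239849684) (W1 := 370763052) (P2 := 0) (W2 := 536870912) (P3 := 201326592) (W3 := 134217728)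
    rfl k0_mm_203_b

noncomputable def f_mm_213_a : ℕ → ℕ → ℕ → ℕ → Bool := onCell 0 536870912 536870912 536870912 201326592 134217728
    (rowF 0 true false false .pnn 2 1 3 (qsf 0 536870912 536870912 536870912 3) ndF1q2a ndF5q1 pcF3 Cut.none Ext.none)

def k0_mm_213_a : ∃ t, chk3 f_mm_213_a t 1 1 1 = true :=
  ⟨(l 4), by decide +kernel⟩

theorem c_mm_213_a : CertF 0 536870912 536870912 536870912 201326592 134217728 true false false .pnn 2 1 3
    ndF1q2a ndF5q1 pcF3 Cut.none Ext.none :=
  certF0 (fam := true) (s1 := false) (s2 := false) (a := 2) (b := 1) (c := 3) (cn := .pnn) (n1 := ndF1q2a) (n2 := ndF5q1) (pc := pcF3) (cut := Cut.none) (xt := Ext.none) (P1 := 0) (W1 := 536870912) (P2 := 536870912) (W2 := 536870912) (P3 := 201326592) (W3 := 134217728)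
    rfl k0_mm_213_a

noncomputable def f_mm_213_b : ℕ → ℕ → ℕ → ℕ → Bool := onCell 1239849684 370763052 536870912 536870912 201326592 134217728
    (rowF 0 true false false .pnn 2 1 3 (qsf 1239849684 370763052 536870912 536870912 3) ndF1q2b ndF5q1 pcF3 Cut.none Ext.none)

def k0_mm_213_b : ∃ t, chk3 f_mm_213_b t 1 1 1 = true :=
  ⟨(l 4), by decide +kernel⟩

theorem c_mm_213_b : CertF 1239849684 370763052 536870912 536870912 201326592 134217728 true false false .pnn 2 1 3
    ndF1q2b ndF5q1 pcF3 Cut.none Ext.none :=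
  certF0 (fam := true) (s1 := false) (s2 := false) (a := 2) (b := 1) (c := 3) (cn := .pnn) (n1 := ndF1q2b) (n2 := ndF5q1) (pc := pcF3) (cut := Cut.none) (xt := Ext.none) (P1 := 1239849684) (W1 := 370763052) (P2 := 536870912) (W2 := 536870912) (P3 := 201326592) (W3 := 134217728)
    rfl k0_mm_213_b

noncomputable def f_mm_303 : ℕ → ℕ → ℕ → ℕ → Bool := onCell 1610612736 536870912 0 536870912 201326592 134217728
    (rowF 0 true false false .npn 3 0 3 (qsf 1610612736 536870912 0 536870912 3) ndF1q3 ndF5q0 pcF3 Cut.none Ext.none)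

def k0_mm_303 : ∃ t, chk3 f_mm_303 t 1 1 1 = true :=
  ⟨(l 4), by decide +kernel⟩

theorem c_mm_303 : CertF 1610612736 536870912 0 536870912 201326592 134217728 true false false .npn 3 0 3
    ndF1q3 ndF5q0 pcF3 Cut.none Ext.none :=
  certF0 (fam := true) (s1 := false) (s2 := false) (a := 3) (b := 0) (c := 3) (cn := .npn) (n1 := ndF1q3) (n2 := ndF5q0) (pc := pcF3) (cut := Cut.none) (xt := Ext.none) (P1 := 1610612736) (W1 := 536870912) (P2 := 0) (W2 := 536870912) (P3 := 201326592) (W3 := 134217728)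
    rfl k0_mm_303

noncomputable def f_mm_313 : ℕ → ℕ → ℕ → ℕ → Bool := onCell 1610612736 536870912 536870912 536870912 201326592 134217728
    (rowF 0 true false false .dn 3 1 3 (qsf 1610612736 536870912 536870912 536870912 3) ndF1q3 ndF5q1 pcF3 Cut.none Ext.none)

def k0_mm_313 : ∃ t, chk3 f_mm_313 t 1 1 1 = true :=
  ⟨(l 4), by decide +kernel⟩

theorem c_mm_313 : CertF 1610612736 536870912 536870912 536870912 201326592 134217728 true false false .dn 3 1 3
    ndF1q3 ndF5q1 pcF3 Cut.none Ext.none :=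
  certF0 (fam := true) (s1 := false) (s2 := false) (a := 3) (b := 1) (c := 3) (cn := .dn) (n1 := ndF1q3) (n2 := ndF5q1) (pc := pcF3) (cut := Cut.none) (xt := Ext.none) (P1 := 1610612736) (W1 := 536870912) (P2 := 536870912) (W2 := 536870912) (P3 := 201326592) (W3 := 134217728)
    rfl k0_mm_313

end Pool.Agent.Strip051.G.I3_16_5_16.Tab.C.FA15

namespace Pool.Agent.Strip051.G.I3_16_5_16.Tab.C.FA22

open Pool.Agent.Strip051.PB Pool.Agent.Strip051.PB.T
open Pool.Agent.Strip051.G.I3_16_5_16.Tab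

noncomputable def f_pp_001 : ℕ → ℕ → ℕ → ℕ → Bool := onCell 0 536870912 0 536870912 201326592 134217728
    (rowF 0 true true true .up 0 0 1 (qsf 0 536870912 0 536870912 1) ndF2q0 ndF2q0 pcF1 Cut.none Ext.none)

def k0_pp_001 : ∃ t, chk3 f_pp_001 t 1 1 1 = true :=
  ⟨(l 4), by decide +kernel⟩

theorem c_pp_001 : CertF 0 536870912 0 536870912 201326592 134217728 true true true .up 0 0 1
    ndF2q0 ndF2q0 pcF1 Cut.none Ext.none :=
  certF0 (fam := true) (s1 := true) (s2 := true) (a := 0) (b := 0) (c := 1) (cn := .up) (n1 := ndF2q0) (n2 := ndF2q0) (pc := pcF1) (cut := Cut.none) (xt := Ext.none) (P1 := 0) (W1 := 536870912) (P2 := 0) (W2 := 536870912) (P3 := 201326592) (W3 := 134217728)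
    rfl k0_pp_001

noncomputable def f_pp_011 : ℕ → ℕ → ℕ → ℕ → Bool := onCell 0 536870912 536870912 536870912 201326592 134217728
    (rowF 0 true true true .pnn 0 1 1 (qsf 0 536870912 536870912 536870912 1) ndF2q0 ndF2q1 pcF1 Cut.none Ext.none)

def k0_pp_011 : ∃ t, chk3 f_pp_011 t 1 1 1 = true :=
  ⟨(l 4), by decide +kernel⟩

theorem c_pp_011 : CertF 0 536870912 536870912 536870912 201326592 134217728 true true true .pnn 0 1 1
    ndF2q0 ndF2q1 pcF1 Cut.none Ext.none :=
  certF0 (fam := true) (s1 := true) (s2 := true) (a := 0) (b := 1) (c := 1) (cn := .pnn) (n1 := ndF2q0) (n2 := ndF2q1) (pc := pcF1) (cut := Cut.none) (xt := Ext.none) (P1 := 0) (W1 := 536870912) (P2 := 536870912) (W2 := 536870912) (P3 := 201326592) (W3 := 134217728)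
    rfl k0_pp_011

noncomputable def f_pp_012 : ℕ → ℕ → ℕ → ℕ → Bool := onCell 0 536870912 536870912 536870912 201326592 134217728
    (rowF 0 true true true .pnp 0 1 2 (qsf 0 536870912 536870912 536870912 2) ndF2q0 ndF2q1 pcF2 Cut.none Ext.none)

def k0_pp_012 : ∃ t, chk3 f_pp_012 t 1 1 1 = true :=
  ⟨(l 4), by decide +kernel⟩

theorem c_pp_012 : CertF 0 536870912 536870912 536870912 201326592 134217728 true true true .pnp 0 1 2
    ndF2q0 ndF2q1 pcF2 Cut.none Ext.none :=
  certF0 (fam := true) (s1 := true) (s2 := true) (a := 0) (b := 1) (c := 2) (cn := .pnp) (n1 := ndF2q0) (n2 := ndF2q1) (pc := pcF2) (cut := Cut.none) (xt := Ext.none) (P1 := 0) (W1 := 536870912) (P2 := 536870912) (W2 := 536870912) (P3 := 201326592) (W3 := 134217728)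
    rfl k0_pp_012

noncomputable def cut_pp_022_a : Cut := Cut.of [[⟨0, 0, 0, 67108864⟩, ⟨1, 1, 0, 67108864⟩, ⟨2, 1, 0, 67108864⟩]]

noncomputable def f_pp_022_a : ℕ → ℕ → ℕ → ℕ → Bool := onCell 0 536870912 0 536870912 201326592 134217728
    (rowF 0 true true true .pp 0 2 2 (qsf 0 536870912 0 536870912 2) ndF2q0 ndF2q2a pcF2 cut_pp_022_a Ext.none)

def k0_pp_022_a : ∃ t, chk3 f_pp_022_a t 1 1 1 = true :=
  ⟨(a (b (l 4) (a (a (b (l 4) (b (l 4) (a (b (l 4) (l 6)) (l 4)))) (l 4)) (l 4))) (l 4)), by decide +kernel⟩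

theorem c_pp_022_a : CertF 0 536870912 0 536870912 201326592 134217728 true true true .pp 0 2 2
    ndF2q0 ndF2q2a pcF2 cut_pp_022_a Ext.none :=
  certF0 (fam := true) (s1 := true) (s2 := true) (a := 0) (b := 2) (c := 2) (cn := .pp) (n1 := ndF2q0) (n2 := ndF2q2a) (pc := pcF2) (cut := cut_pp_022_a) (xt := Ext.none) (P1 := 0) (W1 := 536870912) (P2 := 0) (W2 := 536870912) (P3 := 201326592) (W3 := 134217728)
    rfl k0_pp_022_a

noncomputable def cut_pp_022_b : Cut := Cut.of [[⟨0, 0, 0, 67108864⟩, ⟨1, 1, 0, 67108864⟩, ⟨2, 1, 0, 67108864⟩]]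

noncomputable def f_pp_022_b : ℕ → ℕ → ℕ → ℕ → Bool := onCell 0 536870912 1239849684 370763052 201326592 134217728
    (rowF 0 true true true .pp 0 2 2 (qsf 0 536870912 1239849684 370763052 2) ndF2q0 ndF2q2b pcF2 cut_pp_022_b Ext.none)

def k0_pp_022_b : ∃ t, chk3 f_pp_022_b t 1 1 1 = true :=
  ⟨(a (b (l 4) (l 4)) (l 4)), by decide +kernel⟩

theorem c_pp_022_b : CertF 0 536870912 1239849684 370763052 201326592 134217728 true true true .pp 0 2 2
    ndF2q0 ndF2q2b pcF2 cut_pp_022_b Ext.none :=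
  certF0 (fam := true) (s1 := true) (s2 := true) (a := 0) (b := 2) (c := 2) (cn := .pp) (n1 := ndF2q0) (n2 := ndF2q2b) (pc := pcF2) (cut := cut_pp_022_b) (xt := Ext.none) (P1 := 0) (W1 := 536870912) (P2 := 1239849684) (W2 := 370763052) (P3 := 201326592) (W3 := 134217728)
    rfl k0_pp_022_b

noncomputable def f_pp_023_a : ℕ → ℕ → ℕ → ℕ → Bool := onCell 1610612736 536870912 0 536870912 201326592 134217728
    (rowF 2 true true true .up 0 2 3 (qsf 0 536870912 0 536870912 3) ndF2q0 ndF2q2a pcF3 Cut.none Ext.none)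

def k0_pp_023_a : ∃ t, chk3 f_pp_023_a t 1 1 1 = true :=
  ⟨(l 4), by decide +kernel⟩

theorem c_pp_023_a : CertF 0 536870912 0 536870912 201326592 134217728 true true true .up 0 2 3
    ndF2q0 ndF2q2a pcF3 Cut.none Ext.none :=
  certF2 (fam := true) (s1 := true) (s2 := true) (a := 0) (b := 2) (c := 3) (cn := .up) (n1 := ndF2q0) (n2 := ndF2q2a) (pc := pcF3) (cut := Cut.none) (xt := Ext.none) (P1 := 0) (W1 := 536870912) (P2 := 0) (W2 := 536870912) (P3 := 201326592) (W3 := 134217728)
    rfl (fun _ => rfl) k0_pp_023_a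

noncomputable def f_pp_023_b : ℕ → ℕ → ℕ → ℕ → Bool := onCell 1610612736 536870912 1239849684 370763052 201326592 134217728
    (rowF 2 true true true .up 0 2 3 (qsf 0 536870912 1239849684 370763052 3) ndF2q0 ndF2q2b pcF3 Cut.none Ext.none)

def k0_pp_023_b : ∃ t, chk3 f_pp_023_b t 1 1 1 = true :=
  ⟨(l 4), by decide +kernel⟩

theorem c_pp_023_b : CertF 0 536870912 1239849684 370763052 201326592 134217728 true true true .up 0 2 3
    ndF2q0 ndF2q2b pcF3 Cut.none Ext.none :=
  certF2 (fam := true) (s1 := true) (s2 := true) (a := 0) (b := 2) (c := 3) (cn := .up) (n1 := ndF2q0) (n2 := ndF2q2b) (pc := pcF3) (cut := Cut.none) (xt := Ext.none) (P1 := 0) (W1 := 536870912) (P2 := 1239849684) (W2 := 370763052) (P3 := 201326592) (W3 := 134217728)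
    rfl (fun _ => rfl) k0_pp_023_b

noncomputable def f_pp_033 : ℕ → ℕ → ℕ → ℕ → Bool := onCell 0 536870912 1610612736 536870912 201326592 134217728
    (rowF 0 true true true .pnn 0 3 3 (qsf 0 536870912 1610612736 536870912 3) ndF2q0 ndF2q3 pcF3 Cut.none Ext.none)

def k0_pp_033 : ∃ t, chk3 f_pp_033 t 1 1 1 = true :=
  ⟨(l 4), by decide +kernel⟩

theorem c_pp_033 : CertF 0 536870912 1610612736 536870912 201326592 134217728 true true true .pnn 0 3 3
    ndF2q0 ndF2q3 pcF3 Cut.none Ext.none :=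
  certF0 (fam := true) (s1 := true) (s2 := true) (a := 0) (b := 3) (c := 3) (cn := .pnn) (n1 := ndF2q0) (n2 := ndF2q3) (pc := pcF3) (cut := Cut.none) (xt := Ext.none) (P1 := 0) (W1 := 536870912) (P2 := 1610612736) (W2 := 536870912) (P3 := 201326592) (W3 := 134217728)
    rfl k0_pp_033

noncomputable def f_pp_101 : ℕ → ℕ → ℕ → ℕ → Bool := onCell 536870912 536870912 0 536870912 201326592 134217728
    (rowF 0 true true true .npn 1 0 1 (qsf 536870912 536870912 0 536870912 1) ndF2q1 ndF2q0 pcF1 Cut.none Ext.none)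

def k0_pp_101 : ∃ t, chk3 f_pp_101 t 1 1 1 = true :=
  ⟨(l 4), by decide +kernel⟩

theorem c_pp_101 : CertF 536870912 536870912 0 536870912 201326592 134217728 true true true .npn 1 0 1
    ndF2q1 ndF2q0 pcF1 Cut.none Ext.none :=
  certF0 (fam := true) (s1 := true) (s2 := true) (a := 1) (b := 0) (c := 1) (cn := .npn) (n1 := ndF2q1) (n2 := ndF2q0) (pc := pcF1) (cut := Cut.none) (xt := Ext.none) (P1 := 536870912) (W1 := 536870912) (P2 := 0) (W2 := 536870912) (P3 := 201326592) (W3 := 134217728)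
    rfl k0_pp_101

noncomputable def f_pp_102 : ℕ → ℕ → ℕ → ℕ → Bool := onCell 536870912 536870912 0 536870912 201326592 134217728
    (rowF 0 true true true .npp 1 0 2 (qsf 536870912 536870912 0 536870912 2) ndF2q1 ndF2q0 pcF2 Cut.none Ext.none)

def k0_pp_102 : ∃ t, chk3 f_pp_102 t 1 1 1 = true :=
  ⟨(l 4), by decide +kernel⟩

theorem c_pp_102 : CertF 536870912 536870912 0 536870912 201326592 134217728 true true true .npp 1 0 2
    ndF2q1 ndF2q0 pcF2 Cut.none Ext.none :=
  certF0 (fam := true) (s1 := true) (s2 := true) (a := 1) (b := 0) (c := 2) (cn := .npp) (n1 := ndF2q1) (n2 := ndF2q0) (pc := pcF2) (cut := Cut.none) (xt := Ext.none) (P1 := 536870912) (W1 := 536870912) (P2 := 0) (W2 := 536870912) (P3 := 201326592) (W3 := 134217728)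
    rfl k0_pp_102

noncomputable def f_pp_112 : ℕ → ℕ → ℕ → ℕ → Bool := onCell 536870912 536870912 536870912 536870912 201326592 134217728
    (rowF 0 true true true .dn 1 1 2 (qsf 536870912 536870912 536870912 536870912 2) ndF2q1 ndF2q1 pcF2 Cut.none Ext.none)

def k0_pp_112 : ∃ t, chk3 f_pp_112 t 1 1 1 = true :=
  ⟨(l 4), by decide +kernel⟩

theorem c_pp_112 : CertF 536870912 536870912 536870912 536870912 201326592 134217728 true true true .dn 1 1 2
    ndF2q1 ndF2q1 pcF2 Cut.none Ext.none :=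
  certF0 (fam := true) (s1 := true) (s2 := true) (a := 1) (b := 1) (c := 2) (cn := .dn) (n1 := ndF2q1) (n2 := ndF2q1) (pc := pcF2) (cut := Cut.none) (xt := Ext.none) (P1 := 536870912) (W1 := 536870912) (P2 := 536870912) (W2 := 536870912) (P3 := 201326592) (W3 := 134217728)
    rfl k0_pp_112

noncomputable def f_pp_113 : ℕ → ℕ → ℕ → ℕ → Bool := onCell 536870912 536870912 536870912 536870912 201326592 134217728
    (rowF 0 true true true .nn 1 1 3 (qsf 536870912 536870912 536870912 536870912 3) ndF2q1 ndF2q1 pcF3 Cut.none Ext.none)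

def k0_pp_113 : ∃ t, chk3 f_pp_113 t 1 1 1 = true :=
  ⟨(l 4), by decide +kernel⟩

theorem c_pp_113 : CertF 536870912 536870912 536870912 536870912 201326592 134217728 true true true .nn 1 1 3
    ndF2q1 ndF2q1 pcF3 Cut.none Ext.none :=
  certF0 (fam := true) (s1 := true) (s2 := true) (a := 1) (b := 1) (c := 3) (cn := .nn) (n1 := ndF2q1) (n2 := ndF2q1) (pc := pcF3) (cut := Cut.none) (xt := Ext.none) (P1 := 536870912) (W1 := 536870912) (P2 := 536870912) (W2 := 536870912) (P3 := 201326592) (W3 := 134217728)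
    rfl k0_pp_113

noncomputable def f_pp_123_a : ℕ → ℕ → ℕ → ℕ → Bool := onCell 536870912 536870912 0 536870912 201326592 134217728
    (rowF 0 true true true .npn 1 2 3 (qsf 536870912 536870912 0 536870912 3) ndF2q1 ndF2q2a pcF3 Cut.none Ext.none)

def k0_pp_123_a : ∃ t, chk3 f_pp_123_a t 1 1 1 = true :=
  ⟨(l 4), by decide +kernel⟩

theorem c_pp_123_a : CertF 536870912 536870912 0 536870912 201326592 134217728 true true true .npn 1 2 3
    ndF2q1 ndF2q2a pcF3 Cut.none Ext.none :=
  certF0 (fam := true) (s1 := true) (s2 := true) (a := 1) (b := 2) (c := 3) (cn := .npn) (n1 := ndF2q1) (n2 := ndF2q2a) (pc := pcF3) (cut := Cut.none) (xt := Ext.none) (P1 := 536870912) (W1 := 536870912) (P2 := 0) (W2 := 536870912) (P3 := 201326592) (W3 := 134217728)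
    rfl k0_pp_123_a

noncomputable def f_pp_123_b : ℕ → ℕ → ℕ → ℕ → Bool := onCell 536870912 536870912 1239849684 370763052 201326592 134217728
    (rowF 0 true true true .npn 1 2 3 (qsf 536870912 536870912 1239849684 370763052 3) ndF2q1 ndF2q2b pcF3 Cut.none Ext.none)

def k0_pp_123_b : ∃ t, chk3 f_pp_123_b t 1 1 1 = true :=
  ⟨(l 4), by decide +kernel⟩

theorem c_pp_123_b : CertF 536870912 536870912 1239849684 370763052 201326592 134217728 true true true .npn 1 2 3
    ndF2q1 ndF2q2b pcF3 Cut.none Ext.none :=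
  certF0 (fam := true) (s1 := true) (s2 := true) (a := 1) (b := 2) (c := 3) (cn := .npn) (n1 := ndF2q1) (n2 := ndF2q2b) (pc := pcF3) (cut := Cut.none) (xt := Ext.none) (P1 := 536870912) (W1 := 536870912) (P2 := 1239849684) (W2 := 370763052) (P3 := 201326592) (W3 := 134217728)
    rfl k0_pp_123_b

noncomputable def f_pp_133 : ℕ → ℕ → ℕ → ℕ → Bool := onCell 536870912 536870912 1610612736 536870912 201326592 134217728
    (rowF 0 true true true .dn 1 3 3 (qsf 536870912 536870912 1610612736 536870912 3) ndF2q1 ndF2q3 pcF3 Cut.none Ext.none)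

def k0_pp_133 : ∃ t, chk3 f_pp_133 t 1 1 1 = true :=
  ⟨(l 4), by decide +kernel⟩

theorem c_pp_133 : CertF 536870912 536870912 1610612736 536870912 201326592 134217728 true true true .dn 1 3 3
    ndF2q1 ndF2q3 pcF3 Cut.none Ext.none :=
  certF0 (fam := true) (s1 := true) (s2 := true) (a := 1) (b := 3) (c := 3) (cn := .dn) (n1 := ndF2q1) (n2 := ndF2q3) (pc := pcF3) (cut := Cut.none) (xt := Ext.none) (P1 := 536870912) (W1 := 536870912) (P2 := 1610612736) (W2 := 536870912) (P3 := 201326592) (W3 := 134217728)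
    rfl k0_pp_133

noncomputable def f_pp_202_a : ℕ → ℕ → ℕ → ℕ → Bool := onCell 0 536870912 0 536870912 201326592 134217728
    (rowF 0 true true true .pp 2 0 2 (qsf 0 536870912 0 536870912 2) ndF2q2a ndF2q0 pcF2 Cut.none Ext.none)

def k0_pp_202_a : ∃ t, chk3 f_pp_202_a t 1 1 1 = true :=
  ⟨(l 5), by decide +kernel⟩

theorem c_pp_202_a : CertF 0 536870912 0 536870912 201326592 134217728 true true true .pp 2 0 2
    ndF2q2a ndF2q0 pcF2 Cut.none Ext.none :=
  certF0 (fam := true) (s1 := true) (s2 := true) (a := 2) (b := 0) (c := 2) (cn := .pp) (n1 := ndF2q2a) (n2 := ndF2q0) (pc := pcF2) (cut := Cut.none) (xt := Ext.none) (P1 := 0) (W1 := 536870912) (P2 := 0) (W2 := 536870912) (P3 := 201326592) (W3 := 134217728)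
    rfl k0_pp_202_a

noncomputable def f_pp_202_b : ℕ → ℕ → ℕ → ℕ → Bool := onCell 1239849684 370763052 0 536870912 201326592 134217728
    (rowF 0 true true true .pp 2 0 2 (qsf 1239849684 370763052 0 536870912 2) ndF2q2b ndF2q0 pcF2 Cut.none Ext.none)

def k0_pp_202_b : ∃ t, chk3 f_pp_202_b t 1 1 1 = true :=
  ⟨(l 5), by decide +kernel⟩

theorem c_pp_202_b : CertF 1239849684 370763052 0 536870912 201326592 134217728 true true true .pp 2 0 2
    ndF2q2b ndF2q0 pcF2 Cut.none Ext.none :=
  certF0 (fam := true) (s1 := true) (s2 := true) (a := 2) (b := 0) (c := 2) (cn := .pp) (n1 := ndF2q2b) (n2 := ndF2q0) (pc := pcF2) (cut := Cut.none) (xt := Ext.none) (P1 := 1239849684) (W1 := 370763052) (P2 := 0) (W2 := 536870912) (P3 := 201326592) (W3 := 134217728)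
    rfl k0_pp_202_b

noncomputable def f_pp_203_a : ℕ → ℕ → ℕ → ℕ → Bool := onCell 0 536870912 0 536870912 201326592 134217728
    (rowF 0 true true true .up 2 0 3 (qsf 0 536870912 0 536870912 3) ndF2q2a ndF2q0 pcF3 Cut.none Ext.none)

def k0_pp_203_a : ∃ t, chk3 f_pp_203_a t 1 1 1 = true :=
  ⟨(l 5), by decide +kernel⟩

theorem c_pp_203_a : CertF 0 536870912 0 536870912 201326592 134217728 true true true .up 2 0 3
    ndF2q2a ndF2q0 pcF3 Cut.none Ext.none :=
  certF0 (fam := true) (s1 := true) (s2 := true) (a := 2) (b := 0) (c := 3) (cn := .up) (n1 := ndF2q2a) (n2 := ndF2q0) (pc := pcF3) (cut := Cut.none) (xt := Ext.none) (P1 := 0) (W1 := 536870912) (P2 := 0) (W2 := 536870912) (P3 := 201326592) (W3 := 134217728)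
    rfl k0_pp_203_a

noncomputable def f_pp_203_b : ℕ → ℕ → ℕ → ℕ → Bool := onCell 1239849684 370763052 0 536870912 201326592 134217728
    (rowF 0 true true true .up 2 0 3 (qsf 1239849684 370763052 0 536870912 3) ndF2q2b ndF2q0 pcF3 Cut.none Ext.none)

def k0_pp_203_b : ∃ t, chk3 f_pp_203_b t 1 1 1 = true :=
  ⟨(l 5), by decide +kernel⟩

theorem c_pp_203_b : CertF 1239849684 370763052 0 536870912 201326592 134217728 true true true .up 2 0 3
    ndF2q2b ndF2q0 pcF3 Cut.none Ext.none :=
  certF0 (fam := true) (s1 := true) (s2 := true) (a := 2) (b := 0) (c := 3) (cn := .up) (n1 := ndF2q2b) (n2 := ndF2q0) (pc := pcF3) (cut := Cut.none) (xt := Ext.none) (P1 := 1239849684) (W1 := 370763052) (P2 := 0) (W2 := 536870912) (P3 := 201326592) (W3 := 134217728)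
    rfl k0_pp_203_b

noncomputable def f_pp_213_a : ℕ → ℕ → ℕ → ℕ → Bool := onCell 0 536870912 536870912 536870912 201326592 134217728
    (rowF 0 true true true .pnn 2 1 3 (qsf 0 536870912 536870912 536870912 3) ndF2q2a ndF2q1 pcF3 Cut.none Ext.none)

def k0_pp_213_a : ∃ t, chk3 f_pp_213_a t 1 1 1 = true :=
  ⟨(l 4), by decide +kernel⟩

theorem c_pp_213_a : CertF 0 536870912 536870912 536870912 201326592 134217728 true true true .pnn 2 1 3
    ndF2q2a ndF2q1 pcF3 Cut.none Ext.none :=
  certF0 (fam := true) (s1 := true) (s2 := true) (a := 2) (b := 1) (c := 3) (cn := .pnn) (n1 := ndF2q2a) (n2 := ndF2q1) (pc := pcF3) (cut := Cut.none) (xt := Ext.none) (P1 := 0) (W1 := 536870912) (P2 := 536870912) (W2 := 536870912) (P3 := 201326592) (W3 := 134217728)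
    rfl k0_pp_213_a

noncomputable def f_pp_213_b : ℕ → ℕ → ℕ → ℕ → Bool := onCell 1239849684 370763052 536870912 536870912 201326592 134217728
    (rowF 0 true true true .pnn 2 1 3 (qsf 1239849684 370763052 536870912 536870912 3) ndF2q2b ndF2q1 pcF3 Cut.none Ext.none)

def k0_pp_213_b : ∃ t, chk3 f_pp_213_b t 1 1 1 = true :=
  ⟨(l 4), by decide +kernel⟩

theorem c_pp_213_b : CertF 1239849684 370763052 536870912 536870912 201326592 134217728 true true true .pnn 2 1 3
    ndF2q2b ndF2q1 pcF3 Cut.none Ext.none :=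
  certF0 (fam := true) (s1 := true) (s2 := true) (a := 2) (b := 1) (c := 3) (cn := .pnn) (n1 := ndF2q2b) (n2 := ndF2q1) (pc := pcF3) (cut := Cut.none) (xt := Ext.none) (P1 := 1239849684) (W1 := 370763052) (P2 := 536870912) (W2 := 536870912) (P3 := 201326592) (W3 := 134217728)
    rfl k0_pp_213_b

noncomputable def f_pp_303 : ℕ → ℕ → ℕ → ℕ → Bool := onCell 1610612736 536870912 0 536870912 201326592 134217728
    (rowF 0 true true true .npn 3 0 3 (qsf 1610612736 536870912 0 536870912 3) ndF2q3 ndF2q0 pcF3 Cut.none Ext.none)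

def k0_pp_303 : ∃ t, chk3 f_pp_303 t 1 1 1 = true :=
  ⟨(l 4), by decide +kernel⟩

theorem c_pp_303 : CertF 1610612736 536870912 0 536870912 201326592 134217728 true true true .npn 3 0 3
    ndF2q3 ndF2q0 pcF3 Cut.none Ext.none :=
  certF0 (fam := true) (s1 := true) (s2 := true) (a := 3) (b := 0) (c := 3) (cn := .npn) (n1 := ndF2q3) (n2 := ndF2q0) (pc := pcF3) (cut := Cut.none) (xt := Ext.none) (P1 := 1610612736) (W1 := 536870912) (P2 := 0) (W2 := 536870912) (P3 := 201326592) (W3 := 134217728)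
    rfl k0_pp_303

noncomputable def f_pp_313 : ℕ → ℕ → ℕ → ℕ → Bool := onCell 1610612736 536870912 536870912 536870912 201326592 134217728
    (rowF 0 true true true .dn 3 1 3 (qsf 1610612736 536870912 536870912 536870912 3) ndF2q3 ndF2q1 pcF3 Cut.none Ext.none)

def k0_pp_313 : ∃ t, chk3 f_pp_313 t 1 1 1 = true :=
  ⟨(l 4), by decide +kernel⟩

theorem c_pp_313 : CertF 1610612736 536870912 536870912 536870912 201326592 134217728 true true true .dn 3 1 3
    ndF2q3 ndF2q1 pcF3 Cut.none Ext.none :=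
  certF0 (fam := true) (s1 := true) (s2 := true) (a := 3) (b := 1) (c := 3) (cn := .dn) (n1 := ndF2q3) (n2 := ndF2q1) (pc := pcF3) (cut := Cut.none) (xt := Ext.none) (P1 := 1610612736) (W1 := 536870912) (P2 := 536870912) (W2 := 536870912) (P3 := 201326592) (W3 := 134217728)
    rfl k0_pp_313

noncomputable def f_pm_001 : ℕ → ℕ → ℕ → ℕ → Bool := onCell 0 536870912 0 536870912 201326592 134217728
    (rowF 0 true true false .up 0 0 1 (qsf 0 536870912 0 536870912 1) ndF2q0 ndF2q0 pcF1 Cut.none Ext.none)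

def k0_pm_001 : ∃ t, chk3 f_pm_001 t 1 1 1 = true :=
  ⟨(a (l 3) (l 3)), by decide +kernel⟩

theorem c_pm_001 : CertF 0 536870912 0 536870912 201326592 134217728 true true false .up 0 0 1
    ndF2q0 ndF2q0 pcF1 Cut.none Ext.none :=
  certF0 (fam := true) (s1 := true) (s2 := false) (a := 0) (b := 0) (c := 1) (cn := .up) (n1 := ndF2q0) (n2 := ndF2q0) (pc := pcF1) (cut := Cut.none) (xt := Ext.none) (P1 := 0) (W1 := 536870912) (P2 := 0) (W2 := 536870912) (P3 := 201326592) (W3 := 134217728)
    rfl k0_pm_001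

noncomputable def f_pm_011 : ℕ → ℕ → ℕ → ℕ → Bool := onCell 0 536870912 536870912 536870912 201326592 134217728
    (rowF 1 true true false .pnn 0 1 1 (qsf 0 536870912 536870912 536870912 1) ndF2q0 ndF2q1 pcF1 Cut.none Ext.none)

def k0_pm_011 : ∃ t, chk3 f_pm_011 t 1 1 1 = true :=
  ⟨(b (l 3) (b (l 3) (l 3))), by decide +kernel⟩

theorem c_pm_011 : CertF 0 536870912 536870912 536870912 201326592 134217728 true true false .pnn 0 1 1
    ndF2q0 ndF2q1 pcF1 Cut.none Ext.none :=
  certF1 (fam := true) (s1 := true) (s2 := false) (a := 0) (b := 1) (c := 1) (cn := .pnn) (n1 := ndF2q0) (n2 := ndF2q1) (pc := pcF1) (cut := Cut.none) (xt := Ext.none) (P1 := 0) (W1 := 536870912) (P2 := 536870912) (W2 := 536870912) (P3 := 201326592) (W3 := 134217728)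
    rfl (fun _ => rfl) k0_pm_011

noncomputable def f_pm_012 : ℕ → ℕ → ℕ → ℕ → Bool := onCell 1073741824 536870912 536870912 536870912 201326592 134217728
    (rowF 2 true true false .pnp 0 1 2 (qsf 0 536870912 536870912 536870912 2) ndF2q0 ndF2q1 pcF2 Cut.none Ext.none)

def k0_pm_012 : ∃ t, chk3 f_pm_012 t 1 1 1 = true :=
  ⟨(a (b (a (l 3) (a (a (a (l 3) (a (l 17067352) (b (l 2) (l 17125840)))) (l 17104840)) (l 17165240))) (a (a (l 3) (b (l 3) (a (l 3) (b (l 3) (b (l 16532472) (l 249275522743)))))) (a (a (a (b (l 16926808) (b (l 16443128) (l 16466920))) (a (b (l 16977776) (b (l 16394608) (l 16373240))) (b (a (l 17001928) (a (l 17014416) (l 17022856))) (a (b (l 16369952) (l 16365848)) (a (l 16477576) (l 16422144)))))) (b (l 17093248) (b (l 16509936) (l 16330888)))) (b (l 17274176) (b (l 16959256) (l 16262512)))))) (b (b (l 2) (a (l 17365952) (l 2))) (b (a (l 17540952) (l 17724592)) (a (b (l 17541992) (a (l 17076192) (l 17580408))) (l 17954976))))), by decide +kernel⟩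

theorem c_pm_012 : CertF 0 536870912 536870912 536870912 201326592 134217728 true true false .pnp 0 1 2
    ndF2q0 ndF2q1 pcF2 Cut.none Ext.none :=
  certF2 (fam := true) (s1 := true) (s2 := false) (a := 0) (b := 1) (c := 2) (cn := .pnp) (n1 := ndF2q0) (n2 := ndF2q1) (pc := pcF2) (cut := Cut.none) (xt := Ext.none) (P1 := 0) (W1 := 536870912) (P2 := 536870912) (W2 := 536870912) (P3 := 201326592) (W3 := 134217728)
    rfl (fun _ => rfl) k0_pm_012

noncomputable def cut_pm_022_a : Cut := Cut.of [[⟨0, 0, 0, 67108864⟩, ⟨1, 1, 0, 67108864⟩, ⟨2, 1, 0, 67108864⟩]]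

noncomputable def f_pm_022_a : ℕ → ℕ → ℕ → ℕ → Bool := onCell 1073741824 536870912 0 536870912 201326592 134217728
    (rowF 2 true true false .pp 0 2 2 (qsf 0 536870912 0 536870912 2) ndF2q0 ndF2q2a pcF2 cut_pm_022_a Ext.none)

def k0_pm_022_a : ∃ t, chk3 f_pm_022_a t 4 2 1 = true :=
  ⟨(b (l 1) (a (l 1) (a (l 1) (a (l 1) (b (l 1) (a (l 1) (b (l 1) (a (b (l 1) (c (b (a (l 1) (c (c (l 386580232775) (l 384969614407)) (l 382285251431))) (c (c (l 424161199511) (l 422550581271)) (l 419866218487))) (c (l 404296951143) (l 406444423751)))) (b (c (b (a (l 1) (c (c (l 378527155799) (l 375842795415)) (l 372084690343))) (a (c (c (l 381748387959) (l 379600898583)) (l 375842793639)) (c (c (l 426845537063) (l 427919273207)) (l 429529877479)))) (c (l 396243873447) (l 397317603879))) (c (b (a (c (c (l 433287994711) (l 434361730951)) (l 435972335351)) (c (l 16579200) (l 16573704))) (c (l 16580728) (l 16575360))) (c (l 456373415383) (l 435435458167)))))))))))), by decide +kernel⟩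

def k1_pm_022_a : ∃ t, chk3 f_pm_022_a t 40 2 1 = true :=
  ⟨(b (l 1) (b (a (l 1) (b (a (l 1) (a (l 1) (b (l 1) (b (l 1) (c (c (l 357052271751) (l 357052257607)) (c (l 357052243719) (l 356515359159))))))) (c (c (c (a (b (l 1) (l 400001961431)) (b (l 409128756039) (l 450467830135))) (a (b (l 1) (l 400538825671)) (b (l 409665619975) (l 451541564519)))) (a (b (l 1) (l 401075686679)) (b (l 410202480535) (l 449394074919)))) (c (a (b (l 1) (l 401612544567)) (b (l 410739337879) (l 449930932727))) (a (l 392485726103) (l 427382322999)))))) (a (b (a (b (l 1) (c (c (c (l 395707016167) (l 396243881063)) (a (l 367789716823) (l 406444416119))) (c (l 398391343799) (l 399465073799)))) (c (c (c (b (l 395707005127) (l 446172869367)) (b (l 396243869703) (l 446709734183))) (b (a (l 366715963127) (l 402149437015)) (a (l 440267277223) (l 16561528)))) (c (b (l 397854460487) (l 449930938663)) (b (l 398928189975) (l 443488494039))))) (b (a (c (c (c (l 447246622103) (l 448320358167)) (b (l 441877909383)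 (l 16568920))) (c (l 451541563799) (l 453152165399))) (c (c (l 16568464) (l 16562688)) (l 16554264))) (c (a (l 16581720) (l 16564888)) (l 16557600)))) (b (a (b (c (c (c (l 448857213063) (l 449930948439)) (l 451004688583)) (c (l 444025364775) (l 445099094087))) (c (c (l 16563008) (l 16556872)) (l 16547960))) (c (b (l 16554352) (l 16553768)) (l 16541736))) (c (l 16556032) (l 16544928)))))), by decide +kernel⟩

def k2_pm_022_a : ∃ t, chk3 f_pm_022_a t 82 4 1 = true :=
  ⟨(a (l 1) (b (l 1) (b (l 1) (c (c (c (b (l 360810353975) (l 401075671783)) (l 388727633319)) (b (l 360273463623) (l 400538781703))) (c (b (l 359199706615) (l 400538766791)) (l 387116979335)))))), by decide +kernel⟩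

def k3_pm_022_a : ∃ t, chk3 f_pm_022_a t 166 4 1 = true :=
  ⟨(b (l 1) (c (b (b (a (l 1) (c (c (l 371547759447) (l 371010880279)) (l 370473997175))) (a (b (l 1) (c (l 369937158055) (l 368863389831))) (c (c (l 417718667735) (l 416644917799)) (l 413423684759)))) (b (a (c (b (l 407518121703) (l 440804120311)) (l 412349947287)) (c (l 16541760) (l 16533768))) (c (l 16542728) (l 16534912)))) (c (b (a (l 354367859671) (l 397854397847)) (b (l 413960552807) (l 16527336))) (b (l 379063903351) (l 415034283095))))), by decide +kernel⟩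

def k4_pm_022_a : ∃ t, chk3 f_pm_022_a t 167 4 1 = true :=
  ⟨(b (a (a (b (l 1) (c (c (c (l 351146661239) (l 350072910999)) (l 347925414935)) (c (l 345241057975) (l 343630430215)))) (c (b (c (c (l 294775225383) (l 292627733527)) (c (l 289943370567) (l 287795878967))) (c (c (l 368326540487) (l 366179048663)) (b (l 342556718295) (l 16530704)))) (b (c (l 282427162215) (l 278669050295)) (c (l 358125961127) (l 354904720231))))) (c (b (c (a (a (a (c (l 16540512) (l 16536216)) (a (c (l 16540368) (l 16536064)) (c (b (l 16540264) (l 16540352)) (b (l 16535952) (l 16536040))))) (c (l 16539928) (l 16535600))) (l 16536712)) (a (a (a (l 269005399479) (a (a (l 294238330759) (l 305512620135)) (c (l 16542224) (l 16527552)))) (l 16529232)) (l 16528152))) (c (a (a (a (b (l 16538440) (l 16538424)) (b (c (l 16550888) (l 16557064)) (l 16559192))) (l 16537824)) (l 16536768)) (a (a (a (l 16530000) (b (a (l 16529824) (l 16529736)) (l 16529776))) (l 16529336)) (l 16528248)))) (a (b (c (a (a (l 16521680)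 (a (l 16521488) (b (l 16521344) (l 16521432)))) (l 16520968)) (a (a (l 16513712) (a (l 16513512) (l 16513392))) (l 16512968))) (c (a (a (l 16521832) (a (l 16521640) (l 16521536))) (l 16521112)) (a (a (l 16513920) (b (l 16534560) (l 16513688))) (l 16513168)))) (b (c (l 16519872) (l 16511856)) (l 16516000))))) (a (c (b (c (a (c (l 16542224) (l 16538056)) (l 16538912)) (b (a (l 16531968) (l 16530672)) (l 16531152))) (c (l 16539008) (l 16530952))) (b (c (b (l 16544184) (l 16523224)) (l 401612502039)) (l 16519424))) (c (b (c (b (l 16558136) (l 16537016)) (l 16549688)) (l 16553512)) (b (c (l 16541616) (l 16533832)) (l 16516800))))), by decide +kernel⟩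

def k5_pm_022_a : ∃ t, chk3 f_pm_022_a t 41 5 1 = true :=
  ⟨(a (b (b (c (c (c (a (b (l 377453362375) (l 423624259911)) (b (l 434361683319) (l 16549448))) (a (b (l 377453354935) (l 423624252615)) (b (l 434898545959) (l 16545712)))) (a (b (l 377453343911) (l 423624241831)) (b (l 432214184935) (l 16540208)))) (c (a (b (l 377453329463) (l 424161098663)) (b (l 431677299399) (l 16533080))) (a (l 405370602871) (l 432751030583)))) (c (a (b (c (a (l 16554304) (l 16551384)) (l 16545824)) (l 16548856)) (l 16543240)) (a (c (l 16559888) (l 16532392)) (l 16529584)))) (c (b (l 16545088) (l 16543800)) (l 16553456))) (b (a (c (c (l 16562688) (l 16534272)) (b (l 16523672) (l 16523640))) (a (c (l 16534000) (l 16519448)) (c (l 16531608) (l 16516824)))) (c (a (l 16535872) (l 16572392)) (a (l 16523488) (l 16559616))))), by decide +kernel⟩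

def k6_pm_022_a : ∃ t, chk3 f_pm_022_a t 21 2 1 = true :=
  ⟨(b (a (a (b (b (c (c (l 16530744) (l 16521952)) (l 16530384)) (c (c (l 16530768) (l 16522016)) (l 16509544))) (c (b (l 16526192) (l 16525840)) (l 16530656))) (c (b (l 16515192) (l 16514776)) (l 16539592))) (c (l 16499960) (l 16501792))) (a (b (c (l 16519976) (l 16504256)) (l 16552488)) (b (l 16488832) (l 16487128)))), by decide +kernel⟩

def k7_pm_022_a : ∃ t, chk3 f_pm_022_a t 11 2 1 = true :=
  ⟨(a (b (a (l 16491008) (l 16453608)) (a (l 16488456) (l 16450384))) (b (l 16438312) (l 16433440))), by decide +kernel⟩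

def k8_pm_022_a : ∃ t, chk3 f_pm_022_a t 8 6 1 = true :=
  ⟨(l 1), by decide +kernel⟩

def k9_pm_022_a : ∃ t, chk3 f_pm_022_a t 18 6 1 = true :=
  ⟨(b (l 1) (a (b (l 1) (a (l 1) (b (a (l 1) (a (l 1) (b (l 1) (c (c (l 350610017767) (l 354904977831)) (l 363494901303))))) (a (a (b (l 1) (c (c (l 376379840151) (l 380674800935)) (l 387117247047))) (b (c (c (l 341483224135) (l 345778184583)) (l 351683754007)) (c (c (l 413960798823) (l 421476985015)) (b (l 412887039735) (l 16654792))))) (b (c (c (c (l 397317792839) (l 401075885783)) (l 408592073351)) (c (l 415571388167) (l 424161315591))) (c (c (l 16658824) (l 16655496)) (c (l 16652144) (l 16648768)))))))) (b (a (b (l 1) (b (l 1) (b (l 1) (a (l 1) (a (l 1) (c (c (c (l 389801572279) (l 393022793863)) (l 398928368039)) (a (l 386580326551) (l 429530006679)))))))) (b (a (l 1) (b (l 1) (c (c (c (l 388190937559) (l 392485900663)) (l 401612699831)) (c (l 413960722279) (l 426308744631))))) (a (c (c (c (b (l 375842918999) (l 426308785367))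 (b (l 379064140407) (l 432214361479))) (b (l 386580327047) (l 437046193783))) (c (l 415034477767) (l 421476920503))) (c (c (c (b (l 438656803735) (l 16634552)) (b (l 444562379719) (l 16632592))) (b (l 445099256151) (l 16629656))) (c (l 459057894087) (l 468721562167)))))) (a (b (a (a (b (l 1) (c (c (a (l 379064172071) (l 406981459383)) (l 399465258103)) (b (l 378527280919) (l 431140642119)))) (b (b (l 1) (c (c (l 371547971575) (l 376916673191)) (l 389801563607))) (c (c (b (l 425771934231) (l 16650784)) (l 438656836327)) (c (l 448857376295) (l 16639592))))) (b (c (c (c (l 415034508631) (l 419866343063)) (l 425771917399)) (c (l 432214360663) (l 438656803863))) (c (c (l 16646352) (l 16642712)) (l 16637216)))) (c (a (c (l 16652920) (l 16649504)) (l 16645376)) (c (l 16643216) (l 16639816)))) (b (c (c (l 16637136) (l 16633440)) (l 16627944)) (l 16653744)))))), by decide +kernel⟩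

def k10_pm_022_a : ∃ t, chk3 f_pm_022_a t 38 6 1 = true :=
  ⟨(b (b (a (l 1) (a (l 1) (a (l 1) (b (l 1) (b (l 1) (b (l 1) (c (c (c (l 398928302295) (l 400538910039)) (l 403760128007)) (c (l 408055085303) (l 412350051415))))))))) (a (b (l 1) (a (a (l 1) (b (l 1) (c (b (l 1) (c (c (l 363494859623) (l 368863564343)) (l 378527234103))) (l 390875251335)))) (c (b (a (l 1) (c (c (l 392485876167) (l 395170226167)) (l 399465186583))) (c (c (a (l 403760171639) (l 453689165943)) (l 422550645959)) (l 428456229815))) (c (l 416108179095) (l 422550620871))))) (b (c (a (c (c (b (l 354904903495) (a (l 372084775495) (l 422550634791))) (b (l 357589253159) (l 404297022295))) (b (l 360810471255) (l 408055111559))) (c (c (b (a (l 403223275847) (l 455299747639)) (l 16608552)) (b (l 425771845975) (l 16606200))) (c (l 438119871991) (l 438656738119)))) (c (a (l 400002038135) (l 439193601863)) (l 417181891287))) (a (c (c (c (b (a (l 439730510055) (l 16613304)) (l 16614848)) (b (l 449394178679) (l 16612648)))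 (b (l 451004784583) (l 16609352))) (c (l 446172950647) (l 447246684839))) (c (l 16604864) (l 16596104)))))) (b (a (b (a (c (c (c (b (l 402686439527) (l 445636121927)) (b (l 408592015239) (l 16625808))) (b (l 418792556071) (l 16633160))) (c (l 434898675191) (l 441877988439))) (c (c (b (l 16620296) (l 16620392)) (l 16616144)) (b (l 16609600) (l 16610120)))) (c (a (l 16625144) (l 16618584)) (l 16614160))) (c (l 16629344) (l 16600640))) (c (l 16636712) (l 16630336)))), by decide +kernel⟩

def k11_pm_022_a : ∃ t, chk3 f_pm_022_a t 39 6 1 = true :=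
  ⟨(b (b (a (b (c (a (b (l 1) (a (l 1) (c (c (l 357589229815) (l 357052353591)) (l 358662958343)))) (b (a (l 1) (c (c (l 402686373095) (l 401612625863)) (l 400002005031))) (c (c (a (l 413960668615) (l 462279050807)) (l 434361754487)) (a (l 412350042695) (l 460131556695))))) (c (a (l 366716014631) (l 415571254183)) (l 405370702871))) (a (c (b (a (c (c (l 370474137911) (l 371011003655)) (l 373695350439)) (c (c (l 422013738615) (l 424161217111)) (l 426845563959))) (c (c (a (l 437583001335) (l 16600560)) (l 449931023863)) (a (l 440804214279) (l 16594344)))) (c (l 429529911687) (l 433287997959))) (b (c (c (c (l 16595608) (l 16593056)) (l 16589248)) (c (l 16584200) (l 16579200))) (c (l 16591536) (l 16581840))))) (b (a (c (c (c (b (l 457447195271) (l 16588712)) (l 461742156887)) (b (l 453152228407) (l 16582256))) (c (l 451541606087) (l 448320370023))) (c (l 16577544) (l 16567496))) (c (l 16601792) (l 16571352)))) (a (b (c (c (l 16597104) (l 16592424)) (l 16606496)) (c (l 16594320)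 (l 16585920))) (c (l 16579816) (l 16571592)))) (b (c (l 16650560) (l 16643456)) (l 16647048))), by decide +kernel⟩

def k12_pm_022_a : ∃ t, chk3 f_pm_022_a t 4 7 1 = true :=
  ⟨(a (a (b (l 1) (l 6)) (b (b (a (l 1) (a (l 1) (b (l 1) (a (b (l 1) (l 6)) (a (b (b (l 1) (l 6)) (l 6)) (b (c (c (l 404297158263) (l 407518378391)) (l 411813337367)) (c (l 16680792) (l 16675552)))))))) (a (l 6) (a (l 6) (a (l 6) (c (l 16696216) (l 16681152)))))) (a (l 6) (a (l 6) (b (l 16692968) (l 16709200)))))) (a (b (a (b (a (b (a (b (l 1) (c (c (l 390338505095) (l 394096595735)) (a (l 374769236471) (l 418255775367)))) (b (c (c (a (l 371011142887) (l 413423939927)) (l 397317808935)) (c (l 401612769927) (l 405370859847))) (c (c (l 435972531687) (l 442951847815)) (a (l 451541776311) (l 16662304))))) (c (b (a (c (l 432751317847) (l 438656892727)) (l 16670632)) (l 16674448)) (a (c (l 441878115895) (l 448320561319)) (l 16665712)))) (b (c (a (b (c (a (l 16666272) (l 16663632)) (l 16661824)) (l 16664304))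 (l 16658352)) (a (c (l 452078637831) (l 16656112)) (l 16652176))) (l 16681120))) (c (b (l 16670808) (l 16673200)) (l 16688368))) (b (c (l 16664976) (l 16659408)) (l 16644456))) (b (l 16707440) (l 16701744))) (a (b (b (l 16613808) (l 16624992)) (l 16680760)) (b (l 16690104) (a (l 16682384) (l 16684304)))))), by decide +kernel⟩

def k13_pm_022_a : ∃ t, chk3 f_pm_022_a t 5 3 1 = true :=
  ⟨(a (a (a (b (b (c (a (b (l 16567160) (l 16565520)) (l 16553696)) (a (l 16599600) (l 16544792))) (l 16638416)) (b (l 16626016) (l 16683280))) (b (a (b (l 16557440) (l 16536456)) (b (b (l 16655616) (l 16607200)) (l 16658592))) (a (b (l 16601416) (l 16680840)) (b (l 16682192) (a (l 16678312) (l 16676224)))))) (b (b (a (l 16508448) (l 16484408)) (l 16558720)) (b (l 16583128) (l 16663232)))) (b (a (l 16601624) (l 16461696)) (a (b (l 16566616) (l 16650848)) (l 16585432)))), by decide +kernel⟩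

def k14_pm_022_a : ∃ t, chk3 f_pm_022_a t 3 1 1 = true :=
  ⟨(a (b (a (a (b (l 16546040) (l 16545976)) (l 16805064)) (a (l 16990848) (l 17126432))) (a (b (a (l 16568280) (l 16803016)) (b (l 16736536) (l 16795320))) (b (l 17040744) (a (l 16987184) (l 17093040))))) (a (b (l 17271696) (b (l 17245640) (l 17224152))) (b (l 17385192) (b (l 17355496) (l 17316304))))), by decide +kernel⟩

theorem s15_pm_022_a : ∃ t, chk3 f_pm_022_a t 19 6 1 = true := ex3_a k10_pm_022_a k11_pm_022_a

theorem s16_pm_022_a : ∃ t, chk3 f_pm_022_a t 9 6 1 = true := ex3_a k9_pm_022_a s15_pm_022_a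

theorem s17_pm_022_a : ∃ t, chk3 f_pm_022_a t 4 6 1 = true := ex3_a k8_pm_022_a s16_pm_022_a

theorem s18_pm_022_a : ∃ t, chk3 f_pm_022_a t 4 3 1 = true := ex3_b s17_pm_022_a k12_pm_022_a

theorem s19_pm_022_a : ∃ t, chk3 f_pm_022_a t 2 3 1 = true := ex3_a s18_pm_022_a k13_pm_022_a

theorem s20_pm_022_a : ∃ t, chk3 f_pm_022_a t 83 4 1 = true := ex3_a k3_pm_022_a k4_pm_022_a

theorem s21_pm_022_a : ∃ t, chk3 f_pm_022_a t 41 4 1 = true := ex3_a k2_pm_022_a s20_pm_022_a

theorem s22_pm_022_a : ∃ t, chk3 f_pm_022_a t 41 2 1 = true := ex3_b s21_pm_022_a k5_pm_022_a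

theorem s23_pm_022_a : ∃ t, chk3 f_pm_022_a t 20 2 1 = true := ex3_a k1_pm_022_a s22_pm_022_a

theorem s24_pm_022_a : ∃ t, chk3 f_pm_022_a t 10 2 1 = true := ex3_a s23_pm_022_a k6_pm_022_a

theorem s25_pm_022_a : ∃ t, chk3 f_pm_022_a t 5 2 1 = true := ex3_a s24_pm_022_a k7_pm_022_a

theorem s26_pm_022_a : ∃ t, chk3 f_pm_022_a t 2 2 1 = true := ex3_a k0_pm_022_a s25_pm_022_a

theorem s27_pm_022_a : ∃ t, chk3 f_pm_022_a t 2 1 1 = true := ex3_b s26_pm_022_a s19_pm_022_a

theorem s28_pm_022_a : ∃ t, chk3 f_pm_022_a t 1 1 1 = true := ex3_a s27_pm_022_a k14_pm_022_a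

theorem c_pm_022_a : CertF 0 536870912 0 536870912 201326592 134217728 true true false .pp 0 2 2
    ndF2q0 ndF2q2a pcF2 cut_pm_022_a Ext.none :=
  certF2 (fam := true) (s1 := true) (s2 := false) (a := 0) (b := 2) (c := 2) (cn := .pp) (n1 := ndF2q0) (n2 := ndF2q2a) (pc := pcF2) (cut := cut_pm_022_a) (xt := Ext.none) (P1 := 0) (W1 := 536870912) (P2 := 0) (W2 := 536870912) (P3 := 201326592) (W3 := 134217728)
    rfl (fun _ => rfl) s28_pm_022_a

noncomputable def cut_pm_022_b : Cut := Cut.of [[⟨0, 0, 0, 67108864⟩, ⟨1, 1, 0, 67108864⟩, ⟨2, 1, 0, 67108864⟩]]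

noncomputable def f_pm_022_b : ℕ → ℕ → ℕ → ℕ → Bool := onCell 0 536870912 1073741824 536870912 201326592 134217728
    (rowF 1 true true false .pp 0 2 2 (qsf 0 536870912 1239849684 370763052 2) ndF2q0 ndF2q2b pcF2 cut_pm_022_b Ext.none)

def k0_pm_022_b : ∃ t, chk3 f_pm_022_b t 4 4 1 = true :=
  ⟨(l 1), by decide +kernel⟩

def k1_pm_022_b : ∃ t, chk3 f_pm_022_b t 4 10 1 = true :=
  ⟨(b (b (l 1) (a (b (l 1) (a (a (a (c (b (l 1) (a (a (b (l 1) (c (c (b (b (b (l 1) (b (l 1) (l 16540024))) (l 16539704)) (l 16538808)) (b (b (b (l 1) (b (l 1) (l 16535736))) (l 16535400)) (l 16534464))) (b (b (b (l 1) (c (a (l 16547320) (l 1)) (l 16537864))) (l 16529064)) (l 16528072)))) (l 1)) (l 1))) (b (l 1) (a (a (b (l 1) (c (b (b (b (l 1) (c (l 16544272) (l 16540248))) (l 16520848)) (l 16519784)) (b (b (b (l 1) (b (l 1) (l 16513328))) (l 16512896)) (l 16511768)))) (l 1)) (l 1)))) (l 1)) (l 1)) (l 1))) (l 1))) (a (a (a (a (c (a (b (c (b (c (l 16533568) (l 16529000)) (c (l 16524472) (l 16519432)))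 (a (b (l 16532888) (l 16512192)) (l 16517688))) (c (c (l 16533616) (l 16527784)) (b (l 16502360) (l 16493296)))) (b (a (l 16543040) (l 16521784)) (l 16524200))) (a (b (b (c (l 16513608) (l 16505240)) (c (l 16502512) (l 16493376))) (a (c (b (l 16492048) (l 16482024)) (l 16487416)) (l 16502936))) (b (l 16504104) (l 16481736)))) (c (b (l 16521136) (l 16502248)) (b (l 16504056) (l 16481344)))) (c (l 16555152) (l 16537048))) (a (l 16566248) (l 1))) (l 1))), by decide +kernel⟩

def k2_pm_022_b : ∃ t, chk3 f_pm_022_b t 4 11 1 = true :=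
  ⟨(a (a (a (c (a (a (b (c (b (b (l 16508456) (l 16491472)) (b (l 16513616) (l 16560064))) (b (b (l 16484928) (l 16477248)) (l 16488272))) (c (b (c (l 16996432) (l 16727856)) (l 16940368)) (b (l 16456368) (l 16483008)))) (b (c (l 16510632) (l 16495744)) (c (b (l 16855760) (l 17059456)) (l 16452624)))) (b (b (l 16486464) (l 16473800)) (l 16485824))) (a (c (b (b (a (l 16489344) (l 16467888)) (l 16472736)) (b (l 16438392) (l 16428736))) (b (b (l 16466352) (l 16437328)) (b (l 16421608) (l 16409408)))) (b (l 16474408) (l 16424088)))) (b (c (l 16479760) (l 16473696)) (c (l 16679528) (l 16423712)))) (b (a (l 16527432) (l 16463656)) (c (l 16652456) (l 16423480)))) (b (l 52109639863) (l 16501208))), by decide +kernel⟩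

def k3_pm_022_b : ∃ t, chk3 f_pm_022_b t 5 2 1 = true :=
  ⟨(l 1), by decide +kernel⟩

def k4_pm_022_b : ∃ t, chk3 f_pm_022_b t 2 3 1 = true :=
  ⟨(b (b (a (a (a (c (b (a (b (c (l 17230352) (b (l 16676592) (l 16815896))) (c (l 17380296) (l 16886984))) (l 17060640)) (c (l 17554680) (b (l 17055336) (l 17236976)))) (b (a (b (c (l 16423568) (l 16401576)) (c (l 16432584) (l 16399280))) (l 16412312)) (a (b (b (l 16411632) (l 16423704)) (b (l 16451408) (l 16537072))) (l 16576712)))) (b (c (l 17024080) (l 16414376)) (c (l 17310136) (l 16549192)))) (b (l 16532152) (a (l 16881752) (l 16839680)))) (a (b (l 16562384) (l 16804680)) (l 1))) (a (a (a (b (c (b (l 17533184) (l 17628304)) (a (a (b (c (l 17026008) (l 16673776)) (l 16869184)) (l 16873280)) (l 16902616))) (c (a (l 17756400) (l 17733928)) (a (b (l 16973512) (l 17171488)) (l 17153536)))) (b (c (l 17529408) (l 16862320)) (c (l 17692360) (l 17104720)))) (b (l 17106312) (l 17304184))) (a (l 17110608) (l 17050112)))) (b (a (a (b (b (a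 (c (l 17826976) (a (l 17313336) (l 17282144))) (l 17505760)) (c (l 17842952) (l 17319200))) (c (l 17895656) (l 17390488))) (b (l 17445080) (l 17548096))) (b (l 17293752) (l 17406728))) (a (a (c (l 17982384) (l 17507984)) (l 17669272)) (l 17540304)))), by decide +kernel⟩

def k5_pm_022_b : ∃ t, chk3 f_pm_022_b t 3 1 1 = true :=
  ⟨(a (b (l 1) (b (l 1) (b (l 251827424983) (l 17392440)))) (l 1)), by decide +kernel⟩

theorem s6_pm_022_b : ∃ t, chk3 f_pm_022_b t 4 5 1 = true := ex3_b k1_pm_022_b k2_pm_022_b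

theorem s7_pm_022_b : ∃ t, chk3 f_pm_022_b t 4 2 1 = true := ex3_b k0_pm_022_b s6_pm_022_b

theorem s8_pm_022_b : ∃ t, chk3 f_pm_022_b t 2 2 1 = true := ex3_a s7_pm_022_b k3_pm_022_b

theorem s9_pm_022_b : ∃ t, chk3 f_pm_022_b t 2 1 1 = true := ex3_b s8_pm_022_b k4_pm_022_b

theorem s10_pm_022_b : ∃ t, chk3 f_pm_022_b t 1 1 1 = true := ex3_a s9_pm_022_b k5_pm_022_b

theorem c_pm_022_b : CertF 0 536870912 1239849684 370763052 201326592 134217728 true true false .pp 0 2 2
    ndF2q0 ndF2q2b pcF2 cut_pm_022_b Ext.none :=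
  certF1 (fam := true) (s1 := true) (s2 := false) (a := 0) (b := 2) (c := 2) (cn := .pp) (n1 := ndF2q0) (n2 := ndF2q2b) (pc := pcF2) (cut := cut_pm_022_b) (xt := Ext.none) (P1 := 0) (W1 := 536870912) (P2 := 1239849684) (W2 := 370763052) (P3 := 201326592) (W3 := 134217728)
    rfl (fun _ => rfl) s10_pm_022_b

noncomputable def f_pm_023_a : ℕ → ℕ → ℕ → ℕ → Bool := onCell 1610612736 536870912 0 536870912 201326592 134217728
    (rowF 2 true true false .up 0 2 3 (qsf 0 536870912 0 536870912 3) ndF2q0 ndF2q2a pcF3 Cut.none Ext.none)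

def k0_pm_023_a : ∃ t, chk3 f_pm_023_a t 1 1 1 = true :=
  ⟨(a (a (b (a (l 17464288) (l 17475368)) (a (b (l 17425968) (l 17374416)) (l 17427896))) (a (b (l 17474808) (l 17440680)) (b (l 2) (l 2)))) (l 2)), by decide +kernel⟩

theorem c_pm_023_a : CertF 0 536870912 0 536870912 201326592 134217728 true true false .up 0 2 3
    ndF2q0 ndF2q2a pcF3 Cut.none Ext.none :=
  certF2 (fam := true) (s1 := true) (s2 := false) (a := 0) (b := 2) (c := 3) (cn := .up) (n1 := ndF2q0) (n2 := ndF2q2a) (pc := pcF3) (cut := Cut.none) (xt := Ext.none) (P1 := 0) (W1 := 536870912) (P2 := 0) (W2 := 536870912) (P3 := 201326592) (W3 := 134217728)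
    rfl (fun _ => rfl) k0_pm_023_a

noncomputable def f_pm_023_b : ℕ → ℕ → ℕ → ℕ → Bool := onCell 1610612736 536870912 1239849684 370763052 201326592 134217728
    (rowF 2 true true false .up 0 2 3 (qsf 0 536870912 1239849684 370763052 3) ndF2q0 ndF2q2b pcF3 Cut.none Ext.none)

def k0_pm_023_b : ∃ t, chk3 f_pm_023_b t 1 1 1 = true :=
  ⟨(a (a (b (a (b (l 17528152) (l 17639552)) (l 17572664)) (a (b (l 17739480) (c (l 17970752) (l 17631488))) (b (l 17719408) (l 17899872)))) (b (a (l 17553920) (l 17535208)) (a (l 17720672) (l 17674920)))) (l 4)), by decide +kernel⟩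

theorem c_pm_023_b : CertF 0 536870912 1239849684 370763052 201326592 134217728 true true false .up 0 2 3
    ndF2q0 ndF2q2b pcF3 Cut.none Ext.none :=
  certF2 (fam := true) (s1 := true) (s2 := false) (a := 0) (b := 2) (c := 3) (cn := .up) (n1 := ndF2q0) (n2 := ndF2q2b) (pc := pcF3) (cut := Cut.none) (xt := Ext.none) (P1 := 0) (W1 := 536870912) (P2 := 1239849684) (W2 := 370763052) (P3 := 201326592) (W3 := 134217728)
    rfl (fun _ => rfl) k0_pm_023_b

noncomputable def f_pm_033 : ℕ → ℕ → ℕ → ℕ → Bool := onCell 0 536870912 1610612736 536870912 201326592 134217728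
    (rowF 1 true true false .pnn 0 3 3 (qsf 0 536870912 1610612736 536870912 3) ndF2q0 ndF2q3 pcF3 Cut.none Ext.none)

def k0_pm_033 : ∃ t, chk3 f_pm_033 t 1 1 1 = true :=
  ⟨(b (b (a (b (a (c (l 17959888) (a (l 17668736) (l 17617408))) (l 1)) (a (c (l 17975624) (a (l 17698072) (l 17654392))) (l 322695341447))) (l 1)) (a (a (b (c (l 17986456) (l 17706288)) (l 17863944)) (b (l 17740808) (l 17762328))) (b (l 1) (a (l 17597400) (l 1))))) (b (a (b (a (l 18042864) (l 17760376)) (l 4)) (l 4)) (l 4))), by decide +kernel⟩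

theorem c_pm_033 : CertF 0 536870912 1610612736 536870912 201326592 134217728 true true false .pnn 0 3 3
    ndF2q0 ndF2q3 pcF3 Cut.none Ext.none :=
  certF1 (fam := true) (s1 := true) (s2 := false) (a := 0) (b := 3) (c := 3) (cn := .pnn) (n1 := ndF2q0) (n2 := ndF2q3) (pc := pcF3) (cut := Cut.none) (xt := Ext.none) (P1 := 0) (W1 := 536870912) (P2 := 1610612736) (W2 := 536870912) (P3 := 201326592) (W3 := 134217728)
    rfl (fun _ => rfl) k0_pm_033

noncomputable def f_pm_101 : ℕ → ℕ → ℕ → ℕ → Bool := onCell 536870912 536870912 0 536870912 201326592 134217728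
    (rowF 2 true true false .npn 1 0 1 (qsf 536870912 536870912 0 536870912 1) ndF2q1 ndF2q0 pcF1 Cut.none Ext.none)

def k0_pm_101 : ∃ t, chk3 f_pm_101 t 1 1 1 = true :=
  ⟨(a (l 3) (a (l 3) (l 3))), by decide +kernel⟩

theorem c_pm_101 : CertF 536870912 536870912 0 536870912 201326592 134217728 true true false .npn 1 0 1
    ndF2q1 ndF2q0 pcF1 Cut.none Ext.none :=
  certF2 (fam := true) (s1 := true) (s2 := false) (a := 1) (b := 0) (c := 1) (cn := .npn) (n1 := ndF2q1) (n2 := ndF2q0) (pc := pcF1) (cut := Cut.none) (xt := Ext.none) (P1 := 536870912) (W1 := 536870912) (P2 := 0) (W2 := 536870912) (P3 := 201326592) (W3 := 134217728)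
    rfl (fun _ => rfl) k0_pm_101

noncomputable def f_pm_102 : ℕ → ℕ → ℕ → ℕ → Bool := onCell 536870912 536870912 1073741824 536870912 201326592 134217728
    (rowF 1 true true false .npp 1 0 2 (qsf 536870912 536870912 0 536870912 2) ndF2q1 ndF2q0 pcF2 Cut.none Ext.none)

def k0_pm_102 : ∃ t, chk3 f_pm_102 t 1 1 1 = true :=
  ⟨(a (b (b (l 3) (b (b (b (l 3) (a (l 2) (b (l 3) (l 17125840)))) (l 17104840)) (l 17165240))) (a (l 2) (b (l 17365952) (l 2)))) (b (b (b (l 3) (a (l 3) (b (l 3) (a (l 3) (a (l 16532472) (l 249275522743)))))) (b (b (b (a (l 16926808) (a (l 16443128) (l 16445952))) (b (a (l 16977776) (a (l 16394608) (l 16373240))) (a (b (l 17001928) (b (l 17014416) (l 17022856))) (b (a (l 16369952) (l 16365848)) (b (l 16467088) (l 16422144)))))) (a (l 17093248) (a (l 16509936) (l 16330888)))) (a (l 17274176) (a (l 16959256) (l 16262512))))) (a (b (l 17540952) (l 17724592)) (b (a (l 17541992) (b (l 17076192) (l 17580408))) (l 17954976))))), by decide +kernel⟩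

theorem c_pm_102 : CertF 536870912 536870912 0 536870912 201326592 134217728 true true false .npp 1 0 2
    ndF2q1 ndF2q0 pcF2 Cut.none Ext.none :=
  certF1 (fam := true) (s1 := true) (s2 := false) (a := 1) (b := 0) (c := 2) (cn := .npp) (n1 := ndF2q1) (n2 := ndF2q0) (pc := pcF2) (cut := Cut.none) (xt := Ext.none) (P1 := 536870912) (W1 := 536870912) (P2 := 0) (W2 := 536870912) (P3 := 201326592) (W3 := 134217728)
    rfl (fun _ => rfl) k0_pm_102

noncomputable def f_pm_112 : ℕ → ℕ → ℕ → ℕ → Bool := onCell 536870912 536870912 1073741824 536870912 201326592 134217728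
    (rowF 1 true true false .dn 1 1 2 (qsf 536870912 536870912 536870912 536870912 2) ndF2q1 ndF2q1 pcF2 Cut.none Ext.none)

def k0_pm_112 : ∃ t, chk3 f_pm_112 t 1 1 1 = true :=
  ⟨(a (b (b (l 3) (b (b (b (l 3) (b (l 17803536) (b (l 17819064) (l 105799858007)))) (l 17878808)) (l 18031304))) (b (l 18065840) (l 17974968))) (b (b (l 1) (b (l 1) (l 540665488487))) (b (l 482146788775) (l 18042880)))), by decide +kernel⟩

theorem c_pm_112 : CertF 536870912 536870912 536870912 536870912 201326592 134217728 true true false .dn 1 1 2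
    ndF2q1 ndF2q1 pcF2 Cut.none Ext.none :=
  certF1 (fam := true) (s1 := true) (s2 := false) (a := 1) (b := 1) (c := 2) (cn := .dn) (n1 := ndF2q1) (n2 := ndF2q1) (pc := pcF2) (cut := Cut.none) (xt := Ext.none) (P1 := 536870912) (W1 := 536870912) (P2 := 536870912) (W2 := 536870912) (P3 := 201326592) (W3 := 134217728)
    rfl (fun _ => rfl) k0_pm_112

noncomputable def f_pm_113 : ℕ → ℕ → ℕ → ℕ → Bool := onCell 536870912 536870912 1610612736 536870912 201326592 134217728
    (rowF 1 true true false .nn 1 1 3 (qsf 536870912 536870912 536870912 536870912 3) ndF2q1 ndF2q1 pcF3 Cut.none Ext.none)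

def k0_pm_113 : ∃ t, chk3 f_pm_113 t 1 1 1 = true :=
  ⟨(a (b (l 18125312) (b (l 18005568) (l 2))) (b (l 17720664) (b (l 17306952) (b (l 17191280) (b (l 17155632) (b (l 17141896) (b (l 17138336) (l 17131880)))))))), by decide +kernel⟩

theorem c_pm_113 : CertF 536870912 536870912 536870912 536870912 201326592 134217728 true true false .nn 1 1 3
    ndF2q1 ndF2q1 pcF3 Cut.none Ext.none :=
  certF1 (fam := true) (s1 := true) (s2 := false) (a := 1) (b := 1) (c := 3) (cn := .nn) (n1 := ndF2q1) (n2 := ndF2q1) (pc := pcF3) (cut := Cut.none) (xt := Ext.none) (P1 := 536870912) (W1 := 536870912) (P2 := 536870912) (W2 := 536870912) (P3 := 201326592) (W3 := 134217728)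
    rfl (fun _ => rfl) k0_pm_113

noncomputable def f_pm_123_a : ℕ → ℕ → ℕ → ℕ → Bool := onCell 1610612736 536870912 0 536870912 201326592 134217728
    (rowF 2 true true false .npn 1 2 3 (qsf 536870912 536870912 0 536870912 3) ndF2q1 ndF2q2a pcF3 Cut.none Ext.none)

def k0_pm_123_a : ∃ t, chk3 f_pm_123_a t 1 1 1 = true :=
  ⟨(a (a (a (b (l 1) (l 17539528)) (b (l 17248152) (l 17325032))) (a (l 17448480) (b (l 17189776) (l 17291032)))) (l 4)), by decide +kernel⟩

theorem c_pm_123_a : CertF 536870912 536870912 0 536870912 201326592 134217728 true true false .npn 1 2 3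
    ndF2q1 ndF2q2a pcF3 Cut.none Ext.none :=
  certF2 (fam := true) (s1 := true) (s2 := false) (a := 1) (b := 2) (c := 3) (cn := .npn) (n1 := ndF2q1) (n2 := ndF2q2a) (pc := pcF3) (cut := Cut.none) (xt := Ext.none) (P1 := 536870912) (W1 := 536870912) (P2 := 0) (W2 := 536870912) (P3 := 201326592) (W3 := 134217728)
    rfl (fun _ => rfl) k0_pm_123_a

noncomputable def f_pm_123_b : ℕ → ℕ → ℕ → ℕ → Bool := onCell 1610612736 536870912 1239849684 370763052 201326592 134217728
    (rowF 2 true true false .npn 1 2 3 (qsf 536870912 536870912 1239849684 370763052 3) ndF2q1 ndF2q2b pcF3 Cut.none Ext.none)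

def k0_pm_123_b : ∃ t, chk3 f_pm_123_b t 1 1 1 = true :=
  ⟨(a (a (l 1) (b (a (l 17129800) (l 17074872)) (l 1))) (l 4)), by decide +kernel⟩

theorem c_pm_123_b : CertF 536870912 536870912 1239849684 370763052 201326592 134217728 true true false .npn 1 2 3
    ndF2q1 ndF2q2b pcF3 Cut.none Ext.none :=
  certF2 (fam := true) (s1 := true) (s2 := false) (a := 1) (b := 2) (c := 3) (cn := .npn) (n1 := ndF2q1) (n2 := ndF2q2b) (pc := pcF3) (cut := Cut.none) (xt := Ext.none) (P1 := 536870912) (W1 := 536870912) (P2 := 1239849684) (W2 := 370763052) (P3 := 201326592) (W3 := 134217728)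
    rfl (fun _ => rfl) k0_pm_123_b

noncomputable def f_pm_133 : ℕ → ℕ → ℕ → ℕ → Bool := onCell 536870912 536870912 1610612736 536870912 201326592 134217728
    (rowF 0 true true false .dn 1 3 3 (qsf 536870912 536870912 1610612736 536870912 3) ndF2q1 ndF2q3 pcF3 Cut.none Ext.none)

def k0_pm_133 : ∃ t, chk3 f_pm_133 t 1 1 1 = true :=
  ⟨(l 4), by decide +kernel⟩

theorem c_pm_133 : CertF 536870912 536870912 1610612736 536870912 201326592 134217728 true true false .dn 1 3 3
    ndF2q1 ndF2q3 pcF3 Cut.none Ext.none :=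
  certF0 (fam := true) (s1 := true) (s2 := false) (a := 1) (b := 3) (c := 3) (cn := .dn) (n1 := ndF2q1) (n2 := ndF2q3) (pc := pcF3) (cut := Cut.none) (xt := Ext.none) (P1 := 536870912) (W1 := 536870912) (P2 := 1610612736) (W2 := 536870912) (P3 := 201326592) (W3 := 134217728)
    rfl k0_pm_133

end Pool.Agent.Strip051.G.I3_16_5_16.Tab.C.FA22

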