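import Pool.Agent.Strip051.G.I3_16_5_16.Gn
import Pool.Agent.Strip051.PB.Corns

/-! # Certificates of the aligned corners (generated) -/

set_option linter.all false

namespace Pool.Agent.Strip051.G.I3_16_5_16.Tab.CF

open Pool.Agent.Strip051.PB

def A011E_000 :
    ∃ t, chk3 (onCell 0 67108864 0 1073741824 201326592 134217728 (corT true 1 c0F cA011E gF0q0 gF0q1 gF0q1 gF1q1 true false)) t 1 1 1 = true :=
  ⟨(T.l 1), by decide +kernel⟩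

def A011L_002 :
    ∃ t, chk3 (onCell 0 67108864 0 1073741824 201326592 134217728 (corT true 1 c0F cA011L gF0q0 gF0q1 gF2q1 gF3q1 false true)) t 1 1 1 = true :=
  ⟨(T.l 2), by decide +kernel⟩

def A011L_003 :
    ∃ t, chk3 (onCell 0 67108864 0 1073741824 201326592 134217728 (corT true 1 c0F cA011L gF0q0 gF0q1 gF3q1 gF4q1 true true)) t 1 1 1 = true :=
  ⟨(T.l 2), by decide +kernel⟩

def A011L_004 :
    ∃ t, chk3 (onCell 0 67108864 0 1073741824 201326592 134217728 (corT true 1 c0F cA011L gF0q0 gF0q1 gF4q1 gF5q1 true true)) t 1 1 1 = true :=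
  ⟨(T.l 2), by decide +kernel⟩

def A011R_030 :
    ∃ t, chk3 (onCell 0 67108864 0 1073741824 201326592 134217728 (corT true 1 c0F cA011R gF0q0 gF3q1 gF0q1 gF1q1 true false)) t 1 1 1 = true :=
  ⟨(T.b (T.b (T.b (T.b (T.a (T.c (T.c (T.c (T.l 204) (T.l 204)) (T.l 204)) (T.l 204)) (T.a (T.c (T.c (T.l 204) (T.l 204)) (T.l 204)) (T.c (T.c (T.a (T.c (T.l 204) (T.l 204)) (T.b (T.l 204) (T.l 204))) (T.a (T.l 204) (T.l 204))) (T.c (T.b (T.l 204) (T.l 460)) (T.l 204))))) (T.b (T.b (T.b (T.b (T.b (T.a (T.c (T.c (T.l 204) (T.l 204)) (T.l 204)) (T.b (T.c (T.a (T.c (T.l 204) (T.l 204)) (T.c (T.a (T.l 204) (T.l 204)) (T.a (T.l 204) (T.l 204)))) (T.a (T.l 204) (T.c (T.l 204) (T.l 204)))) (T.c (T.a (T.c (T.l 204) (T.l 204)) (T.c (T.a (T.l 460) (T.l 204)) (T.a (T.l 204) (T.l 204)))) (T.a (T.l 204) (T.c (T.l 204) (T.l 204)))))) (T.a (T.c (T.c (T.l 204) (T.l 204))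 (T.l 204)) (T.b (T.c (T.a (T.c (T.l 204) (T.l 204)) (T.c (T.a (T.l 460) (T.l 204)) (T.a (T.l 204) (T.l 204)))) (T.a (T.l 204) (T.c (T.l 204) (T.l 204)))) (T.c (T.a (T.c (T.l 204) (T.l 204)) (T.b (T.c (T.a (T.l 460) (T.l 204)) (T.a (T.l 204) (T.l 204))) (T.l 1))) (T.a (T.l 204) (T.c (T.l 460) (T.l 204))))))) (T.a (T.c (T.c (T.a (T.l 204) (T.l 204)) (T.l 204)) (T.l 204)) (T.l 1))) (T.l 1)) (T.l 1)) (T.l 1))) (T.l 1)) (T.l 1)) (T.l 1)), by decide +kernel⟩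

def A011R_040 :
    ∃ t, chk3 (onCell 0 67108864 0 1073741824 201326592 134217728 (corT true 1 c0F cA011R gF0q0 gF4q1 gF0q1 gF1q1 true false)) t 1 1 1 = true :=
  ⟨(T.b (T.b (T.a (T.c (T.b (T.b (T.l 816) (T.l 0)) (T.b (T.c (T.l 0) (T.l 0)) (T.b (T.b (T.c (T.l 0) (T.l 204)) (T.l 1)) (T.l 1)))) (T.b (T.l 0) (T.b (T.a (T.l 0) (T.l 0)) (T.b (T.b (T.a (T.l 204) (T.l 204)) (T.l 1)) (T.l 1))))) (T.a (T.c (T.b (T.b (T.l 816) (T.l 816)) (T.b (T.b (T.l 0) (T.l 0)) (T.b (T.c (T.l 0) (T.l 204)) (T.l 1)))) (T.b (T.l 0) (T.b (T.l 0) (T.b (T.c (T.l 204) (T.l 204)) (T.l 1))))) (T.c (T.b (T.c (T.l 0) (T.l 0)) (T.c (T.b (T.l 0) (T.b (T.a (T.l 0) (T.l 0)) (T.l 1))) (T.b (T.l 0) (T.b (T.a (T.l 0) (T.l 0)) (T.l 1))))) (T.b (T.l 4) (T.b (T.c (T.l 0) (T.l 0)) (T.b (T.b (T.c (T.l 0) (T.l 204)) (T.l 1)) (T.l 1))))))) (T.l 1)) (T.l 1)), by decide +kernel⟩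

def A011R_050 :
    ∃ t, chk3 (onCell 0 67108864 0 1073741824 201326592 134217728 (corX 1 c0F cA011R tA011R gF0q0 gF5q1 gF0q1 gF1q1 gF0q1 true false)) t 1 1 1 = true :=
  ⟨(T.b (T.b (T.c (T.b (T.a (T.l 819) (T.l 887)) (T.a (T.l 819) (T.l 823))) (T.a (T.l 819) (T.l 887))) (T.b (T.c (T.a (T.l 819) (T.l 823)) (T.a (T.l 819) (T.l 819))) (T.l 1))) (T.l 1)), by decide +kernel⟩

def A011R_130 :
    ∃ t, chk3 (onCell 0 67108864 0 1073741824 201326592 134217728 (corT true 1 c0F cA011R gF1q0 gF3q1 gF0q1 gF1q1 true false)) t 1 1 1 = true :=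
  ⟨(T.l 1), by decide +kernel⟩

def A011R_140 :
    ∃ t, chk3 (onCell 0 67108864 0 1073741824 201326592 134217728 (corT true 1 c0F cA011R gF1q0 gF4q1 gF0q1 gF1q1 true false)) t 1 1 1 = true :=
  ⟨(T.l 1), by decide +kernel⟩

def A011R_150 :
    ∃ t, chk3 (onCell 0 67108864 0 1073741824 201326592 134217728 (corT true 1 c0F cA011R gF1q0 gF5q1 gF0q1 gF1q1 true false)) t 1 1 1 = true :=
  ⟨(T.l 1), by decide +kernel⟩

def A011R_230 :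
    ∃ t, chk3 (onCell 0 67108864 0 1073741824 201326592 134217728 (corT true 1 c0F cA011R gF2q0 gF3q1 gF0q1 gF1q1 true false)) t 1 1 1 = true :=
  ⟨(T.l 1), by decide +kernel⟩

def A011R_240 :
    ∃ t, chk3 (onCell 0 67108864 0 1073741824 201326592 134217728 (corT true 1 c0F cA011R gF2q0 gF4q1 gF0q1 gF1q1 true false)) t 1 1 1 = true :=
  ⟨(T.l 1), by decide +kernel⟩

def A011R_250 :
    ∃ t, chk3 (onCell 0 67108864 0 1073741824 201326592 134217728 (corT true 1 c0F cA011R gF2q0 gF5q1 gF0q1 gF1q1 true false)) t 1 1 1 = true :=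
  ⟨(T.l 1), by decide +kernel⟩

def A012E_000_1_2_1 :
    ∃ t, chk3 (onCell 0 67108864 0 1073741824 201326592 134217728 (corX 1 c0F cA012E tA012E gF0q0 gF0q1 gF0q2 gF1q2 gF0q2 true true)) t 1 2 1 = true :=
  ⟨(T.b (T.l 1) (T.b (T.l 1) (T.b (T.l 1) (T.b (T.l 1) (T.a (T.b (T.l 1) (T.b (T.a (T.l 1) (T.b (T.a (T.l 1) (T.c (T.c (T.l 819) (T.l 819)) (T.l 819))) (T.c (T.c (T.l 823) (T.l 819)) (T.c (T.l 819) (T.l 819))))) (T.a (T.c (T.c (T.c (T.a (T.a (T.l 819) (T.l 819)) (T.l 819)) (T.a (T.l 819) (T.l 819))) (T.c (T.a (T.l 819) (T.l 819)) (T.l 819))) (T.c (T.a (T.l 819) (T.l 819)) (T.a (T.l 819) (T.l 819)))) (T.c (T.c (T.a (T.l 819) (T.l 819)) (T.l 819)) (T.c (T.l 819) (T.l 819)))))) (T.a (T.c (T.c (T.l 883) (T.l 883)) (T.c (T.l 819) (T.l 819))) (T.b (T.b (T.a (T.l 1) (T.a (T.l 1) (T.a (T.l 1) (T.c (T.c (T.c (T.l 883) (T.l 883)) (T.l 883)) (T.l 883)))))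 (T.a (T.c (T.c (T.l 883) (T.l 819)) (T.l 883)) (T.c (T.b (T.c (T.a (T.l 883) (T.c (T.l 883) (T.l 883))) (T.c (T.l 883) (T.l 883))) (T.c (T.a (T.l 883) (T.c (T.l 883) (T.l 883))) (T.c (T.l 883) (T.l 883)))) (T.c (T.l 883) (T.l 883))))) (T.c (T.a (T.c (T.l 883) (T.l 883)) (T.c (T.a (T.c (T.l 883) (T.l 883)) (T.c (T.c (T.l 883) (T.l 883)) (T.l 883))) (T.a (T.l 883) (T.c (T.l 883) (T.l 883))))) (T.a (T.l 883) (T.c (T.c (T.l 883) (T.l 883)) (T.l 883))))))))))), by decide +kernel⟩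

def A012E_000_2_6_1 :
    ∃ t, chk3 (onCell 0 67108864 0 1073741824 201326592 134217728 (corX 1 c0F cA012E tA012E gF0q0 gF0q1 gF0q2 gF1q2 gF0q2 true true)) t 2 6 1 = true :=
  ⟨(T.c (T.a (T.a (T.c (T.b (T.c (T.b (T.a (T.b (T.l 819) (T.l 819)) (T.l 819)) (T.a (T.b (T.l 819) (T.l 819)) (T.l 819))) (T.a (T.b (T.l 819) (T.l 819)) (T.l 823))) (T.b (T.c (T.a (T.b (T.l 819) (T.l 819)) (T.l 819)) (T.a (T.l 819) (T.l 819))) (T.l 2))) (T.b (T.a (T.c (T.b (T.l 819) (T.l 819)) (T.l 819)) (T.c (T.l 819) (T.l 819))) (T.b (T.c (T.b (T.l 819) (T.l 819)) (T.b (T.l 819) (T.l 819))) (T.l 2)))) (T.c (T.b (T.c (T.a (T.l 823) (T.l 819)) (T.b (T.l 819) (T.l 819))) (T.b (T.c (T.b (T.l 819) (T.l 819)) (T.l 823)) (T.l 2))) (T.b (T.a (T.b (T.l 819) (T.l 819)) (T.l 823)) (T.b (T.c (T.l 819) (T.l 819)) (T.l 2))))) (T.a (T.c (T.b (T.b (T.b (T.l 823) (T.l 823)) (T.c (T.l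 819) (T.l 819))) (T.b (T.c (T.l 819) (T.l 819)) (T.l 2))) (T.b (T.b (T.l 819) (T.l 823)) (T.b (T.b (T.l 819) (T.l 819)) (T.l 2)))) (T.c (T.b (T.b (T.l 823) (T.l 823)) (T.b (T.b (T.l 819) (T.l 823)) (T.l 2))) (T.b (T.b (T.l 819) (T.l 819)) (T.b (T.l 819) (T.l 2)))))) (T.a (T.a (T.c (T.b (T.a (T.b (T.l 819) (T.l 819)) (T.b (T.l 819) (T.l 819))) (T.b (T.c (T.l 819) (T.l 819)) (T.l 2))) (T.b (T.a (T.b (T.l 819) (T.l 819)) (T.l 819)) (T.b (T.b (T.l 819) (T.l 819)) (T.l 2)))) (T.b (T.c (T.b (T.l 823) (T.l 823)) (T.b (T.l 819) (T.l 819))) (T.b (T.c (T.b (T.l 819) (T.l 819)) (T.l 819)) (T.l 2)))) (T.a (T.b (T.c (T.b (T.l 819) (T.l 819)) (T.l 823)) (T.b (T.c (T.l 819) (T.l 819)) (T.l 2))) (T.b (T.c (T.l 823) (T.l 819)) (T.b (T.c (T.l 819) (T.l 819)) (T.l 2)))))), by decide +kernel⟩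

def A012E_000_3_12_1 :
    ∃ t, chk3 (onCell 0 67108864 0 1073741824 201326592 134217728 (corX 1 c0F cA012E tA012E gF0q0 gF0q1 gF0q2 gF1q2 gF0q2 true true)) t 3 12 1 = true :=
  ⟨(T.b (T.a (T.c (T.c (T.b (T.l 887) (T.l 887)) (T.l 887)) (T.c (T.l 823) (T.l 819))) (T.b (T.c (T.a (T.c (T.b (T.l 883) (T.l 883)) (T.l 883)) (T.c (T.b (T.a (T.c (T.l 883) (T.l 883)) (T.c (T.l 883) (T.l 883))) (T.a (T.c (T.l 883) (T.l 883)) (T.c (T.l 883) (T.l 883)))) (T.a (T.b (T.l 883) (T.l 883)) (T.b (T.l 883) (T.l 883))))) (T.a (T.l 883) (T.c (T.a (T.l 883) (T.l 883)) (T.b (T.l 883) (T.l 883))))) (T.c (T.a (T.c (T.a (T.l 883) (T.c (T.l 883) (T.l 883))) (T.a (T.l 819) (T.l 883))) (T.c (T.a (T.c (T.l 883) (T.l 883)) (T.b (T.l 883) (T.l 883))) (T.a (T.l 883) (T.l 883)))) (T.a (T.c (T.b (T.l 819) (T.l 883)) (T.l 883)) (T.c (T.b (T.l 883) (T.l 883)) (T.l 883)))))) (T.a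 (T.c (T.c (T.b (T.l 887) (T.l 887)) (T.b (T.l 819) (T.l 819))) (T.c (T.l 823) (T.l 823))) (T.a (T.c (T.b (T.c (T.a (T.b (T.l 819) (T.l 883)) (T.b (T.l 883) (T.l 883))) (T.a (T.l 819) (T.l 883))) (T.c (T.a (T.l 883) (T.l 887)) (T.a (T.l 819) (T.l 819)))) (T.a (T.b (T.l 887) (T.l 887)) (T.c (T.l 887) (T.l 823)))) (T.b (T.c (T.c (T.a (T.l 887) (T.l 887)) (T.b (T.l 887) (T.l 887))) (T.c (T.l 887) (T.l 887))) (T.c (T.a (T.c (T.b (T.l 887) (T.l 823)) (T.l 823)) (T.b (T.c (T.l 887) (T.l 823)) (T.c (T.a (T.l 823) (T.c (T.l 884) (T.l 820))) (T.a (T.l 819) (T.c (T.l 820) (T.l 820)))))) (T.a (T.c (T.l 819) (T.l 819)) (T.b (T.l 887) (T.a (T.l 823) (T.c (T.l 820) (T.l 820)))))))))), by decide +kernel⟩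

def A012E_000_3_13_1 :
    ∃ t, chk3 (onCell 0 67108864 0 1073741824 201326592 134217728 (corX 1 c0F cA012E tA012E gF0q0 gF0q1 gF0q2 gF1q2 gF0q2 true true)) t 3 13 1 = true :=
  ⟨(T.b (T.b (T.b (T.a (T.a (T.c (T.c (T.l 819) (T.l 819)) (T.l 823)) (T.c (T.c (T.c (T.l 819) (T.l 819)) (T.l 823)) (T.c (T.l 823) (T.l 819)))) (T.a (T.c (T.c (T.c (T.l 823) (T.l 823)) (T.c (T.l 823) (T.l 823))) (T.c (T.l 823) (T.l 823))) (T.c (T.a (T.c (T.c (T.l 823) (T.l 823)) (T.l 823)) (T.c (T.a (T.c (T.b (T.l 819) (T.l 820)) (T.l 820)) (T.c (T.b (T.l 820) (T.l 820)) (T.b (T.l 820) (T.l 820)))) (T.a (T.c (T.l 820) (T.l 820)) (T.c (T.l 820) (T.l 820))))) (T.a (T.c (T.l 819) (T.l 819)) (T.c (T.a (T.c (T.l 820) (T.l 820)) (T.c (T.l 820) (T.l 820))) (T.a (T.l 820) (T.l 820))))))) (T.b (T.a (T.a (T.c (T.c (T.l 819) (T.l 819)) (T.l 819)) (T.c (T.c (T.l 887) (T.l 823)) (T.c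 (T.l 819) (T.l 819)))) (T.a (T.c (T.c (T.c (T.l 823) (T.l 823)) (T.c (T.l 823) (T.l 823))) (T.c (T.l 823) (T.l 823))) (T.c (T.a (T.c (T.c (T.l 823) (T.l 823)) (T.l 823)) (T.c (T.c (T.a (T.l 820) (T.l 820)) (T.a (T.l 820) (T.l 820))) (T.a (T.c (T.l 820) (T.l 820)) (T.c (T.l 820) (T.l 820))))) (T.a (T.c (T.l 819) (T.l 819)) (T.c (T.a (T.l 820) (T.l 820)) (T.c (T.l 820) (T.l 820))))))) (T.a (T.a (T.c (T.c (T.l 819) (T.l 819)) (T.l 819)) (T.c (T.c (T.l 887) (T.l 823)) (T.c (T.l 819) (T.l 819)))) (T.a (T.b (T.c (T.c (T.c (T.l 823) (T.l 823)) (T.c (T.l 823) (T.l 819))) (T.c (T.l 823) (T.l 819))) (T.l 2)) (T.l 2))))) (T.a (T.a (T.b (T.c (T.c (T.l 819) (T.l 819)) (T.l 823)) (T.l 2)) (T.l 2)) (T.l 2))) (T.l 2)), by decide +kernel⟩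

def A012E_000_1_7_1 :
    ∃ t, chk3 (onCell 0 67108864 0 1073741824 201326592 134217728 (corX 1 c0F cA012E tA012E gF0q0 gF0q1 gF0q2 gF1q2 gF0q2 true true)) t 1 7 1 = true :=
  ⟨(T.l 2), by decide +kernel⟩

theorem A012E_000_3_6_1 :
    ∃ t, chk3 (onCell 0 67108864 0 1073741824 201326592 134217728 (corX 1 c0F cA012E tA012E gF0q0 gF0q1 gF0q2 gF1q2 gF0q2 true true)) t 3 6 1 = true :=
  ex3_b A012E_000_3_12_1 A012E_000_3_13_1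
theorem A012E_000_1_6_1 :
    ∃ t, chk3 (onCell 0 67108864 0 1073741824 201326592 134217728 (corX 1 c0F cA012E tA012E gF0q0 gF0q1 gF0q2 gF1q2 gF0q2 true true)) t 1 6 1 = true :=
  ex3_a A012E_000_2_6_1 A012E_000_3_6_1
theorem A012E_000_1_3_1 :
    ∃ t, chk3 (onCell 0 67108864 0 1073741824 201326592 134217728 (corX 1 c0F cA012E tA012E gF0q0 gF0q1 gF0q2 gF1q2 gF0q2 true true)) t 1 3 1 = true :=
  ex3_b A012E_000_1_6_1 A012E_000_1_7_1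
theorem A012E_000 :
    ∃ t, chk3 (onCell 0 67108864 0 1073741824 201326592 134217728 (corX 1 c0F cA012E tA012E gF0q0 gF0q1 gF0q2 gF1q2 gF0q2 true true)) t 1 1 1 = true :=
  ex3_b A012E_000_1_2_1 A012E_000_1_3_1

def A012E_001_1_2_1 :
    ∃ t, chk3 (onCell 0 67108864 0 1073741824 201326592 134217728 (corT true 1 c0F cA012E gF0q0 gF0q1 gF1q2 gF2q2 true true)) t 1 2 1 = true :=
  ⟨(T.l 1), by decide +kernel⟩

def A012E_001_1_12_1 :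
    ∃ t, chk3 (onCell 0 67108864 0 1073741824 201326592 134217728 (corT true 1 c0F cA012E gF0q0 gF0q1 gF1q2 gF2q2 true true)) t 1 12 1 = true :=
  ⟨(T.l 1), by decide +kernel⟩

def A012E_001_2_13_1 :
    ∃ t, chk3 (onCell 0 67108864 0 1073741824 201326592 134217728 (corT true 1 c0F cA012E gF0q0 gF0q1 gF1q2 gF2q2 true true)) t 2 13 1 = true :=
  ⟨(T.c (T.c (T.b (T.b (T.a (T.l 1) (T.a (T.l 1) (T.l 1))) (T.a (T.c (T.a (T.b (T.b (T.l 1) (T.a (T.l 816) (T.l 816))) (T.l 816)) (T.b (T.l 816) (T.l 816))) (T.b (T.a (T.b (T.l 1) (T.l 816)) (T.l 816)) (T.l 816))) (T.c (T.l 820) (T.l 816)))) (T.a (T.c (T.b (T.a (T.l 816) (T.l 816)) (T.l 816)) (T.b (T.l 816) (T.l 816))) (T.c (T.l 820) (T.l 816)))) (T.b (T.b (T.a (T.l 1) (T.a (T.l 1) (T.l 1))) (T.a (T.c (T.a (T.b (T.a (T.l 816) (T.l 816)) (T.l 816)) (T.l 816)) (T.a (T.b (T.l 816) (T.l 816)) (T.l 816))) (T.b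 (T.l 820) (T.l 816)))) (T.a (T.b (T.c (T.l 816) (T.l 816)) (T.l 816)) (T.b (T.l 816) (T.l 816))))) (T.b (T.b (T.a (T.l 1) (T.a (T.l 1) (T.l 1))) (T.c (T.a (T.b (T.a (T.c (T.l 816) (T.l 816)) (T.l 816)) (T.a (T.l 816) (T.l 816))) (T.a (T.l 816) (T.l 816))) (T.a (T.b (T.c (T.l 816) (T.l 816)) (T.l 816)) (T.l 816)))) (T.c (T.a (T.b (T.a (T.l 816) (T.l 816)) (T.l 816)) (T.l 820)) (T.a (T.b (T.l 816) (T.l 816)) (T.l 816))))), by decide +kernel⟩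

def A012E_001_6_13_1 :
    ∃ t, chk3 (onCell 0 67108864 0 1073741824 201326592 134217728 (corT true 1 c0F cA012E gF0q0 gF0q1 gF1q2 gF2q2 true true)) t 6 13 1 = true :=
  ⟨(T.a (T.c (T.c (T.b (T.c (T.l 820) (T.l 820)) (T.b (T.l 880) (T.l 880))) (T.b (T.c (T.l 820) (T.l 820)) (T.l 880))) (T.b (T.c (T.b (T.l 820) (T.l 816)) (T.b (T.l 816) (T.l 816))) (T.c (T.l 816) (T.l 816)))) (T.b (T.c (T.a (T.c (T.b (T.l 820) (T.l 816)) (T.l 820)) (T.c (T.b (T.b (T.l 1) (T.l 884)) (T.c (T.l 884) (T.l 880))) (T.b (T.b (T.l 1) (T.l 816)) (T.b (T.l 816) (T.l 816))))) (T.a (T.c (T.l 820) (T.l 816)) (T.b (T.b (T.l 1) (T.c (T.l 816) (T.l 816))) (T.c (T.l 884) (T.l 816))))) (T.c (T.a (T.c (T.b (T.a (T.l 880) (T.c (T.l 880) (T.l 816))) (T.c (T.a (T.l 880) (T.l 880)) (T.b (T.l 880) (T.l 880)))) (T.b (T.b (T.l 880) (T.l 880)) (T.a (T.b (T.l 816) (T.l 880)) (T.b (T.l 816)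 (T.l 816))))) (T.c (T.b (T.c (T.b (T.l 816) (T.l 816)) (T.l 880)) (T.c (T.b (T.l 816) (T.l 880)) (T.l 880))) (T.b (T.b (T.l 880) (T.l 816)) (T.b (T.l 880) (T.l 880))))) (T.a (T.b (T.c (T.b (T.l 816) (T.l 816)) (T.l 816)) (T.c (T.b (T.l 880) (T.l 880)) (T.b (T.l 816) (T.l 816)))) (T.b (T.c (T.l 880) (T.l 816)) (T.c (T.l 880) (T.l 816))))))), by decide +kernel⟩

def A012E_001_7_13_1 :
    ∃ t, chk3 (onCell 0 67108864 0 1073741824 201326592 134217728 (corT true 1 c0F cA012E gF0q0 gF0q1 gF1q2 gF2q2 true true)) t 7 13 1 = true :=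
  ⟨(T.b (T.c (T.a (T.b (T.b (T.l 1) (T.c (T.a (T.l 820) (T.c (T.l 820) (T.l 820))) (T.a (T.l 820) (T.l 820)))) (T.c (T.a (T.b (T.l 820) (T.l 884)) (T.b (T.l 820) (T.l 884))) (T.a (T.l 884) (T.b (T.l 820) (T.l 816))))) (T.b (T.b (T.l 1) (T.c (T.a (T.c (T.l 820) (T.l 820)) (T.c (T.l 820) (T.l 820))) (T.a (T.c (T.l 820) (T.l 820)) (T.c (T.l 820) (T.l 820))))) (T.c (T.a (T.c (T.b (T.l 820) (T.l 820)) (T.l 820)) (T.c (T.b (T.l 820) (T.l 820)) (T.b (T.l 820) (T.l 820)))) (T.a (T.b (T.l 820) (T.l 820)) (T.b (T.l 820) (T.l 820)))))) (T.a (T.b (T.b (T.l 1) (T.c (T.a (T.l 816) (T.l 820)) (T.c (T.l 820) (T.l 820)))) (T.c (T.a (T.l 820) (T.l 820)) (T.b (T.l 820) (T.l 820)))) (T.b (T.b (T.l 1) (T.c (T.a (T.l 820) (T.l 820)) (T.c (T.l 820) (T.l 820)))) (T.c (T.a (T.l 820) (T.b (T.l 820) (T.l 816))) (T.b (T.l 820) (T.l 820)))))) (T.c (T.a (T.c (T.b (T.a (T.b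 (T.l 884) (T.l 880)) (T.b (T.l 884) (T.l 884))) (T.a (T.c (T.l 880) (T.l 880)) (T.c (T.l 880) (T.l 880)))) (T.b (T.a (T.l 884) (T.l 884)) (T.a (T.b (T.l 880) (T.l 880)) (T.b (T.l 880) (T.l 880))))) (T.c (T.b (T.a (T.b (T.l 884) (T.l 884)) (T.b (T.l 884) (T.l 884))) (T.a (T.c (T.l 884) (T.l 880)) (T.c (T.l 884) (T.l 880)))) (T.b (T.a (T.l 884) (T.l 884)) (T.a (T.b (T.l 880) (T.l 880)) (T.b (T.l 880) (T.l 880)))))) (T.a (T.b (T.c (T.a (T.l 880) (T.l 880)) (T.b (T.l 884) (T.l 880))) (T.c (T.a (T.l 880) (T.l 880)) (T.a (T.l 816) (T.l 816)))) (T.b (T.c (T.b (T.l 884) (T.l 884)) (T.b (T.l 884) (T.l 880))) (T.c (T.a (T.l 880) (T.l 880)) (T.b (T.l 880) (T.l 880))))))), by decide +kernel⟩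

def A012E_001_2_14_1 :
    ∃ t, chk3 (onCell 0 67108864 0 1073741824 201326592 134217728 (corT true 1 c0F cA012E gF0q0 gF0q1 gF1q2 gF2q2 true true)) t 2 14 1 = true :=
  ⟨(T.c (T.c (T.b (T.c (T.a (T.l 816) (T.l 816)) (T.a (T.l 816) (T.l 816))) (T.a (T.l 816) (T.c (T.b (T.l 816) (T.l 816)) (T.l 880)))) (T.b (T.a (T.l 816) (T.b (T.l 816) (T.l 816))) (T.a (T.l 816) (T.c (T.l 816) (T.l 816))))) (T.c (T.b (T.a (T.l 816) (T.l 816)) (T.a (T.l 816) (T.b (T.l 816) (T.l 816)))) (T.b (T.l 880) (T.a (T.l 816) (T.l 816))))), by decide +kernel⟩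

def A012E_001_6_28_1 :
    ∃ t, chk3 (onCell 0 67108864 0 1073741824 201326592 134217728 (corT true 1 c0F cA012E gF0q0 gF0q1 gF1q2 gF2q2 true true)) t 6 28 1 = true :=
  ⟨(T.a (T.c (T.a (T.c (T.c (T.l 816) (T.l 816)) (T.l 880)) (T.c (T.b (T.a (T.l 880) (T.c (T.b (T.l 816) (T.l 880)) (T.l 880))) (T.a (T.c (T.b (T.l 816) (T.l 880)) (T.l 880)) (T.c (T.b (T.l 880) (T.l 880)) (T.b (T.l 880) (T.l 880))))) (T.b (T.a (T.l 816) (T.b (T.l 816) (T.l 880))) (T.a (T.c (T.l 880) (T.l 816)) (T.c (T.l 880) (T.l 880)))))) (T.a (T.c (T.l 816) (T.l 816)) (T.c (T.b (T.a (T.l 816) (T.l 880)) (T.a (T.b (T.l 816) (T.l 816)) (T.b (T.l 816) (T.l 816)))) (T.b (T.b (T.l 816) (T.l 880)) (T.a (T.l 816) (T.l 880)))))) (T.c (T.a (T.c (T.b (T.c (T.a (T.b (T.l 880) (T.l 816)) (T.l 880)) (T.b (T.l 880) (T.l 880))) (T.c (T.a (T.l 880) (T.l 880)) (T.b (T.l 880) (T.l 880)))) (T.b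 (T.a (T.b (T.l 880) (T.l 880)) (T.l 880)) (T.c (T.b (T.l 880) (T.l 880)) (T.b (T.l 816) (T.l 816))))) (T.c (T.b (T.c (T.b (T.l 880) (T.l 880)) (T.l 880)) (T.c (T.b (T.l 880) (T.l 880)) (T.b (T.l 880) (T.l 880)))) (T.b (T.b (T.l 880) (T.l 880)) (T.c (T.l 880) (T.l 880))))) (T.a (T.c (T.b (T.b (T.l 880) (T.l 880)) (T.b (T.l 880) (T.l 880))) (T.b (T.b (T.l 816) (T.l 816)) (T.b (T.l 816) (T.l 816)))) (T.c (T.b (T.b (T.l 816) (T.l 816)) (T.b (T.l 816) (T.l 880))) (T.b (T.l 880) (T.l 880)))))), by decide +kernel⟩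

def A012E_001_7_28_1 :
    ∃ t, chk3 (onCell 0 67108864 0 1073741824 201326592 134217728 (corT true 1 c0F cA012E gF0q0 gF0q1 gF1q2 gF2q2 true true)) t 7 28 1 = true :=
  ⟨(T.c (T.a (T.c (T.a (T.b (T.c (T.l 880) (T.l 880)) (T.c (T.b (T.l 880) (T.l 880)) (T.l 880))) (T.b (T.c (T.l 880) (T.l 880)) (T.c (T.b (T.l 880) (T.l 880)) (T.l 880)))) (T.a (T.b (T.b (T.l 880) (T.l 880)) (T.b (T.l 880) (T.l 880))) (T.b (T.b (T.l 880) (T.l 880)) (T.b (T.l 880) (T.l 880))))) (T.c (T.a (T.b (T.c (T.l 880) (T.l 880)) (T.c (T.b (T.l 880) (T.l 880)) (T.l 880))) (T.b (T.c (T.l 880) (T.l 880)) (T.c (T.b (T.l 880) (T.l 880)) (T.l 880)))) (T.a (T.b (T.b (T.l 880) (T.l 880)) (T.b (T.l 880) (T.l 880))) (T.b (T.b (T.l 880) (T.l 880)) (T.b (T.l 880) (T.l 880)))))) (T.a (T.a (T.c (T.b (T.l 880) (T.b (T.l 816) (T.l 816))) (T.b (T.l 816) (T.l 880))) (T.c (T.b (T.l 880) (T.l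 880)) (T.b (T.l 816) (T.l 880)))) (T.b (T.c (T.a (T.l 880) (T.l 880)) (T.a (T.l 880) (T.l 880))) (T.c (T.a (T.l 880) (T.l 880)) (T.a (T.l 880) (T.l 880)))))), by decide +kernel⟩

def A012E_001_12_29_1 :
    ∃ t, chk3 (onCell 0 67108864 0 1073741824 201326592 134217728 (corT true 1 c0F cA012E gF0q0 gF0q1 gF1q2 gF2q2 true true)) t 12 29 1 = true :=
  ⟨(T.c (T.a (T.c (T.b (T.c (T.l 816) (T.l 816)) (T.a (T.c (T.l 816) (T.l 816)) (T.c (T.a (T.l 816) (T.b (T.l 880) (T.l 880))) (T.b (T.l 880) (T.b (T.l 880) (T.l 880)))))) (T.b (T.l 880) (T.a (T.l 880) (T.a (T.l 880) (T.c (T.l 880) (T.l 816)))))) (T.c (T.b (T.a (T.c (T.b (T.b (T.l 880) (T.l 880)) (T.b (T.l 880) (T.l 880))) (T.b (T.l 880) (T.l 880))) (T.c (T.b (T.l 880) (T.l 880)) (T.l 880))) (T.a (T.c (T.b (T.b (T.l 880) (T.l 880)) (T.l 880)) (T.b (T.l 880) (T.l 880))) (T.c (T.b (T.l 880) (T.l 880))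 (T.l 880)))) (T.a (T.b (T.c (T.b (T.l 880) (T.l 880)) (T.b (T.l 816) (T.l 816))) (T.c (T.b (T.l 880) (T.l 816)) (T.b (T.l 816) (T.l 816)))) (T.b (T.c (T.l 880) (T.l 816)) (T.c (T.l 880) (T.l 816)))))) (T.a (T.b (T.c (T.l 816) (T.l 816)) (T.c (T.a (T.l 816) (T.c (T.b (T.l 816) (T.l 816)) (T.l 880))) (T.a (T.l 816) (T.b (T.l 816) (T.l 816))))) (T.c (T.a (T.b (T.b (T.l 880) (T.l 880)) (T.b (T.l 880) (T.l 880))) (T.b (T.l 880) (T.b (T.l 816) (T.l 816)))) (T.a (T.b (T.b (T.l 816) (T.l 816)) (T.b (T.l 816) (T.l 816))) (T.b (T.l 816) (T.l 816)))))), by decide +kernel⟩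

def A012E_001_13_29_1 :
    ∃ t, chk3 (onCell 0 67108864 0 1073741824 201326592 134217728 (corT true 1 c0F cA012E gF0q0 gF0q1 gF1q2 gF2q2 true true)) t 13 29 1 = true :=
  ⟨(T.c (T.a (T.c (T.b (T.c (T.a (T.l 880) (T.l 880)) (T.b (T.l 880) (T.l 880))) (T.c (T.a (T.l 880) (T.l 880)) (T.b (T.l 880) (T.l 880)))) (T.b (T.a (T.b (T.l 880) (T.l 880)) (T.b (T.l 880) (T.l 880))) (T.a (T.b (T.l 880) (T.l 880)) (T.b (T.l 880) (T.l 880))))) (T.c (T.b (T.c (T.b (T.l 880) (T.l 880)) (T.b (T.l 880) (T.l 880))) (T.c (T.b (T.l 880) (T.l 880)) (T.b (T.l 880) (T.l 880)))) (T.b (T.c (T.b (T.l 816) (T.l 816)) (T.l 880)) (T.c (T.b (T.l 816) (T.l 816)) (T.l 880))))) (T.a (T.c (T.b (T.a (T.l 880) (T.l 880)) (T.a (T.l 880) (T.l 880))) (T.b (T.b (T.l 816) (T.l 816)) (T.b (T.l 816) (T.l 816)))) (T.c (T.b (T.b (T.l 880) (T.l 880)) (T.b (T.l 880) (T.l 880))) (T.b (T.l 880)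 (T.l 880))))), by decide +kernel⟩

def A012E_001_7_29_1 :
    ∃ t, chk3 (onCell 0 67108864 0 1073741824 201326592 134217728 (corT true 1 c0F cA012E gF0q0 gF0q1 gF1q2 gF2q2 true true)) t 7 29 1 = true :=
  ⟨(T.c (T.a (T.c (T.a (T.b (T.c (T.b (T.l 880) (T.l 880)) (T.b (T.l 816) (T.l 816))) (T.c (T.b (T.l 880) (T.l 880)) (T.b (T.l 816) (T.l 816)))) (T.b (T.c (T.b (T.l 880) (T.l 880)) (T.l 880)) (T.c (T.b (T.l 880) (T.l 880)) (T.l 880)))) (T.a (T.b (T.c (T.l 880) (T.l 880)) (T.c (T.l 880) (T.l 880))) (T.b (T.b (T.l 880) (T.l 880)) (T.b (T.l 880) (T.l 880))))) (T.c (T.a (T.b (T.c (T.b (T.l 880) (T.l 880)) (T.l 880)) (T.c (T.b (T.l 880) (T.l 880)) (T.l 880))) (T.b (T.c (T.b (T.l 880) (T.l 880)) (T.l 880)) (T.c (T.b (T.l 880) (T.l 880)) (T.b (T.l 880) (T.l 880))))) (T.a (T.b (T.b (T.l 880) (T.l 880)) (T.b (T.l 880) (T.l 880))) (T.b (T.b (T.l 880) (T.l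 880)) (T.b (T.l 880) (T.l 880)))))) (T.a (T.a (T.c (T.b (T.b (T.l 816) (T.l 816)) (T.b (T.l 816) (T.l 816))) (T.b (T.l 880) (T.l 880))) (T.c (T.b (T.b (T.l 816) (T.l 816)) (T.b (T.l 816) (T.l 816))) (T.b (T.l 816) (T.l 816)))) (T.a (T.c (T.b (T.l 880) (T.l 880)) (T.b (T.l 816) (T.l 816))) (T.c (T.b (T.l 880) (T.l 880)) (T.b (T.l 816) (T.l 816)))))), by decide +kernel⟩

def A012E_001_2_60_1 :
    ∃ t, chk3 (onCell 0 67108864 0 1073741824 201326592 134217728 (corT true 1 c0F cA012E gF0q0 gF0q1 gF1q2 gF2q2 true true)) t 2 60 1 = true :=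
  ⟨(T.c (T.c (T.a (T.l 816) (T.c (T.l 880) (T.l 816))) (T.a (T.l 816) (T.c (T.l 816) (T.l 816)))) (T.c (T.a (T.l 816) (T.l 816)) (T.a (T.l 816) (T.l 816)))), by decide +kernel⟩

def A012E_001_3_240_1 :
    ∃ t, chk3 (onCell 0 67108864 0 1073741824 201326592 134217728 (corT true 1 c0F cA012E gF0q0 gF0q1 gF1q2 gF2q2 true true)) t 3 240 1 = true :=
  ⟨(T.b (T.a (T.a (T.c (T.a (T.c (T.a (T.c (T.l 816) (T.l 816)) (T.c (T.l 880) (T.l 880))) (T.a (T.l 816) (T.c (T.l 816) (T.l 816)))) (T.c (T.c (T.c (T.l 880) (T.l 880)) (T.c (T.l 880) (T.l 816))) (T.c (T.l 880) (T.l 816)))) (T.a (T.c (T.a (T.l 816) (T.l 880)) (T.c (T.l 880) (T.l 816))) (T.c (T.c (T.l 816) (T.l 816)) (T.l 816)))) (T.c (T.c (T.a (T.c (T.l 880) (T.l 816)) (T.c (T.l 816) (T.l 816))) (T.a (T.c (T.l 816) (T.l 816)) (T.l 880))) (T.c (T.a (T.l 816) (T.l 816)) (T.a (T.l 816) (T.l 816))))) (T.c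 (T.a (T.c (T.a (T.c (T.l 816) (T.l 816)) (T.c (T.l 816) (T.l 816))) (T.a (T.l 816) (T.l 816))) (T.c (T.a (T.c (T.l 816) (T.l 816)) (T.c (T.l 880) (T.l 816))) (T.c (T.l 880) (T.l 880)))) (T.a (T.c (T.c (T.l 880) (T.l 816)) (T.l 880)) (T.c (T.l 880) (T.l 816))))) (T.a (T.a (T.c (T.a (T.c (T.a (T.c (T.l 816) (T.l 816)) (T.c (T.l 880) (T.l 880))) (T.a (T.l 816) (T.c (T.l 816) (T.l 816)))) (T.c (T.c (T.c (T.l 880) (T.l 880)) (T.c (T.l 880) (T.l 816))) (T.c (T.l 880) (T.l 816)))) (T.a (T.c (T.a (T.l 816) (T.l 880)) (T.c (T.l 880) (T.l 816))) (T.c (T.c (T.l 816) (T.l 816)) (T.l 816)))) (T.c (T.c (T.a (T.c (T.l 880) (T.l 816)) (T.c (T.l 816) (T.l 816))) (T.a (T.c (T.l 816) (T.l 816)) (T.l 880))) (T.c (T.a (T.l 816) (T.l 816)) (T.a (T.l 816) (T.l 816))))) (T.c (T.a (T.c (T.a (T.c (T.l 816) (T.l 816)) (T.c (T.l 816) (T.l 816))) (T.a (T.l 816) (T.l 816)))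 (T.c (T.a (T.c (T.l 816) (T.l 816)) (T.c (T.l 880) (T.l 816))) (T.c (T.l 880) (T.l 880)))) (T.a (T.c (T.c (T.l 880) (T.l 816)) (T.l 880)) (T.c (T.l 880) (T.l 816)))))), by decide +kernel⟩

def A012E_001_3_482_1 :
    ∃ t, chk3 (onCell 0 67108864 0 1073741824 201326592 134217728 (corT true 1 c0F cA012E gF0q0 gF0q1 gF1q2 gF2q2 true true)) t 3 482 1 = true :=
  ⟨(T.a (T.b (T.a (T.c (T.a (T.c (T.a (T.c (T.l 816) (T.l 816)) (T.c (T.l 880) (T.l 880))) (T.a (T.l 816) (T.c (T.l 816) (T.l 816)))) (T.c (T.c (T.c (T.l 880) (T.l 880)) (T.l 880)) (T.c (T.l 880) (T.l 816)))) (T.a (T.c (T.a (T.l 816) (T.l 880)) (T.c (T.l 880) (T.l 816))) (T.c (T.c (T.l 816) (T.l 816)) (T.l 816)))) (T.c (T.c (T.a (T.c (T.l 880) (T.l 816)) (T.c (T.l 816) (T.l 816))) (T.a (T.c (T.l 816) (T.l 816)) (T.l 880))) (T.c (T.a (T.l 816) (T.l 816)) (T.a (T.l 816) (T.l 816))))) (T.a (T.c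 (T.a (T.c (T.a (T.c (T.l 816) (T.l 816)) (T.c (T.l 880) (T.l 880))) (T.a (T.l 816) (T.c (T.l 816) (T.l 816)))) (T.c (T.c (T.c (T.l 880) (T.l 880)) (T.l 880)) (T.c (T.l 880) (T.l 816)))) (T.a (T.c (T.a (T.l 816) (T.l 880)) (T.c (T.l 880) (T.l 816))) (T.c (T.c (T.l 816) (T.l 816)) (T.l 816)))) (T.c (T.c (T.a (T.c (T.l 880) (T.l 816)) (T.c (T.l 816) (T.l 816))) (T.a (T.c (T.l 816) (T.l 816)) (T.l 880))) (T.c (T.a (T.l 816) (T.l 816)) (T.a (T.l 816) (T.l 816)))))) (T.c (T.a (T.c (T.a (T.c (T.l 816) (T.l 816)) (T.c (T.l 816) (T.l 816))) (T.a (T.l 816) (T.l 816))) (T.c (T.a (T.c (T.l 816) (T.l 816)) (T.c (T.l 880) (T.l 816))) (T.c (T.l 880) (T.l 880)))) (T.a (T.c (T.c (T.l 880) (T.l 816)) (T.l 880)) (T.c (T.l 880) (T.l 816))))), by decide +kernel⟩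

def A012E_001_3_483_1 :
    ∃ t, chk3 (onCell 0 67108864 0 1073741824 201326592 134217728 (corT true 1 c0F cA012E gF0q0 gF0q1 gF1q2 gF2q2 true true)) t 3 483 1 = true :=
  ⟨(T.a (T.b (T.a (T.c (T.a (T.c (T.a (T.c (T.l 816) (T.l 816)) (T.c (T.l 880) (T.l 880))) (T.a (T.l 816) (T.c (T.l 816) (T.l 816)))) (T.c (T.c (T.c (T.l 880) (T.l 880)) (T.l 880)) (T.c (T.l 880) (T.l 816)))) (T.a (T.c (T.a (T.l 816) (T.l 880)) (T.c (T.l 880) (T.l 816))) (T.c (T.c (T.l 816) (T.l 816)) (T.l 816)))) (T.c (T.c (T.a (T.c (T.l 880) (T.l 816)) (T.c (T.l 816) (T.l 816))) (T.a (T.c (T.l 816) (T.l 816)) (T.l 880))) (T.c (T.a (T.l 816) (T.l 816)) (T.a (T.l 816) (T.l 816))))) (T.a (T.c (T.a (T.c (T.a (T.c (T.l 816) (T.l 816)) (T.c (T.l 880) (T.l 880))) (T.a (T.l 816) (T.c (T.l 816) (T.l 816)))) (T.c (T.c (T.c (T.l 880) (T.l 880)) (T.l 880)) (T.c (T.l 880) (T.l 816))))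 (T.a (T.c (T.a (T.l 816) (T.l 880)) (T.c (T.l 880) (T.l 816))) (T.c (T.c (T.l 816) (T.l 816)) (T.l 816)))) (T.c (T.c (T.a (T.c (T.l 880) (T.l 816)) (T.c (T.l 816) (T.l 816))) (T.a (T.c (T.l 816) (T.l 816)) (T.l 880))) (T.c (T.a (T.l 816) (T.l 816)) (T.a (T.l 816) (T.l 816)))))) (T.c (T.a (T.c (T.a (T.c (T.l 816) (T.l 816)) (T.c (T.l 816) (T.l 816))) (T.a (T.l 816) (T.l 816))) (T.c (T.a (T.c (T.l 816) (T.l 816)) (T.c (T.l 880) (T.l 816))) (T.c (T.l 880) (T.l 880)))) (T.a (T.c (T.c (T.l 880) (T.l 816)) (T.l 880)) (T.c (T.l 880) (T.l 816))))), by decide +kernel⟩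

def A012E_001_3_484_1 :
    ∃ t, chk3 (onCell 0 67108864 0 1073741824 201326592 134217728 (corT true 1 c0F cA012E gF0q0 gF0q1 gF1q2 gF2q2 true true)) t 3 484 1 = true :=
  ⟨(T.a (T.b (T.a (T.c (T.a (T.c (T.a (T.c (T.l 816) (T.l 816)) (T.c (T.l 880) (T.l 880))) (T.a (T.l 816) (T.c (T.l 816) (T.l 816)))) (T.c (T.c (T.c (T.l 880) (T.l 880)) (T.l 880)) (T.c (T.l 880) (T.l 816)))) (T.a (T.c (T.a (T.l 816) (T.l 880)) (T.c (T.l 880) (T.l 816))) (T.c (T.c (T.l 816) (T.l 816)) (T.l 816)))) (T.c (T.c (T.a (T.c (T.l 880) (T.l 816)) (T.c (T.l 816) (T.l 816))) (T.a (T.c (T.l 816) (T.l 816)) (T.l 880))) (T.c (T.a (T.l 816) (T.l 816)) (T.a (T.l 816) (T.l 816))))) (T.a (T.c (T.a (T.c (T.a (T.c (T.l 816) (T.l 816)) (T.c (T.l 880) (T.l 880))) (T.a (T.l 816) (T.c (T.l 816) (T.l 816)))) (T.c (T.c (T.c (T.l 880) (T.l 880)) (T.l 880)) (T.c (T.l 880) (T.l 816))))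 (T.a (T.c (T.a (T.l 816) (T.l 880)) (T.c (T.l 880) (T.l 816))) (T.c (T.c (T.l 816) (T.l 816)) (T.l 816)))) (T.c (T.c (T.a (T.c (T.l 880) (T.l 816)) (T.c (T.l 816) (T.l 816))) (T.a (T.c (T.l 816) (T.l 816)) (T.l 880))) (T.c (T.a (T.l 816) (T.l 816)) (T.a (T.l 816) (T.l 816)))))) (T.b (T.a (T.c (T.c (T.a (T.c (T.l 816) (T.l 816)) (T.c (T.l 816) (T.l 816))) (T.a (T.l 816) (T.l 816))) (T.c (T.c (T.l 816) (T.l 816)) (T.l 880))) (T.c (T.c (T.c (T.a (T.l 816) (T.l 880)) (T.a (T.l 816) (T.l 816))) (T.c (T.l 880) (T.l 880))) (T.c (T.l 880) (T.l 816)))) (T.a (T.c (T.c (T.a (T.c (T.l 816) (T.l 816)) (T.c (T.l 816) (T.l 816))) (T.a (T.l 816) (T.l 816))) (T.c (T.c (T.l 816) (T.l 816)) (T.l 816))) (T.c (T.c (T.c (T.a (T.l 816) (T.l 880)) (T.a (T.l 816) (T.l 816))) (T.c (T.l 880) (T.l 880))) (T.c (T.l 880) (T.l 816)))))), by decide +kernel⟩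

def A012E_001_6_485_1 :
    ∃ t, chk3 (onCell 0 67108864 0 1073741824 201326592 134217728 (corT true 1 c0F cA012E gF0q0 gF0q1 gF1q2 gF2q2 true true)) t 6 485 1 = true :=
  ⟨(T.b (T.a (T.c (T.a (T.c (T.a (T.c (T.l 816) (T.l 816)) (T.c (T.l 880) (T.l 880))) (T.a (T.l 880) (T.c (T.l 816) (T.l 816)))) (T.c (T.c (T.c (T.l 880) (T.l 816)) (T.l 880)) (T.c (T.l 880) (T.l 816)))) (T.a (T.c (T.a (T.l 816) (T.l 880)) (T.a (T.l 816) (T.l 816))) (T.c (T.c (T.l 816) (T.l 816)) (T.l 816)))) (T.c (T.c (T.a (T.c (T.l 880) (T.l 816)) (T.c (T.l 816) (T.l 816))) (T.a (T.c (T.l 816) (T.l 816)) (T.l 880))) (T.c (T.a (T.l 816) (T.l 816)) (T.a (T.l 816) (T.l 816))))) (T.a (T.b (T.c (T.a (T.c (T.a (T.c (T.l 816) (T.l 816)) (T.c (T.l 880) (T.l 816))) (T.a (T.l 880) (T.c (T.l 816) (T.l 816)))) (T.c (T.c (T.c (T.l 880) (T.l 816)) (T.l 880)) (T.c (T.l 816) (T.l 816))))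 (T.a (T.c (T.a (T.l 816) (T.l 880)) (T.c (T.l 880) (T.l 816))) (T.c (T.c (T.l 816) (T.l 816)) (T.l 816)))) (T.c (T.c (T.a (T.a (T.c (T.l 816) (T.l 816)) (T.c (T.l 880) (T.l 816))) (T.c (T.c (T.l 880) (T.l 816)) (T.l 880))) (T.a (T.a (T.l 880) (T.c (T.l 816) (T.l 816))) (T.c (T.l 816) (T.l 816)))) (T.a (T.c (T.a (T.l 816) (T.l 880)) (T.a (T.l 816) (T.l 816))) (T.c (T.c (T.l 816) (T.l 816)) (T.l 816))))) (T.c (T.c (T.a (T.c (T.l 816) (T.l 816)) (T.c (T.l 816) (T.l 816))) (T.a (T.c (T.l 816) (T.l 816)) (T.l 880))) (T.c (T.a (T.l 816) (T.l 816)) (T.a (T.l 816) (T.l 816)))))), by decide +kernel⟩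

def A012E_001_7_485_1 :
    ∃ t, chk3 (onCell 0 67108864 0 1073741824 201326592 134217728 (corT true 1 c0F cA012E gF0q0 gF0q1 gF1q2 gF2q2 true true)) t 7 485 1 = true :=
  ⟨(T.b (T.a (T.c (T.c (T.a (T.c (T.l 816) (T.l 816)) (T.c (T.l 816) (T.l 816))) (T.a (T.l 816) (T.l 816))) (T.c (T.c (T.l 816) (T.l 816)) (T.l 816))) (T.c (T.c (T.c (T.a (T.l 816) (T.l 880)) (T.a (T.l 816) (T.l 816))) (T.c (T.l 880) (T.l 880))) (T.c (T.l 880) (T.l 816)))) (T.a (T.c (T.c (T.a (T.c (T.l 816) (T.l 816)) (T.c (T.l 816) (T.l 816))) (T.a (T.l 816) (T.l 816))) (T.c (T.c (T.l 816) (T.l 816)) (T.l 816))) (T.c (T.c (T.c (T.a (T.l 816) (T.l 880)) (T.a (T.l 816) (T.l 816))) (T.c (T.l 880) (T.l 880))) (T.c (T.l 880) (T.l 816))))), by decide +kernel⟩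

def A012E_001_6_972_1 :
    ∃ t, chk3 (onCell 0 67108864 0 1073741824 201326592 134217728 (corT true 1 c0F cA012E gF0q0 gF0q1 gF1q2 gF2q2 true true)) t 6 972 1 = true :=
  ⟨(T.a (T.b (T.c (T.a (T.c (T.a (T.c (T.l 816) (T.l 816)) (T.c (T.l 880) (T.l 816))) (T.a (T.l 880) (T.c (T.l 816) (T.l 816)))) (T.c (T.c (T.c (T.l 880) (T.l 816)) (T.l 880)) (T.c (T.l 816) (T.l 816)))) (T.a (T.c (T.a (T.l 816) (T.l 880)) (T.a (T.l 816) (T.l 816))) (T.c (T.c (T.l 816) (T.l 816)) (T.l 816)))) (T.c (T.a (T.c (T.a (T.c (T.l 816) (T.l 816)) (T.c (T.l 880) (T.l 816))) (T.a (T.l 880) (T.c (T.l 816) (T.l 816)))) (T.c (T.c (T.c (T.l 880) (T.l 816)) (T.l 880)) (T.c (T.l 816) (T.l 816)))) (T.a (T.c (T.a (T.l 816) (T.l 880)) (T.a (T.l 816) (T.l 816))) (T.c (T.c (T.l 816) (T.l 816)) (T.l 816))))) (T.c (T.c (T.a (T.c (T.l 816) (T.l 816)) (T.c (T.l 816) (T.l 816))) (T.a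 (T.c (T.l 816) (T.l 816)) (T.l 880))) (T.c (T.a (T.l 816) (T.l 816)) (T.a (T.l 816) (T.l 816))))), by decide +kernel⟩

def A012E_001_6_973_1 :
    ∃ t, chk3 (onCell 0 67108864 0 1073741824 201326592 134217728 (corT true 1 c0F cA012E gF0q0 gF0q1 gF1q2 gF2q2 true true)) t 6 973 1 = true :=
  ⟨(T.a (T.b (T.c (T.a (T.c (T.a (T.c (T.l 816) (T.l 816)) (T.c (T.l 880) (T.l 816))) (T.a (T.l 880) (T.c (T.l 816) (T.l 816)))) (T.c (T.c (T.c (T.l 880) (T.l 816)) (T.l 880)) (T.c (T.l 816) (T.l 816)))) (T.a (T.c (T.a (T.l 816) (T.l 880)) (T.a (T.l 816) (T.l 816))) (T.c (T.c (T.l 816) (T.l 816)) (T.l 816)))) (T.c (T.a (T.c (T.a (T.c (T.l 816) (T.l 816)) (T.c (T.l 880) (T.l 816))) (T.a (T.l 880) (T.c (T.l 816) (T.l 816)))) (T.c (T.c (T.c (T.l 880) (T.l 816)) (T.l 880)) (T.c (T.l 816) (T.l 816)))) (T.a (T.c (T.a (T.l 816) (T.l 816)) (T.a (T.l 816) (T.l 816)))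 (T.c (T.c (T.l 816) (T.l 816)) (T.l 816))))) (T.b (T.c (T.c (T.a (T.c (T.l 816) (T.l 816)) (T.c (T.l 816) (T.l 816))) (T.a (T.c (T.l 816) (T.l 816)) (T.l 816))) (T.c (T.a (T.l 816) (T.l 816)) (T.a (T.l 816) (T.l 816)))) (T.c (T.c (T.a (T.c (T.l 816) (T.l 816)) (T.c (T.l 816) (T.l 816))) (T.a (T.c (T.l 816) (T.l 816)) (T.l 816))) (T.c (T.a (T.l 816) (T.l 816)) (T.a (T.l 816) (T.l 816)))))), by decide +kernel⟩

def A012E_001_7_486_1 :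
    ∃ t, chk3 (onCell 0 67108864 0 1073741824 201326592 134217728 (corT true 1 c0F cA012E gF0q0 gF0q1 gF1q2 gF2q2 true true)) t 7 486 1 = true :=
  ⟨(T.b (T.a (T.c (T.c (T.a (T.c (T.l 816) (T.l 816)) (T.c (T.l 816) (T.l 816))) (T.a (T.l 816) (T.l 816))) (T.c (T.c (T.l 816) (T.l 816)) (T.l 816))) (T.c (T.c (T.c (T.a (T.l 816) (T.l 880)) (T.a (T.l 816) (T.l 816))) (T.c (T.l 880) (T.l 880))) (T.c (T.l 880) (T.l 816)))) (T.a (T.b (T.c (T.c (T.a (T.c (T.l 816) (T.l 816)) (T.c (T.l 816) (T.l 816))) (T.a (T.l 816) (T.l 816))) (T.c (T.c (T.l 816) (T.l 816)) (T.l 816))) (T.c (T.c (T.a (T.c (T.l 816) (T.l 816)) (T.c (T.l 816) (T.l 816))) (T.a (T.l 816) (T.l 816))) (T.c (T.c (T.l 816) (T.l 816)) (T.l 816)))) (T.b (T.a (T.c (T.c (T.c (T.l 816) (T.l 816)) (T.l 816)) (T.c (T.l 816) (T.l 816))) (T.c (T.c (T.c (T.l 816) (T.l 816)) (T.l 816)) (T.c (T.l 816) (T.l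 816)))) (T.a (T.c (T.c (T.c (T.l 816) (T.l 816)) (T.l 816)) (T.c (T.l 816) (T.l 816))) (T.l 2))))), by decide +kernel⟩

def A012E_001_6_974_1 :
    ∃ t, chk3 (onCell 0 67108864 0 1073741824 201326592 134217728 (corT true 1 c0F cA012E gF0q0 gF0q1 gF1q2 gF2q2 true true)) t 6 974 1 = true :=
  ⟨(T.a (T.b (T.c (T.a (T.c (T.a (T.c (T.l 816) (T.l 816)) (T.c (T.l 880) (T.l 816))) (T.a (T.l 880) (T.c (T.l 816) (T.l 816)))) (T.c (T.c (T.c (T.l 880) (T.l 816)) (T.l 880)) (T.c (T.l 816) (T.l 816)))) (T.a (T.c (T.a (T.l 816) (T.l 816)) (T.a (T.l 816) (T.l 816))) (T.c (T.c (T.l 816) (T.l 816)) (T.l 816)))) (T.c (T.a (T.b (T.c (T.a (T.c (T.l 880) (T.l 816)) (T.c (T.l 880) (T.l 816))) (T.a (T.c (T.l 816) (T.l 816)) (T.c (T.l 816) (T.l 816)))) (T.c (T.a (T.c (T.l 880) (T.l 816)) (T.c (T.l 816) (T.l 816))) (T.a (T.c (T.l 816) (T.l 816)) (T.c (T.l 816) (T.l 816)))))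 (T.c (T.c (T.c (T.l 880) (T.l 816)) (T.l 880)) (T.c (T.l 816) (T.l 816)))) (T.a (T.c (T.a (T.l 816) (T.l 816)) (T.a (T.l 816) (T.l 816))) (T.c (T.c (T.l 816) (T.l 816)) (T.l 816))))) (T.b (T.c (T.a (T.c (T.c (T.l 816) (T.l 816)) (T.c (T.l 816) (T.l 816))) (T.c (T.c (T.l 816) (T.l 816)) (T.l 816))) (T.c (T.a (T.l 816) (T.l 816)) (T.a (T.l 816) (T.l 816)))) (T.c (T.a (T.c (T.c (T.l 816) (T.l 816)) (T.c (T.l 816) (T.l 816))) (T.c (T.c (T.l 816) (T.l 816)) (T.l 816))) (T.a (T.c (T.l 816) (T.l 816)) (T.c (T.l 816) (T.l 816)))))), by decide +kernel⟩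

def A012E_001_6_975_1 :
    ∃ t, chk3 (onCell 0 67108864 0 1073741824 201326592 134217728 (corT true 1 c0F cA012E gF0q0 gF0q1 gF1q2 gF2q2 true true)) t 6 975 1 = true :=
  ⟨(T.a (T.b (T.c (T.a (T.b (T.c (T.a (T.c (T.l 880) (T.l 816)) (T.c (T.l 816) (T.l 816))) (T.a (T.c (T.l 816) (T.l 816)) (T.c (T.l 816) (T.l 816)))) (T.c (T.a (T.c (T.l 880) (T.l 816)) (T.c (T.l 816) (T.l 816))) (T.a (T.c (T.l 816) (T.l 816)) (T.c (T.l 816) (T.l 816))))) (T.b (T.c (T.c (T.c (T.l 816) (T.l 816)) (T.l 880)) (T.c (T.l 816) (T.l 816))) (T.a (T.c (T.c (T.l 816) (T.l 816)) (T.l 880)) (T.l 2)))) (T.a (T.b (T.c (T.a (T.l 816) (T.l 816)) (T.a (T.l 816) (T.l 816))) (T.c (T.a (T.l 816) (T.l 816)) (T.a (T.l 816) (T.l 816)))) (T.c (T.c (T.l 816) (T.l 816)) (T.l 816)))) (T.a (T.a (T.a (T.b (T.b (T.b (T.c (T.c (T.c (T.l 816) (T.l 816)) (T.l 816)) (T.c (T.l 816) (T.l 816)))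 (T.l 2)) (T.l 2)) (T.l 2)) (T.l 2)) (T.l 2)) (T.l 2))) (T.l 2)), by decide +kernel⟩

def A012E_001_7_487_1 :
    ∃ t, chk3 (onCell 0 67108864 0 1073741824 201326592 134217728 (corT true 1 c0F cA012E gF0q0 gF0q1 gF1q2 gF2q2 true true)) t 7 487 1 = true :=
  ⟨(T.a (T.b (T.b (T.c (T.a (T.c (T.c (T.l 816) (T.l 816)) (T.l 816)) (T.c (T.c (T.l 816) (T.l 816)) (T.l 816))) (T.c (T.c (T.l 816) (T.l 816)) (T.l 816))) (T.l 2)) (T.l 2)) (T.l 2)), by decide +kernel⟩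

def A012E_001_1_61_1 :
    ∃ t, chk3 (onCell 0 67108864 0 1073741824 201326592 134217728 (corT true 1 c0F cA012E gF0q0 gF0q1 gF1q2 gF2q2 true true)) t 1 61 1 = true :=
  ⟨(T.a (T.b (T.b (T.b (T.a (T.c (T.c (T.l 816) (T.l 816)) (T.l 816)) (T.b (T.a (T.c (T.c (T.l 816) (T.l 816)) (T.c (T.l 816) (T.l 816))) (T.a (T.a (T.a (T.b (T.b (T.b (T.b (T.c (T.c (T.l 816) (T.l 816)) (T.c (T.l 816) (T.l 816))) (T.l 2)) (T.l 2)) (T.l 2)) (T.l 2)) (T.l 2)) (T.l 2)) (T.l 2))) (T.l 2))) (T.l 2)) (T.l 2)) (T.l 2)) (T.l 2)), by decide +kernel⟩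

def A012E_001_1_31_1 :
    ∃ t, chk3 (onCell 0 67108864 0 1073741824 201326592 134217728 (corT true 1 c0F cA012E gF0q0 gF0q1 gF1q2 gF2q2 true true)) t 1 31 1 = true :=
  ⟨(T.l 2), by decide +kernel⟩

theorem A012E_001_6_487_1 :
    ∃ t, chk3 (onCell 0 67108864 0 1073741824 201326592 134217728 (corT true 1 c0F cA012E gF0q0 gF0q1 gF1q2 gF2q2 true true)) t 6 487 1 = true :=
  ex3_b A012E_001_6_974_1 A012E_001_6_975_1
theorem A012E_001_3_487_1 :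
    ∃ t, chk3 (onCell 0 67108864 0 1073741824 201326592 134217728 (corT true 1 c0F cA012E gF0q0 gF0q1 gF1q2 gF2q2 true true)) t 3 487 1 = true :=
  ex3_a A012E_001_6_487_1 A012E_001_7_487_1
theorem A012E_001_6_486_1 :
    ∃ t, chk3 (onCell 0 67108864 0 1073741824 201326592 134217728 (corT true 1 c0F cA012E gF0q0 gF0q1 gF1q2 gF2q2 true true)) t 6 486 1 = true :=
  ex3_b A012E_001_6_972_1 A012E_001_6_973_1
theorem A012E_001_3_486_1 :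
    ∃ t, chk3 (onCell 0 67108864 0 1073741824 201326592 134217728 (corT true 1 c0F cA012E gF0q0 gF0q1 gF1q2 gF2q2 true true)) t 3 486 1 = true :=
  ex3_a A012E_001_6_486_1 A012E_001_7_486_1
theorem A012E_001_3_243_1 :
    ∃ t, chk3 (onCell 0 67108864 0 1073741824 201326592 134217728 (corT true 1 c0F cA012E gF0q0 gF0q1 gF1q2 gF2q2 true true)) t 3 243 1 = true :=
  ex3_b A012E_001_3_486_1 A012E_001_3_487_1
theorem A012E_001_3_485_1 :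
    ∃ t, chk3 (onCell 0 67108864 0 1073741824 201326592 134217728 (corT true 1 c0F cA012E gF0q0 gF0q1 gF1q2 gF2q2 true true)) t 3 485 1 = true :=
  ex3_a A012E_001_6_485_1 A012E_001_7_485_1
theorem A012E_001_3_242_1 :
    ∃ t, chk3 (onCell 0 67108864 0 1073741824 201326592 134217728 (corT true 1 c0F cA012E gF0q0 gF0q1 gF1q2 gF2q2 true true)) t 3 242 1 = true :=
  ex3_b A012E_001_3_484_1 A012E_001_3_485_1
theorem A012E_001_3_121_1 :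
    ∃ t, chk3 (onCell 0 67108864 0 1073741824 201326592 134217728 (corT true 1 c0F cA012E gF0q0 gF0q1 gF1q2 gF2q2 true true)) t 3 121 1 = true :=
  ex3_b A012E_001_3_242_1 A012E_001_3_243_1
theorem A012E_001_3_241_1 :
    ∃ t, chk3 (onCell 0 67108864 0 1073741824 201326592 134217728 (corT true 1 c0F cA012E gF0q0 gF0q1 gF1q2 gF2q2 true true)) t 3 241 1 = true :=
  ex3_b A012E_001_3_482_1 A012E_001_3_483_1
theorem A012E_001_3_120_1 :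
    ∃ t, chk3 (onCell 0 67108864 0 1073741824 201326592 134217728 (corT true 1 c0F cA012E gF0q0 gF0q1 gF1q2 gF2q2 true true)) t 3 120 1 = true :=
  ex3_b A012E_001_3_240_1 A012E_001_3_241_1
theorem A012E_001_3_60_1 :
    ∃ t, chk3 (onCell 0 67108864 0 1073741824 201326592 134217728 (corT true 1 c0F cA012E gF0q0 gF0q1 gF1q2 gF2q2 true true)) t 3 60 1 = true :=
  ex3_b A012E_001_3_120_1 A012E_001_3_121_1
theorem A012E_001_1_60_1 :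
    ∃ t, chk3 (onCell 0 67108864 0 1073741824 201326592 134217728 (corT true 1 c0F cA012E gF0q0 gF0q1 gF1q2 gF2q2 true true)) t 1 60 1 = true :=
  ex3_a A012E_001_2_60_1 A012E_001_3_60_1
theorem A012E_001_1_30_1 :
    ∃ t, chk3 (onCell 0 67108864 0 1073741824 201326592 134217728 (corT true 1 c0F cA012E gF0q0 gF0q1 gF1q2 gF2q2 true true)) t 1 30 1 = true :=
  ex3_b A012E_001_1_60_1 A012E_001_1_61_1
theorem A012E_001_1_15_1 :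
    ∃ t, chk3 (onCell 0 67108864 0 1073741824 201326592 134217728 (corT true 1 c0F cA012E gF0q0 gF0q1 gF1q2 gF2q2 true true)) t 1 15 1 = true :=
  ex3_b A012E_001_1_30_1 A012E_001_1_31_1
theorem A012E_001_6_29_1 :
    ∃ t, chk3 (onCell 0 67108864 0 1073741824 201326592 134217728 (corT true 1 c0F cA012E gF0q0 gF0q1 gF1q2 gF2q2 true true)) t 6 29 1 = true :=
  ex3_a A012E_001_12_29_1 A012E_001_13_29_1
theorem A012E_001_3_29_1 :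
    ∃ t, chk3 (onCell 0 67108864 0 1073741824 201326592 134217728 (corT true 1 c0F cA012E gF0q0 gF0q1 gF1q2 gF2q2 true true)) t 3 29 1 = true :=
  ex3_a A012E_001_6_29_1 A012E_001_7_29_1
theorem A012E_001_3_28_1 :
    ∃ t, chk3 (onCell 0 67108864 0 1073741824 201326592 134217728 (corT true 1 c0F cA012E gF0q0 gF0q1 gF1q2 gF2q2 true true)) t 3 28 1 = true :=
  ex3_a A012E_001_6_28_1 A012E_001_7_28_1
theorem A012E_001_3_14_1 :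
    ∃ t, chk3 (onCell 0 67108864 0 1073741824 201326592 134217728 (corT true 1 c0F cA012E gF0q0 gF0q1 gF1q2 gF2q2 true true)) t 3 14 1 = true :=
  ex3_b A012E_001_3_28_1 A012E_001_3_29_1
theorem A012E_001_1_14_1 :
    ∃ t, chk3 (onCell 0 67108864 0 1073741824 201326592 134217728 (corT true 1 c0F cA012E gF0q0 gF0q1 gF1q2 gF2q2 true true)) t 1 14 1 = true :=
  ex3_a A012E_001_2_14_1 A012E_001_3_14_1
theorem A012E_001_1_7_1 :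
    ∃ t, chk3 (onCell 0 67108864 0 1073741824 201326592 134217728 (corT true 1 c0F cA012E gF0q0 gF0q1 gF1q2 gF2q2 true true)) t 1 7 1 = true :=
  ex3_b A012E_001_1_14_1 A012E_001_1_15_1
theorem A012E_001_3_13_1 :
    ∃ t, chk3 (onCell 0 67108864 0 1073741824 201326592 134217728 (corT true 1 c0F cA012E gF0q0 gF0q1 gF1q2 gF2q2 true true)) t 3 13 1 = true :=
  ex3_a A012E_001_6_13_1 A012E_001_7_13_1
theorem A012E_001_1_13_1 :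
    ∃ t, chk3 (onCell 0 67108864 0 1073741824 201326592 134217728 (corT true 1 c0F cA012E gF0q0 gF0q1 gF1q2 gF2q2 true true)) t 1 13 1 = true :=
  ex3_a A012E_001_2_13_1 A012E_001_3_13_1
theorem A012E_001_1_6_1 :
    ∃ t, chk3 (onCell 0 67108864 0 1073741824 201326592 134217728 (corT true 1 c0F cA012E gF0q0 gF0q1 gF1q2 gF2q2 true true)) t 1 6 1 = true :=
  ex3_b A012E_001_1_12_1 A012E_001_1_13_1
theorem A012E_001_1_3_1 :
    ∃ t, chk3 (onCell 0 67108864 0 1073741824 201326592 134217728 (corT true 1 c0F cA012E gF0q0 gF0q1 gF1q2 gF2q2 true true)) t 1 3 1 = true :=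
  ex3_b A012E_001_1_6_1 A012E_001_1_7_1
theorem A012E_001 :
    ∃ t, chk3 (onCell 0 67108864 0 1073741824 201326592 134217728 (corT true 1 c0F cA012E gF0q0 gF0q1 gF1q2 gF2q2 true true)) t 1 1 1 = true :=
  ex3_b A012E_001_1_2_1 A012E_001_1_3_1

def A012E_002_1_2_1 :
    ∃ t, chk3 (onCell 0 67108864 0 1073741824 201326592 134217728 (corT true 1 c0F cA012E gF0q0 gF0q1 gF2q2 gF3q2 true false)) t 1 2 1 = true :=
  ⟨(T.l 1), by decide +kernel⟩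

def A012E_002_1_6_1 :
    ∃ t, chk3 (onCell 0 67108864 0 1073741824 201326592 134217728 (corT true 1 c0F cA012E gF0q0 gF0q1 gF2q2 gF3q2 true false)) t 1 6 1 = true :=
  ⟨(T.l 1), by decide +kernel⟩

def A012E_002_1_14_1 :
    ∃ t, chk3 (onCell 0 67108864 0 1073741824 201326592 134217728 (corT true 1 c0F cA012E gF0q0 gF0q1 gF2q2 gF3q2 true false)) t 1 14 1 = true :=
  ⟨(T.l 1), by decide +kernel⟩

def A012E_002_1_60_1 :
    ∃ t, chk3 (onCell 0 67108864 0 1073741824 201326592 134217728 (corT true 1 c0F cA012E gF0q0 gF0q1 gF2q2 gF3q2 true false)) t 1 60 1 = true :=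
  ⟨(T.b (T.l 1) (T.b (T.l 1) (T.a (T.a (T.l 1) (T.a (T.l 1) (T.b (T.l 1) (T.b (T.l 1) (T.b (T.l 1) (T.c (T.c (T.c (T.l 816) (T.l 816)) (T.l 816)) (T.c (T.l 816) (T.l 816)))))))) (T.b (T.a (T.l 1) (T.b (T.l 1) (T.a (T.a (T.l 1) (T.c (T.c (T.l 880) (T.l 816)) (T.l 880))) (T.c (T.c (T.c (T.l 816) (T.l 816)) (T.l 816)) (T.c (T.l 816) (T.l 816)))))) (T.a (T.b (T.a (T.a (T.l 1) (T.a (T.l 1) (T.a (T.l 1) (T.a (T.l 1) (T.b (T.l 1) (T.a (T.l 1) (T.b (T.l 1) (T.b (T.l 1) (T.b (T.l 1) (T.b (T.l 1) (T.c (T.c (T.l 880) (T.l 816)) (T.c (T.l 816) (T.l 816))))))))))))) (T.b (T.a (T.l 1) (T.a (T.l 1) (T.b (T.l 1) (T.b (T.l 1) (T.c (T.c (T.l 880) (T.l 816)) (T.c (T.l 816) (T.l 816))))))) (T.c (T.c (T.c (T.l 816) (T.l 816)) (T.l 880)) (T.c (T.l 816) (T.l 816))))) (T.a (T.b (T.c (T.a (T.b (T.l 1) (T.c (T.c (T.l 816) (T.l 816)) (T.c (T.l 816) (T.l 816)))) (T.c (T.c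 (T.l 816) (T.l 816)) (T.l 880))) (T.c (T.c (T.l 816) (T.l 816)) (T.c (T.l 816) (T.l 816)))) (T.c (T.c (T.c (T.a (T.l 816) (T.l 816)) (T.a (T.l 816) (T.l 816))) (T.c (T.a (T.l 816) (T.l 816)) (T.l 880))) (T.c (T.c (T.l 816) (T.l 816)) (T.c (T.l 816) (T.l 816))))) (T.c (T.c (T.c (T.l 816) (T.l 816)) (T.l 880)) (T.c (T.l 816) (T.l 816))))) (T.c (T.c (T.c (T.a (T.l 816) (T.l 816)) (T.a (T.l 816) (T.l 816))) (T.a (T.l 816) (T.l 816))) (T.c (T.l 880) (T.l 816)))))))), by decide +kernel⟩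

def A012E_002_1_244_1 :
    ∃ t, chk3 (onCell 0 67108864 0 1073741824 201326592 134217728 (corT true 1 c0F cA012E gF0q0 gF0q1 gF2q2 gF3q2 true false)) t 1 244 1 = true :=
  ⟨(T.a (T.c (T.c (T.c (T.l 816) (T.l 816)) (T.a (T.l 816) (T.l 880))) (T.c (T.l 816) (T.l 816))) (T.b (T.a (T.b (T.a (T.c (T.c (T.c (T.a (T.l 816) (T.l 816)) (T.a (T.l 816) (T.l 816))) (T.c (T.a (T.l 816) (T.l 816)) (T.l 880))) (T.c (T.c (T.l 816) (T.l 816)) (T.c (T.l 816) (T.l 816)))) (T.c (T.c (T.c (T.l 816) (T.l 816)) (T.l 880)) (T.c (T.l 816) (T.l 816)))) (T.a (T.c (T.c (T.c (T.a (T.l 816) (T.l 816)) (T.a (T.l 816) (T.l 816))) (T.c (T.a (T.l 816) (T.l 816)) (T.l 880))) (T.c (T.c (T.l 816) (T.l 816)) (T.c (T.l 816) (T.l 816)))) (T.c (T.c (T.c (T.l 816) (T.l 816)) (T.l 880)) (T.c (T.l 816) (T.l 816))))) (T.c (T.c (T.c (T.a (T.l 816) (T.l 880)) (T.a (T.l 816) (T.l 816)))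 (T.a (T.l 816) (T.l 816))) (T.c (T.l 880) (T.l 816)))) (T.a (T.c (T.c (T.a (T.c (T.a (T.l 880) (T.l 816)) (T.a (T.l 816) (T.l 816))) (T.c (T.l 816) (T.l 816))) (T.a (T.c (T.a (T.l 816) (T.l 816)) (T.l 880)) (T.l 880))) (T.a (T.c (T.c (T.l 880) (T.l 816)) (T.c (T.l 816) (T.l 816))) (T.c (T.l 816) (T.l 816)))) (T.c (T.c (T.c (T.a (T.l 816) (T.l 880)) (T.a (T.l 816) (T.l 816))) (T.a (T.l 816) (T.l 880))) (T.c (T.l 880) (T.l 816)))))), by decide +kernel⟩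

def A012E_002_1_245_1 :
    ∃ t, chk3 (onCell 0 67108864 0 1073741824 201326592 134217728 (corT true 1 c0F cA012E gF0q0 gF0q1 gF2q2 gF3q2 true false)) t 1 245 1 = true :=
  ⟨(T.a (T.c (T.c (T.c (T.l 816) (T.l 816)) (T.a (T.l 816) (T.l 880))) (T.c (T.l 816) (T.l 816))) (T.b (T.a (T.c (T.c (T.a (T.c (T.a (T.l 880) (T.l 816)) (T.a (T.l 816) (T.l 816))) (T.c (T.l 816) (T.l 816))) (T.a (T.c (T.a (T.l 816) (T.l 816)) (T.l 880)) (T.l 880))) (T.a (T.c (T.c (T.l 880) (T.l 816)) (T.c (T.l 816) (T.l 816))) (T.c (T.l 816) (T.l 816)))) (T.c (T.c (T.c (T.a (T.l 816) (T.l 880)) (T.a (T.l 816) (T.l 816))) (T.a (T.l 816) (T.l 880))) (T.c (T.l 880) (T.l 816)))) (T.a (T.c (T.c (T.a (T.c (T.a (T.l 880) (T.l 816)) (T.a (T.l 816) (T.l 816))) (T.c (T.l 816) (T.l 816))) (T.a (T.c (T.a (T.l 816) (T.l 816)) (T.l 880)) (T.l 880))) (T.a (T.c (T.c (T.l 880) (T.l 816)) (T.c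 (T.l 816) (T.l 816))) (T.c (T.l 816) (T.l 816)))) (T.c (T.c (T.c (T.a (T.l 816) (T.l 880)) (T.a (T.l 816) (T.l 816))) (T.a (T.l 816) (T.l 880))) (T.c (T.l 880) (T.l 816)))))), by decide +kernel⟩

def A012E_002_1_123_1 :
    ∃ t, chk3 (onCell 0 67108864 0 1073741824 201326592 134217728 (corT true 1 c0F cA012E gF0q0 gF0q1 gF2q2 gF3q2 true false)) t 1 123 1 = true :=
  ⟨(T.a (T.c (T.c (T.c (T.l 880) (T.l 816)) (T.c (T.l 816) (T.l 816))) (T.c (T.l 880) (T.l 816))) (T.c (T.a (T.c (T.a (T.c (T.a (T.l 880) (T.l 816)) (T.a (T.l 880) (T.l 816))) (T.c (T.l 816) (T.l 816))) (T.a (T.c (T.a (T.l 816) (T.l 816)) (T.a (T.l 816) (T.l 816))) (T.c (T.l 816) (T.l 816)))) (T.c (T.a (T.c (T.l 880) (T.l 816)) (T.c (T.l 880) (T.l 880))) (T.a (T.l 880) (T.c (T.l 816) (T.l 816))))) (T.a (T.a (T.c (T.c (T.a (T.l 816) (T.l 816)) (T.l 880)) (T.c (T.l 816) (T.l 816))) (T.c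 (T.l 816) (T.l 816))) (T.c (T.a (T.l 816) (T.l 816)) (T.l 880))))), by decide +kernel⟩

def A012E_002_1_62_1 :
    ∃ t, chk3 (onCell 0 67108864 0 1073741824 201326592 134217728 (corT true 1 c0F cA012E gF0q0 gF0q1 gF2q2 gF3q2 true false)) t 1 62 1 = true :=
  ⟨(T.b (T.a (T.c (T.c (T.c (T.a (T.l 816) (T.l 816)) (T.l 880)) (T.c (T.l 816) (T.l 816))) (T.c (T.a (T.l 816) (T.l 816)) (T.l 816))) (T.c (T.a (T.c (T.a (T.c (T.a (T.b (T.l 880) (T.l 880)) (T.l 816)) (T.a (T.l 880) (T.l 816))) (T.c (T.l 816) (T.l 816))) (T.a (T.c (T.a (T.l 816) (T.l 816)) (T.a (T.l 816) (T.l 816))) (T.c (T.l 816) (T.l 816)))) (T.c (T.a (T.c (T.l 880) (T.l 816)) (T.c (T.a (T.l 816) (T.l 880)) (T.l 880))) (T.a (T.c (T.l 816) (T.l 816)) (T.c (T.l 816) (T.l 816))))) (T.a (T.a (T.c (T.c (T.a (T.l 816) (T.l 816)) (T.l 880)) (T.c (T.l 816) (T.l 816))) (T.c (T.l 816) (T.l 816)))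 (T.c (T.a (T.l 816) (T.l 816)) (T.a (T.l 816) (T.l 816)))))) (T.a (T.a (T.c (T.c (T.l 816) (T.l 816)) (T.c (T.l 816) (T.l 816))) (T.c (T.a (T.c (T.l 816) (T.l 816)) (T.c (T.a (T.c (T.l 816) (T.l 816)) (T.c (T.b (T.l 880) (T.l 880)) (T.l 880))) (T.a (T.l 816) (T.c (T.l 816) (T.l 816))))) (T.a (T.c (T.l 816) (T.l 816)) (T.c (T.a (T.l 816) (T.c (T.l 816) (T.l 816))) (T.c (T.l 880) (T.l 816)))))) (T.c (T.a (T.c (T.a (T.c (T.a (T.b (T.l 880) (T.l 880)) (T.l 816)) (T.a (T.l 880) (T.l 816))) (T.c (T.l 816) (T.l 816))) (T.a (T.c (T.a (T.l 816) (T.l 816)) (T.a (T.l 816) (T.l 816))) (T.c (T.l 816) (T.l 816)))) (T.c (T.a (T.c (T.l 880) (T.l 816)) (T.c (T.c (T.a (T.l 816) (T.l 880)) (T.l 880)) (T.a (T.l 816) (T.l 880)))) (T.a (T.c (T.l 816) (T.l 816)) (T.c (T.l 880) (T.l 816))))) (T.a (T.a (T.c (T.c (T.a (T.l 816) (T.l 816)) (T.l 816)) (T.c (T.l 816) (T.l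 816))) (T.c (T.l 816) (T.l 816))) (T.c (T.a (T.l 816) (T.l 880)) (T.a (T.l 816) (T.l 816))))))), by decide +kernel⟩

def A012E_002_1_63_1 :
    ∃ t, chk3 (onCell 0 67108864 0 1073741824 201326592 134217728 (corT true 1 c0F cA012E gF0q0 gF0q1 gF2q2 gF3q2 true false)) t 1 63 1 = true :=
  ⟨(T.a (T.a (T.c (T.c (T.l 816) (T.l 816)) (T.c (T.l 816) (T.l 816))) (T.c (T.a (T.c (T.b (T.l 816) (T.l 880)) (T.l 816)) (T.c (T.a (T.c (T.l 816) (T.l 816)) (T.c (T.c (T.b (T.l 816) (T.l 816)) (T.l 880)) (T.c (T.l 816) (T.l 816)))) (T.a (T.l 880) (T.c (T.b (T.l 816) (T.l 816)) (T.l 816))))) (T.a (T.c (T.l 816) (T.l 816)) (T.c (T.a (T.l 816) (T.c (T.l 816) (T.l 816))) (T.a (T.l 816) (T.l 880)))))) (T.c (T.a (T.c (T.a (T.c (T.a (T.b (T.l 880) (T.l 880)) (T.l 816)) (T.a (T.b (T.l 816) (T.l 816)) (T.l 816))) (T.c (T.b (T.l 880) (T.l 880)) (T.l 880))) (T.a (T.c (T.a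 (T.l 816) (T.l 816)) (T.a (T.l 816) (T.l 816))) (T.c (T.l 816) (T.l 816)))) (T.c (T.a (T.c (T.a (T.l 816) (T.l 880)) (T.b (T.l 816) (T.l 880))) (T.c (T.a (T.c (T.l 880) (T.l 816)) (T.c (T.b (T.l 880) (T.l 880)) (T.l 880))) (T.a (T.l 880) (T.b (T.l 880) (T.l 880))))) (T.a (T.c (T.l 880) (T.l 816)) (T.c (T.a (T.l 816) (T.l 880)) (T.b (T.l 816) (T.l 880)))))) (T.a (T.a (T.c (T.a (T.c (T.l 816) (T.l 816)) (T.l 816)) (T.c (T.l 880) (T.l 816))) (T.c (T.b (T.l 816) (T.l 816)) (T.l 816))) (T.c (T.a (T.b (T.l 816) (T.l 816)) (T.c (T.l 880) (T.l 816))) (T.a (T.l 816) (T.l 880)))))), by decide +kernel⟩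

theorem A012E_002_1_31_1 :
    ∃ t, chk3 (onCell 0 67108864 0 1073741824 201326592 134217728 (corT true 1 c0F cA012E gF0q0 gF0q1 gF2q2 gF3q2 true false)) t 1 31 1 = true :=
  ex3_b A012E_002_1_62_1 A012E_002_1_63_1
theorem A012E_002_1_122_1 :
    ∃ t, chk3 (onCell 0 67108864 0 1073741824 201326592 134217728 (corT true 1 c0F cA012E gF0q0 gF0q1 gF2q2 gF3q2 true false)) t 1 122 1 = true :=
  ex3_b A012E_002_1_244_1 A012E_002_1_245_1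
theorem A012E_002_1_61_1 :
    ∃ t, chk3 (onCell 0 67108864 0 1073741824 201326592 134217728 (corT true 1 c0F cA012E gF0q0 gF0q1 gF2q2 gF3q2 true false)) t 1 61 1 = true :=
  ex3_b A012E_002_1_122_1 A012E_002_1_123_1
theorem A012E_002_1_30_1 :
    ∃ t, chk3 (onCell 0 67108864 0 1073741824 201326592 134217728 (corT true 1 c0F cA012E gF0q0 gF0q1 gF2q2 gF3q2 true false)) t 1 30 1 = true :=
  ex3_b A012E_002_1_60_1 A012E_002_1_61_1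
theorem A012E_002_1_15_1 :
    ∃ t, chk3 (onCell 0 67108864 0 1073741824 201326592 134217728 (corT true 1 c0F cA012E gF0q0 gF0q1 gF2q2 gF3q2 true false)) t 1 15 1 = true :=
  ex3_b A012E_002_1_30_1 A012E_002_1_31_1
theorem A012E_002_1_7_1 :
    ∃ t, chk3 (onCell 0 67108864 0 1073741824 201326592 134217728 (corT true 1 c0F cA012E gF0q0 gF0q1 gF2q2 gF3q2 true false)) t 1 7 1 = true :=
  ex3_b A012E_002_1_14_1 A012E_002_1_15_1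
theorem A012E_002_1_3_1 :
    ∃ t, chk3 (onCell 0 67108864 0 1073741824 201326592 134217728 (corT true 1 c0F cA012E gF0q0 gF0q1 gF2q2 gF3q2 true false)) t 1 3 1 = true :=
  ex3_b A012E_002_1_6_1 A012E_002_1_7_1
theorem A012E_002 :
    ∃ t, chk3 (onCell 0 67108864 0 1073741824 201326592 134217728 (corT true 1 c0F cA012E gF0q0 gF0q1 gF2q2 gF3q2 true false)) t 1 1 1 = true :=
  ex3_b A012E_002_1_2_1 A012E_002_1_3_1

def A012L_004 :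
    ∃ t, chk3 (onCell 0 67108864 0 1073741824 201326592 134217728 (corT true 1 c0F cA012L gF0q0 gF0q1 gF4q2 gF5q2 false true)) t 1 1 1 = true :=
  ⟨(T.l 2), by decide +kernel⟩

def A012R_030 :
    ∃ t, chk3 (onCell 0 67108864 0 1073741824 201326592 134217728 (corT true 1 c0F cA012R gF0q0 gF3q1 gF0q2 gF1q2 true true)) t 1 1 1 = true :=
  ⟨(T.b (T.l 2) (T.l 2)), by decide +kernel⟩

def A012R_031 :
    ∃ t, chk3 (onCell 0 67108864 0 1073741824 201326592 134217728 (corT true 1 c0F cA012R gF0q0 gF3q1 gF1q2 gF2q2 true true)) t 1 1 1 = true :=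
  ⟨(T.l 2), by decide +kernel⟩

def A012R_032 :
    ∃ t, chk3 (onCell 0 67108864 0 1073741824 201326592 134217728 (corT true 1 c0F cA012R gF0q0 gF3q1 gF2q2 gF3q2 true false)) t 1 1 1 = true :=
  ⟨(T.b (T.a (T.c (T.b (T.c (T.b (T.l 204) (T.l 0)) (T.l 0)) (T.l 0)) (T.b (T.l 0) (T.l 0))) (T.a (T.c (T.b (T.c (T.l 0) (T.l 0)) (T.l 0)) (T.b (T.l 0) (T.l 816))) (T.b (T.c (T.b (T.c (T.b (T.a (T.l 204) (T.l 204)) (T.l 460)) (T.a (T.b (T.l 204) (T.l 204)) (T.l 204))) (T.c (T.b (T.l 0) (T.l 0)) (T.l 0))) (T.b (T.b (T.c (T.l 460) (T.l 204)) (T.l 460)) (T.b (T.l 0) (T.l 0)))) (T.b (T.c (T.l 0) (T.l 816)) (T.c (T.b (T.l 816) (T.l 880)) (T.l 816)))))) (T.b (T.a (T.c (T.c (T.l 816) (T.l 816)) (T.l 816)) (T.a (T.c (T.b (T.l 816) (T.c (T.b (T.l 816) (T.l 816)) (T.l 880))) (T.b (T.l 816) (T.b (T.l 816) (T.l 880)))) (T.c (T.b (T.c (T.l 816) (T.l 816)) (T.c (T.l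 880) (T.l 816))) (T.b (T.l 880) (T.b (T.l 816) (T.l 816)))))) (T.a (T.b (T.c (T.c (T.l 816) (T.l 816)) (T.l 816)) (T.b (T.c (T.c (T.l 816) (T.l 816)) (T.l 816)) (T.a (T.c (T.c (T.l 816) (T.l 816)) (T.l 816)) (T.c (T.a (T.c (T.l 816) (T.l 816)) (T.c (T.l 816) (T.l 816))) (T.a (T.l 816) (T.b (T.l 816) (T.l 816))))))) (T.a (T.c (T.b (T.c (T.a (T.l 816) (T.l 816)) (T.b (T.l 816) (T.l 816))) (T.c (T.a (T.b (T.l 816) (T.l 816)) (T.b (T.l 816) (T.l 816))) (T.a (T.l 816) (T.l 816)))) (T.b (T.a (T.b (T.l 816) (T.l 816)) (T.b (T.l 816) (T.l 816))) (T.a (T.c (T.l 816) (T.l 816)) (T.c (T.l 816) (T.l 816))))) (T.c (T.b (T.c (T.b (T.l 816) (T.l 880)) (T.b (T.l 816) (T.l 816))) (T.c (T.a (T.b (T.l 816) (T.l 816)) (T.b (T.l 816) (T.l 880))) (T.a (T.l 816) (T.l 880)))) (T.b (T.c (T.l 816) (T.l 816)) (T.c (T.b (T.l 816) (T.l 816)) (T.b (T.l 816) (T.l 816))))))))),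 by decide +kernel⟩

def A012R_040 :
    ∃ t, chk3 (onCell 0 67108864 0 1073741824 201326592 134217728 (corT true 1 c0F cA012R gF0q0 gF4q1 gF0q2 gF1q2 true true)) t 1 1 1 = true :=
  ⟨(T.l 2), by decide +kernel⟩

def A012R_041 :
    ∃ t, chk3 (onCell 0 67108864 0 1073741824 201326592 134217728 (corT true 1 c0F cA012R gF0q0 gF4q1 gF1q2 gF2q2 true true)) t 1 1 1 = true :=
  ⟨(T.l 2), by decide +kernel⟩

def A012R_042 :
    ∃ t, chk3 (onCell 0 67108864 0 1073741824 201326592 134217728 (corT true 1 c0F cA012R gF0q0 gF4q1 gF2q2 gF3q2 true false)) t 1 1 1 = true :=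
  ⟨(T.b (T.a (T.c (T.c (T.l 16) (T.l 0)) (T.b (T.l 0) (T.l 816))) (T.a (T.c (T.c (T.l 0) (T.l 0)) (T.b (T.l 0) (T.l 816))) (T.b (T.c (T.b (T.c (T.l 0) (T.l 0)) (T.b (T.l 816) (T.l 816))) (T.b (T.b (T.l 0) (T.l 0)) (T.l 0))) (T.b (T.c (T.l 816) (T.l 816)) (T.c (T.b (T.l 816) (T.l 880)) (T.l 816)))))) (T.b (T.a (T.c (T.c (T.l 816) (T.l 816)) (T.l 816)) (T.a (T.c (T.b (T.l 880) (T.c (T.b (T.l 816) (T.l 816)) (T.b (T.l 816) (T.l 816)))) (T.b (T.l 816) (T.b (T.l 816) (T.l 880)))) (T.c (T.b (T.c (T.l 880) (T.l 816)) (T.c (T.b (T.l 816) (T.l 816)) (T.l 816))) (T.b (T.l 880) (T.b (T.l 816) (T.l 816)))))) (T.a (T.b (T.c (T.c (T.l 816) (T.l 816)) (T.l 816)) (T.b (T.c (T.c (T.l 816) (T.l 816)) (T.l 816)) (T.a (T.c (T.c (T.l 816) (T.l 816)) (T.l 816)) (T.c (T.a (T.c (T.l 816) (T.l 816)) (T.c (T.l 816) (T.l 816))) (T.a (T.l 816) (T.b (T.l 816) (T.l 816)))))))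 (T.a (T.c (T.b (T.c (T.a (T.l 816) (T.l 816)) (T.b (T.l 816) (T.l 816))) (T.c (T.a (T.b (T.l 816) (T.l 816)) (T.b (T.l 816) (T.l 816))) (T.a (T.l 816) (T.l 816)))) (T.b (T.a (T.b (T.l 816) (T.l 816)) (T.b (T.l 816) (T.l 816))) (T.a (T.c (T.l 816) (T.l 816)) (T.c (T.l 816) (T.l 816))))) (T.c (T.b (T.c (T.b (T.l 816) (T.l 880)) (T.b (T.l 816) (T.l 816))) (T.c (T.a (T.b (T.l 816) (T.l 816)) (T.b (T.l 816) (T.l 880))) (T.a (T.l 816) (T.l 880)))) (T.b (T.c (T.l 816) (T.l 816)) (T.c (T.b (T.l 816) (T.l 816)) (T.b (T.l 816) (T.l 816))))))))), by decide +kernel⟩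

def A012R_050 :
    ∃ t, chk3 (onCell 0 67108864 0 1073741824 201326592 134217728 (corT true 1 c0F cA012R gF0q0 gF5q1 gF0q2 gF1q2 true true)) t 1 1 1 = true :=
  ⟨(T.l 2), by decide +kernel⟩

def A012R_051 :
    ∃ t, chk3 (onCell 0 67108864 0 1073741824 201326592 134217728 (corT true 1 c0F cA012R gF0q0 gF5q1 gF1q2 gF2q2 true true)) t 1 1 1 = true :=
  ⟨(T.l 2), by decide +kernel⟩

def A012R_052 :
    ∃ t, chk3 (onCell 0 67108864 0 1073741824 201326592 134217728 (corT true 1 c0F cA012R gF0q0 gF5q1 gF2q2 gF3q2 true false)) t 1 1 1 = true :=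
  ⟨(T.b (T.b (T.c (T.b (T.l 0) (T.l 816)) (T.l 0)) (T.b (T.c (T.l 816) (T.l 816)) (T.a (T.c (T.l 816) (T.l 816)) (T.c (T.a (T.l 816) (T.b (T.l 816) (T.l 880))) (T.a (T.l 816) (T.l 816)))))) (T.b (T.a (T.c (T.c (T.l 816) (T.l 816)) (T.l 816)) (T.a (T.c (T.b (T.l 880) (T.c (T.b (T.l 816) (T.l 816)) (T.b (T.l 816) (T.l 816)))) (T.b (T.l 816) (T.b (T.l 816) (T.l 880)))) (T.c (T.b (T.c (T.l 880) (T.l 816)) (T.c (T.b (T.l 816) (T.l 816)) (T.l 816))) (T.b (T.l 880) (T.b (T.l 816) (T.l 816)))))) (T.b (T.a (T.c (T.c (T.l 816) (T.l 816)) (T.l 816)) (T.c (T.a (T.c (T.a (T.l 816) (T.l 816)) (T.b (T.l 816) (T.l 816))) (T.c (T.b (T.l 816) (T.l 880)) (T.b (T.l 816) (T.l 816)))) (T.a (T.a (T.b (T.l 816) (T.l 816)) (T.b (T.l 816) (T.l 816))) (T.c (T.l 816) (T.l 816))))) (T.a (T.b (T.c (T.c (T.l 816) (T.l 816)) (T.l 816)) (T.a (T.c (T.c (T.l 816) (T.l 816)) (T.l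 816)) (T.c (T.a (T.c (T.l 816) (T.l 816)) (T.c (T.l 816) (T.l 816))) (T.a (T.l 816) (T.b (T.l 816) (T.l 816)))))) (T.c (T.a (T.c (T.a (T.b (T.l 816) (T.l 816)) (T.b (T.l 816) (T.l 816))) (T.a (T.l 816) (T.l 816))) (T.c (T.a (T.b (T.l 816) (T.l 816)) (T.b (T.l 816) (T.l 880))) (T.a (T.l 816) (T.l 880)))) (T.a (T.a (T.c (T.l 816) (T.l 816)) (T.c (T.l 816) (T.l 816))) (T.c (T.b (T.l 816) (T.l 816)) (T.b (T.l 816) (T.l 816))))))))), by decide +kernel⟩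

def A012R_130 :
    ∃ t, chk3 (onCell 0 67108864 0 1073741824 201326592 134217728 (corT true 1 c0F cA012R gF1q0 gF3q1 gF0q2 gF1q2 true true)) t 1 1 1 = true :=
  ⟨(T.b (T.b (T.l 1) (T.a (T.l 0) (T.b (T.l 1) (T.l 0)))) (T.b (T.a (T.l 816) (T.a (T.b (T.l 816) (T.l 816)) (T.b (T.l 64) (T.b (T.l 816) (T.l 816))))) (T.b (T.a (T.l 816) (T.b (T.a (T.l 816) (T.l 816)) (T.a (T.c (T.l 0) (T.l 0)) (T.l 2)))) (T.a (T.a (T.l 816) (T.b (T.l 816) (T.l 2))) (T.b (T.l 2) (T.l 2)))))), by decide +kernel⟩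

def A012R_131 :
    ∃ t, chk3 (onCell 0 67108864 0 1073741824 201326592 134217728 (corT true 1 c0F cA012R gF1q0 gF3q1 gF1q2 gF2q2 true true)) t 1 1 1 = true :=
  ⟨(T.b (T.l 1) (T.b (T.a (T.l 1) (T.l 1)) (T.a (T.b (T.l 816) (T.a (T.l 816) (T.b (T.l 816) (T.l 816)))) (T.a (T.b (T.l 816) (T.l 816)) (T.b (T.l 816) (T.l 816)))))), by decide +kernel⟩

def A012R_132 :
    ∃ t, chk3 (onCell 0 67108864 0 1073741824 201326592 134217728 (corT true 1 c0F cA012R gF1q0 gF3q1 gF2q2 gF3q2 true false)) t 1 1 1 = true :=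
  ⟨(T.l 1), by decide +kernel⟩

def A012R_140 :
    ∃ t, chk3 (onCell 0 67108864 0 1073741824 201326592 134217728 (corT true 1 c0F cA012R gF1q0 gF4q1 gF0q2 gF1q2 true true)) t 1 1 1 = true :=
  ⟨(T.b (T.b (T.l 1) (T.b (T.l 816) (T.a (T.l 816) (T.l 0)))) (T.b (T.a (T.l 816) (T.a (T.b (T.l 816) (T.l 816)) (T.b (T.b (T.l 816) (T.l 816)) (T.b (T.l 816) (T.l 816))))) (T.a (T.b (T.l 816) (T.a (T.l 816) (T.b (T.l 816) (T.l 2)))) (T.b (T.a (T.c (T.l 64) (T.l 64)) (T.l 2)) (T.l 2))))), by decide +kernel⟩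

def A012R_141 :
    ∃ t, chk3 (onCell 0 67108864 0 1073741824 201326592 134217728 (corT true 1 c0F cA012R gF1q0 gF4q1 gF1q2 gF2q2 true true)) t 1 1 1 = true :=
  ⟨(T.b (T.l 1) (T.b (T.a (T.l 1) (T.a (T.b (T.l 1) (T.l 816)) (T.l 64))) (T.a (T.b (T.l 816) (T.a (T.l 816) (T.b (T.l 816) (T.l 816)))) (T.a (T.b (T.l 816) (T.l 816)) (T.b (T.l 816) (T.l 816)))))), by decide +kernel⟩

def A012R_142 :
    ∃ t, chk3 (onCell 0 67108864 0 1073741824 201326592 134217728 (corT true 1 c0F cA012R gF1q0 gF4q1 gF2q2 gF3q2 true false)) t 1 1 1 = true :=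
  ⟨(T.l 1), by decide +kernel⟩

def A012R_150 :
    ∃ t, chk3 (onCell 0 67108864 0 1073741824 201326592 134217728 (corT true 1 c0F cA012R gF1q0 gF5q1 gF0q2 gF1q2 true true)) t 1 1 1 = true :=
  ⟨(T.b (T.b (T.l 0) (T.a (T.l 0) (T.b (T.l 816) (T.b (T.l 816) (T.l 0))))) (T.b (T.a (T.l 816) (T.b (T.a (T.l 816) (T.b (T.l 816) (T.l 816))) (T.a (T.l 816) (T.l 2)))) (T.a (T.a (T.l 816) (T.b (T.l 816) (T.l 2))) (T.b (T.l 2) (T.l 2))))), by decide +kernel⟩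

def A012R_151 :
    ∃ t, chk3 (onCell 0 67108864 0 1073741824 201326592 134217728 (corT true 1 c0F cA012R gF1q0 gF5q1 gF1q2 gF2q2 true true)) t 1 1 1 = true :=
  ⟨(T.b (T.b (T.l 1) (T.l 1)) (T.b (T.a (T.l 816) (T.a (T.b (T.l 816) (T.l 816)) (T.l 0))) (T.a (T.b (T.l 816) (T.a (T.l 816) (T.b (T.l 816) (T.l 816)))) (T.a (T.b (T.l 816) (T.l 816)) (T.b (T.l 816) (T.l 816)))))), by decide +kernel⟩

def A012R_152 :
    ∃ t, chk3 (onCell 0 67108864 0 1073741824 201326592 134217728 (corT true 1 c0F cA012R gF1q0 gF5q1 gF2q2 gF3q2 true false)) t 1 1 1 = true :=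
  ⟨(T.l 1), by decide +kernel⟩

def A012R_230 :
    ∃ t, chk3 (onCell 0 67108864 0 1073741824 201326592 134217728 (corT true 1 c0F cA012R gF2q0 gF3q1 gF0q2 gF1q2 true true)) t 1 1 1 = true :=
  ⟨(T.b (T.l 1) (T.b (T.a (T.l 1) (T.b (T.l 1) (T.a (T.l 0) (T.l 0)))) (T.b (T.a (T.l 0) (T.a (T.l 0) (T.l 0))) (T.a (T.a (T.l 816) (T.l 0)) (T.a (T.l 0) (T.l 0)))))), by decide +kernel⟩

def A012R_231 :
    ∃ t, chk3 (onCell 0 67108864 0 1073741824 201326592 134217728 (corT true 1 c0F cA012R gF2q0 gF3q1 gF1q2 gF2q2 true true)) t 1 1 1 = true :=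
  ⟨(T.l 1), by decide +kernel⟩

def A012R_232 :
    ∃ t, chk3 (onCell 0 67108864 0 1073741824 201326592 134217728 (corT true 1 c0F cA012R gF2q0 gF3q1 gF2q2 gF3q2 true false)) t 1 1 1 = true :=
  ⟨(T.l 1), by decide +kernel⟩

def A012R_240 :
    ∃ t, chk3 (onCell 0 67108864 0 1073741824 201326592 134217728 (corT true 1 c0F cA012R gF2q0 gF4q1 gF0q2 gF1q2 true true)) t 1 1 1 = true :=
  ⟨(T.b (T.l 1) (T.b (T.a (T.l 1) (T.b (T.l 1) (T.a (T.l 0) (T.l 0)))) (T.b (T.a (T.l 816) (T.a (T.l 0) (T.l 0))) (T.a (T.a (T.l 816) (T.l 0)) (T.a (T.l 0) (T.l 0)))))), by decide +kernel⟩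

def A012R_241 :
    ∃ t, chk3 (onCell 0 67108864 0 1073741824 201326592 134217728 (corT true 1 c0F cA012R gF2q0 gF4q1 gF1q2 gF2q2 true true)) t 1 1 1 = true :=
  ⟨(T.l 1), by decide +kernel⟩

def A012R_242 :
    ∃ t, chk3 (onCell 0 67108864 0 1073741824 201326592 134217728 (corT true 1 c0F cA012R gF2q0 gF4q1 gF2q2 gF3q2 true false)) t 1 1 1 = true :=
  ⟨(T.l 1), by decide +kernel⟩

def A012R_250 :
    ∃ t, chk3 (onCell 0 67108864 0 1073741824 201326592 134217728 (corT true 1 c0F cA012R gF2q0 gF5q1 gF0q2 gF1q2 true true)) t 1 1 1 = true :=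
  ⟨(T.b (T.l 1) (T.b (T.a (T.l 0) (T.a (T.l 0) (T.b (T.l 0) (T.l 0)))) (T.a (T.a (T.l 816) (T.l 0)) (T.b (T.a (T.l 0) (T.l 0)) (T.a (T.l 0) (T.l 0)))))), by decide +kernel⟩

def A012R_251 :
    ∃ t, chk3 (onCell 0 67108864 0 1073741824 201326592 134217728 (corT true 1 c0F cA012R gF2q0 gF5q1 gF1q2 gF2q2 true true)) t 1 1 1 = true :=
  ⟨(T.l 1), by decide +kernel⟩

def A012R_252 :
    ∃ t, chk3 (onCell 0 67108864 0 1073741824 201326592 134217728 (corT true 1 c0F cA012R gF2q0 gF5q1 gF2q2 gF3q2 true false)) t 1 1 1 = true :=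
  ⟨(T.l 1), by decide +kernel⟩

def A022E_000 :
    ∃ t, chk3 (onCell 0 67108864 0 1073741824 201326592 134217728 (corT true 1 c0F cA022E gF0q0 gF0q2 gF0q2 gF1q2 true true)) t 1 1 1 = true :=
  ⟨(T.l 2), by decide +kernel⟩

def A022E_001 :
    ∃ t, chk3 (onCell 0 67108864 0 1073741824 201326592 134217728 (corT true 1 c0F cA022E gF0q0 gF0q2 gF1q2 gF2q2 true true)) t 1 1 1 = true :=
  ⟨(T.b (T.l 2) (T.l 2)), by decide +kernel⟩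

def A022E_002_1_2_1 :
    ∃ t, chk3 (onCell 0 67108864 0 1073741824 201326592 134217728 (corT true 1 c0F cA022E gF0q0 gF0q2 gF2q2 gF3q2 true false)) t 1 2 1 = true :=
  ⟨(T.b (T.b (T.a (T.a (T.c (T.c (T.a (T.l 204) (T.l 204)) (T.l 204)) (T.c (T.l 204) (T.l 204))) (T.c (T.a (T.c (T.l 204) (T.l 204)) (T.b (T.l 204) (T.l 204))) (T.a (T.l 204) (T.l 204)))) (T.a (T.c (T.a (T.a (T.l 204) (T.b (T.l 204) (T.l 204))) (T.c (T.l 204) (T.l 204))) (T.a (T.b (T.l 204) (T.l 204)) (T.l 204))) (T.a (T.c (T.b (T.l 204) (T.l 204)) (T.l 204)) (T.c (T.b (T.l 204) (T.l 204)) (T.b (T.l 204) (T.l 204)))))) (T.a (T.a (T.c (T.c (T.l 204) (T.l 204)) (T.l 220)) (T.c (T.a (T.l 204) (T.l 204)) (T.c (T.l 204) (T.l 204)))) (T.a (T.a (T.c (T.l 204) (T.l 204)) (T.c (T.b (T.l 204) (T.l 204)) (T.l 204))) (T.a (T.c (T.b (T.l 204) (T.l 204)) (T.l 204)) (T.c (T.b (T.l 204) (T.l 204))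 (T.l 204)))))) (T.b (T.a (T.a (T.c (T.c (T.l 204) (T.l 204)) (T.l 204)) (T.c (T.c (T.l 204) (T.l 204)) (T.c (T.l 204) (T.l 204)))) (T.a (T.c (T.l 204) (T.l 204)) (T.c (T.a (T.b (T.l 204) (T.l 204)) (T.b (T.l 204) (T.l 0))) (T.b (T.l 0) (T.l 0))))) (T.a (T.a (T.c (T.l 204) (T.l 204)) (T.c (T.c (T.l 0) (T.l 0)) (T.l 0))) (T.a (T.c (T.l 0) (T.l 0)) (T.c (T.a (T.l 0) (T.b (T.l 0) (T.l 0))) (T.b (T.l 0) (T.l 0))))))), by decide +kernel⟩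

def A022E_002_2_3_1 :
    ∃ t, chk3 (onCell 0 67108864 0 1073741824 201326592 134217728 (corT true 1 c0F cA022E gF0q0 gF0q2 gF2q2 gF3q2 true false)) t 2 3 1 = true :=
  ⟨(T.a (T.c (T.b (T.l 0) (T.b (T.l 816) (T.c (T.b (T.l 816) (T.l 816)) (T.b (T.l 816) (T.l 816))))) (T.b (T.l 0) (T.b (T.l 816) (T.c (T.l 816) (T.l 816))))) (T.c (T.b (T.c (T.l 68) (T.l 0)) (T.a (T.b (T.l 880) (T.c (T.c (T.l 816) (T.l 816)) (T.b (T.l 816) (T.l 880)))) (T.c (T.b (T.l 816) (T.b (T.l 816) (T.c (T.a (T.l 816) (T.c (T.l 816) (T.l 816))) (T.a (T.l 816) (T.c (T.l 816) (T.l 816)))))) (T.b (T.l 816) (T.b (T.l 816) (T.b (T.l 816) (T.a (T.b (T.l 816) (T.l 816)) (T.c (T.l 816) (T.l 816))))))))) (T.b (T.b (T.l 0) (T.l 0)) (T.a (T.b (T.l 816) (T.c (T.b (T.l 816) (T.l 816)) (T.l 816))) (T.b (T.l 816) (T.c (T.b (T.l 816) (T.a (T.l 816) (T.c (T.l 816) (T.l 816)))) (T.a (T.l 816)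 (T.b (T.l 816) (T.l 880))))))))), by decide +kernel⟩

def A022E_002_3_3_1 :
    ∃ t, chk3 (onCell 0 67108864 0 1073741824 201326592 134217728 (corT true 1 c0F cA022E gF0q0 gF0q2 gF2q2 gF3q2 true false)) t 3 3 1 = true :=
  ⟨(T.c (T.b (T.a (T.c (T.l 0) (T.l 0)) (T.c (T.l 4) (T.l 0))) (T.a (T.b (T.c (T.l 816) (T.l 816)) (T.c (T.b (T.a (T.l 816) (T.l 816)) (T.a (T.b (T.l 880) (T.c (T.a (T.l 816) (T.l 816)) (T.a (T.l 816) (T.l 816)))) (T.c (T.b (T.l 816) (T.l 816)) (T.l 816)))) (T.b (T.l 816) (T.a (T.b (T.l 816) (T.c (T.l 880) (T.l 816))) (T.c (T.l 816) (T.l 816)))))) (T.b (T.c (T.l 816) (T.l 816)) (T.c (T.b (T.b (T.l 816) (T.l 880)) (T.c (T.b (T.l 880) (T.a (T.b (T.l 816) (T.l 880)) (T.b (T.l 816) (T.c (T.a (T.l 816) (T.l 880)) (T.l 880))))) (T.b (T.l 816) (T.a (T.l 880) (T.a (T.l 880) (T.l 880)))))) (T.b (T.l 816) (T.a (T.c (T.l 880) (T.l 816))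 (T.b (T.l 816) (T.c (T.b (T.l 816) (T.l 880)) (T.l 816))))))))) (T.b (T.a (T.l 0) (T.l 68)) (T.a (T.b (T.l 880) (T.c (T.b (T.l 816) (T.a (T.c (T.l 816) (T.l 816)) (T.l 880))) (T.b (T.l 816) (T.a (T.b (T.l 816) (T.l 880)) (T.l 816))))) (T.b (T.b (T.l 816) (T.l 816)) (T.c (T.b (T.l 816) (T.b (T.l 880) (T.a (T.l 816) (T.c (T.l 816) (T.l 816))))) (T.b (T.l 816) (T.a (T.l 816) (T.l 880)))))))), by decide +kernel⟩

theorem A022E_002_1_3_1 :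
    ∃ t, chk3 (onCell 0 67108864 0 1073741824 201326592 134217728 (corT true 1 c0F cA022E gF0q0 gF0q2 gF2q2 gF3q2 true false)) t 1 3 1 = true :=
  ex3_a A022E_002_2_3_1 A022E_002_3_3_1
theorem A022E_002 :
    ∃ t, chk3 (onCell 0 67108864 0 1073741824 201326592 134217728 (corT true 1 c0F cA022E gF0q0 gF0q2 gF2q2 gF3q2 true false)) t 1 1 1 = true :=
  ex3_b A022E_002_1_2_1 A022E_002_1_3_1

def A022E_010 :
    ∃ t, chk3 (onCell 0 67108864 0 1073741824 201326592 134217728 (corT true 1 c0F cA022E gF0q0 gF1q2 gF0q2 gF1q2 true true)) t 1 1 1 = true :=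
  ⟨(T.l 2), by decide +kernel⟩

def A022E_011 :
    ∃ t, chk3 (onCell 0 67108864 0 1073741824 201326592 134217728 (corT true 1 c0F cA022E gF0q0 gF1q2 gF1q2 gF2q2 true true)) t 1 1 1 = true :=
  ⟨(T.l 2), by decide +kernel⟩

end Pool.Agent.Strip051.G.I3_16_5_16.Tab.CF
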