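import Pool.Agent.Strip051.G.I3_16_5_16.Gn
import Pool.Agent.Strip051.PB.Corns

/-! # Certificates of the aligned corners (generated) -/

set_option linter.all false

namespace Pool.Agent.Strip051.G.I3_16_5_16.Tab.CF

open Pool.Agent.Strip051.PB

def A022E_012_1_2_1 :
    ∃ t, chk3 (onCell 0 67108864 0 1073741824 201326592 134217728 (corT true 1 c0F cA022E gF0q0 gF1q2 gF2q2 gF3q2 true false)) t 1 2 1 = true :=
  ⟨(T.b (T.a (T.a (T.c (T.c (T.b (T.c (T.b (T.l 204) (T.l 204)) (T.l 204)) (T.l 204)) (T.b (T.c (T.l 204) (T.l 204)) (T.l 204))) (T.c (T.c (T.l 204) (T.l 204)) (T.b (T.l 204) (T.l 204)))) (T.a (T.c (T.c (T.l 204) (T.l 204)) (T.b (T.l 204) (T.l 204))) (T.c (T.b (T.a (T.c (T.l 204) (T.l 204)) (T.c (T.l 204) (T.l 204))) (T.c (T.l 204) (T.l 204))) (T.b (T.a (T.l 204) (T.b (T.l 204) (T.l 204))) (T.l 204))))) (T.a (T.c (T.a (T.b (T.c (T.b (T.l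 204) (T.l 204)) (T.b (T.l 204) (T.l 204))) (T.c (T.l 220) (T.l 204))) (T.b (T.c (T.l 220) (T.l 204)) (T.c (T.l 204) (T.l 204)))) (T.a (T.b (T.c (T.l 204) (T.l 204)) (T.b (T.l 204) (T.l 204))) (T.b (T.b (T.l 204) (T.l 204)) (T.l 204)))) (T.c (T.b (T.c (T.a (T.l 204) (T.l 204)) (T.a (T.l 204) (T.l 204))) (T.c (T.b (T.l 204) (T.l 204)) (T.b (T.l 204) (T.l 204)))) (T.b (T.a (T.l 204) (T.l 204)) (T.b (T.l 220) (T.l 204)))))) (T.a (T.a (T.c (T.c (T.l 204) (T.l 204)) (T.l 204)) (T.c (T.a (T.b (T.l 204) (T.l 204)) (T.b (T.l 204) (T.l 204))) (T.c (T.l 0) (T.l 0)))) (T.a (T.b (T.c (T.a (T.l 204) (T.b (T.l 220) (T.l 204))) (T.a (T.l 204) (T.l 204))) (T.c (T.l 0) (T.l 204))) (T.c (T.b (T.c (T.b (T.l 204) (T.l 204)) (T.l 16)) (T.a (T.b (T.l 204) (T.l 0)) (T.l 16))) (T.b (T.b (T.l 204) (T.l 204)) (T.b (T.l 0) (T.l 0))))))), by decide +kernel⟩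

def A022E_012_1_6_1 :
    ∃ t, chk3 (onCell 0 67108864 0 1073741824 201326592 134217728 (corT true 1 c0F cA022E gF0q0 gF1q2 gF2q2 gF3q2 true false)) t 1 6 1 = true :=
  ⟨(T.b (T.a (T.a (T.c (T.l 0) (T.l 0)) (T.c (T.c (T.l 0) (T.l 0)) (T.l 0))) (T.a (T.c (T.l 0) (T.l 0)) (T.c (T.b (T.l 4) (T.l 0)) (T.b (T.l 0) (T.l 0))))) (T.a (T.a (T.c (T.l 0) (T.l 0)) (T.c (T.c (T.l 0) (T.l 0)) (T.l 0))) (T.c (T.a (T.b (T.l 816) (T.l 816)) (T.b (T.l 816) (T.l 816))) (T.a (T.l 816) (T.l 816))))), by decide +kernel⟩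

def A022E_012_1_7_1 :
    ∃ t, chk3 (onCell 0 67108864 0 1073741824 201326592 134217728 (corT true 1 c0F cA022E gF0q0 gF1q2 gF2q2 gF3q2 true false)) t 1 7 1 = true :=
  ⟨(T.a (T.a (T.c (T.b (T.l 816) (T.c (T.b (T.l 816) (T.l 816)) (T.l 816))) (T.b (T.l 816) (T.c (T.l 816) (T.l 816)))) (T.c (T.a (T.b (T.l 816) (T.c (T.c (T.l 816) (T.l 816)) (T.b (T.l 816) (T.l 816)))) (T.c (T.b (T.l 816) (T.b (T.l 816) (T.c (T.a (T.l 816) (T.c (T.l 816) (T.l 816))) (T.a (T.l 816) (T.b (T.l 816) (T.l 880)))))) (T.b (T.l 816) (T.b (T.l 816) (T.b (T.l 816) (T.a (T.b (T.l 816) (T.l 816)) (T.c (T.l 816) (T.l 816)))))))) (T.a (T.b (T.l 816) (T.c (T.l 816) (T.l 816))) (T.b (T.l 816) (T.b (T.l 816) (T.c (T.a (T.l 816) (T.c (T.l 816) (T.l 816))) (T.a (T.l 816) (T.l 816)))))))) (T.c (T.a (T.c (T.b (T.l 816) (T.b (T.l 816) (T.a (T.b (T.l 816) (T.c (T.a (T.l 816) (T.l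 816)) (T.a (T.l 816) (T.l 816)))) (T.c (T.l 880) (T.l 816))))) (T.b (T.l 816) (T.b (T.l 816) (T.a (T.b (T.l 816) (T.c (T.l 880) (T.l 816))) (T.c (T.l 816) (T.l 816)))))) (T.c (T.b (T.l 816) (T.b (T.l 816) (T.c (T.b (T.l 816) (T.a (T.b (T.l 816) (T.l 880)) (T.c (T.a (T.l 816) (T.l 880)) (T.l 880)))) (T.a (T.l 880) (T.b (T.l 816) (T.a (T.l 816) (T.l 880))))))) (T.b (T.l 816) (T.b (T.l 816) (T.b (T.l 880) (T.a (T.c (T.l 816) (T.l 816)) (T.c (T.l 880) (T.l 816)))))))) (T.a (T.b (T.l 816) (T.c (T.b (T.l 816) (T.a (T.c (T.l 816) (T.l 816)) (T.l 880))) (T.a (T.c (T.l 816) (T.l 816)) (T.l 816)))) (T.b (T.l 816) (T.c (T.b (T.l 816) (T.b (T.l 816) (T.a (T.l 816) (T.c (T.l 816) (T.l 816))))) (T.a (T.l 880) (T.b (T.l 816) (T.l 816)))))))), by decide +kernel⟩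

theorem A022E_012_1_3_1 :
    ∃ t, chk3 (onCell 0 67108864 0 1073741824 201326592 134217728 (corT true 1 c0F cA022E gF0q0 gF1q2 gF2q2 gF3q2 true false)) t 1 3 1 = true :=
  ex3_b A022E_012_1_6_1 A022E_012_1_7_1
theorem A022E_012 :
    ∃ t, chk3 (onCell 0 67108864 0 1073741824 201326592 134217728 (corT true 1 c0F cA022E gF0q0 gF1q2 gF2q2 gF3q2 true false)) t 1 1 1 = true :=
  ex3_b A022E_012_1_2_1 A022E_012_1_3_1

def A022E_020 :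
    ∃ t, chk3 (onCell 0 67108864 0 1073741824 201326592 134217728 (corT true 1 c0F cA022E gF0q0 gF2q2 gF0q2 gF1q2 true true)) t 1 1 1 = true :=
  ⟨(T.l 2), by decide +kernel⟩

def A022E_021 :
    ∃ t, chk3 (onCell 0 67108864 0 1073741824 201326592 134217728 (corT true 1 c0F cA022E gF0q0 gF2q2 gF1q2 gF2q2 true true)) t 1 1 1 = true :=
  ⟨(T.l 2), by decide +kernel⟩

def A022E_022_1_2_1 :
    ∃ t, chk3 (onCell 0 67108864 0 1073741824 201326592 134217728 (corT true 1 c0F cA022E gF0q0 gF2q2 gF2q2 gF3q2 true false)) t 1 2 1 = true :=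
  ⟨(T.b (T.a (T.a (T.c (T.c (T.l 204) (T.l 204)) (T.b (T.l 204) (T.l 204))) (T.a (T.c (T.c (T.l 204) (T.l 204)) (T.l 204)) (T.c (T.b (T.c (T.b (T.l 204) (T.l 204)) (T.l 204)) (T.c (T.l 204) (T.l 204))) (T.b (T.c (T.l 204) (T.l 204)) (T.l 204))))) (T.a (T.c (T.a (T.c (T.b (T.b (T.l 204) (T.l 204)) (T.l 204)) (T.b (T.b (T.l 204) (T.l 204)) (T.l 204))) (T.c (T.b (T.b (T.l 204) (T.l 204)) (T.l 204)) (T.b (T.l 204) (T.l 204)))) (T.a (T.b (T.c (T.l 204) (T.l 204)) (T.l 220)) (T.b (T.c (T.l 204) (T.l 204)) (T.l 220)))) (T.c (T.b (T.c (T.a (T.b (T.l 204) (T.l 204)) (T.b (T.l 204) (T.l 204))) (T.a (T.l 204) (T.l 220))) (T.c (T.b (T.l 220) (T.l 204)) (T.b (T.l 204) (T.l 204)))) (T.b (T.a (T.c (T.l 204) (T.l 204)) (T.c (T.l 204) (T.l 204))) (T.c (T.l 220) (T.l 204)))))) (T.a (T.a (T.c (T.b (T.l 204) (T.l 204)) (T.l 204)) (T.c (T.a (T.l 204) (T.l 220))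 (T.c (T.l 0) (T.l 0)))) (T.a (T.b (T.c (T.a (T.l 204) (T.b (T.l 204) (T.l 204))) (T.a (T.l 204) (T.l 204))) (T.c (T.l 204) (T.l 204))) (T.c (T.b (T.c (T.l 220) (T.l 204)) (T.c (T.l 0) (T.l 0))) (T.b (T.b (T.l 204) (T.l 204)) (T.l 0)))))), by decide +kernel⟩

def A022E_022_1_6_1 :
    ∃ t, chk3 (onCell 0 67108864 0 1073741824 201326592 134217728 (corT true 1 c0F cA022E gF0q0 gF2q2 gF2q2 gF3q2 true false)) t 1 6 1 = true :=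
  ⟨(T.b (T.a (T.a (T.c (T.l 0) (T.l 0)) (T.c (T.c (T.l 0) (T.l 0)) (T.l 0))) (T.a (T.c (T.l 0) (T.l 0)) (T.c (T.b (T.l 0) (T.l 0)) (T.l 0)))) (T.a (T.a (T.c (T.l 816) (T.l 816)) (T.c (T.c (T.l 0) (T.l 0)) (T.l 0))) (T.c (T.a (T.l 820) (T.l 820)) (T.a (T.l 816) (T.l 816))))), by decide +kernel⟩

def A022E_022_1_7_1 :
    ∃ t, chk3 (onCell 0 67108864 0 1073741824 201326592 134217728 (corT true 1 c0F cA022E gF0q0 gF2q2 gF2q2 gF3q2 true false)) t 1 7 1 = true :=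
  ⟨(T.a (T.a (T.c (T.b (T.l 816) (T.c (T.b (T.l 816) (T.l 816)) (T.l 816))) (T.c (T.l 880) (T.l 816))) (T.c (T.c (T.a (T.b (T.l 816) (T.c (T.l 816) (T.l 816))) (T.b (T.l 816) (T.b (T.l 816) (T.c (T.a (T.l 816) (T.c (T.l 816) (T.l 816))) (T.a (T.l 816) (T.b (T.l 816) (T.l 880))))))) (T.b (T.l 816) (T.a (T.b (T.l 816) (T.l 816)) (T.b (T.l 816) (T.b (T.l 816) (T.a (T.l 880) (T.c (T.l 816) (T.l 816)))))))) (T.a (T.c (T.b (T.l 816) (T.l 816)) (T.l 880)) (T.b (T.l 816) (T.b (T.l 816) (T.c (T.a (T.l 816) (T.c (T.l 816) (T.l 816))) (T.c (T.l 880) (T.l 816)))))))) (T.c (T.a (T.c (T.b (T.l 816) (T.b (T.l 816) (T.a (T.b (T.l 816) (T.c (T.a (T.l 816) (T.l 816)) (T.a (T.l 816) (T.l 816)))) (T.c (T.l 880) (T.l 816))))) (T.b (T.l 816) (T.b (T.l 816) (T.a (T.c (T.b (T.l 816) (T.l 880)) (T.l 880)) (T.c (T.l 816) (T.l 816)))))) (T.c (T.b (T.l 816) (T.b (T.l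 816) (T.c (T.b (T.l 816) (T.a (T.b (T.l 816) (T.l 880)) (T.c (T.b (T.l 816) (T.l 880)) (T.l 880)))) (T.a (T.l 880) (T.c (T.l 880) (T.l 880)))))) (T.b (T.l 816) (T.b (T.l 816) (T.b (T.l 816) (T.a (T.c (T.l 816) (T.l 816)) (T.c (T.l 880) (T.l 816)))))))) (T.a (T.b (T.l 816) (T.c (T.b (T.l 816) (T.a (T.c (T.l 816) (T.l 816)) (T.l 816))) (T.a (T.c (T.l 816) (T.l 816)) (T.l 816)))) (T.b (T.l 816) (T.b (T.l 880) (T.c (T.a (T.l 880) (T.c (T.l 816) (T.l 816))) (T.a (T.l 816) (T.l 816)))))))), by decide +kernel⟩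

theorem A022E_022_1_3_1 :
    ∃ t, chk3 (onCell 0 67108864 0 1073741824 201326592 134217728 (corT true 1 c0F cA022E gF0q0 gF2q2 gF2q2 gF3q2 true false)) t 1 3 1 = true :=
  ex3_b A022E_022_1_6_1 A022E_022_1_7_1
theorem A022E_022 :
    ∃ t, chk3 (onCell 0 67108864 0 1073741824 201326592 134217728 (corT true 1 c0F cA022E gF0q0 gF2q2 gF2q2 gF3q2 true false)) t 1 1 1 = true :=
  ex3_b A022E_022_1_2_1 A022E_022_1_3_1

def A022E_110 :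
    ∃ t, chk3 (onCell 0 67108864 0 1073741824 201326592 134217728 (corT true 1 c0F cA022E gF1q0 gF1q2 gF0q2 gF1q2 true true)) t 1 1 1 = true :=
  ⟨(T.l 2), by decide +kernel⟩

def A022E_111 :
    ∃ t, chk3 (onCell 0 67108864 0 1073741824 201326592 134217728 (corT true 1 c0F cA022E gF1q0 gF1q2 gF1q2 gF2q2 true true)) t 1 1 1 = true :=
  ⟨(T.l 2), by decide +kernel⟩

def A022E_112 :
    ∃ t, chk3 (onCell 0 67108864 0 1073741824 201326592 134217728 (corT true 1 c0F cA022E gF1q0 gF1q2 gF2q2 gF3q2 true false)) t 1 1 1 = true :=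
  ⟨(T.b (T.a (T.a (T.c (T.b (T.b (T.b (T.c (T.c (T.l 204) (T.l 204)) (T.c (T.l 204) (T.l 204))) (T.l 204)) (T.l 204)) (T.l 204)) (T.b (T.b (T.c (T.b (T.l 204) (T.l 204)) (T.l 204)) (T.l 204)) (T.l 204))) (T.b (T.a (T.c (T.c (T.l 204) (T.l 204)) (T.b (T.l 204) (T.l 204))) (T.b (T.c (T.b (T.c (T.c (T.l 204) (T.l 204)) (T.b (T.l 204) (T.l 204))) (T.l 204)) (T.a (T.l 204) (T.b (T.l 204) (T.l 204)))) (T.c (T.l 204) (T.l 204)))) (T.b (T.l 204) (T.l 0)))) (T.b (T.a (T.b (T.c (T.a (T.b (T.c (T.l 204) (T.l 204)) (T.l 204)) (T.c (T.l 220) (T.l 204))) (T.a (T.c (T.l 204) (T.l 204)) (T.b (T.l 204) (T.l 204)))) (T.c (T.b (T.l 204) (T.l 204)) (T.l 204))) (T.c (T.b (T.b (T.c (T.a (T.l 204) (T.l 204)) (T.b (T.l 204) (T.l 204))) (T.l 204)) (T.l 204)) (T.b (T.a (T.l 204) (T.l 204)) (T.l 204)))) (T.a (T.b (T.b (T.l 220) (T.l 0)) (T.l 0)) (T.c (T.l 16) (T.l 0)))))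 (T.b (T.b (T.a (T.a (T.l 204) (T.l 0)) (T.b (T.l 0) (T.l 0))) (T.a (T.a (T.l 0) (T.l 0)) (T.l 0))) (T.a (T.a (T.l 0) (T.l 0)) (T.l 0)))), by decide +kernel⟩

def A022E_120 :
    ∃ t, chk3 (onCell 0 67108864 0 1073741824 201326592 134217728 (corT true 1 c0F cA022E gF1q0 gF2q2 gF0q2 gF1q2 true true)) t 1 1 1 = true :=
  ⟨(T.l 2), by decide +kernel⟩

def A022E_121 :
    ∃ t, chk3 (onCell 0 67108864 0 1073741824 201326592 134217728 (corT true 1 c0F cA022E gF1q0 gF2q2 gF1q2 gF2q2 true true)) t 1 1 1 = true :=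
  ⟨(T.l 2), by decide +kernel⟩

def A022E_122 :
    ∃ t, chk3 (onCell 0 67108864 0 1073741824 201326592 134217728 (corT true 1 c0F cA022E gF1q0 gF2q2 gF2q2 gF3q2 true false)) t 1 1 1 = true :=
  ⟨(T.b (T.b (T.a (T.a (T.c (T.c (T.l 220) (T.l 204)) (T.b (T.l 204) (T.l 204))) (T.a (T.c (T.c (T.l 204) (T.l 204)) (T.l 204)) (T.c (T.b (T.b (T.c (T.l 204) (T.l 204)) (T.l 204)) (T.l 204)) (T.b (T.c (T.l 204) (T.l 204)) (T.l 204))))) (T.a (T.c (T.b (T.b (T.c (T.a (T.l 204) (T.l 204)) (T.a (T.l 204) (T.l 204))) (T.c (T.l 204) (T.l 204))) (T.l 204)) (T.b (T.b (T.a (T.c (T.l 204) (T.l 204)) (T.c (T.l 204) (T.l 204))) (T.l 204)) (T.l 204))) (T.c (T.b (T.b (T.c (T.a (T.l 204) (T.l 204)) (T.a (T.l 204) (T.l 204))) (T.l 204)) (T.l 204)) (T.b (T.b (T.b (T.c (T.a (T.l 204) (T.l 204)) (T.l 204)) (T.l 204)) (T.l 204)) (T.l 204))))) (T.a (T.a (T.l 204) (T.l 16))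 (T.a (T.b (T.l 220) (T.l 0)) (T.b (T.l 204) (T.l 0))))) (T.b (T.a (T.a (T.l 0) (T.l 0)) (T.b (T.l 16) (T.l 0))) (T.a (T.a (T.l 0) (T.l 0)) (T.l 0)))), by decide +kernel⟩

def A022E_220 :
    ∃ t, chk3 (onCell 0 67108864 0 1073741824 201326592 134217728 (corT true 1 c0F cA022E gF2q0 gF2q2 gF0q2 gF1q2 true true)) t 1 1 1 = true :=
  ⟨(T.l 2), by decide +kernel⟩

def A022E_221 :
    ∃ t, chk3 (onCell 0 67108864 0 1073741824 201326592 134217728 (corT true 1 c0F cA022E gF2q0 gF2q2 gF1q2 gF2q2 true true)) t 1 1 1 = true :=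
  ⟨(T.l 2), by decide +kernel⟩

def A022E_222 :
    ∃ t, chk3 (onCell 0 67108864 0 1073741824 201326592 134217728 (corT true 1 c0F cA022E gF2q0 gF2q2 gF2q2 gF3q2 true false)) t 1 1 1 = true :=
  ⟨(T.b (T.b (T.a (T.a (T.c (T.c (T.b (T.l 204) (T.l 204)) (T.l 204)) (T.b (T.l 204) (T.l 204))) (T.a (T.c (T.c (T.l 204) (T.l 204)) (T.l 204)) (T.b (T.c (T.b (T.c (T.l 204) (T.l 204)) (T.l 204)) (T.c (T.l 204) (T.l 204))) (T.l 204)))) (T.a (T.b (T.c (T.b (T.c (T.a (T.l 204) (T.l 204)) (T.a (T.l 204) (T.l 204))) (T.l 204)) (T.b (T.b (T.a (T.c (T.l 204) (T.l 204)) (T.c (T.l 204) (T.l 204))) (T.l 204)) (T.l 204))) (T.b (T.l 204) (T.l 204))) (T.b (T.c (T.b (T.b (T.c (T.a (T.l 204) (T.l 204)) (T.a (T.l 204) (T.l 204))) (T.l 204)) (T.l 204)) (T.b (T.b (T.c (T.a (T.l 204) (T.l 204)) (T.l 204)) (T.l 204)) (T.l 204))) (T.l 204)))) (T.a (T.a (T.l 204) (T.l 204))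 (T.a (T.l 0) (T.l 0)))) (T.b (T.a (T.a (T.l 204) (T.l 0)) (T.b (T.l 0) (T.l 0))) (T.a (T.a (T.l 204) (T.l 0)) (T.l 0)))), by decide +kernel⟩

def A022L_004_2_2_1 :
    ∃ t, chk3 (onCell 0 67108864 0 1073741824 201326592 134217728 (corX 1 c0F cA022L tA022L gF0q0 gF0q2 gF4q2 gF5q2 gF5q2 false true)) t 2 2 1 = true :=
  ⟨(T.c (T.a (T.b (T.c (T.a (T.b (T.c (T.a (T.b (T.l 207) (T.l 207)) (T.l 207)) (T.b (T.l 207) (T.l 207))) (T.c (T.a (T.b (T.l 207) (T.l 207)) (T.l 207)) (T.b (T.l 207) (T.l 207)))) (T.b (T.c (T.l 207) (T.l 207)) (T.c (T.l 207) (T.l 207)))) (T.b (T.a (T.c (T.b (T.l 207) (T.l 207)) (T.b (T.l 207) (T.l 207))) (T.b (T.l 207) (T.l 207))) (T.a (T.c (T.b (T.l 207) (T.l 207)) (T.b (T.l 207) (T.l 207))) (T.b (T.l 207) (T.l 207))))) (T.c (T.a (T.b (T.c (T.a (T.b (T.l 207) (T.l 207)) (T.l 207)) (T.b (T.l 207) (T.l 207))) (T.c (T.a (T.b (T.l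 207) (T.l 207)) (T.l 207)) (T.b (T.l 207) (T.l 207)))) (T.b (T.c (T.l 207) (T.l 207)) (T.c (T.l 207) (T.l 207)))) (T.a (T.b (T.c (T.b (T.l 207) (T.l 207)) (T.b (T.l 207) (T.l 207))) (T.a (T.c (T.l 207) (T.l 207)) (T.l 223))) (T.a (T.b (T.l 207) (T.l 207)) (T.l 207))))) (T.b (T.c (T.b (T.c (T.l 204) (T.l 204)) (T.a (T.l 223) (T.l 207))) (T.b (T.b (T.l 204) (T.l 223)) (T.b (T.l 207) (T.l 207)))) (T.c (T.b (T.a (T.l 223) (T.l 207)) (T.b (T.l 223) (T.l 223))) (T.a (T.b (T.l 207) (T.l 207)) (T.l 479))))) (T.a (T.b (T.a (T.c (T.b (T.c (T.l 207) (T.l 207)) (T.c (T.l 207) (T.l 207))) (T.a (T.l 207) (T.l 207))) (T.c (T.b (T.l 223) (T.l 207)) (T.b (T.l 207) (T.l 207)))) (T.a (T.c (T.b (T.c (T.l 207) (T.l 207)) (T.c (T.l 207) (T.l 207))) (T.a (T.l 207) (T.l 207))) (T.c (T.b (T.l 207) (T.l 207)) (T.b (T.l 207) (T.l 207))))) (T.b (T.b (T.c (T.b (T.l 207)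 (T.l 207)) (T.b (T.l 207) (T.l 207))) (T.c (T.b (T.l 207) (T.l 207)) (T.b (T.l 207) (T.l 207)))) (T.b (T.c (T.b (T.l 207) (T.l 207)) (T.b (T.l 207) (T.l 207))) (T.c (T.b (T.l 207) (T.l 207)) (T.l 479)))))), by decide +kernel⟩

def A022L_004_2_3_1 :
    ∃ t, chk3 (onCell 0 67108864 0 1073741824 201326592 134217728 (corX 1 c0F cA022L tA022L gF0q0 gF0q2 gF4q2 gF5q2 gF5q2 false true)) t 2 3 1 = true :=
  ⟨(T.b (T.c (T.a (T.c (T.a (T.b (T.c (T.a (T.b (T.l 207) (T.l 207)) (T.l 207)) (T.b (T.l 207) (T.l 207))) (T.b (T.c (T.b (T.l 207) (T.l 207)) (T.l 207)) (T.l 2))) (T.a (T.b (T.l 223) (T.l 223)) (T.l 223))) (T.a (T.b (T.a (T.c (T.l 207) (T.l 207)) (T.l 223)) (T.b (T.c (T.l 207) (T.l 207)) (T.l 2))) (T.b (T.l 223) (T.l 223)))) (T.c (T.a (T.b (T.l 207) (T.l 207)) (T.l 479)) (T.a (T.l 479) (T.l 463)))) (T.a (T.a (T.c (T.a (T.b (T.l 207) (T.l 207))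 (T.l 223)) (T.a (T.l 207) (T.l 207))) (T.c (T.b (T.l 207) (T.l 207)) (T.b (T.l 207) (T.l 207)))) (T.b (T.c (T.l 479) (T.l 479)) (T.c (T.l 479) (T.l 463))))) (T.l 2)), by decide +kernel⟩

def A022L_004_3_4_1 :
    ∃ t, chk3 (onCell 0 67108864 0 1073741824 201326592 134217728 (corX 1 c0F cA022L tA022L gF0q0 gF0q2 gF4q2 gF5q2 gF5q2 false true)) t 3 4 1 = true :=
  ⟨(T.a (T.b (T.c (T.a (T.a (T.c (T.l 207) (T.l 207)) (T.c (T.b (T.l 204) (T.l 207)) (T.b (T.l 204) (T.l 207)))) (T.c (T.b (T.b (T.l 204) (T.l 204)) (T.b (T.l 204) (T.l 204))) (T.b (T.b (T.l 204) (T.l 204)) (T.b (T.l 204) (T.l 204))))) (T.a (T.a (T.b (T.l 207) (T.l 207)) (T.b (T.c (T.l 204) (T.l 204)) (T.l 207))) (T.c (T.b (T.l 476) (T.l 476)) (T.b (T.l 220) (T.l 220))))) (T.a (T.c (T.c (T.l 207) (T.l 207)) (T.b (T.l 479) (T.l 207))) (T.c (T.b (T.c (T.b (T.l 204) (T.l 204)) (T.b (T.l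 204) (T.l 204))) (T.c (T.l 207) (T.l 207))) (T.b (T.c (T.l 476) (T.l 476)) (T.l 207))))) (T.b (T.c (T.a (T.c (T.b (T.l 204) (T.l 460)) (T.b (T.l 204) (T.l 204))) (T.c (T.b (T.b (T.l 204) (T.l 204)) (T.b (T.l 204) (T.l 204))) (T.b (T.l 460) (T.l 460)))) (T.a (T.c (T.b (T.l 204) (T.l 204)) (T.b (T.l 204) (T.l 204))) (T.b (T.c (T.l 204) (T.l 220)) (T.c (T.l 460) (T.l 220))))) (T.a (T.c (T.c (T.b (T.b (T.l 204) (T.l 204)) (T.b (T.l 204) (T.l 204))) (T.b (T.l 460) (T.l 460))) (T.b (T.c (T.l 204) (T.l 204)) (T.c (T.l 204) (T.l 204)))) (T.c (T.c (T.b (T.l 204) (T.l 460)) (T.b (T.l 204) (T.l 204))) (T.b (T.b (T.l 220) (T.l 220)) (T.b (T.l 476) (T.l 476))))))), by decide +kernel⟩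

def A022L_004_3_5_1 :
    ∃ t, chk3 (onCell 0 67108864 0 1073741824 201326592 134217728 (corX 1 c0F cA022L tA022L gF0q0 gF0q2 gF4q2 gF5q2 gF5q2 false true)) t 3 5 1 = true :=
  ⟨(T.a (T.c (T.c (T.a (T.l 463) (T.l 463)) (T.b (T.l 463) (T.l 463))) (T.b (T.c (T.l 207) (T.l 207)) (T.c (T.l 207) (T.l 207)))) (T.b (T.c (T.a (T.b (T.c (T.b (T.l 204) (T.l 204)) (T.l 460)) (T.b (T.l 479) (T.l 479))) (T.c (T.b (T.l 460) (T.l 460)) (T.b (T.l 460) (T.l 460)))) (T.a (T.b (T.c (T.l 460) (T.l 460)) (T.l 207)) (T.b (T.b (T.l 476) (T.l 476)) (T.b (T.l 476) (T.l 476))))) (T.b (T.c (T.a (T.b (T.l 479) (T.l 463)) (T.b (T.c (T.l 204) (T.l 204)) (T.l 463))) (T.a (T.l 207) (T.b (T.l 476) (T.l 207)))) (T.c (T.c (T.l 207) (T.l 207)) (T.l 207))))), by decide +kernel⟩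

def A022L_004_3_3_1 :
    ∃ t, chk3 (onCell 0 67108864 0 1073741824 201326592 134217728 (corX 1 c0F cA022L tA022L gF0q0 gF0q2 gF4q2 gF5q2 gF5q2 false true)) t 3 3 1 = true :=
  ⟨(T.b (T.c (T.a (T.c (T.b (T.l 463) (T.l 463)) (T.b (T.l 207) (T.l 207))) (T.c (T.b (T.l 207) (T.l 207)) (T.b (T.l 207) (T.l 207)))) (T.a (T.b (T.b (T.l 479) (T.l 479)) (T.b (T.l 479) (T.l 2))) (T.b (T.l 479) (T.l 479)))) (T.l 2)), by decide +kernel⟩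

theorem A022L_004_3_2_1 :
    ∃ t, chk3 (onCell 0 67108864 0 1073741824 201326592 134217728 (corX 1 c0F cA022L tA022L gF0q0 gF0q2 gF4q2 gF5q2 gF5q2 false true)) t 3 2 1 = true :=
  ex3_b A022L_004_3_4_1 A022L_004_3_5_1
theorem A022L_004_3_1_1 :
    ∃ t, chk3 (onCell 0 67108864 0 1073741824 201326592 134217728 (corX 1 c0F cA022L tA022L gF0q0 gF0q2 gF4q2 gF5q2 gF5q2 false true)) t 3 1 1 = true :=
  ex3_b A022L_004_3_2_1 A022L_004_3_3_1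
theorem A022L_004_2_1_1 :
    ∃ t, chk3 (onCell 0 67108864 0 1073741824 201326592 134217728 (corX 1 c0F cA022L tA022L gF0q0 gF0q2 gF4q2 gF5q2 gF5q2 false true)) t 2 1 1 = true :=
  ex3_b A022L_004_2_2_1 A022L_004_2_3_1
theorem A022L_004 :
    ∃ t, chk3 (onCell 0 67108864 0 1073741824 201326592 134217728 (corX 1 c0F cA022L tA022L gF0q0 gF0q2 gF4q2 gF5q2 gF5q2 false true)) t 1 1 1 = true :=
  ex3_a A022L_004_2_1_1 A022L_004_3_1_1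

def A022L_014 :
    ∃ t, chk3 (onCell 0 67108864 0 1073741824 201326592 134217728 (corT true 1 c0F cA022L gF0q0 gF1q2 gF4q2 gF5q2 false true)) t 1 1 1 = true :=
  ⟨(T.b (T.b (T.b (T.a (T.a (T.c (T.l 204) (T.l 204)) (T.a (T.c (T.l 204) (T.l 204)) (T.c (T.b (T.l 204) (T.l 204)) (T.l 204)))) (T.a (T.c (T.c (T.b (T.l 204) (T.l 204)) (T.b (T.l 204) (T.l 204))) (T.b (T.l 204) (T.l 204))) (T.c (T.c (T.l 204) (T.l 204)) (T.b (T.l 204) (T.l 204))))) (T.a (T.c (T.l 204) (T.l 204)) (T.a (T.c (T.a (T.b (T.l 204) (T.l 204)) (T.b (T.l 204) (T.l 204))) (T.b (T.l 204) (T.l 204))) (T.c (T.b (T.l 460) (T.l 460)) (T.l 460))))) (T.b (T.a (T.c (T.l 204) (T.l 204)) (T.a (T.c (T.a (T.l 204) (T.b (T.l 204) (T.l 204))) (T.b (T.l 0) (T.l 0))) (T.c (T.b (T.l 460) (T.b (T.l 204) (T.l 204))) (T.b (T.l 204) (T.l 204))))) (T.l 2))) (T.l 2)), by decide +kernel⟩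

def A022L_024 :
    ∃ t, chk3 (onCell 0 67108864 0 1073741824 201326592 134217728 (corT true 1 c0F cA022L gF0q0 gF2q2 gF4q2 gF5q2 false true)) t 1 1 1 = true :=
  ⟨(T.l 2), by decide +kernel⟩

def A022L_114 :
    ∃ t, chk3 (onCell 0 67108864 0 1073741824 201326592 134217728 (corT true 1 c0F cA022L gF1q0 gF1q2 gF4q2 gF5q2 false true)) t 1 1 1 = true :=
  ⟨(T.b (T.b (T.b (T.a (T.a (T.c (T.l 204) (T.l 204)) (T.a (T.c (T.l 204) (T.l 204)) (T.c (T.b (T.l 204) (T.l 204)) (T.l 204)))) (T.a (T.c (T.c (T.b (T.l 204) (T.l 204)) (T.l 0)) (T.b (T.l 204) (T.l 204))) (T.c (T.c (T.l 204) (T.l 204)) (T.l 460)))) (T.a (T.l 204) (T.a (T.c (T.l 0) (T.l 0)) (T.b (T.l 460) (T.l 204))))) (T.l 2)) (T.l 2)), by decide +kernel⟩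

def A022L_124 :
    ∃ t, chk3 (onCell 0 67108864 0 1073741824 201326592 134217728 (corT true 1 c0F cA022L gF1q0 gF2q2 gF4q2 gF5q2 false true)) t 1 1 1 = true :=
  ⟨(T.l 2), by decide +kernel⟩

def A022L_224 :
    ∃ t, chk3 (onCell 0 67108864 0 1073741824 201326592 134217728 (corT true 1 c0F cA022L gF2q0 gF2q2 gF4q2 gF5q2 false true)) t 1 1 1 = true :=
  ⟨(T.l 2), by decide +kernel⟩

def A022R_050 :
    ∃ t, chk3 (onCell 0 67108864 0 1073741824 201326592 134217728 (corT true 1 c0F cA022R gF0q0 gF5q2 gF0q2 gF1q2 true true)) t 1 1 1 = true :=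
  ⟨(T.l 2), by decide +kernel⟩

def A022R_051_1_2_1 :
    ∃ t, chk3 (onCell 0 67108864 0 1073741824 201326592 134217728 (corT true 1 c0F cA022R gF0q0 gF5q2 gF1q2 gF2q2 true true)) t 1 2 1 = true :=
  ⟨(T.b (T.a (T.a (T.c (T.l 0) (T.l 0)) (T.a (T.c (T.l 0) (T.l 0)) (T.c (T.l 0) (T.l 0)))) (T.a (T.c (T.b (T.l 256) (T.l 0)) (T.l 0)) (T.c (T.l 256) (T.l 0)))) (T.b (T.b (T.a (T.a (T.c (T.l 816) (T.l 816)) (T.a (T.c (T.l 816) (T.l 816)) (T.c (T.l 0) (T.l 0)))) (T.a (T.c (T.l 0) (T.l 0)) (T.c (T.l 0) (T.l 0)))) (T.a (T.a (T.c (T.l 816) (T.l 816)) (T.a (T.c (T.l 816) (T.l 816)) (T.c (T.l 816) (T.l 816)))) (T.a (T.c (T.l 64) (T.l 0)) (T.c (T.l 0) (T.l 0))))) (T.b (T.a (T.a (T.c (T.l 816) (T.l 816)) (T.a (T.c (T.l 816) (T.l 816)) (T.c (T.l 816) (T.l 816)))) (T.a (T.c (T.c (T.l 0) (T.l 0)) (T.l 0)) (T.c (T.l 816) (T.l 816)))) (T.a (T.a (T.c (T.l 816)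 (T.l 816)) (T.a (T.c (T.l 816) (T.l 816)) (T.c (T.l 816) (T.l 816)))) (T.a (T.c (T.c (T.l 816) (T.l 816)) (T.l 816)) (T.c (T.l 880) (T.l 816))))))), by decide +kernel⟩

def A022R_051_1_3_1 :
    ∃ t, chk3 (onCell 0 67108864 0 1073741824 201326592 134217728 (corT true 1 c0F cA022R gF0q0 gF5q2 gF1q2 gF2q2 true true)) t 1 3 1 = true :=
  ⟨(T.b (T.b (T.b (T.a (T.a (T.c (T.l 816) (T.l 816)) (T.a (T.c (T.l 816) (T.l 816)) (T.c (T.l 816) (T.l 816)))) (T.b (T.a (T.c (T.c (T.l 816) (T.l 816)) (T.l 816)) (T.c (T.l 880) (T.l 816))) (T.a (T.c (T.c (T.l 816) (T.l 816)) (T.l 816)) (T.c (T.c (T.l 816) (T.l 816)) (T.l 816))))) (T.a (T.a (T.c (T.l 816) (T.l 816)) (T.a (T.c (T.l 816) (T.l 816)) (T.c (T.b (T.l 816) (T.l 880)) (T.l 816)))) (T.b (T.a (T.c (T.c (T.l 816) (T.l 816)) (T.l 816)) (T.c (T.c (T.l 816) (T.l 816)) (T.l 816))) (T.a (T.c (T.c (T.l 816) (T.l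 816)) (T.l 880)) (T.c (T.c (T.l 816) (T.l 816)) (T.l 816)))))) (T.b (T.a (T.b (T.a (T.c (T.l 816) (T.l 816)) (T.b (T.a (T.c (T.l 816) (T.l 816)) (T.c (T.l 880) (T.l 816))) (T.a (T.c (T.l 816) (T.l 816)) (T.c (T.c (T.l 816) (T.l 816)) (T.l 816))))) (T.a (T.c (T.l 816) (T.l 816)) (T.b (T.a (T.c (T.l 816) (T.l 816)) (T.c (T.c (T.l 816) (T.l 816)) (T.l 816))) (T.a (T.c (T.l 816) (T.l 816)) (T.l 2))))) (T.b (T.a (T.c (T.c (T.l 816) (T.l 816)) (T.c (T.l 816) (T.l 816))) (T.c (T.c (T.l 816) (T.l 816)) (T.l 816))) (T.l 2))) (T.a (T.a (T.c (T.l 816) (T.l 816)) (T.l 2)) (T.l 2)))) (T.l 2)), by decide +kernel⟩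

theorem A022R_051 :
    ∃ t, chk3 (onCell 0 67108864 0 1073741824 201326592 134217728 (corT true 1 c0F cA022R gF0q0 gF5q2 gF1q2 gF2q2 true true)) t 1 1 1 = true :=
  ex3_b A022R_051_1_2_1 A022R_051_1_3_1

def A022R_052 :
    ∃ t, chk3 (onCell 0 67108864 0 1073741824 201326592 134217728 (corT true 1 c0F cA022R gF0q0 gF5q2 gF2q2 gF3q2 true false)) t 1 1 1 = true :=
  ⟨(T.b (T.l 1) (T.b (T.b (T.b (T.l 1) (T.a (T.l 1) (T.b (T.l 1) (T.a (T.l 1) (T.c (T.l 816) (T.l 816)))))) (T.b (T.a (T.b (T.a (T.l 1) (T.c (T.c (T.l 816) (T.l 816)) (T.l 816))) (T.a (T.c (T.l 816) (T.l 816)) (T.c (T.c (T.l 816) (T.l 816)) (T.l 816)))) (T.c (T.a (T.l 880) (T.l 880)) (T.a (T.l 816) (T.l 816)))) (T.a (T.b (T.a (T.c (T.l 816) (T.l 816)) (T.c (T.c (T.l 816) (T.l 816)) (T.l 816))) (T.a (T.c (T.l 816) (T.l 816)) (T.c (T.c (T.l 816) (T.l 816)) (T.l 816)))) (T.c (T.c (T.a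 (T.l 816) (T.l 816)) (T.l 880)) (T.a (T.l 816) (T.l 816)))))) (T.b (T.b (T.a (T.b (T.a (T.c (T.l 816) (T.l 816)) (T.c (T.c (T.l 816) (T.l 816)) (T.l 880))) (T.a (T.c (T.l 816) (T.l 816)) (T.c (T.c (T.l 816) (T.l 816)) (T.c (T.l 816) (T.l 816))))) (T.c (T.c (T.a (T.l 816) (T.l 816)) (T.a (T.l 816) (T.l 816))) (T.a (T.l 816) (T.l 816)))) (T.a (T.a (T.c (T.c (T.l 816) (T.l 816)) (T.l 816)) (T.c (T.c (T.b (T.l 816) (T.l 880)) (T.l 816)) (T.c (T.l 816) (T.l 816)))) (T.c (T.c (T.a (T.l 816) (T.l 816)) (T.a (T.l 816) (T.l 816))) (T.a (T.l 816) (T.l 816))))) (T.a (T.a (T.c (T.c (T.l 816) (T.l 816)) (T.l 816)) (T.c (T.c (T.a (T.l 816) (T.l 816)) (T.a (T.l 816) (T.l 816))) (T.a (T.l 816) (T.l 816)))) (T.c (T.c (T.a (T.a (T.l 816) (T.l 816)) (T.a (T.l 816) (T.l 880))) (T.a (T.l 880) (T.l 880))) (T.a (T.c (T.l 816) (T.l 816)) (T.c (T.l 816) (T.l 816)))))))),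 by decide +kernel⟩

def A022R_150 :
    ∃ t, chk3 (onCell 0 67108864 0 1073741824 201326592 134217728 (corT true 1 c0F cA022R gF1q0 gF5q2 gF0q2 gF1q2 true true)) t 1 1 1 = true :=
  ⟨(T.b (T.l 2) (T.a (T.a (T.l 816) (T.l 2)) (T.l 2))), by decide +kernel⟩

def A022R_151 :
    ∃ t, chk3 (onCell 0 67108864 0 1073741824 201326592 134217728 (corT true 1 c0F cA022R gF1q0 gF5q2 gF1q2 gF2q2 true true)) t 1 1 1 = true :=
  ⟨(T.b (T.a (T.a (T.c (T.l 0) (T.l 0)) (T.c (T.a (T.l 0) (T.l 272)) (T.a (T.l 0) (T.l 0)))) (T.a (T.c (T.c (T.l 0) (T.l 0)) (T.l 0)) (T.c (T.b (T.l 0) (T.l 0)) (T.l 0)))) (T.a (T.a (T.l 816) (T.c (T.l 0) (T.l 0))) (T.c (T.l 0) (T.l 0)))), by decide +kernel⟩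

def A022R_152 :
    ∃ t, chk3 (onCell 0 67108864 0 1073741824 201326592 134217728 (corT true 1 c0F cA022R gF1q0 gF5q2 gF2q2 gF3q2 true false)) t 1 1 1 = true :=
  ⟨(T.l 1), by decide +kernel⟩

def A022R_250 :
    ∃ t, chk3 (onCell 0 67108864 0 1073741824 201326592 134217728 (corT true 1 c0F cA022R gF2q0 gF5q2 gF0q2 gF1q2 true true)) t 1 1 1 = true :=
  ⟨(T.b (T.b (T.l 2) (T.b (T.a (T.a (T.l 0) (T.l 0)) (T.a (T.b (T.l 2) (T.l 0)) (T.l 2))) (T.a (T.a (T.l 0) (T.l 0)) (T.a (T.l 0) (T.l 0))))) (T.b (T.a (T.a (T.l 0) (T.l 0)) (T.a (T.l 0) (T.l 0))) (T.a (T.a (T.l 816) (T.l 0)) (T.a (T.l 0) (T.l 0))))), by decide +kernel⟩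

def A022R_251 :
    ∃ t, chk3 (onCell 0 67108864 0 1073741824 201326592 134217728 (corT true 1 c0F cA022R gF2q0 gF5q2 gF1q2 gF2q2 true true)) t 1 1 1 = true :=
  ⟨(T.b (T.b (T.a (T.a (T.c (T.l 204) (T.l 204)) (T.a (T.c (T.l 204) (T.l 204)) (T.c (T.l 0) (T.l 0)))) (T.a (T.c (T.b (T.l 256) (T.l 0)) (T.l 0)) (T.c (T.b (T.l 204) (T.l 0)) (T.l 0)))) (T.a (T.a (T.l 0) (T.b (T.l 0) (T.l 1))) (T.c (T.l 0) (T.l 0)))) (T.b (T.a (T.l 1) (T.l 64)) (T.l 1))), by decide +kernel⟩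

def A022R_252 :
    ∃ t, chk3 (onCell 0 67108864 0 1073741824 201326592 134217728 (corT true 1 c0F cA022R gF2q0 gF5q2 gF2q2 gF3q2 true false)) t 1 1 1 = true :=
  ⟨(T.l 1), by decide +kernel⟩

def A101E_000 :
    ∃ t, chk3 (onCell 0 67108864 0 1073741824 201326592 134217728 (corT true 1 c0F cA101E gF0q1 gF0q0 gF0q1 gF1q1 true false)) t 1 1 1 = true :=
  ⟨(T.l 1), by decide +kernel⟩

def A101E_010 :
    ∃ t, chk3 (onCell 0 67108864 0 1073741824 201326592 134217728 (corT true 1 c0F cA101E gF0q1 gF1q0 gF0q1 gF1q1 true false)) t 1 1 1 = true :=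
  ⟨(T.l 1), by decide +kernel⟩

def A101E_020 :
    ∃ t, chk3 (onCell 0 67108864 0 1073741824 201326592 134217728 (corT true 1 c0F cA101E gF0q1 gF2q0 gF0q1 gF1q1 true false)) t 1 1 1 = true :=
  ⟨(T.b (T.l 1) (T.l 1)), by decide +kernel⟩

def A101R_002 :
    ∃ t, chk3 (onCell 0 67108864 0 1073741824 201326592 134217728 (corT true 1 c0F cA101R gF0q1 gF0q0 gF2q1 gF3q1 false true)) t 1 1 1 = true :=
  ⟨(T.l 2), by decide +kernel⟩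

def A101R_003 :
    ∃ t, chk3 (onCell 0 67108864 0 1073741824 201326592 134217728 (corT true 1 c0F cA101R gF0q1 gF0q0 gF3q1 gF4q1 true true)) t 1 1 1 = true :=
  ⟨(T.l 2), by decide +kernel⟩

def A101R_004 :
    ∃ t, chk3 (onCell 0 67108864 0 1073741824 201326592 134217728 (corT true 1 c0F cA101R gF0q1 gF0q0 gF4q1 gF5q1 true true)) t 1 1 1 = true :=
  ⟨(T.l 2), by decide +kernel⟩

def A101R_012 :
    ∃ t, chk3 (onCell 0 67108864 0 1073741824 201326592 134217728 (corT true 1 c0F cA101R gF0q1 gF1q0 gF2q1 gF3q1 false true)) t 1 1 1 = true :=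
  ⟨(T.l 2), by decide +kernel⟩

def A101R_013 :
    ∃ t, chk3 (onCell 0 67108864 0 1073741824 201326592 134217728 (corT true 1 c0F cA101R gF0q1 gF1q0 gF3q1 gF4q1 true true)) t 1 1 1 = true :=
  ⟨(T.l 2), by decide +kernel⟩

def A101R_014 :
    ∃ t, chk3 (onCell 0 67108864 0 1073741824 201326592 134217728 (corT true 1 c0F cA101R gF0q1 gF1q0 gF4q1 gF5q1 true true)) t 1 1 1 = true :=
  ⟨(T.l 2), by decide +kernel⟩

def A101R_022 :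
    ∃ t, chk3 (onCell 0 67108864 0 1073741824 201326592 134217728 (corT true 1 c0F cA101R gF0q1 gF2q0 gF2q1 gF3q1 false true)) t 1 1 1 = true :=
  ⟨(T.l 2), by decide +kernel⟩

def A101R_023 :
    ∃ t, chk3 (onCell 0 67108864 0 1073741824 201326592 134217728 (corT true 1 c0F cA101R gF0q1 gF2q0 gF3q1 gF4q1 true true)) t 1 1 1 = true :=
  ⟨(T.l 2), by decide +kernel⟩

def A101R_024 :
    ∃ t, chk3 (onCell 0 67108864 0 1073741824 201326592 134217728 (corT true 1 c0F cA101R gF0q1 gF2q0 gF4q1 gF5q1 true true)) t 1 1 1 = true :=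
  ⟨(T.l 2), by decide +kernel⟩

def A102E_000_1_4_1 :
    ∃ t, chk3 (onCell 0 67108864 0 1073741824 201326592 134217728 (corX 1 c0F cA102E tA102E gF0q1 gF0q0 gF0q2 gF1q2 gF0q2 true true)) t 1 4 1 = true :=
  ⟨(T.l 2), by decide +kernel⟩

def A102E_000_1_20_1 :
    ∃ t, chk3 (onCell 0 67108864 0 1073741824 201326592 134217728 (corX 1 c0F cA102E tA102E gF0q1 gF0q0 gF0q2 gF1q2 gF0q2 true true)) t 1 20 1 = true :=
  ⟨(T.l 2), by decide +kernel⟩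

def A102E_000_2_21_1 :
    ∃ t, chk3 (onCell 0 67108864 0 1073741824 201326592 134217728 (corX 1 c0F cA102E tA102E gF0q1 gF0q0 gF0q2 gF1q2 gF0q2 true true)) t 2 21 1 = true :=
  ⟨(T.c (T.a (T.c (T.a (T.b (T.b (T.l 2) (T.c (T.a (T.b (T.l 207) (T.l 207)) (T.l 207)) (T.a (T.l 207) (T.l 207)))) (T.c (T.a (T.c (T.b (T.l 207) (T.l 207)) (T.l 207)) (T.b (T.l 207) (T.l 207))) (T.a (T.b (T.l 207) (T.l 207)) (T.l 207)))) (T.b (T.b (T.l 2) (T.c (T.l 463) (T.l 207))) (T.c (T.b (T.l 463) (T.l 207)) (T.b (T.l 207) (T.l 207))))) (T.a (T.b (T.b (T.l 2) (T.c (T.a (T.l 207) (T.l 207)) (T.l 207))) (T.c (T.a (T.l 207) (T.l 207)) (T.b (T.l 207) (T.l 207)))) (T.a (T.c (T.l 207) (T.l 207)) (T.b (T.l 207) (T.l 207))))) (T.c (T.b (T.b (T.l 2) (T.a (T.c (T.l 207) (T.l 207)) (T.l 463))) (T.a (T.c (T.l 463) (T.l 207)) (T.b (T.l 463) (T.l 463)))) (T.a (T.a (T.b (T.l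 207) (T.l 207)) (T.l 463)) (T.b (T.l 463) (T.l 463))))) (T.a (T.c (T.a (T.a (T.c (T.b (T.l 207) (T.l 207)) (T.l 207)) (T.b (T.l 207) (T.l 207))) (T.a (T.b (T.l 207) (T.l 207)) (T.l 463))) (T.a (T.a (T.b (T.l 207) (T.l 207)) (T.b (T.l 207) (T.l 207))) (T.a (T.l 207) (T.l 207)))) (T.c (T.a (T.b (T.l 463) (T.l 207)) (T.b (T.l 207) (T.l 207))) (T.a (T.b (T.l 207) (T.l 207)) (T.b (T.l 207) (T.l 207)))))), by decide +kernel⟩

def A102E_000_3_21_1 :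
    ∃ t, chk3 (onCell 0 67108864 0 1073741824 201326592 134217728 (corX 1 c0F cA102E tA102E gF0q1 gF0q0 gF0q2 gF1q2 gF0q2 true true)) t 3 21 1 = true :=
  ⟨(T.b (T.a (T.a (T.b (T.l 2) (T.a (T.c (T.c (T.l 207) (T.l 207)) (T.l 207)) (T.l 2))) (T.l 2)) (T.l 2)) (T.a (T.a (T.c (T.c (T.l 463) (T.l 207)) (T.c (T.l 207) (T.l 207))) (T.c (T.c (T.a (T.l 207) (T.l 479)) (T.a (T.l 207) (T.l 207))) (T.a (T.l 207) (T.c (T.l 207) (T.l 207))))) (T.a (T.c (T.c (T.a (T.b (T.l 463) (T.l 479)) (T.c (T.l 463) (T.l 463))) (T.a (T.l 463) (T.b (T.l 463) (T.l 463)))) (T.c (T.a (T.l 463) (T.l 463)) (T.a (T.l 207) (T.l 207)))) (T.c (T.a (T.c (T.b (T.b (T.l 2) (T.c (T.l 463) (T.l 463))) (T.c (T.l 463) (T.l 463))) (T.b (T.b (T.l 2) (T.l 463)) (T.l 463))) (T.c (T.b (T.b (T.l 2) (T.c (T.a (T.l 460) (T.l 460)) (T.a (T.l 460) (T.l 460)))) (T.c (T.a (T.b (T.l 460) (T.l 207))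 (T.b (T.l 460) (T.l 460))) (T.a (T.l 460) (T.l 460)))) (T.b (T.b (T.l 2) (T.a (T.c (T.l 460) (T.l 460)) (T.c (T.l 460) (T.l 460)))) (T.a (T.c (T.l 460) (T.l 460)) (T.c (T.l 460) (T.l 460)))))) (T.a (T.b (T.b (T.l 2) (T.c (T.l 207) (T.l 207))) (T.c (T.l 463) (T.l 207))) (T.c (T.b (T.b (T.l 2) (T.c (T.l 460) (T.l 460))) (T.a (T.l 460) (T.l 460))) (T.b (T.a (T.l 460) (T.l 460)) (T.b (T.l 460) (T.l 460))))))))), by decide +kernel⟩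

def A102E_000_2_11_2 :
    ∃ t, chk3 (onCell 0 67108864 0 1073741824 201326592 134217728 (corX 1 c0F cA102E tA102E gF0q1 gF0q0 gF0q2 gF1q2 gF0q2 true true)) t 2 11 2 = true :=
  ⟨(T.b (T.a (T.c (T.b (T.a (T.c (T.a (T.c (T.b (T.l 207) (T.l 207)) (T.l 207)) (T.l 463)) (T.a (T.b (T.l 207) (T.l 207)) (T.l 207))) (T.c (T.b (T.l 207) (T.l 207)) (T.b (T.l 207) (T.l 207)))) (T.a (T.c (T.a (T.c (T.b (T.l 207) (T.l 207)) (T.l 207)) (T.l 463)) (T.a (T.b (T.l 207) (T.l 207)) (T.l 207))) (T.c (T.b (T.l 207) (T.l 207)) (T.b (T.l 207) (T.l 207))))) (T.b (T.a (T.c (T.a (T.l 207) (T.l 207)) (T.b (T.l 207) (T.l 207))) (T.c (T.l 463) (T.l 207))) (T.a (T.c (T.a (T.l 207) (T.l 207)) (T.b (T.l 207) (T.l 207))) (T.c (T.l 463) (T.l 207))))) (T.c (T.b (T.a (T.c (T.l 463) (T.l 207)) (T.b (T.l 463) (T.l 207))) (T.a (T.c (T.l 207) (T.l 207)) (T.b (T.l 207) (T.l 207))))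 (T.a (T.a (T.l 463) (T.l 207)) (T.b (T.l 207) (T.l 207))))) (T.a (T.b (T.c (T.a (T.c (T.a (T.c (T.b (T.l 207) (T.l 207)) (T.l 207)) (T.l 463)) (T.a (T.b (T.l 207) (T.l 207)) (T.l 207))) (T.c (T.b (T.l 207) (T.l 207)) (T.b (T.l 207) (T.l 207)))) (T.a (T.a (T.c (T.l 207) (T.l 207)) (T.b (T.l 463) (T.l 463))) (T.c (T.l 463) (T.l 207)))) (T.c (T.a (T.b (T.c (T.a (T.b (T.l 207) (T.l 207)) (T.l 207)) (T.a (T.l 207) (T.l 207))) (T.c (T.a (T.b (T.l 207) (T.l 207)) (T.l 207)) (T.a (T.l 207) (T.l 207)))) (T.c (T.b (T.l 207) (T.l 207)) (T.b (T.l 207) (T.l 207)))) (T.a (T.a (T.c (T.l 207) (T.l 207)) (T.b (T.l 463) (T.l 463))) (T.c (T.l 207) (T.l 207))))) (T.b (T.c (T.a (T.c (T.l 207) (T.l 207)) (T.l 463)) (T.a (T.l 463) (T.l 207))) (T.c (T.a (T.b (T.l 463) (T.l 463)) (T.l 463)) (T.a (T.l 463) (T.l 207)))))), by decide +kernel⟩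

def A102E_000_2_11_3 :
    ∃ t, chk3 (onCell 0 67108864 0 1073741824 201326592 134217728 (corX 1 c0F cA102E tA102E gF0q1 gF0q0 gF0q2 gF1q2 gF0q2 true true)) t 2 11 3 = true :=
  ⟨(T.b (T.a (T.b (T.c (T.a (T.a (T.b (T.l 207) (T.l 207)) (T.l 207)) (T.b (T.l 207) (T.l 207))) (T.a (T.c (T.l 207) (T.l 207)) (T.l 463))) (T.c (T.a (T.a (T.b (T.l 207) (T.l 207)) (T.l 207)) (T.b (T.l 207) (T.l 207))) (T.a (T.c (T.l 207) (T.l 207)) (T.l 207)))) (T.b (T.c (T.a (T.l 207) (T.l 207)) (T.a (T.l 207) (T.l 207))) (T.c (T.a (T.l 207) (T.l 207)) (T.a (T.l 207) (T.l 207))))) (T.a (T.b (T.c (T.a (T.a (T.b (T.l 207) (T.l 207)) (T.l 207)) (T.b (T.l 207) (T.l 207))) (T.a (T.a (T.l 207) (T.l 207)) (T.l 207))) (T.c (T.a (T.a (T.b (T.l 207) (T.l 207)) (T.l 207)) (T.b (T.l 207) (T.l 207))) (T.a (T.a (T.l 207) (T.l 207)) (T.l 207)))) (T.b (T.c (T.a (T.l 207) (T.l 207))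 (T.a (T.l 207) (T.l 207))) (T.c (T.a (T.l 207) (T.l 207)) (T.a (T.l 207) (T.l 207)))))), by decide +kernel⟩

def A102E_000_3_22_1 :
    ∃ t, chk3 (onCell 0 67108864 0 1073741824 201326592 134217728 (corX 1 c0F cA102E tA102E gF0q1 gF0q0 gF0q2 gF1q2 gF0q2 true true)) t 3 22 1 = true :=
  ⟨(T.a (T.c (T.c (T.a (T.b (T.l 463) (T.l 463)) (T.b (T.l 223) (T.l 223))) (T.a (T.b (T.l 207) (T.l 207)) (T.l 479))) (T.a (T.c (T.l 463) (T.l 207)) (T.b (T.l 463) (T.l 479)))) (T.a (T.c (T.b (T.c (T.a (T.b (T.l 223) (T.l 223)) (T.l 479)) (T.a (T.l 223) (T.l 463))) (T.c (T.a (T.b (T.l 223) (T.l 223)) (T.c (T.l 223) (T.l 223))) (T.a (T.l 223) (T.l 223)))) (T.b (T.a (T.c (T.l 207) (T.l 207)) (T.c (T.l 207) (T.l 207))) (T.c (T.b (T.l 223) (T.l 223)) (T.b (T.l 207) (T.l 207))))) (T.b (T.c (T.a (T.c (T.b (T.l 463) (T.l 479)) (T.l 463)) (T.c (T.b (T.a (T.l 463) (T.c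 (T.l 460) (T.l 460))) (T.l 479)) (T.b (T.a (T.l 207) (T.c (T.l 460) (T.l 460))) (T.l 463)))) (T.a (T.c (T.l 463) (T.l 207)) (T.b (T.a (T.l 463) (T.c (T.l 460) (T.l 460))) (T.c (T.l 207) (T.l 207))))) (T.c (T.c (T.a (T.b (T.l 479) (T.l 223)) (T.b (T.l 479) (T.l 479))) (T.b (T.l 479) (T.l 479))) (T.c (T.b (T.l 479) (T.l 479)) (T.l 479)))))), by decide +kernel⟩

def A102E_000_3_23_1 :
    ∃ t, chk3 (onCell 0 67108864 0 1073741824 201326592 134217728 (corX 1 c0F cA102E tA102E gF0q1 gF0q0 gF0q2 gF1q2 gF0q2 true true)) t 3 23 1 = true :=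
  ⟨(T.a (T.c (T.b (T.c (T.a (T.l 207) (T.l 223)) (T.a (T.l 207) (T.l 207))) (T.c (T.a (T.l 207) (T.l 223)) (T.a (T.l 207) (T.l 207)))) (T.a (T.c (T.l 207) (T.l 207)) (T.b (T.l 479) (T.l 479)))) (T.c (T.b (T.a (T.c (T.a (T.l 223) (T.c (T.l 223) (T.l 223))) (T.a (T.l 207) (T.l 223))) (T.c (T.b (T.a (T.c (T.l 223) (T.l 207)) (T.l 223)) (T.a (T.c (T.l 223) (T.l 223)) (T.c (T.l 223) (T.l 223)))) (T.a (T.b (T.l 223) (T.l 223)) (T.l 223)))) (T.a (T.c (T.c (T.l 223) (T.l 223)) (T.l 223)) (T.c (T.b (T.a (T.c (T.l 223) (T.l 223)) (T.c (T.l 223) (T.l 223))) (T.a (T.c (T.l 223) (T.l 223)) (T.c (T.b (T.l 223) (T.l 223)) (T.l 223)))) (T.b (T.a (T.l 223) (T.l 223)) (T.a (T.l 223) (T.c (T.l 223) (T.l 223))))))) (T.b (T.a (T.a (T.l 207) (T.c (T.l 223) (T.l 207))) (T.c (T.a (T.l 223) (T.l 223)) (T.b (T.l 223) (T.l 223)))) (T.a (T.c (T.l 207) (T.l 207)) (T.b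 (T.c (T.c (T.l 223) (T.l 223)) (T.l 223)) (T.c (T.c (T.l 223) (T.l 223)) (T.l 223))))))), by decide +kernel⟩

def A102E_000_2_48_1 :
    ∃ t, chk3 (onCell 0 67108864 0 1073741824 201326592 134217728 (corX 1 c0F cA102E tA102E gF0q1 gF0q0 gF0q2 gF1q2 gF0q2 true true)) t 2 48 1 = true :=
  ⟨(T.b (T.b (T.a (T.b (T.a (T.b (T.c (T.c (T.c (T.a (T.l 207) (T.l 207)) (T.l 207)) (T.c (T.l 207) (T.l 207))) (T.c (T.l 207) (T.l 207))) (T.a (T.l 1) (T.b (T.c (T.c (T.c (T.l 207) (T.l 207)) (T.l 207)) (T.c (T.l 207) (T.l 207))) (T.a (T.l 1) (T.a (T.l 1) (T.a (T.l 1) (T.a (T.l 1) (T.b (T.a (T.l 1) (T.b (T.a (T.l 1) (T.b (T.b (T.a (T.l 1) (T.a (T.l 1) (T.b (T.b (T.a (T.l 1) (T.b (T.a (T.l 1) (T.b (T.a (T.l 1) (T.a (T.l 1) (T.b (T.b (T.a (T.l 1) (T.b (T.b (T.c (T.c (T.l 207) (T.l 207)) (T.c (T.l 207) (T.l 207))) (T.l 1)) (T.l 1))) (T.l 1)) (T.l 1)))) (T.l 1)))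 (T.l 1))) (T.l 1)) (T.l 1)))) (T.l 1)) (T.l 1))) (T.l 1))) (T.l 1))))))))) (T.c (T.c (T.c (T.l 207) (T.l 207)) (T.l 207)) (T.c (T.l 207) (T.l 207)))) (T.a (T.l 1) (T.b (T.a (T.a (T.l 1) (T.b (T.c (T.c (T.l 207) (T.l 207)) (T.c (T.l 207) (T.l 207))) (T.l 1))) (T.c (T.c (T.l 207) (T.l 207)) (T.c (T.l 207) (T.l 207)))) (T.a (T.l 1) (T.a (T.l 1) (T.c (T.c (T.l 207) (T.l 207)) (T.l 463))))))) (T.c (T.c (T.a (T.l 207) (T.l 207)) (T.l 463)) (T.c (T.l 207) (T.l 207)))) (T.a (T.l 1) (T.b (T.a (T.a (T.l 1) (T.c (T.c (T.l 207) (T.l 207)) (T.l 207))) (T.c (T.c (T.l 207) (T.l 207)) (T.l 207))) (T.a (T.l 1) (T.c (T.c (T.l 207) (T.l 207)) (T.l 207)))))) (T.l 1)), by decide +kernel⟩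

def A102E_000_3_48_1 :
    ∃ t, chk3 (onCell 0 67108864 0 1073741824 201326592 134217728 (corX 1 c0F cA102E tA102E gF0q1 gF0q0 gF0q2 gF1q2 gF0q2 true true)) t 3 48 1 = true :=
  ⟨(T.a (T.b (T.c (T.c (T.a (T.l 207) (T.l 223)) (T.l 223)) (T.c (T.l 207) (T.l 207))) (T.a (T.l 1) (T.c (T.c (T.l 223) (T.l 207)) (T.l 223)))) (T.b (T.c (T.a (T.c (T.c (T.l 223) (T.l 223)) (T.l 223)) (T.c (T.a (T.c (T.l 223) (T.l 223)) (T.c (T.a (T.l 223) (T.l 223)) (T.l 223))) (T.a (T.l 223) (T.c (T.l 223) (T.l 223))))) (T.a (T.l 223) (T.c (T.c (T.l 223) (T.l 223)) (T.l 223)))) (T.b (T.a (T.c (T.c (T.l 223) (T.l 223)) (T.l 223)) (T.c (T.b (T.c (T.a (T.c (T.l 223) (T.l 223)) (T.c (T.l 223) (T.l 223))) (T.c (T.l 223) (T.l 223))) (T.c (T.a (T.c (T.l 223) (T.l 223)) (T.c (T.l 223) (T.l 223))) (T.c (T.l 223) (T.l 223)))) (T.c (T.c (T.l 223) (T.l 223)) (T.l 223)))) (T.a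 (T.l 1) (T.a (T.l 1) (T.a (T.l 1) (T.c (T.c (T.c (T.l 223) (T.l 223)) (T.l 223)) (T.l 223)))))))), by decide +kernel⟩

def A102E_000_1_49_1 :
    ∃ t, chk3 (onCell 0 67108864 0 1073741824 201326592 134217728 (corX 1 c0F cA102E tA102E gF0q1 gF0q0 gF0q2 gF1q2 gF0q2 true true)) t 1 49 1 = true :=
  ⟨(T.l 1), by decide +kernel⟩

def A102E_000_1_25_1 :
    ∃ t, chk3 (onCell 0 67108864 0 1073741824 201326592 134217728 (corX 1 c0F cA102E tA102E gF0q1 gF0q0 gF0q2 gF1q2 gF0q2 true true)) t 1 25 1 = true :=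
  ⟨(T.l 1), by decide +kernel⟩

def A102E_000_1_13_1 :
    ∃ t, chk3 (onCell 0 67108864 0 1073741824 201326592 134217728 (corX 1 c0F cA102E tA102E gF0q1 gF0q0 gF0q2 gF1q2 gF0q2 true true)) t 1 13 1 = true :=
  ⟨(T.l 1), by decide +kernel⟩

def A102E_000_1_7_1 :
    ∃ t, chk3 (onCell 0 67108864 0 1073741824 201326592 134217728 (corX 1 c0F cA102E tA102E gF0q1 gF0q0 gF0q2 gF1q2 gF0q2 true true)) t 1 7 1 = true :=
  ⟨(T.l 1), by decide +kernel⟩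

theorem A102E_000_1_48_1 :
    ∃ t, chk3 (onCell 0 67108864 0 1073741824 201326592 134217728 (corX 1 c0F cA102E tA102E gF0q1 gF0q0 gF0q2 gF1q2 gF0q2 true true)) t 1 48 1 = true :=
  ex3_a A102E_000_2_48_1 A102E_000_3_48_1
theorem A102E_000_1_24_1 :
    ∃ t, chk3 (onCell 0 67108864 0 1073741824 201326592 134217728 (corX 1 c0F cA102E tA102E gF0q1 gF0q0 gF0q2 gF1q2 gF0q2 true true)) t 1 24 1 = true :=
  ex3_b A102E_000_1_48_1 A102E_000_1_49_1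
theorem A102E_000_1_12_1 :
    ∃ t, chk3 (onCell 0 67108864 0 1073741824 201326592 134217728 (corX 1 c0F cA102E tA102E gF0q1 gF0q0 gF0q2 gF1q2 gF0q2 true true)) t 1 12 1 = true :=
  ex3_b A102E_000_1_24_1 A102E_000_1_25_1
theorem A102E_000_1_6_1 :
    ∃ t, chk3 (onCell 0 67108864 0 1073741824 201326592 134217728 (corX 1 c0F cA102E tA102E gF0q1 gF0q0 gF0q2 gF1q2 gF0q2 true true)) t 1 6 1 = true :=
  ex3_b A102E_000_1_12_1 A102E_000_1_13_1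
theorem A102E_000_1_3_1 :
    ∃ t, chk3 (onCell 0 67108864 0 1073741824 201326592 134217728 (corX 1 c0F cA102E tA102E gF0q1 gF0q0 gF0q2 gF1q2 gF0q2 true true)) t 1 3 1 = true :=
  ex3_b A102E_000_1_6_1 A102E_000_1_7_1
theorem A102E_000_3_11_1 :
    ∃ t, chk3 (onCell 0 67108864 0 1073741824 201326592 134217728 (corX 1 c0F cA102E tA102E gF0q1 gF0q0 gF0q2 gF1q2 gF0q2 true true)) t 3 11 1 = true :=
  ex3_b A102E_000_3_22_1 A102E_000_3_23_1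
theorem A102E_000_2_11_1 :
    ∃ t, chk3 (onCell 0 67108864 0 1073741824 201326592 134217728 (corX 1 c0F cA102E tA102E gF0q1 gF0q0 gF0q2 gF1q2 gF0q2 true true)) t 2 11 1 = true :=
  ex3_c A102E_000_2_11_2 A102E_000_2_11_3
theorem A102E_000_1_11_1 :
    ∃ t, chk3 (onCell 0 67108864 0 1073741824 201326592 134217728 (corX 1 c0F cA102E tA102E gF0q1 gF0q0 gF0q2 gF1q2 gF0q2 true true)) t 1 11 1 = true :=
  ex3_a A102E_000_2_11_1 A102E_000_3_11_1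
theorem A102E_000_1_21_1 :
    ∃ t, chk3 (onCell 0 67108864 0 1073741824 201326592 134217728 (corX 1 c0F cA102E tA102E gF0q1 gF0q0 gF0q2 gF1q2 gF0q2 true true)) t 1 21 1 = true :=
  ex3_a A102E_000_2_21_1 A102E_000_3_21_1
theorem A102E_000_1_10_1 :
    ∃ t, chk3 (onCell 0 67108864 0 1073741824 201326592 134217728 (corX 1 c0F cA102E tA102E gF0q1 gF0q0 gF0q2 gF1q2 gF0q2 true true)) t 1 10 1 = true :=
  ex3_b A102E_000_1_20_1 A102E_000_1_21_1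
theorem A102E_000_1_5_1 :
    ∃ t, chk3 (onCell 0 67108864 0 1073741824 201326592 134217728 (corX 1 c0F cA102E tA102E gF0q1 gF0q0 gF0q2 gF1q2 gF0q2 true true)) t 1 5 1 = true :=
  ex3_b A102E_000_1_10_1 A102E_000_1_11_1
theorem A102E_000_1_2_1 :
    ∃ t, chk3 (onCell 0 67108864 0 1073741824 201326592 134217728 (corX 1 c0F cA102E tA102E gF0q1 gF0q0 gF0q2 gF1q2 gF0q2 true true)) t 1 2 1 = true :=
  ex3_b A102E_000_1_4_1 A102E_000_1_5_1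
theorem A102E_000 :
    ∃ t, chk3 (onCell 0 67108864 0 1073741824 201326592 134217728 (corX 1 c0F cA102E tA102E gF0q1 gF0q0 gF0q2 gF1q2 gF0q2 true true)) t 1 1 1 = true :=
  ex3_b A102E_000_1_2_1 A102E_000_1_3_1

def A102E_001_1_16_1 :
    ∃ t, chk3 (onCell 0 67108864 0 1073741824 201326592 134217728 (corT true 1 c0F cA102E gF0q1 gF0q0 gF1q2 gF2q2 true true)) t 1 16 1 = true :=
  ⟨(T.l 2), by decide +kernel⟩

def A102E_001_1_34_1 :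
    ∃ t, chk3 (onCell 0 67108864 0 1073741824 201326592 134217728 (corT true 1 c0F cA102E gF0q1 gF0q0 gF1q2 gF2q2 true true)) t 1 34 1 = true :=
  ⟨(T.a (T.b (T.l 2) (T.b (T.l 2) (T.b (T.l 2) (T.a (T.c (T.c (T.l 204) (T.l 204)) (T.l 204)) (T.b (T.l 2) (T.a (T.c (T.c (T.l 204) (T.l 204)) (T.c (T.l 204) (T.l 204))) (T.a (T.a (T.a (T.b (T.l 2) (T.b (T.l 2) (T.b (T.l 2) (T.b (T.l 2) (T.c (T.c (T.l 204) (T.l 204)) (T.c (T.l 204) (T.l 204))))))) (T.l 2)) (T.l 2)) (T.l 2)))))))) (T.l 2)), by decide +kernel⟩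

def A102E_001_2_35_1 :
    ∃ t, chk3 (onCell 0 67108864 0 1073741824 201326592 134217728 (corT true 1 c0F cA102E gF0q1 gF0q0 gF1q2 gF2q2 true true)) t 2 35 1 = true :=
  ⟨(T.c (T.c (T.a (T.l 204) (T.c (T.l 204) (T.l 204))) (T.c (T.a (T.l 204) (T.l 204)) (T.l 220))) (T.c (T.a (T.l 204) (T.l 204)) (T.l 220))), by decide +kernel⟩

def A102E_001_6_280_1 :
    ∃ t, chk3 (onCell 0 67108864 0 1073741824 201326592 134217728 (corT true 1 c0F cA102E gF0q1 gF0q0 gF1q2 gF2q2 true true)) t 6 280 1 = true :=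
  ⟨(T.b (T.a (T.b (T.a (T.a (T.a (T.b (T.l 2) (T.b (T.l 2) (T.b (T.l 2) (T.c (T.c (T.c (T.l 204) (T.l 204)) (T.l 204)) (T.c (T.l 204) (T.l 204)))))) (T.l 2)) (T.l 2)) (T.l 2)) (T.c (T.a (T.b (T.c (T.a (T.c (T.l 220) (T.l 204)) (T.c (T.l 204) (T.l 204))) (T.a (T.c (T.l 204) (T.l 204)) (T.c (T.l 204) (T.l 204)))) (T.c (T.c (T.a (T.l 204) (T.l 204)) (T.a (T.l 204) (T.l 204))) (T.a (T.c (T.l 204) (T.l 204)) (T.c (T.l 204) (T.l 204))))) (T.b (T.a (T.c (T.c (T.l 204) (T.l 204)) (T.l 220)) (T.l 2)) (T.c (T.c (T.l 220) (T.l 204)) (T.c (T.l 204) (T.l 204))))) (T.a (T.c (T.a (T.l 204) (T.l 204)) (T.c (T.l 220) (T.l 204))) (T.c (T.l 220) (T.l 204))))) (T.l 2)) (T.a (T.b (T.c (T.a (T.c (T.c (T.a (T.l 204) (T.l 204)) (T.a (T.l 204) (T.l 204))) (T.a (T.c (T.l 204) (T.l 204)) (T.c (T.l 204) (T.l 204)))) (T.c (T.c (T.l 220) (T.l 220)) (T.c (T.l 204) (T.l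 204)))) (T.a (T.c (T.a (T.l 204) (T.l 204)) (T.c (T.l 220) (T.l 204))) (T.c (T.l 220) (T.l 204)))) (T.c (T.a (T.c (T.a (T.c (T.l 204) (T.l 204)) (T.c (T.l 204) (T.l 204))) (T.a (T.l 220) (T.c (T.l 204) (T.l 204)))) (T.c (T.c (T.l 220) (T.l 220)) (T.c (T.l 204) (T.l 204)))) (T.a (T.c (T.a (T.l 204) (T.l 204)) (T.c (T.l 220) (T.l 204))) (T.c (T.l 220) (T.l 204))))) (T.b (T.c (T.a (T.c (T.c (T.l 204) (T.l 204)) (T.l 220)) (T.c (T.c (T.l 204) (T.l 204)) (T.l 204))) (T.c (T.a (T.l 204) (T.l 204)) (T.c (T.l 204) (T.l 204)))) (T.c (T.a (T.c (T.c (T.l 204) (T.l 204)) (T.l 220)) (T.c (T.c (T.l 204) (T.l 204)) (T.l 204))) (T.c (T.a (T.l 204) (T.l 204)) (T.c (T.l 204) (T.l 204))))))), by decide +kernel⟩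

def A102E_001_7_280_1 :
    ∃ t, chk3 (onCell 0 67108864 0 1073741824 201326592 134217728 (corT true 1 c0F cA102E gF0q1 gF0q0 gF1q2 gF2q2 true true)) t 7 280 1 = true :=
  ⟨(T.a (T.b (T.l 2) (T.b (T.l 2) (T.c (T.a (T.c (T.c (T.l 204) (T.l 204)) (T.l 204)) (T.c (T.c (T.l 204) (T.l 204)) (T.l 204))) (T.c (T.l 220) (T.l 204))))) (T.l 2)), by decide +kernel⟩

def A102E_001_6_281_1 :
    ∃ t, chk3 (onCell 0 67108864 0 1073741824 201326592 134217728 (corT true 1 c0F cA102E gF0q1 gF0q0 gF1q2 gF2q2 true true)) t 6 281 1 = true :=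
  ⟨(T.b (T.a (T.b (T.c (T.a (T.c (T.a (T.c (T.l 204) (T.l 204)) (T.c (T.l 220) (T.l 204))) (T.a (T.l 220) (T.c (T.l 204) (T.l 204)))) (T.c (T.c (T.l 220) (T.l 220)) (T.c (T.l 204) (T.l 204)))) (T.a (T.c (T.a (T.l 204) (T.l 204)) (T.c (T.l 220) (T.l 204))) (T.c (T.l 220) (T.l 204)))) (T.c (T.a (T.c (T.a (T.c (T.l 204) (T.l 204)) (T.c (T.l 220) (T.l 204))) (T.a (T.l 220) (T.c (T.l 204) (T.l 204)))) (T.c (T.c (T.l 220) (T.l 220)) (T.c (T.l 204) (T.l 204)))) (T.a (T.c (T.a (T.l 204) (T.l 204)) (T.c (T.l 220) (T.l 204))) (T.c (T.l 220) (T.l 204))))) (T.b (T.c (T.c (T.a (T.c (T.l 204) (T.l 204)) (T.c (T.l 204) (T.l 204))) (T.a (T.l 220) (T.l 204))) (T.c (T.a (T.l 204) (T.l 204)) (T.c (T.l 204) (T.l 204)))) (T.c (T.c (T.a (T.c (T.l 204) (T.l 204)) (T.c (T.l 204) (T.l 204))) (T.a (T.l 220) (T.l 204))) (T.c (T.a (T.l 204) (T.l 204)) (T.c (T.l 204)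 (T.l 204)))))) (T.a (T.b (T.c (T.c (T.a (T.a (T.c (T.l 204) (T.l 204)) (T.c (T.l 220) (T.l 204))) (T.c (T.l 220) (T.l 220))) (T.a (T.a (T.l 220) (T.c (T.l 204) (T.l 204))) (T.c (T.l 204) (T.l 204)))) (T.a (T.c (T.a (T.l 204) (T.l 204)) (T.c (T.l 220) (T.l 204))) (T.c (T.l 220) (T.l 204)))) (T.c (T.c (T.a (T.a (T.c (T.l 204) (T.l 204)) (T.c (T.l 220) (T.l 204))) (T.c (T.l 220) (T.l 220))) (T.a (T.a (T.l 220) (T.c (T.l 204) (T.l 204))) (T.c (T.l 204) (T.l 204)))) (T.a (T.c (T.a (T.l 204) (T.l 204)) (T.c (T.l 220) (T.l 204))) (T.c (T.l 220) (T.l 204))))) (T.c (T.c (T.a (T.c (T.l 204) (T.l 204)) (T.c (T.l 204) (T.l 204))) (T.a (T.l 220) (T.l 204))) (T.c (T.a (T.l 204) (T.l 204)) (T.c (T.l 220) (T.l 204)))))), by decide +kernel⟩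

def A102E_001_7_281_1 :
    ∃ t, chk3 (onCell 0 67108864 0 1073741824 201326592 134217728 (corT true 1 c0F cA102E gF0q1 gF0q0 gF1q2 gF2q2 true true)) t 7 281 1 = true :=
  ⟨(T.b (T.a (T.b (T.c (T.c (T.c (T.a (T.l 204) (T.l 204)) (T.l 220)) (T.c (T.l 220) (T.l 204))) (T.c (T.l 220) (T.l 204))) (T.c (T.c (T.c (T.a (T.l 204) (T.l 204)) (T.l 220)) (T.c (T.l 220) (T.l 204))) (T.c (T.l 220) (T.l 204)))) (T.b (T.a (T.c (T.c (T.c (T.l 204) (T.l 204)) (T.l 204)) (T.c (T.l 204) (T.l 204))) (T.l 2)) (T.a (T.c (T.c (T.c (T.l 204) (T.l 204)) (T.l 204)) (T.c (T.l 204) (T.l 204))) (T.c (T.c (T.c (T.l 204) (T.l 204)) (T.l 204)) (T.c (T.l 204) (T.l 204)))))) (T.a (T.c (T.c (T.c (T.a (T.l 204) (T.l 204)) (T.l 220)) (T.c (T.l 220) (T.l 204))) (T.c (T.l 220) (T.l 204))) (T.c (T.c (T.c (T.a (T.l 204) (T.l 204)) (T.l 220)) (T.c (T.l 204) (T.l 204))) (T.c (T.l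 204) (T.l 204))))), by decide +kernel⟩

def A102E_001_3_282_1 :
    ∃ t, chk3 (onCell 0 67108864 0 1073741824 201326592 134217728 (corT true 1 c0F cA102E gF0q1 gF0q0 gF1q2 gF2q2 true true)) t 3 282 1 = true :=
  ⟨(T.a (T.b (T.a (T.b (T.c (T.c (T.a (T.a (T.c (T.l 204) (T.l 204)) (T.c (T.l 220) (T.l 204))) (T.c (T.l 220) (T.l 220))) (T.a (T.a (T.l 220) (T.c (T.l 204) (T.l 204))) (T.c (T.l 204) (T.l 204)))) (T.a (T.c (T.a (T.l 204) (T.l 204)) (T.c (T.l 220) (T.l 204))) (T.c (T.l 220) (T.l 204)))) (T.c (T.c (T.a (T.a (T.c (T.l 204) (T.l 204)) (T.c (T.l 220) (T.l 204))) (T.c (T.l 220) (T.l 220))) (T.a (T.a (T.l 220) (T.c (T.l 204) (T.l 204))) (T.c (T.l 204) (T.l 204)))) (T.a (T.c (T.a (T.l 204) (T.l 204)) (T.c (T.l 220) (T.l 204))) (T.c (T.l 220) (T.l 204))))) (T.c (T.c (T.a (T.c (T.l 204) (T.l 204)) (T.c (T.l 204) (T.l 204))) (T.a (T.l 220) (T.l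 204))) (T.c (T.a (T.l 204) (T.l 204)) (T.c (T.l 220) (T.l 204))))) (T.a (T.c (T.c (T.a (T.a (T.c (T.l 204) (T.l 204)) (T.c (T.l 220) (T.l 204))) (T.c (T.l 220) (T.l 220))) (T.a (T.a (T.l 220) (T.c (T.l 204) (T.l 204))) (T.c (T.l 204) (T.l 204)))) (T.a (T.c (T.a (T.l 204) (T.l 220)) (T.c (T.l 220) (T.l 204))) (T.c (T.l 220) (T.l 204)))) (T.c (T.c (T.a (T.c (T.l 204) (T.l 204)) (T.c (T.l 204) (T.l 204))) (T.a (T.l 220) (T.l 204))) (T.c (T.a (T.l 204) (T.l 204)) (T.c (T.l 220) (T.l 204)))))) (T.b (T.a (T.c (T.c (T.c (T.a (T.l 204) (T.l 204)) (T.l 220)) (T.c (T.l 220) (T.l 204))) (T.c (T.l 220) (T.l 204))) (T.c (T.c (T.c (T.a (T.l 204) (T.l 204)) (T.l 220)) (T.c (T.l 204) (T.l 204))) (T.c (T.l 204) (T.l 204)))) (T.a (T.c (T.c (T.c (T.a (T.l 204) (T.l 204)) (T.l 220)) (T.c (T.l 220) (T.l 204))) (T.c (T.l 220) (T.l 204))) (T.c (T.c (T.c (T.a (T.l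 204) (T.l 204)) (T.l 220)) (T.c (T.l 220) (T.l 204))) (T.c (T.l 204) (T.l 204)))))), by decide +kernel⟩

def A102E_001_3_283_1 :
    ∃ t, chk3 (onCell 0 67108864 0 1073741824 201326592 134217728 (corT true 1 c0F cA102E gF0q1 gF0q0 gF1q2 gF2q2 true true)) t 3 283 1 = true :=
  ⟨(T.a (T.b (T.a (T.c (T.c (T.a (T.a (T.c (T.l 204) (T.l 204)) (T.c (T.l 220) (T.l 204))) (T.c (T.l 220) (T.l 220))) (T.a (T.a (T.l 204) (T.c (T.l 204) (T.l 204))) (T.c (T.l 204) (T.l 204)))) (T.a (T.c (T.a (T.l 204) (T.l 220)) (T.c (T.l 220) (T.l 204))) (T.c (T.l 220) (T.l 204)))) (T.c (T.c (T.a (T.c (T.l 204) (T.l 204)) (T.c (T.l 204) (T.l 204))) (T.a (T.l 220) (T.l 204))) (T.c (T.a (T.l 204) (T.l 204)) (T.c (T.l 220) (T.l 204))))) (T.a (T.c (T.c (T.a (T.a (T.c (T.l 204) (T.l 204)) (T.c (T.l 220) (T.l 204))) (T.c (T.l 220) (T.l 220))) (T.a (T.a (T.l 204) (T.c (T.l 204)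 (T.l 204))) (T.c (T.l 204) (T.l 204)))) (T.a (T.c (T.a (T.l 204) (T.l 220)) (T.c (T.l 204) (T.l 204))) (T.c (T.l 220) (T.l 204)))) (T.c (T.c (T.a (T.c (T.l 204) (T.l 204)) (T.c (T.l 204) (T.l 204))) (T.a (T.l 220) (T.l 204))) (T.c (T.a (T.l 204) (T.l 204)) (T.c (T.l 220) (T.l 204)))))) (T.c (T.a (T.c (T.c (T.a (T.l 204) (T.l 204)) (T.a (T.l 204) (T.l 204))) (T.c (T.l 220) (T.l 204))) (T.c (T.c (T.a (T.l 204) (T.l 204)) (T.l 220)) (T.c (T.l 220) (T.l 204)))) (T.a (T.c (T.c (T.l 204) (T.l 204)) (T.l 204)) (T.c (T.l 220) (T.l 204))))), by decide +kernel⟩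

def A102E_001_3_284_1 :
    ∃ t, chk3 (onCell 0 67108864 0 1073741824 201326592 134217728 (corT true 1 c0F cA102E gF0q1 gF0q0 gF1q2 gF2q2 true true)) t 3 284 1 = true :=
  ⟨(T.a (T.b (T.a (T.c (T.c (T.a (T.c (T.a (T.l 204) (T.l 220)) (T.a (T.l 204) (T.l 204))) (T.c (T.l 220) (T.l 220))) (T.a (T.a (T.l 204) (T.c (T.l 204) (T.l 204))) (T.c (T.l 204) (T.l 204)))) (T.a (T.c (T.a (T.l 204) (T.l 220)) (T.c (T.l 204) (T.l 204))) (T.c (T.l 220) (T.l 204)))) (T.c (T.c (T.a (T.c (T.l 204) (T.l 204)) (T.c (T.l 204) (T.l 204))) (T.a (T.l 220) (T.l 204))) (T.c (T.a (T.l 204) (T.l 204)) (T.c (T.l 220) (T.l 204))))) (T.a (T.c (T.c (T.a (T.c (T.a (T.l 204) (T.l 220)) (T.a (T.l 204) (T.l 220))) (T.c (T.l 220) (T.l 220))) (T.a (T.a (T.l 204) (T.c (T.l 204) (T.l 204))) (T.c (T.l 204) (T.l 204)))) (T.a (T.c (T.a (T.l 204) (T.l 220)) (T.c (T.l 204) (T.l 204)))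 (T.c (T.l 220) (T.l 204)))) (T.c (T.c (T.a (T.c (T.l 204) (T.l 204)) (T.c (T.l 204) (T.l 204))) (T.a (T.l 220) (T.l 204))) (T.c (T.a (T.l 204) (T.l 204)) (T.c (T.l 220) (T.l 204)))))) (T.c (T.a (T.c (T.c (T.a (T.l 204) (T.l 204)) (T.a (T.l 204) (T.l 204))) (T.c (T.l 220) (T.l 204))) (T.c (T.c (T.a (T.l 204) (T.l 204)) (T.l 220)) (T.c (T.l 220) (T.l 204)))) (T.a (T.c (T.c (T.l 204) (T.l 204)) (T.l 204)) (T.c (T.l 220) (T.l 204))))), by decide +kernel⟩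

def A102E_001_3_285_1 :
    ∃ t, chk3 (onCell 0 67108864 0 1073741824 201326592 134217728 (corT true 1 c0F cA102E gF0q1 gF0q0 gF1q2 gF2q2 true true)) t 3 285 1 = true :=
  ⟨(T.a (T.b (T.a (T.c (T.c (T.a (T.c (T.a (T.l 204) (T.l 220)) (T.a (T.l 204) (T.l 220))) (T.c (T.l 220) (T.l 220))) (T.a (T.a (T.l 204) (T.c (T.l 204) (T.l 204))) (T.c (T.l 204) (T.l 204)))) (T.a (T.c (T.a (T.l 204) (T.l 220)) (T.c (T.l 204) (T.l 204))) (T.c (T.l 220) (T.l 204)))) (T.c (T.c (T.a (T.c (T.l 204) (T.l 204)) (T.c (T.l 204) (T.l 204))) (T.a (T.l 220) (T.l 204))) (T.c (T.a (T.l 204) (T.l 204)) (T.c (T.l 220) (T.l 204))))) (T.a (T.c (T.c (T.a (T.c (T.a (T.l 204) (T.l 220)) (T.a (T.l 204) (T.l 220))) (T.c (T.l 220) (T.l 220))) (T.a (T.a (T.l 204) (T.c (T.l 204) (T.l 204))) (T.c (T.l 204) (T.l 204)))) (T.a (T.c (T.a (T.l 204) (T.l 220)) (T.c (T.l 204) (T.l 204)))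 (T.c (T.l 220) (T.l 204)))) (T.c (T.c (T.a (T.c (T.l 204) (T.l 204)) (T.c (T.l 204) (T.l 204))) (T.a (T.l 220) (T.l 204))) (T.c (T.a (T.l 204) (T.l 204)) (T.c (T.l 220) (T.l 204)))))) (T.c (T.a (T.c (T.c (T.a (T.l 204) (T.l 204)) (T.a (T.l 204) (T.l 204))) (T.c (T.l 220) (T.l 204))) (T.c (T.c (T.a (T.l 204) (T.l 204)) (T.l 220)) (T.c (T.l 220) (T.l 204)))) (T.a (T.c (T.c (T.l 204) (T.l 204)) (T.l 204)) (T.c (T.l 220) (T.l 204))))), by decide +kernel⟩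

def A102E_001_3_143_1 :
    ∃ t, chk3 (onCell 0 67108864 0 1073741824 201326592 134217728 (corT true 1 c0F cA102E gF0q1 gF0q0 gF1q2 gF2q2 true true)) t 3 143 1 = true :=
  ⟨(T.b (T.a (T.a (T.c (T.c (T.a (T.a (T.c (T.l 204) (T.l 204)) (T.c (T.l 220) (T.l 220))) (T.c (T.c (T.l 220) (T.l 204)) (T.l 220))) (T.a (T.a (T.l 204) (T.c (T.l 204) (T.l 204))) (T.c (T.l 204) (T.l 204)))) (T.a (T.c (T.a (T.l 204) (T.l 220)) (T.c (T.l 204) (T.l 204))) (T.c (T.c (T.l 204) (T.l 204)) (T.l 204)))) (T.c (T.c (T.a (T.c (T.l 204) (T.l 204)) (T.c (T.l 204) (T.l 204))) (T.a (T.c (T.l 204) (T.l 204)) (T.l 220))) (T.c (T.a (T.l 204) (T.l 204)) (T.c (T.l 220) (T.l 220))))) (T.c (T.a (T.c (T.c (T.a (T.l 204) (T.l 204)) (T.a (T.l 204) (T.l 204))) (T.c (T.l 220) (T.l 204))) (T.c (T.c (T.a (T.l 204) (T.l 220)) (T.l 220)) (T.c (T.l 220) (T.l 204)))) (T.a (T.c (T.c (T.l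 204) (T.l 204)) (T.l 204)) (T.c (T.l 220) (T.l 204))))) (T.a (T.c (T.a (T.c (T.a (T.c (T.a (T.l 204) (T.l 220)) (T.a (T.l 204) (T.l 220))) (T.c (T.c (T.l 220) (T.l 204)) (T.l 220))) (T.a (T.a (T.l 204) (T.c (T.l 204) (T.l 204))) (T.c (T.l 220) (T.l 204)))) (T.c (T.a (T.c (T.l 204) (T.l 204)) (T.c (T.l 204) (T.l 204))) (T.a (T.c (T.l 204) (T.l 204)) (T.l 220)))) (T.a (T.a (T.c (T.a (T.l 204) (T.l 220)) (T.c (T.l 204) (T.l 204))) (T.c (T.c (T.l 204) (T.l 204)) (T.l 204))) (T.c (T.a (T.l 204) (T.l 204)) (T.c (T.l 220) (T.l 220))))) (T.c (T.a (T.c (T.c (T.a (T.l 204) (T.l 204)) (T.a (T.l 204) (T.l 204))) (T.c (T.l 220) (T.l 204))) (T.c (T.c (T.a (T.l 204) (T.l 220)) (T.l 220)) (T.c (T.l 220) (T.l 204)))) (T.a (T.c (T.c (T.l 204) (T.l 204)) (T.l 204)) (T.c (T.l 220) (T.l 204)))))), by decide +kernel⟩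

def A102E_001_2_9_1 :
    ∃ t, chk3 (onCell 0 67108864 0 1073741824 201326592 134217728 (corT true 1 c0F cA102E gF0q1 gF0q0 gF1q2 gF2q2 true true)) t 2 9 1 = true :=
  ⟨(T.c (T.c (T.b (T.a (T.l 204) (T.c (T.b (T.l 204) (T.l 204)) (T.l 220))) (T.b (T.c (T.l 220) (T.l 204)) (T.c (T.l 204) (T.l 204)))) (T.b (T.a (T.l 204) (T.c (T.l 220) (T.l 204))) (T.b (T.a (T.l 204) (T.l 204)) (T.a (T.l 204) (T.l 204))))) (T.b (T.c (T.a (T.l 204) (T.b (T.l 204) (T.l 204))) (T.a (T.l 204) (T.l 204))) (T.c (T.a (T.l 204) (T.l 204)) (T.a (T.l 204) (T.l 204))))), by decide +kernel⟩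

def A102E_001_12_9_1 :
    ∃ t, chk3 (onCell 0 67108864 0 1073741824 201326592 134217728 (corT true 1 c0F cA102E gF0q1 gF0q0 gF1q2 gF2q2 true true)) t 12 9 1 = true :=
  ⟨(T.c (T.b (T.a (T.c (T.b (T.a (T.c (T.l 204) (T.l 204)) (T.c (T.b (T.b (T.l 220) (T.l 220)) (T.l 220)) (T.a (T.l 204) (T.l 220)))) (T.c (T.l 204) (T.l 204))) (T.b (T.a (T.l 220) (T.a (T.l 220) (T.c (T.l 220) (T.l 204)))) (T.l 220))) (T.c (T.b (T.c (T.a (T.b (T.l 220) (T.l 220)) (T.l 220)) (T.a (T.b (T.l 204) (T.l 220)) (T.l 220))) (T.a (T.c (T.b (T.b (T.l 220) (T.l 220)) (T.l 220)) (T.b (T.l 220) (T.l 220))) (T.c (T.l 220) (T.l 220)))) (T.b (T.a (T.c (T.b (T.l 204) (T.l 204)) (T.l 220)) (T.c (T.l 204) (T.l 204))) (T.a (T.c (T.b (T.l 204) (T.l 204)) (T.l 220)) (T.b (T.l 220) (T.l 220)))))) (T.a (T.c (T.c (T.l 204) (T.l 204)) (T.l 220)) (T.c (T.b (T.c (T.a (T.b (T.l 220) (T.l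 204)) (T.b (T.l 220) (T.l 220))) (T.a (T.l 220) (T.b (T.l 204) (T.l 204)))) (T.b (T.a (T.l 220) (T.c (T.l 220) (T.l 204))) (T.l 220))) (T.b (T.a (T.c (T.l 220) (T.l 204)) (T.c (T.l 220) (T.l 220))) (T.a (T.l 204) (T.b (T.l 220) (T.l 204))))))) (T.b (T.a (T.b (T.c (T.a (T.l 204) (T.c (T.l 220) (T.l 204))) (T.a (T.l 204) (T.b (T.l 204) (T.l 204)))) (T.c (T.l 204) (T.l 204))) (T.c (T.b (T.a (T.b (T.l 220) (T.l 220)) (T.l 220)) (T.a (T.b (T.l 220) (T.l 220)) (T.l 220))) (T.b (T.a (T.l 220) (T.l 204)) (T.a (T.l 220) (T.l 204))))) (T.a (T.c (T.l 204) (T.l 204)) (T.c (T.b (T.a (T.l 220) (T.b (T.l 204) (T.l 204))) (T.a (T.l 204) (T.l 220))) (T.b (T.a (T.l 204) (T.l 204)) (T.b (T.l 204) (T.l 204))))))), by decide +kernel⟩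

def A102E_001_13_9_1 :
    ∃ t, chk3 (onCell 0 67108864 0 1073741824 201326592 134217728 (corT true 1 c0F cA102E gF0q1 gF0q0 gF1q2 gF2q2 true true)) t 13 9 1 = true :=
  ⟨(T.c (T.b (T.c (T.a (T.b (T.c (T.b (T.l 220) (T.l 220)) (T.b (T.l 220) (T.l 220))) (T.c (T.b (T.l 220) (T.l 220)) (T.b (T.l 220) (T.l 220)))) (T.b (T.c (T.b (T.l 220) (T.l 220)) (T.b (T.l 204) (T.l 204))) (T.c (T.b (T.l 220) (T.l 220)) (T.b (T.l 204) (T.l 204))))) (T.a (T.b (T.c (T.b (T.l 204) (T.l 220)) (T.b (T.l 204) (T.l 204))) (T.c (T.b (T.l 220) (T.l 204)) (T.b (T.l 204) (T.l 204)))) (T.b (T.c (T.l 220) (T.l 220)) (T.c (T.l 220) (T.l 220))))) (T.c (T.a (T.b (T.c (T.b (T.l 220) (T.l 220)) (T.b (T.l 220) (T.l 220))) (T.c (T.a (T.l 220) (T.l 220)) (T.b (T.l 220) (T.l 220)))) (T.b (T.c (T.b (T.l 220) (T.l 220)) (T.l 220)) (T.c (T.b (T.l 220) (T.l 220)) (T.l 220)))) (T.a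 (T.b (T.c (T.b (T.l 204) (T.l 204)) (T.l 220)) (T.a (T.b (T.l 220) (T.l 220)) (T.l 220))) (T.b (T.b (T.l 220) (T.l 220)) (T.b (T.l 220) (T.l 220)))))) (T.b (T.a (T.c (T.b (T.b (T.l 220) (T.l 220)) (T.b (T.l 220) (T.l 220))) (T.b (T.b (T.l 204) (T.l 204)) (T.b (T.l 204) (T.l 204)))) (T.c (T.b (T.b (T.l 204) (T.l 204)) (T.b (T.l 204) (T.l 204))) (T.b (T.l 220) (T.l 220)))) (T.a (T.c (T.b (T.b (T.l 220) (T.l 220)) (T.b (T.l 220) (T.l 220))) (T.b (T.l 220) (T.b (T.l 204) (T.l 204)))) (T.c (T.b (T.b (T.l 204) (T.l 204)) (T.l 220)) (T.b (T.l 220) (T.l 204)))))), by decide +kernel⟩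

def A102E_001_7_9_1 :
    ∃ t, chk3 (onCell 0 67108864 0 1073741824 201326592 134217728 (corT true 1 c0F cA102E gF0q1 gF0q0 gF1q2 gF2q2 true true)) t 7 9 1 = true :=
  ⟨(T.c (T.a (T.b (T.c (T.a (T.b (T.c (T.b (T.l 220) (T.l 220)) (T.l 220)) (T.c (T.l 220) (T.l 220))) (T.b (T.c (T.l 220) (T.l 220)) (T.c (T.l 220) (T.l 220)))) (T.a (T.b (T.b (T.l 220) (T.l 220)) (T.b (T.l 220) (T.l 220))) (T.b (T.b (T.l 220) (T.l 220)) (T.b (T.l 220) (T.l 220))))) (T.c (T.b (T.a (T.c (T.l 220) (T.l 220)) (T.c (T.l 220) (T.l 220))) (T.a (T.c (T.l 220) (T.l 220)) (T.c (T.l 220) (T.l 220)))) (T.a (T.b (T.b (T.l 220) (T.l 220)) (T.b (T.l 220) (T.l 220))) (T.b (T.b (T.l 220) (T.l 220)) (T.b (T.l 220) (T.l 220)))))) (T.b (T.c (T.b (T.a (T.c (T.b (T.l 220) (T.l 220)) (T.l 220)) (T.c (T.b (T.l 220) (T.l 220)) (T.l 220))) (T.a (T.c (T.l 220) (T.l 220)) (T.c (T.l 220)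 (T.l 220)))) (T.b (T.a (T.b (T.l 220) (T.l 220)) (T.b (T.l 220) (T.l 220))) (T.a (T.b (T.l 220) (T.l 220)) (T.b (T.l 220) (T.l 220))))) (T.c (T.b (T.a (T.c (T.l 220) (T.l 220)) (T.c (T.l 220) (T.l 220))) (T.a (T.c (T.l 220) (T.l 220)) (T.c (T.l 220) (T.l 220)))) (T.b (T.a (T.b (T.l 220) (T.l 220)) (T.b (T.l 220) (T.l 220))) (T.a (T.b (T.l 220) (T.l 220)) (T.b (T.l 220) (T.l 220))))))) (T.a (T.b (T.a (T.c (T.b (T.l 220) (T.l 220)) (T.b (T.l 204) (T.l 204))) (T.c (T.b (T.l 220) (T.l 220)) (T.b (T.l 204) (T.l 204)))) (T.b (T.c (T.a (T.l 220) (T.l 220)) (T.a (T.l 204) (T.l 204))) (T.c (T.a (T.l 220) (T.l 220)) (T.b (T.l 220) (T.l 220))))) (T.b (T.c (T.b (T.a (T.l 220) (T.l 220)) (T.a (T.l 220) (T.l 220))) (T.b (T.b (T.l 220) (T.l 220)) (T.b (T.l 220) (T.l 220)))) (T.b (T.c (T.a (T.l 220) (T.l 220)) (T.b (T.l 220) (T.l 220))) (T.c (T.a (T.l 220)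 (T.l 220)) (T.b (T.l 220) (T.l 220))))))), by decide +kernel⟩

def A102E_001_2_10_1 :
    ∃ t, chk3 (onCell 0 67108864 0 1073741824 201326592 134217728 (corT true 1 c0F cA102E gF0q1 gF0q0 gF1q2 gF2q2 true true)) t 2 10 1 = true :=
  ⟨(T.c (T.b (T.c (T.a (T.b (T.c (T.l 204) (T.l 204)) (T.c (T.a (T.l 204) (T.l 204)) (T.a (T.l 204) (T.l 204)))) (T.b (T.l 204) (T.a (T.l 460) (T.l 204)))) (T.a (T.b (T.l 204) (T.c (T.l 204) (T.l 204))) (T.b (T.l 204) (T.l 204)))) (T.b (T.c (T.a (T.c (T.a (T.b (T.l 204) (T.b (T.a (T.l 204) (T.l 204)) (T.l 1))) (T.b (T.l 204) (T.l 204))) (T.a (T.b (T.l 204) (T.b (T.l 204) (T.l 1))) (T.b (T.l 204) (T.l 204)))) (T.c (T.a (T.l 204) (T.l 204)) (T.l 460))) (T.a (T.c (T.a (T.b (T.l 204) (T.b (T.l 204) (T.l 1))) (T.l 204)) (T.a (T.b (T.l 204) (T.a (T.l 204) (T.l 204))) (T.l 204))) (T.c (T.l 204) (T.l 204)))) (T.a (T.l 1)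 (T.a (T.l 1) (T.l 1))))) (T.b (T.c (T.b (T.a (T.l 204) (T.l 204)) (T.a (T.a (T.l 204) (T.l 204)) (T.l 204))) (T.a (T.b (T.l 204) (T.l 204)) (T.l 204))) (T.b (T.c (T.a (T.b (T.a (T.l 204) (T.l 204)) (T.a (T.c (T.l 204) (T.l 204)) (T.l 204))) (T.a (T.l 204) (T.l 204))) (T.a (T.b (T.l 204) (T.c (T.a (T.l 204) (T.l 204)) (T.l 204))) (T.l 460))) (T.a (T.l 1) (T.a (T.l 1) (T.l 1)))))), by decide +kernel⟩

def A102E_001_6_10_1 :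
    ∃ t, chk3 (onCell 0 67108864 0 1073741824 201326592 134217728 (corT true 1 c0F cA102E gF0q1 gF0q0 gF1q2 gF2q2 true true)) t 6 10 1 = true :=
  ⟨(T.a (T.c (T.c (T.b (T.c (T.l 220) (T.l 204)) (T.b (T.l 204) (T.b (T.l 204) (T.l 1)))) (T.b (T.l 220) (T.b (T.l 204) (T.b (T.l 204) (T.l 1))))) (T.b (T.c (T.l 204) (T.l 204)) (T.c (T.b (T.l 204) (T.l 460)) (T.b (T.l 204) (T.l 460))))) (T.b (T.c (T.c (T.a (T.b (T.c (T.b (T.l 220) (T.l 220)) (T.b (T.l 220) (T.l 220))) (T.c (T.b (T.l 220) (T.l 204)) (T.l 220))) (T.b (T.c (T.l 220) (T.l 220)) (T.c (T.l 220) (T.l 220)))) (T.a (T.b (T.c (T.b (T.l 220) (T.l 204)) (T.l 220)) (T.b (T.l 220) (T.l 204))) (T.b (T.b (T.l 220) (T.l 220)) (T.b (T.l 204) (T.l 204))))) (T.a (T.c (T.b (T.b (T.l 220) (T.l 204)) (T.l 220)) (T.b (T.l 220) (T.l 204))) (T.b (T.c (T.l 220) (T.l 204)) (T.c (T.l 220) (T.l 204))))) (T.c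 (T.a (T.c (T.b (T.l 204) (T.l 460)) (T.b (T.l 204) (T.l 204))) (T.c (T.b (T.b (T.l 220) (T.l 220)) (T.b (T.l 220) (T.l 1))) (T.b (T.l 476) (T.b (T.l 204) (T.l 1))))) (T.a (T.c (T.l 460) (T.l 460)) (T.b (T.c (T.l 460) (T.l 204)) (T.b (T.c (T.l 204) (T.l 204)) (T.l 1))))))), by decide +kernel⟩

def A102E_001_7_10_1 :
    ∃ t, chk3 (onCell 0 67108864 0 1073741824 201326592 134217728 (corT true 1 c0F cA102E gF0q1 gF0q0 gF1q2 gF2q2 true true)) t 7 10 1 = true :=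
  ⟨(T.b (T.c (T.a (T.c (T.b (T.a (T.c (T.l 220) (T.l 220)) (T.b (T.l 220) (T.l 476))) (T.a (T.b (T.l 220) (T.l 220)) (T.b (T.l 476) (T.l 476)))) (T.b (T.a (T.b (T.l 220) (T.l 204)) (T.l 476)) (T.a (T.l 476) (T.l 476)))) (T.c (T.b (T.a (T.b (T.l 476) (T.l 476)) (T.b (T.l 476) (T.l 476))) (T.a (T.b (T.l 476) (T.l 476)) (T.b (T.l 476) (T.l 476)))) (T.b (T.a (T.l 476) (T.l 476)) (T.a (T.l 476) (T.l 476))))) (T.a (T.b (T.c (T.a (T.l 220) (T.l 220)) (T.b (T.l 220) (T.l 220))) (T.c (T.b (T.l 476) (T.l 476)) (T.b (T.l 220) (T.l 204)))) (T.b (T.c (T.b (T.l 220) (T.l 220)) (T.b (T.l 220) (T.l 220))) (T.c (T.b (T.l 476) (T.l 476)) (T.b (T.l 220) (T.l 204)))))) (T.c (T.a (T.b (T.c (T.a (T.b (T.l 476) (T.l 460)) (T.b (T.l 476) (T.l 460))) (T.a (T.l 476) (T.b (T.l 204) (T.l 460)))) (T.b (T.c (T.a (T.l 460) (T.c (T.l 460) (T.l 204))) (T.a (T.l 204) (T.l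 460))) (T.l 1))) (T.c (T.b (T.a (T.c (T.l 460) (T.l 460)) (T.c (T.b (T.l 460) (T.l 460)) (T.l 460))) (T.b (T.c (T.a (T.l 460) (T.l 460)) (T.a (T.l 460) (T.l 460))) (T.l 1))) (T.b (T.a (T.b (T.l 460) (T.l 460)) (T.b (T.l 460) (T.l 460))) (T.b (T.a (T.l 460) (T.c (T.l 460) (T.l 460))) (T.l 1))))) (T.a (T.b (T.c (T.a (T.l 460) (T.l 460)) (T.b (T.l 460) (T.l 460))) (T.b (T.c (T.c (T.l 460) (T.l 460)) (T.c (T.l 460) (T.l 460))) (T.l 1))) (T.b (T.c (T.a (T.l 460) (T.l 460)) (T.b (T.l 460) (T.l 460))) (T.b (T.c (T.c (T.l 460) (T.l 460)) (T.c (T.l 460) (T.l 460))) (T.l 1)))))), by decide +kernel⟩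

def A102E_001_1_11_1 :
    ∃ t, chk3 (onCell 0 67108864 0 1073741824 201326592 134217728 (corT true 1 c0F cA102E gF0q1 gF0q0 gF1q2 gF2q2 true true)) t 1 11 1 = true :=
  ⟨(T.l 1), by decide +kernel⟩

def A102E_001_1_3_1 :
    ∃ t, chk3 (onCell 0 67108864 0 1073741824 201326592 134217728 (corT true 1 c0F cA102E gF0q1 gF0q0 gF1q2 gF2q2 true true)) t 1 3 1 = true :=
  ⟨(T.l 1), by decide +kernel⟩

theorem A102E_001_3_10_1 :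
    ∃ t, chk3 (onCell 0 67108864 0 1073741824 201326592 134217728 (corT true 1 c0F cA102E gF0q1 gF0q0 gF1q2 gF2q2 true true)) t 3 10 1 = true :=
  ex3_a A102E_001_6_10_1 A102E_001_7_10_1
theorem A102E_001_1_10_1 :
    ∃ t, chk3 (onCell 0 67108864 0 1073741824 201326592 134217728 (corT true 1 c0F cA102E gF0q1 gF0q0 gF1q2 gF2q2 true true)) t 1 10 1 = true :=
  ex3_a A102E_001_2_10_1 A102E_001_3_10_1
theorem A102E_001_1_5_1 :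
    ∃ t, chk3 (onCell 0 67108864 0 1073741824 201326592 134217728 (corT true 1 c0F cA102E gF0q1 gF0q0 gF1q2 gF2q2 true true)) t 1 5 1 = true :=
  ex3_b A102E_001_1_10_1 A102E_001_1_11_1
theorem A102E_001_6_9_1 :
    ∃ t, chk3 (onCell 0 67108864 0 1073741824 201326592 134217728 (corT true 1 c0F cA102E gF0q1 gF0q0 gF1q2 gF2q2 true true)) t 6 9 1 = true :=
  ex3_a A102E_001_12_9_1 A102E_001_13_9_1
theorem A102E_001_3_9_1 :
    ∃ t, chk3 (onCell 0 67108864 0 1073741824 201326592 134217728 (corT true 1 c0F cA102E gF0q1 gF0q0 gF1q2 gF2q2 true true)) t 3 9 1 = true :=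
  ex3_a A102E_001_6_9_1 A102E_001_7_9_1
theorem A102E_001_1_9_1 :
    ∃ t, chk3 (onCell 0 67108864 0 1073741824 201326592 134217728 (corT true 1 c0F cA102E gF0q1 gF0q0 gF1q2 gF2q2 true true)) t 1 9 1 = true :=
  ex3_a A102E_001_2_9_1 A102E_001_3_9_1
theorem A102E_001_3_142_1 :
    ∃ t, chk3 (onCell 0 67108864 0 1073741824 201326592 134217728 (corT true 1 c0F cA102E gF0q1 gF0q0 gF1q2 gF2q2 true true)) t 3 142 1 = true :=
  ex3_b A102E_001_3_284_1 A102E_001_3_285_1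
theorem A102E_001_3_71_1 :
    ∃ t, chk3 (onCell 0 67108864 0 1073741824 201326592 134217728 (corT true 1 c0F cA102E gF0q1 gF0q0 gF1q2 gF2q2 true true)) t 3 71 1 = true :=
  ex3_b A102E_001_3_142_1 A102E_001_3_143_1
theorem A102E_001_3_141_1 :
    ∃ t, chk3 (onCell 0 67108864 0 1073741824 201326592 134217728 (corT true 1 c0F cA102E gF0q1 gF0q0 gF1q2 gF2q2 true true)) t 3 141 1 = true :=
  ex3_b A102E_001_3_282_1 A102E_001_3_283_1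
theorem A102E_001_3_281_1 :
    ∃ t, chk3 (onCell 0 67108864 0 1073741824 201326592 134217728 (corT true 1 c0F cA102E gF0q1 gF0q0 gF1q2 gF2q2 true true)) t 3 281 1 = true :=
  ex3_a A102E_001_6_281_1 A102E_001_7_281_1
theorem A102E_001_3_280_1 :
    ∃ t, chk3 (onCell 0 67108864 0 1073741824 201326592 134217728 (corT true 1 c0F cA102E gF0q1 gF0q0 gF1q2 gF2q2 true true)) t 3 280 1 = true :=
  ex3_a A102E_001_6_280_1 A102E_001_7_280_1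
theorem A102E_001_3_140_1 :
    ∃ t, chk3 (onCell 0 67108864 0 1073741824 201326592 134217728 (corT true 1 c0F cA102E gF0q1 gF0q0 gF1q2 gF2q2 true true)) t 3 140 1 = true :=
  ex3_b A102E_001_3_280_1 A102E_001_3_281_1
theorem A102E_001_3_70_1 :
    ∃ t, chk3 (onCell 0 67108864 0 1073741824 201326592 134217728 (corT true 1 c0F cA102E gF0q1 gF0q0 gF1q2 gF2q2 true true)) t 3 70 1 = true :=
  ex3_b A102E_001_3_140_1 A102E_001_3_141_1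
theorem A102E_001_3_35_1 :
    ∃ t, chk3 (onCell 0 67108864 0 1073741824 201326592 134217728 (corT true 1 c0F cA102E gF0q1 gF0q0 gF1q2 gF2q2 true true)) t 3 35 1 = true :=
  ex3_b A102E_001_3_70_1 A102E_001_3_71_1
theorem A102E_001_1_35_1 :
    ∃ t, chk3 (onCell 0 67108864 0 1073741824 201326592 134217728 (corT true 1 c0F cA102E gF0q1 gF0q0 gF1q2 gF2q2 true true)) t 1 35 1 = true :=
  ex3_a A102E_001_2_35_1 A102E_001_3_35_1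
theorem A102E_001_1_17_1 :
    ∃ t, chk3 (onCell 0 67108864 0 1073741824 201326592 134217728 (corT true 1 c0F cA102E gF0q1 gF0q0 gF1q2 gF2q2 true true)) t 1 17 1 = true :=
  ex3_b A102E_001_1_34_1 A102E_001_1_35_1
theorem A102E_001_1_8_1 :
    ∃ t, chk3 (onCell 0 67108864 0 1073741824 201326592 134217728 (corT true 1 c0F cA102E gF0q1 gF0q0 gF1q2 gF2q2 true true)) t 1 8 1 = true :=
  ex3_b A102E_001_1_16_1 A102E_001_1_17_1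
theorem A102E_001_1_4_1 :
    ∃ t, chk3 (onCell 0 67108864 0 1073741824 201326592 134217728 (corT true 1 c0F cA102E gF0q1 gF0q0 gF1q2 gF2q2 true true)) t 1 4 1 = true :=
  ex3_b A102E_001_1_8_1 A102E_001_1_9_1
theorem A102E_001_1_2_1 :
    ∃ t, chk3 (onCell 0 67108864 0 1073741824 201326592 134217728 (corT true 1 c0F cA102E gF0q1 gF0q0 gF1q2 gF2q2 true true)) t 1 2 1 = true :=
  ex3_b A102E_001_1_4_1 A102E_001_1_5_1
theorem A102E_001 :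
    ∃ t, chk3 (onCell 0 67108864 0 1073741824 201326592 134217728 (corT true 1 c0F cA102E gF0q1 gF0q0 gF1q2 gF2q2 true true)) t 1 1 1 = true :=
  ex3_b A102E_001_1_2_1 A102E_001_1_3_1

end Pool.Agent.Strip051.G.I3_16_5_16.Tab.CF
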