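import Pool.Agent.Strip051.G.I3_16_5_16.AsmH
import Pool.Agent.Strip051.G.I3_16_5_16.TrF6

/-! # Rows from certificates (generated) -/

set_option linter.all false
set_option maxRecDepth 100000

namespace Pool.Agent.Strip051.G.I3_16_5_16.Tab

open Pool.Agent.Strip051.PB Pool.Agent.StripNear Pool.Agent.Strip051.LC

theorem FA34_pp_001 {κ x : ℝ} (hκ : κ * h0 = ken x) (hx : ((201326592 : ℕ) : ℝ) / S ≤ x) (hx' : x ≤ (((201326592 : ℕ) : ℝ) + (134217728 : ℕ)) / S) :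
    TriA PP.cur (farS κ (h0 * x) (tbl tKF x) (tbl tL x)) 0 0 1 3 4 1 1 :=
  (sideF hx hx').farA (Or.inl rfl) (Or.inl rfl) fun y y' F =>
    farA_cert (s1 := true) (s2 := true) rfl hκ covF30 covF40 hx hx'
        Pool.Agent.Strip051.G.I3_16_5_16.Tab.C.FA34.c_pp_001 noCut_A noExt_A F trivial trivial

theorem FA34_pp_011 {κ x : ℝ} (hκ : κ * h0 = ken x) (hx : ((201326592 : ℕ) : ℝ) / S ≤ x) (hx' : x ≤ (((201326592 : ℕ) : ℝ) + (134217728 : ℕ)) / S) :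
    TriA PP.cur (farS κ (h0 * x) (tbl tKF x) (tbl tL x)) 0 1 1 3 4 1 1 :=
  (sideF hx hx').farA (Or.inl rfl) (Or.inl rfl) fun y y' F =>
    farA_cert (s1 := true) (s2 := true) rfl hκ covF30 covF41 hx hx'
        Pool.Agent.Strip051.G.I3_16_5_16.Tab.C.FA34.c_pp_011 noCut_A noExt_A F trivial trivial

theorem FA34_pp_012 {κ x : ℝ} (hκ : κ * h0 = ken x) (hx : ((201326592 : ℕ) : ℝ) / S ≤ x) (hx' : x ≤ (((201326592 : ℕ) : ℝ) + (134217728 : ℕ)) / S) :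
    TriA PP.cur (farS κ (h0 * x) (tbl tKF x) (tbl tL x)) 0 1 2 3 4 1 1 :=
  (sideF hx hx').farA (Or.inl rfl) (Or.inl rfl) fun y y' F =>
    farA_cert (s1 := true) (s2 := true) rfl hκ covF30 covF41 hx hx'
        Pool.Agent.Strip051.G.I3_16_5_16.Tab.C.FA34.c_pp_012 noCut_A noExt_A F trivial trivial

theorem FA34_pp_022 {κ x : ℝ} (hκ : κ * h0 = ken x) (hx : ((201326592 : ℕ) : ℝ) / S ≤ x) (hx' : x ≤ (((201326592 : ℕ) : ℝ) + (134217728 : ℕ)) / S) :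
    TriA PP.cur (farS κ (h0 * x) (tbl tKF x) (tbl tL x)) 0 2 2 3 4 1 1 :=
  (sideF hx hx').farA (Or.inl rfl) (Or.inl rfl) fun y y' F =>
    farA_cert (s1 := true) (s2 := true) rfl hκ covF30 covF42 hx hx'
        Pool.Agent.Strip051.G.I3_16_5_16.Tab.C.FA34.c_pp_022 noCut_A noExt_A F trivial trivial

theorem FA34_pp_023 {κ x : ℝ} (hκ : κ * h0 = ken x) (hx : ((201326592 : ℕ) : ℝ) / S ≤ x) (hx' : x ≤ (((201326592 : ℕ) : ℝ) + (134217728 : ℕ)) / S) :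
    TriA PP.cur (farS κ (h0 * x) (tbl tKF x) (tbl tL x)) 0 2 3 3 4 1 1 :=
  (sideF hx hx').farA (Or.inl rfl) (Or.inl rfl) fun y y' F =>
    farA_cert (s1 := true) (s2 := true) rfl hκ covF30 covF42 hx hx'
        Pool.Agent.Strip051.G.I3_16_5_16.Tab.C.FA34.c_pp_023 noCut_A noExt_A F trivial trivial

theorem FA34_pp_033 {κ x : ℝ} (hκ : κ * h0 = ken x) (hx : ((201326592 : ℕ) : ℝ) / S ≤ x) (hx' : x ≤ (((201326592 : ℕ) : ℝ) + (134217728 : ℕ)) / S) :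
    TriA PP.cur (farS κ (h0 * x) (tbl tKF x) (tbl tL x)) 0 3 3 3 4 1 1 :=
  (sideF hx hx').farA (Or.inl rfl) (Or.inl rfl) fun y y' F =>
    farA_cert (s1 := true) (s2 := true) rfl hκ covF30 covF43 hx hx'
        Pool.Agent.Strip051.G.I3_16_5_16.Tab.C.FA34.c_pp_033 noCut_A noExt_A F trivial trivial

theorem FA34_pp_101 {κ x : ℝ} (hκ : κ * h0 = ken x) (hx : ((201326592 : ℕ) : ℝ) / S ≤ x) (hx' : x ≤ (((201326592 : ℕ) : ℝ) + (134217728 : ℕ)) / S) :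
    TriA PP.cur (farS κ (h0 * x) (tbl tKF x) (tbl tL x)) 1 0 1 3 4 1 1 :=
  (sideF hx hx').farA (Or.inl rfl) (Or.inl rfl) fun y y' F =>
    farA_cert (s1 := true) (s2 := true) rfl hκ covF31 covF40 hx hx'
        Pool.Agent.Strip051.G.I3_16_5_16.Tab.C.FA34.c_pp_101 noCut_A noExt_A F trivial trivial

theorem FA34_pp_102 {κ x : ℝ} (hκ : κ * h0 = ken x) (hx : ((201326592 : ℕ) : ℝ) / S ≤ x) (hx' : x ≤ (((201326592 : ℕ) : ℝ) + (134217728 : ℕ)) / S) :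
    TriA PP.cur (farS κ (h0 * x) (tbl tKF x) (tbl tL x)) 1 0 2 3 4 1 1 :=
  (sideF hx hx').farA (Or.inl rfl) (Or.inl rfl) fun y y' F =>
    farA_cert (s1 := true) (s2 := true) rfl hκ covF31 covF40 hx hx'
        Pool.Agent.Strip051.G.I3_16_5_16.Tab.C.FA34.c_pp_102 noCut_A noExt_A F trivial trivial

theorem FA34_pp_112 {κ x : ℝ} (hκ : κ * h0 = ken x) (hx : ((201326592 : ℕ) : ℝ) / S ≤ x) (hx' : x ≤ (((201326592 : ℕ) : ℝ) + (134217728 : ℕ)) / S) :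
    TriA PP.cur (farS κ (h0 * x) (tbl tKF x) (tbl tL x)) 1 1 2 3 4 1 1 :=
  (sideF hx hx').farA (Or.inl rfl) (Or.inl rfl) fun y y' F =>
    farA_cert (s1 := true) (s2 := true) rfl hκ covF31 covF41 hx hx'
        Pool.Agent.Strip051.G.I3_16_5_16.Tab.C.FA34.c_pp_112 noCut_A noExt_A F trivial trivial

theorem FA34_pp_113 {κ x : ℝ} (hκ : κ * h0 = ken x) (hx : ((201326592 : ℕ) : ℝ) / S ≤ x) (hx' : x ≤ (((201326592 : ℕ) : ℝ) + (134217728 : ℕ)) / S) :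
    TriA PP.cur (farS κ (h0 * x) (tbl tKF x) (tbl tL x)) 1 1 3 3 4 1 1 :=
  (sideF hx hx').farA (Or.inl rfl) (Or.inl rfl) fun y y' F =>
    farA_cert (s1 := true) (s2 := true) rfl hκ covF31 covF41 hx hx'
        Pool.Agent.Strip051.G.I3_16_5_16.Tab.C.FA34.c_pp_113 noCut_A noExt_A F trivial trivial

theorem FA34_pp_123 {κ x : ℝ} (hκ : κ * h0 = ken x) (hx : ((201326592 : ℕ) : ℝ) / S ≤ x) (hx' : x ≤ (((201326592 : ℕ) : ℝ) + (134217728 : ℕ)) / S) :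
    TriA PP.cur (farS κ (h0 * x) (tbl tKF x) (tbl tL x)) 1 2 3 3 4 1 1 :=
  (sideF hx hx').farA (Or.inl rfl) (Or.inl rfl) fun y y' F =>
    farA_cert (s1 := true) (s2 := true) rfl hκ covF31 covF42 hx hx'
        Pool.Agent.Strip051.G.I3_16_5_16.Tab.C.FA34.c_pp_123 noCut_A noExt_A F trivial trivial

theorem FA34_pp_133 {κ x : ℝ} (hκ : κ * h0 = ken x) (hx : ((201326592 : ℕ) : ℝ) / S ≤ x) (hx' : x ≤ (((201326592 : ℕ) : ℝ) + (134217728 : ℕ)) / S) :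
    TriA PP.cur (farS κ (h0 * x) (tbl tKF x) (tbl tL x)) 1 3 3 3 4 1 1 :=
  (sideF hx hx').farA (Or.inl rfl) (Or.inl rfl) fun y y' F =>
    farA_cert (s1 := true) (s2 := true) rfl hκ covF31 covF43 hx hx'
        Pool.Agent.Strip051.G.I3_16_5_16.Tab.C.FA34.c_pp_133 noCut_A noExt_A F trivial trivial

theorem FA34_pp_202 {κ x : ℝ} (hκ : κ * h0 = ken x) (hx : ((201326592 : ℕ) : ℝ) / S ≤ x) (hx' : x ≤ (((201326592 : ℕ) : ℝ) + (134217728 : ℕ)) / S) :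
    TriA PP.cur (farS κ (h0 * x) (tbl tKF x) (tbl tL x)) 2 0 2 3 4 1 1 :=
  (sideF hx hx').farA (Or.inl rfl) (Or.inl rfl) fun y y' F =>
    farA_cert (s1 := true) (s2 := true) rfl hκ covF32 covF40 hx hx'
        Pool.Agent.Strip051.G.I3_16_5_16.Tab.C.FA34.c_pp_202 noCut_A noExt_A F trivial trivial

theorem FA34_pp_203 {κ x : ℝ} (hκ : κ * h0 = ken x) (hx : ((201326592 : ℕ) : ℝ) / S ≤ x) (hx' : x ≤ (((201326592 : ℕ) : ℝ) + (134217728 : ℕ)) / S) :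
    TriA PP.cur (farS κ (h0 * x) (tbl tKF x) (tbl tL x)) 2 0 3 3 4 1 1 :=
  (sideF hx hx').farA (Or.inl rfl) (Or.inl rfl) fun y y' F =>
    farA_cert (s1 := true) (s2 := true) rfl hκ covF32 covF40 hx hx'
        Pool.Agent.Strip051.G.I3_16_5_16.Tab.C.FA34.c_pp_203 noCut_A noExt_A F trivial trivial

theorem FA34_pp_213 {κ x : ℝ} (hκ : κ * h0 = ken x) (hx : ((201326592 : ℕ) : ℝ) / S ≤ x) (hx' : x ≤ (((201326592 : ℕ) : ℝ) + (134217728 : ℕ)) / S) :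
    TriA PP.cur (farS κ (h0 * x) (tbl tKF x) (tbl tL x)) 2 1 3 3 4 1 1 :=
  (sideF hx hx').farA (Or.inl rfl) (Or.inl rfl) fun y y' F =>
    farA_cert (s1 := true) (s2 := true) rfl hκ covF32 covF41 hx hx'
        Pool.Agent.Strip051.G.I3_16_5_16.Tab.C.FA34.c_pp_213 noCut_A noExt_A F trivial trivial

theorem FA34_pp_303 {κ x : ℝ} (hκ : κ * h0 = ken x) (hx : ((201326592 : ℕ) : ℝ) / S ≤ x) (hx' : x ≤ (((201326592 : ℕ) : ℝ) + (134217728 : ℕ)) / S) :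
    TriA PP.cur (farS κ (h0 * x) (tbl tKF x) (tbl tL x)) 3 0 3 3 4 1 1 :=
  (sideF hx hx').farA (Or.inl rfl) (Or.inl rfl) fun y y' F =>
    farA_cert (s1 := true) (s2 := true) rfl hκ covF33 covF40 hx hx'
        Pool.Agent.Strip051.G.I3_16_5_16.Tab.C.FA34.c_pp_303 noCut_A noExt_A F trivial trivial

theorem FA34_pp_313 {κ x : ℝ} (hκ : κ * h0 = ken x) (hx : ((201326592 : ℕ) : ℝ) / S ≤ x) (hx' : x ≤ (((201326592 : ℕ) : ℝ) + (134217728 : ℕ)) / S) :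
    TriA PP.cur (farS κ (h0 * x) (tbl tKF x) (tbl tL x)) 3 1 3 3 4 1 1 :=
  (sideF hx hx').farA (Or.inl rfl) (Or.inl rfl) fun y y' F =>
    farA_cert (s1 := true) (s2 := true) rfl hκ covF33 covF41 hx hx'
        Pool.Agent.Strip051.G.I3_16_5_16.Tab.C.FA34.c_pp_313 noCut_A noExt_A F trivial trivial

theorem FA34_pm_001 {κ x : ℝ} (hκ : κ * h0 = ken x) (hx : ((201326592 : ℕ) : ℝ) / S ≤ x) (hx' : x ≤ (((201326592 : ℕ) : ℝ) + (134217728 : ℕ)) / S) :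
    TriA PP.cur (farS κ (h0 * x) (tbl tKF x) (tbl tL x)) 0 0 1 3 4 1 (-1) :=
  (sideF hx hx').farA (Or.inl rfl) (Or.inr rfl) fun y y' F =>
    farA_cert (s1 := true) (s2 := false) rfl hκ covF30 covF40 hx hx'
        Pool.Agent.Strip051.G.I3_16_5_16.Tab.C.FA34.c_pm_001 noCut_A noExt_A F trivial trivial

theorem FA34_pm_011 {κ x : ℝ} (hκ : κ * h0 = ken x) (hx : ((201326592 : ℕ) : ℝ) / S ≤ x) (hx' : x ≤ (((201326592 : ℕ) : ℝ) + (134217728 : ℕ)) / S) :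
    TriA PP.cur (farS κ (h0 * x) (tbl tKF x) (tbl tL x)) 0 1 1 3 4 1 (-1) :=
  (sideF hx hx').farA (Or.inl rfl) (Or.inr rfl) fun y y' F =>
    farA_cert (s1 := true) (s2 := false) rfl hκ covF30 covF41 hx hx'
        Pool.Agent.Strip051.G.I3_16_5_16.Tab.C.FA34.c_pm_011 noCut_A noExt_A F trivial trivial

theorem FA34_pm_012 {κ x : ℝ} (hκ : κ * h0 = ken x) (hx : ((201326592 : ℕ) : ℝ) / S ≤ x) (hx' : x ≤ (((201326592 : ℕ) : ℝ) + (134217728 : ℕ)) / S) :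
    TriA PP.cur (farS κ (h0 * x) (tbl tKF x) (tbl tL x)) 0 1 2 3 4 1 (-1) :=
  (sideF hx hx').farA (Or.inl rfl) (Or.inr rfl) fun y y' F =>
    farA_cert (s1 := true) (s2 := false) rfl hκ covF30 covF41 hx hx'
        Pool.Agent.Strip051.G.I3_16_5_16.Tab.C.FA34.c_pm_012 noCut_A noExt_A F trivial trivial

theorem FA34_pm_022 {κ x : ℝ} (hκ : κ * h0 = ken x) (hx : ((201326592 : ℕ) : ℝ) / S ≤ x) (hx' : x ≤ (((201326592 : ℕ) : ℝ) + (134217728 : ℕ)) / S) :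
    TriA PP.cur (farS κ (h0 * x) (tbl tKF x) (tbl tL x)) 0 2 2 3 4 1 (-1) :=
  (sideF hx hx').farA (Or.inl rfl) (Or.inr rfl) fun y y' F =>
    farA_cert (s1 := true) (s2 := false) rfl hκ covF30 covF42 hx hx'
        Pool.Agent.Strip051.G.I3_16_5_16.Tab.C.FA34.c_pm_022 noCut_A noExt_A F trivial trivial

theorem FA34_pm_023 {κ x : ℝ} (hκ : κ * h0 = ken x) (hx : ((201326592 : ℕ) : ℝ) / S ≤ x) (hx' : x ≤ (((201326592 : ℕ) : ℝ) + (134217728 : ℕ)) / S) :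
    TriA PP.cur (farS κ (h0 * x) (tbl tKF x) (tbl tL x)) 0 2 3 3 4 1 (-1) :=
  (sideF hx hx').farA (Or.inl rfl) (Or.inr rfl) fun y y' F =>
    farA_cert (s1 := true) (s2 := false) rfl hκ covF30 covF42 hx hx'
        Pool.Agent.Strip051.G.I3_16_5_16.Tab.C.FA34.c_pm_023 noCut_A noExt_A F trivial trivial

theorem FA34_pm_033 {κ x : ℝ} (hκ : κ * h0 = ken x) (hx : ((201326592 : ℕ) : ℝ) / S ≤ x) (hx' : x ≤ (((201326592 : ℕ) : ℝ) + (134217728 : ℕ)) / S) :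
    TriA PP.cur (farS κ (h0 * x) (tbl tKF x) (tbl tL x)) 0 3 3 3 4 1 (-1) :=
  (sideF hx hx').farA (Or.inl rfl) (Or.inr rfl) fun y y' F =>
    farA_cert (s1 := true) (s2 := false) rfl hκ covF30 covF43 hx hx'
        Pool.Agent.Strip051.G.I3_16_5_16.Tab.C.FA34.c_pm_033 noCut_A noExt_A F trivial trivial

theorem FA34_pm_101 {κ x : ℝ} (hκ : κ * h0 = ken x) (hx : ((201326592 : ℕ) : ℝ) / S ≤ x) (hx' : x ≤ (((201326592 : ℕ) : ℝ) + (134217728 : ℕ)) / S) :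
    TriA PP.cur (farS κ (h0 * x) (tbl tKF x) (tbl tL x)) 1 0 1 3 4 1 (-1) :=
  (sideF hx hx').farA (Or.inl rfl) (Or.inr rfl) fun y y' F =>
    farA_cert (s1 := true) (s2 := false) rfl hκ covF31 covF40 hx hx'
        Pool.Agent.Strip051.G.I3_16_5_16.Tab.C.FA34.c_pm_101 noCut_A noExt_A F trivial trivial

theorem FA34_pm_102 {κ x : ℝ} (hκ : κ * h0 = ken x) (hx : ((201326592 : ℕ) : ℝ) / S ≤ x) (hx' : x ≤ (((201326592 : ℕ) : ℝ) + (134217728 : ℕ)) / S) :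
    TriA PP.cur (farS κ (h0 * x) (tbl tKF x) (tbl tL x)) 1 0 2 3 4 1 (-1) :=
  (sideF hx hx').farA (Or.inl rfl) (Or.inr rfl) fun y y' F =>
    farA_cert (s1 := true) (s2 := false) rfl hκ covF31 covF40 hx hx'
        Pool.Agent.Strip051.G.I3_16_5_16.Tab.C.FA34.c_pm_102 noCut_A noExt_A F trivial trivial

theorem FA34_pm_112 {κ x : ℝ} (hκ : κ * h0 = ken x) (hx : ((201326592 : ℕ) : ℝ) / S ≤ x) (hx' : x ≤ (((201326592 : ℕ) : ℝ) + (134217728 : ℕ)) / S) :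
    TriA PP.cur (farS κ (h0 * x) (tbl tKF x) (tbl tL x)) 1 1 2 3 4 1 (-1) :=
  (sideF hx hx').farA (Or.inl rfl) (Or.inr rfl) fun y y' F =>
    farA_cert (s1 := true) (s2 := false) rfl hκ covF31 covF41 hx hx'
        Pool.Agent.Strip051.G.I3_16_5_16.Tab.C.FA34.c_pm_112 noCut_A noExt_A F trivial trivial

theorem FA34_pm_113 {κ x : ℝ} (hκ : κ * h0 = ken x) (hx : ((201326592 : ℕ) : ℝ) / S ≤ x) (hx' : x ≤ (((201326592 : ℕ) : ℝ) + (134217728 : ℕ)) / S) :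
    TriA PP.cur (farS κ (h0 * x) (tbl tKF x) (tbl tL x)) 1 1 3 3 4 1 (-1) :=
  (sideF hx hx').farA (Or.inl rfl) (Or.inr rfl) fun y y' F =>
    farA_cert (s1 := true) (s2 := false) rfl hκ covF31 covF41 hx hx'
        Pool.Agent.Strip051.G.I3_16_5_16.Tab.C.FA34.c_pm_113 noCut_A noExt_A F trivial trivial

theorem FA34_pm_123 {κ x : ℝ} (hκ : κ * h0 = ken x) (hx : ((201326592 : ℕ) : ℝ) / S ≤ x) (hx' : x ≤ (((201326592 : ℕ) : ℝ) + (134217728 : ℕ)) / S) :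
    TriA PP.cur (farS κ (h0 * x) (tbl tKF x) (tbl tL x)) 1 2 3 3 4 1 (-1) :=
  (sideF hx hx').farA (Or.inl rfl) (Or.inr rfl) fun y y' F =>
    farA_cert (s1 := true) (s2 := false) rfl hκ covF31 covF42 hx hx'
        Pool.Agent.Strip051.G.I3_16_5_16.Tab.C.FA34.c_pm_123 noCut_A noExt_A F trivial trivial

theorem FA34_pm_133 {κ x : ℝ} (hκ : κ * h0 = ken x) (hx : ((201326592 : ℕ) : ℝ) / S ≤ x) (hx' : x ≤ (((201326592 : ℕ) : ℝ) + (134217728 : ℕ)) / S) :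
    TriA PP.cur (farS κ (h0 * x) (tbl tKF x) (tbl tL x)) 1 3 3 3 4 1 (-1) :=
  (sideF hx hx').farA (Or.inl rfl) (Or.inr rfl) fun y y' F =>
    farA_cert (s1 := true) (s2 := false) rfl hκ covF31 covF43 hx hx'
        Pool.Agent.Strip051.G.I3_16_5_16.Tab.C.FA34.c_pm_133 noCut_A noExt_A F trivial trivial

theorem FA34_pm_202 {κ x : ℝ} (hκ : κ * h0 = ken x) (hx : ((201326592 : ℕ) : ℝ) / S ≤ x) (hx' : x ≤ (((201326592 : ℕ) : ℝ) + (134217728 : ℕ)) / S) :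
    TriA PP.cur (farS κ (h0 * x) (tbl tKF x) (tbl tL x)) 2 0 2 3 4 1 (-1) :=
  (sideF hx hx').farA (Or.inl rfl) (Or.inr rfl) fun y y' F =>
    farA_cert (s1 := true) (s2 := false) rfl hκ covF32 covF40 hx hx'
        Pool.Agent.Strip051.G.I3_16_5_16.Tab.C.FA34.c_pm_202 noCut_A noExt_A F trivial trivial

theorem FA34_pm_203 {κ x : ℝ} (hκ : κ * h0 = ken x) (hx : ((201326592 : ℕ) : ℝ) / S ≤ x) (hx' : x ≤ (((201326592 : ℕ) : ℝ) + (134217728 : ℕ)) / S) :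
    TriA PP.cur (farS κ (h0 * x) (tbl tKF x) (tbl tL x)) 2 0 3 3 4 1 (-1) :=
  (sideF hx hx').farA (Or.inl rfl) (Or.inr rfl) fun y y' F =>
    farA_cert (s1 := true) (s2 := false) rfl hκ covF32 covF40 hx hx'
        Pool.Agent.Strip051.G.I3_16_5_16.Tab.C.FA34.c_pm_203 noCut_A noExt_A F trivial trivial

theorem FA34_pm_213 {κ x : ℝ} (hκ : κ * h0 = ken x) (hx : ((201326592 : ℕ) : ℝ) / S ≤ x) (hx' : x ≤ (((201326592 : ℕ) : ℝ) + (134217728 : ℕ)) / S) :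
    TriA PP.cur (farS κ (h0 * x) (tbl tKF x) (tbl tL x)) 2 1 3 3 4 1 (-1) :=
  (sideF hx hx').farA (Or.inl rfl) (Or.inr rfl) fun y y' F =>
    farA_cert (s1 := true) (s2 := false) rfl hκ covF32 covF41 hx hx'
        Pool.Agent.Strip051.G.I3_16_5_16.Tab.C.FA34.c_pm_213 noCut_A noExt_A F trivial trivial

theorem FA34_pm_303 {κ x : ℝ} (hκ : κ * h0 = ken x) (hx : ((201326592 : ℕ) : ℝ) / S ≤ x) (hx' : x ≤ (((201326592 : ℕ) : ℝ) + (134217728 : ℕ)) / S) :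
    TriA PP.cur (farS κ (h0 * x) (tbl tKF x) (tbl tL x)) 3 0 3 3 4 1 (-1) :=
  (sideF hx hx').farA (Or.inl rfl) (Or.inr rfl) fun y y' F =>
    farA_cert (s1 := true) (s2 := false) rfl hκ covF33 covF40 hx hx'
        Pool.Agent.Strip051.G.I3_16_5_16.Tab.C.FA34.c_pm_303 noCut_A noExt_A F trivial trivial

theorem FA34_pm_313 {κ x : ℝ} (hκ : κ * h0 = ken x) (hx : ((201326592 : ℕ) : ℝ) / S ≤ x) (hx' : x ≤ (((201326592 : ℕ) : ℝ) + (134217728 : ℕ)) / S) :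
    TriA PP.cur (farS κ (h0 * x) (tbl tKF x) (tbl tL x)) 3 1 3 3 4 1 (-1) :=
  (sideF hx hx').farA (Or.inl rfl) (Or.inr rfl) fun y y' F =>
    farA_cert (s1 := true) (s2 := false) rfl hκ covF33 covF41 hx hx'
        Pool.Agent.Strip051.G.I3_16_5_16.Tab.C.FA34.c_pm_313 noCut_A noExt_A F trivial trivial

theorem FA34_mm_001 {κ x : ℝ} (hκ : κ * h0 = ken x) (hx : ((201326592 : ℕ) : ℝ) / S ≤ x) (hx' : x ≤ (((201326592 : ℕ) : ℝ) + (134217728 : ℕ)) / S) :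
    TriA PP.cur (farS κ (h0 * x) (tbl tKF x) (tbl tL x)) 0 0 1 3 4 (-1) (-1) :=
  (sideF hx hx').farA (Or.inr rfl) (Or.inr rfl) fun y y' F =>
    farA_cert (s1 := false) (s2 := false) rfl hκ covF30 covF40 hx hx'
        Pool.Agent.Strip051.G.I3_16_5_16.Tab.C.FA34.c_mm_001 noCut_A noExt_A F trivial trivial

theorem FA34_mm_011 {κ x : ℝ} (hκ : κ * h0 = ken x) (hx : ((201326592 : ℕ) : ℝ) / S ≤ x) (hx' : x ≤ (((201326592 : ℕ) : ℝ) + (134217728 : ℕ)) / S) :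
    TriA PP.cur (farS κ (h0 * x) (tbl tKF x) (tbl tL x)) 0 1 1 3 4 (-1) (-1) :=
  (sideF hx hx').farA (Or.inr rfl) (Or.inr rfl) fun y y' F =>
    farA_cert (s1 := false) (s2 := false) rfl hκ covF30 covF41 hx hx'
        Pool.Agent.Strip051.G.I3_16_5_16.Tab.C.FA34.c_mm_011 noCut_A noExt_A F trivial trivial

theorem FA34_mm_012 {κ x : ℝ} (hκ : κ * h0 = ken x) (hx : ((201326592 : ℕ) : ℝ) / S ≤ x) (hx' : x ≤ (((201326592 : ℕ) : ℝ) + (134217728 : ℕ)) / S) :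
    TriA PP.cur (farS κ (h0 * x) (tbl tKF x) (tbl tL x)) 0 1 2 3 4 (-1) (-1) :=
  (sideF hx hx').farA (Or.inr rfl) (Or.inr rfl) fun y y' F =>
    farA_cert (s1 := false) (s2 := false) rfl hκ covF30 covF41 hx hx'
        Pool.Agent.Strip051.G.I3_16_5_16.Tab.C.FA34.c_mm_012 noCut_A noExt_A F trivial trivial

theorem FA34_mm_022 {κ x : ℝ} (hκ : κ * h0 = ken x) (hx : ((201326592 : ℕ) : ℝ) / S ≤ x) (hx' : x ≤ (((201326592 : ℕ) : ℝ) + (134217728 : ℕ)) / S) :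
    TriA PP.cur (farS κ (h0 * x) (tbl tKF x) (tbl tL x)) 0 2 2 3 4 (-1) (-1) :=
  (sideF hx hx').farA (Or.inr rfl) (Or.inr rfl) fun y y' F =>
    farA_cert (s1 := false) (s2 := false) rfl hκ covF30 covF42 hx hx'
        Pool.Agent.Strip051.G.I3_16_5_16.Tab.C.FA34.c_mm_022 noCut_A noExt_A F trivial trivial

theorem FA34_mm_023 {κ x : ℝ} (hκ : κ * h0 = ken x) (hx : ((201326592 : ℕ) : ℝ) / S ≤ x) (hx' : x ≤ (((201326592 : ℕ) : ℝ) + (134217728 : ℕ)) / S) :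
    TriA PP.cur (farS κ (h0 * x) (tbl tKF x) (tbl tL x)) 0 2 3 3 4 (-1) (-1) :=
  (sideF hx hx').farA (Or.inr rfl) (Or.inr rfl) fun y y' F =>
    farA_cert (s1 := false) (s2 := false) rfl hκ covF30 covF42 hx hx'
        Pool.Agent.Strip051.G.I3_16_5_16.Tab.C.FA34.c_mm_023 noCut_A noExt_A F trivial trivial

theorem FA34_mm_033 {κ x : ℝ} (hκ : κ * h0 = ken x) (hx : ((201326592 : ℕ) : ℝ) / S ≤ x) (hx' : x ≤ (((201326592 : ℕ) : ℝ) + (134217728 : ℕ)) / S) :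
    TriA PP.cur (farS κ (h0 * x) (tbl tKF x) (tbl tL x)) 0 3 3 3 4 (-1) (-1) :=
  (sideF hx hx').farA (Or.inr rfl) (Or.inr rfl) fun y y' F =>
    farA_cert (s1 := false) (s2 := false) rfl hκ covF30 covF43 hx hx'
        Pool.Agent.Strip051.G.I3_16_5_16.Tab.C.FA34.c_mm_033 noCut_A noExt_A F trivial trivial

theorem FA34_mm_101 {κ x : ℝ} (hκ : κ * h0 = ken x) (hx : ((201326592 : ℕ) : ℝ) / S ≤ x) (hx' : x ≤ (((201326592 : ℕ) : ℝ) + (134217728 : ℕ)) / S) :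
    TriA PP.cur (farS κ (h0 * x) (tbl tKF x) (tbl tL x)) 1 0 1 3 4 (-1) (-1) :=
  (sideF hx hx').farA (Or.inr rfl) (Or.inr rfl) fun y y' F =>
    farA_cert (s1 := false) (s2 := false) rfl hκ covF31 covF40 hx hx'
        Pool.Agent.Strip051.G.I3_16_5_16.Tab.C.FA34.c_mm_101 noCut_A noExt_A F trivial trivial

theorem FA34_mm_102 {κ x : ℝ} (hκ : κ * h0 = ken x) (hx : ((201326592 : ℕ) : ℝ) / S ≤ x) (hx' : x ≤ (((201326592 : ℕ) : ℝ) + (134217728 : ℕ)) / S) :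
    TriA PP.cur (farS κ (h0 * x) (tbl tKF x) (tbl tL x)) 1 0 2 3 4 (-1) (-1) :=
  (sideF hx hx').farA (Or.inr rfl) (Or.inr rfl) fun y y' F =>
    farA_cert (s1 := false) (s2 := false) rfl hκ covF31 covF40 hx hx'
        Pool.Agent.Strip051.G.I3_16_5_16.Tab.C.FA34.c_mm_102 noCut_A noExt_A F trivial trivial

theorem FA34_mm_112 {κ x : ℝ} (hκ : κ * h0 = ken x) (hx : ((201326592 : ℕ) : ℝ) / S ≤ x) (hx' : x ≤ (((201326592 : ℕ) : ℝ) + (134217728 : ℕ)) / S) :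
    TriA PP.cur (farS κ (h0 * x) (tbl tKF x) (tbl tL x)) 1 1 2 3 4 (-1) (-1) :=
  (sideF hx hx').farA (Or.inr rfl) (Or.inr rfl) fun y y' F =>
    farA_cert (s1 := false) (s2 := false) rfl hκ covF31 covF41 hx hx'
        Pool.Agent.Strip051.G.I3_16_5_16.Tab.C.FA34.c_mm_112 noCut_A noExt_A F trivial trivial

theorem FA34_mm_113 {κ x : ℝ} (hκ : κ * h0 = ken x) (hx : ((201326592 : ℕ) : ℝ) / S ≤ x) (hx' : x ≤ (((201326592 : ℕ) : ℝ) + (134217728 : ℕ)) / S) :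
    TriA PP.cur (farS κ (h0 * x) (tbl tKF x) (tbl tL x)) 1 1 3 3 4 (-1) (-1) :=
  (sideF hx hx').farA (Or.inr rfl) (Or.inr rfl) fun y y' F =>
    farA_cert (s1 := false) (s2 := false) rfl hκ covF31 covF41 hx hx'
        Pool.Agent.Strip051.G.I3_16_5_16.Tab.C.FA34.c_mm_113 noCut_A noExt_A F trivial trivial

theorem FA34_mm_123 {κ x : ℝ} (hκ : κ * h0 = ken x) (hx : ((201326592 : ℕ) : ℝ) / S ≤ x) (hx' : x ≤ (((201326592 : ℕ) : ℝ) + (134217728 : ℕ)) / S) :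
    TriA PP.cur (farS κ (h0 * x) (tbl tKF x) (tbl tL x)) 1 2 3 3 4 (-1) (-1) :=
  (sideF hx hx').farA (Or.inr rfl) (Or.inr rfl) fun y y' F =>
    farA_cert (s1 := false) (s2 := false) rfl hκ covF31 covF42 hx hx'
        Pool.Agent.Strip051.G.I3_16_5_16.Tab.C.FA34.c_mm_123 noCut_A noExt_A F trivial trivial

theorem FA34_mm_133 {κ x : ℝ} (hκ : κ * h0 = ken x) (hx : ((201326592 : ℕ) : ℝ) / S ≤ x) (hx' : x ≤ (((201326592 : ℕ) : ℝ) + (134217728 : ℕ)) / S) :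
    TriA PP.cur (farS κ (h0 * x) (tbl tKF x) (tbl tL x)) 1 3 3 3 4 (-1) (-1) :=
  (sideF hx hx').farA (Or.inr rfl) (Or.inr rfl) fun y y' F =>
    farA_cert (s1 := false) (s2 := false) rfl hκ covF31 covF43 hx hx'
        Pool.Agent.Strip051.G.I3_16_5_16.Tab.C.FA34.c_mm_133 noCut_A noExt_A F trivial trivial

theorem FA34_mm_202 {κ x : ℝ} (hκ : κ * h0 = ken x) (hx : ((201326592 : ℕ) : ℝ) / S ≤ x) (hx' : x ≤ (((201326592 : ℕ) : ℝ) + (134217728 : ℕ)) / S) :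
    TriA PP.cur (farS κ (h0 * x) (tbl tKF x) (tbl tL x)) 2 0 2 3 4 (-1) (-1) :=
  (sideF hx hx').farA (Or.inr rfl) (Or.inr rfl) fun y y' F =>
    farA_cert (s1 := false) (s2 := false) rfl hκ covF32 covF40 hx hx'
        Pool.Agent.Strip051.G.I3_16_5_16.Tab.C.FA34.c_mm_202 noCut_A noExt_A F trivial trivial

theorem FA34_mm_203 {κ x : ℝ} (hκ : κ * h0 = ken x) (hx : ((201326592 : ℕ) : ℝ) / S ≤ x) (hx' : x ≤ (((201326592 : ℕ) : ℝ) + (134217728 : ℕ)) / S) :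
    TriA PP.cur (farS κ (h0 * x) (tbl tKF x) (tbl tL x)) 2 0 3 3 4 (-1) (-1) :=
  (sideF hx hx').farA (Or.inr rfl) (Or.inr rfl) fun y y' F =>
    farA_cert (s1 := false) (s2 := false) rfl hκ covF32 covF40 hx hx'
        Pool.Agent.Strip051.G.I3_16_5_16.Tab.C.FA34.c_mm_203 noCut_A noExt_A F trivial trivial

theorem FA34_mm_213 {κ x : ℝ} (hκ : κ * h0 = ken x) (hx : ((201326592 : ℕ) : ℝ) / S ≤ x) (hx' : x ≤ (((201326592 : ℕ) : ℝ) + (134217728 : ℕ)) / S) :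
    TriA PP.cur (farS κ (h0 * x) (tbl tKF x) (tbl tL x)) 2 1 3 3 4 (-1) (-1) :=
  (sideF hx hx').farA (Or.inr rfl) (Or.inr rfl) fun y y' F =>
    farA_cert (s1 := false) (s2 := false) rfl hκ covF32 covF41 hx hx'
        Pool.Agent.Strip051.G.I3_16_5_16.Tab.C.FA34.c_mm_213 noCut_A noExt_A F trivial trivial

theorem FA34_mm_303 {κ x : ℝ} (hκ : κ * h0 = ken x) (hx : ((201326592 : ℕ) : ℝ) / S ≤ x) (hx' : x ≤ (((201326592 : ℕ) : ℝ) + (134217728 : ℕ)) / S) :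
    TriA PP.cur (farS κ (h0 * x) (tbl tKF x) (tbl tL x)) 3 0 3 3 4 (-1) (-1) :=
  (sideF hx hx').farA (Or.inr rfl) (Or.inr rfl) fun y y' F =>
    farA_cert (s1 := false) (s2 := false) rfl hκ covF33 covF40 hx hx'
        Pool.Agent.Strip051.G.I3_16_5_16.Tab.C.FA34.c_mm_303 noCut_A noExt_A F trivial trivial

theorem FA34_mm_313 {κ x : ℝ} (hκ : κ * h0 = ken x) (hx : ((201326592 : ℕ) : ℝ) / S ≤ x) (hx' : x ≤ (((201326592 : ℕ) : ℝ) + (134217728 : ℕ)) / S) :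
    TriA PP.cur (farS κ (h0 * x) (tbl tKF x) (tbl tL x)) 3 1 3 3 4 (-1) (-1) :=
  (sideF hx hx').farA (Or.inr rfl) (Or.inr rfl) fun y y' F =>
    farA_cert (s1 := false) (s2 := false) rfl hκ covF33 covF41 hx hx'
        Pool.Agent.Strip051.G.I3_16_5_16.Tab.C.FA34.c_mm_313 noCut_A noExt_A F trivial trivial

theorem FA34 {κ x : ℝ} (hκ : κ * h0 = ken x) (hx : ((201326592 : ℕ) : ℝ) / S ≤ x) (hx' : x ≤ (((201326592 : ℕ) : ℝ) + (134217728 : ℕ)) / S) : AllTA PP.cur (farS κ (h0 * x) (tbl tKF x) (tbl tL x)) 3 4 where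
  pp := all17 (Q := fun a b c => TriA PP.cur (farS κ (h0 * x) (tbl tKF x) (tbl tL x)) a b c 3 4 1 1)
    (FA34_pp_001 hκ hx hx') (FA34_pp_011 hκ hx hx') (FA34_pp_012 hκ hx hx') (FA34_pp_022 hκ hx hx') (FA34_pp_023 hκ hx hx') (FA34_pp_033 hκ hx hx') (FA34_pp_101 hκ hx hx') (FA34_pp_102 hκ hx hx') (FA34_pp_112 hκ hx hx') (FA34_pp_113 hκ hx hx') (FA34_pp_123 hκ hx hx') (FA34_pp_133 hκ hx hx') (FA34_pp_202 hκ hx hx') (FA34_pp_203 hκ hx hx') (FA34_pp_213 hκ hx hx') (FA34_pp_303 hκ hx hx') (FA34_pp_313 hκ hx hx')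
  pm := all17 (Q := fun a b c => TriA PP.cur (farS κ (h0 * x) (tbl tKF x) (tbl tL x)) a b c 3 4 1 (-1))
    (FA34_pm_001 hκ hx hx') (FA34_pm_011 hκ hx hx') (FA34_pm_012 hκ hx hx') (FA34_pm_022 hκ hx hx') (FA34_pm_023 hκ hx hx') (FA34_pm_033 hκ hx hx') (FA34_pm_101 hκ hx hx') (FA34_pm_102 hκ hx hx') (FA34_pm_112 hκ hx hx') (FA34_pm_113 hκ hx hx') (FA34_pm_123 hκ hx hx') (FA34_pm_133 hκ hx hx') (FA34_pm_202 hκ hx hx') (FA34_pm_203 hκ hx hx') (FA34_pm_213 hκ hx hx') (FA34_pm_303 hκ hx hx') (FA34_pm_313 hκ hx hx')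
  mm := all17 (Q := fun a b c => TriA PP.cur (farS κ (h0 * x) (tbl tKF x) (tbl tL x)) a b c 3 4 (-1) (-1))
    (FA34_mm_001 hκ hx hx') (FA34_mm_011 hκ hx hx') (FA34_mm_012 hκ hx hx') (FA34_mm_022 hκ hx hx') (FA34_mm_023 hκ hx hx') (FA34_mm_033 hκ hx hx') (FA34_mm_101 hκ hx hx') (FA34_mm_102 hκ hx hx') (FA34_mm_112 hκ hx hx') (FA34_mm_113 hκ hx hx') (FA34_mm_123 hκ hx hx') (FA34_mm_133 hκ hx hx') (FA34_mm_202 hκ hx hx') (FA34_mm_203 hκ hx hx') (FA34_mm_213 hκ hx hx') (FA34_mm_303 hκ hx hx') (FA34_mm_313 hκ hx hx')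

theorem FA35_pp_001 {κ x : ℝ} (hκ : κ * h0 = ken x) (hx : ((201326592 : ℕ) : ℝ) / S ≤ x) (hx' : x ≤ (((201326592 : ℕ) : ℝ) + (134217728 : ℕ)) / S) :
    TriA PP.cur (farS κ (h0 * x) (tbl tKF x) (tbl tL x)) 0 0 1 3 5 1 1 :=
  (sideF hx hx').farA (Or.inl rfl) (Or.inl rfl) fun y y' F =>
    farA_cert (s1 := true) (s2 := true) rfl hκ covF30 covF50 hx hx'
        Pool.Agent.Strip051.G.I3_16_5_16.Tab.C.FA35.c_pp_001 noCut_A noExt_A F trivial trivial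

theorem FA35_pp_011 {κ x : ℝ} (hκ : κ * h0 = ken x) (hx : ((201326592 : ℕ) : ℝ) / S ≤ x) (hx' : x ≤ (((201326592 : ℕ) : ℝ) + (134217728 : ℕ)) / S) :
    TriA PP.cur (farS κ (h0 * x) (tbl tKF x) (tbl tL x)) 0 1 1 3 5 1 1 :=
  (sideF hx hx').farA (Or.inl rfl) (Or.inl rfl) fun y y' F =>
    farA_cert (s1 := true) (s2 := true) rfl hκ covF30 covF51 hx hx'
        Pool.Agent.Strip051.G.I3_16_5_16.Tab.C.FA35.c_pp_011 noCut_A noExt_A F trivial trivial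

theorem FA35_pp_012 {κ x : ℝ} (hκ : κ * h0 = ken x) (hx : ((201326592 : ℕ) : ℝ) / S ≤ x) (hx' : x ≤ (((201326592 : ℕ) : ℝ) + (134217728 : ℕ)) / S) :
    TriA PP.cur (farS κ (h0 * x) (tbl tKF x) (tbl tL x)) 0 1 2 3 5 1 1 :=
  (sideF hx hx').farA (Or.inl rfl) (Or.inl rfl) fun y y' F =>
    farA_cert (s1 := true) (s2 := true) rfl hκ covF30 covF51 hx hx'
        Pool.Agent.Strip051.G.I3_16_5_16.Tab.C.FA35.c_pp_012 noCut_A noExt_A F trivial trivial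

theorem FA35_pp_022 {κ x : ℝ} (hκ : κ * h0 = ken x) (hx : ((201326592 : ℕ) : ℝ) / S ≤ x) (hx' : x ≤ (((201326592 : ℕ) : ℝ) + (134217728 : ℕ)) / S) :
    TriA PP.cur (farS κ (h0 * x) (tbl tKF x) (tbl tL x)) 0 2 2 3 5 1 1 :=
  (sideF hx hx').farA (Or.inl rfl) (Or.inl rfl) fun y y' F =>
    farA_cert (s1 := true) (s2 := true) rfl hκ covF30 covF52 hx hx'
        Pool.Agent.Strip051.G.I3_16_5_16.Tab.C.FA35.c_pp_022 noCut_A noExt_A F trivial trivial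

theorem FA35_pp_023 {κ x : ℝ} (hκ : κ * h0 = ken x) (hx : ((201326592 : ℕ) : ℝ) / S ≤ x) (hx' : x ≤ (((201326592 : ℕ) : ℝ) + (134217728 : ℕ)) / S) :
    TriA PP.cur (farS κ (h0 * x) (tbl tKF x) (tbl tL x)) 0 2 3 3 5 1 1 :=
  (sideF hx hx').farA (Or.inl rfl) (Or.inl rfl) fun y y' F =>
    farA_cert (s1 := true) (s2 := true) rfl hκ covF30 covF52 hx hx'
        Pool.Agent.Strip051.G.I3_16_5_16.Tab.C.FA35.c_pp_023 noCut_A noExt_A F trivial trivial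

theorem FA35_pp_033 {κ x : ℝ} (hκ : κ * h0 = ken x) (hx : ((201326592 : ℕ) : ℝ) / S ≤ x) (hx' : x ≤ (((201326592 : ℕ) : ℝ) + (134217728 : ℕ)) / S) :
    TriA PP.cur (farS κ (h0 * x) (tbl tKF x) (tbl tL x)) 0 3 3 3 5 1 1 :=
  (sideF hx hx').farA (Or.inl rfl) (Or.inl rfl) fun y y' F =>
    farA_cert (s1 := true) (s2 := true) rfl hκ covF30 covF53 hx hx'
        Pool.Agent.Strip051.G.I3_16_5_16.Tab.C.FA35.c_pp_033 noCut_A noExt_A F trivial trivial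

theorem FA35_pp_101 {κ x : ℝ} (hκ : κ * h0 = ken x) (hx : ((201326592 : ℕ) : ℝ) / S ≤ x) (hx' : x ≤ (((201326592 : ℕ) : ℝ) + (134217728 : ℕ)) / S) :
    TriA PP.cur (farS κ (h0 * x) (tbl tKF x) (tbl tL x)) 1 0 1 3 5 1 1 :=
  (sideF hx hx').farA (Or.inl rfl) (Or.inl rfl) fun y y' F =>
    farA_cert (s1 := true) (s2 := true) rfl hκ covF31 covF50 hx hx'
        Pool.Agent.Strip051.G.I3_16_5_16.Tab.C.FA35.c_pp_101 noCut_A noExt_A F trivial trivial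

theorem FA35_pp_102 {κ x : ℝ} (hκ : κ * h0 = ken x) (hx : ((201326592 : ℕ) : ℝ) / S ≤ x) (hx' : x ≤ (((201326592 : ℕ) : ℝ) + (134217728 : ℕ)) / S) :
    TriA PP.cur (farS κ (h0 * x) (tbl tKF x) (tbl tL x)) 1 0 2 3 5 1 1 :=
  (sideF hx hx').farA (Or.inl rfl) (Or.inl rfl) fun y y' F =>
    farA_cert (s1 := true) (s2 := true) rfl hκ covF31 covF50 hx hx'
        Pool.Agent.Strip051.G.I3_16_5_16.Tab.C.FA35.c_pp_102 noCut_A noExt_A F trivial trivial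

theorem FA35_pp_112 {κ x : ℝ} (hκ : κ * h0 = ken x) (hx : ((201326592 : ℕ) : ℝ) / S ≤ x) (hx' : x ≤ (((201326592 : ℕ) : ℝ) + (134217728 : ℕ)) / S) :
    TriA PP.cur (farS κ (h0 * x) (tbl tKF x) (tbl tL x)) 1 1 2 3 5 1 1 :=
  (sideF hx hx').farA (Or.inl rfl) (Or.inl rfl) fun y y' F =>
    farA_cert (s1 := true) (s2 := true) rfl hκ covF31 covF51 hx hx'
        Pool.Agent.Strip051.G.I3_16_5_16.Tab.C.FA35.c_pp_112 noCut_A noExt_A F trivial trivial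

theorem FA35_pp_113 {κ x : ℝ} (hκ : κ * h0 = ken x) (hx : ((201326592 : ℕ) : ℝ) / S ≤ x) (hx' : x ≤ (((201326592 : ℕ) : ℝ) + (134217728 : ℕ)) / S) :
    TriA PP.cur (farS κ (h0 * x) (tbl tKF x) (tbl tL x)) 1 1 3 3 5 1 1 :=
  (sideF hx hx').farA (Or.inl rfl) (Or.inl rfl) fun y y' F =>
    farA_cert (s1 := true) (s2 := true) rfl hκ covF31 covF51 hx hx'
        Pool.Agent.Strip051.G.I3_16_5_16.Tab.C.FA35.c_pp_113 noCut_A noExt_A F trivial trivial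

theorem FA35_pp_123 {κ x : ℝ} (hκ : κ * h0 = ken x) (hx : ((201326592 : ℕ) : ℝ) / S ≤ x) (hx' : x ≤ (((201326592 : ℕ) : ℝ) + (134217728 : ℕ)) / S) :
    TriA PP.cur (farS κ (h0 * x) (tbl tKF x) (tbl tL x)) 1 2 3 3 5 1 1 :=
  (sideF hx hx').farA (Or.inl rfl) (Or.inl rfl) fun y y' F =>
    farA_cert (s1 := true) (s2 := true) rfl hκ covF31 covF52 hx hx'
        Pool.Agent.Strip051.G.I3_16_5_16.Tab.C.FA35.c_pp_123 noCut_A noExt_A F trivial trivial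

theorem FA35_pp_133 {κ x : ℝ} (hκ : κ * h0 = ken x) (hx : ((201326592 : ℕ) : ℝ) / S ≤ x) (hx' : x ≤ (((201326592 : ℕ) : ℝ) + (134217728 : ℕ)) / S) :
    TriA PP.cur (farS κ (h0 * x) (tbl tKF x) (tbl tL x)) 1 3 3 3 5 1 1 :=
  (sideF hx hx').farA (Or.inl rfl) (Or.inl rfl) fun y y' F =>
    farA_cert (s1 := true) (s2 := true) rfl hκ covF31 covF53 hx hx'
        Pool.Agent.Strip051.G.I3_16_5_16.Tab.C.FA35.c_pp_133 noCut_A noExt_A F trivial trivial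

theorem FA35_pp_202 {κ x : ℝ} (hκ : κ * h0 = ken x) (hx : ((201326592 : ℕ) : ℝ) / S ≤ x) (hx' : x ≤ (((201326592 : ℕ) : ℝ) + (134217728 : ℕ)) / S) :
    TriA PP.cur (farS κ (h0 * x) (tbl tKF x) (tbl tL x)) 2 0 2 3 5 1 1 :=
  (sideF hx hx').farA (Or.inl rfl) (Or.inl rfl) fun y y' F =>
    farA_cert (s1 := true) (s2 := true) rfl hκ covF32 covF50 hx hx'
        Pool.Agent.Strip051.G.I3_16_5_16.Tab.C.FA35.c_pp_202 noCut_A noExt_A F trivial trivial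

theorem FA35_pp_203 {κ x : ℝ} (hκ : κ * h0 = ken x) (hx : ((201326592 : ℕ) : ℝ) / S ≤ x) (hx' : x ≤ (((201326592 : ℕ) : ℝ) + (134217728 : ℕ)) / S) :
    TriA PP.cur (farS κ (h0 * x) (tbl tKF x) (tbl tL x)) 2 0 3 3 5 1 1 :=
  (sideF hx hx').farA (Or.inl rfl) (Or.inl rfl) fun y y' F =>
    farA_cert (s1 := true) (s2 := true) rfl hκ covF32 covF50 hx hx'
        Pool.Agent.Strip051.G.I3_16_5_16.Tab.C.FA35.c_pp_203 noCut_A noExt_A F trivial trivial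

theorem FA35_pp_213 {κ x : ℝ} (hκ : κ * h0 = ken x) (hx : ((201326592 : ℕ) : ℝ) / S ≤ x) (hx' : x ≤ (((201326592 : ℕ) : ℝ) + (134217728 : ℕ)) / S) :
    TriA PP.cur (farS κ (h0 * x) (tbl tKF x) (tbl tL x)) 2 1 3 3 5 1 1 :=
  (sideF hx hx').farA (Or.inl rfl) (Or.inl rfl) fun y y' F =>
    farA_cert (s1 := true) (s2 := true) rfl hκ covF32 covF51 hx hx'
        Pool.Agent.Strip051.G.I3_16_5_16.Tab.C.FA35.c_pp_213 noCut_A noExt_A F trivial trivial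

theorem FA35_pp_303 {κ x : ℝ} (hκ : κ * h0 = ken x) (hx : ((201326592 : ℕ) : ℝ) / S ≤ x) (hx' : x ≤ (((201326592 : ℕ) : ℝ) + (134217728 : ℕ)) / S) :
    TriA PP.cur (farS κ (h0 * x) (tbl tKF x) (tbl tL x)) 3 0 3 3 5 1 1 :=
  (sideF hx hx').farA (Or.inl rfl) (Or.inl rfl) fun y y' F =>
    farA_cert (s1 := true) (s2 := true) rfl hκ covF33 covF50 hx hx'
        Pool.Agent.Strip051.G.I3_16_5_16.Tab.C.FA35.c_pp_303 noCut_A noExt_A F trivial trivial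

theorem FA35_pp_313 {κ x : ℝ} (hκ : κ * h0 = ken x) (hx : ((201326592 : ℕ) : ℝ) / S ≤ x) (hx' : x ≤ (((201326592 : ℕ) : ℝ) + (134217728 : ℕ)) / S) :
    TriA PP.cur (farS κ (h0 * x) (tbl tKF x) (tbl tL x)) 3 1 3 3 5 1 1 :=
  (sideF hx hx').farA (Or.inl rfl) (Or.inl rfl) fun y y' F =>
    farA_cert (s1 := true) (s2 := true) rfl hκ covF33 covF51 hx hx'
        Pool.Agent.Strip051.G.I3_16_5_16.Tab.C.FA35.c_pp_313 noCut_A noExt_A F trivial trivial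

theorem FA35_pm_001 {κ x : ℝ} (hκ : κ * h0 = ken x) (hx : ((201326592 : ℕ) : ℝ) / S ≤ x) (hx' : x ≤ (((201326592 : ℕ) : ℝ) + (134217728 : ℕ)) / S) :
    TriA PP.cur (farS κ (h0 * x) (tbl tKF x) (tbl tL x)) 0 0 1 3 5 1 (-1) :=
  (sideF hx hx').farA (Or.inl rfl) (Or.inr rfl) fun y y' F =>
    farA_cert (s1 := true) (s2 := false) rfl hκ covF30 covF50 hx hx'
        Pool.Agent.Strip051.G.I3_16_5_16.Tab.C.FA35.c_pm_001 noCut_A noExt_A F trivial trivial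

theorem FA35_pm_011 {κ x : ℝ} (hκ : κ * h0 = ken x) (hx : ((201326592 : ℕ) : ℝ) / S ≤ x) (hx' : x ≤ (((201326592 : ℕ) : ℝ) + (134217728 : ℕ)) / S) :
    TriA PP.cur (farS κ (h0 * x) (tbl tKF x) (tbl tL x)) 0 1 1 3 5 1 (-1) :=
  (sideF hx hx').farA (Or.inl rfl) (Or.inr rfl) fun y y' F =>
    farA_cert (s1 := true) (s2 := false) rfl hκ covF30 covF51 hx hx'
        Pool.Agent.Strip051.G.I3_16_5_16.Tab.C.FA35.c_pm_011 noCut_A noExt_A F trivial trivial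

theorem FA35_pm_012 {κ x : ℝ} (hκ : κ * h0 = ken x) (hx : ((201326592 : ℕ) : ℝ) / S ≤ x) (hx' : x ≤ (((201326592 : ℕ) : ℝ) + (134217728 : ℕ)) / S) :
    TriA PP.cur (farS κ (h0 * x) (tbl tKF x) (tbl tL x)) 0 1 2 3 5 1 (-1) :=
  (sideF hx hx').farA (Or.inl rfl) (Or.inr rfl) fun y y' F =>
    farA_cert (s1 := true) (s2 := false) rfl hκ covF30 covF51 hx hx'
        Pool.Agent.Strip051.G.I3_16_5_16.Tab.C.FA35.c_pm_012 noCut_A noExt_A F trivial trivial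

theorem FA35_pm_022 {κ x : ℝ} (hκ : κ * h0 = ken x) (hx : ((201326592 : ℕ) : ℝ) / S ≤ x) (hx' : x ≤ (((201326592 : ℕ) : ℝ) + (134217728 : ℕ)) / S) :
    TriA PP.cur (farS κ (h0 * x) (tbl tKF x) (tbl tL x)) 0 2 2 3 5 1 (-1) :=
  (sideF hx hx').farA (Or.inl rfl) (Or.inr rfl) fun y y' F =>
    farA_cert (s1 := true) (s2 := false) rfl hκ covF30 covF52 hx hx'
        Pool.Agent.Strip051.G.I3_16_5_16.Tab.C.FA35.c_pm_022 noCut_A noExt_A F trivial trivial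

theorem FA35_pm_023 {κ x : ℝ} (hκ : κ * h0 = ken x) (hx : ((201326592 : ℕ) : ℝ) / S ≤ x) (hx' : x ≤ (((201326592 : ℕ) : ℝ) + (134217728 : ℕ)) / S) :
    TriA PP.cur (farS κ (h0 * x) (tbl tKF x) (tbl tL x)) 0 2 3 3 5 1 (-1) :=
  (sideF hx hx').farA (Or.inl rfl) (Or.inr rfl) fun y y' F =>
    farA_cert (s1 := true) (s2 := false) rfl hκ covF30 covF52 hx hx'
        Pool.Agent.Strip051.G.I3_16_5_16.Tab.C.FA35.c_pm_023 noCut_A noExt_A F trivial trivial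

theorem FA35_pm_033 {κ x : ℝ} (hκ : κ * h0 = ken x) (hx : ((201326592 : ℕ) : ℝ) / S ≤ x) (hx' : x ≤ (((201326592 : ℕ) : ℝ) + (134217728 : ℕ)) / S) :
    TriA PP.cur (farS κ (h0 * x) (tbl tKF x) (tbl tL x)) 0 3 3 3 5 1 (-1) :=
  (sideF hx hx').farA (Or.inl rfl) (Or.inr rfl) fun y y' F =>
    farA_cert (s1 := true) (s2 := false) rfl hκ covF30 covF53 hx hx'
        Pool.Agent.Strip051.G.I3_16_5_16.Tab.C.FA35.c_pm_033 noCut_A noExt_A F trivial trivial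

theorem FA35_pm_101 {κ x : ℝ} (hκ : κ * h0 = ken x) (hx : ((201326592 : ℕ) : ℝ) / S ≤ x) (hx' : x ≤ (((201326592 : ℕ) : ℝ) + (134217728 : ℕ)) / S) :
    TriA PP.cur (farS κ (h0 * x) (tbl tKF x) (tbl tL x)) 1 0 1 3 5 1 (-1) :=
  (sideF hx hx').farA (Or.inl rfl) (Or.inr rfl) fun y y' F =>
    farA_cert (s1 := true) (s2 := false) rfl hκ covF31 covF50 hx hx'
        Pool.Agent.Strip051.G.I3_16_5_16.Tab.C.FA35.c_pm_101 noCut_A noExt_A F trivial trivial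

theorem FA35_pm_102 {κ x : ℝ} (hκ : κ * h0 = ken x) (hx : ((201326592 : ℕ) : ℝ) / S ≤ x) (hx' : x ≤ (((201326592 : ℕ) : ℝ) + (134217728 : ℕ)) / S) :
    TriA PP.cur (farS κ (h0 * x) (tbl tKF x) (tbl tL x)) 1 0 2 3 5 1 (-1) :=
  (sideF hx hx').farA (Or.inl rfl) (Or.inr rfl) fun y y' F =>
    farA_cert (s1 := true) (s2 := false) rfl hκ covF31 covF50 hx hx'
        Pool.Agent.Strip051.G.I3_16_5_16.Tab.C.FA35.c_pm_102 noCut_A noExt_A F trivial trivial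

theorem FA35_pm_112 {κ x : ℝ} (hκ : κ * h0 = ken x) (hx : ((201326592 : ℕ) : ℝ) / S ≤ x) (hx' : x ≤ (((201326592 : ℕ) : ℝ) + (134217728 : ℕ)) / S) :
    TriA PP.cur (farS κ (h0 * x) (tbl tKF x) (tbl tL x)) 1 1 2 3 5 1 (-1) :=
  (sideF hx hx').farA (Or.inl rfl) (Or.inr rfl) fun y y' F =>
    farA_cert (s1 := true) (s2 := false) rfl hκ covF31 covF51 hx hx'
        Pool.Agent.Strip051.G.I3_16_5_16.Tab.C.FA35.c_pm_112 noCut_A noExt_A F trivial trivial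

theorem FA35_pm_113 {κ x : ℝ} (hκ : κ * h0 = ken x) (hx : ((201326592 : ℕ) : ℝ) / S ≤ x) (hx' : x ≤ (((201326592 : ℕ) : ℝ) + (134217728 : ℕ)) / S) :
    TriA PP.cur (farS κ (h0 * x) (tbl tKF x) (tbl tL x)) 1 1 3 3 5 1 (-1) :=
  (sideF hx hx').farA (Or.inl rfl) (Or.inr rfl) fun y y' F =>
    farA_cert (s1 := true) (s2 := false) rfl hκ covF31 covF51 hx hx'
        Pool.Agent.Strip051.G.I3_16_5_16.Tab.C.FA35.c_pm_113 noCut_A noExt_A F trivial trivial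

theorem FA35_pm_123 {κ x : ℝ} (hκ : κ * h0 = ken x) (hx : ((201326592 : ℕ) : ℝ) / S ≤ x) (hx' : x ≤ (((201326592 : ℕ) : ℝ) + (134217728 : ℕ)) / S) :
    TriA PP.cur (farS κ (h0 * x) (tbl tKF x) (tbl tL x)) 1 2 3 3 5 1 (-1) :=
  (sideF hx hx').farA (Or.inl rfl) (Or.inr rfl) fun y y' F =>
    farA_cert (s1 := true) (s2 := false) rfl hκ covF31 covF52 hx hx'
        Pool.Agent.Strip051.G.I3_16_5_16.Tab.C.FA35.c_pm_123 noCut_A noExt_A F trivial trivial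

theorem FA35_pm_133 {κ x : ℝ} (hκ : κ * h0 = ken x) (hx : ((201326592 : ℕ) : ℝ) / S ≤ x) (hx' : x ≤ (((201326592 : ℕ) : ℝ) + (134217728 : ℕ)) / S) :
    TriA PP.cur (farS κ (h0 * x) (tbl tKF x) (tbl tL x)) 1 3 3 3 5 1 (-1) :=
  (sideF hx hx').farA (Or.inl rfl) (Or.inr rfl) fun y y' F =>
    farA_cert (s1 := true) (s2 := false) rfl hκ covF31 covF53 hx hx'
        Pool.Agent.Strip051.G.I3_16_5_16.Tab.C.FA35.c_pm_133 noCut_A noExt_A F trivial trivial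

theorem FA35_pm_202 {κ x : ℝ} (hκ : κ * h0 = ken x) (hx : ((201326592 : ℕ) : ℝ) / S ≤ x) (hx' : x ≤ (((201326592 : ℕ) : ℝ) + (134217728 : ℕ)) / S) :
    TriA PP.cur (farS κ (h0 * x) (tbl tKF x) (tbl tL x)) 2 0 2 3 5 1 (-1) :=
  (sideF hx hx').farA (Or.inl rfl) (Or.inr rfl) fun y y' F =>
    farA_cert (s1 := true) (s2 := false) rfl hκ covF32 covF50 hx hx'
        Pool.Agent.Strip051.G.I3_16_5_16.Tab.C.FA35.c_pm_202 noCut_A noExt_A F trivial trivial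

theorem FA35_pm_203 {κ x : ℝ} (hκ : κ * h0 = ken x) (hx : ((201326592 : ℕ) : ℝ) / S ≤ x) (hx' : x ≤ (((201326592 : ℕ) : ℝ) + (134217728 : ℕ)) / S) :
    TriA PP.cur (farS κ (h0 * x) (tbl tKF x) (tbl tL x)) 2 0 3 3 5 1 (-1) :=
  (sideF hx hx').farA (Or.inl rfl) (Or.inr rfl) fun y y' F =>
    farA_cert (s1 := true) (s2 := false) rfl hκ covF32 covF50 hx hx'
        Pool.Agent.Strip051.G.I3_16_5_16.Tab.C.FA35.c_pm_203 noCut_A noExt_A F trivial trivial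

theorem FA35_pm_213 {κ x : ℝ} (hκ : κ * h0 = ken x) (hx : ((201326592 : ℕ) : ℝ) / S ≤ x) (hx' : x ≤ (((201326592 : ℕ) : ℝ) + (134217728 : ℕ)) / S) :
    TriA PP.cur (farS κ (h0 * x) (tbl tKF x) (tbl tL x)) 2 1 3 3 5 1 (-1) :=
  (sideF hx hx').farA (Or.inl rfl) (Or.inr rfl) fun y y' F =>
    farA_cert (s1 := true) (s2 := false) rfl hκ covF32 covF51 hx hx'
        Pool.Agent.Strip051.G.I3_16_5_16.Tab.C.FA35.c_pm_213 noCut_A noExt_A F trivial trivial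

theorem FA35_pm_303 {κ x : ℝ} (hκ : κ * h0 = ken x) (hx : ((201326592 : ℕ) : ℝ) / S ≤ x) (hx' : x ≤ (((201326592 : ℕ) : ℝ) + (134217728 : ℕ)) / S) :
    TriA PP.cur (farS κ (h0 * x) (tbl tKF x) (tbl tL x)) 3 0 3 3 5 1 (-1) :=
  (sideF hx hx').farA (Or.inl rfl) (Or.inr rfl) fun y y' F =>
    farA_cert (s1 := true) (s2 := false) rfl hκ covF33 covF50 hx hx'
        Pool.Agent.Strip051.G.I3_16_5_16.Tab.C.FA35.c_pm_303 noCut_A noExt_A F trivial trivial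

theorem FA35_pm_313 {κ x : ℝ} (hκ : κ * h0 = ken x) (hx : ((201326592 : ℕ) : ℝ) / S ≤ x) (hx' : x ≤ (((201326592 : ℕ) : ℝ) + (134217728 : ℕ)) / S) :
    TriA PP.cur (farS κ (h0 * x) (tbl tKF x) (tbl tL x)) 3 1 3 3 5 1 (-1) :=
  (sideF hx hx').farA (Or.inl rfl) (Or.inr rfl) fun y y' F =>
    farA_cert (s1 := true) (s2 := false) rfl hκ covF33 covF51 hx hx'
        Pool.Agent.Strip051.G.I3_16_5_16.Tab.C.FA35.c_pm_313 noCut_A noExt_A F trivial trivial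

theorem FA35_mm_001 {κ x : ℝ} (hκ : κ * h0 = ken x) (hx : ((201326592 : ℕ) : ℝ) / S ≤ x) (hx' : x ≤ (((201326592 : ℕ) : ℝ) + (134217728 : ℕ)) / S) :
    TriA PP.cur (farS κ (h0 * x) (tbl tKF x) (tbl tL x)) 0 0 1 3 5 (-1) (-1) :=
  (sideF hx hx').farA (Or.inr rfl) (Or.inr rfl) fun y y' F =>
    farA_cert (s1 := false) (s2 := false) rfl hκ covF30 covF50 hx hx'
        Pool.Agent.Strip051.G.I3_16_5_16.Tab.C.FA35.c_mm_001 noCut_A noExt_A F trivial trivial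

theorem FA35_mm_011 {κ x : ℝ} (hκ : κ * h0 = ken x) (hx : ((201326592 : ℕ) : ℝ) / S ≤ x) (hx' : x ≤ (((201326592 : ℕ) : ℝ) + (134217728 : ℕ)) / S) :
    TriA PP.cur (farS κ (h0 * x) (tbl tKF x) (tbl tL x)) 0 1 1 3 5 (-1) (-1) :=
  (sideF hx hx').farA (Or.inr rfl) (Or.inr rfl) fun y y' F =>
    farA_cert (s1 := false) (s2 := false) rfl hκ covF30 covF51 hx hx'
        Pool.Agent.Strip051.G.I3_16_5_16.Tab.C.FA35.c_mm_011 noCut_A noExt_A F trivial trivial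

theorem FA35_mm_012 {κ x : ℝ} (hκ : κ * h0 = ken x) (hx : ((201326592 : ℕ) : ℝ) / S ≤ x) (hx' : x ≤ (((201326592 : ℕ) : ℝ) + (134217728 : ℕ)) / S) :
    TriA PP.cur (farS κ (h0 * x) (tbl tKF x) (tbl tL x)) 0 1 2 3 5 (-1) (-1) :=
  (sideF hx hx').farA (Or.inr rfl) (Or.inr rfl) fun y y' F =>
    farA_cert (s1 := false) (s2 := false) rfl hκ covF30 covF51 hx hx'
        Pool.Agent.Strip051.G.I3_16_5_16.Tab.C.FA35.c_mm_012 noCut_A noExt_A F trivial trivial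

theorem FA35_mm_022 {κ x : ℝ} (hκ : κ * h0 = ken x) (hx : ((201326592 : ℕ) : ℝ) / S ≤ x) (hx' : x ≤ (((201326592 : ℕ) : ℝ) + (134217728 : ℕ)) / S) :
    TriA PP.cur (farS κ (h0 * x) (tbl tKF x) (tbl tL x)) 0 2 2 3 5 (-1) (-1) :=
  (sideF hx hx').farA (Or.inr rfl) (Or.inr rfl) fun y y' F =>
    farA_cert (s1 := false) (s2 := false) rfl hκ covF30 covF52 hx hx'
        Pool.Agent.Strip051.G.I3_16_5_16.Tab.C.FA35.c_mm_022 noCut_A noExt_A F trivial trivial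

theorem FA35_mm_023 {κ x : ℝ} (hκ : κ * h0 = ken x) (hx : ((201326592 : ℕ) : ℝ) / S ≤ x) (hx' : x ≤ (((201326592 : ℕ) : ℝ) + (134217728 : ℕ)) / S) :
    TriA PP.cur (farS κ (h0 * x) (tbl tKF x) (tbl tL x)) 0 2 3 3 5 (-1) (-1) :=
  (sideF hx hx').farA (Or.inr rfl) (Or.inr rfl) fun y y' F =>
    farA_cert (s1 := false) (s2 := false) rfl hκ covF30 covF52 hx hx'
        Pool.Agent.Strip051.G.I3_16_5_16.Tab.C.FA35.c_mm_023 noCut_A noExt_A F trivial trivial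

theorem FA35_mm_033 {κ x : ℝ} (hκ : κ * h0 = ken x) (hx : ((201326592 : ℕ) : ℝ) / S ≤ x) (hx' : x ≤ (((201326592 : ℕ) : ℝ) + (134217728 : ℕ)) / S) :
    TriA PP.cur (farS κ (h0 * x) (tbl tKF x) (tbl tL x)) 0 3 3 3 5 (-1) (-1) :=
  (sideF hx hx').farA (Or.inr rfl) (Or.inr rfl) fun y y' F =>
    farA_cert (s1 := false) (s2 := false) rfl hκ covF30 covF53 hx hx'
        Pool.Agent.Strip051.G.I3_16_5_16.Tab.C.FA35.c_mm_033 noCut_A noExt_A F trivial trivial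

theorem FA35_mm_101 {κ x : ℝ} (hκ : κ * h0 = ken x) (hx : ((201326592 : ℕ) : ℝ) / S ≤ x) (hx' : x ≤ (((201326592 : ℕ) : ℝ) + (134217728 : ℕ)) / S) :
    TriA PP.cur (farS κ (h0 * x) (tbl tKF x) (tbl tL x)) 1 0 1 3 5 (-1) (-1) :=
  (sideF hx hx').farA (Or.inr rfl) (Or.inr rfl) fun y y' F =>
    farA_cert (s1 := false) (s2 := false) rfl hκ covF31 covF50 hx hx'
        Pool.Agent.Strip051.G.I3_16_5_16.Tab.C.FA35.c_mm_101 noCut_A noExt_A F trivial trivial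

theorem FA35_mm_102 {κ x : ℝ} (hκ : κ * h0 = ken x) (hx : ((201326592 : ℕ) : ℝ) / S ≤ x) (hx' : x ≤ (((201326592 : ℕ) : ℝ) + (134217728 : ℕ)) / S) :
    TriA PP.cur (farS κ (h0 * x) (tbl tKF x) (tbl tL x)) 1 0 2 3 5 (-1) (-1) :=
  (sideF hx hx').farA (Or.inr rfl) (Or.inr rfl) fun y y' F =>
    farA_cert (s1 := false) (s2 := false) rfl hκ covF31 covF50 hx hx'
        Pool.Agent.Strip051.G.I3_16_5_16.Tab.C.FA35.c_mm_102 noCut_A noExt_A F trivial trivial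

theorem FA35_mm_112 {κ x : ℝ} (hκ : κ * h0 = ken x) (hx : ((201326592 : ℕ) : ℝ) / S ≤ x) (hx' : x ≤ (((201326592 : ℕ) : ℝ) + (134217728 : ℕ)) / S) :
    TriA PP.cur (farS κ (h0 * x) (tbl tKF x) (tbl tL x)) 1 1 2 3 5 (-1) (-1) :=
  (sideF hx hx').farA (Or.inr rfl) (Or.inr rfl) fun y y' F =>
    farA_cert (s1 := false) (s2 := false) rfl hκ covF31 covF51 hx hx'
        Pool.Agent.Strip051.G.I3_16_5_16.Tab.C.FA35.c_mm_112 noCut_A noExt_A F trivial trivial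

theorem FA35_mm_113 {κ x : ℝ} (hκ : κ * h0 = ken x) (hx : ((201326592 : ℕ) : ℝ) / S ≤ x) (hx' : x ≤ (((201326592 : ℕ) : ℝ) + (134217728 : ℕ)) / S) :
    TriA PP.cur (farS κ (h0 * x) (tbl tKF x) (tbl tL x)) 1 1 3 3 5 (-1) (-1) :=
  (sideF hx hx').farA (Or.inr rfl) (Or.inr rfl) fun y y' F =>
    farA_cert (s1 := false) (s2 := false) rfl hκ covF31 covF51 hx hx'
        Pool.Agent.Strip051.G.I3_16_5_16.Tab.C.FA35.c_mm_113 noCut_A noExt_A F trivial trivial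

theorem FA35_mm_123 {κ x : ℝ} (hκ : κ * h0 = ken x) (hx : ((201326592 : ℕ) : ℝ) / S ≤ x) (hx' : x ≤ (((201326592 : ℕ) : ℝ) + (134217728 : ℕ)) / S) :
    TriA PP.cur (farS κ (h0 * x) (tbl tKF x) (tbl tL x)) 1 2 3 3 5 (-1) (-1) :=
  (sideF hx hx').farA (Or.inr rfl) (Or.inr rfl) fun y y' F =>
    farA_cert (s1 := false) (s2 := false) rfl hκ covF31 covF52 hx hx'
        Pool.Agent.Strip051.G.I3_16_5_16.Tab.C.FA35.c_mm_123 noCut_A noExt_A F trivial trivial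

theorem FA35_mm_133 {κ x : ℝ} (hκ : κ * h0 = ken x) (hx : ((201326592 : ℕ) : ℝ) / S ≤ x) (hx' : x ≤ (((201326592 : ℕ) : ℝ) + (134217728 : ℕ)) / S) :
    TriA PP.cur (farS κ (h0 * x) (tbl tKF x) (tbl tL x)) 1 3 3 3 5 (-1) (-1) :=
  (sideF hx hx').farA (Or.inr rfl) (Or.inr rfl) fun y y' F =>
    farA_cert (s1 := false) (s2 := false) rfl hκ covF31 covF53 hx hx'
        Pool.Agent.Strip051.G.I3_16_5_16.Tab.C.FA35.c_mm_133 noCut_A noExt_A F trivial trivial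

theorem FA35_mm_202 {κ x : ℝ} (hκ : κ * h0 = ken x) (hx : ((201326592 : ℕ) : ℝ) / S ≤ x) (hx' : x ≤ (((201326592 : ℕ) : ℝ) + (134217728 : ℕ)) / S) :
    TriA PP.cur (farS κ (h0 * x) (tbl tKF x) (tbl tL x)) 2 0 2 3 5 (-1) (-1) :=
  (sideF hx hx').farA (Or.inr rfl) (Or.inr rfl) fun y y' F =>
    farA_cert (s1 := false) (s2 := false) rfl hκ covF32 covF50 hx hx'
        Pool.Agent.Strip051.G.I3_16_5_16.Tab.C.FA35.c_mm_202 noCut_A noExt_A F trivial trivial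

theorem FA35_mm_203 {κ x : ℝ} (hκ : κ * h0 = ken x) (hx : ((201326592 : ℕ) : ℝ) / S ≤ x) (hx' : x ≤ (((201326592 : ℕ) : ℝ) + (134217728 : ℕ)) / S) :
    TriA PP.cur (farS κ (h0 * x) (tbl tKF x) (tbl tL x)) 2 0 3 3 5 (-1) (-1) :=
  (sideF hx hx').farA (Or.inr rfl) (Or.inr rfl) fun y y' F =>
    farA_cert (s1 := false) (s2 := false) rfl hκ covF32 covF50 hx hx'
        Pool.Agent.Strip051.G.I3_16_5_16.Tab.C.FA35.c_mm_203 noCut_A noExt_A F trivial trivial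

theorem FA35_mm_213 {κ x : ℝ} (hκ : κ * h0 = ken x) (hx : ((201326592 : ℕ) : ℝ) / S ≤ x) (hx' : x ≤ (((201326592 : ℕ) : ℝ) + (134217728 : ℕ)) / S) :
    TriA PP.cur (farS κ (h0 * x) (tbl tKF x) (tbl tL x)) 2 1 3 3 5 (-1) (-1) :=
  (sideF hx hx').farA (Or.inr rfl) (Or.inr rfl) fun y y' F =>
    farA_cert (s1 := false) (s2 := false) rfl hκ covF32 covF51 hx hx'
        Pool.Agent.Strip051.G.I3_16_5_16.Tab.C.FA35.c_mm_213 noCut_A noExt_A F trivial trivial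

theorem FA35_mm_303 {κ x : ℝ} (hκ : κ * h0 = ken x) (hx : ((201326592 : ℕ) : ℝ) / S ≤ x) (hx' : x ≤ (((201326592 : ℕ) : ℝ) + (134217728 : ℕ)) / S) :
    TriA PP.cur (farS κ (h0 * x) (tbl tKF x) (tbl tL x)) 3 0 3 3 5 (-1) (-1) :=
  (sideF hx hx').farA (Or.inr rfl) (Or.inr rfl) fun y y' F =>
    farA_cert (s1 := false) (s2 := false) rfl hκ covF33 covF50 hx hx'
        Pool.Agent.Strip051.G.I3_16_5_16.Tab.C.FA35.c_mm_303 noCut_A noExt_A F trivial trivial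

theorem FA35_mm_313 {κ x : ℝ} (hκ : κ * h0 = ken x) (hx : ((201326592 : ℕ) : ℝ) / S ≤ x) (hx' : x ≤ (((201326592 : ℕ) : ℝ) + (134217728 : ℕ)) / S) :
    TriA PP.cur (farS κ (h0 * x) (tbl tKF x) (tbl tL x)) 3 1 3 3 5 (-1) (-1) :=
  (sideF hx hx').farA (Or.inr rfl) (Or.inr rfl) fun y y' F =>
    farA_cert (s1 := false) (s2 := false) rfl hκ covF33 covF51 hx hx'
        Pool.Agent.Strip051.G.I3_16_5_16.Tab.C.FA35.c_mm_313 noCut_A noExt_A F trivial trivial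

theorem FA35 {κ x : ℝ} (hκ : κ * h0 = ken x) (hx : ((201326592 : ℕ) : ℝ) / S ≤ x) (hx' : x ≤ (((201326592 : ℕ) : ℝ) + (134217728 : ℕ)) / S) : AllTA PP.cur (farS κ (h0 * x) (tbl tKF x) (tbl tL x)) 3 5 where
  pp := all17 (Q := fun a b c => TriA PP.cur (farS κ (h0 * x) (tbl tKF x) (tbl tL x)) a b c 3 5 1 1)
    (FA35_pp_001 hκ hx hx') (FA35_pp_011 hκ hx hx') (FA35_pp_012 hκ hx hx') (FA35_pp_022 hκ hx hx') (FA35_pp_023 hκ hx hx') (FA35_pp_033 hκ hx hx') (FA35_pp_101 hκ hx hx') (FA35_pp_102 hκ hx hx') (FA35_pp_112 hκ hx hx') (FA35_pp_113 hκ hx hx') (FA35_pp_123 hκ hx hx') (FA35_pp_133 hκ hx hx') (FA35_pp_202 hκ hx hx') (FA35_pp_203 hκ hx hx') (FA35_pp_213 hκ hx hx') (FA35_pp_303 hκ hx hx') (FA35_pp_313 hκ hx hx')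
  pm := all17 (Q := fun a b c => TriA PP.cur (farS κ (h0 * x) (tbl tKF x) (tbl tL x)) a b c 3 5 1 (-1))
    (FA35_pm_001 hκ hx hx') (FA35_pm_011 hκ hx hx') (FA35_pm_012 hκ hx hx') (FA35_pm_022 hκ hx hx') (FA35_pm_023 hκ hx hx') (FA35_pm_033 hκ hx hx') (FA35_pm_101 hκ hx hx') (FA35_pm_102 hκ hx hx') (FA35_pm_112 hκ hx hx') (FA35_pm_113 hκ hx hx') (FA35_pm_123 hκ hx hx') (FA35_pm_133 hκ hx hx') (FA35_pm_202 hκ hx hx') (FA35_pm_203 hκ hx hx') (FA35_pm_213 hκ hx hx') (FA35_pm_303 hκ hx hx') (FA35_pm_313 hκ hx hx')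
  mm := all17 (Q := fun a b c => TriA PP.cur (farS κ (h0 * x) (tbl tKF x) (tbl tL x)) a b c 3 5 (-1) (-1))
    (FA35_mm_001 hκ hx hx') (FA35_mm_011 hκ hx hx') (FA35_mm_012 hκ hx hx') (FA35_mm_022 hκ hx hx') (FA35_mm_023 hκ hx hx') (FA35_mm_033 hκ hx hx') (FA35_mm_101 hκ hx hx') (FA35_mm_102 hκ hx hx') (FA35_mm_112 hκ hx hx') (FA35_mm_113 hκ hx hx') (FA35_mm_123 hκ hx hx') (FA35_mm_133 hκ hx hx') (FA35_mm_202 hκ hx hx') (FA35_mm_203 hκ hx hx') (FA35_mm_213 hκ hx hx') (FA35_mm_303 hκ hx hx') (FA35_mm_313 hκ hx hx')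

theorem FA44_pp_001 {κ x : ℝ} (hκ : κ * h0 = ken x) (hx : ((201326592 : ℕ) : ℝ) / S ≤ x) (hx' : x ≤ (((201326592 : ℕ) : ℝ) + (134217728 : ℕ)) / S) :
    TriA PP.cur (farS κ (h0 * x) (tbl tKF x) (tbl tL x)) 0 0 1 4 4 1 1 :=
  (sideF hx hx').farA (Or.inl rfl) (Or.inl rfl) fun y y' F =>
    farA_cert (s1 := true) (s2 := true) rfl hκ covF40 covF40 hx hx'
        Pool.Agent.Strip051.G.I3_16_5_16.Tab.C.FA44.c_pp_001 noCut_A noExt_A F trivial trivial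

theorem FA44_pp_011 {κ x : ℝ} (hκ : κ * h0 = ken x) (hx : ((201326592 : ℕ) : ℝ) / S ≤ x) (hx' : x ≤ (((201326592 : ℕ) : ℝ) + (134217728 : ℕ)) / S) :
    TriA PP.cur (farS κ (h0 * x) (tbl tKF x) (tbl tL x)) 0 1 1 4 4 1 1 :=
  (sideF hx hx').farA (Or.inl rfl) (Or.inl rfl) fun y y' F =>
    farA_cert (s1 := true) (s2 := true) rfl hκ covF40 covF41 hx hx'
        Pool.Agent.Strip051.G.I3_16_5_16.Tab.C.FA44.c_pp_011 noCut_A noExt_A F trivial trivial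

theorem FA44_pp_012 {κ x : ℝ} (hκ : κ * h0 = ken x) (hx : ((201326592 : ℕ) : ℝ) / S ≤ x) (hx' : x ≤ (((201326592 : ℕ) : ℝ) + (134217728 : ℕ)) / S) :
    TriA PP.cur (farS κ (h0 * x) (tbl tKF x) (tbl tL x)) 0 1 2 4 4 1 1 :=
  (sideF hx hx').farA (Or.inl rfl) (Or.inl rfl) fun y y' F =>
    farA_cert (s1 := true) (s2 := true) rfl hκ covF40 covF41 hx hx'
        Pool.Agent.Strip051.G.I3_16_5_16.Tab.C.FA44.c_pp_012 noCut_A noExt_A F trivial trivial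

theorem FA44_pp_022 {κ x : ℝ} (hκ : κ * h0 = ken x) (hx : ((201326592 : ℕ) : ℝ) / S ≤ x) (hx' : x ≤ (((201326592 : ℕ) : ℝ) + (134217728 : ℕ)) / S) :
    TriA PP.cur (farS κ (h0 * x) (tbl tKF x) (tbl tL x)) 0 2 2 4 4 1 1 :=
  (sideF hx hx').farA (Or.inl rfl) (Or.inl rfl) fun y y' F =>
    farA_cert (s1 := true) (s2 := true) rfl hκ covF40 covF42 hx hx'
        Pool.Agent.Strip051.G.I3_16_5_16.Tab.C.FA44.c_pp_022 noCut_A noExt_A F trivial trivial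

theorem FA44_pp_023 {κ x : ℝ} (hκ : κ * h0 = ken x) (hx : ((201326592 : ℕ) : ℝ) / S ≤ x) (hx' : x ≤ (((201326592 : ℕ) : ℝ) + (134217728 : ℕ)) / S) :
    TriA PP.cur (farS κ (h0 * x) (tbl tKF x) (tbl tL x)) 0 2 3 4 4 1 1 :=
  (sideF hx hx').farA (Or.inl rfl) (Or.inl rfl) fun y y' F =>
    farA_cert (s1 := true) (s2 := true) rfl hκ covF40 covF42 hx hx'
        Pool.Agent.Strip051.G.I3_16_5_16.Tab.C.FA44.c_pp_023 noCut_A noExt_A F trivial trivial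

theorem FA44_pp_033 {κ x : ℝ} (hκ : κ * h0 = ken x) (hx : ((201326592 : ℕ) : ℝ) / S ≤ x) (hx' : x ≤ (((201326592 : ℕ) : ℝ) + (134217728 : ℕ)) / S) :
    TriA PP.cur (farS κ (h0 * x) (tbl tKF x) (tbl tL x)) 0 3 3 4 4 1 1 :=
  (sideF hx hx').farA (Or.inl rfl) (Or.inl rfl) fun y y' F =>
    farA_cert (s1 := true) (s2 := true) rfl hκ covF40 covF43 hx hx'
        Pool.Agent.Strip051.G.I3_16_5_16.Tab.C.FA44.c_pp_033 noCut_A noExt_A F trivial trivial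

theorem FA44_pp_101 {κ x : ℝ} (hκ : κ * h0 = ken x) (hx : ((201326592 : ℕ) : ℝ) / S ≤ x) (hx' : x ≤ (((201326592 : ℕ) : ℝ) + (134217728 : ℕ)) / S) :
    TriA PP.cur (farS κ (h0 * x) (tbl tKF x) (tbl tL x)) 1 0 1 4 4 1 1 :=
  (sideF hx hx').farA (Or.inl rfl) (Or.inl rfl) fun y y' F =>
    farA_cert (s1 := true) (s2 := true) rfl hκ covF41 covF40 hx hx'
        Pool.Agent.Strip051.G.I3_16_5_16.Tab.C.FA44.c_pp_101 noCut_A noExt_A F trivial trivial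

theorem FA44_pp_102 {κ x : ℝ} (hκ : κ * h0 = ken x) (hx : ((201326592 : ℕ) : ℝ) / S ≤ x) (hx' : x ≤ (((201326592 : ℕ) : ℝ) + (134217728 : ℕ)) / S) :
    TriA PP.cur (farS κ (h0 * x) (tbl tKF x) (tbl tL x)) 1 0 2 4 4 1 1 :=
  (sideF hx hx').farA (Or.inl rfl) (Or.inl rfl) fun y y' F =>
    farA_cert (s1 := true) (s2 := true) rfl hκ covF41 covF40 hx hx'
        Pool.Agent.Strip051.G.I3_16_5_16.Tab.C.FA44.c_pp_102 noCut_A noExt_A F trivial trivial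

theorem FA44_pp_112 {κ x : ℝ} (hκ : κ * h0 = ken x) (hx : ((201326592 : ℕ) : ℝ) / S ≤ x) (hx' : x ≤ (((201326592 : ℕ) : ℝ) + (134217728 : ℕ)) / S) :
    TriA PP.cur (farS κ (h0 * x) (tbl tKF x) (tbl tL x)) 1 1 2 4 4 1 1 :=
  (sideF hx hx').farA (Or.inl rfl) (Or.inl rfl) fun y y' F =>
    farA_cert (s1 := true) (s2 := true) rfl hκ covF41 covF41 hx hx'
        Pool.Agent.Strip051.G.I3_16_5_16.Tab.C.FA44.c_pp_112 noCut_A noExt_A F trivial trivial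

theorem FA44_pp_113 {κ x : ℝ} (hκ : κ * h0 = ken x) (hx : ((201326592 : ℕ) : ℝ) / S ≤ x) (hx' : x ≤ (((201326592 : ℕ) : ℝ) + (134217728 : ℕ)) / S) :
    TriA PP.cur (farS κ (h0 * x) (tbl tKF x) (tbl tL x)) 1 1 3 4 4 1 1 :=
  (sideF hx hx').farA (Or.inl rfl) (Or.inl rfl) fun y y' F =>
    farA_cert (s1 := true) (s2 := true) rfl hκ covF41 covF41 hx hx'
        Pool.Agent.Strip051.G.I3_16_5_16.Tab.C.FA44.c_pp_113 noCut_A noExt_A F trivial trivial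

theorem FA44_pp_123 {κ x : ℝ} (hκ : κ * h0 = ken x) (hx : ((201326592 : ℕ) : ℝ) / S ≤ x) (hx' : x ≤ (((201326592 : ℕ) : ℝ) + (134217728 : ℕ)) / S) :
    TriA PP.cur (farS κ (h0 * x) (tbl tKF x) (tbl tL x)) 1 2 3 4 4 1 1 :=
  (sideF hx hx').farA (Or.inl rfl) (Or.inl rfl) fun y y' F =>
    farA_cert (s1 := true) (s2 := true) rfl hκ covF41 covF42 hx hx'
        Pool.Agent.Strip051.G.I3_16_5_16.Tab.C.FA44.c_pp_123 noCut_A noExt_A F trivial trivial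

theorem FA44_pp_133 {κ x : ℝ} (hκ : κ * h0 = ken x) (hx : ((201326592 : ℕ) : ℝ) / S ≤ x) (hx' : x ≤ (((201326592 : ℕ) : ℝ) + (134217728 : ℕ)) / S) :
    TriA PP.cur (farS κ (h0 * x) (tbl tKF x) (tbl tL x)) 1 3 3 4 4 1 1 :=
  (sideF hx hx').farA (Or.inl rfl) (Or.inl rfl) fun y y' F =>
    farA_cert (s1 := true) (s2 := true) rfl hκ covF41 covF43 hx hx'
        Pool.Agent.Strip051.G.I3_16_5_16.Tab.C.FA44.c_pp_133 noCut_A noExt_A F trivial trivial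

theorem FA44_pp_202 {κ x : ℝ} (hκ : κ * h0 = ken x) (hx : ((201326592 : ℕ) : ℝ) / S ≤ x) (hx' : x ≤ (((201326592 : ℕ) : ℝ) + (134217728 : ℕ)) / S) :
    TriA PP.cur (farS κ (h0 * x) (tbl tKF x) (tbl tL x)) 2 0 2 4 4 1 1 :=
  (sideF hx hx').farA (Or.inl rfl) (Or.inl rfl) fun y y' F =>
    farA_cert (s1 := true) (s2 := true) rfl hκ covF42 covF40 hx hx'
        Pool.Agent.Strip051.G.I3_16_5_16.Tab.C.FA44.c_pp_202 noCut_A noExt_A F trivial trivial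

theorem FA44_pp_203 {κ x : ℝ} (hκ : κ * h0 = ken x) (hx : ((201326592 : ℕ) : ℝ) / S ≤ x) (hx' : x ≤ (((201326592 : ℕ) : ℝ) + (134217728 : ℕ)) / S) :
    TriA PP.cur (farS κ (h0 * x) (tbl tKF x) (tbl tL x)) 2 0 3 4 4 1 1 :=
  (sideF hx hx').farA (Or.inl rfl) (Or.inl rfl) fun y y' F =>
    farA_cert (s1 := true) (s2 := true) rfl hκ covF42 covF40 hx hx'
        Pool.Agent.Strip051.G.I3_16_5_16.Tab.C.FA44.c_pp_203 noCut_A noExt_A F trivial trivial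

theorem FA44_pp_213 {κ x : ℝ} (hκ : κ * h0 = ken x) (hx : ((201326592 : ℕ) : ℝ) / S ≤ x) (hx' : x ≤ (((201326592 : ℕ) : ℝ) + (134217728 : ℕ)) / S) :
    TriA PP.cur (farS κ (h0 * x) (tbl tKF x) (tbl tL x)) 2 1 3 4 4 1 1 :=
  (sideF hx hx').farA (Or.inl rfl) (Or.inl rfl) fun y y' F =>
    farA_cert (s1 := true) (s2 := true) rfl hκ covF42 covF41 hx hx'
        Pool.Agent.Strip051.G.I3_16_5_16.Tab.C.FA44.c_pp_213 noCut_A noExt_A F trivial trivial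

theorem FA44_pp_303 {κ x : ℝ} (hκ : κ * h0 = ken x) (hx : ((201326592 : ℕ) : ℝ) / S ≤ x) (hx' : x ≤ (((201326592 : ℕ) : ℝ) + (134217728 : ℕ)) / S) :
    TriA PP.cur (farS κ (h0 * x) (tbl tKF x) (tbl tL x)) 3 0 3 4 4 1 1 :=
  (sideF hx hx').farA (Or.inl rfl) (Or.inl rfl) fun y y' F =>
    farA_cert (s1 := true) (s2 := true) rfl hκ covF43 covF40 hx hx'
        Pool.Agent.Strip051.G.I3_16_5_16.Tab.C.FA44.c_pp_303 noCut_A noExt_A F trivial trivial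

theorem FA44_pp_313 {κ x : ℝ} (hκ : κ * h0 = ken x) (hx : ((201326592 : ℕ) : ℝ) / S ≤ x) (hx' : x ≤ (((201326592 : ℕ) : ℝ) + (134217728 : ℕ)) / S) :
    TriA PP.cur (farS κ (h0 * x) (tbl tKF x) (tbl tL x)) 3 1 3 4 4 1 1 :=
  (sideF hx hx').farA (Or.inl rfl) (Or.inl rfl) fun y y' F =>
    farA_cert (s1 := true) (s2 := true) rfl hκ covF43 covF41 hx hx'
        Pool.Agent.Strip051.G.I3_16_5_16.Tab.C.FA44.c_pp_313 noCut_A noExt_A F trivial trivial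

theorem FA44_pm_001 {κ x : ℝ} (hκ : κ * h0 = ken x) (hx : ((201326592 : ℕ) : ℝ) / S ≤ x) (hx' : x ≤ (((201326592 : ℕ) : ℝ) + (134217728 : ℕ)) / S) :
    TriA PP.cur (farS κ (h0 * x) (tbl tKF x) (tbl tL x)) 0 0 1 4 4 1 (-1) :=
  (sideF hx hx').farA (Or.inl rfl) (Or.inr rfl) fun y y' F =>
    farA_cert (s1 := true) (s2 := false) rfl hκ covF40 covF40 hx hx'
        Pool.Agent.Strip051.G.I3_16_5_16.Tab.C.FA44.c_pm_001 noCut_A noExt_A F trivial trivial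

theorem FA44_pm_011 {κ x : ℝ} (hκ : κ * h0 = ken x) (hx : ((201326592 : ℕ) : ℝ) / S ≤ x) (hx' : x ≤ (((201326592 : ℕ) : ℝ) + (134217728 : ℕ)) / S) :
    TriA PP.cur (farS κ (h0 * x) (tbl tKF x) (tbl tL x)) 0 1 1 4 4 1 (-1) :=
  (sideF hx hx').farA (Or.inl rfl) (Or.inr rfl) fun y y' F =>
    farA_cert (s1 := true) (s2 := false) rfl hκ covF40 covF41 hx hx'
        Pool.Agent.Strip051.G.I3_16_5_16.Tab.C.FA44.c_pm_011 noCut_A noExt_A F trivial trivial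

theorem FA44_pm_012 {κ x : ℝ} (hκ : κ * h0 = ken x) (hx : ((201326592 : ℕ) : ℝ) / S ≤ x) (hx' : x ≤ (((201326592 : ℕ) : ℝ) + (134217728 : ℕ)) / S) :
    TriA PP.cur (farS κ (h0 * x) (tbl tKF x) (tbl tL x)) 0 1 2 4 4 1 (-1) :=
  (sideF hx hx').farA (Or.inl rfl) (Or.inr rfl) fun y y' F =>
    farA_cert (s1 := true) (s2 := false) rfl hκ covF40 covF41 hx hx'
        Pool.Agent.Strip051.G.I3_16_5_16.Tab.C.FA44.c_pm_012 noCut_A noExt_A F trivial trivial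

theorem FA44_pm_022 {κ x : ℝ} (hκ : κ * h0 = ken x) (hx : ((201326592 : ℕ) : ℝ) / S ≤ x) (hx' : x ≤ (((201326592 : ℕ) : ℝ) + (134217728 : ℕ)) / S) :
    TriA PP.cur (farS κ (h0 * x) (tbl tKF x) (tbl tL x)) 0 2 2 4 4 1 (-1) :=
  (sideF hx hx').farA (Or.inl rfl) (Or.inr rfl) fun y y' F =>
    farA_cert (s1 := true) (s2 := false) rfl hκ covF40 covF42 hx hx'
        Pool.Agent.Strip051.G.I3_16_5_16.Tab.C.FA44.c_pm_022 noCut_A noExt_A F trivial trivial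

theorem FA44_pm_023 {κ x : ℝ} (hκ : κ * h0 = ken x) (hx : ((201326592 : ℕ) : ℝ) / S ≤ x) (hx' : x ≤ (((201326592 : ℕ) : ℝ) + (134217728 : ℕ)) / S) :
    TriA PP.cur (farS κ (h0 * x) (tbl tKF x) (tbl tL x)) 0 2 3 4 4 1 (-1) :=
  (sideF hx hx').farA (Or.inl rfl) (Or.inr rfl) fun y y' F =>
    farA_cert (s1 := true) (s2 := false) rfl hκ covF40 covF42 hx hx'
        Pool.Agent.Strip051.G.I3_16_5_16.Tab.C.FA44.c_pm_023 noCut_A noExt_A F trivial trivial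

theorem FA44_pm_033 {κ x : ℝ} (hκ : κ * h0 = ken x) (hx : ((201326592 : ℕ) : ℝ) / S ≤ x) (hx' : x ≤ (((201326592 : ℕ) : ℝ) + (134217728 : ℕ)) / S) :
    TriA PP.cur (farS κ (h0 * x) (tbl tKF x) (tbl tL x)) 0 3 3 4 4 1 (-1) :=
  (sideF hx hx').farA (Or.inl rfl) (Or.inr rfl) fun y y' F =>
    farA_cert (s1 := true) (s2 := false) rfl hκ covF40 covF43 hx hx'
        Pool.Agent.Strip051.G.I3_16_5_16.Tab.C.FA44.c_pm_033 noCut_A noExt_A F trivial trivial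

theorem FA44_pm_101 {κ x : ℝ} (hκ : κ * h0 = ken x) (hx : ((201326592 : ℕ) : ℝ) / S ≤ x) (hx' : x ≤ (((201326592 : ℕ) : ℝ) + (134217728 : ℕ)) / S) :
    TriA PP.cur (farS κ (h0 * x) (tbl tKF x) (tbl tL x)) 1 0 1 4 4 1 (-1) :=
  (sideF hx hx').farA (Or.inl rfl) (Or.inr rfl) fun y y' F =>
    farA_cert (s1 := true) (s2 := false) rfl hκ covF41 covF40 hx hx'
        Pool.Agent.Strip051.G.I3_16_5_16.Tab.C.FA44.c_pm_101 noCut_A noExt_A F trivial trivial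

theorem FA44_pm_102 {κ x : ℝ} (hκ : κ * h0 = ken x) (hx : ((201326592 : ℕ) : ℝ) / S ≤ x) (hx' : x ≤ (((201326592 : ℕ) : ℝ) + (134217728 : ℕ)) / S) :
    TriA PP.cur (farS κ (h0 * x) (tbl tKF x) (tbl tL x)) 1 0 2 4 4 1 (-1) :=
  (sideF hx hx').farA (Or.inl rfl) (Or.inr rfl) fun y y' F =>
    farA_cert (s1 := true) (s2 := false) rfl hκ covF41 covF40 hx hx'
        Pool.Agent.Strip051.G.I3_16_5_16.Tab.C.FA44.c_pm_102 noCut_A noExt_A F trivial trivial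

theorem FA44_pm_112 {κ x : ℝ} (hκ : κ * h0 = ken x) (hx : ((201326592 : ℕ) : ℝ) / S ≤ x) (hx' : x ≤ (((201326592 : ℕ) : ℝ) + (134217728 : ℕ)) / S) :
    TriA PP.cur (farS κ (h0 * x) (tbl tKF x) (tbl tL x)) 1 1 2 4 4 1 (-1) :=
  (sideF hx hx').farA (Or.inl rfl) (Or.inr rfl) fun y y' F =>
    farA_cert (s1 := true) (s2 := false) rfl hκ covF41 covF41 hx hx'
        Pool.Agent.Strip051.G.I3_16_5_16.Tab.C.FA44.c_pm_112 noCut_A noExt_A F trivial trivial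

theorem FA44_pm_113 {κ x : ℝ} (hκ : κ * h0 = ken x) (hx : ((201326592 : ℕ) : ℝ) / S ≤ x) (hx' : x ≤ (((201326592 : ℕ) : ℝ) + (134217728 : ℕ)) / S) :
    TriA PP.cur (farS κ (h0 * x) (tbl tKF x) (tbl tL x)) 1 1 3 4 4 1 (-1) :=
  (sideF hx hx').farA (Or.inl rfl) (Or.inr rfl) fun y y' F =>
    farA_cert (s1 := true) (s2 := false) rfl hκ covF41 covF41 hx hx'
        Pool.Agent.Strip051.G.I3_16_5_16.Tab.C.FA44.c_pm_113 noCut_A noExt_A F trivial trivial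

theorem FA44_pm_123 {κ x : ℝ} (hκ : κ * h0 = ken x) (hx : ((201326592 : ℕ) : ℝ) / S ≤ x) (hx' : x ≤ (((201326592 : ℕ) : ℝ) + (134217728 : ℕ)) / S) :
    TriA PP.cur (farS κ (h0 * x) (tbl tKF x) (tbl tL x)) 1 2 3 4 4 1 (-1) :=
  (sideF hx hx').farA (Or.inl rfl) (Or.inr rfl) fun y y' F =>
    farA_cert (s1 := true) (s2 := false) rfl hκ covF41 covF42 hx hx'
        Pool.Agent.Strip051.G.I3_16_5_16.Tab.C.FA44.c_pm_123 noCut_A noExt_A F trivial trivial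

theorem FA44_pm_133 {κ x : ℝ} (hκ : κ * h0 = ken x) (hx : ((201326592 : ℕ) : ℝ) / S ≤ x) (hx' : x ≤ (((201326592 : ℕ) : ℝ) + (134217728 : ℕ)) / S) :
    TriA PP.cur (farS κ (h0 * x) (tbl tKF x) (tbl tL x)) 1 3 3 4 4 1 (-1) :=
  (sideF hx hx').farA (Or.inl rfl) (Or.inr rfl) fun y y' F =>
    farA_cert (s1 := true) (s2 := false) rfl hκ covF41 covF43 hx hx'
        Pool.Agent.Strip051.G.I3_16_5_16.Tab.C.FA44.c_pm_133 noCut_A noExt_A F trivial trivial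

theorem FA44_pm_202 {κ x : ℝ} (hκ : κ * h0 = ken x) (hx : ((201326592 : ℕ) : ℝ) / S ≤ x) (hx' : x ≤ (((201326592 : ℕ) : ℝ) + (134217728 : ℕ)) / S) :
    TriA PP.cur (farS κ (h0 * x) (tbl tKF x) (tbl tL x)) 2 0 2 4 4 1 (-1) :=
  (sideF hx hx').farA (Or.inl rfl) (Or.inr rfl) fun y y' F =>
    farA_cert (s1 := true) (s2 := false) rfl hκ covF42 covF40 hx hx'
        Pool.Agent.Strip051.G.I3_16_5_16.Tab.C.FA44.c_pm_202 noCut_A noExt_A F trivial trivial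

theorem FA44_pm_203 {κ x : ℝ} (hκ : κ * h0 = ken x) (hx : ((201326592 : ℕ) : ℝ) / S ≤ x) (hx' : x ≤ (((201326592 : ℕ) : ℝ) + (134217728 : ℕ)) / S) :
    TriA PP.cur (farS κ (h0 * x) (tbl tKF x) (tbl tL x)) 2 0 3 4 4 1 (-1) :=
  (sideF hx hx').farA (Or.inl rfl) (Or.inr rfl) fun y y' F =>
    farA_cert (s1 := true) (s2 := false) rfl hκ covF42 covF40 hx hx'
        Pool.Agent.Strip051.G.I3_16_5_16.Tab.C.FA44.c_pm_203 noCut_A noExt_A F trivial trivial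

theorem FA44_pm_213 {κ x : ℝ} (hκ : κ * h0 = ken x) (hx : ((201326592 : ℕ) : ℝ) / S ≤ x) (hx' : x ≤ (((201326592 : ℕ) : ℝ) + (134217728 : ℕ)) / S) :
    TriA PP.cur (farS κ (h0 * x) (tbl tKF x) (tbl tL x)) 2 1 3 4 4 1 (-1) :=
  (sideF hx hx').farA (Or.inl rfl) (Or.inr rfl) fun y y' F =>
    farA_cert (s1 := true) (s2 := false) rfl hκ covF42 covF41 hx hx'
        Pool.Agent.Strip051.G.I3_16_5_16.Tab.C.FA44.c_pm_213 noCut_A noExt_A F trivial trivial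

theorem FA44_pm_303 {κ x : ℝ} (hκ : κ * h0 = ken x) (hx : ((201326592 : ℕ) : ℝ) / S ≤ x) (hx' : x ≤ (((201326592 : ℕ) : ℝ) + (134217728 : ℕ)) / S) :
    TriA PP.cur (farS κ (h0 * x) (tbl tKF x) (tbl tL x)) 3 0 3 4 4 1 (-1) :=
  (sideF hx hx').farA (Or.inl rfl) (Or.inr rfl) fun y y' F =>
    farA_cert (s1 := true) (s2 := false) rfl hκ covF43 covF40 hx hx'
        Pool.Agent.Strip051.G.I3_16_5_16.Tab.C.FA44.c_pm_303 noCut_A noExt_A F trivial trivial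

theorem FA44_pm_313 {κ x : ℝ} (hκ : κ * h0 = ken x) (hx : ((201326592 : ℕ) : ℝ) / S ≤ x) (hx' : x ≤ (((201326592 : ℕ) : ℝ) + (134217728 : ℕ)) / S) :
    TriA PP.cur (farS κ (h0 * x) (tbl tKF x) (tbl tL x)) 3 1 3 4 4 1 (-1) :=
  (sideF hx hx').farA (Or.inl rfl) (Or.inr rfl) fun y y' F =>
    farA_cert (s1 := true) (s2 := false) rfl hκ covF43 covF41 hx hx'
        Pool.Agent.Strip051.G.I3_16_5_16.Tab.C.FA44.c_pm_313 noCut_A noExt_A F trivial trivial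

theorem FA44_mm_001 {κ x : ℝ} (hκ : κ * h0 = ken x) (hx : ((201326592 : ℕ) : ℝ) / S ≤ x) (hx' : x ≤ (((201326592 : ℕ) : ℝ) + (134217728 : ℕ)) / S) :
    TriA PP.cur (farS κ (h0 * x) (tbl tKF x) (tbl tL x)) 0 0 1 4 4 (-1) (-1) :=
  (sideF hx hx').farA (Or.inr rfl) (Or.inr rfl) fun y y' F =>
    farA_cert (s1 := false) (s2 := false) rfl hκ covF40 covF40 hx hx'
        Pool.Agent.Strip051.G.I3_16_5_16.Tab.C.FA44.c_mm_001 noCut_A noExt_A F trivial trivial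

theorem FA44_mm_011 {κ x : ℝ} (hκ : κ * h0 = ken x) (hx : ((201326592 : ℕ) : ℝ) / S ≤ x) (hx' : x ≤ (((201326592 : ℕ) : ℝ) + (134217728 : ℕ)) / S) :
    TriA PP.cur (farS κ (h0 * x) (tbl tKF x) (tbl tL x)) 0 1 1 4 4 (-1) (-1) :=
  (sideF hx hx').farA (Or.inr rfl) (Or.inr rfl) fun y y' F =>
    farA_cert (s1 := false) (s2 := false) rfl hκ covF40 covF41 hx hx'
        Pool.Agent.Strip051.G.I3_16_5_16.Tab.C.FA44.c_mm_011 noCut_A noExt_A F trivial trivial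

theorem FA44_mm_012 {κ x : ℝ} (hκ : κ * h0 = ken x) (hx : ((201326592 : ℕ) : ℝ) / S ≤ x) (hx' : x ≤ (((201326592 : ℕ) : ℝ) + (134217728 : ℕ)) / S) :
    TriA PP.cur (farS κ (h0 * x) (tbl tKF x) (tbl tL x)) 0 1 2 4 4 (-1) (-1) :=
  (sideF hx hx').farA (Or.inr rfl) (Or.inr rfl) fun y y' F =>
    farA_cert (s1 := false) (s2 := false) rfl hκ covF40 covF41 hx hx'
        Pool.Agent.Strip051.G.I3_16_5_16.Tab.C.FA44.c_mm_012 noCut_A noExt_A F trivial trivial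

theorem FA44_mm_022 {κ x : ℝ} (hκ : κ * h0 = ken x) (hx : ((201326592 : ℕ) : ℝ) / S ≤ x) (hx' : x ≤ (((201326592 : ℕ) : ℝ) + (134217728 : ℕ)) / S) :
    TriA PP.cur (farS κ (h0 * x) (tbl tKF x) (tbl tL x)) 0 2 2 4 4 (-1) (-1) :=
  (sideF hx hx').farA (Or.inr rfl) (Or.inr rfl) fun y y' F =>
    farA_cert (s1 := false) (s2 := false) rfl hκ covF40 covF42 hx hx'
        Pool.Agent.Strip051.G.I3_16_5_16.Tab.C.FA44.c_mm_022 noCut_A noExt_A F trivial trivial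

theorem FA44_mm_023 {κ x : ℝ} (hκ : κ * h0 = ken x) (hx : ((201326592 : ℕ) : ℝ) / S ≤ x) (hx' : x ≤ (((201326592 : ℕ) : ℝ) + (134217728 : ℕ)) / S) :
    TriA PP.cur (farS κ (h0 * x) (tbl tKF x) (tbl tL x)) 0 2 3 4 4 (-1) (-1) :=
  (sideF hx hx').farA (Or.inr rfl) (Or.inr rfl) fun y y' F =>
    farA_cert (s1 := false) (s2 := false) rfl hκ covF40 covF42 hx hx'
        Pool.Agent.Strip051.G.I3_16_5_16.Tab.C.FA44.c_mm_023 noCut_A noExt_A F trivial trivial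

theorem FA44_mm_033 {κ x : ℝ} (hκ : κ * h0 = ken x) (hx : ((201326592 : ℕ) : ℝ) / S ≤ x) (hx' : x ≤ (((201326592 : ℕ) : ℝ) + (134217728 : ℕ)) / S) :
    TriA PP.cur (farS κ (h0 * x) (tbl tKF x) (tbl tL x)) 0 3 3 4 4 (-1) (-1) :=
  (sideF hx hx').farA (Or.inr rfl) (Or.inr rfl) fun y y' F =>
    farA_cert (s1 := false) (s2 := false) rfl hκ covF40 covF43 hx hx'
        Pool.Agent.Strip051.G.I3_16_5_16.Tab.C.FA44.c_mm_033 noCut_A noExt_A F trivial trivial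

theorem FA44_mm_101 {κ x : ℝ} (hκ : κ * h0 = ken x) (hx : ((201326592 : ℕ) : ℝ) / S ≤ x) (hx' : x ≤ (((201326592 : ℕ) : ℝ) + (134217728 : ℕ)) / S) :
    TriA PP.cur (farS κ (h0 * x) (tbl tKF x) (tbl tL x)) 1 0 1 4 4 (-1) (-1) :=
  (sideF hx hx').farA (Or.inr rfl) (Or.inr rfl) fun y y' F =>
    farA_cert (s1 := false) (s2 := false) rfl hκ covF41 covF40 hx hx'
        Pool.Agent.Strip051.G.I3_16_5_16.Tab.C.FA44.c_mm_101 noCut_A noExt_A F trivial trivial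

theorem FA44_mm_102 {κ x : ℝ} (hκ : κ * h0 = ken x) (hx : ((201326592 : ℕ) : ℝ) / S ≤ x) (hx' : x ≤ (((201326592 : ℕ) : ℝ) + (134217728 : ℕ)) / S) :
    TriA PP.cur (farS κ (h0 * x) (tbl tKF x) (tbl tL x)) 1 0 2 4 4 (-1) (-1) :=
  (sideF hx hx').farA (Or.inr rfl) (Or.inr rfl) fun y y' F =>
    farA_cert (s1 := false) (s2 := false) rfl hκ covF41 covF40 hx hx'
        Pool.Agent.Strip051.G.I3_16_5_16.Tab.C.FA44.c_mm_102 noCut_A noExt_A F trivial trivial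

theorem FA44_mm_112 {κ x : ℝ} (hκ : κ * h0 = ken x) (hx : ((201326592 : ℕ) : ℝ) / S ≤ x) (hx' : x ≤ (((201326592 : ℕ) : ℝ) + (134217728 : ℕ)) / S) :
    TriA PP.cur (farS κ (h0 * x) (tbl tKF x) (tbl tL x)) 1 1 2 4 4 (-1) (-1) :=
  (sideF hx hx').farA (Or.inr rfl) (Or.inr rfl) fun y y' F =>
    farA_cert (s1 := false) (s2 := false) rfl hκ covF41 covF41 hx hx'
        Pool.Agent.Strip051.G.I3_16_5_16.Tab.C.FA44.c_mm_112 noCut_A noExt_A F trivial trivial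

theorem FA44_mm_113 {κ x : ℝ} (hκ : κ * h0 = ken x) (hx : ((201326592 : ℕ) : ℝ) / S ≤ x) (hx' : x ≤ (((201326592 : ℕ) : ℝ) + (134217728 : ℕ)) / S) :
    TriA PP.cur (farS κ (h0 * x) (tbl tKF x) (tbl tL x)) 1 1 3 4 4 (-1) (-1) :=
  (sideF hx hx').farA (Or.inr rfl) (Or.inr rfl) fun y y' F =>
    farA_cert (s1 := false) (s2 := false) rfl hκ covF41 covF41 hx hx'
        Pool.Agent.Strip051.G.I3_16_5_16.Tab.C.FA44.c_mm_113 noCut_A noExt_A F trivial trivial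

theorem FA44_mm_123 {κ x : ℝ} (hκ : κ * h0 = ken x) (hx : ((201326592 : ℕ) : ℝ) / S ≤ x) (hx' : x ≤ (((201326592 : ℕ) : ℝ) + (134217728 : ℕ)) / S) :
    TriA PP.cur (farS κ (h0 * x) (tbl tKF x) (tbl tL x)) 1 2 3 4 4 (-1) (-1) :=
  (sideF hx hx').farA (Or.inr rfl) (Or.inr rfl) fun y y' F =>
    farA_cert (s1 := false) (s2 := false) rfl hκ covF41 covF42 hx hx'
        Pool.Agent.Strip051.G.I3_16_5_16.Tab.C.FA44.c_mm_123 noCut_A noExt_A F trivial trivial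

theorem FA44_mm_133 {κ x : ℝ} (hκ : κ * h0 = ken x) (hx : ((201326592 : ℕ) : ℝ) / S ≤ x) (hx' : x ≤ (((201326592 : ℕ) : ℝ) + (134217728 : ℕ)) / S) :
    TriA PP.cur (farS κ (h0 * x) (tbl tKF x) (tbl tL x)) 1 3 3 4 4 (-1) (-1) :=
  (sideF hx hx').farA (Or.inr rfl) (Or.inr rfl) fun y y' F =>
    farA_cert (s1 := false) (s2 := false) rfl hκ covF41 covF43 hx hx'
        Pool.Agent.Strip051.G.I3_16_5_16.Tab.C.FA44.c_mm_133 noCut_A noExt_A F trivial trivial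

theorem FA44_mm_202 {κ x : ℝ} (hκ : κ * h0 = ken x) (hx : ((201326592 : ℕ) : ℝ) / S ≤ x) (hx' : x ≤ (((201326592 : ℕ) : ℝ) + (134217728 : ℕ)) / S) :
    TriA PP.cur (farS κ (h0 * x) (tbl tKF x) (tbl tL x)) 2 0 2 4 4 (-1) (-1) :=
  (sideF hx hx').farA (Or.inr rfl) (Or.inr rfl) fun y y' F =>
    farA_cert (s1 := false) (s2 := false) rfl hκ covF42 covF40 hx hx'
        Pool.Agent.Strip051.G.I3_16_5_16.Tab.C.FA44.c_mm_202 noCut_A noExt_A F trivial trivial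

theorem FA44_mm_203 {κ x : ℝ} (hκ : κ * h0 = ken x) (hx : ((201326592 : ℕ) : ℝ) / S ≤ x) (hx' : x ≤ (((201326592 : ℕ) : ℝ) + (134217728 : ℕ)) / S) :
    TriA PP.cur (farS κ (h0 * x) (tbl tKF x) (tbl tL x)) 2 0 3 4 4 (-1) (-1) :=
  (sideF hx hx').farA (Or.inr rfl) (Or.inr rfl) fun y y' F =>
    farA_cert (s1 := false) (s2 := false) rfl hκ covF42 covF40 hx hx'
        Pool.Agent.Strip051.G.I3_16_5_16.Tab.C.FA44.c_mm_203 noCut_A noExt_A F trivial trivial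

theorem FA44_mm_213 {κ x : ℝ} (hκ : κ * h0 = ken x) (hx : ((201326592 : ℕ) : ℝ) / S ≤ x) (hx' : x ≤ (((201326592 : ℕ) : ℝ) + (134217728 : ℕ)) / S) :
    TriA PP.cur (farS κ (h0 * x) (tbl tKF x) (tbl tL x)) 2 1 3 4 4 (-1) (-1) :=
  (sideF hx hx').farA (Or.inr rfl) (Or.inr rfl) fun y y' F =>
    farA_cert (s1 := false) (s2 := false) rfl hκ covF42 covF41 hx hx'
        Pool.Agent.Strip051.G.I3_16_5_16.Tab.C.FA44.c_mm_213 noCut_A noExt_A F trivial trivial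

theorem FA44_mm_303 {κ x : ℝ} (hκ : κ * h0 = ken x) (hx : ((201326592 : ℕ) : ℝ) / S ≤ x) (hx' : x ≤ (((201326592 : ℕ) : ℝ) + (134217728 : ℕ)) / S) :
    TriA PP.cur (farS κ (h0 * x) (tbl tKF x) (tbl tL x)) 3 0 3 4 4 (-1) (-1) :=
  (sideF hx hx').farA (Or.inr rfl) (Or.inr rfl) fun y y' F =>
    farA_cert (s1 := false) (s2 := false) rfl hκ covF43 covF40 hx hx'
        Pool.Agent.Strip051.G.I3_16_5_16.Tab.C.FA44.c_mm_303 noCut_A noExt_A F trivial trivial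

theorem FA44_mm_313 {κ x : ℝ} (hκ : κ * h0 = ken x) (hx : ((201326592 : ℕ) : ℝ) / S ≤ x) (hx' : x ≤ (((201326592 : ℕ) : ℝ) + (134217728 : ℕ)) / S) :
    TriA PP.cur (farS κ (h0 * x) (tbl tKF x) (tbl tL x)) 3 1 3 4 4 (-1) (-1) :=
  (sideF hx hx').farA (Or.inr rfl) (Or.inr rfl) fun y y' F =>
    farA_cert (s1 := false) (s2 := false) rfl hκ covF43 covF41 hx hx'
        Pool.Agent.Strip051.G.I3_16_5_16.Tab.C.FA44.c_mm_313 noCut_A noExt_A F trivial trivial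

theorem FA44 {κ x : ℝ} (hκ : κ * h0 = ken x) (hx : ((201326592 : ℕ) : ℝ) / S ≤ x) (hx' : x ≤ (((201326592 : ℕ) : ℝ) + (134217728 : ℕ)) / S) : AllTA PP.cur (farS κ (h0 * x) (tbl tKF x) (tbl tL x)) 4 4 where
  pp := all17 (Q := fun a b c => TriA PP.cur (farS κ (h0 * x) (tbl tKF x) (tbl tL x)) a b c 4 4 1 1)
    (FA44_pp_001 hκ hx hx') (FA44_pp_011 hκ hx hx') (FA44_pp_012 hκ hx hx') (FA44_pp_022 hκ hx hx') (FA44_pp_023 hκ hx hx') (FA44_pp_033 hκ hx hx') (FA44_pp_101 hκ hx hx') (FA44_pp_102 hκ hx hx') (FA44_pp_112 hκ hx hx') (FA44_pp_113 hκ hx hx') (FA44_pp_123 hκ hx hx') (FA44_pp_133 hκ hx hx') (FA44_pp_202 hκ hx hx') (FA44_pp_203 hκ hx hx') (FA44_pp_213 hκ hx hx') (FA44_pp_303 hκ hx hx') (FA44_pp_313 hκ hx hx')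
  pm := all17 (Q := fun a b c => TriA PP.cur (farS κ (h0 * x) (tbl tKF x) (tbl tL x)) a b c 4 4 1 (-1))
    (FA44_pm_001 hκ hx hx') (FA44_pm_011 hκ hx hx') (FA44_pm_012 hκ hx hx') (FA44_pm_022 hκ hx hx') (FA44_pm_023 hκ hx hx') (FA44_pm_033 hκ hx hx') (FA44_pm_101 hκ hx hx') (FA44_pm_102 hκ hx hx') (FA44_pm_112 hκ hx hx') (FA44_pm_113 hκ hx hx') (FA44_pm_123 hκ hx hx') (FA44_pm_133 hκ hx hx') (FA44_pm_202 hκ hx hx') (FA44_pm_203 hκ hx hx') (FA44_pm_213 hκ hx hx') (FA44_pm_303 hκ hx hx') (FA44_pm_313 hκ hx hx')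
  mm := all17 (Q := fun a b c => TriA PP.cur (farS κ (h0 * x) (tbl tKF x) (tbl tL x)) a b c 4 4 (-1) (-1))
    (FA44_mm_001 hκ hx hx') (FA44_mm_011 hκ hx hx') (FA44_mm_012 hκ hx hx') (FA44_mm_022 hκ hx hx') (FA44_mm_023 hκ hx hx') (FA44_mm_033 hκ hx hx') (FA44_mm_101 hκ hx hx') (FA44_mm_102 hκ hx hx') (FA44_mm_112 hκ hx hx') (FA44_mm_113 hκ hx hx') (FA44_mm_123 hκ hx hx') (FA44_mm_133 hκ hx hx') (FA44_mm_202 hκ hx hx') (FA44_mm_203 hκ hx hx') (FA44_mm_213 hκ hx hx') (FA44_mm_303 hκ hx hx') (FA44_mm_313 hκ hx hx')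

theorem FA45_pp_001 {κ x : ℝ} (hκ : κ * h0 = ken x) (hx : ((201326592 : ℕ) : ℝ) / S ≤ x) (hx' : x ≤ (((201326592 : ℕ) : ℝ) + (134217728 : ℕ)) / S) :
    TriA PP.cur (farS κ (h0 * x) (tbl tKF x) (tbl tL x)) 0 0 1 4 5 1 1 :=
  (sideF hx hx').farA (Or.inl rfl) (Or.inl rfl) fun y y' F =>
    farA_cert (s1 := true) (s2 := true) rfl hκ covF40 covF50 hx hx'
        Pool.Agent.Strip051.G.I3_16_5_16.Tab.C.FA45.c_pp_001 noCut_A noExt_A F trivial trivial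

theorem FA45_pp_011 {κ x : ℝ} (hκ : κ * h0 = ken x) (hx : ((201326592 : ℕ) : ℝ) / S ≤ x) (hx' : x ≤ (((201326592 : ℕ) : ℝ) + (134217728 : ℕ)) / S) :
    TriA PP.cur (farS κ (h0 * x) (tbl tKF x) (tbl tL x)) 0 1 1 4 5 1 1 :=
  (sideF hx hx').farA (Or.inl rfl) (Or.inl rfl) fun y y' F =>
    farA_cert (s1 := true) (s2 := true) rfl hκ covF40 covF51 hx hx'
        Pool.Agent.Strip051.G.I3_16_5_16.Tab.C.FA45.c_pp_011 noCut_A noExt_A F trivial trivial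

theorem FA45_pp_012 {κ x : ℝ} (hκ : κ * h0 = ken x) (hx : ((201326592 : ℕ) : ℝ) / S ≤ x) (hx' : x ≤ (((201326592 : ℕ) : ℝ) + (134217728 : ℕ)) / S) :
    TriA PP.cur (farS κ (h0 * x) (tbl tKF x) (tbl tL x)) 0 1 2 4 5 1 1 :=
  (sideF hx hx').farA (Or.inl rfl) (Or.inl rfl) fun y y' F =>
    farA_cert (s1 := true) (s2 := true) rfl hκ covF40 covF51 hx hx'
        Pool.Agent.Strip051.G.I3_16_5_16.Tab.C.FA45.c_pp_012 noCut_A noExt_A F trivial trivial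

theorem FA45_pp_022 {κ x : ℝ} (hκ : κ * h0 = ken x) (hx : ((201326592 : ℕ) : ℝ) / S ≤ x) (hx' : x ≤ (((201326592 : ℕ) : ℝ) + (134217728 : ℕ)) / S) :
    TriA PP.cur (farS κ (h0 * x) (tbl tKF x) (tbl tL x)) 0 2 2 4 5 1 1 :=
  (sideF hx hx').farA (Or.inl rfl) (Or.inl rfl) fun y y' F =>
    farA_cert (s1 := true) (s2 := true) rfl hκ covF40 covF52 hx hx'
        Pool.Agent.Strip051.G.I3_16_5_16.Tab.C.FA45.c_pp_022 noCut_A noExt_A F trivial trivial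

theorem FA45_pp_023 {κ x : ℝ} (hκ : κ * h0 = ken x) (hx : ((201326592 : ℕ) : ℝ) / S ≤ x) (hx' : x ≤ (((201326592 : ℕ) : ℝ) + (134217728 : ℕ)) / S) :
    TriA PP.cur (farS κ (h0 * x) (tbl tKF x) (tbl tL x)) 0 2 3 4 5 1 1 :=
  (sideF hx hx').farA (Or.inl rfl) (Or.inl rfl) fun y y' F =>
    farA_cert (s1 := true) (s2 := true) rfl hκ covF40 covF52 hx hx'
        Pool.Agent.Strip051.G.I3_16_5_16.Tab.C.FA45.c_pp_023 noCut_A noExt_A F trivial trivial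

theorem FA45_pp_033 {κ x : ℝ} (hκ : κ * h0 = ken x) (hx : ((201326592 : ℕ) : ℝ) / S ≤ x) (hx' : x ≤ (((201326592 : ℕ) : ℝ) + (134217728 : ℕ)) / S) :
    TriA PP.cur (farS κ (h0 * x) (tbl tKF x) (tbl tL x)) 0 3 3 4 5 1 1 :=
  (sideF hx hx').farA (Or.inl rfl) (Or.inl rfl) fun y y' F =>
    farA_cert (s1 := true) (s2 := true) rfl hκ covF40 covF53 hx hx'
        Pool.Agent.Strip051.G.I3_16_5_16.Tab.C.FA45.c_pp_033 noCut_A noExt_A F trivial trivial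

theorem FA45_pp_101 {κ x : ℝ} (hκ : κ * h0 = ken x) (hx : ((201326592 : ℕ) : ℝ) / S ≤ x) (hx' : x ≤ (((201326592 : ℕ) : ℝ) + (134217728 : ℕ)) / S) :
    TriA PP.cur (farS κ (h0 * x) (tbl tKF x) (tbl tL x)) 1 0 1 4 5 1 1 :=
  (sideF hx hx').farA (Or.inl rfl) (Or.inl rfl) fun y y' F =>
    farA_cert (s1 := true) (s2 := true) rfl hκ covF41 covF50 hx hx'
        Pool.Agent.Strip051.G.I3_16_5_16.Tab.C.FA45.c_pp_101 noCut_A noExt_A F trivial trivial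

theorem FA45_pp_102 {κ x : ℝ} (hκ : κ * h0 = ken x) (hx : ((201326592 : ℕ) : ℝ) / S ≤ x) (hx' : x ≤ (((201326592 : ℕ) : ℝ) + (134217728 : ℕ)) / S) :
    TriA PP.cur (farS κ (h0 * x) (tbl tKF x) (tbl tL x)) 1 0 2 4 5 1 1 :=
  (sideF hx hx').farA (Or.inl rfl) (Or.inl rfl) fun y y' F =>
    farA_cert (s1 := true) (s2 := true) rfl hκ covF41 covF50 hx hx'
        Pool.Agent.Strip051.G.I3_16_5_16.Tab.C.FA45.c_pp_102 noCut_A noExt_A F trivial trivial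

theorem FA45_pp_112 {κ x : ℝ} (hκ : κ * h0 = ken x) (hx : ((201326592 : ℕ) : ℝ) / S ≤ x) (hx' : x ≤ (((201326592 : ℕ) : ℝ) + (134217728 : ℕ)) / S) :
    TriA PP.cur (farS κ (h0 * x) (tbl tKF x) (tbl tL x)) 1 1 2 4 5 1 1 :=
  (sideF hx hx').farA (Or.inl rfl) (Or.inl rfl) fun y y' F =>
    farA_cert (s1 := true) (s2 := true) rfl hκ covF41 covF51 hx hx'
        Pool.Agent.Strip051.G.I3_16_5_16.Tab.C.FA45.c_pp_112 noCut_A noExt_A F trivial trivial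

theorem FA45_pp_113 {κ x : ℝ} (hκ : κ * h0 = ken x) (hx : ((201326592 : ℕ) : ℝ) / S ≤ x) (hx' : x ≤ (((201326592 : ℕ) : ℝ) + (134217728 : ℕ)) / S) :
    TriA PP.cur (farS κ (h0 * x) (tbl tKF x) (tbl tL x)) 1 1 3 4 5 1 1 :=
  (sideF hx hx').farA (Or.inl rfl) (Or.inl rfl) fun y y' F =>
    farA_cert (s1 := true) (s2 := true) rfl hκ covF41 covF51 hx hx'
        Pool.Agent.Strip051.G.I3_16_5_16.Tab.C.FA45.c_pp_113 noCut_A noExt_A F trivial trivial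

theorem FA45_pp_123 {κ x : ℝ} (hκ : κ * h0 = ken x) (hx : ((201326592 : ℕ) : ℝ) / S ≤ x) (hx' : x ≤ (((201326592 : ℕ) : ℝ) + (134217728 : ℕ)) / S) :
    TriA PP.cur (farS κ (h0 * x) (tbl tKF x) (tbl tL x)) 1 2 3 4 5 1 1 :=
  (sideF hx hx').farA (Or.inl rfl) (Or.inl rfl) fun y y' F =>
    farA_cert (s1 := true) (s2 := true) rfl hκ covF41 covF52 hx hx'
        Pool.Agent.Strip051.G.I3_16_5_16.Tab.C.FA45.c_pp_123 noCut_A noExt_A F trivial trivial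

theorem FA45_pp_133 {κ x : ℝ} (hκ : κ * h0 = ken x) (hx : ((201326592 : ℕ) : ℝ) / S ≤ x) (hx' : x ≤ (((201326592 : ℕ) : ℝ) + (134217728 : ℕ)) / S) :
    TriA PP.cur (farS κ (h0 * x) (tbl tKF x) (tbl tL x)) 1 3 3 4 5 1 1 :=
  (sideF hx hx').farA (Or.inl rfl) (Or.inl rfl) fun y y' F =>
    farA_cert (s1 := true) (s2 := true) rfl hκ covF41 covF53 hx hx'
        Pool.Agent.Strip051.G.I3_16_5_16.Tab.C.FA45.c_pp_133 noCut_A noExt_A F trivial trivial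

theorem FA45_pp_202 {κ x : ℝ} (hκ : κ * h0 = ken x) (hx : ((201326592 : ℕ) : ℝ) / S ≤ x) (hx' : x ≤ (((201326592 : ℕ) : ℝ) + (134217728 : ℕ)) / S) :
    TriA PP.cur (farS κ (h0 * x) (tbl tKF x) (tbl tL x)) 2 0 2 4 5 1 1 :=
  (sideF hx hx').farA (Or.inl rfl) (Or.inl rfl) fun y y' F =>
    farA_cert (s1 := true) (s2 := true) rfl hκ covF42 covF50 hx hx'
        Pool.Agent.Strip051.G.I3_16_5_16.Tab.C.FA45.c_pp_202 noCut_A noExt_A F trivial trivial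

theorem FA45_pp_203 {κ x : ℝ} (hκ : κ * h0 = ken x) (hx : ((201326592 : ℕ) : ℝ) / S ≤ x) (hx' : x ≤ (((201326592 : ℕ) : ℝ) + (134217728 : ℕ)) / S) :
    TriA PP.cur (farS κ (h0 * x) (tbl tKF x) (tbl tL x)) 2 0 3 4 5 1 1 :=
  (sideF hx hx').farA (Or.inl rfl) (Or.inl rfl) fun y y' F =>
    farA_cert (s1 := true) (s2 := true) rfl hκ covF42 covF50 hx hx'
        Pool.Agent.Strip051.G.I3_16_5_16.Tab.C.FA45.c_pp_203 noCut_A noExt_A F trivial trivial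

theorem FA45_pp_213 {κ x : ℝ} (hκ : κ * h0 = ken x) (hx : ((201326592 : ℕ) : ℝ) / S ≤ x) (hx' : x ≤ (((201326592 : ℕ) : ℝ) + (134217728 : ℕ)) / S) :
    TriA PP.cur (farS κ (h0 * x) (tbl tKF x) (tbl tL x)) 2 1 3 4 5 1 1 :=
  (sideF hx hx').farA (Or.inl rfl) (Or.inl rfl) fun y y' F =>
    farA_cert (s1 := true) (s2 := true) rfl hκ covF42 covF51 hx hx'
        Pool.Agent.Strip051.G.I3_16_5_16.Tab.C.FA45.c_pp_213 noCut_A noExt_A F trivial trivial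

theorem FA45_pp_303 {κ x : ℝ} (hκ : κ * h0 = ken x) (hx : ((201326592 : ℕ) : ℝ) / S ≤ x) (hx' : x ≤ (((201326592 : ℕ) : ℝ) + (134217728 : ℕ)) / S) :
    TriA PP.cur (farS κ (h0 * x) (tbl tKF x) (tbl tL x)) 3 0 3 4 5 1 1 :=
  (sideF hx hx').farA (Or.inl rfl) (Or.inl rfl) fun y y' F =>
    farA_cert (s1 := true) (s2 := true) rfl hκ covF43 covF50 hx hx'
        Pool.Agent.Strip051.G.I3_16_5_16.Tab.C.FA45.c_pp_303 noCut_A noExt_A F trivial trivial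

theorem FA45_pp_313 {κ x : ℝ} (hκ : κ * h0 = ken x) (hx : ((201326592 : ℕ) : ℝ) / S ≤ x) (hx' : x ≤ (((201326592 : ℕ) : ℝ) + (134217728 : ℕ)) / S) :
    TriA PP.cur (farS κ (h0 * x) (tbl tKF x) (tbl tL x)) 3 1 3 4 5 1 1 :=
  (sideF hx hx').farA (Or.inl rfl) (Or.inl rfl) fun y y' F =>
    farA_cert (s1 := true) (s2 := true) rfl hκ covF43 covF51 hx hx'
        Pool.Agent.Strip051.G.I3_16_5_16.Tab.C.FA45.c_pp_313 noCut_A noExt_A F trivial trivial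

theorem FA45_pm_001 {κ x : ℝ} (hκ : κ * h0 = ken x) (hx : ((201326592 : ℕ) : ℝ) / S ≤ x) (hx' : x ≤ (((201326592 : ℕ) : ℝ) + (134217728 : ℕ)) / S) :
    TriA PP.cur (farS κ (h0 * x) (tbl tKF x) (tbl tL x)) 0 0 1 4 5 1 (-1) :=
  (sideF hx hx').farA (Or.inl rfl) (Or.inr rfl) fun y y' F =>
    farA_cert (s1 := true) (s2 := false) rfl hκ covF40 covF50 hx hx'
        Pool.Agent.Strip051.G.I3_16_5_16.Tab.C.FA45.c_pm_001 noCut_A noExt_A F trivial trivial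

theorem FA45_pm_011 {κ x : ℝ} (hκ : κ * h0 = ken x) (hx : ((201326592 : ℕ) : ℝ) / S ≤ x) (hx' : x ≤ (((201326592 : ℕ) : ℝ) + (134217728 : ℕ)) / S) :
    TriA PP.cur (farS κ (h0 * x) (tbl tKF x) (tbl tL x)) 0 1 1 4 5 1 (-1) :=
  (sideF hx hx').farA (Or.inl rfl) (Or.inr rfl) fun y y' F =>
    farA_cert (s1 := true) (s2 := false) rfl hκ covF40 covF51 hx hx'
        Pool.Agent.Strip051.G.I3_16_5_16.Tab.C.FA45.c_pm_011 noCut_A noExt_A F trivial trivial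

theorem FA45_pm_012 {κ x : ℝ} (hκ : κ * h0 = ken x) (hx : ((201326592 : ℕ) : ℝ) / S ≤ x) (hx' : x ≤ (((201326592 : ℕ) : ℝ) + (134217728 : ℕ)) / S) :
    TriA PP.cur (farS κ (h0 * x) (tbl tKF x) (tbl tL x)) 0 1 2 4 5 1 (-1) :=
  (sideF hx hx').farA (Or.inl rfl) (Or.inr rfl) fun y y' F =>
    farA_cert (s1 := true) (s2 := false) rfl hκ covF40 covF51 hx hx'
        Pool.Agent.Strip051.G.I3_16_5_16.Tab.C.FA45.c_pm_012 noCut_A noExt_A F trivial trivial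

theorem FA45_pm_022 {κ x : ℝ} (hκ : κ * h0 = ken x) (hx : ((201326592 : ℕ) : ℝ) / S ≤ x) (hx' : x ≤ (((201326592 : ℕ) : ℝ) + (134217728 : ℕ)) / S) :
    TriA PP.cur (farS κ (h0 * x) (tbl tKF x) (tbl tL x)) 0 2 2 4 5 1 (-1) :=
  (sideF hx hx').farA (Or.inl rfl) (Or.inr rfl) fun y y' F =>
    farA_cert (s1 := true) (s2 := false) rfl hκ covF40 covF52 hx hx'
        Pool.Agent.Strip051.G.I3_16_5_16.Tab.C.FA45.c_pm_022 noCut_A noExt_A F trivial trivial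

theorem FA45_pm_023 {κ x : ℝ} (hκ : κ * h0 = ken x) (hx : ((201326592 : ℕ) : ℝ) / S ≤ x) (hx' : x ≤ (((201326592 : ℕ) : ℝ) + (134217728 : ℕ)) / S) :
    TriA PP.cur (farS κ (h0 * x) (tbl tKF x) (tbl tL x)) 0 2 3 4 5 1 (-1) :=
  (sideF hx hx').farA (Or.inl rfl) (Or.inr rfl) fun y y' F =>
    farA_cert (s1 := true) (s2 := false) rfl hκ covF40 covF52 hx hx'
        Pool.Agent.Strip051.G.I3_16_5_16.Tab.C.FA45.c_pm_023 noCut_A noExt_A F trivial trivial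

theorem FA45_pm_033 {κ x : ℝ} (hκ : κ * h0 = ken x) (hx : ((201326592 : ℕ) : ℝ) / S ≤ x) (hx' : x ≤ (((201326592 : ℕ) : ℝ) + (134217728 : ℕ)) / S) :
    TriA PP.cur (farS κ (h0 * x) (tbl tKF x) (tbl tL x)) 0 3 3 4 5 1 (-1) :=
  (sideF hx hx').farA (Or.inl rfl) (Or.inr rfl) fun y y' F =>
    farA_cert (s1 := true) (s2 := false) rfl hκ covF40 covF53 hx hx'
        Pool.Agent.Strip051.G.I3_16_5_16.Tab.C.FA45.c_pm_033 noCut_A noExt_A F trivial trivial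

theorem FA45_pm_101 {κ x : ℝ} (hκ : κ * h0 = ken x) (hx : ((201326592 : ℕ) : ℝ) / S ≤ x) (hx' : x ≤ (((201326592 : ℕ) : ℝ) + (134217728 : ℕ)) / S) :
    TriA PP.cur (farS κ (h0 * x) (tbl tKF x) (tbl tL x)) 1 0 1 4 5 1 (-1) :=
  (sideF hx hx').farA (Or.inl rfl) (Or.inr rfl) fun y y' F =>
    farA_cert (s1 := true) (s2 := false) rfl hκ covF41 covF50 hx hx'
        Pool.Agent.Strip051.G.I3_16_5_16.Tab.C.FA45.c_pm_101 noCut_A noExt_A F trivial trivial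

theorem FA45_pm_102 {κ x : ℝ} (hκ : κ * h0 = ken x) (hx : ((201326592 : ℕ) : ℝ) / S ≤ x) (hx' : x ≤ (((201326592 : ℕ) : ℝ) + (134217728 : ℕ)) / S) :
    TriA PP.cur (farS κ (h0 * x) (tbl tKF x) (tbl tL x)) 1 0 2 4 5 1 (-1) :=
  (sideF hx hx').farA (Or.inl rfl) (Or.inr rfl) fun y y' F =>
    farA_cert (s1 := true) (s2 := false) rfl hκ covF41 covF50 hx hx'
        Pool.Agent.Strip051.G.I3_16_5_16.Tab.C.FA45.c_pm_102 noCut_A noExt_A F trivial trivial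

theorem FA45_pm_112 {κ x : ℝ} (hκ : κ * h0 = ken x) (hx : ((201326592 : ℕ) : ℝ) / S ≤ x) (hx' : x ≤ (((201326592 : ℕ) : ℝ) + (134217728 : ℕ)) / S) :
    TriA PP.cur (farS κ (h0 * x) (tbl tKF x) (tbl tL x)) 1 1 2 4 5 1 (-1) :=
  (sideF hx hx').farA (Or.inl rfl) (Or.inr rfl) fun y y' F =>
    farA_cert (s1 := true) (s2 := false) rfl hκ covF41 covF51 hx hx'
        Pool.Agent.Strip051.G.I3_16_5_16.Tab.C.FA45.c_pm_112 noCut_A noExt_A F trivial trivial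

theorem FA45_pm_113 {κ x : ℝ} (hκ : κ * h0 = ken x) (hx : ((201326592 : ℕ) : ℝ) / S ≤ x) (hx' : x ≤ (((201326592 : ℕ) : ℝ) + (134217728 : ℕ)) / S) :
    TriA PP.cur (farS κ (h0 * x) (tbl tKF x) (tbl tL x)) 1 1 3 4 5 1 (-1) :=
  (sideF hx hx').farA (Or.inl rfl) (Or.inr rfl) fun y y' F =>
    farA_cert (s1 := true) (s2 := false) rfl hκ covF41 covF51 hx hx'
        Pool.Agent.Strip051.G.I3_16_5_16.Tab.C.FA45.c_pm_113 noCut_A noExt_A F trivial trivial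

theorem FA45_pm_123 {κ x : ℝ} (hκ : κ * h0 = ken x) (hx : ((201326592 : ℕ) : ℝ) / S ≤ x) (hx' : x ≤ (((201326592 : ℕ) : ℝ) + (134217728 : ℕ)) / S) :
    TriA PP.cur (farS κ (h0 * x) (tbl tKF x) (tbl tL x)) 1 2 3 4 5 1 (-1) :=
  (sideF hx hx').farA (Or.inl rfl) (Or.inr rfl) fun y y' F =>
    farA_cert (s1 := true) (s2 := false) rfl hκ covF41 covF52 hx hx'
        Pool.Agent.Strip051.G.I3_16_5_16.Tab.C.FA45.c_pm_123 noCut_A noExt_A F trivial trivial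

theorem FA45_pm_133 {κ x : ℝ} (hκ : κ * h0 = ken x) (hx : ((201326592 : ℕ) : ℝ) / S ≤ x) (hx' : x ≤ (((201326592 : ℕ) : ℝ) + (134217728 : ℕ)) / S) :
    TriA PP.cur (farS κ (h0 * x) (tbl tKF x) (tbl tL x)) 1 3 3 4 5 1 (-1) :=
  (sideF hx hx').farA (Or.inl rfl) (Or.inr rfl) fun y y' F =>
    farA_cert (s1 := true) (s2 := false) rfl hκ covF41 covF53 hx hx'
        Pool.Agent.Strip051.G.I3_16_5_16.Tab.C.FA45.c_pm_133 noCut_A noExt_A F trivial trivial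

theorem FA45_pm_202 {κ x : ℝ} (hκ : κ * h0 = ken x) (hx : ((201326592 : ℕ) : ℝ) / S ≤ x) (hx' : x ≤ (((201326592 : ℕ) : ℝ) + (134217728 : ℕ)) / S) :
    TriA PP.cur (farS κ (h0 * x) (tbl tKF x) (tbl tL x)) 2 0 2 4 5 1 (-1) :=
  (sideF hx hx').farA (Or.inl rfl) (Or.inr rfl) fun y y' F =>
    farA_cert (s1 := true) (s2 := false) rfl hκ covF42 covF50 hx hx'
        Pool.Agent.Strip051.G.I3_16_5_16.Tab.C.FA45.c_pm_202 noCut_A noExt_A F trivial trivial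

theorem FA45_pm_203 {κ x : ℝ} (hκ : κ * h0 = ken x) (hx : ((201326592 : ℕ) : ℝ) / S ≤ x) (hx' : x ≤ (((201326592 : ℕ) : ℝ) + (134217728 : ℕ)) / S) :
    TriA PP.cur (farS κ (h0 * x) (tbl tKF x) (tbl tL x)) 2 0 3 4 5 1 (-1) :=
  (sideF hx hx').farA (Or.inl rfl) (Or.inr rfl) fun y y' F =>
    farA_cert (s1 := true) (s2 := false) rfl hκ covF42 covF50 hx hx'
        Pool.Agent.Strip051.G.I3_16_5_16.Tab.C.FA45.c_pm_203 noCut_A noExt_A F trivial trivial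

theorem FA45_pm_213 {κ x : ℝ} (hκ : κ * h0 = ken x) (hx : ((201326592 : ℕ) : ℝ) / S ≤ x) (hx' : x ≤ (((201326592 : ℕ) : ℝ) + (134217728 : ℕ)) / S) :
    TriA PP.cur (farS κ (h0 * x) (tbl tKF x) (tbl tL x)) 2 1 3 4 5 1 (-1) :=
  (sideF hx hx').farA (Or.inl rfl) (Or.inr rfl) fun y y' F =>
    farA_cert (s1 := true) (s2 := false) rfl hκ covF42 covF51 hx hx'
        Pool.Agent.Strip051.G.I3_16_5_16.Tab.C.FA45.c_pm_213 noCut_A noExt_A F trivial trivial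

theorem FA45_pm_303 {κ x : ℝ} (hκ : κ * h0 = ken x) (hx : ((201326592 : ℕ) : ℝ) / S ≤ x) (hx' : x ≤ (((201326592 : ℕ) : ℝ) + (134217728 : ℕ)) / S) :
    TriA PP.cur (farS κ (h0 * x) (tbl tKF x) (tbl tL x)) 3 0 3 4 5 1 (-1) :=
  (sideF hx hx').farA (Or.inl rfl) (Or.inr rfl) fun y y' F =>
    farA_cert (s1 := true) (s2 := false) rfl hκ covF43 covF50 hx hx'
        Pool.Agent.Strip051.G.I3_16_5_16.Tab.C.FA45.c_pm_303 noCut_A noExt_A F trivial trivial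

theorem FA45_pm_313 {κ x : ℝ} (hκ : κ * h0 = ken x) (hx : ((201326592 : ℕ) : ℝ) / S ≤ x) (hx' : x ≤ (((201326592 : ℕ) : ℝ) + (134217728 : ℕ)) / S) :
    TriA PP.cur (farS κ (h0 * x) (tbl tKF x) (tbl tL x)) 3 1 3 4 5 1 (-1) :=
  (sideF hx hx').farA (Or.inl rfl) (Or.inr rfl) fun y y' F =>
    farA_cert (s1 := true) (s2 := false) rfl hκ covF43 covF51 hx hx'
        Pool.Agent.Strip051.G.I3_16_5_16.Tab.C.FA45.c_pm_313 noCut_A noExt_A F trivial trivial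

theorem FA45_mm_001 {κ x : ℝ} (hκ : κ * h0 = ken x) (hx : ((201326592 : ℕ) : ℝ) / S ≤ x) (hx' : x ≤ (((201326592 : ℕ) : ℝ) + (134217728 : ℕ)) / S) :
    TriA PP.cur (farS κ (h0 * x) (tbl tKF x) (tbl tL x)) 0 0 1 4 5 (-1) (-1) :=
  (sideF hx hx').farA (Or.inr rfl) (Or.inr rfl) fun y y' F =>
    farA_cert (s1 := false) (s2 := false) rfl hκ covF40 covF50 hx hx'
        Pool.Agent.Strip051.G.I3_16_5_16.Tab.C.FA45.c_mm_001 noCut_A noExt_A F trivial trivial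

theorem FA45_mm_011 {κ x : ℝ} (hκ : κ * h0 = ken x) (hx : ((201326592 : ℕ) : ℝ) / S ≤ x) (hx' : x ≤ (((201326592 : ℕ) : ℝ) + (134217728 : ℕ)) / S) :
    TriA PP.cur (farS κ (h0 * x) (tbl tKF x) (tbl tL x)) 0 1 1 4 5 (-1) (-1) :=
  (sideF hx hx').farA (Or.inr rfl) (Or.inr rfl) fun y y' F =>
    farA_cert (s1 := false) (s2 := false) rfl hκ covF40 covF51 hx hx'
        Pool.Agent.Strip051.G.I3_16_5_16.Tab.C.FA45.c_mm_011 noCut_A noExt_A F trivial trivial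

theorem FA45_mm_012 {κ x : ℝ} (hκ : κ * h0 = ken x) (hx : ((201326592 : ℕ) : ℝ) / S ≤ x) (hx' : x ≤ (((201326592 : ℕ) : ℝ) + (134217728 : ℕ)) / S) :
    TriA PP.cur (farS κ (h0 * x) (tbl tKF x) (tbl tL x)) 0 1 2 4 5 (-1) (-1) :=
  (sideF hx hx').farA (Or.inr rfl) (Or.inr rfl) fun y y' F =>
    farA_cert (s1 := false) (s2 := false) rfl hκ covF40 covF51 hx hx'
        Pool.Agent.Strip051.G.I3_16_5_16.Tab.C.FA45.c_mm_012 noCut_A noExt_A F trivial trivial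

theorem FA45_mm_022 {κ x : ℝ} (hκ : κ * h0 = ken x) (hx : ((201326592 : ℕ) : ℝ) / S ≤ x) (hx' : x ≤ (((201326592 : ℕ) : ℝ) + (134217728 : ℕ)) / S) :
    TriA PP.cur (farS κ (h0 * x) (tbl tKF x) (tbl tL x)) 0 2 2 4 5 (-1) (-1) :=
  (sideF hx hx').farA (Or.inr rfl) (Or.inr rfl) fun y y' F =>
    farA_cert (s1 := false) (s2 := false) rfl hκ covF40 covF52 hx hx'
        Pool.Agent.Strip051.G.I3_16_5_16.Tab.C.FA45.c_mm_022 noCut_A noExt_A F trivial trivial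

theorem FA45_mm_023 {κ x : ℝ} (hκ : κ * h0 = ken x) (hx : ((201326592 : ℕ) : ℝ) / S ≤ x) (hx' : x ≤ (((201326592 : ℕ) : ℝ) + (134217728 : ℕ)) / S) :
    TriA PP.cur (farS κ (h0 * x) (tbl tKF x) (tbl tL x)) 0 2 3 4 5 (-1) (-1) :=
  (sideF hx hx').farA (Or.inr rfl) (Or.inr rfl) fun y y' F =>
    farA_cert (s1 := false) (s2 := false) rfl hκ covF40 covF52 hx hx'
        Pool.Agent.Strip051.G.I3_16_5_16.Tab.C.FA45.c_mm_023 noCut_A noExt_A F trivial trivial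

theorem FA45_mm_033 {κ x : ℝ} (hκ : κ * h0 = ken x) (hx : ((201326592 : ℕ) : ℝ) / S ≤ x) (hx' : x ≤ (((201326592 : ℕ) : ℝ) + (134217728 : ℕ)) / S) :
    TriA PP.cur (farS κ (h0 * x) (tbl tKF x) (tbl tL x)) 0 3 3 4 5 (-1) (-1) :=
  (sideF hx hx').farA (Or.inr rfl) (Or.inr rfl) fun y y' F =>
    farA_cert (s1 := false) (s2 := false) rfl hκ covF40 covF53 hx hx'
        Pool.Agent.Strip051.G.I3_16_5_16.Tab.C.FA45.c_mm_033 noCut_A noExt_A F trivial trivial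

theorem FA45_mm_101 {κ x : ℝ} (hκ : κ * h0 = ken x) (hx : ((201326592 : ℕ) : ℝ) / S ≤ x) (hx' : x ≤ (((201326592 : ℕ) : ℝ) + (134217728 : ℕ)) / S) :
    TriA PP.cur (farS κ (h0 * x) (tbl tKF x) (tbl tL x)) 1 0 1 4 5 (-1) (-1) :=
  (sideF hx hx').farA (Or.inr rfl) (Or.inr rfl) fun y y' F =>
    farA_cert (s1 := false) (s2 := false) rfl hκ covF41 covF50 hx hx'
        Pool.Agent.Strip051.G.I3_16_5_16.Tab.C.FA45.c_mm_101 noCut_A noExt_A F trivial trivial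

theorem FA45_mm_102 {κ x : ℝ} (hκ : κ * h0 = ken x) (hx : ((201326592 : ℕ) : ℝ) / S ≤ x) (hx' : x ≤ (((201326592 : ℕ) : ℝ) + (134217728 : ℕ)) / S) :
    TriA PP.cur (farS κ (h0 * x) (tbl tKF x) (tbl tL x)) 1 0 2 4 5 (-1) (-1) :=
  (sideF hx hx').farA (Or.inr rfl) (Or.inr rfl) fun y y' F =>
    farA_cert (s1 := false) (s2 := false) rfl hκ covF41 covF50 hx hx'
        Pool.Agent.Strip051.G.I3_16_5_16.Tab.C.FA45.c_mm_102 noCut_A noExt_A F trivial trivial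

theorem FA45_mm_112 {κ x : ℝ} (hκ : κ * h0 = ken x) (hx : ((201326592 : ℕ) : ℝ) / S ≤ x) (hx' : x ≤ (((201326592 : ℕ) : ℝ) + (134217728 : ℕ)) / S) :
    TriA PP.cur (farS κ (h0 * x) (tbl tKF x) (tbl tL x)) 1 1 2 4 5 (-1) (-1) :=
  (sideF hx hx').farA (Or.inr rfl) (Or.inr rfl) fun y y' F =>
    farA_cert (s1 := false) (s2 := false) rfl hκ covF41 covF51 hx hx'
        Pool.Agent.Strip051.G.I3_16_5_16.Tab.C.FA45.c_mm_112 noCut_A noExt_A F trivial trivial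

theorem FA45_mm_113 {κ x : ℝ} (hκ : κ * h0 = ken x) (hx : ((201326592 : ℕ) : ℝ) / S ≤ x) (hx' : x ≤ (((201326592 : ℕ) : ℝ) + (134217728 : ℕ)) / S) :
    TriA PP.cur (farS κ (h0 * x) (tbl tKF x) (tbl tL x)) 1 1 3 4 5 (-1) (-1) :=
  (sideF hx hx').farA (Or.inr rfl) (Or.inr rfl) fun y y' F =>
    farA_cert (s1 := false) (s2 := false) rfl hκ covF41 covF51 hx hx'
        Pool.Agent.Strip051.G.I3_16_5_16.Tab.C.FA45.c_mm_113 noCut_A noExt_A F trivial trivial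

theorem FA45_mm_123 {κ x : ℝ} (hκ : κ * h0 = ken x) (hx : ((201326592 : ℕ) : ℝ) / S ≤ x) (hx' : x ≤ (((201326592 : ℕ) : ℝ) + (134217728 : ℕ)) / S) :
    TriA PP.cur (farS κ (h0 * x) (tbl tKF x) (tbl tL x)) 1 2 3 4 5 (-1) (-1) :=
  (sideF hx hx').farA (Or.inr rfl) (Or.inr rfl) fun y y' F =>
    farA_cert (s1 := false) (s2 := false) rfl hκ covF41 covF52 hx hx'
        Pool.Agent.Strip051.G.I3_16_5_16.Tab.C.FA45.c_mm_123 noCut_A noExt_A F trivial trivial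

theorem FA45_mm_133 {κ x : ℝ} (hκ : κ * h0 = ken x) (hx : ((201326592 : ℕ) : ℝ) / S ≤ x) (hx' : x ≤ (((201326592 : ℕ) : ℝ) + (134217728 : ℕ)) / S) :
    TriA PP.cur (farS κ (h0 * x) (tbl tKF x) (tbl tL x)) 1 3 3 4 5 (-1) (-1) :=
  (sideF hx hx').farA (Or.inr rfl) (Or.inr rfl) fun y y' F =>
    farA_cert (s1 := false) (s2 := false) rfl hκ covF41 covF53 hx hx'
        Pool.Agent.Strip051.G.I3_16_5_16.Tab.C.FA45.c_mm_133 noCut_A noExt_A F trivial trivial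

theorem FA45_mm_202 {κ x : ℝ} (hκ : κ * h0 = ken x) (hx : ((201326592 : ℕ) : ℝ) / S ≤ x) (hx' : x ≤ (((201326592 : ℕ) : ℝ) + (134217728 : ℕ)) / S) :
    TriA PP.cur (farS κ (h0 * x) (tbl tKF x) (tbl tL x)) 2 0 2 4 5 (-1) (-1) :=
  (sideF hx hx').farA (Or.inr rfl) (Or.inr rfl) fun y y' F =>
    farA_cert (s1 := false) (s2 := false) rfl hκ covF42 covF50 hx hx'
        Pool.Agent.Strip051.G.I3_16_5_16.Tab.C.FA45.c_mm_202 noCut_A noExt_A F trivial trivial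

theorem FA45_mm_203 {κ x : ℝ} (hκ : κ * h0 = ken x) (hx : ((201326592 : ℕ) : ℝ) / S ≤ x) (hx' : x ≤ (((201326592 : ℕ) : ℝ) + (134217728 : ℕ)) / S) :
    TriA PP.cur (farS κ (h0 * x) (tbl tKF x) (tbl tL x)) 2 0 3 4 5 (-1) (-1) :=
  (sideF hx hx').farA (Or.inr rfl) (Or.inr rfl) fun y y' F =>
    farA_cert (s1 := false) (s2 := false) rfl hκ covF42 covF50 hx hx'
        Pool.Agent.Strip051.G.I3_16_5_16.Tab.C.FA45.c_mm_203 noCut_A noExt_A F trivial trivial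

theorem FA45_mm_213 {κ x : ℝ} (hκ : κ * h0 = ken x) (hx : ((201326592 : ℕ) : ℝ) / S ≤ x) (hx' : x ≤ (((201326592 : ℕ) : ℝ) + (134217728 : ℕ)) / S) :
    TriA PP.cur (farS κ (h0 * x) (tbl tKF x) (tbl tL x)) 2 1 3 4 5 (-1) (-1) :=
  (sideF hx hx').farA (Or.inr rfl) (Or.inr rfl) fun y y' F =>
    farA_cert (s1 := false) (s2 := false) rfl hκ covF42 covF51 hx hx'
        Pool.Agent.Strip051.G.I3_16_5_16.Tab.C.FA45.c_mm_213 noCut_A noExt_A F trivial trivial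

theorem FA45_mm_303 {κ x : ℝ} (hκ : κ * h0 = ken x) (hx : ((201326592 : ℕ) : ℝ) / S ≤ x) (hx' : x ≤ (((201326592 : ℕ) : ℝ) + (134217728 : ℕ)) / S) :
    TriA PP.cur (farS κ (h0 * x) (tbl tKF x) (tbl tL x)) 3 0 3 4 5 (-1) (-1) :=
  (sideF hx hx').farA (Or.inr rfl) (Or.inr rfl) fun y y' F =>
    farA_cert (s1 := false) (s2 := false) rfl hκ covF43 covF50 hx hx'
        Pool.Agent.Strip051.G.I3_16_5_16.Tab.C.FA45.c_mm_303 noCut_A noExt_A F trivial trivial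

theorem FA45_mm_313 {κ x : ℝ} (hκ : κ * h0 = ken x) (hx : ((201326592 : ℕ) : ℝ) / S ≤ x) (hx' : x ≤ (((201326592 : ℕ) : ℝ) + (134217728 : ℕ)) / S) :
    TriA PP.cur (farS κ (h0 * x) (tbl tKF x) (tbl tL x)) 3 1 3 4 5 (-1) (-1) :=
  (sideF hx hx').farA (Or.inr rfl) (Or.inr rfl) fun y y' F =>
    farA_cert (s1 := false) (s2 := false) rfl hκ covF43 covF51 hx hx'
        Pool.Agent.Strip051.G.I3_16_5_16.Tab.C.FA45.c_mm_313 noCut_A noExt_A F trivial trivial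

theorem FA45 {κ x : ℝ} (hκ : κ * h0 = ken x) (hx : ((201326592 : ℕ) : ℝ) / S ≤ x) (hx' : x ≤ (((201326592 : ℕ) : ℝ) + (134217728 : ℕ)) / S) : AllTA PP.cur (farS κ (h0 * x) (tbl tKF x) (tbl tL x)) 4 5 where
  pp := all17 (Q := fun a b c => TriA PP.cur (farS κ (h0 * x) (tbl tKF x) (tbl tL x)) a b c 4 5 1 1)
    (FA45_pp_001 hκ hx hx') (FA45_pp_011 hκ hx hx') (FA45_pp_012 hκ hx hx') (FA45_pp_022 hκ hx hx') (FA45_pp_023 hκ hx hx') (FA45_pp_033 hκ hx hx') (FA45_pp_101 hκ hx hx') (FA45_pp_102 hκ hx hx') (FA45_pp_112 hκ hx hx') (FA45_pp_113 hκ hx hx') (FA45_pp_123 hκ hx hx') (FA45_pp_133 hκ hx hx') (FA45_pp_202 hκ hx hx') (FA45_pp_203 hκ hx hx') (FA45_pp_213 hκ hx hx') (FA45_pp_303 hκ hx hx') (FA45_pp_313 hκ hx hx')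
  pm := all17 (Q := fun a b c => TriA PP.cur (farS κ (h0 * x) (tbl tKF x) (tbl tL x)) a b c 4 5 1 (-1))
    (FA45_pm_001 hκ hx hx') (FA45_pm_011 hκ hx hx') (FA45_pm_012 hκ hx hx') (FA45_pm_022 hκ hx hx') (FA45_pm_023 hκ hx hx') (FA45_pm_033 hκ hx hx') (FA45_pm_101 hκ hx hx') (FA45_pm_102 hκ hx hx') (FA45_pm_112 hκ hx hx') (FA45_pm_113 hκ hx hx') (FA45_pm_123 hκ hx hx') (FA45_pm_133 hκ hx hx') (FA45_pm_202 hκ hx hx') (FA45_pm_203 hκ hx hx') (FA45_pm_213 hκ hx hx') (FA45_pm_303 hκ hx hx') (FA45_pm_313 hκ hx hx')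
  mm := all17 (Q := fun a b c => TriA PP.cur (farS κ (h0 * x) (tbl tKF x) (tbl tL x)) a b c 4 5 (-1) (-1))
    (FA45_mm_001 hκ hx hx') (FA45_mm_011 hκ hx hx') (FA45_mm_012 hκ hx hx') (FA45_mm_022 hκ hx hx') (FA45_mm_023 hκ hx hx') (FA45_mm_033 hκ hx hx') (FA45_mm_101 hκ hx hx') (FA45_mm_102 hκ hx hx') (FA45_mm_112 hκ hx hx') (FA45_mm_113 hκ hx hx') (FA45_mm_123 hκ hx hx') (FA45_mm_133 hκ hx hx') (FA45_mm_202 hκ hx hx') (FA45_mm_203 hκ hx hx') (FA45_mm_213 hκ hx hx') (FA45_mm_303 hκ hx hx') (FA45_mm_313 hκ hx hx')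

theorem FA55_pp_001 {κ x : ℝ} (hκ : κ * h0 = ken x) (hx : ((201326592 : ℕ) : ℝ) / S ≤ x) (hx' : x ≤ (((201326592 : ℕ) : ℝ) + (134217728 : ℕ)) / S) :
    TriA PP.cur (farS κ (h0 * x) (tbl tKF x) (tbl tL x)) 0 0 1 5 5 1 1 :=
  (sideF hx hx').farA (Or.inl rfl) (Or.inl rfl) fun y y' F =>
    farA_cert (s1 := true) (s2 := true) rfl hκ covF50 covF50 hx hx'
        Pool.Agent.Strip051.G.I3_16_5_16.Tab.C.FA55.c_pp_001 noCut_A noExt_A F trivial trivial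

theorem FA55_pp_011 {κ x : ℝ} (hκ : κ * h0 = ken x) (hx : ((201326592 : ℕ) : ℝ) / S ≤ x) (hx' : x ≤ (((201326592 : ℕ) : ℝ) + (134217728 : ℕ)) / S) :
    TriA PP.cur (farS κ (h0 * x) (tbl tKF x) (tbl tL x)) 0 1 1 5 5 1 1 :=
  (sideF hx hx').farA (Or.inl rfl) (Or.inl rfl) fun y y' F =>
    farA_cert (s1 := true) (s2 := true) rfl hκ covF50 covF51 hx hx'
        Pool.Agent.Strip051.G.I3_16_5_16.Tab.C.FA55.c_pp_011 noCut_A noExt_A F trivial trivial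

theorem FA55_pp_012 {κ x : ℝ} (hκ : κ * h0 = ken x) (hx : ((201326592 : ℕ) : ℝ) / S ≤ x) (hx' : x ≤ (((201326592 : ℕ) : ℝ) + (134217728 : ℕ)) / S) :
    TriA PP.cur (farS κ (h0 * x) (tbl tKF x) (tbl tL x)) 0 1 2 5 5 1 1 :=
  (sideF hx hx').farA (Or.inl rfl) (Or.inl rfl) fun y y' F =>
    farA_cert (s1 := true) (s2 := true) rfl hκ covF50 covF51 hx hx'
        Pool.Agent.Strip051.G.I3_16_5_16.Tab.C.FA55.c_pp_012 noCut_A noExt_A F trivial trivial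

theorem FA55_pp_022 {κ x : ℝ} (hκ : κ * h0 = ken x) (hx : ((201326592 : ℕ) : ℝ) / S ≤ x) (hx' : x ≤ (((201326592 : ℕ) : ℝ) + (134217728 : ℕ)) / S) :
    TriA PP.cur (farS κ (h0 * x) (tbl tKF x) (tbl tL x)) 0 2 2 5 5 1 1 :=
  (sideF hx hx').farA (Or.inl rfl) (Or.inl rfl) fun y y' F =>
    farA_cert (s1 := true) (s2 := true) rfl hκ covF50 covF52 hx hx'
        Pool.Agent.Strip051.G.I3_16_5_16.Tab.C.FA55.c_pp_022 noCut_A noExt_A F trivial trivial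

theorem FA55_pp_023 {κ x : ℝ} (hκ : κ * h0 = ken x) (hx : ((201326592 : ℕ) : ℝ) / S ≤ x) (hx' : x ≤ (((201326592 : ℕ) : ℝ) + (134217728 : ℕ)) / S) :
    TriA PP.cur (farS κ (h0 * x) (tbl tKF x) (tbl tL x)) 0 2 3 5 5 1 1 :=
  (sideF hx hx').farA (Or.inl rfl) (Or.inl rfl) fun y y' F =>
    farA_cert (s1 := true) (s2 := true) rfl hκ covF50 covF52 hx hx'
        Pool.Agent.Strip051.G.I3_16_5_16.Tab.C.FA55.c_pp_023 noCut_A noExt_A F trivial trivial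

theorem FA55_pp_033 {κ x : ℝ} (hκ : κ * h0 = ken x) (hx : ((201326592 : ℕ) : ℝ) / S ≤ x) (hx' : x ≤ (((201326592 : ℕ) : ℝ) + (134217728 : ℕ)) / S) :
    TriA PP.cur (farS κ (h0 * x) (tbl tKF x) (tbl tL x)) 0 3 3 5 5 1 1 :=
  (sideF hx hx').farA (Or.inl rfl) (Or.inl rfl) fun y y' F =>
    farA_cert (s1 := true) (s2 := true) rfl hκ covF50 covF53 hx hx'
        Pool.Agent.Strip051.G.I3_16_5_16.Tab.C.FA55.c_pp_033 noCut_A noExt_A F trivial trivial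

theorem FA55_pp_101 {κ x : ℝ} (hκ : κ * h0 = ken x) (hx : ((201326592 : ℕ) : ℝ) / S ≤ x) (hx' : x ≤ (((201326592 : ℕ) : ℝ) + (134217728 : ℕ)) / S) :
    TriA PP.cur (farS κ (h0 * x) (tbl tKF x) (tbl tL x)) 1 0 1 5 5 1 1 :=
  (sideF hx hx').farA (Or.inl rfl) (Or.inl rfl) fun y y' F =>
    farA_cert (s1 := true) (s2 := true) rfl hκ covF51 covF50 hx hx'
        Pool.Agent.Strip051.G.I3_16_5_16.Tab.C.FA55.c_pp_101 noCut_A noExt_A F trivial trivial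

theorem FA55_pp_102 {κ x : ℝ} (hκ : κ * h0 = ken x) (hx : ((201326592 : ℕ) : ℝ) / S ≤ x) (hx' : x ≤ (((201326592 : ℕ) : ℝ) + (134217728 : ℕ)) / S) :
    TriA PP.cur (farS κ (h0 * x) (tbl tKF x) (tbl tL x)) 1 0 2 5 5 1 1 :=
  (sideF hx hx').farA (Or.inl rfl) (Or.inl rfl) fun y y' F =>
    farA_cert (s1 := true) (s2 := true) rfl hκ covF51 covF50 hx hx'
        Pool.Agent.Strip051.G.I3_16_5_16.Tab.C.FA55.c_pp_102 noCut_A noExt_A F trivial trivial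

theorem FA55_pp_112 {κ x : ℝ} (hκ : κ * h0 = ken x) (hx : ((201326592 : ℕ) : ℝ) / S ≤ x) (hx' : x ≤ (((201326592 : ℕ) : ℝ) + (134217728 : ℕ)) / S) :
    TriA PP.cur (farS κ (h0 * x) (tbl tKF x) (tbl tL x)) 1 1 2 5 5 1 1 :=
  (sideF hx hx').farA (Or.inl rfl) (Or.inl rfl) fun y y' F =>
    farA_cert (s1 := true) (s2 := true) rfl hκ covF51 covF51 hx hx'
        Pool.Agent.Strip051.G.I3_16_5_16.Tab.C.FA55.c_pp_112 noCut_A noExt_A F trivial trivial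

theorem FA55_pp_113 {κ x : ℝ} (hκ : κ * h0 = ken x) (hx : ((201326592 : ℕ) : ℝ) / S ≤ x) (hx' : x ≤ (((201326592 : ℕ) : ℝ) + (134217728 : ℕ)) / S) :
    TriA PP.cur (farS κ (h0 * x) (tbl tKF x) (tbl tL x)) 1 1 3 5 5 1 1 :=
  (sideF hx hx').farA (Or.inl rfl) (Or.inl rfl) fun y y' F =>
    farA_cert (s1 := true) (s2 := true) rfl hκ covF51 covF51 hx hx'
        Pool.Agent.Strip051.G.I3_16_5_16.Tab.C.FA55.c_pp_113 noCut_A noExt_A F trivial trivial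

theorem FA55_pp_123 {κ x : ℝ} (hκ : κ * h0 = ken x) (hx : ((201326592 : ℕ) : ℝ) / S ≤ x) (hx' : x ≤ (((201326592 : ℕ) : ℝ) + (134217728 : ℕ)) / S) :
    TriA PP.cur (farS κ (h0 * x) (tbl tKF x) (tbl tL x)) 1 2 3 5 5 1 1 :=
  (sideF hx hx').farA (Or.inl rfl) (Or.inl rfl) fun y y' F =>
    farA_cert (s1 := true) (s2 := true) rfl hκ covF51 covF52 hx hx'
        Pool.Agent.Strip051.G.I3_16_5_16.Tab.C.FA55.c_pp_123 noCut_A noExt_A F trivial trivial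

theorem FA55_pp_133 {κ x : ℝ} (hκ : κ * h0 = ken x) (hx : ((201326592 : ℕ) : ℝ) / S ≤ x) (hx' : x ≤ (((201326592 : ℕ) : ℝ) + (134217728 : ℕ)) / S) :
    TriA PP.cur (farS κ (h0 * x) (tbl tKF x) (tbl tL x)) 1 3 3 5 5 1 1 :=
  (sideF hx hx').farA (Or.inl rfl) (Or.inl rfl) fun y y' F =>
    farA_cert (s1 := true) (s2 := true) rfl hκ covF51 covF53 hx hx'
        Pool.Agent.Strip051.G.I3_16_5_16.Tab.C.FA55.c_pp_133 noCut_A noExt_A F trivial trivial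

theorem FA55_pp_202 {κ x : ℝ} (hκ : κ * h0 = ken x) (hx : ((201326592 : ℕ) : ℝ) / S ≤ x) (hx' : x ≤ (((201326592 : ℕ) : ℝ) + (134217728 : ℕ)) / S) :
    TriA PP.cur (farS κ (h0 * x) (tbl tKF x) (tbl tL x)) 2 0 2 5 5 1 1 :=
  (sideF hx hx').farA (Or.inl rfl) (Or.inl rfl) fun y y' F =>
    farA_cert (s1 := true) (s2 := true) rfl hκ covF52 covF50 hx hx'
        Pool.Agent.Strip051.G.I3_16_5_16.Tab.C.FA55.c_pp_202 noCut_A noExt_A F trivial trivial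

theorem FA55_pp_203 {κ x : ℝ} (hκ : κ * h0 = ken x) (hx : ((201326592 : ℕ) : ℝ) / S ≤ x) (hx' : x ≤ (((201326592 : ℕ) : ℝ) + (134217728 : ℕ)) / S) :
    TriA PP.cur (farS κ (h0 * x) (tbl tKF x) (tbl tL x)) 2 0 3 5 5 1 1 :=
  (sideF hx hx').farA (Or.inl rfl) (Or.inl rfl) fun y y' F =>
    farA_cert (s1 := true) (s2 := true) rfl hκ covF52 covF50 hx hx'
        Pool.Agent.Strip051.G.I3_16_5_16.Tab.C.FA55.c_pp_203 noCut_A noExt_A F trivial trivial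

theorem FA55_pp_213 {κ x : ℝ} (hκ : κ * h0 = ken x) (hx : ((201326592 : ℕ) : ℝ) / S ≤ x) (hx' : x ≤ (((201326592 : ℕ) : ℝ) + (134217728 : ℕ)) / S) :
    TriA PP.cur (farS κ (h0 * x) (tbl tKF x) (tbl tL x)) 2 1 3 5 5 1 1 :=
  (sideF hx hx').farA (Or.inl rfl) (Or.inl rfl) fun y y' F =>
    farA_cert (s1 := true) (s2 := true) rfl hκ covF52 covF51 hx hx'
        Pool.Agent.Strip051.G.I3_16_5_16.Tab.C.FA55.c_pp_213 noCut_A noExt_A F trivial trivial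

theorem FA55_pp_303 {κ x : ℝ} (hκ : κ * h0 = ken x) (hx : ((201326592 : ℕ) : ℝ) / S ≤ x) (hx' : x ≤ (((201326592 : ℕ) : ℝ) + (134217728 : ℕ)) / S) :
    TriA PP.cur (farS κ (h0 * x) (tbl tKF x) (tbl tL x)) 3 0 3 5 5 1 1 :=
  (sideF hx hx').farA (Or.inl rfl) (Or.inl rfl) fun y y' F =>
    farA_cert (s1 := true) (s2 := true) rfl hκ covF53 covF50 hx hx'
        Pool.Agent.Strip051.G.I3_16_5_16.Tab.C.FA55.c_pp_303 noCut_A noExt_A F trivial trivial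

theorem FA55_pp_313 {κ x : ℝ} (hκ : κ * h0 = ken x) (hx : ((201326592 : ℕ) : ℝ) / S ≤ x) (hx' : x ≤ (((201326592 : ℕ) : ℝ) + (134217728 : ℕ)) / S) :
    TriA PP.cur (farS κ (h0 * x) (tbl tKF x) (tbl tL x)) 3 1 3 5 5 1 1 :=
  (sideF hx hx').farA (Or.inl rfl) (Or.inl rfl) fun y y' F =>
    farA_cert (s1 := true) (s2 := true) rfl hκ covF53 covF51 hx hx'
        Pool.Agent.Strip051.G.I3_16_5_16.Tab.C.FA55.c_pp_313 noCut_A noExt_A F trivial trivial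

theorem FA55_pm_001 {κ x : ℝ} (hκ : κ * h0 = ken x) (hx : ((201326592 : ℕ) : ℝ) / S ≤ x) (hx' : x ≤ (((201326592 : ℕ) : ℝ) + (134217728 : ℕ)) / S) :
    TriA PP.cur (farS κ (h0 * x) (tbl tKF x) (tbl tL x)) 0 0 1 5 5 1 (-1) :=
  (sideF hx hx').farA (Or.inl rfl) (Or.inr rfl) fun y y' F =>
    farA_cert (s1 := true) (s2 := false) rfl hκ covF50 covF50 hx hx'
        Pool.Agent.Strip051.G.I3_16_5_16.Tab.C.FA55.c_pm_001 noCut_A noExt_A F trivial trivial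

theorem FA55_pm_011 {κ x : ℝ} (hκ : κ * h0 = ken x) (hx : ((201326592 : ℕ) : ℝ) / S ≤ x) (hx' : x ≤ (((201326592 : ℕ) : ℝ) + (134217728 : ℕ)) / S) :
    TriA PP.cur (farS κ (h0 * x) (tbl tKF x) (tbl tL x)) 0 1 1 5 5 1 (-1) :=
  (sideF hx hx').farA (Or.inl rfl) (Or.inr rfl) fun y y' F =>
    farA_cert (s1 := true) (s2 := false) rfl hκ covF50 covF51 hx hx'
        Pool.Agent.Strip051.G.I3_16_5_16.Tab.C.FA55.c_pm_011 noCut_A noExt_A F trivial trivial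

theorem FA55_pm_012 {κ x : ℝ} (hκ : κ * h0 = ken x) (hx : ((201326592 : ℕ) : ℝ) / S ≤ x) (hx' : x ≤ (((201326592 : ℕ) : ℝ) + (134217728 : ℕ)) / S) :
    TriA PP.cur (farS κ (h0 * x) (tbl tKF x) (tbl tL x)) 0 1 2 5 5 1 (-1) :=
  (sideF hx hx').farA (Or.inl rfl) (Or.inr rfl) fun y y' F =>
    farA_cert (s1 := true) (s2 := false) rfl hκ covF50 covF51 hx hx'
        Pool.Agent.Strip051.G.I3_16_5_16.Tab.C.FA55.c_pm_012 noCut_A noExt_A F trivial trivial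

theorem FA55_pm_022 {κ x : ℝ} (hκ : κ * h0 = ken x) (hx : ((201326592 : ℕ) : ℝ) / S ≤ x) (hx' : x ≤ (((201326592 : ℕ) : ℝ) + (134217728 : ℕ)) / S) :
    TriA PP.cur (farS κ (h0 * x) (tbl tKF x) (tbl tL x)) 0 2 2 5 5 1 (-1) :=
  (sideF hx hx').farA (Or.inl rfl) (Or.inr rfl) fun y y' F =>
    farA_cert (s1 := true) (s2 := false) rfl hκ covF50 covF52 hx hx'
        Pool.Agent.Strip051.G.I3_16_5_16.Tab.C.FA55.c_pm_022 noCut_A noExt_A F trivial trivial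

theorem FA55_pm_023 {κ x : ℝ} (hκ : κ * h0 = ken x) (hx : ((201326592 : ℕ) : ℝ) / S ≤ x) (hx' : x ≤ (((201326592 : ℕ) : ℝ) + (134217728 : ℕ)) / S) :
    TriA PP.cur (farS κ (h0 * x) (tbl tKF x) (tbl tL x)) 0 2 3 5 5 1 (-1) :=
  (sideF hx hx').farA (Or.inl rfl) (Or.inr rfl) fun y y' F =>
    farA_cert (s1 := true) (s2 := false) rfl hκ covF50 covF52 hx hx'
        Pool.Agent.Strip051.G.I3_16_5_16.Tab.C.FA55.c_pm_023 noCut_A noExt_A F trivial trivial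

theorem FA55_pm_033 {κ x : ℝ} (hκ : κ * h0 = ken x) (hx : ((201326592 : ℕ) : ℝ) / S ≤ x) (hx' : x ≤ (((201326592 : ℕ) : ℝ) + (134217728 : ℕ)) / S) :
    TriA PP.cur (farS κ (h0 * x) (tbl tKF x) (tbl tL x)) 0 3 3 5 5 1 (-1) :=
  (sideF hx hx').farA (Or.inl rfl) (Or.inr rfl) fun y y' F =>
    farA_cert (s1 := true) (s2 := false) rfl hκ covF50 covF53 hx hx'
        Pool.Agent.Strip051.G.I3_16_5_16.Tab.C.FA55.c_pm_033 noCut_A noExt_A F trivial trivial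

theorem FA55_pm_101 {κ x : ℝ} (hκ : κ * h0 = ken x) (hx : ((201326592 : ℕ) : ℝ) / S ≤ x) (hx' : x ≤ (((201326592 : ℕ) : ℝ) + (134217728 : ℕ)) / S) :
    TriA PP.cur (farS κ (h0 * x) (tbl tKF x) (tbl tL x)) 1 0 1 5 5 1 (-1) :=
  (sideF hx hx').farA (Or.inl rfl) (Or.inr rfl) fun y y' F =>
    farA_cert (s1 := true) (s2 := false) rfl hκ covF51 covF50 hx hx'
        Pool.Agent.Strip051.G.I3_16_5_16.Tab.C.FA55.c_pm_101 noCut_A noExt_A F trivial trivial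

theorem FA55_pm_102 {κ x : ℝ} (hκ : κ * h0 = ken x) (hx : ((201326592 : ℕ) : ℝ) / S ≤ x) (hx' : x ≤ (((201326592 : ℕ) : ℝ) + (134217728 : ℕ)) / S) :
    TriA PP.cur (farS κ (h0 * x) (tbl tKF x) (tbl tL x)) 1 0 2 5 5 1 (-1) :=
  (sideF hx hx').farA (Or.inl rfl) (Or.inr rfl) fun y y' F =>
    farA_cert (s1 := true) (s2 := false) rfl hκ covF51 covF50 hx hx'
        Pool.Agent.Strip051.G.I3_16_5_16.Tab.C.FA55.c_pm_102 noCut_A noExt_A F trivial trivial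

theorem FA55_pm_112 {κ x : ℝ} (hκ : κ * h0 = ken x) (hx : ((201326592 : ℕ) : ℝ) / S ≤ x) (hx' : x ≤ (((201326592 : ℕ) : ℝ) + (134217728 : ℕ)) / S) :
    TriA PP.cur (farS κ (h0 * x) (tbl tKF x) (tbl tL x)) 1 1 2 5 5 1 (-1) :=
  (sideF hx hx').farA (Or.inl rfl) (Or.inr rfl) fun y y' F =>
    farA_cert (s1 := true) (s2 := false) rfl hκ covF51 covF51 hx hx'
        Pool.Agent.Strip051.G.I3_16_5_16.Tab.C.FA55.c_pm_112 noCut_A noExt_A F trivial trivial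

theorem FA55_pm_113 {κ x : ℝ} (hκ : κ * h0 = ken x) (hx : ((201326592 : ℕ) : ℝ) / S ≤ x) (hx' : x ≤ (((201326592 : ℕ) : ℝ) + (134217728 : ℕ)) / S) :
    TriA PP.cur (farS κ (h0 * x) (tbl tKF x) (tbl tL x)) 1 1 3 5 5 1 (-1) :=
  (sideF hx hx').farA (Or.inl rfl) (Or.inr rfl) fun y y' F =>
    farA_cert (s1 := true) (s2 := false) rfl hκ covF51 covF51 hx hx'
        Pool.Agent.Strip051.G.I3_16_5_16.Tab.C.FA55.c_pm_113 noCut_A noExt_A F trivial trivial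

theorem FA55_pm_123 {κ x : ℝ} (hκ : κ * h0 = ken x) (hx : ((201326592 : ℕ) : ℝ) / S ≤ x) (hx' : x ≤ (((201326592 : ℕ) : ℝ) + (134217728 : ℕ)) / S) :
    TriA PP.cur (farS κ (h0 * x) (tbl tKF x) (tbl tL x)) 1 2 3 5 5 1 (-1) :=
  (sideF hx hx').farA (Or.inl rfl) (Or.inr rfl) fun y y' F =>
    farA_cert (s1 := true) (s2 := false) rfl hκ covF51 covF52 hx hx'
        Pool.Agent.Strip051.G.I3_16_5_16.Tab.C.FA55.c_pm_123 noCut_A noExt_A F trivial trivial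

theorem FA55_pm_133 {κ x : ℝ} (hκ : κ * h0 = ken x) (hx : ((201326592 : ℕ) : ℝ) / S ≤ x) (hx' : x ≤ (((201326592 : ℕ) : ℝ) + (134217728 : ℕ)) / S) :
    TriA PP.cur (farS κ (h0 * x) (tbl tKF x) (tbl tL x)) 1 3 3 5 5 1 (-1) :=
  (sideF hx hx').farA (Or.inl rfl) (Or.inr rfl) fun y y' F =>
    farA_cert (s1 := true) (s2 := false) rfl hκ covF51 covF53 hx hx'
        Pool.Agent.Strip051.G.I3_16_5_16.Tab.C.FA55.c_pm_133 noCut_A noExt_A F trivial trivial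

theorem FA55_pm_202 {κ x : ℝ} (hκ : κ * h0 = ken x) (hx : ((201326592 : ℕ) : ℝ) / S ≤ x) (hx' : x ≤ (((201326592 : ℕ) : ℝ) + (134217728 : ℕ)) / S) :
    TriA PP.cur (farS κ (h0 * x) (tbl tKF x) (tbl tL x)) 2 0 2 5 5 1 (-1) :=
  (sideF hx hx').farA (Or.inl rfl) (Or.inr rfl) fun y y' F =>
    farA_cert (s1 := true) (s2 := false) rfl hκ covF52 covF50 hx hx'
        Pool.Agent.Strip051.G.I3_16_5_16.Tab.C.FA55.c_pm_202 noCut_A noExt_A F trivial trivial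

theorem FA55_pm_203 {κ x : ℝ} (hκ : κ * h0 = ken x) (hx : ((201326592 : ℕ) : ℝ) / S ≤ x) (hx' : x ≤ (((201326592 : ℕ) : ℝ) + (134217728 : ℕ)) / S) :
    TriA PP.cur (farS κ (h0 * x) (tbl tKF x) (tbl tL x)) 2 0 3 5 5 1 (-1) :=
  (sideF hx hx').farA (Or.inl rfl) (Or.inr rfl) fun y y' F =>
    farA_cert (s1 := true) (s2 := false) rfl hκ covF52 covF50 hx hx'
        Pool.Agent.Strip051.G.I3_16_5_16.Tab.C.FA55.c_pm_203 noCut_A noExt_A F trivial trivial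

theorem FA55_pm_213 {κ x : ℝ} (hκ : κ * h0 = ken x) (hx : ((201326592 : ℕ) : ℝ) / S ≤ x) (hx' : x ≤ (((201326592 : ℕ) : ℝ) + (134217728 : ℕ)) / S) :
    TriA PP.cur (farS κ (h0 * x) (tbl tKF x) (tbl tL x)) 2 1 3 5 5 1 (-1) :=
  (sideF hx hx').farA (Or.inl rfl) (Or.inr rfl) fun y y' F =>
    farA_cert (s1 := true) (s2 := false) rfl hκ covF52 covF51 hx hx'
        Pool.Agent.Strip051.G.I3_16_5_16.Tab.C.FA55.c_pm_213 noCut_A noExt_A F trivial trivial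

theorem FA55_pm_303 {κ x : ℝ} (hκ : κ * h0 = ken x) (hx : ((201326592 : ℕ) : ℝ) / S ≤ x) (hx' : x ≤ (((201326592 : ℕ) : ℝ) + (134217728 : ℕ)) / S) :
    TriA PP.cur (farS κ (h0 * x) (tbl tKF x) (tbl tL x)) 3 0 3 5 5 1 (-1) :=
  (sideF hx hx').farA (Or.inl rfl) (Or.inr rfl) fun y y' F =>
    farA_cert (s1 := true) (s2 := false) rfl hκ covF53 covF50 hx hx'
        Pool.Agent.Strip051.G.I3_16_5_16.Tab.C.FA55.c_pm_303 noCut_A noExt_A F trivial trivial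

theorem FA55_pm_313 {κ x : ℝ} (hκ : κ * h0 = ken x) (hx : ((201326592 : ℕ) : ℝ) / S ≤ x) (hx' : x ≤ (((201326592 : ℕ) : ℝ) + (134217728 : ℕ)) / S) :
    TriA PP.cur (farS κ (h0 * x) (tbl tKF x) (tbl tL x)) 3 1 3 5 5 1 (-1) :=
  (sideF hx hx').farA (Or.inl rfl) (Or.inr rfl) fun y y' F =>
    farA_cert (s1 := true) (s2 := false) rfl hκ covF53 covF51 hx hx'
        Pool.Agent.Strip051.G.I3_16_5_16.Tab.C.FA55.c_pm_313 noCut_A noExt_A F trivial trivial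

theorem FA55_mm_001 {κ x : ℝ} (hκ : κ * h0 = ken x) (hx : ((201326592 : ℕ) : ℝ) / S ≤ x) (hx' : x ≤ (((201326592 : ℕ) : ℝ) + (134217728 : ℕ)) / S) :
    TriA PP.cur (farS κ (h0 * x) (tbl tKF x) (tbl tL x)) 0 0 1 5 5 (-1) (-1) :=
  (sideF hx hx').farA (Or.inr rfl) (Or.inr rfl) fun y y' F =>
    farA_cert (s1 := false) (s2 := false) rfl hκ covF50 covF50 hx hx'
        Pool.Agent.Strip051.G.I3_16_5_16.Tab.C.FA55.c_mm_001 noCut_A noExt_A F trivial trivial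

theorem FA55_mm_011 {κ x : ℝ} (hκ : κ * h0 = ken x) (hx : ((201326592 : ℕ) : ℝ) / S ≤ x) (hx' : x ≤ (((201326592 : ℕ) : ℝ) + (134217728 : ℕ)) / S) :
    TriA PP.cur (farS κ (h0 * x) (tbl tKF x) (tbl tL x)) 0 1 1 5 5 (-1) (-1) :=
  (sideF hx hx').farA (Or.inr rfl) (Or.inr rfl) fun y y' F =>
    farA_cert (s1 := false) (s2 := false) rfl hκ covF50 covF51 hx hx'
        Pool.Agent.Strip051.G.I3_16_5_16.Tab.C.FA55.c_mm_011 noCut_A noExt_A F trivial trivial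

theorem FA55_mm_012 {κ x : ℝ} (hκ : κ * h0 = ken x) (hx : ((201326592 : ℕ) : ℝ) / S ≤ x) (hx' : x ≤ (((201326592 : ℕ) : ℝ) + (134217728 : ℕ)) / S) :
    TriA PP.cur (farS κ (h0 * x) (tbl tKF x) (tbl tL x)) 0 1 2 5 5 (-1) (-1) :=
  (sideF hx hx').farA (Or.inr rfl) (Or.inr rfl) fun y y' F =>
    farA_cert (s1 := false) (s2 := false) rfl hκ covF50 covF51 hx hx'
        Pool.Agent.Strip051.G.I3_16_5_16.Tab.C.FA55.c_mm_012 noCut_A noExt_A F trivial trivial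

theorem FA55_mm_022 {κ x : ℝ} (hκ : κ * h0 = ken x) (hx : ((201326592 : ℕ) : ℝ) / S ≤ x) (hx' : x ≤ (((201326592 : ℕ) : ℝ) + (134217728 : ℕ)) / S) :
    TriA PP.cur (farS κ (h0 * x) (tbl tKF x) (tbl tL x)) 0 2 2 5 5 (-1) (-1) :=
  (sideF hx hx').farA (Or.inr rfl) (Or.inr rfl) fun y y' F =>
    farA_cert (s1 := false) (s2 := false) rfl hκ covF50 covF52 hx hx'
        Pool.Agent.Strip051.G.I3_16_5_16.Tab.C.FA55.c_mm_022 noCut_A noExt_A F trivial trivial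

theorem FA55_mm_023 {κ x : ℝ} (hκ : κ * h0 = ken x) (hx : ((201326592 : ℕ) : ℝ) / S ≤ x) (hx' : x ≤ (((201326592 : ℕ) : ℝ) + (134217728 : ℕ)) / S) :
    TriA PP.cur (farS κ (h0 * x) (tbl tKF x) (tbl tL x)) 0 2 3 5 5 (-1) (-1) :=
  (sideF hx hx').farA (Or.inr rfl) (Or.inr rfl) fun y y' F =>
    farA_cert (s1 := false) (s2 := false) rfl hκ covF50 covF52 hx hx'
        Pool.Agent.Strip051.G.I3_16_5_16.Tab.C.FA55.c_mm_023 noCut_A noExt_A F trivial trivial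

theorem FA55_mm_033 {κ x : ℝ} (hκ : κ * h0 = ken x) (hx : ((201326592 : ℕ) : ℝ) / S ≤ x) (hx' : x ≤ (((201326592 : ℕ) : ℝ) + (134217728 : ℕ)) / S) :
    TriA PP.cur (farS κ (h0 * x) (tbl tKF x) (tbl tL x)) 0 3 3 5 5 (-1) (-1) :=
  (sideF hx hx').farA (Or.inr rfl) (Or.inr rfl) fun y y' F =>
    farA_cert (s1 := false) (s2 := false) rfl hκ covF50 covF53 hx hx'
        Pool.Agent.Strip051.G.I3_16_5_16.Tab.C.FA55.c_mm_033 noCut_A noExt_A F trivial trivial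

theorem FA55_mm_101 {κ x : ℝ} (hκ : κ * h0 = ken x) (hx : ((201326592 : ℕ) : ℝ) / S ≤ x) (hx' : x ≤ (((201326592 : ℕ) : ℝ) + (134217728 : ℕ)) / S) :
    TriA PP.cur (farS κ (h0 * x) (tbl tKF x) (tbl tL x)) 1 0 1 5 5 (-1) (-1) :=
  (sideF hx hx').farA (Or.inr rfl) (Or.inr rfl) fun y y' F =>
    farA_cert (s1 := false) (s2 := false) rfl hκ covF51 covF50 hx hx'
        Pool.Agent.Strip051.G.I3_16_5_16.Tab.C.FA55.c_mm_101 noCut_A noExt_A F trivial trivial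

theorem FA55_mm_102 {κ x : ℝ} (hκ : κ * h0 = ken x) (hx : ((201326592 : ℕ) : ℝ) / S ≤ x) (hx' : x ≤ (((201326592 : ℕ) : ℝ) + (134217728 : ℕ)) / S) :
    TriA PP.cur (farS κ (h0 * x) (tbl tKF x) (tbl tL x)) 1 0 2 5 5 (-1) (-1) :=
  (sideF hx hx').farA (Or.inr rfl) (Or.inr rfl) fun y y' F =>
    farA_cert (s1 := false) (s2 := false) rfl hκ covF51 covF50 hx hx'
        Pool.Agent.Strip051.G.I3_16_5_16.Tab.C.FA55.c_mm_102 noCut_A noExt_A F trivial trivial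

theorem FA55_mm_112 {κ x : ℝ} (hκ : κ * h0 = ken x) (hx : ((201326592 : ℕ) : ℝ) / S ≤ x) (hx' : x ≤ (((201326592 : ℕ) : ℝ) + (134217728 : ℕ)) / S) :
    TriA PP.cur (farS κ (h0 * x) (tbl tKF x) (tbl tL x)) 1 1 2 5 5 (-1) (-1) :=
  (sideF hx hx').farA (Or.inr rfl) (Or.inr rfl) fun y y' F =>
    farA_cert (s1 := false) (s2 := false) rfl hκ covF51 covF51 hx hx'
        Pool.Agent.Strip051.G.I3_16_5_16.Tab.C.FA55.c_mm_112 noCut_A noExt_A F trivial trivial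

theorem FA55_mm_113 {κ x : ℝ} (hκ : κ * h0 = ken x) (hx : ((201326592 : ℕ) : ℝ) / S ≤ x) (hx' : x ≤ (((201326592 : ℕ) : ℝ) + (134217728 : ℕ)) / S) :
    TriA PP.cur (farS κ (h0 * x) (tbl tKF x) (tbl tL x)) 1 1 3 5 5 (-1) (-1) :=
  (sideF hx hx').farA (Or.inr rfl) (Or.inr rfl) fun y y' F =>
    farA_cert (s1 := false) (s2 := false) rfl hκ covF51 covF51 hx hx'
        Pool.Agent.Strip051.G.I3_16_5_16.Tab.C.FA55.c_mm_113 noCut_A noExt_A F trivial trivial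

theorem FA55_mm_123 {κ x : ℝ} (hκ : κ * h0 = ken x) (hx : ((201326592 : ℕ) : ℝ) / S ≤ x) (hx' : x ≤ (((201326592 : ℕ) : ℝ) + (134217728 : ℕ)) / S) :
    TriA PP.cur (farS κ (h0 * x) (tbl tKF x) (tbl tL x)) 1 2 3 5 5 (-1) (-1) :=
  (sideF hx hx').farA (Or.inr rfl) (Or.inr rfl) fun y y' F =>
    farA_cert (s1 := false) (s2 := false) rfl hκ covF51 covF52 hx hx'
        Pool.Agent.Strip051.G.I3_16_5_16.Tab.C.FA55.c_mm_123 noCut_A noExt_A F trivial trivial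

theorem FA55_mm_133 {κ x : ℝ} (hκ : κ * h0 = ken x) (hx : ((201326592 : ℕ) : ℝ) / S ≤ x) (hx' : x ≤ (((201326592 : ℕ) : ℝ) + (134217728 : ℕ)) / S) :
    TriA PP.cur (farS κ (h0 * x) (tbl tKF x) (tbl tL x)) 1 3 3 5 5 (-1) (-1) :=
  (sideF hx hx').farA (Or.inr rfl) (Or.inr rfl) fun y y' F =>
    farA_cert (s1 := false) (s2 := false) rfl hκ covF51 covF53 hx hx'
        Pool.Agent.Strip051.G.I3_16_5_16.Tab.C.FA55.c_mm_133 noCut_A noExt_A F trivial trivial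

theorem FA55_mm_202 {κ x : ℝ} (hκ : κ * h0 = ken x) (hx : ((201326592 : ℕ) : ℝ) / S ≤ x) (hx' : x ≤ (((201326592 : ℕ) : ℝ) + (134217728 : ℕ)) / S) :
    TriA PP.cur (farS κ (h0 * x) (tbl tKF x) (tbl tL x)) 2 0 2 5 5 (-1) (-1) :=
  (sideF hx hx').farA (Or.inr rfl) (Or.inr rfl) fun y y' F =>
    farA_cert (s1 := false) (s2 := false) rfl hκ covF52 covF50 hx hx'
        Pool.Agent.Strip051.G.I3_16_5_16.Tab.C.FA55.c_mm_202 noCut_A noExt_A F trivial trivial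

theorem FA55_mm_203 {κ x : ℝ} (hκ : κ * h0 = ken x) (hx : ((201326592 : ℕ) : ℝ) / S ≤ x) (hx' : x ≤ (((201326592 : ℕ) : ℝ) + (134217728 : ℕ)) / S) :
    TriA PP.cur (farS κ (h0 * x) (tbl tKF x) (tbl tL x)) 2 0 3 5 5 (-1) (-1) :=
  (sideF hx hx').farA (Or.inr rfl) (Or.inr rfl) fun y y' F =>
    farA_cert (s1 := false) (s2 := false) rfl hκ covF52 covF50 hx hx'
        Pool.Agent.Strip051.G.I3_16_5_16.Tab.C.FA55.c_mm_203 noCut_A noExt_A F trivial trivial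

theorem FA55_mm_213 {κ x : ℝ} (hκ : κ * h0 = ken x) (hx : ((201326592 : ℕ) : ℝ) / S ≤ x) (hx' : x ≤ (((201326592 : ℕ) : ℝ) + (134217728 : ℕ)) / S) :
    TriA PP.cur (farS κ (h0 * x) (tbl tKF x) (tbl tL x)) 2 1 3 5 5 (-1) (-1) :=
  (sideF hx hx').farA (Or.inr rfl) (Or.inr rfl) fun y y' F =>
    farA_cert (s1 := false) (s2 := false) rfl hκ covF52 covF51 hx hx'
        Pool.Agent.Strip051.G.I3_16_5_16.Tab.C.FA55.c_mm_213 noCut_A noExt_A F trivial trivial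

theorem FA55_mm_303 {κ x : ℝ} (hκ : κ * h0 = ken x) (hx : ((201326592 : ℕ) : ℝ) / S ≤ x) (hx' : x ≤ (((201326592 : ℕ) : ℝ) + (134217728 : ℕ)) / S) :
    TriA PP.cur (farS κ (h0 * x) (tbl tKF x) (tbl tL x)) 3 0 3 5 5 (-1) (-1) :=
  (sideF hx hx').farA (Or.inr rfl) (Or.inr rfl) fun y y' F =>
    farA_cert (s1 := false) (s2 := false) rfl hκ covF53 covF50 hx hx'
        Pool.Agent.Strip051.G.I3_16_5_16.Tab.C.FA55.c_mm_303 noCut_A noExt_A F trivial trivial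

theorem FA55_mm_313 {κ x : ℝ} (hκ : κ * h0 = ken x) (hx : ((201326592 : ℕ) : ℝ) / S ≤ x) (hx' : x ≤ (((201326592 : ℕ) : ℝ) + (134217728 : ℕ)) / S) :
    TriA PP.cur (farS κ (h0 * x) (tbl tKF x) (tbl tL x)) 3 1 3 5 5 (-1) (-1) :=
  (sideF hx hx').farA (Or.inr rfl) (Or.inr rfl) fun y y' F =>
    farA_cert (s1 := false) (s2 := false) rfl hκ covF53 covF51 hx hx'
        Pool.Agent.Strip051.G.I3_16_5_16.Tab.C.FA55.c_mm_313 noCut_A noExt_A F trivial trivial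

theorem FA55 {κ x : ℝ} (hκ : κ * h0 = ken x) (hx : ((201326592 : ℕ) : ℝ) / S ≤ x) (hx' : x ≤ (((201326592 : ℕ) : ℝ) + (134217728 : ℕ)) / S) : AllTA PP.cur (farS κ (h0 * x) (tbl tKF x) (tbl tL x)) 5 5 where
  pp := all17 (Q := fun a b c => TriA PP.cur (farS κ (h0 * x) (tbl tKF x) (tbl tL x)) a b c 5 5 1 1)
    (FA55_pp_001 hκ hx hx') (FA55_pp_011 hκ hx hx') (FA55_pp_012 hκ hx hx') (FA55_pp_022 hκ hx hx') (FA55_pp_023 hκ hx hx') (FA55_pp_033 hκ hx hx') (FA55_pp_101 hκ hx hx') (FA55_pp_102 hκ hx hx') (FA55_pp_112 hκ hx hx') (FA55_pp_113 hκ hx hx') (FA55_pp_123 hκ hx hx') (FA55_pp_133 hκ hx hx') (FA55_pp_202 hκ hx hx') (FA55_pp_203 hκ hx hx') (FA55_pp_213 hκ hx hx') (FA55_pp_303 hκ hx hx') (FA55_pp_313 hκ hx hx')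
  pm := all17 (Q := fun a b c => TriA PP.cur (farS κ (h0 * x) (tbl tKF x) (tbl tL x)) a b c 5 5 1 (-1))
    (FA55_pm_001 hκ hx hx') (FA55_pm_011 hκ hx hx') (FA55_pm_012 hκ hx hx') (FA55_pm_022 hκ hx hx') (FA55_pm_023 hκ hx hx') (FA55_pm_033 hκ hx hx') (FA55_pm_101 hκ hx hx') (FA55_pm_102 hκ hx hx') (FA55_pm_112 hκ hx hx') (FA55_pm_113 hκ hx hx') (FA55_pm_123 hκ hx hx') (FA55_pm_133 hκ hx hx') (FA55_pm_202 hκ hx hx') (FA55_pm_203 hκ hx hx') (FA55_pm_213 hκ hx hx') (FA55_pm_303 hκ hx hx') (FA55_pm_313 hκ hx hx')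
  mm := all17 (Q := fun a b c => TriA PP.cur (farS κ (h0 * x) (tbl tKF x) (tbl tL x)) a b c 5 5 (-1) (-1))
    (FA55_mm_001 hκ hx hx') (FA55_mm_011 hκ hx hx') (FA55_mm_012 hκ hx hx') (FA55_mm_022 hκ hx hx') (FA55_mm_023 hκ hx hx') (FA55_mm_033 hκ hx hx') (FA55_mm_101 hκ hx hx') (FA55_mm_102 hκ hx hx') (FA55_mm_112 hκ hx hx') (FA55_mm_113 hκ hx hx') (FA55_mm_123 hκ hx hx') (FA55_mm_133 hκ hx hx') (FA55_mm_202 hκ hx hx') (FA55_mm_203 hκ hx hx') (FA55_mm_213 hκ hx hx') (FA55_mm_303 hκ hx hx') (FA55_mm_313 hκ hx hx')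

end Pool.Agent.Strip051.G.I3_16_5_16.Tab
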