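import Pool.Agent.Strip051.G.I3_16_5_16.Gn
import Pool.Agent.Strip051.PB.Corns

/-! # Certificates of the aligned corners (generated) -/

set_option linter.all false

namespace Pool.Agent.Strip051.G.I3_16_5_16.Tab.CF

open Pool.Agent.Strip051.PB

def B012R_022_1_2_1 :
    ∃ t, chk3 (onCell 0 67108864 0 1073741824 201326592 134217728 (corT true 1 c0F cB012R gF0q0 gF2q2 gF2q1 gF3q1 false true)) t 1 2 1 = true :=
  ⟨(T.a (T.c (T.b (T.c (T.b (T.c (T.b (T.l 204) (T.l 204)) (T.l 204)) (T.l 204)) (T.b (T.b (T.l 204) (T.l 204)) (T.l 204))) (T.b (T.l 0) (T.l 0))) (T.b (T.c (T.b (T.l 204) (T.l 204)) (T.l 460)) (T.l 0))) (T.a (T.c (T.b (T.c (T.b (T.b (T.c (T.b (T.l 460) (T.l 204)) (T.l 204)) (T.l 204)) (T.l 204)) (T.b (T.c (T.l 460) (T.l 204)) (T.l 204))) (T.l 256)) (T.b (T.b (T.c (T.l 460) (T.l 204)) (T.l 204)) (T.l 0))) (T.b (T.c (T.b (T.c (T.b (T.a (T.b (T.c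 (T.a (T.c (T.b (T.l 460) (T.l 204)) (T.l 460)) (T.c (T.b (T.l 204) (T.l 204)) (T.l 460))) (T.b (T.a (T.l 460) (T.l 204)) (T.l 460))) (T.c (T.l 460) (T.l 204))) (T.c (T.b (T.b (T.a (T.l 460) (T.l 460)) (T.l 204)) (T.l 204)) (T.b (T.a (T.l 460) (T.l 204)) (T.l 204)))) (T.a (T.b (T.l 204) (T.l 204)) (T.b (T.l 204) (T.l 204)))) (T.b (T.a (T.b (T.c (T.a (T.l 204) (T.l 204)) (T.a (T.l 204) (T.l 204))) (T.b (T.l 204) (T.l 204))) (T.b (T.c (T.b (T.l 204) (T.l 204)) (T.l 204)) (T.l 204))) (T.a (T.l 204) (T.l 204)))) (T.a (T.c (T.l 204) (T.l 204)) (T.c (T.b (T.l 204) (T.l 204)) (T.l 204)))) (T.b (T.b (T.a (T.c (T.b (T.a (T.l 204) (T.l 204)) (T.l 204)) (T.b (T.l 460) (T.l 204))) (T.c (T.c (T.l 460) (T.l 204)) (T.l 460))) (T.a (T.b (T.l 460) (T.l 204)) (T.b (T.l 204) (T.l 204)))) (T.a (T.l 204) (T.b (T.l 204) (T.l 204))))) (T.b (T.c (T.l 0) (T.l 0)) (T.c (T.b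 (T.l 0) (T.l 816)) (T.l 0)))))), by decide +kernel⟩

def B012R_022_1_3_1 :
    ∃ t, chk3 (onCell 0 67108864 0 1073741824 201326592 134217728 (corT true 1 c0F cB012R gF0q0 gF2q2 gF2q1 gF3q1 false true)) t 1 3 1 = true :=
  ⟨(T.b (T.a (T.c (T.b (T.l 816) (T.l 816)) (T.l 816)) (T.a (T.c (T.b (T.l 816) (T.c (T.l 880) (T.l 816))) (T.b (T.l 816) (T.b (T.l 816) (T.l 816)))) (T.c (T.b (T.b (T.l 816) (T.l 880)) (T.c (T.l 816) (T.l 816))) (T.b (T.l 816) (T.l 880))))) (T.a (T.b (T.c (T.b (T.l 816) (T.l 880)) (T.l 816)) (T.b (T.c (T.c (T.l 816) (T.l 816)) (T.l 816)) (T.a (T.c (T.c (T.l 816) (T.l 816)) (T.l 816)) (T.c (T.a (T.c (T.l 816) (T.l 816)) (T.c (T.l 816) (T.l 816))) (T.a (T.l 816) (T.l 816)))))) (T.a (T.c (T.b (T.c (T.b (T.l 816) (T.l 816)) (T.b (T.l 816) (T.l 816))) (T.c (T.a (T.l 816) (T.l 816)) (T.b (T.l 816) (T.l 816)))) (T.b (T.c (T.l 816) (T.l 816))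 (T.a (T.b (T.l 816) (T.l 816)) (T.b (T.l 816) (T.l 816))))) (T.c (T.b (T.c (T.l 880) (T.l 816)) (T.c (T.a (T.l 816) (T.l 816)) (T.b (T.l 816) (T.l 816)))) (T.b (T.b (T.l 816) (T.l 816)) (T.c (T.b (T.l 816) (T.l 816)) (T.l 816))))))), by decide +kernel⟩

theorem B012R_022 :
    ∃ t, chk3 (onCell 0 67108864 0 1073741824 201326592 134217728 (corT true 1 c0F cB012R gF0q0 gF2q2 gF2q1 gF3q1 false true)) t 1 1 1 = true :=
  ex3_b B012R_022_1_2_1 B012R_022_1_3_1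

def B012R_023 :
    ∃ t, chk3 (onCell 0 67108864 0 1073741824 201326592 134217728 (corT true 1 c0F cB012R gF0q0 gF2q2 gF3q1 gF4q1 true true)) t 1 1 1 = true :=
  ⟨(T.l 1), by decide +kernel⟩

def B012R_024 :
    ∃ t, chk3 (onCell 0 67108864 0 1073741824 201326592 134217728 (corT true 1 c0F cB012R gF0q0 gF2q2 gF4q1 gF5q1 true true)) t 1 1 1 = true :=
  ⟨(T.l 1), by decide +kernel⟩

def B012R_102 :
    ∃ t, chk3 (onCell 0 67108864 0 1073741824 201326592 134217728 (corT true 1 c0F cB012R gF1q0 gF0q2 gF2q1 gF3q1 false true)) t 1 1 1 = true :=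
  ⟨(T.b (T.b (T.l 2) (T.l 0)) (T.a (T.l 0) (T.b (T.a (T.l 0) (T.b (T.l 0) (T.l 0))) (T.a (T.b (T.l 0) (T.l 0)) (T.b (T.l 0) (T.l 0)))))), by decide +kernel⟩

def B012R_103 :
    ∃ t, chk3 (onCell 0 67108864 0 1073741824 201326592 134217728 (corT true 1 c0F cB012R gF1q0 gF0q2 gF3q1 gF4q1 true true)) t 1 1 1 = true :=
  ⟨(T.b (T.b (T.l 2) (T.l 0)) (T.a (T.l 0) (T.l 1))), by decide +kernel⟩

def B012R_104 :
    ∃ t, chk3 (onCell 0 67108864 0 1073741824 201326592 134217728 (corT true 1 c0F cB012R gF1q0 gF0q2 gF4q1 gF5q1 true true)) t 1 1 1 = true :=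
  ⟨(T.b (T.b (T.a (T.l 0) (T.a (T.l 0) (T.b (T.l 2) (T.l 0)))) (T.l 0)) (T.b (T.l 1) (T.l 1))), by decide +kernel⟩

def B012R_112 :
    ∃ t, chk3 (onCell 0 67108864 0 1073741824 201326592 134217728 (corT true 1 c0F cB012R gF1q0 gF1q2 gF2q1 gF3q1 false true)) t 1 1 1 = true :=
  ⟨(T.b (T.l 2) (T.b (T.a (T.l 2) (T.l 2)) (T.a (T.b (T.l 816) (T.a (T.l 816) (T.l 816))) (T.a (T.l 816) (T.l 816))))), by decide +kernel⟩

def B012R_113 :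
    ∃ t, chk3 (onCell 0 67108864 0 1073741824 201326592 134217728 (corT true 1 c0F cB012R gF1q0 gF1q2 gF3q1 gF4q1 true true)) t 1 1 1 = true :=
  ⟨(T.b (T.l 2) (T.b (T.a (T.l 2) (T.b (T.l 2) (T.l 0))) (T.a (T.b (T.l 816) (T.a (T.l 816) (T.l 816))) (T.a (T.l 816) (T.l 816))))), by decide +kernel⟩

def B012R_114 :
    ∃ t, chk3 (onCell 0 67108864 0 1073741824 201326592 134217728 (corT true 1 c0F cB012R gF1q0 gF1q2 gF4q1 gF5q1 true true)) t 1 1 1 = true :=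
  ⟨(T.b (T.b (T.l 2) (T.l 2)) (T.b (T.a (T.l 816) (T.b (T.l 0) (T.l 0))) (T.a (T.b (T.l 816) (T.a (T.l 816) (T.l 816))) (T.a (T.l 816) (T.l 816))))), by decide +kernel⟩

def B012R_122 :
    ∃ t, chk3 (onCell 0 67108864 0 1073741824 201326592 134217728 (corT true 1 c0F cB012R gF1q0 gF2q2 gF2q1 gF3q1 false true)) t 1 1 1 = true :=
  ⟨(T.l 2), by decide +kernel⟩

def B012R_123 :
    ∃ t, chk3 (onCell 0 67108864 0 1073741824 201326592 134217728 (corT true 1 c0F cB012R gF1q0 gF2q2 gF3q1 gF4q1 true true)) t 1 1 1 = true :=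
  ⟨(T.l 2), by decide +kernel⟩

def B012R_124 :
    ∃ t, chk3 (onCell 0 67108864 0 1073741824 201326592 134217728 (corT true 1 c0F cB012R gF1q0 gF2q2 gF4q1 gF5q1 true true)) t 1 1 1 = true :=
  ⟨(T.l 2), by decide +kernel⟩

def B012R_202 :
    ∃ t, chk3 (onCell 0 67108864 0 1073741824 201326592 134217728 (corT true 1 c0F cB012R gF2q0 gF0q2 gF2q1 gF3q1 false true)) t 1 1 1 = true :=
  ⟨(T.b (T.l 2) (T.a (T.l 0) (T.b (T.a (T.l 816) (T.l 0)) (T.a (T.l 0) (T.b (T.l 0) (T.l 0)))))), by decide +kernel⟩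

def B012R_203 :
    ∃ t, chk3 (onCell 0 67108864 0 1073741824 201326592 134217728 (corT true 1 c0F cB012R gF2q0 gF0q2 gF3q1 gF4q1 true true)) t 1 1 1 = true :=
  ⟨(T.b (T.l 2) (T.b (T.a (T.l 2) (T.a (T.l 816) (T.l 0))) (T.a (T.l 0) (T.a (T.l 0) (T.b (T.l 0) (T.l 1)))))), by decide +kernel⟩

def B012R_204 :
    ∃ t, chk3 (onCell 0 67108864 0 1073741824 201326592 134217728 (corT true 1 c0F cB012R gF2q0 gF0q2 gF4q1 gF5q1 true true)) t 1 1 1 = true :=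
  ⟨(T.b (T.l 2) (T.b (T.a (T.l 0) (T.a (T.l 0) (T.l 0))) (T.a (T.l 0) (T.a (T.l 0) (T.l 1))))), by decide +kernel⟩

def B012R_212 :
    ∃ t, chk3 (onCell 0 67108864 0 1073741824 201326592 134217728 (corT true 1 c0F cB012R gF2q0 gF1q2 gF2q1 gF3q1 false true)) t 1 1 1 = true :=
  ⟨(T.l 2), by decide +kernel⟩

def B012R_213 :
    ∃ t, chk3 (onCell 0 67108864 0 1073741824 201326592 134217728 (corT true 1 c0F cB012R gF2q0 gF1q2 gF3q1 gF4q1 true true)) t 1 1 1 = true :=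
  ⟨(T.l 2), by decide +kernel⟩

def B012R_214 :
    ∃ t, chk3 (onCell 0 67108864 0 1073741824 201326592 134217728 (corT true 1 c0F cB012R gF2q0 gF1q2 gF4q1 gF5q1 true true)) t 1 1 1 = true :=
  ⟨(T.l 2), by decide +kernel⟩

def B012R_222 :
    ∃ t, chk3 (onCell 0 67108864 0 1073741824 201326592 134217728 (corT true 1 c0F cB012R gF2q0 gF2q2 gF2q1 gF3q1 false true)) t 1 1 1 = true :=
  ⟨(T.l 2), by decide +kernel⟩

def B012R_223 :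
    ∃ t, chk3 (onCell 0 67108864 0 1073741824 201326592 134217728 (corT true 1 c0F cB012R gF2q0 gF2q2 gF3q1 gF4q1 true true)) t 1 1 1 = true :=
  ⟨(T.l 2), by decide +kernel⟩

def B012R_224 :
    ∃ t, chk3 (onCell 0 67108864 0 1073741824 201326592 134217728 (corT true 1 c0F cB012R gF2q0 gF2q2 gF4q1 gF5q1 true true)) t 1 1 1 = true :=
  ⟨(T.l 2), by decide +kernel⟩

def B022E_000 :
    ∃ t, chk3 (onCell 0 67108864 0 1073741824 201326592 134217728 (corT true 1 c0F cB022E gF0q0 gF0q2 gF0q2 gF1q2 true true)) t 1 1 1 = true :=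
  ⟨(T.l 2), by decide +kernel⟩

def B022E_001 :
    ∃ t, chk3 (onCell 0 67108864 0 1073741824 201326592 134217728 (corT true 1 c0F cB022E gF0q0 gF0q2 gF1q2 gF2q2 true true)) t 1 1 1 = true :=
  ⟨(T.l 2), by decide +kernel⟩

def B022E_002 :
    ∃ t, chk3 (onCell 0 67108864 0 1073741824 201326592 134217728 (corT true 1 c0F cB022E gF0q0 gF0q2 gF2q2 gF3q2 true false)) t 1 1 1 = true :=
  ⟨(T.a (T.b (T.a (T.c (T.c (T.b (T.c (T.l 204) (T.l 204)) (T.l 204)) (T.b (T.b (T.l 204) (T.l 204)) (T.l 204))) (T.b (T.c (T.l 204) (T.l 204)) (T.l 204))) (T.b (T.a (T.c (T.c (T.l 204) (T.l 204)) (T.l 204)) (T.c (T.c (T.b (T.l 204) (T.l 204)) (T.l 220)) (T.b (T.l 204) (T.l 204)))) (T.c (T.l 204) (T.l 204)))) (T.c (T.b (T.b (T.l 204) (T.l 0)) (T.b (T.b (T.l 0) (T.l 0)) (T.c (T.b (T.l 816) (T.l 816)) (T.b (T.l 816) (T.l 816))))) (T.b (T.l 0) (T.b (T.l 0) (T.b (T.l 0) (T.a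 (T.l 816) (T.l 816))))))) (T.b (T.a (T.b (T.c (T.a (T.c (T.b (T.l 204) (T.l 204)) (T.l 204)) (T.b (T.l 204) (T.l 204))) (T.a (T.b (T.l 204) (T.l 204)) (T.l 460))) (T.a (T.c (T.l 204) (T.l 204)) (T.c (T.b (T.l 204) (T.l 204)) (T.b (T.l 204) (T.l 204))))) (T.b (T.c (T.a (T.b (T.l 204) (T.l 204)) (T.b (T.l 204) (T.l 204))) (T.a (T.l 204) (T.l 460))) (T.c (T.a (T.b (T.l 204) (T.l 204)) (T.b (T.l 204) (T.l 204))) (T.a (T.b (T.l 204) (T.l 204)) (T.b (T.l 204) (T.l 204)))))) (T.b (T.a (T.c (T.a (T.l 0) (T.l 0)) (T.a (T.l 0) (T.l 0))) (T.a (T.c (T.l 0) (T.l 0)) (T.c (T.b (T.l 204) (T.l 0)) (T.b (T.l 204) (T.l 0))))) (T.a (T.c (T.a (T.b (T.l 64) (T.c (T.l 0) (T.l 0))) (T.b (T.l 0) (T.c (T.l 0) (T.l 0)))) (T.a (T.b (T.l 0) (T.c (T.l 0) (T.l 0))) (T.b (T.l 0) (T.c (T.l 0) (T.l 0))))) (T.c (T.a (T.b (T.l 0) (T.c (T.l 816) (T.l 816))) (T.c (T.b (T.l 0) (T.l 816))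 (T.b (T.l 0) (T.l 816)))) (T.a (T.b (T.l 0) (T.c (T.l 0) (T.l 0))) (T.b (T.l 0) (T.c (T.l 816) (T.l 64))))))))), by decide +kernel⟩

def B022E_010 :
    ∃ t, chk3 (onCell 0 67108864 0 1073741824 201326592 134217728 (corT true 1 c0F cB022E gF0q0 gF1q2 gF0q2 gF1q2 true true)) t 1 1 1 = true :=
  ⟨(T.l 2), by decide +kernel⟩

def B022E_011 :
    ∃ t, chk3 (onCell 0 67108864 0 1073741824 201326592 134217728 (corT true 1 c0F cB022E gF0q0 gF1q2 gF1q2 gF2q2 true true)) t 1 1 1 = true :=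
  ⟨(T.l 2), by decide +kernel⟩

def B022E_012 :
    ∃ t, chk3 (onCell 0 67108864 0 1073741824 201326592 134217728 (corT true 1 c0F cB022E gF0q0 gF1q2 gF2q2 gF3q2 true false)) t 1 1 1 = true :=
  ⟨(T.b (T.a (T.a (T.c (T.c (T.b (T.b (T.c (T.b (T.l 204) (T.l 204)) (T.l 204)) (T.l 204)) (T.l 204)) (T.b (T.b (T.c (T.l 204) (T.l 204)) (T.l 204)) (T.l 204))) (T.b (T.c (T.c (T.l 204) (T.l 204)) (T.b (T.l 204) (T.l 204))) (T.l 204))) (T.a (T.c (T.c (T.b (T.l 204) (T.l 204)) (T.l 204)) (T.c (T.l 204) (T.l 204))) (T.b (T.c (T.a (T.c (T.l 204) (T.l 204)) (T.c (T.b (T.l 204) (T.l 204)) (T.l 220))) (T.a (T.l 204) (T.b (T.l 204) (T.l 204)))) (T.c (T.c (T.l 204) (T.l 204)) (T.l 204))))) (T.b (T.a (T.c (T.a (T.c (T.b (T.b (T.l 204) (T.l 204)) (T.l 204)) (T.b (T.l 204) (T.l 204))) (T.c (T.b (T.l 204) (T.l 204)) (T.b (T.l 204) (T.l 204)))) (T.a (T.b (T.c (T.l 204) (T.l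 204)) (T.l 204)) (T.b (T.l 220) (T.l 204)))) (T.c (T.b (T.c (T.a (T.l 204) (T.l 204)) (T.b (T.l 204) (T.l 204))) (T.c (T.b (T.l 204) (T.l 204)) (T.l 204))) (T.b (T.a (T.l 204) (T.l 204)) (T.b (T.l 204) (T.l 204))))) (T.a (T.a (T.c (T.l 220) (T.l 204)) (T.c (T.b (T.b (T.l 204) (T.l 204)) (T.l 204)) (T.b (T.l 204) (T.l 204)))) (T.c (T.b (T.c (T.l 204) (T.l 204)) (T.b (T.l 220) (T.l 0))) (T.b (T.l 204) (T.l 0)))))) (T.a (T.a (T.c (T.c (T.b (T.l 0) (T.l 816)) (T.l 0)) (T.b (T.l 0) (T.l 816))) (T.c (T.a (T.c (T.l 0) (T.l 0)) (T.b (T.l 0) (T.c (T.l 0) (T.l 0)))) (T.a (T.b (T.l 0) (T.l 816)) (T.c (T.l 0) (T.l 0))))) (T.b (T.a (T.c (T.l 16) (T.l 0)) (T.b (T.c (T.b (T.l 0) (T.l 0)) (T.l 0)) (T.c (T.l 0) (T.l 0)))) (T.c (T.a (T.b (T.l 0) (T.c (T.l 816) (T.l 816))) (T.c (T.l 880) (T.l 816))) (T.a (T.c (T.l 64) (T.l 0)) (T.c (T.l 816) (T.l 816))))))), by decide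 +kernel⟩

def B022E_020 :
    ∃ t, chk3 (onCell 0 67108864 0 1073741824 201326592 134217728 (corT true 1 c0F cB022E gF0q0 gF2q2 gF0q2 gF1q2 true true)) t 1 1 1 = true :=
  ⟨(T.l 2), by decide +kernel⟩

def B022E_021 :
    ∃ t, chk3 (onCell 0 67108864 0 1073741824 201326592 134217728 (corT true 1 c0F cB022E gF0q0 gF2q2 gF1q2 gF2q2 true true)) t 1 1 1 = true :=
  ⟨(T.l 2), by decide +kernel⟩

def B022E_022_1_2_1 :
    ∃ t, chk3 (onCell 0 67108864 0 1073741824 201326592 134217728 (corT true 1 c0F cB022E gF0q0 gF2q2 gF2q2 gF3q2 true false)) t 1 2 1 = true :=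
  ⟨(T.b (T.a (T.a (T.c (T.c (T.l 204) (T.l 204)) (T.b (T.l 204) (T.l 204))) (T.a (T.c (T.c (T.l 204) (T.l 204)) (T.l 204)) (T.c (T.b (T.c (T.b (T.l 204) (T.l 204)) (T.l 220)) (T.c (T.l 204) (T.l 204))) (T.b (T.c (T.l 204) (T.l 204)) (T.l 204))))) (T.a (T.c (T.a (T.c (T.b (T.b (T.l 204) (T.l 204)) (T.l 204)) (T.b (T.b (T.l 204) (T.l 204)) (T.l 204))) (T.c (T.b (T.b (T.l 204) (T.l 204)) (T.l 204)) (T.b (T.l 204) (T.l 204)))) (T.a (T.b (T.c (T.l 204) (T.l 204)) (T.l 220)) (T.b (T.c (T.l 204) (T.l 204)) (T.l 220)))) (T.c (T.b (T.c (T.a (T.b (T.l 204) (T.l 204)) (T.b (T.l 204) (T.l 204))) (T.a (T.l 204) (T.l 220))) (T.c (T.b (T.l 204) (T.l 204)) (T.b (T.l 204) (T.l 204)))) (T.b (T.a (T.c (T.l 204) (T.l 204)) (T.c (T.l 204) (T.l 204))) (T.c (T.l 220) (T.l 204)))))) (T.a (T.a (T.c (T.b (T.l 204) (T.l 204)) (T.l 204)) (T.c (T.a (T.l 204) (T.l 220)) (T.c (T.l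 0) (T.l 0)))) (T.a (T.b (T.c (T.a (T.l 204) (T.b (T.l 204) (T.l 204))) (T.a (T.l 204) (T.l 204))) (T.c (T.l 204) (T.l 204))) (T.c (T.b (T.c (T.l 220) (T.l 204)) (T.c (T.l 0) (T.l 0))) (T.b (T.b (T.l 204) (T.l 204)) (T.l 0)))))), by decide +kernel⟩

def B022E_022_1_3_1 :
    ∃ t, chk3 (onCell 0 67108864 0 1073741824 201326592 134217728 (corT true 1 c0F cB022E gF0q0 gF2q2 gF2q2 gF3q2 true false)) t 1 3 1 = true :=
  ⟨(T.b (T.b (T.a (T.a (T.c (T.l 0) (T.l 0)) (T.c (T.c (T.l 0) (T.l 0)) (T.l 0))) (T.a (T.c (T.l 0) (T.l 0)) (T.c (T.b (T.l 0) (T.l 0)) (T.l 0)))) (T.a (T.a (T.c (T.l 816) (T.l 816)) (T.c (T.c (T.l 0) (T.l 0)) (T.l 0))) (T.c (T.a (T.l 0) (T.l 816)) (T.a (T.l 0) (T.l 816))))) (T.a (T.a (T.c (T.c (T.b (T.l 816) (T.l 816)) (T.l 816)) (T.c (T.l 816) (T.l 816))) (T.c (T.a (T.b (T.l 816) (T.c (T.l 816) (T.l 816))) (T.b (T.l 816) (T.c (T.c (T.l 816)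 (T.l 816)) (T.c (T.l 816) (T.l 816))))) (T.a (T.c (T.l 816) (T.l 816)) (T.b (T.l 816) (T.c (T.b (T.l 816) (T.l 816)) (T.l 816)))))) (T.c (T.a (T.c (T.b (T.l 816) (T.b (T.l 816) (T.a (T.c (T.l 816) (T.l 816)) (T.l 816)))) (T.b (T.l 816) (T.a (T.b (T.l 816) (T.l 816)) (T.l 816)))) (T.c (T.b (T.l 816) (T.c (T.l 880) (T.l 816))) (T.b (T.l 816) (T.b (T.l 816) (T.l 880))))) (T.a (T.b (T.l 816) (T.b (T.l 816) (T.c (T.a (T.l 816) (T.l 816)) (T.a (T.l 816) (T.l 816))))) (T.b (T.l 816) (T.c (T.l 816) (T.l 816))))))), by decide +kernel⟩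

theorem B022E_022 :
    ∃ t, chk3 (onCell 0 67108864 0 1073741824 201326592 134217728 (corT true 1 c0F cB022E gF0q0 gF2q2 gF2q2 gF3q2 true false)) t 1 1 1 = true :=
  ex3_b B022E_022_1_2_1 B022E_022_1_3_1

def B022E_100 :
    ∃ t, chk3 (onCell 0 67108864 0 1073741824 201326592 134217728 (corT true 1 c0F cB022E gF1q0 gF0q2 gF0q2 gF1q2 true true)) t 1 1 1 = true :=
  ⟨(T.l 2), by decide +kernel⟩

def B022E_101 :
    ∃ t, chk3 (onCell 0 67108864 0 1073741824 201326592 134217728 (corT true 1 c0F cB022E gF1q0 gF0q2 gF1q2 gF2q2 true true)) t 1 1 1 = true :=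
  ⟨(T.l 2), by decide +kernel⟩

def B022E_102 :
    ∃ t, chk3 (onCell 0 67108864 0 1073741824 201326592 134217728 (corT true 1 c0F cB022E gF1q0 gF0q2 gF2q2 gF3q2 true false)) t 1 1 1 = true :=
  ⟨(T.b (T.a (T.a (T.c (T.b (T.b (T.c (T.b (T.l 204) (T.l 204)) (T.l 204)) (T.l 204)) (T.l 204)) (T.b (T.c (T.l 204) (T.l 204)) (T.l 204))) (T.b (T.b (T.c (T.a (T.b (T.l 220) (T.l 204)) (T.c (T.l 204) (T.l 204))) (T.a (T.l 204) (T.l 204))) (T.c (T.l 204) (T.l 204))) (T.l 204))) (T.a (T.b (T.c (T.b (T.a (T.c (T.l 204) (T.l 204)) (T.l 220)) (T.l 220)) (T.a (T.b (T.l 204) (T.l 204)) (T.l 204))) (T.c (T.l 0) (T.l 0))) (T.b (T.c (T.b (T.a (T.l 204) (T.l 204)) (T.l 204)) (T.a (T.l 204) (T.l 204))) (T.b (T.l 460) (T.l 0))))) (T.a (T.l 0) (T.b (T.a (T.l 0) (T.b (T.l 0) (T.l 0))) (T.c (T.l 0) (T.l 0))))), by decide +kernel⟩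

def B022E_110 :
    ∃ t, chk3 (onCell 0 67108864 0 1073741824 201326592 134217728 (corT true 1 c0F cB022E gF1q0 gF1q2 gF0q2 gF1q2 true true)) t 1 1 1 = true :=
  ⟨(T.l 2), by decide +kernel⟩

def B022E_111 :
    ∃ t, chk3 (onCell 0 67108864 0 1073741824 201326592 134217728 (corT true 1 c0F cB022E gF1q0 gF1q2 gF1q2 gF2q2 true true)) t 1 1 1 = true :=
  ⟨(T.l 2), by decide +kernel⟩

def B022E_112 :
    ∃ t, chk3 (onCell 0 67108864 0 1073741824 201326592 134217728 (corT true 1 c0F cB022E gF1q0 gF1q2 gF2q2 gF3q2 true false)) t 1 1 1 = true :=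
  ⟨(T.b (T.b (T.a (T.a (T.c (T.b (T.b (T.c (T.c (T.l 204) (T.l 204)) (T.c (T.l 204) (T.l 204))) (T.l 204)) (T.l 204)) (T.b (T.c (T.b (T.l 204) (T.l 204)) (T.l 204)) (T.l 204))) (T.a (T.c (T.c (T.l 204) (T.l 204)) (T.b (T.l 204) (T.l 204))) (T.c (T.b (T.b (T.c (T.c (T.l 204) (T.l 204)) (T.l 204)) (T.l 204)) (T.l 204)) (T.a (T.l 204) (T.b (T.l 220) (T.l 204)))))) (T.a (T.c (T.b (T.a (T.c (T.b (T.l 204) (T.l 204)) (T.l 204)) (T.c (T.l 204) (T.l 204))) (T.l 204)) (T.b (T.b (T.a (T.b (T.l 204) (T.l 204)) (T.l 204)) (T.l 204)) (T.l 204))) (T.c (T.b (T.b (T.c (T.a (T.l 204) (T.l 204)) (T.l 204)) (T.l 204)) (T.l 204)) (T.b (T.a (T.l 204) (T.l 204)) (T.l 204))))) (T.a (T.a (T.l 204) (T.c (T.l 0) (T.l 0))) (T.a (T.c (T.l 0) (T.l 0)) (T.b (T.l 0) (T.l 0))))) (T.b (T.a (T.a (T.l 204) (T.l 0)) (T.a (T.l 0) (T.l 0))) (T.a (T.a (T.l 0) (T.l 0)) (T.l 0)))), by decide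 +kernel⟩

def B022E_120 :
    ∃ t, chk3 (onCell 0 67108864 0 1073741824 201326592 134217728 (corT true 1 c0F cB022E gF1q0 gF2q2 gF0q2 gF1q2 true true)) t 1 1 1 = true :=
  ⟨(T.l 2), by decide +kernel⟩

def B022E_121 :
    ∃ t, chk3 (onCell 0 67108864 0 1073741824 201326592 134217728 (corT true 1 c0F cB022E gF1q0 gF2q2 gF1q2 gF2q2 true true)) t 1 1 1 = true :=
  ⟨(T.l 2), by decide +kernel⟩

def B022E_122 :
    ∃ t, chk3 (onCell 0 67108864 0 1073741824 201326592 134217728 (corT true 1 c0F cB022E gF1q0 gF2q2 gF2q2 gF3q2 true false)) t 1 1 1 = true :=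
  ⟨(T.b (T.b (T.a (T.a (T.c (T.c (T.b (T.l 204) (T.l 204)) (T.l 204)) (T.b (T.l 204) (T.l 204))) (T.a (T.c (T.c (T.l 204) (T.l 204)) (T.l 204)) (T.c (T.b (T.b (T.c (T.l 204) (T.l 204)) (T.l 204)) (T.l 204)) (T.b (T.c (T.l 204) (T.l 204)) (T.l 204))))) (T.a (T.c (T.b (T.b (T.c (T.a (T.l 204) (T.l 204)) (T.a (T.l 204) (T.l 204))) (T.c (T.l 204) (T.l 204))) (T.l 204)) (T.b (T.b (T.a (T.c (T.l 204) (T.l 204)) (T.c (T.l 204) (T.l 204))) (T.l 204)) (T.l 204))) (T.c (T.b (T.b (T.c (T.a (T.l 204) (T.l 204)) (T.a (T.l 204) (T.l 204))) (T.l 204)) (T.l 204)) (T.b (T.b (T.b (T.c (T.a (T.l 204) (T.l 204)) (T.l 204)) (T.l 204)) (T.l 204)) (T.l 204))))) (T.a (T.a (T.l 204) (T.l 16)) (T.a (T.c (T.l 0) (T.l 0)) (T.b (T.l 204) (T.l 0))))) (T.b (T.a (T.a (T.l 0) (T.l 0)) (T.a (T.l 0) (T.l 0))) (T.a (T.a (T.l 816) (T.l 0)) (T.l 0)))), by decide +kernel⟩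

def B022E_200 :
    ∃ t, chk3 (onCell 0 67108864 0 1073741824 201326592 134217728 (corT true 1 c0F cB022E gF2q0 gF0q2 gF0q2 gF1q2 true true)) t 1 1 1 = true :=
  ⟨(T.l 2), by decide +kernel⟩

def B022E_201 :
    ∃ t, chk3 (onCell 0 67108864 0 1073741824 201326592 134217728 (corT true 1 c0F cB022E gF2q0 gF0q2 gF1q2 gF2q2 true true)) t 1 1 1 = true :=
  ⟨(T.l 2), by decide +kernel⟩

def B022E_202 :
    ∃ t, chk3 (onCell 0 67108864 0 1073741824 201326592 134217728 (corT true 1 c0F cB022E gF2q0 gF0q2 gF2q2 gF3q2 true false)) t 1 1 1 = true :=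
  ⟨(T.b (T.a (T.a (T.b (T.c (T.b (T.c (T.b (T.l 204) (T.l 204)) (T.l 204)) (T.l 204)) (T.c (T.b (T.l 204) (T.l 204)) (T.l 204))) (T.l 204)) (T.b (T.b (T.c (T.a (T.b (T.l 204) (T.l 204)) (T.c (T.l 204) (T.l 204))) (T.a (T.l 204) (T.l 204))) (T.l 204)) (T.l 204))) (T.a (T.b (T.c (T.b (T.a (T.c (T.l 204) (T.l 204)) (T.l 204)) (T.l 204)) (T.a (T.b (T.l 204) (T.l 204)) (T.l 204))) (T.b (T.l 204) (T.l 204))) (T.b (T.c (T.b (T.a (T.l 204) (T.l 204)) (T.l 204)) (T.a (T.l 204) (T.l 460))) (T.b (T.l 204) (T.l 204))))) (T.a (T.l 204) (T.b (T.a (T.l 204) (T.l 0)) (T.l 0)))), by decide +kernel⟩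

def B022E_210 :
    ∃ t, chk3 (onCell 0 67108864 0 1073741824 201326592 134217728 (corT true 1 c0F cB022E gF2q0 gF1q2 gF0q2 gF1q2 true true)) t 1 1 1 = true :=
  ⟨(T.l 2), by decide +kernel⟩

def B022E_211 :
    ∃ t, chk3 (onCell 0 67108864 0 1073741824 201326592 134217728 (corT true 1 c0F cB022E gF2q0 gF1q2 gF1q2 gF2q2 true true)) t 1 1 1 = true :=
  ⟨(T.l 2), by decide +kernel⟩

def B022E_212 :
    ∃ t, chk3 (onCell 0 67108864 0 1073741824 201326592 134217728 (corT true 1 c0F cB022E gF2q0 gF1q2 gF2q2 gF3q2 true false)) t 1 1 1 = true :=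
  ⟨(T.b (T.b (T.a (T.a (T.c (T.b (T.b (T.b (T.c (T.c (T.l 204) (T.l 204)) (T.c (T.l 204) (T.l 204))) (T.l 204)) (T.l 204)) (T.l 204)) (T.b (T.c (T.b (T.l 204) (T.l 204)) (T.l 204)) (T.l 204))) (T.a (T.c (T.c (T.l 204) (T.l 204)) (T.b (T.l 204) (T.l 204))) (T.b (T.c (T.b (T.c (T.c (T.l 204) (T.l 204)) (T.l 204)) (T.l 204)) (T.a (T.l 204) (T.l 204))) (T.l 204)))) (T.a (T.b (T.c (T.b (T.c (T.a (T.l 204) (T.l 204)) (T.a (T.l 204) (T.l 204))) (T.l 204)) (T.b (T.a (T.b (T.l 204) (T.l 204)) (T.l 204)) (T.l 204))) (T.c (T.l 204) (T.l 204))) (T.b (T.c (T.b (T.c (T.a (T.l 204) (T.l 204)) (T.l 204)) (T.l 204)) (T.a (T.l 204) (T.l 204))) (T.l 220)))) (T.a (T.a (T.l 204) (T.l 204)) (T.a (T.b (T.l 204) (T.l 204)) (T.l 0)))) (T.b (T.a (T.a (T.l 204) (T.l 204)) (T.b (T.l 0) (T.l 0))) (T.a (T.a (T.l 204) (T.l 204)) (T.l 0)))), by decide +kernel⟩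

def B022E_220 :
    ∃ t, chk3 (onCell 0 67108864 0 1073741824 201326592 134217728 (corT true 1 c0F cB022E gF2q0 gF2q2 gF0q2 gF1q2 true true)) t 1 1 1 = true :=
  ⟨(T.l 2), by decide +kernel⟩

def B022E_221 :
    ∃ t, chk3 (onCell 0 67108864 0 1073741824 201326592 134217728 (corT true 1 c0F cB022E gF2q0 gF2q2 gF1q2 gF2q2 true true)) t 1 1 1 = true :=
  ⟨(T.l 2), by decide +kernel⟩

def B022E_222 :
    ∃ t, chk3 (onCell 0 67108864 0 1073741824 201326592 134217728 (corT true 1 c0F cB022E gF2q0 gF2q2 gF2q2 gF3q2 true false)) t 1 1 1 = true :=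
  ⟨(T.b (T.b (T.a (T.a (T.c (T.c (T.b (T.l 204) (T.l 204)) (T.l 204)) (T.b (T.l 220) (T.l 204))) (T.b (T.a (T.c (T.c (T.l 204) (T.l 204)) (T.l 204)) (T.c (T.b (T.c (T.l 204) (T.l 204)) (T.l 204)) (T.c (T.l 204) (T.l 204)))) (T.b (T.l 204) (T.l 204)))) (T.a (T.b (T.c (T.b (T.c (T.a (T.l 204) (T.l 204)) (T.a (T.l 204) (T.l 204))) (T.l 204)) (T.b (T.b (T.a (T.c (T.l 204) (T.l 204)) (T.c (T.l 204) (T.l 204))) (T.l 204)) (T.l 204))) (T.b (T.l 204) (T.l 204))) (T.b (T.c (T.b (T.b (T.c (T.a (T.l 204) (T.l 204)) (T.a (T.l 204) (T.l 204))) (T.l 204)) (T.l 204)) (T.b (T.b (T.c (T.a (T.l 204) (T.l 204)) (T.l 204)) (T.l 204)) (T.l 204))) (T.l 204)))) (T.a (T.a (T.l 204) (T.l 204)) (T.a (T.l 0) (T.l 204)))) (T.b (T.a (T.a (T.l 204) (T.l 204)) (T.b (T.l 0) (T.l 204))) (T.a (T.a (T.l 204) (T.l 204)) (T.l 0)))), by decide +kernel⟩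

def B022L_050 :
    ∃ t, chk3 (onCell 0 67108864 0 1073741824 201326592 134217728 (corX 1 c0F cB022L tB022L gF0q0 gF5q2 gF0q2 gF1q2 gF0q2 true true)) t 1 1 1 = true :=
  ⟨(T.b (T.b (T.l 2) (T.b (T.b (T.l 2) (T.b (T.a (T.c (T.l 207) (T.l 207)) (T.l 2)) (T.a (T.c (T.l 207) (T.l 207)) (T.b (T.a (T.c (T.l 207) (T.l 207)) (T.l 2)) (T.a (T.c (T.l 207) (T.l 207)) (T.b (T.a (T.c (T.l 207) (T.l 207)) (T.c (T.l 204) (T.l 204))) (T.c (T.a (T.l 207) (T.l 204)) (T.c (T.l 0) (T.l 0))))))))) (T.a (T.c (T.b (T.l 207) (T.l 207)) (T.l 207)) (T.a (T.c (T.l 207) (T.l 207)) (T.b (T.b (T.b (T.c (T.a (T.l 207) (T.l 204)) (T.c (T.l 256) (T.l 0))) (T.c (T.l 207) (T.l 207))) (T.c (T.l 207) (T.l 207))) (T.c (T.b (T.l 207) (T.l 207)) (T.l 3))))))) (T.b (T.b (T.b (T.a (T.c (T.l 207) (T.l 207)) (T.a (T.c (T.l 207) (T.l 207)) (T.c (T.b (T.l 207) (T.l 207)) (T.l 3)))) (T.c (T.a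 (T.l 207) (T.l 207)) (T.a (T.l 207) (T.l 207)))) (T.b (T.c (T.a (T.l 207) (T.l 207)) (T.a (T.l 207) (T.l 207))) (T.l 1))) (T.l 1))), by decide +kernel⟩

def B022L_051 :
    ∃ t, chk3 (onCell 0 67108864 0 1073741824 201326592 134217728 (corT true 1 c0F cB022L gF0q0 gF5q2 gF1q2 gF2q2 true true)) t 1 1 1 = true :=
  ⟨(T.b (T.b (T.b (T.b (T.a (T.a (T.c (T.l 204) (T.l 204)) (T.a (T.c (T.l 204) (T.l 204)) (T.c (T.l 204) (T.l 204)))) (T.a (T.c (T.c (T.l 0) (T.l 0)) (T.b (T.l 204) (T.l 204))) (T.c (T.b (T.l 204) (T.l 204)) (T.l 204)))) (T.a (T.c (T.l 204) (T.l 204)) (T.a (T.c (T.c (T.l 0) (T.l 0)) (T.b (T.l 204) (T.l 204))) (T.c (T.l 460) (T.l 204))))) (T.a (T.c (T.l 204) (T.l 204)) (T.a (T.c (T.a (T.b (T.l 204) (T.l 204)) (T.b (T.l 204) (T.l 204))) (T.a (T.l 0) (T.l 204))) (T.c (T.b (T.l 460) (T.b (T.l 204) (T.l 204))) (T.b (T.l 204) (T.l 204)))))) (T.b (T.a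 (T.c (T.l 204) (T.l 204)) (T.b (T.a (T.c (T.a (T.l 204) (T.l 204)) (T.b (T.l 0) (T.l 0))) (T.c (T.b (T.l 204) (T.l 204)) (T.l 204))) (T.b (T.a (T.c (T.c (T.l 0) (T.l 0)) (T.l 0)) (T.c (T.l 204) (T.l 204))) (T.b (T.a (T.c (T.l 204) (T.l 204)) (T.c (T.l 204) (T.l 204))) (T.a (T.c (T.l 204) (T.l 204)) (T.c (T.l 204) (T.l 204))))))) (T.l 1))) (T.l 1)), by decide +kernel⟩

def B022L_052 :
    ∃ t, chk3 (onCell 0 67108864 0 1073741824 201326592 134217728 (corT true 1 c0F cB022L gF0q0 gF5q2 gF2q2 gF3q2 true false)) t 1 1 1 = true :=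
  ⟨(T.l 1), by decide +kernel⟩

def B022L_150 :
    ∃ t, chk3 (onCell 0 67108864 0 1073741824 201326592 134217728 (corT true 1 c0F cB022L gF1q0 gF5q2 gF0q2 gF1q2 true true)) t 1 1 1 = true :=
  ⟨(T.b (T.b (T.b (T.l 2) (T.a (T.c (T.l 204) (T.l 204)) (T.b (T.a (T.a (T.l 204) (T.l 2)) (T.l 2)) (T.a (T.l 0) (T.c (T.l 256) (T.l 0)))))) (T.a (T.l 0) (T.b (T.a (T.b (T.l 0) (T.l 0)) (T.b (T.c (T.l 0) (T.l 0)) (T.l 272))) (T.a (T.l 204) (T.b (T.l 0) (T.l 204)))))) (T.l 1)), by decide +kernel⟩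

def B022L_151 :
    ∃ t, chk3 (onCell 0 67108864 0 1073741824 201326592 134217728 (corT true 1 c0F cB022L gF1q0 gF5q2 gF1q2 gF2q2 true true)) t 1 1 1 = true :=
  ⟨(T.b (T.b (T.b (T.b (T.a (T.a (T.c (T.l 204) (T.l 204)) (T.a (T.c (T.l 204) (T.l 204)) (T.c (T.l 204) (T.l 204)))) (T.a (T.c (T.c (T.l 0) (T.l 0)) (T.l 0)) (T.c (T.b (T.l 204) (T.l 204)) (T.l 204)))) (T.a (T.c (T.l 204) (T.l 204)) (T.a (T.c (T.l 0) (T.l 0)) (T.c (T.l 204) (T.l 204))))) (T.a (T.l 204) (T.a (T.c (T.l 0) (T.l 0)) (T.b (T.l 204) (T.l 204))))) (T.l 1)) (T.l 1)), by decide +kernel⟩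

def B022L_152 :
    ∃ t, chk3 (onCell 0 67108864 0 1073741824 201326592 134217728 (corT true 1 c0F cB022L gF1q0 gF5q2 gF2q2 gF3q2 true false)) t 1 1 1 = true :=
  ⟨(T.l 1), by decide +kernel⟩

def B022L_250 :
    ∃ t, chk3 (onCell 0 67108864 0 1073741824 201326592 134217728 (corT true 1 c0F cB022L gF2q0 gF5q2 gF0q2 gF1q2 true true)) t 1 1 1 = true :=
  ⟨(T.b (T.b (T.b (T.a (T.b (T.l 2) (T.c (T.l 204) (T.l 204))) (T.l 2)) (T.a (T.l 460) (T.b (T.b (T.b (T.a (T.c (T.l 0) (T.l 0)) (T.l 2)) (T.a (T.c (T.l 0) (T.l 0)) (T.c (T.l 204) (T.l 204)))) (T.a (T.c (T.l 0) (T.l 0)) (T.c (T.l 0) (T.l 0)))) (T.a (T.l 204) (T.c (T.l 0) (T.l 0)))))) (T.a (T.l 204) (T.b (T.a (T.l 0) (T.b (T.l 0) (T.l 0))) (T.b (T.a (T.l 1) (T.l 0)) (T.l 1))))) (T.l 1)), by decide +kernel⟩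

def B022L_251 :
    ∃ t, chk3 (onCell 0 67108864 0 1073741824 201326592 134217728 (corT true 1 c0F cB022L gF2q0 gF5q2 gF1q2 gF2q2 true true)) t 1 1 1 = true :=
  ⟨(T.b (T.b (T.b (T.b (T.a (T.a (T.c (T.l 204) (T.l 204)) (T.a (T.c (T.l 204) (T.l 204)) (T.c (T.l 204) (T.l 204)))) (T.a (T.c (T.c (T.l 0) (T.l 0)) (T.l 0)) (T.c (T.b (T.l 204) (T.l 204)) (T.l 204)))) (T.a (T.l 204) (T.a (T.c (T.l 0) (T.l 0)) (T.c (T.l 204) (T.l 204))))) (T.b (T.a (T.l 204) (T.a (T.c (T.l 0) (T.l 0)) (T.l 204))) (T.l 1))) (T.l 1)) (T.l 1)), by decide +kernel⟩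

def B022L_252 :
    ∃ t, chk3 (onCell 0 67108864 0 1073741824 201326592 134217728 (corT true 1 c0F cB022L gF2q0 gF5q2 gF2q2 gF3q2 true false)) t 1 1 1 = true :=
  ⟨(T.l 1), by decide +kernel⟩

def B022R_004 :
    ∃ t, chk3 (onCell 0 67108864 0 1073741824 201326592 134217728 (corT true 1 c0F cB022R gF0q0 gF0q2 gF4q2 gF5q2 false true)) t 1 1 1 = true :=
  ⟨(T.a (T.c (T.b (T.b (T.c (T.b (T.a (T.b (T.c (T.a (T.l 204) (T.l 204)) (T.b (T.l 204) (T.l 204))) (T.l 204)) (T.b (T.l 204) (T.l 204))) (T.b (T.l 204) (T.l 204))) (T.b (T.a (T.b (T.c (T.l 204) (T.l 204)) (T.l 204)) (T.l 204)) (T.b (T.l 204) (T.l 204)))) (T.c (T.b (T.l 204) (T.l 204)) (T.b (T.l 204) (T.l 204)))) (T.b (T.c (T.l 204) (T.l 204)) (T.b (T.l 204) (T.l 204)))) (T.b (T.b (T.b (T.c (T.a (T.c (T.l 204) (T.l 204)) (T.l 204)) (T.a (T.b (T.l 204) (T.l 204)) (T.l 204))) (T.c (T.b (T.l 204) (T.l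 204)) (T.l 204))) (T.b (T.a (T.l 204) (T.l 204)) (T.l 204))) (T.b (T.b (T.l 204) (T.l 204)) (T.l 204)))) (T.a (T.c (T.b (T.c (T.a (T.b (T.b (T.l 460) (T.l 204)) (T.l 204)) (T.b (T.l 460) (T.l 204))) (T.a (T.a (T.l 460) (T.l 476)) (T.b (T.l 204) (T.l 204)))) (T.c (T.b (T.l 460) (T.l 0)) (T.b (T.l 204) (T.l 204)))) (T.b (T.a (T.b (T.c (T.l 204) (T.l 204)) (T.l 460)) (T.b (T.c (T.l 204) (T.l 204)) (T.l 204))) (T.a (T.l 460) (T.l 460)))) (T.c (T.b (T.c (T.b (T.a (T.l 204) (T.l 204)) (T.b (T.l 204) (T.l 204))) (T.b (T.a (T.l 204) (T.l 204)) (T.l 460))) (T.c (T.b (T.l 204) (T.l 204)) (T.b (T.l 204) (T.l 204)))) (T.b (T.b (T.a (T.c (T.l 204) (T.l 204)) (T.c (T.l 204) (T.l 204))) (T.c (T.l 204) (T.l 204))) (T.b (T.l 460) (T.l 204)))))), by decide +kernel⟩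

def B022R_014 :
    ∃ t, chk3 (onCell 0 67108864 0 1073741824 201326592 134217728 (corT true 1 c0F cB022R gF0q0 gF1q2 gF4q2 gF5q2 false true)) t 1 1 1 = true :=
  ⟨(T.a (T.a (T.c (T.b (T.b (T.l 204) (T.l 204)) (T.b (T.l 0) (T.l 816))) (T.b (T.l 0) (T.l 0))) (T.c (T.a (T.b (T.l 256) (T.l 0)) (T.c (T.b (T.l 0) (T.l 0)) (T.l 256))) (T.a (T.b (T.l 204) (T.l 0)) (T.b (T.l 0) (T.l 0))))) (T.c (T.a (T.b (T.c (T.l 256) (T.l 0)) (T.c (T.l 64) (T.l 0))) (T.b (T.c (T.l 256) (T.l 0)) (T.c (T.l 64) (T.l 0)))) (T.a (T.b (T.b (T.l 204) (T.l 0)) (T.l 64)) (T.b (T.b (T.l 204) (T.l 204)) (T.l 64))))), by decide +kernel⟩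

def B022R_024 :
    ∃ t, chk3 (onCell 0 67108864 0 1073741824 201326592 134217728 (corT true 1 c0F cB022R gF0q0 gF2q2 gF4q2 gF5q2 false true)) t 1 1 1 = true :=
  ⟨(T.b (T.l 2) (T.b (T.b (T.b (T.l 2) (T.a (T.l 2) (T.b (T.l 2) (T.a (T.l 2) (T.c (T.l 816) (T.l 816)))))) (T.b (T.a (T.b (T.a (T.l 2) (T.c (T.c (T.l 816) (T.l 816)) (T.l 816))) (T.a (T.c (T.l 816) (T.l 816)) (T.c (T.c (T.l 816) (T.l 816)) (T.l 816)))) (T.c (T.a (T.l 880) (T.l 816)) (T.a (T.l 816) (T.l 816)))) (T.a (T.b (T.a (T.c (T.l 816) (T.l 816)) (T.c (T.c (T.l 816) (T.l 816)) (T.l 816))) (T.a (T.c (T.l 816) (T.l 816)) (T.c (T.c (T.l 816) (T.l 816)) (T.l 816)))) (T.c (T.c (T.a (T.l 816) (T.l 816)) (T.l 880)) (T.a (T.l 816) (T.l 816)))))) (T.a (T.a (T.c (T.c (T.l 816) (T.l 816)) (T.l 816)) (T.c (T.c (T.a (T.l 816) (T.l 816)) (T.a (T.l 816) (T.l 816))) (T.c (T.l 880) (T.l 816)))) (T.c (T.c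 (T.a (T.b (T.l 816) (T.l 816)) (T.b (T.l 816) (T.l 816))) (T.a (T.l 816) (T.l 816))) (T.a (T.c (T.l 816) (T.l 816)) (T.c (T.l 816) (T.l 816))))))), by decide +kernel⟩

def B022R_104 :
    ∃ t, chk3 (onCell 0 67108864 0 1073741824 201326592 134217728 (corT true 1 c0F cB022R gF1q0 gF0q2 gF4q2 gF5q2 false true)) t 1 1 1 = true :=
  ⟨(T.a (T.b (T.b (T.c (T.b (T.c (T.b (T.a (T.b (T.c (T.a (T.l 204) (T.l 204)) (T.l 204)) (T.l 204)) (T.l 204)) (T.l 204)) (T.a (T.b (T.c (T.l 204) (T.l 204)) (T.l 204)) (T.l 204))) (T.l 204)) (T.b (T.b (T.c (T.a (T.b (T.l 220) (T.l 204)) (T.l 204)) (T.a (T.l 204) (T.l 204))) (T.l 204)) (T.l 204))) (T.b (T.l 204) (T.l 204))) (T.l 0)) (T.b (T.a (T.c (T.b (T.b (T.c (T.a (T.l 460) (T.l 204)) (T.a (T.l 204) (T.l 204))) (T.l 204)) (T.l 204)) (T.b (T.b (T.a (T.c (T.l 204) (T.l 204)) (T.c (T.l 204) (T.l 204))) (T.l 204)) (T.l 204)))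 (T.c (T.b (T.b (T.b (T.c (T.a (T.l 204) (T.l 204)) (T.a (T.l 204) (T.l 204))) (T.l 460)) (T.l 204)) (T.l 204)) (T.b (T.b (T.b (T.a (T.l 220) (T.l 204)) (T.l 204)) (T.l 204)) (T.l 204)))) (T.a (T.l 0) (T.l 0)))), by decide +kernel⟩

def B022R_114 :
    ∃ t, chk3 (onCell 0 67108864 0 1073741824 201326592 134217728 (corT true 1 c0F cB022R gF1q0 gF1q2 gF4q2 gF5q2 false true)) t 1 1 1 = true :=
  ⟨(T.b (T.a (T.a (T.c (T.b (T.l 204) (T.l 0)) (T.l 0)) (T.c (T.a (T.b (T.l 204) (T.l 0)) (T.b (T.l 204) (T.l 0))) (T.a (T.l 0) (T.l 0)))) (T.c (T.b (T.a (T.c (T.l 0) (T.l 0)) (T.b (T.l 460) (T.l 204))) (T.l 0)) (T.a (T.b (T.l 0) (T.l 0)) (T.b (T.l 204) (T.l 0))))) (T.a (T.a (T.l 816) (T.l 64)) (T.b (T.l 0) (T.l 816)))), by decide +kernel⟩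

def B022R_124 :
    ∃ t, chk3 (onCell 0 67108864 0 1073741824 201326592 134217728 (corT true 1 c0F cB022R gF1q0 gF2q2 gF4q2 gF5q2 false true)) t 1 1 1 = true :=
  ⟨(T.l 2), by decide +kernel⟩

def B022R_204 :
    ∃ t, chk3 (onCell 0 67108864 0 1073741824 201326592 134217728 (corT true 1 c0F cB022R gF2q0 gF0q2 gF4q2 gF5q2 false true)) t 1 1 1 = true :=
  ⟨(T.a (T.b (T.b (T.c (T.b (T.b (T.c (T.a (T.b (T.c (T.a (T.l 204) (T.l 204)) (T.l 204)) (T.l 204)) (T.l 204)) (T.a (T.c (T.l 204) (T.l 204)) (T.l 204))) (T.l 204)) (T.l 204)) (T.b (T.b (T.b (T.c (T.a (T.l 220) (T.l 204)) (T.a (T.l 204) (T.l 204))) (T.l 204)) (T.l 204)) (T.l 204))) (T.l 204)) (T.l 0)) (T.b (T.a (T.b (T.c (T.b (T.b (T.c (T.a (T.l 204) (T.l 204)) (T.a (T.l 204) (T.l 204))) (T.l 460)) (T.l 204)) (T.b (T.b (T.a (T.c (T.l 204) (T.l 204)) (T.c (T.l 204) (T.l 204))) (T.l 204)) (T.l 204)))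 (T.l 204)) (T.b (T.c (T.b (T.b (T.c (T.a (T.l 204) (T.l 204)) (T.a (T.l 204) (T.l 204))) (T.l 204)) (T.l 204)) (T.b (T.b (T.a (T.b (T.l 220) (T.l 204)) (T.l 220)) (T.l 204)) (T.l 204))) (T.l 204))) (T.c (T.l 0) (T.l 0)))), by decide +kernel⟩

def B022R_214 :
    ∃ t, chk3 (onCell 0 67108864 0 1073741824 201326592 134217728 (corT true 1 c0F cB022R gF2q0 gF1q2 gF4q2 gF5q2 false true)) t 1 1 1 = true :=
  ⟨(T.b (T.b (T.a (T.a (T.c (T.l 460) (T.l 204)) (T.c (T.a (T.l 204) (T.l 460)) (T.c (T.l 0) (T.l 0)))) (T.c (T.b (T.a (T.c (T.l 204) (T.l 204)) (T.b (T.l 204) (T.l 204))) (T.l 0)) (T.a (T.l 0) (T.l 204)))) (T.a (T.a (T.l 0) (T.l 0)) (T.b (T.l 0) (T.l 0)))) (T.a (T.l 2) (T.l 64))), by decide +kernel⟩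

def B022R_224 :
    ∃ t, chk3 (onCell 0 67108864 0 1073741824 201326592 134217728 (corT true 1 c0F cB022R gF2q0 gF2q2 gF4q2 gF5q2 false true)) t 1 1 1 = true :=
  ⟨(T.l 2), by decide +kernel⟩

def B101E_000 :
    ∃ t, chk3 (onCell 0 53687091 0 1073741824 201326592 134217728 (corT true 1 c0F cB101E gF0q1 gF0q1 gF0q0 gF1q0 true true)) t 1 1 1 = true :=
  ⟨(T.l 2), by decide +kernel⟩

def B101E_001 :
    ∃ t, chk3 (onCell 0 53687091 0 1073741824 201326592 134217728 (corT true 1 c0F cB101E gF0q1 gF0q1 gF1q0 gF2q0 true true)) t 1 1 1 = true :=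
  ⟨(T.b (T.l 2) (T.l 2)), by decide +kernel⟩

def B101E_002 :
    ∃ t, chk3 (onCell 0 53687091 0 1073741824 201326592 134217728 (corT true 1 c0F cB101E gF0q1 gF0q1 gF2q0 gF3q0 true false)) t 1 1 1 = true :=
  ⟨(T.a (T.b (T.b (T.b (T.l 204) (T.l 204)) (T.l 204)) (T.b (T.l 204) (T.l 0))) (T.b (T.b (T.a (T.l 204) (T.b (T.b (T.l 716) (T.l 204)) (T.l 204))) (T.b (T.l 716) (T.l 204))) (T.b (T.l 204) (T.l 0)))), by decide +kernel⟩

def B101L_300 :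
    ∃ t, chk3 (onCell 0 67108864 0 1073741824 201326592 134217728 (corT true 1 c0F cB101L gF3q1 gF0q1 gF0q0 gF1q0 true true)) t 1 1 1 = true :=
  ⟨(T.b (T.l 1) (T.b (T.l 1) (T.b (T.l 1) (T.b (T.b (T.l 1) (T.b (T.l 1) (T.b (T.l 1) (T.b (T.a (T.c (T.c (T.c (T.b (T.l 1) (T.l 816)) (T.l 816)) (T.l 816)) (T.l 816)) (T.l 1)) (T.b (T.a (T.c (T.c (T.l 816) (T.l 816)) (T.l 816)) (T.b (T.c (T.a (T.c (T.l 816) (T.l 816)) (T.b (T.l 1) (T.c (T.a (T.l 820) (T.l 816)) (T.a (T.l 816) (T.l 816))))) (T.a (T.l 816) (T.a (T.l 820) (T.l 816)))) (T.c (T.a (T.c (T.l 816) (T.l 816)) (T.c (T.a (T.l 816) (T.l 816)) (T.a (T.l 816) (T.l 816)))) (T.a (T.l 816) (T.c (T.l 816) (T.l 816)))))) (T.a (T.c (T.c (T.l 816) (T.l 816)) (T.l 816)) (T.b (T.c (T.a (T.c (T.l 816) (T.l 816)) (T.c (T.a (T.l 816) (T.l 816)) (T.a (T.l 816) (T.l 816)))) (T.a (T.l 816) (T.c (T.l 816) (T.l 816))))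 (T.c (T.a (T.c (T.l 816) (T.l 816)) (T.c (T.a (T.l 816) (T.l 816)) (T.l 820))) (T.a (T.l 816) (T.c (T.l 816) (T.l 816))))))))))) (T.a (T.c (T.c (T.l 880) (T.l 816)) (T.l 816)) (T.a (T.c (T.c (T.l 816) (T.l 816)) (T.l 816)) (T.c (T.b (T.b (T.c (T.a (T.l 816) (T.l 816)) (T.l 820)) (T.l 880)) (T.l 816)) (T.c (T.l 816) (T.l 816))))))))), by decide +kernel⟩

def B101L_301 :
    ∃ t, chk3 (onCell 0 67108864 0 1073741824 201326592 134217728 (corT true 1 c0F cB101L gF3q1 gF0q1 gF1q0 gF2q0 true true)) t 1 1 1 = true :=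
  ⟨(T.l 1), by decide +kernel⟩

def B101L_302 :
    ∃ t, chk3 (onCell 0 67108864 0 1073741824 201326592 134217728 (corT true 1 c0F cB101L gF3q1 gF0q1 gF2q0 gF3q0 true false)) t 1 1 1 = true :=
  ⟨(T.l 1), by decide +kernel⟩

def B101L_400 :
    ∃ t, chk3 (onCell 0 67108864 0 1073741824 201326592 134217728 (corT true 1 c0F cB101L gF4q1 gF0q1 gF0q0 gF1q0 true true)) t 1 1 1 = true :=
  ⟨(T.b (T.l 1) (T.b (T.l 1) (T.a (T.b (T.b (T.b (T.l 1) (T.b (T.l 1) (T.c (T.c (T.l 0) (T.l 816)) (T.c (T.l 816) (T.a (T.l 816) (T.l 816)))))) (T.c (T.l 0) (T.l 816))) (T.l 816)) (T.b (T.b (T.b (T.l 1) (T.b (T.l 1) (T.b (T.b (T.b (T.l 1) (T.b (T.b (T.l 1) (T.b (T.l 1) (T.c (T.a (T.l 0) (T.c (T.l 0) (T.l 0))) (T.a (T.l 816) (T.c (T.l 0) (T.l 816)))))) (T.c (T.a (T.l 0) (T.c (T.l 0) (T.l 0))) (T.a (T.l 816) (T.c (T.l 0) (T.l 816)))))) (T.b (T.b (T.c (T.a (T.l 0) (T.c (T.l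 0) (T.l 0))) (T.a (T.l 816) (T.c (T.l 816) (T.l 816)))) (T.c (T.a (T.l 0) (T.c (T.l 0) (T.l 0))) (T.a (T.l 816) (T.c (T.l 816) (T.l 816))))) (T.b (T.c (T.a (T.l 0) (T.c (T.l 0) (T.l 0))) (T.a (T.l 816) (T.l 64))) (T.a (T.c (T.l 0) (T.l 816)) (T.c (T.l 0) (T.l 0)))))) (T.a (T.c (T.l 0) (T.l 816)) (T.c (T.l 0) (T.l 0)))))) (T.a (T.c (T.l 0) (T.l 816)) (T.c (T.l 0) (T.l 0)))) (T.c (T.l 0) (T.l 0)))))), by decide +kernel⟩

def B101L_401 :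
    ∃ t, chk3 (onCell 0 67108864 0 1073741824 201326592 134217728 (corT true 1 c0F cB101L gF4q1 gF0q1 gF1q0 gF2q0 true true)) t 1 1 1 = true :=
  ⟨(T.l 1), by decide +kernel⟩

def B101L_402 :
    ∃ t, chk3 (onCell 0 67108864 0 1073741824 201326592 134217728 (corT true 1 c0F cB101L gF4q1 gF0q1 gF2q0 gF3q0 true false)) t 1 1 1 = true :=
  ⟨(T.l 1), by decide +kernel⟩

def B101L_500 :
    ∃ t, chk3 (onCell 0 67108864 0 1073741824 201326592 134217728 (corX 1 c0F cB101L tB101L gF5q1 gF0q1 gF0q0 gF1q0 gF0q0 true true)) t 1 1 1 = true :=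
  ⟨(T.b (T.l 1) (T.l 3)), by decide +kernel⟩

def B101L_501 :
    ∃ t, chk3 (onCell 0 67108864 0 1073741824 201326592 134217728 (corT true 1 c0F cB101L gF5q1 gF0q1 gF1q0 gF2q0 true true)) t 1 1 1 = true :=
  ⟨(T.l 1), by decide +kernel⟩

def B101L_502 :
    ∃ t, chk3 (onCell 0 67108864 0 1073741824 201326592 134217728 (corT true 1 c0F cB101L gF5q1 gF0q1 gF2q0 gF3q0 true false)) t 1 1 1 = true :=
  ⟨(T.l 1), by decide +kernel⟩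

def B101R_030 :
    ∃ t, chk3 (onCell 0 67108864 0 1073741824 201326592 134217728 (corT true 1 c0F cB101R gF0q1 gF3q1 gF0q0 gF1q0 true true)) t 1 1 1 = true :=
  ⟨(T.l 1), by decide +kernel⟩

def B101R_031 :
    ∃ t, chk3 (onCell 0 67108864 0 1073741824 201326592 134217728 (corT true 1 c0F cB101R gF0q1 gF3q1 gF1q0 gF2q0 true true)) t 1 1 1 = true :=
  ⟨(T.l 1), by decide +kernel⟩

def B101R_032 :
    ∃ t, chk3 (onCell 0 67108864 0 1073741824 201326592 134217728 (corT true 1 c0F cB101R gF0q1 gF3q1 gF2q0 gF3q0 true false)) t 1 1 1 = true :=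
  ⟨(T.l 1), by decide +kernel⟩

def B101R_040 :
    ∃ t, chk3 (onCell 0 67108864 0 1073741824 201326592 134217728 (corT true 1 c0F cB101R gF0q1 gF4q1 gF0q0 gF1q0 true true)) t 1 1 1 = true :=
  ⟨(T.l 1), by decide +kernel⟩

def B101R_041 :
    ∃ t, chk3 (onCell 0 67108864 0 1073741824 201326592 134217728 (corT true 1 c0F cB101R gF0q1 gF4q1 gF1q0 gF2q0 true true)) t 1 1 1 = true :=
  ⟨(T.l 1), by decide +kernel⟩

def B101R_042 :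
    ∃ t, chk3 (onCell 0 67108864 0 1073741824 201326592 134217728 (corT true 1 c0F cB101R gF0q1 gF4q1 gF2q0 gF3q0 true false)) t 1 1 1 = true :=
  ⟨(T.l 1), by decide +kernel⟩

def B101R_050 :
    ∃ t, chk3 (onCell 0 67108864 0 1073741824 201326592 134217728 (corT true 1 c0F cB101R gF0q1 gF5q1 gF0q0 gF1q0 true true)) t 1 1 1 = true :=
  ⟨(T.l 1), by decide +kernel⟩

def B101R_051 :
    ∃ t, chk3 (onCell 0 67108864 0 1073741824 201326592 134217728 (corT true 1 c0F cB101R gF0q1 gF5q1 gF1q0 gF2q0 true true)) t 1 1 1 = true :=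
  ⟨(T.l 1), by decide +kernel⟩

def B101R_052 :
    ∃ t, chk3 (onCell 0 67108864 0 1073741824 201326592 134217728 (corT true 1 c0F cB101R gF0q1 gF5q1 gF2q0 gF3q0 true false)) t 1 1 1 = true :=
  ⟨(T.l 1), by decide +kernel⟩

def B102E_000 :
    ∃ t, chk3 (onCell 0 67108864 0 1073741824 201326592 134217728 (corX 1 c0F cB102E tB102E gF0q1 gF0q2 gF0q0 gF1q0 gF0q0 true true)) t 1 1 1 = true :=
  ⟨(T.b (T.b (T.l 1) (T.a (T.l 3) (T.b (T.l 1) (T.l 1)))) (T.b (T.b (T.b (T.l 3) (T.a (T.l 819) (T.l 819))) (T.a (T.l 819) (T.a (T.l 819) (T.b (T.l 816) (T.l 816))))) (T.a (T.l 3) (T.b (T.b (T.l 0) (T.l 2)) (T.l 2))))), by decide +kernel⟩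

def B102E_001 :
    ∃ t, chk3 (onCell 0 67108864 0 1073741824 201326592 134217728 (corT true 1 c0F cB102E gF0q1 gF0q2 gF1q0 gF2q0 true true)) t 1 1 1 = true :=
  ⟨(T.b (T.l 1) (T.b (T.b (T.l 1) (T.b (T.l 1) (T.a (T.l 0) (T.l 1)))) (T.a (T.l 0) (T.b (T.b (T.l 128) (T.l 0)) (T.b (T.l 816) (T.l 816)))))), by decide +kernel⟩

def B102E_002 :
    ∃ t, chk3 (onCell 0 67108864 0 1073741824 201326592 134217728 (corT true 1 c0F cB102E gF0q1 gF0q2 gF2q0 gF3q0 true false)) t 1 1 1 = true :=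
  ⟨(T.b (T.l 1) (T.b (T.l 1) (T.b (T.l 1) (T.a (T.l 816) (T.b (T.l 1) (T.l 0)))))), by decide +kernel⟩

def B102E_010_1_4_1 :
    ∃ t, chk3 (onCell 0 67108864 0 1073741824 201326592 134217728 (corT true 1 c0F cB102E gF0q1 gF1q2 gF0q0 gF1q0 true true)) t 1 4 1 = true :=
  ⟨(T.l 1), by decide +kernel⟩

def B102E_010_1_20_1 :
    ∃ t, chk3 (onCell 0 67108864 0 1073741824 201326592 134217728 (corT true 1 c0F cB102E gF0q1 gF1q2 gF0q0 gF1q0 true true)) t 1 20 1 = true :=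
  ⟨(T.l 1), by decide +kernel⟩

def B102E_010_1_84_1 :
    ∃ t, chk3 (onCell 0 67108864 0 1073741824 201326592 134217728 (corT true 1 c0F cB102E gF0q1 gF1q2 gF0q0 gF1q0 true true)) t 1 84 1 = true :=
  ⟨(T.l 1), by decide +kernel⟩

def B102E_010_2_170_1 :
    ∃ t, chk3 (onCell 0 67108864 0 1073741824 201326592 134217728 (corT true 1 c0F cB102E gF0q1 gF1q2 gF0q0 gF1q0 true true)) t 2 170 1 = true :=
  ⟨(T.a (T.b (T.l 1) (T.a (T.b (T.a (T.b (T.l 1) (T.a (T.c (T.c (T.c (T.b (T.a (T.b (T.l 1) (T.c (T.l 204) (T.l 204))) (T.l 1)) (T.c (T.l 460) (T.l 204))) (T.b (T.a (T.b (T.l 1) (T.l 204)) (T.l 1)) (T.l 460))) (T.c (T.b (T.a (T.c (T.l 204) (T.l 204)) (T.l 1)) (T.l 204)) (T.c (T.c (T.a (T.l 204) (T.b (T.l 1) (T.l 204))) (T.l 460)) (T.l 460)))) (T.c (T.c (T.c (T.l 204) (T.l 204)) (T.l 204)) (T.c (T.l 204) (T.l 204)))) (T.a (T.a (T.a (T.b (T.l 1) (T.a (T.b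 (T.l 1) (T.b (T.l 1) (T.b (T.l 1) (T.c (T.c (T.c (T.l 204) (T.l 204)) (T.l 204)) (T.c (T.l 204) (T.l 204)))))) (T.l 1))) (T.l 1)) (T.l 1)) (T.l 1)))) (T.l 1)) (T.c (T.c (T.c (T.a (T.c (T.c (T.l 460) (T.l 204)) (T.l 204)) (T.b (T.a (T.b (T.l 1) (T.c (T.c (T.l 460) (T.l 460)) (T.l 460))) (T.l 1)) (T.c (T.c (T.c (T.l 460) (T.l 460)) (T.l 460)) (T.l 460)))) (T.a (T.c (T.l 204) (T.l 204)) (T.b (T.a (T.b (T.l 1) (T.c (T.l 204) (T.l 204))) (T.l 1)) (T.c (T.l 460) (T.l 204))))) (T.c (T.a (T.l 204) (T.b (T.a (T.b (T.l 1) (T.l 204)) (T.l 1)) (T.l 204))) (T.a (T.l 204) (T.b (T.a (T.b (T.l 1) (T.l 204)) (T.l 1)) (T.l 204))))) (T.c (T.a (T.l 460) (T.b (T.a (T.b (T.l 1) (T.l 460)) (T.l 1)) (T.l 460))) (T.a (T.l 204) (T.b (T.a (T.c (T.l 204) (T.l 204)) (T.l 1)) (T.l 204)))))) (T.a (T.a (T.a (T.b (T.l 1) (T.a (T.b (T.l 1) (T.b (T.l 1) (T.b (T.l 1) (T.b (T.l 1) (T.c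 (T.c (T.c (T.l 204) (T.l 204)) (T.l 204)) (T.c (T.l 204) (T.l 204))))))) (T.l 1))) (T.l 1)) (T.l 1)) (T.l 1)))) (T.l 1)), by decide +kernel⟩

def B102E_010_2_171_1 :
    ∃ t, chk3 (onCell 0 67108864 0 1073741824 201326592 134217728 (corT true 1 c0F cB102E gF0q1 gF1q2 gF0q0 gF1q0 true true)) t 2 171 1 = true :=
  ⟨(T.c (T.c (T.a (T.b (T.a (T.c (T.l 204) (T.l 204)) (T.b (T.c (T.a (T.a (T.l 204) (T.b (T.b (T.l 1) (T.l 204)) (T.l 204))) (T.b (T.l 1) (T.a (T.l 204) (T.b (T.l 1) (T.l 460))))) (T.a (T.c (T.l 460) (T.l 460)) (T.b (T.l 1) (T.c (T.a (T.l 204) (T.l 460)) (T.l 460))))) (T.c (T.l 204) (T.l 204)))) (T.l 204)) (T.b (T.a (T.b (T.l 1) (T.a (T.c (T.a (T.l 460) (T.b (T.l 1) (T.l 204))) (T.c (T.c (T.a (T.l 204) (T.b (T.l 1) (T.l 204))) (T.l 460)) (T.l 460))) (T.a (T.a (T.b (T.l 1) (T.c (T.l 204) (T.l 204))) (T.l 1)) (T.l 1)))) (T.l 1)) (T.a (T.c (T.l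 204) (T.l 204)) (T.b (T.a (T.b (T.l 1) (T.c (T.l 204) (T.l 204))) (T.l 1)) (T.c (T.l 460) (T.l 204)))))) (T.a (T.a (T.l 204) (T.b (T.b (T.c (T.a (T.l 460) (T.b (T.l 1) (T.l 460))) (T.a (T.l 204) (T.b (T.l 1) (T.l 460)))) (T.l 204)) (T.l 204))) (T.b (T.a (T.b (T.l 1) (T.a (T.c (T.c (T.l 460) (T.l 460)) (T.l 460)) (T.a (T.b (T.l 1) (T.c (T.l 204) (T.l 204))) (T.l 1)))) (T.l 1)) (T.a (T.l 460) (T.b (T.a (T.b (T.l 1) (T.l 460)) (T.l 1)) (T.l 460)))))) (T.a (T.b (T.c (T.a (T.l 204) (T.b (T.c (T.a (T.l 204) (T.b (T.l 1) (T.l 204))) (T.a (T.l 204) (T.b (T.l 1) (T.l 204)))) (T.l 204))) (T.a (T.l 204) (T.a (T.l 204) (T.b (T.b (T.l 1) (T.l 204)) (T.l 204))))) (T.l 204)) (T.b (T.a (T.b (T.l 1) (T.c (T.a (T.c (T.l 204) (T.l 204)) (T.b (T.l 1) (T.c (T.l 460) (T.l 204)))) (T.a (T.l 204) (T.b (T.l 1) (T.l 204))))) (T.l 1)) (T.c (T.a (T.l 204) (T.b (T.a (T.c (T.l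 460) (T.l 204)) (T.l 1)) (T.l 204))) (T.a (T.l 204) (T.a (T.l 460) (T.b (T.l 1) (T.l 204)))))))), by decide +kernel⟩

def B102E_010_3_85_1 :
    ∃ t, chk3 (onCell 0 67108864 0 1073741824 201326592 134217728 (corT true 1 c0F cB102E gF0q1 gF1q2 gF0q0 gF1q0 true true)) t 3 85 1 = true :=
  ⟨(T.a (T.a (T.a (T.b (T.l 1) (T.a (T.b (T.l 1) (T.a (T.b (T.l 1) (T.a (T.b (T.l 1) (T.c (T.c (T.l 204) (T.l 204)) (T.l 460))) (T.l 1))) (T.l 1))) (T.l 1))) (T.l 1)) (T.l 1)) (T.l 1)), by decide +kernel⟩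

def B102E_010_2_43_1 :
    ∃ t, chk3 (onCell 0 67108864 0 1073741824 201326592 134217728 (corT true 1 c0F cB102E gF0q1 gF1q2 gF0q0 gF1q0 true true)) t 2 43 1 = true :=
  ⟨(T.b (T.c (T.c (T.a (T.l 204) (T.l 204)) (T.l 460)) (T.a (T.l 204) (T.l 460))) (T.l 204)), by decide +kernel⟩

def B102E_010_6_43_1 :
    ∃ t, chk3 (onCell 0 67108864 0 1073741824 201326592 134217728 (corT true 1 c0F cB102E gF0q1 gF1q2 gF0q0 gF1q0 true true)) t 6 43 1 = true :=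
  ⟨(T.a (T.b (T.c (T.b (T.b (T.c (T.c (T.l 476) (T.l 460)) (T.c (T.l 460) (T.l 204))) (T.l 204)) (T.l 204)) (T.c (T.l 460) (T.l 204))) (T.l 204)) (T.c (T.b (T.b (T.b (T.a (T.b (T.l 1) (T.c (T.l 476) (T.l 204))) (T.l 1)) (T.c (T.c (T.a (T.l 204) (T.l 220)) (T.l 476)) (T.c (T.l 460) (T.l 204)))) (T.c (T.l 204) (T.l 204))) (T.l 204)) (T.b (T.b (T.b (T.a (T.b (T.l 1) (T.c (T.l 204) (T.l 204))) (T.l 1)) (T.c (T.l 460) (T.l 204))) (T.l 204)) (T.l 204)))), by decide +kernel⟩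

def B102E_010_7_43_1 :
    ∃ t, chk3 (onCell 0 67108864 0 1073741824 201326592 134217728 (corT true 1 c0F cB102E gF0q1 gF1q2 gF0q0 gF1q0 true true)) t 7 43 1 = true :=
  ⟨(T.b (T.b (T.a (T.b (T.l 1) (T.b (T.a (T.a (T.b (T.l 1) (T.c (T.c (T.l 460) (T.l 204)) (T.l 460))) (T.l 1)) (T.l 1)) (T.c (T.c (T.a (T.l 460) (T.b (T.a (T.c (T.l 460) (T.l 460)) (T.l 1)) (T.c (T.l 460) (T.l 460)))) (T.a (T.l 204) (T.a (T.l 460) (T.b (T.l 1) (T.l 460))))) (T.c (T.a (T.l 204) (T.c (T.c (T.l 460) (T.l 460)) (T.l 460))) (T.a (T.l 204) (T.l 460)))))) (T.l 1)) (T.c (T.a (T.b (T.c (T.c (T.l 460) (T.l 460)) (T.c (T.l 460) (T.l 460))) (T.l 460)) (T.c (T.b (T.a (T.b (T.c (T.a (T.l 460) (T.b (T.l 1) (T.l 460))) (T.a (T.l 460) (T.b (T.l 1) (T.l 460)))) (T.l 460)) (T.b (T.a (T.a (T.b (T.l 1) (T.c (T.c (T.l 460) (T.l 460)) (T.l 460))) (T.l 1)) (T.l 1)) (T.c (T.a (T.l 460) (T.b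 (T.b (T.l 1) (T.c (T.l 460) (T.l 460))) (T.l 460))) (T.a (T.l 460) (T.a (T.l 460) (T.b (T.b (T.l 1) (T.l 460)) (T.l 460))))))) (T.c (T.l 460) (T.l 460))) (T.b (T.a (T.a (T.l 460) (T.b (T.b (T.l 1) (T.l 460)) (T.l 204))) (T.b (T.a (T.a (T.b (T.l 1) (T.c (T.l 460) (T.l 460))) (T.l 1)) (T.l 1)) (T.c (T.c (T.a (T.l 460) (T.l 460)) (T.l 460)) (T.l 460)))) (T.l 460)))) (T.a (T.c (T.l 460) (T.l 460)) (T.c (T.b (T.a (T.c (T.l 460) (T.l 460)) (T.b (T.a (T.b (T.l 1) (T.c (T.l 460) (T.l 460))) (T.l 1)) (T.c (T.l 460) (T.l 460)))) (T.l 204)) (T.a (T.l 460) (T.b (T.b (T.a (T.a (T.l 460) (T.l 1)) (T.l 1)) (T.l 460)) (T.l 204))))))) (T.c (T.a (T.l 204) (T.l 460)) (T.c (T.l 460) (T.l 460)))), by decide +kernel⟩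

def B102E_010_1_11_1 :
    ∃ t, chk3 (onCell 0 67108864 0 1073741824 201326592 134217728 (corT true 1 c0F cB102E gF0q1 gF1q2 gF0q0 gF1q0 true true)) t 1 11 1 = true :=
  ⟨(T.a (T.b (T.l 0) (T.l 0)) (T.a (T.l 0) (T.b (T.c (T.l 0) (T.l 0)) (T.l 0)))), by decide +kernel⟩

def B102E_010_1_3_1 :
    ∃ t, chk3 (onCell 0 67108864 0 1073741824 201326592 134217728 (corT true 1 c0F cB102E gF0q1 gF1q2 gF0q0 gF1q0 true true)) t 1 3 1 = true :=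
  ⟨(T.b (T.a (T.l 0) (T.b (T.b (T.l 0) (T.l 0)) (T.b (T.l 0) (T.l 2)))) (T.l 2)), by decide +kernel⟩

theorem B102E_010_3_43_1 :
    ∃ t, chk3 (onCell 0 67108864 0 1073741824 201326592 134217728 (corT true 1 c0F cB102E gF0q1 gF1q2 gF0q0 gF1q0 true true)) t 3 43 1 = true :=
  ex3_a B102E_010_6_43_1 B102E_010_7_43_1
theorem B102E_010_1_43_1 :
    ∃ t, chk3 (onCell 0 67108864 0 1073741824 201326592 134217728 (corT true 1 c0F cB102E gF0q1 gF1q2 gF0q0 gF1q0 true true)) t 1 43 1 = true :=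
  ex3_a B102E_010_2_43_1 B102E_010_3_43_1
theorem B102E_010_2_85_1 :
    ∃ t, chk3 (onCell 0 67108864 0 1073741824 201326592 134217728 (corT true 1 c0F cB102E gF0q1 gF1q2 gF0q0 gF1q0 true true)) t 2 85 1 = true :=
  ex3_b B102E_010_2_170_1 B102E_010_2_171_1
theorem B102E_010_1_85_1 :
    ∃ t, chk3 (onCell 0 67108864 0 1073741824 201326592 134217728 (corT true 1 c0F cB102E gF0q1 gF1q2 gF0q0 gF1q0 true true)) t 1 85 1 = true :=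
  ex3_a B102E_010_2_85_1 B102E_010_3_85_1
theorem B102E_010_1_42_1 :
    ∃ t, chk3 (onCell 0 67108864 0 1073741824 201326592 134217728 (corT true 1 c0F cB102E gF0q1 gF1q2 gF0q0 gF1q0 true true)) t 1 42 1 = true :=
  ex3_b B102E_010_1_84_1 B102E_010_1_85_1
theorem B102E_010_1_21_1 :
    ∃ t, chk3 (onCell 0 67108864 0 1073741824 201326592 134217728 (corT true 1 c0F cB102E gF0q1 gF1q2 gF0q0 gF1q0 true true)) t 1 21 1 = true :=
  ex3_b B102E_010_1_42_1 B102E_010_1_43_1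
theorem B102E_010_1_10_1 :
    ∃ t, chk3 (onCell 0 67108864 0 1073741824 201326592 134217728 (corT true 1 c0F cB102E gF0q1 gF1q2 gF0q0 gF1q0 true true)) t 1 10 1 = true :=
  ex3_b B102E_010_1_20_1 B102E_010_1_21_1
theorem B102E_010_1_5_1 :
    ∃ t, chk3 (onCell 0 67108864 0 1073741824 201326592 134217728 (corT true 1 c0F cB102E gF0q1 gF1q2 gF0q0 gF1q0 true true)) t 1 5 1 = true :=
  ex3_b B102E_010_1_10_1 B102E_010_1_11_1
theorem B102E_010_1_2_1 :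
    ∃ t, chk3 (onCell 0 67108864 0 1073741824 201326592 134217728 (corT true 1 c0F cB102E gF0q1 gF1q2 gF0q0 gF1q0 true true)) t 1 2 1 = true :=
  ex3_b B102E_010_1_4_1 B102E_010_1_5_1
theorem B102E_010 :
    ∃ t, chk3 (onCell 0 67108864 0 1073741824 201326592 134217728 (corT true 1 c0F cB102E gF0q1 gF1q2 gF0q0 gF1q0 true true)) t 1 1 1 = true :=
  ex3_b B102E_010_1_2_1 B102E_010_1_3_1

def B102E_011 :
    ∃ t, chk3 (onCell 0 67108864 0 1073741824 201326592 134217728 (corT true 1 c0F cB102E gF0q1 gF1q2 gF1q0 gF2q0 true true)) t 1 1 1 = true :=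
  ⟨(T.b (T.l 1) (T.b (T.b (T.l 1) (T.a (T.l 0) (T.b (T.l 0) (T.l 0)))) (T.a (T.l 816) (T.a (T.l 128) (T.l 0))))), by decide +kernel⟩

def B102E_012 :
    ∃ t, chk3 (onCell 0 67108864 0 1073741824 201326592 134217728 (corT true 1 c0F cB102E gF0q1 gF1q2 gF2q0 gF3q0 true false)) t 1 1 1 = true :=
  ⟨(T.b (T.l 1) (T.b (T.l 1) (T.a (T.l 816) (T.b (T.l 1) (T.b (T.l 816) (T.l 0)))))), by decide +kernel⟩

def B102E_020_1_16_1 :
    ∃ t, chk3 (onCell 0 67108864 0 1073741824 201326592 134217728 (corT true 1 c0F cB102E gF0q1 gF2q2 gF0q0 gF1q0 true true)) t 1 16 1 = true :=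
  ⟨(T.l 1), by decide +kernel⟩

def B102E_020_1_34_1 :
    ∃ t, chk3 (onCell 0 67108864 0 1073741824 201326592 134217728 (corT true 1 c0F cB102E gF0q1 gF2q2 gF0q0 gF1q0 true true)) t 1 34 1 = true :=
  ⟨(T.a (T.b (T.l 1) (T.b (T.l 1) (T.b (T.l 1) (T.a (T.c (T.c (T.l 204) (T.l 204)) (T.c (T.l 204) (T.l 204))) (T.b (T.l 1) (T.a (T.b (T.a (T.a (T.a (T.c (T.c (T.l 204) (T.l 204)) (T.l 220)) (T.l 1)) (T.l 1)) (T.l 1)) (T.c (T.c (T.l 204) (T.l 204)) (T.c (T.l 204) (T.l 204)))) (T.a (T.a (T.a (T.b (T.l 1) (T.b (T.l 1) (T.b (T.l 1) (T.b (T.l 1) (T.c (T.c (T.l 204) (T.l 204)) (T.c (T.l 204) (T.l 204))))))) (T.l 1)) (T.l 1)) (T.l 1)))))))) (T.l 1)), by decide +kernel⟩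

def B102E_020_1_35_1 :
    ∃ t, chk3 (onCell 0 67108864 0 1073741824 201326592 134217728 (corT true 1 c0F cB102E gF0q1 gF2q2 gF0q0 gF1q0 true true)) t 1 35 1 = true :=
  ⟨(T.a (T.c (T.b (T.c (T.c (T.a (T.l 204) (T.l 220)) (T.l 220)) (T.c (T.l 204) (T.l 204))) (T.l 204)) (T.c (T.a (T.l 204) (T.l 220)) (T.l 204))) (T.b (T.b (T.b (T.a (T.b (T.a (T.b (T.a (T.a (T.a (T.b (T.l 1) (T.b (T.l 1) (T.b (T.l 1) (T.c (T.c (T.c (T.l 204) (T.l 204)) (T.l 220)) (T.c (T.l 204) (T.l 204)))))) (T.l 1)) (T.l 1)) (T.l 1)) (T.c (T.a (T.c (T.c (T.l 220) (T.l 204)) (T.c (T.l 204) (T.l 204))) (T.c (T.c (T.l 204) (T.l 204)) (T.l 220))) (T.c (T.c (T.l 204) (T.l 204)) (T.l 220)))) (T.l 1)) (T.a (T.c (T.c (T.c (T.l 220) (T.l 204)) (T.c (T.l 204) (T.l 204))) (T.c (T.l 220) (T.l 204))) (T.c (T.c (T.c (T.l 204) (T.l 204)) (T.l 220)) (T.c (T.l 204) (T.l 204))))) (T.a (T.b (T.l 1)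 (T.b (T.l 1) (T.c (T.c (T.c (T.l 220) (T.l 204)) (T.l 220)) (T.c (T.l 204) (T.l 204))))) (T.l 1))) (T.a (T.c (T.c (T.a (T.c (T.l 204) (T.l 204)) (T.l 220)) (T.a (T.l 204) (T.l 204))) (T.c (T.a (T.l 204) (T.l 204)) (T.a (T.l 204) (T.l 204)))) (T.c (T.c (T.c (T.a (T.l 204) (T.a (T.l 204) (T.l 220))) (T.a (T.l 204) (T.l 220))) (T.c (T.l 220) (T.l 220))) (T.c (T.l 220) (T.l 204))))) (T.b (T.a (T.c (T.c (T.a (T.l 204) (T.l 204)) (T.l 220)) (T.c (T.l 204) (T.l 204))) (T.c (T.c (T.a (T.l 204) (T.l 204)) (T.l 204)) (T.c (T.l 204) (T.l 204)))) (T.c (T.a (T.c (T.l 204) (T.l 204)) (T.c (T.l 204) (T.l 204))) (T.a (T.c (T.l 204) (T.l 204)) (T.l 204))))) (T.c (T.a (T.c (T.l 204) (T.l 204)) (T.c (T.l 204) (T.l 204))) (T.a (T.c (T.l 204) (T.l 204)) (T.l 204))))), by decide +kernel⟩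

def B102E_020_1_9_1 :
    ∃ t, chk3 (onCell 0 67108864 0 1073741824 201326592 134217728 (corT true 1 c0F cB102E gF0q1 gF2q2 gF0q0 gF1q0 true true)) t 1 9 1 = true :=
  ⟨(T.a (T.c (T.l 204) (T.l 204)) (T.a (T.b (T.c (T.l 204) (T.l 204)) (T.l 204)) (T.c (T.b (T.l 204) (T.l 204)) (T.l 204)))), by decide +kernel⟩

def B102E_020_1_5_1 :
    ∃ t, chk3 (onCell 0 67108864 0 1073741824 201326592 134217728 (corT true 1 c0F cB102E gF0q1 gF2q2 gF0q0 gF1q0 true true)) t 1 5 1 = true :=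
  ⟨(T.a (T.l 0) (T.b (T.b (T.l 0) (T.l 0)) (T.l 0))), by decide +kernel⟩

def B102E_020_1_3_1 :
    ∃ t, chk3 (onCell 0 67108864 0 1073741824 201326592 134217728 (corT true 1 c0F cB102E gF0q1 gF2q2 gF0q0 gF1q0 true true)) t 1 3 1 = true :=
  ⟨(T.a (T.l 0) (T.b (T.b (T.l 0) (T.l 2)) (T.l 2))), by decide +kernel⟩

theorem B102E_020_1_17_1 :
    ∃ t, chk3 (onCell 0 67108864 0 1073741824 201326592 134217728 (corT true 1 c0F cB102E gF0q1 gF2q2 gF0q0 gF1q0 true true)) t 1 17 1 = true :=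
  ex3_b B102E_020_1_34_1 B102E_020_1_35_1
theorem B102E_020_1_8_1 :
    ∃ t, chk3 (onCell 0 67108864 0 1073741824 201326592 134217728 (corT true 1 c0F cB102E gF0q1 gF2q2 gF0q0 gF1q0 true true)) t 1 8 1 = true :=
  ex3_b B102E_020_1_16_1 B102E_020_1_17_1
theorem B102E_020_1_4_1 :
    ∃ t, chk3 (onCell 0 67108864 0 1073741824 201326592 134217728 (corT true 1 c0F cB102E gF0q1 gF2q2 gF0q0 gF1q0 true true)) t 1 4 1 = true :=
  ex3_b B102E_020_1_8_1 B102E_020_1_9_1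
theorem B102E_020_1_2_1 :
    ∃ t, chk3 (onCell 0 67108864 0 1073741824 201326592 134217728 (corT true 1 c0F cB102E gF0q1 gF2q2 gF0q0 gF1q0 true true)) t 1 2 1 = true :=
  ex3_b B102E_020_1_4_1 B102E_020_1_5_1
theorem B102E_020 :
    ∃ t, chk3 (onCell 0 67108864 0 1073741824 201326592 134217728 (corT true 1 c0F cB102E gF0q1 gF2q2 gF0q0 gF1q0 true true)) t 1 1 1 = true :=
  ex3_b B102E_020_1_2_1 B102E_020_1_3_1

def B102E_021 :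
    ∃ t, chk3 (onCell 0 67108864 0 1073741824 201326592 134217728 (corT true 1 c0F cB102E gF0q1 gF2q2 gF1q0 gF2q0 true true)) t 1 1 1 = true :=
  ⟨(T.b (T.b (T.l 1) (T.l 1)) (T.a (T.l 0) (T.b (T.b (T.l 0) (T.l 0)) (T.b (T.l 0) (T.l 0))))), by decide +kernel⟩

def B102E_022 :
    ∃ t, chk3 (onCell 0 67108864 0 1073741824 201326592 134217728 (corT true 1 c0F cB102E gF0q1 gF2q2 gF2q0 gF3q0 true false)) t 1 1 1 = true :=
  ⟨(T.b (T.l 1) (T.b (T.l 1) (T.a (T.l 816) (T.b (T.l 1) (T.l 0))))), by decide +kernel⟩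

def B102L_300 :
    ∃ t, chk3 (onCell 0 67108864 0 1073741824 201326592 134217728 (corT true 1 c0F cB102L gF3q1 gF0q2 gF0q0 gF1q0 true true)) t 1 1 1 = true :=
  ⟨(T.b (T.a (T.l 0) (T.l 2)) (T.b (T.l 0) (T.a (T.c (T.l 0) (T.l 0)) (T.a (T.b (T.l 0) (T.l 816)) (T.b (T.l 0) (T.c (T.l 64) (T.l 0))))))), by decide +kernel⟩

def B102L_301 :
    ∃ t, chk3 (onCell 0 67108864 0 1073741824 201326592 134217728 (corT true 1 c0F cB102L gF3q1 gF0q2 gF1q0 gF2q0 true true)) t 1 1 1 = true :=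
  ⟨(T.b (T.a (T.l 0) (T.b (T.a (T.l 0) (T.l 16)) (T.a (T.l 204) (T.l 0)))) (T.b (T.l 0) (T.l 1))), by decide +kernel⟩

def B102L_302 :
    ∃ t, chk3 (onCell 0 67108864 0 1073741824 201326592 134217728 (corT true 1 c0F cB102L gF3q1 gF0q2 gF2q0 gF3q0 true false)) t 1 1 1 = true :=
  ⟨(T.b (T.a (T.b (T.l 0) (T.l 1)) (T.b (T.a (T.l 0) (T.b (T.l 204) (T.l 0))) (T.b (T.b (T.l 0) (T.l 1)) (T.l 1)))) (T.l 1)), by decide +kernel⟩

def B102L_310 :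
    ∃ t, chk3 (onCell 0 67108864 0 1073741824 201326592 134217728 (corT true 1 c0F cB102L gF3q1 gF1q2 gF0q0 gF1q0 true true)) t 1 1 1 = true :=
  ⟨(T.b (T.b (T.b (T.a (T.a (T.l 204) (T.l 204)) (T.l 16)) (T.a (T.l 204) (T.l 0))) (T.a (T.l 204) (T.b (T.l 16) (T.b (T.l 204) (T.l 0))))) (T.a (T.c (T.b (T.l 0) (T.l 0)) (T.l 0)) (T.a (T.c (T.l 0) (T.l 0)) (T.b (T.b (T.l 0) (T.l 0)) (T.b (T.l 0) (T.c (T.l 0) (T.l 0))))))), by decide +kernel⟩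

def B102L_311 :
    ∃ t, chk3 (onCell 0 67108864 0 1073741824 201326592 134217728 (corT true 1 c0F cB102L gF3q1 gF1q2 gF1q0 gF2q0 true true)) t 1 1 1 = true :=
  ⟨(T.b (T.b (T.a (T.b (T.a (T.l 204) (T.l 204)) (T.l 204)) (T.b (T.l 16) (T.l 0))) (T.a (T.l 1) (T.l 1))) (T.l 1)), by decide +kernel⟩

def B102L_312 :
    ∃ t, chk3 (onCell 0 67108864 0 1073741824 201326592 134217728 (corT true 1 c0F cB102L gF3q1 gF1q2 gF2q0 gF3q0 true false)) t 1 1 1 = true :=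
  ⟨(T.l 1), by decide +kernel⟩

def B102L_320 :
    ∃ t, chk3 (onCell 0 67108864 0 1073741824 201326592 134217728 (corT true 1 c0F cB102L gF3q1 gF2q2 gF0q0 gF1q0 true true)) t 1 1 1 = true :=
  ⟨(T.b (T.b (T.a (T.b (T.a (T.c (T.l 204) (T.l 204)) (T.c (T.l 204) (T.l 204))) (T.c (T.l 204) (T.l 204))) (T.a (T.c (T.l 204) (T.l 204)) (T.c (T.l 204) (T.l 204)))) (T.a (T.c (T.l 204) (T.l 204)) (T.a (T.c (T.l 204) (T.l 204)) (T.c (T.l 204) (T.l 204))))) (T.a (T.c (T.l 0) (T.l 0)) (T.a (T.c (T.l 0) (T.l 0)) (T.b (T.b (T.l 204) (T.l 0)) (T.b (T.b (T.l 0) (T.l 4)) (T.c (T.l 0) (T.l 0))))))), by decide +kernel⟩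

def B102L_321 :
    ∃ t, chk3 (onCell 0 67108864 0 1073741824 201326592 134217728 (corT true 1 c0F cB102L gF3q1 gF2q2 gF1q0 gF2q0 true true)) t 1 1 1 = true :=
  ⟨(T.l 1), by decide +kernel⟩

def B102L_322 :
    ∃ t, chk3 (onCell 0 67108864 0 1073741824 201326592 134217728 (corT true 1 c0F cB102L gF3q1 gF2q2 gF2q0 gF3q0 true false)) t 1 1 1 = true :=
  ⟨(T.l 1), by decide +kernel⟩

def B102L_400 :
    ∃ t, chk3 (onCell 0 67108864 0 1073741824 201326592 134217728 (corT true 1 c0F cB102L gF4q1 gF0q2 gF0q0 gF1q0 true true)) t 1 1 1 = true :=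
  ⟨(T.b (T.b (T.l 2) (T.l 2)) (T.b (T.l 0) (T.a (T.l 0) (T.a (T.l 0) (T.b (T.l 0) (T.l 0)))))), by decide +kernel⟩

def B102L_401 :
    ∃ t, chk3 (onCell 0 67108864 0 1073741824 201326592 134217728 (corT true 1 c0F cB102L gF4q1 gF0q2 gF1q0 gF2q0 true true)) t 1 1 1 = true :=
  ⟨(T.b (T.a (T.l 0) (T.b (T.a (T.l 0) (T.l 2)) (T.a (T.l 204) (T.l 0)))) (T.b (T.l 204) (T.l 1))), by decide +kernel⟩

def B102L_402 :
    ∃ t, chk3 (onCell 0 67108864 0 1073741824 201326592 134217728 (corT true 1 c0F cB102L gF4q1 gF0q2 gF2q0 gF3q0 true false)) t 1 1 1 = true :=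
  ⟨(T.b (T.a (T.l 0) (T.b (T.a (T.l 0) (T.b (T.l 204) (T.l 204))) (T.a (T.l 0) (T.b (T.l 0) (T.l 1))))) (T.l 1)), by decide +kernel⟩

def B102L_410 :
    ∃ t, chk3 (onCell 0 67108864 0 1073741824 201326592 134217728 (corT true 1 c0F cB102L gF4q1 gF1q2 gF0q0 gF1q0 true true)) t 1 1 1 = true :=
  ⟨(T.b (T.b (T.a (T.b (T.a (T.l 204) (T.l 204)) (T.l 204)) (T.b (T.l 2) (T.l 0))) (T.a (T.l 204) (T.b (T.l 0) (T.l 0)))) (T.a (T.l 0) (T.a (T.l 0) (T.b (T.b (T.l 204) (T.l 204)) (T.b (T.l 0) (T.l 0)))))), by decide +kernel⟩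

def B102L_411 :
    ∃ t, chk3 (onCell 0 67108864 0 1073741824 201326592 134217728 (corT true 1 c0F cB102L gF4q1 gF1q2 gF1q0 gF2q0 true true)) t 1 1 1 = true :=
  ⟨(T.b (T.b (T.a (T.b (T.a (T.l 204) (T.l 204)) (T.l 204)) (T.b (T.l 0) (T.l 204))) (T.a (T.l 1) (T.b (T.l 0) (T.l 1)))) (T.l 1)), by decide +kernel⟩

def B102L_412 :
    ∃ t, chk3 (onCell 0 67108864 0 1073741824 201326592 134217728 (corT true 1 c0F cB102L gF4q1 gF1q2 gF2q0 gF3q0 true false)) t 1 1 1 = true :=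
  ⟨(T.l 1), by decide +kernel⟩

def B102L_420 :
    ∃ t, chk3 (onCell 0 67108864 0 1073741824 201326592 134217728 (corT true 1 c0F cB102L gF4q1 gF2q2 gF0q0 gF1q0 true true)) t 1 1 1 = true :=
  ⟨(T.b (T.b (T.a (T.b (T.a (T.c (T.l 204) (T.l 204)) (T.c (T.l 204) (T.l 204))) (T.b (T.l 204) (T.l 204))) (T.a (T.c (T.l 204) (T.l 204)) (T.c (T.l 204) (T.l 204)))) (T.a (T.l 204) (T.b (T.c (T.l 204) (T.l 204)) (T.b (T.l 220) (T.l 204))))) (T.a (T.l 0) (T.a (T.l 0) (T.b (T.b (T.l 204) (T.l 204)) (T.l 16))))), by decide +kernel⟩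

def B102L_421 :
    ∃ t, chk3 (onCell 0 67108864 0 1073741824 201326592 134217728 (corT true 1 c0F cB102L gF4q1 gF2q2 gF1q0 gF2q0 true true)) t 1 1 1 = true :=
  ⟨(T.l 1), by decide +kernel⟩

def B102L_422 :
    ∃ t, chk3 (onCell 0 67108864 0 1073741824 201326592 134217728 (corT true 1 c0F cB102L gF4q1 gF2q2 gF2q0 gF3q0 true false)) t 1 1 1 = true :=
  ⟨(T.l 1), by decide +kernel⟩

def B102L_500 :
    ∃ t, chk3 (onCell 0 67108864 0 1073741824 201326592 134217728 (corT true 1 c0F cB102L gF5q1 gF0q2 gF0q0 gF1q0 true true)) t 1 1 1 = true :=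
  ⟨(T.b (T.l 2) (T.b (T.l 0) (T.l 0))), by decide +kernel⟩

def B102L_501 :
    ∃ t, chk3 (onCell 0 67108864 0 1073741824 201326592 134217728 (corT true 1 c0F cB102L gF5q1 gF0q2 gF1q0 gF2q0 true true)) t 1 1 1 = true :=
  ⟨(T.b (T.a (T.l 0) (T.b (T.b (T.l 2) (T.l 2)) (T.a (T.l 204) (T.l 0)))) (T.b (T.l 0) (T.l 0))), by decide +kernel⟩

def B102L_502 :
    ∃ t, chk3 (onCell 0 67108864 0 1073741824 201326592 134217728 (corT true 1 c0F cB102L gF5q1 gF0q2 gF2q0 gF3q0 true false)) t 1 1 1 = true :=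
  ⟨(T.b (T.a (T.l 0) (T.b (T.a (T.l 0) (T.l 16)) (T.a (T.l 0) (T.l 0)))) (T.l 1)), by decide +kernel⟩

def B102L_510 :
    ∃ t, chk3 (onCell 0 67108864 0 1073741824 201326592 134217728 (corT true 1 c0F cB102L gF5q1 gF1q2 gF0q0 gF1q0 true true)) t 1 1 1 = true :=
  ⟨(T.b (T.b (T.a (T.a (T.l 204) (T.b (T.l 2) (T.l 204))) (T.b (T.l 2) (T.l 2))) (T.a (T.l 204) (T.b (T.l 0) (T.l 0)))) (T.b (T.a (T.l 204) (T.b (T.l 0) (T.l 204))) (T.l 0))), by decide +kernel⟩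

def B102L_511 :
    ∃ t, chk3 (onCell 0 67108864 0 1073741824 201326592 134217728 (corT true 1 c0F cB102L gF5q1 gF1q2 gF1q0 gF2q0 true true)) t 1 1 1 = true :=
  ⟨(T.b (T.b (T.a (T.b (T.a (T.l 204) (T.l 204)) (T.l 204)) (T.b (T.l 0) (T.l 0))) (T.a (T.l 204) (T.b (T.l 0) (T.l 0)))) (T.b (T.l 1) (T.l 1))), by decide +kernel⟩

def B102L_512 :
    ∃ t, chk3 (onCell 0 67108864 0 1073741824 201326592 134217728 (corT true 1 c0F cB102L gF5q1 gF1q2 gF2q0 gF3q0 true false)) t 1 1 1 = true :=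
  ⟨(T.l 1), by decide +kernel⟩

def B102L_520 :
    ∃ t, chk3 (onCell 0 67108864 0 1073741824 201326592 134217728 (corT true 1 c0F cB102L gF5q1 gF2q2 gF0q0 gF1q0 true true)) t 1 1 1 = true :=
  ⟨(T.b (T.b (T.b (T.a (T.a (T.c (T.l 204) (T.l 204)) (T.c (T.l 204) (T.l 204))) (T.c (T.b (T.l 204) (T.l 204)) (T.l 204))) (T.a (T.l 204) (T.c (T.l 204) (T.l 204)))) (T.a (T.l 204) (T.b (T.b (T.l 220) (T.l 204)) (T.b (T.l 204) (T.l 204))))) (T.a (T.l 0) (T.a (T.l 0) (T.b (T.l 16) (T.l 0))))), by decide +kernel⟩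

def B102L_521 :
    ∃ t, chk3 (onCell 0 67108864 0 1073741824 201326592 134217728 (corT true 1 c0F cB102L gF5q1 gF2q2 gF1q0 gF2q0 true true)) t 1 1 1 = true :=
  ⟨(T.l 1), by decide +kernel⟩

def B102L_522 :
    ∃ t, chk3 (onCell 0 67108864 0 1073741824 201326592 134217728 (corT true 1 c0F cB102L gF5q1 gF2q2 gF2q0 gF3q0 true false)) t 1 1 1 = true :=
  ⟨(T.l 1), by decide +kernel⟩

def B102R_050 :
    ∃ t, chk3 (onCell 0 67108864 0 1073741824 201326592 134217728 (corT true 1 c0F cB102R gF0q1 gF5q2 gF0q0 gF1q0 true true)) t 1 1 1 = true :=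
  ⟨(T.l 1), by decide +kernel⟩

def B102R_051 :
    ∃ t, chk3 (onCell 0 67108864 0 1073741824 201326592 134217728 (corT true 1 c0F cB102R gF0q1 gF5q2 gF1q0 gF2q0 true true)) t 1 1 1 = true :=
  ⟨(T.l 1), by decide +kernel⟩

def B102R_052 :
    ∃ t, chk3 (onCell 0 67108864 0 1073741824 201326592 134217728 (corT true 1 c0F cB102R gF0q1 gF5q2 gF2q0 gF3q0 true false)) t 1 1 1 = true :=
  ⟨(T.l 1), by decide +kernel⟩

def B202E_000 :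
    ∃ t, chk3 (onCell 0 67108864 0 1073741824 201326592 134217728 (corT true 1 c0F cB202E gF0q2 gF0q2 gF0q0 gF1q0 true true)) t 1 1 1 = true :=
  ⟨(T.l 1), by decide +kernel⟩

def B202E_001 :
    ∃ t, chk3 (onCell 0 67108864 0 1073741824 201326592 134217728 (corT true 1 c0F cB202E gF0q2 gF0q2 gF1q0 gF2q0 true true)) t 1 1 1 = true :=
  ⟨(T.l 1), by decide +kernel⟩

def B202E_002 :
    ∃ t, chk3 (onCell 0 67108864 0 1073741824 201326592 134217728 (corT true 1 c0F cB202E gF0q2 gF0q2 gF2q0 gF3q0 true false)) t 1 1 1 = true :=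
  ⟨(T.l 1), by decide +kernel⟩

def B202E_010 :
    ∃ t, chk3 (onCell 0 67108864 0 1073741824 201326592 134217728 (corT true 1 c0F cB202E gF0q2 gF1q2 gF0q0 gF1q0 true true)) t 1 1 1 = true :=
  ⟨(T.l 1), by decide +kernel⟩

def B202E_011 :
    ∃ t, chk3 (onCell 0 67108864 0 1073741824 201326592 134217728 (corT true 1 c0F cB202E gF0q2 gF1q2 gF1q0 gF2q0 true true)) t 1 1 1 = true :=
  ⟨(T.l 1), by decide +kernel⟩

def B202E_012 :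
    ∃ t, chk3 (onCell 0 67108864 0 1073741824 201326592 134217728 (corT true 1 c0F cB202E gF0q2 gF1q2 gF2q0 gF3q0 true false)) t 1 1 1 = true :=
  ⟨(T.l 1), by decide +kernel⟩

def B202E_020 :
    ∃ t, chk3 (onCell 0 67108864 0 1073741824 201326592 134217728 (corT true 1 c0F cB202E gF0q2 gF2q2 gF0q0 gF1q0 true true)) t 1 1 1 = true :=
  ⟨(T.b (T.l 1) (T.l 1)), by decide +kernel⟩

def B202E_021 :
    ∃ t, chk3 (onCell 0 67108864 0 1073741824 201326592 134217728 (corT true 1 c0F cB202E gF0q2 gF2q2 gF1q0 gF2q0 true true)) t 1 1 1 = true :=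
  ⟨(T.l 1), by decide +kernel⟩

def B202E_022 :
    ∃ t, chk3 (onCell 0 67108864 0 1073741824 201326592 134217728 (corT true 1 c0F cB202E gF0q2 gF2q2 gF2q0 gF3q0 true false)) t 1 1 1 = true :=
  ⟨(T.l 1), by decide +kernel⟩

def B202E_100 :
    ∃ t, chk3 (onCell 0 67108864 0 1073741824 201326592 134217728 (corT true 1 c0F cB202E gF1q2 gF0q2 gF0q0 gF1q0 true true)) t 1 1 1 = true :=
  ⟨(T.l 1), by decide +kernel⟩

def B202E_101 :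
    ∃ t, chk3 (onCell 0 67108864 0 1073741824 201326592 134217728 (corT true 1 c0F cB202E gF1q2 gF0q2 gF1q0 gF2q0 true true)) t 1 1 1 = true :=
  ⟨(T.l 1), by decide +kernel⟩

def B202E_102 :
    ∃ t, chk3 (onCell 0 67108864 0 1073741824 201326592 134217728 (corT true 1 c0F cB202E gF1q2 gF0q2 gF2q0 gF3q0 true false)) t 1 1 1 = true :=
  ⟨(T.l 1), by decide +kernel⟩

def B202E_110 :
    ∃ t, chk3 (onCell 0 67108864 0 1073741824 201326592 134217728 (corT true 1 c0F cB202E gF1q2 gF1q2 gF0q0 gF1q0 true true)) t 1 1 1 = true :=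
  ⟨(T.l 1), by decide +kernel⟩

def B202E_111 :
    ∃ t, chk3 (onCell 0 67108864 0 1073741824 201326592 134217728 (corT true 1 c0F cB202E gF1q2 gF1q2 gF1q0 gF2q0 true true)) t 1 1 1 = true :=
  ⟨(T.l 1), by decide +kernel⟩

def B202E_112 :
    ∃ t, chk3 (onCell 0 67108864 0 1073741824 201326592 134217728 (corT true 1 c0F cB202E gF1q2 gF1q2 gF2q0 gF3q0 true false)) t 1 1 1 = true :=
  ⟨(T.l 1), by decide +kernel⟩

def B202E_120 :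
    ∃ t, chk3 (onCell 0 67108864 0 1073741824 201326592 134217728 (corT true 1 c0F cB202E gF1q2 gF2q2 gF0q0 gF1q0 true true)) t 1 1 1 = true :=
  ⟨(T.l 1), by decide +kernel⟩

def B202E_121 :
    ∃ t, chk3 (onCell 0 67108864 0 1073741824 201326592 134217728 (corT true 1 c0F cB202E gF1q2 gF2q2 gF1q0 gF2q0 true true)) t 1 1 1 = true :=
  ⟨(T.l 1), by decide +kernel⟩

def B202E_122 :
    ∃ t, chk3 (onCell 0 67108864 0 1073741824 201326592 134217728 (corT true 1 c0F cB202E gF1q2 gF2q2 gF2q0 gF3q0 true false)) t 1 1 1 = true :=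
  ⟨(T.l 1), by decide +kernel⟩

def B202E_200 :
    ∃ t, chk3 (onCell 0 67108864 0 1073741824 201326592 134217728 (corT true 1 c0F cB202E gF2q2 gF0q2 gF0q0 gF1q0 true true)) t 1 1 1 = true :=
  ⟨(T.l 1), by decide +kernel⟩

def B202E_201 :
    ∃ t, chk3 (onCell 0 67108864 0 1073741824 201326592 134217728 (corT true 1 c0F cB202E gF2q2 gF0q2 gF1q0 gF2q0 true true)) t 1 1 1 = true :=
  ⟨(T.l 1), by decide +kernel⟩

def B202E_202 :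
    ∃ t, chk3 (onCell 0 67108864 0 1073741824 201326592 134217728 (corT true 1 c0F cB202E gF2q2 gF0q2 gF2q0 gF3q0 true false)) t 1 1 1 = true :=
  ⟨(T.l 1), by decide +kernel⟩

def B202E_210 :
    ∃ t, chk3 (onCell 0 67108864 0 1073741824 201326592 134217728 (corT true 1 c0F cB202E gF2q2 gF1q2 gF0q0 gF1q0 true true)) t 1 1 1 = true :=
  ⟨(T.l 1), by decide +kernel⟩

def B202E_211 :
    ∃ t, chk3 (onCell 0 67108864 0 1073741824 201326592 134217728 (corT true 1 c0F cB202E gF2q2 gF1q2 gF1q0 gF2q0 true true)) t 1 1 1 = true :=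
  ⟨(T.l 1), by decide +kernel⟩

def B202E_212 :
    ∃ t, chk3 (onCell 0 67108864 0 1073741824 201326592 134217728 (corT true 1 c0F cB202E gF2q2 gF1q2 gF2q0 gF3q0 true false)) t 1 1 1 = true :=
  ⟨(T.l 1), by decide +kernel⟩

def B202E_220 :
    ∃ t, chk3 (onCell 0 67108864 0 1073741824 201326592 134217728 (corT true 1 c0F cB202E gF2q2 gF2q2 gF0q0 gF1q0 true true)) t 1 1 1 = true :=
  ⟨(T.l 1), by decide +kernel⟩

def B202E_221 :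
    ∃ t, chk3 (onCell 0 67108864 0 1073741824 201326592 134217728 (corT true 1 c0F cB202E gF2q2 gF2q2 gF1q0 gF2q0 true true)) t 1 1 1 = true :=
  ⟨(T.l 1), by decide +kernel⟩

def B202E_222 :
    ∃ t, chk3 (onCell 0 67108864 0 1073741824 201326592 134217728 (corT true 1 c0F cB202E gF2q2 gF2q2 gF2q0 gF3q0 true false)) t 1 1 1 = true :=
  ⟨(T.l 1), by decide +kernel⟩

def B202L_500 :
    ∃ t, chk3 (onCell 0 67108864 0 1073741824 201326592 134217728 (corT true 1 c0F cB202L gF5q2 gF0q2 gF0q0 gF1q0 true true)) t 1 1 1 = true :=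
  ⟨(T.l 2), by decide +kernel⟩

def B202L_501 :
    ∃ t, chk3 (onCell 0 67108864 0 1073741824 201326592 134217728 (corT true 1 c0F cB202L gF5q2 gF0q2 gF1q0 gF2q0 true true)) t 1 1 1 = true :=
  ⟨(T.l 2), by decide +kernel⟩

def B202L_502 :
    ∃ t, chk3 (onCell 0 67108864 0 1073741824 201326592 134217728 (corT true 1 c0F cB202L gF5q2 gF0q2 gF2q0 gF3q0 true false)) t 1 1 1 = true :=
  ⟨(T.a (T.b (T.l 204) (T.l 204)) (T.b (T.b (T.l 204) (T.l 204)) (T.c (T.l 204) (T.l 204)))), by decide +kernel⟩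

def B202L_510 :
    ∃ t, chk3 (onCell 0 67108864 0 1073741824 201326592 134217728 (corT true 1 c0F cB202L gF5q2 gF1q2 gF0q0 gF1q0 true true)) t 1 1 1 = true :=
  ⟨(T.b (T.a (T.a (T.l 204) (T.l 2)) (T.l 2)) (T.l 2)), by decide +kernel⟩

def B202L_511 :
    ∃ t, chk3 (onCell 0 67108864 0 1073741824 201326592 134217728 (corT true 1 c0F cB202L gF5q2 gF1q2 gF1q0 gF2q0 true true)) t 1 1 1 = true :=
  ⟨(T.b (T.a (T.a (T.l 204) (T.l 0)) (T.l 0)) (T.b (T.a (T.a (T.l 0) (T.l 0)) (T.l 0)) (T.l 2))), by decide +kernel⟩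

def B202L_512 :
    ∃ t, chk3 (onCell 0 67108864 0 1073741824 201326592 134217728 (corT true 1 c0F cB202L gF5q2 gF1q2 gF2q0 gF3q0 true false)) t 1 1 1 = true :=
  ⟨(T.b (T.b (T.l 1) (T.a (T.l 1) (T.l 0))) (T.a (T.a (T.b (T.l 0) (T.l 0)) (T.c (T.l 0) (T.l 0))) (T.c (T.b (T.l 0) (T.l 0)) (T.l 0)))), by decide +kernel⟩

def B202L_520 :
    ∃ t, chk3 (onCell 0 67108864 0 1073741824 201326592 134217728 (corT true 1 c0F cB202L gF5q2 gF2q2 gF0q0 gF1q0 true true)) t 1 1 1 = true :=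
  ⟨(T.b (T.b (T.a (T.a (T.c (T.l 204) (T.l 204)) (T.c (T.b (T.l 204) (T.l 220)) (T.l 204))) (T.c (T.a (T.l 204) (T.l 204)) (T.l 204))) (T.b (T.b (T.a (T.b (T.a (T.c (T.l 204) (T.l 204)) (T.c (T.c (T.l 204) (T.l 204)) (T.l 204))) (T.a (T.c (T.l 204) (T.l 204)) (T.c (T.c (T.l 204) (T.l 204)) (T.l 204)))) (T.c (T.a (T.l 204) (T.l 204)) (T.l 204))) (T.a (T.b (T.a (T.c (T.l 204) (T.l 204)) (T.c (T.c (T.l 204) (T.l 204)) (T.l 204))) (T.a (T.l 1) (T.c (T.c (T.l 204) (T.l 204)) (T.l 204)))) (T.c (T.a (T.l 204) (T.l 204)) (T.l 220)))) (T.b (T.a (T.l 1) (T.b (T.a (T.l 1) (T.c (T.l 204) (T.l 204))) (T.l 1))) (T.l 1)))) (T.l 1)), by decide +kernel⟩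

def B202L_521 :
    ∃ t, chk3 (onCell 0 67108864 0 1073741824 201326592 134217728 (corT true 1 c0F cB202L gF5q2 gF2q2 gF1q0 gF2q0 true true)) t 1 1 1 = true :=
  ⟨(T.l 1), by decide +kernel⟩

def B202L_522 :
    ∃ t, chk3 (onCell 0 67108864 0 1073741824 201326592 134217728 (corT true 1 c0F cB202L gF5q2 gF2q2 gF2q0 gF3q0 true false)) t 1 1 1 = true :=
  ⟨(T.l 1), by decide +kernel⟩

def B202R_050 :
    ∃ t, chk3 (onCell 0 67108864 0 1073741824 201326592 134217728 (corX 1 c0F cB202R tB202R gF0q2 gF5q2 gF0q0 gF1q0 gF0q0 true true)) t 1 1 1 = true :=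
  ⟨(T.b (T.b (T.l 1) (T.b (T.l 3) (T.a (T.l 3) (T.l 3)))) (T.b (T.a (T.l 3) (T.a (T.l 0) (T.b (T.b (T.l 819) (T.l 2)) (T.l 2)))) (T.l 2))), by decide +kernel⟩

def B202R_051 :
    ∃ t, chk3 (onCell 0 67108864 0 1073741824 201326592 134217728 (corT true 1 c0F cB202R gF0q2 gF5q2 gF1q0 gF2q0 true true)) t 1 1 1 = true :=
  ⟨(T.b (T.l 1) (T.b (T.b (T.a (T.l 0) (T.a (T.l 0) (T.b (T.l 0) (T.l 0)))) (T.a (T.l 816) (T.a (T.l 816) (T.l 0)))) (T.l 2))), by decide +kernel⟩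

def B202R_052 :
    ∃ t, chk3 (onCell 0 67108864 0 1073741824 201326592 134217728 (corT true 1 c0F cB202R gF0q2 gF5q2 gF2q0 gF3q0 true false)) t 1 1 1 = true :=
  ⟨(T.b (T.l 1) (T.b (T.b (T.a (T.l 1) (T.b (T.l 1) (T.a (T.l 1) (T.l 0)))) (T.a (T.l 0) (T.a (T.l 0) (T.l 0)))) (T.a (T.b (T.l 204) (T.l 204)) (T.a (T.b (T.l 204) (T.l 204)) (T.b (T.l 204) (T.l 204)))))), by decide +kernel⟩

def B202R_150 :
    ∃ t, chk3 (onCell 0 67108864 0 1073741824 201326592 134217728 (corT true 1 c0F cB202R gF1q2 gF5q2 gF0q0 gF1q0 true true)) t 1 1 1 = true :=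
  ⟨(T.b (T.l 1) (T.b (T.b (T.l 1) (T.b (T.b (T.a (T.c (T.b (T.l 1) (T.l 816)) (T.l 816)) (T.b (T.a (T.c (T.c (T.l 816) (T.l 816)) (T.l 816)) (T.c (T.l 816) (T.l 816))) (T.a (T.c (T.c (T.l 816) (T.l 816)) (T.l 816)) (T.c (T.l 816) (T.l 816))))) (T.a (T.c (T.l 816) (T.l 816)) (T.a (T.c (T.l 0) (T.l 816)) (T.c (T.l 816) (T.l 816))))) (T.a (T.c (T.l 816) (T.l 816)) (T.a (T.c (T.l 0) (T.l 0)) (T.c (T.l 816) (T.l 816)))))) (T.b (T.a (T.b (T.l 816) (T.l 816)) (T.a (T.c (T.l 0) (T.l 0)) (T.b (T.l 816) (T.l 2)))) (T.l 2)))), by decide +kernel⟩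

def B202R_151 :
    ∃ t, chk3 (onCell 0 67108864 0 1073741824 201326592 134217728 (corT true 1 c0F cB202R gF1q2 gF5q2 gF1q0 gF2q0 true true)) t 1 1 1 = true :=
  ⟨(T.b (T.l 1) (T.b (T.l 1) (T.b (T.a (T.b (T.l 1) (T.l 816)) (T.a (T.c (T.b (T.l 0) (T.l 0)) (T.l 0)) (T.b (T.l 880) (T.l 816)))) (T.a (T.b (T.l 816) (T.l 2)) (T.l 2))))), by decide +kernel⟩

def B202R_152 :
    ∃ t, chk3 (onCell 0 67108864 0 1073741824 201326592 134217728 (corT true 1 c0F cB202R gF1q2 gF5q2 gF2q0 gF3q0 true false)) t 1 1 1 = true :=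
  ⟨(T.b (T.l 1) (T.b (T.l 1) (T.b (T.b (T.l 1) (T.b (T.l 1) (T.a (T.l 816) (T.c (T.l 0) (T.l 0))))) (T.b (T.a (T.l 0) (T.a (T.l 0) (T.l 0))) (T.a (T.a (T.l 204) (T.c (T.l 0) (T.l 0))) (T.a (T.l 0) (T.l 204))))))), by decide +kernel⟩

def B202R_250 :
    ∃ t, chk3 (onCell 0 67108864 0 1073741824 201326592 134217728 (corT true 1 c0F cB202R gF2q2 gF5q2 gF0q0 gF1q0 true true)) t 1 1 1 = true :=
  ⟨(T.l 1), by decide +kernel⟩

def B202R_251 :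
    ∃ t, chk3 (onCell 0 67108864 0 1073741824 201326592 134217728 (corT true 1 c0F cB202R gF2q2 gF5q2 gF1q0 gF2q0 true true)) t 1 1 1 = true :=
  ⟨(T.l 1), by decide +kernel⟩

def B202R_252 :
    ∃ t, chk3 (onCell 0 67108864 0 1073741824 201326592 134217728 (corT true 1 c0F cB202R gF2q2 gF5q2 gF2q0 gF3q0 true false)) t 1 1 1 = true :=
  ⟨(T.l 1), by decide +kernel⟩

end Pool.Agent.Strip051.G.I3_16_5_16.Tab.CF
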