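import Pool.Agent.Strip051.G.I3_16_5_16.StF

/-! # Unit strips 6 (generated) -/

set_option linter.all false
set_option maxRecDepth 100000

namespace Pool.Agent.Strip051.G.I3_16_5_16.Tab.St.C

open Pool.Agent.Strip051.PB Pool.Agent.Strip051.PB.T Pool.Agent.StripNear Pool.Agent.Strip051.LC
open Pool.Agent.Strip051.G.I3_16_5_16.Tab Pool.Agent.Strip051.G.I3_16_5_16.Tab.St

noncomputable def cut_B00pp_012_s1 : Cut := Cut.of [[⟨4, 0, 0, 1449551462⟩], [⟨0, 0, 0, 67108864⟩, ⟨1, 1, 0, 67108864⟩, ⟨2, 1, 0, 67108864⟩]]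

noncomputable def xt_B00pp_012_s1 : Ext := strExt dd false true true .u0 .u2 .u0m .pnp 0 1 2 rfl rfl gf1 vv ndF0q0 ndF0q2

noncomputable def f_B00pp_012_s1 : ℕ → ℕ → ℕ → ℕ → Bool := onCell 0 536870912 0 536870912 201326592 134217728
    (rowFK 0 false true true .pnp 0 1 2 (qsf 0 536870912 0 536870912 1) ndF0q0 ndF0q2 pcF1 cut_B00pp_012_s1 xt_B00pp_012_s1)

def k0_B00pp_012_s1 : ∃ t, chk3 f_B00pp_012_s1 t 2 2 1 = true :=
  ⟨(a (a (l 2) (b (l 2) (b (l 2) (a (l 2) (a (l 2) (b (l 2) (a (l 2) (b (l 536669455) (l 536559631))))))))) (b (a (l 6) (a (l 6) (b (l 6) (b (l 6) (l 16843192))))) (a (a (b (l 6) (b (a (b (l 6) (a (l 536812559) (l 16776000))) (b (l 16785520) (l 16778912))) (a (b (a (l 16747160) (l 16770328)) (a (l 16763448) (l 16765680))) (b (l 16773296) (a (l 16767752) (l 16769648)))))) (b (b (l 6) (a (l 16800584) (l 16802704))) (b (a (b (l 16788648) (l 16782120)) (b (l 16790880) (l 16784424))) (a (b (l 16776592) (l 16772088)) (c (l 16780176)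 (l 536621327)))))) (b (a (b (a (l 16823328) (l 16823208)) (a (l 16803768) (l 16803816))) (b (a (l 16822144) (l 16820320)) (a (l 16802992) (l 16801544)))) (b (a (a (l 537123343) (l 537156367)) (a (l 537178383) (l 537191439))) (a (a (c (l 537092879) (l 16780968)) (l 536906511)) (a (l 536916751) (l 536917263)))))))), by decide +kernel⟩

def k1_B00pp_012_s1 : ∃ t, chk3 f_B00pp_012_s1 t 6 2 1 = true :=
  ⟨(b (a (b (a (l 6) (b (l 6) (l 16871920))) (a (b (l 16859592) (l 16837344)) (b (l 16849336) (l 16869976)))) (a (b (b (l 16904576) (l 16886456)) (b (l 16868936) (a (l 16846168) (l 16854256)))) (b (b (l 16922616) (l 16869072)) (b (a (l 16878088) (l 16877168)) (a (l 16876832) (l 539694863)))))) (a (b (a (b (a (l 16817800) (l 16814576)) (a (l 16799552) (l 16817928))) (b (a (l 16810536) (l 16817656)) (a (l 16814696) (l 538042639)))) (a (b (a (l 537192207) (l 537175567)) (a (l 536901903) (l 536865295))) (b (a (l 537325839) (l 538057999)) (c (a (l 539479311)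 (l 540031503)) (l 536900367))))) (b (a (b (a (l 16808656) (l 539064591)) (b (a (l 16817088) (l 16818216)) (l 539394575))) (a (b (l 539430671) (b (l 539435279) (l 539442703))) (b (l 540271119) (b (l 539741199) (l 539748879))))) (a (b (a (l 538635279) (l 539096847)) (a (l 539202063) (l 539133711))) (b (b (a (l 539459599) (b (l 539755279) (l 539772943))) (l 539645455)) (a (l 539514127) (l 3))))))), by decide +kernel⟩

def k2_B00pp_012_s1 : ∃ t, chk3 f_B00pp_012_s1 t 7 2 1 = true :=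
  ⟨(b (a (b (a (b (a (l 16921248) (l 16915784)) (a (l 16897136) (l 16890576))) (b (a (l 16907752) (l 16897832)) (a (l 16881552) (l 540175887)))) (a (b (a (l 539853839) (l 540039695)) (a (l 540744975) (b (l 16859464) (l 540169487)))) (b (a (l 540195343) (b (l 16849512) (l 540362767))) (a (b (l 540292623) (l 540352783)) (b (l 540434703) (l 541041167)))))) (b (a (b (a (l 16886712) (l 16874712)) (a (l 540278799) (l 540378383))) (c (b (l 541264655) (a (l 541394703) (l 541485327))) (b (l 539583759) (a (l 539601679) (l 539705615))))) (a (b (a (l 540440847) (l 540550159)) (a (l 540598543) (b (l 540692239) (l 540764687)))) (b (c (l 541698063) (l 539768591)) (a (l 541122063) (l 3)))))) (a (b (a (b (a (b (l 539987727) (l 540000271)) (b (l 540210959) (l 540229903))) (a (b (l 541348111) (a (l 539950351) (l 540075535))) (l 541856271))) (b (a (b (l 540409103) (l 540467727)) (c (l 541822735) (l 539458319))) (a (l 540464655) (l 3)))) (a (a (b (b (c (l 541401871)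 (l 538711055)) (l 3)) (l 3)) (l 3)) (l 3))) (b (b (a (a (b (l 540712207) (l 3)) (l 3)) (l 3)) (l 3)) (l 3)))), by decide +kernel⟩

def k3_B00pp_012_s1 : ∃ t, chk3 f_B00pp_012_s1 t 4 6 1 = true :=
  ⟨(a (l 2) (a (b (l 2) (a (b (l 2) (a (l 2) (a (b (l 2) (c (l 535763471) (l 535250191))) (b (b (l 2) (l 535597327)) (c (l 535770383) (l 535263759)))))) (b (a (b (l 2) (a (l 2) (l 535761167))) (b (a (l 2) (l 535898383)) (a (l 535773455) (l 535786255)))) (a (b (a (l 535636239) (l 535647759)) (a (c (l 535777551) (l 535277583)) (c (l 535784463) (l 535291663)))) (b (a (l 535659535) (l 535671823)) (a (c (l 535791631) (l 535306255)) (c (l 535798799) (l 535321103)))))))) (b (a (b (a (l 2) (b (l 2) (a (l 2) (l 536284943)))) (a (b (l 2) (a (l 536022543) (l 536036367))) (c (a (l 536369935) (l 536381967)) (a (l 535847951) (l 535865359))))) (a (b (b (l 536416271) (l 536306447)) (b (l 536062735) (l 535952911))) (b (b (l 536449551) (l 16754840)) (b (l 16748152)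 (l 536120079))))) (a (a (c (b (b (l 536176911) (l 536057103)) (b (l 535933199) (a (l 535806479) (l 535814671)))) (b (b (l 535661839) (l 535555599)) (b (l 535716623) (a (l 535336207) (l 535351823))))) (b (b (a (l 535939855) (l 535954447)) (c (l 536078095) (l 535589391))) (b (c (l 535952655) (l 535481359)) (c (l 535825423) (a (l 535367951) (l 535384335)))))) (b (c (a (b (l 16758264) (l 536101135)) (b (l 16760304) (l 536126991))) (a (b (l 16749056) (l 535624975)) (b (l 535769871) (l 535662863)))) (c (a (b (l 535974415) (l 535845903)) (b (l 535999759) (l 535871247))) (b (a (l 535516431) (l 535553551)) (a (a (l 535401231) (l 535418639)) (l 535444239))))))))), by decide +kernel⟩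

def k4_B00pp_012_s1 : ∃ t, chk3 f_B00pp_012_s1 t 5 6 1 = true :=
  ⟨(a (a (b (a (a (b (b (l 16759824) (l 16757320)) (b (l 16755920) (l 536154127))) (b (b (l 16762112) (l 16759648)) (c (l 536480271) (l 536005135)))) (a (b (a (l 536489487) (l 536506127)) (b (l 16760488) (l 536219663))) (b (a (l 536521999) (l 536537871)) (c (l 536530959) (l 536077583))))) (a (a (b (b (l 536041999) (l 535927567)) (b (l 535943695) (c (l 535897359) (l 535480335)))) (b (b (l 536075023) (l 535959823)) (b (l 535839759) (c (l 535915023) (l 535510031))))) (b (b (a (l 536105999) (l 536132879)) (a (l 535988495) (l 536010255))) (b (a (l 535863055) (l 535877647)) (a (l 536065039) (l 535737871)))))) (b (b (a (a (l 536558607) (l 536585231)) (a (l 536606991) (l 536622095))) (a (a (c (l 536550671) (l 536109583)) (l 536619279)) (a (l 536363791) (l 536371727)))) (b (a (b (a (l 536152079) (l 536164879)) (a (l 536023823) (l 536032527))) (b (a (l 536171791) (l 536172559)) (a (l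 536035087) (l 536029967)))) (a (b (a (l 535886351) (l 535889423)) (a (l 535740431) (l 535736847))) (b (a (l 535886607) (l 535880207)) (a (l 535726607) (l 3))))))) (b (a (b (a (l 536633359) (l 536906767)) (a (b (l 536437263) (l 536297743)) (b (l 536431119) (l 536288015)))) (b (a (l 537440783) (l 537154831)) (a (c (l 536478479) (l 536185103)) (l 537103631)))) (b (b (a (a (a (l 536165903) (l 536155407)) (c (l 536283919) (l 535981071))) (a (c (l 536228111) (l 535961615)) (l 536311311))) (a (a (a (l 536016399) (l 536005903)) (l 536518927)) (l 3))) (a (a (b (a (l 536132367) (l 535848975)) (l 3)) (l 3)) (l 3))))), by decide +kernel⟩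

def k5_B00pp_012_s1 : ∃ t, chk3 f_B00pp_012_s1 t 3 6 1 = true :=
  ⟨(b (a (a (a (b (a (l 536854799) (l 536517391)) (c (a (l 538042639) (l 538978831)) (l 537147919))) (b (a (l 537349903) (l 538096655)) (l 3))) (l 3)) (l 3)) (l 3)), by decide +kernel⟩

def k6_B00pp_012_s1 : ∃ t, chk3 f_B00pp_012_s1 t 8 14 1 = true :=
  ⟨(b (b (l 2) (a (l 2) (a (l 2) (b (a (l 2) (a (l 2) (l 535287311))) (a (l 2) (a (l 14) (l 535504911))))))) (a (l 2) (a (l 14) (a (l 14) (a (l 14) (a (l 14) (b (b (l 535190799) (l 535140879)) (b (l 535089423) (l 535171087))))))))), by decide +kernel⟩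

def k7_B00pp_012_s1 : ∃ t, chk3 f_B00pp_012_s1 t 36 14 1 = true :=
  ⟨(b (a (a (b (b (l 2) (l 535348751)) (b (l 535296527) (l 535245839))) (b (b (l 535411471) (l 535358223)) (b (l 535305999) (l 535255311)))) (c (b (a (l 535646479) (l 535652367)) (a (l 535532559) (l 535537935))) (b (a (l 535149071) (l 535162127)) (a (l 535051791) (l 535064847))))) (a (a (b (b (l 535330831) (c (l 535386383) (l 534912015))) (b (c (l 535329295) (l 534865167)) (c (l 535270159) (l 535086351)))) (b (b (l 535205903) (c (l 535391759) (l 534924559))) (b (c (l 535334671) (l 534878223)) (c (l 535275535) (a (l 534828815) (l 534835215)))))) (c (b (a (l 535424015) (l 535429135)) (a (b (l 535340047) (b (l 535296271) (l 535265807))) (b (l 535344911) (b (l 535301135) (l 535271183))))) (b (a (b (l 534983439) (l 534937615)) (b (l 534996495) (l 534950671))) (a (b (l 534891279) (a (l 534841871) (l 534848527))) (b (l 534904591) (a (l 534854927) (l 534861839)))))))), by decide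 +kernel⟩

def k8_B00pp_012_s1 : ∃ t, chk3 f_B00pp_012_s1 t 37 14 1 = true :=
  ⟨(b (c (a (b (a (l 535658511) (l 535664399)) (a (l 535543055) (l 535547919))) (b (a (l 535670287) (l 535676687)) (a (l 535552783) (l 535557903)))) (a (b (a (l 535175695) (l 535189519)) (a (l 535078159) (l 535091727))) (b (a (l 535203599) (l 535218191)) (a (l 535105551) (l 535387919))))) (c (a (b (a (l 535433743) (l 535438095)) (a (b (l 535349519) (b (l 535305743) (a (l 535275023) (l 535276815)))) (b (l 535353103) (c (l 535396623) (a (l 535191823) (l 535195919)))))) (b (a (b (l 535470607) (l 535415311)) (b (l 535475471) (l 535420943))) (a (b (a (l 535358223) (l 535361039)) (l 535301391)) (b (l 535365391) (l 535308303))))) (b (a (a (b (l 535009807) (l 534964239)) (b (l 535023375) (l 534977807))) (a (b (l 535036943) (l 534991631)) (b (l 535050767) (l 535005455)))) (a (a (b (l 534917903) (b (l 534883087) (a (l 534856719) (l 534863631)))) (b (a (l 534929167) (l 534936079))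 (a (b (l 534894095) (l 534870543)) (b (l 534901007) (l 534877199))))) (a (b (a (l 534942735) (l 534949647)) (l 534898703)) (b (l 534959375) (l 534912271))))))), by decide +kernel⟩

def k9_B00pp_012_s1 : ∃ t, chk3 f_B00pp_012_s1 t 19 14 1 = true :=
  ⟨(b (a (a (b (c (a (l 535683087) (l 535689999)) (a (l 535232783) (l 535247887))) (b (a (l 535375119) (c (l 535599375) (l 535172623))) (a (c (l 535535119) (l 535110159)) (c (l 535541263) (l 535124239))))) (b (b (c (l 535731727) (l 535295759)) (a (l 535452175) (l 535464719))) (b (c (l 535608847) (l 535595791)) (c (l 535550479) (l 535143951))))) (a (b (c (a (l 535716111) (l 535726863)) (a (l 535295247) (l 535311887))) (c (b (l 535626767) (l 535565839)) (b (l 535223823) (l 535441167)))) (b (a (l 535803407) (l 535550735)) (a (c (l 535620367) (l 535228431)) (l 535703055))))) (a (a (b (a (b (c (l 535481359) (l 535064591)) (l 535190543)) (b (l 535283983) (l 535235087))) (b (a (c (l 535372303) (l 534973199))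 (l 535184911)) (l 3))) (b (b (a (l 535294991) (l 535305999)) (a (l 535246095) (l 535257359))) (b (a (l 535196175) (l 3)) (l 3)))) (b (a (c (a (l 535483919) (l 535496463)) (a (l 535098383) (l 535115535))) (b (c (a (l 535523087) (l 535524111)) (a (l 535147535) (l 535156495))) (l 3))) (l 3)))), by decide +kernel⟩

def k10_B00pp_012_s1 : ∃ t, chk3 f_B00pp_012_s1 t 4 15 1 = true :=
  ⟨(a (a (l 14) (a (l 14) (a (l 14) (a (l 14) (a (l 14) (b (a (l 14) (a (l 14) (b (b (l 534984975) (l 535198223)) (l 3)))) (l 3))))))) (a (a (b (a (b (c (b (a (l 535208207) (l 535213327)) (a (a (l 535144463) (l 535147023)) (a (l 535149327) (l 535151631)))) (b (a (a (l 534767887) (l 534774543)) (a (l 534780943) (l 534787599))) (a (a (l 534719247) (l 534725903)) (a (l 534732303) (l 534738959))))) (l 3)) (a (b (a (b (c (l 535218191) (l 534794255)) (c (l 535153935) (l 534745615))) (b (c (l 535220495) (l 534800911)) (l 3))) (l 3)) (b (b (b (c (l 535239439) (l 534822159))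 (b (c (l 535215887) (l 534804495)) (l 3))) (l 3)) (l 3)))) (l 3)) (a (a (b (b (b (b (c (a (l 535243791) (l 534978063)) (a (l 534833167) (a (l 534838543) (l 534841871)))) (l 3)) (l 3)) (l 3)) (l 3)) (b (l 3) (l 3))) (l 3))) (l 3))), by decide +kernel⟩

def k11_B00pp_012_s1 : ∃ t, chk3 f_B00pp_012_s1 t 5 7 1 = true :=
  ⟨(a (b (b (a (a (b (a (b (l 535601167) (l 535538959)) (b (l 535618063) (l 535551759))) (a (c (l 535626767) (l 535253519)) (c (l 535624207) (l 535268367)))) (b (a (c (l 535771663) (l 535406607)) (c (l 535763727) (l 535416591))) (a (c (l 535614991) (l 535277327)) (l 3)))) (a (b (c (l 536004367) (l 535418127)) (l 3)) (l 3))) (l 3)) (l 3)) (l 3)), by decide +kernel⟩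

def k12_B00pp_012_s1 : ∃ t, chk3 f_B00pp_012_s1 t 3 7 1 = true :=
  ⟨(l 3), by decide +kernel⟩

theorem t13_B00pp_012_s1 : ∃ t, chk3 f_B00pp_012_s1 t 18 14 1 = true := ex3_a k7_B00pp_012_s1 k8_B00pp_012_s1

theorem t14_B00pp_012_s1 : ∃ t, chk3 f_B00pp_012_s1 t 9 14 1 = true := ex3_a t13_B00pp_012_s1 k9_B00pp_012_s1

theorem t15_B00pp_012_s1 : ∃ t, chk3 f_B00pp_012_s1 t 4 14 1 = true := ex3_a k6_B00pp_012_s1 t14_B00pp_012_s1

theorem t16_B00pp_012_s1 : ∃ t, chk3 f_B00pp_012_s1 t 4 7 1 = true := ex3_b t15_B00pp_012_s1 k10_B00pp_012_s1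

theorem t17_B00pp_012_s1 : ∃ t, chk3 f_B00pp_012_s1 t 2 7 1 = true := ex3_a t16_B00pp_012_s1 k11_B00pp_012_s1

theorem t18_B00pp_012_s1 : ∃ t, chk3 f_B00pp_012_s1 t 1 7 1 = true := ex3_a t17_B00pp_012_s1 k12_B00pp_012_s1

theorem t19_B00pp_012_s1 : ∃ t, chk3 f_B00pp_012_s1 t 2 6 1 = true := ex3_a k3_B00pp_012_s1 k4_B00pp_012_s1

theorem t20_B00pp_012_s1 : ∃ t, chk3 f_B00pp_012_s1 t 1 6 1 = true := ex3_a t19_B00pp_012_s1 k5_B00pp_012_s1

theorem t21_B00pp_012_s1 : ∃ t, chk3 f_B00pp_012_s1 t 1 3 1 = true := ex3_b t20_B00pp_012_s1 t18_B00pp_012_s1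

theorem t22_B00pp_012_s1 : ∃ t, chk3 f_B00pp_012_s1 t 3 2 1 = true := ex3_a k1_B00pp_012_s1 k2_B00pp_012_s1

theorem t23_B00pp_012_s1 : ∃ t, chk3 f_B00pp_012_s1 t 1 2 1 = true := ex3_a k0_B00pp_012_s1 t22_B00pp_012_s1

theorem t24_B00pp_012_s1 : ∃ t, chk3 f_B00pp_012_s1 t 1 1 1 = true := ex3_b t23_B00pp_012_s1 t21_B00pp_012_s1

theorem c_B00pp_012_s1 : CertF 0 536870912 0 536870912 201326592 134217728 false true true .pnp 0 1 2
    ndF0q0 ndF0q2 pcF1 cut_B00pp_012_s1 xt_B00pp_012_s1 :=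
  certFK0 (fam := false) (s1 := true) (s2 := true) (a := 0) (b := 1) (c := 2) (cn := .pnp) (n1 := ndF0q0) (n2 := ndF0q2) (pc := pcF1) (cut := cut_B00pp_012_s1) (xt := xt_B00pp_012_s1) (P1 := 0) (W1 := 536870912) (P2 := 0) (W2 := 536870912) (P3 := 201326592) (W3 := 134217728)
    rfl rfl rfl t24_B00pp_012_s1

theorem s_B00pp_012_s1 {κ x : ℝ} (hκ : κ * h0 = ken x) (hx : ((201326592 : ℕ) : ℝ) / S ≤ x)
    (hx' : x ≤ (((201326592 : ℕ) : ℝ) + (134217728 : ℕ)) / S)
    (H : CutB (VF κ) PP tKF tL pcF (Cut.of [[⟨0, 0, 0, 67108864⟩, ⟨1, 1, 0, 67108864⟩, ⟨2, 1, 0, 67108864⟩]]) 0 1 2 0 0 (sgb true) (sgb true) x) :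
    AltB (VF κ) PP tKF tL pcF [⟨3, 0, 0, 1449551462⟩] 0 1 2 0 0 (sgb true) (sgb true) x :=
  strip_altB (m := 1449551462) true rfl hκ covF00 covF02 hx hx' c_B00pp_012_s1 H ((okx hx hx').extB (T := tt) (sideF hx hx') hκ rfl rfl (.O 0 true) (.O 2 true) (Or.inr rfl))

noncomputable def cut_B00pp_012_s3 : Cut := Cut.of [[⟨3, 0, 0, 2845415833⟩], [⟨0, 0, 0, 67108864⟩, ⟨1, 1, 0, 67108864⟩, ⟨2, 1, 0, 67108864⟩]]

noncomputable def f_B00pp_012_s3 : ℕ → ℕ → ℕ → ℕ → Bool := onCell 0 536870912 0 536870912 201326592 134217728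
    (rowFK 0 false true true .pnp 0 1 2 (qsf 0 536870912 0 536870912 1) ndF0q0 ndF0q2 pcF1 cut_B00pp_012_s3 Ext.none)

def k0_B00pp_012_s3 : ∃ t, chk3 f_B00pp_012_s3 t 1 1 1 = true :=
  ⟨(l 6), by decide +kernel⟩

theorem c_B00pp_012_s3 : CertF 0 536870912 0 536870912 201326592 134217728 false true true .pnp 0 1 2
    ndF0q0 ndF0q2 pcF1 cut_B00pp_012_s3 Ext.none :=
  certFK0 (fam := false) (s1 := true) (s2 := true) (a := 0) (b := 1) (c := 2) (cn := .pnp) (n1 := ndF0q0) (n2 := ndF0q2) (pc := pcF1) (cut := cut_B00pp_012_s3) (xt := Ext.none) (P1 := 0) (W1 := 536870912) (P2 := 0) (W2 := 536870912) (P3 := 201326592) (W3 := 134217728)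
    rfl rfl rfl k0_B00pp_012_s3

theorem s_B00pp_012_s3 {κ x : ℝ} (hκ : κ * h0 = ken x) (hx : ((201326592 : ℕ) : ℝ) / S ≤ x)
    (hx' : x ≤ (((201326592 : ℕ) : ℝ) + (134217728 : ℕ)) / S)
    (H : CutB (VF κ) PP tKF tL pcF (Cut.of [[⟨0, 0, 0, 67108864⟩, ⟨1, 1, 0, 67108864⟩, ⟨2, 1, 0, 67108864⟩]]) 0 1 2 0 0 (sgb true) (sgb true) x) :
    AltB (VF κ) PP tKF tL pcF [⟨4, 0, 0, 2845415833⟩] 0 1 2 0 0 (sgb true) (sgb true) x :=
  strip_altB (m := 2845415833) false rfl hκ covF00 covF02 hx hx' c_B00pp_012_s3 H (noExt_B)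

noncomputable def cut_B00pp_022_s1 : Cut := Cut.of [[⟨4, 0, 0, 1449551462⟩], [⟨0, 0, 0, 67108864⟩, ⟨1, 1, 0, 67108864⟩, ⟨2, 1, 0, 67108864⟩]]

noncomputable def f_B00pp_022_s1 : ℕ → ℕ → ℕ → ℕ → Bool := onCell 1073741824 536870912 0 536870912 201326592 134217728
    (rowFK 2 false true true .pp 0 2 2 (qsf 0 536870912 0 536870912 2) ndF0q0 ndF0q2 pcF2 cut_B00pp_022_s1 Ext.none)

def k0_B00pp_022_s1 : ∃ t, chk3 f_B00pp_022_s1 t 2 2 1 = true :=
  ⟨(a (b (l 6) (a (b (l 6) (a (b (l 6) (a (b (l 16641160) (l 16629368)) (c (l 16634800) (l 16634760)))) (l 6))) (l 6))) (l 6)), by decide +kernel⟩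

def k1_B00pp_022_s1 : ∃ t, chk3 f_B00pp_022_s1 t 8 6 1 = true :=
  ⟨(a (b (c (b (a (b (l 16640112) (a (l 16651288) (l 16665024))) (l 16629600)) (a (b (a (l 16647936) (l 16651504)) (a (b (l 16654272) (l 16659904)) (l 16651632))) (b (l 16643872) (a (l 16657376) (l 16652352))))) (b (a (b (l 16636504) (a (l 16648832) (l 16663960))) (l 16630904)) (a (b (a (b (l 16656008) (l 16651072)) (l 16653560)) (a (b (l 16655736) (l 16659336)) (l 16652680))) (b (l 16645576) (a (l 16658064) (l 16652760)))))) (a (b (c (a (a (b (b (l 16667696) (l 16673320)) (b (l 16678872) (l 16679104))) (b (l 16666176) (a (l 16678144) (l 16675840)))) (b (l 16659712) (l 16670112))) (a (b (a (c (l 16669840) (l 16669496)) (l 16665568)) (a (b (l 16672600) (l 16677968)) (l 16676208))) (b (l 16660360) (l 16669736)))) (c (a (b (a (b (l 16684496) (l 16689808)) (l 16687504)) (a (b (l 16695008) (l 16700120)) (l 16697648))) (b (l 16680200) (l 16689936))) (a (b (a (b (l 16683272) (l 16688504))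 (a (l 16687712) (l 16685432))) (b (a (b (l 16687128) (l 16689680)) (l 16694144)) (a (c (l 16699048) (l 16698400)) (l 16699096)))) (b (l 16679728) (l 16689424))))) (b (b (a (b (l 16663680) (l 16667904)) (l 16650584)) (a (c (l 16674264) (l 16674824)) (l 16659656))) (b (c (l 16671280) (l 16671512)) (a (l 16683408) (l 16679528)))))) (b (b (a (b (l 16635672) (l 16645016)) (c (l 16628808) (l 16632088))) (a (b (l 16634152) (c (l 16644360) (l 16644480))) (a (l 16630848) (l 16625256)))) (b (b (a (a (l 16656128) (l 16650992)) (c (l 16664200) (l 16642616))) (a (c (l 16663336) (l 16662888)) (c (l 16653552) (l 16652576)))) (a (b (b (l 16670608) (l 16675776)) (c (l 16684272) (l 16683320))) (b (a (l 16645184) (l 16640248)) (a (l 16656176) (l 16651472))))))), by decide +kernel⟩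

def k2_B00pp_022_s1 : ∃ t, chk3 f_B00pp_022_s1 t 9 6 1 = true :=
  ⟨(b (a (b (l 6) (a (c (l 16616456) (l 16616960)) (c (l 16625944) (l 16605544)))) (l 6)) (a (b (a (b (l 16631680) (l 16642392)) (b (c (l 16599168) (l 16598312)) (a (l 16612928) (l 16607088)))) (a (b (l 16648296) (a (l 16646616) (l 16641584))) (b (a (l 16624440) (l 1)) (l 1)))) (a (b (b (b (l 6) (l 16610192)) (l 1)) (l 1)) (l 1)))), by decide +kernel⟩

def k3_B00pp_022_s1 : ∃ t, chk3 f_B00pp_022_s1 t 4 7 1 = true :=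
  ⟨(a (a (b (a (b (a (a (c (b (b (l 16705144) (c (l 16705232) (l 16709712))) (b (a (l 16711128) (l 16708304)) (l 14))) (b (a (b (l 16699728) (l 16704696)) (b (l 16697232) (l 16702144))) (b (a (l 16709616) (l 16707008)) (l 14)))) (b (b (l 16699232) (c (l 16699344) (l 16708800))) (c (l 16716904) (b (l 16713568) (l 14))))) (b (b (l 16696720) (l 16701344)) (b (l 16705904) (l 14)))) (l 14)) (b (a (b (c (l 16704320) (l 16704512)) (a (l 16705816) (l 16704152))) (b (c (l 16700968) (l 16700536)) (c (l 16712360) (l 16711608)))) (l 14))) (l 14)) (b (b (a (b (b (l 16681616) (l 16687288)) (b (l 16693056) (l 14))) (b (a (l 16667640) (l 16663144)) (a (l 16679464) (a (l 16676240) (l 16674040))))) (a (l 14) (a (l 14) (a (l 14) (l 1))))) (a (l 14) (l 1)))) (a (b (b (a (b (a (l 16658496) (l 16653664)) (c (l 16670232) (l 16666352))) (l 1)) (l 1)) (l 1)) (l 1))), by decide +kernel⟩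

def k4_B00pp_022_s1 : ∃ t, chk3 f_B00pp_022_s1 t 5 3 1 = true :=
  ⟨(b (l 1) (l 1)), by decide +kernel⟩

def k5_B00pp_022_s1 : ∃ t, chk3 f_B00pp_022_s1 t 3 1 1 = true :=
  ⟨(l 1), by decide +kernel⟩

theorem t6_B00pp_022_s1 : ∃ t, chk3 f_B00pp_022_s1 t 4 6 1 = true := ex3_a k1_B00pp_022_s1 k2_B00pp_022_s1

theorem t7_B00pp_022_s1 : ∃ t, chk3 f_B00pp_022_s1 t 4 3 1 = true := ex3_b t6_B00pp_022_s1 k3_B00pp_022_s1

theorem t8_B00pp_022_s1 : ∃ t, chk3 f_B00pp_022_s1 t 2 3 1 = true := ex3_a t7_B00pp_022_s1 k4_B00pp_022_s1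

theorem t9_B00pp_022_s1 : ∃ t, chk3 f_B00pp_022_s1 t 2 1 1 = true := ex3_b k0_B00pp_022_s1 t8_B00pp_022_s1

theorem t10_B00pp_022_s1 : ∃ t, chk3 f_B00pp_022_s1 t 1 1 1 = true := ex3_a t9_B00pp_022_s1 k5_B00pp_022_s1

theorem c_B00pp_022_s1 : CertF 0 536870912 0 536870912 201326592 134217728 false true true .pp 0 2 2
    ndF0q0 ndF0q2 pcF2 cut_B00pp_022_s1 Ext.none :=
  certFK2 (fam := false) (s1 := true) (s2 := true) (a := 0) (b := 2) (c := 2) (cn := .pp) (n1 := ndF0q0) (n2 := ndF0q2) (pc := pcF2) (cut := cut_B00pp_022_s1) (xt := Ext.none) (P1 := 0) (W1 := 536870912) (P2 := 0) (W2 := 536870912) (P3 := 201326592) (W3 := 134217728)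
    rfl rfl rfl (fun _ => rfl) t10_B00pp_022_s1

theorem s_B00pp_022_s1 {κ x : ℝ} (hκ : κ * h0 = ken x) (hx : ((201326592 : ℕ) : ℝ) / S ≤ x)
    (hx' : x ≤ (((201326592 : ℕ) : ℝ) + (134217728 : ℕ)) / S)
    (H : CutB (VF κ) PP tKF tL pcF (Cut.of [[⟨0, 0, 0, 67108864⟩, ⟨1, 1, 0, 67108864⟩, ⟨2, 1, 0, 67108864⟩]]) 0 2 2 0 0 (sgb true) (sgb true) x) :
    AltB (VF κ) PP tKF tL pcF [⟨3, 0, 0, 1449551462⟩] 0 2 2 0 0 (sgb true) (sgb true) x :=
  strip_altB (m := 1449551462) true rfl hκ covF00 covF02 hx hx' c_B00pp_022_s1 H (noExt_B)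

noncomputable def cut_B00pp_022_s3 : Cut := Cut.of [[⟨3, 0, 0, 2845415833⟩], [⟨0, 0, 0, 67108864⟩, ⟨1, 1, 0, 67108864⟩, ⟨2, 1, 0, 67108864⟩]]

noncomputable def f_B00pp_022_s3 : ℕ → ℕ → ℕ → ℕ → Bool := onCell 0 536870912 0 536870912 201326592 134217728
    (rowFK 0 false true true .pp 0 2 2 (qsf 0 536870912 0 536870912 2) ndF0q0 ndF0q2 pcF2 cut_B00pp_022_s3 Ext.none)

def k0_B00pp_022_s3 : ∃ t, chk3 f_B00pp_022_s3 t 1 1 1 = true :=
  ⟨(l 6), by decide +kernel⟩

theorem c_B00pp_022_s3 : CertF 0 536870912 0 536870912 201326592 134217728 false true true .pp 0 2 2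
    ndF0q0 ndF0q2 pcF2 cut_B00pp_022_s3 Ext.none :=
  certFK0 (fam := false) (s1 := true) (s2 := true) (a := 0) (b := 2) (c := 2) (cn := .pp) (n1 := ndF0q0) (n2 := ndF0q2) (pc := pcF2) (cut := cut_B00pp_022_s3) (xt := Ext.none) (P1 := 0) (W1 := 536870912) (P2 := 0) (W2 := 536870912) (P3 := 201326592) (W3 := 134217728)
    rfl rfl rfl k0_B00pp_022_s3

theorem s_B00pp_022_s3 {κ x : ℝ} (hκ : κ * h0 = ken x) (hx : ((201326592 : ℕ) : ℝ) / S ≤ x)
    (hx' : x ≤ (((201326592 : ℕ) : ℝ) + (134217728 : ℕ)) / S)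
    (H : CutB (VF κ) PP tKF tL pcF (Cut.of [[⟨0, 0, 0, 67108864⟩, ⟨1, 1, 0, 67108864⟩, ⟨2, 1, 0, 67108864⟩]]) 0 2 2 0 0 (sgb true) (sgb true) x) :
    AltB (VF κ) PP tKF tL pcF [⟨4, 0, 0, 2845415833⟩] 0 2 2 0 0 (sgb true) (sgb true) x :=
  strip_altB (m := 2845415833) false rfl hκ covF00 covF02 hx hx' c_B00pp_022_s3 H (noExt_B)

noncomputable def cut_B00pp_101_s1 : Cut := Cut.of [[⟨4, 0, 0, 1449551462⟩]]

noncomputable def f_B00pp_101_s1 : ℕ → ℕ → ℕ → ℕ → Bool := onCell 536870912 536870912 536870912 536870912 201326592 134217728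
    (rowFK 0 false true true .npn 1 0 1 (qsf 536870912 536870912 536870912 536870912 0) ndF0q1 ndF0q1 pcF0 cut_B00pp_101_s1 Ext.none)

def k0_B00pp_101_s1 : ∃ t, chk3 f_B00pp_101_s1 t 1 1 1 = true :=
  ⟨(l 3), by decide +kernel⟩

theorem c_B00pp_101_s1 : CertF 536870912 536870912 536870912 536870912 201326592 134217728 false true true .npn 1 0 1
    ndF0q1 ndF0q1 pcF0 cut_B00pp_101_s1 Ext.none :=
  certFK0 (fam := false) (s1 := true) (s2 := true) (a := 1) (b := 0) (c := 1) (cn := .npn) (n1 := ndF0q1) (n2 := ndF0q1) (pc := pcF0) (cut := cut_B00pp_101_s1) (xt := Ext.none) (P1 := 536870912) (W1 := 536870912) (P2 := 536870912) (W2 := 536870912) (P3 := 201326592) (W3 := 134217728)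
    rfl rfl rfl k0_B00pp_101_s1

theorem s_B00pp_101_s1 {κ x : ℝ} (hκ : κ * h0 = ken x) (hx : ((201326592 : ℕ) : ℝ) / S ≤ x)
    (hx' : x ≤ (((201326592 : ℕ) : ℝ) + (134217728 : ℕ)) / S) :
    AltB (VF κ) PP tKF tL pcF [⟨3, 0, 0, 1449551462⟩] 1 0 1 0 0 (sgb true) (sgb true) x :=
  strip_altB (m := 1449551462) true rfl hκ covF01 covF01 hx hx' c_B00pp_101_s1 cutB_nil (noExt_B)

noncomputable def cut_B00pp_101_s3 : Cut := Cut.of [[⟨3, 0, 0, 2845415833⟩]]

noncomputable def f_B00pp_101_s3 : ℕ → ℕ → ℕ → ℕ → Bool := onCell 536870912 536870912 536870912 536870912 201326592 134217728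
    (rowFK 0 false true true .npn 1 0 1 (qsf 536870912 536870912 536870912 536870912 0) ndF0q1 ndF0q1 pcF0 cut_B00pp_101_s3 Ext.none)

def k0_B00pp_101_s3 : ∃ t, chk3 f_B00pp_101_s3 t 1 1 1 = true :=
  ⟨(l 3), by decide +kernel⟩

theorem c_B00pp_101_s3 : CertF 536870912 536870912 536870912 536870912 201326592 134217728 false true true .npn 1 0 1
    ndF0q1 ndF0q1 pcF0 cut_B00pp_101_s3 Ext.none :=
  certFK0 (fam := false) (s1 := true) (s2 := true) (a := 1) (b := 0) (c := 1) (cn := .npn) (n1 := ndF0q1) (n2 := ndF0q1) (pc := pcF0) (cut := cut_B00pp_101_s3) (xt := Ext.none) (P1 := 536870912) (W1 := 536870912) (P2 := 536870912) (W2 := 536870912) (P3 := 201326592) (W3 := 134217728)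
    rfl rfl rfl k0_B00pp_101_s3

theorem s_B00pp_101_s3 {κ x : ℝ} (hκ : κ * h0 = ken x) (hx : ((201326592 : ℕ) : ℝ) / S ≤ x)
    (hx' : x ≤ (((201326592 : ℕ) : ℝ) + (134217728 : ℕ)) / S) :
    AltB (VF κ) PP tKF tL pcF [⟨4, 0, 0, 2845415833⟩] 1 0 1 0 0 (sgb true) (sgb true) x :=
  strip_altB (m := 2845415833) false rfl hκ covF01 covF01 hx hx' c_B00pp_101_s3 cutB_nil (noExt_B)

noncomputable def cut_B00pp_102_s1 : Cut := Cut.of [[⟨4, 0, 0, 1449551462⟩]]

noncomputable def f_B00pp_102_s1 : ℕ → ℕ → ℕ → ℕ → Bool := onCell 0 536870912 0 536870912 201326592 134217728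
    (rowFK 2 false true true .npp 1 0 2 (qsf 536870912 536870912 0 536870912 0) ndF0q1 ndF0q2 pcF0 cut_B00pp_102_s1 Ext.none)

def k0_B00pp_102_s1 : ∃ t, chk3 f_B00pp_102_s1 t 1 1 1 = true :=
  ⟨(a (b (l 3) (l 3)) (l 3)), by decide +kernel⟩

theorem c_B00pp_102_s1 : CertF 536870912 536870912 0 536870912 201326592 134217728 false true true .npp 1 0 2
    ndF0q1 ndF0q2 pcF0 cut_B00pp_102_s1 Ext.none :=
  certFK2 (fam := false) (s1 := true) (s2 := true) (a := 1) (b := 0) (c := 2) (cn := .npp) (n1 := ndF0q1) (n2 := ndF0q2) (pc := pcF0) (cut := cut_B00pp_102_s1) (xt := Ext.none) (P1 := 536870912) (W1 := 536870912) (P2 := 0) (W2 := 536870912) (P3 := 201326592) (W3 := 134217728)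
    rfl rfl rfl (fun _ => rfl) k0_B00pp_102_s1

theorem s_B00pp_102_s1 {κ x : ℝ} (hκ : κ * h0 = ken x) (hx : ((201326592 : ℕ) : ℝ) / S ≤ x)
    (hx' : x ≤ (((201326592 : ℕ) : ℝ) + (134217728 : ℕ)) / S) :
    AltB (VF κ) PP tKF tL pcF [⟨3, 0, 0, 1449551462⟩] 1 0 2 0 0 (sgb true) (sgb true) x :=
  strip_altB (m := 1449551462) true rfl hκ covF01 covF02 hx hx' c_B00pp_102_s1 cutB_nil (noExt_B)

noncomputable def cut_B00pp_102_s3 : Cut := Cut.of [[⟨3, 0, 0, 2845415833⟩]]

noncomputable def f_B00pp_102_s3 : ℕ → ℕ → ℕ → ℕ → Bool := onCell 536870912 536870912 0 536870912 201326592 134217728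
    (rowFK 0 false true true .npp 1 0 2 (qsf 536870912 536870912 0 536870912 0) ndF0q1 ndF0q2 pcF0 cut_B00pp_102_s3 Ext.none)

def k0_B00pp_102_s3 : ∃ t, chk3 f_B00pp_102_s3 t 1 1 1 = true :=
  ⟨(l 6), by decide +kernel⟩

theorem c_B00pp_102_s3 : CertF 536870912 536870912 0 536870912 201326592 134217728 false true true .npp 1 0 2
    ndF0q1 ndF0q2 pcF0 cut_B00pp_102_s3 Ext.none :=
  certFK0 (fam := false) (s1 := true) (s2 := true) (a := 1) (b := 0) (c := 2) (cn := .npp) (n1 := ndF0q1) (n2 := ndF0q2) (pc := pcF0) (cut := cut_B00pp_102_s3) (xt := Ext.none) (P1 := 536870912) (W1 := 536870912) (P2 := 0) (W2 := 536870912) (P3 := 201326592) (W3 := 134217728)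
    rfl rfl rfl k0_B00pp_102_s3

theorem s_B00pp_102_s3 {κ x : ℝ} (hκ : κ * h0 = ken x) (hx : ((201326592 : ℕ) : ℝ) / S ≤ x)
    (hx' : x ≤ (((201326592 : ℕ) : ℝ) + (134217728 : ℕ)) / S) :
    AltB (VF κ) PP tKF tL pcF [⟨4, 0, 0, 2845415833⟩] 1 0 2 0 0 (sgb true) (sgb true) x :=
  strip_altB (m := 2845415833) false rfl hκ covF01 covF02 hx hx' c_B00pp_102_s3 cutB_nil (noExt_B)

noncomputable def cut_B00pp_112_s1 : Cut := Cut.of [[⟨4, 0, 0, 1449551462⟩]]

noncomputable def xt_B00pp_112_s1 : Ext := strExt dd false true true .u0 .u2 .u0m .dn 1 1 2 rfl rfl gf1 vv ndF0q1 ndF0q2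

noncomputable def f_B00pp_112_s1 : ℕ → ℕ → ℕ → ℕ → Bool := onCell 536870912 536870912 0 536870912 201326592 134217728
    (rowFK 0 false true true .dn 1 1 2 (qsf 536870912 536870912 0 536870912 1) ndF0q1 ndF0q2 pcF1 cut_B00pp_112_s1 xt_B00pp_112_s1)

def k0_B00pp_112_s1 : ∃ t, chk3 f_B00pp_112_s1 t 1 1 1 = true :=
  ⟨(a (b (a (a (b (b (a (a (b (l 540580367) (c (l 541606927) (l 539826959))) (b (l 540731919) (l 540847631))) (b (l 540992015) (l 541117455))) (a (b (a (b (l 540796943) (l 3)) (l 3)) (l 3)) (l 3))) (l 3)) (b (b (b (l 541651471) (l 3)) (l 3)) (l 3))) (l 3)) (l 3)) (l 1)), by decide +kernel⟩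

theorem c_B00pp_112_s1 : CertF 536870912 536870912 0 536870912 201326592 134217728 false true true .dn 1 1 2
    ndF0q1 ndF0q2 pcF1 cut_B00pp_112_s1 xt_B00pp_112_s1 :=
  certFK0 (fam := false) (s1 := true) (s2 := true) (a := 1) (b := 1) (c := 2) (cn := .dn) (n1 := ndF0q1) (n2 := ndF0q2) (pc := pcF1) (cut := cut_B00pp_112_s1) (xt := xt_B00pp_112_s1) (P1 := 536870912) (W1 := 536870912) (P2 := 0) (W2 := 536870912) (P3 := 201326592) (W3 := 134217728)
    rfl rfl rfl k0_B00pp_112_s1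

theorem s_B00pp_112_s1 {κ x : ℝ} (hκ : κ * h0 = ken x) (hx : ((201326592 : ℕ) : ℝ) / S ≤ x)
    (hx' : x ≤ (((201326592 : ℕ) : ℝ) + (134217728 : ℕ)) / S) :
    AltB (VF κ) PP tKF tL pcF [⟨3, 0, 0, 1449551462⟩] 1 1 2 0 0 (sgb true) (sgb true) x :=
  strip_altB (m := 1449551462) true rfl hκ covF01 covF02 hx hx' c_B00pp_112_s1 cutB_nil ((okx hx hx').extB (T := tt) (sideF hx hx') hκ rfl rfl (.O 1 true) (.O 2 true) (Or.inr rfl))

noncomputable def cut_B00pp_112_s3 : Cut := Cut.of [[⟨3, 0, 0, 2845415833⟩]]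

noncomputable def f_B00pp_112_s3 : ℕ → ℕ → ℕ → ℕ → Bool := onCell 536870912 536870912 0 536870912 201326592 134217728
    (rowFK 0 false true true .dn 1 1 2 (qsf 536870912 536870912 0 536870912 1) ndF0q1 ndF0q2 pcF1 cut_B00pp_112_s3 Ext.none)

def k0_B00pp_112_s3 : ∃ t, chk3 f_B00pp_112_s3 t 1 1 1 = true :=
  ⟨(l 6), by decide +kernel⟩

theorem c_B00pp_112_s3 : CertF 536870912 536870912 0 536870912 201326592 134217728 false true true .dn 1 1 2
    ndF0q1 ndF0q2 pcF1 cut_B00pp_112_s3 Ext.none :=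
  certFK0 (fam := false) (s1 := true) (s2 := true) (a := 1) (b := 1) (c := 2) (cn := .dn) (n1 := ndF0q1) (n2 := ndF0q2) (pc := pcF1) (cut := cut_B00pp_112_s3) (xt := Ext.none) (P1 := 536870912) (W1 := 536870912) (P2 := 0) (W2 := 536870912) (P3 := 201326592) (W3 := 134217728)
    rfl rfl rfl k0_B00pp_112_s3

theorem s_B00pp_112_s3 {κ x : ℝ} (hκ : κ * h0 = ken x) (hx : ((201326592 : ℕ) : ℝ) / S ≤ x)
    (hx' : x ≤ (((201326592 : ℕ) : ℝ) + (134217728 : ℕ)) / S) :
    AltB (VF κ) PP tKF tL pcF [⟨4, 0, 0, 2845415833⟩] 1 1 2 0 0 (sgb true) (sgb true) x :=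
  strip_altB (m := 2845415833) false rfl hκ covF01 covF02 hx hx' c_B00pp_112_s3 cutB_nil (noExt_B)

noncomputable def cut_B00pp_202_s1 : Cut := Cut.of [[⟨4, 0, 0, 1449551462⟩]]

noncomputable def f_B00pp_202_s1 : ℕ → ℕ → ℕ → ℕ → Bool := onCell 0 536870912 0 536870912 201326592 134217728
    (rowFK 0 false true true .pp 2 0 2 (qsf 0 536870912 0 536870912 0) ndF0q2 ndF0q2 pcF0 cut_B00pp_202_s1 Ext.none)

def k0_B00pp_202_s1 : ∃ t, chk3 f_B00pp_202_s1 t 1 1 1 = true :=
  ⟨(l 3), by decide +kernel⟩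

theorem c_B00pp_202_s1 : CertF 0 536870912 0 536870912 201326592 134217728 false true true .pp 2 0 2
    ndF0q2 ndF0q2 pcF0 cut_B00pp_202_s1 Ext.none :=
  certFK0 (fam := false) (s1 := true) (s2 := true) (a := 2) (b := 0) (c := 2) (cn := .pp) (n1 := ndF0q2) (n2 := ndF0q2) (pc := pcF0) (cut := cut_B00pp_202_s1) (xt := Ext.none) (P1 := 0) (W1 := 536870912) (P2 := 0) (W2 := 536870912) (P3 := 201326592) (W3 := 134217728)
    rfl rfl rfl k0_B00pp_202_s1

theorem s_B00pp_202_s1 {κ x : ℝ} (hκ : κ * h0 = ken x) (hx : ((201326592 : ℕ) : ℝ) / S ≤ x)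
    (hx' : x ≤ (((201326592 : ℕ) : ℝ) + (134217728 : ℕ)) / S) :
    AltB (VF κ) PP tKF tL pcF [⟨3, 0, 0, 1449551462⟩] 2 0 2 0 0 (sgb true) (sgb true) x :=
  strip_altB (m := 1449551462) true rfl hκ covF02 covF02 hx hx' c_B00pp_202_s1 cutB_nil (noExt_B)

noncomputable def cut_B00pp_202_s3 : Cut := Cut.of [[⟨3, 0, 0, 2845415833⟩]]

noncomputable def f_B00pp_202_s3 : ℕ → ℕ → ℕ → ℕ → Bool := onCell 0 536870912 0 536870912 201326592 134217728
    (rowFK 0 false true true .pp 2 0 2 (qsf 0 536870912 0 536870912 0) ndF0q2 ndF0q2 pcF0 cut_B00pp_202_s3 Ext.none)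

def k0_B00pp_202_s3 : ∃ t, chk3 f_B00pp_202_s3 t 1 1 1 = true :=
  ⟨(l 3), by decide +kernel⟩

theorem c_B00pp_202_s3 : CertF 0 536870912 0 536870912 201326592 134217728 false true true .pp 2 0 2
    ndF0q2 ndF0q2 pcF0 cut_B00pp_202_s3 Ext.none :=
  certFK0 (fam := false) (s1 := true) (s2 := true) (a := 2) (b := 0) (c := 2) (cn := .pp) (n1 := ndF0q2) (n2 := ndF0q2) (pc := pcF0) (cut := cut_B00pp_202_s3) (xt := Ext.none) (P1 := 0) (W1 := 536870912) (P2 := 0) (W2 := 536870912) (P3 := 201326592) (W3 := 134217728)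
    rfl rfl rfl k0_B00pp_202_s3

theorem s_B00pp_202_s3 {κ x : ℝ} (hκ : κ * h0 = ken x) (hx : ((201326592 : ℕ) : ℝ) / S ≤ x)
    (hx' : x ≤ (((201326592 : ℕ) : ℝ) + (134217728 : ℕ)) / S) :
    AltB (VF κ) PP tKF tL pcF [⟨4, 0, 0, 2845415833⟩] 2 0 2 0 0 (sgb true) (sgb true) x :=
  strip_altB (m := 2845415833) false rfl hκ covF02 covF02 hx hx' c_B00pp_202_s3 cutB_nil (noExt_B)

noncomputable def cut_B00pm_001_s1 : Cut := Cut.of [[⟨4, 0, 0, 1449551462⟩]]

noncomputable def f_B00pm_001_s1 : ℕ → ℕ → ℕ → ℕ → Bool := onCell 0 536870912 536870912 536870912 201326592 134217728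
    (rowFK 0 false true false .up 0 0 1 (qsf 0 536870912 536870912 536870912 0) ndF0q0 ndF0q1 pcF0 cut_B00pm_001_s1 Ext.none)

def k0_B00pm_001_s1 : ∃ t, chk3 f_B00pm_001_s1 t 1 1 1 = true :=
  ⟨(l 6), by decide +kernel⟩

theorem c_B00pm_001_s1 : CertF 0 536870912 536870912 536870912 201326592 134217728 false true false .up 0 0 1
    ndF0q0 ndF0q1 pcF0 cut_B00pm_001_s1 Ext.none :=
  certFK0 (fam := false) (s1 := true) (s2 := false) (a := 0) (b := 0) (c := 1) (cn := .up) (n1 := ndF0q0) (n2 := ndF0q1) (pc := pcF0) (cut := cut_B00pm_001_s1) (xt := Ext.none) (P1 := 0) (W1 := 536870912) (P2 := 536870912) (W2 := 536870912) (P3 := 201326592) (W3 := 134217728)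
    rfl rfl rfl k0_B00pm_001_s1

theorem s_B00pm_001_s1 {κ x : ℝ} (hκ : κ * h0 = ken x) (hx : ((201326592 : ℕ) : ℝ) / S ≤ x)
    (hx' : x ≤ (((201326592 : ℕ) : ℝ) + (134217728 : ℕ)) / S) :
    AltB (VF κ) PP tKF tL pcF [⟨3, 0, 0, 1449551462⟩] 0 0 1 0 0 (sgb true) (sgb false) x :=
  strip_altB (m := 1449551462) true rfl hκ covF00 covF01 hx hx' c_B00pm_001_s1 cutB_nil (noExt_B)

noncomputable def cut_B00pm_001_s3 : Cut := Cut.of [[⟨3, 0, 0, 2845415833⟩]]

noncomputable def xt_B00pm_001_s3 : Ext := strExt dd false true false .u0 .u0m .s0m .up 0 0 1 rfl rfl gl0 vv ndF0q0 ndF0q1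

noncomputable def f_B00pm_001_s3 : ℕ → ℕ → ℕ → ℕ → Bool := onCell 0 536870912 0 536870912 201326592 134217728
    (rowFK 1 false true false .up 0 0 1 (qsf 0 536870912 536870912 536870912 0) ndF0q0 ndF0q1 pcF0 cut_B00pm_001_s3 xt_B00pm_001_s3)

def k0_B00pm_001_s3 : ∃ t, chk3 f_B00pm_001_s3 t 2 1 1 = true :=
  ⟨(l 4), by decide +kernel⟩

def k1_B00pm_001_s3 : ∃ t, chk3 f_B00pm_001_s3 t 6 1 1 = true :=
  ⟨(b (l 4) (b (l 4) (a (b (l 4) (a (l 4) (a (l 4) (a (l 4) (b (l 4) (a (l 4) (b (l 4) (b (l 4) (c (l 550325263) (c (l 547995151) (b (l 546616079) (l 546058255)))))))))))) (b (a (l 4) (a (b (l 4) (c (l 546877711) (b (l 544285455) (l 544581647)))) (c (b (b (c (l 546548239) (l 545504271)) (l 546148111)) (c (l 546880783) (l 545957903))) (b (b (a (l 4) (b (l 4) (l 543699727))) (l 543869199)) (c (l 545381647) (b (l 543433231) (l 543721999))))))) (b (a (c (c (l 548823055) (c (l 547970575) (l 547327759))) (a (b (l 4) (c (l 546637327) (l 544720655)))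 (c (b (l 545894927) (l 546421263)) (b (l 544388623) (c (l 545292815) (l 544482063)))))) (a (c (c (l 548026383) (l 547094287)) (c (b (l 545655311) (l 546177039)) (b (l 544260367) (c (l 545142031) (l 544387087))))) (c (b (l 546904335) (l 547160591)) (c (b (l 545394703) (l 545905935)) (b (l 544113423) (c (l 544966671) (l 544269327))))))) (c (a (c (b (l 549471503) (b (l 549597199) (l 549750287))) (b (l 549110031) (b (l 549053199) (l 548302607)))) (b (a (l 547970063) (l 547314959)) (a (c (l 548768783) (l 547728655)) (b (l 547553295) (l 547768847))))) (c (a (b (a (l 545969935) (l 547096079)) (a (b (l 547931663) (l 547068943)) (l 547144207))) (b (a (l 546844431) (l 546557967)) (a (l 546999055) (b (l 546413839) (l 546338575))))) (a (b (a (b (l 545454607) (c (l 546263055) (l 545098767))) (b (l 545367055) (l 544932879))) (a (a (b (l 545984783) (b (l 546598671) (l 546311439))) (b (l 545681423) (l 545617167))) (c (l 546542095) (b (l 545730063) (l 545666575)))))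 (b (b (b (l 544020239) (l 543928079)) (b (l 544115727) (l 544046863))) (a (b (l 544975119) (l 545185807)) (c (l 545993999) (l 544969743)))))))))))), by decide +kernel⟩

def k2_B00pm_001_s3 : ∃ t, chk3 f_B00pm_001_s3 t 14 2 1 = true :=
  ⟨(l 4), by decide +kernel⟩

def k3_B00pm_001_s3 : ∃ t, chk3 f_B00pm_001_s3 t 14 6 1 = true :=
  ⟨(b (a (l 4) (c (b (a (l 4) (a (l 4) (b (l 4) (l 544899343)))) (b (a (l 4) (a (l 545021199) (l 544846607))) (a (l 545145359) (l 544783631)))) (b (b (l 4) (a (l 4) (a (l 4) (l 542968079)))) (b (a (l 4) (c (l 543473935) (a (l 542510351) (l 542414863)))) (c (a (l 543628559) (l 543369999)) (a (l 542570511) (l 542372111))))))) (a (a (b (l 4) (c (c (l 546636303) (b (l 545097231) (l 545093647))) (c (b (l 543993359) (l 544009743)) (b (l 542825487) (c (l 543141391) (l 542540559)))))) (c (b (c (l 545828111) (l 544832271)) (b (l 545228559) (l 545201167))) (c (b (l 544313103) (b (l 543727119) (l 543746063))) (b (b (l 542693391)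 (l 542650383)) (b (l 542630927) (l 542655247)))))) (a (c (b (b (l 545026831) (l 544917007)) (c (l 545216271) (l 544399375))) (c (b (b (l 543550991) (l 543489039)) (b (l 543464719) (l 543480847))) (b (b (l 542503183) (l 542453263)) (b (l 542439695) (l 542465807))))) (c (b (b (l 544653071) (l 544533007)) (c (l 544768015) (l 544045327))) (b (a (b (l 542859791) (l 542803471)) (b (l 542742287) (l 542688271))) (b (l 542731023) (l 542756879))))))), by decide +kernel⟩

def k4_B00pm_001_s3 : ∃ t, chk3 f_B00pm_001_s3 t 14 14 1 = true :=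
  ⟨(a (c (b (b (a (c (l 546079759) (l 545142287)) (l 545225487)) (a (l 545734927) (l 545303823))) (a (b (l 545886735) (l 546111503)) (a (l 546183951) (l 545409039)))) (a (b (c (b (l 544079631) (l 544230927)) (b (c (l 543212815) (l 542606863)) (l 543060751))) (c (b (l 544436239) (l 544726543)) (b (l 543264015) (l 543555343)))) (b (c (b (l 543821071) (l 543957263)) (b (l 542734607) (l 542875407))) (b (a (l 543697935) (l 543578127)) (c (l 544431375) (l 543365135)))))) (b (c (c (b (l 544918543) (l 544917007)) (b (l 544243983) (l 543645967))) (a (c (l 543878927) (b (l 542546959) (l 542682127))) (b (l 542827279) (l 543215631)))) (b (c (a (l 544967439) (l 544481039)) (a (c (l 543859215) (l 542879759)) (c (l 543545615) (l 542664463)))) (c (a (l 545114895) (l 544593679)) (a (c (l 544115727) (l 543156495)) (c (l 543780367) (l 542931215))))))), by decide +kernel⟩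

def k5_B00pm_001_s3 : ∃ t, chk3 f_B00pm_001_s3 t 14 30 1 = true :=
  ⟨(c (b (a (a (l 546413327) (l 545782799)) (a (l 545265167) (a (l 17229400) (b (l 17244672) (l 6))))) (b (b (a (l 546161679) (a (l 17221296) (a (l 17275408) (l 6)))) (a (l 546212367) (a (l 17239872) (a (l 17296128) (l 6))))) (a (c (l 546816271) (l 545917199)) (a (l 545681423) (l 6))))) (a (a (c (b (l 545109007) (l 545604623)) (b (l 543942415) (c (l 544763919) (l 544125967)))) (c (b (l 544796687) (l 545220367)) (b (c (l 544031247) (l 543450639)) (l 542907663)))) (b (b (a (c (l 17123832) (l 543424783)) (l 542287119)) (a (l 542519567) (a (l 543901455) (l 6)))) (b (a (l 543022095) (a (a (l 17204160) (l 6)) (l 6))) (a (l 543271439) (l 6)))))), by decide +kernel⟩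

def k6_B00pm_001_s3 : ∃ t, chk3 f_B00pm_001_s3 t 14 31 1 = true :=
  ⟨(a (b (c (a (c (l 547381263) (l 546316815)) (b (l 546266639) (l 546494991))) (a (c (l 545759247) (c (l 545419279) (l 544515343))) (c (b (l 17171432) (l 545039887)) (l 543281167)))) (a (c (b (l 547111951) (l 547374095)) (c (b (l 545661967) (l 545668623)) (b (l 544893199) (a (l 545417999) (l 544988687))))) (a (c (b (l 546840335) (c (l 17388264) (l 17303048))) (b (c (l 17208872) (l 17186032)) (c (b (l 17231520) (l 17247768)) (c (l 17209600) (l 17200224))))) (a (b (c (l 17328800) (c (l 17232200) (l 17202560))) (c (b (c (l 17416400) (l 17325264)) (c (l 17439512) (a (l 17341584) (l 6)))) (c (b (l 17256672) (a (l 17268552) (l 6))) (b (b (l 17213640) (l 17218688)) (a (b (l 17220744) (l 6)) (l 6)))))) (b (c (b (l 17339624) (a (l 17358824) (l 6))) (c (b (l 17239904) (l 17256328)) (b (l 17208968) (c (l 17224240) (l 17130120))))) (l 6)))))) (b (a (a (c (b (l 17207512) (a (l 17326040)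 (b (l 17336336) (l 6)))) (b (l 544394255) (a (c (l 17232752) (l 17207416)) (a (b (l 17218984) (l 6)) (l 6))))) (a (a (b (c (l 17317176) (l 17215032)) (l 6)) (l 6)) (l 6))) (l 6)) (a (a (l 6) (l 6)) (l 6)))), by decide +kernel⟩

def k7_B00pm_001_s3 : ∃ t, chk3 f_B00pm_001_s3 t 15 2 1 = true :=
  ⟨(b (l 4) (b (a (l 4) (b (a (l 4) (a (l 4) (b (l 4) (l 543223823)))) (c (a (c (l 544612111) (l 544672271)) (l 543997967)) (a (b (l 4) (l 542690319)) (b (l 542536975) (l 542515983)))))) (a (b (a (l 4) (a (l 4) (b (l 4) (l 543612431)))) (c (a (b (l 4) (l 544725775)) (b (l 544477967) (c (l 544860175) (l 544024591)))) (a (b (l 4) (c (l 543369487) (l 542436879))) (b (l 542765583) (c (l 543159567) (l 542268175)))))) (a (c (c (b (l 544642831) (b (l 544590607) (l 544539663))) (b (b (l 543869967) (l 543846415)) (b (l 543806223) (l 543756815)))) (b (b (c (l 543076111) (l 542259215)) (c (l 543040527) (l 542210319))) (b (a (l 542625039) (l 542529551)) (c (l 542940175)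 (l 542092815))))) (c (b (b (l 543995407) (l 543964431)) (c (l 544228623) (l 543500559))) (b (b (c (l 542871823) (l 542090511)) (l 542436111)) (b (a (l 542430479) (l 542327055)) (l 542301967)))))))), by decide +kernel⟩

def k8_B00pm_001_s3 : ∃ t, chk3 f_B00pm_001_s3 t 15 6 1 = true :=
  ⟨(b (a (a (b (c (c (l 546186767) (b (l 544252687) (l 544201231))) (c (b (l 543332367) (l 543280399)) (b (l 542386959) (l 542865167)))) (c (b (l 544551695) (l 544401935)) (b (c (l 543204879) (l 542256399)) (c (l 543101967) (l 542168847))))) (b (c (c (l 545810447) (b (l 543964175) (l 543888399))) (c (b (l 543099151) (l 543030287)) (b (a (l 542252815) (l 542165007)) (l 542134287)))) (c (b (l 544154895) (l 544001807)) (b (c (l 542924559) (l 542042383)) (l 542397199))))) (a (b (c (b (l 544059919) (l 543917071)) (c (b (l 542861839) (l 542755343)) (b (l 542016271) (l 541922319)))) (c (c (l 544010511) (l 543339535)) (c (l 542596879) (b (l 541829647) (l 541750799)))))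 (b (b (c (l 543685647) (l 542202895)) (c (l 543528463) (l 542099215))) (c (l 543290895) (b (l 542002703) (l 541917711)))))) (c (a (b (a (c (l 544561167) (l 543815439)) (c (l 544113935) (l 543460367))) (a (c (l 544309519) (l 543684367)) (c (l 543834127) (l 543311375)))) (b (a (b (l 17053416) (l 17085672)) (l 542985999)) (a (b (l 17159976) (l 17192952)) (b (l 17201000) (l 6))))) (a (b (a (b (l 542563599) (l 542515215)) (b (l 542326031) (l 542279951))) (a (b (l 542499855) (l 542519567)) (b (l 542260751) (l 542271759)))) (a (b (b (l 542088463) (l 542039567)) (c (l 542352911) (l 542176527))) (b (c (l 542151951) (l 541728271)) (b (l 541757711) (l 6))))))), by decide +kernel⟩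

def k9_B00pm_001_s3 : ∃ t, chk3 f_B00pm_001_s3 t 15 7 1 = true :=
  ⟨(b (a (b (b (a (c (l 543946511) (l 542578959)) (c (l 543490831) (l 542321167))) (c (a (l 543943439) (l 17266848)) (a (l 543492367) (c (l 542753295) (l 542034703))))) (a (a (c (b (l 17169272) (l 17225760)) (c (l 543405327) (b (l 17082136) (l 542753039)))) (b (c (l 17194952) (b (l 542735631) (l 541625359))) (l 6))) (l 6))) (a (b (b (c (l 17184920) (l 542590991)) (l 6)) (l 6)) (l 6))) (a (l 6) (l 6))), by decide +kernel⟩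

theorem t10_B00pm_001_s3 : ∃ t, chk3 f_B00pm_001_s3 t 15 3 1 = true := ex3_b k8_B00pm_001_s3 k9_B00pm_001_s3

theorem t11_B00pm_001_s3 : ∃ t, chk3 f_B00pm_001_s3 t 15 1 1 = true := ex3_b k7_B00pm_001_s3 t10_B00pm_001_s3

theorem t12_B00pm_001_s3 : ∃ t, chk3 f_B00pm_001_s3 t 14 15 1 = true := ex3_b k5_B00pm_001_s3 k6_B00pm_001_s3

theorem t13_B00pm_001_s3 : ∃ t, chk3 f_B00pm_001_s3 t 14 7 1 = true := ex3_b k4_B00pm_001_s3 t12_B00pm_001_s3

theorem t14_B00pm_001_s3 : ∃ t, chk3 f_B00pm_001_s3 t 14 3 1 = true := ex3_b k3_B00pm_001_s3 t13_B00pm_001_s3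

theorem t15_B00pm_001_s3 : ∃ t, chk3 f_B00pm_001_s3 t 14 1 1 = true := ex3_b k2_B00pm_001_s3 t14_B00pm_001_s3

theorem t16_B00pm_001_s3 : ∃ t, chk3 f_B00pm_001_s3 t 7 1 1 = true := ex3_a t15_B00pm_001_s3 t11_B00pm_001_s3

theorem t17_B00pm_001_s3 : ∃ t, chk3 f_B00pm_001_s3 t 3 1 1 = true := ex3_a k1_B00pm_001_s3 t16_B00pm_001_s3

theorem t18_B00pm_001_s3 : ∃ t, chk3 f_B00pm_001_s3 t 1 1 1 = true := ex3_a k0_B00pm_001_s3 t17_B00pm_001_s3

theorem c_B00pm_001_s3 : CertF 0 536870912 536870912 536870912 201326592 134217728 false true false .up 0 0 1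
    ndF0q0 ndF0q1 pcF0 cut_B00pm_001_s3 xt_B00pm_001_s3 :=
  certFK1 (fam := false) (s1 := true) (s2 := false) (a := 0) (b := 0) (c := 1) (cn := .up) (n1 := ndF0q0) (n2 := ndF0q1) (pc := pcF0) (cut := cut_B00pm_001_s3) (xt := xt_B00pm_001_s3) (P1 := 0) (W1 := 536870912) (P2 := 536870912) (W2 := 536870912) (P3 := 201326592) (W3 := 134217728)
    rfl rfl rfl (fun _ => rfl) t18_B00pm_001_s3

theorem s_B00pm_001_s3 {κ x : ℝ} (hκ : κ * h0 = ken x) (hx : ((201326592 : ℕ) : ℝ) / S ≤ x)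
    (hx' : x ≤ (((201326592 : ℕ) : ℝ) + (134217728 : ℕ)) / S) :
    AltB (VF κ) PP tKF tL pcF [⟨4, 0, 0, 2845415833⟩] 0 0 1 0 0 (sgb true) (sgb false) x :=
  strip_altB (m := 2845415833) false rfl hκ covF00 covF01 hx hx' c_B00pm_001_s3 cutB_nil ((okx hx hx').extB (T := tt) (sideF hx hx') hκ rfl rfl (.O 0 true) (.O 1 false) (Or.inl rfl))

noncomputable def cut_B00pm_011_s1 : Cut := Cut.of [[⟨4, 0, 0, 1449551462⟩], [⟨0, 0, 0, 67108864⟩, ⟨1, 1, 0, 67108864⟩, ⟨2, 1, 0, 67108864⟩], [⟨0, 0, 1, 67108864⟩, ⟨1, 1, 2, 67108864⟩, ⟨2, 1, 0, 16777216⟩]]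

noncomputable def f_B00pm_011_s1 : ℕ → ℕ → ℕ → ℕ → Bool := onCell 0 536870912 536870912 536870912 201326592 134217728
    (rowFK 0 false true false .pnn 0 1 1 (qsf 0 536870912 536870912 536870912 1) ndF0q0 ndF0q1 pcF1 cut_B00pm_011_s1 Ext.none)

def k0_B00pm_011_s1 : ∃ t, chk3 f_B00pm_011_s1 t 1 1 1 = true :=
  ⟨(l 6), by decide +kernel⟩

theorem c_B00pm_011_s1 : CertF 0 536870912 536870912 536870912 201326592 134217728 false true false .pnn 0 1 1
    ndF0q0 ndF0q1 pcF1 cut_B00pm_011_s1 Ext.none :=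
  certFK0 (fam := false) (s1 := true) (s2 := false) (a := 0) (b := 1) (c := 1) (cn := .pnn) (n1 := ndF0q0) (n2 := ndF0q1) (pc := pcF1) (cut := cut_B00pm_011_s1) (xt := Ext.none) (P1 := 0) (W1 := 536870912) (P2 := 536870912) (W2 := 536870912) (P3 := 201326592) (W3 := 134217728)
    rfl rfl rfl k0_B00pm_011_s1

theorem s_B00pm_011_s1 {κ x : ℝ} (hκ : κ * h0 = ken x) (hx : ((201326592 : ℕ) : ℝ) / S ≤ x)
    (hx' : x ≤ (((201326592 : ℕ) : ℝ) + (134217728 : ℕ)) / S)
    (H : CutB (VF κ) PP tKF tL pcF (Cut.of [[⟨0, 0, 0, 67108864⟩, ⟨1, 1, 0, 67108864⟩, ⟨2, 1, 0, 67108864⟩], [⟨0, 0, 1, 67108864⟩, ⟨1, 1, 2, 67108864⟩, ⟨2, 1, 0, 16777216⟩]]) 0 1 1 0 0 (sgb true) (sgb false) x) :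
    AltB (VF κ) PP tKF tL pcF [⟨3, 0, 0, 1449551462⟩] 0 1 1 0 0 (sgb true) (sgb false) x :=
  strip_altB (m := 1449551462) true rfl hκ covF00 covF01 hx hx' c_B00pm_011_s1 H (noExt_B)

end Pool.Agent.Strip051.G.I3_16_5_16.Tab.St.C
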