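import Pool.Agent.Strip051.G.I3_16_5_16.StF

/-! # Unit strips 7 (generated) -/

set_option linter.all false
set_option maxRecDepth 100000

namespace Pool.Agent.Strip051.G.I3_16_5_16.Tab.St.C

open Pool.Agent.Strip051.PB Pool.Agent.Strip051.PB.T Pool.Agent.StripNear Pool.Agent.Strip051.LC
open Pool.Agent.Strip051.G.I3_16_5_16.Tab Pool.Agent.Strip051.G.I3_16_5_16.Tab.St

noncomputable def cut_B00pm_011_s3 : Cut := Cut.of [[⟨3, 0, 0, 2845415833⟩], [⟨0, 0, 0, 67108864⟩, ⟨1, 1, 0, 67108864⟩, ⟨2, 1, 0, 67108864⟩], [⟨0, 0, 1, 67108864⟩, ⟨1, 1, 2, 67108864⟩, ⟨2, 1, 0, 16777216⟩]]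

noncomputable def xt_B00pm_011_s3 : Ext := strExt dd false true false .u0 .u0m .s0m .pnn 0 1 1 rfl rfl gl1 vv ndF0q0 ndF0q1

noncomputable def f_B00pm_011_s3 : ℕ → ℕ → ℕ → ℕ → Bool := onCell 0 536870912 536870912 536870912 201326592 134217728
    (rowFK 0 false true false .pnn 0 1 1 (qsf 0 536870912 536870912 536870912 1) ndF0q0 ndF0q1 pcF1 cut_B00pm_011_s3 xt_B00pm_011_s3)

def k0_B00pm_011_s3 : ∃ t, chk3 f_B00pm_011_s3 t 2 2 1 = true :=
  ⟨(l 4), by decide +kernel⟩

def k1_B00pm_011_s3 : ∃ t, chk3 f_B00pm_011_s3 t 4 6 1 = true :=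
  ⟨(l 4), by decide +kernel⟩

def k2_B00pm_011_s3 : ∃ t, chk3 f_B00pm_011_s3 t 4 14 1 = true :=
  ⟨(b (l 4) (a (l 4) (a (l 4) (a (l 4) (b (l 4) (b (l 4) (a (c (l 532743695) (l 532930831)) (c (l 533011215) (l 533216271))))))))), by decide +kernel⟩

def k3_B00pm_011_s3 : ∃ t, chk3 f_B00pm_011_s3 t 8 30 1 = true :=
  ⟨(b (l 4) (a (l 4) (a (l 4) (a (l 4) (b (l 4) (a (l 4) (c (l 532928015) (l 533183247)))))))), by decide +kernel⟩

def k4_B00pm_011_s3 : ∃ t, chk3 f_B00pm_011_s3 t 8 62 1 = true :=
  ⟨(a (b (l 4) (l 14)) (b (a (a (l 4) (a (l 4) (b (l 4) (a (l 4) (l 533630479))))) (a (a (b (l 4) (a (l 533367055) (l 533103375))) (c (l 533369359) (a (l 532929295) (l 532934927)))) (a (b (l 533633551) (l 533651471)) (b (l 533639183) (l 533658127))))) (a (a (b (b (l 4) (l 14)) (l 14)) (a (b (a (l 533623311) (l 533630735)) (a (l 14) (l 533640719))) (b (a (l 533637647) (l 533644047)) (a (l 533648655) (l 533656079))))) (a (c (a (c (l 533185295) (l 533327887)) (l 533402383)) (b (a (l 533475855) (l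 533221391)) (a (l 533489423) (l 533236239)))) (b (a (l 533668879) (l 533676559)) (a (c (l 532745743) (l 533250063)) (a (l 533157391) (a (l 532892431) (b (l 532889871) (l 16752856)))))))))), by decide +kernel⟩

def k5_B00pm_011_s3 : ∃ t, chk3 f_B00pm_011_s3 t 8 63 1 = true :=
  ⟨(a (l 14) (b (a (a (l 14) (b (a (l 14) (b (l 533790223) (l 14))) (l 14))) (b (a (b (a (l 533671951) (a (l 533148431) (c (l 16756576) (l 16758008)))) (a (c (b (l 16758704) (a (l 14) (l 16756264))) (b (a (l 16760872) (l 16759008)) (a (l 14) (l 16757456)))) (a (b (a (l 16757064) (l 16756176)) (l 16755672)) (c (l 16754032) (l 16755072))))) (b (b (c (a (l 16754536) (l 16756200)) (a (l 16756120) (l 16752616))) (c (a (a (l 16759032) (l 16757392)) (l 16745248)) (a (a (l 16755336) (l 16758896)) (l 16746392)))) (c (a (l 16752496) (l 16750408)) (a (l 16753120) (l 16745248))))) (a (a (b (c (l 16756440) (l 16756808)) (l 14)) (c (b (l 16754312) (l 16748664)) (c (l 16753520) (l 16753016)))) (c (a (b (l 16747008) (l 16746704))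 (b (l 16745008) (l 16744792))) (a (c (l 16751064) (l 16750288)) (l 16748144)))))) (a (l 14) (b (a (a (l 14) (b (c (l 16748176) (l 16745360)) (l 14))) (c (b (a (l 16746320) (l 16744504)) (a (c (l 16747256) (l 16744728)) (b (l 16744240) (l 16749336)))) (b (l 16746896) (b (l 16740360) (l 16750064))))) (a (l 14) (a (b (c (b (l 16745440) (l 14)) (l 16739768)) (l 14)) (b (c (l 16749048) (l 16737688)) (c (b (l 16748800) (c (l 16745120) (l 16741672))) (l 16736920))))))))), by decide +kernel⟩

def k6_B00pm_011_s3 : ∃ t, chk3 f_B00pm_011_s3 t 9 30 1 = true :=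
  ⟨(a (a (b (l 4) (a (b (l 4) (a (c (l 532657167) (l 533191695)) (c (l 532653839) (l 532931087)))) (b (c (c (l 533029647) (l 533219343)) (l 533701135)) (c (l 533446415) (l 533742351))))) (b (a (l 4) (b (l 4) (a (l 533296143) (l 533305103)))) (a (b (c (c (l 533014287) (l 532950799)) (a (l 532911887) (l 532923151))) (a (l 533619471) (c (l 532899343) (l 532957711)))) (b (c (c (l 533012239) (l 532693775)) (l 533479951)) (c (c (l 532915727) (l 532994575)) (a (l 532965135) (l 532976399))))))) (b (a (a (b (l 4) (c (l 532829967) (l 533217551))) (b (c (l 532791823) (l 532944911)) (c (l 532832783) (l 532973839)))) (a (b (c (l 532790799) (l 532964623)) (c (l 532833551) (l 532995599))) (b (c (l 533060879) (l 533253135)) (c (l 533100559) (l 533014543))))) (a (b (c (a (l 533201679) (l 533140239)) (a (l 533242383) (l 533269775))) (a (c (c (l 533049103) (l 532738063)) (a (l 532990991) (l 533007119))) (c (l 533242895) (l 533295631)))) (b (c (a (l 533143311) (l 533144335)) (a (l 533294095) (l 533315599)))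 (a (c (l 533181711) (l 533322767)) (a (c (l 532917775) (l 533073935)) (a (c (l 532918799) (l 533082639)) (c (b (l 16740616) (l 16722872)) (l 16738152))))))))), by decide +kernel⟩

def k7_B00pm_011_s3 : ∃ t, chk3 f_B00pm_011_s3 t 18 62 1 = true :=
  ⟨(a (b (a (a (c (l 532969487) (l 533229583)) (c (l 532699407) (l 533238543))) (c (l 533494543) (l 533782543))) (a (c (b (l 533530895) (a (b (l 532747791) (a (l 16755760) (l 16753960))) (b (l 16754280) (c (l 16751032) (l 16752208))))) (b (l 533792271) (b (a (l 533001487) (l 16756400)) (a (b (l 16757464) (l 16755928)) (l 16753456))))) (a (b (l 533155599) (b (c (l 16750608) (l 16752896)) (c (l 16738944) (l 16740320)))) (b (c (l 16751744) (l 16754208)) (c (b (l 16747280) (l 16747392)) (b (l 16749552) (l 16737752))))))) (b (a (c (l 533419535) (a (l 532993295) (l 532999951))) (a (c (l 532945935) (l 533006095)) (b (c (l 532657935) (l 16752920)) (c (l 16742472) (l 16746096))))) (a (b (c (b (l 16747432) (a (l 16746120) (l 16742784))) (b (l 16750360)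 (a (l 16748928) (l 16745600)))) (c (b (l 16744056) (l 16739144)) (b (l 16745664) (l 16733968)))) (b (b (a (c (l 16741512) (l 16755400)) (c (l 16738160) (l 16731096))) (c (l 16739568) (l 16741744))) (c (c (l 16734912) (l 16729824)) (l 16740080)))))), by decide +kernel⟩

def k8_B00pm_011_s3 : ∃ t, chk3 f_B00pm_011_s3 t 18 126 1 = true :=
  ⟨(a (a (a (b (c (b (l 16748408) (l 16743136)) (c (l 16748656) (l 16743352))) (c (b (l 16743056) (l 16742920)) (l 16745640))) (b (c (b (l 16751592) (l 16741152)) (l 16746080)) (c (b (l 16741144) (l 16741088)) (l 16737944)))) (b (a (c (c (l 16744528) (l 16739000)) (l 16738304)) (c (b (l 16737112) (l 16737288)) (l 16735808))) (c (a (b (l 16739264) (l 16739288)) (b (l 16737424) (l 16737520))) (c (l 16740568) (l 16733328))))) (b (a (c (b (l 16739440) (c (l 16735176) (l 16733744))) (b (l 16732744) (l 16731496))) (c (b (l 16730400) (l 16736040)) (l 16732560))) (c (a (a (b (l 16735600) (l 16741016)) (b (l 16733808) (l 16739288))) (b (c (l 16732600) (l 16729744))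 (c (a (l 16734136) (l 16732608)) (l 16729672)))) (a (c (l 16730880) (l 16728336)) (c (l 16726536) (l 16723448)))))), by decide +kernel⟩

def k9_B00pm_011_s3 : ∃ t, chk3 f_B00pm_011_s3 t 18 127 1 = true :=
  ⟨(b (c (a (a (a (b (l 16747968) (b (l 16742536) (l 16747592))) (b (c (l 16742392) (l 16739608)) (b (l 16746144) (l 16745920)))) (b (c (a (l 16740840) (l 16739312)) (l 16736808)) (c (b (a (l 16741192) (l 16739632)) (l 16740416)) (b (l 16736576) (l 16736408))))) (c (a (b (a (l 16737808) (c (l 16737488) (l 16735392))) (b (a (l 16738048) (l 16736576)) (l 16737512))) (b (b (l 16736560) (a (l 16735096) (l 16733528))) (a (l 16735296) (l 16733864)))) (a (b (l 16738512) (a (l 16733680) (l 16732056))) (b (b (l 16729600) (l 16729600)) (l 16729688))))) (b (a (a (l 16736856) (l 16732192)) (a (l 16738208) (c (l 16725456) (l 16721352)))) (a (a (c (l 16736936) (l 16733968)) (c (l 16732648) (l 16729168))) (a (l 16737088) (l 16722752))))) (c (b (c (b (a (a (l 16743304) (l 16740432)) (a (l 16737600)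 (l 16734816))) (a (a (l 16743240) (l 16740440)) (a (l 16737680) (l 16734968)))) (a (a (l 16739656) (l 16736312)) (a (l 16733048) (l 16729864)))) (c (a (a (b (l 16743168) (a (l 16743760) (l 16742416))) (a (b (l 16741112) (l 16741080)) (l 16739760))) (a (a (l 16738432) (l 16737120)) (c (b (l 16736416) (l 16736568)) (l 16733880)))) (a (a (b (l 16739416) (l 16739248)) (b (l 16736184) (l 16736096))) (a (l 16733032) (l 16730008))))) (a (b (a (l 16734536) (l 16730448)) (a (c (l 16735672) (l 16732136)) (c (l 16731984) (l 16727952)))) (b (a (l 16726472) (l 16722632)) (c (a (l 16728408) (l 16724952)) (l 16727208)))))), by decide +kernel⟩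

def k10_B00pm_011_s3 : ∃ t, chk3 f_B00pm_011_s3 t 19 62 1 = true :=
  ⟨(b (a (a (b (c (l 533191183) (l 533282575)) (b (c (a (l 16739960) (l 16735832)) (l 16742208)) (c (a (l 16736792) (c (l 16732096) (l 16745136))) (l 16744536)))) (b (c (a (l 16737272) (l 16733248)) (c (l 16739120) (l 16740928))) (b (c (a (l 16732168) (l 16728976)) (c (l 16734480) (l 16746728))) (c (c (l 16729272) (l 16721008)) (l 16744376))))) (b (a (a (c (b (l 16741296) (l 16727664)) (l 16734896)) (c (b (l 16737240) (l 16724480)) (l 16736768))) (c (b (a (l 16723072) (l 16719904)) (c (l 16730552) (l 16712624))) (c (a (l 16737656) (l 16734944)) (l 16727920)))) (c (a (a (l 16727360) (l 16725560)) (a (l 16723816) (l 16722120))) (a (l 16729680) (l 16725064))))) (a (a (b (a (c (l 16736272) (l 16728016)) (c (l 16734232) (l 16725496))) (c (c (l 16726072) (l 16725688)) (l 16724712))) (a (b (c (l 16732280) (l 16723056)) (c (l 16733488) (l 16721048))) (b (c (l 16730456) (l 16720704)) (c (l 16731664) (l 16718696))))) (b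 (c (a (c (l 16727552) (l 16717352)) (c (l 16724600) (l 16713760))) (a (l 16727656) (l 16712688))) (a (c (a (l 16729968) (l 16728304)) (a (l 16716424) (l 16714144))) (c (a (l 16726760) (l 16725288)) (l 16721248)))))), by decide +kernel⟩

def k11_B00pm_011_s3 : ∃ t, chk3 f_B00pm_011_s3 t 19 126 1 = true :=
  ⟨(a (c (b (a (b (l 16726704) (l 16732456)) (b (a (l 16723976) (l 16722136)) (c (l 16725288) (l 16722144)))) (a (b (c (l 16729440) (l 16725992)) (c (c (l 16731464) (l 16729264)) (l 16726040))) (b (c (l 16726352) (l 16722320)) (c (a (l 16728128) (l 16726664)) (l 16722480))))) (b (a (l 16722608) (b (l 16728824) (l 16717480))) (a (c (l 16722280) (l 16718656)) (c (l 16718096) (l 16713944))))) (c (c (b (b (a (a (l 16721768) (l 16720344)) (l 16718288)) (a (a (l 16722872) (l 16721488)) (a (l 16720184) (l 16719024)))) (a (b (a (l 16724000) (c (l 16723808) (l 16721376))) (a (c (l 16726648) (l 16723904)) (b (l 16728696) (c (a (l 16726040) (l 16725352)) (l 16722680))))) (b (a (l 16721304)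 (l 16720184)) (a (b (l 16722176) (a (l 16728408) (l 16722496))) (c (b (l 16722688) (l 16723248)) (l 16725000)))))) (b (b (a (l 16718144) (l 16714712)) (a (l 16728832) (l 16714944))) (a (b (a (l 16719536) (l 16717800)) (a (l 16719888) (b (l 16718008) (l 16718280)))) (b (a (l 16716136) (l 16714608)) (a (b (l 16716360) (l 16716632)) (l 16714984)))))) (a (a (b (l 16714488) (b (l 16713096) (l 16712256))) (b (l 16712288) (b (l 16710920) (c (l 16712816) (l 16707616))))) (b (c (l 16721272) (l 16706912)) (b (c (l 16710024) (l 16705072)) (a (c (l 16710904) (l 16705400)) (l 16716408))))))), by decide +kernel⟩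

def k12_B00pm_011_s3 : ∃ t, chk3 f_B00pm_011_s3 t 38 127 1 = true :=
  ⟨(c (b (a (a (b (c (b (l 16731744) (l 16731976)) (l 16727040)) (c (l 16732448) (l 16727240))) (b (c (b (l 16730424) (l 16730592)) (l 16725216)) (c (l 16731048) (l 16725632)))) (b (b (c (a (l 16734168) (l 16732600)) (l 16722632)) (c (l 16728504) (l 16722872))) (c (a (l 16729672) (l 16728304)) (l 16723272)))) (c (b (a (a (l 16732880) (l 16731552)) (a (l 16730248) (l 16734200))) (a (c (b (l 16733952) (l 16734168)) (l 16731248)) (a (a (l 16731104) (l 16730488)) (a (l 16729888) (l 16729288))))) (a (b (l 16726776) (l 16727080)) (b (l 16723776) (l 16724248))))) (b (a (b (c (l 16721304) (l 16716712)) (l 16718856)) (b (l 16725200) (l 16715072))) (b (a (l 16718904) (l 16715296)) (c (a (l 16721608) (l 16718384)) (l 16714424))))), by decide +kernel⟩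

def k13_B00pm_011_s3 : ∃ t, chk3 f_B00pm_011_s3 t 39 127 1 = true :=
  ⟨(b (c (a (a (c (b (c (l 16727496) (l 16724496)) (l 16726952)) (b (l 16720112) (l 16720952))) (b (c (a (l 16725136) (l 16724392)) (l 16718608)) (c (l 16725624) (l 16719440)))) (c (a (b (c (a (l 16725336) (l 16724776)) (l 16721800)) (c (a (l 16726200) (l 16725608)) (l 16722640))) (b (c (l 16723904) (l 16720544)) (c (a (l 16725088) (l 16724576)) (l 16721464)))) (a (b (l 16717088) (l 16717880)) (b (l 16715624) (l 16716520))))) (a (b (a (l 16711768) (l 16709936)) (l 16711400)) (c (a (l 16711320) (l 16709680)) (a (l 16705400) (l 16703504))))) (c (c (a (b (c (a (l 16729232) (l 16728024)) (l 16725504)) (a (c (l 16729960) (l 16726832)) (a (l 16727504) (l 16726928)))) (a (b (c (a (l 16727128) (l 16726496)) (l 16723488)) (c (l 16727712) (l 16724416))) (b (a (b (l 16724064) (l 16724504)) (c (l 16725456) (l 16722072))) (c (a (l 16726840) (b (l 16726104) (l 16726560))) (a (l 16723496) (l 16722936)))))) (a (b (l 16720864)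 (l 16721504)) (a (b (l 16718664) (l 16719504)) (b (l 16722568) (c (l 16719824) (l 16716472)))))) (a (c (b (l 16714792) (l 16715264)) (l 16708984)) (a (b (l 16719680) (l 16709768)) (b (l 16718032) (a (l 16708560) (l 16707784))))))), by decide +kernel⟩

def k14_B00pm_011_s3 : ∃ t, chk3 f_B00pm_011_s3 t 5 6 1 = true :=
  ⟨(b (l 4) (b (l 4) (a (l 4) (a (b (l 4) (a (l 4) (c (l 542381071) (b (l 4) (l 537011983))))) (c (a (b (l 4) (l 542705167)) (c (l 544545551) (l 542269967))) (b (a (l 4) (l 538933775)) (a (b (c (l 539388687) (l 536971023)) (a (l 537626127) (l 537984271))) (b (l 538768655) (l 537650703))))))))), by decide +kernel⟩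

def k15_B00pm_011_s3 : ∃ t, chk3 f_B00pm_011_s3 t 10 14 1 = true :=
  ⟨(b (b (l 4) (a (l 4) (a (a (l 4) (b (l 4) (l 535341327))) (a (b (l 535373839) (l 535414799)) (b (l 535268111) (c (l 539681551) (l 532929295))))))) (a (b (a (l 4) (a (c (b (l 4) (l 533628431)) (l 533423887)) (c (b (l 535941903) (l 534869775)) (l 533408783)))) (b (a (c (a (l 532687887) (l 532666639)) (l 533460751)) (a (c (l 532907791) (l 532928783)) (c (l 533668367) (l 532921103)))) (a (a (c (l 532992783) (l 532952079)) (c (l 532971279) (l 532954895))) (c (a (l 533752847) (c (l 535252751) (l 532545807))) (l 533490191))))) (c (b (a (b (a (l 536894223) (l 537722639)) (a (l 535946255) (l 536881167))) (b (c (l 540808207) (l 536750863)) (a (l 537694479) (l 538402831)))) (a (b (a (l 534887695) (l 535944719)) (a (l 534507023) (l 534899471))) (b (a (l 536862735) (l 537661199)) (a (l 535937551) (l 536838927))))) (a (b (a (l 533387023) (l 533492751)) (c (a (l 532797711) (l 533040911)) (l 533571599))) (b (b (l 533407759)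 (l 533458959)) (b (l 533510159) (l 533560591))))))), by decide +kernel⟩

def k16_B00pm_011_s3 : ∃ t, chk3 f_B00pm_011_s3 t 11 28 1 = true :=
  ⟨(c (a (b (a (c (l 543110927) (l 539361551)) (l 541784079)) (a (c (l 542366223) (b (l 539182863) (l 538649615))) (a (l 539837967) (l 541487375)))) (b (c (l 543936271) (a (l 541137679) (l 541557007))) (a (c (l 543306767) (l 540461071)) (l 540671247)))) (a (b (a (a (b (l 4) (l 534532623)) (l 535482383)) (a (l 536046095) (l 536551439))) (a (a (c (l 535200527) (l 532996367)) (b (l 534572815) (l 533902351))) (a (b (l 535217679) (l 534607887)) (b (l 535794703) (l 535239183))))) (b (a (a (l 536736271) (b (l 537608975) (l 537206799))) (b (l 536779791) (a (l 537588495) (l 537932047)))) (a (a (b (l 536311567) (l 535803919)) (b (l 536774927) (l 536309775))) (a (b (l 537190927) (l 536763663)) (b (l 537564687) (l 537170959))))))), by decide +kernel⟩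

def k17_B00pm_011_s3 : ∃ t, chk3 f_B00pm_011_s3 t 11 29 1 = true :=
  ⟨(a (c (c (b (a (b (l 541698063) (l 541196559)) (l 542163471)) (a (b (l 540643599) (l 540030735)) (b (l 541504527) (l 541010191)))) (b (a (a (l 537437199) (l 538045455)) (b (l 539082255) (l 538558223))) (a (b (l 536452367) (l 535948047)) (b (l 537986319) (l 537092623))))) (a (b (a (c (l 533713167) (l 532839183)) (c (l 534520591) (l 532791567))) (c (b (l 533025295) (l 533061135)) (a (l 532950799) (l 532912399)))) (b (a (b (l 533947663) (l 533500431)) (b (l 534638351) (l 533988367))) (b (c (l 534827791) (l 533079567)) (c (l 534886159) (l 533146127)))))) (b (c (a (c (l 542690063) (b (l 539873807) (l 539439631))) (c (l 543077647) (l 540310799))) (a (a (b (l 535256079) (l 534664207)) (b (l 535809039) (l 535269135))) (a (b (l 536304143) (l 535810319)) (b (l 536211471) (l 535489807))))) (a (c (c (l 540339471) (b (l 538967823) (l 537917455))) (a (c (l 534992399) (l 533037583)) (b (l 534686223) (l 534594063)))) (c (b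 (l 540093967) (a (l 16807296) (c (l 16956856) (l 16862328)))) (b (a (l 535278095) (l 535270927)) (a (l 534972943) (b (l 16731352) (c (l 16766304) (l 16716736))))))))), by decide +kernel⟩

def k18_B00pm_011_s3 : ∃ t, chk3 f_B00pm_011_s3 t 20 60 1 = true :=
  ⟨(a (c (a (c (a (l 532788751) (l 532775951)) (l 533201935)) (b (l 533017359) (a (l 532811023) (l 532798991)))) (a (b (l 533255695) (l 533295375)) (a (l 533548559) (l 533548559)))) (a (b (c (c (l 533450767) (l 532609551)) (l 532989199)) (c (c (a (l 532703247) (l 532726543)) (l 532659727)) (l 533297679))) (c (c (b (l 533896207) (b (l 533028879) (c (l 533620751) (l 532694031)))) (a (l 532890383) (l 532879887))) (b (l 532989455) (l 533295887))))), by decide +kernel⟩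

def k19_B00pm_011_s3 : ∃ t, chk3 f_B00pm_011_s3 t 20 61 1 = true :=
  ⟨(a (b (c (a (c (l 532858383) (l 532736271)) (a (l 532861967) (l 532987407))) (a (l 533331471) (l 533340431))) (b (a (c (l 533037839) (l 533088527)) (c (a (l 532897295) (b (l 16747056) (l 16722608))) (c (l 16733032) (l 16736152)))) (c (a (b (a (l 16731848) (l 16727696)) (c (a (l 16726576) (l 16723368)) (l 16729488))) (b (a (a (l 16724680) (l 16722840)) (c (l 16718128) (l 16702040))) (l 16712416))) (a (c (b (l 16735656) (l 16732976)) (l 16726816)) (a (l 16730976) (l 16728200)))))) (b (a (c (a (l 533043215) (a (l 532966927) (l 532960271))) (l 533341711)) (a (c (c (c (l 532900367) (l 532734735)) (l 532698127)) (l 533071631)) (b (c (c (l 532824591) (l 16744224)) (l 16730120)) (c (c (b (l 532849167) (c (l 16734656) (l 16731296))) (l 16716480)) (l 16723888))))) (b (c (a (c (b (a (l 16741496) (c (l 16738792) (l 16736760))) (a (c (l 16717480) (l 16738320)) (a (l 16734144) (l 16733048)))) (b (l 16722256) (l 16709408)))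 (a (b (c (c (b (l 16735840) (l 16733048)) (l 16732728)) (l 16737136)) (l 16713688)) (b (b (c (c (l 16730976) (l 16729128)) (l 16691824)) (l 16731496)) (l 16711944)))) (a (c (b (l 16726832) (l 16724304)) (l 16729352)) (c (b (l 16719672) (l 16698312)) (l 16722784)))) (c (a (a (l 16709112) (l 16707400)) (c (b (l 16712552) (l 16735792)) (l 16716944))) (a (l 16724920) (l 16720400)))))), by decide +kernel⟩

def k20_B00pm_011_s3 : ∃ t, chk3 f_B00pm_011_s3 t 21 60 1 = true :=
  ⟨(a (a (b (c (c (l 535251471) (l 532566031)) (l 532984591)) (c (c (b (l 534263567) (l 534356751)) (l 532618255)) (l 533294095))) (b (c (b (l 534034703) (l 534489871)) (l 533241359)) (c (c (b (l 16764152) (l 534930703)) (l 532859663)) (l 533287183)))) (b (c (a (l 536248591) (l 536194319)) (l 533612303)) (b (c (a (l 535396623) (l 535710991)) (l 533517071)) (c (a (c (l 16760808) (l 16725992)) (a (l 16760744) (b (l 16733688) (l 16767584)))) (c (l 16708000) (l 16713792)))))), by decide +kernel⟩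

def k21_B00pm_011_s3 : ∃ t, chk3 f_B00pm_011_s3 t 21 61 1 = true :=
  ⟨(a (b (c (a (b (c (c (l 534930959) (l 532772367)) (l 16716544)) (c (b (a (l 532874255) (c (l 16741792) (l 16726904))) (a (c (b (l 16741048) (b (l 16736752) (l 16692360))) (b (l 16728248) (l 16726160))) (c (b (a (l 16709608) (l 16717192)) (l 16709616)) (l 16702608)))) (b (l 16711544) (a (l 16710752) (l 16728504))))) (b (c (a (l 16757512) (b (l 16732056) (l 16764912))) (c (l 16706048) (l 16730432))) (c (b (a (b (l 16744432) (a (l 16735688) (l 16743040))) (b (l 16758048) (l 16712664))) (a (l 16733304) (l 16707408))) (b (a (l 16726272) (l 16723088)) (l 16725880))))) (a (b (l 533055247) (c (b (l 16738208) (l 16714848)) (l 16710296))) (b (l 16716680) (c (b (l 16710032) (l 16689096)) (l 16714288))))) (c (c (a (b (a (b (l 16726208) (l 16728864)) (b (l 16724672) (l 16727424))) (b (l 16730720) (l 16691272))) (b (a (b (l 16724816) (l 16726112)) (l 16737872)) (a (l 16730200) (l 16729160)))) (b (a (l 16700336) (l 16707416))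 (a (l 16692576) (l 16689496)))) (a (b (l 16706016) (l 16695064)) (c (l 16700768) (l 16702248))))) (b (a (c (c (b (b (a (l 16743896) (l 16756112)) (a (b (l 16737736) (l 16754888)) (l 16760160))) (a (l 16758088) (l 16742352))) (b (b (l 16721112) (a (l 16720552) (l 16759280))) (l 16700544))) (b (a (l 16711000) (l 16707320)) (l 16707840))) (c (c (b (b (a (l 16763480) (l 16781952)) (l 16771648)) (a (l 16758080) (l 16773768))) (b (b (a (l 16756424) (l 16753184)) (l 16756720)) (l 16718272))) (b (l 16702608) (l 16703632)))) (c (c (a (b (a (l 16755392) (l 16730904)) (a (l 16697984) (l 16717352))) (b (a (l 16748256) (l 16765464)) (l 16743344))) (a (c (l 16695144) (l 16696096)) (b (l 16680600) (l 16684480)))) (a (c (l 16697184) (l 16687520)) (c (l 16693864) (l 16683496)))))), by decide +kernel⟩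

def k22_B00pm_011_s3 : ∃ t, chk3 f_B00pm_011_s3 t 20 62 1 = true :=
  ⟨(a (a (b (c (a (b (l 16718552) (l 16720472)) (b (l 16716808) (l 16708384))) (b (l 16722264) (l 16710088))) (c (b (c (l 16721888) (l 16710360)) (b (l 16722704) (c (l 16714736) (l 16711304)))) (b (l 16708336) (l 16717024)))) (b (c (a (b (l 16715112) (l 16706832)) (b (l 16713464) (l 16705328))) (b (l 16728192) (l 16705712))) (c (b (c (l 16719416) (l 16707152)) (c (b (l 16711184) (l 16712600)) (l 16708080))) (b (l 16704112) (l 16712936))))) (b (a (c (a (b (l 16711864) (l 16703888)) (b (l 16710328) (l 16702512))) (b (l 16702776) (l 16701472))) (a (c (b (l 16708856) (l 16711688)) (l 16709504)) (c (b (l 16707456) (l 16710456)) (l 16707464)))) (a (c (b (c (l 16717232) (l 16704168)) (c (b (l 16709216) (l 16721264)) (l 16715816))) (b (l 16700048) (c (l 16700792) (l 16696312)))) (c (b (c (b (l 16703992) (l 16705816)) (l 16701456)) (c (a (l 16719344) (l 16718664)) (l 16713352))) (b (l 16696176) (c (l 16697480) (l 16692232))))))),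 by decide +kernel⟩

def k23_B00pm_011_s3 : ∃ t, chk3 f_B00pm_011_s3 t 20 126 1 = true :=
  ⟨(c (c (b (a (a (b (l 16726488) (a (l 16717920) (l 16716896))) (b (a (l 16714592) (l 16713656)) (a (l 16715936) (l 16715064)))) (a (b (a (l 16712808) (l 16712040)) (a (l 16714272) (l 16724056))) (b (a (l 16711368) (l 16710792)) (c (l 22) (l 16715760))))) (a (a (b (a (l 16724376) (c (l 16719808) (l 16716520))) (a (c (b (l 16721840) (l 16722288)) (l 16723808)) (c (b (l 16721008) (l 16721472)) (l 16722680)))) (b (a (c (l 16719024) (l 16715504)) (c (l 16718328) (l 16714568))) (a (c (b (l 16720152) (l 16720648)) (l 16721632)) (c (b (l 16719360) (l 16719888)) (l 16715464))))) (c (c (l 22) (a (a (b (l 16716800) (l 16717824)) (l 22)) (l 22))) (a (b (a (l 16713792) (l 16713072)) (a (l 16714680) (l 16713984))) (b (a (l 16717608) (b (l 16711384) (l 16711896))) (a (l 16713288) (l 16712672))))))) (b (a (a (a (l 16712616) (l 16711152)) (b (l 16708776) (l 16709184))) (a (b (l 16706184) (l 16706688)) (b (l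 16703896) (l 16714984)))) (a (a (b (a (l 16713136) (l 16711728)) (a (l 16724008) (l 16712120))) (b (a (l 16710376) (l 16709096)) (a (l 16710816) (l 16709616)))) (a (b (a (l 16707952) (l 16706872)) (a (l 16708560) (l 16707592))) (b (a (l 16705816) (l 16715304)) (c (l 16708280) (l 16703848))))))) (c (b (a (a (l 16707008) (l 16703416)) (a (l 16700040) (l 16696904))) (a (a (b (l 16706320) (l 16716512)) (b (l 16702808) (l 16713232))) (a (b (l 16699640) (l 16699896)) (b (l 16707168) (l 16697392))))) (b (a (a (l 16702456) (l 16698136)) (a (l 16693984) (l 16690024))) (a (a (b (l 16700656) (l 16699760)) (b (l 16696384) (l 16695832))) (a (b (l 16692400) (l 16692328)) (b (l 16688656) (l 16689160))))))), by decide +kernel⟩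

def k24_B00pm_011_s3 : ∃ t, chk3 f_B00pm_011_s3 t 40 127 2 = true :=
  ⟨(a (b (c (a (a (b (l 16721520) (l 16727624)) (b (l 16721024) (l 16727136))) (b (c (l 16722080) (l 16718416)) (c (a (l 16723232) (l 16722816)) (l 16719320)))) (a (b (l 16714304) (l 16715176)) (b (l 16713048) (l 16713960)))) (a (c (b (c (a (l 16724968) (l 16724536)) (l 16721200)) (a (b (l 16723920) (l 16729616)) (b (l 16723464) (l 16729152)))) (b (l 16716032) (c (l 16718680) (l 16715216)))) (c (b (c (a (l 16724120) (l 16723712)) (l 16720232)) (a (c (l 16725016) (l 16721440)) (b (l 16727840) (l 16728296)))) (b (l 16714864) (l 16721008))))) (b (c (a (b (c (l 16726512) (l 16717448)) (c (a (l 16722416) (l 16722032)) (l 16718376))) (b (a (l 16724024) (l 16723632)) (c (c (l 22) (l 16720440)) (l 16717504)))) (a (b (l 16711848) (l 16712800)) (b (l 16710712) (l 16711704)))) (c (a (b (c (a (l 16723328) (l 16722952)) (l 16719320)) (b (a (l 16727424) (l 16727024)) (c (a (l 16724496) (l 16724136)) (l 16720544)))) (b (c (a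 (l 16722592) (l 16722248)) (l 16718472)) (c (c (l 22) (a (l 16722576) (l 16722232))) (a (l 16719712) (l 16719312))))) (a (b (l 16713752) (c (l 16716552) (l 16712848))) (b (l 16712696) (c (l 16715608) (l 16711768))))))), by decide +kernel⟩

def k25_B00pm_011_s3 : ∃ t, chk3 f_B00pm_011_s3 t 41 127 2 = true :=
  ⟨(c (b (c (a (a (a (b (l 16720072) (l 16720984)) (l 22)) (l 22)) (l 22)) (a (b (a (l 16715712) (l 16714944)) (a (l 16716688) (l 16715936))) (b (a (l 16714256) (l 16713632)) (a (l 16715248) (l 16714640))))) (c (a (c (l 22) (a (b (l 16723320) (a (l 16721896) (l 22))) (l 22))) (l 22)) (a (a (b (l 16717680) (a (l 16718928) (l 16718560))) (b (b (l 16716720) (l 16717232)) (a (l 16718200) (l 16717864)))) (c (a (b (l 16717352) (a (l 16718584) (l 22))) (l 22)) (a (b (l 16715208) (l 16716272)) (b (l 16714560) (l 16718264))))))) (b (a (a (b (l 16709640) (l 16710664)) (b (l 16708632) (l 16709688))) (a (b (l 16707696) (l 16708776)) (b (l 16706832) (l 16707928)))) (a (a (b (l 16711696) (c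 (l 16714712) (l 16710752))) (b (l 16715992) (c (l 16713872) (l 16709784)))) (a (b (c (l 16712000) (l 16707752)) (c (l 16713096) (l 16708864))) (b (c (l 16711248) (l 16706864)) (c (l 16717616) (l 16708008))))))), by decide +kernel⟩

def k26_B00pm_011_s3 : ∃ t, chk3 f_B00pm_011_s3 t 20 127 3 = true :=
  ⟨(c (a (b (a (a (l 16708000) (l 16706480)) (b (l 16703736) (l 16704672))) (b (a (l 16718816) (l 16716080)) (a (a (l 16710040) (l 16708616)) (a (l 16707304) (l 16706032))))) (a (b (b (l 16701000) (l 16702040)) (b (l 16708312) (a (l 16704824) (l 16703656)))) (b (b (l 16698512) (l 16699640)) (b (c (l 16702896) (l 16698648)) (a (l 16702552) (l 16701496)))))) (a (a (b (l 16710928) (a (l 16702856) (l 16701128))) (b (l 16696984) (b (l 16698264) (l 16699032)))) (a (b (l 16693728) (b (l 16695208) (l 16696112))) (b (l 16690696) (b (l 16692352) (l 16693392)))))), by decide +kernel⟩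

def k27_B00pm_011_s3 : ∃ t, chk3 f_B00pm_011_s3 t 21 62 1 = true :=
  ⟨(c (b (a (a (b (c (l 16700056) (l 16695000)) (c (l 16704496) (l 16697144))) (b (c (c (l 16693832) (l 16692784)) (l 16692256)) (c (c (l 16698496) (l 16697032)) (l 16694752)))) (c (a (b (b (l 16695200) (l 16692824)) (c (a (l 16709344) (l 16732688)) (l 16695744))) (b (b (l 16736432) (l 16729384)) (c (b (l 16769824) (l 16763432)) (l 16700184)))) (a (b (l 16689928) (l 16692744)) (b (l 16687992) (l 16701672))))) (a (c (b (a (c (l 16709704) (l 16702296)) (a (l 16702600) (l 16707408))) (a (b (l 16711584) (c (l 16710016) (l 16706432))) (b (c (l 16707320) (l 16703768)) (c (l 16714904) (l 16705528))))) (b (a (l 16699040) (l 16696984)) (a (b (l 16700376) (l 16701176)) (b (l 16698544) (l 16699488))))) (c (b (b (a (a (l 16700672) (l 16700424)) (c (l 16756432) (l 16698536))) (a (c (l 16707272) (l 16701128)) (a (l 16702872) (l 16728656)))) (a (a (b (l 16705312) (l 16712752)) (b (l 16705264) (l 16712816))) (c (a (b (l 16727360)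 (l 16728216)) (b (l 16753520) (l 16734640))) (b (l 16708280) (a (l 16705176) (l 16705344)))))) (b (a (a (l 16695760) (l 16695024)) (c (l 16695936) (l 16692264))) (a (c (l 16710248) (l 16695528)) (a (c (l 16699344) (l 16694680)) (c (l 16699160) (l 16694208)))))))) (b (a (a (a (l 16715968) (l 16714032)) (b (l 16690528) (l 16689920))) (a (b (l 16686984) (c (l 16688672) (l 16684512))) (c (b (l 16685248) (l 16686168)) (l 16681680)))) (a (b (a (l 16692528) (l 16710120)) (a (c (l 16694448) (l 16688376)) (c (l 16691728) (l 16684776)))) (b (a (c (l 16689112) (l 16683056)) (c (l 16686864) (l 16679872))) (a (c (l 16689352) (l 16681456)) (c (a (l 16687896) (l 16687008)) (l 16678472))))))), by decide +kernel⟩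

def k28_B00pm_011_s3 : ∃ t, chk3 f_B00pm_011_s3 t 21 126 2 = true :=
  ⟨(a (c (b (a (b (a (l 16710328) (l 16715216)) (a (c (l 22) (l 16709808)) (l 22))) (b (a (l 16714976) (c (l 16712064) (l 16707208))) (l 22))) (c (l 22) (a (a (a (b (l 16711304) (l 16712296)) (l 22)) (l 22)) (l 22)))) (b (a (a (l 16713296) (l 16712448)) (b (l 16710872) (a (l 16701656) (l 16701056)))) (a (b (a (l 16714392) (b (l 16702992) (l 16703440))) (c (l 16706864) (l 16702080))) (b (a (l 16712872) (l 16712336)) (c (l 16711016) (l 16700616)))))) (c (b (b (b (a (c (l 16714336) (l 16706544)) (a (l 16709528) (a (l 16709832) (l 16710072)))) (l 22)) (l 22)) (l 22)) (c (b (a (b (l 16701808) (a (l 16703392) (l 22))) (b (a (l 16701568) (l 16701512)) (l 22))) (a (a (l 16715232) (l 22)) (l 22))) (b (a (b (l 16696768) (l 16697648)) (b (l 16695816) (a (l 16697040) (l 16696672)))) (a (b (l 16698416) (l 16699480)) (b (l 16697664) (l 16698696))))))), by decide +kernel⟩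

def k29_B00pm_011_s3 : ∃ t, chk3 f_B00pm_011_s3 t 21 127 2 = true :=
  ⟨(a (c (c (l 22) (a (a (a (a (b (l 16719056) (b (l 16715384) (l 16716456))) (l 22)) (l 22)) (l 22)) (l 22))) (b (a (a (b (l 16706032) (l 16717640)) (b (l 16705312) (l 16711680))) (b (a (l 16704664) (l 16714584)) (c (a (l 16708256) (l 16707768)) (l 16708168)))) (a (a (b (c (l 16710560) (l 16706032)) (c (b (l 16711432) (l 16712016)) (l 16707216))) (b (c (l 16709944) (l 16705264)) (c (b (l 16710824) (l 16711408)) (l 16706472)))) (a (b (c (l 16709384) (l 16704560)) (c (b (l 16710272) (l 16710864)) (l 16705792))) (b (c (l 16714136) (l 16703920)) (c (b (l 16709784) (l 16710384)) (l 16705168))))))) (c (l 22) (b (c (a (a (a (l 16712160) (l 22)) (l 22)) (l 22)) (a (b (l 16700608) (a (l 16702128) (l 16701624))) (b (l 16705032) (a (l 16701200) (l 16700848))))) (c (c (l 22) (a (a (b (l 16707192) (l 16708384)) (l 22)) (l 22))) (a (b (a (l 16703352) (l 16702848)) (a (l 16704608) (b (l 16703800) (l 16704448)))) (b (a (l 16702408)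 (l 16702048)) (a (b (l 16703368) (l 16704008)) (b (l 16702992) (l 16703640))))))))), by decide +kernel⟩

def k30_B00pm_011_s3 : ∃ t, chk3 f_B00pm_011_s3 t 21 63 3 = true :=
  ⟨(b (b (c (a (a (l 16704552) (b (l 16691656) (l 16691568))) (a (b (l 16689464) (l 16700096)) (b (l 16687672) (c (l 16701328) (l 16685104))))) (a (a (l 16686312) (l 16682888)) (a (l 16679896) (b (l 16677368) (l 16676840))))) (a (a (b (c (l 16704512) (l 16685232)) (c (l 16695104) (l 16686208))) (c (b (l 16702296) (l 16693104)) (l 16693200))) (a (c (b (l 16690208) (l 16691424)) (l 16680360)) (c (c (l 16702760) (l 16686576)) (l 16678304))))) (a (a (b (c (b (l 16696288) (l 16697488)) (l 16687904)) (a (c (b (l 16699304) (l 16700496)) (l 16690984)) (c (b (l 16698320) (l 16699552)) (l 16689752)))) (b (c (b (l 16694336) (l 16706072)) (l 16695840)) (a (c (b (l 16697392) (l 16698672)) (l 16688568)) (c (b (l 16696536) (l 16697840)) (l 16687448))))) (c (a (b (b (l 16692672) (c (l 16696552) (l 16691392))) (b (c (l 16697848)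 (l 16692728)) (a (l 16707560) (c (l 16698944) (l 16693792))))) (b (b (l 16701808) (c (l 16695376) (l 16689888))) (b (a (l 16694344) (l 16693744)) (c (a (l 16698368) (l 16697856)) (l 16697912))))) (a (b (l 16693552) (b (l 16685136) (l 16696992))) (a (b (l 16681616) (l 16694912)) (b (l 16680672) (l 16694032))))))), by decide +kernel⟩

def k31_B00pm_011_s3 : ∃ t, chk3 f_B00pm_011_s3 t 22 60 1 = true :=
  ⟨(a (b (c (a (l 536811279) (l 537044751)) (a (l 16713320) (l 16704240))) (c (b (a (l 16770272) (a (l 16775112) (l 16785712))) (a (b (a (l 16744416) (l 16755504)) (a (c (l 16798760) (l 16676856)) (l 16765568))) (b (a (l 16766928) (l 16778992)) (l 16769808)))) (a (b (l 16724824) (c (l 16695280) (l 16723016))) (b (l 16716248) (l 16691824))))) (b (a (c (l 537179919) (l 533353999)) (b (c (l 16749928) (l 16751120)) (c (a (l 16823912) (l 16792104)) (l 16682536)))) (b (b (c (a (l 16782640) (a (l 16777624) (l 16788992))) (a (l 16750408) (l 16679336))) (c (a (a (l 16773256) (l 16805936)) (l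 16782552)) (a (l 16706688) (l 16743832)))) (c (a (a (l 16790832) (l 16761920)) (c (l 16884680) (l 16762744))) (c (a (l 16747184) (l 16659704)) (l 16677952)))))), by decide +kernel⟩

def k32_B00pm_011_s3 : ∃ t, chk3 f_B00pm_011_s3 t 22 61 1 = true :=
  ⟨(a (b (b (c (a (a (c (l 16794856) (l 16752880)) (l 16764672)) (a (l 16757888) (l 16772056))) (a (l 16719256) (l 16715120))) (c (a (a (l 16760520) (l 16755136)) (c (l 16828000) (l 16687432))) (a (l 16699648) (l 16685456)))) (b (c (a (c (l 16749024) (l 16678144)) (c (l 16740424) (l 16718032))) (a (l 16679696) (l 16686880))) (c (a (c (b (l 16785312) (l 16781016)) (l 16682480)) (c (b (l 16820704) (l 16733968)) (l 16686160))) (a (l 16680408) (l 16687968))))) (b (c (b (a (c (l 16858792) (l 16728312)) (c (l 16886576) (l 16756384))) (a (c (l 16858256) (l 16718384)) (c (l 16887824) (l 16748904)))) (c (a (l 16679664) (b (l 16664288) (l 16668360))) (b (l 16679632) (l 16680888)))) (c (a (b (c (l 16772896) (l 16727928)) (c (c (l 16894488) (l 16814032))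 (a (l 16684672) (l 16703008)))) (b (c (l 16804408) (l 16729664)) (c (l 16803984) (b (l 16732664) (l 16727200))))) (a (c (b (l 16673976) (l 16676672)) (l 16673048)) (c (b (l 16671960) (l 16675128)) (l 16670312)))))), by decide +kernel⟩

def k33_B00pm_011_s3 : ∃ t, chk3 f_B00pm_011_s3 t 23 60 1 = true :=
  ⟨(c (c (a (b (b (l 16871000) (a (l 16819888) (l 16925672))) (a (l 16824752) (l 16933320))) (b (a (b (l 16943136) (l 16948408)) (l 16967112)) (a (l 16957504) (l 16981120)))) (b (a (b (a (l 16803120) (l 16821368)) (a (b (l 16797696) (l 16794440)) (b (l 16817576) (l 16816840)))) (b (a (b (l 16840656) (l 16839224)) (l 16859816)) (a (l 16839392) (l 16861560)))) (a (a (b (l 16792008) (l 16788488)) (b (l 16815848) (l 16814024))) (a (b (l 16839544) (l 16839232)) (b (l 16862984) (l 16864040)))))) (b (a (b (a (l 16743240) (a (l 16670848) (l 16720968))) (a (b (l 16736880) (c (l 16688296) (l 16698136))) (b (a (l 16700352) (l 16668112)) (l 16741504)))) (b (a (b (l 16715648) (a (l 16725456) (l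 16693016))) (b (a (l 16707016) (l 16716352)) (l 16708352))) (a (c (l 16733464) (l 16729872)) (c (l 16755288) (l 16651944))))) (a (a (c (b (l 16680416) (l 16669272)) (l 16670528)) (c (b (l 16703824) (l 16694864)) (l 16666760))) (a (c (b (l 16727344) (l 16720384)) (b (l 16650808) (l 16654976))) (b (c (l 16750848) (l 16647784)) (c (l 16745712) (l 16652592))))))), by decide +kernel⟩

def k34_B00pm_011_s3 : ∃ t, chk3 f_B00pm_011_s3 t 23 61 1 = true :=
  ⟨(c (c (a (b (a (c (l 16949000) (l 16881672)) (l 16942496)) (a (b (l 16918768) (l 16836328)) (a (l 16942376) (l 16957184)))) (b (a (l 16968904) (l 16994464)) (a (l 16894936) (l 17006656)))) (a (b (a (b (l 16784152) (l 16736928)) (b (l 16811504) (l 16724304))) (a (b (b (l 16774200) (l 16770728)) (b (l 16766944) (l 16720896))) (b (b (l 16805104) (l 16802744)) (b (l 16716232) (l 16755272))))) (a (b (b (l 16838360) (l 16752920)) (b (c (l 16869904) (l 16799096)) (c (l 16868688) (l 16751944)))) (b (b (l 16864632) (l 16780776)) (b (l 16780152)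 (c (l 16899368) (l 16825976))))))) (a (b (c (b (a (l 16661736) (l 16684800)) (a (l 16666352) (l 16715424))) (a (l 16675432) (l 16672760))) (c (a (b (l 16670472) (l 16674136)) (b (l 16674840) (c (l 16726520) (l 16672096)))) (a (l 16678536) (b (l 16665456) (l 16667064))))) (c (b (a (b (l 16712464) (l 16724448)) (b (l 16739760) (l 16722384))) (a (b (c (l 16728504) (l 16668104)) (b (l 16726728) (l 16678688))) (b (b (l 16727032) (l 16722792)) (b (l 16718264) (l 16713432))))) (b (a (b (l 16658552) (l 16661576)) (b (l 16656776) (l 16660376))) (a (b (l 16664104) (l 16666176)) (b (l 16663440) (l 16666008))))))), by decide +kernel⟩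

def k35_B00pm_011_s3 : ∃ t, chk3 f_B00pm_011_s3 t 22 124 2 = true :=
  ⟨(a (c (b (a (b (l 16776264) (l 16729104)) (b (l 16730752) (l 16769072))) (a (b (l 16744352) (a (l 16747904) (l 16770160))) (b (a (l 16796768) (l 16733224)) (a (l 16749928) (l 16729160))))) (a (b (l 16691680) (c (l 16691560) (l 16688528))) (b (c (l 16686480) (l 16684168)) (c (l 16696416) (l 16687584))))) (b (b (a (c (l 16767632) (l 16683584)) (c (l 16803000) (l 16721328))) (a (c (l 16765416) (l 16727880)) (c (l 16802008) (l 16736008)))) (c (c (a (l 16807200) (l 16928520)) (a (b (l 16801664) (l 16755304)) (a (l 16829424) (l 16848744)))) (c (a (c (l 16694064) (l 16690328)) (b (l 16752416) (l 16746664))) (a (l 16687192) (l 16692648)))))), by decide +kernel⟩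

def k36_B00pm_011_s3 : ∃ t, chk3 f_B00pm_011_s3 t 22 125 2 = true :=
  ⟨(a (c (b (b (a (c (l 16760944) (l 16701632)) (a (l 16744544) (l 16724640))) (a (a (l 16732688) (l 16736016)) (a (l 16738656) (l 16740632)))) (a (c (a (b (l 16778880) (l 16729704)) (b (l 16803456) (l 16755352))) (b (a (l 16703360) (l 16703712)) (a (l 16705664) (l 16706120)))) (a (c (b (l 16827288) (l 16738232)) (b (l 16720960) (l 16733088))) (c (b (l 16850392) (l 16762264)) (b (l 16745656) (l 16737896)))))) (b (a (a (l 16693536) (l 16693272)) (c (a (l 16695496) (l 16695672)) (l 16690680))) (a (c (b (l 16698216) (l 16699952)) (b (l 16693104) (l 16694256))) (a (a (l 16706936) (l 16707000)) (b (l 16695832) (l 16702752)))))) (c (b (a (b (a (l 16746088) (l 16766968)) (a (l 16741960) (l 16763624))) (c (l 16927424) (a (b (l 16824040) (l 16819968)) (l 16758920)))) (b (c (a (l 16799816) (l 16925792)) (a (a (l 16769624) (l 16792888)) (a (l 16815472) (l 16837392)))) (c (a (a (l 16869400) (l 16891912)) (l 16924288)) (a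 (a (l 16741904) (l 16745144)) (a (l 16726664) (l 16833280)))))) (b (a (c (b (l 16696080) (l 16697336)) (l 16701184)) (a (b (l 16693056) (l 16700464)) (b (l 16725488) (l 16728256)))) (b (a (c (l 16704808) (l 16693144)) (c (a (l 16714904) (l 16738320)) (l 16694104))) (a (c (a (l 16701392) (l 16702160)) (l 16694664)) (c (a (l 16706784) (l 16731144)) (l 16695832))))))), by decide +kernel⟩

def k37_B00pm_011_s3 : ∃ t, chk3 f_B00pm_011_s3 t 22 62 3 = true :=
  ⟨(c (b (a (a (b (l 16682752) (l 16684016)) (b (l 16680648) (l 16682272))) (a (b (l 16679016) (l 16681016)) (b (l 16677896) (l 16690800)))) (a (a (b (l 16685024) (c (l 16688392) (l 16683264))) (b (l 16683616) (c (l 16687592) (l 16681880)))) (b (a (c (l 16685352) (l 16680128)) (c (l 16685344) (l 16679496))) (a (c (l 16687344) (l 16681000)) (a (l 16684168) (l 16694824)))))) (a (a (b (l 16678480) (b (l 16677040) (l 16675848))) (b (l 16675608) (b (l 16674568) (l 16673616)))) (b (a (b (l 16673232) (l 16673008)) (b (l 16671048) (l 16671160)))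 (b (a (l 16672536) (l 16671000)) (a (l 16671848) (l 16670600)))))), by decide +kernel⟩

def k38_B00pm_011_s3 : ∃ t, chk3 f_B00pm_011_s3 t 23 62 2 = true :=
  ⟨(c (a (c (b (a (l 16921192) (l 16995896)) (a (b (l 16965160) (l 16965240)) (b (l 17000720) (l 17002976)))) (b (a (b (l 16879616) (l 16834888)) (b (l 16913320) (l 16912672))) (a (b (a (l 16863000) (l 16882624)) (a (b (l 16858664) (l 16855320)) (l 16794144))) (b (l 16827152) (a (l 16898392) (l 16918200)))))) (c (b (a (l 17027000) (l 17056480)) (a (b (l 17034216) (l 17038336)) (l 17068768))) (b (a (b (l 16945504) (l 16946720)) (l 16977728)) (a (b (l 16947120) (b (l 16946840) (l 16946360))) (b (l 16981224) (l 16982632)))))) (a (b (a (b (b (l 16737416) (l 16732600)) (b (a (l 16738552) (l 16758144)) (a (l 16732584) (l 16752936)))) (a (b (l 16741448) (b (l 16777296) (l 16730864))) (b (l 16738240) (b (l 16712136) (l 16750256))))) (a (a (b (b (l 16726192) (l 16729848)) (c (b (l 16761064) (l 16733816)) (l 16701528))) (b (b (l 16747336)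 (l 16730840)) (c (b (l 16783168) (l 16735784)) (l 16702616)))) (a (b (b (l 16726000) (l 16731248)) (b (c (l 16804648) (l 16709344)) (c (l 16758048) (l 16701880)))) (b (b (l 16746096) (l 16741584)) (b (c (l 16825520) (l 16731624)) (c (l 16779736) (l 16704120))))))) (b (a (a (b (l 16734672) (b (l 16730432) (l 16727240))) (b (l 16751712) (b (l 16748320) (l 16745720)))) (b (a (l 16768400) (l 16784744)) (c (l 16898048) (a (l 16807704) (l 16825568))))) (a (a (b (b (l 16723744) (l 16740888)) (b (c (l 16845808) (l 16753304)) (b (l 16754344) (c (l 16841688) (l 16745960))))) (b (b (l 16742832) (l 16739648)) (b (l 16736160) (b (l 16733328) (c (l 16861960) (l 16725816)))))) (b (c (l 16812232) (a (l 16758920) (l 16819904))) (b (a (l 16756000) (l 16775304)) (a (b (l 16753664) (c (l 16881552) (l 16788864))) (b (l 16773480) (l 16771200))))))))), by decide +kernel⟩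

def k39_B00pm_011_s3 : ∃ t, chk3 f_B00pm_011_s3 t 23 62 3 = true :=
  ⟨(b (a (a (c (b (l 16687856) (c (l 16682880) (l 16677584))) (b (l 16669376) (l 16669848))) (c (b (c (l 16679840) (l 16675168)) (c (l 16683816) (l 16677840))) (b (l 16668280) (l 16669136)))) (c (c (b (a (b (l 16711256) (l 16705576)) (a (l 16735536) (l 16753152))) (a (a (l 16686472) (l 16706176)) (a (l 16725464) (l 16744344)))) (a (b (l 16675696) (l 16678824)) (b (l 16677040) (l 16680656)))) (a (b (l 16667824) (l 16669088)) (b (l 16668112) (l 16669808))))) (c (a (b (a (c (l 16686000) (l 16679472)) (a (l 16693928) (l 16694624))) (a (c (a (l 16688488) (l 16689200)) (l 16681040)) (c (b (l 16689832) (l 16696696)) (a (l 16681800) (l 16682584))))) (b (a (c (a (l 16688976) (l 16693288)) (l 16681560)) (c (a (l 16693040) (l 16734240)) (l 16683840))) (a (b (c (l 16692360) (l 16683376)) (c (a (l 16693488) (l 16695000)) (l 16684600))) (b (c (l 16694184) (l 16685976)) (a (c (l 16697448) (l 16686456)) (b (l 16693128) (l 16693216)))))))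 (a (b (a (l 16670024) (l 16669664)) (a (l 16669920) (c (l 16673960) (l 16666024)))) (b (a (l 16669992) (l 16681592)) (a (c (l 16685672) (l 16666504)) (b (l 16671856) (c (l 16677104) (l 16667480)))))))), by decide +kernel⟩

def k40_B00pm_011_s3 : ∃ t, chk3 f_B00pm_011_s3 t 22 63 2 = true :=
  ⟨(a (b (c (b (b (b (b (a (a (l 16731144) (l 16736104)) (a (l 16731064) (l 16735656))) (l 22)) (l 22)) (l 22)) (l 22)) (c (b (b (b (a (l 16701232) (l 16701928)) (l 22)) (l 22)) (l 22)) (b (a (b (l 16695352) (b (l 16696200) (l 16696600))) (b (l 16705984) (l 22))) (a (a (l 16697856) (l 22)) (l 22))))) (a (a (a (c (l 22) (c (l 22) (b (l 16700072) (b (l 16701840) (l 16703088))))) (l 22)) (l 22)) (l 22))) (b (b (b (b (a (c (c (l 16794320) (a (l 16757472) (l 16740472))) (c (l 16708520) (l 16695776))) (b (a (c (l 16776000) (l 16700496)) (c (l 16798400) (l 16722480))) (l 22))) (l 22)) (l 22)) (l 22)) (l 22))), by decide +kernel⟩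

def k41_B00pm_011_s3 : ∃ t, chk3 f_B00pm_011_s3 t 22 63 6 = true :=
  ⟨(a (b (b (a (b (l 16686304) (b (l 16707568) (l 16686984))) (b (c (l 16688768) (l 16682248)) (c (l 16689312) (l 16682600)))) (a (c (b (l 16690920) (l 16692048)) (l 16685336)) (c (b (l 16690464) (l 16691528)) (l 16684440)))) (a (b (a (c (l 16694096) (l 16688304)) (b (l 16690096) (l 16701880))) (b (c (a (l 16696048) (l 16695664)) (l 16690048)) (a (c (l 16697408) (l 16691824)) (c (l 16697016) (l 16691296))))) (b (b (c (l 16692664) (l 16686368)) (c (a (l 16694056) (l 16693832)) (l 16687712))) (b (a (c (l 16695344) (l 16689376)) (c (l 16695104) (l 16688968))) (a (c (c (l 16698168) (l 16695224)) (l 16690824)) (c (c (l 22) (l 16694936)) (l 16690424))))))) (b (b (b (a (c (l 16688848) (l 16681688)) (c (b (l 16689168) (l 22)) (l 16681536))) (a (l 16696368) (c (l 22) (l 16682312)))) (a (c (b (l 16690400) (l 16691376)) (l 16694408)) (c (l 22) (b (l 16683288) (l 16684352))))) (c (c (l 22) (a (a (a (b (l 16691504) (l 16699328))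 (l 22)) (l 22)) (l 22))) (a (b (b (l 16685768) (l 16687072)) (b (a (l 16688640) (l 16688384)) (a (l 16690088) (l 16689824)))) (b (b (l 16685512) (l 16692008)) (b (a (l 16688200) (l 16688096)) (a (l 16694864) (c (l 22) (l 16687840))))))))), by decide +kernel⟩

def k42_B00pm_011_s3 : ∃ t, chk3 f_B00pm_011_s3 t 22 63 7 = true :=
  ⟨(a (b (b (a (b (l 16674888) (l 16674624)) (b (l 16672872) (l 16672936))) (a (l 16686976) (l 16695968))) (a (b (c (l 16692648) (l 16676480)) (b (l 16681544) (c (l 16685856) (l 16680240)))) (a (b (l 16678248) (b (l 16680504) (l 16682048))) (b (l 16677592) (b (l 16679864) (l 16681424)))))) (b (b (a (b (l 16671400) (l 16671920)) (b (l 16670376) (l 16671224))) (a (l 16684336) (c (l 16676608) (l 16669608)))) (a (a (b (l 16677008) (c (l 16693632) (l 16676984))) (b (l 16686992) (b (l 16678792) (l 16690864)))) (b (c (b (l 16678576) (l 16679968)) (l 16672488)) (b (c (l 16681440) (l 16674840)) (c (a (l 16683168) (l 16682888)) (l 16676464))))))), by decide +kernel⟩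

def k43_B00pm_011_s3 : ∃ t, chk3 f_B00pm_011_s3 t 23 63 1 = true :=
  ⟨(b (c (c (b (a (b (b (b (a (a (l 16820072) (l 16841080)) (l 16870880)) (l 22)) (l 22)) (l 22)) (a (l 16863984) (l 17025320))) (a (l 22) (c (l 17052352) (l 22)))) (a (b (b (b (b (b (a (a (l 16702592) (l 16723920)) (a (l 16726480) (l 16728088))) (l 22)) (l 22)) (l 22)) (l 22)) (l 22)) (b (b (b (c (a (l 16849160) (l 16888744)) (a (l 16732072) (l 16753832))) (l 22)) (l 22)) (l 22)))) (a (c (b (a (b (c (b (l 16690352) (l 22)) (l 16681928)) (c (l 22) (l 16682784))) (b (c (a (l 16691568) (l 16692656)) (l 16683024)) (l 22))) (a (c (l 22) (b (l 16683624) (l 16684576))) (l 22))) (b (a (b (l 16669912) (l 16670976)) (c (l 16685144) (l 16666416))) (a (c (l 16676448) (l 16669016)) (c (l 16676712) (l 16668832))))) (c (b (b (a (c (l 16694464) (l 16684912)) (c (l 16699712) (l 16687208))) (l 22)) (l 22)) (b (a (c (l 16675936) (l 16667136)) (c (l 16677552) (l 16668200))) (a (a (l 16694072) (l 16683936)) (c (l 22) (l 16669784)))))))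 (a (c (l 22) (a (a (c (c (l 22) (a (b (l 16686176) (b (l 16688080) (l 16689456))) (l 22))) (b (c (l 16679024) (l 16671984)) (c (b (l 16681160) (l 16682672)) (l 16675104)))) (c (l 22) (b (c (l 16678960) (l 16671728)) (b (l 16688008) (c (l 16682528) (l 16675632)))))) (c (l 22) (b (c (b (l 16678392) (l 16679632)) (l 16681952)) (b (c (a (l 16681000) (l 6)) (l 16673696)) (l 6)))))) (b (b (a (a (c (l 22) (c (l 22) (l 16674768))) (l 6)) (l 6)) (l 6)) (l 6)))), by decide +kernel⟩

def k44_B00pm_011_s3 : ∃ t, chk3 f_B00pm_011_s3 t 3 2 1 = true :=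
  ⟨(b (l 1) (a (l 4) (l 1))), by decide +kernel⟩

def k45_B00pm_011_s3 : ∃ t, chk3 f_B00pm_011_s3 t 6 6 1 = true :=
  ⟨(b (b (a (l 4) (l 1)) (b (a (l 4) (l 1)) (a (a (l 4) (a (l 4) (l 541850127))) (a (a (a (l 542965519) (l 1)) (l 1)) (l 1))))) (a (c (a (b (c (l 545075215) (l 543209487)) (c (l 544632591) (b (l 542757391) (l 542413839)))) (b (l 544189967) (c (l 544661519) (l 542858255)))) (b (b (a (l 4) (c (l 541851919) (l 540244495))) (a (a (l 539546639) (l 540380687)) (a (l 540625679) (l 540828175)))) (a (b (a (c (l 540635407) (l 538626831)) (l 538902799)) (a (c (l 540171023) (l 538074127)) (c (l 540509967) (l 538554127)))) (a (b (l 540263183) (a (l 539784719) (l 539936527))) (b (l 540499471) (l 540139023)))))) (a (c (b (l 544182799) (c (l 544620815) (l 543006991))) (a (b (a (l 541101327) (l 541172495)) (b (l 540696079) (l 540367887))) (b (a (l 541237007) (l 541295119)) (b (l 540859407) (l 540558351))))) (c (b (l 544150287) (l 543817743)) (b (b (l 1) (l 541302543)) (b (c (l 541760015)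 (l 540355343)) (a (l 540717071) (l 16926832)))))))), by decide +kernel⟩

def k46_B00pm_011_s3 : ∃ t, chk3 f_B00pm_011_s3 t 12 28 1 = true :=
  ⟨(c (c (a (b (l 544220431) (l 543879183)) (l 544202255)) (a (b (a (l 541880591) (l 542129935)) (a (l 541389071) (l 16854360))) (b (l 542402319) (l 542048271)))) (a (c (b (a (l 539641871) (l 540047375)) (a (b (l 539196687) (l 538873103)) (l 539523087))) (b (a (b (l 537614095) (l 537283087)) (b (l 538151951) (l 537864207))) (a (b (l 536931087) (l 536555279)) (b (l 537559055) (l 537234703))))) (c (b (a (l 540374543) (l 16877728)) (a (l 539913999) (l 16867528))) (b (a (l 538470159) (l 538850575)) (a (b (l 538074383) (l 537790991)) (b (l 538499343) (l 538248719))))))), by decide +kernel⟩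

def k47_B00pm_011_s3 : ∃ t, chk3 f_B00pm_011_s3 t 12 29 2 = true :=
  ⟨(c (a (b (l 543472143) (a (b (l 16973472) (a (l 16975840) (l 16994736))) (b (l 17008864) (a (l 17013624) (l 17032528))))) (b (a (l 17019824) (l 17052912)) (b (a (l 17043808) (l 17077904)) (a (l 17060528) (l 17095856))))) (a (b (a (l 540815887) (l 16912840)) (a (b (l 16888240) (b (a (l 16879656) (l 16896528)) (a (l 16878968) (l 16897624)))) (b (a (l 16911880) (l 16927912)) (b (a (l 16913680) (l 16931432)) (l 16927056))))) (a (b (l 16942176) (b (b (l 16950312) (a (l 16945080) (l 16962016))) (l 16962152))) (b (a (l 16964256) (l 16979112)) (b (a (l 16976504) (l 16993000)) (l 16998248)))))), by decide +kernel⟩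

def k48_B00pm_011_s3 : ∃ t, chk3 f_B00pm_011_s3 t 12 29 6 = true :=
  ⟨(a (b (a (b (l 538526223) (l 538154255)) (a (l 538790927) (l 539050767))) (b (a (c (l 16826040) (l 537125391)) (a (l 16826568) (b (l 16842312) (l 16797312)))) (a (b (a (l 16789368) (a (l 16800624) (l 16808504))) (a (b (l 16784128) (a (l 16776504) (l 16785872))) (b (a (l 16796400) (l 16805576)) (l 16800584)))) (b (a (b (l 16821184) (a (l 16815176) (l 16824168))) (b (l 16795400) (l 16838056))) (a (l 16820000) (l 16839216)))))) (b (a (b (l 16867136) (l 16865808)) (b (l 16892296) (a (l 16885760) (l 16899432)))) (b (a (b (a (l 16856224) (l 16870536)) (a (b (l 16854512) (l 16854096)) (c (l 16893216) (l 16848264)))) (a (b (a (l 16881304) (l 16888776)) (l 16888000)) (c (l 16924808) (l 16880192)))) (a (a (c (l 16880792) (l 16833592)) (l 16833696)) (a (l 16894016) (l 16911784)))))), by decide +kernel⟩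

def k49_B00pm_011_s3 : ∃ t, chk3 f_B00pm_011_s3 t 12 29 7 = true :=
  ⟨(a (b (a (b (b (l 536257039) (l 536049935)) (a (l 16739272) (l 16749528))) (a (a (l 535903759) (l 535816975)) (b (l 16782752) (l 16729392)))) (a (b (a (l 16719752) (l 16731752)) (b (a (l 16702120) (a (l 16712248) (l 16719504))) (a (b (l 16692680) (a (l 16682472) (l 16691400))) (b (a (l 16704000) (l 16712760)) (l 16705632))))) (b (a (l 16723120) (b (l 16760648) (b (l 16754560) (a (l 16746928) (l 16712024))))) (b (a (b (a (l 16728616) (l 16735824)) (a (l 16724224) (l 16732848))) (b (a (b (l 16743872) (l 16742808)) (l 16751792)) (l 16746320))) (a (l 16725672) (l 16723552)))))) (b (a (a (b (l 16792968) (l 16740752)) (b (l 16803480) (l 16752312))) (b (c (l 16837624) (l 537517583)) (a (l 16722088) (a (l 16773016) (b (l 16822768) (a (l 16817344) (l 16778576))))))) (a (b (b (a (l 16773000) (b (l 16787064) (a (l 16780760) (c (l 16808720) (l 16766456))))) (a (b (a (l 16764280) (b (l 16771696) (l 16770264))) (a (b (l 16761704)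 (l 16761000)) (l 16769640))) (a (b (b (l 16778616) (l 16778240)) (l 16778160)) (l 16786632)))) (a (b (a (l 16760184) (l 16769080)) (l 16721520)) (b (l 16740512) (l 16740472)))) (b (b (a (b (a (l 16796456) (l 16761096)) (a (c (l 16815944) (l 16773416)) (l 16802568))) (a (b (l 16768024) (l 16810512)) (l 16818000))) (a (c (l 16821184) (l 16777512)) (l 16815664))) (a (b (l 16758392) (l 16717432)) (b (l 16775776) (c (l 16843376) (l 16796664)))))))), by decide +kernel⟩

def k50_B00pm_011_s3 : ∃ t, chk3 f_B00pm_011_s3 t 13 14 1 = true :=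
  ⟨(b (b (a (c (l 543481615) (c (l 540950031) (a (l 539167759) (l 539433743)))) (c (l 17055464) (a (l 540413967) (l 16856056)))) (c (a (l 543227663) (a (l 17073904) (l 17103600))) (a (c (c (l 16941880) (l 540170255)) (a (c (l 16863424) (l 538312719)) (l 538510607))) (a (c (l 16961904) (l 539304975)) (c (l 16986920) (b (l 16911104) (l 16869696))))))) (c (a (b (a (b (l 17036120) (l 16965792)) (a (l 17024016) (l 17081040))) (a (b (l 17063616) (l 17079648)) (l 17102024))) (a (b (a (l 17095920) (l 17110576)) (l 17130960)) (b (l 17132024) (l 6)))) (a (b (a (b (c (l 16917824) (l 538124047)) (c (b (l 16919280) (a (l 16913264) (l 16927856))) (b (a (l 16831536) (c (l 16863960) (l 16823536))) (a (b (c (l 16849768) (l 16808648)) (c (l 16849384) (l 16807472))) (c (l 16863696) (l 16821768)))))) (b (a (l 16813728) (b (l 16909720) (l 16836488))) (b (a (b (l 16813256) (l 16813672)) (l 16827120)) (c (l 16950064) (l 16864192))))) (c (a (b (l 16926368) (a (l 16928408) (l 16944152))) (b (l 16956480)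 (l 16966696))) (a (b (a (c (l 16852208) (l 16808808)) (l 16845600)) (a (c (l 16858480) (l 16812512)) (l 16851200))) (b (a (l 16860368) (l 16874736)) (a (l 16866400) (l 16881088)))))) (b (b (a (c (l 16969800) (b (l 16846256) (a (l 16881536) (l 16894208)))) (c (l 16995936) (a (l 16906256) (l 16918752)))) (a (c (l 16976368) (l 16890552)) (l 16875784))) (a (c (l 16989784) (b (l 16895560) (l 16902208))) (l 6)))))), by decide +kernel⟩

def k51_B00pm_011_s3 : ∃ t, chk3 f_B00pm_011_s3 t 12 30 2 = true :=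
  ⟨(a (b (c (a (b (l 16999424) (l 17015376)) (b (l 17040496) (l 17058608))) (a (b (a (l 16882184) (l 16903376)) (a (c (l 16916304) (l 16858432)) (l 16910560))) (b (a (l 16924248) (l 16944752)) (a (l 16933296) (l 16955456))))) (c (a (b (l 17031144) (c (l 17080928) (l 17011424))) (b (l 17076864) (l 17094800))) (a (b (a (b (l 16890280) (l 16891720)) (c (l 16948160) (l 16885296))) (a (b (l 16808736) (l 16809008)) (b (l 16920224) (l 16838072)))) (b (a (l 16941544) (l 16965584)) (a (c (l 16982136) (l 16914720)) (l 16890744)))))) (b (c (a (b (l 17079248) (l 17098856)) (l 17125760)) (a (b (l 16974720) (a (l 16977016) (l 16997944))) (b (l 17013088) (l 17028136)))) (b (a (a (l 16964832) (l 17069968)) (c (l 17157048) (l 17043272))) (a (c (l 17138800) (a (l 16999760) (l 17023832))) (l 6))))), by decide +kernel⟩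

def k52_B00pm_011_s3 : ∃ t, chk3 f_B00pm_011_s3 t 24 30 3 = true :=
  ⟨(b (b (a (a (b (c (l 16779544) (l 16681400)) (c (l 16777160) (l 16673528))) (b (c (l 16800008) (l 16701424)) (c (l 16798960) (l 16695264)))) (a (b (c (l 16820416) (l 16721608)) (c (l 16820600) (l 16717024))) (b (c (l 16840696) (l 16741840)) (c (l 16842008) (l 16738720))))) (a (a (b (c (l 16774272) (l 16706760)) (c (l 16728848) (l 16655144))) (b (c (l 16797504) (l 16688368)) (c (l 16711656) (l 16722568)))) (a (b (c (l 16820456) (l 16711816)) (c (l 16736008) (l 16705872))) (b (c (l 16843056) (l 16735072)) (c (l 16843760) (l 16730792)))))) (a (a (b (b (c (l 16724664) (l 16655728)) (c (b (l 16762952) (l 16760248)) (l 16659920))) (c (b (b (l 16757320) (l 16754144)) (c (l 16742992) (l 16676184))) (b (l 16663544) (l 16666640)))) (b (b (c (l 16751040) (l 16713888)) (c (a (l 16782768) (l 16796656)) (l 16667472))) (c (b (a (l 16778312) (l 16751136)) (a (l 16731040) (l 16746744))) (b (c (l 16726896) (l 16662176)) (c (l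 16674736) (l 16665152)))))) (b (b (a (c (l 16734928) (l 16720072)) (c (l 16760160) (a (l 16719168) (l 16732392)))) (a (c (c (l 16848664) (l 16785664)) (c (l 16722800) (l 16660064))) (c (l 16759936) (a (l 16712904) (l 16727040))))) (b (c (a (a (l 16807632) (l 16821960)) (c (l 16875424) (l 16810624))) (a (c (l 16715760) (l 16663784)) (a (l 16705736) (l 16720816)))) (a (c (a (l 16720248) (l 16735440)) (c (l 16676264) (l 16667296))) (c (c (l 16875456) (l 16807704)) (c (l 16739720) (l 16671512)))))))), by decide +kernel⟩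

def k53_B00pm_011_s3 : ∃ t, chk3 f_B00pm_011_s3 t 25 30 3 = true :=
  ⟨(b (a (c (b (a (c (l 16887504) (l 16836600)) (c (l 16907656) (l 16857040))) (a (b (l 16865264) (l 16867128)) (c (l 16915792) (l 16861368)))) (b (a (b (l 16720112) (l 16718352)) (b (l 16740240) (l 16739736))) (a (b (l 16716144) (l 16734376)) (b (l 16738864) (l 16737536))))) (b (a (c (l 16902264) (b (l 16718304) (l 16718952))) (c (l 16921928) (b (l 16738160) (l 16823736)))) (a (c (c (l 16937216) (l 16883480)) (b (l 16761256) (l 16761232))) (c (l 16931568) (b (l 16825232) (l 16742520)))))) (a (b (a (c (b (l 16868640) (l 16785848)) (b (a (l 16745488) (l 16758448)) (a (l 16741000) (l 16754800)))) (b (c (l 16892584) (a (l 16771264) (l 16783944))) (c (l 16894872) (a (l 16768416) (l 16781864))))) (c (a (b (l 16786456) (c (l 16903480) (l 16837256))) (b (l 16896752) (l 6))) (b (a (a (l 16735712) (l 16750392)) (a (l 16764864) (l 16779128))) (a (a (l 16729528) (l 16745160)) (l 6))))) (b (a (c (c (l 16946416) (l 16888800))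 (b (a (l 16796488) (l 16808880)) (a (l 16795136) (l 6)))) (c (l 16898744) (b (l 16743320) (l 6)))) (l 6)))), by decide +kernel⟩

def k54_B00pm_011_s3 : ∃ t, chk3 f_B00pm_011_s3 t 12 31 2 = true :=
  ⟨(b (a (c (a (b (a (l 17046096) (l 17073560)) (b (l 16985416) (a (l 16975216) (l 17089040)))) (b (l 17112016) (l 6))) (b (b (a (a (c (l 16930208) (l 16854696)) (l 16839224)) (a (l 16952408) (l 16980408))) (a (a (a (l 16799096) (l 16815640)) (c (l 16962144) (l 16884960))) (a (l 16870520) (l 6)))) (a (a (b (c (l 16930824) (a (l 16838472) (l 16856584))) (b (c (l 16930248) (l 16760000)) (b (a (l 16792568) (l 16810976)) (l 16799632)))) (a (b (l 16831160) (b (l 16914040) (l 6))) (b (l 16931672) (l 6)))) (l 6)))) (l 6)) (b (b (b (a (a (a (a (c (l 17051008) (l 16786328)) (l 6)) (l 6)) (l 6)) (l 6)) (l 6)) (l 6)) (l 6))), by decide +kernel⟩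

def k55_B00pm_011_s3 : ∃ t, chk3 f_B00pm_011_s3 t 12 31 3 = true :=
  ⟨(b (a (b (a (c (a (b (a (l 16732264) (l 16728664)) (c (a (l 16762816) (l 16780896)) (a (l 16682656) (l 16701264)))) (a (b (l 16735224) (b (l 16761264) (l 16757312))) (b (l 16741464) (b (l 16778800) (l 16775416))))) (a (b (l 16679728) (l 16681872)) (b (c (l 16675016) (l 16667616)) (c (l 16678304) (l 16669608))))) (b (b (a (c (l 16746024) (l 16673512)) (c (l 16756192) (l 16720192))) (a (c (a (l 16798592) (l 16814920)) (l 16675208)) (c (l 16754952) (l 16736536)))) (a (c (a (b (l 16795976) (l 16793128)) (b (l 16812800) (l 6))) (c (l 16688328) (l 16672760))) (l 6)))) (a (c (b (b (a (a (l 16714408) (l 16733960)) (a (l 16753064) (l 16771752))) (a (c (l 16698536) (l 16687944)) (c (l 16757800) (l 16716496)))) (a (a (b (l 16723312) (b (l 16697416) (l 16695032))) (b (l 16723256) (c (b (l 16763016) (l 6)) (l 16691296)))) (b (a (l 16743664) (l 6)) (l 6)))) (b (a (c (l 16677688) (l 16668592)) (c (l 16681120) (l 16671152)))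 (a (b (l 16674144) (c (l 16679600) (l 16669288))) (b (l 16688048) (l 6))))) (l 6))) (l 6)) (a (a (a (a (b (b (b (c (l 16699856) (l 16674112)) (l 6)) (l 6)) (l 6)) (l 6)) (l 6)) (l 6)) (l 6))), by decide +kernel⟩

def k56_B00pm_011_s3 : ∃ t, chk3 f_B00pm_011_s3 t 13 15 1 = true :=
  ⟨(b (c (b (a (a (c (l 17158632) (b (l 17047728) (l 17065464))) (c (l 17187512) (l 17086288))) (l 6)) (l 6)) (a (b (a (a (b (c (l 16940352) (b (l 16798656) (a (l 16839240) (l 16848944)))) (c (l 16952360) (b (l 16846936) (l 16849160)))) (b (c (l 16956728) (c (l 16883376) (l 16834872))) (l 6))) (b (c (l 16979152) (a (l 16874656) (l 6))) (l 6))) (l 6)) (l 6))) (l 6)), by decide +kernel⟩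

def k57_B00pm_011_s3 : ∃ t, chk3 f_B00pm_011_s3 t 7 3 1 = true :=
  ⟨(b (b (l 1) (a (a (a (b (l 1) (b (l 1) (b (l 1) (l 11844996903)))) (l 1)) (l 1)) (l 1))) (b (c (a (a (b (b (l 17115328) (a (l 17133024) (a (l 17155112) (l 17169656)))) (b (c (l 17219968) (l 17127680)) (l 6))) (b (b (l 1) (l 6)) (l 6))) (l 6)) (a (b (b (a (c (a (l 16996552) (l 17021424)) (a (l 16929320) (l 16950856))) (l 1)) (a (a (b (l 16970448) (c (l 17015256) (b (l 16933872) (a (l 16928664) (l 16940552))))) (b (c (l 17033608) (a (l 16949496) (l 16960696))) (a (b (l 16907544) (l 6)) (l 6)))) (l 6))) (b (a (a (b (l 16916320) (l 6)) (l 6)) (l 6)) (l 6))) (l 6))) (l 6))), by decide +kernel⟩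

theorem t58_B00pm_011_s3 : ∃ t, chk3 f_B00pm_011_s3 t 12 31 1 = true := ex3_c k54_B00pm_011_s3 k55_B00pm_011_s3

theorem t59_B00pm_011_s3 : ∃ t, chk3 f_B00pm_011_s3 t 12 30 3 = true := ex3_a k52_B00pm_011_s3 k53_B00pm_011_s3

theorem t60_B00pm_011_s3 : ∃ t, chk3 f_B00pm_011_s3 t 12 30 1 = true := ex3_c k51_B00pm_011_s3 t59_B00pm_011_s3

theorem t61_B00pm_011_s3 : ∃ t, chk3 f_B00pm_011_s3 t 12 15 1 = true := ex3_b t60_B00pm_011_s3 t58_B00pm_011_s3

theorem t62_B00pm_011_s3 : ∃ t, chk3 f_B00pm_011_s3 t 6 15 1 = true := ex3_a t61_B00pm_011_s3 k56_B00pm_011_s3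

theorem t63_B00pm_011_s3 : ∃ t, chk3 f_B00pm_011_s3 t 12 29 3 = true := ex3_c k48_B00pm_011_s3 k49_B00pm_011_s3

theorem t64_B00pm_011_s3 : ∃ t, chk3 f_B00pm_011_s3 t 12 29 1 = true := ex3_c k47_B00pm_011_s3 t63_B00pm_011_s3

theorem t65_B00pm_011_s3 : ∃ t, chk3 f_B00pm_011_s3 t 12 14 1 = true := ex3_b k46_B00pm_011_s3 t64_B00pm_011_s3

theorem t66_B00pm_011_s3 : ∃ t, chk3 f_B00pm_011_s3 t 6 14 1 = true := ex3_a t65_B00pm_011_s3 k50_B00pm_011_s3

theorem t67_B00pm_011_s3 : ∃ t, chk3 f_B00pm_011_s3 t 6 7 1 = true := ex3_b t66_B00pm_011_s3 t62_B00pm_011_s3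

theorem t68_B00pm_011_s3 : ∃ t, chk3 f_B00pm_011_s3 t 6 3 1 = true := ex3_b k45_B00pm_011_s3 t67_B00pm_011_s3

theorem t69_B00pm_011_s3 : ∃ t, chk3 f_B00pm_011_s3 t 3 3 1 = true := ex3_a t68_B00pm_011_s3 k57_B00pm_011_s3

theorem t70_B00pm_011_s3 : ∃ t, chk3 f_B00pm_011_s3 t 3 1 1 = true := ex3_b k44_B00pm_011_s3 t69_B00pm_011_s3

theorem t71_B00pm_011_s3 : ∃ t, chk3 f_B00pm_011_s3 t 22 63 3 = true := ex3_c k41_B00pm_011_s3 k42_B00pm_011_s3

theorem t72_B00pm_011_s3 : ∃ t, chk3 f_B00pm_011_s3 t 22 63 1 = true := ex3_c k40_B00pm_011_s3 t71_B00pm_011_s3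

theorem t73_B00pm_011_s3 : ∃ t, chk3 f_B00pm_011_s3 t 11 63 1 = true := ex3_a t72_B00pm_011_s3 k43_B00pm_011_s3

theorem t74_B00pm_011_s3 : ∃ t, chk3 f_B00pm_011_s3 t 23 62 1 = true := ex3_c k38_B00pm_011_s3 k39_B00pm_011_s3

theorem t75_B00pm_011_s3 : ∃ t, chk3 f_B00pm_011_s3 t 22 62 2 = true := ex3_b k35_B00pm_011_s3 k36_B00pm_011_s3

theorem t76_B00pm_011_s3 : ∃ t, chk3 f_B00pm_011_s3 t 22 62 1 = true := ex3_c t75_B00pm_011_s3 k37_B00pm_011_s3

theorem t77_B00pm_011_s3 : ∃ t, chk3 f_B00pm_011_s3 t 11 62 1 = true := ex3_a t76_B00pm_011_s3 t74_B00pm_011_s3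

theorem t78_B00pm_011_s3 : ∃ t, chk3 f_B00pm_011_s3 t 11 31 1 = true := ex3_b t77_B00pm_011_s3 t73_B00pm_011_s3

theorem t79_B00pm_011_s3 : ∃ t, chk3 f_B00pm_011_s3 t 23 30 1 = true := ex3_b k33_B00pm_011_s3 k34_B00pm_011_s3

theorem t80_B00pm_011_s3 : ∃ t, chk3 f_B00pm_011_s3 t 22 30 1 = true := ex3_b k31_B00pm_011_s3 k32_B00pm_011_s3

theorem t81_B00pm_011_s3 : ∃ t, chk3 f_B00pm_011_s3 t 11 30 1 = true := ex3_a t80_B00pm_011_s3 t79_B00pm_011_s3

theorem t82_B00pm_011_s3 : ∃ t, chk3 f_B00pm_011_s3 t 11 15 1 = true := ex3_b t81_B00pm_011_s3 t78_B00pm_011_s3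

theorem t83_B00pm_011_s3 : ∃ t, chk3 f_B00pm_011_s3 t 21 63 2 = true := ex3_b k28_B00pm_011_s3 k29_B00pm_011_s3

theorem t84_B00pm_011_s3 : ∃ t, chk3 f_B00pm_011_s3 t 21 63 1 = true := ex3_c t83_B00pm_011_s3 k30_B00pm_011_s3

theorem t85_B00pm_011_s3 : ∃ t, chk3 f_B00pm_011_s3 t 21 31 1 = true := ex3_b k27_B00pm_011_s3 t84_B00pm_011_s3

theorem t86_B00pm_011_s3 : ∃ t, chk3 f_B00pm_011_s3 t 20 127 2 = true := ex3_a k24_B00pm_011_s3 k25_B00pm_011_s3

theorem t87_B00pm_011_s3 : ∃ t, chk3 f_B00pm_011_s3 t 20 127 1 = true := ex3_c t86_B00pm_011_s3 k26_B00pm_011_s3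

theorem t88_B00pm_011_s3 : ∃ t, chk3 f_B00pm_011_s3 t 20 63 1 = true := ex3_b k23_B00pm_011_s3 t87_B00pm_011_s3

theorem t89_B00pm_011_s3 : ∃ t, chk3 f_B00pm_011_s3 t 20 31 1 = true := ex3_b k22_B00pm_011_s3 t88_B00pm_011_s3

theorem t90_B00pm_011_s3 : ∃ t, chk3 f_B00pm_011_s3 t 10 31 1 = true := ex3_a t89_B00pm_011_s3 t85_B00pm_011_s3

theorem t91_B00pm_011_s3 : ∃ t, chk3 f_B00pm_011_s3 t 21 30 1 = true := ex3_b k20_B00pm_011_s3 k21_B00pm_011_s3

theorem t92_B00pm_011_s3 : ∃ t, chk3 f_B00pm_011_s3 t 20 30 1 = true := ex3_b k18_B00pm_011_s3 k19_B00pm_011_s3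

theorem t93_B00pm_011_s3 : ∃ t, chk3 f_B00pm_011_s3 t 10 30 1 = true := ex3_a t92_B00pm_011_s3 t91_B00pm_011_s3

theorem t94_B00pm_011_s3 : ∃ t, chk3 f_B00pm_011_s3 t 10 15 1 = true := ex3_b t93_B00pm_011_s3 t90_B00pm_011_s3

theorem t95_B00pm_011_s3 : ∃ t, chk3 f_B00pm_011_s3 t 5 15 1 = true := ex3_a t94_B00pm_011_s3 t82_B00pm_011_s3

theorem t96_B00pm_011_s3 : ∃ t, chk3 f_B00pm_011_s3 t 11 14 1 = true := ex3_b k16_B00pm_011_s3 k17_B00pm_011_s3

theorem t97_B00pm_011_s3 : ∃ t, chk3 f_B00pm_011_s3 t 5 14 1 = true := ex3_a k15_B00pm_011_s3 t96_B00pm_011_s3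

theorem t98_B00pm_011_s3 : ∃ t, chk3 f_B00pm_011_s3 t 5 7 1 = true := ex3_b t97_B00pm_011_s3 t95_B00pm_011_s3

theorem t99_B00pm_011_s3 : ∃ t, chk3 f_B00pm_011_s3 t 5 3 1 = true := ex3_b k14_B00pm_011_s3 t98_B00pm_011_s3

theorem t100_B00pm_011_s3 : ∃ t, chk3 f_B00pm_011_s3 t 19 127 1 = true := ex3_a k12_B00pm_011_s3 k13_B00pm_011_s3

theorem t101_B00pm_011_s3 : ∃ t, chk3 f_B00pm_011_s3 t 19 63 1 = true := ex3_b k11_B00pm_011_s3 t100_B00pm_011_s3

theorem t102_B00pm_011_s3 : ∃ t, chk3 f_B00pm_011_s3 t 19 31 1 = true := ex3_b k10_B00pm_011_s3 t101_B00pm_011_s3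

theorem t103_B00pm_011_s3 : ∃ t, chk3 f_B00pm_011_s3 t 18 63 1 = true := ex3_b k8_B00pm_011_s3 k9_B00pm_011_s3

theorem t104_B00pm_011_s3 : ∃ t, chk3 f_B00pm_011_s3 t 18 31 1 = true := ex3_b k7_B00pm_011_s3 t103_B00pm_011_s3

theorem t105_B00pm_011_s3 : ∃ t, chk3 f_B00pm_011_s3 t 9 31 1 = true := ex3_a t104_B00pm_011_s3 t102_B00pm_011_s3

theorem t106_B00pm_011_s3 : ∃ t, chk3 f_B00pm_011_s3 t 9 15 1 = true := ex3_b k6_B00pm_011_s3 t105_B00pm_011_s3

theorem t107_B00pm_011_s3 : ∃ t, chk3 f_B00pm_011_s3 t 8 31 1 = true := ex3_b k4_B00pm_011_s3 k5_B00pm_011_s3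

theorem t108_B00pm_011_s3 : ∃ t, chk3 f_B00pm_011_s3 t 8 15 1 = true := ex3_b k3_B00pm_011_s3 t107_B00pm_011_s3

theorem t109_B00pm_011_s3 : ∃ t, chk3 f_B00pm_011_s3 t 4 15 1 = true := ex3_a t108_B00pm_011_s3 t106_B00pm_011_s3

theorem t110_B00pm_011_s3 : ∃ t, chk3 f_B00pm_011_s3 t 4 7 1 = true := ex3_b k2_B00pm_011_s3 t109_B00pm_011_s3

theorem t111_B00pm_011_s3 : ∃ t, chk3 f_B00pm_011_s3 t 4 3 1 = true := ex3_b k1_B00pm_011_s3 t110_B00pm_011_s3

theorem t112_B00pm_011_s3 : ∃ t, chk3 f_B00pm_011_s3 t 2 3 1 = true := ex3_a t111_B00pm_011_s3 t99_B00pm_011_s3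

theorem t113_B00pm_011_s3 : ∃ t, chk3 f_B00pm_011_s3 t 2 1 1 = true := ex3_b k0_B00pm_011_s3 t112_B00pm_011_s3

theorem t114_B00pm_011_s3 : ∃ t, chk3 f_B00pm_011_s3 t 1 1 1 = true := ex3_a t113_B00pm_011_s3 t70_B00pm_011_s3

theorem c_B00pm_011_s3 : CertF 0 536870912 536870912 536870912 201326592 134217728 false true false .pnn 0 1 1
    ndF0q0 ndF0q1 pcF1 cut_B00pm_011_s3 xt_B00pm_011_s3 :=
  certFK0 (fam := false) (s1 := true) (s2 := false) (a := 0) (b := 1) (c := 1) (cn := .pnn) (n1 := ndF0q0) (n2 := ndF0q1) (pc := pcF1) (cut := cut_B00pm_011_s3) (xt := xt_B00pm_011_s3) (P1 := 0) (W1 := 536870912) (P2 := 536870912) (W2 := 536870912) (P3 := 201326592) (W3 := 134217728)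
    rfl rfl rfl t114_B00pm_011_s3

theorem s_B00pm_011_s3 {κ x : ℝ} (hκ : κ * h0 = ken x) (hx : ((201326592 : ℕ) : ℝ) / S ≤ x)
    (hx' : x ≤ (((201326592 : ℕ) : ℝ) + (134217728 : ℕ)) / S)
    (H : CutB (VF κ) PP tKF tL pcF (Cut.of [[⟨0, 0, 0, 67108864⟩, ⟨1, 1, 0, 67108864⟩, ⟨2, 1, 0, 67108864⟩], [⟨0, 0, 1, 67108864⟩, ⟨1, 1, 2, 67108864⟩, ⟨2, 1, 0, 16777216⟩]]) 0 1 1 0 0 (sgb true) (sgb false) x) :
    AltB (VF κ) PP tKF tL pcF [⟨4, 0, 0, 2845415833⟩] 0 1 1 0 0 (sgb true) (sgb false) x :=
  strip_altB (m := 2845415833) false rfl hκ covF00 covF01 hx hx' c_B00pm_011_s3 H ((okx hx hx').extB (T := tt) (sideF hx hx') hκ rfl rfl (.O 0 true) (.O 1 false) (Or.inr rfl))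

noncomputable def cut_B00pm_012_s1 : Cut := Cut.of [[⟨4, 0, 0, 1449551462⟩], [⟨0, 0, 0, 53687091⟩, ⟨1, 1, 0, 53687091⟩, ⟨2, 1, 0, 53687091⟩], [⟨0, 0, 1, 67108864⟩, ⟨1, 1, 2, 67108864⟩, ⟨2, 1, 0, 16777216⟩]]

noncomputable def xt_B00pm_012_s1 : Ext := strExt dd false true false .u0 .u2 .u0m .pnp 0 1 2 rfl rfl gf1 vv ndF0q0 ndF0q2

noncomputable def f_B00pm_012_s1 : ℕ → ℕ → ℕ → ℕ → Bool := onCell 0 536870912 0 536870912 201326592 134217728
    (rowFK 0 false true false .pnp 0 1 2 (qsf 0 536870912 0 536870912 1) ndF0q0 ndF0q2 pcF1 cut_B00pm_012_s1 xt_B00pm_012_s1)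

def k0_B00pm_012_s1 : ∃ t, chk3 f_B00pm_012_s1 t 1 1 1 = true :=
  ⟨(a (l 6) (b (a (a (l 6) (b (b (a (l 6) (b (l 16945360) (l 6))) (l 6)) (l 6))) (b (b (a (a (b (l 16943520) (l 6)) (b (l 16929176) (l 16954968))) (a (b (a (l 16914192) (l 16903176)) (a (l 16940952) (l 16930776))) (a (l 540741903) (l 540311311)))) (a (l 6) (a (b (l 16963120) (l 6)) (b (a (l 16948576) (l 16938608)) (l 17057056))))) (l 6))) (l 6))), by decide +kernel⟩

theorem c_B00pm_012_s1 : CertF 0 536870912 0 536870912 201326592 134217728 false true false .pnp 0 1 2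
    ndF0q0 ndF0q2 pcF1 cut_B00pm_012_s1 xt_B00pm_012_s1 :=
  certFK0 (fam := false) (s1 := true) (s2 := false) (a := 0) (b := 1) (c := 2) (cn := .pnp) (n1 := ndF0q0) (n2 := ndF0q2) (pc := pcF1) (cut := cut_B00pm_012_s1) (xt := xt_B00pm_012_s1) (P1 := 0) (W1 := 536870912) (P2 := 0) (W2 := 536870912) (P3 := 201326592) (W3 := 134217728)
    rfl rfl rfl k0_B00pm_012_s1

theorem s_B00pm_012_s1 {κ x : ℝ} (hκ : κ * h0 = ken x) (hx : ((201326592 : ℕ) : ℝ) / S ≤ x)
    (hx' : x ≤ (((201326592 : ℕ) : ℝ) + (134217728 : ℕ)) / S)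
    (H : CutB (VF κ) PP tKF tL pcF (Cut.of [[⟨0, 0, 0, 53687091⟩, ⟨1, 1, 0, 53687091⟩, ⟨2, 1, 0, 53687091⟩], [⟨0, 0, 1, 67108864⟩, ⟨1, 1, 2, 67108864⟩, ⟨2, 1, 0, 16777216⟩]]) 0 1 2 0 0 (sgb true) (sgb false) x) :
    AltB (VF κ) PP tKF tL pcF [⟨3, 0, 0, 1449551462⟩] 0 1 2 0 0 (sgb true) (sgb false) x :=
  strip_altB (m := 1449551462) true rfl hκ covF00 covF02 hx hx' c_B00pm_012_s1 H ((okx hx hx').extB (T := tt) (sideF hx hx') hκ rfl rfl (.O 0 true) (.O 2 false) (Or.inr rfl))

end Pool.Agent.Strip051.G.I3_16_5_16.Tab.St.C
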