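import Pool.Agent.Strip051.G.I3_16_5_16.StF

/-! # Unit strips 8 (generated) -/

set_option linter.all false
set_option maxRecDepth 100000

namespace Pool.Agent.Strip051.G.I3_16_5_16.Tab.St.C

open Pool.Agent.Strip051.PB Pool.Agent.Strip051.PB.T Pool.Agent.StripNear Pool.Agent.Strip051.LC
open Pool.Agent.Strip051.G.I3_16_5_16.Tab Pool.Agent.Strip051.G.I3_16_5_16.Tab.St

noncomputable def cut_B00pm_012_s3 : Cut := Cut.of [[⟨3, 0, 0, 2845415833⟩], [⟨0, 0, 0, 53687091⟩, ⟨1, 1, 0, 53687091⟩, ⟨2, 1, 0, 53687091⟩], [⟨0, 0, 1, 67108864⟩, ⟨1, 1, 2, 67108864⟩, ⟨2, 1, 0, 16777216⟩]]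

noncomputable def f_B00pm_012_s3 : ℕ → ℕ → ℕ → ℕ → Bool := onCell 536870912 536870912 0 536870912 201326592 134217728
    (rowFK 2 false true false .pnp 0 1 2 (qsf 0 536870912 0 536870912 1) ndF0q0 ndF0q2 pcF1 cut_B00pm_012_s3 Ext.none)

def k0_B00pm_012_s3 : ∃ t, chk3 f_B00pm_012_s3 t 2 1 1 = true :=
  ⟨(a (l 6) (b (l 6) (l 6))), by decide +kernel⟩

def k1_B00pm_012_s3 : ∃ t, chk3 f_B00pm_012_s3 t 3 2 1 = true :=
  ⟨(l 6), by decide +kernel⟩

def k2_B00pm_012_s3 : ∃ t, chk3 f_B00pm_012_s3 t 3 6 1 = true :=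
  ⟨(a (l 6) (l 6)), by decide +kernel⟩

def k3_B00pm_012_s3 : ∃ t, chk3 f_B00pm_012_s3 t 12 7 1 = true :=
  ⟨(b (l 6) (b (l 6) (a (a (l 6) (a (l 6) (a (l 6) (b (l 6) (b (l 6) (b (l 6) (c (l 22) (b (l 6) (c (c (l 22) (l 16690184)) (l 16690712)))))))))) (b (a (l 6) (b (l 6) (a (l 6) (b (l 6) (c (l 16708952) (l 16690264)))))) (b (a (a (l 6) (a (l 6) (c (l 22) (c (l 16694168) (l 16683048))))) (c (a (l 22) (a (l 22) (c (l 22) (l 16704808)))) (a (c (b (l 16694488) (l 16694192)) (b (l 16683832) (l 16683200))) (c (b (l 16694824) (l 16694656)) (b (l 16684536) (l 16684088)))))) (b (c (a (l 22) (a (l 22) (a (l 22) (c (l 22) (l 16705416))))) (a (a (a (l 6) (c (l 16693592) (l 16681424))) (c (c (l 16696624) (l 16690784)) (l 16692400))) (a (c (a (l 16694008) (l 16694256)) (c (l 16685624) (l 16679912))) (c (c (l 16697360) (l 16692000)) (l 16683848))))) (c (c (l 22) (c (l 22) (c (l 22) (a (l 22) (a (l 22) (a (l 22) (l 16701976)))))))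 (c (b (a (a (c (l 22) (l 16690328)) (a (l 16698880) (l 16704288))) (a (a (l 16704520) (l 16694320)) (c (l 16697560) (l 16692072)))) (c (a (a (l 22) (a (l 22) (l 16702128))) (a (a (l 16697072) (l 16697320)) (a (l 16697624) (l 16698000)))) (a (a (a (l 16690248) (l 16690376)) (a (l 16690576) (l 16690832))) (a (a (l 16691152) (l 16691536)) (l 16692192))))) (a (c (b (a (l 16684024) (l 16684632)) (a (l 16683864) (l 16684536))) (a (l 16677560) (l 16678480))) (a (a (l 16682304) (l 16682872)) (b (l 16683784) (l 16683816)))))))))))), by decide +kernel⟩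

def k4_B00pm_012_s3 : ∃ t, chk3 f_B00pm_012_s3 t 13 14 1 = true :=
  ⟨(l 6), by decide +kernel⟩

def k5_B00pm_012_s3 : ∃ t, chk3 f_B00pm_012_s3 t 13 30 1 = true :=
  ⟨(c (a (b (l 6) (a (l 6) (b (l 6) (a (l 6) (l 16708768))))) (b (a (l 6) (b (l 6) (a (l 6) (l 16707640)))) (a (b (a (l 6) (l 16708552)) (a (l 16708632) (l 16708512))) (b (a (l 16708104) (l 16707728)) (a (c (l 16711376) (l 16705280)) (c (l 16711384) (l 16705360))))))) (a (b (l 6) (a (l 6) (b (l 6) (a (l 6) (c (l 16698352) (l 16690112)))))) (b (a (l 6) (a (l 6) (b (l 6) (c (l 16698408) (l 16690864))))) (a (b (a (l 6) (c (l 16698888) (l 16691080))) (a (c (l 16698296) (l 16690200)) (c (l 16698296) (l 16690368)))) (a (b (c (l 16698464) (l 16690776)) (c (l 16698368) (l 16690632))) (b (c (l 16698144) (a (l 16690648) (l 16690584))) (c (l 16698584) (a (l 16690960) (l 16691192))))))))), by decide +kernel⟩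

def k6_B00pm_012_s3 : ∃ t, chk3 f_B00pm_012_s3 t 26 31 2 = true :=
  ⟨(b (b (a (a (l 6) (l 16708664)) (a (l 16708696) (c (l 16712136) (l 16705248)))) (c (a (l 22) (a (l 22) (l 16713192))) (a (a (l 16704648) (l 16704856)) (a (l 16705192) (l 16705624))))) (b (c (a (l 22) (a (l 22) (b (l 16714392) (b (l 16715136) (l 16715688))))) (a (a (b (l 16704792) (l 16705136)) (b (l 16705168) (l 16705608))) (a (b (l 16705680) (l 16706248)) (b (l 16706344) (l 16707064))))) (b (c (a (l 22) (a (l 22) (a (l 22) (l 16722104)))) (a (a (a (l 16705592) (l 16705832)) (a (l 16706120) (l 16706464))) (a (a (l 16706848) (l 16707288)) (a (l 16707776) (l 16708312))))) (b (c (a (l 22) (a (l 22) (a (l 22) (c (l 22) (l 16715720))))) (a (a (c (l 22) (l 16708808)) (a (l 16711928) (l 16717552))) (a (a (l 16707504) (l 16708000)) (a (l 16708544) (l 16709144))))) (a (c (l 22) (c (a (l 22) (a (l 22) (a (l 22) (l 16710120)))) (a (a (l 16703792) (l 16704152))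 (a (l 16704568) (l 16705048))))) (c (a (l 22) (a (l 22) (a (l 22) (c (l 22) (l 16716568))))) (a (a (c (l 16715656) (l 16705584)) (c (l 16710880) (l 16706176))) (a (a (l 16714224) (l 16709288)) (a (l 16709616) (l 16709952)))))))))), by decide +kernel⟩

def k7_B00pm_012_s3 : ∃ t, chk3 f_B00pm_012_s3 t 27 62 2 = true :=
  ⟨(a (b (a (c (l 16712224) (l 16705456)) (b (l 16708896) (l 16709368))) (a (c (l 16713504) (l 16706168)) (b (l 16710024) (c (l 16714392) (l 16707192))))) (a (b (c (l 16712584) (l 16706096)) (b (c (l 16713896) (l 16707144)) (c (l 16715008) (l 16708088)))) (b (c (l 16712960) (b (l 16706224) (l 16707040))) (c (b (l 16714552) (l 16715848)) (a (l 16708392) (l 16708920)))))), by decide +kernel⟩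

def k8_B00pm_012_s3 : ∃ t, chk3 f_B00pm_012_s3 t 27 126 2 = true :=
  ⟨(a (a (b (c (l 16714880) (l 16707144)) (c (a (l 16715944) (l 16716296)) (l 16718528))) (b (c (l 16715512) (l 16708104)) (c (a (l 16716688) (l 16717128)) (l 16714440)))) (a (b (c (l 16716288) (l 16709208)) (c (a (l 16717608) (l 16718128)) (a (l 16710272) (l 16710984)))) (c (b (a (l 16717096) (l 16717632)) (a (l 16718696) (l 16719328))) (a (b (l 16710248) (l 16711736)) (b (l 16710952) (l 16712560)))))), by decide +kernel⟩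

def k9_B00pm_012_s3 : ∃ t, chk3 f_B00pm_012_s3 t 27 127 2 = true :=
  ⟨(b (a (a (c (a (l 16722480) (b (l 16717288) (l 16718016))) (a (l 16708896) (l 16709536))) (c (a (b (l 16717744) (l 16718504)) (b (l 16718240) (l 16719040))) (a (l 16710216) (l 16710944)))) (a (c (a (b (l 16718776) (l 16719624)) (b (l 16719368) (l 16720256))) (a (l 16711720) (l 16712544))) (c (a (c (l 16722216) (l 16718720)) (c (l 16722904) (l 16719504))) (a (l 16713408) (l 16714352))))) (a (b (a (c (c (l 22) (a (l 16716192) (l 16716720))) (a (l 16709792) (l 16710504))) (c (a (c (l 22) (l 16717304)) (c (l 16721824) (l 16717936))) (a (l 16711256) (l 16712064)))) (b (a (c (c (l 22) (a (l 16716744) (l 16717304))) (c (l 16712680) (l 16708432))) (c (a (c (l 22) (l 16717912)) (c (l 16722512) (l 16718576))) (a (l 16711816) (l 16712664)))) (a (c (c (l 22) (a (l 16717128) (l 16717704))) (a (l 16710624) (l 16711392))) (a (c (c (l 22) (l 16718336)) (l 16712208))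 (c (c (b (l 16722864) (l 16723096)) (l 16719024)) (l 16713080)))))) (b (a (c (a (c (l 16722400) (l 16718616)) (l 16726432)) (a (l 16712920) (l 16713824))) (c (a (l 16727160) (c (l 16724448) (l 16721008))) (a (l 16714784) (l 16715816)))) (a (a (c (c (a (l 16723232) (l 16723552)) (l 16719536)) (l 16713784)) (c (c (a (l 16723880) (l 16724224)) (l 16720312)) (l 16714752))) (c (a (b (l 16727920) (c (l 16725000) (l 16721408))) (a (l 16728840) (l 16729280))) (a (l 16715768) (l 16716856))))))), by decide +kernel⟩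

def k10_B00pm_012_s3 : ∃ t, chk3 f_B00pm_012_s3 t 26 31 3 = true :=
  ⟨(b (a (b (a (l 6) (c (l 16697048) (l 16688160))) (a (c (l 16695768) (l 16686192)) (c (l 16696216) (l 16686920)))) (b (a (c (l 16697256) (l 16688568)) (c (l 16697560) (l 16689072))) (a (c (l 16696792) (l 16687792)) (c (l 16697488) (l 16688792))))) (b (a (a (c (b (l 16695344) (l 16695328)) (b (l 16685416) (l 16685168))) (c (b (l 16696048) (l 16696184)) (b (l 16686480) (l 16686440)))) (a (c (b (l 16696896) (l 16697224)) (b (l 16687688) (l 16687888))) (c (b (l 16697896) (l 16698424)) (a (l 16688944) (l 16689736))))) (b (a (a (c (c (l 16698056) (l 16692920)) (l 16685120)) (c (c (l 16698968) (l 16694056)) (l 16686608))) (a (c (c (l 16700072) (l 16695392)) (l 16688288)) (c (l 16704392) (l 16690160)))) (c (c (b (a (a (l 16698352) (l 16699376)) (a (l 16700608) (l 16702056))) (a (a (b (l 16698544) (l 16698688)) (l 16699712)) (a (l 16701032) (l 16702576))))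 (a (a (b (l 16693120) (l 16693312)) (l 16694536)) (a (l 16696064) (l 16697808)))) (a (a (b (l 16685216) (l 16685344)) (l 16686984)) (a (l 16688896) (l 16691016))))))), by decide +kernel⟩

def k11_B00pm_012_s3 : ∃ t, chk3 f_B00pm_012_s3 t 27 31 3 = true :=
  ⟨(b (a (b (a (c (l 16697936) (l 16689680)) (c (l 16698408) (l 16690400))) (a (c (l 16698304) (l 16689920)) (c (b (l 16698944) (l 16699552)) (l 16696432)))) (a (b (c (l 16698984) (a (l 16691072) (l 16691528))) (c (b (l 16699896) (l 16700760)) (a (l 16692304) (l 16693048)))) (b (c (a (l 16699568) (l 16699960)) (a (l 16692016) (l 16692552))) (c (a (l 16701328) (l 16702000)) (a (l 16693832) (l 16694672)))))) (b (a (a (c (b (l 16699048) (l 16699800)) (a (l 16690568) (l 16691448))) (c (b (l 16700352) (l 16701344)) (a (l 16692360) (l 16693320)))) (a (c (a (l 16702120) (l 16702960)) (a (l 16694320) (l 16695360))) (c (a (l 16703848) (l 16704792)) (a (l 16696448) (l 16697592)))))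 (b (a (a (c (l 16711232) (l 16692216)) (c (l 16713024) (l 16694456))) (a (c (l 16714992) (l 16696880)) (c (a (l 16706224) (l 16707384)) (l 16699560)))) (a (a (c (b (l 16701584) (l 16707448)) (l 16693344)) (c (b (l 16703552) (l 16704296)) (l 16695864))) (a (c (b (l 16705720) (l 16706592)) (l 16698576)) (c (b (l 16708168) (l 16714424)) (l 16701560))))))), by decide +kernel⟩

def k12_B00pm_012_s3 : ∃ t, chk3 f_B00pm_012_s3 t 14 14 1 = true :=
  ⟨(b (l 6) (a (a (l 6) (b (l 6) (b (l 6) (c (a (l 16704008) (l 16702136)) (c (l 16694176) (a (l 16687760) (l 16686000))))))) (a (b (l 6) (c (b (a (l 16699648) (l 16697296)) (a (l 16700280) (l 16698440))) (b (a (l 16687328) (l 16685088)) (a (c (l 16691400) (l 16684352)) (c (l 16689672) (l 16682832)))))) (b (b (l 6) (c (a (l 16694240) (l 16691280)) (a (l 16681984) (l 16679240)))) (c (b (a (l 16695016) (l 16692840)) (a (l 16696672) (l 16695048))) (b (a (l 16683000) (l 16681072)) (a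 (l 16684864) (l 16683568)))))))), by decide +kernel⟩

def k13_B00pm_012_s3 : ∃ t, chk3 f_B00pm_012_s3 t 28 30 1 = true :=
  ⟨(a (b (c (b (a (l 6) (l 16705624)) (a (l 16706808) (l 16706016))) (a (b (l 6) (c (l 16697544) (l 16690112))) (b (c (l 16696568) (l 16689184)) (c (l 16696760) (l 16689440))))) (c (a (b (c (l 16710088) (l 16704384)) (c (l 16711424) (l 16705464))) (b (l 16707048) (b (l 16708224) (l 16709232)))) (a (b (c (l 16697840) (a (l 16690512) (l 16690456))) (c (a (l 16698800) (l 16698960)) (a (l 16691432) (l 16691680)))) (b (c (l 16697632) (l 16690400)) (c (l 16699200) (l 16692088)))))) (b (c (b (a (l 16704264) (l 16702888)) (a (l 16705144) (l 16704264))) (b (a (c (l 16695200) (l 16687944)) (c (l 16693888) (l 16686800))) (a (c (l 16695960) (l 16688816)) (c (l 16695224) (l 16688280))))) (c (b (a (c (l 16709416) (l 16703744)) (c (l 16708992) (l 16703416))) (a (b (l 16708216) (l 16709472)) (b (l 16708208) (l 16709728))))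 (b (a (c (l 16697400) (l 16690384)) (c (l 16697232) (l 16690456))) (a (c (l 16699544) (l 16692680)) (b (l 16695936) (l 16697520))))))), by decide +kernel⟩

def k14_B00pm_012_s3 : ∃ t, chk3 f_B00pm_012_s3 t 28 31 2 = true :=
  ⟨(b (a (b (a (c (b (l 16712824) (l 16713984)) (a (l 16707120) (l 16707480))) (b (l 16710416) (l 16711768))) (a (a (c (l 16715888) (l 16709480)) (b (l 16712552) (l 16714072))) (b (c (l 16716336) (l 16710176)) (c (l 16718072) (l 16711856))))) (b (a (b (l 16710896) (c (l 16715416) (l 16709496))) (b (l 16711424) (c (l 16716104) (l 16710400)))) (a (b (c (l 16717224) (l 16711272)) (c (l 16719216) (l 16713240))) (b (c (l 16718176) (l 16712456)) (c (l 16720424) (l 16714704)))))) (a (b (a (a (c (b (l 16718240) (l 16720048)) (b (l 16711696) (l 16713432))) (c (b (l 16718960) (l 16720888)) (l 16718696))) (b (c (l 16719992) (l 16713736)) (c (b (l 16721544) (l 16722648)) (l 16715800)))) (b (a (a (c (c (l 16723688)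 (l 16720368)) (l 16715352)) (c (l 16722984) (l 16716440))) (c (a (l 16723912) (l 16724848)) (l 16723304))) (b (a (a (c (c (l 16725304) (l 16721960)) (l 16716912)) (c (l 16724680) (l 16718096))) (c (c (l 16727800) (l 16724632)) (l 16719872))) (a (a (c (a (l 16729760) (l 16725064)) (l 16718016)) (c (b (l 16725568) (l 16726176)) (l 16719272))) (c (a (l 16732192) (l 16733296)) (l 16721152)))))) (b (a (b (c (l 16721384) (l 16715384)) (c (b (l 16723128) (l 16724360)) (l 16717736))) (b (c (l 16722864) (l 16717144)) (c (a (l 16725032) (l 16725920)) (l 16719784)))) (b (a (c (a (l 16725808) (l 16726784)) (l 16720280)) (c (a (l 16727784) (l 16728800)) (l 16722616))) (b (c (a (c (l 16729840) (l 16726824)) (c (l 16731944) (l 16729104))) (a (l 16722312) (l 16724856))) (c (a (a (l 16729176) (l 16730320)) (a (l 16731480) (l 16732656))) (a (l 16723736) (l 16726424)))))))), by decide +kernel⟩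

def k15_B00pm_012_s3 : ∃ t, chk3 f_B00pm_012_s3 t 28 31 3 = true :=
  ⟨(c (b (a (a (b (a (l 16700368) (l 16700816)) (a (l 16702688) (l 16703424))) (b (l 16701488) (b (l 16703664) (l 16705368)))) (b (a (b (l 16701600) (l 16703216)) (b (l 16702464) (l 16704384))) (a (b (l 16705024) (l 16707032)) (b (l 16706496) (l 16708800))))) (a (a (a (b (l 16705760) (a (l 16709320) (l 16709968))) (b (l 16706784) (l 16710936))) (b (b (l 16707272) (l 16709368)) (b (l 16711664) (l 16714168)))) (b (a (b (l 16709224) (l 16711624)) (b (l 16711312) (l 16714016))) (a (b (l 16714232) (l 16717040)) (b (l 16716920) (l 16720032)))))) (b (a (a (b (a (l 16693088) (l 16693648)) (a (l 16695520) (l 16696392))) (b (l 16694512) (b (l 16696816) (l 16698600)))) (b (a (l 16695720) (l 16702296)) (a (b (l 16698480) (l 16700592)) (b (l 16700288) (l 16702712))))) (a (a (b (a (l 16698736) (l 16699920)) (a (l 16702776) (l 16704264))) (b (b (l 16700600) (l 16702800))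 (b (l 16705208) (l 16707824)))) (b (a (b (l 16702896) (l 16705416)) (b (l 16705344) (l 16708176))) (a (b (l 16708144) (l 16711088)) (b (l 16711224) (l 16714480))))))), by decide +kernel⟩

def k16_B00pm_012_s3 : ∃ t, chk3 f_B00pm_012_s3 t 29 30 1 = true :=
  ⟨(b (a (c (b (a (l 16701512) (l 16700200)) (a (l 16703400) (b (l 16701920) (l 16703296)))) (b (a (c (l 16692640) (l 16685760)) (c (l 16691512) (l 16684864))) (a (c (l 16694560) (l 16687856)) (c (l 16694024) (l 16687592))))) (c (b (a (l 16698984) (l 16697904)) (a (b (l 16701128) (l 16702776)) (b (l 16700456) (l 16702376)))) (b (a (c (l 16690520) (l 16684144)) (b (l 16685856) (l 16687608))) (a (b (l 16689744) (l 16691536)) (b (l 16689536) (l 16691640)))))) (a (c (b (a (b (l 16705224) (l 16706656)) (b (l 16704840) (l 16706560))) (a (b (l 16708272) (l 16710064)) (b (l 16708448) (l 16710512)))) (b (a (b (l 16693224) (l 16694744)) (b (l 16693280) (l 16695120))) (a (c (l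 16700496) (l 16694216)) (b (l 16697144) (l 16704600))))) (b (c (a (b (l 16704592) (l 16706584)) (b (l 16704464) (l 16706720))) (a (b (l 16693512) (l 16695664)) (b (l 16693912) (l 16696376)))) (a (c (b (l 16708744) (c (l 16713560) (l 16708536))) (b (l 16703240) (c (l 16703248) (l 16697712)))) (c (b (l 16709152) (a (l 16711568) (l 16711936))) (b (l 16704256) (c (l 16704392) (l 16699224)))))))), by decide +kernel⟩

def k17_B00pm_012_s3 : ∃ t, chk3 f_B00pm_012_s3 t 29 62 1 = true :=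
  ⟨(a (b (b (c (a (l 16712032) (c (l 16715344) (l 16710104))) (a (l 16705688) (c (l 16704600) (l 16698840)))) (c (a (c (l 16716880) (l 16711408)) (c (l 16717752) (l 16712544))) (a (c (l 16705688) (l 16699696)) (c (l 16707128) (l 16701504))))) (c (a (b (c (l 16719216) (l 16713760)) (c (l 16721728) (l 16716288))) (b (c (l 16720344) (l 16715176)) (c (l 16723112) (l 16717992)))) (a (c (b (l 16708104) (l 16710712)) (b (l 16702248) (l 16704992))) (b (c (l 16709848) (l 16704360)) (c (l 16712760) (l 16707416)))))) (c (b (a (b (c (l 16716048) (l 16711072)) (c (l 16718720) (l 16713800))) (b (c (l 16716848) (l 16712176)) (c (l 16719768) (l 16715176)))) (a (a (b (l 16718792) (l 16727016)) (b (l 16724744) (l 16727856))) (a (b (l 16725480) (c (l 16725728) (l 16721224))) (b (l 16726240) (c (l 16726520) (l 16722208)))))) (b (a (b (c (l 16705888) (l 16700496)) (c (l 16708720) (l 16703472))) (b (c (l 16707328) (l 16702320)) (c (l 16710448)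 (l 16705600)))) (a (b (c (l 16711736) (l 16706640)) (c (l 16714936) (l 16710000))) (b (c (l 16713760) (l 16709080)) (c (l 16717256) (l 16712752))))))), by decide +kernel⟩

def k18_B00pm_012_s3 : ∃ t, chk3 f_B00pm_012_s3 t 29 126 1 = true :=
  ⟨(c (a (a (b (c (l 16729664) (l 16719016)) (c (a (l 16726832) (l 16727760)) (l 16721936))) (b (c (a (l 16725640) (l 16726480)) (l 16720992)) (c (a (l 16728704) (l 16729672)) (a (l 16723608) (l 16724760))))) (a (b (c (a (l 16727336) (l 16728216)) (a (l 16722536) (l 16723608))) (c (a (l 16730664) (l 16731664)) (a (l 16725936) (l 16727144)))) (b (c (a (l 16729120) (l 16730032)) (a (l 16724704) (l 16725824))) (c (a (l 16732680) (l 16738952)) (a (l 16728376) (l 16729624)))))) (a (a (c (b (l 16713520) (l 16716528)) (b (l 16707936) (l 16711080))) (b (c (l 16715864) (l 16710672)) (c (l 16719168) (l 16714136)))) (a (b (c (l 16718336) (l 16713568)) (c (l 16721936) (l 16717328))) (b (c (l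 16720944) (l 16716616)) (c (l 16724832) (l 16720680)))))), by decide +kernel⟩

def k19_B00pm_012_s3 : ∃ t, chk3 f_B00pm_012_s3 t 29 127 1 = true :=
  ⟨(b (c (a (a (c (a (l 16729832) (l 16730888)) (c (l 16726376) (l 16723712))) (c (a (l 16731968) (l 16733056)) (a (l 16726928) (l 16728216)))) (a (c (a (l 16734168) (l 16740536)) (a (l 16729528) (l 16730872))) (c (b (a (l 16735464) (l 16736592)) (a (l 16737384) (l 16738568))) (b (l 16731920) (l 16733936))))) (a (a (c (l 16719736) (l 16714440)) (c (l 16722672) (l 16717800))) (a (c (l 16725728) (l 16721296)) (b (l 16731096) (l 16733232))))) (c (a (b (a (c (c (l 16734120) (l 16731456)) (l 16727496)) (c (c (l 16736360) (l 16733896)) (l 16730232))) (c (a (a (l 16733848) (l 16735064)) (b (l 16736464) (l 16737376))) (a (l 16729200) (l 16732072)))) (b (a (c (c (l 16738648) (l 16736400)) (l 16733072)) (c (a (l 16739352) (l 16740592)) (l 16735992))) (a (c (a (l 16738800) (l 16740080))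 (l 16735040)) (c (a (l 16741360) (l 16742664)) (l 16743336))))) (c (a (a (l 16723144) (l 16726368)) (a (l 16734960) (b (l 16732088) (l 16734280)))) (a (a (l 16718000) (l 16721664)) (a (l 16725472) (l 16729424)))))), by decide +kernel⟩

def k20_B00pm_012_s3 : ∃ t, chk3 f_B00pm_012_s3 t 30 14 1 = true :=
  ⟨(b (a (l 6) (b (l 6) (a (c (l 16680896) (l 16667480)) (c (l 16677376) (l 16664440))))) (b (a (b (c (a (l 16687112) (l 16684456)) (a (b (l 6) (l 16675656)) (b (l 16671664) (l 16673096)))) (a (c (l 16688688) (l 16676888)) (c (l 16686272) (l 16674768)))) (b (a (c (l 16681976) (b (l 16669088) (l 16670552))) (c (l 16679488) (l 16668128))) (a (c (l 16684136) (l 16672984)) (c (l 16682224) (l 16671464))))) (a (a (c (b (l 16690800) (l 16693560)) (b (l 16679352) (l 16682464))) (b (c (l 16688936) (l 16677856)) (c (l 16692240) (a (l 16681760) (l 16681416))))) (a (b (c (l 16687440) (l 16676752)) (c (l 16691384) (l 16691640))) (b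 (c (l 16686176) (l 16675912)) (c (l 16690760) (l 16691488))))))), by decide +kernel⟩

def k21_B00pm_012_s3 : ∃ t, chk3 f_B00pm_012_s3 t 31 14 1 = true :=
  ⟨(b (a (b (a (l 6) (c (l 16669840) (l 16655448))) (a (b (l 16672576) (c (l 16673872) (l 16662192))) (b (c (l 16670144) (l 16657704)) (c (l 16670648) (l 16659584))))) (a (b (c (l 16676336) (l 16673072)) (b (c (l 16666720) (l 16654936)) (c (l 16678480) (l 16678488)))) (b (a (c (l 16662904) (l 16649680)) (c (l 16660968) (l 16648128))) (b (a (l 16658624) (l 16657152)) (a (c (l 16666192) (l 16656192)) (b (l 16658752) (l 16661216))))))) (a (b (a (b (c (l 16676816) (l 16665936)) (c (l 16680488) (l 16670184))) (b (c (l 16674312) (l 16663976)) (c (l 16678928) (l 16669160)))) (a (b (c (l 16685080) (l 16675312)) (c (a (l 16690384) (l 16690184)) (l 16691560))) (b (c (l 16694632) (l 16674952)) (a (c (l 16690032) (l 16681272)) (c (l 16689912) (l 16681472)))))) (a (b (b (c (l 16672304)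 (l 16662544)) (c (l 16688024) (l 16668384))) (b (a (c (l 16683544) (l 16674832)) (c (l 16683200) (l 16674832))) (a (c (l 16689832) (l 16681736)) (c (l 16689800) (l 16682056))))) (b (a (c (l 16684256) (l 16664792)) (b (c (l 16670048) (l 16661112)) (c (l 16676056) (l 16667760)))) (a (b (c (l 16682904) (l 16674896)) (c (l 16689800) (l 16682432))) (b (c (l 16682656) (l 16675008)) (l 14))))))), by decide +kernel⟩

def k22_B00pm_012_s3 : ∃ t, chk3 f_B00pm_012_s3 t 30 30 1 = true :=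
  ⟨(a (b (a (b (c (b (l 16696024) (l 16697888)) (b (l 16685216) (l 16687280))) (c (b (l 16699912) (l 16702096)) (b (l 16689512) (l 16691920)))) (b (c (a (l 16696320) (l 16696032)) (a (l 16686000) (l 16685968))) (c (a (l 16700776) (l 16700768)) (a (l 16690920) (l 16701688))))) (a (b (c (b (l 16704456) (l 16706984)) (b (l 16694504) (l 16702504))) (c (b (a (l 16709528) (l 16709816)) (a (l 16712328) (l 16712744))) (b (c (l 16702648) (l 16697712)) (c (l 16705688) (l 16700920))))) (b (c (a (b (l 16704520) (l 16707240)) (b (l 16704728) (l 16707584))) (a (b (l 16695048) (l 16698040)) (b (l 16695568) (l 16698704)))) (c (a (b (l 16710128) (l 16713192)) (b (l 16710608) (l 16713800))) (a (b (l 16701200) (l 16704552)) (b (l 16702024) (l 16705528))))))) (b (a (b (c (a (l 16695960) (l 16695936)) (a (l 16686120) (l 16686328))) (c (a (l 16701016) (l 16701296)) (a (l 16691696) (l 16692240)))) (b (c (a (l 16695936) (l 16695976)) (a (l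 16686584) (l 16686904))) (c (a (l 16701616) (l 16701968)) (a (l 16692832) (l 16693472))))) (a (b (c (a (b (l 16705208) (l 16708224)) (l 16712552)) (a (l 16708440) (l 16709320))) (c (a (b (l 16711400) (l 16714752)) (b (l 16712232) (l 16715728))) (a (b (l 16703096) (l 16706760)) (b (l 16704224) (l 16708048))))) (b (c (a (b (l 16706280) (l 16709600)) (b (l 16706856) (l 16710336))) (a (l 16710240) (l 16711216))) (a (c (b (l 16713088) (l 16716744)) (b (l 16705384) (l 16709376))) (c (b (l 16713976) (l 16717784)) (b (l 16706600) (l 16710744)))))))), by decide +kernel⟩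

def k23_B00pm_012_s3 : ∃ t, chk3 f_B00pm_012_s3 t 31 30 1 = true :=
  ⟨(a (b (a (b (c (a (l 16696056) (l 16696168)) (a (l 16687272) (l 16687688))) (c (a (l 16702352) (l 16702776)) (a (l 16694168) (l 16694912)))) (b (a (c (l 16696320) (l 16688160)) (c (l 16696504) (l 16688688))) (a (c (l 16703232) (l 16695712)) (c (l 16714200) (l 16696552))))) (a (b (a (c (b (l 16707472) (l 16711104)) (l 16712232)) (c (b (l 16708120) (l 16711896)) (l 16708048))) (a (c (b (l 16714896) (l 16718848)) (b (l 16707856) (l 16712160))) (b (c (l 16715840) (l 16709160)) (l 14)))) (b (a (c (b (l 16708800) (l 16712728)) (l 16709160)) (l 14)) (l 14)))) (a (b (b (a (c (l 16696728) (l 16689272)) (c (l 16696992) (l 16689904))) (l 14)) (l 14)) (l 14))), by decide +kernel⟩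

def k24_B00pm_012_s3 : ∃ t, chk3 f_B00pm_012_s3 t 30 62 1 = true :=
  ⟨(a (b (a (c (b (a (l 16715304) (l 16715848)) (a (l 16718448) (l 16724368))) (b (c (l 16708920) (l 16704320)) (c (l 16712328) (l 16707912)))) (c (a (b (l 16721664) (c (l 16721784) (l 16717840))) (b (c (l 16719112) (l 16715208)) (c (l 16722584) (l 16718824)))) (a (b (l 16708080) (l 16711800)) (b (l 16714456) (c (l 16715008) (l 16711136)))))) (a (a (c (b (l 16727016) (c (l 16727328) (l 16723216))) (b (l 16713200) (l 16717000))) (c (b (c (l 16724584) (l 16720560)) (c (l 16728152) (l 16724256))) (b (l 16714432) (l 16723616)))) (c (b (a (c (l 16725304) (l 16721488)) (c (l 16731472) (l 16722608))) (a (c (l 16734232) (l 16725320)) (c (a (l 16729680) (l 16730400)) (a (l 16726184) (l 16726976))))) (b (a (l 16720944) (c (l 16718968) (l 16715288))) (a (c (l 16721640) (l 16717944)) (c (l 16723112) (l 16719640))))))) (b (a (c (a (b (l 16718264) (c (l 16723768)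 (l 16720144))) (b (l 16719400) (l 16728488))) (a (b (l 16710608) (l 16714640)) (b (l 16712056) (l 16716248)))) (c (a (b (l 16720568) (l 16729800)) (b (l 16721752) (l 16731136))) (a (b (l 16713544) (l 16717888)) (b (l 16715072) (l 16719576))))) (c (a (b (a (c (l 16727560) (l 16724088)) (c (l 16728920) (l 16725600))) (a (c (b (l 16730504) (l 16732536)) (l 16728208)) (c (l 16735648) (l 16729872)))) (b (a (c (l 16730304) (l 16727144)) (c (l 16731704) (l 16728712))) (a (c (l 16737176) (l 16731568)) (l 14)))) (a (b (a (l 16724096) (l 16720616)) (a (c (l 16724904) (l 16721608)) (c (l 16726736) (l 16723616)))) (b (a (l 16722424) (l 16724264)) (a (c (l 16728608) (l 16725672)) (l 14))))))), by decide +kernel⟩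

def k25_B00pm_012_s3 : ∃ t, chk3 f_B00pm_012_s3 t 30 126 1 = true :=
  ⟨(a (c (a (b (a (c (l 16730952) (l 16726968)) (c (b (l 16730936) (l 16732856)) (l 16728136))) (c (a (b (l 16733784) (l 16735728)) (b (l 16734816) (l 16736824))) (a (l 16730904) (b (l 16731168) (l 16733248))))) (b (a (c (b (l 16731864) (l 16733840)) (b (l 16728304) (l 16730360))) (c (a (l 16736264) (l 16734424)) (a (l 16730296) (l 16731160)))) (a (c (b (l 16735864) (l 16737928)) (b (l 16732456) (l 16734600))) (c (b (a (l 16736720) (l 16737560)) (a (l 16738832) (l 16739704))) (b (l 16733960) (l 16736168)))))) (a (b (c (a (l 16722984) (l 16724384)) (l 16719824)) (c (a (l 16727080) (l 16728624)) (l 16724192))) (b (a (c (l 16725824) (l 16722328)) (c (l 16727440) (l 16724176))) (a (c (l 16730200) (l 16726912)) (b (l 16729248) (l 16734232)))))) (a (c (c (b (a (b (l 16734600) (l 16736712)) (b (l 16736216) (l 16738400))) (a (b (l 16738872) (l 16741072))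 (b (l 16740632) (l 14)))) (b (a (l 16735136) (l 16736952)) (a (b (l 16735856) (l 16738144)) (b (l 16737784) (l 14))))) (b (a (c (l 16729392) (l 16726304)) (c (l 16731384) (l 16728472))) (a (c (l 16734072) (l 16731192)) (c (l 16736216) (l 16733520))))) (l 14))), by decide +kernel⟩

def k26_B00pm_012_s3 : ∃ t, chk3 f_B00pm_012_s3 t 30 127 1 = true :=
  ⟨(a (b (c (a (a (c (b (l 16737720) (l 16739760)) (l 16735024)) (c (b (l 16738872) (l 16740968)) (b (l 16735368) (l 16737544)))) (a (c (b (l 16742664) (c (l 16743000) (l 16741400))) (b (l 16736792) (l 16739032))) (b (c (a (l 16740984) (l 16741896)) (l 16738432)) (c (a (l 16745808) (l 16744136)) (l 16740736))))) (a (c (b (l 16731104) (l 16733328)) (l 16728752)) (a (c (l 16734776) (l 16731696)) (c (b (l 16735480) (l 16737880)) (l 16733840))))) (c (b (a (c (a (l 16741848) (l 16745736)) (a (l 16738240) (l 16739768))) (a (c (c (l 16747800) (l 16743624)) (l 16741320)) (a (c (a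 (l 16745208) (l 16745656)) (l 16742560)) (c (l 16746416) (l 16743632))))) (b (a (c (a (l 16743432) (l 16744752)) (l 16740672)) (a (c (l 16748696) (l 16743064)) (c (c (l 16748360) (l 16746952)) (l 16744888)))) (a (c (a (l 16744512) (l 16745856)) (l 16741808)) (a (c (c (l 16747968) (l 16746464)) (l 16744248)) (c (a (l 16750928) (l 14)) (l 16746104)))))) (a (c (b (l 16735608) (l 16737936)) (b (l 16732296) (l 16734736))) (a (b (l 16736856) (l 16744584)) (c (b (l 16740336) (l 16742840)) (l 16741584)))))) (b (a (a (b (c (c (a (l 16742840) (l 16743792)) (l 16740480)) (l 16736328)) (c (c (c (l 16746304) (l 16744912)) (l 16742856)) (l 16738864))) (l 14)) (l 14)) (l 14))), by decide +kernel⟩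

def k27_B00pm_012_s3 : ∃ t, chk3 f_B00pm_012_s3 t 31 31 1 = true :=
  ⟨(b (a (b (a (a (b (c (l 16722968) (l 16716648)) (l 14)) (l 14)) (l 14)) (l 14)) (l 14)) (l 14)), by decide +kernel⟩

theorem t28_B00pm_012_s3 : ∃ t, chk3 f_B00pm_012_s3 t 30 63 1 = true := ex3_b k25_B00pm_012_s3 k26_B00pm_012_s3

theorem t29_B00pm_012_s3 : ∃ t, chk3 f_B00pm_012_s3 t 30 31 1 = true := ex3_b k24_B00pm_012_s3 t28_B00pm_012_s3

theorem t30_B00pm_012_s3 : ∃ t, chk3 f_B00pm_012_s3 t 15 31 1 = true := ex3_a t29_B00pm_012_s3 k27_B00pm_012_s3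

theorem t31_B00pm_012_s3 : ∃ t, chk3 f_B00pm_012_s3 t 15 30 1 = true := ex3_a k22_B00pm_012_s3 k23_B00pm_012_s3

theorem t32_B00pm_012_s3 : ∃ t, chk3 f_B00pm_012_s3 t 15 15 1 = true := ex3_b t31_B00pm_012_s3 t30_B00pm_012_s3

theorem t33_B00pm_012_s3 : ∃ t, chk3 f_B00pm_012_s3 t 15 14 1 = true := ex3_a k20_B00pm_012_s3 k21_B00pm_012_s3

theorem t34_B00pm_012_s3 : ∃ t, chk3 f_B00pm_012_s3 t 15 7 1 = true := ex3_b t33_B00pm_012_s3 t32_B00pm_012_s3

theorem t35_B00pm_012_s3 : ∃ t, chk3 f_B00pm_012_s3 t 29 63 1 = true := ex3_b k18_B00pm_012_s3 k19_B00pm_012_s3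

theorem t36_B00pm_012_s3 : ∃ t, chk3 f_B00pm_012_s3 t 29 31 1 = true := ex3_b k17_B00pm_012_s3 t35_B00pm_012_s3

theorem t37_B00pm_012_s3 : ∃ t, chk3 f_B00pm_012_s3 t 29 15 1 = true := ex3_b k16_B00pm_012_s3 t36_B00pm_012_s3

theorem t38_B00pm_012_s3 : ∃ t, chk3 f_B00pm_012_s3 t 28 31 1 = true := ex3_c k14_B00pm_012_s3 k15_B00pm_012_s3

theorem t39_B00pm_012_s3 : ∃ t, chk3 f_B00pm_012_s3 t 28 15 1 = true := ex3_b k13_B00pm_012_s3 t38_B00pm_012_s3

theorem t40_B00pm_012_s3 : ∃ t, chk3 f_B00pm_012_s3 t 14 15 1 = true := ex3_a t39_B00pm_012_s3 t37_B00pm_012_s3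

theorem t41_B00pm_012_s3 : ∃ t, chk3 f_B00pm_012_s3 t 14 7 1 = true := ex3_b k12_B00pm_012_s3 t40_B00pm_012_s3

theorem t42_B00pm_012_s3 : ∃ t, chk3 f_B00pm_012_s3 t 7 7 1 = true := ex3_a t41_B00pm_012_s3 t34_B00pm_012_s3

theorem t43_B00pm_012_s3 : ∃ t, chk3 f_B00pm_012_s3 t 13 31 3 = true := ex3_a k10_B00pm_012_s3 k11_B00pm_012_s3

theorem t44_B00pm_012_s3 : ∃ t, chk3 f_B00pm_012_s3 t 27 63 2 = true := ex3_b k8_B00pm_012_s3 k9_B00pm_012_s3

theorem t45_B00pm_012_s3 : ∃ t, chk3 f_B00pm_012_s3 t 27 31 2 = true := ex3_b k7_B00pm_012_s3 t44_B00pm_012_s3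

theorem t46_B00pm_012_s3 : ∃ t, chk3 f_B00pm_012_s3 t 13 31 2 = true := ex3_a k6_B00pm_012_s3 t45_B00pm_012_s3

theorem t47_B00pm_012_s3 : ∃ t, chk3 f_B00pm_012_s3 t 13 31 1 = true := ex3_c t46_B00pm_012_s3 t43_B00pm_012_s3

theorem t48_B00pm_012_s3 : ∃ t, chk3 f_B00pm_012_s3 t 13 15 1 = true := ex3_b k5_B00pm_012_s3 t47_B00pm_012_s3

theorem t49_B00pm_012_s3 : ∃ t, chk3 f_B00pm_012_s3 t 13 7 1 = true := ex3_b k4_B00pm_012_s3 t48_B00pm_012_s3

theorem t50_B00pm_012_s3 : ∃ t, chk3 f_B00pm_012_s3 t 6 7 1 = true := ex3_a k3_B00pm_012_s3 t49_B00pm_012_s3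

theorem t51_B00pm_012_s3 : ∃ t, chk3 f_B00pm_012_s3 t 3 7 1 = true := ex3_a t50_B00pm_012_s3 t42_B00pm_012_s3

theorem t52_B00pm_012_s3 : ∃ t, chk3 f_B00pm_012_s3 t 3 3 1 = true := ex3_b k2_B00pm_012_s3 t51_B00pm_012_s3

theorem t53_B00pm_012_s3 : ∃ t, chk3 f_B00pm_012_s3 t 3 1 1 = true := ex3_b k1_B00pm_012_s3 t52_B00pm_012_s3

theorem t54_B00pm_012_s3 : ∃ t, chk3 f_B00pm_012_s3 t 1 1 1 = true := ex3_a k0_B00pm_012_s3 t53_B00pm_012_s3

theorem c_B00pm_012_s3 : CertF 0 536870912 0 536870912 201326592 134217728 false true false .pnp 0 1 2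
    ndF0q0 ndF0q2 pcF1 cut_B00pm_012_s3 Ext.none :=
  certFK2 (fam := false) (s1 := true) (s2 := false) (a := 0) (b := 1) (c := 2) (cn := .pnp) (n1 := ndF0q0) (n2 := ndF0q2) (pc := pcF1) (cut := cut_B00pm_012_s3) (xt := Ext.none) (P1 := 0) (W1 := 536870912) (P2 := 0) (W2 := 536870912) (P3 := 201326592) (W3 := 134217728)
    rfl rfl rfl (fun _ => rfl) t54_B00pm_012_s3

theorem s_B00pm_012_s3 {κ x : ℝ} (hκ : κ * h0 = ken x) (hx : ((201326592 : ℕ) : ℝ) / S ≤ x)
    (hx' : x ≤ (((201326592 : ℕ) : ℝ) + (134217728 : ℕ)) / S)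
    (H : CutB (VF κ) PP tKF tL pcF (Cut.of [[⟨0, 0, 0, 53687091⟩, ⟨1, 1, 0, 53687091⟩, ⟨2, 1, 0, 53687091⟩], [⟨0, 0, 1, 67108864⟩, ⟨1, 1, 2, 67108864⟩, ⟨2, 1, 0, 16777216⟩]]) 0 1 2 0 0 (sgb true) (sgb false) x) :
    AltB (VF κ) PP tKF tL pcF [⟨4, 0, 0, 2845415833⟩] 0 1 2 0 0 (sgb true) (sgb false) x :=
  strip_altB (m := 2845415833) false rfl hκ covF00 covF02 hx hx' c_B00pm_012_s3 H (noExt_B)

noncomputable def cut_B00pm_022_s1 : Cut := Cut.of [[⟨4, 0, 0, 1449551462⟩], [⟨0, 0, 0, 67108864⟩, ⟨1, 1, 0, 67108864⟩, ⟨2, 1, 0, 67108864⟩]]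

noncomputable def f_B00pm_022_s1 : ℕ → ℕ → ℕ → ℕ → Bool := onCell 1073741824 536870912 0 536870912 201326592 134217728
    (rowFK 2 false true false .pp 0 2 2 (qsf 0 536870912 0 536870912 2) ndF0q0 ndF0q2 pcF2 cut_B00pm_022_s1 Ext.none)

def k0_B00pm_022_s1 : ∃ t, chk3 f_B00pm_022_s1 t 1 1 1 = true :=
  ⟨(l 6), by decide +kernel⟩

theorem c_B00pm_022_s1 : CertF 0 536870912 0 536870912 201326592 134217728 false true false .pp 0 2 2
    ndF0q0 ndF0q2 pcF2 cut_B00pm_022_s1 Ext.none :=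
  certFK2 (fam := false) (s1 := true) (s2 := false) (a := 0) (b := 2) (c := 2) (cn := .pp) (n1 := ndF0q0) (n2 := ndF0q2) (pc := pcF2) (cut := cut_B00pm_022_s1) (xt := Ext.none) (P1 := 0) (W1 := 536870912) (P2 := 0) (W2 := 536870912) (P3 := 201326592) (W3 := 134217728)
    rfl rfl rfl (fun _ => rfl) k0_B00pm_022_s1

theorem s_B00pm_022_s1 {κ x : ℝ} (hκ : κ * h0 = ken x) (hx : ((201326592 : ℕ) : ℝ) / S ≤ x)
    (hx' : x ≤ (((201326592 : ℕ) : ℝ) + (134217728 : ℕ)) / S)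
    (H : CutB (VF κ) PP tKF tL pcF (Cut.of [[⟨0, 0, 0, 67108864⟩, ⟨1, 1, 0, 67108864⟩, ⟨2, 1, 0, 67108864⟩]]) 0 2 2 0 0 (sgb true) (sgb false) x) :
    AltB (VF κ) PP tKF tL pcF [⟨3, 0, 0, 1449551462⟩] 0 2 2 0 0 (sgb true) (sgb false) x :=
  strip_altB (m := 1449551462) true rfl hκ covF00 covF02 hx hx' c_B00pm_022_s1 H (noExt_B)

noncomputable def cut_B00pm_022_s3 : Cut := Cut.of [[⟨3, 0, 0, 2845415833⟩], [⟨0, 0, 0, 67108864⟩, ⟨1, 1, 0, 67108864⟩, ⟨2, 1, 0, 67108864⟩]]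

noncomputable def f_B00pm_022_s3 : ℕ → ℕ → ℕ → ℕ → Bool := onCell 0 536870912 0 536870912 201326592 134217728
    (rowFK 0 false true false .pp 0 2 2 (qsf 0 536870912 0 536870912 2) ndF0q0 ndF0q2 pcF2 cut_B00pm_022_s3 Ext.none)

def k0_B00pm_022_s3 : ∃ t, chk3 f_B00pm_022_s3 t 1 1 1 = true :=
  ⟨(a (b (l 6) (a (b (b (l 6) (a (a (b (a (b (l 16670720) (a (l 16681192) (l 16672032))) (b (l 6) (l 16658264))) (a (a (b (l 16687512) (c (l 16697512) (l 16689672))) (b (l 16677920) (l 16684032))) (b (c (l 16665432) (l 16660528)) (c (l 16670824) (l 16666200))))) (b (l 6) (a (b (l 16644280) (a (l 16653928) (l 16643848))) (b (l 6) (c (l 16627904) (l 16628448)))))) (a (b (l 6) (l 6)) (l 6)))) (a (a (b (b (a (a (b (c (l 16704128) (l 16696744)) (b (a (l 16708816) (l 16703456)) (l 14))) (b (c (l 16693072) (l 16686952)) (c (l 16699560) (l 16694032)))) (b (a (l 16679968) (l 16669496)) (b (a (l 16684648) (l 16673856)) (l 14)))) (l 14))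 (l 14)) (a (b (b (b (c (l 16696080) (l 16652480)) (b (a (l 16663032) (l 16652168)) (l 14))) (l 14)) (l 14)) (a (b (b (b (l 16637912) (c (l 16641704) (l 16642496))) (l 14)) (l 1)) (b (b (b (l 16627320) (b (l 16630320) (l 16653432))) (a (l 14) (l 1))) (l 1))))) (b (a (b (a (b (a (c (l 16614800) (l 16617696)) (l 16647936)) (b (l 16655736) (l 1))) (l 1)) (l 1)) (l 1)) (l 1)))) (b (l 1) (l 1)))) (l 1)), by decide +kernel⟩

theorem c_B00pm_022_s3 : CertF 0 536870912 0 536870912 201326592 134217728 false true false .pp 0 2 2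
    ndF0q0 ndF0q2 pcF2 cut_B00pm_022_s3 Ext.none :=
  certFK0 (fam := false) (s1 := true) (s2 := false) (a := 0) (b := 2) (c := 2) (cn := .pp) (n1 := ndF0q0) (n2 := ndF0q2) (pc := pcF2) (cut := cut_B00pm_022_s3) (xt := Ext.none) (P1 := 0) (W1 := 536870912) (P2 := 0) (W2 := 536870912) (P3 := 201326592) (W3 := 134217728)
    rfl rfl rfl k0_B00pm_022_s3

theorem s_B00pm_022_s3 {κ x : ℝ} (hκ : κ * h0 = ken x) (hx : ((201326592 : ℕ) : ℝ) / S ≤ x)
    (hx' : x ≤ (((201326592 : ℕ) : ℝ) + (134217728 : ℕ)) / S)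
    (H : CutB (VF κ) PP tKF tL pcF (Cut.of [[⟨0, 0, 0, 67108864⟩, ⟨1, 1, 0, 67108864⟩, ⟨2, 1, 0, 67108864⟩]]) 0 2 2 0 0 (sgb true) (sgb false) x) :
    AltB (VF κ) PP tKF tL pcF [⟨4, 0, 0, 2845415833⟩] 0 2 2 0 0 (sgb true) (sgb false) x :=
  strip_altB (m := 2845415833) false rfl hκ covF00 covF02 hx hx' c_B00pm_022_s3 H (noExt_B)

noncomputable def cut_B00pm_101_s1 : Cut := Cut.of [[⟨4, 0, 0, 1449551462⟩], [⟨0, 1, 0, 53687091⟩, ⟨1, 0, 0, 53687091⟩, ⟨2, 1, 0, 53687091⟩]]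

noncomputable def f_B00pm_101_s1 : ℕ → ℕ → ℕ → ℕ → Bool := onCell 0 536870912 536870912 536870912 201326592 134217728
    (rowFK 2 false true false .npn 1 0 1 (qsf 536870912 536870912 536870912 536870912 0) ndF0q1 ndF0q1 pcF0 cut_B00pm_101_s1 Ext.none)

def k0_B00pm_101_s1 : ∃ t, chk3 f_B00pm_101_s1 t 1 1 1 = true :=
  ⟨(a (a (a (b (l 6) (b (l 6) (b (l 6) (b (b (b (c (l 17212296) (a (l 17068056) (l 6))) (a (a (a (l 17063008) (l 17065424)) (l 17069320)) (l 6))) (a (c (l 17032488) (a (l 16988808) (l 16997040))) (c (l 17040608) (l 17009848)))) (a (b (a (l 14) (c (l 16947888) (l 16925672))) (l 14)) (a (b (l 16945744) (b (l 16880120) (l 16831992))) (b (l 16954872) (l 16867888)))))))) (b (l 6) (b (l 6) (b (l 6) (b (l 6) (b (b (l 17164440) (l 17127624)) (a (l 17053488) (l 16909608)))))))) (b (l 6) (b (l 6) (a (a (b (l 6) (b (l 6) (l 17137216))) (l 6)) (l 6))))) (l 6)), by decide +kernel⟩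

theorem c_B00pm_101_s1 : CertF 536870912 536870912 536870912 536870912 201326592 134217728 false true false .npn 1 0 1
    ndF0q1 ndF0q1 pcF0 cut_B00pm_101_s1 Ext.none :=
  certFK2 (fam := false) (s1 := true) (s2 := false) (a := 1) (b := 0) (c := 1) (cn := .npn) (n1 := ndF0q1) (n2 := ndF0q1) (pc := pcF0) (cut := cut_B00pm_101_s1) (xt := Ext.none) (P1 := 536870912) (W1 := 536870912) (P2 := 536870912) (W2 := 536870912) (P3 := 201326592) (W3 := 134217728)
    rfl rfl rfl (fun _ => rfl) k0_B00pm_101_s1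

theorem s_B00pm_101_s1 {κ x : ℝ} (hκ : κ * h0 = ken x) (hx : ((201326592 : ℕ) : ℝ) / S ≤ x)
    (hx' : x ≤ (((201326592 : ℕ) : ℝ) + (134217728 : ℕ)) / S)
    (H : CutB (VF κ) PP tKF tL pcF (Cut.of [[⟨0, 1, 0, 53687091⟩, ⟨1, 0, 0, 53687091⟩, ⟨2, 1, 0, 53687091⟩]]) 1 0 1 0 0 (sgb true) (sgb false) x) :
    AltB (VF κ) PP tKF tL pcF [⟨3, 0, 0, 1449551462⟩] 1 0 1 0 0 (sgb true) (sgb false) x :=
  strip_altB (m := 1449551462) true rfl hκ covF01 covF01 hx hx' c_B00pm_101_s1 H (noExt_B)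

noncomputable def cut_B00pm_101_s3 : Cut := Cut.of [[⟨3, 0, 0, 2845415833⟩], [⟨0, 1, 0, 53687091⟩, ⟨1, 0, 0, 53687091⟩, ⟨2, 1, 0, 53687091⟩]]

noncomputable def xt_B00pm_101_s3 : Ext := strExt dd false true false .u0 .u0m .s0m .npn 1 0 1 rfl rfl gl0 vv ndF0q1 ndF0q1

noncomputable def f_B00pm_101_s3 : ℕ → ℕ → ℕ → ℕ → Bool := onCell 536870912 536870912 536870912 536870912 201326592 134217728
    (rowFK 0 false true false .npn 1 0 1 (qsf 536870912 536870912 536870912 536870912 0) ndF0q1 ndF0q1 pcF0 cut_B00pm_101_s3 xt_B00pm_101_s3)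

def k0_B00pm_101_s3 : ∃ t, chk3 f_B00pm_101_s3 t 2 2 1 = true :=
  ⟨(a (b (b (a (l 4) (a (a (l 4) (l 1)) (l 1))) (a (a (a (l 4) (l 543191567)) (c (l 543656975) (l 542403855))) (b (l 542833935) (l 542643215)))) (b (b (b (a (a (a (a (l 4) (l 542780687)) (l 542960399)) (l 542801167)) (l 542500111)) (a (a (c (a (l 543728911) (l 543517455)) (a (l 542392079) (l 542255887))) (c (l 543331855) (l 542122255))) (c (l 542966543) (l 541846031)))) (b (a (a (a (l 542805007) (c (l 543521295) (l 542232079))) (c (l 543276559) (l 542065679))) (c (l 542895887) (l 541781263))) (a (a (a (l 543066895) (c (l 543523343) (l 542207503))) (c (l 543255055) (l 542028815))) (a (l 542405647) (l 542184975))))) (a (b (a (c (a (l 543722511) (l 543492111)) (a (b (l 542313743) (l 542264079)) (c (l 542495247) (l 541795087)))) (a (b (l 542691343) (l 542648079)) (b (l 542548751) (l 542501135)))) (c (a (a (l 543589391) (l 543364879)) (b (l 543120911) (l 17043064)))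 (c (a (a (l 542531855) (l 542371087)) (l 542156303)) (a (a (l 541782031) (l 541665039)) (a (l 541556495) (l 16973864)))))) (c (b (a (l 542897167) (l 542635279)) (a (l 542750735) (l 17114440))) (b (a (c (l 542040591) (l 541443855)) (l 541546255)) (a (a (l 541665295) (l 17023904)) (l 541408527))))))) (b (a (b (l 1) (a (a (l 542510351) (l 1)) (l 1))) (l 1)) (b (b (a (a (l 542170383) (a (l 542052623) (l 1))) (l 1)) (c (a (a (l 542538511) (l 17103416)) (a (l 6) (l 1))) (a (a (l 541482255) (l 17041248)) (a (l 6) (l 1))))) (a (b (a (c (l 17105992) (l 17085544)) (l 6)) (l 6)) (l 6))))), by decide +kernel⟩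

def k1_B00pm_101_s3 : ∃ t, chk3 f_B00pm_101_s3 t 2 3 1 = true :=
  ⟨(b (a (b (c (a (b (a (b (l 543272207) (l 543114255)) (b (l 17070448) (l 17096040))) (b (a (l 17085016) (l 17119944)) (a (l 17111152) (l 17142048)))) (b (a (b (l 17110304) (l 17133112)) (l 6)) (l 6))) (a (c (b (a (b (l 542292751) (l 17015488)) (l 542483983)) (a (b (l 17040152) (l 17064472)) (l 541710351))) (a (b (a (l 541591311) (l 541476623)) (b (l 541392143) (l 541306639))) (b (a (l 16998496) (l 17014720)) (b (l 17035976) (l 17054968))))) (b (a (b (l 17046256) (l 17065752)) (l 6)) (l 6)))) (a (a (a (b (b (c (l 17129424) (l 17063568)) (l 6)) (l 6)) (l 6)) (l 6)) (l 6))) (l 6)) (l 6)), by decide +kernel⟩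

def k2_B00pm_101_s3 : ∃ t, chk3 f_B00pm_101_s3 t 3 1 1 = true :=
  ⟨(b (a (b (l 1) (l 6)) (l 1)) (l 6)), by decide +kernel⟩

theorem t3_B00pm_101_s3 : ∃ t, chk3 f_B00pm_101_s3 t 2 1 1 = true := ex3_b k0_B00pm_101_s3 k1_B00pm_101_s3

theorem t4_B00pm_101_s3 : ∃ t, chk3 f_B00pm_101_s3 t 1 1 1 = true := ex3_a t3_B00pm_101_s3 k2_B00pm_101_s3

theorem c_B00pm_101_s3 : CertF 536870912 536870912 536870912 536870912 201326592 134217728 false true false .npn 1 0 1
    ndF0q1 ndF0q1 pcF0 cut_B00pm_101_s3 xt_B00pm_101_s3 :=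
  certFK0 (fam := false) (s1 := true) (s2 := false) (a := 1) (b := 0) (c := 1) (cn := .npn) (n1 := ndF0q1) (n2 := ndF0q1) (pc := pcF0) (cut := cut_B00pm_101_s3) (xt := xt_B00pm_101_s3) (P1 := 536870912) (W1 := 536870912) (P2 := 536870912) (W2 := 536870912) (P3 := 201326592) (W3 := 134217728)
    rfl rfl rfl t4_B00pm_101_s3

theorem s_B00pm_101_s3 {κ x : ℝ} (hκ : κ * h0 = ken x) (hx : ((201326592 : ℕ) : ℝ) / S ≤ x)
    (hx' : x ≤ (((201326592 : ℕ) : ℝ) + (134217728 : ℕ)) / S)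
    (H : CutB (VF κ) PP tKF tL pcF (Cut.of [[⟨0, 1, 0, 53687091⟩, ⟨1, 0, 0, 53687091⟩, ⟨2, 1, 0, 53687091⟩]]) 1 0 1 0 0 (sgb true) (sgb false) x) :
    AltB (VF κ) PP tKF tL pcF [⟨4, 0, 0, 2845415833⟩] 1 0 1 0 0 (sgb true) (sgb false) x :=
  strip_altB (m := 2845415833) false rfl hκ covF01 covF01 hx hx' c_B00pm_101_s3 H ((okx hx hx').extB (T := tt) (sideF hx hx') hκ rfl rfl (.O 1 true) (.O 1 false) (Or.inl rfl))

noncomputable def cut_B00pm_102_s1 : Cut := Cut.of [[⟨4, 0, 0, 1449551462⟩], [⟨0, 1, 0, 67108864⟩, ⟨1, 0, 0, 67108864⟩, ⟨2, 1, 0, 67108864⟩]]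

noncomputable def xt_B00pm_102_s1 : Ext := strExt dd false true false .u0 .u2 .u0m .npp 1 0 2 rfl rfl gf0 vv ndF0q1 ndF0q2

noncomputable def f_B00pm_102_s1 : ℕ → ℕ → ℕ → ℕ → Bool := onCell 536870912 536870912 0 536870912 201326592 134217728
    (rowFK 0 false true false .npp 1 0 2 (qsf 536870912 536870912 0 536870912 0) ndF0q1 ndF0q2 pcF0 cut_B00pm_102_s1 xt_B00pm_102_s1)

def k0_B00pm_102_s1 : ∃ t, chk3 f_B00pm_102_s1 t 2 1 1 = true :=
  ⟨(b (a (b (l 2) (b (l 2) (b (l 2) (a (l 2) (a (l 2) (a (l 2) (l 17015048))))))) (b (a (b (a (a (l 2) (l 3)) (l 3)) (a (a (l 2) (b (l 540575759) (l 540632591))) (b (a (l 540497935) (l 3)) (a (l 540552207) (l 540461583))))) (b (l 3) (a (b (l 3) (a (l 540359183) (l 3))) (l 3)))) (a (a (b (b (a (l 540744719) (l 540672271)) (a (l 16912432) (l 540698895))) (b (a (l 16951144) (l 16928528)) (a (l 16990600) (l 16966952)))) (b (b (a (l 540594447) (b (l 540492047) (l 540509711))) (a (l 540619023)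 (l 540524047))) (b (a (l 16895832) (l 540532239)) (a (l 16943640) (l 16920632))))) (b (a (a (b (l 540398607) (l 540420879)) (b (l 540299791) (l 540310031))) (b (a (l 540157199) (l 3)) (l 540100111))) (a (b (a (l 540428559) (b (l 540316175) (l 540319759))) (a (l 16877272) (l 540323343))) (b (c (a (l 540518415) (l 540357903)) (l 540365839)) (a (l 540193039) (l 540066319)))))))) (a (b (l 6) (l 6)) (b (a (b (a (b (a (l 17030792) (l 17006120)) (l 6)) (b (a (l 16981704) (l 16957576)) (a (l 17020464) (l 16995160)))) (l 6)) (b (a (b (a (l 16933896) (l 16910712)) (a (l 16970272) (l 16945784))) (a (b (l 540204559) (l 16922016)) (b (l 540081423) (l 16899632)))) (b (a (a (l 17007368) (l 16981680)) (a (l 16956800) (l 16933296))) (a (l 6) (a (a (l 6) (l 16986712)) (l 16968464)))))) (l 6)))), by decide +kernel⟩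

def k1_B00pm_102_s1 : ∃ t, chk3 f_B00pm_102_s1 t 3 2 1 = true :=
  ⟨(b (l 3) (a (a (b (a (a (b (l 3) (a (l 539927567) (l 3))) (l 3)) (l 3)) (a (a (b (a (l 539951375) (l 539894287)) (l 539949071)) (l 540364815)) (b (l 539653647) (l 539691279)))) (l 3)) (l 3))), by decide +kernel⟩

def k2_B00pm_102_s1 : ∃ t, chk3 f_B00pm_102_s1 t 3 3 1 = true :=
  ⟨(a (b (a (a (b (a (b (l 539974159) (l 539996943)) (b (l 539872783) (l 16858920))) (b (a (l 16911208) (l 16953200)) (a (l 16944928) (l 16922928)))) (c (b (l 540394767) (a (l 540109839) (l 540013327))) (b (l 539538703) (a (l 539632911) (l 539561743))))) (b (a (l 540366095) (l 540474127)) (a (b (l 539625999) (l 539670031)) (b (l 539481871) (l 539532559))))) (b (b (a (a (b (a (l 16971720) (l 16948616)) (l 16980168)) (b (l 16874256) (l 16933544))) (a (b (l 16875488) (l 16891664)) (l 539590927))) (a (a (l 6) (l 16923400)) (a (b (l 16908920) (l 16929912)) (b (l 16868736) (l 16864944)))))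 (a (l 6) (b (a (l 16965960) (b (l 16907480) (l 16932144))) (a (b (l 17004504) (l 6)) (b (l 16958144) (l 17053912))))))) (b (b (l 3) (a (a (c (l 540117007) (l 540833295)) (a (l 540633103) (l 3))) (l 3))) (b (a (a (b (l 540289807) (a (l 16848312) (l 539524623))) (a (b (l 539408911) (l 539491087)) (b (l 539380239) (a (l 539461647) (l 539455759))))) (b (l 3) (a (a (l 539454223) (a (l 539444751) (l 3))) (l 3)))) (a (b (b (a (a (l 16873816) (l 16853056)) (a (l 16833776) (l 16815464))) (a (l 16844024) (a (l 16852112) (b (l 16826520) (l 16835392))))) (b (a (l 16911760) (a (l 16876952) (l 16853408))) (b (a (l 16929992) (l 16887576)) (a (l 16926664) (b (l 16974704) (l 16883712)))))) (b (a (a (b (l 539522575) (a (l 16816392) (l 16806864))) (a (l 539533071) (l 539528463))) (b (l 3) (l 14))) (a (a (b (b (l 16824200) (l 16835816)) (b (l 16891104) (l 16940376))) (b (b (a (l 16808312) (l 14)) (l 14)) (l 14))) (l 14))))))), by decide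 +kernel⟩

theorem t3_B00pm_102_s1 : ∃ t, chk3 f_B00pm_102_s1 t 3 1 1 = true := ex3_b k1_B00pm_102_s1 k2_B00pm_102_s1

theorem t4_B00pm_102_s1 : ∃ t, chk3 f_B00pm_102_s1 t 1 1 1 = true := ex3_a k0_B00pm_102_s1 t3_B00pm_102_s1

theorem c_B00pm_102_s1 : CertF 536870912 536870912 0 536870912 201326592 134217728 false true false .npp 1 0 2
    ndF0q1 ndF0q2 pcF0 cut_B00pm_102_s1 xt_B00pm_102_s1 :=
  certFK0 (fam := false) (s1 := true) (s2 := false) (a := 1) (b := 0) (c := 2) (cn := .npp) (n1 := ndF0q1) (n2 := ndF0q2) (pc := pcF0) (cut := cut_B00pm_102_s1) (xt := xt_B00pm_102_s1) (P1 := 536870912) (W1 := 536870912) (P2 := 0) (W2 := 536870912) (P3 := 201326592) (W3 := 134217728)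
    rfl rfl rfl t4_B00pm_102_s1

theorem s_B00pm_102_s1 {κ x : ℝ} (hκ : κ * h0 = ken x) (hx : ((201326592 : ℕ) : ℝ) / S ≤ x)
    (hx' : x ≤ (((201326592 : ℕ) : ℝ) + (134217728 : ℕ)) / S)
    (H : CutB (VF κ) PP tKF tL pcF (Cut.of [[⟨0, 1, 0, 67108864⟩, ⟨1, 0, 0, 67108864⟩, ⟨2, 1, 0, 67108864⟩]]) 1 0 2 0 0 (sgb true) (sgb false) x) :
    AltB (VF κ) PP tKF tL pcF [⟨3, 0, 0, 1449551462⟩] 1 0 2 0 0 (sgb true) (sgb false) x :=
  strip_altB (m := 1449551462) true rfl hκ covF01 covF02 hx hx' c_B00pm_102_s1 H ((okx hx hx').extB (T := tt) (sideF hx hx') hκ rfl rfl (.O 1 true) (.O 2 false) (Or.inl rfl))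

noncomputable def cut_B00pm_102_s3 : Cut := Cut.of [[⟨3, 0, 0, 2845415833⟩], [⟨0, 1, 0, 67108864⟩, ⟨1, 0, 0, 67108864⟩, ⟨2, 1, 0, 67108864⟩]]

noncomputable def f_B00pm_102_s3 : ℕ → ℕ → ℕ → ℕ → Bool := onCell 536870912 536870912 0 536870912 201326592 134217728
    (rowFK 0 false true false .npp 1 0 2 (qsf 536870912 536870912 0 536870912 0) ndF0q1 ndF0q2 pcF0 cut_B00pm_102_s3 Ext.none)

def k0_B00pm_102_s3 : ∃ t, chk3 f_B00pm_102_s3 t 1 1 1 = true :=
  ⟨(l 6), by decide +kernel⟩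

theorem c_B00pm_102_s3 : CertF 536870912 536870912 0 536870912 201326592 134217728 false true false .npp 1 0 2
    ndF0q1 ndF0q2 pcF0 cut_B00pm_102_s3 Ext.none :=
  certFK0 (fam := false) (s1 := true) (s2 := false) (a := 1) (b := 0) (c := 2) (cn := .npp) (n1 := ndF0q1) (n2 := ndF0q2) (pc := pcF0) (cut := cut_B00pm_102_s3) (xt := Ext.none) (P1 := 536870912) (W1 := 536870912) (P2 := 0) (W2 := 536870912) (P3 := 201326592) (W3 := 134217728)
    rfl rfl rfl k0_B00pm_102_s3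

theorem s_B00pm_102_s3 {κ x : ℝ} (hκ : κ * h0 = ken x) (hx : ((201326592 : ℕ) : ℝ) / S ≤ x)
    (hx' : x ≤ (((201326592 : ℕ) : ℝ) + (134217728 : ℕ)) / S)
    (H : CutB (VF κ) PP tKF tL pcF (Cut.of [[⟨0, 1, 0, 67108864⟩, ⟨1, 0, 0, 67108864⟩, ⟨2, 1, 0, 67108864⟩]]) 1 0 2 0 0 (sgb true) (sgb false) x) :
    AltB (VF κ) PP tKF tL pcF [⟨4, 0, 0, 2845415833⟩] 1 0 2 0 0 (sgb true) (sgb false) x :=
  strip_altB (m := 2845415833) false rfl hκ covF01 covF02 hx hx' c_B00pm_102_s3 H (noExt_B)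

noncomputable def cut_B00pm_112_s1 : Cut := Cut.of [[⟨4, 0, 0, 1449551462⟩]]

noncomputable def xt_B00pm_112_s1 : Ext := strExt dd false true false .u0 .u2 .u0m .dn 1 1 2 rfl rfl gf1 vv ndF0q1 ndF0q2

noncomputable def f_B00pm_112_s1 : ℕ → ℕ → ℕ → ℕ → Bool := onCell 536870912 536870912 0 536870912 201326592 134217728
    (rowFK 2 false true false .dn 1 1 2 (qsf 536870912 536870912 0 536870912 1) ndF0q1 ndF0q2 pcF1 cut_B00pm_112_s1 xt_B00pm_112_s1)

def k0_B00pm_112_s1 : ∃ t, chk3 f_B00pm_112_s1 t 1 1 1 = true :=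
  ⟨(a (a (b (b (b (b (a (a (l 3) (l 541753359)) (l 541048335)) (a (a (a (b (l 3) (l 542607887)) (l 542048271)) (l 541617679)) (l 540930063))) (b (a (a (a (c (l 544098063) (l 541288463)) (c (l 542901775) (l 540988943))) (b (l 541526031) (l 542411535))) (a (l 541019919) (l 540639503))) (a (a (a (b (l 542215695) (l 542167823)) (l 542654735)) (c (l 542589455) (l 540807695))) (a (b (l 540956687) (l 540917519)) (l 541097743))))) (a (a (b (b (a (b (l 542112271) (l 542051599)) (b (l 541778191) (l 16931960))) (a (b (l 16986088) (l 16970640)) (b (l 16957248) (l 16981904)))) (b (a (b (l 16996472) (l 17021736)) (l 17059648)) (a (l 17142408) (l 17063368)))) (b (b (b (l 541346319) (l 542102799)) (a (l 17022064) (l 16989272))) (b (a (l 17024904) (l 17031144)) (l 6)))) (b (a (b (a (l 16955704) (l 16965400)) (a (l 16997416) (l 17004816))) (b (l 17030952) (l 17098904))) (a (l 6) (l 6))))) (b (l 6) (l 6))) (a (a (b (b (b (a (l 540556815)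 (l 540414991)) (b (l 540873743) (a (l 16955568) (l 16964616)))) (b (b (l 17078328) (l 6)) (l 6))) (l 6)) (b (b (b (l 1) (l 1)) (l 1)) (l 1))) (b (l 1) (l 1)))) (l 1)), by decide +kernel⟩

theorem c_B00pm_112_s1 : CertF 536870912 536870912 0 536870912 201326592 134217728 false true false .dn 1 1 2
    ndF0q1 ndF0q2 pcF1 cut_B00pm_112_s1 xt_B00pm_112_s1 :=
  certFK2 (fam := false) (s1 := true) (s2 := false) (a := 1) (b := 1) (c := 2) (cn := .dn) (n1 := ndF0q1) (n2 := ndF0q2) (pc := pcF1) (cut := cut_B00pm_112_s1) (xt := xt_B00pm_112_s1) (P1 := 536870912) (W1 := 536870912) (P2 := 0) (W2 := 536870912) (P3 := 201326592) (W3 := 134217728)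
    rfl rfl rfl (fun _ => rfl) k0_B00pm_112_s1

theorem s_B00pm_112_s1 {κ x : ℝ} (hκ : κ * h0 = ken x) (hx : ((201326592 : ℕ) : ℝ) / S ≤ x)
    (hx' : x ≤ (((201326592 : ℕ) : ℝ) + (134217728 : ℕ)) / S) :
    AltB (VF κ) PP tKF tL pcF [⟨3, 0, 0, 1449551462⟩] 1 1 2 0 0 (sgb true) (sgb false) x :=
  strip_altB (m := 1449551462) true rfl hκ covF01 covF02 hx hx' c_B00pm_112_s1 cutB_nil ((okx hx hx').extB (T := tt) (sideF hx hx') hκ rfl rfl (.O 1 true) (.O 2 false) (Or.inr rfl))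

noncomputable def cut_B00pm_112_s3 : Cut := Cut.of [[⟨3, 0, 0, 2845415833⟩]]

noncomputable def f_B00pm_112_s3 : ℕ → ℕ → ℕ → ℕ → Bool := onCell 536870912 536870912 0 536870912 201326592 134217728
    (rowFK 0 false true false .dn 1 1 2 (qsf 536870912 536870912 0 536870912 1) ndF0q1 ndF0q2 pcF1 cut_B00pm_112_s3 Ext.none)

def k0_B00pm_112_s3 : ∃ t, chk3 f_B00pm_112_s3 t 1 1 1 = true :=
  ⟨(l 6), by decide +kernel⟩

theorem c_B00pm_112_s3 : CertF 536870912 536870912 0 536870912 201326592 134217728 false true false .dn 1 1 2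
    ndF0q1 ndF0q2 pcF1 cut_B00pm_112_s3 Ext.none :=
  certFK0 (fam := false) (s1 := true) (s2 := false) (a := 1) (b := 1) (c := 2) (cn := .dn) (n1 := ndF0q1) (n2 := ndF0q2) (pc := pcF1) (cut := cut_B00pm_112_s3) (xt := Ext.none) (P1 := 536870912) (W1 := 536870912) (P2 := 0) (W2 := 536870912) (P3 := 201326592) (W3 := 134217728)
    rfl rfl rfl k0_B00pm_112_s3

theorem s_B00pm_112_s3 {κ x : ℝ} (hκ : κ * h0 = ken x) (hx : ((201326592 : ℕ) : ℝ) / S ≤ x)
    (hx' : x ≤ (((201326592 : ℕ) : ℝ) + (134217728 : ℕ)) / S) :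
    AltB (VF κ) PP tKF tL pcF [⟨4, 0, 0, 2845415833⟩] 1 1 2 0 0 (sgb true) (sgb false) x :=
  strip_altB (m := 2845415833) false rfl hκ covF01 covF02 hx hx' c_B00pm_112_s3 cutB_nil (noExt_B)

noncomputable def cut_B00pm_202_s1 : Cut := Cut.of [[⟨4, 0, 0, 1449551462⟩], [⟨0, 1, 0, 67108864⟩, ⟨1, 0, 0, 67108864⟩, ⟨2, 1, 0, 67108864⟩]]

noncomputable def f_B00pm_202_s1 : ℕ → ℕ → ℕ → ℕ → Bool := onCell 0 536870912 0 536870912 201326592 134217728
    (rowFK 0 false true false .pp 2 0 2 (qsf 0 536870912 0 536870912 0) ndF0q2 ndF0q2 pcF0 cut_B00pm_202_s1 Ext.none)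

def k0_B00pm_202_s1 : ∃ t, chk3 f_B00pm_202_s1 t 1 1 1 = true :=
  ⟨(a (l 3) (b (l 3) (a (l 3) (a (l 3) (b (l 3) (b (l 3) (l 14))))))), by decide +kernel⟩

theorem c_B00pm_202_s1 : CertF 0 536870912 0 536870912 201326592 134217728 false true false .pp 2 0 2
    ndF0q2 ndF0q2 pcF0 cut_B00pm_202_s1 Ext.none :=
  certFK0 (fam := false) (s1 := true) (s2 := false) (a := 2) (b := 0) (c := 2) (cn := .pp) (n1 := ndF0q2) (n2 := ndF0q2) (pc := pcF0) (cut := cut_B00pm_202_s1) (xt := Ext.none) (P1 := 0) (W1 := 536870912) (P2 := 0) (W2 := 536870912) (P3 := 201326592) (W3 := 134217728)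
    rfl rfl rfl k0_B00pm_202_s1

theorem s_B00pm_202_s1 {κ x : ℝ} (hκ : κ * h0 = ken x) (hx : ((201326592 : ℕ) : ℝ) / S ≤ x)
    (hx' : x ≤ (((201326592 : ℕ) : ℝ) + (134217728 : ℕ)) / S)
    (H : CutB (VF κ) PP tKF tL pcF (Cut.of [[⟨0, 1, 0, 67108864⟩, ⟨1, 0, 0, 67108864⟩, ⟨2, 1, 0, 67108864⟩]]) 2 0 2 0 0 (sgb true) (sgb false) x) :
    AltB (VF κ) PP tKF tL pcF [⟨3, 0, 0, 1449551462⟩] 2 0 2 0 0 (sgb true) (sgb false) x :=
  strip_altB (m := 1449551462) true rfl hκ covF02 covF02 hx hx' c_B00pm_202_s1 H (noExt_B)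

noncomputable def cut_B00pm_202_s3 : Cut := Cut.of [[⟨3, 0, 0, 2845415833⟩], [⟨0, 1, 0, 67108864⟩, ⟨1, 0, 0, 67108864⟩, ⟨2, 1, 0, 67108864⟩]]

noncomputable def f_B00pm_202_s3 : ℕ → ℕ → ℕ → ℕ → Bool := onCell 0 536870912 0 536870912 201326592 134217728
    (rowFK 0 false true false .pp 2 0 2 (qsf 0 536870912 0 536870912 0) ndF0q2 ndF0q2 pcF0 cut_B00pm_202_s3 Ext.none)

def k0_B00pm_202_s3 : ∃ t, chk3 f_B00pm_202_s3 t 1 1 1 = true :=
  ⟨(l 6), by decide +kernel⟩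

theorem c_B00pm_202_s3 : CertF 0 536870912 0 536870912 201326592 134217728 false true false .pp 2 0 2
    ndF0q2 ndF0q2 pcF0 cut_B00pm_202_s3 Ext.none :=
  certFK0 (fam := false) (s1 := true) (s2 := false) (a := 2) (b := 0) (c := 2) (cn := .pp) (n1 := ndF0q2) (n2 := ndF0q2) (pc := pcF0) (cut := cut_B00pm_202_s3) (xt := Ext.none) (P1 := 0) (W1 := 536870912) (P2 := 0) (W2 := 536870912) (P3 := 201326592) (W3 := 134217728)
    rfl rfl rfl k0_B00pm_202_s3

theorem s_B00pm_202_s3 {κ x : ℝ} (hκ : κ * h0 = ken x) (hx : ((201326592 : ℕ) : ℝ) / S ≤ x)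
    (hx' : x ≤ (((201326592 : ℕ) : ℝ) + (134217728 : ℕ)) / S)
    (H : CutB (VF κ) PP tKF tL pcF (Cut.of [[⟨0, 1, 0, 67108864⟩, ⟨1, 0, 0, 67108864⟩, ⟨2, 1, 0, 67108864⟩]]) 2 0 2 0 0 (sgb true) (sgb false) x) :
    AltB (VF κ) PP tKF tL pcF [⟨4, 0, 0, 2845415833⟩] 2 0 2 0 0 (sgb true) (sgb false) x :=
  strip_altB (m := 2845415833) false rfl hκ covF02 covF02 hx hx' c_B00pm_202_s3 H (noExt_B)

noncomputable def cut_B00mm_001_s1 : Cut := Cut.of [[⟨4, 0, 0, 1449551462⟩]]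

noncomputable def f_B00mm_001_s1 : ℕ → ℕ → ℕ → ℕ → Bool := onCell 0 536870912 0 536870912 201326592 134217728
    (rowFK 1 false false false .up 0 0 1 (qsf 0 536870912 536870912 536870912 0) ndF0q0 ndF0q1 pcF0 cut_B00mm_001_s1 Ext.none)

def k0_B00mm_001_s1 : ∃ t, chk3 f_B00mm_001_s1 t 1 1 1 = true :=
  ⟨(l 3), by decide +kernel⟩

theorem c_B00mm_001_s1 : CertF 0 536870912 536870912 536870912 201326592 134217728 false false false .up 0 0 1
    ndF0q0 ndF0q1 pcF0 cut_B00mm_001_s1 Ext.none :=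
  certFK1 (fam := false) (s1 := false) (s2 := false) (a := 0) (b := 0) (c := 1) (cn := .up) (n1 := ndF0q0) (n2 := ndF0q1) (pc := pcF0) (cut := cut_B00mm_001_s1) (xt := Ext.none) (P1 := 0) (W1 := 536870912) (P2 := 536870912) (W2 := 536870912) (P3 := 201326592) (W3 := 134217728)
    rfl rfl rfl (fun _ => rfl) k0_B00mm_001_s1

theorem s_B00mm_001_s1 {κ x : ℝ} (hκ : κ * h0 = ken x) (hx : ((201326592 : ℕ) : ℝ) / S ≤ x)
    (hx' : x ≤ (((201326592 : ℕ) : ℝ) + (134217728 : ℕ)) / S) :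
    AltB (VF κ) PP tKF tL pcF [⟨3, 0, 0, 1449551462⟩] 0 0 1 0 0 (sgb false) (sgb false) x :=
  strip_altB (m := 1449551462) true rfl hκ covF00 covF01 hx hx' c_B00mm_001_s1 cutB_nil (noExt_B)

noncomputable def cut_B00mm_001_s3 : Cut := Cut.of [[⟨3, 0, 0, 2845415833⟩]]

noncomputable def f_B00mm_001_s3 : ℕ → ℕ → ℕ → ℕ → Bool := onCell 0 536870912 536870912 536870912 201326592 134217728
    (rowFK 0 false false false .up 0 0 1 (qsf 0 536870912 536870912 536870912 0) ndF0q0 ndF0q1 pcF0 cut_B00mm_001_s3 Ext.none)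

def k0_B00mm_001_s3 : ∃ t, chk3 f_B00mm_001_s3 t 1 1 1 = true :=
  ⟨(l 6), by decide +kernel⟩

theorem c_B00mm_001_s3 : CertF 0 536870912 536870912 536870912 201326592 134217728 false false false .up 0 0 1
    ndF0q0 ndF0q1 pcF0 cut_B00mm_001_s3 Ext.none :=
  certFK0 (fam := false) (s1 := false) (s2 := false) (a := 0) (b := 0) (c := 1) (cn := .up) (n1 := ndF0q0) (n2 := ndF0q1) (pc := pcF0) (cut := cut_B00mm_001_s3) (xt := Ext.none) (P1 := 0) (W1 := 536870912) (P2 := 536870912) (W2 := 536870912) (P3 := 201326592) (W3 := 134217728)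
    rfl rfl rfl k0_B00mm_001_s3

theorem s_B00mm_001_s3 {κ x : ℝ} (hκ : κ * h0 = ken x) (hx : ((201326592 : ℕ) : ℝ) / S ≤ x)
    (hx' : x ≤ (((201326592 : ℕ) : ℝ) + (134217728 : ℕ)) / S) :
    AltB (VF κ) PP tKF tL pcF [⟨4, 0, 0, 2845415833⟩] 0 0 1 0 0 (sgb false) (sgb false) x :=
  strip_altB (m := 2845415833) false rfl hκ covF00 covF01 hx hx' c_B00mm_001_s3 cutB_nil (noExt_B)

noncomputable def cut_B00mm_011_s1 : Cut := Cut.of [[⟨4, 0, 0, 1449551462⟩]]

noncomputable def f_B00mm_011_s1 : ℕ → ℕ → ℕ → ℕ → Bool := onCell 0 536870912 536870912 536870912 201326592 134217728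
    (rowFK 1 false false false .pnn 0 1 1 (qsf 0 536870912 536870912 536870912 1) ndF0q0 ndF0q1 pcF1 cut_B00mm_011_s1 Ext.none)

def k0_B00mm_011_s1 : ∃ t, chk3 f_B00mm_011_s1 t 1 1 1 = true :=
  ⟨(l 5), by decide +kernel⟩

theorem c_B00mm_011_s1 : CertF 0 536870912 536870912 536870912 201326592 134217728 false false false .pnn 0 1 1
    ndF0q0 ndF0q1 pcF1 cut_B00mm_011_s1 Ext.none :=
  certFK1 (fam := false) (s1 := false) (s2 := false) (a := 0) (b := 1) (c := 1) (cn := .pnn) (n1 := ndF0q0) (n2 := ndF0q1) (pc := pcF1) (cut := cut_B00mm_011_s1) (xt := Ext.none) (P1 := 0) (W1 := 536870912) (P2 := 536870912) (W2 := 536870912) (P3 := 201326592) (W3 := 134217728)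
    rfl rfl rfl (fun _ => rfl) k0_B00mm_011_s1

theorem s_B00mm_011_s1 {κ x : ℝ} (hκ : κ * h0 = ken x) (hx : ((201326592 : ℕ) : ℝ) / S ≤ x)
    (hx' : x ≤ (((201326592 : ℕ) : ℝ) + (134217728 : ℕ)) / S) :
    AltB (VF κ) PP tKF tL pcF [⟨3, 0, 0, 1449551462⟩] 0 1 1 0 0 (sgb false) (sgb false) x :=
  strip_altB (m := 1449551462) true rfl hκ covF00 covF01 hx hx' c_B00mm_011_s1 cutB_nil (noExt_B)

noncomputable def cut_B00mm_011_s3 : Cut := Cut.of [[⟨3, 0, 0, 2845415833⟩]]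

noncomputable def f_B00mm_011_s3 : ℕ → ℕ → ℕ → ℕ → Bool := onCell 0 536870912 536870912 536870912 201326592 134217728
    (rowFK 0 false false false .pnn 0 1 1 (qsf 0 536870912 536870912 536870912 1) ndF0q0 ndF0q1 pcF1 cut_B00mm_011_s3 Ext.none)

def k0_B00mm_011_s3 : ∃ t, chk3 f_B00mm_011_s3 t 1 1 1 = true :=
  ⟨(l 6), by decide +kernel⟩

theorem c_B00mm_011_s3 : CertF 0 536870912 536870912 536870912 201326592 134217728 false false false .pnn 0 1 1
    ndF0q0 ndF0q1 pcF1 cut_B00mm_011_s3 Ext.none :=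
  certFK0 (fam := false) (s1 := false) (s2 := false) (a := 0) (b := 1) (c := 1) (cn := .pnn) (n1 := ndF0q0) (n2 := ndF0q1) (pc := pcF1) (cut := cut_B00mm_011_s3) (xt := Ext.none) (P1 := 0) (W1 := 536870912) (P2 := 536870912) (W2 := 536870912) (P3 := 201326592) (W3 := 134217728)
    rfl rfl rfl k0_B00mm_011_s3

theorem s_B00mm_011_s3 {κ x : ℝ} (hκ : κ * h0 = ken x) (hx : ((201326592 : ℕ) : ℝ) / S ≤ x)
    (hx' : x ≤ (((201326592 : ℕ) : ℝ) + (134217728 : ℕ)) / S) :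
    AltB (VF κ) PP tKF tL pcF [⟨4, 0, 0, 2845415833⟩] 0 1 1 0 0 (sgb false) (sgb false) x :=
  strip_altB (m := 2845415833) false rfl hκ covF00 covF01 hx hx' c_B00mm_011_s3 cutB_nil (noExt_B)

noncomputable def cut_B00mm_012_s1 : Cut := Cut.of [[⟨4, 0, 0, 1449551462⟩]]

noncomputable def f_B00mm_012_s1 : ℕ → ℕ → ℕ → ℕ → Bool := onCell 0 536870912 0 536870912 201326592 134217728
    (rowFK 0 false false false .pnp 0 1 2 (qsf 0 536870912 0 536870912 1) ndF0q0 ndF0q2 pcF1 cut_B00mm_012_s1 Ext.none)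

def k0_B00mm_012_s1 : ∃ t, chk3 f_B00mm_012_s1 t 1 1 1 = true :=
  ⟨(l 5), by decide +kernel⟩

theorem c_B00mm_012_s1 : CertF 0 536870912 0 536870912 201326592 134217728 false false false .pnp 0 1 2
    ndF0q0 ndF0q2 pcF1 cut_B00mm_012_s1 Ext.none :=
  certFK0 (fam := false) (s1 := false) (s2 := false) (a := 0) (b := 1) (c := 2) (cn := .pnp) (n1 := ndF0q0) (n2 := ndF0q2) (pc := pcF1) (cut := cut_B00mm_012_s1) (xt := Ext.none) (P1 := 0) (W1 := 536870912) (P2 := 0) (W2 := 536870912) (P3 := 201326592) (W3 := 134217728)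
    rfl rfl rfl k0_B00mm_012_s1

theorem s_B00mm_012_s1 {κ x : ℝ} (hκ : κ * h0 = ken x) (hx : ((201326592 : ℕ) : ℝ) / S ≤ x)
    (hx' : x ≤ (((201326592 : ℕ) : ℝ) + (134217728 : ℕ)) / S) :
    AltB (VF κ) PP tKF tL pcF [⟨3, 0, 0, 1449551462⟩] 0 1 2 0 0 (sgb false) (sgb false) x :=
  strip_altB (m := 1449551462) true rfl hκ covF00 covF02 hx hx' c_B00mm_012_s1 cutB_nil (noExt_B)

noncomputable def cut_B00mm_012_s3 : Cut := Cut.of [[⟨3, 0, 0, 2845415833⟩]]

noncomputable def f_B00mm_012_s3 : ℕ → ℕ → ℕ → ℕ → Bool := onCell 0 536870912 0 536870912 201326592 134217728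
    (rowFK 0 false false false .pnp 0 1 2 (qsf 0 536870912 0 536870912 1) ndF0q0 ndF0q2 pcF1 cut_B00mm_012_s3 Ext.none)

def k0_B00mm_012_s3 : ∃ t, chk3 f_B00mm_012_s3 t 1 1 1 = true :=
  ⟨(l 5), by decide +kernel⟩

theorem c_B00mm_012_s3 : CertF 0 536870912 0 536870912 201326592 134217728 false false false .pnp 0 1 2
    ndF0q0 ndF0q2 pcF1 cut_B00mm_012_s3 Ext.none :=
  certFK0 (fam := false) (s1 := false) (s2 := false) (a := 0) (b := 1) (c := 2) (cn := .pnp) (n1 := ndF0q0) (n2 := ndF0q2) (pc := pcF1) (cut := cut_B00mm_012_s3) (xt := Ext.none) (P1 := 0) (W1 := 536870912) (P2 := 0) (W2 := 536870912) (P3 := 201326592) (W3 := 134217728)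
    rfl rfl rfl k0_B00mm_012_s3

theorem s_B00mm_012_s3 {κ x : ℝ} (hκ : κ * h0 = ken x) (hx : ((201326592 : ℕ) : ℝ) / S ≤ x)
    (hx' : x ≤ (((201326592 : ℕ) : ℝ) + (134217728 : ℕ)) / S) :
    AltB (VF κ) PP tKF tL pcF [⟨4, 0, 0, 2845415833⟩] 0 1 2 0 0 (sgb false) (sgb false) x :=
  strip_altB (m := 2845415833) false rfl hκ covF00 covF02 hx hx' c_B00mm_012_s3 cutB_nil (noExt_B)

noncomputable def cut_B00mm_022_s1 : Cut := Cut.of [[⟨4, 0, 0, 1449551462⟩]]

noncomputable def f_B00mm_022_s1 : ℕ → ℕ → ℕ → ℕ → Bool := onCell 0 536870912 0 536870912 201326592 134217728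
    (rowFK 0 false false false .pp 0 2 2 (qsf 0 536870912 0 536870912 2) ndF0q0 ndF0q2 pcF2 cut_B00mm_022_s1 Ext.none)

def k0_B00mm_022_s1 : ∃ t, chk3 f_B00mm_022_s1 t 1 1 1 = true :=
  ⟨(l 5), by decide +kernel⟩

theorem c_B00mm_022_s1 : CertF 0 536870912 0 536870912 201326592 134217728 false false false .pp 0 2 2
    ndF0q0 ndF0q2 pcF2 cut_B00mm_022_s1 Ext.none :=
  certFK0 (fam := false) (s1 := false) (s2 := false) (a := 0) (b := 2) (c := 2) (cn := .pp) (n1 := ndF0q0) (n2 := ndF0q2) (pc := pcF2) (cut := cut_B00mm_022_s1) (xt := Ext.none) (P1 := 0) (W1 := 536870912) (P2 := 0) (W2 := 536870912) (P3 := 201326592) (W3 := 134217728)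
    rfl rfl rfl k0_B00mm_022_s1

theorem s_B00mm_022_s1 {κ x : ℝ} (hκ : κ * h0 = ken x) (hx : ((201326592 : ℕ) : ℝ) / S ≤ x)
    (hx' : x ≤ (((201326592 : ℕ) : ℝ) + (134217728 : ℕ)) / S) :
    AltB (VF κ) PP tKF tL pcF [⟨3, 0, 0, 1449551462⟩] 0 2 2 0 0 (sgb false) (sgb false) x :=
  strip_altB (m := 1449551462) true rfl hκ covF00 covF02 hx hx' c_B00mm_022_s1 cutB_nil (noExt_B)

noncomputable def cut_B00mm_022_s3 : Cut := Cut.of [[⟨3, 0, 0, 2845415833⟩]]

noncomputable def f_B00mm_022_s3 : ℕ → ℕ → ℕ → ℕ → Bool := onCell 0 536870912 0 536870912 201326592 134217728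
    (rowFK 0 false false false .pp 0 2 2 (qsf 0 536870912 0 536870912 2) ndF0q0 ndF0q2 pcF2 cut_B00mm_022_s3 Ext.none)

def k0_B00mm_022_s3 : ∃ t, chk3 f_B00mm_022_s3 t 1 1 1 = true :=
  ⟨(l 5), by decide +kernel⟩

theorem c_B00mm_022_s3 : CertF 0 536870912 0 536870912 201326592 134217728 false false false .pp 0 2 2
    ndF0q0 ndF0q2 pcF2 cut_B00mm_022_s3 Ext.none :=
  certFK0 (fam := false) (s1 := false) (s2 := false) (a := 0) (b := 2) (c := 2) (cn := .pp) (n1 := ndF0q0) (n2 := ndF0q2) (pc := pcF2) (cut := cut_B00mm_022_s3) (xt := Ext.none) (P1 := 0) (W1 := 536870912) (P2 := 0) (W2 := 536870912) (P3 := 201326592) (W3 := 134217728)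
    rfl rfl rfl k0_B00mm_022_s3

theorem s_B00mm_022_s3 {κ x : ℝ} (hκ : κ * h0 = ken x) (hx : ((201326592 : ℕ) : ℝ) / S ≤ x)
    (hx' : x ≤ (((201326592 : ℕ) : ℝ) + (134217728 : ℕ)) / S) :
    AltB (VF κ) PP tKF tL pcF [⟨4, 0, 0, 2845415833⟩] 0 2 2 0 0 (sgb false) (sgb false) x :=
  strip_altB (m := 2845415833) false rfl hκ covF00 covF02 hx hx' c_B00mm_022_s3 cutB_nil (noExt_B)

noncomputable def cut_B00mm_101_s1 : Cut := Cut.of [[⟨4, 0, 0, 1449551462⟩]]

noncomputable def f_B00mm_101_s1 : ℕ → ℕ → ℕ → ℕ → Bool := onCell 536870912 536870912 536870912 536870912 201326592 134217728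
    (rowFK 0 false false false .npn 1 0 1 (qsf 536870912 536870912 536870912 536870912 0) ndF0q1 ndF0q1 pcF0 cut_B00mm_101_s1 Ext.none)

def k0_B00mm_101_s1 : ∃ t, chk3 f_B00mm_101_s1 t 1 1 1 = true :=
  ⟨(l 3), by decide +kernel⟩

theorem c_B00mm_101_s1 : CertF 536870912 536870912 536870912 536870912 201326592 134217728 false false false .npn 1 0 1
    ndF0q1 ndF0q1 pcF0 cut_B00mm_101_s1 Ext.none :=
  certFK0 (fam := false) (s1 := false) (s2 := false) (a := 1) (b := 0) (c := 1) (cn := .npn) (n1 := ndF0q1) (n2 := ndF0q1) (pc := pcF0) (cut := cut_B00mm_101_s1) (xt := Ext.none) (P1 := 536870912) (W1 := 536870912) (P2 := 536870912) (W2 := 536870912) (P3 := 201326592) (W3 := 134217728)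
    rfl rfl rfl k0_B00mm_101_s1

theorem s_B00mm_101_s1 {κ x : ℝ} (hκ : κ * h0 = ken x) (hx : ((201326592 : ℕ) : ℝ) / S ≤ x)
    (hx' : x ≤ (((201326592 : ℕ) : ℝ) + (134217728 : ℕ)) / S) :
    AltB (VF κ) PP tKF tL pcF [⟨3, 0, 0, 1449551462⟩] 1 0 1 0 0 (sgb false) (sgb false) x :=
  strip_altB (m := 1449551462) true rfl hκ covF01 covF01 hx hx' c_B00mm_101_s1 cutB_nil (noExt_B)

noncomputable def cut_B00mm_101_s3 : Cut := Cut.of [[⟨3, 0, 0, 2845415833⟩]]

noncomputable def f_B00mm_101_s3 : ℕ → ℕ → ℕ → ℕ → Bool := onCell 536870912 536870912 536870912 536870912 201326592 134217728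
    (rowFK 0 false false false .npn 1 0 1 (qsf 536870912 536870912 536870912 536870912 0) ndF0q1 ndF0q1 pcF0 cut_B00mm_101_s3 Ext.none)

def k0_B00mm_101_s3 : ∃ t, chk3 f_B00mm_101_s3 t 1 1 1 = true :=
  ⟨(l 3), by decide +kernel⟩

theorem c_B00mm_101_s3 : CertF 536870912 536870912 536870912 536870912 201326592 134217728 false false false .npn 1 0 1
    ndF0q1 ndF0q1 pcF0 cut_B00mm_101_s3 Ext.none :=
  certFK0 (fam := false) (s1 := false) (s2 := false) (a := 1) (b := 0) (c := 1) (cn := .npn) (n1 := ndF0q1) (n2 := ndF0q1) (pc := pcF0) (cut := cut_B00mm_101_s3) (xt := Ext.none) (P1 := 536870912) (W1 := 536870912) (P2 := 536870912) (W2 := 536870912) (P3 := 201326592) (W3 := 134217728)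
    rfl rfl rfl k0_B00mm_101_s3

theorem s_B00mm_101_s3 {κ x : ℝ} (hκ : κ * h0 = ken x) (hx : ((201326592 : ℕ) : ℝ) / S ≤ x)
    (hx' : x ≤ (((201326592 : ℕ) : ℝ) + (134217728 : ℕ)) / S) :
    AltB (VF κ) PP tKF tL pcF [⟨4, 0, 0, 2845415833⟩] 1 0 1 0 0 (sgb false) (sgb false) x :=
  strip_altB (m := 2845415833) false rfl hκ covF01 covF01 hx hx' c_B00mm_101_s3 cutB_nil (noExt_B)

noncomputable def cut_B00mm_102_s1 : Cut := Cut.of [[⟨4, 0, 0, 1449551462⟩]]

noncomputable def f_B00mm_102_s1 : ℕ → ℕ → ℕ → ℕ → Bool := onCell 536870912 536870912 0 536870912 201326592 134217728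
    (rowFK 0 false false false .npp 1 0 2 (qsf 536870912 536870912 0 536870912 0) ndF0q1 ndF0q2 pcF0 cut_B00mm_102_s1 Ext.none)

def k0_B00mm_102_s1 : ∃ t, chk3 f_B00mm_102_s1 t 1 1 1 = true :=
  ⟨(a (l 5) (l 3)), by decide +kernel⟩

theorem c_B00mm_102_s1 : CertF 536870912 536870912 0 536870912 201326592 134217728 false false false .npp 1 0 2
    ndF0q1 ndF0q2 pcF0 cut_B00mm_102_s1 Ext.none :=
  certFK0 (fam := false) (s1 := false) (s2 := false) (a := 1) (b := 0) (c := 2) (cn := .npp) (n1 := ndF0q1) (n2 := ndF0q2) (pc := pcF0) (cut := cut_B00mm_102_s1) (xt := Ext.none) (P1 := 536870912) (W1 := 536870912) (P2 := 0) (W2 := 536870912) (P3 := 201326592) (W3 := 134217728)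
    rfl rfl rfl k0_B00mm_102_s1

theorem s_B00mm_102_s1 {κ x : ℝ} (hκ : κ * h0 = ken x) (hx : ((201326592 : ℕ) : ℝ) / S ≤ x)
    (hx' : x ≤ (((201326592 : ℕ) : ℝ) + (134217728 : ℕ)) / S) :
    AltB (VF κ) PP tKF tL pcF [⟨3, 0, 0, 1449551462⟩] 1 0 2 0 0 (sgb false) (sgb false) x :=
  strip_altB (m := 1449551462) true rfl hκ covF01 covF02 hx hx' c_B00mm_102_s1 cutB_nil (noExt_B)

noncomputable def cut_B00mm_102_s3 : Cut := Cut.of [[⟨3, 0, 0, 2845415833⟩]]

noncomputable def f_B00mm_102_s3 : ℕ → ℕ → ℕ → ℕ → Bool := onCell 536870912 536870912 0 536870912 201326592 134217728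
    (rowFK 0 false false false .npp 1 0 2 (qsf 536870912 536870912 0 536870912 0) ndF0q1 ndF0q2 pcF0 cut_B00mm_102_s3 Ext.none)

def k0_B00mm_102_s3 : ∃ t, chk3 f_B00mm_102_s3 t 1 1 1 = true :=
  ⟨(l 6), by decide +kernel⟩

theorem c_B00mm_102_s3 : CertF 536870912 536870912 0 536870912 201326592 134217728 false false false .npp 1 0 2
    ndF0q1 ndF0q2 pcF0 cut_B00mm_102_s3 Ext.none :=
  certFK0 (fam := false) (s1 := false) (s2 := false) (a := 1) (b := 0) (c := 2) (cn := .npp) (n1 := ndF0q1) (n2 := ndF0q2) (pc := pcF0) (cut := cut_B00mm_102_s3) (xt := Ext.none) (P1 := 536870912) (W1 := 536870912) (P2 := 0) (W2 := 536870912) (P3 := 201326592) (W3 := 134217728)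
    rfl rfl rfl k0_B00mm_102_s3

theorem s_B00mm_102_s3 {κ x : ℝ} (hκ : κ * h0 = ken x) (hx : ((201326592 : ℕ) : ℝ) / S ≤ x)
    (hx' : x ≤ (((201326592 : ℕ) : ℝ) + (134217728 : ℕ)) / S) :
    AltB (VF κ) PP tKF tL pcF [⟨4, 0, 0, 2845415833⟩] 1 0 2 0 0 (sgb false) (sgb false) x :=
  strip_altB (m := 2845415833) false rfl hκ covF01 covF02 hx hx' c_B00mm_102_s3 cutB_nil (noExt_B)

noncomputable def cut_B00mm_112_s1 : Cut := Cut.of [[⟨4, 0, 0, 1449551462⟩]]

noncomputable def f_B00mm_112_s1 : ℕ → ℕ → ℕ → ℕ → Bool := onCell 536870912 536870912 0 536870912 201326592 134217728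
    (rowFK 2 false false false .dn 1 1 2 (qsf 536870912 536870912 0 536870912 1) ndF0q1 ndF0q2 pcF1 cut_B00mm_112_s1 Ext.none)

def k0_B00mm_112_s1 : ∃ t, chk3 f_B00mm_112_s1 t 1 1 1 = true :=
  ⟨(l 5), by decide +kernel⟩

theorem c_B00mm_112_s1 : CertF 536870912 536870912 0 536870912 201326592 134217728 false false false .dn 1 1 2
    ndF0q1 ndF0q2 pcF1 cut_B00mm_112_s1 Ext.none :=
  certFK2 (fam := false) (s1 := false) (s2 := false) (a := 1) (b := 1) (c := 2) (cn := .dn) (n1 := ndF0q1) (n2 := ndF0q2) (pc := pcF1) (cut := cut_B00mm_112_s1) (xt := Ext.none) (P1 := 536870912) (W1 := 536870912) (P2 := 0) (W2 := 536870912) (P3 := 201326592) (W3 := 134217728)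
    rfl rfl rfl (fun _ => rfl) k0_B00mm_112_s1

theorem s_B00mm_112_s1 {κ x : ℝ} (hκ : κ * h0 = ken x) (hx : ((201326592 : ℕ) : ℝ) / S ≤ x)
    (hx' : x ≤ (((201326592 : ℕ) : ℝ) + (134217728 : ℕ)) / S) :
    AltB (VF κ) PP tKF tL pcF [⟨3, 0, 0, 1449551462⟩] 1 1 2 0 0 (sgb false) (sgb false) x :=
  strip_altB (m := 1449551462) true rfl hκ covF01 covF02 hx hx' c_B00mm_112_s1 cutB_nil (noExt_B)

noncomputable def cut_B00mm_112_s3 : Cut := Cut.of [[⟨3, 0, 0, 2845415833⟩]]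

noncomputable def f_B00mm_112_s3 : ℕ → ℕ → ℕ → ℕ → Bool := onCell 536870912 536870912 0 536870912 201326592 134217728
    (rowFK 0 false false false .dn 1 1 2 (qsf 536870912 536870912 0 536870912 1) ndF0q1 ndF0q2 pcF1 cut_B00mm_112_s3 Ext.none)

def k0_B00mm_112_s3 : ∃ t, chk3 f_B00mm_112_s3 t 1 1 1 = true :=
  ⟨(l 6), by decide +kernel⟩

theorem c_B00mm_112_s3 : CertF 536870912 536870912 0 536870912 201326592 134217728 false false false .dn 1 1 2
    ndF0q1 ndF0q2 pcF1 cut_B00mm_112_s3 Ext.none :=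
  certFK0 (fam := false) (s1 := false) (s2 := false) (a := 1) (b := 1) (c := 2) (cn := .dn) (n1 := ndF0q1) (n2 := ndF0q2) (pc := pcF1) (cut := cut_B00mm_112_s3) (xt := Ext.none) (P1 := 536870912) (W1 := 536870912) (P2 := 0) (W2 := 536870912) (P3 := 201326592) (W3 := 134217728)
    rfl rfl rfl k0_B00mm_112_s3

theorem s_B00mm_112_s3 {κ x : ℝ} (hκ : κ * h0 = ken x) (hx : ((201326592 : ℕ) : ℝ) / S ≤ x)
    (hx' : x ≤ (((201326592 : ℕ) : ℝ) + (134217728 : ℕ)) / S) :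
    AltB (VF κ) PP tKF tL pcF [⟨4, 0, 0, 2845415833⟩] 1 1 2 0 0 (sgb false) (sgb false) x :=
  strip_altB (m := 2845415833) false rfl hκ covF01 covF02 hx hx' c_B00mm_112_s3 cutB_nil (noExt_B)

noncomputable def cut_B00mm_202_s1 : Cut := Cut.of [[⟨4, 0, 0, 1449551462⟩]]

noncomputable def f_B00mm_202_s1 : ℕ → ℕ → ℕ → ℕ → Bool := onCell 0 536870912 0 536870912 201326592 134217728
    (rowFK 0 false false false .pp 2 0 2 (qsf 0 536870912 0 536870912 0) ndF0q2 ndF0q2 pcF0 cut_B00mm_202_s1 Ext.none)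

def k0_B00mm_202_s1 : ∃ t, chk3 f_B00mm_202_s1 t 1 1 1 = true :=
  ⟨(l 3), by decide +kernel⟩

theorem c_B00mm_202_s1 : CertF 0 536870912 0 536870912 201326592 134217728 false false false .pp 2 0 2
    ndF0q2 ndF0q2 pcF0 cut_B00mm_202_s1 Ext.none :=
  certFK0 (fam := false) (s1 := false) (s2 := false) (a := 2) (b := 0) (c := 2) (cn := .pp) (n1 := ndF0q2) (n2 := ndF0q2) (pc := pcF0) (cut := cut_B00mm_202_s1) (xt := Ext.none) (P1 := 0) (W1 := 536870912) (P2 := 0) (W2 := 536870912) (P3 := 201326592) (W3 := 134217728)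
    rfl rfl rfl k0_B00mm_202_s1

theorem s_B00mm_202_s1 {κ x : ℝ} (hκ : κ * h0 = ken x) (hx : ((201326592 : ℕ) : ℝ) / S ≤ x)
    (hx' : x ≤ (((201326592 : ℕ) : ℝ) + (134217728 : ℕ)) / S) :
    AltB (VF κ) PP tKF tL pcF [⟨3, 0, 0, 1449551462⟩] 2 0 2 0 0 (sgb false) (sgb false) x :=
  strip_altB (m := 1449551462) true rfl hκ covF02 covF02 hx hx' c_B00mm_202_s1 cutB_nil (noExt_B)

noncomputable def cut_B00mm_202_s3 : Cut := Cut.of [[⟨3, 0, 0, 2845415833⟩]]

noncomputable def f_B00mm_202_s3 : ℕ → ℕ → ℕ → ℕ → Bool := onCell 0 536870912 0 536870912 201326592 134217728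
    (rowFK 0 false false false .pp 2 0 2 (qsf 0 536870912 0 536870912 0) ndF0q2 ndF0q2 pcF0 cut_B00mm_202_s3 Ext.none)

def k0_B00mm_202_s3 : ∃ t, chk3 f_B00mm_202_s3 t 1 1 1 = true :=
  ⟨(l 3), by decide +kernel⟩

theorem c_B00mm_202_s3 : CertF 0 536870912 0 536870912 201326592 134217728 false false false .pp 2 0 2
    ndF0q2 ndF0q2 pcF0 cut_B00mm_202_s3 Ext.none :=
  certFK0 (fam := false) (s1 := false) (s2 := false) (a := 2) (b := 0) (c := 2) (cn := .pp) (n1 := ndF0q2) (n2 := ndF0q2) (pc := pcF0) (cut := cut_B00mm_202_s3) (xt := Ext.none) (P1 := 0) (W1 := 536870912) (P2 := 0) (W2 := 536870912) (P3 := 201326592) (W3 := 134217728)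
    rfl rfl rfl k0_B00mm_202_s3

theorem s_B00mm_202_s3 {κ x : ℝ} (hκ : κ * h0 = ken x) (hx : ((201326592 : ℕ) : ℝ) / S ≤ x)
    (hx' : x ≤ (((201326592 : ℕ) : ℝ) + (134217728 : ℕ)) / S) :
    AltB (VF κ) PP tKF tL pcF [⟨4, 0, 0, 2845415833⟩] 2 0 2 0 0 (sgb false) (sgb false) x :=
  strip_altB (m := 2845415833) false rfl hκ covF02 covF02 hx hx' c_B00mm_202_s3 cutB_nil (noExt_B)

noncomputable def cut_B05pp_001_s1 : Cut := Cut.of [[⟨4, 0, 0, 1449551462⟩]]

noncomputable def f_B05pp_001_s1 : ℕ → ℕ → ℕ → ℕ → Bool := onCell 0 536870912 0 536870912 201326592 134217728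
    (rowFK 1 false true true .up 0 0 1 (qsf 0 536870912 536870912 536870912 0) ndF0q0 ndF5q1 pcF0 cut_B05pp_001_s1 Ext.none)

def k0_B05pp_001_s1 : ∃ t, chk3 f_B05pp_001_s1 t 1 1 1 = true :=
  ⟨(l 3), by decide +kernel⟩

theorem c_B05pp_001_s1 : CertF 0 536870912 536870912 536870912 201326592 134217728 false true true .up 0 0 1
    ndF0q0 ndF5q1 pcF0 cut_B05pp_001_s1 Ext.none :=
  certFK1 (fam := false) (s1 := true) (s2 := true) (a := 0) (b := 0) (c := 1) (cn := .up) (n1 := ndF0q0) (n2 := ndF5q1) (pc := pcF0) (cut := cut_B05pp_001_s1) (xt := Ext.none) (P1 := 0) (W1 := 536870912) (P2 := 536870912) (W2 := 536870912) (P3 := 201326592) (W3 := 134217728)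
    rfl rfl rfl (fun _ => rfl) k0_B05pp_001_s1

theorem s_B05pp_001_s1 {κ x : ℝ} (hκ : κ * h0 = ken x) (hx : ((201326592 : ℕ) : ℝ) / S ≤ x)
    (hx' : x ≤ (((201326592 : ℕ) : ℝ) + (134217728 : ℕ)) / S) :
    AltB (VF κ) PP tKF tL pcF [⟨3, 0, 0, 1449551462⟩] 0 0 1 0 5 (sgb true) (sgb true) x :=
  strip_altB (m := 1449551462) true rfl hκ covF00 covF51 hx hx' c_B05pp_001_s1 cutB_nil (noExt_B)

noncomputable def cut_B05pp_011_s1 : Cut := Cut.of [[⟨4, 0, 0, 1449551462⟩], [⟨0, 0, 0, 67108864⟩, ⟨1, 1, 0, 67108864⟩, ⟨2, 1, 0, 67108864⟩]]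

noncomputable def f_B05pp_011_s1 : ℕ → ℕ → ℕ → ℕ → Bool := onCell 0 536870912 536870912 536870912 201326592 134217728
    (rowFK 1 false true true .pnn 0 1 1 (qsf 0 536870912 536870912 536870912 1) ndF0q0 ndF5q1 pcF1 cut_B05pp_011_s1 Ext.none)

def k0_B05pp_011_s1 : ∃ t, chk3 f_B05pp_011_s1 t 1 1 1 = true :=
  ⟨(b (l 3) (a (b (l 3) (a (b (l 3) (a (b (l 3) (a (l 14) (l 3))) (l 3))) (l 3))) (l 3))), by decide +kernel⟩

theorem c_B05pp_011_s1 : CertF 0 536870912 536870912 536870912 201326592 134217728 false true true .pnn 0 1 1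
    ndF0q0 ndF5q1 pcF1 cut_B05pp_011_s1 Ext.none :=
  certFK1 (fam := false) (s1 := true) (s2 := true) (a := 0) (b := 1) (c := 1) (cn := .pnn) (n1 := ndF0q0) (n2 := ndF5q1) (pc := pcF1) (cut := cut_B05pp_011_s1) (xt := Ext.none) (P1 := 0) (W1 := 536870912) (P2 := 536870912) (W2 := 536870912) (P3 := 201326592) (W3 := 134217728)
    rfl rfl rfl (fun _ => rfl) k0_B05pp_011_s1

theorem s_B05pp_011_s1 {κ x : ℝ} (hκ : κ * h0 = ken x) (hx : ((201326592 : ℕ) : ℝ) / S ≤ x)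
    (hx' : x ≤ (((201326592 : ℕ) : ℝ) + (134217728 : ℕ)) / S)
    (H : CutB (VF κ) PP tKF tL pcF (Cut.of [[⟨0, 0, 0, 67108864⟩, ⟨1, 1, 0, 67108864⟩, ⟨2, 1, 0, 67108864⟩]]) 0 1 1 0 5 (sgb true) (sgb true) x) :
    AltB (VF κ) PP tKF tL pcF [⟨3, 0, 0, 1449551462⟩] 0 1 1 0 5 (sgb true) (sgb true) x :=
  strip_altB (m := 1449551462) true rfl hκ covF00 covF51 hx hx' c_B05pp_011_s1 H (noExt_B)

noncomputable def cut_B05pp_012_s1 : Cut := Cut.of [[⟨4, 0, 0, 1449551462⟩], [⟨0, 0, 0, 67108864⟩, ⟨1, 1, 0, 67108864⟩, ⟨2, 1, 0, 67108864⟩]]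

noncomputable def f_B05pp_012_s1 : ℕ → ℕ → ℕ → ℕ → Bool := onCell 0 536870912 536870912 536870912 201326592 134217728
    (rowFK 1 false true true .pnp 0 1 2 (qsf 0 536870912 1073741824 536870912 1) ndF0q0 ndF5q2 pcF1 cut_B05pp_012_s1 Ext.none)

def k0_B05pp_012_s1 : ∃ t, chk3 f_B05pp_012_s1 t 1 1 1 = true :=
  ⟨(b (l 3) (a (b (l 3) (a (a (a (b (l 1) (b (l 3) (l 14))) (l 3)) (l 3)) (l 3))) (l 3))), by decide +kernel⟩

theorem c_B05pp_012_s1 : CertF 0 536870912 1073741824 536870912 201326592 134217728 false true true .pnp 0 1 2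
    ndF0q0 ndF5q2 pcF1 cut_B05pp_012_s1 Ext.none :=
  certFK1 (fam := false) (s1 := true) (s2 := true) (a := 0) (b := 1) (c := 2) (cn := .pnp) (n1 := ndF0q0) (n2 := ndF5q2) (pc := pcF1) (cut := cut_B05pp_012_s1) (xt := Ext.none) (P1 := 0) (W1 := 536870912) (P2 := 1073741824) (W2 := 536870912) (P3 := 201326592) (W3 := 134217728)
    rfl rfl rfl (fun _ => rfl) k0_B05pp_012_s1

theorem s_B05pp_012_s1 {κ x : ℝ} (hκ : κ * h0 = ken x) (hx : ((201326592 : ℕ) : ℝ) / S ≤ x)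
    (hx' : x ≤ (((201326592 : ℕ) : ℝ) + (134217728 : ℕ)) / S)
    (H : CutB (VF κ) PP tKF tL pcF (Cut.of [[⟨0, 0, 0, 67108864⟩, ⟨1, 1, 0, 67108864⟩, ⟨2, 1, 0, 67108864⟩]]) 0 1 2 0 5 (sgb true) (sgb true) x) :
    AltB (VF κ) PP tKF tL pcF [⟨3, 0, 0, 1449551462⟩] 0 1 2 0 5 (sgb true) (sgb true) x :=
  strip_altB (m := 1449551462) true rfl hκ covF00 covF52 hx hx' c_B05pp_012_s1 H (noExt_B)

noncomputable def cut_B05pp_022_s1 : Cut := Cut.of [[⟨4, 0, 0, 1449551462⟩], [⟨0, 0, 0, 67108864⟩, ⟨1, 1, 0, 67108864⟩, ⟨2, 1, 0, 67108864⟩]]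

noncomputable def xt_B05pp_022_s1 : Ext := strExt dd false true true .u0 .s2 .u2 .pp 0 2 2 rfl rfl gf2 vv ndF0q0 ndF5q2

noncomputable def f_B05pp_022_s1 : ℕ → ℕ → ℕ → ℕ → Bool := onCell 0 536870912 1073741824 536870912 201326592 134217728
    (rowFK 1 false true true .pp 0 2 2 (qsf 0 536870912 1073741824 536870912 2) ndF0q0 ndF5q2 pcF2 cut_B05pp_022_s1 xt_B05pp_022_s1)

def k0_B05pp_022_s1 : ∃ t, chk3 f_B05pp_022_s1 t 8 8 1 = true :=
  ⟨(b (a (b (l 14) (a (l 14) (a (l 14) (a (l 14) (b (l 14) (a (l 14) (b (l 14) (l 16760864)))))))) (a (a (b (l 14) (a (b (l 14) (a (l 527619711) (l 527367295))) (b (a (l 14) (l 527565839)) (a (l 527114623) (l 526862207))))) (b (l 3) (a (b (b (l 527337487) (l 527376511)) (b (l 527144575) (l 527188351))) (b (b (l 3) (l 526606207)) (c (l 527305343) (l 527041151)))))) (b (l 3) (a (b (a (c (l 527225983) (l 526976639)) (l 3)) (a (l 527747199) (l 527512703))) (b (l 3) (a (l 527009663) (l 526775423)))))))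 (a (b (a (a (l 14) (b (l 14) (a (l 14) (l 16722128)))) (a (b (b (l 14) (c (l 16738328) (l 16737088))) (a (l 16725808) (l 16729472))) (b (a (c (l 16746768) (l 16745760)) (c (l 16750232) (l 16749288))) (a (l 16733056) (l 16736464))))) (a (b (a (a (l 14) (l 16690448)) (c (l 16707632) (l 16695072))) (a (l 16695752) (l 16703528))) (b (c (a (l 16715128) (l 16722616)) (a (l 16702640) (l 16731168))) (a (l 16711184) (l 16718720))))) (b (a (a (a (b (b (l 16756608) (l 16749936)) (l 16740016)) (b (a (l 526844543) (l 526593407)) (l 16743432))) (a (b (b (l 527342207) (l 16756744)) (c (l 16747384) (l 16756672))) (b (l 527986559) (l 527997055)))) (a (b (a (l 527486335) (l 527254655)) (a (l 527500159) (l 527003007))) (b (a (l 526754687) (l 526791551)) (a (l 526774399) (l 526814335))))) (a (a (b (c (l 16729360) (l 16727584)) (l 16726200)) (c (b (l 16736232) (l 16733960)) (b (l 16734560) (l 16710800)))) (a (b (c (l 16742768) (l 16741232))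 (l 16729224)) (b (c (l 16749152) (l 16747768)) (c (l 16747160) (l 16745184)))))))), by decide +kernel⟩

def k1_B05pp_022_s1 : ∃ t, chk3 f_B05pp_022_s1 t 9 8 1 = true :=
  ⟨(a (b (b (l 3) (a (a (b (l 3) (b (l 3) (l 527394175))) (l 3)) (l 3))) (a (b (a (b (b (l 527290751) (l 527462783)) (c (l 528362623) (l 528026239))) (b (l 528249983) (l 528553087))) (a (b (l 528418687) (c (l 16753416) (l 16751584))) (b (l 527972991) (l 528428927)))) (b (a (b (c (l 527424127) (l 526812799)) (l 528370303)) (b (l 3) (l 527112319))) (b (a (l 527256191) (l 527344767)) (a (l 527982975) (l 527535999)))))) (b (l 3) (b (a (b (l 3) (a (l 527196799) (l 3))) (l 3)) (a (b (a (l 527433343) (l 527522431)) (a (l 527625087) (l 527723647))) (a (b (l 527612287) (l 527797887)) (b (l 529331983) (l 528955519))))))), by decide +kernel⟩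

def k2_B05pp_022_s1 : ∃ t, chk3 f_B05pp_022_s1 t 4 9 1 = true :=
  ⟨(a (b (a (a (a (b (c (l 16677280) (l 16674472)) (l 16649584)) (b (c (l 16685408) (l 16682640)) (l 16658080))) (a (b (c (l 16693416) (l 16690688)) (l 16666480)) (b (c (l 16701320) (l 16698640)) (l 16674776)))) (b (a (b (a (l 16713984) (l 16721512)) (c (l 16707000) (l 16704312))) (b (a (l 16728144) (l 16755728)) (c (l 16721504) (l 16718992)))) (a (b (l 16693408) (l 16680728)) (b (l 16709280) (l 16717816))))) (a (a (b (a (l 16643736) (l 16652448)) (l 16620704)) (b (c (l 16666880) (l 16663320)) (l 16638240))) (a (b (c (l 16662712) (l 16680208)) (l 16655392)) (b (l 16698536) (l 16672128))))) (b (b (a (a (b (a (l 16762000) (l 16747136)) (l 16733192)) (a (b (l 16753072) (l 16721152)) (b (l 16748360) (l 16768792)))) (a (a (b (l 527951487) (l 16753352)) (b (l 528034175) (l 16758736))) (a (b (l 528106111) (l 16763984)) (b (l 528206975) (l 528523135))))) (b (a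 (a (l 16722296) (l 16755176)) (a (l 16745216) (l 530315135))) (a (a (l 16732472) (l 16744680)) (a (l 16755664) (l 16766248))))) (b (a (a (b (l 16721064) (l 16666480)) (b (l 16775856) (l 16681816))) (c (a (l 16741184) (l 16752096)) (a (l 16739184) (l 16750208)))) (a (a (l 16730504) (l 16746808)) (a (l 16720208) (l 16732688)))))), by decide +kernel⟩

def k3_B05pp_022_s1 : ∃ t, chk3 f_B05pp_022_s1 t 4 5 1 = true :=
  ⟨(b (b (b (a (a (a (l 16591808) (l 16651152)) (a (l 16668144) (l 16684840))) (a (a (l 16701296) (l 16717712)) (b (l 16750768) (l 16735016)))) (a (a (b (a (l 16526824) (l 16543776)) (b (l 16564144) (a (l 16588136) (l 16603944)))) (b (l 16610368) (b (l 16554512) (l 16585040)))) (a (b (l 16684744) (b (l 16586192) (l 16657424))) (b (l 16717432) (b (l 16635416) (l 16651016)))))) (a (a (a (l 16516728) (l 16533256)) (b (l 16568040) (l 16505720))) (a (b (l 16641048) (l 16570888)) (b (l 16696456) (l 16773192))))) (a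 (a (b (a (l 16431360) (l 16450264)) (l 16447888)) (b (b (l 16487336) (l 16528672)) (l 16743184))) (b (a (l 16567480) (l 16887576)) (a (l 16932880) (l 17031336))))), by decide +kernel⟩

def k4_B05pp_022_s1 : ∃ t, chk3 f_B05pp_022_s1 t 5 2 1 = true :=
  ⟨(b (b (a (b (l 3) (b (l 3) (a (a (b (l 3) (l 529372031)) (l 3)) (l 3)))) (l 3)) (b (b (a (a (a (b (l 528357503) (l 528677759)) (b (l 528600703) (l 528924031))) (a (b (l 528862847) (l 529188479)) (l 530096767))) (l 3)) (a (a (a (b (l 528932735) (l 16755448)) (b (l 529179007) (l 529400959))) (a (b (l 529446783) (l 529672063)) (b (l 529708671) (l 530640255)))) (a (a (l 533112335) (l 536485759)) (b (l 3) (l 540494975))))) (a (b (a (a (c (l 16742304) (l 16739664)) (b (l 16776176) (l 16725248))) (b (a (l 529885823) (l 532810879)) (l 534362495))) (a (a (l 16786408) (l 16757264)) (b (l 534635903) (l 16774448)))) (b (a (b (l 537386111) (l 538721407)) (b (l 541455231) (l 542280063)))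 (a (b (l 539895679) (l 540930943)) (b (l 543023231) (l 543676287))))))) (b (b (b (a (a (b (l 16714176) (l 16734704)) (b (l 16789032) (l 16806056))) (b (a (l 16818912) (l 544249727)) (a (l 16834760) (l 16798888)))) (b (a (a (l 16756944) (l 16825080)) (a (l 16852200) (l 16857896))) (c (b (a (a (l 16911952) (l 16938680)) (a (l 16936960) (l 16922760))) (a (a (l 16927608) (l 16953496)) (b (b (l 16939024) (l 16942744)) (l 16948456)))) (b (a (l 16731152) (a (l 16796752) (l 16820568))) (a (a (l 16647152) (l 16750944)) (a (b (l 16802072) (l 16805856)) (b (l 16825656) (l 16829496)))))))) (a (a (b (l 16820360) (l 16877272)) (b (l 16879568) (l 16925872))) (a (b (l 16902344) (l 16942704)) (b (l 16904576) (l 16941904))))) (a (b (a (l 16964320) (l 16997360)) (a (l 17076760) (l 17091016))) (b (a (l 17005192) (l 17000464)) (l 17084336))))), by decide +kernel⟩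

def k5_B05pp_022_s1 : ∃ t, chk3 f_B05pp_022_s1 t 2 3 1 = true :=
  ⟨(b (a (a (b (a (b (l 16672904) (l 17037856)) (b (l 16983400) (l 17178192))) (l 6)) (b (b (a (l 17102880) (l 17159712)) (a (l 17245960) (l 17270488))) (b (l 17366456) (l 6)))) (b (a (b (l 17181312) (l 17266448)) (b (l 17160608) (l 17230904))) (a (l 17459240) (b (l 17294120) (l 2))))) (l 6)), by decide +kernel⟩

def k6_B05pp_022_s1 : ∃ t, chk3 f_B05pp_022_s1 t 3 1 1 = true :=
  ⟨(b (b (b (l 3) (a (b (l 3) (a (b (a (b (l 544010111) (l 544533887)) (l 3)) (a (b (l 544999551) (l 545412223)) (b (l 546254719) (l 546525055)))) (b (l 3) (a (b (l 3) (l 547209855)) (l 3))))) (l 3))) (b (b (a (b (a (b (a (l 545774975) (l 546741375)) (b (a (l 16830728) (l 546885759)) (a (l 16839216) (l 546991231)))) (b (a (l 547343231) (l 547707263)) (a (b (l 547431807) (a (l 16816864) (l 16809368))) (b (c (a (l 551063935) (l 551072383)) (a (l 544453503) (l 544707199))) (a (l 547794815)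 (a (l 547918719) (l 2))))))) (a (a (b (c (l 16886328) (l 16819272)) (b (l 16865616) (b (l 16872088) (l 16876800)))) (b (b (l 16836624) (l 16845776)) (b (l 16854728) (b (l 16861184) (l 16865496))))) (a (b (b (c (l 16837536) (l 16808256)) (c (l 16849848) (l 16815096))) (b (a (l 16844800) (l 16837832)) (b (l 16847848) (l 16852128)))) (a (b (b (l 16811584) (l 16821392)) (b (l 16830792) (b (l 16837312) (l 16841576)))) (b (b (l 35534176583) (l 2)) (l 2)))))) (b (b (b (l 3) (l 2)) (l 2)) (l 2))) (a (a (a (b (l 16896904) (l 16933408)) (b (l 16885344) (l 16921256))) (a (b (l 16871784) (l 16907160)) (b (l 25333704727) (l 2)))) (l 2))) (a (a (b (a (l 16989552) (l 16975624)) (l 17055240)) (b (a (l 16960480) (l 2)) (l 2))) (l 2)))) (a (b (b (a (b (l 17124152) (l 2)) (l 2)) (l 2)) (l 2)) (l 2))), by decide +kernel⟩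

theorem t7_B05pp_022_s1 : ∃ t, chk3 f_B05pp_022_s1 t 4 8 1 = true := ex3_a k0_B05pp_022_s1 k1_B05pp_022_s1

theorem t8_B05pp_022_s1 : ∃ t, chk3 f_B05pp_022_s1 t 4 4 1 = true := ex3_b t7_B05pp_022_s1 k2_B05pp_022_s1

theorem t9_B05pp_022_s1 : ∃ t, chk3 f_B05pp_022_s1 t 4 2 1 = true := ex3_b t8_B05pp_022_s1 k3_B05pp_022_s1

theorem t10_B05pp_022_s1 : ∃ t, chk3 f_B05pp_022_s1 t 2 2 1 = true := ex3_a t9_B05pp_022_s1 k4_B05pp_022_s1

theorem t11_B05pp_022_s1 : ∃ t, chk3 f_B05pp_022_s1 t 2 1 1 = true := ex3_b t10_B05pp_022_s1 k5_B05pp_022_s1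

theorem t12_B05pp_022_s1 : ∃ t, chk3 f_B05pp_022_s1 t 1 1 1 = true := ex3_a t11_B05pp_022_s1 k6_B05pp_022_s1

theorem c_B05pp_022_s1 : CertF 0 536870912 1073741824 536870912 201326592 134217728 false true true .pp 0 2 2
    ndF0q0 ndF5q2 pcF2 cut_B05pp_022_s1 xt_B05pp_022_s1 :=
  certFK1 (fam := false) (s1 := true) (s2 := true) (a := 0) (b := 2) (c := 2) (cn := .pp) (n1 := ndF0q0) (n2 := ndF5q2) (pc := pcF2) (cut := cut_B05pp_022_s1) (xt := xt_B05pp_022_s1) (P1 := 0) (W1 := 536870912) (P2 := 1073741824) (W2 := 536870912) (P3 := 201326592) (W3 := 134217728)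
    rfl rfl rfl (fun _ => rfl) t12_B05pp_022_s1

theorem s_B05pp_022_s1 {κ x : ℝ} (hκ : κ * h0 = ken x) (hx : ((201326592 : ℕ) : ℝ) / S ≤ x)
    (hx' : x ≤ (((201326592 : ℕ) : ℝ) + (134217728 : ℕ)) / S)
    (H : CutB (VF κ) PP tKF tL pcF (Cut.of [[⟨0, 0, 0, 67108864⟩, ⟨1, 1, 0, 67108864⟩, ⟨2, 1, 0, 67108864⟩]]) 0 2 2 0 5 (sgb true) (sgb true) x) :
    AltB (VF κ) PP tKF tL pcF [⟨3, 0, 0, 1449551462⟩] 0 2 2 0 5 (sgb true) (sgb true) x :=
  strip_altB (m := 1449551462) true rfl hκ covF00 covF52 hx hx' c_B05pp_022_s1 H ((okx hx hx').extB (T := tt) (sideF hx hx') hκ rfl rfl (.O 0 true) (.N 2 true) rfl)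

noncomputable def cut_B05pp_023_s1 : Cut := Cut.of [[⟨4, 0, 0, 1449551462⟩]]

noncomputable def xt_B05pp_023_s1 : Ext := strExt dd false true true .u0 .s2 .u2 .up 0 2 3 rfl rfl gf2 vv ndF0q0 ndF5q3

noncomputable def f_B05pp_023_s1 : ℕ → ℕ → ℕ → ℕ → Bool := onCell 1073741824 536870912 0 1230186008 201326592 134217728
    (rowFK 2 false true true .up 0 2 3 (qsf 0 536870912 0 1230186008 2) ndF0q0 ndF5q3 pcF2 cut_B05pp_023_s1 xt_B05pp_023_s1)

def k0_B05pp_023_s1 : ∃ t, chk3 f_B05pp_023_s1 t 1 2 1 = true :=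
  ⟨(a (l 2) (a (l 2) (l 6))), by decide +kernel⟩

def k1_B05pp_023_s1 : ∃ t, chk3 f_B05pp_023_s1 t 1 6 1 = true :=
  ⟨(a (a (l 2) (a (l 2) (b (l 2) (a (l 2) (b (l 2) (l 16941272)))))) (a (b (a (l 2) (l 17206448)) (a (b (l 17028248) (l 17378352)) (c (l 17457240) (l 17619640)))) (l 6))), by decide +kernel⟩

def k2_B05pp_023_s1 : ∃ t, chk3 f_B05pp_023_s1 t 4 7 1 = true :=
  ⟨(b (l 2) (l 3)), by decide +kernel⟩

def k3_B05pp_023_s1 : ∃ t, chk3 f_B05pp_023_s1 t 40 7 1 = true :=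
  ⟨(b (l 3) (b (l 3) (a (b (l 3) (b (l 3) (b (l 3) (a (l 3) (l 547827583))))) (b (a (l 3) (l 548643967)) (b (a (a (l 3) (l 548147839)) (l 548239743)) (a (b (c (l 551131519) (l 544902015)) (c (l 551081343) (l 544749183))) (b (a (l 548021375) (l 16788304)) (l 547946111)))))))), by decide +kernel⟩

def k4_B05pp_023_s1 : ∃ t, chk3 f_B05pp_023_s1 t 41 7 1 = true :=
  ⟨(b (a (l 3) (a (b (l 2) (b (l 2) (a (a (l 3) (l 546790015)) (b (l 546061439) (l 546641423))))) (a (b (l 2) (b (l 2) (b (a (a (l 545637247) (l 545451903)) (a (l 545437567) (l 545401215))) (a (a (l 546260095) (l 546130047)) (a (l 546041215) (l 545975935)))))) (b (l 2) (b (l 2) (b (b (l 16785456) (l 16786960)) (b (l 16788672) (l 16790600)))))))) (b (b (a (a (l 3) (b (a (l 3) (l 547946879)) (l 548260223))) (a (a (b (c (l 549908863) (l 545438591)) (a (l 548000127) (l 547888767))) (b (a (l 547297919) (l 547058047)) (a (l 547690879) (l 547482751)))) (b (a (a (b (l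 546641535) (l 16789000)) (a (l 546626175) (l 16790864))) (l 16793888)) (a (a (c (l 16796064) (l 16789576)) (l 16795216)) (l 16798928))))) (a (a (b (l 3) (c (l 552011135) (l 546056063))) (b (l 548480895) (a (b (l 548701055) (l 548789119)) (b (l 548542079) (l 548635007))))) (a (b (a (l 548180863) (a (l 547992191) (l 16795912))) (a (b (l 548367743) (l 16797096)) (c (l 16806784) (l 16795568)))) (a (b (a (l 16798456) (l 16800952)) (a (l 16804936) (l 16807480))) (b (l 16804752) (l 16811328)))))) (b (b (a (a (a (l 549026431) (l 548935807)) (a (l 548745855) (l 548644991))) (a (a (l 548482063) (l 16807920)) (a (a (l 16811824) (l 16814368)) (l 16818224)))) (a (a (l 548604031) (a (l 548599167) (l 16803736))) (a (a (l 16809528) (l 16815048)) (a (a (l 16818936) (l 16821472)) (l 16825336))))) (a (a (b (b (l 548421503) (l 548288383)) (b (l 548158335) (l 16806704))) (b (b (l 16806472) (l 16810352)) (c (l 16827752) (l 16805536)))) (c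 (a (b (l 16831480) (l 16842096)) (a (a (l 16845040) (l 16848224)) (l 16853048))) (a (b (l 16808664) (l 16813792)) (a (a (l 16816232) (l 16818160)) (l 16821104)))))))), by decide +kernel⟩

def k5_B05pp_023_s1 : ∃ t, chk3 f_B05pp_023_s1 t 21 7 1 = true :=
  ⟨(b (a (b (l 2) (b (b (l 2) (a (l 190689851159) (l 16812744))) (a (b (a (l 16777360) (l 16802336)) (a (l 16796752) (l 16806304))) (b (l 16816376) (l 16820752))))) (c (b (l 448388207463) (b (l 16847872) (l 16858912))) (a (b (l 2) (b (l 16821664) (l 16827720))) (b (l 16915528) (b (l 16837128) (l 16843976)))))) (b (a (a (b (b (a (l 16801184) (l 16811024)) (l 16811416)) (b (l 16817568) (l 16824200))) (b (l 16786792) (l 16841592))) (b (l 16859296) (l 16872536))) (b (a (b (l 16841520) (l 16848632)) (l 16886992)) (a (b (l 16856200) (l 16864128)) (l 16902504))))), by decide +kernel⟩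

def k6_B05pp_023_s1 : ∃ t, chk3 f_B05pp_023_s1 t 11 7 1 = true :=
  ⟨(b (b (a (b (l 16880512) (l 16886000)) (l 16954096)) (a (b (l 16894336) (l 16906888)) (b (l 16971600) (l 16986608)))) (b (a (b (l 16920584) (l 16935248)) (b (l 17002392) (l 17018376))) (a (b (l 16950424) (l 16966928)) (b (l 17035320) (l 17053848))))), by decide +kernel⟩

def k7_B05pp_023_s1 : ∃ t, chk3 f_B05pp_023_s1 t 3 7 1 = true :=
  ⟨(a (b (a (a (b (l 17026832) (l 17056488)) (b (l 17099496) (l 17134024))) (b (l 17206064) (l 17243888))) (b (a (a (l 17092336) (l 17172344)) (l 17290776)) (a (a (l 17131440) (l 17218104)) (l 17346776)))) (l 6)), by decide +kernel⟩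

theorem t8_B05pp_023_s1 : ∃ t, chk3 f_B05pp_023_s1 t 20 7 1 = true := ex3_a k3_B05pp_023_s1 k4_B05pp_023_s1

theorem t9_B05pp_023_s1 : ∃ t, chk3 f_B05pp_023_s1 t 10 7 1 = true := ex3_a t8_B05pp_023_s1 k5_B05pp_023_s1

theorem t10_B05pp_023_s1 : ∃ t, chk3 f_B05pp_023_s1 t 5 7 1 = true := ex3_a t9_B05pp_023_s1 k6_B05pp_023_s1

theorem t11_B05pp_023_s1 : ∃ t, chk3 f_B05pp_023_s1 t 2 7 1 = true := ex3_a k2_B05pp_023_s1 t10_B05pp_023_s1

theorem t12_B05pp_023_s1 : ∃ t, chk3 f_B05pp_023_s1 t 1 7 1 = true := ex3_a t11_B05pp_023_s1 k7_B05pp_023_s1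

theorem t13_B05pp_023_s1 : ∃ t, chk3 f_B05pp_023_s1 t 1 3 1 = true := ex3_b k1_B05pp_023_s1 t12_B05pp_023_s1

theorem t14_B05pp_023_s1 : ∃ t, chk3 f_B05pp_023_s1 t 1 1 1 = true := ex3_b k0_B05pp_023_s1 t13_B05pp_023_s1

theorem c_B05pp_023_s1 : CertF 0 536870912 0 1230186008 201326592 134217728 false true true .up 0 2 3
    ndF0q0 ndF5q3 pcF2 cut_B05pp_023_s1 xt_B05pp_023_s1 :=
  certFK2 (fam := false) (s1 := true) (s2 := true) (a := 0) (b := 2) (c := 3) (cn := .up) (n1 := ndF0q0) (n2 := ndF5q3) (pc := pcF2) (cut := cut_B05pp_023_s1) (xt := xt_B05pp_023_s1) (P1 := 0) (W1 := 536870912) (P2 := 0) (W2 := 1230186008) (P3 := 201326592) (W3 := 134217728)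
    rfl rfl rfl (fun _ => rfl) t14_B05pp_023_s1

theorem s_B05pp_023_s1 {κ x : ℝ} (hκ : κ * h0 = ken x) (hx : ((201326592 : ℕ) : ℝ) / S ≤ x)
    (hx' : x ≤ (((201326592 : ℕ) : ℝ) + (134217728 : ℕ)) / S) :
    AltB (VF κ) PP tKF tL pcF [⟨3, 0, 0, 1449551462⟩] 0 2 3 0 5 (sgb true) (sgb true) x :=
  strip_altB (m := 1449551462) true rfl hκ covF00 covF53 hx hx' c_B05pp_023_s1 cutB_nil ((okx hx hx').extB (T := tt) (sideF hx hx') hκ rfl rfl (.O 0 true) (.N 3 true) rfl)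

noncomputable def cut_B05pp_033_s1 : Cut := Cut.of [[⟨4, 0, 0, 1449551462⟩]]

noncomputable def f_B05pp_033_s1 : ℕ → ℕ → ℕ → ℕ → Bool := onCell 1610612736 536870912 0 1230186008 201326592 134217728
    (rowFK 2 false true true .pnn 0 3 3 (qsf 0 536870912 0 1230186008 3) ndF0q0 ndF5q3 pcF3 cut_B05pp_033_s1 Ext.none)

def k0_B05pp_033_s1 : ∃ t, chk3 f_B05pp_033_s1 t 1 1 1 = true :=
  ⟨(b (l 6) (l 6)), by decide +kernel⟩

theorem c_B05pp_033_s1 : CertF 0 536870912 0 1230186008 201326592 134217728 false true true .pnn 0 3 3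
    ndF0q0 ndF5q3 pcF3 cut_B05pp_033_s1 Ext.none :=
  certFK2 (fam := false) (s1 := true) (s2 := true) (a := 0) (b := 3) (c := 3) (cn := .pnn) (n1 := ndF0q0) (n2 := ndF5q3) (pc := pcF3) (cut := cut_B05pp_033_s1) (xt := Ext.none) (P1 := 0) (W1 := 536870912) (P2 := 0) (W2 := 1230186008) (P3 := 201326592) (W3 := 134217728)
    rfl rfl rfl (fun _ => rfl) k0_B05pp_033_s1

theorem s_B05pp_033_s1 {κ x : ℝ} (hκ : κ * h0 = ken x) (hx : ((201326592 : ℕ) : ℝ) / S ≤ x)
    (hx' : x ≤ (((201326592 : ℕ) : ℝ) + (134217728 : ℕ)) / S) :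
    AltB (VF κ) PP tKF tL pcF [⟨3, 0, 0, 1449551462⟩] 0 3 3 0 5 (sgb true) (sgb true) x :=
  strip_altB (m := 1449551462) true rfl hκ covF00 covF53 hx hx' c_B05pp_033_s1 cutB_nil (noExt_B)

noncomputable def cut_B05pp_101_s1 : Cut := Cut.of [[⟨4, 0, 0, 1449551462⟩]]

noncomputable def f_B05pp_101_s1 : ℕ → ℕ → ℕ → ℕ → Bool := onCell 536870912 536870912 536870912 536870912 201326592 134217728
    (rowFK 0 false true true .npn 1 0 1 (qsf 536870912 536870912 536870912 536870912 0) ndF0q1 ndF5q1 pcF0 cut_B05pp_101_s1 Ext.none)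

def k0_B05pp_101_s1 : ∃ t, chk3 f_B05pp_101_s1 t 1 1 1 = true :=
  ⟨(a (l 3) (l 5)), by decide +kernel⟩

theorem c_B05pp_101_s1 : CertF 536870912 536870912 536870912 536870912 201326592 134217728 false true true .npn 1 0 1
    ndF0q1 ndF5q1 pcF0 cut_B05pp_101_s1 Ext.none :=
  certFK0 (fam := false) (s1 := true) (s2 := true) (a := 1) (b := 0) (c := 1) (cn := .npn) (n1 := ndF0q1) (n2 := ndF5q1) (pc := pcF0) (cut := cut_B05pp_101_s1) (xt := Ext.none) (P1 := 536870912) (W1 := 536870912) (P2 := 536870912) (W2 := 536870912) (P3 := 201326592) (W3 := 134217728)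
    rfl rfl rfl k0_B05pp_101_s1

theorem s_B05pp_101_s1 {κ x : ℝ} (hκ : κ * h0 = ken x) (hx : ((201326592 : ℕ) : ℝ) / S ≤ x)
    (hx' : x ≤ (((201326592 : ℕ) : ℝ) + (134217728 : ℕ)) / S) :
    AltB (VF κ) PP tKF tL pcF [⟨3, 0, 0, 1449551462⟩] 1 0 1 0 5 (sgb true) (sgb true) x :=
  strip_altB (m := 1449551462) true rfl hκ covF01 covF51 hx hx' c_B05pp_101_s1 cutB_nil (noExt_B)

noncomputable def cut_B05pp_102_s1 : Cut := Cut.of [[⟨4, 0, 0, 1449551462⟩]]

noncomputable def f_B05pp_102_s1 : ℕ → ℕ → ℕ → ℕ → Bool := onCell 536870912 536870912 1073741824 536870912 201326592 134217728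
    (rowFK 0 false true true .npp 1 0 2 (qsf 536870912 536870912 1073741824 536870912 0) ndF0q1 ndF5q2 pcF0 cut_B05pp_102_s1 Ext.none)

def k0_B05pp_102_s1 : ∃ t, chk3 f_B05pp_102_s1 t 1 1 1 = true :=
  ⟨(a (l 3) (b (l 5) (l 3))), by decide +kernel⟩

theorem c_B05pp_102_s1 : CertF 536870912 536870912 1073741824 536870912 201326592 134217728 false true true .npp 1 0 2
    ndF0q1 ndF5q2 pcF0 cut_B05pp_102_s1 Ext.none :=
  certFK0 (fam := false) (s1 := true) (s2 := true) (a := 1) (b := 0) (c := 2) (cn := .npp) (n1 := ndF0q1) (n2 := ndF5q2) (pc := pcF0) (cut := cut_B05pp_102_s1) (xt := Ext.none) (P1 := 536870912) (W1 := 536870912) (P2 := 1073741824) (W2 := 536870912) (P3 := 201326592) (W3 := 134217728)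
    rfl rfl rfl k0_B05pp_102_s1

theorem s_B05pp_102_s1 {κ x : ℝ} (hκ : κ * h0 = ken x) (hx : ((201326592 : ℕ) : ℝ) / S ≤ x)
    (hx' : x ≤ (((201326592 : ℕ) : ℝ) + (134217728 : ℕ)) / S) :
    AltB (VF κ) PP tKF tL pcF [⟨3, 0, 0, 1449551462⟩] 1 0 2 0 5 (sgb true) (sgb true) x :=
  strip_altB (m := 1449551462) true rfl hκ covF01 covF52 hx hx' c_B05pp_102_s1 cutB_nil (noExt_B)

noncomputable def cut_B05pp_112_s1 : Cut := Cut.of [[⟨4, 0, 0, 1449551462⟩]]

noncomputable def f_B05pp_112_s1 : ℕ → ℕ → ℕ → ℕ → Bool := onCell 536870912 536870912 1073741824 536870912 201326592 134217728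
    (rowFK 0 false true true .dn 1 1 2 (qsf 536870912 536870912 1073741824 536870912 1) ndF0q1 ndF5q2 pcF1 cut_B05pp_112_s1 Ext.none)

def k0_B05pp_112_s1 : ∃ t, chk3 f_B05pp_112_s1 t 1 1 1 = true :=
  ⟨(a (l 3) (b (l 5) (l 3))), by decide +kernel⟩

theorem c_B05pp_112_s1 : CertF 536870912 536870912 1073741824 536870912 201326592 134217728 false true true .dn 1 1 2
    ndF0q1 ndF5q2 pcF1 cut_B05pp_112_s1 Ext.none :=
  certFK0 (fam := false) (s1 := true) (s2 := true) (a := 1) (b := 1) (c := 2) (cn := .dn) (n1 := ndF0q1) (n2 := ndF5q2) (pc := pcF1) (cut := cut_B05pp_112_s1) (xt := Ext.none) (P1 := 536870912) (W1 := 536870912) (P2 := 1073741824) (W2 := 536870912) (P3 := 201326592) (W3 := 134217728)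
    rfl rfl rfl k0_B05pp_112_s1

theorem s_B05pp_112_s1 {κ x : ℝ} (hκ : κ * h0 = ken x) (hx : ((201326592 : ℕ) : ℝ) / S ≤ x)
    (hx' : x ≤ (((201326592 : ℕ) : ℝ) + (134217728 : ℕ)) / S) :
    AltB (VF κ) PP tKF tL pcF [⟨3, 0, 0, 1449551462⟩] 1 1 2 0 5 (sgb true) (sgb true) x :=
  strip_altB (m := 1449551462) true rfl hκ covF01 covF52 hx hx' c_B05pp_112_s1 cutB_nil (noExt_B)

noncomputable def cut_B05pp_113_s1 : Cut := Cut.of [[⟨4, 0, 0, 1449551462⟩], [⟨0, 1, 0, 57167902⟩, ⟨1, 1, 0, 57167902⟩, ⟨2, 2, 0, 11758673⟩]]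

noncomputable def f_B05pp_113_s1 : ℕ → ℕ → ℕ → ℕ → Bool := onCell 536870912 536870912 0 1230186008 201326592 134217728
    (rowFK 2 false true true .nn 1 1 3 (qsf 536870912 536870912 0 1230186008 1) ndF0q1 ndF5q3 pcF1 cut_B05pp_113_s1 Ext.none)

def k0_B05pp_113_s1 : ∃ t, chk3 f_B05pp_113_s1 t 1 1 1 = true :=
  ⟨(b (a (l 2) (a (l 2) (b (a (l 2) (b (a (l 2) (l 14)) (l 3))) (l 3)))) (a (a (b (l 2) (b (l 2) (l 3))) (b (b (l 2) (a (l 2) (l 3))) (l 3))) (b (a (l 3) (l 3)) (l 3)))), by decide +kernel⟩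

theorem c_B05pp_113_s1 : CertF 536870912 536870912 0 1230186008 201326592 134217728 false true true .nn 1 1 3
    ndF0q1 ndF5q3 pcF1 cut_B05pp_113_s1 Ext.none :=
  certFK2 (fam := false) (s1 := true) (s2 := true) (a := 1) (b := 1) (c := 3) (cn := .nn) (n1 := ndF0q1) (n2 := ndF5q3) (pc := pcF1) (cut := cut_B05pp_113_s1) (xt := Ext.none) (P1 := 536870912) (W1 := 536870912) (P2 := 0) (W2 := 1230186008) (P3 := 201326592) (W3 := 134217728)
    rfl rfl rfl (fun _ => rfl) k0_B05pp_113_s1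

theorem s_B05pp_113_s1 {κ x : ℝ} (hκ : κ * h0 = ken x) (hx : ((201326592 : ℕ) : ℝ) / S ≤ x)
    (hx' : x ≤ (((201326592 : ℕ) : ℝ) + (134217728 : ℕ)) / S)
    (H : CutB (VF κ) PP tKF tL pcF (Cut.of [[⟨0, 1, 0, 57167902⟩, ⟨1, 1, 0, 57167902⟩, ⟨2, 2, 0, 11758673⟩]]) 1 1 3 0 5 (sgb true) (sgb true) x) :
    AltB (VF κ) PP tKF tL pcF [⟨3, 0, 0, 1449551462⟩] 1 1 3 0 5 (sgb true) (sgb true) x :=
  strip_altB (m := 1449551462) true rfl hκ covF01 covF53 hx hx' c_B05pp_113_s1 H (noExt_B)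

noncomputable def cut_B05pp_123_s1 : Cut := Cut.of [[⟨4, 0, 0, 1449551462⟩], [⟨0, 1, 0, 57167902⟩, ⟨1, 1, 0, 57167902⟩, ⟨2, 2, 0, 11758673⟩]]

noncomputable def xt_B05pp_123_s1 : Ext := strExt dd false true true .u0 .s2 .u2 .npn 1 2 3 rfl rfl gf2 vv ndF0q1 ndF5q3

noncomputable def f_B05pp_123_s1 : ℕ → ℕ → ℕ → ℕ → Bool := onCell 1073741824 536870912 0 1230186008 201326592 134217728
    (rowFK 2 false true true .npn 1 2 3 (qsf 536870912 536870912 0 1230186008 2) ndF0q1 ndF5q3 pcF2 cut_B05pp_123_s1 xt_B05pp_123_s1)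

def k0_B05pp_123_s1 : ∃ t, chk3 f_B05pp_123_s1 t 1 4 1 = true :=
  ⟨(a (b (a (a (a (l 14) (b (a (l 14) (l 16809168)) (a (b (l 14) (b (l 14) (l 538875679))) (b (l 16797696) (a (b (l 16787240) (a (l 16782888) (l 16785912))) (l 16796680)))))) (a (b (l 16832000) (a (l 16808952) (l 16824152))) (a (l 16847064) (l 16865504)))) (a (a (a (l 16884416) (l 17069040)) (l 16917408)) (l 6))) (a (b (a (a (l 3) (a (a (l 3) (l 538782351)) (b (a (l 538686351) (b (l 16786600) (l 538812047))) (l 538719263)))) (a (a (b (a (l 16873912) (l 16800728)) (a (l 539070351) (b (l 16794624) (l 16790328)))) (b (l 16805560) (l 16886888))) (a (l 16819952) (l 16837768)))) (a (l 3) (a (a (l 539218831) (b (a (l 16792408) (l 16801528)) (l 539721615))) (a (b (l 16814736) (a (l 16802392) (l 16813328))) (l 16831432))))) (a (a (a (l 16929560) (l 17195744)) (l 16875928)) (l 16918024)))) (a (l 6) (l 6))), by decide +kernel⟩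

def k1_B05pp_123_s1 : ∃ t, chk3 f_B05pp_123_s1 t 1 5 1 = true :=
  ⟨(a (b (a (a (l 3) (a (b (a (l 3) (l 541443983)) (l 3)) (b (a (l 541569679) (b (l 16819808) (l 16894504))) (a (l 540444559) (l 540835871))))) (a (a (a (b (l 16833232) (a (l 16812192) (l 16822392))) (a (b (l 16843824) (l 16831880)) (l 16929776))) (l 16947464)) (l 17246208))) (a (a (l 3) (a (l 3) (a (l 3) (a (b (l 541007503) (l 3)) (b (l 541226383) (l 542764943)))))) (a (a (a (b (a (l 541302671) (b (l 16809704) (l 16843024))) (a (b (l 541505423) (l 541634447)) (b (a (l 541605519) (l 16795720)) (a (l 541720607) (l 541693215))))) (a (b (l 16900352) (b (l 16846464) (a (l 16814848) (l 16800224)))) (a (b (l 16824872) (l 16851608)) (b (a (l 16828504) (l 16830544)) (a (l 16814472) (l 16817624)))))) (a (b (l 16841688) (l 16790848)) (l 17029672))) (a (l 17065160) (l 16941296))))) (a (a (b (l 16977752) (l 17002960)) (l 6)) (l 6))), by decide +kernel⟩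

def k2_B05pp_123_s1 : ∃ t, chk3 f_B05pp_123_s1 t 4 6 1 = true :=
  ⟨(l 3), by decide +kernel⟩

def k3_B05pp_123_s1 : ∃ t, chk3 f_B05pp_123_s1 t 40 6 1 = true :=
  ⟨(a (l 3) (b (b (b (a (l 541847839) (l 541749391)) (a (l 3) (l 541803919))) (l 3)) (l 3))), by decide +kernel⟩

def k4_B05pp_123_s1 : ∃ t, chk3 f_B05pp_123_s1 t 41 12 1 = true :=
  ⟨(b (a (b (a (l 541725727) (c (l 16793240) (l 16791888))) (a (l 541738527) (a (l 541765407) (l 542081055)))) (b (a (l 16841496) (a (l 16804240) (l 16807744))) (a (a (l 16791640) (l 16794792)) (a (l 16840048) (l 16801680))))) (a (b (a (b (l 541728031) (l 3)) (a (l 542101535) (l 542280591))) (a (l 3) (c (l 543946639) (l 543324959)))) (b (c (a (a (l 542817423) (l 16810536)) (a (a (l 16792320) (l 16794328)) (l 16797424))) (a (a (l 541907855) (c (l 16809128) (l 16808080))) (a (a (l 16790048) (l 16791704)) (l 16794208)))) (a (a (c (l 544083599) (l 543594639)) (b (l 542688031) (l 544101007)))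 (a (a (b (l 16787208) (l 16795320)) (a (l 542649231) (l 16809416))) (l 16801336)))))), by decide +kernel⟩

def k5_B05pp_123_s1 : ∃ t, chk3 f_B05pp_123_s1 t 82 13 1 = true :=
  ⟨(l 3), by decide +kernel⟩

def k6_B05pp_123_s1 : ∃ t, chk3 f_B05pp_123_s1 t 166 13 1 = true :=
  ⟨(b (b (a (a (l 543557007) (l 542484367)) (b (l 542568591) (l 542689679))) (a (l 3) (b (l 544480143) (l 3)))) (l 3)), by decide +kernel⟩

def k7_B05pp_123_s1 : ∃ t, chk3 f_B05pp_123_s1 t 334 13 1 = true :=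
  ⟨(a (b (b (a (b (l 542771087) (l 542976655)) (l 542919567)) (a (b (l 543242127) (l 543554191)) (b (l 543369615) (l 543445903)))) (l 543773263)) (a (b (b (b (l 16784128) (l 16782160)) (l 543373455)) (l 543784271)) (a (a (b (b (l 543057295) (l 543377551)) (l 543791183)) (a (b (b (l 543065999) (l 543378319)) (b (l 543668303) (l 3))) (a (b (b (l 543070095) (l 543378575)) (b (l 543668815) (l 3))) (b (b (l 543072655) (l 543378319)) (b (l 543668815) (l 3)))))) (b (b (b (l 16785352) (l 16783376)) (b (l 543366799) (l 543476111))) (b (l 543668815) (l 543940175)))))), by decide +kernel⟩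

def k8_B05pp_123_s1 : ∃ t, chk3 f_B05pp_123_s1 t 335 13 1 = true :=
  ⟨(a (a (b (b (b (l 16786080) (l 16784104)) (b (c (l 16782840) (l 16781680)) (b (l 16781024) (l 16780288)))) (b (l 543668271) (l 543939631))) (a (a (b (b (b (l 16786688) (l 16784704)) (b (l 16782872) (l 544279455))) (b (b (l 543601711) (l 543733295)) (b (l 543868975) (l 544009007)))) (a (b (b (b (l 16786864) (l 16784888)) (b (l 16783056) (b (l 16781808) (l 16781080)))) (b (b (b (l 16780408) (l 16779816)) (b (l 16779288) (l 16781456))) (b (b (l 543834415) (l 543903279)) (b (l 543973423) (l 544044335))))) (a (b (b (b (l 16786960) (l 16784976)) (b (l 16783144) (b (l 16781896) (l 16781168)))) (b (b (b (l 16780504) (l 16779904)) (b (l 16779376) (l 16778928))) (b (b (l 16778544) (c (l 16778376) (l 16778112))) (b (b (l 16778064) (l 16777976)) (b (l 16777904) (l 16777848)))))) (b (b (b (l 16787016) (l 16785040)) (b (l 16783208) (l 16786832))) (b (b (b (l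 16780560) (l 16779968)) (b (l 16779440) (l 16778992))) (b (b (l 16781232) (c (l 16778440) (l 16778168))) (b (b (l 16778128) (l 16778040)) (b (l 16777968) (l 16777912))))))))) (b (b (b (l 16787288) (l 16785312)) (b (l 16783472) (b (l 16782224) (l 16781496)))) (b (b (b (l 16780840) (l 16780240)) (b (l 16779720) (l 16779264))) (b (b (l 543834207) (l 543903071)) (b (l 543972959) (l 544043871))))))) (b (b (b (l 16788504) (l 16786512)) (b (l 16784672) (b (l 16783432) (l 16782712)))) (b (l 543665247) (l 543936863)))), by decide +kernel⟩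

def k9_B05pp_123_s1 : ∃ t, chk3 f_B05pp_123_s1 t 21 6 1 = true :=
  ⟨(b (a (b (a (l 16866120) (l 16828568)) (b (a (l 16805416) (l 16820784)) (b (l 16809320) (l 16786056)))) (b (l 16851288) (l 16924624))) (a (b (a (a (b (b (l 16793336) (l 16791320)) (b (l 16789456) (l 16777400))) (b (l 16799944) (b (l 16797128) (l 16795616)))) (b (l 16811408) (l 16807872))) (a (a (a (l 543796831) (a (l 543792991) (b (l 16810104) (l 16808832)))) (b (a (l 16792080) (l 16796016)) (l 16813856))) (b (l 16805824) (l 16804984)))) (b (b (l 16834048) (l 16830904)) (a (l 16821456) (l 16837480))))), by decide +kernel⟩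

def k10_B05pp_123_s1 : ∃ t, chk3 f_B05pp_123_s1 t 11 6 1 = true :=
  ⟨(b (a (b (l 16894528) (l 16884960)) (l 17198144)) (a (b (l 16877776) (a (l 16861456) (l 16893584))) (b (l 16938392) (l 16941312)))), by decide +kernel⟩

def k11_B05pp_123_s1 : ∃ t, chk3 f_B05pp_123_s1 t 3 6 1 = true :=
  ⟨(a (b (a (b (l 17022768) (l 17024952)) (l 17374528)) (a (a (l 17380488) (b (l 17058672) (l 17074568))) (b (l 17151792) (l 1)))) (l 6)), by decide +kernel⟩

def k12_B05pp_123_s1 : ∃ t, chk3 f_B05pp_123_s1 t 4 7 1 = true :=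
  ⟨(b (l 3) (l 3)), by decide +kernel⟩

def k13_B05pp_123_s1 : ∃ t, chk3 f_B05pp_123_s1 t 40 7 1 = true :=
  ⟨(b (l 3) (b (l 3) (l 1))), by decide +kernel⟩

def k14_B05pp_123_s1 : ∃ t, chk3 f_B05pp_123_s1 t 82 14 1 = true :=
  ⟨(l 3), by decide +kernel⟩

def k15_B05pp_123_s1 : ∃ t, chk3 f_B05pp_123_s1 t 166 14 1 = true :=
  ⟨(b (l 3) (b (b (l 3) (a (l 3) (a (l 3) (l 545145983)))) (b (a (l 3) (l 546061439)) (l 1)))), by decide +kernel⟩

def k16_B05pp_123_s1 : ∃ t, chk3 f_B05pp_123_s1 t 167 28 1 = true :=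
  ⟨(a (b (l 3) (l 544557631)) (a (a (b (l 544228143) (l 544533551)) (a (a (b (b (l 544153135) (l 544301871)) (b (l 544454447) (l 544611375))) (a (b (b (b (l 544116527) (l 544189743)) (b (l 544263983) (l 544339247))) (b (b (l 544415535) (l 544493103)) (b (l 16781872) (l 16779848)))) (a (b (c (b (b (l 16777896) (l 16777928)) (b (l 16778056) (l 16778288))) (b (b (b (l 16777736) (l 16777728)) (b (l 16777744) (l 16777768))) (b (b (l 16777816) (l 16777888)) (b (l 16777976) (l 16778080))))) (b (b (c (l 16778632) (l 16778288)) (c (l 16779080) (l 16778624))) (b (l 16779352) (l 16779952)))) (b (c (b (b (l 16777968) (l 16778000)) (b (l 16778128) (l 16778360))) (b (b (l 16777792) (a (l 16777800) (l 16777824))) (b (l 16777912) (b (l 16778032) (l 16778136))))) (b (b (c (l 16778704) (l 16778344)) (l 16781544)) (b (l 16779416) (l 16780016))))))) (b (c (b (b (l 16778288) (l 16778328)) (b (l 16778456) (l 16781320))) (b (b (l 16778040)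 (l 543198815)) (b (l 543249503) (l 543300447)))) (b (b (l 544415071) (l 544492383)) (b (l 16779720) (l 16780320)))))) (b (l 544225631) (l 544531295)))), by decide +kernel⟩

def k17_B05pp_123_s1 : ∃ t, chk3 f_B05pp_123_s1 t 167 29 1 = true :=
  ⟨(a (a (b (b (l 544794943) (b (l 544915775) (l 545614975))) (b (a (l 545637247) (l 545451903)) (l 1))) (a (b (b (l 544781887) (l 544998015)) (b (l 545437567) (l 1))) (a (a (b (b (l 544775999) (l 544962687)) (b (l 545412223) (l 1))) (a (b (b (l 544774207) (l 544959871)) (b (l 545405567) (l 1))) (a (b (b (l 544773439) (l 544958847)) (b (l 545402751) (l 1))) (b (b (l 544773183) (l 544958591)) (b (l 545400959) (l 1)))))) (b (b (l 544772911) (l 544960639)) (b (l 545394047) (l 1)))))) (a (a (b (b (l 544772399) (b (l 16781408) (l 16782480))) (b (l 546998687) (l 1))) (a (a (b (b (l 544772143) (b (l 16782088) (l 16783176))) (b (l 545372831) (l 1))) (a (b (b (b (l 16780552) (l 16781368))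 (b (l 16782296) (l 16783384))) (b (b (l 16784680) (l 1)) (l 1))) (a (b (b (b (l 16780656) (l 16781472)) (b (l 16782400) (l 16783488))) (b (b (l 16784784) (l 1)) (l 1))) (b (b (b (l 16780720) (l 16781544)) (b (l 16782472) (l 16783560))) (b (l 16788224) (l 1)))))) (b (b (b (l 16781024) (l 16781848)) (b (l 16782776) (l 16783872))) (b (b (l 16785176) (l 1)) (l 1))))) (b (b (l 544770399) (b (l 16784152) (l 16785264))) (b (b (l 16786592) (l 1)) (l 1))))), by decide +kernel⟩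

def k18_B05pp_123_s1 : ∃ t, chk3 f_B05pp_123_s1 t 41 15 1 = true :=
  ⟨(l 1), by decide +kernel⟩

def k19_B05pp_123_s1 : ∃ t, chk3 f_B05pp_123_s1 t 21 7 1 = true :=
  ⟨(b (a (b (a (a (a (l 544375903) (a (l 544373087) (b (l 16787888) (a (l 544524639) (l 16810888))))) (b (a (l 16811960) (l 16795136)) (b (l 16794072) (l 16795296)))) (b (l 16805496) (l 16786544))) (b (b (a (b (l 16781640) (l 16782536)) (l 16810088)) (a (a (b (l 16789664) (l 16790864)) (l 16799200)) (l 16812752))) (a (b (b (l 16796864) (l 1)) (l 1)) (l 1)))) (c (b (l 545326447) (b (l 16847928) (l 1))) (a (b (l 543309167) (b (l 16821688) (l 1))) (c (b (l 16835976) (l 16972488)) (b (l 16911152) (b (l 16831768) (l 1))))))) (l 1)), by decide +kernel⟩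

def k20_B05pp_123_s1 : ∃ t, chk3 f_B05pp_123_s1 t 11 7 1 = true :=
  ⟨(b (a (c (b (l 17086344) (l 1)) (a (a (c (b (l 16851992) (l 1)) (b (l 16840960) (l 1))) (b (l 16861456) (l 1))) (b (l 16884352) (l 1)))) (b (l 17206072) (l 1))) (l 1)), by decide +kernel⟩

def k21_B05pp_123_s1 : ∃ t, chk3 f_B05pp_123_s1 t 3 7 1 = true :=
  ⟨(l 1), by decide +kernel⟩

theorem t22_B05pp_123_s1 : ∃ t, chk3 f_B05pp_123_s1 t 167 14 1 = true := ex3_b k16_B05pp_123_s1 k17_B05pp_123_s1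

theorem t23_B05pp_123_s1 : ∃ t, chk3 f_B05pp_123_s1 t 83 14 1 = true := ex3_a k15_B05pp_123_s1 t22_B05pp_123_s1

theorem t24_B05pp_123_s1 : ∃ t, chk3 f_B05pp_123_s1 t 41 14 1 = true := ex3_a k14_B05pp_123_s1 t23_B05pp_123_s1

theorem t25_B05pp_123_s1 : ∃ t, chk3 f_B05pp_123_s1 t 41 7 1 = true := ex3_b t24_B05pp_123_s1 k18_B05pp_123_s1

theorem t26_B05pp_123_s1 : ∃ t, chk3 f_B05pp_123_s1 t 20 7 1 = true := ex3_a k13_B05pp_123_s1 t25_B05pp_123_s1

theorem t27_B05pp_123_s1 : ∃ t, chk3 f_B05pp_123_s1 t 10 7 1 = true := ex3_a t26_B05pp_123_s1 k19_B05pp_123_s1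

theorem t28_B05pp_123_s1 : ∃ t, chk3 f_B05pp_123_s1 t 5 7 1 = true := ex3_a t27_B05pp_123_s1 k20_B05pp_123_s1

theorem t29_B05pp_123_s1 : ∃ t, chk3 f_B05pp_123_s1 t 2 7 1 = true := ex3_a k12_B05pp_123_s1 t28_B05pp_123_s1

theorem t30_B05pp_123_s1 : ∃ t, chk3 f_B05pp_123_s1 t 1 7 1 = true := ex3_a t29_B05pp_123_s1 k21_B05pp_123_s1

theorem t31_B05pp_123_s1 : ∃ t, chk3 f_B05pp_123_s1 t 167 13 1 = true := ex3_a k7_B05pp_123_s1 k8_B05pp_123_s1

theorem t32_B05pp_123_s1 : ∃ t, chk3 f_B05pp_123_s1 t 83 13 1 = true := ex3_a k6_B05pp_123_s1 t31_B05pp_123_s1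

theorem t33_B05pp_123_s1 : ∃ t, chk3 f_B05pp_123_s1 t 41 13 1 = true := ex3_a k5_B05pp_123_s1 t32_B05pp_123_s1

theorem t34_B05pp_123_s1 : ∃ t, chk3 f_B05pp_123_s1 t 41 6 1 = true := ex3_b k4_B05pp_123_s1 t33_B05pp_123_s1

theorem t35_B05pp_123_s1 : ∃ t, chk3 f_B05pp_123_s1 t 20 6 1 = true := ex3_a k3_B05pp_123_s1 t34_B05pp_123_s1

theorem t36_B05pp_123_s1 : ∃ t, chk3 f_B05pp_123_s1 t 10 6 1 = true := ex3_a t35_B05pp_123_s1 k9_B05pp_123_s1

theorem t37_B05pp_123_s1 : ∃ t, chk3 f_B05pp_123_s1 t 5 6 1 = true := ex3_a t36_B05pp_123_s1 k10_B05pp_123_s1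

theorem t38_B05pp_123_s1 : ∃ t, chk3 f_B05pp_123_s1 t 2 6 1 = true := ex3_a k2_B05pp_123_s1 t37_B05pp_123_s1

theorem t39_B05pp_123_s1 : ∃ t, chk3 f_B05pp_123_s1 t 1 6 1 = true := ex3_a t38_B05pp_123_s1 k11_B05pp_123_s1

theorem t40_B05pp_123_s1 : ∃ t, chk3 f_B05pp_123_s1 t 1 3 1 = true := ex3_b t39_B05pp_123_s1 t30_B05pp_123_s1

theorem t41_B05pp_123_s1 : ∃ t, chk3 f_B05pp_123_s1 t 1 2 1 = true := ex3_b k0_B05pp_123_s1 k1_B05pp_123_s1

theorem t42_B05pp_123_s1 : ∃ t, chk3 f_B05pp_123_s1 t 1 1 1 = true := ex3_b t41_B05pp_123_s1 t40_B05pp_123_s1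

theorem c_B05pp_123_s1 : CertF 536870912 536870912 0 1230186008 201326592 134217728 false true true .npn 1 2 3
    ndF0q1 ndF5q3 pcF2 cut_B05pp_123_s1 xt_B05pp_123_s1 :=
  certFK2 (fam := false) (s1 := true) (s2 := true) (a := 1) (b := 2) (c := 3) (cn := .npn) (n1 := ndF0q1) (n2 := ndF5q3) (pc := pcF2) (cut := cut_B05pp_123_s1) (xt := xt_B05pp_123_s1) (P1 := 536870912) (W1 := 536870912) (P2 := 0) (W2 := 1230186008) (P3 := 201326592) (W3 := 134217728)
    rfl rfl rfl (fun _ => rfl) t42_B05pp_123_s1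

theorem s_B05pp_123_s1 {κ x : ℝ} (hκ : κ * h0 = ken x) (hx : ((201326592 : ℕ) : ℝ) / S ≤ x)
    (hx' : x ≤ (((201326592 : ℕ) : ℝ) + (134217728 : ℕ)) / S)
    (H : CutB (VF κ) PP tKF tL pcF (Cut.of [[⟨0, 1, 0, 57167902⟩, ⟨1, 1, 0, 57167902⟩, ⟨2, 2, 0, 11758673⟩]]) 1 2 3 0 5 (sgb true) (sgb true) x) :
    AltB (VF κ) PP tKF tL pcF [⟨3, 0, 0, 1449551462⟩] 1 2 3 0 5 (sgb true) (sgb true) x :=
  strip_altB (m := 1449551462) true rfl hκ covF01 covF53 hx hx' c_B05pp_123_s1 H ((okx hx hx').extB (T := tt) (sideF hx hx') hκ rfl rfl (.O 1 true) (.N 3 true) rfl)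

noncomputable def cut_B05pp_133_s1 : Cut := Cut.of [[⟨4, 0, 0, 1449551462⟩]]

noncomputable def f_B05pp_133_s1 : ℕ → ℕ → ℕ → ℕ → Bool := onCell 1610612736 536870912 0 1230186008 201326592 134217728
    (rowFK 2 false true true .dn 1 3 3 (qsf 536870912 536870912 0 1230186008 3) ndF0q1 ndF5q3 pcF3 cut_B05pp_133_s1 Ext.none)

def k0_B05pp_133_s1 : ∃ t, chk3 f_B05pp_133_s1 t 1 1 1 = true :=
  ⟨(b (l 6) (l 1)), by decide +kernel⟩

theorem c_B05pp_133_s1 : CertF 536870912 536870912 0 1230186008 201326592 134217728 false true true .dn 1 3 3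
    ndF0q1 ndF5q3 pcF3 cut_B05pp_133_s1 Ext.none :=
  certFK2 (fam := false) (s1 := true) (s2 := true) (a := 1) (b := 3) (c := 3) (cn := .dn) (n1 := ndF0q1) (n2 := ndF5q3) (pc := pcF3) (cut := cut_B05pp_133_s1) (xt := Ext.none) (P1 := 536870912) (W1 := 536870912) (P2 := 0) (W2 := 1230186008) (P3 := 201326592) (W3 := 134217728)
    rfl rfl rfl (fun _ => rfl) k0_B05pp_133_s1

theorem s_B05pp_133_s1 {κ x : ℝ} (hκ : κ * h0 = ken x) (hx : ((201326592 : ℕ) : ℝ) / S ≤ x)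
    (hx' : x ≤ (((201326592 : ℕ) : ℝ) + (134217728 : ℕ)) / S) :
    AltB (VF κ) PP tKF tL pcF [⟨3, 0, 0, 1449551462⟩] 1 3 3 0 5 (sgb true) (sgb true) x :=
  strip_altB (m := 1449551462) true rfl hκ covF01 covF53 hx hx' c_B05pp_133_s1 cutB_nil (noExt_B)

noncomputable def cut_B05pp_202_s1 : Cut := Cut.of [[⟨4, 0, 0, 1449551462⟩]]

noncomputable def f_B05pp_202_s1 : ℕ → ℕ → ℕ → ℕ → Bool := onCell 0 536870912 1073741824 536870912 201326592 134217728
    (rowFK 0 false true true .pp 2 0 2 (qsf 0 536870912 1073741824 536870912 0) ndF0q2 ndF5q2 pcF0 cut_B05pp_202_s1 Ext.none)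

def k0_B05pp_202_s1 : ∃ t, chk3 f_B05pp_202_s1 t 1 1 1 = true :=
  ⟨(l 5), by decide +kernel⟩

theorem c_B05pp_202_s1 : CertF 0 536870912 1073741824 536870912 201326592 134217728 false true true .pp 2 0 2
    ndF0q2 ndF5q2 pcF0 cut_B05pp_202_s1 Ext.none :=
  certFK0 (fam := false) (s1 := true) (s2 := true) (a := 2) (b := 0) (c := 2) (cn := .pp) (n1 := ndF0q2) (n2 := ndF5q2) (pc := pcF0) (cut := cut_B05pp_202_s1) (xt := Ext.none) (P1 := 0) (W1 := 536870912) (P2 := 1073741824) (W2 := 536870912) (P3 := 201326592) (W3 := 134217728)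
    rfl rfl rfl k0_B05pp_202_s1

theorem s_B05pp_202_s1 {κ x : ℝ} (hκ : κ * h0 = ken x) (hx : ((201326592 : ℕ) : ℝ) / S ≤ x)
    (hx' : x ≤ (((201326592 : ℕ) : ℝ) + (134217728 : ℕ)) / S) :
    AltB (VF κ) PP tKF tL pcF [⟨3, 0, 0, 1449551462⟩] 2 0 2 0 5 (sgb true) (sgb true) x :=
  strip_altB (m := 1449551462) true rfl hκ covF02 covF52 hx hx' c_B05pp_202_s1 cutB_nil (noExt_B)

noncomputable def cut_B05pp_203_s1 : Cut := Cut.of [[⟨4, 0, 0, 1449551462⟩]]

noncomputable def f_B05pp_203_s1 : ℕ → ℕ → ℕ → ℕ → Bool := onCell 0 536870912 0 1230186008 201326592 134217728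
    (rowFK 0 false true true .up 2 0 3 (qsf 0 536870912 0 1230186008 0) ndF0q2 ndF5q3 pcF0 cut_B05pp_203_s1 Ext.none)

def k0_B05pp_203_s1 : ∃ t, chk3 f_B05pp_203_s1 t 1 1 1 = true :=
  ⟨(b (l 2) (b (l 2) (a (l 5) (l 3)))), by decide +kernel⟩

theorem c_B05pp_203_s1 : CertF 0 536870912 0 1230186008 201326592 134217728 false true true .up 2 0 3
    ndF0q2 ndF5q3 pcF0 cut_B05pp_203_s1 Ext.none :=
  certFK0 (fam := false) (s1 := true) (s2 := true) (a := 2) (b := 0) (c := 3) (cn := .up) (n1 := ndF0q2) (n2 := ndF5q3) (pc := pcF0) (cut := cut_B05pp_203_s1) (xt := Ext.none) (P1 := 0) (W1 := 536870912) (P2 := 0) (W2 := 1230186008) (P3 := 201326592) (W3 := 134217728)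
    rfl rfl rfl k0_B05pp_203_s1

theorem s_B05pp_203_s1 {κ x : ℝ} (hκ : κ * h0 = ken x) (hx : ((201326592 : ℕ) : ℝ) / S ≤ x)
    (hx' : x ≤ (((201326592 : ℕ) : ℝ) + (134217728 : ℕ)) / S) :
    AltB (VF κ) PP tKF tL pcF [⟨3, 0, 0, 1449551462⟩] 2 0 3 0 5 (sgb true) (sgb true) x :=
  strip_altB (m := 1449551462) true rfl hκ covF02 covF53 hx hx' c_B05pp_203_s1 cutB_nil (noExt_B)

noncomputable def cut_B05pp_213_s1 : Cut := Cut.of [[⟨4, 0, 0, 1449551462⟩], [⟨0, 1, 0, 57167902⟩, ⟨1, 1, 0, 57167902⟩, ⟨2, 2, 0, 11758673⟩]]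

noncomputable def f_B05pp_213_s1 : ℕ → ℕ → ℕ → ℕ → Bool := onCell 0 536870912 0 1230186008 201326592 134217728
    (rowFK 0 false true true .pnn 2 1 3 (qsf 0 536870912 0 1230186008 1) ndF0q2 ndF5q3 pcF1 cut_B05pp_213_s1 Ext.none)

def k0_B05pp_213_s1 : ∃ t, chk3 f_B05pp_213_s1 t 1 1 1 = true :=
  ⟨(a (b (l 3) (l 5)) (b (b (a (l 3) (b (a (l 3) (l 14)) (l 3))) (l 3)) (b (l 3) (l 3)))), by decide +kernel⟩

theorem c_B05pp_213_s1 : CertF 0 536870912 0 1230186008 201326592 134217728 false true true .pnn 2 1 3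
    ndF0q2 ndF5q3 pcF1 cut_B05pp_213_s1 Ext.none :=
  certFK0 (fam := false) (s1 := true) (s2 := true) (a := 2) (b := 1) (c := 3) (cn := .pnn) (n1 := ndF0q2) (n2 := ndF5q3) (pc := pcF1) (cut := cut_B05pp_213_s1) (xt := Ext.none) (P1 := 0) (W1 := 536870912) (P2 := 0) (W2 := 1230186008) (P3 := 201326592) (W3 := 134217728)
    rfl rfl rfl k0_B05pp_213_s1

theorem s_B05pp_213_s1 {κ x : ℝ} (hκ : κ * h0 = ken x) (hx : ((201326592 : ℕ) : ℝ) / S ≤ x)
    (hx' : x ≤ (((201326592 : ℕ) : ℝ) + (134217728 : ℕ)) / S)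
    (H : CutB (VF κ) PP tKF tL pcF (Cut.of [[⟨0, 1, 0, 57167902⟩, ⟨1, 1, 0, 57167902⟩, ⟨2, 2, 0, 11758673⟩]]) 2 1 3 0 5 (sgb true) (sgb true) x) :
    AltB (VF κ) PP tKF tL pcF [⟨3, 0, 0, 1449551462⟩] 2 1 3 0 5 (sgb true) (sgb true) x :=
  strip_altB (m := 1449551462) true rfl hκ covF02 covF53 hx hx' c_B05pp_213_s1 H (noExt_B)

noncomputable def cut_B05pm_001_s1 : Cut := Cut.of [[⟨4, 0, 0, 1449551462⟩]]

noncomputable def f_B05pm_001_s1 : ℕ → ℕ → ℕ → ℕ → Bool := onCell 0 536870912 536870912 536870912 201326592 134217728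
    (rowFK 0 false true false .up 0 0 1 (qsf 0 536870912 536870912 536870912 0) ndF0q0 ndF5q1 pcF0 cut_B05pm_001_s1 Ext.none)

def k0_B05pm_001_s1 : ∃ t, chk3 f_B05pm_001_s1 t 1 1 1 = true :=
  ⟨(l 4), by decide +kernel⟩

theorem c_B05pm_001_s1 : CertF 0 536870912 536870912 536870912 201326592 134217728 false true false .up 0 0 1
    ndF0q0 ndF5q1 pcF0 cut_B05pm_001_s1 Ext.none :=
  certFK0 (fam := false) (s1 := true) (s2 := false) (a := 0) (b := 0) (c := 1) (cn := .up) (n1 := ndF0q0) (n2 := ndF5q1) (pc := pcF0) (cut := cut_B05pm_001_s1) (xt := Ext.none) (P1 := 0) (W1 := 536870912) (P2 := 536870912) (W2 := 536870912) (P3 := 201326592) (W3 := 134217728)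
    rfl rfl rfl k0_B05pm_001_s1

theorem s_B05pm_001_s1 {κ x : ℝ} (hκ : κ * h0 = ken x) (hx : ((201326592 : ℕ) : ℝ) / S ≤ x)
    (hx' : x ≤ (((201326592 : ℕ) : ℝ) + (134217728 : ℕ)) / S) :
    AltB (VF κ) PP tKF tL pcF [⟨3, 0, 0, 1449551462⟩] 0 0 1 0 5 (sgb true) (sgb false) x :=
  strip_altB (m := 1449551462) true rfl hκ covF00 covF51 hx hx' c_B05pm_001_s1 cutB_nil (noExt_B)

noncomputable def cut_B05pm_011_s1 : Cut := Cut.of [[⟨4, 0, 0, 1449551462⟩]]

noncomputable def f_B05pm_011_s1 : ℕ → ℕ → ℕ → ℕ → Bool := onCell 0 536870912 536870912 536870912 201326592 134217728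
    (rowFK 0 false true false .pnn 0 1 1 (qsf 0 536870912 536870912 536870912 1) ndF0q0 ndF5q1 pcF1 cut_B05pm_011_s1 Ext.none)

def k0_B05pm_011_s1 : ∃ t, chk3 f_B05pm_011_s1 t 1 1 1 = true :=
  ⟨(l 4), by decide +kernel⟩

theorem c_B05pm_011_s1 : CertF 0 536870912 536870912 536870912 201326592 134217728 false true false .pnn 0 1 1
    ndF0q0 ndF5q1 pcF1 cut_B05pm_011_s1 Ext.none :=
  certFK0 (fam := false) (s1 := true) (s2 := false) (a := 0) (b := 1) (c := 1) (cn := .pnn) (n1 := ndF0q0) (n2 := ndF5q1) (pc := pcF1) (cut := cut_B05pm_011_s1) (xt := Ext.none) (P1 := 0) (W1 := 536870912) (P2 := 536870912) (W2 := 536870912) (P3 := 201326592) (W3 := 134217728)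
    rfl rfl rfl k0_B05pm_011_s1

theorem s_B05pm_011_s1 {κ x : ℝ} (hκ : κ * h0 = ken x) (hx : ((201326592 : ℕ) : ℝ) / S ≤ x)
    (hx' : x ≤ (((201326592 : ℕ) : ℝ) + (134217728 : ℕ)) / S) :
    AltB (VF κ) PP tKF tL pcF [⟨3, 0, 0, 1449551462⟩] 0 1 1 0 5 (sgb true) (sgb false) x :=
  strip_altB (m := 1449551462) true rfl hκ covF00 covF51 hx hx' c_B05pm_011_s1 cutB_nil (noExt_B)

noncomputable def cut_B05pm_012_s1 : Cut := Cut.of [[⟨4, 0, 0, 1449551462⟩]]

noncomputable def f_B05pm_012_s1 : ℕ → ℕ → ℕ → ℕ → Bool := onCell 0 536870912 1073741824 536870912 201326592 134217728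
    (rowFK 0 false true false .pnp 0 1 2 (qsf 0 536870912 1073741824 536870912 1) ndF0q0 ndF5q2 pcF1 cut_B05pm_012_s1 Ext.none)

def k0_B05pm_012_s1 : ∃ t, chk3 f_B05pm_012_s1 t 1 1 1 = true :=
  ⟨(l 4), by decide +kernel⟩

theorem c_B05pm_012_s1 : CertF 0 536870912 1073741824 536870912 201326592 134217728 false true false .pnp 0 1 2
    ndF0q0 ndF5q2 pcF1 cut_B05pm_012_s1 Ext.none :=
  certFK0 (fam := false) (s1 := true) (s2 := false) (a := 0) (b := 1) (c := 2) (cn := .pnp) (n1 := ndF0q0) (n2 := ndF5q2) (pc := pcF1) (cut := cut_B05pm_012_s1) (xt := Ext.none) (P1 := 0) (W1 := 536870912) (P2 := 1073741824) (W2 := 536870912) (P3 := 201326592) (W3 := 134217728)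
    rfl rfl rfl k0_B05pm_012_s1

theorem s_B05pm_012_s1 {κ x : ℝ} (hκ : κ * h0 = ken x) (hx : ((201326592 : ℕ) : ℝ) / S ≤ x)
    (hx' : x ≤ (((201326592 : ℕ) : ℝ) + (134217728 : ℕ)) / S) :
    AltB (VF κ) PP tKF tL pcF [⟨3, 0, 0, 1449551462⟩] 0 1 2 0 5 (sgb true) (sgb false) x :=
  strip_altB (m := 1449551462) true rfl hκ covF00 covF52 hx hx' c_B05pm_012_s1 cutB_nil (noExt_B)

noncomputable def cut_B05pm_022_s1 : Cut := Cut.of [[⟨4, 0, 0, 1449551462⟩]]

noncomputable def f_B05pm_022_s1 : ℕ → ℕ → ℕ → ℕ → Bool := onCell 0 536870912 1073741824 536870912 201326592 134217728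
    (rowFK 0 false true false .pp 0 2 2 (qsf 0 536870912 1073741824 536870912 2) ndF0q0 ndF5q2 pcF2 cut_B05pm_022_s1 Ext.none)

def k0_B05pm_022_s1 : ∃ t, chk3 f_B05pm_022_s1 t 1 1 1 = true :=
  ⟨(l 4), by decide +kernel⟩

theorem c_B05pm_022_s1 : CertF 0 536870912 1073741824 536870912 201326592 134217728 false true false .pp 0 2 2
    ndF0q0 ndF5q2 pcF2 cut_B05pm_022_s1 Ext.none :=
  certFK0 (fam := false) (s1 := true) (s2 := false) (a := 0) (b := 2) (c := 2) (cn := .pp) (n1 := ndF0q0) (n2 := ndF5q2) (pc := pcF2) (cut := cut_B05pm_022_s1) (xt := Ext.none) (P1 := 0) (W1 := 536870912) (P2 := 1073741824) (W2 := 536870912) (P3 := 201326592) (W3 := 134217728)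
    rfl rfl rfl k0_B05pm_022_s1

theorem s_B05pm_022_s1 {κ x : ℝ} (hκ : κ * h0 = ken x) (hx : ((201326592 : ℕ) : ℝ) / S ≤ x)
    (hx' : x ≤ (((201326592 : ℕ) : ℝ) + (134217728 : ℕ)) / S) :
    AltB (VF κ) PP tKF tL pcF [⟨3, 0, 0, 1449551462⟩] 0 2 2 0 5 (sgb true) (sgb false) x :=
  strip_altB (m := 1449551462) true rfl hκ covF00 covF52 hx hx' c_B05pm_022_s1 cutB_nil (noExt_B)

noncomputable def cut_B05pm_023_s1 : Cut := Cut.of [[⟨4, 0, 0, 1449551462⟩]]

noncomputable def f_B05pm_023_s1 : ℕ → ℕ → ℕ → ℕ → Bool := onCell 0 536870912 0 1230186008 201326592 134217728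
    (rowFK 0 false true false .up 0 2 3 (qsf 0 536870912 0 1230186008 2) ndF0q0 ndF5q3 pcF2 cut_B05pm_023_s1 Ext.none)

def k0_B05pm_023_s1 : ∃ t, chk3 f_B05pm_023_s1 t 1 1 1 = true :=
  ⟨(l 6), by decide +kernel⟩

theorem c_B05pm_023_s1 : CertF 0 536870912 0 1230186008 201326592 134217728 false true false .up 0 2 3
    ndF0q0 ndF5q3 pcF2 cut_B05pm_023_s1 Ext.none :=
  certFK0 (fam := false) (s1 := true) (s2 := false) (a := 0) (b := 2) (c := 3) (cn := .up) (n1 := ndF0q0) (n2 := ndF5q3) (pc := pcF2) (cut := cut_B05pm_023_s1) (xt := Ext.none) (P1 := 0) (W1 := 536870912) (P2 := 0) (W2 := 1230186008) (P3 := 201326592) (W3 := 134217728)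
    rfl rfl rfl k0_B05pm_023_s1

theorem s_B05pm_023_s1 {κ x : ℝ} (hκ : κ * h0 = ken x) (hx : ((201326592 : ℕ) : ℝ) / S ≤ x)
    (hx' : x ≤ (((201326592 : ℕ) : ℝ) + (134217728 : ℕ)) / S) :
    AltB (VF κ) PP tKF tL pcF [⟨3, 0, 0, 1449551462⟩] 0 2 3 0 5 (sgb true) (sgb false) x :=
  strip_altB (m := 1449551462) true rfl hκ covF00 covF53 hx hx' c_B05pm_023_s1 cutB_nil (noExt_B)

noncomputable def cut_B05pm_033_s1 : Cut := Cut.of [[⟨4, 0, 0, 1449551462⟩]]

noncomputable def f_B05pm_033_s1 : ℕ → ℕ → ℕ → ℕ → Bool := onCell 0 536870912 0 1230186008 201326592 134217728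
    (rowFK 0 false true false .pnn 0 3 3 (qsf 0 536870912 0 1230186008 3) ndF0q0 ndF5q3 pcF3 cut_B05pm_033_s1 Ext.none)

def k0_B05pm_033_s1 : ∃ t, chk3 f_B05pm_033_s1 t 1 1 1 = true :=
  ⟨(l 6), by decide +kernel⟩

theorem c_B05pm_033_s1 : CertF 0 536870912 0 1230186008 201326592 134217728 false true false .pnn 0 3 3
    ndF0q0 ndF5q3 pcF3 cut_B05pm_033_s1 Ext.none :=
  certFK0 (fam := false) (s1 := true) (s2 := false) (a := 0) (b := 3) (c := 3) (cn := .pnn) (n1 := ndF0q0) (n2 := ndF5q3) (pc := pcF3) (cut := cut_B05pm_033_s1) (xt := Ext.none) (P1 := 0) (W1 := 536870912) (P2 := 0) (W2 := 1230186008) (P3 := 201326592) (W3 := 134217728)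
    rfl rfl rfl k0_B05pm_033_s1

theorem s_B05pm_033_s1 {κ x : ℝ} (hκ : κ * h0 = ken x) (hx : ((201326592 : ℕ) : ℝ) / S ≤ x)
    (hx' : x ≤ (((201326592 : ℕ) : ℝ) + (134217728 : ℕ)) / S) :
    AltB (VF κ) PP tKF tL pcF [⟨3, 0, 0, 1449551462⟩] 0 3 3 0 5 (sgb true) (sgb false) x :=
  strip_altB (m := 1449551462) true rfl hκ covF00 covF53 hx hx' c_B05pm_033_s1 cutB_nil (noExt_B)

noncomputable def cut_B05pm_101_s1 : Cut := Cut.of [[⟨4, 0, 0, 1449551462⟩]]

noncomputable def f_B05pm_101_s1 : ℕ → ℕ → ℕ → ℕ → Bool := onCell 536870912 536870912 536870912 536870912 201326592 134217728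
    (rowFK 0 false true false .npn 1 0 1 (qsf 536870912 536870912 536870912 536870912 0) ndF0q1 ndF5q1 pcF0 cut_B05pm_101_s1 Ext.none)

def k0_B05pm_101_s1 : ∃ t, chk3 f_B05pm_101_s1 t 1 1 1 = true :=
  ⟨(l 4), by decide +kernel⟩

theorem c_B05pm_101_s1 : CertF 536870912 536870912 536870912 536870912 201326592 134217728 false true false .npn 1 0 1
    ndF0q1 ndF5q1 pcF0 cut_B05pm_101_s1 Ext.none :=
  certFK0 (fam := false) (s1 := true) (s2 := false) (a := 1) (b := 0) (c := 1) (cn := .npn) (n1 := ndF0q1) (n2 := ndF5q1) (pc := pcF0) (cut := cut_B05pm_101_s1) (xt := Ext.none) (P1 := 536870912) (W1 := 536870912) (P2 := 536870912) (W2 := 536870912) (P3 := 201326592) (W3 := 134217728)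
    rfl rfl rfl k0_B05pm_101_s1

theorem s_B05pm_101_s1 {κ x : ℝ} (hκ : κ * h0 = ken x) (hx : ((201326592 : ℕ) : ℝ) / S ≤ x)
    (hx' : x ≤ (((201326592 : ℕ) : ℝ) + (134217728 : ℕ)) / S) :
    AltB (VF κ) PP tKF tL pcF [⟨3, 0, 0, 1449551462⟩] 1 0 1 0 5 (sgb true) (sgb false) x :=
  strip_altB (m := 1449551462) true rfl hκ covF01 covF51 hx hx' c_B05pm_101_s1 cutB_nil (noExt_B)

noncomputable def cut_B05pm_102_s1 : Cut := Cut.of [[⟨4, 0, 0, 1449551462⟩]]

noncomputable def f_B05pm_102_s1 : ℕ → ℕ → ℕ → ℕ → Bool := onCell 536870912 536870912 1073741824 536870912 201326592 134217728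
    (rowFK 0 false true false .npp 1 0 2 (qsf 536870912 536870912 1073741824 536870912 0) ndF0q1 ndF5q2 pcF0 cut_B05pm_102_s1 Ext.none)

def k0_B05pm_102_s1 : ∃ t, chk3 f_B05pm_102_s1 t 1 1 1 = true :=
  ⟨(l 6), by decide +kernel⟩

theorem c_B05pm_102_s1 : CertF 536870912 536870912 1073741824 536870912 201326592 134217728 false true false .npp 1 0 2
    ndF0q1 ndF5q2 pcF0 cut_B05pm_102_s1 Ext.none :=
  certFK0 (fam := false) (s1 := true) (s2 := false) (a := 1) (b := 0) (c := 2) (cn := .npp) (n1 := ndF0q1) (n2 := ndF5q2) (pc := pcF0) (cut := cut_B05pm_102_s1) (xt := Ext.none) (P1 := 536870912) (W1 := 536870912) (P2 := 1073741824) (W2 := 536870912) (P3 := 201326592) (W3 := 134217728)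
    rfl rfl rfl k0_B05pm_102_s1

theorem s_B05pm_102_s1 {κ x : ℝ} (hκ : κ * h0 = ken x) (hx : ((201326592 : ℕ) : ℝ) / S ≤ x)
    (hx' : x ≤ (((201326592 : ℕ) : ℝ) + (134217728 : ℕ)) / S) :
    AltB (VF κ) PP tKF tL pcF [⟨3, 0, 0, 1449551462⟩] 1 0 2 0 5 (sgb true) (sgb false) x :=
  strip_altB (m := 1449551462) true rfl hκ covF01 covF52 hx hx' c_B05pm_102_s1 cutB_nil (noExt_B)

noncomputable def cut_B05pm_112_s1 : Cut := Cut.of [[⟨4, 0, 0, 1449551462⟩]]

noncomputable def f_B05pm_112_s1 : ℕ → ℕ → ℕ → ℕ → Bool := onCell 536870912 536870912 1073741824 536870912 201326592 134217728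
    (rowFK 0 false true false .dn 1 1 2 (qsf 536870912 536870912 1073741824 536870912 1) ndF0q1 ndF5q2 pcF1 cut_B05pm_112_s1 Ext.none)

def k0_B05pm_112_s1 : ∃ t, chk3 f_B05pm_112_s1 t 1 1 1 = true :=
  ⟨(l 6), by decide +kernel⟩

theorem c_B05pm_112_s1 : CertF 536870912 536870912 1073741824 536870912 201326592 134217728 false true false .dn 1 1 2
    ndF0q1 ndF5q2 pcF1 cut_B05pm_112_s1 Ext.none :=
  certFK0 (fam := false) (s1 := true) (s2 := false) (a := 1) (b := 1) (c := 2) (cn := .dn) (n1 := ndF0q1) (n2 := ndF5q2) (pc := pcF1) (cut := cut_B05pm_112_s1) (xt := Ext.none) (P1 := 536870912) (W1 := 536870912) (P2 := 1073741824) (W2 := 536870912) (P3 := 201326592) (W3 := 134217728)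
    rfl rfl rfl k0_B05pm_112_s1

theorem s_B05pm_112_s1 {κ x : ℝ} (hκ : κ * h0 = ken x) (hx : ((201326592 : ℕ) : ℝ) / S ≤ x)
    (hx' : x ≤ (((201326592 : ℕ) : ℝ) + (134217728 : ℕ)) / S) :
    AltB (VF κ) PP tKF tL pcF [⟨3, 0, 0, 1449551462⟩] 1 1 2 0 5 (sgb true) (sgb false) x :=
  strip_altB (m := 1449551462) true rfl hκ covF01 covF52 hx hx' c_B05pm_112_s1 cutB_nil (noExt_B)

noncomputable def cut_B05pm_113_s1 : Cut := Cut.of [[⟨4, 0, 0, 1449551462⟩], [⟨0, 1, 0, 57167902⟩, ⟨1, 1, 0, 57167902⟩, ⟨2, 2, 0, 11758673⟩]]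

noncomputable def f_B05pm_113_s1 : ℕ → ℕ → ℕ → ℕ → Bool := onCell 536870912 536870912 0 1230186008 201326592 134217728
    (rowFK 0 false true false .nn 1 1 3 (qsf 536870912 536870912 0 1230186008 1) ndF0q1 ndF5q3 pcF1 cut_B05pm_113_s1 Ext.none)

def k0_B05pm_113_s1 : ∃ t, chk3 f_B05pm_113_s1 t 1 1 1 = true :=
  ⟨(b (a (l 2) (a (l 2) (b (a (l 2) (b (a (l 2) (l 14)) (l 16839704))) (a (l 6) (b (l 16890160) (l 6)))))) (b (l 6) (l 6))), by decide +kernel⟩

theorem c_B05pm_113_s1 : CertF 536870912 536870912 0 1230186008 201326592 134217728 false true false .nn 1 1 3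
    ndF0q1 ndF5q3 pcF1 cut_B05pm_113_s1 Ext.none :=
  certFK0 (fam := false) (s1 := true) (s2 := false) (a := 1) (b := 1) (c := 3) (cn := .nn) (n1 := ndF0q1) (n2 := ndF5q3) (pc := pcF1) (cut := cut_B05pm_113_s1) (xt := Ext.none) (P1 := 536870912) (W1 := 536870912) (P2 := 0) (W2 := 1230186008) (P3 := 201326592) (W3 := 134217728)
    rfl rfl rfl k0_B05pm_113_s1

theorem s_B05pm_113_s1 {κ x : ℝ} (hκ : κ * h0 = ken x) (hx : ((201326592 : ℕ) : ℝ) / S ≤ x)
    (hx' : x ≤ (((201326592 : ℕ) : ℝ) + (134217728 : ℕ)) / S)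
    (H : CutB (VF κ) PP tKF tL pcF (Cut.of [[⟨0, 1, 0, 57167902⟩, ⟨1, 1, 0, 57167902⟩, ⟨2, 2, 0, 11758673⟩]]) 1 1 3 0 5 (sgb true) (sgb false) x) :
    AltB (VF κ) PP tKF tL pcF [⟨3, 0, 0, 1449551462⟩] 1 1 3 0 5 (sgb true) (sgb false) x :=
  strip_altB (m := 1449551462) true rfl hκ covF01 covF53 hx hx' c_B05pm_113_s1 H (noExt_B)

noncomputable def cut_B05pm_123_s1 : Cut := Cut.of [[⟨4, 0, 0, 1449551462⟩], [⟨0, 1, 0, 57167902⟩, ⟨1, 1, 0, 57167902⟩, ⟨2, 2, 0, 11758673⟩]]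

noncomputable def f_B05pm_123_s1 : ℕ → ℕ → ℕ → ℕ → Bool := onCell 1073741824 536870912 0 1230186008 201326592 134217728
    (rowFK 2 false true false .npn 1 2 3 (qsf 536870912 536870912 0 1230186008 2) ndF0q1 ndF5q3 pcF2 cut_B05pm_123_s1 Ext.none)

def k0_B05pm_123_s1 : ∃ t, chk3 f_B05pm_123_s1 t 1 1 1 = true :=
  ⟨(b (a (b (b (a (a (a (l 14) (l 16834904)) (a (l 16876944) (a (l 16911080) (l 16932008)))) (l 6)) (a (a (a (l 16885952) (l 16930648)) (l 6)) (l 6))) (b (l 6) (l 6))) (l 6)) (l 6)), by decide +kernel⟩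

theorem c_B05pm_123_s1 : CertF 536870912 536870912 0 1230186008 201326592 134217728 false true false .npn 1 2 3
    ndF0q1 ndF5q3 pcF2 cut_B05pm_123_s1 Ext.none :=
  certFK2 (fam := false) (s1 := true) (s2 := false) (a := 1) (b := 2) (c := 3) (cn := .npn) (n1 := ndF0q1) (n2 := ndF5q3) (pc := pcF2) (cut := cut_B05pm_123_s1) (xt := Ext.none) (P1 := 536870912) (W1 := 536870912) (P2 := 0) (W2 := 1230186008) (P3 := 201326592) (W3 := 134217728)
    rfl rfl rfl (fun _ => rfl) k0_B05pm_123_s1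

theorem s_B05pm_123_s1 {κ x : ℝ} (hκ : κ * h0 = ken x) (hx : ((201326592 : ℕ) : ℝ) / S ≤ x)
    (hx' : x ≤ (((201326592 : ℕ) : ℝ) + (134217728 : ℕ)) / S)
    (H : CutB (VF κ) PP tKF tL pcF (Cut.of [[⟨0, 1, 0, 57167902⟩, ⟨1, 1, 0, 57167902⟩, ⟨2, 2, 0, 11758673⟩]]) 1 2 3 0 5 (sgb true) (sgb false) x) :
    AltB (VF κ) PP tKF tL pcF [⟨3, 0, 0, 1449551462⟩] 1 2 3 0 5 (sgb true) (sgb false) x :=
  strip_altB (m := 1449551462) true rfl hκ covF01 covF53 hx hx' c_B05pm_123_s1 H (noExt_B)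

noncomputable def cut_B05pm_133_s1 : Cut := Cut.of [[⟨4, 0, 0, 1449551462⟩]]

noncomputable def f_B05pm_133_s1 : ℕ → ℕ → ℕ → ℕ → Bool := onCell 1610612736 536870912 0 1230186008 201326592 134217728
    (rowFK 2 false true false .dn 1 3 3 (qsf 536870912 536870912 0 1230186008 3) ndF0q1 ndF5q3 pcF3 cut_B05pm_133_s1 Ext.none)

def k0_B05pm_133_s1 : ∃ t, chk3 f_B05pm_133_s1 t 1 1 1 = true :=
  ⟨(l 6), by decide +kernel⟩

theorem c_B05pm_133_s1 : CertF 536870912 536870912 0 1230186008 201326592 134217728 false true false .dn 1 3 3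
    ndF0q1 ndF5q3 pcF3 cut_B05pm_133_s1 Ext.none :=
  certFK2 (fam := false) (s1 := true) (s2 := false) (a := 1) (b := 3) (c := 3) (cn := .dn) (n1 := ndF0q1) (n2 := ndF5q3) (pc := pcF3) (cut := cut_B05pm_133_s1) (xt := Ext.none) (P1 := 536870912) (W1 := 536870912) (P2 := 0) (W2 := 1230186008) (P3 := 201326592) (W3 := 134217728)
    rfl rfl rfl (fun _ => rfl) k0_B05pm_133_s1

theorem s_B05pm_133_s1 {κ x : ℝ} (hκ : κ * h0 = ken x) (hx : ((201326592 : ℕ) : ℝ) / S ≤ x)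
    (hx' : x ≤ (((201326592 : ℕ) : ℝ) + (134217728 : ℕ)) / S) :
    AltB (VF κ) PP tKF tL pcF [⟨3, 0, 0, 1449551462⟩] 1 3 3 0 5 (sgb true) (sgb false) x :=
  strip_altB (m := 1449551462) true rfl hκ covF01 covF53 hx hx' c_B05pm_133_s1 cutB_nil (noExt_B)

noncomputable def cut_B05pm_202_s1 : Cut := Cut.of [[⟨4, 0, 0, 1449551462⟩]]

noncomputable def f_B05pm_202_s1 : ℕ → ℕ → ℕ → ℕ → Bool := onCell 0 536870912 1073741824 536870912 201326592 134217728
    (rowFK 0 false true false .pp 2 0 2 (qsf 0 536870912 1073741824 536870912 0) ndF0q2 ndF5q2 pcF0 cut_B05pm_202_s1 Ext.none)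

def k0_B05pm_202_s1 : ∃ t, chk3 f_B05pm_202_s1 t 1 1 1 = true :=
  ⟨(a (b (l 6) (b (l 6) (l 6))) (l 6)), by decide +kernel⟩

theorem c_B05pm_202_s1 : CertF 0 536870912 1073741824 536870912 201326592 134217728 false true false .pp 2 0 2
    ndF0q2 ndF5q2 pcF0 cut_B05pm_202_s1 Ext.none :=
  certFK0 (fam := false) (s1 := true) (s2 := false) (a := 2) (b := 0) (c := 2) (cn := .pp) (n1 := ndF0q2) (n2 := ndF5q2) (pc := pcF0) (cut := cut_B05pm_202_s1) (xt := Ext.none) (P1 := 0) (W1 := 536870912) (P2 := 1073741824) (W2 := 536870912) (P3 := 201326592) (W3 := 134217728)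
    rfl rfl rfl k0_B05pm_202_s1

theorem s_B05pm_202_s1 {κ x : ℝ} (hκ : κ * h0 = ken x) (hx : ((201326592 : ℕ) : ℝ) / S ≤ x)
    (hx' : x ≤ (((201326592 : ℕ) : ℝ) + (134217728 : ℕ)) / S) :
    AltB (VF κ) PP tKF tL pcF [⟨3, 0, 0, 1449551462⟩] 2 0 2 0 5 (sgb true) (sgb false) x :=
  strip_altB (m := 1449551462) true rfl hκ covF02 covF52 hx hx' c_B05pm_202_s1 cutB_nil (noExt_B)

noncomputable def cut_B05pm_203_s1 : Cut := Cut.of [[⟨4, 0, 0, 1449551462⟩]]

noncomputable def f_B05pm_203_s1 : ℕ → ℕ → ℕ → ℕ → Bool := onCell 0 536870912 0 1230186008 201326592 134217728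
    (rowFK 0 false true false .up 2 0 3 (qsf 0 536870912 0 1230186008 0) ndF0q2 ndF5q3 pcF0 cut_B05pm_203_s1 Ext.none)

def k0_B05pm_203_s1 : ∃ t, chk3 f_B05pm_203_s1 t 1 1 1 = true :=
  ⟨(b (l 2) (b (l 2) (a (b (b (l 2) (a (a (l 187468735287) (l 17041352)) (a (l 17135336) (l 6)))) (a (b (a (b (l 16996976) (l 17028928)) (l 17096808)) (a (b (l 17057608) (l 17080168)) (l 6))) (l 6))) (l 6)))), by decide +kernel⟩

theorem c_B05pm_203_s1 : CertF 0 536870912 0 1230186008 201326592 134217728 false true false .up 2 0 3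
    ndF0q2 ndF5q3 pcF0 cut_B05pm_203_s1 Ext.none :=
  certFK0 (fam := false) (s1 := true) (s2 := false) (a := 2) (b := 0) (c := 3) (cn := .up) (n1 := ndF0q2) (n2 := ndF5q3) (pc := pcF0) (cut := cut_B05pm_203_s1) (xt := Ext.none) (P1 := 0) (W1 := 536870912) (P2 := 0) (W2 := 1230186008) (P3 := 201326592) (W3 := 134217728)
    rfl rfl rfl k0_B05pm_203_s1

theorem s_B05pm_203_s1 {κ x : ℝ} (hκ : κ * h0 = ken x) (hx : ((201326592 : ℕ) : ℝ) / S ≤ x)
    (hx' : x ≤ (((201326592 : ℕ) : ℝ) + (134217728 : ℕ)) / S) :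
    AltB (VF κ) PP tKF tL pcF [⟨3, 0, 0, 1449551462⟩] 2 0 3 0 5 (sgb true) (sgb false) x :=
  strip_altB (m := 1449551462) true rfl hκ covF02 covF53 hx hx' c_B05pm_203_s1 cutB_nil (noExt_B)

noncomputable def cut_B05pm_213_s1 : Cut := Cut.of [[⟨4, 0, 0, 1449551462⟩], [⟨0, 1, 0, 57167902⟩, ⟨1, 1, 0, 57167902⟩, ⟨2, 2, 0, 11758673⟩]]

noncomputable def xt_B05pm_213_s1 : Ext := strExt dd false true false .u2 .s2m .u0m .pnn 2 1 3 rfl rfl gf1 vv ndF0q2 ndF5q3

noncomputable def f_B05pm_213_s1 : ℕ → ℕ → ℕ → ℕ → Bool := onCell 0 536870912 0 1230186008 201326592 134217728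
    (rowFK 0 false true false .pnn 2 1 3 (qsf 0 536870912 0 1230186008 1) ndF0q2 ndF5q3 pcF1 cut_B05pm_213_s1 xt_B05pm_213_s1)

def k0_B05pm_213_s1 : ∃ t, chk3 f_B05pm_213_s1 t 1 1 1 = true :=
  ⟨(b (a (b (l 3) (a (l 3) (b (l 3) (a (b (l 3) (l 539273999)) (b (l 539126287) (a (l 539063311) (l 538981391))))))) (b (a (a (l 3) (b (l 3) (a (l 3) (l 538858511)))) (b (a (a (l 3) (a (l 3) (l 539204111))) (l 14)) (a (a (b (l 538820879) (l 538818063)) (b (a (l 538760463) (l 538742287)) (l 16810200))) (b (a (b (l 14) (l 16811168)) (l 16825288)) (l 16840536))))) (a (b (a (b (l 539051279) (l 539007247)) (a (l 538894863) (l 538828815))) (a (b (l 538944783) (l 538871567)) (b (l 16837848) (l 16863952)))) (b (a (a (b (l 16815656) (l 16841968)) (l 16850576)) (l 16883064)) (a (l 16893488) (l 16935040)))))) (b (b (a (a (a (l 3) (b (l 3) (a (l 3) (l 539081743)))) (a (b (l 539730703) (a (l 539031567) (l 538961167))) (b (a (l 538951439) (l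 16821312)) (l 16837360)))) (a (a (l 17114400) (l 16900280)) (l 6))) (a (a (a (b (l 538917647) (l 538819599)) (b (a (l 538796559) (l 538832655)) (a (l 538717711) (l 16823400)))) (a (b (c (l 16909872) (l 16908656)) (l 16852136)) (l 17125384))) (a (a (l 17155720) (l 6)) (l 6)))) (a (b (a (a (b (l 539239439) (l 539990031)) (b (l 16861696) (l 16941856))) (b (l 17193928) (a (l 17018264) (l 6)))) (a (l 1) (l 6))) (l 6)))), by decide +kernel⟩

theorem c_B05pm_213_s1 : CertF 0 536870912 0 1230186008 201326592 134217728 false true false .pnn 2 1 3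
    ndF0q2 ndF5q3 pcF1 cut_B05pm_213_s1 xt_B05pm_213_s1 :=
  certFK0 (fam := false) (s1 := true) (s2 := false) (a := 2) (b := 1) (c := 3) (cn := .pnn) (n1 := ndF0q2) (n2 := ndF5q3) (pc := pcF1) (cut := cut_B05pm_213_s1) (xt := xt_B05pm_213_s1) (P1 := 0) (W1 := 536870912) (P2 := 0) (W2 := 1230186008) (P3 := 201326592) (W3 := 134217728)
    rfl rfl rfl k0_B05pm_213_s1

theorem s_B05pm_213_s1 {κ x : ℝ} (hκ : κ * h0 = ken x) (hx : ((201326592 : ℕ) : ℝ) / S ≤ x)
    (hx' : x ≤ (((201326592 : ℕ) : ℝ) + (134217728 : ℕ)) / S)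
    (H : CutB (VF κ) PP tKF tL pcF (Cut.of [[⟨0, 1, 0, 57167902⟩, ⟨1, 1, 0, 57167902⟩, ⟨2, 2, 0, 11758673⟩]]) 2 1 3 0 5 (sgb true) (sgb false) x) :
    AltB (VF κ) PP tKF tL pcF [⟨3, 0, 0, 1449551462⟩] 2 1 3 0 5 (sgb true) (sgb false) x :=
  strip_altB (m := 1449551462) true rfl hκ covF02 covF53 hx hx' c_B05pm_213_s1 H ((okx hx hx').extB (T := tt) (sideF hx hx') hκ rfl rfl (.O 2 true) (.N 3 false) (Or.inr rfl))

noncomputable def cut_B05mm_001_s1 : Cut := Cut.of [[⟨4, 0, 0, 1449551462⟩]]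

noncomputable def f_B05mm_001_s1 : ℕ → ℕ → ℕ → ℕ → Bool := onCell 0 536870912 0 536870912 201326592 134217728
    (rowFK 1 false false false .up 0 0 1 (qsf 0 536870912 536870912 536870912 0) ndF0q0 ndF5q1 pcF0 cut_B05mm_001_s1 Ext.none)

def k0_B05mm_001_s1 : ∃ t, chk3 f_B05mm_001_s1 t 1 1 1 = true :=
  ⟨(l 3), by decide +kernel⟩

theorem c_B05mm_001_s1 : CertF 0 536870912 536870912 536870912 201326592 134217728 false false false .up 0 0 1
    ndF0q0 ndF5q1 pcF0 cut_B05mm_001_s1 Ext.none :=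
  certFK1 (fam := false) (s1 := false) (s2 := false) (a := 0) (b := 0) (c := 1) (cn := .up) (n1 := ndF0q0) (n2 := ndF5q1) (pc := pcF0) (cut := cut_B05mm_001_s1) (xt := Ext.none) (P1 := 0) (W1 := 536870912) (P2 := 536870912) (W2 := 536870912) (P3 := 201326592) (W3 := 134217728)
    rfl rfl rfl (fun _ => rfl) k0_B05mm_001_s1

theorem s_B05mm_001_s1 {κ x : ℝ} (hκ : κ * h0 = ken x) (hx : ((201326592 : ℕ) : ℝ) / S ≤ x)
    (hx' : x ≤ (((201326592 : ℕ) : ℝ) + (134217728 : ℕ)) / S) :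
    AltB (VF κ) PP tKF tL pcF [⟨3, 0, 0, 1449551462⟩] 0 0 1 0 5 (sgb false) (sgb false) x :=
  strip_altB (m := 1449551462) true rfl hκ covF00 covF51 hx hx' c_B05mm_001_s1 cutB_nil (noExt_B)

noncomputable def cut_B05mm_011_s1 : Cut := Cut.of [[⟨4, 0, 0, 1449551462⟩]]

noncomputable def f_B05mm_011_s1 : ℕ → ℕ → ℕ → ℕ → Bool := onCell 0 536870912 536870912 536870912 201326592 134217728
    (rowFK 1 false false false .pnn 0 1 1 (qsf 0 536870912 536870912 536870912 1) ndF0q0 ndF5q1 pcF1 cut_B05mm_011_s1 Ext.none)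

def k0_B05mm_011_s1 : ∃ t, chk3 f_B05mm_011_s1 t 1 1 1 = true :=
  ⟨(l 5), by decide +kernel⟩

theorem c_B05mm_011_s1 : CertF 0 536870912 536870912 536870912 201326592 134217728 false false false .pnn 0 1 1
    ndF0q0 ndF5q1 pcF1 cut_B05mm_011_s1 Ext.none :=
  certFK1 (fam := false) (s1 := false) (s2 := false) (a := 0) (b := 1) (c := 1) (cn := .pnn) (n1 := ndF0q0) (n2 := ndF5q1) (pc := pcF1) (cut := cut_B05mm_011_s1) (xt := Ext.none) (P1 := 0) (W1 := 536870912) (P2 := 536870912) (W2 := 536870912) (P3 := 201326592) (W3 := 134217728)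
    rfl rfl rfl (fun _ => rfl) k0_B05mm_011_s1

theorem s_B05mm_011_s1 {κ x : ℝ} (hκ : κ * h0 = ken x) (hx : ((201326592 : ℕ) : ℝ) / S ≤ x)
    (hx' : x ≤ (((201326592 : ℕ) : ℝ) + (134217728 : ℕ)) / S) :
    AltB (VF κ) PP tKF tL pcF [⟨3, 0, 0, 1449551462⟩] 0 1 1 0 5 (sgb false) (sgb false) x :=
  strip_altB (m := 1449551462) true rfl hκ covF00 covF51 hx hx' c_B05mm_011_s1 cutB_nil (noExt_B)

noncomputable def cut_B05mm_012_s1 : Cut := Cut.of [[⟨4, 0, 0, 1449551462⟩]]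

noncomputable def f_B05mm_012_s1 : ℕ → ℕ → ℕ → ℕ → Bool := onCell 0 536870912 1073741824 536870912 201326592 134217728
    (rowFK 0 false false false .pnp 0 1 2 (qsf 0 536870912 1073741824 536870912 1) ndF0q0 ndF5q2 pcF1 cut_B05mm_012_s1 Ext.none)

def k0_B05mm_012_s1 : ∃ t, chk3 f_B05mm_012_s1 t 1 1 1 = true :=
  ⟨(l 5), by decide +kernel⟩

theorem c_B05mm_012_s1 : CertF 0 536870912 1073741824 536870912 201326592 134217728 false false false .pnp 0 1 2
    ndF0q0 ndF5q2 pcF1 cut_B05mm_012_s1 Ext.none :=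
  certFK0 (fam := false) (s1 := false) (s2 := false) (a := 0) (b := 1) (c := 2) (cn := .pnp) (n1 := ndF0q0) (n2 := ndF5q2) (pc := pcF1) (cut := cut_B05mm_012_s1) (xt := Ext.none) (P1 := 0) (W1 := 536870912) (P2 := 1073741824) (W2 := 536870912) (P3 := 201326592) (W3 := 134217728)
    rfl rfl rfl k0_B05mm_012_s1

theorem s_B05mm_012_s1 {κ x : ℝ} (hκ : κ * h0 = ken x) (hx : ((201326592 : ℕ) : ℝ) / S ≤ x)
    (hx' : x ≤ (((201326592 : ℕ) : ℝ) + (134217728 : ℕ)) / S) :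
    AltB (VF κ) PP tKF tL pcF [⟨3, 0, 0, 1449551462⟩] 0 1 2 0 5 (sgb false) (sgb false) x :=
  strip_altB (m := 1449551462) true rfl hκ covF00 covF52 hx hx' c_B05mm_012_s1 cutB_nil (noExt_B)

noncomputable def cut_B05mm_022_s1 : Cut := Cut.of [[⟨4, 0, 0, 1449551462⟩]]

noncomputable def f_B05mm_022_s1 : ℕ → ℕ → ℕ → ℕ → Bool := onCell 0 536870912 1073741824 536870912 201326592 134217728
    (rowFK 0 false false false .pp 0 2 2 (qsf 0 536870912 1073741824 536870912 2) ndF0q0 ndF5q2 pcF2 cut_B05mm_022_s1 Ext.none)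

def k0_B05mm_022_s1 : ∃ t, chk3 f_B05mm_022_s1 t 1 1 1 = true :=
  ⟨(l 5), by decide +kernel⟩

theorem c_B05mm_022_s1 : CertF 0 536870912 1073741824 536870912 201326592 134217728 false false false .pp 0 2 2
    ndF0q0 ndF5q2 pcF2 cut_B05mm_022_s1 Ext.none :=
  certFK0 (fam := false) (s1 := false) (s2 := false) (a := 0) (b := 2) (c := 2) (cn := .pp) (n1 := ndF0q0) (n2 := ndF5q2) (pc := pcF2) (cut := cut_B05mm_022_s1) (xt := Ext.none) (P1 := 0) (W1 := 536870912) (P2 := 1073741824) (W2 := 536870912) (P3 := 201326592) (W3 := 134217728)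
    rfl rfl rfl k0_B05mm_022_s1

theorem s_B05mm_022_s1 {κ x : ℝ} (hκ : κ * h0 = ken x) (hx : ((201326592 : ℕ) : ℝ) / S ≤ x)
    (hx' : x ≤ (((201326592 : ℕ) : ℝ) + (134217728 : ℕ)) / S) :
    AltB (VF κ) PP tKF tL pcF [⟨3, 0, 0, 1449551462⟩] 0 2 2 0 5 (sgb false) (sgb false) x :=
  strip_altB (m := 1449551462) true rfl hκ covF00 covF52 hx hx' c_B05mm_022_s1 cutB_nil (noExt_B)

noncomputable def cut_B05mm_023_s1 : Cut := Cut.of [[⟨4, 0, 0, 1449551462⟩]]

noncomputable def f_B05mm_023_s1 : ℕ → ℕ → ℕ → ℕ → Bool := onCell 0 536870912 0 1230186008 201326592 134217728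
    (rowFK 0 false false false .up 0 2 3 (qsf 0 536870912 0 1230186008 2) ndF0q0 ndF5q3 pcF2 cut_B05mm_023_s1 Ext.none)

def k0_B05mm_023_s1 : ∃ t, chk3 f_B05mm_023_s1 t 1 1 1 = true :=
  ⟨(l 5), by decide +kernel⟩

theorem c_B05mm_023_s1 : CertF 0 536870912 0 1230186008 201326592 134217728 false false false .up 0 2 3
    ndF0q0 ndF5q3 pcF2 cut_B05mm_023_s1 Ext.none :=
  certFK0 (fam := false) (s1 := false) (s2 := false) (a := 0) (b := 2) (c := 3) (cn := .up) (n1 := ndF0q0) (n2 := ndF5q3) (pc := pcF2) (cut := cut_B05mm_023_s1) (xt := Ext.none) (P1 := 0) (W1 := 536870912) (P2 := 0) (W2 := 1230186008) (P3 := 201326592) (W3 := 134217728)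
    rfl rfl rfl k0_B05mm_023_s1

theorem s_B05mm_023_s1 {κ x : ℝ} (hκ : κ * h0 = ken x) (hx : ((201326592 : ℕ) : ℝ) / S ≤ x)
    (hx' : x ≤ (((201326592 : ℕ) : ℝ) + (134217728 : ℕ)) / S) :
    AltB (VF κ) PP tKF tL pcF [⟨3, 0, 0, 1449551462⟩] 0 2 3 0 5 (sgb false) (sgb false) x :=
  strip_altB (m := 1449551462) true rfl hκ covF00 covF53 hx hx' c_B05mm_023_s1 cutB_nil (noExt_B)

noncomputable def cut_B05mm_033_s1 : Cut := Cut.of [[⟨4, 0, 0, 1449551462⟩]]

noncomputable def f_B05mm_033_s1 : ℕ → ℕ → ℕ → ℕ → Bool := onCell 0 536870912 0 1230186008 201326592 134217728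
    (rowFK 0 false false false .pnn 0 3 3 (qsf 0 536870912 0 1230186008 3) ndF0q0 ndF5q3 pcF3 cut_B05mm_033_s1 Ext.none)

def k0_B05mm_033_s1 : ∃ t, chk3 f_B05mm_033_s1 t 1 1 1 = true :=
  ⟨(l 5), by decide +kernel⟩

theorem c_B05mm_033_s1 : CertF 0 536870912 0 1230186008 201326592 134217728 false false false .pnn 0 3 3
    ndF0q0 ndF5q3 pcF3 cut_B05mm_033_s1 Ext.none :=
  certFK0 (fam := false) (s1 := false) (s2 := false) (a := 0) (b := 3) (c := 3) (cn := .pnn) (n1 := ndF0q0) (n2 := ndF5q3) (pc := pcF3) (cut := cut_B05mm_033_s1) (xt := Ext.none) (P1 := 0) (W1 := 536870912) (P2 := 0) (W2 := 1230186008) (P3 := 201326592) (W3 := 134217728)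
    rfl rfl rfl k0_B05mm_033_s1

theorem s_B05mm_033_s1 {κ x : ℝ} (hκ : κ * h0 = ken x) (hx : ((201326592 : ℕ) : ℝ) / S ≤ x)
    (hx' : x ≤ (((201326592 : ℕ) : ℝ) + (134217728 : ℕ)) / S) :
    AltB (VF κ) PP tKF tL pcF [⟨3, 0, 0, 1449551462⟩] 0 3 3 0 5 (sgb false) (sgb false) x :=
  strip_altB (m := 1449551462) true rfl hκ covF00 covF53 hx hx' c_B05mm_033_s1 cutB_nil (noExt_B)

noncomputable def cut_B05mm_101_s1 : Cut := Cut.of [[⟨4, 0, 0, 1449551462⟩], [⟨0, 1, 0, 67108864⟩, ⟨1, 0, 0, 67108864⟩, ⟨2, 1, 0, 67108864⟩]]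

noncomputable def f_B05mm_101_s1 : ℕ → ℕ → ℕ → ℕ → Bool := onCell 536870912 536870912 0 536870912 201326592 134217728
    (rowFK 1 false false false .npn 1 0 1 (qsf 536870912 536870912 536870912 536870912 0) ndF0q1 ndF5q1 pcF0 cut_B05mm_101_s1 Ext.none)

def k0_B05mm_101_s1 : ∃ t, chk3 f_B05mm_101_s1 t 1 1 1 = true :=
  ⟨(a (l 3) (b (a (l 3) (b (a (l 3) (b (a (l 3) (b (l 14) (l 3))) (l 3))) (l 3))) (l 3))), by decide +kernel⟩

theorem c_B05mm_101_s1 : CertF 536870912 536870912 536870912 536870912 201326592 134217728 false false false .npn 1 0 1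
    ndF0q1 ndF5q1 pcF0 cut_B05mm_101_s1 Ext.none :=
  certFK1 (fam := false) (s1 := false) (s2 := false) (a := 1) (b := 0) (c := 1) (cn := .npn) (n1 := ndF0q1) (n2 := ndF5q1) (pc := pcF0) (cut := cut_B05mm_101_s1) (xt := Ext.none) (P1 := 536870912) (W1 := 536870912) (P2 := 536870912) (W2 := 536870912) (P3 := 201326592) (W3 := 134217728)
    rfl rfl rfl (fun _ => rfl) k0_B05mm_101_s1

theorem s_B05mm_101_s1 {κ x : ℝ} (hκ : κ * h0 = ken x) (hx : ((201326592 : ℕ) : ℝ) / S ≤ x)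
    (hx' : x ≤ (((201326592 : ℕ) : ℝ) + (134217728 : ℕ)) / S)
    (H : CutB (VF κ) PP tKF tL pcF (Cut.of [[⟨0, 1, 0, 67108864⟩, ⟨1, 0, 0, 67108864⟩, ⟨2, 1, 0, 67108864⟩]]) 1 0 1 0 5 (sgb false) (sgb false) x) :
    AltB (VF κ) PP tKF tL pcF [⟨3, 0, 0, 1449551462⟩] 1 0 1 0 5 (sgb false) (sgb false) x :=
  strip_altB (m := 1449551462) true rfl hκ covF01 covF51 hx hx' c_B05mm_101_s1 H (noExt_B)

noncomputable def cut_B05mm_102_s1 : Cut := Cut.of [[⟨4, 0, 0, 1449551462⟩], [⟨0, 1, 0, 67108864⟩, ⟨1, 0, 0, 67108864⟩, ⟨2, 1, 0, 67108864⟩]]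

noncomputable def f_B05mm_102_s1 : ℕ → ℕ → ℕ → ℕ → Bool := onCell 536870912 536870912 0 536870912 201326592 134217728
    (rowFK 1 false false false .npp 1 0 2 (qsf 536870912 536870912 1073741824 536870912 0) ndF0q1 ndF5q2 pcF0 cut_B05mm_102_s1 Ext.none)

def k0_B05mm_102_s1 : ∃ t, chk3 f_B05mm_102_s1 t 1 1 1 = true :=
  ⟨(b (a (l 3) (a (l 3) (b (a (l 3) (a (l 3) (b (b (l 14) (l 3)) (l 3)))) (l 3)))) (l 3)), by decide +kernel⟩

theorem c_B05mm_102_s1 : CertF 536870912 536870912 1073741824 536870912 201326592 134217728 false false false .npp 1 0 2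
    ndF0q1 ndF5q2 pcF0 cut_B05mm_102_s1 Ext.none :=
  certFK1 (fam := false) (s1 := false) (s2 := false) (a := 1) (b := 0) (c := 2) (cn := .npp) (n1 := ndF0q1) (n2 := ndF5q2) (pc := pcF0) (cut := cut_B05mm_102_s1) (xt := Ext.none) (P1 := 536870912) (W1 := 536870912) (P2 := 1073741824) (W2 := 536870912) (P3 := 201326592) (W3 := 134217728)
    rfl rfl rfl (fun _ => rfl) k0_B05mm_102_s1

theorem s_B05mm_102_s1 {κ x : ℝ} (hκ : κ * h0 = ken x) (hx : ((201326592 : ℕ) : ℝ) / S ≤ x)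
    (hx' : x ≤ (((201326592 : ℕ) : ℝ) + (134217728 : ℕ)) / S)
    (H : CutB (VF κ) PP tKF tL pcF (Cut.of [[⟨0, 1, 0, 67108864⟩, ⟨1, 0, 0, 67108864⟩, ⟨2, 1, 0, 67108864⟩]]) 1 0 2 0 5 (sgb false) (sgb false) x) :
    AltB (VF κ) PP tKF tL pcF [⟨3, 0, 0, 1449551462⟩] 1 0 2 0 5 (sgb false) (sgb false) x :=
  strip_altB (m := 1449551462) true rfl hκ covF01 covF52 hx hx' c_B05mm_102_s1 H (noExt_B)

noncomputable def cut_B05mm_112_s1 : Cut := Cut.of [[⟨4, 0, 0, 1449551462⟩]]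

noncomputable def f_B05mm_112_s1 : ℕ → ℕ → ℕ → ℕ → Bool := onCell 536870912 536870912 1073741824 536870912 201326592 134217728
    (rowFK 2 false false false .dn 1 1 2 (qsf 536870912 536870912 1073741824 536870912 1) ndF0q1 ndF5q2 pcF1 cut_B05mm_112_s1 Ext.none)

def k0_B05mm_112_s1 : ∃ t, chk3 f_B05mm_112_s1 t 1 1 1 = true :=
  ⟨(a (l 3) (l 5)), by decide +kernel⟩

theorem c_B05mm_112_s1 : CertF 536870912 536870912 1073741824 536870912 201326592 134217728 false false false .dn 1 1 2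
    ndF0q1 ndF5q2 pcF1 cut_B05mm_112_s1 Ext.none :=
  certFK2 (fam := false) (s1 := false) (s2 := false) (a := 1) (b := 1) (c := 2) (cn := .dn) (n1 := ndF0q1) (n2 := ndF5q2) (pc := pcF1) (cut := cut_B05mm_112_s1) (xt := Ext.none) (P1 := 536870912) (W1 := 536870912) (P2 := 1073741824) (W2 := 536870912) (P3 := 201326592) (W3 := 134217728)
    rfl rfl rfl (fun _ => rfl) k0_B05mm_112_s1

theorem s_B05mm_112_s1 {κ x : ℝ} (hκ : κ * h0 = ken x) (hx : ((201326592 : ℕ) : ℝ) / S ≤ x)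
    (hx' : x ≤ (((201326592 : ℕ) : ℝ) + (134217728 : ℕ)) / S) :
    AltB (VF κ) PP tKF tL pcF [⟨3, 0, 0, 1449551462⟩] 1 1 2 0 5 (sgb false) (sgb false) x :=
  strip_altB (m := 1449551462) true rfl hκ covF01 covF52 hx hx' c_B05mm_112_s1 cutB_nil (noExt_B)

noncomputable def cut_B05mm_113_s1 : Cut := Cut.of [[⟨4, 0, 0, 1449551462⟩]]

noncomputable def f_B05mm_113_s1 : ℕ → ℕ → ℕ → ℕ → Bool := onCell 536870912 536870912 0 1230186008 201326592 134217728
    (rowFK 0 false false false .nn 1 1 3 (qsf 536870912 536870912 0 1230186008 1) ndF0q1 ndF5q3 pcF1 cut_B05mm_113_s1 Ext.none)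

def k0_B05mm_113_s1 : ∃ t, chk3 f_B05mm_113_s1 t 1 1 1 = true :=
  ⟨(b (l 5) (a (l 5) (b (a (l 5) (l 3)) (l 3)))), by decide +kernel⟩

theorem c_B05mm_113_s1 : CertF 536870912 536870912 0 1230186008 201326592 134217728 false false false .nn 1 1 3
    ndF0q1 ndF5q3 pcF1 cut_B05mm_113_s1 Ext.none :=
  certFK0 (fam := false) (s1 := false) (s2 := false) (a := 1) (b := 1) (c := 3) (cn := .nn) (n1 := ndF0q1) (n2 := ndF5q3) (pc := pcF1) (cut := cut_B05mm_113_s1) (xt := Ext.none) (P1 := 536870912) (W1 := 536870912) (P2 := 0) (W2 := 1230186008) (P3 := 201326592) (W3 := 134217728)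
    rfl rfl rfl k0_B05mm_113_s1

theorem s_B05mm_113_s1 {κ x : ℝ} (hκ : κ * h0 = ken x) (hx : ((201326592 : ℕ) : ℝ) / S ≤ x)
    (hx' : x ≤ (((201326592 : ℕ) : ℝ) + (134217728 : ℕ)) / S) :
    AltB (VF κ) PP tKF tL pcF [⟨3, 0, 0, 1449551462⟩] 1 1 3 0 5 (sgb false) (sgb false) x :=
  strip_altB (m := 1449551462) true rfl hκ covF01 covF53 hx hx' c_B05mm_113_s1 cutB_nil (noExt_B)

noncomputable def cut_B05mm_123_s1 : Cut := Cut.of [[⟨4, 0, 0, 1449551462⟩]]

noncomputable def f_B05mm_123_s1 : ℕ → ℕ → ℕ → ℕ → Bool := onCell 1073741824 536870912 0 1230186008 201326592 134217728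
    (rowFK 2 false false false .npn 1 2 3 (qsf 536870912 536870912 0 1230186008 2) ndF0q1 ndF5q3 pcF2 cut_B05mm_123_s1 Ext.none)

def k0_B05mm_123_s1 : ∃ t, chk3 f_B05mm_123_s1 t 1 1 1 = true :=
  ⟨(b (l 5) (l 5)), by decide +kernel⟩

theorem c_B05mm_123_s1 : CertF 536870912 536870912 0 1230186008 201326592 134217728 false false false .npn 1 2 3
    ndF0q1 ndF5q3 pcF2 cut_B05mm_123_s1 Ext.none :=
  certFK2 (fam := false) (s1 := false) (s2 := false) (a := 1) (b := 2) (c := 3) (cn := .npn) (n1 := ndF0q1) (n2 := ndF5q3) (pc := pcF2) (cut := cut_B05mm_123_s1) (xt := Ext.none) (P1 := 536870912) (W1 := 536870912) (P2 := 0) (W2 := 1230186008) (P3 := 201326592) (W3 := 134217728)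
    rfl rfl rfl (fun _ => rfl) k0_B05mm_123_s1

theorem s_B05mm_123_s1 {κ x : ℝ} (hκ : κ * h0 = ken x) (hx : ((201326592 : ℕ) : ℝ) / S ≤ x)
    (hx' : x ≤ (((201326592 : ℕ) : ℝ) + (134217728 : ℕ)) / S) :
    AltB (VF κ) PP tKF tL pcF [⟨3, 0, 0, 1449551462⟩] 1 2 3 0 5 (sgb false) (sgb false) x :=
  strip_altB (m := 1449551462) true rfl hκ covF01 covF53 hx hx' c_B05mm_123_s1 cutB_nil (noExt_B)

noncomputable def cut_B05mm_133_s1 : Cut := Cut.of [[⟨4, 0, 0, 1449551462⟩]]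

noncomputable def f_B05mm_133_s1 : ℕ → ℕ → ℕ → ℕ → Bool := onCell 1610612736 536870912 0 1230186008 201326592 134217728
    (rowFK 2 false false false .dn 1 3 3 (qsf 536870912 536870912 0 1230186008 3) ndF0q1 ndF5q3 pcF3 cut_B05mm_133_s1 Ext.none)

def k0_B05mm_133_s1 : ∃ t, chk3 f_B05mm_133_s1 t 1 1 1 = true :=
  ⟨(l 5), by decide +kernel⟩

theorem c_B05mm_133_s1 : CertF 536870912 536870912 0 1230186008 201326592 134217728 false false false .dn 1 3 3
    ndF0q1 ndF5q3 pcF3 cut_B05mm_133_s1 Ext.none :=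
  certFK2 (fam := false) (s1 := false) (s2 := false) (a := 1) (b := 3) (c := 3) (cn := .dn) (n1 := ndF0q1) (n2 := ndF5q3) (pc := pcF3) (cut := cut_B05mm_133_s1) (xt := Ext.none) (P1 := 536870912) (W1 := 536870912) (P2 := 0) (W2 := 1230186008) (P3 := 201326592) (W3 := 134217728)
    rfl rfl rfl (fun _ => rfl) k0_B05mm_133_s1

theorem s_B05mm_133_s1 {κ x : ℝ} (hκ : κ * h0 = ken x) (hx : ((201326592 : ℕ) : ℝ) / S ≤ x)
    (hx' : x ≤ (((201326592 : ℕ) : ℝ) + (134217728 : ℕ)) / S) :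
    AltB (VF κ) PP tKF tL pcF [⟨3, 0, 0, 1449551462⟩] 1 3 3 0 5 (sgb false) (sgb false) x :=
  strip_altB (m := 1449551462) true rfl hκ covF01 covF53 hx hx' c_B05mm_133_s1 cutB_nil (noExt_B)

noncomputable def cut_B05mm_202_s1 : Cut := Cut.of [[⟨4, 0, 0, 1449551462⟩], [⟨0, 1, 0, 67108864⟩, ⟨1, 0, 0, 67108864⟩, ⟨2, 1, 0, 67108864⟩]]

noncomputable def xt_B05mm_202_s1 : Ext := strExt dd false false false .u2 .s2m .u0m .pp 2 0 2 rfl rfl gf0 vv ndF0q2 ndF5q2

noncomputable def f_B05mm_202_s1 : ℕ → ℕ → ℕ → ℕ → Bool := onCell 0 536870912 0 536870912 201326592 134217728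
    (rowFK 1 false false false .pp 2 0 2 (qsf 0 536870912 1073741824 536870912 0) ndF0q2 ndF5q2 pcF0 cut_B05mm_202_s1 xt_B05mm_202_s1)

def k0_B05mm_202_s1 : ∃ t, chk3 f_B05mm_202_s1 t 2 2 1 = true :=
  ⟨(b (a (l 6) (b (a (l 6) (b (l 6) (l 16938112))) (a (b (l 6) (l 16785384)) (b (l 16778032) (l 16785248))))) (a (b (l 6) (a (l 6) (b (l 16955880) (l 16985336)))) (b (a (b (l 16726936) (l 16841520)) (b (l 16758208) (l 16748352))) (a (b (l 16899640) (l 16919712)) (a (b (l 16856152) (l 16871296)) (l 16838152)))))), by decide +kernel⟩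

def k1_B05mm_202_s1 : ∃ t, chk3 f_B05mm_202_s1 t 3 2 1 = true :=
  ⟨(b (a (b (a (b (a (l 16959424) (l 16912560)) (l 16794072)) (b (b (l 16861296) (l 16795648)) (b (l 16724592) (l 16827160)))) (a (b (a (l 16666392) (l 16706064)) (b (l 16718072) (l 16732400))) (b (a (l 16781728) (b (l 16693024) (l 16697904))) (a (l 16770872) (l 16768064))))) (b (a (b (b (a (l 16803696) (b (l 16791712) (l 16760816))) (a (l 16738160) (a (l 16717480) (l 16798200)))) (a (b (l 16805584) (l 16751512)) (a (b (l 16758720) (l 16760856)) (b (b (l 16730368) (l 16734560)) (l 16765360))))) (b (a (b (l 14) (a (b (l 14) (l 16762488)) (l 14))) (l 14)) (a (a (b (b (a (l 16740560) (l 16749016)) (l 16772544)) (a (l 531750671) (l 531681295))) (a (a (l 531582735) (l 531547919)) (a (l 531780879) (b (l 531543311) (l 3))))) (b (a (a (a (l 531505679) (l 532807439)) (l 3)) (l 3)) (l 3))))) (a (a (b (b (a (l 16708944) (l 16724136)) (l 16760856)) (a (l 532096783)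 (l 532040975))) (a (b (l 532191503) (a (l 531968015) (l 531905551))) (b (a (l 531846159) (l 531781647)) (a (l 531841551) (l 3))))) (b (a (a (a (l 531714831) (l 532718607)) (l 3)) (l 3)) (l 3))))) (a (a (b (a (b (l 16646936) (l 16760048)) (b (l 16675264) (l 16747112))) (a (l 539181583) (b (l 537714703) (l 539485711)))) (b (a (b (l 16792856) (l 533419535)) (a (l 532754447) (l 532169999))) (a (l 537950223) (a (l 537153295) (l 3))))) (b (a (a (a (l 532915215) (b (l 532045583) (l 3))) (l 3)) (l 3)) (l 3)))), by decide +kernel⟩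

def k2_B05mm_202_s1 : ∃ t, chk3 f_B05mm_202_s1 t 1 3 1 = true :=
  ⟨(a (a (b (b (a (b (l 6) (l 17047280)) (b (l 16988240) (l 16977528))) (a (b (l 17031912) (l 17010736)) (l 192300743063))) (l 2)) (b (a (b (l 16910848) (b (l 16792640) (a (l 16867024) (l 542305295)))) (b (a (b (l 16864568) (l 16760528)) (l 541311759)) (a (b (l 542035983) (l 542453519)) (l 542388751)))) (a (l 2) (a (l 2) (l 3))))) (b (a (a (b (a (l 541282319) (b (l 540704527) (l 3))) (l 3)) (l 3)) (l 3)) (l 3))), by decide +kernel⟩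

theorem t3_B05mm_202_s1 : ∃ t, chk3 f_B05mm_202_s1 t 1 2 1 = true := ex3_a k0_B05mm_202_s1 k1_B05mm_202_s1

theorem t4_B05mm_202_s1 : ∃ t, chk3 f_B05mm_202_s1 t 1 1 1 = true := ex3_b t3_B05mm_202_s1 k2_B05mm_202_s1

theorem c_B05mm_202_s1 : CertF 0 536870912 1073741824 536870912 201326592 134217728 false false false .pp 2 0 2
    ndF0q2 ndF5q2 pcF0 cut_B05mm_202_s1 xt_B05mm_202_s1 :=
  certFK1 (fam := false) (s1 := false) (s2 := false) (a := 2) (b := 0) (c := 2) (cn := .pp) (n1 := ndF0q2) (n2 := ndF5q2) (pc := pcF0) (cut := cut_B05mm_202_s1) (xt := xt_B05mm_202_s1) (P1 := 0) (W1 := 536870912) (P2 := 1073741824) (W2 := 536870912) (P3 := 201326592) (W3 := 134217728)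
    rfl rfl rfl (fun _ => rfl) t4_B05mm_202_s1

theorem s_B05mm_202_s1 {κ x : ℝ} (hκ : κ * h0 = ken x) (hx : ((201326592 : ℕ) : ℝ) / S ≤ x)
    (hx' : x ≤ (((201326592 : ℕ) : ℝ) + (134217728 : ℕ)) / S)
    (H : CutB (VF κ) PP tKF tL pcF (Cut.of [[⟨0, 1, 0, 67108864⟩, ⟨1, 0, 0, 67108864⟩, ⟨2, 1, 0, 67108864⟩]]) 2 0 2 0 5 (sgb false) (sgb false) x) :
    AltB (VF κ) PP tKF tL pcF [⟨3, 0, 0, 1449551462⟩] 2 0 2 0 5 (sgb false) (sgb false) x :=
  strip_altB (m := 1449551462) true rfl hκ covF02 covF52 hx hx' c_B05mm_202_s1 H ((okx hx hx').extB (T := tt) (sideF hx hx') hκ rfl rfl (.O 2 false) (.N 2 false) (Or.inl rfl))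

noncomputable def cut_B05mm_203_s1 : Cut := Cut.of [[⟨4, 0, 0, 1449551462⟩]]

noncomputable def xt_B05mm_203_s1 : Ext := strExt dd false false false .u2 .s2m .u0m .up 2 0 3 rfl rfl gf0 vv ndF0q2 ndF5q3

noncomputable def f_B05mm_203_s1 : ℕ → ℕ → ℕ → ℕ → Bool := onCell 0 536870912 0 1230186008 201326592 134217728
    (rowFK 0 false false false .up 2 0 3 (qsf 0 536870912 0 1230186008 0) ndF0q2 ndF5q3 pcF0 cut_B05mm_203_s1 xt_B05mm_203_s1)

def k0_B05mm_203_s1 : ∃ t, chk3 f_B05mm_203_s1 t 1 1 1 = true :=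
  ⟨(b (l 2) (b (l 2) (a (a (b (b (l 2) (b (l 2) (a (l 542549263) (a (l 543016719) (l 3))))) (b (a (b (l 16860928) (l 16941328)) (b (c (l 544204559) (l 541768463)) (a (l 542522639) (l 542852623)))) (a (b (l 16976216) (l 17007144)) (a (b (l 16909360) (l 16945016)) (b (l 542531087) (l 16899464)))))) (b (l 3) (a (b (b (l 3) (a (l 543227407) (l 3))) (b (a (l 542806543) (l 543045391)) (a (l 543697679) (l 542562831)))) (b (l 3) (a (b (l 3) (a (l 542745871) (l 3))) (l 3)))))) (l 3)))), by decide +kernel⟩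

theorem c_B05mm_203_s1 : CertF 0 536870912 0 1230186008 201326592 134217728 false false false .up 2 0 3
    ndF0q2 ndF5q3 pcF0 cut_B05mm_203_s1 xt_B05mm_203_s1 :=
  certFK0 (fam := false) (s1 := false) (s2 := false) (a := 2) (b := 0) (c := 3) (cn := .up) (n1 := ndF0q2) (n2 := ndF5q3) (pc := pcF0) (cut := cut_B05mm_203_s1) (xt := xt_B05mm_203_s1) (P1 := 0) (W1 := 536870912) (P2 := 0) (W2 := 1230186008) (P3 := 201326592) (W3 := 134217728)
    rfl rfl rfl k0_B05mm_203_s1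

theorem s_B05mm_203_s1 {κ x : ℝ} (hκ : κ * h0 = ken x) (hx : ((201326592 : ℕ) : ℝ) / S ≤ x)
    (hx' : x ≤ (((201326592 : ℕ) : ℝ) + (134217728 : ℕ)) / S) :
    AltB (VF κ) PP tKF tL pcF [⟨3, 0, 0, 1449551462⟩] 2 0 3 0 5 (sgb false) (sgb false) x :=
  strip_altB (m := 1449551462) true rfl hκ covF02 covF53 hx hx' c_B05mm_203_s1 cutB_nil ((okx hx hx').extB (T := tt) (sideF hx hx') hκ rfl rfl (.O 2 false) (.N 3 false) (Or.inl rfl))

noncomputable def cut_B05mm_213_s1 : Cut := Cut.of [[⟨4, 0, 0, 1449551462⟩]]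

noncomputable def xt_B05mm_213_s1 : Ext := strExt dd false false false .u2 .s2m .u0m .pnn 2 1 3 rfl rfl gf1 vv ndF0q2 ndF5q3

noncomputable def f_B05mm_213_s1 : ℕ → ℕ → ℕ → ℕ → Bool := onCell 0 536870912 0 1230186008 201326592 134217728
    (rowFK 0 false false false .pnn 2 1 3 (qsf 0 536870912 0 1230186008 1) ndF0q2 ndF5q3 pcF1 cut_B05mm_213_s1 xt_B05mm_213_s1)

def k0_B05mm_213_s1 : ∃ t, chk3 f_B05mm_213_s1 t 1 1 1 = true :=
  ⟨(b (a (l 3) (b (l 5) (l 3))) (b (b (l 3) (a (a (l 3) (l 3)) (l 3))) (a (b (a (b (a (l 539251983) (l 3)) (a (b (l 539738639) (l 540203791)) (a (l 540252431) (b (l 3) (l 3))))) (l 3)) (a (l 1) (b (a (l 1) (l 3)) (l 1)))) (l 3)))), by decide +kernel⟩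

theorem c_B05mm_213_s1 : CertF 0 536870912 0 1230186008 201326592 134217728 false false false .pnn 2 1 3
    ndF0q2 ndF5q3 pcF1 cut_B05mm_213_s1 xt_B05mm_213_s1 :=
  certFK0 (fam := false) (s1 := false) (s2 := false) (a := 2) (b := 1) (c := 3) (cn := .pnn) (n1 := ndF0q2) (n2 := ndF5q3) (pc := pcF1) (cut := cut_B05mm_213_s1) (xt := xt_B05mm_213_s1) (P1 := 0) (W1 := 536870912) (P2 := 0) (W2 := 1230186008) (P3 := 201326592) (W3 := 134217728)
    rfl rfl rfl k0_B05mm_213_s1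

theorem s_B05mm_213_s1 {κ x : ℝ} (hκ : κ * h0 = ken x) (hx : ((201326592 : ℕ) : ℝ) / S ≤ x)
    (hx' : x ≤ (((201326592 : ℕ) : ℝ) + (134217728 : ℕ)) / S) :
    AltB (VF κ) PP tKF tL pcF [⟨3, 0, 0, 1449551462⟩] 2 1 3 0 5 (sgb false) (sgb false) x :=
  strip_altB (m := 1449551462) true rfl hκ covF02 covF53 hx hx' c_B05mm_213_s1 cutB_nil ((okx hx hx').extB (T := tt) (sideF hx hx') hκ rfl rfl (.O 2 false) (.N 3 false) (Or.inr rfl))

noncomputable def cut_B50pp_001_s1 : Cut := Cut.of [[⟨4, 0, 0, 1449551462⟩]]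

noncomputable def xt_B50pp_001_s1 : Ext := strExt dd false true true .s0 .u0 .u0m .up 0 0 1 rfl rfl gf0 vv ndF5q0 ndF0q1

noncomputable def f_B50pp_001_s1 : ℕ → ℕ → ℕ → ℕ → Bool := onCell 0 536870912 0 536870912 201326592 134217728
    (rowFK 1 false true true .up 0 0 1 (qsf 0 536870912 536870912 536870912 0) ndF5q0 ndF0q1 pcF0 cut_B50pp_001_s1 xt_B50pp_001_s1)

def k0_B50pp_001_s1 : ∃ t, chk3 f_B50pp_001_s1 t 1 1 1 = true :=
  ⟨(a (b (l 3) (a (l 3) (b (l 3) (b (l 3) (a (b (l 3) (a (l 546442767) (l 546465039))) (a (b (a (l 3) (l 547132175)) (l 546389775)) (b (l 547019279) (l 546270735)))))))) (b (l 3) (b (a (l 3) (a (b (l 3) (b (l 3) (l 547368719))) (b (b (l 3) (a (l 3) (l 546793487))) (a (b (l 546727695) (l 545981199)) (l 545723151))))) (a (a (b (b (l 3) (a (l 547653903) (l 547300879))) (b (a (l 546821903) (l 546394895)) (a (l 545828367) (l 16877288)))) (b (b (a (l 547514895) (l 546872591)) (l 546378511)) (b (l 545551119)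 (a (l 17008232) (l 17054864))))) (b (a (a (b (l 546314255) (l 545579279)) (b (l 545797903) (l 16988096))) (b (l 544971791) (l 544289039))) (a (b (l 544564751) (l 17123600)) (b (l 17142376) (l 17216528)))))))), by decide +kernel⟩

theorem c_B50pp_001_s1 : CertF 0 536870912 536870912 536870912 201326592 134217728 false true true .up 0 0 1
    ndF5q0 ndF0q1 pcF0 cut_B50pp_001_s1 xt_B50pp_001_s1 :=
  certFK1 (fam := false) (s1 := true) (s2 := true) (a := 0) (b := 0) (c := 1) (cn := .up) (n1 := ndF5q0) (n2 := ndF0q1) (pc := pcF0) (cut := cut_B50pp_001_s1) (xt := xt_B50pp_001_s1) (P1 := 0) (W1 := 536870912) (P2 := 536870912) (W2 := 536870912) (P3 := 201326592) (W3 := 134217728)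
    rfl rfl rfl (fun _ => rfl) k0_B50pp_001_s1

theorem s_B50pp_001_s1 {κ x : ℝ} (hκ : κ * h0 = ken x) (hx : ((201326592 : ℕ) : ℝ) / S ≤ x)
    (hx' : x ≤ (((201326592 : ℕ) : ℝ) + (134217728 : ℕ)) / S) :
    AltB (VF κ) PP tKF tL pcF [⟨3, 0, 0, 1449551462⟩] 0 0 1 5 0 (sgb true) (sgb true) x :=
  strip_altB (m := 1449551462) true rfl hκ covF50 covF01 hx hx' c_B50pp_001_s1 cutB_nil ((okx hx hx').extB (T := tt) (sideF hx hx') hκ rfl rfl (.N 0 true) (.O 1 true) (Or.inl rfl))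

noncomputable def cut_B50pp_011_s1 : Cut := Cut.of [[⟨4, 0, 0, 1449551462⟩]]

noncomputable def xt_B50pp_011_s1 : Ext := strExt dd false true true .s0 .u0 .u0m .pnn 0 1 1 rfl rfl gf1 vv ndF5q0 ndF0q1

noncomputable def f_B50pp_011_s1 : ℕ → ℕ → ℕ → ℕ → Bool := onCell 536870912 536870912 536870912 536870912 201326592 134217728
    (rowFK 2 false true true .pnn 0 1 1 (qsf 0 536870912 536870912 536870912 1) ndF5q0 ndF0q1 pcF1 cut_B50pp_011_s1 xt_B50pp_011_s1)

def k0_B50pp_011_s1 : ∃ t, chk3 f_B50pp_011_s1 t 1 1 1 = true :=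
  ⟨(a (a (b (b (a (b (l 3) (l 552894479)) (b (l 552596751) (l 551312911))) (b (b (a (a (l 552261647) (l 551455247)) (l 550442511)) (a (a (l 552146191) (l 551245327)) (l 550228751))) (a (a (b (l 551894287) (l 16942344)) (b (l 16919624) (l 17081064))) (b (l 549964047) (l 17157944))))) (a (b (b (a (b (l 17105864) (l 17183296)) (b (l 17156384) (l 17229512))) (b (l 17280144) (l 17347112))) (b (b (l 17405624) (l 17448400)) (l 6))) (b (b (b (l 17227344) (l 17294336)) (l 17391880)) (b (l 17500240) (l 6))))) (a (b (a (b (b (l 1) (l 550750735)) (b (l 549529103) (l 17195312))) (b (l 1) (b (l 17038104) (l 17242920)))) (b (b (l 17345776) (l 17459832)) (l 6))) (b (b (l 1) (b (a (l 17184576) (l 1)) (l 17321152))) (b (b (l 17427296) (l 6)) (l 6))))) (b (a (a (b (l 1) (b (l 1) (l 17434032))) (l 1)) (l 1)) (a (a (b (l 6) (l 6)) (l 6)) (l 6)))), by decide +kernel⟩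

theorem c_B50pp_011_s1 : CertF 0 536870912 536870912 536870912 201326592 134217728 false true true .pnn 0 1 1
    ndF5q0 ndF0q1 pcF1 cut_B50pp_011_s1 xt_B50pp_011_s1 :=
  certFK2 (fam := false) (s1 := true) (s2 := true) (a := 0) (b := 1) (c := 1) (cn := .pnn) (n1 := ndF5q0) (n2 := ndF0q1) (pc := pcF1) (cut := cut_B50pp_011_s1) (xt := xt_B50pp_011_s1) (P1 := 0) (W1 := 536870912) (P2 := 536870912) (W2 := 536870912) (P3 := 201326592) (W3 := 134217728)
    rfl rfl rfl (fun _ => rfl) k0_B50pp_011_s1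

theorem s_B50pp_011_s1 {κ x : ℝ} (hκ : κ * h0 = ken x) (hx : ((201326592 : ℕ) : ℝ) / S ≤ x)
    (hx' : x ≤ (((201326592 : ℕ) : ℝ) + (134217728 : ℕ)) / S) :
    AltB (VF κ) PP tKF tL pcF [⟨3, 0, 0, 1449551462⟩] 0 1 1 5 0 (sgb true) (sgb true) x :=
  strip_altB (m := 1449551462) true rfl hκ covF50 covF01 hx hx' c_B50pp_011_s1 cutB_nil ((okx hx hx').extB (T := tt) (sideF hx hx') hκ rfl rfl (.N 0 true) (.O 1 true) (Or.inr rfl))

noncomputable def cut_B50pp_012_s1 : Cut := Cut.of [[⟨4, 0, 0, 1449551462⟩]]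

noncomputable def f_B50pp_012_s1 : ℕ → ℕ → ℕ → ℕ → Bool := onCell 0 536870912 0 536870912 201326592 134217728
    (rowFK 0 false true true .pnp 0 1 2 (qsf 0 536870912 0 536870912 1) ndF5q0 ndF0q2 pcF1 cut_B50pp_012_s1 Ext.none)

def k0_B50pp_012_s1 : ∃ t, chk3 f_B50pp_012_s1 t 1 1 1 = true :=
  ⟨(a (l 6) (l 6)), by decide +kernel⟩

theorem c_B50pp_012_s1 : CertF 0 536870912 0 536870912 201326592 134217728 false true true .pnp 0 1 2
    ndF5q0 ndF0q2 pcF1 cut_B50pp_012_s1 Ext.none :=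
  certFK0 (fam := false) (s1 := true) (s2 := true) (a := 0) (b := 1) (c := 2) (cn := .pnp) (n1 := ndF5q0) (n2 := ndF0q2) (pc := pcF1) (cut := cut_B50pp_012_s1) (xt := Ext.none) (P1 := 0) (W1 := 536870912) (P2 := 0) (W2 := 536870912) (P3 := 201326592) (W3 := 134217728)
    rfl rfl rfl k0_B50pp_012_s1

theorem s_B50pp_012_s1 {κ x : ℝ} (hκ : κ * h0 = ken x) (hx : ((201326592 : ℕ) : ℝ) / S ≤ x)
    (hx' : x ≤ (((201326592 : ℕ) : ℝ) + (134217728 : ℕ)) / S) :
    AltB (VF κ) PP tKF tL pcF [⟨3, 0, 0, 1449551462⟩] 0 1 2 5 0 (sgb true) (sgb true) x :=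
  strip_altB (m := 1449551462) true rfl hκ covF50 covF02 hx hx' c_B50pp_012_s1 cutB_nil (noExt_B)

noncomputable def cut_B50pp_022_s1 : Cut := Cut.of [[⟨4, 0, 0, 1449551462⟩]]

noncomputable def f_B50pp_022_s1 : ℕ → ℕ → ℕ → ℕ → Bool := onCell 1073741824 536870912 0 536870912 201326592 134217728
    (rowFK 2 false true true .pp 0 2 2 (qsf 0 536870912 0 536870912 2) ndF5q0 ndF0q2 pcF2 cut_B50pp_022_s1 Ext.none)

def k0_B50pp_022_s1 : ∃ t, chk3 f_B50pp_022_s1 t 1 1 1 = true :=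
  ⟨(l 6), by decide +kernel⟩

theorem c_B50pp_022_s1 : CertF 0 536870912 0 536870912 201326592 134217728 false true true .pp 0 2 2
    ndF5q0 ndF0q2 pcF2 cut_B50pp_022_s1 Ext.none :=
  certFK2 (fam := false) (s1 := true) (s2 := true) (a := 0) (b := 2) (c := 2) (cn := .pp) (n1 := ndF5q0) (n2 := ndF0q2) (pc := pcF2) (cut := cut_B50pp_022_s1) (xt := Ext.none) (P1 := 0) (W1 := 536870912) (P2 := 0) (W2 := 536870912) (P3 := 201326592) (W3 := 134217728)
    rfl rfl rfl (fun _ => rfl) k0_B50pp_022_s1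

theorem s_B50pp_022_s1 {κ x : ℝ} (hκ : κ * h0 = ken x) (hx : ((201326592 : ℕ) : ℝ) / S ≤ x)
    (hx' : x ≤ (((201326592 : ℕ) : ℝ) + (134217728 : ℕ)) / S) :
    AltB (VF κ) PP tKF tL pcF [⟨3, 0, 0, 1449551462⟩] 0 2 2 5 0 (sgb true) (sgb true) x :=
  strip_altB (m := 1449551462) true rfl hκ covF50 covF02 hx hx' c_B50pp_022_s1 cutB_nil (noExt_B)

noncomputable def cut_B50pp_101_s1 : Cut := Cut.of [[⟨4, 0, 0, 1449551462⟩], [⟨0, 1, 0, 67108864⟩, ⟨1, 0, 0, 67108864⟩, ⟨2, 1, 0, 67108864⟩]]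

noncomputable def xt_B50pp_101_s1 : Ext := strExt dd false true true .s0 .u0 .u0m .npn 1 0 1 rfl rfl gf0 vv ndF5q1 ndF0q1

noncomputable def f_B50pp_101_s1 : ℕ → ℕ → ℕ → ℕ → Bool := onCell 536870912 536870912 536870912 536870912 201326592 134217728
    (rowFK 0 false true true .npn 1 0 1 (qsf 536870912 536870912 536870912 536870912 0) ndF5q1 ndF0q1 pcF0 cut_B50pp_101_s1 xt_B50pp_101_s1)

def k0_B50pp_101_s1 : ∃ t, chk3 f_B50pp_101_s1 t 1 1 1 = true :=
  ⟨(a (b (l 3) (b (a (b (b (l 3) (a (l 546315535) (l 3))) (a (b (l 545656847) (l 545011983)) (b (l 544796431) (l 544265231)))) (b (l 3) (a (b (l 3) (l 541798415)) (l 3)))) (a (b (a (b (a (l 17004016) (l 16961112)) (l 17068848)) (b (l 543729423) (l 543197455))) (b (a (l 17150472) (l 17052552)) (a (l 6) (l 17130968)))) (b (a (b (l 541490959) (l 541145359)) (b (l 535409679) (l 535550479))) (b (a (l 540823311) (a (l 16794352) (l 16744792))) (a (l 16975032) (l 16651632)))))))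 (b (l 3) (a (b (l 3) (b (b (l 3) (a (a (l 530395919) (l 530691087)) (a (a (l 530464015) (l 3)) (l 3)))) (a (b (a (l 530686479) (l 530707983)) (a (l 16674136) (l 16706440))) (a (b (l 532067343) (l 531100943)) (b (a (l 530761487) (l 530743567)) (b (l 530993935) (l 16664160))))))) (b (l 3) (b (l 3) (a (b (b (l 3) (a (l 532335375) (a (l 530788879) (l 3)))) (a (b (l 531732239) (l 16757928)) (a (l 532093455) (b (l 530933263) (l 531146767))))) (b (l 3) (a (a (a (a (l 531012879) (l 14)) (l 14)) (l 14)) (l 14))))))))), by decide +kernel⟩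

theorem c_B50pp_101_s1 : CertF 536870912 536870912 536870912 536870912 201326592 134217728 false true true .npn 1 0 1
    ndF5q1 ndF0q1 pcF0 cut_B50pp_101_s1 xt_B50pp_101_s1 :=
  certFK0 (fam := false) (s1 := true) (s2 := true) (a := 1) (b := 0) (c := 1) (cn := .npn) (n1 := ndF5q1) (n2 := ndF0q1) (pc := pcF0) (cut := cut_B50pp_101_s1) (xt := xt_B50pp_101_s1) (P1 := 536870912) (W1 := 536870912) (P2 := 536870912) (W2 := 536870912) (P3 := 201326592) (W3 := 134217728)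
    rfl rfl rfl k0_B50pp_101_s1

theorem s_B50pp_101_s1 {κ x : ℝ} (hκ : κ * h0 = ken x) (hx : ((201326592 : ℕ) : ℝ) / S ≤ x)
    (hx' : x ≤ (((201326592 : ℕ) : ℝ) + (134217728 : ℕ)) / S)
    (H : CutB (VF κ) PP tKF tL pcF (Cut.of [[⟨0, 1, 0, 67108864⟩, ⟨1, 0, 0, 67108864⟩, ⟨2, 1, 0, 67108864⟩]]) 1 0 1 5 0 (sgb true) (sgb true) x) :
    AltB (VF κ) PP tKF tL pcF [⟨3, 0, 0, 1449551462⟩] 1 0 1 5 0 (sgb true) (sgb true) x :=
  strip_altB (m := 1449551462) true rfl hκ covF51 covF01 hx hx' c_B50pp_101_s1 H ((okx hx hx').extB (T := tt) (sideF hx hx') hκ rfl rfl (.N 1 true) (.O 1 true) (Or.inl rfl))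

noncomputable def cut_B50pp_102_s1 : Cut := Cut.of [[⟨4, 0, 0, 1449551462⟩], [⟨0, 1, 0, 67108864⟩, ⟨1, 0, 0, 67108864⟩, ⟨2, 1, 0, 67108864⟩]]

noncomputable def f_B50pp_102_s1 : ℕ → ℕ → ℕ → ℕ → Bool := onCell 536870912 536870912 0 536870912 201326592 134217728
    (rowFK 0 false true true .npp 1 0 2 (qsf 536870912 536870912 0 536870912 0) ndF5q1 ndF0q2 pcF0 cut_B50pp_102_s1 Ext.none)

def k0_B50pp_102_s1 : ∃ t, chk3 f_B50pp_102_s1 t 1 1 1 = true :=
  ⟨(a (b (l 6) (a (l 6) (b (l 6) (b (l 6) (a (l 17067920) (l 16821248)))))) (b (l 6) (b (a (l 6) (b (l 6) (a (a (l 6) (l 16591104)) (a (l 16653144) (l 16694424))))) (a (b (a (l 16635120) (l 16496680)) (a (l 16673712) (b (l 16550976) (l 16671816)))) (b (b (a (l 16622512) (a (l 16599600) (l 16674952))) (a (l 16650144) (a (l 16696920) (a (l 16647416) (l 16689200))))) (b (a (l 16713656) (a (b (l 16639680) (l 16663832)) (a (b (l 16663728) (l 14)) (l 14)))) (a (b (l 16725912)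 (a (l 16652696) (l 16683112))) (a (b (l 16730592) (b (l 16748696) (l 16754544))) (l 14))))))))), by decide +kernel⟩

theorem c_B50pp_102_s1 : CertF 536870912 536870912 0 536870912 201326592 134217728 false true true .npp 1 0 2
    ndF5q1 ndF0q2 pcF0 cut_B50pp_102_s1 Ext.none :=
  certFK0 (fam := false) (s1 := true) (s2 := true) (a := 1) (b := 0) (c := 2) (cn := .npp) (n1 := ndF5q1) (n2 := ndF0q2) (pc := pcF0) (cut := cut_B50pp_102_s1) (xt := Ext.none) (P1 := 536870912) (W1 := 536870912) (P2 := 0) (W2 := 536870912) (P3 := 201326592) (W3 := 134217728)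
    rfl rfl rfl k0_B50pp_102_s1

theorem s_B50pp_102_s1 {κ x : ℝ} (hκ : κ * h0 = ken x) (hx : ((201326592 : ℕ) : ℝ) / S ≤ x)
    (hx' : x ≤ (((201326592 : ℕ) : ℝ) + (134217728 : ℕ)) / S)
    (H : CutB (VF κ) PP tKF tL pcF (Cut.of [[⟨0, 1, 0, 67108864⟩, ⟨1, 0, 0, 67108864⟩, ⟨2, 1, 0, 67108864⟩]]) 1 0 2 5 0 (sgb true) (sgb true) x) :
    AltB (VF κ) PP tKF tL pcF [⟨3, 0, 0, 1449551462⟩] 1 0 2 5 0 (sgb true) (sgb true) x :=
  strip_altB (m := 1449551462) true rfl hκ covF51 covF02 hx hx' c_B50pp_102_s1 H (noExt_B)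

noncomputable def cut_B50pp_112_s1 : Cut := Cut.of [[⟨4, 0, 0, 1449551462⟩]]

noncomputable def f_B50pp_112_s1 : ℕ → ℕ → ℕ → ℕ → Bool := onCell 536870912 536870912 0 536870912 201326592 134217728
    (rowFK 2 false true true .dn 1 1 2 (qsf 536870912 536870912 0 536870912 1) ndF5q1 ndF0q2 pcF1 cut_B50pp_112_s1 Ext.none)

def k0_B50pp_112_s1 : ∃ t, chk3 f_B50pp_112_s1 t 1 1 1 = true :=
  ⟨(a (l 6) (l 1)), by decide +kernel⟩

theorem c_B50pp_112_s1 : CertF 536870912 536870912 0 536870912 201326592 134217728 false true true .dn 1 1 2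
    ndF5q1 ndF0q2 pcF1 cut_B50pp_112_s1 Ext.none :=
  certFK2 (fam := false) (s1 := true) (s2 := true) (a := 1) (b := 1) (c := 2) (cn := .dn) (n1 := ndF5q1) (n2 := ndF0q2) (pc := pcF1) (cut := cut_B50pp_112_s1) (xt := Ext.none) (P1 := 536870912) (W1 := 536870912) (P2 := 0) (W2 := 536870912) (P3 := 201326592) (W3 := 134217728)
    rfl rfl rfl (fun _ => rfl) k0_B50pp_112_s1

theorem s_B50pp_112_s1 {κ x : ℝ} (hκ : κ * h0 = ken x) (hx : ((201326592 : ℕ) : ℝ) / S ≤ x)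
    (hx' : x ≤ (((201326592 : ℕ) : ℝ) + (134217728 : ℕ)) / S) :
    AltB (VF κ) PP tKF tL pcF [⟨3, 0, 0, 1449551462⟩] 1 1 2 5 0 (sgb true) (sgb true) x :=
  strip_altB (m := 1449551462) true rfl hκ covF51 covF02 hx hx' c_B50pp_112_s1 cutB_nil (noExt_B)

noncomputable def cut_B50pp_202_s1 : Cut := Cut.of [[⟨4, 0, 0, 1449551462⟩], [⟨0, 1, 0, 67108864⟩, ⟨1, 0, 0, 67108864⟩, ⟨2, 1, 0, 67108864⟩]]

noncomputable def f_B50pp_202_s1 : ℕ → ℕ → ℕ → ℕ → Bool := onCell 0 536870912 0 536870912 201326592 134217728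
    (rowFK 2 false true true .pp 2 0 2 (qsf 1073741824 536870912 0 536870912 0) ndF5q2 ndF0q2 pcF0 cut_B50pp_202_s1 Ext.none)

def k0_B50pp_202_s1 : ∃ t, chk3 f_B50pp_202_s1 t 1 1 1 = true :=
  ⟨(a (b (a (l 6) (l 6)) (a (b (a (b (a (l 16965208) (l 16928584)) (a (l 16863096) (l 16806272))) (b (l 6) (a (l 16754584) (l 16707944)))) (a (b (a (b (l 16802272) (l 14)) (b (l 16741016) (a (l 14) (l 16697176)))) (a (l 14) (a (l 14) (l 1)))) (b (a (b (l 16686528) (l 1)) (l 1)) (l 1)))) (b (l 1) (l 1)))) (l 1)), by decide +kernel⟩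

theorem c_B50pp_202_s1 : CertF 1073741824 536870912 0 536870912 201326592 134217728 false true true .pp 2 0 2
    ndF5q2 ndF0q2 pcF0 cut_B50pp_202_s1 Ext.none :=
  certFK2 (fam := false) (s1 := true) (s2 := true) (a := 2) (b := 0) (c := 2) (cn := .pp) (n1 := ndF5q2) (n2 := ndF0q2) (pc := pcF0) (cut := cut_B50pp_202_s1) (xt := Ext.none) (P1 := 1073741824) (W1 := 536870912) (P2 := 0) (W2 := 536870912) (P3 := 201326592) (W3 := 134217728)
    rfl rfl rfl (fun _ => rfl) k0_B50pp_202_s1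

theorem s_B50pp_202_s1 {κ x : ℝ} (hκ : κ * h0 = ken x) (hx : ((201326592 : ℕ) : ℝ) / S ≤ x)
    (hx' : x ≤ (((201326592 : ℕ) : ℝ) + (134217728 : ℕ)) / S)
    (H : CutB (VF κ) PP tKF tL pcF (Cut.of [[⟨0, 1, 0, 67108864⟩, ⟨1, 0, 0, 67108864⟩, ⟨2, 1, 0, 67108864⟩]]) 2 0 2 5 0 (sgb true) (sgb true) x) :
    AltB (VF κ) PP tKF tL pcF [⟨3, 0, 0, 1449551462⟩] 2 0 2 5 0 (sgb true) (sgb true) x :=
  strip_altB (m := 1449551462) true rfl hκ covF52 covF02 hx hx' c_B50pp_202_s1 H (noExt_B)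

noncomputable def cut_B50pm_001_s1 : Cut := Cut.of [[⟨4, 0, 0, 1449551462⟩]]

noncomputable def f_B50pm_001_s1 : ℕ → ℕ → ℕ → ℕ → Bool := onCell 0 536870912 536870912 536870912 201326592 134217728
    (rowFK 0 false true false .up 0 0 1 (qsf 0 536870912 536870912 536870912 0) ndF5q0 ndF0q1 pcF0 cut_B50pm_001_s1 Ext.none)

def k0_B50pm_001_s1 : ∃ t, chk3 f_B50pm_001_s1 t 1 1 1 = true :=
  ⟨(l 4), by decide +kernel⟩

theorem c_B50pm_001_s1 : CertF 0 536870912 536870912 536870912 201326592 134217728 false true false .up 0 0 1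
    ndF5q0 ndF0q1 pcF0 cut_B50pm_001_s1 Ext.none :=
  certFK0 (fam := false) (s1 := true) (s2 := false) (a := 0) (b := 0) (c := 1) (cn := .up) (n1 := ndF5q0) (n2 := ndF0q1) (pc := pcF0) (cut := cut_B50pm_001_s1) (xt := Ext.none) (P1 := 0) (W1 := 536870912) (P2 := 536870912) (W2 := 536870912) (P3 := 201326592) (W3 := 134217728)
    rfl rfl rfl k0_B50pm_001_s1

theorem s_B50pm_001_s1 {κ x : ℝ} (hκ : κ * h0 = ken x) (hx : ((201326592 : ℕ) : ℝ) / S ≤ x)
    (hx' : x ≤ (((201326592 : ℕ) : ℝ) + (134217728 : ℕ)) / S) :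
    AltB (VF κ) PP tKF tL pcF [⟨3, 0, 0, 1449551462⟩] 0 0 1 5 0 (sgb true) (sgb false) x :=
  strip_altB (m := 1449551462) true rfl hκ covF50 covF01 hx hx' c_B50pm_001_s1 cutB_nil (noExt_B)

noncomputable def cut_B50pm_011_s1 : Cut := Cut.of [[⟨4, 0, 0, 1449551462⟩]]

noncomputable def f_B50pm_011_s1 : ℕ → ℕ → ℕ → ℕ → Bool := onCell 0 536870912 536870912 536870912 201326592 134217728
    (rowFK 0 false true false .pnn 0 1 1 (qsf 0 536870912 536870912 536870912 1) ndF5q0 ndF0q1 pcF1 cut_B50pm_011_s1 Ext.none)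

def k0_B50pm_011_s1 : ∃ t, chk3 f_B50pm_011_s1 t 1 1 1 = true :=
  ⟨(l 4), by decide +kernel⟩

theorem c_B50pm_011_s1 : CertF 0 536870912 536870912 536870912 201326592 134217728 false true false .pnn 0 1 1
    ndF5q0 ndF0q1 pcF1 cut_B50pm_011_s1 Ext.none :=
  certFK0 (fam := false) (s1 := true) (s2 := false) (a := 0) (b := 1) (c := 1) (cn := .pnn) (n1 := ndF5q0) (n2 := ndF0q1) (pc := pcF1) (cut := cut_B50pm_011_s1) (xt := Ext.none) (P1 := 0) (W1 := 536870912) (P2 := 536870912) (W2 := 536870912) (P3 := 201326592) (W3 := 134217728)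
    rfl rfl rfl k0_B50pm_011_s1

theorem s_B50pm_011_s1 {κ x : ℝ} (hκ : κ * h0 = ken x) (hx : ((201326592 : ℕ) : ℝ) / S ≤ x)
    (hx' : x ≤ (((201326592 : ℕ) : ℝ) + (134217728 : ℕ)) / S) :
    AltB (VF κ) PP tKF tL pcF [⟨3, 0, 0, 1449551462⟩] 0 1 1 5 0 (sgb true) (sgb false) x :=
  strip_altB (m := 1449551462) true rfl hκ covF50 covF01 hx hx' c_B50pm_011_s1 cutB_nil (noExt_B)

noncomputable def cut_B50pm_012_s1 : Cut := Cut.of [[⟨4, 0, 0, 1449551462⟩]]

noncomputable def f_B50pm_012_s1 : ℕ → ℕ → ℕ → ℕ → Bool := onCell 0 536870912 0 536870912 201326592 134217728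
    (rowFK 0 false true false .pnp 0 1 2 (qsf 0 536870912 0 536870912 1) ndF5q0 ndF0q2 pcF1 cut_B50pm_012_s1 Ext.none)

def k0_B50pm_012_s1 : ∃ t, chk3 f_B50pm_012_s1 t 1 1 1 = true :=
  ⟨(l 6), by decide +kernel⟩

theorem c_B50pm_012_s1 : CertF 0 536870912 0 536870912 201326592 134217728 false true false .pnp 0 1 2
    ndF5q0 ndF0q2 pcF1 cut_B50pm_012_s1 Ext.none :=
  certFK0 (fam := false) (s1 := true) (s2 := false) (a := 0) (b := 1) (c := 2) (cn := .pnp) (n1 := ndF5q0) (n2 := ndF0q2) (pc := pcF1) (cut := cut_B50pm_012_s1) (xt := Ext.none) (P1 := 0) (W1 := 536870912) (P2 := 0) (W2 := 536870912) (P3 := 201326592) (W3 := 134217728)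
    rfl rfl rfl k0_B50pm_012_s1

theorem s_B50pm_012_s1 {κ x : ℝ} (hκ : κ * h0 = ken x) (hx : ((201326592 : ℕ) : ℝ) / S ≤ x)
    (hx' : x ≤ (((201326592 : ℕ) : ℝ) + (134217728 : ℕ)) / S) :
    AltB (VF κ) PP tKF tL pcF [⟨3, 0, 0, 1449551462⟩] 0 1 2 5 0 (sgb true) (sgb false) x :=
  strip_altB (m := 1449551462) true rfl hκ covF50 covF02 hx hx' c_B50pm_012_s1 cutB_nil (noExt_B)

noncomputable def cut_B50pm_022_s1 : Cut := Cut.of [[⟨4, 0, 0, 1449551462⟩]]

noncomputable def f_B50pm_022_s1 : ℕ → ℕ → ℕ → ℕ → Bool := onCell 0 536870912 0 536870912 201326592 134217728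
    (rowFK 0 false true false .pp 0 2 2 (qsf 0 536870912 0 536870912 2) ndF5q0 ndF0q2 pcF2 cut_B50pm_022_s1 Ext.none)

def k0_B50pm_022_s1 : ∃ t, chk3 f_B50pm_022_s1 t 1 1 1 = true :=
  ⟨(l 6), by decide +kernel⟩

theorem c_B50pm_022_s1 : CertF 0 536870912 0 536870912 201326592 134217728 false true false .pp 0 2 2
    ndF5q0 ndF0q2 pcF2 cut_B50pm_022_s1 Ext.none :=
  certFK0 (fam := false) (s1 := true) (s2 := false) (a := 0) (b := 2) (c := 2) (cn := .pp) (n1 := ndF5q0) (n2 := ndF0q2) (pc := pcF2) (cut := cut_B50pm_022_s1) (xt := Ext.none) (P1 := 0) (W1 := 536870912) (P2 := 0) (W2 := 536870912) (P3 := 201326592) (W3 := 134217728)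
    rfl rfl rfl k0_B50pm_022_s1

theorem s_B50pm_022_s1 {κ x : ℝ} (hκ : κ * h0 = ken x) (hx : ((201326592 : ℕ) : ℝ) / S ≤ x)
    (hx' : x ≤ (((201326592 : ℕ) : ℝ) + (134217728 : ℕ)) / S) :
    AltB (VF κ) PP tKF tL pcF [⟨3, 0, 0, 1449551462⟩] 0 2 2 5 0 (sgb true) (sgb false) x :=
  strip_altB (m := 1449551462) true rfl hκ covF50 covF02 hx hx' c_B50pm_022_s1 cutB_nil (noExt_B)

noncomputable def cut_B50pm_101_s1 : Cut := Cut.of [[⟨4, 0, 0, 1449551462⟩]]

noncomputable def f_B50pm_101_s1 : ℕ → ℕ → ℕ → ℕ → Bool := onCell 536870912 536870912 536870912 536870912 201326592 134217728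
    (rowFK 0 false true false .npn 1 0 1 (qsf 536870912 536870912 536870912 536870912 0) ndF5q1 ndF0q1 pcF0 cut_B50pm_101_s1 Ext.none)

def k0_B50pm_101_s1 : ∃ t, chk3 f_B50pm_101_s1 t 1 1 1 = true :=
  ⟨(l 4), by decide +kernel⟩

theorem c_B50pm_101_s1 : CertF 536870912 536870912 536870912 536870912 201326592 134217728 false true false .npn 1 0 1
    ndF5q1 ndF0q1 pcF0 cut_B50pm_101_s1 Ext.none :=
  certFK0 (fam := false) (s1 := true) (s2 := false) (a := 1) (b := 0) (c := 1) (cn := .npn) (n1 := ndF5q1) (n2 := ndF0q1) (pc := pcF0) (cut := cut_B50pm_101_s1) (xt := Ext.none) (P1 := 536870912) (W1 := 536870912) (P2 := 536870912) (W2 := 536870912) (P3 := 201326592) (W3 := 134217728)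
    rfl rfl rfl k0_B50pm_101_s1

theorem s_B50pm_101_s1 {κ x : ℝ} (hκ : κ * h0 = ken x) (hx : ((201326592 : ℕ) : ℝ) / S ≤ x)
    (hx' : x ≤ (((201326592 : ℕ) : ℝ) + (134217728 : ℕ)) / S) :
    AltB (VF κ) PP tKF tL pcF [⟨3, 0, 0, 1449551462⟩] 1 0 1 5 0 (sgb true) (sgb false) x :=
  strip_altB (m := 1449551462) true rfl hκ covF51 covF01 hx hx' c_B50pm_101_s1 cutB_nil (noExt_B)

noncomputable def cut_B50pm_102_s1 : Cut := Cut.of [[⟨4, 0, 0, 1449551462⟩]]

noncomputable def f_B50pm_102_s1 : ℕ → ℕ → ℕ → ℕ → Bool := onCell 536870912 536870912 0 536870912 201326592 134217728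
    (rowFK 0 false true false .npp 1 0 2 (qsf 536870912 536870912 0 536870912 0) ndF5q1 ndF0q2 pcF0 cut_B50pm_102_s1 Ext.none)

def k0_B50pm_102_s1 : ∃ t, chk3 f_B50pm_102_s1 t 1 1 1 = true :=
  ⟨(l 6), by decide +kernel⟩

theorem c_B50pm_102_s1 : CertF 536870912 536870912 0 536870912 201326592 134217728 false true false .npp 1 0 2
    ndF5q1 ndF0q2 pcF0 cut_B50pm_102_s1 Ext.none :=
  certFK0 (fam := false) (s1 := true) (s2 := false) (a := 1) (b := 0) (c := 2) (cn := .npp) (n1 := ndF5q1) (n2 := ndF0q2) (pc := pcF0) (cut := cut_B50pm_102_s1) (xt := Ext.none) (P1 := 536870912) (W1 := 536870912) (P2 := 0) (W2 := 536870912) (P3 := 201326592) (W3 := 134217728)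
    rfl rfl rfl k0_B50pm_102_s1

theorem s_B50pm_102_s1 {κ x : ℝ} (hκ : κ * h0 = ken x) (hx : ((201326592 : ℕ) : ℝ) / S ≤ x)
    (hx' : x ≤ (((201326592 : ℕ) : ℝ) + (134217728 : ℕ)) / S) :
    AltB (VF κ) PP tKF tL pcF [⟨3, 0, 0, 1449551462⟩] 1 0 2 5 0 (sgb true) (sgb false) x :=
  strip_altB (m := 1449551462) true rfl hκ covF51 covF02 hx hx' c_B50pm_102_s1 cutB_nil (noExt_B)

noncomputable def cut_B50pm_112_s1 : Cut := Cut.of [[⟨4, 0, 0, 1449551462⟩]]

noncomputable def f_B50pm_112_s1 : ℕ → ℕ → ℕ → ℕ → Bool := onCell 536870912 536870912 0 536870912 201326592 134217728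
    (rowFK 0 false true false .dn 1 1 2 (qsf 536870912 536870912 0 536870912 1) ndF5q1 ndF0q2 pcF1 cut_B50pm_112_s1 Ext.none)

def k0_B50pm_112_s1 : ∃ t, chk3 f_B50pm_112_s1 t 1 1 1 = true :=
  ⟨(l 6), by decide +kernel⟩

theorem c_B50pm_112_s1 : CertF 536870912 536870912 0 536870912 201326592 134217728 false true false .dn 1 1 2
    ndF5q1 ndF0q2 pcF1 cut_B50pm_112_s1 Ext.none :=
  certFK0 (fam := false) (s1 := true) (s2 := false) (a := 1) (b := 1) (c := 2) (cn := .dn) (n1 := ndF5q1) (n2 := ndF0q2) (pc := pcF1) (cut := cut_B50pm_112_s1) (xt := Ext.none) (P1 := 536870912) (W1 := 536870912) (P2 := 0) (W2 := 536870912) (P3 := 201326592) (W3 := 134217728)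
    rfl rfl rfl k0_B50pm_112_s1

theorem s_B50pm_112_s1 {κ x : ℝ} (hκ : κ * h0 = ken x) (hx : ((201326592 : ℕ) : ℝ) / S ≤ x)
    (hx' : x ≤ (((201326592 : ℕ) : ℝ) + (134217728 : ℕ)) / S) :
    AltB (VF κ) PP tKF tL pcF [⟨3, 0, 0, 1449551462⟩] 1 1 2 5 0 (sgb true) (sgb false) x :=
  strip_altB (m := 1449551462) true rfl hκ covF51 covF02 hx hx' c_B50pm_112_s1 cutB_nil (noExt_B)

noncomputable def cut_B50pm_202_s1 : Cut := Cut.of [[⟨4, 0, 0, 1449551462⟩]]

noncomputable def f_B50pm_202_s1 : ℕ → ℕ → ℕ → ℕ → Bool := onCell 0 536870912 0 536870912 201326592 134217728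
    (rowFK 2 false true false .pp 2 0 2 (qsf 1073741824 536870912 0 536870912 0) ndF5q2 ndF0q2 pcF0 cut_B50pm_202_s1 Ext.none)

def k0_B50pm_202_s1 : ∃ t, chk3 f_B50pm_202_s1 t 1 1 1 = true :=
  ⟨(l 6), by decide +kernel⟩

theorem c_B50pm_202_s1 : CertF 1073741824 536870912 0 536870912 201326592 134217728 false true false .pp 2 0 2
    ndF5q2 ndF0q2 pcF0 cut_B50pm_202_s1 Ext.none :=
  certFK2 (fam := false) (s1 := true) (s2 := false) (a := 2) (b := 0) (c := 2) (cn := .pp) (n1 := ndF5q2) (n2 := ndF0q2) (pc := pcF0) (cut := cut_B50pm_202_s1) (xt := Ext.none) (P1 := 1073741824) (W1 := 536870912) (P2 := 0) (W2 := 536870912) (P3 := 201326592) (W3 := 134217728)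
    rfl rfl rfl (fun _ => rfl) k0_B50pm_202_s1

theorem s_B50pm_202_s1 {κ x : ℝ} (hκ : κ * h0 = ken x) (hx : ((201326592 : ℕ) : ℝ) / S ≤ x)
    (hx' : x ≤ (((201326592 : ℕ) : ℝ) + (134217728 : ℕ)) / S) :
    AltB (VF κ) PP tKF tL pcF [⟨3, 0, 0, 1449551462⟩] 2 0 2 5 0 (sgb true) (sgb false) x :=
  strip_altB (m := 1449551462) true rfl hκ covF52 covF02 hx hx' c_B50pm_202_s1 cutB_nil (noExt_B)

noncomputable def cut_B50mm_001_s1 : Cut := Cut.of [[⟨4, 0, 0, 1449551462⟩]]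

noncomputable def f_B50mm_001_s1 : ℕ → ℕ → ℕ → ℕ → Bool := onCell 0 536870912 536870912 536870912 201326592 134217728
    (rowFK 0 false false false .up 0 0 1 (qsf 0 536870912 536870912 536870912 0) ndF5q0 ndF0q1 pcF0 cut_B50mm_001_s1 Ext.none)

def k0_B50mm_001_s1 : ∃ t, chk3 f_B50mm_001_s1 t 1 1 1 = true :=
  ⟨(l 5), by decide +kernel⟩

theorem c_B50mm_001_s1 : CertF 0 536870912 536870912 536870912 201326592 134217728 false false false .up 0 0 1
    ndF5q0 ndF0q1 pcF0 cut_B50mm_001_s1 Ext.none :=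
  certFK0 (fam := false) (s1 := false) (s2 := false) (a := 0) (b := 0) (c := 1) (cn := .up) (n1 := ndF5q0) (n2 := ndF0q1) (pc := pcF0) (cut := cut_B50mm_001_s1) (xt := Ext.none) (P1 := 0) (W1 := 536870912) (P2 := 536870912) (W2 := 536870912) (P3 := 201326592) (W3 := 134217728)
    rfl rfl rfl k0_B50mm_001_s1

theorem s_B50mm_001_s1 {κ x : ℝ} (hκ : κ * h0 = ken x) (hx : ((201326592 : ℕ) : ℝ) / S ≤ x)
    (hx' : x ≤ (((201326592 : ℕ) : ℝ) + (134217728 : ℕ)) / S) :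
    AltB (VF κ) PP tKF tL pcF [⟨3, 0, 0, 1449551462⟩] 0 0 1 5 0 (sgb false) (sgb false) x :=
  strip_altB (m := 1449551462) true rfl hκ covF50 covF01 hx hx' c_B50mm_001_s1 cutB_nil (noExt_B)

noncomputable def cut_B50mm_011_s1 : Cut := Cut.of [[⟨4, 0, 0, 1449551462⟩]]

noncomputable def f_B50mm_011_s1 : ℕ → ℕ → ℕ → ℕ → Bool := onCell 0 536870912 536870912 536870912 201326592 134217728
    (rowFK 0 false false false .pnn 0 1 1 (qsf 0 536870912 536870912 536870912 1) ndF5q0 ndF0q1 pcF1 cut_B50mm_011_s1 Ext.none)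

def k0_B50mm_011_s1 : ∃ t, chk3 f_B50mm_011_s1 t 1 1 1 = true :=
  ⟨(l 5), by decide +kernel⟩

theorem c_B50mm_011_s1 : CertF 0 536870912 536870912 536870912 201326592 134217728 false false false .pnn 0 1 1
    ndF5q0 ndF0q1 pcF1 cut_B50mm_011_s1 Ext.none :=
  certFK0 (fam := false) (s1 := false) (s2 := false) (a := 0) (b := 1) (c := 1) (cn := .pnn) (n1 := ndF5q0) (n2 := ndF0q1) (pc := pcF1) (cut := cut_B50mm_011_s1) (xt := Ext.none) (P1 := 0) (W1 := 536870912) (P2 := 536870912) (W2 := 536870912) (P3 := 201326592) (W3 := 134217728)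
    rfl rfl rfl k0_B50mm_011_s1

theorem s_B50mm_011_s1 {κ x : ℝ} (hκ : κ * h0 = ken x) (hx : ((201326592 : ℕ) : ℝ) / S ≤ x)
    (hx' : x ≤ (((201326592 : ℕ) : ℝ) + (134217728 : ℕ)) / S) :
    AltB (VF κ) PP tKF tL pcF [⟨3, 0, 0, 1449551462⟩] 0 1 1 5 0 (sgb false) (sgb false) x :=
  strip_altB (m := 1449551462) true rfl hκ covF50 covF01 hx hx' c_B50mm_011_s1 cutB_nil (noExt_B)

noncomputable def cut_B50mm_012_s1 : Cut := Cut.of [[⟨4, 0, 0, 1449551462⟩]]

noncomputable def f_B50mm_012_s1 : ℕ → ℕ → ℕ → ℕ → Bool := onCell 0 536870912 0 536870912 201326592 134217728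
    (rowFK 0 false false false .pnp 0 1 2 (qsf 0 536870912 0 536870912 1) ndF5q0 ndF0q2 pcF1 cut_B50mm_012_s1 Ext.none)

def k0_B50mm_012_s1 : ∃ t, chk3 f_B50mm_012_s1 t 1 1 1 = true :=
  ⟨(l 5), by decide +kernel⟩

theorem c_B50mm_012_s1 : CertF 0 536870912 0 536870912 201326592 134217728 false false false .pnp 0 1 2
    ndF5q0 ndF0q2 pcF1 cut_B50mm_012_s1 Ext.none :=
  certFK0 (fam := false) (s1 := false) (s2 := false) (a := 0) (b := 1) (c := 2) (cn := .pnp) (n1 := ndF5q0) (n2 := ndF0q2) (pc := pcF1) (cut := cut_B50mm_012_s1) (xt := Ext.none) (P1 := 0) (W1 := 536870912) (P2 := 0) (W2 := 536870912) (P3 := 201326592) (W3 := 134217728)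
    rfl rfl rfl k0_B50mm_012_s1

theorem s_B50mm_012_s1 {κ x : ℝ} (hκ : κ * h0 = ken x) (hx : ((201326592 : ℕ) : ℝ) / S ≤ x)
    (hx' : x ≤ (((201326592 : ℕ) : ℝ) + (134217728 : ℕ)) / S) :
    AltB (VF κ) PP tKF tL pcF [⟨3, 0, 0, 1449551462⟩] 0 1 2 5 0 (sgb false) (sgb false) x :=
  strip_altB (m := 1449551462) true rfl hκ covF50 covF02 hx hx' c_B50mm_012_s1 cutB_nil (noExt_B)

noncomputable def cut_B50mm_022_s1 : Cut := Cut.of [[⟨4, 0, 0, 1449551462⟩]]

noncomputable def f_B50mm_022_s1 : ℕ → ℕ → ℕ → ℕ → Bool := onCell 0 536870912 0 536870912 201326592 134217728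
    (rowFK 0 false false false .pp 0 2 2 (qsf 0 536870912 0 536870912 2) ndF5q0 ndF0q2 pcF2 cut_B50mm_022_s1 Ext.none)

def k0_B50mm_022_s1 : ∃ t, chk3 f_B50mm_022_s1 t 1 1 1 = true :=
  ⟨(l 5), by decide +kernel⟩

theorem c_B50mm_022_s1 : CertF 0 536870912 0 536870912 201326592 134217728 false false false .pp 0 2 2
    ndF5q0 ndF0q2 pcF2 cut_B50mm_022_s1 Ext.none :=
  certFK0 (fam := false) (s1 := false) (s2 := false) (a := 0) (b := 2) (c := 2) (cn := .pp) (n1 := ndF5q0) (n2 := ndF0q2) (pc := pcF2) (cut := cut_B50mm_022_s1) (xt := Ext.none) (P1 := 0) (W1 := 536870912) (P2 := 0) (W2 := 536870912) (P3 := 201326592) (W3 := 134217728)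
    rfl rfl rfl k0_B50mm_022_s1

theorem s_B50mm_022_s1 {κ x : ℝ} (hκ : κ * h0 = ken x) (hx : ((201326592 : ℕ) : ℝ) / S ≤ x)
    (hx' : x ≤ (((201326592 : ℕ) : ℝ) + (134217728 : ℕ)) / S) :
    AltB (VF κ) PP tKF tL pcF [⟨3, 0, 0, 1449551462⟩] 0 2 2 5 0 (sgb false) (sgb false) x :=
  strip_altB (m := 1449551462) true rfl hκ covF50 covF02 hx hx' c_B50mm_022_s1 cutB_nil (noExt_B)

noncomputable def cut_B50mm_101_s1 : Cut := Cut.of [[⟨4, 0, 0, 1449551462⟩]]

noncomputable def f_B50mm_101_s1 : ℕ → ℕ → ℕ → ℕ → Bool := onCell 0 536870912 536870912 536870912 201326592 134217728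
    (rowFK 2 false false false .npn 1 0 1 (qsf 536870912 536870912 536870912 536870912 0) ndF5q1 ndF0q1 pcF0 cut_B50mm_101_s1 Ext.none)

def k0_B50mm_101_s1 : ∃ t, chk3 f_B50mm_101_s1 t 1 1 1 = true :=
  ⟨(l 5), by decide +kernel⟩

theorem c_B50mm_101_s1 : CertF 536870912 536870912 536870912 536870912 201326592 134217728 false false false .npn 1 0 1
    ndF5q1 ndF0q1 pcF0 cut_B50mm_101_s1 Ext.none :=
  certFK2 (fam := false) (s1 := false) (s2 := false) (a := 1) (b := 0) (c := 1) (cn := .npn) (n1 := ndF5q1) (n2 := ndF0q1) (pc := pcF0) (cut := cut_B50mm_101_s1) (xt := Ext.none) (P1 := 536870912) (W1 := 536870912) (P2 := 536870912) (W2 := 536870912) (P3 := 201326592) (W3 := 134217728)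
    rfl rfl rfl (fun _ => rfl) k0_B50mm_101_s1

theorem s_B50mm_101_s1 {κ x : ℝ} (hκ : κ * h0 = ken x) (hx : ((201326592 : ℕ) : ℝ) / S ≤ x)
    (hx' : x ≤ (((201326592 : ℕ) : ℝ) + (134217728 : ℕ)) / S) :
    AltB (VF κ) PP tKF tL pcF [⟨3, 0, 0, 1449551462⟩] 1 0 1 5 0 (sgb false) (sgb false) x :=
  strip_altB (m := 1449551462) true rfl hκ covF51 covF01 hx hx' c_B50mm_101_s1 cutB_nil (noExt_B)

noncomputable def cut_B50mm_102_s1 : Cut := Cut.of [[⟨4, 0, 0, 1449551462⟩]]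

noncomputable def f_B50mm_102_s1 : ℕ → ℕ → ℕ → ℕ → Bool := onCell 536870912 536870912 0 536870912 201326592 134217728
    (rowFK 0 false false false .npp 1 0 2 (qsf 536870912 536870912 0 536870912 0) ndF5q1 ndF0q2 pcF0 cut_B50mm_102_s1 Ext.none)

def k0_B50mm_102_s1 : ∃ t, chk3 f_B50mm_102_s1 t 1 1 1 = true :=
  ⟨(l 5), by decide +kernel⟩

theorem c_B50mm_102_s1 : CertF 536870912 536870912 0 536870912 201326592 134217728 false false false .npp 1 0 2
    ndF5q1 ndF0q2 pcF0 cut_B50mm_102_s1 Ext.none :=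
  certFK0 (fam := false) (s1 := false) (s2 := false) (a := 1) (b := 0) (c := 2) (cn := .npp) (n1 := ndF5q1) (n2 := ndF0q2) (pc := pcF0) (cut := cut_B50mm_102_s1) (xt := Ext.none) (P1 := 536870912) (W1 := 536870912) (P2 := 0) (W2 := 536870912) (P3 := 201326592) (W3 := 134217728)
    rfl rfl rfl k0_B50mm_102_s1

theorem s_B50mm_102_s1 {κ x : ℝ} (hκ : κ * h0 = ken x) (hx : ((201326592 : ℕ) : ℝ) / S ≤ x)
    (hx' : x ≤ (((201326592 : ℕ) : ℝ) + (134217728 : ℕ)) / S) :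
    AltB (VF κ) PP tKF tL pcF [⟨3, 0, 0, 1449551462⟩] 1 0 2 5 0 (sgb false) (sgb false) x :=
  strip_altB (m := 1449551462) true rfl hκ covF51 covF02 hx hx' c_B50mm_102_s1 cutB_nil (noExt_B)

noncomputable def cut_B50mm_112_s1 : Cut := Cut.of [[⟨4, 0, 0, 1449551462⟩]]

noncomputable def f_B50mm_112_s1 : ℕ → ℕ → ℕ → ℕ → Bool := onCell 536870912 536870912 0 536870912 201326592 134217728
    (rowFK 0 false false false .dn 1 1 2 (qsf 536870912 536870912 0 536870912 1) ndF5q1 ndF0q2 pcF1 cut_B50mm_112_s1 Ext.none)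

def k0_B50mm_112_s1 : ∃ t, chk3 f_B50mm_112_s1 t 1 1 1 = true :=
  ⟨(l 5), by decide +kernel⟩

theorem c_B50mm_112_s1 : CertF 536870912 536870912 0 536870912 201326592 134217728 false false false .dn 1 1 2
    ndF5q1 ndF0q2 pcF1 cut_B50mm_112_s1 Ext.none :=
  certFK0 (fam := false) (s1 := false) (s2 := false) (a := 1) (b := 1) (c := 2) (cn := .dn) (n1 := ndF5q1) (n2 := ndF0q2) (pc := pcF1) (cut := cut_B50mm_112_s1) (xt := Ext.none) (P1 := 536870912) (W1 := 536870912) (P2 := 0) (W2 := 536870912) (P3 := 201326592) (W3 := 134217728)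
    rfl rfl rfl k0_B50mm_112_s1

theorem s_B50mm_112_s1 {κ x : ℝ} (hκ : κ * h0 = ken x) (hx : ((201326592 : ℕ) : ℝ) / S ≤ x)
    (hx' : x ≤ (((201326592 : ℕ) : ℝ) + (134217728 : ℕ)) / S) :
    AltB (VF κ) PP tKF tL pcF [⟨3, 0, 0, 1449551462⟩] 1 1 2 5 0 (sgb false) (sgb false) x :=
  strip_altB (m := 1449551462) true rfl hκ covF51 covF02 hx hx' c_B50mm_112_s1 cutB_nil (noExt_B)

noncomputable def cut_B50mm_202_s1 : Cut := Cut.of [[⟨4, 0, 0, 1449551462⟩]]

noncomputable def f_B50mm_202_s1 : ℕ → ℕ → ℕ → ℕ → Bool := onCell 1073741824 536870912 0 536870912 201326592 134217728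
    (rowFK 0 false false false .pp 2 0 2 (qsf 1073741824 536870912 0 536870912 0) ndF5q2 ndF0q2 pcF0 cut_B50mm_202_s1 Ext.none)

def k0_B50mm_202_s1 : ∃ t, chk3 f_B50mm_202_s1 t 1 1 1 = true :=
  ⟨(l 5), by decide +kernel⟩

theorem c_B50mm_202_s1 : CertF 1073741824 536870912 0 536870912 201326592 134217728 false false false .pp 2 0 2
    ndF5q2 ndF0q2 pcF0 cut_B50mm_202_s1 Ext.none :=
  certFK0 (fam := false) (s1 := false) (s2 := false) (a := 2) (b := 0) (c := 2) (cn := .pp) (n1 := ndF5q2) (n2 := ndF0q2) (pc := pcF0) (cut := cut_B50mm_202_s1) (xt := Ext.none) (P1 := 1073741824) (W1 := 536870912) (P2 := 0) (W2 := 536870912) (P3 := 201326592) (W3 := 134217728)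
    rfl rfl rfl k0_B50mm_202_s1

theorem s_B50mm_202_s1 {κ x : ℝ} (hκ : κ * h0 = ken x) (hx : ((201326592 : ℕ) : ℝ) / S ≤ x)
    (hx' : x ≤ (((201326592 : ℕ) : ℝ) + (134217728 : ℕ)) / S) :
    AltB (VF κ) PP tKF tL pcF [⟨3, 0, 0, 1449551462⟩] 2 0 2 5 0 (sgb false) (sgb false) x :=
  strip_altB (m := 1449551462) true rfl hκ covF52 covF02 hx hx' c_B50mm_202_s1 cutB_nil (noExt_B)

end Pool.Agent.Strip051.G.I3_16_5_16.Tab.St.C
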