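import Pool.Agent.Strip051.G.I3_16_5_16.Tab

/-! # Certificates F10 (generated) -/

set_option linter.all false
set_option maxRecDepth 100000

namespace Pool.Agent.Strip051.G.I3_16_5_16.Tab.C.FB02

open Pool.Agent.Strip051.PB Pool.Agent.Strip051.PB.T
open Pool.Agent.Strip051.G.I3_16_5_16.Tab

noncomputable def cut_pm_012_a : Cut := Cut.of [[⟨0, 0, 0, 67108864⟩, ⟨1, 1, 0, 67108864⟩, ⟨2, 1, 0, 67108864⟩], [⟨0, 0, 1, 67108864⟩, ⟨1, 1, 2, 67108864⟩, ⟨2, 1, 0, 16777216⟩]]

noncomputable def f_pm_012_a : ℕ → ℕ → ℕ → ℕ → Bool := onCell 536870912 536870912 0 536870912 201326592 134217728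
    (rowF 2 false true false .pnp 0 1 2 (qsf 0 536870912 0 536870912 1) ndF0q0 ndF2q2a pcF1 cut_pm_012_a Ext.none)

def k0_pm_012_a : ∃ t, chk3 f_pm_012_a t 4 1 1 = true :=
  ⟨(b (a (l 2) (b (l 2) (c (l 17516904) (l 17230480)))) (a (b (l 2) (b (a (l 2) (c (l 17468312) (b (l 17196608) (l 17177896)))) (c (b (a (l 17459080) (l 17429768)) (c (a (l 17499824) (l 17467360)) (a (b (l 17370624) (a (l 17364880) (l 17349192))) (b (l 17339696) (l 17325664))))) (b (a (c (l 17255176) (l 17126872)) (c (l 17224536) (l 17095000))) (a (b (c (l 17239624) (a (l 17122576) (l 17107488))) (c (a (a (l 17240368) (l 17232864)) (b (l 17224200) (l 17219040))) (a (b (l 17117008) (c (l 17143008) (a (l 17088064) (l 17080928)))) (b (l 17102264) (c (l 17128440) (l 17070136)))))) (c (b (l 17208928) (a (l 17206488) (l 17191304))) (c (b (l 17114752) (a (l 17115336) (l 17100088))) (b (l 17053824) (a (b (l 17057728) (l 17055448)) (l 17041040)))))))))) (b (c (b (a (l 2) (l 17499792)) (a (l 17487400) (l 17464240))) (a (b (l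 2) (l 17191392)) (b (l 17191056) (l 17155800)))) (b (c (a (l 17441584) (b (l 17426984) (l 17398128))) (a (b (l 17163616) (l 17143928)) (b (l 17125416) (c (l 17176960) (l 17034328))))) (a (c (b (l 17399128) (c (l 17434696) (b (l 17308344) (l 17294608)))) (b (a (l 17133984) (l 17116336)) (c (b (l 17177104) (a (l 17175952) (l 17160144))) (b (a (l 17059152) (l 17041208)) (a (b (l 17055376) (l 17032480)) (b (l 17038048) (l 17036544))))))) (c (b (l 17367480) (c (l 17402840) (a (l 17277512) (l 17261120)))) (b (c (l 17155864) (a (l 17029856) (l 17006976))) (a (c (l 17147088) (b (l 17021480) (c (l 17049424) (l 16987496)))) (c (b (l 17132680) (l 17125352)) (b (l 16999352) (c (l 17028864) (l 16964888)))))))))))), by decide +kernel⟩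

def k1_pm_012_a : ∃ t, chk3 f_pm_012_a t 5 2 1 = true :=
  ⟨(a (b (c (l 17508776) (l 17194856)) (c (a (l 17509360) (l 17498680)) (a (l 17191648) (l 17153856)))) (c (b (l 17490464) (a (l 17479608) (l 17448200))) (b (l 17110728) (a (l 17101248) (b (l 17048576) (l 17005584)))))), by decide +kernel⟩

def k2_pm_012_a : ∃ t, chk3 f_pm_012_a t 10 3 1 = true :=
  ⟨(b (c (b (a (l 17482744) (l 17459496)) (a (l 17439288) (l 17408528))) (b (a (l 17153512) (l 17104376)) (a (a (l 17123920) (l 17098736)) (b (l 17067376) (l 17038288))))) (b (c (a (c (l 17462048) (l 17300408)) (b (l 17359344) (l 17320712))) (a (b (l 17076592) (a (l 17068368) (l 17035464))) (b (l 17006992) (a (l 16996368) (l 16950200))))) (c (b (a (c (l 17407576) (l 17255552)) (c (l 17363712) (l 17194288))) (a (c (l 17367688) (b (l 17233160) (l 17219000))) (c (b (l 17327712) (l 17303096)) (b (l 17165160) (a (l 17166936) (l 17124712)))))) (b (a (a (c (l 17121160) (l 16976456)) (c (l 17087800) (l 16935152))) (a (b (l 16974456) (l 16939944))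 (b (l 16924376) (l 16782544)))) (a (b (a (c (l 17106544) (l 16967416)) (c (l 17070032) (l 16922816))) (c (a (l 17098736) (l 17060216)) (a (a (l 16953968) (b (l 16953880) (l 16952928))) (b (l 16918768) (a (l 16908536) (a (l 16910832) (l 16834920))))))) (a (b (c (l 17027296) (l 16850152)) (a (c (l 17027304) (c (l 16873696) (l 14))) (c (l 16961304) (b (l 16851184) (l 14))))) (b (c (l 16977432) (b (l 16814056) (l 14))) (c (b (l 16966816) (a (l 16953512) (a (l 16953568) (l 16876064)))) (l 14))))))))), by decide +kernel⟩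

def k3_pm_012_a : ∃ t, chk3 f_pm_012_a t 11 6 1 = true :=
  ⟨(c (b (a (l 17427240) (l 17379232)) (a (l 17364864) (b (l 17323328) (l 17276368)))) (b (a (l 17036736) (l 16941128)) (a (b (l 16989024) (l 16950984)) (b (l 16877928) (l 16827632))))), by decide +kernel⟩

def k4_pm_012_a : ∃ t, chk3 f_pm_012_a t 11 7 1 = true :=
  ⟨(b (c (a (b (l 17303888) (c (l 17354392) (l 17157184))) (b (c (l 17336024) (l 17108728)) (c (l 17273576) (a (l 17079320) (l 17014496))))) (a (b (a (l 16936752) (l 16879040)) (a (l 16895784) (l 16831896))) (b (a (l 16810872) (l 16730232)) (a (l 16756632) (l 16667832))))) (c (b (a (c (l 17298904) (a (l 17131928) (l 17080560))) (c (a (l 17231488) (l 17174888)) (a (l 16956656) (b (l 16964168) (l 16930536))))) (a (b (c (l 17254872) (a (l 17097088) (l 17041456))) (c (a (l 17247192) (l 17201016)) (b (a (l 17080512) (l 17023032)) (a (l 17028128) (c (l 17056992) (b (l 16968656) (l 16900704))))))) (c (b (a (l 17180256) (l 17118240)) (a (b (l 17154688) (l 17117008)) (c (l 17134280)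 (b (l 17036760) (a (l 17038376) (l 14)))))) (b (a (b (l 16982952) (l 16968904)) (b (l 16906168) (l 14))) (a (c (b (l 17005280) (b (l 16995056) (l 16967560))) (l 14)) (l 14)))))) (b (a (a (b (l 16865784) (c (l 16937904) (l 16756656))) (b (l 16797232) (c (l 16872664) (l 16678968)))) (a (b (l 16716824) (c (l 16796072) (l 16602808))) (b (l 16622168) (l 16634288)))) (a (a (a (c (b (l 16934648) (c (l 16961552) (l 14))) (b (l 16760400) (l 14))) (b (c (l 16903280) (l 16723264)) (b (c (l 16890688) (l 14)) (l 14)))) (b (c (b (l 16856504) (l 14)) (l 16641184)) (l 14))) (c (b (a (b (l 16777776) (l 14)) (l 16668520)) (l 14)) (c (b (a (l 16637632) (l 16636200)) (l 14)) (a (b (l 16630488) (l 14)) (b (l 16629552) (b (l 16652704) (a (l 14) (b (l 16664360) (b (l 16670360) (c (l 14) (l 16677656)))))))))))))), by decide +kernel⟩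

def k5_pm_012_a : ∃ t, chk3 f_pm_012_a t 6 2 1 = true :=
  ⟨(a (c (b (a (l 17445896) (l 17387952)) (a (b (l 17420688) (l 17376456)) (b (l 17349032) (l 17288464)))) (b (a (l 16990504) (l 16862584)) (a (b (l 16948824) (l 16890544)) (b (l 16804248) (l 16724792))))) (b (a (c (l 17145728) (b (l 16693880) (l 16661600))) (c (b (l 17157256) (l 16938672)) (b (l 16428144) (l 16381728)))) (c (a (b (l 17235856) (c (l 17320088) (l 16984080))) (b (c (l 17251976) (l 16864440)) (a (l 16897008) (c (l 17083408) (l 16658200))))) (a (b (l 16594064) (l 16547904)) (b (l 16354304) (b (l 16366656) (l 16377144))))))), by decide +kernel⟩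

def k6_pm_012_a : ∃ t, chk3 f_pm_012_a t 14 2 1 = true :=
  ⟨(a (b (c (b (a (l 16993760) (l 16848512)) (a (l 16952680) (l 16734936))) (b (l 16360936) (l 16369864))) (c (b (a (l 16693120) (c (l 16937208) (l 16436160))) (a (c (l 16942576) (l 16470360)) (c (l 16763640) (l 16384696)))) (b (a (l 16354928) (l 16349288)) (b (l 16409280) (a (l 16359928) (l 16376976)))))) (b (c (b (c (l 16645360) (l 16367280)) (c (a (l 16871976) (l 16657104)) (l 16396936))) (b (l 16369784) (a (l 16350224) (l 16365912)))) (c (b (c (a (l 16747104) (l 16502616)) (a (l 16381952) (l 16398208))) (c (a (l 16534816) (l 16450664)) (a (l 16401808) (l 16440336)))) (b (a (l 16365296) (l 16402664)) (a (l 16408816) (l 16447344)))))), by decide +kernel⟩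

def k7_pm_012_a : ∃ t, chk3 f_pm_012_a t 15 4 1 = true :=
  ⟨(a (c (b (c (a (l 16467600) (l 16419408)) (a (l 16390720) (l 16406296))) (a (c (l 16412888) (l 16399792)) (c (l 16449304) (l 16415472)))) (b (a (l 16372520) (l 16388136)) (a (l 16402856) (c (l 16403344) (l 16391968))))) (c (b (a (c (b (l 16433184) (l 16436264)) (l 16442832)) (a (c (b (l 16444984) (l 16448016)) (l 16433680)) (c (b (c (l 16456192) (l 16449640)) (c (l 16459208) (l 16452624))) (b (l 16440000) (l 16442920))))) (a (c (b (l 16440776) (l 16467776)) (b (l 16427896) (l 16434200))) (c (b (a (l 16452576) (c (l 16463760) (l 16457224))) (a (l 16458736) (c (l 16469944) (l 16463528)))) (b (a (l 16439712) (l 16447576)) (a (l 16446128) (c (l 16457200) (l 16450952))))))) (b (a (c (l 16409536) (l 16397824)) (c (b (l 16423584) (l 16426432)) (b (l 16411576) (l 16414320)))) (a (c (l 16439920) (l 16407336)) (c (a (l 16430704) (b (l 16435040) (l 16441744))) (b (l 16419080) (l 16425952))))))), by decide +kernel⟩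

def k8_pm_012_a : ∃ t, chk3 f_pm_012_a t 15 5 1 = true :=
  ⟨(a (b (c (a (c (l 16447888) (l 16414864)) (c (b (l 16438576) (l 16447600)) (l 16473152))) (a (l 16440248) (b (l 16409224) (l 16419776)))) (c (a (c (b (l 16441536) (l 16453856)) (l 16479304)) (c (b (l 16458552) (l 16471640)) (b (l 16447784) (l 16461864)))) (a (b (l 16415768) (l 16430584)) (b (l 16453632) (l 16479528))))) (b (c (a (c (b (a (l 16450504) (l 16458536)) (a (l 16459880) (l 16468128))) (b (l 16442320) (l 16452416))) (c (b (a (c (l 16469736) (l 16463544)) (c (l 16498840) (l 16471656))) (a (c (l 16479368) (l 16473472)) (c (b (l 16484976) (l 16490384)) (l 16492248)))) (b (a (l 16454440) (c (l 16465528) (l 16459472))) (a (l 16464792) (c (l 16475912) (l 16470128)))))) (a (c (b (l 16430664) (l 16441312)) (b (l 16419504) (l 16430664))) (b (c (a (l 16442624) (l 16450544)) (l 16450760)) (c (a (l 16453512) (l 16461576)) (a (l 16442576) (l 16450416)))))) (c (a (c (b (a (l 16471240) (l 16479744)) (a (l 16484808) (l 16493600)))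 (b (a (l 16460480) (l 16468928)) (a (l 16474984) (l 16483704)))) (c (b (a (c (l 16491032) (l 16485520)) (c (b (l 16496336) (l 16502832)) (b (l 16490672) (l 16497376)))) (a (c (l 16504944) (l 16499880)) (c (b (l 16509920) (l 16517632)) (b (l 16504688) (l 16512632))))) (b (a (l 16477376) (c (l 16488528) (l 16483080))) (a (l 16492400) (b (l 16507400) (c (l 16507672) (l 16502752))))))) (a (b (c (l 16454280) (l 16444280)) (c (l 16469776) (l 16460576))) (b (c (a (l 16466776) (l 16480264)) (a (l 16456472) (l 16464480))) (c (a (l 16482624) (b (l 16486720) (l 16495448))) (a (l 16473080) (l 16481296)))))))), by decide +kernel⟩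

def k9_pm_012_a : ∃ t, chk3 f_pm_012_a t 12 6 1 = true :=
  ⟨(c (b (a (l 17305864) (c (l 17341768) (l 17046328))) (a (b (l 17232816) (l 16941200)) (b (c (l 17248472) (l 16945248)) (c (l 17170096) (l 16862424))))) (b (a (b (l 16829776) (l 16779072)) (b (l 16642768) (l 16574416))) (a (b (l 16720200) (l 16653448)) (b (l 16495216) (l 16486640))))), by decide +kernel⟩

def k10_pm_012_a : ∃ t, chk3 f_pm_012_a t 12 14 1 = true :=
  ⟨(a (c (b (c (l 17233432) (l 16970392)) (c (a (l 17188408) (l 17115960)) (a (l 16936800) (l 16843368)))) (b (a (l 16634504) (l 16520624)) (a (l 16562760) (l 16559072)))) (b (c (a (c (l 17123832) (l 16826528)) (c (l 17029536) (l 16704680))) (c (l 16511344) (l 16510320))) (c (a (c (l 17027600) (l 16730720)) (c (l 16835544) (l 16594216))) (a (l 16560568) (l 16562200))))), by decide +kernel⟩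

def k11_pm_012_a : ∃ t, chk3 f_pm_012_a t 12 30 1 = true :=
  ⟨(a (c (c (a (b (l 17127848) (l 17085888)) (b (l 17047808) (l 17001048))) (a (b (l 16879808) (l 16842064)) (b (l 16778728) (l 16736392)))) (a (b (l 16578320) (l 16628808)) (b (l 16579032) (l 16629096)))) (b (c (c (a (l 16950608) (l 16832048)) (l 16621000)) (a (l 16580120) (l 16581680))) (c (a (c (l 16751552) (l 16621424)) (c (b (l 16788024) (l 16759112)) (l 16621752))) (a (l 16629976) (l 16652480))))), by decide +kernel⟩

def k12_pm_012_a : ∃ t, chk3 f_pm_012_a t 24 31 1 = true :=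
  ⟨(b (c (b (c (a (l 17054456) (l 16945384)) (a (l 16815016) (l 16706440))) (c (a (l 16991880) (l 14)) (l 14))) (a (c (l 16665624) (l 16632496)) (c (l 16665016) (l 16632888)))) (c (c (a (c (b (l 17071648) (a (l 17070784) (l 14))) (l 14)) (l 14)) (l 14)) (b (c (a (l 14) (c (l 14) (l 16665224))) (a (a (l 16655768) (l 16655640)) (a (l 16655752) (l 16656120)))) (c (c (l 14) (c (l 14) (a (l 14) (a (l 14) (a (l 14) (a (l 14) (l 16690712))))))) (a (a (b (l 16688680) (c (l 14) (a (a (l 16672136) (l 16672064)) (l 16682472)))) (b (l 16667520) (a (c (l 14) (l 16671952)) (c (a (l 14) (l 16689640)) (l 16671984))))) (b (c (l 16681440) (l 16664352)) (c (a (b (l 16677056) (a (l 16686408) (l 16681184))) (a (l 16689712) (l 16679384))) (a (b (l 16670144) (l 16684616)) (l 16683104))))))))), by decide +kernel⟩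

def k13_pm_012_a : ∃ t, chk3 f_pm_012_a t 25 31 1 = true :=
  ⟨(b (c (b (c (a (l 16755232) (l 16668184)) (a (l 16645776) (l 16645952))) (c (l 14) (a (l 14) (l 16683600)))) (a (c (l 16665264) (l 16634104)) (c (l 16676800) (l 16657080)))) (c (a (l 14) (a (l 14) (a (l 14) (c (l 14) (c (l 14) (b (l 16677696) (b (l 16690560) (c (l 14) (l 16708408))))))))) (b (a (c (a (l 16668400) (l 16668704)) (a (l 16656720) (l 16657552))) (c (a (l 16669240) (l 16670000)) (a (l 16658608) (l 16659888)))) (a (a (b (c (c (l 14) (l 16677760)) (l 16668520)) (c (c (l 14) (b (l 16683984) (c (a (l 14) (l 16689864)) (l 16691808)))) (c (a (l 16679608) (l 16679896)) (l 16673344)))) (b (c (c (l 16684048) (l 16678184)) (l 16669360)) (c (a (c (l 14) (b (l 16684296) (l 16688480))) (c (c (l 14) (l 16691168)) (l 16697152))) (c (b (l 16678368) (l 16682448)) (l 16674336))))) (b (c (a (c (l 16684440) (l 16678848)) (l 16692904)) (a (l 16670432) (l 16671752))) (c (a (c (a (c (l 14) (l 16691400)) (c (l 16694560) (l 16691696)))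 (a (l 16697488) (l 16687400))) (a (c (b (l 16691304) (l 16700832)) (l 16687864)) (c (b (l 16691688) (l 16695968)) (l 16688384)))) (a (c (b (l 16679312) (l 16683400)) (l 16675560)) (c (l 16682560) (l 16677032))))))))), by decide +kernel⟩

def k14_pm_012_a : ∃ t, chk3 f_pm_012_a t 13 6 1 = true :=
  ⟨(b (c (a (a (l 16904496) (c (l 17150888) (l 16783576))) (a (b (l 16886080) (l 16786568)) (b (l 16732880) (l 16614416)))) (a (a (l 16406720) (l 16400904)) (b (l 16389784) (l 16417480)))) (a (c (b (a (l 16950472) (l 16803280)) (a (l 16744936) (l 16622448))) (b (l 16450080) (b (l 16458384) (l 16479704)))) (c (c (a (b (l 16878504) (l 16744408)) (b (l 16707536) (l 16547712))) (b (l 16445552) (l 16500512))) (b (l 16464064) (a (l 16472888) (l 16475376)))))), by decide +kernel⟩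

def k15_pm_012_a : ∃ t, chk3 f_pm_012_a t 13 14 1 = true :=
  ⟨(a (c (c (b (a (l 16913216) (l 16769072)) (a (b (l 16819632) (l 16753600)) (b (l 16660136) (l 16583552)))) (b (l 16535120) (a (l 16547680) (l 16570440)))) (b (a (l 16493168) (l 16516272)) (a (l 16564176) (l 16566656)))) (a (b (c (c (l 16589008) (l 16518040)) (l 16518736)) (c (c (l 16595208) (l 16572776)) (l 16590640))) (b (c (b (l 16506504) (l 16533448)) (l 16521888)) (c (c (l 16597952) (l 16575872)) (l 16594400))))), by decide +kernel⟩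

def k16_pm_012_a : ∃ t, chk3 f_pm_012_a t 13 30 1 = true :=
  ⟨(b (c (a (c (a (l 16686448) (l 16597584)) (a (l 16591608) (l 16593480))) (a (c (l 16599488) (l 16595936)) (c (l 16623288) (l 16599296)))) (a (a (l 16583792) (l 16586600)) (a (l 16589992) (l 16615208)))) (c (a (c (a (l 16650096) (l 16651296)) (a (l 16622808) (l 16624712))) (c (a (l 16653160) (l 16666472)) (a (l 16627264) (l 16651728)))) (a (a (l 16633736) (l 16636744)) (a (l 16661376) (c (l 16647264) (l 16621632)))))), by decide +kernel⟩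

def k17_pm_012_a : ∃ t, chk3 f_pm_012_a t 26 62 1 = true :=
  ⟨(c (c (a (b (l 16654512) (l 14)) (b (l 16655584) (c (l 14) (l 16671144)))) (a (b (l 16646984) (l 16663632)) (b (l 16648864) (l 16686496)))) (a (c (l 16689208) (l 16659920)) (c (l 16681456) (l 16663544)))), by decide +kernel⟩

def k18_pm_012_a : ∃ t, chk3 f_pm_012_a t 26 63 1 = true :=
  ⟨(c (b (c (a (l 14) (c (l 14) (a (l 14) (l 16689464)))) (a (a (l 16701504) (l 16702264)) (a (l 16703248) (l 16704432)))) (a (c (l 14) (c (a (l 14) (b (l 16696664) (b (l 16703312) (c (l 14) (a (l 14) (l 16706800)))))) (b (a (l 16691008) (l 16691888)) (a (a (c (l 14) (l 16698264)) (c (l 16707160) (l 16698672))) (a (c (l 16712152) (l 16699144)) (a (l 16706024) (l 16711536))))))) (c (c (l 14) (a (l 14) (a (l 14) (a (l 14) (b (l 16703320) (c (l 14) (l 16711296))))))) (b (c (a (l 16697512) (l 16698576)) (a (l 16692984) (l 16694304))) (b (c (a (l 16704152) (l 16705224)) (a (l 16699496) (l 16700816))) (c (a (c (a (l 14) (l 16710112)) (a (l 16707256)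 (l 16707768))) (c (a (l 16710624) (l 16711192)) (a (l 16708344) (l 16708976)))) (a (a (l 16703640) (l 16704248)) (c (l 16711560) (l 16704072))))))))) (b (a (c (a (l 16671016) (l 16672264)) (l 16683032)) (c (a (l 16673728) (l 16675384)) (l 16686856))) (a (a (c (b (l 16683432) (c (b (l 16692336) (c (l 16703184) (l 16695296))) (b (l 16687136) (l 16691328)))) (b (l 16673296) (c (l 16683992) (l 16678744)))) (c (b (l 16684696) (c (a (l 16695360) (l 16695992)) (l 16698504))) (b (l 16675072) (c (l 16685656) (l 16680672))))) (b (c (a (l 16686176) (l 16687864)) (a (l 16677056) (l 16679256))) (c (a (c (a (l 16696672) (l 16697416)) (l 16692264)) (c (b (l 16696400) (l 16700704)) (l 16694104))) (a (c (l 16687544) (l 16682816)) (c (l 16689640) (l 16685176)))))))), by decide +kernel⟩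

def k19_pm_012_a : ∃ t, chk3 f_pm_012_a t 27 62 1 = true :=
  ⟨(c (a (c (b (l 16657400) (a (l 16674656) (l 16675776))) (b (l 16651472) (l 16689120))) (c (b (l 16681248) (c (l 16700056) (l 16697192))) (a (l 16683736) (l 16685720)))) (a (c (a (l 16652880) (l 16654832)) (l 16667904)) (c (a (l 16656952) (l 16659336)) (a (l 16651008) (l 16653816))))), by decide +kernel⟩

def k20_pm_012_a : ∃ t, chk3 f_pm_012_a t 27 63 2 = true :=
  ⟨(b (a (c (c (a (l 14) (l 16695272)) (a (l 16690504) (l 16691744))) (a (l 16705816) (l 16707408))) (c (a (c (l 16696480) (l 16693184)) (c (l 16698008) (l 16694928))) (a (l 16709184) (l 16711256)))) (a (c (c (a (l 14) (a (l 14) (a (l 14) (b (l 16709504) (c (l 14) (l 16723032)))))) (b (a (l 16703888) (l 16705144)) (a (b (c (l 16711704) (l 16709632)) (c (a (l 14) (l 16721912)) (a (l 16713960) (l 16714576)))) (b (l 16717168) (c (a (l 16717280) (l 16717944)) (a (l 16715256) (l 16715976))))))) (b (a (c (l 16699864) (l 16695832)) (c (l 16701360) (l 16697568))) (b (a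 (c (l 16706512) (l 16702360)) (c (l 16708024) (l 16704112))) (a (a (c (a (l 16710592) (l 16710928)) (l 16706432)) (c (l 16716688) (l 16707264))) (a (c (l 16712216) (l 16708160)) (c (l 16713032) (l 16709104))))))) (b (c (a (c (l 16710136) (l 16706600)) (c (l 16722176) (l 16708384))) (a (c (l 16703056) (l 16699504)) (c (l 16705072) (l 16701744)))) (c (c (a (b (c (l 16717968) (l 16716144)) (c (a (l 14) (b (l 16721944) (l 16724288))) (a (l 16725808) (l 16721280)))) (b (c (l 16719480) (l 16717768)) (c (a (b (l 16722648) (l 16724992)) (b (l 16723440) (l 16725792))) (a (l 16722048) (l 16722896))))) (a (b (l 16713400) (c (a (l 16718664) (l 16719440)) (a (l 16716760) (l 16717592)))) (a (c (l 16723216) (l 16716208)) (c (l 16724120) (l 16717176))))) (a (a (c (b (l 16709416) (l 16713904)) (l 16707896)) (c (b (l 16710336) (l 16714832)) (l 16708944))) (a (c (l 16718808) (l 16710040)) (c (l 16719864) (l 16711208)))))))), by decide +kernel⟩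

def k21_pm_012_a : ∃ t, chk3 f_pm_012_a t 27 63 3 = true :=
  ⟨(a (b (c (a (l 16677240) (l 16679288)) (l 16691432)) (c (a (b (l 16689768) (c (b (l 16698200) (l 16702512)) (l 16696160))) (b (l 16691864) (c (b (l 16700200) (l 16704528)) (l 16698416)))) (a (b (l 16681648) (l 16700328)) (b (l 16684232) (l 16702968))))) (b (c (a (l 16681528) (l 16684040)) (a (l 16674776) (l 16677744))) (b (c (a (l 16694160) (l 16696752)) (a (l 16687016) (l 16690064))) (c (a (c (l 16712448) (l 16700880)) (a (l 16715224) (l 16716576))) (a (l 16705800) (l 16708904)))))), by decide +kernel⟩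

def k22_pm_012_a : ∃ t, chk3 f_pm_012_a t 14 6 1 = true :=
  ⟨(a (b (c (a (c (l 16576520) (l 16434704)) (b (l 16428624) (l 16448520))) (a (l 16424344) (l 16442720))) (c (b (a (c (l 16490976) (l 16438808)) (c (l 16463968) (l 16437736))) (a (c (l 16490192) (l 16473144)) (c (l 16484352) (l 16481008)))) (a (c (l 16497408) (l 16500896)) (l 16495800)))) (b (c (a (c (l 16469128) (l 16450952)) (c (b (l 16449176) (l 16465344)) (l 16491400))) (a (l 16461784) (b (l 16429288) (l 16469952)))) (c (b (a (c (l 16484672) (l 16479432)) (c (l 16505952) (l 16479568))) (c (a (l 16506496) (l 16529096)) (b (l 16528576) (l 16541592)))) (b (a (l 16472600) (l 16493224)) (a (l 16498600) (l 16541200)))))), by decide +kernel⟩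

def k23_pm_012_a : ∃ t, chk3 f_pm_012_a t 28 14 1 = true :=
  ⟨(a (c (b (c (l 16543008) (l 16544544)) (c (b (l 16564536) (l 16594712)) (l 16600016))) (b (l 16545904) (b (l 16563288) (l 16590704)))) (b (c (c (l 16546416) (l 16526992)) (l 16549576)) (c (b (l 16568184) (l 16598024)) (b (l 16546560) (l 16574400))))), by decide +kernel⟩

def k24_pm_012_a : ∃ t, chk3 f_pm_012_a t 28 30 1 = true :=
  ⟨(c (a (b (c (l 16626288) (l 16623736)) (c (a (l 16637680) (l 16639704)) (l 16655448))) (b (c (l 16609392) (l 16607192)) (c (l 16663440) (l 16660200)))) (a (b (l 16619504) (c (l 16651608) (l 16647640))) (b (l 16603648) (l 16655208)))), by decide +kernel⟩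

def k25_pm_012_a : ∃ t, chk3 f_pm_012_a t 28 62 1 = true :=
  ⟨(a (c (c (b (l 16684520) (a (l 16680488) (l 16682648))) (a (l 16687824) (l 16690200))) (c (a (l 16661792) (l 16664448)) (a (l 16656640) (l 16659616)))) (c (c (b (l 16668088) (l 16706728)) (b (l 16664088) (l 16681232))) (c (b (l 16660056) (l 16676712)) (l 16685128)))), by decide +kernel⟩

def k26_pm_012_a : ∃ t, chk3 f_pm_012_a t 28 63 1 = true :=
  ⟨(a (c (b (c (a (c (l 16699776) (l 16696872)) (c (l 16701944) (l 16699184))) (a (l 16713480) (l 16695032))) (b (c (a (c (l 16723968) (l 16710368)) (c (l 16715728) (l 16712752))) (a (c (l 16707240) (l 16704120)) (l 16708288))) (c (b (a (c (a (l 16720024) (l 16721112)) (l 16722456)) (c (l 16722704) (l 16719624))) (a (c (a (c (l 16728152) (l 16723856)) (c (l 16726608) (l 16724968))) (a (c (l 16722184) (l 16720512)) (l 16722520))) (c (c (b (l 16727008) (l 16729376)) (l 16726616)) (c (l 16725040) (l 16723464))))) (a (a (c (l 16726232) (l 16712440)) (c (l 16716984) (l 16713760))) (c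 (b (l 16716552) (l 16721112)) (l 16715736)))))) (b (c (a (l 16686648) (l 16689488)) (a (l 16680752) (l 16683936))) (b (c (a (l 16699424) (l 16702360)) (a (l 16693152) (l 16696448))) (a (a (c (l 16717960) (l 16700848)) (c (l 16708920) (l 16702472))) (c (c (l 16712640) (l 16709552)) (l 16704928)))))) (c (b (b (c (l 16699216) (l 16694304)) (c (a (l 16707224) (l 16709456)) (l 16703192))) (b (c (c (a (l 16717856) (l 16720064)) (l 16721496)) (c (l 16713536) (l 16710832))) (c (b (c (a (l 16724888) (l 16727136)) (a (l 16721968) (l 16724400))) (c (a (c (b (l 16729176) (l 16731552)) (l 16728872)) (c (b (l 16731400) (l 16733792)) (l 16731192))) (a (c (l 16727376) (l 16725888)) (c (l 16729792) (l 16728392))))) (c (b (l 16720384) (a (l 16723656) (l 16726304))) (a (l 16718448) (l 16721256)))))) (b (c (l 16714728) (l 16688776)) (c (b (l 16706792) (b (l 16713408) (a (l 16716296) (l 16719416)))) (b (l 16701464) (a (l 16708312) (l 16711824))))))), by decide +kernel⟩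

def k27_pm_012_a : ∃ t, chk3 f_pm_012_a t 29 14 1 = true :=
  ⟨(b (c (a (c (l 16552968) (l 16530416)) (c (l 16569120) (l 16564448))) (a (l 16531784) (b (l 16542992) (l 16559568)))) (c (c (b (a (l 16570904) (l 16579008)) (a (l 16601512) (l 16604568))) (a (l 16596696) (l 16600144))) (a (c (l 16606864) (l 16606400)) (l 16600600)))), by decide +kernel⟩

def k28_pm_012_a : ∃ t, chk3 f_pm_012_a t 29 30 1 = true :=
  ⟨(c (a (b (c (l 16633648) (l 16632016)) (c (l 16667176) (l 16664560))) (b (b (l 16617888) (l 16639584)) (c (a (l 16670064) (l 16672160)) (l 16669280)))) (b (a (l 16629440) (l 16634720)) (a (l 16665864) (c (l 16667440) (l 16665624))))), by decide +kernel⟩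

def k29_pm_012_a : ∃ t, chk3 f_pm_012_a t 29 31 1 = true :=
  ⟨(b (c (b (a (c (l 16672136) (l 16668816)) (c (l 16697504) (l 16673984))) (a (c (l 16711016) (l 16686232)) (c (c (l 16716408) (l 16714888)) (l 16702160)))) (b (a (l 16663872) (l 16691240)) (a (c (l 16682472) (l 16678752)) (c (l 16688744) (l 16685896))))) (b (b (c (c (a (l 16703712) (l 16718992)) (a (l 16699536) (l 16705168))) (a (l 16693392) (l 16710808))) (c (c (a (c (l 16714096) (l 16711864)) (a (l 16716608) (l 16719128))) (a (l 16708552) (l 16724800))) (a (c (l 16704208) (l 16699928)) (c (l 16710840) (l 16707464))))) (c (b (c (a (c (a (l 16722336) (l 16724680)) (a (l 16719888) (l 16722432))) (a (c (l 16727080) (l 16725048)) (c (l 16729528) (l 16727728)))) (a (c (l 16729328) (l 16716528)) (a (l 16722032) (l 16725072)))) (c (b (a (c (a (l 16729456) (l 16731840)) (a (l 16726904) (l 16729496))) (c (a (l 16734272) (l 16736752)) (a (l 16732152) (l 16734864)))) (b (a (c (a (l 16733040) (l 16735440)) (a (l 16730440) (l 16733048)))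 (c (a (l 16737896) (l 16740384)) (a (l 16735720) (l 16738456)))) (a (c (a (c (l 16736096) (l 16734776)) (c (l 16738464) (l 16737248))) (a (l 16732808) (l 16735432))) (c (a (l 16742936) (c (l 16743312) (l 16742328))) (a (l 16738120) (l 16740864)))))) (b (a (c (l 16725792) (l 16723384)) (c (l 16736784) (l 16729584))) (a (c (a (l 16729032) (l 16731856)) (a (l 16726464) (l 16729504))) (c (a (l 16734768) (l 16742992)) (a (l 16732632) (l 16735864))))))) (b (a (c (l 16723576) (l 16708592)) (c (a (l 16718112) (l 16721616)) (l 16726760))) (a (b (c (l 16719816) (l 16715144)) (c (a (l 16722656) (l 16726016)) (l 16724792))) (c (b (l 16731936) (a (l 16729488) (l 16738320))) (a (l 16723160) (l 16737704)))))))), by decide +kernel⟩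

def k30_pm_012_a : ∃ t, chk3 f_pm_012_a t 30 6 1 = true :=
  ⟨(b (a (c (c (b (l 16468512) (l 16506792)) (b (l 16459968) (l 16478656))) (b (l 16469104) (l 16489664))) (c (c (b (l 16508096) (a (l 16500640) (l 16510120))) (b (l 16478496) (l 16518952))) (b (c (l 16470240) (l 16462376)) (c (l 16490928) (l 16484168))))) (c (b (a (c (l 16527576) (l 16521832)) (c (a (l 16522144) (l 16532056)) (b (l 16514840) (l 16527288)))) (a (c (b (l 16524472) (l 16558528)) (l 16568680)) (c (b (l 16545592) (l 16580016)) (b (l 16540592) (l 16554784))))) (b (a (b (l 16486368) (l 16499376)) (c (l 16536192) (l 16509608))) (a (a (l 16536416) (l 16547064)) (b (l 16554336) (l 16580048)))))), by decide +kernel⟩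

def k31_pm_012_a : ∃ t, chk3 f_pm_012_a t 31 12 1 = true :=
  ⟨(c (a (b (c (a (l 16500832) (l 16509960)) (a (l 16492096) (l 16501112))) (c (a (l 16519648) (b (l 16523952) (l 16534280))) (a (l 16512136) (l 16521440)))) (b (c (a (c (l 16521360) (l 16516824)) (b (c (l 16525968) (l 16521224)) (c (l 16534952) (l 16530480)))) (a (b (l 16505320) (l 16514880)) (b (l 16519408) (l 16523824)))) (c (a (b (l 16533288) (l 16543760)) (b (c (l 16544632) (l 16540448)) (c (l 16555048) (l 16551176)))) (a (b (l 16525160) (l 16536232)) (b (l 16534224) (l 16545392)))))) (a (a (b (l 16479528) (l 16501248)) (b (c (l 16492496) (l 16484096)) (c (l 16513936) (l 16506592)))) (b (a (c (l 16501280) (l 16492640)) (c (b (l 16504880) (l 16515040)) (l 16501048))) (a (c (l 16522952) (l 16515336)) (c (b (l 16525976) (l 16537728)) (b (l 16517808) (l 16530096))))))), by decide +kernel⟩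

def k32_pm_012_a : ∃ t, chk3 f_pm_012_a t 31 13 1 = true :=
  ⟨(a (a (c (b (c (l 16541896) (l 16535648)) (c (b (l 16560784) (l 16574464)) (l 16562704))) (b (c (l 16529528) (l 16523544)) (c (l 16557872) (l 16553104)))) (c (b (c (b (l 16545624) (l 16557776)) (l 16545256)) (c (b (l 16570744) (l 16584576)) (b (l 16565304) (l 16579832)))) (b (c (l 16538920) (l 16532664)) (c (l 16567480) (l 16562440))))) (c (b (c (a (b (l 16555208) (l 16567488)) (b (c (l 16566464) (l 16562896)) (c (l 16578720) (l 16575464)))) (a (b (l 16548280) (l 16561184)) (b (l 16557552) (l 16570576)))) (a (c (b (l 16580600) (l 16594576)) (b (l 16574952) (l 16589624))) (c (b (c (l 16591816) (l 16588888)) (a (l 16602040) (l 16606984))) (b (a (l 16582120) (l 16586848)) (a (l 16596896) (l 16601704)))))) (b (a (c (l 16548152) (l 16541624)) (c (b (l 16550448) (l 16564056)) (b (l 16543352) (l 16557520)))) (a (c (b (l 16569304) (l 16584632)) (l 16572936)) (b (c (l 16578568) (l 16572624)) (c (l 16594024) (l 16588696))))))), by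 decide +kernel⟩

def k33_pm_012_a : ∃ t, chk3 f_pm_012_a t 15 14 1 = true :=
  ⟨(a (b (b (a (c (c (l 16572488) (l 16569424)) (l 16565104)) (c (c (l 16594392) (l 16569920)) (a (l 16559840) (l 16569784)))) (a (c (c (l 16587456) (l 16585224)) (l 16582048)) (c (c (a (l 16583464) (l 16594088)) (l 16607016)) (a (l 16577000) (l 16587080))))) (c (a (b (c (l 16603672) (l 16602240)) (c (l 16626144) (l 16620288))) (b (c (b (l 16622032) (l 16630568)) (a (l 16598088) (l 16608672))) (c (a (l 16638416) (l 16649408)) (a (l 16637368) (l 16627152))))) (a (b (l 16600184) (l 16624632)) (b (c (l 16622376) (l 16620416)) (a (l 16635744) (l 16646096)))))) (a (b (c (b (c (a (l 16589040) (l 16599304)) (a (l 16585256) (l 16595304))) (c (a (l 16604616) (l 16615064)) (a (l 16601600) (l 16611808)))) (b (a (l 16579584) (l 16589240)) (a (l 16597008) (l 16606808)))) (b (c (a (c (l 16621440) (l 16619152)) (c (l 16653064) (l 16629536))) (a (l 16615616) (l 16630792))) (c (a (c (l 16660336) (l 16637816)) (c (b (l 16645576)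 (l 16654920)) (b (l 16643536) (l 16653240)))) (a (b (l 16630280) (l 16640424)) (c (l 16646432) (l 16644392)))))) (b (c (a (c (b (l 16609488) (a (l 16622872) (l 16628040))) (b (l 16605248) (l 16621912))) (b (c (a (l 16617088) (l 16622128)) (a (l 16612640) (l 16617536))) (c (a (l 16633200) (l 16640960)) (a (l 16629440) (l 16634424))))) (a (b (c (l 16600936) (l 16596576)) (c (l 16618296) (l 16614600))) (b (c (l 16610472) (l 16605784)) (c (a (l 16625584) (l 16630400)) (l 16623952))))) (b (c (a (c (a (l 16640056) (l 16645328)) (l 16642440)) (a (c (l 16650592) (l 16647480)) (l 6))) (a (c (l 16636864) (l 16633808)) (a (l 16647864) (l 6)))) (b (a (c (c (l 16656320) (l 16653960)) (l 16650232)) (l 6)) (l 6)))))), by decide +kernel⟩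

def k34_pm_012_a : ∃ t, chk3 f_pm_012_a t 15 15 1 = true :=
  ⟨(a (b (b (a (c (c (l 16641080) (l 16640888)) (l 16640648)) (c (c (a (l 16646536) (l 16662992)) (a (l 16656784) (l 16667728))) (a (l 16656320) (c (l 16667144) (l 16666480))))) (a (c (c (a (l 16674352) (l 16676720)) (a (l 16673096) (l 16675904))) (a (l 16671312) (l 16674792))) (c (a (b (l 16661520) (l 16680856)) (c (l 16683176) (l 16683416))) (a (l 16673888) (l 16680984))))) (b (b (c (a (c (b (l 16687200) (l 16696280)) (l 16695344)) (a (c (l 16696704) (l 16706096)) (l 6))) (a (c (l 16688520) (l 16697496)) (a (l 16694144) (l 6)))) (a (a (c (c (l 16708776) (l 16695984)) (l 16713648)) (c (c (l 16711408) (l 16709584)) (c (l 16697360) (l 16695696)))) (l 6))) (b (a (c (c (a (c (l 16728168) (l 16726784)) (b (l 16714944) (l 6))) (a (b (l 16709624) (l 16718856)) (b (l 16712824) (l 6)))) (a (c (l 16722104) (l 16709072)) (b (l 16709800) (l 6)))) (l 6)) (a (c (a (a (c (b (l 16741056) (b (l 16743024) (a (c (l 16743184) (l 16741400)) (l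 6)))) (b (l 16727400) (c (b (l 16735272) (l 16740032)) (l 16746472)))) (b (c (l 16737136) (l 16728984)) (l 6))) (l 6)) (a (c (b (l 16725248) (a (l 16738776) (l 6))) (b (l 16722400) (c (l 16737424) (l 16741160)))) (l 6))) (l 6))))) (b (b (a (a (c (c (c (l 16679576) (l 16679192)) (b (l 16652528) (l 16662720))) (c (l 16677680) (l 16676688))) (l 6)) (l 6)) (l 6)) (l 6))), by decide +kernel⟩

theorem s35_pm_012_a : ∃ t, chk3 f_pm_012_a t 15 7 1 = true := ex3_b k33_pm_012_a k34_pm_012_a

theorem s36_pm_012_a : ∃ t, chk3 f_pm_012_a t 31 6 1 = true := ex3_b k31_pm_012_a k32_pm_012_a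

theorem s37_pm_012_a : ∃ t, chk3 f_pm_012_a t 15 6 1 = true := ex3_a k30_pm_012_a s36_pm_012_a

theorem s38_pm_012_a : ∃ t, chk3 f_pm_012_a t 15 3 1 = true := ex3_b s37_pm_012_a s35_pm_012_a

theorem s39_pm_012_a : ∃ t, chk3 f_pm_012_a t 29 15 1 = true := ex3_b k28_pm_012_a k29_pm_012_a

theorem s40_pm_012_a : ∃ t, chk3 f_pm_012_a t 29 7 1 = true := ex3_b k27_pm_012_a s39_pm_012_a

theorem s41_pm_012_a : ∃ t, chk3 f_pm_012_a t 28 31 1 = true := ex3_b k25_pm_012_a k26_pm_012_a

theorem s42_pm_012_a : ∃ t, chk3 f_pm_012_a t 28 15 1 = true := ex3_b k24_pm_012_a s41_pm_012_a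

theorem s43_pm_012_a : ∃ t, chk3 f_pm_012_a t 28 7 1 = true := ex3_b k23_pm_012_a s42_pm_012_a

theorem s44_pm_012_a : ∃ t, chk3 f_pm_012_a t 14 7 1 = true := ex3_a s43_pm_012_a s40_pm_012_a

theorem s45_pm_012_a : ∃ t, chk3 f_pm_012_a t 14 3 1 = true := ex3_b k22_pm_012_a s44_pm_012_a

theorem s46_pm_012_a : ∃ t, chk3 f_pm_012_a t 7 3 1 = true := ex3_a s45_pm_012_a s38_pm_012_a

theorem s47_pm_012_a : ∃ t, chk3 f_pm_012_a t 27 63 1 = true := ex3_c k20_pm_012_a k21_pm_012_a

theorem s48_pm_012_a : ∃ t, chk3 f_pm_012_a t 27 31 1 = true := ex3_b k19_pm_012_a s47_pm_012_a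

theorem s49_pm_012_a : ∃ t, chk3 f_pm_012_a t 26 31 1 = true := ex3_b k17_pm_012_a k18_pm_012_a

theorem s50_pm_012_a : ∃ t, chk3 f_pm_012_a t 13 31 1 = true := ex3_a s49_pm_012_a s48_pm_012_a

theorem s51_pm_012_a : ∃ t, chk3 f_pm_012_a t 13 15 1 = true := ex3_b k16_pm_012_a s50_pm_012_a

theorem s52_pm_012_a : ∃ t, chk3 f_pm_012_a t 13 7 1 = true := ex3_b k15_pm_012_a s51_pm_012_a

theorem s53_pm_012_a : ∃ t, chk3 f_pm_012_a t 13 3 1 = true := ex3_b k14_pm_012_a s52_pm_012_a

theorem s54_pm_012_a : ∃ t, chk3 f_pm_012_a t 12 31 1 = true := ex3_a k12_pm_012_a k13_pm_012_a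

theorem s55_pm_012_a : ∃ t, chk3 f_pm_012_a t 12 15 1 = true := ex3_b k11_pm_012_a s54_pm_012_a

theorem s56_pm_012_a : ∃ t, chk3 f_pm_012_a t 12 7 1 = true := ex3_b k10_pm_012_a s55_pm_012_a

theorem s57_pm_012_a : ∃ t, chk3 f_pm_012_a t 12 3 1 = true := ex3_b k9_pm_012_a s56_pm_012_a

theorem s58_pm_012_a : ∃ t, chk3 f_pm_012_a t 6 3 1 = true := ex3_a s57_pm_012_a s53_pm_012_a

theorem s59_pm_012_a : ∃ t, chk3 f_pm_012_a t 3 3 1 = true := ex3_a s58_pm_012_a s46_pm_012_a

theorem s60_pm_012_a : ∃ t, chk3 f_pm_012_a t 15 2 1 = true := ex3_b k7_pm_012_a k8_pm_012_a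

theorem s61_pm_012_a : ∃ t, chk3 f_pm_012_a t 7 2 1 = true := ex3_a k6_pm_012_a s60_pm_012_a

theorem s62_pm_012_a : ∃ t, chk3 f_pm_012_a t 3 2 1 = true := ex3_a k5_pm_012_a s61_pm_012_a

theorem s63_pm_012_a : ∃ t, chk3 f_pm_012_a t 3 1 1 = true := ex3_b s62_pm_012_a s59_pm_012_a

theorem s64_pm_012_a : ∃ t, chk3 f_pm_012_a t 11 3 1 = true := ex3_b k3_pm_012_a k4_pm_012_a

theorem s65_pm_012_a : ∃ t, chk3 f_pm_012_a t 5 3 1 = true := ex3_a k2_pm_012_a s64_pm_012_a

theorem s66_pm_012_a : ∃ t, chk3 f_pm_012_a t 5 1 1 = true := ex3_b k1_pm_012_a s65_pm_012_a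

theorem s67_pm_012_a : ∃ t, chk3 f_pm_012_a t 2 1 1 = true := ex3_a k0_pm_012_a s66_pm_012_a

theorem s68_pm_012_a : ∃ t, chk3 f_pm_012_a t 1 1 1 = true := ex3_a s67_pm_012_a s63_pm_012_a

theorem c_pm_012_a : CertF 0 536870912 0 536870912 201326592 134217728 false true false .pnp 0 1 2
    ndF0q0 ndF2q2a pcF1 cut_pm_012_a Ext.none :=
  certF2 (fam := false) (s1 := true) (s2 := false) (a := 0) (b := 1) (c := 2) (cn := .pnp) (n1 := ndF0q0) (n2 := ndF2q2a) (pc := pcF1) (cut := cut_pm_012_a) (xt := Ext.none) (P1 := 0) (W1 := 536870912) (P2 := 0) (W2 := 536870912) (P3 := 201326592) (W3 := 134217728)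
    rfl (fun _ => rfl) s68_pm_012_a

noncomputable def cut_pm_012_b : Cut := Cut.of [[⟨0, 0, 0, 67108864⟩, ⟨1, 1, 0, 67108864⟩, ⟨2, 1, 0, 67108864⟩], [⟨0, 0, 1, 67108864⟩, ⟨1, 1, 2, 67108864⟩, ⟨2, 1, 0, 16777216⟩]]

noncomputable def f_pm_012_b : ℕ → ℕ → ℕ → ℕ → Bool := onCell 0 536870912 536870912 536870912 201326592 134217728
    (rowF 1 false true false .pnp 0 1 2 (qsf 0 536870912 1239849684 370763052 1) ndF0q0 ndF2q2b pcF1 cut_pm_012_b Ext.none)

def k0_pm_012_b : ∃ t, chk3 f_pm_012_b t 2 2 1 = true :=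
  ⟨(l 1), by decide +kernel⟩

def k1_pm_012_b : ∃ t, chk3 f_pm_012_b t 4 3 1 = true :=
  ⟨(l 1), by decide +kernel⟩

def k2_pm_012_b : ∃ t, chk3 f_pm_012_b t 5 6 1 = true :=
  ⟨(l 1), by decide +kernel⟩

def k3_pm_012_b : ∃ t, chk3 f_pm_012_b t 5 14 1 = true :=
  ⟨(a (l 1) (b (a (l 1) (b (l 1) (c (l 26876648631) (l 16404552)))) (b (a (l 1) (c (c (l 16856032) (l 16362432)) (l 16366400))) (c (a (c (l 16427192) (l 16417152)) (c (l 16877536) (l 16363144))) (a (l 16425096) (l 16363840)))))), by decide +kernel⟩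

def k4_pm_012_b : ∃ t, chk3 f_pm_012_b t 5 15 1 = true :=
  ⟨(a (a (a (l 1) (a (l 1) (b (l 1) (b (l 1) (c (c (b (l 1) (l 16460472)) (l 16450400)) (c (l 16439424) (l 16428832))))))) (c (b (b (l 1) (c (a (l 1) (l 16432752)) (l 16464208))) (b (c (a (l 16449912) (l 16430224)) (a (l 16439184) (l 16417184))) (c (a (b (l 16446960) (c (l 16448136) (l 16441248))) (b (l 16427656) (c (l 16429672) (l 16421672)))) (a (b (l 16434520) (l 16431112)) (b (l 16412976) (l 16409904)))))) (b (b (l 1) (c (l 16465744) (l 16457472))) (b (a (c (l 16428984) (l 16419320)) (c (l 16404784) (l 16393016))) (c (a (b (l 16422552) (l 16417968)) (b (l 16398856) (l 16394648))) (a (l 16408216) (l 16382632))))))) (b (c (a (c (b (l 16428176) (l 16432896)) (b (l 16415928) (l 16392280))) (c (b (l 16696000) (a (l 16812464) (l 17058288))) (b (l 16362840) (l 16361328)))) (a (b (l 16425616) (c (l 16378768) (l 16366136))) (b (l 16360272) (c (l 16343200) (l 16326120))))) (c (a (c (b (a (l 16412912) (l 16501584)) (a (c (l 16414392)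 (l 16405504)) (b (l 16500120) (c (l 16752960) (l 16389632))))) (b (a (l 16397544) (l 16380288)) (b (l 16426888) (a (l 16391016) (l 16374456))))) (c (b (a (l 16742240) (l 17103528)) (a (c (l 17066000) (l 16563056)) (c (l 17318520) (l 16989488)))) (b (l 16379680) (a (l 16382424) (l 16348376))))) (a (b (c (l 16414664) (l 16357752)) (c (a (l 16386072) (l 16356640)) (a (l 16359320) (l 16338200)))) (b (c (l 16338416) (l 16319016)) (c (a (l 16340064) (l 16326072)) (a (l 16319408) (l 16303168)))))))), by decide +kernel⟩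

def k5_pm_012_b : ∃ t, chk3 f_pm_012_b t 3 2 1 = true :=
  ⟨(b (l 1) (a (l 1) (a (b (l 1) (c (l 122441418583) (a (l 87543836871) (l 17078656)))) (c (b (l 144990093591) (l 17545088)) (b (l 126199068231) (l 70364450119)))))), by decide +kernel⟩

def k6_pm_012_b : ∃ t, chk3 f_pm_012_b t 6 3 1 = true :=
  ⟨(b (b (a (l 1) (a (a (l 1) (c (l 96134132103) (l 66605479463))) (c (l 17246552) (l 31708958743)))) (a (b (a (l 1) (c (l 76806296807) (l 16493368))) (b (a (l 1) (c (l 17160320) (l 16459960))) (a (c (l 16800736) (l 16423320)) (c (l 17165128) (l 16444752))))) (a (c (b (l 17313256) (l 17376984)) (b (l 16710376) (l 16711584))) (c (l 17499288) (l 16849616))))) (b (a (c (a (b (c (l 17169368) (l 16622960)) (c (l 17241936) (a (l 16653040) (l 16845032)))) (b (c (l 17433488) (l 17032136)) (c (l 17527032) (l 17089952)))) (b (a (a (l 16364048) (l 16329072)) (a (l 16348112) (l 16512808))) (a (b (l 16334744) (l 16312512)) (l 16435064)))) (c (a (c (l 17685008) (l 17308408)) (l 17666704)) (a (b (l 16729720)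 (l 16763784)) (b (l 16967832) (l 17019648))))) (a (c (a (c (b (a (l 17243480) (l 17419672)) (a (b (l 17320384) (l 17377320)) (l 17533824))) (b (a (l 16689672) (l 16901080)) (a (b (l 16731880) (b (l 16757512) (l 16671320))) (b (l 16955424) (l 16997104))))) (b (c (l 17635216) (l 17164520)) (c (l 17756216) (a (l 17168632) (l 17333088))))) (b (a (b (l 16310216) (c (l 16317696) (l 16296168))) (c (l 16567560) (l 16280320))) (a (b (c (l 16314344) (l 16290496)) (c (a (l 16314656) (l 16428248)) (a (l 16289520) (l 16278744)))) (b (c (l 16734768) (l 16273528)) (c (a (l 16662832) (l 16864488)) (l 16267888)))))) (c (a (b (l 17643168) (l 17565024)) (l 17869856)) (a (b (c (l 17020248) (l 16604608)) (c (l 16968568) (b (l 16640280) (l 16605144)))) (b (l 17082176) (c (l 17347352) (l 16960888)))))))), by decide +kernel⟩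

def k7_pm_012_b : ∃ t, chk3 f_pm_012_b t 7 3 1 = true :=
  ⟨(b (a (c (b (a (l 17481432) (l 17567288)) (a (l 17618824) (l 17705104))) (b (a (l 17016176) (l 17129992)) (a (l 17080328) (l 17214344)))) (c (b (l 17651520) (l 17777600)) (b (l 17262184) (l 17356520)))) (a (c (b (a (l 17787912) (l 17867832)) (a (l 17984520) (l 18052016))) (b (a (l 17183904) (l 17328664)) (a (b (l 17283976) (l 17359592)) (l 17467856)))) (c (b (l 17921360) (l 18080224)) (b (l 17470648) (l 17600856))))), by decide +kernel⟩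

theorem s8_pm_012_b : ∃ t, chk3 f_pm_012_b t 3 3 1 = true := ex3_a k6_pm_012_b k7_pm_012_b

theorem s9_pm_012_b : ∃ t, chk3 f_pm_012_b t 3 1 1 = true := ex3_b k5_pm_012_b s8_pm_012_b

theorem s10_pm_012_b : ∃ t, chk3 f_pm_012_b t 5 7 1 = true := ex3_b k3_pm_012_b k4_pm_012_b

theorem s11_pm_012_b : ∃ t, chk3 f_pm_012_b t 5 3 1 = true := ex3_b k2_pm_012_b s10_pm_012_b

theorem s12_pm_012_b : ∃ t, chk3 f_pm_012_b t 2 3 1 = true := ex3_a k1_pm_012_b s11_pm_012_b

theorem s13_pm_012_b : ∃ t, chk3 f_pm_012_b t 2 1 1 = true := ex3_b k0_pm_012_b s12_pm_012_b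

theorem s14_pm_012_b : ∃ t, chk3 f_pm_012_b t 1 1 1 = true := ex3_a s13_pm_012_b s9_pm_012_b

theorem c_pm_012_b : CertF 0 536870912 1239849684 370763052 201326592 134217728 false true false .pnp 0 1 2
    ndF0q0 ndF2q2b pcF1 cut_pm_012_b Ext.none :=
  certF1 (fam := false) (s1 := true) (s2 := false) (a := 0) (b := 1) (c := 2) (cn := .pnp) (n1 := ndF0q0) (n2 := ndF2q2b) (pc := pcF1) (cut := cut_pm_012_b) (xt := Ext.none) (P1 := 0) (W1 := 536870912) (P2 := 1239849684) (W2 := 370763052) (P3 := 201326592) (W3 := 134217728)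
    rfl (fun _ => rfl) s14_pm_012_b

noncomputable def cut_pm_022_a : Cut := Cut.of [[⟨0, 0, 0, 67108864⟩, ⟨1, 1, 0, 67108864⟩, ⟨2, 1, 0, 67108864⟩]]

noncomputable def f_pm_022_a : ℕ → ℕ → ℕ → ℕ → Bool := onCell 1073741824 536870912 0 536870912 201326592 134217728
    (rowF 2 false true false .pp 0 2 2 (qsf 0 536870912 0 536870912 2) ndF0q0 ndF2q2a pcF2 cut_pm_022_a Ext.none)

def k0_pm_022_a : ∃ t, chk3 f_pm_022_a t 8 4 1 = true :=
  ⟨(a (c (a (a (b (c (b (c (l 16479736) (l 16471392)) (c (l 16481728) (l 16473456))) (b (l 16459240) (l 16461392))) (c (b (c (l 16485240) (l 16477128)) (c (l 16500840) (l 16482480))) (b (c (l 16469176) (l 16461400)) (c (l 16474760) (l 16467200))))) (b (c (b (l 16474816) (l 16476904)) (l 16460632)) (c (b (l 16480592) (l 16485952)) (b (l 16465600) (l 16471416))))) (b (c (b (l 16473576) (l 16475744)) (l 16460792)) (c (b (l 16479584) (l 16485112)) (l 16489992)))) (b (a (c (b (l 16444240) (l 16446496)) (l 16452112)) (c (l 16447464) (l 16434776))) (a (c (b (l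 16450672) (a (l 16456160) (l 16457480))) (b (l 16436560) (l 16443088))) (c (l 16456192) (l 16443912))))) (c (b (c (a (l 16472672) (l 16469696)) (l 16460104)) (c (a (l 16480536) (l 16477760)) (a (l 16468992) (l 16468128)))) (b (a (l 16443400) (l 16445008)) (a (l 16452568) (l 16454400))))), by decide +kernel⟩

def k1_pm_022_a : ∃ t, chk3 f_pm_022_a t 8 5 1 = true :=
  ⟨(a (c (b (a (a (c (b (c (b (l 16495240) (l 16499112)) (l 16489632)) (c (b (l 16503464) (l 16508312)) (l 16503992))) (b (c (l 16482224) (l 16474968)) (c (l 16491736) (l 16484856)))) (c (b (l 16503600) (c (l 16505584) (l 16498896))) (b (l 16479192) (l 16489080)))) (c (b (l 16492472) (l 16501768)) (b (l 16479896) (l 16489960)))) (a (c (b (a (c (b (l 16513688) (l 16519624)) (b (l 16506904) (l 16513104))) (c (l 16516536) (l 16510328))) (a (c (b (l 16526128) (l 16533232)) (b (l 16519896) (l 16527296))) (c (l 16529728) (l 16524080)))) (b (a (c (l 16503480) (l 16497048)) (l 16501208)) (a (c (l 16517600) (l 16511704)) (l 16515768))))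 (c (b (l 16513184) (a (l 16526920) (l 16526704))) (b (l 16502296) (l 16517032))))) (b (a (c (b (a (l 16464352) (l 16465816)) (a (l 16474776) (l 16476416))) (b (l 16451856) (l 16463040))) (c (l 16483744) (l 16461992))) (a (b (c (a (l 16487616) (l 16489416)) (a (l 16475440) (l 16478032))) (c (a (c (l 16505904) (l 16500192)) (l 16504984)) (a (l 16491808) (l 16494544)))) (b (c (l 16491768) (l 16481600)) (c (l 16507512) (l 16498280)))))) (c (b (c (a (l 16495688) (l 16493176)) (a (l 16485344) (l 16484736))) (a (c (b (l 16512000) (l 16525912)) (l 16510448)) (c (l 16537752) (l 16510120)))) (b (a (l 16491504) (l 16472632)) (a (b (l 16489880) (l 16506312)) (l 16542408))))), by decide +kernel⟩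

def k2_pm_022_a : ∃ t, chk3 f_pm_022_a t 9 2 1 = true :=
  ⟨(b (a (c (b (c (l 16463256) (l 16456008)) (c (l 16491936) (l 16485312))) (b (l 16445744) (l 16496840))) (c (b (l 16488016) (l 16514744)) (a (l 16485968) (l 16482816)))) (a (c (b (a (l 16517472) (l 16517920)) (c (a (l 16529184) (l 4)) (l 16553960))) (b (c (l 16535584) (l 16530776)) (a (l 16539424) (l 4)))) (l 4))), by decide +kernel⟩

def k3_pm_022_a : ∃ t, chk3 f_pm_022_a t 16 6 1 = true :=
  ⟨(b (c (a (b (c (a (c (b (l 16540952) (l 16549312)) (b (l 16535344) (l 16544048))) (c (l 16545312) (l 16540304))) (a (c (b (l 16529808) (l 16538848)) (l 16529032)) (l 16532928))) (c (a (b (c (l 16558344) (l 16553440)) (c (l 16568136) (l 16563608))) (c (l 16563560) (l 16559280))) (a (b (l 16546192) (l 16556904)) (l 16552936)))) (c (b (a (l 16542968) (l 16542896)) (a (l 16561752) (l 16561864))) (b (l 16534376) (l 16554616)))) (a (b (c (a (b (l 16516328) (l 16526144)) (l 16523312)) (a (l 16511096) (l 16513952))) (c (a (b (l 16536728) (l 16548128))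 (l 16544632)) (a (l 16533520) (l 16536504)))) (b (c (l 16526016) (l 16517864)) (c (l 16547536) (l 16540584))))) (c (b (a (c (a (b (c (l 16578936) (l 16574784)) (c (l 16590584) (l 16586808))) (b (l 16577552) (l 16589496))) (a (b (l 16568608) (l 16581184)) (l 16576448))) (c (a (l 16584032) (l 16584344)) (a (l 16577792) (l 16578912)))) (a (c (a (b (c (l 16603096) (l 16599704)) (c (l 16616520) (l 16613528))) (b (l 16602312) (l 16616048))) (a (b (l 16594656) (l 16609056)) (l 16603576))) (c (b (l 16603280) (l 16617064)) (a (l 16605096) (l 16606248))))) (a (b (c (a (b (l 16560512) (l 16573784)) (l 16569488)) (a (l 16559520) (l 16562632))) (a (c (b (l 16587976) (l 16603120)) (b (l 16581360) (l 16597216))) (c (l 16598024) (l 16592512)))) (a (b (l 16568560) (c (l 16600296) (l 16595512))) (b (l 16570856) (l 16605440)))))), by decide +kernel⟩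

def k4_pm_022_a : ∃ t, chk3 f_pm_022_a t 17 6 1 = true :=
  ⟨(a (b (c (c (b (l 16542352) (l 16561464)) (b (l 16535536) (l 16555960))) (b (l 16525584) (l 16547840))) (c (b (c (l 16613784) (l 16599232)) (a (c (l 16628760) (l 16604728)) (l 4))) (a (b (l 16572792) (l 16631600)) (b (l 16572320) (l 4))))) (b (c (b (c (l 16538520) (l 16533640)) (c (l 16574744) (l 16571416))) (b (l 16526504) (l 16587520))) (l 4))), by decide +kernel⟩

def k5_pm_022_a : ∃ t, chk3 f_pm_022_a t 9 6 1 = true :=
  ⟨(l 4), by decide +kernel⟩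

def k6_pm_022_a : ∃ t, chk3 f_pm_022_a t 4 7 1 = true :=
  ⟨(a (b (a (b (a (c (b (c (a (c (l 16630904) (l 16628320)) (l 16630760)) (a (l 16624440) (l 16626312))) (c (a (c (l 16646376) (l 16644192)) (l 16646544)) (a (l 16640896) (l 16642864)))) (a (b (c (l 16619264) (l 16614088)) (c (l 16636480) (l 16632040))) (b (l 16619632) (l 16637280)))) (a (c (c (b (l 16631688) (l 16647416)) (b (l 16627968) (l 16644448))) (b (l 16622360) (l 16639936))) (c (c (b (l 16630952) (l 16644624)) (b (l 16628080) (l 16642648))) (b (l 16623728) (l 16639648))))) (l 6)) (l 4)) (a (l 6) (l 4))) (l 4)), by decide +kernel⟩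

def k7_pm_022_a : ∃ t, chk3 f_pm_022_a t 5 1 1 = true :=
  ⟨(b (l 4) (l 4)), by decide +kernel⟩

def k8_pm_022_a : ∃ t, chk3 f_pm_022_a t 3 1 1 = true :=
  ⟨(l 1), by decide +kernel⟩

theorem s9_pm_022_a : ∃ t, chk3 f_pm_022_a t 8 6 1 = true := ex3_a k3_pm_022_a k4_pm_022_a

theorem s10_pm_022_a : ∃ t, chk3 f_pm_022_a t 4 6 1 = true := ex3_a s9_pm_022_a k5_pm_022_a

theorem s11_pm_022_a : ∃ t, chk3 f_pm_022_a t 4 3 1 = true := ex3_b s10_pm_022_a k6_pm_022_a

theorem s12_pm_022_a : ∃ t, chk3 f_pm_022_a t 8 2 1 = true := ex3_b k0_pm_022_a k1_pm_022_a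

theorem s13_pm_022_a : ∃ t, chk3 f_pm_022_a t 4 2 1 = true := ex3_a s12_pm_022_a k2_pm_022_a

theorem s14_pm_022_a : ∃ t, chk3 f_pm_022_a t 4 1 1 = true := ex3_b s13_pm_022_a s11_pm_022_a

theorem s15_pm_022_a : ∃ t, chk3 f_pm_022_a t 2 1 1 = true := ex3_a s14_pm_022_a k7_pm_022_a

theorem s16_pm_022_a : ∃ t, chk3 f_pm_022_a t 1 1 1 = true := ex3_a s15_pm_022_a k8_pm_022_a

theorem c_pm_022_a : CertF 0 536870912 0 536870912 201326592 134217728 false true false .pp 0 2 2
    ndF0q0 ndF2q2a pcF2 cut_pm_022_a Ext.none :=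
  certF2 (fam := false) (s1 := true) (s2 := false) (a := 0) (b := 2) (c := 2) (cn := .pp) (n1 := ndF0q0) (n2 := ndF2q2a) (pc := pcF2) (cut := cut_pm_022_a) (xt := Ext.none) (P1 := 0) (W1 := 536870912) (P2 := 0) (W2 := 536870912) (P3 := 201326592) (W3 := 134217728)
    rfl (fun _ => rfl) s16_pm_022_a

noncomputable def cut_pm_022_b : Cut := Cut.of [[⟨0, 0, 0, 67108864⟩, ⟨1, 1, 0, 67108864⟩, ⟨2, 1, 0, 67108864⟩]]

noncomputable def f_pm_022_b : ℕ → ℕ → ℕ → ℕ → Bool := onCell 1073741824 536870912 1239849684 370763052 201326592 134217728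
    (rowF 2 false true false .pp 0 2 2 (qsf 0 536870912 1239849684 370763052 2) ndF0q0 ndF2q2b pcF2 cut_pm_022_b Ext.none)

def k0_pm_022_b : ∃ t, chk3 f_pm_022_b t 4 4 1 = true :=
  ⟨(a (b (a (c (a (c (b (b (a (c (l 16472360) (l 16463600)) (l 16467016)) (c (l 16479776) (l 16449472))) (b (c (l 16467928) (l 16436792)) (c (l 16436288) (l 16425264)))) (b (a (c (l 16447656) (l 16438920)) (l 16443064)) (a (c (l 16421128) (l 16410768)) (l 16414848)))) (c (b (a (l 16458848) (l 16457576)) (l 16452880)) (b (l 16442624) (l 16413232)))) (a (b (b (c (l 16434960) (l 16419880)) (c (l 16418480) (l 16401936))) (c (a (l 16395672) (l 16395568)) (a (l 16376400) (l 16377216)))) (b (c (l 16427800) (l 16413704)) (c (l 16395392) (l 16378408))))) (b (c (c (a (l 16455480) (l 16452024)) (a (l 16441816) (l 16440288))) (a (l 16422496) (l 16423712))) (c (c (a (l 16427656) (l 16423152)) (l 16451840)) (a (l 16387408) (l 16387784))))) (a (c (a (c (b (a (c (b (l 16624808) (l 16865120)) (l 16411456)) (l 16434296)) (c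 (l 17015344) (a (l 16625440) (l 16794312)))) (b (a (c (l 16399104) (l 16387032)) (l 16391072)) (c (l 16382824) (l 16366712)))) (c (b (l 16418592) (c (l 17121480) (l 16766216))) (b (l 16388048) (l 16367400)))) (a (c (b (a (l 16369440) (l 16368488)) (a (l 16347936) (l 16345968))) (b (l 16367880) (l 16321544))) (c (b (l 16367000) (l 16342976)) (b (l 16346928) (l 16319664))))) (c (c (b (a (l 16471816) (l 16446112)) (a (l 16908376) (l 16876712))) (a (l 16392904) (l 16367064))) (a (b (l 16355880) (l 16328480)) (l 16381608))))) (b (a (c (b (c (l 16444984) (l 16436296)) (c (l 16414848) (l 16403392))) (a (l 16468168) (l 16446544))) (c (a (b (l 16432664) (l 16400264)) (c (l 16448160) (l 16443936))) (b (l 16459888) (l 16423912)))) (a (c (c (a (l 16648912) (l 16628624)) (l 16401120)) (b (l 16352832) (l 16321504))) (c (b (l 16408000) (l 16465888)) (l 16393240))))), by decide +kernel⟩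

def k1_pm_022_b : ∃ t, chk3 f_pm_022_b t 4 5 1 = true :=
  ⟨(a (c (b (a (c (b (a (c (l 17492960) (l 17171088)) (l 17292080)) (l 17587112)) (b (a (b (l 16402656) (l 16611448)) (l 16651288)) (a (c (l 17170168) (l 16878664)) (l 16987008)))) (c (b (l 17237376) (l 17513520)) (b (l 16582272) (l 16936536)))) (a (c (l 17895272) (b (l 17107760) (l 17492696))) (c (l 17826920) (l 17238224)))) (a (b (a (c (b (l 16350856) (l 16336152)) (b (l 16301112) (l 16286504))) (c (l 16357888) (l 16287608))) (b (a (c (l 16554616) (l 16278288)) (l 16357928)) (a (c (l 17027504) (l 16543952)) (l 16560376)))) (b (a (c (l 16309096) (l 16282872)) (l 16290104)) (a (b (l 16430136) (l 16715768)) (l 16486856))))) (c (b (a (c (l 17277360) (l 16472680)) (b (l 16822128) (l 17115760))) (a (c (l 17764984) (l 17263504)) (l 17441256))) (a (b (b (l 16294152) (l 16271216)) (b (l 16363856) (l 16645752))) (b (l 16291944) (l 16470808))))), by decide +kernel⟩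

def k2_pm_022_b : ∃ t, chk3 f_pm_022_b t 5 2 1 = true :=
  ⟨(a (a (b (b (l 4) (c (b (l 16372504) (l 16459808)) (l 16371416))) (b (c (b (l 16796064) (l 17078944)) (l 16295376)) (c (l 17418720) (l 16443624)))) (b (l 4) (c (b (l 4) (l 17382888)) (l 65732236455)))) (l 4)), by decide +kernel⟩

def k3_pm_022_b : ∃ t, chk3 f_pm_022_b t 2 3 1 = true :=
  ⟨(a (b (a (c (b (a (c (l 18163216) (l 17739080)) (l 17892264)) (c (l 18291144) (l 17929144))) (b (a (b (c (l 17223608) (a (l 16799424) (l 16762728))) (c (l 17397664) (l 16991232))) (b (l 16936056) (l 17130864))) (a (b (l 17350784) (l 17476624)) (l 17337976)))) (c (b (a (l 17838392) (l 17789480)) (l 18022368)) (b (a (l 16961904) (l 16937288)) (a (l 17308352) (l 17264480))))) (a (c (b (l 18208512) (l 18237752)) (b (a (l 17617328) (l 17568976)) (l 17712664))) (c (b (l 18144408) (l 18198208)) (b (l 17506200) (l 17646008))))) (a (b (c (b (l 17725576) (l 17946176)) (b (a (l 16900912) (l 16873648)) (l 17211184))) (c (l 18128112) (b (l 17439376) (l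 17591744)))) (b (a (c (l 17791664) (l 116735862487)) (l 4)) (c (l 18077216) (b (l 17388112) (l 17548328)))))), by decide +kernel⟩

def k4_pm_022_b : ∃ t, chk3 f_pm_022_b t 3 1 1 = true :=
  ⟨(b (l 4) (a (b (l 4) (a (c (l 18019776) (l 17437632)) (l 4))) (l 4))), by decide +kernel⟩

theorem s5_pm_022_b : ∃ t, chk3 f_pm_022_b t 4 2 1 = true := ex3_b k0_pm_022_b k1_pm_022_b

theorem s6_pm_022_b : ∃ t, chk3 f_pm_022_b t 2 2 1 = true := ex3_a s5_pm_022_b k2_pm_022_b

theorem s7_pm_022_b : ∃ t, chk3 f_pm_022_b t 2 1 1 = true := ex3_b s6_pm_022_b k3_pm_022_b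

theorem s8_pm_022_b : ∃ t, chk3 f_pm_022_b t 1 1 1 = true := ex3_a s7_pm_022_b k4_pm_022_b

theorem c_pm_022_b : CertF 0 536870912 1239849684 370763052 201326592 134217728 false true false .pp 0 2 2
    ndF0q0 ndF2q2b pcF2 cut_pm_022_b Ext.none :=
  certF2 (fam := false) (s1 := true) (s2 := false) (a := 0) (b := 2) (c := 2) (cn := .pp) (n1 := ndF0q0) (n2 := ndF2q2b) (pc := pcF2) (cut := cut_pm_022_b) (xt := Ext.none) (P1 := 0) (W1 := 536870912) (P2 := 1239849684) (W2 := 370763052) (P3 := 201326592) (W3 := 134217728)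
    rfl (fun _ => rfl) s8_pm_022_b

noncomputable def f_pm_023 : ℕ → ℕ → ℕ → ℕ → Bool := onCell 0 536870912 1073741824 536870912 201326592 134217728
    (rowF 1 false true false .up 0 2 3 (qsf 0 536870912 1610612736 536870912 2) ndF0q0 ndF2q3 pcF2 Cut.none Ext.none)

def k0_pm_023 : ∃ t, chk3 f_pm_023 t 1 1 1 = true :=
  ⟨(a (b (b (l 1) (a (l 1) (b (l 1) (c (l 313568202439) (l 292092279287))))) (b (a (l 4) (b (c (l 18048600) (l 328599804791)) (l 4))) (l 4))) (b (a (b (c (l 303368132615) (b (l 1) (l 284039568599))) (c (l 314643176487) (b (l 312494029943) (l 248606612279)))) (a (b (c (l 284041327223) (l 293166875527)) (c (l 18136496) (l 17724744))) (b (c (l 18197200) (b (l 282429358311) (l 17745752))) (l 17867048)))) (b (a (b (c (l 18128176) (l 17707784)) (l 17884160)) (a (l 17819384) (l 17709016))) (a (b (l 17820480) (l 17733736)) (l 17602288))))), by decide +kernel⟩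

theorem c_pm_023 : CertF 0 536870912 1610612736 536870912 201326592 134217728 false true false .up 0 2 3
    ndF0q0 ndF2q3 pcF2 Cut.none Ext.none :=
  certF1 (fam := false) (s1 := true) (s2 := false) (a := 0) (b := 2) (c := 3) (cn := .up) (n1 := ndF0q0) (n2 := ndF2q3) (pc := pcF2) (cut := Cut.none) (xt := Ext.none) (P1 := 0) (W1 := 536870912) (P2 := 1610612736) (W2 := 536870912) (P3 := 201326592) (W3 := 134217728)
    rfl (fun _ => rfl) k0_pm_023

noncomputable def f_pm_033 : ℕ → ℕ → ℕ → ℕ → Bool := onCell 1610612736 536870912 1610612736 536870912 201326592 134217728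
    (rowF 2 false true false .pnn 0 3 3 (qsf 0 536870912 1610612736 536870912 3) ndF0q0 ndF2q3 pcF3 Cut.none Ext.none)

def k0_pm_033 : ∃ t, chk3 f_pm_033 t 1 1 1 = true :=
  ⟨(a (b (l 4) (a (b (a (b (l 4) (l 17613424)) (l 4)) (a (b (l 17459400) (l 17245672)) (b (l 17503248) (l 17478056)))) (b (l 4) (a (l 80230364663) (l 4))))) (l 4)), by decide +kernel⟩

theorem c_pm_033 : CertF 0 536870912 1610612736 536870912 201326592 134217728 false true false .pnn 0 3 3
    ndF0q0 ndF2q3 pcF3 Cut.none Ext.none :=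
  certF2 (fam := false) (s1 := true) (s2 := false) (a := 0) (b := 3) (c := 3) (cn := .pnn) (n1 := ndF0q0) (n2 := ndF2q3) (pc := pcF3) (cut := Cut.none) (xt := Ext.none) (P1 := 0) (W1 := 536870912) (P2 := 1610612736) (W2 := 536870912) (P3 := 201326592) (W3 := 134217728)
    rfl (fun _ => rfl) k0_pm_033

noncomputable def f_pm_101 : ℕ → ℕ → ℕ → ℕ → Bool := onCell 536870912 536870912 536870912 536870912 201326592 134217728
    (rowF 0 false true false .npn 1 0 1 (qsf 536870912 536870912 536870912 536870912 0) ndF0q1 ndF2q1 pcF0 Cut.none Ext.none)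

def k0_pm_101 : ∃ t, chk3 f_pm_101 t 1 1 1 = true :=
  ⟨(l 4), by decide +kernel⟩

theorem c_pm_101 : CertF 536870912 536870912 536870912 536870912 201326592 134217728 false true false .npn 1 0 1
    ndF0q1 ndF2q1 pcF0 Cut.none Ext.none :=
  certF0 (fam := false) (s1 := true) (s2 := false) (a := 1) (b := 0) (c := 1) (cn := .npn) (n1 := ndF0q1) (n2 := ndF2q1) (pc := pcF0) (cut := Cut.none) (xt := Ext.none) (P1 := 536870912) (W1 := 536870912) (P2 := 536870912) (W2 := 536870912) (P3 := 201326592) (W3 := 134217728)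
    rfl k0_pm_101

noncomputable def cut_pm_102_a : Cut := Cut.of [[⟨0, 1, 0, 67108864⟩, ⟨1, 0, 0, 67108864⟩, ⟨2, 1, 0, 67108864⟩]]

noncomputable def f_pm_102_a : ℕ → ℕ → ℕ → ℕ → Bool := onCell 536870912 536870912 0 536870912 201326592 134217728
    (rowF 0 false true false .npp 1 0 2 (qsf 536870912 536870912 0 536870912 0) ndF0q1 ndF2q2a pcF0 cut_pm_102_a Ext.none)

def k0_pm_102_a : ∃ t, chk3 f_pm_102_a t 2 1 1 = true :=
  ⟨(a (b (a (l 2) (l 17202632)) (b (a (l 2) (c (l 17325080) (l 17239088))) (a (c (b (l 17481472) (a (l 17553296) (l 17477848))) (b (l 17407816) (a (c (l 17418624) (l 17351536)) (a (l 17353304) (l 17332800))))) (b (c (l 17376872) (l 17304040)) (c (l 17397728) (a (l 17302136) (l 17261736))))))) (b (a (l 17093088) (l 16979680)) (b (a (a (l 17192280) (l 17138512)) (c (l 17086864) (l 17026240))) (a (b (c (l 17271016) (c (l 17198400) (l 17177560))) (c (l 17294248) (c (l 17221768) (l 17265208)))) (b (c (l 17218104) (l 17085328)) (c (l 17418192) (a (l 17139080) (l 17160936)))))))),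 by decide +kernel⟩

def k1_pm_102_a : ∃ t, chk3 f_pm_102_a t 6 2 1 = true :=
  ⟨(a (l 16934720) (a (l 16860848) (l 16912640))), by decide +kernel⟩

def k2_pm_102_a : ∃ t, chk3 f_pm_102_a t 14 2 1 = true :=
  ⟨(a (b (l 16774896) (l 16779920)) (b (l 16775232) (b (l 16759320) (l 16764600)))), by decide +kernel⟩

def k3_pm_102_a : ∃ t, chk3 f_pm_102_a t 30 2 1 = true :=
  ⟨(c (b (a (l 16739368) (a (l 16730776) (b (a (l 16725280) (b (a (l 16722520) (c (c (l 120963622951) (l 121500491831)) (b (l 122037355623) (l 16717728)))) (c (l 16726296) (l 16719440)))) (l 16726152)))) (a (l 16745432) (b (l 16732200) (l 16736936)))) (b (a (l 16730688) (a (l 16719576) (b (a (l 16712224) (b (c (l 120426730695) (l 119889845959)) (l 16709272))) (l 16713952)))) (a (l 16740344) (b (l 16722576) (l 16729576))))), by decide +kernel⟩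

def k4_pm_102_a : ∃ t, chk3 f_pm_102_a t 124 8 1 = true :=
  ⟨(a (c (b (a (b (a (c (l 139754099239) (l 138680345271)) (l 3)) (a (c (b (l 124721714295) (l 16723976)) (l 123647967815)) (c (c (l 139754105143) (l 139217226791)) (l 138143473911)))) (l 3)) (a (b (a (c (l 16724328) (l 16717136)) (c (c (l 123111103639) (l 123647974567)) (l 124184838343))) (c (l 16724464) (l 16717376))) (b (a (c (c (l 139217233783) (l 138680355447)) (b (l 141901569703) (l 136532860951))) (l 3)) (a (c (c (l 123647974583) (l 124184844919)) (b (l 125258579511) (l 16716352))) (c (c (l 139217233319) (l 138680355047)) (c (l 138143476823) (l 137606598663))))))) (c (c (b (l 138143462295) (a (l 122574212807) (l 135995979047))) (b (l 137606584199) (a (l 122037334887) (l 135459100999)))) (b (l 137069702599) (a (l 122037328391) (l 134922219495))))) (l 3)), by decide +kernel⟩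

def k5_pm_102_a : ∃ t, chk3 f_pm_102_a t 124 9 1 = true :=
  ⟨(a (c (b (a (l 16721800) (b (a (c (l 16723928) (l 16716856)) (c (c (l 124184846391) (l 124721715479)) (c (l 124721708311) (l 124721700871)))) (c (l 16724112) (l 16717184)))) (c (l 16725656) (l 16719160))) (b (c (a (l 16711648) (b (l 124184823207) (l 16710336))) (l 122574199591)) (l 16709488))) (c (b (a (b (a (c (c (l 138680361991) (l 138680354695)) (c (l 138143476535) (l 137606598439))) (l 3)) (a (c (c (l 125258589223) (l 125795457031)) (c (l 125795449783) (l 125795442599))) (c (c (l 138680361607) (l 138143483495)) (c (l 138143476359) (l 137606598343))))) (l 3)) (a (b (a (c (l 16723640) (l 16716776)) (c (c (l 125795461319) (l 126332327751)) (c (l 126869191383) (l 126332313559)))) (c (l 16723920) (l 16717240))) (b (a (c (c (b (l 141901586583) (l 136532877847)) (b (l 141364708535) (l 135995999895))) (c (l 138143476279) (l 137606598391))) (l 3)) (a (c (c (b (l 127406074631) (l 16724768)) (l 127406069191)) (c (l 127942933271)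 (l 127406055415))) (c (c (c (l 138680362871) (l 138143488471)) (b (l 141364708439) (l 135995999863))) (c (l 137606610695) (l 137606598599))))))) (c (b (a (b (l 139754070887) (a (l 125795435767) (l 137069716903))) (l 3)) (a (b (l 125795436167) (l 16710624)) (b (a (l 137069727575) (l 3)) (c (l 133848496167) (l 133311618519))))) (b (b (l 140290926663) (l 136532831751)) (b (l 133311608103) (l 130090384839)))))), by decide +kernel⟩

def k6_pm_102_a : ∃ t, chk3 f_pm_102_a t 125 4 1 = true :=
  ⟨(b (l 3) (l 3)), by decide +kernel⟩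

def k7_pm_102_a : ∃ t, chk3 f_pm_102_a t 63 4 1 = true :=
  ⟨(l 3), by decide +kernel⟩

def k8_pm_102_a : ∃ t, chk3 f_pm_102_a t 62 10 1 = true :=
  ⟨(a (a (c (l 16724944) (l 16713480)) (b (b (c (a (l 16721376) (a (c (l 16723584) (l 16717000)) (c (c (b (l 129016688327) (l 16724752)) (b (l 129016681463) (l 16721424))) (c (l 129016675175) (l 129016668375))))) (c (c (l 126869178615) (l 16709312)) (l 126332294999))) (c (c (l 16724688) (l 16718424)) (c (l 16712192) (l 16706000)))) (c (c (l 16726024) (l 16720184)) (l 16711432)))) (a (b (c (a (b (a (c (c (c (a (l 133848524791) (l 141364717079)) (l 138143491079)) (c (l 138143485063) (l 138143481671))) (c (b (l 140827830791) (l 135995993303)) (l 137606598999))) (l 3)) (a (c (c (c (l 130090430599) (l 130090427223)) (b (l 130627294263) (l 16721592))) (c (l 130627288279) (l 130090410727))) (c (c (c (b (l 141364717111) (l 136532879479)) (b (l 141364713767) (l 136532876183))) (c (l 138143487927) (l 138143482007))) (c (b (l 140827831191) (l 135995993815))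 (l 137606599623))))) (l 3)) (a (c (c (b (l 139754075479) (l 134385368391)) (b (l 139217197927) (l 133848491047))) (b (l 139217188039) (l 133311610551))) (l 3))) (c (a (b (a (c (l 16723872) (l 16717640)) (c (c (c (l 131164172599) (l 130627298343)) (b (l 131164165591) (l 16721872))) (c (l 130627288711) (l 130090411351)))) (c (l 16724528) (l 16718544))) (b (a (c (c (c (b (l 141364717351) (l 136532879799)) (b (l 141364714087) (l 136532876615))) (b (l 141901580119) (a (l 132237907575) (l 140827838823)))) (c (b (l 141364702743) (l 135995994567)) (l 138680342311))) (l 3)) (a (c (c (c (l 131164172951) (l 131164169687)) (b (l 131164166151) (l 16722280))) (c (l 130627289511) (l 130627283239))) (c (c (a (c (l 138680363863) (l 138680360743)) (c (l 143512201607) (l 143512198471))) (b (l 143512193559) (l 136532872663))) (c (b (l 142975316375) (l 135995995607)) (l 140290956215)))))) (b (a (c (b (l 129553533783) (l 16711408)) (l 16704872)) (c (c (l 140827819159) (l 140290941927)) (l 139217190695)))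 (a (l 16709624) (c (c (l 134385370775) (l 134385364695)) (l 133848484727)))))) (l 3))), by decide +kernel⟩

def k9_pm_102_a : ∃ t, chk3 f_pm_102_a t 62 11 1 = true :=
  ⟨(a (c (b (l 16727040) (l 16730184)) (b (l 16716848) (l 16721192))) (a (b (b (c (a (l 16722808) (a (c (l 16724664) (l 16718832)) (c (c (b (l 131701043991) (l 16725776)) (b (l 131701037879) (l 16722848))) (c (l 130627290599) (l 130627284535))))) (c (c (l 128479795623) (l 16712032)) (l 127942913383))) (c (c (l 16726272) (l 16720800)) (l 16712616))) (c (c (l 16728512) (l 16723528)) (l 16716024))) (b (c (a (b (a (c (c (c (a (l 140827848311) (l 145659686071)) (l 142975328727)) (b (l 145122807303) (l 136532873799))) (c (b (l 145122801223) (l 135995996967)) (l 141901570439))) (l 3)) (a (c (c (b (l 131701044807) (l 16726400)) (l 131164168807)) (c (l 131164162951) (l 130627286023))) (c (c (b (l 147270298135) (l 136532881015)) (b (l 147270292263) (l 136532875287))) (c (l 144585932583) (l 143512184999))))) (l 3)) (a (c (b (b (l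 145122785767) (l 139217207239)) (b (l 135995983431) (l 133311630711))) (b (l 141364678343) (l 134385360343))) (l 3))) (c (a (b (a (c (l 16726096) (l 16720720)) (c (c (l 131701046887) (l 131701041143)) (c (l 131164164599) (l 16718624)))) (c (l 16727432) (l 16722328))) (b (a (c (c (b (l 149417783239) (l 137069753543)) (l 146733423767)) (c (l 146196547319) (l 145659670871))) (l 3)) (a (c (c (l 131701048375) (l 131701043127)) (b (l 132237907943) (l 16721760))) (c (c (l 149417785831) (l 148880909591)) (b (l 150491513415) (l 137069742487)))))) (b (a (c (l 130090412359) (l 16709576)) (a (c (l 144049049895) (l 141364684391)) (l 3))) (a (l 16714696) (c (a (l 131164156407) (l 145659665623)) (l 134922237655)))))))), by decide +kernel⟩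

def k10_pm_102_a : ∃ t, chk3 f_pm_102_a t 63 5 1 = true :=
  ⟨(a (b (l 3) (l 3)) (l 3)), by decide +kernel⟩

def k11_pm_102_a : ∃ t, chk3 f_pm_102_a t 6 3 1 = true :=
  ⟨(b (a (l 17052960) (l 17081008)) (a (b (a (l 17043328) (l 16993624)) (c (b (l 17166096) (l 17087376)) (b (l 17031064) (l 17040544)))) (b (a (l 16945264) (l 16897960)) (c (b (l 16982432) (l 17102944)) (a (l 16976872) (l 17104104)))))), by decide +kernel⟩

def k12_pm_102_a : ∃ t, chk3 f_pm_102_a t 14 6 1 = true :=
  ⟨(a (l 16912424) (b (l 16772600) (l 16822640))), by decide +kernel⟩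

def k13_pm_102_a : ∃ t, chk3 f_pm_102_a t 30 6 1 = true :=
  ⟨(a (b (l 16754544) (l 16766280)) (b (l 16773688) (a (l 16757312) (l 16751376)))), by decide +kernel⟩

def k14_pm_102_a : ∃ t, chk3 f_pm_102_a t 62 6 1 = true :=
  ⟨(b (a (c (l 16736504) (l 16729416)) (a (b (c (l 16730040) (l 16721288)) (l 16731272)) (b (a (c (l 16728008) (l 16718776)) (c (c (b (c (l 131164179927) (l 131164174823)) (l 16730112)) (b (b (l 131701039783) (l 16723656)) (l 16725504))) (b (c (l 131164159815) (l 16713216)) (l 16718576)))) (c (c (l 16734312) (l 16730304)) (l 16724208))))) (a (b (l 16741968) (l 16749080)) (c (b (l 16739152) (l 16745504)) (b (l 16732848) (l 16740792))))), by decide +kernel⟩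

def k15_pm_102_a : ∃ t, chk3 f_pm_102_a t 63 6 1 = true :=
  ⟨(b (a (a (b (a (c (b (a (c (c (l 151565271847) (l 151028395863)) (b (l 152102129031) (l 137069745575))) (l 3)) (c (c (l 136532889687) (l 136532884903)) (a (l 132237914567) (l 152102133559)))) (c (b (l 149417765047) (l 135995997303)) (b (l 146196529495) (l 135995987799)))) (l 3)) (c (c (c (b (a (l 16732336) (l 137606634071)) (b (l 141901605799) (l 142975349943))) (b (l 137606630519) (l 141364737143))) (a (b (l 132237918567) (l 16729648)) (b (l 155323362679) (l 137069756983)))) (c (b (a (l 16722320) (l 152638998967)) (l 133848527095)) (b (l 136532863879) (l 133311645175))))) (l 3)) (l 3)) (a (b (a (c (a (l 16735848) (b (c (c (l 141901611047) (l 16734056)) (l 133848539767)) (c (l 16737728) (l 16734296)))) (b (c (l 131164178439) (l 16724240)) (l 16729880))) (a (c (c (c (b (l 137069770487) (a (l 140291001719) (l 137606645671))) (b (l 137069766503) (l 139217255335))) (b (l 141364727799) (l 138680379047))) (c (b (l 142438461623)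 (l 137606630007)) (b (l 142975324519) (l 137069751847)))) (l 3))) (a (c (b (l 16739864) (l 16743336)) (l 16736000)) (c (a (b (c (a (l 16739776) (c (l 137606651447) (l 134385422631))) (l 130090453031)) (c (l 16742728) (l 16739992))) (b (a (c (c (l 137069779303) (l 137069776055)) (l 137069771143)) (l 3)) (a (c (c (l 134922301687) (l 131164202311)) (l 127406103447)) (c (c (l 136532913527) (l 136532910631)) (l 136532906247))))) (c (a (b (l 16733112) (l 16737200)) (b (l 144585956951) (l 136532900999))) (a (b (l 16729872) (l 16734352)) (b (l 145122821159) (l 138143507799))))))) (l 3))), by decide +kernel⟩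

def k16_pm_102_a : ∃ t, chk3 f_pm_102_a t 7 7 1 = true :=
  ⟨(b (a (a (l 16850992) (a (l 16815984) (l 16813832))) (a (a (l 16842040) (b (l 16766072) (l 16795592))) (a (b (a (l 16757320) (c (l 16753016) (l 16749904))) (a (l 16766592) (l 16781880))) (a (a (b (c (l 16749128) (l 16745168)) (b (l 16754144) (l 16759184))) (b (a (c (b (l 16745168) (l 16749264)) (l 16742816)) (c (b (b (c (c (l 130090467719) (l 126332368615)) (l 122574270007)) (c (l 16746048) (l 16743680))) (c (l 16748992) (l 16746936))) (b (c (l 111836848807) (l 16737536)) (l 16743728)))) (b (c (l 16752888) (l 16749648)) (l 6)))) (b (a (a (c (b (a (c (c (b (l 135459175783) (l 137606662839)) (l 136532927255)) (b (l 135459169111) (l 137069785751))) (l 3)) (a (b (c (c (l 128479860807) (l 125258633047)) (l 121500534679)) (c (l 16749072) (l 16747016))) (b (c (c (l 135459182135) (l 135459179815)) (l 135459176295)) (c (c (l 137069798423) (l 137069796327)) (l 136532922215))))) (c (b (l 135996046903) (b (l 136532913911) (l 136532918551)))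 (b (l 135459160103) (a (l 115058076839) (l 135459169143))))) (l 3)) (l 3)) (a (a (a (b (c (c (l 16752136) (l 16750424)) (l 16747720)) (l 6)) (l 6)) (l 6)) (l 3))))))) (a (b (a (l 16897440) (l 16850400)) (a (c (l 16933440) (l 16909928)) (c (b (l 16906336) (l 16892328)) (l 16995928)))) (a (b (a (l 16814504) (l 16863720)) (b (c (l 16915544) (l 16907016)) (a (l 16916176) (l 6)))) (b (a (a (l 16818216) (l 6)) (l 6)) (l 6))))), by decide +kernel⟩

theorem s17_pm_102_a : ∃ t, chk3 f_pm_102_a t 31 6 1 = true := ex3_a k14_pm_102_a k15_pm_102_a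

theorem s18_pm_102_a : ∃ t, chk3 f_pm_102_a t 15 6 1 = true := ex3_a k13_pm_102_a s17_pm_102_a

theorem s19_pm_102_a : ∃ t, chk3 f_pm_102_a t 7 6 1 = true := ex3_a k12_pm_102_a s18_pm_102_a

theorem s20_pm_102_a : ∃ t, chk3 f_pm_102_a t 7 3 1 = true := ex3_b s19_pm_102_a k16_pm_102_a

theorem s21_pm_102_a : ∃ t, chk3 f_pm_102_a t 3 3 1 = true := ex3_a k11_pm_102_a s20_pm_102_a

theorem s22_pm_102_a : ∃ t, chk3 f_pm_102_a t 62 5 1 = true := ex3_b k8_pm_102_a k9_pm_102_a

theorem s23_pm_102_a : ∃ t, chk3 f_pm_102_a t 31 5 1 = true := ex3_a s22_pm_102_a k10_pm_102_a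

theorem s24_pm_102_a : ∃ t, chk3 f_pm_102_a t 124 4 1 = true := ex3_b k4_pm_102_a k5_pm_102_a

theorem s25_pm_102_a : ∃ t, chk3 f_pm_102_a t 62 4 1 = true := ex3_a s24_pm_102_a k6_pm_102_a

theorem s26_pm_102_a : ∃ t, chk3 f_pm_102_a t 31 4 1 = true := ex3_a s25_pm_102_a k7_pm_102_a

theorem s27_pm_102_a : ∃ t, chk3 f_pm_102_a t 31 2 1 = true := ex3_b s26_pm_102_a s23_pm_102_a

theorem s28_pm_102_a : ∃ t, chk3 f_pm_102_a t 15 2 1 = true := ex3_a k3_pm_102_a s27_pm_102_a

theorem s29_pm_102_a : ∃ t, chk3 f_pm_102_a t 7 2 1 = true := ex3_a k2_pm_102_a s28_pm_102_a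

theorem s30_pm_102_a : ∃ t, chk3 f_pm_102_a t 3 2 1 = true := ex3_a k1_pm_102_a s29_pm_102_a

theorem s31_pm_102_a : ∃ t, chk3 f_pm_102_a t 3 1 1 = true := ex3_b s30_pm_102_a s21_pm_102_a

theorem s32_pm_102_a : ∃ t, chk3 f_pm_102_a t 1 1 1 = true := ex3_a k0_pm_102_a s31_pm_102_a

theorem c_pm_102_a : CertF 536870912 536870912 0 536870912 201326592 134217728 false true false .npp 1 0 2
    ndF0q1 ndF2q2a pcF0 cut_pm_102_a Ext.none :=
  certF0 (fam := false) (s1 := true) (s2 := false) (a := 1) (b := 0) (c := 2) (cn := .npp) (n1 := ndF0q1) (n2 := ndF2q2a) (pc := pcF0) (cut := cut_pm_102_a) (xt := Ext.none) (P1 := 536870912) (W1 := 536870912) (P2 := 0) (W2 := 536870912) (P3 := 201326592) (W3 := 134217728)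
    rfl s32_pm_102_a

noncomputable def cut_pm_102_b : Cut := Cut.of [[⟨0, 1, 0, 67108864⟩, ⟨1, 0, 0, 67108864⟩, ⟨2, 1, 0, 67108864⟩]]

noncomputable def f_pm_102_b : ℕ → ℕ → ℕ → ℕ → Bool := onCell 536870912 536870912 1239849684 370763052 201326592 134217728
    (rowF 0 false true false .npp 1 0 2 (qsf 536870912 536870912 1239849684 370763052 0) ndF0q1 ndF2q2b pcF0 cut_pm_102_b Ext.none)

def k0_pm_102_b : ∃ t, chk3 f_pm_102_b t 2 1 1 = true :=
  ⟨(b (a (l 2) (a (b (l 17017400) (l 2)) (b (l 16900544) (l 16806840)))) (l 2)), by decide +kernel⟩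

def k1_pm_102_b : ∃ t, chk3 f_pm_102_b t 6 2 1 = true :=
  ⟨(b (a (a (l 16817216) (l 16829080)) (a (l 16882872) (l 16838248))) (a (l 17030064) (b (l 16924536) (l 16981888)))), by decide +kernel⟩

def k2_pm_102_b : ∃ t, chk3 f_pm_102_b t 14 2 1 = true :=
  ⟨(b (a (b (l 16789728) (l 16875216)) (b (a (l 16757664) (l 16745376)) (a (l 16857648) (l 16832248)))) (a (b (l 16960280) (l 17034256)) (b (a (l 16962968) (l 16956680)) (a (l 17050200) (l 17055912))))), by decide +kernel⟩

def k3_pm_102_b : ∃ t, chk3 f_pm_102_b t 30 4 1 = true :=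
  ⟨(a (b (c (l 16754408) (l 16725200)) (c (l 16925744) (l 16730864))) (b (a (c (l 16729776) (l 16713576)) (a (c (b (l 16724368) (l 16727288)) (b (l 16708976) (l 16707640))) (c (a (b (c (l 16726184) (l 16718072)) (c (l 16805936) (l 16719792))) (b (b (a (c (l 16724768) (l 16717016)) (c (c (l 134922265207) (l 134922260071)) (b (l 135459128327) (l 133848515399)))) (c (c (l 130090428023) (l 130090420055)) (c (l 129553544023) (l 129553540647)))) (c (a (l 16715376) (b (c (l 16792576) (l 16724504)) (l 16720544))) (b (c (l 16719888) (l 16714944)) (l 16719088))))) (a (b (c (l 16710088) (l 16702224)) (l 16704648)) (b (a (c (l 16719216) (l 16700752)) (c (b (c (l 133848501639) (l 133311623591)) (c (l 131164144935) (l 16705304))) (b (l 132774746471) (l 130090387687)))) (b (c (b (l 16707632) (l 16707696)) (l 16698024)) (c (l 16708184) (l 16697496)))))))) (a (c (l 16735712) (l 16718312)) (c (a (b (l 16796656) (l 16935160)) (c (b (b (l 16803936) (l 16939560)) (l 17009216)) (b (b (l 16722568) (l 16763000))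 (l 16738408)))) (b (a (l 16709696) (a (l 16706560) (c (b (l 16709648) (l 16712072)) (l 16698312)))) (a (l 16715664) (c (l 16718632) (l 16704024)))))))), by decide +kernel⟩

def k4_pm_102_b : ∃ t, chk3 f_pm_102_b t 31 4 1 = true :=
  ⟨(a (b (a (a (a (a (b (l 3) (b (a (c (c (c (l 346449576215) (l 179482544519)) (c (l 160692053031) (l 144585922007))) (c (a (l 137069724439) (l 3)) (l 137606576615))) (l 3)) (c (c (c (l 145123105271) (l 141901681863)) (c (l 139217225175) (l 138680343111))) (c (a (l 134385368231) (l 143512164391)) (l 136532821351))))) (l 3)) (l 3)) (l 3)) (l 3)) (a (a (c (a (b (c (c (l 147270731255) (b (l 145659895527) (l 145660007639))) (c (b (l 141901608119) (l 142975470071)) (b (l 140827830455) (l 139754095079)))) (c (l 142975632567) (b (b (l 141364768503) (l 141364844279)) (l 138143542119)))) (l 3)) (a (b (b (a (c (c (l 135459102759) (l 135459102007)) (l 134922221255)) (l 3)) (b (c (l 139217202791) (l 137606564407)) (c (l 138680334727) (l 137069695159)))) (a (c (b (l 16713976)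 (l 16718496)) (b (l 16699704) (l 16703024))) (c (b (l 145122768935) (l 139217200391)) (b (l 141364664855) (l 138143429175))))) (l 3))) (l 3)) (l 3))) (l 3)), by decide +kernel⟩

def k5_pm_102_b : ∃ t, chk3 f_pm_102_b t 15 5 1 = true :=
  ⟨(a (a (b (c (l 17060224) (l 16824344)) (c (l 17160072) (l 16954232))) (b (c (a (l 17057024) (b (c (l 17089880) (l 16940256)) (l 17002208))) (a (l 16791552) (a (l 16729920) (b (c (l 16783392) (l 16713120)) (l 16720400))))) (c (b (l 17144768) (l 17192264)) (a (l 16940464) (b (l 16724432) (l 16962032)))))) (a (b (a (a (c (b (c (l 156397600359) (b (l 148881248375) (l 149418230167))) (c (l 17155544) (l 147270655223))) (b (b (a (c (l 134385370887) (l 133311597751)) (c (l 304573499415) (l 216526604519))) (a (c (l 16797248) (l 16712584)) (c (l 152639136583) (l 148880880679)))) (b (c (l 146196726007) (l 141901554135)) (c (l 146733748311) (l 142438453159))))) (l 3)) (l 3)) (a (b (c (c (l 157471662695) (l 158008421047)) (a (c (l 145123056167) (b (l 143512289111)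 (l 16728608))) (l 3))) (c (l 159619211959) (c (l 160155773895) (a (l 142438607015) (l 317995564439))))) (l 3))) (l 3))), by decide +kernel⟩

def k6_pm_102_b : ∃ t, chk3 f_pm_102_b t 3 3 1 = true :=
  ⟨(a (a (l 2) (b (a (l 17025008) (l 17073456)) (l 2))) (a (b (a (l 17262672) (b (l 17124776) (l 17174688))) (a (l 2) (b (l 17205000) (l 2)))) (b (a (a (b (c (l 17230312) (l 17052792)) (l 17198728)) (c (b (l 17247448) (l 17295344)) (b (b (l 17023800) (l 17071872)) (a (l 17128192) (l 17130568))))) (a (a (b (c (c (l 17312400) (l 162840425959)) (a (b (c (l 17072248) (l 16960656)) (l 17048192)) (c (b (l 155324050871) (l 17098480)) (b (l 154786949719) (l 159618907799))))) (c (l 174114914167) (b (l 171430075383) (l 17128200)))) (l 3)) (l 3))) (a (a (c (l 17300728) (l 17182736)) (b (b (l 17221688) (l 17254976)) (l 17263856))) (a (b (c (l 172504523591) (a (l 181630898183) (l 835539740199))) (c (l 17339216) (l 178409887751))) (l 3)))))), by decide +kernel⟩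

theorem s7_pm_102_b : ∃ t, chk3 f_pm_102_b t 15 4 1 = true := ex3_a k3_pm_102_b k4_pm_102_b

theorem s8_pm_102_b : ∃ t, chk3 f_pm_102_b t 15 2 1 = true := ex3_b s7_pm_102_b k5_pm_102_b

theorem s9_pm_102_b : ∃ t, chk3 f_pm_102_b t 7 2 1 = true := ex3_a k2_pm_102_b s8_pm_102_b

theorem s10_pm_102_b : ∃ t, chk3 f_pm_102_b t 3 2 1 = true := ex3_a k1_pm_102_b s9_pm_102_b

theorem s11_pm_102_b : ∃ t, chk3 f_pm_102_b t 3 1 1 = true := ex3_b s10_pm_102_b k6_pm_102_b

theorem s12_pm_102_b : ∃ t, chk3 f_pm_102_b t 1 1 1 = true := ex3_a k0_pm_102_b s11_pm_102_b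

theorem c_pm_102_b : CertF 536870912 536870912 1239849684 370763052 201326592 134217728 false true false .npp 1 0 2
    ndF0q1 ndF2q2b pcF0 cut_pm_102_b Ext.none :=
  certF0 (fam := false) (s1 := true) (s2 := false) (a := 1) (b := 0) (c := 2) (cn := .npp) (n1 := ndF0q1) (n2 := ndF2q2b) (pc := pcF0) (cut := cut_pm_102_b) (xt := Ext.none) (P1 := 536870912) (W1 := 536870912) (P2 := 1239849684) (W2 := 370763052) (P3 := 201326592) (W3 := 134217728)
    rfl s12_pm_102_b

noncomputable def f_pm_112_a : ℕ → ℕ → ℕ → ℕ → Bool := onCell 536870912 536870912 0 536870912 201326592 134217728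
    (rowF 0 false true false .dn 1 1 2 (qsf 536870912 536870912 0 536870912 1) ndF0q1 ndF2q2a pcF1 Cut.none Ext.none)

def k0_pm_112_a : ∃ t, chk3 f_pm_112_a t 1 1 1 = true :=
  ⟨(a (a (b (a (c (l 17511760) (b (l 17222160) (l 17225184))) (c (l 17511232) (l 17339480))) (b (b (a (c (l 17513536) (l 17290160)) (l 17311672)) (c (a (c (l 17577632) (l 17429128)) (l 17534864)) (a (a (l 17201352) (l 17230000)) (a (l 17255152) (l 17277832))))) (a (a (b (c (l 17474584) (c (l 17262592) (l 17128160))) (a (c (b (l 17453752) (c (l 17513592) (l 11845841927))) (b (l 17184600) (b (c (l 17247632) (l 17123056)) (a (c (l 11308678055) (c (l 17151096) (l 22045857527))) (c (l 183107383559) (l 168611636311)))))) (c (b (l 17467976) (l 208340646279)) (b (l 17199672) (b (l 174517269431) (l 1)))))) (b (c (l 17498720) (b (l 17225688) (l 17223088))) (c (l 211025209623) (b (l 170222394007) (l 1))))) (a (b (c (l 17521976) (l 155727005335)) (l 1)) (l 1))))) (b (a (c (l 17512688) (l 17301376)) (l 1)) (b (l 1) (l 1))))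 (l 1)), by decide +kernel⟩

theorem c_pm_112_a : CertF 536870912 536870912 0 536870912 201326592 134217728 false true false .dn 1 1 2
    ndF0q1 ndF2q2a pcF1 Cut.none Ext.none :=
  certF0 (fam := false) (s1 := true) (s2 := false) (a := 1) (b := 1) (c := 2) (cn := .dn) (n1 := ndF0q1) (n2 := ndF2q2a) (pc := pcF1) (cut := Cut.none) (xt := Ext.none) (P1 := 536870912) (W1 := 536870912) (P2 := 0) (W2 := 536870912) (P3 := 201326592) (W3 := 134217728)
    rfl k0_pm_112_a

noncomputable def f_pm_112_b : ℕ → ℕ → ℕ → ℕ → Bool := onCell 536870912 536870912 1239849684 370763052 201326592 134217728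
    (rowF 0 false true false .dn 1 1 2 (qsf 536870912 536870912 1239849684 370763052 1) ndF0q1 ndF2q2b pcF1 Cut.none Ext.none)

def k0_pm_112_b : ∃ t, chk3 f_pm_112_b t 1 1 1 = true :=
  ⟨(a (b (a (b (a (c (l 17542792) (l 17331664)) (c (l 17512200) (l 17262624))) (a (c (l 17648936) (l 17332768)) (l 17441464))) (b (a (c (l 17485120) (l 17268232)) (l 149285146311)) (a (l 17391368) (l 17354448)))) (a (a (b (c (l 17781824) (l 17446280)) (c (l 17937920) (l 17582464))) (b (l 17517728) (l 17611272))) (a (b (l 17422984) (l 17467136)) (b (l 17345192) (l 17343400))))) (b (a (b (l 1) (a (a (l 17335208) (l 232500313591)) (b (l 1) (l 213709250519)))) (l 1)) (a (a (b (a (l 17303952) (l 17295808)) (l 17278760)) (b (a (l 17290504) (l 17285960)) (l 17258680))) (a (b (a (l 158411981447) (l 438658581143)) (b (l 140158350199) (l 17249008))) (b (l 1) (a (b (a (l 17264856) (l 605624931831)) (a (l 17261664) (l 113314363879))) (a (b (l 1) (c (l 189684479943) (a (l 17223400) (l 180020417991)))) (l 3)))))))),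 by decide +kernel⟩

theorem c_pm_112_b : CertF 536870912 536870912 1239849684 370763052 201326592 134217728 false true false .dn 1 1 2
    ndF0q1 ndF2q2b pcF1 Cut.none Ext.none :=
  certF0 (fam := false) (s1 := true) (s2 := false) (a := 1) (b := 1) (c := 2) (cn := .dn) (n1 := ndF0q1) (n2 := ndF2q2b) (pc := pcF1) (cut := Cut.none) (xt := Ext.none) (P1 := 536870912) (W1 := 536870912) (P2 := 1239849684) (W2 := 370763052) (P3 := 201326592) (W3 := 134217728)
    rfl k0_pm_112_b

noncomputable def cut_pm_113 : Cut := Cut.of [[⟨0, 1, 0, 57167902⟩, ⟨1, 1, 0, 57167902⟩, ⟨2, 2, 0, 11758673⟩]]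

noncomputable def f_pm_113 : ℕ → ℕ → ℕ → ℕ → Bool := onCell 536870912 536870912 536870912 536870912 201326592 134217728
    (rowF 1 false true false .nn 1 1 3 (qsf 536870912 536870912 1610612736 536870912 1) ndF0q1 ndF2q3 pcF1 cut_pm_113 Ext.none)

def k0_pm_113 : ∃ t, chk3 f_pm_113 t 1 1 1 = true :=
  ⟨(a (b (b (l 1) (a (l 1) (a (l 1) (l 157874513959)))) (b (a (a (l 1) (l 175591896039)) (a (l 143916485975) (b (l 17325776) (l 17349312)))) (a (c (a (l 17939352) (l 17833216)) (a (b (l 17545816) (l 17656744)) (l 17563008))) (a (l 17670280) (b (l 17373776) (l 17397744)))))) (b (b (a (a (l 1) (l 140158367831)) (c (a (l 117072903287) (a (b (l 98818961623) (l 17260920)) (a (b (b (l 17361928) (l 17321184)) (l 17274528)) (l 3)))) (a (b (l 150895291047) (l 17222208)) (b (a (b (l 140157843063) (l 17222280)) (a (c (l 139218483399) (b (a (l 146063217815) (a (l 148210742183) (l 3))) (l 141902586007))) (l 3))) (a (l 17235808) (a (l 141902651927) (l 3))))))) (a (a (l 107946070791) (l 17413048)) (a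 (c (l 17313832) (l 17421704)) (b (c (l 187537089223) (b (l 128481239399) (l 135460418087))) (c (l 150492742839) (l 147808276167)))))) (b (b (a (l 17235888) (a (l 17144752) (a (l 17091192) (c (l 17066456) (l 175188364455))))) (a (l 17227792) (a (l 17117760) (a (l 17119920) (c (l 17156480) (a (l 17009088) (l 178946188231))))))) (a (a (l 17251000) (l 17153360)) (a (b (l 17182272) (l 17019552)) (a (b (l 17109776) (b (l 16951680) (l 16928912))) (b (a (c (l 16984400) (l 16973384)) (b (c (l 16974648) (l 16945560)) (b (l 227264423303) (l 233706831447)))) (b (a (l 16907896) (a (c (l 16896288) (l 16876040)) (b (l 246591682311) (b (l 253570974407) (l 257329046407))))) (a (l 16858808) (a (b (l 16847696) (l 16819464)) (a (b (l 16814456) (c (l 16809376) (l 16803624))) (b (b (l 263234600247) (b (l 269140166343) (l 271287636951))) (a (c (l 16781192) (b (l 16804552) (l 16790624))) (b (b (l 272898236455) (b (l 277193196775) (l 278803802871))) (l 6))))))))))))))), by decide +kernel⟩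

theorem c_pm_113 : CertF 536870912 536870912 1610612736 536870912 201326592 134217728 false true false .nn 1 1 3
    ndF0q1 ndF2q3 pcF1 cut_pm_113 Ext.none :=
  certF1 (fam := false) (s1 := true) (s2 := false) (a := 1) (b := 1) (c := 3) (cn := .nn) (n1 := ndF0q1) (n2 := ndF2q3) (pc := pcF1) (cut := cut_pm_113) (xt := Ext.none) (P1 := 536870912) (W1 := 536870912) (P2 := 1610612736) (W2 := 536870912) (P3 := 201326592) (W3 := 134217728)
    rfl (fun _ => rfl) k0_pm_113

noncomputable def cut_pm_123 : Cut := Cut.of [[⟨0, 1, 0, 57167902⟩, ⟨1, 1, 0, 57167902⟩, ⟨2, 2, 0, 11758673⟩]]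

noncomputable def f_pm_123 : ℕ → ℕ → ℕ → ℕ → Bool := onCell 1073741824 536870912 1610612736 536870912 201326592 134217728
    (rowF 2 false true false .npn 1 2 3 (qsf 536870912 536870912 1610612736 536870912 2) ndF0q1 ndF2q3 pcF2 cut_pm_123 Ext.none)

def k0_pm_123 : ∃ t, chk3 f_pm_123 t 1 1 1 = true :=
  ⟨(a (b (a (b (b (a (c (l 18203352) (b (l 17769240) (l 17775064))) (c (l 18193952) (l 278135105687))) (a (c (l 18106024) (l 17748176)) (c (l 18122040) (l 17738512)))) (a (b (l 17804592) (l 17665144)) (b (l 17836000) (a (l 17690936) (l 17712384))))) (b (a (b (l 1) (l 265787464967)) (l 1)) (a (b (l 17859120) (l 17743976)) (b (l 17878528) (l 17780544))))) (a (b (a (b (l 17496584) (l 17310320)) (a (b (l 17534632) (l 17356936)) (a (l 17448752) (b (l 17569024) (l 17396536))))) (a (b (b (l 17163200) (a (l 17043024) (l 17078632))) (b (a (b (l 16966120) (l 16916280)) (l 16972520)) (a (b (a (l 16859784) (l 16871600)) (a (b (l 16820912) (l 6)) (l 16817992))) (l 16864096)))) (a (b (l 17164088)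 (b (l 17011096) (l 16900000))) (a (b (l 17191096) (l 16984688)) (b (l 17207192) (l 17004320)))))) (a (b (a (b (l 17586672) (a (l 17411568) (l 17425680))) (b (l 17610536) (l 17444328))) (a (a (b (l 17223032) (l 17022304)) (b (l 17321056) (a (l 17032176) (l 17037960)))) (b (l 17256080) (l 17048856)))) (b (b (l 17648312) (l 17493616)) (b (l 17470360) (l 17092032)))))) (b (a (b (l 1) (a (b (l 1) (l 17809928)) (l 1))) (l 1)) (a (b (a (b (l 17693536) (l 17548536)) (b (l 17727312) (l 17600312))) (a (b (l 17382496) (l 17162032)) (b (l 17446216) (l 17249080)))) (b (a (b (l 1) (l 17634272)) (l 1)) (a (b (l 17504120) (l 17339560)) (b (l 17534984) (l 17405992))))))), by decide +kernel⟩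

theorem c_pm_123 : CertF 536870912 536870912 1610612736 536870912 201326592 134217728 false true false .npn 1 2 3
    ndF0q1 ndF2q3 pcF2 cut_pm_123 Ext.none :=
  certF2 (fam := false) (s1 := true) (s2 := false) (a := 1) (b := 2) (c := 3) (cn := .npn) (n1 := ndF0q1) (n2 := ndF2q3) (pc := pcF2) (cut := cut_pm_123) (xt := Ext.none) (P1 := 536870912) (W1 := 536870912) (P2 := 1610612736) (W2 := 536870912) (P3 := 201326592) (W3 := 134217728)
    rfl (fun _ => rfl) k0_pm_123

noncomputable def f_pm_133 : ℕ → ℕ → ℕ → ℕ → Bool := onCell 536870912 536870912 1610612736 536870912 201326592 134217728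
    (rowF 0 false true false .dn 1 3 3 (qsf 536870912 536870912 1610612736 536870912 3) ndF0q1 ndF2q3 pcF3 Cut.none Ext.none)

def k0_pm_133 : ∃ t, chk3 f_pm_133 t 1 1 1 = true :=
  ⟨(a (b (l 1) (a (b (l 1) (a (b (l 1) (l 185791834999)) (l 1))) (l 1))) (l 1)), by decide +kernel⟩

theorem c_pm_133 : CertF 536870912 536870912 1610612736 536870912 201326592 134217728 false true false .dn 1 3 3
    ndF0q1 ndF2q3 pcF3 Cut.none Ext.none :=
  certF0 (fam := false) (s1 := true) (s2 := false) (a := 1) (b := 3) (c := 3) (cn := .dn) (n1 := ndF0q1) (n2 := ndF2q3) (pc := pcF3) (cut := Cut.none) (xt := Ext.none) (P1 := 536870912) (W1 := 536870912) (P2 := 1610612736) (W2 := 536870912) (P3 := 201326592) (W3 := 134217728)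
    rfl k0_pm_133

noncomputable def cut_pm_202_a : Cut := Cut.of [[⟨0, 1, 0, 67108864⟩, ⟨1, 0, 0, 67108864⟩, ⟨2, 1, 0, 67108864⟩]]

noncomputable def f_pm_202_a : ℕ → ℕ → ℕ → ℕ → Bool := onCell 0 536870912 0 536870912 201326592 134217728
    (rowF 0 false true false .pp 2 0 2 (qsf 0 536870912 0 536870912 0) ndF0q2 ndF2q2a pcF0 cut_pm_202_a Ext.none)

def k0_pm_202_a : ∃ t, chk3 f_pm_202_a t 1 1 1 = true :=
  ⟨(a (l 3) (b (l 3) (a (l 3) (b (l 3) (b (l 3) (a (l 3) (l 6))))))), by decide +kernel⟩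

theorem c_pm_202_a : CertF 0 536870912 0 536870912 201326592 134217728 false true false .pp 2 0 2
    ndF0q2 ndF2q2a pcF0 cut_pm_202_a Ext.none :=
  certF0 (fam := false) (s1 := true) (s2 := false) (a := 2) (b := 0) (c := 2) (cn := .pp) (n1 := ndF0q2) (n2 := ndF2q2a) (pc := pcF0) (cut := cut_pm_202_a) (xt := Ext.none) (P1 := 0) (W1 := 536870912) (P2 := 0) (W2 := 536870912) (P3 := 201326592) (W3 := 134217728)
    rfl k0_pm_202_a

noncomputable def cut_pm_202_b : Cut := Cut.of [[⟨0, 1, 0, 67108864⟩, ⟨1, 0, 0, 67108864⟩, ⟨2, 1, 0, 67108864⟩]]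

noncomputable def f_pm_202_b : ℕ → ℕ → ℕ → ℕ → Bool := onCell 0 536870912 1239849684 370763052 201326592 134217728
    (rowF 0 false true false .pp 2 0 2 (qsf 0 536870912 1239849684 370763052 0) ndF0q2 ndF2q2b pcF0 cut_pm_202_b Ext.none)

def k0_pm_202_b : ∃ t, chk3 f_pm_202_b t 1 1 1 = true :=
  ⟨(a (l 3) (l 3)), by decide +kernel⟩

theorem c_pm_202_b : CertF 0 536870912 1239849684 370763052 201326592 134217728 false true false .pp 2 0 2
    ndF0q2 ndF2q2b pcF0 cut_pm_202_b Ext.none :=
  certF0 (fam := false) (s1 := true) (s2 := false) (a := 2) (b := 0) (c := 2) (cn := .pp) (n1 := ndF0q2) (n2 := ndF2q2b) (pc := pcF0) (cut := cut_pm_202_b) (xt := Ext.none) (P1 := 0) (W1 := 536870912) (P2 := 1239849684) (W2 := 370763052) (P3 := 201326592) (W3 := 134217728)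
    rfl k0_pm_202_b

noncomputable def f_pm_203 : ℕ → ℕ → ℕ → ℕ → Bool := onCell 0 536870912 0 536870912 201326592 134217728
    (rowF 1 false true false .up 2 0 3 (qsf 0 536870912 1610612736 536870912 0) ndF0q2 ndF2q3 pcF0 Cut.none Ext.none)

def k0_pm_203 : ∃ t, chk3 f_pm_203 t 1 1 1 = true :=
  ⟨(b (l 1) (a (l 3) (l 3))), by decide +kernel⟩

theorem c_pm_203 : CertF 0 536870912 1610612736 536870912 201326592 134217728 false true false .up 2 0 3
    ndF0q2 ndF2q3 pcF0 Cut.none Ext.none :=
  certF1 (fam := false) (s1 := true) (s2 := false) (a := 2) (b := 0) (c := 3) (cn := .up) (n1 := ndF0q2) (n2 := ndF2q3) (pc := pcF0) (cut := Cut.none) (xt := Ext.none) (P1 := 0) (W1 := 536870912) (P2 := 1610612736) (W2 := 536870912) (P3 := 201326592) (W3 := 134217728)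
    rfl (fun _ => rfl) k0_pm_203

noncomputable def cut_pm_213 : Cut := Cut.of [[⟨0, 1, 0, 57167902⟩, ⟨1, 1, 0, 57167902⟩, ⟨2, 2, 0, 11758673⟩]]

noncomputable def f_pm_213 : ℕ → ℕ → ℕ → ℕ → Bool := onCell 0 536870912 1610612736 536870912 201326592 134217728
    (rowF 0 false true false .pnn 2 1 3 (qsf 0 536870912 1610612736 536870912 1) ndF0q2 ndF2q3 pcF1 cut_pm_213 Ext.none)

def k0_pm_213 : ∃ t, chk3 f_pm_213 t 1 1 1 = true :=
  ⟨(a (l 3) (a (l 3) (a (b (l 3) (l 3)) (b (l 3) (b (l 3) (b (l 3) (a (l 3) (b (l 3) (b (l 3) (b (l 3) (l 6))))))))))), by decide +kernel⟩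

theorem c_pm_213 : CertF 0 536870912 1610612736 536870912 201326592 134217728 false true false .pnn 2 1 3
    ndF0q2 ndF2q3 pcF1 cut_pm_213 Ext.none :=
  certF0 (fam := false) (s1 := true) (s2 := false) (a := 2) (b := 1) (c := 3) (cn := .pnn) (n1 := ndF0q2) (n2 := ndF2q3) (pc := pcF1) (cut := cut_pm_213) (xt := Ext.none) (P1 := 0) (W1 := 536870912) (P2 := 1610612736) (W2 := 536870912) (P3 := 201326592) (W3 := 134217728)
    rfl k0_pm_213

noncomputable def f_mm_001 : ℕ → ℕ → ℕ → ℕ → Bool := onCell 0 536870912 0 536870912 201326592 134217728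
    (rowF 1 false false false .up 0 0 1 (qsf 0 536870912 536870912 536870912 0) ndF0q0 ndF2q1 pcF0 Cut.none Ext.none)

def k0_mm_001 : ∃ t, chk3 f_mm_001 t 1 1 1 = true :=
  ⟨(l 3), by decide +kernel⟩

theorem c_mm_001 : CertF 0 536870912 536870912 536870912 201326592 134217728 false false false .up 0 0 1
    ndF0q0 ndF2q1 pcF0 Cut.none Ext.none :=
  certF1 (fam := false) (s1 := false) (s2 := false) (a := 0) (b := 0) (c := 1) (cn := .up) (n1 := ndF0q0) (n2 := ndF2q1) (pc := pcF0) (cut := Cut.none) (xt := Ext.none) (P1 := 0) (W1 := 536870912) (P2 := 536870912) (W2 := 536870912) (P3 := 201326592) (W3 := 134217728)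
    rfl (fun _ => rfl) k0_mm_001

noncomputable def f_mm_011 : ℕ → ℕ → ℕ → ℕ → Bool := onCell 0 536870912 536870912 536870912 201326592 134217728
    (rowF 1 false false false .pnn 0 1 1 (qsf 0 536870912 536870912 536870912 1) ndF0q0 ndF2q1 pcF1 Cut.none Ext.none)

def k0_mm_011 : ∃ t, chk3 f_mm_011 t 1 1 1 = true :=
  ⟨(l 5), by decide +kernel⟩

theorem c_mm_011 : CertF 0 536870912 536870912 536870912 201326592 134217728 false false false .pnn 0 1 1
    ndF0q0 ndF2q1 pcF1 Cut.none Ext.none :=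
  certF1 (fam := false) (s1 := false) (s2 := false) (a := 0) (b := 1) (c := 1) (cn := .pnn) (n1 := ndF0q0) (n2 := ndF2q1) (pc := pcF1) (cut := Cut.none) (xt := Ext.none) (P1 := 0) (W1 := 536870912) (P2 := 536870912) (W2 := 536870912) (P3 := 201326592) (W3 := 134217728)
    rfl (fun _ => rfl) k0_mm_011

noncomputable def f_mm_012_a : ℕ → ℕ → ℕ → ℕ → Bool := onCell 0 536870912 0 536870912 201326592 134217728
    (rowF 0 false false false .pnp 0 1 2 (qsf 0 536870912 0 536870912 1) ndF0q0 ndF2q2a pcF1 Cut.none Ext.none)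

def k0_mm_012_a : ∃ t, chk3 f_mm_012_a t 1 1 1 = true :=
  ⟨(l 5), by decide +kernel⟩

theorem c_mm_012_a : CertF 0 536870912 0 536870912 201326592 134217728 false false false .pnp 0 1 2
    ndF0q0 ndF2q2a pcF1 Cut.none Ext.none :=
  certF0 (fam := false) (s1 := false) (s2 := false) (a := 0) (b := 1) (c := 2) (cn := .pnp) (n1 := ndF0q0) (n2 := ndF2q2a) (pc := pcF1) (cut := Cut.none) (xt := Ext.none) (P1 := 0) (W1 := 536870912) (P2 := 0) (W2 := 536870912) (P3 := 201326592) (W3 := 134217728)
    rfl k0_mm_012_a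

noncomputable def f_mm_012_b : ℕ → ℕ → ℕ → ℕ → Bool := onCell 0 536870912 1239849684 370763052 201326592 134217728
    (rowF 0 false false false .pnp 0 1 2 (qsf 0 536870912 1239849684 370763052 1) ndF0q0 ndF2q2b pcF1 Cut.none Ext.none)

def k0_mm_012_b : ∃ t, chk3 f_mm_012_b t 1 1 1 = true :=
  ⟨(l 5), by decide +kernel⟩

theorem c_mm_012_b : CertF 0 536870912 1239849684 370763052 201326592 134217728 false false false .pnp 0 1 2
    ndF0q0 ndF2q2b pcF1 Cut.none Ext.none :=
  certF0 (fam := false) (s1 := false) (s2 := false) (a := 0) (b := 1) (c := 2) (cn := .pnp) (n1 := ndF0q0) (n2 := ndF2q2b) (pc := pcF1) (cut := Cut.none) (xt := Ext.none) (P1 := 0) (W1 := 536870912) (P2 := 1239849684) (W2 := 370763052) (P3 := 201326592) (W3 := 134217728)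
    rfl k0_mm_012_b

noncomputable def f_mm_022_a : ℕ → ℕ → ℕ → ℕ → Bool := onCell 0 536870912 0 536870912 201326592 134217728
    (rowF 0 false false false .pp 0 2 2 (qsf 0 536870912 0 536870912 2) ndF0q0 ndF2q2a pcF2 Cut.none Ext.none)

def k0_mm_022_a : ∃ t, chk3 f_mm_022_a t 1 1 1 = true :=
  ⟨(l 5), by decide +kernel⟩

theorem c_mm_022_a : CertF 0 536870912 0 536870912 201326592 134217728 false false false .pp 0 2 2
    ndF0q0 ndF2q2a pcF2 Cut.none Ext.none :=
  certF0 (fam := false) (s1 := false) (s2 := false) (a := 0) (b := 2) (c := 2) (cn := .pp) (n1 := ndF0q0) (n2 := ndF2q2a) (pc := pcF2) (cut := Cut.none) (xt := Ext.none) (P1 := 0) (W1 := 536870912) (P2 := 0) (W2 := 536870912) (P3 := 201326592) (W3 := 134217728)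
    rfl k0_mm_022_a

noncomputable def f_mm_022_b : ℕ → ℕ → ℕ → ℕ → Bool := onCell 0 536870912 1239849684 370763052 201326592 134217728
    (rowF 0 false false false .pp 0 2 2 (qsf 0 536870912 1239849684 370763052 2) ndF0q0 ndF2q2b pcF2 Cut.none Ext.none)

def k0_mm_022_b : ∃ t, chk3 f_mm_022_b t 1 1 1 = true :=
  ⟨(l 5), by decide +kernel⟩

theorem c_mm_022_b : CertF 0 536870912 1239849684 370763052 201326592 134217728 false false false .pp 0 2 2
    ndF0q0 ndF2q2b pcF2 Cut.none Ext.none :=
  certF0 (fam := false) (s1 := false) (s2 := false) (a := 0) (b := 2) (c := 2) (cn := .pp) (n1 := ndF0q0) (n2 := ndF2q2b) (pc := pcF2) (cut := Cut.none) (xt := Ext.none) (P1 := 0) (W1 := 536870912) (P2 := 1239849684) (W2 := 370763052) (P3 := 201326592) (W3 := 134217728)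
    rfl k0_mm_022_b

noncomputable def f_mm_023 : ℕ → ℕ → ℕ → ℕ → Bool := onCell 0 536870912 1610612736 536870912 201326592 134217728
    (rowF 0 false false false .up 0 2 3 (qsf 0 536870912 1610612736 536870912 2) ndF0q0 ndF2q3 pcF2 Cut.none Ext.none)

def k0_mm_023 : ∃ t, chk3 f_mm_023 t 1 1 1 = true :=
  ⟨(l 5), by decide +kernel⟩

theorem c_mm_023 : CertF 0 536870912 1610612736 536870912 201326592 134217728 false false false .up 0 2 3
    ndF0q0 ndF2q3 pcF2 Cut.none Ext.none :=
  certF0 (fam := false) (s1 := false) (s2 := false) (a := 0) (b := 2) (c := 3) (cn := .up) (n1 := ndF0q0) (n2 := ndF2q3) (pc := pcF2) (cut := Cut.none) (xt := Ext.none) (P1 := 0) (W1 := 536870912) (P2 := 1610612736) (W2 := 536870912) (P3 := 201326592) (W3 := 134217728)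
    rfl k0_mm_023

noncomputable def f_mm_033 : ℕ → ℕ → ℕ → ℕ → Bool := onCell 0 536870912 1610612736 536870912 201326592 134217728
    (rowF 0 false false false .pnn 0 3 3 (qsf 0 536870912 1610612736 536870912 3) ndF0q0 ndF2q3 pcF3 Cut.none Ext.none)

def k0_mm_033 : ∃ t, chk3 f_mm_033 t 1 1 1 = true :=
  ⟨(l 5), by decide +kernel⟩

theorem c_mm_033 : CertF 0 536870912 1610612736 536870912 201326592 134217728 false false false .pnn 0 3 3
    ndF0q0 ndF2q3 pcF3 Cut.none Ext.none :=
  certF0 (fam := false) (s1 := false) (s2 := false) (a := 0) (b := 3) (c := 3) (cn := .pnn) (n1 := ndF0q0) (n2 := ndF2q3) (pc := pcF3) (cut := Cut.none) (xt := Ext.none) (P1 := 0) (W1 := 536870912) (P2 := 1610612736) (W2 := 536870912) (P3 := 201326592) (W3 := 134217728)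
    rfl k0_mm_033

noncomputable def f_mm_101 : ℕ → ℕ → ℕ → ℕ → Bool := onCell 0 536870912 536870912 536870912 201326592 134217728
    (rowF 2 false false false .npn 1 0 1 (qsf 536870912 536870912 536870912 536870912 0) ndF0q1 ndF2q1 pcF0 Cut.none Ext.none)

def k0_mm_101 : ∃ t, chk3 f_mm_101 t 1 1 1 = true :=
  ⟨(a (l 3) (l 3)), by decide +kernel⟩

theorem c_mm_101 : CertF 536870912 536870912 536870912 536870912 201326592 134217728 false false false .npn 1 0 1
    ndF0q1 ndF2q1 pcF0 Cut.none Ext.none :=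
  certF2 (fam := false) (s1 := false) (s2 := false) (a := 1) (b := 0) (c := 1) (cn := .npn) (n1 := ndF0q1) (n2 := ndF2q1) (pc := pcF0) (cut := Cut.none) (xt := Ext.none) (P1 := 536870912) (W1 := 536870912) (P2 := 536870912) (W2 := 536870912) (P3 := 201326592) (W3 := 134217728)
    rfl (fun _ => rfl) k0_mm_101

noncomputable def f_mm_102_a : ℕ → ℕ → ℕ → ℕ → Bool := onCell 536870912 536870912 0 536870912 201326592 134217728
    (rowF 0 false false false .npp 1 0 2 (qsf 536870912 536870912 0 536870912 0) ndF0q1 ndF2q2a pcF0 Cut.none Ext.none)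

def k0_mm_102_a : ∃ t, chk3 f_mm_102_a t 1 1 1 = true :=
  ⟨(l 3), by decide +kernel⟩

theorem c_mm_102_a : CertF 536870912 536870912 0 536870912 201326592 134217728 false false false .npp 1 0 2
    ndF0q1 ndF2q2a pcF0 Cut.none Ext.none :=
  certF0 (fam := false) (s1 := false) (s2 := false) (a := 1) (b := 0) (c := 2) (cn := .npp) (n1 := ndF0q1) (n2 := ndF2q2a) (pc := pcF0) (cut := Cut.none) (xt := Ext.none) (P1 := 536870912) (W1 := 536870912) (P2 := 0) (W2 := 536870912) (P3 := 201326592) (W3 := 134217728)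
    rfl k0_mm_102_a

noncomputable def f_mm_102_b : ℕ → ℕ → ℕ → ℕ → Bool := onCell 536870912 536870912 1239849684 370763052 201326592 134217728
    (rowF 0 false false false .npp 1 0 2 (qsf 536870912 536870912 1239849684 370763052 0) ndF0q1 ndF2q2b pcF0 Cut.none Ext.none)

def k0_mm_102_b : ∃ t, chk3 f_mm_102_b t 1 1 1 = true :=
  ⟨(l 5), by decide +kernel⟩

theorem c_mm_102_b : CertF 536870912 536870912 1239849684 370763052 201326592 134217728 false false false .npp 1 0 2
    ndF0q1 ndF2q2b pcF0 Cut.none Ext.none :=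
  certF0 (fam := false) (s1 := false) (s2 := false) (a := 1) (b := 0) (c := 2) (cn := .npp) (n1 := ndF0q1) (n2 := ndF2q2b) (pc := pcF0) (cut := Cut.none) (xt := Ext.none) (P1 := 536870912) (W1 := 536870912) (P2 := 1239849684) (W2 := 370763052) (P3 := 201326592) (W3 := 134217728)
    rfl k0_mm_102_b

noncomputable def f_mm_112_a : ℕ → ℕ → ℕ → ℕ → Bool := onCell 536870912 536870912 0 536870912 201326592 134217728
    (rowF 0 false false false .dn 1 1 2 (qsf 536870912 536870912 0 536870912 1) ndF0q1 ndF2q2a pcF1 Cut.none Ext.none)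

def k0_mm_112_a : ∃ t, chk3 f_mm_112_a t 1 1 1 = true :=
  ⟨(l 3), by decide +kernel⟩

theorem c_mm_112_a : CertF 536870912 536870912 0 536870912 201326592 134217728 false false false .dn 1 1 2
    ndF0q1 ndF2q2a pcF1 Cut.none Ext.none :=
  certF0 (fam := false) (s1 := false) (s2 := false) (a := 1) (b := 1) (c := 2) (cn := .dn) (n1 := ndF0q1) (n2 := ndF2q2a) (pc := pcF1) (cut := Cut.none) (xt := Ext.none) (P1 := 536870912) (W1 := 536870912) (P2 := 0) (W2 := 536870912) (P3 := 201326592) (W3 := 134217728)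
    rfl k0_mm_112_a

noncomputable def f_mm_112_b : ℕ → ℕ → ℕ → ℕ → Bool := onCell 536870912 536870912 1239849684 370763052 201326592 134217728
    (rowF 0 false false false .dn 1 1 2 (qsf 536870912 536870912 1239849684 370763052 1) ndF0q1 ndF2q2b pcF1 Cut.none Ext.none)

def k0_mm_112_b : ∃ t, chk3 f_mm_112_b t 1 1 1 = true :=
  ⟨(l 5), by decide +kernel⟩

theorem c_mm_112_b : CertF 536870912 536870912 1239849684 370763052 201326592 134217728 false false false .dn 1 1 2
    ndF0q1 ndF2q2b pcF1 Cut.none Ext.none :=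
  certF0 (fam := false) (s1 := false) (s2 := false) (a := 1) (b := 1) (c := 2) (cn := .dn) (n1 := ndF0q1) (n2 := ndF2q2b) (pc := pcF1) (cut := Cut.none) (xt := Ext.none) (P1 := 536870912) (W1 := 536870912) (P2 := 1239849684) (W2 := 370763052) (P3 := 201326592) (W3 := 134217728)
    rfl k0_mm_112_b

noncomputable def f_mm_113 : ℕ → ℕ → ℕ → ℕ → Bool := onCell 536870912 536870912 1610612736 536870912 201326592 134217728
    (rowF 0 false false false .nn 1 1 3 (qsf 536870912 536870912 1610612736 536870912 1) ndF0q1 ndF2q3 pcF1 Cut.none Ext.none)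

def k0_mm_113 : ∃ t, chk3 f_mm_113 t 1 1 1 = true :=
  ⟨(l 5), by decide +kernel⟩

theorem c_mm_113 : CertF 536870912 536870912 1610612736 536870912 201326592 134217728 false false false .nn 1 1 3
    ndF0q1 ndF2q3 pcF1 Cut.none Ext.none :=
  certF0 (fam := false) (s1 := false) (s2 := false) (a := 1) (b := 1) (c := 3) (cn := .nn) (n1 := ndF0q1) (n2 := ndF2q3) (pc := pcF1) (cut := Cut.none) (xt := Ext.none) (P1 := 536870912) (W1 := 536870912) (P2 := 1610612736) (W2 := 536870912) (P3 := 201326592) (W3 := 134217728)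
    rfl k0_mm_113

noncomputable def f_mm_123 : ℕ → ℕ → ℕ → ℕ → Bool := onCell 536870912 536870912 1610612736 536870912 201326592 134217728
    (rowF 0 false false false .npn 1 2 3 (qsf 536870912 536870912 1610612736 536870912 2) ndF0q1 ndF2q3 pcF2 Cut.none Ext.none)

def k0_mm_123 : ∃ t, chk3 f_mm_123 t 1 1 1 = true :=
  ⟨(l 5), by decide +kernel⟩

theorem c_mm_123 : CertF 536870912 536870912 1610612736 536870912 201326592 134217728 false false false .npn 1 2 3
    ndF0q1 ndF2q3 pcF2 Cut.none Ext.none :=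
  certF0 (fam := false) (s1 := false) (s2 := false) (a := 1) (b := 2) (c := 3) (cn := .npn) (n1 := ndF0q1) (n2 := ndF2q3) (pc := pcF2) (cut := Cut.none) (xt := Ext.none) (P1 := 536870912) (W1 := 536870912) (P2 := 1610612736) (W2 := 536870912) (P3 := 201326592) (W3 := 134217728)
    rfl k0_mm_123

noncomputable def f_mm_133 : ℕ → ℕ → ℕ → ℕ → Bool := onCell 536870912 536870912 1610612736 536870912 201326592 134217728
    (rowF 0 false false false .dn 1 3 3 (qsf 536870912 536870912 1610612736 536870912 3) ndF0q1 ndF2q3 pcF3 Cut.none Ext.none)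

def k0_mm_133 : ∃ t, chk3 f_mm_133 t 1 1 1 = true :=
  ⟨(l 5), by decide +kernel⟩

theorem c_mm_133 : CertF 536870912 536870912 1610612736 536870912 201326592 134217728 false false false .dn 1 3 3
    ndF0q1 ndF2q3 pcF3 Cut.none Ext.none :=
  certF0 (fam := false) (s1 := false) (s2 := false) (a := 1) (b := 3) (c := 3) (cn := .dn) (n1 := ndF0q1) (n2 := ndF2q3) (pc := pcF3) (cut := Cut.none) (xt := Ext.none) (P1 := 536870912) (W1 := 536870912) (P2 := 1610612736) (W2 := 536870912) (P3 := 201326592) (W3 := 134217728)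
    rfl k0_mm_133

noncomputable def f_mm_202_a : ℕ → ℕ → ℕ → ℕ → Bool := onCell 0 536870912 0 536870912 201326592 134217728
    (rowF 0 false false false .pp 2 0 2 (qsf 0 536870912 0 536870912 0) ndF0q2 ndF2q2a pcF0 Cut.none Ext.none)

def k0_mm_202_a : ∃ t, chk3 f_mm_202_a t 1 1 1 = true :=
  ⟨(l 3), by decide +kernel⟩

theorem c_mm_202_a : CertF 0 536870912 0 536870912 201326592 134217728 false false false .pp 2 0 2
    ndF0q2 ndF2q2a pcF0 Cut.none Ext.none :=
  certF0 (fam := false) (s1 := false) (s2 := false) (a := 2) (b := 0) (c := 2) (cn := .pp) (n1 := ndF0q2) (n2 := ndF2q2a) (pc := pcF0) (cut := Cut.none) (xt := Ext.none) (P1 := 0) (W1 := 536870912) (P2 := 0) (W2 := 536870912) (P3 := 201326592) (W3 := 134217728)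
    rfl k0_mm_202_a

noncomputable def f_mm_202_b : ℕ → ℕ → ℕ → ℕ → Bool := onCell 0 536870912 1239849684 370763052 201326592 134217728
    (rowF 0 false false false .pp 2 0 2 (qsf 0 536870912 1239849684 370763052 0) ndF0q2 ndF2q2b pcF0 Cut.none Ext.none)

def k0_mm_202_b : ∃ t, chk3 f_mm_202_b t 1 1 1 = true :=
  ⟨(l 3), by decide +kernel⟩

theorem c_mm_202_b : CertF 0 536870912 1239849684 370763052 201326592 134217728 false false false .pp 2 0 2
    ndF0q2 ndF2q2b pcF0 Cut.none Ext.none :=
  certF0 (fam := false) (s1 := false) (s2 := false) (a := 2) (b := 0) (c := 2) (cn := .pp) (n1 := ndF0q2) (n2 := ndF2q2b) (pc := pcF0) (cut := Cut.none) (xt := Ext.none) (P1 := 0) (W1 := 536870912) (P2 := 1239849684) (W2 := 370763052) (P3 := 201326592) (W3 := 134217728)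
    rfl k0_mm_202_b

noncomputable def f_mm_203 : ℕ → ℕ → ℕ → ℕ → Bool := onCell 0 536870912 0 536870912 201326592 134217728
    (rowF 1 false false false .up 2 0 3 (qsf 0 536870912 1610612736 536870912 0) ndF0q2 ndF2q3 pcF0 Cut.none Ext.none)

def k0_mm_203 : ∃ t, chk3 f_mm_203 t 1 1 1 = true :=
  ⟨(l 3), by decide +kernel⟩

theorem c_mm_203 : CertF 0 536870912 1610612736 536870912 201326592 134217728 false false false .up 2 0 3
    ndF0q2 ndF2q3 pcF0 Cut.none Ext.none :=
  certF1 (fam := false) (s1 := false) (s2 := false) (a := 2) (b := 0) (c := 3) (cn := .up) (n1 := ndF0q2) (n2 := ndF2q3) (pc := pcF0) (cut := Cut.none) (xt := Ext.none) (P1 := 0) (W1 := 536870912) (P2 := 1610612736) (W2 := 536870912) (P3 := 201326592) (W3 := 134217728)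
    rfl (fun _ => rfl) k0_mm_203

noncomputable def f_mm_213 : ℕ → ℕ → ℕ → ℕ → Bool := onCell 0 536870912 1610612736 536870912 201326592 134217728
    (rowF 0 false false false .pnn 2 1 3 (qsf 0 536870912 1610612736 536870912 1) ndF0q2 ndF2q3 pcF1 Cut.none Ext.none)

def k0_mm_213 : ∃ t, chk3 f_mm_213 t 1 1 1 = true :=
  ⟨(b (l 3) (a (l 3) (l 5))), by decide +kernel⟩

theorem c_mm_213 : CertF 0 536870912 1610612736 536870912 201326592 134217728 false false false .pnn 2 1 3
    ndF0q2 ndF2q3 pcF1 Cut.none Ext.none :=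
  certF0 (fam := false) (s1 := false) (s2 := false) (a := 2) (b := 1) (c := 3) (cn := .pnn) (n1 := ndF0q2) (n2 := ndF2q3) (pc := pcF1) (cut := Cut.none) (xt := Ext.none) (P1 := 0) (W1 := 536870912) (P2 := 1610612736) (W2 := 536870912) (P3 := 201326592) (W3 := 134217728)
    rfl k0_mm_213

end Pool.Agent.Strip051.G.I3_16_5_16.Tab.C.FB02

namespace Pool.Agent.Strip051.G.I3_16_5_16.Tab.C.FB03

open Pool.Agent.Strip051.PB Pool.Agent.Strip051.PB.T
open Pool.Agent.Strip051.G.I3_16_5_16.Tab

noncomputable def f_pp_001 : ℕ → ℕ → ℕ → ℕ → Bool := onCell 0 536870912 0 536870912 201326592 134217728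
    (rowF 1 false true true .up 0 0 1 (qsf 0 536870912 536870912 536870912 0) ndF0q0 ndF3q1 pcF0 Cut.none Ext.none)

def k0_pp_001 : ∃ t, chk3 f_pp_001 t 1 1 1 = true :=
  ⟨(l 3), by decide +kernel⟩

theorem c_pp_001 : CertF 0 536870912 536870912 536870912 201326592 134217728 false true true .up 0 0 1
    ndF0q0 ndF3q1 pcF0 Cut.none Ext.none :=
  certF1 (fam := false) (s1 := true) (s2 := true) (a := 0) (b := 0) (c := 1) (cn := .up) (n1 := ndF0q0) (n2 := ndF3q1) (pc := pcF0) (cut := Cut.none) (xt := Ext.none) (P1 := 0) (W1 := 536870912) (P2 := 536870912) (W2 := 536870912) (P3 := 201326592) (W3 := 134217728)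
    rfl (fun _ => rfl) k0_pp_001

noncomputable def cut_pp_011 : Cut := Cut.of [[⟨0, 0, 0, 67108864⟩, ⟨1, 1, 0, 67108864⟩, ⟨2, 1, 0, 67108864⟩]]

noncomputable def f_pp_011 : ℕ → ℕ → ℕ → ℕ → Bool := onCell 0 536870912 536870912 536870912 201326592 134217728
    (rowF 1 false true true .pnn 0 1 1 (qsf 0 536870912 536870912 536870912 1) ndF0q0 ndF3q1 pcF1 cut_pp_011 Ext.none)

def k0_pp_011 : ∃ t, chk3 f_pp_011 t 1 1 1 = true :=
  ⟨(b (l 3) (a (a (b (l 3) (b (l 3) (a (b (l 3) (a (l 6) (l 3))) (l 3)))) (l 3)) (l 3))), by decide +kernel⟩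

theorem c_pp_011 : CertF 0 536870912 536870912 536870912 201326592 134217728 false true true .pnn 0 1 1
    ndF0q0 ndF3q1 pcF1 cut_pp_011 Ext.none :=
  certF1 (fam := false) (s1 := true) (s2 := true) (a := 0) (b := 1) (c := 1) (cn := .pnn) (n1 := ndF0q0) (n2 := ndF3q1) (pc := pcF1) (cut := cut_pp_011) (xt := Ext.none) (P1 := 0) (W1 := 536870912) (P2 := 536870912) (W2 := 536870912) (P3 := 201326592) (W3 := 134217728)
    rfl (fun _ => rfl) k0_pp_011

noncomputable def f_pp_012 : ℕ → ℕ → ℕ → ℕ → Bool := onCell 0 536870912 536870912 536870912 201326592 134217728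
    (rowF 1 false true true .pnp 0 1 2 (qsf 0 536870912 1073741824 536870912 1) ndF0q0 ndF3q2 pcF1 Cut.none Ext.none)

def k0_pp_012 : ∃ t, chk3 f_pp_012 t 1 1 1 = true :=
  ⟨(l 3), by decide +kernel⟩

theorem c_pp_012 : CertF 0 536870912 1073741824 536870912 201326592 134217728 false true true .pnp 0 1 2
    ndF0q0 ndF3q2 pcF1 Cut.none Ext.none :=
  certF1 (fam := false) (s1 := true) (s2 := true) (a := 0) (b := 1) (c := 2) (cn := .pnp) (n1 := ndF0q0) (n2 := ndF3q2) (pc := pcF1) (cut := Cut.none) (xt := Ext.none) (P1 := 0) (W1 := 536870912) (P2 := 1073741824) (W2 := 536870912) (P3 := 201326592) (W3 := 134217728)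
    rfl (fun _ => rfl) k0_pp_012

noncomputable def f_pp_022 : ℕ → ℕ → ℕ → ℕ → Bool := onCell 1073741824 536870912 1073741824 536870912 201326592 134217728
    (rowF 2 false true true .pp 0 2 2 (qsf 0 536870912 1073741824 536870912 2) ndF0q0 ndF3q2 pcF2 Cut.none Ext.none)

def k0_pp_022 : ∃ t, chk3 f_pp_022 t 4 4 1 = true :=
  ⟨(a (l 3) (b (a (l 3) (l 1)) (b (a (l 3) (b (l 1) (b (l 1) (a (c (l 16627480) (a (l 16596168) (l 1))) (l 1))))) (a (l 3) (b (a (c (a (b (l 16603888) (l 16589392)) (b (l 16577832) (l 16562280))) (a (b (c (l 16582640) (l 16603200)) (l 16589408)) (b (l 16575576) (l 16561784)))) (c (b (l 1) (l 16575640)) (l 16557808))) (a (b (c (l 16602320) (l 16605376)) (c (a (l 16623480) (l 16604600)) (c (l 16610952) (l 16609040)))) (c (b (l 16562712) (a (l 16564928) (l 16551560))) (b (l 16558008) (a (l 16543256) (l 16548008)))))))))), by decide +kernel⟩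

def k1_pp_022 : ∃ t, chk3 f_pp_022 t 4 5 1 = true :=
  ⟨(b (a (l 3) (b (b (b (a (l 3) (a (c (c (l 16618432) (l 16616104)) (l 16623048)) (c (b (l 16559360) (l 16558808)) (l 16579520)))) (a (a (l 3) (c (l 311552647383) (l 457581522663))) (a (c (a (l 16604592) (l 16585520)) (l 16611592)) (c (l 16578184) (l 16557568))))) (a (a (l 3) (b (c (l 32916650855) (l 16641640)) (c (b (l 16625512) (b (l 16623752) (l 16643152))) (b (l 16597984) (b (l 16596592) (l 16637288)))))) (b (a (c (a (l 16602712) (l 16583552)) (l 16610208)) (c (a (l 16564664) (l 16545904)) (l 16556176))) (a (b (c (l 16590496) (l 16587344)) (c (b (l 16588560) (c (l 16608184) (l 16607416))) (a (c (l 16658272) (l 16656048)) (b (l 16556520) (l 16576176))))) (b (c (l 16573496) (l 16533296)) (b (c (l 16571504) (l 16531808)) (c (a (l 16579336) (l 16560480)) (l 16593400)))))))) (a (a (l 3) (c (b (c (l 16619648) (l 16617416)) (l 16636528)) (b (l 16613408) (l 16611512)))) (a (c (b (a (l 16592664) (l 16573296)) (c (l 16578560) (l 16579328)))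 (b (l 16602384) (l 16579080))) (b (c (b (l 16567768) (l 16566152)) (l 16569280)) (c (c (l 16559416) (l 16542224)) (l 16566920))))))) (a (l 3) (a (a (l 3) (b (b (c (l 16630200) (l 16606952)) (c (l 16620896) (l 16578808))) (b (c (l 16615176) (l 16568944)) (c (l 16765520) (l 16577128))))) (b (a (c (b (l 16592968) (l 16582840)) (b (l 16574104) (l 16566352))) (c (b (l 16564576) (l 16543696)) (a (l 16585400) (b (l 16511968) (l 16504144))))) (a (c (b (l 16569832) (l 16721632)) (b (l 16555800) (l 16542000))) (c (b (l 16560488) (l 16713296)) (c (l 16553600) (l 16559112)))))))), by decide +kernel⟩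

def k2_pp_022 : ∃ t, chk3 f_pp_022 t 5 4 1 = true :=
  ⟨(a (b (l 1) (b (l 1) (a (a (b (l 1) (b (l 1) (c (c (l 16556616) (l 16553408)) (l 16549464)))) (l 1)) (l 1)))) (l 1)), by decide +kernel⟩

def k3_pp_022 : ∃ t, chk3 f_pp_022 t 5 10 1 = true :=
  ⟨(a (a (a (b (a (b (c (b (b (l 16510712) (l 16510128)) (l 16529456)) (b (l 16513712) (l 16512744))) (b (c (l 16527312) (l 16511352)) (b (c (l 16503648) (l 16509440)) (c (b (l 16501608) (l 16541800)) (b (l 16507952) (l 16527600)))))) (b (c (b (l 16518848) (l 16511680)) (b (l 16498200) (l 16497240))) (b (c (l 16509080) (l 16495872)) (b (c (l 16506368) (l 16493968)) (c (b (l 16504256) (c (l 16523576) (l 16505240))) (b (l 16492408) (l 16512008))))))) (a (c (b (l 16532256) (l 16512208)) (b (l 16503496) (l 16501136))) (c (b (c (l 16497712) (l 16500912)) (l 16511376)) (b (l 16508560) (l 16484904))))) (b (a (b (b (l 1) (c (l 16509112) (l 16500152))) (b (c (l 16521696) (l 16538664)) (b (c (l 16500176) (l 16473280)) (c (b (l 16499312) (c (l 16523752)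 (l 16516712))) (b (l 16492448) (l 16511880)))))) (b (l 1) (b (c (c (l 16537096) (l 16530704)) (l 16543328)) (c (b (a (l 16484552) (l 16511760)) (b (c (l 16534032) (l 16526744)) (c (l 16555056) (l 16547504)))) (b (l 16539608) (b (l 16538280) (a (l 16491536) (l 16539176)))))))) (b (c (a (b (l 16496328) (l 16490520)) (c (l 16541016) (l 16543128))) (a (l 16507880) (c (l 16535704) (l 16529232)))) (c (a (l 16504672) (c (l 16520912) (l 16511056))) (a (l 16482720) (l 16524760)))))) (b (b (l 1) (b (l 1) (a (b (l 1) (b (l 1) (c (l 16529424) (l 16514168)))) (l 1)))) (b (c (a (c (l 16509720) (l 16500552)) (l 16493288)) (a (l 16509312) (l 16474328))) (c (a (c (l 16480120) (l 16469416)) (c (l 16470080) (l 16458152))) (b (l 16471672) (l 16466696)))))) (a (b (l 1) (b (l 1) (c (a (l 16473624) (l 1)) (l 16442784)))) (l 1))), by decide +kernel⟩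

def k4_pp_022 : ∃ t, chk3 f_pp_022 t 5 11 1 = true :=
  ⟨(a (a (a (b (c (b (a (l 16525592) (l 16505912)) (a (l 16494024) (l 16494632))) (b (a (l 16475112) (l 16479424)) (c (l 16517184) (l 16523680)))) (c (a (b (l 16548320) (l 16709496)) (b (l 16542016) (l 16708456))) (a (l 16532552) (l 16534752)))) (b (c (a (b (l 16475736) (l 16470824)) (b (c (l 16514728) (l 16503080)) (a (l 16478208) (l 16486120)))) (a (c (l 16496696) (l 16525736)) (b (l 16509312) (l 16480896)))) (a (c (b (l 16539712) (l 16710024)) (l 16497912)) (c (b (a (l 16540192) (l 16542520)) (a (l 16712864) (l 16716192))) (b (l 16497360) (l 16496352)))))) (b (b (c (c (l 16491704) (l 16478472)) (b (l 16462424) (l 16458840))) (c (c (l 16572824) (l 16454024)) (l 16476112))) (c (b (c (l 16776288) (l 16453512)) (c (l 16934360) (l 16517272))) (b (l 16452040) (l 16452408))))) (b (a (c (b (a (c (l 16456504) (l 16441392)) (l 16437920)) (a (l 16469000) (b (l 16437368) (l 16438408)))) (b (a (l 16442296) (l 16408152)) (a (l 16416744) (l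 16404552)))) (a (b (l 1) (c (l 16428016) (l 16391872))) (l 1))) (a (c (b (c (l 16809544) (l 16436424)) (c (l 16981288) (l 16520848))) (b (l 16430696) (l 16433152))) (a (c (b (c (l 16838536) (l 16421904)) (c (l 17023144) (l 16531704))) (b (l 16392320) (l 16396368))) (c (b (l 16428024) (c (l 17049096) (b (l 16484120) (l 16596280)))) (b (l 16380192) (l 16385312))))))), by decide +kernel⟩

def k5_pp_022 : ∃ t, chk3 f_pp_022 t 4 6 1 = true :=
  ⟨(a (l 3) (b (a (a (l 3) (b (c (b (l 21105731079) (l 16859616)) (b (l 16561288) (l 16541760))) (b (c (l 16949472) (l 16536448)) (c (l 16943264) (l 16684552))))) (a (b (c (b (l 16834824) (l 16926288)) (c (l 16554200) (l 16559136))) (c (c (l 17150704) (l 16914792)) (b (l 16511600) (l 16605592)))) (b (c (b (l 16835320) (l 16933640)) (b (l 16511328) (l 16468464))) (c (b (l 17013416) (l 17078680)) (b (l 16490560) (l 16593272)))))) (a (b (a (l 3) (c (c (b (l 17196192) (l 17231032)) (b (l 16994536) (l 17039424))) (b (a (l 16695296) (l 16690000)) (a (l 16774424)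 (l 16751216))))) (c (a (a (l 3) (b (l 3) (b (l 3) (c (l 17274280) (l 46339184903))))) (b (c (l 17261152) (a (l 17074328) (l 17081968))) (c (a (l 17281712) (l 17294456)) (a (b (l 17099592) (l 17115256)) (l 17116256))))) (a (b (l 3) (a (l 3) (b (l 3) (c (l 101636651751) (l 99489078743))))) (b (a (c (l 37212011415) (l 16775984)) (c (l 16896424) (l 16710824))) (a (c (b (l 16924056) (l 16911352)) (b (l 16748720) (l 16791624))) (c (l 16938112) (l 16780984))))))) (a (b (c (c (l 17238432) (b (l 17005280) (l 17053672))) (b (l 16683800) (a (l 16749912) (l 16749616)))) (c (b (c (l 17287328) (l 17095024)) (c (l 17315000) (l 17131024))) (a (b (l 16804880) (c (l 16943632) (l 16761216))) (b (l 16807112) (l 16856800))))) (b (c (c (l 17265288) (l 17046344)) (b (l 16678760) (l 16750584))) (c (c (b (l 17315968) (l 17344320)) (b (l 17114992) (l 17153048))) (b (a (l 16810152) (l 16813720)) (a (l 16861936) (l 16867472))))))))), by decide +kernel⟩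

def k6_pp_022 : ∃ t, chk3 f_pp_022 t 4 7 1 = true :=
  ⟨(a (l 3) (b (a (b (c (b (a (a (l 3) (b (c (l 17286440) (l 47412926615)) (l 48486700583))) (c (b (l 17306200) (l 17316832)) (b (a (l 17131584) (l 17140720)) (l 17152376)))) (a (l 50097374503) (l 17189632))) (b (a (a (l 3) (b (c (l 44728375463) (l 42043891079)) (l 44191469911))) (a (b (c (l 16942600) (l 16795904)) (l 16904808)) (c (l 16959184) (l 16832368)))) (a (l 46338974007) (l 16940856)))) (a (c (l 17217920) (l 16974400)) (c (l 17281000) (l 17000368)))) (b (a (c (b (c (l 17338560) (l 17164208)) (l 17275248)) (b (b (c (l 16978496) (l 16800752)) (l 16914392)) (l 16948640))) (c (b (c (l 17367504) (l 17186552)) (l 17300064)) (b (a (l 16910864) (l 16916968)) (l 16959416)))) (a (c (l 17302928) (l 17007672)) (c (l 17326432) (l 17017520))))) (a (c (b (l 48487140887) (l 129554723335)) (a (b (l 130091020951) (l 131164864407)) (b (l 17061992) (l 17106352)))) (a (b (l 17197848) (l 17224984)) (c (l 17354544) (l 17101312)))))), by decide +kernel⟩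

def k7_pp_022 : ∃ t, chk3 f_pp_022 t 5 6 1 = true :=
  ⟨(a (a (a (b (b (c (a (b (l 16837952) (l 16941192)) (b (l 16840768) (l 16946752))) (b (l 16496688) (l 16465928))) (c (a (l 17018576) (l 17068808)) (a (l 16575912) (l 16528704)))) (c (b (a (l 17173080) (l 17183400)) (c (l 17358736) (l 17155448))) (b (a (b (l 16676632) (l 16752728)) (l 16717144)) (b (l 16819088) (l 16854408))))) (b (b (a (c (b (l 16845184) (l 16953360)) (l 16467128)) (c (b (a (l 16849800) (l 16853856)) (l 16877712)) (b (l 16499064) (l 16485256)))) (c (a (l 17077808) (c (l 17227536) (l 16947496))) (a (l 16525384) (a (l 16524360) (l 16524904))))) (c (b (a (l 17194408) (c (l 17325568) (l 17085440))) (a (l 17275416) (c (l 17392672) (l 17181952)))) (b (a (l 16719240) (a (l 16721816) (l 16724224))) (a (b (l 16826368) (l 16885096)) (a (l 16861984) (b (l 16834456) (l 16894832)))))))) (b (b (c (b (l 16829088) (l 16986504)) (b (l 16435520) (l 16444104))) (c (b (l 17079240) (l 17154248)) (l 16523296))) (b (c (l 17199600) (b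 (l 16689288) (l 16777568))) (c (c (l 17435032) (l 17216016)) (b (l 16852112) (l 16915864)))))) (b (b (c (b (a (c (l 17114824) (l 16702472)) (c (l 17180424) (l 16732696))) (a (l 17033880) (c (l 17290720) (l 16888464)))) (b (a (l 16418392) (l 16441352)) (a (l 16429096) (l 16412392)))) (c (b (c (l 17338624) (l 16988184)) (c (l 17405136) (l 17086192))) (a (b (l 16453936) (l 16594064)) (b (l 16461728) (l 16613728))))) (b (c (a (l 17221552) (c (l 17518568) (l 17230336))) (b (a (l 16710336) (l 16739568)) (a (l 16807352) (l 16844184)))) (c (a (l 17392520) (l 17462528)) (b (a (l 16888864) (l 16931512)) (a (l 16958152) (l 17005328))))))), by decide +kernel⟩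

def k8_pp_022 : ∃ t, chk3 f_pp_022 t 5 7 1 = true :=
  ⟨(b (a (b (a (c (a (b (l 17301120) (l 17322328)) (a (l 17329384) (b (l 17330592) (l 17349680)))) (a (b (l 16883288) (l 16969544)) (a (b (l 16935232) (l 16978320)) (b (a (l 16940880) (l 16944824)) (l 16984672))))) (c (b (l 17368240) (l 17385552)) (b (l 16966472) (l 17006784)))) (c (a (a (l 17346520) (l 17367704)) (l 17405000)) (a (a (l 17025696) (a (l 17032920) (l 17037864))) (l 17057864)))) (b (c (b (l 17467712) (l 17481560)) (b (l 16886576) (l 17070744))) (c (l 17496104) (l 17117680)))) (a (a (c (a (l 17371576) (l 17392560)) (a (l 17106632) (a (l 17111792) (l 17115040)))) (c (l 17423704) (l 17131752))) (c (l 17507608) (l 17185112)))), by decide +kernel⟩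

def k9_pp_022 : ∃ t, chk3 f_pp_022 t 3 2 1 = true :=
  ⟨(a (b (l 1) (b (l 1) (b (l 1) (b (l 1) (a (a (b (l 1) (c (l 16679328) (l 16370264))) (l 1)) (l 1)))))) (l 1)), by decide +kernel⟩

def k10_pp_022 : ∃ t, chk3 f_pp_022 t 3 6 1 = true :=
  ⟨(a (b (b (a (c (a (b (c (l 17238792) (a (l 16759328) (l 16774528))) (c (l 17364776) (a (l 16924736) (l 16948080)))) (b (l 1) (l 17092184))) (a (b (a (l 16383976) (l 16373312)) (a (l 16398752) (l 16389304))) (b (l 1) (l 16374536)))) (l 1)) (b (a (c (a (c (l 17457816) (l 17069824)) (c (l 17527624) (l 17122464))) (a (l 16437624) (a (l 16414504) (l 16512328)))) (l 1)) (c (a (c (l 17567032) (a (l 17175424) (l 17239672))) (l 17313216)) (a (a (l 16537304) (l 16446968)) (a (c (l 16907056) (l 16519376)) (l 1)))))) (b (c (a (b (c (l 17621904) (l 17294544)) (l 17512720)) (a (c (l 17762920) (l 17431688)) (l 17654008))) (a (b (a (l 16776368) (c (l 16990768) (l 16648488))) (a (l 16887368) (l 16873520))) (a (b (c (l 17041600) (a (l 16677856) (l 16696816))) (c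 (l 17150400) (a (l 16815904) (l 16839400)))) (b (l 1) (l 16973824))))) (c (a (b (l 17555088) (l 17588704)) (b (l 17685168) (l 17739536))) (a (b (a (l 16979448) (l 17032280)) (a (l 17056744) (l 17111992))) (b (a (c (l 17236096) (l 16942056)) (c (l 17294992) (l 16993304))) (a (l 17170720) (l 17147192))))))) (b (l 1) (b (l 1) (a (a (b (l 1) (c (l 17838040) (l 17284640))) (l 1)) (l 1))))), by decide +kernel⟩

def k11_pp_022 : ∃ t, chk3 f_pp_022 t 3 7 1 = true :=
  ⟨(a (a (b (b (c (b (l 17607824) (l 17616672)) (b (l 17136384) (l 17169576))) (c (l 17624552) (l 17210784))) (c (l 17624904) (l 17268600))) (b (b (c (b (l 17754304) (l 17757768)) (b (l 17251872) (l 17280320))) (c (l 17758400) (l 17315592))) (c (l 17743848) (l 17361744)))) (a (b (b (c (a (l 17860632) (l 17918144)) (a (b (l 17339448) (l 17369248)) (l 201897951415))) (c (l 17892656) (a (l 17401704) (l 17458168)))) (c (l 17868200) (a (l 17438408) (l 17491776)))) (b (b (l 1) (l 228742042727)) (c (l 17985952) (l 17566008))))), by decide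 +kernel⟩

theorem s12_pp_022 : ∃ t, chk3 f_pp_022 t 3 3 1 = true := ex3_b k10_pp_022 k11_pp_022

theorem s13_pp_022 : ∃ t, chk3 f_pp_022 t 3 1 1 = true := ex3_b k9_pp_022 s12_pp_022

theorem s14_pp_022 : ∃ t, chk3 f_pp_022 t 5 3 1 = true := ex3_b k7_pp_022 k8_pp_022

theorem s15_pp_022 : ∃ t, chk3 f_pp_022 t 4 3 1 = true := ex3_b k5_pp_022 k6_pp_022

theorem s16_pp_022 : ∃ t, chk3 f_pp_022 t 2 3 1 = true := ex3_a s15_pp_022 s14_pp_022

theorem s17_pp_022 : ∃ t, chk3 f_pp_022 t 5 5 1 = true := ex3_b k3_pp_022 k4_pp_022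

theorem s18_pp_022 : ∃ t, chk3 f_pp_022 t 5 2 1 = true := ex3_b k2_pp_022 s17_pp_022

theorem s19_pp_022 : ∃ t, chk3 f_pp_022 t 4 2 1 = true := ex3_b k0_pp_022 k1_pp_022

theorem s20_pp_022 : ∃ t, chk3 f_pp_022 t 2 2 1 = true := ex3_a s19_pp_022 s18_pp_022

theorem s21_pp_022 : ∃ t, chk3 f_pp_022 t 2 1 1 = true := ex3_b s20_pp_022 s16_pp_022

theorem s22_pp_022 : ∃ t, chk3 f_pp_022 t 1 1 1 = true := ex3_a s21_pp_022 s13_pp_022

theorem c_pp_022 : CertF 0 536870912 1073741824 536870912 201326592 134217728 false true true .pp 0 2 2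
    ndF0q0 ndF3q2 pcF2 Cut.none Ext.none :=
  certF2 (fam := false) (s1 := true) (s2 := true) (a := 0) (b := 2) (c := 2) (cn := .pp) (n1 := ndF0q0) (n2 := ndF3q2) (pc := pcF2) (cut := Cut.none) (xt := Ext.none) (P1 := 0) (W1 := 536870912) (P2 := 1073741824) (W2 := 536870912) (P3 := 201326592) (W3 := 134217728)
    rfl (fun _ => rfl) s22_pp_022

noncomputable def f_pp_023 : ℕ → ℕ → ℕ → ℕ → Bool := onCell 1073741824 536870912 0 1230186008 201326592 134217728
    (rowF 2 false true true .up 0 2 3 (qsf 0 536870912 0 1230186008 2) ndF0q0 ndF3q3 pcF2 Cut.none Ext.none)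

def k0_pp_023 : ∃ t, chk3 f_pp_023 t 1 1 1 = true :=
  ⟨(b (a (l 2) (a (l 2) (a (b (l 2) (l 48957294567)) (b (l 17332320) (l 17349480))))) (b (a (b (l 2) (a (l 2) (a (l 2) (a (l 2) (l 17237760))))) (a (a (b (l 2) (a (l 17264264) (l 17287928))) (b (a (l 17185344) (l 17188104)) (a (l 17296752) (l 17298392)))) (a (b (l 17500056) (a (l 17325008) (l 17378104))) (b (l 17399408) (l 17465936))))) (a (b (b (a (l 2) (a (a (l 2) (l 17242160)) (l 17291768))) (a (l 2) (a (a (a (l 17248672) (l 17266096)) (l 17283736)) (l 17341616)))) (a (a (b (l 2) (l 3)) (b (a (b (l 2) (c (l 17339216) (a (l 17146936) (l 17156112)))) (a (c (l 17353904) (l 17168312)) (l 17270920))) (a (c (b (l 17350168) (a (l 91973690631) (l 17367160))) (b (a (l 17132192) (l 17142896)) (a (b (l 17112904) (c (l 17157008) (a (l 78014432231) (l 17036128)))) (b (l 17125480) (c (l 17173160) (l 17045264)))))) (c (a (b (l 17380248) (l 17389768)) (l 17405392)) (b (a (l 17156152) (l 17167912)) (a (b (l 17140792) (l 17126016)) (l 17149464)))))))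 (a (a (a (b (l 17282072) (c (l 17423872) (b (l 17180360) (l 17165272)))) (b (c (l 17399704) (l 17197680)) (c (l 17511024) (b (l 17199608) (a (l 17178024) (l 17186760)))))) (b (l 17322744) (c (l 17478592) (l 17218848)))) (b (a (l 17365608) (l 17410552)) (c (l 17596392) (b (l 17285128) (l 17283744))))))) (a (b (a (b (l 17359448) (l 17418624)) (b (l 17402632) (l 17473048))) (a (b (l 17472512) (a (l 17490872) (l 17536064))) (b (l 17539416) (c (l 17731720) (l 17460720))))) (a (b (a (l 17475464) (l 17511424)) (b (a (l 17587616) (l 17623952)) (a (l 17655536) (l 17694736)))) (b (l 17573048) (b (l 17677184) (l 17752120)))))))), by decide +kernel⟩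

theorem c_pp_023 : CertF 0 536870912 0 1230186008 201326592 134217728 false true true .up 0 2 3
    ndF0q0 ndF3q3 pcF2 Cut.none Ext.none :=
  certF2 (fam := false) (s1 := true) (s2 := true) (a := 0) (b := 2) (c := 3) (cn := .up) (n1 := ndF0q0) (n2 := ndF3q3) (pc := pcF2) (cut := Cut.none) (xt := Ext.none) (P1 := 0) (W1 := 536870912) (P2 := 0) (W2 := 1230186008) (P3 := 201326592) (W3 := 134217728)
    rfl (fun _ => rfl) k0_pp_023

noncomputable def f_pp_033 : ℕ → ℕ → ℕ → ℕ → Bool := onCell 1610612736 536870912 0 1230186008 201326592 134217728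
    (rowF 2 false true true .pnn 0 3 3 (qsf 0 536870912 0 1230186008 3) ndF0q0 ndF3q3 pcF3 Cut.none Ext.none)

def k0_pp_033 : ∃ t, chk3 f_pp_033 t 1 1 1 = true :=
  ⟨(a (b (a (b (a (l 17102664) (l 17242976)) (a (b (l 17115120) (l 17166040)) (c (l 17259856) (l 17253672)))) (a (b (l 17334488) (l 17405904)) (b (l 17419448) (b (l 17411608) (l 17454352))))) (b (a (b (a (l 17254832) (l 17352600)) (a (l 17372088) (l 17459808))) (a (b (l 17441024) (l 17543288)) (b (l 17517632) (l 17614400)))) (a (b (a (b (l 17481240) (l 17573232)) (l 17605696)) (a (b (l 17684480) (l 17805488)) (b (l 17748592) (l 17869752)))) (a (b (l 17682880) (b (l 17819432) (l 1))) (b (l 17756824) (l 1)))))) (a (b (a (b (l 4) (l 17621720)) (l 4)) (b (a (b (l 17572136) (l 17672976)) (b (l 17613392) (l 17727248))) (l 1))) (b (l 4) (a (b (l 242701634903) (l 1)) (l 1))))), by decide +kernel⟩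

theorem c_pp_033 : CertF 0 536870912 0 1230186008 201326592 134217728 false true true .pnn 0 3 3
    ndF0q0 ndF3q3 pcF3 Cut.none Ext.none :=
  certF2 (fam := false) (s1 := true) (s2 := true) (a := 0) (b := 3) (c := 3) (cn := .pnn) (n1 := ndF0q0) (n2 := ndF3q3) (pc := pcF3) (cut := Cut.none) (xt := Ext.none) (P1 := 0) (W1 := 536870912) (P2 := 0) (W2 := 1230186008) (P3 := 201326592) (W3 := 134217728)
    rfl (fun _ => rfl) k0_pp_033

noncomputable def f_pp_101 : ℕ → ℕ → ℕ → ℕ → Bool := onCell 536870912 536870912 536870912 536870912 201326592 134217728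
    (rowF 0 false true true .npn 1 0 1 (qsf 536870912 536870912 536870912 536870912 0) ndF0q1 ndF3q1 pcF0 Cut.none Ext.none)

def k0_pp_101 : ∃ t, chk3 f_pp_101 t 1 1 1 = true :=
  ⟨(a (l 3) (l 5)), by decide +kernel⟩

theorem c_pp_101 : CertF 536870912 536870912 536870912 536870912 201326592 134217728 false true true .npn 1 0 1
    ndF0q1 ndF3q1 pcF0 Cut.none Ext.none :=
  certF0 (fam := false) (s1 := true) (s2 := true) (a := 1) (b := 0) (c := 1) (cn := .npn) (n1 := ndF0q1) (n2 := ndF3q1) (pc := pcF0) (cut := Cut.none) (xt := Ext.none) (P1 := 536870912) (W1 := 536870912) (P2 := 536870912) (W2 := 536870912) (P3 := 201326592) (W3 := 134217728)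
    rfl k0_pp_101

noncomputable def f_pp_102 : ℕ → ℕ → ℕ → ℕ → Bool := onCell 536870912 536870912 0 536870912 201326592 134217728
    (rowF 1 false true true .npp 1 0 2 (qsf 536870912 536870912 1073741824 536870912 0) ndF0q1 ndF3q2 pcF0 Cut.none Ext.none)

def k0_pp_102 : ∃ t, chk3 f_pp_102 t 1 1 1 = true :=
  ⟨(l 3), by decide +kernel⟩

theorem c_pp_102 : CertF 536870912 536870912 1073741824 536870912 201326592 134217728 false true true .npp 1 0 2
    ndF0q1 ndF3q2 pcF0 Cut.none Ext.none :=
  certF1 (fam := false) (s1 := true) (s2 := true) (a := 1) (b := 0) (c := 2) (cn := .npp) (n1 := ndF0q1) (n2 := ndF3q2) (pc := pcF0) (cut := Cut.none) (xt := Ext.none) (P1 := 536870912) (W1 := 536870912) (P2 := 1073741824) (W2 := 536870912) (P3 := 201326592) (W3 := 134217728)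
    rfl (fun _ => rfl) k0_pp_102

noncomputable def f_pp_112 : ℕ → ℕ → ℕ → ℕ → Bool := onCell 536870912 536870912 1073741824 536870912 201326592 134217728
    (rowF 0 false true true .dn 1 1 2 (qsf 536870912 536870912 1073741824 536870912 1) ndF0q1 ndF3q2 pcF1 Cut.none Ext.none)

def k0_pp_112 : ∃ t, chk3 f_pp_112 t 1 1 1 = true :=
  ⟨(a (l 3) (l 3)), by decide +kernel⟩

theorem c_pp_112 : CertF 536870912 536870912 1073741824 536870912 201326592 134217728 false true true .dn 1 1 2
    ndF0q1 ndF3q2 pcF1 Cut.none Ext.none :=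
  certF0 (fam := false) (s1 := true) (s2 := true) (a := 1) (b := 1) (c := 2) (cn := .dn) (n1 := ndF0q1) (n2 := ndF3q2) (pc := pcF1) (cut := Cut.none) (xt := Ext.none) (P1 := 536870912) (W1 := 536870912) (P2 := 1073741824) (W2 := 536870912) (P3 := 201326592) (W3 := 134217728)
    rfl k0_pp_112

noncomputable def cut_pp_113 : Cut := Cut.of [[⟨0, 1, 0, 57167902⟩, ⟨1, 1, 0, 57167902⟩, ⟨2, 2, 0, 11758673⟩]]

noncomputable def f_pp_113 : ℕ → ℕ → ℕ → ℕ → Bool := onCell 536870912 536870912 0 1230186008 201326592 134217728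
    (rowF 2 false true true .nn 1 1 3 (qsf 536870912 536870912 0 1230186008 1) ndF0q1 ndF3q3 pcF1 cut_pp_113 Ext.none)

def k0_pp_113 : ∃ t, chk3 f_pp_113 t 1 1 1 = true :=
  ⟨(b (a (l 2) (a (l 2) (a (l 3) (a (l 3) (b (b (l 6) (l 3)) (l 3)))))) (a (b (l 3) (a (l 3) (l 3))) (b (a (l 3) (l 3)) (l 3)))), by decide +kernel⟩

theorem c_pp_113 : CertF 536870912 536870912 0 1230186008 201326592 134217728 false true true .nn 1 1 3
    ndF0q1 ndF3q3 pcF1 cut_pp_113 Ext.none :=
  certF2 (fam := false) (s1 := true) (s2 := true) (a := 1) (b := 1) (c := 3) (cn := .nn) (n1 := ndF0q1) (n2 := ndF3q3) (pc := pcF1) (cut := cut_pp_113) (xt := Ext.none) (P1 := 536870912) (W1 := 536870912) (P2 := 0) (W2 := 1230186008) (P3 := 201326592) (W3 := 134217728)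
    rfl (fun _ => rfl) k0_pp_113

noncomputable def cut_pp_123 : Cut := Cut.of [[⟨0, 1, 0, 57167902⟩, ⟨1, 1, 0, 57167902⟩, ⟨2, 2, 0, 11758673⟩]]

noncomputable def f_pp_123 : ℕ → ℕ → ℕ → ℕ → Bool := onCell 1073741824 536870912 0 1230186008 201326592 134217728
    (rowF 2 false true true .npn 1 2 3 (qsf 536870912 536870912 0 1230186008 2) ndF0q1 ndF3q3 pcF2 cut_pp_123 Ext.none)

def k0_pp_123 : ∃ t, chk3 f_pp_123 t 1 2 1 = true :=
  ⟨(b (a (b (a (a (a (l 6) (l 16809752)) (a (l 16841784) (a (l 16871728) (l 16892392)))) (a (a (a (l 16912896) (l 16929752)) (l 16943240)) (l 16979288))) (a (a (a (a (a (l 3) (b (b (l 6) (a (l 244980959175) (l 110226386055))) (b (b (l 231022348327) (l 228874849063)) (l 234243567511)))) (a (b (l 16842184) (a (l 72108597047) (l 16834376))) (l 16876072))) (a (l 16819056) (l 16828560))) (a (l 16849128) (a (l 16876040) (l 16895216)))) (a (a (a (l 16914656) (l 16931824)) (l 16947528)) (l 16985872)))) (a (a (l 17085040) (l 17106256)) (a (l 17215984) (l 17332520))))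 (a (b (a (a (a (a (l 3) (a (b (b (l 253034121431) (l 250349786247)) (a (l 3) (l 244444258263))) (b (l 16875800) (l 16915592)))) (a (a (b (l 16838016) (l 16861512)) (l 16854456)) (l 16863200))) (a (l 16878120) (a (l 16901872) (l 16919112)))) (a (a (a (l 16937304) (l 16954256)) (l 16971752)) (l 17012208))) (a (a (a (a (l 3) (a (l 3) (b (c (l 16886800) (l 16894400)) (l 224043341607)))) (a (b (l 16973608) (a (l 16918984) (l 16923088))) (b (l 16898536) (l 16935632)))) (a (b (l 16959272) (l 17031904)) (a (l 16950064) (l 16965904)))) (a (a (a (l 16982952) (l 17126048)) (l 17021344)) (a (l 17054144) (l 17080216))))) (a (a (b (l 17051248) (l 17235680)) (b (l 17106744) (l 17129056))) (a (a (l 17177312) (l 17246584)) (l 17351376))))), by decide +kernel⟩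

def k1_pp_123 : ∃ t, chk3 f_pp_123 t 1 6 1 = true :=
  ⟨(a (b (a (a (b (a (l 3) (a (c (l 16973312) (l 16944184)) (l 17033864))) (a (l 3) (a (c (l 17018112) (l 169819447383)) (a (l 17010288) (l 17015792))))) (a (b (l 17109376) (a (l 17022936) (l 17031040))) (a (l 17128344) (l 17079184)))) (a (a (a (l 17054248) (a (l 17067480) (l 17076136))) (l 17093120)) (a (l 17126824) (l 17154320)))) (a (a (a (l 3) (b (a (c (l 162840318055) (l 156934641463)) (a (l 17058808) (l 17063856))) (a (c (l 197200182983) (a (l 3) (l 255182102791))) (c (l 155861212199) (a (l 155860983079) (l 17077792)))))) (a (b (a (l 17073448) (l 17082592)) (a (c (l 17168336) (l 17083728)) (l 17136320))) (a (b (l 17091680) (l 17144040)) (b (l 17105040) (l 17152280))))) (a (a (a (l 17331936) (b (l 17136424) (l 17179480))) (l 17221976)) (a (l 17209880) (l 17237752))))) (a (a (b (a (l 17174112) (l 17182592)) (a (l 17264456) (l 17288552))) (b (l 17398744) (a (l 17298072) (l 1)))) (a (b (l 17459896) (l 1)) (l 1)))), by decide +kernel⟩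

def k2_pp_123 : ∃ t, chk3 f_pp_123 t 1 7 1 = true :=
  ⟨(a (b (a (a (a (l 3) (a (l 3) (b (c (l 157471942167) (b (l 140828624631) (a (l 143512939095) (l 17123680)))) (b (c (l 17251592) (a (l 162840301399) (l 17136432))) (c (l 17274272) (a (l 3) (l 17144696))))))) (a (b (c (a (l 17224312) (l 17243272)) (a (b (l 17112496) (l 17128712)) (l 17128520))) (c (a (l 17282040) (l 17295600)) (a (b (l 17140936) (l 17149176)) (l 17153176)))) (b (c (l 17257576) (l 17134832)) (c (l 17310864) (l 17160864))))) (b (a (a (a (l 17207504) (l 17228408)) (l 17242168)) (l 17292160)) (a (a (a (l 17248696) (l 17266160)) (l 17283976)) (l 1)))) (a (a (b (a (l 3) (a (l 3) (a (l 3) (c (l 149955889559) (b (l 17125984) (l 141902333655)))))) (l 3)) (b (a (c (a (l 17323272) (l 17337736)) (a (b (l 17151840) (l 17146944)) (l 17158456))) (a (c (l 17354032) (l 17168384)) (l 17271088))) (b (a (a (c (l 17342200) (l 17132216)) (l 1)) (l 1)) (l 1)))) (a (a (a (b (l 17282336) (l 1)) (l 1)) (l 1)) (l 1)))) (l 1)), by decide +kernel⟩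

theorem s3_pp_123 : ∃ t, chk3 f_pp_123 t 1 3 1 = true := ex3_b k1_pp_123 k2_pp_123

theorem s4_pp_123 : ∃ t, chk3 f_pp_123 t 1 1 1 = true := ex3_b k0_pp_123 s3_pp_123

theorem c_pp_123 : CertF 536870912 536870912 0 1230186008 201326592 134217728 false true true .npn 1 2 3
    ndF0q1 ndF3q3 pcF2 cut_pp_123 Ext.none :=
  certF2 (fam := false) (s1 := true) (s2 := true) (a := 1) (b := 2) (c := 3) (cn := .npn) (n1 := ndF0q1) (n2 := ndF3q3) (pc := pcF2) (cut := cut_pp_123) (xt := Ext.none) (P1 := 536870912) (W1 := 536870912) (P2 := 0) (W2 := 1230186008) (P3 := 201326592) (W3 := 134217728)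
    rfl (fun _ => rfl) s4_pp_123

noncomputable def f_pp_133 : ℕ → ℕ → ℕ → ℕ → Bool := onCell 536870912 536870912 0 1230186008 201326592 134217728
    (rowF 0 false true true .dn 1 3 3 (qsf 536870912 536870912 0 1230186008 3) ndF0q1 ndF3q3 pcF3 Cut.none Ext.none)

def k0_pp_133 : ∃ t, chk3 f_pp_133 t 1 1 1 = true :=
  ⟨(b (b (a (a (a (l 17175256) (l 1)) (l 1)) (l 1)) (l 1)) (l 1)), by decide +kernel⟩

theorem c_pp_133 : CertF 536870912 536870912 0 1230186008 201326592 134217728 false true true .dn 1 3 3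
    ndF0q1 ndF3q3 pcF3 Cut.none Ext.none :=
  certF0 (fam := false) (s1 := true) (s2 := true) (a := 1) (b := 3) (c := 3) (cn := .dn) (n1 := ndF0q1) (n2 := ndF3q3) (pc := pcF3) (cut := Cut.none) (xt := Ext.none) (P1 := 536870912) (W1 := 536870912) (P2 := 0) (W2 := 1230186008) (P3 := 201326592) (W3 := 134217728)
    rfl k0_pp_133

noncomputable def f_pp_202 : ℕ → ℕ → ℕ → ℕ → Bool := onCell 0 536870912 1073741824 536870912 201326592 134217728
    (rowF 0 false true true .pp 2 0 2 (qsf 0 536870912 1073741824 536870912 0) ndF0q2 ndF3q2 pcF0 Cut.none Ext.none)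

def k0_pp_202 : ∃ t, chk3 f_pp_202 t 1 1 1 = true :=
  ⟨(l 3), by decide +kernel⟩

theorem c_pp_202 : CertF 0 536870912 1073741824 536870912 201326592 134217728 false true true .pp 2 0 2
    ndF0q2 ndF3q2 pcF0 Cut.none Ext.none :=
  certF0 (fam := false) (s1 := true) (s2 := true) (a := 2) (b := 0) (c := 2) (cn := .pp) (n1 := ndF0q2) (n2 := ndF3q2) (pc := pcF0) (cut := Cut.none) (xt := Ext.none) (P1 := 0) (W1 := 536870912) (P2 := 1073741824) (W2 := 536870912) (P3 := 201326592) (W3 := 134217728)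
    rfl k0_pp_202

noncomputable def f_pp_203 : ℕ → ℕ → ℕ → ℕ → Bool := onCell 0 536870912 0 1230186008 201326592 134217728
    (rowF 0 false true true .up 2 0 3 (qsf 0 536870912 0 1230186008 0) ndF0q2 ndF3q3 pcF0 Cut.none Ext.none)

def k0_pp_203 : ∃ t, chk3 f_pp_203 t 1 1 1 = true :=
  ⟨(b (l 2) (l 3)), by decide +kernel⟩

theorem c_pp_203 : CertF 0 536870912 0 1230186008 201326592 134217728 false true true .up 2 0 3
    ndF0q2 ndF3q3 pcF0 Cut.none Ext.none :=
  certF0 (fam := false) (s1 := true) (s2 := true) (a := 2) (b := 0) (c := 3) (cn := .up) (n1 := ndF0q2) (n2 := ndF3q3) (pc := pcF0) (cut := Cut.none) (xt := Ext.none) (P1 := 0) (W1 := 536870912) (P2 := 0) (W2 := 1230186008) (P3 := 201326592) (W3 := 134217728)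
    rfl k0_pp_203

noncomputable def cut_pp_213 : Cut := Cut.of [[⟨0, 1, 0, 57167902⟩, ⟨1, 1, 0, 57167902⟩, ⟨2, 2, 0, 11758673⟩]]

noncomputable def f_pp_213 : ℕ → ℕ → ℕ → ℕ → Bool := onCell 0 536870912 0 1230186008 201326592 134217728
    (rowF 0 false true true .pnn 2 1 3 (qsf 0 536870912 0 1230186008 1) ndF0q2 ndF3q3 pcF1 cut_pp_213 Ext.none)

def k0_pp_213 : ∃ t, chk3 f_pp_213 t 1 1 1 = true :=
  ⟨(b (a (l 3) (b (a (l 3) (a (l 3) (b (l 6) (l 3)))) (l 3))) (l 3)), by decide +kernel⟩

theorem c_pp_213 : CertF 0 536870912 0 1230186008 201326592 134217728 false true true .pnn 2 1 3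
    ndF0q2 ndF3q3 pcF1 cut_pp_213 Ext.none :=
  certF0 (fam := false) (s1 := true) (s2 := true) (a := 2) (b := 1) (c := 3) (cn := .pnn) (n1 := ndF0q2) (n2 := ndF3q3) (pc := pcF1) (cut := cut_pp_213) (xt := Ext.none) (P1 := 0) (W1 := 536870912) (P2 := 0) (W2 := 1230186008) (P3 := 201326592) (W3 := 134217728)
    rfl k0_pp_213

noncomputable def f_pm_001 : ℕ → ℕ → ℕ → ℕ → Bool := onCell 0 536870912 536870912 536870912 201326592 134217728
    (rowF 0 false true false .up 0 0 1 (qsf 0 536870912 536870912 536870912 0) ndF0q0 ndF3q1 pcF0 Cut.none Ext.none)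

def k0_pm_001 : ∃ t, chk3 f_pm_001 t 1 1 1 = true :=
  ⟨(l 4), by decide +kernel⟩

theorem c_pm_001 : CertF 0 536870912 536870912 536870912 201326592 134217728 false true false .up 0 0 1
    ndF0q0 ndF3q1 pcF0 Cut.none Ext.none :=
  certF0 (fam := false) (s1 := true) (s2 := false) (a := 0) (b := 0) (c := 1) (cn := .up) (n1 := ndF0q0) (n2 := ndF3q1) (pc := pcF0) (cut := Cut.none) (xt := Ext.none) (P1 := 0) (W1 := 536870912) (P2 := 536870912) (W2 := 536870912) (P3 := 201326592) (W3 := 134217728)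
    rfl k0_pm_001

noncomputable def f_pm_011 : ℕ → ℕ → ℕ → ℕ → Bool := onCell 0 536870912 536870912 536870912 201326592 134217728
    (rowF 0 false true false .pnn 0 1 1 (qsf 0 536870912 536870912 536870912 1) ndF0q0 ndF3q1 pcF1 Cut.none Ext.none)

def k0_pm_011 : ∃ t, chk3 f_pm_011 t 1 1 1 = true :=
  ⟨(l 4), by decide +kernel⟩

theorem c_pm_011 : CertF 0 536870912 536870912 536870912 201326592 134217728 false true false .pnn 0 1 1
    ndF0q0 ndF3q1 pcF1 Cut.none Ext.none :=
  certF0 (fam := false) (s1 := true) (s2 := false) (a := 0) (b := 1) (c := 1) (cn := .pnn) (n1 := ndF0q0) (n2 := ndF3q1) (pc := pcF1) (cut := Cut.none) (xt := Ext.none) (P1 := 0) (W1 := 536870912) (P2 := 536870912) (W2 := 536870912) (P3 := 201326592) (W3 := 134217728)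
    rfl k0_pm_011

noncomputable def f_pm_012 : ℕ → ℕ → ℕ → ℕ → Bool := onCell 0 536870912 1073741824 536870912 201326592 134217728
    (rowF 0 false true false .pnp 0 1 2 (qsf 0 536870912 1073741824 536870912 1) ndF0q0 ndF3q2 pcF1 Cut.none Ext.none)

def k0_pm_012 : ∃ t, chk3 f_pm_012 t 2 1 1 = true :=
  ⟨(l 4), by decide +kernel⟩

def k1_pm_012 : ∃ t, chk3 f_pm_012 t 3 2 1 = true :=
  ⟨(a (b (a (l 4) (a (l 4) (b (b (l 4) (l 4)) (l 4)))) (l 4)) (b (a (b (c (a (b (l 17431032) (l 17503688)) (l 17542992)) (a (b (l 16953640) (l 16983016)) (b (l 17056128) (l 17093712)))) (b (c (l 17618560) (a (l 17016152) (l 17134336))) (b (c (l 17675648) (l 17108456)) (c (a (l 17671944) (l 17747744)) (a (l 17060504) (l 17187560)))))) (b (a (c (l 17607352) (l 17162200)) (c (l 17663352) (l 17236656))) (b (c (l 17741552) (l 17269160)) (b (l 17296928) (c (l 17828128) (l 17327368)))))) (b (b (b (a (c (l 41039104247) (a (l 4) (l 17208672))) (c (l 17860152) (l 17349792))) (a (a (l 4) (c (b (l 17805952) (l 17821136))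 (b (l 17223224) (b (l 17230448) (l 17235304))))) (c (b (l 17880224) (l 17893328)) (b (l 17364656) (b (l 17371840) (l 17376608)))))) (a (c (l 43723628311) (a (l 4) (l 17258096))) (c (l 17923256) (a (l 17358264) (l 17433976))))) (b (a (c (l 46408024055) (a (l 4) (l 17305736))) (c (l 17980336) (l 17444544))) (a (c (l 17956816) (a (l 4) (l 17358552))) (a (c (l 18027024) (l 17456184)) (c (l 18042928) (l 17523496)))))))), by decide +kernel⟩

def k2_pm_012 : ∃ t, chk3 f_pm_012 t 3 3 1 = true :=
  ⟨(a (l 4) (b (a (a (l 4) (b (c (l 18095256) (b (l 17412880) (l 17484104))) (c (l 18263208) (b (l 17569192) (l 4))))) (b (a (c (l 18123040) (b (l 17512344) (l 17575856))) (b (c (l 18094712) (l 17572488)) (c (l 18147376) (l 17626648)))) (c (b (a (l 18225216) (l 18203248)) (a (a (l 18303800) (l 18290552)) (l 18279984))) (b (a (l 17648480) (l 17689912)) (a (a (l 17721008) (l 17741968)) (a (l 17753160) (l 17754768))))))) (a (l 4) (b (b (a (c (l 18379520) (l 17812784)) (a (l 18036648) (b (l 18043160) (l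 18074864)))) (c (l 18428472) (l 17883680))) (c (l 18531672) (a (l 17974304) (l 17969296))))))), by decide +kernel⟩

theorem s3_pm_012 : ∃ t, chk3 f_pm_012 t 3 1 1 = true := ex3_b k1_pm_012 k2_pm_012

theorem s4_pm_012 : ∃ t, chk3 f_pm_012 t 1 1 1 = true := ex3_a k0_pm_012 s3_pm_012

theorem c_pm_012 : CertF 0 536870912 1073741824 536870912 201326592 134217728 false true false .pnp 0 1 2
    ndF0q0 ndF3q2 pcF1 Cut.none Ext.none :=
  certF0 (fam := false) (s1 := true) (s2 := false) (a := 0) (b := 1) (c := 2) (cn := .pnp) (n1 := ndF0q0) (n2 := ndF3q2) (pc := pcF1) (cut := Cut.none) (xt := Ext.none) (P1 := 0) (W1 := 536870912) (P2 := 1073741824) (W2 := 536870912) (P3 := 201326592) (W3 := 134217728)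
    rfl s4_pm_012

noncomputable def f_pm_022 : ℕ → ℕ → ℕ → ℕ → Bool := onCell 1073741824 536870912 1073741824 536870912 201326592 134217728
    (rowF 2 false true false .pp 0 2 2 (qsf 0 536870912 1073741824 536870912 2) ndF0q0 ndF3q2 pcF2 Cut.none Ext.none)

def k0_pm_022 : ∃ t, chk3 f_pm_022 t 1 1 1 = true :=
  ⟨(a (b (l 4) (b (l 4) (a (b (l 4) (a (c (l 18490648) (a (l 17947544) (l 17871472))) (l 4))) (l 4)))) (l 4)), by decide +kernel⟩

theorem c_pm_022 : CertF 0 536870912 1073741824 536870912 201326592 134217728 false true false .pp 0 2 2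
    ndF0q0 ndF3q2 pcF2 Cut.none Ext.none :=
  certF2 (fam := false) (s1 := true) (s2 := false) (a := 0) (b := 2) (c := 2) (cn := .pp) (n1 := ndF0q0) (n2 := ndF3q2) (pc := pcF2) (cut := Cut.none) (xt := Ext.none) (P1 := 0) (W1 := 536870912) (P2 := 1073741824) (W2 := 536870912) (P3 := 201326592) (W3 := 134217728)
    rfl (fun _ => rfl) k0_pm_022

noncomputable def f_pm_023 : ℕ → ℕ → ℕ → ℕ → Bool := onCell 0 536870912 0 1230186008 201326592 134217728
    (rowF 0 false true false .up 0 2 3 (qsf 0 536870912 0 1230186008 2) ndF0q0 ndF3q3 pcF2 Cut.none Ext.none)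

def k0_pm_023 : ∃ t, chk3 f_pm_023 t 1 1 1 = true :=
  ⟨(a (b (l 2) (l 4)) (a (b (l 2) (b (l 4) (l 4))) (b (b (a (l 2) (l 17392472)) (a (b (l 17459872) (l 17544128)) (l 17490392))) (b (b (a (l 17657832) (l 17639112)) (a (l 17795224) (l 17784360))) (b (a (l 1439588770007) (l 17957912)) (a (l 4) (b (l 18103152) (c (l 18408344) (l 18004608))))))))), by decide +kernel⟩

theorem c_pm_023 : CertF 0 536870912 0 1230186008 201326592 134217728 false true false .up 0 2 3
    ndF0q0 ndF3q3 pcF2 Cut.none Ext.none :=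
  certF0 (fam := false) (s1 := true) (s2 := false) (a := 0) (b := 2) (c := 3) (cn := .up) (n1 := ndF0q0) (n2 := ndF3q3) (pc := pcF2) (cut := Cut.none) (xt := Ext.none) (P1 := 0) (W1 := 536870912) (P2 := 0) (W2 := 1230186008) (P3 := 201326592) (W3 := 134217728)
    rfl k0_pm_023

noncomputable def f_pm_033 : ℕ → ℕ → ℕ → ℕ → Bool := onCell 1610612736 536870912 0 1230186008 201326592 134217728
    (rowF 2 false true false .pnn 0 3 3 (qsf 0 536870912 0 1230186008 3) ndF0q0 ndF3q3 pcF3 Cut.none Ext.none)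

def k0_pm_033 : ∃ t, chk3 f_pm_033 t 1 1 1 = true :=
  ⟨(b (a (b (a (a (l 17201960) (l 17316344)) (a (l 17582696) (l 4))) (a (a (b (l 17377760) (l 17775688)) (b (l 17442672) (l 4))) (l 4))) (l 4)) (a (b (a (l 4) (l 4)) (l 4)) (l 4))), by decide +kernel⟩

theorem c_pm_033 : CertF 0 536870912 0 1230186008 201326592 134217728 false true false .pnn 0 3 3
    ndF0q0 ndF3q3 pcF3 Cut.none Ext.none :=
  certF2 (fam := false) (s1 := true) (s2 := false) (a := 0) (b := 3) (c := 3) (cn := .pnn) (n1 := ndF0q0) (n2 := ndF3q3) (pc := pcF3) (cut := Cut.none) (xt := Ext.none) (P1 := 0) (W1 := 536870912) (P2 := 0) (W2 := 1230186008) (P3 := 201326592) (W3 := 134217728)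
    rfl (fun _ => rfl) k0_pm_033

noncomputable def f_pm_101 : ℕ → ℕ → ℕ → ℕ → Bool := onCell 536870912 536870912 536870912 536870912 201326592 134217728
    (rowF 0 false true false .npn 1 0 1 (qsf 536870912 536870912 536870912 536870912 0) ndF0q1 ndF3q1 pcF0 Cut.none Ext.none)

def k0_pm_101 : ∃ t, chk3 f_pm_101 t 1 1 1 = true :=
  ⟨(l 4), by decide +kernel⟩

theorem c_pm_101 : CertF 536870912 536870912 536870912 536870912 201326592 134217728 false true false .npn 1 0 1
    ndF0q1 ndF3q1 pcF0 Cut.none Ext.none :=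
  certF0 (fam := false) (s1 := true) (s2 := false) (a := 1) (b := 0) (c := 1) (cn := .npn) (n1 := ndF0q1) (n2 := ndF3q1) (pc := pcF0) (cut := Cut.none) (xt := Ext.none) (P1 := 536870912) (W1 := 536870912) (P2 := 536870912) (W2 := 536870912) (P3 := 201326592) (W3 := 134217728)
    rfl k0_pm_101

noncomputable def f_pm_102 : ℕ → ℕ → ℕ → ℕ → Bool := onCell 536870912 536870912 1073741824 536870912 201326592 134217728
    (rowF 0 false true false .npp 1 0 2 (qsf 536870912 536870912 1073741824 536870912 0) ndF0q1 ndF3q2 pcF0 Cut.none Ext.none)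

def k0_pm_102 : ∃ t, chk3 f_pm_102 t 2 1 1 = true :=
  ⟨(b (a (b (a (b (a (c (l 17512696) (b (l 17329768) (l 17334776))) (c (l 17652584) (b (l 17338712) (l 17338832)))) (b (a (l 2) (c (l 17473936) (l 17336808))) (l 2))) (b (c (a (l 17462200) (l 17442696)) (a (l 17379984) (l 17333520))) (b (c (l 17431144) (l 17320944)) (b (l 17370200) (l 17359032))))) (b (a (l 2) (b (b (l 17345776) (l 2)) (l 2))) (l 2))) (b (a (b (c (l 17419008) (l 17469408)) (b (c (l 17366656) (l 17285376)) (b (l 17309984) (l 17290896)))) (b (c (l 17390496) (l 17406184)) (b (l 17493960) (b (l 17247680) (l 17220512))))) (b (b (a (b (l 17269624) (l 17494872)) (b (l 17190952) (l 17365728))) (a (l 17193528) (l 17113280))) (a (b (l 17139384) (l 2)) (b (l 17032304) (l 16973480)))))) (a (l 2) (b (b (a (l 2) (l 16887768)) (l 2)) (l 2)))), by decide +kernel⟩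

def k1_pm_102 : ∃ t, chk3 f_pm_102 t 3 1 1 = true :=
  ⟨(b (a (b (a (b (c (l 17357464) (l 17417152)) (b (l 17376144) (b (l 17182128) (l 17147744)))) (b (c (l 17311720) (b (l 17253848) (l 17195176))) (b (l 17332784) (b (l 17190376) (c (l 17105304) (l 17055816)))))) (b (b (b (a (l 17109216) (l 17045328)) (a (c (l 17074464) (l 17057360)) (l 17026880))) (a (l 17017016) (l 16948976))) (a (l 16996608) (l 17123920)))) (b (a (b (b (c (l 17297440) (l 17199624)) (c (l 17206544) (l 17133056))) (b (a (l 17106096) (l 17078112)) (b (l 17071896) (l 17079160)))) (b (b (c (a (l 17254416) (l 17221728)) (a (l 17155056) (l 17120624))) (a (l 17157352) (b (l 17219000) (l 17111480)))) (b (a (l 17071384) (l 17058560)) (b (a (l 17057688) (l 17002000)) (a (l 17027864) (l 16959352)))))) (b (b (b (a (l 17054344) (a (l 16991280) (l 16912024))) (a (b (l 16974496) (l 16969480)) (b (l 16996912) (a (l 16927016) (l 16878072))))) (a (l 16953728) (a (l 16846784) (l 16971928)))) (a (b (l 16860216) (l 16868712)) (b (a (l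 16754784) (l 16721024)) (l 16779744)))))) (b (a (b (a (l 16944952) (l 17032176)) (a (l 16918096) (l 17000096))) (b (a (l 16962056) (a (l 16909056) (b (l 16826280) (l 16926952)))) (a (b (l 17022208) (l 17081528)) (a (l 17139248) (b (l 17002408) (l 17063184)))))) (a (b (a (l 2) (l 17150336)) (l 2)) (b (a (b (l 17132768) (l 17167752)) (a (b (l 17145088) (l 17195032)) (b (l 17134616) (l 17201608)))) (a (l 17204936) (a (l 17246320) (l 17266584))))))), by decide +kernel⟩

theorem s2_pm_102 : ∃ t, chk3 f_pm_102 t 1 1 1 = true := ex3_a k0_pm_102 k1_pm_102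

theorem c_pm_102 : CertF 536870912 536870912 1073741824 536870912 201326592 134217728 false true false .npp 1 0 2
    ndF0q1 ndF3q2 pcF0 Cut.none Ext.none :=
  certF0 (fam := false) (s1 := true) (s2 := false) (a := 1) (b := 0) (c := 2) (cn := .npp) (n1 := ndF0q1) (n2 := ndF3q2) (pc := pcF0) (cut := Cut.none) (xt := Ext.none) (P1 := 536870912) (W1 := 536870912) (P2 := 1073741824) (W2 := 536870912) (P3 := 201326592) (W3 := 134217728)
    rfl s2_pm_102

end Pool.Agent.Strip051.G.I3_16_5_16.Tab.C.FB03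

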