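import Pool.Agent.Strip051.G.I3_16_5_16.Tab

/-! # Certificates F11 (generated) -/

set_option linter.all false
set_option maxRecDepth 100000

namespace Pool.Agent.Strip051.G.I3_16_5_16.Tab.C.FB03

open Pool.Agent.Strip051.PB Pool.Agent.Strip051.PB.T
open Pool.Agent.Strip051.G.I3_16_5_16.Tab

noncomputable def f_pm_112 : ℕ → ℕ → ℕ → ℕ → Bool := onCell 536870912 536870912 1073741824 536870912 201326592 134217728
    (rowF 0 false true false .dn 1 1 2 (qsf 536870912 536870912 1073741824 536870912 1) ndF0q1 ndF3q2 pcF1 Cut.none Ext.none)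

def k0_pm_112 : ∃ t, chk3 f_pm_112 t 2 2 1 = true :=
  ⟨(a (b (a (b (c (b (l 17704888) (l 17765248)) (b (l 17308208) (l 17353032))) (b (c (l 17824296) (l 17397768)) (b (c (l 17868288) (l 17431368)) (c (l 18125496) (a (l 17427536) (l 17476360)))))) (b (c (l 207804925927) (b (l 1) (l 17448456))) (b (c (l 17870648) (l 17482928)) (b (l 17698784) (c (l 17908224) (l 17518688)))))) (b (a (b (b (a (l 17679688) (l 17688584)) (a (c (l 18123096) (b (l 17462128) (l 17470784))) (b (l 17718808) (c (l 17940144) (l 17509080))))) (a (c (l 17958208) (l 17490088)) (c (l 17948472) (l 17521656)))) (b (b (l 17722912) (c (l 17921488) (b (l 17534760) (l 17537416)))) (a (c (l 17925312) (l 17536464)) (l 17724008)))) (a (b (a (c (l 18000288) (l 17528696)) (c (l 17972216) (l 17549440))) (a (c (l 18038344) (l 17566744)) (l 17790720))) (b (a (c (l 17928728) (l 17551752)) (l 17722584)) (a (c (l 17939656) (l 17571848)) (l 17714888)))))) (a (b (b (l 1) (b (l 1) (b (l 1) (l 255586080151)))) (b (b (b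 (l 17734696) (c (l 17906696) (l 17790904))) (l 17716904)) (b (l 17699976) (a (l 17688016) (l 17674000))))) (b (l 1) (b (b (l 1) (l 17716040)) (b (l 17696768) (l 17678736)))))), by decide +kernel⟩

def k1_pm_112 : ∃ t, chk3 f_pm_112 t 2 3 1 = true :=
  ⟨(a (b (b (a (a (b (c (l 18074064) (l 17605664)) (c (l 18110888) (l 17648736))) (b (l 17821176) (l 17852928))) (b (a (l 17783488) (l 17892416)) (c (l 17954216) (l 17808064)))) (b (a (a (c (l 18148856) (l 17697104)) (c (l 18083896) (l 17687656))) (a (l 17839160) (l 17785368))) (a (a (c (l 18190504) (l 17753472)) (l 17920704)) (l 17833128)))) (a (b (b (a (c (l 18245544) (b (l 17792432) (l 17817408))) (l 17961960)) (a (a (l 18093488) (l 18067624)) (l 18014808))) (a (l 18167528) (b (l 18073384) (l 18113160)))) (b (b (l 17863800) (l 17900552)) (a (b (l 17982256) (l 18026760)) (l 17916520))))) (b (b (a (b (a (l 17681808) (l 17673280)) (l 17690064)) (b (l 17663664) (l 17643464))) (b (a (l 17710208) (l 17635544)) (a (l 17712480)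 (l 17620808)))) (b (a (b (l 17728880) (l 17751792)) (b (l 17619832) (l 17624736))) (a (b (l 17776200) (l 17797712)) (l 17633592))))), by decide +kernel⟩

def k2_pm_112 : ∃ t, chk3 f_pm_112 t 3 1 1 = true :=
  ⟨(b (a (b (l 1) (b (l 1) (a (l 197604390375) (l 1)))) (l 1)) (a (b (b (a (l 131569167975) (l 254512568503)) (a (b (l 17597680) (b (l 17566480) (l 17541384))) (l 178813117847))) (b (l 14531064615) (l 17446008))) (b (a (b (l 1) (l 435974043431)) (l 1)) (b (a (l 17384936) (b (l 1) (l 17553536))) (a (l 17321136) (a (l 17312408) (l 17316440))))))), by decide +kernel⟩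

theorem s3_pm_112 : ∃ t, chk3 f_pm_112 t 2 1 1 = true := ex3_b k0_pm_112 k1_pm_112

theorem s4_pm_112 : ∃ t, chk3 f_pm_112 t 1 1 1 = true := ex3_a s3_pm_112 k2_pm_112

theorem c_pm_112 : CertF 536870912 536870912 1073741824 536870912 201326592 134217728 false true false .dn 1 1 2
    ndF0q1 ndF3q2 pcF1 Cut.none Ext.none :=
  certF0 (fam := false) (s1 := true) (s2 := false) (a := 1) (b := 1) (c := 2) (cn := .dn) (n1 := ndF0q1) (n2 := ndF3q2) (pc := pcF1) (cut := Cut.none) (xt := Ext.none) (P1 := 536870912) (W1 := 536870912) (P2 := 1073741824) (W2 := 536870912) (P3 := 201326592) (W3 := 134217728)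
    rfl s4_pm_112

noncomputable def cut_pm_113 : Cut := Cut.of [[⟨0, 1, 0, 57167902⟩, ⟨1, 1, 0, 57167902⟩, ⟨2, 2, 0, 11758673⟩]]

noncomputable def f_pm_113 : ℕ → ℕ → ℕ → ℕ → Bool := onCell 536870912 536870912 0 1230186008 201326592 134217728
    (rowF 0 false true false .nn 1 1 3 (qsf 536870912 536870912 0 1230186008 1) ndF0q1 ndF3q3 pcF1 cut_pm_113 Ext.none)

def k0_pm_113 : ∃ t, chk3 f_pm_113 t 1 1 1 = true :=
  ⟨(b (a (l 2) (a (l 2) (b (a (l 2) (a (l 2) (b (l 6) (a (l 16806976) (l 16874776))))) (a (b (l 16843648) (l 16897120)) (b (a (l 16847496) (l 16879592)) (a (l 16916232) (l 16927672))))))) (b (a (b (l 2) (a (l 2) (a (l 2) (l 17722192)))) (a (b (a (l 2) (l 16984688)) (a (l 17249808) (l 17047408))) (b (a (l 16983512) (a (l 17003320) (l 17015736))) (a (l 17082984) (b (l 17085104) (l 17138792)))))) (a (b (a (l 2) (a (l 17853712) (l 17548912))) (a (b (a (l 2) (l 18062472)) (a (c (l 18392424) (l 18041536)) (b (l 17995184) (a (l 18005992) (l 17886488))))) (a (b (l 17781888)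 (l 17732360)) (l 17532840)))) (a (b (a (l 17294352) (l 17149048)) (a (l 17353392) (l 17255072))) (b (a (l 17308912) (a (l 17208880) (b (l 17203232) (l 17251968)))) (a (b (l 17246592) (l 17280216)) (a (l 17284048) (b (l 17288008) (l 17303464))))))))), by decide +kernel⟩

theorem c_pm_113 : CertF 536870912 536870912 0 1230186008 201326592 134217728 false true false .nn 1 1 3
    ndF0q1 ndF3q3 pcF1 cut_pm_113 Ext.none :=
  certF0 (fam := false) (s1 := true) (s2 := false) (a := 1) (b := 1) (c := 3) (cn := .nn) (n1 := ndF0q1) (n2 := ndF3q3) (pc := pcF1) (cut := cut_pm_113) (xt := Ext.none) (P1 := 536870912) (W1 := 536870912) (P2 := 0) (W2 := 1230186008) (P3 := 201326592) (W3 := 134217728)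
    rfl k0_pm_113

noncomputable def cut_pm_123 : Cut := Cut.of [[⟨0, 1, 0, 57167902⟩, ⟨1, 1, 0, 57167902⟩, ⟨2, 2, 0, 11758673⟩]]

noncomputable def f_pm_123 : ℕ → ℕ → ℕ → ℕ → Bool := onCell 1073741824 536870912 0 1230186008 201326592 134217728
    (rowF 2 false true false .npn 1 2 3 (qsf 536870912 536870912 0 1230186008 2) ndF0q1 ndF3q3 pcF2 cut_pm_123 Ext.none)

def k0_pm_123 : ∃ t, chk3 f_pm_123 t 1 1 1 = true :=
  ⟨(b (b (a (a (a (a (b (l 6) (b (l 16813488) (l 16838040))) (b (l 16819800) (l 16859864))) (a (b (l 16855824) (l 16901776)) (a (l 16912728) (l 16933696)))) (a (a (a (l 16953224) (b (l 16945584) (l 16989960))) (l 16982664)) (l 17024720))) (a (a (l 17099816) (l 17189088)) (a (l 17290568) (l 17362032)))) (a (a (a (b (a (l 16896512) (l 16942592)) (l 17047472)) (a (b (l 16986600) (l 17116320)) (a (l 17083776) (l 17104104)))) (a (a (a (l 17123248) (l 17392576)) (l 17166392)) (b (l 17152008) (l 17387256)))) (a (a (b (l 17243936) (l 17386920)) (b (l 17332336) (l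 17458320))) (a (l 17454184) (l 17495672))))) (b (a (b (a (a (l 17229912) (a (l 17301744) (l 17346400))) (a (a (l 17389136) (l 17429640)) (l 17493576))) (a (a (l 17489424) (a (l 17558472) (l 17605448))) (a (l 17663992) (l 17721800)))) (a (b (a (l 17564344) (l 17614040)) (a (l 17771640) (l 17788408))) (a (b (l 17648224) (l 1)) (l 1)))) (a (a (b (a (b (l 17745496) (l 17924984)) (b (l 17817360) (l 17967416))) (b (a (l 18089056) (l 18101984)) (a (c (l 18406944) (l 18028760)) (c (l 18380768) (l 18065656))))) (b (a (b (l 17865056) (l 17993872)) (b (l 17899448) (l 1))) (a (b (l 18084752) (l 1)) (l 1)))) (l 1)))), by decide +kernel⟩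

theorem c_pm_123 : CertF 536870912 536870912 0 1230186008 201326592 134217728 false true false .npn 1 2 3
    ndF0q1 ndF3q3 pcF2 cut_pm_123 Ext.none :=
  certF2 (fam := false) (s1 := true) (s2 := false) (a := 1) (b := 2) (c := 3) (cn := .npn) (n1 := ndF0q1) (n2 := ndF3q3) (pc := pcF2) (cut := cut_pm_123) (xt := Ext.none) (P1 := 536870912) (W1 := 536870912) (P2 := 0) (W2 := 1230186008) (P3 := 201326592) (W3 := 134217728)
    rfl (fun _ => rfl) k0_pm_123

noncomputable def f_pm_133 : ℕ → ℕ → ℕ → ℕ → Bool := onCell 536870912 536870912 0 1230186008 201326592 134217728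
    (rowF 0 false true false .dn 1 3 3 (qsf 536870912 536870912 0 1230186008 3) ndF0q1 ndF3q3 pcF3 Cut.none Ext.none)

def k0_pm_133 : ∃ t, chk3 f_pm_133 t 1 1 1 = true :=
  ⟨(b (b (a (a (a (l 192234308007) (l 1)) (l 1)) (l 1)) (l 1)) (l 1)), by decide +kernel⟩

theorem c_pm_133 : CertF 536870912 536870912 0 1230186008 201326592 134217728 false true false .dn 1 3 3
    ndF0q1 ndF3q3 pcF3 Cut.none Ext.none :=
  certF0 (fam := false) (s1 := true) (s2 := false) (a := 1) (b := 3) (c := 3) (cn := .dn) (n1 := ndF0q1) (n2 := ndF3q3) (pc := pcF3) (cut := Cut.none) (xt := Ext.none) (P1 := 536870912) (W1 := 536870912) (P2 := 0) (W2 := 1230186008) (P3 := 201326592) (W3 := 134217728)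
    rfl k0_pm_133

noncomputable def f_pm_202 : ℕ → ℕ → ℕ → ℕ → Bool := onCell 0 536870912 1073741824 536870912 201326592 134217728
    (rowF 0 false true false .pp 2 0 2 (qsf 0 536870912 1073741824 536870912 0) ndF0q2 ndF3q2 pcF0 Cut.none Ext.none)

def k0_pm_202 : ∃ t, chk3 f_pm_202 t 2 1 1 = true :=
  ⟨(b (l 3) (l 3)), by decide +kernel⟩

def k1_pm_202 : ∃ t, chk3 f_pm_202 t 6 2 1 = true :=
  ⟨(b (a (b (l 1) (b (l 1) (b (a (l 3) (l 3)) (l 3)))) (b (l 1) (b (a (b (l 1) (b (c (l 527777610407) (l 91838152775)) (c (a (l 293701620263) (l 16650504)) (l 215318423399)))) (b (b (l 1) (l 297996794167)) (c (l 16804704) (a (l 16684048) (l 16714112))))) (b (a (b (a (a (b (c (l 16602016) (l 16602976)) (c (l 16599600) (l 16600216))) (c (l 16587288) (l 16605632))) (c (l 16615104) (l 16608856))) (a (c (l 133311403431) (l 127405797639)) (c (l 16592232) (l 16589296)))) (a (b (l 16646072) (l 16657176)) (l 16686168))) (a (b (a (c (l 16606728) (l 16602648)) (c (l 16595664) (l 16591504)))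 (a (c (l 134922092711) (l 124721526007)) (c (l 16645488) (l 16608216)))) (b (c (l 16619312) (l 16614400)) (c (l 16659800) (l 16611840)))))))) (b (b (b (a (l 3) (a (a (c (b (l 138680170151) (l 137606423111)) (b (l 137069550679) (l 136532672071))) (c (b (l 16609424) (l 16608040)) (l 16684432))) (c (a (l 16703480) (l 16631552)) (l 16720616)))) (a (l 3) (c (b (a (a (l 137069554631) (l 16606152)) (a (l 16621488) (l 16635416))) (b (a (l 137606445367) (l 16626432)) (a (a (b (l 136532659047) (l 133311419479)) (l 16685456)) (l 16666608)))) (b (a (l 126332201303) (l 16638736)) (a (b (l 135995827367) (a (b (l 16604280) (l 138680170935)) (l 16679568))) (a (l 16758800) (l 16710584))))))) (a (l 3) (b (a (c (a (l 133848263031) (l 16596288)) (l 130627105063)) (l 16658472)) (a (c (l 130627107623) (l 131163930231)) (l 16655416))))) (a (l 3) (b (a (b (c (l 131163924311) (l 132237642423)) (c (l 132237648023) (l 133311349511))) (b (l 16670480) (c (l 16598640) (l 16598120)))) (a (a (l 3) (c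 (b (l 130090174167) (l 132237987543)) (l 130627075639))) (b (c (l 16615440) (l 16587992)) (c (l 16742936) (l 16575048)))))))), by decide +kernel⟩

def k2_pm_202 : ∃ t, chk3 f_pm_202 t 7 2 1 = true :=
  ⟨(b (a (b (b (l 1) (a (b (l 1) (b (l 1) (l 16866968))) (b (b (l 16990448) (l 16968360)) (l 16934240)))) (b (a (b (l 16828064) (l 16773640)) (c (l 16883624) (l 16841648))) (b (a (l 16758944) (l 16785032)) (a (b (l 16672632) (l 16691168)) (b (l 16744560) (l 16716576)))))) (b (b (a (a (b (l 1) (b (l 1) (l 17046832))) (c (l 17147680) (l 90228582759))) (c (l 17190776) (a (l 17075744) (l 17102288)))) (a (b (a (l 17019832) (l 17047016)) (l 16989432)) (b (l 17085088) (l 17047920)))) (b (a (l 16924320) (l 16988744)) (b (l 16951968) (b (l 16853560) (l 16850064)))))) (b (b (b (a (a (a (l 16677184) (l 16689056)) (l 16825808)) (a (l 16745144) (l 16824104))) (a (b (a (l 16644024) (l 16661016)) (a (a (l 16789256) (l 16733696)) (l 16766944))) (b (l 16821248) (b (l 16718520) (l 16898736)))))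 (a (a (a (l 16695248) (l 16676208)) (l 16721200)) (b (l 16786496) (l 16693712)))) (a (b (a (b (l 16638280) (l 16629400)) (b (l 16665224) (l 16659744))) (a (l 16673176) (l 16640856))) (b (a (l 16680456) (l 16700152)) (a (l 16669024) (l 16689056)))))), by decide +kernel⟩

def k3_pm_202 : ∃ t, chk3 f_pm_202 t 3 6 1 = true :=
  ⟨(a (b (a (l 3) (a (a (l 3) (a (l 3) (b (c (b (l 16838704) (l 16817624)) (l 133848277367)) (c (l 144049597143) (l 242296166103))))) (b (b (c (l 16845128) (l 16559208)) (c (l 16927600) (l 16560760))) (b (c (l 16973472) (l 16547760)) (c (l 122574616247) (l 125795533943)))))) (a (l 3) (b (a (l 3) (b (a (c (l 128480253959) (l 131164257639)) (c (l 17095792) (l 16701040))) (c (c (l 124722640023) (l 126332956663)) (a (l 133848645815) (l 16757544))))) (a (l 3) (a (a (l 3) (c (b (c (l 17252152) (l 129554145207)) (c (l 134386497815) (b (l 133849267415) (l 137070522039)))) (b (b (l 130090578999) (l 132774987367)) (a (l 3) (b (l 130090696135) (c (l 133848956455)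 (l 134922357991))))))) (c (b (c (l 17255696) (l 17075248)) (c (l 17280112) (a (l 17105552) (l 17107464)))) (b (l 16826712) (b (l 16837472) (c (l 16942360) (l 16771672)))))))))) (b (a (b (a (l 16679280) (l 16685352)) (a (c (l 17031432) (l 16609232)) (l 16835424))) (b (l 16734200) (a (l 16855992) (l 16878992)))) (a (b (a (c (l 17121136) (l 16738872)) (l 16939696)) (a (c (b (l 17171504) (l 17200008)) (b (l 16810936) (l 16851224))) (c (l 17194904) (l 16839536)))) (b (l 16960512) (a (l 17025536) (l 17036624)))))), by decide +kernel⟩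

def k4_pm_202 : ∃ t, chk3 f_pm_202 t 3 7 1 = true :=
  ⟨(b (a (a (l 3) (a (l 3) (c (b (a (b (b (c (l 142976461879) (l 142976130535)) (l 202568928967)) (l 3)) (b (b (c (l 17296856) (l 17129416)) (l 17121168)) (l 17222024))) (l 140828925495)) (b (a (a (l 3) (b (b (c (l 141365188663) (l 141901729127)) (l 3)) (l 3))) (b (b (c (l 16962704) (l 16796712)) (l 16904880)) (l 16939576))) (l 141365257495))))) (a (b (b (a (c (l 17228200) (l 16897296)) (l 17071120)) (c (l 17260456) (l 16972072))) (a (c (l 17282152) (l 17007648)) (l 17159480))) (b (a (l 17104080) (l 17116616)) (l 17183560)))) (a (a (l 3) (a (l 3) (a (l 3) (c (l 147271433239) (b (l 133312208151) (l 229949163015)))))) (a (a (c (b (l 17304112) (l 17310072)) (b (l 17069528) (a (l 17086360) (l 17116896)))) (c (l 17333208) (l 17111040))) (a (l 17242488) (l 17263832))))), by decide +kernel⟩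

theorem s5_pm_202 : ∃ t, chk3 f_pm_202 t 3 3 1 = true := ex3_b k3_pm_202 k4_pm_202

theorem s6_pm_202 : ∃ t, chk3 f_pm_202 t 3 2 1 = true := ex3_a k1_pm_202 k2_pm_202

theorem s7_pm_202 : ∃ t, chk3 f_pm_202 t 3 1 1 = true := ex3_b s6_pm_202 s5_pm_202

theorem s8_pm_202 : ∃ t, chk3 f_pm_202 t 1 1 1 = true := ex3_a k0_pm_202 s7_pm_202

theorem c_pm_202 : CertF 0 536870912 1073741824 536870912 201326592 134217728 false true false .pp 2 0 2
    ndF0q2 ndF3q2 pcF0 Cut.none Ext.none :=
  certF0 (fam := false) (s1 := true) (s2 := false) (a := 2) (b := 0) (c := 2) (cn := .pp) (n1 := ndF0q2) (n2 := ndF3q2) (pc := pcF0) (cut := Cut.none) (xt := Ext.none) (P1 := 0) (W1 := 536870912) (P2 := 1073741824) (W2 := 536870912) (P3 := 201326592) (W3 := 134217728)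
    rfl s8_pm_202

noncomputable def f_pm_203 : ℕ → ℕ → ℕ → ℕ → Bool := onCell 0 536870912 0 1230186008 201326592 134217728
    (rowF 0 false true false .up 2 0 3 (qsf 0 536870912 0 1230186008 0) ndF0q2 ndF3q3 pcF0 Cut.none Ext.none)

def k0_pm_203 : ∃ t, chk3 f_pm_203 t 1 1 1 = true :=
  ⟨(b (l 2) (b (l 2) (a (l 3) (b (l 2) (a (b (l 3) (a (l 3) (l 3))) (a (b (a (a (a (l 3) (l 2)) (l 2)) (l 2)) (a (c (b (l 123649150199) (a (l 17347584) (l 17363488))) (b (a (l 142976048951) (l 17140248)) (a (b (l 17112408) (c (l 17158632) (a (l 135459627415) (l 17035736)))) (l 17113640)))) (c (l 17389248) (b (l 17159120) (l 17127488))))) (b (l 2) (a (b (l 17305128) (l 17283896)) (l 17327984))))))))), by decide +kernel⟩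

theorem c_pm_203 : CertF 0 536870912 0 1230186008 201326592 134217728 false true false .up 2 0 3
    ndF0q2 ndF3q3 pcF0 Cut.none Ext.none :=
  certF0 (fam := false) (s1 := true) (s2 := false) (a := 2) (b := 0) (c := 3) (cn := .up) (n1 := ndF0q2) (n2 := ndF3q3) (pc := pcF0) (cut := Cut.none) (xt := Ext.none) (P1 := 0) (W1 := 536870912) (P2 := 0) (W2 := 1230186008) (P3 := 201326592) (W3 := 134217728)
    rfl k0_pm_203

noncomputable def cut_pm_213 : Cut := Cut.of [[⟨0, 1, 0, 57167902⟩, ⟨1, 1, 0, 57167902⟩, ⟨2, 2, 0, 11758673⟩]]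

noncomputable def f_pm_213 : ℕ → ℕ → ℕ → ℕ → Bool := onCell 0 536870912 0 1230186008 201326592 134217728
    (rowF 0 false true false .pnn 2 1 3 (qsf 0 536870912 0 1230186008 1) ndF0q2 ndF3q3 pcF1 cut_pm_213 Ext.none)

def k0_pm_213 : ∃ t, chk3 f_pm_213 t 1 2 1 = true :=
  ⟨(a (l 3) (a (l 3) (b (a (l 3) (b (l 6) (a (l 3) (a (b (b (l 6) (b (l 276656350375) (l 273435110999))) (a (b (l 390472980823) (l 269140172471)) (b (l 261087093671) (l 16816904)))) (b (b (l 6) (a (l 16801088) (l 16805816))) (l 16797744)))))) (a (b (l 3) (l 3)) (b (a (a (l 3) (b (l 417316637367) (b (l 261087175079) (l 253571010855)))) (a (b (b (l 265382151239) (l 16839880)) (b (l 16854352) (l 16870088))) (b (l 16843256) (l 16872744)))) (a (b (b (l 254107909927) (l 247665492999)) (a (l 244981188439) (l 16925024))) (b (a (l 16896240) (l 16907208)) (l 16941064)))))))), by decide +kernel⟩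

def k1_pm_213 : ∃ t, chk3 f_pm_213 t 1 3 1 = true :=
  ⟨(b (a (l 3) (a (l 3) (b (a (a (l 3) (b (l 3) (a (l 3) (l 232633326199)))) (a (b (a (l 233170112791) (l 16969680)) (b (l 17001192) (l 17027392))) (b (l 16985912) (l 17035744)))) (a (a (l 3) (c (b (l 228875385879) (l 217064399559)) (b (a (l 3) (l 220285351095)) (a (l 210084947623) (l 17078368))))) (b (a (c (l 17095216) (l 17043032)) (l 17089920)) (a (c (l 17162400) (l 17092520)) (l 17147528))))))) (a (l 3) (b (a (l 3) (a (b (a (l 3) (a (c (l 204179601639) (b (l 201494964599) (l 198273778343))) (c (l 17221008) (l 17123712)))) (a (a (l 3) (c (l 232633841543) (b (l 186999558183) (l 179483389095)))) (c (b (l 17263064) (l 17288752)) (b (a (l 17140464) (l 17149472)) (l 17156272))))) (b (a (c (l 17229632) (l 17138008)) (l 17203720)) (a (c (l 17288992) (l 17172336)) (l 17251912))))) (a (b (l 3) (l 1)) (a (b (a (b (c (l 180020578647) (a (l 3) (l 177872730487))) (c (l 177873145959) (a (l 256255921687) (l 177335869719)))) (c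 (l 17423768) (b (l 17161976) (l 17159920)))) (b (a (c (l 176262611031) (a (l 159082228087) (l 17134360))) (c (l 17334864) (l 17148016))) (l 1))) (b (a (l 17257832) (l 17283136)) (b (l 17274800) (l 17288088)))))))), by decide +kernel⟩

theorem s2_pm_213 : ∃ t, chk3 f_pm_213 t 1 1 1 = true := ex3_b k0_pm_213 k1_pm_213

theorem c_pm_213 : CertF 0 536870912 0 1230186008 201326592 134217728 false true false .pnn 2 1 3
    ndF0q2 ndF3q3 pcF1 cut_pm_213 Ext.none :=
  certF0 (fam := false) (s1 := true) (s2 := false) (a := 2) (b := 1) (c := 3) (cn := .pnn) (n1 := ndF0q2) (n2 := ndF3q3) (pc := pcF1) (cut := cut_pm_213) (xt := Ext.none) (P1 := 0) (W1 := 536870912) (P2 := 0) (W2 := 1230186008) (P3 := 201326592) (W3 := 134217728)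
    rfl s2_pm_213

noncomputable def f_mm_001 : ℕ → ℕ → ℕ → ℕ → Bool := onCell 0 536870912 0 536870912 201326592 134217728
    (rowF 1 false false false .up 0 0 1 (qsf 0 536870912 536870912 536870912 0) ndF0q0 ndF3q1 pcF0 Cut.none Ext.none)

def k0_mm_001 : ∃ t, chk3 f_mm_001 t 1 1 1 = true :=
  ⟨(l 3), by decide +kernel⟩

theorem c_mm_001 : CertF 0 536870912 536870912 536870912 201326592 134217728 false false false .up 0 0 1
    ndF0q0 ndF3q1 pcF0 Cut.none Ext.none :=
  certF1 (fam := false) (s1 := false) (s2 := false) (a := 0) (b := 0) (c := 1) (cn := .up) (n1 := ndF0q0) (n2 := ndF3q1) (pc := pcF0) (cut := Cut.none) (xt := Ext.none) (P1 := 0) (W1 := 536870912) (P2 := 536870912) (W2 := 536870912) (P3 := 201326592) (W3 := 134217728)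
    rfl (fun _ => rfl) k0_mm_001

noncomputable def f_mm_011 : ℕ → ℕ → ℕ → ℕ → Bool := onCell 0 536870912 536870912 536870912 201326592 134217728
    (rowF 1 false false false .pnn 0 1 1 (qsf 0 536870912 536870912 536870912 1) ndF0q0 ndF3q1 pcF1 Cut.none Ext.none)

def k0_mm_011 : ∃ t, chk3 f_mm_011 t 1 1 1 = true :=
  ⟨(l 5), by decide +kernel⟩

theorem c_mm_011 : CertF 0 536870912 536870912 536870912 201326592 134217728 false false false .pnn 0 1 1
    ndF0q0 ndF3q1 pcF1 Cut.none Ext.none :=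
  certF1 (fam := false) (s1 := false) (s2 := false) (a := 0) (b := 1) (c := 1) (cn := .pnn) (n1 := ndF0q0) (n2 := ndF3q1) (pc := pcF1) (cut := Cut.none) (xt := Ext.none) (P1 := 0) (W1 := 536870912) (P2 := 536870912) (W2 := 536870912) (P3 := 201326592) (W3 := 134217728)
    rfl (fun _ => rfl) k0_mm_011

noncomputable def f_mm_012 : ℕ → ℕ → ℕ → ℕ → Bool := onCell 0 536870912 1073741824 536870912 201326592 134217728
    (rowF 0 false false false .pnp 0 1 2 (qsf 0 536870912 1073741824 536870912 1) ndF0q0 ndF3q2 pcF1 Cut.none Ext.none)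

def k0_mm_012 : ∃ t, chk3 f_mm_012 t 1 1 1 = true :=
  ⟨(l 5), by decide +kernel⟩

theorem c_mm_012 : CertF 0 536870912 1073741824 536870912 201326592 134217728 false false false .pnp 0 1 2
    ndF0q0 ndF3q2 pcF1 Cut.none Ext.none :=
  certF0 (fam := false) (s1 := false) (s2 := false) (a := 0) (b := 1) (c := 2) (cn := .pnp) (n1 := ndF0q0) (n2 := ndF3q2) (pc := pcF1) (cut := Cut.none) (xt := Ext.none) (P1 := 0) (W1 := 536870912) (P2 := 1073741824) (W2 := 536870912) (P3 := 201326592) (W3 := 134217728)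
    rfl k0_mm_012

noncomputable def f_mm_022 : ℕ → ℕ → ℕ → ℕ → Bool := onCell 0 536870912 1073741824 536870912 201326592 134217728
    (rowF 0 false false false .pp 0 2 2 (qsf 0 536870912 1073741824 536870912 2) ndF0q0 ndF3q2 pcF2 Cut.none Ext.none)

def k0_mm_022 : ∃ t, chk3 f_mm_022 t 1 1 1 = true :=
  ⟨(l 5), by decide +kernel⟩

theorem c_mm_022 : CertF 0 536870912 1073741824 536870912 201326592 134217728 false false false .pp 0 2 2
    ndF0q0 ndF3q2 pcF2 Cut.none Ext.none :=
  certF0 (fam := false) (s1 := false) (s2 := false) (a := 0) (b := 2) (c := 2) (cn := .pp) (n1 := ndF0q0) (n2 := ndF3q2) (pc := pcF2) (cut := Cut.none) (xt := Ext.none) (P1 := 0) (W1 := 536870912) (P2 := 1073741824) (W2 := 536870912) (P3 := 201326592) (W3 := 134217728)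
    rfl k0_mm_022

noncomputable def f_mm_023 : ℕ → ℕ → ℕ → ℕ → Bool := onCell 0 536870912 0 1230186008 201326592 134217728
    (rowF 0 false false false .up 0 2 3 (qsf 0 536870912 0 1230186008 2) ndF0q0 ndF3q3 pcF2 Cut.none Ext.none)

def k0_mm_023 : ∃ t, chk3 f_mm_023 t 1 1 1 = true :=
  ⟨(l 5), by decide +kernel⟩

theorem c_mm_023 : CertF 0 536870912 0 1230186008 201326592 134217728 false false false .up 0 2 3
    ndF0q0 ndF3q3 pcF2 Cut.none Ext.none :=
  certF0 (fam := false) (s1 := false) (s2 := false) (a := 0) (b := 2) (c := 3) (cn := .up) (n1 := ndF0q0) (n2 := ndF3q3) (pc := pcF2) (cut := Cut.none) (xt := Ext.none) (P1 := 0) (W1 := 536870912) (P2 := 0) (W2 := 1230186008) (P3 := 201326592) (W3 := 134217728)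
    rfl k0_mm_023

noncomputable def f_mm_033 : ℕ → ℕ → ℕ → ℕ → Bool := onCell 0 536870912 0 1230186008 201326592 134217728
    (rowF 0 false false false .pnn 0 3 3 (qsf 0 536870912 0 1230186008 3) ndF0q0 ndF3q3 pcF3 Cut.none Ext.none)

def k0_mm_033 : ∃ t, chk3 f_mm_033 t 1 1 1 = true :=
  ⟨(l 5), by decide +kernel⟩

theorem c_mm_033 : CertF 0 536870912 0 1230186008 201326592 134217728 false false false .pnn 0 3 3
    ndF0q0 ndF3q3 pcF3 Cut.none Ext.none :=
  certF0 (fam := false) (s1 := false) (s2 := false) (a := 0) (b := 3) (c := 3) (cn := .pnn) (n1 := ndF0q0) (n2 := ndF3q3) (pc := pcF3) (cut := Cut.none) (xt := Ext.none) (P1 := 0) (W1 := 536870912) (P2 := 0) (W2 := 1230186008) (P3 := 201326592) (W3 := 134217728)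
    rfl k0_mm_033

noncomputable def cut_mm_101 : Cut := Cut.of [[⟨0, 1, 0, 67108864⟩, ⟨1, 0, 0, 67108864⟩, ⟨2, 1, 0, 67108864⟩]]

noncomputable def f_mm_101 : ℕ → ℕ → ℕ → ℕ → Bool := onCell 536870912 536870912 0 536870912 201326592 134217728
    (rowF 1 false false false .npn 1 0 1 (qsf 536870912 536870912 536870912 536870912 0) ndF0q1 ndF3q1 pcF0 cut_mm_101 Ext.none)

def k0_mm_101 : ∃ t, chk3 f_mm_101 t 1 1 1 = true :=
  ⟨(a (l 3) (b (a (l 3) (b (b (b (a (l 3) (a (l 3) (l 6))) (l 3)) (l 3)) (l 3))) (l 3))), by decide +kernel⟩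

theorem c_mm_101 : CertF 536870912 536870912 536870912 536870912 201326592 134217728 false false false .npn 1 0 1
    ndF0q1 ndF3q1 pcF0 cut_mm_101 Ext.none :=
  certF1 (fam := false) (s1 := false) (s2 := false) (a := 1) (b := 0) (c := 1) (cn := .npn) (n1 := ndF0q1) (n2 := ndF3q1) (pc := pcF0) (cut := cut_mm_101) (xt := Ext.none) (P1 := 536870912) (W1 := 536870912) (P2 := 536870912) (W2 := 536870912) (P3 := 201326592) (W3 := 134217728)
    rfl (fun _ => rfl) k0_mm_101

noncomputable def f_mm_102 : ℕ → ℕ → ℕ → ℕ → Bool := onCell 536870912 536870912 0 536870912 201326592 134217728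
    (rowF 1 false false false .npp 1 0 2 (qsf 536870912 536870912 1073741824 536870912 0) ndF0q1 ndF3q2 pcF0 Cut.none Ext.none)

def k0_mm_102 : ∃ t, chk3 f_mm_102 t 1 1 1 = true :=
  ⟨(l 3), by decide +kernel⟩

theorem c_mm_102 : CertF 536870912 536870912 1073741824 536870912 201326592 134217728 false false false .npp 1 0 2
    ndF0q1 ndF3q2 pcF0 Cut.none Ext.none :=
  certF1 (fam := false) (s1 := false) (s2 := false) (a := 1) (b := 0) (c := 2) (cn := .npp) (n1 := ndF0q1) (n2 := ndF3q2) (pc := pcF0) (cut := Cut.none) (xt := Ext.none) (P1 := 536870912) (W1 := 536870912) (P2 := 1073741824) (W2 := 536870912) (P3 := 201326592) (W3 := 134217728)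
    rfl (fun _ => rfl) k0_mm_102

noncomputable def f_mm_112 : ℕ → ℕ → ℕ → ℕ → Bool := onCell 536870912 536870912 1073741824 536870912 201326592 134217728
    (rowF 2 false false false .dn 1 1 2 (qsf 536870912 536870912 1073741824 536870912 1) ndF0q1 ndF3q2 pcF1 Cut.none Ext.none)

def k0_mm_112 : ∃ t, chk3 f_mm_112 t 1 1 1 = true :=
  ⟨(l 5), by decide +kernel⟩

theorem c_mm_112 : CertF 536870912 536870912 1073741824 536870912 201326592 134217728 false false false .dn 1 1 2
    ndF0q1 ndF3q2 pcF1 Cut.none Ext.none :=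
  certF2 (fam := false) (s1 := false) (s2 := false) (a := 1) (b := 1) (c := 2) (cn := .dn) (n1 := ndF0q1) (n2 := ndF3q2) (pc := pcF1) (cut := Cut.none) (xt := Ext.none) (P1 := 536870912) (W1 := 536870912) (P2 := 1073741824) (W2 := 536870912) (P3 := 201326592) (W3 := 134217728)
    rfl (fun _ => rfl) k0_mm_112

noncomputable def f_mm_113 : ℕ → ℕ → ℕ → ℕ → Bool := onCell 536870912 536870912 0 1230186008 201326592 134217728
    (rowF 0 false false false .nn 1 1 3 (qsf 536870912 536870912 0 1230186008 1) ndF0q1 ndF3q3 pcF1 Cut.none Ext.none)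

def k0_mm_113 : ∃ t, chk3 f_mm_113 t 1 1 1 = true :=
  ⟨(b (l 5) (l 5)), by decide +kernel⟩

theorem c_mm_113 : CertF 536870912 536870912 0 1230186008 201326592 134217728 false false false .nn 1 1 3
    ndF0q1 ndF3q3 pcF1 Cut.none Ext.none :=
  certF0 (fam := false) (s1 := false) (s2 := false) (a := 1) (b := 1) (c := 3) (cn := .nn) (n1 := ndF0q1) (n2 := ndF3q3) (pc := pcF1) (cut := Cut.none) (xt := Ext.none) (P1 := 536870912) (W1 := 536870912) (P2 := 0) (W2 := 1230186008) (P3 := 201326592) (W3 := 134217728)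
    rfl k0_mm_113

noncomputable def f_mm_123 : ℕ → ℕ → ℕ → ℕ → Bool := onCell 536870912 536870912 0 1230186008 201326592 134217728
    (rowF 0 false false false .npn 1 2 3 (qsf 536870912 536870912 0 1230186008 2) ndF0q1 ndF3q3 pcF2 Cut.none Ext.none)

def k0_mm_123 : ∃ t, chk3 f_mm_123 t 1 1 1 = true :=
  ⟨(b (l 5) (l 5)), by decide +kernel⟩

theorem c_mm_123 : CertF 536870912 536870912 0 1230186008 201326592 134217728 false false false .npn 1 2 3
    ndF0q1 ndF3q3 pcF2 Cut.none Ext.none :=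
  certF0 (fam := false) (s1 := false) (s2 := false) (a := 1) (b := 2) (c := 3) (cn := .npn) (n1 := ndF0q1) (n2 := ndF3q3) (pc := pcF2) (cut := Cut.none) (xt := Ext.none) (P1 := 536870912) (W1 := 536870912) (P2 := 0) (W2 := 1230186008) (P3 := 201326592) (W3 := 134217728)
    rfl k0_mm_123

noncomputable def f_mm_133 : ℕ → ℕ → ℕ → ℕ → Bool := onCell 1610612736 536870912 0 1230186008 201326592 134217728
    (rowF 2 false false false .dn 1 3 3 (qsf 536870912 536870912 0 1230186008 3) ndF0q1 ndF3q3 pcF3 Cut.none Ext.none)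

def k0_mm_133 : ∃ t, chk3 f_mm_133 t 1 1 1 = true :=
  ⟨(l 5), by decide +kernel⟩

theorem c_mm_133 : CertF 536870912 536870912 0 1230186008 201326592 134217728 false false false .dn 1 3 3
    ndF0q1 ndF3q3 pcF3 Cut.none Ext.none :=
  certF2 (fam := false) (s1 := false) (s2 := false) (a := 1) (b := 3) (c := 3) (cn := .dn) (n1 := ndF0q1) (n2 := ndF3q3) (pc := pcF3) (cut := Cut.none) (xt := Ext.none) (P1 := 536870912) (W1 := 536870912) (P2 := 0) (W2 := 1230186008) (P3 := 201326592) (W3 := 134217728)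
    rfl (fun _ => rfl) k0_mm_133

noncomputable def f_mm_202 : ℕ → ℕ → ℕ → ℕ → Bool := onCell 0 536870912 1073741824 536870912 201326592 134217728
    (rowF 0 false false false .pp 2 0 2 (qsf 0 536870912 1073741824 536870912 0) ndF0q2 ndF3q2 pcF0 Cut.none Ext.none)

def k0_mm_202 : ∃ t, chk3 f_mm_202 t 1 1 1 = true :=
  ⟨(l 3), by decide +kernel⟩

theorem c_mm_202 : CertF 0 536870912 1073741824 536870912 201326592 134217728 false false false .pp 2 0 2
    ndF0q2 ndF3q2 pcF0 Cut.none Ext.none :=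
  certF0 (fam := false) (s1 := false) (s2 := false) (a := 2) (b := 0) (c := 2) (cn := .pp) (n1 := ndF0q2) (n2 := ndF3q2) (pc := pcF0) (cut := Cut.none) (xt := Ext.none) (P1 := 0) (W1 := 536870912) (P2 := 1073741824) (W2 := 536870912) (P3 := 201326592) (W3 := 134217728)
    rfl k0_mm_202

noncomputable def f_mm_203 : ℕ → ℕ → ℕ → ℕ → Bool := onCell 0 536870912 0 1230186008 201326592 134217728
    (rowF 0 false false false .up 2 0 3 (qsf 0 536870912 0 1230186008 0) ndF0q2 ndF3q3 pcF0 Cut.none Ext.none)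

def k0_mm_203 : ∃ t, chk3 f_mm_203 t 1 1 1 = true :=
  ⟨(b (l 2) (l 3)), by decide +kernel⟩

theorem c_mm_203 : CertF 0 536870912 0 1230186008 201326592 134217728 false false false .up 2 0 3
    ndF0q2 ndF3q3 pcF0 Cut.none Ext.none :=
  certF0 (fam := false) (s1 := false) (s2 := false) (a := 2) (b := 0) (c := 3) (cn := .up) (n1 := ndF0q2) (n2 := ndF3q3) (pc := pcF0) (cut := Cut.none) (xt := Ext.none) (P1 := 0) (W1 := 536870912) (P2 := 0) (W2 := 1230186008) (P3 := 201326592) (W3 := 134217728)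
    rfl k0_mm_203

noncomputable def f_mm_213 : ℕ → ℕ → ℕ → ℕ → Bool := onCell 0 536870912 0 1230186008 201326592 134217728
    (rowF 0 false false false .pnn 2 1 3 (qsf 0 536870912 0 1230186008 1) ndF0q2 ndF3q3 pcF1 Cut.none Ext.none)

def k0_mm_213 : ∃ t, chk3 f_mm_213 t 1 1 1 = true :=
  ⟨(b (a (l 3) (l 5)) (l 3)), by decide +kernel⟩

theorem c_mm_213 : CertF 0 536870912 0 1230186008 201326592 134217728 false false false .pnn 2 1 3
    ndF0q2 ndF3q3 pcF1 Cut.none Ext.none :=
  certF0 (fam := false) (s1 := false) (s2 := false) (a := 2) (b := 1) (c := 3) (cn := .pnn) (n1 := ndF0q2) (n2 := ndF3q3) (pc := pcF1) (cut := Cut.none) (xt := Ext.none) (P1 := 0) (W1 := 536870912) (P2 := 0) (W2 := 1230186008) (P3 := 201326592) (W3 := 134217728)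
    rfl k0_mm_213

end Pool.Agent.Strip051.G.I3_16_5_16.Tab.C.FB03

namespace Pool.Agent.Strip051.G.I3_16_5_16.Tab.C.FB04

open Pool.Agent.Strip051.PB Pool.Agent.Strip051.PB.T
open Pool.Agent.Strip051.G.I3_16_5_16.Tab

noncomputable def f_pp_001 : ℕ → ℕ → ℕ → ℕ → Bool := onCell 0 536870912 0 536870912 201326592 134217728
    (rowF 1 false true true .up 0 0 1 (qsf 0 536870912 536870912 536870912 0) ndF0q0 ndF4q1 pcF0 Cut.none Ext.none)

def k0_pp_001 : ∃ t, chk3 f_pp_001 t 1 1 1 = true :=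
  ⟨(l 3), by decide +kernel⟩

theorem c_pp_001 : CertF 0 536870912 536870912 536870912 201326592 134217728 false true true .up 0 0 1
    ndF0q0 ndF4q1 pcF0 Cut.none Ext.none :=
  certF1 (fam := false) (s1 := true) (s2 := true) (a := 0) (b := 0) (c := 1) (cn := .up) (n1 := ndF0q0) (n2 := ndF4q1) (pc := pcF0) (cut := Cut.none) (xt := Ext.none) (P1 := 0) (W1 := 536870912) (P2 := 536870912) (W2 := 536870912) (P3 := 201326592) (W3 := 134217728)
    rfl (fun _ => rfl) k0_pp_001

noncomputable def cut_pp_011 : Cut := Cut.of [[⟨0, 0, 0, 67108864⟩, ⟨1, 1, 0, 67108864⟩, ⟨2, 1, 0, 67108864⟩]]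

noncomputable def f_pp_011 : ℕ → ℕ → ℕ → ℕ → Bool := onCell 0 536870912 536870912 536870912 201326592 134217728
    (rowF 1 false true true .pnn 0 1 1 (qsf 0 536870912 536870912 536870912 1) ndF0q0 ndF4q1 pcF1 cut_pp_011 Ext.none)

def k0_pp_011 : ∃ t, chk3 f_pp_011 t 1 1 1 = true :=
  ⟨(b (l 3) (a (b (l 3) (a (b (l 3) (a (b (l 3) (a (l 6) (l 3))) (l 3))) (l 3))) (l 3))), by decide +kernel⟩

theorem c_pp_011 : CertF 0 536870912 536870912 536870912 201326592 134217728 false true true .pnn 0 1 1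
    ndF0q0 ndF4q1 pcF1 cut_pp_011 Ext.none :=
  certF1 (fam := false) (s1 := true) (s2 := true) (a := 0) (b := 1) (c := 1) (cn := .pnn) (n1 := ndF0q0) (n2 := ndF4q1) (pc := pcF1) (cut := cut_pp_011) (xt := Ext.none) (P1 := 0) (W1 := 536870912) (P2 := 536870912) (W2 := 536870912) (P3 := 201326592) (W3 := 134217728)
    rfl (fun _ => rfl) k0_pp_011

noncomputable def f_pp_012 : ℕ → ℕ → ℕ → ℕ → Bool := onCell 0 536870912 536870912 536870912 201326592 134217728
    (rowF 1 false true true .pnp 0 1 2 (qsf 0 536870912 1073741824 536870912 1) ndF0q0 ndF4q2 pcF1 Cut.none Ext.none)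

def k0_pp_012 : ∃ t, chk3 f_pp_012 t 1 1 1 = true :=
  ⟨(l 3), by decide +kernel⟩

theorem c_pp_012 : CertF 0 536870912 1073741824 536870912 201326592 134217728 false true true .pnp 0 1 2
    ndF0q0 ndF4q2 pcF1 Cut.none Ext.none :=
  certF1 (fam := false) (s1 := true) (s2 := true) (a := 0) (b := 1) (c := 2) (cn := .pnp) (n1 := ndF0q0) (n2 := ndF4q2) (pc := pcF1) (cut := Cut.none) (xt := Ext.none) (P1 := 0) (W1 := 536870912) (P2 := 1073741824) (W2 := 536870912) (P3 := 201326592) (W3 := 134217728)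
    rfl (fun _ => rfl) k0_pp_012

noncomputable def f_pp_022 : ℕ → ℕ → ℕ → ℕ → Bool := onCell 0 536870912 1073741824 536870912 201326592 134217728
    (rowF 1 false true true .pp 0 2 2 (qsf 0 536870912 1073741824 536870912 2) ndF0q0 ndF4q2 pcF2 Cut.none Ext.none)

def k0_pp_022 : ∃ t, chk3 f_pp_022 t 2 1 1 = true :=
  ⟨(b (b (l 3) (b (b (b (l 3) (b (l 3) (a (b (l 3) (b (b (l 3) (a (a (c (l 16586328) (l 16575728)) (c (l 16532568) (l 16550296))) (l 3))) (a (a (c (l 16582744) (l 16572312)) (c (l 16528880) (l 16546768))) (a (c (l 16640680) (l 16515984)) (c (l 16868936) (l 16479408)))))) (b (l 3) (b (b (a (l 3) (c (l 17146920) (l 16890496))) (a (c (l 16921152) (l 16660368)) (c (l 17149872) (l 16892920)))) (a (c (l 16927416) (l 16666304)) (c (l 17154288) (l 16896560)))))))) (a (a (c (a (a (l 16591392) (l 16554784)) (b (l 16548600) (l 16553136))) (a (a (l 16539224) (l 16527064)) (l 16548392))) (a (c (b (l 16716136) (l 16842304)) (l 16537128)) (c (l 16802080) (l 16504224))))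 (a (c (a (l 17084344) (l 17152880)) (a (l 16653592) (l 16799824))) (c (a (l 17192056) (l 17211912)) (a (l 16900576) (l 16970336)))))) (a (a (b (a (c (l 16526512) (l 16479416)) (c (l 16796312) (l 16449872))) (a (c (l 16821440) (l 16381336)) (c (l 17064160) (l 16327976)))) (a (c (b (l 17013104) (l 17209472)) (l 16478208)) (c (l 17054688) (l 16714496)))) (a (c (b (l 17247432) (l 17360144)) (b (l 16857536) (l 16973936))) (c (l 17337368) (b (l 17019056) (l 17097704))))))) (b (a (a (b (a (c (l 17015224) (l 16452752)) (c (l 17373712) (l 16713808))) (c (l 17647016) (a (l 16940592) (l 17080608)))) (c (b (l 17470560) (l 17683104)) (b (l 16895520) (l 17213040)))) (b (a (c (l 17506680) (l 17130176)) (l 17349736)) (a (l 17482360) (l 17474264)))) (b (a (a (c (l 17864384) (l 17304816)) (l 17617776)) (a (l 17605344) (l 2))) (a (a (c (l 18007336) (l 17504536)) (l 17735432)) (l 2))))), by decide +kernel⟩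

def k1_pp_022 : ∃ t, chk3 f_pp_022 t 3 1 1 = true :=
  ⟨(b (b (l 3) (b (b (b (a (l 3) (a (l 3) (l 2))) (a (b (a (l 3) (c (l 170893503207) (a (l 3) (l 17052944)))) (b (a (c (l 17168672) (l 189146744487)) (c (l 17159408) (l 69424701943))) (b (c (a (l 17174848) (l 17164344)) (a (a (l 16982760) (l 17020256)) (l 17053264))) (c (a (l 17179528) (l 17168176)) (a (l 17006712) (l 17055728)))))) (l 2))) (a (a (c (l 17218568) (a (l 17018264) (l 17050336))) (c (l 17200208) (l 17077152))) (l 2))) (a (a (c (l 17324344) (l 17122504)) (b (l 17190240) (l 2))) (l 2)))) (b (a (b (a (l 17342336) (l 2)) (l 2)) (l 2)) (l 2))), by decide +kernel⟩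

theorem s2_pp_022 : ∃ t, chk3 f_pp_022 t 1 1 1 = true := ex3_a k0_pp_022 k1_pp_022

theorem c_pp_022 : CertF 0 536870912 1073741824 536870912 201326592 134217728 false true true .pp 0 2 2
    ndF0q0 ndF4q2 pcF2 Cut.none Ext.none :=
  certF1 (fam := false) (s1 := true) (s2 := true) (a := 0) (b := 2) (c := 2) (cn := .pp) (n1 := ndF0q0) (n2 := ndF4q2) (pc := pcF2) (cut := Cut.none) (xt := Ext.none) (P1 := 0) (W1 := 536870912) (P2 := 1073741824) (W2 := 536870912) (P3 := 201326592) (W3 := 134217728)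
    rfl (fun _ => rfl) s2_pp_022

noncomputable def f_pp_023 : ℕ → ℕ → ℕ → ℕ → Bool := onCell 1073741824 536870912 0 1230186008 201326592 134217728
    (rowF 2 false true true .up 0 2 3 (qsf 0 536870912 0 1230186008 2) ndF0q0 ndF4q3 pcF2 Cut.none Ext.none)

def k0_pp_023 : ∃ t, chk3 f_pp_023 t 1 2 1 = true :=
  ⟨(a (l 2) (a (l 2) (a (b (l 2) (a (l 17246768) (l 17132656))) (b (l 17285000) (b (l 17207688) (l 17209152)))))), by decide +kernel⟩

def k1_pp_023 : ∃ t, chk3 f_pp_023 t 1 6 1 = true :=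
  ⟨(a (b (l 2) (a (l 2) (a (l 2) (b (l 2) (l 387722615831))))) (a (a (b (l 2) (b (l 17152200) (l 17200688))) (b (l 385038377015) (b (l 17237328) (l 17295408)))) (a (b (a (l 17205744) (l 17240224)) (a (l 17332528) (l 17376200))) (b (l 17297704) (l 17434848))))), by decide +kernel⟩

def k2_pp_023 : ∃ t, chk3 f_pp_023 t 4 7 1 = true :=
  ⟨(b (l 2) (l 3)), by decide +kernel⟩

def k3_pp_023 : ∃ t, chk3 f_pp_023 t 10 7 1 = true :=
  ⟨(a (a (a (b (b (l 2) (b (l 2) (l 3))) (l 3)) (b (b (l 2) (b (l 2) (a (l 200421237095) (l 17064600)))) (b (b (c (l 17140032) (l 16989760)) (l 3)) (l 3)))) (b (b (l 2) (b (l 2) (a (c (l 17128320) (l 16992696)) (a (l 17058736) (a (l 17063968) (l 17067640)))))) (a (a (b (b (l 17062160) (l 17078544)) (b (c (l 17212224) (l 17003344)) (l 3))) (b (b (l 17067520) (l 17084560)) (b (c (l 17220512) (l 17008616)) (c (b (l 17246976) (c (l 17341600) (l 17192864))) (b (l 17008952) (b (l 17008432) (c (l 17064488) (l 66203197495)))))))) (a (b (b (l 17073776) (l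 17112304)) (b (c (l 17228848) (l 17014136)) (c (b (l 17255632) (c (l 17350792) (a (l 17199296) (l 17203712)))) (b (l 17014808) (c (a (l 17068864) (l 17072592)) (a (l 16963904) (l 16966520))))))) (b (a (b (l 17079376) (l 17118264)) (b (l 17083312) (l 17101480))) (a (b (c (l 17235824) (l 17018960)) (c (b (l 17262648) (a (l 17280152) (l 17282560))) (b (l 17019760) (a (b (l 17018720) (l 17018416)) (l 17020352))))) (b (c (l 17240656) (l 17022344)) (c (b (l 17267464) (l 17286168)) (b (l 17023224) (l 17022984)))))))))) (b (b (c (l 17128680) (l 17074408)) (c (l 17171528) (l 32313650231))) (b (c (b (l 17212720) (l 17245528)) (b (l 17039456) (l 17046304))) (b (c (l 17280720) (l 17051072)) (c (b (l 17307736) (a (l 17244712) (l 17345032))) (b (a (l 17038784) (l 17066760)) (a (c (l 17098520) (l 16985528)) (l 17067400)))))))), by decide +kernel⟩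

def k4_pp_023 : ∃ t, chk3 f_pp_023 t 11 7 1 = true :=
  ⟨(b (b (a (l 17179896) (l 17170464)) (a (c (l 17239744) (l 17078384)) (l 17215168))) (b (c (a (l 17301336) (l 17372904)) (b (l 17119472) (l 17128824))) (c (a (b (l 17353632) (l 17390080)) (l 17441464)) (b (a (l 17106784) (l 17162960)) (a (b (l 17109432) (l 17110632)) (l 17167584)))))), by decide +kernel⟩

def k5_pp_023 : ∃ t, chk3 f_pp_023 t 3 7 1 = true :=
  ⟨(b (a (a (b (l 17292688) (c (l 17404192) (l 17209568))) (b (l 17356472) (l 17415688))) (a (b (l 17449368) (l 17513096)) (c (l 17672016) (l 17459936)))) (a (a (b (c (l 17471576) (l 17235080)) (c (b (l 17521328) (l 17559088)) (b (l 17246896) (a (l 17224504) (l 17280680))))) (b (c (l 17590864) (l 17340408)) (c (l 17662360) (b (l 17355176) (l 17362960))))) (b (c (l 17746856) (a (l 17439120) (l 17530736))) (c (a (l 17774224) (l 17879432)) (a (l 17463680) (l 17565288)))))), by decide +kernel⟩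

theorem s6_pp_023 : ∃ t, chk3 f_pp_023 t 5 7 1 = true := ex3_a k3_pp_023 k4_pp_023

theorem s7_pp_023 : ∃ t, chk3 f_pp_023 t 2 7 1 = true := ex3_a k2_pp_023 s6_pp_023

theorem s8_pp_023 : ∃ t, chk3 f_pp_023 t 1 7 1 = true := ex3_a s7_pp_023 k5_pp_023

theorem s9_pp_023 : ∃ t, chk3 f_pp_023 t 1 3 1 = true := ex3_b k1_pp_023 s8_pp_023

theorem s10_pp_023 : ∃ t, chk3 f_pp_023 t 1 1 1 = true := ex3_b k0_pp_023 s9_pp_023

theorem c_pp_023 : CertF 0 536870912 0 1230186008 201326592 134217728 false true true .up 0 2 3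
    ndF0q0 ndF4q3 pcF2 Cut.none Ext.none :=
  certF2 (fam := false) (s1 := true) (s2 := true) (a := 0) (b := 2) (c := 3) (cn := .up) (n1 := ndF0q0) (n2 := ndF4q3) (pc := pcF2) (cut := Cut.none) (xt := Ext.none) (P1 := 0) (W1 := 536870912) (P2 := 0) (W2 := 1230186008) (P3 := 201326592) (W3 := 134217728)
    rfl (fun _ => rfl) s10_pp_023

noncomputable def f_pp_033 : ℕ → ℕ → ℕ → ℕ → Bool := onCell 1610612736 536870912 0 1230186008 201326592 134217728
    (rowF 2 false true true .pnn 0 3 3 (qsf 0 536870912 0 1230186008 3) ndF0q0 ndF4q3 pcF3 Cut.none Ext.none)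

def k0_pp_033 : ∃ t, chk3 f_pp_033 t 1 1 1 = true :=
  ⟨(a (b (a (b (a (l 17257712) (b (l 17222048) (l 17166560))) (b (a (l 17054968) (l 17174384)) (a (l 17104328) (l 17209800)))) (b (a (l 17286144) (l 17326456)) (a (b (l 17269360) (l 17306672)) (b (l 17353896) (l 17387256))))) (b (a (b (a (l 17228576) (l 17299056)) (a (b (l 17384312) (l 17500424)) (l 17534176))) (b (a (l 17419272) (l 17462008)) (a (b (l 17475560) (l 17593256)) (b (l 17546576) (l 17641448))))) (a (b (b (a (l 17590000) (l 17675632)) (c (l 17811728) (l 17586848))) (b (c (l 17889144) (l 17650448)) (c (l 17994368) (a (l 17675728) (l 17783576))))) (a (b (b (l 17732360) (l 17852000)) (b (l 17937680) (l 1))) (b (b (l 17777544) (l 1)) (l 1)))))) (a (b (a (b (l 17372144) (c (l 17430680) (l 17353128))) (b (l 4) (l 17471352))) (b (a (b (l 17536920) (a (l 212636859639) (l 17693904))) (b (l 17675136) (b (l 17704368) (l 1)))) (l 1))) (b (a (b (l 4) (l 17540088)) (l 4)) (a (b (b (l 17661704) (l 1)) (l 1)) (l 1))))),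 by decide +kernel⟩

theorem c_pp_033 : CertF 0 536870912 0 1230186008 201326592 134217728 false true true .pnn 0 3 3
    ndF0q0 ndF4q3 pcF3 Cut.none Ext.none :=
  certF2 (fam := false) (s1 := true) (s2 := true) (a := 0) (b := 3) (c := 3) (cn := .pnn) (n1 := ndF0q0) (n2 := ndF4q3) (pc := pcF3) (cut := Cut.none) (xt := Ext.none) (P1 := 0) (W1 := 536870912) (P2 := 0) (W2 := 1230186008) (P3 := 201326592) (W3 := 134217728)
    rfl (fun _ => rfl) k0_pp_033

noncomputable def f_pp_101 : ℕ → ℕ → ℕ → ℕ → Bool := onCell 536870912 536870912 536870912 536870912 201326592 134217728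
    (rowF 0 false true true .npn 1 0 1 (qsf 536870912 536870912 536870912 536870912 0) ndF0q1 ndF4q1 pcF0 Cut.none Ext.none)

def k0_pp_101 : ∃ t, chk3 f_pp_101 t 1 1 1 = true :=
  ⟨(a (l 3) (l 5)), by decide +kernel⟩

theorem c_pp_101 : CertF 536870912 536870912 536870912 536870912 201326592 134217728 false true true .npn 1 0 1
    ndF0q1 ndF4q1 pcF0 Cut.none Ext.none :=
  certF0 (fam := false) (s1 := true) (s2 := true) (a := 1) (b := 0) (c := 1) (cn := .npn) (n1 := ndF0q1) (n2 := ndF4q1) (pc := pcF0) (cut := Cut.none) (xt := Ext.none) (P1 := 536870912) (W1 := 536870912) (P2 := 536870912) (W2 := 536870912) (P3 := 201326592) (W3 := 134217728)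
    rfl k0_pp_101

noncomputable def f_pp_102 : ℕ → ℕ → ℕ → ℕ → Bool := onCell 536870912 536870912 1073741824 536870912 201326592 134217728
    (rowF 0 false true true .npp 1 0 2 (qsf 536870912 536870912 1073741824 536870912 0) ndF0q1 ndF4q2 pcF0 Cut.none Ext.none)

def k0_pp_102 : ∃ t, chk3 f_pp_102 t 1 1 1 = true :=
  ⟨(l 3), by decide +kernel⟩

theorem c_pp_102 : CertF 536870912 536870912 1073741824 536870912 201326592 134217728 false true true .npp 1 0 2
    ndF0q1 ndF4q2 pcF0 Cut.none Ext.none :=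
  certF0 (fam := false) (s1 := true) (s2 := true) (a := 1) (b := 0) (c := 2) (cn := .npp) (n1 := ndF0q1) (n2 := ndF4q2) (pc := pcF0) (cut := Cut.none) (xt := Ext.none) (P1 := 536870912) (W1 := 536870912) (P2 := 1073741824) (W2 := 536870912) (P3 := 201326592) (W3 := 134217728)
    rfl k0_pp_102

noncomputable def f_pp_112 : ℕ → ℕ → ℕ → ℕ → Bool := onCell 536870912 536870912 1073741824 536870912 201326592 134217728
    (rowF 0 false true true .dn 1 1 2 (qsf 536870912 536870912 1073741824 536870912 1) ndF0q1 ndF4q2 pcF1 Cut.none Ext.none)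

def k0_pp_112 : ∃ t, chk3 f_pp_112 t 1 1 1 = true :=
  ⟨(l 3), by decide +kernel⟩

theorem c_pp_112 : CertF 536870912 536870912 1073741824 536870912 201326592 134217728 false true true .dn 1 1 2
    ndF0q1 ndF4q2 pcF1 Cut.none Ext.none :=
  certF0 (fam := false) (s1 := true) (s2 := true) (a := 1) (b := 1) (c := 2) (cn := .dn) (n1 := ndF0q1) (n2 := ndF4q2) (pc := pcF1) (cut := Cut.none) (xt := Ext.none) (P1 := 536870912) (W1 := 536870912) (P2 := 1073741824) (W2 := 536870912) (P3 := 201326592) (W3 := 134217728)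
    rfl k0_pp_112

noncomputable def cut_pp_113 : Cut := Cut.of [[⟨0, 1, 0, 57167902⟩, ⟨1, 1, 0, 57167902⟩, ⟨2, 2, 0, 11758673⟩]]

noncomputable def f_pp_113 : ℕ → ℕ → ℕ → ℕ → Bool := onCell 536870912 536870912 0 1230186008 201326592 134217728
    (rowF 2 false true true .nn 1 1 3 (qsf 536870912 536870912 0 1230186008 1) ndF0q1 ndF4q3 pcF1 cut_pp_113 Ext.none)

def k0_pp_113 : ∃ t, chk3 f_pp_113 t 1 1 1 = true :=
  ⟨(b (a (l 2) (a (l 2) (b (a (l 2) (a (l 2) (b (l 6) (l 3)))) (l 3)))) (a (b (b (l 2) (l 3)) (a (b (l 2) (l 3)) (l 3))) (b (l 3) (l 3)))), by decide +kernel⟩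

theorem c_pp_113 : CertF 536870912 536870912 0 1230186008 201326592 134217728 false true true .nn 1 1 3
    ndF0q1 ndF4q3 pcF1 cut_pp_113 Ext.none :=
  certF2 (fam := false) (s1 := true) (s2 := true) (a := 1) (b := 1) (c := 3) (cn := .nn) (n1 := ndF0q1) (n2 := ndF4q3) (pc := pcF1) (cut := cut_pp_113) (xt := Ext.none) (P1 := 536870912) (W1 := 536870912) (P2 := 0) (W2 := 1230186008) (P3 := 201326592) (W3 := 134217728)
    rfl (fun _ => rfl) k0_pp_113

noncomputable def cut_pp_123 : Cut := Cut.of [[⟨0, 1, 0, 57167902⟩, ⟨1, 1, 0, 57167902⟩, ⟨2, 2, 0, 11758673⟩]]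

noncomputable def f_pp_123 : ℕ → ℕ → ℕ → ℕ → Bool := onCell 1073741824 536870912 0 1230186008 201326592 134217728
    (rowF 2 false true true .npn 1 2 3 (qsf 536870912 536870912 0 1230186008 2) ndF0q1 ndF4q3 pcF2 cut_pp_123 Ext.none)

def k0_pp_123 : ∃ t, chk3 f_pp_123 t 2 8 1 = true :=
  ⟨(a (a (a (l 6) (a (a (l 6) (l 16864120)) (l 16811592))) (a (l 16831008) (a (l 16858944) (l 16878544)))) (a (a (a (l 16898288) (l 16936160)) (l 16930032)) (l 16965952))), by decide +kernel⟩

def k1_pp_123 : ∃ t, chk3 f_pp_123 t 4 18 1 = true :=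
  ⟨(a (a (b (l 6) (l 3)) (a (a (b (l 6) (a (b (a (a (l 3) (b (b (c (l 244444059959) (l 235854121575)) (l 3)) (l 3))) (b (c (l 241222837255) (c (l 241759704711) (a (b (l 244980927879) (l 235854122055)) (l 247128412567)))) (a (l 3) (b (c (l 246591547159) (a (l 234780382039) (l 238538479367))) (l 3))))) (l 3)) (a (b (b (l 16790168) (c (l 241759711415) (c (l 242833449191) (a (l 241222833655) (l 16788752))))) (b (c (l 246591548823) (c (l 240149094023) (a (l 231022285575) (b (l 242296576727) (l 233169770903))))) (l 3))) (b (l 16791424) (c (l 238001617927) (c (l 238538484279) (a (b (l 243370319655) (l 233706642887)) (b (l 16789856) (l 238001611735))))))))) (b (l 16837912) (a (b (l 16793264) (c (l 16795448) (a (b (l 16791264) (c (l 16792264) (l 16790768))) (l 16792392)))) (l 16795584)))) (a (b (l 16797840) (l 16798992)) (l 16802944)))) (a (l 16903648) (a (l 16839512) (l 16856960)))), by decide +kernel⟩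

def k2_pp_123 : ∃ t, chk3 f_pp_123 t 4 19 1 = true :=
  ⟨(a (a (l 3) (a (a (b (a (l 3) (b (l 3) (l 3))) (l 3)) (b (a (b (c (a (l 246591555575) (l 238001624999)) (a (a (b (a (l 235317259271) (l 234243518327)) (l 3)) (b (l 240149096711) (l 233706645415))) (b (l 16792736) (c (l 236927877495) (l 237464745111))))) (a (l 3) (a (l 3) (b (c (l 243907206247) (l 236927873911)) (l 3))))) (b (l 16796456) (c (l 234243533847) (a (c (l 232632912999) (b (l 239075360391) (l 235317264087))) (b (l 16795304) (l 16795640)))))) (a (l 3) (b (a (l 3) (c (l 242296599847) (b (c (l 240149109127) (l 237464750535)) (l 229948554135)))) (l 3))))) (a (b (a (l 16799232) (l 16801464)) (a (b (c (l 234243538295) (a (b (l 16796992) (l 232096046327)) (l 16798184))) (c (l 242296605847) (a (b (l 232096046343) (l 3)) (b (l 233706662039) (l 234243533287))))) (b (l 16802664) (c (l 16807080) (a (l 16800032) (l 16801040)))))) (b (l 16805416) (a (l 16805624) (l 16808088)))))) (a (a (a (l 16832792) (l 16820264))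 (l 16822744)) (a (l 16833392) (l 16847592)))), by decide +kernel⟩

def k3_pp_123 : ∃ t, chk3 f_pp_123 t 5 9 1 = true :=
  ⟨(a (a (a (l 16870208) (l 16908744)) (l 16907704)) (l 16947824)), by decide +kernel⟩

def k4_pp_123 : ∃ t, chk3 f_pp_123 t 3 4 1 = true :=
  ⟨(a (a (a (l 16998680) (l 17021752)) (a (l 17046272) (l 17072424))) (a (l 17159080) (l 17285208))), by decide +kernel⟩

def k5_pp_123 : ∃ t, chk3 f_pp_123 t 2 10 1 = true :=
  ⟨(a (b (a (a (l 3) (a (l 3) (a (b (a (a (l 3) (a (l 3) (b (c (l 233169804055) (l 225653593991)) (l 3)))) (b (c (l 225653616647) (a (b (l 225653601975) (l 227264214791)) (l 229948572039))) (c (l 236391035319) (a (l 3) (b (l 229411702023) (l 3)))))) (l 3)) (b (a (b (l 16807088) (c (l 226190496903) (a (l 223506125095) (l 16805144)))) (l 16810264)) (a (b (c (l 233706691255) (a (b (l 222432383911) (l 3)) (l 217063678295))) (l 3)) (c (l 221895540343) (a (b (l 227264225367) (l 225116746279)) (b (l 16808472) (l 219748040247))))))))) (a (a (a (b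 (l 16814760) (a (c (l 16821512) (l 16810880)) (l 16818704))) (b (l 16820816) (l 16823568))) (a (l 16828048) (l 16832072))) (a (l 16836528) (l 16846128)))) (a (a (l 3) (a (l 3) (a (l 3) (b (a (l 3) (b (c (l 226727381831) (a (l 3) (l 219748041639))) (l 3))) (l 3))))) (a (a (c (a (b (a (l 215453103143) (l 16828856)) (a (l 3) (l 224043052983))) (b (l 16834016) (l 219748090135))) (a (b (a (b (l 215989949911) (a (b (l 241222882663) (l 3)) (l 222432404647))) (b (l 16815280) (l 218674304887))) (a (l 3) (b (l 221358669447) (a (l 3) (l 211694996935))))) (b (l 16819888) (a (b (l 16820800) (l 206326292679)) (l 16824224))))) (a (b (l 16833136) (l 16836352)) (l 16840800))) (a (l 16891152) (l 16856408))))) (a (a (a (l 16863048) (l 17073240)) (l 16900128)) (l 17181912))), by decide +kernel⟩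

def k6_pp_123 : ∃ t, chk3 f_pp_123 t 2 11 1 = true :=
  ⟨(a (a (l 3) (a (a (b (a (l 3) (b (c (a (l 217600618791) (l 212768790055)) (a (b (a (l 3) (l 215453102727)) (l 3)) (b (l 16826808) (l 214379368487)))) (a (l 3) (c (l 210084444407) (b (a (l 3) (l 204715696903)) (l 3)))))) (l 3)) (c (b (a (b (l 16851128) (l 212768812743)) (l 16861760)) (a (b (l 207936986023) (l 3)) (b (l 211695085703) (l 204178912551)))) (b (a (b (l 16831712) (a (b (l 205789429847) (l 205789447111)) (l 16837152))) (b (l 16837528) (l 16841368))) (a (b (a (l 3) (b (l 204178828359) (l 196662656247))) (l 3)) (b (a (l 207400067175) (l 16847504)) (a (b (l 196662660183) (l 188072737991)) (l 202031378839))))))) (b (a (a (b (l 16854480) (l 16859024)) (l 16863712)) (l 16893512)) (b (a (a (l 16864440) (l 16872416)) (l 16883840)) (a (a (c (l 16888112) (l 16857392)) (l 16878640)) (l 16890904)))))) (a (a (a (b (l 16879416) (l 16962624)) (a (l 16936760) (b (l 16892904) (l 16906736)))) (b (l 16908048) (l 16925608)))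 (a (l 17018480) (l 16993568)))), by decide +kernel⟩

def k7_pp_123 : ∃ t, chk3 f_pp_123 t 3 5 1 = true :=
  ⟨(a (a (b (l 17005104) (l 17211448)) (b (l 17020112) (a (l 17072856) (l 17073456)))) (a (a (l 17267744) (l 17174856)) (b (l 17208072) (l 17210568)))), by decide +kernel⟩

def k8_pp_123 : ∃ t, chk3 f_pp_123 t 2 12 1 = true :=
  ⟨(a (a (l 3) (a (b (b (a (l 3) (a (l 3) (c (l 207400143143) (a (l 3) (b (l 190220234567) (l 3)))))) (l 3)) (l 3)) (a (b (a (c (b (a (l 198273354439) (l 16899784)) (b (l 193441555991) (l 187535986039))) (b (a (l 197199577815) (l 16865136)) (b (l 188609644327) (a (l 3) (l 186462183799))))) (b (c (l 16906320) (l 16870024)) (c (b (l 16914352) (l 16920208)) (a (l 16875184) (l 16878512))))) (c (b (b (a (l 217600767527) (l 190220358007)) (a (l 3) (a (l 183241059431) (l 16935720)))) (a (l 3) (b (a (l 206326521383) (l 189683539911)) (c (l 205789707463) (l 196125961463))))) (a (b (c (l 195052126807) (a (l 3) (l 179482847191))) (l 3)) (b (b (l 188072813335)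 (a (l 177335387799) (l 16888240))) (a (b (l 178409137207) (l 3)) (b (l 185388493927) (l 180019766855))))))) (b (b (a (l 16894344) (l 16903592)) (a (l 16902592) (l 16911760))) (a (b (c (l 16939608) (l 16891432)) (a (c (b (l 16948112) (c (l 16975232) (l 16939064))) (b (l 16896088) (l 16900728))) (c (l 16957344) (l 16902064)))) (b (l 16921576) (c (l 16965352) (l 16907784)))))))) (a (b (a (a (c (l 17008752) (l 17024680)) (a (l 16928752) (l 16929688))) (l 16949504)) (a (a (a (b (l 16931648) (l 16942656)) (b (l 16942224) (l 16953280))) (a (b (l 16950448) (l 16963232)) (c (l 16993824) (l 16927880)))) (l 16977088))) (a (l 17254376) (l 17167520)))), by decide +kernel⟩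

def k9_pp_123 : ∃ t, chk3 f_pp_123 t 2 13 1 = true :=
  ⟨(a (a (l 3) (a (l 3) (b (a (l 3) (c (a (b (c (b (l 196126075463) (l 193978610471)) (b (l 190757288279) (l 188072947335))) (b (c (l 191294274343) (l 184314864327)) (c (l 188609937735) (l 181093651799)))) (b (l 16981528) (a (b (l 16991264) (l 16999440)) (l 17000440)))) (b (a (a (b (l 184314787655) (l 172503600135)) (b (l 16909056) (l 16913784))) (l 16916928)) (a (a (l 3) (b (l 184851697415) (l 172503626055))) (b (l 16923840) (l 131164633431)))))) (a (l 3) (a (l 3) (c (a (b (b (l 196662977207) (l 190757408039)) (l 3)) (b (b (l 17012312) (l 17019936)) (l 197736736887))) (b (a (b (l 186999219543) (l 180556777991)) (l 16957760)) (a (l 3) (l 189146748311))))))))) (a (a (a (b (a (b (l 16959320) (c (l 17008040) (l 16933664))) (b (l 16964208) (l 16975064))) (c (a (b (l 17023224) (l 17038208)) (b (l 17032960) (l 17047720))) (a (b (l 16942104) (l 16950184)) (b (l 16949736) (l 16957536))))) (a (b (b (l 16974856) (l 16985016))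 (c (l 17050776) (l 16961912))) (b (a (l 16986816) (a (l 16987728) (l 16986120))) (a (l 17008136) (a (l 17011928) (l 17013600)))))) (b (c (l 17053120) (l 16966768)) (c (l 17091024) (l 16991104)))) (b (a (l 17047232) (l 17089280)) (a (l 17081008) (l 17126520))))), by decide +kernel⟩

def k10_pp_123 : ∃ t, chk3 f_pp_123 t 3 6 1 = true :=
  ⟨(a (a (b (b (l 17080488) (l 17177008)) (b (l 17152304) (l 17285160))) (b (a (l 17148856) (l 17175024)) (b (l 17259168) (l 1)))) (a (b (a (l 17206440) (l 1)) (l 1)) (l 1))), by decide +kernel⟩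

def k11_pp_123 : ∃ t, chk3 f_pp_123 t 1 7 1 = true :=
  ⟨(a (a (b (a (l 3) (a (l 3) (b (l 3) (l 3)))) (l 3)) (a (b (a (a (b (c (a (b (l 207400450791) (l 202031770439)) (b (l 17063568) (l 17080472))) (a (b (l 16978960) (l 17007104)) (b (l 16965320) (l 16972800)))) (b (a (c (l 17076168) (l 16992344)) (c (l 17098432) (l 16979552))) (a (l 3) (c (l 17117560) (l 16985128))))) (a (b (c (l 17081496) (l 16997560)) (c (b (l 17107896) (l 17128344)) (b (l 16986664) (l 16992712)))) (b (a (c (l 17090248) (l 16983208)) (a (c (l 17095640) (l 16987184)) (l 17037344))) (a (b (l 17046176) (l 17058760)) (a (c (l 17132840) (l 17000536)) (b (l 17054576) (l 17067664))))))) (b (b (l 17058064) (l 17070640)) (b (l 17126160) (a (l 17084208) (l 1))))) (a (a (a (l 3) (a (l 3) (l 1))) (l 1)) (l 1))) (b (b (a (c (l 17188040) (l 17056368)) (l 17170768)) (l 1)) (l 1)))) (l 1)), by decide +kernel⟩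

theorem s12_pp_123 : ∃ t, chk3 f_pp_123 t 2 6 1 = true := ex3_b k8_pp_123 k9_pp_123

theorem s13_pp_123 : ∃ t, chk3 f_pp_123 t 1 6 1 = true := ex3_a s12_pp_123 k10_pp_123

theorem s14_pp_123 : ∃ t, chk3 f_pp_123 t 1 3 1 = true := ex3_b s13_pp_123 k11_pp_123

theorem s15_pp_123 : ∃ t, chk3 f_pp_123 t 2 5 1 = true := ex3_b k5_pp_123 k6_pp_123

theorem s16_pp_123 : ∃ t, chk3 f_pp_123 t 1 5 1 = true := ex3_a s15_pp_123 k7_pp_123

theorem s17_pp_123 : ∃ t, chk3 f_pp_123 t 4 9 1 = true := ex3_b k1_pp_123 k2_pp_123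

theorem s18_pp_123 : ∃ t, chk3 f_pp_123 t 2 9 1 = true := ex3_a s17_pp_123 k3_pp_123

theorem s19_pp_123 : ∃ t, chk3 f_pp_123 t 2 4 1 = true := ex3_b k0_pp_123 s18_pp_123

theorem s20_pp_123 : ∃ t, chk3 f_pp_123 t 1 4 1 = true := ex3_a s19_pp_123 k4_pp_123

theorem s21_pp_123 : ∃ t, chk3 f_pp_123 t 1 2 1 = true := ex3_b s20_pp_123 s16_pp_123

theorem s22_pp_123 : ∃ t, chk3 f_pp_123 t 1 1 1 = true := ex3_b s21_pp_123 s14_pp_123

theorem c_pp_123 : CertF 536870912 536870912 0 1230186008 201326592 134217728 false true true .npn 1 2 3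
    ndF0q1 ndF4q3 pcF2 cut_pp_123 Ext.none :=
  certF2 (fam := false) (s1 := true) (s2 := true) (a := 1) (b := 2) (c := 3) (cn := .npn) (n1 := ndF0q1) (n2 := ndF4q3) (pc := pcF2) (cut := cut_pp_123) (xt := Ext.none) (P1 := 536870912) (W1 := 536870912) (P2 := 0) (W2 := 1230186008) (P3 := 201326592) (W3 := 134217728)
    rfl (fun _ => rfl) s22_pp_123

noncomputable def f_pp_133 : ℕ → ℕ → ℕ → ℕ → Bool := onCell 1610612736 536870912 0 1230186008 201326592 134217728
    (rowF 2 false true true .dn 1 3 3 (qsf 536870912 536870912 0 1230186008 3) ndF0q1 ndF4q3 pcF3 Cut.none Ext.none)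

def k0_pp_133 : ∃ t, chk3 f_pp_133 t 1 1 1 = true :=
  ⟨(b (b (a (a (a (l 17258392) (l 1)) (l 1)) (l 1)) (l 1)) (l 1)), by decide +kernel⟩

theorem c_pp_133 : CertF 536870912 536870912 0 1230186008 201326592 134217728 false true true .dn 1 3 3
    ndF0q1 ndF4q3 pcF3 Cut.none Ext.none :=
  certF2 (fam := false) (s1 := true) (s2 := true) (a := 1) (b := 3) (c := 3) (cn := .dn) (n1 := ndF0q1) (n2 := ndF4q3) (pc := pcF3) (cut := Cut.none) (xt := Ext.none) (P1 := 536870912) (W1 := 536870912) (P2 := 0) (W2 := 1230186008) (P3 := 201326592) (W3 := 134217728)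
    rfl (fun _ => rfl) k0_pp_133

noncomputable def f_pp_202 : ℕ → ℕ → ℕ → ℕ → Bool := onCell 0 536870912 1073741824 536870912 201326592 134217728
    (rowF 0 false true true .pp 2 0 2 (qsf 0 536870912 1073741824 536870912 0) ndF0q2 ndF4q2 pcF0 Cut.none Ext.none)

def k0_pp_202 : ∃ t, chk3 f_pp_202 t 1 1 1 = true :=
  ⟨(l 5), by decide +kernel⟩

theorem c_pp_202 : CertF 0 536870912 1073741824 536870912 201326592 134217728 false true true .pp 2 0 2
    ndF0q2 ndF4q2 pcF0 Cut.none Ext.none :=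
  certF0 (fam := false) (s1 := true) (s2 := true) (a := 2) (b := 0) (c := 2) (cn := .pp) (n1 := ndF0q2) (n2 := ndF4q2) (pc := pcF0) (cut := Cut.none) (xt := Ext.none) (P1 := 0) (W1 := 536870912) (P2 := 1073741824) (W2 := 536870912) (P3 := 201326592) (W3 := 134217728)
    rfl k0_pp_202

noncomputable def f_pp_203 : ℕ → ℕ → ℕ → ℕ → Bool := onCell 0 536870912 0 1230186008 201326592 134217728
    (rowF 0 false true true .up 2 0 3 (qsf 0 536870912 0 1230186008 0) ndF0q2 ndF4q3 pcF0 Cut.none Ext.none)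

def k0_pp_203 : ∃ t, chk3 f_pp_203 t 1 1 1 = true :=
  ⟨(b (l 2) (b (l 2) (l 3))), by decide +kernel⟩

theorem c_pp_203 : CertF 0 536870912 0 1230186008 201326592 134217728 false true true .up 2 0 3
    ndF0q2 ndF4q3 pcF0 Cut.none Ext.none :=
  certF0 (fam := false) (s1 := true) (s2 := true) (a := 2) (b := 0) (c := 3) (cn := .up) (n1 := ndF0q2) (n2 := ndF4q3) (pc := pcF0) (cut := Cut.none) (xt := Ext.none) (P1 := 0) (W1 := 536870912) (P2 := 0) (W2 := 1230186008) (P3 := 201326592) (W3 := 134217728)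
    rfl k0_pp_203

noncomputable def cut_pp_213 : Cut := Cut.of [[⟨0, 1, 0, 57167902⟩, ⟨1, 1, 0, 57167902⟩, ⟨2, 2, 0, 11758673⟩]]

noncomputable def f_pp_213 : ℕ → ℕ → ℕ → ℕ → Bool := onCell 0 536870912 0 1230186008 201326592 134217728
    (rowF 0 false true true .pnn 2 1 3 (qsf 0 536870912 0 1230186008 1) ndF0q2 ndF4q3 pcF1 cut_pp_213 Ext.none)

def k0_pp_213 : ∃ t, chk3 f_pp_213 t 1 1 1 = true :=
  ⟨(b (a (l 3) (b (a (l 3) (a (l 3) (b (l 6) (l 3)))) (l 3))) (b (l 3) (l 3))), by decide +kernel⟩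

theorem c_pp_213 : CertF 0 536870912 0 1230186008 201326592 134217728 false true true .pnn 2 1 3
    ndF0q2 ndF4q3 pcF1 cut_pp_213 Ext.none :=
  certF0 (fam := false) (s1 := true) (s2 := true) (a := 2) (b := 1) (c := 3) (cn := .pnn) (n1 := ndF0q2) (n2 := ndF4q3) (pc := pcF1) (cut := cut_pp_213) (xt := Ext.none) (P1 := 0) (W1 := 536870912) (P2 := 0) (W2 := 1230186008) (P3 := 201326592) (W3 := 134217728)
    rfl k0_pp_213

noncomputable def f_pm_001 : ℕ → ℕ → ℕ → ℕ → Bool := onCell 0 536870912 536870912 536870912 201326592 134217728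
    (rowF 0 false true false .up 0 0 1 (qsf 0 536870912 536870912 536870912 0) ndF0q0 ndF4q1 pcF0 Cut.none Ext.none)

def k0_pm_001 : ∃ t, chk3 f_pm_001 t 1 1 1 = true :=
  ⟨(l 4), by decide +kernel⟩

theorem c_pm_001 : CertF 0 536870912 536870912 536870912 201326592 134217728 false true false .up 0 0 1
    ndF0q0 ndF4q1 pcF0 Cut.none Ext.none :=
  certF0 (fam := false) (s1 := true) (s2 := false) (a := 0) (b := 0) (c := 1) (cn := .up) (n1 := ndF0q0) (n2 := ndF4q1) (pc := pcF0) (cut := Cut.none) (xt := Ext.none) (P1 := 0) (W1 := 536870912) (P2 := 536870912) (W2 := 536870912) (P3 := 201326592) (W3 := 134217728)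
    rfl k0_pm_001

noncomputable def f_pm_011 : ℕ → ℕ → ℕ → ℕ → Bool := onCell 0 536870912 536870912 536870912 201326592 134217728
    (rowF 0 false true false .pnn 0 1 1 (qsf 0 536870912 536870912 536870912 1) ndF0q0 ndF4q1 pcF1 Cut.none Ext.none)

def k0_pm_011 : ∃ t, chk3 f_pm_011 t 1 1 1 = true :=
  ⟨(l 4), by decide +kernel⟩

theorem c_pm_011 : CertF 0 536870912 536870912 536870912 201326592 134217728 false true false .pnn 0 1 1
    ndF0q0 ndF4q1 pcF1 Cut.none Ext.none :=
  certF0 (fam := false) (s1 := true) (s2 := false) (a := 0) (b := 1) (c := 1) (cn := .pnn) (n1 := ndF0q0) (n2 := ndF4q1) (pc := pcF1) (cut := Cut.none) (xt := Ext.none) (P1 := 0) (W1 := 536870912) (P2 := 536870912) (W2 := 536870912) (P3 := 201326592) (W3 := 134217728)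
    rfl k0_pm_011

noncomputable def f_pm_012 : ℕ → ℕ → ℕ → ℕ → Bool := onCell 0 536870912 1073741824 536870912 201326592 134217728
    (rowF 0 false true false .pnp 0 1 2 (qsf 0 536870912 1073741824 536870912 1) ndF0q0 ndF4q2 pcF1 Cut.none Ext.none)

def k0_pm_012 : ∃ t, chk3 f_pm_012 t 1 1 1 = true :=
  ⟨(l 4), by decide +kernel⟩

theorem c_pm_012 : CertF 0 536870912 1073741824 536870912 201326592 134217728 false true false .pnp 0 1 2
    ndF0q0 ndF4q2 pcF1 Cut.none Ext.none :=
  certF0 (fam := false) (s1 := true) (s2 := false) (a := 0) (b := 1) (c := 2) (cn := .pnp) (n1 := ndF0q0) (n2 := ndF4q2) (pc := pcF1) (cut := Cut.none) (xt := Ext.none) (P1 := 0) (W1 := 536870912) (P2 := 1073741824) (W2 := 536870912) (P3 := 201326592) (W3 := 134217728)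
    rfl k0_pm_012

noncomputable def f_pm_022 : ℕ → ℕ → ℕ → ℕ → Bool := onCell 0 536870912 1073741824 536870912 201326592 134217728
    (rowF 0 false true false .pp 0 2 2 (qsf 0 536870912 1073741824 536870912 2) ndF0q0 ndF4q2 pcF2 Cut.none Ext.none)

def k0_pm_022 : ∃ t, chk3 f_pm_022 t 1 1 1 = true :=
  ⟨(l 4), by decide +kernel⟩

theorem c_pm_022 : CertF 0 536870912 1073741824 536870912 201326592 134217728 false true false .pp 0 2 2
    ndF0q0 ndF4q2 pcF2 Cut.none Ext.none :=
  certF0 (fam := false) (s1 := true) (s2 := false) (a := 0) (b := 2) (c := 2) (cn := .pp) (n1 := ndF0q0) (n2 := ndF4q2) (pc := pcF2) (cut := Cut.none) (xt := Ext.none) (P1 := 0) (W1 := 536870912) (P2 := 1073741824) (W2 := 536870912) (P3 := 201326592) (W3 := 134217728)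
    rfl k0_pm_022

noncomputable def f_pm_023 : ℕ → ℕ → ℕ → ℕ → Bool := onCell 0 536870912 0 1230186008 201326592 134217728
    (rowF 0 false true false .up 0 2 3 (qsf 0 536870912 0 1230186008 2) ndF0q0 ndF4q3 pcF2 Cut.none Ext.none)

def k0_pm_023 : ∃ t, chk3 f_pm_023 t 1 1 1 = true :=
  ⟨(a (b (l 2) (l 4)) (b (a (l 2) (a (b (l 2) (b (l 17462328) (l 4))) (b (l 17389840) (b (l 17457128) (l 17547112))))) (b (l 4) (l 4)))), by decide +kernel⟩

theorem c_pm_023 : CertF 0 536870912 0 1230186008 201326592 134217728 false true false .up 0 2 3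
    ndF0q0 ndF4q3 pcF2 Cut.none Ext.none :=
  certF0 (fam := false) (s1 := true) (s2 := false) (a := 0) (b := 2) (c := 3) (cn := .up) (n1 := ndF0q0) (n2 := ndF4q3) (pc := pcF2) (cut := Cut.none) (xt := Ext.none) (P1 := 0) (W1 := 536870912) (P2 := 0) (W2 := 1230186008) (P3 := 201326592) (W3 := 134217728)
    rfl k0_pm_023

noncomputable def f_pm_033 : ℕ → ℕ → ℕ → ℕ → Bool := onCell 1610612736 536870912 0 1230186008 201326592 134217728
    (rowF 2 false true false .pnn 0 3 3 (qsf 0 536870912 0 1230186008 3) ndF0q0 ndF4q3 pcF3 Cut.none Ext.none)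

def k0_pm_033 : ∃ t, chk3 f_pm_033 t 1 1 1 = true :=
  ⟨(b (a (a (b (a (a (l 17228384) (l 17288976)) (l 17307136)) (a (b (l 17516064) (l 4)) (l 4))) (b (a (l 17315616) (l 4)) (l 4))) (l 4)) (l 4)), by decide +kernel⟩

theorem c_pm_033 : CertF 0 536870912 0 1230186008 201326592 134217728 false true false .pnn 0 3 3
    ndF0q0 ndF4q3 pcF3 Cut.none Ext.none :=
  certF2 (fam := false) (s1 := true) (s2 := false) (a := 0) (b := 3) (c := 3) (cn := .pnn) (n1 := ndF0q0) (n2 := ndF4q3) (pc := pcF3) (cut := Cut.none) (xt := Ext.none) (P1 := 0) (W1 := 536870912) (P2 := 0) (W2 := 1230186008) (P3 := 201326592) (W3 := 134217728)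
    rfl (fun _ => rfl) k0_pm_033

noncomputable def f_pm_101 : ℕ → ℕ → ℕ → ℕ → Bool := onCell 536870912 536870912 536870912 536870912 201326592 134217728
    (rowF 0 false true false .npn 1 0 1 (qsf 536870912 536870912 536870912 536870912 0) ndF0q1 ndF4q1 pcF0 Cut.none Ext.none)

def k0_pm_101 : ∃ t, chk3 f_pm_101 t 1 1 1 = true :=
  ⟨(l 4), by decide +kernel⟩

theorem c_pm_101 : CertF 536870912 536870912 536870912 536870912 201326592 134217728 false true false .npn 1 0 1
    ndF0q1 ndF4q1 pcF0 Cut.none Ext.none :=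
  certF0 (fam := false) (s1 := true) (s2 := false) (a := 1) (b := 0) (c := 1) (cn := .npn) (n1 := ndF0q1) (n2 := ndF4q1) (pc := pcF0) (cut := Cut.none) (xt := Ext.none) (P1 := 536870912) (W1 := 536870912) (P2 := 536870912) (W2 := 536870912) (P3 := 201326592) (W3 := 134217728)
    rfl k0_pm_101

noncomputable def f_pm_102 : ℕ → ℕ → ℕ → ℕ → Bool := onCell 536870912 536870912 0 536870912 201326592 134217728
    (rowF 1 false true false .npp 1 0 2 (qsf 536870912 536870912 1073741824 536870912 0) ndF0q1 ndF4q2 pcF0 Cut.none Ext.none)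

def k0_pm_102 : ∃ t, chk3 f_pm_102 t 1 1 1 = true :=
  ⟨(a (l 4) (b (b (a (l 4) (a (c (l 143381960407) (b (l 276525186839) (l 18005744))) (b (l 172372391543) (l 18046488)))) (a (b (l 4) (a (l 4) (l 157004429399))) (a (b (c (l 18311064) (l 17942400)) (l 18049056)) (b (l 17945512) (a (l 17894320) (l 17767672)))))) (b (a (a (l 4) (b (c (l 18307168) (l 17930864)) (c (l 18262592) (l 17911040)))) (b (a (l 17963056) (b (l 17723120) (l 17655152))) (a (a (l 17928856) (l 17765080)) (a (l 17609880) (l 17451344))))) (a (b (a (l 4) (a (l 18103048) (l 17980016))) (a (l 4) (a (l 18049000) (l 17833680)))) (a (b (a (l 17788992) (l 17670536)) (a (b (l 17626528) (l 17517272)) (l 17490744))) (b (a (l 17404624) (b (l 17380200) (l 17317592))) (a (b (l 17280344) (l 17237640)) (b (l 17283088) (l 17267520))))))))), by decide +kernel⟩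

theorem c_pm_102 : CertF 536870912 536870912 1073741824 536870912 201326592 134217728 false true false .npp 1 0 2
    ndF0q1 ndF4q2 pcF0 Cut.none Ext.none :=
  certF1 (fam := false) (s1 := true) (s2 := false) (a := 1) (b := 0) (c := 2) (cn := .npp) (n1 := ndF0q1) (n2 := ndF4q2) (pc := pcF0) (cut := Cut.none) (xt := Ext.none) (P1 := 536870912) (W1 := 536870912) (P2 := 1073741824) (W2 := 536870912) (P3 := 201326592) (W3 := 134217728)
    rfl (fun _ => rfl) k0_pm_102

noncomputable def f_pm_112 : ℕ → ℕ → ℕ → ℕ → Bool := onCell 536870912 536870912 1073741824 536870912 201326592 134217728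
    (rowF 2 false true false .dn 1 1 2 (qsf 536870912 536870912 1073741824 536870912 1) ndF0q1 ndF4q2 pcF1 Cut.none Ext.none)

def k0_pm_112 : ∃ t, chk3 f_pm_112 t 1 1 1 = true :=
  ⟨(b (l 4) (a (a (a (b (l 18137920) (b (l 18017224) (c (l 17925328) (l 17675288)))) (b (l 18154936) (a (b (l 18060424) (l 17895944)) (b (l 18136672) (l 18121496))))) (b (l 4) (b (l 18191600) (a (a (l 18050112) (l 18098504)) (l 18158816))))) (a (b (l 4) (a (l 18248176) (l 4))) (l 4)))), by decide +kernel⟩

theorem c_pm_112 : CertF 536870912 536870912 1073741824 536870912 201326592 134217728 false true false .dn 1 1 2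
    ndF0q1 ndF4q2 pcF1 Cut.none Ext.none :=
  certF2 (fam := false) (s1 := true) (s2 := false) (a := 1) (b := 1) (c := 2) (cn := .dn) (n1 := ndF0q1) (n2 := ndF4q2) (pc := pcF1) (cut := Cut.none) (xt := Ext.none) (P1 := 536870912) (W1 := 536870912) (P2 := 1073741824) (W2 := 536870912) (P3 := 201326592) (W3 := 134217728)
    rfl (fun _ => rfl) k0_pm_112

noncomputable def cut_pm_113 : Cut := Cut.of [[⟨0, 1, 0, 57167902⟩, ⟨1, 1, 0, 57167902⟩, ⟨2, 2, 0, 11758673⟩]]

noncomputable def f_pm_113 : ℕ → ℕ → ℕ → ℕ → Bool := onCell 536870912 536870912 0 1230186008 201326592 134217728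
    (rowF 0 false true false .nn 1 1 3 (qsf 536870912 536870912 0 1230186008 1) ndF0q1 ndF4q3 pcF1 cut_pm_113 Ext.none)

def k0_pm_113 : ∃ t, chk3 f_pm_113 t 1 1 1 = true :=
  ⟨(b (a (l 2) (a (l 2) (b (a (l 2) (b (a (l 2) (l 6)) (l 17033536))) (a (b (l 16849024) (l 16895984)) (b (l 16897824) (l 16939344)))))) (b (a (a (l 2) (a (l 2) (a (l 2) (b (l 2) (l 17944752))))) (b (a (a (l 2) (l 17256720)) (a (l 16992432) (l 17043408))) (a (a (l 17681872) (l 17395336)) (a (l 17150600) (b (l 17044704) (l 17064288)))))) (a (a (l 4) (a (b (l 41040610919) (l 4)) (b (b (l 18023704) (l 18056992)) (b (b (a (l 18102216) (l 18014448)) (a (l 18081840) (l 18005032))) (l 18005688))))) (b (a (b (a (a (l 17826504) (a (l 17725424) (l 17655704))) (l 17498760)) (a (b (l 17997152) (a (l 17883656) (l 17757688))) (l 17569768))) (a (l 17320808) (l 17169176))) (a (b (a (b (a (l 17908056) (l 17787536)) (a (l 17919096) (l 17815632))) (b (l 17616096) (l 17654928))) (c (a (l 18077696) (b (l 17679776) (l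 17649808))) (a (b (l 17807312) (l 17790248)) (b (l 17631312) (l 17846032))))) (b (a (l 17569864) (l 17287632)) (a (b (l 17479824) (a (l 17511464) (l 17461656))) (b (a (l 17392160) (l 17325760)) (l 17385800))))))))), by decide +kernel⟩

theorem c_pm_113 : CertF 536870912 536870912 0 1230186008 201326592 134217728 false true false .nn 1 1 3
    ndF0q1 ndF4q3 pcF1 cut_pm_113 Ext.none :=
  certF0 (fam := false) (s1 := true) (s2 := false) (a := 1) (b := 1) (c := 3) (cn := .nn) (n1 := ndF0q1) (n2 := ndF4q3) (pc := pcF1) (cut := cut_pm_113) (xt := Ext.none) (P1 := 536870912) (W1 := 536870912) (P2 := 0) (W2 := 1230186008) (P3 := 201326592) (W3 := 134217728)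
    rfl k0_pm_113

noncomputable def cut_pm_123 : Cut := Cut.of [[⟨0, 1, 0, 57167902⟩, ⟨1, 1, 0, 57167902⟩, ⟨2, 2, 0, 11758673⟩]]

noncomputable def f_pm_123 : ℕ → ℕ → ℕ → ℕ → Bool := onCell 1073741824 536870912 0 1230186008 201326592 134217728
    (rowF 2 false true false .npn 1 2 3 (qsf 536870912 536870912 0 1230186008 2) ndF0q1 ndF4q3 pcF2 cut_pm_123 Ext.none)

def k0_pm_123 : ∃ t, chk3 f_pm_123 t 1 1 1 = true :=
  ⟨(b (b (a (a (a (b (a (l 6) (l 16827760)) (a (l 16843832) (l 16889352))) (a (b (l 16866264) (l 16934256)) (a (l 16934992) (b (l 16921512) (l 16987384))))) (a (a (a (l 16973192) (b (l 16997896) (l 17022408))) (l 17006448)) (l 17053448))) (a (a (l 17142208) (l 17227224)) (a (l 17306304) (l 17366416)))) (a (a (a (b (l 16974632) (l 17150592)) (a (l 17281696) (b (l 17080952) (l 17255080)))) (a (a (b (l 17124344) (l 17296984)) (l 17254816)) (b (l 17228936) (l 17411256)))) (a (a (b (l 17313160) (l 17482672)) (b (l 17389864) (l 17524960))) (a (l 17485088) (l 17497104)))))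 (b (a (a (a (b (l 17400280) (b (l 17683080) (l 17888616))) (b (l 17502048) (b (l 17754616) (l 17926024)))) (b (a (l 17581712) (l 17642224)) (a (l 17857200) (l 17844064)))) (a (b (a (l 17667056) (l 17668240)) (l 4)) (l 4))) (a (a (b (a (b (l 18084448) (l 18217512)) (b (l 18057824) (l 4))) (l 4)) (l 4)) (l 1)))), by decide +kernel⟩

theorem c_pm_123 : CertF 536870912 536870912 0 1230186008 201326592 134217728 false true false .npn 1 2 3
    ndF0q1 ndF4q3 pcF2 cut_pm_123 Ext.none :=
  certF2 (fam := false) (s1 := true) (s2 := false) (a := 1) (b := 2) (c := 3) (cn := .npn) (n1 := ndF0q1) (n2 := ndF4q3) (pc := pcF2) (cut := cut_pm_123) (xt := Ext.none) (P1 := 536870912) (W1 := 536870912) (P2 := 0) (W2 := 1230186008) (P3 := 201326592) (W3 := 134217728)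
    rfl (fun _ => rfl) k0_pm_123

noncomputable def f_pm_133 : ℕ → ℕ → ℕ → ℕ → Bool := onCell 536870912 536870912 0 1230186008 201326592 134217728
    (rowF 0 false true false .dn 1 3 3 (qsf 536870912 536870912 0 1230186008 3) ndF0q1 ndF4q3 pcF3 Cut.none Ext.none)

def k0_pm_133 : ∃ t, chk3 f_pm_133 t 1 1 1 = true :=
  ⟨(b (b (a (a (a (b (l 17017632) (l 1)) (l 1)) (l 1)) (l 1)) (l 1)) (l 1)), by decide +kernel⟩

theorem c_pm_133 : CertF 536870912 536870912 0 1230186008 201326592 134217728 false true false .dn 1 3 3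
    ndF0q1 ndF4q3 pcF3 Cut.none Ext.none :=
  certF0 (fam := false) (s1 := true) (s2 := false) (a := 1) (b := 3) (c := 3) (cn := .dn) (n1 := ndF0q1) (n2 := ndF4q3) (pc := pcF3) (cut := Cut.none) (xt := Ext.none) (P1 := 536870912) (W1 := 536870912) (P2 := 0) (W2 := 1230186008) (P3 := 201326592) (W3 := 134217728)
    rfl k0_pm_133

noncomputable def f_pm_202 : ℕ → ℕ → ℕ → ℕ → Bool := onCell 0 536870912 0 536870912 201326592 134217728
    (rowF 1 false true false .pp 2 0 2 (qsf 0 536870912 1073741824 536870912 0) ndF0q2 ndF4q2 pcF0 Cut.none Ext.none)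

def k0_pm_202 : ∃ t, chk3 f_pm_202 t 1 2 1 = true :=
  ⟨(a (b (a (b (b (a (a (b (l 16518688) (l 16606968)) (l 16603128)) (a (l 16725392) (l 16853696))) (a (a (b (b (l 16591752) (l 16574880)) (l 16566856)) (b (l 16502968) (l 16550528))) (l 16688288))) (c (b (a (a (b (l 16539752) (l 16697128)) (l 16603616)) (a (l 16565072) (l 16579992))) (a (a (l 129553676375) (l 16861984)) (l 16837344))) (a (b (a (l 16531824) (l 16469480)) (a (l 132237909351) (l 16493392))) (b (l 16592560) (l 16524496))))) (b (b (a (l 17172392) (l 17236688)) (a (l 16979112) (l 17152520))) (a (b (l 16785992) (l 16787480)) (b (l 17039584) (l 16950584))))) (a (c (a (b (a (b (l 159082014055) (l 161229647735)) (b (l 17011320) (l 17095536))) (b (l 165524709559) (l 170356572807))) (b (a (b (l 17014344) (l 17108312)) (l 17071144)) (a (l 17171936) (l 17193232)))) (a (b (b (a (l 158007409831) (l 16554496)) (l 159081479927)) (b (l 161766059031) (l 164987427687))) (b (a (l 16637032) (l 16611816)) (b (l 16849248)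 (l 16936064))))) (a (b (b (l 16729736) (l 16891984)) (b (l 17012640) (l 17087648))) (b (b (l 16800848) (l 16854544)) (b (l 16991312) (l 17088592)))))) (b (a (b (b (a (l 17438080) (l 17639096)) (l 17488024)) (a (b (l 17306096) (l 17200184)) (l 17521024))) (b (a (b (c (l 17970832) (l 17652696)) (l 17798200)) (c (l 18204232) (l 17851440))) (a (l 17850296) (l 17877480)))) (a (b (a (b (l 17101136) (l 17004672)) (b (l 17414744) (l 17296904))) (a (b (l 16994648) (l 17073072)) (b (l 17194496) (l 17164296)))) (a (b (l 17701432) (b (l 17591912) (l 17462552))) (b (l 17761160) (l 17629320)))))), by decide +kernel⟩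

def k1_pm_202 : ∃ t, chk3 f_pm_202 t 1 3 1 = true :=
  ⟨(a (b (c (a (a (b (a (l 3) (l 176799033447)) (l 3)) (b (b (l 149418595703) (l 170893536055)) (b (l 176262202567) (l 182167725463)))) (a (b (l 17251824) (l 166531500455)) (b (l 17297568) (a (l 17274848) (l 17302848))))) (a (a (b (a (l 3) (l 169282527879)) (l 3)) (b (b (l 149418255479) (l 164450764119)) (a (b (l 178946291239) (l 3)) (b (l 17050104) (l 171967020951))))) (a (b (l 17034648) (l 155257028039)) (b (l 17042320) (l 17113760))))) (a (l 2) (b (a (l 2) (l 1537699825591)) (l 2)))) (b (b (a (c (l 17316216) (a (l 17079832) (l 17039256))) (a (a (l 17266488) (l 17366152)) (a (l 17561768) (l 17516800)))) (b (a (a (l 17224760) (l 17237296)) (a (l 17387136) (a (l 17360264) (l 17472488)))) (a (a (l 17237592) (l 17252800)) (a (l 17258176) (l 17358376))))) (a (b (a (l 17234464) (l 17267320)) (l 2)) (b (a (l 17282560) (b (l 17318528) (l 17286600))) (l 551468621655))))), by decide +kernel⟩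

theorem s2_pm_202 : ∃ t, chk3 f_pm_202 t 1 1 1 = true := ex3_b k0_pm_202 k1_pm_202

theorem c_pm_202 : CertF 0 536870912 1073741824 536870912 201326592 134217728 false true false .pp 2 0 2
    ndF0q2 ndF4q2 pcF0 Cut.none Ext.none :=
  certF1 (fam := false) (s1 := true) (s2 := false) (a := 2) (b := 0) (c := 2) (cn := .pp) (n1 := ndF0q2) (n2 := ndF4q2) (pc := pcF0) (cut := Cut.none) (xt := Ext.none) (P1 := 0) (W1 := 536870912) (P2 := 1073741824) (W2 := 536870912) (P3 := 201326592) (W3 := 134217728)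
    rfl (fun _ => rfl) s2_pm_202

noncomputable def f_pm_203 : ℕ → ℕ → ℕ → ℕ → Bool := onCell 0 536870912 0 1230186008 201326592 134217728
    (rowF 0 false true false .up 2 0 3 (qsf 0 536870912 0 1230186008 0) ndF0q2 ndF4q3 pcF0 Cut.none Ext.none)

def k0_pm_203 : ∃ t, chk3 f_pm_203 t 1 1 1 = true :=
  ⟨(b (l 2) (b (l 2) (a (b (a (l 3) (b (l 2) (b (l 2) (c (a (a (l 3) (l 192368240151)) (l 17128784)) (a (a (l 3) (l 183241167063)) (l 260483641463)))))) (a (b (l 3) (a (l 3) (a (l 3) (b (c (l 182704735607) (l 176261864519)) (b (c (l 167135558711) (l 163913856663)) (a (a (l 3) (c (c (l 17343352) (l 163377284631)) (c (l 161766421975) (l 160692489351)))) (c (l 17275336) (l 16973384)))))))) (b (a (c (a (b (l 265919573303) (l 186999728631)) (b (l 188610240135) (l 17216232))) (a (b (l 271824853879) (l 169282824647)) (b (l 184315152519) (l 17026720)))) (b (a (l 17114424) (l 17153704)) (l 17162504))) (b (a (a (c (l 17231200) (l 17016464)) (l 17142416)) (l 17186184)) (a (c (a (l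 17282992) (l 17312112)) (a (l 17027784) (l 17047504))) (l 17201592)))))) (b (l 2) (a (b (a (b (l 17210280) (l 17229016)) (l 45199160695)) (a (b (l 17241280) (l 17245024)) (b (l 17290624) (l 17277920)))) (b (a (l 17342392) (l 2)) (a (l 17317112) (l 17341528)))))))), by decide +kernel⟩

theorem c_pm_203 : CertF 0 536870912 0 1230186008 201326592 134217728 false true false .up 2 0 3
    ndF0q2 ndF4q3 pcF0 Cut.none Ext.none :=
  certF0 (fam := false) (s1 := true) (s2 := false) (a := 2) (b := 0) (c := 3) (cn := .up) (n1 := ndF0q2) (n2 := ndF4q3) (pc := pcF0) (cut := Cut.none) (xt := Ext.none) (P1 := 0) (W1 := 536870912) (P2 := 0) (W2 := 1230186008) (P3 := 201326592) (W3 := 134217728)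
    rfl k0_pm_203

noncomputable def cut_pm_213 : Cut := Cut.of [[⟨0, 1, 0, 57167902⟩, ⟨1, 1, 0, 57167902⟩, ⟨2, 2, 0, 11758673⟩]]

noncomputable def f_pm_213 : ℕ → ℕ → ℕ → ℕ → Bool := onCell 0 536870912 0 1230186008 201326592 134217728
    (rowF 0 false true false .pnn 2 1 3 (qsf 0 536870912 0 1230186008 1) ndF0q2 ndF4q3 pcF1 cut_pm_213 Ext.none)

def k0_pm_213 : ∃ t, chk3 f_pm_213 t 2 2 1 = true :=
  ⟨(l 3), by decide +kernel⟩

def k1_pm_213 : ∃ t, chk3 f_pm_213 t 6 4 1 = true :=
  ⟨(l 3), by decide +kernel⟩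

def k2_pm_213 : ∃ t, chk3 f_pm_213 t 14 4 1 = true :=
  ⟨(b (l 3) (a (l 3) (b (a (l 3) (b (l 3) (a (l 3) (b (l 3) (a (l 3) (b (l 3) (c (l 286320001607) (a (l 3) (b (l 3) (c (l 279877546423) (a (l 282025027015) (l 274508834615)))))))))))) (a (b (l 3) (a (l 3) (c (b (l 289541242119) (a (l 284709410935) (l 267529544839))) (c (b (l 287393750439) (a (l 281488176151) (l 265918922455))) (b (a (l 3) (b (l 3) (l 280951296711))) (a (b (l 284709394855) (l 270213883495)) (b (a (l 276119461255) (l 16798160)) (l 16800152)))))))) (b (a (b (l 3) (c (a (l 290614978103) (l 283098786711)) (a (b (l 3) (l 286320003191)) (b (a (l 3) (b (l 284709387959) (c (l 272361360359) (l 272361356743)))) (a (b (l 280951293863) (l 268603264727)) (b (l 265382038695) (l 16796480))))))) (b (c (a (l 285783135031) (b (l 271287620071) (l 16798704))) (c (a (b (l 287393740423) (l 273971970535)) (b (l 270750743623) (l 16795472))) (a (b (l 286319995559) (a (l 282561901255) (b (l 277193191959) (l 265918904679))))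 (b (a (b (l 281488157079) (l 270213869479)) (b (l 266992643511) (l 16792384))) (l 16793640))))) (a (b (c (l 267529530583) (a (b (c (l 269677005079) (l 269140130647)) (l 16795000)) (l 16795440))) (l 16799824)) (l 16800792)))) (a (c (b (a (l 270213891751) (l 16804832)) (l 16810288)) (b (a (b (a (l 282561907943) (b (l 271287619959) (l 262697682791))) (c (l 264845176519) (l 263771430007))) (l 16793944)) (l 16803384))) (l 16798016))))))), by decide +kernel⟩

def k3_pm_213 : ∃ t, chk3 f_pm_213 t 15 4 1 = true :=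
  ⟨(b (l 6) (a (b (a (b (l 6) (a (b (a (l 3) (b (c (l 286319994295) (a (l 3) (b (l 3) (c (l 279877540231) (a (l 283098763415) (l 275045700007)))))) (c (l 272361354119) (c (a (l 279340671015) (l 267529512279)) (a (b (l 282025022503) (a (l 277730056215) (l 267529509463))) (b (a (l 270750733799) (l 16788624)) (l 16789496))))))) (a (b (c (l 283098774055) (c (l 279877544087) (a (b (l 3) (l 281488154279)) (c (l 275045704167) (b (l 277193187015) (l 267529510935)))))) (c (l 268603264039) (a (b (c (l 271824482039) (a (l 277193188071) (l 266992641367))) (l 16791784)) (l 16792232)))) (b (c (l 16794608) (a (b (l 262160799543) (l 16791464)) (l 16791920))) (l 16795656)))) (b (a (b (c (l 269140127335) (a (c (l 270750735191) (b (a (l 277730053575) (l 268603248599)) (l 263234538759))) (l 16789264))) (l 16792576)) (l 16793608)) (l 16797856)))) (b (l 6) (l 16791832))) (a (b (b (a (a (l 16786984) (l 16799872)) (l 16803488)) (l 16806840)) (l 16815880)) (l 16819896))) (b (a (l 16806688) (l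 16816496)) (l 16835008)))), by decide +kernel⟩

def k4_pm_213 : ∃ t, chk3 f_pm_213 t 6 5 1 = true :=
  ⟨(b (a (l 3) (a (l 3) (b (l 3) (a (l 3) (c (b (l 3) (a (l 3) (l 280414502247))) (b (l 3) (a (l 3) (b (l 3) (l 276119509527))))))))) (a (l 3) (b (c (a (l 3) (a (b (l 3) (a (l 271824607431) (l 266455904551))) (b (a (l 273435202183) (l 261087157639)) (a (l 16861608) (l 16866744))))) (a (l 3) (a (b (l 3) (a (b (l 3) (l 269140215831)) (b (l 269140209623) (l 255181578343)))) (b (a (b (l 277193256887) (l 260013398375)) (b (l 258402780375) (l 16833416))) (b (l 16827560) (l 16844960)))))) (a (c (a (b (l 3) (l 263771589143)) (b (a (l 3) (l 263771569383)) (a (l 255718534455) (l 244981084983)))) (c (a (b (l 3) (l 263771543303)) (b (l 266992752791) (l 253571008343))) (a (b (l 3) (l 265382135607)) (b (a (l 3) (l 264845253319)) (a (l 256255338055) (l 16851080)))))) (c (a (b (a (l 259476609559) (l 16875480)) (l 16892840)) (l 16893000)) (a (b (a (b (l 255718455367) (l 16848800)) (l 16849352))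 (l 16862112)) (l 16863104))))))), by decide +kernel⟩

def k5_pm_213 : ∃ t, chk3 f_pm_213 t 7 5 1 = true :=
  ⟨(a (b (a (b (c (a (l 3) (b (b (l 3) (l 291151873927)) (a (b (l 3) (l 280951344247)) (b (l 269140178055) (l 16823640))))) (a (l 3) (b (a (l 3) (b (l 3) (a (l 3) (b (l 3) (l 279340700983))))) (a (b (l 3) (a (l 282025064359) (b (l 277730096615) (l 262697715991)))) (b (c (l 266992680055) (a (l 277730089223) (l 261623964679))) (a (l 16811768) (l 16813912))))))) (a (c (b (b (l 286320059143) (l 269677072615)) (b (l 264308377287) (l 255718432887))) (b (a (b (l 3) (l 283098817095)) (b (a (l 3) (l 278266974519)) (a (l 274508885207) (l 256255263111)))) (a (b (a (l 277730115607) (l 261623990903)) (l 256792162887)) (b (l 16822504) (l 16828848))))) (b (a (b (c (l 264308359255) (b (l 262160848999) (l 16815984))) (l 16826800)) (l 16807112)) (l 16819032)))) (c (b (a (b (a (b (l 284709417847) (l 265918947351)) (b (l 258939605847) (l 16819152))) (l 16827728)) (l 16810240)) (l 16836208))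 (b (a (b (a (c (b (l 281488181543) (l 264308321735)) (b (a (l 284709400231) (b (l 279877561543) (l 265382050871))) (a (b (l 268066406951) (l 16804376)) (l 16805080)))) (b (a (b (l 263234568679) (l 16804744)) (l 16805544)) (l 16810008))) (a (l 16814264) (l 16818640))) (l 16819688)) (l 16839176)))) (a (b (b (c (l 16840520) (l 16840768)) (l 16865744)) (l 16890416)) (b (l 16877672) (l 16910248)))) (b (a (b (l 16840272) (l 16868336)) (l 16876120)) (l 17031560))), by decide +kernel⟩

def k6_pm_213 : ∃ t, chk3 f_pm_213 t 2 6 1 = true :=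
  ⟨(b (l 3) (a (l 3) (a (l 3) (b (l 3) (a (l 3) (b (c (b (c (l 268066855831) (l 262161175031)) (c (l 232096532935) (l 229412072471))) (a (l 3) (b (l 249813047367) (l 228338228919)))) (c (a (b (l 264308750871) (l 227264683271)) (b (l 238538907751) (l 17038800))) (b (a (l 253571164087) (l 232633277095)) (l 224580180215))))))))), by decide +kernel⟩

def k7_pm_213 : ∃ t, chk3 f_pm_213 t 3 12 1 = true :=
  ⟨(a (a (b (c (a (l 3) (a (l 3) (b (l 3) (b (l 257329192407) (l 256255471927))))) (a (l 3) (a (l 3) (b (l 3) (b (l 251423538375) (l 249276070199)))))) (a (a (l 3) (b (l 3) (c (b (l 3) (c (l 248202517111) (l 245518090951))) (a (l 3) (b (l 3) (l 241223051815)))))) (a (a (b (b (l 3) (l 3)) (c (b (a (l 247665589879) (l 242296883831)) (a (l 247665619143) (l 16955408))) (b (l 244444265767) (l 245518042199)))) (b (c (b (l 252497387863) (l 254644894919)) (b (l 247128592823) (l 247128609479))) (b (c (l 16944896) (l 16894976)) (l 16926712)))) (b (b (a (c (l 240149363415) (l 241759890183))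 (l 16903048)) (c (l 16937896) (l 16891520))) (c (l 16956464) (l 16904928)))))) (c (b (a (c (a (b (l 259476681959) (l 16930224)) (l 16927456)) (a (b (l 256255413575) (l 16905072)) (b (l 16893664) (l 16913776)))) (l 16929048)) (a (b (l 16944016) (l 16967520)) (l 16972984))) (b (a (a (b (b (l 253571004791) (l 250349794263)) (b (l 16873736) (l 16882040))) (b (l 16869536) (l 16885768))) (l 16889752)) (a (b (l 16898552) (l 16915904)) (l 16922832))))) (a (b (l 16934672) (l 16971096)) (l 16995784))), by decide +kernel⟩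

def k8_pm_213 : ∃ t, chk3 f_pm_213 t 3 13 1 = true :=
  ⟨(a (a (b (a (b (c (c (b (a (l 3) (l 248739417527)) (a (l 251423789751) (l 250350059543))) (b (a (l 3) (l 246054985911)) (a (l 248202480855) (l 246591880791)))) (a (a (l 3) (b (l 3) (l 241759946231))) (b (a (l 241223063607) (l 243370574983)) (b (l 241223080919) (l 243370607607))))) (c (c (a (b (l 241223272199) (l 243907655719)) (l 17019616)) (a (b (l 238538828695) (l 240686336071)) (l 16974720))) (a (a (b (l 247665537815) (l 232633170999)) (b (l 236928147671) (l 16927600))) (b (l 16923424) (l 16932536))))) (a (b (c (l 16975696) (l 16916320)) (l 16962376)) (b (l 16947864) (l 16968664)))) (a (b (a (b (c (a (l 246055092327) (l 17010584)) (l 238538819943)) (l 16980848)) (l 16976376)) (a (l 16989224) (l 16994472))) (b (l 16985072) (l 17002952)))) (b (b (l 17007520) (l 16985440)) (l 17034632))) (a (b (l 17009016) (l 17045432)) (l 17186832))), by decide +kernel⟩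

def k9_pm_213 : ∃ t, chk3 f_pm_213 t 1 7 1 = true :=
  ⟨(a (b (a (l 3) (b (c (a (l 3) (a (b (a (l 3) (l 269677510231)) (a (l 270214421383) (l 227264704039))) (b (b (l 233170288791) (l 17057808)) (l 17071584)))) (a (l 3) (a (b (a (l 3) (l 262697998087)) (a (l 267529855287) (l 218674671143))) (b (a (l 225117095319) (l 16965560)) (l 16977352))))) (c (a (a (l 3) (b (l 275583164807) (l 214916806311))) (a (b (l 222969828471) (l 17106128)) (l 17093136))) (a (a (l 3) (b (l 277730410727) (l 203642256167))) (a (b (l 213842890215) (l 16991208)) (b (l 16990712) (l 17002216))))))) (b (a (l 1) (a (l 1) (b (a (l 17045896) (l 17045904)) (l 1)))) (l 1))) (b (a (b (a (a (b (l 17008248) (l 17023104)) (l 17026792)) (l 17046120)) (a (b (l 17040248) (l 17050328)) (l 17072616))) (b (a (l 17078400) (l 17111144)) (a (l 17105056) (l 17134136)))) (b (a (a (l 17292464) (l 17243456)) (a (l 17137680) (l 17183864))) (a (l 1) (a (l 17197760) (l 17273760)))))), by decide +kernel⟩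

theorem s10_pm_213 : ∃ t, chk3 f_pm_213 t 3 6 1 = true := ex3_b k7_pm_213 k8_pm_213

theorem s11_pm_213 : ∃ t, chk3 f_pm_213 t 1 6 1 = true := ex3_a k6_pm_213 s10_pm_213

theorem s12_pm_213 : ∃ t, chk3 f_pm_213 t 1 3 1 = true := ex3_b s11_pm_213 k9_pm_213

theorem s13_pm_213 : ∃ t, chk3 f_pm_213 t 3 5 1 = true := ex3_a k4_pm_213 k5_pm_213

theorem s14_pm_213 : ∃ t, chk3 f_pm_213 t 7 4 1 = true := ex3_a k2_pm_213 k3_pm_213

theorem s15_pm_213 : ∃ t, chk3 f_pm_213 t 3 4 1 = true := ex3_a k1_pm_213 s14_pm_213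

theorem s16_pm_213 : ∃ t, chk3 f_pm_213 t 3 2 1 = true := ex3_b s15_pm_213 s13_pm_213

theorem s17_pm_213 : ∃ t, chk3 f_pm_213 t 1 2 1 = true := ex3_a k0_pm_213 s16_pm_213

theorem s18_pm_213 : ∃ t, chk3 f_pm_213 t 1 1 1 = true := ex3_b s17_pm_213 s12_pm_213

theorem c_pm_213 : CertF 0 536870912 0 1230186008 201326592 134217728 false true false .pnn 2 1 3
    ndF0q2 ndF4q3 pcF1 cut_pm_213 Ext.none :=
  certF0 (fam := false) (s1 := true) (s2 := false) (a := 2) (b := 1) (c := 3) (cn := .pnn) (n1 := ndF0q2) (n2 := ndF4q3) (pc := pcF1) (cut := cut_pm_213) (xt := Ext.none) (P1 := 0) (W1 := 536870912) (P2 := 0) (W2 := 1230186008) (P3 := 201326592) (W3 := 134217728)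
    rfl s18_pm_213

noncomputable def f_mm_001 : ℕ → ℕ → ℕ → ℕ → Bool := onCell 0 536870912 0 536870912 201326592 134217728
    (rowF 1 false false false .up 0 0 1 (qsf 0 536870912 536870912 536870912 0) ndF0q0 ndF4q1 pcF0 Cut.none Ext.none)

def k0_mm_001 : ∃ t, chk3 f_mm_001 t 1 1 1 = true :=
  ⟨(l 3), by decide +kernel⟩

theorem c_mm_001 : CertF 0 536870912 536870912 536870912 201326592 134217728 false false false .up 0 0 1
    ndF0q0 ndF4q1 pcF0 Cut.none Ext.none :=
  certF1 (fam := false) (s1 := false) (s2 := false) (a := 0) (b := 0) (c := 1) (cn := .up) (n1 := ndF0q0) (n2 := ndF4q1) (pc := pcF0) (cut := Cut.none) (xt := Ext.none) (P1 := 0) (W1 := 536870912) (P2 := 536870912) (W2 := 536870912) (P3 := 201326592) (W3 := 134217728)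
    rfl (fun _ => rfl) k0_mm_001

noncomputable def f_mm_011 : ℕ → ℕ → ℕ → ℕ → Bool := onCell 0 536870912 536870912 536870912 201326592 134217728
    (rowF 1 false false false .pnn 0 1 1 (qsf 0 536870912 536870912 536870912 1) ndF0q0 ndF4q1 pcF1 Cut.none Ext.none)

def k0_mm_011 : ∃ t, chk3 f_mm_011 t 1 1 1 = true :=
  ⟨(l 5), by decide +kernel⟩

theorem c_mm_011 : CertF 0 536870912 536870912 536870912 201326592 134217728 false false false .pnn 0 1 1
    ndF0q0 ndF4q1 pcF1 Cut.none Ext.none :=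
  certF1 (fam := false) (s1 := false) (s2 := false) (a := 0) (b := 1) (c := 1) (cn := .pnn) (n1 := ndF0q0) (n2 := ndF4q1) (pc := pcF1) (cut := Cut.none) (xt := Ext.none) (P1 := 0) (W1 := 536870912) (P2 := 536870912) (W2 := 536870912) (P3 := 201326592) (W3 := 134217728)
    rfl (fun _ => rfl) k0_mm_011

noncomputable def f_mm_012 : ℕ → ℕ → ℕ → ℕ → Bool := onCell 0 536870912 1073741824 536870912 201326592 134217728
    (rowF 0 false false false .pnp 0 1 2 (qsf 0 536870912 1073741824 536870912 1) ndF0q0 ndF4q2 pcF1 Cut.none Ext.none)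

def k0_mm_012 : ∃ t, chk3 f_mm_012 t 1 1 1 = true :=
  ⟨(l 5), by decide +kernel⟩

theorem c_mm_012 : CertF 0 536870912 1073741824 536870912 201326592 134217728 false false false .pnp 0 1 2
    ndF0q0 ndF4q2 pcF1 Cut.none Ext.none :=
  certF0 (fam := false) (s1 := false) (s2 := false) (a := 0) (b := 1) (c := 2) (cn := .pnp) (n1 := ndF0q0) (n2 := ndF4q2) (pc := pcF1) (cut := Cut.none) (xt := Ext.none) (P1 := 0) (W1 := 536870912) (P2 := 1073741824) (W2 := 536870912) (P3 := 201326592) (W3 := 134217728)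
    rfl k0_mm_012

noncomputable def f_mm_022 : ℕ → ℕ → ℕ → ℕ → Bool := onCell 0 536870912 1073741824 536870912 201326592 134217728
    (rowF 0 false false false .pp 0 2 2 (qsf 0 536870912 1073741824 536870912 2) ndF0q0 ndF4q2 pcF2 Cut.none Ext.none)

def k0_mm_022 : ∃ t, chk3 f_mm_022 t 1 1 1 = true :=
  ⟨(l 5), by decide +kernel⟩

theorem c_mm_022 : CertF 0 536870912 1073741824 536870912 201326592 134217728 false false false .pp 0 2 2
    ndF0q0 ndF4q2 pcF2 Cut.none Ext.none :=
  certF0 (fam := false) (s1 := false) (s2 := false) (a := 0) (b := 2) (c := 2) (cn := .pp) (n1 := ndF0q0) (n2 := ndF4q2) (pc := pcF2) (cut := Cut.none) (xt := Ext.none) (P1 := 0) (W1 := 536870912) (P2 := 1073741824) (W2 := 536870912) (P3 := 201326592) (W3 := 134217728)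
    rfl k0_mm_022

noncomputable def f_mm_023 : ℕ → ℕ → ℕ → ℕ → Bool := onCell 0 536870912 0 1230186008 201326592 134217728
    (rowF 0 false false false .up 0 2 3 (qsf 0 536870912 0 1230186008 2) ndF0q0 ndF4q3 pcF2 Cut.none Ext.none)

def k0_mm_023 : ∃ t, chk3 f_mm_023 t 1 1 1 = true :=
  ⟨(l 5), by decide +kernel⟩

theorem c_mm_023 : CertF 0 536870912 0 1230186008 201326592 134217728 false false false .up 0 2 3
    ndF0q0 ndF4q3 pcF2 Cut.none Ext.none :=
  certF0 (fam := false) (s1 := false) (s2 := false) (a := 0) (b := 2) (c := 3) (cn := .up) (n1 := ndF0q0) (n2 := ndF4q3) (pc := pcF2) (cut := Cut.none) (xt := Ext.none) (P1 := 0) (W1 := 536870912) (P2 := 0) (W2 := 1230186008) (P3 := 201326592) (W3 := 134217728)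
    rfl k0_mm_023

noncomputable def f_mm_033 : ℕ → ℕ → ℕ → ℕ → Bool := onCell 0 536870912 0 1230186008 201326592 134217728
    (rowF 0 false false false .pnn 0 3 3 (qsf 0 536870912 0 1230186008 3) ndF0q0 ndF4q3 pcF3 Cut.none Ext.none)

def k0_mm_033 : ∃ t, chk3 f_mm_033 t 1 1 1 = true :=
  ⟨(l 5), by decide +kernel⟩

theorem c_mm_033 : CertF 0 536870912 0 1230186008 201326592 134217728 false false false .pnn 0 3 3
    ndF0q0 ndF4q3 pcF3 Cut.none Ext.none :=
  certF0 (fam := false) (s1 := false) (s2 := false) (a := 0) (b := 3) (c := 3) (cn := .pnn) (n1 := ndF0q0) (n2 := ndF4q3) (pc := pcF3) (cut := Cut.none) (xt := Ext.none) (P1 := 0) (W1 := 536870912) (P2 := 0) (W2 := 1230186008) (P3 := 201326592) (W3 := 134217728)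
    rfl k0_mm_033

noncomputable def cut_mm_101 : Cut := Cut.of [[⟨0, 1, 0, 67108864⟩, ⟨1, 0, 0, 67108864⟩, ⟨2, 1, 0, 67108864⟩]]

noncomputable def f_mm_101 : ℕ → ℕ → ℕ → ℕ → Bool := onCell 536870912 536870912 0 536870912 201326592 134217728
    (rowF 1 false false false .npn 1 0 1 (qsf 536870912 536870912 536870912 536870912 0) ndF0q1 ndF4q1 pcF0 cut_mm_101 Ext.none)

def k0_mm_101 : ∃ t, chk3 f_mm_101 t 1 1 1 = true :=
  ⟨(a (l 3) (b (a (l 3) (b (a (l 3) (b (b (a (l 3) (l 6)) (l 3)) (l 3))) (l 3))) (l 3))), by decide +kernel⟩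

theorem c_mm_101 : CertF 536870912 536870912 536870912 536870912 201326592 134217728 false false false .npn 1 0 1
    ndF0q1 ndF4q1 pcF0 cut_mm_101 Ext.none :=
  certF1 (fam := false) (s1 := false) (s2 := false) (a := 1) (b := 0) (c := 1) (cn := .npn) (n1 := ndF0q1) (n2 := ndF4q1) (pc := pcF0) (cut := cut_mm_101) (xt := Ext.none) (P1 := 536870912) (W1 := 536870912) (P2 := 536870912) (W2 := 536870912) (P3 := 201326592) (W3 := 134217728)
    rfl (fun _ => rfl) k0_mm_101

noncomputable def f_mm_102 : ℕ → ℕ → ℕ → ℕ → Bool := onCell 536870912 536870912 1073741824 536870912 201326592 134217728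
    (rowF 0 false false false .npp 1 0 2 (qsf 536870912 536870912 1073741824 536870912 0) ndF0q1 ndF4q2 pcF0 Cut.none Ext.none)

def k0_mm_102 : ∃ t, chk3 f_mm_102 t 1 1 1 = true :=
  ⟨(l 3), by decide +kernel⟩

theorem c_mm_102 : CertF 536870912 536870912 1073741824 536870912 201326592 134217728 false false false .npp 1 0 2
    ndF0q1 ndF4q2 pcF0 Cut.none Ext.none :=
  certF0 (fam := false) (s1 := false) (s2 := false) (a := 1) (b := 0) (c := 2) (cn := .npp) (n1 := ndF0q1) (n2 := ndF4q2) (pc := pcF0) (cut := Cut.none) (xt := Ext.none) (P1 := 536870912) (W1 := 536870912) (P2 := 1073741824) (W2 := 536870912) (P3 := 201326592) (W3 := 134217728)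
    rfl k0_mm_102

noncomputable def f_mm_112 : ℕ → ℕ → ℕ → ℕ → Bool := onCell 536870912 536870912 1073741824 536870912 201326592 134217728
    (rowF 0 false false false .dn 1 1 2 (qsf 536870912 536870912 1073741824 536870912 1) ndF0q1 ndF4q2 pcF1 Cut.none Ext.none)

def k0_mm_112 : ∃ t, chk3 f_mm_112 t 1 1 1 = true :=
  ⟨(l 3), by decide +kernel⟩

theorem c_mm_112 : CertF 536870912 536870912 1073741824 536870912 201326592 134217728 false false false .dn 1 1 2
    ndF0q1 ndF4q2 pcF1 Cut.none Ext.none :=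
  certF0 (fam := false) (s1 := false) (s2 := false) (a := 1) (b := 1) (c := 2) (cn := .dn) (n1 := ndF0q1) (n2 := ndF4q2) (pc := pcF1) (cut := Cut.none) (xt := Ext.none) (P1 := 536870912) (W1 := 536870912) (P2 := 1073741824) (W2 := 536870912) (P3 := 201326592) (W3 := 134217728)
    rfl k0_mm_112

noncomputable def f_mm_113 : ℕ → ℕ → ℕ → ℕ → Bool := onCell 536870912 536870912 0 1230186008 201326592 134217728
    (rowF 0 false false false .nn 1 1 3 (qsf 536870912 536870912 0 1230186008 1) ndF0q1 ndF4q3 pcF1 Cut.none Ext.none)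

def k0_mm_113 : ∃ t, chk3 f_mm_113 t 1 1 1 = true :=
  ⟨(b (l 5) (a (l 5) (b (l 5) (l 3)))), by decide +kernel⟩

theorem c_mm_113 : CertF 536870912 536870912 0 1230186008 201326592 134217728 false false false .nn 1 1 3
    ndF0q1 ndF4q3 pcF1 Cut.none Ext.none :=
  certF0 (fam := false) (s1 := false) (s2 := false) (a := 1) (b := 1) (c := 3) (cn := .nn) (n1 := ndF0q1) (n2 := ndF4q3) (pc := pcF1) (cut := Cut.none) (xt := Ext.none) (P1 := 536870912) (W1 := 536870912) (P2 := 0) (W2 := 1230186008) (P3 := 201326592) (W3 := 134217728)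
    rfl k0_mm_113

noncomputable def f_mm_123 : ℕ → ℕ → ℕ → ℕ → Bool := onCell 1073741824 536870912 0 1230186008 201326592 134217728
    (rowF 2 false false false .npn 1 2 3 (qsf 536870912 536870912 0 1230186008 2) ndF0q1 ndF4q3 pcF2 Cut.none Ext.none)

def k0_mm_123 : ∃ t, chk3 f_mm_123 t 1 1 1 = true :=
  ⟨(b (l 5) (l 5)), by decide +kernel⟩

theorem c_mm_123 : CertF 536870912 536870912 0 1230186008 201326592 134217728 false false false .npn 1 2 3
    ndF0q1 ndF4q3 pcF2 Cut.none Ext.none :=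
  certF2 (fam := false) (s1 := false) (s2 := false) (a := 1) (b := 2) (c := 3) (cn := .npn) (n1 := ndF0q1) (n2 := ndF4q3) (pc := pcF2) (cut := Cut.none) (xt := Ext.none) (P1 := 536870912) (W1 := 536870912) (P2 := 0) (W2 := 1230186008) (P3 := 201326592) (W3 := 134217728)
    rfl (fun _ => rfl) k0_mm_123

noncomputable def f_mm_133 : ℕ → ℕ → ℕ → ℕ → Bool := onCell 1610612736 536870912 0 1230186008 201326592 134217728
    (rowF 2 false false false .dn 1 3 3 (qsf 536870912 536870912 0 1230186008 3) ndF0q1 ndF4q3 pcF3 Cut.none Ext.none)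

def k0_mm_133 : ∃ t, chk3 f_mm_133 t 1 1 1 = true :=
  ⟨(l 5), by decide +kernel⟩

theorem c_mm_133 : CertF 536870912 536870912 0 1230186008 201326592 134217728 false false false .dn 1 3 3
    ndF0q1 ndF4q3 pcF3 Cut.none Ext.none :=
  certF2 (fam := false) (s1 := false) (s2 := false) (a := 1) (b := 3) (c := 3) (cn := .dn) (n1 := ndF0q1) (n2 := ndF4q3) (pc := pcF3) (cut := Cut.none) (xt := Ext.none) (P1 := 536870912) (W1 := 536870912) (P2 := 0) (W2 := 1230186008) (P3 := 201326592) (W3 := 134217728)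
    rfl (fun _ => rfl) k0_mm_133

noncomputable def f_mm_202 : ℕ → ℕ → ℕ → ℕ → Bool := onCell 0 536870912 0 536870912 201326592 134217728
    (rowF 1 false false false .pp 2 0 2 (qsf 0 536870912 1073741824 536870912 0) ndF0q2 ndF4q2 pcF0 Cut.none Ext.none)

def k0_mm_202 : ∃ t, chk3 f_mm_202 t 1 1 1 = true :=
  ⟨(b (a (b (a (b (a (b (b (b (a (l 16645512) (a (c (l 149954489863) (l 150491398967)) (l 3))) (a (c (l 16611296) (l 16605296)) (c (l 148343774423) (l 151564977127)))) (c (a (a (l 16569384) (l 16567936)) (l 149417454279)) (a (a (l 16562728) (l 16559136)) (l 152101834199)))) (a (c (a (b (l 16523496) (l 16508304)) (l 121500214599)) (b (l 16564592) (l 16595000))) (b (c (l 151564931287) (l 153175556119)) (l 3)))) (l 3)) (a (c (a (b (a (l 132774791015) (l 153175699383)) (l 156397376551)) (l 3)) (a (b (a (l 130626910871) (l 167134122535)) (l 175723994647)) (l 3))) (l 3))) (l 3)) (l 3)) (l 3)) (l 3)), by decide +kernel⟩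

theorem c_mm_202 : CertF 0 536870912 1073741824 536870912 201326592 134217728 false false false .pp 2 0 2
    ndF0q2 ndF4q2 pcF0 Cut.none Ext.none :=
  certF1 (fam := false) (s1 := false) (s2 := false) (a := 2) (b := 0) (c := 2) (cn := .pp) (n1 := ndF0q2) (n2 := ndF4q2) (pc := pcF0) (cut := Cut.none) (xt := Ext.none) (P1 := 0) (W1 := 536870912) (P2 := 1073741824) (W2 := 536870912) (P3 := 201326592) (W3 := 134217728)
    rfl (fun _ => rfl) k0_mm_202

noncomputable def f_mm_203 : ℕ → ℕ → ℕ → ℕ → Bool := onCell 0 536870912 0 1230186008 201326592 134217728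
    (rowF 0 false false false .up 2 0 3 (qsf 0 536870912 0 1230186008 0) ndF0q2 ndF4q3 pcF0 Cut.none Ext.none)

def k0_mm_203 : ∃ t, chk3 f_mm_203 t 1 1 1 = true :=
  ⟨(b (l 2) (b (l 2) (l 3))), by decide +kernel⟩

theorem c_mm_203 : CertF 0 536870912 0 1230186008 201326592 134217728 false false false .up 2 0 3
    ndF0q2 ndF4q3 pcF0 Cut.none Ext.none :=
  certF0 (fam := false) (s1 := false) (s2 := false) (a := 2) (b := 0) (c := 3) (cn := .up) (n1 := ndF0q2) (n2 := ndF4q3) (pc := pcF0) (cut := Cut.none) (xt := Ext.none) (P1 := 0) (W1 := 536870912) (P2 := 0) (W2 := 1230186008) (P3 := 201326592) (W3 := 134217728)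
    rfl k0_mm_203

noncomputable def f_mm_213 : ℕ → ℕ → ℕ → ℕ → Bool := onCell 0 536870912 0 1230186008 201326592 134217728
    (rowF 0 false false false .pnn 2 1 3 (qsf 0 536870912 0 1230186008 1) ndF0q2 ndF4q3 pcF1 Cut.none Ext.none)

def k0_mm_213 : ∃ t, chk3 f_mm_213 t 1 1 1 = true :=
  ⟨(b (a (l 3) (b (l 5) (l 3))) (b (l 3) (l 3))), by decide +kernel⟩

theorem c_mm_213 : CertF 0 536870912 0 1230186008 201326592 134217728 false false false .pnn 2 1 3
    ndF0q2 ndF4q3 pcF1 Cut.none Ext.none :=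
  certF0 (fam := false) (s1 := false) (s2 := false) (a := 2) (b := 1) (c := 3) (cn := .pnn) (n1 := ndF0q2) (n2 := ndF4q3) (pc := pcF1) (cut := Cut.none) (xt := Ext.none) (P1 := 0) (W1 := 536870912) (P2 := 0) (W2 := 1230186008) (P3 := 201326592) (W3 := 134217728)
    rfl k0_mm_213

end Pool.Agent.Strip051.G.I3_16_5_16.Tab.C.FB04

namespace Pool.Agent.Strip051.G.I3_16_5_16.Tab.C.FB05

open Pool.Agent.Strip051.PB Pool.Agent.Strip051.PB.T
open Pool.Agent.Strip051.G.I3_16_5_16.Tab

noncomputable def cut_pp_001 : Cut := Cut.of [[⟨3, 0, 0, 1449551462⟩]]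

noncomputable def f_pp_001 : ℕ → ℕ → ℕ → ℕ → Bool := onCell 0 536870912 536870912 536870912 201326592 134217728
    (rowF 0 false true true .up 0 0 1 (qsf 0 536870912 536870912 536870912 0) ndF0q0 ndF5q1 pcF0 cut_pp_001 Ext.none)

def k0_pp_001 : ∃ t, chk3 f_pp_001 t 1 1 1 = true :=
  ⟨(l 6), by decide +kernel⟩

theorem c_pp_001 : CertF 0 536870912 536870912 536870912 201326592 134217728 false true true .up 0 0 1
    ndF0q0 ndF5q1 pcF0 cut_pp_001 Ext.none :=
  certF0 (fam := false) (s1 := true) (s2 := true) (a := 0) (b := 0) (c := 1) (cn := .up) (n1 := ndF0q0) (n2 := ndF5q1) (pc := pcF0) (cut := cut_pp_001) (xt := Ext.none) (P1 := 0) (W1 := 536870912) (P2 := 536870912) (W2 := 536870912) (P3 := 201326592) (W3 := 134217728)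
    rfl k0_pp_001

noncomputable def cut_pp_011 : Cut := Cut.of [[⟨3, 0, 0, 1449551462⟩], [⟨0, 0, 0, 67108864⟩, ⟨1, 1, 0, 67108864⟩, ⟨2, 1, 0, 67108864⟩]]

noncomputable def f_pp_011 : ℕ → ℕ → ℕ → ℕ → Bool := onCell 0 536870912 536870912 536870912 201326592 134217728
    (rowF 0 false true true .pnn 0 1 1 (qsf 0 536870912 536870912 536870912 1) ndF0q0 ndF5q1 pcF1 cut_pp_011 Ext.none)

def k0_pp_011 : ∃ t, chk3 f_pp_011 t 1 1 1 = true :=
  ⟨(l 6), by decide +kernel⟩

theorem c_pp_011 : CertF 0 536870912 536870912 536870912 201326592 134217728 false true true .pnn 0 1 1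
    ndF0q0 ndF5q1 pcF1 cut_pp_011 Ext.none :=
  certF0 (fam := false) (s1 := true) (s2 := true) (a := 0) (b := 1) (c := 1) (cn := .pnn) (n1 := ndF0q0) (n2 := ndF5q1) (pc := pcF1) (cut := cut_pp_011) (xt := Ext.none) (P1 := 0) (W1 := 536870912) (P2 := 536870912) (W2 := 536870912) (P3 := 201326592) (W3 := 134217728)
    rfl k0_pp_011

noncomputable def cut_pp_012 : Cut := Cut.of [[⟨3, 0, 0, 1449551462⟩], [⟨0, 0, 0, 67108864⟩, ⟨1, 1, 0, 67108864⟩, ⟨2, 1, 0, 67108864⟩]]

noncomputable def f_pp_012 : ℕ → ℕ → ℕ → ℕ → Bool := onCell 0 536870912 536870912 536870912 201326592 134217728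
    (rowF 1 false true true .pnp 0 1 2 (qsf 0 536870912 1073741824 536870912 1) ndF0q0 ndF5q2 pcF1 cut_pp_012 Ext.none)

def k0_pp_012 : ∃ t, chk3 f_pp_012 t 1 1 1 = true :=
  ⟨(l 6), by decide +kernel⟩

theorem c_pp_012 : CertF 0 536870912 1073741824 536870912 201326592 134217728 false true true .pnp 0 1 2
    ndF0q0 ndF5q2 pcF1 cut_pp_012 Ext.none :=
  certF1 (fam := false) (s1 := true) (s2 := true) (a := 0) (b := 1) (c := 2) (cn := .pnp) (n1 := ndF0q0) (n2 := ndF5q2) (pc := pcF1) (cut := cut_pp_012) (xt := Ext.none) (P1 := 0) (W1 := 536870912) (P2 := 1073741824) (W2 := 536870912) (P3 := 201326592) (W3 := 134217728)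
    rfl (fun _ => rfl) k0_pp_012

noncomputable def cut_pp_022 : Cut := Cut.of [[⟨3, 0, 0, 1449551462⟩], [⟨0, 0, 0, 67108864⟩, ⟨1, 1, 0, 67108864⟩, ⟨2, 1, 0, 67108864⟩]]

noncomputable def f_pp_022 : ℕ → ℕ → ℕ → ℕ → Bool := onCell 0 536870912 1073741824 536870912 201326592 134217728
    (rowF 0 false true true .pp 0 2 2 (qsf 0 536870912 1073741824 536870912 2) ndF0q0 ndF5q2 pcF2 cut_pp_022 Ext.none)

def k0_pp_022 : ∃ t, chk3 f_pp_022 t 1 1 1 = true :=
  ⟨(a (b (l 6) (b (a (a (a (b (c (b (l 6) (l 17284504)) (l 16434456)) (c (l 17577472) (l 16936176))) (b (l 6) (c (l 17459216) (l 16898824)))) (a (b (l 6) (b (l 6) (l 17156920))) (l 6))) (l 6)) (a (b (a (c (l 17758224) (b (l 17188328) (l 17321568))) (c (l 17513488) (b (l 17063032) (l 17177968)))) (a (l 17678592) (l 17490240))) (b (l 6) (a (c (l 17442824) (l 17169240)) (l 6)))))) (l 6)), by decide +kernel⟩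

theorem c_pp_022 : CertF 0 536870912 1073741824 536870912 201326592 134217728 false true true .pp 0 2 2
    ndF0q0 ndF5q2 pcF2 cut_pp_022 Ext.none :=
  certF0 (fam := false) (s1 := true) (s2 := true) (a := 0) (b := 2) (c := 2) (cn := .pp) (n1 := ndF0q0) (n2 := ndF5q2) (pc := pcF2) (cut := cut_pp_022) (xt := Ext.none) (P1 := 0) (W1 := 536870912) (P2 := 1073741824) (W2 := 536870912) (P3 := 201326592) (W3 := 134217728)
    rfl k0_pp_022

noncomputable def cut_pp_023 : Cut := Cut.of [[⟨3, 0, 0, 1449551462⟩]]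

noncomputable def f_pp_023 : ℕ → ℕ → ℕ → ℕ → Bool := onCell 1073741824 536870912 0 1230186008 201326592 134217728
    (rowF 2 false true true .up 0 2 3 (qsf 0 536870912 0 1230186008 2) ndF0q0 ndF5q3 pcF2 cut_pp_023 Ext.none)

def k0_pp_023 : ∃ t, chk3 f_pp_023 t 1 1 1 = true :=
  ⟨(b (a (l 2) (a (l 2) (a (b (l 2) (b (l 298601967111) (a (l 17120376) (l 17154344)))) (b (l 264242627015) (b (l 17129000) (l 17279496)))))) (a (l 6) (b (a (b (a (l 2) (b (l 17110152) (l 17133424))) (a (l 6) (b (l 17150928) (l 17173552)))) (a (b (b (l 17195592) (l 17236904)) (b (l 17270176) (l 17301320))) (b (l 17481408) (l 17438568)))) (b (a (a (l 6) (b (l 17206064) (l 17243888))) (a (b (l 17337248) (l 17384256)) (b (l 17460104) (l 17517104)))) (a (a (l 6) (b (l 17290776) (b (l 17331304) (l 17360848)))) (b (a (l 17443968) (l 17591616)) (a (l 17516392) (l 17685856)))))))), by decide +kernel⟩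

theorem c_pp_023 : CertF 0 536870912 0 1230186008 201326592 134217728 false true true .up 0 2 3
    ndF0q0 ndF5q3 pcF2 cut_pp_023 Ext.none :=
  certF2 (fam := false) (s1 := true) (s2 := true) (a := 0) (b := 2) (c := 3) (cn := .up) (n1 := ndF0q0) (n2 := ndF5q3) (pc := pcF2) (cut := cut_pp_023) (xt := Ext.none) (P1 := 0) (W1 := 536870912) (P2 := 0) (W2 := 1230186008) (P3 := 201326592) (W3 := 134217728)
    rfl (fun _ => rfl) k0_pp_023

noncomputable def cut_pp_033 : Cut := Cut.of [[⟨3, 0, 0, 1449551462⟩]]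

noncomputable def f_pp_033 : ℕ → ℕ → ℕ → ℕ → Bool := onCell 1610612736 536870912 0 1230186008 201326592 134217728
    (rowF 2 false true true .pnn 0 3 3 (qsf 0 536870912 0 1230186008 3) ndF0q0 ndF5q3 pcF3 cut_pp_033 Ext.none)

def k0_pp_033 : ∃ t, chk3 f_pp_033 t 1 1 1 = true :=
  ⟨(a (b (a (b (a (b (l 17060032) (l 17006032)) (b (l 17192048) (l 17129408))) (b (a (l 17055080) (l 17163272)) (a (l 17283192) (l 17303928)))) (b (a (b (l 17296920) (l 17226944)) (l 17274048)) (a (b (l 17218472) (l 17300056)) (b (l 17304192) (l 17380560))))) (b (a (b (b (a (l 17323536) (l 17393920)) (l 17666352)) (b (l 17446584) (l 17501920))) (b (a (b (l 17419856) (l 17552696)) (b (l 17435472) (l 17583904))) (b (a (l 17615448) (l 17703688)) (l 17715392)))) (b (a (b (l 17589312) (l 17695584)) (b (l 17814368) (l 17937032))) (b (a (a (l 17747632) (l 17886864)) (l 18093392)) (a (c (l 18170240) (l 17716624)) (l 1)))))) (b (b (a (a (l 17420648) (l 17408304)) (l 4)) (a (a (a (l 17399280) (l 17567280))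 (b (l 17414248) (l 17468936))) (a (l 17631792) (a (l 17576824) (l 4))))) (b (a (a (b (l 17753552) (b (l 17754928) (l 17875480))) (b (a (l 17609496) (l 17617712)) (b (l 17775200) (l 1)))) (a (b (l 17663520) (l 1)) (l 1))) (l 1)))), by decide +kernel⟩

theorem c_pp_033 : CertF 0 536870912 0 1230186008 201326592 134217728 false true true .pnn 0 3 3
    ndF0q0 ndF5q3 pcF3 cut_pp_033 Ext.none :=
  certF2 (fam := false) (s1 := true) (s2 := true) (a := 0) (b := 3) (c := 3) (cn := .pnn) (n1 := ndF0q0) (n2 := ndF5q3) (pc := pcF3) (cut := cut_pp_033) (xt := Ext.none) (P1 := 0) (W1 := 536870912) (P2 := 0) (W2 := 1230186008) (P3 := 201326592) (W3 := 134217728)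
    rfl (fun _ => rfl) k0_pp_033

noncomputable def cut_pp_101 : Cut := Cut.of [[⟨3, 0, 0, 1449551462⟩]]

noncomputable def f_pp_101 : ℕ → ℕ → ℕ → ℕ → Bool := onCell 536870912 536870912 0 536870912 201326592 134217728
    (rowF 1 false true true .npn 1 0 1 (qsf 536870912 536870912 536870912 536870912 0) ndF0q1 ndF5q1 pcF0 cut_pp_101 Ext.none)

def k0_pp_101 : ∃ t, chk3 f_pp_101 t 1 1 1 = true :=
  ⟨(l 6), by decide +kernel⟩

theorem c_pp_101 : CertF 536870912 536870912 536870912 536870912 201326592 134217728 false true true .npn 1 0 1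
    ndF0q1 ndF5q1 pcF0 cut_pp_101 Ext.none :=
  certF1 (fam := false) (s1 := true) (s2 := true) (a := 1) (b := 0) (c := 1) (cn := .npn) (n1 := ndF0q1) (n2 := ndF5q1) (pc := pcF0) (cut := cut_pp_101) (xt := Ext.none) (P1 := 536870912) (W1 := 536870912) (P2 := 536870912) (W2 := 536870912) (P3 := 201326592) (W3 := 134217728)
    rfl (fun _ => rfl) k0_pp_101

noncomputable def cut_pp_102 : Cut := Cut.of [[⟨3, 0, 0, 1449551462⟩]]

noncomputable def f_pp_102 : ℕ → ℕ → ℕ → ℕ → Bool := onCell 536870912 536870912 1073741824 536870912 201326592 134217728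
    (rowF 0 false true true .npp 1 0 2 (qsf 536870912 536870912 1073741824 536870912 0) ndF0q1 ndF5q2 pcF0 cut_pp_102 Ext.none)

def k0_pp_102 : ∃ t, chk3 f_pp_102 t 1 1 1 = true :=
  ⟨(l 6), by decide +kernel⟩

theorem c_pp_102 : CertF 536870912 536870912 1073741824 536870912 201326592 134217728 false true true .npp 1 0 2
    ndF0q1 ndF5q2 pcF0 cut_pp_102 Ext.none :=
  certF0 (fam := false) (s1 := true) (s2 := true) (a := 1) (b := 0) (c := 2) (cn := .npp) (n1 := ndF0q1) (n2 := ndF5q2) (pc := pcF0) (cut := cut_pp_102) (xt := Ext.none) (P1 := 536870912) (W1 := 536870912) (P2 := 1073741824) (W2 := 536870912) (P3 := 201326592) (W3 := 134217728)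
    rfl k0_pp_102

noncomputable def cut_pp_112 : Cut := Cut.of [[⟨3, 0, 0, 1449551462⟩]]

noncomputable def f_pp_112 : ℕ → ℕ → ℕ → ℕ → Bool := onCell 536870912 536870912 1073741824 536870912 201326592 134217728
    (rowF 0 false true true .dn 1 1 2 (qsf 536870912 536870912 1073741824 536870912 1) ndF0q1 ndF5q2 pcF1 cut_pp_112 Ext.none)

def k0_pp_112 : ∃ t, chk3 f_pp_112 t 1 1 1 = true :=
  ⟨(l 6), by decide +kernel⟩

theorem c_pp_112 : CertF 536870912 536870912 1073741824 536870912 201326592 134217728 false true true .dn 1 1 2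
    ndF0q1 ndF5q2 pcF1 cut_pp_112 Ext.none :=
  certF0 (fam := false) (s1 := true) (s2 := true) (a := 1) (b := 1) (c := 2) (cn := .dn) (n1 := ndF0q1) (n2 := ndF5q2) (pc := pcF1) (cut := cut_pp_112) (xt := Ext.none) (P1 := 536870912) (W1 := 536870912) (P2 := 1073741824) (W2 := 536870912) (P3 := 201326592) (W3 := 134217728)
    rfl k0_pp_112

noncomputable def cut_pp_113 : Cut := Cut.of [[⟨3, 0, 0, 1449551462⟩], [⟨0, 1, 0, 57167902⟩, ⟨1, 1, 0, 57167902⟩, ⟨2, 2, 0, 11758673⟩]]

noncomputable def f_pp_113 : ℕ → ℕ → ℕ → ℕ → Bool := onCell 536870912 536870912 0 1230186008 201326592 134217728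
    (rowF 0 false true true .nn 1 1 3 (qsf 536870912 536870912 0 1230186008 1) ndF0q1 ndF5q3 pcF1 cut_pp_113 Ext.none)

def k0_pp_113 : ∃ t, chk3 f_pp_113 t 1 1 1 = true :=
  ⟨(b (a (l 2) (a (l 2) (b (a (l 2) (l 6)) (l 6)))) (a (b (a (l 2) (l 6)) (l 6)) (l 6))), by decide +kernel⟩

theorem c_pp_113 : CertF 536870912 536870912 0 1230186008 201326592 134217728 false true true .nn 1 1 3
    ndF0q1 ndF5q3 pcF1 cut_pp_113 Ext.none :=
  certF0 (fam := false) (s1 := true) (s2 := true) (a := 1) (b := 1) (c := 3) (cn := .nn) (n1 := ndF0q1) (n2 := ndF5q3) (pc := pcF1) (cut := cut_pp_113) (xt := Ext.none) (P1 := 536870912) (W1 := 536870912) (P2 := 0) (W2 := 1230186008) (P3 := 201326592) (W3 := 134217728)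
    rfl k0_pp_113

noncomputable def cut_pp_123 : Cut := Cut.of [[⟨3, 0, 0, 1449551462⟩], [⟨0, 1, 0, 57167902⟩, ⟨1, 1, 0, 57167902⟩, ⟨2, 2, 0, 11758673⟩]]

noncomputable def f_pp_123 : ℕ → ℕ → ℕ → ℕ → Bool := onCell 1073741824 536870912 0 1230186008 201326592 134217728
    (rowF 2 false true true .npn 1 2 3 (qsf 536870912 536870912 0 1230186008 2) ndF0q1 ndF5q3 pcF2 cut_pp_123 Ext.none)

def k0_pp_123 : ∃ t, chk3 f_pp_123 t 1 1 1 = true :=
  ⟨(b (b (a (b (a (a (l 6) (a (l 6) (a (l 6) (l 16865504)))) (a (a (a (l 16884416) (a (l 16896616) (l 16903976))) (l 16917408)) (l 17142960))) (a (l 6) (a (a (l 6) (l 16875928)) (l 17169688)))) (a (a (b (l 17006112) (l 16970280)) (b (l 17059480) (l 16987736))) (a (a (l 17211320) (l 17153896)) (b (l 17287920) (l 17172056))))) (a (b (a (l 6) (a (l 6) (a (l 6) (l 16928296)))) (l 6)) (a (a (b (l 17082608) (l 17023928)) (b (l 17109360) (b (l 17059376) (l 17084944)))) (a (b (a (l 17036504) (l 17064016)) (a (l 17120432) (l 17154560))) (b (l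 17129376) (l 17217976)))))) (a (l 6) (b (a (b (a (b (l 17022768) (l 6)) (b (l 17110200) (l 17133712))) (a (l 6) (b (l 17151792) (l 1)))) (a (b (l 242700595623) (l 1)) (l 1))) (l 1)))), by decide +kernel⟩

theorem c_pp_123 : CertF 536870912 536870912 0 1230186008 201326592 134217728 false true true .npn 1 2 3
    ndF0q1 ndF5q3 pcF2 cut_pp_123 Ext.none :=
  certF2 (fam := false) (s1 := true) (s2 := true) (a := 1) (b := 2) (c := 3) (cn := .npn) (n1 := ndF0q1) (n2 := ndF5q3) (pc := pcF2) (cut := cut_pp_123) (xt := Ext.none) (P1 := 536870912) (W1 := 536870912) (P2 := 0) (W2 := 1230186008) (P3 := 201326592) (W3 := 134217728)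
    rfl (fun _ => rfl) k0_pp_123

noncomputable def cut_pp_133 : Cut := Cut.of [[⟨3, 0, 0, 1449551462⟩]]

noncomputable def f_pp_133 : ℕ → ℕ → ℕ → ℕ → Bool := onCell 536870912 536870912 0 1230186008 201326592 134217728
    (rowF 0 false true true .dn 1 3 3 (qsf 536870912 536870912 0 1230186008 3) ndF0q1 ndF5q3 pcF3 cut_pp_133 Ext.none)

def k0_pp_133 : ∃ t, chk3 f_pp_133 t 1 1 1 = true :=
  ⟨(b (b (a (a (a (b (l 16929216) (l 1)) (l 1)) (l 1)) (l 1)) (l 1)) (l 1)), by decide +kernel⟩

theorem c_pp_133 : CertF 536870912 536870912 0 1230186008 201326592 134217728 false true true .dn 1 3 3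
    ndF0q1 ndF5q3 pcF3 cut_pp_133 Ext.none :=
  certF0 (fam := false) (s1 := true) (s2 := true) (a := 1) (b := 3) (c := 3) (cn := .dn) (n1 := ndF0q1) (n2 := ndF5q3) (pc := pcF3) (cut := cut_pp_133) (xt := Ext.none) (P1 := 536870912) (W1 := 536870912) (P2 := 0) (W2 := 1230186008) (P3 := 201326592) (W3 := 134217728)
    rfl k0_pp_133

noncomputable def cut_pp_202 : Cut := Cut.of [[⟨3, 0, 0, 1449551462⟩]]

noncomputable def f_pp_202 : ℕ → ℕ → ℕ → ℕ → Bool := onCell 0 536870912 1073741824 536870912 201326592 134217728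
    (rowF 0 false true true .pp 2 0 2 (qsf 0 536870912 1073741824 536870912 0) ndF0q2 ndF5q2 pcF0 cut_pp_202 Ext.none)

def k0_pp_202 : ∃ t, chk3 f_pp_202 t 1 1 1 = true :=
  ⟨(l 5), by decide +kernel⟩

theorem c_pp_202 : CertF 0 536870912 1073741824 536870912 201326592 134217728 false true true .pp 2 0 2
    ndF0q2 ndF5q2 pcF0 cut_pp_202 Ext.none :=
  certF0 (fam := false) (s1 := true) (s2 := true) (a := 2) (b := 0) (c := 2) (cn := .pp) (n1 := ndF0q2) (n2 := ndF5q2) (pc := pcF0) (cut := cut_pp_202) (xt := Ext.none) (P1 := 0) (W1 := 536870912) (P2 := 1073741824) (W2 := 536870912) (P3 := 201326592) (W3 := 134217728)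
    rfl k0_pp_202

noncomputable def cut_pp_203 : Cut := Cut.of [[⟨3, 0, 0, 1449551462⟩]]

noncomputable def f_pp_203 : ℕ → ℕ → ℕ → ℕ → Bool := onCell 0 536870912 0 1230186008 201326592 134217728
    (rowF 0 false true true .up 2 0 3 (qsf 0 536870912 0 1230186008 0) ndF0q2 ndF5q3 pcF0 cut_pp_203 Ext.none)

def k0_pp_203 : ∃ t, chk3 f_pp_203 t 1 1 1 = true :=
  ⟨(b (l 2) (a (l 5) (l 6))), by decide +kernel⟩

theorem c_pp_203 : CertF 0 536870912 0 1230186008 201326592 134217728 false true true .up 2 0 3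
    ndF0q2 ndF5q3 pcF0 cut_pp_203 Ext.none :=
  certF0 (fam := false) (s1 := true) (s2 := true) (a := 2) (b := 0) (c := 3) (cn := .up) (n1 := ndF0q2) (n2 := ndF5q3) (pc := pcF0) (cut := cut_pp_203) (xt := Ext.none) (P1 := 0) (W1 := 536870912) (P2 := 0) (W2 := 1230186008) (P3 := 201326592) (W3 := 134217728)
    rfl k0_pp_203

noncomputable def cut_pp_213 : Cut := Cut.of [[⟨3, 0, 0, 1449551462⟩], [⟨0, 1, 0, 57167902⟩, ⟨1, 1, 0, 57167902⟩, ⟨2, 2, 0, 11758673⟩]]

noncomputable def f_pp_213 : ℕ → ℕ → ℕ → ℕ → Bool := onCell 0 536870912 0 1230186008 201326592 134217728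
    (rowF 0 false true true .pnn 2 1 3 (qsf 0 536870912 0 1230186008 1) ndF0q2 ndF5q3 pcF1 cut_pp_213 Ext.none)

def k0_pp_213 : ∃ t, chk3 f_pp_213 t 1 1 1 = true :=
  ⟨(b (l 6) (a (l 5) (l 6))), by decide +kernel⟩

theorem c_pp_213 : CertF 0 536870912 0 1230186008 201326592 134217728 false true true .pnn 2 1 3
    ndF0q2 ndF5q3 pcF1 cut_pp_213 Ext.none :=
  certF0 (fam := false) (s1 := true) (s2 := true) (a := 2) (b := 1) (c := 3) (cn := .pnn) (n1 := ndF0q2) (n2 := ndF5q3) (pc := pcF1) (cut := cut_pp_213) (xt := Ext.none) (P1 := 0) (W1 := 536870912) (P2 := 0) (W2 := 1230186008) (P3 := 201326592) (W3 := 134217728)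
    rfl k0_pp_213

noncomputable def cut_pm_001 : Cut := Cut.of [[⟨3, 0, 0, 1449551462⟩]]

noncomputable def f_pm_001 : ℕ → ℕ → ℕ → ℕ → Bool := onCell 0 536870912 536870912 536870912 201326592 134217728
    (rowF 0 false true false .up 0 0 1 (qsf 0 536870912 536870912 536870912 0) ndF0q0 ndF5q1 pcF0 cut_pm_001 Ext.none)

def k0_pm_001 : ∃ t, chk3 f_pm_001 t 1 1 1 = true :=
  ⟨(l 4), by decide +kernel⟩

theorem c_pm_001 : CertF 0 536870912 536870912 536870912 201326592 134217728 false true false .up 0 0 1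
    ndF0q0 ndF5q1 pcF0 cut_pm_001 Ext.none :=
  certF0 (fam := false) (s1 := true) (s2 := false) (a := 0) (b := 0) (c := 1) (cn := .up) (n1 := ndF0q0) (n2 := ndF5q1) (pc := pcF0) (cut := cut_pm_001) (xt := Ext.none) (P1 := 0) (W1 := 536870912) (P2 := 536870912) (W2 := 536870912) (P3 := 201326592) (W3 := 134217728)
    rfl k0_pm_001

noncomputable def cut_pm_011 : Cut := Cut.of [[⟨3, 0, 0, 1449551462⟩]]

noncomputable def f_pm_011 : ℕ → ℕ → ℕ → ℕ → Bool := onCell 0 536870912 536870912 536870912 201326592 134217728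
    (rowF 0 false true false .pnn 0 1 1 (qsf 0 536870912 536870912 536870912 1) ndF0q0 ndF5q1 pcF1 cut_pm_011 Ext.none)

def k0_pm_011 : ∃ t, chk3 f_pm_011 t 1 1 1 = true :=
  ⟨(l 4), by decide +kernel⟩

theorem c_pm_011 : CertF 0 536870912 536870912 536870912 201326592 134217728 false true false .pnn 0 1 1
    ndF0q0 ndF5q1 pcF1 cut_pm_011 Ext.none :=
  certF0 (fam := false) (s1 := true) (s2 := false) (a := 0) (b := 1) (c := 1) (cn := .pnn) (n1 := ndF0q0) (n2 := ndF5q1) (pc := pcF1) (cut := cut_pm_011) (xt := Ext.none) (P1 := 0) (W1 := 536870912) (P2 := 536870912) (W2 := 536870912) (P3 := 201326592) (W3 := 134217728)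
    rfl k0_pm_011

noncomputable def cut_pm_012 : Cut := Cut.of [[⟨3, 0, 0, 1449551462⟩]]

noncomputable def f_pm_012 : ℕ → ℕ → ℕ → ℕ → Bool := onCell 0 536870912 1073741824 536870912 201326592 134217728
    (rowF 0 false true false .pnp 0 1 2 (qsf 0 536870912 1073741824 536870912 1) ndF0q0 ndF5q2 pcF1 cut_pm_012 Ext.none)

def k0_pm_012 : ∃ t, chk3 f_pm_012 t 1 1 1 = true :=
  ⟨(l 4), by decide +kernel⟩

theorem c_pm_012 : CertF 0 536870912 1073741824 536870912 201326592 134217728 false true false .pnp 0 1 2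
    ndF0q0 ndF5q2 pcF1 cut_pm_012 Ext.none :=
  certF0 (fam := false) (s1 := true) (s2 := false) (a := 0) (b := 1) (c := 2) (cn := .pnp) (n1 := ndF0q0) (n2 := ndF5q2) (pc := pcF1) (cut := cut_pm_012) (xt := Ext.none) (P1 := 0) (W1 := 536870912) (P2 := 1073741824) (W2 := 536870912) (P3 := 201326592) (W3 := 134217728)
    rfl k0_pm_012

noncomputable def cut_pm_022 : Cut := Cut.of [[⟨3, 0, 0, 1449551462⟩]]

noncomputable def f_pm_022 : ℕ → ℕ → ℕ → ℕ → Bool := onCell 0 536870912 1073741824 536870912 201326592 134217728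
    (rowF 0 false true false .pp 0 2 2 (qsf 0 536870912 1073741824 536870912 2) ndF0q0 ndF5q2 pcF2 cut_pm_022 Ext.none)

def k0_pm_022 : ∃ t, chk3 f_pm_022 t 1 1 1 = true :=
  ⟨(l 4), by decide +kernel⟩

theorem c_pm_022 : CertF 0 536870912 1073741824 536870912 201326592 134217728 false true false .pp 0 2 2
    ndF0q0 ndF5q2 pcF2 cut_pm_022 Ext.none :=
  certF0 (fam := false) (s1 := true) (s2 := false) (a := 0) (b := 2) (c := 2) (cn := .pp) (n1 := ndF0q0) (n2 := ndF5q2) (pc := pcF2) (cut := cut_pm_022) (xt := Ext.none) (P1 := 0) (W1 := 536870912) (P2 := 1073741824) (W2 := 536870912) (P3 := 201326592) (W3 := 134217728)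
    rfl k0_pm_022

noncomputable def cut_pm_023 : Cut := Cut.of [[⟨3, 0, 0, 1449551462⟩]]

noncomputable def f_pm_023 : ℕ → ℕ → ℕ → ℕ → Bool := onCell 0 536870912 0 1230186008 201326592 134217728
    (rowF 0 false true false .up 0 2 3 (qsf 0 536870912 0 1230186008 2) ndF0q0 ndF5q3 pcF2 cut_pm_023 Ext.none)

def k0_pm_023 : ∃ t, chk3 f_pm_023 t 1 1 1 = true :=
  ⟨(a (b (l 2) (l 4)) (b (a (l 2) (b (a (l 2) (l 17395280)) (a (l 4) (l 4)))) (l 4))), by decide +kernel⟩

theorem c_pm_023 : CertF 0 536870912 0 1230186008 201326592 134217728 false true false .up 0 2 3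
    ndF0q0 ndF5q3 pcF2 cut_pm_023 Ext.none :=
  certF0 (fam := false) (s1 := true) (s2 := false) (a := 0) (b := 2) (c := 3) (cn := .up) (n1 := ndF0q0) (n2 := ndF5q3) (pc := pcF2) (cut := cut_pm_023) (xt := Ext.none) (P1 := 0) (W1 := 536870912) (P2 := 0) (W2 := 1230186008) (P3 := 201326592) (W3 := 134217728)
    rfl k0_pm_023

noncomputable def cut_pm_033 : Cut := Cut.of [[⟨3, 0, 0, 1449551462⟩]]

noncomputable def f_pm_033 : ℕ → ℕ → ℕ → ℕ → Bool := onCell 1610612736 536870912 0 1230186008 201326592 134217728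
    (rowF 2 false true false .pnn 0 3 3 (qsf 0 536870912 0 1230186008 3) ndF0q0 ndF5q3 pcF3 cut_pm_033 Ext.none)

def k0_pm_033 : ∃ t, chk3 f_pm_033 t 1 1 1 = true :=
  ⟨(b (b (a (a (a (b (l 17218416) (l 17376328)) (l 17523784)) (a (l 17325608) (l 4))) (l 4)) (l 4)) (l 4)), by decide +kernel⟩

theorem c_pm_033 : CertF 0 536870912 0 1230186008 201326592 134217728 false true false .pnn 0 3 3
    ndF0q0 ndF5q3 pcF3 cut_pm_033 Ext.none :=
  certF2 (fam := false) (s1 := true) (s2 := false) (a := 0) (b := 3) (c := 3) (cn := .pnn) (n1 := ndF0q0) (n2 := ndF5q3) (pc := pcF3) (cut := cut_pm_033) (xt := Ext.none) (P1 := 0) (W1 := 536870912) (P2 := 0) (W2 := 1230186008) (P3 := 201326592) (W3 := 134217728)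
    rfl (fun _ => rfl) k0_pm_033

noncomputable def cut_pm_101 : Cut := Cut.of [[⟨3, 0, 0, 1449551462⟩]]

noncomputable def f_pm_101 : ℕ → ℕ → ℕ → ℕ → Bool := onCell 536870912 536870912 536870912 536870912 201326592 134217728
    (rowF 0 false true false .npn 1 0 1 (qsf 536870912 536870912 536870912 536870912 0) ndF0q1 ndF5q1 pcF0 cut_pm_101 Ext.none)

def k0_pm_101 : ∃ t, chk3 f_pm_101 t 1 1 1 = true :=
  ⟨(l 4), by decide +kernel⟩

theorem c_pm_101 : CertF 536870912 536870912 536870912 536870912 201326592 134217728 false true false .npn 1 0 1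
    ndF0q1 ndF5q1 pcF0 cut_pm_101 Ext.none :=
  certF0 (fam := false) (s1 := true) (s2 := false) (a := 1) (b := 0) (c := 1) (cn := .npn) (n1 := ndF0q1) (n2 := ndF5q1) (pc := pcF0) (cut := cut_pm_101) (xt := Ext.none) (P1 := 536870912) (W1 := 536870912) (P2 := 536870912) (W2 := 536870912) (P3 := 201326592) (W3 := 134217728)
    rfl k0_pm_101

noncomputable def cut_pm_102 : Cut := Cut.of [[⟨3, 0, 0, 1449551462⟩]]

noncomputable def f_pm_102 : ℕ → ℕ → ℕ → ℕ → Bool := onCell 536870912 536870912 0 536870912 201326592 134217728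
    (rowF 1 false true false .npp 1 0 2 (qsf 536870912 536870912 1073741824 536870912 0) ndF0q1 ndF5q2 pcF0 cut_pm_102 Ext.none)

def k0_pm_102 : ∃ t, chk3 f_pm_102 t 1 1 1 = true :=
  ⟨(a (l 4) (b (l 4) (b (l 4) (a (l 4) (a (l 4) (b (l 4) (c (l 17886864) (l 17675640)))))))), by decide +kernel⟩

theorem c_pm_102 : CertF 536870912 536870912 1073741824 536870912 201326592 134217728 false true false .npp 1 0 2
    ndF0q1 ndF5q2 pcF0 cut_pm_102 Ext.none :=
  certF1 (fam := false) (s1 := true) (s2 := false) (a := 1) (b := 0) (c := 2) (cn := .npp) (n1 := ndF0q1) (n2 := ndF5q2) (pc := pcF0) (cut := cut_pm_102) (xt := Ext.none) (P1 := 536870912) (W1 := 536870912) (P2 := 1073741824) (W2 := 536870912) (P3 := 201326592) (W3 := 134217728)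
    rfl (fun _ => rfl) k0_pm_102

noncomputable def cut_pm_112 : Cut := Cut.of [[⟨3, 0, 0, 1449551462⟩]]

noncomputable def f_pm_112 : ℕ → ℕ → ℕ → ℕ → Bool := onCell 536870912 536870912 1073741824 536870912 201326592 134217728
    (rowF 0 false true false .dn 1 1 2 (qsf 536870912 536870912 1073741824 536870912 1) ndF0q1 ndF5q2 pcF1 cut_pm_112 Ext.none)

def k0_pm_112 : ∃ t, chk3 f_pm_112 t 1 1 1 = true :=
  ⟨(a (l 4) (b (l 4) (b (l 4) (a (l 4) (l 18054672))))), by decide +kernel⟩

theorem c_pm_112 : CertF 536870912 536870912 1073741824 536870912 201326592 134217728 false true false .dn 1 1 2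
    ndF0q1 ndF5q2 pcF1 cut_pm_112 Ext.none :=
  certF0 (fam := false) (s1 := true) (s2 := false) (a := 1) (b := 1) (c := 2) (cn := .dn) (n1 := ndF0q1) (n2 := ndF5q2) (pc := pcF1) (cut := cut_pm_112) (xt := Ext.none) (P1 := 536870912) (W1 := 536870912) (P2 := 1073741824) (W2 := 536870912) (P3 := 201326592) (W3 := 134217728)
    rfl k0_pm_112

noncomputable def cut_pm_113 : Cut := Cut.of [[⟨3, 0, 0, 1449551462⟩], [⟨0, 1, 0, 57167902⟩, ⟨1, 1, 0, 57167902⟩, ⟨2, 2, 0, 11758673⟩]]

noncomputable def f_pm_113 : ℕ → ℕ → ℕ → ℕ → Bool := onCell 536870912 536870912 0 1230186008 201326592 134217728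
    (rowF 0 false true false .nn 1 1 3 (qsf 536870912 536870912 0 1230186008 1) ndF0q1 ndF5q3 pcF1 cut_pm_113 Ext.none)

def k0_pm_113 : ∃ t, chk3 f_pm_113 t 1 1 1 = true :=
  ⟨(b (a (l 2) (a (l 2) (b (a (l 2) (b (a (l 2) (l 6)) (l 16902616))) (a (b (l 17012840) (l 17085736)) (b (l 16890160) (l 16924216)))))) (b (b (a (l 2) (a (a (l 2) (l 17631200)) (a (l 17309944) (l 17045768)))) (a (l 4) (a (a (l 18038112) (b (l 17756144) (a (l 17908640) (b (l 17787152) (l 17841576))))) (a (b (b (l 17457560) (l 17516288)) (c (l 17700840) (l 17736048))) (b (l 17232920) (l 17366272)))))) (a (l 4) (b (a (a (l 4) (b (a (l 17958760) (l 17888184)) (l 17953176))) (b (a (a (l 17799288) (l 17699184)) (a (l 17665928) (l 17439432))) (a (a (l 17871576) (l 17795840)) (c (l 17832864) (l 17741536))))) (a (l 4) (b (a (l 17898096) (b (a (l 17762296) (l 17802720)) (a (l 17845752) (l 17747872)))) (l 17928720))))))), by decide +kernel⟩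

theorem c_pm_113 : CertF 536870912 536870912 0 1230186008 201326592 134217728 false true false .nn 1 1 3
    ndF0q1 ndF5q3 pcF1 cut_pm_113 Ext.none :=
  certF0 (fam := false) (s1 := true) (s2 := false) (a := 1) (b := 1) (c := 3) (cn := .nn) (n1 := ndF0q1) (n2 := ndF5q3) (pc := pcF1) (cut := cut_pm_113) (xt := Ext.none) (P1 := 536870912) (W1 := 536870912) (P2 := 0) (W2 := 1230186008) (P3 := 201326592) (W3 := 134217728)
    rfl k0_pm_113

noncomputable def cut_pm_123 : Cut := Cut.of [[⟨3, 0, 0, 1449551462⟩], [⟨0, 1, 0, 57167902⟩, ⟨1, 1, 0, 57167902⟩, ⟨2, 2, 0, 11758673⟩]]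

noncomputable def f_pm_123 : ℕ → ℕ → ℕ → ℕ → Bool := onCell 1073741824 536870912 0 1230186008 201326592 134217728
    (rowF 2 false true false .npn 1 2 3 (qsf 536870912 536870912 0 1230186008 2) ndF0q1 ndF5q3 pcF2 cut_pm_123 Ext.none)

def k0_pm_123 : ∃ t, chk3 f_pm_123 t 1 1 1 = true :=
  ⟨(b (b (a (a (a (a (b (l 6) (l 17053728)) (b (l 17002680) (l 16930648))) (a (b (l 16876944) (l 16967464)) (a (b (l 16911080) (l 17000280)) (b (l 16932008) (l 17020424))))) (a (a (a (b (l 16951160) (l 17039616)) (b (a (l 16961776) (l 16968136)) (l 17057128))) (l 17029616)) (b (l 17026024) (l 17146128)))) (a (a (b (l 17104080) (l 17232368)) (b (l 17200032) (l 17312800))) (a (b (l 17287528) (l 17368632)) (l 17367640)))) (a (b (a (a (l 17041432) (a (l 17112144) (l 17152512))) (a (a (l 17193480) (l 17235000)) (l 17303536))) (a (a (l 17268520) (b (l 17297216) (l 17447736))) (a (l 17455024) (l 17518888)))) (a (a (b (l 17382624) (l 17551328)) (l 17439568)) (a (l 17549696) (l 17545696)))))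 (b (a (a (b (a (l 17644504) (l 17695416)) (a (l 18001824) (l 17951848))) (b (a (l 17712936) (l 17707888)) (l 4))) (l 4)) (l 4))), by decide +kernel⟩

theorem c_pm_123 : CertF 536870912 536870912 0 1230186008 201326592 134217728 false true false .npn 1 2 3
    ndF0q1 ndF5q3 pcF2 cut_pm_123 Ext.none :=
  certF2 (fam := false) (s1 := true) (s2 := false) (a := 1) (b := 2) (c := 3) (cn := .npn) (n1 := ndF0q1) (n2 := ndF5q3) (pc := pcF2) (cut := cut_pm_123) (xt := Ext.none) (P1 := 536870912) (W1 := 536870912) (P2 := 0) (W2 := 1230186008) (P3 := 201326592) (W3 := 134217728)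
    rfl (fun _ => rfl) k0_pm_123

noncomputable def cut_pm_133 : Cut := Cut.of [[⟨3, 0, 0, 1449551462⟩]]

noncomputable def f_pm_133 : ℕ → ℕ → ℕ → ℕ → Bool := onCell 536870912 536870912 0 1230186008 201326592 134217728
    (rowF 0 false true false .dn 1 3 3 (qsf 536870912 536870912 0 1230186008 3) ndF0q1 ndF5q3 pcF3 cut_pm_133 Ext.none)

def k0_pm_133 : ∃ t, chk3 f_pm_133 t 1 1 1 = true :=
  ⟨(b (b (a (a (a (b (l 17096856) (l 1)) (l 1)) (l 1)) (l 1)) (l 1)) (l 1)), by decide +kernel⟩

theorem c_pm_133 : CertF 536870912 536870912 0 1230186008 201326592 134217728 false true false .dn 1 3 3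
    ndF0q1 ndF5q3 pcF3 cut_pm_133 Ext.none :=
  certF0 (fam := false) (s1 := true) (s2 := false) (a := 1) (b := 3) (c := 3) (cn := .dn) (n1 := ndF0q1) (n2 := ndF5q3) (pc := pcF3) (cut := cut_pm_133) (xt := Ext.none) (P1 := 536870912) (W1 := 536870912) (P2 := 0) (W2 := 1230186008) (P3 := 201326592) (W3 := 134217728)
    rfl k0_pm_133

noncomputable def cut_pm_202 : Cut := Cut.of [[⟨3, 0, 0, 1449551462⟩]]

noncomputable def f_pm_202 : ℕ → ℕ → ℕ → ℕ → Bool := onCell 0 536870912 1073741824 536870912 201326592 134217728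
    (rowF 0 false true false .pp 2 0 2 (qsf 0 536870912 1073741824 536870912 0) ndF0q2 ndF5q2 pcF0 cut_pm_202 Ext.none)

def k0_pm_202 : ∃ t, chk3 f_pm_202 t 1 1 1 = true :=
  ⟨(a (b (a (b (l 1) (b (b (l 17903848) (l 17724984)) (a (l 17546040) (l 17708720)))) (a (b (l 1) (b (l 17967256) (l 17848808))) (b (b (l 1) (l 18151784)) (b (l 18114880) (l 17978824))))) (b (a (b (a (l 17345304) (l 17549096)) (a (b (l 17098952) (l 17068808)) (b (l 17374328) (l 17204144)))) (b (a (l 17714784) (l 17768080)) (a (l 17555496) (l 17578496)))) (a (b (a (l 17107376) (b (l 17142552) (l 17130288))) (c (l 17214752) (l 17021312))) (a (b (b (l 17301096) (l 17196312)) (b (l 17175096) (l 17190512))) (b (l 17463256) (b (l 17230560) (l 17207624))))))) (b (b (a (b (l 1) (a (l 18422448) (l 4))) (l 4)) (a (b (c (l 18470624) (l 18118128)) (l 18114368)) (b (l 4) (a (l 4) (l 4))))) (b (a (b (l 17935776) (a (l 17666024) (l 17809352))) (b (a (l 18112928) (l 4)) (a (l 17960848) (a (l 18063008) (l 4))))) (a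 (b (a (l 17468832) (l 17569712)) (b (a (l 17361240) (l 17411856)) (a (l 17247800) (l 17331472)))) (b (a (l 17758680) (b (l 17991808) (l 17909992))) (a (b (l 17552136) (l 17410400)) (b (l 17799944) (l 17650776)))))))), by decide +kernel⟩

theorem c_pm_202 : CertF 0 536870912 1073741824 536870912 201326592 134217728 false true false .pp 2 0 2
    ndF0q2 ndF5q2 pcF0 cut_pm_202 Ext.none :=
  certF0 (fam := false) (s1 := true) (s2 := false) (a := 2) (b := 0) (c := 2) (cn := .pp) (n1 := ndF0q2) (n2 := ndF5q2) (pc := pcF0) (cut := cut_pm_202) (xt := Ext.none) (P1 := 0) (W1 := 536870912) (P2 := 1073741824) (W2 := 536870912) (P3 := 201326592) (W3 := 134217728)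
    rfl k0_pm_202

noncomputable def cut_pm_203 : Cut := Cut.of [[⟨3, 0, 0, 1449551462⟩]]

noncomputable def f_pm_203 : ℕ → ℕ → ℕ → ℕ → Bool := onCell 0 536870912 0 1230186008 201326592 134217728
    (rowF 0 false true false .up 2 0 3 (qsf 0 536870912 0 1230186008 0) ndF0q2 ndF5q3 pcF0 cut_pm_203 Ext.none)

def k0_pm_203 : ∃ t, chk3 f_pm_203 t 1 1 1 = true :=
  ⟨(b (l 2) (b (l 2) (b (a (b (l 2) (a (a (l 6) (l 17041352)) (a (l 17135336) (l 17209072)))) (l 2)) (a (b (a (a (b (l 16996976) (l 17028928)) (b (l 17086864) (l 17108736))) (a (l 17169472) (l 17234024))) (a (a (b (l 17057608) (l 17080168)) (b (l 17128112) (l 17147880))) (a (l 17178480) (l 17350472)))) (a (a (b (b (l 17280376) (l 17275840)) (b (l 17255928) (l 17229808))) (b (l 305581756647) (b (l 17249688) (l 17250464)))) (b (a (c (l 17349816) (l 17185800)) (l 2)) (a (b (l 17247744) (l 17292648)) (b (a (l 17245184) (l 2)) (a (l 17375144) (l 17533416)))))))))), by decide +kernel⟩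

theorem c_pm_203 : CertF 0 536870912 0 1230186008 201326592 134217728 false true false .up 2 0 3
    ndF0q2 ndF5q3 pcF0 cut_pm_203 Ext.none :=
  certF0 (fam := false) (s1 := true) (s2 := false) (a := 2) (b := 0) (c := 3) (cn := .up) (n1 := ndF0q2) (n2 := ndF5q3) (pc := pcF0) (cut := cut_pm_203) (xt := Ext.none) (P1 := 0) (W1 := 536870912) (P2 := 0) (W2 := 1230186008) (P3 := 201326592) (W3 := 134217728)
    rfl k0_pm_203

noncomputable def cut_pm_213 : Cut := Cut.of [[⟨3, 0, 0, 1449551462⟩], [⟨0, 1, 0, 57167902⟩, ⟨1, 1, 0, 57167902⟩, ⟨2, 2, 0, 11758673⟩]]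

noncomputable def f_pm_213 : ℕ → ℕ → ℕ → ℕ → Bool := onCell 0 536870912 0 1230186008 201326592 134217728
    (rowF 0 false true false .pnn 2 1 3 (qsf 0 536870912 0 1230186008 1) ndF0q2 ndF5q3 pcF1 cut_pm_213 Ext.none)

def k0_pm_213 : ∃ t, chk3 f_pm_213 t 1 1 1 = true :=
  ⟨(b (a (l 6) (b (a (l 6) (l 6)) (a (b (l 6) (a (l 6) (b (l 6) (l 16863952)))) (b (a (b (l 6) (l 16852024)) (l 16966952)) (a (l 16893488) (l 16935040)))))) (b (a (b (l 6) (a (l 6) (b (a (l 6) (l 16861512)) (l 17123128)))) (b (a (b (l 17119712) (l 16932832)) (a (l 16928912) (l 16937488))) (a (b (l 17011776) (l 17019816)) (a (l 17009008) (l 17120024))))) (a (b (a (b (l 6) (a (l 6) (l 16941856))) (b (a (l 16912232) (l 16968312)) (a (l 17018264) (l 17079336)))) (b (a (l 1) (a (l 1) (l 17248536))) (l 1))) (b (a (b (l 17060328) (l 17466456)) (b (a (l 17208248) (l 17330344)) (a (b (l 17314224) (l 17377920)) (b (l 17419848) (l 17491288))))) (b (a (l 17342408) (a (l 17501504) (b (l 17549784) (l 17683400))))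 (a (l 1) (a (l 17646552) (l 17767344)))))))), by decide +kernel⟩

theorem c_pm_213 : CertF 0 536870912 0 1230186008 201326592 134217728 false true false .pnn 2 1 3
    ndF0q2 ndF5q3 pcF1 cut_pm_213 Ext.none :=
  certF0 (fam := false) (s1 := true) (s2 := false) (a := 2) (b := 1) (c := 3) (cn := .pnn) (n1 := ndF0q2) (n2 := ndF5q3) (pc := pcF1) (cut := cut_pm_213) (xt := Ext.none) (P1 := 0) (W1 := 536870912) (P2 := 0) (W2 := 1230186008) (P3 := 201326592) (W3 := 134217728)
    rfl k0_pm_213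

noncomputable def cut_mm_001 : Cut := Cut.of [[⟨3, 0, 0, 1449551462⟩]]

noncomputable def f_mm_001 : ℕ → ℕ → ℕ → ℕ → Bool := onCell 0 536870912 536870912 536870912 201326592 134217728
    (rowF 0 false false false .up 0 0 1 (qsf 0 536870912 536870912 536870912 0) ndF0q0 ndF5q1 pcF0 cut_mm_001 Ext.none)

def k0_mm_001 : ∃ t, chk3 f_mm_001 t 1 1 1 = true :=
  ⟨(l 6), by decide +kernel⟩

theorem c_mm_001 : CertF 0 536870912 536870912 536870912 201326592 134217728 false false false .up 0 0 1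
    ndF0q0 ndF5q1 pcF0 cut_mm_001 Ext.none :=
  certF0 (fam := false) (s1 := false) (s2 := false) (a := 0) (b := 0) (c := 1) (cn := .up) (n1 := ndF0q0) (n2 := ndF5q1) (pc := pcF0) (cut := cut_mm_001) (xt := Ext.none) (P1 := 0) (W1 := 536870912) (P2 := 536870912) (W2 := 536870912) (P3 := 201326592) (W3 := 134217728)
    rfl k0_mm_001

noncomputable def cut_mm_011 : Cut := Cut.of [[⟨3, 0, 0, 1449551462⟩]]

noncomputable def f_mm_011 : ℕ → ℕ → ℕ → ℕ → Bool := onCell 0 536870912 536870912 536870912 201326592 134217728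
    (rowF 0 false false false .pnn 0 1 1 (qsf 0 536870912 536870912 536870912 1) ndF0q0 ndF5q1 pcF1 cut_mm_011 Ext.none)

def k0_mm_011 : ∃ t, chk3 f_mm_011 t 1 1 1 = true :=
  ⟨(l 6), by decide +kernel⟩

theorem c_mm_011 : CertF 0 536870912 536870912 536870912 201326592 134217728 false false false .pnn 0 1 1
    ndF0q0 ndF5q1 pcF1 cut_mm_011 Ext.none :=
  certF0 (fam := false) (s1 := false) (s2 := false) (a := 0) (b := 1) (c := 1) (cn := .pnn) (n1 := ndF0q0) (n2 := ndF5q1) (pc := pcF1) (cut := cut_mm_011) (xt := Ext.none) (P1 := 0) (W1 := 536870912) (P2 := 536870912) (W2 := 536870912) (P3 := 201326592) (W3 := 134217728)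
    rfl k0_mm_011

noncomputable def cut_mm_012 : Cut := Cut.of [[⟨3, 0, 0, 1449551462⟩]]

noncomputable def f_mm_012 : ℕ → ℕ → ℕ → ℕ → Bool := onCell 0 536870912 1073741824 536870912 201326592 134217728
    (rowF 0 false false false .pnp 0 1 2 (qsf 0 536870912 1073741824 536870912 1) ndF0q0 ndF5q2 pcF1 cut_mm_012 Ext.none)

def k0_mm_012 : ∃ t, chk3 f_mm_012 t 1 1 1 = true :=
  ⟨(l 5), by decide +kernel⟩

theorem c_mm_012 : CertF 0 536870912 1073741824 536870912 201326592 134217728 false false false .pnp 0 1 2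
    ndF0q0 ndF5q2 pcF1 cut_mm_012 Ext.none :=
  certF0 (fam := false) (s1 := false) (s2 := false) (a := 0) (b := 1) (c := 2) (cn := .pnp) (n1 := ndF0q0) (n2 := ndF5q2) (pc := pcF1) (cut := cut_mm_012) (xt := Ext.none) (P1 := 0) (W1 := 536870912) (P2 := 1073741824) (W2 := 536870912) (P3 := 201326592) (W3 := 134217728)
    rfl k0_mm_012

noncomputable def cut_mm_022 : Cut := Cut.of [[⟨3, 0, 0, 1449551462⟩]]

noncomputable def f_mm_022 : ℕ → ℕ → ℕ → ℕ → Bool := onCell 0 536870912 1073741824 536870912 201326592 134217728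
    (rowF 0 false false false .pp 0 2 2 (qsf 0 536870912 1073741824 536870912 2) ndF0q0 ndF5q2 pcF2 cut_mm_022 Ext.none)

def k0_mm_022 : ∃ t, chk3 f_mm_022 t 1 1 1 = true :=
  ⟨(l 5), by decide +kernel⟩

theorem c_mm_022 : CertF 0 536870912 1073741824 536870912 201326592 134217728 false false false .pp 0 2 2
    ndF0q0 ndF5q2 pcF2 cut_mm_022 Ext.none :=
  certF0 (fam := false) (s1 := false) (s2 := false) (a := 0) (b := 2) (c := 2) (cn := .pp) (n1 := ndF0q0) (n2 := ndF5q2) (pc := pcF2) (cut := cut_mm_022) (xt := Ext.none) (P1 := 0) (W1 := 536870912) (P2 := 1073741824) (W2 := 536870912) (P3 := 201326592) (W3 := 134217728)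
    rfl k0_mm_022

noncomputable def cut_mm_023 : Cut := Cut.of [[⟨3, 0, 0, 1449551462⟩]]

noncomputable def f_mm_023 : ℕ → ℕ → ℕ → ℕ → Bool := onCell 0 536870912 0 1230186008 201326592 134217728
    (rowF 0 false false false .up 0 2 3 (qsf 0 536870912 0 1230186008 2) ndF0q0 ndF5q3 pcF2 cut_mm_023 Ext.none)

def k0_mm_023 : ∃ t, chk3 f_mm_023 t 1 1 1 = true :=
  ⟨(l 5), by decide +kernel⟩

theorem c_mm_023 : CertF 0 536870912 0 1230186008 201326592 134217728 false false false .up 0 2 3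
    ndF0q0 ndF5q3 pcF2 cut_mm_023 Ext.none :=
  certF0 (fam := false) (s1 := false) (s2 := false) (a := 0) (b := 2) (c := 3) (cn := .up) (n1 := ndF0q0) (n2 := ndF5q3) (pc := pcF2) (cut := cut_mm_023) (xt := Ext.none) (P1 := 0) (W1 := 536870912) (P2 := 0) (W2 := 1230186008) (P3 := 201326592) (W3 := 134217728)
    rfl k0_mm_023

noncomputable def cut_mm_033 : Cut := Cut.of [[⟨3, 0, 0, 1449551462⟩]]

noncomputable def f_mm_033 : ℕ → ℕ → ℕ → ℕ → Bool := onCell 0 536870912 0 1230186008 201326592 134217728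
    (rowF 0 false false false .pnn 0 3 3 (qsf 0 536870912 0 1230186008 3) ndF0q0 ndF5q3 pcF3 cut_mm_033 Ext.none)

def k0_mm_033 : ∃ t, chk3 f_mm_033 t 1 1 1 = true :=
  ⟨(l 5), by decide +kernel⟩

theorem c_mm_033 : CertF 0 536870912 0 1230186008 201326592 134217728 false false false .pnn 0 3 3
    ndF0q0 ndF5q3 pcF3 cut_mm_033 Ext.none :=
  certF0 (fam := false) (s1 := false) (s2 := false) (a := 0) (b := 3) (c := 3) (cn := .pnn) (n1 := ndF0q0) (n2 := ndF5q3) (pc := pcF3) (cut := cut_mm_033) (xt := Ext.none) (P1 := 0) (W1 := 536870912) (P2 := 0) (W2 := 1230186008) (P3 := 201326592) (W3 := 134217728)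
    rfl k0_mm_033

noncomputable def cut_mm_101 : Cut := Cut.of [[⟨3, 0, 0, 1449551462⟩], [⟨0, 1, 0, 67108864⟩, ⟨1, 0, 0, 67108864⟩, ⟨2, 1, 0, 67108864⟩]]

noncomputable def f_mm_101 : ℕ → ℕ → ℕ → ℕ → Bool := onCell 536870912 536870912 0 536870912 201326592 134217728
    (rowF 1 false false false .npn 1 0 1 (qsf 536870912 536870912 536870912 536870912 0) ndF0q1 ndF5q1 pcF0 cut_mm_101 Ext.none)

def k0_mm_101 : ∃ t, chk3 f_mm_101 t 1 1 1 = true :=
  ⟨(l 6), by decide +kernel⟩

theorem c_mm_101 : CertF 536870912 536870912 536870912 536870912 201326592 134217728 false false false .npn 1 0 1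
    ndF0q1 ndF5q1 pcF0 cut_mm_101 Ext.none :=
  certF1 (fam := false) (s1 := false) (s2 := false) (a := 1) (b := 0) (c := 1) (cn := .npn) (n1 := ndF0q1) (n2 := ndF5q1) (pc := pcF0) (cut := cut_mm_101) (xt := Ext.none) (P1 := 536870912) (W1 := 536870912) (P2 := 536870912) (W2 := 536870912) (P3 := 201326592) (W3 := 134217728)
    rfl (fun _ => rfl) k0_mm_101

noncomputable def cut_mm_102 : Cut := Cut.of [[⟨3, 0, 0, 1449551462⟩], [⟨0, 1, 0, 67108864⟩, ⟨1, 0, 0, 67108864⟩, ⟨2, 1, 0, 67108864⟩]]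

noncomputable def f_mm_102 : ℕ → ℕ → ℕ → ℕ → Bool := onCell 536870912 536870912 1073741824 536870912 201326592 134217728
    (rowF 0 false false false .npp 1 0 2 (qsf 536870912 536870912 1073741824 536870912 0) ndF0q1 ndF5q2 pcF0 cut_mm_102 Ext.none)

def k0_mm_102 : ∃ t, chk3 f_mm_102 t 1 1 1 = true :=
  ⟨(l 6), by decide +kernel⟩

theorem c_mm_102 : CertF 536870912 536870912 1073741824 536870912 201326592 134217728 false false false .npp 1 0 2
    ndF0q1 ndF5q2 pcF0 cut_mm_102 Ext.none :=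
  certF0 (fam := false) (s1 := false) (s2 := false) (a := 1) (b := 0) (c := 2) (cn := .npp) (n1 := ndF0q1) (n2 := ndF5q2) (pc := pcF0) (cut := cut_mm_102) (xt := Ext.none) (P1 := 536870912) (W1 := 536870912) (P2 := 1073741824) (W2 := 536870912) (P3 := 201326592) (W3 := 134217728)
    rfl k0_mm_102

noncomputable def cut_mm_112 : Cut := Cut.of [[⟨3, 0, 0, 1449551462⟩]]

noncomputable def f_mm_112 : ℕ → ℕ → ℕ → ℕ → Bool := onCell 536870912 536870912 1073741824 536870912 201326592 134217728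
    (rowF 0 false false false .dn 1 1 2 (qsf 536870912 536870912 1073741824 536870912 1) ndF0q1 ndF5q2 pcF1 cut_mm_112 Ext.none)

def k0_mm_112 : ∃ t, chk3 f_mm_112 t 1 1 1 = true :=
  ⟨(l 6), by decide +kernel⟩

theorem c_mm_112 : CertF 536870912 536870912 1073741824 536870912 201326592 134217728 false false false .dn 1 1 2
    ndF0q1 ndF5q2 pcF1 cut_mm_112 Ext.none :=
  certF0 (fam := false) (s1 := false) (s2 := false) (a := 1) (b := 1) (c := 2) (cn := .dn) (n1 := ndF0q1) (n2 := ndF5q2) (pc := pcF1) (cut := cut_mm_112) (xt := Ext.none) (P1 := 536870912) (W1 := 536870912) (P2 := 1073741824) (W2 := 536870912) (P3 := 201326592) (W3 := 134217728)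
    rfl k0_mm_112

noncomputable def cut_mm_113 : Cut := Cut.of [[⟨3, 0, 0, 1449551462⟩]]

noncomputable def f_mm_113 : ℕ → ℕ → ℕ → ℕ → Bool := onCell 536870912 536870912 0 1230186008 201326592 134217728
    (rowF 0 false false false .nn 1 1 3 (qsf 536870912 536870912 0 1230186008 1) ndF0q1 ndF5q3 pcF1 cut_mm_113 Ext.none)

def k0_mm_113 : ∃ t, chk3 f_mm_113 t 1 1 1 = true :=
  ⟨(b (l 5) (a (l 5) (l 6))), by decide +kernel⟩

theorem c_mm_113 : CertF 536870912 536870912 0 1230186008 201326592 134217728 false false false .nn 1 1 3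
    ndF0q1 ndF5q3 pcF1 cut_mm_113 Ext.none :=
  certF0 (fam := false) (s1 := false) (s2 := false) (a := 1) (b := 1) (c := 3) (cn := .nn) (n1 := ndF0q1) (n2 := ndF5q3) (pc := pcF1) (cut := cut_mm_113) (xt := Ext.none) (P1 := 536870912) (W1 := 536870912) (P2 := 0) (W2 := 1230186008) (P3 := 201326592) (W3 := 134217728)
    rfl k0_mm_113

noncomputable def cut_mm_123 : Cut := Cut.of [[⟨3, 0, 0, 1449551462⟩]]

noncomputable def f_mm_123 : ℕ → ℕ → ℕ → ℕ → Bool := onCell 1073741824 536870912 0 1230186008 201326592 134217728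
    (rowF 2 false false false .npn 1 2 3 (qsf 536870912 536870912 0 1230186008 2) ndF0q1 ndF5q3 pcF2 cut_mm_123 Ext.none)

def k0_mm_123 : ∃ t, chk3 f_mm_123 t 1 1 1 = true :=
  ⟨(b (l 5) (l 5)), by decide +kernel⟩

theorem c_mm_123 : CertF 536870912 536870912 0 1230186008 201326592 134217728 false false false .npn 1 2 3
    ndF0q1 ndF5q3 pcF2 cut_mm_123 Ext.none :=
  certF2 (fam := false) (s1 := false) (s2 := false) (a := 1) (b := 2) (c := 3) (cn := .npn) (n1 := ndF0q1) (n2 := ndF5q3) (pc := pcF2) (cut := cut_mm_123) (xt := Ext.none) (P1 := 536870912) (W1 := 536870912) (P2 := 0) (W2 := 1230186008) (P3 := 201326592) (W3 := 134217728)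
    rfl (fun _ => rfl) k0_mm_123

noncomputable def cut_mm_133 : Cut := Cut.of [[⟨3, 0, 0, 1449551462⟩]]

noncomputable def f_mm_133 : ℕ → ℕ → ℕ → ℕ → Bool := onCell 1610612736 536870912 0 1230186008 201326592 134217728
    (rowF 2 false false false .dn 1 3 3 (qsf 536870912 536870912 0 1230186008 3) ndF0q1 ndF5q3 pcF3 cut_mm_133 Ext.none)

def k0_mm_133 : ∃ t, chk3 f_mm_133 t 1 1 1 = true :=
  ⟨(l 5), by decide +kernel⟩

theorem c_mm_133 : CertF 536870912 536870912 0 1230186008 201326592 134217728 false false false .dn 1 3 3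
    ndF0q1 ndF5q3 pcF3 cut_mm_133 Ext.none :=
  certF2 (fam := false) (s1 := false) (s2 := false) (a := 1) (b := 3) (c := 3) (cn := .dn) (n1 := ndF0q1) (n2 := ndF5q3) (pc := pcF3) (cut := cut_mm_133) (xt := Ext.none) (P1 := 536870912) (W1 := 536870912) (P2 := 0) (W2 := 1230186008) (P3 := 201326592) (W3 := 134217728)
    rfl (fun _ => rfl) k0_mm_133

noncomputable def cut_mm_202 : Cut := Cut.of [[⟨3, 0, 0, 1449551462⟩], [⟨0, 1, 0, 67108864⟩, ⟨1, 0, 0, 67108864⟩, ⟨2, 1, 0, 67108864⟩]]

noncomputable def f_mm_202 : ℕ → ℕ → ℕ → ℕ → Bool := onCell 0 536870912 0 536870912 201326592 134217728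
    (rowF 1 false false false .pp 2 0 2 (qsf 0 536870912 1073741824 536870912 0) ndF0q2 ndF5q2 pcF0 cut_mm_202 Ext.none)

def k0_mm_202 : ∃ t, chk3 f_mm_202 t 1 1 1 = true :=
  ⟨(b (a (b (b (b (a (l 17434144) (a (l 17200728) (l 17271392))) (a (l 17343392) (a (l 17073144) (l 17084912)))) (a (a (l 17268064) (b (l 17125680) (l 16990456))) (b (a (l 16955800) (l 16778032)) (a (l 16785384) (l 16811464))))) (a (b (b (a (l 17038520) (l 16824128)) (a (l 16963320) (l 16890824))) (b (a (l 16998336) (l 16955880)) (a (l 17037400) (l 16985336)))) (b (a (b (l 16726936) (l 16841520)) (b (l 16758208) (l 6))) (a (b (l 16899640) (l 6)) (l 6))))) (b (a (a (b (a (b (l 16959424) (l 16824024)) (l 6)) (l 6)) (l 6)) (l 6)) (l 6))) (a (a (b (b (a (b (l 17053976) (l 17047280)) (b (l 16988240) (l 16977528))) (a (b (l 17031912) (l 17010736)) (l 6))) (l 2)) (l 6)) (l 6))), by decide +kernel⟩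

theorem c_mm_202 : CertF 0 536870912 1073741824 536870912 201326592 134217728 false false false .pp 2 0 2
    ndF0q2 ndF5q2 pcF0 cut_mm_202 Ext.none :=
  certF1 (fam := false) (s1 := false) (s2 := false) (a := 2) (b := 0) (c := 2) (cn := .pp) (n1 := ndF0q2) (n2 := ndF5q2) (pc := pcF0) (cut := cut_mm_202) (xt := Ext.none) (P1 := 0) (W1 := 536870912) (P2 := 1073741824) (W2 := 536870912) (P3 := 201326592) (W3 := 134217728)
    rfl (fun _ => rfl) k0_mm_202

noncomputable def cut_mm_203 : Cut := Cut.of [[⟨3, 0, 0, 1449551462⟩]]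

noncomputable def f_mm_203 : ℕ → ℕ → ℕ → ℕ → Bool := onCell 0 536870912 0 1230186008 201326592 134217728
    (rowF 0 false false false .up 2 0 3 (qsf 0 536870912 0 1230186008 0) ndF0q2 ndF5q3 pcF0 cut_mm_203 Ext.none)

def k0_mm_203 : ∃ t, chk3 f_mm_203 t 1 1 1 = true :=
  ⟨(b (l 2) (b (l 2) (a (b (l 6) (a (b (l 6) (a (b (l 6) (l 17007144)) (l 6))) (l 6))) (l 3)))), by decide +kernel⟩

theorem c_mm_203 : CertF 0 536870912 0 1230186008 201326592 134217728 false false false .up 2 0 3
    ndF0q2 ndF5q3 pcF0 cut_mm_203 Ext.none :=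
  certF0 (fam := false) (s1 := false) (s2 := false) (a := 2) (b := 0) (c := 3) (cn := .up) (n1 := ndF0q2) (n2 := ndF5q3) (pc := pcF0) (cut := cut_mm_203) (xt := Ext.none) (P1 := 0) (W1 := 536870912) (P2 := 0) (W2 := 1230186008) (P3 := 201326592) (W3 := 134217728)
    rfl k0_mm_203

noncomputable def cut_mm_213 : Cut := Cut.of [[⟨3, 0, 0, 1449551462⟩]]

noncomputable def f_mm_213 : ℕ → ℕ → ℕ → ℕ → Bool := onCell 0 536870912 0 1230186008 201326592 134217728
    (rowF 0 false false false .pnn 2 1 3 (qsf 0 536870912 0 1230186008 1) ndF0q2 ndF5q3 pcF1 cut_mm_213 Ext.none)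

def k0_mm_213 : ∃ t, chk3 f_mm_213 t 1 1 1 = true :=
  ⟨(b (l 6) (b (l 6) (a (b (l 6) (b (l 6) (l 1))) (l 3)))), by decide +kernel⟩

theorem c_mm_213 : CertF 0 536870912 0 1230186008 201326592 134217728 false false false .pnn 2 1 3
    ndF0q2 ndF5q3 pcF1 cut_mm_213 Ext.none :=
  certF0 (fam := false) (s1 := false) (s2 := false) (a := 2) (b := 1) (c := 3) (cn := .pnn) (n1 := ndF0q2) (n2 := ndF5q3) (pc := pcF1) (cut := cut_mm_213) (xt := Ext.none) (P1 := 0) (W1 := 536870912) (P2 := 0) (W2 := 1230186008) (P3 := 201326592) (W3 := 134217728)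
    rfl k0_mm_213

end Pool.Agent.Strip051.G.I3_16_5_16.Tab.C.FB05

namespace Pool.Agent.Strip051.G.I3_16_5_16.Tab.C.FB10

open Pool.Agent.Strip051.PB Pool.Agent.Strip051.PB.T
open Pool.Agent.Strip051.G.I3_16_5_16.Tab

noncomputable def f_pp_001 : ℕ → ℕ → ℕ → ℕ → Bool := onCell 0 536870912 0 536870912 201326592 134217728
    (rowF 1 false true true .up 0 0 1 (qsf 0 536870912 536870912 536870912 0) ndF1q0 ndF0q1 pcF0 Cut.none Ext.none)

def k0_pp_001 : ∃ t, chk3 f_pp_001 t 1 1 1 = true :=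
  ⟨(l 3), by decide +kernel⟩

theorem c_pp_001 : CertF 0 536870912 536870912 536870912 201326592 134217728 false true true .up 0 0 1
    ndF1q0 ndF0q1 pcF0 Cut.none Ext.none :=
  certF1 (fam := false) (s1 := true) (s2 := true) (a := 0) (b := 0) (c := 1) (cn := .up) (n1 := ndF1q0) (n2 := ndF0q1) (pc := pcF0) (cut := Cut.none) (xt := Ext.none) (P1 := 0) (W1 := 536870912) (P2 := 536870912) (W2 := 536870912) (P3 := 201326592) (W3 := 134217728)
    rfl (fun _ => rfl) k0_pp_001

noncomputable def cut_pp_011 : Cut := Cut.of [[⟨0, 0, 0, 67108864⟩, ⟨1, 1, 0, 67108864⟩, ⟨2, 1, 0, 67108864⟩]]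

noncomputable def f_pp_011 : ℕ → ℕ → ℕ → ℕ → Bool := onCell 0 536870912 536870912 536870912 201326592 134217728
    (rowF 0 false true true .pnn 0 1 1 (qsf 0 536870912 536870912 536870912 1) ndF1q0 ndF0q1 pcF1 cut_pp_011 Ext.none)

def k0_pp_011 : ∃ t, chk3 f_pp_011 t 1 1 1 = true :=
  ⟨(a (b (l 3) (b (l 3) (a (b (l 3) (a (b (l 3) (b (l 3) (a (l 6) (l 3)))) (l 3))) (l 3)))) (l 3)), by decide +kernel⟩

theorem c_pp_011 : CertF 0 536870912 536870912 536870912 201326592 134217728 false true true .pnn 0 1 1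
    ndF1q0 ndF0q1 pcF1 cut_pp_011 Ext.none :=
  certF0 (fam := false) (s1 := true) (s2 := true) (a := 0) (b := 1) (c := 1) (cn := .pnn) (n1 := ndF1q0) (n2 := ndF0q1) (pc := pcF1) (cut := cut_pp_011) (xt := Ext.none) (P1 := 0) (W1 := 536870912) (P2 := 536870912) (W2 := 536870912) (P3 := 201326592) (W3 := 134217728)
    rfl k0_pp_011

noncomputable def cut_pp_012 : Cut := Cut.of [[⟨0, 0, 0, 67108864⟩, ⟨1, 1, 0, 67108864⟩, ⟨2, 1, 0, 67108864⟩]]

noncomputable def f_pp_012 : ℕ → ℕ → ℕ → ℕ → Bool := onCell 536870912 536870912 0 536870912 201326592 134217728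
    (rowF 2 false true true .pnp 0 1 2 (qsf 0 536870912 0 536870912 1) ndF1q0 ndF0q2 pcF1 cut_pp_012 Ext.none)

def k0_pp_012 : ∃ t, chk3 f_pp_012 t 2 1 1 = true :=
  ⟨(b (a (b (l 2) (a (l 2) (b (l 2) (c (l 17185672) (l 99422719399))))) (b (a (l 16939480) (l 17015544)) (a (b (l 16936576) (l 17037200)) (l 17035216)))) (a (b (a (l 2) (b (a (l 2) (c (b (l 17112976) (a (a (l 161766701367) (l 164451029543)) (l 166598473447))) (b (l 17043816) (b (a (l 184784849031) (l 17057408)) (a (b (l 189683831959) (l 3)) (l 162840250135)))))) (l 3))) (l 3)) (b (c (a (b (b (l 17042152) (a (b (l 17089696) (l 167135324855)) (l 17048880))) (b (a (b (l 180557088343) (l 3)) (b (l 17070976) (l 191831304359))) (l 3))) (b (l 17010832) (a (a (l 155860889479) (l 154787096471)) (l 139754863271)))) (a (b (a (a (b (l 17013936) (l 167135174871)) (l 17009272)) (l 16980344)) (b (a (a (l 193978762343) (l 157471499079)) (l 159082069687)) (l 3))) (b (l 16989064) (a (a (l 156934530151) (l 155323876279)) (l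 136533534439))))) (a (l 3) (b (a (l 3) (l 3)) (l 3)))))), by decide +kernel⟩

def k1_pp_012 : ∃ t, chk3 f_pp_012 t 3 1 1 = true :=
  ⟨(b (a (b (a (l 17016320) (l 16977680)) (b (l 17038976) (l 17163280))) (b (a (b (l 16927424) (l 16946992)) (b (l 16858168) (a (l 16918432) (l 16895520)))) (a (b (l 16904944) (l 16871160)) (a (b (l 16876896) (l 16841200)) (b (l 16857552) (l 16820360)))))) (a (b (a (b (l 16926344) (a (b (l 16922256) (l 16942504)) (l 16898688))) (b (l 16860584) (l 16939680))) (a (b (b (a (b (l 193978541079) (l 3)) (l 135459730247)) (a (l 3) (l 3))) (l 3)) (a (b (b (l 16914080) (l 174651109703)) (l 3)) (b (b (l 16863040) (l 124185215655)) (b (l 164987398167) (l 3)))))) (b (a (b (l 16850200) (a (l 16837976) (l 16830176))) (a (b (l 16818744) (l 16808056)) (b (a (l 16802224) (l 16790960)) (a (l 16790432) (b (l 16780136) (l 16776456)))))) (a (a (b (l 16906104) (b (l 134385832679) (l 3))) (b (b (l 16818560) (l 16823520)) (b (l 29159050119) (b (l 168745389991) (l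 3))))) (b (a (b (l 16806832) (l 16829456)) (b (a (l 16788296) (l 16775392)) (a (l 16790000) (a (l 16779968) (b (l 16772720) (l 6)))))) (b (a (a (l 16815768) (l 16823432)) (a (b (l 16792224) (l 6)) (l 6))) (a (a (l 162302909911) (a (l 160692260167) (l 6))) (l 6)))))))), by decide +kernel⟩

theorem s2_pp_012 : ∃ t, chk3 f_pp_012 t 1 1 1 = true := ex3_a k0_pp_012 k1_pp_012

theorem c_pp_012 : CertF 0 536870912 0 536870912 201326592 134217728 false true true .pnp 0 1 2
    ndF1q0 ndF0q2 pcF1 cut_pp_012 Ext.none :=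
  certF2 (fam := false) (s1 := true) (s2 := true) (a := 0) (b := 1) (c := 2) (cn := .pnp) (n1 := ndF1q0) (n2 := ndF0q2) (pc := pcF1) (cut := cut_pp_012) (xt := Ext.none) (P1 := 0) (W1 := 536870912) (P2 := 0) (W2 := 536870912) (P3 := 201326592) (W3 := 134217728)
    rfl (fun _ => rfl) s2_pp_012

noncomputable def cut_pp_022 : Cut := Cut.of [[⟨0, 0, 0, 67108864⟩, ⟨1, 1, 0, 67108864⟩, ⟨2, 1, 0, 67108864⟩]]

noncomputable def f_pp_022 : ℕ → ℕ → ℕ → ℕ → Bool := onCell 0 536870912 0 536870912 201326592 134217728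
    (rowF 0 false true true .pp 0 2 2 (qsf 0 536870912 0 536870912 2) ndF1q0 ndF0q2 pcF2 cut_pp_022 Ext.none)

def k0_pp_022 : ∃ t, chk3 f_pp_022 t 2 2 1 = true :=
  ⟨(a (b (a (a (b (a (a (c (b (l 16618968) (l 16569168)) (b (l 16623304) (l 16550824))) (c (l 16590768) (l 16574416))) (c (l 16627160) (b (l 16553808) (l 16544736)))) (b (a (c (a (l 16562816) (l 16537888)) (l 16646368)) (a (l 16557976) (l 16555280))) (a (c (a (l 16556408) (l 16531520)) (l 16640408)) (a (l 16593360) (l 16571152))))) (b (l 16561088) (l 16571480))) (c (l 16538568) (l 16530032))) (a (a (b (a (b (c (b (l 16591824) (l 16609184)) (c (l 16634728) (l 16635168))) (c (a (l 16587848) (l 16563656)) (b (l 16612024) (l 16633632)))) (a (b (l 16609608) (b (l 16523632) (l 16525152))) (l 16525376))) (a (b (a (c (c (l 16608408) (l 16611840)) (l 16625688)) (c (l 16621336) (l 16616712))) (a (b (c (l 16573776) (l 16557624)) (c (l 16537496) (l 16541808))) (l 16560576))) (c (l 16533896) (l 16540232)))) (b (c (l 16522408)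 (l 16530744)) (c (l 16560712) (l 16547336)))) (b (l 16570328) (a (l 16578536) (l 16585104))))) (a (b (l 16586896) (b (l 16568672) (l 16627312))) (l 1))), by decide +kernel⟩

def k1_pp_022 : ∃ t, chk3 f_pp_022 t 2 3 1 = true :=
  ⟨(a (b (a (b (a (c (a (c (l 16600312) (l 16601712)) (l 16613808)) (a (b (l 16555808) (a (l 16595592) (l 16600072))) (l 16616368))) (c (l 16603240) (l 16606568))) (a (a (c (b (b (l 16618200) (l 16613472)) (c (l 16659872) (l 16658968))) (b (b (l 16617568) (l 16612112)) (b (l 16628104) (l 16644296)))) (c (c (l 16694256) (l 16693728)) (b (l 16613552) (l 16665872)))) (b (a (l 16643928) (l 16631912)) (a (l 16654800) (l 16664520))))) (b (a (l 16629976) (l 16638624)) (a (b (l 16647456) (l 16721800)) (b (l 16678888) (l 1))))) (b (b (a (c (a (a (a (c (l 16691488) (l 16690240)) (l 16694408)) (l 16679064)) (l 16712464)) (a (a (a (b (l 16658664) (l 16675128)) (l 16671016)) (l 16677128)) (l 16711072))) (a (a (l 16707648) (l 1)) (l 1))) (a (a (l 6) (a (l 6)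 (b (l 16720752) (l 16743000)))) (l 1))) (a (a (l 6) (a (l 6) (l 1))) (l 1)))) (b (l 1) (l 1))), by decide +kernel⟩

def k2_pp_022 : ∃ t, chk3 f_pp_022 t 3 1 1 = true :=
  ⟨(l 1), by decide +kernel⟩

theorem s3_pp_022 : ∃ t, chk3 f_pp_022 t 2 1 1 = true := ex3_b k0_pp_022 k1_pp_022

theorem s4_pp_022 : ∃ t, chk3 f_pp_022 t 1 1 1 = true := ex3_a s3_pp_022 k2_pp_022

theorem c_pp_022 : CertF 0 536870912 0 536870912 201326592 134217728 false true true .pp 0 2 2
    ndF1q0 ndF0q2 pcF2 cut_pp_022 Ext.none :=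
  certF0 (fam := false) (s1 := true) (s2 := true) (a := 0) (b := 2) (c := 2) (cn := .pp) (n1 := ndF1q0) (n2 := ndF0q2) (pc := pcF2) (cut := cut_pp_022) (xt := Ext.none) (P1 := 0) (W1 := 536870912) (P2 := 0) (W2 := 536870912) (P3 := 201326592) (W3 := 134217728)
    rfl s4_pp_022

noncomputable def f_pp_101 : ℕ → ℕ → ℕ → ℕ → Bool := onCell 536870912 536870912 536870912 536870912 201326592 134217728
    (rowF 0 false true true .npn 1 0 1 (qsf 536870912 536870912 536870912 536870912 0) ndF1q1 ndF0q1 pcF0 Cut.none Ext.none)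

def k0_pp_101 : ∃ t, chk3 f_pp_101 t 1 1 1 = true :=
  ⟨(l 3), by decide +kernel⟩

theorem c_pp_101 : CertF 536870912 536870912 536870912 536870912 201326592 134217728 false true true .npn 1 0 1
    ndF1q1 ndF0q1 pcF0 Cut.none Ext.none :=
  certF0 (fam := false) (s1 := true) (s2 := true) (a := 1) (b := 0) (c := 1) (cn := .npn) (n1 := ndF1q1) (n2 := ndF0q1) (pc := pcF0) (cut := Cut.none) (xt := Ext.none) (P1 := 536870912) (W1 := 536870912) (P2 := 536870912) (W2 := 536870912) (P3 := 201326592) (W3 := 134217728)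
    rfl k0_pp_101

noncomputable def f_pp_102 : ℕ → ℕ → ℕ → ℕ → Bool := onCell 0 536870912 0 536870912 201326592 134217728
    (rowF 2 false true true .npp 1 0 2 (qsf 536870912 536870912 0 536870912 0) ndF1q1 ndF0q2 pcF0 Cut.none Ext.none)

def k0_pp_102 : ∃ t, chk3 f_pp_102 t 1 1 1 = true :=
  ⟨(a (b (a (b (l 2) (l 3)) (b (a (b (c (a (a (l 2) (b (l 154786980135) (l 3))) (b (a (l 154787001703) (l 157471324999)) (a (l 3) (l 167671940999)))) (a (a (l 2) (b (c (l 155860610503) (l 156934278151)) (l 3))) (b (a (b (l 160155500311) (l 170892988231)) (l 159618666743)) (a (l 3) (l 171966764215))))) (l 3)) (c (b (a (b (l 16999088) (l 156934522167)) (b (l 17012544) (l 17020560))) (a (l 3) (b (l 170893231303) (l 3)))) (b (a (b (l 16927864) (a (l 157471266839) (l 159618765463))) (b (l 16942960) (l 16953168))) (a (l 3) (b (l 176261807047) (l 3)))))) (l 3))) (l 3)) (b (a (b (c (a (b (l 17033560) (a (a (l 158545225207) (l 159082100455)) (l 160155859767))) (b (l 17094376) (b (l 17107672)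 (l 17182536)))) (a (b (l 16967848) (a (a (l 159081966951) (l 159081974983)) (l 159082007735))) (b (l 16991520) (b (l 16991784) (l 16995920))))) (b (a (a (l 3) (c (l 166598380183) (l 176798779751))) (b (a (b (l 163913828215) (l 162840180071)) (c (l 17138456) (l 17000552))) (a (l 3) (b (l 159619031095) (l 3))))) (l 3))) (c (b (a (l 17093176) (l 17049168)) (b (a (a (l 153713688567) (l 17128544)) (l 17104984)) (a (a (l 164451076759) (l 159082360711)) (b (a (l 153713695191) (l 17131888)) (a (l 156934850215) (l 166061638887)))))) (b (a (l 17011592) (l 16996416)) (a (a (b (l 163377046807) (l 156934626087)) (b (l 17021208) (l 158545226407))) (b (l 17030256) (a (l 161229664791) (a (l 164987641959) (l 163914150199)))))))) (a (l 3) (l 3)))), by decide +kernel⟩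

theorem c_pp_102 : CertF 536870912 536870912 0 536870912 201326592 134217728 false true true .npp 1 0 2
    ndF1q1 ndF0q2 pcF0 Cut.none Ext.none :=
  certF2 (fam := false) (s1 := true) (s2 := true) (a := 1) (b := 0) (c := 2) (cn := .npp) (n1 := ndF1q1) (n2 := ndF0q2) (pc := pcF0) (cut := Cut.none) (xt := Ext.none) (P1 := 536870912) (W1 := 536870912) (P2 := 0) (W2 := 536870912) (P3 := 201326592) (W3 := 134217728)
    rfl (fun _ => rfl) k0_pp_102

noncomputable def f_pp_112 : ℕ → ℕ → ℕ → ℕ → Bool := onCell 536870912 536870912 0 536870912 201326592 134217728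
    (rowF 2 false true true .dn 1 1 2 (qsf 536870912 536870912 0 536870912 1) ndF1q1 ndF0q2 pcF1 Cut.none Ext.none)

def k0_pp_112 : ∃ t, chk3 f_pp_112 t 1 1 1 = true :=
  ⟨(a (b (a (b (a (l 17239368) (l 17150592)) (b (a (l 17062720) (l 17085136)) (a (b (a (l 17057536) (l 17068248)) (a (c (l 132238890775) (l 17059136)) (l 17107712))) (b (l 17095632) (l 17172128))))) (a (b (l 17199672) (b (l 17141488) (l 17152672))) (l 1))) (a (c (b (b (a (b (a (l 148344942647) (l 150492497639)) (l 3)) (b (a (l 123112182183) (l 17213992)) (a (b (l 149418812903) (l 3)) (a (b (l 120427920151) (l 147271314951)) (l 1))))) (l 3)) (l 3)) (b (b (a (b (a (l 146734067895) (l 147270931831)) (l 3)) (b (a (l 17068512) (l 17061648)) (a (l 147270986215) (b (l 17075232) (l 148344822903))))) (l 3)) (l 3))) (b (l 1) (l 1)))) (l 1)), by decide +kernel⟩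

theorem c_pp_112 : CertF 536870912 536870912 0 536870912 201326592 134217728 false true true .dn 1 1 2
    ndF1q1 ndF0q2 pcF1 Cut.none Ext.none :=
  certF2 (fam := false) (s1 := true) (s2 := true) (a := 1) (b := 1) (c := 2) (cn := .dn) (n1 := ndF1q1) (n2 := ndF0q2) (pc := pcF1) (cut := Cut.none) (xt := Ext.none) (P1 := 536870912) (W1 := 536870912) (P2 := 0) (W2 := 536870912) (P3 := 201326592) (W3 := 134217728)
    rfl (fun _ => rfl) k0_pp_112

noncomputable def f_pp_202_a : ℕ → ℕ → ℕ → ℕ → Bool := onCell 0 536870912 0 536870912 201326592 134217728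
    (rowF 0 false true true .pp 2 0 2 (qsf 0 536870912 0 536870912 0) ndF1q2a ndF0q2 pcF0 Cut.none Ext.none)

def k0_pp_202_a : ∃ t, chk3 f_pp_202_a t 1 1 1 = true :=
  ⟨(l 3), by decide +kernel⟩

theorem c_pp_202_a : CertF 0 536870912 0 536870912 201326592 134217728 false true true .pp 2 0 2
    ndF1q2a ndF0q2 pcF0 Cut.none Ext.none :=
  certF0 (fam := false) (s1 := true) (s2 := true) (a := 2) (b := 0) (c := 2) (cn := .pp) (n1 := ndF1q2a) (n2 := ndF0q2) (pc := pcF0) (cut := Cut.none) (xt := Ext.none) (P1 := 0) (W1 := 536870912) (P2 := 0) (W2 := 536870912) (P3 := 201326592) (W3 := 134217728)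
    rfl k0_pp_202_a

noncomputable def f_pp_202_b : ℕ → ℕ → ℕ → ℕ → Bool := onCell 1239849684 370763052 0 536870912 201326592 134217728
    (rowF 0 false true true .pp 2 0 2 (qsf 1239849684 370763052 0 536870912 0) ndF1q2b ndF0q2 pcF0 Cut.none Ext.none)

def k0_pp_202_b : ∃ t, chk3 f_pp_202_b t 1 1 1 = true :=
  ⟨(l 3), by decide +kernel⟩

theorem c_pp_202_b : CertF 1239849684 370763052 0 536870912 201326592 134217728 false true true .pp 2 0 2
    ndF1q2b ndF0q2 pcF0 Cut.none Ext.none :=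
  certF0 (fam := false) (s1 := true) (s2 := true) (a := 2) (b := 0) (c := 2) (cn := .pp) (n1 := ndF1q2b) (n2 := ndF0q2) (pc := pcF0) (cut := Cut.none) (xt := Ext.none) (P1 := 1239849684) (W1 := 370763052) (P2 := 0) (W2 := 536870912) (P3 := 201326592) (W3 := 134217728)
    rfl k0_pp_202_b

noncomputable def f_pm_001 : ℕ → ℕ → ℕ → ℕ → Bool := onCell 0 536870912 536870912 536870912 201326592 134217728
    (rowF 0 false true false .up 0 0 1 (qsf 0 536870912 536870912 536870912 0) ndF1q0 ndF0q1 pcF0 Cut.none Ext.none)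

def k0_pm_001 : ∃ t, chk3 f_pm_001 t 1 1 1 = true :=
  ⟨(b (l 4) (b (l 4) (b (l 4) (a (l 2) (b (l 4) (a (l 2) (a (l 2) (c (l 148814977527) (a (l 179416733447) (l 17159800)))))))))), by decide +kernel⟩

theorem c_pm_001 : CertF 0 536870912 536870912 536870912 201326592 134217728 false true false .up 0 0 1
    ndF1q0 ndF0q1 pcF0 Cut.none Ext.none :=
  certF0 (fam := false) (s1 := true) (s2 := false) (a := 0) (b := 0) (c := 1) (cn := .up) (n1 := ndF1q0) (n2 := ndF0q1) (pc := pcF0) (cut := Cut.none) (xt := Ext.none) (P1 := 0) (W1 := 536870912) (P2 := 536870912) (W2 := 536870912) (P3 := 201326592) (W3 := 134217728)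
    rfl k0_pm_001

noncomputable def cut_pm_011 : Cut := Cut.of [[⟨0, 0, 0, 67108864⟩, ⟨1, 1, 0, 67108864⟩, ⟨2, 1, 0, 67108864⟩]]

noncomputable def f_pm_011 : ℕ → ℕ → ℕ → ℕ → Bool := onCell 0 536870912 536870912 536870912 201326592 134217728
    (rowF 0 false true false .pnn 0 1 1 (qsf 0 536870912 536870912 536870912 1) ndF1q0 ndF0q1 pcF1 cut_pm_011 Ext.none)

def k0_pm_011 : ∃ t, chk3 f_pm_011 t 1 1 1 = true :=
  ⟨(b (l 4) (b (l 4) (b (l 4) (b (a (l 4) (l 4)) (a (a (a (a (b (l 4) (l 6)) (l 4)) (l 4)) (l 4)) (a (c (l 360476435127) (l 296587710679)) (a (l 17162832) (l 17248176)))))))), by decide +kernel⟩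

theorem c_pm_011 : CertF 0 536870912 536870912 536870912 201326592 134217728 false true false .pnn 0 1 1
    ndF1q0 ndF0q1 pcF1 cut_pm_011 Ext.none :=
  certF0 (fam := false) (s1 := true) (s2 := false) (a := 0) (b := 1) (c := 1) (cn := .pnn) (n1 := ndF1q0) (n2 := ndF0q1) (pc := pcF1) (cut := cut_pm_011) (xt := Ext.none) (P1 := 0) (W1 := 536870912) (P2 := 536870912) (W2 := 536870912) (P3 := 201326592) (W3 := 134217728)
    rfl k0_pm_011

noncomputable def cut_pm_012 : Cut := Cut.of [[⟨0, 0, 0, 67108864⟩, ⟨1, 1, 0, 67108864⟩, ⟨2, 1, 0, 67108864⟩]]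

noncomputable def f_pm_012 : ℕ → ℕ → ℕ → ℕ → Bool := onCell 536870912 536870912 0 536870912 201326592 134217728
    (rowF 2 false true false .pnp 0 1 2 (qsf 0 536870912 0 536870912 1) ndF1q0 ndF0q2 pcF1 cut_pm_012 Ext.none)

def k0_pm_012 : ∃ t, chk3 f_pm_012 t 1 1 1 = true :=
  ⟨(a (a (b (b (l 2) (a (l 2) (b (l 2) (l 17194440)))) (a (b (l 2) (b (l 17318512) (l 17291504))) (b (b (l 17234672) (a (l 17266528) (l 17252672))) (b (b (l 17270360) (l 17254168)) (l 17205960))))) (b (b (l 17048656) (b (l 17131952) (a (l 17189424) (l 17146544)))) (a (b (a (b (l 17223608) (l 17231752)) (c (l 17350864) (l 17219968))) (b (a (l 17194344) (l 17126344)) (l 17060288))) (b (b (l 17142592) (b (l 17113480) (l 17076352))) (b (b (l 17017256) (l 16935904)) (b (l 16854744) (l 16775128))))))) (b (b (a (a (l 17024904) (l 16879304)) (a (l 16773944) (a (l 16733832) (l 16790976)))) (a (a (l 17035104) (l 16779448)) (a (b (l 16642368) (l 16577504)) (a (l 16700688) (b (l 16607160) (l 16566248))))))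 (a (a (b (b (l 16968152) (a (l 16919904) (l 16750848))) (b (a (b (l 16799328) (l 16681024)) (b (l 16580040) (l 16502496))) (l 61974818679))) (b (b (l 16685600) (l 16633864)) (b (a (l 16728576) (a (l 16621920) (l 16584392))) (b (a (l 16552696) (l 16717408)) (l 16752432))))) (a (b (a (b (l 16523656) (l 16500576)) (b (l 16531616) (l 16525888))) (a (b (b (l 16508856) (l 16710592)) (b (l 16782088) (l 16709008))) (b (l 16656112) (b (l 16729080) (b (l 16677464) (l 4)))))) (b (b (a (l 16539544) (l 16597896)) (a (l 16574224) (b (l 16523600) (l 16579568)))) (b (a (b (l 16562088) (l 16620568)) (b (a (l 16582344) (l 16594664)) (a (l 16636984) (l 16672456)))) (b (a (a (l 16712656) (l 16697824)) (a (b (l 16656280) (l 6)) (l 6))) (a (b (c (l 16730688) (l 16731720)) (b (l 16749928) (l 4))) (l 6))))))))), by decide +kernel⟩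

theorem c_pm_012 : CertF 0 536870912 0 536870912 201326592 134217728 false true false .pnp 0 1 2
    ndF1q0 ndF0q2 pcF1 cut_pm_012 Ext.none :=
  certF2 (fam := false) (s1 := true) (s2 := false) (a := 0) (b := 1) (c := 2) (cn := .pnp) (n1 := ndF1q0) (n2 := ndF0q2) (pc := pcF1) (cut := cut_pm_012) (xt := Ext.none) (P1 := 0) (W1 := 536870912) (P2 := 0) (W2 := 536870912) (P3 := 201326592) (W3 := 134217728)
    rfl (fun _ => rfl) k0_pm_012

noncomputable def cut_pm_022 : Cut := Cut.of [[⟨0, 0, 0, 67108864⟩, ⟨1, 1, 0, 67108864⟩, ⟨2, 1, 0, 67108864⟩]]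

noncomputable def f_pm_022 : ℕ → ℕ → ℕ → ℕ → Bool := onCell 0 536870912 0 536870912 201326592 134217728
    (rowF 0 false true false .pp 0 2 2 (qsf 0 536870912 0 536870912 2) ndF1q0 ndF0q2 pcF2 cut_pm_022 Ext.none)

def k0_pm_022 : ∃ t, chk3 f_pm_022 t 2 2 1 = true :=
  ⟨(a (b (b (a (a (a (a (b (c (l 16608352) (l 16572352)) (c (l 16577480) (l 16584440))) (c (l 16628432) (l 16615288))) (c (l 16643408) (l 16631528))) (c (l 16589136) (l 16579680))) (a (l 16601040) (l 16519464))) (a (a (b (c (l 16573864) (l 16580928)) (c (l 16602088) (l 16585936))) (l 16618688)) (l 16617304))) (a (a (b (b (c (l 16634648) (l 16594088)) (c (l 16668384) (l 16603408))) (c (a (b (l 16627336) (l 16638872)) (l 16611368)) (a (b (l 16621720) (l 16631952)) (l 16607616)))) (b (l 16649096) (c (l 16576736) (l 16576872)))) (b (a (l 16527808) (l 16487960)) (a (l 16552616) (l 16482912))))) (a (b (b (l 16507560) (l 16446680)) (b (l 16444840) (l 16485768))) (l 1))), by decide +kernel⟩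

def k1_pm_022 : ∃ t, chk3 f_pm_022 t 2 3 1 = true :=
  ⟨(a (b (a (a (a (a (b (c (b (l 16656256) (c (l 16668960) (l 16666144))) (b (l 16648088) (l 16659368))) (c (b (c (l 16680896) (l 16677928)) (c (a (l 16697328) (l 16689696)) (l 16707528))) (b (a (l 16674456) (l 16668152)) (b (l 16680824) (l 16687592))))) (b (c (l 16670376) (l 16642544)) (c (b (l 16665368) (l 16677088)) (b (l 16658584) (l 16670736))))) (b (c (l 16650680) (l 16624976)) (c (b (l 16643672) (l 16654136)) (b (l 16639104) (l 16650040))))) (b (a (l 16665464) (c (l 16575392) (l 16576184))) (b (l 16677888) (a (l 16664560) (l 16591832))))) (b (a (l 16619304) (l 16511000)) (a (b (l 16560456) (l 16583224)) (b (l 16533576) (l 1))))) (a (a (b (b (a (a (c (b (c (l 16703280) (l 16700400)) (a (c (l 16714160) (l 16711296)) (l 16704880))) (a (b (l 16698168) (c (l 16707776) (l 16703608))) (l 16694928))) (c (l 16710584) (l 16684200))) (c (l 16686424) (l 16683296))) (l 6)) (l 6)) (a (b (b (l 16674584) (l 6)) (l 6)) (b (b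 (l 16621104) (b (l 16633472) (l 16657768))) (l 1)))) (a (a (b (b (l 16601936) (l 1)) (l 1)) (l 1)) (l 1)))) (b (l 1) (l 1))), by decide +kernel⟩

def k2_pm_022 : ∃ t, chk3 f_pm_022 t 3 1 1 = true :=
  ⟨(l 1), by decide +kernel⟩

theorem s3_pm_022 : ∃ t, chk3 f_pm_022 t 2 1 1 = true := ex3_b k0_pm_022 k1_pm_022

theorem s4_pm_022 : ∃ t, chk3 f_pm_022 t 1 1 1 = true := ex3_a s3_pm_022 k2_pm_022

theorem c_pm_022 : CertF 0 536870912 0 536870912 201326592 134217728 false true false .pp 0 2 2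
    ndF1q0 ndF0q2 pcF2 cut_pm_022 Ext.none :=
  certF0 (fam := false) (s1 := true) (s2 := false) (a := 0) (b := 2) (c := 2) (cn := .pp) (n1 := ndF1q0) (n2 := ndF0q2) (pc := pcF2) (cut := cut_pm_022) (xt := Ext.none) (P1 := 0) (W1 := 536870912) (P2 := 0) (W2 := 536870912) (P3 := 201326592) (W3 := 134217728)
    rfl s4_pm_022

noncomputable def f_pm_101 : ℕ → ℕ → ℕ → ℕ → Bool := onCell 0 536870912 536870912 536870912 201326592 134217728
    (rowF 2 false true false .npn 1 0 1 (qsf 536870912 536870912 536870912 536870912 0) ndF1q1 ndF0q1 pcF0 Cut.none Ext.none)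

def k0_pm_101 : ∃ t, chk3 f_pm_101 t 1 1 1 = true :=
  ⟨(b (l 4) (a (b (a (a (b (l 4) (l 17674368)) (l 4)) (l 4)) (a (b (a (c (l 17849280) (l 17607200)) (l 17668960)) (c (l 17781176) (l 17665248))) (b (a (l 22248811479) (b (l 4) (l 17610560))) (a (l 17626720) (l 17685480))))) (b (l 4) (b (a (a (a (l 17557880) (l 4)) (l 4)) (l 4)) (b (a (a (l 17589864) (c (l 17711240) (l 17395464))) (a (b (l 4) (l 17644352)) (l 4))) (a (a (l 17558712) (l 17526800)) (a (c (l 17649712) (l 17300960)) (c (l 67345468343) (l 56607631895))))))))), by decide +kernel⟩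

theorem c_pm_101 : CertF 536870912 536870912 536870912 536870912 201326592 134217728 false true false .npn 1 0 1
    ndF1q1 ndF0q1 pcF0 Cut.none Ext.none :=
  certF2 (fam := false) (s1 := true) (s2 := false) (a := 1) (b := 0) (c := 1) (cn := .npn) (n1 := ndF1q1) (n2 := ndF0q1) (pc := pcF0) (cut := Cut.none) (xt := Ext.none) (P1 := 536870912) (W1 := 536870912) (P2 := 536870912) (W2 := 536870912) (P3 := 201326592) (W3 := 134217728)
    rfl (fun _ => rfl) k0_pm_101

noncomputable def f_pm_102 : ℕ → ℕ → ℕ → ℕ → Bool := onCell 536870912 536870912 0 536870912 201326592 134217728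
    (rowF 0 false true false .npp 1 0 2 (qsf 536870912 536870912 0 536870912 0) ndF1q1 ndF0q2 pcF0 Cut.none Ext.none)

def k0_pm_102 : ∃ t, chk3 f_pm_102 t 1 1 1 = true :=
  ⟨(a (b (a (b (l 2) (c (l 17228232) (l 17129096))) (b (b (l 17023888) (l 16967672)) (b (l 16968832) (l 17047192)))) (b (b (a (a (l 2) (l 16988536)) (b (l 16924080) (l 17132832))) (a (b (a (l 2) (l 17013168)) (l 17275200)) (c (l 17033608) (l 17014288)))) (a (b (b (l 17180176) (c (l 17306744) (l 21039885751))) (a (b (l 17299600) (l 17353088)) (b (l 17350992) (l 17424264)))) (b (c (l 17452720) (b (l 17149592) (l 17380624))) (a (c (l 17535552) (l 17313240)) (l 17518624)))))) (b (a (b (a (l 17059936) (b (l 17016544) (l 17036536))) (b (a (l 17020336) (l 17047888)) (a (l 16924496) (l 16927216)))) (b (a (b (l 16978944) (l 16989360)) (b (a (l 16949352) (b (c (l 16972864) (l 16898592)) (l 16925272))) (a (l 16950016) (b (l 16919288) (l 16926864))))) (b (a (l 17076800) (a (l 16944192) (l 17154336))) (a (l 16833832)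 (l 16920480))))) (b (a (b (a (l 16811072) (l 16843952)) (a (l 17039184) (l 17059408))) (b (a (l 16941160) (a (l 16837200) (l 16831992))) (a (l 17143080) (l 17403704)))) (a (b (a (b (l 17222008) (l 17341640)) (l 17433320)) (a (l 17478112) (l 17616072))) (b (a (l 17323392) (a (l 17350808) (l 17384520))) (b (a (l 17465872) (l 17486632)) (l 17780296))))))), by decide +kernel⟩

theorem c_pm_102 : CertF 536870912 536870912 0 536870912 201326592 134217728 false true false .npp 1 0 2
    ndF1q1 ndF0q2 pcF0 Cut.none Ext.none :=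
  certF0 (fam := false) (s1 := true) (s2 := false) (a := 1) (b := 0) (c := 2) (cn := .npp) (n1 := ndF1q1) (n2 := ndF0q2) (pc := pcF0) (cut := Cut.none) (xt := Ext.none) (P1 := 536870912) (W1 := 536870912) (P2 := 0) (W2 := 536870912) (P3 := 201326592) (W3 := 134217728)
    rfl k0_pm_102

noncomputable def f_pm_112 : ℕ → ℕ → ℕ → ℕ → Bool := onCell 536870912 536870912 0 536870912 201326592 134217728
    (rowF 0 false true false .dn 1 1 2 (qsf 536870912 536870912 0 536870912 1) ndF1q1 ndF0q2 pcF1 Cut.none Ext.none)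

def k0_pm_112 : ∃ t, chk3 f_pm_112 t 1 1 1 = true :=
  ⟨(a (b (a (b (b (l 17235080) (l 17289768)) (a (b (l 17336952) (l 17383056)) (l 17376176))) (a (b (l 17270696) (l 17394616)) (l 1))) (b (b (a (a (l 17385560) (l 17427560)) (l 1)) (a (a (l 17410744) (l 17477416)) (l 1))) (a (b (a (l 17457064) (l 17539480)) (l 17472856)) (l 1)))) (l 1)), by decide +kernel⟩

theorem c_pm_112 : CertF 536870912 536870912 0 536870912 201326592 134217728 false true false .dn 1 1 2
    ndF1q1 ndF0q2 pcF1 Cut.none Ext.none :=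
  certF0 (fam := false) (s1 := true) (s2 := false) (a := 1) (b := 1) (c := 2) (cn := .dn) (n1 := ndF1q1) (n2 := ndF0q2) (pc := pcF1) (cut := Cut.none) (xt := Ext.none) (P1 := 536870912) (W1 := 536870912) (P2 := 0) (W2 := 536870912) (P3 := 201326592) (W3 := 134217728)
    rfl k0_pm_112

noncomputable def cut_pm_202_a : Cut := Cut.of [[⟨0, 1, 0, 67108864⟩, ⟨1, 0, 0, 67108864⟩, ⟨2, 1, 0, 67108864⟩]]

noncomputable def f_pm_202_a : ℕ → ℕ → ℕ → ℕ → Bool := onCell 0 536870912 0 536870912 201326592 134217728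
    (rowF 0 false true false .pp 2 0 2 (qsf 0 536870912 0 536870912 0) ndF1q2a ndF0q2 pcF0 cut_pm_202_a Ext.none)

def k0_pm_202_a : ∃ t, chk3 f_pm_202_a t 1 1 1 = true :=
  ⟨(a (l 3) (b (l 3) (a (l 3) (a (l 3) (b (l 3) (b (l 3) (l 6))))))), by decide +kernel⟩

theorem c_pm_202_a : CertF 0 536870912 0 536870912 201326592 134217728 false true false .pp 2 0 2
    ndF1q2a ndF0q2 pcF0 cut_pm_202_a Ext.none :=
  certF0 (fam := false) (s1 := true) (s2 := false) (a := 2) (b := 0) (c := 2) (cn := .pp) (n1 := ndF1q2a) (n2 := ndF0q2) (pc := pcF0) (cut := cut_pm_202_a) (xt := Ext.none) (P1 := 0) (W1 := 536870912) (P2 := 0) (W2 := 536870912) (P3 := 201326592) (W3 := 134217728)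
    rfl k0_pm_202_a

noncomputable def cut_pm_202_b : Cut := Cut.of [[⟨0, 1, 0, 67108864⟩, ⟨1, 0, 0, 67108864⟩, ⟨2, 1, 0, 67108864⟩]]

noncomputable def f_pm_202_b : ℕ → ℕ → ℕ → ℕ → Bool := onCell 1239849684 370763052 0 536870912 201326592 134217728
    (rowF 0 false true false .pp 2 0 2 (qsf 1239849684 370763052 0 536870912 0) ndF1q2b ndF0q2 pcF0 cut_pm_202_b Ext.none)

def k0_pm_202_b : ∃ t, chk3 f_pm_202_b t 1 1 1 = true :=
  ⟨(l 3), by decide +kernel⟩

theorem c_pm_202_b : CertF 1239849684 370763052 0 536870912 201326592 134217728 false true false .pp 2 0 2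
    ndF1q2b ndF0q2 pcF0 cut_pm_202_b Ext.none :=
  certF0 (fam := false) (s1 := true) (s2 := false) (a := 2) (b := 0) (c := 2) (cn := .pp) (n1 := ndF1q2b) (n2 := ndF0q2) (pc := pcF0) (cut := cut_pm_202_b) (xt := Ext.none) (P1 := 1239849684) (W1 := 370763052) (P2 := 0) (W2 := 536870912) (P3 := 201326592) (W3 := 134217728)
    rfl k0_pm_202_b

noncomputable def f_mm_001 : ℕ → ℕ → ℕ → ℕ → Bool := onCell 0 536870912 536870912 536870912 201326592 134217728
    (rowF 0 false false false .up 0 0 1 (qsf 0 536870912 536870912 536870912 0) ndF1q0 ndF0q1 pcF0 Cut.none Ext.none)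

def k0_mm_001 : ∃ t, chk3 f_mm_001 t 1 1 1 = true :=
  ⟨(l 5), by decide +kernel⟩

theorem c_mm_001 : CertF 0 536870912 536870912 536870912 201326592 134217728 false false false .up 0 0 1
    ndF1q0 ndF0q1 pcF0 Cut.none Ext.none :=
  certF0 (fam := false) (s1 := false) (s2 := false) (a := 0) (b := 0) (c := 1) (cn := .up) (n1 := ndF1q0) (n2 := ndF0q1) (pc := pcF0) (cut := Cut.none) (xt := Ext.none) (P1 := 0) (W1 := 536870912) (P2 := 536870912) (W2 := 536870912) (P3 := 201326592) (W3 := 134217728)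
    rfl k0_mm_001

noncomputable def f_mm_011 : ℕ → ℕ → ℕ → ℕ → Bool := onCell 0 536870912 536870912 536870912 201326592 134217728
    (rowF 0 false false false .pnn 0 1 1 (qsf 0 536870912 536870912 536870912 1) ndF1q0 ndF0q1 pcF1 Cut.none Ext.none)

def k0_mm_011 : ∃ t, chk3 f_mm_011 t 1 1 1 = true :=
  ⟨(l 5), by decide +kernel⟩

theorem c_mm_011 : CertF 0 536870912 536870912 536870912 201326592 134217728 false false false .pnn 0 1 1
    ndF1q0 ndF0q1 pcF1 Cut.none Ext.none :=
  certF0 (fam := false) (s1 := false) (s2 := false) (a := 0) (b := 1) (c := 1) (cn := .pnn) (n1 := ndF1q0) (n2 := ndF0q1) (pc := pcF1) (cut := Cut.none) (xt := Ext.none) (P1 := 0) (W1 := 536870912) (P2 := 536870912) (W2 := 536870912) (P3 := 201326592) (W3 := 134217728)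
    rfl k0_mm_011

noncomputable def f_mm_012 : ℕ → ℕ → ℕ → ℕ → Bool := onCell 0 536870912 0 536870912 201326592 134217728
    (rowF 0 false false false .pnp 0 1 2 (qsf 0 536870912 0 536870912 1) ndF1q0 ndF0q2 pcF1 Cut.none Ext.none)

def k0_mm_012 : ∃ t, chk3 f_mm_012 t 1 1 1 = true :=
  ⟨(l 5), by decide +kernel⟩

theorem c_mm_012 : CertF 0 536870912 0 536870912 201326592 134217728 false false false .pnp 0 1 2
    ndF1q0 ndF0q2 pcF1 Cut.none Ext.none :=
  certF0 (fam := false) (s1 := false) (s2 := false) (a := 0) (b := 1) (c := 2) (cn := .pnp) (n1 := ndF1q0) (n2 := ndF0q2) (pc := pcF1) (cut := Cut.none) (xt := Ext.none) (P1 := 0) (W1 := 536870912) (P2 := 0) (W2 := 536870912) (P3 := 201326592) (W3 := 134217728)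
    rfl k0_mm_012

noncomputable def f_mm_022 : ℕ → ℕ → ℕ → ℕ → Bool := onCell 0 536870912 0 536870912 201326592 134217728
    (rowF 0 false false false .pp 0 2 2 (qsf 0 536870912 0 536870912 2) ndF1q0 ndF0q2 pcF2 Cut.none Ext.none)

def k0_mm_022 : ∃ t, chk3 f_mm_022 t 1 1 1 = true :=
  ⟨(l 5), by decide +kernel⟩

theorem c_mm_022 : CertF 0 536870912 0 536870912 201326592 134217728 false false false .pp 0 2 2
    ndF1q0 ndF0q2 pcF2 Cut.none Ext.none :=
  certF0 (fam := false) (s1 := false) (s2 := false) (a := 0) (b := 2) (c := 2) (cn := .pp) (n1 := ndF1q0) (n2 := ndF0q2) (pc := pcF2) (cut := Cut.none) (xt := Ext.none) (P1 := 0) (W1 := 536870912) (P2 := 0) (W2 := 536870912) (P3 := 201326592) (W3 := 134217728)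
    rfl k0_mm_022

noncomputable def f_mm_101 : ℕ → ℕ → ℕ → ℕ → Bool := onCell 536870912 536870912 536870912 536870912 201326592 134217728
    (rowF 0 false false false .npn 1 0 1 (qsf 536870912 536870912 536870912 536870912 0) ndF1q1 ndF0q1 pcF0 Cut.none Ext.none)

def k0_mm_101 : ∃ t, chk3 f_mm_101 t 1 1 1 = true :=
  ⟨(l 3), by decide +kernel⟩

theorem c_mm_101 : CertF 536870912 536870912 536870912 536870912 201326592 134217728 false false false .npn 1 0 1
    ndF1q1 ndF0q1 pcF0 Cut.none Ext.none :=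
  certF0 (fam := false) (s1 := false) (s2 := false) (a := 1) (b := 0) (c := 1) (cn := .npn) (n1 := ndF1q1) (n2 := ndF0q1) (pc := pcF0) (cut := Cut.none) (xt := Ext.none) (P1 := 536870912) (W1 := 536870912) (P2 := 536870912) (W2 := 536870912) (P3 := 201326592) (W3 := 134217728)
    rfl k0_mm_101

noncomputable def f_mm_102 : ℕ → ℕ → ℕ → ℕ → Bool := onCell 536870912 536870912 0 536870912 201326592 134217728
    (rowF 0 false false false .npp 1 0 2 (qsf 536870912 536870912 0 536870912 0) ndF1q1 ndF0q2 pcF0 Cut.none Ext.none)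

def k0_mm_102 : ∃ t, chk3 f_mm_102 t 1 1 1 = true :=
  ⟨(l 5), by decide +kernel⟩

theorem c_mm_102 : CertF 536870912 536870912 0 536870912 201326592 134217728 false false false .npp 1 0 2
    ndF1q1 ndF0q2 pcF0 Cut.none Ext.none :=
  certF0 (fam := false) (s1 := false) (s2 := false) (a := 1) (b := 0) (c := 2) (cn := .npp) (n1 := ndF1q1) (n2 := ndF0q2) (pc := pcF0) (cut := Cut.none) (xt := Ext.none) (P1 := 536870912) (W1 := 536870912) (P2 := 0) (W2 := 536870912) (P3 := 201326592) (W3 := 134217728)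
    rfl k0_mm_102

noncomputable def f_mm_112 : ℕ → ℕ → ℕ → ℕ → Bool := onCell 536870912 536870912 0 536870912 201326592 134217728
    (rowF 0 false false false .dn 1 1 2 (qsf 536870912 536870912 0 536870912 1) ndF1q1 ndF0q2 pcF1 Cut.none Ext.none)

def k0_mm_112 : ∃ t, chk3 f_mm_112 t 1 1 1 = true :=
  ⟨(l 5), by decide +kernel⟩

theorem c_mm_112 : CertF 536870912 536870912 0 536870912 201326592 134217728 false false false .dn 1 1 2
    ndF1q1 ndF0q2 pcF1 Cut.none Ext.none :=
  certF0 (fam := false) (s1 := false) (s2 := false) (a := 1) (b := 1) (c := 2) (cn := .dn) (n1 := ndF1q1) (n2 := ndF0q2) (pc := pcF1) (cut := Cut.none) (xt := Ext.none) (P1 := 536870912) (W1 := 536870912) (P2 := 0) (W2 := 536870912) (P3 := 201326592) (W3 := 134217728)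
    rfl k0_mm_112

noncomputable def f_mm_202_a : ℕ → ℕ → ℕ → ℕ → Bool := onCell 0 536870912 0 536870912 201326592 134217728
    (rowF 0 false false false .pp 2 0 2 (qsf 0 536870912 0 536870912 0) ndF1q2a ndF0q2 pcF0 Cut.none Ext.none)

def k0_mm_202_a : ∃ t, chk3 f_mm_202_a t 1 1 1 = true :=
  ⟨(l 3), by decide +kernel⟩

theorem c_mm_202_a : CertF 0 536870912 0 536870912 201326592 134217728 false false false .pp 2 0 2
    ndF1q2a ndF0q2 pcF0 Cut.none Ext.none :=
  certF0 (fam := false) (s1 := false) (s2 := false) (a := 2) (b := 0) (c := 2) (cn := .pp) (n1 := ndF1q2a) (n2 := ndF0q2) (pc := pcF0) (cut := Cut.none) (xt := Ext.none) (P1 := 0) (W1 := 536870912) (P2 := 0) (W2 := 536870912) (P3 := 201326592) (W3 := 134217728)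
    rfl k0_mm_202_a

noncomputable def f_mm_202_b : ℕ → ℕ → ℕ → ℕ → Bool := onCell 1239849684 370763052 0 536870912 201326592 134217728
    (rowF 0 false false false .pp 2 0 2 (qsf 1239849684 370763052 0 536870912 0) ndF1q2b ndF0q2 pcF0 Cut.none Ext.none)

def k0_mm_202_b : ∃ t, chk3 f_mm_202_b t 1 1 1 = true :=
  ⟨(l 3), by decide +kernel⟩

theorem c_mm_202_b : CertF 1239849684 370763052 0 536870912 201326592 134217728 false false false .pp 2 0 2
    ndF1q2b ndF0q2 pcF0 Cut.none Ext.none :=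
  certF0 (fam := false) (s1 := false) (s2 := false) (a := 2) (b := 0) (c := 2) (cn := .pp) (n1 := ndF1q2b) (n2 := ndF0q2) (pc := pcF0) (cut := Cut.none) (xt := Ext.none) (P1 := 1239849684) (W1 := 370763052) (P2 := 0) (W2 := 536870912) (P3 := 201326592) (W3 := 134217728)
    rfl k0_mm_202_b

end Pool.Agent.Strip051.G.I3_16_5_16.Tab.C.FB10

namespace Pool.Agent.Strip051.G.I3_16_5_16.Tab.C.FB11

open Pool.Agent.Strip051.PB Pool.Agent.Strip051.PB.T
open Pool.Agent.Strip051.G.I3_16_5_16.Tab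

noncomputable def f_pp_001 : ℕ → ℕ → ℕ → ℕ → Bool := onCell 0 536870912 536870912 536870912 201326592 134217728
    (rowF 0 false true true .up 0 0 1 (qsf 0 536870912 536870912 536870912 0) ndF1q0 ndF1q1 pcF0 Cut.none Ext.none)

def k0_pp_001 : ∃ t, chk3 f_pp_001 t 1 1 1 = true :=
  ⟨(l 3), by decide +kernel⟩

theorem c_pp_001 : CertF 0 536870912 536870912 536870912 201326592 134217728 false true true .up 0 0 1
    ndF1q0 ndF1q1 pcF0 Cut.none Ext.none :=
  certF0 (fam := false) (s1 := true) (s2 := true) (a := 0) (b := 0) (c := 1) (cn := .up) (n1 := ndF1q0) (n2 := ndF1q1) (pc := pcF0) (cut := Cut.none) (xt := Ext.none) (P1 := 0) (W1 := 536870912) (P2 := 536870912) (W2 := 536870912) (P3 := 201326592) (W3 := 134217728)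
    rfl k0_pp_001

noncomputable def f_pp_011 : ℕ → ℕ → ℕ → ℕ → Bool := onCell 0 536870912 536870912 536870912 201326592 134217728
    (rowF 0 false true true .pnn 0 1 1 (qsf 0 536870912 536870912 536870912 1) ndF1q0 ndF1q1 pcF1 Cut.none Ext.none)

def k0_pp_011 : ∃ t, chk3 f_pp_011 t 1 1 1 = true :=
  ⟨(l 3), by decide +kernel⟩

theorem c_pp_011 : CertF 0 536870912 536870912 536870912 201326592 134217728 false true true .pnn 0 1 1
    ndF1q0 ndF1q1 pcF1 Cut.none Ext.none :=
  certF0 (fam := false) (s1 := true) (s2 := true) (a := 0) (b := 1) (c := 1) (cn := .pnn) (n1 := ndF1q0) (n2 := ndF1q1) (pc := pcF1) (cut := Cut.none) (xt := Ext.none) (P1 := 0) (W1 := 536870912) (P2 := 536870912) (W2 := 536870912) (P3 := 201326592) (W3 := 134217728)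
    rfl k0_pp_011

noncomputable def cut_pp_012_a : Cut := Cut.of [[⟨0, 0, 0, 67108864⟩, ⟨1, 1, 0, 67108864⟩, ⟨2, 1, 0, 67108864⟩]]

noncomputable def f_pp_012_a : ℕ → ℕ → ℕ → ℕ → Bool := onCell 536870912 536870912 0 536870912 201326592 134217728
    (rowF 2 false true true .pnp 0 1 2 (qsf 0 536870912 0 536870912 1) ndF1q0 ndF1q2a pcF1 cut_pp_012_a Ext.none)

def k0_pp_012_a : ∃ t, chk3 f_pp_012_a t 1 1 1 = true :=
  ⟨(a (a (b (b (l 2) (b (l 2) (l 3))) (l 3)) (b (a (b (l 113918197383) (a (l 168208926199) (l 147271237479))) (b (l 16891552) (l 127943860375))) (a (l 3) (a (l 3) (b (l 238001978007) (l 3)))))) (a (b (a (b (l 16838216) (l 16910568)) (b (l 16830984) (l 16811288))) (b (a (b (l 17032432) (l 205789623479)) (b (l 16833800) (l 16970088))) (a (l 3) (b (b (l 180556855895) (l 3)) (l 3))))) (b (c (a (l 16961944) (b (l 16764392) (l 16796360))) (a (l 16946552) (b (l 16721488) (l 16723048)))) (b (b (a (l 16770688) (a (l 16735768) (l 16775856))) (a (l 16894288) (a (l 16754160)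 (b (l 16745584) (l 16714184))))) (a (b (b (l 16890864) (l 49560246487)) (b (a (l 3) (l 197736509991)) (l 3))) (b (a (b (l 16773536) (l 16786904)) (a (b (l 16754592) (l 16767456)) (b (l 16762704) (a (l 16757416) (l 16771616))))) (b (a (c (l 16845416) (l 16850944)) (a (b (l 16777624) (l 6)) (l 6))) (a (b (l 208473860247) (l 3)) (l 6))))))))), by decide +kernel⟩

theorem c_pp_012_a : CertF 0 536870912 0 536870912 201326592 134217728 false true true .pnp 0 1 2
    ndF1q0 ndF1q2a pcF1 cut_pp_012_a Ext.none :=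
  certF2 (fam := false) (s1 := true) (s2 := true) (a := 0) (b := 1) (c := 2) (cn := .pnp) (n1 := ndF1q0) (n2 := ndF1q2a) (pc := pcF1) (cut := cut_pp_012_a) (xt := Ext.none) (P1 := 0) (W1 := 536870912) (P2 := 0) (W2 := 536870912) (P3 := 201326592) (W3 := 134217728)
    rfl (fun _ => rfl) k0_pp_012_a

noncomputable def cut_pp_012_b : Cut := Cut.of [[⟨0, 0, 0, 67108864⟩, ⟨1, 1, 0, 67108864⟩, ⟨2, 1, 0, 67108864⟩]]

noncomputable def f_pp_012_b : ℕ → ℕ → ℕ → ℕ → Bool := onCell 536870912 536870912 1239849684 370763052 201326592 134217728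
    (rowF 2 false true true .pnp 0 1 2 (qsf 0 536870912 1239849684 370763052 1) ndF1q0 ndF1q2b pcF1 cut_pp_012_b Ext.none)

def k0_pp_012_b : ∃ t, chk3 f_pp_012_b t 1 1 1 = true :=
  ⟨(a (a (l 2) (b (a (l 170826302711) (b (l 16839456) (l 16839216))) (l 2))) (a (b (b (a (l 16855856) (l 16862504)) (l 16957400)) (l 16988968)) (b (a (b (b (l 16765960) (l 16816944)) (l 16990096)) (b (a (l 16672136) (l 16820968)) (l 16861024))) (a (l 17202656) (l 17256720))))), by decide +kernel⟩

theorem c_pp_012_b : CertF 0 536870912 1239849684 370763052 201326592 134217728 false true true .pnp 0 1 2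
    ndF1q0 ndF1q2b pcF1 cut_pp_012_b Ext.none :=
  certF2 (fam := false) (s1 := true) (s2 := true) (a := 0) (b := 1) (c := 2) (cn := .pnp) (n1 := ndF1q0) (n2 := ndF1q2b) (pc := pcF1) (cut := cut_pp_012_b) (xt := Ext.none) (P1 := 0) (W1 := 536870912) (P2 := 1239849684) (W2 := 370763052) (P3 := 201326592) (W3 := 134217728)
    rfl (fun _ => rfl) k0_pp_012_b

noncomputable def cut_pp_022_a : Cut := Cut.of [[⟨0, 0, 0, 67108864⟩, ⟨1, 1, 0, 67108864⟩, ⟨2, 1, 0, 67108864⟩]]

noncomputable def f_pp_022_a : ℕ → ℕ → ℕ → ℕ → Bool := onCell 0 536870912 0 536870912 201326592 134217728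
    (rowF 0 false true true .pp 0 2 2 (qsf 0 536870912 0 536870912 2) ndF1q0 ndF1q2a pcF2 cut_pp_022_a Ext.none)

def k0_pp_022_a : ∃ t, chk3 f_pp_022_a t 2 2 1 = true :=
  ⟨(a (b (a (a (a (b (a (a (c (b (a (c (l 16568128) (l 16563016)) (l 16479784)) (l 16534248)) (b (a (l 16556224) (l 16471264)) (l 16509232))) (c (l 16548808) (l 16530672))) (c (l 16565520) (l 16549312))) (a (b (c (a (l 16517560) (l 16493640)) (l 16538120)) (c (b (l 16516448) (l 16517648)) (a (l 16491192) (l 16476968)))) (b (c (l 16510664) (l 16494352)) (c (l 16521728) (l 16507160))))) (b (c (b (l 16551080) (l 16564736)) (b (l 16533440) (l 16563256))) (a (b (c (l 16501720) (l 16485328)) (a (l 16556856) (l 16563296))) (b (l 16568200) (a (l 16567800) (l 16508912)))))) (b (l 16541008) (c (l 16517416) (l 16520288)))) (c (l 16551608) (l 16553784))) (a (a (b (a (b (a (c (b (l 16519432) (l 16547704)) (a (l 16527392) (l 16513080))) (c (a (l 16513208) (l 16521008)) (l 16585392))) (a (c (b (l 16545272) (l 16550144))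 (a (l 16541248) (l 16527176))) (c (a (l 16570968) (l 16576992)) (a (l 16534296) (l 16539688))))) (a (b (c (l 16554656) (l 16574664)) (b (l 16521632) (l 16526784))) (l 16567480))) (a (b (b (a (c (a (l 16524168) (l 16511344)) (l 16533952)) (c (l 16560680) (l 16523768))) (a (c (c (l 16553440) (l 16557032)) (l 16561104)) (c (l 16524984) (l 16529976)))) (a (c (b (a (l 16559512) (l 16523184)) (l 16550568)) (a (l 16588320) (l 16531536))) (c (l 16533504) (l 16538688)))) (c (l 16562728) (l 16546504)))) (c (b (l 16520144) (l 16609584)) (b (l 16545056) (l 16572088)))) (a (b (l 16573432) (l 16602888)) (l 16620800)))) (a (b (l 16593280) (b (l 16653584) (l 249678362487))) (l 1))), by decide +kernel⟩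

def k1_pp_022_a : ∃ t, chk3 f_pp_022_a t 2 3 1 = true :=
  ⟨(a (b (a (a (b (c (a (c (a (b (l 16572400) (a (l 16600128) (l 16601120))) (l 16610104)) (b (l 16570400) (l 16598952))) (a (l 16611152) (l 16576592))) (a (c (l 16603592) (l 16601504)) (l 16596848))) (a (c (a (b (c (a (l 16629704) (l 16609720)) (l 16627496)) (c (b (l 16632008) (l 16647664)) (l 16658528))) (c (l 16669080) (l 16666832))) (b (l 16625280) (a (l 16655064) (l 16637024)))) (c (l 16676768) (l 16668384)))) (b (c (l 16622464) (l 16605168)) (a (c (l 16658872) (l 16640552)) (l 16681568)))) (b (a (l 16640488) (l 16675264)) (a (b (l 16676568) (l 16705328)) (b (l 16713744) (l 1))))) (b (b (a (a (a (a (b (c (c (l 16668840) (l 16661568)) (l 16658488)) (b (c (c (l 16675696) (l 16673904)) (l 16671072)) (l 6))) (c (l 16693984) (l 16690888))) (c (l 16697552) (l 16674560))) (a (l 16704416) (l 16705744))) (a (a (l 16706224) (l 1)) (l 1))) (a (a (l 6) (a (l 6) (b (l 16733312) (l 16774640)))) (l 1))) (a (a (l 6) (a (l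 6) (l 1))) (l 1)))) (b (l 1) (l 1))), by decide +kernel⟩

def k2_pp_022_a : ∃ t, chk3 f_pp_022_a t 3 1 1 = true :=
  ⟨(l 1), by decide +kernel⟩

theorem s3_pp_022_a : ∃ t, chk3 f_pp_022_a t 2 1 1 = true := ex3_b k0_pp_022_a k1_pp_022_a

theorem s4_pp_022_a : ∃ t, chk3 f_pp_022_a t 1 1 1 = true := ex3_a s3_pp_022_a k2_pp_022_a

theorem c_pp_022_a : CertF 0 536870912 0 536870912 201326592 134217728 false true true .pp 0 2 2
    ndF1q0 ndF1q2a pcF2 cut_pp_022_a Ext.none :=
  certF0 (fam := false) (s1 := true) (s2 := true) (a := 0) (b := 2) (c := 2) (cn := .pp) (n1 := ndF1q0) (n2 := ndF1q2a) (pc := pcF2) (cut := cut_pp_022_a) (xt := Ext.none) (P1 := 0) (W1 := 536870912) (P2 := 0) (W2 := 536870912) (P3 := 201326592) (W3 := 134217728)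
    rfl s4_pp_022_a

noncomputable def cut_pp_022_b : Cut := Cut.of [[⟨0, 0, 0, 67108864⟩, ⟨1, 1, 0, 67108864⟩, ⟨2, 1, 0, 67108864⟩]]

noncomputable def f_pp_022_b : ℕ → ℕ → ℕ → ℕ → Bool := onCell 0 536870912 1073741824 536870912 201326592 134217728
    (rowF 1 false true true .pp 0 2 2 (qsf 0 536870912 1239849684 370763052 2) ndF1q0 ndF1q2b pcF2 cut_pp_022_b Ext.none)

def k0_pp_022_b : ∃ t, chk3 f_pp_022_b t 2 2 1 = true :=
  ⟨(a (b (a (b (l 1) (b (a (l 1) (l 271153017559)) (b (a (l 1) (l 16560952)) (a (c (l 244309616663) (l 247530832695)) (c (l 16558536) (l 16538576)))))) (b (b (l 291554181847) (l 234108934791)) (b (l 16582216) (b (l 16478064) (c (l 16456320) (l 16453912)))))) (b (b (b (a (a (c (l 251288802167) (l 252899414647)) (c (l 16491232) (l 16450632))) (c (l 16468568) (l 16429824))) (a (a (b (c (l 16524920) (l 16499168)) (c (b (l 16493592) (b (l 16489016) (l 16517752))) (b (l 16466616) (a (l 16541304) (l 16460808))))) (b (l 16447200) (c (l 16511880) (l 16495240))))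 (b (l 16408840) (c (l 16718688) (l 16414064))))) (a (a (c (b (a (l 16491640) (l 16408464)) (l 16463072)) (a (l 16531672) (l 16450536))) (c (l 16420136) (l 16386976))) (c (l 16931744) (l 16351192)))) (a (b (a (c (a (l 16468136) (l 16474600)) (l 16460680)) (c (l 16774512) (l 16300744))) (a (c (b (l 16687720) (l 16840360)) (l 16375960)) (a (l 16409208) (l 16734128)))) (b (c (l 17208656) (l 16385208)) (c (l 17425784) (l 16674544)))))) (b (b (a (l 93448758487) (l 16535600)) (b (l 16585392) (b (l 16789496) (a (l 16615704) (l 17132584))))) (b (b (b (a (l 16757672) (l 17217112)) (a (b (l 16854384) (l 16914744)) (l 17293176))) (a (l 17052200) (l 17392704))) (b (l 17159272) (l 17510040))))), by decide +kernel⟩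

def k1_pp_022_b : ∃ t, chk3 f_pp_022_b t 2 3 1 = true :=
  ⟨(b (a (b (a (a (c (b (a (l 16833968) (l 17205328)) (l 17402648)) (b (l 16330784) (l 16387080))) (c (l 17400968) (b (l 16553856) (l 16826752)))) (c (l 17668064) (l 17006704))) (a (c (b (l 17653984) (l 17785064)) (b (a (l 16706552) (l 17043248)) (a (l 17090560) (l 17214376)))) (c (l 17881560) (l 17312744)))) (b (a (l 17570232) (l 17716632)) (a (l 17737736) (l 17832368)))) (b (a (a (c (b (l 17886096) (l 17969512)) (b (l 17296776) (l 17409200))) (l 17771904)) (l 17881064)) (a (a (c (l 18070504) (l 17546544)) (l 17890792)) (l 2)))), by decide +kernel⟩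

def k2_pp_022_b : ∃ t, chk3 f_pp_022_b t 3 1 1 = true :=
  ⟨(b (b (a (b (l 17226720) (b (l 17411232) (b (l 17489328) (l 17535816)))) (b (l 17611664) (b (l 17693008) (l 17734024)))) (b (b (a (b (l 17578176) (l 17615808)) (l 17772024)) (l 17751000)) (a (l 17746640) (l 2)))) (b (b (a (l 17830392) (l 2)) (l 2)) (l 2))), by decide +kernel⟩

theorem s3_pp_022_b : ∃ t, chk3 f_pp_022_b t 2 1 1 = true := ex3_b k0_pp_022_b k1_pp_022_b

theorem s4_pp_022_b : ∃ t, chk3 f_pp_022_b t 1 1 1 = true := ex3_a s3_pp_022_b k2_pp_022_b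

theorem c_pp_022_b : CertF 0 536870912 1239849684 370763052 201326592 134217728 false true true .pp 0 2 2
    ndF1q0 ndF1q2b pcF2 cut_pp_022_b Ext.none :=
  certF1 (fam := false) (s1 := true) (s2 := true) (a := 0) (b := 2) (c := 2) (cn := .pp) (n1 := ndF1q0) (n2 := ndF1q2b) (pc := pcF2) (cut := cut_pp_022_b) (xt := Ext.none) (P1 := 0) (W1 := 536870912) (P2 := 1239849684) (W2 := 370763052) (P3 := 201326592) (W3 := 134217728)
    rfl (fun _ => rfl) s4_pp_022_b

noncomputable def f_pp_023 : ℕ → ℕ → ℕ → ℕ → Bool := onCell 1073741824 536870912 1610612736 536870912 201326592 134217728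
    (rowF 2 false true true .up 0 2 3 (qsf 0 536870912 1610612736 536870912 2) ndF1q0 ndF1q3 pcF2 Cut.none Ext.none)

def k0_pp_023 : ∃ t, chk3 f_pp_023 t 1 1 1 = true :=
  ⟨(a (b (a (a (l 17770104) (a (l 17787232) (l 17794216))) (a (a (b (l 17764120) (l 17819544)) (l 17809696)) (l 17822056))) (a (l 2) (a (l 2) (l 17786496)))) (a (b (a (l 17838152) (b (l 17817904) (l 17874816))) (b (l 17831760) (l 17758392))) (b (b (a (l 17844776) (b (l 17845168) (l 17895912))) (l 17891912)) (l 17773032)))), by decide +kernel⟩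

theorem c_pp_023 : CertF 0 536870912 1610612736 536870912 201326592 134217728 false true true .up 0 2 3
    ndF1q0 ndF1q3 pcF2 Cut.none Ext.none :=
  certF2 (fam := false) (s1 := true) (s2 := true) (a := 0) (b := 2) (c := 3) (cn := .up) (n1 := ndF1q0) (n2 := ndF1q3) (pc := pcF2) (cut := Cut.none) (xt := Ext.none) (P1 := 0) (W1 := 536870912) (P2 := 1610612736) (W2 := 536870912) (P3 := 201326592) (W3 := 134217728)
    rfl (fun _ => rfl) k0_pp_023

noncomputable def f_pp_033 : ℕ → ℕ → ℕ → ℕ → Bool := onCell 0 536870912 1610612736 536870912 201326592 134217728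
    (rowF 1 false true true .pnn 0 3 3 (qsf 0 536870912 1610612736 536870912 3) ndF1q0 ndF1q3 pcF3 Cut.none Ext.none)

def k0_pp_033 : ∃ t, chk3 f_pp_033 t 1 1 1 = true :=
  ⟨(a (a (b (b (b (a (c (l 17915192) (l 17666456)) (l 17768496)) (c (l 17916264) (l 17678352))) (b (c (l 17924424) (l 17676328)) (c (l 17831832) (l 17629856)))) (b (l 4) (l 4))) (b (b (b (l 17727600) (l 17736784)) (b (l 17896552) (l 4))) (b (l 4) (a (b (l 4) (l 2)) (l 2))))) (b (a (b (b (l 17679992) (l 17776760)) (b (l 4) (l 4))) (b (b (l 17594096) (l 17368960)) (a (b (l 4) (l 2)) (l 2)))) (a (b (a (b (l 4) (l 2)) (l 2)) (l 2)) (l 2)))), by decide +kernel⟩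

theorem c_pp_033 : CertF 0 536870912 1610612736 536870912 201326592 134217728 false true true .pnn 0 3 3
    ndF1q0 ndF1q3 pcF3 Cut.none Ext.none :=
  certF1 (fam := false) (s1 := true) (s2 := true) (a := 0) (b := 3) (c := 3) (cn := .pnn) (n1 := ndF1q0) (n2 := ndF1q3) (pc := pcF3) (cut := Cut.none) (xt := Ext.none) (P1 := 0) (W1 := 536870912) (P2 := 1610612736) (W2 := 536870912) (P3 := 201326592) (W3 := 134217728)
    rfl (fun _ => rfl) k0_pp_033

noncomputable def f_pp_101 : ℕ → ℕ → ℕ → ℕ → Bool := onCell 536870912 536870912 536870912 536870912 201326592 134217728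
    (rowF 0 false true true .npn 1 0 1 (qsf 536870912 536870912 536870912 536870912 0) ndF1q1 ndF1q1 pcF0 Cut.none Ext.none)

def k0_pp_101 : ∃ t, chk3 f_pp_101 t 1 1 1 = true :=
  ⟨(l 3), by decide +kernel⟩

theorem c_pp_101 : CertF 536870912 536870912 536870912 536870912 201326592 134217728 false true true .npn 1 0 1
    ndF1q1 ndF1q1 pcF0 Cut.none Ext.none :=
  certF0 (fam := false) (s1 := true) (s2 := true) (a := 1) (b := 0) (c := 1) (cn := .npn) (n1 := ndF1q1) (n2 := ndF1q1) (pc := pcF0) (cut := Cut.none) (xt := Ext.none) (P1 := 536870912) (W1 := 536870912) (P2 := 536870912) (W2 := 536870912) (P3 := 201326592) (W3 := 134217728)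
    rfl k0_pp_101

noncomputable def f_pp_102_a : ℕ → ℕ → ℕ → ℕ → Bool := onCell 0 536870912 0 536870912 201326592 134217728
    (rowF 2 false true true .npp 1 0 2 (qsf 536870912 536870912 0 536870912 0) ndF1q1 ndF1q2a pcF0 Cut.none Ext.none)

def k0_pp_102_a : ∃ t, chk3 f_pp_102_a t 1 1 1 = true :=
  ⟨(b (a (l 3) (a (l 3) (l 3))) (l 3)), by decide +kernel⟩

theorem c_pp_102_a : CertF 536870912 536870912 0 536870912 201326592 134217728 false true true .npp 1 0 2
    ndF1q1 ndF1q2a pcF0 Cut.none Ext.none :=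
  certF2 (fam := false) (s1 := true) (s2 := true) (a := 1) (b := 0) (c := 2) (cn := .npp) (n1 := ndF1q1) (n2 := ndF1q2a) (pc := pcF0) (cut := Cut.none) (xt := Ext.none) (P1 := 536870912) (W1 := 536870912) (P2 := 0) (W2 := 536870912) (P3 := 201326592) (W3 := 134217728)
    rfl (fun _ => rfl) k0_pp_102_a

noncomputable def f_pp_102_b : ℕ → ℕ → ℕ → ℕ → Bool := onCell 0 536870912 1239849684 370763052 201326592 134217728
    (rowF 2 false true true .npp 1 0 2 (qsf 536870912 536870912 1239849684 370763052 0) ndF1q1 ndF1q2b pcF0 Cut.none Ext.none)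

def k0_pp_102_b : ∃ t, chk3 f_pp_102_b t 1 1 1 = true :=
  ⟨(a (l 3) (a (b (l 3) (l 3)) (b (b (l 3) (l 3)) (l 3)))), by decide +kernel⟩

theorem c_pp_102_b : CertF 536870912 536870912 1239849684 370763052 201326592 134217728 false true true .npp 1 0 2
    ndF1q1 ndF1q2b pcF0 Cut.none Ext.none :=
  certF2 (fam := false) (s1 := true) (s2 := true) (a := 1) (b := 0) (c := 2) (cn := .npp) (n1 := ndF1q1) (n2 := ndF1q2b) (pc := pcF0) (cut := Cut.none) (xt := Ext.none) (P1 := 536870912) (W1 := 536870912) (P2 := 1239849684) (W2 := 370763052) (P3 := 201326592) (W3 := 134217728)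
    rfl (fun _ => rfl) k0_pp_102_b

noncomputable def f_pp_112_a : ℕ → ℕ → ℕ → ℕ → Bool := onCell 536870912 536870912 0 536870912 201326592 134217728
    (rowF 0 false true true .dn 1 1 2 (qsf 536870912 536870912 0 536870912 1) ndF1q1 ndF1q2a pcF1 Cut.none Ext.none)

def k0_pp_112_a : ∃ t, chk3 f_pp_112_a t 1 1 1 = true :=
  ⟨(a (b (a (b (b (a (l 17149680) (a (l 17124384) (l 134923103623))) (a (a (l 17174192) (l 141902544631)) (a (l 141365620535) (l 3)))) (a (b (a (l 147808094135) (l 3)) (l 3)) (l 3))) (a (b (b (a (l 144049855031) (l 1)) (l 3)) (l 3)) (l 1))) (l 3)) (l 1)), by decide +kernel⟩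

theorem c_pp_112_a : CertF 536870912 536870912 0 536870912 201326592 134217728 false true true .dn 1 1 2
    ndF1q1 ndF1q2a pcF1 Cut.none Ext.none :=
  certF0 (fam := false) (s1 := true) (s2 := true) (a := 1) (b := 1) (c := 2) (cn := .dn) (n1 := ndF1q1) (n2 := ndF1q2a) (pc := pcF1) (cut := Cut.none) (xt := Ext.none) (P1 := 536870912) (W1 := 536870912) (P2 := 0) (W2 := 536870912) (P3 := 201326592) (W3 := 134217728)
    rfl k0_pp_112_a

noncomputable def f_pp_112_b : ℕ → ℕ → ℕ → ℕ → Bool := onCell 536870912 536870912 1239849684 370763052 201326592 134217728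
    (rowF 2 false true true .dn 1 1 2 (qsf 536870912 536870912 1239849684 370763052 1) ndF1q1 ndF1q2b pcF1 Cut.none Ext.none)

def k0_pp_112_b : ∃ t, chk3 f_pp_112_b t 1 1 1 = true :=
  ⟨(a (a (b (a (b (c (a (l 159082461303) (l 17209168)) (a (l 156934702535) (l 17052128))) (c (l 181094558471) (l 182704820951))) (b (b (l 17133696) (l 17157416)) (l 17198296))) (a (a (l 3) (b (l 17271032) (l 3))) (b (l 17261336) (l 218675654823)))) (b (a (b (l 17184152) (l 17220520)) (l 210488403895)) (a (l 17382344) (l 17279120)))) (a (b (b (l 1) (l 17347144)) (l 17312664)) (b (l 1) (l 17423936)))), by decide +kernel⟩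

theorem c_pp_112_b : CertF 536870912 536870912 1239849684 370763052 201326592 134217728 false true true .dn 1 1 2
    ndF1q1 ndF1q2b pcF1 Cut.none Ext.none :=
  certF2 (fam := false) (s1 := true) (s2 := true) (a := 1) (b := 1) (c := 2) (cn := .dn) (n1 := ndF1q1) (n2 := ndF1q2b) (pc := pcF1) (cut := Cut.none) (xt := Ext.none) (P1 := 536870912) (W1 := 536870912) (P2 := 1239849684) (W2 := 370763052) (P3 := 201326592) (W3 := 134217728)
    rfl (fun _ => rfl) k0_pp_112_b

noncomputable def f_pp_113 : ℕ → ℕ → ℕ → ℕ → Bool := onCell 536870912 536870912 536870912 536870912 201326592 134217728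
    (rowF 1 false true true .nn 1 1 3 (qsf 536870912 536870912 1610612736 536870912 1) ndF1q1 ndF1q3 pcF1 Cut.none Ext.none)

def k0_pp_113 : ∃ t, chk3 f_pp_113 t 1 1 1 = true :=
  ⟨(b (b (a (l 1) (b (a (l 1) (l 3)) (a (l 381749773783) (l 327123602823)))) (a (b (l 1) (l 17471680)) (a (l 160559407863) (b (l 17315320) (l 17250776))))) (b (a (l 275986736103) (l 17335712)) (a (l 17305696) (l 17210688)))), by decide +kernel⟩

theorem c_pp_113 : CertF 536870912 536870912 1610612736 536870912 201326592 134217728 false true true .nn 1 1 3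
    ndF1q1 ndF1q3 pcF1 Cut.none Ext.none :=
  certF1 (fam := false) (s1 := true) (s2 := true) (a := 1) (b := 1) (c := 3) (cn := .nn) (n1 := ndF1q1) (n2 := ndF1q3) (pc := pcF1) (cut := Cut.none) (xt := Ext.none) (P1 := 536870912) (W1 := 536870912) (P2 := 1610612736) (W2 := 536870912) (P3 := 201326592) (W3 := 134217728)
    rfl (fun _ => rfl) k0_pp_113

noncomputable def f_pp_123 : ℕ → ℕ → ℕ → ℕ → Bool := onCell 1073741824 536870912 1610612736 536870912 201326592 134217728
    (rowF 2 false true true .npn 1 2 3 (qsf 536870912 536870912 1610612736 536870912 2) ndF1q1 ndF1q3 pcF2 Cut.none Ext.none)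

def k0_pp_123 : ∃ t, chk3 f_pp_123 t 1 1 1 = true :=
  ⟨(a (b (a (a (l 17565800) (a (l 17560056) (l 289945893511))) (a (a (l 17538712) (l 17520512)) (l 330746966295))) (a (a (l 17274888) (a (l 17302904) (l 17506728))) (a (a (l 17328040) (l 17334064)) (l 17343072)))) (a (b (b (l 1) (l 17420608)) (l 17560920)) (b (l 1) (l 17247328)))), by decide +kernel⟩

theorem c_pp_123 : CertF 536870912 536870912 1610612736 536870912 201326592 134217728 false true true .npn 1 2 3
    ndF1q1 ndF1q3 pcF2 Cut.none Ext.none :=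
  certF2 (fam := false) (s1 := true) (s2 := true) (a := 1) (b := 2) (c := 3) (cn := .npn) (n1 := ndF1q1) (n2 := ndF1q3) (pc := pcF2) (cut := Cut.none) (xt := Ext.none) (P1 := 536870912) (W1 := 536870912) (P2 := 1610612736) (W2 := 536870912) (P3 := 201326592) (W3 := 134217728)
    rfl (fun _ => rfl) k0_pp_123

noncomputable def f_pp_133 : ℕ → ℕ → ℕ → ℕ → Bool := onCell 1610612736 536870912 1610612736 536870912 201326592 134217728
    (rowF 2 false true true .dn 1 3 3 (qsf 536870912 536870912 1610612736 536870912 3) ndF1q1 ndF1q3 pcF3 Cut.none Ext.none)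

def k0_pp_133 : ∃ t, chk3 f_pp_133 t 1 1 1 = true :=
  ⟨(a (b (l 1) (a (a (l 426310092199) (l 1)) (l 1))) (l 1)), by decide +kernel⟩

theorem c_pp_133 : CertF 536870912 536870912 1610612736 536870912 201326592 134217728 false true true .dn 1 3 3
    ndF1q1 ndF1q3 pcF3 Cut.none Ext.none :=
  certF2 (fam := false) (s1 := true) (s2 := true) (a := 1) (b := 3) (c := 3) (cn := .dn) (n1 := ndF1q1) (n2 := ndF1q3) (pc := pcF3) (cut := Cut.none) (xt := Ext.none) (P1 := 536870912) (W1 := 536870912) (P2 := 1610612736) (W2 := 536870912) (P3 := 201326592) (W3 := 134217728)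
    rfl (fun _ => rfl) k0_pp_133

noncomputable def f_pp_202_aa : ℕ → ℕ → ℕ → ℕ → Bool := onCell 0 536870912 0 536870912 201326592 134217728
    (rowF 0 false true true .pp 2 0 2 (qsf 0 536870912 0 536870912 0) ndF1q2a ndF1q2a pcF0 Cut.none Ext.none)

def k0_pp_202_aa : ∃ t, chk3 f_pp_202_aa t 1 1 1 = true :=
  ⟨(l 3), by decide +kernel⟩

theorem c_pp_202_aa : CertF 0 536870912 0 536870912 201326592 134217728 false true true .pp 2 0 2
    ndF1q2a ndF1q2a pcF0 Cut.none Ext.none :=
  certF0 (fam := false) (s1 := true) (s2 := true) (a := 2) (b := 0) (c := 2) (cn := .pp) (n1 := ndF1q2a) (n2 := ndF1q2a) (pc := pcF0) (cut := Cut.none) (xt := Ext.none) (P1 := 0) (W1 := 536870912) (P2 := 0) (W2 := 536870912) (P3 := 201326592) (W3 := 134217728)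
    rfl k0_pp_202_aa

noncomputable def f_pp_202_ab : ℕ → ℕ → ℕ → ℕ → Bool := onCell 0 536870912 1239849684 370763052 201326592 134217728
    (rowF 0 false true true .pp 2 0 2 (qsf 0 536870912 1239849684 370763052 0) ndF1q2a ndF1q2b pcF0 Cut.none Ext.none)

def k0_pp_202_ab : ∃ t, chk3 f_pp_202_ab t 1 1 1 = true :=
  ⟨(l 3), by decide +kernel⟩

theorem c_pp_202_ab : CertF 0 536870912 1239849684 370763052 201326592 134217728 false true true .pp 2 0 2
    ndF1q2a ndF1q2b pcF0 Cut.none Ext.none :=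
  certF0 (fam := false) (s1 := true) (s2 := true) (a := 2) (b := 0) (c := 2) (cn := .pp) (n1 := ndF1q2a) (n2 := ndF1q2b) (pc := pcF0) (cut := Cut.none) (xt := Ext.none) (P1 := 0) (W1 := 536870912) (P2 := 1239849684) (W2 := 370763052) (P3 := 201326592) (W3 := 134217728)
    rfl k0_pp_202_ab

noncomputable def f_pp_202_ba : ℕ → ℕ → ℕ → ℕ → Bool := onCell 1239849684 370763052 0 536870912 201326592 134217728
    (rowF 0 false true true .pp 2 0 2 (qsf 1239849684 370763052 0 536870912 0) ndF1q2b ndF1q2a pcF0 Cut.none Ext.none)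

def k0_pp_202_ba : ∃ t, chk3 f_pp_202_ba t 1 1 1 = true :=
  ⟨(l 3), by decide +kernel⟩

theorem c_pp_202_ba : CertF 1239849684 370763052 0 536870912 201326592 134217728 false true true .pp 2 0 2
    ndF1q2b ndF1q2a pcF0 Cut.none Ext.none :=
  certF0 (fam := false) (s1 := true) (s2 := true) (a := 2) (b := 0) (c := 2) (cn := .pp) (n1 := ndF1q2b) (n2 := ndF1q2a) (pc := pcF0) (cut := Cut.none) (xt := Ext.none) (P1 := 1239849684) (W1 := 370763052) (P2 := 0) (W2 := 536870912) (P3 := 201326592) (W3 := 134217728)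
    rfl k0_pp_202_ba

noncomputable def f_pp_202_bb : ℕ → ℕ → ℕ → ℕ → Bool := onCell 1239849684 370763052 1239849684 370763052 201326592 134217728
    (rowF 0 false true true .pp 2 0 2 (qsf 1239849684 370763052 1239849684 370763052 0) ndF1q2b ndF1q2b pcF0 Cut.none Ext.none)

def k0_pp_202_bb : ∃ t, chk3 f_pp_202_bb t 1 1 1 = true :=
  ⟨(l 3), by decide +kernel⟩

theorem c_pp_202_bb : CertF 1239849684 370763052 1239849684 370763052 201326592 134217728 false true true .pp 2 0 2
    ndF1q2b ndF1q2b pcF0 Cut.none Ext.none :=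
  certF0 (fam := false) (s1 := true) (s2 := true) (a := 2) (b := 0) (c := 2) (cn := .pp) (n1 := ndF1q2b) (n2 := ndF1q2b) (pc := pcF0) (cut := Cut.none) (xt := Ext.none) (P1 := 1239849684) (W1 := 370763052) (P2 := 1239849684) (W2 := 370763052) (P3 := 201326592) (W3 := 134217728)
    rfl k0_pp_202_bb

noncomputable def f_pp_203_a : ℕ → ℕ → ℕ → ℕ → Bool := onCell 0 536870912 0 536870912 201326592 134217728
    (rowF 1 false true true .up 2 0 3 (qsf 0 536870912 1610612736 536870912 0) ndF1q2a ndF1q3 pcF0 Cut.none Ext.none)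

def k0_pp_203_a : ∃ t, chk3 f_pp_203_a t 1 1 1 = true :=
  ⟨(l 3), by decide +kernel⟩

theorem c_pp_203_a : CertF 0 536870912 1610612736 536870912 201326592 134217728 false true true .up 2 0 3
    ndF1q2a ndF1q3 pcF0 Cut.none Ext.none :=
  certF1 (fam := false) (s1 := true) (s2 := true) (a := 2) (b := 0) (c := 3) (cn := .up) (n1 := ndF1q2a) (n2 := ndF1q3) (pc := pcF0) (cut := Cut.none) (xt := Ext.none) (P1 := 0) (W1 := 536870912) (P2 := 1610612736) (W2 := 536870912) (P3 := 201326592) (W3 := 134217728)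
    rfl (fun _ => rfl) k0_pp_203_a

noncomputable def f_pp_203_b : ℕ → ℕ → ℕ → ℕ → Bool := onCell 1239849684 370763052 1610612736 536870912 201326592 134217728
    (rowF 0 false true true .up 2 0 3 (qsf 1239849684 370763052 1610612736 536870912 0) ndF1q2b ndF1q3 pcF0 Cut.none Ext.none)

def k0_pp_203_b : ∃ t, chk3 f_pp_203_b t 1 1 1 = true :=
  ⟨(l 3), by decide +kernel⟩

theorem c_pp_203_b : CertF 1239849684 370763052 1610612736 536870912 201326592 134217728 false true true .up 2 0 3
    ndF1q2b ndF1q3 pcF0 Cut.none Ext.none :=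
  certF0 (fam := false) (s1 := true) (s2 := true) (a := 2) (b := 0) (c := 3) (cn := .up) (n1 := ndF1q2b) (n2 := ndF1q3) (pc := pcF0) (cut := Cut.none) (xt := Ext.none) (P1 := 1239849684) (W1 := 370763052) (P2 := 1610612736) (W2 := 536870912) (P3 := 201326592) (W3 := 134217728)
    rfl k0_pp_203_b

noncomputable def cut_pp_213_a : Cut := Cut.of [[⟨0, 1, 0, 57167902⟩, ⟨1, 1, 0, 57167902⟩, ⟨2, 2, 0, 11758673⟩]]

noncomputable def f_pp_213_a : ℕ → ℕ → ℕ → ℕ → Bool := onCell 0 536870912 1610612736 536870912 201326592 134217728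
    (rowF 0 false true true .pnn 2 1 3 (qsf 0 536870912 1610612736 536870912 1) ndF1q2a ndF1q3 pcF1 cut_pp_213_a Ext.none)

def k0_pp_213_a : ∃ t, chk3 f_pp_213_a t 1 1 1 = true :=
  ⟨(b (l 3) (a (l 3) (b (l 3) (a (l 3) (b (l 3) (a (l 3) (b (l 3) (b (l 3) (b (l 3) (l 6)))))))))), by decide +kernel⟩

theorem c_pp_213_a : CertF 0 536870912 1610612736 536870912 201326592 134217728 false true true .pnn 2 1 3
    ndF1q2a ndF1q3 pcF1 cut_pp_213_a Ext.none :=
  certF0 (fam := false) (s1 := true) (s2 := true) (a := 2) (b := 1) (c := 3) (cn := .pnn) (n1 := ndF1q2a) (n2 := ndF1q3) (pc := pcF1) (cut := cut_pp_213_a) (xt := Ext.none) (P1 := 0) (W1 := 536870912) (P2 := 1610612736) (W2 := 536870912) (P3 := 201326592) (W3 := 134217728)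
    rfl k0_pp_213_a

noncomputable def cut_pp_213_b : Cut := Cut.of [[⟨0, 1, 0, 57167902⟩, ⟨1, 1, 0, 57167902⟩, ⟨2, 2, 0, 11758673⟩]]

noncomputable def f_pp_213_b : ℕ → ℕ → ℕ → ℕ → Bool := onCell 1239849684 370763052 1610612736 536870912 201326592 134217728
    (rowF 0 false true true .pnn 2 1 3 (qsf 1239849684 370763052 1610612736 536870912 1) ndF1q2b ndF1q3 pcF1 cut_pp_213_b Ext.none)

def k0_pp_213_b : ∃ t, chk3 f_pp_213_b t 1 1 1 = true :=
  ⟨(l 3), by decide +kernel⟩

theorem c_pp_213_b : CertF 1239849684 370763052 1610612736 536870912 201326592 134217728 false true true .pnn 2 1 3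
    ndF1q2b ndF1q3 pcF1 cut_pp_213_b Ext.none :=
  certF0 (fam := false) (s1 := true) (s2 := true) (a := 2) (b := 1) (c := 3) (cn := .pnn) (n1 := ndF1q2b) (n2 := ndF1q3) (pc := pcF1) (cut := cut_pp_213_b) (xt := Ext.none) (P1 := 1239849684) (W1 := 370763052) (P2 := 1610612736) (W2 := 536870912) (P3 := 201326592) (W3 := 134217728)
    rfl k0_pp_213_b

noncomputable def f_pp_303 : ℕ → ℕ → ℕ → ℕ → Bool := onCell 1610612736 536870912 1610612736 536870912 201326592 134217728
    (rowF 0 false true true .npn 3 0 3 (qsf 1610612736 536870912 1610612736 536870912 0) ndF1q3 ndF1q3 pcF0 Cut.none Ext.none)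

def k0_pp_303 : ∃ t, chk3 f_pp_303 t 1 1 1 = true :=
  ⟨(l 3), by decide +kernel⟩

theorem c_pp_303 : CertF 1610612736 536870912 1610612736 536870912 201326592 134217728 false true true .npn 3 0 3
    ndF1q3 ndF1q3 pcF0 Cut.none Ext.none :=
  certF0 (fam := false) (s1 := true) (s2 := true) (a := 3) (b := 0) (c := 3) (cn := .npn) (n1 := ndF1q3) (n2 := ndF1q3) (pc := pcF0) (cut := Cut.none) (xt := Ext.none) (P1 := 1610612736) (W1 := 536870912) (P2 := 1610612736) (W2 := 536870912) (P3 := 201326592) (W3 := 134217728)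
    rfl k0_pp_303

noncomputable def f_pp_313 : ℕ → ℕ → ℕ → ℕ → Bool := onCell 1610612736 536870912 1610612736 536870912 201326592 134217728
    (rowF 0 false true true .dn 3 1 3 (qsf 1610612736 536870912 1610612736 536870912 1) ndF1q3 ndF1q3 pcF1 Cut.none Ext.none)

def k0_pp_313 : ∃ t, chk3 f_pp_313 t 1 1 1 = true :=
  ⟨(l 3), by decide +kernel⟩

theorem c_pp_313 : CertF 1610612736 536870912 1610612736 536870912 201326592 134217728 false true true .dn 3 1 3
    ndF1q3 ndF1q3 pcF1 Cut.none Ext.none :=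
  certF0 (fam := false) (s1 := true) (s2 := true) (a := 3) (b := 1) (c := 3) (cn := .dn) (n1 := ndF1q3) (n2 := ndF1q3) (pc := pcF1) (cut := Cut.none) (xt := Ext.none) (P1 := 1610612736) (W1 := 536870912) (P2 := 1610612736) (W2 := 536870912) (P3 := 201326592) (W3 := 134217728)
    rfl k0_pp_313

noncomputable def f_pm_001 : ℕ → ℕ → ℕ → ℕ → Bool := onCell 0 536870912 536870912 536870912 201326592 134217728
    (rowF 0 false true false .up 0 0 1 (qsf 0 536870912 536870912 536870912 0) ndF1q0 ndF1q1 pcF0 Cut.none Ext.none)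

def k0_pm_001 : ∃ t, chk3 f_pm_001 t 1 1 1 = true :=
  ⟨(l 4), by decide +kernel⟩

theorem c_pm_001 : CertF 0 536870912 536870912 536870912 201326592 134217728 false true false .up 0 0 1
    ndF1q0 ndF1q1 pcF0 Cut.none Ext.none :=
  certF0 (fam := false) (s1 := true) (s2 := false) (a := 0) (b := 0) (c := 1) (cn := .up) (n1 := ndF1q0) (n2 := ndF1q1) (pc := pcF0) (cut := Cut.none) (xt := Ext.none) (P1 := 0) (W1 := 536870912) (P2 := 536870912) (W2 := 536870912) (P3 := 201326592) (W3 := 134217728)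
    rfl k0_pm_001

noncomputable def f_pm_011 : ℕ → ℕ → ℕ → ℕ → Bool := onCell 0 536870912 536870912 536870912 201326592 134217728
    (rowF 0 false true false .pnn 0 1 1 (qsf 0 536870912 536870912 536870912 1) ndF1q0 ndF1q1 pcF1 Cut.none Ext.none)

def k0_pm_011 : ∃ t, chk3 f_pm_011 t 1 1 1 = true :=
  ⟨(l 4), by decide +kernel⟩

theorem c_pm_011 : CertF 0 536870912 536870912 536870912 201326592 134217728 false true false .pnn 0 1 1
    ndF1q0 ndF1q1 pcF1 Cut.none Ext.none :=
  certF0 (fam := false) (s1 := true) (s2 := false) (a := 0) (b := 1) (c := 1) (cn := .pnn) (n1 := ndF1q0) (n2 := ndF1q1) (pc := pcF1) (cut := Cut.none) (xt := Ext.none) (P1 := 0) (W1 := 536870912) (P2 := 536870912) (W2 := 536870912) (P3 := 201326592) (W3 := 134217728)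
    rfl k0_pm_011

noncomputable def cut_pm_012_a : Cut := Cut.of [[⟨0, 0, 0, 67108864⟩, ⟨1, 1, 0, 67108864⟩, ⟨2, 1, 0, 67108864⟩]]

noncomputable def f_pm_012_a : ℕ → ℕ → ℕ → ℕ → Bool := onCell 536870912 536870912 0 536870912 201326592 134217728
    (rowF 2 false true false .pnp 0 1 2 (qsf 0 536870912 0 536870912 1) ndF1q0 ndF1q2a pcF1 cut_pm_012_a Ext.none)

def k0_pm_012_a : ∃ t, chk3 f_pm_012_a t 1 1 1 = true :=
  ⟨(a (a (a (b (l 2) (b (l 2) (l 17331984))) (b (b (l 2) (a (l 2) (l 17334912))) (b (b (l 17375472) (l 17359840)) (l 17257656)))) (b (a (b (l 17293816) (a (l 17331040) (l 17410352))) (b (l 17262592) (b (l 17277664) (l 17259248)))) (b (a (b (l 17324216) (l 17276240)) (b (l 17210640) (l 17117184))) (b (a (l 17185096) (l 16980680)) (a (l 17067752) (l 16816784)))))) (b (a (a (b (l 17147712) (a (l 17159248) (l 17037928))) (b (l 16878816) (a (l 16862088) (l 16604496)))) (a (a (b (l 16467272) (l 16374368)) (b (l 16345008) (l 16390344))) (b (l 16450912) (a (l 16387632)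 (b (l 16411584) (l 16448576)))))) (a (a (b (b (a (l 17050472) (l 16886968)) (a (l 16911832) (l 16707024))) (b (l 16607832) (l 164517148951))) (b (a (b (l 16653688) (l 16472904)) (b (l 16438368) (l 16515432))) (b (l 16556872) (b (l 16618472) (l 4))))) (a (b (b (a (l 16475912) (l 16462080)) (a (a (l 16510304) (l 16509096)) (c (l 16528632) (l 16521160)))) (a (b (l 16560896) (l 243437264759)) (b (c (l 16582760) (l 16579384)) (b (l 16650544) (l 4))))) (b (a (b (l 16479048) (b (l 16524808) (l 16581640))) (b (l 16517960) (a (l 16554296) (l 16584560)))) (b (a (c (a (l 16606736) (l 16616408)) (a (l 16601376) (l 16611688))) (b (a (l 16610432) (l 16619016)) (a (l 16689344) (a (l 16678112) (l 16661624))))) (b (a (a (l 16653232) (l 16677504)) (a (b (l 16696352) (l 6)) (l 6))) (a (l 4) (l 6))))))))), by decide +kernel⟩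

theorem c_pm_012_a : CertF 0 536870912 0 536870912 201326592 134217728 false true false .pnp 0 1 2
    ndF1q0 ndF1q2a pcF1 cut_pm_012_a Ext.none :=
  certF2 (fam := false) (s1 := true) (s2 := false) (a := 0) (b := 1) (c := 2) (cn := .pnp) (n1 := ndF1q0) (n2 := ndF1q2a) (pc := pcF1) (cut := cut_pm_012_a) (xt := Ext.none) (P1 := 0) (W1 := 536870912) (P2 := 0) (W2 := 536870912) (P3 := 201326592) (W3 := 134217728)
    rfl (fun _ => rfl) k0_pm_012_a

noncomputable def cut_pm_012_b : Cut := Cut.of [[⟨0, 0, 0, 67108864⟩, ⟨1, 1, 0, 67108864⟩, ⟨2, 1, 0, 67108864⟩]]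

noncomputable def f_pm_012_b : ℕ → ℕ → ℕ → ℕ → Bool := onCell 536870912 536870912 1239849684 370763052 201326592 134217728
    (rowF 2 false true false .pnp 0 1 2 (qsf 0 536870912 1239849684 370763052 1) ndF1q0 ndF1q2b pcF1 cut_pm_012_b Ext.none)

def k0_pm_012_b : ∃ t, chk3 f_pm_012_b t 1 1 1 = true :=
  ⟨(a (a (l 2) (b (a (l 17396048) (l 17423984)) (l 2))) (b (a (b (a (l 17289688) (l 17137504)) (l 17516808)) (b (a (b (l 16555776) (l 16956568)) (b (l 16379168) (l 16261600))) (a (l 17391248) (a (l 17188824) (l 16949936))))) (a (l 17912592) (a (l 17827520) (b (l 17687040) (l 17973792)))))), by decide +kernel⟩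

theorem c_pm_012_b : CertF 0 536870912 1239849684 370763052 201326592 134217728 false true false .pnp 0 1 2
    ndF1q0 ndF1q2b pcF1 cut_pm_012_b Ext.none :=
  certF2 (fam := false) (s1 := true) (s2 := false) (a := 0) (b := 1) (c := 2) (cn := .pnp) (n1 := ndF1q0) (n2 := ndF1q2b) (pc := pcF1) (cut := cut_pm_012_b) (xt := Ext.none) (P1 := 0) (W1 := 536870912) (P2 := 1239849684) (W2 := 370763052) (P3 := 201326592) (W3 := 134217728)
    rfl (fun _ => rfl) k0_pm_012_b

noncomputable def cut_pm_022_a : Cut := Cut.of [[⟨0, 0, 0, 67108864⟩, ⟨1, 1, 0, 67108864⟩, ⟨2, 1, 0, 67108864⟩]]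

noncomputable def f_pm_022_a : ℕ → ℕ → ℕ → ℕ → Bool := onCell 0 536870912 0 536870912 201326592 134217728
    (rowF 0 false true false .pp 0 2 2 (qsf 0 536870912 0 536870912 2) ndF1q0 ndF1q2a pcF2 cut_pm_022_a Ext.none)

def k0_pm_022_a : ∃ t, chk3 f_pm_022_a t 1 1 1 = true :=
  ⟨(a (b (a (a (b (c (a (a (b (l 16561144) (l 16565992)) (l 16557216)) (l 16514008)) (a (a (l 16649040) (l 16540408)) (l 16501856))) (a (c (b (a (l 16618376) (l 16545488)) (a (a (l 16641848) (l 16583760)) (l 16559104))) (b (a (l 16575888) (l 16548248)) (a (l 16631984) (l 16560768)))) (b (l 16586032) (b (l 16572056) (l 16578512))))) (b (a (l 16504280) (l 16429560)) (a (l 16569488) (b (l 16435160) (l 16469760))))) (a (b (l 16456376) (a (l 16566952) (l 1))) (l 1))) (a (b (a (a (b (c (a (a (b (l 16614576) (l 16647080)) (l 16624536)) (l 16619768)) (a (b (l 16603544) (l 16635296)) (l 16620232))) (a (c (a (b (c (l 16640232) (l 16638920)) (c (l 16676720) (l 16654376))) (l 16682440)) (a (b (l 16635528)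 (l 16672240)) (l 16669664))) (c (l 16666288) (l 16666520)))) (b (a (l 16608112) (l 16552856)) (a (c (l 16609128) (l 16591624)) (l 16652168)))) (b (a (c (l 16515280) (l 16505224)) (l 16559568)) (a (b (l 16597832) (a (l 16589304) (l 16591568))) (b (l 16560704) (l 1))))) (a (a (b (b (a (c (a (c (a (l 16698768) (l 16668808)) (l 16703344)) (l 16675872)) (a (c (l 16712104) (l 16689080)) (l 16653112))) (c (l 16648736) (l 16649400))) (l 6)) (l 6)) (a (b (b (l 16664880) (l 6)) (l 6)) (b (b (l 16667888) (b (l 16656264) (l 16677104))) (l 1)))) (b (a (b (a (l 16628016) (l 1)) (l 1)) (l 1)) (l 1)))) (b (l 1) (l 1)))) (l 1)), by decide +kernel⟩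

theorem c_pm_022_a : CertF 0 536870912 0 536870912 201326592 134217728 false true false .pp 0 2 2
    ndF1q0 ndF1q2a pcF2 cut_pm_022_a Ext.none :=
  certF0 (fam := false) (s1 := true) (s2 := false) (a := 0) (b := 2) (c := 2) (cn := .pp) (n1 := ndF1q0) (n2 := ndF1q2a) (pc := pcF2) (cut := cut_pm_022_a) (xt := Ext.none) (P1 := 0) (W1 := 536870912) (P2 := 0) (W2 := 536870912) (P3 := 201326592) (W3 := 134217728)
    rfl k0_pm_022_a

noncomputable def cut_pm_022_b : Cut := Cut.of [[⟨0, 0, 0, 67108864⟩, ⟨1, 1, 0, 67108864⟩, ⟨2, 1, 0, 67108864⟩]]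

noncomputable def f_pm_022_b : ℕ → ℕ → ℕ → ℕ → Bool := onCell 0 536870912 1239849684 370763052 201326592 134217728
    (rowF 0 false true false .pp 0 2 2 (qsf 0 536870912 1239849684 370763052 2) ndF1q0 ndF1q2b pcF2 cut_pm_022_b Ext.none)

def k0_pm_022_b : ∃ t, chk3 f_pm_022_b t 1 1 1 = true :=
  ⟨(a (b (a (b (a (a (b (b (c (l 16612320) (l 16553200)) (c (l 16512424) (l 16495296))) (c (l 16502280) (l 16484536))) (c (a (l 16555664) (l 16526752)) (b (l 16485880) (l 16390296)))) (b (a (l 16490696) (l 16397504)) (a (l 16370352) (l 16289000)))) (a (b (a (c (l 17013288) (l 16380872)) (l 16481016)) (c (l 17387264) (l 16451960))) (b (l 16409336) (c (l 17369880) (l 16476640))))) (b (a (b (l 16422208) (l 16314080)) (b (l 16402352) (l 16324104))) (a (b (l 16387128) (l 16916048)) (b (l 16433816) (l 16961352))))) (a (b (a (b (c (l 17655784) (l 16955864)) (c (l 17837496) (l 17225968))) (b (l 17269960) (l 17511784))) (a (b (c (l 17955736) (l 17419360)) (l 4)) (b (l 17678152) (l 17787288))))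 (b (a (b (l 17275208) (l 17523240)) (b (l 17317728) (l 17562768))) (a (b (l 17693760) (l 17806632)) (l 17793640))))) (b (a (b (l 1) (a (c (l 17369432) (l 16261952)) (b (l 1) (l 17149560)))) (l 1)) (a (b (a (l 17520920) (l 17604552)) (a (l 17846056) (l 17909856))) (b (a (l 17685432) (l 1)) (c (l 18344120) (l 17674816)))))), by decide +kernel⟩

theorem c_pm_022_b : CertF 0 536870912 1239849684 370763052 201326592 134217728 false true false .pp 0 2 2
    ndF1q0 ndF1q2b pcF2 cut_pm_022_b Ext.none :=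
  certF0 (fam := false) (s1 := true) (s2 := false) (a := 0) (b := 2) (c := 2) (cn := .pp) (n1 := ndF1q0) (n2 := ndF1q2b) (pc := pcF2) (cut := cut_pm_022_b) (xt := Ext.none) (P1 := 0) (W1 := 536870912) (P2 := 1239849684) (W2 := 370763052) (P3 := 201326592) (W3 := 134217728)
    rfl k0_pm_022_b

noncomputable def f_pm_023 : ℕ → ℕ → ℕ → ℕ → Bool := onCell 1073741824 536870912 1610612736 536870912 201326592 134217728
    (rowF 2 false true false .up 0 2 3 (qsf 0 536870912 1610612736 536870912 2) ndF1q0 ndF1q3 pcF2 Cut.none Ext.none)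

def k0_pm_023 : ∃ t, chk3 f_pm_023 t 1 1 1 = true :=
  ⟨(a (b (a (l 18147048) (l 18088664)) (a (l 2) (l 17903944))) (a (b (b (l 17969104) (l 18020016)) (l 17870880)) (b (a (l 4) (l 4)) (l 17896560)))), by decide +kernel⟩

theorem c_pm_023 : CertF 0 536870912 1610612736 536870912 201326592 134217728 false true false .up 0 2 3
    ndF1q0 ndF1q3 pcF2 Cut.none Ext.none :=
  certF2 (fam := false) (s1 := true) (s2 := false) (a := 0) (b := 2) (c := 3) (cn := .up) (n1 := ndF1q0) (n2 := ndF1q3) (pc := pcF2) (cut := Cut.none) (xt := Ext.none) (P1 := 0) (W1 := 536870912) (P2 := 1610612736) (W2 := 536870912) (P3 := 201326592) (W3 := 134217728)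
    rfl (fun _ => rfl) k0_pm_023

noncomputable def f_pm_033 : ℕ → ℕ → ℕ → ℕ → Bool := onCell 0 536870912 1610612736 536870912 201326592 134217728
    (rowF 1 false true false .pnn 0 3 3 (qsf 0 536870912 1610612736 536870912 3) ndF1q0 ndF1q3 pcF3 Cut.none Ext.none)

def k0_pm_033 : ∃ t, chk3 f_pm_033 t 1 1 1 = true :=
  ⟨(a (b (l 4) (b (l 4) (a (l 4) (a (b (l 4) (l 2)) (l 2))))) (b (a (b (l 4) (l 4)) (b (b (l 17614712) (l 17487632)) (a (b (l 4) (l 2)) (l 2)))) (a (b (a (b (l 4) (l 2)) (l 2)) (l 2)) (l 2)))), by decide +kernel⟩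

theorem c_pm_033 : CertF 0 536870912 1610612736 536870912 201326592 134217728 false true false .pnn 0 3 3
    ndF1q0 ndF1q3 pcF3 Cut.none Ext.none :=
  certF1 (fam := false) (s1 := true) (s2 := false) (a := 0) (b := 3) (c := 3) (cn := .pnn) (n1 := ndF1q0) (n2 := ndF1q3) (pc := pcF3) (cut := Cut.none) (xt := Ext.none) (P1 := 0) (W1 := 536870912) (P2 := 1610612736) (W2 := 536870912) (P3 := 201326592) (W3 := 134217728)
    rfl (fun _ => rfl) k0_pm_033

noncomputable def f_pm_101 : ℕ → ℕ → ℕ → ℕ → Bool := onCell 536870912 536870912 536870912 536870912 201326592 134217728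
    (rowF 0 false true false .npn 1 0 1 (qsf 536870912 536870912 536870912 536870912 0) ndF1q1 ndF1q1 pcF0 Cut.none Ext.none)

def k0_pm_101 : ∃ t, chk3 f_pm_101 t 1 1 1 = true :=
  ⟨(l 4), by decide +kernel⟩

theorem c_pm_101 : CertF 536870912 536870912 536870912 536870912 201326592 134217728 false true false .npn 1 0 1
    ndF1q1 ndF1q1 pcF0 Cut.none Ext.none :=
  certF0 (fam := false) (s1 := true) (s2 := false) (a := 1) (b := 0) (c := 1) (cn := .npn) (n1 := ndF1q1) (n2 := ndF1q1) (pc := pcF0) (cut := Cut.none) (xt := Ext.none) (P1 := 536870912) (W1 := 536870912) (P2 := 536870912) (W2 := 536870912) (P3 := 201326592) (W3 := 134217728)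
    rfl k0_pm_101

noncomputable def f_pm_102_a : ℕ → ℕ → ℕ → ℕ → Bool := onCell 0 536870912 0 536870912 201326592 134217728
    (rowF 2 false true false .npp 1 0 2 (qsf 536870912 536870912 0 536870912 0) ndF1q1 ndF1q2a pcF0 Cut.none Ext.none)

def k0_pm_102_a : ∃ t, chk3 f_pm_102_a t 1 1 1 = true :=
  ⟨(a (b (a (a (l 2) (b (l 2) (a (l 2) (l 16984120)))) (b (a (l 16858112) (l 16707880)) (a (a (l 17020224) (l 17046088)) (l 17059144)))) (a (b (a (l 2) (c (l 17343624) (l 17258792))) (a (b (c (l 17548328) (l 17370368)) (l 17660656)) (b (l 17460520) (l 17550216)))) (b (a (l 17438568) (l 17303904)) (b (a (l 17438048) (l 17418712)) (l 17523912))))) (b (a (b (a (l 16760096) (l 16805520)) (a (l 17028440) (l 16957400))) (b (l 17056808) (a (l 16944776) (l 16953144)))) (a (b (a (l 17475880) (l 17399024)) (a (b (l 17402368) (l 17495488)) (b (l 17389088) (l 17472336)))) (a (b (l 17215112) (b (l 17367472) (l 17439104))) (b (l 17196096) (b (l 17338496) (l 17384080))))))), by decide +kernel⟩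

theorem c_pm_102_a : CertF 536870912 536870912 0 536870912 201326592 134217728 false true false .npp 1 0 2
    ndF1q1 ndF1q2a pcF0 Cut.none Ext.none :=
  certF2 (fam := false) (s1 := true) (s2 := false) (a := 1) (b := 0) (c := 2) (cn := .npp) (n1 := ndF1q1) (n2 := ndF1q2a) (pc := pcF0) (cut := Cut.none) (xt := Ext.none) (P1 := 536870912) (W1 := 536870912) (P2 := 0) (W2 := 536870912) (P3 := 201326592) (W3 := 134217728)
    rfl (fun _ => rfl) k0_pm_102_a

noncomputable def f_pm_102_b : ℕ → ℕ → ℕ → ℕ → Bool := onCell 536870912 536870912 1239849684 370763052 201326592 134217728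
    (rowF 0 false true false .npp 1 0 2 (qsf 536870912 536870912 1239849684 370763052 0) ndF1q1 ndF1q2b pcF0 Cut.none Ext.none)

def k0_pm_102_b : ∃ t, chk3 f_pm_102_b t 1 1 1 = true :=
  ⟨(a (b (a (l 2) (b (l 17019520) (l 16891760))) (l 2)) (b (a (b (l 17165336) (l 17034792)) (b (a (l 16766152) (l 16888368)) (a (l 17026384) (b (l 16747152) (l 16906336))))) (a (l 17100432) (a (l 17219944) (b (l 17156584) (l 17334880)))))), by decide +kernel⟩

theorem c_pm_102_b : CertF 536870912 536870912 1239849684 370763052 201326592 134217728 false true false .npp 1 0 2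
    ndF1q1 ndF1q2b pcF0 Cut.none Ext.none :=
  certF0 (fam := false) (s1 := true) (s2 := false) (a := 1) (b := 0) (c := 2) (cn := .npp) (n1 := ndF1q1) (n2 := ndF1q2b) (pc := pcF0) (cut := Cut.none) (xt := Ext.none) (P1 := 536870912) (W1 := 536870912) (P2 := 1239849684) (W2 := 370763052) (P3 := 201326592) (W3 := 134217728)
    rfl k0_pm_102_b

noncomputable def f_pm_112_a : ℕ → ℕ → ℕ → ℕ → Bool := onCell 536870912 536870912 0 536870912 201326592 134217728
    (rowF 0 false true false .dn 1 1 2 (qsf 536870912 536870912 0 536870912 1) ndF1q1 ndF1q2a pcF1 Cut.none Ext.none)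

def k0_pm_112_a : ∃ t, chk3 f_pm_112_a t 1 1 1 = true :=
  ⟨(a (b (a (a (b (l 17473808) (a (b (l 17470600) (l 17499480)) (l 17503120))) (b (l 17481584) (l 17533048))) (b (l 17510336) (a (l 17564504) (l 1)))) (b (a (b (l 17580792) (l 17669608)) (l 1)) (a (b (l 17542432) (l 17482816)) (l 1)))) (l 1)), by decide +kernel⟩

theorem c_pm_112_a : CertF 536870912 536870912 0 536870912 201326592 134217728 false true false .dn 1 1 2
    ndF1q1 ndF1q2a pcF1 Cut.none Ext.none :=
  certF0 (fam := false) (s1 := true) (s2 := false) (a := 1) (b := 1) (c := 2) (cn := .dn) (n1 := ndF1q1) (n2 := ndF1q2a) (pc := pcF1) (cut := Cut.none) (xt := Ext.none) (P1 := 536870912) (W1 := 536870912) (P2 := 0) (W2 := 536870912) (P3 := 201326592) (W3 := 134217728)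
    rfl k0_pm_112_a

noncomputable def f_pm_112_b : ℕ → ℕ → ℕ → ℕ → Bool := onCell 536870912 536870912 1239849684 370763052 201326592 134217728
    (rowF 2 false true false .dn 1 1 2 (qsf 536870912 536870912 1239849684 370763052 1) ndF1q1 ndF1q2b pcF1 Cut.none Ext.none)

def k0_pm_112_b : ∃ t, chk3 f_pm_112_b t 1 1 1 = true :=
  ⟨(a (a (b (a (l 17542760) (b (l 17529968) (l 17580248))) (l 17480640)) (b (a (l 17819824) (l 374234767959)) (l 17674416))) (b (a (l 372086383863) (l 1)) (a (l 17763176) (l 403226492167)))), by decide +kernel⟩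

theorem c_pm_112_b : CertF 536870912 536870912 1239849684 370763052 201326592 134217728 false true false .dn 1 1 2
    ndF1q1 ndF1q2b pcF1 Cut.none Ext.none :=
  certF2 (fam := false) (s1 := true) (s2 := false) (a := 1) (b := 1) (c := 2) (cn := .dn) (n1 := ndF1q1) (n2 := ndF1q2b) (pc := pcF1) (cut := Cut.none) (xt := Ext.none) (P1 := 536870912) (W1 := 536870912) (P2 := 1239849684) (W2 := 370763052) (P3 := 201326592) (W3 := 134217728)
    rfl (fun _ => rfl) k0_pm_112_b

noncomputable def f_pm_113 : ℕ → ℕ → ℕ → ℕ → Bool := onCell 536870912 536870912 536870912 536870912 201326592 134217728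
    (rowF 1 false true false .nn 1 1 3 (qsf 536870912 536870912 1610612736 536870912 1) ndF1q1 ndF1q3 pcF1 Cut.none Ext.none)

def k0_pm_113 : ∃ t, chk3 f_pm_113 t 1 1 1 = true :=
  ⟨(a (b (b (l 1) (b (l 1) (l 369939834215))) (a (l 396246476119) (l 17681792))) (b (b (b (l 17613384) (l 17399024)) (l 17326352)) (b (l 17325960) (l 17382464)))), by decide +kernel⟩

theorem c_pm_113 : CertF 536870912 536870912 1610612736 536870912 201326592 134217728 false true false .nn 1 1 3
    ndF1q1 ndF1q3 pcF1 Cut.none Ext.none :=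
  certF1 (fam := false) (s1 := true) (s2 := false) (a := 1) (b := 1) (c := 3) (cn := .nn) (n1 := ndF1q1) (n2 := ndF1q3) (pc := pcF1) (cut := Cut.none) (xt := Ext.none) (P1 := 536870912) (W1 := 536870912) (P2 := 1610612736) (W2 := 536870912) (P3 := 201326592) (W3 := 134217728)
    rfl (fun _ => rfl) k0_pm_113

noncomputable def f_pm_123 : ℕ → ℕ → ℕ → ℕ → Bool := onCell 1073741824 536870912 1610612736 536870912 201326592 134217728
    (rowF 2 false true false .npn 1 2 3 (qsf 536870912 536870912 1610612736 536870912 2) ndF1q1 ndF1q3 pcF2 Cut.none Ext.none)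

def k0_pm_123 : ∃ t, chk3 f_pm_123 t 1 1 1 = true :=
  ⟨(a (b (a (l 17993304) (l 391414998183)) (a (a (l 17420504) (a (l 17443200) (l 17455624))) (l 17458744))) (a (b (l 474629604711) (l 17408632)) (b (l 1) (l 17496224)))), by decide +kernel⟩

theorem c_pm_123 : CertF 536870912 536870912 1610612736 536870912 201326592 134217728 false true false .npn 1 2 3
    ndF1q1 ndF1q3 pcF2 Cut.none Ext.none :=
  certF2 (fam := false) (s1 := true) (s2 := false) (a := 1) (b := 2) (c := 3) (cn := .npn) (n1 := ndF1q1) (n2 := ndF1q3) (pc := pcF2) (cut := Cut.none) (xt := Ext.none) (P1 := 536870912) (W1 := 536870912) (P2 := 1610612736) (W2 := 536870912) (P3 := 201326592) (W3 := 134217728)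
    rfl (fun _ => rfl) k0_pm_123

noncomputable def f_pm_133 : ℕ → ℕ → ℕ → ℕ → Bool := onCell 1610612736 536870912 1610612736 536870912 201326592 134217728
    (rowF 2 false true false .dn 1 3 3 (qsf 536870912 536870912 1610612736 536870912 3) ndF1q1 ndF1q3 pcF3 Cut.none Ext.none)

def k0_pm_133 : ∃ t, chk3 f_pm_133 t 1 1 1 = true :=
  ⟨(a (b (l 1) (a (a (l 440268875095) (l 1)) (l 1))) (l 1)), by decide +kernel⟩

theorem c_pm_133 : CertF 536870912 536870912 1610612736 536870912 201326592 134217728 false true false .dn 1 3 3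
    ndF1q1 ndF1q3 pcF3 Cut.none Ext.none :=
  certF2 (fam := false) (s1 := true) (s2 := false) (a := 1) (b := 3) (c := 3) (cn := .dn) (n1 := ndF1q1) (n2 := ndF1q3) (pc := pcF3) (cut := Cut.none) (xt := Ext.none) (P1 := 536870912) (W1 := 536870912) (P2 := 1610612736) (W2 := 536870912) (P3 := 201326592) (W3 := 134217728)
    rfl (fun _ => rfl) k0_pm_133

noncomputable def cut_pm_202_aa : Cut := Cut.of [[⟨0, 1, 0, 67108864⟩, ⟨1, 0, 0, 67108864⟩, ⟨2, 1, 0, 67108864⟩]]

noncomputable def f_pm_202_aa : ℕ → ℕ → ℕ → ℕ → Bool := onCell 0 536870912 0 536870912 201326592 134217728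
    (rowF 0 false true false .pp 2 0 2 (qsf 0 536870912 0 536870912 0) ndF1q2a ndF1q2a pcF0 cut_pm_202_aa Ext.none)

def k0_pm_202_aa : ∃ t, chk3 f_pm_202_aa t 1 1 1 = true :=
  ⟨(a (l 3) (b (l 3) (b (l 3) (a (l 3) (b (l 3) (a (l 3) (l 6))))))), by decide +kernel⟩

theorem c_pm_202_aa : CertF 0 536870912 0 536870912 201326592 134217728 false true false .pp 2 0 2
    ndF1q2a ndF1q2a pcF0 cut_pm_202_aa Ext.none :=
  certF0 (fam := false) (s1 := true) (s2 := false) (a := 2) (b := 0) (c := 2) (cn := .pp) (n1 := ndF1q2a) (n2 := ndF1q2a) (pc := pcF0) (cut := cut_pm_202_aa) (xt := Ext.none) (P1 := 0) (W1 := 536870912) (P2 := 0) (W2 := 536870912) (P3 := 201326592) (W3 := 134217728)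
    rfl k0_pm_202_aa

noncomputable def cut_pm_202_ab : Cut := Cut.of [[⟨0, 1, 0, 67108864⟩, ⟨1, 0, 0, 67108864⟩, ⟨2, 1, 0, 67108864⟩]]

noncomputable def f_pm_202_ab : ℕ → ℕ → ℕ → ℕ → Bool := onCell 0 536870912 1239849684 370763052 201326592 134217728
    (rowF 0 false true false .pp 2 0 2 (qsf 0 536870912 1239849684 370763052 0) ndF1q2a ndF1q2b pcF0 cut_pm_202_ab Ext.none)

def k0_pm_202_ab : ∃ t, chk3 f_pm_202_ab t 1 1 1 = true :=
  ⟨(l 3), by decide +kernel⟩

theorem c_pm_202_ab : CertF 0 536870912 1239849684 370763052 201326592 134217728 false true false .pp 2 0 2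
    ndF1q2a ndF1q2b pcF0 cut_pm_202_ab Ext.none :=
  certF0 (fam := false) (s1 := true) (s2 := false) (a := 2) (b := 0) (c := 2) (cn := .pp) (n1 := ndF1q2a) (n2 := ndF1q2b) (pc := pcF0) (cut := cut_pm_202_ab) (xt := Ext.none) (P1 := 0) (W1 := 536870912) (P2 := 1239849684) (W2 := 370763052) (P3 := 201326592) (W3 := 134217728)
    rfl k0_pm_202_ab

noncomputable def cut_pm_202_ba : Cut := Cut.of [[⟨0, 1, 0, 67108864⟩, ⟨1, 0, 0, 67108864⟩, ⟨2, 1, 0, 67108864⟩]]

noncomputable def f_pm_202_ba : ℕ → ℕ → ℕ → ℕ → Bool := onCell 1239849684 370763052 0 536870912 201326592 134217728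
    (rowF 0 false true false .pp 2 0 2 (qsf 1239849684 370763052 0 536870912 0) ndF1q2b ndF1q2a pcF0 cut_pm_202_ba Ext.none)

def k0_pm_202_ba : ∃ t, chk3 f_pm_202_ba t 1 1 1 = true :=
  ⟨(l 3), by decide +kernel⟩

theorem c_pm_202_ba : CertF 1239849684 370763052 0 536870912 201326592 134217728 false true false .pp 2 0 2
    ndF1q2b ndF1q2a pcF0 cut_pm_202_ba Ext.none :=
  certF0 (fam := false) (s1 := true) (s2 := false) (a := 2) (b := 0) (c := 2) (cn := .pp) (n1 := ndF1q2b) (n2 := ndF1q2a) (pc := pcF0) (cut := cut_pm_202_ba) (xt := Ext.none) (P1 := 1239849684) (W1 := 370763052) (P2 := 0) (W2 := 536870912) (P3 := 201326592) (W3 := 134217728)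
    rfl k0_pm_202_ba

noncomputable def cut_pm_202_bb : Cut := Cut.of [[⟨0, 1, 0, 67108864⟩, ⟨1, 0, 0, 67108864⟩, ⟨2, 1, 0, 67108864⟩]]

noncomputable def f_pm_202_bb : ℕ → ℕ → ℕ → ℕ → Bool := onCell 1239849684 370763052 1239849684 370763052 201326592 134217728
    (rowF 0 false true false .pp 2 0 2 (qsf 1239849684 370763052 1239849684 370763052 0) ndF1q2b ndF1q2b pcF0 cut_pm_202_bb Ext.none)

def k0_pm_202_bb : ∃ t, chk3 f_pm_202_bb t 1 1 1 = true :=
  ⟨(l 3), by decide +kernel⟩

theorem c_pm_202_bb : CertF 1239849684 370763052 1239849684 370763052 201326592 134217728 false true false .pp 2 0 2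
    ndF1q2b ndF1q2b pcF0 cut_pm_202_bb Ext.none :=
  certF0 (fam := false) (s1 := true) (s2 := false) (a := 2) (b := 0) (c := 2) (cn := .pp) (n1 := ndF1q2b) (n2 := ndF1q2b) (pc := pcF0) (cut := cut_pm_202_bb) (xt := Ext.none) (P1 := 1239849684) (W1 := 370763052) (P2 := 1239849684) (W2 := 370763052) (P3 := 201326592) (W3 := 134217728)
    rfl k0_pm_202_bb

noncomputable def f_pm_203_a : ℕ → ℕ → ℕ → ℕ → Bool := onCell 0 536870912 0 536870912 201326592 134217728
    (rowF 1 false true false .up 2 0 3 (qsf 0 536870912 1610612736 536870912 0) ndF1q2a ndF1q3 pcF0 Cut.none Ext.none)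

def k0_pm_203_a : ∃ t, chk3 f_pm_203_a t 1 1 1 = true :=
  ⟨(l 3), by decide +kernel⟩

theorem c_pm_203_a : CertF 0 536870912 1610612736 536870912 201326592 134217728 false true false .up 2 0 3
    ndF1q2a ndF1q3 pcF0 Cut.none Ext.none :=
  certF1 (fam := false) (s1 := true) (s2 := false) (a := 2) (b := 0) (c := 3) (cn := .up) (n1 := ndF1q2a) (n2 := ndF1q3) (pc := pcF0) (cut := Cut.none) (xt := Ext.none) (P1 := 0) (W1 := 536870912) (P2 := 1610612736) (W2 := 536870912) (P3 := 201326592) (W3 := 134217728)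
    rfl (fun _ => rfl) k0_pm_203_a

noncomputable def f_pm_203_b : ℕ → ℕ → ℕ → ℕ → Bool := onCell 1239849684 370763052 1610612736 536870912 201326592 134217728
    (rowF 0 false true false .up 2 0 3 (qsf 1239849684 370763052 1610612736 536870912 0) ndF1q2b ndF1q3 pcF0 Cut.none Ext.none)

def k0_pm_203_b : ∃ t, chk3 f_pm_203_b t 1 1 1 = true :=
  ⟨(l 3), by decide +kernel⟩

theorem c_pm_203_b : CertF 1239849684 370763052 1610612736 536870912 201326592 134217728 false true false .up 2 0 3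
    ndF1q2b ndF1q3 pcF0 Cut.none Ext.none :=
  certF0 (fam := false) (s1 := true) (s2 := false) (a := 2) (b := 0) (c := 3) (cn := .up) (n1 := ndF1q2b) (n2 := ndF1q3) (pc := pcF0) (cut := Cut.none) (xt := Ext.none) (P1 := 1239849684) (W1 := 370763052) (P2 := 1610612736) (W2 := 536870912) (P3 := 201326592) (W3 := 134217728)
    rfl k0_pm_203_b

noncomputable def cut_pm_213_a : Cut := Cut.of [[⟨0, 1, 0, 57167902⟩, ⟨1, 1, 0, 57167902⟩, ⟨2, 2, 0, 11758673⟩]]

noncomputable def f_pm_213_a : ℕ → ℕ → ℕ → ℕ → Bool := onCell 0 536870912 1610612736 536870912 201326592 134217728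
    (rowF 0 false true false .pnn 2 1 3 (qsf 0 536870912 1610612736 536870912 1) ndF1q2a ndF1q3 pcF1 cut_pm_213_a Ext.none)

def k0_pm_213_a : ∃ t, chk3 f_pm_213_a t 1 1 1 = true :=
  ⟨(b (l 3) (a (l 3) (b (l 3) (a (l 3) (a (l 3) (b (l 3) (a (l 3) (b (l 3) (b (l 3) (b (l 3) (l 6))))))))))), by decide +kernel⟩

theorem c_pm_213_a : CertF 0 536870912 1610612736 536870912 201326592 134217728 false true false .pnn 2 1 3
    ndF1q2a ndF1q3 pcF1 cut_pm_213_a Ext.none :=
  certF0 (fam := false) (s1 := true) (s2 := false) (a := 2) (b := 1) (c := 3) (cn := .pnn) (n1 := ndF1q2a) (n2 := ndF1q3) (pc := pcF1) (cut := cut_pm_213_a) (xt := Ext.none) (P1 := 0) (W1 := 536870912) (P2 := 1610612736) (W2 := 536870912) (P3 := 201326592) (W3 := 134217728)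
    rfl k0_pm_213_a

noncomputable def cut_pm_213_b : Cut := Cut.of [[⟨0, 1, 0, 57167902⟩, ⟨1, 1, 0, 57167902⟩, ⟨2, 2, 0, 11758673⟩]]

noncomputable def f_pm_213_b : ℕ → ℕ → ℕ → ℕ → Bool := onCell 1239849684 370763052 1610612736 536870912 201326592 134217728
    (rowF 0 false true false .pnn 2 1 3 (qsf 1239849684 370763052 1610612736 536870912 1) ndF1q2b ndF1q3 pcF1 cut_pm_213_b Ext.none)

def k0_pm_213_b : ∃ t, chk3 f_pm_213_b t 1 1 1 = true :=
  ⟨(l 3), by decide +kernel⟩

theorem c_pm_213_b : CertF 1239849684 370763052 1610612736 536870912 201326592 134217728 false true false .pnn 2 1 3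
    ndF1q2b ndF1q3 pcF1 cut_pm_213_b Ext.none :=
  certF0 (fam := false) (s1 := true) (s2 := false) (a := 2) (b := 1) (c := 3) (cn := .pnn) (n1 := ndF1q2b) (n2 := ndF1q3) (pc := pcF1) (cut := cut_pm_213_b) (xt := Ext.none) (P1 := 1239849684) (W1 := 370763052) (P2 := 1610612736) (W2 := 536870912) (P3 := 201326592) (W3 := 134217728)
    rfl k0_pm_213_b

noncomputable def f_pm_303 : ℕ → ℕ → ℕ → ℕ → Bool := onCell 1610612736 536870912 1610612736 536870912 201326592 134217728
    (rowF 0 false true false .npn 3 0 3 (qsf 1610612736 536870912 1610612736 536870912 0) ndF1q3 ndF1q3 pcF0 Cut.none Ext.none)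

def k0_pm_303 : ∃ t, chk3 f_pm_303 t 1 1 1 = true :=
  ⟨(l 3), by decide +kernel⟩

theorem c_pm_303 : CertF 1610612736 536870912 1610612736 536870912 201326592 134217728 false true false .npn 3 0 3
    ndF1q3 ndF1q3 pcF0 Cut.none Ext.none :=
  certF0 (fam := false) (s1 := true) (s2 := false) (a := 3) (b := 0) (c := 3) (cn := .npn) (n1 := ndF1q3) (n2 := ndF1q3) (pc := pcF0) (cut := Cut.none) (xt := Ext.none) (P1 := 1610612736) (W1 := 536870912) (P2 := 1610612736) (W2 := 536870912) (P3 := 201326592) (W3 := 134217728)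
    rfl k0_pm_303

noncomputable def f_pm_313 : ℕ → ℕ → ℕ → ℕ → Bool := onCell 1610612736 536870912 1610612736 536870912 201326592 134217728
    (rowF 0 false true false .dn 3 1 3 (qsf 1610612736 536870912 1610612736 536870912 1) ndF1q3 ndF1q3 pcF1 Cut.none Ext.none)

def k0_pm_313 : ∃ t, chk3 f_pm_313 t 1 1 1 = true :=
  ⟨(l 3), by decide +kernel⟩

theorem c_pm_313 : CertF 1610612736 536870912 1610612736 536870912 201326592 134217728 false true false .dn 3 1 3
    ndF1q3 ndF1q3 pcF1 Cut.none Ext.none :=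
  certF0 (fam := false) (s1 := true) (s2 := false) (a := 3) (b := 1) (c := 3) (cn := .dn) (n1 := ndF1q3) (n2 := ndF1q3) (pc := pcF1) (cut := Cut.none) (xt := Ext.none) (P1 := 1610612736) (W1 := 536870912) (P2 := 1610612736) (W2 := 536870912) (P3 := 201326592) (W3 := 134217728)
    rfl k0_pm_313

noncomputable def f_mm_001 : ℕ → ℕ → ℕ → ℕ → Bool := onCell 0 536870912 536870912 536870912 201326592 134217728
    (rowF 0 false false false .up 0 0 1 (qsf 0 536870912 536870912 536870912 0) ndF1q0 ndF1q1 pcF0 Cut.none Ext.none)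

def k0_mm_001 : ∃ t, chk3 f_mm_001 t 1 1 1 = true :=
  ⟨(l 3), by decide +kernel⟩

theorem c_mm_001 : CertF 0 536870912 536870912 536870912 201326592 134217728 false false false .up 0 0 1
    ndF1q0 ndF1q1 pcF0 Cut.none Ext.none :=
  certF0 (fam := false) (s1 := false) (s2 := false) (a := 0) (b := 0) (c := 1) (cn := .up) (n1 := ndF1q0) (n2 := ndF1q1) (pc := pcF0) (cut := Cut.none) (xt := Ext.none) (P1 := 0) (W1 := 536870912) (P2 := 536870912) (W2 := 536870912) (P3 := 201326592) (W3 := 134217728)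
    rfl k0_mm_001

noncomputable def f_mm_011 : ℕ → ℕ → ℕ → ℕ → Bool := onCell 0 536870912 536870912 536870912 201326592 134217728
    (rowF 0 false false false .pnn 0 1 1 (qsf 0 536870912 536870912 536870912 1) ndF1q0 ndF1q1 pcF1 Cut.none Ext.none)

def k0_mm_011 : ∃ t, chk3 f_mm_011 t 1 1 1 = true :=
  ⟨(l 3), by decide +kernel⟩

theorem c_mm_011 : CertF 0 536870912 536870912 536870912 201326592 134217728 false false false .pnn 0 1 1
    ndF1q0 ndF1q1 pcF1 Cut.none Ext.none :=
  certF0 (fam := false) (s1 := false) (s2 := false) (a := 0) (b := 1) (c := 1) (cn := .pnn) (n1 := ndF1q0) (n2 := ndF1q1) (pc := pcF1) (cut := Cut.none) (xt := Ext.none) (P1 := 0) (W1 := 536870912) (P2 := 536870912) (W2 := 536870912) (P3 := 201326592) (W3 := 134217728)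
    rfl k0_mm_011

noncomputable def f_mm_012_a : ℕ → ℕ → ℕ → ℕ → Bool := onCell 0 536870912 0 536870912 201326592 134217728
    (rowF 0 false false false .pnp 0 1 2 (qsf 0 536870912 0 536870912 1) ndF1q0 ndF1q2a pcF1 Cut.none Ext.none)

def k0_mm_012_a : ∃ t, chk3 f_mm_012_a t 1 1 1 = true :=
  ⟨(l 5), by decide +kernel⟩

theorem c_mm_012_a : CertF 0 536870912 0 536870912 201326592 134217728 false false false .pnp 0 1 2
    ndF1q0 ndF1q2a pcF1 Cut.none Ext.none :=
  certF0 (fam := false) (s1 := false) (s2 := false) (a := 0) (b := 1) (c := 2) (cn := .pnp) (n1 := ndF1q0) (n2 := ndF1q2a) (pc := pcF1) (cut := Cut.none) (xt := Ext.none) (P1 := 0) (W1 := 536870912) (P2 := 0) (W2 := 536870912) (P3 := 201326592) (W3 := 134217728)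
    rfl k0_mm_012_a

noncomputable def f_mm_012_b : ℕ → ℕ → ℕ → ℕ → Bool := onCell 0 536870912 1239849684 370763052 201326592 134217728
    (rowF 0 false false false .pnp 0 1 2 (qsf 0 536870912 1239849684 370763052 1) ndF1q0 ndF1q2b pcF1 Cut.none Ext.none)

def k0_mm_012_b : ∃ t, chk3 f_mm_012_b t 1 1 1 = true :=
  ⟨(l 5), by decide +kernel⟩

theorem c_mm_012_b : CertF 0 536870912 1239849684 370763052 201326592 134217728 false false false .pnp 0 1 2
    ndF1q0 ndF1q2b pcF1 Cut.none Ext.none :=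
  certF0 (fam := false) (s1 := false) (s2 := false) (a := 0) (b := 1) (c := 2) (cn := .pnp) (n1 := ndF1q0) (n2 := ndF1q2b) (pc := pcF1) (cut := Cut.none) (xt := Ext.none) (P1 := 0) (W1 := 536870912) (P2 := 1239849684) (W2 := 370763052) (P3 := 201326592) (W3 := 134217728)
    rfl k0_mm_012_b

noncomputable def f_mm_022_a : ℕ → ℕ → ℕ → ℕ → Bool := onCell 0 536870912 0 536870912 201326592 134217728
    (rowF 0 false false false .pp 0 2 2 (qsf 0 536870912 0 536870912 2) ndF1q0 ndF1q2a pcF2 Cut.none Ext.none)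

def k0_mm_022_a : ∃ t, chk3 f_mm_022_a t 1 1 1 = true :=
  ⟨(l 5), by decide +kernel⟩

theorem c_mm_022_a : CertF 0 536870912 0 536870912 201326592 134217728 false false false .pp 0 2 2
    ndF1q0 ndF1q2a pcF2 Cut.none Ext.none :=
  certF0 (fam := false) (s1 := false) (s2 := false) (a := 0) (b := 2) (c := 2) (cn := .pp) (n1 := ndF1q0) (n2 := ndF1q2a) (pc := pcF2) (cut := Cut.none) (xt := Ext.none) (P1 := 0) (W1 := 536870912) (P2 := 0) (W2 := 536870912) (P3 := 201326592) (W3 := 134217728)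
    rfl k0_mm_022_a

noncomputable def f_mm_022_b : ℕ → ℕ → ℕ → ℕ → Bool := onCell 0 536870912 1239849684 370763052 201326592 134217728
    (rowF 0 false false false .pp 0 2 2 (qsf 0 536870912 1239849684 370763052 2) ndF1q0 ndF1q2b pcF2 Cut.none Ext.none)

def k0_mm_022_b : ∃ t, chk3 f_mm_022_b t 1 1 1 = true :=
  ⟨(l 5), by decide +kernel⟩

theorem c_mm_022_b : CertF 0 536870912 1239849684 370763052 201326592 134217728 false false false .pp 0 2 2
    ndF1q0 ndF1q2b pcF2 Cut.none Ext.none :=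
  certF0 (fam := false) (s1 := false) (s2 := false) (a := 0) (b := 2) (c := 2) (cn := .pp) (n1 := ndF1q0) (n2 := ndF1q2b) (pc := pcF2) (cut := Cut.none) (xt := Ext.none) (P1 := 0) (W1 := 536870912) (P2 := 1239849684) (W2 := 370763052) (P3 := 201326592) (W3 := 134217728)
    rfl k0_mm_022_b

noncomputable def f_mm_023 : ℕ → ℕ → ℕ → ℕ → Bool := onCell 0 536870912 1610612736 536870912 201326592 134217728
    (rowF 0 false false false .up 0 2 3 (qsf 0 536870912 1610612736 536870912 2) ndF1q0 ndF1q3 pcF2 Cut.none Ext.none)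

def k0_mm_023 : ∃ t, chk3 f_mm_023 t 1 1 1 = true :=
  ⟨(l 5), by decide +kernel⟩

theorem c_mm_023 : CertF 0 536870912 1610612736 536870912 201326592 134217728 false false false .up 0 2 3
    ndF1q0 ndF1q3 pcF2 Cut.none Ext.none :=
  certF0 (fam := false) (s1 := false) (s2 := false) (a := 0) (b := 2) (c := 3) (cn := .up) (n1 := ndF1q0) (n2 := ndF1q3) (pc := pcF2) (cut := Cut.none) (xt := Ext.none) (P1 := 0) (W1 := 536870912) (P2 := 1610612736) (W2 := 536870912) (P3 := 201326592) (W3 := 134217728)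
    rfl k0_mm_023

noncomputable def f_mm_033 : ℕ → ℕ → ℕ → ℕ → Bool := onCell 0 536870912 1610612736 536870912 201326592 134217728
    (rowF 0 false false false .pnn 0 3 3 (qsf 0 536870912 1610612736 536870912 3) ndF1q0 ndF1q3 pcF3 Cut.none Ext.none)

def k0_mm_033 : ∃ t, chk3 f_mm_033 t 1 1 1 = true :=
  ⟨(l 5), by decide +kernel⟩

theorem c_mm_033 : CertF 0 536870912 1610612736 536870912 201326592 134217728 false false false .pnn 0 3 3
    ndF1q0 ndF1q3 pcF3 Cut.none Ext.none :=
  certF0 (fam := false) (s1 := false) (s2 := false) (a := 0) (b := 3) (c := 3) (cn := .pnn) (n1 := ndF1q0) (n2 := ndF1q3) (pc := pcF3) (cut := Cut.none) (xt := Ext.none) (P1 := 0) (W1 := 536870912) (P2 := 1610612736) (W2 := 536870912) (P3 := 201326592) (W3 := 134217728)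
    rfl k0_mm_033

noncomputable def f_mm_101 : ℕ → ℕ → ℕ → ℕ → Bool := onCell 536870912 536870912 536870912 536870912 201326592 134217728
    (rowF 0 false false false .npn 1 0 1 (qsf 536870912 536870912 536870912 536870912 0) ndF1q1 ndF1q1 pcF0 Cut.none Ext.none)

def k0_mm_101 : ∃ t, chk3 f_mm_101 t 1 1 1 = true :=
  ⟨(l 3), by decide +kernel⟩

theorem c_mm_101 : CertF 536870912 536870912 536870912 536870912 201326592 134217728 false false false .npn 1 0 1
    ndF1q1 ndF1q1 pcF0 Cut.none Ext.none :=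
  certF0 (fam := false) (s1 := false) (s2 := false) (a := 1) (b := 0) (c := 1) (cn := .npn) (n1 := ndF1q1) (n2 := ndF1q1) (pc := pcF0) (cut := Cut.none) (xt := Ext.none) (P1 := 536870912) (W1 := 536870912) (P2 := 536870912) (W2 := 536870912) (P3 := 201326592) (W3 := 134217728)
    rfl k0_mm_101

noncomputable def f_mm_102_a : ℕ → ℕ → ℕ → ℕ → Bool := onCell 536870912 536870912 0 536870912 201326592 134217728
    (rowF 0 false false false .npp 1 0 2 (qsf 536870912 536870912 0 536870912 0) ndF1q1 ndF1q2a pcF0 Cut.none Ext.none)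

def k0_mm_102_a : ∃ t, chk3 f_mm_102_a t 1 1 1 = true :=
  ⟨(l 5), by decide +kernel⟩

theorem c_mm_102_a : CertF 536870912 536870912 0 536870912 201326592 134217728 false false false .npp 1 0 2
    ndF1q1 ndF1q2a pcF0 Cut.none Ext.none :=
  certF0 (fam := false) (s1 := false) (s2 := false) (a := 1) (b := 0) (c := 2) (cn := .npp) (n1 := ndF1q1) (n2 := ndF1q2a) (pc := pcF0) (cut := Cut.none) (xt := Ext.none) (P1 := 536870912) (W1 := 536870912) (P2 := 0) (W2 := 536870912) (P3 := 201326592) (W3 := 134217728)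
    rfl k0_mm_102_a

noncomputable def f_mm_102_b : ℕ → ℕ → ℕ → ℕ → Bool := onCell 536870912 536870912 1239849684 370763052 201326592 134217728
    (rowF 0 false false false .npp 1 0 2 (qsf 536870912 536870912 1239849684 370763052 0) ndF1q1 ndF1q2b pcF0 Cut.none Ext.none)

def k0_mm_102_b : ∃ t, chk3 f_mm_102_b t 1 1 1 = true :=
  ⟨(l 5), by decide +kernel⟩

theorem c_mm_102_b : CertF 536870912 536870912 1239849684 370763052 201326592 134217728 false false false .npp 1 0 2
    ndF1q1 ndF1q2b pcF0 Cut.none Ext.none :=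
  certF0 (fam := false) (s1 := false) (s2 := false) (a := 1) (b := 0) (c := 2) (cn := .npp) (n1 := ndF1q1) (n2 := ndF1q2b) (pc := pcF0) (cut := Cut.none) (xt := Ext.none) (P1 := 536870912) (W1 := 536870912) (P2 := 1239849684) (W2 := 370763052) (P3 := 201326592) (W3 := 134217728)
    rfl k0_mm_102_b

noncomputable def f_mm_112_a : ℕ → ℕ → ℕ → ℕ → Bool := onCell 536870912 536870912 0 536870912 201326592 134217728
    (rowF 0 false false false .dn 1 1 2 (qsf 536870912 536870912 0 536870912 1) ndF1q1 ndF1q2a pcF1 Cut.none Ext.none)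

def k0_mm_112_a : ∃ t, chk3 f_mm_112_a t 1 1 1 = true :=
  ⟨(l 5), by decide +kernel⟩

theorem c_mm_112_a : CertF 536870912 536870912 0 536870912 201326592 134217728 false false false .dn 1 1 2
    ndF1q1 ndF1q2a pcF1 Cut.none Ext.none :=
  certF0 (fam := false) (s1 := false) (s2 := false) (a := 1) (b := 1) (c := 2) (cn := .dn) (n1 := ndF1q1) (n2 := ndF1q2a) (pc := pcF1) (cut := Cut.none) (xt := Ext.none) (P1 := 536870912) (W1 := 536870912) (P2 := 0) (W2 := 536870912) (P3 := 201326592) (W3 := 134217728)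
    rfl k0_mm_112_a

noncomputable def f_mm_112_b : ℕ → ℕ → ℕ → ℕ → Bool := onCell 536870912 536870912 1239849684 370763052 201326592 134217728
    (rowF 0 false false false .dn 1 1 2 (qsf 536870912 536870912 1239849684 370763052 1) ndF1q1 ndF1q2b pcF1 Cut.none Ext.none)

def k0_mm_112_b : ∃ t, chk3 f_mm_112_b t 1 1 1 = true :=
  ⟨(l 5), by decide +kernel⟩

theorem c_mm_112_b : CertF 536870912 536870912 1239849684 370763052 201326592 134217728 false false false .dn 1 1 2
    ndF1q1 ndF1q2b pcF1 Cut.none Ext.none :=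
  certF0 (fam := false) (s1 := false) (s2 := false) (a := 1) (b := 1) (c := 2) (cn := .dn) (n1 := ndF1q1) (n2 := ndF1q2b) (pc := pcF1) (cut := Cut.none) (xt := Ext.none) (P1 := 536870912) (W1 := 536870912) (P2 := 1239849684) (W2 := 370763052) (P3 := 201326592) (W3 := 134217728)
    rfl k0_mm_112_b

noncomputable def f_mm_113 : ℕ → ℕ → ℕ → ℕ → Bool := onCell 536870912 536870912 1610612736 536870912 201326592 134217728
    (rowF 0 false false false .nn 1 1 3 (qsf 536870912 536870912 1610612736 536870912 1) ndF1q1 ndF1q3 pcF1 Cut.none Ext.none)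

def k0_mm_113 : ∃ t, chk3 f_mm_113 t 1 1 1 = true :=
  ⟨(l 5), by decide +kernel⟩

theorem c_mm_113 : CertF 536870912 536870912 1610612736 536870912 201326592 134217728 false false false .nn 1 1 3
    ndF1q1 ndF1q3 pcF1 Cut.none Ext.none :=
  certF0 (fam := false) (s1 := false) (s2 := false) (a := 1) (b := 1) (c := 3) (cn := .nn) (n1 := ndF1q1) (n2 := ndF1q3) (pc := pcF1) (cut := Cut.none) (xt := Ext.none) (P1 := 536870912) (W1 := 536870912) (P2 := 1610612736) (W2 := 536870912) (P3 := 201326592) (W3 := 134217728)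
    rfl k0_mm_113

noncomputable def f_mm_123 : ℕ → ℕ → ℕ → ℕ → Bool := onCell 536870912 536870912 1610612736 536870912 201326592 134217728
    (rowF 0 false false false .npn 1 2 3 (qsf 536870912 536870912 1610612736 536870912 2) ndF1q1 ndF1q3 pcF2 Cut.none Ext.none)

def k0_mm_123 : ∃ t, chk3 f_mm_123 t 1 1 1 = true :=
  ⟨(l 5), by decide +kernel⟩

theorem c_mm_123 : CertF 536870912 536870912 1610612736 536870912 201326592 134217728 false false false .npn 1 2 3
    ndF1q1 ndF1q3 pcF2 Cut.none Ext.none :=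
  certF0 (fam := false) (s1 := false) (s2 := false) (a := 1) (b := 2) (c := 3) (cn := .npn) (n1 := ndF1q1) (n2 := ndF1q3) (pc := pcF2) (cut := Cut.none) (xt := Ext.none) (P1 := 536870912) (W1 := 536870912) (P2 := 1610612736) (W2 := 536870912) (P3 := 201326592) (W3 := 134217728)
    rfl k0_mm_123

noncomputable def f_mm_133 : ℕ → ℕ → ℕ → ℕ → Bool := onCell 536870912 536870912 1610612736 536870912 201326592 134217728
    (rowF 0 false false false .dn 1 3 3 (qsf 536870912 536870912 1610612736 536870912 3) ndF1q1 ndF1q3 pcF3 Cut.none Ext.none)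

def k0_mm_133 : ∃ t, chk3 f_mm_133 t 1 1 1 = true :=
  ⟨(l 5), by decide +kernel⟩

theorem c_mm_133 : CertF 536870912 536870912 1610612736 536870912 201326592 134217728 false false false .dn 1 3 3
    ndF1q1 ndF1q3 pcF3 Cut.none Ext.none :=
  certF0 (fam := false) (s1 := false) (s2 := false) (a := 1) (b := 3) (c := 3) (cn := .dn) (n1 := ndF1q1) (n2 := ndF1q3) (pc := pcF3) (cut := Cut.none) (xt := Ext.none) (P1 := 536870912) (W1 := 536870912) (P2 := 1610612736) (W2 := 536870912) (P3 := 201326592) (W3 := 134217728)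
    rfl k0_mm_133

noncomputable def f_mm_202_aa : ℕ → ℕ → ℕ → ℕ → Bool := onCell 0 536870912 0 536870912 201326592 134217728
    (rowF 0 false false false .pp 2 0 2 (qsf 0 536870912 0 536870912 0) ndF1q2a ndF1q2a pcF0 Cut.none Ext.none)

def k0_mm_202_aa : ∃ t, chk3 f_mm_202_aa t 1 1 1 = true :=
  ⟨(l 3), by decide +kernel⟩

theorem c_mm_202_aa : CertF 0 536870912 0 536870912 201326592 134217728 false false false .pp 2 0 2
    ndF1q2a ndF1q2a pcF0 Cut.none Ext.none :=
  certF0 (fam := false) (s1 := false) (s2 := false) (a := 2) (b := 0) (c := 2) (cn := .pp) (n1 := ndF1q2a) (n2 := ndF1q2a) (pc := pcF0) (cut := Cut.none) (xt := Ext.none) (P1 := 0) (W1 := 536870912) (P2 := 0) (W2 := 536870912) (P3 := 201326592) (W3 := 134217728)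
    rfl k0_mm_202_aa

noncomputable def f_mm_202_ab : ℕ → ℕ → ℕ → ℕ → Bool := onCell 0 536870912 1239849684 370763052 201326592 134217728
    (rowF 0 false false false .pp 2 0 2 (qsf 0 536870912 1239849684 370763052 0) ndF1q2a ndF1q2b pcF0 Cut.none Ext.none)

def k0_mm_202_ab : ∃ t, chk3 f_mm_202_ab t 1 1 1 = true :=
  ⟨(l 3), by decide +kernel⟩

theorem c_mm_202_ab : CertF 0 536870912 1239849684 370763052 201326592 134217728 false false false .pp 2 0 2
    ndF1q2a ndF1q2b pcF0 Cut.none Ext.none :=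
  certF0 (fam := false) (s1 := false) (s2 := false) (a := 2) (b := 0) (c := 2) (cn := .pp) (n1 := ndF1q2a) (n2 := ndF1q2b) (pc := pcF0) (cut := Cut.none) (xt := Ext.none) (P1 := 0) (W1 := 536870912) (P2 := 1239849684) (W2 := 370763052) (P3 := 201326592) (W3 := 134217728)
    rfl k0_mm_202_ab

noncomputable def f_mm_202_ba : ℕ → ℕ → ℕ → ℕ → Bool := onCell 1239849684 370763052 0 536870912 201326592 134217728
    (rowF 0 false false false .pp 2 0 2 (qsf 1239849684 370763052 0 536870912 0) ndF1q2b ndF1q2a pcF0 Cut.none Ext.none)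

def k0_mm_202_ba : ∃ t, chk3 f_mm_202_ba t 1 1 1 = true :=
  ⟨(l 3), by decide +kernel⟩

theorem c_mm_202_ba : CertF 1239849684 370763052 0 536870912 201326592 134217728 false false false .pp 2 0 2
    ndF1q2b ndF1q2a pcF0 Cut.none Ext.none :=
  certF0 (fam := false) (s1 := false) (s2 := false) (a := 2) (b := 0) (c := 2) (cn := .pp) (n1 := ndF1q2b) (n2 := ndF1q2a) (pc := pcF0) (cut := Cut.none) (xt := Ext.none) (P1 := 1239849684) (W1 := 370763052) (P2 := 0) (W2 := 536870912) (P3 := 201326592) (W3 := 134217728)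
    rfl k0_mm_202_ba

noncomputable def f_mm_202_bb : ℕ → ℕ → ℕ → ℕ → Bool := onCell 1239849684 370763052 1239849684 370763052 201326592 134217728
    (rowF 0 false false false .pp 2 0 2 (qsf 1239849684 370763052 1239849684 370763052 0) ndF1q2b ndF1q2b pcF0 Cut.none Ext.none)

def k0_mm_202_bb : ∃ t, chk3 f_mm_202_bb t 1 1 1 = true :=
  ⟨(l 3), by decide +kernel⟩

theorem c_mm_202_bb : CertF 1239849684 370763052 1239849684 370763052 201326592 134217728 false false false .pp 2 0 2
    ndF1q2b ndF1q2b pcF0 Cut.none Ext.none :=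
  certF0 (fam := false) (s1 := false) (s2 := false) (a := 2) (b := 0) (c := 2) (cn := .pp) (n1 := ndF1q2b) (n2 := ndF1q2b) (pc := pcF0) (cut := Cut.none) (xt := Ext.none) (P1 := 1239849684) (W1 := 370763052) (P2 := 1239849684) (W2 := 370763052) (P3 := 201326592) (W3 := 134217728)
    rfl k0_mm_202_bb

noncomputable def f_mm_203_a : ℕ → ℕ → ℕ → ℕ → Bool := onCell 0 536870912 1610612736 536870912 201326592 134217728
    (rowF 0 false false false .up 2 0 3 (qsf 0 536870912 1610612736 536870912 0) ndF1q2a ndF1q3 pcF0 Cut.none Ext.none)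

def k0_mm_203_a : ∃ t, chk3 f_mm_203_a t 1 1 1 = true :=
  ⟨(l 5), by decide +kernel⟩

theorem c_mm_203_a : CertF 0 536870912 1610612736 536870912 201326592 134217728 false false false .up 2 0 3
    ndF1q2a ndF1q3 pcF0 Cut.none Ext.none :=
  certF0 (fam := false) (s1 := false) (s2 := false) (a := 2) (b := 0) (c := 3) (cn := .up) (n1 := ndF1q2a) (n2 := ndF1q3) (pc := pcF0) (cut := Cut.none) (xt := Ext.none) (P1 := 0) (W1 := 536870912) (P2 := 1610612736) (W2 := 536870912) (P3 := 201326592) (W3 := 134217728)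
    rfl k0_mm_203_a

noncomputable def f_mm_203_b : ℕ → ℕ → ℕ → ℕ → Bool := onCell 1239849684 370763052 1610612736 536870912 201326592 134217728
    (rowF 0 false false false .up 2 0 3 (qsf 1239849684 370763052 1610612736 536870912 0) ndF1q2b ndF1q3 pcF0 Cut.none Ext.none)

def k0_mm_203_b : ∃ t, chk3 f_mm_203_b t 1 1 1 = true :=
  ⟨(l 3), by decide +kernel⟩

theorem c_mm_203_b : CertF 1239849684 370763052 1610612736 536870912 201326592 134217728 false false false .up 2 0 3
    ndF1q2b ndF1q3 pcF0 Cut.none Ext.none :=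
  certF0 (fam := false) (s1 := false) (s2 := false) (a := 2) (b := 0) (c := 3) (cn := .up) (n1 := ndF1q2b) (n2 := ndF1q3) (pc := pcF0) (cut := Cut.none) (xt := Ext.none) (P1 := 1239849684) (W1 := 370763052) (P2 := 1610612736) (W2 := 536870912) (P3 := 201326592) (W3 := 134217728)
    rfl k0_mm_203_b

noncomputable def f_mm_213_a : ℕ → ℕ → ℕ → ℕ → Bool := onCell 0 536870912 1610612736 536870912 201326592 134217728
    (rowF 0 false false false .pnn 2 1 3 (qsf 0 536870912 1610612736 536870912 1) ndF1q2a ndF1q3 pcF1 Cut.none Ext.none)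

def k0_mm_213_a : ∃ t, chk3 f_mm_213_a t 1 1 1 = true :=
  ⟨(l 5), by decide +kernel⟩

theorem c_mm_213_a : CertF 0 536870912 1610612736 536870912 201326592 134217728 false false false .pnn 2 1 3
    ndF1q2a ndF1q3 pcF1 Cut.none Ext.none :=
  certF0 (fam := false) (s1 := false) (s2 := false) (a := 2) (b := 1) (c := 3) (cn := .pnn) (n1 := ndF1q2a) (n2 := ndF1q3) (pc := pcF1) (cut := Cut.none) (xt := Ext.none) (P1 := 0) (W1 := 536870912) (P2 := 1610612736) (W2 := 536870912) (P3 := 201326592) (W3 := 134217728)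
    rfl k0_mm_213_a

noncomputable def f_mm_213_b : ℕ → ℕ → ℕ → ℕ → Bool := onCell 1239849684 370763052 1610612736 536870912 201326592 134217728
    (rowF 0 false false false .pnn 2 1 3 (qsf 1239849684 370763052 1610612736 536870912 1) ndF1q2b ndF1q3 pcF1 Cut.none Ext.none)

def k0_mm_213_b : ∃ t, chk3 f_mm_213_b t 1 1 1 = true :=
  ⟨(l 3), by decide +kernel⟩

theorem c_mm_213_b : CertF 1239849684 370763052 1610612736 536870912 201326592 134217728 false false false .pnn 2 1 3
    ndF1q2b ndF1q3 pcF1 Cut.none Ext.none :=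
  certF0 (fam := false) (s1 := false) (s2 := false) (a := 2) (b := 1) (c := 3) (cn := .pnn) (n1 := ndF1q2b) (n2 := ndF1q3) (pc := pcF1) (cut := Cut.none) (xt := Ext.none) (P1 := 1239849684) (W1 := 370763052) (P2 := 1610612736) (W2 := 536870912) (P3 := 201326592) (W3 := 134217728)
    rfl k0_mm_213_b

noncomputable def f_mm_303 : ℕ → ℕ → ℕ → ℕ → Bool := onCell 1610612736 536870912 1610612736 536870912 201326592 134217728
    (rowF 0 false false false .npn 3 0 3 (qsf 1610612736 536870912 1610612736 536870912 0) ndF1q3 ndF1q3 pcF0 Cut.none Ext.none)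

def k0_mm_303 : ∃ t, chk3 f_mm_303 t 1 1 1 = true :=
  ⟨(l 3), by decide +kernel⟩

theorem c_mm_303 : CertF 1610612736 536870912 1610612736 536870912 201326592 134217728 false false false .npn 3 0 3
    ndF1q3 ndF1q3 pcF0 Cut.none Ext.none :=
  certF0 (fam := false) (s1 := false) (s2 := false) (a := 3) (b := 0) (c := 3) (cn := .npn) (n1 := ndF1q3) (n2 := ndF1q3) (pc := pcF0) (cut := Cut.none) (xt := Ext.none) (P1 := 1610612736) (W1 := 536870912) (P2 := 1610612736) (W2 := 536870912) (P3 := 201326592) (W3 := 134217728)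
    rfl k0_mm_303

noncomputable def f_mm_313 : ℕ → ℕ → ℕ → ℕ → Bool := onCell 1610612736 536870912 1610612736 536870912 201326592 134217728
    (rowF 0 false false false .dn 3 1 3 (qsf 1610612736 536870912 1610612736 536870912 1) ndF1q3 ndF1q3 pcF1 Cut.none Ext.none)

def k0_mm_313 : ∃ t, chk3 f_mm_313 t 1 1 1 = true :=
  ⟨(l 3), by decide +kernel⟩

theorem c_mm_313 : CertF 1610612736 536870912 1610612736 536870912 201326592 134217728 false false false .dn 3 1 3
    ndF1q3 ndF1q3 pcF1 Cut.none Ext.none :=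
  certF0 (fam := false) (s1 := false) (s2 := false) (a := 3) (b := 1) (c := 3) (cn := .dn) (n1 := ndF1q3) (n2 := ndF1q3) (pc := pcF1) (cut := Cut.none) (xt := Ext.none) (P1 := 1610612736) (W1 := 536870912) (P2 := 1610612736) (W2 := 536870912) (P3 := 201326592) (W3 := 134217728)
    rfl k0_mm_313

end Pool.Agent.Strip051.G.I3_16_5_16.Tab.C.FB11

namespace Pool.Agent.Strip051.G.I3_16_5_16.Tab.C.FB12

open Pool.Agent.Strip051.PB Pool.Agent.Strip051.PB.T
open Pool.Agent.Strip051.G.I3_16_5_16.Tab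

noncomputable def f_pp_001 : ℕ → ℕ → ℕ → ℕ → Bool := onCell 0 536870912 0 536870912 201326592 134217728
    (rowF 1 false true true .up 0 0 1 (qsf 0 536870912 536870912 536870912 0) ndF1q0 ndF2q1 pcF0 Cut.none Ext.none)

def k0_pp_001 : ∃ t, chk3 f_pp_001 t 1 1 1 = true :=
  ⟨(l 3), by decide +kernel⟩

theorem c_pp_001 : CertF 0 536870912 536870912 536870912 201326592 134217728 false true true .up 0 0 1
    ndF1q0 ndF2q1 pcF0 Cut.none Ext.none :=
  certF1 (fam := false) (s1 := true) (s2 := true) (a := 0) (b := 0) (c := 1) (cn := .up) (n1 := ndF1q0) (n2 := ndF2q1) (pc := pcF0) (cut := Cut.none) (xt := Ext.none) (P1 := 0) (W1 := 536870912) (P2 := 536870912) (W2 := 536870912) (P3 := 201326592) (W3 := 134217728)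
    rfl (fun _ => rfl) k0_pp_001

noncomputable def f_pp_011 : ℕ → ℕ → ℕ → ℕ → Bool := onCell 0 536870912 536870912 536870912 201326592 134217728
    (rowF 0 false true true .pnn 0 1 1 (qsf 0 536870912 536870912 536870912 1) ndF1q0 ndF2q1 pcF1 Cut.none Ext.none)

def k0_pp_011 : ∃ t, chk3 f_pp_011 t 1 1 1 = true :=
  ⟨(a (l 3) (l 3)), by decide +kernel⟩

theorem c_pp_011 : CertF 0 536870912 536870912 536870912 201326592 134217728 false true true .pnn 0 1 1
    ndF1q0 ndF2q1 pcF1 Cut.none Ext.none :=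
  certF0 (fam := false) (s1 := true) (s2 := true) (a := 0) (b := 1) (c := 1) (cn := .pnn) (n1 := ndF1q0) (n2 := ndF2q1) (pc := pcF1) (cut := Cut.none) (xt := Ext.none) (P1 := 0) (W1 := 536870912) (P2 := 536870912) (W2 := 536870912) (P3 := 201326592) (W3 := 134217728)
    rfl k0_pp_011

noncomputable def cut_pp_012_a : Cut := Cut.of [[⟨0, 0, 0, 67108864⟩, ⟨1, 1, 0, 67108864⟩, ⟨2, 1, 0, 67108864⟩]]

noncomputable def f_pp_012_a : ℕ → ℕ → ℕ → ℕ → Bool := onCell 536870912 536870912 0 536870912 201326592 134217728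
    (rowF 2 false true true .pnp 0 1 2 (qsf 0 536870912 0 536870912 1) ndF1q0 ndF2q2a pcF1 cut_pp_012_a Ext.none)

def k0_pp_012_a : ∃ t, chk3 f_pp_012_a t 1 1 1 = true :=
  ⟨(a (l 3) (a (b (a (l 3) (l 59223972071)) (b (l 3) (l 3))) (b (a (b (l 16718712) (l 16810168)) (b (l 16662648) (a (l 16683904) (l 16648992)))) (b (a (b (l 16837232) (l 16914880)) (a (b (l 16714560) (l 16740608)) (b (l 16676144) (l 16755296)))) (a (b (b (l 16893328) (l 3)) (l 3)) (b (a (c (l 16830664) (l 16814232)) (a (l 16784664) (b (l 16720424) (l 16758592)))) (a (b (l 316921762199) (l 3)) (b (a (b (l 16765504) (l 6)) (l 6)) (l 6))))))))), by decide +kernel⟩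

theorem c_pp_012_a : CertF 0 536870912 0 536870912 201326592 134217728 false true true .pnp 0 1 2
    ndF1q0 ndF2q2a pcF1 cut_pp_012_a Ext.none :=
  certF2 (fam := false) (s1 := true) (s2 := true) (a := 0) (b := 1) (c := 2) (cn := .pnp) (n1 := ndF1q0) (n2 := ndF2q2a) (pc := pcF1) (cut := cut_pp_012_a) (xt := Ext.none) (P1 := 0) (W1 := 536870912) (P2 := 0) (W2 := 536870912) (P3 := 201326592) (W3 := 134217728)
    rfl (fun _ => rfl) k0_pp_012_a

noncomputable def cut_pp_012_b : Cut := Cut.of [[⟨0, 0, 0, 67108864⟩, ⟨1, 1, 0, 67108864⟩, ⟨2, 1, 0, 67108864⟩]]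

noncomputable def f_pp_012_b : ℕ → ℕ → ℕ → ℕ → Bool := onCell 536870912 536870912 1239849684 370763052 201326592 134217728
    (rowF 2 false true true .pnp 0 1 2 (qsf 0 536870912 1239849684 370763052 1) ndF1q0 ndF2q2b pcF1 cut_pp_012_b Ext.none)

def k0_pp_012_b : ∃ t, chk3 f_pp_012_b t 1 1 1 = true :=
  ⟨(b (a (l 3) (a (a (b (l 16941664) (l 16859192)) (b (l 16846992) (l 16943600))) (a (b (l 16784760) (l 16977448)) (b (a (l 16615184) (l 16612264)) (a (l 16933904) (l 16836024)))))) (a (l 2) (a (a (l 2) (b (l 17043520) (l 2))) (a (l 17169544) (b (l 17148304) (l 17287656)))))), by decide +kernel⟩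

theorem c_pp_012_b : CertF 0 536870912 1239849684 370763052 201326592 134217728 false true true .pnp 0 1 2
    ndF1q0 ndF2q2b pcF1 cut_pp_012_b Ext.none :=
  certF2 (fam := false) (s1 := true) (s2 := true) (a := 0) (b := 1) (c := 2) (cn := .pnp) (n1 := ndF1q0) (n2 := ndF2q2b) (pc := pcF1) (cut := cut_pp_012_b) (xt := Ext.none) (P1 := 0) (W1 := 536870912) (P2 := 1239849684) (W2 := 370763052) (P3 := 201326592) (W3 := 134217728)
    rfl (fun _ => rfl) k0_pp_012_b

end Pool.Agent.Strip051.G.I3_16_5_16.Tab.C.FB12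

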