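import Pool.Agent.Strip051.G.I3_16_5_16.Tab

/-! # Certificates F7 (generated) -/

set_option linter.all false
set_option maxRecDepth 100000

namespace Pool.Agent.Strip051.G.I3_16_5_16.Tab.C.FB00

open Pool.Agent.Strip051.PB Pool.Agent.Strip051.PB.T
open Pool.Agent.Strip051.G.I3_16_5_16.Tab

noncomputable def cut_pp_022 : Cut := Cut.of [[⟨3, 0, 0, 1449551462⟩], [⟨4, 0, 0, 2845415833⟩], [⟨0, 0, 0, 67108864⟩, ⟨1, 1, 0, 67108864⟩, ⟨2, 1, 0, 67108864⟩]]

noncomputable def f_pp_022 : ℕ → ℕ → ℕ → ℕ → Bool := onCell 1073741824 536870912 0 536870912 201326592 134217728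
    (rowF 2 false true true .pp 0 2 2 (qsf 0 536870912 0 536870912 2) ndF0q0 ndF0q2 pcF2 cut_pp_022 Ext.none)

def k0_pp_022 : ∃ t, chk3 f_pp_022 t 4 2 1 = true :=
  ⟨(b (a (c (b (a (l 16579952) (l 16563024)) (a (b (l 16542152) (l 16546632)) (b (l 16542008) (l 16543408)))) (b (a (l 16555040) (l 16555464)) (a (b (l 16556200) (l 16559304)) (l 16595168)))) (a (b (c (l 16544800) (l 16554968)) (c (l 16571464) (l 16568520))) (a (c (b (l 16546120) (l 16537048)) (b (l 16554224) (l 16542944))) (c (a (b (l 16546656) (l 16535472)) (b (l 16547120) (l 16555616))) (b (l 16617328) (a (l 16540608) (l 16539272))))))) (a (b (c (a (b (l 16572312) (l 16600360)) (b (l 16545096) (l 16570696))) (a (b (l 16563640) (l 16591856)) (b (l 16554800) (l 16559344)))) (a (b (c (c (l 16615296) (l 16611112)) (a (l 16606592) (l 16599688))) (c (a (c (l 16629528) (l 16626248)) (c (l 16615400) (l 16612408))) (a (l 16627712) (l 16613784)))) (c (b (c (l 16578024) (l 16583048)) (c (l 16604872) (l 16596688))) (b (l 16589032)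 (a (l 16605312) (l 16575712)))))) (a (b (c (b (l 16537752) (l 16539376)) (l 16588360)) (c (b (l 16567224) (l 16584944)) (b (l 16553208) (l 16583592)))) (a (b (c (l 16552408) (l 16537864)) (c (c (l 16559048) (l 16562584)) (b (l 16541712) (l 16570120)))) (a (b (c (l 16527648) (l 16533560)) (c (l 16554896) (l 16539168))) (b (c (l 16567416) (l 16531000)) (c (b (l 16526816) (l 16554848)) (l 16577320)))))))), by decide +kernel⟩

def k1_pp_022 : ∃ t, chk3 f_pp_022 t 5 2 1 = true :=
  ⟨(a (a (a (b (c (b (b (l 16552944) (l 16566312)) (c (l 16576936) (l 16579936))) (b (l 16596816) (l 16623608))) (a (b (c (l 16567056) (l 16529752)) (c (c (l 16548504) (l 16530432)) (l 16554184))) (b (c (l 16548408) (l 16530520)) (c (l 16573160) (l 16533584))))) (a (b (c (b (l 16552640) (l 16560768)) (b (l 16556384) (l 16540952))) (b (c (l 16550840) (l 16531376)) (l 1))) (b (b (b (c (l 16599704) (l 16582640)) (c (l 16613368) (l 16594360))) (a (c (l 16541832) (l 16541968)) (b (c (l 16566744) (l 16545696)) (l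 1)))) (l 1)))) (b (b (l 1) (l 1)) (l 1))) (l 1)), by decide +kernel⟩

def k2_pp_022 : ∃ t, chk3 f_pp_022 t 2 3 1 = true :=
  ⟨(a (b (a (b (a (a (l 6) (a (l 6) (b (c (l 16621656) (l 16628440)) (l 6)))) (a (b (c (c (l 16616320) (l 16618488)) (l 16621088)) (l 6)) (c (b (c (l 16606792) (l 16608792)) (c (l 16627480) (l 16627912))) (b (l 16611112) (b (l 16623776) (l 6)))))) (l 6)) (a (b (c (b (a (l 16598008) (l 16587968)) (a (c (l 16616216) (l 16616656)) (a (l 16607848) (l 16602056)))) (b (b (l 16592456) (l 16599464)) (b (l 16607200) (a (l 16621352) (l 16609544))))) (b (b (a (l 6) (c (l 16609656) (l 16619288))) (l 6)) (l 6))) (a (b (c (b (l 16577768) (c (l 16592976) (l 16593640))) (b (l 16580592) (c (l 16594016) (l 16594096)))) (a (b (b (c (l 16589808) (l 16589088)) (l 1)) (l 1)) (l 1))) (b (c (a (l 16588072) (b (l 16565464) (l 1))) (a (l 16574096) (l 16603144))) (l 1))))) (l 6)) (b (l 1) (l 1))), by decide +kernel⟩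

def k3_pp_022 : ∃ t, chk3 f_pp_022 t 3 1 1 = true :=
  ⟨(l 1), by decide +kernel⟩

theorem s4_pp_022 : ∃ t, chk3 f_pp_022 t 2 2 1 = true := ex3_a k0_pp_022 k1_pp_022

theorem s5_pp_022 : ∃ t, chk3 f_pp_022 t 2 1 1 = true := ex3_b s4_pp_022 k2_pp_022

theorem s6_pp_022 : ∃ t, chk3 f_pp_022 t 1 1 1 = true := ex3_a s5_pp_022 k3_pp_022

theorem c_pp_022 : CertF 0 536870912 0 536870912 201326592 134217728 false true true .pp 0 2 2
    ndF0q0 ndF0q2 pcF2 cut_pp_022 Ext.none :=
  certF2 (fam := false) (s1 := true) (s2 := true) (a := 0) (b := 2) (c := 2) (cn := .pp) (n1 := ndF0q0) (n2 := ndF0q2) (pc := pcF2) (cut := cut_pp_022) (xt := Ext.none) (P1 := 0) (W1 := 536870912) (P2 := 0) (W2 := 536870912) (P3 := 201326592) (W3 := 134217728)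
    rfl (fun _ => rfl) s6_pp_022

noncomputable def cut_pp_101 : Cut := Cut.of [[⟨3, 0, 0, 1449551462⟩], [⟨4, 0, 0, 2845415833⟩]]

noncomputable def f_pp_101 : ℕ → ℕ → ℕ → ℕ → Bool := onCell 536870912 536870912 536870912 536870912 201326592 134217728
    (rowF 0 false true true .npn 1 0 1 (qsf 536870912 536870912 536870912 536870912 0) ndF0q1 ndF0q1 pcF0 cut_pp_101 Ext.none)

def k0_pp_101 : ∃ t, chk3 f_pp_101 t 1 1 1 = true :=
  ⟨(l 3), by decide +kernel⟩

theorem c_pp_101 : CertF 536870912 536870912 536870912 536870912 201326592 134217728 false true true .npn 1 0 1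
    ndF0q1 ndF0q1 pcF0 cut_pp_101 Ext.none :=
  certF0 (fam := false) (s1 := true) (s2 := true) (a := 1) (b := 0) (c := 1) (cn := .npn) (n1 := ndF0q1) (n2 := ndF0q1) (pc := pcF0) (cut := cut_pp_101) (xt := Ext.none) (P1 := 536870912) (W1 := 536870912) (P2 := 536870912) (W2 := 536870912) (P3 := 201326592) (W3 := 134217728)
    rfl k0_pp_101

noncomputable def cut_pp_102 : Cut := Cut.of [[⟨3, 0, 0, 1449551462⟩], [⟨4, 0, 0, 2845415833⟩]]

noncomputable def f_pp_102 : ℕ → ℕ → ℕ → ℕ → Bool := onCell 536870912 536870912 0 536870912 201326592 134217728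
    (rowF 0 false true true .npp 1 0 2 (qsf 536870912 536870912 0 536870912 0) ndF0q1 ndF0q2 pcF0 cut_pp_102 Ext.none)

def k0_pp_102 : ∃ t, chk3 f_pp_102 t 1 1 1 = true :=
  ⟨(a (l 6) (l 3)), by decide +kernel⟩

theorem c_pp_102 : CertF 536870912 536870912 0 536870912 201326592 134217728 false true true .npp 1 0 2
    ndF0q1 ndF0q2 pcF0 cut_pp_102 Ext.none :=
  certF0 (fam := false) (s1 := true) (s2 := true) (a := 1) (b := 0) (c := 2) (cn := .npp) (n1 := ndF0q1) (n2 := ndF0q2) (pc := pcF0) (cut := cut_pp_102) (xt := Ext.none) (P1 := 536870912) (W1 := 536870912) (P2 := 0) (W2 := 536870912) (P3 := 201326592) (W3 := 134217728)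
    rfl k0_pp_102

noncomputable def cut_pp_112 : Cut := Cut.of [[⟨3, 0, 0, 1449551462⟩], [⟨4, 0, 0, 2845415833⟩]]

noncomputable def f_pp_112 : ℕ → ℕ → ℕ → ℕ → Bool := onCell 536870912 536870912 0 536870912 201326592 134217728
    (rowF 0 false true true .dn 1 1 2 (qsf 536870912 536870912 0 536870912 1) ndF0q1 ndF0q2 pcF1 cut_pp_112 Ext.none)

def k0_pp_112 : ∃ t, chk3 f_pp_112 t 1 1 1 = true :=
  ⟨(a (l 6) (l 1)), by decide +kernel⟩

theorem c_pp_112 : CertF 536870912 536870912 0 536870912 201326592 134217728 false true true .dn 1 1 2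
    ndF0q1 ndF0q2 pcF1 cut_pp_112 Ext.none :=
  certF0 (fam := false) (s1 := true) (s2 := true) (a := 1) (b := 1) (c := 2) (cn := .dn) (n1 := ndF0q1) (n2 := ndF0q2) (pc := pcF1) (cut := cut_pp_112) (xt := Ext.none) (P1 := 536870912) (W1 := 536870912) (P2 := 0) (W2 := 536870912) (P3 := 201326592) (W3 := 134217728)
    rfl k0_pp_112

noncomputable def cut_pp_202 : Cut := Cut.of [[⟨3, 0, 0, 1449551462⟩], [⟨4, 0, 0, 2845415833⟩]]

noncomputable def f_pp_202 : ℕ → ℕ → ℕ → ℕ → Bool := onCell 0 536870912 0 536870912 201326592 134217728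
    (rowF 0 false true true .pp 2 0 2 (qsf 0 536870912 0 536870912 0) ndF0q2 ndF0q2 pcF0 cut_pp_202 Ext.none)

def k0_pp_202 : ∃ t, chk3 f_pp_202 t 1 1 1 = true :=
  ⟨(l 3), by decide +kernel⟩

theorem c_pp_202 : CertF 0 536870912 0 536870912 201326592 134217728 false true true .pp 2 0 2
    ndF0q2 ndF0q2 pcF0 cut_pp_202 Ext.none :=
  certF0 (fam := false) (s1 := true) (s2 := true) (a := 2) (b := 0) (c := 2) (cn := .pp) (n1 := ndF0q2) (n2 := ndF0q2) (pc := pcF0) (cut := cut_pp_202) (xt := Ext.none) (P1 := 0) (W1 := 536870912) (P2 := 0) (W2 := 536870912) (P3 := 201326592) (W3 := 134217728)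
    rfl k0_pp_202

noncomputable def cut_pm_001 : Cut := Cut.of [[⟨3, 0, 0, 1449551462⟩], [⟨4, 0, 0, 2845415833⟩]]

noncomputable def f_pm_001 : ℕ → ℕ → ℕ → ℕ → Bool := onCell 0 536870912 536870912 536870912 201326592 134217728
    (rowF 0 false true false .up 0 0 1 (qsf 0 536870912 536870912 536870912 0) ndF0q0 ndF0q1 pcF0 cut_pm_001 Ext.none)

def k0_pm_001 : ∃ t, chk3 f_pm_001 t 2 1 1 = true :=
  ⟨(b (l 4) (b (l 14) (l 2))), by decide +kernel⟩

def k1_pm_001 : ∃ t, chk3 f_pm_001 t 3 2 1 = true :=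
  ⟨(l 14), by decide +kernel⟩

def k2_pm_001 : ∃ t, chk3 f_pm_001 t 3 6 1 = true :=
  ⟨(a (l 14) (b (l 14) (a (b (l 14) (b (l 14) (a (l 14) (a (l 14) (b (l 14) (c (l 17228344) (c (l 17184888) (l 17138208)))))))) (a (b (l 14) (c (b (c (l 17168784) (l 17148264)) (c (l 17226600) (l 17236504))) (c (a (b (l 17114040) (l 17164648)) (b (l 17118040) (l 17161896))) (a (b (l 17071144) (b (l 17106224) (l 17132232))) (b (l 17075024) (l 17116640)))))) (b (c (c (b (l 17120664) (l 17150312)) (b (l 17095128) (l 17126120))) (c (b (l 17063032) (l 17093208)) (b (a (l 14) (l 17031232)) (a (l 17047888) (l 17057224))))) (b (c (c (l 17179456) (l 17158136)) (c (l 17125408) (a (l 17079760) (l 17085344)))) (c (c (l 17295808) (l 17298240)) (a (c (l 17160648) (l 17115880)) (c (l 17183280) (l 17160368)))))))))), by decide +kernel⟩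

def k3_pm_001 : ∃ t, chk3 f_pm_001 t 6 7 1 = true :=
  ⟨(b (b (l 14) (l 2)) (l 2)), by decide +kernel⟩

def k4_pm_001 : ∃ t, chk3 f_pm_001 t 14 28 1 = true :=
  ⟨(a (b (b (l 14) (a (l 14) (a (l 14) (c (l 17274152) (c (l 17225000) (l 17199792)))))) (c (a (b (l 14) (l 2)) (b (b (c (l 17400896) (l 17313112)) (a (c (l 196059831911) (l 84927474839)) (c (l 17428408) (l 17334848)))) (a (a (l 2) (c (l 250283852487) (l 230419531879))) (c (l 17457624) (l 17360360))))) (a (b (l 14) (l 2)) (c (b (a (l 113381397463) (b (l 17247592) (b (l 17259664) (l 17267472)))) (a (b (l 228271843703) (l 2)) (l 17285016))) (a (b (b (l 14) (l 17219008)) (b (b (l 212702456791) (l 2)) (l 2))) (b (b (l 17212240) (b (l 17219168) (l 17223944))) (l 17236184))))))) (c (b (a (c (b (l 17303208) (l 17352176)) (b (l 17240312) (l 17277080))) (b (c (l 17296176) (l 17237800)) (c (l 17344376) (a (l 17273672) (l 17270648))))) (b (a (b (a (l 17349632) (l 17323400)) (c (l 17411008) (l 17323128))) (a (l 17321216) (l 17335232)))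 (a (c (l 17440032) (l 17348624)) (l 17371576)))) (b (b (a (c (l 17201856) (l 17162896)) (c (l 17206512) (l 17171208))) (c (a (a (l 17225928) (l 17226528)) (l 17248888)) (a (l 17187088) (a (l 17213080) (l 17205432))))) (a (b (c (a (b (l 17247424) (l 17260816)) (b (l 17246512) (l 17258864))) (a (b (l 17216032) (c (l 17229864) (l 17220792))) (l 17223288))) (c (l 17279560) (c (l 17245336) (l 17169936)))) (b (a (c (l 17249424) (l 17226992)) (l 17234480)) (c (l 17272376) (l 17240840))))))), by decide +kernel⟩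

def k5_pm_001 : ∃ t, chk3 f_pm_001 t 14 29 1 = true :=
  ⟨(a (a (l 2) (a (l 2) (b (b (c (l 237935711447) (l 201965145079)) (l 2)) (l 2)))) (c (b (a (c (l 87075186567) (l 98349280407)) (c (l 17467728) (l 17378544))) (a (c (l 222903687719) (l 220219111303)) (c (l 87612163399) (l 95665033559)))) (b (a (c (b (l 17306264) (l 106939072103)) (b (l 17256352) (l 110697100151))) (c (b (l 17296744) (l 17322424)) (b (a (l 17255840) (l 17255624)) (l 17272944)))) (a (b (a (l 2) (l 206260193191)) (l 2)) (c (l 101570448967) (b (l 17292272) (l 112307752871))))))), by decide +kernel⟩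

def k6_pm_001 : ∃ t, chk3 f_pm_001 t 15 14 1 = true :=
  ⟨(b (a (a (c (b (b (l 17256688) (c (l 17325336) (l 17261776))) (c (l 17375600) (l 17303128))) (c (b (b (l 17207616) (l 17226864)) (l 17255344)) (b (b (l 17160672) (a (l 17196264) (l 17187880))) (l 17239984)))) (c (b (b (l 17270200) (l 17274568)) (c (l 17352944) (l 17288920))) (c (b (l 17274216) (l 17250312)) (b (b (c (l 17167272) (l 17140464)) (l 17179232)) (l 17228080))))) (c (b (c (l 17280472) (l 17308432)) (c (l 17320048) (l 17268248))) (c (b (c (l 17206136) (l 17251640)) (l 17242792)) (b (a (b (l 17168040) (l 17172744)) (l 17175936)) (a (l 17214232) (l 17203552)))))) (a (c (b (a (c (l 17442080) (l 17360400)) (l 17377464)) (c (a (l 17512280) (l 17485208)) (a (l 17422152) (l 17401528)))) (b (c (a (l 17299120) (b (l 17278576) (l 17299808))) (a (b (l 17255416) (l 17269480)) (l 17260264))) (a (c (l 17349128) (b (l 17286056) (l 17304888))) (b (l 17298576) (l 17319496))))) (c (a (b (l 17335536) (l 17417912)) (b (l 17377984)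 (l 17395024))) (b (c (l 17273992) (l 17361920)) (a (c (l 17321024) (b (l 17273640) (l 17287696))) (c (l 17307128) (l 17272656))))))), by decide +kernel⟩

def k7_pm_001 : ∃ t, chk3 f_pm_001 t 14 15 1 = true :=
  ⟨(b (b (a (l 2) (a (l 2) (a (l 2) (b (c (l 216461024935) (l 211628904919)) (l 2))))) (l 2)) (l 2)), by decide +kernel⟩

def k8_pm_001 : ∃ t, chk3 f_pm_001 t 15 30 1 = true :=
  ⟨(a (c (b (c (a (l 111234589159) (l 17557888)) (a (l 118213695479) (b (l 17449040) (l 17482496)))) (c (a (l 189617872263) (b (l 17615520) (l 165995519143))) (a (l 199818125367) (b (l 86538351927) (a (l 191765144631) (l 173511477415)))))) (b (b (a (c (l 17390536) (l 17325816)) (l 17342376)) (a (c (l 135930283223) (l 136467017975)) (c (l 17401992) (l 17336160)))) (b (a (c (l 207334183255) (l 299675824855)) (c (l 86001314983) (a (l 155257510135) (l 17355736)))) (a (l 2) (c (a (l 203039250247) (b (l 17450072) (l 183174975111))) (a (l 316855723703) (b (l 81169328007) (l 210555280343)))))))) (b (c (c (l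 17515696) (a (l 17442944) (l 17420664))) (b (a (l 17328768) (l 17315216)) (a (l 17351912) (l 17336760)))) (b (c (c (l 17571744) (a (l 17493080) (l 17469280))) (a (c (l 17412472) (l 17345048)) (l 17360456))) (c (c (a (l 17625616) (l 17597616)) (a (c (l 17551712) (l 17505936)) (l 17504904))) (b (a (c (l 17434944) (l 17362560)) (l 17379592)) (a (c (a (l 17455664) (l 17445344)) (a (l 17378928) (l 17370904))) (c (l 17430496) (l 17359312)))))))), by decide +kernel⟩

def k9_pm_001 : ∃ t, chk3 f_pm_001 t 15 31 1 = true :=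
  ⟨(a (c (b (b (b (b (a (l 2) (b (c (l 178343555015) (l 190154561511)) (l 2))) (l 2)) (l 2)) (l 2)) (l 2)) (b (b (b (b (b (a (l 2) (a (l 2) (c (l 204112947079) (l 314171383031)))) (l 2)) (l 2)) (l 2)) (l 2)) (l 2))) (c (b (b (a (c (c (l 17674896) (l 17623096)) (b (a (b (c (l 17579952) (l 17532392)) (l 17558408)) (l 17542272)) (l 17553448))) (c (l 17616464) (l 17522760))) (c (l 17638304) (l 17543584))) (c (l 143446965815) (l 162774134119))) (b (b (b (a (c (a (b (b (a (l 17468432) (l 17462848)) (l 17467368)) (l 17468696)) (l 17455136)) (a (a (b (a (b (l 113381593719) (l 17371064)) (l 17388688)) (l 223440129671)) (l 17396376)) (l 17378976))) (c (l 17437904) (l 17365440))) (a (c (l 17465280) (a (l 217534612935) (l 17382872))) (l 17403896))) (c (l 86001384663) (a (a (l 214850268311) (l 134319570439)) (l 17373600)))) (a (c (l 189617500055) (l 206260342615)) (c (l 73653331191) (b (l 17379608) (l 141835777927))))))), by decide +kernel⟩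

theorem s10_pm_001 : ∃ t, chk3 f_pm_001 t 15 15 1 = true := ex3_b k8_pm_001 k9_pm_001

theorem s11_pm_001 : ∃ t, chk3 f_pm_001 t 7 15 1 = true := ex3_a k7_pm_001 s10_pm_001

theorem s12_pm_001 : ∃ t, chk3 f_pm_001 t 14 14 1 = true := ex3_b k4_pm_001 k5_pm_001

theorem s13_pm_001 : ∃ t, chk3 f_pm_001 t 7 14 1 = true := ex3_a s12_pm_001 k6_pm_001

theorem s14_pm_001 : ∃ t, chk3 f_pm_001 t 7 7 1 = true := ex3_b s13_pm_001 s11_pm_001

theorem s15_pm_001 : ∃ t, chk3 f_pm_001 t 3 7 1 = true := ex3_a k3_pm_001 s14_pm_001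

theorem s16_pm_001 : ∃ t, chk3 f_pm_001 t 3 3 1 = true := ex3_b k2_pm_001 s15_pm_001

theorem s17_pm_001 : ∃ t, chk3 f_pm_001 t 3 1 1 = true := ex3_b k1_pm_001 s16_pm_001

theorem s18_pm_001 : ∃ t, chk3 f_pm_001 t 1 1 1 = true := ex3_a k0_pm_001 s17_pm_001

theorem c_pm_001 : CertF 0 536870912 536870912 536870912 201326592 134217728 false true false .up 0 0 1
    ndF0q0 ndF0q1 pcF0 cut_pm_001 Ext.none :=
  certF0 (fam := false) (s1 := true) (s2 := false) (a := 0) (b := 0) (c := 1) (cn := .up) (n1 := ndF0q0) (n2 := ndF0q1) (pc := pcF0) (cut := cut_pm_001) (xt := Ext.none) (P1 := 0) (W1 := 536870912) (P2 := 536870912) (W2 := 536870912) (P3 := 201326592) (W3 := 134217728)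
    rfl s18_pm_001

noncomputable def cut_pm_011 : Cut := Cut.of [[⟨3, 0, 0, 1449551462⟩], [⟨4, 0, 0, 2845415833⟩], [⟨0, 0, 0, 67108864⟩, ⟨1, 1, 0, 67108864⟩, ⟨2, 1, 0, 67108864⟩], [⟨0, 0, 1, 67108864⟩, ⟨1, 1, 2, 67108864⟩, ⟨2, 1, 0, 16777216⟩]]

noncomputable def f_pm_011 : ℕ → ℕ → ℕ → ℕ → Bool := onCell 536870912 536870912 536870912 536870912 201326592 134217728
    (rowF 2 false true false .pnn 0 1 1 (qsf 0 536870912 536870912 536870912 1) ndF0q0 ndF0q1 pcF1 cut_pm_011 Ext.none)

def k0_pm_011 : ∃ t, chk3 f_pm_011 t 2 2 1 = true :=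
  ⟨(l 4), by decide +kernel⟩

def k1_pm_011 : ∃ t, chk3 f_pm_011 t 4 6 1 = true :=
  ⟨(l 14), by decide +kernel⟩

def k2_pm_011 : ∃ t, chk3 f_pm_011 t 8 14 1 = true :=
  ⟨(b (a (b (l 14) (a (c (c (l 17189504) (b (l 17093072) (l 17119024))) (b (c (l 17014752) (a (l 16943952) (l 14))) (c (b (l 17029400) (l 17038928)) (b (a (l 16953776) (l 16942328)) (l 16955384))))) (c (c (l 17158720) (l 17099040)) (b (l 14) (b (l 14) (c (l 17013648) (a (l 16937552) (l 16925800)))))))) (l 14)) (a (c (b (c (l 17233960) (a (l 17153904) (l 17127664))) (c (l 17287112) (a (l 17198664) (l 17174176)))) (b (a (c (b (l 17053280) (l 17072472)) (b (c (l 16988296) (l 16945856)) (a (l 16988536) (l 16977136)))) (c (b (l 17028248) (l 17048048)) (b (l 16943296) (l 16959656)))) (c (a (b (l 17091544) (l 17110328)) (b (l 17067992) (l 17087872))) (a (b (a (l 17004528) (l 16993520)) (a (l 17020616) (l 17010096))) (b (l 16976600) (l 16993944)))))) (c (b (a (c (l 17191776) (l 17100888)) (b (l 14) (l 17131336))) (c (l 17234136)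 (a (l 17149312) (l 17123720)))) (a (b (b (c (l 17002480) (a (l 16924968) (b (l 14) (l 16916608)))) (c (l 17022872) (l 16935496))) (c (b (l 17043696) (l 17064720)) (b (l 16953128) (l 16971464)))) (b (b (l 14) (c (l 16996728) (l 16889288))) (c (l 17029472) (b (l 16928424) (l 16947672)))))))), by decide +kernel⟩

def k3_pm_011 : ∃ t, chk3 f_pm_011 t 8 30 1 = true :=
  ⟨(a (c (c (b (a (l 17347800) (l 17323792)) (a (l 17389832) (l 17368400))) (b (a (c (l 17266792) (l 17214288)) (l 17218464)) (a (c (l 17305640) (b (l 17242424) (l 17259912))) (c (l 17286128) (l 17232832))))) (b (c (a (b (c (l 17153688) (l 17104056)) (c (l 17172104) (l 17121576))) (b (l 17107560) (l 17126944))) (a (b (a (l 17036720) (l 17026784)) (a (l 17052792) (l 17043504))) (b (l 17001048) (a (l 17034072) (l 17024448))))) (c (a (b (a (l 17168576) (l 17159536)) (a (c (l 17211000) (l 17159216)) (l 17176672))) (b (l 17145888) (l 17164280))) (a (b (a (l 17068736) (l 17060176)) (a (l 17079240) (l 17076712))) (b (a (l 17051488)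 (l 17042656)) (a (l 17068848) (l 17060856))))))) (c (b (c (l 17287872) (a (l 17196272) (l 17173712))) (c (l 17336952) (a (l 17240456) (l 17221600)))) (c (b (a (l 17075368) (l 17074472)) (a (b (l 17127400) (l 17147648)) (l 17119648))) (b (a (b (l 16990328) (l 17009568)) (b (l 16967768) (l 16988568))) (a (b (l 17029024) (l 17048616)) (b (l 17009848) (l 17031456))))))), by decide +kernel⟩

def k4_pm_011 : ∃ t, chk3 f_pm_011 t 8 31 1 = true :=
  ⟨(a (c (c (b (a (b (l 17419240) (l 17441232)) (l 17410976)) (a (l 17472408) (l 17454448))) (b (a (b (a (c (l 17336752) (l 17280480)) (l 17299776)) (l 17320792)) (b (b (l 17282616) (l 17291384)) (l 17304080))) (a (c (l 17375440) (l 17312936)) (l 17327768)))) (b (a (c (b (b (b (a (a (l 17196560) (l 17192736)) (l 17186984)) (l 17152104)) (a (l 17202224) (l 17194736))) (c (l 17234792) (l 17179520))) (b (b (b (a (c (l 17118488) (l 17069776)) (l 17086896)) (l 17092664)) (a (l 17098504) (l 17091736))) (a (l 17103152) (l 17096296)))) (c (b (b (a (l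 17181088) (l 17173616)) (l 17183688)) (l 17192112)) (b (b (b (l 17075960) (a (l 17082536) (l 17075736))) (l 17081648)) (a (l 17089464) (l 17082616))))) (c (a (c (b (l 17246600) (l 17257400)) (b (l 17188768) (l 17197088))) (c (l 17236952) (b (l 17174168) (l 17182400)))) (a (b (a (l 17087720) (l 17101728)) (c (a (l 17142104) (l 17134936)) (a (l 17085176) (l 17078184)))) (b (a (l 17094752) (l 17087768)) (c (l 17124192) (a (l 17071160) (l 17064080)))))))) (c (c (b (a (l 17391712) (l 17373208)) (l 17427648)) (b (b (a (l 17270496) (l 17254544)) (l 17279952)) (a (l 17311800) (l 17296176)))) (b (c (b (a (b (l 17162400) (l 17169376)) (b (l 17147248) (l 17155288))) (a (l 17177616) (l 17163472))) (b (a (b (a (l 17066888) (l 17059528)) (l 17068256)) (b (l 17047888) (l 17054408))) (a (l 17072328) (l 17058488)))) (c (a (c (l 17221960) (l 17163864)) (b (l 17173440) (l 17182512))) (a (b (c (l 17104368) (l 17050392)) (c (l 17109776) (l 17053304))) (b (c (l 17090136) (l 17036000)) (c (l 17095096)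 (l 17038456)))))))), by decide +kernel⟩

def k5_pm_011 : ∃ t, chk3 f_pm_011 t 9 14 1 = true :=
  ⟨(b (l 14) (c (a (b (a (b (l 14) (l 17102632)) (l 14)) (c (l 17179192) (a (l 17097112) (l 17069168)))) (b (l 14) (a (c (l 17134912) (l 17018616)) (l 14)))) (a (a (b (b (l 14) (c (l 16969368) (a (l 16890568) (l 14)))) (c (l 17003424) (b (l 16881368) (l 16922344)))) (b (l 14) (c (b (l 16963760) (l 16988144)) (b (a (l 16881800) (l 14)) (a (l 16902240) (l 16888280)))))) (b (l 14) (b (l 14) (a (c (l 16959352) (a (l 16873840) (c (l 16881944) (l 16836008)))) (l 14))))))), by decide +kernel⟩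

def k6_pm_011 : ∃ t, chk3 f_pm_011 t 9 30 1 = true :=
  ⟨(a (a (c (c (l 17279664) (b (l 17150416) (l 17202528))) (b (c (l 17051440) (b (l 16943624) (l 16965944))) (c (l 17100776) (b (l 16989072) (l 17012856))))) (c (b (l 17134304) (l 17234320)) (b (c (l 17026888) (b (l 16917632) (l 16941408))) (c (l 17080744) (b (l 16966416) (l 16992408)))))) (c (c (b (a (l 17201056) (l 17173720)) (a (l 17265392) (l 17244120))) (b (a (l 17100168) (b (l 17055688) (l 17089096))) (a (l 17162368) (a (l 17146112) (l 17134776))))) (a (b (c (b (l 16986352) (l 17014704)) (b (a (l 16896792) (l 16882208)) (a (l 16921584) (l 16907640)))) (c (l 17059120) (b (l 16941512) (l 16969736)))) (b (c (b (a (l 16964432) (l 16949040)) (a (l 16994264) (l 16979864))) (b (a (c (l 16891256) (l 16842896)) (c (l 16875544) (l 16795480))) (a (l 16893056) (c (l 16903272) (l 16852272))))) (c (a (l 17041640) (b (l 17012360) (l 17046104))) (a (b (l 16921168) (l 16951064)) (b (c (l 16933200) (l 16880136)) (c (l 16965008) (l 16910248))))))))),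 by decide +kernel⟩

def k7_pm_011 : ∃ t, chk3 f_pm_011 t 9 31 1 = true :=
  ⟨(a (c (c (b (l 17410056) (l 17393784)) (b (b (l 17231288) (l 17249976)) (a (l 17280920) (l 17265976)))) (b (c (b (a (l 17136512) (l 17121112)) (l 17142512)) (b (a (b (l 17030928) (l 17039872)) (b (l 17012352) (c (l 17049712) (l 16998288)))) (a (l 17044128) (l 17028720)))) (c (a (b (l 17159032) (l 17167728)) (l 17148648)) (a (b (l 17048064) (c (l 17080040) (l 17022896))) (b (l 17032184) (c (l 17064112) (l 17006032))))))) (c (b (a (c (l 17323040) (l 17218112)) (b (c (l 17294312) (l 17191680)) (l 17268312))) (c (l 17383264) (a (l 17251072) (l 17235992)))) (b (c (a (b (l 17104520) (l 17120904)) (b (a (l 17090848) (l 17080856)) (l 17105072))) (a (b (b (l 16991640) (l 17006000)) (l 17011872)) (b (a (l 16982888) (a (l 16973768) (l 16967384))) (a (l 16998104) (l 16987792))))) (c (a (l 17133000) (b (l 17112864) (l 17119424))) (a (b (l 17014608) (c (l 17046640) (l 16987112))) (a (b (l 17000128) (l 17001704)) (b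 (l 16989712) (l 16990776)))))))), by decide +kernel⟩

def k8_pm_011 : ∃ t, chk3 f_pm_011 t 5 6 1 = true :=
  ⟨(l 14), by decide +kernel⟩

def k9_pm_011 : ∃ t, chk3 f_pm_011 t 10 14 1 = true :=
  ⟨(l 14), by decide +kernel⟩

def k10_pm_011 : ∃ t, chk3 f_pm_011 t 20 30 1 = true :=
  ⟨(c (b (a (c (l 17142952) (b (l 17022336) (l 17056920))) (b (l 14) (c (l 17127024) (l 16997312)))) (a (c (l 17218416) (b (l 17092664) (l 17129056))) (c (l 17185672) (b (l 17053584) (l 17089936))))) (b (b (b (l 14) (a (a (c (l 16939056) (l 16797312)) (l 14)) (l 14))) (b (a (c (a (l 16954504) (l 16934296)) (a (l 16831296) (l 16788752))) (l 14)) (a (c (a (l 16970464) (l 16949792)) (a (l 16844984) (l 16822568))) (a (c (l 16928544) (c (l 16847592) (l 16793760))) (l 14))))) (a (c (b (a (l 16995280) (l 16973976)) (a (l 17029568) (l 17007592))) (b (a (a (l 16872496) (l 16860840)) (b (l 16836056) (l 16850176))) (a (c (l 16946584) (l 16890496)) (a (l 16878832) (l 16845128))))) (c (b (a (l 16931024) (c (l 16957808)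 (l 16900736))) (a (l 16984768) (c (l 16990816) (l 16931160)))) (b (a (c (l 16846976) (b (l 16805544) (l 16818016))) (b (c (l 16837072) (l 16780744)) (c (l 16850192) (l 16792144)))) (b (a (l 16818440) (c (l 16863928) (l 16804240))) (a (l 16832896) (c (l 16878256) (l 16817000))))))))), by decide +kernel⟩

def k11_pm_011 : ∃ t, chk3 f_pm_011 t 21 30 1 = true :=
  ⟨(c (b (l 14) (b (a (c (l 17128776) (a (l 17022136) (l 17000152))) (l 14)) (c (a (l 17168864) (l 17128264)) (a (a (l 17058040) (l 17035520)) (a (l 17011968) (l 16966400)))))) (b (l 14) (a (c (b (a (c (l 16934912) (l 16876760)) (a (l 16845824) (l 14))) (a (c (l 16966920) (l 16905736)) (b (l 16882256) (l 16897336)))) (b (a (b (c (l 16812568) (l 16755392)) (c (l 16824712) (l 16765592))) (b (l 14) (c (l 16798512) (l 16738368)))) (a (b (c (l 16837512) (l 16776536)) (c (l 16850936) (l 16788176))) (b (c (l 16810248) (l 16748016)) (c (l 16822656) (l 16758408)))))) (b (l 14) (b (a (a (c (l 16883672) (l 16757672)) (c (l 16870360) (l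 16743088))) (l 14)) (c (a (c (l 16923824) (l 16858768)) (c (l 16896600) (l 16829984))) (a (c (l 16793376) (l 16727664)) (c (l 16763104) (l 16695944))))))))), by decide +kernel⟩

def k12_pm_011 : ∃ t, chk3 f_pm_011 t 10 31 2 = true :=
  ⟨(a (b (c (b (a (l 17273280) (l 17243528)) (a (l 17303000) (l 17276480))) (a (b (l 17165632) (l 17192176)) (b (l 17126912) (l 17156592)))) (c (a (l 17337032) (l 17312616)) (a (l 17214024) (l 17181152)))) (b (c (b (a (l 17208888) (l 17169176)) (a (l 17244784) (l 17207520))) (a (a (b (l 17094880) (l 17126568)) (b (l 17072048) (l 17083704))) (b (a (l 17047976) (l 17022640)) (b (a (l 17075704) (l 17050096)) (l 17075624))))) (c (a (l 17283240) (l 17248320)) (a (b (l 17134472) (l 17150872)) (b (l 17047360) (l 17085992)))))), by decide +kernel⟩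

def k13_pm_011 : ∃ t, chk3 f_pm_011 t 20 31 3 = true :=
  ⟨(b (a (c (b (a (l 17064960) (l 17042504)) (a (l 17087576) (l 17066712))) (b (a (c (l 16980240) (l 16922512)) (c (l 16954752) (l 16895088))) (a (c (l 17000192) (l 16940608)) (b (c (l 16975208) (l 16914104)) (l 16947216))))) (b (c (a (l 17019040) (l 16973504)) (a (b (l 16868896) (l 16905408)) (b (c (l 16893128) (l 16830400)) (l 16834648)))) (c (b (a (l 17042288) (l 17018416)) (l 17036648)) (b (a (b (l 16896144) (l 16919856)) (b (l 16846184) (l 16891904))) (a (l 16921200) (l 16893696)))))) (c (a (b (l 17085672) (l 17092480)) (b (c (l 17076208) (l 17010504)) (c (l 17086296) (l 17017864)))) (a (b (a (l 16973040) (l 16928232)) (a (c (l 17006248) (l 16942408)) (c (l 16984552) (l 16918744)))) (b (a (c (l 16956792) (l 16890856)) (c (l 16931016) (b (l 16861992) (l 30)))) (a (c (l 16961368) (b (l 16892808) (l 16894168))) (c (l 16936560) (l 30))))))), by decide +kernel⟩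

def k14_pm_011 : ∃ t, chk3 f_pm_011 t 21 31 3 = true :=
  ⟨(b (b (a (c (a (c (l 17000584) (l 16936792)) (c (l 16974712) (l 16887992))) (a (b (c (l 16864968) (l 16800504)) (c (l 16879560) (l 16813488))) (b (c (l 16835712) (l 16769528)) (c (l 16849376) (l 16781352))))) (c (a (c (l 16947624) (b (l 16872688) (l 16887184))) (c (l 16898320) (b (l 16842904) (l 16856456)))) (b (a (c (l 16805320) (l 16737424)) (c (l 16752816) (l 16704192))) (a (c (l 16817928) (l 16747936)) (c (l 16764216) (l 16713240)))))) (a (c (b (a (b (l 16989784) (l 16996040)) (b (l 16962256) (l 16969408))) (c (l 17021400) (l 16953344))) (b (a (b (l 16857360) (c (l 16896120) (l 16828192))) (b (l 16804472) (c (l 16866080) (b (l 16795432) (l 16796800))))) (a (l 16801720) (c (l 16869336) (l 16798264))))) (a (c (b (c (l 16972416) (b (l 16898400) (l 16905720))) (l 16946448)) (b (b (l 16750208) (c (b (l 16832856) (l 16835456)) (l 16698896))) (c (l 16838008) (l 16764568)))) (c (b (c (l 16943232) (b (l 16866992) (l 16874320)))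 (c (l 16953808) (l 16879752))) (b (c (a (l 16785168) (l 16788752)) (l 16702392)) (c (l 16783800) (a (l 16738048) (l 16719712)))))))) (a (c (b (a (l 17007944) (l 16940344)) (c (l 17042056) (a (l 16981976) (l 16955928)))) (b (a (c (l 16903632) (b (l 16832168) (l 30))) (b (c (l 16872720) (l 16779592)) (l 30))) (c (a (b (l 16908384) (l 16911648)) (l 30)) (l 30)))) (c (b (a (c (l 16991720) (l 16917944)) (c (l 16963760) (b (l 16884880) (l 30)))) (a (c (l 17004392) (l 16907032)) (c (l 16976976) (l 30)))) (b (b (b (b (a (l 16761312) (l 16727000)) (l 30)) (l 30)) (l 30)) (l 30))))), by decide +kernel⟩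

def k15_pm_011 : ∃ t, chk3 f_pm_011 t 11 14 1 = true :=
  ⟨(l 14), by decide +kernel⟩

def k16_pm_011 : ∃ t, chk3 f_pm_011 t 11 30 1 = true :=
  ⟨(b (l 14) (b (l 14) (b (l 14) (a (a (a (a (c (c (l 17110768) (l 16976656)) (c (l 16799680) (l 16726632))) (l 14)) (l 14)) (l 14)) (l 14))))), by decide +kernel⟩

def k17_pm_011 : ∃ t, chk3 f_pm_011 t 22 62 2 = true :=
  ⟨(c (a (b (l 17124184) (b (l 17155264) (l 17172952))) (b (c (l 17110896) (l 17036248)) (b (l 17104464) (c (l 17163152) (l 17083632))))) (a (b (a (c (l 17031184) (l 16960704)) (c (l 17004224) (l 16931744))) (b (a (l 17022704) (l 16972992)) (a (l 17036680) (c (l 17047048) (l 16969720))))) (c (b (a (l 16975888) (l 16946136)) (b (l 16945360) (a (l 17018408) (l 16987880)))) (b (b (l 14) (a (l 16909000) (l 16876792))) (b (a (l 16924656) (l 16891496)) (a (b (l 16936368) (l 16941296)) (b (l 16902968) (l 16908208)))))))), by decide +kernel⟩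

def k18_pm_011 : ∃ t, chk3 f_pm_011 t 22 62 3 = true :=
  ⟨(b (a (c (a (c (b (l 16882376) (l 16897032)) (b (l 16790984) (l 16803432))) (c (b (l 16851976) (l 16865656)) (b (a (l 16787944) (l 16771576)) (a (l 16799480) (l 16782432))))) (a (b (c (l 16741112) (l 16675240)) (c (l 16735424) (l 16681136))) (a (b (l 16679632) (l 16687152)) (b (l 16679648) (l 16685016))))) (b (l 14) (c (a (c (l 16790928) (a (l 16765048) (l 16747296))) (a (a (l 16730800) (l 14)) (l 14))) (a (c (l 16681272) (l 16671904)) (c (l 16677512) (l 16669024)))))) (a (c (b (a (c (l 16912232) (l 16816544)) (c (l 16879944) (a (l 16811712) (l 16794024)))) (a (c (l 16923512) (a (l 16855400) (l 16838544))) (c (b (l 16889944) (l 16893736)) (b (b (l 16768680) (l 16812368)) (l 16814200))))) (b (a (c (a (l 16770904) (l 16752864)) (l 16687368)) (a (l 16695504) (l 16695944))) (c (a (b (a (l 16777680) (l 16759624)) (l 16770760)) (b (b (l 16731232) (l 16732520)) (l 16733792))) (a (l 16699064) (b (l 16684144) (l 16684424))))))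 (b (c (a (c (a (l 16854696) (l 16837368)) (a (l 16775952) (l 16757464))) (c (a (l 16819608) (l 16801424)) (a (l 16738560) (l 16719224)))) (a (c (l 16687032) (l 16675880)) (c (l 16682192) (l 16671992)))) (b (c (a (c (b (l 16854688) (l 16857360)) (b (l 16773752) (l 16744384))) (c (a (l 16829328) (l 16810728)) (a (l 16746200) (l 16726312)))) (a (c (l 16692736) (l 16678904)) (c (l 16686040) (l 16674544)))) (c (a (c (l 16859992) (l 16777808)) (c (l 16824192) (l 16739296))) (c (a (l 16694760) (l 16686872)) (l 16687688))))))), by decide +kernel⟩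

def k19_pm_011 : ∃ t, chk3 f_pm_011 t 23 62 1 = true :=
  ⟨(c (a (b (l 14) (c (b (c (l 17088200) (l 17005576)) (c (l 17109064) (a (l 17039824) (l 17007968)))) (b (a (c (l 16939248) (a (l 16865488) (l 14))) (l 14)) (a (c (b (l 16951952) (l 16958728)) (b (l 16846304) (a (l 16881896) (l 16863656)))) (c (b (l 16916920) (l 16924064)) (b (a (l 16839152) (l 14)) (b (a (l 16844032) (l 16824680)) (l 16836544)))))))) (l 14)) (a (c (b (l 14) (b (a (c (a (l 16782800) (l 14)) (l 16694632)) (l 14)) (b (a (c (a (l 16791512) (l 16771808)) (l 16695424)) (c (a (l 16751672) (l 14)) (l 16688112))) (b (a (c (a (l 16795088) (l 16775512)) (l 16697880)) (c (a (l 16755392) (l 16734640)) (l 16689872))) (c (a (l 16786912) (l 16746568)) (a (l 16698976) (l 16690280))))))) (b (l 14) (b (a (c (l 16678496) (l 16669184)) (l 14)) (a (c (b (l 16681520) (l 16682536)) (b (l 16670944) (l 16671616))) (c (b (l 16678080) (l 16679256)) (l 16689968)))))) (l 14))), by decide +kernel⟩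

def k20_pm_011 : ∃ t, chk3 f_pm_011 t 11 63 2 = true :=
  ⟨(a (c (a (b (l 17193760) (l 17220232)) (b (l 17145128) (l 17172384))) (a (a (b (l 17050976) (l 17069376)) (b (l 16960232) (a (l 17048936) (l 17034672)))) (b (c (a (l 17034752) (l 17004304)) (a (l 16951808) (b (l 16914336) (l 30)))) (c (a (l 17055544) (l 17025136)) (a (l 16968912) (l 30)))))) (c (a (a (b (l 17103576) (l 17131072)) (b (l 17010312) (l 17037728))) (b (c (l 17049984) (a (l 16993672) (c (l 16981248) (l 16932576)))) (c (l 17058664) (a (l 17018088) (l 30))))) (a (c (b (a (l 16971672) (b (l 16931768) (l 30))) (a (l 16992328) (l 30))) (b (b (a (l 16836960) (a (l 16850800) (l 16810328))) (l 30)) (l 30))) (b (b (b (a (b (c (l 16891144) (l 16756424)) (l 30)) (l 14)) (l 30)) (l 30)) (l 30))))), by decide +kernel⟩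

def k21_pm_011 : ∃ t, chk3 f_pm_011 t 11 63 3 = true :=
  ⟨(a (c (a (c (b (a (l 16933928) (b (l 16898712) (l 30))) (a (l 16947544) (l 30))) (b (b (a (l 16852432) (a (l 16826784) (l 16809040))) (l 30)) (l 30))) (b (b (b (a (c (l 16863216) (l 16759208)) (c (l 16806288) (l 16720488))) (l 30)) (l 30)) (l 30))) (b (b (b (a (a (c (l 16772616) (l 16693320)) (c (l 16735568) (l 16684336))) (c (a (l 16696368) (l 16687080)) (a (l 16679616) (l 16675680)))) (l 30)) (l 30)) (l 30))) (a (b (b (b (b (a (c (c (l 16767352) (l 16699904)) (l 16688144)) (c (c (l 16747800) (l 16690472)) (l 16674800))) (l 30)) (l 30)) (l 30)) (l 30)) (b (b (b (a (c (c (a (l 16716352) (l 16696984)) (l 16687560)) (l 16693824)) (l 14)) (c (l 30) (c (l 30) (l 16689352)))) (c (l 30) (c (l 30) (a (l 16670680) (l 16669624))))) (c (l 30) (c (l 30) (c (a (l 30) (b (l 16679464) (l 30))) (a (b (l 16670848) (l 30)) (b (l 16670040) (b (l 16672136) (a (l 30) (l 16673544))))))))))), by decide +kernel⟩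

def k22_pm_011 : ∃ t, chk3 f_pm_011 t 3 1 1 = true :=
  ⟨(b (l 4) (a (b (l 4) (a (b (l 14) (b (l 14) (b (l 14) (c (a (c (a (b (a (b (l 14) (c (l 17025008) (l 30))) (l 14)) (c (a (l 17046552) (l 30)) (l 30))) (b (l 14) (l 30))) (b (b (l 14) (l 30)) (l 30))) (l 14)) (a (a (b (b (l 14) (c (l 30) (a (c (l 16687744) (l 16669040)) (l 14)))) (c (l 30) (b (a (b (c (l 16678992) (l 16670920)) (c (l 30) (l 16672288))) (c (a (l 16679224) (l 16679064)) (l 16681984))) (a (c (l 30) (c (b (l 16675696) (a (l 30) (l 16677128))) (a (l 16672624) (l 16672536)))) (b (c (c (l 30) (l 16679248)) (l 16673624)) (a (c (l 30) (l 16675168)) (c (c (l 30) (l 16680696)) (l 16675192)))))))) (b (l 14) (c (c (l 30) (a (a (l 30) (b (l 14) (l 30))) (b (l 14) (b (l 14) (a (l 30) (c (l 30) (l 16687784))))))) (b (a (c (c (l 16686048) (l 16677168)) (l 16671752)) (l 14)) (b (a (c (c (l 16682800) (l 16679208)) (l 16673848)) (l 14)) (a (c (c (a (l 30) (l 16684248)) (a (l 16680680) (l 16680736))) (c (l 16677128) (l 16673584)))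 (a (c (l 16687824) (l 16675712)) (c (l 16682736) (l 16676032))))))))) (l 14)))))) (l 14))) (l 14))), by decide +kernel⟩

theorem s23_pm_011 : ∃ t, chk3 f_pm_011 t 11 63 1 = true := ex3_c k20_pm_011 k21_pm_011

theorem s24_pm_011 : ∃ t, chk3 f_pm_011 t 22 62 1 = true := ex3_c k17_pm_011 k18_pm_011

theorem s25_pm_011 : ∃ t, chk3 f_pm_011 t 11 62 1 = true := ex3_a s24_pm_011 k19_pm_011

theorem s26_pm_011 : ∃ t, chk3 f_pm_011 t 11 31 1 = true := ex3_b s25_pm_011 s23_pm_011

theorem s27_pm_011 : ∃ t, chk3 f_pm_011 t 11 15 1 = true := ex3_b k16_pm_011 s26_pm_011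

theorem s28_pm_011 : ∃ t, chk3 f_pm_011 t 11 7 1 = true := ex3_b k15_pm_011 s27_pm_011

theorem s29_pm_011 : ∃ t, chk3 f_pm_011 t 10 31 3 = true := ex3_a k13_pm_011 k14_pm_011

theorem s30_pm_011 : ∃ t, chk3 f_pm_011 t 10 31 1 = true := ex3_c k12_pm_011 s29_pm_011

theorem s31_pm_011 : ∃ t, chk3 f_pm_011 t 10 30 1 = true := ex3_a k10_pm_011 k11_pm_011

theorem s32_pm_011 : ∃ t, chk3 f_pm_011 t 10 15 1 = true := ex3_b s31_pm_011 s30_pm_011

theorem s33_pm_011 : ∃ t, chk3 f_pm_011 t 10 7 1 = true := ex3_b k9_pm_011 s32_pm_011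

theorem s34_pm_011 : ∃ t, chk3 f_pm_011 t 5 7 1 = true := ex3_a s33_pm_011 s28_pm_011

theorem s35_pm_011 : ∃ t, chk3 f_pm_011 t 5 3 1 = true := ex3_b k8_pm_011 s34_pm_011

theorem s36_pm_011 : ∃ t, chk3 f_pm_011 t 9 15 1 = true := ex3_b k6_pm_011 k7_pm_011

theorem s37_pm_011 : ∃ t, chk3 f_pm_011 t 9 7 1 = true := ex3_b k5_pm_011 s36_pm_011

theorem s38_pm_011 : ∃ t, chk3 f_pm_011 t 8 15 1 = true := ex3_b k3_pm_011 k4_pm_011

theorem s39_pm_011 : ∃ t, chk3 f_pm_011 t 8 7 1 = true := ex3_b k2_pm_011 s38_pm_011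

theorem s40_pm_011 : ∃ t, chk3 f_pm_011 t 4 7 1 = true := ex3_a s39_pm_011 s37_pm_011

theorem s41_pm_011 : ∃ t, chk3 f_pm_011 t 4 3 1 = true := ex3_b k1_pm_011 s40_pm_011

theorem s42_pm_011 : ∃ t, chk3 f_pm_011 t 2 3 1 = true := ex3_a s41_pm_011 s35_pm_011

theorem s43_pm_011 : ∃ t, chk3 f_pm_011 t 2 1 1 = true := ex3_b k0_pm_011 s42_pm_011

theorem s44_pm_011 : ∃ t, chk3 f_pm_011 t 1 1 1 = true := ex3_a s43_pm_011 k22_pm_011

theorem c_pm_011 : CertF 0 536870912 536870912 536870912 201326592 134217728 false true false .pnn 0 1 1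
    ndF0q0 ndF0q1 pcF1 cut_pm_011 Ext.none :=
  certF2 (fam := false) (s1 := true) (s2 := false) (a := 0) (b := 1) (c := 1) (cn := .pnn) (n1 := ndF0q0) (n2 := ndF0q1) (pc := pcF1) (cut := cut_pm_011) (xt := Ext.none) (P1 := 0) (W1 := 536870912) (P2 := 536870912) (W2 := 536870912) (P3 := 201326592) (W3 := 134217728)
    rfl (fun _ => rfl) s44_pm_011

noncomputable def cut_pm_012 : Cut := Cut.of [[⟨3, 0, 0, 1449551462⟩], [⟨4, 0, 0, 2845415833⟩], [⟨0, 0, 0, 53687091⟩, ⟨1, 1, 0, 53687091⟩, ⟨2, 1, 0, 53687091⟩], [⟨0, 0, 1, 67108864⟩, ⟨1, 1, 2, 67108864⟩, ⟨2, 1, 0, 16777216⟩]]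

noncomputable def f_pm_012 : ℕ → ℕ → ℕ → ℕ → Bool := onCell 536870912 536870912 0 536870912 201326592 134217728
    (rowF 2 false true false .pnp 0 1 2 (qsf 0 536870912 0 536870912 1) ndF0q0 ndF0q2 pcF1 cut_pm_012 Ext.none)

def k0_pm_012 : ∃ t, chk3 f_pm_012 t 4 2 1 = true :=
  ⟨(b (l 2) (a (l 2) (a (l 2) (b (l 2) (b (l 2) (c (l 75800362519) (l 17105960))))))), by decide +kernel⟩

def k1_pm_012 : ∃ t, chk3 f_pm_012 t 4 6 1 = true :=
  ⟨(a (l 2) (a (b (l 2) (c (b (l 17273344) (l 17310440)) (b (l 17092008) (l 17107544)))) (b (c (b (l 26408275543) (l 17233712)) (b (l 17047008) (l 17067936))) (c (b (l 17271984) (l 17302944)) (b (l 17083448) (l 17092504)))))), by decide +kernel⟩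

def k2_pm_012 : ∃ t, chk3 f_pm_012 t 8 7 1 = true :=
  ⟨(b (a (l 2) (c (b (l 17351904) (l 17377336)) (b (l 17134128) (b (l 17139384) (l 17140072))))) (c (c (b (a (l 17483440) (l 17458608)) (a (b (l 17487192) (l 17484800)) (l 17454288))) (b (a (b (l 17348816) (l 17353320)) (b (l 17324128) (l 17325024))) (a (b (l 17352944) (a (l 17358968) (l 17343424))) (a (l 17329072) (l 17313656))))) (b (a (a (l 2) (b (l 17158952) (b (l 17115888) (l 17094328)))) (b (c (l 17198512) (l 17079784)) (c (a (l 17204312) (l 17189320)) (a (l 17083280) (l 17068016))))) (a (c (b (a (l 17232696) (l 17217992)) (a (c (l 17263008) (b (l 17201376) (l 17201040))) (c (l 17247968) (l 17186440)))) (b (a (l 5469983047) (l 17097224)) (a (c (a (l 17144704) (l 17137480)) (b (l 17082632) (a (l 17086432) (l 17079360)))) (b (l 17076296) (c (l 17126640) (a (l 17072240) (l 17065064))))))) (c (b (a (l 17203104) (l 17187976)) (a (c (l 17232896) (l 17171600)) (l 17187008))) (b (a (l 17082480) (l 17067280)) (a (b (l 17082584)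 (c (l 17112024) (l 17054136))) (c (l 17096912) (b (l 17038488) (l 17039040)))))))))), by decide +kernel⟩

def k3_pm_012 : ∃ t, chk3 f_pm_012 t 9 7 1 = true :=
  ⟨(b (c (a (b (l 17339080) (l 17357544)) (b (l 17324672) (l 17314488))) (b (a (l 17115520) (b (l 17094184) (l 17092544))) (a (b (l 17115920) (l 17113232)) (b (l 17088608) (l 17082032))))) (a (c (b (c (l 17431704) (b (l 17297200) (l 17295128))) (c (l 17422200) (a (l 17298224) (l 17282648)))) (b (b (a (l 17115960) (l 17099736)) (c (l 17166016) (a (l 17051992) (l 17034944)))) (c (b (a (l 17172472) (l 17156480)) (a (l 17171800) (l 17156136))) (b (a (l 17051344) (l 17034448)) (a (a (l 17055904) (l 17047856)) (c (l 17065008) (l 17005616))))))) (c (b (c (b (l 17405568) (l 17400872)) (b (l 17267096) (l 17262936))) (c (a (l 17398376) (l 17382488)) (a (l 17266712) (l 17250240)))) (b (b (b (l 17075416) (a (l 17079904) (l 17018432))) (c (a (l 17140488) (l 17122024)) (a (l 17016408) (l 16995968)))) (c (a (b (l 17139544) (l 17139656))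 (b (l 17121240) (l 17121624))) (a (b (l 17015920) (c (l 17047168) (l 16986536))) (b (a (l 17000672) (l 16989544)) (b (l 16995464) (c (l 17027464) (l 16964896)))))))))), by decide +kernel⟩

def k4_pm_012 : ∃ t, chk3 f_pm_012 t 5 2 1 = true :=
  ⟨(b (b (a (l 6) (b (a (l 6) (c (l 16972160) (l 16890576))) (a (c (l 16977064) (l 16900936)) (c (l 17003448) (l 16912320))))) (a (b (a (l 6) (c (l 16985496) (l 16910688))) (a (c (l 17000072) (l 16922640)) (c (l 17022728) (l 16936368)))) (a (c (b (l 17010792) (l 17045632)) (b (l 16924544) (l 16949648))) (c (b (l 17035264) (l 17068440)) (l 16930888))))) (a (b (a (c (b (l 17041480) (l 17081976)) (b (l 16950544) (l 16978240))) (c (b (l 17061120) (l 17098832)) (b (l 16963256) (l 16990448)))) (a (b (c (l 17119744) (l 17004808)) (c (b (l 17147472) (l 17167016)) (b (l 17023960) (l 17035480)))) (b (c (l 17155848) (l 17037320)) (c (l 17171640) (l 17036504))))) (b (a (c (b (l 17082040) (l 17118048)) (l 17011560)) (c (b (l 17103368) (l 17138424)) (b (l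 16987736) (l 17014536)))) (a (c (b (b (l 17144000) (l 17161112)) (l 17186216)) (b (b (l 17023976) (l 17032056)) (l 17034400))) (c (b (l 17168848) (l 17193528)) (b (l 17024928) (l 17016232))))))), by decide +kernel⟩

def k5_pm_012 : ∃ t, chk3 f_pm_012 t 5 6 1 = true :=
  ⟨(a (b (c (a (b (l 17199432) (l 17237824)) (b (l 17209120) (l 17240624))) (a (b (l 17048880) (l 17062936)) (b (l 17046784) (l 17052504)))) (c (a (b (l 17269760) (l 17293720)) (b (l 17265024) (l 17280456))) (a (b (l 17071384) (l 17072872)) (b (l 17052072) (l 17043664))))) (b (c (a (b (l 17215560) (l 17238712)) (b (l 17213208) (l 17225600))) (a (b (l 17034840) (l 17030320)) (b (l 17004536) (l 16986768)))) (c (a (b (l 17253632) (l 17258528)) (b (l 17228800) (l 17199448))) (a (b (l 17018464) (l 16955872)) (b (l 16960968) (a (l 16946208) (l 16901024))))))), by decide +kernel⟩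

def k6_pm_012 : ∃ t, chk3 f_pm_012 t 10 7 1 = true :=
  ⟨(b (c (a (b (l 17307608) (c (l 17379336) (l 17241456))) (b (l 17284880) (c (l 17350208) (l 17203384)))) (b (a (a (l 17073432) (l 17057048)) (a (l 17037400) (l 17013216))) (a (b (l 17053664) (l 17042456)) (b (l 17005264) (a (l 17003184) (l 16970768)))))) (c (b (c (a (b (l 17375288) (l 17367864)) (l 17331968)) (a (b (l 17231224) (l 17224576)) (b (l 17184352) (l 17172000)))) (a (a (c (l 17365368) (l 17229648)) (c (l 17344592) (l 17202400))) (c (b (l 17313016) (l 17298536)) (b (a (l 17176040) (l 17140736)) (a (l 17164624) (l 17082264)))))) (b (a (a (b (c (l 17105784) (l 16978088)) (c (l 17100120) (l 16970864))) (b (c (l 17081864) (l 16950632)) (c (l 17073288) (l 16939488)))) (b (a (c (l 17054080) (l 16918376)) (c (l 17021320) (l 16880104))) (a (c (l 17041616) (l 16902264)) (c (l 17004208) (l 16816288))))) (a (b (a (c (l 17097496) (a (l 16975640) (l 16958456))) (c (l 17066208) (b (l 16932392) (l 16927688)))) (c (a (b (l 17096200)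 (l 17095736)) (b (l 17061032) (l 17057784))) (a (b (a (l 16974760) (l 16955240)) (a (l 16974704) (l 16953504))) (b (c (l 16957448) (l 16868008)) (c (l 16932544) (a (l 16896640) (l 30))))))) (a (b (c (l 17029480) (b (l 16890504) (a (l 16894440) (l 16870080)))) (c (b (l 17020096) (c (l 17050728) (l 16976928))) (c (b (l 16910720) (a (l 16916496) (l 30))) (l 30)))) (b (c (b (l 16991016) (l 16981824)) (b (l 16841440) (l 30))) (c (b (c (l 17011248) (l 16933672)) (c (l 17002032) (a (l 16937672) (l 30)))) (l 30)))))))), by decide +kernel⟩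

def k7_pm_012 : ∃ t, chk3 f_pm_012 t 11 14 1 = true :=
  ⟨(a (c (b (c (l 17326272) (l 17177208)) (c (l 17309376) (l 17149208))) (b (a (l 16983608) (l 16947280)) (b (l 16872136) (a (l 16932176) (l 16885992))))) (c (b (c (l 17282480) (l 17115048)) (c (b (l 17259472) (l 17237920)) (b (l 17082992) (l 17034960)))) (b (a (l 16902824) (l 16827352)) (b (l 16748608) (a (l 16830384) (l 16741800)))))), by decide +kernel⟩

def k8_pm_012 : ∃ t, chk3 f_pm_012 t 11 15 1 = true :=
  ⟨(b (c (a (c (b (l 17286352) (l 17268008)) (b (l 17119680) (a (l 17119344) (l 17075800)))) (c (b (l 17213168) (a (l 17208672) (l 17158864))) (b (a (l 17053216) (l 16997136)) (a (l 17023728) (b (l 16970584) (l 16951760)))))) (a (b (a (b (l 16912992) (l 16900952)) (c (l 16935952) (l 16717048))) (a (c (l 16959912) (b (l 16813256) (l 16798856))) (c (b (l 16914528) (l 16899784)) (l 16702376)))) (b (a (c (l 16879872) (l 16714064)) (c (l 16790896) (l 16703480))) (a (c (b (l 16853448) (l 16835176)) (l 16692120)) (c (l 16706320)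 (l 16693600)))))) (c (a (c (b (l 17247024) (a (l 17244552) (l 17200032))) (b (a (l 17099056) (c (l 17093608) (l 17006096))) (a (b (l 17082544) (c (l 17112920) (l 17029104))) (b (c (l 17072976) (l 16984216)) (c (l 17058472) (a (l 16984888) (l 30))))))) (a (c (b (l 17179728) (b (l 17155704) (l 17075712))) (c (b (l 17038048) (b (l 17012464) (a (l 17011496) (l 30)))) (b (b (l 16953432) (l 30)) (l 30)))) (b (c (c (l 17174712) (l 17072856)) (b (c (l 16981848) (l 16882392)) (l 30))) (c (c (l 17136088) (a (l 17050624) (a (l 17023880) (l 30)))) (l 30))))) (a (a (b (c (b (l 16942112) (c (l 16970392) (l 30))) (b (l 16721040) (l 30))) (c (c (b (l 16958072) (a (l 16960384) (l 30))) (l 30)) (l 30))) (b (b (c (l 16842472) (l 16695416)) (l 30)) (l 30))) (a (b (b (c (l 16690304) (l 16687720)) (l 30)) (l 30)) (a (b (b (c (l 16756704) (l 16687928)) (l 30)) (l 30)) (b (c (b (l 16712576) (l 30)) (b (l 16687952) (l 16684952))) (c (l 30) (c (l 30) (c (l 30) (b (l 16677400) (b (l 16675696) (a (l 30) (l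 16674712))))))))))))), by decide +kernel⟩

def k9_pm_012 : ∃ t, chk3 f_pm_012 t 6 2 1 = true :=
  ⟨(b (a (a (b (c (b (l 16996184) (l 17025720)) (l 16904768)) (c (l 17071784) (l 16950104))) (b (c (l 17024512) (l 16890984)) (c (l 17081872) (l 16942160)))) (b (c (a (l 17020384) (l 16981840)) (a (l 16902544) (l 16915768))) (a (c (l 17071328) (l 16959784)) (c (b (l 17012104) (l 17034768)) (b (l 16958040) (l 16977712)))))) (a (b (a (b (c (l 17121664) (l 16990208)) (c (b (l 17146288) (l 17158696)) (l 17006664))) (c (b (l 17127200) (l 17145184)) (b (l 16986560) (l 16978008)))) (a (c (b (l 17171648) (l 17185680)) (l 16981952)) (c (b (l 17151048) (l 17151976)) (b (l 16937352) (l 16897232))))) (b (a (c (b (l 17102688) (l 17100464)) (b (l 16985720) (l 16952480))) (c (b (l 17018232) (l 16997776)) (b (l 16958632) (l 16921144)))) (c (a (b (l 17091968) (l 17076128)) (b (l 16969984) (l 16931320))) (a (b (l 16913360) (l 16874992)) (b (l 16883456) (l 16846920))))))), by decide +kernel⟩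

def k10_pm_012 : ∃ t, chk3 f_pm_012 t 7 4 1 = true :=
  ⟨(a (b (c (a (l 16974944) (b (l 16969968) (l 17000640))) (a (l 16923704) (b (l 16913792) (l 16939000)))) (c (a (b (l 17020336) (l 17017184)) (b (a (l 17017472) (l 17002928)) (l 16973264))) (a (b (a (l 16963616) (l 16961672)) (a (l 16966648) (l 16946936))) (b (a (l 16953888) (l 16938368)) (l 16913592))))) (b (a (c (b (l 16977072) (a (l 16999792) (l 16988760))) (b (a (l 16913560) (l 16912320)) (a (b (l 16933072) (l 16937464)) (b (l 16926208) (l 16916648))))) (c (b (a (l 16976616) (c (l 16984752) (l 16949336))) (a (l 16966928) (l 16936544))) (b (a (c (l 16924920) (l 16890080)) (c (b (l 16916800) (l 16914680)) (b (l 16880984) (l 16878824)))) (a (c (l 16915968) (l 16881464)) (c (l 16886608) (l 16853000)))))) (a (c (b (c (l 16980584) (l 16949568)) (a (l 16936648) (l 16910816))) (b (a (l 16914360) (l 16888528)) (a (l 16877848) (l 16852848)))) (c (b (a (l 16923672) (l 16894360)) (a (l 16883840) (l 16855792))) (a (b (l 16861632) (l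 16826992)) (b (c (l 16849032) (l 16818368)) (c (l 16814360) (l 16786232)))))))), by decide +kernel⟩

def k11_pm_012 : ∃ t, chk3 f_pm_012 t 7 5 1 = true :=
  ⟨(a (b (c (a (b (l 16976712) (l 16936520)) (b (l 16933584) (c (l 16907664) (l 16882984)))) (a (b (l 16920680) (l 16884504)) (b (a (l 16889080) (l 16866824)) (a (l 16854272) (l 16833144))))) (a (c (b (l 16896000) (l 16814720)) (b (l 16848680) (a (l 16822912) (l 16805904)))) (c (b (a (l 16867472) (l 16847480)) (a (l 16830352) (l 16811968))) (b (a (l 16820240) (l 16800496)) (a (l 16788240) (l 16770056)))))) (b (a (c (b (a (l 16898496) (l 16873856)) (a (l 16862320) (l 16839160))) (b (a (l 16843744) (l 16819904)) (a (l 16811336) (l 16788936)))) (c (a (b (l 16848264) (c (l 16827152) (l 16803040))) (b (c (l 16834440) (l 16809040)) (c (l 16802240) (l 16778600)))) (a (b (l 16795392) (c (l 16778448) (l 16753384))) (b (c (l 16783288) (l 16757176)) (a (l 16748472) (l 16736712)))))) (a (c (b (a (l 16826688) (l 16784176)) (a (l 16771904)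 (c (l 16782880) (l 16763168)))) (b (a (l 16780160) (l 16738384)) (a (l 16730432) (c (l 16742808) (l 16721792))))) (c (a (b (c (l 16793824) (l 16771888)) (c (l 16762448) (l 16743056))) (b (c (l 16770848) (l 16749376)) (c (a (l 16746800) (l 16736264)) (a (l 16727736) (l 16717464))))) (a (b (c (l 16749512) (l 16726680)) (c (l 16723208) (l 16702904))) (b (a (l 16722064) (l 16711296)) (a (l 16698568) (c (l 16698456) (l 16679240))))))))), by decide +kernel⟩

def k12_pm_012 : ∃ t, chk3 f_pm_012 t 6 6 1 = true :=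
  ⟨(a (b (c (a (b (l 17193480) (l 17192776)) (b (l 17145112) (l 17043776))) (a (b (l 16943992) (l 16910288)) (b (l 16858496) (l 16821928)))) (c (a (b (l 17160224) (c (l 17246384) (l 17067568))) (b (c (l 17195696) (l 16999624)) (c (l 17157624) (l 16776024)))) (a (b (l 16824888) (l 16790520)) (b (l 16788792) (a (l 16762136) (l 16757152)))))) (b (c (a (b (l 17007960) (l 16842232)) (b (l 16878144) (a (l 16867944) (l 16805200)))) (a (b (l 16838256) (l 16803960)) (b (l 16812544) (a (l 16787000) (l 16774592))))) (a (c (b (c (l 17054600) (l 16811264)) (c (l 16778152) (b (l 16768768) (l 16754936)))) (b (a (l 16777536) (l 16768536)) (a (l 16750784) (c (l 16748888) (l 16737232))))) (c (b (c (l 16805640) (a (l 16777832) (l 16767648))) (c (a (l 16834544) (l 16750712)) (a (l 16750664) (l 16742376)))) (b (a (l 16758568) (c (l 16754944) (l 16740288))) (a (c (l 16740848) (l 16728872)) (c (l 16732120) (b (l 16724280) (l 16715528))))))))), by decide +kernel⟩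

def k13_pm_012 : ∃ t, chk3 f_pm_012 t 12 14 1 = true :=
  ⟨(b (a (c (c (l 17212280) (a (l 17046952) (l 16987360))) (b (l 16760928) (l 16734792))) (c (c (a (l 17132792) (l 17061736)) (a (l 16912920) (l 16819736))) (a (c (l 16741360) (l 16733832)) (c (l 16738184) (l 16729952))))) (a (c (b (c (l 17173888) (l 16970656)) (c (l 17078208) (a (l 16967664) (l 16892232)))) (b (a (l 16724376) (l 16724872)) (b (l 16718712) (a (l 16713808) (l 16715168))))) (c (b (c (l 16998920) (l 16736416)) (c (a (l 17036752) (b (l 16959040) (l 16932328))) (a (l 16736720) (l 16719768)))) (b (c (l 16725552) (a (l 16720584) (l 16717872))) (c (a (l 16717928) (b (l 16718776) (l 16715488))) (a (b (l 16715624) (l 16712232)) (b (l 16713312) (l 16709912)))))))), by decide +kernel⟩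

def k14_pm_012 : ∃ t, chk3 f_pm_012 t 24 15 1 = true :=
  ⟨(b (c (c (b (a (l 17135984) (l 17070120)) (a (l 17098544) (c (l 17083624) (l 16967184)))) (b (b (l 16712112) (l 16710688)) (a (b (l 16897216) (l 16811696)) (b (l 16808336) (l 16718648))))) (b (c (a (l 16729496) (l 16709632)) (a (l 16704448) (l 16704312))) (c (a (l 16701640) (b (l 16703400) (l 16700080))) (a (b (l 16696320) (l 16691760)) (b (l 16696120) (l 16691536)))))) (c (b (b (c (a (l 17067392) (c (l 17047464) (l 16929224))) (a (l 16704192) (l 16706560))) (c (a (c (l 17100312) (l 30)) (l 30)) (l 30))) (c (a (c (b (l 17077392) (a (l 17072808) (l 30))) (l 30)) (l 30)) (l 30))) (b (a (c (b (l 16697784) (l 30)) (b (l 16687856) (a (l 16684736) (l 16684576)))) (a (c (b (l 16697544) (l 30)) (b (l 16687712) (l 16684496))) (c (b (l 16697376) (l 16695400)) (b (l 16687624) (l 16684512))))) (b (a (c (l 30) (a (c (l 30) (l 16678888)) (c (l 16685304) (l 16678776)))) (c (c (l 30) (a (l 30) (l 16691176))) (a (c (l 16685160) (l 16678832))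 (c (l 16685184) (l 16679056))))) (a (c (l 30) (c (c (l 30) (a (l 30) (a (l 30) (a (l 30) (l 16682008))))) (b (a (l 16677240) (l 16677136)) (a (b (l 16676584) (a (l 16676288) (l 16676168))) (a (l 16676312) (l 16676328)))))) (a (c (l 30) (b (c (l 16683960) (l 16677256)) (a (c (c (l 30) (l 16681680)) (l 16676408)) (c (b (l 16683552) (l 16683328)) (l 16676560))))) (b (c (c (l 30) (c (l 30) (l 16688848))) (c (l 16684048) (l 16677592))) (a (c (l 30) (c (b (l 16683616) (l 16683408)) (l 16676776))) (c (c (l 30) (c (l 30) (l 16688576))) (c (l 16683648) (l 16677048))))))))))), by decide +kernel⟩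

def k15_pm_012 : ∃ t, chk3 f_pm_012 t 25 30 1 = true :=
  ⟨(c (b (c (a (l 16947112) (l 16720936)) (a (l 16724000) (l 16712592))) (c (a (b (l 16928648) (c (l 16985480) (l 16857904))) (a (l 16708608) (l 16710440))) (a (b (l 16708784) (l 16706824)) (b (l 16708360) (l 16706408))))) (b (a (c (l 16709264) (b (l 16705944) (l 16700328))) (c (b (l 16710152) (l 16705832)) (b (l 16703824) (l 16698720)))) (a (c (b (l 16703008) (l 16699712)) (b (l 16695368) (a (l 16691232) (l 16690992)))) (c (b (l 16702168) (a (l 16699384) (l 16699088))) (b (a (l 16694624) (l 16694040)) (a (l 16690744) (l 16690496))))))), by decide +kernel⟩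

def k16_pm_012 : ∃ t, chk3 f_pm_012 t 25 31 1 = true :=
  ⟨(c (b (b (c (a (c (l 16956712) (l 16743984)) (c (l 16698832) (l 16710600))) (a (c (l 16707416) (l 16703504)) (c (l 16707008) (l 16703144)))) (c (l 30) (a (l 30) (c (l 30) (a (l 30) (l 16702368)))))) (a (l 30) (a (l 30) (a (l 30) (a (l 30) (l 14)))))) (b (a (c (b (c (l 16699304) (l 16694808)) (c (a (l 30) (l 16697704)) (a (l 16692688) (l 16692712)))) (b (a (l 16687568) (l 16687552)) (a (l 16684624) (c (l 16687512) (l 16682112))))) (c (b (a (l 16696984) (l 16696912)) (a (c (l 16697712) (l 16692840)) (c (l 16697808) (l 16693064)))) (b (a (l 16687584) (l 16687680)) (a (c (l 16687776) (l 16682512)) (c (l 16688136) (l 16683032)))))) (b (a (c (c (a (l 30) (b (l 16696952) (l 16696696))) (a (l 16691176) (l 16696584))) (a (c (l 16685376) (l 16679448)) (c (l 16685736) (l 16680008)))) (c (b (a (c (l 16697064) (l 16691872)) (l 16696136)) (a (c (l 16696880) (l 16691480)) (l 14))) (a (c (l 16686272) (l 16680744)) (c (l 16686960) (l 16681640)))))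 (a (a (b (c (c (l 30) (l 16695744)) (c (l 16684360) (l 16678152))) (c (c (l 30) (a (c (l 30) (l 16688672)) (b (l 16690416) (l 14)))) (c (a (l 16683848) (l 16684104)) (l 16677560)))) (b (c (c (c (l 30) (l 16695168)) (l 16690784)) (c (l 16684888) (l 16678928))) (l 14))) (l 14))))), by decide +kernel⟩

def k17_pm_012 : ∃ t, chk3 f_pm_012 t 13 14 1 = true :=
  ⟨(b (c (a (c (a (l 16950344) (l 16751080)) (a (l 16739880) (l 16735128))) (c (a (l 16734840) (b (l 16733736) (l 16724728))) (a (l 16729544) (b (l 16727168) (l 16719328))))) (a (a (c (l 16733680) (l 16724920)) (c (l 16728272) (b (l 16722760) (l 16715312)))) (a (c (b (l 16725920) (l 16718240)) (b (l 16715800) (l 16709336))) (b (c (l 16718712) (l 16708368)) (c (l 16712064) (l 16702936)))))) (a (c (b (c (l 16725712) (l 16724072)) (c (a (l 16726760) (l 16739848)) (a (l 16739560) (b (l 16717264) (l 16713960))))) (b (c (a (l 16721096) (l 16717120)) (a (l 16714168) (l 16709744))) (a (c (b (l 16716048) (l 16712432)) (b (l 16709992) (l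 16706152))) (c (b (l 16712928) (l 16709184)) (b (b (l 16707024) (l 16705968)) (l 16702344)))))) (c (b (a (c (l 16721712) (l 16718152)) (c (b (l 16719160) (l 16716192)) (b (l 16714632) (l 16712272)))) (a (c (b (l 16717368) (l 16714672)) (b (l 16714304) (l 16711032))) (c (b (l 16714552) (l 16712128)) (b (l 16710632) (l 16707768))))) (b (a (c (l 16712520) (l 16704800)) (b (c (l 16708264) (l 16700048)) (c (a (l 16707680) (l 16705000)) (a (l 16700104) (b (l 16697696) (l 16697224)))))) (a (c (b (l 16709224) (l 16705600)) (b (b (l 16702632) (l 16701088)) (a (l 16699384) (l 16697400)))) (c (b (a (l 16705864) (l 16703336)) (a (l 16702816) (l 16700920))) (b (a (l 16698552) (l 16695928)) (a (l 16695416) (l 16693456))))))))), by decide +kernel⟩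

def k18_pm_012 : ∃ t, chk3 f_pm_012 t 26 15 1 = true :=
  ⟨(b (c (b (c (a (l 16721568) (b (l 16714520) (l 16712928))) (a (l 16711344) (b (l 16710904) (l 16708440)))) (c (a (c (l 16714144) (l 16716232)) (b (l 16711960) (c (l 16712976) (l 16710176)))) (a (b (l 16707536) (c (l 16707496) (l 16704168))) (b (l 16706624) (c (l 16707104) (l 16703760)))))) (b (a (c (b (l 16708000) (l 16704200)) (b (l 16701136) (l 16696776))) (c (b (l 16705480) (l 16702392)) (b (a (l 16698992) (l 16697528)) (a (l 16695328) (l 16694360))))) (a (c (b (l 16701064) (a (l 16698816) (l 16698600))) (b (a (l 16693440) (l 16692880)) (a (l 16690288) (l 16690152)))) (c (b (a (l 16700336) (l 16699840)) (a (l 16698448) (l 16698352))) (b (a (l 16692360) (l 16691880)) (a (l 16690096) (l 16690112))))))) (c (b (c (a (b (c (l 16713592) (l 16710288)) (l 30)) (b (c (a (l 16713696) (l 16713736)) (a (l 16710416) (l 16710488))) (l 14))) (a (b (c (l 16706744) (l 16702968)) (c (a (l 30) (l 16706912)) (a (l 16702496) (l 16702760))))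 (b (c (a (l 16706920) (l 16707048)) (a (l 16703216) (l 16703400))) (l 14)))) (l 14)) (b (b (a (c (a (l 16696928) (l 16697048)) (a (l 16687856) (c (l 16690464) (l 16685792)))) (c (a (c (l 16699296) (l 16695168)) (c (l 16699560) (l 16695512))) (a (c (l 16690816) (l 16686256)) (c (l 16691272) (l 16686832))))) (a (c (a (c (l 16698056) (l 16693440)) (c (l 16698432) (l 16693952))) (a (c (l 16688648) (l 16683688)) (c (l 16689304) (l 16684496)))) (l 14))) (l 14)))), by decide +kernel⟩

def k19_pm_012 : ∃ t, chk3 f_pm_012 t 27 15 1 = true :=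
  ⟨(b (c (a (b (c (b (l 16712920) (l 16711784)) (b (l 16708616) (l 16706832))) (c (b (c (l 16712448) (l 16709944)) (c (l 16712688) (l 16709848))) (b (a (l 16706072) (l 16705600)) (a (l 16705424) (l 16705328))))) (b (c (b (l 16711000) (a (l 16710880) (l 16710168))) (a (b (l 16706832) (l 16705672)) (b (l 16705560) (l 16704840)))) (b (c (a (l 16710808) (l 16710456)) (a (l 16705144) (l 16704768))) (l 14)))) (a (b (c (b (l 16702736) (a (l 16701096) (l 16700168))) (b (a (l 16696072) (l 16694624)) (a (l 16693424) (l 16692504)))) (c (b (a (l 16699352) (l 16698888)) (a (l 16698296) (c (l 16700136) (l 16696400)))) (a (b (l 16691456) (c (l 16692312) (l 16688032))) (b (c (l 16693136) (l 16688960)) (c (l 16692432) (l 16688248)))))) (b (c (a (b (l 16700712) (l 16699256)) (b (l 16699336) (l 16698408))) (a (b (l 16693192) (l 16691632)) (b (l 16691824) (c (l 16692856) (l 16688808))))) (b (c (a (l 16698464) (c (l 16699888) (l 16696352))) (a (c (l 16692792) (l 16688696)) (c (l 16692576) (l 16688568))))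 (l 14))))) (l 14)), by decide +kernel⟩

def k20_pm_012 : ∃ t, chk3 f_pm_012 t 7 12 1 = true :=
  ⟨(a (a (c (b (c (l 16827832) (l 16811128)) (a (l 16792552) (c (l 16785992) (l 16771840)))) (b (a (l 16790616) (l 16775144)) (a (l 16761448) (c (l 16756152) (l 16738936))))) (c (b (a (l 16795888) (c (l 16787688) (l 16770520))) (a (c (l 16771968) (l 16757584)) (c (l 16757304) (l 16742800)))) (b (a (l 16759152) (c (l 16752248) (l 16732880))) (a (c (l 16741872) (l 16724848)) (c (l 16727192) (l 16710480)))))) (a (c (b (a (c (l 16770440) (l 16753280)) (c (l 16752560) (l 16735576))) (a (c (l 16721024) (b (l 16733344) (l 16721592))) (c (b (l 16732160) (l 16720192)) (b (l 16717216) (l 16706576))))) (b (a (c (l 16735232) (l 16716296)) (c (l 16717904) (l 16678592))) (b (a (l 16688008) (c (l 16701584) (l 16685272))) (a (c (l 16706904) (l 16691320)) (c (l 16692288) (l 16677312)))))) (a (c (b (c (b (l 16740744) (l 16727592)) (b (l 16723408) (l 16711616))) (c (b (l 16715496) (l 16704728)) (b (l 16700888)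 (l 16691448)))) (b (a (c (l 16704776) (l 16686968)) (c (l 16696024) (l 16678608))) (b (c (l 16685792) (l 16670216)) (c (l 16677696) (l 16663472))))) (c (b (c (a (l 16720248) (l 16710928)) (a (l 16703920) (l 16694856))) (a (c (b (l 16702920) (l 16693112)) (l 16684432)) (c (b (l 16694576) (l 16685464)) (b (l 16680544) (l 16672760))))) (b (a (c (l 16687264) (l 16670280)) (b (l 16674416) (l 16666168))) (a (b (l 16666592) (l 16660128)) (b (l 16659064) (c (l 16659832) (l 16646680))))))))), by decide +kernel⟩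

def k21_pm_012 : ∃ t, chk3 f_pm_012 t 14 13 1 = true :=
  ⟨(a (c (b (a (c (l 16767880) (l 16756632)) (c (l 16756528) (l 16744928))) (a (c (l 16742216) (l 16733360)) (c (b (l 16737952) (l 16727648)) (b (l 16728152) (l 16719024))))) (b (a (c (l 16743648) (l 16728928)) (c (l 16731792) (l 16717144))) (b (a (l 16700056) (c (l 16716864) (l 16704088))) (a (c (l 16718272) (l 16706640)) (c (l 16708944) (l 16697408)))))) (c (b (a (c (l 16744504) (l 16732648)) (c (b (l 16737424) (l 16726104)) (b (l 16724864) (l 16714784)))) (a (c (b (l 16727432) (l 16718144)) (b (l 16717400) (l 16709320))) (c (b (l 16716336) (l 16708176)) (b (l 16706240) (l 16699288))))) (b (b (a (l 16717024) (c (l 16711208) (l 16696472))) (a (c (l 16714520) (l 16700712)) (c (l 16702392) (l 16688936)))) (a (b (c (l 16706112) (l 16693560)) (c (l 16699256) (l 16687960))) (b (c (l 16695088) (l 16682904)) (c (l 16689392) (a (l 16680816) (l 16676096)))))))), by decide +kernel⟩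

def k22_pm_012 : ∃ t, chk3 f_pm_012 t 30 13 1 = true :=
  ⟨(b (c (a (c (b (l 16723696) (l 16713488)) (b (l 16711176) (l 16702224))) (c (b (l 16709640) (a (l 16703824) (l 16697352))) (b (l 16697320) (a (l 16692704) (l 16686376))))) (a (b (c (l 16697784) (l 16683520)) (c (l 16690104) (l 16677136))) (a (b (l 16680856) (l 16674720)) (b (l 16674312) (l 16663560))))) (c (a (c (b (a (l 16707736) (l 16701952)) (a (l 16700472) (l 16695296))) (b (l 16684360) (a (l 16691632) (l 16686536)))) (c (b (a (l 16696128) (l 16690336)) (a (l 16690152) (l 16685064))) (b (a (l 16686256) (l 16680600)) (a (l 16681512) (l 16676568))))) (a (b (c (a (l 16686736) (l 16681192)) (a (l 16674920) (l 16669664))) (c (a (l 16681952) (l 16677040)) (a (l 16671424) (l 16666808)))) (b (c (a (l 16675704) (l 16670304)) (a (l 16664496) (l 16659448))) (c (a (l 16672240) (l 16667536)) (a (l 16662328) (l 16657976))))))), by decide +kernel⟩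

def k23_pm_012 : ∃ t, chk3 f_pm_012 t 31 13 1 = true :=
  ⟨(a (b (c (c (b (a (l 16698952) (l 16691856)) (a (l 16690920) (l 16684528))) (b (a (l 16686880) (l 16679984)) (a (l 16680112) (l 16673912)))) (b (a (l 16667808) (l 16661400)) (a (c (l 16668816) (l 16657032)) (c (l 16662912) (l 16651528))))) (c (b (c (a (l 16684600) (l 16678944)) (a (l 16675032) (l 16669568))) (c (a (l 16680072) (l 16675160)) (a (l 16671736) (l 16667008)))) (b (a (c (l 16665000) (l 16654512)) (c (l 16659832) (l 16649736))) (a (c (l 16662968) (l 16653784)) (c (l 16658536) (l 16649736)))))) (b (c (a (c (b (l 16684848) (l 16678232)) (b (l 16673184) (l 16667832))) (b (c (l 16677904) (l 16666488)) (c (a (l 16673544) (l 16670456)) (l 16661848)))) (a (b (l 16655120) (c (l 16657144) (l 16646176))) (b (c (l 16654864) (l 16643032)) (c (l 16651504) (l 16640968))))) (c (a (c (b (l 16673376) (a (l 16671512) (l 16669120))) (b (l 16664208) (l 16662392))) (b (c (a (l 16669248) (l 16666520)) (a (l 16660256) (l 16657656)))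 (c (a (l 16666744) (l 16664384)) (a (l 16658992) (l 16656768))))) (a (b (c (l 16654784) (l 16645104)) (c (l 16654232) (l 16645848))) (b (c (l 16660368) (l 16640640)) (a (l 16647080) (a (l 16645624) (l 16644664)))))))), by decide +kernel⟩

def k24_pm_012 : ∃ t, chk3 f_pm_012 t 14 28 1 = true :=
  ⟨(a (c (a (c (b (l 16726752) (l 16718800)) (b (l 16719664) (l 16712880))) (c (b (l 16718936) (l 16712008)) (b (l 16711496) (l 16705776)))) (a (b (c (l 16710912) (l 16700504)) (c (l 16705336) (a (l 16697856) (l 16694376)))) (b (c (l 16702640) (l 16692352)) (c (l 16698144) (a (l 16690848) (l 16687304)))))) (c (a (c (b (l 16710520) (l 16704728)) (b (l 16702896) (a (l 16700176) (l 16696400)))) (c (b (a (l 16703904) (l 16699440)) (a (l 16699016) (l 16695176))) (b (a (l 16696248) (l 16691800)) (a (l 16692600) (l 16688784))))) (a (b (c (l 16694072) (a (l 16686096) (l 16681952))) (c (a (l 16692576) (l 16688872)) (a (l 16683760) (l 16680232)))) (b (c (a (l 16687552) (l 16683232)) (a (l 16677824)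 (l 16673736))) (c (a (l 16685176) (l 16681496)) (a (l 16676744) (l 16673312))))))), by decide +kernel⟩

def k25_pm_012 : ∃ t, chk3 f_pm_012 t 28 29 1 = true :=
  ⟨(c (b (a (c (b (l 16714000) (b (l 16712072) (l 16711240))) (b (l 16708968) (b (l 16707488) (l 16706864)))) (c (b (l 16708024) (l 16706312)) (b (l 16702704) (a (l 16702624) (l 16700168))))) (a (c (b (l 16709912) (l 16708952)) (a (l 16705832) (l 16703704))) (c (b (l 16705544) (l 16705552)) (b (l 16700592) (a (l 16701312) (l 16699416)))))) (b (a (b (c (l 16702336) (l 16694096)) (c (b (l 16701304) (a (l 16702056) (l 16699432))) (b (l 16693528) (a (l 16694544) (l 16691920))))) (c (b (l 16696000) (a (l 16696472) (l 16693952))) (b (l 16687928) (a (b (l 16689136) (l 16689304)) (b (l 16686016) (l 16686160)))))) (b (a (c (l 16699384) (a (l 16693192) (l 16690680))) (c (a (l 16695640) (l 16693184)) (a (l 16688232) (l 16685864)))) (a (c (a (l 16698968) (l 16697032)) (a (l 16691504) (l 16689608))) (c (a (l 16695096) (l 16693208)) (a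 (l 16687760) (l 16686000))))))), by decide +kernel⟩

def k26_pm_012 : ∃ t, chk3 f_pm_012 t 29 29 1 = true :=
  ⟨(c (b (a (c (b (l 16701632) (a (l 16702664) (l 16699912))) (b (l 16696160) (a (l 16697584) (l 16694736)))) (c (b (a (l 16696152) (l 16692688)) (a (l 16696728) (l 16693792))) (b (a (l 16690696) (l 16687272)) (a (l 16691520) (l 16688568))))) (b (b (a (c (l 16700808) (l 16695664)) (c (l 16696048) (l 16690840))) (a (c (l 16701088) (l 16695904)) (l 14))) (a (a (c (l 16702784) (l 16697544)) (l 14)) (l 14)))) (b (a (b (c (l 16689544) (l 16681776)) (c (a (l 16691344) (l 16688528)) (b (a (l 16683416) (l 16680904)) (l 16682152)))) (b (c (a (l 16684264) (l 16680984)) (a (l 16676856) (l 16673832))) (c (a (l 16685392) (l 16682544)) (a (l 16678344) (l 16675728))))) (b (a (c (a (l 16690792) (l 16688488)) (a (l 16683600) (l 16681464))) (a (c (l 16686304) (l 16679488)) (l 14))) (a (a (c (l 16691400) (l 16684352)) (l 14)) (l 14))))), by decide +kernel⟩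

def k27_pm_012 : ∃ t, chk3 f_pm_012 t 14 15 1 = true :=
  ⟨(a (b (a (b (c (c (a (b (l 16709312) (l 16709392)) (b (l 16708104) (l 16708648))) (a (b (l 16704216) (l 16703976)) (b (l 16702872) (l 16703160)))) (c (a (b (l 16697928) (l 16697544)) (b (l 16696568) (l 16696760))) (a (b (l 16690472) (c (l 16692064) (l 16688088))) (b (l 16689184) (c (l 16691360) (l 16687472)))))) (l 14)) (a (b (b (c (c (l 16706800) (l 16701480)) (c (l 16695200) (l 16687944))) (l 14)) (l 14)) (l 14))) (l 14)) (l 14)), by decide +kernel⟩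

def k28_pm_012 : ∃ t, chk3 f_pm_012 t 15 7 1 = true :=
  ⟨(b (a (b (c (a (b (c (a (l 16694928) (l 16690432)) (a (l 16687336) (l 16682928))) (c (a (l 16691344) (l 16687560)) (a (l 16685008) (l 16681312)))) (b (c (a (l 16686000) (l 16681664)) (a (l 16678608) (l 16674416))) (c (a (l 16683896) (l 16680312)) (a (l 16677760) (l 16674312))))) (a (b (c (a (l 16678928) (l 16674704)) (a (l 16669712) (l 16665784))) (c (a (l 16677888) (l 16674384)) (a (l 16669984) (l 16666784)))) (b (a (c (l 16670616) (l 16662016)) (c (l 16666664) (l 16658408))) (a (c (l 16671048) (l 16663768)) (c (l 16667848) (l 16660920)))))) (a (b (a (c (c (b (l 16689712) (l 16691208)) (b (l 16684320) (l 16685992))) (b (c (l 16678160) (b (l 16671176) (l 16672152))) (c (l 16680096) (l 16673512)))) (b (c (c (l 16687064) (l 16681688)) (c (b (l 16674960) (l 16676296)) (b (l 16668208) (l 16669736)))) (l 14))) (l 14)) (a (b (b (c (c (l 16684576) (l 16679248)) (c (l 16673376) (l 16677456))) (l 14)) (l 14)) (l 14)))) (b (a (c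 (b (c (a (l 16677416) (l 16673256)) (a (l 16670328) (l 16666352))) (b (c (a (l 16676688) (l 16673088)) (a (l 16670544) (l 16667136))) (l 14))) (b (a (c (l 16662840) (l 16654960)) (c (l 16659152) (l 16651664))) (b (a (l 16660632) (l 16668192)) (l 14)))) (b (c (a (c (a (l 16670168) (l 16668136)) (l 16662480)) (c (a (l 16666128) (l 16664136)) (a (l 16659640) (l 16657792)))) (a (c (l 16655608) (l 16648536)) (a (l 16660168) (c (l 16651368) (l 16644864))))) (l 14))) (l 14))) (l 14)), by decide +kernel⟩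

theorem s29_pm_012 : ∃ t, chk3 f_pm_012 t 14 29 1 = true := ex3_a k25_pm_012 k26_pm_012

theorem s30_pm_012 : ∃ t, chk3 f_pm_012 t 14 14 1 = true := ex3_b k24_pm_012 s29_pm_012

theorem s31_pm_012 : ∃ t, chk3 f_pm_012 t 14 7 1 = true := ex3_b s30_pm_012 k27_pm_012

theorem s32_pm_012 : ∃ t, chk3 f_pm_012 t 7 7 1 = true := ex3_a s31_pm_012 k28_pm_012

theorem s33_pm_012 : ∃ t, chk3 f_pm_012 t 15 13 1 = true := ex3_a k22_pm_012 k23_pm_012

theorem s34_pm_012 : ∃ t, chk3 f_pm_012 t 7 13 1 = true := ex3_a k21_pm_012 s33_pm_012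

theorem s35_pm_012 : ∃ t, chk3 f_pm_012 t 7 6 1 = true := ex3_b k20_pm_012 s34_pm_012

theorem s36_pm_012 : ∃ t, chk3 f_pm_012 t 7 3 1 = true := ex3_b s35_pm_012 s32_pm_012

theorem s37_pm_012 : ∃ t, chk3 f_pm_012 t 13 15 1 = true := ex3_a k18_pm_012 k19_pm_012

theorem s38_pm_012 : ∃ t, chk3 f_pm_012 t 13 7 1 = true := ex3_b k17_pm_012 s37_pm_012

theorem s39_pm_012 : ∃ t, chk3 f_pm_012 t 25 15 1 = true := ex3_b k15_pm_012 k16_pm_012

theorem s40_pm_012 : ∃ t, chk3 f_pm_012 t 12 15 1 = true := ex3_a k14_pm_012 s39_pm_012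

theorem s41_pm_012 : ∃ t, chk3 f_pm_012 t 12 7 1 = true := ex3_b k13_pm_012 s40_pm_012

theorem s42_pm_012 : ∃ t, chk3 f_pm_012 t 6 7 1 = true := ex3_a s41_pm_012 s38_pm_012

theorem s43_pm_012 : ∃ t, chk3 f_pm_012 t 6 3 1 = true := ex3_b k12_pm_012 s42_pm_012

theorem s44_pm_012 : ∃ t, chk3 f_pm_012 t 3 3 1 = true := ex3_a s43_pm_012 s36_pm_012

theorem s45_pm_012 : ∃ t, chk3 f_pm_012 t 7 2 1 = true := ex3_b k10_pm_012 k11_pm_012

theorem s46_pm_012 : ∃ t, chk3 f_pm_012 t 3 2 1 = true := ex3_a k9_pm_012 s45_pm_012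

theorem s47_pm_012 : ∃ t, chk3 f_pm_012 t 3 1 1 = true := ex3_b s46_pm_012 s44_pm_012

theorem s48_pm_012 : ∃ t, chk3 f_pm_012 t 11 7 1 = true := ex3_b k7_pm_012 k8_pm_012

theorem s49_pm_012 : ∃ t, chk3 f_pm_012 t 5 7 1 = true := ex3_a k6_pm_012 s48_pm_012

theorem s50_pm_012 : ∃ t, chk3 f_pm_012 t 5 3 1 = true := ex3_b k5_pm_012 s49_pm_012

theorem s51_pm_012 : ∃ t, chk3 f_pm_012 t 5 1 1 = true := ex3_b k4_pm_012 s50_pm_012

theorem s52_pm_012 : ∃ t, chk3 f_pm_012 t 4 7 1 = true := ex3_a k2_pm_012 k3_pm_012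

theorem s53_pm_012 : ∃ t, chk3 f_pm_012 t 4 3 1 = true := ex3_b k1_pm_012 s52_pm_012

theorem s54_pm_012 : ∃ t, chk3 f_pm_012 t 4 1 1 = true := ex3_b k0_pm_012 s53_pm_012

theorem s55_pm_012 : ∃ t, chk3 f_pm_012 t 2 1 1 = true := ex3_a s54_pm_012 s51_pm_012

theorem s56_pm_012 : ∃ t, chk3 f_pm_012 t 1 1 1 = true := ex3_a s55_pm_012 s47_pm_012

theorem c_pm_012 : CertF 0 536870912 0 536870912 201326592 134217728 false true false .pnp 0 1 2
    ndF0q0 ndF0q2 pcF1 cut_pm_012 Ext.none :=
  certF2 (fam := false) (s1 := true) (s2 := false) (a := 0) (b := 1) (c := 2) (cn := .pnp) (n1 := ndF0q0) (n2 := ndF0q2) (pc := pcF1) (cut := cut_pm_012) (xt := Ext.none) (P1 := 0) (W1 := 536870912) (P2 := 0) (W2 := 536870912) (P3 := 201326592) (W3 := 134217728)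
    rfl (fun _ => rfl) s56_pm_012

noncomputable def cut_pm_022 : Cut := Cut.of [[⟨3, 0, 0, 1449551462⟩], [⟨4, 0, 0, 2845415833⟩], [⟨0, 0, 0, 67108864⟩, ⟨1, 1, 0, 67108864⟩, ⟨2, 1, 0, 67108864⟩]]

noncomputable def f_pm_022 : ℕ → ℕ → ℕ → ℕ → Bool := onCell 1073741824 536870912 0 536870912 201326592 134217728
    (rowF 2 false true false .pp 0 2 2 (qsf 0 536870912 0 536870912 2) ndF0q0 ndF0q2 pcF2 cut_pm_022 Ext.none)

def k0_pm_022 : ∃ t, chk3 f_pm_022 t 2 2 1 = true :=
  ⟨(b (a (a (b (c (b (l 16584432) (l 16589968)) (a (l 16560792) (l 16566160))) (c (b (a (l 16550416) (l 16602576)) (a (l 16600520) (l 16567088))) (a (b (l 16572832) (l 16600744)) (b (l 16578864) (l 16583432))))) (a (b (c (l 16578400) (l 16570640)) (c (b (l 16614168) (l 16574392)) (b (l 16606896) (l 16586200)))) (a (b (c (l 16562784) (l 16573632)) (c (b (l 16578856) (l 16580944)) (l 16653896))) (b (c (b (l 16560376) (l 16571224)) (b (l 16569168) (l 16581184))) (c (l 16643856) (l 16591352)))))) (a (b (a (a (c (b (l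 16563512) (l 16595560)) (b (l 16570888) (l 16583120))) (a (c (b (l 16566288) (l 16577528)) (l 16681624)) (c (b (l 16588952) (l 16621144)) (b (l 16573552) (l 16585864))))) (l 1)) (a (b (c (l 16583976) (l 16590472)) (c (l 40835481735) (l 16596880))) (l 1))) (l 1))) (a (a (b (a (c (b (l 16554616) (l 16554232)) (b (l 16572904) (l 16568864))) (c (b (l 16567000) (l 16571352)) (b (l 16580040) (l 16580616)))) (a (c (b (l 16555360) (l 16580120)) (b (l 16567072) (l 16568584))) (c (b (l 16577112) (l 16606352)) (b (l 16583360) (l 16589304))))) (b (c (a (b (l 16580016) (l 16589064)) (b (l 16593688) (l 16628288))) (a (b (l 16588208) (l 16593304)) (b (l 16597440) (l 16606928)))) (a (c (b (l 16599336) (l 16653880)) (b (l 16600456) (l 16610680))) (c (b (c (l 16621720) (l 16621832)) (a (l 16632056) (l 38151218567))) (b (l 16618344) (a (l 16627088) (l 16638280))))))) (a (a (b (c (b (a (l 16604416) (l 70900280391)) (a (l 16621472) (l 103112573111))) (b (l 16607736) (l 61773441783))) (a (b (c (l 60162914823)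 (l 16632288)) (c (l 123513680215) (l 245383306039))) (l 1))) (l 1)) (l 1)))), by decide +kernel⟩

def k1_pm_022 : ∃ t, chk3 f_pm_022 t 2 3 1 = true :=
  ⟨(a (b (a (a (b (c (b (a (l 16558688) (l 16573992)) (c (l 16617392) (l 16621832))) (b (l 16594888) (a (l 16576136) (l 16590712)))) (b (c (a (c (l 16582536) (l 16586424)) (c (l 16602640) (l 16605080))) (a (l 16589640) (l 16606248))) (a (c (b (l 16620832) (c (l 16610776) (l 16613024))) (b (l 16603320) (l 16614512))) (c (c (l 16665792) (l 16648616)) (b (l 16621376) (l 16633496)))))) (b (c (b (a (l 16589312) (l 16604632)) (c (l 16653536) (l 16634136))) (b (l 16598992) (a (l 16605328) (l 16619992)))) (b (c (a (c (l 16622608) (l 16623664)) (c (l 16642488) (l 16642192))) (a (l 16622840) (l 16660392))) (b (c (a (l 16662216) (c (l 16662240) (l 16661056))) (a (l 16639376) (l 16657320))) (a (a (c (l 16649776) (l 16647672)) (l 14)) (l 14)))))) (b (a (c (b (a (l 16619992) (l 16635400)) (a (l 16680456) (c (l 16656576) (l 16654816)))) (b (a (l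 16618056) (l 16630920)) (a (l 16634728) (l 16649512)))) (b (a (c (c (l 16651656) (l 16649736)) (l 16643896)) (c (c (l 109555057047) (l 119218712295)) (l 131029851959))) (a (c (c (b (l 16668328) (l 70363500327)) (b (l 16665552) (l 115460633511))) (b (l 59089139975) (l 133714220919))) (l 1)))) (b (a (a (c (c (l 16683296) (l 16660712)) (b (l 16650016) (l 16661936))) (c (a (c (l 16677192) (l 16674600)) (b (l 47814895287) (c (l 120829371495) (l 128882423175)))) (b (l 45130513879) (a (l 16674720) (l 197064991191))))) (a (a (b (c (l 138546089847) (l 212097366871)) (l 1)) (l 1)) (l 1))) (l 14)))) (a (b (a (b (a (b (b (c (l 16643040) (l 16623896)) (l 14)) (l 14)) (l 14)) (l 14)) (l 14)) (l 14)) (l 14))) (b (l 1) (l 1))), by decide +kernel⟩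

def k2_pm_022 : ∃ t, chk3 f_pm_022 t 3 1 1 = true :=
  ⟨(l 1), by decide +kernel⟩

theorem s3_pm_022 : ∃ t, chk3 f_pm_022 t 2 1 1 = true := ex3_b k0_pm_022 k1_pm_022

theorem s4_pm_022 : ∃ t, chk3 f_pm_022 t 1 1 1 = true := ex3_a s3_pm_022 k2_pm_022

theorem c_pm_022 : CertF 0 536870912 0 536870912 201326592 134217728 false true false .pp 0 2 2
    ndF0q0 ndF0q2 pcF2 cut_pm_022 Ext.none :=
  certF2 (fam := false) (s1 := true) (s2 := false) (a := 0) (b := 2) (c := 2) (cn := .pp) (n1 := ndF0q0) (n2 := ndF0q2) (pc := pcF2) (cut := cut_pm_022) (xt := Ext.none) (P1 := 0) (W1 := 536870912) (P2 := 0) (W2 := 536870912) (P3 := 201326592) (W3 := 134217728)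
    rfl (fun _ => rfl) s4_pm_022

noncomputable def cut_pm_101 : Cut := Cut.of [[⟨3, 0, 0, 1449551462⟩], [⟨4, 0, 0, 2845415833⟩], [⟨0, 1, 0, 53687091⟩, ⟨1, 0, 0, 53687091⟩, ⟨2, 1, 0, 53687091⟩]]

noncomputable def f_pm_101 : ℕ → ℕ → ℕ → ℕ → Bool := onCell 536870912 536870912 536870912 536870912 201326592 134217728
    (rowF 0 false true false .npn 1 0 1 (qsf 536870912 536870912 536870912 536870912 0) ndF0q1 ndF0q1 pcF0 cut_pm_101 Ext.none)

def k0_pm_101 : ∃ t, chk3 f_pm_101 t 2 2 1 = true :=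
  ⟨(a (b (l 14) (b (l 14) (a (l 14) (a (a (l 14) (b (l 14) (c (l 17082960) (b (l 14) (l 17034336))))) (a (b (l 14) (c (l 17103944) (l 17041320))) (c (b (l 17072640) (l 17124536)) (b (l 17016672) (l 17058264)))))))) (b (a (l 14) (l 1)) (a (a (b (a (l 14) (b (l 14) (c (l 17065640) (l 17011576)))) (c (b (l 17105992) (l 17154888)) (b (a (l 17034656) (l 17052264)) (l 17082816)))) (b (c (b (a (l 14) (l 1)) (l 17103416)) (b (b (l 1) (l 17013760)) (a (l 17030984) (l 17051000)))) (c (b (l 17151024) (l 17195920)) (b (l 17078768) (l 17114688))))) (a (b (b (l 1) (c (l 17157008) (l 17103384))) (b (c (l 17198688) (l 17114384)) (c (l 17238688) (l 17145848)))) (b (l 1) (c (b (l 17247160) (l 17280744)) (b (l 29025426087) (l 17175264)))))))), by decide +kernel⟩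

def k1_pm_101 : ∃ t, chk3 f_pm_101 t 4 6 1 = true :=
  ⟨(b (a (c (b (a (l 14) (a (l 14) (l 17093312))) (a (c (b (l 17098104) (l 17124200)) (b (l 17070968) (l 17096808))) (c (l 17145344) (l 17116264)))) (b (a (l 14) (a (l 14) (b (l 14) (l 17041840)))) (a (a (a (l 14) (b (l 14) (l 17043056))) (b (l 17031360) (l 17053696))) (c (b (l 17072192) (l 17093248)) (b (l 17035976) (l 17054968)))))) (c (b (a (c (l 17137176) (l 17106536)) (l 17159480)) (a (c (l 17178768) (l 17147600)) (l 17195616))) (b (a (b (l 17035768) (l 17065752)) (c (l 17106376) (l 17068496))) (a (c (l 17112400) (l 17073368)) (c (l 17140808) (l 17099904)))))) (a (b (c (a (b (l 17136048) (l 17180728)) (c (l 17184192) (l 17157352))) (a (c (b (l 17088592) (l 17112792)) (b (l 17049416) (l 17071672))) (c (l 17123328) (b (l 17073480) (l 17091672))))) (b (c (a (c (l 17191784) (l 17170120)) (c (l 17205736) (l 17184192))) (a (c (l 17137544) (l 17095016)) (a (l 17128176) (l 17136328)))) (c (c (a (l 17210456) (l 17217680)) (a (l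 17215056) (l 17200344))) (b (a (a (l 17134816) (l 17139288)) (a (l 17143744) (l 17149672))) (a (c (l 17169960) (l 17211312)) (l 17157776)))))) (c (b (a (l 17196240) (b (l 17216128) (l 17225272))) (a (b (l 17213288) (l 17220504)) (c (l 17244688) (l 17221440)))) (b (a (c (l 17146272) (l 17105000)) (b (l 17142280) (a (l 17149632) (l 17159760)))) (b (a (a (l 17144368) (l 17152768)) (a (l 17161368) (l 17169648))) (a (l 17163112) (l 17174584))))))), by decide +kernel⟩

def k2_pm_101 : ∃ t, chk3 f_pm_101 t 4 7 1 = true :=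
  ⟨(b (a (a (c (b (c (l 17252512) (l 17270744)) (c (b (l 17334032) (l 17395296)) (b (l 17283040) (l 17337352)))) (b (c (b (l 17192904) (l 17223664)) (b (l 17154000) (c (l 17201400) (l 17202784)))) (a (b (l 17251808) (l 17318176)) (b (l 17239936) (l 17264904))))) (c (b (l 17415136) (c (l 17316424) (l 17312048))) (b (b (l 17216976) (c (l 17212192) (l 17182592))) (b (a (l 17228824) (l 17219424)) (l 17372760))))) (a (c (b (l 17371936) (l 17394344)) (b (c (b (l 17194024) (l 17205832)) (l 17252264)) (c (l 17241432) (b (l 17196544) (l 17215824))))) (c (b (l 17479256) (l 17287528)) (c (b (l 17201088) (l 17204856)) (b (l 17170120) (b (l 17185424) (l 17194808))))))) (b (a (c (a (b (c (l 17462192) (l 17388096)) (c (b (l 17516192) (l 17554088)) (b (l 17434600) (a (l 17480560) (l 17455792))))) (b (c (l 17409856) (l 17344984)) (b (l 17423888) (c (l 17494608) (l 17417016))))) (a (b (c (l 17328328) (b (l 17340000) (l 17291992))) (b (a (l 17344048) (l 17327664)) (c (a (l 17403448) (l 17382944))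 (a (l 17359112) (l 17321960))))) (b (b (l 17266784) (a (l 17291280) (l 17275608))) (b (l 17302664) (a (l 17332048) (l 17312768)))))) (b (a (c (c (l 17356840) (l 17300976)) (c (l 17259112) (l 17232640))) (c (l 17277808) (l 17231936))) (a (c (b (l 17373288) (l 17397848)) (c (c (l 17417784) (l 17518944)) (b (l 17250408) (l 17261896)))) (c (c (l 17363008) (l 17388448)) (b (l 17233504) (a (l 17253960) (l 17234432))))))) (a (a (c (b (c (l 17571784) (l 17485408)) (l 17538608)) (c (b (l 17409032) (l 17421760)) (b (l 17343048) (l 17354408)))) (c (b (l 17469992) (l 17482848)) (c (l 17371152) (l 17312504)))) (c (a (l 17420904) (l 17365720)) (a (c (l 17326944) (l 17276008)) (c (l 17282952) (l 17239256))))))), by decide +kernel⟩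

def k3_pm_101 : ∃ t, chk3 f_pm_101 t 5 3 1 = true :=
  ⟨(b (b (a (c (b (a (l 17195600) (l 17232488)) (a (l 17226992) (l 17259536))) (a (b (l 17117232) (l 17146680)) (b (l 17145712) (l 17171632)))) (b (a (c (l 17271160) (l 17173344)) (c (l 17308152) (l 17197952))) (c (a (l 17294104) (l 17325512)) (a (l 17195696) (c (l 17242904) (l 17189056)))))) (a (b (c (a (b (l 17243536) (l 17249840)) (b (l 17271320) (l 17276048))) (a (b (l 17165056) (l 17174800)) (b (l 17186560) (l 17194384)))) (c (a (l 17248968) (l 17267024)) (a (c (l 17202896) (l 17163152)) (l 17197256)))) (a (b (c (b (l 17302720) (l 17301160)) (b (l 17207792) (l 17211616))) (c (l 17287936) (l 17210552))) (c (b (l 17331944) (l 17308784)) (b (c (l 17254120) (l 17222432)) (l 17222128)))))) (b (a (c (b (a (l 17421320) (l 17240920)) (c (l 17274784) (l 17321056))) (b (a (c (l 17203704) (l 17172912)) (l 17193296)) (b (a (l 17188512) (l 17183200)) (b (l 17432080) (l 17301536))))) (a (b (c (l 17253336) (l 17198528)) (c (l 17299976)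 (c (l 17286072) (l 17162192)))) (b (c (l 17267016) (l 17203536)) (c (l 17367928) (b (l 17179040) (l 17156992)))))) (b (a (c (b (l 17388816) (a (b (l 17271056) (l 17286816)) (l 17217416))) (b (l 17418232) (a (l 17240808) (l 17157040)))) (b (c (l 17235824) (c (l 17137488) (l 17215760))) (c (l 17269680) (l 17319544)))) (a (a (c (l 17311104) (b (l 17213384) (l 17225256))) (c (l 17255032) (b (l 17171456) (l 17183784)))) (c (c (l 17184056) (l 17149904)) (c (l 17185528) (l 17228248))))))), by decide +kernel⟩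

def k4_pm_101 : ∃ t, chk3 f_pm_101 t 3 2 1 = true :=
  ⟨(a (b (l 1) (a (a (b (l 1) (b (l 1) (c (l 17319520) (l 29025502967)))) (l 1)) (l 1))) (l 1)), by decide +kernel⟩

def k5_pm_101 : ∃ t, chk3 f_pm_101 t 6 3 1 = true :=
  ⟨(b (b (a (a (b (c (l 17340280) (l 17218312)) (c (l 17372328) (b (l 17228528) (l 17254848)))) (c (b (l 17368976) (l 17415560)) (b (l 37078628967) (b (l 17240720) (a (l 17241512) (l 17245576)))))) (a (a (b (l 1) (b (l 1) (c (l 17389120) (l 17249080)))) (l 1)) (l 1))) (b (a (c (a (l 17351856) (l 17367816)) (c (a (l 17266328) (l 17274704)) (a (l 17210632) (l 17215944)))) (c (l 38689757239) (c (l 59090703735) (a (l 55869127015) (l 57479742135))))) (a (c (l 17333824) (a (l 17229960) (l 17234136))) (c (l 17396152) (c (l 71975576279) (a (l 17207432) (l 73048986199))))))) (b (a (b (c (l 17346736) (a (l 17206232) (l 17206440))) (c (c (l 17320032) (l 17302056)) (b (l 17196352) (l 17378144)))) (b (c (l 17358984) (a (l 17204016) (c (l 17222688) (l 17174976)))) (a (c (l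 17207640) (l 17151944)) (c (l 17207472) (l 17143400))))) (c (b (a (c (l 17247656) (l 17292168)) (b (l 17326888) (l 17060552))) (a (l 17158608) (l 17195056))) (b (b (b (a (l 17206312) (l 17164384)) (a (l 17312216) (c (l 17129000) (l 17197296)))) (a (l 17331504) (a (l 17055000) (l 17039512)))) (a (l 17254552) (c (l 17078928) (l 17165312))))))), by decide +kernel⟩

def k6_pm_101 : ∃ t, chk3 f_pm_101 t 7 3 1 = true :=
  ⟨(b (a (b (l 1) (a (a (b (l 1) (c (l 17360272) (l 84323248775))) (l 1)) (l 1))) (l 1)) (b (a (a (b (c (l 17299208) (c (l 17217664) (l 98818754679))) (c (l 17206728) (b (l 17149808) (l 17114384)))) (b (c (l 134789307047) (c (l 129420549623) (l 124588592647))) (c (c (l 17228928) (l 17186264)) (c (l 102576825143) (b (l 17117504) (l 17084712)))))) (b (l 1) (b (l 1) (a (c (l 182570568135) (c (l 177201758135) (l 170759169111))) (l 1))))) (a (a (b (b (c (l 17111680) (b (l 17082864) (l 17060816))) (c (l 17047960) (l 17023280))) (b (l 17141768) (l 17009256))) (b (b (c (l 17171080)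 (b (l 17069976) (a (l 17050456) (l 17043424)))) (c (l 17039568) (l 17006368))) (a (b (l 17064872) (l 6)) (l 6)))) (b (a (a (b (b (c (l 17124192) (l 17060224)) (l 6)) (l 6)) (l 6)) (l 6)) (l 6))))), by decide +kernel⟩

theorem s7_pm_101 : ∃ t, chk3 f_pm_101 t 3 3 1 = true := ex3_a k5_pm_101 k6_pm_101

theorem s8_pm_101 : ∃ t, chk3 f_pm_101 t 3 1 1 = true := ex3_b k4_pm_101 s7_pm_101

theorem s9_pm_101 : ∃ t, chk3 f_pm_101 t 4 3 1 = true := ex3_b k1_pm_101 k2_pm_101

theorem s10_pm_101 : ∃ t, chk3 f_pm_101 t 2 3 1 = true := ex3_a s9_pm_101 k3_pm_101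

theorem s11_pm_101 : ∃ t, chk3 f_pm_101 t 2 1 1 = true := ex3_b k0_pm_101 s10_pm_101

theorem s12_pm_101 : ∃ t, chk3 f_pm_101 t 1 1 1 = true := ex3_a s11_pm_101 s8_pm_101

theorem c_pm_101 : CertF 536870912 536870912 536870912 536870912 201326592 134217728 false true false .npn 1 0 1
    ndF0q1 ndF0q1 pcF0 cut_pm_101 Ext.none :=
  certF0 (fam := false) (s1 := true) (s2 := false) (a := 1) (b := 0) (c := 1) (cn := .npn) (n1 := ndF0q1) (n2 := ndF0q1) (pc := pcF0) (cut := cut_pm_101) (xt := Ext.none) (P1 := 536870912) (W1 := 536870912) (P2 := 536870912) (W2 := 536870912) (P3 := 201326592) (W3 := 134217728)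
    rfl s12_pm_101

noncomputable def cut_pm_102 : Cut := Cut.of [[⟨3, 0, 0, 1449551462⟩], [⟨4, 0, 0, 2845415833⟩], [⟨0, 1, 0, 67108864⟩, ⟨1, 0, 0, 67108864⟩, ⟨2, 1, 0, 67108864⟩]]

noncomputable def f_pm_102 : ℕ → ℕ → ℕ → ℕ → Bool := onCell 0 536870912 0 536870912 201326592 134217728
    (rowF 2 false true false .npp 1 0 2 (qsf 536870912 536870912 0 536870912 0) ndF0q1 ndF0q2 pcF0 cut_pm_102 Ext.none)

def k0_pm_102 : ∃ t, chk3 f_pm_102 t 2 1 1 = true :=
  ⟨(b (l 6) (a (b (l 3) (b (l 6) (b (l 6) (a (l 6) (l 6))))) (b (l 6) (b (a (l 6) (b (l 6) (a (l 6) (c (b (l 17020864) (l 16975256)) (l 16908736))))) (a (a (b (l 6) (b (l 16893512) (b (l 17089008) (l 16962040)))) (b (c (l 16850584) (l 16890616)) (b (l 16960840) (c (l 17024352) (l 16987600))))) (b (a (a (l 16936240) (l 16917544)) (c (l 17037408) (l 16996288))) (c (a (l 17163208) (l 17192392)) (b (a (l 17007232) (l 17049104)) (a (l 17025632) (l 17063664)))))))))), by decide +kernel⟩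

def k1_pm_102 : ∃ t, chk3 f_pm_102 t 3 2 1 = true :=
  ⟨(a (l 6) (b (l 6) (a (l 6) (b (l 6) (a (l 6) (b (l 6) (b (l 6) (c (l 17020112) (l 16972824))))))))), by decide +kernel⟩

def k2_pm_102 : ∃ t, chk3 f_pm_102 t 6 3 1 = true :=
  ⟨(b (b (l 6) (b (a (l 6) (a (l 6) (b (l 6) (a (l 16950960) (l 16975344))))) (a (a (l 6) (l 6)) (a (c (b (l 16958600) (l 16989792)) (a (l 16932528) (l 16953288))) (c (b (l 17013416) (l 17046248)) (b (l 16972512) (l 16999328))))))) (b (a (b (b (a (l 6) (a (l 16942600) (l 16965384))) (a (a (l 6) (l 16949632)) (c (l 17004440) (l 16968672)))) (a (c (l 16945032) (b (l 16956248) (l 16988200))) (c (l 17062624) (l 17015584)))) (c (b (a (b (l 17023424) (l 17061216)) (l 17101464)) (a (l 17120664) (l 17180528))) (a (b (b (l 16982896) (l 17012936)) (l 17060568)) (b (l 17043376) (l 17106568))))) (a (a (b (c (l 17090984) (l 17039536)) (c (l 17160648) (c (l 17133232) (l 17231744)))) (b (c (l 17147784) (l 17084040)) (c (l 17215512) (c (l 17157640) (l 17208688))))) (a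 (b (c (l 17206256) (l 17129232)) (c (l 17271112) (b (l 17178152) (l 17186680)))) (b (c (l 17265168) (l 17174672)) (c (l 17323512) (c (l 17246744) (l 17202520)))))))), by decide +kernel⟩

def k3_pm_102 : ∃ t, chk3 f_pm_102 t 7 6 1 = true :=
  ⟨(a (b (b (l 6) (a (a (l 6) (c (l 16975272) (l 16939088))) (c (a (l 17003288) (l 17031480)) (a (l 16960856) (l 16982920))))) (c (b (a (a (l 17008424) (l 17038296)) (b (a (l 17050552) (l 17080320)) (a (l 17083392) (l 17112160)))) (a (b (a (l 17057168) (l 17086960)) (l 17106736)) (b (l 17130744) (l 17164512)))) (b (a (a (l 16966880) (l 16989744)) (b (a (l 16998944) (l 17022056)) (a (l 17025448) (l 17048040)))) (a (b (l 17017632) (l 17045616)) (b (l 17063376) (l 17090808)))))) (b (a (b (c (a (l 16997912) (l 17025184)) (a (l 16955544) (l 16977120))) (c (a (l 17059968) (l 17109728)) (a (l 17005312) (b (l 17014704) (l 17041144))))) (b (c (a (l 17052584) (l 17080640)) (a (l 16998896) (l 17021168))) (c (c (b (l 17133432) (a (l 17153320) (l 17182840)))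 (b (l 17097920) (a (l 17115816) (l 17142552)))) (b (a (l 17037368) (l 17060552)) (a (b (l 17057384) (l 17070648)) (b (c (l 17098488) (l 17063640)) (l 17093216))))))) (a (b (c (b (a (l 17109088) (b (l 17129536) (l 17145192))) (l 17112624)) (b (a (l 17044760) (b (l 17060856) (l 17073584))) (l 17039592))) (c (l 17203560) (c (l 17140784) (l 17102936)))) (c (b (b (c (l 17200328) (l 17158400)) (l 17209992)) (l 17258888)) (b (b (c (l 17119104) (l 17082488)) (l 17125760)) (c (l 17187736) (l 17144256))))))), by decide +kernel⟩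

def k4_pm_102 : ∃ t, chk3 f_pm_102 t 7 7 1 = true :=
  ⟨(b (a (a (c (b (l 17161144) (l 17237952)) (b (l 17089392) (l 17151400))) (c (b (l 17217856) (l 17293544)) (b (l 17134032) (l 17195328)))) (a (c (b (l 17272872) (l 17347992)) (b (l 17177824) (l 17238600))) (c (l 17365744) (b (l 17221928) (l 17282240))))) (a (b (c (a (l 17320536) (l 17373528)) (a (l 17218152) (l 17260080))) (a (c (l 17374416) (a (l 17253672) (l 17272888))) (c (l 17423888) (l 17301856)))) (c (b (a (b (l 17408008) (l 17447736)) (b (l 17462808) (a (l 17529960) (b (l 17528488) (c (l 17561456) (l 17484520)))))) (a (l 17475416) (a (l 17514776) (b (l 17533320) (l 17549136))))) (b (c (a (l 17331688) (b (l 17361768) (a (l 17383216) (l 17405432)))) (a (l 17315640) (b (l 17299520) (l 17412064)))) (c (a (l 17372560) (l 17436456)) (a (l 17311600) (c (l 17364464) (l 17332392)))))))), by decide +kernel⟩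

theorem s5_pm_102 : ∃ t, chk3 f_pm_102 t 7 3 1 = true := ex3_b k3_pm_102 k4_pm_102

theorem s6_pm_102 : ∃ t, chk3 f_pm_102 t 3 3 1 = true := ex3_a k2_pm_102 s5_pm_102

theorem s7_pm_102 : ∃ t, chk3 f_pm_102 t 3 1 1 = true := ex3_b k1_pm_102 s6_pm_102

theorem s8_pm_102 : ∃ t, chk3 f_pm_102 t 1 1 1 = true := ex3_a k0_pm_102 s7_pm_102

theorem c_pm_102 : CertF 536870912 536870912 0 536870912 201326592 134217728 false true false .npp 1 0 2
    ndF0q1 ndF0q2 pcF0 cut_pm_102 Ext.none :=
  certF2 (fam := false) (s1 := true) (s2 := false) (a := 1) (b := 0) (c := 2) (cn := .npp) (n1 := ndF0q1) (n2 := ndF0q2) (pc := pcF0) (cut := cut_pm_102) (xt := Ext.none) (P1 := 536870912) (W1 := 536870912) (P2 := 0) (W2 := 536870912) (P3 := 201326592) (W3 := 134217728)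
    rfl (fun _ => rfl) s8_pm_102

noncomputable def cut_pm_112 : Cut := Cut.of [[⟨3, 0, 0, 1449551462⟩], [⟨4, 0, 0, 2845415833⟩]]

noncomputable def f_pm_112 : ℕ → ℕ → ℕ → ℕ → Bool := onCell 536870912 536870912 0 536870912 201326592 134217728
    (rowF 0 false true false .dn 1 1 2 (qsf 536870912 536870912 0 536870912 1) ndF0q1 ndF0q2 pcF1 cut_pm_112 Ext.none)

def k0_pm_112 : ∃ t, chk3 f_pm_112 t 2 2 1 = true :=
  ⟨(a (b (a (a (b (l 6) (b (l 6) (c (l 16993752) (l 16918808)))) (l 6)) (l 6)) (a (b (a (c (b (l 17033272) (l 17072304)) (b (l 16945368) (l 16971664))) (c (b (l 17012480) (l 17055592)) (b (l 16932576) (l 16961120)))) (a (c (b (l 17109512) (l 17188720)) (b (l 16996888) (l 17042520))) (c (b (l 17097088) (l 17137816)) (b (l 16988680) (l 17015760))))) (b (a (a (b (l 6) (b (l 6) (l 17047240))) (l 6)) (l 6)) (a (c (b (l 17083008) (l 17129280)) (b (l 16980432) (l 17011064))) (c (b (a (l 17070032) (l 6)) (a (l 17121064) (l 17114064))) (b (a (l 16973168) (l 6)) (a (l 17007120) (l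 17003744)))))))) (a (b (l 6) (b (l 6) (b (l 6) (b (l 6) (l 1))))) (l 1))), by decide +kernel⟩

def k1_pm_112 : ∃ t, chk3 f_pm_112 t 2 3 1 = true :=
  ⟨(a (b (b (a (a (c (b (a (l 17188144) (l 17183440)) (l 17230776)) (b (l 17108680) (l 17069792))) (b (c (a (l 17222704) (l 17256728)) (b (l 17036064) (l 17049704))) (c (l 17227288) (l 17071512)))) (a (c (b (a (l 17198928) (l 17175136)) (b (a (l 17212208) (c (l 17251800) (l 17174552))) (l 17239008))) (b (a (l 17042336) (l 17041640)) (b (a (l 17064568) (l 17065888)) (l 17081832)))) (a (c (b (l 17193888) (b (c (l 17252440) (l 17175952)) (c (l 17280464) (l 17199432)))) (b (l 17041384) (b (l 17067832) (l 17084744)))) (b (c (l 26878026439) (l 17040728)) (l 1))))) (b (a (c (a (l 17273536) (l 17275096)) (a (l 17092752) (l 17099552))) (c (a (c (l 17323680) (l 17233584)) (c (l 52647984247) (l 17260672))) (a (l 17106232) (l 26877965207)))) (a (c (a (l 17314072) (l 17320824)) (a (l 17114288) (l 17126064))) (a (c (l 17328608) (l 17137400)) (l 1)))))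 (b (b (a (c (a (l 17351832) (l 17364008)) (a (l 17133936) (l 17150648))) (a (c (l 17376784) (l 17166656)) (l 1))) (a (c (a (l 17386728) (l 17404584)) (a (c (l 17208048) (l 17096496)) (c (l 17229016) (l 17118688)))) (l 1))) (a (c (a (b (c (l 17485128) (b (l 17346840) (l 17359096))) (c (b (l 17502408) (l 17511720)) (b (l 17368144) (c (l 17410064) (l 21509562743))))) (b (c (l 17508480) (l 17378336)) (l 1))) (b (b (a (c (l 17222952) (l 17105344)) (l 39762694615)) (a (c (a (l 17224888) (l 17238944)) (a (l 17104048) (l 17118200))) (l 1))) (a (a (c (b (l 17233168) (c (l 17273080) (l 22582990039))) (a (b (l 17108560) (b (l 17115368) (c (l 17149528) (l 17091152)))) (b (l 17115720) (l 101502774711)))) (c (l 117072336039) (b (l 93986605911) (l 1)))) (l 1)))) (l 1)))) (b (l 1) (l 1))), by decide +kernel⟩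

def k2_pm_112 : ∃ t, chk3 f_pm_112 t 3 1 1 = true :=
  ⟨(l 1), by decide +kernel⟩

theorem s3_pm_112 : ∃ t, chk3 f_pm_112 t 2 1 1 = true := ex3_b k0_pm_112 k1_pm_112

theorem s4_pm_112 : ∃ t, chk3 f_pm_112 t 1 1 1 = true := ex3_a s3_pm_112 k2_pm_112

theorem c_pm_112 : CertF 536870912 536870912 0 536870912 201326592 134217728 false true false .dn 1 1 2
    ndF0q1 ndF0q2 pcF1 cut_pm_112 Ext.none :=
  certF0 (fam := false) (s1 := true) (s2 := false) (a := 1) (b := 1) (c := 2) (cn := .dn) (n1 := ndF0q1) (n2 := ndF0q2) (pc := pcF1) (cut := cut_pm_112) (xt := Ext.none) (P1 := 536870912) (W1 := 536870912) (P2 := 0) (W2 := 536870912) (P3 := 201326592) (W3 := 134217728)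
    rfl s4_pm_112

noncomputable def cut_pm_202 : Cut := Cut.of [[⟨3, 0, 0, 1449551462⟩], [⟨4, 0, 0, 2845415833⟩], [⟨0, 1, 0, 67108864⟩, ⟨1, 0, 0, 67108864⟩, ⟨2, 1, 0, 67108864⟩]]

noncomputable def f_pm_202 : ℕ → ℕ → ℕ → ℕ → Bool := onCell 0 536870912 0 536870912 201326592 134217728
    (rowF 0 false true false .pp 2 0 2 (qsf 0 536870912 0 536870912 0) ndF0q2 ndF0q2 pcF0 cut_pm_202 Ext.none)

def k0_pm_202 : ∃ t, chk3 f_pm_202 t 1 1 1 = true :=
  ⟨(l 6), by decide +kernel⟩

theorem c_pm_202 : CertF 0 536870912 0 536870912 201326592 134217728 false true false .pp 2 0 2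
    ndF0q2 ndF0q2 pcF0 cut_pm_202 Ext.none :=
  certF0 (fam := false) (s1 := true) (s2 := false) (a := 2) (b := 0) (c := 2) (cn := .pp) (n1 := ndF0q2) (n2 := ndF0q2) (pc := pcF0) (cut := cut_pm_202) (xt := Ext.none) (P1 := 0) (W1 := 536870912) (P2 := 0) (W2 := 536870912) (P3 := 201326592) (W3 := 134217728)
    rfl k0_pm_202

noncomputable def cut_mm_001 : Cut := Cut.of [[⟨3, 0, 0, 1449551462⟩], [⟨4, 0, 0, 2845415833⟩]]

noncomputable def f_mm_001 : ℕ → ℕ → ℕ → ℕ → Bool := onCell 0 536870912 536870912 536870912 201326592 134217728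
    (rowF 0 false false false .up 0 0 1 (qsf 0 536870912 536870912 536870912 0) ndF0q0 ndF0q1 pcF0 cut_mm_001 Ext.none)

def k0_mm_001 : ∃ t, chk3 f_mm_001 t 1 1 1 = true :=
  ⟨(l 6), by decide +kernel⟩

theorem c_mm_001 : CertF 0 536870912 536870912 536870912 201326592 134217728 false false false .up 0 0 1
    ndF0q0 ndF0q1 pcF0 cut_mm_001 Ext.none :=
  certF0 (fam := false) (s1 := false) (s2 := false) (a := 0) (b := 0) (c := 1) (cn := .up) (n1 := ndF0q0) (n2 := ndF0q1) (pc := pcF0) (cut := cut_mm_001) (xt := Ext.none) (P1 := 0) (W1 := 536870912) (P2 := 536870912) (W2 := 536870912) (P3 := 201326592) (W3 := 134217728)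
    rfl k0_mm_001

noncomputable def cut_mm_011 : Cut := Cut.of [[⟨3, 0, 0, 1449551462⟩], [⟨4, 0, 0, 2845415833⟩]]

noncomputable def f_mm_011 : ℕ → ℕ → ℕ → ℕ → Bool := onCell 0 536870912 536870912 536870912 201326592 134217728
    (rowF 0 false false false .pnn 0 1 1 (qsf 0 536870912 536870912 536870912 1) ndF0q0 ndF0q1 pcF1 cut_mm_011 Ext.none)

def k0_mm_011 : ∃ t, chk3 f_mm_011 t 1 1 1 = true :=
  ⟨(l 6), by decide +kernel⟩

theorem c_mm_011 : CertF 0 536870912 536870912 536870912 201326592 134217728 false false false .pnn 0 1 1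
    ndF0q0 ndF0q1 pcF1 cut_mm_011 Ext.none :=
  certF0 (fam := false) (s1 := false) (s2 := false) (a := 0) (b := 1) (c := 1) (cn := .pnn) (n1 := ndF0q0) (n2 := ndF0q1) (pc := pcF1) (cut := cut_mm_011) (xt := Ext.none) (P1 := 0) (W1 := 536870912) (P2 := 536870912) (W2 := 536870912) (P3 := 201326592) (W3 := 134217728)
    rfl k0_mm_011

noncomputable def cut_mm_012 : Cut := Cut.of [[⟨3, 0, 0, 1449551462⟩], [⟨4, 0, 0, 2845415833⟩]]

noncomputable def f_mm_012 : ℕ → ℕ → ℕ → ℕ → Bool := onCell 0 536870912 0 536870912 201326592 134217728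
    (rowF 0 false false false .pnp 0 1 2 (qsf 0 536870912 0 536870912 1) ndF0q0 ndF0q2 pcF1 cut_mm_012 Ext.none)

def k0_mm_012 : ∃ t, chk3 f_mm_012 t 1 1 1 = true :=
  ⟨(l 5), by decide +kernel⟩

theorem c_mm_012 : CertF 0 536870912 0 536870912 201326592 134217728 false false false .pnp 0 1 2
    ndF0q0 ndF0q2 pcF1 cut_mm_012 Ext.none :=
  certF0 (fam := false) (s1 := false) (s2 := false) (a := 0) (b := 1) (c := 2) (cn := .pnp) (n1 := ndF0q0) (n2 := ndF0q2) (pc := pcF1) (cut := cut_mm_012) (xt := Ext.none) (P1 := 0) (W1 := 536870912) (P2 := 0) (W2 := 536870912) (P3 := 201326592) (W3 := 134217728)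
    rfl k0_mm_012

noncomputable def cut_mm_022 : Cut := Cut.of [[⟨3, 0, 0, 1449551462⟩], [⟨4, 0, 0, 2845415833⟩]]

noncomputable def f_mm_022 : ℕ → ℕ → ℕ → ℕ → Bool := onCell 0 536870912 0 536870912 201326592 134217728
    (rowF 0 false false false .pp 0 2 2 (qsf 0 536870912 0 536870912 2) ndF0q0 ndF0q2 pcF2 cut_mm_022 Ext.none)

def k0_mm_022 : ∃ t, chk3 f_mm_022 t 1 1 1 = true :=
  ⟨(l 5), by decide +kernel⟩

theorem c_mm_022 : CertF 0 536870912 0 536870912 201326592 134217728 false false false .pp 0 2 2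
    ndF0q0 ndF0q2 pcF2 cut_mm_022 Ext.none :=
  certF0 (fam := false) (s1 := false) (s2 := false) (a := 0) (b := 2) (c := 2) (cn := .pp) (n1 := ndF0q0) (n2 := ndF0q2) (pc := pcF2) (cut := cut_mm_022) (xt := Ext.none) (P1 := 0) (W1 := 536870912) (P2 := 0) (W2 := 536870912) (P3 := 201326592) (W3 := 134217728)
    rfl k0_mm_022

noncomputable def cut_mm_101 : Cut := Cut.of [[⟨3, 0, 0, 1449551462⟩], [⟨4, 0, 0, 2845415833⟩]]

noncomputable def f_mm_101 : ℕ → ℕ → ℕ → ℕ → Bool := onCell 536870912 536870912 536870912 536870912 201326592 134217728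
    (rowF 0 false false false .npn 1 0 1 (qsf 536870912 536870912 536870912 536870912 0) ndF0q1 ndF0q1 pcF0 cut_mm_101 Ext.none)

def k0_mm_101 : ∃ t, chk3 f_mm_101 t 1 1 1 = true :=
  ⟨(l 3), by decide +kernel⟩

theorem c_mm_101 : CertF 536870912 536870912 536870912 536870912 201326592 134217728 false false false .npn 1 0 1
    ndF0q1 ndF0q1 pcF0 cut_mm_101 Ext.none :=
  certF0 (fam := false) (s1 := false) (s2 := false) (a := 1) (b := 0) (c := 1) (cn := .npn) (n1 := ndF0q1) (n2 := ndF0q1) (pc := pcF0) (cut := cut_mm_101) (xt := Ext.none) (P1 := 536870912) (W1 := 536870912) (P2 := 536870912) (W2 := 536870912) (P3 := 201326592) (W3 := 134217728)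
    rfl k0_mm_101

noncomputable def cut_mm_102 : Cut := Cut.of [[⟨3, 0, 0, 1449551462⟩], [⟨4, 0, 0, 2845415833⟩]]

noncomputable def f_mm_102 : ℕ → ℕ → ℕ → ℕ → Bool := onCell 536870912 536870912 0 536870912 201326592 134217728
    (rowF 0 false false false .npp 1 0 2 (qsf 536870912 536870912 0 536870912 0) ndF0q1 ndF0q2 pcF0 cut_mm_102 Ext.none)

def k0_mm_102 : ∃ t, chk3 f_mm_102 t 1 1 1 = true :=
  ⟨(a (l 5) (l 3)), by decide +kernel⟩

theorem c_mm_102 : CertF 536870912 536870912 0 536870912 201326592 134217728 false false false .npp 1 0 2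
    ndF0q1 ndF0q2 pcF0 cut_mm_102 Ext.none :=
  certF0 (fam := false) (s1 := false) (s2 := false) (a := 1) (b := 0) (c := 2) (cn := .npp) (n1 := ndF0q1) (n2 := ndF0q2) (pc := pcF0) (cut := cut_mm_102) (xt := Ext.none) (P1 := 536870912) (W1 := 536870912) (P2 := 0) (W2 := 536870912) (P3 := 201326592) (W3 := 134217728)
    rfl k0_mm_102

noncomputable def cut_mm_112 : Cut := Cut.of [[⟨3, 0, 0, 1449551462⟩], [⟨4, 0, 0, 2845415833⟩]]

noncomputable def f_mm_112 : ℕ → ℕ → ℕ → ℕ → Bool := onCell 536870912 536870912 0 536870912 201326592 134217728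
    (rowF 2 false false false .dn 1 1 2 (qsf 536870912 536870912 0 536870912 1) ndF0q1 ndF0q2 pcF1 cut_mm_112 Ext.none)

def k0_mm_112 : ∃ t, chk3 f_mm_112 t 1 1 1 = true :=
  ⟨(l 5), by decide +kernel⟩

theorem c_mm_112 : CertF 536870912 536870912 0 536870912 201326592 134217728 false false false .dn 1 1 2
    ndF0q1 ndF0q2 pcF1 cut_mm_112 Ext.none :=
  certF2 (fam := false) (s1 := false) (s2 := false) (a := 1) (b := 1) (c := 2) (cn := .dn) (n1 := ndF0q1) (n2 := ndF0q2) (pc := pcF1) (cut := cut_mm_112) (xt := Ext.none) (P1 := 536870912) (W1 := 536870912) (P2 := 0) (W2 := 536870912) (P3 := 201326592) (W3 := 134217728)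
    rfl (fun _ => rfl) k0_mm_112

noncomputable def cut_mm_202 : Cut := Cut.of [[⟨3, 0, 0, 1449551462⟩], [⟨4, 0, 0, 2845415833⟩]]

noncomputable def f_mm_202 : ℕ → ℕ → ℕ → ℕ → Bool := onCell 0 536870912 0 536870912 201326592 134217728
    (rowF 0 false false false .pp 2 0 2 (qsf 0 536870912 0 536870912 0) ndF0q2 ndF0q2 pcF0 cut_mm_202 Ext.none)

def k0_mm_202 : ∃ t, chk3 f_mm_202 t 1 1 1 = true :=
  ⟨(l 3), by decide +kernel⟩

theorem c_mm_202 : CertF 0 536870912 0 536870912 201326592 134217728 false false false .pp 2 0 2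
    ndF0q2 ndF0q2 pcF0 cut_mm_202 Ext.none :=
  certF0 (fam := false) (s1 := false) (s2 := false) (a := 2) (b := 0) (c := 2) (cn := .pp) (n1 := ndF0q2) (n2 := ndF0q2) (pc := pcF0) (cut := cut_mm_202) (xt := Ext.none) (P1 := 0) (W1 := 536870912) (P2 := 0) (W2 := 536870912) (P3 := 201326592) (W3 := 134217728)
    rfl k0_mm_202

end Pool.Agent.Strip051.G.I3_16_5_16.Tab.C.FB00

namespace Pool.Agent.Strip051.G.I3_16_5_16.Tab.C.FB01

open Pool.Agent.Strip051.PB Pool.Agent.Strip051.PB.T
open Pool.Agent.Strip051.G.I3_16_5_16.Tab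

noncomputable def f_pp_001 : ℕ → ℕ → ℕ → ℕ → Bool := onCell 0 536870912 536870912 536870912 201326592 134217728
    (rowF 0 false true true .up 0 0 1 (qsf 0 536870912 536870912 536870912 0) ndF0q0 ndF1q1 pcF0 Cut.none Ext.none)

def k0_pp_001 : ∃ t, chk3 f_pp_001 t 1 1 1 = true :=
  ⟨(l 3), by decide +kernel⟩

theorem c_pp_001 : CertF 0 536870912 536870912 536870912 201326592 134217728 false true true .up 0 0 1
    ndF0q0 ndF1q1 pcF0 Cut.none Ext.none :=
  certF0 (fam := false) (s1 := true) (s2 := true) (a := 0) (b := 0) (c := 1) (cn := .up) (n1 := ndF0q0) (n2 := ndF1q1) (pc := pcF0) (cut := Cut.none) (xt := Ext.none) (P1 := 0) (W1 := 536870912) (P2 := 536870912) (W2 := 536870912) (P3 := 201326592) (W3 := 134217728)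
    rfl k0_pp_001

noncomputable def f_pp_011 : ℕ → ℕ → ℕ → ℕ → Bool := onCell 0 536870912 536870912 536870912 201326592 134217728
    (rowF 0 false true true .pnn 0 1 1 (qsf 0 536870912 536870912 536870912 1) ndF0q0 ndF1q1 pcF1 Cut.none Ext.none)

def k0_pp_011 : ∃ t, chk3 f_pp_011 t 1 1 1 = true :=
  ⟨(l 3), by decide +kernel⟩

theorem c_pp_011 : CertF 0 536870912 536870912 536870912 201326592 134217728 false true true .pnn 0 1 1
    ndF0q0 ndF1q1 pcF1 Cut.none Ext.none :=
  certF0 (fam := false) (s1 := true) (s2 := true) (a := 0) (b := 1) (c := 1) (cn := .pnn) (n1 := ndF0q0) (n2 := ndF1q1) (pc := pcF1) (cut := Cut.none) (xt := Ext.none) (P1 := 0) (W1 := 536870912) (P2 := 536870912) (W2 := 536870912) (P3 := 201326592) (W3 := 134217728)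
    rfl k0_pp_011

end Pool.Agent.Strip051.G.I3_16_5_16.Tab.C.FB01

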