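import Pool.Agent.Strip051.G.I3_16_5_16.Tab

/-! # Certificates F8 (generated) -/

set_option linter.all false
set_option maxRecDepth 100000

namespace Pool.Agent.Strip051.G.I3_16_5_16.Tab.C.FB01

open Pool.Agent.Strip051.PB Pool.Agent.Strip051.PB.T
open Pool.Agent.Strip051.G.I3_16_5_16.Tab

noncomputable def cut_pp_012_a : Cut := Cut.of [[⟨0, 0, 0, 67108864⟩, ⟨1, 1, 0, 67108864⟩, ⟨2, 1, 0, 67108864⟩]]

noncomputable def f_pp_012_a : ℕ → ℕ → ℕ → ℕ → Bool := onCell 536870912 536870912 0 536870912 201326592 134217728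
    (rowF 2 false true true .pnp 0 1 2 (qsf 0 536870912 0 536870912 1) ndF0q0 ndF1q2a pcF1 cut_pp_012_a Ext.none)

def k0_pp_012_a : ∃ t, chk3 f_pp_012_a t 2 1 1 = true :=
  ⟨(l 3), by decide +kernel⟩

def k1_pp_012_a : ∃ t, chk3 f_pp_012_a t 6 1 1 = true :=
  ⟨(b (a (b (l 3) (l 3)) (b (a (b (a (a (b (c (b (l 27548265799) (l 45801907639)) (b (c (l 30769490487) (l 32916968871)) (l 47949351015))) (l 3)) (b (c (c (l 16848840) (l 22716427959)) (c (l 24863913735) (b (l 16790744) (l 31306355079)))) (c (l 31843264455) (b (l 36138188823) (l 3))))) (b (c (c (l 16856592) (l 16820400)) (c (l 16806832) (l 16798024))) (c (a (c (l 23790220759) (l 24863929063)) (l 21105809783)) (a (b (l 27011387719) (l 33990701703)) (c (l 16814296) (l 27011386695)))))) (a (l 3) (a (l 3) (b (c (l 27011415111) (c (l 31843222023) (l 36138184551))) (l 3))))) (b (a (c (b (l 16839408) (c (l 16857752) (l 16814088))) (b (l 16769760) (c (l 16793840) (l 16793392)))) (c (b (l 16834240) (l 16830928)) (b (l 16740192) (l 16765120))))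 (a (a (b (c (c (l 22716477991) (l 23790176823)) (c (l 25400785527) (b (l 16794008) (l 28621999607)))) (l 3)) (b (c (l 16804920) (c (l 16787392) (l 16806976))) (b (c (l 22716425175) (c (l 16811336) (l 28085123575))) (l 3)))) (b (c (c (l 16853464) (l 16800672)) (l 16797760)) (c (a (c (l 16845312) (l 16803392)) (l 16798808)) (a (b (l 16787904) (c (l 16797136) (l 27548246535))) (l 16800072))))))) (a (l 3) (b (a (l 3) (b (c (a (b (l 38822554295) (l 3)) (b (l 19495185191) (l 39359418471))) (a (b (l 43117496087) (l 3)) (b (c (l 16793024) (l 27011368423)) (c (l 39359412967) (l 46338710935))))) (l 3))) (l 3))))) (l 3)), by decide +kernel⟩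

def k2_pp_012_a : ∃ t, chk3 f_pp_012_a t 14 4 1 = true :=
  ⟨(a (b (c (a (l 16817912) (l 16789504)) (a (l 16744392) (l 16715760))) (a (c (b (l 16813464) (c (l 16841120) (l 16776904))) (b (l 16758800) (l 16800368))) (b (c (l 16786832) (l 16730120)) (c (l 16782384) (l 16751144))))) (c (b (a (l 16740824) (l 16710048)) (a (b (l 16740456) (l 16736336)) (b (l 16690072) (l 16708768)))) (b (a (l 16697552) (l 16678760)) (a (l 16733400) (l 16706056))))), by decide +kernel⟩

def k3_pp_012_a : ∃ t, chk3 f_pp_012_a t 28 5 1 = true :=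
  ⟨(b (a (a (b (c (c (l 16834176) (l 16806224)) (b (l 16779248) (c (l 16788520) (l 16786448)))) (b (a (c (l 35601310599) (l 41506871975)) (c (l 21105788503) (l 44191206263))) (l 3))) (b (c (l 16798112) (l 16791024)) (c (c (l 20032055927) (b (l 16784928) (l 21642661367))) (b (c (l 16783632) (l 16781600)) (a (l 44191217543) (c (l 16788096) (l 29695701879))))))) (b (c (c (l 16816368) (l 16770184)) (l 16791280)) (a (c (c (l 16811504) (l 16775184)) (b (l 16769368) (l 16787936))) (c (l 16781752) (l 16780824))))) (a (a (l 3) (a (l 3) (b (b (c (l 45264978071) (l 48486185207)) (l 3)) (l 3)))) (a (b (c (b (c (l 16803768) (l 21105781543)) (c (l 33453822407) (l 36675026263))) (b (a (b (l 28621954167) (l 50096794791)) (c (l 16782792) (l 16780536))) (a (l 3) (b (l 43117468711) (l 3))))) (l 3)) (b (c (c (l 20032035735) (b (l 16773912) (l 21105771495))) (b (l 16771888) (a (c (l 23790119463) (b (l 16779560) (l 46875560295))) (l 16781304)))) (b (c (c (l 33990684775) (l 38285628551)) (a (c (l 45801822775)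 (l 46875559415)) (c (l 39359374039) (a (l 51707390455) (l 47412426647))))) (l 3)))))), by decide +kernel⟩

def k4_pp_012_a : ∃ t, chk3 f_pp_012_a t 29 5 1 = true :=
  ⟨(b (a (b (c (l 16750944) (l 16742336)) (c (a (l 16766848) (l 16751848)) (l 16781152))) (c (b (l 16709320) (l 16739880)) (a (l 16751512) (l 16716960)))) (a (a (b (c (c (l 16770280) (l 16763768)) (c (l 16762912) (l 16782408))) (c (b (c (l 16776848) (l 16796864)) (a (c (l 44191219207) (l 46338687047)) (c (l 16791520) (l 37748756807)))) (c (b (a (l 16777680) (l 16771024)) (a (l 47949295815) (l 40969966183))) (b (a (l 30232552407) (l 16769024)) (a (l 49559903495) (b (l 16774144) (l 45801807479))))))) (b (c (l 16770224) (l 16769688)) (c (b (l 16783064) (c (l 16770528) (l 16769632))) (b (l 16760136) (c (l 16789168) (a (l 16769424) (l 16763000))))))) (b (c (c (l 16747288) (l 16748576)) (l 16762448)) (a (c (c (l 16772544) (l 16772488)) (c (l 16771880) (l 16770712))) (c (l 16758064) (l 16758072)))))), by decide +kernel⟩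

def k5_pp_012_a : ∃ t, chk3 f_pp_012_a t 15 2 1 = true :=
  ⟨(b (a (b (c (a (l 16693008) (l 16695616)) (a (l 16679488) (l 16678704))) (c (a (l 16692624) (l 16692664)) (a (l 16681032) (l 16659480)))) (b (c (a (l 16697072) (l 16697456)) (a (l 16676560) (l 16673208))) (a (c (l 16673072) (l 16657384)) (c (l 16694328) (l 16654016))))) (a (b (a (c (c (l 16708800) (l 16713032)) (l 16718080)) (c (c (l 16683232) (l 16678488)) (l 16693704))) (a (c (b (a (l 16726080) (l 16711792)) (c (l 16735752) (l 16737264))) (b (l 16722800) (b (l 16734672) (l 16742240)))) (c (b (l 16701464) (a (l 16715704) (l 16702136))) (a (l 16732496) (l 16720176))))) (a (b (c (a (l 16681536) (l 16681664)) (l 16670320)) (c (b (l 16679696) (l 16693192)) (b (l 16673424) (l 16689168)))) (b (c (b (l 16662008) (l 16658432)) (l 16677088)) (c (b (l 16678816) (c (l 16684016) (l 16657632))) (l 16682904)))))), by decide +kernel⟩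

def k6_pp_012_a : ∃ t, chk3 f_pp_012_a t 28 6 1 = true :=
  ⟨(l 3), by decide +kernel⟩

def k7_pp_012_a : ∃ t, chk3 f_pp_012_a t 58 12 1 = true :=
  ⟨(b (c (a (b (c (l 40433113879) (l 41506852519)) (l 3)) (b (a (c (l 32916920855) (l 33990659447)) (c (l 16774832) (l 16784072))) (a (l 3) (c (l 41506840007) (l 43654320423))))) (a (a (l 3) (b (c (l 43117456535) (l 44191193239)) (l 3))) (b (a (b (c (l 43654323671) (l 29158803591)) (c (l 45801803703) (l 43117444119))) (b (l 16769160) (c (l 16773552) (l 30232539607)))) (a (l 3) (b (c (l 45801806167) (a (l 44191183015) (l 47412408071))) (l 3)))))) (l 3)), by decide +kernel⟩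

def k8_pp_012_a : ∃ t, chk3 f_pp_012_a t 59 12 1 = true :=
  ⟨(b (a (b (c (c (l 16764024) (l 16763200)) (c (l 16761888) (l 16760080))) (c (c (a (l 33990651927) (l 16768312)) (b (l 16779248) (a (l 35601258407) (l 16768936)))) (a (b (c (l 16770392) (l 16768136)) (c (l 40969962727) (a (l 43654310775) (l 16769680)))) (c (l 16765480) (l 16763416))))) (b (c (l 16770376) (l 16747960)) (c (c (l 16757560) (l 16756792)) (c (l 16755592) (l 16753952))))) (a (b (c (a (c (l 37211871783) (b (l 39896220983) (l 3))) (b (c (l 33990644551) (l 37211865383)) (c (l 37211873735) (l 41506828151)))) (a (b (c (l 40969958583) (l 40433082663)) (l 3)) (b (c (c (l 40969959063) (l 25937571191)) (a (l 28085049015) (l 16766592))) (c (l 43117436647) (a (l 38285595991) (l 43654304887)))))) (l 3)) (b (c (b (c (l 16763488) (l 16762312)) (a (c (l 16770840) (l 16774496)) (l 16763216))) (a (b (l 16763008) (c (l 16772552) (l 23790076103))) (a (l 16759848) (l 16756664)))) (c (a (b (c (c (l 29158806391) (l 30232546567)) (a (l 38285604487)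 (l 38822471047))) (c (l 34527509239) (l 36674989127))) (b (c (l 16767664) (l 16766072)) (c (c (l 30232543639) (l 31306283511)) (c (l 32916894151) (l 36138116231))))) (a (b (c (a (l 39896212551) (l 43117433815)) (a (l 39896207431) (l 27011302791))) (c (l 38822468439) (l 37211850791))) (b (c (l 16764168) (l 16761944)) (a (c (l 39359337639) (c (l 42043689479) (l 23253206967))) (c (l 16766064) (l 16763760))))))))), by decide +kernel⟩

def k9_pp_012_a : ∃ t, chk3 f_pp_012_a t 29 13 1 = true :=
  ⟨(a (l 3) (b (b (b (a (l 3) (a (l 3) (a (l 3) (c (c (l 35601248967) (l 38285600103)) (c (l 40969950343) (l 39359322759)))))) (l 3)) (l 3)) (l 3))), by decide +kernel⟩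

def k10_pp_012_a : ∃ t, chk3 f_pp_012_a t 14 7 1 = true :=
  ⟨(l 3), by decide +kernel⟩

def k11_pp_012_a : ∃ t, chk3 f_pp_012_a t 30 12 1 = true :=
  ⟨(a (b (c (c (a (l 16760072) (l 16745880)) (b (l 16749480) (l 16757280))) (a (c (l 16759800) (l 16758960)) (l 16746720))) (a (a (c (b (l 16754432) (c (l 16773152) (l 16771728))) (b (l 16751912) (c (l 16770008) (b (l 16755800) (l 16759192))))) (c (c (l 16767488) (l 16766616)) (b (l 16745592) (c (l 16753144) (l 16751384))))) (b (c (l 16758296) (l 16736200)) (c (c (l 16745432) (l 16744688)) (c (l 16743640) (l 16742288)))))) (b (c (a (l 16732632) (l 16719192)) (a (l 16734240) (l 16722000))) (a (c (c (l 16748632) (l 16748752)) (c (l 16748504) (l 16747904))) (c (c (l 16735080) (l 16735792)) (l 16736152))))), by decide +kernel⟩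

def k12_pp_012_a : ∃ t, chk3 f_pp_012_a t 60 26 1 = true :=
  ⟨(a (b (c (a (b (c (c (l 31306280247) (l 32380020391)) (c (l 33990630967) (l 37211853655))) (c (c (l 37211854983) (l 38822466119)) (a (l 36138111607) (l 40969945383)))) (c (b (l 16761776) (c (l 16766096) (l 16765384))) (b (l 16760368) (c (l 16764608) (l 16763768))))) (a (b (c (c (l 21105725671) (a (l 23253207543) (l 16762904))) (a (l 24326947223) (l 16761264))) (a (c (l 38285591207) (l 37748715719)) (c (l 39359333623) (a (l 39359322711) (l 24326944999))))) (a (b (l 16759288) (c (l 16763952) (l 16761824))) (b (l 16756200) (l 16759856))))) (c (b (a (a (l 3) (c (l 29695664247) (l 31843144423))) (c (a (b (l 32380016791) (l 31306276599)) (c (l 30769404407) (l 32916886711))) (a (b (l 36674980359) (l 33990627479)) (c (l 35601239975) (l 37748721879))))) (b (a (l 3) (a (l 3) (c (c (l 32380018295) (l 33453758535)) (l 36138109687)))) (l 3))) (a (a (l 3) (b (c (l 33990624119) (l 36138103351)) (l 3))) (b (a (c (b (l 38822462727) (l 36138106967))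 (b (l 22179461383) (l 33990623367))) (c (c (l 39896203655) (l 23253203399)) (c (l 24326943111) (l 24863811799)))) (a (l 3) (b (c (l 37748720231) (l 36674976407)) (l 3))))))) (b (a (c (c (l 16756960) (l 16755744)) (c (l 16754264) (l 16752512))) (c (l 16760232) (l 16747304))) (c (a (b (c (l 16773456) (l 16761528)) (c (c (a (b (l 16767976) (l 29158790983)) (l 16765608)) (a (l 31843144151) (l 16764896))) (a (c (l 33453756231) (l 34527497287)) (l 16768976)))) (b (l 16766192) (c (l 16760264) (l 16758928)))) (a (b (c (l 16759848) (l 16757928)) (a (b (c (l 16764152) (l 16762080)) (c (l 36138107607) (l 39359318727))) (c (l 16761984) (l 16760016)))) (c (l 16765992) (b (l 16751984) (l 16755584))))))), by decide +kernel⟩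

def k13_pp_012_a : ∃ t, chk3 f_pp_012_a t 60 27 1 = true :=
  ⟨(a (l 3) (b (c (a (b (c (c (a (l 28085048279) (b (l 30769402103) (l 29158790919))) (a (l 29158788535) (b (l 32380014135) (l 30232531175)))) (b (a (l 30769399975) (c (l 34527496151) (l 36138107159))) (c (l 31843140375) (l 32916880439)))) (l 3)) (a (b (c (c (b (l 16765248) (l 16772464)) (l 32916882231)) (c (l 35601235735) (l 37748717735))) (c (b (c (l 30769402439) (l 28621917991)) (c (l 25400690983) (l 27011302151))) (b (a (l 30769399431) (l 35064365015)) (c (l 28085042327) (l 29158782423))))) (b (c (l 16762584) (l 16761152)) (b (c (c (l 16765904) (l 16765176)) (l 16769240)) (c (c (l 28621917639) (l 30769399927)) (c (l 32380011047) (l 34527492999))))))) (a (b (a (c (b (l 32380010583) (l 3)) (l 35064358151)) (c (b (l 38822459911) (l 33990623623)) (b (c (l 42043681543) (l 23253197479)) (l 34527491415)))) (l 3)) (a (b (c (c (l 22179459527) (l 23253199335)) (c (l 16766368) (l 16765336))) (c (c (l 36138101095) (l 37211841015)) (b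 (l 37211838743) (l 32916872071)))) (b (c (l 16759520) (l 16757688)) (b (c (l 16762272) (l 16760360)) (c (c (l 36674974871) (l 38285585735)) (c (l 40433067447) (l 21105712743)))))))) (a (l 3) (a (l 3) (a (l 3) (b (b (c (c (c (l 27548175751) (l 28621916023)) (l 30232525927)) (c (l 32916878295) (l 35601229207))) (l 3)) (l 3))))))), by decide +kernel⟩

def k14_pp_012_a : ∃ t, chk3 f_pp_012_a t 61 26 1 = true :=
  ⟨(b (c (a (c (l 16740080) (l 16739536)) (l 16737232)) (a (l 16748688) (l 16726208))) (c (a (c (l 16758752) (l 16757880)) (c (l 16755984) (l 16734688))) (a (c (l 16756776) (a (l 16747880) (l 16742008))) (l 16754704)))), by decide +kernel⟩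

def k15_pp_012_a : ∃ t, chk3 f_pp_012_a t 61 27 1 = true :=
  ⟨(a (b (c (a (c (b (l 16757632) (c (l 16769808) (l 16766528))) (b (l 16756392) (c (l 16771064) (l 16770320)))) (c (l 16763536) (l 16751976))) (c (a (b (l 16754944) (c (l 16759040) (l 16758208))) (l 16750712)) (a (b (l 16753296) (l 16762120)) (l 16749264)))) (c (a (b (c (a (b (c (l 30769398551) (l 32916881191)) (c (a (l 24326950087) (l 30232528471)) (l 28085045879))) (a (c (l 16767728) (l 16764376)) (l 16768360))) (a (b (c (l 35064363255) (l 37211845255)) (c (l 29695656983) (l 31306268023))) (c (l 16768064) (l 16767272)))) (c (a (b (c (l 22716334903) (l 23790075159)) (l 3)) (b (c (a (l 27548174183) (l 16769048)) (l 28621914935)) (c (a (l 3) (l 24326948711)) (l 23790078359)))) (a (b (c (l 24863815335) (l 26474426375)) (l 3)) (b (c (l 30769396983) (l 32916878967)) (c (l 24863818567) (l 26474429687)))))) (b (c (c (l 16759344) (l 16758728)) (l 16768208)) (a (b (c (l 16766904) (l 16762128)) (c (c (c (l 28085042919) (l 29158784327))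 (l 30232525335)) (c (l 32380007415) (l 35064360343)))) (c (c (l 16761680) (l 16761008)) (l 16759936))))) (a (b (a (c (b (l 39359324631) (a (l 29158781815) (l 36674973031))) (b (l 22716325191) (l 35064353975))) (c (c (l 16761208) (l 16760344)) (l 16764224))) (a (a (l 3) (c (l 28621907463) (l 31306258279))) (c (b (c (l 34527489959) (l 36138100903)) (l 28085040855)) (b (c (l 37211840871) (l 19495098855)) (l 31306262791))))) (c (b (l 16756256) (a (b (l 16760504) (l 36674968887)) (l 16758400))) (b (l 16754640) (a (c (l 20568840855) (l 20568839031)) (l 16756744))))))) (a (c (b (c (l 16746472) (l 16745672)) (c (b (l 16752496) (l 16756456)) (b (l 16751440) (l 16755240)))) (b (l 16754576) (c (l 16760576) (b (l 16748864) (l 16752424))))) (c (b (l 16750152) (c (l 16758408) (l 16747064))) (b (l 16738200) (l 16755976))))), by decide +kernel⟩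

def k16_pp_012_a : ∃ t, chk3 f_pp_012_a t 31 6 1 = true :=
  ⟨(b (a (c (b (a (l 16705976) (l 16692976)) (a (l 16722432) (l 16709504))) (b (l 16714616) (a (l 16724288) (c (l 16712000) (l 16713104))))) (c (b (l 16681496) (a (l 16696736) (l 16694608))) (a (l 16709696) (l 16696928)))) (a (a (b (c (c (l 16738568) (l 16739024)) (c (l 16739176) (l 16739032))) (c (b (c (l 16751008) (l 16750920)) (c (l 16748584) (l 16748160))) (b (l 16750368) (c (l 16747560) (l 16757288))))) (b (c (b (l 16721904) (l 16730120)) (l 16727512)) (b (c (l 16727696) (l 16738744)) (c (c (l 16745992) (l 16746176)) (l 16735600))))) (b (c (a (l 16713240) (l 16700384)) (a (l 16716008) (l 16704648))) (a (c (c (l 16728856) (l 16729880)) (l 16730928)) (c (b (l 16715544) (l 16712712)) (l 16719576)))))), by decide +kernel⟩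

def k17_pp_012_a : ∃ t, chk3 f_pp_012_a t 60 14 1 = true :=
  ⟨(l 3), by decide +kernel⟩

def k18_pp_012_a : ∃ t, chk3 f_pp_012_a t 122 28 1 = true :=
  ⟨(b (c (a (l 3) (a (b (b (c (c (a (l 21105722823) (l 27011301639)) (l 25400688423)) (c (l 26474429943) (l 28085041031))) (l 3)) (l 3)) (b (c (b (c (l 16767264) (l 16763904)) (c (a (l 23790076199) (l 28621912167)) (a (l 25400687527) (l 16767616)))) (b (c (l 16763136) (l 16762352)) (c (l 28085041031) (l 29695652135)))) (a (l 3) (b (c (c (l 21105721415) (l 22179461831)) (l 23790073127)) (l 3)))))) (a (l 3) (a (b (b (c (l 29695651015) (l 30769390855)) (l 3)) (l 3)) (b (b (c (l 16761120) (l 16759384)) (c (l 31306263335) (l 32916872567))) (c (b (l 24863813719) (l 3)) (l 31843127303)))))) (l 3)), by decide +kernel⟩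

def k19_pp_012_a : ∃ t, chk3 f_pp_012_a t 123 56 1 = true :=
  ⟨(c (a (a (b (c (c (l 16767584) (l 16766888)) (c (l 16760928) (l 16760176))) (c (b (c (c (l 25400686967) (l 25937557463)) (l 27548169383)) (c (a (l 17884495799) (l 23790074535)) (a (l 19495106967) (l 24863814807)))) (b (c (l 29695651479) (l 31306262631)) (c (l 23253202855) (l 24863813975))))) (c (b (l 16758744) (b (l 16761664) (c (l 27011296823) (l 16765840)))) (b (l 16757432) (c (b (l 16760592) (l 16762464)) (l 17347616663))))) (c (b (l 16753856) (c (l 16768544) (l 16767928))) (b (l 16752744) (l 16761728)))) (a (b (c (c (l 16763144) (l 16767624)) (l 16761200)) (c (a (b (l 32380002999) (l 26474425223)) (c (l 16765256) (l 16759232))) (a (a (l 28085035303) (l 18421356775)) (l 16763272)))) (b (l 16761376) (a (l 16761160) (l 16753000))))), by decide +kernel⟩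

def k20_pp_012_a : ∃ t, chk3 f_pp_012_a t 123 57 1 = true :=
  ⟨(c (a (a (l 3) (b (a (b (c (c (l 20031978311) (l 22179460391)) (l 23790071655)) (l 3)) (c (b (c (l 25937556279) (l 16766904)) (c (l 18421365719) (l 19495105991))) (b (l 29158778631) (l 20568846439)))) (l 3))) (b (a (b (c (c (l 16762640) (l 16761920)) (l 16760832)) (a (c (c (l 23790073399) (l 25400684599)) (l 26474424935)) (c (c (l 16763808) (l 16763072)) (l 16761952)))) (c (c (l 16765600) (l 16759688)) (l 16763912))) (c (a (b (c (a (l 16810753079) (l 22179461319)) (a (l 18421364327) (l 23790072583))) (l 3)) (b (c (c (l 21642587975) (l 23253199687)) (l 25937553207)) (c (a (b (l 22179460279) (l 16273880887)) (c (l 21642589175) (l 22716330311))) (a (l 20568847863) (l 23790071447))))) (a (b (c (l 21642589783) (l 23790071927)) (l 3)) (b (c (l 16767432) (l 16761480)) (c (c (l 21105718007) (l 24326942775)) (l 22716329495))))))) (a (a (l 3) (b (c (b (l 28085036599) (l 21642587351)) (c (l 24326938055) (l 25400675623))) (l 3))) (a (b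 (b (a (l 16764544) (l 16757848)) (c (l 29158776887) (l 16764784))) (b (c (l 24863812471) (l 28085035223)) (l 3))) (b (c (l 16757280) (l 16755856)) (b (c (l 16765648) (l 16758952)) (c (l 24326940919) (l 27011292951))))))), by decide +kernel⟩

def k21_pp_012_a : ∃ t, chk3 f_pp_012_a t 61 29 1 = true :=
  ⟨(a (l 3) (a (l 3) (a (l 3) (a (l 3) (b (b (b (a (l 3) (c (c (c (l 17884493991) (l 18958234519)) (l 20568846071)) (c (l 23790069015) (l 16762144)))) (l 3)) (l 3)) (l 3)))))), by decide +kernel⟩

def k22_pp_012_a : ∃ t, chk3 f_pp_012_a t 30 15 1 = true :=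
  ⟨(l 3), by decide +kernel⟩

def k23_pp_012_a : ∃ t, chk3 f_pp_012_a t 62 28 1 = true :=
  ⟨(a (b (a (c (c (l 16759768) (l 16758864)) (c (l 16757864) (l 16746280))) (c (c (l 16753256) (l 16742152)) (l 16751520))) (c (a (b (c (l 16760408) (l 16764504)) (a (b (c (l 16760024) (l 16758752)) (c (c (l 16767880) (l 16762008)) (l 16766288))) (c (l 16763184) (l 16756800)))) (b (l 16756120) (c (l 16763576) (l 16752168)))) (a (a (b (l 16753672) (c (l 16763832) (l 16757256))) (b (l 16750768) (l 16760280))) (c (l 16759536) (l 16758552))))) (a (b (c (l 16746600) (l 16735256)) (c (c (l 16754904) (l 16754296)) (l 16753296))) (b (c (l 16740264) (l 16729504)) (c (l 16748304) (l 16747560))))), by decide +kernel⟩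

def k24_pp_012_a : ∃ t, chk3 f_pp_012_a t 124 58 2 = true :=
  ⟨(a (b (c (a (a (b (c (b (l 24326942679) (l 20568847863)) (l 23253201591)) (l 3)) (b (c (l 16766416) (l 16763504)) (c (b (l 20031976567) (l 16810751975)) (b (l 22179458983) (l 17884492599))))) (a (b (l 16762200) (c (c (l 22179459383) (l 22716329719)) (l 23790070983))) (c (b (l 16760864) (l 16763176)) (l 16766712)))) (a (a (b (c (l 25400683943) (l 27011295367)) (l 3)) (b (l 16765184) (c (l 22179459383) (l 23790071031)))) (b (l 16760248) (a (a (l 26474424359) (l 16762928)) (l 16761776))))) (a (l 3) (a (b (b (c (c (c (l 18421364391) (l 18958234727)) (l 20031976007)) (l 21642587639)) (l 3)) (l 3)) (c (a (b (c (c (l 20568847831) (l 21105718183)) (l 22716330247)) (l 3)) (c (b (c (l 23253200951) (l 16767552)) (c (l 13589527207) (l 14126397607))) (b (l 25400683559) (l 14663268039)))) (b (c (l 23253200263) (l 24863811863)) (c (l 14663268087) (l 16273879735))))))) (b (a (c (c (l 16764816) (l 16759080)) (l 16763552)) (c (l 16756112) (l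 16755232))) (c (a (c (b (c (l 16765800) (l 16765544)) (a (b (c (l 21642588871) (l 22716330167)) (c (l 16273881127) (l 16810751527))) (c (l 22179458743) (l 16767056)))) (b (l 16765168) (a (a (l 17884493079) (l 21642588519)) (l 24326941495)))) (a (b (l 16760392) (l 16765336)) (l 16765192))) (a (a (b (l 16765160) (c (l 20568846951) (l 22179458695))) (b (l 16761000) (a (l 28085036791) (l 16762920)))) (c (l 16765320) (l 16764856)))))), by decide +kernel⟩

def k25_pp_012_a : ∃ t, chk3 f_pp_012_a t 124 58 3 = true :=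
  ⟨(a (a (b (b (c (c (l 25937552583) (l 27548164007)) (l 29158775719)) (c (c (l 21642588263) (l 23253199895)) (l 24863811351))) (l 3)) (b (b (l 16762392) (c (l 27548164135) (l 16765360))) (c (b (c (l 22716329639) (l 24326941207)) (c (l 16273880711) (l 17884492327))) (b (l 25937553127) (l 18958233271))))) (b (c (c (l 16766520) (l 16766016)) (l 16765240)) (a (b (c (l 16760704) (l 16759600)) (c (c (l 22716328919) (l 24326940583)) (l 25937552327))) (c (l 16764152) (l 16757928))))), by decide +kernel⟩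

def k26_pp_012_a : ∃ t, chk3 f_pp_012_a t 125 58 1 = true :=
  ⟨(c (a (c (b (l 16761768) (c (l 16763976) (l 16761016))) (b (l 16750616) (c (l 16765912) (l 16765552)))) (c (c (l 16757776) (l 16757592)) (l 16757288))) (a (b (l 16760008) (a (l 16760792) (l 16752680))) (c (l 16756824) (l 16756312)))), by decide +kernel⟩

def k27_pp_012_a : ∃ t, chk3 f_pp_012_a t 124 59 1 = true :=
  ⟨(c (a (l 3) (b (c (a (b (a (l 3) (b (c (c (l 18421364279) (l 19495105623)) (l 20031976119)) (c (l 13589525783) (l 14126397047)))) (l 3)) (a (a (c (b (c (l 19495105671) (l 20031976119)) (l 13052654199)) (b (l 21642588295) (l 12515785015))) (c (b (l 16767488) (c (l 14126397031) (l 14663268823))) (b (l 16764408) (l 14126397559)))) (c (b (l 16763656) (b (l 16766720) (l 17347623063))) (b (l 16763224) (c (l 16273880647) (l 17347622039)))))) (a (a (l 3) (b (c (l 17884491943) (l 18958234087)) (l 3))) (a (b (c (l 22716329383) (l 16766440)) (c (l 15200136967) (l 16273880487))) (b (l 16762552) (b (l 16766912) (l 20568846663))))))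 (a (l 3) (a (l 3) (b (a (l 3) (c (c (l 11442041751) (l 12515785463)) (l 13589525191))) (l 3)))))) (a (l 3) (a (a (l 3) (b (b (c (l 20031975191) (l 23790069463)) (l 3)) (l 3))) (b (b (c (c (l 24863811095) (l 16764720)) (l 28621905655)) (a (c (l 17347621543) (l 20031974295)) (c (l 23253199911) (l 26474423623)))) (b (a (l 3) (c (l 14663267687) (l 17347620599))) (l 3)))))), by decide +kernel⟩

def k28_pp_012_a : ∃ t, chk3 f_pp_012_a t 125 59 1 = true :=
  ⟨(a (c (b (a (b (c (l 16766288) (l 16760256)) (a (c (c (l 16767008) (l 16763976)) (l 16765968)) (c (l 16762592) (l 16761816)))) (c (c (l 16764432) (l 16758864)) (l 16763608))) (c (b (a (a (b (c (l 16810751463) (l 16766992)) (c (l 13589527527) (l 15200139463))) (c (c (l 16767832) (l 16767648)) (l 16767360))) (c (l 16767960) (l 16762384))) (a (a (l 3) (a (c (l 11442044695) (l 12515785767)) (l 6))) (l 6))) (b (a (a (c (l 17347620279) (l 16273880231)) (c (l 16764344) (l 16763944))) (l 16767104)) (a (a (l 3) (a (l 14126397655) (l 6))) (l 6)))))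 (a (b (b (l 16764240) (c (l 16764368) (l 16760864))) (c (a (b (l 20031975815) (l 3)) (b (l 16765944) (l 17347622423))) (b (c (l 22179458263) (l 23790070119)) (c (l 16273878519) (l 17884493031))))) (b (c (l 16757656) (l 16756912)) (b (c (l 16761136) (l 16760368)) (l 6))))) (b (c (c (l 16762112) (l 16764272)) (c (l 16763760) (l 16752720))) (l 6))), by decide +kernel⟩

def k29_pp_012_a : ∃ t, chk3 f_pp_012_a t 63 14 1 = true :=
  ⟨(b (a (c (b (l 16736032) (c (l 16738800) (l 16738960))) (b (l 16731424) (l 16744264))) (c (b (l 16721080) (c (l 16727664) (l 16729504))) (b (l 16720112) (l 16728560)))) (a (a (c (b (c (l 16751296) (l 16751184)) (b (c (l 16758376) (l 16758192)) (l 6))) (b (l 16750880) (b (l 16757800) (l 6)))) (b (c (l 16745016) (l 16745216)) (l 6))) (a (b (c (l 16736352) (l 16750064)) (l 6)) (l 6)))), by decide +kernel⟩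

def k30_pp_012_a : ∃ t, chk3 f_pp_012_a t 31 15 1 = true :=
  ⟨(a (a (l 3) (b (l 6) (l 3))) (l 6)), by decide +kernel⟩

theorem s31_pp_012_a : ∃ t, chk3 f_pp_012_a t 62 59 1 = true := ex3_a k27_pp_012_a k28_pp_012_a

theorem s32_pp_012_a : ∃ t, chk3 f_pp_012_a t 124 58 1 = true := ex3_c k24_pp_012_a k25_pp_012_a

theorem s33_pp_012_a : ∃ t, chk3 f_pp_012_a t 62 58 1 = true := ex3_a s32_pp_012_a k26_pp_012_a

theorem s34_pp_012_a : ∃ t, chk3 f_pp_012_a t 62 29 1 = true := ex3_b s33_pp_012_a s31_pp_012_a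

theorem s35_pp_012_a : ∃ t, chk3 f_pp_012_a t 62 14 1 = true := ex3_b k23_pp_012_a s34_pp_012_a

theorem s36_pp_012_a : ∃ t, chk3 f_pp_012_a t 31 14 1 = true := ex3_a s35_pp_012_a k29_pp_012_a

theorem s37_pp_012_a : ∃ t, chk3 f_pp_012_a t 31 7 1 = true := ex3_b s36_pp_012_a k30_pp_012_a

theorem s38_pp_012_a : ∃ t, chk3 f_pp_012_a t 123 28 1 = true := ex3_b k19_pp_012_a k20_pp_012_a

theorem s39_pp_012_a : ∃ t, chk3 f_pp_012_a t 61 28 1 = true := ex3_a k18_pp_012_a s38_pp_012_a

theorem s40_pp_012_a : ∃ t, chk3 f_pp_012_a t 61 14 1 = true := ex3_b s39_pp_012_a k21_pp_012_a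

theorem s41_pp_012_a : ∃ t, chk3 f_pp_012_a t 30 14 1 = true := ex3_a k17_pp_012_a s40_pp_012_a

theorem s42_pp_012_a : ∃ t, chk3 f_pp_012_a t 30 7 1 = true := ex3_b s41_pp_012_a k22_pp_012_a

theorem s43_pp_012_a : ∃ t, chk3 f_pp_012_a t 15 7 1 = true := ex3_a s42_pp_012_a s37_pp_012_a

theorem s44_pp_012_a : ∃ t, chk3 f_pp_012_a t 61 13 1 = true := ex3_b k14_pp_012_a k15_pp_012_a

theorem s45_pp_012_a : ∃ t, chk3 f_pp_012_a t 60 13 1 = true := ex3_b k12_pp_012_a k13_pp_012_a

theorem s46_pp_012_a : ∃ t, chk3 f_pp_012_a t 30 13 1 = true := ex3_a s45_pp_012_a s44_pp_012_a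

theorem s47_pp_012_a : ∃ t, chk3 f_pp_012_a t 30 6 1 = true := ex3_b k11_pp_012_a s46_pp_012_a

theorem s48_pp_012_a : ∃ t, chk3 f_pp_012_a t 15 6 1 = true := ex3_a s47_pp_012_a k16_pp_012_a

theorem s49_pp_012_a : ∃ t, chk3 f_pp_012_a t 15 3 1 = true := ex3_b s48_pp_012_a s43_pp_012_a

theorem s50_pp_012_a : ∃ t, chk3 f_pp_012_a t 29 12 1 = true := ex3_a k7_pp_012_a k8_pp_012_a

theorem s51_pp_012_a : ∃ t, chk3 f_pp_012_a t 29 6 1 = true := ex3_b s50_pp_012_a k9_pp_012_a

theorem s52_pp_012_a : ∃ t, chk3 f_pp_012_a t 14 6 1 = true := ex3_a k6_pp_012_a s51_pp_012_a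

theorem s53_pp_012_a : ∃ t, chk3 f_pp_012_a t 14 3 1 = true := ex3_b s52_pp_012_a k10_pp_012_a

theorem s54_pp_012_a : ∃ t, chk3 f_pp_012_a t 7 3 1 = true := ex3_a s53_pp_012_a s49_pp_012_a

theorem s55_pp_012_a : ∃ t, chk3 f_pp_012_a t 14 5 1 = true := ex3_a k3_pp_012_a k4_pp_012_a

theorem s56_pp_012_a : ∃ t, chk3 f_pp_012_a t 14 2 1 = true := ex3_b k2_pp_012_a s55_pp_012_a

theorem s57_pp_012_a : ∃ t, chk3 f_pp_012_a t 7 2 1 = true := ex3_a s56_pp_012_a k5_pp_012_a

theorem s58_pp_012_a : ∃ t, chk3 f_pp_012_a t 7 1 1 = true := ex3_b s57_pp_012_a s54_pp_012_a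

theorem s59_pp_012_a : ∃ t, chk3 f_pp_012_a t 3 1 1 = true := ex3_a k1_pp_012_a s58_pp_012_a

theorem s60_pp_012_a : ∃ t, chk3 f_pp_012_a t 1 1 1 = true := ex3_a k0_pp_012_a s59_pp_012_a

theorem c_pp_012_a : CertF 0 536870912 0 536870912 201326592 134217728 false true true .pnp 0 1 2
    ndF0q0 ndF1q2a pcF1 cut_pp_012_a Ext.none :=
  certF2 (fam := false) (s1 := true) (s2 := true) (a := 0) (b := 1) (c := 2) (cn := .pnp) (n1 := ndF0q0) (n2 := ndF1q2a) (pc := pcF1) (cut := cut_pp_012_a) (xt := Ext.none) (P1 := 0) (W1 := 536870912) (P2 := 0) (W2 := 536870912) (P3 := 201326592) (W3 := 134217728)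
    rfl (fun _ => rfl) s60_pp_012_a

noncomputable def cut_pp_012_b : Cut := Cut.of [[⟨0, 0, 0, 67108864⟩, ⟨1, 1, 0, 67108864⟩, ⟨2, 1, 0, 67108864⟩]]

noncomputable def f_pp_012_b : ℕ → ℕ → ℕ → ℕ → Bool := onCell 536870912 536870912 1239849684 370763052 201326592 134217728
    (rowF 2 false true true .pnp 0 1 2 (qsf 0 536870912 1239849684 370763052 1) ndF0q0 ndF1q2b pcF1 cut_pp_012_b Ext.none)

def k0_pp_012_b : ∃ t, chk3 f_pp_012_b t 2 1 1 = true :=
  ⟨(b (l 3) (l 2)), by decide +kernel⟩

def k1_pp_012_b : ∃ t, chk3 f_pp_012_b t 6 4 1 = true :=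
  ⟨(a (b (a (l 3) (l 3)) (l 3)) (b (a (a (b (c (a (c (b (l 16856352) (l 32380224279)) (b (l 16830536) (l 32380182551))) (c (l 16872392) (l 16821552))) (b (a (c (l 16816992) (a (l 16806824) (l 16801320))) (l 16793040)) (a (c (l 33990765319) (l 37748828839)) (l 16808688)))) (b (c (a (c (l 37212103735) (l 36675188967)) (c (l 16904784) (l 16870184))) (a (c (l 37748898151) (l 40433226071)) (l 16846216))) (c (a (b (l 59223797719) (l 3)) (c (l 16926696) (l 16891424))) (a (l 42043907895) (c (l 16858264) (l 16838704)))))) (a (c (b (c (l 16877688) (l 16839432)) (c (l 16921128) (l 16880328))) (b (l 16818536) (l 16843864))) (c (b (l 16860200) (l 16902768)) (b (l 16796032) (l 16813144))))) (c (b (a (c (l 16888408) (l 16834408)) (l 16857424)) (a (c (l 16933576) (l 16877240)) (l 16904936))) (b (a (l 16790720) (l 16744504)) (a (l 16817400) (l 16767992))))) (a (a (a (l 3) (c (b (c (b (l 38822811991) (l 38822854135)) (b (l 16933936) (l 39359692759))) (a (l 3) (c (l 17002240) (l 16966752)))) (b (c (b (l 16900712)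 (l 16922552)) (b (l 16856152) (l 16874696))) (b (l 42043986903) (l 42580892247))))) (a (c (b (c (l 16964944) (l 16923848)) (c (l 17007136) (l 16967368))) (b (c (l 16884944) (l 16851568)) (c (l 16929880) (l 16894728)))) (c (b (l 16946920) (c (l 17013232) (l 16967752))) (b (l 16857344) (l 16903808))))) (c (a (b (l 16945496) (c (l 17022624) (l 16968232))) (b (l 16953768) (l 17000928))) (a (b (l 16842712) (l 16869976)) (b (l 16818856) (l 16871232))))))), by decide +kernel⟩

def k2_pp_012_b : ∃ t, chk3 f_pp_012_b t 6 5 1 = true :=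
  ⟨(a (l 3) (b (a (a (l 3) (a (c (b (c (l 17046320) (l 17009144)) (l 38286189783)) (b (c (l 16974248) (l 16941680)) (l 43117873991))) (c (b (l 17039288) (l 17069056)) (b (l 16950416) (l 16995072))))) (c (a (b (c (l 17062960) (l 17011544)) (l 17075504)) (b (l 17044888) (l 17084792))) (a (b (l 16917816) (l 16984992)) (b (l 16922536) (l 16971216))))) (a (a (l 3) (c (b (l 38286260935) (l 17123528)) (b (l 44191693191) (l 17051000)))) (c (a (b (l 17109344) (l 17137976)) (b (l 17120304) (l 17150472))) (a (b (l 17027544) (l 17065576)) (b (l 17016584) (l 17057192))))))), by decide +kernel⟩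

def k3_pp_012_b : ∃ t, chk3 f_pp_012_b t 7 2 1 = true :=
  ⟨(a (b (a (b (c (b (a (l 16844984) (l 16819904)) (a (l 16898480) (l 16882672))) (b (a (l 16708952) (l 16699976)) (a (l 16728928) (l 16701472)))) (c (a (b (l 16952544) (l 17004144)) (b (l 16944600) (l 17002704))) (a (b (l 16787120) (l 16846072)) (l 16778288)))) (c (b (b (a (l 16776776) (l 16708024)) (a (l 16853456) (l 16805296))) (a (l 16961280) (l 16936536))) (b (b (a (l 16681808) (l 16685368)) (l 16690144)) (a (l 16725920) (l 16675320))))) (a (b (c (a (b (l 17051616) (l 17094224)) (l 17079504)) (a (l 17013592) (l 16907176))) (c (a (l 17148392) (l 17160816)) (a (l 17027080) (l 17014952)))) (b (c (a (l 17081544) (l 17077608)) (a (l 16876816) (l 16835960))) (c (a (l 17171832) (l 17180616)) (a (l 16998936) (l 16977592)))))) (b (b (a (c (a (b (l 16700840) (l 16730616)) (b (l 16683768) (l 16646008))) (b (a (l 16666336) (l 16666664)) (a (l 16609432) (l 16612880)))) (a (c (b (l 16686352) (l 16630616)) (l 16724624)) (c (b (l 16687824)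 (l 16634888)) (b (l 16663016) (l 16614384))))) (a (c (a (l 16895192) (l 16830992)) (b (l 16630496) (l 16628336))) (c (a (l 16734776) (l 16740584)) (b (l 16581096) (l 16563584))))) (a (b (c (a (l 17065096) (l 17040728)) (l 16724296)) (c (a (l 17185560) (l 17184856)) (l 17013496))) (b (c (a (l 16999872) (l 16935960)) (l 16631448)) (c (l 17166712) (l 16902920)))))), by decide +kernel⟩

def k4_pp_012_b : ∃ t, chk3 f_pp_012_b t 3 3 1 = true :=
  ⟨(a (a (l 2) (b (a (l 3) (a (b (c (b (l 17160064) (l 17175888)) (b (l 17097224) (l 17122456))) (l 2)) (b (c (l 17184504) (l 17107008)) (c (l 17209832) (l 17151984))))) (l 2))) (a (b (b (a (c (a (l 17200392) (l 17216760)) (b (l 17082952) (l 17116480))) (c (l 17242024) (l 17087776))) (a (c (l 17238088) (l 17153400)) (c (l 17279256) (l 17155784)))) (b (a (l 2) (c (l 17291992) (l 17194616))) (l 2))) (b (a (b (c (l 17272800) (l 17062816)) (c (l 17322408) (l 17152528))) (b (c (l 17290752) (l 17009320)) (c (l 17363184) (l 17136288)))) (a (b (c (l 17342104)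 (l 17206776)) (l 17284136)) (b (c (l 17395616) (l 17214296)) (l 17325160)))))), by decide +kernel⟩

theorem s5_pp_012_b : ∃ t, chk3 f_pp_012_b t 6 2 1 = true := ex3_b k1_pp_012_b k2_pp_012_b

theorem s6_pp_012_b : ∃ t, chk3 f_pp_012_b t 3 2 1 = true := ex3_a s5_pp_012_b k3_pp_012_b

theorem s7_pp_012_b : ∃ t, chk3 f_pp_012_b t 3 1 1 = true := ex3_b s6_pp_012_b k4_pp_012_b

theorem s8_pp_012_b : ∃ t, chk3 f_pp_012_b t 1 1 1 = true := ex3_a k0_pp_012_b s7_pp_012_b

theorem c_pp_012_b : CertF 0 536870912 1239849684 370763052 201326592 134217728 false true true .pnp 0 1 2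
    ndF0q0 ndF1q2b pcF1 cut_pp_012_b Ext.none :=
  certF2 (fam := false) (s1 := true) (s2 := true) (a := 0) (b := 1) (c := 2) (cn := .pnp) (n1 := ndF0q0) (n2 := ndF1q2b) (pc := pcF1) (cut := cut_pp_012_b) (xt := Ext.none) (P1 := 0) (W1 := 536870912) (P2 := 1239849684) (W2 := 370763052) (P3 := 201326592) (W3 := 134217728)
    rfl (fun _ => rfl) s8_pp_012_b

noncomputable def cut_pp_022_a : Cut := Cut.of [[⟨0, 0, 0, 67108864⟩, ⟨1, 1, 0, 67108864⟩, ⟨2, 1, 0, 67108864⟩]]

noncomputable def f_pp_022_a : ℕ → ℕ → ℕ → ℕ → Bool := onCell 1073741824 536870912 0 536870912 201326592 134217728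
    (rowF 2 false true true .pp 0 2 2 (qsf 0 536870912 0 536870912 2) ndF0q0 ndF1q2a pcF2 cut_pp_022_a Ext.none)

def k0_pp_022_a : ∃ t, chk3 f_pp_022_a t 4 2 1 = true :=
  ⟨(b (a (a (b (c (a (c (l 16597544) (l 16597392)) (l 16602656)) (a (l 16617440) (l 16581440))) (a (c (b (l 16631448) (c (l 16620184) (l 16620960))) (b (l 16610536) (l 16641824))) (c (c (l 16619416) (l 16620568)) (l 16642040)))) (b (c (c (l 16579192) (l 16580000)) (l 16580432)) (c (a (l 16604048) (l 16588424)) (a (l 16605784) (l 16569808))))) (a (c (b (a (l 16536328) (l 16521528)) (a (l 16552000) (l 16536776))) (b (l 16521528) (l 16568408))) (a (c (c (l 16555400) (l 16557400)) (l 16569856)) (a (c (b (l 16496096) (l 16510880)) (l 16506600)) (c (b (l 16488376) (l 16544936)) (l 16561816)))))) (a (a (b (a (c (c (b (l 16632912) (l 16645088)) (b (l 16633384) (l 16645232))) (b (c (l 16633144) (l 16632200)) (a (l 16648800) (l 16639528)))) (c (c (l 16640448) (l 16641472)) (b (l 16615424) (l 16625848)))) (a (c (b (c (l 16656648)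 (l 16677448)) (c (l 16688584) (l 16688072))) (b (c (l 16676600) (a (l 16658896) (l 16649400))) (a (c (l 16671200) (l 16669232)) (l 16660168)))) (c (b (l 16656816) (l 16666520)) (b (l 16635768) (l 16645072))))) (a (b (c (l 16622576) (l 16624352)) (c (l 16661696) (l 16642040))) (c (b (l 16604680) (a (l 16625408) (l 16615344))) (b (l 16586512) (l 16622960))))) (a (b (c (c (l 16598336) (a (l 16567680) (l 16551208))) (l 16603768)) (c (a (c (l 16578072) (l 16580664)) (c (l 16579608) (l 16561640))) (b (l 16592104) (l 16576560)))) (a (c (b (c (l 16553448) (l 16535480)) (c (b (l 16538344) (l 16562576)) (l 16564200))) (b (l 16559464) (l 16546816))) (b (a (c (l 16543664) (l 16527192)) (c (b (l 16534184) (l 16558176)) (l 16561152))) (c (a (c (l 16547392) (l 16529800)) (c (b (l 16537312) (l 16546528)) (l 16552008))) (a (l 16533608) (l 16558592)))))))), by decide +kernel⟩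

def k1_pp_022_a : ∃ t, chk3 f_pp_022_a t 5 2 1 = true :=
  ⟨(a (a (a (b (c (a (b (l 16498952) (l 16513136)) (b (l 16492848) (l 16497696))) (a (l 16552096) (l 16539040))) (c (b (a (a (l 16528768) (l 16521136)) (l 16528472)) (a (c (l 16556448) (l 16552496)) (l 16560840))) (a (b (l 16530112) (l 16545088)) (b (l 16516440) (l 16546976))))) (a (b (c (b (l 16496304) (l 16506888)) (l 16514208)) (b (c (l 16537192) (l 16523088)) (l 1))) (b (c (a (b (l 16478688) (l 16499856)) (a (b (l 16501856) (l 16502152)) (b (l 16524584) (l 1)))) (a (l 16501344) (a (l 16492056) (l 16532760)))) (l 1)))) (b (b (l 1) (l 1)) (l 1))) (l 1)), by decide +kernel⟩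

def k2_pp_022_a : ∃ t, chk3 f_pp_022_a t 8 6 1 = true :=
  ⟨(a (b (a (b (a (c (c (l 16683936) (l 16682784)) (c (l 16681128) (l 16689448))) (c (l 16671840) (l 16669536))) (a (c (c (l 16714864) (l 16702832)) (a (b (l 16689784) (l 16694360)) (l 16686568))) (c (l 16702040) (l 16678312)))) (c (b (l 16675568) (l 16694512)) (b (l 16653744) (l 16682808)))) (a (c (b (a (c (b (l 16701264) (l 16706112)) (b (l 16699632) (l 16704520))) (l 16711304)) (a (c (b (l 16710872) (l 16715544)) (b (l 16709320) (l 16714032))) (c (l 16720856) (l 16698936)))) (b (a (a (b (l 16699440) (l 16704520)) (l 16696264)) (l 16687688)) (a (a (b (l 16709520) (l 16714448)) (l 16706064)) (l 16718136)))) (c (b (c (l 16692648) (l 16692408)) (c (l 16701016) (l 16700872))) (b (l 16691512) (b (l 16698160) (l 16702488)))))) (b (c (a (c (l 16666584) (l 16656976)) (b (l 16609736) (l 16636952))) (a (b (l 16632864) (l 16660936)) (l 16646648))) (b (c (a (c (l 16667416) (l 16647152)) (c (l 16644776) (l 16644056))) (a (l 16647688) (l 16645824)))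 (c (a (c (l 16669520) (l 16675576)) (c (b (l 16662512) (l 16664552)) (a (l 16668840) (l 16665768)))) (a (l 16676480) (a (l 16667144) (l 16663440))))))), by decide +kernel⟩

def k3_pp_022_a : ∃ t, chk3 f_pp_022_a t 9 6 1 = true :=
  ⟨(a (b (c (a (b (l 16608936) (c (l 16616272) (l 16594000))) (b (c (l 16587576) (l 16568096)) (c (c (l 16609544) (l 16608176)) (l 16606296)))) (b (l 16602376) (a (l 16596544) (l 16603112)))) (c (b (a (c (a (l 16640360) (l 16637128)) (l 16636744)) (c (a (b (l 16606608) (l 16618384)) (b (l 16602712) (l 16614544))) (a (l 16631000) (l 16626848)))) (a (b (c (a (l 16637240) (l 16634080)) (l 16654464)) (c (a (l 16649816) (l 16646688)) (a (l 16647680) (l 16644168)))) (b (c (a (l 16630608) (l 1)) (l 16625864)) (l 1)))) (b (a (l 16634072) (c (l 16626472) (l 16624160))) (a (b (l 16651360) (a (l 16644584) (l 16640464))) (b (l 16621664) (l 1)))))) (a (b (c (b (c (a (l 16580872) (l 16576224)) (l 16554552)) (c (c (a (l 16603224) (l 16598832)) (l 16599512)) (l 16597264))) (b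 (l 16572472) (l 16598544))) (a (b (b (c (c (l 16598512) (l 16595488)) (l 16591336)) (l 1)) (l 1)) (l 1))) (b (b (c (a (c (l 16571368) (l 16547008)) (a (l 16565704) (l 1))) (a (l 16542816) (l 16558568))) (l 1)) (l 1)))), by decide +kernel⟩

def k4_pp_022_a : ∃ t, chk3 f_pp_022_a t 4 7 1 = true :=
  ⟨(a (a (b (b (a (c (a (b (c (l 16730640) (l 16729160)) (a (a (l 16733320) (l 16726000)) (l 16720912))) (c (l 16724552) (l 16728936))) (a (a (b (l 16719320) (l 16729088)) (a (l 16733048) (l 16724736))) (c (l 16728016) (l 16727040)))) (c (b (c (l 16707168) (l 16707064)) (a (l 16718200) (l 16698024))) (b (l 16706768) (l 16711352)))) (l 6)) (l 6)) (b (b (a (c (b (a (l 16693376) (l 16680656)) (b (a (l 16682376) (l 16680128)) (l 6))) (b (l 16690920) (a (l 16705272) (l 16702032)))) (c (b (c (a (l 16668312) (l 16676136)) (a (l 16666912) (l 16663840))) (a (c (b (l 16678280) (l 6)) (l 16679968)) (c (a (l 16689968) (l 16678080)) (b (l 16673752) (l 16679952))))) (b (c (l 16684792) (l 16683184)) (a (l 16698528)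 (c (l 16674856) (l 16672736)))))) (a (l 6) (a (l 6) (a (l 6) (l 1))))) (a (l 6) (l 1)))) (b (a (b (a (c (b (a (c (b (l 16659488) (l 16666088)) (l 16660592)) (c (l 16659712) (l 16657096))) (a (c (l 16675968) (l 16673616)) (l 1))) (b (a (l 16657200) (l 16653064)) (a (l 16669872) (l 1)))) (l 1)) (l 1)) (l 1)) (l 1))), by decide +kernel⟩

def k5_pp_022_a : ∃ t, chk3 f_pp_022_a t 5 3 1 = true :=
  ⟨(b (l 1) (l 1)), by decide +kernel⟩

def k6_pp_022_a : ∃ t, chk3 f_pp_022_a t 3 1 1 = true :=
  ⟨(l 1), by decide +kernel⟩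

theorem s7_pp_022_a : ∃ t, chk3 f_pp_022_a t 4 6 1 = true := ex3_a k2_pp_022_a k3_pp_022_a

theorem s8_pp_022_a : ∃ t, chk3 f_pp_022_a t 4 3 1 = true := ex3_b s7_pp_022_a k4_pp_022_a

theorem s9_pp_022_a : ∃ t, chk3 f_pp_022_a t 2 3 1 = true := ex3_a s8_pp_022_a k5_pp_022_a

theorem s10_pp_022_a : ∃ t, chk3 f_pp_022_a t 2 2 1 = true := ex3_a k0_pp_022_a k1_pp_022_a

theorem s11_pp_022_a : ∃ t, chk3 f_pp_022_a t 2 1 1 = true := ex3_b s10_pp_022_a s9_pp_022_a

theorem s12_pp_022_a : ∃ t, chk3 f_pp_022_a t 1 1 1 = true := ex3_a s11_pp_022_a k6_pp_022_a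

theorem c_pp_022_a : CertF 0 536870912 0 536870912 201326592 134217728 false true true .pp 0 2 2
    ndF0q0 ndF1q2a pcF2 cut_pp_022_a Ext.none :=
  certF2 (fam := false) (s1 := true) (s2 := true) (a := 0) (b := 2) (c := 2) (cn := .pp) (n1 := ndF0q0) (n2 := ndF1q2a) (pc := pcF2) (cut := cut_pp_022_a) (xt := Ext.none) (P1 := 0) (W1 := 536870912) (P2 := 0) (W2 := 536870912) (P3 := 201326592) (W3 := 134217728)
    rfl (fun _ => rfl) s12_pp_022_a

noncomputable def cut_pp_022_b : Cut := Cut.of [[⟨0, 0, 0, 67108864⟩, ⟨1, 1, 0, 67108864⟩, ⟨2, 1, 0, 67108864⟩]]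

noncomputable def f_pp_022_b : ℕ → ℕ → ℕ → ℕ → Bool := onCell 1073741824 536870912 1239849684 370763052 201326592 134217728
    (rowF 2 false true true .pp 0 2 2 (qsf 0 536870912 1239849684 370763052 2) ndF0q0 ndF1q2b pcF2 cut_pp_022_b Ext.none)

def k0_pp_022_b : ∃ t, chk3 f_pp_022_b t 4 2 1 = true :=
  ⟨(b (a (a (a (c (b (c (l 16610192) (l 16607744)) (c (b (l 16657288) (l 16886904)) (l 16595592))) (b (b (l 16584400) (l 16581928)) (b (l 16583160) (l 16588512)))) (c (b (c (l 16571680) (l 16569832)) (c (l 16754712) (l 16575088))) (b (l 16587456) (l 16565632)))) (b (c (c (b (l 16569304) (l 16546944)) (l 16585104)) (a (l 16572176) (l 16557152))) (c (a (c (l 16732712) (l 16555504)) (l 16560120)) (b (l 16538376) (l 16539064))))) (a (b (c (b (l 16538992) (l 16513872)) (l 16555784)) (c (a (l 16521256) (l 16503536)) (l 16525208))) (a (b (c (l 16513784) (l 16492312)) (c (l 16486544) (l 16480296))) (c (a (b (l 16481568) (l 16473992)) (b (l 16494504) (l 16465080))) (a (b (l 16481448) (l 16468560))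 (b (l 16473736) (l 16460264))))))) (a (b (a (b (c (c (l 17038216) (l 16749464)) (l 16628528)) (c (a (l 17028624) (l 17056544)) (l 16621000))) (c (b (l 16865712) (l 17038584)) (l 16588728))) (a (c (b (a (l 17193608) (l 17185360)) (l 17288656)) (b (l 16740248) (l 16846616))) (c (l 17148944) (l 16707800)))) (a (b (c (l 16806864) (l 16505720)) (c (l 17228696) (l 16648264))) (a (c (b (l 16918328) (l 17228592)) (l 16500864)) (c (b (a (l 16912144) (l 16908272)) (l 17228472)) (a (l 16465160) (l 16455992))))))), by decide +kernel⟩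

def k1_pp_022_b : ∃ t, chk3 f_pp_022_b t 5 2 1 = true :=
  ⟨(a (a (a (b (c (b (b (l 16534928) (l 16525504)) (a (l 16453976) (l 16438808))) (a (b (l 16464200) (l 16450392)) (b (l 16472632) (l 16437472)))) (c (b (l 16902352) (l 17228664)) (b (l 16457432) (l 16561720)))) (b (a (b (c (l 16506888) (l 16480576)) (c (l 16423096) (l 16424104))) (b (c (a (b (l 16478584) (l 16418000)) (a (l 16498368) (c (l 16502576) (l 16498160)))) (a (l 16449064) (a (l 16470448) (l 16513592)))) (c (a (l 16410456) (a (l 16403584) (l 16419656))) (a (l 16413344) (l 16447752))))) (a (c (b (l 16897984) (l 17228016)) (l 16414928)) (a (c (l 16850280) (l 16403456)) (c (b (l 16833080) (l 17228016)) (b (l 16439480) (l 16534264))))))) (b (b (c (a (b (l 16508656) (l 16460192)) (b (l 16493200) (l 16467072))) (a (l 34929633063) (l 23655348695))) (c (a (l 16421120) (l 16425952)) (a (l 16386616) (l 16380032)))) (b (c (a (l 16895816) (l 16898264)) (a (l 16377832) (l 16349728))) (c (l 17230664) (l 16517424))))) (b (a (a (b (c (b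 (l 1) (l 16454448)) (l 16676036727)) (c (l 16432176) (l 16408760))) (b (l 1) (c (l 72510461575) (l 16415264)))) (b (l 1) (c (b (l 42982633575) (l 38150705143)) (b (l 16448864) (l 16405056))))) (c (b (a (a (l 16905000) (l 16916280)) (b (a (l 16822544) (l 16844200)) (l 17039200))) (a (l 17246008) (l 17272568))) (a (b (l 16363920) (l 16497376)) (b (a (l 16288864) (l 16320864)) (l 16493840)))))), by decide +kernel⟩

def k2_pp_022_b : ∃ t, chk3 f_pp_022_b t 2 3 1 = true :=
  ⟨(a (b (a (b (c (a (l 17398504) (l 17405128)) (a (l 17003112) (l 16973432))) (c (a (l 17489096) (l 17507776)) (a (l 17177608) (l 17149608)))) (a (b (c (l 17415168) (l 16934880)) (l 17242472)) (a (c (l 17492600) (l 17021416)) (c (l 17500640) (b (l 16894872) (l 17104000)))))) (a (b (a (c (l 17531648) (l 17276736)) (l 17368336)) (c (l 17556208) (l 17329240))) (a (b (l 17419720) (l 17469232)) (a (c (l 17630640) (l 17293312)) (c (l 17645768) (l 17291728)))))) (a (a (a (b (c (l 17508128) (b (l 16880440) (l 17095720))) (c (l 17659336)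 (l 17290200))) (b (c (a (l 17511200) (b (l 17439320) (l 17571128))) (a (l 16989536) (a (l 16985272) (b (l 16861208) (l 17082624))))) (c (l 17774096) (a (l 17287136) (l 17285200))))) (b (c (l 17518240) (b (l 16848784) (l 17073720))) (c (l 17678120) (l 17279560)))) (b (c (a (l 17536264) (l 17560112)) (a (b (l 16836312) (l 17067240)) (b (l 16834472) (l 17067616)))) (c (l 17710864) (a (l 17280376) (l 17284808)))))), by decide +kernel⟩

def k3_pp_022_b : ∃ t, chk3 f_pp_022_b t 3 1 1 = true :=
  ⟨(a (b (b (l 1) (a (c (b (a (b (a (l 16868520) (l 1)) (l 37077758615)) (l 120292674151)) (a (l 17312024) (c (l 17562896) (l 17158512)))) (a (b (b (l 16360256) (l 16316608)) (l 16299712)) (b (l 63383591463) (l 63383397399)))) (a (b (l 1) (c (l 182033567527) (l 95058853191))) (l 1)))) (a (b (a (c (l 17590632) (b (l 16845224) (l 17076608))) (c (l 17628712) (b (l 16870696) (l 17095248)))) (c (l 17765552) (a (l 17293920) (l 17308112)))) (b (c (b (a (l 17609520) (l 17661168)) (l 17748008)) (b (a (b (l 16844984)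 (l 16972600)) (b (l 141767217655) (l 17021840))) (a (l 17124856) (l 17165528)))) (c (l 17832352) (a (l 17328776) (l 17355912)))))) (b (l 1) (a (b (b (l 1) (a (c (l 17817968) (l 17195152)) (l 216393530519))) (c (l 17925064) (a (l 17386552) (l 17412664)))) (b (l 1) (c (l 18002640) (l 244310984663)))))), by decide +kernel⟩

theorem s4_pp_022_b : ∃ t, chk3 f_pp_022_b t 2 2 1 = true := ex3_a k0_pp_022_b k1_pp_022_b

theorem s5_pp_022_b : ∃ t, chk3 f_pp_022_b t 2 1 1 = true := ex3_b s4_pp_022_b k2_pp_022_b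

theorem s6_pp_022_b : ∃ t, chk3 f_pp_022_b t 1 1 1 = true := ex3_a s5_pp_022_b k3_pp_022_b

theorem c_pp_022_b : CertF 0 536870912 1239849684 370763052 201326592 134217728 false true true .pp 0 2 2
    ndF0q0 ndF1q2b pcF2 cut_pp_022_b Ext.none :=
  certF2 (fam := false) (s1 := true) (s2 := true) (a := 0) (b := 2) (c := 2) (cn := .pp) (n1 := ndF0q0) (n2 := ndF1q2b) (pc := pcF2) (cut := cut_pp_022_b) (xt := Ext.none) (P1 := 0) (W1 := 536870912) (P2 := 1239849684) (W2 := 370763052) (P3 := 201326592) (W3 := 134217728)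
    rfl (fun _ => rfl) s6_pp_022_b

noncomputable def f_pp_023 : ℕ → ℕ → ℕ → ℕ → Bool := onCell 0 536870912 1073741824 536870912 201326592 134217728
    (rowF 1 false true true .up 0 2 3 (qsf 0 536870912 1610612736 536870912 2) ndF0q0 ndF1q3 pcF2 Cut.none Ext.none)

def k0_pp_023 : ∃ t, chk3 f_pp_023 t 1 1 1 = true :=
  ⟨(a (b (a (l 1) (b (l 1) (b (l 1) (c (l 292093567351) (l 240552447943))))) (b (b (a (l 1) (l 262028159207)) (a (c (l 307126053495) (l 265785705591)) (l 262028529879))) (b (a (c (l 301220896567) (l 281355708967)) (l 17838288)) (a (l 284576694679) (l 17801008))))) (b (a (b (b (l 1) (b (l 1) (b (l 1) (l 245921411879)))) (b (b (b (l 201361110023) (c (l 214784200471) (b (l 17245800) (l 219615194247)))) (l 221762475127)) (c (l 17736304) (l 241090316455)))) (b (a (b (l 241089609623) (b (l 17450960) (b (l 17486336) (l 17505472)))) (b (l 240552603431) (b (l 17479456) (b (l 17496048) (l 17503864))))) (b (b (b (a (l 17521232) (l 17509152)) (a (l 17741224) (l 17509528))) (l 17523248))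 (a (l 17545880) (l 17487408))))) (b (b (a (l 17609152) (l 17505272)) (a (l 17624368) (l 17479072))) (b (a (l 17658888) (l 17492256)) (a (l 17699288) (l 17506176)))))), by decide +kernel⟩

theorem c_pp_023 : CertF 0 536870912 1610612736 536870912 201326592 134217728 false true true .up 0 2 3
    ndF0q0 ndF1q3 pcF2 Cut.none Ext.none :=
  certF1 (fam := false) (s1 := true) (s2 := true) (a := 0) (b := 2) (c := 3) (cn := .up) (n1 := ndF0q0) (n2 := ndF1q3) (pc := pcF2) (cut := Cut.none) (xt := Ext.none) (P1 := 0) (W1 := 536870912) (P2 := 1610612736) (W2 := 536870912) (P3 := 201326592) (W3 := 134217728)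
    rfl (fun _ => rfl) k0_pp_023

noncomputable def f_pp_033 : ℕ → ℕ → ℕ → ℕ → Bool := onCell 1610612736 536870912 1610612736 536870912 201326592 134217728
    (rowF 2 false true true .pnn 0 3 3 (qsf 0 536870912 1610612736 536870912 3) ndF0q0 ndF1q3 pcF3 Cut.none Ext.none)

def k0_pp_033 : ∃ t, chk3 f_pp_033 t 1 1 1 = true :=
  ⟨(a (a (b (b (a (c (l 17890984) (b (l 17681624) (l 17624784))) (c (l 18004728) (l 315716074855))) (a (c (l 17662072) (l 17534504)) (l 17824016))) (b (a (b (l 17474304) (l 17384928)) (l 17550992)) (a (c (l 17220224) (l 17227872)) (b (l 17410680) (l 17309360))))) (b (a (b (l 306052883607) (l 17848280)) (b (l 1) (l 305515813527))) (a (b (l 17632672) (a (l 17429400) (l 17461912))) (b (l 17771176) (a (l 17479384) (l 4)))))) (a (b (a (c (l 293705230279) (l 334506884999)) (l 1)) (l 4)) (l 4))), by decide +kernel⟩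

theorem c_pp_033 : CertF 0 536870912 1610612736 536870912 201326592 134217728 false true true .pnn 0 3 3
    ndF0q0 ndF1q3 pcF3 Cut.none Ext.none :=
  certF2 (fam := false) (s1 := true) (s2 := true) (a := 0) (b := 3) (c := 3) (cn := .pnn) (n1 := ndF0q0) (n2 := ndF1q3) (pc := pcF3) (cut := Cut.none) (xt := Ext.none) (P1 := 0) (W1 := 536870912) (P2 := 1610612736) (W2 := 536870912) (P3 := 201326592) (W3 := 134217728)
    rfl (fun _ => rfl) k0_pp_033

noncomputable def f_pp_101 : ℕ → ℕ → ℕ → ℕ → Bool := onCell 536870912 536870912 536870912 536870912 201326592 134217728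
    (rowF 0 false true true .npn 1 0 1 (qsf 536870912 536870912 536870912 536870912 0) ndF0q1 ndF1q1 pcF0 Cut.none Ext.none)

def k0_pp_101 : ∃ t, chk3 f_pp_101 t 1 1 1 = true :=
  ⟨(l 3), by decide +kernel⟩

theorem c_pp_101 : CertF 536870912 536870912 536870912 536870912 201326592 134217728 false true true .npn 1 0 1
    ndF0q1 ndF1q1 pcF0 Cut.none Ext.none :=
  certF0 (fam := false) (s1 := true) (s2 := true) (a := 1) (b := 0) (c := 1) (cn := .npn) (n1 := ndF0q1) (n2 := ndF1q1) (pc := pcF0) (cut := Cut.none) (xt := Ext.none) (P1 := 536870912) (W1 := 536870912) (P2 := 536870912) (W2 := 536870912) (P3 := 201326592) (W3 := 134217728)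
    rfl k0_pp_101

noncomputable def f_pp_102_a : ℕ → ℕ → ℕ → ℕ → Bool := onCell 536870912 536870912 0 536870912 201326592 134217728
    (rowF 0 false true true .npp 1 0 2 (qsf 536870912 536870912 0 536870912 0) ndF0q1 ndF1q2a pcF0 Cut.none Ext.none)

def k0_pp_102_a : ∃ t, chk3 f_pp_102_a t 1 1 1 = true :=
  ⟨(l 3), by decide +kernel⟩

theorem c_pp_102_a : CertF 536870912 536870912 0 536870912 201326592 134217728 false true true .npp 1 0 2
    ndF0q1 ndF1q2a pcF0 Cut.none Ext.none :=
  certF0 (fam := false) (s1 := true) (s2 := true) (a := 1) (b := 0) (c := 2) (cn := .npp) (n1 := ndF0q1) (n2 := ndF1q2a) (pc := pcF0) (cut := Cut.none) (xt := Ext.none) (P1 := 536870912) (W1 := 536870912) (P2 := 0) (W2 := 536870912) (P3 := 201326592) (W3 := 134217728)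
    rfl k0_pp_102_a

noncomputable def f_pp_102_b : ℕ → ℕ → ℕ → ℕ → Bool := onCell 536870912 536870912 0 536870912 201326592 134217728
    (rowF 1 false true true .npp 1 0 2 (qsf 536870912 536870912 1239849684 370763052 0) ndF0q1 ndF1q2b pcF0 Cut.none Ext.none)

def k0_pp_102_b : ∃ t, chk3 f_pp_102_b t 1 1 1 = true :=
  ⟨(l 3), by decide +kernel⟩

theorem c_pp_102_b : CertF 536870912 536870912 1239849684 370763052 201326592 134217728 false true true .npp 1 0 2
    ndF0q1 ndF1q2b pcF0 Cut.none Ext.none :=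
  certF1 (fam := false) (s1 := true) (s2 := true) (a := 1) (b := 0) (c := 2) (cn := .npp) (n1 := ndF0q1) (n2 := ndF1q2b) (pc := pcF0) (cut := Cut.none) (xt := Ext.none) (P1 := 536870912) (W1 := 536870912) (P2 := 1239849684) (W2 := 370763052) (P3 := 201326592) (W3 := 134217728)
    rfl (fun _ => rfl) k0_pp_102_b

noncomputable def f_pp_112_a : ℕ → ℕ → ℕ → ℕ → Bool := onCell 536870912 536870912 0 536870912 201326592 134217728
    (rowF 0 false true true .dn 1 1 2 (qsf 536870912 536870912 0 536870912 1) ndF0q1 ndF1q2a pcF1 Cut.none Ext.none)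

def k0_pp_112_a : ∃ t, chk3 f_pp_112_a t 1 1 1 = true :=
  ⟨(l 3), by decide +kernel⟩

theorem c_pp_112_a : CertF 536870912 536870912 0 536870912 201326592 134217728 false true true .dn 1 1 2
    ndF0q1 ndF1q2a pcF1 Cut.none Ext.none :=
  certF0 (fam := false) (s1 := true) (s2 := true) (a := 1) (b := 1) (c := 2) (cn := .dn) (n1 := ndF0q1) (n2 := ndF1q2a) (pc := pcF1) (cut := Cut.none) (xt := Ext.none) (P1 := 536870912) (W1 := 536870912) (P2 := 0) (W2 := 536870912) (P3 := 201326592) (W3 := 134217728)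
    rfl k0_pp_112_a

noncomputable def f_pp_112_b : ℕ → ℕ → ℕ → ℕ → Bool := onCell 536870912 536870912 536870912 536870912 201326592 134217728
    (rowF 1 false true true .dn 1 1 2 (qsf 536870912 536870912 1239849684 370763052 1) ndF0q1 ndF1q2b pcF1 Cut.none Ext.none)

def k0_pp_112_b : ∃ t, chk3 f_pp_112_b t 1 1 1 = true :=
  ⟨(b (a (l 3) (l 3)) (a (b (a (b (l 3) (b (l 3) (a (a (c (l 17192992) (l 17136744)) (c (l 17202744) (l 17159536))) (c (l 66740554535) (l 90899798295))))) (l 3)) (a (b (a (b (c (l 17246448) (l 17176160)) (c (l 17291632) (l 17203616))) (b (c (l 17238008) (l 17193416)) (l 17238256))) (a (b (l 17284008) (l 17322968)) (b (l 17262960) (l 2)))) (a (b (b (l 113448717319) (l 2)) (l 2)) (l 2)))) (b (l 3) (l 2)))), by decide +kernel⟩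

theorem c_pp_112_b : CertF 536870912 536870912 1239849684 370763052 201326592 134217728 false true true .dn 1 1 2
    ndF0q1 ndF1q2b pcF1 Cut.none Ext.none :=
  certF1 (fam := false) (s1 := true) (s2 := true) (a := 1) (b := 1) (c := 2) (cn := .dn) (n1 := ndF0q1) (n2 := ndF1q2b) (pc := pcF1) (cut := Cut.none) (xt := Ext.none) (P1 := 536870912) (W1 := 536870912) (P2 := 1239849684) (W2 := 370763052) (P3 := 201326592) (W3 := 134217728)
    rfl (fun _ => rfl) k0_pp_112_b

noncomputable def cut_pp_113 : Cut := Cut.of [[⟨0, 1, 0, 57167902⟩, ⟨1, 1, 0, 57167902⟩, ⟨2, 2, 0, 11758673⟩]]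

noncomputable def f_pp_113 : ℕ → ℕ → ℕ → ℕ → Bool := onCell 536870912 536870912 536870912 536870912 201326592 134217728
    (rowF 1 false true true .nn 1 1 3 (qsf 536870912 536870912 1610612736 536870912 1) ndF0q1 ndF1q3 pcF1 cut_pp_113 Ext.none)

def k0_pp_113 : ∃ t, chk3 f_pp_113 t 1 1 1 = true :=
  ⟨(b (a (l 3) (l 3)) (a (b (a (b (l 1) (a (l 1) (c (l 259343152295) (l 249142428583)))) (l 3)) (a (b (a (c (l 266322719559) (l 262564306567)) (b (c (l 17295024) (l 17190952)) (l 17270496))) (a (c (l 17405344) (l 17234456)) (b (l 17295936) (l 17321008)))) (b (a (a (a (l 104321752151) (l 105395473335)) (l 107006058231)) (a (l 108616595943) (l 191294942263))) (a (l 17323344) (l 17288632))))) (b (l 3) (a (b (a (l 177872799271) (l 3)) (a (l 17092240) (l 172504120599))) (b (l 3) (a (b (l 419464329415) (l 166598213015)) (b (l 3) (a (b (l 514490274679) (l 16878304)) (b (l 3) (b (l 541870619879) (a (l 16828832) (b (l 556366075975) (a (l 16803336) (b (l 564419120359) (l 6))))))))))))))), by decide +kernel⟩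

theorem c_pp_113 : CertF 536870912 536870912 1610612736 536870912 201326592 134217728 false true true .nn 1 1 3
    ndF0q1 ndF1q3 pcF1 cut_pp_113 Ext.none :=
  certF1 (fam := false) (s1 := true) (s2 := true) (a := 1) (b := 1) (c := 3) (cn := .nn) (n1 := ndF0q1) (n2 := ndF1q3) (pc := pcF1) (cut := cut_pp_113) (xt := Ext.none) (P1 := 536870912) (W1 := 536870912) (P2 := 1610612736) (W2 := 536870912) (P3 := 201326592) (W3 := 134217728)
    rfl (fun _ => rfl) k0_pp_113

noncomputable def cut_pp_123 : Cut := Cut.of [[⟨0, 1, 0, 57167902⟩, ⟨1, 1, 0, 57167902⟩, ⟨2, 2, 0, 11758673⟩]]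

noncomputable def f_pp_123 : ℕ → ℕ → ℕ → ℕ → Bool := onCell 536870912 536870912 1073741824 536870912 201326592 134217728
    (rowF 1 false true true .npn 1 2 3 (qsf 536870912 536870912 1610612736 536870912 2) ndF0q1 ndF1q3 pcF2 cut_pp_123 Ext.none)

def k0_pp_123 : ∃ t, chk3 f_pp_123 t 1 1 1 = true :=
  ⟨(a (b (a (b (b (a (c (l 17540216) (l 17341616)) (l 17397464)) (b (a (l 17455424) (l 17395208)) (b (l 17471384) (a (l 17461488) (l 17390344))))) (b (b (b (l 17508104) (b (l 17417120) (l 17663568))) (l 17395272)) (a (l 17408584) (l 17314928)))) (b (b (a (l 17320760) (l 17218424)) (b (a (l 17308184) (l 17198440)) (b (l 17413944) (a (l 17297032) (l 17184424))))) (b (b (b (l 17462104) (a (l 17340008) (l 17350944))) (l 17316800)) (a (l 17208896) (l 17092128))))) (a (b (b (l 17318952) (l 17278376)) (b (l 17378144) (l 17277288))) (b (b (l 17103256) (l 17231872)) (a (b (l 17153424) (l 2)) (l 2))))) (b (a (b (b (a (l 17104768) (l 16993152)) (b (l 17021808) (b (l 17012856) (l 17006808)))) (b (b (b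 (l 17000208) (b (l 17074952) (l 17173056))) (l 16956936)) (a (l 16981248) (l 16866960)))) (b (b (a (l 16889672) (b (a (l 16829008) (b (a (l 16801832) (b (a (l 16789160) (l 6)) (l 16778296))) (l 16780592))) (l 321149612039))) (b (a (l 16864952) (l 16777464)) (b (l 200890669927) (l 204649164615)))) (b (b (b (l 197669787655) (l 2)) (l 2)) (l 2)))) (a (b (a (b (l 16952984) (l 2)) (l 2)) (l 2)) (l 2)))), by decide +kernel⟩

theorem c_pp_123 : CertF 536870912 536870912 1610612736 536870912 201326592 134217728 false true true .npn 1 2 3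
    ndF0q1 ndF1q3 pcF2 cut_pp_123 Ext.none :=
  certF1 (fam := false) (s1 := true) (s2 := true) (a := 1) (b := 2) (c := 3) (cn := .npn) (n1 := ndF0q1) (n2 := ndF1q3) (pc := pcF2) (cut := cut_pp_123) (xt := Ext.none) (P1 := 536870912) (W1 := 536870912) (P2 := 1610612736) (W2 := 536870912) (P3 := 201326592) (W3 := 134217728)
    rfl (fun _ => rfl) k0_pp_123

noncomputable def f_pp_133 : ℕ → ℕ → ℕ → ℕ → Bool := onCell 536870912 536870912 1610612736 536870912 201326592 134217728
    (rowF 0 false true true .dn 1 3 3 (qsf 536870912 536870912 1610612736 536870912 3) ndF0q1 ndF1q3 pcF3 Cut.none Ext.none)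

def k0_pp_133 : ∃ t, chk3 f_pp_133 t 1 1 1 = true :=
  ⟨(a (b (l 1) (a (b (l 1) (a (b (l 1) (l 410740650247)) (l 1))) (l 1))) (l 1)), by decide +kernel⟩

theorem c_pp_133 : CertF 536870912 536870912 1610612736 536870912 201326592 134217728 false true true .dn 1 3 3
    ndF0q1 ndF1q3 pcF3 Cut.none Ext.none :=
  certF0 (fam := false) (s1 := true) (s2 := true) (a := 1) (b := 3) (c := 3) (cn := .dn) (n1 := ndF0q1) (n2 := ndF1q3) (pc := pcF3) (cut := Cut.none) (xt := Ext.none) (P1 := 536870912) (W1 := 536870912) (P2 := 1610612736) (W2 := 536870912) (P3 := 201326592) (W3 := 134217728)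
    rfl k0_pp_133

noncomputable def f_pp_202_a : ℕ → ℕ → ℕ → ℕ → Bool := onCell 0 536870912 0 536870912 201326592 134217728
    (rowF 0 false true true .pp 2 0 2 (qsf 0 536870912 0 536870912 0) ndF0q2 ndF1q2a pcF0 Cut.none Ext.none)

def k0_pp_202_a : ∃ t, chk3 f_pp_202_a t 1 1 1 = true :=
  ⟨(l 3), by decide +kernel⟩

theorem c_pp_202_a : CertF 0 536870912 0 536870912 201326592 134217728 false true true .pp 2 0 2
    ndF0q2 ndF1q2a pcF0 Cut.none Ext.none :=
  certF0 (fam := false) (s1 := true) (s2 := true) (a := 2) (b := 0) (c := 2) (cn := .pp) (n1 := ndF0q2) (n2 := ndF1q2a) (pc := pcF0) (cut := Cut.none) (xt := Ext.none) (P1 := 0) (W1 := 536870912) (P2 := 0) (W2 := 536870912) (P3 := 201326592) (W3 := 134217728)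
    rfl k0_pp_202_a

noncomputable def f_pp_202_b : ℕ → ℕ → ℕ → ℕ → Bool := onCell 0 536870912 1239849684 370763052 201326592 134217728
    (rowF 0 false true true .pp 2 0 2 (qsf 0 536870912 1239849684 370763052 0) ndF0q2 ndF1q2b pcF0 Cut.none Ext.none)

def k0_pp_202_b : ∃ t, chk3 f_pp_202_b t 1 1 1 = true :=
  ⟨(l 3), by decide +kernel⟩

theorem c_pp_202_b : CertF 0 536870912 1239849684 370763052 201326592 134217728 false true true .pp 2 0 2
    ndF0q2 ndF1q2b pcF0 Cut.none Ext.none :=
  certF0 (fam := false) (s1 := true) (s2 := true) (a := 2) (b := 0) (c := 2) (cn := .pp) (n1 := ndF0q2) (n2 := ndF1q2b) (pc := pcF0) (cut := Cut.none) (xt := Ext.none) (P1 := 0) (W1 := 536870912) (P2 := 1239849684) (W2 := 370763052) (P3 := 201326592) (W3 := 134217728)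
    rfl k0_pp_202_b

noncomputable def f_pp_203 : ℕ → ℕ → ℕ → ℕ → Bool := onCell 0 536870912 0 536870912 201326592 134217728
    (rowF 1 false true true .up 2 0 3 (qsf 0 536870912 1610612736 536870912 0) ndF0q2 ndF1q3 pcF0 Cut.none Ext.none)

def k0_pp_203 : ∃ t, chk3 f_pp_203 t 1 1 1 = true :=
  ⟨(l 3), by decide +kernel⟩

theorem c_pp_203 : CertF 0 536870912 1610612736 536870912 201326592 134217728 false true true .up 2 0 3
    ndF0q2 ndF1q3 pcF0 Cut.none Ext.none :=
  certF1 (fam := false) (s1 := true) (s2 := true) (a := 2) (b := 0) (c := 3) (cn := .up) (n1 := ndF0q2) (n2 := ndF1q3) (pc := pcF0) (cut := Cut.none) (xt := Ext.none) (P1 := 0) (W1 := 536870912) (P2 := 1610612736) (W2 := 536870912) (P3 := 201326592) (W3 := 134217728)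
    rfl (fun _ => rfl) k0_pp_203

noncomputable def cut_pp_213 : Cut := Cut.of [[⟨0, 1, 0, 57167902⟩, ⟨1, 1, 0, 57167902⟩, ⟨2, 2, 0, 11758673⟩]]

noncomputable def f_pp_213 : ℕ → ℕ → ℕ → ℕ → Bool := onCell 0 536870912 1610612736 536870912 201326592 134217728
    (rowF 0 false true true .pnn 2 1 3 (qsf 0 536870912 1610612736 536870912 1) ndF0q2 ndF1q3 pcF1 cut_pp_213 Ext.none)

def k0_pp_213 : ∃ t, chk3 f_pp_213 t 1 1 1 = true :=
  ⟨(b (l 3) (a (l 3) (b (l 3) (a (l 3) (b (l 3) (a (l 3) (b (l 3) (b (l 3) (b (l 3) (l 6)))))))))), by decide +kernel⟩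

theorem c_pp_213 : CertF 0 536870912 1610612736 536870912 201326592 134217728 false true true .pnn 2 1 3
    ndF0q2 ndF1q3 pcF1 cut_pp_213 Ext.none :=
  certF0 (fam := false) (s1 := true) (s2 := true) (a := 2) (b := 1) (c := 3) (cn := .pnn) (n1 := ndF0q2) (n2 := ndF1q3) (pc := pcF1) (cut := cut_pp_213) (xt := Ext.none) (P1 := 0) (W1 := 536870912) (P2 := 1610612736) (W2 := 536870912) (P3 := 201326592) (W3 := 134217728)
    rfl k0_pp_213

noncomputable def f_pm_001 : ℕ → ℕ → ℕ → ℕ → Bool := onCell 0 536870912 536870912 536870912 201326592 134217728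
    (rowF 0 false true false .up 0 0 1 (qsf 0 536870912 536870912 536870912 0) ndF0q0 ndF1q1 pcF0 Cut.none Ext.none)

def k0_pm_001 : ∃ t, chk3 f_pm_001 t 1 1 1 = true :=
  ⟨(l 4), by decide +kernel⟩

theorem c_pm_001 : CertF 0 536870912 536870912 536870912 201326592 134217728 false true false .up 0 0 1
    ndF0q0 ndF1q1 pcF0 Cut.none Ext.none :=
  certF0 (fam := false) (s1 := true) (s2 := false) (a := 0) (b := 0) (c := 1) (cn := .up) (n1 := ndF0q0) (n2 := ndF1q1) (pc := pcF0) (cut := Cut.none) (xt := Ext.none) (P1 := 0) (W1 := 536870912) (P2 := 536870912) (W2 := 536870912) (P3 := 201326592) (W3 := 134217728)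
    rfl k0_pm_001

noncomputable def f_pm_011 : ℕ → ℕ → ℕ → ℕ → Bool := onCell 0 536870912 536870912 536870912 201326592 134217728
    (rowF 0 false true false .pnn 0 1 1 (qsf 0 536870912 536870912 536870912 1) ndF0q0 ndF1q1 pcF1 Cut.none Ext.none)

def k0_pm_011 : ∃ t, chk3 f_pm_011 t 1 1 1 = true :=
  ⟨(l 4), by decide +kernel⟩

theorem c_pm_011 : CertF 0 536870912 536870912 536870912 201326592 134217728 false true false .pnn 0 1 1
    ndF0q0 ndF1q1 pcF1 Cut.none Ext.none :=
  certF0 (fam := false) (s1 := true) (s2 := false) (a := 0) (b := 1) (c := 1) (cn := .pnn) (n1 := ndF0q0) (n2 := ndF1q1) (pc := pcF1) (cut := Cut.none) (xt := Ext.none) (P1 := 0) (W1 := 536870912) (P2 := 536870912) (W2 := 536870912) (P3 := 201326592) (W3 := 134217728)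
    rfl k0_pm_011

noncomputable def cut_pm_012_a : Cut := Cut.of [[⟨0, 0, 0, 67108864⟩, ⟨1, 1, 0, 67108864⟩, ⟨2, 1, 0, 67108864⟩], [⟨0, 0, 1, 67108864⟩, ⟨1, 1, 2, 67108864⟩, ⟨2, 1, 0, 16777216⟩]]

noncomputable def f_pm_012_a : ℕ → ℕ → ℕ → ℕ → Bool := onCell 536870912 536870912 0 536870912 201326592 134217728
    (rowF 2 false true false .pnp 0 1 2 (qsf 0 536870912 0 536870912 1) ndF0q0 ndF1q2a pcF1 cut_pm_012_a Ext.none)

def k0_pm_012_a : ∃ t, chk3 f_pm_012_a t 4 2 1 = true :=
  ⟨(a (l 2) (a (l 2) (b (l 2) (c (l 17325272) (l 17120696))))), by decide +kernel⟩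

def k1_pm_012_a : ∃ t, chk3 f_pm_012_a t 8 3 1 = true :=
  ⟨(b (l 2) (b (a (l 2) (b (c (l 17430568) (l 17171432)) (c (l 17428240) (a (l 17168408) (l 17153288))))) (c (c (b (a (l 17510840) (l 17483184)) (a (b (l 17498384) (l 17488496)) (l 17461264))) (b (a (l 17373240) (l 17344392)) (a (b (l 17362408) (a (l 17362136) (l 17346512))) (a (l 17335128) (l 17319592))))) (b (a (c (l 17241888) (b (l 17119392) (l 17114432))) (c (l 17212016) (b (l 17088680) (l 17083720)))) (a (b (c (a (l 17240432) (l 17225488)) (a (l 17117512) (l 17102696))) (c (a (c (l 17265704) (l 17203568)) (c (l 17250592) (l 17188736))) (a (b (l 17114536) (c (l 17142128) (a (l 17087312) (l 17080200)))) (b (l 17099936) (a (l 17080960) (l 17094688)))))) (c (b (l 17202704) (a (l 17204424) (l 17189304))) (c (b (l 17109944) (a (l 17113744) (l 17098608))) (b (l 17050056) (a (b (l 17055824) (l 17054832)) (l 17039944)))))))))), by decide +kernel⟩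

def k2_pm_012_a : ∃ t, chk3 f_pm_012_a t 9 3 1 = true :=
  ⟨(b (c (b (l 17384016) (a (l 17409736) (l 17396144))) (b (a (l 2) (l 17139288)) (a (l 17156648) (l 17130544)))) (b (c (b (a (l 17411760) (l 17389744)) (a (c (l 17475536) (l 17331904)) (c (l 17448784) (l 17301344)))) (b (a (l 17143440) (l 17110032)) (a (c (l 17194952) (l 17064720)) (a (l 17101848) (c (l 17150616) (l 17014744)))))) (a (c (b (c (l 17453712) (l 17314040)) (c (l 17428856) (b (l 17300768) (l 17292088)))) (b (c (l 17180328) (b (l 17054848) (l 17050392))) (c (b (l 17171272) (a (l 17174016) (l 17158272))) (c (b (l 17077552) (a (l 17082960) (l 17066376))) (b (l 17016704) (a (l 17023824) (l 17006376))))))) (c (b (c (l 17423256) (l 17281616)) (c (l 17397040) (a (l 17272480) (l 17256048)))) (b (c (a (l 17154224) (l 17135208)) (a (l 17023792) (l 17002032))) (a (c (b (l 17145840) (l 17141712)) (b (l 17018776) (c (l 17048352) (l 16987008)))) (b (c (l 17127304) (l 16997272)) (c (l 17123608) (a (l 17001960) (l 16990600)))))))))),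 by decide +kernel⟩

def k3_pm_012_a : ∃ t, chk3 f_pm_012_a t 5 2 1 = true :=
  ⟨(a (b (c (a (l 17230224) (l 17244616)) (a (l 17063592) (l 17060856))) (c (a (l 17329512) (l 17331360)) (a (l 17109840) (b (l 17088776) (l 17094360))))) (b (c (a (l 17255712) (l 17261256)) (a (l 17050128) (l 17025616))) (c (a (l 17328480) (b (l 17309408) (l 17322528))) (a (b (l 17065464) (l 17060352)) (b (l 17025072) (l 17006136)))))), by decide +kernel⟩

def k4_pm_012_a : ∃ t, chk3 f_pm_012_a t 10 3 1 = true :=
  ⟨(b (c (b (a (l 17374816) (l 17363520)) (a (l 17378784) (l 17355432))) (b (a (l 17116096) (l 17083880)) (a (b (l 17104344) (l 17089584)) (b (l 17062864) (l 17040880))))) (b (c (a (b (l 17363136) (c (l 17419624) (l 17265472))) (b (l 17328728) (c (l 17383872) (l 17218312)))) (a (b (l 17068240) (a (c (l 17129384) (l 16989920)) (l 17031592))) (b (b (l 17019936) (l 17003584)) (a (b (l 17005968) (l 16992392)) (l 16856032))))) (a (c (b (c (l 17391056) (l 17242448)) (c (l 17361992) (a (l 17235032) (l 17206544))))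 (b (a (c (l 17112080) (b (l 16977816) (l 16971608))) (b (l 17015232) (l 16900464))) (b (a (c (l 17102240) (l 16967112)) (c (l 17068048) (b (l 16927728) (l 16923920)))) (c (a (l 17097392) (l 16996840)) (a (b (l 16923016) (a (l 16974720) (l 16953152))) (b (c (l 16955784) (l 16885520)) (c (l 16952880) (a (l 16895600) (l 14))))))))) (b (c (c (l 17348936) (a (l 17202272) (l 17169168))) (a (b (l 16978440) (c (l 17040808) (l 16890000))) (b (l 16934920) (c (l 16997760) (l 16838424))))) (c (c (b (l 17320760) (l 17300928)) (b (l 17162144) (a (l 17165792) (l 17124376)))) (a (b (c (l 17027976) (b (l 16880672) (l 16874864))) (a (c (l 17027584) (b (l 16882952) (c (l 16915256) (l 14)))) (c (b (l 17007160) (l 17001072)) (b (l 16834536) (l 14))))) (b (c (l 16960168) (b (l 16825928) (l 14))) (c (b (c (l 17008992) (l 16929400)) (c (l 17001152) (a (l 16936296) (l 14)))) (l 14))))))))), by decide +kernel⟩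

def k5_pm_012_a : ∃ t, chk3 f_pm_012_a t 11 6 1 = true :=
  ⟨(c (b (a (l 17344576) (l 17312168)) (a (l 17321480) (b (l 17284512) (l 17253272)))) (b (a (l 17036264) (l 16922568)) (a (b (l 17003200) (l 16971960)) (b (l 16915288) (l 16871920))))), by decide +kernel⟩

def k6_pm_012_a : ∃ t, chk3 f_pm_012_a t 11 7 1 = true :=
  ⟨(b (c (c (a (b (l 17371768) (l 17334232)) (b (l 17312608) (l 17262224))) (a (b (l 17191096) (l 17152152)) (b (l 17110456) (a (l 17084200) (l 17027128))))) (a (b (b (l 16943336) (l 16922128)) (b (l 16816760) (a (l 16905048) (l 16848736)))) (b (b (l 16833272) (a (l 16838720) (l 16768488))) (a (b (l 16810864) (l 16781656)) (c (l 16820256) (l 16618736)))))) (c (b (a (c (l 17288688) (a (l 17129896) (l 17083152))) (c (a (l 17226440) (l 17174128)) (a (b (l 17042272) (l 17012568)) (b (l 16978120) (l 16922528))))) (a (b (c (l 17250960) (a (l 17097608) (l 17023808))) (c (a (l 17245872) (l 17200432)) (b (a (l 17081240) (l 16962392)) (a (l 17007512) (c (l 17057592) (a (l 16983432)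 (l 14))))))) (a (b (c (l 17179592) (b (l 16989968) (l 16911816))) (c (b (l 17154920) (l 17117224)) (c (a (l 17017440) (a (l 16991840) (l 14))) (l 14)))) (c (b (l 17099256) (c (l 17134936) (b (l 17039472) (a (l 17039312) (l 14))))) (b (b (l 16896232) (l 14)) (l 14)))))) (b (a (a (b (l 16841648) (c (l 16947112) (l 16778112))) (b (l 16739048) (c (l 16887424) (l 16707432)))) (b (a (l 16688160) (l 16644656)) (a (c (l 16795944) (l 16642136)) (c (l 16712400) (l 16642640))))) (a (a (c (b (b (l 16931544) (l 16900312)) (a (c (l 16942584) (l 14)) (b (l 16832448) (l 14)))) (b (b (l 16762248) (l 14)) (l 14))) (b (b (c (l 16868536) (l 16688032)) (l 14)) (l 14))) (c (b (b (a (l 16794440) (l 16707064)) (l 14)) (l 14)) (c (b (a (l 16660504) (l 16659608)) (l 14)) (a (b (l 16653944) (l 14)) (b (l 16653368) (b (l 16685408) (a (l 14) (a (l 14) (a (l 14) (b (l 16670040) (l 16674160)))))))))))))), by decide +kernel⟩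

def k7_pm_012_a : ∃ t, chk3 f_pm_012_a t 6 2 1 = true :=
  ⟨(a (b (c (a (l 17254960) (l 17227656)) (a (l 16977584) (l 16892928))) (c (a (b (l 17288256) (l 17286808)) (b (l 17242352) (l 17222072))) (a (b (l 16957592) (l 16920528)) (b (l 16848712) (l 16788136))))) (b (a (c (b (l 17163392) (l 17171360)) (l 16753608)) (c (b (l 17057312) (l 17049536)) (b (l 16719408) (l 16668736)))) (a (c (b (l 17157560) (c (l 17245424) (l 16979144))) (b (l 16678200) (l 16614712))) (b (c (c (l 17161840) (l 16861256)) (l 16628520)) (c (a (l 16942176) (l 16742712)) (l 16642728)))))), by decide +kernel⟩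

def k8_pm_012_a : ∃ t, chk3 f_pm_012_a t 7 2 1 = true :=
  ⟨(a (b (a (c (b (l 16868656) (l 16776792)) (b (l 16690608) (l 16643160))) (c (b (l 16676232) (a (l 16632952) (l 16617552))) (b (l 16657424) (l 16613472)))) (a (c (b (c (l 16957856) (l 16611696)) (c (a (l 16917744) (l 16754560)) (l 16605496))) (b (l 16606296) (b (l 16586040) (l 16577320)))) (b (c (a (l 16593488) (l 16601144)) (a (l 16586968) (l 16573400))) (c (a (c (l 16567888) (l 16568648)) (b (l 16560936) (l 16553568))) (a (l 16565608) (b (l 16557048) (l 16551008))))))) (b (a (c (b (a (l 16649304) (l 16630536)) (a (l 16601440) (l 16553280))) (b (a (l 16630616) (l 16612168)) (a (l 16589424) (l 16572944)))) (c (b (a (l 16611120) (c (l 16594520) (l 16587296))) (a (c (l 16569296) (l 16565176)) (b (l 16558208) (l 16540560)))) (b (a (l 16593328) (l 16574128)) (a (l 16556128) (b (l 16546272) (l 16531496)))))) (a (b (c (a (c (l 16566752) (l 16565256)) (c (l 16552312) (l 16550688))) (a (l 16559384) (l 16545040))) (c (a (b (l 16548680)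 (c (l 16542080) (l 16542472))) (b (c (l 16535848) (l 16535568)) (c (l 16530568) (l 16530848)))) (a (b (l 16544696) (l 16539840)) (b (l 16532120) (l 16528480))))) (b (c (a (c (b (l 16543272) (l 16530952)) (l 16535704)) (b (c (l 16527144) (l 16525184)) (c (l 16516080) (l 16515160)))) (a (b (l 16535128) (l 16525496)) (b (l 16519800) (l 16511424)))) (c (a (b (c (l 16522640) (l 16522376)) (c (l 16518640) (l 16518968))) (b (c (l 16509096) (l 16509000)) (c (a (l 16509496) (l 16503376)) (l 16506952)))) (a (b (l 16519384) (l 16517072)) (b (l 16506648) (a (l 16508544) (l 16502944))))))))), by decide +kernel⟩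

def k9_pm_012_a : ∃ t, chk3 f_pm_012_a t 12 6 1 = true :=
  ⟨(b (c (a (l 17215200) (c (l 17288240) (l 17046632))) (a (b (l 16875664) (l 16835088)) (b (l 16721152) (l 16662904)))) (c (a (b (l 17211192) (l 17081616)) (b (c (l 17225416) (l 16968536)) (a (l 17070144) (c (l 17126808) (l 16848328))))) (a (b (l 16785536) (l 16726072)) (b (l 16601464) (a (l 16606416) (l 16605520)))))), by decide +kernel⟩

def k10_pm_012_a : ∃ t, chk3 f_pm_012_a t 12 14 1 = true :=
  ⟨(a (c (b (c (l 17223736) (b (l 17008184) (l 16974152))) (c (a (l 17186160) (l 17121016)) (a (l 16958096) (l 16832336)))) (b (b (l 16653472) (l 16635424)) (a (l 16657280) (b (l 16619520) (l 16626936))))) (b (c (c (a (l 17127280) (l 17043024)) (a (l 16865104) (l 16755816))) (a (l 16614040) (l 16612664))) (c (a (c (l 16999032) (l 16646384)) (c (b (l 16969288) (l 16914752)) (l 16647304))) (a (b (l 16619952) (l 16627248)) (b (l 16619512) (l 16627072)))))), by decide +kernel⟩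

def k11_pm_012_a : ∃ t, chk3 f_pm_012_a t 24 15 1 = true :=
  ⟨(b (c (c (a (b (l 17130848) (l 17090760)) (b (l 17057048) (l 16885192))) (b (a (l 16901016) (l 16807984)) (a (b (l 16870960) (l 16850816)) (l 16656872)))) (b (a (l 16635504) (l 16636064)) (a (c (l 16651872) (l 16642936)) (c (l 16651872) (l 16643240))))) (c (b (b (c (a (l 17059696) (l 16849728)) (a (l 16746664) (l 16664088))) (c (a (c (l 17095792) (l 14)) (l 14)) (l 14))) (c (a (c (b (l 17073976) (a (l 17071608) (l 14))) (l 14)) (l 14)) (l 14))) (b (a (c (b (l 16663384) (l 14)) (b (l 16652560) (l 16659680))) (c (b (l 16662952) (l 16671056)) (b (l 16652728) (l 16659784)))) (b (a (c (l 14) (a (l 16667440) (l 16667272))) (c (c (l 14) (a (l 14) (l 16676672))) (a (l 16667320) (l 16667576)))) (b (c (a (l 14) (c (l 14) (a (l 14) (l 16683240)))) (a (c (a (l 14) (l 16676784)) (a (l 16669864) (l 16669792))) (c (a (l 16676688) (l 16676832)) (a (l 16669968) (l 16670384))))) (c (c (l 14) (a (l 14) (a (l 14) (a (l 14) (c (l 14) (l 16686200))))))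 (a (c (a (l 14) (a (l 14) (c (l 14) (l 16679288)))) (a (a (a (l 16674064) (l 16673992)) (l 16679160)) (a (l 16673872) (l 16673896)))) (a (b (c (l 16679904) (l 16673008)) (c (a (l 16687360) (l 16682128)) (l 16680328))) (a (c (l 16686360) (l 16674376)) (c (l 16681264) (l 16674672))))))))))), by decide +kernel⟩

def k12_pm_012_a : ∃ t, chk3 f_pm_012_a t 25 15 1 = true :=
  ⟨(b (c (c (a (b (l 16966952) (b (l 16927520) (l 16837904))) (b (l 16793496) (l 16680472))) (b (a (l 16695320) (l 16644616)) (a (l 16659264) (l 16659264)))) (a (b (l 16636312) (c (l 16651952) (l 16643680))) (b (l 16657432) (c (l 16652264) (l 16644400))))) (b (b (c (c (a (l 16685080) (l 16687080)) (a (l 16671912) (l 16671832))) (a (c (l 16662968) (l 16653352)) (c (l 16663464) (l 16654480)))) (c (c (l 14) (a (l 14) (c (l 14) (l 16678656)))) (a (c (l 16692008) (l 16660536)) (c (a (l 16671568) (l 16672056)) (l 16661936))))) (c (a (l 14) (a (l 14) (a (l 14) (a (l 14) (c (l 14) (a (l 14) (b (l 16691016) (c (l 14) (c (l 14) (l 16705152))))))))))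 (b (a (c (c (a (l 14) (l 16682592)) (a (l 16676776) (l 16677096))) (a (l 16668040) (l 16668712))) (c (a (c (l 16682888) (l 16677616)) (l 16691352)) (a (l 16669576) (l 16670640)))) (a (a (b (c (c (l 14) (l 16683360)) (l 16684624)) (c (c (l 14) (a (c (l 14) (l 16686296)) (a (l 16693248) (l 16688088)))) (c (a (l 16681472) (l 16681744)) (l 16675208)))) (c (b (c (l 16689560) (l 16683720)) (a (c (l 14) (b (l 16687064) (l 16689400))) (c (c (l 14) (l 16693000)) (b (l 16687320) (l 16689672))))) (b (l 16674888) (c (b (l 16681128) (l 16683368)) (l 16676160))))) (c (b (a (c (l 16689896) (l 16684312)) (c (l 16690464) (l 16685136))) (a (a (c (c (l 14) (l 16693216)) (l 16694064)) (c (c (l 16696360) (l 16693504)) (l 16689208))) (a (c (b (l 16693992) (l 16701720)) (l 16689648)) (c (b (l 16694360) (l 16696856)) (l 16690160))))) (a (b (l 16686360) (c (b (l 16682032) (l 16684304)) (l 16677360))) (b (l 16677072) (c (l 16684328) (l 16678792)))))))))), by decide +kernel⟩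

def k13_pm_012_a : ∃ t, chk3 f_pm_012_a t 13 6 1 = true :=
  ⟨(b (a (c (b (l 16945488) (c (l 17140824) (l 16842816))) (b (l 16600432) (l 16596216))) (c (b (a (l 16896760) (l 16759040)) (c (l 16907032) (l 16585416))) (b (l 16588456) (l 16585752)))) (c (a (b (c (l 17072000) (l 16761440)) (a (l 16631528) (c (l 16924480) (l 16598768)))) (a (b (l 16715160) (c (l 16760928) (l 16596576))) (b (l 16583944) (c (l 16621280) (l 16615064))))) (a (b (l 16597384) (b (l 16601376) (l 16605104))) (b (l 16609440) (a (l 16618520) (b (l 16590992) (l 16595120))))))), by decide +kernel⟩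

def k14_pm_012_a : ∃ t, chk3 f_pm_012_a t 13 14 1 = true :=
  ⟨(c (a (b (a (c (l 16937976) (l 16621024)) (c (l 16785320) (l 16609360))) (a (c (l 16651736) (l 16627360)) (c (l 16655752) (l 16647912)))) (b (a (c (l 16618928) (l 16607544)) (c (l 16626336) (l 16605520))) (a (c (b (l 16621808) (l 16634712)) (l 16657928)) (c (b (l 16621464) (l 16634984)) (b (l 16619824) (l 16632224)))))) (a (b (a (l 16610688) (l 16608280)) (a (b (l 16618520) (l 16626672)) (b (l 16617328) (l 16626312)))) (b (a (l 16626520) (b (l 16599576) (l 16605880))) (a (b (l 16616120) (l 16626112)) (b (l 16615136) (c (l 16628512) (l 16623848))))))), by decide +kernel⟩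

def k15_pm_012_a : ∃ t, chk3 f_pm_012_a t 13 30 1 = true :=
  ⟨(c (a (a (c (b (l 16698832) (l 16686368)) (b (l 16644680) (l 16659544))) (c (b (l 16648968) (b (l 16661208) (l 16670424))) (b (l 16644976) (l 16681272)))) (b (a (c (l 16649400) (l 16645456)) (c (l 16671216) (l 16646408))) (a (c (b (l 16661928) (l 16671304)) (a (l 16661392) (l 16662080))) (c (a (l 16667840) (l 16689584)) (a (l 16662856) (l 16663824)))))) (a (a (b (l 16657640) (c (l 16652904) (l 16645496))) (b (c (l 16640016) (l 16634088)) (c (l 16654040) (l 16647104)))) (b (a (c (l 16640672) (l 16635040)) (c (l 16641848) (l 16636568))) (a (c (l 16676568) (l 16649168)) (c (a (l 16657344) (l 16658544)) (l 16672896)))))), by decide +kernel⟩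

def k16_pm_012_a : ∃ t, chk3 f_pm_012_a t 26 62 1 = true :=
  ⟨(c (c (a (b (l 16690048) (l 14)) (b (c (l 16681720) (l 16678480)) (c (l 14) (l 16688504)))) (a (b (l 16672312) (c (l 16683608) (l 16679432))) (b (l 16673384) (a (l 16682712) (l 16683560))))) (a (c (b (l 16664520) (l 16693952)) (b (l 16656176) (l 16664040))) (a (c (l 16691304) (l 16662200)) (c (l 16692424) (l 16663672))))), by decide +kernel⟩

def k17_pm_012_a : ∃ t, chk3 f_pm_012_a t 26 63 2 = true :=
  ⟨(b (c (a (l 14) (c (l 14) (a (l 14) (l 16699672)))) (a (c (a (l 14) (l 16694072)) (a (l 16688856) (l 16689576))) (a (c (l 16694768) (l 16690480)) (c (l 16695648) (l 16691576))))) (a (c (l 14) (b (c (a (l 14) (l 16701888)) (a (l 16696320) (l 16697112))) (b (c (a (l 14) (c (l 14) (l 16704688))) (a (l 16705416) (l 16700992))) (c (a (l 14) (c (l 14) (a (l 14) (l 16707664)))) (a (c (a (l 14) (l 16704336)) (a (l 16701320) (l 16701720))) (c (a (l 16704728) (l 16705184)) (a (l 16702184) (l 16702704)))))))) (c (a (l 14) (a (l 14) (c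 (l 14) (b (l 16708208) (b (l 16712464) (c (l 14) (l 16714240))))))) (b (c (a (l 16702656) (l 16703624)) (a (l 16698112) (l 16699320))) (b (c (a (c (l 16707880) (l 16705552)) (c (l 16708840) (l 16706632))) (a (l 16702040) (l 16703312))) (c (a (c (a (l 14) (l 16710960)) (a (l 16708112) (l 16708616))) (c (a (l 16711464) (l 16712024)) (a (l 16709184) (l 16709800)))) (a (a (l 16704488) (l 16705096)) (c (l 16712392) (l 16704904))))))))), by decide +kernel⟩

def k18_pm_012_a : ∃ t, chk3 f_pm_012_a t 26 63 3 = true :=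
  ⟨(b (a (c (a (l 16692176) (l 16693216)) (a (l 16671920) (l 16673408))) (c (a (l 16704928) (l 16685368)) (a (l 16675072) (l 16676928)))) (a (b (c (a (c (l 16691264) (l 16686184)) (c (l 16692296) (l 16687464))) (a (l 16678504) (l 16680152))) (c (a (c (b (l 16694976) (c (l 16698816) (l 16696176))) (b (l 16689768) (l 16692200))) (a (c (l 16697096) (l 16692040)) (c (l 16697704) (l 16692776)))) (a (c (l 16685728) (l 16680456)) (c (l 16687352) (l 16682336))))) (c (b (a (c (l 16693544) (l 16688944)) (c (l 16694984) (l 16690632))) (a (c (a (l 16698368) (l 16699096)) (l 16693928)) (c (b (l 16698880) (l 16701528)) (l 16695728)))) (a (b (l 16682000) (c (l 16689192) (l 16684440))) (a (l 16696528) (l 16697640)))))), by decide +kernel⟩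

def k19_pm_012_a : ∃ t, chk3 f_pm_012_a t 27 62 1 = true :=
  ⟨(c (a (c (a (c (l 16709024) (l 16705768)) (b (l 16681904) (l 16705480))) (b (l 16695968) (a (l 16684560) (l 16685720)))) (c (a (b (l 16682712) (c (l 16694872) (l 16691784))) (b (l 16683752) (c (l 16696008) (l 16693088)))) (a (b (l 16676928) (l 16687024)) (b (l 16678248) (l 16688584))))) (a (c (a (l 16693672) (l 16695072)) (b (l 16661384) (l 16691248))) (c (a (l 16696616) (b (l 16672408) (l 16682376))) (a (l 16668960) (l 16692072))))), by decide +kernel⟩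

def k20_pm_012_a : ∃ t, chk3 f_pm_012_a t 54 63 2 = true :=
  ⟨(b (c (c (a (l 14) (l 16715624)) (a (l 16700528) (l 16701568))) (a (c (l 16696712) (l 16692848)) (c (l 16697952) (l 16694296)))) (c (c (c (l 14) (a (l 14) (a (l 14) (a (l 14) (b (l 16713432) (l 16724640)))))) (b (a (c (l 16709864) (l 16707848)) (l 16715256)) (b (a (c (l 16714184) (l 16712104)) (c (l 16715328) (l 16713368))) (a (c (a (l 14) (l 16722728)) (a (l 16714792) (l 16715400))) (c (a (l 16718088) (l 16718744)) (a (l 16716064) (l 16716776))))))) (b (a (c (l 16704808) (l 16700736)) (c (l 16706192) (l 16702344))) (a (c (a (c (l 16711216) (l 16709080)) (a (l 16715928) (l 16716288))) (a (l 16705872) (l 16706688))) (a (c (b (l 16710152) (l 16713016)) (l 16707552)) (c (b (l 16710936) (l 16713824)) (l 16708472))))))), by decide +kernel⟩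

def k21_pm_012_a : ∃ t, chk3 f_pm_012_a t 55 63 2 = true :=
  ⟨(b (c (a (c (b (l 16703256) (l 16709032)) (l 16702784)) (c (b (l 16704520) (l 16710384)) (l 16714776))) (a (c (l 16699376) (l 16695928)) (c (l 16701080) (l 16697832)))) (c (b (a (c (c (l 16715824) (l 16714048)) (l 16716608)) (c (a (l 16716064) (l 16716816)) (a (l 16712648) (l 16713512)))) (a (a (c (b (l 16724512) (c (l 14) (l 16723984))) (b (l 16715528) (c (l 16719456) (l 16717552)))) (c (b (l 16719920) (c (b (l 16723136) (l 16724688)) (l 16722064))) (b (l 16716296) (c (l 16720224) (l 16718376))))) (a (c (b (l 16720624) (c (b (l 16723824) (l 16725384)) (l 16722824))) (c (l 16724760) (l 16717752))) (c (b (l 16721416) (c (b (l 16724600) (l 16726176)) (l 16723664))) (c (l 16725648) (l 16718696)))))) (b (a (c (l 16707768) (l 16704152)) (c (l 16709648) (l 16706256))) (a (a (c (b (l 16711776) (l 16714688)) (l 16709448)) (c (b (l 16712664) (l 16715608)) (l 16710464))) (a (c (l 16720336) (l 16711536)) (c (l 16721368) (l 16712688))))))),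 by decide +kernel⟩

def k22_pm_012_a : ∃ t, chk3 f_pm_012_a t 27 63 3 = true :=
  ⟨(a (b (c (a (l 16686960) (l 16688736)) (a (l 16678960) (l 16681168))) (c (a (b (l 16705064) (c (b (l 16700608) (l 16703312)) (l 16697736))) (b (l 16707024) (c (b (l 16702544) (l 16705304)) (l 16699952)))) (a (b (l 16686296) (l 16701872)) (b (l 16688728) (l 16704456))))) (b (c (a (l 16690680) (l 16703384)) (a (l 16683552) (l 16686192))) (b (c (a (l 16698696) (l 16711616)) (a (l 16691344) (l 16694232))) (c (a (c (b (l 16704680) (l 16707512)) (l 16702360)) (a (l 16716688) (l 16718016))) (a (l 16696744) (l 16710288)))))), by decide +kernel⟩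

def k23_pm_012_a : ∃ t, chk3 f_pm_012_a t 14 6 1 = true :=
  ⟨(b (a (c (b (c (l 16703600) (l 16573696)) (c (l 16577368) (l 16572712))) (b (l 16572392) (a (l 16575280) (l 16567632)))) (c (b (a (l 16559944) (c (l 16549872) (l 16550816))) (a (c (l 16559584) (l 16560912)) (c (l 16551584) (l 16552560)))) (a (b (l 16558544) (l 16559488)) (b (l 16548880) (l 16551048))))) (a (b (c (a (l 16599896) (c (l 16571920) (l 16573784))) (a (l 16579576) (l 16573056))) (c (a (c (l 16609680) (l 16611368)) (c (l 16605856) (l 16585880))) (a (b (l 16586152) (l 16590408)) (b (l 16580888) (l 16585688))))) (b (c (a (c (l 16564272) (l 16565760)) (c (l 16578424) (l 16579576))) (a (l 16585872) (b (l 16556184) (l 16561472)))) (c (a (c (l 16579168) (l 16579704)) (c (l 16594984) (l 16574232))) (a (b (l 16574464) (l 16580968)) (c (l 16573352) (l 16571368))))))), by decide +kernel⟩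

def k24_pm_012_a : ∃ t, chk3 f_pm_012_a t 28 14 1 = true :=
  ⟨(c (a (b (c (l 16624480) (l 16603064)) (c (b (l 16620752) (l 16634976)) (b (l 16618824) (l 16632152)))) (b (c (l 16627680) (l 16600584)) (c (b (l 16620128) (l 16635352)) (b (l 16618016) (l 16632504))))) (a (b (b (l 16596064) (l 16603592)) (b (l 16614056) (c (l 16628528) (l 16624120)))) (b (b (l 16592672) (l 16601520)) (b (l 16613328) (l 16648016))))), by decide +kernel⟩

def k25_pm_012_a : ∃ t, chk3 f_pm_012_a t 28 30 1 = true :=
  ⟨(a (c (b (c (a (l 16651032) (l 16651656)) (l 16668272)) (c (a (l 16690448) (l 16670576)) (a (l 16664848) (l 16666072)))) (b (c (l 16643008) (l 16638136)) (c (a (l 16659784) (l 16661184)) (a (l 16654288) (l 16655936))))) (c (b (c (l 16673352) (l 16648824)) (c (b (l 16666648) (l 16677272)) (b (l 16662592) (l 16672872)))) (b (c (l 16644808) (l 16640344)) (c (l 16684216) (l 16658424))))), by decide +kernel⟩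

def k26_pm_012_a : ∃ t, chk3 f_pm_012_a t 56 31 1 = true :=
  ⟨(b (c (c (a (b (l 16684928) (c (l 16697336) (l 16694544))) (b (l 16686400) (l 16708128))) (a (b (l 16679664) (l 16690264)) (b (l 16681312) (l 16692184)))) (c (a (b (l 16674096) (l 16684368)) (l 16702256)) (a (l 16694248) (l 16675592)))) (c (b (c (a (c (a (l 16708640) (l 16709568)) (a (l 16705592) (l 16706576))) (c (l 16721376) (l 16708000))) (a (c (l 16702936) (l 16699864)) (c (l 16705088) (l 16702152)))) (b (c (a (c (a (l 16717680) (l 16718680)) (a (l 16714456) (l 16715536))) (c (l 16720160) (l 16717120))) (a (c (l 16711688) (l 16708480)) (c (l 16714072) (l 16711016)))) (c (b (a (c (a (l 16722312) (l 16723368)) (a (l 16719016) (l 16720136))) (c (l 16724912) (l 16721800))) (a (c (a (c (l 16728912) (l 16724616)) (c (l 16727360) (l 16725720))) (a (c (l 16722936) (l 16721264)) (l 16723256))) (c (c (b (l 16728112) (l 16729744)) (l 16727352)) (c (l 16725768) (l 16724184))))) (a (a (c (l 16722472) (l 16713896)) (c (l 16718440) (l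 16715184))) (c (c (l 16721040) (l 16719472)) (l 16717128)))))) (b (c (a (l 16705680) (l 16697712)) (a (l 16688864) (l 16691720))) (b (c (a (l 16714136) (l 16706432)) (a (l 16697160) (l 16700288))) (a (a (c (l 16719368) (l 16702184)) (c (l 16710304) (l 16703784))) (c (c (l 16714000) (l 16710880)) (l 16706200))))))), by decide +kernel⟩

def k27_pm_012_a : ∃ t, chk3 f_pm_012_a t 57 31 1 = true :=
  ⟨(b (c (c (a (b (l 16687704) (l 16709712)) (b (l 16689040) (l 16711336))) (b (l 16683672) (a (l 16694040) (l 16695960)))) (c (b (l 16678768) (l 16700360)) (b (l 16673672) (l 16684600)))) (c (b (c (c (a (l 16723160) (l 16725016)) (a (l 16709928) (l 16711944))) (b (l 16703864) (a (l 16708784) (l 16711128)))) (b (c (c (a (l 16722160) (l 16724240)) (a (l 16719272) (l 16721520))) (c (a (l 16716392) (l 16718808)) (l 16714824))) (c (b (c (a (l 16727032) (l 16729216)) (a (l 16724080) (l 16726440))) (c (a (c (b (l 16730248) (l 16731912)) (l 16729576)) (c (b (l 16732440) (l 16734144)) (l 16731880))) (a (c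 (l 16728080) (l 16726584)) (c (l 16730472) (l 16729064))))) (c (a (b (l 16721136) (l 16724344)) (b (l 16723672) (l 16726968))) (a (l 16719792) (l 16722552)))))) (b (c (a (l 16700208) (l 16702824)) (a (l 16694584) (l 16697576))) (b (c (c (l 16712032) (l 16709240)) (l 16705064)) (c (c (a (l 16716848) (l 16719800)) (a (l 16713912) (l 16717064))) (a (l 16709528) (l 16712984))))))), by decide +kernel⟩

def k28_pm_012_a : ∃ t, chk3 f_pm_012_a t 29 14 1 = true :=
  ⟨(c (b (a (c (b (l 16592848) (l 16604584)) (l 16618712)) (c (b (l 16589560) (l 16602272)) (b (l 16588784) (l 16600856)))) (a (c (b (l 16618952) (l 16635128)) (b (l 16616864) (l 16632472))) (b (c (l 16617696) (l 16615824)) (c (a (l 16634968) (l 16634976)) (l 16632720))))) (b (a (b (l 16589240) (l 16599400)) (b (l 16586096) (l 16597568))) (a (b (l 16612536) (c (l 16629328) (l 16625696))) (b (l 16622576) (c (l 16630048) (l 16627008)))))), by decide +kernel⟩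

def k29_pm_012_a : ∃ t, chk3 f_pm_012_a t 29 30 1 = true :=
  ⟨(b (c (a (c (a (l 16652928) (l 16653376)) (l 16670960)) (c (a (l 16653888) (l 16654520)) (a (l 16651032) (l 16651928)))) (a (c (l 16646440) (l 16642552)) (c (l 16669504) (l 16645328)))) (b (c (a (c (l 16668328) (l 16664720)) (c (l 16670280) (l 16667232))) (a (l 16679832) (l 16672872))) (c (a (c (l 16700464) (l 16675616)) (c (a (l 16681360) (l 16682744)) (l 16678816))) (a (c (l 16671560) (l 16667344)) (c (l 16675456) (l 16672000)))))), by decide +kernel⟩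

def k30_pm_012_a : ∃ t, chk3 f_pm_012_a t 29 62 1 = true :=
  ⟨(c (a (c (b (a (l 16690440) (l 16691944)) (a (l 16713056) (l 16714856))) (b (l 16697560) (a (l 16697992) (l 16700136)))) (c (b (a (l 16693536) (l 16695216)) (a (c (l 16707224) (l 16705296)) (c (l 16709080) (l 16707344)))) (b (a (l 16689888) (l 16691936)) (a (l 16702392) (l 16704752))))) (a (c (b (l 16682816) (l 16705112)) (b (l 16678456) (l 16690120))) (b (c (l 16697904) (l 16683848)) (c (a (l 16698520) (l 16701296)) (l 16706736))))), by decide +kernel⟩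

def k31_pm_012_a : ∃ t, chk3 f_pm_012_a t 29 63 1 = true :=
  ⟨(b (c (a (c (a (c (l 16724328) (l 16714040)) (c (b (l 16715128) (l 16721792)) (l 16726712))) (a (c (l 16711616) (l 16709200)) (c (l 16713992) (l 16711760)))) (b (c (a (l 16716128) (l 16718296)) (a (l 16712104) (l 16714696))) (c (a (c (l 16723936) (l 16721856)) (c (l 16726128) (l 16724272))) (a (l 16718768) (l 16721512))))) (a (c (a (l 16705560) (l 16708424)) (a (l 16700712) (l 16703992))) (c (a (l 16721896) (l 16725016)) (a (l 16707416) (l 16710992))))) (c (b (a (a (c (c (l 16726384) (l 16723848)) (l 16725312)) (c (c (l 16728600) (l 16726256)) (l 16728016))) (c (a (c (l 16730872) (l 16728744)) (c (l 16738440) (l 16731288))) (a (l 16730824) (c (l 16729408) (l 16727544))))) (c (a (b (c (a (l 16731472) (l 16733792)) (a (l 16728880) (l 16731400))) (c (a (a (l 16736936) (l 16735496)) (a (l 16736688) (l 16737896))) (a (c (l 16732936) (l 16731624)) (c (l 16735480) (l 16734272))))) (b (c (a (l 16736160) (l 16738576)) (a (l 16733984)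 (l 16736640))) (b (c (a (l 16738832) (l 16741296)) (a (l 16736640) (l 16739344))) (c (a (l 16743248) (c (l 16743616) (l 16742632))) (a (l 16738424) (l 16741160)))))) (a (a (c (b (l 16726304) (l 16729672)) (l 16725424)) (c (b (l 16729024) (l 16732472)) (l 16733632))) (b (a (l 16730768) (l 16739024)) (c (a (l 16735360) (l 16743560)) (a (l 16733208) (l 16736416))))))) (b (a (c (a (l 16715064) (l 16718184)) (l 16711888)) (c (a (l 16721424) (l 16724792)) (a (l 16717352) (l 16721184)))) (c (a (a (c (l 16722872) (l 16720336)) (c (l 16726056) (l 16723736))) (a (c (l 16729352) (l 16727256)) (a (l 16730928) (l 16743208)))) (a (a (l 16716576) (l 16720304)) (a (l 16724168) (l 16738672))))))), by decide +kernel⟩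

def k32_pm_012_a : ∃ t, chk3 f_pm_012_a t 15 6 1 = true :=
  ⟨(b (a (c (a (b (c (l 16540112) (l 16540808)) (c (l 16542992) (l 16543760))) (b (c (l 16529840) (l 16530456)) (c (l 16534040) (l 16534760)))) (a (b (l 16538928) (l 16542376)) (b (l 16528888) (l 16533736)))) (c (a (b (c (l 16519272) (l 16519952)) (c (a (l 16527112) (l 16522560)) (l 16525720))) (b (c (a (l 16511200) (l 16505888)) (a (l 16512024) (l 16506840))) (a (c (l 16518048) (l 16519040)) (c (l 16534032) (l 16535200))))) (a (b (l 16518896) (c (l 16525648) (l 16524664))) (b (a (l 16511496) (l 16506704)) (a (l 16519120) (l 16535744)))))) (a (b (b (c (a (c (l 16548552) (l 16549472)) (c (l 16539960) (l 16540896))) (a (l 16548552) (l 16540440))) (c (a (c (l 16555712) (l 16556496)) (c (l 16548912) (l 16549624))) (a (l 16555576) (l 16549016)))) (b (c (a (c (l 16563840) (l 16564200)) (c (l 16558976) (l 16559296))) (a (l 16562944) (l 16558384))) (c (a (c (l 16574280) (l 16574136)) (c (l 16570800) (l 16570696))) (a (l 16572408) (l 16569416)))))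 (a (c (b (c (a (l 16561768) (l 16569280)) (a (l 16562520) (l 16559576))) (c (a (l 16583320) (l 16581864)) (a (l 16562520) (l 16582120)))) (b (b (a (l 16535600) (l 16532776)) (l 16543688)) (a (l 16588008) (b (l 16554128) (l 16567192))))) (c (b (a (c (l 16566264) (l 16556632)) (c (a (l 16553216) (l 16551600)) (l 16553624))) (a (c (b (l 16552344) (l 16566768)) (l 16580976)) (c (b (l 16571896) (l 16566048)) (b (l 16551584) (l 16566432))))) (b (a (b (l 16530064) (l 16540504)) (c (l 16554152) (l 16554208))) (a (c (l 16580992) (l 16580656)) (b (l 16551968) (l 16566600)))))))), by decide +kernel⟩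

def k33_pm_012_a : ∃ t, chk3 f_pm_012_a t 15 14 1 = true :=
  ⟨(a (b (c (a (c (b (l 16586296) (l 16621144)) (b (l 16585608) (l 16598976))) (c (b (l 16605136) (a (l 16599408) (l 16599448))) (b (l 16583616) (l 16598472)))) (a (b (l 16583400) (c (l 16597312) (l 16595192))) (b (l 16581944) (a (l 16596208) (l 16596656))))) (c (a (b (c (a (l 16616872) (l 16616568)) (l 16615216)) (c (a (l 16635104) (l 16635424)) (a (l 16633136) (l 16633712)))) (b (c (a (l 16617040) (l 16617816)) (a (l 16615752) (l 16616664))) (c (a (l 16636600) (l 16648560)) (a (l 16635064) (l 16636720))))) (a (b (c (l 16613336) (l 16611104)) (c (l 16641840) (l 16629016))) (b (a (l 16613352) (l 16614600)) (a (l 16632448) (l 16644976)))))) (b (a (c (b (c (a (l 16583264) (l 16582904)) (l 16598488)) (c (a (l 16599648) (l 16620968)) (a (l 16598872) (l 16599384)))) (b (a (l 16581640) (l 16581752)) (a (l 16597336) (l 16619200)))) (c (c (a (b (l 16603688) (l 16621464)) (b (l 16593168) (l 16611600))) (a (b (l 16582600) (l 16600088))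 (b (l 16582768) (l 16611448)))) (a (b (l 16603080) (l 16599352)) (b (l 16593192) (l 16611192))))) (b (a (c (a (c (l 16618720) (l 16617744)) (c (l 16630240) (l 16639968))) (a (l 16616056) (l 16638696))) (c (a (c (l 16631392) (l 16641376)) (c (l 16635296) (l 16632464))) (a (l 16630096) (l 16634800)))) (a (c (a (c (b (l 16634168) (l 16645088)) (l 16649016)) (c (b (l 16635704) (l 16646944)) (l 16656208))) (a (b (l 16631304) (l 16642088)) (c (l 16650072) (l 16659656)))) (a (c (c (l 16651016) (l 16650448)) (l 16652240)) (l 6)))))), by decide +kernel⟩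

def k34_pm_012_a : ∃ t, chk3 f_pm_012_a t 15 30 1 = true :=
  ⟨(a (b (c (a (c (a (l 16655256) (b (l 16650720) (l 16661584))) (a (l 16652952) (l 16654184))) (a (c (b (l 16652408) (l 16663600)) (l 16666744)) (c (b (l 16654392) (l 16665912)) (b (l 16652896) (l 16664328))))) (a (b (l 16655328) (c (l 16656488) (l 16654024))) (a (c (l 16654408) (l 16652480)) (b (l 16650552) (l 16661912))))) (a (c (c (a (b (l 16671984) (l 16684216)) (b (l 16673352) (l 16685864))) (b (l 16680792) (a (l 16681496) (l 16683528)))) (b (a (l 16665424) (l 16667736)) (a (l 16677320) (l 16679984)))) (c (a (c (b (l 16675688) (l 16688512)) (b (l 16673744) (l 16686472))) (c (b (l 16678320) (l 16691464)) (b (l 16676648) (l 16689712)))) (a (b (l 16670800) (l 16683408)) (b (l 16674160) (l 16687136)))))) (a (b (a (b (c (c (l 16656464) (l 16655224)) (l 16653344)) (c (c (l 16668312) (l 16667008)) (l 16665080))) (l 6)) (l 6)) (l 6))), by decide +kernel⟩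

def k35_pm_012_a : ∃ t, chk3 f_pm_012_a t 15 31 1 = true :=
  ⟨(a (b (b (a (c (c (a (l 16696960) (c (l 16699504) (l 16698272))) (a (l 16694088) (l 16696432))) (a (l 16700232) (l 16701280))) (a (c (c (c (l 16702384) (l 16701312)) (l 16699712)) (c (l 16697592) (l 16695504))) (l 6))) (a (c (b (c (a (l 16706840) (l 16708968)) (a (l 16703856) (l 16706432))) (c (a (l 16713616) (l 16715872)) (a (l 16710552) (l 16713280)))) (a (c (l 16704208) (l 16701224)) (c (l 16712568) (l 16704824)))) (l 6))) (a (b (c (b (c (a (l 16725760) (c (l 16723584) (l 16722248))) (a (l 16717384) (l 16720264))) (a (c (c (l 16728368) (l 16726752)) (l 16724352)) (l 6))) (a (c (b (l 16714296) (l 16721216)) (l 16725200)) (a (b (l 16715408) (l 6)) (l 6)))) (c (a (a (c (b (c (l 16734952) (l 16733240)) (c (b (l 16740408) (c (l 16744536) (l 16743648))) (b (l 16738664) (l 16742328)))) (b (l 16730696) (c (b (l 16736936) (l 16740584)) (l 16742304)))) (b (b (c (l 16733528) (l 16730408)) (l 6)) (l 6))) (l 6)) (a (c (b (l 16728280)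 (a (l 16739792) (l 6))) (b (l 16725168) (c (l 16738360) (l 16731568)))) (l 6)))) (l 6))) (l 6)), by decide +kernel⟩

theorem s36_pm_012_a : ∃ t, chk3 f_pm_012_a t 15 15 1 = true := ex3_b k34_pm_012_a k35_pm_012_a

theorem s37_pm_012_a : ∃ t, chk3 f_pm_012_a t 15 7 1 = true := ex3_b k33_pm_012_a s36_pm_012_a

theorem s38_pm_012_a : ∃ t, chk3 f_pm_012_a t 15 3 1 = true := ex3_b k32_pm_012_a s37_pm_012_a

theorem s39_pm_012_a : ∃ t, chk3 f_pm_012_a t 29 31 1 = true := ex3_b k30_pm_012_a k31_pm_012_a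

theorem s40_pm_012_a : ∃ t, chk3 f_pm_012_a t 29 15 1 = true := ex3_b k29_pm_012_a s39_pm_012_a

theorem s41_pm_012_a : ∃ t, chk3 f_pm_012_a t 29 7 1 = true := ex3_b k28_pm_012_a s40_pm_012_a

theorem s42_pm_012_a : ∃ t, chk3 f_pm_012_a t 28 31 1 = true := ex3_a k26_pm_012_a k27_pm_012_a

theorem s43_pm_012_a : ∃ t, chk3 f_pm_012_a t 28 15 1 = true := ex3_b k25_pm_012_a s42_pm_012_a

theorem s44_pm_012_a : ∃ t, chk3 f_pm_012_a t 28 7 1 = true := ex3_b k24_pm_012_a s43_pm_012_a

theorem s45_pm_012_a : ∃ t, chk3 f_pm_012_a t 14 7 1 = true := ex3_a s44_pm_012_a s41_pm_012_a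

theorem s46_pm_012_a : ∃ t, chk3 f_pm_012_a t 14 3 1 = true := ex3_b k23_pm_012_a s45_pm_012_a

theorem s47_pm_012_a : ∃ t, chk3 f_pm_012_a t 7 3 1 = true := ex3_a s46_pm_012_a s38_pm_012_a

theorem s48_pm_012_a : ∃ t, chk3 f_pm_012_a t 27 63 2 = true := ex3_a k20_pm_012_a k21_pm_012_a

theorem s49_pm_012_a : ∃ t, chk3 f_pm_012_a t 27 63 1 = true := ex3_c s48_pm_012_a k22_pm_012_a

theorem s50_pm_012_a : ∃ t, chk3 f_pm_012_a t 27 31 1 = true := ex3_b k19_pm_012_a s49_pm_012_a

theorem s51_pm_012_a : ∃ t, chk3 f_pm_012_a t 26 63 1 = true := ex3_c k17_pm_012_a k18_pm_012_a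

theorem s52_pm_012_a : ∃ t, chk3 f_pm_012_a t 26 31 1 = true := ex3_b k16_pm_012_a s51_pm_012_a

theorem s53_pm_012_a : ∃ t, chk3 f_pm_012_a t 13 31 1 = true := ex3_a s52_pm_012_a s50_pm_012_a

theorem s54_pm_012_a : ∃ t, chk3 f_pm_012_a t 13 15 1 = true := ex3_b k15_pm_012_a s53_pm_012_a

theorem s55_pm_012_a : ∃ t, chk3 f_pm_012_a t 13 7 1 = true := ex3_b k14_pm_012_a s54_pm_012_a

theorem s56_pm_012_a : ∃ t, chk3 f_pm_012_a t 13 3 1 = true := ex3_b k13_pm_012_a s55_pm_012_a

theorem s57_pm_012_a : ∃ t, chk3 f_pm_012_a t 12 15 1 = true := ex3_a k11_pm_012_a k12_pm_012_a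

theorem s58_pm_012_a : ∃ t, chk3 f_pm_012_a t 12 7 1 = true := ex3_b k10_pm_012_a s57_pm_012_a

theorem s59_pm_012_a : ∃ t, chk3 f_pm_012_a t 12 3 1 = true := ex3_b k9_pm_012_a s58_pm_012_a

theorem s60_pm_012_a : ∃ t, chk3 f_pm_012_a t 6 3 1 = true := ex3_a s59_pm_012_a s56_pm_012_a

theorem s61_pm_012_a : ∃ t, chk3 f_pm_012_a t 3 3 1 = true := ex3_a s60_pm_012_a s47_pm_012_a

theorem s62_pm_012_a : ∃ t, chk3 f_pm_012_a t 3 2 1 = true := ex3_a k7_pm_012_a k8_pm_012_a

theorem s63_pm_012_a : ∃ t, chk3 f_pm_012_a t 3 1 1 = true := ex3_b s62_pm_012_a s61_pm_012_a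

theorem s64_pm_012_a : ∃ t, chk3 f_pm_012_a t 11 3 1 = true := ex3_b k5_pm_012_a k6_pm_012_a

theorem s65_pm_012_a : ∃ t, chk3 f_pm_012_a t 5 3 1 = true := ex3_a k4_pm_012_a s64_pm_012_a

theorem s66_pm_012_a : ∃ t, chk3 f_pm_012_a t 5 1 1 = true := ex3_b k3_pm_012_a s65_pm_012_a

theorem s67_pm_012_a : ∃ t, chk3 f_pm_012_a t 4 3 1 = true := ex3_a k1_pm_012_a k2_pm_012_a

theorem s68_pm_012_a : ∃ t, chk3 f_pm_012_a t 4 1 1 = true := ex3_b k0_pm_012_a s67_pm_012_a

theorem s69_pm_012_a : ∃ t, chk3 f_pm_012_a t 2 1 1 = true := ex3_a s68_pm_012_a s66_pm_012_a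

theorem s70_pm_012_a : ∃ t, chk3 f_pm_012_a t 1 1 1 = true := ex3_a s69_pm_012_a s63_pm_012_a

theorem c_pm_012_a : CertF 0 536870912 0 536870912 201326592 134217728 false true false .pnp 0 1 2
    ndF0q0 ndF1q2a pcF1 cut_pm_012_a Ext.none :=
  certF2 (fam := false) (s1 := true) (s2 := false) (a := 0) (b := 1) (c := 2) (cn := .pnp) (n1 := ndF0q0) (n2 := ndF1q2a) (pc := pcF1) (cut := cut_pm_012_a) (xt := Ext.none) (P1 := 0) (W1 := 536870912) (P2 := 0) (W2 := 536870912) (P3 := 201326592) (W3 := 134217728)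
    rfl (fun _ => rfl) s70_pm_012_a

noncomputable def cut_pm_012_b : Cut := Cut.of [[⟨0, 0, 0, 67108864⟩, ⟨1, 1, 0, 67108864⟩, ⟨2, 1, 0, 67108864⟩], [⟨0, 0, 1, 67108864⟩, ⟨1, 1, 2, 67108864⟩, ⟨2, 1, 0, 16777216⟩]]

noncomputable def f_pm_012_b : ℕ → ℕ → ℕ → ℕ → Bool := onCell 536870912 536870912 1239849684 370763052 201326592 134217728
    (rowF 2 false true false .pnp 0 1 2 (qsf 0 536870912 1239849684 370763052 1) ndF0q0 ndF1q2b pcF1 cut_pm_012_b Ext.none)

def k0_pm_012_b : ∃ t, chk3 f_pm_012_b t 2 1 1 = true :=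
  ⟨(b (a (l 2) (b (b (a (c (a (l 17188528) (l 17201208)) (a (l 17041016) (l 17042832))) (c (a (l 17220824) (l 17238192)) (a (l 17042320) (l 17032056)))) (a (l 2) (c (l 17397256) (a (l 17062160) (l 17062120))))) (a (l 2) (b (c (l 17268576) (l 17091176)) (l 2))))) (l 2)), by decide +kernel⟩

def k1_pm_012_b : ∃ t, chk3 f_pm_012_b t 3 2 1 = true :=
  ⟨(a (b (a (b (c (a (l 17247632) (l 17242136)) (a (l 17003576) (l 16946416))) (c (l 17423656) (a (l 17051584) (l 17021720)))) (b (a (c (l 17210808) (l 16823976)) (c (b (l 17097328) (l 17178152)) (l 16720304))) (c (a (l 17305904) (l 17281984)) (a (l 16961776) (l 16857304))))) (a (b (c (l 17328128) (l 17091008)) (c (l 17338552) (l 17128328))) (b (c (a (l 17371824) (l 17384384)) (a (l 17060120) (l 17004800))) (c (l 17426568) (a (l 17131952) (l 17114320)))))) (b (a (b (a (c (b (l 16939064) (l 17062008)) (b (l 16693816) (l 16644928))) (c (b (l 16678880) (l 16854728)) (b (l 16659072) (l 16610800)))) (a (c (l 17217992) (l 16686520)) (c (b (l 17019328)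 (l 17158656)) (l 16598424)))) (b (b (a (c (a (l 16650152) (l 16630248)) (a (l 16630528) (l 16610920))) (c (a (l 16609568) (c (l 16591896) (l 16584168))) (a (l 16590760) (l 16570168)))) (a (c (l 16585784) (l 16572104)) (c (a (l 16554264) (l 16532488)) (a (l 16541048) (l 16519784))))) (a (c (b (l 16755248) (l 16968416)) (b (l 16522152) (l 16470536))) (c (a (l 16596376) (b (l 16475488) (l 16523856))) (a (l 16486192) (l 16526808)))))) (a (c (b (a (l 17373240) (l 17324872)) (a (l 17472696) (l 17478496))) (b (a (l 16905800) (l 16743144)) (a (l 17068544) (l 16981520)))) (b (a (c (b (l 17143776) (l 17287008)) (l 16486560)) (c (a (l 17082264) (l 16868640)) (a (l 16357864) (l 16356232)))) (a (c (l 17450672) (l 16688008)) (c (c (l 17560392) (l 17179984)) (a (l 16669992) (l 16524464)))))))), by decide +kernel⟩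

def k2_pm_012_b : ∃ t, chk3 f_pm_012_b t 3 3 1 = true :=
  ⟨(a (b (a (l 2) (b (c (l 17437296) (l 17181024)) (c (l 17426568) (l 17212160)))) (l 2)) (b (a (c (b (l 17546336) (l 17566016)) (b (a (l 17179480) (l 17147152)) (a (l 17244320) (l 17251784)))) (c (b (a (l 17592432) (l 17588016)) (a (l 17663088) (l 17709976))) (b (a (l 17077000) (a (l 16988864) (l 16908624))) (a (l 17235272) (l 17184192))))) (a (b (c (l 17544544) (l 17286912)) (l 2)) (c (b (l 17719096) (l 17699296)) (b (a (l 17326848) (l 17328136)) (l 17384944)))))), by decide +kernel⟩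

theorem s3_pm_012_b : ∃ t, chk3 f_pm_012_b t 3 1 1 = true := ex3_b k1_pm_012_b k2_pm_012_b

theorem s4_pm_012_b : ∃ t, chk3 f_pm_012_b t 1 1 1 = true := ex3_a k0_pm_012_b s3_pm_012_b

theorem c_pm_012_b : CertF 0 536870912 1239849684 370763052 201326592 134217728 false true false .pnp 0 1 2
    ndF0q0 ndF1q2b pcF1 cut_pm_012_b Ext.none :=
  certF2 (fam := false) (s1 := true) (s2 := false) (a := 0) (b := 1) (c := 2) (cn := .pnp) (n1 := ndF0q0) (n2 := ndF1q2b) (pc := pcF1) (cut := cut_pm_012_b) (xt := Ext.none) (P1 := 0) (W1 := 536870912) (P2 := 1239849684) (W2 := 370763052) (P3 := 201326592) (W3 := 134217728)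
    rfl (fun _ => rfl) s4_pm_012_b

noncomputable def cut_pm_022_a : Cut := Cut.of [[⟨0, 0, 0, 67108864⟩, ⟨1, 1, 0, 67108864⟩, ⟨2, 1, 0, 67108864⟩]]

noncomputable def f_pm_022_a : ℕ → ℕ → ℕ → ℕ → Bool := onCell 0 536870912 0 536870912 201326592 134217728
    (rowF 0 false true false .pp 0 2 2 (qsf 0 536870912 0 536870912 2) ndF0q0 ndF1q2a pcF2 cut_pm_022_a Ext.none)

def k0_pm_022_a : ∃ t, chk3 f_pm_022_a t 2 2 1 = true :=
  ⟨(a (a (b (a (c (b (l 16577984) (l 16623624)) (b (l 16560184) (l 16562920))) (b (c (l 16544104) (l 16532336)) (c (l 16564304) (l 16530872)))) (b (a (c (c (l 16610632) (l 16592096)) (l 16655104)) (c (c (l 16566584) (l 16551392)) (l 16608704))) (c (a (a (c (l 16616744) (l 16596432)) (c (l 16592920) (l 16574272))) (b (c (l 16553504) (l 16537624)) (c (l 16560648) (l 16565192)))) (a (a (l 16636432) (l 16595712)) (b (l 16562864) (l 16589984)))))) (b (a (c (b (l 16510736) (a (l 16493920) (l 16495944))) (b (l 16505160) (l 16520288))) (b (c (c (l 16449664) (l 16463344)) (l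 16478640)) (c (c (l 16460664) (l 16453088)) (a (l 16475992) (l 16460544))))) (a (b (c (a (l 16538216) (l 16517136)) (b (l 16498768) (l 16521360))) (c (c (b (l 16527736) (l 16533128)) (a (b (l 16505200) (l 16510480)) (l 16527720))) (a (l 16557504) (b (l 16493808) (l 16497640))))) (a (c (b (l 16496080) (c (l 16484240) (l 16484552))) (b (l 16494144) (l 16528512))) (c (b (c (l 16447008) (l 16439648)) (c (l 16487456) (l 16472840))) (b (l 16455520) (b (l 16455312) (l 16457120)))))))) (a (a (a (b (c (b (l 16432344) (l 16439560)) (b (l 16459000) (l 16424136))) (c (b (b (l 16433696) (l 16439640)) (b (l 16465152) (l 16483112))) (b (l 16422080) (l 16467896)))) (b (c (b (l 16415704) (l 16430912)) (b (l 16445736) (l 16429416))) (b (c (l 16457344) (l 16419784)) (l 1)))) (b (b (l 1) (l 1)) (l 1))) (l 1))), by decide +kernel⟩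

def k1_pm_022_a : ∃ t, chk3 f_pm_022_a t 8 6 1 = true :=
  ⟨(a (b (b (c (c (a (l 16610632) (l 16585720)) (l 16661640)) (a (l 16607952) (l 16587032))) (c (a (c (l 16622320) (l 16621624)) (c (l 16596768) (l 16597656))) (a (l 16618688) (l 16597032)))) (a (b (c (c (l 16656840) (l 16655904)) (l 16673976)) (c (c (a (l 16678944) (l 16644664)) (a (l 16656568) (l 16644000))) (c (l 16685304) (l 16688336)))) (c (b (c (l 16630712) (l 16631296)) (c (a (l 16652296) (l 16638928)) (l 16666952))) (b (l 16651608) (c (l 16666784) (l 16645024)))))) (b (c (b (a (l 16583504) (l 16580320)) (a (c (l 16592144) (l 16573624)) (c (l 16566448) (l 16570472)))) (a (b (l 16566064) (l 16575280)) (b (l 16545040) (l 16574408)))) (b (c (a (b (l 16602352) (l 16619448)) (b (l 16576904) (l 16593656))) (a (l 16629104) (a (l 16591208) (l 16558880)))) (c (a (c (a (l 16625520) (l 16612064)) (l 16631096)) (c (l 16599576) (l 16595056))) (a (c (l 16632352) (l 16643464)) (a (l 16604760) (l 16593000))))))), by decide +kernel⟩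

def k2_pm_022_a : ∃ t, chk3 f_pm_022_a t 9 6 1 = true :=
  ⟨(c (b (a (a (b (l 16545592) (c (l 16540600) (l 16525256))) (c (b (l 16506528) (l 16525184)) (l 16533344))) (b (c (a (l 16499520) (l 16499736)) (l 16501296)) (a (c (l 16535680) (l 16517616)) (l 1)))) (a (b (a (c (l 16555128) (l 16556696)) (c (a (l 16554912) (l 16554560)) (l 16559480))) (a (b (c (l 16580120) (l 16554904)) (c (a (l 16598312) (l 16576584)) (l 16593856))) (b (c (a (l 16558256) (l 1)) (l 16573256)) (l 1)))) (b (a (b (c (l 16525144) (l 16517888)) (l 1)) (l 1)) (l 1)))) (b (a (b (a (l 16544928) (l 16502816)) (a (l 16541976) (l 16530416))) (a (b (l 16481608) (l 16508688)) (b (l 16481296) (l 1)))) (a (b (a (l 16562704) (l 16547376)) (a (b (l 16571872) (l 16588832)) (b (l 16566336) (l 1)))) (b (b (l 16540808) (l 1)) (l 1))))), by decide +kernel⟩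

def k3_pm_022_a : ∃ t, chk3 f_pm_022_a t 4 7 1 = true :=
  ⟨(a (b (a (b (c (a (a (c (b (l 16670776) (l 16680240)) (l 16705512)) (c (l 16682912) (l 16682184))) (a (b (l 16664776) (l 16673984)) (b (l 16651552) (l 16660624)))) (a (a (b (l 16666376) (l 16676112)) (c (l 16681088) (l 16679624))) (b (l 16668392) (c (l 16667352) (l 16667032))))) (l 6)) (b (b (c (a (c (l 16630672) (l 16632384)) (c (l 16618536) (l 16615832))) (a (l 16628888) (l 16612632))) (c (a (c (l 16637680) (l 16641224)) (a (c (l 16639056) (l 16636720)) (c (b (l 16612088) (l 16621896)) (l 16635016)))) (a (l 16635240) (a (l 16633832) (l 16631184))))) (a (l 6) (a (l 6) (a (l 6) (l 1)))))) (a (l 6) (a (l 6) (l 1)))) (b (a (a (b (c (b (c (a (l 16617216) (l 16595160)) (a (l 16592568) (l 16590808))) (b (c (l 16610288) (l 16606352)) (l 1))) (b (b (l 16602760) (l 16612352)) (a (l 16628328) (l 1)))) (l 1)) (l 1)) (l 1)) (l 1))), by decide +kernel⟩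

def k4_pm_022_a : ∃ t, chk3 f_pm_022_a t 5 3 1 = true :=
  ⟨(b (l 1) (l 1)), by decide +kernel⟩

def k5_pm_022_a : ∃ t, chk3 f_pm_022_a t 3 1 1 = true :=
  ⟨(l 1), by decide +kernel⟩

theorem s6_pm_022_a : ∃ t, chk3 f_pm_022_a t 4 6 1 = true := ex3_a k1_pm_022_a k2_pm_022_a

theorem s7_pm_022_a : ∃ t, chk3 f_pm_022_a t 4 3 1 = true := ex3_b s6_pm_022_a k3_pm_022_a

theorem s8_pm_022_a : ∃ t, chk3 f_pm_022_a t 2 3 1 = true := ex3_a s7_pm_022_a k4_pm_022_a

theorem s9_pm_022_a : ∃ t, chk3 f_pm_022_a t 2 1 1 = true := ex3_b k0_pm_022_a s8_pm_022_a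

theorem s10_pm_022_a : ∃ t, chk3 f_pm_022_a t 1 1 1 = true := ex3_a s9_pm_022_a k5_pm_022_a

theorem c_pm_022_a : CertF 0 536870912 0 536870912 201326592 134217728 false true false .pp 0 2 2
    ndF0q0 ndF1q2a pcF2 cut_pm_022_a Ext.none :=
  certF0 (fam := false) (s1 := true) (s2 := false) (a := 0) (b := 2) (c := 2) (cn := .pp) (n1 := ndF0q0) (n2 := ndF1q2a) (pc := pcF2) (cut := cut_pm_022_a) (xt := Ext.none) (P1 := 0) (W1 := 536870912) (P2 := 0) (W2 := 536870912) (P3 := 201326592) (W3 := 134217728)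
    rfl s10_pm_022_a

noncomputable def cut_pm_022_b : Cut := Cut.of [[⟨0, 0, 0, 67108864⟩, ⟨1, 1, 0, 67108864⟩, ⟨2, 1, 0, 67108864⟩]]

noncomputable def f_pm_022_b : ℕ → ℕ → ℕ → ℕ → Bool := onCell 1073741824 536870912 1239849684 370763052 201326592 134217728
    (rowF 2 false true false .pp 0 2 2 (qsf 0 536870912 1239849684 370763052 2) ndF0q0 ndF1q2b pcF2 cut_pm_022_b Ext.none)

def k0_pm_022_b : ∃ t, chk3 f_pm_022_b t 2 2 1 = true :=
  ⟨(a (b (b (a (c (a (b (l 16486312) (l 16400344)) (b (c (b (l 16442120) (l 16408472)) (l 16461760)) (l 16430200))) (b (a (b (l 16448632) (l 16439488)) (l 16479120)) (a (l 16388496) (l 16419816)))) (c (a (b (l 16506520) (c (l 16381568) (l 16407240))) (b (l 16538160) (l 16454008))) (a (a (l 16510480) (l 16502080)) (l 16605464)))) (a (c (a (l 16373472) (b (l 16341544) (l 16488864))) (a (b (l 16310120) (l 16267168)) (b (l 16338600) (l 16276592)))) (c (b (a (l 16355272) (c (l 16436312) (l 16375968))) (a (l 16481960) (l 16488096))) (a (b (l 16386520) (l 16305792))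 (l 16426664))))) (a (c (b (a (c (l 17266392) (l 16717104)) (c (l 17234856) (l 16690144))) (a (l 17242240) (l 17400072))) (b (a (l 16273152) (l 16254824)) (a (b (l 16380848) (l 16638632)) (l 16484912)))) (c (b (a (l 16796720) (l 16913160)) (a (l 17376208) (l 17359016))) (b (a (l 16276536) (l 16278768)) (a (l 16466480) (l 16459288)))))) (b (a (b (a (c (b (l 16591432) (l 16466888)) (b (l 16534104) (l 16477480))) (b (c (a (l 109554915159) (l 145525301063)) (l 103112514119)) (c (l 16522432) (l 16505416)))) (c (a (l 16435824) (l 16451856)) (a (l 16412904) (l 16442280)))) (b (a (b (l 1) (c (l 153578331143) (l 131029750103))) (l 1)) (c (a (b (l 16478072) (l 16588256)) (l 163778833079)) (a (l 16494144) (l 142304011383))))) (a (b (c (a (l 16934160) (l 16944120)) (a (l 16317584) (l 16307072))) (c (a (l 17348040) (l 17343288)) (l 16320088))) (b (c (a (l 16964768) (l 16997912)) (l 16441368)) (c (l 17349272) (l 16510832)))))), by decide +kernel⟩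

def k1_pm_022_b : ∃ t, chk3 f_pm_022_b t 2 3 1 = true :=
  ⟨(a (b (a (c (b (c (l 17889032) (l 17504400)) (l 17871064)) (b (a (b (l 16851704) (l 17027480)) (l 16909256)) (a (l 17233296) (l 17201136)))) (c (b (l 17654032) (l 17840040)) (b (a (l 16884800) (l 16869032)) (a (l 17176872) (l 17159200))))) (a (c (b (l 17964992) (l 17997184)) (b (a (l 17422760) (l 17396040)) (l 17524992))) (c (b (l 17950472) (l 18000808)) (b (l 17366840) (l 17496088))))) (b (c (a (b (l 17627736) (l 17818848)) (b (l 17616968) (l 17804768))) (a (b (a (l 16860880) (l 16859792)) (l 17143512)) (b (l 16871008) (l 17139832)))) (a (c (l 17978048) (b (l 17344648) (l 17480704))) (c (l 17974392) (l 17412352))))), by decide +kernel⟩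

def k2_pm_022_b : ∃ t, chk3 f_pm_022_b t 3 1 1 = true :=
  ⟨(a (b (b (l 1) (a (b (a (c (l 194917779687) (l 16456744)) (b (l 1) (l 218003057287))) (c (l 8087551879) (a (l 16573712) (l 16634712)))) (a (c (l 302293022407) (l 271689802983)) (l 1)))) (b (a (c (l 17721304) (b (l 16913784) (l 17156864))) (c (b (l 17671744) (l 17814040)) (b (l 17004696) (l 17202288)))) (a (c (l 17968016) (l 17413600)) (c (l 17966344) (l 17428288))))) (b (l 1) (a (b (c (l 359739635719) (l 304977663223)) (c (l 17974920) (l 17465728))) (b (l 1) (l 790511216663))))), by decide +kernel⟩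

theorem s3_pm_022_b : ∃ t, chk3 f_pm_022_b t 2 1 1 = true := ex3_b k0_pm_022_b k1_pm_022_b

theorem s4_pm_022_b : ∃ t, chk3 f_pm_022_b t 1 1 1 = true := ex3_a s3_pm_022_b k2_pm_022_b

theorem c_pm_022_b : CertF 0 536870912 1239849684 370763052 201326592 134217728 false true false .pp 0 2 2
    ndF0q0 ndF1q2b pcF2 cut_pm_022_b Ext.none :=
  certF2 (fam := false) (s1 := true) (s2 := false) (a := 0) (b := 2) (c := 2) (cn := .pp) (n1 := ndF0q0) (n2 := ndF1q2b) (pc := pcF2) (cut := cut_pm_022_b) (xt := Ext.none) (P1 := 0) (W1 := 536870912) (P2 := 1239849684) (W2 := 370763052) (P3 := 201326592) (W3 := 134217728)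
    rfl (fun _ => rfl) s4_pm_022_b

noncomputable def f_pm_023 : ℕ → ℕ → ℕ → ℕ → Bool := onCell 0 536870912 1073741824 536870912 201326592 134217728
    (rowF 1 false true false .up 0 2 3 (qsf 0 536870912 1610612736 536870912 2) ndF0q0 ndF1q3 pcF2 Cut.none Ext.none)

def k0_pm_023 : ∃ t, chk3 f_pm_023 t 1 1 1 = true :=
  ⟨(a (b (b (l 1) (a (l 1) (b (l 1) (l 285650406119)))) (b (a (b (l 1) (l 313030749271)) (b (l 296924556871) (l 263101893303))) (a (b (l 332894906407) (l 324842205207)) (b (l 17865048) (l 17854112))))) (b (a (a (b (l 1) (l 274912888471)) (b (l 277597556519) (l 285113582855))) (a (b (l 234110750391) (l 17810152)) (b (b (l 219615270695) (l 17781280)) (l 17745152)))) (b (a (b (l 17848648) (l 17842400)) (l 17706872)) (a (l 17777512) (l 17572520))))), by decide +kernel⟩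

theorem c_pm_023 : CertF 0 536870912 1610612736 536870912 201326592 134217728 false true false .up 0 2 3
    ndF0q0 ndF1q3 pcF2 Cut.none Ext.none :=
  certF1 (fam := false) (s1 := true) (s2 := false) (a := 0) (b := 2) (c := 3) (cn := .up) (n1 := ndF0q0) (n2 := ndF1q3) (pc := pcF2) (cut := Cut.none) (xt := Ext.none) (P1 := 0) (W1 := 536870912) (P2 := 1610612736) (W2 := 536870912) (P3 := 201326592) (W3 := 134217728)
    rfl (fun _ => rfl) k0_pm_023

noncomputable def f_pm_033 : ℕ → ℕ → ℕ → ℕ → Bool := onCell 1610612736 536870912 1610612736 536870912 201326592 134217728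
    (rowF 2 false true false .pnn 0 3 3 (qsf 0 536870912 1610612736 536870912 3) ndF0q0 ndF1q3 pcF3 Cut.none Ext.none)

def k0_pm_033 : ∃ t, chk3 f_pm_033 t 1 1 1 = true :=
  ⟨(a (a (b (a (b (l 4) (a (l 17820304) (l 17824296))) (l 4)) (b (a (a (l 17625752) (l 17659104)) (a (l 17672912) (l 17673864))) (a (b (l 17415936) (l 17228144)) (b (l 17501040) (l 17345048))))) (b (l 4) (a (b (l 4) (a (l 17461112) (l 17472800))) (l 4)))) (l 4)), by decide +kernel⟩

theorem c_pm_033 : CertF 0 536870912 1610612736 536870912 201326592 134217728 false true false .pnn 0 3 3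
    ndF0q0 ndF1q3 pcF3 Cut.none Ext.none :=
  certF2 (fam := false) (s1 := true) (s2 := false) (a := 0) (b := 3) (c := 3) (cn := .pnn) (n1 := ndF0q0) (n2 := ndF1q3) (pc := pcF3) (cut := Cut.none) (xt := Ext.none) (P1 := 0) (W1 := 536870912) (P2 := 1610612736) (W2 := 536870912) (P3 := 201326592) (W3 := 134217728)
    rfl (fun _ => rfl) k0_pm_033

noncomputable def f_pm_101 : ℕ → ℕ → ℕ → ℕ → Bool := onCell 0 536870912 536870912 536870912 201326592 134217728
    (rowF 2 false true false .npn 1 0 1 (qsf 536870912 536870912 536870912 536870912 0) ndF0q1 ndF1q1 pcF0 Cut.none Ext.none)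

def k0_pm_101 : ∃ t, chk3 f_pm_101 t 1 1 1 = true :=
  ⟨(a (b (l 4) (a (b (a (b (l 4) (a (l 17650344) (l 4))) (l 4)) (c (a (b (l 17867064) (l 17847624)) (b (l 17826912) (l 17883632))) (b (a (l 17791560) (l 17583392)) (a (l 17594728) (l 17624176))))) (b (l 4) (b (l 4) (a (c (l 17892256) (l 17662384)) (a (l 17898896) (l 4))))))) (l 4)), by decide +kernel⟩

theorem c_pm_101 : CertF 536870912 536870912 536870912 536870912 201326592 134217728 false true false .npn 1 0 1
    ndF0q1 ndF1q1 pcF0 Cut.none Ext.none :=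
  certF2 (fam := false) (s1 := true) (s2 := false) (a := 1) (b := 0) (c := 1) (cn := .npn) (n1 := ndF0q1) (n2 := ndF1q1) (pc := pcF0) (cut := Cut.none) (xt := Ext.none) (P1 := 536870912) (W1 := 536870912) (P2 := 536870912) (W2 := 536870912) (P3 := 201326592) (W3 := 134217728)
    rfl (fun _ => rfl) k0_pm_101

end Pool.Agent.Strip051.G.I3_16_5_16.Tab.C.FB01

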