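import Pool.Agent.Strip051.G.I3_16_5_16.Tab

/-! # Certificates F9 (generated) -/

set_option linter.all false
set_option maxRecDepth 100000

namespace Pool.Agent.Strip051.G.I3_16_5_16.Tab.C.FB01

open Pool.Agent.Strip051.PB Pool.Agent.Strip051.PB.T
open Pool.Agent.Strip051.G.I3_16_5_16.Tab

noncomputable def cut_pm_102_a : Cut := Cut.of [[⟨0, 1, 0, 67108864⟩, ⟨1, 0, 0, 67108864⟩, ⟨2, 1, 0, 67108864⟩]]

noncomputable def f_pm_102_a : ℕ → ℕ → ℕ → ℕ → Bool := onCell 536870912 536870912 0 536870912 201326592 134217728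
    (rowF 0 false true false .npp 1 0 2 (qsf 536870912 536870912 0 536870912 0) ndF0q1 ndF1q2a pcF0 cut_pm_102_a Ext.none)

def k0_pm_102_a : ∃ t, chk3 f_pm_102_a t 2 1 1 = true :=
  ⟨(b (a (a (l 2) (a (l 2) (a (l 2) (b (l 2) (l 249746258935))))) (a (a (b (b (l 16970472) (l 17005672)) (b (l 17042088) (l 17079336))) (b (b (l 16917800) (l 16950384)) (b (a (l 17001896) (l 16973448)) (l 17024728)))) (a (b (b (l 16866888) (l 16896480)) (b (l 16930936) (l 16990208))) (b (l 16918080) (b (l 16878192) (l 16915264)))))) (a (b (a (l 2) (c (l 17272504) (b (l 17157448) (l 17199808)))) (b (a (a (l 2) (c (l 17446096) (l 17316728))) (a (l 17329448) (l 17279176))) (a (c (a (c (l 110160903687) (l 17519456)) (b (l 17482872) (l 17487064))) (a (c (l 17423736) (b (l 17352360) (l 17357400))) (b (l 17346296) (l 17350184)))) (a (c (l 17433592) (b (l 17306552) (l 17310040))) (c (l 17382384) (b (l 17266208) (l 17270224))))))) (b (b (a (a (l 17120960) (l 17067456)) (a (l 16991112) (l 16956688))) (a (c (l 17183968) (l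 17107096)) (a (l 17062824) (l 17008432)))) (b (a (c (l 17250160) (l 17160528)) (a (l 17124416) (l 17071008))) (b (a (c (l 17300656) (a (l 17225272) (l 17182712))) (c (l 17250064) (c (l 17130936) (l 17245448)))) (a (c (l 17304864) (a (l 17230664) (l 17190328))) (c (l 17323848) (a (l 17148728) (l 17107464))))))))), by decide +kernel⟩

def k1_pm_102_a : ∃ t, chk3 f_pm_102_a t 6 2 1 = true :=
  ⟨(a (a (b (l 16908168) (l 16932880)) (b (b (a (l 16829200) (a (l 16809840) (b (c (l 16825760) (l 16807112)) (l 16810944)))) (l 16843024)) (l 16919368))) (b (a (b (a (b (a (c (b (l 149954868023) (l 16829944)) (b (a (l 151565422087) (l 145659837927)) (l 16806072))) (c (l 148344261159) (b (l 3) (l 146196710455)))) (a (l 16809800) (b (a (l 16809280) (c (l 108615759367) (l 110763226231))) (l 16808776)))) (c (b (l 3) (a (b (l 148881131703) (l 109689496167)) (l 145659908759))) (b (l 3) (a (b (l 146733579991) (a (l 16805936) (l 114521330055))) (l 144049218775))))) (c (a (l 16814528) (a (l 16821688) (b (c (l 109152701399)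 (l 111837000295)) (l 16821424)))) (a (l 16812872) (b (a (l 16808480) (b (a (l 16804720) (l 149954807367)) (l 16806112))) (l 16810440))))) (b (l 3) (a (b (c (a (c (l 149418030439) (l 149417962903)) (l 143512417927)) (a (b (l 143512348823) (a (l 112373838743) (l 147807320007))) (l 141901728679))) (c (a (l 16824248) (b (a (l 115058248487) (l 148344245543)) (l 16823632))) (a (l 16805288) (b (a (l 116131936727) (l 145122961047)) (l 16802144))))) (c (b (l 3) (a (b (l 142438664487) (l 148344194551)) (l 3))) (b (l 3) (a (b (l 140291114999) (a (l 119890023031) (l 142438601495))) (l 3))))))) (a (a (l 16884200) (b (l 16831664) (l 16799160))) (b (c (a (l 16810768) (b (a (b (l 112910721799) (l 16814272)) (b (l 146196740007) (a (l 16813112) (l 119353183527)))) (l 16806240))) (a (l 16828944) (c (b (a (l 111836962295) (b (l 144586084375) (l 117205671831))) (l 16802168)) (b (a (b (l 113447572119) (l 16800808)) (b (l 142975467015) (l 116668796967))) (l 16801288))))) (a (l 16806448) (b (l 16803856) (l 16804392))))))),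 by decide +kernel⟩

def k2_pm_102_a : ∃ t, chk3 f_pm_102_a t 7 2 1 = true :=
  ⟨(a (b (l 3) (a (b (a (b (c (a (b (l 3) (l 144049238695)) (l 3)) (a (c (l 142438592951) (l 141364867031)) (l 3))) (c (a (b (c (l 119890084647) (l 120426893975)) (l 16798400)) (b (l 144049215015) (a (l 119353149127) (l 145122948983)))) (a (b (a (l 114521307079) (b (l 142975464007) (l 118279403943))) (l 16795536)) (b (a (l 140291105351) (l 3)) (a (b (l 120963755111) (l 16792032)) (b (l 139217361079) (l 123648106199))))))) (l 3)) (a (b (a (l 16798432) (b (c (l 114521320183) (a (l 16793408) (l 109152589975))) (l 16794760))) (l 16819200)) (b (c (c (a (b (l 145122973239) (l 117742541991)) (b (l 3) (l 142975455703))) (a (b (a (l 123648109095) (l 141364844903)) (l 117742528823)) (b (l 3) (l 142438582103)))) (a (c (b (a (l 122574363895) (l 140827970087)) (l 117205655159)) (b (a (l 122037488167) (l 139754222999)) (a (l 16788656) (l 118279389735)))) (b (l 3) (a (b (l 139217351831) (a (l 115058163239) (l 126869320679))) (l 3)))))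 (c (a (l 16791864) (b (a (l 109689466007) (b (l 127943067703) (l 113447550311))) (l 16788224))) (c (a (l 16791368) (b (a (l 16786728) (l 123111224791)) (l 16786824))) (a (l 16790024) (b (a (l 110226320279) (b (l 125258702711) (l 113984415095))) (l 16785024)))))))) (b (l 3) (a (b (l 3) (a (b (a (c (c (l 140827967191) (l 140291093335)) (c (l 140291089207) (l 139754212967))) (l 3)) (a (b (c (a (l 111836934919) (l 119353128839)) (c (l 121500608503) (l 120426861831))) (c (l 16785152) (l 16781968))) (b (a (c (l 132774899687) (b (l 3) (l 130090537063))) (l 3)) (a (c (b (l 125258707079) (l 16783552)) (c (l 116668767399) (l 116668762519))) (b (l 3) (c (l 127943059751) (a (l 119353117783) (l 129553663879)))))))) (l 3))) (l 3))))) (l 3)), by decide +kernel⟩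

def k3_pm_102_a : ∃ t, chk3 f_pm_102_a t 6 3 1 = true :=
  ⟨(b (a (b (c (l 16955776) (l 16917576)) (a (l 16956784) (l 16907096))) (a (b (l 16820592) (l 16861568)) (b (l 16841136) (l 16861696)))) (b (a (c (l 17016080) (l 16976176)) (a (l 16923288) (b (l 16859424) (l 16894296)))) (b (a (a (l 17075720) (l 17027600)) (a (l 16980176) (l 16933592))) (a (c (l 17180376) (a (l 17068088) (l 17028704))) (c (a (l 17027408) (l 16980312)) (a (l 16989144) (l 16949488))))))), by decide +kernel⟩

def k4_pm_102_a : ∃ t, chk3 f_pm_102_a t 28 6 1 = true :=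
  ⟨(b (a (l 16841080) (b (a (l 16793624) (l 16809992)) (l 16814000))) (l 16882880)), by decide +kernel⟩

def k5_pm_102_a : ∃ t, chk3 f_pm_102_a t 58 12 1 = true :=
  ⟨(b (a (a (c (l 16785848) (l 16784008)) (b (c (c (l 16783824) (l 112373803383)) (a (l 16780968) (c (l 112910668919) (l 112910663463)))) (l 16783248))) (b (a (b (b (a (c (l 130627412455) (a (l 126869308487) (l 3))) (l 3)) (c (c (l 127406187527) (l 126869313623)) (c (l 125795567799) (l 124721820951)))) (c (c (l 115595027607) (l 116131895847)) (a (l 16778320) (c (l 118279374375) (l 120426853159))))) (b (l 3) (b (l 3) (a (c (c (l 129016797463) (l 127943052503)) (c (l 126869306599) (l 125795559735))) (l 3))))) (a (c (l 16781752) (l 16778816)) (b (a (c (c (l 114521282151) (l 115058149431)) (c (l 115595015767) (l 115595013495))) (c (c (l 127406182919) (l 126869308855)) (c (l 125795562951) (a (l 122574333079) (l 140291071879))))) (c (c (l 16780176) (l 16778920)) (c (l 16777184) (l 16774976))))))) (a (l 16786136) (a (l 16803256) (c (l 16780480)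 (l 16778248))))), by decide +kernel⟩

def k6_pm_102_a : ∃ t, chk3 f_pm_102_a t 59 12 1 = true :=
  ⟨(b (a (b (l 3) (a (b (b (l 3) (a (c (c (l 137069857543) (l 137606725095)) (l 138143589319)) (l 3))) (b (a (c (c (l 127406181031) (l 126869306887)) (c (l 125795560951) (l 124721814151))) (l 3)) (a (c (c (l 16778624) (l 16777104)) (c (l 116131882071) (l 116131876631))) (a (c (c (l 128479921463) (l 127406176311)) (b (l 130090524231) (l 123648073431))) (l 3))))) (l 3))) (l 3)) (a (b (a (b (a (c (l 16778200) (l 16774648)) (c (c (l 116668761143) (l 117205628951)) (c (l 117742495943) (l 118816233031)))) (c (l 16778000) (l 16774720))) (b (a (c (c (l 128479919335) (l 127943044983)) (c (l 126869298951) (b (l 139217324679) (l 123111197687)))) (l 3)) (a (c (c (l 16776936) (l 16775400)) (c (l 16773480) (l 16771168))) (c (c (l 121500595735) (l 122037463191)) (c (l 122037459031) (b (l 141364806599) (l 119353099799))))))) (a (l 16777616) (b (c (l 16776048) (l 16772464)) (l 16775312)))) (b (a (b (l 3) (b (l 3)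 (b (l 3) (a (c (c (l 130627399431) (l 130090524839)) (c (l 129016778647) (l 140827933687))) (l 3))))) (l 3)) (a (b (a (c (c (l 119353110455) (l 119353106983)) (b (c (l 123111198887) (l 122037452167)) (l 16770328))) (c (c (l 130090526919) (l 129016781319)) (c (l 128479905975) (b (l 141364802631) (l 142438544727))))) (a (c (l 16774856) (l 16771272)) (c (c (l 116668753079) (l 116131878039)) (c (l 115595002519) (l 116668739095))))) (b (l 3) (b (a (a (c (c (l 129016783815) (l 127943038231)) (c (l 127406162951) (l 142438543543))) (l 3)) (l 3)) (b (a (c (c (l 125258687207) (l 124721812647)) (c (l 123648066599) (l 122574319975))) (l 3)) (a (c (c (l 117205621591) (l 117205617623)) (c (l 116668742215) (l 117742478791))) (c (c (l 133311749383) (l 132238003767)) (c (l 131701128487) (l 140827929063))))))))))), by decide +kernel⟩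

def k7_pm_102_a : ∃ t, chk3 f_pm_102_a t 29 13 1 = true :=
  ⟨(a (b (l 16807864) (l 16789456)) (b (a (b (l 16778232) (l 16780328)) (b (a (c (l 16775352) (l 16772568)) (b (a (c (c (l 16773936) (l 16772416)) (l 16769544)) (c (c (b (l 126869298583) (l 117205620599)) (b (l 126332424071) (l 116668745703))) (c (b (l 125258678071) (l 116131871607)) (b (a (l 120963706631) (l 141901670903)) (l 116668736423))))) (c (l 16773392) (l 16770184)))) (c (l 16775744) (l 16773840)))) (a (l 16783464) (l 16799296)))), by decide +kernel⟩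

def k8_pm_102_a : ∃ t, chk3 f_pm_102_a t 30 12 1 = true :=
  ⟨(l 3), by decide +kernel⟩

def k9_pm_102_a : ∃ t, chk3 f_pm_102_a t 60 26 1 = true :=
  ⟨(a (b (a (b (b (l 3) (a (c (c (l 130090522663) (l 129016777207)) (c (l 128479902103) (l 141901675415))) (l 3))) (a (c (c (b (l 120426846551) (l 16772552)) (b (l 119889972279) (l 16771032))) (b (c (l 119353097447) (l 120426834791)) (l 16768216))) (c (c (c (l 129016780503) (l 129016778871)) (b (l 132238001351) (l 125795550839))) (c (b (l 131164255319) (l 124721805063)) (b (l 141364797911) (a (l 119353089127) (l 126332412599))))))) (b (l 3) (l 3))) (a (a (c (l 16772832) (l 16770008)) (b (c (c (b (l 16771808) (l 16772144)) (l 16770496)) (c (l 16768736) (l 16766712))) (l 16770808))) (b (a (c (c (b (a (l 123648069639) (l 132774874439)) (a (l 16771352) (l 121500585543))) (b (a (l 123648066215) (l 132237999943)) (l 119889970103))) (c (b (l 127943029143) (l 119353095479)) (b (a (l 123648057879) (l 141364796823)) (l 119889962167)))) (a (b (l 3) (c (c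 (l 130627390247) (l 130090515847)) (c (l 129016770071) (l 127943023815)))) (l 3))) (a (c (l 16770952) (l 16767688)) (c (c (b (c (l 123648069127) (l 125795551255)) (l 16770736)) (b (a (l 119353098775) (l 127406160903)) (l 16769240))) (c (b (a (l 118816225159) (l 126332415223)) (l 16767496)) (b (a (l 117742479335) (l 125795540007)) (l 16765520)))))))) (b (l 3) (a (b (l 3) (a (c (c (b (a (l 134385485511) (l 3)) (c (l 129016777063) (l 128479904567))) (b (l 134385481671) (a (l 123111193271) (l 131164256071)))) (c (b (l 133848606711) (a (l 122574318615) (l 130627381255))) (b (l 140827924071) (a (l 123111185335) (l 141901666087))))) (l 3))) (l 3)))), by decide +kernel⟩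

def k10_pm_102_a : ∃ t, chk3 f_pm_102_a t 60 27 1 = true :=
  ⟨(a (b (a (l 16773216) (c (l 16771680) (l 16769136))) (l 16774256)) (b (a (b (a (b (c (c (c (l 120963713767) (l 120426841415)) (a (l 16768816) (l 120963709351))) (c (l 119889965831) (l 118816220103))) (c (l 16769760) (l 16766512))) (c (c (c (b (l 131701130535) (a (l 16770008) (l 125795550311))) (b (l 131164257991) (l 123648065607))) (b (c (l 131164256279) (l 130627383527)) (c (l 123648064023) (l 124184933239)))) (c (b (a (l 127943026423) (l 3)) (a (l 16766344) (l 125795542567))) (b (a (l 127406151303) (l 3)) (a (l 16764376) (l 124721796663)))))) (c (c (l 16770472) (l 16769208)) (c (l 16767712) (l 16765992)))) (b (b (l 3) (b (l 3) (a (a (a (c (c (b (l 136532967223) (l 129553645383)) (l 130627383847)) (c (l 129553638263) (l 129016763239))) (l 3)) (l 3)) (l 3)))) (a (b (c (c (c (a (l 123648066295) (l 131701129287)) (a (l 123648064791) (l 131164256775))) (a (b (l 125795545751) (l 16767528)) (b (l 134922350471) (l 128479902327)))) (c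 (a (l 123111187847) (l 130090508647)) (a (l 122037442071) (l 129016762711)))) (c (a (l 16768688) (b (c (c (l 122574324471) (l 122037452055)) (l 122037450535)) (l 16768240))) (a (l 16765392) (c (l 120963705575) (l 119889959911))))) (b (l 3) (c (a (c (c (l 129016774327) (l 129016772759)) (b (l 131164253719) (l 125258676599))) (a (c (c (l 134922353927) (l 134922352295)) (l 134385478791)) (l 3))) (c (c (l 130090509015) (l 129553636151)) (a (l 126332408071) (l 141901663511)))))))) (a (c (l 16771248) (l 16769120)) (b (a (c (l 16769104) (l 16766144)) (b (c (c (c (a (l 16769120) (l 126332419415)) (a (l 16768400) (l 126332417895))) (a (l 16767256) (c (l 126332416279) (l 125795543671)))) (c (c (l 123648058903) (l 123111186183)) (a (l 16763704) (l 124184924391)))) (c (c (l 16768920) (l 16767496)) (l 16765048)))) (c (l 16769504) (l 16766928)))))), by decide +kernel⟩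

def k11_pm_102_a : ∃ t, chk3 f_pm_102_a t 61 13 1 = true :=
  ⟨(b (l 3) (a (b (l 3) (a (b (a (b (a (b (l 3) (c (a (c (c (l 129553644375) (l 129553642807)) (l 129016769383)) (c (b (l 3) (l 136532966487)) (l 138143574551))) (c (l 130090507415) (l 129553632551)))) (l 3)) (c (a (b (a (c (l 16768184) (l 16766600)) (c (c (l 127406160567) (l 127406158999)) (l 126869285623))) (c (l 16768264) (l 16766720))) (b (c (c (l 134385482039) (l 134385480423)) (l 133848606951)) (a (c (c (l 124721806599) (l 124721804983)) (l 124721803511)) (c (c (l 131164256455) (l 131164254871)) (l 130627381463))))) (c (a (l 123111186343) (b (l 133311732375) (l 127406152695))) (a (l 121500569847) (l 129016761383))))) (l 3)) (a (b (c (a (l 16767872) (b (c (c (l 16768328) (l 16767584)) (l 122037448775)) (l 16767432))) (c (l 120426833255) (l 16763432))) (c (l 16768072) (l 16765096))) (b (c (a (c (c (b (l 131164256183) (l 125795547239)) (l 128479900183)) (c (l 127943027655) (l 127943025959))) (b (l 3) (a (c (c (l 132774868551) (l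 132774866967)) (l 132237993527)) (l 3)))) (c (c (l 130090510103) (l 130090505623)) (a (l 126869277703) (l 142438533127)))) (c (a (c (l 16767968) (l 16766472)) (b (a (c (c (l 124721805671) (l 124721804167)) (l 124184931815)) (c (c (l 130627384727) (l 130627383143)) (l 130090509735))) (c (c (l 16767928) (l 16767184)) (l 16766008)))) (c (a (l 16764856) (l 124721800343)) (a (l 16763104) (l 123111181319))))))) (b (l 3) (a (a (b (l 3) (c (b (c (c (l 139217318999) (l 139754188279)) (l 138143572983)) (a (c (c (l 128479900903) (l 128479899335)) (l 127943025959)) (c (c (l 134922351559) (l 134385479047)) (l 134385476535)))) (c (l 132237989479) (l 131701114775)))) (l 3)) (l 3))))) (l 3))), by decide +kernel⟩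

def k12_pm_102_a : ∃ t, chk3 f_pm_102_a t 31 6 1 = true :=
  ⟨(l 3), by decide +kernel⟩

def k13_pm_102_a : ∃ t, chk3 f_pm_102_a t 14 14 1 = true :=
  ⟨(b (a (l 16817800) (a (l 16794496) (l 16804680))) (a (l 16848464) (a (l 16816544) (l 16797248)))), by decide +kernel⟩

def k14_pm_102_a : ∃ t, chk3 f_pm_102_a t 60 28 1 = true :=
  ⟨(a (l 16799008) (b (c (l 16772048) (l 16770664)) (l 16774312))), by decide +kernel⟩

def k15_pm_102_a : ∃ t, chk3 f_pm_102_a t 122 28 1 = true :=
  ⟨(b (a (b (c (c (l 16768832) (l 16767608)) (l 16768120)) (l 16768176)) (b (a (b (c (c (c (a (l 124721804775) (b (l 133848609447) (l 128479900439))) (a (l 124721803783) (l 130627382487))) (a (b (l 124721802167) (l 16765944)) (c (l 130627380855) (l 130627379175)))) (c (a (l 122574315479) (l 130090508263)) (a (l 121500570119) (l 130090501975)))) (c (c (a (l 16767768) (l 16767256)) (l 16766056)) (c (l 16764496) (l 16762832)))) (b (a (a (b (l 3) (c (c (c (l 136532963671) (l 137606703863)) (l 138680443175)) (c (l 135996085095)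 (l 135996081399)))) (l 3)) (l 3)) (c (a (c (c (b (l 131164254503) (l 125795546087)) (l 129016769447)) (c (l 129016767847) (l 127943024391))) (b (l 3) (a (c (c (l 132237995943) (l 132237994359)) (l 132237991895)) (l 3)))) (c (a (l 128479892759) (l 134385471863)) (a (l 127943018311) (l 134385468183)))))) (a (c (l 16767520) (l 16764816)) (b (c (b (a (l 16766312) (c (c (l 128479899607) (l 127943027143)) (l 127406156455))) (c (l 16767000) (l 16765528))) (a (l 16763336) (c (l 124721796279) (l 123648051031)))) (c (l 16766632) (l 16763728)))))) (a (l 16770400) (c (l 16768728) (l 16766752)))), by decide +kernel⟩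

def k16_pm_102_a : ∃ t, chk3 f_pm_102_a t 123 56 1 = true :=
  ⟨(a (b (l 3) (a (b (a (c (c (c (b (l 137069833639) (l 131164253639)) (l 133311735703)) (b (l 136532958583) (l 131164252279))) (c (l 132774858919) (l 132774855367))) (l 3)) (c (c (c (a (l 125258674535) (b (l 133848607735) (l 128479898759))) (a (l 124721802135) (l 131164251719))) (a (b (l 124721800487) (l 16765160)) (b (l 133848603687) (l 127406153031)))) (c (a (l 123111184791) (l 131164246007)) (l 125795534167)))) (a (a (b (l 3) (b (l 3) (c (c (c (l 137606703751) (l 135996089415)) (l 135996086967)) (c (l 135996083607) (l 135996080167))))) (l 3)) (l 3)))) (l 3)), by decide +kernel⟩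

def k17_pm_102_a : ∃ t, chk3 f_pm_102_a t 123 57 1 = true :=
  ⟨(a (b (a (c (b (c (l 16766696) (l 16765272)) (l 16766520)) (b (l 16765648) (l 16763848))) (b (c (c (c (a (b (l 131701123703) (l 125795544423)) (b (l 3) (l 134385477783))) (a (l 129553638679) (l 135459218023))) (c (a (l 129553637127) (l 135459216391)) (l 132237992375))) (c (a (l 127406149495) (l 135459212231)) (l 132237983943))) (c (a (l 16765672) (c (c (b (l 128479897927) (l 16766360)) (l 127406154871)) (b (l 127406152231) (l 16764536)))) (c (l 124184924743) (l 123648052231))))) (c (l 16769880) (l 16764968))) (b (a (a (b (l 3) (c (c (c (b (l 137606702823) (l 131164252103)) (l 133311734087)) (b (l 137069827847) (l 130627377319))) (c (l 132237986663) (l 131701112487)))) (l 3)) (l 3)) (a (b (c (c (c (a (l 124721802135) (b (l 134385477431) (l 127406156119))) (a (l 16765728) (b (l 133848604999) (l 127406154695)))) (a (l 123648057495) (b (l 133311731783) (l 126332410711)))) (c (a (l 16763240) (l 128479890983)) (l 124721792231))) (c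 (c (l 16766624) (l 16765376)) (l 16763432))) (b (a (a (b (l 3) (b (l 3) (c (c (c (l 134385477495) (l 134385476039)) (l 133848602903)) (l 132774861815)))) (l 3)) (l 3)) (c (a (c (c (b (l 131701123239) (l 16766360)) (b (l 131164250919) (l 16765704))) (b (l 130627377863) (l 16764712))) (b (l 3) (a (c (c (l 132237994119) (l 130627380023)) (l 130090507031)) (c (c (l 138143573879) (l 138143572471)) (l 137069828519))))) (c (a (l 126332408247) (l 134385470951)) (l 130627372183))))))), by decide +kernel⟩

def k18_pm_102_a : ∃ t, chk3 f_pm_102_a t 30 29 1 = true :=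
  ⟨(a (l 16824680) (a (c (l 16796320) (l 16796888)) (b (a (c (l 16770040) (l 16768864)) (b (b (a (l 16765856) (c (a (l 16766072) (b (c (c (l 127943027287) (l 127406155079)) (l 126869282199)) (l 16767040))) (a (l 16763632) (c (l 125258668039) (l 123648052567))))) (c (l 16767296) (l 16765304))) (c (l 16768712) (l 16767272)))) (a (l 16774144) (l 16782008))))), by decide +kernel⟩

def k19_pm_102_a : ∃ t, chk3 f_pm_102_a t 62 28 1 = true :=
  ⟨(l 3), by decide +kernel⟩

def k20_pm_102_a : ∃ t, chk3 f_pm_102_a t 248 58 1 = true :=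
  ⟨(b (a (b (c (a (b (a (c (c (l 135996090391) (l 135459218135)) (l 135459216071)) (l 3)) (a (c (c (l 127406156647) (l 126869284439)) (l 126332412359)) (c (c (l 133848606919) (l 133848605623)) (l 133311732743)))) (b (l 3) (c (c (l 139754186663) (l 139754185319)) (l 139217312359)))) (c (a (l 132774859063) (l 139217309239)) (l 133848597687))) (c (a (c (c (l 16766696) (l 16766136)) (l 16765280)) (b (a (c (c (l 131164252567) (l 130627380423)) (l 130090507623)) (c (c (l 138143574135) (l 138143572871)) (l 137069829095))) (a (c (l 16766232) (l 16765072)) (c (c (l 129553640071) (l 129016767975)) (l 128479895255))))) (c (a (l 16764096) (b (l 133311730327) (l 126332410311))) (a (l 16762864) (l 127943019175))))) (a (a (b (l 3) (b (l 3) (c (c (c (b (l 139217316023) (l 134385478023)) (l 135459218535)) (l 135459216679)) (c (l 134922343239) (l 133848598823))))) (l 3)) (l 3))) (a (b (c (c (l 16767000) (l 16766008)) (l 16764432)) (l 16766640)) (b (c (a (b (a (c (c (l 127943027751) (l 127406155671)) (l 126869283751))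 (c (c (b (l 136532961623) (l 131164252775)) (l 133848606055)) (l 133311734679))) (c (l 16766408) (l 16765344))) (b (a (c (c (l 139754187015) (l 139217314903)) (l 139217313079)) (l 3)) (a (c (c (b (l 133848607271) (l 129016769719)) (l 131701122695)) (b (l 133311733495) (l 127943025639))) (c (c (l 138143574455) (l 137606702391)) (l 137069829735))))) (c (a (b (l 130627376695) (l 16764240)) (b (l 139217310439) (l 133311731223))) (a (l 126332407607) (l 134385470151)))) (a (c (l 16766608) (l 16764664)) (c (b (a (c (l 16766440) (l 16765408)) (c (c (l 130090511319) (l 130090510279)) (l 129553638567))) (l 16766272)) (c (l 126869282423) (l 125258667351))))))), by decide +kernel⟩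

def k21_pm_102_a : ∃ t, chk3 f_pm_102_a t 249 58 1 = true :=
  ⟨(b (l 3) (a (b (l 3) (a (c (b (a (c (c (b (l 139217316343) (l 133848607463)) (l 135459218999)) (b (l 138680442615) (l 133311733847))) (l 3)) (a (c (c (l 128479898919) (l 128479897927)) (l 127943026007)) (c (c (b (l 136532961975) (l 131701124071)) (l 133848606551)) (b (l 135996088391) (l 131164251559))))) (c (b (l 135996085799) (l 130627377623)) (l 132774858535))) (a (b (l 3) (c (c (c (l 139217316455) (l 139217315383)) (l 139217313735)) (c (l 138680440583) (l 138143567335)))) (l 3)))) (l 3))), by decide +kernel⟩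

def k22_pm_102_a : ∃ t, chk3 f_pm_102_a t 124 59 1 = true :=
  ⟨(a (b (c (l 16768360) (l 16767024)) (l 16770088)) (b (a (b (a (c (c (b (l 16766640) (l 16767088)) (l 16765968)) (c (l 16765032) (l 16764040))) (c (b (a (c (c (b (l 134385478567) (l 129016769959)) (l 132237994119)) (b (l 133311734199) (l 128479897111))) (c (c (l 138143574839) (l 137606702903)) (l 137069830423))) (a (l 16766232) (c (c (l 130627382823) (l 130627381895)) (l 130090510119)))) (c (b (l 133311732151) (l 128479895511)) (l 130090505159)))) (c (c (l 16767488) (l 16766744)) (l 16765520))) (b (b (l 3) (a (a (c (c (c (b (l 139217316743) (l 134385478791)) (l 135996090455)) (b (l 138680443319) (l 133311734567))) (c (l 134922345095) (l 133848601143))) (l 3)) (l 3))) (a (c (b (a (c (c (l 128479899335) (l 16766376)) (l 127943026679)) (c (c (b (l 137069833319) (l 131164253847)) (l 134385478023)) (b (l 135996089111) (l 131164252151)))) (c (l 16766912) (l 16766088))) (b (c (l 131164249511) (l 130090505703)) (l 16764768))) (c (b (a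 (c (c (l 140291058711) (l 139754186855)) (l 139217314471)) (l 3)) (a (c (c (l 132237995575) (l 132237994711)) (l 132237993383)) (c (c (l 138680446215) (l 138680445303)) (l 138143572999)))) (c (b (l 139217312311) (l 133848604055)) (l 134922343431)))))) (b (a (l 16767528) (a (c (l 16767256) (l 16765776)) (c (b (a (l 16766576) (c (c (l 130627383239) (l 130090511511)) (l 130090510743))) (l 16766936)) (c (l 127943025911) (l 127406153207))))) (c (l 16768568) (l 16767496))))), by decide +kernel⟩

def k23_pm_102_a : ∃ t, chk3 f_pm_102_a t 125 29 1 = true :=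
  ⟨(b (l 3) (a (b (l 3) (a (b (a (c (b (a (c (c (l 137606704647) (l 137069832871)) (l 136532960647)) (c (c (l 142438542647) (l 141901670839)) (l 141364798551))) (a (c (c (l 16767080) (l 16766696)) (l 16766104)) (c (c (l 135996092199) (l 135459220471)) (l 134922348327)))) (c (b (l 137069829575) (l 131164250535)) (l 133311731879))) (a (a (b (l 3) (b (l 3) (c (c (b (l 142438542519) (l 137606704439)) (l 138680444551)) (l 137069829191)))) (l 3)) (l 3))) (a (c (c (l 16767448) (l 16766776)) (l 16765688)) (a (b (b (c (c (a (l 130627383495) (l 137606704535)) (l 133311735767)) (c (l 133848605831) (l 132774862263))) (l 6)) (l 6)) (l 6)))) (b (l 3) (l 6)))) (l 3))), by decide +kernel⟩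

def k24_pm_102_a : ∃ t, chk3 f_pm_102_a t 63 14 1 = true :=
  ⟨(l 3), by decide +kernel⟩

def k25_pm_102_a : ∃ t, chk3 f_pm_102_a t 7 15 1 = true :=
  ⟨(a (b (a (l 16887128) (a (l 16852344) (l 16829520))) (b (a (l 16960656) (a (l 16883816) (l 16839216))) (a (l 17052440) (c (l 16935568) (l 16877016))))) (a (b (b (a (l 16799184) (a (l 16784728) (l 16777664))) (a (l 16815704) (l 16815160))) (b (a (l 16836032) (a (l 16817424) (l 6))) (a (c (l 16858912) (l 16847368)) (l 6)))) (b (a (a (b (a (l 16773728) (b (l 16775120) (l 6))) (l 6)) (l 6)) (l 6)) (l 6)))), by decide +kernel⟩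

theorem s26_pm_102_a : ∃ t, chk3 f_pm_102_a t 124 58 1 = true := ex3_a k20_pm_102_a k21_pm_102_a

theorem s27_pm_102_a : ∃ t, chk3 f_pm_102_a t 124 29 1 = true := ex3_b s26_pm_102_a k22_pm_102_a

theorem s28_pm_102_a : ∃ t, chk3 f_pm_102_a t 62 29 1 = true := ex3_a s27_pm_102_a k23_pm_102_a

theorem s29_pm_102_a : ∃ t, chk3 f_pm_102_a t 62 14 1 = true := ex3_b k19_pm_102_a s28_pm_102_a

theorem s30_pm_102_a : ∃ t, chk3 f_pm_102_a t 31 14 1 = true := ex3_a s29_pm_102_a k24_pm_102_a

theorem s31_pm_102_a : ∃ t, chk3 f_pm_102_a t 123 28 1 = true := ex3_b k16_pm_102_a k17_pm_102_a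

theorem s32_pm_102_a : ∃ t, chk3 f_pm_102_a t 61 28 1 = true := ex3_a k15_pm_102_a s31_pm_102_a

theorem s33_pm_102_a : ∃ t, chk3 f_pm_102_a t 30 28 1 = true := ex3_a k14_pm_102_a s32_pm_102_a

theorem s34_pm_102_a : ∃ t, chk3 f_pm_102_a t 30 14 1 = true := ex3_b s33_pm_102_a k18_pm_102_a

theorem s35_pm_102_a : ∃ t, chk3 f_pm_102_a t 15 14 1 = true := ex3_a s34_pm_102_a s30_pm_102_a

theorem s36_pm_102_a : ∃ t, chk3 f_pm_102_a t 7 14 1 = true := ex3_a k13_pm_102_a s35_pm_102_a

theorem s37_pm_102_a : ∃ t, chk3 f_pm_102_a t 7 7 1 = true := ex3_b s36_pm_102_a k25_pm_102_a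

theorem s38_pm_102_a : ∃ t, chk3 f_pm_102_a t 60 13 1 = true := ex3_b k9_pm_102_a k10_pm_102_a

theorem s39_pm_102_a : ∃ t, chk3 f_pm_102_a t 30 13 1 = true := ex3_a s38_pm_102_a k11_pm_102_a

theorem s40_pm_102_a : ∃ t, chk3 f_pm_102_a t 30 6 1 = true := ex3_b k8_pm_102_a s39_pm_102_a

theorem s41_pm_102_a : ∃ t, chk3 f_pm_102_a t 15 6 1 = true := ex3_a s40_pm_102_a k12_pm_102_a

theorem s42_pm_102_a : ∃ t, chk3 f_pm_102_a t 29 12 1 = true := ex3_a k5_pm_102_a k6_pm_102_a

theorem s43_pm_102_a : ∃ t, chk3 f_pm_102_a t 29 6 1 = true := ex3_b s42_pm_102_a k7_pm_102_a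

theorem s44_pm_102_a : ∃ t, chk3 f_pm_102_a t 14 6 1 = true := ex3_a k4_pm_102_a s43_pm_102_a

theorem s45_pm_102_a : ∃ t, chk3 f_pm_102_a t 7 6 1 = true := ex3_a s44_pm_102_a s41_pm_102_a

theorem s46_pm_102_a : ∃ t, chk3 f_pm_102_a t 7 3 1 = true := ex3_b s45_pm_102_a s37_pm_102_a

theorem s47_pm_102_a : ∃ t, chk3 f_pm_102_a t 3 3 1 = true := ex3_a k3_pm_102_a s46_pm_102_a

theorem s48_pm_102_a : ∃ t, chk3 f_pm_102_a t 3 2 1 = true := ex3_a k1_pm_102_a k2_pm_102_a

theorem s49_pm_102_a : ∃ t, chk3 f_pm_102_a t 3 1 1 = true := ex3_b s48_pm_102_a s47_pm_102_a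

theorem s50_pm_102_a : ∃ t, chk3 f_pm_102_a t 1 1 1 = true := ex3_a k0_pm_102_a s49_pm_102_a

theorem c_pm_102_a : CertF 536870912 536870912 0 536870912 201326592 134217728 false true false .npp 1 0 2
    ndF0q1 ndF1q2a pcF0 cut_pm_102_a Ext.none :=
  certF0 (fam := false) (s1 := true) (s2 := false) (a := 1) (b := 0) (c := 2) (cn := .npp) (n1 := ndF0q1) (n2 := ndF1q2a) (pc := pcF0) (cut := cut_pm_102_a) (xt := Ext.none) (P1 := 536870912) (W1 := 536870912) (P2 := 0) (W2 := 536870912) (P3 := 201326592) (W3 := 134217728)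
    rfl s50_pm_102_a

noncomputable def cut_pm_102_b : Cut := Cut.of [[⟨0, 1, 0, 67108864⟩, ⟨1, 0, 0, 67108864⟩, ⟨2, 1, 0, 67108864⟩]]

noncomputable def f_pm_102_b : ℕ → ℕ → ℕ → ℕ → Bool := onCell 536870912 536870912 0 536870912 201326592 134217728
    (rowF 1 false true false .npp 1 0 2 (qsf 536870912 536870912 1239849684 370763052 0) ndF0q1 ndF1q2b pcF0 cut_pm_102_b Ext.none)

def k0_pm_102_b : ∃ t, chk3 f_pm_102_b t 1 2 1 = true :=
  ⟨(a (l 1) (a (l 1) (l 3))), by decide +kernel⟩

def k1_pm_102_b : ∃ t, chk3 f_pm_102_b t 2 3 1 = true :=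
  ⟨(b (l 1) (a (l 1) (a (b (l 1) (a (b (l 1) (l 288870520439)) (b (l 348463096359) (l 139620606103)))) (b (a (b (l 1) (l 321082587719)) (b (l 329135607895) (l 126735459063))) (a (c (l 17048016) (l 119756286071)) (l 16996240)))))), by decide +kernel⟩

def k2_pm_102_b : ∃ t, chk3 f_pm_102_b t 3 6 1 = true :=
  ⟨(a (b (a (l 1) (l 3)) (a (b (a (l 1) (b (l 1) (a (l 1) (b (l 1) (a (l 1) (c (l 67679346631) (l 64994988951))))))) (b (a (l 1) (a (l 164316163143) (b (a (l 16799976) (c (l 16831704) (l 16805912))) (c (l 16835344) (l 16811856))))) (a (l 219077176519) (a (b (l 16824864) (l 16814536)) (c (l 16856056) (l 16826528)))))) (a (a (b (b (l 3) (a (a (b (l 1) (c (l 148344254359) (a (l 147270448391) (l 3)))) (l 3)) (l 3))) (a (b (b (a (c (l 152102378199) (l 145122985639)) (l 3)) (c (a (l 139754330119) (l 142438749975)) (l 144586137527))) (c (c (l 151565619655) (l 155860528103)) (b (l 149417996871) (l 151565541079)))) (a (b (l 3) (b (l 3) (c (l 140828217511) (l 151565512759)))) (l 3)))) (l 3)) (l 3))))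 (l 3)), by decide +kernel⟩

def k3_pm_102_b : ∃ t, chk3 f_pm_102_b t 3 7 1 = true :=
  ⟨(a (a (a (b (b (a (l 16888144) (l 15066142071)) (l 16910520)) (b (l 16897976) (l 16939840))) (b (b (a (c (l 16855664) (l 16838744)) (c (l 16877952) (l 16858792))) (b (l 16921296) (l 16906576))) (b (l 16965728) (l 17008936)))) (b (a (a (b (a (b (c (b (l 16909624) (l 16924352)) (l 16881896)) (c (l 16946208) (l 16888960))) (b (a (c (b (l 149955042999) (l 158545010919)) (b (l 145123088055) (l 149418144647))) (c (b (l 3) (l 152639458807)) (l 156934294919))) (a (c (c (l 16980008) (l 16945912)) (l 16899160)) (c (b (l 147807650727) (l 156934488535)) (b (l 144586289463) (l 148344480183)))))) (c (b (c (l 17002216) (l 16969608)) (l 17012584)) (b (a (l 16918016) (l 16932520)) (l 16954248)))) (b (a (b (l 3) (b (l 3) (c (l 175188126807) (l 180556689575)))) (l 3)) (a (b (b (c (l 141902159255) (l 139217661015)) (c (l 147270896455) (l 144049530359))) (c (l 153713393863) (l 145123397799))) (b (l 3) (c (l 213306096903) (l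 211695335959)))))) (l 3)) (c (a (b (a (l 17048592) (b (l 151565971255) (l 156397855191))) (a (l 17086816) (l 17124696))) (a (b (l 242297247479) (l 145123680599)) (l 3))) (a (a (b (l 16994336) (l 17039072)) (b (b (l 148344612199) (l 17057864)) (l 17068952))) (a (b (l 240149613639) (l 142439199095)) (l 3)))))) (l 3)), by decide +kernel⟩

theorem s4_pm_102_b : ∃ t, chk3 f_pm_102_b t 3 3 1 = true := ex3_b k2_pm_102_b k3_pm_102_b

theorem s5_pm_102_b : ∃ t, chk3 f_pm_102_b t 1 3 1 = true := ex3_a k1_pm_102_b s4_pm_102_b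

theorem s6_pm_102_b : ∃ t, chk3 f_pm_102_b t 1 1 1 = true := ex3_b k0_pm_102_b s5_pm_102_b

theorem c_pm_102_b : CertF 536870912 536870912 1239849684 370763052 201326592 134217728 false true false .npp 1 0 2
    ndF0q1 ndF1q2b pcF0 cut_pm_102_b Ext.none :=
  certF1 (fam := false) (s1 := true) (s2 := false) (a := 1) (b := 0) (c := 2) (cn := .npp) (n1 := ndF0q1) (n2 := ndF1q2b) (pc := pcF0) (cut := cut_pm_102_b) (xt := Ext.none) (P1 := 536870912) (W1 := 536870912) (P2 := 1239849684) (W2 := 370763052) (P3 := 201326592) (W3 := 134217728)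
    rfl (fun _ => rfl) s6_pm_102_b

noncomputable def f_pm_112_a : ℕ → ℕ → ℕ → ℕ → Bool := onCell 536870912 536870912 0 536870912 201326592 134217728
    (rowF 0 false true false .dn 1 1 2 (qsf 536870912 536870912 0 536870912 1) ndF0q1 ndF1q2a pcF1 Cut.none Ext.none)

def k0_pm_112_a : ∃ t, chk3 f_pm_112_a t 1 1 1 = true :=
  ⟨(a (b (a (b (b (a (c (a (l 17202128) (l 17191696)) (a (l 17049096) (l 17047216))) (a (l 17134952) (l 17109256))) (a (c (l 17250352) (l 17079712)) (c (a (l 17233336) (l 17230248)) (a (l 17078672) (l 17081480))))) (a (c (a (l 17326776) (l 17321792)) (a (l 17118480) (l 17126312))) (c (b (l 17286112) (l 17343344)) (b (l 17136640) (l 17152104))))) (a (b (a (c (l 17214352) (l 17166992)) (b (l 1) (l 1))) (a (b (c (l 17282560) (l 17122440)) (l 29562370935)) (l 1))) (l 1))) (a (b (a (c (b (l 17386648) (l 17419312)) (b (a (l 17149416) (l 17164568)) (a (l 17163792) (l 17184136)))) (c (b (l 17394184) (l 17440560)) (b (l 17183328) (a (l 17202160) (l 17219352))))) (a (b (c (b (l 17439128)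 (a (l 17440096) (l 17461792))) (c (a (l 17257808) (l 17261360)) (b (l 17123248) (a (l 17113400) (l 17141624))))) (a (c (b (c (l 17512544) (l 17375040)) (c (l 17514704) (b (l 17377888) (c (l 17413496) (l 17347560))))) (b (c (l 17243752) (b (l 17116920) (l 17120632))) (b (c (l 2181971399) (a (l 17117976) (l 17132456))) (a (c (c (l 17275840) (l 17213504)) (b (l 17121888) (c (l 22582863767) (a (l 17092048) (l 1))))) (l 1))))) (a (b (c (l 17463256) (l 124051430023)) (l 1)) (l 1)))) (a (b (c (l 17472984) (l 73048854087)) (l 1)) (l 1)))) (b (l 1) (l 1)))) (l 1)), by decide +kernel⟩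

theorem c_pm_112_a : CertF 536870912 536870912 0 536870912 201326592 134217728 false true false .dn 1 1 2
    ndF0q1 ndF1q2a pcF1 Cut.none Ext.none :=
  certF0 (fam := false) (s1 := true) (s2 := false) (a := 1) (b := 1) (c := 2) (cn := .dn) (n1 := ndF0q1) (n2 := ndF1q2a) (pc := pcF1) (cut := Cut.none) (xt := Ext.none) (P1 := 536870912) (W1 := 536870912) (P2 := 0) (W2 := 536870912) (P3 := 201326592) (W3 := 134217728)
    rfl k0_pm_112_a

noncomputable def f_pm_112_b : ℕ → ℕ → ℕ → ℕ → Bool := onCell 536870912 536870912 536870912 536870912 201326592 134217728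
    (rowF 1 false true false .dn 1 1 2 (qsf 536870912 536870912 1239849684 370763052 1) ndF0q1 ndF1q2b pcF1 Cut.none Ext.none)

def k0_pm_112_b : ∃ t, chk3 f_pm_112_b t 1 1 1 = true :=
  ⟨(b (a (b (a (a (b (l 1) (a (b (l 1) (l 141231451911)) (b (l 144452638503) (l 128883265959)))) (b (b (a (l 1) (l 149821167367)) (a (l 144452428023) (l 130493870375))) (c (b (l 140157670391) (l 17188704)) (a (l 115461426007) (l 17051080))))) (b (b (a (a (l 132104489863) (l 17083336)) (c (l 17138232) (l 17053776))) (a (a (l 17096632) (l 17105888)) (l 17123760))) (a (c (l 17193896) (l 17076888)) (c (l 17203616) (l 17118856))))) (a (a (b (c (a (l 131567796951) (l 17205592)) (a (l 103113414135) (l 17052280))) (c (l 17260368) (a (l 17070144) (l 17089800)))) (b (c (l 17226976) (l 17080544)) (l 17204440))) (a (b (l 17224640) (l 17230064)) (b (l 17203384) (l 17238152))))) (b (a (b (b (c (a (l 17155632) (a (l 17175888) (l 146734366727))) (a (l 17117856) (a (l 17153272) (l 136533772039)))) (a (l 17160360) (a (l 17189240)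 (a (l 17184536) (l 145123815559))))) (a (l 17270112) (a (l 17207416) (c (l 17382448) (l 149955736919))))) (a (b (l 3) (a (b (l 306185062247) (l 163377467847)) (l 3))) (l 3))) (a (b (a (l 17208824) (l 17364168)) (a (l 17223744) (l 17185608))) (a (b (a (l 336720015799) (l 2)) (l 2)) (l 2))))) (a (b (a (a (b (c (l 17335936) (l 17130992)) (c (l 17430144) (l 17200240))) (b (l 17258288) (l 17316480))) (a (b (l 17272816) (l 17309984)) (b (l 17262704) (l 17277104)))) (a (a (c (l 17608472) (b (l 17288976) (l 17393552))) (b (l 17381936) (l 17462368))) (a (b (l 17343080) (l 2)) (l 2)))) (a (b (b (l 225051010471) (l 2)) (l 2)) (l 2)))), by decide +kernel⟩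

theorem c_pm_112_b : CertF 536870912 536870912 1239849684 370763052 201326592 134217728 false true false .dn 1 1 2
    ndF0q1 ndF1q2b pcF1 Cut.none Ext.none :=
  certF1 (fam := false) (s1 := true) (s2 := false) (a := 1) (b := 1) (c := 2) (cn := .dn) (n1 := ndF0q1) (n2 := ndF1q2b) (pc := pcF1) (cut := Cut.none) (xt := Ext.none) (P1 := 536870912) (W1 := 536870912) (P2 := 1239849684) (W2 := 370763052) (P3 := 201326592) (W3 := 134217728)
    rfl (fun _ => rfl) k0_pm_112_b

noncomputable def cut_pm_113 : Cut := Cut.of [[⟨0, 1, 0, 57167902⟩, ⟨1, 1, 0, 57167902⟩, ⟨2, 2, 0, 11758673⟩]]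

noncomputable def f_pm_113 : ℕ → ℕ → ℕ → ℕ → Bool := onCell 536870912 536870912 536870912 536870912 201326592 134217728
    (rowF 1 false true false .nn 1 1 3 (qsf 536870912 536870912 1610612736 536870912 1) ndF0q1 ndF1q3 pcF1 cut_pm_113 Ext.none)

def k0_pm_113 : ∃ t, chk3 f_pm_113 t 1 1 1 = true :=
  ⟨(b (a (b (l 1) (a (l 1) (b (l 1) (l 216393862183)))) (b (a (a (l 1) (b (l 1) (a (l 1) (l 181496935559)))) (a (b (l 3) (a (b (l 293837084039) (l 168209294247)) (l 3))) (l 3))) (a (a (l 137473946535) (b (a (l 17209784) (l 17218704)) (l 17192048))) (a (b (a (b (l 174114991287) (l 17220384)) (l 3)) (b (l 166061904391) (l 127944160199))) (l 3))))) (a (b (a (b (l 1) (a (l 1) (l 17257080))) (b (l 135326406903) (l 92376331159))) (a (a (c (l 17550424) (l 185792097303)) (b (l 17334184) (l 17426160))) (a (b (l 17293360) (l 17335256)) (l 17242800)))) (b (a (a (l 17221064) (l 17350088)) (a (b (l 17307544) (l 17042824)) (a (b (l 251423999783) (l 215453746455)) (l 3)))) (a (a (l 17155240) (l 17103440)) (a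 (c (l 17141536) (l 17194824)) (a (b (l 16989624) (l 16895976)) (b (a (l 279341127431) (l 3)) (a (a (l 16868600) (l 16899256)) (a (b (l 16882016) (l 16830992)) (a (b (l 3) (b (l 16829328) (l 16793776))) (b (l 3) (c (b (l 3) (b (l 350207636663) (a (l 16785696) (l 6)))) (b (l 3) (b (l 342154573111) (a (l 16785376) (l 6)))))))))))))))), by decide +kernel⟩

theorem c_pm_113 : CertF 536870912 536870912 1610612736 536870912 201326592 134217728 false true false .nn 1 1 3
    ndF0q1 ndF1q3 pcF1 cut_pm_113 Ext.none :=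
  certF1 (fam := false) (s1 := true) (s2 := false) (a := 1) (b := 1) (c := 3) (cn := .nn) (n1 := ndF0q1) (n2 := ndF1q3) (pc := pcF1) (cut := cut_pm_113) (xt := Ext.none) (P1 := 536870912) (W1 := 536870912) (P2 := 1610612736) (W2 := 536870912) (P3 := 201326592) (W3 := 134217728)
    rfl (fun _ => rfl) k0_pm_113

noncomputable def cut_pm_123 : Cut := Cut.of [[⟨0, 1, 0, 57167902⟩, ⟨1, 1, 0, 57167902⟩, ⟨2, 2, 0, 11758673⟩]]

noncomputable def f_pm_123 : ℕ → ℕ → ℕ → ℕ → Bool := onCell 536870912 536870912 1073741824 536870912 201326592 134217728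
    (rowF 1 false true false .npn 1 2 3 (qsf 536870912 536870912 1610612736 536870912 2) ndF0q1 ndF1q3 pcF2 cut_pm_123 Ext.none)

def k0_pm_123 : ∃ t, chk3 f_pm_123 t 1 1 1 = true :=
  ⟨(a (b (a (b (b (a (l 17758488) (l 17685344)) (b (l 17899664) (a (l 17707904) (l 17607792)))) (b (a (l 17776264) (b (l 17576544) (l 17539696))) (l 17552096))) (b (b (a (l 17575272) (l 17433136)) (b (l 17446096) (b (l 17417296) (l 17397104)))) (b (b (b (l 17376248) (a (l 17434008) (l 17277144))) (l 17314440)) (a (l 17329680) (l 17156160))))) (a (b (a (l 17520816) (l 17589000)) (b (a (l 17416040) (l 17231744)) (l 17228232))) (b (b (a (l 17233192) (l 17040360)) (a (l 17115544) (l 16876952))) (a (b (l 16996088) (l 2)) (l 2))))) (b (a (b (b (l 16997488) (b (l 17126040) (b (l 17095920) (a (l 17160048) (l 16997648))))) (b (b (b (a (l 17137488) (l 16974736)) (a (l 17111744) (b (l 16953920) (l 16938992)))) (l 176195217895)) (b (l 211091672455) (l 479527083879)))) (b (a (b (l 16924672) (b (l 16880232) (b (l 16843856) (l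 16900232)))) (b (a (l 16890648) (b (b (b (a (l 16822792) (a (l 16796544) (l 6))) (a (l 16810192) (l 714675886199))) (a (l 16790736) (l 904191257303))) (a (l 927276902967) (l 2)))) (b (a (l 16754784) (l 2)) (l 2)))) (a (b (b (b (l 16912824) (l 2)) (l 2)) (l 2)) (l 2)))) (a (b (a (b (l 488653808103) (l 2)) (l 2)) (l 2)) (l 2)))), by decide +kernel⟩

theorem c_pm_123 : CertF 536870912 536870912 1610612736 536870912 201326592 134217728 false true false .npn 1 2 3
    ndF0q1 ndF1q3 pcF2 cut_pm_123 Ext.none :=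
  certF1 (fam := false) (s1 := true) (s2 := false) (a := 1) (b := 2) (c := 3) (cn := .npn) (n1 := ndF0q1) (n2 := ndF1q3) (pc := pcF2) (cut := cut_pm_123) (xt := Ext.none) (P1 := 536870912) (W1 := 536870912) (P2 := 1610612736) (W2 := 536870912) (P3 := 201326592) (W3 := 134217728)
    rfl (fun _ => rfl) k0_pm_123

noncomputable def f_pm_133 : ℕ → ℕ → ℕ → ℕ → Bool := onCell 536870912 536870912 1610612736 536870912 201326592 134217728
    (rowF 0 false true false .dn 1 3 3 (qsf 536870912 536870912 1610612736 536870912 3) ndF0q1 ndF1q3 pcF3 Cut.none Ext.none)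

def k0_pm_133 : ∃ t, chk3 f_pm_133 t 1 1 1 = true :=
  ⟨(a (b (l 1) (a (a (b (l 1) (a (l 17038808) (l 1))) (l 1)) (l 1))) (l 1)), by decide +kernel⟩

theorem c_pm_133 : CertF 536870912 536870912 1610612736 536870912 201326592 134217728 false true false .dn 1 3 3
    ndF0q1 ndF1q3 pcF3 Cut.none Ext.none :=
  certF0 (fam := false) (s1 := true) (s2 := false) (a := 1) (b := 3) (c := 3) (cn := .dn) (n1 := ndF0q1) (n2 := ndF1q3) (pc := pcF3) (cut := Cut.none) (xt := Ext.none) (P1 := 536870912) (W1 := 536870912) (P2 := 1610612736) (W2 := 536870912) (P3 := 201326592) (W3 := 134217728)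
    rfl k0_pm_133

noncomputable def cut_pm_202_a : Cut := Cut.of [[⟨0, 1, 0, 67108864⟩, ⟨1, 0, 0, 67108864⟩, ⟨2, 1, 0, 67108864⟩]]

noncomputable def f_pm_202_a : ℕ → ℕ → ℕ → ℕ → Bool := onCell 0 536870912 0 536870912 201326592 134217728
    (rowF 0 false true false .pp 2 0 2 (qsf 0 536870912 0 536870912 0) ndF0q2 ndF1q2a pcF0 cut_pm_202_a Ext.none)

def k0_pm_202_a : ∃ t, chk3 f_pm_202_a t 1 1 1 = true :=
  ⟨(a (l 3) (b (l 3) (a (l 3) (b (l 3) (a (l 3) (b (l 3) (l 6))))))), by decide +kernel⟩

theorem c_pm_202_a : CertF 0 536870912 0 536870912 201326592 134217728 false true false .pp 2 0 2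
    ndF0q2 ndF1q2a pcF0 cut_pm_202_a Ext.none :=
  certF0 (fam := false) (s1 := true) (s2 := false) (a := 2) (b := 0) (c := 2) (cn := .pp) (n1 := ndF0q2) (n2 := ndF1q2a) (pc := pcF0) (cut := cut_pm_202_a) (xt := Ext.none) (P1 := 0) (W1 := 536870912) (P2 := 0) (W2 := 536870912) (P3 := 201326592) (W3 := 134217728)
    rfl k0_pm_202_a

noncomputable def cut_pm_202_b : Cut := Cut.of [[⟨0, 1, 0, 67108864⟩, ⟨1, 0, 0, 67108864⟩, ⟨2, 1, 0, 67108864⟩]]

noncomputable def f_pm_202_b : ℕ → ℕ → ℕ → ℕ → Bool := onCell 0 536870912 1239849684 370763052 201326592 134217728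
    (rowF 0 false true false .pp 2 0 2 (qsf 0 536870912 1239849684 370763052 0) ndF0q2 ndF1q2b pcF0 cut_pm_202_b Ext.none)

def k0_pm_202_b : ∃ t, chk3 f_pm_202_b t 1 1 1 = true :=
  ⟨(l 3), by decide +kernel⟩

theorem c_pm_202_b : CertF 0 536870912 1239849684 370763052 201326592 134217728 false true false .pp 2 0 2
    ndF0q2 ndF1q2b pcF0 cut_pm_202_b Ext.none :=
  certF0 (fam := false) (s1 := true) (s2 := false) (a := 2) (b := 0) (c := 2) (cn := .pp) (n1 := ndF0q2) (n2 := ndF1q2b) (pc := pcF0) (cut := cut_pm_202_b) (xt := Ext.none) (P1 := 0) (W1 := 536870912) (P2 := 1239849684) (W2 := 370763052) (P3 := 201326592) (W3 := 134217728)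
    rfl k0_pm_202_b

noncomputable def f_pm_203 : ℕ → ℕ → ℕ → ℕ → Bool := onCell 0 536870912 0 536870912 201326592 134217728
    (rowF 1 false true false .up 2 0 3 (qsf 0 536870912 1610612736 536870912 0) ndF0q2 ndF1q3 pcF0 Cut.none Ext.none)

def k0_pm_203 : ∃ t, chk3 f_pm_203 t 1 1 1 = true :=
  ⟨(l 3), by decide +kernel⟩

theorem c_pm_203 : CertF 0 536870912 1610612736 536870912 201326592 134217728 false true false .up 2 0 3
    ndF0q2 ndF1q3 pcF0 Cut.none Ext.none :=
  certF1 (fam := false) (s1 := true) (s2 := false) (a := 2) (b := 0) (c := 3) (cn := .up) (n1 := ndF0q2) (n2 := ndF1q3) (pc := pcF0) (cut := Cut.none) (xt := Ext.none) (P1 := 0) (W1 := 536870912) (P2 := 1610612736) (W2 := 536870912) (P3 := 201326592) (W3 := 134217728)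
    rfl (fun _ => rfl) k0_pm_203

noncomputable def cut_pm_213 : Cut := Cut.of [[⟨0, 1, 0, 57167902⟩, ⟨1, 1, 0, 57167902⟩, ⟨2, 2, 0, 11758673⟩]]

noncomputable def f_pm_213 : ℕ → ℕ → ℕ → ℕ → Bool := onCell 0 536870912 1610612736 536870912 201326592 134217728
    (rowF 0 false true false .pnn 2 1 3 (qsf 0 536870912 1610612736 536870912 1) ndF0q2 ndF1q3 pcF1 cut_pm_213 Ext.none)

def k0_pm_213 : ∃ t, chk3 f_pm_213 t 1 1 1 = true :=
  ⟨(b (l 3) (a (l 3) (b (l 3) (a (l 3) (a (l 3) (b (l 3) (a (l 3) (a (l 3) (b (l 3) (b (l 3) (b (l 3) (l 6)))))))))))), by decide +kernel⟩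

theorem c_pm_213 : CertF 0 536870912 1610612736 536870912 201326592 134217728 false true false .pnn 2 1 3
    ndF0q2 ndF1q3 pcF1 cut_pm_213 Ext.none :=
  certF0 (fam := false) (s1 := true) (s2 := false) (a := 2) (b := 1) (c := 3) (cn := .pnn) (n1 := ndF0q2) (n2 := ndF1q3) (pc := pcF1) (cut := cut_pm_213) (xt := Ext.none) (P1 := 0) (W1 := 536870912) (P2 := 1610612736) (W2 := 536870912) (P3 := 201326592) (W3 := 134217728)
    rfl k0_pm_213

noncomputable def f_mm_001 : ℕ → ℕ → ℕ → ℕ → Bool := onCell 0 536870912 536870912 536870912 201326592 134217728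
    (rowF 0 false false false .up 0 0 1 (qsf 0 536870912 536870912 536870912 0) ndF0q0 ndF1q1 pcF0 Cut.none Ext.none)

def k0_mm_001 : ∃ t, chk3 f_mm_001 t 1 1 1 = true :=
  ⟨(l 3), by decide +kernel⟩

theorem c_mm_001 : CertF 0 536870912 536870912 536870912 201326592 134217728 false false false .up 0 0 1
    ndF0q0 ndF1q1 pcF0 Cut.none Ext.none :=
  certF0 (fam := false) (s1 := false) (s2 := false) (a := 0) (b := 0) (c := 1) (cn := .up) (n1 := ndF0q0) (n2 := ndF1q1) (pc := pcF0) (cut := Cut.none) (xt := Ext.none) (P1 := 0) (W1 := 536870912) (P2 := 536870912) (W2 := 536870912) (P3 := 201326592) (W3 := 134217728)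
    rfl k0_mm_001

noncomputable def f_mm_011 : ℕ → ℕ → ℕ → ℕ → Bool := onCell 0 536870912 536870912 536870912 201326592 134217728
    (rowF 0 false false false .pnn 0 1 1 (qsf 0 536870912 536870912 536870912 1) ndF0q0 ndF1q1 pcF1 Cut.none Ext.none)

def k0_mm_011 : ∃ t, chk3 f_mm_011 t 1 1 1 = true :=
  ⟨(l 3), by decide +kernel⟩

theorem c_mm_011 : CertF 0 536870912 536870912 536870912 201326592 134217728 false false false .pnn 0 1 1
    ndF0q0 ndF1q1 pcF1 Cut.none Ext.none :=
  certF0 (fam := false) (s1 := false) (s2 := false) (a := 0) (b := 1) (c := 1) (cn := .pnn) (n1 := ndF0q0) (n2 := ndF1q1) (pc := pcF1) (cut := Cut.none) (xt := Ext.none) (P1 := 0) (W1 := 536870912) (P2 := 536870912) (W2 := 536870912) (P3 := 201326592) (W3 := 134217728)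
    rfl k0_mm_011

noncomputable def f_mm_012_a : ℕ → ℕ → ℕ → ℕ → Bool := onCell 0 536870912 0 536870912 201326592 134217728
    (rowF 0 false false false .pnp 0 1 2 (qsf 0 536870912 0 536870912 1) ndF0q0 ndF1q2a pcF1 Cut.none Ext.none)

def k0_mm_012_a : ∃ t, chk3 f_mm_012_a t 1 1 1 = true :=
  ⟨(l 5), by decide +kernel⟩

theorem c_mm_012_a : CertF 0 536870912 0 536870912 201326592 134217728 false false false .pnp 0 1 2
    ndF0q0 ndF1q2a pcF1 Cut.none Ext.none :=
  certF0 (fam := false) (s1 := false) (s2 := false) (a := 0) (b := 1) (c := 2) (cn := .pnp) (n1 := ndF0q0) (n2 := ndF1q2a) (pc := pcF1) (cut := Cut.none) (xt := Ext.none) (P1 := 0) (W1 := 536870912) (P2 := 0) (W2 := 536870912) (P3 := 201326592) (W3 := 134217728)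
    rfl k0_mm_012_a

noncomputable def f_mm_012_b : ℕ → ℕ → ℕ → ℕ → Bool := onCell 0 536870912 1239849684 370763052 201326592 134217728
    (rowF 0 false false false .pnp 0 1 2 (qsf 0 536870912 1239849684 370763052 1) ndF0q0 ndF1q2b pcF1 Cut.none Ext.none)

def k0_mm_012_b : ∃ t, chk3 f_mm_012_b t 1 1 1 = true :=
  ⟨(l 5), by decide +kernel⟩

theorem c_mm_012_b : CertF 0 536870912 1239849684 370763052 201326592 134217728 false false false .pnp 0 1 2
    ndF0q0 ndF1q2b pcF1 Cut.none Ext.none :=
  certF0 (fam := false) (s1 := false) (s2 := false) (a := 0) (b := 1) (c := 2) (cn := .pnp) (n1 := ndF0q0) (n2 := ndF1q2b) (pc := pcF1) (cut := Cut.none) (xt := Ext.none) (P1 := 0) (W1 := 536870912) (P2 := 1239849684) (W2 := 370763052) (P3 := 201326592) (W3 := 134217728)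
    rfl k0_mm_012_b

noncomputable def f_mm_022_a : ℕ → ℕ → ℕ → ℕ → Bool := onCell 0 536870912 0 536870912 201326592 134217728
    (rowF 0 false false false .pp 0 2 2 (qsf 0 536870912 0 536870912 2) ndF0q0 ndF1q2a pcF2 Cut.none Ext.none)

def k0_mm_022_a : ∃ t, chk3 f_mm_022_a t 1 1 1 = true :=
  ⟨(l 5), by decide +kernel⟩

theorem c_mm_022_a : CertF 0 536870912 0 536870912 201326592 134217728 false false false .pp 0 2 2
    ndF0q0 ndF1q2a pcF2 Cut.none Ext.none :=
  certF0 (fam := false) (s1 := false) (s2 := false) (a := 0) (b := 2) (c := 2) (cn := .pp) (n1 := ndF0q0) (n2 := ndF1q2a) (pc := pcF2) (cut := Cut.none) (xt := Ext.none) (P1 := 0) (W1 := 536870912) (P2 := 0) (W2 := 536870912) (P3 := 201326592) (W3 := 134217728)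
    rfl k0_mm_022_a

noncomputable def f_mm_022_b : ℕ → ℕ → ℕ → ℕ → Bool := onCell 0 536870912 1239849684 370763052 201326592 134217728
    (rowF 0 false false false .pp 0 2 2 (qsf 0 536870912 1239849684 370763052 2) ndF0q0 ndF1q2b pcF2 Cut.none Ext.none)

def k0_mm_022_b : ∃ t, chk3 f_mm_022_b t 1 1 1 = true :=
  ⟨(l 5), by decide +kernel⟩

theorem c_mm_022_b : CertF 0 536870912 1239849684 370763052 201326592 134217728 false false false .pp 0 2 2
    ndF0q0 ndF1q2b pcF2 Cut.none Ext.none :=
  certF0 (fam := false) (s1 := false) (s2 := false) (a := 0) (b := 2) (c := 2) (cn := .pp) (n1 := ndF0q0) (n2 := ndF1q2b) (pc := pcF2) (cut := Cut.none) (xt := Ext.none) (P1 := 0) (W1 := 536870912) (P2 := 1239849684) (W2 := 370763052) (P3 := 201326592) (W3 := 134217728)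
    rfl k0_mm_022_b

noncomputable def f_mm_023 : ℕ → ℕ → ℕ → ℕ → Bool := onCell 0 536870912 1610612736 536870912 201326592 134217728
    (rowF 0 false false false .up 0 2 3 (qsf 0 536870912 1610612736 536870912 2) ndF0q0 ndF1q3 pcF2 Cut.none Ext.none)

def k0_mm_023 : ∃ t, chk3 f_mm_023 t 1 1 1 = true :=
  ⟨(l 5), by decide +kernel⟩

theorem c_mm_023 : CertF 0 536870912 1610612736 536870912 201326592 134217728 false false false .up 0 2 3
    ndF0q0 ndF1q3 pcF2 Cut.none Ext.none :=
  certF0 (fam := false) (s1 := false) (s2 := false) (a := 0) (b := 2) (c := 3) (cn := .up) (n1 := ndF0q0) (n2 := ndF1q3) (pc := pcF2) (cut := Cut.none) (xt := Ext.none) (P1 := 0) (W1 := 536870912) (P2 := 1610612736) (W2 := 536870912) (P3 := 201326592) (W3 := 134217728)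
    rfl k0_mm_023

noncomputable def f_mm_033 : ℕ → ℕ → ℕ → ℕ → Bool := onCell 0 536870912 1610612736 536870912 201326592 134217728
    (rowF 0 false false false .pnn 0 3 3 (qsf 0 536870912 1610612736 536870912 3) ndF0q0 ndF1q3 pcF3 Cut.none Ext.none)

def k0_mm_033 : ∃ t, chk3 f_mm_033 t 1 1 1 = true :=
  ⟨(l 5), by decide +kernel⟩

theorem c_mm_033 : CertF 0 536870912 1610612736 536870912 201326592 134217728 false false false .pnn 0 3 3
    ndF0q0 ndF1q3 pcF3 Cut.none Ext.none :=
  certF0 (fam := false) (s1 := false) (s2 := false) (a := 0) (b := 3) (c := 3) (cn := .pnn) (n1 := ndF0q0) (n2 := ndF1q3) (pc := pcF3) (cut := Cut.none) (xt := Ext.none) (P1 := 0) (W1 := 536870912) (P2 := 1610612736) (W2 := 536870912) (P3 := 201326592) (W3 := 134217728)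
    rfl k0_mm_033

noncomputable def f_mm_101 : ℕ → ℕ → ℕ → ℕ → Bool := onCell 536870912 536870912 536870912 536870912 201326592 134217728
    (rowF 0 false false false .npn 1 0 1 (qsf 536870912 536870912 536870912 536870912 0) ndF0q1 ndF1q1 pcF0 Cut.none Ext.none)

def k0_mm_101 : ∃ t, chk3 f_mm_101 t 1 1 1 = true :=
  ⟨(l 3), by decide +kernel⟩

theorem c_mm_101 : CertF 536870912 536870912 536870912 536870912 201326592 134217728 false false false .npn 1 0 1
    ndF0q1 ndF1q1 pcF0 Cut.none Ext.none :=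
  certF0 (fam := false) (s1 := false) (s2 := false) (a := 1) (b := 0) (c := 1) (cn := .npn) (n1 := ndF0q1) (n2 := ndF1q1) (pc := pcF0) (cut := Cut.none) (xt := Ext.none) (P1 := 536870912) (W1 := 536870912) (P2 := 536870912) (W2 := 536870912) (P3 := 201326592) (W3 := 134217728)
    rfl k0_mm_101

noncomputable def f_mm_102_a : ℕ → ℕ → ℕ → ℕ → Bool := onCell 536870912 536870912 0 536870912 201326592 134217728
    (rowF 0 false false false .npp 1 0 2 (qsf 536870912 536870912 0 536870912 0) ndF0q1 ndF1q2a pcF0 Cut.none Ext.none)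

def k0_mm_102_a : ∃ t, chk3 f_mm_102_a t 1 1 1 = true :=
  ⟨(l 3), by decide +kernel⟩

theorem c_mm_102_a : CertF 536870912 536870912 0 536870912 201326592 134217728 false false false .npp 1 0 2
    ndF0q1 ndF1q2a pcF0 Cut.none Ext.none :=
  certF0 (fam := false) (s1 := false) (s2 := false) (a := 1) (b := 0) (c := 2) (cn := .npp) (n1 := ndF0q1) (n2 := ndF1q2a) (pc := pcF0) (cut := Cut.none) (xt := Ext.none) (P1 := 536870912) (W1 := 536870912) (P2 := 0) (W2 := 536870912) (P3 := 201326592) (W3 := 134217728)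
    rfl k0_mm_102_a

noncomputable def f_mm_102_b : ℕ → ℕ → ℕ → ℕ → Bool := onCell 536870912 536870912 1239849684 370763052 201326592 134217728
    (rowF 0 false false false .npp 1 0 2 (qsf 536870912 536870912 1239849684 370763052 0) ndF0q1 ndF1q2b pcF0 Cut.none Ext.none)

def k0_mm_102_b : ∃ t, chk3 f_mm_102_b t 1 1 1 = true :=
  ⟨(l 5), by decide +kernel⟩

theorem c_mm_102_b : CertF 536870912 536870912 1239849684 370763052 201326592 134217728 false false false .npp 1 0 2
    ndF0q1 ndF1q2b pcF0 Cut.none Ext.none :=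
  certF0 (fam := false) (s1 := false) (s2 := false) (a := 1) (b := 0) (c := 2) (cn := .npp) (n1 := ndF0q1) (n2 := ndF1q2b) (pc := pcF0) (cut := Cut.none) (xt := Ext.none) (P1 := 536870912) (W1 := 536870912) (P2 := 1239849684) (W2 := 370763052) (P3 := 201326592) (W3 := 134217728)
    rfl k0_mm_102_b

noncomputable def f_mm_112_a : ℕ → ℕ → ℕ → ℕ → Bool := onCell 536870912 536870912 0 536870912 201326592 134217728
    (rowF 0 false false false .dn 1 1 2 (qsf 536870912 536870912 0 536870912 1) ndF0q1 ndF1q2a pcF1 Cut.none Ext.none)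

def k0_mm_112_a : ∃ t, chk3 f_mm_112_a t 1 1 1 = true :=
  ⟨(l 3), by decide +kernel⟩

theorem c_mm_112_a : CertF 536870912 536870912 0 536870912 201326592 134217728 false false false .dn 1 1 2
    ndF0q1 ndF1q2a pcF1 Cut.none Ext.none :=
  certF0 (fam := false) (s1 := false) (s2 := false) (a := 1) (b := 1) (c := 2) (cn := .dn) (n1 := ndF0q1) (n2 := ndF1q2a) (pc := pcF1) (cut := Cut.none) (xt := Ext.none) (P1 := 536870912) (W1 := 536870912) (P2 := 0) (W2 := 536870912) (P3 := 201326592) (W3 := 134217728)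
    rfl k0_mm_112_a

noncomputable def f_mm_112_b : ℕ → ℕ → ℕ → ℕ → Bool := onCell 536870912 536870912 1239849684 370763052 201326592 134217728
    (rowF 0 false false false .dn 1 1 2 (qsf 536870912 536870912 1239849684 370763052 1) ndF0q1 ndF1q2b pcF1 Cut.none Ext.none)

def k0_mm_112_b : ∃ t, chk3 f_mm_112_b t 1 1 1 = true :=
  ⟨(l 5), by decide +kernel⟩

theorem c_mm_112_b : CertF 536870912 536870912 1239849684 370763052 201326592 134217728 false false false .dn 1 1 2
    ndF0q1 ndF1q2b pcF1 Cut.none Ext.none :=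
  certF0 (fam := false) (s1 := false) (s2 := false) (a := 1) (b := 1) (c := 2) (cn := .dn) (n1 := ndF0q1) (n2 := ndF1q2b) (pc := pcF1) (cut := Cut.none) (xt := Ext.none) (P1 := 536870912) (W1 := 536870912) (P2 := 1239849684) (W2 := 370763052) (P3 := 201326592) (W3 := 134217728)
    rfl k0_mm_112_b

noncomputable def f_mm_113 : ℕ → ℕ → ℕ → ℕ → Bool := onCell 536870912 536870912 1610612736 536870912 201326592 134217728
    (rowF 0 false false false .nn 1 1 3 (qsf 536870912 536870912 1610612736 536870912 1) ndF0q1 ndF1q3 pcF1 Cut.none Ext.none)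

def k0_mm_113 : ∃ t, chk3 f_mm_113 t 1 1 1 = true :=
  ⟨(l 5), by decide +kernel⟩

theorem c_mm_113 : CertF 536870912 536870912 1610612736 536870912 201326592 134217728 false false false .nn 1 1 3
    ndF0q1 ndF1q3 pcF1 Cut.none Ext.none :=
  certF0 (fam := false) (s1 := false) (s2 := false) (a := 1) (b := 1) (c := 3) (cn := .nn) (n1 := ndF0q1) (n2 := ndF1q3) (pc := pcF1) (cut := Cut.none) (xt := Ext.none) (P1 := 536870912) (W1 := 536870912) (P2 := 1610612736) (W2 := 536870912) (P3 := 201326592) (W3 := 134217728)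
    rfl k0_mm_113

noncomputable def f_mm_123 : ℕ → ℕ → ℕ → ℕ → Bool := onCell 536870912 536870912 1610612736 536870912 201326592 134217728
    (rowF 0 false false false .npn 1 2 3 (qsf 536870912 536870912 1610612736 536870912 2) ndF0q1 ndF1q3 pcF2 Cut.none Ext.none)

def k0_mm_123 : ∃ t, chk3 f_mm_123 t 1 1 1 = true :=
  ⟨(l 5), by decide +kernel⟩

theorem c_mm_123 : CertF 536870912 536870912 1610612736 536870912 201326592 134217728 false false false .npn 1 2 3
    ndF0q1 ndF1q3 pcF2 Cut.none Ext.none :=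
  certF0 (fam := false) (s1 := false) (s2 := false) (a := 1) (b := 2) (c := 3) (cn := .npn) (n1 := ndF0q1) (n2 := ndF1q3) (pc := pcF2) (cut := Cut.none) (xt := Ext.none) (P1 := 536870912) (W1 := 536870912) (P2 := 1610612736) (W2 := 536870912) (P3 := 201326592) (W3 := 134217728)
    rfl k0_mm_123

noncomputable def f_mm_133 : ℕ → ℕ → ℕ → ℕ → Bool := onCell 536870912 536870912 1610612736 536870912 201326592 134217728
    (rowF 0 false false false .dn 1 3 3 (qsf 536870912 536870912 1610612736 536870912 3) ndF0q1 ndF1q3 pcF3 Cut.none Ext.none)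

def k0_mm_133 : ∃ t, chk3 f_mm_133 t 1 1 1 = true :=
  ⟨(l 5), by decide +kernel⟩

theorem c_mm_133 : CertF 536870912 536870912 1610612736 536870912 201326592 134217728 false false false .dn 1 3 3
    ndF0q1 ndF1q3 pcF3 Cut.none Ext.none :=
  certF0 (fam := false) (s1 := false) (s2 := false) (a := 1) (b := 3) (c := 3) (cn := .dn) (n1 := ndF0q1) (n2 := ndF1q3) (pc := pcF3) (cut := Cut.none) (xt := Ext.none) (P1 := 536870912) (W1 := 536870912) (P2 := 1610612736) (W2 := 536870912) (P3 := 201326592) (W3 := 134217728)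
    rfl k0_mm_133

noncomputable def f_mm_202_a : ℕ → ℕ → ℕ → ℕ → Bool := onCell 0 536870912 0 536870912 201326592 134217728
    (rowF 0 false false false .pp 2 0 2 (qsf 0 536870912 0 536870912 0) ndF0q2 ndF1q2a pcF0 Cut.none Ext.none)

def k0_mm_202_a : ∃ t, chk3 f_mm_202_a t 1 1 1 = true :=
  ⟨(l 3), by decide +kernel⟩

theorem c_mm_202_a : CertF 0 536870912 0 536870912 201326592 134217728 false false false .pp 2 0 2
    ndF0q2 ndF1q2a pcF0 Cut.none Ext.none :=
  certF0 (fam := false) (s1 := false) (s2 := false) (a := 2) (b := 0) (c := 2) (cn := .pp) (n1 := ndF0q2) (n2 := ndF1q2a) (pc := pcF0) (cut := Cut.none) (xt := Ext.none) (P1 := 0) (W1 := 536870912) (P2 := 0) (W2 := 536870912) (P3 := 201326592) (W3 := 134217728)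
    rfl k0_mm_202_a

noncomputable def f_mm_202_b : ℕ → ℕ → ℕ → ℕ → Bool := onCell 0 536870912 1239849684 370763052 201326592 134217728
    (rowF 0 false false false .pp 2 0 2 (qsf 0 536870912 1239849684 370763052 0) ndF0q2 ndF1q2b pcF0 Cut.none Ext.none)

def k0_mm_202_b : ∃ t, chk3 f_mm_202_b t 1 1 1 = true :=
  ⟨(l 3), by decide +kernel⟩

theorem c_mm_202_b : CertF 0 536870912 1239849684 370763052 201326592 134217728 false false false .pp 2 0 2
    ndF0q2 ndF1q2b pcF0 Cut.none Ext.none :=
  certF0 (fam := false) (s1 := false) (s2 := false) (a := 2) (b := 0) (c := 2) (cn := .pp) (n1 := ndF0q2) (n2 := ndF1q2b) (pc := pcF0) (cut := Cut.none) (xt := Ext.none) (P1 := 0) (W1 := 536870912) (P2 := 1239849684) (W2 := 370763052) (P3 := 201326592) (W3 := 134217728)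
    rfl k0_mm_202_b

noncomputable def f_mm_203 : ℕ → ℕ → ℕ → ℕ → Bool := onCell 0 536870912 0 536870912 201326592 134217728
    (rowF 1 false false false .up 2 0 3 (qsf 0 536870912 1610612736 536870912 0) ndF0q2 ndF1q3 pcF0 Cut.none Ext.none)

def k0_mm_203 : ∃ t, chk3 f_mm_203 t 1 1 1 = true :=
  ⟨(l 3), by decide +kernel⟩

theorem c_mm_203 : CertF 0 536870912 1610612736 536870912 201326592 134217728 false false false .up 2 0 3
    ndF0q2 ndF1q3 pcF0 Cut.none Ext.none :=
  certF1 (fam := false) (s1 := false) (s2 := false) (a := 2) (b := 0) (c := 3) (cn := .up) (n1 := ndF0q2) (n2 := ndF1q3) (pc := pcF0) (cut := Cut.none) (xt := Ext.none) (P1 := 0) (W1 := 536870912) (P2 := 1610612736) (W2 := 536870912) (P3 := 201326592) (W3 := 134217728)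
    rfl (fun _ => rfl) k0_mm_203

noncomputable def f_mm_213 : ℕ → ℕ → ℕ → ℕ → Bool := onCell 0 536870912 1610612736 536870912 201326592 134217728
    (rowF 0 false false false .pnn 2 1 3 (qsf 0 536870912 1610612736 536870912 1) ndF0q2 ndF1q3 pcF1 Cut.none Ext.none)

def k0_mm_213 : ∃ t, chk3 f_mm_213 t 1 1 1 = true :=
  ⟨(a (l 3) (l 5)), by decide +kernel⟩

theorem c_mm_213 : CertF 0 536870912 1610612736 536870912 201326592 134217728 false false false .pnn 2 1 3
    ndF0q2 ndF1q3 pcF1 Cut.none Ext.none :=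
  certF0 (fam := false) (s1 := false) (s2 := false) (a := 2) (b := 1) (c := 3) (cn := .pnn) (n1 := ndF0q2) (n2 := ndF1q3) (pc := pcF1) (cut := Cut.none) (xt := Ext.none) (P1 := 0) (W1 := 536870912) (P2 := 1610612736) (W2 := 536870912) (P3 := 201326592) (W3 := 134217728)
    rfl k0_mm_213

end Pool.Agent.Strip051.G.I3_16_5_16.Tab.C.FB01

namespace Pool.Agent.Strip051.G.I3_16_5_16.Tab.C.FB02

open Pool.Agent.Strip051.PB Pool.Agent.Strip051.PB.T
open Pool.Agent.Strip051.G.I3_16_5_16.Tab

noncomputable def f_pp_001 : ℕ → ℕ → ℕ → ℕ → Bool := onCell 0 536870912 0 536870912 201326592 134217728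
    (rowF 1 false true true .up 0 0 1 (qsf 0 536870912 536870912 536870912 0) ndF0q0 ndF2q1 pcF0 Cut.none Ext.none)

def k0_pp_001 : ∃ t, chk3 f_pp_001 t 1 1 1 = true :=
  ⟨(l 3), by decide +kernel⟩

theorem c_pp_001 : CertF 0 536870912 536870912 536870912 201326592 134217728 false true true .up 0 0 1
    ndF0q0 ndF2q1 pcF0 Cut.none Ext.none :=
  certF1 (fam := false) (s1 := true) (s2 := true) (a := 0) (b := 0) (c := 1) (cn := .up) (n1 := ndF0q0) (n2 := ndF2q1) (pc := pcF0) (cut := Cut.none) (xt := Ext.none) (P1 := 0) (W1 := 536870912) (P2 := 536870912) (W2 := 536870912) (P3 := 201326592) (W3 := 134217728)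
    rfl (fun _ => rfl) k0_pp_001

noncomputable def f_pp_011 : ℕ → ℕ → ℕ → ℕ → Bool := onCell 0 536870912 536870912 536870912 201326592 134217728
    (rowF 0 false true true .pnn 0 1 1 (qsf 0 536870912 536870912 536870912 1) ndF0q0 ndF2q1 pcF1 Cut.none Ext.none)

def k0_pp_011 : ∃ t, chk3 f_pp_011 t 1 1 1 = true :=
  ⟨(a (l 3) (l 3)), by decide +kernel⟩

theorem c_pp_011 : CertF 0 536870912 536870912 536870912 201326592 134217728 false true true .pnn 0 1 1
    ndF0q0 ndF2q1 pcF1 Cut.none Ext.none :=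
  certF0 (fam := false) (s1 := true) (s2 := true) (a := 0) (b := 1) (c := 1) (cn := .pnn) (n1 := ndF0q0) (n2 := ndF2q1) (pc := pcF1) (cut := Cut.none) (xt := Ext.none) (P1 := 0) (W1 := 536870912) (P2 := 536870912) (W2 := 536870912) (P3 := 201326592) (W3 := 134217728)
    rfl k0_pp_011

noncomputable def cut_pp_012_a : Cut := Cut.of [[⟨0, 0, 0, 67108864⟩, ⟨1, 1, 0, 67108864⟩, ⟨2, 1, 0, 67108864⟩]]

noncomputable def f_pp_012_a : ℕ → ℕ → ℕ → ℕ → Bool := onCell 536870912 536870912 0 536870912 201326592 134217728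
    (rowF 2 false true true .pnp 0 1 2 (qsf 0 536870912 0 536870912 1) ndF0q0 ndF2q2a pcF1 cut_pp_012_a Ext.none)

def k0_pp_012_a : ∃ t, chk3 f_pp_012_a t 2 1 1 = true :=
  ⟨(l 3), by decide +kernel⟩

def k1_pp_012_a : ∃ t, chk3 f_pp_012_a t 6 1 1 = true :=
  ⟨(l 3), by decide +kernel⟩

def k2_pp_012_a : ∃ t, chk3 f_pp_012_a t 14 2 1 = true :=
  ⟨(l 3), by decide +kernel⟩

def k3_pp_012_a : ∃ t, chk3 f_pp_012_a t 30 2 1 = true :=
  ⟨(b (a (l 3) (a (l 3) (a (l 3) (a (l 3) (b (b (b (c (c (l 37748629895) (l 36674888007)) (c (l 16720880) (l 16703280))) (l 3)) (l 3)) (l 3)))))) (l 3)), by decide +kernel⟩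

def k4_pp_012_a : ∃ t, chk3 f_pp_012_a t 62 8 1 = true :=
  ⟨(c (a (a (b (c (c (b (l 16721168) (l 26474346743)) (b (l 16717560) (l 16724648))) (b (l 31306174055) (c (l 16726264) (l 16712184)))) (c (b (c (l 23789994935) (l 24863728727)) (c (l 19495029575) (l 23253117495))) (b (c (l 24326857719) (l 27011204695)) (c (l 22179375127) (l 23253110663))))) (c (b (b (l 16710896) (l 16712912)) (b (c (l 16716664) (l 16713176)) (c (l 16718688) (l 16715168)))) (b (l 16705144) (b (l 16708000) (c (l 16711672) (l 16708200)))))) (c (b (l 16699296) (b (l 16702296) (l 16714792))) (b (l 16693216) (l 16717992)))) (a (b (c (a (b (l 16705200) (l 32916775111)) (l 16698496)) (a (l 37211729591) (l 16691968))) (c (a (b (l 29158681527) (l 25400587127)) (b (l 16701192) (l 16703048))) (a (b (l 33453634727) (l 29158669351)) (l 16695400)))) (b (l 16705232) (c (l 16690832) (l 16684728))))), by decide +kernel⟩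

def k5_pp_012_a : ∃ t, chk3 f_pp_012_a t 62 9 1 = true :=
  ⟨(c (a (b (c (a (b (c (l 27548094343) (l 28621828615)) (l 3)) (b (c (b (l 16720200) (l 27548083799)) (l 27548081927)) (c (a (l 22716247559) (l 16720600)) (a (l 22716246023) (l 16717096))))) (a (b (c (l 28621827287) (l 29158692167)) (l 3)) (b (c (l 29158689271) (l 16720600)) (c (a (l 25400595159) (l 16713616)) (l 28621814375))))) (a (l 3) (a (b (c (c (l 24863727815) (l 24326860087)) (c (l 24863725895) (l 25937460679))) (l 3)) (c (b (c (b (l 16722120) (l 25937470919)) (b (l 16718616) (l 25937469495))) (c (b (l 22716246375) (l 18958150791)) (b (l 22716245463) (l 18958150407)))) (b (c (l 29158688407) (l 16717384)) (c (b (l 24863722199) (l 21105627015)) (l 24863717431))))))) (a (b (c (c (l 16723688) (l 16720360)) (b (l 16703928) (l 16705936))) (c (b (c (l 16716296) (l 16712960)) (c (c (l 16724464) (l 16722792)) (b (l 16714528) (l 16726080)))) (b (c (l 16709640) (l 16706352)) (c (b (l 16711216) (l 16712288)) (l 16708472))))) (c (b (l 16703192)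 (b (l 16706312) (l 16718936))) (b (l 16697040) (l 16711696))))) (a (a (b (b (c (l 29695535111) (l 32379896359)) (l 3)) (l 3)) (b (c (b (c (l 16706656) (l 16703216)) (c (l 30769291095) (l 16710280))) (b (l 16698120) (l 34527373655))) (c (b (c (l 27011197559) (l 29158674359)) (c (l 24863716311) (l 24863709527))) (b (l 30232409607) (l 27011186695))))) (a (b (c (l 16719392) (l 16692000)) (c (b (l 16701456) (c (l 16705208) (l 16701968))) (b (l 16695008) (l 16697144)))) (b (l 16698432) (c (l 16695104) (l 16689072)))))), by decide +kernel⟩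

def k6_pp_012_a : ∃ t, chk3 f_pp_012_a t 63 4 1 = true :=
  ⟨(b (c (c (b (l 16695480) (a (l 16686680) (l 16670312))) (b (l 16690808) (l 16694576))) (b (l 16694328) (a (l 16673400) (l 16659328)))) (c (b (c (a (l 16690784) (l 16674448)) (a (l 16685328) (l 16669944))) (c (a (b (l 16693960) (l 16696152)) (l 16678808)) (a (l 16689568) (l 16674264)))) (b (a (l 16698184) (l 16663152)) (a (c (l 16684112) (l 16678696)) (l 16667408))))), by decide +kernel⟩

def k7_pp_012_a : ∃ t, chk3 f_pp_012_a t 62 10 2 = true :=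
  ⟨(a (a (l 3) (a (l 3) (b (b (b (c (c (l 20031893431) (l 18958151287)) (c (l 20031886279) (l 21642492231))) (l 3)) (l 3)) (l 3)))) (b (c (a (a (b (c (c (a (l 23253118983) (l 16722400)) (l 24326860663)) (b (l 28621822295) (l 24863727927))) (c (b (c (l 20568765447) (l 20568765543)) (c (l 18421283015) (l 17884412071))) (b (l 21642504023) (l 17884408919)))) (b (c (l 16718424) (l 16715176)) (c (b (l 16720072) (l 16726424)) (b (l 16716840) (l 16717968))))) (b (c (l 16712176) (l 16709096)) (c (l 16714416) (l 16711360)))) (b (a (c (b (l 29695557735) (a (l 27011204903) (l 16712496))) (a (l 29695553239) (l 16708728))) (l 16704504)) (a (c (a (b (l 23789980887) (l 19495015015)) (l 16714192)) (a (l 23253105751) (l 16711008))) (c (l 16708312) (l 16705288))))) (c (a (a (a (l 3) (b (b (c (l 14126315815) (l 15200052599)) (l 3)) (l 3))) (b (c (b (c (l 16723096) (l 16721496)) (c (l 22179379671) (l 23253119287))) (b (l 27548081303) (l 24326857671))) (c (b (c (l 18958155383) (l 19495024615)) (c (l 15736930983)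 (l 16273800423))) (b (l 20568763047) (l 16810668151))))) (b (c (b (l 16716136) (l 16717312)) (l 16724184)) (c (b (l 16723752) (a (l 16721760) (l 16717696))) (b (l 16715520) (l 16723320))))) (a (a (b (c (b (l 16273790567) (l 3)) (l 16810657207)) (l 3)) (b (c (b (l 16715920) (l 26474335015)) (l 25937458455)) (c (b (l 22179369527) (l 18421274887)) (l 22179365959)))) (b (c (l 16710696) (l 16707696)) (c (a (l 16715104) (l 16711248)) (l 16720704))))))), by decide +kernel⟩

def k8_pp_012_a : ∃ t, chk3 f_pp_012_a t 62 10 3 = true :=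
  ⟨(a (a (l 3) (b (b (c (c (l 20031880087) (l 21105615223)) (l 23789963463)) (l 3)) (l 3))) (a (b (c (b (c (l 31843030695) (l 16704144)) (c (l 28084938583) (l 29695544951))) (b (l 16709840) (l 31306151479))) (c (b (c (l 23789974871) (l 25400581335)) (c (l 20031881719) (l 21642488487))) (b (l 27011188343) (l 22716224631)))) (b (c (b (l 16698432) (l 16700776)) (l 16693616)) (c (b (l 16703240) (c (l 16707288) (l 16704360))) (b (l 16697336) (l 16700000)))))), by decide +kernel⟩

def k9_pp_012_a : ∃ t, chk3 f_pp_012_a t 62 11 1 = true :=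
  ⟨(c (a (l 3) (b (c (a (a (l 3) (a (l 3) (b (b (c (l 12515705623) (l 14126312103)) (l 3)) (l 3)))) (a (b (c (b (l 17347541399) (l 21105640135)) (b (l 16725232) (l 23253117863))) (c (b (l 17884416279) (l 14663192007)) (b (l 19495023495) (l 15736928743)))) (b (c (l 16719592) (l 16716720)) (c (l 16727472) (l 16719408))))) (a (a (l 3) (a (l 3) (b (c (l 14663179543) (l 16722240)) (l 3)))) (b (b (c (l 19495013543) (l 16712184)) (c (l 25400596151) (l 16718744))) (c (a (l 18958149527) (l 16716608)) (a (l 20568756679) (l 16713816)))))) (a (l 3) (a (b (c (c (b (l 11441966775) (l 3)) (l 13052574183)) (c (l 14663181335) (l 16722200))) (l 3)) (c (b (c (b (l 16724272) (l 16725608)) (l 4999510663)) (c (l 16810676007) (l 18421283335))) (b (c (l 16719424) (l 16716696)) (c (l 16722192) (l 16719552)))))))) (a (l 3) (a (b (b (c (c (l 22716239223) (l 17884395047)) (l 23789969799)) (l 3)) (l 3)) (b (c (b (c (l 20568746679) (l 16707064)) (c (l 24863719351) (l 26474326471))) (b (l 16713264) (l 27548063191))) (c (b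 (c (l 21105627767) (l 22179364791)) (c (l 18421273543) (l 18421271879))) (b (l 23253101095) (l 18958139175))))))), by decide +kernel⟩

def k10_pp_012_a : ∃ t, chk3 f_pp_012_a t 63 5 1 = true :=
  ⟨(b (c (a (b (c (c (l 16711400) (l 16719160)) (b (l 16692936) (l 16695296))) (a (c (b (l 16707136) (l 16720104)) (b (l 16701560) (l 16704120))) (c (l 16700376) (l 16695280)))) (b (c (l 16683464) (l 16678944)) (c (l 16704208) (l 16684064)))) (b (a (c (l 16709680) (l 16683328)) (l 16693096)) (a (c (b (l 16692432) (l 16695096)) (l 16709464)) (c (l 16679616) (l 16675144))))) (c (a (a (b (c (b (c (l 16713560) (l 16710848)) (c (l 16716248) (l 16713592))) (b (l 16706800) (l 16720112))) (c (b (c (l 16719072) (l 16716480)) (c (l 16732544) (l 16719528))) (b (c (l 16713896) (l 16711312)) (c (l 16717008) (l 16714496))))) (b (c (b (l 16704304) (l 16707088)) (l 16700768)) (c (b (l 16710016) (l 16713112)) (l 16717344)))) (b (c (c (l 16716000) (l 16713880)) (l 16710680)) (c (b (l 16719432) (l 16722640)) (b (l 16694336)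 (l 16697664))))) (a (a (b (c (b (l 16701424) (l 16704352)) (l 16697600)) (c (b (l 16707456) (l 16721216)) (b (l 16702328) (l 16705736)))) (b (c (l 16695856) (l 16690952)) (c (l 16702168) (l 16697480)))) (a (b (l 16686624) (l 16703640)) (b (l 16679904) (l 16686536)))))), by decide +kernel⟩

def k11_pp_012_a : ∃ t, chk3 f_pp_012_a t 14 3 1 = true :=
  ⟨(l 3), by decide +kernel⟩

def k12_pp_012_a : ∃ t, chk3 f_pp_012_a t 30 6 1 = true :=
  ⟨(l 3), by decide +kernel⟩

def k13_pp_012_a : ∃ t, chk3 f_pp_012_a t 31 12 1 = true :=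
  ⟨(a (a (l 3) (a (l 3) (a (l 3) (b (b (c (c (c (l 16730024) (l 16727472)) (c (l 16724920) (l 16722384))) (c (l 16718592) (l 16713560))) (l 3)) (l 3))))) (a (c (b (c (b (a (c (b (l 16724400) (l 16725976)) (l 16727952)) (l 16716384)) (a (c (l 15736942951) (l 19495031335)) (l 16719856))) (b (a (c (l 16720264) (l 16717824)) (l 16711888)) (a (c (l 16728840) (l 16721240)) (l 16715504)))) (c (a (b (c (b (l 22179398471) (l 21105659559)) (l 13052592583)) (a (l 3) (c (b (l 16738032) (l 22179401127)) (l 23253140183)))) (b (c (l 16724576) (l 16722472)) (c (b (l 16727408) (l 16729264)) (l 16726312)))) (b (a (c (l 16732248) (l 16724736)) (l 16719312)) (a (c (l 21105657623) (l 16738784)) (l 16733776))))) (a (b (c (b (c (l 16715384) (l 16712952)) (l 23789984103)) (b (l 16709312) (l 16723504))) (c (b (l 19495023591) (l 15200062935)) (b (l 16727336) (l 16720800)))) (b (c (l 16718928) (l 16715312)) (c (b (l 16715104) (l 16719248)) (b (l 16710888) (l 16715208)))))) (a (c (b (c (l 16721056) (l 16706552)) (c (b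 (l 16716072) (l 16719936)) (l 16724752))) (b (c (l 16702512) (l 16698440)) (c (l 16710512) (l 16706736)))) (c (b (c (l 16703048) (l 16699440)) (c (b (l 16708632) (l 16712552)) (l 16707256))) (b (l 16704432) (c (l 16703888) (l 16700472))))))), by decide +kernel⟩

def k14_pp_012_a : ∃ t, chk3 f_pp_012_a t 31 13 1 = true :=
  ⟨(a (l 3) (a (c (b (c (a (b (b (c (l 18421311799) (l 19495049703)) (l 3)) (l 3)) (b (c (b (l 16736328) (l 24863757655)) (l 21642528151)) (a (c (b (l 16741744) (l 22179408839)) (l 23253148359)) (c (l 16734048) (l 16732328))))) (a (b (l 20568789031) (l 3)) (b (c (l 16728184) (l 16726288)) (c (l 24326888119) (l 16740856))))) (a (l 3) (a (a (l 3) (b (c (c (l 20031929639) (l 16738680)) (l 16741472)) (l 3))) (c (b (c (b (l 16737104) (l 16739144)) (l 16741752)) (c (b (l 23790027751) (l 21642547831)) (l 23253158935))) (b (l 27548115255) (c (l 23253156295) (l 16737816))))))) (b (b (c (a (l 16734000) (l 16723432)) (a (l 16724768) (l 16719616))) (a (l 3) (c (l 16738200) (l 16724152))))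 (a (l 3) (b (c (c (l 16740816) (l 16731312)) (l 16739344)) (c (c (l 21642542871) (l 22716282391)) (l 23253150471)))))) (b (a (b (c (c (l 16734240) (l 16720336)) (l 16715152)) (c (c (c (l 16728536) (l 16726968)) (l 16724584)) (l 16730240))) (c (c (b (l 16716440) (l 16720512)) (b (l 16713424) (l 16717728))) (c (l 16723088) (l 16709584)))) (c (a (c (b (c (b (l 16731648) (l 16733792)) (l 16731264)) (c (b (l 16736016) (l 16743544)) (b (l 16734664) (l 16737016)))) (b (l 16739560) (c (l 16739744) (l 16733160)))) (c (b (l 16735312) (c (l 16729984) (l 16728856))) (b (l 16722288) (l 16727120)))) (b (a (c (l 16726112) (l 16723104)) (l 16718352)) (a (c (l 16741608) (l 16728360)) (c (l 16724752) (l 16722312)))))))), by decide +kernel⟩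

def k15_pp_012_a : ∃ t, chk3 f_pp_012_a t 15 7 1 = true :=
  ⟨(a (l 3) (b (a (l 3) (a (a (l 3) (a (l 3) (b (b (b (c (c (c (l 26474389111) (l 33453708343)) (l 39896156935)) (l 53854795815)) (l 3)) (l 3)) (l 3)))) (b (c (a (a (b (b (c (c (l 16742432) (l 16741168)) (l 16739248)) (c (c (l 23253164407) (l 16748832)) (l 27011256039))) (c (c (a (b (l 29158747815) (l 3)) (b (l 16749128) (l 21642557527))) (b (l 22716295623) (l 20031945111))) (b (c (l 23790035319) (l 16743728)) (c (l 21105685143) (l 16751480))))) (c (b (c (l 16745360) (l 16738976)) (c (b (l 16743904) (l 16746424)) (b (l 16742840) (l 16745432)))) (b (l 16747712) (b (l 16741224) (l 16743920))))) (b (c (a (l 16746544) (l 16732576)) (a (l 16733904) (l 16730600))) (c (a (c (l 16746920) (l 16740736)) (c (l 16738200) (l 16737344))) (a (l 16744536) (l 16736024))))) (a (b (c (b (l 16735056) (l 29158735591)) (b (l 16732480) (l 16735296))) (c (b (c (l 27011257239) (l 28084997095)) (a (l 22716293767) (l 16741856))) (b (l 29695607655) (l 27011258535))))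 (a (b (l 16730560) (a (l 16742304) (l 16735544))) (b (l 16727488) (l 16743752))))) (a (a (a (l 3) (l 6)) (l 6)) (l 6))))) (a (l 3) (l 6)))), by decide +kernel⟩

theorem s16_pp_012_a : ∃ t, chk3 f_pp_012_a t 31 6 1 = true := ex3_b k13_pp_012_a k14_pp_012_a

theorem s17_pp_012_a : ∃ t, chk3 f_pp_012_a t 15 6 1 = true := ex3_a k12_pp_012_a s16_pp_012_a

theorem s18_pp_012_a : ∃ t, chk3 f_pp_012_a t 15 3 1 = true := ex3_b s17_pp_012_a k15_pp_012_a

theorem s19_pp_012_a : ∃ t, chk3 f_pp_012_a t 7 3 1 = true := ex3_a k11_pp_012_a s18_pp_012_a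

theorem s20_pp_012_a : ∃ t, chk3 f_pp_012_a t 62 10 1 = true := ex3_c k7_pp_012_a k8_pp_012_a

theorem s21_pp_012_a : ∃ t, chk3 f_pp_012_a t 62 5 1 = true := ex3_b s20_pp_012_a k9_pp_012_a

theorem s22_pp_012_a : ∃ t, chk3 f_pp_012_a t 31 5 1 = true := ex3_a s21_pp_012_a k10_pp_012_a

theorem s23_pp_012_a : ∃ t, chk3 f_pp_012_a t 62 4 1 = true := ex3_b k4_pp_012_a k5_pp_012_a

theorem s24_pp_012_a : ∃ t, chk3 f_pp_012_a t 31 4 1 = true := ex3_a s23_pp_012_a k6_pp_012_a

theorem s25_pp_012_a : ∃ t, chk3 f_pp_012_a t 31 2 1 = true := ex3_b s24_pp_012_a s22_pp_012_a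

theorem s26_pp_012_a : ∃ t, chk3 f_pp_012_a t 15 2 1 = true := ex3_a k3_pp_012_a s25_pp_012_a

theorem s27_pp_012_a : ∃ t, chk3 f_pp_012_a t 7 2 1 = true := ex3_a k2_pp_012_a s26_pp_012_a

theorem s28_pp_012_a : ∃ t, chk3 f_pp_012_a t 7 1 1 = true := ex3_b s27_pp_012_a s19_pp_012_a

theorem s29_pp_012_a : ∃ t, chk3 f_pp_012_a t 3 1 1 = true := ex3_a k1_pp_012_a s28_pp_012_a

theorem s30_pp_012_a : ∃ t, chk3 f_pp_012_a t 1 1 1 = true := ex3_a k0_pp_012_a s29_pp_012_a

theorem c_pp_012_a : CertF 0 536870912 0 536870912 201326592 134217728 false true true .pnp 0 1 2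
    ndF0q0 ndF2q2a pcF1 cut_pp_012_a Ext.none :=
  certF2 (fam := false) (s1 := true) (s2 := true) (a := 0) (b := 1) (c := 2) (cn := .pnp) (n1 := ndF0q0) (n2 := ndF2q2a) (pc := pcF1) (cut := cut_pp_012_a) (xt := Ext.none) (P1 := 0) (W1 := 536870912) (P2 := 0) (W2 := 536870912) (P3 := 201326592) (W3 := 134217728)
    rfl (fun _ => rfl) s30_pp_012_a

noncomputable def cut_pp_012_b : Cut := Cut.of [[⟨0, 0, 0, 67108864⟩, ⟨1, 1, 0, 67108864⟩, ⟨2, 1, 0, 67108864⟩]]

noncomputable def f_pp_012_b : ℕ → ℕ → ℕ → ℕ → Bool := onCell 536870912 536870912 1239849684 370763052 201326592 134217728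
    (rowF 2 false true true .pnp 0 1 2 (qsf 0 536870912 1239849684 370763052 1) ndF0q0 ndF2q2b pcF1 cut_pp_012_b Ext.none)

def k0_pp_012_b : ∃ t, chk3 f_pp_012_b t 2 1 1 = true :=
  ⟨(l 3), by decide +kernel⟩

def k1_pp_012_b : ∃ t, chk3 f_pp_012_b t 6 2 1 = true :=
  ⟨(l 3), by decide +kernel⟩

def k2_pp_012_b : ∃ t, chk3 f_pp_012_b t 14 2 1 = true :=
  ⟨(l 3), by decide +kernel⟩

def k3_pp_012_b : ∃ t, chk3 f_pp_012_b t 30 4 1 = true :=
  ⟨(b (a (l 3) (c (a (l 3) (a (l 3) (c (b (c (b (l 18958164695) (l 18421291495)) (b (l 21105634103) (l 22179378567))) (b (c (l 21642507015) (l 20031897943)) (l 3))) (b (b (c (l 22716242375) (l 22716242551)) (c (l 22716242983) (l 23789976599))) (b (c (l 23789983703) (l 23789977223)) (l 3)))))) (a (l 3) (a (l 3) (a (l 3) (b (c (b (c (l 16711080) (l 16707256)) (l 31306151223)) (b (l 16706832) (l 30232401319))) (b (c (l 49022902647) (l 105394328615)) (l 3)))))))) (l 3)), by decide +kernel⟩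

def k4_pp_012_b : ∃ t, chk3 f_pp_012_b t 62 4 1 = true :=
  ⟨(b (c (a (b (c (a (c (b (l 16720608) (l 16719568)) (b (l 16716776) (l 16717784))) (c (l 16712296) (l 16708424))) (b (a (c (l 16712984) (l 16709224)) (l 16702920)) (a (c (l 16713424) (l 16709112)) (l 16702752)))) (c (a (c (b (l 16715856) (l 16863480)) (b (l 16719648) (l 16720264))) (c (l 16704552) (l 16711536))) (a (c (b (l 16714704) (l 16716888)) (b (l 16709816) (l 16711408))) (l 16709304)))) (c (b (a (l 16701608) (l 16692928)) (a (l 16703872) (l 16695280))) (b (b (l 16690760) (l 16690120)) (l 16701192)))) (a (a (b (c (b (c (l 16705504) (l 16701816)) (c (l 16704848) (l 16700616))) (b (l 16696352) (l 16694368))) (c (b (c (l 16704976) (l 16700184)) (c (l 16705976) (l 16700616))) (b (l 43654168631) (c (l 16695304) (l 16690056))))) (b (c (l 16708248) (l 16687752)) (c (l 16715248) (l 16684704)))) (b (c (l 16704408) (l 16676704)) (c (l 16681656) (l 16672792))))) (c (c (b (a (b (c (l 16913888) (a (l 16803832) (l 16802840))) (c (l 16968776)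 (l 16873464))) (c (l 16909096) (l 16694968))) (a (c (l 17041848) (l 21642841847)) (l 16910448))) (b (a (a (c (b (l 16706840) (l 16768336)) (b (l 16713944) (l 16717488))) (c (l 16712840) (l 16706064))) (l 16694752)) (a (a (b (c (l 16845712) (l 16735856)) (l 28621901095)) (l 16714576)) (l 16691320)))) (a (b (c (a (b (c (l 16707912) (l 16701952)) (c (l 16710848) (l 16704272))) (l 16696952)) (a (b (c (l 16696056) (l 16690224)) (c (l 16697776) (l 16691344))) (l 16685048))) (c (a (b (c (l 16714832) (l 16707640)) (l 36137991895)) (l 16703680)) (a (b (l 42580416055) (l 42580413975)) (l 16689312)))) (b (c (l 16683344) (l 16672176)) (c (l 16688952) (l 16675360)))))), by decide +kernel⟩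

def k5_pp_012_b : ∃ t, chk3 f_pp_012_b t 63 4 1 = true :=
  ⟨(a (b (c (c (b (l 16680040) (l 16681304)) (b (l 16674056) (l 16673128))) (b (l 16686176) (l 16682096))) (c (c (b (l 16763320) (l 16942024)) (b (l 16675848) (l 16721824))) (b (l 16681368) (l 16663392)))) (c (b (c (b (l 16663032) (l 16662968)) (b (l 16658064) (l 16655888))) (c (b (l 16743376) (l 16901856)) (l 16669600))) (b (b (l 16650640) (l 16645424)) (b (l 16643440) (l 16645032))))), by decide +kernel⟩

def k6_pp_012_b : ∃ t, chk3 f_pp_012_b t 15 5 1 = true :=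
  ⟨(a (l 3) (c (b (a (c (b (a (l 17083568) (l 17070488)) (l 17152568)) (b (a (b (l 27548270903) (l 16943480)) (l 16827752)) (a (l 16963944) (l 16986304)))) (b (c (l 17019608) (a (l 16853608) (l 16808424))) (c (l 17134728) (a (l 16961424) (l 16930664))))) (a (c (l 40970777031) (b (l 38822953911) (l 17133432))) (c (l 17241568) (b (l 17040432) (l 17116592))))) (b (a (a (b (c (b (c (l 16708824) (l 36138006823)) (l 35601151575)) (a (b (l 40432936871) (l 38285462567)) (l 16698104))) (c (b (a (l 16820736) (l 16824944)) (l 16816312)) (a (b (l 35601120407) (l 16722496)) (l 16712088)))) (b (c (l 16710360) (l 16682952)) (c (l 16759568) (l 16695544)))) (b (a (l 16670632) (l 16650704)) (a (l 16691456) (l 16661016)))) (a (b (c (a (a (l 16946192) (l 16935616)) (l 16916624)) (a (a (l 29158718375) (l 16712288)) (l 16704536))) (a (c (l 17011864) (a (l 39359416759) (l 16881568))) (c (l 16995384) (l 16859960)))) (a (b (l 16700776) (l 16838088)) (b (l 16762968) (l 16869672))))))), by decide +kernel⟩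

def k7_pp_012_b : ∃ t, chk3 f_pp_012_b t 3 3 1 = true :=
  ⟨(a (l 3) (a (l 3) (b (a (l 3) (b (c (a (b (l 49023751239) (l 17277360)) (c (l 17335680) (l 17203832))) (a (c (b (l 47412910151) (l 17117280)) (b (a (a (l 3) (l 16953680)) (l 16937776)) (a (l 44728433815) (l 17002848)))) (b (a (l 16980376) (l 16957944)) (c (l 17101440) (l 16975488))))) (c (a (l 51708346119) (l 17334560)) (a (b (c (l 17158960) (l 47949810119)) (l 48486763271)) (b (l 17094984) (l 17140888)))))) (a (l 3) (b (c (a (l 17336632) (l 17364432)) (a (b (l 17178232) (l 17199928)) (l 17191592))) (c (l 17351320) (a (l 17219136) (l 17230104)))))))), by decide +kernel⟩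

theorem s8_pp_012_b : ∃ t, chk3 f_pp_012_b t 31 4 1 = true := ex3_a k4_pp_012_b k5_pp_012_b

theorem s9_pp_012_b : ∃ t, chk3 f_pp_012_b t 15 4 1 = true := ex3_a k3_pp_012_b s8_pp_012_b

theorem s10_pp_012_b : ∃ t, chk3 f_pp_012_b t 15 2 1 = true := ex3_b s9_pp_012_b k6_pp_012_b

theorem s11_pp_012_b : ∃ t, chk3 f_pp_012_b t 7 2 1 = true := ex3_a k2_pp_012_b s10_pp_012_b

theorem s12_pp_012_b : ∃ t, chk3 f_pp_012_b t 3 2 1 = true := ex3_a k1_pp_012_b s11_pp_012_b

theorem s13_pp_012_b : ∃ t, chk3 f_pp_012_b t 3 1 1 = true := ex3_b s12_pp_012_b k7_pp_012_b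

theorem s14_pp_012_b : ∃ t, chk3 f_pp_012_b t 1 1 1 = true := ex3_a k0_pp_012_b s13_pp_012_b

theorem c_pp_012_b : CertF 0 536870912 1239849684 370763052 201326592 134217728 false true true .pnp 0 1 2
    ndF0q0 ndF2q2b pcF1 cut_pp_012_b Ext.none :=
  certF2 (fam := false) (s1 := true) (s2 := true) (a := 0) (b := 1) (c := 2) (cn := .pnp) (n1 := ndF0q0) (n2 := ndF2q2b) (pc := pcF1) (cut := cut_pp_012_b) (xt := Ext.none) (P1 := 0) (W1 := 536870912) (P2 := 1239849684) (W2 := 370763052) (P3 := 201326592) (W3 := 134217728)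
    rfl (fun _ => rfl) s14_pp_012_b

noncomputable def cut_pp_022_a : Cut := Cut.of [[⟨0, 0, 0, 67108864⟩, ⟨1, 1, 0, 67108864⟩, ⟨2, 1, 0, 67108864⟩]]

noncomputable def f_pp_022_a : ℕ → ℕ → ℕ → ℕ → Bool := onCell 1073741824 536870912 0 536870912 201326592 134217728
    (rowF 2 false true true .pp 0 2 2 (qsf 0 536870912 0 536870912 2) ndF0q0 ndF2q2a pcF2 cut_pp_022_a Ext.none)

def k0_pp_022_a : ∃ t, chk3 f_pp_022_a t 8 2 1 = true :=
  ⟨(b (a (a (c (b (c (l 16696464) (l 16680528)) (c (b (l 16668896) (l 16692848)) (b (l 16663472) (l 16666576)))) (b (l 16672408) (b (l 16655384) (l 16679632)))) (c (b (l 16663072) (c (l 16659568) (l 16634968))) (b (l 16624128) (l 16650464)))) (c (b (c (l 16628856) (l 16606544)) (a (l 16627128) (l 16596720))) (b (l 16625424) (c (l 16630824) (l 16629536))))) (a (a (a (b (c (c (b (l 16683320) (l 16687064)) (b (l 16677760) (l 16681768))) (b (l 16669448) (l 16673808))) (c (b (c (l 16712312) (l 16686344)) (c (b (l 16694904) (l 16697488)) (l 16691544))) (b (l 16699800)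 (l 16705528)))) (b (c (c (l 16690088) (l 16664584)) (l 16678728)) (c (c (b (l 16675304) (l 16680192)) (l 16694736)) (b (l 16664968) (l 16670712))))) (c (b (c (l 16666184) (l 16662920)) (c (b (l 16651400) (l 16677216)) (b (l 16648544) (l 16653736)))) (b (l 16678952) (b (l 16644200) (l 16670864))))) (c (b (a (c (l 16634496) (l 16632880)) (c (l 16602888) (l 16602856))) (a (c (l 16653328) (l 16641816)) (c (l 16618280) (l 16611576)))) (b (a (l 16630360) (l 16602648)) (a (l 16650640) (l 16617424)))))), by decide +kernel⟩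

def k1_pp_022_a : ∃ t, chk3 f_pp_022_a t 18 2 1 = true :=
  ⟨(b (c (b (c (l 16557216) (l 16545384)) (c (b (l 16572208) (l 16567136)) (l 16563024))) (b (l 16564544) (l 16566144))) (c (b (a (b (l 16584496) (l 16582712)) (c (b (l 16562720) (l 16571360)) (l 16585600))) (a (c (b (l 16583320) (l 16616208)) (a (l 16609224) (l 16608008))) (c (b (l 16581520) (a (l 16593784) (l 16592288))) (b (l 16578624) (l 16590000))))) (b (a (l 16586744) (l 16581960)) (a (c (l 16607064) (l 16605504)) (b (l 16574472) (l 16606440)))))), by decide +kernel⟩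

def k2_pp_022_a : ∃ t, chk3 f_pp_022_a t 38 2 1 = true :=
  ⟨(b (c (b (c (l 16542512) (l 16539352)) (c (b (l 16547224) (l 16552632)) (l 16546664))) (b (l 16534856) (c (l 16543408) (l 16540280)))) (b (c (c (b (a (l 16560432) (l 16558624)) (a (l 16568968) (l 16567088))) (b (l 16555976) (l 16564280))) (c (b (l 16552456) (l 16560560)) (l 16574128))) (c (c (b (a (l 16589456) (c (l 16578088) (l 16575912))) (a (c (l 16591360) (l 16589368)) (c (b (l 16586360) (l 16592336)) (l 16587128)))) (b (a (l 16575224) (l 16572680)) (a (l 16586408) (c (l 16584872) (l 16582632))))) (b (c (l 16570088) (l 16566240)) (c (a (l 16582528) (l 16579304)) (a (l 16578712) (l 16574912))))))), by decide +kernel⟩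

def k3_pp_022_a : ∃ t, chk3 f_pp_022_a t 39 2 1 = true :=
  ⟨(b (c (b (a (c (l 16539312) (l 16535304)) (c (l 16536928) (l 16532400))) (a (c (l 16546952) (l 16542704)) (c (b (l 16541784) (l 16547184)) (l 16560800)))) (a (b (l 16529568) (l 16536592)) (b (l 16546848) (c (l 16535184) (l 16530680))))) (c (b (a (c (b (l 16556472) (l 16564880)) (b (l 16551976) (l 16560200))) (c (b (l 16569808) (c (l 16584712) (l 16561112))) (b (l 16549064) (a (l 16557848) (l 16556200))))) (a (c (b (c (l 16575920) (l 16573464)) (c (b (l 16584104) (a (l 16590624) (l 16589352))) (b (l 16581584) (l 16587448)))) (b (l 16569824) (b (l 16577840) (c (l 16584904) (l 16582368))))) (c (b (c (a (l 16573984) (l 16583080)) (a (l 16571336) (l 16569832))) (b (c (a (l 16582096) (l 16580664)) (a (l 16579392) (l 16577848))) (a (c (b (l 16586440) (l 16589448)) (l 16585216)) (c (b (l 16584984) (l 1)) (l 16583632))))) (b (a (l 16567416) (b (l 16563136) (l 16568224))) (a (b (l 16575368) (c (l 16582480) (l 16579760))) (b (c (l 16575040)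 (l 16572240)) (c (l 16580784) (l 16577944)))))))) (b (a (c (l 16551768) (l 16547416)) (c (b (l 16544160) (l 16573104)) (b (l 16539392) (l 16547144)))) (a (b (c (l 16565048) (l 16560360)) (c (b (l 16572896) (l 16578592)) (l 16570848))) (b (c (a (l 16562248) (l 16560312)) (a (l 16557168) (l 16554976))) (c (a (b (l 16570048) (l 16575696)) (b (l 16568072) (l 16573688))) (a (l 16567584) (l 16565344)))))))), by decide +kernel⟩

def k4_pp_022_a : ∃ t, chk3 f_pp_022_a t 40 2 1 = true :=
  ⟨(b (c (a (b (c (l 16535672) (l 16530440)) (c (b (l 16540464) (l 16556272)) (b (l 16535072) (l 16540248)))) (b (c (b (l 16535200) (l 16537312)) (l 16530192)) (c (b (l 16540960) (c (l 16547728) (l 16544464))) (b (l 16534640) (l 16560616))))) (a (b (l 16543864) (c (l 16553432) (l 16527288))) (b (c (l 16524200) (l 16518392)) (c (b (l 16528496) (l 16533368)) (b (l 16522528) (l 16527264)))))) (b (c (a (c (b (c (l 16554016) (l 16551136)) (c (a (l 16562088) (l 16562096)) (a (l 16559248) (l 16559040)))) (b (l 16567848) (a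 (l 16555032) (l 16564992)))) (c (b (c (a (l 16554056) (l 16554248)) (a (l 16550856) (l 16550816))) (a (c (l 16572584) (l 16558824)) (c (b (l 16559976) (l 16564256)) (l 16558664)))) (b (a (l 16546112) (c (l 16547424) (l 16544072))) (a (b (l 16551808) (l 16556072)) (b (l 16551352) (l 16555552)))))) (a (c (b (l 16541312) (a (l 16549504) (l 16548568))) (b (l 16535880) (a (l 16544088) (l 16542736)))) (b (c (a (l 16539920) (l 16539112)) (a (l 16533872) (l 16532640))) (c (a (l 16558104) (l 16546696)) (a (l 16541376) (l 16540040)))))) (c (a (a (b (c (c (b (l 16569128) (l 16574272)) (b (l 16566224) (l 16571336))) (c (l 16576408) (l 16563040))) (a (b (c (c (l 16579768) (l 16576848)) (l 16572488)) (l 1)) (l 1))) (b (c (b (c (l 16569016) (l 16565912)) (c (l 16574088) (l 16570952))) (c (l 16565368) (l 16562280))) (l 1))) (a (b (b (c (c (l 16568912) (l 16565600)) (l 16560664)) (l 1)) (l 1)) (l 1))) (a (a (b (c (b (l 16556240) (l 16561184)) (l 16553104)) (c (b (l 16566448) (l 1)) (l 16563384))) (b (c (l 16557688)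 (l 16551640)) (l 1))) (a (b (c (l 16556624) (l 16550176)) (l 1)) (l 1)))))), by decide +kernel⟩

def k5_pp_022_a : ∃ t, chk3 f_pp_022_a t 41 4 2 = true :=
  ⟨(a (a (b (c (l 16536856) (l 16529960)) (c (b (l 16541288) (c (l 16548080) (l 16544472))) (b (l 16534272) (l 16539144)))) (b (c (b (l 16536320) (l 16538280)) (l 16550984)) (c (b (c (l 16543624) (l 16539816)) (c (l 16548512) (l 16544664))) (b (l 16534208) (c (l 16540864) (l 16537112)))))) (c (b (a (b (c (l 16538968) (l 16534984)) (c (l 16540864) (l 16536840))) (a (b (c (a (l 16539752) (l 16540072)) (l 16546096)) (c (a (l 16541584) (l 16541880)) (l 41372157319))) (a (b (c (a (a (l 16540400) (a (l 16540544) (l 16551144))) (l 16540744)) (a (a (l 16536112) (a (l 16536232) (l 16536336))) (l 16536400))) (l 1)) (l 1)))) (a (b (c (l 16139236119) (l 16550648)) (c (b (l 16547600) (l 1)) (l 16544904))) (a (b (c (b (l 16543872) (l 1)) (l 16540640)) (l 1)) (l 1)))) (b (a (b (l 16529104) (c (l 16532880) (l 16528976))) (a (b (c (l 16531472) (l 16527392))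 (c (l 45667116279) (l 16539616))) (b (a (a (a (l 16529792) (a (l 16529888) (c (l 16532080) (l 16527880)))) (l 16530000)) (l 1)) (l 1)))) (a (b (c (l 16536168) (l 16532216)) (c (l 16540856) (l 16536872))) (a (b (c (l 16536440) (l 16532304)) (l 1)) (l 1)))))), by decide +kernel⟩

def k6_pp_022_a : ∃ t, chk3 f_pp_022_a t 41 4 3 = true :=
  ⟨(a (b (c (a (l 16523280) (l 16522840)) (a (l 16516792) (l 16515888))) (c (b (a (l 16527448) (l 16526912)) (a (l 16532208) (l 16531576))) (b (l 16541272) (a (l 16525448) (l 16524368))))) (b (c (a (b (l 16521472) (l 16523224)) (a (b (a (l 16521480) (l 16521488)) (a (l 16523184) (l 16523168))) (b (a (a (a (l 16521584) (a (l 16521640) (l 16532184))) (l 16521688)) (l 1)) (l 1)))) (a (b (l 16514072) (l 16515760)) (a (b (l 16513608) (l 16536208)) (b (a (a (a (l 16513624) (a (l 16513648) (l 16513680))) (l 16513632)) (l 1)) (l 1))))) (b (a (c (l 28487235399) (l 16518848)) (a (c (a (l 16526304) (l 1)) (l 16518264)) (l 1))) (a (c (l 16541464) (l 16523304)) (l 1))))),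 by decide +kernel⟩

def k7_pp_022_a : ∃ t, chk3 f_pp_022_a t 41 5 1 = true :=
  ⟨(a (b (a (c (c (b (c (l 16554496) (l 16550832)) (c (l 16562248) (l 16558536))) (b (c (l 16547216) (l 16543632)) (l 16553032))) (b (c (l 16538344) (l 16531432)) (c (l 16545816) (l 16538728)))) (b (c (c (c (l 16554792) (l 16550896)) (c (l 16547048) (l 16543240))) (c (l 16537608) (l 16530256))) (l 1))) (l 1)) (l 1)), by decide +kernel⟩

def k8_pp_022_a : ∃ t, chk3 f_pp_022_a t 21 2 1 = true :=
  ⟨(b (b (l 1) (l 1)) (l 1)), by decide +kernel⟩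

def k9_pp_022_a : ∃ t, chk3 f_pp_022_a t 11 2 1 = true :=
  ⟨(l 1), by decide +kernel⟩

def k10_pp_022_a : ∃ t, chk3 f_pp_022_a t 8 6 1 = true :=
  ⟨(a (b (a (a (c (b (c (b (l 16700248) (l 16703176)) (l 16697456)) (c (b (l 16706288) (l 16730528)) (b (l 16702368) (l 16705880)))) (b (c (l 16693192) (l 16688904)) (c (l 16700288) (l 16696440)))) (c (b (c (l 16685696) (l 16682328)) (c (l 16691920) (l 16688992))) (b (l 16677200) (l 16684520)))) (b (c (c (l 16682712) (l 16680592)) (l 16677328)) (c (c (l 16688992) (l 16687280)) (c (l 16685520) (l 16683712))))) (a (b (c (a (c (b (l 16723288) (a (l 16720232) (l 16712272))) (a (l 16725544) (l 16707520))) (c (l 16719552) (l 16696200))) (a (b (l 16704288) (l 16729464)) (l 16713504))) (a (a (b (c (c (l 16723912) (l 16720952)) (l 16716416)) (c (c (l 16738352) (l 16725224)) (l 16731632))) (c (c (l 16728432) (l 16715552)) (l 16722352))) (c (c (l 16724432) (l 16725248)) (b (l 16699120) (l 16703864))))) (a (c (b (c (l 16703696) (l 16681128)) (c (l 16700816)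 (l 16710240))) (b (l 16699616) (l 16708560))) (c (b (l 16682232) (c (l 16695584) (l 16695224))) (b (l 16685688) (l 16684136)))))) (b (a (c (b (c (l 16650800) (l 16650272)) (c (l 16657136) (l 16656960))) (b (l 16649360) (l 16656600))) (c (b (c (l 16630528) (l 16608784)) (c (l 16635320) (l 16644736))) (b (l 16628720) (l 16637968)))) (c (a (b (c (l 16664016) (l 16664264)) (b (c (l 16677936) (l 16677472)) (c (l 16677464) (l 16676784)))) (b (c (a (l 16663216) (l 16651936)) (a (l 16662088) (l 16660672))) (a (c (b (l 16656096) (l 16665808)) (l 16675224)) (c (b (l 16655032) (l 16675048)) (b (l 16653008) (l 16662360)))))) (a (b (l 16664552) (b (l 16676824) (l 16678408))) (b (a (l 16660448) (l 16658072)) (a (c (l 16678936) (l 16677408)) (b (l 16649952) (c (l 16660120) (l 16657856))))))))), by decide +kernel⟩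

def k11_pp_022_a : ∃ t, chk3 f_pp_022_a t 18 12 1 = true :=
  ⟨(c (b (a (c (l 16619096) (l 16606480)) (c (a (l 16606848) (b (l 16601728) (l 16608496))) (a (l 16603800) (l 16601544)))) (a (c (a (l 16623800) (l 16633224)) (a (l 16621752) (l 16620056))) (c (a (b (l 16617416) (l 16624960)) (b (l 16620816) (c (l 16623968) (l 16622032)))) (a (l 16628464) (b (l 16611808) (l 16619128)))))) (a (b (l 16624392) (c (l 16639616) (l 16637312))) (b (c (l 16620432) (l 16596216)) (c (a (l 16614720) (b (l 16608048) (l 16615248))) (a (l 16611480) (l 16607888)))))), by decide +kernel⟩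

def k12_pp_022_a : ∃ t, chk3 f_pp_022_a t 18 26 1 = true :=
  ⟨(c (a (c (a (b (l 16636008) (l 16644736)) (b (l 16634736) (c (l 16644080) (l 16642552)))) (a (l 16659032) (b (l 16631832) (l 16640248)))) (c (a (b (c (l 16633928) (l 16632184)) (c (a (l 16642848) (b (l 16639736) (l 16644032))) (a (l 16641104) (l 16650512)))) (b (c (a (l 16632488) (b (l 16629352) (l 16633432))) (b (l 16627920) (l 16631984))) (a (c (b (l 16638712) (l 16642968)) (b (l 16636720) (l 16640944))) (c (b (l 16637576) (l 1)) (l 16637576))))) (a (b (l 16629576) (a (l 16638480) (c (l 16638136) (l 16636248)))) (b (a (l 16627632) (c (l 16627272) (l 16625192))) (a (b (l 16633720) (l 16637888)) (b (l 16632272) (l 1))))))) (a (a (c (l 16635680) (l 16633312)) (c (b (l 16628928) (l 16637152)) (l 16640584))) (a (b (c (l 16626080) (l 16622576)) (c (a (l 16634952) (l 16633384)) (l 16630480))) (b (c (l 17213127463) (l 16618832)) (c (a (l 16631736) (l 16630008)) (l 16626616)))))), by decide +kernel⟩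

def k13_pp_022_a : ∃ t, chk3 f_pp_022_a t 18 27 1 = true :=
  ⟨(a (c (b (c (a (l 16664272) (a (l 16663112) (c (l 16657816) (l 16650896)))) (a (l 16651144) (a (l 16649536) (c (l 16649208) (l 16647512))))) (b (c (a (l 16660736) (a (l 26340001687) (c (l 16659392) (l 16657664)))) (a (l 16657976) (a (l 16656280) (l 16655048)))) (a (c (c (l 16666184) (l 16664776)) (l 16662640)) (a (c (c (l 16664976) (l 16663352)) (l 16660888)) (l 1))))) (a (b (c (l 16648480) (l 16645792)) (c (a (l 16658152) (l 16656768)) (l 16654576))) (b (c (a (l 16646416) (l 16644944)) (l 16642384)) (c (b (l 16652272) (a (l 16657536) (l 1))) (b (l 16648808) (l 16653208)))))) (a (b (c (c (b (c (a (l 16649392) (a (l 16648648) (l 16648120))) (a (l 16647600) (l 16646464))) (a (c (l 16653864) (l 16652040)) (l 1))) (b (a (l 16644888) (l 16643552)) (a (l 16649264) (l 1)))) (c (a (l 16643392) (l 16641760)) (a (l 16639632) (l 16637712)))) (l 1)) (l 1))), by decide +kernel⟩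

def k14_pp_022_a : ∃ t, chk3 f_pp_022_a t 38 12 1 = true :=
  ⟨(c (b (c (a (c (b (l 16600720) (a (l 16607936) (l 16606840))) (b (l 16598656) (l 16605304))) (b (c (a (l 16599152) (l 16598064)) (l 16596296)) (c (a (l 16605776) (b (l 16602944) (l 16608928))) (a (l 16603472) (l 16602200))))) (a (b (l 16595584) (l 16602160)) (b (c (l 16593976) (l 16591656)) (c (l 22044917223) (l 16598128))))) (c (a (b (c (a (l 16614960) (b (l 16612008) (l 16615568))) (a (l 16612880) (l 16611600))) (a (c (b (l 16620392) (l 16624216)) (l 16620200)) (c (b (a (l 16619488) (l 16618896)) (a (l 16623296) (l 16622680))) (b (l 16616968) (l 16620736))))) (a (b (c (b (l 16610912) (c (l 16615032) (l 16613856))) (l 16610352)) (c (b (a (l 16618328) (l 1)) (l 1)) (l 16617568))) (b (b (c (a (l 16610040) (l 16609424)) (l 16607280)) (l 1)) (l 1)))) (c (a (b (l 16610120) (a (l 16618072) (l 16616616))) (b (a (l 16608016) (l 16606560)) (l 16614456))) (a (b (l 16607976) (l 16615168)) (b (l 16604896) (l 16611992)))))) (b (a (c (l 16605288)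 (l 16590720)) (c (b (l 16588200) (l 30634842135)) (b (l 16583616) (l 16589864)))) (a (c (b (l 16604752) (a (l 16612728) (l 16610960))) (b (l 16600464) (l 16607424))) (c (b (c (l 16602480) (l 16600056)) (l 16608280)) (b (l 16596416) (l 16603288)))))), by decide +kernel⟩

def k15_pp_022_a : ∃ t, chk3 f_pp_022_a t 39 12 1 = true :=
  ⟨(a (b (c (c (b (c (a (b (l 16595248) (l 16598440)) (b (l 16593944) (a (l 16597456) (l 16596768)))) (a (l 16594328) (b (l 16591296) (l 16594448)))) (a (c (b (c (l 16602352) (l 16601072)) (c (l 16605688) (l 16604408))) (b (l 16599152) (l 16602472))) (l 1))) (b (c (a (l 16591800) (l 16590232)) (l 16588456)) (a (c (l 16598256) (l 16595696)) (l 1)))) (c (b (a (l 16585520) (l 16583632)) (a (l 16591848) (l 1))) (b (l 16579456) (l 16585632)))) (l 1)) (a (a (b (b (c (c (c (l 16594480) (l 16591736)) (l 16587624)) (c (l 16582152) (l 16576696))) (l 1)) (l 1)) (l 1)) (l 1))), by decide +kernel⟩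

def k16_pp_022_a : ∃ t, chk3 f_pp_022_a t 19 13 1 = true :=
  ⟨(a (a (a (b (b (c (c (c (b (c (l 16628728) (l 16627648)) (l 16632232)) (b (l 16626024) (l 16630032))) (b (l 16622752) (l 16626704))) (c (l 16620304) (l 16615816))) (l 1)) (l 1)) (l 1)) (l 1)) (l 1)), by decide +kernel⟩

def k17_pp_022_a : ∃ t, chk3 f_pp_022_a t 8 7 1 = true :=
  ⟨(a (b (a (b (b (a (a (c (c (c (l 16743208) (l 16731560)) (l 16740288)) (c (l 16727400) (l 16724944))) (c (c (l 16724280) (l 16722320)) (l 16719288))) (c (c (l 16733464) (l 16711088)) (l 16708904))) (b (b (a (c (c (a (l 16734984) (l 16727136)) (l 16739568)) (c (l 16727056) (l 16724984))) (c (l 16725256) (l 16712208))) (l 6)) (l 6))) (l 6)) (b (a (c (b (l 16712200) (c (l 16722472) (l 16722032))) (b (l 16715992) (l 16721328))) (c (c (l 16697976) (l 16696704)) (l 16698144))) (l 6))) (l 6)) (b (b (a (a (c (b (l 16687776) (c (l 16698888) (l 16708592))) (b (l 16676176) (l 16696912))) (c (b (c (l 16676904) (l 16675704)) (c (b (l 16684752) (l 6)) (l 16686104)))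 (b (l 16673880) (c (l 16684672) (l 16683200))))) (c (b (a (c (l 16675832) (l 16674032)) (c (a (l 16674768) (c (l 16674592) (l 16673352))) (a (l 16672536) (l 16671464)))) (b (a (c (l 16683520) (l 16681592)) (c (a (l 16682344) (c (l 16682120) (l 16680824))) (a (l 16679992) (l 16678848)))) (a (l 6) (a (l 6) (a (l 6) (l 1)))))) (b (a (l 16681752) (c (a (l 16670256) (l 16668888)) (l 16667104))) (b (a (l 16678600) (c (l 16676872) (l 16674224))) (a (l 6) (a (l 6) (l 16679688))))))) (a (l 6) (a (l 6) (a (l 6) (l 1))))) (a (l 6) (l 1)))), by decide +kernel⟩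

def k18_pp_022_a : ∃ t, chk3 f_pp_022_a t 9 7 1 = true :=
  ⟨(a (b (b (a (c (b (b (a (c (c (l 16671024) (l 16669584)) (a (l 16667936) (l 16666792))) (c (l 16668416) (l 16664928))) (a (c (a (c (l 16676320) (l 16674920)) (l 16674728)) (a (l 16672776) (l 16671592))) (l 1))) (a (b (c (l 16680160) (l 16677096)) (l 1)) (l 1))) (b (a (c (b (l 16664400) (a (l 16669856) (l 16668368))) (b (l 16661336) (l 16665960))) (c (l 16663688) (l 16659968))) (a (c (l 16676416) (l 16673088)) (l 1)))) (l 1)) (l 1)) (l 1)) (l 1)), by decide +kernel⟩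

def k19_pp_022_a : ∃ t, chk3 f_pp_022_a t 5 3 1 = true :=
  ⟨(b (l 1) (l 1)), by decide +kernel⟩

def k20_pp_022_a : ∃ t, chk3 f_pp_022_a t 3 1 1 = true :=
  ⟨(l 1), by decide +kernel⟩

theorem s21_pp_022_a : ∃ t, chk3 f_pp_022_a t 4 7 1 = true := ex3_a k17_pp_022_a k18_pp_022_a

theorem s22_pp_022_a : ∃ t, chk3 f_pp_022_a t 19 12 1 = true := ex3_a k14_pp_022_a k15_pp_022_a

theorem s23_pp_022_a : ∃ t, chk3 f_pp_022_a t 19 6 1 = true := ex3_b s22_pp_022_a k16_pp_022_a

theorem s24_pp_022_a : ∃ t, chk3 f_pp_022_a t 18 13 1 = true := ex3_b k12_pp_022_a k13_pp_022_a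

theorem s25_pp_022_a : ∃ t, chk3 f_pp_022_a t 18 6 1 = true := ex3_b k11_pp_022_a s24_pp_022_a

theorem s26_pp_022_a : ∃ t, chk3 f_pp_022_a t 9 6 1 = true := ex3_a s25_pp_022_a s23_pp_022_a

theorem s27_pp_022_a : ∃ t, chk3 f_pp_022_a t 4 6 1 = true := ex3_a k10_pp_022_a s26_pp_022_a

theorem s28_pp_022_a : ∃ t, chk3 f_pp_022_a t 4 3 1 = true := ex3_b s27_pp_022_a s21_pp_022_a

theorem s29_pp_022_a : ∃ t, chk3 f_pp_022_a t 2 3 1 = true := ex3_a s28_pp_022_a k19_pp_022_a

theorem s30_pp_022_a : ∃ t, chk3 f_pp_022_a t 41 4 1 = true := ex3_c k5_pp_022_a k6_pp_022_a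

theorem s31_pp_022_a : ∃ t, chk3 f_pp_022_a t 41 2 1 = true := ex3_b s30_pp_022_a k7_pp_022_a

theorem s32_pp_022_a : ∃ t, chk3 f_pp_022_a t 20 2 1 = true := ex3_a k4_pp_022_a s31_pp_022_a

theorem s33_pp_022_a : ∃ t, chk3 f_pp_022_a t 10 2 1 = true := ex3_a s32_pp_022_a k8_pp_022_a

theorem s34_pp_022_a : ∃ t, chk3 f_pp_022_a t 5 2 1 = true := ex3_a s33_pp_022_a k9_pp_022_a

theorem s35_pp_022_a : ∃ t, chk3 f_pp_022_a t 19 2 1 = true := ex3_a k2_pp_022_a k3_pp_022_a

theorem s36_pp_022_a : ∃ t, chk3 f_pp_022_a t 9 2 1 = true := ex3_a k1_pp_022_a s35_pp_022_a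

theorem s37_pp_022_a : ∃ t, chk3 f_pp_022_a t 4 2 1 = true := ex3_a k0_pp_022_a s36_pp_022_a

theorem s38_pp_022_a : ∃ t, chk3 f_pp_022_a t 2 2 1 = true := ex3_a s37_pp_022_a s34_pp_022_a

theorem s39_pp_022_a : ∃ t, chk3 f_pp_022_a t 2 1 1 = true := ex3_b s38_pp_022_a s29_pp_022_a

theorem s40_pp_022_a : ∃ t, chk3 f_pp_022_a t 1 1 1 = true := ex3_a s39_pp_022_a k20_pp_022_a

theorem c_pp_022_a : CertF 0 536870912 0 536870912 201326592 134217728 false true true .pp 0 2 2
    ndF0q0 ndF2q2a pcF2 cut_pp_022_a Ext.none :=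
  certF2 (fam := false) (s1 := true) (s2 := true) (a := 0) (b := 2) (c := 2) (cn := .pp) (n1 := ndF0q0) (n2 := ndF2q2a) (pc := pcF2) (cut := cut_pp_022_a) (xt := Ext.none) (P1 := 0) (W1 := 536870912) (P2 := 0) (W2 := 536870912) (P3 := 201326592) (W3 := 134217728)
    rfl (fun _ => rfl) s40_pp_022_a

noncomputable def cut_pp_022_b : Cut := Cut.of [[⟨0, 0, 0, 67108864⟩, ⟨1, 1, 0, 67108864⟩, ⟨2, 1, 0, 67108864⟩]]

noncomputable def f_pp_022_b : ℕ → ℕ → ℕ → ℕ → Bool := onCell 0 536870912 1073741824 536870912 201326592 134217728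
    (rowF 1 false true true .pp 0 2 2 (qsf 0 536870912 1239849684 370763052 2) ndF0q0 ndF2q2b pcF2 cut_pp_022_b Ext.none)

def k0_pp_022_b : ∃ t, chk3 f_pp_022_b t 4 4 1 = true :=
  ⟨(a (b (l 1) (b (b (l 1) (a (l 1) (a (l 1) (a (l 1) (c (l 16579880) (l 16554440)))))) (b (a (l 1) (c (c (a (l 15602442359) (l 16559440)) (a (l 16558536) (l 16535456))) (c (l 17749918519) (l 16582856)))) (a (a (l 1) (b (l 1) (c (c (l 16570880) (l 16566192)) (l 19897371271)))) (c (b (c (l 23655451159) (l 16546736)) (c (a (l 16548032) (l 16503512)) (l 16553464))) (b (l 16562416) (a (l 16537680) (l 16515760)))))))) (b (b (b (l 1) (a (l 1) (c (c (l 16659696) (l 16657304)) (l 16653712)))) (a (b (l 1) (c (a (l 1) (l 16596736)) (l 16623760))) (c (b (l 16633224) (l 6475643319)) (b (l 16619160) (l 16584512))))) (b (a (c (c (a (l 16597216) (l 16571880)) (a (l 16595656) (l 16571128))) (b (l 16595952) (l 16567824))) (c (c (l 16557376) (l 16554280)) (l 16548224))) (b (c (a (c (a (l 16535072) (l 16509848)) (l 16541760)) (c (l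 16568248) (l 16481288))) (a (c (l 16540032) (l 16496480)) (l 16481312))) (b (c (a (a (l 16512784) (l 16487960)) (l 16485832)) (a (a (l 16486872) (l 16463832)) (l 16435120))) (a (c (c (l 16508600) (l 16485232)) (l 16502904)) (c (l 16575128) (l 16439288)))))))), by decide +kernel⟩

def k1_pp_022_b : ∃ t, chk3 f_pp_022_b t 4 40 1 = true :=
  ⟨(a (a (a (a (l 1) (b (l 1) (c (c (l 16543400) (l 16537192)) (l 16554376)))) (c (b (c (l 16558232) (l 16532072)) (c (l 16547920) (l 16521000))) (b (l 16556016) (l 16554392)))) (c (b (c (a (l 16514512) (l 16491032)) (l 16519528)) (c (l 16534888) (l 16508792))) (b (c (l 16515328) (l 16511312)) (l 16527768)))) (a (c (c (b (l 16499352) (l 16606088)) (a (l 16500608) (l 16476304))) (c (l 16506560) (l 16503736))) (c (b (l 16659640) (l 16739704)) (l 16463032)))), by decide +kernel⟩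

def k2_pp_022_b : ∃ t, chk3 f_pp_022_b t 8 41 1 = true :=
  ⟨(b (a (c (c (a (b (l 16562136) (l 29561014663)) (l 16538072)) (a (b (l 16534272) (l 16550040)) (l 16531328))) (a (c (b (l 16527568) (l 16521960)) (b (l 16521040) (l 16515064))) (c (l 16503872) (l 16497640)))) (c (c (l 16525328) (l 16498448)) (a (l 16500752) (l 16458248)))) (a (c (c (a (b (c (l 16554760) (l 16550808)) (a (b (c (l 16535984) (l 16531816)) (c (b (b (b (l 16535152) (b (l 16535056) (l 16535024))) (l 16534704)) (l 16533816)) (b (b (b (l 16530888) (b (l 16530776) (l 16530728))) (l 16530400)) (l 16529472)))) (a (b (l 16526032) (c (b (l 16547888) (l 16525992)) (l 16543056))) (b (l 16520760) (c (l 16542032) (l 16537824)))))) (b (l 16510392) (b (l 16507400) (c (l 16539144) (l 16524576))))) (a (b (c (l 16546928) (l 16543096)) (b (a (c (l 16527704) (l 16523664)) (l 16515344)) (a (b (b (b (l 16524624) (b (l 16524488) (c (l 16526504) (l 16522344)))) (l 16524056)) (l 16523080)) (c (a (l 16538872) (l 16533696)) (l 16537456))))) (b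 (l 16503008) (b (l 16499656) (a (l 16523848) (l 16513288)))))) (a (b (c (l 31171595063) (l 16530200)) (b (c (a (l 16538688) (l 16507568)) (a (l 16510008) (l 16500088))) (b (b (c (b (l 16511496) (b (l 16511328) (a (l 16537208) (l 16506168)))) (b (l 16503752) (b (l 16503552) (a (l 16508328) (l 16498480))))) (c (l 16510848) (l 16503016))) (c (l 16509808) (l 16501920))))) (b (l 16513456) (b (l 16520104) (c (l 16531920) (l 16524584)))))) (c (b (c (l 16497896) (l 16491328)) (b (c (l 16495048) (l 16488120)) (c (a (l 16504624) (l 16544664)) (a (l 16497136) (l 16453968))))) (b (l 16503072) (b (l 16499352) (a (l 16507560) (l 16465336))))))), by decide +kernel⟩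

def k3_pp_022_b : ∃ t, chk3 f_pp_022_b t 9 41 1 = true :=
  ⟨(b (c (a (c (l 16705816) (l 16451856)) (l 16773384)) (a (a (l 16436096) (l 16413280)) (l 16398848))) (a (c (b (l 16544800) (b (c (l 16810496) (l 16421040)) (c (l 16790840) (l 16440248)))) (b (l 16438048) (a (b (l 16424672) (l 16443464)) (l 16468832)))) (b (c (l 16869296) (l 16370408)) (c (b (l 16895448) (l 16744808)) (b (l 16367048) (l 16407008)))))), by decide +kernel⟩

def k4_pp_022_b : ∃ t, chk3 f_pp_022_b t 4 21 1 = true :=
  ⟨(a (a (c (b (a (c (b (a (c (l 16528824) (l 16524240)) (l 16537152)) (c (a (l 16519824) (l 16509536)) (l 16530680))) (b (a (c (l 16519728) (l 16515296)) (l 16507328)) (c (l 16525760) (l 16520944)))) (c (c (l 16519864) (l 16515248)) (l 16518984))) (a (c (b (c (l 16527352) (l 16521832)) (c (l 16519720) (l 16492688))) (a (c (l 16517496) (l 16511896)) (l 16504760))) (c (l 16505824) (l 16489576)))) (b (a (a (c (b (l 16529760) (l 16497832)) (b (l 16500376) (l 16488656))) (c (l 16525448) (l 16506344))) (c (l 16499848)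 (l 16491600))) (a (c (b (a (l 16487320) (l 16477520)) (l 16493504)) (b (l 16472560) (l 16461744))) (c (l 16458144) (l 16448208))))) (b (c (c (a (l 16495824) (l 16670064)) (a (l 16466304) (l 16444344))) (a (l 16496216) (l 16454216))) (c (c (a (l 16664048) (l 16867968)) (l 16458064)) (a (l 16453944) (l 16412232))))) (c (a (b (c (l 16844320) (l 16488464)) (c (l 17080808) (l 16665200))) (b (l 16776872) (l 17106752))) (a (b (l 16442552) (l 16401056)) (b (l 16375744) (l 16398432))))), by decide +kernel⟩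

def k5_pp_022_b : ∃ t, chk3 f_pp_022_b t 4 11 1 = true :=
  ⟨(a (b (a (c (a (b (c (a (c (l 16501712) (l 16508088)) (l 16497184)) (a (b (l 16480448) (l 16472832)) (l 16467248))) (b (c (a (l 16491752) (l 16705256)) (l 16482152)) (c (a (l 16511120) (l 16839040)) (l 16455056)))) (b (c (l 16475584) (l 16452408)) (c (l 16687824) (l 16439152)))) (a (b (b (c (l 16484216) (l 16451488)) (c (l 16454584) (l 16441792))) (c (a (l 16468632) (l 16438392)) (l 16460072))) (b (c (l 16439832) (l 16427936)) (l 16459024)))) (c (c (b (a (l 16890440) (l 17039856)) (l 17047792)) (b (l 16459784) (l 16609224))) (b (a (l 16414056) (l 16393736)) (l 16430096)))) (a (c (c (a (b (c (l 16975568) (a (l 16694920) (l 16867200))) (c (l 17257840) (l 17019744))) (b (l 17100616) (l 17257536))) (a (b (a (l 16452136) (l 16490480)) (a (l 16448776) (l 16703656))) (b (l 16631976) (l 16819536)))) (b (a (c (l 16450896) (l 16434120)) (l 16424400)) (a (c (l 16420528) (l 16401240)) (l 16393624)))) (c (c (b (l 17272984) (l 17395896)) (b (l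 16860688) (l 17007864))) (b (l 16396504) (l 16400712))))) (b (c (a (b (c (l 17214872) (l 16821608)) (l 16978808)) (b (l 17213840) (l 17309112))) (b (a (l 16362256) (l 16537800)) (a (l 16398792) (l 16663760)))) (c (a (c (l 17482808) (l 17139168)) (l 17432176)) (a (b (l 16550312) (l 16686320)) (l 16830512))))), by decide +kernel⟩

def k6_pp_022_b : ∃ t, chk3 f_pp_022_b t 5 4 1 = true :=
  ⟨(b (b (a (a (b (c (c (b (l 16693880) (l 16655208)) (b (l 16667776) (l 16650384))) (b (l 16681128) (l 16643216))) (c (c (l 16628648) (l 16624240)) (l 16638664))) (c (b (c (b (l 16667472) (l 16650080)) (l 16672192)) (c (l 16624064) (l 16617016))) (b (c (l 16664784) (l 16636512)) (l 16606672)))) (b (c (a (c (b (l 16680800) (l 16750936)) (l 16670928)) (c (b (l 16862576) (l 16983832)) (l 16667184))) (a (c (l 16639504) (l 16629264)) (c (l 16642672) (l 16629104)))) (c (a (c (l 16825736) (l 16616672)) (c (l 17040472) (l 16784784))) (a (l 16601784) (l 16604216))))) (a (c (a (b (l 16612256) (l 16577216)) (b (l 16607160)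 (l 16606824))) (a (b (l 16583560) (l 16549416)) (l 16598480))) (c (a (b (l 16733624) (l 16853240)) (b (l 16967688) (l 17063240))) (a (l 16574024) (l 16557032))))) (b (a (b (c (a (l 16542384) (l 16734000)) (l 16552032)) (c (a (l 16560432) (l 16853008)) (l 16518872))) (c (a (l 16888224) (l 17170056)) (a (l 16489088) (l 16680560)))) (b (a (c (a (l 16710128) (l 16963496)) (l 16480976)) (c (l 17127208) (l 16701512))) (a (c (b (a (l 16813496) (l 17040744)) (a (l 16878368) (l 17089608))) (a (l 16456936) (l 16449520))) (c (a (l 17219976) (l 17330040)) (b (l 16762560) (l 16801768))))))), by decide +kernel⟩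

def k7_pp_022_b : ∃ t, chk3 f_pp_022_b t 5 5 1 = true :=
  ⟨(b (b (b (a (c (a (b (l 16939992) (l 16998368)) (l 17158032)) (a (l 16422760) (l 16562256))) (c (l 17301240) (a (l 16773144) (l 16930888)))) (a (c (b (a (l 17053832) (l 17221568)) (b (l 17116432) (a (b (l 17112792) (l 17125392)) (l 17270768)))) (b (l 16521440) (b (l 16564808) (b (l 16585984) (a (l 16472784) (l 16709272)))))) (c (b (l 17386000) (b (l 17406008) (l 17418904))) (b (l 16910368) (b (l 16935560) (a (l 16880688) (l 17013744))))))) (a (c (a (b (l 17180272) (l 17270368)) (l 17351368)) (b (a (l 16542800) (l 16762184)) (l 16677400))) (c (l 17472456) (b (l 16991488) (l 17051544))))) (a (c (b (a (l 17387928) (l 17475232)) (l 17547496)) (b (a (l 16812488) (l 16968544)) (l 16902096))) (c (b (l 17556344) (l 17620352)) (b (l 17132088) (l 17223360))))), by decide +kernel⟩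

def k8_pp_022_b : ∃ t, chk3 f_pp_022_b t 2 3 1 = true :=
  ⟨(b (a (b (a (b (c (a (c (b (a (l 17298856) (l 17393040)) (l 17475352)) (a (b (a (l 16628896) (l 16888536)) (l 16958752)) (b (l 16983096) (l 17126256)))) (c (l 17550832) (l 16986400))) (a (b (a (c (l 16415584) (l 16393616)) (l 16388336)) (a (c (l 16519912) (l 16391344)) (l 16524336))) (b (l 16500952) (l 16688696)))) (c (a (c (l 17634016) (b (l 17191216) (l 17331352))) (l 17554680)) (c (a (b (a (l 16757568) (l 16889856)) (l 16791824)) (l 17080776)) (a (b (l 16416416) (l 16417576)) (l 16615352))))) (c (b (a (l 17486800) (l 17563736)) (l 17644288)) (b (a (b (l 16808528) (l 16918480)) (l 17016392)) (a (l 17063240) (l 17167280))))) (a (c (b (a (c (l 17796272) (l 17482752)) (l 17690160)) (a (l 17776496) (l 17785680))) (b (a (b (c (l 17108792) (l 16527872)) (a (l 16805376) (l 17101048))) (l 16881976)) (a (b (c (l 17323824) (l 17039760)) (l 17261288)) (l 17219328)))) (b (c (l 17725632) (l 17237960)) (c (l 17778576) (l 17365032))))) (b (b (a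 (c (l 17632744) (l 17173800)) (l 17481312)) (a (c (l 17692392) (l 17273304)) (l 17520136))) (b (a (l 17497176) (l 17544304)) (a (l 17576256) (l 2))))) (b (a (b (a (c (b (l 17841104) (l 17871744)) (b (a (l 17353256) (l 17390920)) (l 17414576))) (c (l 17823496) (l 17438360))) (a (c (l 17913560) (l 17468040)) (l 17684616))) (b (a (l 17616272) (l 2)) (l 2))) (a (a (c (l 17985352) (l 17559232)) (l 17754120)) (l 2)))), by decide +kernel⟩

def k9_pp_022_b : ∃ t, chk3 f_pp_022_b t 3 1 1 = true :=
  ⟨(b (a (b (b (a (b (c (a (b (c (l 17133688) (l 16810712)) (l 16956792)) (b (c (l 17253608) (l 17066248)) (l 17204816))) (a (b (l 16666840) (l 16644000)) (b (l 16679440) (l 16826688)))) (c (a (l 17043920) (l 17272336)) (a (l 16734168) (l 16894448)))) (c (b (a (b (l 17257192) (l 17291880)) (l 17338512)) (l 17370944)) (b (a (b (b (l 16821072) (l 16940912)) (l 16964704)) (b (l 16961480) (l 17068176))) (a (l 17015312) (l 17105408))))) (b (a (c (l 17323992) (l 16757768)) (c (l 17431400) (l 17124504))) (b (a (c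 (l 17393424) (l 17002336)) (l 17322872)) (a (c (l 17436240) (l 17050832)) (c (l 17502352) (l 17199632)))))) (b (b (b (a (c (l 17475928) (l 17096872)) (l 17335744)) (b (a (l 17147616) (l 17394592)) (c (a (l 17517832) (l 17551880)) (a (b (l 17143464) (l 17153160)) (l 17257872))))) (a (c (l 17551712) (l 17194016)) (l 17426288))) (a (b (l 17389376) (l 17474824)) (b (l 17458656) (l 2))))) (b (b (a (c (b (a (l 17380128) (l 17403208)) (l 17428920)) (b (a (l 17094216) (l 17193480)) (l 17196328))) (c (l 17418280) (b (l 17244216) (l 17254520)))) (b (a (l 17200168) (l 17357752)) (a (b (l 17373352) (l 17390112)) (l 2)))) (b (b (b (a (l 17405816) (l 2)) (l 2)) (l 2)) (l 2)))) (b (b (a (b (a (l 17503096) (l 2)) (l 2)) (l 2)) (l 2)) (l 2))), by decide +kernel⟩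

theorem s10_pp_022_b : ∃ t, chk3 f_pp_022_b t 5 2 1 = true := ex3_b k6_pp_022_b k7_pp_022_b

theorem s11_pp_022_b : ∃ t, chk3 f_pp_022_b t 4 41 1 = true := ex3_a k2_pp_022_b k3_pp_022_b

theorem s12_pp_022_b : ∃ t, chk3 f_pp_022_b t 4 20 1 = true := ex3_b k1_pp_022_b s11_pp_022_b

theorem s13_pp_022_b : ∃ t, chk3 f_pp_022_b t 4 10 1 = true := ex3_b s12_pp_022_b k4_pp_022_b

theorem s14_pp_022_b : ∃ t, chk3 f_pp_022_b t 4 5 1 = true := ex3_b s13_pp_022_b k5_pp_022_b

theorem s15_pp_022_b : ∃ t, chk3 f_pp_022_b t 4 2 1 = true := ex3_b k0_pp_022_b s14_pp_022_b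

theorem s16_pp_022_b : ∃ t, chk3 f_pp_022_b t 2 2 1 = true := ex3_a s15_pp_022_b s10_pp_022_b

theorem s17_pp_022_b : ∃ t, chk3 f_pp_022_b t 2 1 1 = true := ex3_b s16_pp_022_b k8_pp_022_b

theorem s18_pp_022_b : ∃ t, chk3 f_pp_022_b t 1 1 1 = true := ex3_a s17_pp_022_b k9_pp_022_b

theorem c_pp_022_b : CertF 0 536870912 1239849684 370763052 201326592 134217728 false true true .pp 0 2 2
    ndF0q0 ndF2q2b pcF2 cut_pp_022_b Ext.none :=
  certF1 (fam := false) (s1 := true) (s2 := true) (a := 0) (b := 2) (c := 2) (cn := .pp) (n1 := ndF0q0) (n2 := ndF2q2b) (pc := pcF2) (cut := cut_pp_022_b) (xt := Ext.none) (P1 := 0) (W1 := 536870912) (P2 := 1239849684) (W2 := 370763052) (P3 := 201326592) (W3 := 134217728)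
    rfl (fun _ => rfl) s18_pp_022_b

noncomputable def f_pp_023 : ℕ → ℕ → ℕ → ℕ → Bool := onCell 0 536870912 1073741824 536870912 201326592 134217728
    (rowF 1 false true true .up 0 2 3 (qsf 0 536870912 1610612736 536870912 2) ndF0q0 ndF2q3 pcF2 Cut.none Ext.none)

def k0_pp_023 : ∃ t, chk3 f_pp_023 t 1 1 1 = true :=
  ⟨(a (b (a (l 1) (b (l 1) (b (l 1) (c (l 281355477927) (a (l 1) (l 259879889271)))))) (b (b (a (l 1) (c (l 265250094967) (a (l 296924116887) (l 287797885815)))) (b (a (l 1) (c (l 17718256) (l 250753778055))) (a (c (l 433827686055) (l 367254476823)) (c (l 17728256) (l 260417725463))))) (b (a (b (c (l 306052617383) (l 293166428967)) (l 270618029431)) (b (c (l 17755752) (l 17452136)) (l 17649432))) (a (c (l 17963360) (l 280818707079)) (l 17716096))))) (b (a (a (b (l 1) (b (b (l 1) (l 263638353703)) (b (l 260416748103) (l 219077777623)))) (b (b (l 1) (b (l 1) (b (l 1) (l 245384226791)))) (b (b (b (l 250752996343) (c (l 17548112) (b (l 17235136) (l 211561862567)))) (l 213709147271))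 (b (l 17458640) (l 17479616))))) (a (b (b (c (l 269543794215) (l 269543467751)) (b (l 252900460007) (b (l 190623452759) (c (l 17508400) (l 17265456))))) (b (b (b (c (l 17523288) (l 17284400)) (c (l 17534448) (b (l 17295808) (l 17302704)))) (l 17429384)) (b (l 17444040) (l 17447232)))) (b (b (c (l 286724306887) (b (l 267933038615) (l 163779994295))) (b (l 17357744) (b (l 17372168) (l 17381216)))) (b (b (b (l 17389440) (b (l 17392728) (l 17394344))) (l 17393704)) (l 17388704))))) (b (b (a (c (l 17637624) (b (l 17363408) (l 17377480))) (a (l 17440904) (l 17372768))) (a (b (l 17505040) (l 17500672)) (a (l 17412648) (l 17334336)))) (b (a (b (l 17522240) (l 17563280)) (l 17558248)) (a (l 17621448) (l 17470584)))))), by decide +kernel⟩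

theorem c_pp_023 : CertF 0 536870912 1610612736 536870912 201326592 134217728 false true true .up 0 2 3
    ndF0q0 ndF2q3 pcF2 Cut.none Ext.none :=
  certF1 (fam := false) (s1 := true) (s2 := true) (a := 0) (b := 2) (c := 3) (cn := .up) (n1 := ndF0q0) (n2 := ndF2q3) (pc := pcF2) (cut := Cut.none) (xt := Ext.none) (P1 := 0) (W1 := 536870912) (P2 := 1610612736) (W2 := 536870912) (P3 := 201326592) (W3 := 134217728)
    rfl (fun _ => rfl) k0_pp_023

noncomputable def f_pp_033 : ℕ → ℕ → ℕ → ℕ → Bool := onCell 1610612736 536870912 1610612736 536870912 201326592 134217728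
    (rowF 2 false true true .pnn 0 3 3 (qsf 0 536870912 1610612736 536870912 3) ndF0q0 ndF2q3 pcF3 Cut.none Ext.none)

def k0_pp_033 : ∃ t, chk3 f_pp_033 t 1 1 1 = true :=
  ⟨(a (a (b (b (c (b (l 18047808) (l 17916568)) (a (b (l 17682944) (l 17602528)) (l 296925615527))) (a (c (l 17652928) (l 17495904)) (c (l 17792944) (l 17603456)))) (b (a (b (l 17436456) (l 17340952)) (b (l 17559664) (l 17466008))) (a (b (l 17240168) (l 17150360)) (b (l 17387392) (l 17300064))))) (b (a (b (c (l 18190320) (l 303368277383)) (c (l 17929416) (l 17696864))) (b (l 1) (l 279209242311))) (b (a (l 17693728) (l 17741928)) (a (b (l 17492112) (l 17392696)) (a (l 17489952) (l 17508712)))))) (b (a (a (b (l 1) (l 294241930487)) (l 1)) (l 1)) (a (a (b (c (l 17894448) (l 17658056)) (l 4)) (b (l 4) (l 4))) (l 4)))), by decide +kernel⟩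

theorem c_pp_033 : CertF 0 536870912 1610612736 536870912 201326592 134217728 false true true .pnn 0 3 3
    ndF0q0 ndF2q3 pcF3 Cut.none Ext.none :=
  certF2 (fam := false) (s1 := true) (s2 := true) (a := 0) (b := 3) (c := 3) (cn := .pnn) (n1 := ndF0q0) (n2 := ndF2q3) (pc := pcF3) (cut := Cut.none) (xt := Ext.none) (P1 := 0) (W1 := 536870912) (P2 := 1610612736) (W2 := 536870912) (P3 := 201326592) (W3 := 134217728)
    rfl (fun _ => rfl) k0_pp_033

noncomputable def f_pp_101 : ℕ → ℕ → ℕ → ℕ → Bool := onCell 536870912 536870912 536870912 536870912 201326592 134217728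
    (rowF 0 false true true .npn 1 0 1 (qsf 536870912 536870912 536870912 536870912 0) ndF0q1 ndF2q1 pcF0 Cut.none Ext.none)

def k0_pp_101 : ∃ t, chk3 f_pp_101 t 1 1 1 = true :=
  ⟨(a (l 3) (l 5)), by decide +kernel⟩

theorem c_pp_101 : CertF 536870912 536870912 536870912 536870912 201326592 134217728 false true true .npn 1 0 1
    ndF0q1 ndF2q1 pcF0 Cut.none Ext.none :=
  certF0 (fam := false) (s1 := true) (s2 := true) (a := 1) (b := 0) (c := 1) (cn := .npn) (n1 := ndF0q1) (n2 := ndF2q1) (pc := pcF0) (cut := Cut.none) (xt := Ext.none) (P1 := 536870912) (W1 := 536870912) (P2 := 536870912) (W2 := 536870912) (P3 := 201326592) (W3 := 134217728)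
    rfl k0_pp_101

noncomputable def f_pp_102_a : ℕ → ℕ → ℕ → ℕ → Bool := onCell 536870912 536870912 0 536870912 201326592 134217728
    (rowF 0 false true true .npp 1 0 2 (qsf 536870912 536870912 0 536870912 0) ndF0q1 ndF2q2a pcF0 Cut.none Ext.none)

def k0_pp_102_a : ∃ t, chk3 f_pp_102_a t 1 1 1 = true :=
  ⟨(l 3), by decide +kernel⟩

theorem c_pp_102_a : CertF 536870912 536870912 0 536870912 201326592 134217728 false true true .npp 1 0 2
    ndF0q1 ndF2q2a pcF0 Cut.none Ext.none :=
  certF0 (fam := false) (s1 := true) (s2 := true) (a := 1) (b := 0) (c := 2) (cn := .npp) (n1 := ndF0q1) (n2 := ndF2q2a) (pc := pcF0) (cut := Cut.none) (xt := Ext.none) (P1 := 536870912) (W1 := 536870912) (P2 := 0) (W2 := 536870912) (P3 := 201326592) (W3 := 134217728)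
    rfl k0_pp_102_a

noncomputable def f_pp_102_b : ℕ → ℕ → ℕ → ℕ → Bool := onCell 536870912 536870912 0 536870912 201326592 134217728
    (rowF 1 false true true .npp 1 0 2 (qsf 536870912 536870912 1239849684 370763052 0) ndF0q1 ndF2q2b pcF0 Cut.none Ext.none)

def k0_pp_102_b : ∃ t, chk3 f_pp_102_b t 1 1 1 = true :=
  ⟨(l 3), by decide +kernel⟩

theorem c_pp_102_b : CertF 536870912 536870912 1239849684 370763052 201326592 134217728 false true true .npp 1 0 2
    ndF0q1 ndF2q2b pcF0 Cut.none Ext.none :=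
  certF1 (fam := false) (s1 := true) (s2 := true) (a := 1) (b := 0) (c := 2) (cn := .npp) (n1 := ndF0q1) (n2 := ndF2q2b) (pc := pcF0) (cut := Cut.none) (xt := Ext.none) (P1 := 536870912) (W1 := 536870912) (P2 := 1239849684) (W2 := 370763052) (P3 := 201326592) (W3 := 134217728)
    rfl (fun _ => rfl) k0_pp_102_b

noncomputable def f_pp_112_a : ℕ → ℕ → ℕ → ℕ → Bool := onCell 536870912 536870912 0 536870912 201326592 134217728
    (rowF 0 false true true .dn 1 1 2 (qsf 536870912 536870912 0 536870912 1) ndF0q1 ndF2q2a pcF1 Cut.none Ext.none)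

def k0_pp_112_a : ∃ t, chk3 f_pp_112_a t 1 1 1 = true :=
  ⟨(l 3), by decide +kernel⟩

theorem c_pp_112_a : CertF 536870912 536870912 0 536870912 201326592 134217728 false true true .dn 1 1 2
    ndF0q1 ndF2q2a pcF1 Cut.none Ext.none :=
  certF0 (fam := false) (s1 := true) (s2 := true) (a := 1) (b := 1) (c := 2) (cn := .dn) (n1 := ndF0q1) (n2 := ndF2q2a) (pc := pcF1) (cut := Cut.none) (xt := Ext.none) (P1 := 536870912) (W1 := 536870912) (P2 := 0) (W2 := 536870912) (P3 := 201326592) (W3 := 134217728)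
    rfl k0_pp_112_a

noncomputable def f_pp_112_b : ℕ → ℕ → ℕ → ℕ → Bool := onCell 536870912 536870912 1239849684 370763052 201326592 134217728
    (rowF 0 false true true .dn 1 1 2 (qsf 536870912 536870912 1239849684 370763052 1) ndF0q1 ndF2q2b pcF1 Cut.none Ext.none)

def k0_pp_112_b : ∃ t, chk3 f_pp_112_b t 1 1 1 = true :=
  ⟨(a (b (l 3) (a (b (l 3) (a (b (l 3) (a (c (l 101100474855) (b (l 88752235239) (l 55466323111))) (l 3))) (l 3))) (l 3))) (l 3)), by decide +kernel⟩

theorem c_pp_112_b : CertF 536870912 536870912 1239849684 370763052 201326592 134217728 false true true .dn 1 1 2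
    ndF0q1 ndF2q2b pcF1 Cut.none Ext.none :=
  certF0 (fam := false) (s1 := true) (s2 := true) (a := 1) (b := 1) (c := 2) (cn := .dn) (n1 := ndF0q1) (n2 := ndF2q2b) (pc := pcF1) (cut := Cut.none) (xt := Ext.none) (P1 := 536870912) (W1 := 536870912) (P2 := 1239849684) (W2 := 370763052) (P3 := 201326592) (W3 := 134217728)
    rfl k0_pp_112_b

noncomputable def cut_pp_113 : Cut := Cut.of [[⟨0, 1, 0, 57167902⟩, ⟨1, 1, 0, 57167902⟩, ⟨2, 2, 0, 11758673⟩]]

noncomputable def f_pp_113 : ℕ → ℕ → ℕ → ℕ → Bool := onCell 536870912 536870912 536870912 536870912 201326592 134217728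
    (rowF 1 false true true .nn 1 1 3 (qsf 536870912 536870912 1610612736 536870912 1) ndF0q1 ndF2q3 pcF1 cut_pp_113 Ext.none)

def k0_pp_113 : ∃ t, chk3 f_pp_113 t 1 1 1 = true :=
  ⟨(b (l 3) (a (b (l 3) (b (l 3) (b (l 3) (a (a (c (a (l 17350512) (l 17328424)) (c (l 110093146887) (a (b (l 152505701671) (l 17199256)) (l 145123767607)))) (c (l 17278144) (l 153713758823))) (a (c (l 17188904) (l 143512940759)) (l 174114836967)))))) (b (l 3) (a (b (l 3) (b (l 3) (a (l 182167903239) (b (l 3) (c (l 17021472) (l 189683857575)))))) (b (l 3) (b (l 3) (b (l 3) (b (a (l 3) (l 3)) (a (a (l 16954568) (c (l 16929984) (l 242833658951))) (b (a (l 3) (l 3)) (b (a (a (l 16881392) (l 1033107528295)) (l 3)) (a (a (l 16877360) (l 16831392)) (a (a (l 16832288) (c (l 16822592) (l 264845190439))) (a (c (l 229411689159) (a (l 258402735239) (l 259476463575))) (l 6))))))))))))))), by decide +kernel⟩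

theorem c_pp_113 : CertF 536870912 536870912 1610612736 536870912 201326592 134217728 false true true .nn 1 1 3
    ndF0q1 ndF2q3 pcF1 cut_pp_113 Ext.none :=
  certF1 (fam := false) (s1 := true) (s2 := true) (a := 1) (b := 1) (c := 3) (cn := .nn) (n1 := ndF0q1) (n2 := ndF2q3) (pc := pcF1) (cut := cut_pp_113) (xt := Ext.none) (P1 := 536870912) (W1 := 536870912) (P2 := 1610612736) (W2 := 536870912) (P3 := 201326592) (W3 := 134217728)
    rfl (fun _ => rfl) k0_pp_113

noncomputable def cut_pp_123 : Cut := Cut.of [[⟨0, 1, 0, 57167902⟩, ⟨1, 1, 0, 57167902⟩, ⟨2, 2, 0, 11758673⟩]]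

noncomputable def f_pp_123 : ℕ → ℕ → ℕ → ℕ → Bool := onCell 536870912 536870912 1073741824 536870912 201326592 134217728
    (rowF 1 false true true .npn 1 2 3 (qsf 536870912 536870912 1610612736 536870912 2) ndF0q1 ndF2q3 pcF2 cut_pp_123 Ext.none)

def k0_pp_123 : ∃ t, chk3 f_pp_123 t 1 1 1 = true :=
  ⟨(a (b (a (b (b (a (c (l 17378664) (a (l 17259424) (l 17256368))) (c (l 17302928) (l 17231256))) (b (a (l 17327584) (l 17265728)) (b (a (l 17333480) (l 17267456)) (a (l 17337336) (l 17268728))))) (b (b (b (a (l 17340688) (l 17269608)) (a (l 17509128) (l 17414616))) (a (l 17333320) (l 17256056))) (a (l 17317008) (l 17276272)))) (b (a (b (c (l 17205656) (l 17169248)) (b (l 17182488) (b (l 17182704) (l 17183056)))) (b (l 17110880) (b (l 17084144) (l 17203128)))) (b (b (b (l 17133568) (a (l 17180336) (l 17083176))) (l 17117632)) (b (l 17105640) (l 17217904))))) (a (b (b (l 17350296) (l 17452424)) (b (a (l 17296656) (l 17245312)) (a (l 17328840) (l 17240832)))) (b (b (a (l 17120968) (l 17053216))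 (a (l 17130576) (l 17321368))) (a (b (l 17325056) (l 2)) (l 2))))) (b (a (b (b (a (l 17079328) (b (l 17030176) (l 16915216))) (b (l 17006496) (b (l 16948152) (l 16994744)))) (b (b (b (l 17020840) (a (l 16993976) (l 17019240))) (l 17012752)) (a (l 16986424) (l 17200976)))) (b (a (b (b (a (l 16917848) (b (l 16954880) (l 16860056))) (l 16837136)) (b (l 16851592) (b (l 16867352) (l 16881504)))) (b (b (b (a (b (a (l 16865384) (l 16819232)) (l 16835888)) (b (a (c (l 16795528) (b (l 16792768) (l 16805576))) (a (a (l 16820872) (a (l 16809952) (l 6))) (l 6))) (l 235250267431))) (a (l 16807984) (l 296453589575))) (l 230955642551)) (b (l 184784895511) (l 2)))) (a (b (b (b (l 16894768) (l 2)) (l 2)) (l 2)) (l 2)))) (a (b (a (b (l 17212792) (l 2)) (l 2)) (l 2)) (l 2)))), by decide +kernel⟩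

theorem c_pp_123 : CertF 536870912 536870912 1610612736 536870912 201326592 134217728 false true true .npn 1 2 3
    ndF0q1 ndF2q3 pcF2 cut_pp_123 Ext.none :=
  certF1 (fam := false) (s1 := true) (s2 := true) (a := 1) (b := 2) (c := 3) (cn := .npn) (n1 := ndF0q1) (n2 := ndF2q3) (pc := pcF2) (cut := cut_pp_123) (xt := Ext.none) (P1 := 536870912) (W1 := 536870912) (P2 := 1610612736) (W2 := 536870912) (P3 := 201326592) (W3 := 134217728)
    rfl (fun _ => rfl) k0_pp_123

noncomputable def f_pp_133 : ℕ → ℕ → ℕ → ℕ → Bool := onCell 536870912 536870912 1610612736 536870912 201326592 134217728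
    (rowF 0 false true true .dn 1 3 3 (qsf 536870912 536870912 1610612736 536870912 3) ndF0q1 ndF2q3 pcF3 Cut.none Ext.none)

def k0_pp_133 : ∃ t, chk3 f_pp_133 t 1 1 1 = true :=
  ⟨(a (b (l 1) (a (b (l 1) (b (l 1) (a (l 499324332839) (l 1)))) (l 1))) (l 1)), by decide +kernel⟩

theorem c_pp_133 : CertF 536870912 536870912 1610612736 536870912 201326592 134217728 false true true .dn 1 3 3
    ndF0q1 ndF2q3 pcF3 Cut.none Ext.none :=
  certF0 (fam := false) (s1 := true) (s2 := true) (a := 1) (b := 3) (c := 3) (cn := .dn) (n1 := ndF0q1) (n2 := ndF2q3) (pc := pcF3) (cut := Cut.none) (xt := Ext.none) (P1 := 536870912) (W1 := 536870912) (P2 := 1610612736) (W2 := 536870912) (P3 := 201326592) (W3 := 134217728)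
    rfl k0_pp_133

noncomputable def f_pp_202_a : ℕ → ℕ → ℕ → ℕ → Bool := onCell 0 536870912 0 536870912 201326592 134217728
    (rowF 0 false true true .pp 2 0 2 (qsf 0 536870912 0 536870912 0) ndF0q2 ndF2q2a pcF0 Cut.none Ext.none)

def k0_pp_202_a : ∃ t, chk3 f_pp_202_a t 1 1 1 = true :=
  ⟨(l 3), by decide +kernel⟩

theorem c_pp_202_a : CertF 0 536870912 0 536870912 201326592 134217728 false true true .pp 2 0 2
    ndF0q2 ndF2q2a pcF0 Cut.none Ext.none :=
  certF0 (fam := false) (s1 := true) (s2 := true) (a := 2) (b := 0) (c := 2) (cn := .pp) (n1 := ndF0q2) (n2 := ndF2q2a) (pc := pcF0) (cut := Cut.none) (xt := Ext.none) (P1 := 0) (W1 := 536870912) (P2 := 0) (W2 := 536870912) (P3 := 201326592) (W3 := 134217728)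
    rfl k0_pp_202_a

noncomputable def f_pp_202_b : ℕ → ℕ → ℕ → ℕ → Bool := onCell 0 536870912 1239849684 370763052 201326592 134217728
    (rowF 0 false true true .pp 2 0 2 (qsf 0 536870912 1239849684 370763052 0) ndF0q2 ndF2q2b pcF0 Cut.none Ext.none)

def k0_pp_202_b : ∃ t, chk3 f_pp_202_b t 1 1 1 = true :=
  ⟨(l 3), by decide +kernel⟩

theorem c_pp_202_b : CertF 0 536870912 1239849684 370763052 201326592 134217728 false true true .pp 2 0 2
    ndF0q2 ndF2q2b pcF0 Cut.none Ext.none :=
  certF0 (fam := false) (s1 := true) (s2 := true) (a := 2) (b := 0) (c := 2) (cn := .pp) (n1 := ndF0q2) (n2 := ndF2q2b) (pc := pcF0) (cut := Cut.none) (xt := Ext.none) (P1 := 0) (W1 := 536870912) (P2 := 1239849684) (W2 := 370763052) (P3 := 201326592) (W3 := 134217728)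
    rfl k0_pp_202_b

noncomputable def f_pp_203 : ℕ → ℕ → ℕ → ℕ → Bool := onCell 0 536870912 0 536870912 201326592 134217728
    (rowF 1 false true true .up 2 0 3 (qsf 0 536870912 1610612736 536870912 0) ndF0q2 ndF2q3 pcF0 Cut.none Ext.none)

def k0_pp_203 : ∃ t, chk3 f_pp_203 t 1 1 1 = true :=
  ⟨(l 3), by decide +kernel⟩

theorem c_pp_203 : CertF 0 536870912 1610612736 536870912 201326592 134217728 false true true .up 2 0 3
    ndF0q2 ndF2q3 pcF0 Cut.none Ext.none :=
  certF1 (fam := false) (s1 := true) (s2 := true) (a := 2) (b := 0) (c := 3) (cn := .up) (n1 := ndF0q2) (n2 := ndF2q3) (pc := pcF0) (cut := Cut.none) (xt := Ext.none) (P1 := 0) (W1 := 536870912) (P2 := 1610612736) (W2 := 536870912) (P3 := 201326592) (W3 := 134217728)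
    rfl (fun _ => rfl) k0_pp_203

noncomputable def cut_pp_213 : Cut := Cut.of [[⟨0, 1, 0, 57167902⟩, ⟨1, 1, 0, 57167902⟩, ⟨2, 2, 0, 11758673⟩]]

noncomputable def f_pp_213 : ℕ → ℕ → ℕ → ℕ → Bool := onCell 0 536870912 1610612736 536870912 201326592 134217728
    (rowF 0 false true true .pnn 2 1 3 (qsf 0 536870912 1610612736 536870912 1) ndF0q2 ndF2q3 pcF1 cut_pp_213 Ext.none)

def k0_pp_213 : ∃ t, chk3 f_pp_213 t 1 1 1 = true :=
  ⟨(b (l 3) (a (l 3) (b (l 3) (a (l 3) (b (l 3) (a (l 3) (b (l 3) (b (l 3) (b (l 3) (l 6)))))))))), by decide +kernel⟩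

theorem c_pp_213 : CertF 0 536870912 1610612736 536870912 201326592 134217728 false true true .pnn 2 1 3
    ndF0q2 ndF2q3 pcF1 cut_pp_213 Ext.none :=
  certF0 (fam := false) (s1 := true) (s2 := true) (a := 2) (b := 1) (c := 3) (cn := .pnn) (n1 := ndF0q2) (n2 := ndF2q3) (pc := pcF1) (cut := cut_pp_213) (xt := Ext.none) (P1 := 0) (W1 := 536870912) (P2 := 1610612736) (W2 := 536870912) (P3 := 201326592) (W3 := 134217728)
    rfl k0_pp_213

noncomputable def f_pm_001 : ℕ → ℕ → ℕ → ℕ → Bool := onCell 0 536870912 536870912 536870912 201326592 134217728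
    (rowF 0 false true false .up 0 0 1 (qsf 0 536870912 536870912 536870912 0) ndF0q0 ndF2q1 pcF0 Cut.none Ext.none)

def k0_pm_001 : ∃ t, chk3 f_pm_001 t 1 1 1 = true :=
  ⟨(l 4), by decide +kernel⟩

theorem c_pm_001 : CertF 0 536870912 536870912 536870912 201326592 134217728 false true false .up 0 0 1
    ndF0q0 ndF2q1 pcF0 Cut.none Ext.none :=
  certF0 (fam := false) (s1 := true) (s2 := false) (a := 0) (b := 0) (c := 1) (cn := .up) (n1 := ndF0q0) (n2 := ndF2q1) (pc := pcF0) (cut := Cut.none) (xt := Ext.none) (P1 := 0) (W1 := 536870912) (P2 := 536870912) (W2 := 536870912) (P3 := 201326592) (W3 := 134217728)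
    rfl k0_pm_001

noncomputable def f_pm_011 : ℕ → ℕ → ℕ → ℕ → Bool := onCell 0 536870912 536870912 536870912 201326592 134217728
    (rowF 0 false true false .pnn 0 1 1 (qsf 0 536870912 536870912 536870912 1) ndF0q0 ndF2q1 pcF1 Cut.none Ext.none)

def k0_pm_011 : ∃ t, chk3 f_pm_011 t 1 1 1 = true :=
  ⟨(l 4), by decide +kernel⟩

theorem c_pm_011 : CertF 0 536870912 536870912 536870912 201326592 134217728 false true false .pnn 0 1 1
    ndF0q0 ndF2q1 pcF1 Cut.none Ext.none :=
  certF0 (fam := false) (s1 := true) (s2 := false) (a := 0) (b := 1) (c := 1) (cn := .pnn) (n1 := ndF0q0) (n2 := ndF2q1) (pc := pcF1) (cut := Cut.none) (xt := Ext.none) (P1 := 0) (W1 := 536870912) (P2 := 536870912) (W2 := 536870912) (P3 := 201326592) (W3 := 134217728)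
    rfl k0_pm_011

end Pool.Agent.Strip051.G.I3_16_5_16.Tab.C.FB02

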