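import Pool.Agent.Strip051.G.I3_16_5_16.Tab

/-! # Certificates F12 (generated) -/

set_option linter.all false
set_option maxRecDepth 100000

namespace Pool.Agent.Strip051.G.I3_16_5_16.Tab.C.FB12

open Pool.Agent.Strip051.PB Pool.Agent.Strip051.PB.T
open Pool.Agent.Strip051.G.I3_16_5_16.Tab

noncomputable def cut_pp_022_a : Cut := Cut.of [[⟨0, 0, 0, 67108864⟩, ⟨1, 1, 0, 67108864⟩, ⟨2, 1, 0, 67108864⟩]]

noncomputable def f_pp_022_a : ℕ → ℕ → ℕ → ℕ → Bool := onCell 0 536870912 0 536870912 201326592 134217728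
    (rowF 0 false true true .pp 0 2 2 (qsf 0 536870912 0 536870912 2) ndF1q0 ndF2q2a pcF2 cut_pp_022_a Ext.none)

def k0_pp_022_a : ∃ t, chk3 f_pp_022_a t 32 8 1 = true :=
  ⟨(a (c (a (a (c (b (a (a (b (a (c (b (a (a (l 16550712) (l 16540120)) (l 16540000)) (l 16540184)) (b (a (a (l 16546408) (l 16535816)) (l 16535712)) (l 16535888))) (l 16548200)) (c (l 16540312) (l 16536048))) (b (l 16537376) (l 16537792))) (b (l 16536760) (l 16537208))) (b (c (a (l 16540760) (l 16540048)) (l 16546592)) (c (l 16541384) (l 16537256)))) (a (b (a (b (a (b (a (c (b (l 16552584) (l 16531648)) (l 16537936)) (l 16529392)) (l 16540048)) (l 16529296)) (c (l 16531840) (l 16527696))) (b (l 16529024) (l 16529464))) (b (c (l 16532392) (l 16528304)) (l 16531504))) (b (l 16528760) (l 16551336)))) (c (b (l 16535864) (l 16537448)) (b (l 16527888) (l 16529568)))) (c (b (l 16533800) (l 16535512)) (b (l 16526272) (l 16528072)))) (a (a (c (b (a (a (b (a (b (a (c (l 16544304) (l 16540256)) (l 16521192)) (l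 16521352)) (l 16521136)) (l 16542568)) (l 16542112)) (l 16520792)) (b (a (l 16522280) (l 16521896)) (l 16523272))) (b (a (b (a (a (b (a (b (l 16534272) (l 16513328)) (l 16513232)) (l 16513384)) (l 16513216)) (l 16513072)) (l 16529272)) (l 16513072)) (b (l 16535216) (l 16515608)))) (b (c (l 16520152) (l 16512664)) (c (l 16521928) (l 16514512)))) (b (l 16515424) (l 16517344)))) (b (c (l 16547656) (l 16513808)) (c (l 16549640) (l 16515912)))), by decide +kernel⟩

def k1_pp_022_a : ∃ t, chk3 f_pp_022_a t 32 9 1 = true :=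
  ⟨(a (c (a (a (b (c (b (c (l 16542824) (l 16538752)) (c (l 16544616) (l 16540616))) (b (l 16543240) (l 16534728))) (c (b (c (l 16546776) (l 16542864)) (c (l 16549328) (l 16545520))) (b (l 16537104) (l 16539904)))) (c (b (l 16540464) (l 16545016)) (b (l 16532800) (l 16537688)))) (b (c (l 16538696) (l 16531456)) (c (l 16543448) (l 16536520)))) (b (a (c (a (b (l 16524960) (l 16527064)) (l 16525360)) (b (l 16538072) (l 16519384))) (l 16541976)) (a (c (b (l 16529272) (l 16532304)) (b (l 16522112) (l 16525296))) (l 16547456)))) (c (b (l 16553240) (l 16574288)) (b (l 16540808) (l 16546632)))), by decide +kernel⟩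

def k2_pp_022_a : ∃ t, chk3 f_pp_022_a t 33 4 1 = true :=
  ⟨(b (c (a (l 16565968) (l 16562200)) (b (l 16553376) (l 16576856))) (c (a (b (l 16528752) (l 16555016)) (l 16614152)) (a (l 16605472) (l 16605616)))), by decide +kernel⟩

def k3_pp_022_a : ∃ t, chk3 f_pp_022_a t 17 4 1 = true :=
  ⟨(b (c (l 16519632) (l 16513936)) (c (l 16529536) (l 16523856))), by decide +kernel⟩

def k4_pp_022_a : ∃ t, chk3 f_pp_022_a t 9 4 1 = true :=
  ⟨(a (l 16536432) (l 16583848)), by decide +kernel⟩

def k5_pp_022_a : ∃ t, chk3 f_pp_022_a t 8 5 1 = true :=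
  ⟨(a (b (a (a (c (c (c (b (a (b (l 16551760) (l 16555208)) (l 16551560)) (a (b (l 16559096) (l 16573952)) (l 16559768))) (b (a (b (l 16548136) (l 16551704)) (l 16548256)) (a (b (l 16555728) (l 16560240)) (l 16556712)))) (a (a (b (b (l 16543136) (l 16546832)) (b (l 16551000) (l 16566144))) (b (l 16544336) (l 16573864))) (b (l 16543376) (l 16552192)))) (a (b (c (b (l 16535792) (l 16539752)) (b (l 16528968) (l 16533136))) (c (b (l 16544208) (l 16559656)) (b (l 16537808) (l 16543008)))) (b (l 16554864) (b (l 16540496) (l 16545680))))) (c (b (c (l 16568112) (l 16562360)) (c (l 16577376) (l 16572000))) (b (l 16575008) (c (l 16566752) (l 16582600))))) (b (a (c (l 16563280) (l 16553832)) (l 16537128)) (c (b (l 16549232) (l 16555240)) (b (l 16540784) (l 16546960))))) (a (a (c (a (b (c (b (c (l 16578808) (l 16575728)) (a (c (l 16573848) (l 16570872)) (l 16571736))) (b (a (l 16566064) (l 16560280)) (a (c (l 16567920) (l 16564984)) (l 16566056)))) (a (c (b (c (b (l 16578240) (l 16581744))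 (l 16587776)) (c (l 16587456) (l 16584720))) (b (c (l 16574472) (l 16571656)) (l 16583256))) (c (l 16582272) (l 16576888)))) (b (c (l 16600168) (l 16584136)) (c (l 16582160) (l 16577016)))) (a (b (c (b (a (l 16554696) (l 16554408)) (a (l 16560616) (l 16560456))) (b (l 16548744) (a (l 16554848) (l 16554920)))) (a (b (c (b (l 16565496) (l 16569216)) (l 16561920)) (c (l 16575216) (l 16569840))) (c (l 16571560) (l 16566280)))) (b (c (l 16578672) (l 16594272)) (l 16569416)))) (c (b (b (l 16593592) (l 16568440)) (l 16579608)) (a (b (l 16576392) (l 16570080)) (l 16563368)))) (c (c (l 16574760) (l 16570800)) (l 16565088)))) (c (a (l 16603208) (l 16583328)) (b (l 16542552) (l 16590512)))), by decide +kernel⟩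

def k6_pp_022_a : ∃ t, chk3 f_pp_022_a t 9 5 1 = true :=
  ⟨(a (c (l 16578464) (l 16581504)) (l 16628696)), by decide +kernel⟩

def k7_pp_022_a : ∃ t, chk3 f_pp_022_a t 5 2 1 = true :=
  ⟨(a (b (l 16628640) (a (l 16695072) (l 1))) (l 1)), by decide +kernel⟩

def k8_pp_022_a : ∃ t, chk3 f_pp_022_a t 4 6 1 = true :=
  ⟨(a (a (b (a (c (a (a (a (c (b (c (b (l 16595336) (a (l 16603576) (l 16603520))) (b (l 16592704) (l 16601040))) (b (c (b (l 16609888) (l 16614232)) (l 16609720)) (c (b (a (l 16618696) (l 16618664)) (l 16623392)) (l 16618848)))) (b (c (l 16594360) (l 16591800)) (c (b (l 16607352) (l 16616624)) (l 16609752)))) (c (b (c (l 16599384) (l 16596896)) (c (l 16616576) (l 16614368))) (b (l 16593176) (l 16611048)))) (c (b (l 16598032) (l 16615488)) (b (l 16593312) (l 16611288)))) (c (b (l 16597920) (l 16615600)) (l 16602992))) (a (a (b (c (c (l 16589352) (l 16586848)) (l 16583088)) (c (b (l 16601568) (l 16611216)) (b (l 16596904) (l 16606800)))) (b (l 16586288) (c (l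 16607080) (l 16602872)))) (b (l 16587368) (l 16606216)))) (b (c (l 16596336) (l 16589664)) (c (l 16614504) (l 16608728)))) (a (a (c (c (a (a (b (c (b (l 16630800) (l 16640952)) (b (l 16628712) (l 16638992))) (c (b (l 16651440) (l 16662280)) (b (l 16649640) (l 16660648)))) (b (l 16634992) (l 16656176))) (b (l 16635096) (l 16656336))) (a (b (b (l 16630904) (l 16637456)) (b (l 16647024) (l 16658304))) (b (l 16631392) (l 16653240)))) (a (b (c (a (l 16631992) (l 16627112)) (l 16622856)) (c (b (l 16643416) (l 16655032)) (b (l 16639760) (l 16651696)))) (b (l 16625792) (l 16648528)))) (c (b (l 16633688) (l 16655384)) (b (l 16627144) (l 16650016)))) (c (b (l 16634688) (l 16656816)) (l 16683680)))) (b (c (l 16628656) (l 16604472)) (a (c (l 16669008) (l 16645704)) (l 16681216)))) (a (b (l 16640976) (b (l 16682088) (l 16671784))) (b (l 16710136) (b (l 16729688) (l 1))))), by decide +kernel⟩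

def k9_pp_022_a : ∃ t, chk3 f_pp_022_a t 4 7 1 = true :=
  ⟨(b (a (a (b (a (a (c (c (c (a (b (l 16673528) (l 16685288)) (l 16679824)) (a (b (l 16672128) (l 16684080)) (l 16678656))) (a (b (l 16670000) (l 16684864)) (l 16676880))) (a (c (b (l 16667096) (l 16679728)) (b (l 16664128) (l 16677136))) (l 16673224))) (c (l 16698616) (l 16674944))) (c (l 16680872) (l 16678408))) (l 6)) (b (a (l 16686080) (l 16690904)) (a (l 6) (b (l 16740672) (l 16782024))))) (a (b (a (l 16757656) (l 1)) (l 1)) (l 1))) (a (a (l 6) (a (l 6) (l 1))) (l 1))), by decide +kernel⟩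

def k10_pp_022_a : ∃ t, chk3 f_pp_022_a t 5 3 1 = true :=
  ⟨(b (l 1) (l 1)), by decide +kernel⟩

def k11_pp_022_a : ∃ t, chk3 f_pp_022_a t 3 1 1 = true :=
  ⟨(l 1), by decide +kernel⟩

theorem s12_pp_022_a : ∃ t, chk3 f_pp_022_a t 4 3 1 = true := ex3_b k8_pp_022_a k9_pp_022_a

theorem s13_pp_022_a : ∃ t, chk3 f_pp_022_a t 2 3 1 = true := ex3_a s12_pp_022_a k10_pp_022_a

theorem s14_pp_022_a : ∃ t, chk3 f_pp_022_a t 4 5 1 = true := ex3_a k5_pp_022_a k6_pp_022_a

theorem s15_pp_022_a : ∃ t, chk3 f_pp_022_a t 32 4 1 = true := ex3_b k0_pp_022_a k1_pp_022_a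

theorem s16_pp_022_a : ∃ t, chk3 f_pp_022_a t 16 4 1 = true := ex3_a s15_pp_022_a k2_pp_022_a

theorem s17_pp_022_a : ∃ t, chk3 f_pp_022_a t 8 4 1 = true := ex3_a s16_pp_022_a k3_pp_022_a

theorem s18_pp_022_a : ∃ t, chk3 f_pp_022_a t 4 4 1 = true := ex3_a s17_pp_022_a k4_pp_022_a

theorem s19_pp_022_a : ∃ t, chk3 f_pp_022_a t 4 2 1 = true := ex3_b s18_pp_022_a s14_pp_022_a

theorem s20_pp_022_a : ∃ t, chk3 f_pp_022_a t 2 2 1 = true := ex3_a s19_pp_022_a k7_pp_022_a

theorem s21_pp_022_a : ∃ t, chk3 f_pp_022_a t 2 1 1 = true := ex3_b s20_pp_022_a s13_pp_022_a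

theorem s22_pp_022_a : ∃ t, chk3 f_pp_022_a t 1 1 1 = true := ex3_a s21_pp_022_a k11_pp_022_a

theorem c_pp_022_a : CertF 0 536870912 0 536870912 201326592 134217728 false true true .pp 0 2 2
    ndF1q0 ndF2q2a pcF2 cut_pp_022_a Ext.none :=
  certF0 (fam := false) (s1 := true) (s2 := true) (a := 0) (b := 2) (c := 2) (cn := .pp) (n1 := ndF1q0) (n2 := ndF2q2a) (pc := pcF2) (cut := cut_pp_022_a) (xt := Ext.none) (P1 := 0) (W1 := 536870912) (P2 := 0) (W2 := 536870912) (P3 := 201326592) (W3 := 134217728)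
    rfl s22_pp_022_a

noncomputable def cut_pp_022_b : Cut := Cut.of [[⟨0, 0, 0, 67108864⟩, ⟨1, 1, 0, 67108864⟩, ⟨2, 1, 0, 67108864⟩]]

noncomputable def f_pp_022_b : ℕ → ℕ → ℕ → ℕ → Bool := onCell 0 536870912 1073741824 536870912 201326592 134217728
    (rowF 1 false true true .pp 0 2 2 (qsf 0 536870912 1239849684 370763052 2) ndF1q0 ndF2q2b pcF2 cut_pp_022_b Ext.none)

def k0_pp_022_b : ∃ t, chk3 f_pp_022_b t 4 4 1 = true :=
  ⟨(a (b (l 1) (b (a (l 1) (l 252899373415)) (b (a (l 1) (c (l 16525048) (l 16524944))) (a (a (l 1) (c (l 16629640) (l 274911062583))) (c (l 16604960) (l 16577856)))))) (b (b (l 158947245447) (l 177737592647)) (b (l 12918086679) (b (l 16520280) (c (l 16537264) (l 16520528)))))), by decide +kernel⟩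

def k1_pp_022_b : ∃ t, chk3 f_pp_022_b t 4 20 1 = true :=
  ⟨(b (a (a (b (c (l 249678071655) (l 264710437607)) (c (l 252899338183) (l 267394809335))) (c (l 16555432) (l 16526856))) (c (l 16500816) (l 16465760))) (a (a (b (a (c (c (l 244846278439) (l 245920008983)) (l 247530614759)) (c (l 16501928) (l 16489808))) (a (c (a (b (c (l 248604342231) (l 16548352)) (b (b (c (l 16543112) (l 16524528)) (c (l 251288680903) (l 16523408))) (c (a (c (b (b (b (l 16536824) (b (l 16536728) (l 16536688))) (l 16536376)) (l 16535480)) (b (b (b (l 16532560) (b (l 16532448) (l 16532400))) (l 16532064)) (l 16531128))) (l 16526608)) (a (a (b (b (b (l 16528032) (c (b (l 16529976) (l 16529912)) (l 16546728))) (l 16527456)) (l 16526464)) (l 16544424)) (l 16518240))))) (b (l 16516912) (b (l 16513688) (l 16543232)))) (a (b (l 253436153271) (b (c (l 255046758087) (l 16529320)) (c (a (b (b (b (l 16518176) (b (l 16518000) (l 16517904))) (l 16517504)) (l 16516448)) (l 16510168)) (b (b (b (l 16506992)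 (b (l 16506800) (l 16506680))) (l 16506256)) (l 16505144))))) (b (l 16502456) (b (l 16498536) (l 16496120))))) (b (c (l 16494896) (l 16481496)) (c (b (l 16491792) (l 16489984)) (b (l 16477664) (l 16475320)))))) (b (c (l 16444848) (l 16445448)) (b (c (l 16448576) (l 16437296)) (c (l 16528344) (l 16495072))))) (b (l 16432376) (b (l 16415576) (a (l 16477832) (l 16496848)))))), by decide +kernel⟩

def k2_pp_022_b : ∃ t, chk3 f_pp_022_b t 4 21 1 = true :=
  ⟨(a (a (a (c (b (a (c (b (c (l 16547928) (l 16522392)) (c (l 16517928) (l 16512896))) (a (b (c (l 16521352) (l 16516904)) (l 16529920)) (l 16507832))) (l 16533440)) (a (c (a (c (l 16530608) (l 16524752)) (l 16499792)) (b (l 16516864) (l 16507848))) (l 16504584))) (b (b (a (c (l 16517528) (l 16498704)) (l 16489400)) (a (c (l 16496040) (l 16486936)) (l 16478000))) (b (a (c (l 16485496) (l 16475552)) (l 16467032)) (c (l 16489760) (l 16479064))))) (c (b (l 16480376) (l 16462176)) (b (l 16463632) (l 16441560)))) (c (l 16513520)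 (l 16495960))) (a (c (l 16788368) (l 16349936)) (l 16674440))), by decide +kernel⟩

def k3_pp_022_b : ∃ t, chk3 f_pp_022_b t 4 11 1 = true :=
  ⟨(a (a (b (a (b (a (c (c (c (l 16510592) (l 16506216)) (b (l 16478568) (l 16470960))) (c (a (l 16486320) (l 16458744)) (l 16470672))) (c (l 16489168) (l 16442528))) (a (c (c (a (c (l 16671120) (l 16509032)) (l 16706416)) (a (l 16485352) (l 16457872))) (c (l 16466792) (l 16431296))) (c (l 16488296) (l 16425456)))) (c (b (l 16447168) (l 16661320)) (l 16456712))) (a (a (c (b (c (b (l 16624936) (l 16856624)) (l 16471376)) (c (l 16874736) (l 16447696))) (b (c (l 16432584) (l 16415720)) (c (l 16423088) (l 16403688)))) (c (c (l 16918304) (l 16556072)) (l 16448424))) (c (c (l 17185440) (l 16725040)) (l 16387616)))) (b (a (b (l 16447240) (l 16433768)) (l 16448104)) (c (l 17143032) (l 16347944)))) (b (c (l 17201376) (l 16443664)) (c (l 17408264) (l 16722680)))), by decide +kernel⟩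

def k4_pp_022_b : ∃ t, chk3 f_pp_022_b t 5 2 1 = true :=
  ⟨(a (b (b (b (l 16604048) (l 16543048)) (b (l 16483984) (b (l 16478792) (l 16642464)))) (b (b (b (l 16751952) (b (l 16841784) (b (l 16884272) (l 16911744)))) (l 17027304)) (b (l 17204744) (l 17348696)))) (b (b (l 16539232) (b (l 16847024) (b (l 16992120) (l 17079592)))) (b (b (b (l 17159792) (b (l 17213624) (l 17247456))) (l 17323880)) (l 17478992)))), by decide +kernel⟩

def k5_pp_022_b : ∃ t, chk3 f_pp_022_b t 2 3 1 = true :=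
  ⟨(b (a (b (a (a (b (c (a (c (b (l 17300656) (l 17439272)) (b (a (l 16586584) (l 16888048)) (l 16917448))) (c (l 17462056) (l 17059200))) (a (b (c (l 16412616) (l 16390480)) (c (l 16476488) (l 16388664))) (l 16449632))) (c (c (l 17641648) (b (l 17131928) (l 17336608))) (c (a (b (l 16715464) (l 16934592)) (l 16960896)) (b (l 16412920) (l 16416784))))) (b (c (l 17388048) (l 16651992)) (c (l 17574784) (l 16924224)))) (b (c (l 17568552) (l 16948696)) (c (l 17690304) (l 17130192)))) (a (a (c (b (b (l 17564408) (l 17687048)) (a (l 17776168) (l 17792464))) (b (a (b (b (l 16698808) (l 16833528)) (c (l 17197016) (l 16879712))) (l 17051536)) (a (b (l 17012904) (l 17245400)) (l 17257296)))) (b (c (l 17713288) (l 17140704)) (c (l 17811072) (l 17304088)))) (b (l 17526984) (l 17613920)))) (b (b (l 17535704) (l 17606656)) (a (l 17652288) (l 17710496)))) (b (a (a (b (a (c (l 17869696) (b (a (l 17340088) (l 17361928)) (l 17396504))) (l 17541512)) (c (l 17935080) (l 17471096))) (b (l 17682384)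 (l 17743472))) (b (l 17748528) (l 2))) (a (a (c (l 18011032) (l 17568408)) (l 17821608)) (l 2)))), by decide +kernel⟩

def k6_pp_022_b : ∃ t, chk3 f_pp_022_b t 3 1 1 = true :=
  ⟨(b (a (b (b (a (l 16974192) (l 17247632)) (b (l 17310160) (b (l 17390600) (l 17438672)))) (b (b (b (l 17482352) (b (l 17510000) (l 17527232))) (l 17564768)) (l 17644016))) (b (b (l 17477904) (b (l 17575336) (a (l 17586856) (l 2)))) (b (b (b (l 17663296) (l 2)) (l 2)) (l 2)))) (b (b (a (l 17718552) (l 2)) (l 2)) (l 2))), by decide +kernel⟩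

theorem s7_pp_022_b : ∃ t, chk3 f_pp_022_b t 4 10 1 = true := ex3_b k1_pp_022_b k2_pp_022_b

theorem s8_pp_022_b : ∃ t, chk3 f_pp_022_b t 4 5 1 = true := ex3_b s7_pp_022_b k3_pp_022_b

theorem s9_pp_022_b : ∃ t, chk3 f_pp_022_b t 4 2 1 = true := ex3_b k0_pp_022_b s8_pp_022_b

theorem s10_pp_022_b : ∃ t, chk3 f_pp_022_b t 2 2 1 = true := ex3_a s9_pp_022_b k4_pp_022_b

theorem s11_pp_022_b : ∃ t, chk3 f_pp_022_b t 2 1 1 = true := ex3_b s10_pp_022_b k5_pp_022_b

theorem s12_pp_022_b : ∃ t, chk3 f_pp_022_b t 1 1 1 = true := ex3_a s11_pp_022_b k6_pp_022_b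

theorem c_pp_022_b : CertF 0 536870912 1239849684 370763052 201326592 134217728 false true true .pp 0 2 2
    ndF1q0 ndF2q2b pcF2 cut_pp_022_b Ext.none :=
  certF1 (fam := false) (s1 := true) (s2 := true) (a := 0) (b := 2) (c := 2) (cn := .pp) (n1 := ndF1q0) (n2 := ndF2q2b) (pc := pcF2) (cut := cut_pp_022_b) (xt := Ext.none) (P1 := 0) (W1 := 536870912) (P2 := 1239849684) (W2 := 370763052) (P3 := 201326592) (W3 := 134217728)
    rfl (fun _ => rfl) s12_pp_022_b

noncomputable def f_pp_023 : ℕ → ℕ → ℕ → ℕ → Bool := onCell 1073741824 536870912 1610612736 536870912 201326592 134217728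
    (rowF 2 false true true .up 0 2 3 (qsf 0 536870912 1610612736 536870912 2) ndF1q0 ndF2q3 pcF2 Cut.none Ext.none)

def k0_pp_023 : ∃ t, chk3 f_pp_023 t 1 1 1 = true :=
  ⟨(a (b (a (a (l 17617112) (a (l 17654320) (a (l 17671936) (l 17681840)))) (a (a (a (l 17690632) (b (l 17661320) (l 17707528))) (l 17700168)) (b (l 17674152) (l 17729760)))) (a (l 2) (a (l 2) (l 17720496)))) (a (a (b (b (l 17691888) (l 17754416)) (l 17735792)) (b (b (l 17706768) (l 17778320)) (l 17746800))) (a (b (b (a (l 17736784) (l 17770056)) (l 17826688)) (b (l 17807984) (l 17718936))) (b (b (b (l 17802608) (l 17838096)) (l 17880480)) (l 17924144))))), by decide +kernel⟩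

theorem c_pp_023 : CertF 0 536870912 1610612736 536870912 201326592 134217728 false true true .up 0 2 3
    ndF1q0 ndF2q3 pcF2 Cut.none Ext.none :=
  certF2 (fam := false) (s1 := true) (s2 := true) (a := 0) (b := 2) (c := 3) (cn := .up) (n1 := ndF1q0) (n2 := ndF2q3) (pc := pcF2) (cut := Cut.none) (xt := Ext.none) (P1 := 0) (W1 := 536870912) (P2 := 1610612736) (W2 := 536870912) (P3 := 201326592) (W3 := 134217728)
    rfl (fun _ => rfl) k0_pp_023

noncomputable def f_pp_033 : ℕ → ℕ → ℕ → ℕ → Bool := onCell 1610612736 536870912 1610612736 536870912 201326592 134217728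
    (rowF 2 false true true .pnn 0 3 3 (qsf 0 536870912 1610612736 536870912 3) ndF1q0 ndF2q3 pcF3 Cut.none Ext.none)

def k0_pp_033 : ∃ t, chk3 f_pp_033 t 1 1 1 = true :=
  ⟨(a (b (a (b (c (a (l 17919728) (l 587373272663)) (b (a (l 332895742199) (l 627100711223)) (l 208878614167))) (a (b (l 17701904) (l 17650368)) (b (l 17790784) (l 17738432)))) (b (a (b (l 1) (l 663071392839)) (l 1)) (b (a (l 347391714551) (l 680251778407)) (a (l 17812680) (l 17872064))))) (a (a (b (l 17621800) (l 17596112)) (b (l 17685256) (l 17845480))) (a (b (l 17732096) (b (l 17633288) (l 4))) (b (b (l 17810144) (l 17731536)) (l 4))))) (b (a (b (l 1) (a (b (l 1) (l 768835463511)) (l 1))) (l 1)) (b (a (a (c (l 17901408) (l 17662712)) (l 710316349479)) (a (b (l 1) (l 4)) (l 1))) (a (l 4) (l 4))))), by decide +kernel⟩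

theorem c_pp_033 : CertF 0 536870912 1610612736 536870912 201326592 134217728 false true true .pnn 0 3 3
    ndF1q0 ndF2q3 pcF3 Cut.none Ext.none :=
  certF2 (fam := false) (s1 := true) (s2 := true) (a := 0) (b := 3) (c := 3) (cn := .pnn) (n1 := ndF1q0) (n2 := ndF2q3) (pc := pcF3) (cut := Cut.none) (xt := Ext.none) (P1 := 0) (W1 := 536870912) (P2 := 1610612736) (W2 := 536870912) (P3 := 201326592) (W3 := 134217728)
    rfl (fun _ => rfl) k0_pp_033

noncomputable def f_pp_101 : ℕ → ℕ → ℕ → ℕ → Bool := onCell 536870912 536870912 536870912 536870912 201326592 134217728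
    (rowF 0 false true true .npn 1 0 1 (qsf 536870912 536870912 536870912 536870912 0) ndF1q1 ndF2q1 pcF0 Cut.none Ext.none)

def k0_pp_101 : ∃ t, chk3 f_pp_101 t 1 1 1 = true :=
  ⟨(l 3), by decide +kernel⟩

theorem c_pp_101 : CertF 536870912 536870912 536870912 536870912 201326592 134217728 false true true .npn 1 0 1
    ndF1q1 ndF2q1 pcF0 Cut.none Ext.none :=
  certF0 (fam := false) (s1 := true) (s2 := true) (a := 1) (b := 0) (c := 1) (cn := .npn) (n1 := ndF1q1) (n2 := ndF2q1) (pc := pcF0) (cut := Cut.none) (xt := Ext.none) (P1 := 536870912) (W1 := 536870912) (P2 := 536870912) (W2 := 536870912) (P3 := 201326592) (W3 := 134217728)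
    rfl k0_pp_101

noncomputable def f_pp_102_a : ℕ → ℕ → ℕ → ℕ → Bool := onCell 536870912 536870912 0 536870912 201326592 134217728
    (rowF 0 false true true .npp 1 0 2 (qsf 536870912 536870912 0 536870912 0) ndF1q1 ndF2q2a pcF0 Cut.none Ext.none)

def k0_pp_102_a : ∃ t, chk3 f_pp_102_a t 1 1 1 = true :=
  ⟨(l 3), by decide +kernel⟩

theorem c_pp_102_a : CertF 536870912 536870912 0 536870912 201326592 134217728 false true true .npp 1 0 2
    ndF1q1 ndF2q2a pcF0 Cut.none Ext.none :=
  certF0 (fam := false) (s1 := true) (s2 := true) (a := 1) (b := 0) (c := 2) (cn := .npp) (n1 := ndF1q1) (n2 := ndF2q2a) (pc := pcF0) (cut := Cut.none) (xt := Ext.none) (P1 := 536870912) (W1 := 536870912) (P2 := 0) (W2 := 536870912) (P3 := 201326592) (W3 := 134217728)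
    rfl k0_pp_102_a

noncomputable def f_pp_102_b : ℕ → ℕ → ℕ → ℕ → Bool := onCell 536870912 536870912 0 536870912 201326592 134217728
    (rowF 1 false true true .npp 1 0 2 (qsf 536870912 536870912 1239849684 370763052 0) ndF1q1 ndF2q2b pcF0 Cut.none Ext.none)

def k0_pp_102_b : ∃ t, chk3 f_pp_102_b t 1 1 1 = true :=
  ⟨(l 3), by decide +kernel⟩

theorem c_pp_102_b : CertF 536870912 536870912 1239849684 370763052 201326592 134217728 false true true .npp 1 0 2
    ndF1q1 ndF2q2b pcF0 Cut.none Ext.none :=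
  certF1 (fam := false) (s1 := true) (s2 := true) (a := 1) (b := 0) (c := 2) (cn := .npp) (n1 := ndF1q1) (n2 := ndF2q2b) (pc := pcF0) (cut := Cut.none) (xt := Ext.none) (P1 := 536870912) (W1 := 536870912) (P2 := 1239849684) (W2 := 370763052) (P3 := 201326592) (W3 := 134217728)
    rfl (fun _ => rfl) k0_pp_102_b

noncomputable def f_pp_112_a : ℕ → ℕ → ℕ → ℕ → Bool := onCell 536870912 536870912 0 536870912 201326592 134217728
    (rowF 0 false true true .dn 1 1 2 (qsf 536870912 536870912 0 536870912 1) ndF1q1 ndF2q2a pcF1 Cut.none Ext.none)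

def k0_pp_112_a : ∃ t, chk3 f_pp_112_a t 1 1 1 = true :=
  ⟨(l 3), by decide +kernel⟩

theorem c_pp_112_a : CertF 536870912 536870912 0 536870912 201326592 134217728 false true true .dn 1 1 2
    ndF1q1 ndF2q2a pcF1 Cut.none Ext.none :=
  certF0 (fam := false) (s1 := true) (s2 := true) (a := 1) (b := 1) (c := 2) (cn := .dn) (n1 := ndF1q1) (n2 := ndF2q2a) (pc := pcF1) (cut := Cut.none) (xt := Ext.none) (P1 := 536870912) (W1 := 536870912) (P2 := 0) (W2 := 536870912) (P3 := 201326592) (W3 := 134217728)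
    rfl k0_pp_112_a

noncomputable def f_pp_112_b : ℕ → ℕ → ℕ → ℕ → Bool := onCell 536870912 536870912 1239849684 370763052 201326592 134217728
    (rowF 2 false true true .dn 1 1 2 (qsf 536870912 536870912 1239849684 370763052 1) ndF1q1 ndF2q2b pcF1 Cut.none Ext.none)

def k0_pp_112_b : ∃ t, chk3 f_pp_112_b t 1 1 1 = true :=
  ⟨(a (a (l 3) (b (l 3) (l 3))) (a (b (b (l 1) (a (l 17322216) (l 17379744))) (a (l 219212194983) (l 17321320))) (b (l 1) (l 17619584)))), by decide +kernel⟩

theorem c_pp_112_b : CertF 536870912 536870912 1239849684 370763052 201326592 134217728 false true true .dn 1 1 2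
    ndF1q1 ndF2q2b pcF1 Cut.none Ext.none :=
  certF2 (fam := false) (s1 := true) (s2 := true) (a := 1) (b := 1) (c := 2) (cn := .dn) (n1 := ndF1q1) (n2 := ndF2q2b) (pc := pcF1) (cut := Cut.none) (xt := Ext.none) (P1 := 536870912) (W1 := 536870912) (P2 := 1239849684) (W2 := 370763052) (P3 := 201326592) (W3 := 134217728)
    rfl (fun _ => rfl) k0_pp_112_b

noncomputable def f_pp_113 : ℕ → ℕ → ℕ → ℕ → Bool := onCell 536870912 536870912 536870912 536870912 201326592 134217728
    (rowF 1 false true true .nn 1 1 3 (qsf 536870912 536870912 1610612736 536870912 1) ndF1q1 ndF2q3 pcF1 Cut.none Ext.none)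

def k0_pp_113 : ∃ t, chk3 f_pp_113 t 1 1 1 = true :=
  ⟨(b (b (l 3) (a (a (l 1) (l 3)) (b (l 3) (a (l 293300338471) (l 17393704))))) (b (a (b (l 228205167191) (l 210488460567)) (b (a (l 17259672) (l 17254056)) (l 17208672))) (a (a (l 17315560) (l 17206744)) (a (l 17114240) (l 17085872))))), by decide +kernel⟩

theorem c_pp_113 : CertF 536870912 536870912 1610612736 536870912 201326592 134217728 false true true .nn 1 1 3
    ndF1q1 ndF2q3 pcF1 Cut.none Ext.none :=
  certF1 (fam := false) (s1 := true) (s2 := true) (a := 1) (b := 1) (c := 3) (cn := .nn) (n1 := ndF1q1) (n2 := ndF2q3) (pc := pcF1) (cut := Cut.none) (xt := Ext.none) (P1 := 536870912) (W1 := 536870912) (P2 := 1610612736) (W2 := 536870912) (P3 := 201326592) (W3 := 134217728)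
    rfl (fun _ => rfl) k0_pp_113

noncomputable def f_pp_123 : ℕ → ℕ → ℕ → ℕ → Bool := onCell 1073741824 536870912 1610612736 536870912 201326592 134217728
    (rowF 2 false true true .npn 1 2 3 (qsf 536870912 536870912 1610612736 536870912 2) ndF1q1 ndF2q3 pcF2 Cut.none Ext.none)

def k0_pp_123 : ∃ t, chk3 f_pp_123 t 1 1 1 = true :=
  ⟨(b (a (a (a (l 17423912) (a (l 17452512) (l 313031161047))) (a (a (b (l 17507112) (l 17421976)) (l 17459672)) (l 17442632))) (a (a (l 17410288) (l 1)) (l 1))) (a (a (a (l 17178432) (a (l 17221272) (a (l 17240680) (l 17251432)))) (a (b (l 17393568) (l 17253720)) (l 17288408))) (a (b (l 17332488) (l 17255032)) (b (l 470870888215) (l 17203984))))), by decide +kernel⟩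

theorem c_pp_123 : CertF 536870912 536870912 1610612736 536870912 201326592 134217728 false true true .npn 1 2 3
    ndF1q1 ndF2q3 pcF2 Cut.none Ext.none :=
  certF2 (fam := false) (s1 := true) (s2 := true) (a := 1) (b := 2) (c := 3) (cn := .npn) (n1 := ndF1q1) (n2 := ndF2q3) (pc := pcF2) (cut := Cut.none) (xt := Ext.none) (P1 := 536870912) (W1 := 536870912) (P2 := 1610612736) (W2 := 536870912) (P3 := 201326592) (W3 := 134217728)
    rfl (fun _ => rfl) k0_pp_123

noncomputable def f_pp_133 : ℕ → ℕ → ℕ → ℕ → Bool := onCell 1610612736 536870912 1610612736 536870912 201326592 134217728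
    (rowF 2 false true true .dn 1 3 3 (qsf 536870912 536870912 1610612736 536870912 3) ndF1q1 ndF2q3 pcF3 Cut.none Ext.none)

def k0_pp_133 : ∃ t, chk3 f_pp_133 t 1 1 1 = true :=
  ⟨(a (b (l 1) (a (b (l 1) (a (l 17032888) (l 1))) (l 1))) (l 1)), by decide +kernel⟩

theorem c_pp_133 : CertF 536870912 536870912 1610612736 536870912 201326592 134217728 false true true .dn 1 3 3
    ndF1q1 ndF2q3 pcF3 Cut.none Ext.none :=
  certF2 (fam := false) (s1 := true) (s2 := true) (a := 1) (b := 3) (c := 3) (cn := .dn) (n1 := ndF1q1) (n2 := ndF2q3) (pc := pcF3) (cut := Cut.none) (xt := Ext.none) (P1 := 536870912) (W1 := 536870912) (P2 := 1610612736) (W2 := 536870912) (P3 := 201326592) (W3 := 134217728)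
    rfl (fun _ => rfl) k0_pp_133

noncomputable def f_pp_202_aa : ℕ → ℕ → ℕ → ℕ → Bool := onCell 0 536870912 0 536870912 201326592 134217728
    (rowF 0 false true true .pp 2 0 2 (qsf 0 536870912 0 536870912 0) ndF1q2a ndF2q2a pcF0 Cut.none Ext.none)

def k0_pp_202_aa : ∃ t, chk3 f_pp_202_aa t 1 1 1 = true :=
  ⟨(l 3), by decide +kernel⟩

theorem c_pp_202_aa : CertF 0 536870912 0 536870912 201326592 134217728 false true true .pp 2 0 2
    ndF1q2a ndF2q2a pcF0 Cut.none Ext.none :=
  certF0 (fam := false) (s1 := true) (s2 := true) (a := 2) (b := 0) (c := 2) (cn := .pp) (n1 := ndF1q2a) (n2 := ndF2q2a) (pc := pcF0) (cut := Cut.none) (xt := Ext.none) (P1 := 0) (W1 := 536870912) (P2 := 0) (W2 := 536870912) (P3 := 201326592) (W3 := 134217728)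
    rfl k0_pp_202_aa

noncomputable def f_pp_202_ab : ℕ → ℕ → ℕ → ℕ → Bool := onCell 0 536870912 1239849684 370763052 201326592 134217728
    (rowF 0 false true true .pp 2 0 2 (qsf 0 536870912 1239849684 370763052 0) ndF1q2a ndF2q2b pcF0 Cut.none Ext.none)

def k0_pp_202_ab : ∃ t, chk3 f_pp_202_ab t 1 1 1 = true :=
  ⟨(l 3), by decide +kernel⟩

theorem c_pp_202_ab : CertF 0 536870912 1239849684 370763052 201326592 134217728 false true true .pp 2 0 2
    ndF1q2a ndF2q2b pcF0 Cut.none Ext.none :=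
  certF0 (fam := false) (s1 := true) (s2 := true) (a := 2) (b := 0) (c := 2) (cn := .pp) (n1 := ndF1q2a) (n2 := ndF2q2b) (pc := pcF0) (cut := Cut.none) (xt := Ext.none) (P1 := 0) (W1 := 536870912) (P2 := 1239849684) (W2 := 370763052) (P3 := 201326592) (W3 := 134217728)
    rfl k0_pp_202_ab

noncomputable def f_pp_202_ba : ℕ → ℕ → ℕ → ℕ → Bool := onCell 1239849684 370763052 0 536870912 201326592 134217728
    (rowF 0 false true true .pp 2 0 2 (qsf 1239849684 370763052 0 536870912 0) ndF1q2b ndF2q2a pcF0 Cut.none Ext.none)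

def k0_pp_202_ba : ∃ t, chk3 f_pp_202_ba t 1 1 1 = true :=
  ⟨(l 3), by decide +kernel⟩

theorem c_pp_202_ba : CertF 1239849684 370763052 0 536870912 201326592 134217728 false true true .pp 2 0 2
    ndF1q2b ndF2q2a pcF0 Cut.none Ext.none :=
  certF0 (fam := false) (s1 := true) (s2 := true) (a := 2) (b := 0) (c := 2) (cn := .pp) (n1 := ndF1q2b) (n2 := ndF2q2a) (pc := pcF0) (cut := Cut.none) (xt := Ext.none) (P1 := 1239849684) (W1 := 370763052) (P2 := 0) (W2 := 536870912) (P3 := 201326592) (W3 := 134217728)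
    rfl k0_pp_202_ba

noncomputable def f_pp_202_bb : ℕ → ℕ → ℕ → ℕ → Bool := onCell 1239849684 370763052 1239849684 370763052 201326592 134217728
    (rowF 0 false true true .pp 2 0 2 (qsf 1239849684 370763052 1239849684 370763052 0) ndF1q2b ndF2q2b pcF0 Cut.none Ext.none)

def k0_pp_202_bb : ∃ t, chk3 f_pp_202_bb t 1 1 1 = true :=
  ⟨(l 3), by decide +kernel⟩

theorem c_pp_202_bb : CertF 1239849684 370763052 1239849684 370763052 201326592 134217728 false true true .pp 2 0 2
    ndF1q2b ndF2q2b pcF0 Cut.none Ext.none :=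
  certF0 (fam := false) (s1 := true) (s2 := true) (a := 2) (b := 0) (c := 2) (cn := .pp) (n1 := ndF1q2b) (n2 := ndF2q2b) (pc := pcF0) (cut := Cut.none) (xt := Ext.none) (P1 := 1239849684) (W1 := 370763052) (P2 := 1239849684) (W2 := 370763052) (P3 := 201326592) (W3 := 134217728)
    rfl k0_pp_202_bb

noncomputable def f_pp_203_a : ℕ → ℕ → ℕ → ℕ → Bool := onCell 0 536870912 0 536870912 201326592 134217728
    (rowF 1 false true true .up 2 0 3 (qsf 0 536870912 1610612736 536870912 0) ndF1q2a ndF2q3 pcF0 Cut.none Ext.none)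

def k0_pp_203_a : ∃ t, chk3 f_pp_203_a t 1 1 1 = true :=
  ⟨(l 3), by decide +kernel⟩

theorem c_pp_203_a : CertF 0 536870912 1610612736 536870912 201326592 134217728 false true true .up 2 0 3
    ndF1q2a ndF2q3 pcF0 Cut.none Ext.none :=
  certF1 (fam := false) (s1 := true) (s2 := true) (a := 2) (b := 0) (c := 3) (cn := .up) (n1 := ndF1q2a) (n2 := ndF2q3) (pc := pcF0) (cut := Cut.none) (xt := Ext.none) (P1 := 0) (W1 := 536870912) (P2 := 1610612736) (W2 := 536870912) (P3 := 201326592) (W3 := 134217728)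
    rfl (fun _ => rfl) k0_pp_203_a

noncomputable def f_pp_203_b : ℕ → ℕ → ℕ → ℕ → Bool := onCell 1239849684 370763052 1610612736 536870912 201326592 134217728
    (rowF 0 false true true .up 2 0 3 (qsf 1239849684 370763052 1610612736 536870912 0) ndF1q2b ndF2q3 pcF0 Cut.none Ext.none)

def k0_pp_203_b : ∃ t, chk3 f_pp_203_b t 1 1 1 = true :=
  ⟨(l 3), by decide +kernel⟩

theorem c_pp_203_b : CertF 1239849684 370763052 1610612736 536870912 201326592 134217728 false true true .up 2 0 3
    ndF1q2b ndF2q3 pcF0 Cut.none Ext.none :=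
  certF0 (fam := false) (s1 := true) (s2 := true) (a := 2) (b := 0) (c := 3) (cn := .up) (n1 := ndF1q2b) (n2 := ndF2q3) (pc := pcF0) (cut := Cut.none) (xt := Ext.none) (P1 := 1239849684) (W1 := 370763052) (P2 := 1610612736) (W2 := 536870912) (P3 := 201326592) (W3 := 134217728)
    rfl k0_pp_203_b

noncomputable def cut_pp_213_a : Cut := Cut.of [[⟨0, 1, 0, 57167902⟩, ⟨1, 1, 0, 57167902⟩, ⟨2, 2, 0, 11758673⟩]]

noncomputable def f_pp_213_a : ℕ → ℕ → ℕ → ℕ → Bool := onCell 0 536870912 1610612736 536870912 201326592 134217728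
    (rowF 0 false true true .pnn 2 1 3 (qsf 0 536870912 1610612736 536870912 1) ndF1q2a ndF2q3 pcF1 cut_pp_213_a Ext.none)

def k0_pp_213_a : ∃ t, chk3 f_pp_213_a t 1 1 1 = true :=
  ⟨(b (l 3) (b (l 3) (a (l 3) (a (l 3) (b (l 3) (a (l 3) (b (l 3) (b (l 3) (b (l 3) (l 6)))))))))), by decide +kernel⟩

theorem c_pp_213_a : CertF 0 536870912 1610612736 536870912 201326592 134217728 false true true .pnn 2 1 3
    ndF1q2a ndF2q3 pcF1 cut_pp_213_a Ext.none :=
  certF0 (fam := false) (s1 := true) (s2 := true) (a := 2) (b := 1) (c := 3) (cn := .pnn) (n1 := ndF1q2a) (n2 := ndF2q3) (pc := pcF1) (cut := cut_pp_213_a) (xt := Ext.none) (P1 := 0) (W1 := 536870912) (P2 := 1610612736) (W2 := 536870912) (P3 := 201326592) (W3 := 134217728)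
    rfl k0_pp_213_a

noncomputable def cut_pp_213_b : Cut := Cut.of [[⟨0, 1, 0, 57167902⟩, ⟨1, 1, 0, 57167902⟩, ⟨2, 2, 0, 11758673⟩]]

noncomputable def f_pp_213_b : ℕ → ℕ → ℕ → ℕ → Bool := onCell 1239849684 370763052 1610612736 536870912 201326592 134217728
    (rowF 0 false true true .pnn 2 1 3 (qsf 1239849684 370763052 1610612736 536870912 1) ndF1q2b ndF2q3 pcF1 cut_pp_213_b Ext.none)

def k0_pp_213_b : ∃ t, chk3 f_pp_213_b t 1 1 1 = true :=
  ⟨(l 3), by decide +kernel⟩

theorem c_pp_213_b : CertF 1239849684 370763052 1610612736 536870912 201326592 134217728 false true true .pnn 2 1 3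
    ndF1q2b ndF2q3 pcF1 cut_pp_213_b Ext.none :=
  certF0 (fam := false) (s1 := true) (s2 := true) (a := 2) (b := 1) (c := 3) (cn := .pnn) (n1 := ndF1q2b) (n2 := ndF2q3) (pc := pcF1) (cut := cut_pp_213_b) (xt := Ext.none) (P1 := 1239849684) (W1 := 370763052) (P2 := 1610612736) (W2 := 536870912) (P3 := 201326592) (W3 := 134217728)
    rfl k0_pp_213_b

noncomputable def f_pp_303 : ℕ → ℕ → ℕ → ℕ → Bool := onCell 1610612736 536870912 1610612736 536870912 201326592 134217728
    (rowF 0 false true true .npn 3 0 3 (qsf 1610612736 536870912 1610612736 536870912 0) ndF1q3 ndF2q3 pcF0 Cut.none Ext.none)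

def k0_pp_303 : ∃ t, chk3 f_pp_303 t 1 1 1 = true :=
  ⟨(l 3), by decide +kernel⟩

theorem c_pp_303 : CertF 1610612736 536870912 1610612736 536870912 201326592 134217728 false true true .npn 3 0 3
    ndF1q3 ndF2q3 pcF0 Cut.none Ext.none :=
  certF0 (fam := false) (s1 := true) (s2 := true) (a := 3) (b := 0) (c := 3) (cn := .npn) (n1 := ndF1q3) (n2 := ndF2q3) (pc := pcF0) (cut := Cut.none) (xt := Ext.none) (P1 := 1610612736) (W1 := 536870912) (P2 := 1610612736) (W2 := 536870912) (P3 := 201326592) (W3 := 134217728)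
    rfl k0_pp_303

noncomputable def f_pp_313 : ℕ → ℕ → ℕ → ℕ → Bool := onCell 1610612736 536870912 1610612736 536870912 201326592 134217728
    (rowF 0 false true true .dn 3 1 3 (qsf 1610612736 536870912 1610612736 536870912 1) ndF1q3 ndF2q3 pcF1 Cut.none Ext.none)

def k0_pp_313 : ∃ t, chk3 f_pp_313 t 1 1 1 = true :=
  ⟨(l 3), by decide +kernel⟩

theorem c_pp_313 : CertF 1610612736 536870912 1610612736 536870912 201326592 134217728 false true true .dn 3 1 3
    ndF1q3 ndF2q3 pcF1 Cut.none Ext.none :=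
  certF0 (fam := false) (s1 := true) (s2 := true) (a := 3) (b := 1) (c := 3) (cn := .dn) (n1 := ndF1q3) (n2 := ndF2q3) (pc := pcF1) (cut := Cut.none) (xt := Ext.none) (P1 := 1610612736) (W1 := 536870912) (P2 := 1610612736) (W2 := 536870912) (P3 := 201326592) (W3 := 134217728)
    rfl k0_pp_313

noncomputable def f_pm_001 : ℕ → ℕ → ℕ → ℕ → Bool := onCell 0 536870912 536870912 536870912 201326592 134217728
    (rowF 0 false true false .up 0 0 1 (qsf 0 536870912 536870912 536870912 0) ndF1q0 ndF2q1 pcF0 Cut.none Ext.none)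

def k0_pm_001 : ∃ t, chk3 f_pm_001 t 1 1 1 = true :=
  ⟨(l 4), by decide +kernel⟩

theorem c_pm_001 : CertF 0 536870912 536870912 536870912 201326592 134217728 false true false .up 0 0 1
    ndF1q0 ndF2q1 pcF0 Cut.none Ext.none :=
  certF0 (fam := false) (s1 := true) (s2 := false) (a := 0) (b := 0) (c := 1) (cn := .up) (n1 := ndF1q0) (n2 := ndF2q1) (pc := pcF0) (cut := Cut.none) (xt := Ext.none) (P1 := 0) (W1 := 536870912) (P2 := 536870912) (W2 := 536870912) (P3 := 201326592) (W3 := 134217728)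
    rfl k0_pm_001

noncomputable def f_pm_011 : ℕ → ℕ → ℕ → ℕ → Bool := onCell 0 536870912 536870912 536870912 201326592 134217728
    (rowF 0 false true false .pnn 0 1 1 (qsf 0 536870912 536870912 536870912 1) ndF1q0 ndF2q1 pcF1 Cut.none Ext.none)

def k0_pm_011 : ∃ t, chk3 f_pm_011 t 1 1 1 = true :=
  ⟨(l 4), by decide +kernel⟩

theorem c_pm_011 : CertF 0 536870912 536870912 536870912 201326592 134217728 false true false .pnn 0 1 1
    ndF1q0 ndF2q1 pcF1 Cut.none Ext.none :=
  certF0 (fam := false) (s1 := true) (s2 := false) (a := 0) (b := 1) (c := 1) (cn := .pnn) (n1 := ndF1q0) (n2 := ndF2q1) (pc := pcF1) (cut := Cut.none) (xt := Ext.none) (P1 := 0) (W1 := 536870912) (P2 := 536870912) (W2 := 536870912) (P3 := 201326592) (W3 := 134217728)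
    rfl k0_pm_011

noncomputable def cut_pm_012_a : Cut := Cut.of [[⟨0, 0, 0, 67108864⟩, ⟨1, 1, 0, 67108864⟩, ⟨2, 1, 0, 67108864⟩]]

noncomputable def f_pm_012_a : ℕ → ℕ → ℕ → ℕ → Bool := onCell 536870912 536870912 0 536870912 201326592 134217728
    (rowF 2 false true false .pnp 0 1 2 (qsf 0 536870912 0 536870912 1) ndF1q0 ndF2q2a pcF1 cut_pm_012_a Ext.none)

def k0_pm_012_a : ∃ t, chk3 f_pm_012_a t 1 1 1 = true :=
  ⟨(a (a (b (l 17516736) (b (l 17445920) (a (l 17348888) (l 17273288)))) (b (l 17500592) (b (a (l 17346616) (l 17192672)) (a (l 242901694903) (l 4))))) (b (a (a (l 17193672) (l 343295485719)) (l 4)) (a (b (l 4) (l 4)) (a (l 4) (b (l 4) (b (l 4) (b (l 4) (a (l 4) (l 6))))))))), by decide +kernel⟩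

theorem c_pm_012_a : CertF 0 536870912 0 536870912 201326592 134217728 false true false .pnp 0 1 2
    ndF1q0 ndF2q2a pcF1 cut_pm_012_a Ext.none :=
  certF2 (fam := false) (s1 := true) (s2 := false) (a := 0) (b := 1) (c := 2) (cn := .pnp) (n1 := ndF1q0) (n2 := ndF2q2a) (pc := pcF1) (cut := cut_pm_012_a) (xt := Ext.none) (P1 := 0) (W1 := 536870912) (P2 := 0) (W2 := 536870912) (P3 := 201326592) (W3 := 134217728)
    rfl (fun _ => rfl) k0_pm_012_a

noncomputable def cut_pm_012_b : Cut := Cut.of [[⟨0, 0, 0, 67108864⟩, ⟨1, 1, 0, 67108864⟩, ⟨2, 1, 0, 67108864⟩]]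

noncomputable def f_pm_012_b : ℕ → ℕ → ℕ → ℕ → Bool := onCell 0 536870912 1239849684 370763052 201326592 134217728
    (rowF 0 false true false .pnp 0 1 2 (qsf 0 536870912 1239849684 370763052 1) ndF1q0 ndF2q2b pcF1 cut_pm_012_b Ext.none)

def k0_pm_012_b : ∃ t, chk3 f_pm_012_b t 1 1 1 = true :=
  ⟨(a (b (a (l 2) (l 4)) (l 2)) (a (b (b (a (l 4) (c (l 17598688) (l 16856472))) (l 4)) (l 4)) (a (b (b (l 17462024) (l 17677184)) (l 4)) (b (b (l 17570192) (l 17772728)) (b (l 17997560) (l 18213872)))))), by decide +kernel⟩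

theorem c_pm_012_b : CertF 0 536870912 1239849684 370763052 201326592 134217728 false true false .pnp 0 1 2
    ndF1q0 ndF2q2b pcF1 cut_pm_012_b Ext.none :=
  certF0 (fam := false) (s1 := true) (s2 := false) (a := 0) (b := 1) (c := 2) (cn := .pnp) (n1 := ndF1q0) (n2 := ndF2q2b) (pc := pcF1) (cut := cut_pm_012_b) (xt := Ext.none) (P1 := 0) (W1 := 536870912) (P2 := 1239849684) (W2 := 370763052) (P3 := 201326592) (W3 := 134217728)
    rfl k0_pm_012_b

noncomputable def cut_pm_022_a : Cut := Cut.of [[⟨0, 0, 0, 67108864⟩, ⟨1, 1, 0, 67108864⟩, ⟨2, 1, 0, 67108864⟩]]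

noncomputable def f_pm_022_a : ℕ → ℕ → ℕ → ℕ → Bool := onCell 0 536870912 0 536870912 201326592 134217728
    (rowF 0 false true false .pp 0 2 2 (qsf 0 536870912 0 536870912 2) ndF1q0 ndF2q2a pcF2 cut_pm_022_a Ext.none)

def k0_pm_022_a : ∃ t, chk3 f_pm_022_a t 1 1 1 = true :=
  ⟨(a (b (l 4) (a (b (l 4) (a (a (b (l 4) (l 6)) (l 4)) (l 4))) (l 4))) (l 1)), by decide +kernel⟩

theorem c_pm_022_a : CertF 0 536870912 0 536870912 201326592 134217728 false true false .pp 0 2 2
    ndF1q0 ndF2q2a pcF2 cut_pm_022_a Ext.none :=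
  certF0 (fam := false) (s1 := true) (s2 := false) (a := 0) (b := 2) (c := 2) (cn := .pp) (n1 := ndF1q0) (n2 := ndF2q2a) (pc := pcF2) (cut := cut_pm_022_a) (xt := Ext.none) (P1 := 0) (W1 := 536870912) (P2 := 0) (W2 := 536870912) (P3 := 201326592) (W3 := 134217728)
    rfl k0_pm_022_a

noncomputable def cut_pm_022_b : Cut := Cut.of [[⟨0, 0, 0, 67108864⟩, ⟨1, 1, 0, 67108864⟩, ⟨2, 1, 0, 67108864⟩]]

noncomputable def f_pm_022_b : ℕ → ℕ → ℕ → ℕ → Bool := onCell 0 536870912 1239849684 370763052 201326592 134217728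
    (rowF 0 false true false .pp 0 2 2 (qsf 0 536870912 1239849684 370763052 2) ndF1q0 ndF2q2b pcF2 cut_pm_022_b Ext.none)

def k0_pm_022_b : ∃ t, chk3 f_pm_022_b t 1 1 1 = true :=
  ⟨(a (b (a (l 4) (l 4)) (l 4)) (b (a (b (l 1) (l 4)) (l 1)) (a (l 4) (a (l 4) (b (l 1) (l 18248712)))))), by decide +kernel⟩

theorem c_pm_022_b : CertF 0 536870912 1239849684 370763052 201326592 134217728 false true false .pp 0 2 2
    ndF1q0 ndF2q2b pcF2 cut_pm_022_b Ext.none :=
  certF0 (fam := false) (s1 := true) (s2 := false) (a := 0) (b := 2) (c := 2) (cn := .pp) (n1 := ndF1q0) (n2 := ndF2q2b) (pc := pcF2) (cut := cut_pm_022_b) (xt := Ext.none) (P1 := 0) (W1 := 536870912) (P2 := 1239849684) (W2 := 370763052) (P3 := 201326592) (W3 := 134217728)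
    rfl k0_pm_022_b

noncomputable def f_pm_023 : ℕ → ℕ → ℕ → ℕ → Bool := onCell 0 536870912 1610612736 536870912 201326592 134217728
    (rowF 0 false true false .up 0 2 3 (qsf 0 536870912 1610612736 536870912 2) ndF1q0 ndF2q3 pcF2 Cut.none Ext.none)

def k0_pm_023 : ∃ t, chk3 f_pm_023 t 1 1 1 = true :=
  ⟨(a (l 4) (b (b (a (l 4) (l 4)) (l 4)) (b (l 4) (a (l 4) (l 4))))), by decide +kernel⟩

theorem c_pm_023 : CertF 0 536870912 1610612736 536870912 201326592 134217728 false true false .up 0 2 3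
    ndF1q0 ndF2q3 pcF2 Cut.none Ext.none :=
  certF0 (fam := false) (s1 := true) (s2 := false) (a := 0) (b := 2) (c := 3) (cn := .up) (n1 := ndF1q0) (n2 := ndF2q3) (pc := pcF2) (cut := Cut.none) (xt := Ext.none) (P1 := 0) (W1 := 536870912) (P2 := 1610612736) (W2 := 536870912) (P3 := 201326592) (W3 := 134217728)
    rfl k0_pm_023

noncomputable def f_pm_033 : ℕ → ℕ → ℕ → ℕ → Bool := onCell 0 536870912 1610612736 536870912 201326592 134217728
    (rowF 0 false true false .pnn 0 3 3 (qsf 0 536870912 1610612736 536870912 3) ndF1q0 ndF2q3 pcF3 Cut.none Ext.none)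

def k0_pm_033 : ∃ t, chk3 f_pm_033 t 1 1 1 = true :=
  ⟨(a (l 4) (b (a (l 4) (l 1)) (b (l 4) (a (l 4) (l 4))))), by decide +kernel⟩

theorem c_pm_033 : CertF 0 536870912 1610612736 536870912 201326592 134217728 false true false .pnn 0 3 3
    ndF1q0 ndF2q3 pcF3 Cut.none Ext.none :=
  certF0 (fam := false) (s1 := true) (s2 := false) (a := 0) (b := 3) (c := 3) (cn := .pnn) (n1 := ndF1q0) (n2 := ndF2q3) (pc := pcF3) (cut := Cut.none) (xt := Ext.none) (P1 := 0) (W1 := 536870912) (P2 := 1610612736) (W2 := 536870912) (P3 := 201326592) (W3 := 134217728)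
    rfl k0_pm_033

noncomputable def f_pm_101 : ℕ → ℕ → ℕ → ℕ → Bool := onCell 536870912 536870912 536870912 536870912 201326592 134217728
    (rowF 0 false true false .npn 1 0 1 (qsf 536870912 536870912 536870912 536870912 0) ndF1q1 ndF2q1 pcF0 Cut.none Ext.none)

def k0_pm_101 : ∃ t, chk3 f_pm_101 t 1 1 1 = true :=
  ⟨(l 4), by decide +kernel⟩

theorem c_pm_101 : CertF 536870912 536870912 536870912 536870912 201326592 134217728 false true false .npn 1 0 1
    ndF1q1 ndF2q1 pcF0 Cut.none Ext.none :=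
  certF0 (fam := false) (s1 := true) (s2 := false) (a := 1) (b := 0) (c := 1) (cn := .npn) (n1 := ndF1q1) (n2 := ndF2q1) (pc := pcF0) (cut := Cut.none) (xt := Ext.none) (P1 := 536870912) (W1 := 536870912) (P2 := 536870912) (W2 := 536870912) (P3 := 201326592) (W3 := 134217728)
    rfl k0_pm_101

noncomputable def f_pm_102_a : ℕ → ℕ → ℕ → ℕ → Bool := onCell 0 536870912 0 536870912 201326592 134217728
    (rowF 2 false true false .npp 1 0 2 (qsf 536870912 536870912 0 536870912 0) ndF1q1 ndF2q2a pcF0 Cut.none Ext.none)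

def k0_pm_102_a : ∃ t, chk3 f_pm_102_a t 1 1 1 = true :=
  ⟨(a (a (b (a (l 2) (b (l 2) (l 17391728))) (a (b (l 2) (b (l 17524360) (l 17589080))) (b (l 17596656) (l 17556752)))) (b (a (b (l 17422992) (l 17517840)) (l 17416496)) (b (a (l 17484768) (l 17454688)) (c (l 17623120) (l 17431688))))) (a (b (a (l 17367360) (l 17343112)) (b (l 17569864) (a (l 17510128) (l 17495408)))) (b (a (l 17500000) (l 17347888)) (b (a (l 17445016) (l 17447640)) (a (l 17474032) (l 17561792)))))), by decide +kernel⟩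

theorem c_pm_102_a : CertF 536870912 536870912 0 536870912 201326592 134217728 false true false .npp 1 0 2
    ndF1q1 ndF2q2a pcF0 Cut.none Ext.none :=
  certF2 (fam := false) (s1 := true) (s2 := false) (a := 1) (b := 0) (c := 2) (cn := .npp) (n1 := ndF1q1) (n2 := ndF2q2a) (pc := pcF0) (cut := Cut.none) (xt := Ext.none) (P1 := 536870912) (W1 := 536870912) (P2 := 0) (W2 := 536870912) (P3 := 201326592) (W3 := 134217728)
    rfl (fun _ => rfl) k0_pm_102_a

noncomputable def f_pm_102_b : ℕ → ℕ → ℕ → ℕ → Bool := onCell 536870912 536870912 1239849684 370763052 201326592 134217728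
    (rowF 0 false true false .npp 1 0 2 (qsf 536870912 536870912 1239849684 370763052 0) ndF1q1 ndF2q2b pcF0 Cut.none Ext.none)

def k0_pm_102_b : ∃ t, chk3 f_pm_102_b t 1 1 1 = true :=
  ⟨(a (b (a (l 2) (b (a (l 17214216) (l 17228280)) (a (l 2) (l 17110184)))) (l 2)) (b (a (b (a (l 17243184) (l 17267152)) (a (l 17141904) (l 17231272))) (b (a (l 17379528) (l 17398296)) (a (l 17221936) (l 17196488)))) (b (a (a (l 2) (l 17100360)) (a (l 17174536) (l 17219480))) (a (l 2) (b (l 17272320) (l 17318984)))))), by decide +kernel⟩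

theorem c_pm_102_b : CertF 536870912 536870912 1239849684 370763052 201326592 134217728 false true false .npp 1 0 2
    ndF1q1 ndF2q2b pcF0 Cut.none Ext.none :=
  certF0 (fam := false) (s1 := true) (s2 := false) (a := 1) (b := 0) (c := 2) (cn := .npp) (n1 := ndF1q1) (n2 := ndF2q2b) (pc := pcF0) (cut := Cut.none) (xt := Ext.none) (P1 := 536870912) (W1 := 536870912) (P2 := 1239849684) (W2 := 370763052) (P3 := 201326592) (W3 := 134217728)
    rfl k0_pm_102_b

noncomputable def f_pm_112_a : ℕ → ℕ → ℕ → ℕ → Bool := onCell 536870912 536870912 0 536870912 201326592 134217728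
    (rowF 2 false true false .dn 1 1 2 (qsf 536870912 536870912 0 536870912 1) ndF1q1 ndF2q2a pcF1 Cut.none Ext.none)

def k0_pm_112_a : ∃ t, chk3 f_pm_112_a t 1 1 1 = true :=
  ⟨(a (b (a (l 17728728) (l 237868910695)) (a (b (l 17611168) (l 220152086631)) (b (l 1) (l 1)))) (l 1)), by decide +kernel⟩

theorem c_pm_112_a : CertF 536870912 536870912 0 536870912 201326592 134217728 false true false .dn 1 1 2
    ndF1q1 ndF2q2a pcF1 Cut.none Ext.none :=
  certF2 (fam := false) (s1 := true) (s2 := false) (a := 1) (b := 1) (c := 2) (cn := .dn) (n1 := ndF1q1) (n2 := ndF2q2a) (pc := pcF1) (cut := Cut.none) (xt := Ext.none) (P1 := 536870912) (W1 := 536870912) (P2 := 0) (W2 := 536870912) (P3 := 201326592) (W3 := 134217728)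
    rfl (fun _ => rfl) k0_pm_112_a

noncomputable def f_pm_112_b : ℕ → ℕ → ℕ → ℕ → Bool := onCell 536870912 536870912 1239849684 370763052 201326592 134217728
    (rowF 2 false true false .dn 1 1 2 (qsf 536870912 536870912 1239849684 370763052 1) ndF1q1 ndF2q2b pcF1 Cut.none Ext.none)

def k0_pm_112_b : ∃ t, chk3 f_pm_112_b t 1 1 1 = true :=
  ⟨(b (a (a (a (l 17802688) (b (l 17816144) (l 17848792))) (b (l 17818224) (a (l 17908208) (l 17959120)))) (a (b (l 1) (l 417722088263)) (l 1))) (a (a (a (l 17633928) (l 17686280)) (a (b (l 17838232) (l 17728152)) (b (l 17970624) (l 17855728)))) (a (a (b (l 18050552) (l 17982096)) (b (l 18119888) (l 18103552))) (a (a (l 18177808) (l 18223736)) (l 429533736487))))), by decide +kernel⟩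

theorem c_pm_112_b : CertF 536870912 536870912 1239849684 370763052 201326592 134217728 false true false .dn 1 1 2
    ndF1q1 ndF2q2b pcF1 Cut.none Ext.none :=
  certF2 (fam := false) (s1 := true) (s2 := false) (a := 1) (b := 1) (c := 2) (cn := .dn) (n1 := ndF1q1) (n2 := ndF2q2b) (pc := pcF1) (cut := Cut.none) (xt := Ext.none) (P1 := 536870912) (W1 := 536870912) (P2 := 1239849684) (W2 := 370763052) (P3 := 201326592) (W3 := 134217728)
    rfl (fun _ => rfl) k0_pm_112_b

noncomputable def f_pm_113 : ℕ → ℕ → ℕ → ℕ → Bool := onCell 536870912 536870912 536870912 536870912 201326592 134217728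
    (rowF 1 false true false .nn 1 1 3 (qsf 536870912 536870912 1610612736 536870912 1) ndF1q1 ndF2q3 pcF1 Cut.none Ext.none)

def k0_pm_113 : ∃ t, chk3 f_pm_113 t 1 1 1 = true :=
  ⟨(a (b (b (l 1) (b (l 1) (l 391952027943))) (b (b (l 386583256599) (a (l 393026212535) (l 17997664))) (b (b (a (l 18168432) (l 18013688)) (l 351687144343)) (a (l 18264152) (l 18064672))))) (b (b (b (a (l 1) (l 17524976)) (a (l 17643440) (l 17487032))) (b (a (l 17681128) (l 17464960)) (a (l 17705656) (l 17438040)))) (a (b (b (l 17716488) (l 17734544)) (b (l 17733208) (l 17708840))) (b (l 17357520) (l 17208088))))), by decide +kernel⟩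

theorem c_pm_113 : CertF 536870912 536870912 1610612736 536870912 201326592 134217728 false true false .nn 1 1 3
    ndF1q1 ndF2q3 pcF1 Cut.none Ext.none :=
  certF1 (fam := false) (s1 := true) (s2 := false) (a := 1) (b := 1) (c := 3) (cn := .nn) (n1 := ndF1q1) (n2 := ndF2q3) (pc := pcF1) (cut := Cut.none) (xt := Ext.none) (P1 := 536870912) (W1 := 536870912) (P2 := 1610612736) (W2 := 536870912) (P3 := 201326592) (W3 := 134217728)
    rfl (fun _ => rfl) k0_pm_113

noncomputable def f_pm_123 : ℕ → ℕ → ℕ → ℕ → Bool := onCell 1073741824 536870912 1610612736 536870912 201326592 134217728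
    (rowF 2 false true false .npn 1 2 3 (qsf 536870912 536870912 1610612736 536870912 2) ndF1q1 ndF2q3 pcF2 Cut.none Ext.none)

def k0_pm_123 : ∃ t, chk3 f_pm_123 t 1 1 1 = true :=
  ⟨(b (a (a (b (l 18158552) (l 18033992)) (b (l 4) (l 17823184))) (l 4)) (a (a (a (b (l 17774416) (l 17327960)) (a (l 17633152) (l 17552632))) (b (l 17677992) (l 17380288))) (a (l 17566640) (l 17232240)))), by decide +kernel⟩

theorem c_pm_123 : CertF 536870912 536870912 1610612736 536870912 201326592 134217728 false true false .npn 1 2 3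
    ndF1q1 ndF2q3 pcF2 Cut.none Ext.none :=
  certF2 (fam := false) (s1 := true) (s2 := false) (a := 1) (b := 2) (c := 3) (cn := .npn) (n1 := ndF1q1) (n2 := ndF2q3) (pc := pcF2) (cut := Cut.none) (xt := Ext.none) (P1 := 536870912) (W1 := 536870912) (P2 := 1610612736) (W2 := 536870912) (P3 := 201326592) (W3 := 134217728)
    rfl (fun _ => rfl) k0_pm_123

noncomputable def f_pm_133 : ℕ → ℕ → ℕ → ℕ → Bool := onCell 1610612736 536870912 1610612736 536870912 201326592 134217728
    (rowF 2 false true false .dn 1 3 3 (qsf 536870912 536870912 1610612736 536870912 3) ndF1q1 ndF2q3 pcF3 Cut.none Ext.none)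

def k0_pm_133 : ∃ t, chk3 f_pm_133 t 1 1 1 = true :=
  ⟨(a (b (l 1) (a (b (l 1) (l 4)) (l 1))) (l 1)), by decide +kernel⟩

theorem c_pm_133 : CertF 536870912 536870912 1610612736 536870912 201326592 134217728 false true false .dn 1 3 3
    ndF1q1 ndF2q3 pcF3 Cut.none Ext.none :=
  certF2 (fam := false) (s1 := true) (s2 := false) (a := 1) (b := 3) (c := 3) (cn := .dn) (n1 := ndF1q1) (n2 := ndF2q3) (pc := pcF3) (cut := Cut.none) (xt := Ext.none) (P1 := 536870912) (W1 := 536870912) (P2 := 1610612736) (W2 := 536870912) (P3 := 201326592) (W3 := 134217728)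
    rfl (fun _ => rfl) k0_pm_133

noncomputable def cut_pm_202_aa : Cut := Cut.of [[⟨0, 1, 0, 67108864⟩, ⟨1, 0, 0, 67108864⟩, ⟨2, 1, 0, 67108864⟩]]

noncomputable def f_pm_202_aa : ℕ → ℕ → ℕ → ℕ → Bool := onCell 0 536870912 0 536870912 201326592 134217728
    (rowF 0 false true false .pp 2 0 2 (qsf 0 536870912 0 536870912 0) ndF1q2a ndF2q2a pcF0 cut_pm_202_aa Ext.none)

def k0_pm_202_aa : ∃ t, chk3 f_pm_202_aa t 1 1 1 = true :=
  ⟨(a (l 3) (b (l 3) (b (l 3) (a (l 3) (b (l 3) (a (l 3) (l 6))))))), by decide +kernel⟩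

theorem c_pm_202_aa : CertF 0 536870912 0 536870912 201326592 134217728 false true false .pp 2 0 2
    ndF1q2a ndF2q2a pcF0 cut_pm_202_aa Ext.none :=
  certF0 (fam := false) (s1 := true) (s2 := false) (a := 2) (b := 0) (c := 2) (cn := .pp) (n1 := ndF1q2a) (n2 := ndF2q2a) (pc := pcF0) (cut := cut_pm_202_aa) (xt := Ext.none) (P1 := 0) (W1 := 536870912) (P2 := 0) (W2 := 536870912) (P3 := 201326592) (W3 := 134217728)
    rfl k0_pm_202_aa

noncomputable def cut_pm_202_ab : Cut := Cut.of [[⟨0, 1, 0, 67108864⟩, ⟨1, 0, 0, 67108864⟩, ⟨2, 1, 0, 67108864⟩]]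

noncomputable def f_pm_202_ab : ℕ → ℕ → ℕ → ℕ → Bool := onCell 0 536870912 1239849684 370763052 201326592 134217728
    (rowF 0 false true false .pp 2 0 2 (qsf 0 536870912 1239849684 370763052 0) ndF1q2a ndF2q2b pcF0 cut_pm_202_ab Ext.none)

def k0_pm_202_ab : ∃ t, chk3 f_pm_202_ab t 1 1 1 = true :=
  ⟨(b (l 3) (l 3)), by decide +kernel⟩

theorem c_pm_202_ab : CertF 0 536870912 1239849684 370763052 201326592 134217728 false true false .pp 2 0 2
    ndF1q2a ndF2q2b pcF0 cut_pm_202_ab Ext.none :=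
  certF0 (fam := false) (s1 := true) (s2 := false) (a := 2) (b := 0) (c := 2) (cn := .pp) (n1 := ndF1q2a) (n2 := ndF2q2b) (pc := pcF0) (cut := cut_pm_202_ab) (xt := Ext.none) (P1 := 0) (W1 := 536870912) (P2 := 1239849684) (W2 := 370763052) (P3 := 201326592) (W3 := 134217728)
    rfl k0_pm_202_ab

noncomputable def cut_pm_202_ba : Cut := Cut.of [[⟨0, 1, 0, 67108864⟩, ⟨1, 0, 0, 67108864⟩, ⟨2, 1, 0, 67108864⟩]]

noncomputable def f_pm_202_ba : ℕ → ℕ → ℕ → ℕ → Bool := onCell 1239849684 370763052 0 536870912 201326592 134217728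
    (rowF 0 false true false .pp 2 0 2 (qsf 1239849684 370763052 0 536870912 0) ndF1q2b ndF2q2a pcF0 cut_pm_202_ba Ext.none)

def k0_pm_202_ba : ∃ t, chk3 f_pm_202_ba t 1 1 1 = true :=
  ⟨(l 3), by decide +kernel⟩

theorem c_pm_202_ba : CertF 1239849684 370763052 0 536870912 201326592 134217728 false true false .pp 2 0 2
    ndF1q2b ndF2q2a pcF0 cut_pm_202_ba Ext.none :=
  certF0 (fam := false) (s1 := true) (s2 := false) (a := 2) (b := 0) (c := 2) (cn := .pp) (n1 := ndF1q2b) (n2 := ndF2q2a) (pc := pcF0) (cut := cut_pm_202_ba) (xt := Ext.none) (P1 := 1239849684) (W1 := 370763052) (P2 := 0) (W2 := 536870912) (P3 := 201326592) (W3 := 134217728)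
    rfl k0_pm_202_ba

noncomputable def cut_pm_202_bb : Cut := Cut.of [[⟨0, 1, 0, 67108864⟩, ⟨1, 0, 0, 67108864⟩, ⟨2, 1, 0, 67108864⟩]]

noncomputable def f_pm_202_bb : ℕ → ℕ → ℕ → ℕ → Bool := onCell 1239849684 370763052 1239849684 370763052 201326592 134217728
    (rowF 0 false true false .pp 2 0 2 (qsf 1239849684 370763052 1239849684 370763052 0) ndF1q2b ndF2q2b pcF0 cut_pm_202_bb Ext.none)

def k0_pm_202_bb : ∃ t, chk3 f_pm_202_bb t 1 1 1 = true :=
  ⟨(l 3), by decide +kernel⟩

theorem c_pm_202_bb : CertF 1239849684 370763052 1239849684 370763052 201326592 134217728 false true false .pp 2 0 2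
    ndF1q2b ndF2q2b pcF0 cut_pm_202_bb Ext.none :=
  certF0 (fam := false) (s1 := true) (s2 := false) (a := 2) (b := 0) (c := 2) (cn := .pp) (n1 := ndF1q2b) (n2 := ndF2q2b) (pc := pcF0) (cut := cut_pm_202_bb) (xt := Ext.none) (P1 := 1239849684) (W1 := 370763052) (P2 := 1239849684) (W2 := 370763052) (P3 := 201326592) (W3 := 134217728)
    rfl k0_pm_202_bb

noncomputable def f_pm_203_a : ℕ → ℕ → ℕ → ℕ → Bool := onCell 0 536870912 0 536870912 201326592 134217728
    (rowF 1 false true false .up 2 0 3 (qsf 0 536870912 1610612736 536870912 0) ndF1q2a ndF2q3 pcF0 Cut.none Ext.none)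

def k0_pm_203_a : ∃ t, chk3 f_pm_203_a t 1 1 1 = true :=
  ⟨(b (l 1) (l 3)), by decide +kernel⟩

theorem c_pm_203_a : CertF 0 536870912 1610612736 536870912 201326592 134217728 false true false .up 2 0 3
    ndF1q2a ndF2q3 pcF0 Cut.none Ext.none :=
  certF1 (fam := false) (s1 := true) (s2 := false) (a := 2) (b := 0) (c := 3) (cn := .up) (n1 := ndF1q2a) (n2 := ndF2q3) (pc := pcF0) (cut := Cut.none) (xt := Ext.none) (P1 := 0) (W1 := 536870912) (P2 := 1610612736) (W2 := 536870912) (P3 := 201326592) (W3 := 134217728)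
    rfl (fun _ => rfl) k0_pm_203_a

noncomputable def f_pm_203_b : ℕ → ℕ → ℕ → ℕ → Bool := onCell 1239849684 370763052 1610612736 536870912 201326592 134217728
    (rowF 0 false true false .up 2 0 3 (qsf 1239849684 370763052 1610612736 536870912 0) ndF1q2b ndF2q3 pcF0 Cut.none Ext.none)

def k0_pm_203_b : ∃ t, chk3 f_pm_203_b t 1 1 1 = true :=
  ⟨(l 3), by decide +kernel⟩

theorem c_pm_203_b : CertF 1239849684 370763052 1610612736 536870912 201326592 134217728 false true false .up 2 0 3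
    ndF1q2b ndF2q3 pcF0 Cut.none Ext.none :=
  certF0 (fam := false) (s1 := true) (s2 := false) (a := 2) (b := 0) (c := 3) (cn := .up) (n1 := ndF1q2b) (n2 := ndF2q3) (pc := pcF0) (cut := Cut.none) (xt := Ext.none) (P1 := 1239849684) (W1 := 370763052) (P2 := 1610612736) (W2 := 536870912) (P3 := 201326592) (W3 := 134217728)
    rfl k0_pm_203_b

noncomputable def cut_pm_213_a : Cut := Cut.of [[⟨0, 1, 0, 57167902⟩, ⟨1, 1, 0, 57167902⟩, ⟨2, 2, 0, 11758673⟩]]

noncomputable def f_pm_213_a : ℕ → ℕ → ℕ → ℕ → Bool := onCell 0 536870912 1610612736 536870912 201326592 134217728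
    (rowF 0 false true false .pnn 2 1 3 (qsf 0 536870912 1610612736 536870912 1) ndF1q2a ndF2q3 pcF1 cut_pm_213_a Ext.none)

def k0_pm_213_a : ∃ t, chk3 f_pm_213_a t 1 1 1 = true :=
  ⟨(a (l 3) (a (l 3) (b (l 3) (b (l 3) (b (l 3) (a (l 3) (a (l 3) (b (l 3) (b (l 3) (b (l 3) (l 6))))))))))), by decide +kernel⟩

theorem c_pm_213_a : CertF 0 536870912 1610612736 536870912 201326592 134217728 false true false .pnn 2 1 3
    ndF1q2a ndF2q3 pcF1 cut_pm_213_a Ext.none :=
  certF0 (fam := false) (s1 := true) (s2 := false) (a := 2) (b := 1) (c := 3) (cn := .pnn) (n1 := ndF1q2a) (n2 := ndF2q3) (pc := pcF1) (cut := cut_pm_213_a) (xt := Ext.none) (P1 := 0) (W1 := 536870912) (P2 := 1610612736) (W2 := 536870912) (P3 := 201326592) (W3 := 134217728)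
    rfl k0_pm_213_a

noncomputable def cut_pm_213_b : Cut := Cut.of [[⟨0, 1, 0, 57167902⟩, ⟨1, 1, 0, 57167902⟩, ⟨2, 2, 0, 11758673⟩]]

noncomputable def f_pm_213_b : ℕ → ℕ → ℕ → ℕ → Bool := onCell 1239849684 370763052 1610612736 536870912 201326592 134217728
    (rowF 0 false true false .pnn 2 1 3 (qsf 1239849684 370763052 1610612736 536870912 1) ndF1q2b ndF2q3 pcF1 cut_pm_213_b Ext.none)

def k0_pm_213_b : ∃ t, chk3 f_pm_213_b t 1 1 1 = true :=
  ⟨(l 3), by decide +kernel⟩

theorem c_pm_213_b : CertF 1239849684 370763052 1610612736 536870912 201326592 134217728 false true false .pnn 2 1 3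
    ndF1q2b ndF2q3 pcF1 cut_pm_213_b Ext.none :=
  certF0 (fam := false) (s1 := true) (s2 := false) (a := 2) (b := 1) (c := 3) (cn := .pnn) (n1 := ndF1q2b) (n2 := ndF2q3) (pc := pcF1) (cut := cut_pm_213_b) (xt := Ext.none) (P1 := 1239849684) (W1 := 370763052) (P2 := 1610612736) (W2 := 536870912) (P3 := 201326592) (W3 := 134217728)
    rfl k0_pm_213_b

noncomputable def f_pm_303 : ℕ → ℕ → ℕ → ℕ → Bool := onCell 1610612736 536870912 1610612736 536870912 201326592 134217728
    (rowF 0 false true false .npn 3 0 3 (qsf 1610612736 536870912 1610612736 536870912 0) ndF1q3 ndF2q3 pcF0 Cut.none Ext.none)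

def k0_pm_303 : ∃ t, chk3 f_pm_303 t 1 1 1 = true :=
  ⟨(l 3), by decide +kernel⟩

theorem c_pm_303 : CertF 1610612736 536870912 1610612736 536870912 201326592 134217728 false true false .npn 3 0 3
    ndF1q3 ndF2q3 pcF0 Cut.none Ext.none :=
  certF0 (fam := false) (s1 := true) (s2 := false) (a := 3) (b := 0) (c := 3) (cn := .npn) (n1 := ndF1q3) (n2 := ndF2q3) (pc := pcF0) (cut := Cut.none) (xt := Ext.none) (P1 := 1610612736) (W1 := 536870912) (P2 := 1610612736) (W2 := 536870912) (P3 := 201326592) (W3 := 134217728)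
    rfl k0_pm_303

noncomputable def f_pm_313 : ℕ → ℕ → ℕ → ℕ → Bool := onCell 1610612736 536870912 1610612736 536870912 201326592 134217728
    (rowF 0 false true false .dn 3 1 3 (qsf 1610612736 536870912 1610612736 536870912 1) ndF1q3 ndF2q3 pcF1 Cut.none Ext.none)

def k0_pm_313 : ∃ t, chk3 f_pm_313 t 1 1 1 = true :=
  ⟨(l 3), by decide +kernel⟩

theorem c_pm_313 : CertF 1610612736 536870912 1610612736 536870912 201326592 134217728 false true false .dn 3 1 3
    ndF1q3 ndF2q3 pcF1 Cut.none Ext.none :=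
  certF0 (fam := false) (s1 := true) (s2 := false) (a := 3) (b := 1) (c := 3) (cn := .dn) (n1 := ndF1q3) (n2 := ndF2q3) (pc := pcF1) (cut := Cut.none) (xt := Ext.none) (P1 := 1610612736) (W1 := 536870912) (P2 := 1610612736) (W2 := 536870912) (P3 := 201326592) (W3 := 134217728)
    rfl k0_pm_313

noncomputable def f_mm_001 : ℕ → ℕ → ℕ → ℕ → Bool := onCell 0 536870912 0 536870912 201326592 134217728
    (rowF 1 false false false .up 0 0 1 (qsf 0 536870912 536870912 536870912 0) ndF1q0 ndF2q1 pcF0 Cut.none Ext.none)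

def k0_mm_001 : ∃ t, chk3 f_mm_001 t 1 1 1 = true :=
  ⟨(l 3), by decide +kernel⟩

theorem c_mm_001 : CertF 0 536870912 536870912 536870912 201326592 134217728 false false false .up 0 0 1
    ndF1q0 ndF2q1 pcF0 Cut.none Ext.none :=
  certF1 (fam := false) (s1 := false) (s2 := false) (a := 0) (b := 0) (c := 1) (cn := .up) (n1 := ndF1q0) (n2 := ndF2q1) (pc := pcF0) (cut := Cut.none) (xt := Ext.none) (P1 := 0) (W1 := 536870912) (P2 := 536870912) (W2 := 536870912) (P3 := 201326592) (W3 := 134217728)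
    rfl (fun _ => rfl) k0_mm_001

noncomputable def f_mm_011 : ℕ → ℕ → ℕ → ℕ → Bool := onCell 0 536870912 536870912 536870912 201326592 134217728
    (rowF 1 false false false .pnn 0 1 1 (qsf 0 536870912 536870912 536870912 1) ndF1q0 ndF2q1 pcF1 Cut.none Ext.none)

def k0_mm_011 : ∃ t, chk3 f_mm_011 t 1 1 1 = true :=
  ⟨(l 5), by decide +kernel⟩

theorem c_mm_011 : CertF 0 536870912 536870912 536870912 201326592 134217728 false false false .pnn 0 1 1
    ndF1q0 ndF2q1 pcF1 Cut.none Ext.none :=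
  certF1 (fam := false) (s1 := false) (s2 := false) (a := 0) (b := 1) (c := 1) (cn := .pnn) (n1 := ndF1q0) (n2 := ndF2q1) (pc := pcF1) (cut := Cut.none) (xt := Ext.none) (P1 := 0) (W1 := 536870912) (P2 := 536870912) (W2 := 536870912) (P3 := 201326592) (W3 := 134217728)
    rfl (fun _ => rfl) k0_mm_011

noncomputable def f_mm_012_a : ℕ → ℕ → ℕ → ℕ → Bool := onCell 0 536870912 0 536870912 201326592 134217728
    (rowF 0 false false false .pnp 0 1 2 (qsf 0 536870912 0 536870912 1) ndF1q0 ndF2q2a pcF1 Cut.none Ext.none)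

def k0_mm_012_a : ∃ t, chk3 f_mm_012_a t 1 1 1 = true :=
  ⟨(l 5), by decide +kernel⟩

theorem c_mm_012_a : CertF 0 536870912 0 536870912 201326592 134217728 false false false .pnp 0 1 2
    ndF1q0 ndF2q2a pcF1 Cut.none Ext.none :=
  certF0 (fam := false) (s1 := false) (s2 := false) (a := 0) (b := 1) (c := 2) (cn := .pnp) (n1 := ndF1q0) (n2 := ndF2q2a) (pc := pcF1) (cut := Cut.none) (xt := Ext.none) (P1 := 0) (W1 := 536870912) (P2 := 0) (W2 := 536870912) (P3 := 201326592) (W3 := 134217728)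
    rfl k0_mm_012_a

noncomputable def f_mm_012_b : ℕ → ℕ → ℕ → ℕ → Bool := onCell 0 536870912 1239849684 370763052 201326592 134217728
    (rowF 0 false false false .pnp 0 1 2 (qsf 0 536870912 1239849684 370763052 1) ndF1q0 ndF2q2b pcF1 Cut.none Ext.none)

def k0_mm_012_b : ∃ t, chk3 f_mm_012_b t 1 1 1 = true :=
  ⟨(l 5), by decide +kernel⟩

theorem c_mm_012_b : CertF 0 536870912 1239849684 370763052 201326592 134217728 false false false .pnp 0 1 2
    ndF1q0 ndF2q2b pcF1 Cut.none Ext.none :=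
  certF0 (fam := false) (s1 := false) (s2 := false) (a := 0) (b := 1) (c := 2) (cn := .pnp) (n1 := ndF1q0) (n2 := ndF2q2b) (pc := pcF1) (cut := Cut.none) (xt := Ext.none) (P1 := 0) (W1 := 536870912) (P2 := 1239849684) (W2 := 370763052) (P3 := 201326592) (W3 := 134217728)
    rfl k0_mm_012_b

noncomputable def f_mm_022_a : ℕ → ℕ → ℕ → ℕ → Bool := onCell 0 536870912 0 536870912 201326592 134217728
    (rowF 0 false false false .pp 0 2 2 (qsf 0 536870912 0 536870912 2) ndF1q0 ndF2q2a pcF2 Cut.none Ext.none)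

def k0_mm_022_a : ∃ t, chk3 f_mm_022_a t 1 1 1 = true :=
  ⟨(l 5), by decide +kernel⟩

theorem c_mm_022_a : CertF 0 536870912 0 536870912 201326592 134217728 false false false .pp 0 2 2
    ndF1q0 ndF2q2a pcF2 Cut.none Ext.none :=
  certF0 (fam := false) (s1 := false) (s2 := false) (a := 0) (b := 2) (c := 2) (cn := .pp) (n1 := ndF1q0) (n2 := ndF2q2a) (pc := pcF2) (cut := Cut.none) (xt := Ext.none) (P1 := 0) (W1 := 536870912) (P2 := 0) (W2 := 536870912) (P3 := 201326592) (W3 := 134217728)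
    rfl k0_mm_022_a

noncomputable def f_mm_022_b : ℕ → ℕ → ℕ → ℕ → Bool := onCell 0 536870912 1239849684 370763052 201326592 134217728
    (rowF 0 false false false .pp 0 2 2 (qsf 0 536870912 1239849684 370763052 2) ndF1q0 ndF2q2b pcF2 Cut.none Ext.none)

def k0_mm_022_b : ∃ t, chk3 f_mm_022_b t 1 1 1 = true :=
  ⟨(l 5), by decide +kernel⟩

theorem c_mm_022_b : CertF 0 536870912 1239849684 370763052 201326592 134217728 false false false .pp 0 2 2
    ndF1q0 ndF2q2b pcF2 Cut.none Ext.none :=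
  certF0 (fam := false) (s1 := false) (s2 := false) (a := 0) (b := 2) (c := 2) (cn := .pp) (n1 := ndF1q0) (n2 := ndF2q2b) (pc := pcF2) (cut := Cut.none) (xt := Ext.none) (P1 := 0) (W1 := 536870912) (P2 := 1239849684) (W2 := 370763052) (P3 := 201326592) (W3 := 134217728)
    rfl k0_mm_022_b

noncomputable def f_mm_023 : ℕ → ℕ → ℕ → ℕ → Bool := onCell 0 536870912 1610612736 536870912 201326592 134217728
    (rowF 0 false false false .up 0 2 3 (qsf 0 536870912 1610612736 536870912 2) ndF1q0 ndF2q3 pcF2 Cut.none Ext.none)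

def k0_mm_023 : ∃ t, chk3 f_mm_023 t 1 1 1 = true :=
  ⟨(l 5), by decide +kernel⟩

theorem c_mm_023 : CertF 0 536870912 1610612736 536870912 201326592 134217728 false false false .up 0 2 3
    ndF1q0 ndF2q3 pcF2 Cut.none Ext.none :=
  certF0 (fam := false) (s1 := false) (s2 := false) (a := 0) (b := 2) (c := 3) (cn := .up) (n1 := ndF1q0) (n2 := ndF2q3) (pc := pcF2) (cut := Cut.none) (xt := Ext.none) (P1 := 0) (W1 := 536870912) (P2 := 1610612736) (W2 := 536870912) (P3 := 201326592) (W3 := 134217728)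
    rfl k0_mm_023

noncomputable def f_mm_033 : ℕ → ℕ → ℕ → ℕ → Bool := onCell 0 536870912 1610612736 536870912 201326592 134217728
    (rowF 0 false false false .pnn 0 3 3 (qsf 0 536870912 1610612736 536870912 3) ndF1q0 ndF2q3 pcF3 Cut.none Ext.none)

def k0_mm_033 : ∃ t, chk3 f_mm_033 t 1 1 1 = true :=
  ⟨(l 5), by decide +kernel⟩

theorem c_mm_033 : CertF 0 536870912 1610612736 536870912 201326592 134217728 false false false .pnn 0 3 3
    ndF1q0 ndF2q3 pcF3 Cut.none Ext.none :=
  certF0 (fam := false) (s1 := false) (s2 := false) (a := 0) (b := 3) (c := 3) (cn := .pnn) (n1 := ndF1q0) (n2 := ndF2q3) (pc := pcF3) (cut := Cut.none) (xt := Ext.none) (P1 := 0) (W1 := 536870912) (P2 := 1610612736) (W2 := 536870912) (P3 := 201326592) (W3 := 134217728)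
    rfl k0_mm_033

noncomputable def f_mm_101 : ℕ → ℕ → ℕ → ℕ → Bool := onCell 536870912 536870912 536870912 536870912 201326592 134217728
    (rowF 0 false false false .npn 1 0 1 (qsf 536870912 536870912 536870912 536870912 0) ndF1q1 ndF2q1 pcF0 Cut.none Ext.none)

def k0_mm_101 : ∃ t, chk3 f_mm_101 t 1 1 1 = true :=
  ⟨(l 3), by decide +kernel⟩

theorem c_mm_101 : CertF 536870912 536870912 536870912 536870912 201326592 134217728 false false false .npn 1 0 1
    ndF1q1 ndF2q1 pcF0 Cut.none Ext.none :=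
  certF0 (fam := false) (s1 := false) (s2 := false) (a := 1) (b := 0) (c := 1) (cn := .npn) (n1 := ndF1q1) (n2 := ndF2q1) (pc := pcF0) (cut := Cut.none) (xt := Ext.none) (P1 := 536870912) (W1 := 536870912) (P2 := 536870912) (W2 := 536870912) (P3 := 201326592) (W3 := 134217728)
    rfl k0_mm_101

noncomputable def f_mm_102_a : ℕ → ℕ → ℕ → ℕ → Bool := onCell 536870912 536870912 0 536870912 201326592 134217728
    (rowF 0 false false false .npp 1 0 2 (qsf 536870912 536870912 0 536870912 0) ndF1q1 ndF2q2a pcF0 Cut.none Ext.none)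

def k0_mm_102_a : ∃ t, chk3 f_mm_102_a t 1 1 1 = true :=
  ⟨(l 3), by decide +kernel⟩

theorem c_mm_102_a : CertF 536870912 536870912 0 536870912 201326592 134217728 false false false .npp 1 0 2
    ndF1q1 ndF2q2a pcF0 Cut.none Ext.none :=
  certF0 (fam := false) (s1 := false) (s2 := false) (a := 1) (b := 0) (c := 2) (cn := .npp) (n1 := ndF1q1) (n2 := ndF2q2a) (pc := pcF0) (cut := Cut.none) (xt := Ext.none) (P1 := 536870912) (W1 := 536870912) (P2 := 0) (W2 := 536870912) (P3 := 201326592) (W3 := 134217728)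
    rfl k0_mm_102_a

noncomputable def f_mm_102_b : ℕ → ℕ → ℕ → ℕ → Bool := onCell 536870912 536870912 1239849684 370763052 201326592 134217728
    (rowF 0 false false false .npp 1 0 2 (qsf 536870912 536870912 1239849684 370763052 0) ndF1q1 ndF2q2b pcF0 Cut.none Ext.none)

def k0_mm_102_b : ∃ t, chk3 f_mm_102_b t 1 1 1 = true :=
  ⟨(l 5), by decide +kernel⟩

theorem c_mm_102_b : CertF 536870912 536870912 1239849684 370763052 201326592 134217728 false false false .npp 1 0 2
    ndF1q1 ndF2q2b pcF0 Cut.none Ext.none :=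
  certF0 (fam := false) (s1 := false) (s2 := false) (a := 1) (b := 0) (c := 2) (cn := .npp) (n1 := ndF1q1) (n2 := ndF2q2b) (pc := pcF0) (cut := Cut.none) (xt := Ext.none) (P1 := 536870912) (W1 := 536870912) (P2 := 1239849684) (W2 := 370763052) (P3 := 201326592) (W3 := 134217728)
    rfl k0_mm_102_b

noncomputable def f_mm_112_a : ℕ → ℕ → ℕ → ℕ → Bool := onCell 536870912 536870912 0 536870912 201326592 134217728
    (rowF 0 false false false .dn 1 1 2 (qsf 536870912 536870912 0 536870912 1) ndF1q1 ndF2q2a pcF1 Cut.none Ext.none)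

def k0_mm_112_a : ∃ t, chk3 f_mm_112_a t 1 1 1 = true :=
  ⟨(l 3), by decide +kernel⟩

theorem c_mm_112_a : CertF 536870912 536870912 0 536870912 201326592 134217728 false false false .dn 1 1 2
    ndF1q1 ndF2q2a pcF1 Cut.none Ext.none :=
  certF0 (fam := false) (s1 := false) (s2 := false) (a := 1) (b := 1) (c := 2) (cn := .dn) (n1 := ndF1q1) (n2 := ndF2q2a) (pc := pcF1) (cut := Cut.none) (xt := Ext.none) (P1 := 536870912) (W1 := 536870912) (P2 := 0) (W2 := 536870912) (P3 := 201326592) (W3 := 134217728)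
    rfl k0_mm_112_a

noncomputable def f_mm_112_b : ℕ → ℕ → ℕ → ℕ → Bool := onCell 536870912 536870912 1239849684 370763052 201326592 134217728
    (rowF 0 false false false .dn 1 1 2 (qsf 536870912 536870912 1239849684 370763052 1) ndF1q1 ndF2q2b pcF1 Cut.none Ext.none)

def k0_mm_112_b : ∃ t, chk3 f_mm_112_b t 1 1 1 = true :=
  ⟨(l 5), by decide +kernel⟩

theorem c_mm_112_b : CertF 536870912 536870912 1239849684 370763052 201326592 134217728 false false false .dn 1 1 2
    ndF1q1 ndF2q2b pcF1 Cut.none Ext.none :=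
  certF0 (fam := false) (s1 := false) (s2 := false) (a := 1) (b := 1) (c := 2) (cn := .dn) (n1 := ndF1q1) (n2 := ndF2q2b) (pc := pcF1) (cut := Cut.none) (xt := Ext.none) (P1 := 536870912) (W1 := 536870912) (P2 := 1239849684) (W2 := 370763052) (P3 := 201326592) (W3 := 134217728)
    rfl k0_mm_112_b

noncomputable def f_mm_113 : ℕ → ℕ → ℕ → ℕ → Bool := onCell 536870912 536870912 1610612736 536870912 201326592 134217728
    (rowF 0 false false false .nn 1 1 3 (qsf 536870912 536870912 1610612736 536870912 1) ndF1q1 ndF2q3 pcF1 Cut.none Ext.none)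

def k0_mm_113 : ∃ t, chk3 f_mm_113 t 1 1 1 = true :=
  ⟨(l 5), by decide +kernel⟩

theorem c_mm_113 : CertF 536870912 536870912 1610612736 536870912 201326592 134217728 false false false .nn 1 1 3
    ndF1q1 ndF2q3 pcF1 Cut.none Ext.none :=
  certF0 (fam := false) (s1 := false) (s2 := false) (a := 1) (b := 1) (c := 3) (cn := .nn) (n1 := ndF1q1) (n2 := ndF2q3) (pc := pcF1) (cut := Cut.none) (xt := Ext.none) (P1 := 536870912) (W1 := 536870912) (P2 := 1610612736) (W2 := 536870912) (P3 := 201326592) (W3 := 134217728)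
    rfl k0_mm_113

noncomputable def f_mm_123 : ℕ → ℕ → ℕ → ℕ → Bool := onCell 536870912 536870912 1610612736 536870912 201326592 134217728
    (rowF 0 false false false .npn 1 2 3 (qsf 536870912 536870912 1610612736 536870912 2) ndF1q1 ndF2q3 pcF2 Cut.none Ext.none)

def k0_mm_123 : ∃ t, chk3 f_mm_123 t 1 1 1 = true :=
  ⟨(l 5), by decide +kernel⟩

theorem c_mm_123 : CertF 536870912 536870912 1610612736 536870912 201326592 134217728 false false false .npn 1 2 3
    ndF1q1 ndF2q3 pcF2 Cut.none Ext.none :=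
  certF0 (fam := false) (s1 := false) (s2 := false) (a := 1) (b := 2) (c := 3) (cn := .npn) (n1 := ndF1q1) (n2 := ndF2q3) (pc := pcF2) (cut := Cut.none) (xt := Ext.none) (P1 := 536870912) (W1 := 536870912) (P2 := 1610612736) (W2 := 536870912) (P3 := 201326592) (W3 := 134217728)
    rfl k0_mm_123

noncomputable def f_mm_133 : ℕ → ℕ → ℕ → ℕ → Bool := onCell 536870912 536870912 1610612736 536870912 201326592 134217728
    (rowF 0 false false false .dn 1 3 3 (qsf 536870912 536870912 1610612736 536870912 3) ndF1q1 ndF2q3 pcF3 Cut.none Ext.none)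

def k0_mm_133 : ∃ t, chk3 f_mm_133 t 1 1 1 = true :=
  ⟨(l 5), by decide +kernel⟩

theorem c_mm_133 : CertF 536870912 536870912 1610612736 536870912 201326592 134217728 false false false .dn 1 3 3
    ndF1q1 ndF2q3 pcF3 Cut.none Ext.none :=
  certF0 (fam := false) (s1 := false) (s2 := false) (a := 1) (b := 3) (c := 3) (cn := .dn) (n1 := ndF1q1) (n2 := ndF2q3) (pc := pcF3) (cut := Cut.none) (xt := Ext.none) (P1 := 536870912) (W1 := 536870912) (P2 := 1610612736) (W2 := 536870912) (P3 := 201326592) (W3 := 134217728)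
    rfl k0_mm_133

noncomputable def f_mm_202_aa : ℕ → ℕ → ℕ → ℕ → Bool := onCell 0 536870912 0 536870912 201326592 134217728
    (rowF 0 false false false .pp 2 0 2 (qsf 0 536870912 0 536870912 0) ndF1q2a ndF2q2a pcF0 Cut.none Ext.none)

def k0_mm_202_aa : ∃ t, chk3 f_mm_202_aa t 1 1 1 = true :=
  ⟨(l 3), by decide +kernel⟩

theorem c_mm_202_aa : CertF 0 536870912 0 536870912 201326592 134217728 false false false .pp 2 0 2
    ndF1q2a ndF2q2a pcF0 Cut.none Ext.none :=
  certF0 (fam := false) (s1 := false) (s2 := false) (a := 2) (b := 0) (c := 2) (cn := .pp) (n1 := ndF1q2a) (n2 := ndF2q2a) (pc := pcF0) (cut := Cut.none) (xt := Ext.none) (P1 := 0) (W1 := 536870912) (P2 := 0) (W2 := 536870912) (P3 := 201326592) (W3 := 134217728)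
    rfl k0_mm_202_aa

noncomputable def f_mm_202_ab : ℕ → ℕ → ℕ → ℕ → Bool := onCell 0 536870912 1239849684 370763052 201326592 134217728
    (rowF 0 false false false .pp 2 0 2 (qsf 0 536870912 1239849684 370763052 0) ndF1q2a ndF2q2b pcF0 Cut.none Ext.none)

def k0_mm_202_ab : ∃ t, chk3 f_mm_202_ab t 1 1 1 = true :=
  ⟨(l 3), by decide +kernel⟩

theorem c_mm_202_ab : CertF 0 536870912 1239849684 370763052 201326592 134217728 false false false .pp 2 0 2
    ndF1q2a ndF2q2b pcF0 Cut.none Ext.none :=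
  certF0 (fam := false) (s1 := false) (s2 := false) (a := 2) (b := 0) (c := 2) (cn := .pp) (n1 := ndF1q2a) (n2 := ndF2q2b) (pc := pcF0) (cut := Cut.none) (xt := Ext.none) (P1 := 0) (W1 := 536870912) (P2 := 1239849684) (W2 := 370763052) (P3 := 201326592) (W3 := 134217728)
    rfl k0_mm_202_ab

noncomputable def f_mm_202_ba : ℕ → ℕ → ℕ → ℕ → Bool := onCell 1239849684 370763052 0 536870912 201326592 134217728
    (rowF 0 false false false .pp 2 0 2 (qsf 1239849684 370763052 0 536870912 0) ndF1q2b ndF2q2a pcF0 Cut.none Ext.none)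

def k0_mm_202_ba : ∃ t, chk3 f_mm_202_ba t 1 1 1 = true :=
  ⟨(l 3), by decide +kernel⟩

theorem c_mm_202_ba : CertF 1239849684 370763052 0 536870912 201326592 134217728 false false false .pp 2 0 2
    ndF1q2b ndF2q2a pcF0 Cut.none Ext.none :=
  certF0 (fam := false) (s1 := false) (s2 := false) (a := 2) (b := 0) (c := 2) (cn := .pp) (n1 := ndF1q2b) (n2 := ndF2q2a) (pc := pcF0) (cut := Cut.none) (xt := Ext.none) (P1 := 1239849684) (W1 := 370763052) (P2 := 0) (W2 := 536870912) (P3 := 201326592) (W3 := 134217728)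
    rfl k0_mm_202_ba

noncomputable def f_mm_202_bb : ℕ → ℕ → ℕ → ℕ → Bool := onCell 1239849684 370763052 1239849684 370763052 201326592 134217728
    (rowF 0 false false false .pp 2 0 2 (qsf 1239849684 370763052 1239849684 370763052 0) ndF1q2b ndF2q2b pcF0 Cut.none Ext.none)

def k0_mm_202_bb : ∃ t, chk3 f_mm_202_bb t 1 1 1 = true :=
  ⟨(l 3), by decide +kernel⟩

theorem c_mm_202_bb : CertF 1239849684 370763052 1239849684 370763052 201326592 134217728 false false false .pp 2 0 2
    ndF1q2b ndF2q2b pcF0 Cut.none Ext.none :=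
  certF0 (fam := false) (s1 := false) (s2 := false) (a := 2) (b := 0) (c := 2) (cn := .pp) (n1 := ndF1q2b) (n2 := ndF2q2b) (pc := pcF0) (cut := Cut.none) (xt := Ext.none) (P1 := 1239849684) (W1 := 370763052) (P2 := 1239849684) (W2 := 370763052) (P3 := 201326592) (W3 := 134217728)
    rfl k0_mm_202_bb

noncomputable def f_mm_203_a : ℕ → ℕ → ℕ → ℕ → Bool := onCell 0 536870912 0 536870912 201326592 134217728
    (rowF 1 false false false .up 2 0 3 (qsf 0 536870912 1610612736 536870912 0) ndF1q2a ndF2q3 pcF0 Cut.none Ext.none)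

def k0_mm_203_a : ∃ t, chk3 f_mm_203_a t 1 1 1 = true :=
  ⟨(l 3), by decide +kernel⟩

theorem c_mm_203_a : CertF 0 536870912 1610612736 536870912 201326592 134217728 false false false .up 2 0 3
    ndF1q2a ndF2q3 pcF0 Cut.none Ext.none :=
  certF1 (fam := false) (s1 := false) (s2 := false) (a := 2) (b := 0) (c := 3) (cn := .up) (n1 := ndF1q2a) (n2 := ndF2q3) (pc := pcF0) (cut := Cut.none) (xt := Ext.none) (P1 := 0) (W1 := 536870912) (P2 := 1610612736) (W2 := 536870912) (P3 := 201326592) (W3 := 134217728)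
    rfl (fun _ => rfl) k0_mm_203_a

noncomputable def f_mm_203_b : ℕ → ℕ → ℕ → ℕ → Bool := onCell 1239849684 370763052 1610612736 536870912 201326592 134217728
    (rowF 0 false false false .up 2 0 3 (qsf 1239849684 370763052 1610612736 536870912 0) ndF1q2b ndF2q3 pcF0 Cut.none Ext.none)

def k0_mm_203_b : ∃ t, chk3 f_mm_203_b t 1 1 1 = true :=
  ⟨(l 3), by decide +kernel⟩

theorem c_mm_203_b : CertF 1239849684 370763052 1610612736 536870912 201326592 134217728 false false false .up 2 0 3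
    ndF1q2b ndF2q3 pcF0 Cut.none Ext.none :=
  certF0 (fam := false) (s1 := false) (s2 := false) (a := 2) (b := 0) (c := 3) (cn := .up) (n1 := ndF1q2b) (n2 := ndF2q3) (pc := pcF0) (cut := Cut.none) (xt := Ext.none) (P1 := 1239849684) (W1 := 370763052) (P2 := 1610612736) (W2 := 536870912) (P3 := 201326592) (W3 := 134217728)
    rfl k0_mm_203_b

noncomputable def f_mm_213_a : ℕ → ℕ → ℕ → ℕ → Bool := onCell 0 536870912 1610612736 536870912 201326592 134217728
    (rowF 0 false false false .pnn 2 1 3 (qsf 0 536870912 1610612736 536870912 1) ndF1q2a ndF2q3 pcF1 Cut.none Ext.none)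

def k0_mm_213_a : ∃ t, chk3 f_mm_213_a t 1 1 1 = true :=
  ⟨(b (l 3) (l 5)), by decide +kernel⟩

theorem c_mm_213_a : CertF 0 536870912 1610612736 536870912 201326592 134217728 false false false .pnn 2 1 3
    ndF1q2a ndF2q3 pcF1 Cut.none Ext.none :=
  certF0 (fam := false) (s1 := false) (s2 := false) (a := 2) (b := 1) (c := 3) (cn := .pnn) (n1 := ndF1q2a) (n2 := ndF2q3) (pc := pcF1) (cut := Cut.none) (xt := Ext.none) (P1 := 0) (W1 := 536870912) (P2 := 1610612736) (W2 := 536870912) (P3 := 201326592) (W3 := 134217728)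
    rfl k0_mm_213_a

noncomputable def f_mm_213_b : ℕ → ℕ → ℕ → ℕ → Bool := onCell 1239849684 370763052 1610612736 536870912 201326592 134217728
    (rowF 0 false false false .pnn 2 1 3 (qsf 1239849684 370763052 1610612736 536870912 1) ndF1q2b ndF2q3 pcF1 Cut.none Ext.none)

def k0_mm_213_b : ∃ t, chk3 f_mm_213_b t 1 1 1 = true :=
  ⟨(l 3), by decide +kernel⟩

theorem c_mm_213_b : CertF 1239849684 370763052 1610612736 536870912 201326592 134217728 false false false .pnn 2 1 3
    ndF1q2b ndF2q3 pcF1 Cut.none Ext.none :=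
  certF0 (fam := false) (s1 := false) (s2 := false) (a := 2) (b := 1) (c := 3) (cn := .pnn) (n1 := ndF1q2b) (n2 := ndF2q3) (pc := pcF1) (cut := Cut.none) (xt := Ext.none) (P1 := 1239849684) (W1 := 370763052) (P2 := 1610612736) (W2 := 536870912) (P3 := 201326592) (W3 := 134217728)
    rfl k0_mm_213_b

noncomputable def f_mm_303 : ℕ → ℕ → ℕ → ℕ → Bool := onCell 1610612736 536870912 1610612736 536870912 201326592 134217728
    (rowF 0 false false false .npn 3 0 3 (qsf 1610612736 536870912 1610612736 536870912 0) ndF1q3 ndF2q3 pcF0 Cut.none Ext.none)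

def k0_mm_303 : ∃ t, chk3 f_mm_303 t 1 1 1 = true :=
  ⟨(l 3), by decide +kernel⟩

theorem c_mm_303 : CertF 1610612736 536870912 1610612736 536870912 201326592 134217728 false false false .npn 3 0 3
    ndF1q3 ndF2q3 pcF0 Cut.none Ext.none :=
  certF0 (fam := false) (s1 := false) (s2 := false) (a := 3) (b := 0) (c := 3) (cn := .npn) (n1 := ndF1q3) (n2 := ndF2q3) (pc := pcF0) (cut := Cut.none) (xt := Ext.none) (P1 := 1610612736) (W1 := 536870912) (P2 := 1610612736) (W2 := 536870912) (P3 := 201326592) (W3 := 134217728)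
    rfl k0_mm_303

noncomputable def f_mm_313 : ℕ → ℕ → ℕ → ℕ → Bool := onCell 1610612736 536870912 1610612736 536870912 201326592 134217728
    (rowF 0 false false false .dn 3 1 3 (qsf 1610612736 536870912 1610612736 536870912 1) ndF1q3 ndF2q3 pcF1 Cut.none Ext.none)

def k0_mm_313 : ∃ t, chk3 f_mm_313 t 1 1 1 = true :=
  ⟨(l 3), by decide +kernel⟩

theorem c_mm_313 : CertF 1610612736 536870912 1610612736 536870912 201326592 134217728 false false false .dn 3 1 3
    ndF1q3 ndF2q3 pcF1 Cut.none Ext.none :=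
  certF0 (fam := false) (s1 := false) (s2 := false) (a := 3) (b := 1) (c := 3) (cn := .dn) (n1 := ndF1q3) (n2 := ndF2q3) (pc := pcF1) (cut := Cut.none) (xt := Ext.none) (P1 := 1610612736) (W1 := 536870912) (P2 := 1610612736) (W2 := 536870912) (P3 := 201326592) (W3 := 134217728)
    rfl k0_mm_313

end Pool.Agent.Strip051.G.I3_16_5_16.Tab.C.FB12

namespace Pool.Agent.Strip051.G.I3_16_5_16.Tab.C.FB13

open Pool.Agent.Strip051.PB Pool.Agent.Strip051.PB.T
open Pool.Agent.Strip051.G.I3_16_5_16.Tab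

noncomputable def f_pp_001 : ℕ → ℕ → ℕ → ℕ → Bool := onCell 0 536870912 0 536870912 201326592 134217728
    (rowF 1 false true true .up 0 0 1 (qsf 0 536870912 536870912 536870912 0) ndF1q0 ndF3q1 pcF0 Cut.none Ext.none)

def k0_pp_001 : ∃ t, chk3 f_pp_001 t 1 1 1 = true :=
  ⟨(l 3), by decide +kernel⟩

theorem c_pp_001 : CertF 0 536870912 536870912 536870912 201326592 134217728 false true true .up 0 0 1
    ndF1q0 ndF3q1 pcF0 Cut.none Ext.none :=
  certF1 (fam := false) (s1 := true) (s2 := true) (a := 0) (b := 0) (c := 1) (cn := .up) (n1 := ndF1q0) (n2 := ndF3q1) (pc := pcF0) (cut := Cut.none) (xt := Ext.none) (P1 := 0) (W1 := 536870912) (P2 := 536870912) (W2 := 536870912) (P3 := 201326592) (W3 := 134217728)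
    rfl (fun _ => rfl) k0_pp_001

noncomputable def cut_pp_011 : Cut := Cut.of [[⟨0, 0, 0, 67108864⟩, ⟨1, 1, 0, 67108864⟩, ⟨2, 1, 0, 67108864⟩]]

noncomputable def f_pp_011 : ℕ → ℕ → ℕ → ℕ → Bool := onCell 0 536870912 536870912 536870912 201326592 134217728
    (rowF 1 false true true .pnn 0 1 1 (qsf 0 536870912 536870912 536870912 1) ndF1q0 ndF3q1 pcF1 cut_pp_011 Ext.none)

def k0_pp_011 : ∃ t, chk3 f_pp_011 t 1 1 1 = true :=
  ⟨(a (b (l 3) (a (b (l 3) (a (a (b (l 3) (b (l 3) (l 6))) (l 3)) (l 3))) (l 3))) (l 3)), by decide +kernel⟩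

theorem c_pp_011 : CertF 0 536870912 536870912 536870912 201326592 134217728 false true true .pnn 0 1 1
    ndF1q0 ndF3q1 pcF1 cut_pp_011 Ext.none :=
  certF1 (fam := false) (s1 := true) (s2 := true) (a := 0) (b := 1) (c := 1) (cn := .pnn) (n1 := ndF1q0) (n2 := ndF3q1) (pc := pcF1) (cut := cut_pp_011) (xt := Ext.none) (P1 := 0) (W1 := 536870912) (P2 := 536870912) (W2 := 536870912) (P3 := 201326592) (W3 := 134217728)
    rfl (fun _ => rfl) k0_pp_011

noncomputable def f_pp_012 : ℕ → ℕ → ℕ → ℕ → Bool := onCell 536870912 536870912 1073741824 536870912 201326592 134217728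
    (rowF 2 false true true .pnp 0 1 2 (qsf 0 536870912 1073741824 536870912 1) ndF1q0 ndF3q2 pcF1 Cut.none Ext.none)

def k0_pp_012 : ∃ t, chk3 f_pp_012 t 1 1 1 = true :=
  ⟨(a (l 3) (a (l 3) (b (l 3) (a (b (l 3) (b (l 3) (l 17184816))) (b (a (l 3) (b (l 16899720) (l 17092144))) (b (b (l 17137944) (l 17198448)) (l 17264104))))))), by decide +kernel⟩

theorem c_pp_012 : CertF 0 536870912 1073741824 536870912 201326592 134217728 false true true .pnp 0 1 2
    ndF1q0 ndF3q2 pcF1 Cut.none Ext.none :=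
  certF2 (fam := false) (s1 := true) (s2 := true) (a := 0) (b := 1) (c := 2) (cn := .pnp) (n1 := ndF1q0) (n2 := ndF3q2) (pc := pcF1) (cut := Cut.none) (xt := Ext.none) (P1 := 0) (W1 := 536870912) (P2 := 1073741824) (W2 := 536870912) (P3 := 201326592) (W3 := 134217728)
    rfl (fun _ => rfl) k0_pp_012

noncomputable def f_pp_022 : ℕ → ℕ → ℕ → ℕ → Bool := onCell 0 536870912 1073741824 536870912 201326592 134217728
    (rowF 0 false true true .pp 0 2 2 (qsf 0 536870912 1073741824 536870912 2) ndF1q0 ndF3q2 pcF2 Cut.none Ext.none)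

def k0_pp_022 : ∃ t, chk3 f_pp_022 t 4 4 1 = true :=
  ⟨(a (b (l 3) (b (l 3) (b (a (a (c (a (b (l 16606432) (l 16584592)) (l 16623568)) (a (b (c (l 16585584) (l 16606424)) (l 16585016)) (c (l 16622488) (l 16622760)))) (a (c (l 16634464) (l 44190930071)) (l 3))) (l 3)) (a (a (b (c (a (l 16568072) (l 16565952)) (l 16602624)) (c (a (l 16576688) (l 16553520)) (a (l 16556312) (l 16552024)))) (b (a (l 16603712) (l 16599648)) (c (l 16623448) (l 16577216)))) (a (b (l 3) (b (l 16616696) (l 16611784))) (l 3)))))) (l 3)), by decide +kernel⟩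

def k1_pp_022 : ∃ t, chk3 f_pp_022 t 8 10 1 = true :=
  ⟨(b (a (b (a (a (b (c (l 16561400) (l 16521920)) (c (a (l 16536880) (l 16525280)) (l 16547272))) (b (c (l 16538280) (l 16538408)) (c (l 16518288) (l 16521568)))) (b (c (l 16587048) (l 16563120)) (c (l 16567000) (l 16545896)))) (c (a (b (a (b (l 16525600) (a (l 16502112) (l 16478888))) (l 16554896)) (a (b (l 16503096) (b (l 16527328) (c (l 16564280) (l 16556840)))) (b (l 16500640) (b (l 16496264) (l 16518584))))) (b (l 16588520) (b (l 16571848) (b (l 16541664) (a (l 16504776) (l 16503512)))))) (a (b (a (b (l 16491840) (l 16500992)) (l 16503952)) (a (b (l 16491896) (b (l 16493976) (c (l 16560720) (l 16554960)))) (b (l 16488928) (b (l 16478584) (l 16491048))))) (b (l 16528728) (b (l 16514856) (b (l 16507160) (l 16585280))))))) (b (a (b (b (l 16625944) (l 16616832)) (c (l 16562080) (l 16557952))) (c (l 16725856) (l 16740328))) (b (a (l 16645864) (c (l 16599272) (l 16594224))) (a (b (l 16546888) (b (l 16538832) (l 16596024)))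 (b (l 16581408) (l 16675552)))))) (a (b (a (c (a (b (c (l 16528080) (l 16519864)) (l 16479192)) (c (l 16577088) (l 16579272))) (a (b (l 16530192) (l 16462272)) (b (a (l 16532456) (l 16464176)) (l 16501256)))) (b (a (a (l 16517264) (c (l 16471352) (l 16482232))) (c (l 16487864) (l 16497176))) (a (c (l 16559320) (l 16545208)) (l 16529016)))) (a (c (l 16499112) (l 16468328)) (a (c (l 16527576) (l 16509232)) (c (l 16575040) (l 16558224))))) (b (a (b (c (l 16516376) (l 16522416)) (a (l 16553416) (l 16510112))) (a (l 16598120) (l 16563216))) (a (a (c (l 16555088) (l 16560816)) (b (l 16486144) (l 16477336))) (b (l 16578760) (a (l 16480432) (l 16502880))))))), by decide +kernel⟩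

def k2_pp_022 : ∃ t, chk3 f_pp_022 t 9 10 1 = true :=
  ⟨(a (b (b (b (l 3) (a (l 16683672) (l 3))) (b (a (l 16631088) (l 3)) (a (a (l 16771304) (l 16788928)) (a (l 16784872) (l 16800816))))) (b (a (l 16662360) (b (l 16623904) (l 16604912))) (a (b (l 16551336) (l 16530448)) (b (l 16585304) (l 16565296))))) (b (l 3) (b (a (l 16683592) (l 16673208)) (a (l 16650720) (l 16660480))))), by decide +kernel⟩

def k3_pp_022 : ∃ t, chk3 f_pp_022 t 4 11 1 = true :=
  ⟨(a (b (a (c (a (b (l 16473296) (l 16462712)) (l 16517752)) (b (l 16472768) (l 16455728))) (a (b (c (l 16558976) (l 16559312)) (l 16479352)) (c (c (l 16581336) (l 16590032)) (a (l 16616200) (l 16619472))))) (a (c (a (c (b (l 16830736) (l 17039472)) (l 16445712)) (l 16620960)) (b (l 16422232) (l 16414864))) (c (l 16642856) (l 16410912)))) (b (a (b (a (b (l 16506952) (l 16477912)) (b (l 16543696) (l 16520368))) (a (b (l 16446792) (l 16561648)) (l 16475968))) (b (a (l 16565728) (l 16601192)) (a (b (l 16532432) (l 16504360))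 (l 16554712)))) (a (c (b (l 16546256) (l 16710592)) (a (l 16543544) (l 16567440))) (b (a (l 16457744) (l 16499832)) (a (l 16551272) (l 16435720)))))), by decide +kernel⟩

def k4_pp_022 : ∃ t, chk3 f_pp_022 t 5 2 1 = true :=
  ⟨(b (l 3) (b (b (l 3) (a (a (b (l 3) (l 16750232)) (l 3)) (l 3))) (a (b (a (b (a (l 16634048) (l 16665472)) (a (l 16588952) (l 16625320))) (b (l 16714144) (l 16693960))) (a (b (a (l 16539320) (l 16574592)) (a (l 16478048) (l 16517744))) (b (l 16661888) (l 16676208)))) (b (l 3) (a (b (l 16693128) (l 16639104)) (l 16776184)))))), by decide +kernel⟩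

def k5_pp_022 : ∃ t, chk3 f_pp_022 t 4 3 1 = true :=
  ⟨(b (a (b (b (c (a (a (b (c (l 17218112) (l 16751648)) (l 16925112)) (l 16877936)) (l 17005792)) (a (b (l 16413088) (l 16396872)) (l 16405112))) (c (a (b (l 17035384) (l 17414200)) (l 17287248)) (a (b (l 16421336) (l 16438304)) (l 16546632)))) (b (c (b (l 17384880) (l 17584832)) (a (a (b (l 16782176) (l 16992056)) (l 16895592)) (l 16859120))) (c (a (b (l 17700072) (l 17769184)) (l 17671728)) (a (b (l 16856008) (a (l 17234640) (l 17207256))) (l 17111224))))) (b (b (a (l 16565136) (c (b (l 16851552) (l 16986992)) (l 16567344))) (a (l 16873880) (l 16837312))) (b (a (c (l 17438424) (l 16812960)) (l 17073568)) (c (l 17573888) (a (l 17055184) (l 17000720)))))) (b (a (b (c (a (l 17838984) (l 17781408)) (a (b (l 17303824) (l 17363616)) (l 17282872))) (c (a (l 17905752) (l 17852424)) (a (l 17436760) (l 17392328)))) (b (c (l 17691304) (a (l 17223544) (l 17168392))) (c (l 17770568) (l 17311936)))) (a (b (a (l 17738560) (l 17690888))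 (l 17763984)) (b (a (l 17641960) (l 17592256)) (a (l 17695896) (l 17648024)))))), by decide +kernel⟩

def k6_pp_022 : ∃ t, chk3 f_pp_022 t 5 3 1 = true :=
  ⟨(b (a (b (a (b (a (b (l 16492576) (l 16626280)) (l 16550424)) (a (c (l 17135248) (l 16495384)) (b (b (l 16721016) (l 16778128)) (l 16861504)))) (b (a (l 16586712) (l 16692880)) (b (l 16749168) (a (a (l 16854496) (l 16850200)) (l 16845800))))) (a (b (l 17028024) (l 17217352)) (b (b (a (l 16952296) (b (l 16916016) (l 16962024))) (l 17037800)) (l 17168712)))) (a (b (b (b (l 16608072) (l 16684864)) (b (l 16762248) (a (l 16843064) (l 16844168)))) (b (b (l 16925520) (a (b (l 16993216) (l 17035400)) (l 17001584))) (b (a (l 17097032) (b (l 17060856) (l 17099936))) (l 17271240)))) (b (b (b (l 16684560) (l 16734312)) (b (l 16791032) (l 16852112))) (b (b (l 16918248) (a (l 16991168) (l 16984472))) (b (a (l 17065456) (l 17052280)) (a (b (l 17120960) (l 17157624)) (l 17122616))))))) (b (b (a (a (l 17362016) (l 17312688)) (a (l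 17268448) (b (a (l 17208848) (b (l 17175064) (l 17208360))) (l 17261584)))) (a (l 17442608) (l 17400544))) (a (b (l 17525416) (l 17585488)) (b (l 17449760) (l 17520136))))), by decide +kernel⟩

def k7_pp_022 : ∃ t, chk3 f_pp_022 t 3 1 1 = true :=
  ⟨(b (l 3) (a (b (b (a (b (a (l 16784368) (l 3)) (a (b (l 16831040) (l 16873400)) (l 16897336))) (b (l 1) (c (l 17148248) (l 16849168)))) (b (a (a (l 16951896) (l 16958912)) (a (l 16981552) (l 17022488))) (b (a (l 17031432) (l 17031528)) (b (l 17059304) (a (a (l 17115528) (l 17094456)) (l 17073120)))))) (a (b (b (a (b (a (l 17175256) (l 17159408)) (a (b (l 17223672) (l 17253992)) (l 17223552))) (b (l 17142080) (a (l 17208400) (l 17198480)))) (a (b (a (l 17295088) (b (l 17267808) (l 17295480))) (l 17337784)) (b (a (l 17267288) (l 17252584)) (a (l 17551272) (l 17306864))))) (b (a (l 17403664) (b (a (l 17366320) (l 17523608)) (l 17400560))) (l 17461136))) (a (b (b (l 17153336) (a (b (l 17243840) (l 17292376)) (l 17259296))) (b (b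 (a (l 17342656) (l 17328200)) (a (l 17513608) (l 17374992))) (b (a (l 17424936) (l 17521568)) (l 17451992)))) (b (b (l 17138784) (l 17244536)) (b (a (b (l 17321296) (l 17360416)) (l 17332784)) (b (a (l 17404176) (l 17389368)) (a (l 17526760) (l 17430496)))))))) (b (b (l 1) (b (l 1) (a (l 389266092263) (l 1)))) (b (a (b (l 113314559655) (l 17225872)) (b (l 1) (l 17247424))) (a (a (b (l 17317688) (a (b (l 17383824) (l 17415352)) (l 17391872))) (l 17339080)) (l 17324352)))))), by decide +kernel⟩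

theorem s8_pp_022 : ∃ t, chk3 f_pp_022 t 2 3 1 = true := ex3_a k5_pp_022 k6_pp_022

theorem s9_pp_022 : ∃ t, chk3 f_pp_022 t 4 10 1 = true := ex3_a k1_pp_022 k2_pp_022

theorem s10_pp_022 : ∃ t, chk3 f_pp_022 t 4 5 1 = true := ex3_b s9_pp_022 k3_pp_022

theorem s11_pp_022 : ∃ t, chk3 f_pp_022 t 4 2 1 = true := ex3_b k0_pp_022 s10_pp_022

theorem s12_pp_022 : ∃ t, chk3 f_pp_022 t 2 2 1 = true := ex3_a s11_pp_022 k4_pp_022

theorem s13_pp_022 : ∃ t, chk3 f_pp_022 t 2 1 1 = true := ex3_b s12_pp_022 s8_pp_022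

theorem s14_pp_022 : ∃ t, chk3 f_pp_022 t 1 1 1 = true := ex3_a s13_pp_022 k7_pp_022

theorem c_pp_022 : CertF 0 536870912 1073741824 536870912 201326592 134217728 false true true .pp 0 2 2
    ndF1q0 ndF3q2 pcF2 Cut.none Ext.none :=
  certF0 (fam := false) (s1 := true) (s2 := true) (a := 0) (b := 2) (c := 2) (cn := .pp) (n1 := ndF1q0) (n2 := ndF3q2) (pc := pcF2) (cut := Cut.none) (xt := Ext.none) (P1 := 0) (W1 := 536870912) (P2 := 1073741824) (W2 := 536870912) (P3 := 201326592) (W3 := 134217728)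
    rfl s14_pp_022

noncomputable def f_pp_023 : ℕ → ℕ → ℕ → ℕ → Bool := onCell 1073741824 536870912 0 1230186008 201326592 134217728
    (rowF 2 false true true .up 0 2 3 (qsf 0 536870912 0 1230186008 2) ndF1q0 ndF3q3 pcF2 Cut.none Ext.none)

def k0_pp_023 : ∃ t, chk3 f_pp_023 t 1 1 1 = true :=
  ⟨(b (a (l 2) (a (l 2) (b (l 17662672) (a (l 17710032) (l 17694688))))) (b (a (a (l 2) (a (l 2) (l 17695224))) (a (a (l 17691672) (l 17688328)) (a (l 17714144) (l 17742264)))) (a (b (a (l 2) (a (a (a (l 17669536) (l 17671216)) (l 17665488)) (l 17662776))) (a (a (l 17501800) (a (l 17535832) (a (l 17553952) (l 17564552)))) (a (a (a (l 17574416) (l 17833368)) (l 17586232)) (l 17603488)))) (a (a (b (l 17659056) (l 17629984)) (b (l 17643712) (b (l 17640800) (l 17665872)))) (a (b (l 17668528) (a (l 17685032) (l 17714536))) (b (l 17718376) (b (l 17733544) (l 17778704)))))))), by decide +kernel⟩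

theorem c_pp_023 : CertF 0 536870912 0 1230186008 201326592 134217728 false true true .up 0 2 3
    ndF1q0 ndF3q3 pcF2 Cut.none Ext.none :=
  certF2 (fam := false) (s1 := true) (s2 := true) (a := 0) (b := 2) (c := 3) (cn := .up) (n1 := ndF1q0) (n2 := ndF3q3) (pc := pcF2) (cut := Cut.none) (xt := Ext.none) (P1 := 0) (W1 := 536870912) (P2 := 0) (W2 := 1230186008) (P3 := 201326592) (W3 := 134217728)
    rfl (fun _ => rfl) k0_pp_023

noncomputable def f_pp_033 : ℕ → ℕ → ℕ → ℕ → Bool := onCell 1610612736 536870912 0 1230186008 201326592 134217728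
    (rowF 2 false true true .pnn 0 3 3 (qsf 0 536870912 0 1230186008 3) ndF1q0 ndF3q3 pcF3 Cut.none Ext.none)

def k0_pp_033 : ∃ t, chk3 f_pp_033 t 1 1 1 = true :=
  ⟨(b (a (b (a (a (l 17557840) (l 17527968)) (l 4)) (a (a (l 17509272) (l 17532760)) (a (l 17679272) (l 17488832)))) (a (a (l 111905946503) (l 4)) (l 4))) (b (a (a (b (a (l 17469496) (l 17530016)) (a (l 17512072) (l 17566680))) (b (a (l 17568928) (l 17595024)) (a (l 17610944) (l 17645704)))) (a (a (c (l 590593911143) (l 17765112)) (b (l 17614632) (l 680788109319))) (b (a (l 4) (l 1)) (l 1)))) (a (b (a (c (l 17686984) (l 17549504)) (a (l 17692544) (l 600257598679))) (a (b (a (l 17708376) (l 17748696)) (b (l 187940909879) (a (l 259881206375) (l 1)))) (b (a (l 640523042871) (l 1)) (l 1)))) (l 1)))), by decide +kernel⟩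

theorem c_pp_033 : CertF 0 536870912 0 1230186008 201326592 134217728 false true true .pnn 0 3 3
    ndF1q0 ndF3q3 pcF3 Cut.none Ext.none :=
  certF2 (fam := false) (s1 := true) (s2 := true) (a := 0) (b := 3) (c := 3) (cn := .pnn) (n1 := ndF1q0) (n2 := ndF3q3) (pc := pcF3) (cut := Cut.none) (xt := Ext.none) (P1 := 0) (W1 := 536870912) (P2 := 0) (W2 := 1230186008) (P3 := 201326592) (W3 := 134217728)
    rfl (fun _ => rfl) k0_pp_033

noncomputable def f_pp_101 : ℕ → ℕ → ℕ → ℕ → Bool := onCell 536870912 536870912 536870912 536870912 201326592 134217728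
    (rowF 0 false true true .npn 1 0 1 (qsf 536870912 536870912 536870912 536870912 0) ndF1q1 ndF3q1 pcF0 Cut.none Ext.none)

def k0_pp_101 : ∃ t, chk3 f_pp_101 t 1 1 1 = true :=
  ⟨(l 3), by decide +kernel⟩

theorem c_pp_101 : CertF 536870912 536870912 536870912 536870912 201326592 134217728 false true true .npn 1 0 1
    ndF1q1 ndF3q1 pcF0 Cut.none Ext.none :=
  certF0 (fam := false) (s1 := true) (s2 := true) (a := 1) (b := 0) (c := 1) (cn := .npn) (n1 := ndF1q1) (n2 := ndF3q1) (pc := pcF0) (cut := Cut.none) (xt := Ext.none) (P1 := 536870912) (W1 := 536870912) (P2 := 536870912) (W2 := 536870912) (P3 := 201326592) (W3 := 134217728)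
    rfl k0_pp_101

noncomputable def f_pp_102 : ℕ → ℕ → ℕ → ℕ → Bool := onCell 536870912 536870912 0 536870912 201326592 134217728
    (rowF 1 false true true .npp 1 0 2 (qsf 536870912 536870912 1073741824 536870912 0) ndF1q1 ndF3q2 pcF0 Cut.none Ext.none)

def k0_pp_102 : ∃ t, chk3 f_pp_102 t 1 1 1 = true :=
  ⟨(l 3), by decide +kernel⟩

theorem c_pp_102 : CertF 536870912 536870912 1073741824 536870912 201326592 134217728 false true true .npp 1 0 2
    ndF1q1 ndF3q2 pcF0 Cut.none Ext.none :=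
  certF1 (fam := false) (s1 := true) (s2 := true) (a := 1) (b := 0) (c := 2) (cn := .npp) (n1 := ndF1q1) (n2 := ndF3q2) (pc := pcF0) (cut := Cut.none) (xt := Ext.none) (P1 := 536870912) (W1 := 536870912) (P2 := 1073741824) (W2 := 536870912) (P3 := 201326592) (W3 := 134217728)
    rfl (fun _ => rfl) k0_pp_102

noncomputable def f_pp_112 : ℕ → ℕ → ℕ → ℕ → Bool := onCell 536870912 536870912 1073741824 536870912 201326592 134217728
    (rowF 0 false true true .dn 1 1 2 (qsf 536870912 536870912 1073741824 536870912 1) ndF1q1 ndF3q2 pcF1 Cut.none Ext.none)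

def k0_pp_112 : ∃ t, chk3 f_pp_112 t 1 1 1 = true :=
  ⟨(a (b (l 3) (b (l 3) (a (b (l 3) (l 163378040247)) (l 3)))) (l 3)), by decide +kernel⟩

theorem c_pp_112 : CertF 536870912 536870912 1073741824 536870912 201326592 134217728 false true true .dn 1 1 2
    ndF1q1 ndF3q2 pcF1 Cut.none Ext.none :=
  certF0 (fam := false) (s1 := true) (s2 := true) (a := 1) (b := 1) (c := 2) (cn := .dn) (n1 := ndF1q1) (n2 := ndF3q2) (pc := pcF1) (cut := Cut.none) (xt := Ext.none) (P1 := 536870912) (W1 := 536870912) (P2 := 1073741824) (W2 := 536870912) (P3 := 201326592) (W3 := 134217728)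
    rfl k0_pp_112

noncomputable def f_pp_113 : ℕ → ℕ → ℕ → ℕ → Bool := onCell 536870912 536870912 0 1230186008 201326592 134217728
    (rowF 2 false true true .nn 1 1 3 (qsf 536870912 536870912 0 1230186008 1) ndF1q1 ndF3q3 pcF1 Cut.none Ext.none)

def k0_pp_113 : ∃ t, chk3 f_pp_113 t 1 1 1 = true :=
  ⟨(b (a (l 2) (a (l 2) (b (a (l 2) (l 16802544)) (l 16881360)))) (a (b (b (l 2) (l 3)) (a (l 3) (l 3))) (b (a (a (b (l 2) (l 3)) (l 17046728)) (l 17277512)) (a (b (l 224044131079) (l 3)) (b (l 17210720) (l 147271907863)))))), by decide +kernel⟩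

theorem c_pp_113 : CertF 536870912 536870912 0 1230186008 201326592 134217728 false true true .nn 1 1 3
    ndF1q1 ndF3q3 pcF1 Cut.none Ext.none :=
  certF2 (fam := false) (s1 := true) (s2 := true) (a := 1) (b := 1) (c := 3) (cn := .nn) (n1 := ndF1q1) (n2 := ndF3q3) (pc := pcF1) (cut := Cut.none) (xt := Ext.none) (P1 := 536870912) (W1 := 536870912) (P2 := 0) (W2 := 1230186008) (P3 := 201326592) (W3 := 134217728)
    rfl (fun _ => rfl) k0_pp_113

noncomputable def f_pp_123 : ℕ → ℕ → ℕ → ℕ → Bool := onCell 1073741824 536870912 0 1230186008 201326592 134217728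
    (rowF 2 false true true .npn 1 2 3 (qsf 536870912 536870912 0 1230186008 2) ndF1q1 ndF3q3 pcF2 Cut.none Ext.none)

def k0_pp_123 : ∃ t, chk3 f_pp_123 t 1 1 1 = true :=
  ⟨(b (b (a (a (a (l 17084120) (a (l 17126920) (l 17153816))) (a (l 17184304) (l 17216272))) (a (l 17231728) (l 17165368))) (a (a (a (l 17149920) (a (l 17180728) (l 17194168))) (a (a (l 17210800) (l 17217424)) (l 17231968))) (a (l 17230456) (l 17183152)))) (b (a (a (a (l 17263808) (a (l 17279952) (l 17278680))) (a (a (l 17474448) (l 17272208)) (l 17252480))) (a (a (l 17221304) (l 17180336)) (a (l 17159880) (l 1)))) (a (a (a (b (l 17334264) (l 17349344)) (a (l 17335680) (a (l 17328488) (l 17321112)))) (a (a (a (l 17311992) (l 256122526039)) (l 17268984)) (l 263101677031))) (l 1)))), by decide +kernel⟩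

theorem c_pp_123 : CertF 536870912 536870912 0 1230186008 201326592 134217728 false true true .npn 1 2 3
    ndF1q1 ndF3q3 pcF2 Cut.none Ext.none :=
  certF2 (fam := false) (s1 := true) (s2 := true) (a := 1) (b := 2) (c := 3) (cn := .npn) (n1 := ndF1q1) (n2 := ndF3q3) (pc := pcF2) (cut := Cut.none) (xt := Ext.none) (P1 := 536870912) (W1 := 536870912) (P2 := 0) (W2 := 1230186008) (P3 := 201326592) (W3 := 134217728)
    rfl (fun _ => rfl) k0_pp_123

noncomputable def f_pp_133 : ℕ → ℕ → ℕ → ℕ → Bool := onCell 536870912 536870912 0 1230186008 201326592 134217728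
    (rowF 0 false true true .dn 1 3 3 (qsf 536870912 536870912 0 1230186008 3) ndF1q1 ndF3q3 pcF3 Cut.none Ext.none)

def k0_pp_133 : ∃ t, chk3 f_pp_133 t 1 1 1 = true :=
  ⟨(b (b (a (a (a (l 17041416) (l 1)) (l 1)) (l 1)) (l 1)) (l 1)), by decide +kernel⟩

theorem c_pp_133 : CertF 536870912 536870912 0 1230186008 201326592 134217728 false true true .dn 1 3 3
    ndF1q1 ndF3q3 pcF3 Cut.none Ext.none :=
  certF0 (fam := false) (s1 := true) (s2 := true) (a := 1) (b := 3) (c := 3) (cn := .dn) (n1 := ndF1q1) (n2 := ndF3q3) (pc := pcF3) (cut := Cut.none) (xt := Ext.none) (P1 := 536870912) (W1 := 536870912) (P2 := 0) (W2 := 1230186008) (P3 := 201326592) (W3 := 134217728)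
    rfl k0_pp_133

noncomputable def f_pp_202_a : ℕ → ℕ → ℕ → ℕ → Bool := onCell 0 536870912 1073741824 536870912 201326592 134217728
    (rowF 0 false true true .pp 2 0 2 (qsf 0 536870912 1073741824 536870912 0) ndF1q2a ndF3q2 pcF0 Cut.none Ext.none)

def k0_pp_202_a : ∃ t, chk3 f_pp_202_a t 1 1 1 = true :=
  ⟨(l 3), by decide +kernel⟩

theorem c_pp_202_a : CertF 0 536870912 1073741824 536870912 201326592 134217728 false true true .pp 2 0 2
    ndF1q2a ndF3q2 pcF0 Cut.none Ext.none :=
  certF0 (fam := false) (s1 := true) (s2 := true) (a := 2) (b := 0) (c := 2) (cn := .pp) (n1 := ndF1q2a) (n2 := ndF3q2) (pc := pcF0) (cut := Cut.none) (xt := Ext.none) (P1 := 0) (W1 := 536870912) (P2 := 1073741824) (W2 := 536870912) (P3 := 201326592) (W3 := 134217728)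
    rfl k0_pp_202_a

noncomputable def f_pp_202_b : ℕ → ℕ → ℕ → ℕ → Bool := onCell 1239849684 370763052 1073741824 536870912 201326592 134217728
    (rowF 0 false true true .pp 2 0 2 (qsf 1239849684 370763052 1073741824 536870912 0) ndF1q2b ndF3q2 pcF0 Cut.none Ext.none)

def k0_pp_202_b : ∃ t, chk3 f_pp_202_b t 1 1 1 = true :=
  ⟨(l 3), by decide +kernel⟩

theorem c_pp_202_b : CertF 1239849684 370763052 1073741824 536870912 201326592 134217728 false true true .pp 2 0 2
    ndF1q2b ndF3q2 pcF0 Cut.none Ext.none :=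
  certF0 (fam := false) (s1 := true) (s2 := true) (a := 2) (b := 0) (c := 2) (cn := .pp) (n1 := ndF1q2b) (n2 := ndF3q2) (pc := pcF0) (cut := Cut.none) (xt := Ext.none) (P1 := 1239849684) (W1 := 370763052) (P2 := 1073741824) (W2 := 536870912) (P3 := 201326592) (W3 := 134217728)
    rfl k0_pp_202_b

noncomputable def f_pp_203_a : ℕ → ℕ → ℕ → ℕ → Bool := onCell 0 536870912 0 1230186008 201326592 134217728
    (rowF 0 false true true .up 2 0 3 (qsf 0 536870912 0 1230186008 0) ndF1q2a ndF3q3 pcF0 Cut.none Ext.none)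

def k0_pp_203_a : ∃ t, chk3 f_pp_203_a t 1 1 1 = true :=
  ⟨(b (l 2) (l 3)), by decide +kernel⟩

theorem c_pp_203_a : CertF 0 536870912 0 1230186008 201326592 134217728 false true true .up 2 0 3
    ndF1q2a ndF3q3 pcF0 Cut.none Ext.none :=
  certF0 (fam := false) (s1 := true) (s2 := true) (a := 2) (b := 0) (c := 3) (cn := .up) (n1 := ndF1q2a) (n2 := ndF3q3) (pc := pcF0) (cut := Cut.none) (xt := Ext.none) (P1 := 0) (W1 := 536870912) (P2 := 0) (W2 := 1230186008) (P3 := 201326592) (W3 := 134217728)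
    rfl k0_pp_203_a

noncomputable def f_pp_203_b : ℕ → ℕ → ℕ → ℕ → Bool := onCell 1239849684 370763052 0 1230186008 201326592 134217728
    (rowF 0 false true true .up 2 0 3 (qsf 1239849684 370763052 0 1230186008 0) ndF1q2b ndF3q3 pcF0 Cut.none Ext.none)

def k0_pp_203_b : ∃ t, chk3 f_pp_203_b t 1 1 1 = true :=
  ⟨(b (l 3) (l 3)), by decide +kernel⟩

theorem c_pp_203_b : CertF 1239849684 370763052 0 1230186008 201326592 134217728 false true true .up 2 0 3
    ndF1q2b ndF3q3 pcF0 Cut.none Ext.none :=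
  certF0 (fam := false) (s1 := true) (s2 := true) (a := 2) (b := 0) (c := 3) (cn := .up) (n1 := ndF1q2b) (n2 := ndF3q3) (pc := pcF0) (cut := Cut.none) (xt := Ext.none) (P1 := 1239849684) (W1 := 370763052) (P2 := 0) (W2 := 1230186008) (P3 := 201326592) (W3 := 134217728)
    rfl k0_pp_203_b

noncomputable def cut_pp_213_a : Cut := Cut.of [[⟨0, 1, 0, 57167902⟩, ⟨1, 1, 0, 57167902⟩, ⟨2, 2, 0, 11758673⟩]]

noncomputable def f_pp_213_a : ℕ → ℕ → ℕ → ℕ → Bool := onCell 0 536870912 0 1230186008 201326592 134217728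
    (rowF 0 false true true .pnn 2 1 3 (qsf 0 536870912 0 1230186008 1) ndF1q2a ndF3q3 pcF1 cut_pp_213_a Ext.none)

def k0_pp_213_a : ∃ t, chk3 f_pp_213_a t 1 1 1 = true :=
  ⟨(b (a (l 3) (b (a (l 3) (a (l 3) (b (l 6) (l 3)))) (l 3))) (l 3)), by decide +kernel⟩

theorem c_pp_213_a : CertF 0 536870912 0 1230186008 201326592 134217728 false true true .pnn 2 1 3
    ndF1q2a ndF3q3 pcF1 cut_pp_213_a Ext.none :=
  certF0 (fam := false) (s1 := true) (s2 := true) (a := 2) (b := 1) (c := 3) (cn := .pnn) (n1 := ndF1q2a) (n2 := ndF3q3) (pc := pcF1) (cut := cut_pp_213_a) (xt := Ext.none) (P1 := 0) (W1 := 536870912) (P2 := 0) (W2 := 1230186008) (P3 := 201326592) (W3 := 134217728)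
    rfl k0_pp_213_a

noncomputable def cut_pp_213_b : Cut := Cut.of [[⟨0, 1, 0, 57167902⟩, ⟨1, 1, 0, 57167902⟩, ⟨2, 2, 0, 11758673⟩]]

noncomputable def f_pp_213_b : ℕ → ℕ → ℕ → ℕ → Bool := onCell 1239849684 370763052 0 1230186008 201326592 134217728
    (rowF 0 false true true .pnn 2 1 3 (qsf 1239849684 370763052 0 1230186008 1) ndF1q2b ndF3q3 pcF1 cut_pp_213_b Ext.none)

def k0_pp_213_b : ∃ t, chk3 f_pp_213_b t 1 1 1 = true :=
  ⟨(b (l 3) (l 3)), by decide +kernel⟩

theorem c_pp_213_b : CertF 1239849684 370763052 0 1230186008 201326592 134217728 false true true .pnn 2 1 3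
    ndF1q2b ndF3q3 pcF1 cut_pp_213_b Ext.none :=
  certF0 (fam := false) (s1 := true) (s2 := true) (a := 2) (b := 1) (c := 3) (cn := .pnn) (n1 := ndF1q2b) (n2 := ndF3q3) (pc := pcF1) (cut := cut_pp_213_b) (xt := Ext.none) (P1 := 1239849684) (W1 := 370763052) (P2 := 0) (W2 := 1230186008) (P3 := 201326592) (W3 := 134217728)
    rfl k0_pp_213_b

noncomputable def f_pp_303 : ℕ → ℕ → ℕ → ℕ → Bool := onCell 1610612736 536870912 0 1230186008 201326592 134217728
    (rowF 0 false true true .npn 3 0 3 (qsf 1610612736 536870912 0 1230186008 0) ndF1q3 ndF3q3 pcF0 Cut.none Ext.none)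

def k0_pp_303 : ∃ t, chk3 f_pp_303 t 1 1 1 = true :=
  ⟨(b (l 3) (l 3)), by decide +kernel⟩

theorem c_pp_303 : CertF 1610612736 536870912 0 1230186008 201326592 134217728 false true true .npn 3 0 3
    ndF1q3 ndF3q3 pcF0 Cut.none Ext.none :=
  certF0 (fam := false) (s1 := true) (s2 := true) (a := 3) (b := 0) (c := 3) (cn := .npn) (n1 := ndF1q3) (n2 := ndF3q3) (pc := pcF0) (cut := Cut.none) (xt := Ext.none) (P1 := 1610612736) (W1 := 536870912) (P2 := 0) (W2 := 1230186008) (P3 := 201326592) (W3 := 134217728)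
    rfl k0_pp_303

noncomputable def f_pp_313 : ℕ → ℕ → ℕ → ℕ → Bool := onCell 1610612736 536870912 0 1230186008 201326592 134217728
    (rowF 0 false true true .dn 3 1 3 (qsf 1610612736 536870912 0 1230186008 1) ndF1q3 ndF3q3 pcF1 Cut.none Ext.none)

def k0_pp_313 : ∃ t, chk3 f_pp_313 t 1 1 1 = true :=
  ⟨(b (l 3) (l 1)), by decide +kernel⟩

theorem c_pp_313 : CertF 1610612736 536870912 0 1230186008 201326592 134217728 false true true .dn 3 1 3
    ndF1q3 ndF3q3 pcF1 Cut.none Ext.none :=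
  certF0 (fam := false) (s1 := true) (s2 := true) (a := 3) (b := 1) (c := 3) (cn := .dn) (n1 := ndF1q3) (n2 := ndF3q3) (pc := pcF1) (cut := Cut.none) (xt := Ext.none) (P1 := 1610612736) (W1 := 536870912) (P2 := 0) (W2 := 1230186008) (P3 := 201326592) (W3 := 134217728)
    rfl k0_pp_313

noncomputable def f_pm_001 : ℕ → ℕ → ℕ → ℕ → Bool := onCell 0 536870912 536870912 536870912 201326592 134217728
    (rowF 0 false true false .up 0 0 1 (qsf 0 536870912 536870912 536870912 0) ndF1q0 ndF3q1 pcF0 Cut.none Ext.none)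

def k0_pm_001 : ∃ t, chk3 f_pm_001 t 1 1 1 = true :=
  ⟨(l 4), by decide +kernel⟩

theorem c_pm_001 : CertF 0 536870912 536870912 536870912 201326592 134217728 false true false .up 0 0 1
    ndF1q0 ndF3q1 pcF0 Cut.none Ext.none :=
  certF0 (fam := false) (s1 := true) (s2 := false) (a := 0) (b := 0) (c := 1) (cn := .up) (n1 := ndF1q0) (n2 := ndF3q1) (pc := pcF0) (cut := Cut.none) (xt := Ext.none) (P1 := 0) (W1 := 536870912) (P2 := 536870912) (W2 := 536870912) (P3 := 201326592) (W3 := 134217728)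
    rfl k0_pm_001

noncomputable def f_pm_011 : ℕ → ℕ → ℕ → ℕ → Bool := onCell 0 536870912 536870912 536870912 201326592 134217728
    (rowF 0 false true false .pnn 0 1 1 (qsf 0 536870912 536870912 536870912 1) ndF1q0 ndF3q1 pcF1 Cut.none Ext.none)

def k0_pm_011 : ∃ t, chk3 f_pm_011 t 1 1 1 = true :=
  ⟨(l 4), by decide +kernel⟩

theorem c_pm_011 : CertF 0 536870912 536870912 536870912 201326592 134217728 false true false .pnn 0 1 1
    ndF1q0 ndF3q1 pcF1 Cut.none Ext.none :=
  certF0 (fam := false) (s1 := true) (s2 := false) (a := 0) (b := 1) (c := 1) (cn := .pnn) (n1 := ndF1q0) (n2 := ndF3q1) (pc := pcF1) (cut := Cut.none) (xt := Ext.none) (P1 := 0) (W1 := 536870912) (P2 := 536870912) (W2 := 536870912) (P3 := 201326592) (W3 := 134217728)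
    rfl k0_pm_011

noncomputable def f_pm_012 : ℕ → ℕ → ℕ → ℕ → Bool := onCell 0 536870912 1073741824 536870912 201326592 134217728
    (rowF 0 false true false .pnp 0 1 2 (qsf 0 536870912 1073741824 536870912 1) ndF1q0 ndF3q2 pcF1 Cut.none Ext.none)

def k0_pm_012 : ∃ t, chk3 f_pm_012 t 1 1 1 = true :=
  ⟨(l 4), by decide +kernel⟩

theorem c_pm_012 : CertF 0 536870912 1073741824 536870912 201326592 134217728 false true false .pnp 0 1 2
    ndF1q0 ndF3q2 pcF1 Cut.none Ext.none :=
  certF0 (fam := false) (s1 := true) (s2 := false) (a := 0) (b := 1) (c := 2) (cn := .pnp) (n1 := ndF1q0) (n2 := ndF3q2) (pc := pcF1) (cut := Cut.none) (xt := Ext.none) (P1 := 0) (W1 := 536870912) (P2 := 1073741824) (W2 := 536870912) (P3 := 201326592) (W3 := 134217728)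
    rfl k0_pm_012

noncomputable def f_pm_022 : ℕ → ℕ → ℕ → ℕ → Bool := onCell 0 536870912 1073741824 536870912 201326592 134217728
    (rowF 0 false true false .pp 0 2 2 (qsf 0 536870912 1073741824 536870912 2) ndF1q0 ndF3q2 pcF2 Cut.none Ext.none)

def k0_pm_022 : ∃ t, chk3 f_pm_022 t 1 1 1 = true :=
  ⟨(l 4), by decide +kernel⟩

theorem c_pm_022 : CertF 0 536870912 1073741824 536870912 201326592 134217728 false true false .pp 0 2 2
    ndF1q0 ndF3q2 pcF2 Cut.none Ext.none :=
  certF0 (fam := false) (s1 := true) (s2 := false) (a := 0) (b := 2) (c := 2) (cn := .pp) (n1 := ndF1q0) (n2 := ndF3q2) (pc := pcF2) (cut := Cut.none) (xt := Ext.none) (P1 := 0) (W1 := 536870912) (P2 := 1073741824) (W2 := 536870912) (P3 := 201326592) (W3 := 134217728)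
    rfl k0_pm_022

noncomputable def f_pm_023 : ℕ → ℕ → ℕ → ℕ → Bool := onCell 0 536870912 0 1230186008 201326592 134217728
    (rowF 0 false true false .up 0 2 3 (qsf 0 536870912 0 1230186008 2) ndF1q0 ndF3q3 pcF2 Cut.none Ext.none)

def k0_pm_023 : ∃ t, chk3 f_pm_023 t 1 1 1 = true :=
  ⟨(b (b (a (l 2) (a (l 2) (a (l 2) (l 17595176)))) (l 4)) (b (l 4) (l 4))), by decide +kernel⟩

theorem c_pm_023 : CertF 0 536870912 0 1230186008 201326592 134217728 false true false .up 0 2 3
    ndF1q0 ndF3q3 pcF2 Cut.none Ext.none :=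
  certF0 (fam := false) (s1 := true) (s2 := false) (a := 0) (b := 2) (c := 3) (cn := .up) (n1 := ndF1q0) (n2 := ndF3q3) (pc := pcF2) (cut := Cut.none) (xt := Ext.none) (P1 := 0) (W1 := 536870912) (P2 := 0) (W2 := 1230186008) (P3 := 201326592) (W3 := 134217728)
    rfl k0_pm_023

noncomputable def f_pm_033 : ℕ → ℕ → ℕ → ℕ → Bool := onCell 0 536870912 0 1230186008 201326592 134217728
    (rowF 0 false true false .pnn 0 3 3 (qsf 0 536870912 0 1230186008 3) ndF1q0 ndF3q3 pcF3 Cut.none Ext.none)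

def k0_pm_033 : ∃ t, chk3 f_pm_033 t 1 1 1 = true :=
  ⟨(b (a (l 4) (a (l 4) (b (a (l 4) (l 17593976)) (l 4)))) (b (l 4) (l 4))), by decide +kernel⟩

theorem c_pm_033 : CertF 0 536870912 0 1230186008 201326592 134217728 false true false .pnn 0 3 3
    ndF1q0 ndF3q3 pcF3 Cut.none Ext.none :=
  certF0 (fam := false) (s1 := true) (s2 := false) (a := 0) (b := 3) (c := 3) (cn := .pnn) (n1 := ndF1q0) (n2 := ndF3q3) (pc := pcF3) (cut := Cut.none) (xt := Ext.none) (P1 := 0) (W1 := 536870912) (P2 := 0) (W2 := 1230186008) (P3 := 201326592) (W3 := 134217728)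
    rfl k0_pm_033

noncomputable def f_pm_101 : ℕ → ℕ → ℕ → ℕ → Bool := onCell 536870912 536870912 536870912 536870912 201326592 134217728
    (rowF 0 false true false .npn 1 0 1 (qsf 536870912 536870912 536870912 536870912 0) ndF1q1 ndF3q1 pcF0 Cut.none Ext.none)

def k0_pm_101 : ∃ t, chk3 f_pm_101 t 1 1 1 = true :=
  ⟨(l 4), by decide +kernel⟩

theorem c_pm_101 : CertF 536870912 536870912 536870912 536870912 201326592 134217728 false true false .npn 1 0 1
    ndF1q1 ndF3q1 pcF0 Cut.none Ext.none :=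
  certF0 (fam := false) (s1 := true) (s2 := false) (a := 1) (b := 0) (c := 1) (cn := .npn) (n1 := ndF1q1) (n2 := ndF3q1) (pc := pcF0) (cut := Cut.none) (xt := Ext.none) (P1 := 536870912) (W1 := 536870912) (P2 := 536870912) (W2 := 536870912) (P3 := 201326592) (W3 := 134217728)
    rfl k0_pm_101

noncomputable def f_pm_102 : ℕ → ℕ → ℕ → ℕ → Bool := onCell 536870912 536870912 1073741824 536870912 201326592 134217728
    (rowF 0 false true false .npp 1 0 2 (qsf 536870912 536870912 1073741824 536870912 0) ndF1q1 ndF3q2 pcF0 Cut.none Ext.none)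

def k0_pm_102 : ∃ t, chk3 f_pm_102 t 1 1 1 = true :=
  ⟨(a (l 4) (b (a (l 4) (b (b (c (l 18298960) (a (l 4) (l 17830304))) (b (a (l 4) (l 17957152)) (b (l 18143536) (a (l 17931784) (l 17935624))))) (b (b (a (b (l 17929816) (l 17923856)) (b (l 17924712) (l 17909328))) (a (l 17906720) (l 17878400))) (a (l 17898736) (l 17823248))))) (b (a (l 4) (a (b (l 17824056) (b (l 17759800) (l 17701216))) (b (l 17732296) (l 17607864)))) (a (b (a (l 2) (a (l 2) (l 17799744))) (l 2)) (b (a (b (l 17656408) (l 17618296)) (l 17528592)) (a (l 17739536) (a (l 17415408) (l 17422808)))))))), by decide +kernel⟩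

theorem c_pm_102 : CertF 536870912 536870912 1073741824 536870912 201326592 134217728 false true false .npp 1 0 2
    ndF1q1 ndF3q2 pcF0 Cut.none Ext.none :=
  certF0 (fam := false) (s1 := true) (s2 := false) (a := 1) (b := 0) (c := 2) (cn := .npp) (n1 := ndF1q1) (n2 := ndF3q2) (pc := pcF0) (cut := Cut.none) (xt := Ext.none) (P1 := 536870912) (W1 := 536870912) (P2 := 1073741824) (W2 := 536870912) (P3 := 201326592) (W3 := 134217728)
    rfl k0_pm_102

noncomputable def f_pm_112 : ℕ → ℕ → ℕ → ℕ → Bool := onCell 536870912 536870912 1073741824 536870912 201326592 134217728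
    (rowF 2 false true false .dn 1 1 2 (qsf 536870912 536870912 1073741824 536870912 1) ndF1q1 ndF3q2 pcF1 Cut.none Ext.none)

def k0_pm_112 : ∃ t, chk3 f_pm_112 t 1 1 1 = true :=
  ⟨(a (b (l 4) (b (b (l 4) (l 176331393655)) (b (l 17880448) (a (a (l 17685408) (l 17795744)) (l 17914360))))) (l 4)), by decide +kernel⟩

theorem c_pm_112 : CertF 536870912 536870912 1073741824 536870912 201326592 134217728 false true false .dn 1 1 2
    ndF1q1 ndF3q2 pcF1 Cut.none Ext.none :=
  certF2 (fam := false) (s1 := true) (s2 := false) (a := 1) (b := 1) (c := 2) (cn := .dn) (n1 := ndF1q1) (n2 := ndF3q2) (pc := pcF1) (cut := Cut.none) (xt := Ext.none) (P1 := 536870912) (W1 := 536870912) (P2 := 1073741824) (W2 := 536870912) (P3 := 201326592) (W3 := 134217728)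
    rfl (fun _ => rfl) k0_pm_112

noncomputable def f_pm_113 : ℕ → ℕ → ℕ → ℕ → Bool := onCell 536870912 536870912 0 1230186008 201326592 134217728
    (rowF 2 false true false .nn 1 1 3 (qsf 536870912 536870912 0 1230186008 1) ndF1q1 ndF3q3 pcF1 Cut.none Ext.none)

def k0_pm_113 : ∃ t, chk3 f_pm_113 t 1 1 1 = true :=
  ⟨(b (a (l 2) (a (l 2) (b (l 561668240791) (l 352288914823)))) (b (a (a (l 2) (a (l 2) (b (l 2) (b (l 2) (l 17115872))))) (a (b (a (l 2) (l 17048888)) (a (l 17187264) (l 17367840))) (a (b (l 17246712) (l 17566656)) (l 17634848)))) (b (a (a (l 2) (a (b (l 17146840) (l 17297312)) (l 17355792))) (a (a (l 17521368) (l 17704592)) (a (l 17883288) (l 18028912)))) (a (a (a (b (l 2) (l 17399896)) (l 17661080)) (a (l 17679576) (l 17680136))) (a (l 18039160) (l 4)))))), by decide +kernel⟩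

theorem c_pm_113 : CertF 536870912 536870912 0 1230186008 201326592 134217728 false true false .nn 1 1 3
    ndF1q1 ndF3q3 pcF1 Cut.none Ext.none :=
  certF2 (fam := false) (s1 := true) (s2 := false) (a := 1) (b := 1) (c := 3) (cn := .nn) (n1 := ndF1q1) (n2 := ndF3q3) (pc := pcF1) (cut := Cut.none) (xt := Ext.none) (P1 := 536870912) (W1 := 536870912) (P2 := 0) (W2 := 1230186008) (P3 := 201326592) (W3 := 134217728)
    rfl (fun _ => rfl) k0_pm_113

noncomputable def f_pm_123 : ℕ → ℕ → ℕ → ℕ → Bool := onCell 1073741824 536870912 0 1230186008 201326592 134217728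
    (rowF 2 false true false .npn 1 2 3 (qsf 536870912 536870912 0 1230186008 2) ndF1q1 ndF3q3 pcF2 Cut.none Ext.none)

def k0_pm_123 : ∃ t, chk3 f_pm_123 t 1 1 1 = true :=
  ⟨(a (b (b (a (a (l 17124888) (a (l 17166384) (l 17194584))) (l 17250256)) (a (b (l 17289688) (l 17453440)) (l 17419976))) (b (a (b (l 17658080) (l 17863624)) (l 17670728)) (a (l 182237293479) (l 4)))) (b (a (l 17271128) (l 17179496)) (b (a (l 17530944) (l 4)) (l 1)))), by decide +kernel⟩

theorem c_pm_123 : CertF 536870912 536870912 0 1230186008 201326592 134217728 false true false .npn 1 2 3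
    ndF1q1 ndF3q3 pcF2 Cut.none Ext.none :=
  certF2 (fam := false) (s1 := true) (s2 := false) (a := 1) (b := 2) (c := 3) (cn := .npn) (n1 := ndF1q1) (n2 := ndF3q3) (pc := pcF2) (cut := Cut.none) (xt := Ext.none) (P1 := 536870912) (W1 := 536870912) (P2 := 0) (W2 := 1230186008) (P3 := 201326592) (W3 := 134217728)
    rfl (fun _ => rfl) k0_pm_123

noncomputable def f_pm_133 : ℕ → ℕ → ℕ → ℕ → Bool := onCell 536870912 536870912 0 1230186008 201326592 134217728
    (rowF 0 false true false .dn 1 3 3 (qsf 536870912 536870912 0 1230186008 3) ndF1q1 ndF3q3 pcF3 Cut.none Ext.none)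

def k0_pm_133 : ∃ t, chk3 f_pm_133 t 1 1 1 = true :=
  ⟨(b (b (a (a (a (l 17126024) (l 1)) (l 1)) (l 1)) (l 1)) (l 1)), by decide +kernel⟩

theorem c_pm_133 : CertF 536870912 536870912 0 1230186008 201326592 134217728 false true false .dn 1 3 3
    ndF1q1 ndF3q3 pcF3 Cut.none Ext.none :=
  certF0 (fam := false) (s1 := true) (s2 := false) (a := 1) (b := 3) (c := 3) (cn := .dn) (n1 := ndF1q1) (n2 := ndF3q3) (pc := pcF3) (cut := Cut.none) (xt := Ext.none) (P1 := 536870912) (W1 := 536870912) (P2 := 0) (W2 := 1230186008) (P3 := 201326592) (W3 := 134217728)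
    rfl k0_pm_133

noncomputable def f_pm_202_a : ℕ → ℕ → ℕ → ℕ → Bool := onCell 0 536870912 1073741824 536870912 201326592 134217728
    (rowF 0 false true false .pp 2 0 2 (qsf 0 536870912 1073741824 536870912 0) ndF1q2a ndF3q2 pcF0 Cut.none Ext.none)

def k0_pm_202_a : ∃ t, chk3 f_pm_202_a t 2 2 1 = true :=
  ⟨(a (b (l 1) (l 3)) (b (a (l 1) (b (l 1) (b (l 1) (b (l 1) (b (l 1) (l 498786648535)))))) (b (b (b (a (b (l 1) (a (b (l 1) (c (l 745209909975) (l 741988700023))) (b (l 717292795527) (c (l 16526584) (l 16507248))))) (b (a (l 583075224647) (l 16650648)) (c (l 16584984) (l 16629648)))) (c (b (a (a (a (l 3) (l 135995595383)) (b (l 16561544) (l 16528752))) (a (l 16528016) (l 16564600))) (a (a (b (l 135458661239) (b (l 135458679639) (a (l 3) (l 139753687175)))) (b (l 16504048) (b (l 16523584) (a (l 16518840) (l 16505544))))) (b (l 16518712) (a (l 16597504) (l 16549888))))) (a (b (a (l 125795031191) (a (l 16559000) (l 16507360))) (b (l 132237451767) (a (b (l 141364297511)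 (l 135995566695)) (b (l 16491744) (l 16553792))))) (b (l 16588704) (b (l 16520152) (a (l 16554096) (l 16537608))))))) (a (a (b (l 3) (l 3)) (b (b (c (a (l 16495864) (l 16482608)) (l 16511448)) (c (l 139216805687) (l 16490472))) (c (c (l 132774314967) (l 16518184)) (l 140290590007)))) (c (b (a (l 16509816) (l 16501424)) (a (l 16488392) (l 16502904))) (a (b (l 16499184) (l 16500000)) (b (l 16510368) (l 16513984)))))) (c (a (a (l 3) (b (b (l 138143056839) (l 138680199671)) (b (l 139753740471) (l 140827814407)))) (b (a (c (l 16540848) (l 16540296)) (l 16533424)) (a (b (l 16543560) (l 16708368)) (l 16632952)))) (a (a (l 3) (b (b (l 121499964839) (l 140827430119)) (l 141364336807))) (b (b (l 16565568) (l 16510544)) (b (l 16525576) (l 16531960)))))))), by decide +kernel⟩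

def k1_pm_202_a : ∃ t, chk3 f_pm_202_a t 2 3 1 = true :=
  ⟨(b (a (l 3) (a (l 3) (b (b (c (a (b (l 16817752) (l 134385453303)) (l 16892448)) (b (l 134384984535) (l 134384934183))) (b (c (l 131164480823) (l 135995489543)) (c (l 132238361431) (l 135995926487)))) (b (b (c (l 133312494647) (l 137606525879)) (a (l 3) (c (l 17189144) (l 16725552)))) (a (l 3) (b (c (l 130627992167) (l 135459182695)) (c (l 133312697623) (l 137606908039)))))))) (b (a (l 3) (a (l 3) (b (a (l 3) (c (b (l 137070866167) (l 141902397495)) (b (l 140828230983) (l 144586219223)))) (l 3)))) (l 3))), by decide +kernel⟩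

def k2_pm_202_a : ∃ t, chk3 f_pm_202_a t 3 2 1 = true :=
  ⟨(a (b (b (l 1) (b (a (l 1) (b (a (l 1) (l 16957616)) (l 16899904))) (b (a (l 178274728519) (l 16847040)) (a (b (l 16759352) (l 16727784)) (l 16956760))))) (b (b (b (a (b (l 16692920) (l 16653104)) (l 16830784)) (b (a (l 16611704) (l 16669376)) (a (b (l 16578704) (b (l 16561352) (l 16528224))) (b (l 16638824) (l 16617832))))) (a (c (b (l 16532104) (l 16528016)) (b (l 16539592) (l 16536648))) (b (l 16557136) (l 16566504)))) (b (a (b (l 16616888) (c (l 16519264) (l 16531800))) (b (l 16568968) (l 16546888))) (a (c (l 16641424) (l 16513368)) (c (l 16664544) (l 16557864)))))) (b (a (b (a (b (l 1) (b (l 1) (l 17015672))) (b (l 1) (b (b (l 17080928) (l 17062360)) (l 17032800)))) (b (a (l 16950016) (l 16967488)) (b (l 16886944) (l 16918072)))) (b (b (c (a (l 43521201863) (l 17211280)) (a (a (l 91839279623) (l 17085776)) (l 17188200))) (a (b (l 17087320) (l 17050512)) (b (l 17101912) (l 17070304)))) (b (a (l 16986696) (l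 17009872)) (b (l 16933592) (l 16948608))))) (b (b (b (a (l 16818600) (l 16854184)) (b (a (l 16724464) (l 16784960)) (a (l 16813736) (l 16897976)))) (a (b (l 16631232) (l 16612872)) (b (l 16697392) (l 16677776)))) (b (a (l 16610968) (l 16673672)) (a (l 16602904) (l 16662800)))))), by decide +kernel⟩

def k3_pm_202_a : ∃ t, chk3 f_pm_202_a t 3 3 1 = true :=
  ⟨(b (b (a (a (b (c (l 16892400) (l 16477640)) (c (l 17055080) (l 16544688))) (b (l 16617240) (l 16808392))) (a (b (l 16660256) (l 16828232)) (b (l 16726896) (l 16865080)))) (a (a (b (c (l 17163296) (a (l 16716296) (l 16717824))) (b (c (l 17221808) (l 16811560)) (c (l 17253776) (l 16863472)))) (b (c (l 17155880) (l 16724152)) (c (l 17230488) (l 16835592)))) (b (a (l 16944024) (l 16961944)) (a (l 17028760) (l 17034632))))) (b (a (b (a (c (b (l 17281256) (l 17303416)) (b (l 16913040) (l 16959888))) (c (l 17290032) (l 16935656))) (a (c (l 17327760) (l 17018576)) (l 17176320))) (b (a (l 17110224) (l 17116008)) (a (l 17180344)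 (l 17191272)))) (a (a (c (l 134386799287) (b (l 17077936) (l 17119032))) (c (l 17360080) (l 17111264))) (a (l 17246488) (l 17263408))))), by decide +kernel⟩

theorem s4_pm_202_a : ∃ t, chk3 f_pm_202_a t 3 1 1 = true := ex3_b k2_pm_202_a k3_pm_202_a

theorem s5_pm_202_a : ∃ t, chk3 f_pm_202_a t 2 1 1 = true := ex3_b k0_pm_202_a k1_pm_202_a

theorem s6_pm_202_a : ∃ t, chk3 f_pm_202_a t 1 1 1 = true := ex3_a s5_pm_202_a s4_pm_202_a

theorem c_pm_202_a : CertF 0 536870912 1073741824 536870912 201326592 134217728 false true false .pp 2 0 2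
    ndF1q2a ndF3q2 pcF0 Cut.none Ext.none :=
  certF0 (fam := false) (s1 := true) (s2 := false) (a := 2) (b := 0) (c := 2) (cn := .pp) (n1 := ndF1q2a) (n2 := ndF3q2) (pc := pcF0) (cut := Cut.none) (xt := Ext.none) (P1 := 0) (W1 := 536870912) (P2 := 1073741824) (W2 := 536870912) (P3 := 201326592) (W3 := 134217728)
    rfl s6_pm_202_a

noncomputable def f_pm_202_b : ℕ → ℕ → ℕ → ℕ → Bool := onCell 1239849684 370763052 0 536870912 201326592 134217728
    (rowF 1 false true false .pp 2 0 2 (qsf 1239849684 370763052 1073741824 536870912 0) ndF1q2b ndF3q2 pcF0 Cut.none Ext.none)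

def k0_pm_202_b : ∃ t, chk3 f_pm_202_b t 1 1 1 = true :=
  ⟨(b (l 3) (l 3)), by decide +kernel⟩

theorem c_pm_202_b : CertF 1239849684 370763052 1073741824 536870912 201326592 134217728 false true false .pp 2 0 2
    ndF1q2b ndF3q2 pcF0 Cut.none Ext.none :=
  certF1 (fam := false) (s1 := true) (s2 := false) (a := 2) (b := 0) (c := 2) (cn := .pp) (n1 := ndF1q2b) (n2 := ndF3q2) (pc := pcF0) (cut := Cut.none) (xt := Ext.none) (P1 := 1239849684) (W1 := 370763052) (P2 := 1073741824) (W2 := 536870912) (P3 := 201326592) (W3 := 134217728)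
    rfl (fun _ => rfl) k0_pm_202_b

noncomputable def f_pm_203_a : ℕ → ℕ → ℕ → ℕ → Bool := onCell 0 536870912 0 1230186008 201326592 134217728
    (rowF 0 false true false .up 2 0 3 (qsf 0 536870912 0 1230186008 0) ndF1q2a ndF3q3 pcF0 Cut.none Ext.none)

def k0_pm_203_a : ∃ t, chk3 f_pm_203_a t 1 1 1 = true :=
  ⟨(b (l 2) (b (l 2) (b (a (l 3) (l 2)) (a (l 3) (a (b (a (c (l 225654792615) (l 233707547751)) (c (l 17365904) (b (l 2) (l 17175288)))) (a (a (l 3) (b (l 133849284567) (c (l 17398432) (l 17139032)))) (c (b (l 17398560) (l 17411792)) (b (l 17165928) (l 17142672))))) (b (a (c (l 17408160) (l 17203616)) (l 2)) (a (c (l 17433296) (l 17210720)) (c (l 17467968) (l 17189520))))))))), by decide +kernel⟩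

theorem c_pm_203_a : CertF 0 536870912 0 1230186008 201326592 134217728 false true false .up 2 0 3
    ndF1q2a ndF3q3 pcF0 Cut.none Ext.none :=
  certF0 (fam := false) (s1 := true) (s2 := false) (a := 2) (b := 0) (c := 3) (cn := .up) (n1 := ndF1q2a) (n2 := ndF3q3) (pc := pcF0) (cut := Cut.none) (xt := Ext.none) (P1 := 0) (W1 := 536870912) (P2 := 0) (W2 := 1230186008) (P3 := 201326592) (W3 := 134217728)
    rfl k0_pm_203_a

noncomputable def f_pm_203_b : ℕ → ℕ → ℕ → ℕ → Bool := onCell 1239849684 370763052 0 1230186008 201326592 134217728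
    (rowF 0 false true false .up 2 0 3 (qsf 1239849684 370763052 0 1230186008 0) ndF1q2b ndF3q3 pcF0 Cut.none Ext.none)

def k0_pm_203_b : ∃ t, chk3 f_pm_203_b t 1 1 1 = true :=
  ⟨(b (l 3) (b (l 3) (l 3))), by decide +kernel⟩

theorem c_pm_203_b : CertF 1239849684 370763052 0 1230186008 201326592 134217728 false true false .up 2 0 3
    ndF1q2b ndF3q3 pcF0 Cut.none Ext.none :=
  certF0 (fam := false) (s1 := true) (s2 := false) (a := 2) (b := 0) (c := 3) (cn := .up) (n1 := ndF1q2b) (n2 := ndF3q3) (pc := pcF0) (cut := Cut.none) (xt := Ext.none) (P1 := 1239849684) (W1 := 370763052) (P2 := 0) (W2 := 1230186008) (P3 := 201326592) (W3 := 134217728)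
    rfl k0_pm_203_b

noncomputable def cut_pm_213_a : Cut := Cut.of [[⟨0, 1, 0, 57167902⟩, ⟨1, 1, 0, 57167902⟩, ⟨2, 2, 0, 11758673⟩]]

noncomputable def f_pm_213_a : ℕ → ℕ → ℕ → ℕ → Bool := onCell 0 536870912 0 1230186008 201326592 134217728
    (rowF 0 false true false .pnn 2 1 3 (qsf 0 536870912 0 1230186008 1) ndF1q2a ndF3q3 pcF1 cut_pm_213_a Ext.none)

def k0_pm_213_a : ∃ t, chk3 f_pm_213_a t 1 1 1 = true :=
  ⟨(b (a (l 3) (b (a (l 3) (a (l 3) (b (l 6) (a (b (l 3) (l 336249036807)) (b (b (l 6) (l 182167124871)) (a (l 16836352) (l 16820768))))))) (a (l 3) (b (a (l 3) (a (b (l 189146489863) (l 186462277223)) (b (l 16863312) (l 16871712)))) (a (a (l 3) (b (l 345375998423) (l 185925433847))) (b (a (l 16894272) (l 16906176)) (l 17023104))))))) (b (a (l 3) (a (b (l 3) (a (l 3) (b (l 3) (a (l 3) (l 174651528055))))) (b (a (b (a (l 3) (l 16970056)) (a (l 206863571879) (l 17019784))) (b (l 16984136) (l 17034080))) (a (b (a (l 185388858503) (l 17074560)) (b (l 17115192) (l 17144080)))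 (b (l 17088056) (l 17145616)))))) (b (a (l 3) (a (a (l 3) (b (c (l 164451343975) (l 165524915591)) (c (l 158009032983) (a (l 199884569895) (l 17155872))))) (a (b (c (l 17236032) (l 17134144)) (c (l 17291568) (l 17164840))) (b (l 17201176) (l 17247880))))) (a (l 3) (b (a (a (c (l 249277279607) (l 246055418791)) (c (l 151566930487) (b (l 17163552) (l 17161192)))) (a (c (l 17329864) (l 17174624)) (l 17277352))) (a (l 1) (a (b (l 17252136) (l 1)) (l 17344008)))))))), by decide +kernel⟩

theorem c_pm_213_a : CertF 0 536870912 0 1230186008 201326592 134217728 false true false .pnn 2 1 3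
    ndF1q2a ndF3q3 pcF1 cut_pm_213_a Ext.none :=
  certF0 (fam := false) (s1 := true) (s2 := false) (a := 2) (b := 1) (c := 3) (cn := .pnn) (n1 := ndF1q2a) (n2 := ndF3q3) (pc := pcF1) (cut := cut_pm_213_a) (xt := Ext.none) (P1 := 0) (W1 := 536870912) (P2 := 0) (W2 := 1230186008) (P3 := 201326592) (W3 := 134217728)
    rfl k0_pm_213_a

noncomputable def cut_pm_213_b : Cut := Cut.of [[⟨0, 1, 0, 57167902⟩, ⟨1, 1, 0, 57167902⟩, ⟨2, 2, 0, 11758673⟩]]

noncomputable def f_pm_213_b : ℕ → ℕ → ℕ → ℕ → Bool := onCell 1239849684 370763052 0 1230186008 201326592 134217728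
    (rowF 0 false true false .pnn 2 1 3 (qsf 1239849684 370763052 0 1230186008 1) ndF1q2b ndF3q3 pcF1 cut_pm_213_b Ext.none)

def k0_pm_213_b : ∃ t, chk3 f_pm_213_b t 1 1 1 = true :=
  ⟨(b (l 3) (b (l 3) (l 3))), by decide +kernel⟩

theorem c_pm_213_b : CertF 1239849684 370763052 0 1230186008 201326592 134217728 false true false .pnn 2 1 3
    ndF1q2b ndF3q3 pcF1 cut_pm_213_b Ext.none :=
  certF0 (fam := false) (s1 := true) (s2 := false) (a := 2) (b := 1) (c := 3) (cn := .pnn) (n1 := ndF1q2b) (n2 := ndF3q3) (pc := pcF1) (cut := cut_pm_213_b) (xt := Ext.none) (P1 := 1239849684) (W1 := 370763052) (P2 := 0) (W2 := 1230186008) (P3 := 201326592) (W3 := 134217728)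
    rfl k0_pm_213_b

noncomputable def f_pm_303 : ℕ → ℕ → ℕ → ℕ → Bool := onCell 1610612736 536870912 0 1230186008 201326592 134217728
    (rowF 0 false true false .npn 3 0 3 (qsf 1610612736 536870912 0 1230186008 0) ndF1q3 ndF3q3 pcF0 Cut.none Ext.none)

def k0_pm_303 : ∃ t, chk3 f_pm_303 t 1 1 1 = true :=
  ⟨(b (l 3) (l 3)), by decide +kernel⟩

theorem c_pm_303 : CertF 1610612736 536870912 0 1230186008 201326592 134217728 false true false .npn 3 0 3
    ndF1q3 ndF3q3 pcF0 Cut.none Ext.none :=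
  certF0 (fam := false) (s1 := true) (s2 := false) (a := 3) (b := 0) (c := 3) (cn := .npn) (n1 := ndF1q3) (n2 := ndF3q3) (pc := pcF0) (cut := Cut.none) (xt := Ext.none) (P1 := 1610612736) (W1 := 536870912) (P2 := 0) (W2 := 1230186008) (P3 := 201326592) (W3 := 134217728)
    rfl k0_pm_303

noncomputable def f_pm_313 : ℕ → ℕ → ℕ → ℕ → Bool := onCell 1610612736 536870912 0 1230186008 201326592 134217728
    (rowF 0 false true false .dn 3 1 3 (qsf 1610612736 536870912 0 1230186008 1) ndF1q3 ndF3q3 pcF1 Cut.none Ext.none)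

def k0_pm_313 : ∃ t, chk3 f_pm_313 t 1 1 1 = true :=
  ⟨(b (l 3) (l 1)), by decide +kernel⟩

theorem c_pm_313 : CertF 1610612736 536870912 0 1230186008 201326592 134217728 false true false .dn 3 1 3
    ndF1q3 ndF3q3 pcF1 Cut.none Ext.none :=
  certF0 (fam := false) (s1 := true) (s2 := false) (a := 3) (b := 1) (c := 3) (cn := .dn) (n1 := ndF1q3) (n2 := ndF3q3) (pc := pcF1) (cut := Cut.none) (xt := Ext.none) (P1 := 1610612736) (W1 := 536870912) (P2 := 0) (W2 := 1230186008) (P3 := 201326592) (W3 := 134217728)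
    rfl k0_pm_313

noncomputable def f_mm_001 : ℕ → ℕ → ℕ → ℕ → Bool := onCell 0 536870912 0 536870912 201326592 134217728
    (rowF 1 false false false .up 0 0 1 (qsf 0 536870912 536870912 536870912 0) ndF1q0 ndF3q1 pcF0 Cut.none Ext.none)

def k0_mm_001 : ∃ t, chk3 f_mm_001 t 1 1 1 = true :=
  ⟨(l 3), by decide +kernel⟩

theorem c_mm_001 : CertF 0 536870912 536870912 536870912 201326592 134217728 false false false .up 0 0 1
    ndF1q0 ndF3q1 pcF0 Cut.none Ext.none :=
  certF1 (fam := false) (s1 := false) (s2 := false) (a := 0) (b := 0) (c := 1) (cn := .up) (n1 := ndF1q0) (n2 := ndF3q1) (pc := pcF0) (cut := Cut.none) (xt := Ext.none) (P1 := 0) (W1 := 536870912) (P2 := 536870912) (W2 := 536870912) (P3 := 201326592) (W3 := 134217728)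
    rfl (fun _ => rfl) k0_mm_001

noncomputable def f_mm_011 : ℕ → ℕ → ℕ → ℕ → Bool := onCell 0 536870912 536870912 536870912 201326592 134217728
    (rowF 1 false false false .pnn 0 1 1 (qsf 0 536870912 536870912 536870912 1) ndF1q0 ndF3q1 pcF1 Cut.none Ext.none)

def k0_mm_011 : ∃ t, chk3 f_mm_011 t 1 1 1 = true :=
  ⟨(l 5), by decide +kernel⟩

theorem c_mm_011 : CertF 0 536870912 536870912 536870912 201326592 134217728 false false false .pnn 0 1 1
    ndF1q0 ndF3q1 pcF1 Cut.none Ext.none :=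
  certF1 (fam := false) (s1 := false) (s2 := false) (a := 0) (b := 1) (c := 1) (cn := .pnn) (n1 := ndF1q0) (n2 := ndF3q1) (pc := pcF1) (cut := Cut.none) (xt := Ext.none) (P1 := 0) (W1 := 536870912) (P2 := 536870912) (W2 := 536870912) (P3 := 201326592) (W3 := 134217728)
    rfl (fun _ => rfl) k0_mm_011

noncomputable def f_mm_012 : ℕ → ℕ → ℕ → ℕ → Bool := onCell 0 536870912 1073741824 536870912 201326592 134217728
    (rowF 0 false false false .pnp 0 1 2 (qsf 0 536870912 1073741824 536870912 1) ndF1q0 ndF3q2 pcF1 Cut.none Ext.none)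

def k0_mm_012 : ∃ t, chk3 f_mm_012 t 1 1 1 = true :=
  ⟨(l 5), by decide +kernel⟩

theorem c_mm_012 : CertF 0 536870912 1073741824 536870912 201326592 134217728 false false false .pnp 0 1 2
    ndF1q0 ndF3q2 pcF1 Cut.none Ext.none :=
  certF0 (fam := false) (s1 := false) (s2 := false) (a := 0) (b := 1) (c := 2) (cn := .pnp) (n1 := ndF1q0) (n2 := ndF3q2) (pc := pcF1) (cut := Cut.none) (xt := Ext.none) (P1 := 0) (W1 := 536870912) (P2 := 1073741824) (W2 := 536870912) (P3 := 201326592) (W3 := 134217728)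
    rfl k0_mm_012

noncomputable def f_mm_022 : ℕ → ℕ → ℕ → ℕ → Bool := onCell 0 536870912 1073741824 536870912 201326592 134217728
    (rowF 0 false false false .pp 0 2 2 (qsf 0 536870912 1073741824 536870912 2) ndF1q0 ndF3q2 pcF2 Cut.none Ext.none)

def k0_mm_022 : ∃ t, chk3 f_mm_022 t 1 1 1 = true :=
  ⟨(l 5), by decide +kernel⟩

theorem c_mm_022 : CertF 0 536870912 1073741824 536870912 201326592 134217728 false false false .pp 0 2 2
    ndF1q0 ndF3q2 pcF2 Cut.none Ext.none :=
  certF0 (fam := false) (s1 := false) (s2 := false) (a := 0) (b := 2) (c := 2) (cn := .pp) (n1 := ndF1q0) (n2 := ndF3q2) (pc := pcF2) (cut := Cut.none) (xt := Ext.none) (P1 := 0) (W1 := 536870912) (P2 := 1073741824) (W2 := 536870912) (P3 := 201326592) (W3 := 134217728)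
    rfl k0_mm_022

noncomputable def f_mm_023 : ℕ → ℕ → ℕ → ℕ → Bool := onCell 0 536870912 0 1230186008 201326592 134217728
    (rowF 0 false false false .up 0 2 3 (qsf 0 536870912 0 1230186008 2) ndF1q0 ndF3q3 pcF2 Cut.none Ext.none)

def k0_mm_023 : ∃ t, chk3 f_mm_023 t 1 1 1 = true :=
  ⟨(l 5), by decide +kernel⟩

theorem c_mm_023 : CertF 0 536870912 0 1230186008 201326592 134217728 false false false .up 0 2 3
    ndF1q0 ndF3q3 pcF2 Cut.none Ext.none :=
  certF0 (fam := false) (s1 := false) (s2 := false) (a := 0) (b := 2) (c := 3) (cn := .up) (n1 := ndF1q0) (n2 := ndF3q3) (pc := pcF2) (cut := Cut.none) (xt := Ext.none) (P1 := 0) (W1 := 536870912) (P2 := 0) (W2 := 1230186008) (P3 := 201326592) (W3 := 134217728)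
    rfl k0_mm_023

noncomputable def f_mm_033 : ℕ → ℕ → ℕ → ℕ → Bool := onCell 0 536870912 0 1230186008 201326592 134217728
    (rowF 0 false false false .pnn 0 3 3 (qsf 0 536870912 0 1230186008 3) ndF1q0 ndF3q3 pcF3 Cut.none Ext.none)

def k0_mm_033 : ∃ t, chk3 f_mm_033 t 1 1 1 = true :=
  ⟨(l 5), by decide +kernel⟩

theorem c_mm_033 : CertF 0 536870912 0 1230186008 201326592 134217728 false false false .pnn 0 3 3
    ndF1q0 ndF3q3 pcF3 Cut.none Ext.none :=
  certF0 (fam := false) (s1 := false) (s2 := false) (a := 0) (b := 3) (c := 3) (cn := .pnn) (n1 := ndF1q0) (n2 := ndF3q3) (pc := pcF3) (cut := Cut.none) (xt := Ext.none) (P1 := 0) (W1 := 536870912) (P2 := 0) (W2 := 1230186008) (P3 := 201326592) (W3 := 134217728)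
    rfl k0_mm_033

noncomputable def f_mm_101 : ℕ → ℕ → ℕ → ℕ → Bool := onCell 536870912 536870912 536870912 536870912 201326592 134217728
    (rowF 0 false false false .npn 1 0 1 (qsf 536870912 536870912 536870912 536870912 0) ndF1q1 ndF3q1 pcF0 Cut.none Ext.none)

def k0_mm_101 : ∃ t, chk3 f_mm_101 t 1 1 1 = true :=
  ⟨(l 3), by decide +kernel⟩

theorem c_mm_101 : CertF 536870912 536870912 536870912 536870912 201326592 134217728 false false false .npn 1 0 1
    ndF1q1 ndF3q1 pcF0 Cut.none Ext.none :=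
  certF0 (fam := false) (s1 := false) (s2 := false) (a := 1) (b := 0) (c := 1) (cn := .npn) (n1 := ndF1q1) (n2 := ndF3q1) (pc := pcF0) (cut := Cut.none) (xt := Ext.none) (P1 := 536870912) (W1 := 536870912) (P2 := 536870912) (W2 := 536870912) (P3 := 201326592) (W3 := 134217728)
    rfl k0_mm_101

noncomputable def f_mm_102 : ℕ → ℕ → ℕ → ℕ → Bool := onCell 536870912 536870912 1073741824 536870912 201326592 134217728
    (rowF 0 false false false .npp 1 0 2 (qsf 536870912 536870912 1073741824 536870912 0) ndF1q1 ndF3q2 pcF0 Cut.none Ext.none)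

def k0_mm_102 : ∃ t, chk3 f_mm_102 t 1 1 1 = true :=
  ⟨(l 5), by decide +kernel⟩

theorem c_mm_102 : CertF 536870912 536870912 1073741824 536870912 201326592 134217728 false false false .npp 1 0 2
    ndF1q1 ndF3q2 pcF0 Cut.none Ext.none :=
  certF0 (fam := false) (s1 := false) (s2 := false) (a := 1) (b := 0) (c := 2) (cn := .npp) (n1 := ndF1q1) (n2 := ndF3q2) (pc := pcF0) (cut := Cut.none) (xt := Ext.none) (P1 := 536870912) (W1 := 536870912) (P2 := 1073741824) (W2 := 536870912) (P3 := 201326592) (W3 := 134217728)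
    rfl k0_mm_102

noncomputable def f_mm_112 : ℕ → ℕ → ℕ → ℕ → Bool := onCell 536870912 536870912 1073741824 536870912 201326592 134217728
    (rowF 0 false false false .dn 1 1 2 (qsf 536870912 536870912 1073741824 536870912 1) ndF1q1 ndF3q2 pcF1 Cut.none Ext.none)

def k0_mm_112 : ∃ t, chk3 f_mm_112 t 1 1 1 = true :=
  ⟨(l 5), by decide +kernel⟩

theorem c_mm_112 : CertF 536870912 536870912 1073741824 536870912 201326592 134217728 false false false .dn 1 1 2
    ndF1q1 ndF3q2 pcF1 Cut.none Ext.none :=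
  certF0 (fam := false) (s1 := false) (s2 := false) (a := 1) (b := 1) (c := 2) (cn := .dn) (n1 := ndF1q1) (n2 := ndF3q2) (pc := pcF1) (cut := Cut.none) (xt := Ext.none) (P1 := 536870912) (W1 := 536870912) (P2 := 1073741824) (W2 := 536870912) (P3 := 201326592) (W3 := 134217728)
    rfl k0_mm_112

noncomputable def f_mm_113 : ℕ → ℕ → ℕ → ℕ → Bool := onCell 536870912 536870912 0 1230186008 201326592 134217728
    (rowF 0 false false false .nn 1 1 3 (qsf 536870912 536870912 0 1230186008 1) ndF1q1 ndF3q3 pcF1 Cut.none Ext.none)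

def k0_mm_113 : ∃ t, chk3 f_mm_113 t 1 1 1 = true :=
  ⟨(l 5), by decide +kernel⟩

theorem c_mm_113 : CertF 536870912 536870912 0 1230186008 201326592 134217728 false false false .nn 1 1 3
    ndF1q1 ndF3q3 pcF1 Cut.none Ext.none :=
  certF0 (fam := false) (s1 := false) (s2 := false) (a := 1) (b := 1) (c := 3) (cn := .nn) (n1 := ndF1q1) (n2 := ndF3q3) (pc := pcF1) (cut := Cut.none) (xt := Ext.none) (P1 := 536870912) (W1 := 536870912) (P2 := 0) (W2 := 1230186008) (P3 := 201326592) (W3 := 134217728)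
    rfl k0_mm_113

noncomputable def f_mm_123 : ℕ → ℕ → ℕ → ℕ → Bool := onCell 536870912 536870912 0 1230186008 201326592 134217728
    (rowF 0 false false false .npn 1 2 3 (qsf 536870912 536870912 0 1230186008 2) ndF1q1 ndF3q3 pcF2 Cut.none Ext.none)

def k0_mm_123 : ∃ t, chk3 f_mm_123 t 1 1 1 = true :=
  ⟨(l 5), by decide +kernel⟩

theorem c_mm_123 : CertF 536870912 536870912 0 1230186008 201326592 134217728 false false false .npn 1 2 3
    ndF1q1 ndF3q3 pcF2 Cut.none Ext.none :=
  certF0 (fam := false) (s1 := false) (s2 := false) (a := 1) (b := 2) (c := 3) (cn := .npn) (n1 := ndF1q1) (n2 := ndF3q3) (pc := pcF2) (cut := Cut.none) (xt := Ext.none) (P1 := 536870912) (W1 := 536870912) (P2 := 0) (W2 := 1230186008) (P3 := 201326592) (W3 := 134217728)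
    rfl k0_mm_123

noncomputable def f_mm_133 : ℕ → ℕ → ℕ → ℕ → Bool := onCell 536870912 536870912 0 1230186008 201326592 134217728
    (rowF 0 false false false .dn 1 3 3 (qsf 536870912 536870912 0 1230186008 3) ndF1q1 ndF3q3 pcF3 Cut.none Ext.none)

def k0_mm_133 : ∃ t, chk3 f_mm_133 t 1 1 1 = true :=
  ⟨(l 5), by decide +kernel⟩

theorem c_mm_133 : CertF 536870912 536870912 0 1230186008 201326592 134217728 false false false .dn 1 3 3
    ndF1q1 ndF3q3 pcF3 Cut.none Ext.none :=
  certF0 (fam := false) (s1 := false) (s2 := false) (a := 1) (b := 3) (c := 3) (cn := .dn) (n1 := ndF1q1) (n2 := ndF3q3) (pc := pcF3) (cut := Cut.none) (xt := Ext.none) (P1 := 536870912) (W1 := 536870912) (P2 := 0) (W2 := 1230186008) (P3 := 201326592) (W3 := 134217728)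
    rfl k0_mm_133

noncomputable def f_mm_202_a : ℕ → ℕ → ℕ → ℕ → Bool := onCell 0 536870912 1073741824 536870912 201326592 134217728
    (rowF 0 false false false .pp 2 0 2 (qsf 0 536870912 1073741824 536870912 0) ndF1q2a ndF3q2 pcF0 Cut.none Ext.none)

def k0_mm_202_a : ∃ t, chk3 f_mm_202_a t 1 1 1 = true :=
  ⟨(l 3), by decide +kernel⟩

theorem c_mm_202_a : CertF 0 536870912 1073741824 536870912 201326592 134217728 false false false .pp 2 0 2
    ndF1q2a ndF3q2 pcF0 Cut.none Ext.none :=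
  certF0 (fam := false) (s1 := false) (s2 := false) (a := 2) (b := 0) (c := 2) (cn := .pp) (n1 := ndF1q2a) (n2 := ndF3q2) (pc := pcF0) (cut := Cut.none) (xt := Ext.none) (P1 := 0) (W1 := 536870912) (P2 := 1073741824) (W2 := 536870912) (P3 := 201326592) (W3 := 134217728)
    rfl k0_mm_202_a

noncomputable def f_mm_202_b : ℕ → ℕ → ℕ → ℕ → Bool := onCell 1239849684 370763052 1073741824 536870912 201326592 134217728
    (rowF 0 false false false .pp 2 0 2 (qsf 1239849684 370763052 1073741824 536870912 0) ndF1q2b ndF3q2 pcF0 Cut.none Ext.none)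

def k0_mm_202_b : ∃ t, chk3 f_mm_202_b t 1 1 1 = true :=
  ⟨(l 3), by decide +kernel⟩

theorem c_mm_202_b : CertF 1239849684 370763052 1073741824 536870912 201326592 134217728 false false false .pp 2 0 2
    ndF1q2b ndF3q2 pcF0 Cut.none Ext.none :=
  certF0 (fam := false) (s1 := false) (s2 := false) (a := 2) (b := 0) (c := 2) (cn := .pp) (n1 := ndF1q2b) (n2 := ndF3q2) (pc := pcF0) (cut := Cut.none) (xt := Ext.none) (P1 := 1239849684) (W1 := 370763052) (P2 := 1073741824) (W2 := 536870912) (P3 := 201326592) (W3 := 134217728)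
    rfl k0_mm_202_b

noncomputable def f_mm_203_a : ℕ → ℕ → ℕ → ℕ → Bool := onCell 0 536870912 0 1230186008 201326592 134217728
    (rowF 0 false false false .up 2 0 3 (qsf 0 536870912 0 1230186008 0) ndF1q2a ndF3q3 pcF0 Cut.none Ext.none)

def k0_mm_203_a : ∃ t, chk3 f_mm_203_a t 1 1 1 = true :=
  ⟨(b (l 2) (l 3)), by decide +kernel⟩

theorem c_mm_203_a : CertF 0 536870912 0 1230186008 201326592 134217728 false false false .up 2 0 3
    ndF1q2a ndF3q3 pcF0 Cut.none Ext.none :=
  certF0 (fam := false) (s1 := false) (s2 := false) (a := 2) (b := 0) (c := 3) (cn := .up) (n1 := ndF1q2a) (n2 := ndF3q3) (pc := pcF0) (cut := Cut.none) (xt := Ext.none) (P1 := 0) (W1 := 536870912) (P2 := 0) (W2 := 1230186008) (P3 := 201326592) (W3 := 134217728)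
    rfl k0_mm_203_a

noncomputable def f_mm_203_b : ℕ → ℕ → ℕ → ℕ → Bool := onCell 1239849684 370763052 0 1230186008 201326592 134217728
    (rowF 0 false false false .up 2 0 3 (qsf 1239849684 370763052 0 1230186008 0) ndF1q2b ndF3q3 pcF0 Cut.none Ext.none)

def k0_mm_203_b : ∃ t, chk3 f_mm_203_b t 1 1 1 = true :=
  ⟨(b (l 3) (l 3)), by decide +kernel⟩

theorem c_mm_203_b : CertF 1239849684 370763052 0 1230186008 201326592 134217728 false false false .up 2 0 3
    ndF1q2b ndF3q3 pcF0 Cut.none Ext.none :=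
  certF0 (fam := false) (s1 := false) (s2 := false) (a := 2) (b := 0) (c := 3) (cn := .up) (n1 := ndF1q2b) (n2 := ndF3q3) (pc := pcF0) (cut := Cut.none) (xt := Ext.none) (P1 := 1239849684) (W1 := 370763052) (P2 := 0) (W2 := 1230186008) (P3 := 201326592) (W3 := 134217728)
    rfl k0_mm_203_b

noncomputable def f_mm_213_a : ℕ → ℕ → ℕ → ℕ → Bool := onCell 0 536870912 0 1230186008 201326592 134217728
    (rowF 0 false false false .pnn 2 1 3 (qsf 0 536870912 0 1230186008 1) ndF1q2a ndF3q3 pcF1 Cut.none Ext.none)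

def k0_mm_213_a : ∃ t, chk3 f_mm_213_a t 1 1 1 = true :=
  ⟨(b (l 5) (l 3)), by decide +kernel⟩

theorem c_mm_213_a : CertF 0 536870912 0 1230186008 201326592 134217728 false false false .pnn 2 1 3
    ndF1q2a ndF3q3 pcF1 Cut.none Ext.none :=
  certF0 (fam := false) (s1 := false) (s2 := false) (a := 2) (b := 1) (c := 3) (cn := .pnn) (n1 := ndF1q2a) (n2 := ndF3q3) (pc := pcF1) (cut := Cut.none) (xt := Ext.none) (P1 := 0) (W1 := 536870912) (P2 := 0) (W2 := 1230186008) (P3 := 201326592) (W3 := 134217728)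
    rfl k0_mm_213_a

noncomputable def f_mm_213_b : ℕ → ℕ → ℕ → ℕ → Bool := onCell 1239849684 370763052 0 1230186008 201326592 134217728
    (rowF 0 false false false .pnn 2 1 3 (qsf 1239849684 370763052 0 1230186008 1) ndF1q2b ndF3q3 pcF1 Cut.none Ext.none)

def k0_mm_213_b : ∃ t, chk3 f_mm_213_b t 1 1 1 = true :=
  ⟨(b (l 3) (l 3)), by decide +kernel⟩

theorem c_mm_213_b : CertF 1239849684 370763052 0 1230186008 201326592 134217728 false false false .pnn 2 1 3
    ndF1q2b ndF3q3 pcF1 Cut.none Ext.none :=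
  certF0 (fam := false) (s1 := false) (s2 := false) (a := 2) (b := 1) (c := 3) (cn := .pnn) (n1 := ndF1q2b) (n2 := ndF3q3) (pc := pcF1) (cut := Cut.none) (xt := Ext.none) (P1 := 1239849684) (W1 := 370763052) (P2 := 0) (W2 := 1230186008) (P3 := 201326592) (W3 := 134217728)
    rfl k0_mm_213_b

noncomputable def f_mm_303 : ℕ → ℕ → ℕ → ℕ → Bool := onCell 1610612736 536870912 0 1230186008 201326592 134217728
    (rowF 0 false false false .npn 3 0 3 (qsf 1610612736 536870912 0 1230186008 0) ndF1q3 ndF3q3 pcF0 Cut.none Ext.none)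

def k0_mm_303 : ∃ t, chk3 f_mm_303 t 1 1 1 = true :=
  ⟨(b (l 3) (l 3)), by decide +kernel⟩

theorem c_mm_303 : CertF 1610612736 536870912 0 1230186008 201326592 134217728 false false false .npn 3 0 3
    ndF1q3 ndF3q3 pcF0 Cut.none Ext.none :=
  certF0 (fam := false) (s1 := false) (s2 := false) (a := 3) (b := 0) (c := 3) (cn := .npn) (n1 := ndF1q3) (n2 := ndF3q3) (pc := pcF0) (cut := Cut.none) (xt := Ext.none) (P1 := 1610612736) (W1 := 536870912) (P2 := 0) (W2 := 1230186008) (P3 := 201326592) (W3 := 134217728)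
    rfl k0_mm_303

noncomputable def f_mm_313 : ℕ → ℕ → ℕ → ℕ → Bool := onCell 1610612736 536870912 0 1230186008 201326592 134217728
    (rowF 0 false false false .dn 3 1 3 (qsf 1610612736 536870912 0 1230186008 1) ndF1q3 ndF3q3 pcF1 Cut.none Ext.none)

def k0_mm_313 : ∃ t, chk3 f_mm_313 t 1 1 1 = true :=
  ⟨(b (l 3) (l 1)), by decide +kernel⟩

theorem c_mm_313 : CertF 1610612736 536870912 0 1230186008 201326592 134217728 false false false .dn 3 1 3
    ndF1q3 ndF3q3 pcF1 Cut.none Ext.none :=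
  certF0 (fam := false) (s1 := false) (s2 := false) (a := 3) (b := 1) (c := 3) (cn := .dn) (n1 := ndF1q3) (n2 := ndF3q3) (pc := pcF1) (cut := Cut.none) (xt := Ext.none) (P1 := 1610612736) (W1 := 536870912) (P2 := 0) (W2 := 1230186008) (P3 := 201326592) (W3 := 134217728)
    rfl k0_mm_313

end Pool.Agent.Strip051.G.I3_16_5_16.Tab.C.FB13

namespace Pool.Agent.Strip051.G.I3_16_5_16.Tab.C.FB14

open Pool.Agent.Strip051.PB Pool.Agent.Strip051.PB.T
open Pool.Agent.Strip051.G.I3_16_5_16.Tab

noncomputable def f_pp_001 : ℕ → ℕ → ℕ → ℕ → Bool := onCell 0 536870912 0 536870912 201326592 134217728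
    (rowF 1 false true true .up 0 0 1 (qsf 0 536870912 536870912 536870912 0) ndF1q0 ndF4q1 pcF0 Cut.none Ext.none)

def k0_pp_001 : ∃ t, chk3 f_pp_001 t 1 1 1 = true :=
  ⟨(l 3), by decide +kernel⟩

theorem c_pp_001 : CertF 0 536870912 536870912 536870912 201326592 134217728 false true true .up 0 0 1
    ndF1q0 ndF4q1 pcF0 Cut.none Ext.none :=
  certF1 (fam := false) (s1 := true) (s2 := true) (a := 0) (b := 0) (c := 1) (cn := .up) (n1 := ndF1q0) (n2 := ndF4q1) (pc := pcF0) (cut := Cut.none) (xt := Ext.none) (P1 := 0) (W1 := 536870912) (P2 := 536870912) (W2 := 536870912) (P3 := 201326592) (W3 := 134217728)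
    rfl (fun _ => rfl) k0_pp_001

noncomputable def cut_pp_011 : Cut := Cut.of [[⟨0, 0, 0, 67108864⟩, ⟨1, 1, 0, 67108864⟩, ⟨2, 1, 0, 67108864⟩]]

noncomputable def f_pp_011 : ℕ → ℕ → ℕ → ℕ → Bool := onCell 0 536870912 536870912 536870912 201326592 134217728
    (rowF 1 false true true .pnn 0 1 1 (qsf 0 536870912 536870912 536870912 1) ndF1q0 ndF4q1 pcF1 cut_pp_011 Ext.none)

def k0_pp_011 : ∃ t, chk3 f_pp_011 t 1 1 1 = true :=
  ⟨(b (l 3) (b (l 3) (a (b (l 3) (a (a (a (b (l 3) (l 6)) (l 3)) (l 3)) (l 2))) (l 2)))), by decide +kernel⟩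

theorem c_pp_011 : CertF 0 536870912 536870912 536870912 201326592 134217728 false true true .pnn 0 1 1
    ndF1q0 ndF4q1 pcF1 cut_pp_011 Ext.none :=
  certF1 (fam := false) (s1 := true) (s2 := true) (a := 0) (b := 1) (c := 1) (cn := .pnn) (n1 := ndF1q0) (n2 := ndF4q1) (pc := pcF1) (cut := cut_pp_011) (xt := Ext.none) (P1 := 0) (W1 := 536870912) (P2 := 536870912) (W2 := 536870912) (P3 := 201326592) (W3 := 134217728)
    rfl (fun _ => rfl) k0_pp_011

noncomputable def f_pp_012 : ℕ → ℕ → ℕ → ℕ → Bool := onCell 0 536870912 536870912 536870912 201326592 134217728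
    (rowF 1 false true true .pnp 0 1 2 (qsf 0 536870912 1073741824 536870912 1) ndF1q0 ndF4q2 pcF1 Cut.none Ext.none)

def k0_pp_012 : ∃ t, chk3 f_pp_012 t 1 1 1 = true :=
  ⟨(l 3), by decide +kernel⟩

theorem c_pp_012 : CertF 0 536870912 1073741824 536870912 201326592 134217728 false true true .pnp 0 1 2
    ndF1q0 ndF4q2 pcF1 Cut.none Ext.none :=
  certF1 (fam := false) (s1 := true) (s2 := true) (a := 0) (b := 1) (c := 2) (cn := .pnp) (n1 := ndF1q0) (n2 := ndF4q2) (pc := pcF1) (cut := Cut.none) (xt := Ext.none) (P1 := 0) (W1 := 536870912) (P2 := 1073741824) (W2 := 536870912) (P3 := 201326592) (W3 := 134217728)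
    rfl (fun _ => rfl) k0_pp_012

noncomputable def f_pp_022 : ℕ → ℕ → ℕ → ℕ → Bool := onCell 0 536870912 1073741824 536870912 201326592 134217728
    (rowF 1 false true true .pp 0 2 2 (qsf 0 536870912 1073741824 536870912 2) ndF1q0 ndF4q2 pcF2 Cut.none Ext.none)

def k0_pp_022 : ∃ t, chk3 f_pp_022 t 1 1 1 = true :=
  ⟨(a (b (b (l 3) (b (b (b (a (l 3) (a (l 3) (l 17035576))) (b (a (l 3) (a (l 16827920) (l 17073136))) (a (b (a (l 3) (l 16539576)) (a (b (a (b (l 3) (c (l 16598488) (l 16567144))) (l 3)) (a (c (l 16594856) (l 16563680)) (l 16510544))) (b (l 16555000) (l 16468168)))) (b (a (l 16855256) (l 17090464)) (b (a (l 16869168) (l 17099912)) (l 17009816)))))) (a (a (a (c (a (l 16586776) (l 16498464)) (a (l 16555680) (l 16512880))) (l 16572432)) (l 16521424)) (a (l 16956752) (l 17160504)))) (a (a (a (c (a (b (l 16466608) (l 16735456)) (l 16721496)) (a (l 16484496) (l 16417016))) (b (l 16468984) (l 16682008))) (a (l 16797304) (l 16979760))) (a (l 17162016) (l 17304744)))))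 (b (a (a (b (a (c (a (l 17202584) (l 17288288)) (l 16443064)) (l 16811552)) (c (l 17661088) (a (l 16937832) (l 17081992)))) (b (c (l 17516816) (l 16961416)) (l 17488240))) (a (b (l 17390080) (l 17562568)) (b (l 17465240) (l 17578080)))) (a (a (b (c (l 17883672) (l 17310344)) (c (l 18028112) (l 17516016))) (b (l 17665984) (l 17781248))) (b (a (l 17677712) (l 2)) (l 2))))) (b (a (b (b (l 3) (b (l 3) (l 514491393383))) (b (b (b (l 17223624) (b (l 17240112) (b (l 17258776) (b (l 17264128) (l 17267264))))) (l 17302080)) (l 17396528))) (b (b (l 3) (b (l 17219664) (l 17272856))) (b (b (b (l 17316200) (l 2)) (l 2)) (l 2)))) (b (b (a (l 17482440) (l 2)) (l 2)) (l 2)))), by decide +kernel⟩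

theorem c_pp_022 : CertF 0 536870912 1073741824 536870912 201326592 134217728 false true true .pp 0 2 2
    ndF1q0 ndF4q2 pcF2 Cut.none Ext.none :=
  certF1 (fam := false) (s1 := true) (s2 := true) (a := 0) (b := 2) (c := 2) (cn := .pp) (n1 := ndF1q0) (n2 := ndF4q2) (pc := pcF2) (cut := Cut.none) (xt := Ext.none) (P1 := 0) (W1 := 536870912) (P2 := 1073741824) (W2 := 536870912) (P3 := 201326592) (W3 := 134217728)
    rfl (fun _ => rfl) k0_pp_022

noncomputable def f_pp_023 : ℕ → ℕ → ℕ → ℕ → Bool := onCell 1073741824 536870912 0 1230186008 201326592 134217728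
    (rowF 2 false true true .up 0 2 3 (qsf 0 536870912 0 1230186008 2) ndF1q0 ndF4q3 pcF2 Cut.none Ext.none)

def k0_pp_023 : ∃ t, chk3 f_pp_023 t 1 1 1 = true :=
  ⟨(b (a (l 2) (a (l 2) (a (b (l 2) (l 17627872)) (l 17608640)))) (b (a (a (l 2) (a (l 2) (l 143984098199))) (a (a (l 17634024) (b (l 17503120) (l 17488976))) (a (b (l 17518728) (l 17566520)) (l 17568240)))) (a (b (a (l 2) (a (a (a (l 17440432) (l 17448168)) (l 17452344)) (l 17476672))) (a (a (c (l 433424342759) (l 423223255895)) (a (l 424834238695) (b (l 17363056) (l 17299104)))) (a (a (a (b (l 17380760) (l 17326056)) (a (l 17365184) (a (l 17367008) (l 17367544)))) (l 17384680)) (b (l 17448696) (l 17428248))))) (a (b (a (l 17511960) (l 17542184)) (b (l 17547152) (c (l 17728896) (l 17380912)))) (b (a (b (l 17562696) (l 17613016)) (l 17654016)) (b (l 17688184) (c (l 17880880) (b (l 17546760) (l 17546064))))))))), by decide +kernel⟩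

theorem c_pp_023 : CertF 0 536870912 0 1230186008 201326592 134217728 false true true .up 0 2 3
    ndF1q0 ndF4q3 pcF2 Cut.none Ext.none :=
  certF2 (fam := false) (s1 := true) (s2 := true) (a := 0) (b := 2) (c := 3) (cn := .up) (n1 := ndF1q0) (n2 := ndF4q3) (pc := pcF2) (cut := Cut.none) (xt := Ext.none) (P1 := 0) (W1 := 536870912) (P2 := 0) (W2 := 1230186008) (P3 := 201326592) (W3 := 134217728)
    rfl (fun _ => rfl) k0_pp_023

noncomputable def f_pp_033 : ℕ → ℕ → ℕ → ℕ → Bool := onCell 1610612736 536870912 0 1230186008 201326592 134217728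
    (rowF 2 false true true .pnn 0 3 3 (qsf 0 536870912 0 1230186008 3) ndF1q0 ndF4q3 pcF3 Cut.none Ext.none)

def k0_pp_033 : ∃ t, chk3 f_pp_033 t 1 1 1 = true :=
  ⟨(b (b (a (a (a (l 17528752) (l 17410424)) (l 17475952)) (l 4)) (a (a (b (l 17418272) (l 17380384)) (a (l 17468152) (l 17616360))) (a (a (l 17483352) (l 17506192)) (a (l 17547928) (l 4))))) (b (a (a (b (l 17395712) (b (l 17439024) (l 17504816))) (b (a (l 17485016) (l 17532616)) (b (l 17562120) (a (l 17593648) (l 17651752))))) (a (a (b (b (l 17552344) (l 17591696)) (b (l 17640104) (l 17700504))) (b (l 17613464) (b (l 17672688) (l 1)))) (b (a (l 647502055447) (l 1)) (l 1)))) (a (b (a (b (l 17627384) (c (l 17862568) (l 17620040))) (b (l 157875720295) (a (l 165392434471) (l 1)))) (a (b (c (l 17902120) (l 117610550311)) (a (c (l 17943696) (b (l 17662136) (l 17685472))) (b (l 486441016615) (l 1)))) (b (a (c (l 17963840) (l 504694657895)) (l 1)) (l 1)))) (l 1)))), by decide +kernel⟩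

theorem c_pp_033 : CertF 0 536870912 0 1230186008 201326592 134217728 false true true .pnn 0 3 3
    ndF1q0 ndF4q3 pcF3 Cut.none Ext.none :=
  certF2 (fam := false) (s1 := true) (s2 := true) (a := 0) (b := 3) (c := 3) (cn := .pnn) (n1 := ndF1q0) (n2 := ndF4q3) (pc := pcF3) (cut := Cut.none) (xt := Ext.none) (P1 := 0) (W1 := 536870912) (P2 := 0) (W2 := 1230186008) (P3 := 201326592) (W3 := 134217728)
    rfl (fun _ => rfl) k0_pp_033

noncomputable def f_pp_101 : ℕ → ℕ → ℕ → ℕ → Bool := onCell 536870912 536870912 536870912 536870912 201326592 134217728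
    (rowF 0 false true true .npn 1 0 1 (qsf 536870912 536870912 536870912 536870912 0) ndF1q1 ndF4q1 pcF0 Cut.none Ext.none)

def k0_pp_101 : ∃ t, chk3 f_pp_101 t 1 1 1 = true :=
  ⟨(l 3), by decide +kernel⟩

theorem c_pp_101 : CertF 536870912 536870912 536870912 536870912 201326592 134217728 false true true .npn 1 0 1
    ndF1q1 ndF4q1 pcF0 Cut.none Ext.none :=
  certF0 (fam := false) (s1 := true) (s2 := true) (a := 1) (b := 0) (c := 1) (cn := .npn) (n1 := ndF1q1) (n2 := ndF4q1) (pc := pcF0) (cut := Cut.none) (xt := Ext.none) (P1 := 536870912) (W1 := 536870912) (P2 := 536870912) (W2 := 536870912) (P3 := 201326592) (W3 := 134217728)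
    rfl k0_pp_101

noncomputable def f_pp_102 : ℕ → ℕ → ℕ → ℕ → Bool := onCell 536870912 536870912 1073741824 536870912 201326592 134217728
    (rowF 0 false true true .npp 1 0 2 (qsf 536870912 536870912 1073741824 536870912 0) ndF1q1 ndF4q2 pcF0 Cut.none Ext.none)

def k0_pp_102 : ∃ t, chk3 f_pp_102 t 1 1 1 = true :=
  ⟨(l 3), by decide +kernel⟩

theorem c_pp_102 : CertF 536870912 536870912 1073741824 536870912 201326592 134217728 false true true .npp 1 0 2
    ndF1q1 ndF4q2 pcF0 Cut.none Ext.none :=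
  certF0 (fam := false) (s1 := true) (s2 := true) (a := 1) (b := 0) (c := 2) (cn := .npp) (n1 := ndF1q1) (n2 := ndF4q2) (pc := pcF0) (cut := Cut.none) (xt := Ext.none) (P1 := 536870912) (W1 := 536870912) (P2 := 1073741824) (W2 := 536870912) (P3 := 201326592) (W3 := 134217728)
    rfl k0_pp_102

noncomputable def f_pp_112 : ℕ → ℕ → ℕ → ℕ → Bool := onCell 536870912 536870912 1073741824 536870912 201326592 134217728
    (rowF 0 false true true .dn 1 1 2 (qsf 536870912 536870912 1073741824 536870912 1) ndF1q1 ndF4q2 pcF1 Cut.none Ext.none)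

def k0_pp_112 : ∃ t, chk3 f_pp_112 t 1 1 1 = true :=
  ⟨(l 3), by decide +kernel⟩

theorem c_pp_112 : CertF 536870912 536870912 1073741824 536870912 201326592 134217728 false true true .dn 1 1 2
    ndF1q1 ndF4q2 pcF1 Cut.none Ext.none :=
  certF0 (fam := false) (s1 := true) (s2 := true) (a := 1) (b := 1) (c := 2) (cn := .dn) (n1 := ndF1q1) (n2 := ndF4q2) (pc := pcF1) (cut := Cut.none) (xt := Ext.none) (P1 := 536870912) (W1 := 536870912) (P2 := 1073741824) (W2 := 536870912) (P3 := 201326592) (W3 := 134217728)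
    rfl k0_pp_112

noncomputable def f_pp_113 : ℕ → ℕ → ℕ → ℕ → Bool := onCell 536870912 536870912 0 1230186008 201326592 134217728
    (rowF 2 false true true .nn 1 1 3 (qsf 536870912 536870912 0 1230186008 1) ndF1q1 ndF4q3 pcF1 Cut.none Ext.none)

def k0_pp_113 : ∃ t, chk3 f_pp_113 t 1 1 1 = true :=
  ⟨(b (a (l 2) (a (l 2) (b (a (l 2) (l 16796792)) (a (l 16878872) (l 16917112))))) (a (b (l 3) (l 3)) (b (a (l 3) (b (l 17215704) (l 224043959655))) (a (l 3) (b (l 377052247703) (l 3)))))), by decide +kernel⟩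

theorem c_pp_113 : CertF 536870912 536870912 0 1230186008 201326592 134217728 false true true .nn 1 1 3
    ndF1q1 ndF4q3 pcF1 Cut.none Ext.none :=
  certF2 (fam := false) (s1 := true) (s2 := true) (a := 1) (b := 1) (c := 3) (cn := .nn) (n1 := ndF1q1) (n2 := ndF4q3) (pc := pcF1) (cut := Cut.none) (xt := Ext.none) (P1 := 536870912) (W1 := 536870912) (P2 := 0) (W2 := 1230186008) (P3 := 201326592) (W3 := 134217728)
    rfl (fun _ => rfl) k0_pp_113

noncomputable def f_pp_123 : ℕ → ℕ → ℕ → ℕ → Bool := onCell 1073741824 536870912 0 1230186008 201326592 134217728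
    (rowF 2 false true true .npn 1 2 3 (qsf 536870912 536870912 0 1230186008 2) ndF1q1 ndF4q3 pcF2 Cut.none Ext.none)

def k0_pp_123 : ∃ t, chk3 f_pp_123 t 1 1 1 = true :=
  ⟨(b (b (a (a (a (l 17063800) (a (l 17107632) (l 17134256))) (a (a (l 17158696) (l 17173648)) (l 17191440))) (a (l 17201712) (l 17157768))) (a (a (a (l 17083624) (a (l 17111512) (l 17118880))) (a (a (l 17370408) (l 17138832)) (l 17138744))) (a (a (l 17133920) (l 17124192)) (a (l 17122328) (l 17109328))))) (b (a (a (a (b (l 17094504) (l 17116720)) (a (l 17115408) (a (l 17123480) (l 17126392)))) (a (a (a (l 17127752) (l 17272304)) (l 17113512)) (l 17091664))) (a (a (l 17049256) (l 360811727207)) (a (b (l 16973808) (l 1)) (l 1)))) (a (b (a (a (l 17118912) (a (l 17122520) (l 17107320))) (a (a (l 17247704) (l 17081256)) (l 17059720))) (a (a (l 418928250663) (a (l 17196688) (l 17239736))) (b (b (l 17085712) (l 1)) (l 1)))) (l 1)))), by decide +kernel⟩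

theorem c_pp_123 : CertF 536870912 536870912 0 1230186008 201326592 134217728 false true true .npn 1 2 3
    ndF1q1 ndF4q3 pcF2 Cut.none Ext.none :=
  certF2 (fam := false) (s1 := true) (s2 := true) (a := 1) (b := 2) (c := 3) (cn := .npn) (n1 := ndF1q1) (n2 := ndF4q3) (pc := pcF2) (cut := Cut.none) (xt := Ext.none) (P1 := 536870912) (W1 := 536870912) (P2 := 0) (W2 := 1230186008) (P3 := 201326592) (W3 := 134217728)
    rfl (fun _ => rfl) k0_pp_123

noncomputable def f_pp_133 : ℕ → ℕ → ℕ → ℕ → Bool := onCell 536870912 536870912 0 1230186008 201326592 134217728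
    (rowF 0 false true true .dn 1 3 3 (qsf 536870912 536870912 0 1230186008 3) ndF1q1 ndF4q3 pcF3 Cut.none Ext.none)

def k0_pp_133 : ∃ t, chk3 f_pp_133 t 1 1 1 = true :=
  ⟨(b (b (a (a (a (l 16970920) (l 1)) (l 1)) (l 1)) (l 1)) (l 1)), by decide +kernel⟩

theorem c_pp_133 : CertF 536870912 536870912 0 1230186008 201326592 134217728 false true true .dn 1 3 3
    ndF1q1 ndF4q3 pcF3 Cut.none Ext.none :=
  certF0 (fam := false) (s1 := true) (s2 := true) (a := 1) (b := 3) (c := 3) (cn := .dn) (n1 := ndF1q1) (n2 := ndF4q3) (pc := pcF3) (cut := Cut.none) (xt := Ext.none) (P1 := 536870912) (W1 := 536870912) (P2 := 0) (W2 := 1230186008) (P3 := 201326592) (W3 := 134217728)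
    rfl k0_pp_133

noncomputable def f_pp_202_a : ℕ → ℕ → ℕ → ℕ → Bool := onCell 0 536870912 1073741824 536870912 201326592 134217728
    (rowF 0 false true true .pp 2 0 2 (qsf 0 536870912 1073741824 536870912 0) ndF1q2a ndF4q2 pcF0 Cut.none Ext.none)

def k0_pp_202_a : ∃ t, chk3 f_pp_202_a t 1 1 1 = true :=
  ⟨(l 3), by decide +kernel⟩

theorem c_pp_202_a : CertF 0 536870912 1073741824 536870912 201326592 134217728 false true true .pp 2 0 2
    ndF1q2a ndF4q2 pcF0 Cut.none Ext.none :=
  certF0 (fam := false) (s1 := true) (s2 := true) (a := 2) (b := 0) (c := 2) (cn := .pp) (n1 := ndF1q2a) (n2 := ndF4q2) (pc := pcF0) (cut := Cut.none) (xt := Ext.none) (P1 := 0) (W1 := 536870912) (P2 := 1073741824) (W2 := 536870912) (P3 := 201326592) (W3 := 134217728)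
    rfl k0_pp_202_a

noncomputable def f_pp_202_b : ℕ → ℕ → ℕ → ℕ → Bool := onCell 1239849684 370763052 1073741824 536870912 201326592 134217728
    (rowF 0 false true true .pp 2 0 2 (qsf 1239849684 370763052 1073741824 536870912 0) ndF1q2b ndF4q2 pcF0 Cut.none Ext.none)

def k0_pp_202_b : ∃ t, chk3 f_pp_202_b t 1 1 1 = true :=
  ⟨(l 5), by decide +kernel⟩

theorem c_pp_202_b : CertF 1239849684 370763052 1073741824 536870912 201326592 134217728 false true true .pp 2 0 2
    ndF1q2b ndF4q2 pcF0 Cut.none Ext.none :=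
  certF0 (fam := false) (s1 := true) (s2 := true) (a := 2) (b := 0) (c := 2) (cn := .pp) (n1 := ndF1q2b) (n2 := ndF4q2) (pc := pcF0) (cut := Cut.none) (xt := Ext.none) (P1 := 1239849684) (W1 := 370763052) (P2 := 1073741824) (W2 := 536870912) (P3 := 201326592) (W3 := 134217728)
    rfl k0_pp_202_b

noncomputable def f_pp_203_a : ℕ → ℕ → ℕ → ℕ → Bool := onCell 0 536870912 0 1230186008 201326592 134217728
    (rowF 0 false true true .up 2 0 3 (qsf 0 536870912 0 1230186008 0) ndF1q2a ndF4q3 pcF0 Cut.none Ext.none)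

def k0_pp_203_a : ∃ t, chk3 f_pp_203_a t 1 1 1 = true :=
  ⟨(b (l 2) (l 3)), by decide +kernel⟩

theorem c_pp_203_a : CertF 0 536870912 0 1230186008 201326592 134217728 false true true .up 2 0 3
    ndF1q2a ndF4q3 pcF0 Cut.none Ext.none :=
  certF0 (fam := false) (s1 := true) (s2 := true) (a := 2) (b := 0) (c := 3) (cn := .up) (n1 := ndF1q2a) (n2 := ndF4q3) (pc := pcF0) (cut := Cut.none) (xt := Ext.none) (P1 := 0) (W1 := 536870912) (P2 := 0) (W2 := 1230186008) (P3 := 201326592) (W3 := 134217728)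
    rfl k0_pp_203_a

noncomputable def f_pp_203_b : ℕ → ℕ → ℕ → ℕ → Bool := onCell 1239849684 370763052 0 1230186008 201326592 134217728
    (rowF 0 false true true .up 2 0 3 (qsf 1239849684 370763052 0 1230186008 0) ndF1q2b ndF4q3 pcF0 Cut.none Ext.none)

def k0_pp_203_b : ∃ t, chk3 f_pp_203_b t 1 1 1 = true :=
  ⟨(b (l 3) (l 3)), by decide +kernel⟩

theorem c_pp_203_b : CertF 1239849684 370763052 0 1230186008 201326592 134217728 false true true .up 2 0 3
    ndF1q2b ndF4q3 pcF0 Cut.none Ext.none :=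
  certF0 (fam := false) (s1 := true) (s2 := true) (a := 2) (b := 0) (c := 3) (cn := .up) (n1 := ndF1q2b) (n2 := ndF4q3) (pc := pcF0) (cut := Cut.none) (xt := Ext.none) (P1 := 1239849684) (W1 := 370763052) (P2 := 0) (W2 := 1230186008) (P3 := 201326592) (W3 := 134217728)
    rfl k0_pp_203_b

noncomputable def cut_pp_213_a : Cut := Cut.of [[⟨0, 1, 0, 57167902⟩, ⟨1, 1, 0, 57167902⟩, ⟨2, 2, 0, 11758673⟩]]

noncomputable def f_pp_213_a : ℕ → ℕ → ℕ → ℕ → Bool := onCell 0 536870912 0 1230186008 201326592 134217728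
    (rowF 0 false true true .pnn 2 1 3 (qsf 0 536870912 0 1230186008 1) ndF1q2a ndF4q3 pcF1 cut_pp_213_a Ext.none)

def k0_pp_213_a : ∃ t, chk3 f_pp_213_a t 1 1 1 = true :=
  ⟨(b (a (l 3) (b (a (l 3) (b (a (l 3) (l 6)) (l 3))) (l 3))) (l 3)), by decide +kernel⟩

theorem c_pp_213_a : CertF 0 536870912 0 1230186008 201326592 134217728 false true true .pnn 2 1 3
    ndF1q2a ndF4q3 pcF1 cut_pp_213_a Ext.none :=
  certF0 (fam := false) (s1 := true) (s2 := true) (a := 2) (b := 1) (c := 3) (cn := .pnn) (n1 := ndF1q2a) (n2 := ndF4q3) (pc := pcF1) (cut := cut_pp_213_a) (xt := Ext.none) (P1 := 0) (W1 := 536870912) (P2 := 0) (W2 := 1230186008) (P3 := 201326592) (W3 := 134217728)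
    rfl k0_pp_213_a

noncomputable def cut_pp_213_b : Cut := Cut.of [[⟨0, 1, 0, 57167902⟩, ⟨1, 1, 0, 57167902⟩, ⟨2, 2, 0, 11758673⟩]]

noncomputable def f_pp_213_b : ℕ → ℕ → ℕ → ℕ → Bool := onCell 1239849684 370763052 0 1230186008 201326592 134217728
    (rowF 0 false true true .pnn 2 1 3 (qsf 1239849684 370763052 0 1230186008 1) ndF1q2b ndF4q3 pcF1 cut_pp_213_b Ext.none)

def k0_pp_213_b : ∃ t, chk3 f_pp_213_b t 1 1 1 = true :=
  ⟨(b (l 3) (l 3)), by decide +kernel⟩

theorem c_pp_213_b : CertF 1239849684 370763052 0 1230186008 201326592 134217728 false true true .pnn 2 1 3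
    ndF1q2b ndF4q3 pcF1 cut_pp_213_b Ext.none :=
  certF0 (fam := false) (s1 := true) (s2 := true) (a := 2) (b := 1) (c := 3) (cn := .pnn) (n1 := ndF1q2b) (n2 := ndF4q3) (pc := pcF1) (cut := cut_pp_213_b) (xt := Ext.none) (P1 := 1239849684) (W1 := 370763052) (P2 := 0) (W2 := 1230186008) (P3 := 201326592) (W3 := 134217728)
    rfl k0_pp_213_b

noncomputable def f_pp_303 : ℕ → ℕ → ℕ → ℕ → Bool := onCell 0 536870912 0 1230186008 201326592 134217728
    (rowF 2 false true true .npn 3 0 3 (qsf 1610612736 536870912 0 1230186008 0) ndF1q3 ndF4q3 pcF0 Cut.none Ext.none)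

def k0_pp_303 : ∃ t, chk3 f_pp_303 t 1 1 1 = true :=
  ⟨(b (l 3) (l 3)), by decide +kernel⟩

theorem c_pp_303 : CertF 1610612736 536870912 0 1230186008 201326592 134217728 false true true .npn 3 0 3
    ndF1q3 ndF4q3 pcF0 Cut.none Ext.none :=
  certF2 (fam := false) (s1 := true) (s2 := true) (a := 3) (b := 0) (c := 3) (cn := .npn) (n1 := ndF1q3) (n2 := ndF4q3) (pc := pcF0) (cut := Cut.none) (xt := Ext.none) (P1 := 1610612736) (W1 := 536870912) (P2 := 0) (W2 := 1230186008) (P3 := 201326592) (W3 := 134217728)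
    rfl (fun _ => rfl) k0_pp_303

noncomputable def f_pp_313 : ℕ → ℕ → ℕ → ℕ → Bool := onCell 1610612736 536870912 0 1230186008 201326592 134217728
    (rowF 0 false true true .dn 3 1 3 (qsf 1610612736 536870912 0 1230186008 1) ndF1q3 ndF4q3 pcF1 Cut.none Ext.none)

def k0_pp_313 : ∃ t, chk3 f_pp_313 t 1 1 1 = true :=
  ⟨(b (l 3) (l 1)), by decide +kernel⟩

theorem c_pp_313 : CertF 1610612736 536870912 0 1230186008 201326592 134217728 false true true .dn 3 1 3
    ndF1q3 ndF4q3 pcF1 Cut.none Ext.none :=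
  certF0 (fam := false) (s1 := true) (s2 := true) (a := 3) (b := 1) (c := 3) (cn := .dn) (n1 := ndF1q3) (n2 := ndF4q3) (pc := pcF1) (cut := Cut.none) (xt := Ext.none) (P1 := 1610612736) (W1 := 536870912) (P2 := 0) (W2 := 1230186008) (P3 := 201326592) (W3 := 134217728)
    rfl k0_pp_313

noncomputable def f_pm_001 : ℕ → ℕ → ℕ → ℕ → Bool := onCell 0 536870912 536870912 536870912 201326592 134217728
    (rowF 0 false true false .up 0 0 1 (qsf 0 536870912 536870912 536870912 0) ndF1q0 ndF4q1 pcF0 Cut.none Ext.none)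

def k0_pm_001 : ∃ t, chk3 f_pm_001 t 1 1 1 = true :=
  ⟨(l 4), by decide +kernel⟩

theorem c_pm_001 : CertF 0 536870912 536870912 536870912 201326592 134217728 false true false .up 0 0 1
    ndF1q0 ndF4q1 pcF0 Cut.none Ext.none :=
  certF0 (fam := false) (s1 := true) (s2 := false) (a := 0) (b := 0) (c := 1) (cn := .up) (n1 := ndF1q0) (n2 := ndF4q1) (pc := pcF0) (cut := Cut.none) (xt := Ext.none) (P1 := 0) (W1 := 536870912) (P2 := 536870912) (W2 := 536870912) (P3 := 201326592) (W3 := 134217728)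
    rfl k0_pm_001

noncomputable def f_pm_011 : ℕ → ℕ → ℕ → ℕ → Bool := onCell 0 536870912 536870912 536870912 201326592 134217728
    (rowF 0 false true false .pnn 0 1 1 (qsf 0 536870912 536870912 536870912 1) ndF1q0 ndF4q1 pcF1 Cut.none Ext.none)

def k0_pm_011 : ∃ t, chk3 f_pm_011 t 1 1 1 = true :=
  ⟨(l 4), by decide +kernel⟩

theorem c_pm_011 : CertF 0 536870912 536870912 536870912 201326592 134217728 false true false .pnn 0 1 1
    ndF1q0 ndF4q1 pcF1 Cut.none Ext.none :=
  certF0 (fam := false) (s1 := true) (s2 := false) (a := 0) (b := 1) (c := 1) (cn := .pnn) (n1 := ndF1q0) (n2 := ndF4q1) (pc := pcF1) (cut := Cut.none) (xt := Ext.none) (P1 := 0) (W1 := 536870912) (P2 := 536870912) (W2 := 536870912) (P3 := 201326592) (W3 := 134217728)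
    rfl k0_pm_011

noncomputable def f_pm_012 : ℕ → ℕ → ℕ → ℕ → Bool := onCell 0 536870912 1073741824 536870912 201326592 134217728
    (rowF 0 false true false .pnp 0 1 2 (qsf 0 536870912 1073741824 536870912 1) ndF1q0 ndF4q2 pcF1 Cut.none Ext.none)

def k0_pm_012 : ∃ t, chk3 f_pm_012 t 1 1 1 = true :=
  ⟨(l 4), by decide +kernel⟩

theorem c_pm_012 : CertF 0 536870912 1073741824 536870912 201326592 134217728 false true false .pnp 0 1 2
    ndF1q0 ndF4q2 pcF1 Cut.none Ext.none :=
  certF0 (fam := false) (s1 := true) (s2 := false) (a := 0) (b := 1) (c := 2) (cn := .pnp) (n1 := ndF1q0) (n2 := ndF4q2) (pc := pcF1) (cut := Cut.none) (xt := Ext.none) (P1 := 0) (W1 := 536870912) (P2 := 1073741824) (W2 := 536870912) (P3 := 201326592) (W3 := 134217728)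
    rfl k0_pm_012

noncomputable def f_pm_022 : ℕ → ℕ → ℕ → ℕ → Bool := onCell 0 536870912 1073741824 536870912 201326592 134217728
    (rowF 0 false true false .pp 0 2 2 (qsf 0 536870912 1073741824 536870912 2) ndF1q0 ndF4q2 pcF2 Cut.none Ext.none)

def k0_pm_022 : ∃ t, chk3 f_pm_022 t 1 1 1 = true :=
  ⟨(l 4), by decide +kernel⟩

theorem c_pm_022 : CertF 0 536870912 1073741824 536870912 201326592 134217728 false true false .pp 0 2 2
    ndF1q0 ndF4q2 pcF2 Cut.none Ext.none :=
  certF0 (fam := false) (s1 := true) (s2 := false) (a := 0) (b := 2) (c := 2) (cn := .pp) (n1 := ndF1q0) (n2 := ndF4q2) (pc := pcF2) (cut := Cut.none) (xt := Ext.none) (P1 := 0) (W1 := 536870912) (P2 := 1073741824) (W2 := 536870912) (P3 := 201326592) (W3 := 134217728)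
    rfl k0_pm_022

noncomputable def f_pm_023 : ℕ → ℕ → ℕ → ℕ → Bool := onCell 0 536870912 0 1230186008 201326592 134217728
    (rowF 0 false true false .up 0 2 3 (qsf 0 536870912 0 1230186008 2) ndF1q0 ndF4q3 pcF2 Cut.none Ext.none)

def k0_pm_023 : ∃ t, chk3 f_pm_023 t 1 1 1 = true :=
  ⟨(b (b (a (l 2) (a (l 2) (a (l 2) (l 17597016)))) (l 4)) (l 4)), by decide +kernel⟩

theorem c_pm_023 : CertF 0 536870912 0 1230186008 201326592 134217728 false true false .up 0 2 3
    ndF1q0 ndF4q3 pcF2 Cut.none Ext.none :=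
  certF0 (fam := false) (s1 := true) (s2 := false) (a := 0) (b := 2) (c := 3) (cn := .up) (n1 := ndF1q0) (n2 := ndF4q3) (pc := pcF2) (cut := Cut.none) (xt := Ext.none) (P1 := 0) (W1 := 536870912) (P2 := 0) (W2 := 1230186008) (P3 := 201326592) (W3 := 134217728)
    rfl k0_pm_023

noncomputable def f_pm_033 : ℕ → ℕ → ℕ → ℕ → Bool := onCell 0 536870912 0 1230186008 201326592 134217728
    (rowF 0 false true false .pnn 0 3 3 (qsf 0 536870912 0 1230186008 3) ndF1q0 ndF4q3 pcF3 Cut.none Ext.none)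

def k0_pm_033 : ∃ t, chk3 f_pm_033 t 1 1 1 = true :=
  ⟨(b (a (l 4) (a (l 4) (b (b (l 4) (l 4)) (l 4)))) (l 4)), by decide +kernel⟩

theorem c_pm_033 : CertF 0 536870912 0 1230186008 201326592 134217728 false true false .pnn 0 3 3
    ndF1q0 ndF4q3 pcF3 Cut.none Ext.none :=
  certF0 (fam := false) (s1 := true) (s2 := false) (a := 0) (b := 3) (c := 3) (cn := .pnn) (n1 := ndF1q0) (n2 := ndF4q3) (pc := pcF3) (cut := Cut.none) (xt := Ext.none) (P1 := 0) (W1 := 536870912) (P2 := 0) (W2 := 1230186008) (P3 := 201326592) (W3 := 134217728)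
    rfl k0_pm_033

noncomputable def f_pm_101 : ℕ → ℕ → ℕ → ℕ → Bool := onCell 536870912 536870912 536870912 536870912 201326592 134217728
    (rowF 0 false true false .npn 1 0 1 (qsf 536870912 536870912 536870912 536870912 0) ndF1q1 ndF4q1 pcF0 Cut.none Ext.none)

def k0_pm_101 : ∃ t, chk3 f_pm_101 t 1 1 1 = true :=
  ⟨(l 4), by decide +kernel⟩

theorem c_pm_101 : CertF 536870912 536870912 536870912 536870912 201326592 134217728 false true false .npn 1 0 1
    ndF1q1 ndF4q1 pcF0 Cut.none Ext.none :=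
  certF0 (fam := false) (s1 := true) (s2 := false) (a := 1) (b := 0) (c := 1) (cn := .npn) (n1 := ndF1q1) (n2 := ndF4q1) (pc := pcF0) (cut := Cut.none) (xt := Ext.none) (P1 := 536870912) (W1 := 536870912) (P2 := 536870912) (W2 := 536870912) (P3 := 201326592) (W3 := 134217728)
    rfl k0_pm_101

noncomputable def f_pm_102 : ℕ → ℕ → ℕ → ℕ → Bool := onCell 536870912 536870912 1073741824 536870912 201326592 134217728
    (rowF 0 false true false .npp 1 0 2 (qsf 536870912 536870912 1073741824 536870912 0) ndF1q1 ndF4q2 pcF0 Cut.none Ext.none)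

def k0_pm_102 : ∃ t, chk3 f_pm_102 t 1 1 1 = true :=
  ⟨(l 4), by decide +kernel⟩

theorem c_pm_102 : CertF 536870912 536870912 1073741824 536870912 201326592 134217728 false true false .npp 1 0 2
    ndF1q1 ndF4q2 pcF0 Cut.none Ext.none :=
  certF0 (fam := false) (s1 := true) (s2 := false) (a := 1) (b := 0) (c := 2) (cn := .npp) (n1 := ndF1q1) (n2 := ndF4q2) (pc := pcF0) (cut := Cut.none) (xt := Ext.none) (P1 := 536870912) (W1 := 536870912) (P2 := 1073741824) (W2 := 536870912) (P3 := 201326592) (W3 := 134217728)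
    rfl k0_pm_102

noncomputable def f_pm_112 : ℕ → ℕ → ℕ → ℕ → Bool := onCell 536870912 536870912 1073741824 536870912 201326592 134217728
    (rowF 0 false true false .dn 1 1 2 (qsf 536870912 536870912 1073741824 536870912 1) ndF1q1 ndF4q2 pcF1 Cut.none Ext.none)

def k0_pm_112 : ∃ t, chk3 f_pm_112 t 1 1 1 = true :=
  ⟨(l 4), by decide +kernel⟩

theorem c_pm_112 : CertF 536870912 536870912 1073741824 536870912 201326592 134217728 false true false .dn 1 1 2
    ndF1q1 ndF4q2 pcF1 Cut.none Ext.none :=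
  certF0 (fam := false) (s1 := true) (s2 := false) (a := 1) (b := 1) (c := 2) (cn := .dn) (n1 := ndF1q1) (n2 := ndF4q2) (pc := pcF1) (cut := Cut.none) (xt := Ext.none) (P1 := 536870912) (W1 := 536870912) (P2 := 1073741824) (W2 := 536870912) (P3 := 201326592) (W3 := 134217728)
    rfl k0_pm_112

noncomputable def f_pm_113 : ℕ → ℕ → ℕ → ℕ → Bool := onCell 536870912 536870912 0 1230186008 201326592 134217728
    (rowF 0 false true false .nn 1 1 3 (qsf 536870912 536870912 0 1230186008 1) ndF1q1 ndF4q3 pcF1 Cut.none Ext.none)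

def k0_pm_113 : ∃ t, chk3 f_pm_113 t 1 1 1 = true :=
  ⟨(a (b (l 2) (l 4)) (b (a (l 2) (b (a (l 2) (l 17026608)) (l 17397448))) (b (b (a (l 17960920) (a (l 17684616) (b (l 17461808) (l 17530008)))) (b (a (l 4) (a (l 17711328) (l 17567408))) (l 17774224))) (b (l 4) (l 4))))), by decide +kernel⟩

theorem c_pm_113 : CertF 536870912 536870912 0 1230186008 201326592 134217728 false true false .nn 1 1 3
    ndF1q1 ndF4q3 pcF1 Cut.none Ext.none :=
  certF0 (fam := false) (s1 := true) (s2 := false) (a := 1) (b := 1) (c := 3) (cn := .nn) (n1 := ndF1q1) (n2 := ndF4q3) (pc := pcF1) (cut := Cut.none) (xt := Ext.none) (P1 := 536870912) (W1 := 536870912) (P2 := 0) (W2 := 1230186008) (P3 := 201326592) (W3 := 134217728)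
    rfl k0_pm_113

noncomputable def f_pm_123 : ℕ → ℕ → ℕ → ℕ → Bool := onCell 1073741824 536870912 0 1230186008 201326592 134217728
    (rowF 2 false true false .npn 1 2 3 (qsf 536870912 536870912 0 1230186008 2) ndF1q1 ndF4q3 pcF2 Cut.none Ext.none)

def k0_pm_123 : ∃ t, chk3 f_pm_123 t 1 1 1 = true :=
  ⟨(a (b (b (a (a (l 17155576) (a (l 17201744) (l 17231832))) (l 17281976)) (a (l 17398560) (l 17349672))) (b (a (l 17603784) (l 4)) (l 4))) (b (a (l 17263592) (l 17182608)) (l 4))), by decide +kernel⟩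

theorem c_pm_123 : CertF 536870912 536870912 0 1230186008 201326592 134217728 false true false .npn 1 2 3
    ndF1q1 ndF4q3 pcF2 Cut.none Ext.none :=
  certF2 (fam := false) (s1 := true) (s2 := false) (a := 1) (b := 2) (c := 3) (cn := .npn) (n1 := ndF1q1) (n2 := ndF4q3) (pc := pcF2) (cut := Cut.none) (xt := Ext.none) (P1 := 536870912) (W1 := 536870912) (P2 := 0) (W2 := 1230186008) (P3 := 201326592) (W3 := 134217728)
    rfl (fun _ => rfl) k0_pm_123

noncomputable def f_pm_133 : ℕ → ℕ → ℕ → ℕ → Bool := onCell 536870912 536870912 0 1230186008 201326592 134217728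
    (rowF 0 false true false .dn 1 3 3 (qsf 536870912 536870912 0 1230186008 3) ndF1q1 ndF4q3 pcF3 Cut.none Ext.none)

def k0_pm_133 : ∃ t, chk3 f_pm_133 t 1 1 1 = true :=
  ⟨(b (b (a (a (a (l 27415232727) (l 1)) (l 1)) (l 1)) (l 1)) (l 1)), by decide +kernel⟩

theorem c_pm_133 : CertF 536870912 536870912 0 1230186008 201326592 134217728 false true false .dn 1 3 3
    ndF1q1 ndF4q3 pcF3 Cut.none Ext.none :=
  certF0 (fam := false) (s1 := true) (s2 := false) (a := 1) (b := 3) (c := 3) (cn := .dn) (n1 := ndF1q1) (n2 := ndF4q3) (pc := pcF3) (cut := Cut.none) (xt := Ext.none) (P1 := 536870912) (W1 := 536870912) (P2 := 0) (W2 := 1230186008) (P3 := 201326592) (W3 := 134217728)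
    rfl k0_pm_133

noncomputable def f_pm_202_a : ℕ → ℕ → ℕ → ℕ → Bool := onCell 0 536870912 0 536870912 201326592 134217728
    (rowF 1 false true false .pp 2 0 2 (qsf 0 536870912 1073741824 536870912 0) ndF1q2a ndF4q2 pcF0 Cut.none Ext.none)

def k0_pm_202_a : ∃ t, chk3 f_pm_202_a t 1 1 1 = true :=
  ⟨(b (b (a (b (a (l 17316792) (l 17521376)) (a (b (l 17187680) (l 17062024)) (l 17399600))) (a (b (b (l 17742184) (l 17727600)) (l 17836040)) (b (c (l 18140840) (l 17988728)) (a (l 17869648) (l 17917536))))) (a (b (a (b (l 16965752) (l 17003432)) (b (l 17246776) (l 17128928))) (a (b (l 17112192) (l 17194136)) (b (l 17151448) (a (l 17195584) (l 17204808))))) (a (b (l 17566160) (a (b (l 17296408) (l 17257048)) (l 17488576))) (b (a (l 17740432) (l 17791584)) (a (l 17659128) (l 17665552)))))) (a (a (b (b (l 17263120) (l 17285960)) (l 2)) (a (b (c (l 17657816) (l 56473248855)) (l 2)) (b (c (l 17439440) (l 17176216)) (b (l 17327600) (l 2))))) (b (b (a (b (l 17388968) (l 17523624))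 (b (l 17570160) (a (l 17397736) (l 17504960)))) (a (l 17311376) (a (l 17332656) (b (l 17484296) (l 17373808))))) (b (a (l 17331504) (a (l 17315032) (b (l 17329352) (l 17305968)))) (a (l 2) (l 17316200)))))), by decide +kernel⟩

theorem c_pm_202_a : CertF 0 536870912 1073741824 536870912 201326592 134217728 false true false .pp 2 0 2
    ndF1q2a ndF4q2 pcF0 Cut.none Ext.none :=
  certF1 (fam := false) (s1 := true) (s2 := false) (a := 2) (b := 0) (c := 2) (cn := .pp) (n1 := ndF1q2a) (n2 := ndF4q2) (pc := pcF0) (cut := Cut.none) (xt := Ext.none) (P1 := 0) (W1 := 536870912) (P2 := 1073741824) (W2 := 536870912) (P3 := 201326592) (W3 := 134217728)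
    rfl (fun _ => rfl) k0_pm_202_a

noncomputable def f_pm_202_b : ℕ → ℕ → ℕ → ℕ → Bool := onCell 0 536870912 1073741824 536870912 201326592 134217728
    (rowF 2 false true false .pp 2 0 2 (qsf 1239849684 370763052 1073741824 536870912 0) ndF1q2b ndF4q2 pcF0 Cut.none Ext.none)

def k0_pm_202_b : ∃ t, chk3 f_pm_202_b t 1 1 1 = true :=
  ⟨(a (b (a (b (l 1) (a (a (l 131568309815) (l 116535884023)) (b (l 1) (l 17300176)))) (l 1)) (a (a (b (b (l 16964216) (l 16919240)) (b (l 17332720) (l 17652056))) (b (b (l 16914840) (l 17035360)) (b (l 17377600) (l 17611128)))) (b (a (b (l 16839416) (l 17065024)) (b (l 1) (l 105798162823))) (a (b (l 17330008) (l 17504936)) (b (l 17249776) (l 17395736)))))) (b (l 1) (a (b (l 1) (a (b (l 17178232) (l 17301048)) (b (l 1) (l 17216440)))) (l 1)))), by decide +kernel⟩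

theorem c_pm_202_b : CertF 1239849684 370763052 1073741824 536870912 201326592 134217728 false true false .pp 2 0 2
    ndF1q2b ndF4q2 pcF0 Cut.none Ext.none :=
  certF2 (fam := false) (s1 := true) (s2 := false) (a := 2) (b := 0) (c := 2) (cn := .pp) (n1 := ndF1q2b) (n2 := ndF4q2) (pc := pcF0) (cut := Cut.none) (xt := Ext.none) (P1 := 1239849684) (W1 := 370763052) (P2 := 1073741824) (W2 := 536870912) (P3 := 201326592) (W3 := 134217728)
    rfl (fun _ => rfl) k0_pm_202_b

noncomputable def f_pm_203_a : ℕ → ℕ → ℕ → ℕ → Bool := onCell 0 536870912 0 1230186008 201326592 134217728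
    (rowF 0 false true false .up 2 0 3 (qsf 0 536870912 0 1230186008 0) ndF1q2a ndF4q3 pcF0 Cut.none Ext.none)

def k0_pm_203_a : ∃ t, chk3 f_pm_203_a t 1 1 1 = true :=
  ⟨(b (l 2) (b (l 2) (b (a (b (l 2) (a (b (l 2) (l 17213536)) (l 17283184))) (l 2)) (a (b (a (l 17342480) (b (l 17318328) (l 17337424))) (a (b (l 17290960) (l 17303096)) (b (l 17344096) (l 17342528)))) (a (b (a (l 17365232) (l 17380280)) (l 17363168)) (b (l 17396656) (a (l 17360208) (l 17354632)))))))), by decide +kernel⟩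

theorem c_pm_203_a : CertF 0 536870912 0 1230186008 201326592 134217728 false true false .up 2 0 3
    ndF1q2a ndF4q3 pcF0 Cut.none Ext.none :=
  certF0 (fam := false) (s1 := true) (s2 := false) (a := 2) (b := 0) (c := 3) (cn := .up) (n1 := ndF1q2a) (n2 := ndF4q3) (pc := pcF0) (cut := Cut.none) (xt := Ext.none) (P1 := 0) (W1 := 536870912) (P2 := 0) (W2 := 1230186008) (P3 := 201326592) (W3 := 134217728)
    rfl k0_pm_203_a

noncomputable def f_pm_203_b : ℕ → ℕ → ℕ → ℕ → Bool := onCell 0 536870912 0 1230186008 201326592 134217728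
    (rowF 2 false true false .up 2 0 3 (qsf 1239849684 370763052 0 1230186008 0) ndF1q2b ndF4q3 pcF0 Cut.none Ext.none)

def k0_pm_203_b : ∃ t, chk3 f_pm_203_b t 1 1 1 = true :=
  ⟨(b (l 3) (a (b (l 3) (b (l 3) (a (a (b (l 2) (b (c (l 17934104) (l 17632752)) (c (l 17952208) (l 17608368)))) (c (l 17842200) (l 22718400359))) (c (a (l 17761296) (l 17676704)) (a (l 17551720) (l 17467472)))))) (b (l 3) (a (b (b (l 3) (a (l 17440384) (l 17357760))) (a (c (l 17585200) (l 17298864)) (c (l 17488464) (l 17318792)))) (a (b (c (l 17520616) (l 49561205575)) (c (l 90766465655) (b (l 17160872) (l 17100224)))) (b (b (l 98416289335) (c (l 17279832) (l 17106208))) (b (l 101503322407) (l 1)))))))), by decide +kernel⟩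

theorem c_pm_203_b : CertF 1239849684 370763052 0 1230186008 201326592 134217728 false true false .up 2 0 3
    ndF1q2b ndF4q3 pcF0 Cut.none Ext.none :=
  certF2 (fam := false) (s1 := true) (s2 := false) (a := 2) (b := 0) (c := 3) (cn := .up) (n1 := ndF1q2b) (n2 := ndF4q3) (pc := pcF0) (cut := Cut.none) (xt := Ext.none) (P1 := 1239849684) (W1 := 370763052) (P2 := 0) (W2 := 1230186008) (P3 := 201326592) (W3 := 134217728)
    rfl (fun _ => rfl) k0_pm_203_b

noncomputable def cut_pm_213_a : Cut := Cut.of [[⟨0, 1, 0, 57167902⟩, ⟨1, 1, 0, 57167902⟩, ⟨2, 2, 0, 11758673⟩]]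

noncomputable def f_pm_213_a : ℕ → ℕ → ℕ → ℕ → Bool := onCell 0 536870912 0 1230186008 201326592 134217728
    (rowF 0 false true false .pnn 2 1 3 (qsf 0 536870912 0 1230186008 1) ndF1q2a ndF4q3 pcF1 cut_pm_213_a Ext.none)

def k0_pm_213_a : ∃ t, chk3 f_pm_213_a t 1 1 1 = true :=
  ⟨(b (a (b (l 3) (b (l 3) (a (l 3) (a (l 3) (b (l 3) (l 245518012983)))))) (b (a (b (l 3) (a (l 3) (b (l 3) (l 295446870599)))) (b (a (l 3) (l 6)) (a (b (a (l 3) (l 261623950855)) (l 199884013959)) (b (a (l 166060893959) (l 16815504)) (l 16832824))))) (a (b (a (b (l 3) (l 275582690151)) (b (l 223506176055) (l 206326390407))) (a (b (a (l 253571037335) (l 16872288)) (l 17007176)) (b (l 16902296) (l 16914472)))) (b (a (b (l 16880120) (l 16865896)) (b (l 16859128) (l 16887808))) (a (l 16913008) (l 16936064)))))) (b (a (c (b (a (b (l 3) (l 286320362247)) (b (a (l 259476760983) (l 16954232)) (l 235318173559))) (a (b (l 269140590983) (l 258403380631)) (b (l 17105224) (l 17079952)))) (b (a (b (l 3) (l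 279340916935)) (a (b (l 254107956983) (l 235317613927)) (b (l 16907792) (l 16942048)))) (a (b (a (l 271287907879) (l 243370721047)) (a (l 252497552647) (l 16988176))) (b (l 17159736) (l 17023336))))) (b (a (b (a (l 16938336) (l 16949776)) (l 16980848)) (a (l 16982848) (l 17005560))) (a (b (l 17017824) (l 17051704)) (b (l 17048080) (l 17084216))))) (a (b (b (a (b (l 17042816) (l 17054992)) (l 17061288)) (a (b (l 17063984) (l 17069648)) (l 17078864))) (b (b (l 1473745265575) (l 1)) (l 1))) (b (a (b (l 17079976) (l 17144144)) (b (l 17108080) (l 17153600))) (b (a (b (l 17123688) (l 17145536)) (l 17177544)) (a (l 1) (l 143379597031))))))), by decide +kernel⟩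

theorem c_pm_213_a : CertF 0 536870912 0 1230186008 201326592 134217728 false true false .pnn 2 1 3
    ndF1q2a ndF4q3 pcF1 cut_pm_213_a Ext.none :=
  certF0 (fam := false) (s1 := true) (s2 := false) (a := 2) (b := 1) (c := 3) (cn := .pnn) (n1 := ndF1q2a) (n2 := ndF4q3) (pc := pcF1) (cut := cut_pm_213_a) (xt := Ext.none) (P1 := 0) (W1 := 536870912) (P2 := 0) (W2 := 1230186008) (P3 := 201326592) (W3 := 134217728)
    rfl k0_pm_213_a

noncomputable def cut_pm_213_b : Cut := Cut.of [[⟨0, 1, 0, 57167902⟩, ⟨1, 1, 0, 57167902⟩, ⟨2, 2, 0, 11758673⟩]]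

noncomputable def f_pm_213_b : ℕ → ℕ → ℕ → ℕ → Bool := onCell 1239849684 370763052 0 1230186008 201326592 134217728
    (rowF 0 false true false .pnn 2 1 3 (qsf 1239849684 370763052 0 1230186008 1) ndF1q2b ndF4q3 pcF1 cut_pm_213_b Ext.none)

def k0_pm_213_b : ∃ t, chk3 f_pm_213_b t 1 1 1 = true :=
  ⟨(b (l 3) (b (a (b (l 3) (a (b (l 3) (a (b (l 3) (c (l 17100568) (l 16995984))) (l 3))) (l 3))) (l 3)) (a (b (a (b (a (b (c (l 17126248) (l 17013560)) (l 17142480)) (b (l 17126904) (l 17172048))) (a (b (l 17089936) (l 17095592)) (l 1))) (l 1)) (l 1)) (l 1)))), by decide +kernel⟩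

theorem c_pm_213_b : CertF 1239849684 370763052 0 1230186008 201326592 134217728 false true false .pnn 2 1 3
    ndF1q2b ndF4q3 pcF1 cut_pm_213_b Ext.none :=
  certF0 (fam := false) (s1 := true) (s2 := false) (a := 2) (b := 1) (c := 3) (cn := .pnn) (n1 := ndF1q2b) (n2 := ndF4q3) (pc := pcF1) (cut := cut_pm_213_b) (xt := Ext.none) (P1 := 1239849684) (W1 := 370763052) (P2 := 0) (W2 := 1230186008) (P3 := 201326592) (W3 := 134217728)
    rfl k0_pm_213_b

noncomputable def f_pm_303 : ℕ → ℕ → ℕ → ℕ → Bool := onCell 0 536870912 0 1230186008 201326592 134217728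
    (rowF 2 false true false .npn 3 0 3 (qsf 1610612736 536870912 0 1230186008 0) ndF1q3 ndF4q3 pcF0 Cut.none Ext.none)

def k0_pm_303 : ∃ t, chk3 f_pm_303 t 1 1 1 = true :=
  ⟨(b (l 3) (a (b (l 3) (b (l 3) (a (a (b (l 3) (a (c (l 17912768) (l 17648488)) (l 17763008))) (c (l 17778704) (l 17530920))) (c (l 17642264) (b (l 17617856) (l 1)))))) (b (l 3) (l 1)))), by decide +kernel⟩

theorem c_pm_303 : CertF 1610612736 536870912 0 1230186008 201326592 134217728 false true false .npn 3 0 3
    ndF1q3 ndF4q3 pcF0 Cut.none Ext.none :=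
  certF2 (fam := false) (s1 := true) (s2 := false) (a := 3) (b := 0) (c := 3) (cn := .npn) (n1 := ndF1q3) (n2 := ndF4q3) (pc := pcF0) (cut := Cut.none) (xt := Ext.none) (P1 := 1610612736) (W1 := 536870912) (P2 := 0) (W2 := 1230186008) (P3 := 201326592) (W3 := 134217728)
    rfl (fun _ => rfl) k0_pm_303

noncomputable def f_pm_313 : ℕ → ℕ → ℕ → ℕ → Bool := onCell 1610612736 536870912 0 1230186008 201326592 134217728
    (rowF 0 false true false .dn 3 1 3 (qsf 1610612736 536870912 0 1230186008 1) ndF1q3 ndF4q3 pcF1 Cut.none Ext.none)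

def k0_pm_313 : ∃ t, chk3 f_pm_313 t 1 1 1 = true :=
  ⟨(b (l 3) (l 1)), by decide +kernel⟩

theorem c_pm_313 : CertF 1610612736 536870912 0 1230186008 201326592 134217728 false true false .dn 3 1 3
    ndF1q3 ndF4q3 pcF1 Cut.none Ext.none :=
  certF0 (fam := false) (s1 := true) (s2 := false) (a := 3) (b := 1) (c := 3) (cn := .dn) (n1 := ndF1q3) (n2 := ndF4q3) (pc := pcF1) (cut := Cut.none) (xt := Ext.none) (P1 := 1610612736) (W1 := 536870912) (P2 := 0) (W2 := 1230186008) (P3 := 201326592) (W3 := 134217728)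
    rfl k0_pm_313

noncomputable def f_mm_001 : ℕ → ℕ → ℕ → ℕ → Bool := onCell 0 536870912 0 536870912 201326592 134217728
    (rowF 1 false false false .up 0 0 1 (qsf 0 536870912 536870912 536870912 0) ndF1q0 ndF4q1 pcF0 Cut.none Ext.none)

def k0_mm_001 : ∃ t, chk3 f_mm_001 t 1 1 1 = true :=
  ⟨(l 3), by decide +kernel⟩

theorem c_mm_001 : CertF 0 536870912 536870912 536870912 201326592 134217728 false false false .up 0 0 1
    ndF1q0 ndF4q1 pcF0 Cut.none Ext.none :=
  certF1 (fam := false) (s1 := false) (s2 := false) (a := 0) (b := 0) (c := 1) (cn := .up) (n1 := ndF1q0) (n2 := ndF4q1) (pc := pcF0) (cut := Cut.none) (xt := Ext.none) (P1 := 0) (W1 := 536870912) (P2 := 536870912) (W2 := 536870912) (P3 := 201326592) (W3 := 134217728)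
    rfl (fun _ => rfl) k0_mm_001

noncomputable def f_mm_011 : ℕ → ℕ → ℕ → ℕ → Bool := onCell 0 536870912 536870912 536870912 201326592 134217728
    (rowF 1 false false false .pnn 0 1 1 (qsf 0 536870912 536870912 536870912 1) ndF1q0 ndF4q1 pcF1 Cut.none Ext.none)

def k0_mm_011 : ∃ t, chk3 f_mm_011 t 1 1 1 = true :=
  ⟨(l 5), by decide +kernel⟩

theorem c_mm_011 : CertF 0 536870912 536870912 536870912 201326592 134217728 false false false .pnn 0 1 1
    ndF1q0 ndF4q1 pcF1 Cut.none Ext.none :=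
  certF1 (fam := false) (s1 := false) (s2 := false) (a := 0) (b := 1) (c := 1) (cn := .pnn) (n1 := ndF1q0) (n2 := ndF4q1) (pc := pcF1) (cut := Cut.none) (xt := Ext.none) (P1 := 0) (W1 := 536870912) (P2 := 536870912) (W2 := 536870912) (P3 := 201326592) (W3 := 134217728)
    rfl (fun _ => rfl) k0_mm_011

noncomputable def f_mm_012 : ℕ → ℕ → ℕ → ℕ → Bool := onCell 0 536870912 1073741824 536870912 201326592 134217728
    (rowF 0 false false false .pnp 0 1 2 (qsf 0 536870912 1073741824 536870912 1) ndF1q0 ndF4q2 pcF1 Cut.none Ext.none)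

def k0_mm_012 : ∃ t, chk3 f_mm_012 t 1 1 1 = true :=
  ⟨(l 5), by decide +kernel⟩

theorem c_mm_012 : CertF 0 536870912 1073741824 536870912 201326592 134217728 false false false .pnp 0 1 2
    ndF1q0 ndF4q2 pcF1 Cut.none Ext.none :=
  certF0 (fam := false) (s1 := false) (s2 := false) (a := 0) (b := 1) (c := 2) (cn := .pnp) (n1 := ndF1q0) (n2 := ndF4q2) (pc := pcF1) (cut := Cut.none) (xt := Ext.none) (P1 := 0) (W1 := 536870912) (P2 := 1073741824) (W2 := 536870912) (P3 := 201326592) (W3 := 134217728)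
    rfl k0_mm_012

noncomputable def f_mm_022 : ℕ → ℕ → ℕ → ℕ → Bool := onCell 0 536870912 1073741824 536870912 201326592 134217728
    (rowF 0 false false false .pp 0 2 2 (qsf 0 536870912 1073741824 536870912 2) ndF1q0 ndF4q2 pcF2 Cut.none Ext.none)

def k0_mm_022 : ∃ t, chk3 f_mm_022 t 1 1 1 = true :=
  ⟨(l 5), by decide +kernel⟩

theorem c_mm_022 : CertF 0 536870912 1073741824 536870912 201326592 134217728 false false false .pp 0 2 2
    ndF1q0 ndF4q2 pcF2 Cut.none Ext.none :=
  certF0 (fam := false) (s1 := false) (s2 := false) (a := 0) (b := 2) (c := 2) (cn := .pp) (n1 := ndF1q0) (n2 := ndF4q2) (pc := pcF2) (cut := Cut.none) (xt := Ext.none) (P1 := 0) (W1 := 536870912) (P2 := 1073741824) (W2 := 536870912) (P3 := 201326592) (W3 := 134217728)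
    rfl k0_mm_022

noncomputable def f_mm_023 : ℕ → ℕ → ℕ → ℕ → Bool := onCell 0 536870912 0 1230186008 201326592 134217728
    (rowF 0 false false false .up 0 2 3 (qsf 0 536870912 0 1230186008 2) ndF1q0 ndF4q3 pcF2 Cut.none Ext.none)

def k0_mm_023 : ∃ t, chk3 f_mm_023 t 1 1 1 = true :=
  ⟨(l 5), by decide +kernel⟩

theorem c_mm_023 : CertF 0 536870912 0 1230186008 201326592 134217728 false false false .up 0 2 3
    ndF1q0 ndF4q3 pcF2 Cut.none Ext.none :=
  certF0 (fam := false) (s1 := false) (s2 := false) (a := 0) (b := 2) (c := 3) (cn := .up) (n1 := ndF1q0) (n2 := ndF4q3) (pc := pcF2) (cut := Cut.none) (xt := Ext.none) (P1 := 0) (W1 := 536870912) (P2 := 0) (W2 := 1230186008) (P3 := 201326592) (W3 := 134217728)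
    rfl k0_mm_023

noncomputable def f_mm_033 : ℕ → ℕ → ℕ → ℕ → Bool := onCell 0 536870912 0 1230186008 201326592 134217728
    (rowF 0 false false false .pnn 0 3 3 (qsf 0 536870912 0 1230186008 3) ndF1q0 ndF4q3 pcF3 Cut.none Ext.none)

def k0_mm_033 : ∃ t, chk3 f_mm_033 t 1 1 1 = true :=
  ⟨(l 5), by decide +kernel⟩

theorem c_mm_033 : CertF 0 536870912 0 1230186008 201326592 134217728 false false false .pnn 0 3 3
    ndF1q0 ndF4q3 pcF3 Cut.none Ext.none :=
  certF0 (fam := false) (s1 := false) (s2 := false) (a := 0) (b := 3) (c := 3) (cn := .pnn) (n1 := ndF1q0) (n2 := ndF4q3) (pc := pcF3) (cut := Cut.none) (xt := Ext.none) (P1 := 0) (W1 := 536870912) (P2 := 0) (W2 := 1230186008) (P3 := 201326592) (W3 := 134217728)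
    rfl k0_mm_033

noncomputable def f_mm_101 : ℕ → ℕ → ℕ → ℕ → Bool := onCell 536870912 536870912 536870912 536870912 201326592 134217728
    (rowF 0 false false false .npn 1 0 1 (qsf 536870912 536870912 536870912 536870912 0) ndF1q1 ndF4q1 pcF0 Cut.none Ext.none)

def k0_mm_101 : ∃ t, chk3 f_mm_101 t 1 1 1 = true :=
  ⟨(l 3), by decide +kernel⟩

theorem c_mm_101 : CertF 536870912 536870912 536870912 536870912 201326592 134217728 false false false .npn 1 0 1
    ndF1q1 ndF4q1 pcF0 Cut.none Ext.none :=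
  certF0 (fam := false) (s1 := false) (s2 := false) (a := 1) (b := 0) (c := 1) (cn := .npn) (n1 := ndF1q1) (n2 := ndF4q1) (pc := pcF0) (cut := Cut.none) (xt := Ext.none) (P1 := 536870912) (W1 := 536870912) (P2 := 536870912) (W2 := 536870912) (P3 := 201326592) (W3 := 134217728)
    rfl k0_mm_101

noncomputable def f_mm_102 : ℕ → ℕ → ℕ → ℕ → Bool := onCell 536870912 536870912 1073741824 536870912 201326592 134217728
    (rowF 0 false false false .npp 1 0 2 (qsf 536870912 536870912 1073741824 536870912 0) ndF1q1 ndF4q2 pcF0 Cut.none Ext.none)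

def k0_mm_102 : ∃ t, chk3 f_mm_102 t 1 1 1 = true :=
  ⟨(l 3), by decide +kernel⟩

theorem c_mm_102 : CertF 536870912 536870912 1073741824 536870912 201326592 134217728 false false false .npp 1 0 2
    ndF1q1 ndF4q2 pcF0 Cut.none Ext.none :=
  certF0 (fam := false) (s1 := false) (s2 := false) (a := 1) (b := 0) (c := 2) (cn := .npp) (n1 := ndF1q1) (n2 := ndF4q2) (pc := pcF0) (cut := Cut.none) (xt := Ext.none) (P1 := 536870912) (W1 := 536870912) (P2 := 1073741824) (W2 := 536870912) (P3 := 201326592) (W3 := 134217728)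
    rfl k0_mm_102

noncomputable def f_mm_112 : ℕ → ℕ → ℕ → ℕ → Bool := onCell 536870912 536870912 1073741824 536870912 201326592 134217728
    (rowF 0 false false false .dn 1 1 2 (qsf 536870912 536870912 1073741824 536870912 1) ndF1q1 ndF4q2 pcF1 Cut.none Ext.none)

def k0_mm_112 : ∃ t, chk3 f_mm_112 t 1 1 1 = true :=
  ⟨(l 3), by decide +kernel⟩

theorem c_mm_112 : CertF 536870912 536870912 1073741824 536870912 201326592 134217728 false false false .dn 1 1 2
    ndF1q1 ndF4q2 pcF1 Cut.none Ext.none :=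
  certF0 (fam := false) (s1 := false) (s2 := false) (a := 1) (b := 1) (c := 2) (cn := .dn) (n1 := ndF1q1) (n2 := ndF4q2) (pc := pcF1) (cut := Cut.none) (xt := Ext.none) (P1 := 536870912) (W1 := 536870912) (P2 := 1073741824) (W2 := 536870912) (P3 := 201326592) (W3 := 134217728)
    rfl k0_mm_112

noncomputable def f_mm_113 : ℕ → ℕ → ℕ → ℕ → Bool := onCell 536870912 536870912 0 1230186008 201326592 134217728
    (rowF 0 false false false .nn 1 1 3 (qsf 536870912 536870912 0 1230186008 1) ndF1q1 ndF4q3 pcF1 Cut.none Ext.none)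

def k0_mm_113 : ∃ t, chk3 f_mm_113 t 1 1 1 = true :=
  ⟨(l 5), by decide +kernel⟩

theorem c_mm_113 : CertF 536870912 536870912 0 1230186008 201326592 134217728 false false false .nn 1 1 3
    ndF1q1 ndF4q3 pcF1 Cut.none Ext.none :=
  certF0 (fam := false) (s1 := false) (s2 := false) (a := 1) (b := 1) (c := 3) (cn := .nn) (n1 := ndF1q1) (n2 := ndF4q3) (pc := pcF1) (cut := Cut.none) (xt := Ext.none) (P1 := 536870912) (W1 := 536870912) (P2 := 0) (W2 := 1230186008) (P3 := 201326592) (W3 := 134217728)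
    rfl k0_mm_113

noncomputable def f_mm_123 : ℕ → ℕ → ℕ → ℕ → Bool := onCell 536870912 536870912 0 1230186008 201326592 134217728
    (rowF 0 false false false .npn 1 2 3 (qsf 536870912 536870912 0 1230186008 2) ndF1q1 ndF4q3 pcF2 Cut.none Ext.none)

def k0_mm_123 : ∃ t, chk3 f_mm_123 t 1 1 1 = true :=
  ⟨(l 5), by decide +kernel⟩

theorem c_mm_123 : CertF 536870912 536870912 0 1230186008 201326592 134217728 false false false .npn 1 2 3
    ndF1q1 ndF4q3 pcF2 Cut.none Ext.none :=
  certF0 (fam := false) (s1 := false) (s2 := false) (a := 1) (b := 2) (c := 3) (cn := .npn) (n1 := ndF1q1) (n2 := ndF4q3) (pc := pcF2) (cut := Cut.none) (xt := Ext.none) (P1 := 536870912) (W1 := 536870912) (P2 := 0) (W2 := 1230186008) (P3 := 201326592) (W3 := 134217728)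
    rfl k0_mm_123

noncomputable def f_mm_133 : ℕ → ℕ → ℕ → ℕ → Bool := onCell 536870912 536870912 0 1230186008 201326592 134217728
    (rowF 0 false false false .dn 1 3 3 (qsf 536870912 536870912 0 1230186008 3) ndF1q1 ndF4q3 pcF3 Cut.none Ext.none)

def k0_mm_133 : ∃ t, chk3 f_mm_133 t 1 1 1 = true :=
  ⟨(l 5), by decide +kernel⟩

theorem c_mm_133 : CertF 536870912 536870912 0 1230186008 201326592 134217728 false false false .dn 1 3 3
    ndF1q1 ndF4q3 pcF3 Cut.none Ext.none :=
  certF0 (fam := false) (s1 := false) (s2 := false) (a := 1) (b := 3) (c := 3) (cn := .dn) (n1 := ndF1q1) (n2 := ndF4q3) (pc := pcF3) (cut := Cut.none) (xt := Ext.none) (P1 := 536870912) (W1 := 536870912) (P2 := 0) (W2 := 1230186008) (P3 := 201326592) (W3 := 134217728)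
    rfl k0_mm_133

noncomputable def f_mm_202_a : ℕ → ℕ → ℕ → ℕ → Bool := onCell 0 536870912 1073741824 536870912 201326592 134217728
    (rowF 0 false false false .pp 2 0 2 (qsf 0 536870912 1073741824 536870912 0) ndF1q2a ndF4q2 pcF0 Cut.none Ext.none)

def k0_mm_202_a : ∃ t, chk3 f_mm_202_a t 1 1 1 = true :=
  ⟨(l 3), by decide +kernel⟩

theorem c_mm_202_a : CertF 0 536870912 1073741824 536870912 201326592 134217728 false false false .pp 2 0 2
    ndF1q2a ndF4q2 pcF0 Cut.none Ext.none :=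
  certF0 (fam := false) (s1 := false) (s2 := false) (a := 2) (b := 0) (c := 2) (cn := .pp) (n1 := ndF1q2a) (n2 := ndF4q2) (pc := pcF0) (cut := Cut.none) (xt := Ext.none) (P1 := 0) (W1 := 536870912) (P2 := 1073741824) (W2 := 536870912) (P3 := 201326592) (W3 := 134217728)
    rfl k0_mm_202_a

noncomputable def f_mm_202_b : ℕ → ℕ → ℕ → ℕ → Bool := onCell 1239849684 370763052 1073741824 536870912 201326592 134217728
    (rowF 0 false false false .pp 2 0 2 (qsf 1239849684 370763052 1073741824 536870912 0) ndF1q2b ndF4q2 pcF0 Cut.none Ext.none)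

def k0_mm_202_b : ∃ t, chk3 f_mm_202_b t 1 1 1 = true :=
  ⟨(b (a (l 3) (l 1)) (l 3)), by decide +kernel⟩

theorem c_mm_202_b : CertF 1239849684 370763052 1073741824 536870912 201326592 134217728 false false false .pp 2 0 2
    ndF1q2b ndF4q2 pcF0 Cut.none Ext.none :=
  certF0 (fam := false) (s1 := false) (s2 := false) (a := 2) (b := 0) (c := 2) (cn := .pp) (n1 := ndF1q2b) (n2 := ndF4q2) (pc := pcF0) (cut := Cut.none) (xt := Ext.none) (P1 := 1239849684) (W1 := 370763052) (P2 := 1073741824) (W2 := 536870912) (P3 := 201326592) (W3 := 134217728)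
    rfl k0_mm_202_b

noncomputable def f_mm_203_a : ℕ → ℕ → ℕ → ℕ → Bool := onCell 0 536870912 0 1230186008 201326592 134217728
    (rowF 0 false false false .up 2 0 3 (qsf 0 536870912 0 1230186008 0) ndF1q2a ndF4q3 pcF0 Cut.none Ext.none)

def k0_mm_203_a : ∃ t, chk3 f_mm_203_a t 1 1 1 = true :=
  ⟨(b (l 2) (l 3)), by decide +kernel⟩

theorem c_mm_203_a : CertF 0 536870912 0 1230186008 201326592 134217728 false false false .up 2 0 3
    ndF1q2a ndF4q3 pcF0 Cut.none Ext.none :=
  certF0 (fam := false) (s1 := false) (s2 := false) (a := 2) (b := 0) (c := 3) (cn := .up) (n1 := ndF1q2a) (n2 := ndF4q3) (pc := pcF0) (cut := Cut.none) (xt := Ext.none) (P1 := 0) (W1 := 536870912) (P2 := 0) (W2 := 1230186008) (P3 := 201326592) (W3 := 134217728)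
    rfl k0_mm_203_a

noncomputable def f_mm_203_b : ℕ → ℕ → ℕ → ℕ → Bool := onCell 1239849684 370763052 0 1230186008 201326592 134217728
    (rowF 0 false false false .up 2 0 3 (qsf 1239849684 370763052 0 1230186008 0) ndF1q2b ndF4q3 pcF0 Cut.none Ext.none)

def k0_mm_203_b : ∃ t, chk3 f_mm_203_b t 1 1 1 = true :=
  ⟨(b (l 3) (l 3)), by decide +kernel⟩

theorem c_mm_203_b : CertF 1239849684 370763052 0 1230186008 201326592 134217728 false false false .up 2 0 3
    ndF1q2b ndF4q3 pcF0 Cut.none Ext.none :=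
  certF0 (fam := false) (s1 := false) (s2 := false) (a := 2) (b := 0) (c := 3) (cn := .up) (n1 := ndF1q2b) (n2 := ndF4q3) (pc := pcF0) (cut := Cut.none) (xt := Ext.none) (P1 := 1239849684) (W1 := 370763052) (P2 := 0) (W2 := 1230186008) (P3 := 201326592) (W3 := 134217728)
    rfl k0_mm_203_b

noncomputable def f_mm_213_a : ℕ → ℕ → ℕ → ℕ → Bool := onCell 0 536870912 0 1230186008 201326592 134217728
    (rowF 0 false false false .pnn 2 1 3 (qsf 0 536870912 0 1230186008 1) ndF1q2a ndF4q3 pcF1 Cut.none Ext.none)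

def k0_mm_213_a : ∃ t, chk3 f_mm_213_a t 1 1 1 = true :=
  ⟨(b (a (l 3) (l 5)) (l 3)), by decide +kernel⟩

theorem c_mm_213_a : CertF 0 536870912 0 1230186008 201326592 134217728 false false false .pnn 2 1 3
    ndF1q2a ndF4q3 pcF1 Cut.none Ext.none :=
  certF0 (fam := false) (s1 := false) (s2 := false) (a := 2) (b := 1) (c := 3) (cn := .pnn) (n1 := ndF1q2a) (n2 := ndF4q3) (pc := pcF1) (cut := Cut.none) (xt := Ext.none) (P1 := 0) (W1 := 536870912) (P2 := 0) (W2 := 1230186008) (P3 := 201326592) (W3 := 134217728)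
    rfl k0_mm_213_a

noncomputable def f_mm_213_b : ℕ → ℕ → ℕ → ℕ → Bool := onCell 1239849684 370763052 0 1230186008 201326592 134217728
    (rowF 0 false false false .pnn 2 1 3 (qsf 1239849684 370763052 0 1230186008 1) ndF1q2b ndF4q3 pcF1 Cut.none Ext.none)

def k0_mm_213_b : ∃ t, chk3 f_mm_213_b t 1 1 1 = true :=
  ⟨(b (l 3) (l 3)), by decide +kernel⟩

theorem c_mm_213_b : CertF 1239849684 370763052 0 1230186008 201326592 134217728 false false false .pnn 2 1 3
    ndF1q2b ndF4q3 pcF1 Cut.none Ext.none :=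
  certF0 (fam := false) (s1 := false) (s2 := false) (a := 2) (b := 1) (c := 3) (cn := .pnn) (n1 := ndF1q2b) (n2 := ndF4q3) (pc := pcF1) (cut := Cut.none) (xt := Ext.none) (P1 := 1239849684) (W1 := 370763052) (P2 := 0) (W2 := 1230186008) (P3 := 201326592) (W3 := 134217728)
    rfl k0_mm_213_b

noncomputable def f_mm_303 : ℕ → ℕ → ℕ → ℕ → Bool := onCell 0 536870912 0 1230186008 201326592 134217728
    (rowF 2 false false false .npn 3 0 3 (qsf 1610612736 536870912 0 1230186008 0) ndF1q3 ndF4q3 pcF0 Cut.none Ext.none)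

def k0_mm_303 : ∃ t, chk3 f_mm_303 t 1 1 1 = true :=
  ⟨(b (l 3) (l 3)), by decide +kernel⟩

theorem c_mm_303 : CertF 1610612736 536870912 0 1230186008 201326592 134217728 false false false .npn 3 0 3
    ndF1q3 ndF4q3 pcF0 Cut.none Ext.none :=
  certF2 (fam := false) (s1 := false) (s2 := false) (a := 3) (b := 0) (c := 3) (cn := .npn) (n1 := ndF1q3) (n2 := ndF4q3) (pc := pcF0) (cut := Cut.none) (xt := Ext.none) (P1 := 1610612736) (W1 := 536870912) (P2 := 0) (W2 := 1230186008) (P3 := 201326592) (W3 := 134217728)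
    rfl (fun _ => rfl) k0_mm_303

noncomputable def f_mm_313 : ℕ → ℕ → ℕ → ℕ → Bool := onCell 1610612736 536870912 0 1230186008 201326592 134217728
    (rowF 0 false false false .dn 3 1 3 (qsf 1610612736 536870912 0 1230186008 1) ndF1q3 ndF4q3 pcF1 Cut.none Ext.none)

def k0_mm_313 : ∃ t, chk3 f_mm_313 t 1 1 1 = true :=
  ⟨(b (l 3) (l 1)), by decide +kernel⟩

theorem c_mm_313 : CertF 1610612736 536870912 0 1230186008 201326592 134217728 false false false .dn 3 1 3
    ndF1q3 ndF4q3 pcF1 Cut.none Ext.none :=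
  certF0 (fam := false) (s1 := false) (s2 := false) (a := 3) (b := 1) (c := 3) (cn := .dn) (n1 := ndF1q3) (n2 := ndF4q3) (pc := pcF1) (cut := Cut.none) (xt := Ext.none) (P1 := 1610612736) (W1 := 536870912) (P2 := 0) (W2 := 1230186008) (P3 := 201326592) (W3 := 134217728)
    rfl k0_mm_313

end Pool.Agent.Strip051.G.I3_16_5_16.Tab.C.FB14

namespace Pool.Agent.Strip051.G.I3_16_5_16.Tab.C.FB15

open Pool.Agent.Strip051.PB Pool.Agent.Strip051.PB.T
open Pool.Agent.Strip051.G.I3_16_5_16.Tab

noncomputable def f_pp_001 : ℕ → ℕ → ℕ → ℕ → Bool := onCell 0 536870912 0 536870912 201326592 134217728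
    (rowF 1 false true true .up 0 0 1 (qsf 0 536870912 536870912 536870912 0) ndF1q0 ndF5q1 pcF0 Cut.none Ext.none)

def k0_pp_001 : ∃ t, chk3 f_pp_001 t 1 1 1 = true :=
  ⟨(l 3), by decide +kernel⟩

theorem c_pp_001 : CertF 0 536870912 536870912 536870912 201326592 134217728 false true true .up 0 0 1
    ndF1q0 ndF5q1 pcF0 Cut.none Ext.none :=
  certF1 (fam := false) (s1 := true) (s2 := true) (a := 0) (b := 0) (c := 1) (cn := .up) (n1 := ndF1q0) (n2 := ndF5q1) (pc := pcF0) (cut := Cut.none) (xt := Ext.none) (P1 := 0) (W1 := 536870912) (P2 := 536870912) (W2 := 536870912) (P3 := 201326592) (W3 := 134217728)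
    rfl (fun _ => rfl) k0_pp_001

noncomputable def cut_pp_011 : Cut := Cut.of [[⟨0, 0, 0, 67108864⟩, ⟨1, 1, 0, 67108864⟩, ⟨2, 1, 0, 67108864⟩]]

noncomputable def f_pp_011 : ℕ → ℕ → ℕ → ℕ → Bool := onCell 0 536870912 536870912 536870912 201326592 134217728
    (rowF 1 false true true .pnn 0 1 1 (qsf 0 536870912 536870912 536870912 1) ndF1q0 ndF5q1 pcF1 cut_pp_011 Ext.none)

def k0_pp_011 : ∃ t, chk3 f_pp_011 t 1 1 1 = true :=
  ⟨(b (l 3) (b (l 3) (a (b (l 3) (a (a (a (b (l 3) (l 6)) (l 3)) (l 3)) (l 2))) (l 2)))), by decide +kernel⟩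

theorem c_pp_011 : CertF 0 536870912 536870912 536870912 201326592 134217728 false true true .pnn 0 1 1
    ndF1q0 ndF5q1 pcF1 cut_pp_011 Ext.none :=
  certF1 (fam := false) (s1 := true) (s2 := true) (a := 0) (b := 1) (c := 1) (cn := .pnn) (n1 := ndF1q0) (n2 := ndF5q1) (pc := pcF1) (cut := cut_pp_011) (xt := Ext.none) (P1 := 0) (W1 := 536870912) (P2 := 536870912) (W2 := 536870912) (P3 := 201326592) (W3 := 134217728)
    rfl (fun _ => rfl) k0_pp_011

noncomputable def cut_pp_012 : Cut := Cut.of [[⟨0, 0, 0, 67108864⟩, ⟨1, 1, 0, 67108864⟩, ⟨2, 1, 0, 67108864⟩]]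

noncomputable def f_pp_012 : ℕ → ℕ → ℕ → ℕ → Bool := onCell 0 536870912 536870912 536870912 201326592 134217728
    (rowF 1 false true true .pnp 0 1 2 (qsf 0 536870912 1073741824 536870912 1) ndF1q0 ndF5q2 pcF1 cut_pp_012 Ext.none)

def k0_pp_012 : ∃ t, chk3 f_pp_012 t 1 1 1 = true :=
  ⟨(b (l 3) (a (b (l 3) (a (b (l 3) (a (a (b (l 3) (l 6)) (l 3)) (l 3))) (l 3))) (l 3))), by decide +kernel⟩

theorem c_pp_012 : CertF 0 536870912 1073741824 536870912 201326592 134217728 false true true .pnp 0 1 2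
    ndF1q0 ndF5q2 pcF1 cut_pp_012 Ext.none :=
  certF1 (fam := false) (s1 := true) (s2 := true) (a := 0) (b := 1) (c := 2) (cn := .pnp) (n1 := ndF1q0) (n2 := ndF5q2) (pc := pcF1) (cut := cut_pp_012) (xt := Ext.none) (P1 := 0) (W1 := 536870912) (P2 := 1073741824) (W2 := 536870912) (P3 := 201326592) (W3 := 134217728)
    rfl (fun _ => rfl) k0_pp_012

noncomputable def cut_pp_022 : Cut := Cut.of [[⟨0, 0, 0, 67108864⟩, ⟨1, 1, 0, 67108864⟩, ⟨2, 1, 0, 67108864⟩]]

noncomputable def f_pp_022 : ℕ → ℕ → ℕ → ℕ → Bool := onCell 0 536870912 1073741824 536870912 201326592 134217728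
    (rowF 1 false true true .pp 0 2 2 (qsf 0 536870912 1073741824 536870912 2) ndF1q0 ndF5q2 pcF2 cut_pp_022 Ext.none)

def k0_pp_022 : ∃ t, chk3 f_pp_022 t 4 4 1 = true :=
  ⟨(b (a (b (a (b (l 6) (a (l 6) (a (l 6) (c (l 16799560) (l 16799512))))) (l 3)) (a (b (a (a (l 6) (b (l 6) (c (l 16730920) (l 16708048)))) (a (a (l 16741664) (l 16744808)) (l 16755288))) (a (a (c (a (c (l 16702224) (l 16701144)) (l 16705488)) (a (l 16699320) (l 16703056))) (c (l 16721752) (l 16708688))) (a (a (l 16714464) (l 16717784)) (l 16722064)))) (b (a (c (l 16752816) (l 16753752)) (l 3)) (a (l 16732608) (l 16752536))))) (b (l 3) (a (b (l 3) (l 3)) (l 3)))) (a (b (a (a (a (c (b (c (l 16677888) (l 16676648)) (a (l 16628000) (l 16632312))) (b (l 16674432) (l 16626896))) (c (b (l 16685352) (l 16638632)) (b (l 16661416) (l 16635336)))) (b (a (l 16702000) (l 16696904)) (c (l 16671904) (l 16668408)))) (b (a (l 16704648) (l 16692368)) (a (l 16680440) (l 16667840)))) (a (a (a (b (c (l 16624392) (l 16599832))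 (c (l 16575960) (l 16572320))) (c (l 16660752) (l 16636272))) (b (c (l 16624504) (l 16620840)) (c (l 16597024) (l 16593528)))) (b (a (l 16657320) (l 16644584)) (a (l 16632912) (l 16621640))))) (b (a (b (l 16737304) (l 16697024)) (b (l 3) (l 16679320))) (b (a (l 16651800) (l 16656984)) (a (l 16629016) (l 16633216)))))), by decide +kernel⟩

def k1_pp_022 : ∃ t, chk3 f_pp_022 t 4 5 1 = true :=
  ⟨(b (b (b (a (a (a (c (l 16572056) (l 16547264)) (l 16607456)) (a (l 16580688) (l 16616496))) (a (l 16646080) (l 16609200))) (a (c (a (a (b (l 16527864) (b (l 16514952) (l 16525880))) (l 16620496)) (l 16628264)) (a (a (b (l 16523672) (l 16589704)) (l 16637384)) (l 16590320))) (b (a (l 16584936) (l 16591296)) (b (a (l 16568728) (l 16613832)) (b (a (l 16556424) (l 16628312)) (l 16551032)))))) (a (a (c (a (l 16517896) (l 16488880)) (a (l 16470104) (l 16483008))) (c (l 16485272) (l 16500400))) (a (l 16525752) (l 16727280)))) (c (a (a (b (a (l 16434112) (l 16552704)) (a (l 16757272) (l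 16922680))) (b (l 16817216) (l 17088216))) (a (l 17118744) (l 17197568))) (a (a (b (l 16474808) (l 16397080)) (l 16509528)) (a (l 16564520) (l 16753616))))), by decide +kernel⟩

def k2_pp_022 : ∃ t, chk3 f_pp_022 t 5 2 1 = true :=
  ⟨(b (b (l 3) (b (l 3) (a (b (l 16716248) (l 16722712)) (l 3)))) (b (b (b (a (a (l 16706816) (l 16808648)) (l 16891984)) (b (a (l 16802768) (l 16922912)) (b (a (l 16823080) (l 16940456)) (b (a (l 16833480) (l 16948824)) (a (l 16840504) (l 16954328)))))) (a (l 16901872) (l 17002920))) (a (a (l 17052328) (l 17100192)) (l 17142760)))), by decide +kernel⟩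

def k3_pp_022 : ∃ t, chk3 f_pp_022 t 2 3 1 = true :=
  ⟨(a (a (b (b (a (c (b (l 16951248) (l 17401480)) (b (l 16369992) (l 16682728))) (b (l 16927624) (l 17190560))) (a (c (l 17659536) (b (l 16939432) (l 17141376))) (c (l 17672304) (l 17159880)))) (b (a (c (l 17870704) (l 17358088)) (l 17616600)) (a (l 17763424) (l 17739520)))) (b (b (a (c (l 17442984) (l 16949512)) (l 17249096)) (a (l 17442440) (l 17453424))) (b (l 17602528) (l 17700768)))) (b (a (b (l 17289640) (l 17455248)) (b (l 17312912) (l 17451080))) (a (b (l 17575624) (l 2)) (l 2)))), by decide +kernel⟩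

def k4_pp_022 : ∃ t, chk3 f_pp_022 t 3 1 1 = true :=
  ⟨(b (b (b (l 3) (l 3)) (b (b (b (a (l 3) (a (l 3) (l 2))) (a (b (a (l 16977400) (l 3)) (b (l 17079192) (b (l 17044840) (l 17028944)))) (l 2))) (a (a (l 17052904) (l 17092856)) (l 2))) (a (a (l 17178056) (l 17212032)) (l 2)))) (a (b (b (a (l 17329328) (l 2)) (l 2)) (l 2)) (l 2))), by decide +kernel⟩

theorem s5_pp_022 : ∃ t, chk3 f_pp_022 t 4 2 1 = true := ex3_b k0_pp_022 k1_pp_022

theorem s6_pp_022 : ∃ t, chk3 f_pp_022 t 2 2 1 = true := ex3_a s5_pp_022 k2_pp_022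

theorem s7_pp_022 : ∃ t, chk3 f_pp_022 t 2 1 1 = true := ex3_b s6_pp_022 k3_pp_022

theorem s8_pp_022 : ∃ t, chk3 f_pp_022 t 1 1 1 = true := ex3_a s7_pp_022 k4_pp_022

theorem c_pp_022 : CertF 0 536870912 1073741824 536870912 201326592 134217728 false true true .pp 0 2 2
    ndF1q0 ndF5q2 pcF2 cut_pp_022 Ext.none :=
  certF1 (fam := false) (s1 := true) (s2 := true) (a := 0) (b := 2) (c := 2) (cn := .pp) (n1 := ndF1q0) (n2 := ndF5q2) (pc := pcF2) (cut := cut_pp_022) (xt := Ext.none) (P1 := 0) (W1 := 536870912) (P2 := 1073741824) (W2 := 536870912) (P3 := 201326592) (W3 := 134217728)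
    rfl (fun _ => rfl) s8_pp_022

noncomputable def f_pp_023 : ℕ → ℕ → ℕ → ℕ → Bool := onCell 1073741824 536870912 0 1230186008 201326592 134217728
    (rowF 2 false true true .up 0 2 3 (qsf 0 536870912 0 1230186008 2) ndF1q0 ndF5q3 pcF2 Cut.none Ext.none)

def k0_pp_023 : ∃ t, chk3 f_pp_023 t 1 1 1 = true :=
  ⟨(b (a (l 2) (a (l 2) (a (b (l 2) (b (l 17540984) (l 17431832))) (b (l 17587576) (l 17522416))))) (b (a (b (l 2) (a (l 2) (a (l 2) (l 17367416)))) (a (a (b (l 2) (l 17406080)) (b (l 17420456) (l 17443272))) (a (b (l 17426400) (l 17487200)) (b (l 17457896) (l 17541792))))) (a (a (b (l 2) (l 3)) (a (a (a (b (l 17205952) (l 3)) (b (a (l 17218240) (a (l 17215816) (a (l 17225528) (l 17227360)))) (a (l 644413982455) (a (l 17135600) (b (l 17299376) (l 93584427543)))))) (b (l 17246408) (l 17234928))) (b (l 17301720) (b (l 17234912) (l 17194496))))) (b (b (l 17702048) (l 17534624)) (a (b (l 17392416) (l 17382944)) (b (l 17611904) (l 17838184))))))), by decide +kernel⟩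

theorem c_pp_023 : CertF 0 536870912 0 1230186008 201326592 134217728 false true true .up 0 2 3
    ndF1q0 ndF5q3 pcF2 Cut.none Ext.none :=
  certF2 (fam := false) (s1 := true) (s2 := true) (a := 0) (b := 2) (c := 3) (cn := .up) (n1 := ndF1q0) (n2 := ndF5q3) (pc := pcF2) (cut := Cut.none) (xt := Ext.none) (P1 := 0) (W1 := 536870912) (P2 := 0) (W2 := 1230186008) (P3 := 201326592) (W3 := 134217728)
    rfl (fun _ => rfl) k0_pp_023

noncomputable def f_pp_033 : ℕ → ℕ → ℕ → ℕ → Bool := onCell 1610612736 536870912 0 1230186008 201326592 134217728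
    (rowF 2 false true true .pnn 0 3 3 (qsf 0 536870912 0 1230186008 3) ndF1q0 ndF5q3 pcF3 Cut.none Ext.none)

def k0_pp_033 : ∃ t, chk3 f_pp_033 t 1 1 1 = true :=
  ⟨(b (b (a (a (a (l 17418904) (l 17406416)) (a (l 17402800) (l 17411224))) (a (l 93115422199) (l 4))) (a (a (b (l 17324464) (l 17301280)) (a (b (l 17386224) (l 17384040)) (l 17562304))) (a (a (l 17439032) (l 17678480)) (a (l 17534776) (a (l 17557992) (a (l 17596216) (l 1))))))) (b (a (b (a (l 17388200) (c (l 17588232) (l 17434896))) (a (b (l 17566064) (l 17621416)) (b (l 17677520) (l 17758672)))) (b (a (a (l 17585552) (l 162170774599)) (a (l 665755730375) (l 1))) (a (a (b (l 17749760) (l 17933264)) (b (l 17795568) (l 1))) (l 1)))) (a (b (a (b (l 17652096) (l 17731736)) (b (l 17819904) (a (l 17873728) (l 1)))) (a (b (l 17827832) (a (b (l 17844992) (l 17876488)) (b (l 406447691879) (l 1)))) (b (a (l 437049359191) (l 1)) (l 1)))) (l 1)))), by decide +kernel⟩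

theorem c_pp_033 : CertF 0 536870912 0 1230186008 201326592 134217728 false true true .pnn 0 3 3
    ndF1q0 ndF5q3 pcF3 Cut.none Ext.none :=
  certF2 (fam := false) (s1 := true) (s2 := true) (a := 0) (b := 3) (c := 3) (cn := .pnn) (n1 := ndF1q0) (n2 := ndF5q3) (pc := pcF3) (cut := Cut.none) (xt := Ext.none) (P1 := 0) (W1 := 536870912) (P2 := 0) (W2 := 1230186008) (P3 := 201326592) (W3 := 134217728)
    rfl (fun _ => rfl) k0_pp_033

noncomputable def f_pp_101 : ℕ → ℕ → ℕ → ℕ → Bool := onCell 536870912 536870912 536870912 536870912 201326592 134217728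
    (rowF 0 false true true .npn 1 0 1 (qsf 536870912 536870912 536870912 536870912 0) ndF1q1 ndF5q1 pcF0 Cut.none Ext.none)

def k0_pp_101 : ∃ t, chk3 f_pp_101 t 1 1 1 = true :=
  ⟨(l 3), by decide +kernel⟩

theorem c_pp_101 : CertF 536870912 536870912 536870912 536870912 201326592 134217728 false true true .npn 1 0 1
    ndF1q1 ndF5q1 pcF0 Cut.none Ext.none :=
  certF0 (fam := false) (s1 := true) (s2 := true) (a := 1) (b := 0) (c := 1) (cn := .npn) (n1 := ndF1q1) (n2 := ndF5q1) (pc := pcF0) (cut := Cut.none) (xt := Ext.none) (P1 := 536870912) (W1 := 536870912) (P2 := 536870912) (W2 := 536870912) (P3 := 201326592) (W3 := 134217728)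
    rfl k0_pp_101

noncomputable def f_pp_102 : ℕ → ℕ → ℕ → ℕ → Bool := onCell 536870912 536870912 1073741824 536870912 201326592 134217728
    (rowF 0 false true true .npp 1 0 2 (qsf 536870912 536870912 1073741824 536870912 0) ndF1q1 ndF5q2 pcF0 Cut.none Ext.none)

def k0_pp_102 : ∃ t, chk3 f_pp_102 t 1 1 1 = true :=
  ⟨(l 3), by decide +kernel⟩

theorem c_pp_102 : CertF 536870912 536870912 1073741824 536870912 201326592 134217728 false true true .npp 1 0 2
    ndF1q1 ndF5q2 pcF0 Cut.none Ext.none :=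
  certF0 (fam := false) (s1 := true) (s2 := true) (a := 1) (b := 0) (c := 2) (cn := .npp) (n1 := ndF1q1) (n2 := ndF5q2) (pc := pcF0) (cut := Cut.none) (xt := Ext.none) (P1 := 536870912) (W1 := 536870912) (P2 := 1073741824) (W2 := 536870912) (P3 := 201326592) (W3 := 134217728)
    rfl k0_pp_102

noncomputable def f_pp_112 : ℕ → ℕ → ℕ → ℕ → Bool := onCell 536870912 536870912 1073741824 536870912 201326592 134217728
    (rowF 0 false true true .dn 1 1 2 (qsf 536870912 536870912 1073741824 536870912 1) ndF1q1 ndF5q2 pcF1 Cut.none Ext.none)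

def k0_pp_112 : ∃ t, chk3 f_pp_112 t 1 1 1 = true :=
  ⟨(l 3), by decide +kernel⟩

theorem c_pp_112 : CertF 536870912 536870912 1073741824 536870912 201326592 134217728 false true true .dn 1 1 2
    ndF1q1 ndF5q2 pcF1 Cut.none Ext.none :=
  certF0 (fam := false) (s1 := true) (s2 := true) (a := 1) (b := 1) (c := 2) (cn := .dn) (n1 := ndF1q1) (n2 := ndF5q2) (pc := pcF1) (cut := Cut.none) (xt := Ext.none) (P1 := 536870912) (W1 := 536870912) (P2 := 1073741824) (W2 := 536870912) (P3 := 201326592) (W3 := 134217728)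
    rfl k0_pp_112

noncomputable def f_pp_113 : ℕ → ℕ → ℕ → ℕ → Bool := onCell 536870912 536870912 0 1230186008 201326592 134217728
    (rowF 2 false true true .nn 1 1 3 (qsf 536870912 536870912 0 1230186008 1) ndF1q1 ndF5q3 pcF1 Cut.none Ext.none)

def k0_pp_113 : ∃ t, chk3 f_pp_113 t 1 1 1 = true :=
  ⟨(b (a (l 2) (a (l 2) (b (a (l 2) (l 17148008)) (a (l 289541894423) (l 16942832))))) (a (l 3) (b (a (l 3) (b (l 3) (l 3))) (l 3)))), by decide +kernel⟩

theorem c_pp_113 : CertF 536870912 536870912 0 1230186008 201326592 134217728 false true true .nn 1 1 3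
    ndF1q1 ndF5q3 pcF1 Cut.none Ext.none :=
  certF2 (fam := false) (s1 := true) (s2 := true) (a := 1) (b := 1) (c := 3) (cn := .nn) (n1 := ndF1q1) (n2 := ndF5q3) (pc := pcF1) (cut := Cut.none) (xt := Ext.none) (P1 := 536870912) (W1 := 536870912) (P2 := 0) (W2 := 1230186008) (P3 := 201326592) (W3 := 134217728)
    rfl (fun _ => rfl) k0_pp_113

noncomputable def f_pp_123 : ℕ → ℕ → ℕ → ℕ → Bool := onCell 1073741824 536870912 0 1230186008 201326592 134217728
    (rowF 2 false true true .npn 1 2 3 (qsf 536870912 536870912 0 1230186008 2) ndF1q1 ndF5q3 pcF2 Cut.none Ext.none)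

def k0_pp_123 : ∃ t, chk3 f_pp_123 t 1 1 1 = true :=
  ⟨(b (b (a (a (a (l 17044800) (a (l 17089752) (l 17115256))) (a (a (l 17142128) (l 17155368)) (l 17171088))) (a (a (l 17180136) (l 17157592)) (b (l 17156280) (l 17136384)))) (a (a (a (b (l 17003296) (l 16997640)) (a (l 17029976) (a (l 17044904) (l 17053112)))) (a (a (a (l 17059696) (l 17063328)) (l 17059120)) (l 17054072))) (a (a (l 17035112) (l 17259704)) (a (b (l 17047056) (l 16932704)) (l 16994688))))) (b (a (b (a (a (l 16963000) (a (l 16980048) (l 16987920))) (a (a (l 17084344) (l 16970336)) (l 16965656))) (a (a (l 17143088) (l 174114756583)) (a (a (a (l 16944368) (a (l 16944760) (a (l 16939904) (l 16935648)))) (l 16933544)) (l 16932112)))) (a (a (b (l 16949640) (l 16926384)) (b (l 16908408) (l 16911696))) (a (b (l 16888072) (l 1)) (l 1)))) (a (a (b (a (l 3) (a (l 3) (l 17058736))) (l 3)) (a (a (a (b (l 17006488) (l 3)) (b (a (l 17001664) (b (l 17054376) (l 277059654983))) (l 1))) (b (l 16991696) (l 1))) (b (l 16983448)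 (l 1)))) (l 1)))), by decide +kernel⟩

theorem c_pp_123 : CertF 536870912 536870912 0 1230186008 201326592 134217728 false true true .npn 1 2 3
    ndF1q1 ndF5q3 pcF2 Cut.none Ext.none :=
  certF2 (fam := false) (s1 := true) (s2 := true) (a := 1) (b := 2) (c := 3) (cn := .npn) (n1 := ndF1q1) (n2 := ndF5q3) (pc := pcF2) (cut := Cut.none) (xt := Ext.none) (P1 := 536870912) (W1 := 536870912) (P2 := 0) (W2 := 1230186008) (P3 := 201326592) (W3 := 134217728)
    rfl (fun _ => rfl) k0_pp_123

noncomputable def f_pp_133 : ℕ → ℕ → ℕ → ℕ → Bool := onCell 536870912 536870912 0 1230186008 201326592 134217728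
    (rowF 0 false true true .dn 1 3 3 (qsf 536870912 536870912 0 1230186008 3) ndF1q1 ndF5q3 pcF3 Cut.none Ext.none)

def k0_pp_133 : ∃ t, chk3 f_pp_133 t 1 1 1 = true :=
  ⟨(b (b (a (a (b (l 17234376) (l 1)) (l 1)) (l 1)) (l 1)) (l 1)), by decide +kernel⟩

theorem c_pp_133 : CertF 536870912 536870912 0 1230186008 201326592 134217728 false true true .dn 1 3 3
    ndF1q1 ndF5q3 pcF3 Cut.none Ext.none :=
  certF0 (fam := false) (s1 := true) (s2 := true) (a := 1) (b := 3) (c := 3) (cn := .dn) (n1 := ndF1q1) (n2 := ndF5q3) (pc := pcF3) (cut := Cut.none) (xt := Ext.none) (P1 := 536870912) (W1 := 536870912) (P2 := 0) (W2 := 1230186008) (P3 := 201326592) (W3 := 134217728)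
    rfl k0_pp_133

noncomputable def f_pp_202_a : ℕ → ℕ → ℕ → ℕ → Bool := onCell 0 536870912 1073741824 536870912 201326592 134217728
    (rowF 0 false true true .pp 2 0 2 (qsf 0 536870912 1073741824 536870912 0) ndF1q2a ndF5q2 pcF0 Cut.none Ext.none)

def k0_pp_202_a : ∃ t, chk3 f_pp_202_a t 1 1 1 = true :=
  ⟨(l 5), by decide +kernel⟩

theorem c_pp_202_a : CertF 0 536870912 1073741824 536870912 201326592 134217728 false true true .pp 2 0 2
    ndF1q2a ndF5q2 pcF0 Cut.none Ext.none :=
  certF0 (fam := false) (s1 := true) (s2 := true) (a := 2) (b := 0) (c := 2) (cn := .pp) (n1 := ndF1q2a) (n2 := ndF5q2) (pc := pcF0) (cut := Cut.none) (xt := Ext.none) (P1 := 0) (W1 := 536870912) (P2 := 1073741824) (W2 := 536870912) (P3 := 201326592) (W3 := 134217728)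
    rfl k0_pp_202_a

noncomputable def f_pp_202_b : ℕ → ℕ → ℕ → ℕ → Bool := onCell 1239849684 370763052 1073741824 536870912 201326592 134217728
    (rowF 0 false true true .pp 2 0 2 (qsf 1239849684 370763052 1073741824 536870912 0) ndF1q2b ndF5q2 pcF0 Cut.none Ext.none)

def k0_pp_202_b : ∃ t, chk3 f_pp_202_b t 1 1 1 = true :=
  ⟨(l 5), by decide +kernel⟩

theorem c_pp_202_b : CertF 1239849684 370763052 1073741824 536870912 201326592 134217728 false true true .pp 2 0 2
    ndF1q2b ndF5q2 pcF0 Cut.none Ext.none :=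
  certF0 (fam := false) (s1 := true) (s2 := true) (a := 2) (b := 0) (c := 2) (cn := .pp) (n1 := ndF1q2b) (n2 := ndF5q2) (pc := pcF0) (cut := Cut.none) (xt := Ext.none) (P1 := 1239849684) (W1 := 370763052) (P2 := 1073741824) (W2 := 536870912) (P3 := 201326592) (W3 := 134217728)
    rfl k0_pp_202_b

noncomputable def f_pp_203_a : ℕ → ℕ → ℕ → ℕ → Bool := onCell 0 536870912 0 1230186008 201326592 134217728
    (rowF 0 false true true .up 2 0 3 (qsf 0 536870912 0 1230186008 0) ndF1q2a ndF5q3 pcF0 Cut.none Ext.none)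

def k0_pp_203_a : ∃ t, chk3 f_pp_203_a t 1 1 1 = true :=
  ⟨(b (l 2) (b (l 2) (l 3))), by decide +kernel⟩

theorem c_pp_203_a : CertF 0 536870912 0 1230186008 201326592 134217728 false true true .up 2 0 3
    ndF1q2a ndF5q3 pcF0 Cut.none Ext.none :=
  certF0 (fam := false) (s1 := true) (s2 := true) (a := 2) (b := 0) (c := 3) (cn := .up) (n1 := ndF1q2a) (n2 := ndF5q3) (pc := pcF0) (cut := Cut.none) (xt := Ext.none) (P1 := 0) (W1 := 536870912) (P2 := 0) (W2 := 1230186008) (P3 := 201326592) (W3 := 134217728)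
    rfl k0_pp_203_a

noncomputable def f_pp_203_b : ℕ → ℕ → ℕ → ℕ → Bool := onCell 1239849684 370763052 0 1230186008 201326592 134217728
    (rowF 0 false true true .up 2 0 3 (qsf 1239849684 370763052 0 1230186008 0) ndF1q2b ndF5q3 pcF0 Cut.none Ext.none)

def k0_pp_203_b : ∃ t, chk3 f_pp_203_b t 1 1 1 = true :=
  ⟨(b (l 3) (l 5)), by decide +kernel⟩

theorem c_pp_203_b : CertF 1239849684 370763052 0 1230186008 201326592 134217728 false true true .up 2 0 3
    ndF1q2b ndF5q3 pcF0 Cut.none Ext.none :=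
  certF0 (fam := false) (s1 := true) (s2 := true) (a := 2) (b := 0) (c := 3) (cn := .up) (n1 := ndF1q2b) (n2 := ndF5q3) (pc := pcF0) (cut := Cut.none) (xt := Ext.none) (P1 := 1239849684) (W1 := 370763052) (P2 := 0) (W2 := 1230186008) (P3 := 201326592) (W3 := 134217728)
    rfl k0_pp_203_b

noncomputable def cut_pp_213_a : Cut := Cut.of [[⟨0, 1, 0, 57167902⟩, ⟨1, 1, 0, 57167902⟩, ⟨2, 2, 0, 11758673⟩]]

noncomputable def f_pp_213_a : ℕ → ℕ → ℕ → ℕ → Bool := onCell 0 536870912 0 1230186008 201326592 134217728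
    (rowF 0 false true true .pnn 2 1 3 (qsf 0 536870912 0 1230186008 1) ndF1q2a ndF5q3 pcF1 cut_pp_213_a Ext.none)

def k0_pp_213_a : ∃ t, chk3 f_pp_213_a t 1 1 1 = true :=
  ⟨(b (a (l 3) (b (a (l 3) (b (a (l 3) (l 6)) (l 3))) (l 3))) (b (l 3) (l 3))), by decide +kernel⟩

theorem c_pp_213_a : CertF 0 536870912 0 1230186008 201326592 134217728 false true true .pnn 2 1 3
    ndF1q2a ndF5q3 pcF1 cut_pp_213_a Ext.none :=
  certF0 (fam := false) (s1 := true) (s2 := true) (a := 2) (b := 1) (c := 3) (cn := .pnn) (n1 := ndF1q2a) (n2 := ndF5q3) (pc := pcF1) (cut := cut_pp_213_a) (xt := Ext.none) (P1 := 0) (W1 := 536870912) (P2 := 0) (W2 := 1230186008) (P3 := 201326592) (W3 := 134217728)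
    rfl k0_pp_213_a

noncomputable def cut_pp_213_b : Cut := Cut.of [[⟨0, 1, 0, 57167902⟩, ⟨1, 1, 0, 57167902⟩, ⟨2, 2, 0, 11758673⟩]]

noncomputable def f_pp_213_b : ℕ → ℕ → ℕ → ℕ → Bool := onCell 1239849684 370763052 0 1230186008 201326592 134217728
    (rowF 0 false true true .pnn 2 1 3 (qsf 1239849684 370763052 0 1230186008 1) ndF1q2b ndF5q3 pcF1 cut_pp_213_b Ext.none)

def k0_pp_213_b : ∃ t, chk3 f_pp_213_b t 1 1 1 = true :=
  ⟨(b (l 3) (l 5)), by decide +kernel⟩

theorem c_pp_213_b : CertF 1239849684 370763052 0 1230186008 201326592 134217728 false true true .pnn 2 1 3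
    ndF1q2b ndF5q3 pcF1 cut_pp_213_b Ext.none :=
  certF0 (fam := false) (s1 := true) (s2 := true) (a := 2) (b := 1) (c := 3) (cn := .pnn) (n1 := ndF1q2b) (n2 := ndF5q3) (pc := pcF1) (cut := cut_pp_213_b) (xt := Ext.none) (P1 := 1239849684) (W1 := 370763052) (P2 := 0) (W2 := 1230186008) (P3 := 201326592) (W3 := 134217728)
    rfl k0_pp_213_b

noncomputable def f_pp_303 : ℕ → ℕ → ℕ → ℕ → Bool := onCell 1610612736 536870912 0 1230186008 201326592 134217728
    (rowF 0 false true true .npn 3 0 3 (qsf 1610612736 536870912 0 1230186008 0) ndF1q3 ndF5q3 pcF0 Cut.none Ext.none)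

def k0_pp_303 : ∃ t, chk3 f_pp_303 t 1 1 1 = true :=
  ⟨(b (l 3) (l 5)), by decide +kernel⟩

theorem c_pp_303 : CertF 1610612736 536870912 0 1230186008 201326592 134217728 false true true .npn 3 0 3
    ndF1q3 ndF5q3 pcF0 Cut.none Ext.none :=
  certF0 (fam := false) (s1 := true) (s2 := true) (a := 3) (b := 0) (c := 3) (cn := .npn) (n1 := ndF1q3) (n2 := ndF5q3) (pc := pcF0) (cut := Cut.none) (xt := Ext.none) (P1 := 1610612736) (W1 := 536870912) (P2 := 0) (W2 := 1230186008) (P3 := 201326592) (W3 := 134217728)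
    rfl k0_pp_303

noncomputable def f_pp_313 : ℕ → ℕ → ℕ → ℕ → Bool := onCell 1610612736 536870912 0 1230186008 201326592 134217728
    (rowF 0 false true true .dn 3 1 3 (qsf 1610612736 536870912 0 1230186008 1) ndF1q3 ndF5q3 pcF1 Cut.none Ext.none)

def k0_pp_313 : ∃ t, chk3 f_pp_313 t 1 1 1 = true :=
  ⟨(b (l 3) (l 1)), by decide +kernel⟩

theorem c_pp_313 : CertF 1610612736 536870912 0 1230186008 201326592 134217728 false true true .dn 3 1 3
    ndF1q3 ndF5q3 pcF1 Cut.none Ext.none :=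
  certF0 (fam := false) (s1 := true) (s2 := true) (a := 3) (b := 1) (c := 3) (cn := .dn) (n1 := ndF1q3) (n2 := ndF5q3) (pc := pcF1) (cut := Cut.none) (xt := Ext.none) (P1 := 1610612736) (W1 := 536870912) (P2 := 0) (W2 := 1230186008) (P3 := 201326592) (W3 := 134217728)
    rfl k0_pp_313

noncomputable def f_pm_001 : ℕ → ℕ → ℕ → ℕ → Bool := onCell 0 536870912 536870912 536870912 201326592 134217728
    (rowF 0 false true false .up 0 0 1 (qsf 0 536870912 536870912 536870912 0) ndF1q0 ndF5q1 pcF0 Cut.none Ext.none)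

def k0_pm_001 : ∃ t, chk3 f_pm_001 t 1 1 1 = true :=
  ⟨(l 4), by decide +kernel⟩

theorem c_pm_001 : CertF 0 536870912 536870912 536870912 201326592 134217728 false true false .up 0 0 1
    ndF1q0 ndF5q1 pcF0 Cut.none Ext.none :=
  certF0 (fam := false) (s1 := true) (s2 := false) (a := 0) (b := 0) (c := 1) (cn := .up) (n1 := ndF1q0) (n2 := ndF5q1) (pc := pcF0) (cut := Cut.none) (xt := Ext.none) (P1 := 0) (W1 := 536870912) (P2 := 536870912) (W2 := 536870912) (P3 := 201326592) (W3 := 134217728)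
    rfl k0_pm_001

noncomputable def f_pm_011 : ℕ → ℕ → ℕ → ℕ → Bool := onCell 0 536870912 536870912 536870912 201326592 134217728
    (rowF 0 false true false .pnn 0 1 1 (qsf 0 536870912 536870912 536870912 1) ndF1q0 ndF5q1 pcF1 Cut.none Ext.none)

def k0_pm_011 : ∃ t, chk3 f_pm_011 t 1 1 1 = true :=
  ⟨(l 4), by decide +kernel⟩

theorem c_pm_011 : CertF 0 536870912 536870912 536870912 201326592 134217728 false true false .pnn 0 1 1
    ndF1q0 ndF5q1 pcF1 Cut.none Ext.none :=
  certF0 (fam := false) (s1 := true) (s2 := false) (a := 0) (b := 1) (c := 1) (cn := .pnn) (n1 := ndF1q0) (n2 := ndF5q1) (pc := pcF1) (cut := Cut.none) (xt := Ext.none) (P1 := 0) (W1 := 536870912) (P2 := 536870912) (W2 := 536870912) (P3 := 201326592) (W3 := 134217728)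
    rfl k0_pm_011

noncomputable def f_pm_012 : ℕ → ℕ → ℕ → ℕ → Bool := onCell 0 536870912 1073741824 536870912 201326592 134217728
    (rowF 0 false true false .pnp 0 1 2 (qsf 0 536870912 1073741824 536870912 1) ndF1q0 ndF5q2 pcF1 Cut.none Ext.none)

def k0_pm_012 : ∃ t, chk3 f_pm_012 t 1 1 1 = true :=
  ⟨(l 4), by decide +kernel⟩

theorem c_pm_012 : CertF 0 536870912 1073741824 536870912 201326592 134217728 false true false .pnp 0 1 2
    ndF1q0 ndF5q2 pcF1 Cut.none Ext.none :=
  certF0 (fam := false) (s1 := true) (s2 := false) (a := 0) (b := 1) (c := 2) (cn := .pnp) (n1 := ndF1q0) (n2 := ndF5q2) (pc := pcF1) (cut := Cut.none) (xt := Ext.none) (P1 := 0) (W1 := 536870912) (P2 := 1073741824) (W2 := 536870912) (P3 := 201326592) (W3 := 134217728)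
    rfl k0_pm_012

noncomputable def f_pm_022 : ℕ → ℕ → ℕ → ℕ → Bool := onCell 0 536870912 1073741824 536870912 201326592 134217728
    (rowF 0 false true false .pp 0 2 2 (qsf 0 536870912 1073741824 536870912 2) ndF1q0 ndF5q2 pcF2 Cut.none Ext.none)

def k0_pm_022 : ∃ t, chk3 f_pm_022 t 1 1 1 = true :=
  ⟨(l 4), by decide +kernel⟩

theorem c_pm_022 : CertF 0 536870912 1073741824 536870912 201326592 134217728 false true false .pp 0 2 2
    ndF1q0 ndF5q2 pcF2 Cut.none Ext.none :=
  certF0 (fam := false) (s1 := true) (s2 := false) (a := 0) (b := 2) (c := 2) (cn := .pp) (n1 := ndF1q0) (n2 := ndF5q2) (pc := pcF2) (cut := Cut.none) (xt := Ext.none) (P1 := 0) (W1 := 536870912) (P2 := 1073741824) (W2 := 536870912) (P3 := 201326592) (W3 := 134217728)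
    rfl k0_pm_022

noncomputable def f_pm_023 : ℕ → ℕ → ℕ → ℕ → Bool := onCell 0 536870912 0 1230186008 201326592 134217728
    (rowF 0 false true false .up 0 2 3 (qsf 0 536870912 0 1230186008 2) ndF1q0 ndF5q3 pcF2 Cut.none Ext.none)

def k0_pm_023 : ∃ t, chk3 f_pm_023 t 1 1 1 = true :=
  ⟨(b (b (a (l 2) (a (l 2) (a (l 2) (l 17613272)))) (l 4)) (l 4)), by decide +kernel⟩

theorem c_pm_023 : CertF 0 536870912 0 1230186008 201326592 134217728 false true false .up 0 2 3
    ndF1q0 ndF5q3 pcF2 Cut.none Ext.none :=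
  certF0 (fam := false) (s1 := true) (s2 := false) (a := 0) (b := 2) (c := 3) (cn := .up) (n1 := ndF1q0) (n2 := ndF5q3) (pc := pcF2) (cut := Cut.none) (xt := Ext.none) (P1 := 0) (W1 := 536870912) (P2 := 0) (W2 := 1230186008) (P3 := 201326592) (W3 := 134217728)
    rfl k0_pm_023

noncomputable def f_pm_033 : ℕ → ℕ → ℕ → ℕ → Bool := onCell 0 536870912 0 1230186008 201326592 134217728
    (rowF 0 false true false .pnn 0 3 3 (qsf 0 536870912 0 1230186008 3) ndF1q0 ndF5q3 pcF3 Cut.none Ext.none)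

def k0_pm_033 : ∃ t, chk3 f_pm_033 t 1 1 1 = true :=
  ⟨(b (a (l 4) (a (l 4) (b (a (l 4) (l 17470000)) (l 4)))) (l 4)), by decide +kernel⟩

theorem c_pm_033 : CertF 0 536870912 0 1230186008 201326592 134217728 false true false .pnn 0 3 3
    ndF1q0 ndF5q3 pcF3 Cut.none Ext.none :=
  certF0 (fam := false) (s1 := true) (s2 := false) (a := 0) (b := 3) (c := 3) (cn := .pnn) (n1 := ndF1q0) (n2 := ndF5q3) (pc := pcF3) (cut := Cut.none) (xt := Ext.none) (P1 := 0) (W1 := 536870912) (P2 := 0) (W2 := 1230186008) (P3 := 201326592) (W3 := 134217728)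
    rfl k0_pm_033

noncomputable def f_pm_101 : ℕ → ℕ → ℕ → ℕ → Bool := onCell 536870912 536870912 536870912 536870912 201326592 134217728
    (rowF 0 false true false .npn 1 0 1 (qsf 536870912 536870912 536870912 536870912 0) ndF1q1 ndF5q1 pcF0 Cut.none Ext.none)

def k0_pm_101 : ∃ t, chk3 f_pm_101 t 1 1 1 = true :=
  ⟨(l 4), by decide +kernel⟩

theorem c_pm_101 : CertF 536870912 536870912 536870912 536870912 201326592 134217728 false true false .npn 1 0 1
    ndF1q1 ndF5q1 pcF0 Cut.none Ext.none :=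
  certF0 (fam := false) (s1 := true) (s2 := false) (a := 1) (b := 0) (c := 1) (cn := .npn) (n1 := ndF1q1) (n2 := ndF5q1) (pc := pcF0) (cut := Cut.none) (xt := Ext.none) (P1 := 536870912) (W1 := 536870912) (P2 := 536870912) (W2 := 536870912) (P3 := 201326592) (W3 := 134217728)
    rfl k0_pm_101

noncomputable def f_pm_102 : ℕ → ℕ → ℕ → ℕ → Bool := onCell 536870912 536870912 1073741824 536870912 201326592 134217728
    (rowF 0 false true false .npp 1 0 2 (qsf 536870912 536870912 1073741824 536870912 0) ndF1q1 ndF5q2 pcF0 Cut.none Ext.none)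

def k0_pm_102 : ∃ t, chk3 f_pm_102 t 1 1 1 = true :=
  ⟨(l 4), by decide +kernel⟩

theorem c_pm_102 : CertF 536870912 536870912 1073741824 536870912 201326592 134217728 false true false .npp 1 0 2
    ndF1q1 ndF5q2 pcF0 Cut.none Ext.none :=
  certF0 (fam := false) (s1 := true) (s2 := false) (a := 1) (b := 0) (c := 2) (cn := .npp) (n1 := ndF1q1) (n2 := ndF5q2) (pc := pcF0) (cut := Cut.none) (xt := Ext.none) (P1 := 536870912) (W1 := 536870912) (P2 := 1073741824) (W2 := 536870912) (P3 := 201326592) (W3 := 134217728)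
    rfl k0_pm_102

noncomputable def f_pm_112 : ℕ → ℕ → ℕ → ℕ → Bool := onCell 536870912 536870912 1073741824 536870912 201326592 134217728
    (rowF 0 false true false .dn 1 1 2 (qsf 536870912 536870912 1073741824 536870912 1) ndF1q1 ndF5q2 pcF1 Cut.none Ext.none)

def k0_pm_112 : ∃ t, chk3 f_pm_112 t 1 1 1 = true :=
  ⟨(l 4), by decide +kernel⟩

theorem c_pm_112 : CertF 536870912 536870912 1073741824 536870912 201326592 134217728 false true false .dn 1 1 2
    ndF1q1 ndF5q2 pcF1 Cut.none Ext.none :=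
  certF0 (fam := false) (s1 := true) (s2 := false) (a := 1) (b := 1) (c := 2) (cn := .dn) (n1 := ndF1q1) (n2 := ndF5q2) (pc := pcF1) (cut := Cut.none) (xt := Ext.none) (P1 := 536870912) (W1 := 536870912) (P2 := 1073741824) (W2 := 536870912) (P3 := 201326592) (W3 := 134217728)
    rfl k0_pm_112

noncomputable def f_pm_113 : ℕ → ℕ → ℕ → ℕ → Bool := onCell 536870912 536870912 0 1230186008 201326592 134217728
    (rowF 0 false true false .nn 1 1 3 (qsf 536870912 536870912 0 1230186008 1) ndF1q1 ndF5q3 pcF1 Cut.none Ext.none)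

def k0_pm_113 : ∃ t, chk3 f_pm_113 t 1 1 1 = true :=
  ⟨(b (a (l 2) (a (l 2) (b (a (l 2) (l 17101080)) (l 17480560)))) (b (a (l 4) (b (l 4) (l 4))) (l 4))), by decide +kernel⟩

theorem c_pm_113 : CertF 536870912 536870912 0 1230186008 201326592 134217728 false true false .nn 1 1 3
    ndF1q1 ndF5q3 pcF1 Cut.none Ext.none :=
  certF0 (fam := false) (s1 := true) (s2 := false) (a := 1) (b := 1) (c := 3) (cn := .nn) (n1 := ndF1q1) (n2 := ndF5q3) (pc := pcF1) (cut := Cut.none) (xt := Ext.none) (P1 := 536870912) (W1 := 536870912) (P2 := 0) (W2 := 1230186008) (P3 := 201326592) (W3 := 134217728)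
    rfl k0_pm_113

noncomputable def f_pm_123 : ℕ → ℕ → ℕ → ℕ → Bool := onCell 1073741824 536870912 0 1230186008 201326592 134217728
    (rowF 2 false true false .npn 1 2 3 (qsf 536870912 536870912 0 1230186008 2) ndF1q1 ndF5q3 pcF2 Cut.none Ext.none)

def k0_pm_123 : ∃ t, chk3 f_pm_123 t 1 1 1 = true :=
  ⟨(b (b (a (a (a (l 17190056) (a (l 17239328) (l 17269168))) (l 17284720)) (a (l 17226360) (l 17148544))) (a (a (l 17364936) (l 17331656)) (l 4))) (a (l 4) (l 4))), by decide +kernel⟩

theorem c_pm_123 : CertF 536870912 536870912 0 1230186008 201326592 134217728 false true false .npn 1 2 3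
    ndF1q1 ndF5q3 pcF2 Cut.none Ext.none :=
  certF2 (fam := false) (s1 := true) (s2 := false) (a := 1) (b := 2) (c := 3) (cn := .npn) (n1 := ndF1q1) (n2 := ndF5q3) (pc := pcF2) (cut := Cut.none) (xt := Ext.none) (P1 := 536870912) (W1 := 536870912) (P2 := 0) (W2 := 1230186008) (P3 := 201326592) (W3 := 134217728)
    rfl (fun _ => rfl) k0_pm_123

noncomputable def f_pm_133 : ℕ → ℕ → ℕ → ℕ → Bool := onCell 1610612736 536870912 0 1230186008 201326592 134217728
    (rowF 2 false true false .dn 1 3 3 (qsf 536870912 536870912 0 1230186008 3) ndF1q1 ndF5q3 pcF3 Cut.none Ext.none)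

def k0_pm_133 : ∃ t, chk3 f_pm_133 t 1 1 1 = true :=
  ⟨(b (a (a (b (a (l 16902760) (l 1)) (l 1)) (l 1)) (l 1)) (l 1)), by decide +kernel⟩

theorem c_pm_133 : CertF 536870912 536870912 0 1230186008 201326592 134217728 false true false .dn 1 3 3
    ndF1q1 ndF5q3 pcF3 Cut.none Ext.none :=
  certF2 (fam := false) (s1 := true) (s2 := false) (a := 1) (b := 3) (c := 3) (cn := .dn) (n1 := ndF1q1) (n2 := ndF5q3) (pc := pcF3) (cut := Cut.none) (xt := Ext.none) (P1 := 536870912) (W1 := 536870912) (P2 := 0) (W2 := 1230186008) (P3 := 201326592) (W3 := 134217728)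
    rfl (fun _ => rfl) k0_pm_133

noncomputable def f_pm_202_a : ℕ → ℕ → ℕ → ℕ → Bool := onCell 0 536870912 1073741824 536870912 201326592 134217728
    (rowF 0 false true false .pp 2 0 2 (qsf 0 536870912 1073741824 536870912 0) ndF1q2a ndF5q2 pcF0 Cut.none Ext.none)

def k0_pm_202_a : ∃ t, chk3 f_pm_202_a t 1 1 1 = true :=
  ⟨(a (b (a (b (l 1) (b (l 18174928) (l 18074240))) (b (l 4) (b (l 18295704) (l 18177016)))) (b (b (l 17942600) (a (l 17707000) (l 17806328))) (b (a (l 17540720) (l 17597080)) (a (b (l 17400800) (l 17283864)) (l 17437408))))) (b (b (l 4) (a (b (l 4) (l 18243536)) (l 4))) (b (a (b (l 18092152) (l 17931856)) (b (l 4) (a (l 18037128) (l 4)))) (a (b (l 17737344) (b (l 17556176) (l 17432336))) (b (a (l 17883296) (b (l 18017216) (l 17954208))) (a (l 17639976) (b (l 17859544) (l 17719192)))))))), by decide +kernel⟩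

theorem c_pm_202_a : CertF 0 536870912 1073741824 536870912 201326592 134217728 false true false .pp 2 0 2
    ndF1q2a ndF5q2 pcF0 Cut.none Ext.none :=
  certF0 (fam := false) (s1 := true) (s2 := false) (a := 2) (b := 0) (c := 2) (cn := .pp) (n1 := ndF1q2a) (n2 := ndF5q2) (pc := pcF0) (cut := Cut.none) (xt := Ext.none) (P1 := 0) (W1 := 536870912) (P2 := 1073741824) (W2 := 536870912) (P3 := 201326592) (W3 := 134217728)
    rfl k0_pm_202_a

noncomputable def f_pm_202_b : ℕ → ℕ → ℕ → ℕ → Bool := onCell 0 536870912 1073741824 536870912 201326592 134217728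
    (rowF 2 false true false .pp 2 0 2 (qsf 1239849684 370763052 1073741824 536870912 0) ndF1q2b ndF5q2 pcF0 Cut.none Ext.none)

def k0_pm_202_b : ∃ t, chk3 f_pm_202_b t 1 1 1 = true :=
  ⟨(a (b (b (l 1) (a (b (l 457987611671) (l 314642867623)) (l 1))) (b (a (a (l 17702024) (l 17762208)) (b (l 17875464) (l 17861864))) (a (b (l 17453320) (l 17257632)) (b (l 17544008) (l 17332800))))) (b (l 1) (b (l 1) (a (b (l 259880748487) (a (l 17298176) (l 17233600))) (l 1))))), by decide +kernel⟩

theorem c_pm_202_b : CertF 1239849684 370763052 1073741824 536870912 201326592 134217728 false true false .pp 2 0 2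
    ndF1q2b ndF5q2 pcF0 Cut.none Ext.none :=
  certF2 (fam := false) (s1 := true) (s2 := false) (a := 2) (b := 0) (c := 2) (cn := .pp) (n1 := ndF1q2b) (n2 := ndF5q2) (pc := pcF0) (cut := Cut.none) (xt := Ext.none) (P1 := 1239849684) (W1 := 370763052) (P2 := 1073741824) (W2 := 536870912) (P3 := 201326592) (W3 := 134217728)
    rfl (fun _ => rfl) k0_pm_202_b

noncomputable def f_pm_203_a : ℕ → ℕ → ℕ → ℕ → Bool := onCell 0 536870912 0 1230186008 201326592 134217728
    (rowF 0 false true false .up 2 0 3 (qsf 0 536870912 0 1230186008 0) ndF1q2a ndF5q3 pcF0 Cut.none Ext.none)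

def k0_pm_203_a : ∃ t, chk3 f_pm_203_a t 1 1 1 = true :=
  ⟨(b (l 2) (b (l 2) (b (a (b (l 2) (a (l 17314848) (l 388259979399))) (l 2)) (a (a (b (c (l 17426360) (l 17207960)) (b (l 17279080) (l 17274888))) (b (b (l 17364960) (l 17522112)) (b (l 17300112) (l 17292520)))) (b (a (b (l 17397424) (l 17307840)) (a (l 239009763527) (l 2))) (b (a (l 17276456) (a (l 17269992) (l 17301888))) (a (l 17340712) (a (l 17381840) (l 17526888))))))))), by decide +kernel⟩

theorem c_pm_203_a : CertF 0 536870912 0 1230186008 201326592 134217728 false true false .up 2 0 3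
    ndF1q2a ndF5q3 pcF0 Cut.none Ext.none :=
  certF0 (fam := false) (s1 := true) (s2 := false) (a := 2) (b := 0) (c := 3) (cn := .up) (n1 := ndF1q2a) (n2 := ndF5q3) (pc := pcF0) (cut := Cut.none) (xt := Ext.none) (P1 := 0) (W1 := 536870912) (P2 := 0) (W2 := 1230186008) (P3 := 201326592) (W3 := 134217728)
    rfl k0_pm_203_a

noncomputable def f_pm_203_b : ℕ → ℕ → ℕ → ℕ → Bool := onCell 0 536870912 0 1230186008 201326592 134217728
    (rowF 2 false true false .up 2 0 3 (qsf 1239849684 370763052 0 1230186008 0) ndF1q2b ndF5q3 pcF0 Cut.none Ext.none)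

def k0_pm_203_b : ∃ t, chk3 f_pm_203_b t 1 1 1 = true :=
  ⟨(b (l 3) (a (b (a (l 2) (b (l 2) (l 483286415959))) (b (a (l 2) (b (l 17680360) (a (l 17758048) (l 17687800)))) (a (b (a (l 2) (l 17842680)) (l 17449616)) (b (a (l 17628088) (l 17612960)) (a (l 17461480) (l 17432368)))))) (b (a (b (l 3) (a (l 17474344) (l 17411776))) (a (b (b (l 3) (l 17253528)) (l 17333408)) (b (l 129017601479) (l 17266496)))) (b (a (b (l 17514752) (l 17549592)) (b (l 17365224) (l 17365032))) (a (b (a (l 17553680) (l 17470112)) (a (l 17380432) (l 17320504))) (c (b (l 17631744) (l 17298312)) (b (l 17189512) (l 17110352)))))))), by decide +kernel⟩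

theorem c_pm_203_b : CertF 1239849684 370763052 0 1230186008 201326592 134217728 false true false .up 2 0 3
    ndF1q2b ndF5q3 pcF0 Cut.none Ext.none :=
  certF2 (fam := false) (s1 := true) (s2 := false) (a := 2) (b := 0) (c := 3) (cn := .up) (n1 := ndF1q2b) (n2 := ndF5q3) (pc := pcF0) (cut := Cut.none) (xt := Ext.none) (P1 := 1239849684) (W1 := 370763052) (P2 := 0) (W2 := 1230186008) (P3 := 201326592) (W3 := 134217728)
    rfl (fun _ => rfl) k0_pm_203_b

noncomputable def cut_pm_213_a : Cut := Cut.of [[⟨0, 1, 0, 57167902⟩, ⟨1, 1, 0, 57167902⟩, ⟨2, 2, 0, 11758673⟩]]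

noncomputable def f_pm_213_a : ℕ → ℕ → ℕ → ℕ → Bool := onCell 0 536870912 0 1230186008 201326592 134217728
    (rowF 0 false true false .pnn 2 1 3 (qsf 0 536870912 0 1230186008 1) ndF1q2a ndF5q3 pcF1 cut_pm_213_a Ext.none)

def k0_pm_213_a : ∃ t, chk3 f_pm_213_a t 1 1 1 = true :=
  ⟨(b (a (b (b (l 3) (l 3)) (b (a (b (l 3) (l 341080891847)) (b (a (l 3) (l 263771493223)) (a (l 243370404583) (l 16837984)))) (a (b (a (l 321216687719) (l 262697946983)) (a (l 16920704) (l 16855200))) (b (l 16853968) (l 16857080))))) (b (a (b (l 3) (b (a (l 3) (l 257329019063)) (a (l 258939616439) (l 181093404631)))) (b (a (b (l 3) (b (l 286856932231) (l 211695030967))) (l 6)) (b (a (b (l 182167185239) (l 16809488)) (l 16823152)) (a (l 16827936) (l 16848960))))) (a (b (b (a (l 16868552) (l 16838136)) (l 16856152)) (l 16896408)) (b (a (l 16868704) (l 16891912)) (a (l 16923248) (l 16944976)))))) (b (a (b (a (b (l 16868032) (l 16888056)) (l 16911968)) (b (l 17061976) (l 17140136))) (b (a (l 17077776)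 (b (l 16952608) (l 16936336))) (a (b (l 16943064) (l 17030016)) (l 17098480)))) (a (b (b (l 17257120) (l 17278632)) (b (a (l 1) (l 17370728)) (l 1))) (b (a (b (l 17165272) (l 17300616)) (b (b (l 17267088) (l 17335904)) (a (l 17376936) (b (l 17428896) (l 17466208))))) (b (a (l 17458528) (b (a (l 17464232) (l 17550096)) (l 17662112))) (a (l 1) (l 17914128))))))), by decide +kernel⟩

theorem c_pm_213_a : CertF 0 536870912 0 1230186008 201326592 134217728 false true false .pnn 2 1 3
    ndF1q2a ndF5q3 pcF1 cut_pm_213_a Ext.none :=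
  certF0 (fam := false) (s1 := true) (s2 := false) (a := 2) (b := 1) (c := 3) (cn := .pnn) (n1 := ndF1q2a) (n2 := ndF5q3) (pc := pcF1) (cut := cut_pm_213_a) (xt := Ext.none) (P1 := 0) (W1 := 536870912) (P2 := 0) (W2 := 1230186008) (P3 := 201326592) (W3 := 134217728)
    rfl k0_pm_213_a

noncomputable def cut_pm_213_b : Cut := Cut.of [[⟨0, 1, 0, 57167902⟩, ⟨1, 1, 0, 57167902⟩, ⟨2, 2, 0, 11758673⟩]]

noncomputable def f_pm_213_b : ℕ → ℕ → ℕ → ℕ → Bool := onCell 1239849684 370763052 0 1230186008 201326592 134217728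
    (rowF 0 false true false .pnn 2 1 3 (qsf 1239849684 370763052 0 1230186008 1) ndF1q2b ndF5q3 pcF1 cut_pm_213_b Ext.none)

def k0_pm_213_b : ∃ t, chk3 f_pm_213_b t 1 1 1 = true :=
  ⟨(b (a (b (l 3) (a (b (l 3) (b (l 3) (a (b (l 251423797111) (l 16859936)) (l 281488832407)))) (l 3))) (l 3)) (b (a (b (a (b (a (l 16873080) (l 16932464)) (l 17120112)) (b (a (l 17036528) (l 17054336)) (a (l 16996944) (l 17064008)))) (a (a (l 17116736) (l 17124120)) (b (l 17012824) (l 16983752)))) (b (a (b (l 3) (a (l 17135672) (l 1))) (l 1)) (l 1))) (a (b (b (a (l 16957424) (l 1)) (l 17066248)) (l 1)) (l 1)))), by decide +kernel⟩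

theorem c_pm_213_b : CertF 1239849684 370763052 0 1230186008 201326592 134217728 false true false .pnn 2 1 3
    ndF1q2b ndF5q3 pcF1 cut_pm_213_b Ext.none :=
  certF0 (fam := false) (s1 := true) (s2 := false) (a := 2) (b := 1) (c := 3) (cn := .pnn) (n1 := ndF1q2b) (n2 := ndF5q3) (pc := pcF1) (cut := cut_pm_213_b) (xt := Ext.none) (P1 := 1239849684) (W1 := 370763052) (P2 := 0) (W2 := 1230186008) (P3 := 201326592) (W3 := 134217728)
    rfl k0_pm_213_b

noncomputable def f_pm_303 : ℕ → ℕ → ℕ → ℕ → Bool := onCell 0 536870912 0 1230186008 201326592 134217728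
    (rowF 2 false true false .npn 3 0 3 (qsf 1610612736 536870912 0 1230186008 0) ndF1q3 ndF5q3 pcF0 Cut.none Ext.none)

def k0_pm_303 : ∃ t, chk3 f_pm_303 t 1 1 1 = true :=
  ⟨(b (l 3) (a (b (b (l 3) (a (l 145124944215) (l 126870894967))) (b (a (a (b (b (l 17791896) (l 17788944)) (l 17884240)) (b (b (l 17716552) (l 17752992)) (l 17811368))) (b (l 17594208) (a (l 17676536) (l 1)))) (a (b (a (l 17662232) (l 17819768)) (l 17394936)) (b (a (l 17540464) (l 1)) (l 1))))) (b (a (b (l 3) (b (l 135460914279) (l 17350728))) (a (b (l 149956010551) (l 1)) (l 1))) (l 1)))), by decide +kernel⟩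

theorem c_pm_303 : CertF 1610612736 536870912 0 1230186008 201326592 134217728 false true false .npn 3 0 3
    ndF1q3 ndF5q3 pcF0 Cut.none Ext.none :=
  certF2 (fam := false) (s1 := true) (s2 := false) (a := 3) (b := 0) (c := 3) (cn := .npn) (n1 := ndF1q3) (n2 := ndF5q3) (pc := pcF0) (cut := Cut.none) (xt := Ext.none) (P1 := 1610612736) (W1 := 536870912) (P2 := 0) (W2 := 1230186008) (P3 := 201326592) (W3 := 134217728)
    rfl (fun _ => rfl) k0_pm_303

noncomputable def f_pm_313 : ℕ → ℕ → ℕ → ℕ → Bool := onCell 1610612736 536870912 0 1230186008 201326592 134217728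
    (rowF 0 false true false .dn 3 1 3 (qsf 1610612736 536870912 0 1230186008 1) ndF1q3 ndF5q3 pcF1 Cut.none Ext.none)

def k0_pm_313 : ∃ t, chk3 f_pm_313 t 1 1 1 = true :=
  ⟨(b (l 3) (l 1)), by decide +kernel⟩

theorem c_pm_313 : CertF 1610612736 536870912 0 1230186008 201326592 134217728 false true false .dn 3 1 3
    ndF1q3 ndF5q3 pcF1 Cut.none Ext.none :=
  certF0 (fam := false) (s1 := true) (s2 := false) (a := 3) (b := 1) (c := 3) (cn := .dn) (n1 := ndF1q3) (n2 := ndF5q3) (pc := pcF1) (cut := Cut.none) (xt := Ext.none) (P1 := 1610612736) (W1 := 536870912) (P2 := 0) (W2 := 1230186008) (P3 := 201326592) (W3 := 134217728)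
    rfl k0_pm_313

noncomputable def f_mm_001 : ℕ → ℕ → ℕ → ℕ → Bool := onCell 0 536870912 0 536870912 201326592 134217728
    (rowF 1 false false false .up 0 0 1 (qsf 0 536870912 536870912 536870912 0) ndF1q0 ndF5q1 pcF0 Cut.none Ext.none)

def k0_mm_001 : ∃ t, chk3 f_mm_001 t 1 1 1 = true :=
  ⟨(l 3), by decide +kernel⟩

theorem c_mm_001 : CertF 0 536870912 536870912 536870912 201326592 134217728 false false false .up 0 0 1
    ndF1q0 ndF5q1 pcF0 Cut.none Ext.none :=
  certF1 (fam := false) (s1 := false) (s2 := false) (a := 0) (b := 0) (c := 1) (cn := .up) (n1 := ndF1q0) (n2 := ndF5q1) (pc := pcF0) (cut := Cut.none) (xt := Ext.none) (P1 := 0) (W1 := 536870912) (P2 := 536870912) (W2 := 536870912) (P3 := 201326592) (W3 := 134217728)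
    rfl (fun _ => rfl) k0_mm_001

noncomputable def f_mm_011 : ℕ → ℕ → ℕ → ℕ → Bool := onCell 0 536870912 536870912 536870912 201326592 134217728
    (rowF 1 false false false .pnn 0 1 1 (qsf 0 536870912 536870912 536870912 1) ndF1q0 ndF5q1 pcF1 Cut.none Ext.none)

def k0_mm_011 : ∃ t, chk3 f_mm_011 t 1 1 1 = true :=
  ⟨(l 5), by decide +kernel⟩

theorem c_mm_011 : CertF 0 536870912 536870912 536870912 201326592 134217728 false false false .pnn 0 1 1
    ndF1q0 ndF5q1 pcF1 Cut.none Ext.none :=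
  certF1 (fam := false) (s1 := false) (s2 := false) (a := 0) (b := 1) (c := 1) (cn := .pnn) (n1 := ndF1q0) (n2 := ndF5q1) (pc := pcF1) (cut := Cut.none) (xt := Ext.none) (P1 := 0) (W1 := 536870912) (P2 := 536870912) (W2 := 536870912) (P3 := 201326592) (W3 := 134217728)
    rfl (fun _ => rfl) k0_mm_011

noncomputable def f_mm_012 : ℕ → ℕ → ℕ → ℕ → Bool := onCell 0 536870912 1073741824 536870912 201326592 134217728
    (rowF 0 false false false .pnp 0 1 2 (qsf 0 536870912 1073741824 536870912 1) ndF1q0 ndF5q2 pcF1 Cut.none Ext.none)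

def k0_mm_012 : ∃ t, chk3 f_mm_012 t 1 1 1 = true :=
  ⟨(l 5), by decide +kernel⟩

theorem c_mm_012 : CertF 0 536870912 1073741824 536870912 201326592 134217728 false false false .pnp 0 1 2
    ndF1q0 ndF5q2 pcF1 Cut.none Ext.none :=
  certF0 (fam := false) (s1 := false) (s2 := false) (a := 0) (b := 1) (c := 2) (cn := .pnp) (n1 := ndF1q0) (n2 := ndF5q2) (pc := pcF1) (cut := Cut.none) (xt := Ext.none) (P1 := 0) (W1 := 536870912) (P2 := 1073741824) (W2 := 536870912) (P3 := 201326592) (W3 := 134217728)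
    rfl k0_mm_012

noncomputable def f_mm_022 : ℕ → ℕ → ℕ → ℕ → Bool := onCell 0 536870912 1073741824 536870912 201326592 134217728
    (rowF 0 false false false .pp 0 2 2 (qsf 0 536870912 1073741824 536870912 2) ndF1q0 ndF5q2 pcF2 Cut.none Ext.none)

def k0_mm_022 : ∃ t, chk3 f_mm_022 t 1 1 1 = true :=
  ⟨(l 5), by decide +kernel⟩

theorem c_mm_022 : CertF 0 536870912 1073741824 536870912 201326592 134217728 false false false .pp 0 2 2
    ndF1q0 ndF5q2 pcF2 Cut.none Ext.none :=
  certF0 (fam := false) (s1 := false) (s2 := false) (a := 0) (b := 2) (c := 2) (cn := .pp) (n1 := ndF1q0) (n2 := ndF5q2) (pc := pcF2) (cut := Cut.none) (xt := Ext.none) (P1 := 0) (W1 := 536870912) (P2 := 1073741824) (W2 := 536870912) (P3 := 201326592) (W3 := 134217728)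
    rfl k0_mm_022

noncomputable def f_mm_023 : ℕ → ℕ → ℕ → ℕ → Bool := onCell 0 536870912 0 1230186008 201326592 134217728
    (rowF 0 false false false .up 0 2 3 (qsf 0 536870912 0 1230186008 2) ndF1q0 ndF5q3 pcF2 Cut.none Ext.none)

def k0_mm_023 : ∃ t, chk3 f_mm_023 t 1 1 1 = true :=
  ⟨(l 5), by decide +kernel⟩

theorem c_mm_023 : CertF 0 536870912 0 1230186008 201326592 134217728 false false false .up 0 2 3
    ndF1q0 ndF5q3 pcF2 Cut.none Ext.none :=
  certF0 (fam := false) (s1 := false) (s2 := false) (a := 0) (b := 2) (c := 3) (cn := .up) (n1 := ndF1q0) (n2 := ndF5q3) (pc := pcF2) (cut := Cut.none) (xt := Ext.none) (P1 := 0) (W1 := 536870912) (P2 := 0) (W2 := 1230186008) (P3 := 201326592) (W3 := 134217728)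
    rfl k0_mm_023

noncomputable def f_mm_033 : ℕ → ℕ → ℕ → ℕ → Bool := onCell 0 536870912 0 1230186008 201326592 134217728
    (rowF 0 false false false .pnn 0 3 3 (qsf 0 536870912 0 1230186008 3) ndF1q0 ndF5q3 pcF3 Cut.none Ext.none)

def k0_mm_033 : ∃ t, chk3 f_mm_033 t 1 1 1 = true :=
  ⟨(l 5), by decide +kernel⟩

theorem c_mm_033 : CertF 0 536870912 0 1230186008 201326592 134217728 false false false .pnn 0 3 3
    ndF1q0 ndF5q3 pcF3 Cut.none Ext.none :=
  certF0 (fam := false) (s1 := false) (s2 := false) (a := 0) (b := 3) (c := 3) (cn := .pnn) (n1 := ndF1q0) (n2 := ndF5q3) (pc := pcF3) (cut := Cut.none) (xt := Ext.none) (P1 := 0) (W1 := 536870912) (P2 := 0) (W2 := 1230186008) (P3 := 201326592) (W3 := 134217728)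
    rfl k0_mm_033

noncomputable def f_mm_101 : ℕ → ℕ → ℕ → ℕ → Bool := onCell 536870912 536870912 536870912 536870912 201326592 134217728
    (rowF 0 false false false .npn 1 0 1 (qsf 536870912 536870912 536870912 536870912 0) ndF1q1 ndF5q1 pcF0 Cut.none Ext.none)

def k0_mm_101 : ∃ t, chk3 f_mm_101 t 1 1 1 = true :=
  ⟨(l 3), by decide +kernel⟩

theorem c_mm_101 : CertF 536870912 536870912 536870912 536870912 201326592 134217728 false false false .npn 1 0 1
    ndF1q1 ndF5q1 pcF0 Cut.none Ext.none :=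
  certF0 (fam := false) (s1 := false) (s2 := false) (a := 1) (b := 0) (c := 1) (cn := .npn) (n1 := ndF1q1) (n2 := ndF5q1) (pc := pcF0) (cut := Cut.none) (xt := Ext.none) (P1 := 536870912) (W1 := 536870912) (P2 := 536870912) (W2 := 536870912) (P3 := 201326592) (W3 := 134217728)
    rfl k0_mm_101

noncomputable def f_mm_102 : ℕ → ℕ → ℕ → ℕ → Bool := onCell 536870912 536870912 1073741824 536870912 201326592 134217728
    (rowF 0 false false false .npp 1 0 2 (qsf 536870912 536870912 1073741824 536870912 0) ndF1q1 ndF5q2 pcF0 Cut.none Ext.none)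

def k0_mm_102 : ∃ t, chk3 f_mm_102 t 1 1 1 = true :=
  ⟨(l 3), by decide +kernel⟩

theorem c_mm_102 : CertF 536870912 536870912 1073741824 536870912 201326592 134217728 false false false .npp 1 0 2
    ndF1q1 ndF5q2 pcF0 Cut.none Ext.none :=
  certF0 (fam := false) (s1 := false) (s2 := false) (a := 1) (b := 0) (c := 2) (cn := .npp) (n1 := ndF1q1) (n2 := ndF5q2) (pc := pcF0) (cut := Cut.none) (xt := Ext.none) (P1 := 536870912) (W1 := 536870912) (P2 := 1073741824) (W2 := 536870912) (P3 := 201326592) (W3 := 134217728)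
    rfl k0_mm_102

noncomputable def f_mm_112 : ℕ → ℕ → ℕ → ℕ → Bool := onCell 536870912 536870912 1073741824 536870912 201326592 134217728
    (rowF 0 false false false .dn 1 1 2 (qsf 536870912 536870912 1073741824 536870912 1) ndF1q1 ndF5q2 pcF1 Cut.none Ext.none)

def k0_mm_112 : ∃ t, chk3 f_mm_112 t 1 1 1 = true :=
  ⟨(l 3), by decide +kernel⟩

theorem c_mm_112 : CertF 536870912 536870912 1073741824 536870912 201326592 134217728 false false false .dn 1 1 2
    ndF1q1 ndF5q2 pcF1 Cut.none Ext.none :=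
  certF0 (fam := false) (s1 := false) (s2 := false) (a := 1) (b := 1) (c := 2) (cn := .dn) (n1 := ndF1q1) (n2 := ndF5q2) (pc := pcF1) (cut := Cut.none) (xt := Ext.none) (P1 := 536870912) (W1 := 536870912) (P2 := 1073741824) (W2 := 536870912) (P3 := 201326592) (W3 := 134217728)
    rfl k0_mm_112

noncomputable def f_mm_113 : ℕ → ℕ → ℕ → ℕ → Bool := onCell 536870912 536870912 0 1230186008 201326592 134217728
    (rowF 0 false false false .nn 1 1 3 (qsf 536870912 536870912 0 1230186008 1) ndF1q1 ndF5q3 pcF1 Cut.none Ext.none)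

def k0_mm_113 : ∃ t, chk3 f_mm_113 t 1 1 1 = true :=
  ⟨(l 5), by decide +kernel⟩

theorem c_mm_113 : CertF 536870912 536870912 0 1230186008 201326592 134217728 false false false .nn 1 1 3
    ndF1q1 ndF5q3 pcF1 Cut.none Ext.none :=
  certF0 (fam := false) (s1 := false) (s2 := false) (a := 1) (b := 1) (c := 3) (cn := .nn) (n1 := ndF1q1) (n2 := ndF5q3) (pc := pcF1) (cut := Cut.none) (xt := Ext.none) (P1 := 536870912) (W1 := 536870912) (P2 := 0) (W2 := 1230186008) (P3 := 201326592) (W3 := 134217728)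
    rfl k0_mm_113

noncomputable def f_mm_123 : ℕ → ℕ → ℕ → ℕ → Bool := onCell 536870912 536870912 0 1230186008 201326592 134217728
    (rowF 0 false false false .npn 1 2 3 (qsf 536870912 536870912 0 1230186008 2) ndF1q1 ndF5q3 pcF2 Cut.none Ext.none)

def k0_mm_123 : ∃ t, chk3 f_mm_123 t 1 1 1 = true :=
  ⟨(l 5), by decide +kernel⟩

theorem c_mm_123 : CertF 536870912 536870912 0 1230186008 201326592 134217728 false false false .npn 1 2 3
    ndF1q1 ndF5q3 pcF2 Cut.none Ext.none :=
  certF0 (fam := false) (s1 := false) (s2 := false) (a := 1) (b := 2) (c := 3) (cn := .npn) (n1 := ndF1q1) (n2 := ndF5q3) (pc := pcF2) (cut := Cut.none) (xt := Ext.none) (P1 := 536870912) (W1 := 536870912) (P2 := 0) (W2 := 1230186008) (P3 := 201326592) (W3 := 134217728)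
    rfl k0_mm_123

noncomputable def f_mm_133 : ℕ → ℕ → ℕ → ℕ → Bool := onCell 536870912 536870912 0 1230186008 201326592 134217728
    (rowF 0 false false false .dn 1 3 3 (qsf 536870912 536870912 0 1230186008 3) ndF1q1 ndF5q3 pcF3 Cut.none Ext.none)

def k0_mm_133 : ∃ t, chk3 f_mm_133 t 1 1 1 = true :=
  ⟨(l 5), by decide +kernel⟩

theorem c_mm_133 : CertF 536870912 536870912 0 1230186008 201326592 134217728 false false false .dn 1 3 3
    ndF1q1 ndF5q3 pcF3 Cut.none Ext.none :=
  certF0 (fam := false) (s1 := false) (s2 := false) (a := 1) (b := 3) (c := 3) (cn := .dn) (n1 := ndF1q1) (n2 := ndF5q3) (pc := pcF3) (cut := Cut.none) (xt := Ext.none) (P1 := 536870912) (W1 := 536870912) (P2 := 0) (W2 := 1230186008) (P3 := 201326592) (W3 := 134217728)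
    rfl k0_mm_133

noncomputable def cut_mm_202_a : Cut := Cut.of [[⟨0, 1, 0, 67108864⟩, ⟨1, 0, 0, 67108864⟩, ⟨2, 1, 0, 67108864⟩]]

noncomputable def f_mm_202_a : ℕ → ℕ → ℕ → ℕ → Bool := onCell 0 536870912 0 536870912 201326592 134217728
    (rowF 1 false false false .pp 2 0 2 (qsf 0 536870912 1073741824 536870912 0) ndF1q2a ndF5q2 pcF0 cut_mm_202_a Ext.none)

def k0_mm_202_a : ∃ t, chk3 f_mm_202_a t 2 4 1 = true :=
  ⟨(b (a (b (b (l 16957800) (l 16742536)) (a (l 16662440) (l 16621936))) (b (a (b (l 16703736) (l 16619736)) (b (l 16675472) (l 16610840))) (a (b (l 16570784) (l 16655216)) (b (a (l 16612912) (l 16662928)) (c (l 16616576) (l 16612192)))))) (a (b (a (l 16654280) (b (l 16579840) (l 16582168))) (a (l 16627992) (b (l 16593384) (l 16664704)))) (c (b (a (l 16649080) (a (l 16670024) (l 16664088))) (a (l 16782216) (a (l 16737144) (b (l 16669040) (l 174113899943))))) (a (b (l 16602992) (l 16653720)) (b (a (l 16645288) (l 16661672)) (a (l 16680016) (l 154249627975))))))),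 by decide +kernel⟩

def k1_mm_202_a : ∃ t, chk3 f_mm_202_a t 3 8 1 = true :=
  ⟨(a (b (a (b (c (l 16618896) (l 16621792)) (c (l 16725984) (l 16716816))) (b (a (c (l 16633824) (l 16624136)) (c (l 16715560) (l 16717616))) (a (c (l 16723464) (l 16699760)) (c (b (l 16703896) (l 16691024)) (b (l 16700408) (l 16687312)))))) (c (a (b (a (l 16624800) (l 16642664)) (a (l 16659944) (l 16655328))) (b (a (a (l 16676632) (l 16664424)) (a (l 16675112) (b (l 16682176) (l 16690056)))) (a (a (l 16670216) (l 16701456)) (a (b (l 16687120) (l 142975302583)) (b (l 139754082279) (l 186461833463)))))) (a (b (l 16691456) (a (l 16634752) (l 16651792))) (b (a (l 16677072) (b (l 16673568) (l 16702616))) (a (l 16714000) (a (l 139217211383) (l 155860221239))))))) (b (a (b (a (c (b (l 16683256) (b (l 16707928) (l 16721088))) (b (l 16667328) (l 16731440))) (a (b (b (l 6) (l 16698152)) (c (l 16730496) (l 16725424))) (a (b (l 6) (c (l 16718600) (l 16726776))) (l 6)))) (a (c (b (a (l 16679904) (l 16711928))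 (a (l 16685696) (l 16718712))) (b (l 16713552) (l 16720392))) (b (c (a (l 16714328) (b (l 16726864) (a (l 16716456) (l 16734224)))) (a (l 16722576) (b (l 16714672) (l 16728984)))) (a (c (b (l 16720016) (l 134922269319)) (l 131164174903)) (a (c (b (l 16730632) (l 142975343159)) (l 131701055943)) (b (c (l 137606641655) (l 134385415287)) (l 3))))))) (a (b (l 6) (b (l 6) (l 3))) (l 6))) (a (a (b (b (a (c (l 16693464) (l 16690728)) (c (c (l 137069740743) (l 135995998311)) (l 133848516583))) (a (c (l 138143475959) (l 136532861143)) (c (a (l 181630004519) (l 3)) (l 193441187223)))) (a (b (c (l 183240614695) (l 193978028487)) (l 3)) (l 3))) (b (a (b (c (a (l 151028395111) (l 178945695671)) (a (l 134385396295) (l 196125540807))) (l 3)) (l 3)) (l 3))) (l 3)))), by decide +kernel⟩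

def k2_mm_202_a : ∃ t, chk3 f_mm_202_a t 3 9 1 = true :=
  ⟨(a (a (c (b (a (b (l 16653080) (l 16690568)) (b (l 16703000) (l 192367420247))) (a (b (l 192904246503) (l 3)) (l 3))) (b (b (a (l 16650240) (l 16689448)) (a (l 16667392) (l 196125490919))) (a (b (l 189146214375) (l 3)) (l 3)))) (b (b (a (c (a (l 147807137383) (l 183777481671)) (l 159081446455)) (l 3)) (l 3)) (l 3))) (l 3)), by decide +kernel⟩

def k3_mm_202_a : ∃ t, chk3 f_mm_202_a t 1 5 1 = true :=
  ⟨(a (c (b (a (a (b (l 16950200) (l 16976336)) (b (l 16919424) (l 16943840))) (a (b (a (l 16889000) (l 156934162471)) (a (l 163376700231) (l 197736490679))) (b (a (l 156397328567) (l 198273204695)) (l 3)))) (a (a (b (l 16967920) (l 157471180711)) (b (l 174114256791) (l 190757190807))) (l 3))) (b (a (b (a (l 16625024) (l 16635656)) (a (l 16745992) (l 16739824))) (a (b (l 159081484695) (l 173576999303)) (b (a (l 172503192647) (l 199346767383)) (l 3)))) (a (a (b (l 16805512) (l 157471045143)) (b (l 173577111783) (l 188072663319)))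 (l 3)))) (l 3)), by decide +kernel⟩

def k4_mm_202_a : ∃ t, chk3 f_mm_202_a t 1 3 1 = true :=
  ⟨(b (a (b (a (a (b (a (l 178945970311) (l 3)) (l 3)) (l 3)) (l 3)) (l 3)) (l 3)) (l 3)), by decide +kernel⟩

theorem s5_mm_202_a : ∃ t, chk3 f_mm_202_a t 3 4 1 = true := ex3_b k1_mm_202_a k2_mm_202_a

theorem s6_mm_202_a : ∃ t, chk3 f_mm_202_a t 1 4 1 = true := ex3_a k0_mm_202_a s5_mm_202_a

theorem s7_mm_202_a : ∃ t, chk3 f_mm_202_a t 1 2 1 = true := ex3_b s6_mm_202_a k3_mm_202_a

theorem s8_mm_202_a : ∃ t, chk3 f_mm_202_a t 1 1 1 = true := ex3_b s7_mm_202_a k4_mm_202_a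

theorem c_mm_202_a : CertF 0 536870912 1073741824 536870912 201326592 134217728 false false false .pp 2 0 2
    ndF1q2a ndF5q2 pcF0 cut_mm_202_a Ext.none :=
  certF1 (fam := false) (s1 := false) (s2 := false) (a := 2) (b := 0) (c := 2) (cn := .pp) (n1 := ndF1q2a) (n2 := ndF5q2) (pc := pcF0) (cut := cut_mm_202_a) (xt := Ext.none) (P1 := 0) (W1 := 536870912) (P2 := 1073741824) (W2 := 536870912) (P3 := 201326592) (W3 := 134217728)
    rfl (fun _ => rfl) s8_mm_202_a

noncomputable def cut_mm_202_b : Cut := Cut.of [[⟨0, 1, 0, 67108864⟩, ⟨1, 0, 0, 67108864⟩, ⟨2, 1, 0, 67108864⟩]]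

noncomputable def f_mm_202_b : ℕ → ℕ → ℕ → ℕ → Bool := onCell 1239849684 370763052 0 536870912 201326592 134217728
    (rowF 1 false false false .pp 2 0 2 (qsf 1239849684 370763052 1073741824 536870912 0) ndF1q2b ndF5q2 pcF0 cut_mm_202_b Ext.none)

def k0_mm_202_b : ∃ t, chk3 f_mm_202_b t 1 1 1 = true :=
  ⟨(b (a (b (b (a (b (a (l 16971800) (l 16605824)) (a (l 16616552) (l 16519904))) (b (b (l 16720376) (l 16917360)) (a (b (l 16883336) (l 17014016)) (c (l 17522768) (l 16958744))))) (a (b (a (l 16649368) (b (l 16797528) (l 16892840))) (a (b (l 16709192) (l 16791664)) (c (l 17198408) (l 16764520)))) (b (c (l 17447488) (l 17199776)) (a (l 17158288) (l 17294704))))) (a (b (b (a (b (l 16851584) (l 16893344)) (l 17036824)) (a (l 16930032) (l 38823018519))) (b (a (c (l 17038312) (l 16853680)) (c (l 17138464) (l 16947648))) (a (a (a (l 16904528) (l 16925360)) (l 158008102743)) (l 3)))) (b (b (a (l 17171368) (l 17229048)) (a (l 138144273991) (l 3))) (l 3)))) (b (b (b (a (c (a (l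 17653072) (l 17814112)) (a (l 17051864) (l 17291616))) (c (l 17902576) (l 81774062279))) (a (c (l 17720672) (l 17262352)) (l 3))) (a (b (c (l 17644696) (l 17275664)) (l 3)) (l 3))) (l 3))) (a (b (a (b (a (a (b (b (l 64592451687) (l 187535938983)) (l 3)) (l 3)) (l 3)) (l 3)) (l 3)) (l 2)) (l 2))), by decide +kernel⟩

theorem c_mm_202_b : CertF 1239849684 370763052 1073741824 536870912 201326592 134217728 false false false .pp 2 0 2
    ndF1q2b ndF5q2 pcF0 cut_mm_202_b Ext.none :=
  certF1 (fam := false) (s1 := false) (s2 := false) (a := 2) (b := 0) (c := 2) (cn := .pp) (n1 := ndF1q2b) (n2 := ndF5q2) (pc := pcF0) (cut := cut_mm_202_b) (xt := Ext.none) (P1 := 1239849684) (W1 := 370763052) (P2 := 1073741824) (W2 := 536870912) (P3 := 201326592) (W3 := 134217728)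
    rfl (fun _ => rfl) k0_mm_202_b

noncomputable def f_mm_203_a : ℕ → ℕ → ℕ → ℕ → Bool := onCell 0 536870912 0 1230186008 201326592 134217728
    (rowF 0 false false false .up 2 0 3 (qsf 0 536870912 0 1230186008 0) ndF1q2a ndF5q3 pcF0 Cut.none Ext.none)

def k0_mm_203_a : ∃ t, chk3 f_mm_203_a t 1 1 1 = true :=
  ⟨(b (l 2) (b (l 2) (l 3))), by decide +kernel⟩

theorem c_mm_203_a : CertF 0 536870912 0 1230186008 201326592 134217728 false false false .up 2 0 3
    ndF1q2a ndF5q3 pcF0 Cut.none Ext.none :=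
  certF0 (fam := false) (s1 := false) (s2 := false) (a := 2) (b := 0) (c := 3) (cn := .up) (n1 := ndF1q2a) (n2 := ndF5q3) (pc := pcF0) (cut := Cut.none) (xt := Ext.none) (P1 := 0) (W1 := 536870912) (P2 := 0) (W2 := 1230186008) (P3 := 201326592) (W3 := 134217728)
    rfl k0_mm_203_a

noncomputable def f_mm_203_b : ℕ → ℕ → ℕ → ℕ → Bool := onCell 1239849684 370763052 0 1230186008 201326592 134217728
    (rowF 0 false false false .up 2 0 3 (qsf 1239849684 370763052 0 1230186008 0) ndF1q2b ndF5q3 pcF0 Cut.none Ext.none)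

def k0_mm_203_b : ∃ t, chk3 f_mm_203_b t 1 1 1 = true :=
  ⟨(b (l 3) (b (l 3) (a (l 3) (l 3)))), by decide +kernel⟩

theorem c_mm_203_b : CertF 1239849684 370763052 0 1230186008 201326592 134217728 false false false .up 2 0 3
    ndF1q2b ndF5q3 pcF0 Cut.none Ext.none :=
  certF0 (fam := false) (s1 := false) (s2 := false) (a := 2) (b := 0) (c := 3) (cn := .up) (n1 := ndF1q2b) (n2 := ndF5q3) (pc := pcF0) (cut := Cut.none) (xt := Ext.none) (P1 := 1239849684) (W1 := 370763052) (P2 := 0) (W2 := 1230186008) (P3 := 201326592) (W3 := 134217728)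
    rfl k0_mm_203_b

noncomputable def f_mm_213_a : ℕ → ℕ → ℕ → ℕ → Bool := onCell 0 536870912 0 1230186008 201326592 134217728
    (rowF 0 false false false .pnn 2 1 3 (qsf 0 536870912 0 1230186008 1) ndF1q2a ndF5q3 pcF1 Cut.none Ext.none)

def k0_mm_213_a : ∃ t, chk3 f_mm_213_a t 1 1 1 = true :=
  ⟨(b (a (l 3) (l 5)) (b (l 3) (l 3))), by decide +kernel⟩

theorem c_mm_213_a : CertF 0 536870912 0 1230186008 201326592 134217728 false false false .pnn 2 1 3
    ndF1q2a ndF5q3 pcF1 Cut.none Ext.none :=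
  certF0 (fam := false) (s1 := false) (s2 := false) (a := 2) (b := 1) (c := 3) (cn := .pnn) (n1 := ndF1q2a) (n2 := ndF5q3) (pc := pcF1) (cut := Cut.none) (xt := Ext.none) (P1 := 0) (W1 := 536870912) (P2 := 0) (W2 := 1230186008) (P3 := 201326592) (W3 := 134217728)
    rfl k0_mm_213_a

noncomputable def f_mm_213_b : ℕ → ℕ → ℕ → ℕ → Bool := onCell 1239849684 370763052 0 1230186008 201326592 134217728
    (rowF 0 false false false .pnn 2 1 3 (qsf 1239849684 370763052 0 1230186008 1) ndF1q2b ndF5q3 pcF1 Cut.none Ext.none)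

def k0_mm_213_b : ∃ t, chk3 f_mm_213_b t 1 1 1 = true :=
  ⟨(b (l 3) (b (l 3) (a (l 3) (l 1)))), by decide +kernel⟩

theorem c_mm_213_b : CertF 1239849684 370763052 0 1230186008 201326592 134217728 false false false .pnn 2 1 3
    ndF1q2b ndF5q3 pcF1 Cut.none Ext.none :=
  certF0 (fam := false) (s1 := false) (s2 := false) (a := 2) (b := 1) (c := 3) (cn := .pnn) (n1 := ndF1q2b) (n2 := ndF5q3) (pc := pcF1) (cut := Cut.none) (xt := Ext.none) (P1 := 1239849684) (W1 := 370763052) (P2 := 0) (W2 := 1230186008) (P3 := 201326592) (W3 := 134217728)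
    rfl k0_mm_213_b

noncomputable def f_mm_303 : ℕ → ℕ → ℕ → ℕ → Bool := onCell 0 536870912 0 1230186008 201326592 134217728
    (rowF 2 false false false .npn 3 0 3 (qsf 1610612736 536870912 0 1230186008 0) ndF1q3 ndF5q3 pcF0 Cut.none Ext.none)

def k0_mm_303 : ∃ t, chk3 f_mm_303 t 1 1 1 = true :=
  ⟨(b (l 3) (b (l 3) (a (l 3) (l 1)))), by decide +kernel⟩

theorem c_mm_303 : CertF 1610612736 536870912 0 1230186008 201326592 134217728 false false false .npn 3 0 3
    ndF1q3 ndF5q3 pcF0 Cut.none Ext.none :=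
  certF2 (fam := false) (s1 := false) (s2 := false) (a := 3) (b := 0) (c := 3) (cn := .npn) (n1 := ndF1q3) (n2 := ndF5q3) (pc := pcF0) (cut := Cut.none) (xt := Ext.none) (P1 := 1610612736) (W1 := 536870912) (P2 := 0) (W2 := 1230186008) (P3 := 201326592) (W3 := 134217728)
    rfl (fun _ => rfl) k0_mm_303

noncomputable def f_mm_313 : ℕ → ℕ → ℕ → ℕ → Bool := onCell 1610612736 536870912 0 1230186008 201326592 134217728
    (rowF 0 false false false .dn 3 1 3 (qsf 1610612736 536870912 0 1230186008 1) ndF1q3 ndF5q3 pcF1 Cut.none Ext.none)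

def k0_mm_313 : ∃ t, chk3 f_mm_313 t 1 1 1 = true :=
  ⟨(b (l 3) (l 1)), by decide +kernel⟩

theorem c_mm_313 : CertF 1610612736 536870912 0 1230186008 201326592 134217728 false false false .dn 3 1 3
    ndF1q3 ndF5q3 pcF1 Cut.none Ext.none :=
  certF0 (fam := false) (s1 := false) (s2 := false) (a := 3) (b := 1) (c := 3) (cn := .dn) (n1 := ndF1q3) (n2 := ndF5q3) (pc := pcF1) (cut := Cut.none) (xt := Ext.none) (P1 := 1610612736) (W1 := 536870912) (P2 := 0) (W2 := 1230186008) (P3 := 201326592) (W3 := 134217728)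
    rfl k0_mm_313

end Pool.Agent.Strip051.G.I3_16_5_16.Tab.C.FB15

namespace Pool.Agent.Strip051.G.I3_16_5_16.Tab.C.FB20

open Pool.Agent.Strip051.PB Pool.Agent.Strip051.PB.T
open Pool.Agent.Strip051.G.I3_16_5_16.Tab

noncomputable def f_pp_001 : ℕ → ℕ → ℕ → ℕ → Bool := onCell 0 536870912 0 536870912 201326592 134217728
    (rowF 1 false true true .up 0 0 1 (qsf 0 536870912 536870912 536870912 0) ndF2q0 ndF0q1 pcF0 Cut.none Ext.none)

def k0_pp_001 : ∃ t, chk3 f_pp_001 t 1 1 1 = true :=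
  ⟨(a (l 3) (b (l 3) (l 3))), by decide +kernel⟩

theorem c_pp_001 : CertF 0 536870912 536870912 536870912 201326592 134217728 false true true .up 0 0 1
    ndF2q0 ndF0q1 pcF0 Cut.none Ext.none :=
  certF1 (fam := false) (s1 := true) (s2 := true) (a := 0) (b := 0) (c := 1) (cn := .up) (n1 := ndF2q0) (n2 := ndF0q1) (pc := pcF0) (cut := Cut.none) (xt := Ext.none) (P1 := 0) (W1 := 536870912) (P2 := 536870912) (W2 := 536870912) (P3 := 201326592) (W3 := 134217728)
    rfl (fun _ => rfl) k0_pp_001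

noncomputable def cut_pp_011 : Cut := Cut.of [[⟨0, 0, 0, 67108864⟩, ⟨1, 1, 0, 67108864⟩, ⟨2, 1, 0, 67108864⟩]]

noncomputable def f_pp_011 : ℕ → ℕ → ℕ → ℕ → Bool := onCell 0 536870912 536870912 536870912 201326592 134217728
    (rowF 0 false true true .pnn 0 1 1 (qsf 0 536870912 536870912 536870912 1) ndF2q0 ndF0q1 pcF1 cut_pp_011 Ext.none)

def k0_pp_011 : ∃ t, chk3 f_pp_011 t 1 1 1 = true :=
  ⟨(b (l 3) (b (l 3) (b (l 3) (a (a (a (b (l 3) (b (l 3) (a (l 6) (l 3)))) (l 3)) (l 3)) (l 3))))), by decide +kernel⟩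

theorem c_pp_011 : CertF 0 536870912 536870912 536870912 201326592 134217728 false true true .pnn 0 1 1
    ndF2q0 ndF0q1 pcF1 cut_pp_011 Ext.none :=
  certF0 (fam := false) (s1 := true) (s2 := true) (a := 0) (b := 1) (c := 1) (cn := .pnn) (n1 := ndF2q0) (n2 := ndF0q1) (pc := pcF1) (cut := cut_pp_011) (xt := Ext.none) (P1 := 0) (W1 := 536870912) (P2 := 536870912) (W2 := 536870912) (P3 := 201326592) (W3 := 134217728)
    rfl k0_pp_011

noncomputable def cut_pp_012 : Cut := Cut.of [[⟨0, 0, 0, 67108864⟩, ⟨1, 1, 0, 67108864⟩, ⟨2, 1, 0, 67108864⟩]]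

noncomputable def f_pp_012 : ℕ → ℕ → ℕ → ℕ → Bool := onCell 536870912 536870912 0 536870912 201326592 134217728
    (rowF 2 false true true .pnp 0 1 2 (qsf 0 536870912 0 536870912 1) ndF2q0 ndF0q2 pcF1 cut_pp_012 Ext.none)

def k0_pp_012 : ∃ t, chk3 f_pp_012 t 1 1 1 = true :=
  ⟨(a (a (b (b (l 2) (b (l 2) (l 17098608))) (b (a (l 2) (l 17283736)) (b (a (a (l 2) (a (l 17525568) (l 17317040))) (c (l 17323464) (l 17216144))) (a (b (a (a (l 2) (b (c (l 17501504) (l 17360640)) (c (b (l 157942389783) (l 895669974855)) (b (l 173511370375) (l 969757865463))))) (c (c (l 148345838551) (l 155325056135)) (b (l 17329672) (l 175188921527)))) (l 3)) (b (c (l 138682009271) (a (l 204179809143) (l 17259664))) (c (l 749104020631) (b (l 343766219063) (l 3)))))))) (b (b (l 16992856) (b (l 16926280) (l 17118624))) (b (a (l 17109768) (l 17036224)) (b (a (c (l 17238304) (l 17145464)) (l 17108744)) (c (a (b (l 17297720) (l 152103537847)) (l 125260060775)) (a (a (l 189684125095) (l 185925945847))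 (b (l 17115760) (l 175725404071)))))))) (b (a (b (l 16979736) (a (l 17014128) (l 17037648))) (b (a (l 16838424) (a (l 16810824) (l 16791024))) (a (l 17135552) (b (l 17022568) (a (l 16938104) (l 16900288)))))) (a (b (a (l 16984920) (l 17048160)) (a (b (l 17030992) (b (l 17168000) (c (l 17117080) (l 160156229991)))) (b (l 16981112) (c (l 125796393223) (b (l 16961192) (l 159082284231)))))) (b (a (b (l 16959952) (l 16931544)) (a (b (l 16908088) (l 16885832)) (b (l 16868320) (a (l 16855184) (l 16833640))))) (a (b (a (l 16910896) (l 16880760)) (b (a (l 16924392) (l 16886304)) (a (l 163377040519) (b (l 16891272) (l 167135011527))))) (b (a (b (l 16872704) (l 16862840)) (a (l 16836472) (b (l 16819096) (a (l 16816736) (l 16804960))))) (b (a (l 16910864) (a (b (l 16828216) (l 6)) (l 6))) (a (a (l 144049453719) (b (l 16838960) (l 6))) (l 6))))))))), by decide +kernel⟩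

theorem c_pp_012 : CertF 0 536870912 0 536870912 201326592 134217728 false true true .pnp 0 1 2
    ndF2q0 ndF0q2 pcF1 cut_pp_012 Ext.none :=
  certF2 (fam := false) (s1 := true) (s2 := true) (a := 0) (b := 1) (c := 2) (cn := .pnp) (n1 := ndF2q0) (n2 := ndF0q2) (pc := pcF1) (cut := cut_pp_012) (xt := Ext.none) (P1 := 0) (W1 := 536870912) (P2 := 0) (W2 := 536870912) (P3 := 201326592) (W3 := 134217728)
    rfl (fun _ => rfl) k0_pp_012

noncomputable def cut_pp_022 : Cut := Cut.of [[⟨0, 0, 0, 67108864⟩, ⟨1, 1, 0, 67108864⟩, ⟨2, 1, 0, 67108864⟩]]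

noncomputable def f_pp_022 : ℕ → ℕ → ℕ → ℕ → Bool := onCell 0 536870912 0 536870912 201326592 134217728
    (rowF 0 false true true .pp 0 2 2 (qsf 0 536870912 0 536870912 2) ndF2q0 ndF0q2 pcF2 cut_pp_022 Ext.none)

def k0_pp_022 : ∃ t, chk3 f_pp_022 t 2 2 1 = true :=
  ⟨(a (b (a (a (b (a (a (c (b (l 16640512) (l 16569760)) (b (l 16623632) (l 16551160))) (c (l 16571704) (l 16554544))) (b (l 16575592) (l 16609032))) (a (a (c (b (l 16563432) (l 16557048)) (b (l 16543568) (l 16537008))) (c (l 16621040) (l 16622992))) (c (c (l 16680608) (l 16683544)) (c (l 16705968) (l 16705936))))) (b (l 16565520) (l 16536568))) (b (a (l 16535400) (l 16525008)) (l 16535584))) (a (a (b (a (b (c (b (l 16593200) (l 16610624)) (c (l 16656688) (l 16656864))) (a (c (l 16588576) (l 16571424)) (a (l 16589168) (l 16589448)))) (a (b (l 16591680) (l 16612760)) (l 16529736))) (a (b (a (c (c (l 16609264) (l 16612544)) (l 16626176)) (b (l 16592192) (l 16532576))) (a (a (c (a (l 16597192) (l 16534264)) (l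 16623312)) (l 16559424)) (l 16541616))) (c (l 16538736) (l 16543288)))) (b (l 16534416) (l 16614456))) (b (l 16541984) (l 16588856)))) (a (b (l 16651368) (l 16668088)) (l 1))), by decide +kernel⟩

def k1_pp_022 : ∃ t, chk3 f_pp_022 t 2 3 1 = true :=
  ⟨(a (b (a (a (b (c (a (c (l 16610040) (l 16608512)) (l 16576920)) (a (b (l 16577872) (a (l 16596160) (l 16580792))) (l 16577696))) (a (b (a (c (l 16625144) (c (l 16624160) (l 16623296))) (c (l 16610104) (l 16608128))) (b (c (l 16652696) (l 16629080)) (c (l 16669480) (l 16645448)))) (b (c (l 16619416) (l 16616632)) (c (l 16652968) (l 16648784))))) (b (l 16655048) (a (b (l 16630480) (l 16686016)) (l 16657560)))) (b (a (l 16609592) (l 16624608)) (a (b (l 16637408) (l 16677064)) (l 16699408)))) (a (b (b (a (a (c (a (c (l 16692712) (l 16691232)) (l 16677016)) (a (b (l 16659304) (l 16675864)) (l 16673288))) (c (l 16687056) (l 16682344))) (b (l 16720376) (l 16756960))) (a (l 6) (a (l 6) (l 16732920)))) (a (l 6) (a (l 6) (l 1))))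 (b (a (b (l 253436517175) (l 1)) (l 1)) (l 1)))) (b (l 1) (l 1))), by decide +kernel⟩

def k2_pp_022 : ∃ t, chk3 f_pp_022 t 3 1 1 = true :=
  ⟨(l 1), by decide +kernel⟩

theorem s3_pp_022 : ∃ t, chk3 f_pp_022 t 2 1 1 = true := ex3_b k0_pp_022 k1_pp_022

theorem s4_pp_022 : ∃ t, chk3 f_pp_022 t 1 1 1 = true := ex3_a s3_pp_022 k2_pp_022

theorem c_pp_022 : CertF 0 536870912 0 536870912 201326592 134217728 false true true .pp 0 2 2
    ndF2q0 ndF0q2 pcF2 cut_pp_022 Ext.none :=
  certF0 (fam := false) (s1 := true) (s2 := true) (a := 0) (b := 2) (c := 2) (cn := .pp) (n1 := ndF2q0) (n2 := ndF0q2) (pc := pcF2) (cut := cut_pp_022) (xt := Ext.none) (P1 := 0) (W1 := 536870912) (P2 := 0) (W2 := 536870912) (P3 := 201326592) (W3 := 134217728)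
    rfl s4_pp_022

noncomputable def f_pp_101 : ℕ → ℕ → ℕ → ℕ → Bool := onCell 536870912 536870912 536870912 536870912 201326592 134217728
    (rowF 0 false true true .npn 1 0 1 (qsf 536870912 536870912 536870912 536870912 0) ndF2q1 ndF0q1 pcF0 Cut.none Ext.none)

def k0_pp_101 : ∃ t, chk3 f_pp_101 t 1 1 1 = true :=
  ⟨(b (l 3) (a (l 3) (l 3))), by decide +kernel⟩

theorem c_pp_101 : CertF 536870912 536870912 536870912 536870912 201326592 134217728 false true true .npn 1 0 1
    ndF2q1 ndF0q1 pcF0 Cut.none Ext.none :=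
  certF0 (fam := false) (s1 := true) (s2 := true) (a := 1) (b := 0) (c := 1) (cn := .npn) (n1 := ndF2q1) (n2 := ndF0q1) (pc := pcF0) (cut := Cut.none) (xt := Ext.none) (P1 := 536870912) (W1 := 536870912) (P2 := 536870912) (W2 := 536870912) (P3 := 201326592) (W3 := 134217728)
    rfl k0_pp_101

noncomputable def f_pp_102 : ℕ → ℕ → ℕ → ℕ → Bool := onCell 536870912 536870912 0 536870912 201326592 134217728
    (rowF 0 false true true .npp 1 0 2 (qsf 536870912 536870912 0 536870912 0) ndF2q1 ndF0q2 pcF0 Cut.none Ext.none)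

def k0_pp_102 : ∃ t, chk3 f_pp_102 t 2 1 1 = true :=
  ⟨(b (a (a (l 2) (b (l 2) (l 17182552))) (b (l 17142688) (a (l 17187264) (l 17155872)))) (a (b (b (l 10302742343) (a (l 2) (l 17236368))) (b (b (a (l 17272512) (l 17233240)) (a (c (l 17400088) (l 17157688)) (a (c (l 17368992) (l 17116200)) (c (l 17344400) (l 17082552))))) (b (a (a (a (l 2) (c (l 184852635639) (b (l 17160368) (l 167672257319)))) (b (c (l 17392776) (l 17138840)) (c (l 167672726263) (a (l 163914131255) (l 160156004295))))) (a (b (c (l 17366104) (b (l 17109016) (l 17064048))) (c (l 169283279703) (b (l 159082215287) (l 3)))) (b (c (l 180020444583) (b (l 17073400) (l 170356240055))) (l 3)))) (l 3)))) (b (b (a (l 17204976) (l 17138096)) (a (l 17191992) (b (l 17108912) (l 17083216)))) (b (a (a (b (l 17190224) (c (l 17315032) (l 17040136))) (b (l 17149088) (c (l 17277416) (b (l 16989296) (l 16978160))))) (b (c (l 17226184) (l 16885856)) (b (c (l 17201456) (l 16862376)) (c (a (l 17218064) (a (l 17163808) (l 171429856087)))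 (a (l 16856680) (b (l 16790352) (l 167671398887))))))) (b (b (b (a (c (a (l 17304728) (l 17220656)) (a (l 17029176) (a (l 16986576) (l 16952288)))) (c (a (l 165524535383) (c (l 270214490791) (l 270751229751))) (a (a (l 163376516167) (l 160155240407)) (l 199883707079)))) (a (a (c (l 162840450311) (l 160155574775)) (c (l 203105936007) (l 193441657559))) (l 3))) (l 3)) (l 3)))))), by decide +kernel⟩

def k1_pp_102 : ∃ t, chk3 f_pp_102 t 3 2 1 = true :=
  ⟨(a (b (b (a (l 17063704) (l 16945464)) (a (l 17063640) (l 16859424))) (b (a (l 17062208) (l 16801512)) (a (l 17030848) (l 16716008)))) (b (a (b (l 17031512) (l 16765072)) (b (l 17215304) (a (l 16875672) (l 16944776)))) (a (b (l 16638880) (l 16631232)) (a (b (l 16626280) (l 16571816)) (b (l 16717064) (l 16601024)))))), by decide +kernel⟩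

def k2_pp_102 : ∃ t, chk3 f_pp_102 t 6 3 1 = true :=
  ⟨(b (b (a (l 16970488) (l 16579872)) (a (b (l 16907584) (l 16857416)) (b (l 16563280) (l 16628432)))) (b (a (b (a (l 16884344) (l 16702144)) (b (c (a (l 17058208) (l 16901664)) (a (l 16681128) (l 16687448))) (a (c (b (l 16996512) (c (l 166061294359) (l 162302765591))) (c (l 163913321879) (l 163376444551))) (b (c (c (l 16980672) (l 16751880)) (a (l 16705408) (c (l 16709816) (l 16704816)))) (c (c (l 287394123031) (l 190219992039)) (b (a (l 162839537895) (l 199346760999)) (l 3))))))) (b (c (b (l 16646056) (l 16713448)) (a (l 16651744) (l 16649744))) (b (a (c (b (l 16689440) (l 16702896)) (b (l 16682808) (l 16695896))) (b (c (l 16691448) (l 16681904)) (a (c (l 16704920) (l 16695592)) (c (c (l 16706976) (l 16703448)) (c (l 16698128) (l 170892561607)))))) (a (b (c (c (l 159081477671) (l 159081473767)) (c (b (l 16708608) (l 201494240183)) (a (l 167671366631) (l 166597611655)))) (l 3)) (b (b (c (c (l 204715469591) (a (l 160155185495)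 (l 203641720759))) (c (a (l 163913269815) (l 199346742263)) (a (l 167671346087) (l 192367405575)))) (l 3)) (l 3)))))) (a (b (l 3) (l 3)) (l 3)))), by decide +kernel⟩

def k3_pp_102 : ∃ t, chk3 f_pp_102 t 7 6 1 = true :=
  ⟨(a (b (b (l 16485888) (l 16510288)) (b (l 16611880) (a (l 16599976) (l 16593856)))) (b (a (b (l 16476656) (l 16503664)) (b (l 16516224) (l 16502048))) (a (b (l 16538456) (b (l 16574248) (l 16601208))) (b (l 16554856) (b (l 16611496) (a (l 16597744) (l 16595960))))))), by decide +kernel⟩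

def k4_pp_102 : ∃ t, chk3 f_pp_102 t 14 14 1 = true :=
  ⟨(b (b (a (l 16638272) (l 16654512)) (a (c (l 16669728) (l 16659056)) (c (a (l 16667064) (l 16665032)) (b (l 16648040) (l 16682568))))) (b (a (b (c (a (l 16690968) (l 16689800)) (a (l 16679912) (l 16678168))) (c (c (a (l 157470826935) (l 158007677895)) (a (l 161765782775) (l 160692022871))) (c (a (l 166060723383) (l 163376365159)) (b (a (l 16686272) (l 169818799063)) (a (l 166597586135) (l 166597582007)))))) (b (c (a (c (l 16690560) (l 16685672)) (c (l 158544529895) (l 161765744759))) (c (a (l 16679688) (b (l 16674224) (l 164450085015))) (a (l 16672608) (a (l 167671294407) (l 167671293559))))) (b (c (c (a (l 157470797319) (l 170355695191)) (a (l 160155141703) (l 168745071703))) (c (a (l 162839483815) (l 161228866343)) (a (l 164986952759) (l 160691981015)))) (l 3)))) (l 3))), by decide +kernel⟩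

def k5_pp_102 : ∃ t, chk3 f_pp_102 t 15 14 1 = true :=
  ⟨(b (a (b (c (l 16633544) (l 16623544)) (b (c (a (l 16655768) (l 16653848)) (l 16644128)) (c (a (l 16670152) (c (l 16670936) (l 16665840))) (a (l 16658744) (a (l 16657608) (l 16657032)))))) (b (a (c (l 16630424) (l 16621160)) (c (l 16628776) (l 16620208))) (a (b (c (l 16652248) (l 16642160)) (c (a (c (l 16669840) (l 16664768)) (c (l 154786396343) (l 156397003143))) (b (l 16663288) (a (l 147270185847) (l 158544477543))))) (b (c (a (l 16651200) (l 16650600)) (a (l 16641600) (l 16641392))) (c (c (a (l 158544473575) (a (l 157470730663) (l 156933858983))) (a (l 161228818247) (a (l 160155075511) (l 159081333063)))) (a (a (l 156396993047) (l 164450028215)) (a (l 163376286087) (l 162839414887)))))))) (a (b (b (b (a (c (c (l 161228865607) (l 163913209063)) (a (l 16669568) (l 158544473063))) (a (c (c (l 158544505607) (l 160691978455)) (l 165523794439)) (c (c (l 155860145063) (l 158544489047)) (l 162302567879)))) (a (b (c (c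 (l 168208193527) (l 164450085847)) (a (l 166597544039) (l 160155097079))) (l 3)) (l 3))) (l 3)) (l 3)) (b (a (a (a (b (c (c (l 152638924775) (l 155323268599)) (l 159081347479)) (l 3)) (l 3)) (l 3)) (l 3)) (l 3)))), by decide +kernel⟩

def k6_pp_102 : ∃ t, chk3 f_pp_102 t 7 15 1 = true :=
  ⟨(l 3), by decide +kernel⟩

theorem s7_pp_102 : ∃ t, chk3 f_pp_102 t 7 14 1 = true := ex3_a k4_pp_102 k5_pp_102

theorem s8_pp_102 : ∃ t, chk3 f_pp_102 t 7 7 1 = true := ex3_b s7_pp_102 k6_pp_102

theorem s9_pp_102 : ∃ t, chk3 f_pp_102 t 7 3 1 = true := ex3_b k3_pp_102 s8_pp_102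

theorem s10_pp_102 : ∃ t, chk3 f_pp_102 t 3 3 1 = true := ex3_a k2_pp_102 s9_pp_102

theorem s11_pp_102 : ∃ t, chk3 f_pp_102 t 3 1 1 = true := ex3_b k1_pp_102 s10_pp_102

theorem s12_pp_102 : ∃ t, chk3 f_pp_102 t 1 1 1 = true := ex3_a k0_pp_102 s11_pp_102

theorem c_pp_102 : CertF 536870912 536870912 0 536870912 201326592 134217728 false true true .npp 1 0 2
    ndF2q1 ndF0q2 pcF0 Cut.none Ext.none :=
  certF0 (fam := false) (s1 := true) (s2 := true) (a := 1) (b := 0) (c := 2) (cn := .npp) (n1 := ndF2q1) (n2 := ndF0q2) (pc := pcF0) (cut := Cut.none) (xt := Ext.none) (P1 := 536870912) (W1 := 536870912) (P2 := 0) (W2 := 536870912) (P3 := 201326592) (W3 := 134217728)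
    rfl s12_pp_102

noncomputable def f_pp_112 : ℕ → ℕ → ℕ → ℕ → Bool := onCell 536870912 536870912 0 536870912 201326592 134217728
    (rowF 2 false true true .dn 1 1 2 (qsf 536870912 536870912 0 536870912 1) ndF2q1 ndF0q2 pcF1 Cut.none Ext.none)

def k0_pp_112 : ∃ t, chk3 f_pp_112 t 1 1 1 = true :=
  ⟨(a (a (a (b (b (l 17755176) (l 17458688)) (a (b (b (l 17333320) (l 17291776)) (b (b (l 17281584) (c (l 17426224) (l 17147304))) (b (c (b (l 17425088) (l 147808391511)) (b (l 17160040) (a (l 141902423159) (a (l 142439357319) (l 143513113191))))) (l 3)))) (b (b (l 17351160) (l 17320160)) (b (c (l 17454280) (l 17176312)) (b (c (l 556769897015) (l 534220945687)) (l 1)))))) (b (b (b (l 17772768) (l 17662176)) (l 17452872)) (b (b (l 17373624) (l 17356232)) (b (l 571265413847) (l 1))))) (b (b (l 17689184) (b (l 17500784) (l 914325781751))) (b (l 1) (l 1)))) (l 1)), by decide +kernel⟩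

theorem c_pp_112 : CertF 536870912 536870912 0 536870912 201326592 134217728 false true true .dn 1 1 2
    ndF2q1 ndF0q2 pcF1 Cut.none Ext.none :=
  certF2 (fam := false) (s1 := true) (s2 := true) (a := 1) (b := 1) (c := 2) (cn := .dn) (n1 := ndF2q1) (n2 := ndF0q2) (pc := pcF1) (cut := Cut.none) (xt := Ext.none) (P1 := 536870912) (W1 := 536870912) (P2 := 0) (W2 := 536870912) (P3 := 201326592) (W3 := 134217728)
    rfl (fun _ => rfl) k0_pp_112

noncomputable def f_pp_202_a : ℕ → ℕ → ℕ → ℕ → Bool := onCell 0 536870912 0 536870912 201326592 134217728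
    (rowF 0 false true true .pp 2 0 2 (qsf 0 536870912 0 536870912 0) ndF2q2a ndF0q2 pcF0 Cut.none Ext.none)

def k0_pp_202_a : ∃ t, chk3 f_pp_202_a t 1 1 1 = true :=
  ⟨(l 3), by decide +kernel⟩

theorem c_pp_202_a : CertF 0 536870912 0 536870912 201326592 134217728 false true true .pp 2 0 2
    ndF2q2a ndF0q2 pcF0 Cut.none Ext.none :=
  certF0 (fam := false) (s1 := true) (s2 := true) (a := 2) (b := 0) (c := 2) (cn := .pp) (n1 := ndF2q2a) (n2 := ndF0q2) (pc := pcF0) (cut := Cut.none) (xt := Ext.none) (P1 := 0) (W1 := 536870912) (P2 := 0) (W2 := 536870912) (P3 := 201326592) (W3 := 134217728)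
    rfl k0_pp_202_a

noncomputable def f_pp_202_b : ℕ → ℕ → ℕ → ℕ → Bool := onCell 1239849684 370763052 0 536870912 201326592 134217728
    (rowF 0 false true true .pp 2 0 2 (qsf 1239849684 370763052 0 536870912 0) ndF2q2b ndF0q2 pcF0 Cut.none Ext.none)

def k0_pp_202_b : ∃ t, chk3 f_pp_202_b t 1 1 1 = true :=
  ⟨(l 3), by decide +kernel⟩

theorem c_pp_202_b : CertF 1239849684 370763052 0 536870912 201326592 134217728 false true true .pp 2 0 2
    ndF2q2b ndF0q2 pcF0 Cut.none Ext.none :=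
  certF0 (fam := false) (s1 := true) (s2 := true) (a := 2) (b := 0) (c := 2) (cn := .pp) (n1 := ndF2q2b) (n2 := ndF0q2) (pc := pcF0) (cut := Cut.none) (xt := Ext.none) (P1 := 1239849684) (W1 := 370763052) (P2 := 0) (W2 := 536870912) (P3 := 201326592) (W3 := 134217728)
    rfl k0_pp_202_b

noncomputable def f_pm_001 : ℕ → ℕ → ℕ → ℕ → Bool := onCell 0 536870912 0 536870912 201326592 134217728
    (rowF 1 false true false .up 0 0 1 (qsf 0 536870912 536870912 536870912 0) ndF2q0 ndF0q1 pcF0 Cut.none Ext.none)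

def k0_pm_001 : ∃ t, chk3 f_pm_001 t 1 1 1 = true :=
  ⟨(a (l 4) (l 4)), by decide +kernel⟩

theorem c_pm_001 : CertF 0 536870912 536870912 536870912 201326592 134217728 false true false .up 0 0 1
    ndF2q0 ndF0q1 pcF0 Cut.none Ext.none :=
  certF1 (fam := false) (s1 := true) (s2 := false) (a := 0) (b := 0) (c := 1) (cn := .up) (n1 := ndF2q0) (n2 := ndF0q1) (pc := pcF0) (cut := Cut.none) (xt := Ext.none) (P1 := 0) (W1 := 536870912) (P2 := 536870912) (W2 := 536870912) (P3 := 201326592) (W3 := 134217728)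
    rfl (fun _ => rfl) k0_pm_001

noncomputable def cut_pm_011 : Cut := Cut.of [[⟨0, 0, 0, 67108864⟩, ⟨1, 1, 0, 67108864⟩, ⟨2, 1, 0, 67108864⟩]]

noncomputable def f_pm_011 : ℕ → ℕ → ℕ → ℕ → Bool := onCell 0 536870912 536870912 536870912 201326592 134217728
    (rowF 0 false true false .pnn 0 1 1 (qsf 0 536870912 536870912 536870912 1) ndF2q0 ndF0q1 pcF1 cut_pm_011 Ext.none)

def k0_pm_011 : ∃ t, chk3 f_pm_011 t 1 1 1 = true :=
  ⟨(a (b (l 4) (a (b (l 4) (b (l 4) (a (b (l 4) (a (a (l 6) (l 4)) (l 4))) (l 4)))) (l 4))) (l 4)), by decide +kernel⟩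

theorem c_pm_011 : CertF 0 536870912 536870912 536870912 201326592 134217728 false true false .pnn 0 1 1
    ndF2q0 ndF0q1 pcF1 cut_pm_011 Ext.none :=
  certF0 (fam := false) (s1 := true) (s2 := false) (a := 0) (b := 1) (c := 1) (cn := .pnn) (n1 := ndF2q0) (n2 := ndF0q1) (pc := pcF1) (cut := cut_pm_011) (xt := Ext.none) (P1 := 0) (W1 := 536870912) (P2 := 536870912) (W2 := 536870912) (P3 := 201326592) (W3 := 134217728)
    rfl k0_pm_011

noncomputable def cut_pm_012 : Cut := Cut.of [[⟨0, 0, 0, 67108864⟩, ⟨1, 1, 0, 67108864⟩, ⟨2, 1, 0, 67108864⟩]]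

noncomputable def f_pm_012 : ℕ → ℕ → ℕ → ℕ → Bool := onCell 536870912 536870912 0 536870912 201326592 134217728
    (rowF 2 false true false .pnp 0 1 2 (qsf 0 536870912 0 536870912 1) ndF2q0 ndF0q2 pcF1 cut_pm_012 Ext.none)

def k0_pm_012 : ∃ t, chk3 f_pm_012 t 1 1 1 = true :=
  ⟨(a (a (b (a (l 2) (b (l 2) (l 17307320))) (b (l 17325784) (l 4))) (b (a (b (l 17121152) (c (l 17366256) (l 17115648))) (b (l 17117856) (a (b (l 17206728) (l 17234136)) (l 17280544)))) (b (a (l 17264280) (a (l 17184560) (l 17104072))) (l 4)))) (b (a (a (b (l 17051864) (b (l 17074384) (l 17045824))) (b (l 16861408) (b (l 16803968) (l 16699336)))) (a (b (l 16606352) (a (l 16664592) (l 16602080))) (b (a (l 16601936) (l 16619152)) (b (l 16563896) (l 16525456))))) (a (a (b (b (l 17092328) (l 16844088)) (l 4)) (b (a (l 16700656) (b (l 16417344) (l 16449808))) (l 4))) (a (b (a (b (l 16422760) (l 16625976)) (b (l 16420512) (l 16527768))) (b (a (l 16545216) (l 16617344)) (l 4))) (a (b (b (l 16449048) (l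 16550032)) (b (b (l 16582120) (l 16632816)) (l 4))) (b (b (l 16480440) (l 16602312)) (b (a (l 16701128) (b (l 16587032) (l 16668160))) (b (a (l 16716328) (l 6)) (l 6))))))))), by decide +kernel⟩

theorem c_pm_012 : CertF 0 536870912 0 536870912 201326592 134217728 false true false .pnp 0 1 2
    ndF2q0 ndF0q2 pcF1 cut_pm_012 Ext.none :=
  certF2 (fam := false) (s1 := true) (s2 := false) (a := 0) (b := 1) (c := 2) (cn := .pnp) (n1 := ndF2q0) (n2 := ndF0q2) (pc := pcF1) (cut := cut_pm_012) (xt := Ext.none) (P1 := 0) (W1 := 536870912) (P2 := 0) (W2 := 536870912) (P3 := 201326592) (W3 := 134217728)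
    rfl (fun _ => rfl) k0_pm_012

noncomputable def cut_pm_022 : Cut := Cut.of [[⟨0, 0, 0, 67108864⟩, ⟨1, 1, 0, 67108864⟩, ⟨2, 1, 0, 67108864⟩]]

noncomputable def f_pm_022 : ℕ → ℕ → ℕ → ℕ → Bool := onCell 0 536870912 0 536870912 201326592 134217728
    (rowF 0 false true false .pp 0 2 2 (qsf 0 536870912 0 536870912 2) ndF2q0 ndF0q2 pcF2 cut_pm_022 Ext.none)

def k0_pm_022 : ∃ t, chk3 f_pm_022 t 1 1 1 = true :=
  ⟨(a (b (a (b (b (a (a (a (a (b (c (l 16608928) (l 16593656)) (c (l 16598688) (l 16584208))) (c (l 16609128) (l 16594776))) (c (l 16604504) (l 16590056))) (l 16616504)) (l 16530296)) (a (b (a (c (l 16614472) (l 16577912)) (l 16546320)) (a (c (l 16642688) (l 16582928)) (l 16547880))) (l 16574840))) (a (a (a (b (b (c (l 16600448) (l 16599928)) (c (l 16614336) (l 16610296))) (b (c (l 16626704) (l 16620296)) (c (l 16638232) (l 16630536)))) (b (l 16671992) (c (l 16609024) (l 16602992)))) (b (l 16598768) (l 16632192))) (a (b (l 16511264) (l 16515312)) (l 16545736))))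 (a (b (l 16482616) (b (l 16428208) (l 16452072))) (l 1))) (a (b (a (a (b (a (c (a (b (l 16655952) (c (l 16668768) (l 16665736))) (l 16648384)) (a (b (l 16647400) (l 16658704)) (l 16640432))) (c (l 16627384) (l 16620504))) (a (a (c (b (c (l 16680712) (l 16677528)) (a (c (l 16697240) (l 16693952)) (l 16687952))) (b (a (l 16674136) (l 16667168)) (a (b (l 16683824) (l 16690688)) (l 16679960)))) (c (b (l 16664376) (l 16676136)) (l 16725792))) (c (l 16688800) (l 16682480)))) (b (a (l 16617072) (l 16566464)) (a (l 16675136) (l 16600016)))) (b (a (l 16519464) (l 16481160)) (a (l 16623416) (l 16547176)))) (a (a (b (b (a (a (a (c (c (b (l 16707160) (l 16714088)) (b (l 16704016) (l 16711120))) (b (l 16697880) (b (l 16703520) (l 6)))) (c (l 16701080) (l 16694040))) (c (l 16688704) (l 16682360))) (c (l 16684368) (l 16679392))) (l 6)) (l 6)) (a (b (b (l 16626888) (l 6)) (l 6)) (b (b (l 16597032) (l 16635336)) (l 1)))) (b (a (b (l 16602192) (l 1)) (l 1)) (l 1)))) (b (l 1) (l 1)))) (l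 1)), by decide +kernel⟩

theorem c_pm_022 : CertF 0 536870912 0 536870912 201326592 134217728 false true false .pp 0 2 2
    ndF2q0 ndF0q2 pcF2 cut_pm_022 Ext.none :=
  certF0 (fam := false) (s1 := true) (s2 := false) (a := 0) (b := 2) (c := 2) (cn := .pp) (n1 := ndF2q0) (n2 := ndF0q2) (pc := pcF2) (cut := cut_pm_022) (xt := Ext.none) (P1 := 0) (W1 := 536870912) (P2 := 0) (W2 := 536870912) (P3 := 201326592) (W3 := 134217728)
    rfl k0_pm_022

noncomputable def f_pm_101 : ℕ → ℕ → ℕ → ℕ → Bool := onCell 536870912 536870912 536870912 536870912 201326592 134217728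
    (rowF 0 false true false .npn 1 0 1 (qsf 536870912 536870912 536870912 536870912 0) ndF2q1 ndF0q1 pcF0 Cut.none Ext.none)

def k0_pm_101 : ∃ t, chk3 f_pm_101 t 1 1 1 = true :=
  ⟨(l 4), by decide +kernel⟩

theorem c_pm_101 : CertF 536870912 536870912 536870912 536870912 201326592 134217728 false true false .npn 1 0 1
    ndF2q1 ndF0q1 pcF0 Cut.none Ext.none :=
  certF0 (fam := false) (s1 := true) (s2 := false) (a := 1) (b := 0) (c := 1) (cn := .npn) (n1 := ndF2q1) (n2 := ndF0q1) (pc := pcF0) (cut := Cut.none) (xt := Ext.none) (P1 := 536870912) (W1 := 536870912) (P2 := 536870912) (W2 := 536870912) (P3 := 201326592) (W3 := 134217728)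
    rfl k0_pm_101

noncomputable def f_pm_102 : ℕ → ℕ → ℕ → ℕ → Bool := onCell 0 536870912 0 536870912 201326592 134217728
    (rowF 2 false true false .npp 1 0 2 (qsf 536870912 536870912 0 536870912 0) ndF2q1 ndF0q2 pcF0 Cut.none Ext.none)

def k0_pm_102 : ∃ t, chk3 f_pm_102 t 1 1 1 = true :=
  ⟨(a (b (a (a (l 2) (b (l 2) (l 18317032))) (b (a (b (l 17587776) (l 17899928)) (b (l 17469584) (l 17800888))) (a (l 18223632) (l 18114184)))) (b (a (a (l 2) (l 18598264)) (a (l 18444976) (l 18301176))) (l 4))) (b (a (a (b (l 17492840) (l 17984408)) (b (b (l 17138904) (l 17505952)) (l 18060232))) (b (c (a (l 17221984) (l 17169472)) (a (l 17201888) (l 17097688))) (b (a (l 17627024) (l 17473960)) (a (l 17835416) (l 17696200))))) (b (a (a (l 18173088) (l 18248560)) (b (a (l 17981768) (l 17890848)) (l 4))) (l 4)))), by decide +kernel⟩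

theorem c_pm_102 : CertF 536870912 536870912 0 536870912 201326592 134217728 false true false .npp 1 0 2
    ndF2q1 ndF0q2 pcF0 Cut.none Ext.none :=
  certF2 (fam := false) (s1 := true) (s2 := false) (a := 1) (b := 0) (c := 2) (cn := .npp) (n1 := ndF2q1) (n2 := ndF0q2) (pc := pcF0) (cut := Cut.none) (xt := Ext.none) (P1 := 536870912) (W1 := 536870912) (P2 := 0) (W2 := 536870912) (P3 := 201326592) (W3 := 134217728)
    rfl (fun _ => rfl) k0_pm_102

noncomputable def f_pm_112 : ℕ → ℕ → ℕ → ℕ → Bool := onCell 536870912 536870912 0 536870912 201326592 134217728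
    (rowF 0 false true false .dn 1 1 2 (qsf 536870912 536870912 0 536870912 1) ndF2q1 ndF0q2 pcF1 Cut.none Ext.none)

def k0_pm_112 : ∃ t, chk3 f_pm_112 t 1 1 1 = true :=
  ⟨(a (b (a (a (b (b (l 17818968) (l 18056880)) (a (b (l 17830760) (l 17914528)) (l 17923328))) (b (l 17869640) (l 17960208))) (b (l 18007456) (l 18204320))) (b (a (l 17857480) (l 1)) (l 4))) (l 1)), by decide +kernel⟩

theorem c_pm_112 : CertF 536870912 536870912 0 536870912 201326592 134217728 false true false .dn 1 1 2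
    ndF2q1 ndF0q2 pcF1 Cut.none Ext.none :=
  certF0 (fam := false) (s1 := true) (s2 := false) (a := 1) (b := 1) (c := 2) (cn := .dn) (n1 := ndF2q1) (n2 := ndF0q2) (pc := pcF1) (cut := Cut.none) (xt := Ext.none) (P1 := 536870912) (W1 := 536870912) (P2 := 0) (W2 := 536870912) (P3 := 201326592) (W3 := 134217728)
    rfl k0_pm_112

noncomputable def cut_pm_202_a : Cut := Cut.of [[⟨0, 1, 0, 67108864⟩, ⟨1, 0, 0, 67108864⟩, ⟨2, 1, 0, 67108864⟩]]

noncomputable def f_pm_202_a : ℕ → ℕ → ℕ → ℕ → Bool := onCell 0 536870912 0 536870912 201326592 134217728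
    (rowF 0 false true false .pp 2 0 2 (qsf 0 536870912 0 536870912 0) ndF2q2a ndF0q2 pcF0 cut_pm_202_a Ext.none)

def k0_pm_202_a : ∃ t, chk3 f_pm_202_a t 1 1 1 = true :=
  ⟨(a (l 3) (b (l 3) (b (l 3) (a (l 3) (b (l 3) (a (l 3) (l 6))))))), by decide +kernel⟩

theorem c_pm_202_a : CertF 0 536870912 0 536870912 201326592 134217728 false true false .pp 2 0 2
    ndF2q2a ndF0q2 pcF0 cut_pm_202_a Ext.none :=
  certF0 (fam := false) (s1 := true) (s2 := false) (a := 2) (b := 0) (c := 2) (cn := .pp) (n1 := ndF2q2a) (n2 := ndF0q2) (pc := pcF0) (cut := cut_pm_202_a) (xt := Ext.none) (P1 := 0) (W1 := 536870912) (P2 := 0) (W2 := 536870912) (P3 := 201326592) (W3 := 134217728)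
    rfl k0_pm_202_a

noncomputable def cut_pm_202_b : Cut := Cut.of [[⟨0, 1, 0, 67108864⟩, ⟨1, 0, 0, 67108864⟩, ⟨2, 1, 0, 67108864⟩]]

noncomputable def f_pm_202_b : ℕ → ℕ → ℕ → ℕ → Bool := onCell 1239849684 370763052 0 536870912 201326592 134217728
    (rowF 0 false true false .pp 2 0 2 (qsf 1239849684 370763052 0 536870912 0) ndF2q2b ndF0q2 pcF0 cut_pm_202_b Ext.none)

def k0_pm_202_b : ∃ t, chk3 f_pm_202_b t 1 1 1 = true :=
  ⟨(b (l 3) (l 1)), by decide +kernel⟩

theorem c_pm_202_b : CertF 1239849684 370763052 0 536870912 201326592 134217728 false true false .pp 2 0 2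
    ndF2q2b ndF0q2 pcF0 cut_pm_202_b Ext.none :=
  certF0 (fam := false) (s1 := true) (s2 := false) (a := 2) (b := 0) (c := 2) (cn := .pp) (n1 := ndF2q2b) (n2 := ndF0q2) (pc := pcF0) (cut := cut_pm_202_b) (xt := Ext.none) (P1 := 1239849684) (W1 := 370763052) (P2 := 0) (W2 := 536870912) (P3 := 201326592) (W3 := 134217728)
    rfl k0_pm_202_b

noncomputable def f_mm_001 : ℕ → ℕ → ℕ → ℕ → Bool := onCell 0 536870912 536870912 536870912 201326592 134217728
    (rowF 0 false false false .up 0 0 1 (qsf 0 536870912 536870912 536870912 0) ndF2q0 ndF0q1 pcF0 Cut.none Ext.none)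

def k0_mm_001 : ∃ t, chk3 f_mm_001 t 1 1 1 = true :=
  ⟨(l 5), by decide +kernel⟩

theorem c_mm_001 : CertF 0 536870912 536870912 536870912 201326592 134217728 false false false .up 0 0 1
    ndF2q0 ndF0q1 pcF0 Cut.none Ext.none :=
  certF0 (fam := false) (s1 := false) (s2 := false) (a := 0) (b := 0) (c := 1) (cn := .up) (n1 := ndF2q0) (n2 := ndF0q1) (pc := pcF0) (cut := Cut.none) (xt := Ext.none) (P1 := 0) (W1 := 536870912) (P2 := 536870912) (W2 := 536870912) (P3 := 201326592) (W3 := 134217728)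
    rfl k0_mm_001

noncomputable def f_mm_011 : ℕ → ℕ → ℕ → ℕ → Bool := onCell 0 536870912 536870912 536870912 201326592 134217728
    (rowF 0 false false false .pnn 0 1 1 (qsf 0 536870912 536870912 536870912 1) ndF2q0 ndF0q1 pcF1 Cut.none Ext.none)

def k0_mm_011 : ∃ t, chk3 f_mm_011 t 1 1 1 = true :=
  ⟨(l 5), by decide +kernel⟩

theorem c_mm_011 : CertF 0 536870912 536870912 536870912 201326592 134217728 false false false .pnn 0 1 1
    ndF2q0 ndF0q1 pcF1 Cut.none Ext.none :=
  certF0 (fam := false) (s1 := false) (s2 := false) (a := 0) (b := 1) (c := 1) (cn := .pnn) (n1 := ndF2q0) (n2 := ndF0q1) (pc := pcF1) (cut := Cut.none) (xt := Ext.none) (P1 := 0) (W1 := 536870912) (P2 := 536870912) (W2 := 536870912) (P3 := 201326592) (W3 := 134217728)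
    rfl k0_mm_011

noncomputable def f_mm_012 : ℕ → ℕ → ℕ → ℕ → Bool := onCell 0 536870912 0 536870912 201326592 134217728
    (rowF 0 false false false .pnp 0 1 2 (qsf 0 536870912 0 536870912 1) ndF2q0 ndF0q2 pcF1 Cut.none Ext.none)

def k0_mm_012 : ∃ t, chk3 f_mm_012 t 1 1 1 = true :=
  ⟨(l 5), by decide +kernel⟩

theorem c_mm_012 : CertF 0 536870912 0 536870912 201326592 134217728 false false false .pnp 0 1 2
    ndF2q0 ndF0q2 pcF1 Cut.none Ext.none :=
  certF0 (fam := false) (s1 := false) (s2 := false) (a := 0) (b := 1) (c := 2) (cn := .pnp) (n1 := ndF2q0) (n2 := ndF0q2) (pc := pcF1) (cut := Cut.none) (xt := Ext.none) (P1 := 0) (W1 := 536870912) (P2 := 0) (W2 := 536870912) (P3 := 201326592) (W3 := 134217728)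
    rfl k0_mm_012

noncomputable def f_mm_022 : ℕ → ℕ → ℕ → ℕ → Bool := onCell 0 536870912 0 536870912 201326592 134217728
    (rowF 0 false false false .pp 0 2 2 (qsf 0 536870912 0 536870912 2) ndF2q0 ndF0q2 pcF2 Cut.none Ext.none)

def k0_mm_022 : ∃ t, chk3 f_mm_022 t 1 1 1 = true :=
  ⟨(l 5), by decide +kernel⟩

theorem c_mm_022 : CertF 0 536870912 0 536870912 201326592 134217728 false false false .pp 0 2 2
    ndF2q0 ndF0q2 pcF2 Cut.none Ext.none :=
  certF0 (fam := false) (s1 := false) (s2 := false) (a := 0) (b := 2) (c := 2) (cn := .pp) (n1 := ndF2q0) (n2 := ndF0q2) (pc := pcF2) (cut := Cut.none) (xt := Ext.none) (P1 := 0) (W1 := 536870912) (P2 := 0) (W2 := 536870912) (P3 := 201326592) (W3 := 134217728)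
    rfl k0_mm_022

noncomputable def f_mm_101 : ℕ → ℕ → ℕ → ℕ → Bool := onCell 536870912 536870912 536870912 536870912 201326592 134217728
    (rowF 0 false false false .npn 1 0 1 (qsf 536870912 536870912 536870912 536870912 0) ndF2q1 ndF0q1 pcF0 Cut.none Ext.none)

def k0_mm_101 : ∃ t, chk3 f_mm_101 t 1 1 1 = true :=
  ⟨(b (l 3) (l 5)), by decide +kernel⟩

theorem c_mm_101 : CertF 536870912 536870912 536870912 536870912 201326592 134217728 false false false .npn 1 0 1
    ndF2q1 ndF0q1 pcF0 Cut.none Ext.none :=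
  certF0 (fam := false) (s1 := false) (s2 := false) (a := 1) (b := 0) (c := 1) (cn := .npn) (n1 := ndF2q1) (n2 := ndF0q1) (pc := pcF0) (cut := Cut.none) (xt := Ext.none) (P1 := 536870912) (W1 := 536870912) (P2 := 536870912) (W2 := 536870912) (P3 := 201326592) (W3 := 134217728)
    rfl k0_mm_101

noncomputable def f_mm_102 : ℕ → ℕ → ℕ → ℕ → Bool := onCell 536870912 536870912 0 536870912 201326592 134217728
    (rowF 0 false false false .npp 1 0 2 (qsf 536870912 536870912 0 536870912 0) ndF2q1 ndF0q2 pcF0 Cut.none Ext.none)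

def k0_mm_102 : ∃ t, chk3 f_mm_102 t 1 1 1 = true :=
  ⟨(l 5), by decide +kernel⟩

theorem c_mm_102 : CertF 536870912 536870912 0 536870912 201326592 134217728 false false false .npp 1 0 2
    ndF2q1 ndF0q2 pcF0 Cut.none Ext.none :=
  certF0 (fam := false) (s1 := false) (s2 := false) (a := 1) (b := 0) (c := 2) (cn := .npp) (n1 := ndF2q1) (n2 := ndF0q2) (pc := pcF0) (cut := Cut.none) (xt := Ext.none) (P1 := 536870912) (W1 := 536870912) (P2 := 0) (W2 := 536870912) (P3 := 201326592) (W3 := 134217728)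
    rfl k0_mm_102

noncomputable def f_mm_112 : ℕ → ℕ → ℕ → ℕ → Bool := onCell 536870912 536870912 0 536870912 201326592 134217728
    (rowF 0 false false false .dn 1 1 2 (qsf 536870912 536870912 0 536870912 1) ndF2q1 ndF0q2 pcF1 Cut.none Ext.none)

def k0_mm_112 : ∃ t, chk3 f_mm_112 t 1 1 1 = true :=
  ⟨(l 5), by decide +kernel⟩

theorem c_mm_112 : CertF 536870912 536870912 0 536870912 201326592 134217728 false false false .dn 1 1 2
    ndF2q1 ndF0q2 pcF1 Cut.none Ext.none :=
  certF0 (fam := false) (s1 := false) (s2 := false) (a := 1) (b := 1) (c := 2) (cn := .dn) (n1 := ndF2q1) (n2 := ndF0q2) (pc := pcF1) (cut := Cut.none) (xt := Ext.none) (P1 := 536870912) (W1 := 536870912) (P2 := 0) (W2 := 536870912) (P3 := 201326592) (W3 := 134217728)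
    rfl k0_mm_112

noncomputable def f_mm_202_a : ℕ → ℕ → ℕ → ℕ → Bool := onCell 0 536870912 0 536870912 201326592 134217728
    (rowF 0 false false false .pp 2 0 2 (qsf 0 536870912 0 536870912 0) ndF2q2a ndF0q2 pcF0 Cut.none Ext.none)

def k0_mm_202_a : ∃ t, chk3 f_mm_202_a t 1 1 1 = true :=
  ⟨(l 3), by decide +kernel⟩

theorem c_mm_202_a : CertF 0 536870912 0 536870912 201326592 134217728 false false false .pp 2 0 2
    ndF2q2a ndF0q2 pcF0 Cut.none Ext.none :=
  certF0 (fam := false) (s1 := false) (s2 := false) (a := 2) (b := 0) (c := 2) (cn := .pp) (n1 := ndF2q2a) (n2 := ndF0q2) (pc := pcF0) (cut := Cut.none) (xt := Ext.none) (P1 := 0) (W1 := 536870912) (P2 := 0) (W2 := 536870912) (P3 := 201326592) (W3 := 134217728)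
    rfl k0_mm_202_a

noncomputable def f_mm_202_b : ℕ → ℕ → ℕ → ℕ → Bool := onCell 1239849684 370763052 0 536870912 201326592 134217728
    (rowF 0 false false false .pp 2 0 2 (qsf 1239849684 370763052 0 536870912 0) ndF2q2b ndF0q2 pcF0 Cut.none Ext.none)

def k0_mm_202_b : ∃ t, chk3 f_mm_202_b t 1 1 1 = true :=
  ⟨(l 3), by decide +kernel⟩

theorem c_mm_202_b : CertF 1239849684 370763052 0 536870912 201326592 134217728 false false false .pp 2 0 2
    ndF2q2b ndF0q2 pcF0 Cut.none Ext.none :=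
  certF0 (fam := false) (s1 := false) (s2 := false) (a := 2) (b := 0) (c := 2) (cn := .pp) (n1 := ndF2q2b) (n2 := ndF0q2) (pc := pcF0) (cut := Cut.none) (xt := Ext.none) (P1 := 1239849684) (W1 := 370763052) (P2 := 0) (W2 := 536870912) (P3 := 201326592) (W3 := 134217728)
    rfl k0_mm_202_b

end Pool.Agent.Strip051.G.I3_16_5_16.Tab.C.FB20

namespace Pool.Agent.Strip051.G.I3_16_5_16.Tab.C.FB21

open Pool.Agent.Strip051.PB Pool.Agent.Strip051.PB.T
open Pool.Agent.Strip051.G.I3_16_5_16.Tab

noncomputable def f_pp_001 : ℕ → ℕ → ℕ → ℕ → Bool := onCell 0 536870912 536870912 536870912 201326592 134217728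
    (rowF 0 false true true .up 0 0 1 (qsf 0 536870912 536870912 536870912 0) ndF2q0 ndF1q1 pcF0 Cut.none Ext.none)

def k0_pp_001 : ∃ t, chk3 f_pp_001 t 1 1 1 = true :=
  ⟨(l 3), by decide +kernel⟩

theorem c_pp_001 : CertF 0 536870912 536870912 536870912 201326592 134217728 false true true .up 0 0 1
    ndF2q0 ndF1q1 pcF0 Cut.none Ext.none :=
  certF0 (fam := false) (s1 := true) (s2 := true) (a := 0) (b := 0) (c := 1) (cn := .up) (n1 := ndF2q0) (n2 := ndF1q1) (pc := pcF0) (cut := Cut.none) (xt := Ext.none) (P1 := 0) (W1 := 536870912) (P2 := 536870912) (W2 := 536870912) (P3 := 201326592) (W3 := 134217728)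
    rfl k0_pp_001

noncomputable def f_pp_011 : ℕ → ℕ → ℕ → ℕ → Bool := onCell 0 536870912 536870912 536870912 201326592 134217728
    (rowF 0 false true true .pnn 0 1 1 (qsf 0 536870912 536870912 536870912 1) ndF2q0 ndF1q1 pcF1 Cut.none Ext.none)

def k0_pp_011 : ∃ t, chk3 f_pp_011 t 1 1 1 = true :=
  ⟨(l 3), by decide +kernel⟩

theorem c_pp_011 : CertF 0 536870912 536870912 536870912 201326592 134217728 false true true .pnn 0 1 1
    ndF2q0 ndF1q1 pcF1 Cut.none Ext.none :=
  certF0 (fam := false) (s1 := true) (s2 := true) (a := 0) (b := 1) (c := 1) (cn := .pnn) (n1 := ndF2q0) (n2 := ndF1q1) (pc := pcF1) (cut := Cut.none) (xt := Ext.none) (P1 := 0) (W1 := 536870912) (P2 := 536870912) (W2 := 536870912) (P3 := 201326592) (W3 := 134217728)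
    rfl k0_pp_011

noncomputable def cut_pp_012_a : Cut := Cut.of [[⟨0, 0, 0, 67108864⟩, ⟨1, 1, 0, 67108864⟩, ⟨2, 1, 0, 67108864⟩]]

noncomputable def f_pp_012_a : ℕ → ℕ → ℕ → ℕ → Bool := onCell 536870912 536870912 0 536870912 201326592 134217728
    (rowF 2 false true true .pnp 0 1 2 (qsf 0 536870912 0 536870912 1) ndF2q0 ndF1q2a pcF1 cut_pp_012_a Ext.none)

def k0_pp_012_a : ∃ t, chk3 f_pp_012_a t 1 1 1 = true :=
  ⟨(a (a (b (b (l 2) (l 87611806439)) (b (a (l 2) (l 17359904)) (a (a (b (l 2) (l 3)) (b (c (l 17440712) (l 17312544)) (b (l 820507754807) (l 3)))) (b (c (l 17361920) (l 17248960)) (c (l 219749276903) (l 258403739159)))))) (b (a (l 17086840) (l 16995848)) (b (a (l 17196472) (l 17073048)) (c (a (b (l 17260824) (l 226728849335)) (b (l 17156816) (l 181631448855))) (b (a (l 17166416) (l 17082696)) (a (l 254645495911) (l 249276633015))))))) (a (b (a (l 16934344) (l 16960584)) (b (a (l 17038304) (l 16887536)) (a (c (l 169283224231) (b (l 17002864) (l 217064606407)))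 (b (l 17013304) (c (l 17156152) (b (l 16958288) (l 219211814695))))))) (b (a (b (l 16921080) (l 16892896)) (b (l 16846712) (a (l 16836152) (l 16795360)))) (b (a (b (l 16886496) (l 16892720)) (a (l 16896184) (b (l 16788592) (a (l 16803344) (l 16781144))))) (a (b (a (l 16895560) (l 16860728)) (a (l 220822260919) (b (l 16878176) (l 228338309431)))) (b (a (l 16905000) (a (l 16810512) (b (l 16786176) (a (l 16794600) (l 16782744))))) (b (a (l 16880328) (a (l 16814144) (l 6))) (a (a (l 16879376) (l 204178941191)) (l 6))))))))), by decide +kernel⟩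

theorem c_pp_012_a : CertF 0 536870912 0 536870912 201326592 134217728 false true true .pnp 0 1 2
    ndF2q0 ndF1q2a pcF1 cut_pp_012_a Ext.none :=
  certF2 (fam := false) (s1 := true) (s2 := true) (a := 0) (b := 1) (c := 2) (cn := .pnp) (n1 := ndF2q0) (n2 := ndF1q2a) (pc := pcF1) (cut := cut_pp_012_a) (xt := Ext.none) (P1 := 0) (W1 := 536870912) (P2 := 0) (W2 := 536870912) (P3 := 201326592) (W3 := 134217728)
    rfl (fun _ => rfl) k0_pp_012_a

noncomputable def cut_pp_012_b : Cut := Cut.of [[⟨0, 0, 0, 67108864⟩, ⟨1, 1, 0, 67108864⟩, ⟨2, 1, 0, 67108864⟩]]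

noncomputable def f_pp_012_b : ℕ → ℕ → ℕ → ℕ → Bool := onCell 536870912 536870912 1239849684 370763052 201326592 134217728
    (rowF 2 false true true .pnp 0 1 2 (qsf 0 536870912 1239849684 370763052 1) ndF2q0 ndF1q2b pcF1 cut_pp_012_b Ext.none)

def k0_pp_012_b : ∃ t, chk3 f_pp_012_b t 1 1 1 = true :=
  ⟨(a (a (l 2) (b (b (l 16919600) (l 16895120)) (l 2))) (a (b (b (l 17101672) (l 17003848)) (l 17195608)) (b (b (a (l 16885576) (a (l 16830664) (l 16792816))) (a (l 16994304) (l 16822160))) (a (l 17345312) (l 17408760))))), by decide +kernel⟩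

theorem c_pp_012_b : CertF 0 536870912 1239849684 370763052 201326592 134217728 false true true .pnp 0 1 2
    ndF2q0 ndF1q2b pcF1 cut_pp_012_b Ext.none :=
  certF2 (fam := false) (s1 := true) (s2 := true) (a := 0) (b := 1) (c := 2) (cn := .pnp) (n1 := ndF2q0) (n2 := ndF1q2b) (pc := pcF1) (cut := cut_pp_012_b) (xt := Ext.none) (P1 := 0) (W1 := 536870912) (P2 := 1239849684) (W2 := 370763052) (P3 := 201326592) (W3 := 134217728)
    rfl (fun _ => rfl) k0_pp_012_b

noncomputable def cut_pp_022_a : Cut := Cut.of [[⟨0, 0, 0, 67108864⟩, ⟨1, 1, 0, 67108864⟩, ⟨2, 1, 0, 67108864⟩]]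

noncomputable def f_pp_022_a : ℕ → ℕ → ℕ → ℕ → Bool := onCell 0 536870912 0 536870912 201326592 134217728
    (rowF 0 false true true .pp 0 2 2 (qsf 0 536870912 0 536870912 2) ndF2q0 ndF1q2a pcF2 cut_pp_022_a Ext.none)

def k0_pp_022_a : ∃ t, chk3 f_pp_022_a t 2 2 1 = true :=
  ⟨(a (b (a (a (a (b (a (a (c (b (a (c (l 16568280) (l 16563136)) (l 16480200)) (l 16529296)) (b (a (l 16556296) (l 16471504)) (l 16509400))) (c (l 16539216) (l 16531184))) (b (l 16512968) (l 16520104))) (a (c (b (a (l 16517856) (l 16473600)) (c (l 16541288) (l 16536080))) (b (l 16538480) (l 16534568))) (c (a (l 16577488) (l 16555016)) (a (l 16565944) (l 16559528))))) (b (a (l 16572152) (l 16570352)) (a (c (l 16621752) (l 16607256)) (a (l 16599216) (l 16601080))))) (b (l 16473392) (l 16494072))) (l 16530296)) (a (a (b (a (b (a (b (c (l 16520112) (l 16503520)) (c (l 16524264) (l 16511480))) (c (l 16551384) (l 16537272))) (a (a (c (a (l 16531504) (l 16534744)) (l 16561456)) (c (l 16538864) (l 16524864)))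 (c (l 16587608) (l 16573000)))) (a (b (c (l 16537328) (l 16522608)) (b (l 16510784) (l 16517480))) (l 16510664))) (a (b (a (c (a (b (l 16523312) (l 16531256)) (l 16584264)) (a (l 16554264) (l 16558944))) (c (l 16619488) (l 16605024))) (b (a (c (a (l 16559072) (l 16520648)) (l 16586624)) (l 16528736)) (c (l 16548312) (l 16534280)))) (c (l 16530560) (l 16537632)))) (a (l 16603864) (l 16601584))) (a (l 16574264) (l 16575680)))) (b (l 16641960) (a (l 16635416) (l 1)))), by decide +kernel⟩

def k1_pp_022_a : ∃ t, chk3 f_pp_022_a t 2 3 1 = true :=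
  ⟨(a (a (b (a (b (a (c (a (c (b (l 16572808) (a (l 16600400) (l 16581056))) (l 16605208)) (l 16610168)) (a (b (l 16544320) (l 16594184)) (l 16583504))) (c (l 16595448) (l 16568416))) (a (a (b (c (c (a (l 16630080) (l 16610920)) (l 16628072)) (l 16624144)) (c (c (b (l 16632944) (l 16648712)) (l 16659304)) (l 16655560))) (b (l 16640984) (c (l 16643816) (l 16638744)))) (a (l 16672240) (l 16656184)))) (b (l 16670208) (a (l 16664456) (l 16656152)))) (b (b (a (a (a (a (b (c (c (l 16663696) (l 16661456)) (l 16658056)) (c (c (l 16679736) (l 16677768)) (l 16674672))) (c (l 16693992) (l 16668696))) (c (l 16676600) (l 16672192))) (c (l 16684576) (l 16679776))) (a (l 16693888) (l 16707400))) (a (l 6) (a (l 6) (l 16741936)))) (a (l 6) (a (l 6) (l 1))))) (b (b (a (l 16611864) (l 16636912)) (a (l 16719584) (l 16752920))) (b (a (b (l 16730792) (l 1)) (l 1)) (l 1)))) (b (l 1) (l 1))), by decide +kernel⟩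

def k2_pp_022_a : ∃ t, chk3 f_pp_022_a t 3 1 1 = true :=
  ⟨(l 1), by decide +kernel⟩

theorem s3_pp_022_a : ∃ t, chk3 f_pp_022_a t 2 1 1 = true := ex3_b k0_pp_022_a k1_pp_022_a

theorem s4_pp_022_a : ∃ t, chk3 f_pp_022_a t 1 1 1 = true := ex3_a s3_pp_022_a k2_pp_022_a

theorem c_pp_022_a : CertF 0 536870912 0 536870912 201326592 134217728 false true true .pp 0 2 2
    ndF2q0 ndF1q2a pcF2 cut_pp_022_a Ext.none :=
  certF0 (fam := false) (s1 := true) (s2 := true) (a := 0) (b := 2) (c := 2) (cn := .pp) (n1 := ndF2q0) (n2 := ndF1q2a) (pc := pcF2) (cut := cut_pp_022_a) (xt := Ext.none) (P1 := 0) (W1 := 536870912) (P2 := 0) (W2 := 536870912) (P3 := 201326592) (W3 := 134217728)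
    rfl s4_pp_022_a

noncomputable def cut_pp_022_b : Cut := Cut.of [[⟨0, 0, 0, 67108864⟩, ⟨1, 1, 0, 67108864⟩, ⟨2, 1, 0, 67108864⟩]]

noncomputable def f_pp_022_b : ℕ → ℕ → ℕ → ℕ → Bool := onCell 0 536870912 1073741824 536870912 201326592 134217728
    (rowF 1 false true true .pp 0 2 2 (qsf 0 536870912 1239849684 370763052 2) ndF2q0 ndF1q2b pcF2 cut_pp_022_b Ext.none)

def k0_pp_022_b : ∃ t, chk3 f_pp_022_b t 2 1 1 = true :=
  ⟨(b (a (b (a (b (l 1) (b (a (l 1) (l 434361733031)) (b (l 490733112807) (a (l 428456358247) (l 16596960))))) (b (b (l 418255667719) (l 382285269735)) (b (l 16544824) (b (l 16425520) (l 16504968))))) (b (b (b (a (a (c (l 443488599607) (l 431677439639)) (l 16506064)) (l 16436384)) (a (a (b (c (l 16527352) (l 16500552)) (c (a (b (l 16493880) (b (l 16489256) (l 16507488))) (l 16534672)) (a (b (l 16444344) (l 16552336)) (l 16528056)))) (b (l 16418680) (l 16527528))) (b (l 16350104) (l 16459880)))) (a (a (c (a (c (l 16527136) (l 16520120)) (l 16440856))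 (a (l 16534464) (l 16408872))) (l 16459072)) (l 16466792))) (a (a (a (b (c (a (l 16457624) (l 16394200)) (l 16448824)) (c (a (l 16529328) (l 16768184)) (l 16374536))) (b (c (l 16474240) (l 16323320)) (l 16373648))) (b (l 16369576) (l 16658976))) (b (l 16803968) (l 17071184))))) (b (b (a (l 16539664) (l 16426480)) (b (l 16534480) (b (l 16769280) (l 16906376)))) (b (b (b (l 17030048) (a (l 16890200) (l 17341552))) (l 17288576)) (a (l 17372624) (l 17655304))))) (b (a (b (a (a (c (b (b (l 16970880) (l 17223096)) (l 17262608)) (b (l 16326048) (a (l 16529632) (l 16655504)))) (c (l 17487944) (l 16696080))) (c (l 17728608) (l 17022536))) (a (a (c (b (l 17605640) (l 17755144)) (b (a (l 16826328) (l 16918368)) (l 17006608))) (c (l 17803616) (l 17141296))) (c (l 17961808) (l 17345576)))) (b (a (l 17653624) (l 17839728)) (l 17902152))) (a (b (a (c (b (l 17912104) (l 17998432)) (b (a (l 17248592) (l 17359184)) (l 17420240))) (c (l 18116416) (l 17563504))) (a (c (l 18100648) (l 17562896))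 (l 17951784))) (b (l 17989352) (l 2))))), by decide +kernel⟩

def k1_pp_022_b : ∃ t, chk3 f_pp_022_b t 3 1 1 = true :=
  ⟨(b (a (b (b (l 17251280) (b (l 17482120) (l 17606232))) (b (a (l 17658128) (l 17840616)) (l 17904488))) (b (b (l 17768120) (l 17911200)) (l 18038424))) (b (a (l 18025712) (l 2)) (l 2))), by decide +kernel⟩

theorem s2_pp_022_b : ∃ t, chk3 f_pp_022_b t 1 1 1 = true := ex3_a k0_pp_022_b k1_pp_022_b

theorem c_pp_022_b : CertF 0 536870912 1239849684 370763052 201326592 134217728 false true true .pp 0 2 2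
    ndF2q0 ndF1q2b pcF2 cut_pp_022_b Ext.none :=
  certF1 (fam := false) (s1 := true) (s2 := true) (a := 0) (b := 2) (c := 2) (cn := .pp) (n1 := ndF2q0) (n2 := ndF1q2b) (pc := pcF2) (cut := cut_pp_022_b) (xt := Ext.none) (P1 := 0) (W1 := 536870912) (P2 := 1239849684) (W2 := 370763052) (P3 := 201326592) (W3 := 134217728)
    rfl (fun _ => rfl) s2_pp_022_b

noncomputable def f_pp_023 : ℕ → ℕ → ℕ → ℕ → Bool := onCell 1073741824 536870912 1610612736 536870912 201326592 134217728
    (rowF 2 false true true .up 0 2 3 (qsf 0 536870912 1610612736 536870912 2) ndF2q0 ndF1q3 pcF2 Cut.none Ext.none)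

def k0_pp_023 : ∃ t, chk3 f_pp_023 t 1 1 1 = true :=
  ⟨(a (b (a (l 18061432) (l 18036392)) (a (l 2) (l 18098184))) (a (b (b (l 17946920) (l 18053912)) (l 18009984)) (b (b (a (l 17939712) (b (l 17888824) (l 17967552))) (l 18010032)) (l 17888928)))), by decide +kernel⟩

theorem c_pp_023 : CertF 0 536870912 1610612736 536870912 201326592 134217728 false true true .up 0 2 3
    ndF2q0 ndF1q3 pcF2 Cut.none Ext.none :=
  certF2 (fam := false) (s1 := true) (s2 := true) (a := 0) (b := 2) (c := 3) (cn := .up) (n1 := ndF2q0) (n2 := ndF1q3) (pc := pcF2) (cut := Cut.none) (xt := Ext.none) (P1 := 0) (W1 := 536870912) (P2 := 1610612736) (W2 := 536870912) (P3 := 201326592) (W3 := 134217728)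
    rfl (fun _ => rfl) k0_pp_023

noncomputable def f_pp_033 : ℕ → ℕ → ℕ → ℕ → Bool := onCell 0 536870912 1610612736 536870912 201326592 134217728
    (rowF 1 false true true .pnn 0 3 3 (qsf 0 536870912 1610612736 536870912 3) ndF2q0 ndF1q3 pcF3 Cut.none Ext.none)

def k0_pp_033 : ∃ t, chk3 f_pp_033 t 1 1 1 = true :=
  ⟨(a (a (b (b (a (b (c (l 17950672) (a (l 17683536) (l 17689864))) (l 18020696)) (b (l 17853328) (l 17874416))) (b (a (l 17855648) (l 17852088)) (c (l 17878784) (l 17663912)))) (b (l 4) (l 4))) (b (b (b (l 17892600) (c (l 18010040) (l 17715672))) (b (l 17824328) (l 4))) (b (l 4) (a (b (l 4) (l 2)) (l 2))))) (b (a (b (b (l 17867192) (l 4)) (l 4)) (b (l 4) (a (b (l 4) (l 2)) (l 2)))) (a (b (a (b (l 4) (l 2)) (l 2)) (l 2)) (l 2)))), by decide +kernel⟩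

theorem c_pp_033 : CertF 0 536870912 1610612736 536870912 201326592 134217728 false true true .pnn 0 3 3
    ndF2q0 ndF1q3 pcF3 Cut.none Ext.none :=
  certF1 (fam := false) (s1 := true) (s2 := true) (a := 0) (b := 3) (c := 3) (cn := .pnn) (n1 := ndF2q0) (n2 := ndF1q3) (pc := pcF3) (cut := Cut.none) (xt := Ext.none) (P1 := 0) (W1 := 536870912) (P2 := 1610612736) (W2 := 536870912) (P3 := 201326592) (W3 := 134217728)
    rfl (fun _ => rfl) k0_pp_033

noncomputable def f_pp_101 : ℕ → ℕ → ℕ → ℕ → Bool := onCell 536870912 536870912 536870912 536870912 201326592 134217728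
    (rowF 0 false true true .npn 1 0 1 (qsf 536870912 536870912 536870912 536870912 0) ndF2q1 ndF1q1 pcF0 Cut.none Ext.none)

def k0_pp_101 : ∃ t, chk3 f_pp_101 t 1 1 1 = true :=
  ⟨(l 3), by decide +kernel⟩

theorem c_pp_101 : CertF 536870912 536870912 536870912 536870912 201326592 134217728 false true true .npn 1 0 1
    ndF2q1 ndF1q1 pcF0 Cut.none Ext.none :=
  certF0 (fam := false) (s1 := true) (s2 := true) (a := 1) (b := 0) (c := 1) (cn := .npn) (n1 := ndF2q1) (n2 := ndF1q1) (pc := pcF0) (cut := Cut.none) (xt := Ext.none) (P1 := 536870912) (W1 := 536870912) (P2 := 536870912) (W2 := 536870912) (P3 := 201326592) (W3 := 134217728)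
    rfl k0_pp_101

noncomputable def f_pp_102_a : ℕ → ℕ → ℕ → ℕ → Bool := onCell 0 536870912 0 536870912 201326592 134217728
    (rowF 2 false true true .npp 1 0 2 (qsf 536870912 536870912 0 536870912 0) ndF2q1 ndF1q2a pcF0 Cut.none Ext.none)

def k0_pp_102_a : ∃ t, chk3 f_pp_102_a t 2 2 1 = true :=
  ⟨(a (a (l 2) (b (l 2) (a (l 2) (b (l 2) (a (l 2) (l 16490272)))))) (a (b (a (b (l 16405416) (l 16407800)) (l 16380800)) (b (a (l 16409008) (l 16389112)) (a (b (l 16420904) (l 16465264)) (l 16444128)))) (b (l 16429976) (b (l 16381584) (b (l 16402952) (l 16498720)))))), by decide +kernel⟩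

def k1_pp_102_a : ∃ t, chk3 f_pp_102_a t 2 3 1 = true :=
  ⟨(a (b (a (l 2) (b (a (l 2) (b (c (l 16497112) (l 16481768)) (c (a (b (l 16496672) (a (a (l 220821219767) (c (l 16528648) (l 16530216))) (c (l 16529104) (l 16509720)))) (c (l 16534624) (l 16541888))) (a (b (l 16489904) (a (b (l 16505136) (l 16536808)) (l 16511024))) (b (l 16491136) (l 16511984)))))) (a (l 3) (b (b (c (a (b (a (c (l 154786112359) (l 153175503975)) (l 127405709719)) (l 3)) (c (l 133848184871) (l 131163835255))) (a (a (b (l 151028030647) (l 3)) (l 122037031975)) (a (l 126332003207) (l 16555112)))) (l 3)) (l 3))))) (l 3)) (b (a (b (a (b (c (l 16458824) (l 16464184)) (c (a (l 16542656) (l 16523336)) (b (l 16493720) (l 16556400)))) (b (l 16529080) (c (l 16525584) (l 16507840)))) (b (a (b (c (a (c (l 16555232) (l 16535464)) (l 16557408)) (a (l 134921953111) (l 16537136))) (c (a (a (l 3) (l 161228608391)) (c (l 138680076775) (l 137606336055))) (a (l 161228605271) (l 158544264935)))) (b (c (a (l 16537584)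 (l 16538320)) (l 16539584)) (c (c (l 147806897383) (l 145659417591)) (a (l 162302365415) (l 16562440))))) (a (l 3) (a (l 3) (b (c (l 168207983495) (l 174650449399)) (l 3)))))) (b (a (c (l 16528320) (l 16513136)) (c (l 16622064) (l 16494464))) (b (a (a (c (l 16571096) (l 16552416)) (c (l 16549488) (l 16552968))) (c (l 16652968) (l 16552816))) (a (b (c (a (l 148880711575) (l 152638801655)) (a (l 145659478663) (l 16585832))) (l 3)) (a (c (l 152638843191) (l 150491345799)) (c (l 158007534295) (l 154786310151))))))) (l 3))), by decide +kernel⟩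

def k2_pp_102_a : ∃ t, chk3 f_pp_102_a t 3 1 1 = true :=
  ⟨(a (b (b (a (l 16679616) (l 17058696)) (a (b (l 16683544) (l 16694272)) (b (l 17060208) (l 17057760)))) (b (a (b (a (l 16577944) (l 16806464)) (b (a (c (l 16929096) (l 16549904)) (l 16592272)) (c (a (a (l 162839412391) (l 16840528)) (b (l 17105784) (l 17105552))) (a (l 159618155463) (l 16619632))))) (a (b (l 16993664) (c (l 17177424) (b (l 16776920) (l 16795640)))) (b (l 17105696) (c (l 17295120) (l 16913640))))) (b (b (a (b (a (c (l 282025344759) (l 182703574647)) (c (l 162302941895) (l 158544468551))) (l 3)) (c (a (l 167672015655) (l 177335875303)) (a (l 164987012551) (l 170892790631)))) (l 3)) (l 3)))) (b (b (a (l 17218016) (l 17276616)) (a (l 17220320) (l 17287952))) (b (b (a (l 17209768) (l 17282088)) (a (c (l 17365456) (a (l 17003456) (l 17067448))) (c (l 17417616) (l 17133552)))) (b (a (a (b (c (l 17330256) (l 178946023239)) (c (l 197737356951) (l 195589265415))) (b (c (l 17367048) (l 17066408)) (c (l 181631083495)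 (l 174651404119)))) (a (c (l 197200541591) (a (l 185925654983) (l 189683787127))) (c (l 204716782711) (a (l 193978788279) (l 197736910743))))) (l 3))))), by decide +kernel⟩

theorem s3_pp_102_a : ∃ t, chk3 f_pp_102_a t 2 1 1 = true := ex3_b k0_pp_102_a k1_pp_102_a

theorem s4_pp_102_a : ∃ t, chk3 f_pp_102_a t 1 1 1 = true := ex3_a s3_pp_102_a k2_pp_102_a

theorem c_pp_102_a : CertF 536870912 536870912 0 536870912 201326592 134217728 false true true .npp 1 0 2
    ndF2q1 ndF1q2a pcF0 Cut.none Ext.none :=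
  certF2 (fam := false) (s1 := true) (s2 := true) (a := 1) (b := 0) (c := 2) (cn := .npp) (n1 := ndF2q1) (n2 := ndF1q2a) (pc := pcF0) (cut := Cut.none) (xt := Ext.none) (P1 := 536870912) (W1 := 536870912) (P2 := 0) (W2 := 536870912) (P3 := 201326592) (W3 := 134217728)
    rfl (fun _ => rfl) s4_pp_102_a

noncomputable def f_pp_102_b : ℕ → ℕ → ℕ → ℕ → Bool := onCell 536870912 536870912 1239849684 370763052 201326592 134217728
    (rowF 0 false true true .npp 1 0 2 (qsf 536870912 536870912 1239849684 370763052 0) ndF2q1 ndF1q2b pcF0 Cut.none Ext.none)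

def k0_pp_102_b : ∃ t, chk3 f_pp_102_b t 1 1 1 = true :=
  ⟨(a (b (a (l 2) (b (a (l 17344424) (l 17348832)) (l 17486880))) (l 2)) (b (a (b (a (l 17303280) (l 17154128)) (l 17547456)) (b (a (c (l 17190544) (l 16366680)) (b (l 16371248) (l 16267776))) (a (l 17425696) (a (l 17220704) (l 16976088))))) (a (l 18016176) (a (l 17902376) (b (l 17738656) (l 18054568)))))), by decide +kernel⟩

theorem c_pp_102_b : CertF 536870912 536870912 1239849684 370763052 201326592 134217728 false true true .npp 1 0 2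
    ndF2q1 ndF1q2b pcF0 Cut.none Ext.none :=
  certF0 (fam := false) (s1 := true) (s2 := true) (a := 1) (b := 0) (c := 2) (cn := .npp) (n1 := ndF2q1) (n2 := ndF1q2b) (pc := pcF0) (cut := Cut.none) (xt := Ext.none) (P1 := 536870912) (W1 := 536870912) (P2 := 1239849684) (W2 := 370763052) (P3 := 201326592) (W3 := 134217728)
    rfl k0_pp_102_b

noncomputable def f_pp_112_a : ℕ → ℕ → ℕ → ℕ → Bool := onCell 536870912 536870912 0 536870912 201326592 134217728
    (rowF 2 false true true .dn 1 1 2 (qsf 536870912 536870912 0 536870912 1) ndF2q1 ndF1q2a pcF1 Cut.none Ext.none)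

def k0_pp_112_a : ∃ t, chk3 f_pp_112_a t 1 1 1 = true :=
  ⟨(a (a (b (b (l 17438920) (a (l 17389056) (l 17421376))) (b (a (b (l 17356008) (c (l 17486040) (l 17191632))) (b (l 17401464) (l 17387648))) (b (a (c (a (l 174115205847) (l 17475512)) (b (l 17187576) (a (l 166061554871) (l 17204320)))) (c (l 453154090247) (l 430605135031))) (a (a (l 3) (a (l 3) (l 1))) (l 1))))) (b (b (l 17461384) (l 668976588007)) (b (l 1) (l 1)))) (l 1)), by decide +kernel⟩

theorem c_pp_112_a : CertF 536870912 536870912 0 536870912 201326592 134217728 false true true .dn 1 1 2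
    ndF2q1 ndF1q2a pcF1 Cut.none Ext.none :=
  certF2 (fam := false) (s1 := true) (s2 := true) (a := 1) (b := 1) (c := 2) (cn := .dn) (n1 := ndF2q1) (n2 := ndF1q2a) (pc := pcF1) (cut := Cut.none) (xt := Ext.none) (P1 := 536870912) (W1 := 536870912) (P2 := 0) (W2 := 536870912) (P3 := 201326592) (W3 := 134217728)
    rfl (fun _ => rfl) k0_pp_112_a

noncomputable def f_pp_112_b : ℕ → ℕ → ℕ → ℕ → Bool := onCell 536870912 536870912 1239849684 370763052 201326592 134217728
    (rowF 2 false true true .dn 1 1 2 (qsf 536870912 536870912 1239849684 370763052 1) ndF2q1 ndF1q2b pcF1 Cut.none Ext.none)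

def k0_pp_112_b : ∃ t, chk3 f_pp_112_b t 1 1 1 = true :=
  ⟨(a (a (b (b (l 17540624) (l 17704208)) (l 17924976)) (b (b (l 17510056) (l 17611520)) (l 17758728))) (a (b (l 491809370503) (l 17660520)) (b (l 1) (l 17673944)))), by decide +kernel⟩

theorem c_pp_112_b : CertF 536870912 536870912 1239849684 370763052 201326592 134217728 false true true .dn 1 1 2
    ndF2q1 ndF1q2b pcF1 Cut.none Ext.none :=
  certF2 (fam := false) (s1 := true) (s2 := true) (a := 1) (b := 1) (c := 2) (cn := .dn) (n1 := ndF2q1) (n2 := ndF1q2b) (pc := pcF1) (cut := Cut.none) (xt := Ext.none) (P1 := 536870912) (W1 := 536870912) (P2 := 1239849684) (W2 := 370763052) (P3 := 201326592) (W3 := 134217728)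
    rfl (fun _ => rfl) k0_pp_112_b

noncomputable def f_pp_113 : ℕ → ℕ → ℕ → ℕ → Bool := onCell 536870912 536870912 536870912 536870912 201326592 134217728
    (rowF 1 false true true .nn 1 1 3 (qsf 536870912 536870912 1610612736 536870912 1) ndF2q1 ndF1q3 pcF1 Cut.none Ext.none)

def k0_pp_113 : ∃ t, chk3 f_pp_113 t 1 1 1 = true :=
  ⟨(a (b (b (l 1) (l 453154823831)) (b (l 17631904) (l 17591448))) (b (b (l 282966843175) (l 17836464)) (b (l 17624640) (b (l 17388392) (l 17175976))))), by decide +kernel⟩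

theorem c_pp_113 : CertF 536870912 536870912 1610612736 536870912 201326592 134217728 false true true .nn 1 1 3
    ndF2q1 ndF1q3 pcF1 Cut.none Ext.none :=
  certF1 (fam := false) (s1 := true) (s2 := true) (a := 1) (b := 1) (c := 3) (cn := .nn) (n1 := ndF2q1) (n2 := ndF1q3) (pc := pcF1) (cut := Cut.none) (xt := Ext.none) (P1 := 536870912) (W1 := 536870912) (P2 := 1610612736) (W2 := 536870912) (P3 := 201326592) (W3 := 134217728)
    rfl (fun _ => rfl) k0_pp_113

end Pool.Agent.Strip051.G.I3_16_5_16.Tab.C.FB21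

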