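import Pool.Agent.Strip051.G.I3_16_5_16.AsmH
import Pool.Agent.Strip051.G.I3_16_5_16.TrF11
import Pool.Agent.Strip051.G.I3_16_5_16.TrF12
import Pool.Agent.Strip051.G.I3_16_5_16.TrF13
import Pool.Agent.Strip051.G.I3_16_5_16.Crn12F
import Pool.Agent.Strip051.G.I3_16_5_16.CrnF_0
import Pool.Agent.Strip051.G.I3_16_5_16.CrnF_1

/-! # Rows from certificates (generated) -/

set_option linter.all false
set_option maxRecDepth 100000

namespace Pool.Agent.Strip051.G.I3_16_5_16.Tab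

open Pool.Agent.Strip051.PB Pool.Agent.StripNear Pool.Agent.Strip051.LC

theorem FB12_pp_001 {κ x : ℝ} (hκ : κ * h0 = ken x) (hx : ((201326592 : ℕ) : ℝ) / S ≤ x) (hx' : x ≤ (((201326592 : ℕ) : ℝ) + (134217728 : ℕ)) / S) :
    TriB PP.cur (farS κ (h0 * x) (tbl tKF x) (tbl tL x)) 0 0 1 1 2 1 1 :=
  (sideF hx hx').farB (Or.inl rfl) (Or.inl rfl) fun y y' F =>
    farB_cert (s1 := true) (s2 := true) rfl hκ covF10 covF21 hx hx'
        Pool.Agent.Strip051.G.I3_16_5_16.Tab.C.FB12.c_pp_001 noCut_B noExt_B F trivial trivial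

theorem FB12_pp_011 {κ x : ℝ} (hκ : κ * h0 = ken x) (hx : ((201326592 : ℕ) : ℝ) / S ≤ x) (hx' : x ≤ (((201326592 : ℕ) : ℝ) + (134217728 : ℕ)) / S) :
    TriB PP.cur (farS κ (h0 * x) (tbl tKF x) (tbl tL x)) 0 1 1 1 2 1 1 :=
  (sideF hx hx').farB (Or.inl rfl) (Or.inl rfl) fun y y' F =>
    farB_cert (s1 := true) (s2 := true) rfl hκ covF10 covF21 hx hx'
        Pool.Agent.Strip051.G.I3_16_5_16.Tab.C.FB12.c_pp_011 noCut_B noExt_B F trivial trivial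

theorem FB12_pp_012 {κ x : ℝ} (hκ : κ * h0 = ken x) (hx : ((201326592 : ℕ) : ℝ) / S ≤ x) (hx' : x ≤ (((201326592 : ℕ) : ℝ) + (134217728 : ℕ)) / S) :
    TriB PP.cur (farS κ (h0 * x) (tbl tKF x) (tbl tL x)) 0 1 2 1 2 1 1 :=
  (sideF hx hx').farB (Or.inl rfl) (Or.inl rfl) fun y y' F =>
    (lt_or_ge (h0 * (y + y')) 1).elim
      (fun g => farB_cert (s1 := true) (s2 := true) rfl hκ covF10 covF22a hx hx'
        Pool.Agent.Strip051.G.I3_16_5_16.Tab.C.FB12.c_pp_012_a (cutB_cons (Pool.Agent.Strip051.G.I3_16_5_16.Tab.altF_B012E_12 hκ hx hx') cutB_nil) noExt_B F trivial g)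
      (fun g => farB_cert (s1 := true) (s2 := true) rfl hκ covF10 covF22b hx hx'
        Pool.Agent.Strip051.G.I3_16_5_16.Tab.C.FB12.c_pp_012_b (cutB_cons (Pool.Agent.Strip051.G.I3_16_5_16.Tab.altF_B012E_12 hκ hx hx') cutB_nil) noExt_B F trivial g)

theorem FB12_pp_022 {κ x : ℝ} (hκ : κ * h0 = ken x) (hx : ((201326592 : ℕ) : ℝ) / S ≤ x) (hx' : x ≤ (((201326592 : ℕ) : ℝ) + (134217728 : ℕ)) / S) :
    TriB PP.cur (farS κ (h0 * x) (tbl tKF x) (tbl tL x)) 0 2 2 1 2 1 1 :=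
  (sideF hx hx').farB (Or.inl rfl) (Or.inl rfl) fun y y' F =>
    (lt_or_ge (h0 * (y + y')) 1).elim
      (fun g => farB_cert (s1 := true) (s2 := true) rfl hκ covF10 covF22a hx hx'
        Pool.Agent.Strip051.G.I3_16_5_16.Tab.C.FB12.c_pp_022_a (cutB_cons (Pool.Agent.Strip051.G.I3_16_5_16.Tab.altF_B022E_12 hκ hx hx') cutB_nil) noExt_B F trivial g)
      (fun g => farB_cert (s1 := true) (s2 := true) rfl hκ covF10 covF22b hx hx'
        Pool.Agent.Strip051.G.I3_16_5_16.Tab.C.FB12.c_pp_022_b (cutB_cons (Pool.Agent.Strip051.G.I3_16_5_16.Tab.altF_B022E_12 hκ hx hx') cutB_nil) noExt_B F trivial g)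

theorem FB12_pp_023 {κ x : ℝ} (hκ : κ * h0 = ken x) (hx : ((201326592 : ℕ) : ℝ) / S ≤ x) (hx' : x ≤ (((201326592 : ℕ) : ℝ) + (134217728 : ℕ)) / S) :
    TriB PP.cur (farS κ (h0 * x) (tbl tKF x) (tbl tL x)) 0 2 3 1 2 1 1 :=
  (sideF hx hx').farB (Or.inl rfl) (Or.inl rfl) fun y y' F =>
    farB_cert (s1 := true) (s2 := true) rfl hκ covF10 covF23 hx hx'
        Pool.Agent.Strip051.G.I3_16_5_16.Tab.C.FB12.c_pp_023 noCut_B noExt_B F trivial trivial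

theorem FB12_pp_033 {κ x : ℝ} (hκ : κ * h0 = ken x) (hx : ((201326592 : ℕ) : ℝ) / S ≤ x) (hx' : x ≤ (((201326592 : ℕ) : ℝ) + (134217728 : ℕ)) / S) :
    TriB PP.cur (farS κ (h0 * x) (tbl tKF x) (tbl tL x)) 0 3 3 1 2 1 1 :=
  (sideF hx hx').farB (Or.inl rfl) (Or.inl rfl) fun y y' F =>
    farB_cert (s1 := true) (s2 := true) rfl hκ covF10 covF23 hx hx'
        Pool.Agent.Strip051.G.I3_16_5_16.Tab.C.FB12.c_pp_033 noCut_B noExt_B F trivial trivial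

theorem FB12_pp_101 {κ x : ℝ} (hκ : κ * h0 = ken x) (hx : ((201326592 : ℕ) : ℝ) / S ≤ x) (hx' : x ≤ (((201326592 : ℕ) : ℝ) + (134217728 : ℕ)) / S) :
    TriB PP.cur (farS κ (h0 * x) (tbl tKF x) (tbl tL x)) 1 0 1 1 2 1 1 :=
  (sideF hx hx').farB (Or.inl rfl) (Or.inl rfl) fun y y' F =>
    farB_cert (s1 := true) (s2 := true) rfl hκ covF11 covF21 hx hx'
        Pool.Agent.Strip051.G.I3_16_5_16.Tab.C.FB12.c_pp_101 noCut_B noExt_B F trivial trivial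

theorem FB12_pp_102 {κ x : ℝ} (hκ : κ * h0 = ken x) (hx : ((201326592 : ℕ) : ℝ) / S ≤ x) (hx' : x ≤ (((201326592 : ℕ) : ℝ) + (134217728 : ℕ)) / S) :
    TriB PP.cur (farS κ (h0 * x) (tbl tKF x) (tbl tL x)) 1 0 2 1 2 1 1 :=
  (sideF hx hx').farB (Or.inl rfl) (Or.inl rfl) fun y y' F =>
    (lt_or_ge (h0 * (y + y')) 1).elim
      (fun g => farB_cert (s1 := true) (s2 := true) rfl hκ covF11 covF22a hx hx'
        Pool.Agent.Strip051.G.I3_16_5_16.Tab.C.FB12.c_pp_102_a noCut_B noExt_B F trivial g)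
      (fun g => farB_cert (s1 := true) (s2 := true) rfl hκ covF11 covF22b hx hx'
        Pool.Agent.Strip051.G.I3_16_5_16.Tab.C.FB12.c_pp_102_b noCut_B noExt_B F trivial g)

theorem FB12_pp_112 {κ x : ℝ} (hκ : κ * h0 = ken x) (hx : ((201326592 : ℕ) : ℝ) / S ≤ x) (hx' : x ≤ (((201326592 : ℕ) : ℝ) + (134217728 : ℕ)) / S) :
    TriB PP.cur (farS κ (h0 * x) (tbl tKF x) (tbl tL x)) 1 1 2 1 2 1 1 :=
  (sideF hx hx').farB (Or.inl rfl) (Or.inl rfl) fun y y' F =>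
    (lt_or_ge (h0 * (y + y')) 1).elim
      (fun g => farB_cert (s1 := true) (s2 := true) rfl hκ covF11 covF22a hx hx'
        Pool.Agent.Strip051.G.I3_16_5_16.Tab.C.FB12.c_pp_112_a noCut_B noExt_B F trivial g)
      (fun g => farB_cert (s1 := true) (s2 := true) rfl hκ covF11 covF22b hx hx'
        Pool.Agent.Strip051.G.I3_16_5_16.Tab.C.FB12.c_pp_112_b noCut_B noExt_B F trivial g)

theorem FB12_pp_113 {κ x : ℝ} (hκ : κ * h0 = ken x) (hx : ((201326592 : ℕ) : ℝ) / S ≤ x) (hx' : x ≤ (((201326592 : ℕ) : ℝ) + (134217728 : ℕ)) / S) :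
    TriB PP.cur (farS κ (h0 * x) (tbl tKF x) (tbl tL x)) 1 1 3 1 2 1 1 :=
  (sideF hx hx').farB (Or.inl rfl) (Or.inl rfl) fun y y' F =>
    farB_cert (s1 := true) (s2 := true) rfl hκ covF11 covF23 hx hx'
        Pool.Agent.Strip051.G.I3_16_5_16.Tab.C.FB12.c_pp_113 noCut_B noExt_B F trivial trivial

theorem FB12_pp_123 {κ x : ℝ} (hκ : κ * h0 = ken x) (hx : ((201326592 : ℕ) : ℝ) / S ≤ x) (hx' : x ≤ (((201326592 : ℕ) : ℝ) + (134217728 : ℕ)) / S) :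
    TriB PP.cur (farS κ (h0 * x) (tbl tKF x) (tbl tL x)) 1 2 3 1 2 1 1 :=
  (sideF hx hx').farB (Or.inl rfl) (Or.inl rfl) fun y y' F =>
    farB_cert (s1 := true) (s2 := true) rfl hκ covF11 covF23 hx hx'
        Pool.Agent.Strip051.G.I3_16_5_16.Tab.C.FB12.c_pp_123 noCut_B noExt_B F trivial trivial

theorem FB12_pp_133 {κ x : ℝ} (hκ : κ * h0 = ken x) (hx : ((201326592 : ℕ) : ℝ) / S ≤ x) (hx' : x ≤ (((201326592 : ℕ) : ℝ) + (134217728 : ℕ)) / S) :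
    TriB PP.cur (farS κ (h0 * x) (tbl tKF x) (tbl tL x)) 1 3 3 1 2 1 1 :=
  (sideF hx hx').farB (Or.inl rfl) (Or.inl rfl) fun y y' F =>
    farB_cert (s1 := true) (s2 := true) rfl hκ covF11 covF23 hx hx'
        Pool.Agent.Strip051.G.I3_16_5_16.Tab.C.FB12.c_pp_133 noCut_B noExt_B F trivial trivial

theorem FB12_pp_202 {κ x : ℝ} (hκ : κ * h0 = ken x) (hx : ((201326592 : ℕ) : ℝ) / S ≤ x) (hx' : x ≤ (((201326592 : ℕ) : ℝ) + (134217728 : ℕ)) / S) :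
    TriB PP.cur (farS κ (h0 * x) (tbl tKF x) (tbl tL x)) 2 0 2 1 2 1 1 :=
  (sideF hx hx').farB (Or.inl rfl) (Or.inl rfl) fun y y' F =>
    (lt_or_ge (h0 * y) 1).elim
      (fun h => (lt_or_ge (h0 * (y + y')) 1).elim
        (fun g => farB_cert (s1 := true) (s2 := true) rfl hκ covF12a covF22a hx hx'
        Pool.Agent.Strip051.G.I3_16_5_16.Tab.C.FB12.c_pp_202_aa noCut_B noExt_B F h g)
        (fun g => farB_cert (s1 := true) (s2 := true) rfl hκ covF12a covF22b hx hx'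
        Pool.Agent.Strip051.G.I3_16_5_16.Tab.C.FB12.c_pp_202_ab noCut_B noExt_B F h g))
      (fun h => (lt_or_ge (h0 * (y + y')) 1).elim
        (fun g => farB_cert (s1 := true) (s2 := true) rfl hκ covF12b covF22a hx hx'
        Pool.Agent.Strip051.G.I3_16_5_16.Tab.C.FB12.c_pp_202_ba noCut_B noExt_B F h g)
        (fun g => farB_cert (s1 := true) (s2 := true) rfl hκ covF12b covF22b hx hx'
        Pool.Agent.Strip051.G.I3_16_5_16.Tab.C.FB12.c_pp_202_bb noCut_B noExt_B F h g))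

theorem FB12_pp_203 {κ x : ℝ} (hκ : κ * h0 = ken x) (hx : ((201326592 : ℕ) : ℝ) / S ≤ x) (hx' : x ≤ (((201326592 : ℕ) : ℝ) + (134217728 : ℕ)) / S) :
    TriB PP.cur (farS κ (h0 * x) (tbl tKF x) (tbl tL x)) 2 0 3 1 2 1 1 :=
  (sideF hx hx').farB (Or.inl rfl) (Or.inl rfl) fun y y' F =>
    (lt_or_ge (h0 * y) 1).elim
      (fun h => farB_cert (s1 := true) (s2 := true) rfl hκ covF12a covF23 hx hx'
        Pool.Agent.Strip051.G.I3_16_5_16.Tab.C.FB12.c_pp_203_a noCut_B noExt_B F h trivial)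
      (fun h => farB_cert (s1 := true) (s2 := true) rfl hκ covF12b covF23 hx hx'
        Pool.Agent.Strip051.G.I3_16_5_16.Tab.C.FB12.c_pp_203_b noCut_B noExt_B F h trivial)

theorem FB12_pp_213 {κ x : ℝ} (hκ : κ * h0 = ken x) (hx : ((201326592 : ℕ) : ℝ) / S ≤ x) (hx' : x ≤ (((201326592 : ℕ) : ℝ) + (134217728 : ℕ)) / S) :
    TriB PP.cur (farS κ (h0 * x) (tbl tKF x) (tbl tL x)) 2 1 3 1 2 1 1 :=
  (sideF hx hx').farB (Or.inl rfl) (Or.inl rfl) fun y y' F =>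
    (lt_or_ge (h0 * y) 1).elim
      (fun h => farB_cert (s1 := true) (s2 := true) rfl hκ covF12a covF23 hx hx'
        Pool.Agent.Strip051.G.I3_16_5_16.Tab.C.FB12.c_pp_213_a (cutB_cons (Pool.Agent.Strip051.G.I3_16_5_16.Tab.alt12F_B213_12p hκ hx hx') cutB_nil) noExt_B F h trivial)
      (fun h => farB_cert (s1 := true) (s2 := true) rfl hκ covF12b covF23 hx hx'
        Pool.Agent.Strip051.G.I3_16_5_16.Tab.C.FB12.c_pp_213_b (cutB_cons (Pool.Agent.Strip051.G.I3_16_5_16.Tab.alt12F_B213_12p hκ hx hx') cutB_nil) noExt_B F h trivial)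

theorem FB12_pp_303 {κ x : ℝ} (hκ : κ * h0 = ken x) (hx : ((201326592 : ℕ) : ℝ) / S ≤ x) (hx' : x ≤ (((201326592 : ℕ) : ℝ) + (134217728 : ℕ)) / S) :
    TriB PP.cur (farS κ (h0 * x) (tbl tKF x) (tbl tL x)) 3 0 3 1 2 1 1 :=
  (sideF hx hx').farB (Or.inl rfl) (Or.inl rfl) fun y y' F =>
    farB_cert (s1 := true) (s2 := true) rfl hκ covF13 covF23 hx hx'
        Pool.Agent.Strip051.G.I3_16_5_16.Tab.C.FB12.c_pp_303 noCut_B noExt_B F trivial trivial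

theorem FB12_pp_313 {κ x : ℝ} (hκ : κ * h0 = ken x) (hx : ((201326592 : ℕ) : ℝ) / S ≤ x) (hx' : x ≤ (((201326592 : ℕ) : ℝ) + (134217728 : ℕ)) / S) :
    TriB PP.cur (farS κ (h0 * x) (tbl tKF x) (tbl tL x)) 3 1 3 1 2 1 1 :=
  (sideF hx hx').farB (Or.inl rfl) (Or.inl rfl) fun y y' F =>
    farB_cert (s1 := true) (s2 := true) rfl hκ covF13 covF23 hx hx'
        Pool.Agent.Strip051.G.I3_16_5_16.Tab.C.FB12.c_pp_313 noCut_B noExt_B F trivial trivial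

theorem FB12_pm_001 {κ x : ℝ} (hκ : κ * h0 = ken x) (hx : ((201326592 : ℕ) : ℝ) / S ≤ x) (hx' : x ≤ (((201326592 : ℕ) : ℝ) + (134217728 : ℕ)) / S) :
    TriB PP.cur (farS κ (h0 * x) (tbl tKF x) (tbl tL x)) 0 0 1 1 2 1 (-1) :=
  (sideF hx hx').farB (Or.inl rfl) (Or.inr rfl) fun y y' F =>
    farB_cert (s1 := true) (s2 := false) rfl hκ covF10 covF21 hx hx'
        Pool.Agent.Strip051.G.I3_16_5_16.Tab.C.FB12.c_pm_001 noCut_B noExt_B F trivial trivial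

theorem FB12_pm_011 {κ x : ℝ} (hκ : κ * h0 = ken x) (hx : ((201326592 : ℕ) : ℝ) / S ≤ x) (hx' : x ≤ (((201326592 : ℕ) : ℝ) + (134217728 : ℕ)) / S) :
    TriB PP.cur (farS κ (h0 * x) (tbl tKF x) (tbl tL x)) 0 1 1 1 2 1 (-1) :=
  (sideF hx hx').farB (Or.inl rfl) (Or.inr rfl) fun y y' F =>
    farB_cert (s1 := true) (s2 := false) rfl hκ covF10 covF21 hx hx'
        Pool.Agent.Strip051.G.I3_16_5_16.Tab.C.FB12.c_pm_011 noCut_B noExt_B F trivial trivial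

theorem FB12_pm_012 {κ x : ℝ} (hκ : κ * h0 = ken x) (hx : ((201326592 : ℕ) : ℝ) / S ≤ x) (hx' : x ≤ (((201326592 : ℕ) : ℝ) + (134217728 : ℕ)) / S) :
    TriB PP.cur (farS κ (h0 * x) (tbl tKF x) (tbl tL x)) 0 1 2 1 2 1 (-1) :=
  (sideF hx hx').farB (Or.inl rfl) (Or.inr rfl) fun y y' F =>
    (lt_or_ge (h0 * (y + y')) 1).elim
      (fun g => farB_cert (s1 := true) (s2 := false) rfl hκ covF10 covF22a hx hx'
        Pool.Agent.Strip051.G.I3_16_5_16.Tab.C.FB12.c_pm_012_a (cutB_cons (Pool.Agent.Strip051.G.I3_16_5_16.Tab.altF_B012R_12 hκ hx hx') cutB_nil) noExt_B F trivial g)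
      (fun g => farB_cert (s1 := true) (s2 := false) rfl hκ covF10 covF22b hx hx'
        Pool.Agent.Strip051.G.I3_16_5_16.Tab.C.FB12.c_pm_012_b (cutB_cons (Pool.Agent.Strip051.G.I3_16_5_16.Tab.altF_B012R_12 hκ hx hx') cutB_nil) noExt_B F trivial g)

theorem FB12_pm_022 {κ x : ℝ} (hκ : κ * h0 = ken x) (hx : ((201326592 : ℕ) : ℝ) / S ≤ x) (hx' : x ≤ (((201326592 : ℕ) : ℝ) + (134217728 : ℕ)) / S) :
    TriB PP.cur (farS κ (h0 * x) (tbl tKF x) (tbl tL x)) 0 2 2 1 2 1 (-1) :=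
  (sideF hx hx').farB (Or.inl rfl) (Or.inr rfl) fun y y' F =>
    (lt_or_ge (h0 * (y + y')) 1).elim
      (fun g => farB_cert (s1 := true) (s2 := false) rfl hκ covF10 covF22a hx hx'
        Pool.Agent.Strip051.G.I3_16_5_16.Tab.C.FB12.c_pm_022_a (cutB_cons (Pool.Agent.Strip051.G.I3_16_5_16.Tab.altF_B022R_12 hκ hx hx') cutB_nil) noExt_B F trivial g)
      (fun g => farB_cert (s1 := true) (s2 := false) rfl hκ covF10 covF22b hx hx'
        Pool.Agent.Strip051.G.I3_16_5_16.Tab.C.FB12.c_pm_022_b (cutB_cons (Pool.Agent.Strip051.G.I3_16_5_16.Tab.altF_B022R_12 hκ hx hx') cutB_nil) noExt_B F trivial g)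

theorem FB12_pm_023 {κ x : ℝ} (hκ : κ * h0 = ken x) (hx : ((201326592 : ℕ) : ℝ) / S ≤ x) (hx' : x ≤ (((201326592 : ℕ) : ℝ) + (134217728 : ℕ)) / S) :
    TriB PP.cur (farS κ (h0 * x) (tbl tKF x) (tbl tL x)) 0 2 3 1 2 1 (-1) :=
  (sideF hx hx').farB (Or.inl rfl) (Or.inr rfl) fun y y' F =>
    farB_cert (s1 := true) (s2 := false) rfl hκ covF10 covF23 hx hx'
        Pool.Agent.Strip051.G.I3_16_5_16.Tab.C.FB12.c_pm_023 noCut_B noExt_B F trivial trivial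

theorem FB12_pm_033 {κ x : ℝ} (hκ : κ * h0 = ken x) (hx : ((201326592 : ℕ) : ℝ) / S ≤ x) (hx' : x ≤ (((201326592 : ℕ) : ℝ) + (134217728 : ℕ)) / S) :
    TriB PP.cur (farS κ (h0 * x) (tbl tKF x) (tbl tL x)) 0 3 3 1 2 1 (-1) :=
  (sideF hx hx').farB (Or.inl rfl) (Or.inr rfl) fun y y' F =>
    farB_cert (s1 := true) (s2 := false) rfl hκ covF10 covF23 hx hx'
        Pool.Agent.Strip051.G.I3_16_5_16.Tab.C.FB12.c_pm_033 noCut_B noExt_B F trivial trivial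

theorem FB12_pm_101 {κ x : ℝ} (hκ : κ * h0 = ken x) (hx : ((201326592 : ℕ) : ℝ) / S ≤ x) (hx' : x ≤ (((201326592 : ℕ) : ℝ) + (134217728 : ℕ)) / S) :
    TriB PP.cur (farS κ (h0 * x) (tbl tKF x) (tbl tL x)) 1 0 1 1 2 1 (-1) :=
  (sideF hx hx').farB (Or.inl rfl) (Or.inr rfl) fun y y' F =>
    farB_cert (s1 := true) (s2 := false) rfl hκ covF11 covF21 hx hx'
        Pool.Agent.Strip051.G.I3_16_5_16.Tab.C.FB12.c_pm_101 noCut_B noExt_B F trivial trivial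

theorem FB12_pm_102 {κ x : ℝ} (hκ : κ * h0 = ken x) (hx : ((201326592 : ℕ) : ℝ) / S ≤ x) (hx' : x ≤ (((201326592 : ℕ) : ℝ) + (134217728 : ℕ)) / S) :
    TriB PP.cur (farS κ (h0 * x) (tbl tKF x) (tbl tL x)) 1 0 2 1 2 1 (-1) :=
  (sideF hx hx').farB (Or.inl rfl) (Or.inr rfl) fun y y' F =>
    (lt_or_ge (h0 * (y + y')) 1).elim
      (fun g => farB_cert (s1 := true) (s2 := false) rfl hκ covF11 covF22a hx hx'
        Pool.Agent.Strip051.G.I3_16_5_16.Tab.C.FB12.c_pm_102_a noCut_B noExt_B F trivial g)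
      (fun g => farB_cert (s1 := true) (s2 := false) rfl hκ covF11 covF22b hx hx'
        Pool.Agent.Strip051.G.I3_16_5_16.Tab.C.FB12.c_pm_102_b noCut_B noExt_B F trivial g)

theorem FB12_pm_112 {κ x : ℝ} (hκ : κ * h0 = ken x) (hx : ((201326592 : ℕ) : ℝ) / S ≤ x) (hx' : x ≤ (((201326592 : ℕ) : ℝ) + (134217728 : ℕ)) / S) :
    TriB PP.cur (farS κ (h0 * x) (tbl tKF x) (tbl tL x)) 1 1 2 1 2 1 (-1) :=
  (sideF hx hx').farB (Or.inl rfl) (Or.inr rfl) fun y y' F =>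
    (lt_or_ge (h0 * (y + y')) 1).elim
      (fun g => farB_cert (s1 := true) (s2 := false) rfl hκ covF11 covF22a hx hx'
        Pool.Agent.Strip051.G.I3_16_5_16.Tab.C.FB12.c_pm_112_a noCut_B noExt_B F trivial g)
      (fun g => farB_cert (s1 := true) (s2 := false) rfl hκ covF11 covF22b hx hx'
        Pool.Agent.Strip051.G.I3_16_5_16.Tab.C.FB12.c_pm_112_b noCut_B noExt_B F trivial g)

theorem FB12_pm_113 {κ x : ℝ} (hκ : κ * h0 = ken x) (hx : ((201326592 : ℕ) : ℝ) / S ≤ x) (hx' : x ≤ (((201326592 : ℕ) : ℝ) + (134217728 : ℕ)) / S) :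
    TriB PP.cur (farS κ (h0 * x) (tbl tKF x) (tbl tL x)) 1 1 3 1 2 1 (-1) :=
  (sideF hx hx').farB (Or.inl rfl) (Or.inr rfl) fun y y' F =>
    farB_cert (s1 := true) (s2 := false) rfl hκ covF11 covF23 hx hx'
        Pool.Agent.Strip051.G.I3_16_5_16.Tab.C.FB12.c_pm_113 noCut_B noExt_B F trivial trivial

theorem FB12_pm_123 {κ x : ℝ} (hκ : κ * h0 = ken x) (hx : ((201326592 : ℕ) : ℝ) / S ≤ x) (hx' : x ≤ (((201326592 : ℕ) : ℝ) + (134217728 : ℕ)) / S) :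
    TriB PP.cur (farS κ (h0 * x) (tbl tKF x) (tbl tL x)) 1 2 3 1 2 1 (-1) :=
  (sideF hx hx').farB (Or.inl rfl) (Or.inr rfl) fun y y' F =>
    farB_cert (s1 := true) (s2 := false) rfl hκ covF11 covF23 hx hx'
        Pool.Agent.Strip051.G.I3_16_5_16.Tab.C.FB12.c_pm_123 noCut_B noExt_B F trivial trivial

theorem FB12_pm_133 {κ x : ℝ} (hκ : κ * h0 = ken x) (hx : ((201326592 : ℕ) : ℝ) / S ≤ x) (hx' : x ≤ (((201326592 : ℕ) : ℝ) + (134217728 : ℕ)) / S) :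
    TriB PP.cur (farS κ (h0 * x) (tbl tKF x) (tbl tL x)) 1 3 3 1 2 1 (-1) :=
  (sideF hx hx').farB (Or.inl rfl) (Or.inr rfl) fun y y' F =>
    farB_cert (s1 := true) (s2 := false) rfl hκ covF11 covF23 hx hx'
        Pool.Agent.Strip051.G.I3_16_5_16.Tab.C.FB12.c_pm_133 noCut_B noExt_B F trivial trivial

theorem FB12_pm_202 {κ x : ℝ} (hκ : κ * h0 = ken x) (hx : ((201326592 : ℕ) : ℝ) / S ≤ x) (hx' : x ≤ (((201326592 : ℕ) : ℝ) + (134217728 : ℕ)) / S) :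
    TriB PP.cur (farS κ (h0 * x) (tbl tKF x) (tbl tL x)) 2 0 2 1 2 1 (-1) :=
  (sideF hx hx').farB (Or.inl rfl) (Or.inr rfl) fun y y' F =>
    (lt_or_ge (h0 * y) 1).elim
      (fun h => (lt_or_ge (h0 * (y + y')) 1).elim
        (fun g => farB_cert (s1 := true) (s2 := false) rfl hκ covF12a covF22a hx hx'
        Pool.Agent.Strip051.G.I3_16_5_16.Tab.C.FB12.c_pm_202_aa (cutB_cons (Pool.Agent.Strip051.G.I3_16_5_16.Tab.altF_B202E_12 hκ hx hx') cutB_nil) noExt_B F h g)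
        (fun g => farB_cert (s1 := true) (s2 := false) rfl hκ covF12a covF22b hx hx'
        Pool.Agent.Strip051.G.I3_16_5_16.Tab.C.FB12.c_pm_202_ab (cutB_cons (Pool.Agent.Strip051.G.I3_16_5_16.Tab.altF_B202E_12 hκ hx hx') cutB_nil) noExt_B F h g))
      (fun h => (lt_or_ge (h0 * (y + y')) 1).elim
        (fun g => farB_cert (s1 := true) (s2 := false) rfl hκ covF12b covF22a hx hx'
        Pool.Agent.Strip051.G.I3_16_5_16.Tab.C.FB12.c_pm_202_ba (cutB_cons (Pool.Agent.Strip051.G.I3_16_5_16.Tab.altF_B202E_12 hκ hx hx') cutB_nil) noExt_B F h g)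
        (fun g => farB_cert (s1 := true) (s2 := false) rfl hκ covF12b covF22b hx hx'
        Pool.Agent.Strip051.G.I3_16_5_16.Tab.C.FB12.c_pm_202_bb (cutB_cons (Pool.Agent.Strip051.G.I3_16_5_16.Tab.altF_B202E_12 hκ hx hx') cutB_nil) noExt_B F h g))

theorem FB12_pm_203 {κ x : ℝ} (hκ : κ * h0 = ken x) (hx : ((201326592 : ℕ) : ℝ) / S ≤ x) (hx' : x ≤ (((201326592 : ℕ) : ℝ) + (134217728 : ℕ)) / S) :
    TriB PP.cur (farS κ (h0 * x) (tbl tKF x) (tbl tL x)) 2 0 3 1 2 1 (-1) :=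
  (sideF hx hx').farB (Or.inl rfl) (Or.inr rfl) fun y y' F =>
    (lt_or_ge (h0 * y) 1).elim
      (fun h => farB_cert (s1 := true) (s2 := false) rfl hκ covF12a covF23 hx hx'
        Pool.Agent.Strip051.G.I3_16_5_16.Tab.C.FB12.c_pm_203_a noCut_B noExt_B F h trivial)
      (fun h => farB_cert (s1 := true) (s2 := false) rfl hκ covF12b covF23 hx hx'
        Pool.Agent.Strip051.G.I3_16_5_16.Tab.C.FB12.c_pm_203_b noCut_B noExt_B F h trivial)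

theorem FB12_pm_213 {κ x : ℝ} (hκ : κ * h0 = ken x) (hx : ((201326592 : ℕ) : ℝ) / S ≤ x) (hx' : x ≤ (((201326592 : ℕ) : ℝ) + (134217728 : ℕ)) / S) :
    TriB PP.cur (farS κ (h0 * x) (tbl tKF x) (tbl tL x)) 2 1 3 1 2 1 (-1) :=
  (sideF hx hx').farB (Or.inl rfl) (Or.inr rfl) fun y y' F =>
    (lt_or_ge (h0 * y) 1).elim
      (fun h => farB_cert (s1 := true) (s2 := false) rfl hκ covF12a covF23 hx hx'
        Pool.Agent.Strip051.G.I3_16_5_16.Tab.C.FB12.c_pm_213_a (cutB_cons (Pool.Agent.Strip051.G.I3_16_5_16.Tab.alt12F_B213_12m hκ hx hx') cutB_nil) noExt_B F h trivial)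
      (fun h => farB_cert (s1 := true) (s2 := false) rfl hκ covF12b covF23 hx hx'
        Pool.Agent.Strip051.G.I3_16_5_16.Tab.C.FB12.c_pm_213_b (cutB_cons (Pool.Agent.Strip051.G.I3_16_5_16.Tab.alt12F_B213_12m hκ hx hx') cutB_nil) noExt_B F h trivial)

theorem FB12_pm_303 {κ x : ℝ} (hκ : κ * h0 = ken x) (hx : ((201326592 : ℕ) : ℝ) / S ≤ x) (hx' : x ≤ (((201326592 : ℕ) : ℝ) + (134217728 : ℕ)) / S) :
    TriB PP.cur (farS κ (h0 * x) (tbl tKF x) (tbl tL x)) 3 0 3 1 2 1 (-1) :=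
  (sideF hx hx').farB (Or.inl rfl) (Or.inr rfl) fun y y' F =>
    farB_cert (s1 := true) (s2 := false) rfl hκ covF13 covF23 hx hx'
        Pool.Agent.Strip051.G.I3_16_5_16.Tab.C.FB12.c_pm_303 noCut_B noExt_B F trivial trivial

theorem FB12_pm_313 {κ x : ℝ} (hκ : κ * h0 = ken x) (hx : ((201326592 : ℕ) : ℝ) / S ≤ x) (hx' : x ≤ (((201326592 : ℕ) : ℝ) + (134217728 : ℕ)) / S) :
    TriB PP.cur (farS κ (h0 * x) (tbl tKF x) (tbl tL x)) 3 1 3 1 2 1 (-1) :=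
  (sideF hx hx').farB (Or.inl rfl) (Or.inr rfl) fun y y' F =>
    farB_cert (s1 := true) (s2 := false) rfl hκ covF13 covF23 hx hx'
        Pool.Agent.Strip051.G.I3_16_5_16.Tab.C.FB12.c_pm_313 noCut_B noExt_B F trivial trivial

theorem FB12_mm_001 {κ x : ℝ} (hκ : κ * h0 = ken x) (hx : ((201326592 : ℕ) : ℝ) / S ≤ x) (hx' : x ≤ (((201326592 : ℕ) : ℝ) + (134217728 : ℕ)) / S) :
    TriB PP.cur (farS κ (h0 * x) (tbl tKF x) (tbl tL x)) 0 0 1 1 2 (-1) (-1) :=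
  (sideF hx hx').farB (Or.inr rfl) (Or.inr rfl) fun y y' F =>
    farB_cert (s1 := false) (s2 := false) rfl hκ covF10 covF21 hx hx'
        Pool.Agent.Strip051.G.I3_16_5_16.Tab.C.FB12.c_mm_001 noCut_B noExt_B F trivial trivial

theorem FB12_mm_011 {κ x : ℝ} (hκ : κ * h0 = ken x) (hx : ((201326592 : ℕ) : ℝ) / S ≤ x) (hx' : x ≤ (((201326592 : ℕ) : ℝ) + (134217728 : ℕ)) / S) :
    TriB PP.cur (farS κ (h0 * x) (tbl tKF x) (tbl tL x)) 0 1 1 1 2 (-1) (-1) :=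
  (sideF hx hx').farB (Or.inr rfl) (Or.inr rfl) fun y y' F =>
    farB_cert (s1 := false) (s2 := false) rfl hκ covF10 covF21 hx hx'
        Pool.Agent.Strip051.G.I3_16_5_16.Tab.C.FB12.c_mm_011 noCut_B noExt_B F trivial trivial

theorem FB12_mm_012 {κ x : ℝ} (hκ : κ * h0 = ken x) (hx : ((201326592 : ℕ) : ℝ) / S ≤ x) (hx' : x ≤ (((201326592 : ℕ) : ℝ) + (134217728 : ℕ)) / S) :
    TriB PP.cur (farS κ (h0 * x) (tbl tKF x) (tbl tL x)) 0 1 2 1 2 (-1) (-1) :=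
  (sideF hx hx').farB (Or.inr rfl) (Or.inr rfl) fun y y' F =>
    (lt_or_ge (h0 * (y + y')) 1).elim
      (fun g => farB_cert (s1 := false) (s2 := false) rfl hκ covF10 covF22a hx hx'
        Pool.Agent.Strip051.G.I3_16_5_16.Tab.C.FB12.c_mm_012_a noCut_B noExt_B F trivial g)
      (fun g => farB_cert (s1 := false) (s2 := false) rfl hκ covF10 covF22b hx hx'
        Pool.Agent.Strip051.G.I3_16_5_16.Tab.C.FB12.c_mm_012_b noCut_B noExt_B F trivial g)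

theorem FB12_mm_022 {κ x : ℝ} (hκ : κ * h0 = ken x) (hx : ((201326592 : ℕ) : ℝ) / S ≤ x) (hx' : x ≤ (((201326592 : ℕ) : ℝ) + (134217728 : ℕ)) / S) :
    TriB PP.cur (farS κ (h0 * x) (tbl tKF x) (tbl tL x)) 0 2 2 1 2 (-1) (-1) :=
  (sideF hx hx').farB (Or.inr rfl) (Or.inr rfl) fun y y' F =>
    (lt_or_ge (h0 * (y + y')) 1).elim
      (fun g => farB_cert (s1 := false) (s2 := false) rfl hκ covF10 covF22a hx hx'
        Pool.Agent.Strip051.G.I3_16_5_16.Tab.C.FB12.c_mm_022_a noCut_B noExt_B F trivial g)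
      (fun g => farB_cert (s1 := false) (s2 := false) rfl hκ covF10 covF22b hx hx'
        Pool.Agent.Strip051.G.I3_16_5_16.Tab.C.FB12.c_mm_022_b noCut_B noExt_B F trivial g)

theorem FB12_mm_023 {κ x : ℝ} (hκ : κ * h0 = ken x) (hx : ((201326592 : ℕ) : ℝ) / S ≤ x) (hx' : x ≤ (((201326592 : ℕ) : ℝ) + (134217728 : ℕ)) / S) :
    TriB PP.cur (farS κ (h0 * x) (tbl tKF x) (tbl tL x)) 0 2 3 1 2 (-1) (-1) :=
  (sideF hx hx').farB (Or.inr rfl) (Or.inr rfl) fun y y' F =>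
    farB_cert (s1 := false) (s2 := false) rfl hκ covF10 covF23 hx hx'
        Pool.Agent.Strip051.G.I3_16_5_16.Tab.C.FB12.c_mm_023 noCut_B noExt_B F trivial trivial

theorem FB12_mm_033 {κ x : ℝ} (hκ : κ * h0 = ken x) (hx : ((201326592 : ℕ) : ℝ) / S ≤ x) (hx' : x ≤ (((201326592 : ℕ) : ℝ) + (134217728 : ℕ)) / S) :
    TriB PP.cur (farS κ (h0 * x) (tbl tKF x) (tbl tL x)) 0 3 3 1 2 (-1) (-1) :=
  (sideF hx hx').farB (Or.inr rfl) (Or.inr rfl) fun y y' F =>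
    farB_cert (s1 := false) (s2 := false) rfl hκ covF10 covF23 hx hx'
        Pool.Agent.Strip051.G.I3_16_5_16.Tab.C.FB12.c_mm_033 noCut_B noExt_B F trivial trivial

theorem FB12_mm_101 {κ x : ℝ} (hκ : κ * h0 = ken x) (hx : ((201326592 : ℕ) : ℝ) / S ≤ x) (hx' : x ≤ (((201326592 : ℕ) : ℝ) + (134217728 : ℕ)) / S) :
    TriB PP.cur (farS κ (h0 * x) (tbl tKF x) (tbl tL x)) 1 0 1 1 2 (-1) (-1) :=
  (sideF hx hx').farB (Or.inr rfl) (Or.inr rfl) fun y y' F =>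
    farB_cert (s1 := false) (s2 := false) rfl hκ covF11 covF21 hx hx'
        Pool.Agent.Strip051.G.I3_16_5_16.Tab.C.FB12.c_mm_101 noCut_B noExt_B F trivial trivial

theorem FB12_mm_102 {κ x : ℝ} (hκ : κ * h0 = ken x) (hx : ((201326592 : ℕ) : ℝ) / S ≤ x) (hx' : x ≤ (((201326592 : ℕ) : ℝ) + (134217728 : ℕ)) / S) :
    TriB PP.cur (farS κ (h0 * x) (tbl tKF x) (tbl tL x)) 1 0 2 1 2 (-1) (-1) :=
  (sideF hx hx').farB (Or.inr rfl) (Or.inr rfl) fun y y' F =>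
    (lt_or_ge (h0 * (y + y')) 1).elim
      (fun g => farB_cert (s1 := false) (s2 := false) rfl hκ covF11 covF22a hx hx'
        Pool.Agent.Strip051.G.I3_16_5_16.Tab.C.FB12.c_mm_102_a noCut_B noExt_B F trivial g)
      (fun g => farB_cert (s1 := false) (s2 := false) rfl hκ covF11 covF22b hx hx'
        Pool.Agent.Strip051.G.I3_16_5_16.Tab.C.FB12.c_mm_102_b noCut_B noExt_B F trivial g)

theorem FB12_mm_112 {κ x : ℝ} (hκ : κ * h0 = ken x) (hx : ((201326592 : ℕ) : ℝ) / S ≤ x) (hx' : x ≤ (((201326592 : ℕ) : ℝ) + (134217728 : ℕ)) / S) :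
    TriB PP.cur (farS κ (h0 * x) (tbl tKF x) (tbl tL x)) 1 1 2 1 2 (-1) (-1) :=
  (sideF hx hx').farB (Or.inr rfl) (Or.inr rfl) fun y y' F =>
    (lt_or_ge (h0 * (y + y')) 1).elim
      (fun g => farB_cert (s1 := false) (s2 := false) rfl hκ covF11 covF22a hx hx'
        Pool.Agent.Strip051.G.I3_16_5_16.Tab.C.FB12.c_mm_112_a noCut_B noExt_B F trivial g)
      (fun g => farB_cert (s1 := false) (s2 := false) rfl hκ covF11 covF22b hx hx'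
        Pool.Agent.Strip051.G.I3_16_5_16.Tab.C.FB12.c_mm_112_b noCut_B noExt_B F trivial g)

theorem FB12_mm_113 {κ x : ℝ} (hκ : κ * h0 = ken x) (hx : ((201326592 : ℕ) : ℝ) / S ≤ x) (hx' : x ≤ (((201326592 : ℕ) : ℝ) + (134217728 : ℕ)) / S) :
    TriB PP.cur (farS κ (h0 * x) (tbl tKF x) (tbl tL x)) 1 1 3 1 2 (-1) (-1) :=
  (sideF hx hx').farB (Or.inr rfl) (Or.inr rfl) fun y y' F =>
    farB_cert (s1 := false) (s2 := false) rfl hκ covF11 covF23 hx hx'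
        Pool.Agent.Strip051.G.I3_16_5_16.Tab.C.FB12.c_mm_113 noCut_B noExt_B F trivial trivial

theorem FB12_mm_123 {κ x : ℝ} (hκ : κ * h0 = ken x) (hx : ((201326592 : ℕ) : ℝ) / S ≤ x) (hx' : x ≤ (((201326592 : ℕ) : ℝ) + (134217728 : ℕ)) / S) :
    TriB PP.cur (farS κ (h0 * x) (tbl tKF x) (tbl tL x)) 1 2 3 1 2 (-1) (-1) :=
  (sideF hx hx').farB (Or.inr rfl) (Or.inr rfl) fun y y' F =>
    farB_cert (s1 := false) (s2 := false) rfl hκ covF11 covF23 hx hx'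
        Pool.Agent.Strip051.G.I3_16_5_16.Tab.C.FB12.c_mm_123 noCut_B noExt_B F trivial trivial

theorem FB12_mm_133 {κ x : ℝ} (hκ : κ * h0 = ken x) (hx : ((201326592 : ℕ) : ℝ) / S ≤ x) (hx' : x ≤ (((201326592 : ℕ) : ℝ) + (134217728 : ℕ)) / S) :
    TriB PP.cur (farS κ (h0 * x) (tbl tKF x) (tbl tL x)) 1 3 3 1 2 (-1) (-1) :=
  (sideF hx hx').farB (Or.inr rfl) (Or.inr rfl) fun y y' F =>
    farB_cert (s1 := false) (s2 := false) rfl hκ covF11 covF23 hx hx'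
        Pool.Agent.Strip051.G.I3_16_5_16.Tab.C.FB12.c_mm_133 noCut_B noExt_B F trivial trivial

theorem FB12_mm_202 {κ x : ℝ} (hκ : κ * h0 = ken x) (hx : ((201326592 : ℕ) : ℝ) / S ≤ x) (hx' : x ≤ (((201326592 : ℕ) : ℝ) + (134217728 : ℕ)) / S) :
    TriB PP.cur (farS κ (h0 * x) (tbl tKF x) (tbl tL x)) 2 0 2 1 2 (-1) (-1) :=
  (sideF hx hx').farB (Or.inr rfl) (Or.inr rfl) fun y y' F =>
    (lt_or_ge (h0 * y) 1).elim
      (fun h => (lt_or_ge (h0 * (y + y')) 1).elim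
        (fun g => farB_cert (s1 := false) (s2 := false) rfl hκ covF12a covF22a hx hx'
        Pool.Agent.Strip051.G.I3_16_5_16.Tab.C.FB12.c_mm_202_aa noCut_B noExt_B F h g)
        (fun g => farB_cert (s1 := false) (s2 := false) rfl hκ covF12a covF22b hx hx'
        Pool.Agent.Strip051.G.I3_16_5_16.Tab.C.FB12.c_mm_202_ab noCut_B noExt_B F h g))
      (fun h => (lt_or_ge (h0 * (y + y')) 1).elim
        (fun g => farB_cert (s1 := false) (s2 := false) rfl hκ covF12b covF22a hx hx'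
        Pool.Agent.Strip051.G.I3_16_5_16.Tab.C.FB12.c_mm_202_ba noCut_B noExt_B F h g)
        (fun g => farB_cert (s1 := false) (s2 := false) rfl hκ covF12b covF22b hx hx'
        Pool.Agent.Strip051.G.I3_16_5_16.Tab.C.FB12.c_mm_202_bb noCut_B noExt_B F h g))

theorem FB12_mm_203 {κ x : ℝ} (hκ : κ * h0 = ken x) (hx : ((201326592 : ℕ) : ℝ) / S ≤ x) (hx' : x ≤ (((201326592 : ℕ) : ℝ) + (134217728 : ℕ)) / S) :
    TriB PP.cur (farS κ (h0 * x) (tbl tKF x) (tbl tL x)) 2 0 3 1 2 (-1) (-1) :=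
  (sideF hx hx').farB (Or.inr rfl) (Or.inr rfl) fun y y' F =>
    (lt_or_ge (h0 * y) 1).elim
      (fun h => farB_cert (s1 := false) (s2 := false) rfl hκ covF12a covF23 hx hx'
        Pool.Agent.Strip051.G.I3_16_5_16.Tab.C.FB12.c_mm_203_a noCut_B noExt_B F h trivial)
      (fun h => farB_cert (s1 := false) (s2 := false) rfl hκ covF12b covF23 hx hx'
        Pool.Agent.Strip051.G.I3_16_5_16.Tab.C.FB12.c_mm_203_b noCut_B noExt_B F h trivial)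

theorem FB12_mm_213 {κ x : ℝ} (hκ : κ * h0 = ken x) (hx : ((201326592 : ℕ) : ℝ) / S ≤ x) (hx' : x ≤ (((201326592 : ℕ) : ℝ) + (134217728 : ℕ)) / S) :
    TriB PP.cur (farS κ (h0 * x) (tbl tKF x) (tbl tL x)) 2 1 3 1 2 (-1) (-1) :=
  (sideF hx hx').farB (Or.inr rfl) (Or.inr rfl) fun y y' F =>
    (lt_or_ge (h0 * y) 1).elim
      (fun h => farB_cert (s1 := false) (s2 := false) rfl hκ covF12a covF23 hx hx'
        Pool.Agent.Strip051.G.I3_16_5_16.Tab.C.FB12.c_mm_213_a noCut_B noExt_B F h trivial)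
      (fun h => farB_cert (s1 := false) (s2 := false) rfl hκ covF12b covF23 hx hx'
        Pool.Agent.Strip051.G.I3_16_5_16.Tab.C.FB12.c_mm_213_b noCut_B noExt_B F h trivial)

theorem FB12_mm_303 {κ x : ℝ} (hκ : κ * h0 = ken x) (hx : ((201326592 : ℕ) : ℝ) / S ≤ x) (hx' : x ≤ (((201326592 : ℕ) : ℝ) + (134217728 : ℕ)) / S) :
    TriB PP.cur (farS κ (h0 * x) (tbl tKF x) (tbl tL x)) 3 0 3 1 2 (-1) (-1) :=
  (sideF hx hx').farB (Or.inr rfl) (Or.inr rfl) fun y y' F =>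
    farB_cert (s1 := false) (s2 := false) rfl hκ covF13 covF23 hx hx'
        Pool.Agent.Strip051.G.I3_16_5_16.Tab.C.FB12.c_mm_303 noCut_B noExt_B F trivial trivial

theorem FB12_mm_313 {κ x : ℝ} (hκ : κ * h0 = ken x) (hx : ((201326592 : ℕ) : ℝ) / S ≤ x) (hx' : x ≤ (((201326592 : ℕ) : ℝ) + (134217728 : ℕ)) / S) :
    TriB PP.cur (farS κ (h0 * x) (tbl tKF x) (tbl tL x)) 3 1 3 1 2 (-1) (-1) :=
  (sideF hx hx').farB (Or.inr rfl) (Or.inr rfl) fun y y' F =>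
    farB_cert (s1 := false) (s2 := false) rfl hκ covF13 covF23 hx hx'
        Pool.Agent.Strip051.G.I3_16_5_16.Tab.C.FB12.c_mm_313 noCut_B noExt_B F trivial trivial

theorem FB12 {κ x : ℝ} (hκ : κ * h0 = ken x) (hx : ((201326592 : ℕ) : ℝ) / S ≤ x) (hx' : x ≤ (((201326592 : ℕ) : ℝ) + (134217728 : ℕ)) / S) : AllTB PP.cur (farS κ (h0 * x) (tbl tKF x) (tbl tL x)) 1 2 where
  pp := all17 (Q := fun a b c => TriB PP.cur (farS κ (h0 * x) (tbl tKF x) (tbl tL x)) a b c 1 2 1 1)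
    (FB12_pp_001 hκ hx hx') (FB12_pp_011 hκ hx hx') (FB12_pp_012 hκ hx hx') (FB12_pp_022 hκ hx hx') (FB12_pp_023 hκ hx hx') (FB12_pp_033 hκ hx hx') (FB12_pp_101 hκ hx hx') (FB12_pp_102 hκ hx hx') (FB12_pp_112 hκ hx hx') (FB12_pp_113 hκ hx hx') (FB12_pp_123 hκ hx hx') (FB12_pp_133 hκ hx hx') (FB12_pp_202 hκ hx hx') (FB12_pp_203 hκ hx hx') (FB12_pp_213 hκ hx hx') (FB12_pp_303 hκ hx hx') (FB12_pp_313 hκ hx hx')
  pm := all17 (Q := fun a b c => TriB PP.cur (farS κ (h0 * x) (tbl tKF x) (tbl tL x)) a b c 1 2 1 (-1))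
    (FB12_pm_001 hκ hx hx') (FB12_pm_011 hκ hx hx') (FB12_pm_012 hκ hx hx') (FB12_pm_022 hκ hx hx') (FB12_pm_023 hκ hx hx') (FB12_pm_033 hκ hx hx') (FB12_pm_101 hκ hx hx') (FB12_pm_102 hκ hx hx') (FB12_pm_112 hκ hx hx') (FB12_pm_113 hκ hx hx') (FB12_pm_123 hκ hx hx') (FB12_pm_133 hκ hx hx') (FB12_pm_202 hκ hx hx') (FB12_pm_203 hκ hx hx') (FB12_pm_213 hκ hx hx') (FB12_pm_303 hκ hx hx') (FB12_pm_313 hκ hx hx')
  mm := all17 (Q := fun a b c => TriB PP.cur (farS κ (h0 * x) (tbl tKF x) (tbl tL x)) a b c 1 2 (-1) (-1))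
    (FB12_mm_001 hκ hx hx') (FB12_mm_011 hκ hx hx') (FB12_mm_012 hκ hx hx') (FB12_mm_022 hκ hx hx') (FB12_mm_023 hκ hx hx') (FB12_mm_033 hκ hx hx') (FB12_mm_101 hκ hx hx') (FB12_mm_102 hκ hx hx') (FB12_mm_112 hκ hx hx') (FB12_mm_113 hκ hx hx') (FB12_mm_123 hκ hx hx') (FB12_mm_133 hκ hx hx') (FB12_mm_202 hκ hx hx') (FB12_mm_203 hκ hx hx') (FB12_mm_213 hκ hx hx') (FB12_mm_303 hκ hx hx') (FB12_mm_313 hκ hx hx')

theorem FB13_pp_001 {κ x : ℝ} (hκ : κ * h0 = ken x) (hx : ((201326592 : ℕ) : ℝ) / S ≤ x) (hx' : x ≤ (((201326592 : ℕ) : ℝ) + (134217728 : ℕ)) / S) :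
    TriB PP.cur (farS κ (h0 * x) (tbl tKF x) (tbl tL x)) 0 0 1 1 3 1 1 :=
  (sideF hx hx').farB (Or.inl rfl) (Or.inl rfl) fun y y' F =>
    farB_cert (s1 := true) (s2 := true) rfl hκ covF10 covF31 hx hx'
        Pool.Agent.Strip051.G.I3_16_5_16.Tab.C.FB13.c_pp_001 noCut_B noExt_B F trivial trivial

theorem FB13_pp_011 {κ x : ℝ} (hκ : κ * h0 = ken x) (hx : ((201326592 : ℕ) : ℝ) / S ≤ x) (hx' : x ≤ (((201326592 : ℕ) : ℝ) + (134217728 : ℕ)) / S) :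
    TriB PP.cur (farS κ (h0 * x) (tbl tKF x) (tbl tL x)) 0 1 1 1 3 1 1 :=
  (sideF hx hx').farB (Or.inl rfl) (Or.inl rfl) fun y y' F =>
    farB_cert (s1 := true) (s2 := true) rfl hκ covF10 covF31 hx hx'
        Pool.Agent.Strip051.G.I3_16_5_16.Tab.C.FB13.c_pp_011 (cutB_cons (Pool.Agent.Strip051.G.I3_16_5_16.Tab.altF_B011L_13 hκ hx hx') cutB_nil) noExt_B F trivial trivial

theorem FB13_pp_012 {κ x : ℝ} (hκ : κ * h0 = ken x) (hx : ((201326592 : ℕ) : ℝ) / S ≤ x) (hx' : x ≤ (((201326592 : ℕ) : ℝ) + (134217728 : ℕ)) / S) :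
    TriB PP.cur (farS κ (h0 * x) (tbl tKF x) (tbl tL x)) 0 1 2 1 3 1 1 :=
  (sideF hx hx').farB (Or.inl rfl) (Or.inl rfl) fun y y' F =>
    farB_cert (s1 := true) (s2 := true) rfl hκ covF10 covF32 hx hx'
        Pool.Agent.Strip051.G.I3_16_5_16.Tab.C.FB13.c_pp_012 noCut_B noExt_B F trivial trivial

theorem FB13_pp_022 {κ x : ℝ} (hκ : κ * h0 = ken x) (hx : ((201326592 : ℕ) : ℝ) / S ≤ x) (hx' : x ≤ (((201326592 : ℕ) : ℝ) + (134217728 : ℕ)) / S) :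
    TriB PP.cur (farS κ (h0 * x) (tbl tKF x) (tbl tL x)) 0 2 2 1 3 1 1 :=
  (sideF hx hx').farB (Or.inl rfl) (Or.inl rfl) fun y y' F =>
    farB_cert (s1 := true) (s2 := true) rfl hκ covF10 covF32 hx hx'
        Pool.Agent.Strip051.G.I3_16_5_16.Tab.C.FB13.c_pp_022 noCut_B noExt_B F trivial trivial

theorem FB13_pp_023 {κ x : ℝ} (hκ : κ * h0 = ken x) (hx : ((201326592 : ℕ) : ℝ) / S ≤ x) (hx' : x ≤ (((201326592 : ℕ) : ℝ) + (134217728 : ℕ)) / S) :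
    TriB PP.cur (farS κ (h0 * x) (tbl tKF x) (tbl tL x)) 0 2 3 1 3 1 1 :=
  (sideF hx hx').farB (Or.inl rfl) (Or.inl rfl) fun y y' F =>
    farB_cert (s1 := true) (s2 := true) rfl hκ covF10 covF33 hx hx'
        Pool.Agent.Strip051.G.I3_16_5_16.Tab.C.FB13.c_pp_023 noCut_B noExt_B F trivial trivial

theorem FB13_pp_033 {κ x : ℝ} (hκ : κ * h0 = ken x) (hx : ((201326592 : ℕ) : ℝ) / S ≤ x) (hx' : x ≤ (((201326592 : ℕ) : ℝ) + (134217728 : ℕ)) / S) :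
    TriB PP.cur (farS κ (h0 * x) (tbl tKF x) (tbl tL x)) 0 3 3 1 3 1 1 :=
  (sideF hx hx').farB (Or.inl rfl) (Or.inl rfl) fun y y' F =>
    farB_cert (s1 := true) (s2 := true) rfl hκ covF10 covF33 hx hx'
        Pool.Agent.Strip051.G.I3_16_5_16.Tab.C.FB13.c_pp_033 noCut_B noExt_B F trivial trivial

theorem FB13_pp_101 {κ x : ℝ} (hκ : κ * h0 = ken x) (hx : ((201326592 : ℕ) : ℝ) / S ≤ x) (hx' : x ≤ (((201326592 : ℕ) : ℝ) + (134217728 : ℕ)) / S) :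
    TriB PP.cur (farS κ (h0 * x) (tbl tKF x) (tbl tL x)) 1 0 1 1 3 1 1 :=
  (sideF hx hx').farB (Or.inl rfl) (Or.inl rfl) fun y y' F =>
    farB_cert (s1 := true) (s2 := true) rfl hκ covF11 covF31 hx hx'
        Pool.Agent.Strip051.G.I3_16_5_16.Tab.C.FB13.c_pp_101 noCut_B noExt_B F trivial trivial

theorem FB13_pp_102 {κ x : ℝ} (hκ : κ * h0 = ken x) (hx : ((201326592 : ℕ) : ℝ) / S ≤ x) (hx' : x ≤ (((201326592 : ℕ) : ℝ) + (134217728 : ℕ)) / S) :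
    TriB PP.cur (farS κ (h0 * x) (tbl tKF x) (tbl tL x)) 1 0 2 1 3 1 1 :=
  (sideF hx hx').farB (Or.inl rfl) (Or.inl rfl) fun y y' F =>
    farB_cert (s1 := true) (s2 := true) rfl hκ covF11 covF32 hx hx'
        Pool.Agent.Strip051.G.I3_16_5_16.Tab.C.FB13.c_pp_102 noCut_B noExt_B F trivial trivial

theorem FB13_pp_112 {κ x : ℝ} (hκ : κ * h0 = ken x) (hx : ((201326592 : ℕ) : ℝ) / S ≤ x) (hx' : x ≤ (((201326592 : ℕ) : ℝ) + (134217728 : ℕ)) / S) :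
    TriB PP.cur (farS κ (h0 * x) (tbl tKF x) (tbl tL x)) 1 1 2 1 3 1 1 :=
  (sideF hx hx').farB (Or.inl rfl) (Or.inl rfl) fun y y' F =>
    farB_cert (s1 := true) (s2 := true) rfl hκ covF11 covF32 hx hx'
        Pool.Agent.Strip051.G.I3_16_5_16.Tab.C.FB13.c_pp_112 noCut_B noExt_B F trivial trivial

theorem FB13_pp_113 {κ x : ℝ} (hκ : κ * h0 = ken x) (hx : ((201326592 : ℕ) : ℝ) / S ≤ x) (hx' : x ≤ (((201326592 : ℕ) : ℝ) + (134217728 : ℕ)) / S) :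
    TriB PP.cur (farS κ (h0 * x) (tbl tKF x) (tbl tL x)) 1 1 3 1 3 1 1 :=
  (sideF hx hx').farB (Or.inl rfl) (Or.inl rfl) fun y y' F =>
    farB_cert (s1 := true) (s2 := true) rfl hκ covF11 covF33 hx hx'
        Pool.Agent.Strip051.G.I3_16_5_16.Tab.C.FB13.c_pp_113 noCut_B noExt_B F trivial trivial

theorem FB13_pp_123 {κ x : ℝ} (hκ : κ * h0 = ken x) (hx : ((201326592 : ℕ) : ℝ) / S ≤ x) (hx' : x ≤ (((201326592 : ℕ) : ℝ) + (134217728 : ℕ)) / S) :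
    TriB PP.cur (farS κ (h0 * x) (tbl tKF x) (tbl tL x)) 1 2 3 1 3 1 1 :=
  (sideF hx hx').farB (Or.inl rfl) (Or.inl rfl) fun y y' F =>
    farB_cert (s1 := true) (s2 := true) rfl hκ covF11 covF33 hx hx'
        Pool.Agent.Strip051.G.I3_16_5_16.Tab.C.FB13.c_pp_123 noCut_B noExt_B F trivial trivial

theorem FB13_pp_133 {κ x : ℝ} (hκ : κ * h0 = ken x) (hx : ((201326592 : ℕ) : ℝ) / S ≤ x) (hx' : x ≤ (((201326592 : ℕ) : ℝ) + (134217728 : ℕ)) / S) :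
    TriB PP.cur (farS κ (h0 * x) (tbl tKF x) (tbl tL x)) 1 3 3 1 3 1 1 :=
  (sideF hx hx').farB (Or.inl rfl) (Or.inl rfl) fun y y' F =>
    farB_cert (s1 := true) (s2 := true) rfl hκ covF11 covF33 hx hx'
        Pool.Agent.Strip051.G.I3_16_5_16.Tab.C.FB13.c_pp_133 noCut_B noExt_B F trivial trivial

theorem FB13_pp_202 {κ x : ℝ} (hκ : κ * h0 = ken x) (hx : ((201326592 : ℕ) : ℝ) / S ≤ x) (hx' : x ≤ (((201326592 : ℕ) : ℝ) + (134217728 : ℕ)) / S) :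
    TriB PP.cur (farS κ (h0 * x) (tbl tKF x) (tbl tL x)) 2 0 2 1 3 1 1 :=
  (sideF hx hx').farB (Or.inl rfl) (Or.inl rfl) fun y y' F =>
    (lt_or_ge (h0 * y) 1).elim
      (fun h => farB_cert (s1 := true) (s2 := true) rfl hκ covF12a covF32 hx hx'
        Pool.Agent.Strip051.G.I3_16_5_16.Tab.C.FB13.c_pp_202_a noCut_B noExt_B F h trivial)
      (fun h => farB_cert (s1 := true) (s2 := true) rfl hκ covF12b covF32 hx hx'
        Pool.Agent.Strip051.G.I3_16_5_16.Tab.C.FB13.c_pp_202_b noCut_B noExt_B F h trivial)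

theorem FB13_pp_203 {κ x : ℝ} (hκ : κ * h0 = ken x) (hx : ((201326592 : ℕ) : ℝ) / S ≤ x) (hx' : x ≤ (((201326592 : ℕ) : ℝ) + (134217728 : ℕ)) / S) :
    TriB PP.cur (farS κ (h0 * x) (tbl tKF x) (tbl tL x)) 2 0 3 1 3 1 1 :=
  (sideF hx hx').farB (Or.inl rfl) (Or.inl rfl) fun y y' F =>
    (lt_or_ge (h0 * y) 1).elim
      (fun h => farB_cert (s1 := true) (s2 := true) rfl hκ covF12a covF33 hx hx'
        Pool.Agent.Strip051.G.I3_16_5_16.Tab.C.FB13.c_pp_203_a noCut_B noExt_B F h trivial)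
      (fun h => farB_cert (s1 := true) (s2 := true) rfl hκ covF12b covF33 hx hx'
        Pool.Agent.Strip051.G.I3_16_5_16.Tab.C.FB13.c_pp_203_b noCut_B noExt_B F h trivial)

theorem FB13_pp_213 {κ x : ℝ} (hκ : κ * h0 = ken x) (hx : ((201326592 : ℕ) : ℝ) / S ≤ x) (hx' : x ≤ (((201326592 : ℕ) : ℝ) + (134217728 : ℕ)) / S) :
    TriB PP.cur (farS κ (h0 * x) (tbl tKF x) (tbl tL x)) 2 1 3 1 3 1 1 :=
  (sideF hx hx').farB (Or.inl rfl) (Or.inl rfl) fun y y' F =>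
    (lt_or_ge (h0 * y) 1).elim
      (fun h => farB_cert (s1 := true) (s2 := true) rfl hκ covF12a covF33 hx hx'
        Pool.Agent.Strip051.G.I3_16_5_16.Tab.C.FB13.c_pp_213_a (cutB_cons (Pool.Agent.Strip051.G.I3_16_5_16.Tab.alt12F_B213_13p hκ hx hx') cutB_nil) noExt_B F h trivial)
      (fun h => farB_cert (s1 := true) (s2 := true) rfl hκ covF12b covF33 hx hx'
        Pool.Agent.Strip051.G.I3_16_5_16.Tab.C.FB13.c_pp_213_b (cutB_cons (Pool.Agent.Strip051.G.I3_16_5_16.Tab.alt12F_B213_13p hκ hx hx') cutB_nil) noExt_B F h trivial)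

theorem FB13_pp_303 {κ x : ℝ} (hκ : κ * h0 = ken x) (hx : ((201326592 : ℕ) : ℝ) / S ≤ x) (hx' : x ≤ (((201326592 : ℕ) : ℝ) + (134217728 : ℕ)) / S) :
    TriB PP.cur (farS κ (h0 * x) (tbl tKF x) (tbl tL x)) 3 0 3 1 3 1 1 :=
  (sideF hx hx').farB (Or.inl rfl) (Or.inl rfl) fun y y' F =>
    farB_cert (s1 := true) (s2 := true) rfl hκ covF13 covF33 hx hx'
        Pool.Agent.Strip051.G.I3_16_5_16.Tab.C.FB13.c_pp_303 noCut_B noExt_B F trivial trivial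

theorem FB13_pp_313 {κ x : ℝ} (hκ : κ * h0 = ken x) (hx : ((201326592 : ℕ) : ℝ) / S ≤ x) (hx' : x ≤ (((201326592 : ℕ) : ℝ) + (134217728 : ℕ)) / S) :
    TriB PP.cur (farS κ (h0 * x) (tbl tKF x) (tbl tL x)) 3 1 3 1 3 1 1 :=
  (sideF hx hx').farB (Or.inl rfl) (Or.inl rfl) fun y y' F =>
    farB_cert (s1 := true) (s2 := true) rfl hκ covF13 covF33 hx hx'
        Pool.Agent.Strip051.G.I3_16_5_16.Tab.C.FB13.c_pp_313 noCut_B noExt_B F trivial trivial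

theorem FB13_pm_001 {κ x : ℝ} (hκ : κ * h0 = ken x) (hx : ((201326592 : ℕ) : ℝ) / S ≤ x) (hx' : x ≤ (((201326592 : ℕ) : ℝ) + (134217728 : ℕ)) / S) :
    TriB PP.cur (farS κ (h0 * x) (tbl tKF x) (tbl tL x)) 0 0 1 1 3 1 (-1) :=
  (sideF hx hx').farB (Or.inl rfl) (Or.inr rfl) fun y y' F =>
    farB_cert (s1 := true) (s2 := false) rfl hκ covF10 covF31 hx hx'
        Pool.Agent.Strip051.G.I3_16_5_16.Tab.C.FB13.c_pm_001 noCut_B noExt_B F trivial trivial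

theorem FB13_pm_011 {κ x : ℝ} (hκ : κ * h0 = ken x) (hx : ((201326592 : ℕ) : ℝ) / S ≤ x) (hx' : x ≤ (((201326592 : ℕ) : ℝ) + (134217728 : ℕ)) / S) :
    TriB PP.cur (farS κ (h0 * x) (tbl tKF x) (tbl tL x)) 0 1 1 1 3 1 (-1) :=
  (sideF hx hx').farB (Or.inl rfl) (Or.inr rfl) fun y y' F =>
    farB_cert (s1 := true) (s2 := false) rfl hκ covF10 covF31 hx hx'
        Pool.Agent.Strip051.G.I3_16_5_16.Tab.C.FB13.c_pm_011 noCut_B noExt_B F trivial trivial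

theorem FB13_pm_012 {κ x : ℝ} (hκ : κ * h0 = ken x) (hx : ((201326592 : ℕ) : ℝ) / S ≤ x) (hx' : x ≤ (((201326592 : ℕ) : ℝ) + (134217728 : ℕ)) / S) :
    TriB PP.cur (farS κ (h0 * x) (tbl tKF x) (tbl tL x)) 0 1 2 1 3 1 (-1) :=
  (sideF hx hx').farB (Or.inl rfl) (Or.inr rfl) fun y y' F =>
    farB_cert (s1 := true) (s2 := false) rfl hκ covF10 covF32 hx hx'
        Pool.Agent.Strip051.G.I3_16_5_16.Tab.C.FB13.c_pm_012 noCut_B noExt_B F trivial trivial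

theorem FB13_pm_022 {κ x : ℝ} (hκ : κ * h0 = ken x) (hx : ((201326592 : ℕ) : ℝ) / S ≤ x) (hx' : x ≤ (((201326592 : ℕ) : ℝ) + (134217728 : ℕ)) / S) :
    TriB PP.cur (farS κ (h0 * x) (tbl tKF x) (tbl tL x)) 0 2 2 1 3 1 (-1) :=
  (sideF hx hx').farB (Or.inl rfl) (Or.inr rfl) fun y y' F =>
    farB_cert (s1 := true) (s2 := false) rfl hκ covF10 covF32 hx hx'
        Pool.Agent.Strip051.G.I3_16_5_16.Tab.C.FB13.c_pm_022 noCut_B noExt_B F trivial trivial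

theorem FB13_pm_023 {κ x : ℝ} (hκ : κ * h0 = ken x) (hx : ((201326592 : ℕ) : ℝ) / S ≤ x) (hx' : x ≤ (((201326592 : ℕ) : ℝ) + (134217728 : ℕ)) / S) :
    TriB PP.cur (farS κ (h0 * x) (tbl tKF x) (tbl tL x)) 0 2 3 1 3 1 (-1) :=
  (sideF hx hx').farB (Or.inl rfl) (Or.inr rfl) fun y y' F =>
    farB_cert (s1 := true) (s2 := false) rfl hκ covF10 covF33 hx hx'
        Pool.Agent.Strip051.G.I3_16_5_16.Tab.C.FB13.c_pm_023 noCut_B noExt_B F trivial trivial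

theorem FB13_pm_033 {κ x : ℝ} (hκ : κ * h0 = ken x) (hx : ((201326592 : ℕ) : ℝ) / S ≤ x) (hx' : x ≤ (((201326592 : ℕ) : ℝ) + (134217728 : ℕ)) / S) :
    TriB PP.cur (farS κ (h0 * x) (tbl tKF x) (tbl tL x)) 0 3 3 1 3 1 (-1) :=
  (sideF hx hx').farB (Or.inl rfl) (Or.inr rfl) fun y y' F =>
    farB_cert (s1 := true) (s2 := false) rfl hκ covF10 covF33 hx hx'
        Pool.Agent.Strip051.G.I3_16_5_16.Tab.C.FB13.c_pm_033 noCut_B noExt_B F trivial trivial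

theorem FB13_pm_101 {κ x : ℝ} (hκ : κ * h0 = ken x) (hx : ((201326592 : ℕ) : ℝ) / S ≤ x) (hx' : x ≤ (((201326592 : ℕ) : ℝ) + (134217728 : ℕ)) / S) :
    TriB PP.cur (farS κ (h0 * x) (tbl tKF x) (tbl tL x)) 1 0 1 1 3 1 (-1) :=
  (sideF hx hx').farB (Or.inl rfl) (Or.inr rfl) fun y y' F =>
    farB_cert (s1 := true) (s2 := false) rfl hκ covF11 covF31 hx hx'
        Pool.Agent.Strip051.G.I3_16_5_16.Tab.C.FB13.c_pm_101 noCut_B noExt_B F trivial trivial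

theorem FB13_pm_102 {κ x : ℝ} (hκ : κ * h0 = ken x) (hx : ((201326592 : ℕ) : ℝ) / S ≤ x) (hx' : x ≤ (((201326592 : ℕ) : ℝ) + (134217728 : ℕ)) / S) :
    TriB PP.cur (farS κ (h0 * x) (tbl tKF x) (tbl tL x)) 1 0 2 1 3 1 (-1) :=
  (sideF hx hx').farB (Or.inl rfl) (Or.inr rfl) fun y y' F =>
    farB_cert (s1 := true) (s2 := false) rfl hκ covF11 covF32 hx hx'
        Pool.Agent.Strip051.G.I3_16_5_16.Tab.C.FB13.c_pm_102 noCut_B noExt_B F trivial trivial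

theorem FB13_pm_112 {κ x : ℝ} (hκ : κ * h0 = ken x) (hx : ((201326592 : ℕ) : ℝ) / S ≤ x) (hx' : x ≤ (((201326592 : ℕ) : ℝ) + (134217728 : ℕ)) / S) :
    TriB PP.cur (farS κ (h0 * x) (tbl tKF x) (tbl tL x)) 1 1 2 1 3 1 (-1) :=
  (sideF hx hx').farB (Or.inl rfl) (Or.inr rfl) fun y y' F =>
    farB_cert (s1 := true) (s2 := false) rfl hκ covF11 covF32 hx hx'
        Pool.Agent.Strip051.G.I3_16_5_16.Tab.C.FB13.c_pm_112 noCut_B noExt_B F trivial trivial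

theorem FB13_pm_113 {κ x : ℝ} (hκ : κ * h0 = ken x) (hx : ((201326592 : ℕ) : ℝ) / S ≤ x) (hx' : x ≤ (((201326592 : ℕ) : ℝ) + (134217728 : ℕ)) / S) :
    TriB PP.cur (farS κ (h0 * x) (tbl tKF x) (tbl tL x)) 1 1 3 1 3 1 (-1) :=
  (sideF hx hx').farB (Or.inl rfl) (Or.inr rfl) fun y y' F =>
    farB_cert (s1 := true) (s2 := false) rfl hκ covF11 covF33 hx hx'
        Pool.Agent.Strip051.G.I3_16_5_16.Tab.C.FB13.c_pm_113 noCut_B noExt_B F trivial trivial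

theorem FB13_pm_123 {κ x : ℝ} (hκ : κ * h0 = ken x) (hx : ((201326592 : ℕ) : ℝ) / S ≤ x) (hx' : x ≤ (((201326592 : ℕ) : ℝ) + (134217728 : ℕ)) / S) :
    TriB PP.cur (farS κ (h0 * x) (tbl tKF x) (tbl tL x)) 1 2 3 1 3 1 (-1) :=
  (sideF hx hx').farB (Or.inl rfl) (Or.inr rfl) fun y y' F =>
    farB_cert (s1 := true) (s2 := false) rfl hκ covF11 covF33 hx hx'
        Pool.Agent.Strip051.G.I3_16_5_16.Tab.C.FB13.c_pm_123 noCut_B noExt_B F trivial trivial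

theorem FB13_pm_133 {κ x : ℝ} (hκ : κ * h0 = ken x) (hx : ((201326592 : ℕ) : ℝ) / S ≤ x) (hx' : x ≤ (((201326592 : ℕ) : ℝ) + (134217728 : ℕ)) / S) :
    TriB PP.cur (farS κ (h0 * x) (tbl tKF x) (tbl tL x)) 1 3 3 1 3 1 (-1) :=
  (sideF hx hx').farB (Or.inl rfl) (Or.inr rfl) fun y y' F =>
    farB_cert (s1 := true) (s2 := false) rfl hκ covF11 covF33 hx hx'
        Pool.Agent.Strip051.G.I3_16_5_16.Tab.C.FB13.c_pm_133 noCut_B noExt_B F trivial trivial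

theorem FB13_pm_202 {κ x : ℝ} (hκ : κ * h0 = ken x) (hx : ((201326592 : ℕ) : ℝ) / S ≤ x) (hx' : x ≤ (((201326592 : ℕ) : ℝ) + (134217728 : ℕ)) / S) :
    TriB PP.cur (farS κ (h0 * x) (tbl tKF x) (tbl tL x)) 2 0 2 1 3 1 (-1) :=
  (sideF hx hx').farB (Or.inl rfl) (Or.inr rfl) fun y y' F =>
    (lt_or_ge (h0 * y) 1).elim
      (fun h => farB_cert (s1 := true) (s2 := false) rfl hκ covF12a covF32 hx hx'
        Pool.Agent.Strip051.G.I3_16_5_16.Tab.C.FB13.c_pm_202_a noCut_B noExt_B F h trivial)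
      (fun h => farB_cert (s1 := true) (s2 := false) rfl hκ covF12b covF32 hx hx'
        Pool.Agent.Strip051.G.I3_16_5_16.Tab.C.FB13.c_pm_202_b noCut_B noExt_B F h trivial)

theorem FB13_pm_203 {κ x : ℝ} (hκ : κ * h0 = ken x) (hx : ((201326592 : ℕ) : ℝ) / S ≤ x) (hx' : x ≤ (((201326592 : ℕ) : ℝ) + (134217728 : ℕ)) / S) :
    TriB PP.cur (farS κ (h0 * x) (tbl tKF x) (tbl tL x)) 2 0 3 1 3 1 (-1) :=
  (sideF hx hx').farB (Or.inl rfl) (Or.inr rfl) fun y y' F =>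
    (lt_or_ge (h0 * y) 1).elim
      (fun h => farB_cert (s1 := true) (s2 := false) rfl hκ covF12a covF33 hx hx'
        Pool.Agent.Strip051.G.I3_16_5_16.Tab.C.FB13.c_pm_203_a noCut_B noExt_B F h trivial)
      (fun h => farB_cert (s1 := true) (s2 := false) rfl hκ covF12b covF33 hx hx'
        Pool.Agent.Strip051.G.I3_16_5_16.Tab.C.FB13.c_pm_203_b noCut_B noExt_B F h trivial)

theorem FB13_pm_213 {κ x : ℝ} (hκ : κ * h0 = ken x) (hx : ((201326592 : ℕ) : ℝ) / S ≤ x) (hx' : x ≤ (((201326592 : ℕ) : ℝ) + (134217728 : ℕ)) / S) :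
    TriB PP.cur (farS κ (h0 * x) (tbl tKF x) (tbl tL x)) 2 1 3 1 3 1 (-1) :=
  (sideF hx hx').farB (Or.inl rfl) (Or.inr rfl) fun y y' F =>
    (lt_or_ge (h0 * y) 1).elim
      (fun h => farB_cert (s1 := true) (s2 := false) rfl hκ covF12a covF33 hx hx'
        Pool.Agent.Strip051.G.I3_16_5_16.Tab.C.FB13.c_pm_213_a (cutB_cons (Pool.Agent.Strip051.G.I3_16_5_16.Tab.alt12F_B213_13m hκ hx hx') cutB_nil) noExt_B F h trivial)
      (fun h => farB_cert (s1 := true) (s2 := false) rfl hκ covF12b covF33 hx hx'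
        Pool.Agent.Strip051.G.I3_16_5_16.Tab.C.FB13.c_pm_213_b (cutB_cons (Pool.Agent.Strip051.G.I3_16_5_16.Tab.alt12F_B213_13m hκ hx hx') cutB_nil) noExt_B F h trivial)

theorem FB13_pm_303 {κ x : ℝ} (hκ : κ * h0 = ken x) (hx : ((201326592 : ℕ) : ℝ) / S ≤ x) (hx' : x ≤ (((201326592 : ℕ) : ℝ) + (134217728 : ℕ)) / S) :
    TriB PP.cur (farS κ (h0 * x) (tbl tKF x) (tbl tL x)) 3 0 3 1 3 1 (-1) :=
  (sideF hx hx').farB (Or.inl rfl) (Or.inr rfl) fun y y' F =>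
    farB_cert (s1 := true) (s2 := false) rfl hκ covF13 covF33 hx hx'
        Pool.Agent.Strip051.G.I3_16_5_16.Tab.C.FB13.c_pm_303 noCut_B noExt_B F trivial trivial

theorem FB13_pm_313 {κ x : ℝ} (hκ : κ * h0 = ken x) (hx : ((201326592 : ℕ) : ℝ) / S ≤ x) (hx' : x ≤ (((201326592 : ℕ) : ℝ) + (134217728 : ℕ)) / S) :
    TriB PP.cur (farS κ (h0 * x) (tbl tKF x) (tbl tL x)) 3 1 3 1 3 1 (-1) :=
  (sideF hx hx').farB (Or.inl rfl) (Or.inr rfl) fun y y' F =>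
    farB_cert (s1 := true) (s2 := false) rfl hκ covF13 covF33 hx hx'
        Pool.Agent.Strip051.G.I3_16_5_16.Tab.C.FB13.c_pm_313 noCut_B noExt_B F trivial trivial

theorem FB13_mm_001 {κ x : ℝ} (hκ : κ * h0 = ken x) (hx : ((201326592 : ℕ) : ℝ) / S ≤ x) (hx' : x ≤ (((201326592 : ℕ) : ℝ) + (134217728 : ℕ)) / S) :
    TriB PP.cur (farS κ (h0 * x) (tbl tKF x) (tbl tL x)) 0 0 1 1 3 (-1) (-1) :=
  (sideF hx hx').farB (Or.inr rfl) (Or.inr rfl) fun y y' F =>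
    farB_cert (s1 := false) (s2 := false) rfl hκ covF10 covF31 hx hx'
        Pool.Agent.Strip051.G.I3_16_5_16.Tab.C.FB13.c_mm_001 noCut_B noExt_B F trivial trivial

theorem FB13_mm_011 {κ x : ℝ} (hκ : κ * h0 = ken x) (hx : ((201326592 : ℕ) : ℝ) / S ≤ x) (hx' : x ≤ (((201326592 : ℕ) : ℝ) + (134217728 : ℕ)) / S) :
    TriB PP.cur (farS κ (h0 * x) (tbl tKF x) (tbl tL x)) 0 1 1 1 3 (-1) (-1) :=
  (sideF hx hx').farB (Or.inr rfl) (Or.inr rfl) fun y y' F =>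
    farB_cert (s1 := false) (s2 := false) rfl hκ covF10 covF31 hx hx'
        Pool.Agent.Strip051.G.I3_16_5_16.Tab.C.FB13.c_mm_011 noCut_B noExt_B F trivial trivial

theorem FB13_mm_012 {κ x : ℝ} (hκ : κ * h0 = ken x) (hx : ((201326592 : ℕ) : ℝ) / S ≤ x) (hx' : x ≤ (((201326592 : ℕ) : ℝ) + (134217728 : ℕ)) / S) :
    TriB PP.cur (farS κ (h0 * x) (tbl tKF x) (tbl tL x)) 0 1 2 1 3 (-1) (-1) :=
  (sideF hx hx').farB (Or.inr rfl) (Or.inr rfl) fun y y' F =>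
    farB_cert (s1 := false) (s2 := false) rfl hκ covF10 covF32 hx hx'
        Pool.Agent.Strip051.G.I3_16_5_16.Tab.C.FB13.c_mm_012 noCut_B noExt_B F trivial trivial

theorem FB13_mm_022 {κ x : ℝ} (hκ : κ * h0 = ken x) (hx : ((201326592 : ℕ) : ℝ) / S ≤ x) (hx' : x ≤ (((201326592 : ℕ) : ℝ) + (134217728 : ℕ)) / S) :
    TriB PP.cur (farS κ (h0 * x) (tbl tKF x) (tbl tL x)) 0 2 2 1 3 (-1) (-1) :=
  (sideF hx hx').farB (Or.inr rfl) (Or.inr rfl) fun y y' F =>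
    farB_cert (s1 := false) (s2 := false) rfl hκ covF10 covF32 hx hx'
        Pool.Agent.Strip051.G.I3_16_5_16.Tab.C.FB13.c_mm_022 noCut_B noExt_B F trivial trivial

theorem FB13_mm_023 {κ x : ℝ} (hκ : κ * h0 = ken x) (hx : ((201326592 : ℕ) : ℝ) / S ≤ x) (hx' : x ≤ (((201326592 : ℕ) : ℝ) + (134217728 : ℕ)) / S) :
    TriB PP.cur (farS κ (h0 * x) (tbl tKF x) (tbl tL x)) 0 2 3 1 3 (-1) (-1) :=
  (sideF hx hx').farB (Or.inr rfl) (Or.inr rfl) fun y y' F =>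
    farB_cert (s1 := false) (s2 := false) rfl hκ covF10 covF33 hx hx'
        Pool.Agent.Strip051.G.I3_16_5_16.Tab.C.FB13.c_mm_023 noCut_B noExt_B F trivial trivial

theorem FB13_mm_033 {κ x : ℝ} (hκ : κ * h0 = ken x) (hx : ((201326592 : ℕ) : ℝ) / S ≤ x) (hx' : x ≤ (((201326592 : ℕ) : ℝ) + (134217728 : ℕ)) / S) :
    TriB PP.cur (farS κ (h0 * x) (tbl tKF x) (tbl tL x)) 0 3 3 1 3 (-1) (-1) :=
  (sideF hx hx').farB (Or.inr rfl) (Or.inr rfl) fun y y' F =>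
    farB_cert (s1 := false) (s2 := false) rfl hκ covF10 covF33 hx hx'
        Pool.Agent.Strip051.G.I3_16_5_16.Tab.C.FB13.c_mm_033 noCut_B noExt_B F trivial trivial

theorem FB13_mm_101 {κ x : ℝ} (hκ : κ * h0 = ken x) (hx : ((201326592 : ℕ) : ℝ) / S ≤ x) (hx' : x ≤ (((201326592 : ℕ) : ℝ) + (134217728 : ℕ)) / S) :
    TriB PP.cur (farS κ (h0 * x) (tbl tKF x) (tbl tL x)) 1 0 1 1 3 (-1) (-1) :=
  (sideF hx hx').farB (Or.inr rfl) (Or.inr rfl) fun y y' F =>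
    farB_cert (s1 := false) (s2 := false) rfl hκ covF11 covF31 hx hx'
        Pool.Agent.Strip051.G.I3_16_5_16.Tab.C.FB13.c_mm_101 noCut_B noExt_B F trivial trivial

theorem FB13_mm_102 {κ x : ℝ} (hκ : κ * h0 = ken x) (hx : ((201326592 : ℕ) : ℝ) / S ≤ x) (hx' : x ≤ (((201326592 : ℕ) : ℝ) + (134217728 : ℕ)) / S) :
    TriB PP.cur (farS κ (h0 * x) (tbl tKF x) (tbl tL x)) 1 0 2 1 3 (-1) (-1) :=
  (sideF hx hx').farB (Or.inr rfl) (Or.inr rfl) fun y y' F =>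
    farB_cert (s1 := false) (s2 := false) rfl hκ covF11 covF32 hx hx'
        Pool.Agent.Strip051.G.I3_16_5_16.Tab.C.FB13.c_mm_102 noCut_B noExt_B F trivial trivial

theorem FB13_mm_112 {κ x : ℝ} (hκ : κ * h0 = ken x) (hx : ((201326592 : ℕ) : ℝ) / S ≤ x) (hx' : x ≤ (((201326592 : ℕ) : ℝ) + (134217728 : ℕ)) / S) :
    TriB PP.cur (farS κ (h0 * x) (tbl tKF x) (tbl tL x)) 1 1 2 1 3 (-1) (-1) :=
  (sideF hx hx').farB (Or.inr rfl) (Or.inr rfl) fun y y' F =>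
    farB_cert (s1 := false) (s2 := false) rfl hκ covF11 covF32 hx hx'
        Pool.Agent.Strip051.G.I3_16_5_16.Tab.C.FB13.c_mm_112 noCut_B noExt_B F trivial trivial

theorem FB13_mm_113 {κ x : ℝ} (hκ : κ * h0 = ken x) (hx : ((201326592 : ℕ) : ℝ) / S ≤ x) (hx' : x ≤ (((201326592 : ℕ) : ℝ) + (134217728 : ℕ)) / S) :
    TriB PP.cur (farS κ (h0 * x) (tbl tKF x) (tbl tL x)) 1 1 3 1 3 (-1) (-1) :=
  (sideF hx hx').farB (Or.inr rfl) (Or.inr rfl) fun y y' F =>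
    farB_cert (s1 := false) (s2 := false) rfl hκ covF11 covF33 hx hx'
        Pool.Agent.Strip051.G.I3_16_5_16.Tab.C.FB13.c_mm_113 noCut_B noExt_B F trivial trivial

theorem FB13_mm_123 {κ x : ℝ} (hκ : κ * h0 = ken x) (hx : ((201326592 : ℕ) : ℝ) / S ≤ x) (hx' : x ≤ (((201326592 : ℕ) : ℝ) + (134217728 : ℕ)) / S) :
    TriB PP.cur (farS κ (h0 * x) (tbl tKF x) (tbl tL x)) 1 2 3 1 3 (-1) (-1) :=
  (sideF hx hx').farB (Or.inr rfl) (Or.inr rfl) fun y y' F =>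
    farB_cert (s1 := false) (s2 := false) rfl hκ covF11 covF33 hx hx'
        Pool.Agent.Strip051.G.I3_16_5_16.Tab.C.FB13.c_mm_123 noCut_B noExt_B F trivial trivial

theorem FB13_mm_133 {κ x : ℝ} (hκ : κ * h0 = ken x) (hx : ((201326592 : ℕ) : ℝ) / S ≤ x) (hx' : x ≤ (((201326592 : ℕ) : ℝ) + (134217728 : ℕ)) / S) :
    TriB PP.cur (farS κ (h0 * x) (tbl tKF x) (tbl tL x)) 1 3 3 1 3 (-1) (-1) :=
  (sideF hx hx').farB (Or.inr rfl) (Or.inr rfl) fun y y' F =>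
    farB_cert (s1 := false) (s2 := false) rfl hκ covF11 covF33 hx hx'
        Pool.Agent.Strip051.G.I3_16_5_16.Tab.C.FB13.c_mm_133 noCut_B noExt_B F trivial trivial

theorem FB13_mm_202 {κ x : ℝ} (hκ : κ * h0 = ken x) (hx : ((201326592 : ℕ) : ℝ) / S ≤ x) (hx' : x ≤ (((201326592 : ℕ) : ℝ) + (134217728 : ℕ)) / S) :
    TriB PP.cur (farS κ (h0 * x) (tbl tKF x) (tbl tL x)) 2 0 2 1 3 (-1) (-1) :=
  (sideF hx hx').farB (Or.inr rfl) (Or.inr rfl) fun y y' F =>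
    (lt_or_ge (h0 * y) 1).elim
      (fun h => farB_cert (s1 := false) (s2 := false) rfl hκ covF12a covF32 hx hx'
        Pool.Agent.Strip051.G.I3_16_5_16.Tab.C.FB13.c_mm_202_a noCut_B noExt_B F h trivial)
      (fun h => farB_cert (s1 := false) (s2 := false) rfl hκ covF12b covF32 hx hx'
        Pool.Agent.Strip051.G.I3_16_5_16.Tab.C.FB13.c_mm_202_b noCut_B noExt_B F h trivial)

theorem FB13_mm_203 {κ x : ℝ} (hκ : κ * h0 = ken x) (hx : ((201326592 : ℕ) : ℝ) / S ≤ x) (hx' : x ≤ (((201326592 : ℕ) : ℝ) + (134217728 : ℕ)) / S) :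
    TriB PP.cur (farS κ (h0 * x) (tbl tKF x) (tbl tL x)) 2 0 3 1 3 (-1) (-1) :=
  (sideF hx hx').farB (Or.inr rfl) (Or.inr rfl) fun y y' F =>
    (lt_or_ge (h0 * y) 1).elim
      (fun h => farB_cert (s1 := false) (s2 := false) rfl hκ covF12a covF33 hx hx'
        Pool.Agent.Strip051.G.I3_16_5_16.Tab.C.FB13.c_mm_203_a noCut_B noExt_B F h trivial)
      (fun h => farB_cert (s1 := false) (s2 := false) rfl hκ covF12b covF33 hx hx'
        Pool.Agent.Strip051.G.I3_16_5_16.Tab.C.FB13.c_mm_203_b noCut_B noExt_B F h trivial)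

theorem FB13_mm_213 {κ x : ℝ} (hκ : κ * h0 = ken x) (hx : ((201326592 : ℕ) : ℝ) / S ≤ x) (hx' : x ≤ (((201326592 : ℕ) : ℝ) + (134217728 : ℕ)) / S) :
    TriB PP.cur (farS κ (h0 * x) (tbl tKF x) (tbl tL x)) 2 1 3 1 3 (-1) (-1) :=
  (sideF hx hx').farB (Or.inr rfl) (Or.inr rfl) fun y y' F =>
    (lt_or_ge (h0 * y) 1).elim
      (fun h => farB_cert (s1 := false) (s2 := false) rfl hκ covF12a covF33 hx hx'
        Pool.Agent.Strip051.G.I3_16_5_16.Tab.C.FB13.c_mm_213_a noCut_B noExt_B F h trivial)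
      (fun h => farB_cert (s1 := false) (s2 := false) rfl hκ covF12b covF33 hx hx'
        Pool.Agent.Strip051.G.I3_16_5_16.Tab.C.FB13.c_mm_213_b noCut_B noExt_B F h trivial)

theorem FB13_mm_303 {κ x : ℝ} (hκ : κ * h0 = ken x) (hx : ((201326592 : ℕ) : ℝ) / S ≤ x) (hx' : x ≤ (((201326592 : ℕ) : ℝ) + (134217728 : ℕ)) / S) :
    TriB PP.cur (farS κ (h0 * x) (tbl tKF x) (tbl tL x)) 3 0 3 1 3 (-1) (-1) :=
  (sideF hx hx').farB (Or.inr rfl) (Or.inr rfl) fun y y' F =>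
    farB_cert (s1 := false) (s2 := false) rfl hκ covF13 covF33 hx hx'
        Pool.Agent.Strip051.G.I3_16_5_16.Tab.C.FB13.c_mm_303 noCut_B noExt_B F trivial trivial

theorem FB13_mm_313 {κ x : ℝ} (hκ : κ * h0 = ken x) (hx : ((201326592 : ℕ) : ℝ) / S ≤ x) (hx' : x ≤ (((201326592 : ℕ) : ℝ) + (134217728 : ℕ)) / S) :
    TriB PP.cur (farS κ (h0 * x) (tbl tKF x) (tbl tL x)) 3 1 3 1 3 (-1) (-1) :=
  (sideF hx hx').farB (Or.inr rfl) (Or.inr rfl) fun y y' F =>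
    farB_cert (s1 := false) (s2 := false) rfl hκ covF13 covF33 hx hx'
        Pool.Agent.Strip051.G.I3_16_5_16.Tab.C.FB13.c_mm_313 noCut_B noExt_B F trivial trivial

theorem FB13 {κ x : ℝ} (hκ : κ * h0 = ken x) (hx : ((201326592 : ℕ) : ℝ) / S ≤ x) (hx' : x ≤ (((201326592 : ℕ) : ℝ) + (134217728 : ℕ)) / S) : AllTB PP.cur (farS κ (h0 * x) (tbl tKF x) (tbl tL x)) 1 3 where
  pp := all17 (Q := fun a b c => TriB PP.cur (farS κ (h0 * x) (tbl tKF x) (tbl tL x)) a b c 1 3 1 1)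
    (FB13_pp_001 hκ hx hx') (FB13_pp_011 hκ hx hx') (FB13_pp_012 hκ hx hx') (FB13_pp_022 hκ hx hx') (FB13_pp_023 hκ hx hx') (FB13_pp_033 hκ hx hx') (FB13_pp_101 hκ hx hx') (FB13_pp_102 hκ hx hx') (FB13_pp_112 hκ hx hx') (FB13_pp_113 hκ hx hx') (FB13_pp_123 hκ hx hx') (FB13_pp_133 hκ hx hx') (FB13_pp_202 hκ hx hx') (FB13_pp_203 hκ hx hx') (FB13_pp_213 hκ hx hx') (FB13_pp_303 hκ hx hx') (FB13_pp_313 hκ hx hx')
  pm := all17 (Q := fun a b c => TriB PP.cur (farS κ (h0 * x) (tbl tKF x) (tbl tL x)) a b c 1 3 1 (-1))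
    (FB13_pm_001 hκ hx hx') (FB13_pm_011 hκ hx hx') (FB13_pm_012 hκ hx hx') (FB13_pm_022 hκ hx hx') (FB13_pm_023 hκ hx hx') (FB13_pm_033 hκ hx hx') (FB13_pm_101 hκ hx hx') (FB13_pm_102 hκ hx hx') (FB13_pm_112 hκ hx hx') (FB13_pm_113 hκ hx hx') (FB13_pm_123 hκ hx hx') (FB13_pm_133 hκ hx hx') (FB13_pm_202 hκ hx hx') (FB13_pm_203 hκ hx hx') (FB13_pm_213 hκ hx hx') (FB13_pm_303 hκ hx hx') (FB13_pm_313 hκ hx hx')
  mm := all17 (Q := fun a b c => TriB PP.cur (farS κ (h0 * x) (tbl tKF x) (tbl tL x)) a b c 1 3 (-1) (-1))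
    (FB13_mm_001 hκ hx hx') (FB13_mm_011 hκ hx hx') (FB13_mm_012 hκ hx hx') (FB13_mm_022 hκ hx hx') (FB13_mm_023 hκ hx hx') (FB13_mm_033 hκ hx hx') (FB13_mm_101 hκ hx hx') (FB13_mm_102 hκ hx hx') (FB13_mm_112 hκ hx hx') (FB13_mm_113 hκ hx hx') (FB13_mm_123 hκ hx hx') (FB13_mm_133 hκ hx hx') (FB13_mm_202 hκ hx hx') (FB13_mm_203 hκ hx hx') (FB13_mm_213 hκ hx hx') (FB13_mm_303 hκ hx hx') (FB13_mm_313 hκ hx hx')

theorem FB14_pp_001 {κ x : ℝ} (hκ : κ * h0 = ken x) (hx : ((201326592 : ℕ) : ℝ) / S ≤ x) (hx' : x ≤ (((201326592 : ℕ) : ℝ) + (134217728 : ℕ)) / S) :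
    TriB PP.cur (farS κ (h0 * x) (tbl tKF x) (tbl tL x)) 0 0 1 1 4 1 1 :=
  (sideF hx hx').farB (Or.inl rfl) (Or.inl rfl) fun y y' F =>
    farB_cert (s1 := true) (s2 := true) rfl hκ covF10 covF41 hx hx'
        Pool.Agent.Strip051.G.I3_16_5_16.Tab.C.FB14.c_pp_001 noCut_B noExt_B F trivial trivial

theorem FB14_pp_011 {κ x : ℝ} (hκ : κ * h0 = ken x) (hx : ((201326592 : ℕ) : ℝ) / S ≤ x) (hx' : x ≤ (((201326592 : ℕ) : ℝ) + (134217728 : ℕ)) / S) :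
    TriB PP.cur (farS κ (h0 * x) (tbl tKF x) (tbl tL x)) 0 1 1 1 4 1 1 :=
  (sideF hx hx').farB (Or.inl rfl) (Or.inl rfl) fun y y' F =>
    farB_cert (s1 := true) (s2 := true) rfl hκ covF10 covF41 hx hx'
        Pool.Agent.Strip051.G.I3_16_5_16.Tab.C.FB14.c_pp_011 (cutB_cons (Pool.Agent.Strip051.G.I3_16_5_16.Tab.altF_B011L_14 hκ hx hx') cutB_nil) noExt_B F trivial trivial

theorem FB14_pp_012 {κ x : ℝ} (hκ : κ * h0 = ken x) (hx : ((201326592 : ℕ) : ℝ) / S ≤ x) (hx' : x ≤ (((201326592 : ℕ) : ℝ) + (134217728 : ℕ)) / S) :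
    TriB PP.cur (farS κ (h0 * x) (tbl tKF x) (tbl tL x)) 0 1 2 1 4 1 1 :=
  (sideF hx hx').farB (Or.inl rfl) (Or.inl rfl) fun y y' F =>
    farB_cert (s1 := true) (s2 := true) rfl hκ covF10 covF42 hx hx'
        Pool.Agent.Strip051.G.I3_16_5_16.Tab.C.FB14.c_pp_012 noCut_B noExt_B F trivial trivial

theorem FB14_pp_022 {κ x : ℝ} (hκ : κ * h0 = ken x) (hx : ((201326592 : ℕ) : ℝ) / S ≤ x) (hx' : x ≤ (((201326592 : ℕ) : ℝ) + (134217728 : ℕ)) / S) :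
    TriB PP.cur (farS κ (h0 * x) (tbl tKF x) (tbl tL x)) 0 2 2 1 4 1 1 :=
  (sideF hx hx').farB (Or.inl rfl) (Or.inl rfl) fun y y' F =>
    farB_cert (s1 := true) (s2 := true) rfl hκ covF10 covF42 hx hx'
        Pool.Agent.Strip051.G.I3_16_5_16.Tab.C.FB14.c_pp_022 noCut_B noExt_B F trivial trivial

theorem FB14_pp_023 {κ x : ℝ} (hκ : κ * h0 = ken x) (hx : ((201326592 : ℕ) : ℝ) / S ≤ x) (hx' : x ≤ (((201326592 : ℕ) : ℝ) + (134217728 : ℕ)) / S) :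
    TriB PP.cur (farS κ (h0 * x) (tbl tKF x) (tbl tL x)) 0 2 3 1 4 1 1 :=
  (sideF hx hx').farB (Or.inl rfl) (Or.inl rfl) fun y y' F =>
    farB_cert (s1 := true) (s2 := true) rfl hκ covF10 covF43 hx hx'
        Pool.Agent.Strip051.G.I3_16_5_16.Tab.C.FB14.c_pp_023 noCut_B noExt_B F trivial trivial

theorem FB14_pp_033 {κ x : ℝ} (hκ : κ * h0 = ken x) (hx : ((201326592 : ℕ) : ℝ) / S ≤ x) (hx' : x ≤ (((201326592 : ℕ) : ℝ) + (134217728 : ℕ)) / S) :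
    TriB PP.cur (farS κ (h0 * x) (tbl tKF x) (tbl tL x)) 0 3 3 1 4 1 1 :=
  (sideF hx hx').farB (Or.inl rfl) (Or.inl rfl) fun y y' F =>
    farB_cert (s1 := true) (s2 := true) rfl hκ covF10 covF43 hx hx'
        Pool.Agent.Strip051.G.I3_16_5_16.Tab.C.FB14.c_pp_033 noCut_B noExt_B F trivial trivial

theorem FB14_pp_101 {κ x : ℝ} (hκ : κ * h0 = ken x) (hx : ((201326592 : ℕ) : ℝ) / S ≤ x) (hx' : x ≤ (((201326592 : ℕ) : ℝ) + (134217728 : ℕ)) / S) :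
    TriB PP.cur (farS κ (h0 * x) (tbl tKF x) (tbl tL x)) 1 0 1 1 4 1 1 :=
  (sideF hx hx').farB (Or.inl rfl) (Or.inl rfl) fun y y' F =>
    farB_cert (s1 := true) (s2 := true) rfl hκ covF11 covF41 hx hx'
        Pool.Agent.Strip051.G.I3_16_5_16.Tab.C.FB14.c_pp_101 noCut_B noExt_B F trivial trivial

theorem FB14_pp_102 {κ x : ℝ} (hκ : κ * h0 = ken x) (hx : ((201326592 : ℕ) : ℝ) / S ≤ x) (hx' : x ≤ (((201326592 : ℕ) : ℝ) + (134217728 : ℕ)) / S) :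
    TriB PP.cur (farS κ (h0 * x) (tbl tKF x) (tbl tL x)) 1 0 2 1 4 1 1 :=
  (sideF hx hx').farB (Or.inl rfl) (Or.inl rfl) fun y y' F =>
    farB_cert (s1 := true) (s2 := true) rfl hκ covF11 covF42 hx hx'
        Pool.Agent.Strip051.G.I3_16_5_16.Tab.C.FB14.c_pp_102 noCut_B noExt_B F trivial trivial

theorem FB14_pp_112 {κ x : ℝ} (hκ : κ * h0 = ken x) (hx : ((201326592 : ℕ) : ℝ) / S ≤ x) (hx' : x ≤ (((201326592 : ℕ) : ℝ) + (134217728 : ℕ)) / S) :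
    TriB PP.cur (farS κ (h0 * x) (tbl tKF x) (tbl tL x)) 1 1 2 1 4 1 1 :=
  (sideF hx hx').farB (Or.inl rfl) (Or.inl rfl) fun y y' F =>
    farB_cert (s1 := true) (s2 := true) rfl hκ covF11 covF42 hx hx'
        Pool.Agent.Strip051.G.I3_16_5_16.Tab.C.FB14.c_pp_112 noCut_B noExt_B F trivial trivial

theorem FB14_pp_113 {κ x : ℝ} (hκ : κ * h0 = ken x) (hx : ((201326592 : ℕ) : ℝ) / S ≤ x) (hx' : x ≤ (((201326592 : ℕ) : ℝ) + (134217728 : ℕ)) / S) :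
    TriB PP.cur (farS κ (h0 * x) (tbl tKF x) (tbl tL x)) 1 1 3 1 4 1 1 :=
  (sideF hx hx').farB (Or.inl rfl) (Or.inl rfl) fun y y' F =>
    farB_cert (s1 := true) (s2 := true) rfl hκ covF11 covF43 hx hx'
        Pool.Agent.Strip051.G.I3_16_5_16.Tab.C.FB14.c_pp_113 noCut_B noExt_B F trivial trivial

theorem FB14_pp_123 {κ x : ℝ} (hκ : κ * h0 = ken x) (hx : ((201326592 : ℕ) : ℝ) / S ≤ x) (hx' : x ≤ (((201326592 : ℕ) : ℝ) + (134217728 : ℕ)) / S) :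
    TriB PP.cur (farS κ (h0 * x) (tbl tKF x) (tbl tL x)) 1 2 3 1 4 1 1 :=
  (sideF hx hx').farB (Or.inl rfl) (Or.inl rfl) fun y y' F =>
    farB_cert (s1 := true) (s2 := true) rfl hκ covF11 covF43 hx hx'
        Pool.Agent.Strip051.G.I3_16_5_16.Tab.C.FB14.c_pp_123 noCut_B noExt_B F trivial trivial

theorem FB14_pp_133 {κ x : ℝ} (hκ : κ * h0 = ken x) (hx : ((201326592 : ℕ) : ℝ) / S ≤ x) (hx' : x ≤ (((201326592 : ℕ) : ℝ) + (134217728 : ℕ)) / S) :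
    TriB PP.cur (farS κ (h0 * x) (tbl tKF x) (tbl tL x)) 1 3 3 1 4 1 1 :=
  (sideF hx hx').farB (Or.inl rfl) (Or.inl rfl) fun y y' F =>
    farB_cert (s1 := true) (s2 := true) rfl hκ covF11 covF43 hx hx'
        Pool.Agent.Strip051.G.I3_16_5_16.Tab.C.FB14.c_pp_133 noCut_B noExt_B F trivial trivial

theorem FB14_pp_202 {κ x : ℝ} (hκ : κ * h0 = ken x) (hx : ((201326592 : ℕ) : ℝ) / S ≤ x) (hx' : x ≤ (((201326592 : ℕ) : ℝ) + (134217728 : ℕ)) / S) :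
    TriB PP.cur (farS κ (h0 * x) (tbl tKF x) (tbl tL x)) 2 0 2 1 4 1 1 :=
  (sideF hx hx').farB (Or.inl rfl) (Or.inl rfl) fun y y' F =>
    (lt_or_ge (h0 * y) 1).elim
      (fun h => farB_cert (s1 := true) (s2 := true) rfl hκ covF12a covF42 hx hx'
        Pool.Agent.Strip051.G.I3_16_5_16.Tab.C.FB14.c_pp_202_a noCut_B noExt_B F h trivial)
      (fun h => farB_cert (s1 := true) (s2 := true) rfl hκ covF12b covF42 hx hx'
        Pool.Agent.Strip051.G.I3_16_5_16.Tab.C.FB14.c_pp_202_b noCut_B noExt_B F h trivial)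

theorem FB14_pp_203 {κ x : ℝ} (hκ : κ * h0 = ken x) (hx : ((201326592 : ℕ) : ℝ) / S ≤ x) (hx' : x ≤ (((201326592 : ℕ) : ℝ) + (134217728 : ℕ)) / S) :
    TriB PP.cur (farS κ (h0 * x) (tbl tKF x) (tbl tL x)) 2 0 3 1 4 1 1 :=
  (sideF hx hx').farB (Or.inl rfl) (Or.inl rfl) fun y y' F =>
    (lt_or_ge (h0 * y) 1).elim
      (fun h => farB_cert (s1 := true) (s2 := true) rfl hκ covF12a covF43 hx hx'
        Pool.Agent.Strip051.G.I3_16_5_16.Tab.C.FB14.c_pp_203_a noCut_B noExt_B F h trivial)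
      (fun h => farB_cert (s1 := true) (s2 := true) rfl hκ covF12b covF43 hx hx'
        Pool.Agent.Strip051.G.I3_16_5_16.Tab.C.FB14.c_pp_203_b noCut_B noExt_B F h trivial)

theorem FB14_pp_213 {κ x : ℝ} (hκ : κ * h0 = ken x) (hx : ((201326592 : ℕ) : ℝ) / S ≤ x) (hx' : x ≤ (((201326592 : ℕ) : ℝ) + (134217728 : ℕ)) / S) :
    TriB PP.cur (farS κ (h0 * x) (tbl tKF x) (tbl tL x)) 2 1 3 1 4 1 1 :=
  (sideF hx hx').farB (Or.inl rfl) (Or.inl rfl) fun y y' F =>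
    (lt_or_ge (h0 * y) 1).elim
      (fun h => farB_cert (s1 := true) (s2 := true) rfl hκ covF12a covF43 hx hx'
        Pool.Agent.Strip051.G.I3_16_5_16.Tab.C.FB14.c_pp_213_a (cutB_cons (Pool.Agent.Strip051.G.I3_16_5_16.Tab.alt12F_B213_14p hκ hx hx') cutB_nil) noExt_B F h trivial)
      (fun h => farB_cert (s1 := true) (s2 := true) rfl hκ covF12b covF43 hx hx'
        Pool.Agent.Strip051.G.I3_16_5_16.Tab.C.FB14.c_pp_213_b (cutB_cons (Pool.Agent.Strip051.G.I3_16_5_16.Tab.alt12F_B213_14p hκ hx hx') cutB_nil) noExt_B F h trivial)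

theorem FB14_pp_303 {κ x : ℝ} (hκ : κ * h0 = ken x) (hx : ((201326592 : ℕ) : ℝ) / S ≤ x) (hx' : x ≤ (((201326592 : ℕ) : ℝ) + (134217728 : ℕ)) / S) :
    TriB PP.cur (farS κ (h0 * x) (tbl tKF x) (tbl tL x)) 3 0 3 1 4 1 1 :=
  (sideF hx hx').farB (Or.inl rfl) (Or.inl rfl) fun y y' F =>
    farB_cert (s1 := true) (s2 := true) rfl hκ covF13 covF43 hx hx'
        Pool.Agent.Strip051.G.I3_16_5_16.Tab.C.FB14.c_pp_303 noCut_B noExt_B F trivial trivial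

theorem FB14_pp_313 {κ x : ℝ} (hκ : κ * h0 = ken x) (hx : ((201326592 : ℕ) : ℝ) / S ≤ x) (hx' : x ≤ (((201326592 : ℕ) : ℝ) + (134217728 : ℕ)) / S) :
    TriB PP.cur (farS κ (h0 * x) (tbl tKF x) (tbl tL x)) 3 1 3 1 4 1 1 :=
  (sideF hx hx').farB (Or.inl rfl) (Or.inl rfl) fun y y' F =>
    farB_cert (s1 := true) (s2 := true) rfl hκ covF13 covF43 hx hx'
        Pool.Agent.Strip051.G.I3_16_5_16.Tab.C.FB14.c_pp_313 noCut_B noExt_B F trivial trivial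

theorem FB14_pm_001 {κ x : ℝ} (hκ : κ * h0 = ken x) (hx : ((201326592 : ℕ) : ℝ) / S ≤ x) (hx' : x ≤ (((201326592 : ℕ) : ℝ) + (134217728 : ℕ)) / S) :
    TriB PP.cur (farS κ (h0 * x) (tbl tKF x) (tbl tL x)) 0 0 1 1 4 1 (-1) :=
  (sideF hx hx').farB (Or.inl rfl) (Or.inr rfl) fun y y' F =>
    farB_cert (s1 := true) (s2 := false) rfl hκ covF10 covF41 hx hx'
        Pool.Agent.Strip051.G.I3_16_5_16.Tab.C.FB14.c_pm_001 noCut_B noExt_B F trivial trivial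

theorem FB14_pm_011 {κ x : ℝ} (hκ : κ * h0 = ken x) (hx : ((201326592 : ℕ) : ℝ) / S ≤ x) (hx' : x ≤ (((201326592 : ℕ) : ℝ) + (134217728 : ℕ)) / S) :
    TriB PP.cur (farS κ (h0 * x) (tbl tKF x) (tbl tL x)) 0 1 1 1 4 1 (-1) :=
  (sideF hx hx').farB (Or.inl rfl) (Or.inr rfl) fun y y' F =>
    farB_cert (s1 := true) (s2 := false) rfl hκ covF10 covF41 hx hx'
        Pool.Agent.Strip051.G.I3_16_5_16.Tab.C.FB14.c_pm_011 noCut_B noExt_B F trivial trivial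

theorem FB14_pm_012 {κ x : ℝ} (hκ : κ * h0 = ken x) (hx : ((201326592 : ℕ) : ℝ) / S ≤ x) (hx' : x ≤ (((201326592 : ℕ) : ℝ) + (134217728 : ℕ)) / S) :
    TriB PP.cur (farS κ (h0 * x) (tbl tKF x) (tbl tL x)) 0 1 2 1 4 1 (-1) :=
  (sideF hx hx').farB (Or.inl rfl) (Or.inr rfl) fun y y' F =>
    farB_cert (s1 := true) (s2 := false) rfl hκ covF10 covF42 hx hx'
        Pool.Agent.Strip051.G.I3_16_5_16.Tab.C.FB14.c_pm_012 noCut_B noExt_B F trivial trivial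

theorem FB14_pm_022 {κ x : ℝ} (hκ : κ * h0 = ken x) (hx : ((201326592 : ℕ) : ℝ) / S ≤ x) (hx' : x ≤ (((201326592 : ℕ) : ℝ) + (134217728 : ℕ)) / S) :
    TriB PP.cur (farS κ (h0 * x) (tbl tKF x) (tbl tL x)) 0 2 2 1 4 1 (-1) :=
  (sideF hx hx').farB (Or.inl rfl) (Or.inr rfl) fun y y' F =>
    farB_cert (s1 := true) (s2 := false) rfl hκ covF10 covF42 hx hx'
        Pool.Agent.Strip051.G.I3_16_5_16.Tab.C.FB14.c_pm_022 noCut_B noExt_B F trivial trivial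

theorem FB14_pm_023 {κ x : ℝ} (hκ : κ * h0 = ken x) (hx : ((201326592 : ℕ) : ℝ) / S ≤ x) (hx' : x ≤ (((201326592 : ℕ) : ℝ) + (134217728 : ℕ)) / S) :
    TriB PP.cur (farS κ (h0 * x) (tbl tKF x) (tbl tL x)) 0 2 3 1 4 1 (-1) :=
  (sideF hx hx').farB (Or.inl rfl) (Or.inr rfl) fun y y' F =>
    farB_cert (s1 := true) (s2 := false) rfl hκ covF10 covF43 hx hx'
        Pool.Agent.Strip051.G.I3_16_5_16.Tab.C.FB14.c_pm_023 noCut_B noExt_B F trivial trivial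

theorem FB14_pm_033 {κ x : ℝ} (hκ : κ * h0 = ken x) (hx : ((201326592 : ℕ) : ℝ) / S ≤ x) (hx' : x ≤ (((201326592 : ℕ) : ℝ) + (134217728 : ℕ)) / S) :
    TriB PP.cur (farS κ (h0 * x) (tbl tKF x) (tbl tL x)) 0 3 3 1 4 1 (-1) :=
  (sideF hx hx').farB (Or.inl rfl) (Or.inr rfl) fun y y' F =>
    farB_cert (s1 := true) (s2 := false) rfl hκ covF10 covF43 hx hx'
        Pool.Agent.Strip051.G.I3_16_5_16.Tab.C.FB14.c_pm_033 noCut_B noExt_B F trivial trivial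

theorem FB14_pm_101 {κ x : ℝ} (hκ : κ * h0 = ken x) (hx : ((201326592 : ℕ) : ℝ) / S ≤ x) (hx' : x ≤ (((201326592 : ℕ) : ℝ) + (134217728 : ℕ)) / S) :
    TriB PP.cur (farS κ (h0 * x) (tbl tKF x) (tbl tL x)) 1 0 1 1 4 1 (-1) :=
  (sideF hx hx').farB (Or.inl rfl) (Or.inr rfl) fun y y' F =>
    farB_cert (s1 := true) (s2 := false) rfl hκ covF11 covF41 hx hx'
        Pool.Agent.Strip051.G.I3_16_5_16.Tab.C.FB14.c_pm_101 noCut_B noExt_B F trivial trivial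

theorem FB14_pm_102 {κ x : ℝ} (hκ : κ * h0 = ken x) (hx : ((201326592 : ℕ) : ℝ) / S ≤ x) (hx' : x ≤ (((201326592 : ℕ) : ℝ) + (134217728 : ℕ)) / S) :
    TriB PP.cur (farS κ (h0 * x) (tbl tKF x) (tbl tL x)) 1 0 2 1 4 1 (-1) :=
  (sideF hx hx').farB (Or.inl rfl) (Or.inr rfl) fun y y' F =>
    farB_cert (s1 := true) (s2 := false) rfl hκ covF11 covF42 hx hx'
        Pool.Agent.Strip051.G.I3_16_5_16.Tab.C.FB14.c_pm_102 noCut_B noExt_B F trivial trivial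

theorem FB14_pm_112 {κ x : ℝ} (hκ : κ * h0 = ken x) (hx : ((201326592 : ℕ) : ℝ) / S ≤ x) (hx' : x ≤ (((201326592 : ℕ) : ℝ) + (134217728 : ℕ)) / S) :
    TriB PP.cur (farS κ (h0 * x) (tbl tKF x) (tbl tL x)) 1 1 2 1 4 1 (-1) :=
  (sideF hx hx').farB (Or.inl rfl) (Or.inr rfl) fun y y' F =>
    farB_cert (s1 := true) (s2 := false) rfl hκ covF11 covF42 hx hx'
        Pool.Agent.Strip051.G.I3_16_5_16.Tab.C.FB14.c_pm_112 noCut_B noExt_B F trivial trivial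

theorem FB14_pm_113 {κ x : ℝ} (hκ : κ * h0 = ken x) (hx : ((201326592 : ℕ) : ℝ) / S ≤ x) (hx' : x ≤ (((201326592 : ℕ) : ℝ) + (134217728 : ℕ)) / S) :
    TriB PP.cur (farS κ (h0 * x) (tbl tKF x) (tbl tL x)) 1 1 3 1 4 1 (-1) :=
  (sideF hx hx').farB (Or.inl rfl) (Or.inr rfl) fun y y' F =>
    farB_cert (s1 := true) (s2 := false) rfl hκ covF11 covF43 hx hx'
        Pool.Agent.Strip051.G.I3_16_5_16.Tab.C.FB14.c_pm_113 noCut_B noExt_B F trivial trivial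

theorem FB14_pm_123 {κ x : ℝ} (hκ : κ * h0 = ken x) (hx : ((201326592 : ℕ) : ℝ) / S ≤ x) (hx' : x ≤ (((201326592 : ℕ) : ℝ) + (134217728 : ℕ)) / S) :
    TriB PP.cur (farS κ (h0 * x) (tbl tKF x) (tbl tL x)) 1 2 3 1 4 1 (-1) :=
  (sideF hx hx').farB (Or.inl rfl) (Or.inr rfl) fun y y' F =>
    farB_cert (s1 := true) (s2 := false) rfl hκ covF11 covF43 hx hx'
        Pool.Agent.Strip051.G.I3_16_5_16.Tab.C.FB14.c_pm_123 noCut_B noExt_B F trivial trivial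

theorem FB14_pm_133 {κ x : ℝ} (hκ : κ * h0 = ken x) (hx : ((201326592 : ℕ) : ℝ) / S ≤ x) (hx' : x ≤ (((201326592 : ℕ) : ℝ) + (134217728 : ℕ)) / S) :
    TriB PP.cur (farS κ (h0 * x) (tbl tKF x) (tbl tL x)) 1 3 3 1 4 1 (-1) :=
  (sideF hx hx').farB (Or.inl rfl) (Or.inr rfl) fun y y' F =>
    farB_cert (s1 := true) (s2 := false) rfl hκ covF11 covF43 hx hx'
        Pool.Agent.Strip051.G.I3_16_5_16.Tab.C.FB14.c_pm_133 noCut_B noExt_B F trivial trivial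

theorem FB14_pm_202 {κ x : ℝ} (hκ : κ * h0 = ken x) (hx : ((201326592 : ℕ) : ℝ) / S ≤ x) (hx' : x ≤ (((201326592 : ℕ) : ℝ) + (134217728 : ℕ)) / S) :
    TriB PP.cur (farS κ (h0 * x) (tbl tKF x) (tbl tL x)) 2 0 2 1 4 1 (-1) :=
  (sideF hx hx').farB (Or.inl rfl) (Or.inr rfl) fun y y' F =>
    (lt_or_ge (h0 * y) 1).elim
      (fun h => farB_cert (s1 := true) (s2 := false) rfl hκ covF12a covF42 hx hx'
        Pool.Agent.Strip051.G.I3_16_5_16.Tab.C.FB14.c_pm_202_a noCut_B noExt_B F h trivial)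
      (fun h => farB_cert (s1 := true) (s2 := false) rfl hκ covF12b covF42 hx hx'
        Pool.Agent.Strip051.G.I3_16_5_16.Tab.C.FB14.c_pm_202_b noCut_B noExt_B F h trivial)

theorem FB14_pm_203 {κ x : ℝ} (hκ : κ * h0 = ken x) (hx : ((201326592 : ℕ) : ℝ) / S ≤ x) (hx' : x ≤ (((201326592 : ℕ) : ℝ) + (134217728 : ℕ)) / S) :
    TriB PP.cur (farS κ (h0 * x) (tbl tKF x) (tbl tL x)) 2 0 3 1 4 1 (-1) :=
  (sideF hx hx').farB (Or.inl rfl) (Or.inr rfl) fun y y' F =>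
    (lt_or_ge (h0 * y) 1).elim
      (fun h => farB_cert (s1 := true) (s2 := false) rfl hκ covF12a covF43 hx hx'
        Pool.Agent.Strip051.G.I3_16_5_16.Tab.C.FB14.c_pm_203_a noCut_B noExt_B F h trivial)
      (fun h => farB_cert (s1 := true) (s2 := false) rfl hκ covF12b covF43 hx hx'
        Pool.Agent.Strip051.G.I3_16_5_16.Tab.C.FB14.c_pm_203_b noCut_B noExt_B F h trivial)

theorem FB14_pm_213 {κ x : ℝ} (hκ : κ * h0 = ken x) (hx : ((201326592 : ℕ) : ℝ) / S ≤ x) (hx' : x ≤ (((201326592 : ℕ) : ℝ) + (134217728 : ℕ)) / S) :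
    TriB PP.cur (farS κ (h0 * x) (tbl tKF x) (tbl tL x)) 2 1 3 1 4 1 (-1) :=
  (sideF hx hx').farB (Or.inl rfl) (Or.inr rfl) fun y y' F =>
    (lt_or_ge (h0 * y) 1).elim
      (fun h => farB_cert (s1 := true) (s2 := false) rfl hκ covF12a covF43 hx hx'
        Pool.Agent.Strip051.G.I3_16_5_16.Tab.C.FB14.c_pm_213_a (cutB_cons (Pool.Agent.Strip051.G.I3_16_5_16.Tab.alt12F_B213_14m hκ hx hx') cutB_nil) noExt_B F h trivial)
      (fun h => farB_cert (s1 := true) (s2 := false) rfl hκ covF12b covF43 hx hx'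
        Pool.Agent.Strip051.G.I3_16_5_16.Tab.C.FB14.c_pm_213_b (cutB_cons (Pool.Agent.Strip051.G.I3_16_5_16.Tab.alt12F_B213_14m hκ hx hx') cutB_nil) noExt_B F h trivial)

theorem FB14_pm_303 {κ x : ℝ} (hκ : κ * h0 = ken x) (hx : ((201326592 : ℕ) : ℝ) / S ≤ x) (hx' : x ≤ (((201326592 : ℕ) : ℝ) + (134217728 : ℕ)) / S) :
    TriB PP.cur (farS κ (h0 * x) (tbl tKF x) (tbl tL x)) 3 0 3 1 4 1 (-1) :=
  (sideF hx hx').farB (Or.inl rfl) (Or.inr rfl) fun y y' F =>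
    farB_cert (s1 := true) (s2 := false) rfl hκ covF13 covF43 hx hx'
        Pool.Agent.Strip051.G.I3_16_5_16.Tab.C.FB14.c_pm_303 noCut_B noExt_B F trivial trivial

theorem FB14_pm_313 {κ x : ℝ} (hκ : κ * h0 = ken x) (hx : ((201326592 : ℕ) : ℝ) / S ≤ x) (hx' : x ≤ (((201326592 : ℕ) : ℝ) + (134217728 : ℕ)) / S) :
    TriB PP.cur (farS κ (h0 * x) (tbl tKF x) (tbl tL x)) 3 1 3 1 4 1 (-1) :=
  (sideF hx hx').farB (Or.inl rfl) (Or.inr rfl) fun y y' F =>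
    farB_cert (s1 := true) (s2 := false) rfl hκ covF13 covF43 hx hx'
        Pool.Agent.Strip051.G.I3_16_5_16.Tab.C.FB14.c_pm_313 noCut_B noExt_B F trivial trivial

theorem FB14_mm_001 {κ x : ℝ} (hκ : κ * h0 = ken x) (hx : ((201326592 : ℕ) : ℝ) / S ≤ x) (hx' : x ≤ (((201326592 : ℕ) : ℝ) + (134217728 : ℕ)) / S) :
    TriB PP.cur (farS κ (h0 * x) (tbl tKF x) (tbl tL x)) 0 0 1 1 4 (-1) (-1) :=
  (sideF hx hx').farB (Or.inr rfl) (Or.inr rfl) fun y y' F =>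
    farB_cert (s1 := false) (s2 := false) rfl hκ covF10 covF41 hx hx'
        Pool.Agent.Strip051.G.I3_16_5_16.Tab.C.FB14.c_mm_001 noCut_B noExt_B F trivial trivial

theorem FB14_mm_011 {κ x : ℝ} (hκ : κ * h0 = ken x) (hx : ((201326592 : ℕ) : ℝ) / S ≤ x) (hx' : x ≤ (((201326592 : ℕ) : ℝ) + (134217728 : ℕ)) / S) :
    TriB PP.cur (farS κ (h0 * x) (tbl tKF x) (tbl tL x)) 0 1 1 1 4 (-1) (-1) :=
  (sideF hx hx').farB (Or.inr rfl) (Or.inr rfl) fun y y' F =>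
    farB_cert (s1 := false) (s2 := false) rfl hκ covF10 covF41 hx hx'
        Pool.Agent.Strip051.G.I3_16_5_16.Tab.C.FB14.c_mm_011 noCut_B noExt_B F trivial trivial

theorem FB14_mm_012 {κ x : ℝ} (hκ : κ * h0 = ken x) (hx : ((201326592 : ℕ) : ℝ) / S ≤ x) (hx' : x ≤ (((201326592 : ℕ) : ℝ) + (134217728 : ℕ)) / S) :
    TriB PP.cur (farS κ (h0 * x) (tbl tKF x) (tbl tL x)) 0 1 2 1 4 (-1) (-1) :=
  (sideF hx hx').farB (Or.inr rfl) (Or.inr rfl) fun y y' F =>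
    farB_cert (s1 := false) (s2 := false) rfl hκ covF10 covF42 hx hx'
        Pool.Agent.Strip051.G.I3_16_5_16.Tab.C.FB14.c_mm_012 noCut_B noExt_B F trivial trivial

theorem FB14_mm_022 {κ x : ℝ} (hκ : κ * h0 = ken x) (hx : ((201326592 : ℕ) : ℝ) / S ≤ x) (hx' : x ≤ (((201326592 : ℕ) : ℝ) + (134217728 : ℕ)) / S) :
    TriB PP.cur (farS κ (h0 * x) (tbl tKF x) (tbl tL x)) 0 2 2 1 4 (-1) (-1) :=
  (sideF hx hx').farB (Or.inr rfl) (Or.inr rfl) fun y y' F =>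
    farB_cert (s1 := false) (s2 := false) rfl hκ covF10 covF42 hx hx'
        Pool.Agent.Strip051.G.I3_16_5_16.Tab.C.FB14.c_mm_022 noCut_B noExt_B F trivial trivial

theorem FB14_mm_023 {κ x : ℝ} (hκ : κ * h0 = ken x) (hx : ((201326592 : ℕ) : ℝ) / S ≤ x) (hx' : x ≤ (((201326592 : ℕ) : ℝ) + (134217728 : ℕ)) / S) :
    TriB PP.cur (farS κ (h0 * x) (tbl tKF x) (tbl tL x)) 0 2 3 1 4 (-1) (-1) :=
  (sideF hx hx').farB (Or.inr rfl) (Or.inr rfl) fun y y' F =>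
    farB_cert (s1 := false) (s2 := false) rfl hκ covF10 covF43 hx hx'
        Pool.Agent.Strip051.G.I3_16_5_16.Tab.C.FB14.c_mm_023 noCut_B noExt_B F trivial trivial

theorem FB14_mm_033 {κ x : ℝ} (hκ : κ * h0 = ken x) (hx : ((201326592 : ℕ) : ℝ) / S ≤ x) (hx' : x ≤ (((201326592 : ℕ) : ℝ) + (134217728 : ℕ)) / S) :
    TriB PP.cur (farS κ (h0 * x) (tbl tKF x) (tbl tL x)) 0 3 3 1 4 (-1) (-1) :=
  (sideF hx hx').farB (Or.inr rfl) (Or.inr rfl) fun y y' F =>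
    farB_cert (s1 := false) (s2 := false) rfl hκ covF10 covF43 hx hx'
        Pool.Agent.Strip051.G.I3_16_5_16.Tab.C.FB14.c_mm_033 noCut_B noExt_B F trivial trivial

theorem FB14_mm_101 {κ x : ℝ} (hκ : κ * h0 = ken x) (hx : ((201326592 : ℕ) : ℝ) / S ≤ x) (hx' : x ≤ (((201326592 : ℕ) : ℝ) + (134217728 : ℕ)) / S) :
    TriB PP.cur (farS κ (h0 * x) (tbl tKF x) (tbl tL x)) 1 0 1 1 4 (-1) (-1) :=
  (sideF hx hx').farB (Or.inr rfl) (Or.inr rfl) fun y y' F =>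
    farB_cert (s1 := false) (s2 := false) rfl hκ covF11 covF41 hx hx'
        Pool.Agent.Strip051.G.I3_16_5_16.Tab.C.FB14.c_mm_101 noCut_B noExt_B F trivial trivial

theorem FB14_mm_102 {κ x : ℝ} (hκ : κ * h0 = ken x) (hx : ((201326592 : ℕ) : ℝ) / S ≤ x) (hx' : x ≤ (((201326592 : ℕ) : ℝ) + (134217728 : ℕ)) / S) :
    TriB PP.cur (farS κ (h0 * x) (tbl tKF x) (tbl tL x)) 1 0 2 1 4 (-1) (-1) :=
  (sideF hx hx').farB (Or.inr rfl) (Or.inr rfl) fun y y' F =>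
    farB_cert (s1 := false) (s2 := false) rfl hκ covF11 covF42 hx hx'
        Pool.Agent.Strip051.G.I3_16_5_16.Tab.C.FB14.c_mm_102 noCut_B noExt_B F trivial trivial

theorem FB14_mm_112 {κ x : ℝ} (hκ : κ * h0 = ken x) (hx : ((201326592 : ℕ) : ℝ) / S ≤ x) (hx' : x ≤ (((201326592 : ℕ) : ℝ) + (134217728 : ℕ)) / S) :
    TriB PP.cur (farS κ (h0 * x) (tbl tKF x) (tbl tL x)) 1 1 2 1 4 (-1) (-1) :=
  (sideF hx hx').farB (Or.inr rfl) (Or.inr rfl) fun y y' F =>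
    farB_cert (s1 := false) (s2 := false) rfl hκ covF11 covF42 hx hx'
        Pool.Agent.Strip051.G.I3_16_5_16.Tab.C.FB14.c_mm_112 noCut_B noExt_B F trivial trivial

theorem FB14_mm_113 {κ x : ℝ} (hκ : κ * h0 = ken x) (hx : ((201326592 : ℕ) : ℝ) / S ≤ x) (hx' : x ≤ (((201326592 : ℕ) : ℝ) + (134217728 : ℕ)) / S) :
    TriB PP.cur (farS κ (h0 * x) (tbl tKF x) (tbl tL x)) 1 1 3 1 4 (-1) (-1) :=
  (sideF hx hx').farB (Or.inr rfl) (Or.inr rfl) fun y y' F =>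
    farB_cert (s1 := false) (s2 := false) rfl hκ covF11 covF43 hx hx'
        Pool.Agent.Strip051.G.I3_16_5_16.Tab.C.FB14.c_mm_113 noCut_B noExt_B F trivial trivial

theorem FB14_mm_123 {κ x : ℝ} (hκ : κ * h0 = ken x) (hx : ((201326592 : ℕ) : ℝ) / S ≤ x) (hx' : x ≤ (((201326592 : ℕ) : ℝ) + (134217728 : ℕ)) / S) :
    TriB PP.cur (farS κ (h0 * x) (tbl tKF x) (tbl tL x)) 1 2 3 1 4 (-1) (-1) :=
  (sideF hx hx').farB (Or.inr rfl) (Or.inr rfl) fun y y' F =>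
    farB_cert (s1 := false) (s2 := false) rfl hκ covF11 covF43 hx hx'
        Pool.Agent.Strip051.G.I3_16_5_16.Tab.C.FB14.c_mm_123 noCut_B noExt_B F trivial trivial

theorem FB14_mm_133 {κ x : ℝ} (hκ : κ * h0 = ken x) (hx : ((201326592 : ℕ) : ℝ) / S ≤ x) (hx' : x ≤ (((201326592 : ℕ) : ℝ) + (134217728 : ℕ)) / S) :
    TriB PP.cur (farS κ (h0 * x) (tbl tKF x) (tbl tL x)) 1 3 3 1 4 (-1) (-1) :=
  (sideF hx hx').farB (Or.inr rfl) (Or.inr rfl) fun y y' F =>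
    farB_cert (s1 := false) (s2 := false) rfl hκ covF11 covF43 hx hx'
        Pool.Agent.Strip051.G.I3_16_5_16.Tab.C.FB14.c_mm_133 noCut_B noExt_B F trivial trivial

theorem FB14_mm_202 {κ x : ℝ} (hκ : κ * h0 = ken x) (hx : ((201326592 : ℕ) : ℝ) / S ≤ x) (hx' : x ≤ (((201326592 : ℕ) : ℝ) + (134217728 : ℕ)) / S) :
    TriB PP.cur (farS κ (h0 * x) (tbl tKF x) (tbl tL x)) 2 0 2 1 4 (-1) (-1) :=
  (sideF hx hx').farB (Or.inr rfl) (Or.inr rfl) fun y y' F =>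
    (lt_or_ge (h0 * y) 1).elim
      (fun h => farB_cert (s1 := false) (s2 := false) rfl hκ covF12a covF42 hx hx'
        Pool.Agent.Strip051.G.I3_16_5_16.Tab.C.FB14.c_mm_202_a noCut_B noExt_B F h trivial)
      (fun h => farB_cert (s1 := false) (s2 := false) rfl hκ covF12b covF42 hx hx'
        Pool.Agent.Strip051.G.I3_16_5_16.Tab.C.FB14.c_mm_202_b noCut_B noExt_B F h trivial)

theorem FB14_mm_203 {κ x : ℝ} (hκ : κ * h0 = ken x) (hx : ((201326592 : ℕ) : ℝ) / S ≤ x) (hx' : x ≤ (((201326592 : ℕ) : ℝ) + (134217728 : ℕ)) / S) :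
    TriB PP.cur (farS κ (h0 * x) (tbl tKF x) (tbl tL x)) 2 0 3 1 4 (-1) (-1) :=
  (sideF hx hx').farB (Or.inr rfl) (Or.inr rfl) fun y y' F =>
    (lt_or_ge (h0 * y) 1).elim
      (fun h => farB_cert (s1 := false) (s2 := false) rfl hκ covF12a covF43 hx hx'
        Pool.Agent.Strip051.G.I3_16_5_16.Tab.C.FB14.c_mm_203_a noCut_B noExt_B F h trivial)
      (fun h => farB_cert (s1 := false) (s2 := false) rfl hκ covF12b covF43 hx hx'
        Pool.Agent.Strip051.G.I3_16_5_16.Tab.C.FB14.c_mm_203_b noCut_B noExt_B F h trivial)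

theorem FB14_mm_213 {κ x : ℝ} (hκ : κ * h0 = ken x) (hx : ((201326592 : ℕ) : ℝ) / S ≤ x) (hx' : x ≤ (((201326592 : ℕ) : ℝ) + (134217728 : ℕ)) / S) :
    TriB PP.cur (farS κ (h0 * x) (tbl tKF x) (tbl tL x)) 2 1 3 1 4 (-1) (-1) :=
  (sideF hx hx').farB (Or.inr rfl) (Or.inr rfl) fun y y' F =>
    (lt_or_ge (h0 * y) 1).elim
      (fun h => farB_cert (s1 := false) (s2 := false) rfl hκ covF12a covF43 hx hx'
        Pool.Agent.Strip051.G.I3_16_5_16.Tab.C.FB14.c_mm_213_a noCut_B noExt_B F h trivial)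
      (fun h => farB_cert (s1 := false) (s2 := false) rfl hκ covF12b covF43 hx hx'
        Pool.Agent.Strip051.G.I3_16_5_16.Tab.C.FB14.c_mm_213_b noCut_B noExt_B F h trivial)

theorem FB14_mm_303 {κ x : ℝ} (hκ : κ * h0 = ken x) (hx : ((201326592 : ℕ) : ℝ) / S ≤ x) (hx' : x ≤ (((201326592 : ℕ) : ℝ) + (134217728 : ℕ)) / S) :
    TriB PP.cur (farS κ (h0 * x) (tbl tKF x) (tbl tL x)) 3 0 3 1 4 (-1) (-1) :=
  (sideF hx hx').farB (Or.inr rfl) (Or.inr rfl) fun y y' F =>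
    farB_cert (s1 := false) (s2 := false) rfl hκ covF13 covF43 hx hx'
        Pool.Agent.Strip051.G.I3_16_5_16.Tab.C.FB14.c_mm_303 noCut_B noExt_B F trivial trivial

theorem FB14_mm_313 {κ x : ℝ} (hκ : κ * h0 = ken x) (hx : ((201326592 : ℕ) : ℝ) / S ≤ x) (hx' : x ≤ (((201326592 : ℕ) : ℝ) + (134217728 : ℕ)) / S) :
    TriB PP.cur (farS κ (h0 * x) (tbl tKF x) (tbl tL x)) 3 1 3 1 4 (-1) (-1) :=
  (sideF hx hx').farB (Or.inr rfl) (Or.inr rfl) fun y y' F =>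
    farB_cert (s1 := false) (s2 := false) rfl hκ covF13 covF43 hx hx'
        Pool.Agent.Strip051.G.I3_16_5_16.Tab.C.FB14.c_mm_313 noCut_B noExt_B F trivial trivial

theorem FB14 {κ x : ℝ} (hκ : κ * h0 = ken x) (hx : ((201326592 : ℕ) : ℝ) / S ≤ x) (hx' : x ≤ (((201326592 : ℕ) : ℝ) + (134217728 : ℕ)) / S) : AllTB PP.cur (farS κ (h0 * x) (tbl tKF x) (tbl tL x)) 1 4 where
  pp := all17 (Q := fun a b c => TriB PP.cur (farS κ (h0 * x) (tbl tKF x) (tbl tL x)) a b c 1 4 1 1)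
    (FB14_pp_001 hκ hx hx') (FB14_pp_011 hκ hx hx') (FB14_pp_012 hκ hx hx') (FB14_pp_022 hκ hx hx') (FB14_pp_023 hκ hx hx') (FB14_pp_033 hκ hx hx') (FB14_pp_101 hκ hx hx') (FB14_pp_102 hκ hx hx') (FB14_pp_112 hκ hx hx') (FB14_pp_113 hκ hx hx') (FB14_pp_123 hκ hx hx') (FB14_pp_133 hκ hx hx') (FB14_pp_202 hκ hx hx') (FB14_pp_203 hκ hx hx') (FB14_pp_213 hκ hx hx') (FB14_pp_303 hκ hx hx') (FB14_pp_313 hκ hx hx')
  pm := all17 (Q := fun a b c => TriB PP.cur (farS κ (h0 * x) (tbl tKF x) (tbl tL x)) a b c 1 4 1 (-1))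
    (FB14_pm_001 hκ hx hx') (FB14_pm_011 hκ hx hx') (FB14_pm_012 hκ hx hx') (FB14_pm_022 hκ hx hx') (FB14_pm_023 hκ hx hx') (FB14_pm_033 hκ hx hx') (FB14_pm_101 hκ hx hx') (FB14_pm_102 hκ hx hx') (FB14_pm_112 hκ hx hx') (FB14_pm_113 hκ hx hx') (FB14_pm_123 hκ hx hx') (FB14_pm_133 hκ hx hx') (FB14_pm_202 hκ hx hx') (FB14_pm_203 hκ hx hx') (FB14_pm_213 hκ hx hx') (FB14_pm_303 hκ hx hx') (FB14_pm_313 hκ hx hx')
  mm := all17 (Q := fun a b c => TriB PP.cur (farS κ (h0 * x) (tbl tKF x) (tbl tL x)) a b c 1 4 (-1) (-1))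
    (FB14_mm_001 hκ hx hx') (FB14_mm_011 hκ hx hx') (FB14_mm_012 hκ hx hx') (FB14_mm_022 hκ hx hx') (FB14_mm_023 hκ hx hx') (FB14_mm_033 hκ hx hx') (FB14_mm_101 hκ hx hx') (FB14_mm_102 hκ hx hx') (FB14_mm_112 hκ hx hx') (FB14_mm_113 hκ hx hx') (FB14_mm_123 hκ hx hx') (FB14_mm_133 hκ hx hx') (FB14_mm_202 hκ hx hx') (FB14_mm_203 hκ hx hx') (FB14_mm_213 hκ hx hx') (FB14_mm_303 hκ hx hx') (FB14_mm_313 hκ hx hx')

theorem FB15_pp_001 {κ x : ℝ} (hκ : κ * h0 = ken x) (hx : ((201326592 : ℕ) : ℝ) / S ≤ x) (hx' : x ≤ (((201326592 : ℕ) : ℝ) + (134217728 : ℕ)) / S) :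
    TriB PP.cur (farS κ (h0 * x) (tbl tKF x) (tbl tL x)) 0 0 1 1 5 1 1 :=
  (sideF hx hx').farB (Or.inl rfl) (Or.inl rfl) fun y y' F =>
    farB_cert (s1 := true) (s2 := true) rfl hκ covF10 covF51 hx hx'
        Pool.Agent.Strip051.G.I3_16_5_16.Tab.C.FB15.c_pp_001 noCut_B noExt_B F trivial trivial

theorem FB15_pp_011 {κ x : ℝ} (hκ : κ * h0 = ken x) (hx : ((201326592 : ℕ) : ℝ) / S ≤ x) (hx' : x ≤ (((201326592 : ℕ) : ℝ) + (134217728 : ℕ)) / S) :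
    TriB PP.cur (farS κ (h0 * x) (tbl tKF x) (tbl tL x)) 0 1 1 1 5 1 1 :=
  (sideF hx hx').farB (Or.inl rfl) (Or.inl rfl) fun y y' F =>
    farB_cert (s1 := true) (s2 := true) rfl hκ covF10 covF51 hx hx'
        Pool.Agent.Strip051.G.I3_16_5_16.Tab.C.FB15.c_pp_011 (cutB_cons (Pool.Agent.Strip051.G.I3_16_5_16.Tab.altF_B011L_15 hκ hx hx') cutB_nil) noExt_B F trivial trivial

theorem FB15_pp_012 {κ x : ℝ} (hκ : κ * h0 = ken x) (hx : ((201326592 : ℕ) : ℝ) / S ≤ x) (hx' : x ≤ (((201326592 : ℕ) : ℝ) + (134217728 : ℕ)) / S) :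
    TriB PP.cur (farS κ (h0 * x) (tbl tKF x) (tbl tL x)) 0 1 2 1 5 1 1 :=
  (sideF hx hx').farB (Or.inl rfl) (Or.inl rfl) fun y y' F =>
    farB_cert (s1 := true) (s2 := true) rfl hκ covF10 covF52 hx hx'
        Pool.Agent.Strip051.G.I3_16_5_16.Tab.C.FB15.c_pp_012 (cutB_cons (Pool.Agent.Strip051.G.I3_16_5_16.Tab.altF_B012L_15 hκ hx hx') cutB_nil) noExt_B F trivial trivial

theorem FB15_pp_022 {κ x : ℝ} (hκ : κ * h0 = ken x) (hx : ((201326592 : ℕ) : ℝ) / S ≤ x) (hx' : x ≤ (((201326592 : ℕ) : ℝ) + (134217728 : ℕ)) / S) :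
    TriB PP.cur (farS κ (h0 * x) (tbl tKF x) (tbl tL x)) 0 2 2 1 5 1 1 :=
  (sideF hx hx').farB (Or.inl rfl) (Or.inl rfl) fun y y' F =>
    farB_cert (s1 := true) (s2 := true) rfl hκ covF10 covF52 hx hx'
        Pool.Agent.Strip051.G.I3_16_5_16.Tab.C.FB15.c_pp_022 (cutB_cons (Pool.Agent.Strip051.G.I3_16_5_16.Tab.altF_B022L_15 hκ hx hx') cutB_nil) noExt_B F trivial trivial

theorem FB15_pp_023 {κ x : ℝ} (hκ : κ * h0 = ken x) (hx : ((201326592 : ℕ) : ℝ) / S ≤ x) (hx' : x ≤ (((201326592 : ℕ) : ℝ) + (134217728 : ℕ)) / S) :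
    TriB PP.cur (farS κ (h0 * x) (tbl tKF x) (tbl tL x)) 0 2 3 1 5 1 1 :=
  (sideF hx hx').farB (Or.inl rfl) (Or.inl rfl) fun y y' F =>
    farB_cert (s1 := true) (s2 := true) rfl hκ covF10 covF53 hx hx'
        Pool.Agent.Strip051.G.I3_16_5_16.Tab.C.FB15.c_pp_023 noCut_B noExt_B F trivial trivial

theorem FB15_pp_033 {κ x : ℝ} (hκ : κ * h0 = ken x) (hx : ((201326592 : ℕ) : ℝ) / S ≤ x) (hx' : x ≤ (((201326592 : ℕ) : ℝ) + (134217728 : ℕ)) / S) :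
    TriB PP.cur (farS κ (h0 * x) (tbl tKF x) (tbl tL x)) 0 3 3 1 5 1 1 :=
  (sideF hx hx').farB (Or.inl rfl) (Or.inl rfl) fun y y' F =>
    farB_cert (s1 := true) (s2 := true) rfl hκ covF10 covF53 hx hx'
        Pool.Agent.Strip051.G.I3_16_5_16.Tab.C.FB15.c_pp_033 noCut_B noExt_B F trivial trivial

theorem FB15_pp_101 {κ x : ℝ} (hκ : κ * h0 = ken x) (hx : ((201326592 : ℕ) : ℝ) / S ≤ x) (hx' : x ≤ (((201326592 : ℕ) : ℝ) + (134217728 : ℕ)) / S) :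
    TriB PP.cur (farS κ (h0 * x) (tbl tKF x) (tbl tL x)) 1 0 1 1 5 1 1 :=
  (sideF hx hx').farB (Or.inl rfl) (Or.inl rfl) fun y y' F =>
    farB_cert (s1 := true) (s2 := true) rfl hκ covF11 covF51 hx hx'
        Pool.Agent.Strip051.G.I3_16_5_16.Tab.C.FB15.c_pp_101 noCut_B noExt_B F trivial trivial

theorem FB15_pp_102 {κ x : ℝ} (hκ : κ * h0 = ken x) (hx : ((201326592 : ℕ) : ℝ) / S ≤ x) (hx' : x ≤ (((201326592 : ℕ) : ℝ) + (134217728 : ℕ)) / S) :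
    TriB PP.cur (farS κ (h0 * x) (tbl tKF x) (tbl tL x)) 1 0 2 1 5 1 1 :=
  (sideF hx hx').farB (Or.inl rfl) (Or.inl rfl) fun y y' F =>
    farB_cert (s1 := true) (s2 := true) rfl hκ covF11 covF52 hx hx'
        Pool.Agent.Strip051.G.I3_16_5_16.Tab.C.FB15.c_pp_102 noCut_B noExt_B F trivial trivial

theorem FB15_pp_112 {κ x : ℝ} (hκ : κ * h0 = ken x) (hx : ((201326592 : ℕ) : ℝ) / S ≤ x) (hx' : x ≤ (((201326592 : ℕ) : ℝ) + (134217728 : ℕ)) / S) :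
    TriB PP.cur (farS κ (h0 * x) (tbl tKF x) (tbl tL x)) 1 1 2 1 5 1 1 :=
  (sideF hx hx').farB (Or.inl rfl) (Or.inl rfl) fun y y' F =>
    farB_cert (s1 := true) (s2 := true) rfl hκ covF11 covF52 hx hx'
        Pool.Agent.Strip051.G.I3_16_5_16.Tab.C.FB15.c_pp_112 noCut_B noExt_B F trivial trivial

theorem FB15_pp_113 {κ x : ℝ} (hκ : κ * h0 = ken x) (hx : ((201326592 : ℕ) : ℝ) / S ≤ x) (hx' : x ≤ (((201326592 : ℕ) : ℝ) + (134217728 : ℕ)) / S) :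
    TriB PP.cur (farS κ (h0 * x) (tbl tKF x) (tbl tL x)) 1 1 3 1 5 1 1 :=
  (sideF hx hx').farB (Or.inl rfl) (Or.inl rfl) fun y y' F =>
    farB_cert (s1 := true) (s2 := true) rfl hκ covF11 covF53 hx hx'
        Pool.Agent.Strip051.G.I3_16_5_16.Tab.C.FB15.c_pp_113 noCut_B noExt_B F trivial trivial

theorem FB15_pp_123 {κ x : ℝ} (hκ : κ * h0 = ken x) (hx : ((201326592 : ℕ) : ℝ) / S ≤ x) (hx' : x ≤ (((201326592 : ℕ) : ℝ) + (134217728 : ℕ)) / S) :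
    TriB PP.cur (farS κ (h0 * x) (tbl tKF x) (tbl tL x)) 1 2 3 1 5 1 1 :=
  (sideF hx hx').farB (Or.inl rfl) (Or.inl rfl) fun y y' F =>
    farB_cert (s1 := true) (s2 := true) rfl hκ covF11 covF53 hx hx'
        Pool.Agent.Strip051.G.I3_16_5_16.Tab.C.FB15.c_pp_123 noCut_B noExt_B F trivial trivial

theorem FB15_pp_133 {κ x : ℝ} (hκ : κ * h0 = ken x) (hx : ((201326592 : ℕ) : ℝ) / S ≤ x) (hx' : x ≤ (((201326592 : ℕ) : ℝ) + (134217728 : ℕ)) / S) :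
    TriB PP.cur (farS κ (h0 * x) (tbl tKF x) (tbl tL x)) 1 3 3 1 5 1 1 :=
  (sideF hx hx').farB (Or.inl rfl) (Or.inl rfl) fun y y' F =>
    farB_cert (s1 := true) (s2 := true) rfl hκ covF11 covF53 hx hx'
        Pool.Agent.Strip051.G.I3_16_5_16.Tab.C.FB15.c_pp_133 noCut_B noExt_B F trivial trivial

theorem FB15_pp_202 {κ x : ℝ} (hκ : κ * h0 = ken x) (hx : ((201326592 : ℕ) : ℝ) / S ≤ x) (hx' : x ≤ (((201326592 : ℕ) : ℝ) + (134217728 : ℕ)) / S) :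
    TriB PP.cur (farS κ (h0 * x) (tbl tKF x) (tbl tL x)) 2 0 2 1 5 1 1 :=
  (sideF hx hx').farB (Or.inl rfl) (Or.inl rfl) fun y y' F =>
    (lt_or_ge (h0 * y) 1).elim
      (fun h => farB_cert (s1 := true) (s2 := true) rfl hκ covF12a covF52 hx hx'
        Pool.Agent.Strip051.G.I3_16_5_16.Tab.C.FB15.c_pp_202_a noCut_B noExt_B F h trivial)
      (fun h => farB_cert (s1 := true) (s2 := true) rfl hκ covF12b covF52 hx hx'
        Pool.Agent.Strip051.G.I3_16_5_16.Tab.C.FB15.c_pp_202_b noCut_B noExt_B F h trivial)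

theorem FB15_pp_203 {κ x : ℝ} (hκ : κ * h0 = ken x) (hx : ((201326592 : ℕ) : ℝ) / S ≤ x) (hx' : x ≤ (((201326592 : ℕ) : ℝ) + (134217728 : ℕ)) / S) :
    TriB PP.cur (farS κ (h0 * x) (tbl tKF x) (tbl tL x)) 2 0 3 1 5 1 1 :=
  (sideF hx hx').farB (Or.inl rfl) (Or.inl rfl) fun y y' F =>
    (lt_or_ge (h0 * y) 1).elim
      (fun h => farB_cert (s1 := true) (s2 := true) rfl hκ covF12a covF53 hx hx'
        Pool.Agent.Strip051.G.I3_16_5_16.Tab.C.FB15.c_pp_203_a noCut_B noExt_B F h trivial)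
      (fun h => farB_cert (s1 := true) (s2 := true) rfl hκ covF12b covF53 hx hx'
        Pool.Agent.Strip051.G.I3_16_5_16.Tab.C.FB15.c_pp_203_b noCut_B noExt_B F h trivial)

theorem FB15_pp_213 {κ x : ℝ} (hκ : κ * h0 = ken x) (hx : ((201326592 : ℕ) : ℝ) / S ≤ x) (hx' : x ≤ (((201326592 : ℕ) : ℝ) + (134217728 : ℕ)) / S) :
    TriB PP.cur (farS κ (h0 * x) (tbl tKF x) (tbl tL x)) 2 1 3 1 5 1 1 :=
  (sideF hx hx').farB (Or.inl rfl) (Or.inl rfl) fun y y' F =>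
    (lt_or_ge (h0 * y) 1).elim
      (fun h => farB_cert (s1 := true) (s2 := true) rfl hκ covF12a covF53 hx hx'
        Pool.Agent.Strip051.G.I3_16_5_16.Tab.C.FB15.c_pp_213_a (cutB_cons (Pool.Agent.Strip051.G.I3_16_5_16.Tab.alt12F_B213_15p hκ hx hx') cutB_nil) noExt_B F h trivial)
      (fun h => farB_cert (s1 := true) (s2 := true) rfl hκ covF12b covF53 hx hx'
        Pool.Agent.Strip051.G.I3_16_5_16.Tab.C.FB15.c_pp_213_b (cutB_cons (Pool.Agent.Strip051.G.I3_16_5_16.Tab.alt12F_B213_15p hκ hx hx') cutB_nil) noExt_B F h trivial)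

theorem FB15_pp_303 {κ x : ℝ} (hκ : κ * h0 = ken x) (hx : ((201326592 : ℕ) : ℝ) / S ≤ x) (hx' : x ≤ (((201326592 : ℕ) : ℝ) + (134217728 : ℕ)) / S) :
    TriB PP.cur (farS κ (h0 * x) (tbl tKF x) (tbl tL x)) 3 0 3 1 5 1 1 :=
  (sideF hx hx').farB (Or.inl rfl) (Or.inl rfl) fun y y' F =>
    farB_cert (s1 := true) (s2 := true) rfl hκ covF13 covF53 hx hx'
        Pool.Agent.Strip051.G.I3_16_5_16.Tab.C.FB15.c_pp_303 noCut_B noExt_B F trivial trivial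

theorem FB15_pp_313 {κ x : ℝ} (hκ : κ * h0 = ken x) (hx : ((201326592 : ℕ) : ℝ) / S ≤ x) (hx' : x ≤ (((201326592 : ℕ) : ℝ) + (134217728 : ℕ)) / S) :
    TriB PP.cur (farS κ (h0 * x) (tbl tKF x) (tbl tL x)) 3 1 3 1 5 1 1 :=
  (sideF hx hx').farB (Or.inl rfl) (Or.inl rfl) fun y y' F =>
    farB_cert (s1 := true) (s2 := true) rfl hκ covF13 covF53 hx hx'
        Pool.Agent.Strip051.G.I3_16_5_16.Tab.C.FB15.c_pp_313 noCut_B noExt_B F trivial trivial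

theorem FB15_pm_001 {κ x : ℝ} (hκ : κ * h0 = ken x) (hx : ((201326592 : ℕ) : ℝ) / S ≤ x) (hx' : x ≤ (((201326592 : ℕ) : ℝ) + (134217728 : ℕ)) / S) :
    TriB PP.cur (farS κ (h0 * x) (tbl tKF x) (tbl tL x)) 0 0 1 1 5 1 (-1) :=
  (sideF hx hx').farB (Or.inl rfl) (Or.inr rfl) fun y y' F =>
    farB_cert (s1 := true) (s2 := false) rfl hκ covF10 covF51 hx hx'
        Pool.Agent.Strip051.G.I3_16_5_16.Tab.C.FB15.c_pm_001 noCut_B noExt_B F trivial trivial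

theorem FB15_pm_011 {κ x : ℝ} (hκ : κ * h0 = ken x) (hx : ((201326592 : ℕ) : ℝ) / S ≤ x) (hx' : x ≤ (((201326592 : ℕ) : ℝ) + (134217728 : ℕ)) / S) :
    TriB PP.cur (farS κ (h0 * x) (tbl tKF x) (tbl tL x)) 0 1 1 1 5 1 (-1) :=
  (sideF hx hx').farB (Or.inl rfl) (Or.inr rfl) fun y y' F =>
    farB_cert (s1 := true) (s2 := false) rfl hκ covF10 covF51 hx hx'
        Pool.Agent.Strip051.G.I3_16_5_16.Tab.C.FB15.c_pm_011 noCut_B noExt_B F trivial trivial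

theorem FB15_pm_012 {κ x : ℝ} (hκ : κ * h0 = ken x) (hx : ((201326592 : ℕ) : ℝ) / S ≤ x) (hx' : x ≤ (((201326592 : ℕ) : ℝ) + (134217728 : ℕ)) / S) :
    TriB PP.cur (farS κ (h0 * x) (tbl tKF x) (tbl tL x)) 0 1 2 1 5 1 (-1) :=
  (sideF hx hx').farB (Or.inl rfl) (Or.inr rfl) fun y y' F =>
    farB_cert (s1 := true) (s2 := false) rfl hκ covF10 covF52 hx hx'
        Pool.Agent.Strip051.G.I3_16_5_16.Tab.C.FB15.c_pm_012 noCut_B noExt_B F trivial trivial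

theorem FB15_pm_022 {κ x : ℝ} (hκ : κ * h0 = ken x) (hx : ((201326592 : ℕ) : ℝ) / S ≤ x) (hx' : x ≤ (((201326592 : ℕ) : ℝ) + (134217728 : ℕ)) / S) :
    TriB PP.cur (farS κ (h0 * x) (tbl tKF x) (tbl tL x)) 0 2 2 1 5 1 (-1) :=
  (sideF hx hx').farB (Or.inl rfl) (Or.inr rfl) fun y y' F =>
    farB_cert (s1 := true) (s2 := false) rfl hκ covF10 covF52 hx hx'
        Pool.Agent.Strip051.G.I3_16_5_16.Tab.C.FB15.c_pm_022 noCut_B noExt_B F trivial trivial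

theorem FB15_pm_023 {κ x : ℝ} (hκ : κ * h0 = ken x) (hx : ((201326592 : ℕ) : ℝ) / S ≤ x) (hx' : x ≤ (((201326592 : ℕ) : ℝ) + (134217728 : ℕ)) / S) :
    TriB PP.cur (farS κ (h0 * x) (tbl tKF x) (tbl tL x)) 0 2 3 1 5 1 (-1) :=
  (sideF hx hx').farB (Or.inl rfl) (Or.inr rfl) fun y y' F =>
    farB_cert (s1 := true) (s2 := false) rfl hκ covF10 covF53 hx hx'
        Pool.Agent.Strip051.G.I3_16_5_16.Tab.C.FB15.c_pm_023 noCut_B noExt_B F trivial trivial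

theorem FB15_pm_033 {κ x : ℝ} (hκ : κ * h0 = ken x) (hx : ((201326592 : ℕ) : ℝ) / S ≤ x) (hx' : x ≤ (((201326592 : ℕ) : ℝ) + (134217728 : ℕ)) / S) :
    TriB PP.cur (farS κ (h0 * x) (tbl tKF x) (tbl tL x)) 0 3 3 1 5 1 (-1) :=
  (sideF hx hx').farB (Or.inl rfl) (Or.inr rfl) fun y y' F =>
    farB_cert (s1 := true) (s2 := false) rfl hκ covF10 covF53 hx hx'
        Pool.Agent.Strip051.G.I3_16_5_16.Tab.C.FB15.c_pm_033 noCut_B noExt_B F trivial trivial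

theorem FB15_pm_101 {κ x : ℝ} (hκ : κ * h0 = ken x) (hx : ((201326592 : ℕ) : ℝ) / S ≤ x) (hx' : x ≤ (((201326592 : ℕ) : ℝ) + (134217728 : ℕ)) / S) :
    TriB PP.cur (farS κ (h0 * x) (tbl tKF x) (tbl tL x)) 1 0 1 1 5 1 (-1) :=
  (sideF hx hx').farB (Or.inl rfl) (Or.inr rfl) fun y y' F =>
    farB_cert (s1 := true) (s2 := false) rfl hκ covF11 covF51 hx hx'
        Pool.Agent.Strip051.G.I3_16_5_16.Tab.C.FB15.c_pm_101 noCut_B noExt_B F trivial trivial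

theorem FB15_pm_102 {κ x : ℝ} (hκ : κ * h0 = ken x) (hx : ((201326592 : ℕ) : ℝ) / S ≤ x) (hx' : x ≤ (((201326592 : ℕ) : ℝ) + (134217728 : ℕ)) / S) :
    TriB PP.cur (farS κ (h0 * x) (tbl tKF x) (tbl tL x)) 1 0 2 1 5 1 (-1) :=
  (sideF hx hx').farB (Or.inl rfl) (Or.inr rfl) fun y y' F =>
    farB_cert (s1 := true) (s2 := false) rfl hκ covF11 covF52 hx hx'
        Pool.Agent.Strip051.G.I3_16_5_16.Tab.C.FB15.c_pm_102 noCut_B noExt_B F trivial trivial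

theorem FB15_pm_112 {κ x : ℝ} (hκ : κ * h0 = ken x) (hx : ((201326592 : ℕ) : ℝ) / S ≤ x) (hx' : x ≤ (((201326592 : ℕ) : ℝ) + (134217728 : ℕ)) / S) :
    TriB PP.cur (farS κ (h0 * x) (tbl tKF x) (tbl tL x)) 1 1 2 1 5 1 (-1) :=
  (sideF hx hx').farB (Or.inl rfl) (Or.inr rfl) fun y y' F =>
    farB_cert (s1 := true) (s2 := false) rfl hκ covF11 covF52 hx hx'
        Pool.Agent.Strip051.G.I3_16_5_16.Tab.C.FB15.c_pm_112 noCut_B noExt_B F trivial trivial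

theorem FB15_pm_113 {κ x : ℝ} (hκ : κ * h0 = ken x) (hx : ((201326592 : ℕ) : ℝ) / S ≤ x) (hx' : x ≤ (((201326592 : ℕ) : ℝ) + (134217728 : ℕ)) / S) :
    TriB PP.cur (farS κ (h0 * x) (tbl tKF x) (tbl tL x)) 1 1 3 1 5 1 (-1) :=
  (sideF hx hx').farB (Or.inl rfl) (Or.inr rfl) fun y y' F =>
    farB_cert (s1 := true) (s2 := false) rfl hκ covF11 covF53 hx hx'
        Pool.Agent.Strip051.G.I3_16_5_16.Tab.C.FB15.c_pm_113 noCut_B noExt_B F trivial trivial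

theorem FB15_pm_123 {κ x : ℝ} (hκ : κ * h0 = ken x) (hx : ((201326592 : ℕ) : ℝ) / S ≤ x) (hx' : x ≤ (((201326592 : ℕ) : ℝ) + (134217728 : ℕ)) / S) :
    TriB PP.cur (farS κ (h0 * x) (tbl tKF x) (tbl tL x)) 1 2 3 1 5 1 (-1) :=
  (sideF hx hx').farB (Or.inl rfl) (Or.inr rfl) fun y y' F =>
    farB_cert (s1 := true) (s2 := false) rfl hκ covF11 covF53 hx hx'
        Pool.Agent.Strip051.G.I3_16_5_16.Tab.C.FB15.c_pm_123 noCut_B noExt_B F trivial trivial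

theorem FB15_pm_133 {κ x : ℝ} (hκ : κ * h0 = ken x) (hx : ((201326592 : ℕ) : ℝ) / S ≤ x) (hx' : x ≤ (((201326592 : ℕ) : ℝ) + (134217728 : ℕ)) / S) :
    TriB PP.cur (farS κ (h0 * x) (tbl tKF x) (tbl tL x)) 1 3 3 1 5 1 (-1) :=
  (sideF hx hx').farB (Or.inl rfl) (Or.inr rfl) fun y y' F =>
    farB_cert (s1 := true) (s2 := false) rfl hκ covF11 covF53 hx hx'
        Pool.Agent.Strip051.G.I3_16_5_16.Tab.C.FB15.c_pm_133 noCut_B noExt_B F trivial trivial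

theorem FB15_pm_202 {κ x : ℝ} (hκ : κ * h0 = ken x) (hx : ((201326592 : ℕ) : ℝ) / S ≤ x) (hx' : x ≤ (((201326592 : ℕ) : ℝ) + (134217728 : ℕ)) / S) :
    TriB PP.cur (farS κ (h0 * x) (tbl tKF x) (tbl tL x)) 2 0 2 1 5 1 (-1) :=
  (sideF hx hx').farB (Or.inl rfl) (Or.inr rfl) fun y y' F =>
    (lt_or_ge (h0 * y) 1).elim
      (fun h => farB_cert (s1 := true) (s2 := false) rfl hκ covF12a covF52 hx hx'
        Pool.Agent.Strip051.G.I3_16_5_16.Tab.C.FB15.c_pm_202_a noCut_B noExt_B F h trivial)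
      (fun h => farB_cert (s1 := true) (s2 := false) rfl hκ covF12b covF52 hx hx'
        Pool.Agent.Strip051.G.I3_16_5_16.Tab.C.FB15.c_pm_202_b noCut_B noExt_B F h trivial)

theorem FB15_pm_203 {κ x : ℝ} (hκ : κ * h0 = ken x) (hx : ((201326592 : ℕ) : ℝ) / S ≤ x) (hx' : x ≤ (((201326592 : ℕ) : ℝ) + (134217728 : ℕ)) / S) :
    TriB PP.cur (farS κ (h0 * x) (tbl tKF x) (tbl tL x)) 2 0 3 1 5 1 (-1) :=
  (sideF hx hx').farB (Or.inl rfl) (Or.inr rfl) fun y y' F =>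
    (lt_or_ge (h0 * y) 1).elim
      (fun h => farB_cert (s1 := true) (s2 := false) rfl hκ covF12a covF53 hx hx'
        Pool.Agent.Strip051.G.I3_16_5_16.Tab.C.FB15.c_pm_203_a noCut_B noExt_B F h trivial)
      (fun h => farB_cert (s1 := true) (s2 := false) rfl hκ covF12b covF53 hx hx'
        Pool.Agent.Strip051.G.I3_16_5_16.Tab.C.FB15.c_pm_203_b noCut_B noExt_B F h trivial)

theorem FB15_pm_213 {κ x : ℝ} (hκ : κ * h0 = ken x) (hx : ((201326592 : ℕ) : ℝ) / S ≤ x) (hx' : x ≤ (((201326592 : ℕ) : ℝ) + (134217728 : ℕ)) / S) :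
    TriB PP.cur (farS κ (h0 * x) (tbl tKF x) (tbl tL x)) 2 1 3 1 5 1 (-1) :=
  (sideF hx hx').farB (Or.inl rfl) (Or.inr rfl) fun y y' F =>
    (lt_or_ge (h0 * y) 1).elim
      (fun h => farB_cert (s1 := true) (s2 := false) rfl hκ covF12a covF53 hx hx'
        Pool.Agent.Strip051.G.I3_16_5_16.Tab.C.FB15.c_pm_213_a (cutB_cons (Pool.Agent.Strip051.G.I3_16_5_16.Tab.alt12F_B213_15m hκ hx hx') cutB_nil) noExt_B F h trivial)
      (fun h => farB_cert (s1 := true) (s2 := false) rfl hκ covF12b covF53 hx hx'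
        Pool.Agent.Strip051.G.I3_16_5_16.Tab.C.FB15.c_pm_213_b (cutB_cons (Pool.Agent.Strip051.G.I3_16_5_16.Tab.alt12F_B213_15m hκ hx hx') cutB_nil) noExt_B F h trivial)

theorem FB15_pm_303 {κ x : ℝ} (hκ : κ * h0 = ken x) (hx : ((201326592 : ℕ) : ℝ) / S ≤ x) (hx' : x ≤ (((201326592 : ℕ) : ℝ) + (134217728 : ℕ)) / S) :
    TriB PP.cur (farS κ (h0 * x) (tbl tKF x) (tbl tL x)) 3 0 3 1 5 1 (-1) :=
  (sideF hx hx').farB (Or.inl rfl) (Or.inr rfl) fun y y' F =>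
    farB_cert (s1 := true) (s2 := false) rfl hκ covF13 covF53 hx hx'
        Pool.Agent.Strip051.G.I3_16_5_16.Tab.C.FB15.c_pm_303 noCut_B noExt_B F trivial trivial

theorem FB15_pm_313 {κ x : ℝ} (hκ : κ * h0 = ken x) (hx : ((201326592 : ℕ) : ℝ) / S ≤ x) (hx' : x ≤ (((201326592 : ℕ) : ℝ) + (134217728 : ℕ)) / S) :
    TriB PP.cur (farS κ (h0 * x) (tbl tKF x) (tbl tL x)) 3 1 3 1 5 1 (-1) :=
  (sideF hx hx').farB (Or.inl rfl) (Or.inr rfl) fun y y' F =>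
    farB_cert (s1 := true) (s2 := false) rfl hκ covF13 covF53 hx hx'
        Pool.Agent.Strip051.G.I3_16_5_16.Tab.C.FB15.c_pm_313 noCut_B noExt_B F trivial trivial

theorem FB15_mm_001 {κ x : ℝ} (hκ : κ * h0 = ken x) (hx : ((201326592 : ℕ) : ℝ) / S ≤ x) (hx' : x ≤ (((201326592 : ℕ) : ℝ) + (134217728 : ℕ)) / S) :
    TriB PP.cur (farS κ (h0 * x) (tbl tKF x) (tbl tL x)) 0 0 1 1 5 (-1) (-1) :=
  (sideF hx hx').farB (Or.inr rfl) (Or.inr rfl) fun y y' F =>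
    farB_cert (s1 := false) (s2 := false) rfl hκ covF10 covF51 hx hx'
        Pool.Agent.Strip051.G.I3_16_5_16.Tab.C.FB15.c_mm_001 noCut_B noExt_B F trivial trivial

theorem FB15_mm_011 {κ x : ℝ} (hκ : κ * h0 = ken x) (hx : ((201326592 : ℕ) : ℝ) / S ≤ x) (hx' : x ≤ (((201326592 : ℕ) : ℝ) + (134217728 : ℕ)) / S) :
    TriB PP.cur (farS κ (h0 * x) (tbl tKF x) (tbl tL x)) 0 1 1 1 5 (-1) (-1) :=
  (sideF hx hx').farB (Or.inr rfl) (Or.inr rfl) fun y y' F =>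
    farB_cert (s1 := false) (s2 := false) rfl hκ covF10 covF51 hx hx'
        Pool.Agent.Strip051.G.I3_16_5_16.Tab.C.FB15.c_mm_011 noCut_B noExt_B F trivial trivial

theorem FB15_mm_012 {κ x : ℝ} (hκ : κ * h0 = ken x) (hx : ((201326592 : ℕ) : ℝ) / S ≤ x) (hx' : x ≤ (((201326592 : ℕ) : ℝ) + (134217728 : ℕ)) / S) :
    TriB PP.cur (farS κ (h0 * x) (tbl tKF x) (tbl tL x)) 0 1 2 1 5 (-1) (-1) :=
  (sideF hx hx').farB (Or.inr rfl) (Or.inr rfl) fun y y' F =>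
    farB_cert (s1 := false) (s2 := false) rfl hκ covF10 covF52 hx hx'
        Pool.Agent.Strip051.G.I3_16_5_16.Tab.C.FB15.c_mm_012 noCut_B noExt_B F trivial trivial

theorem FB15_mm_022 {κ x : ℝ} (hκ : κ * h0 = ken x) (hx : ((201326592 : ℕ) : ℝ) / S ≤ x) (hx' : x ≤ (((201326592 : ℕ) : ℝ) + (134217728 : ℕ)) / S) :
    TriB PP.cur (farS κ (h0 * x) (tbl tKF x) (tbl tL x)) 0 2 2 1 5 (-1) (-1) :=
  (sideF hx hx').farB (Or.inr rfl) (Or.inr rfl) fun y y' F =>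
    farB_cert (s1 := false) (s2 := false) rfl hκ covF10 covF52 hx hx'
        Pool.Agent.Strip051.G.I3_16_5_16.Tab.C.FB15.c_mm_022 noCut_B noExt_B F trivial trivial

theorem FB15_mm_023 {κ x : ℝ} (hκ : κ * h0 = ken x) (hx : ((201326592 : ℕ) : ℝ) / S ≤ x) (hx' : x ≤ (((201326592 : ℕ) : ℝ) + (134217728 : ℕ)) / S) :
    TriB PP.cur (farS κ (h0 * x) (tbl tKF x) (tbl tL x)) 0 2 3 1 5 (-1) (-1) :=
  (sideF hx hx').farB (Or.inr rfl) (Or.inr rfl) fun y y' F =>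
    farB_cert (s1 := false) (s2 := false) rfl hκ covF10 covF53 hx hx'
        Pool.Agent.Strip051.G.I3_16_5_16.Tab.C.FB15.c_mm_023 noCut_B noExt_B F trivial trivial

theorem FB15_mm_033 {κ x : ℝ} (hκ : κ * h0 = ken x) (hx : ((201326592 : ℕ) : ℝ) / S ≤ x) (hx' : x ≤ (((201326592 : ℕ) : ℝ) + (134217728 : ℕ)) / S) :
    TriB PP.cur (farS κ (h0 * x) (tbl tKF x) (tbl tL x)) 0 3 3 1 5 (-1) (-1) :=
  (sideF hx hx').farB (Or.inr rfl) (Or.inr rfl) fun y y' F =>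
    farB_cert (s1 := false) (s2 := false) rfl hκ covF10 covF53 hx hx'
        Pool.Agent.Strip051.G.I3_16_5_16.Tab.C.FB15.c_mm_033 noCut_B noExt_B F trivial trivial

theorem FB15_mm_101 {κ x : ℝ} (hκ : κ * h0 = ken x) (hx : ((201326592 : ℕ) : ℝ) / S ≤ x) (hx' : x ≤ (((201326592 : ℕ) : ℝ) + (134217728 : ℕ)) / S) :
    TriB PP.cur (farS κ (h0 * x) (tbl tKF x) (tbl tL x)) 1 0 1 1 5 (-1) (-1) :=
  (sideF hx hx').farB (Or.inr rfl) (Or.inr rfl) fun y y' F =>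
    farB_cert (s1 := false) (s2 := false) rfl hκ covF11 covF51 hx hx'
        Pool.Agent.Strip051.G.I3_16_5_16.Tab.C.FB15.c_mm_101 noCut_B noExt_B F trivial trivial

theorem FB15_mm_102 {κ x : ℝ} (hκ : κ * h0 = ken x) (hx : ((201326592 : ℕ) : ℝ) / S ≤ x) (hx' : x ≤ (((201326592 : ℕ) : ℝ) + (134217728 : ℕ)) / S) :
    TriB PP.cur (farS κ (h0 * x) (tbl tKF x) (tbl tL x)) 1 0 2 1 5 (-1) (-1) :=
  (sideF hx hx').farB (Or.inr rfl) (Or.inr rfl) fun y y' F =>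
    farB_cert (s1 := false) (s2 := false) rfl hκ covF11 covF52 hx hx'
        Pool.Agent.Strip051.G.I3_16_5_16.Tab.C.FB15.c_mm_102 noCut_B noExt_B F trivial trivial

theorem FB15_mm_112 {κ x : ℝ} (hκ : κ * h0 = ken x) (hx : ((201326592 : ℕ) : ℝ) / S ≤ x) (hx' : x ≤ (((201326592 : ℕ) : ℝ) + (134217728 : ℕ)) / S) :
    TriB PP.cur (farS κ (h0 * x) (tbl tKF x) (tbl tL x)) 1 1 2 1 5 (-1) (-1) :=
  (sideF hx hx').farB (Or.inr rfl) (Or.inr rfl) fun y y' F =>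
    farB_cert (s1 := false) (s2 := false) rfl hκ covF11 covF52 hx hx'
        Pool.Agent.Strip051.G.I3_16_5_16.Tab.C.FB15.c_mm_112 noCut_B noExt_B F trivial trivial

theorem FB15_mm_113 {κ x : ℝ} (hκ : κ * h0 = ken x) (hx : ((201326592 : ℕ) : ℝ) / S ≤ x) (hx' : x ≤ (((201326592 : ℕ) : ℝ) + (134217728 : ℕ)) / S) :
    TriB PP.cur (farS κ (h0 * x) (tbl tKF x) (tbl tL x)) 1 1 3 1 5 (-1) (-1) :=
  (sideF hx hx').farB (Or.inr rfl) (Or.inr rfl) fun y y' F =>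
    farB_cert (s1 := false) (s2 := false) rfl hκ covF11 covF53 hx hx'
        Pool.Agent.Strip051.G.I3_16_5_16.Tab.C.FB15.c_mm_113 noCut_B noExt_B F trivial trivial

theorem FB15_mm_123 {κ x : ℝ} (hκ : κ * h0 = ken x) (hx : ((201326592 : ℕ) : ℝ) / S ≤ x) (hx' : x ≤ (((201326592 : ℕ) : ℝ) + (134217728 : ℕ)) / S) :
    TriB PP.cur (farS κ (h0 * x) (tbl tKF x) (tbl tL x)) 1 2 3 1 5 (-1) (-1) :=
  (sideF hx hx').farB (Or.inr rfl) (Or.inr rfl) fun y y' F =>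
    farB_cert (s1 := false) (s2 := false) rfl hκ covF11 covF53 hx hx'
        Pool.Agent.Strip051.G.I3_16_5_16.Tab.C.FB15.c_mm_123 noCut_B noExt_B F trivial trivial

theorem FB15_mm_133 {κ x : ℝ} (hκ : κ * h0 = ken x) (hx : ((201326592 : ℕ) : ℝ) / S ≤ x) (hx' : x ≤ (((201326592 : ℕ) : ℝ) + (134217728 : ℕ)) / S) :
    TriB PP.cur (farS κ (h0 * x) (tbl tKF x) (tbl tL x)) 1 3 3 1 5 (-1) (-1) :=
  (sideF hx hx').farB (Or.inr rfl) (Or.inr rfl) fun y y' F =>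
    farB_cert (s1 := false) (s2 := false) rfl hκ covF11 covF53 hx hx'
        Pool.Agent.Strip051.G.I3_16_5_16.Tab.C.FB15.c_mm_133 noCut_B noExt_B F trivial trivial

theorem FB15_mm_202 {κ x : ℝ} (hκ : κ * h0 = ken x) (hx : ((201326592 : ℕ) : ℝ) / S ≤ x) (hx' : x ≤ (((201326592 : ℕ) : ℝ) + (134217728 : ℕ)) / S) :
    TriB PP.cur (farS κ (h0 * x) (tbl tKF x) (tbl tL x)) 2 0 2 1 5 (-1) (-1) :=
  (sideF hx hx').farB (Or.inr rfl) (Or.inr rfl) fun y y' F =>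
    (lt_or_ge (h0 * y) 1).elim
      (fun h => farB_cert (s1 := false) (s2 := false) rfl hκ covF12a covF52 hx hx'
        Pool.Agent.Strip051.G.I3_16_5_16.Tab.C.FB15.c_mm_202_a (cutB_cons (Pool.Agent.Strip051.G.I3_16_5_16.Tab.altF_B202R_15 hκ hx hx') cutB_nil) noExt_B F h trivial)
      (fun h => farB_cert (s1 := false) (s2 := false) rfl hκ covF12b covF52 hx hx'
        Pool.Agent.Strip051.G.I3_16_5_16.Tab.C.FB15.c_mm_202_b (cutB_cons (Pool.Agent.Strip051.G.I3_16_5_16.Tab.altF_B202R_15 hκ hx hx') cutB_nil) noExt_B F h trivial)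

theorem FB15_mm_203 {κ x : ℝ} (hκ : κ * h0 = ken x) (hx : ((201326592 : ℕ) : ℝ) / S ≤ x) (hx' : x ≤ (((201326592 : ℕ) : ℝ) + (134217728 : ℕ)) / S) :
    TriB PP.cur (farS κ (h0 * x) (tbl tKF x) (tbl tL x)) 2 0 3 1 5 (-1) (-1) :=
  (sideF hx hx').farB (Or.inr rfl) (Or.inr rfl) fun y y' F =>
    (lt_or_ge (h0 * y) 1).elim
      (fun h => farB_cert (s1 := false) (s2 := false) rfl hκ covF12a covF53 hx hx'
        Pool.Agent.Strip051.G.I3_16_5_16.Tab.C.FB15.c_mm_203_a noCut_B noExt_B F h trivial)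
      (fun h => farB_cert (s1 := false) (s2 := false) rfl hκ covF12b covF53 hx hx'
        Pool.Agent.Strip051.G.I3_16_5_16.Tab.C.FB15.c_mm_203_b noCut_B noExt_B F h trivial)

theorem FB15_mm_213 {κ x : ℝ} (hκ : κ * h0 = ken x) (hx : ((201326592 : ℕ) : ℝ) / S ≤ x) (hx' : x ≤ (((201326592 : ℕ) : ℝ) + (134217728 : ℕ)) / S) :
    TriB PP.cur (farS κ (h0 * x) (tbl tKF x) (tbl tL x)) 2 1 3 1 5 (-1) (-1) :=
  (sideF hx hx').farB (Or.inr rfl) (Or.inr rfl) fun y y' F =>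
    (lt_or_ge (h0 * y) 1).elim
      (fun h => farB_cert (s1 := false) (s2 := false) rfl hκ covF12a covF53 hx hx'
        Pool.Agent.Strip051.G.I3_16_5_16.Tab.C.FB15.c_mm_213_a noCut_B noExt_B F h trivial)
      (fun h => farB_cert (s1 := false) (s2 := false) rfl hκ covF12b covF53 hx hx'
        Pool.Agent.Strip051.G.I3_16_5_16.Tab.C.FB15.c_mm_213_b noCut_B noExt_B F h trivial)

theorem FB15_mm_303 {κ x : ℝ} (hκ : κ * h0 = ken x) (hx : ((201326592 : ℕ) : ℝ) / S ≤ x) (hx' : x ≤ (((201326592 : ℕ) : ℝ) + (134217728 : ℕ)) / S) :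
    TriB PP.cur (farS κ (h0 * x) (tbl tKF x) (tbl tL x)) 3 0 3 1 5 (-1) (-1) :=
  (sideF hx hx').farB (Or.inr rfl) (Or.inr rfl) fun y y' F =>
    farB_cert (s1 := false) (s2 := false) rfl hκ covF13 covF53 hx hx'
        Pool.Agent.Strip051.G.I3_16_5_16.Tab.C.FB15.c_mm_303 noCut_B noExt_B F trivial trivial

theorem FB15_mm_313 {κ x : ℝ} (hκ : κ * h0 = ken x) (hx : ((201326592 : ℕ) : ℝ) / S ≤ x) (hx' : x ≤ (((201326592 : ℕ) : ℝ) + (134217728 : ℕ)) / S) :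
    TriB PP.cur (farS κ (h0 * x) (tbl tKF x) (tbl tL x)) 3 1 3 1 5 (-1) (-1) :=
  (sideF hx hx').farB (Or.inr rfl) (Or.inr rfl) fun y y' F =>
    farB_cert (s1 := false) (s2 := false) rfl hκ covF13 covF53 hx hx'
        Pool.Agent.Strip051.G.I3_16_5_16.Tab.C.FB15.c_mm_313 noCut_B noExt_B F trivial trivial

theorem FB15 {κ x : ℝ} (hκ : κ * h0 = ken x) (hx : ((201326592 : ℕ) : ℝ) / S ≤ x) (hx' : x ≤ (((201326592 : ℕ) : ℝ) + (134217728 : ℕ)) / S) : AllTB PP.cur (farS κ (h0 * x) (tbl tKF x) (tbl tL x)) 1 5 where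
  pp := all17 (Q := fun a b c => TriB PP.cur (farS κ (h0 * x) (tbl tKF x) (tbl tL x)) a b c 1 5 1 1)
    (FB15_pp_001 hκ hx hx') (FB15_pp_011 hκ hx hx') (FB15_pp_012 hκ hx hx') (FB15_pp_022 hκ hx hx') (FB15_pp_023 hκ hx hx') (FB15_pp_033 hκ hx hx') (FB15_pp_101 hκ hx hx') (FB15_pp_102 hκ hx hx') (FB15_pp_112 hκ hx hx') (FB15_pp_113 hκ hx hx') (FB15_pp_123 hκ hx hx') (FB15_pp_133 hκ hx hx') (FB15_pp_202 hκ hx hx') (FB15_pp_203 hκ hx hx') (FB15_pp_213 hκ hx hx') (FB15_pp_303 hκ hx hx') (FB15_pp_313 hκ hx hx')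
  pm := all17 (Q := fun a b c => TriB PP.cur (farS κ (h0 * x) (tbl tKF x) (tbl tL x)) a b c 1 5 1 (-1))
    (FB15_pm_001 hκ hx hx') (FB15_pm_011 hκ hx hx') (FB15_pm_012 hκ hx hx') (FB15_pm_022 hκ hx hx') (FB15_pm_023 hκ hx hx') (FB15_pm_033 hκ hx hx') (FB15_pm_101 hκ hx hx') (FB15_pm_102 hκ hx hx') (FB15_pm_112 hκ hx hx') (FB15_pm_113 hκ hx hx') (FB15_pm_123 hκ hx hx') (FB15_pm_133 hκ hx hx') (FB15_pm_202 hκ hx hx') (FB15_pm_203 hκ hx hx') (FB15_pm_213 hκ hx hx') (FB15_pm_303 hκ hx hx') (FB15_pm_313 hκ hx hx')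
  mm := all17 (Q := fun a b c => TriB PP.cur (farS κ (h0 * x) (tbl tKF x) (tbl tL x)) a b c 1 5 (-1) (-1))
    (FB15_mm_001 hκ hx hx') (FB15_mm_011 hκ hx hx') (FB15_mm_012 hκ hx hx') (FB15_mm_022 hκ hx hx') (FB15_mm_023 hκ hx hx') (FB15_mm_033 hκ hx hx') (FB15_mm_101 hκ hx hx') (FB15_mm_102 hκ hx hx') (FB15_mm_112 hκ hx hx') (FB15_mm_113 hκ hx hx') (FB15_mm_123 hκ hx hx') (FB15_mm_133 hκ hx hx') (FB15_mm_202 hκ hx hx') (FB15_mm_203 hκ hx hx') (FB15_mm_213 hκ hx hx') (FB15_mm_303 hκ hx hx') (FB15_mm_313 hκ hx hx')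

theorem FB20_pp_001 {κ x : ℝ} (hκ : κ * h0 = ken x) (hx : ((201326592 : ℕ) : ℝ) / S ≤ x) (hx' : x ≤ (((201326592 : ℕ) : ℝ) + (134217728 : ℕ)) / S) :
    TriB PP.cur (farS κ (h0 * x) (tbl tKF x) (tbl tL x)) 0 0 1 2 0 1 1 :=
  (sideF hx hx').farB (Or.inl rfl) (Or.inl rfl) fun y y' F =>
    farB_cert (s1 := true) (s2 := true) rfl hκ covF20 covF01 hx hx'
        Pool.Agent.Strip051.G.I3_16_5_16.Tab.C.FB20.c_pp_001 noCut_B noExt_B F trivial trivial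

theorem FB20_pp_011 {κ x : ℝ} (hκ : κ * h0 = ken x) (hx : ((201326592 : ℕ) : ℝ) / S ≤ x) (hx' : x ≤ (((201326592 : ℕ) : ℝ) + (134217728 : ℕ)) / S) :
    TriB PP.cur (farS κ (h0 * x) (tbl tKF x) (tbl tL x)) 0 1 1 2 0 1 1 :=
  (sideF hx hx').farB (Or.inl rfl) (Or.inl rfl) fun y y' F =>
    farB_cert (s1 := true) (s2 := true) rfl hκ covF20 covF01 hx hx'
        Pool.Agent.Strip051.G.I3_16_5_16.Tab.C.FB20.c_pp_011 (cutB_cons (Pool.Agent.Strip051.G.I3_16_5_16.Tab.altF_B011E_20 hκ hx hx') cutB_nil) noExt_B F trivial trivial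

theorem FB20_pp_012 {κ x : ℝ} (hκ : κ * h0 = ken x) (hx : ((201326592 : ℕ) : ℝ) / S ≤ x) (hx' : x ≤ (((201326592 : ℕ) : ℝ) + (134217728 : ℕ)) / S) :
    TriB PP.cur (farS κ (h0 * x) (tbl tKF x) (tbl tL x)) 0 1 2 2 0 1 1 :=
  (sideF hx hx').farB (Or.inl rfl) (Or.inl rfl) fun y y' F =>
    farB_cert (s1 := true) (s2 := true) rfl hκ covF20 covF02 hx hx'
        Pool.Agent.Strip051.G.I3_16_5_16.Tab.C.FB20.c_pp_012 (cutB_cons (Pool.Agent.Strip051.G.I3_16_5_16.Tab.altF_B012E_20 hκ hx hx') cutB_nil) noExt_B F trivial trivial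

theorem FB20_pp_022 {κ x : ℝ} (hκ : κ * h0 = ken x) (hx : ((201326592 : ℕ) : ℝ) / S ≤ x) (hx' : x ≤ (((201326592 : ℕ) : ℝ) + (134217728 : ℕ)) / S) :
    TriB PP.cur (farS κ (h0 * x) (tbl tKF x) (tbl tL x)) 0 2 2 2 0 1 1 :=
  (sideF hx hx').farB (Or.inl rfl) (Or.inl rfl) fun y y' F =>
    farB_cert (s1 := true) (s2 := true) rfl hκ covF20 covF02 hx hx'
        Pool.Agent.Strip051.G.I3_16_5_16.Tab.C.FB20.c_pp_022 (cutB_cons (Pool.Agent.Strip051.G.I3_16_5_16.Tab.altF_B022E_20 hκ hx hx') cutB_nil) noExt_B F trivial trivial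

theorem FB20_pp_023 {κ x : ℝ} (hκ : κ * h0 = ken x) (hx : ((201326592 : ℕ) : ℝ) / S ≤ x) (hx' : x ≤ (((201326592 : ℕ) : ℝ) + (134217728 : ℕ)) / S) :
    TriB PP.cur (farS κ (h0 * x) (tbl tKF x) (tbl tL x)) 0 2 3 2 0 1 1 :=
  triB_k0

theorem FB20_pp_033 {κ x : ℝ} (hκ : κ * h0 = ken x) (hx : ((201326592 : ℕ) : ℝ) / S ≤ x) (hx' : x ≤ (((201326592 : ℕ) : ℝ) + (134217728 : ℕ)) / S) :
    TriB PP.cur (farS κ (h0 * x) (tbl tKF x) (tbl tL x)) 0 3 3 2 0 1 1 :=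
  triB_k0

theorem FB20_pp_101 {κ x : ℝ} (hκ : κ * h0 = ken x) (hx : ((201326592 : ℕ) : ℝ) / S ≤ x) (hx' : x ≤ (((201326592 : ℕ) : ℝ) + (134217728 : ℕ)) / S) :
    TriB PP.cur (farS κ (h0 * x) (tbl tKF x) (tbl tL x)) 1 0 1 2 0 1 1 :=
  (sideF hx hx').farB (Or.inl rfl) (Or.inl rfl) fun y y' F =>
    farB_cert (s1 := true) (s2 := true) rfl hκ covF21 covF01 hx hx'
        Pool.Agent.Strip051.G.I3_16_5_16.Tab.C.FB20.c_pp_101 noCut_B noExt_B F trivial trivial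

theorem FB20_pp_102 {κ x : ℝ} (hκ : κ * h0 = ken x) (hx : ((201326592 : ℕ) : ℝ) / S ≤ x) (hx' : x ≤ (((201326592 : ℕ) : ℝ) + (134217728 : ℕ)) / S) :
    TriB PP.cur (farS κ (h0 * x) (tbl tKF x) (tbl tL x)) 1 0 2 2 0 1 1 :=
  (sideF hx hx').farB (Or.inl rfl) (Or.inl rfl) fun y y' F =>
    farB_cert (s1 := true) (s2 := true) rfl hκ covF21 covF02 hx hx'
        Pool.Agent.Strip051.G.I3_16_5_16.Tab.C.FB20.c_pp_102 noCut_B noExt_B F trivial trivial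

theorem FB20_pp_112 {κ x : ℝ} (hκ : κ * h0 = ken x) (hx : ((201326592 : ℕ) : ℝ) / S ≤ x) (hx' : x ≤ (((201326592 : ℕ) : ℝ) + (134217728 : ℕ)) / S) :
    TriB PP.cur (farS κ (h0 * x) (tbl tKF x) (tbl tL x)) 1 1 2 2 0 1 1 :=
  (sideF hx hx').farB (Or.inl rfl) (Or.inl rfl) fun y y' F =>
    farB_cert (s1 := true) (s2 := true) rfl hκ covF21 covF02 hx hx'
        Pool.Agent.Strip051.G.I3_16_5_16.Tab.C.FB20.c_pp_112 noCut_B noExt_B F trivial trivial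

theorem FB20_pp_113 {κ x : ℝ} (hκ : κ * h0 = ken x) (hx : ((201326592 : ℕ) : ℝ) / S ≤ x) (hx' : x ≤ (((201326592 : ℕ) : ℝ) + (134217728 : ℕ)) / S) :
    TriB PP.cur (farS κ (h0 * x) (tbl tKF x) (tbl tL x)) 1 1 3 2 0 1 1 :=
  triB_k0

theorem FB20_pp_123 {κ x : ℝ} (hκ : κ * h0 = ken x) (hx : ((201326592 : ℕ) : ℝ) / S ≤ x) (hx' : x ≤ (((201326592 : ℕ) : ℝ) + (134217728 : ℕ)) / S) :
    TriB PP.cur (farS κ (h0 * x) (tbl tKF x) (tbl tL x)) 1 2 3 2 0 1 1 :=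
  triB_k0

theorem FB20_pp_133 {κ x : ℝ} (hκ : κ * h0 = ken x) (hx : ((201326592 : ℕ) : ℝ) / S ≤ x) (hx' : x ≤ (((201326592 : ℕ) : ℝ) + (134217728 : ℕ)) / S) :
    TriB PP.cur (farS κ (h0 * x) (tbl tKF x) (tbl tL x)) 1 3 3 2 0 1 1 :=
  triB_k0

theorem FB20_pp_202 {κ x : ℝ} (hκ : κ * h0 = ken x) (hx : ((201326592 : ℕ) : ℝ) / S ≤ x) (hx' : x ≤ (((201326592 : ℕ) : ℝ) + (134217728 : ℕ)) / S) :
    TriB PP.cur (farS κ (h0 * x) (tbl tKF x) (tbl tL x)) 2 0 2 2 0 1 1 :=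
  (sideF hx hx').farB (Or.inl rfl) (Or.inl rfl) fun y y' F =>
    (lt_or_ge (h0 * y) 1).elim
      (fun h => farB_cert (s1 := true) (s2 := true) rfl hκ covF22a covF02 hx hx'
        Pool.Agent.Strip051.G.I3_16_5_16.Tab.C.FB20.c_pp_202_a noCut_B noExt_B F h trivial)
      (fun h => farB_cert (s1 := true) (s2 := true) rfl hκ covF22b covF02 hx hx'
        Pool.Agent.Strip051.G.I3_16_5_16.Tab.C.FB20.c_pp_202_b noCut_B noExt_B F h trivial)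

theorem FB20_pp_203 {κ x : ℝ} (hκ : κ * h0 = ken x) (hx : ((201326592 : ℕ) : ℝ) / S ≤ x) (hx' : x ≤ (((201326592 : ℕ) : ℝ) + (134217728 : ℕ)) / S) :
    TriB PP.cur (farS κ (h0 * x) (tbl tKF x) (tbl tL x)) 2 0 3 2 0 1 1 :=
  triB_k0

theorem FB20_pp_213 {κ x : ℝ} (hκ : κ * h0 = ken x) (hx : ((201326592 : ℕ) : ℝ) / S ≤ x) (hx' : x ≤ (((201326592 : ℕ) : ℝ) + (134217728 : ℕ)) / S) :
    TriB PP.cur (farS κ (h0 * x) (tbl tKF x) (tbl tL x)) 2 1 3 2 0 1 1 :=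
  triB_k0

theorem FB20_pp_303 {κ x : ℝ} (hκ : κ * h0 = ken x) (hx : ((201326592 : ℕ) : ℝ) / S ≤ x) (hx' : x ≤ (((201326592 : ℕ) : ℝ) + (134217728 : ℕ)) / S) :
    TriB PP.cur (farS κ (h0 * x) (tbl tKF x) (tbl tL x)) 3 0 3 2 0 1 1 :=
  triB_k0

theorem FB20_pp_313 {κ x : ℝ} (hκ : κ * h0 = ken x) (hx : ((201326592 : ℕ) : ℝ) / S ≤ x) (hx' : x ≤ (((201326592 : ℕ) : ℝ) + (134217728 : ℕ)) / S) :
    TriB PP.cur (farS κ (h0 * x) (tbl tKF x) (tbl tL x)) 3 1 3 2 0 1 1 :=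
  triB_k0

theorem FB20_pm_001 {κ x : ℝ} (hκ : κ * h0 = ken x) (hx : ((201326592 : ℕ) : ℝ) / S ≤ x) (hx' : x ≤ (((201326592 : ℕ) : ℝ) + (134217728 : ℕ)) / S) :
    TriB PP.cur (farS κ (h0 * x) (tbl tKF x) (tbl tL x)) 0 0 1 2 0 1 (-1) :=
  (sideF hx hx').farB (Or.inl rfl) (Or.inr rfl) fun y y' F =>
    farB_cert (s1 := true) (s2 := false) rfl hκ covF20 covF01 hx hx'
        Pool.Agent.Strip051.G.I3_16_5_16.Tab.C.FB20.c_pm_001 noCut_B noExt_B F trivial trivial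

theorem FB20_pm_011 {κ x : ℝ} (hκ : κ * h0 = ken x) (hx : ((201326592 : ℕ) : ℝ) / S ≤ x) (hx' : x ≤ (((201326592 : ℕ) : ℝ) + (134217728 : ℕ)) / S) :
    TriB PP.cur (farS κ (h0 * x) (tbl tKF x) (tbl tL x)) 0 1 1 2 0 1 (-1) :=
  (sideF hx hx').farB (Or.inl rfl) (Or.inr rfl) fun y y' F =>
    farB_cert (s1 := true) (s2 := false) rfl hκ covF20 covF01 hx hx'
        Pool.Agent.Strip051.G.I3_16_5_16.Tab.C.FB20.c_pm_011 (cutB_cons (Pool.Agent.Strip051.G.I3_16_5_16.Tab.altF_B011R_20 hκ hx hx') cutB_nil) noExt_B F trivial trivial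

theorem FB20_pm_012 {κ x : ℝ} (hκ : κ * h0 = ken x) (hx : ((201326592 : ℕ) : ℝ) / S ≤ x) (hx' : x ≤ (((201326592 : ℕ) : ℝ) + (134217728 : ℕ)) / S) :
    TriB PP.cur (farS κ (h0 * x) (tbl tKF x) (tbl tL x)) 0 1 2 2 0 1 (-1) :=
  (sideF hx hx').farB (Or.inl rfl) (Or.inr rfl) fun y y' F =>
    farB_cert (s1 := true) (s2 := false) rfl hκ covF20 covF02 hx hx'
        Pool.Agent.Strip051.G.I3_16_5_16.Tab.C.FB20.c_pm_012 (cutB_cons (Pool.Agent.Strip051.G.I3_16_5_16.Tab.altF_B012R_20 hκ hx hx') cutB_nil) noExt_B F trivial trivial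

theorem FB20_pm_022 {κ x : ℝ} (hκ : κ * h0 = ken x) (hx : ((201326592 : ℕ) : ℝ) / S ≤ x) (hx' : x ≤ (((201326592 : ℕ) : ℝ) + (134217728 : ℕ)) / S) :
    TriB PP.cur (farS κ (h0 * x) (tbl tKF x) (tbl tL x)) 0 2 2 2 0 1 (-1) :=
  (sideF hx hx').farB (Or.inl rfl) (Or.inr rfl) fun y y' F =>
    farB_cert (s1 := true) (s2 := false) rfl hκ covF20 covF02 hx hx'
        Pool.Agent.Strip051.G.I3_16_5_16.Tab.C.FB20.c_pm_022 (cutB_cons (Pool.Agent.Strip051.G.I3_16_5_16.Tab.altF_B022R_20 hκ hx hx') cutB_nil) noExt_B F trivial trivial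

theorem FB20_pm_023 {κ x : ℝ} (hκ : κ * h0 = ken x) (hx : ((201326592 : ℕ) : ℝ) / S ≤ x) (hx' : x ≤ (((201326592 : ℕ) : ℝ) + (134217728 : ℕ)) / S) :
    TriB PP.cur (farS κ (h0 * x) (tbl tKF x) (tbl tL x)) 0 2 3 2 0 1 (-1) :=
  triB_k0

theorem FB20_pm_033 {κ x : ℝ} (hκ : κ * h0 = ken x) (hx : ((201326592 : ℕ) : ℝ) / S ≤ x) (hx' : x ≤ (((201326592 : ℕ) : ℝ) + (134217728 : ℕ)) / S) :
    TriB PP.cur (farS κ (h0 * x) (tbl tKF x) (tbl tL x)) 0 3 3 2 0 1 (-1) :=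
  triB_k0

theorem FB20_pm_101 {κ x : ℝ} (hκ : κ * h0 = ken x) (hx : ((201326592 : ℕ) : ℝ) / S ≤ x) (hx' : x ≤ (((201326592 : ℕ) : ℝ) + (134217728 : ℕ)) / S) :
    TriB PP.cur (farS κ (h0 * x) (tbl tKF x) (tbl tL x)) 1 0 1 2 0 1 (-1) :=
  (sideF hx hx').farB (Or.inl rfl) (Or.inr rfl) fun y y' F =>
    farB_cert (s1 := true) (s2 := false) rfl hκ covF21 covF01 hx hx'
        Pool.Agent.Strip051.G.I3_16_5_16.Tab.C.FB20.c_pm_101 noCut_B noExt_B F trivial trivial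

theorem FB20_pm_102 {κ x : ℝ} (hκ : κ * h0 = ken x) (hx : ((201326592 : ℕ) : ℝ) / S ≤ x) (hx' : x ≤ (((201326592 : ℕ) : ℝ) + (134217728 : ℕ)) / S) :
    TriB PP.cur (farS κ (h0 * x) (tbl tKF x) (tbl tL x)) 1 0 2 2 0 1 (-1) :=
  (sideF hx hx').farB (Or.inl rfl) (Or.inr rfl) fun y y' F =>
    farB_cert (s1 := true) (s2 := false) rfl hκ covF21 covF02 hx hx'
        Pool.Agent.Strip051.G.I3_16_5_16.Tab.C.FB20.c_pm_102 noCut_B noExt_B F trivial trivial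

theorem FB20_pm_112 {κ x : ℝ} (hκ : κ * h0 = ken x) (hx : ((201326592 : ℕ) : ℝ) / S ≤ x) (hx' : x ≤ (((201326592 : ℕ) : ℝ) + (134217728 : ℕ)) / S) :
    TriB PP.cur (farS κ (h0 * x) (tbl tKF x) (tbl tL x)) 1 1 2 2 0 1 (-1) :=
  (sideF hx hx').farB (Or.inl rfl) (Or.inr rfl) fun y y' F =>
    farB_cert (s1 := true) (s2 := false) rfl hκ covF21 covF02 hx hx'
        Pool.Agent.Strip051.G.I3_16_5_16.Tab.C.FB20.c_pm_112 noCut_B noExt_B F trivial trivial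

theorem FB20_pm_113 {κ x : ℝ} (hκ : κ * h0 = ken x) (hx : ((201326592 : ℕ) : ℝ) / S ≤ x) (hx' : x ≤ (((201326592 : ℕ) : ℝ) + (134217728 : ℕ)) / S) :
    TriB PP.cur (farS κ (h0 * x) (tbl tKF x) (tbl tL x)) 1 1 3 2 0 1 (-1) :=
  triB_k0

theorem FB20_pm_123 {κ x : ℝ} (hκ : κ * h0 = ken x) (hx : ((201326592 : ℕ) : ℝ) / S ≤ x) (hx' : x ≤ (((201326592 : ℕ) : ℝ) + (134217728 : ℕ)) / S) :
    TriB PP.cur (farS κ (h0 * x) (tbl tKF x) (tbl tL x)) 1 2 3 2 0 1 (-1) :=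
  triB_k0

theorem FB20_pm_133 {κ x : ℝ} (hκ : κ * h0 = ken x) (hx : ((201326592 : ℕ) : ℝ) / S ≤ x) (hx' : x ≤ (((201326592 : ℕ) : ℝ) + (134217728 : ℕ)) / S) :
    TriB PP.cur (farS κ (h0 * x) (tbl tKF x) (tbl tL x)) 1 3 3 2 0 1 (-1) :=
  triB_k0

theorem FB20_pm_202 {κ x : ℝ} (hκ : κ * h0 = ken x) (hx : ((201326592 : ℕ) : ℝ) / S ≤ x) (hx' : x ≤ (((201326592 : ℕ) : ℝ) + (134217728 : ℕ)) / S) :
    TriB PP.cur (farS κ (h0 * x) (tbl tKF x) (tbl tL x)) 2 0 2 2 0 1 (-1) :=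
  (sideF hx hx').farB (Or.inl rfl) (Or.inr rfl) fun y y' F =>
    (lt_or_ge (h0 * y) 1).elim
      (fun h => farB_cert (s1 := true) (s2 := false) rfl hκ covF22a covF02 hx hx'
        Pool.Agent.Strip051.G.I3_16_5_16.Tab.C.FB20.c_pm_202_a (cutB_cons (Pool.Agent.Strip051.G.I3_16_5_16.Tab.altF_B202E_20 hκ hx hx') cutB_nil) noExt_B F h trivial)
      (fun h => farB_cert (s1 := true) (s2 := false) rfl hκ covF22b covF02 hx hx'
        Pool.Agent.Strip051.G.I3_16_5_16.Tab.C.FB20.c_pm_202_b (cutB_cons (Pool.Agent.Strip051.G.I3_16_5_16.Tab.altF_B202E_20 hκ hx hx') cutB_nil) noExt_B F h trivial)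

theorem FB20_pm_203 {κ x : ℝ} (hκ : κ * h0 = ken x) (hx : ((201326592 : ℕ) : ℝ) / S ≤ x) (hx' : x ≤ (((201326592 : ℕ) : ℝ) + (134217728 : ℕ)) / S) :
    TriB PP.cur (farS κ (h0 * x) (tbl tKF x) (tbl tL x)) 2 0 3 2 0 1 (-1) :=
  triB_k0

theorem FB20_pm_213 {κ x : ℝ} (hκ : κ * h0 = ken x) (hx : ((201326592 : ℕ) : ℝ) / S ≤ x) (hx' : x ≤ (((201326592 : ℕ) : ℝ) + (134217728 : ℕ)) / S) :
    TriB PP.cur (farS κ (h0 * x) (tbl tKF x) (tbl tL x)) 2 1 3 2 0 1 (-1) :=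
  triB_k0

theorem FB20_pm_303 {κ x : ℝ} (hκ : κ * h0 = ken x) (hx : ((201326592 : ℕ) : ℝ) / S ≤ x) (hx' : x ≤ (((201326592 : ℕ) : ℝ) + (134217728 : ℕ)) / S) :
    TriB PP.cur (farS κ (h0 * x) (tbl tKF x) (tbl tL x)) 3 0 3 2 0 1 (-1) :=
  triB_k0

theorem FB20_pm_313 {κ x : ℝ} (hκ : κ * h0 = ken x) (hx : ((201326592 : ℕ) : ℝ) / S ≤ x) (hx' : x ≤ (((201326592 : ℕ) : ℝ) + (134217728 : ℕ)) / S) :
    TriB PP.cur (farS κ (h0 * x) (tbl tKF x) (tbl tL x)) 3 1 3 2 0 1 (-1) :=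
  triB_k0

theorem FB20_mm_001 {κ x : ℝ} (hκ : κ * h0 = ken x) (hx : ((201326592 : ℕ) : ℝ) / S ≤ x) (hx' : x ≤ (((201326592 : ℕ) : ℝ) + (134217728 : ℕ)) / S) :
    TriB PP.cur (farS κ (h0 * x) (tbl tKF x) (tbl tL x)) 0 0 1 2 0 (-1) (-1) :=
  (sideF hx hx').farB (Or.inr rfl) (Or.inr rfl) fun y y' F =>
    farB_cert (s1 := false) (s2 := false) rfl hκ covF20 covF01 hx hx'
        Pool.Agent.Strip051.G.I3_16_5_16.Tab.C.FB20.c_mm_001 noCut_B noExt_B F trivial trivial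

theorem FB20_mm_011 {κ x : ℝ} (hκ : κ * h0 = ken x) (hx : ((201326592 : ℕ) : ℝ) / S ≤ x) (hx' : x ≤ (((201326592 : ℕ) : ℝ) + (134217728 : ℕ)) / S) :
    TriB PP.cur (farS κ (h0 * x) (tbl tKF x) (tbl tL x)) 0 1 1 2 0 (-1) (-1) :=
  (sideF hx hx').farB (Or.inr rfl) (Or.inr rfl) fun y y' F =>
    farB_cert (s1 := false) (s2 := false) rfl hκ covF20 covF01 hx hx'
        Pool.Agent.Strip051.G.I3_16_5_16.Tab.C.FB20.c_mm_011 noCut_B noExt_B F trivial trivial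

theorem FB20_mm_012 {κ x : ℝ} (hκ : κ * h0 = ken x) (hx : ((201326592 : ℕ) : ℝ) / S ≤ x) (hx' : x ≤ (((201326592 : ℕ) : ℝ) + (134217728 : ℕ)) / S) :
    TriB PP.cur (farS κ (h0 * x) (tbl tKF x) (tbl tL x)) 0 1 2 2 0 (-1) (-1) :=
  (sideF hx hx').farB (Or.inr rfl) (Or.inr rfl) fun y y' F =>
    farB_cert (s1 := false) (s2 := false) rfl hκ covF20 covF02 hx hx'
        Pool.Agent.Strip051.G.I3_16_5_16.Tab.C.FB20.c_mm_012 noCut_B noExt_B F trivial trivial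

theorem FB20_mm_022 {κ x : ℝ} (hκ : κ * h0 = ken x) (hx : ((201326592 : ℕ) : ℝ) / S ≤ x) (hx' : x ≤ (((201326592 : ℕ) : ℝ) + (134217728 : ℕ)) / S) :
    TriB PP.cur (farS κ (h0 * x) (tbl tKF x) (tbl tL x)) 0 2 2 2 0 (-1) (-1) :=
  (sideF hx hx').farB (Or.inr rfl) (Or.inr rfl) fun y y' F =>
    farB_cert (s1 := false) (s2 := false) rfl hκ covF20 covF02 hx hx'
        Pool.Agent.Strip051.G.I3_16_5_16.Tab.C.FB20.c_mm_022 noCut_B noExt_B F trivial trivial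

theorem FB20_mm_023 {κ x : ℝ} (hκ : κ * h0 = ken x) (hx : ((201326592 : ℕ) : ℝ) / S ≤ x) (hx' : x ≤ (((201326592 : ℕ) : ℝ) + (134217728 : ℕ)) / S) :
    TriB PP.cur (farS κ (h0 * x) (tbl tKF x) (tbl tL x)) 0 2 3 2 0 (-1) (-1) :=
  triB_k0

theorem FB20_mm_033 {κ x : ℝ} (hκ : κ * h0 = ken x) (hx : ((201326592 : ℕ) : ℝ) / S ≤ x) (hx' : x ≤ (((201326592 : ℕ) : ℝ) + (134217728 : ℕ)) / S) :
    TriB PP.cur (farS κ (h0 * x) (tbl tKF x) (tbl tL x)) 0 3 3 2 0 (-1) (-1) :=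
  triB_k0

theorem FB20_mm_101 {κ x : ℝ} (hκ : κ * h0 = ken x) (hx : ((201326592 : ℕ) : ℝ) / S ≤ x) (hx' : x ≤ (((201326592 : ℕ) : ℝ) + (134217728 : ℕ)) / S) :
    TriB PP.cur (farS κ (h0 * x) (tbl tKF x) (tbl tL x)) 1 0 1 2 0 (-1) (-1) :=
  (sideF hx hx').farB (Or.inr rfl) (Or.inr rfl) fun y y' F =>
    farB_cert (s1 := false) (s2 := false) rfl hκ covF21 covF01 hx hx'
        Pool.Agent.Strip051.G.I3_16_5_16.Tab.C.FB20.c_mm_101 noCut_B noExt_B F trivial trivial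

theorem FB20_mm_102 {κ x : ℝ} (hκ : κ * h0 = ken x) (hx : ((201326592 : ℕ) : ℝ) / S ≤ x) (hx' : x ≤ (((201326592 : ℕ) : ℝ) + (134217728 : ℕ)) / S) :
    TriB PP.cur (farS κ (h0 * x) (tbl tKF x) (tbl tL x)) 1 0 2 2 0 (-1) (-1) :=
  (sideF hx hx').farB (Or.inr rfl) (Or.inr rfl) fun y y' F =>
    farB_cert (s1 := false) (s2 := false) rfl hκ covF21 covF02 hx hx'
        Pool.Agent.Strip051.G.I3_16_5_16.Tab.C.FB20.c_mm_102 noCut_B noExt_B F trivial trivial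

theorem FB20_mm_112 {κ x : ℝ} (hκ : κ * h0 = ken x) (hx : ((201326592 : ℕ) : ℝ) / S ≤ x) (hx' : x ≤ (((201326592 : ℕ) : ℝ) + (134217728 : ℕ)) / S) :
    TriB PP.cur (farS κ (h0 * x) (tbl tKF x) (tbl tL x)) 1 1 2 2 0 (-1) (-1) :=
  (sideF hx hx').farB (Or.inr rfl) (Or.inr rfl) fun y y' F =>
    farB_cert (s1 := false) (s2 := false) rfl hκ covF21 covF02 hx hx'
        Pool.Agent.Strip051.G.I3_16_5_16.Tab.C.FB20.c_mm_112 noCut_B noExt_B F trivial trivial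

theorem FB20_mm_113 {κ x : ℝ} (hκ : κ * h0 = ken x) (hx : ((201326592 : ℕ) : ℝ) / S ≤ x) (hx' : x ≤ (((201326592 : ℕ) : ℝ) + (134217728 : ℕ)) / S) :
    TriB PP.cur (farS κ (h0 * x) (tbl tKF x) (tbl tL x)) 1 1 3 2 0 (-1) (-1) :=
  triB_k0

theorem FB20_mm_123 {κ x : ℝ} (hκ : κ * h0 = ken x) (hx : ((201326592 : ℕ) : ℝ) / S ≤ x) (hx' : x ≤ (((201326592 : ℕ) : ℝ) + (134217728 : ℕ)) / S) :
    TriB PP.cur (farS κ (h0 * x) (tbl tKF x) (tbl tL x)) 1 2 3 2 0 (-1) (-1) :=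
  triB_k0

theorem FB20_mm_133 {κ x : ℝ} (hκ : κ * h0 = ken x) (hx : ((201326592 : ℕ) : ℝ) / S ≤ x) (hx' : x ≤ (((201326592 : ℕ) : ℝ) + (134217728 : ℕ)) / S) :
    TriB PP.cur (farS κ (h0 * x) (tbl tKF x) (tbl tL x)) 1 3 3 2 0 (-1) (-1) :=
  triB_k0

theorem FB20_mm_202 {κ x : ℝ} (hκ : κ * h0 = ken x) (hx : ((201326592 : ℕ) : ℝ) / S ≤ x) (hx' : x ≤ (((201326592 : ℕ) : ℝ) + (134217728 : ℕ)) / S) :
    TriB PP.cur (farS κ (h0 * x) (tbl tKF x) (tbl tL x)) 2 0 2 2 0 (-1) (-1) :=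
  (sideF hx hx').farB (Or.inr rfl) (Or.inr rfl) fun y y' F =>
    (lt_or_ge (h0 * y) 1).elim
      (fun h => farB_cert (s1 := false) (s2 := false) rfl hκ covF22a covF02 hx hx'
        Pool.Agent.Strip051.G.I3_16_5_16.Tab.C.FB20.c_mm_202_a noCut_B noExt_B F h trivial)
      (fun h => farB_cert (s1 := false) (s2 := false) rfl hκ covF22b covF02 hx hx'
        Pool.Agent.Strip051.G.I3_16_5_16.Tab.C.FB20.c_mm_202_b noCut_B noExt_B F h trivial)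

theorem FB20_mm_203 {κ x : ℝ} (hκ : κ * h0 = ken x) (hx : ((201326592 : ℕ) : ℝ) / S ≤ x) (hx' : x ≤ (((201326592 : ℕ) : ℝ) + (134217728 : ℕ)) / S) :
    TriB PP.cur (farS κ (h0 * x) (tbl tKF x) (tbl tL x)) 2 0 3 2 0 (-1) (-1) :=
  triB_k0

theorem FB20_mm_213 {κ x : ℝ} (hκ : κ * h0 = ken x) (hx : ((201326592 : ℕ) : ℝ) / S ≤ x) (hx' : x ≤ (((201326592 : ℕ) : ℝ) + (134217728 : ℕ)) / S) :
    TriB PP.cur (farS κ (h0 * x) (tbl tKF x) (tbl tL x)) 2 1 3 2 0 (-1) (-1) :=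
  triB_k0

theorem FB20_mm_303 {κ x : ℝ} (hκ : κ * h0 = ken x) (hx : ((201326592 : ℕ) : ℝ) / S ≤ x) (hx' : x ≤ (((201326592 : ℕ) : ℝ) + (134217728 : ℕ)) / S) :
    TriB PP.cur (farS κ (h0 * x) (tbl tKF x) (tbl tL x)) 3 0 3 2 0 (-1) (-1) :=
  triB_k0

theorem FB20_mm_313 {κ x : ℝ} (hκ : κ * h0 = ken x) (hx : ((201326592 : ℕ) : ℝ) / S ≤ x) (hx' : x ≤ (((201326592 : ℕ) : ℝ) + (134217728 : ℕ)) / S) :
    TriB PP.cur (farS κ (h0 * x) (tbl tKF x) (tbl tL x)) 3 1 3 2 0 (-1) (-1) :=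
  triB_k0

theorem FB20 {κ x : ℝ} (hκ : κ * h0 = ken x) (hx : ((201326592 : ℕ) : ℝ) / S ≤ x) (hx' : x ≤ (((201326592 : ℕ) : ℝ) + (134217728 : ℕ)) / S) : AllTB PP.cur (farS κ (h0 * x) (tbl tKF x) (tbl tL x)) 2 0 where
  pp := all17 (Q := fun a b c => TriB PP.cur (farS κ (h0 * x) (tbl tKF x) (tbl tL x)) a b c 2 0 1 1)
    (FB20_pp_001 hκ hx hx') (FB20_pp_011 hκ hx hx') (FB20_pp_012 hκ hx hx') (FB20_pp_022 hκ hx hx') (FB20_pp_023 hκ hx hx') (FB20_pp_033 hκ hx hx') (FB20_pp_101 hκ hx hx') (FB20_pp_102 hκ hx hx') (FB20_pp_112 hκ hx hx') (FB20_pp_113 hκ hx hx') (FB20_pp_123 hκ hx hx') (FB20_pp_133 hκ hx hx') (FB20_pp_202 hκ hx hx') (FB20_pp_203 hκ hx hx') (FB20_pp_213 hκ hx hx') (FB20_pp_303 hκ hx hx') (FB20_pp_313 hκ hx hx')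
  pm := all17 (Q := fun a b c => TriB PP.cur (farS κ (h0 * x) (tbl tKF x) (tbl tL x)) a b c 2 0 1 (-1))
    (FB20_pm_001 hκ hx hx') (FB20_pm_011 hκ hx hx') (FB20_pm_012 hκ hx hx') (FB20_pm_022 hκ hx hx') (FB20_pm_023 hκ hx hx') (FB20_pm_033 hκ hx hx') (FB20_pm_101 hκ hx hx') (FB20_pm_102 hκ hx hx') (FB20_pm_112 hκ hx hx') (FB20_pm_113 hκ hx hx') (FB20_pm_123 hκ hx hx') (FB20_pm_133 hκ hx hx') (FB20_pm_202 hκ hx hx') (FB20_pm_203 hκ hx hx') (FB20_pm_213 hκ hx hx') (FB20_pm_303 hκ hx hx') (FB20_pm_313 hκ hx hx')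
  mm := all17 (Q := fun a b c => TriB PP.cur (farS κ (h0 * x) (tbl tKF x) (tbl tL x)) a b c 2 0 (-1) (-1))
    (FB20_mm_001 hκ hx hx') (FB20_mm_011 hκ hx hx') (FB20_mm_012 hκ hx hx') (FB20_mm_022 hκ hx hx') (FB20_mm_023 hκ hx hx') (FB20_mm_033 hκ hx hx') (FB20_mm_101 hκ hx hx') (FB20_mm_102 hκ hx hx') (FB20_mm_112 hκ hx hx') (FB20_mm_113 hκ hx hx') (FB20_mm_123 hκ hx hx') (FB20_mm_133 hκ hx hx') (FB20_mm_202 hκ hx hx') (FB20_mm_203 hκ hx hx') (FB20_mm_213 hκ hx hx') (FB20_mm_303 hκ hx hx') (FB20_mm_313 hκ hx hx')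

theorem FB21_pp_001 {κ x : ℝ} (hκ : κ * h0 = ken x) (hx : ((201326592 : ℕ) : ℝ) / S ≤ x) (hx' : x ≤ (((201326592 : ℕ) : ℝ) + (134217728 : ℕ)) / S) :
    TriB PP.cur (farS κ (h0 * x) (tbl tKF x) (tbl tL x)) 0 0 1 2 1 1 1 :=
  (sideF hx hx').farB (Or.inl rfl) (Or.inl rfl) fun y y' F =>
    farB_cert (s1 := true) (s2 := true) rfl hκ covF20 covF11 hx hx'
        Pool.Agent.Strip051.G.I3_16_5_16.Tab.C.FB21.c_pp_001 noCut_B noExt_B F trivial trivial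

theorem FB21_pp_011 {κ x : ℝ} (hκ : κ * h0 = ken x) (hx : ((201326592 : ℕ) : ℝ) / S ≤ x) (hx' : x ≤ (((201326592 : ℕ) : ℝ) + (134217728 : ℕ)) / S) :
    TriB PP.cur (farS κ (h0 * x) (tbl tKF x) (tbl tL x)) 0 1 1 2 1 1 1 :=
  (sideF hx hx').farB (Or.inl rfl) (Or.inl rfl) fun y y' F =>
    farB_cert (s1 := true) (s2 := true) rfl hκ covF20 covF11 hx hx'
        Pool.Agent.Strip051.G.I3_16_5_16.Tab.C.FB21.c_pp_011 noCut_B noExt_B F trivial trivial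

theorem FB21_pp_012 {κ x : ℝ} (hκ : κ * h0 = ken x) (hx : ((201326592 : ℕ) : ℝ) / S ≤ x) (hx' : x ≤ (((201326592 : ℕ) : ℝ) + (134217728 : ℕ)) / S) :
    TriB PP.cur (farS κ (h0 * x) (tbl tKF x) (tbl tL x)) 0 1 2 2 1 1 1 :=
  (sideF hx hx').farB (Or.inl rfl) (Or.inl rfl) fun y y' F =>
    (lt_or_ge (h0 * (y + y')) 1).elim
      (fun g => farB_cert (s1 := true) (s2 := true) rfl hκ covF20 covF12a hx hx'
        Pool.Agent.Strip051.G.I3_16_5_16.Tab.C.FB21.c_pp_012_a (cutB_cons (Pool.Agent.Strip051.G.I3_16_5_16.Tab.altF_B012E_21 hκ hx hx') cutB_nil) noExt_B F trivial g)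
      (fun g => farB_cert (s1 := true) (s2 := true) rfl hκ covF20 covF12b hx hx'
        Pool.Agent.Strip051.G.I3_16_5_16.Tab.C.FB21.c_pp_012_b (cutB_cons (Pool.Agent.Strip051.G.I3_16_5_16.Tab.altF_B012E_21 hκ hx hx') cutB_nil) noExt_B F trivial g)

theorem FB21_pp_022 {κ x : ℝ} (hκ : κ * h0 = ken x) (hx : ((201326592 : ℕ) : ℝ) / S ≤ x) (hx' : x ≤ (((201326592 : ℕ) : ℝ) + (134217728 : ℕ)) / S) :
    TriB PP.cur (farS κ (h0 * x) (tbl tKF x) (tbl tL x)) 0 2 2 2 1 1 1 :=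
  (sideF hx hx').farB (Or.inl rfl) (Or.inl rfl) fun y y' F =>
    (lt_or_ge (h0 * (y + y')) 1).elim
      (fun g => farB_cert (s1 := true) (s2 := true) rfl hκ covF20 covF12a hx hx'
        Pool.Agent.Strip051.G.I3_16_5_16.Tab.C.FB21.c_pp_022_a (cutB_cons (Pool.Agent.Strip051.G.I3_16_5_16.Tab.altF_B022E_21 hκ hx hx') cutB_nil) noExt_B F trivial g)
      (fun g => farB_cert (s1 := true) (s2 := true) rfl hκ covF20 covF12b hx hx'
        Pool.Agent.Strip051.G.I3_16_5_16.Tab.C.FB21.c_pp_022_b (cutB_cons (Pool.Agent.Strip051.G.I3_16_5_16.Tab.altF_B022E_21 hκ hx hx') cutB_nil) noExt_B F trivial g)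

theorem FB21_pp_023 {κ x : ℝ} (hκ : κ * h0 = ken x) (hx : ((201326592 : ℕ) : ℝ) / S ≤ x) (hx' : x ≤ (((201326592 : ℕ) : ℝ) + (134217728 : ℕ)) / S) :
    TriB PP.cur (farS κ (h0 * x) (tbl tKF x) (tbl tL x)) 0 2 3 2 1 1 1 :=
  (sideF hx hx').farB (Or.inl rfl) (Or.inl rfl) fun y y' F =>
    farB_cert (s1 := true) (s2 := true) rfl hκ covF20 covF13 hx hx'
        Pool.Agent.Strip051.G.I3_16_5_16.Tab.C.FB21.c_pp_023 noCut_B noExt_B F trivial trivial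

theorem FB21_pp_033 {κ x : ℝ} (hκ : κ * h0 = ken x) (hx : ((201326592 : ℕ) : ℝ) / S ≤ x) (hx' : x ≤ (((201326592 : ℕ) : ℝ) + (134217728 : ℕ)) / S) :
    TriB PP.cur (farS κ (h0 * x) (tbl tKF x) (tbl tL x)) 0 3 3 2 1 1 1 :=
  (sideF hx hx').farB (Or.inl rfl) (Or.inl rfl) fun y y' F =>
    farB_cert (s1 := true) (s2 := true) rfl hκ covF20 covF13 hx hx'
        Pool.Agent.Strip051.G.I3_16_5_16.Tab.C.FB21.c_pp_033 noCut_B noExt_B F trivial trivial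

theorem FB21_pp_101 {κ x : ℝ} (hκ : κ * h0 = ken x) (hx : ((201326592 : ℕ) : ℝ) / S ≤ x) (hx' : x ≤ (((201326592 : ℕ) : ℝ) + (134217728 : ℕ)) / S) :
    TriB PP.cur (farS κ (h0 * x) (tbl tKF x) (tbl tL x)) 1 0 1 2 1 1 1 :=
  (sideF hx hx').farB (Or.inl rfl) (Or.inl rfl) fun y y' F =>
    farB_cert (s1 := true) (s2 := true) rfl hκ covF21 covF11 hx hx'
        Pool.Agent.Strip051.G.I3_16_5_16.Tab.C.FB21.c_pp_101 noCut_B noExt_B F trivial trivial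

theorem FB21_pp_102 {κ x : ℝ} (hκ : κ * h0 = ken x) (hx : ((201326592 : ℕ) : ℝ) / S ≤ x) (hx' : x ≤ (((201326592 : ℕ) : ℝ) + (134217728 : ℕ)) / S) :
    TriB PP.cur (farS κ (h0 * x) (tbl tKF x) (tbl tL x)) 1 0 2 2 1 1 1 :=
  (sideF hx hx').farB (Or.inl rfl) (Or.inl rfl) fun y y' F =>
    (lt_or_ge (h0 * (y + y')) 1).elim
      (fun g => farB_cert (s1 := true) (s2 := true) rfl hκ covF21 covF12a hx hx'
        Pool.Agent.Strip051.G.I3_16_5_16.Tab.C.FB21.c_pp_102_a noCut_B noExt_B F trivial g)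
      (fun g => farB_cert (s1 := true) (s2 := true) rfl hκ covF21 covF12b hx hx'
        Pool.Agent.Strip051.G.I3_16_5_16.Tab.C.FB21.c_pp_102_b noCut_B noExt_B F trivial g)

theorem FB21_pp_112 {κ x : ℝ} (hκ : κ * h0 = ken x) (hx : ((201326592 : ℕ) : ℝ) / S ≤ x) (hx' : x ≤ (((201326592 : ℕ) : ℝ) + (134217728 : ℕ)) / S) :
    TriB PP.cur (farS κ (h0 * x) (tbl tKF x) (tbl tL x)) 1 1 2 2 1 1 1 :=
  (sideF hx hx').farB (Or.inl rfl) (Or.inl rfl) fun y y' F =>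
    (lt_or_ge (h0 * (y + y')) 1).elim
      (fun g => farB_cert (s1 := true) (s2 := true) rfl hκ covF21 covF12a hx hx'
        Pool.Agent.Strip051.G.I3_16_5_16.Tab.C.FB21.c_pp_112_a noCut_B noExt_B F trivial g)
      (fun g => farB_cert (s1 := true) (s2 := true) rfl hκ covF21 covF12b hx hx'
        Pool.Agent.Strip051.G.I3_16_5_16.Tab.C.FB21.c_pp_112_b noCut_B noExt_B F trivial g)

theorem FB21_pp_113 {κ x : ℝ} (hκ : κ * h0 = ken x) (hx : ((201326592 : ℕ) : ℝ) / S ≤ x) (hx' : x ≤ (((201326592 : ℕ) : ℝ) + (134217728 : ℕ)) / S) :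
    TriB PP.cur (farS κ (h0 * x) (tbl tKF x) (tbl tL x)) 1 1 3 2 1 1 1 :=
  (sideF hx hx').farB (Or.inl rfl) (Or.inl rfl) fun y y' F =>
    farB_cert (s1 := true) (s2 := true) rfl hκ covF21 covF13 hx hx'
        Pool.Agent.Strip051.G.I3_16_5_16.Tab.C.FB21.c_pp_113 noCut_B noExt_B F trivial trivial

theorem FB21_pp_123 {κ x : ℝ} (hκ : κ * h0 = ken x) (hx : ((201326592 : ℕ) : ℝ) / S ≤ x) (hx' : x ≤ (((201326592 : ℕ) : ℝ) + (134217728 : ℕ)) / S) :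
    TriB PP.cur (farS κ (h0 * x) (tbl tKF x) (tbl tL x)) 1 2 3 2 1 1 1 :=
  (sideF hx hx').farB (Or.inl rfl) (Or.inl rfl) fun y y' F =>
    farB_cert (s1 := true) (s2 := true) rfl hκ covF21 covF13 hx hx'
        Pool.Agent.Strip051.G.I3_16_5_16.Tab.C.FB21.c_pp_123 noCut_B noExt_B F trivial trivial

theorem FB21_pp_133 {κ x : ℝ} (hκ : κ * h0 = ken x) (hx : ((201326592 : ℕ) : ℝ) / S ≤ x) (hx' : x ≤ (((201326592 : ℕ) : ℝ) + (134217728 : ℕ)) / S) :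
    TriB PP.cur (farS κ (h0 * x) (tbl tKF x) (tbl tL x)) 1 3 3 2 1 1 1 :=
  (sideF hx hx').farB (Or.inl rfl) (Or.inl rfl) fun y y' F =>
    farB_cert (s1 := true) (s2 := true) rfl hκ covF21 covF13 hx hx'
        Pool.Agent.Strip051.G.I3_16_5_16.Tab.C.FB21.c_pp_133 noCut_B noExt_B F trivial trivial

theorem FB21_pp_202 {κ x : ℝ} (hκ : κ * h0 = ken x) (hx : ((201326592 : ℕ) : ℝ) / S ≤ x) (hx' : x ≤ (((201326592 : ℕ) : ℝ) + (134217728 : ℕ)) / S) :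
    TriB PP.cur (farS κ (h0 * x) (tbl tKF x) (tbl tL x)) 2 0 2 2 1 1 1 :=
  (sideF hx hx').farB (Or.inl rfl) (Or.inl rfl) fun y y' F =>
    (lt_or_ge (h0 * y) 1).elim
      (fun h => (lt_or_ge (h0 * (y + y')) 1).elim
        (fun g => farB_cert (s1 := true) (s2 := true) rfl hκ covF22a covF12a hx hx'
        Pool.Agent.Strip051.G.I3_16_5_16.Tab.C.FB21.c_pp_202_aa noCut_B noExt_B F h g)
        (fun g => farB_cert (s1 := true) (s2 := true) rfl hκ covF22a covF12b hx hx'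
        Pool.Agent.Strip051.G.I3_16_5_16.Tab.C.FB21.c_pp_202_ab noCut_B noExt_B F h g))
      (fun h => (lt_or_ge (h0 * (y + y')) 1).elim
        (fun g => farB_cert (s1 := true) (s2 := true) rfl hκ covF22b covF12a hx hx'
        Pool.Agent.Strip051.G.I3_16_5_16.Tab.C.FB21.c_pp_202_ba noCut_B noExt_B F h g)
        (fun g => farB_cert (s1 := true) (s2 := true) rfl hκ covF22b covF12b hx hx'
        Pool.Agent.Strip051.G.I3_16_5_16.Tab.C.FB21.c_pp_202_bb noCut_B noExt_B F h g))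

theorem FB21_pp_203 {κ x : ℝ} (hκ : κ * h0 = ken x) (hx : ((201326592 : ℕ) : ℝ) / S ≤ x) (hx' : x ≤ (((201326592 : ℕ) : ℝ) + (134217728 : ℕ)) / S) :
    TriB PP.cur (farS κ (h0 * x) (tbl tKF x) (tbl tL x)) 2 0 3 2 1 1 1 :=
  (sideF hx hx').farB (Or.inl rfl) (Or.inl rfl) fun y y' F =>
    (lt_or_ge (h0 * y) 1).elim
      (fun h => farB_cert (s1 := true) (s2 := true) rfl hκ covF22a covF13 hx hx'
        Pool.Agent.Strip051.G.I3_16_5_16.Tab.C.FB21.c_pp_203_a noCut_B noExt_B F h trivial)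
      (fun h => farB_cert (s1 := true) (s2 := true) rfl hκ covF22b covF13 hx hx'
        Pool.Agent.Strip051.G.I3_16_5_16.Tab.C.FB21.c_pp_203_b noCut_B noExt_B F h trivial)

theorem FB21_pp_213 {κ x : ℝ} (hκ : κ * h0 = ken x) (hx : ((201326592 : ℕ) : ℝ) / S ≤ x) (hx' : x ≤ (((201326592 : ℕ) : ℝ) + (134217728 : ℕ)) / S) :
    TriB PP.cur (farS κ (h0 * x) (tbl tKF x) (tbl tL x)) 2 1 3 2 1 1 1 :=
  (sideF hx hx').farB (Or.inl rfl) (Or.inl rfl) fun y y' F =>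
    (lt_or_ge (h0 * y) 1).elim
      (fun h => farB_cert (s1 := true) (s2 := true) rfl hκ covF22a covF13 hx hx'
        Pool.Agent.Strip051.G.I3_16_5_16.Tab.C.FB21.c_pp_213_a (cutB_cons (Pool.Agent.Strip051.G.I3_16_5_16.Tab.alt12F_B213_21p hκ hx hx') cutB_nil) noExt_B F h trivial)
      (fun h => farB_cert (s1 := true) (s2 := true) rfl hκ covF22b covF13 hx hx'
        Pool.Agent.Strip051.G.I3_16_5_16.Tab.C.FB21.c_pp_213_b (cutB_cons (Pool.Agent.Strip051.G.I3_16_5_16.Tab.alt12F_B213_21p hκ hx hx') cutB_nil) noExt_B F h trivial)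

theorem FB21_pp_303 {κ x : ℝ} (hκ : κ * h0 = ken x) (hx : ((201326592 : ℕ) : ℝ) / S ≤ x) (hx' : x ≤ (((201326592 : ℕ) : ℝ) + (134217728 : ℕ)) / S) :
    TriB PP.cur (farS κ (h0 * x) (tbl tKF x) (tbl tL x)) 3 0 3 2 1 1 1 :=
  (sideF hx hx').farB (Or.inl rfl) (Or.inl rfl) fun y y' F =>
    farB_cert (s1 := true) (s2 := true) rfl hκ covF23 covF13 hx hx'
        Pool.Agent.Strip051.G.I3_16_5_16.Tab.C.FB21.c_pp_303 noCut_B noExt_B F trivial trivial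

theorem FB21_pp_313 {κ x : ℝ} (hκ : κ * h0 = ken x) (hx : ((201326592 : ℕ) : ℝ) / S ≤ x) (hx' : x ≤ (((201326592 : ℕ) : ℝ) + (134217728 : ℕ)) / S) :
    TriB PP.cur (farS κ (h0 * x) (tbl tKF x) (tbl tL x)) 3 1 3 2 1 1 1 :=
  (sideF hx hx').farB (Or.inl rfl) (Or.inl rfl) fun y y' F =>
    farB_cert (s1 := true) (s2 := true) rfl hκ covF23 covF13 hx hx'
        Pool.Agent.Strip051.G.I3_16_5_16.Tab.C.FB21.c_pp_313 noCut_B noExt_B F trivial trivial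

theorem FB21_pm_001 {κ x : ℝ} (hκ : κ * h0 = ken x) (hx : ((201326592 : ℕ) : ℝ) / S ≤ x) (hx' : x ≤ (((201326592 : ℕ) : ℝ) + (134217728 : ℕ)) / S) :
    TriB PP.cur (farS κ (h0 * x) (tbl tKF x) (tbl tL x)) 0 0 1 2 1 1 (-1) :=
  (sideF hx hx').farB (Or.inl rfl) (Or.inr rfl) fun y y' F =>
    farB_cert (s1 := true) (s2 := false) rfl hκ covF20 covF11 hx hx'
        Pool.Agent.Strip051.G.I3_16_5_16.Tab.C.FB21.c_pm_001 noCut_B noExt_B F trivial trivial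

theorem FB21_pm_011 {κ x : ℝ} (hκ : κ * h0 = ken x) (hx : ((201326592 : ℕ) : ℝ) / S ≤ x) (hx' : x ≤ (((201326592 : ℕ) : ℝ) + (134217728 : ℕ)) / S) :
    TriB PP.cur (farS κ (h0 * x) (tbl tKF x) (tbl tL x)) 0 1 1 2 1 1 (-1) :=
  (sideF hx hx').farB (Or.inl rfl) (Or.inr rfl) fun y y' F =>
    farB_cert (s1 := true) (s2 := false) rfl hκ covF20 covF11 hx hx'
        Pool.Agent.Strip051.G.I3_16_5_16.Tab.C.FB21.c_pm_011 noCut_B noExt_B F trivial trivial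

theorem FB21_pm_012 {κ x : ℝ} (hκ : κ * h0 = ken x) (hx : ((201326592 : ℕ) : ℝ) / S ≤ x) (hx' : x ≤ (((201326592 : ℕ) : ℝ) + (134217728 : ℕ)) / S) :
    TriB PP.cur (farS κ (h0 * x) (tbl tKF x) (tbl tL x)) 0 1 2 2 1 1 (-1) :=
  (sideF hx hx').farB (Or.inl rfl) (Or.inr rfl) fun y y' F =>
    (lt_or_ge (h0 * (y + y')) 1).elim
      (fun g => farB_cert (s1 := true) (s2 := false) rfl hκ covF20 covF12a hx hx'
        Pool.Agent.Strip051.G.I3_16_5_16.Tab.C.FB21.c_pm_012_a (cutB_cons (Pool.Agent.Strip051.G.I3_16_5_16.Tab.altF_B012R_21 hκ hx hx') cutB_nil) noExt_B F trivial g)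
      (fun g => farB_cert (s1 := true) (s2 := false) rfl hκ covF20 covF12b hx hx'
        Pool.Agent.Strip051.G.I3_16_5_16.Tab.C.FB21.c_pm_012_b (cutB_cons (Pool.Agent.Strip051.G.I3_16_5_16.Tab.altF_B012R_21 hκ hx hx') cutB_nil) noExt_B F trivial g)

theorem FB21_pm_022 {κ x : ℝ} (hκ : κ * h0 = ken x) (hx : ((201326592 : ℕ) : ℝ) / S ≤ x) (hx' : x ≤ (((201326592 : ℕ) : ℝ) + (134217728 : ℕ)) / S) :
    TriB PP.cur (farS κ (h0 * x) (tbl tKF x) (tbl tL x)) 0 2 2 2 1 1 (-1) :=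
  (sideF hx hx').farB (Or.inl rfl) (Or.inr rfl) fun y y' F =>
    (lt_or_ge (h0 * (y + y')) 1).elim
      (fun g => farB_cert (s1 := true) (s2 := false) rfl hκ covF20 covF12a hx hx'
        Pool.Agent.Strip051.G.I3_16_5_16.Tab.C.FB21.c_pm_022_a (cutB_cons (Pool.Agent.Strip051.G.I3_16_5_16.Tab.altF_B022R_21 hκ hx hx') cutB_nil) noExt_B F trivial g)
      (fun g => farB_cert (s1 := true) (s2 := false) rfl hκ covF20 covF12b hx hx'
        Pool.Agent.Strip051.G.I3_16_5_16.Tab.C.FB21.c_pm_022_b (cutB_cons (Pool.Agent.Strip051.G.I3_16_5_16.Tab.altF_B022R_21 hκ hx hx') cutB_nil) noExt_B F trivial g)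

theorem FB21_pm_023 {κ x : ℝ} (hκ : κ * h0 = ken x) (hx : ((201326592 : ℕ) : ℝ) / S ≤ x) (hx' : x ≤ (((201326592 : ℕ) : ℝ) + (134217728 : ℕ)) / S) :
    TriB PP.cur (farS κ (h0 * x) (tbl tKF x) (tbl tL x)) 0 2 3 2 1 1 (-1) :=
  (sideF hx hx').farB (Or.inl rfl) (Or.inr rfl) fun y y' F =>
    farB_cert (s1 := true) (s2 := false) rfl hκ covF20 covF13 hx hx'
        Pool.Agent.Strip051.G.I3_16_5_16.Tab.C.FB21.c_pm_023 noCut_B noExt_B F trivial trivial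

theorem FB21_pm_033 {κ x : ℝ} (hκ : κ * h0 = ken x) (hx : ((201326592 : ℕ) : ℝ) / S ≤ x) (hx' : x ≤ (((201326592 : ℕ) : ℝ) + (134217728 : ℕ)) / S) :
    TriB PP.cur (farS κ (h0 * x) (tbl tKF x) (tbl tL x)) 0 3 3 2 1 1 (-1) :=
  (sideF hx hx').farB (Or.inl rfl) (Or.inr rfl) fun y y' F =>
    farB_cert (s1 := true) (s2 := false) rfl hκ covF20 covF13 hx hx'
        Pool.Agent.Strip051.G.I3_16_5_16.Tab.C.FB21.c_pm_033 noCut_B noExt_B F trivial trivial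

theorem FB21_pm_101 {κ x : ℝ} (hκ : κ * h0 = ken x) (hx : ((201326592 : ℕ) : ℝ) / S ≤ x) (hx' : x ≤ (((201326592 : ℕ) : ℝ) + (134217728 : ℕ)) / S) :
    TriB PP.cur (farS κ (h0 * x) (tbl tKF x) (tbl tL x)) 1 0 1 2 1 1 (-1) :=
  (sideF hx hx').farB (Or.inl rfl) (Or.inr rfl) fun y y' F =>
    farB_cert (s1 := true) (s2 := false) rfl hκ covF21 covF11 hx hx'
        Pool.Agent.Strip051.G.I3_16_5_16.Tab.C.FB21.c_pm_101 noCut_B noExt_B F trivial trivial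

theorem FB21_pm_102 {κ x : ℝ} (hκ : κ * h0 = ken x) (hx : ((201326592 : ℕ) : ℝ) / S ≤ x) (hx' : x ≤ (((201326592 : ℕ) : ℝ) + (134217728 : ℕ)) / S) :
    TriB PP.cur (farS κ (h0 * x) (tbl tKF x) (tbl tL x)) 1 0 2 2 1 1 (-1) :=
  (sideF hx hx').farB (Or.inl rfl) (Or.inr rfl) fun y y' F =>
    (lt_or_ge (h0 * (y + y')) 1).elim
      (fun g => farB_cert (s1 := true) (s2 := false) rfl hκ covF21 covF12a hx hx'
        Pool.Agent.Strip051.G.I3_16_5_16.Tab.C.FB21.c_pm_102_a noCut_B noExt_B F trivial g)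
      (fun g => farB_cert (s1 := true) (s2 := false) rfl hκ covF21 covF12b hx hx'
        Pool.Agent.Strip051.G.I3_16_5_16.Tab.C.FB21.c_pm_102_b noCut_B noExt_B F trivial g)

theorem FB21_pm_112 {κ x : ℝ} (hκ : κ * h0 = ken x) (hx : ((201326592 : ℕ) : ℝ) / S ≤ x) (hx' : x ≤ (((201326592 : ℕ) : ℝ) + (134217728 : ℕ)) / S) :
    TriB PP.cur (farS κ (h0 * x) (tbl tKF x) (tbl tL x)) 1 1 2 2 1 1 (-1) :=
  (sideF hx hx').farB (Or.inl rfl) (Or.inr rfl) fun y y' F =>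
    (lt_or_ge (h0 * (y + y')) 1).elim
      (fun g => farB_cert (s1 := true) (s2 := false) rfl hκ covF21 covF12a hx hx'
        Pool.Agent.Strip051.G.I3_16_5_16.Tab.C.FB21.c_pm_112_a noCut_B noExt_B F trivial g)
      (fun g => farB_cert (s1 := true) (s2 := false) rfl hκ covF21 covF12b hx hx'
        Pool.Agent.Strip051.G.I3_16_5_16.Tab.C.FB21.c_pm_112_b noCut_B noExt_B F trivial g)

theorem FB21_pm_113 {κ x : ℝ} (hκ : κ * h0 = ken x) (hx : ((201326592 : ℕ) : ℝ) / S ≤ x) (hx' : x ≤ (((201326592 : ℕ) : ℝ) + (134217728 : ℕ)) / S) :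
    TriB PP.cur (farS κ (h0 * x) (tbl tKF x) (tbl tL x)) 1 1 3 2 1 1 (-1) :=
  (sideF hx hx').farB (Or.inl rfl) (Or.inr rfl) fun y y' F =>
    farB_cert (s1 := true) (s2 := false) rfl hκ covF21 covF13 hx hx'
        Pool.Agent.Strip051.G.I3_16_5_16.Tab.C.FB21.c_pm_113 noCut_B noExt_B F trivial trivial

theorem FB21_pm_123 {κ x : ℝ} (hκ : κ * h0 = ken x) (hx : ((201326592 : ℕ) : ℝ) / S ≤ x) (hx' : x ≤ (((201326592 : ℕ) : ℝ) + (134217728 : ℕ)) / S) :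
    TriB PP.cur (farS κ (h0 * x) (tbl tKF x) (tbl tL x)) 1 2 3 2 1 1 (-1) :=
  (sideF hx hx').farB (Or.inl rfl) (Or.inr rfl) fun y y' F =>
    farB_cert (s1 := true) (s2 := false) rfl hκ covF21 covF13 hx hx'
        Pool.Agent.Strip051.G.I3_16_5_16.Tab.C.FB21.c_pm_123 noCut_B noExt_B F trivial trivial

theorem FB21_pm_133 {κ x : ℝ} (hκ : κ * h0 = ken x) (hx : ((201326592 : ℕ) : ℝ) / S ≤ x) (hx' : x ≤ (((201326592 : ℕ) : ℝ) + (134217728 : ℕ)) / S) :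
    TriB PP.cur (farS κ (h0 * x) (tbl tKF x) (tbl tL x)) 1 3 3 2 1 1 (-1) :=
  (sideF hx hx').farB (Or.inl rfl) (Or.inr rfl) fun y y' F =>
    farB_cert (s1 := true) (s2 := false) rfl hκ covF21 covF13 hx hx'
        Pool.Agent.Strip051.G.I3_16_5_16.Tab.C.FB21.c_pm_133 noCut_B noExt_B F trivial trivial

theorem FB21_pm_202 {κ x : ℝ} (hκ : κ * h0 = ken x) (hx : ((201326592 : ℕ) : ℝ) / S ≤ x) (hx' : x ≤ (((201326592 : ℕ) : ℝ) + (134217728 : ℕ)) / S) :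
    TriB PP.cur (farS κ (h0 * x) (tbl tKF x) (tbl tL x)) 2 0 2 2 1 1 (-1) :=
  (sideF hx hx').farB (Or.inl rfl) (Or.inr rfl) fun y y' F =>
    (lt_or_ge (h0 * y) 1).elim
      (fun h => (lt_or_ge (h0 * (y + y')) 1).elim
        (fun g => farB_cert (s1 := true) (s2 := false) rfl hκ covF22a covF12a hx hx'
        Pool.Agent.Strip051.G.I3_16_5_16.Tab.C.FB21.c_pm_202_aa (cutB_cons (Pool.Agent.Strip051.G.I3_16_5_16.Tab.altF_B202E_21 hκ hx hx') cutB_nil) noExt_B F h g)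
        (fun g => farB_cert (s1 := true) (s2 := false) rfl hκ covF22a covF12b hx hx'
        Pool.Agent.Strip051.G.I3_16_5_16.Tab.C.FB21.c_pm_202_ab (cutB_cons (Pool.Agent.Strip051.G.I3_16_5_16.Tab.altF_B202E_21 hκ hx hx') cutB_nil) noExt_B F h g))
      (fun h => (lt_or_ge (h0 * (y + y')) 1).elim
        (fun g => farB_cert (s1 := true) (s2 := false) rfl hκ covF22b covF12a hx hx'
        Pool.Agent.Strip051.G.I3_16_5_16.Tab.C.FB21.c_pm_202_ba (cutB_cons (Pool.Agent.Strip051.G.I3_16_5_16.Tab.altF_B202E_21 hκ hx hx') cutB_nil) noExt_B F h g)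
        (fun g => farB_cert (s1 := true) (s2 := false) rfl hκ covF22b covF12b hx hx'
        Pool.Agent.Strip051.G.I3_16_5_16.Tab.C.FB21.c_pm_202_bb (cutB_cons (Pool.Agent.Strip051.G.I3_16_5_16.Tab.altF_B202E_21 hκ hx hx') cutB_nil) noExt_B F h g))

theorem FB21_pm_203 {κ x : ℝ} (hκ : κ * h0 = ken x) (hx : ((201326592 : ℕ) : ℝ) / S ≤ x) (hx' : x ≤ (((201326592 : ℕ) : ℝ) + (134217728 : ℕ)) / S) :
    TriB PP.cur (farS κ (h0 * x) (tbl tKF x) (tbl tL x)) 2 0 3 2 1 1 (-1) :=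
  (sideF hx hx').farB (Or.inl rfl) (Or.inr rfl) fun y y' F =>
    (lt_or_ge (h0 * y) 1).elim
      (fun h => farB_cert (s1 := true) (s2 := false) rfl hκ covF22a covF13 hx hx'
        Pool.Agent.Strip051.G.I3_16_5_16.Tab.C.FB21.c_pm_203_a noCut_B noExt_B F h trivial)
      (fun h => farB_cert (s1 := true) (s2 := false) rfl hκ covF22b covF13 hx hx'
        Pool.Agent.Strip051.G.I3_16_5_16.Tab.C.FB21.c_pm_203_b noCut_B noExt_B F h trivial)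

theorem FB21_pm_213 {κ x : ℝ} (hκ : κ * h0 = ken x) (hx : ((201326592 : ℕ) : ℝ) / S ≤ x) (hx' : x ≤ (((201326592 : ℕ) : ℝ) + (134217728 : ℕ)) / S) :
    TriB PP.cur (farS κ (h0 * x) (tbl tKF x) (tbl tL x)) 2 1 3 2 1 1 (-1) :=
  (sideF hx hx').farB (Or.inl rfl) (Or.inr rfl) fun y y' F =>
    (lt_or_ge (h0 * y) 1).elim
      (fun h => farB_cert (s1 := true) (s2 := false) rfl hκ covF22a covF13 hx hx'
        Pool.Agent.Strip051.G.I3_16_5_16.Tab.C.FB21.c_pm_213_a (cutB_cons (Pool.Agent.Strip051.G.I3_16_5_16.Tab.alt12F_B213_21m hκ hx hx') cutB_nil) noExt_B F h trivial)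
      (fun h => farB_cert (s1 := true) (s2 := false) rfl hκ covF22b covF13 hx hx'
        Pool.Agent.Strip051.G.I3_16_5_16.Tab.C.FB21.c_pm_213_b (cutB_cons (Pool.Agent.Strip051.G.I3_16_5_16.Tab.alt12F_B213_21m hκ hx hx') cutB_nil) noExt_B F h trivial)

theorem FB21_pm_303 {κ x : ℝ} (hκ : κ * h0 = ken x) (hx : ((201326592 : ℕ) : ℝ) / S ≤ x) (hx' : x ≤ (((201326592 : ℕ) : ℝ) + (134217728 : ℕ)) / S) :
    TriB PP.cur (farS κ (h0 * x) (tbl tKF x) (tbl tL x)) 3 0 3 2 1 1 (-1) :=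
  (sideF hx hx').farB (Or.inl rfl) (Or.inr rfl) fun y y' F =>
    farB_cert (s1 := true) (s2 := false) rfl hκ covF23 covF13 hx hx'
        Pool.Agent.Strip051.G.I3_16_5_16.Tab.C.FB21.c_pm_303 noCut_B noExt_B F trivial trivial

theorem FB21_pm_313 {κ x : ℝ} (hκ : κ * h0 = ken x) (hx : ((201326592 : ℕ) : ℝ) / S ≤ x) (hx' : x ≤ (((201326592 : ℕ) : ℝ) + (134217728 : ℕ)) / S) :
    TriB PP.cur (farS κ (h0 * x) (tbl tKF x) (tbl tL x)) 3 1 3 2 1 1 (-1) :=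
  (sideF hx hx').farB (Or.inl rfl) (Or.inr rfl) fun y y' F =>
    farB_cert (s1 := true) (s2 := false) rfl hκ covF23 covF13 hx hx'
        Pool.Agent.Strip051.G.I3_16_5_16.Tab.C.FB21.c_pm_313 noCut_B noExt_B F trivial trivial

theorem FB21_mm_001 {κ x : ℝ} (hκ : κ * h0 = ken x) (hx : ((201326592 : ℕ) : ℝ) / S ≤ x) (hx' : x ≤ (((201326592 : ℕ) : ℝ) + (134217728 : ℕ)) / S) :
    TriB PP.cur (farS κ (h0 * x) (tbl tKF x) (tbl tL x)) 0 0 1 2 1 (-1) (-1) :=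
  (sideF hx hx').farB (Or.inr rfl) (Or.inr rfl) fun y y' F =>
    farB_cert (s1 := false) (s2 := false) rfl hκ covF20 covF11 hx hx'
        Pool.Agent.Strip051.G.I3_16_5_16.Tab.C.FB21.c_mm_001 noCut_B noExt_B F trivial trivial

theorem FB21_mm_011 {κ x : ℝ} (hκ : κ * h0 = ken x) (hx : ((201326592 : ℕ) : ℝ) / S ≤ x) (hx' : x ≤ (((201326592 : ℕ) : ℝ) + (134217728 : ℕ)) / S) :
    TriB PP.cur (farS κ (h0 * x) (tbl tKF x) (tbl tL x)) 0 1 1 2 1 (-1) (-1) :=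
  (sideF hx hx').farB (Or.inr rfl) (Or.inr rfl) fun y y' F =>
    farB_cert (s1 := false) (s2 := false) rfl hκ covF20 covF11 hx hx'
        Pool.Agent.Strip051.G.I3_16_5_16.Tab.C.FB21.c_mm_011 noCut_B noExt_B F trivial trivial

theorem FB21_mm_012 {κ x : ℝ} (hκ : κ * h0 = ken x) (hx : ((201326592 : ℕ) : ℝ) / S ≤ x) (hx' : x ≤ (((201326592 : ℕ) : ℝ) + (134217728 : ℕ)) / S) :
    TriB PP.cur (farS κ (h0 * x) (tbl tKF x) (tbl tL x)) 0 1 2 2 1 (-1) (-1) :=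
  (sideF hx hx').farB (Or.inr rfl) (Or.inr rfl) fun y y' F =>
    (lt_or_ge (h0 * (y + y')) 1).elim
      (fun g => farB_cert (s1 := false) (s2 := false) rfl hκ covF20 covF12a hx hx'
        Pool.Agent.Strip051.G.I3_16_5_16.Tab.C.FB21.c_mm_012_a noCut_B noExt_B F trivial g)
      (fun g => farB_cert (s1 := false) (s2 := false) rfl hκ covF20 covF12b hx hx'
        Pool.Agent.Strip051.G.I3_16_5_16.Tab.C.FB21.c_mm_012_b noCut_B noExt_B F trivial g)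

theorem FB21_mm_022 {κ x : ℝ} (hκ : κ * h0 = ken x) (hx : ((201326592 : ℕ) : ℝ) / S ≤ x) (hx' : x ≤ (((201326592 : ℕ) : ℝ) + (134217728 : ℕ)) / S) :
    TriB PP.cur (farS κ (h0 * x) (tbl tKF x) (tbl tL x)) 0 2 2 2 1 (-1) (-1) :=
  (sideF hx hx').farB (Or.inr rfl) (Or.inr rfl) fun y y' F =>
    (lt_or_ge (h0 * (y + y')) 1).elim
      (fun g => farB_cert (s1 := false) (s2 := false) rfl hκ covF20 covF12a hx hx'
        Pool.Agent.Strip051.G.I3_16_5_16.Tab.C.FB21.c_mm_022_a noCut_B noExt_B F trivial g)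
      (fun g => farB_cert (s1 := false) (s2 := false) rfl hκ covF20 covF12b hx hx'
        Pool.Agent.Strip051.G.I3_16_5_16.Tab.C.FB21.c_mm_022_b noCut_B noExt_B F trivial g)

theorem FB21_mm_023 {κ x : ℝ} (hκ : κ * h0 = ken x) (hx : ((201326592 : ℕ) : ℝ) / S ≤ x) (hx' : x ≤ (((201326592 : ℕ) : ℝ) + (134217728 : ℕ)) / S) :
    TriB PP.cur (farS κ (h0 * x) (tbl tKF x) (tbl tL x)) 0 2 3 2 1 (-1) (-1) :=
  (sideF hx hx').farB (Or.inr rfl) (Or.inr rfl) fun y y' F =>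
    farB_cert (s1 := false) (s2 := false) rfl hκ covF20 covF13 hx hx'
        Pool.Agent.Strip051.G.I3_16_5_16.Tab.C.FB21.c_mm_023 noCut_B noExt_B F trivial trivial

theorem FB21_mm_033 {κ x : ℝ} (hκ : κ * h0 = ken x) (hx : ((201326592 : ℕ) : ℝ) / S ≤ x) (hx' : x ≤ (((201326592 : ℕ) : ℝ) + (134217728 : ℕ)) / S) :
    TriB PP.cur (farS κ (h0 * x) (tbl tKF x) (tbl tL x)) 0 3 3 2 1 (-1) (-1) :=
  (sideF hx hx').farB (Or.inr rfl) (Or.inr rfl) fun y y' F =>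
    farB_cert (s1 := false) (s2 := false) rfl hκ covF20 covF13 hx hx'
        Pool.Agent.Strip051.G.I3_16_5_16.Tab.C.FB21.c_mm_033 noCut_B noExt_B F trivial trivial

theorem FB21_mm_101 {κ x : ℝ} (hκ : κ * h0 = ken x) (hx : ((201326592 : ℕ) : ℝ) / S ≤ x) (hx' : x ≤ (((201326592 : ℕ) : ℝ) + (134217728 : ℕ)) / S) :
    TriB PP.cur (farS κ (h0 * x) (tbl tKF x) (tbl tL x)) 1 0 1 2 1 (-1) (-1) :=
  (sideF hx hx').farB (Or.inr rfl) (Or.inr rfl) fun y y' F =>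
    farB_cert (s1 := false) (s2 := false) rfl hκ covF21 covF11 hx hx'
        Pool.Agent.Strip051.G.I3_16_5_16.Tab.C.FB21.c_mm_101 noCut_B noExt_B F trivial trivial

theorem FB21_mm_102 {κ x : ℝ} (hκ : κ * h0 = ken x) (hx : ((201326592 : ℕ) : ℝ) / S ≤ x) (hx' : x ≤ (((201326592 : ℕ) : ℝ) + (134217728 : ℕ)) / S) :
    TriB PP.cur (farS κ (h0 * x) (tbl tKF x) (tbl tL x)) 1 0 2 2 1 (-1) (-1) :=
  (sideF hx hx').farB (Or.inr rfl) (Or.inr rfl) fun y y' F =>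
    (lt_or_ge (h0 * (y + y')) 1).elim
      (fun g => farB_cert (s1 := false) (s2 := false) rfl hκ covF21 covF12a hx hx'
        Pool.Agent.Strip051.G.I3_16_5_16.Tab.C.FB21.c_mm_102_a noCut_B noExt_B F trivial g)
      (fun g => farB_cert (s1 := false) (s2 := false) rfl hκ covF21 covF12b hx hx'
        Pool.Agent.Strip051.G.I3_16_5_16.Tab.C.FB21.c_mm_102_b noCut_B noExt_B F trivial g)

theorem FB21_mm_112 {κ x : ℝ} (hκ : κ * h0 = ken x) (hx : ((201326592 : ℕ) : ℝ) / S ≤ x) (hx' : x ≤ (((201326592 : ℕ) : ℝ) + (134217728 : ℕ)) / S) :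
    TriB PP.cur (farS κ (h0 * x) (tbl tKF x) (tbl tL x)) 1 1 2 2 1 (-1) (-1) :=
  (sideF hx hx').farB (Or.inr rfl) (Or.inr rfl) fun y y' F =>
    (lt_or_ge (h0 * (y + y')) 1).elim
      (fun g => farB_cert (s1 := false) (s2 := false) rfl hκ covF21 covF12a hx hx'
        Pool.Agent.Strip051.G.I3_16_5_16.Tab.C.FB21.c_mm_112_a noCut_B noExt_B F trivial g)
      (fun g => farB_cert (s1 := false) (s2 := false) rfl hκ covF21 covF12b hx hx'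
        Pool.Agent.Strip051.G.I3_16_5_16.Tab.C.FB21.c_mm_112_b noCut_B noExt_B F trivial g)

theorem FB21_mm_113 {κ x : ℝ} (hκ : κ * h0 = ken x) (hx : ((201326592 : ℕ) : ℝ) / S ≤ x) (hx' : x ≤ (((201326592 : ℕ) : ℝ) + (134217728 : ℕ)) / S) :
    TriB PP.cur (farS κ (h0 * x) (tbl tKF x) (tbl tL x)) 1 1 3 2 1 (-1) (-1) :=
  (sideF hx hx').farB (Or.inr rfl) (Or.inr rfl) fun y y' F =>
    farB_cert (s1 := false) (s2 := false) rfl hκ covF21 covF13 hx hx'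
        Pool.Agent.Strip051.G.I3_16_5_16.Tab.C.FB21.c_mm_113 noCut_B noExt_B F trivial trivial

theorem FB21_mm_123 {κ x : ℝ} (hκ : κ * h0 = ken x) (hx : ((201326592 : ℕ) : ℝ) / S ≤ x) (hx' : x ≤ (((201326592 : ℕ) : ℝ) + (134217728 : ℕ)) / S) :
    TriB PP.cur (farS κ (h0 * x) (tbl tKF x) (tbl tL x)) 1 2 3 2 1 (-1) (-1) :=
  (sideF hx hx').farB (Or.inr rfl) (Or.inr rfl) fun y y' F =>
    farB_cert (s1 := false) (s2 := false) rfl hκ covF21 covF13 hx hx'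
        Pool.Agent.Strip051.G.I3_16_5_16.Tab.C.FB21.c_mm_123 noCut_B noExt_B F trivial trivial

theorem FB21_mm_133 {κ x : ℝ} (hκ : κ * h0 = ken x) (hx : ((201326592 : ℕ) : ℝ) / S ≤ x) (hx' : x ≤ (((201326592 : ℕ) : ℝ) + (134217728 : ℕ)) / S) :
    TriB PP.cur (farS κ (h0 * x) (tbl tKF x) (tbl tL x)) 1 3 3 2 1 (-1) (-1) :=
  (sideF hx hx').farB (Or.inr rfl) (Or.inr rfl) fun y y' F =>
    farB_cert (s1 := false) (s2 := false) rfl hκ covF21 covF13 hx hx'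
        Pool.Agent.Strip051.G.I3_16_5_16.Tab.C.FB21.c_mm_133 noCut_B noExt_B F trivial trivial

theorem FB21_mm_202 {κ x : ℝ} (hκ : κ * h0 = ken x) (hx : ((201326592 : ℕ) : ℝ) / S ≤ x) (hx' : x ≤ (((201326592 : ℕ) : ℝ) + (134217728 : ℕ)) / S) :
    TriB PP.cur (farS κ (h0 * x) (tbl tKF x) (tbl tL x)) 2 0 2 2 1 (-1) (-1) :=
  (sideF hx hx').farB (Or.inr rfl) (Or.inr rfl) fun y y' F =>
    (lt_or_ge (h0 * y) 1).elim
      (fun h => (lt_or_ge (h0 * (y + y')) 1).elim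
        (fun g => farB_cert (s1 := false) (s2 := false) rfl hκ covF22a covF12a hx hx'
        Pool.Agent.Strip051.G.I3_16_5_16.Tab.C.FB21.c_mm_202_aa noCut_B noExt_B F h g)
        (fun g => farB_cert (s1 := false) (s2 := false) rfl hκ covF22a covF12b hx hx'
        Pool.Agent.Strip051.G.I3_16_5_16.Tab.C.FB21.c_mm_202_ab noCut_B noExt_B F h g))
      (fun h => (lt_or_ge (h0 * (y + y')) 1).elim
        (fun g => farB_cert (s1 := false) (s2 := false) rfl hκ covF22b covF12a hx hx'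
        Pool.Agent.Strip051.G.I3_16_5_16.Tab.C.FB21.c_mm_202_ba noCut_B noExt_B F h g)
        (fun g => farB_cert (s1 := false) (s2 := false) rfl hκ covF22b covF12b hx hx'
        Pool.Agent.Strip051.G.I3_16_5_16.Tab.C.FB21.c_mm_202_bb noCut_B noExt_B F h g))

theorem FB21_mm_203 {κ x : ℝ} (hκ : κ * h0 = ken x) (hx : ((201326592 : ℕ) : ℝ) / S ≤ x) (hx' : x ≤ (((201326592 : ℕ) : ℝ) + (134217728 : ℕ)) / S) :
    TriB PP.cur (farS κ (h0 * x) (tbl tKF x) (tbl tL x)) 2 0 3 2 1 (-1) (-1) :=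
  (sideF hx hx').farB (Or.inr rfl) (Or.inr rfl) fun y y' F =>
    (lt_or_ge (h0 * y) 1).elim
      (fun h => farB_cert (s1 := false) (s2 := false) rfl hκ covF22a covF13 hx hx'
        Pool.Agent.Strip051.G.I3_16_5_16.Tab.C.FB21.c_mm_203_a noCut_B noExt_B F h trivial)
      (fun h => farB_cert (s1 := false) (s2 := false) rfl hκ covF22b covF13 hx hx'
        Pool.Agent.Strip051.G.I3_16_5_16.Tab.C.FB21.c_mm_203_b noCut_B noExt_B F h trivial)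

theorem FB21_mm_213 {κ x : ℝ} (hκ : κ * h0 = ken x) (hx : ((201326592 : ℕ) : ℝ) / S ≤ x) (hx' : x ≤ (((201326592 : ℕ) : ℝ) + (134217728 : ℕ)) / S) :
    TriB PP.cur (farS κ (h0 * x) (tbl tKF x) (tbl tL x)) 2 1 3 2 1 (-1) (-1) :=
  (sideF hx hx').farB (Or.inr rfl) (Or.inr rfl) fun y y' F =>
    (lt_or_ge (h0 * y) 1).elim
      (fun h => farB_cert (s1 := false) (s2 := false) rfl hκ covF22a covF13 hx hx'
        Pool.Agent.Strip051.G.I3_16_5_16.Tab.C.FB21.c_mm_213_a noCut_B noExt_B F h trivial)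
      (fun h => farB_cert (s1 := false) (s2 := false) rfl hκ covF22b covF13 hx hx'
        Pool.Agent.Strip051.G.I3_16_5_16.Tab.C.FB21.c_mm_213_b noCut_B noExt_B F h trivial)

theorem FB21_mm_303 {κ x : ℝ} (hκ : κ * h0 = ken x) (hx : ((201326592 : ℕ) : ℝ) / S ≤ x) (hx' : x ≤ (((201326592 : ℕ) : ℝ) + (134217728 : ℕ)) / S) :
    TriB PP.cur (farS κ (h0 * x) (tbl tKF x) (tbl tL x)) 3 0 3 2 1 (-1) (-1) :=
  (sideF hx hx').farB (Or.inr rfl) (Or.inr rfl) fun y y' F =>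
    farB_cert (s1 := false) (s2 := false) rfl hκ covF23 covF13 hx hx'
        Pool.Agent.Strip051.G.I3_16_5_16.Tab.C.FB21.c_mm_303 noCut_B noExt_B F trivial trivial

theorem FB21_mm_313 {κ x : ℝ} (hκ : κ * h0 = ken x) (hx : ((201326592 : ℕ) : ℝ) / S ≤ x) (hx' : x ≤ (((201326592 : ℕ) : ℝ) + (134217728 : ℕ)) / S) :
    TriB PP.cur (farS κ (h0 * x) (tbl tKF x) (tbl tL x)) 3 1 3 2 1 (-1) (-1) :=
  (sideF hx hx').farB (Or.inr rfl) (Or.inr rfl) fun y y' F =>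
    farB_cert (s1 := false) (s2 := false) rfl hκ covF23 covF13 hx hx'
        Pool.Agent.Strip051.G.I3_16_5_16.Tab.C.FB21.c_mm_313 noCut_B noExt_B F trivial trivial

theorem FB21 {κ x : ℝ} (hκ : κ * h0 = ken x) (hx : ((201326592 : ℕ) : ℝ) / S ≤ x) (hx' : x ≤ (((201326592 : ℕ) : ℝ) + (134217728 : ℕ)) / S) : AllTB PP.cur (farS κ (h0 * x) (tbl tKF x) (tbl tL x)) 2 1 where
  pp := all17 (Q := fun a b c => TriB PP.cur (farS κ (h0 * x) (tbl tKF x) (tbl tL x)) a b c 2 1 1 1)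
    (FB21_pp_001 hκ hx hx') (FB21_pp_011 hκ hx hx') (FB21_pp_012 hκ hx hx') (FB21_pp_022 hκ hx hx') (FB21_pp_023 hκ hx hx') (FB21_pp_033 hκ hx hx') (FB21_pp_101 hκ hx hx') (FB21_pp_102 hκ hx hx') (FB21_pp_112 hκ hx hx') (FB21_pp_113 hκ hx hx') (FB21_pp_123 hκ hx hx') (FB21_pp_133 hκ hx hx') (FB21_pp_202 hκ hx hx') (FB21_pp_203 hκ hx hx') (FB21_pp_213 hκ hx hx') (FB21_pp_303 hκ hx hx') (FB21_pp_313 hκ hx hx')
  pm := all17 (Q := fun a b c => TriB PP.cur (farS κ (h0 * x) (tbl tKF x) (tbl tL x)) a b c 2 1 1 (-1))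
    (FB21_pm_001 hκ hx hx') (FB21_pm_011 hκ hx hx') (FB21_pm_012 hκ hx hx') (FB21_pm_022 hκ hx hx') (FB21_pm_023 hκ hx hx') (FB21_pm_033 hκ hx hx') (FB21_pm_101 hκ hx hx') (FB21_pm_102 hκ hx hx') (FB21_pm_112 hκ hx hx') (FB21_pm_113 hκ hx hx') (FB21_pm_123 hκ hx hx') (FB21_pm_133 hκ hx hx') (FB21_pm_202 hκ hx hx') (FB21_pm_203 hκ hx hx') (FB21_pm_213 hκ hx hx') (FB21_pm_303 hκ hx hx') (FB21_pm_313 hκ hx hx')
  mm := all17 (Q := fun a b c => TriB PP.cur (farS κ (h0 * x) (tbl tKF x) (tbl tL x)) a b c 2 1 (-1) (-1))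
    (FB21_mm_001 hκ hx hx') (FB21_mm_011 hκ hx hx') (FB21_mm_012 hκ hx hx') (FB21_mm_022 hκ hx hx') (FB21_mm_023 hκ hx hx') (FB21_mm_033 hκ hx hx') (FB21_mm_101 hκ hx hx') (FB21_mm_102 hκ hx hx') (FB21_mm_112 hκ hx hx') (FB21_mm_113 hκ hx hx') (FB21_mm_123 hκ hx hx') (FB21_mm_133 hκ hx hx') (FB21_mm_202 hκ hx hx') (FB21_mm_203 hκ hx hx') (FB21_mm_213 hκ hx hx') (FB21_mm_303 hκ hx hx') (FB21_mm_313 hκ hx hx')

theorem FB22_pp_001 {κ x : ℝ} (hκ : κ * h0 = ken x) (hx : ((201326592 : ℕ) : ℝ) / S ≤ x) (hx' : x ≤ (((201326592 : ℕ) : ℝ) + (134217728 : ℕ)) / S) :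
    TriB PP.cur (farS κ (h0 * x) (tbl tKF x) (tbl tL x)) 0 0 1 2 2 1 1 :=
  (sideF hx hx').farB (Or.inl rfl) (Or.inl rfl) fun y y' F =>
    farB_cert (s1 := true) (s2 := true) rfl hκ covF20 covF21 hx hx'
        Pool.Agent.Strip051.G.I3_16_5_16.Tab.C.FB22.c_pp_001 noCut_B noExt_B F trivial trivial

theorem FB22_pp_011 {κ x : ℝ} (hκ : κ * h0 = ken x) (hx : ((201326592 : ℕ) : ℝ) / S ≤ x) (hx' : x ≤ (((201326592 : ℕ) : ℝ) + (134217728 : ℕ)) / S) :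
    TriB PP.cur (farS κ (h0 * x) (tbl tKF x) (tbl tL x)) 0 1 1 2 2 1 1 :=
  (sideF hx hx').farB (Or.inl rfl) (Or.inl rfl) fun y y' F =>
    farB_cert (s1 := true) (s2 := true) rfl hκ covF20 covF21 hx hx'
        Pool.Agent.Strip051.G.I3_16_5_16.Tab.C.FB22.c_pp_011 noCut_B noExt_B F trivial trivial

theorem FB22_pp_012 {κ x : ℝ} (hκ : κ * h0 = ken x) (hx : ((201326592 : ℕ) : ℝ) / S ≤ x) (hx' : x ≤ (((201326592 : ℕ) : ℝ) + (134217728 : ℕ)) / S) :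
    TriB PP.cur (farS κ (h0 * x) (tbl tKF x) (tbl tL x)) 0 1 2 2 2 1 1 :=
  (sideF hx hx').farB (Or.inl rfl) (Or.inl rfl) fun y y' F =>
    (lt_or_ge (h0 * (y + y')) 1).elim
      (fun g => farB_cert (s1 := true) (s2 := true) rfl hκ covF20 covF22a hx hx'
        Pool.Agent.Strip051.G.I3_16_5_16.Tab.C.FB22.c_pp_012_a (cutB_cons (Pool.Agent.Strip051.G.I3_16_5_16.Tab.altF_B012E_22 hκ hx hx') cutB_nil) noExt_B F trivial g)
      (fun g => farB_cert (s1 := true) (s2 := true) rfl hκ covF20 covF22b hx hx'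
        Pool.Agent.Strip051.G.I3_16_5_16.Tab.C.FB22.c_pp_012_b (cutB_cons (Pool.Agent.Strip051.G.I3_16_5_16.Tab.altF_B012E_22 hκ hx hx') cutB_nil) noExt_B F trivial g)

theorem FB22_pp_022 {κ x : ℝ} (hκ : κ * h0 = ken x) (hx : ((201326592 : ℕ) : ℝ) / S ≤ x) (hx' : x ≤ (((201326592 : ℕ) : ℝ) + (134217728 : ℕ)) / S) :
    TriB PP.cur (farS κ (h0 * x) (tbl tKF x) (tbl tL x)) 0 2 2 2 2 1 1 :=
  (sideF hx hx').farB (Or.inl rfl) (Or.inl rfl) fun y y' F =>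
    (lt_or_ge (h0 * (y + y')) 1).elim
      (fun g => farB_cert (s1 := true) (s2 := true) rfl hκ covF20 covF22a hx hx'
        Pool.Agent.Strip051.G.I3_16_5_16.Tab.C.FB22.c_pp_022_a (cutB_cons (Pool.Agent.Strip051.G.I3_16_5_16.Tab.altF_B022E_22 hκ hx hx') cutB_nil) noExt_B F trivial g)
      (fun g => farB_cert (s1 := true) (s2 := true) rfl hκ covF20 covF22b hx hx'
        Pool.Agent.Strip051.G.I3_16_5_16.Tab.C.FB22.c_pp_022_b (cutB_cons (Pool.Agent.Strip051.G.I3_16_5_16.Tab.altF_B022E_22 hκ hx hx') cutB_nil) noExt_B F trivial g)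

theorem FB22_pp_023 {κ x : ℝ} (hκ : κ * h0 = ken x) (hx : ((201326592 : ℕ) : ℝ) / S ≤ x) (hx' : x ≤ (((201326592 : ℕ) : ℝ) + (134217728 : ℕ)) / S) :
    TriB PP.cur (farS κ (h0 * x) (tbl tKF x) (tbl tL x)) 0 2 3 2 2 1 1 :=
  (sideF hx hx').farB (Or.inl rfl) (Or.inl rfl) fun y y' F =>
    farB_cert (s1 := true) (s2 := true) rfl hκ covF20 covF23 hx hx'
        Pool.Agent.Strip051.G.I3_16_5_16.Tab.C.FB22.c_pp_023 noCut_B noExt_B F trivial trivial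

theorem FB22_pp_033 {κ x : ℝ} (hκ : κ * h0 = ken x) (hx : ((201326592 : ℕ) : ℝ) / S ≤ x) (hx' : x ≤ (((201326592 : ℕ) : ℝ) + (134217728 : ℕ)) / S) :
    TriB PP.cur (farS κ (h0 * x) (tbl tKF x) (tbl tL x)) 0 3 3 2 2 1 1 :=
  (sideF hx hx').farB (Or.inl rfl) (Or.inl rfl) fun y y' F =>
    farB_cert (s1 := true) (s2 := true) rfl hκ covF20 covF23 hx hx'
        Pool.Agent.Strip051.G.I3_16_5_16.Tab.C.FB22.c_pp_033 noCut_B noExt_B F trivial trivial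

theorem FB22_pp_101 {κ x : ℝ} (hκ : κ * h0 = ken x) (hx : ((201326592 : ℕ) : ℝ) / S ≤ x) (hx' : x ≤ (((201326592 : ℕ) : ℝ) + (134217728 : ℕ)) / S) :
    TriB PP.cur (farS κ (h0 * x) (tbl tKF x) (tbl tL x)) 1 0 1 2 2 1 1 :=
  (sideF hx hx').farB (Or.inl rfl) (Or.inl rfl) fun y y' F =>
    farB_cert (s1 := true) (s2 := true) rfl hκ covF21 covF21 hx hx'
        Pool.Agent.Strip051.G.I3_16_5_16.Tab.C.FB22.c_pp_101 noCut_B noExt_B F trivial trivial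

theorem FB22_pp_102 {κ x : ℝ} (hκ : κ * h0 = ken x) (hx : ((201326592 : ℕ) : ℝ) / S ≤ x) (hx' : x ≤ (((201326592 : ℕ) : ℝ) + (134217728 : ℕ)) / S) :
    TriB PP.cur (farS κ (h0 * x) (tbl tKF x) (tbl tL x)) 1 0 2 2 2 1 1 :=
  (sideF hx hx').farB (Or.inl rfl) (Or.inl rfl) fun y y' F =>
    (lt_or_ge (h0 * (y + y')) 1).elim
      (fun g => farB_cert (s1 := true) (s2 := true) rfl hκ covF21 covF22a hx hx'
        Pool.Agent.Strip051.G.I3_16_5_16.Tab.C.FB22.c_pp_102_a noCut_B noExt_B F trivial g)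
      (fun g => farB_cert (s1 := true) (s2 := true) rfl hκ covF21 covF22b hx hx'
        Pool.Agent.Strip051.G.I3_16_5_16.Tab.C.FB22.c_pp_102_b noCut_B noExt_B F trivial g)

theorem FB22_pp_112 {κ x : ℝ} (hκ : κ * h0 = ken x) (hx : ((201326592 : ℕ) : ℝ) / S ≤ x) (hx' : x ≤ (((201326592 : ℕ) : ℝ) + (134217728 : ℕ)) / S) :
    TriB PP.cur (farS κ (h0 * x) (tbl tKF x) (tbl tL x)) 1 1 2 2 2 1 1 :=
  (sideF hx hx').farB (Or.inl rfl) (Or.inl rfl) fun y y' F =>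
    (lt_or_ge (h0 * (y + y')) 1).elim
      (fun g => farB_cert (s1 := true) (s2 := true) rfl hκ covF21 covF22a hx hx'
        Pool.Agent.Strip051.G.I3_16_5_16.Tab.C.FB22.c_pp_112_a noCut_B noExt_B F trivial g)
      (fun g => farB_cert (s1 := true) (s2 := true) rfl hκ covF21 covF22b hx hx'
        Pool.Agent.Strip051.G.I3_16_5_16.Tab.C.FB22.c_pp_112_b noCut_B noExt_B F trivial g)

theorem FB22_pp_113 {κ x : ℝ} (hκ : κ * h0 = ken x) (hx : ((201326592 : ℕ) : ℝ) / S ≤ x) (hx' : x ≤ (((201326592 : ℕ) : ℝ) + (134217728 : ℕ)) / S) :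
    TriB PP.cur (farS κ (h0 * x) (tbl tKF x) (tbl tL x)) 1 1 3 2 2 1 1 :=
  (sideF hx hx').farB (Or.inl rfl) (Or.inl rfl) fun y y' F =>
    farB_cert (s1 := true) (s2 := true) rfl hκ covF21 covF23 hx hx'
        Pool.Agent.Strip051.G.I3_16_5_16.Tab.C.FB22.c_pp_113 noCut_B noExt_B F trivial trivial

theorem FB22_pp_123 {κ x : ℝ} (hκ : κ * h0 = ken x) (hx : ((201326592 : ℕ) : ℝ) / S ≤ x) (hx' : x ≤ (((201326592 : ℕ) : ℝ) + (134217728 : ℕ)) / S) :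
    TriB PP.cur (farS κ (h0 * x) (tbl tKF x) (tbl tL x)) 1 2 3 2 2 1 1 :=
  (sideF hx hx').farB (Or.inl rfl) (Or.inl rfl) fun y y' F =>
    farB_cert (s1 := true) (s2 := true) rfl hκ covF21 covF23 hx hx'
        Pool.Agent.Strip051.G.I3_16_5_16.Tab.C.FB22.c_pp_123 noCut_B noExt_B F trivial trivial

theorem FB22_pp_133 {κ x : ℝ} (hκ : κ * h0 = ken x) (hx : ((201326592 : ℕ) : ℝ) / S ≤ x) (hx' : x ≤ (((201326592 : ℕ) : ℝ) + (134217728 : ℕ)) / S) :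
    TriB PP.cur (farS κ (h0 * x) (tbl tKF x) (tbl tL x)) 1 3 3 2 2 1 1 :=
  (sideF hx hx').farB (Or.inl rfl) (Or.inl rfl) fun y y' F =>
    farB_cert (s1 := true) (s2 := true) rfl hκ covF21 covF23 hx hx'
        Pool.Agent.Strip051.G.I3_16_5_16.Tab.C.FB22.c_pp_133 noCut_B noExt_B F trivial trivial

theorem FB22_pp_202 {κ x : ℝ} (hκ : κ * h0 = ken x) (hx : ((201326592 : ℕ) : ℝ) / S ≤ x) (hx' : x ≤ (((201326592 : ℕ) : ℝ) + (134217728 : ℕ)) / S) :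
    TriB PP.cur (farS κ (h0 * x) (tbl tKF x) (tbl tL x)) 2 0 2 2 2 1 1 :=
  (sideF hx hx').farB (Or.inl rfl) (Or.inl rfl) fun y y' F =>
    (lt_or_ge (h0 * y) 1).elim
      (fun h => (lt_or_ge (h0 * (y + y')) 1).elim
        (fun g => farB_cert (s1 := true) (s2 := true) rfl hκ covF22a covF22a hx hx'
        Pool.Agent.Strip051.G.I3_16_5_16.Tab.C.FB22.c_pp_202_aa noCut_B noExt_B F h g)
        (fun g => farB_cert (s1 := true) (s2 := true) rfl hκ covF22a covF22b hx hx'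
        Pool.Agent.Strip051.G.I3_16_5_16.Tab.C.FB22.c_pp_202_ab noCut_B noExt_B F h g))
      (fun h => (lt_or_ge (h0 * (y + y')) 1).elim
        (fun g => farB_cert (s1 := true) (s2 := true) rfl hκ covF22b covF22a hx hx'
        Pool.Agent.Strip051.G.I3_16_5_16.Tab.C.FB22.c_pp_202_ba noCut_B noExt_B F h g)
        (fun g => farB_cert (s1 := true) (s2 := true) rfl hκ covF22b covF22b hx hx'
        Pool.Agent.Strip051.G.I3_16_5_16.Tab.C.FB22.c_pp_202_bb noCut_B noExt_B F h g))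

theorem FB22_pp_203 {κ x : ℝ} (hκ : κ * h0 = ken x) (hx : ((201326592 : ℕ) : ℝ) / S ≤ x) (hx' : x ≤ (((201326592 : ℕ) : ℝ) + (134217728 : ℕ)) / S) :
    TriB PP.cur (farS κ (h0 * x) (tbl tKF x) (tbl tL x)) 2 0 3 2 2 1 1 :=
  (sideF hx hx').farB (Or.inl rfl) (Or.inl rfl) fun y y' F =>
    (lt_or_ge (h0 * y) 1).elim
      (fun h => farB_cert (s1 := true) (s2 := true) rfl hκ covF22a covF23 hx hx'
        Pool.Agent.Strip051.G.I3_16_5_16.Tab.C.FB22.c_pp_203_a noCut_B noExt_B F h trivial)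
      (fun h => farB_cert (s1 := true) (s2 := true) rfl hκ covF22b covF23 hx hx'
        Pool.Agent.Strip051.G.I3_16_5_16.Tab.C.FB22.c_pp_203_b noCut_B noExt_B F h trivial)

theorem FB22_pp_213 {κ x : ℝ} (hκ : κ * h0 = ken x) (hx : ((201326592 : ℕ) : ℝ) / S ≤ x) (hx' : x ≤ (((201326592 : ℕ) : ℝ) + (134217728 : ℕ)) / S) :
    TriB PP.cur (farS κ (h0 * x) (tbl tKF x) (tbl tL x)) 2 1 3 2 2 1 1 :=
  (sideF hx hx').farB (Or.inl rfl) (Or.inl rfl) fun y y' F =>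
    (lt_or_ge (h0 * y) 1).elim
      (fun h => farB_cert (s1 := true) (s2 := true) rfl hκ covF22a covF23 hx hx'
        Pool.Agent.Strip051.G.I3_16_5_16.Tab.C.FB22.c_pp_213_a (cutB_cons (Pool.Agent.Strip051.G.I3_16_5_16.Tab.alt12F_B213_22p hκ hx hx') cutB_nil) noExt_B F h trivial)
      (fun h => farB_cert (s1 := true) (s2 := true) rfl hκ covF22b covF23 hx hx'
        Pool.Agent.Strip051.G.I3_16_5_16.Tab.C.FB22.c_pp_213_b (cutB_cons (Pool.Agent.Strip051.G.I3_16_5_16.Tab.alt12F_B213_22p hκ hx hx') cutB_nil) noExt_B F h trivial)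

theorem FB22_pp_303 {κ x : ℝ} (hκ : κ * h0 = ken x) (hx : ((201326592 : ℕ) : ℝ) / S ≤ x) (hx' : x ≤ (((201326592 : ℕ) : ℝ) + (134217728 : ℕ)) / S) :
    TriB PP.cur (farS κ (h0 * x) (tbl tKF x) (tbl tL x)) 3 0 3 2 2 1 1 :=
  (sideF hx hx').farB (Or.inl rfl) (Or.inl rfl) fun y y' F =>
    farB_cert (s1 := true) (s2 := true) rfl hκ covF23 covF23 hx hx'
        Pool.Agent.Strip051.G.I3_16_5_16.Tab.C.FB22.c_pp_303 noCut_B noExt_B F trivial trivial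

theorem FB22_pp_313 {κ x : ℝ} (hκ : κ * h0 = ken x) (hx : ((201326592 : ℕ) : ℝ) / S ≤ x) (hx' : x ≤ (((201326592 : ℕ) : ℝ) + (134217728 : ℕ)) / S) :
    TriB PP.cur (farS κ (h0 * x) (tbl tKF x) (tbl tL x)) 3 1 3 2 2 1 1 :=
  (sideF hx hx').farB (Or.inl rfl) (Or.inl rfl) fun y y' F =>
    farB_cert (s1 := true) (s2 := true) rfl hκ covF23 covF23 hx hx'
        Pool.Agent.Strip051.G.I3_16_5_16.Tab.C.FB22.c_pp_313 noCut_B noExt_B F trivial trivial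

theorem FB22_pm_001 {κ x : ℝ} (hκ : κ * h0 = ken x) (hx : ((201326592 : ℕ) : ℝ) / S ≤ x) (hx' : x ≤ (((201326592 : ℕ) : ℝ) + (134217728 : ℕ)) / S) :
    TriB PP.cur (farS κ (h0 * x) (tbl tKF x) (tbl tL x)) 0 0 1 2 2 1 (-1) :=
  (sideF hx hx').farB (Or.inl rfl) (Or.inr rfl) fun y y' F =>
    farB_cert (s1 := true) (s2 := false) rfl hκ covF20 covF21 hx hx'
        Pool.Agent.Strip051.G.I3_16_5_16.Tab.C.FB22.c_pm_001 noCut_B noExt_B F trivial trivial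

theorem FB22_pm_011 {κ x : ℝ} (hκ : κ * h0 = ken x) (hx : ((201326592 : ℕ) : ℝ) / S ≤ x) (hx' : x ≤ (((201326592 : ℕ) : ℝ) + (134217728 : ℕ)) / S) :
    TriB PP.cur (farS κ (h0 * x) (tbl tKF x) (tbl tL x)) 0 1 1 2 2 1 (-1) :=
  (sideF hx hx').farB (Or.inl rfl) (Or.inr rfl) fun y y' F =>
    farB_cert (s1 := true) (s2 := false) rfl hκ covF20 covF21 hx hx'
        Pool.Agent.Strip051.G.I3_16_5_16.Tab.C.FB22.c_pm_011 noCut_B noExt_B F trivial trivial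

theorem FB22_pm_012 {κ x : ℝ} (hκ : κ * h0 = ken x) (hx : ((201326592 : ℕ) : ℝ) / S ≤ x) (hx' : x ≤ (((201326592 : ℕ) : ℝ) + (134217728 : ℕ)) / S) :
    TriB PP.cur (farS κ (h0 * x) (tbl tKF x) (tbl tL x)) 0 1 2 2 2 1 (-1) :=
  (sideF hx hx').farB (Or.inl rfl) (Or.inr rfl) fun y y' F =>
    (lt_or_ge (h0 * (y + y')) 1).elim
      (fun g => farB_cert (s1 := true) (s2 := false) rfl hκ covF20 covF22a hx hx'
        Pool.Agent.Strip051.G.I3_16_5_16.Tab.C.FB22.c_pm_012_a (cutB_cons (Pool.Agent.Strip051.G.I3_16_5_16.Tab.altF_B012R_22 hκ hx hx') cutB_nil) noExt_B F trivial g)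
      (fun g => farB_cert (s1 := true) (s2 := false) rfl hκ covF20 covF22b hx hx'
        Pool.Agent.Strip051.G.I3_16_5_16.Tab.C.FB22.c_pm_012_b (cutB_cons (Pool.Agent.Strip051.G.I3_16_5_16.Tab.altF_B012R_22 hκ hx hx') cutB_nil) noExt_B F trivial g)

theorem FB22_pm_022 {κ x : ℝ} (hκ : κ * h0 = ken x) (hx : ((201326592 : ℕ) : ℝ) / S ≤ x) (hx' : x ≤ (((201326592 : ℕ) : ℝ) + (134217728 : ℕ)) / S) :
    TriB PP.cur (farS κ (h0 * x) (tbl tKF x) (tbl tL x)) 0 2 2 2 2 1 (-1) :=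
  (sideF hx hx').farB (Or.inl rfl) (Or.inr rfl) fun y y' F =>
    (lt_or_ge (h0 * (y + y')) 1).elim
      (fun g => farB_cert (s1 := true) (s2 := false) rfl hκ covF20 covF22a hx hx'
        Pool.Agent.Strip051.G.I3_16_5_16.Tab.C.FB22.c_pm_022_a (cutB_cons (Pool.Agent.Strip051.G.I3_16_5_16.Tab.altF_B022R_22 hκ hx hx') cutB_nil) noExt_B F trivial g)
      (fun g => farB_cert (s1 := true) (s2 := false) rfl hκ covF20 covF22b hx hx'
        Pool.Agent.Strip051.G.I3_16_5_16.Tab.C.FB22.c_pm_022_b (cutB_cons (Pool.Agent.Strip051.G.I3_16_5_16.Tab.altF_B022R_22 hκ hx hx') cutB_nil) noExt_B F trivial g)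

theorem FB22_pm_023 {κ x : ℝ} (hκ : κ * h0 = ken x) (hx : ((201326592 : ℕ) : ℝ) / S ≤ x) (hx' : x ≤ (((201326592 : ℕ) : ℝ) + (134217728 : ℕ)) / S) :
    TriB PP.cur (farS κ (h0 * x) (tbl tKF x) (tbl tL x)) 0 2 3 2 2 1 (-1) :=
  (sideF hx hx').farB (Or.inl rfl) (Or.inr rfl) fun y y' F =>
    farB_cert (s1 := true) (s2 := false) rfl hκ covF20 covF23 hx hx'
        Pool.Agent.Strip051.G.I3_16_5_16.Tab.C.FB22.c_pm_023 noCut_B noExt_B F trivial trivial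

theorem FB22_pm_033 {κ x : ℝ} (hκ : κ * h0 = ken x) (hx : ((201326592 : ℕ) : ℝ) / S ≤ x) (hx' : x ≤ (((201326592 : ℕ) : ℝ) + (134217728 : ℕ)) / S) :
    TriB PP.cur (farS κ (h0 * x) (tbl tKF x) (tbl tL x)) 0 3 3 2 2 1 (-1) :=
  (sideF hx hx').farB (Or.inl rfl) (Or.inr rfl) fun y y' F =>
    farB_cert (s1 := true) (s2 := false) rfl hκ covF20 covF23 hx hx'
        Pool.Agent.Strip051.G.I3_16_5_16.Tab.C.FB22.c_pm_033 noCut_B noExt_B F trivial trivial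

theorem FB22_pm_101 {κ x : ℝ} (hκ : κ * h0 = ken x) (hx : ((201326592 : ℕ) : ℝ) / S ≤ x) (hx' : x ≤ (((201326592 : ℕ) : ℝ) + (134217728 : ℕ)) / S) :
    TriB PP.cur (farS κ (h0 * x) (tbl tKF x) (tbl tL x)) 1 0 1 2 2 1 (-1) :=
  (sideF hx hx').farB (Or.inl rfl) (Or.inr rfl) fun y y' F =>
    farB_cert (s1 := true) (s2 := false) rfl hκ covF21 covF21 hx hx'
        Pool.Agent.Strip051.G.I3_16_5_16.Tab.C.FB22.c_pm_101 noCut_B noExt_B F trivial trivial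

theorem FB22_pm_102 {κ x : ℝ} (hκ : κ * h0 = ken x) (hx : ((201326592 : ℕ) : ℝ) / S ≤ x) (hx' : x ≤ (((201326592 : ℕ) : ℝ) + (134217728 : ℕ)) / S) :
    TriB PP.cur (farS κ (h0 * x) (tbl tKF x) (tbl tL x)) 1 0 2 2 2 1 (-1) :=
  (sideF hx hx').farB (Or.inl rfl) (Or.inr rfl) fun y y' F =>
    (lt_or_ge (h0 * (y + y')) 1).elim
      (fun g => farB_cert (s1 := true) (s2 := false) rfl hκ covF21 covF22a hx hx'
        Pool.Agent.Strip051.G.I3_16_5_16.Tab.C.FB22.c_pm_102_a noCut_B noExt_B F trivial g)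
      (fun g => farB_cert (s1 := true) (s2 := false) rfl hκ covF21 covF22b hx hx'
        Pool.Agent.Strip051.G.I3_16_5_16.Tab.C.FB22.c_pm_102_b noCut_B noExt_B F trivial g)

theorem FB22_pm_112 {κ x : ℝ} (hκ : κ * h0 = ken x) (hx : ((201326592 : ℕ) : ℝ) / S ≤ x) (hx' : x ≤ (((201326592 : ℕ) : ℝ) + (134217728 : ℕ)) / S) :
    TriB PP.cur (farS κ (h0 * x) (tbl tKF x) (tbl tL x)) 1 1 2 2 2 1 (-1) :=
  (sideF hx hx').farB (Or.inl rfl) (Or.inr rfl) fun y y' F =>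
    (lt_or_ge (h0 * (y + y')) 1).elim
      (fun g => farB_cert (s1 := true) (s2 := false) rfl hκ covF21 covF22a hx hx'
        Pool.Agent.Strip051.G.I3_16_5_16.Tab.C.FB22.c_pm_112_a noCut_B noExt_B F trivial g)
      (fun g => farB_cert (s1 := true) (s2 := false) rfl hκ covF21 covF22b hx hx'
        Pool.Agent.Strip051.G.I3_16_5_16.Tab.C.FB22.c_pm_112_b noCut_B noExt_B F trivial g)

theorem FB22_pm_113 {κ x : ℝ} (hκ : κ * h0 = ken x) (hx : ((201326592 : ℕ) : ℝ) / S ≤ x) (hx' : x ≤ (((201326592 : ℕ) : ℝ) + (134217728 : ℕ)) / S) :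
    TriB PP.cur (farS κ (h0 * x) (tbl tKF x) (tbl tL x)) 1 1 3 2 2 1 (-1) :=
  (sideF hx hx').farB (Or.inl rfl) (Or.inr rfl) fun y y' F =>
    farB_cert (s1 := true) (s2 := false) rfl hκ covF21 covF23 hx hx'
        Pool.Agent.Strip051.G.I3_16_5_16.Tab.C.FB22.c_pm_113 noCut_B noExt_B F trivial trivial

theorem FB22_pm_123 {κ x : ℝ} (hκ : κ * h0 = ken x) (hx : ((201326592 : ℕ) : ℝ) / S ≤ x) (hx' : x ≤ (((201326592 : ℕ) : ℝ) + (134217728 : ℕ)) / S) :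
    TriB PP.cur (farS κ (h0 * x) (tbl tKF x) (tbl tL x)) 1 2 3 2 2 1 (-1) :=
  (sideF hx hx').farB (Or.inl rfl) (Or.inr rfl) fun y y' F =>
    farB_cert (s1 := true) (s2 := false) rfl hκ covF21 covF23 hx hx'
        Pool.Agent.Strip051.G.I3_16_5_16.Tab.C.FB22.c_pm_123 noCut_B noExt_B F trivial trivial

theorem FB22_pm_133 {κ x : ℝ} (hκ : κ * h0 = ken x) (hx : ((201326592 : ℕ) : ℝ) / S ≤ x) (hx' : x ≤ (((201326592 : ℕ) : ℝ) + (134217728 : ℕ)) / S) :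
    TriB PP.cur (farS κ (h0 * x) (tbl tKF x) (tbl tL x)) 1 3 3 2 2 1 (-1) :=
  (sideF hx hx').farB (Or.inl rfl) (Or.inr rfl) fun y y' F =>
    farB_cert (s1 := true) (s2 := false) rfl hκ covF21 covF23 hx hx'
        Pool.Agent.Strip051.G.I3_16_5_16.Tab.C.FB22.c_pm_133 noCut_B noExt_B F trivial trivial

theorem FB22_pm_202 {κ x : ℝ} (hκ : κ * h0 = ken x) (hx : ((201326592 : ℕ) : ℝ) / S ≤ x) (hx' : x ≤ (((201326592 : ℕ) : ℝ) + (134217728 : ℕ)) / S) :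
    TriB PP.cur (farS κ (h0 * x) (tbl tKF x) (tbl tL x)) 2 0 2 2 2 1 (-1) :=
  (sideF hx hx').farB (Or.inl rfl) (Or.inr rfl) fun y y' F =>
    (lt_or_ge (h0 * y) 1).elim
      (fun h => (lt_or_ge (h0 * (y + y')) 1).elim
        (fun g => farB_cert (s1 := true) (s2 := false) rfl hκ covF22a covF22a hx hx'
        Pool.Agent.Strip051.G.I3_16_5_16.Tab.C.FB22.c_pm_202_aa (cutB_cons (Pool.Agent.Strip051.G.I3_16_5_16.Tab.altF_B202E_22 hκ hx hx') cutB_nil) noExt_B F h g)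
        (fun g => farB_cert (s1 := true) (s2 := false) rfl hκ covF22a covF22b hx hx'
        Pool.Agent.Strip051.G.I3_16_5_16.Tab.C.FB22.c_pm_202_ab (cutB_cons (Pool.Agent.Strip051.G.I3_16_5_16.Tab.altF_B202E_22 hκ hx hx') cutB_nil) noExt_B F h g))
      (fun h => (lt_or_ge (h0 * (y + y')) 1).elim
        (fun g => farB_cert (s1 := true) (s2 := false) rfl hκ covF22b covF22a hx hx'
        Pool.Agent.Strip051.G.I3_16_5_16.Tab.C.FB22.c_pm_202_ba (cutB_cons (Pool.Agent.Strip051.G.I3_16_5_16.Tab.altF_B202E_22 hκ hx hx') cutB_nil) noExt_B F h g)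
        (fun g => farB_cert (s1 := true) (s2 := false) rfl hκ covF22b covF22b hx hx'
        Pool.Agent.Strip051.G.I3_16_5_16.Tab.C.FB22.c_pm_202_bb (cutB_cons (Pool.Agent.Strip051.G.I3_16_5_16.Tab.altF_B202E_22 hκ hx hx') cutB_nil) noExt_B F h g))

theorem FB22_pm_203 {κ x : ℝ} (hκ : κ * h0 = ken x) (hx : ((201326592 : ℕ) : ℝ) / S ≤ x) (hx' : x ≤ (((201326592 : ℕ) : ℝ) + (134217728 : ℕ)) / S) :
    TriB PP.cur (farS κ (h0 * x) (tbl tKF x) (tbl tL x)) 2 0 3 2 2 1 (-1) :=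
  (sideF hx hx').farB (Or.inl rfl) (Or.inr rfl) fun y y' F =>
    (lt_or_ge (h0 * y) 1).elim
      (fun h => farB_cert (s1 := true) (s2 := false) rfl hκ covF22a covF23 hx hx'
        Pool.Agent.Strip051.G.I3_16_5_16.Tab.C.FB22.c_pm_203_a noCut_B noExt_B F h trivial)
      (fun h => farB_cert (s1 := true) (s2 := false) rfl hκ covF22b covF23 hx hx'
        Pool.Agent.Strip051.G.I3_16_5_16.Tab.C.FB22.c_pm_203_b noCut_B noExt_B F h trivial)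

theorem FB22_pm_213 {κ x : ℝ} (hκ : κ * h0 = ken x) (hx : ((201326592 : ℕ) : ℝ) / S ≤ x) (hx' : x ≤ (((201326592 : ℕ) : ℝ) + (134217728 : ℕ)) / S) :
    TriB PP.cur (farS κ (h0 * x) (tbl tKF x) (tbl tL x)) 2 1 3 2 2 1 (-1) :=
  (sideF hx hx').farB (Or.inl rfl) (Or.inr rfl) fun y y' F =>
    (lt_or_ge (h0 * y) 1).elim
      (fun h => farB_cert (s1 := true) (s2 := false) rfl hκ covF22a covF23 hx hx'
        Pool.Agent.Strip051.G.I3_16_5_16.Tab.C.FB22.c_pm_213_a (cutB_cons (Pool.Agent.Strip051.G.I3_16_5_16.Tab.alt12F_B213_22m hκ hx hx') cutB_nil) noExt_B F h trivial)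
      (fun h => farB_cert (s1 := true) (s2 := false) rfl hκ covF22b covF23 hx hx'
        Pool.Agent.Strip051.G.I3_16_5_16.Tab.C.FB22.c_pm_213_b (cutB_cons (Pool.Agent.Strip051.G.I3_16_5_16.Tab.alt12F_B213_22m hκ hx hx') cutB_nil) noExt_B F h trivial)

theorem FB22_pm_303 {κ x : ℝ} (hκ : κ * h0 = ken x) (hx : ((201326592 : ℕ) : ℝ) / S ≤ x) (hx' : x ≤ (((201326592 : ℕ) : ℝ) + (134217728 : ℕ)) / S) :
    TriB PP.cur (farS κ (h0 * x) (tbl tKF x) (tbl tL x)) 3 0 3 2 2 1 (-1) :=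
  (sideF hx hx').farB (Or.inl rfl) (Or.inr rfl) fun y y' F =>
    farB_cert (s1 := true) (s2 := false) rfl hκ covF23 covF23 hx hx'
        Pool.Agent.Strip051.G.I3_16_5_16.Tab.C.FB22.c_pm_303 noCut_B noExt_B F trivial trivial

theorem FB22_pm_313 {κ x : ℝ} (hκ : κ * h0 = ken x) (hx : ((201326592 : ℕ) : ℝ) / S ≤ x) (hx' : x ≤ (((201326592 : ℕ) : ℝ) + (134217728 : ℕ)) / S) :
    TriB PP.cur (farS κ (h0 * x) (tbl tKF x) (tbl tL x)) 3 1 3 2 2 1 (-1) :=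
  (sideF hx hx').farB (Or.inl rfl) (Or.inr rfl) fun y y' F =>
    farB_cert (s1 := true) (s2 := false) rfl hκ covF23 covF23 hx hx'
        Pool.Agent.Strip051.G.I3_16_5_16.Tab.C.FB22.c_pm_313 noCut_B noExt_B F trivial trivial

theorem FB22_mm_001 {κ x : ℝ} (hκ : κ * h0 = ken x) (hx : ((201326592 : ℕ) : ℝ) / S ≤ x) (hx' : x ≤ (((201326592 : ℕ) : ℝ) + (134217728 : ℕ)) / S) :
    TriB PP.cur (farS κ (h0 * x) (tbl tKF x) (tbl tL x)) 0 0 1 2 2 (-1) (-1) :=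
  (sideF hx hx').farB (Or.inr rfl) (Or.inr rfl) fun y y' F =>
    farB_cert (s1 := false) (s2 := false) rfl hκ covF20 covF21 hx hx'
        Pool.Agent.Strip051.G.I3_16_5_16.Tab.C.FB22.c_mm_001 noCut_B noExt_B F trivial trivial

theorem FB22_mm_011 {κ x : ℝ} (hκ : κ * h0 = ken x) (hx : ((201326592 : ℕ) : ℝ) / S ≤ x) (hx' : x ≤ (((201326592 : ℕ) : ℝ) + (134217728 : ℕ)) / S) :
    TriB PP.cur (farS κ (h0 * x) (tbl tKF x) (tbl tL x)) 0 1 1 2 2 (-1) (-1) :=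
  (sideF hx hx').farB (Or.inr rfl) (Or.inr rfl) fun y y' F =>
    farB_cert (s1 := false) (s2 := false) rfl hκ covF20 covF21 hx hx'
        Pool.Agent.Strip051.G.I3_16_5_16.Tab.C.FB22.c_mm_011 noCut_B noExt_B F trivial trivial

theorem FB22_mm_012 {κ x : ℝ} (hκ : κ * h0 = ken x) (hx : ((201326592 : ℕ) : ℝ) / S ≤ x) (hx' : x ≤ (((201326592 : ℕ) : ℝ) + (134217728 : ℕ)) / S) :
    TriB PP.cur (farS κ (h0 * x) (tbl tKF x) (tbl tL x)) 0 1 2 2 2 (-1) (-1) :=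
  (sideF hx hx').farB (Or.inr rfl) (Or.inr rfl) fun y y' F =>
    (lt_or_ge (h0 * (y + y')) 1).elim
      (fun g => farB_cert (s1 := false) (s2 := false) rfl hκ covF20 covF22a hx hx'
        Pool.Agent.Strip051.G.I3_16_5_16.Tab.C.FB22.c_mm_012_a noCut_B noExt_B F trivial g)
      (fun g => farB_cert (s1 := false) (s2 := false) rfl hκ covF20 covF22b hx hx'
        Pool.Agent.Strip051.G.I3_16_5_16.Tab.C.FB22.c_mm_012_b noCut_B noExt_B F trivial g)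

theorem FB22_mm_022 {κ x : ℝ} (hκ : κ * h0 = ken x) (hx : ((201326592 : ℕ) : ℝ) / S ≤ x) (hx' : x ≤ (((201326592 : ℕ) : ℝ) + (134217728 : ℕ)) / S) :
    TriB PP.cur (farS κ (h0 * x) (tbl tKF x) (tbl tL x)) 0 2 2 2 2 (-1) (-1) :=
  (sideF hx hx').farB (Or.inr rfl) (Or.inr rfl) fun y y' F =>
    (lt_or_ge (h0 * (y + y')) 1).elim
      (fun g => farB_cert (s1 := false) (s2 := false) rfl hκ covF20 covF22a hx hx'
        Pool.Agent.Strip051.G.I3_16_5_16.Tab.C.FB22.c_mm_022_a noCut_B noExt_B F trivial g)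
      (fun g => farB_cert (s1 := false) (s2 := false) rfl hκ covF20 covF22b hx hx'
        Pool.Agent.Strip051.G.I3_16_5_16.Tab.C.FB22.c_mm_022_b noCut_B noExt_B F trivial g)

theorem FB22_mm_023 {κ x : ℝ} (hκ : κ * h0 = ken x) (hx : ((201326592 : ℕ) : ℝ) / S ≤ x) (hx' : x ≤ (((201326592 : ℕ) : ℝ) + (134217728 : ℕ)) / S) :
    TriB PP.cur (farS κ (h0 * x) (tbl tKF x) (tbl tL x)) 0 2 3 2 2 (-1) (-1) :=
  (sideF hx hx').farB (Or.inr rfl) (Or.inr rfl) fun y y' F =>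
    farB_cert (s1 := false) (s2 := false) rfl hκ covF20 covF23 hx hx'
        Pool.Agent.Strip051.G.I3_16_5_16.Tab.C.FB22.c_mm_023 noCut_B noExt_B F trivial trivial

theorem FB22_mm_033 {κ x : ℝ} (hκ : κ * h0 = ken x) (hx : ((201326592 : ℕ) : ℝ) / S ≤ x) (hx' : x ≤ (((201326592 : ℕ) : ℝ) + (134217728 : ℕ)) / S) :
    TriB PP.cur (farS κ (h0 * x) (tbl tKF x) (tbl tL x)) 0 3 3 2 2 (-1) (-1) :=
  (sideF hx hx').farB (Or.inr rfl) (Or.inr rfl) fun y y' F =>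
    farB_cert (s1 := false) (s2 := false) rfl hκ covF20 covF23 hx hx'
        Pool.Agent.Strip051.G.I3_16_5_16.Tab.C.FB22.c_mm_033 noCut_B noExt_B F trivial trivial

theorem FB22_mm_101 {κ x : ℝ} (hκ : κ * h0 = ken x) (hx : ((201326592 : ℕ) : ℝ) / S ≤ x) (hx' : x ≤ (((201326592 : ℕ) : ℝ) + (134217728 : ℕ)) / S) :
    TriB PP.cur (farS κ (h0 * x) (tbl tKF x) (tbl tL x)) 1 0 1 2 2 (-1) (-1) :=
  (sideF hx hx').farB (Or.inr rfl) (Or.inr rfl) fun y y' F =>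
    farB_cert (s1 := false) (s2 := false) rfl hκ covF21 covF21 hx hx'
        Pool.Agent.Strip051.G.I3_16_5_16.Tab.C.FB22.c_mm_101 noCut_B noExt_B F trivial trivial

theorem FB22_mm_102 {κ x : ℝ} (hκ : κ * h0 = ken x) (hx : ((201326592 : ℕ) : ℝ) / S ≤ x) (hx' : x ≤ (((201326592 : ℕ) : ℝ) + (134217728 : ℕ)) / S) :
    TriB PP.cur (farS κ (h0 * x) (tbl tKF x) (tbl tL x)) 1 0 2 2 2 (-1) (-1) :=
  (sideF hx hx').farB (Or.inr rfl) (Or.inr rfl) fun y y' F =>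
    (lt_or_ge (h0 * (y + y')) 1).elim
      (fun g => farB_cert (s1 := false) (s2 := false) rfl hκ covF21 covF22a hx hx'
        Pool.Agent.Strip051.G.I3_16_5_16.Tab.C.FB22.c_mm_102_a noCut_B noExt_B F trivial g)
      (fun g => farB_cert (s1 := false) (s2 := false) rfl hκ covF21 covF22b hx hx'
        Pool.Agent.Strip051.G.I3_16_5_16.Tab.C.FB22.c_mm_102_b noCut_B noExt_B F trivial g)

theorem FB22_mm_112 {κ x : ℝ} (hκ : κ * h0 = ken x) (hx : ((201326592 : ℕ) : ℝ) / S ≤ x) (hx' : x ≤ (((201326592 : ℕ) : ℝ) + (134217728 : ℕ)) / S) :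
    TriB PP.cur (farS κ (h0 * x) (tbl tKF x) (tbl tL x)) 1 1 2 2 2 (-1) (-1) :=
  (sideF hx hx').farB (Or.inr rfl) (Or.inr rfl) fun y y' F =>
    (lt_or_ge (h0 * (y + y')) 1).elim
      (fun g => farB_cert (s1 := false) (s2 := false) rfl hκ covF21 covF22a hx hx'
        Pool.Agent.Strip051.G.I3_16_5_16.Tab.C.FB22.c_mm_112_a noCut_B noExt_B F trivial g)
      (fun g => farB_cert (s1 := false) (s2 := false) rfl hκ covF21 covF22b hx hx'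
        Pool.Agent.Strip051.G.I3_16_5_16.Tab.C.FB22.c_mm_112_b noCut_B noExt_B F trivial g)

theorem FB22_mm_113 {κ x : ℝ} (hκ : κ * h0 = ken x) (hx : ((201326592 : ℕ) : ℝ) / S ≤ x) (hx' : x ≤ (((201326592 : ℕ) : ℝ) + (134217728 : ℕ)) / S) :
    TriB PP.cur (farS κ (h0 * x) (tbl tKF x) (tbl tL x)) 1 1 3 2 2 (-1) (-1) :=
  (sideF hx hx').farB (Or.inr rfl) (Or.inr rfl) fun y y' F =>
    farB_cert (s1 := false) (s2 := false) rfl hκ covF21 covF23 hx hx'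
        Pool.Agent.Strip051.G.I3_16_5_16.Tab.C.FB22.c_mm_113 noCut_B noExt_B F trivial trivial

theorem FB22_mm_123 {κ x : ℝ} (hκ : κ * h0 = ken x) (hx : ((201326592 : ℕ) : ℝ) / S ≤ x) (hx' : x ≤ (((201326592 : ℕ) : ℝ) + (134217728 : ℕ)) / S) :
    TriB PP.cur (farS κ (h0 * x) (tbl tKF x) (tbl tL x)) 1 2 3 2 2 (-1) (-1) :=
  (sideF hx hx').farB (Or.inr rfl) (Or.inr rfl) fun y y' F =>
    farB_cert (s1 := false) (s2 := false) rfl hκ covF21 covF23 hx hx'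
        Pool.Agent.Strip051.G.I3_16_5_16.Tab.C.FB22.c_mm_123 noCut_B noExt_B F trivial trivial

theorem FB22_mm_133 {κ x : ℝ} (hκ : κ * h0 = ken x) (hx : ((201326592 : ℕ) : ℝ) / S ≤ x) (hx' : x ≤ (((201326592 : ℕ) : ℝ) + (134217728 : ℕ)) / S) :
    TriB PP.cur (farS κ (h0 * x) (tbl tKF x) (tbl tL x)) 1 3 3 2 2 (-1) (-1) :=
  (sideF hx hx').farB (Or.inr rfl) (Or.inr rfl) fun y y' F =>
    farB_cert (s1 := false) (s2 := false) rfl hκ covF21 covF23 hx hx'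
        Pool.Agent.Strip051.G.I3_16_5_16.Tab.C.FB22.c_mm_133 noCut_B noExt_B F trivial trivial

theorem FB22_mm_202 {κ x : ℝ} (hκ : κ * h0 = ken x) (hx : ((201326592 : ℕ) : ℝ) / S ≤ x) (hx' : x ≤ (((201326592 : ℕ) : ℝ) + (134217728 : ℕ)) / S) :
    TriB PP.cur (farS κ (h0 * x) (tbl tKF x) (tbl tL x)) 2 0 2 2 2 (-1) (-1) :=
  (sideF hx hx').farB (Or.inr rfl) (Or.inr rfl) fun y y' F =>
    (lt_or_ge (h0 * y) 1).elim
      (fun h => (lt_or_ge (h0 * (y + y')) 1).elim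
        (fun g => farB_cert (s1 := false) (s2 := false) rfl hκ covF22a covF22a hx hx'
        Pool.Agent.Strip051.G.I3_16_5_16.Tab.C.FB22.c_mm_202_aa noCut_B noExt_B F h g)
        (fun g => farB_cert (s1 := false) (s2 := false) rfl hκ covF22a covF22b hx hx'
        Pool.Agent.Strip051.G.I3_16_5_16.Tab.C.FB22.c_mm_202_ab noCut_B noExt_B F h g))
      (fun h => (lt_or_ge (h0 * (y + y')) 1).elim
        (fun g => farB_cert (s1 := false) (s2 := false) rfl hκ covF22b covF22a hx hx'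
        Pool.Agent.Strip051.G.I3_16_5_16.Tab.C.FB22.c_mm_202_ba noCut_B noExt_B F h g)
        (fun g => farB_cert (s1 := false) (s2 := false) rfl hκ covF22b covF22b hx hx'
        Pool.Agent.Strip051.G.I3_16_5_16.Tab.C.FB22.c_mm_202_bb noCut_B noExt_B F h g))

theorem FB22_mm_203 {κ x : ℝ} (hκ : κ * h0 = ken x) (hx : ((201326592 : ℕ) : ℝ) / S ≤ x) (hx' : x ≤ (((201326592 : ℕ) : ℝ) + (134217728 : ℕ)) / S) :
    TriB PP.cur (farS κ (h0 * x) (tbl tKF x) (tbl tL x)) 2 0 3 2 2 (-1) (-1) :=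
  (sideF hx hx').farB (Or.inr rfl) (Or.inr rfl) fun y y' F =>
    (lt_or_ge (h0 * y) 1).elim
      (fun h => farB_cert (s1 := false) (s2 := false) rfl hκ covF22a covF23 hx hx'
        Pool.Agent.Strip051.G.I3_16_5_16.Tab.C.FB22.c_mm_203_a noCut_B noExt_B F h trivial)
      (fun h => farB_cert (s1 := false) (s2 := false) rfl hκ covF22b covF23 hx hx'
        Pool.Agent.Strip051.G.I3_16_5_16.Tab.C.FB22.c_mm_203_b noCut_B noExt_B F h trivial)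

theorem FB22_mm_213 {κ x : ℝ} (hκ : κ * h0 = ken x) (hx : ((201326592 : ℕ) : ℝ) / S ≤ x) (hx' : x ≤ (((201326592 : ℕ) : ℝ) + (134217728 : ℕ)) / S) :
    TriB PP.cur (farS κ (h0 * x) (tbl tKF x) (tbl tL x)) 2 1 3 2 2 (-1) (-1) :=
  (sideF hx hx').farB (Or.inr rfl) (Or.inr rfl) fun y y' F =>
    (lt_or_ge (h0 * y) 1).elim
      (fun h => farB_cert (s1 := false) (s2 := false) rfl hκ covF22a covF23 hx hx'
        Pool.Agent.Strip051.G.I3_16_5_16.Tab.C.FB22.c_mm_213_a noCut_B noExt_B F h trivial)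
      (fun h => farB_cert (s1 := false) (s2 := false) rfl hκ covF22b covF23 hx hx'
        Pool.Agent.Strip051.G.I3_16_5_16.Tab.C.FB22.c_mm_213_b noCut_B noExt_B F h trivial)

theorem FB22_mm_303 {κ x : ℝ} (hκ : κ * h0 = ken x) (hx : ((201326592 : ℕ) : ℝ) / S ≤ x) (hx' : x ≤ (((201326592 : ℕ) : ℝ) + (134217728 : ℕ)) / S) :
    TriB PP.cur (farS κ (h0 * x) (tbl tKF x) (tbl tL x)) 3 0 3 2 2 (-1) (-1) :=
  (sideF hx hx').farB (Or.inr rfl) (Or.inr rfl) fun y y' F =>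
    farB_cert (s1 := false) (s2 := false) rfl hκ covF23 covF23 hx hx'
        Pool.Agent.Strip051.G.I3_16_5_16.Tab.C.FB22.c_mm_303 noCut_B noExt_B F trivial trivial

theorem FB22_mm_313 {κ x : ℝ} (hκ : κ * h0 = ken x) (hx : ((201326592 : ℕ) : ℝ) / S ≤ x) (hx' : x ≤ (((201326592 : ℕ) : ℝ) + (134217728 : ℕ)) / S) :
    TriB PP.cur (farS κ (h0 * x) (tbl tKF x) (tbl tL x)) 3 1 3 2 2 (-1) (-1) :=
  (sideF hx hx').farB (Or.inr rfl) (Or.inr rfl) fun y y' F =>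
    farB_cert (s1 := false) (s2 := false) rfl hκ covF23 covF23 hx hx'
        Pool.Agent.Strip051.G.I3_16_5_16.Tab.C.FB22.c_mm_313 noCut_B noExt_B F trivial trivial

theorem FB22 {κ x : ℝ} (hκ : κ * h0 = ken x) (hx : ((201326592 : ℕ) : ℝ) / S ≤ x) (hx' : x ≤ (((201326592 : ℕ) : ℝ) + (134217728 : ℕ)) / S) : AllTB PP.cur (farS κ (h0 * x) (tbl tKF x) (tbl tL x)) 2 2 where
  pp := all17 (Q := fun a b c => TriB PP.cur (farS κ (h0 * x) (tbl tKF x) (tbl tL x)) a b c 2 2 1 1)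
    (FB22_pp_001 hκ hx hx') (FB22_pp_011 hκ hx hx') (FB22_pp_012 hκ hx hx') (FB22_pp_022 hκ hx hx') (FB22_pp_023 hκ hx hx') (FB22_pp_033 hκ hx hx') (FB22_pp_101 hκ hx hx') (FB22_pp_102 hκ hx hx') (FB22_pp_112 hκ hx hx') (FB22_pp_113 hκ hx hx') (FB22_pp_123 hκ hx hx') (FB22_pp_133 hκ hx hx') (FB22_pp_202 hκ hx hx') (FB22_pp_203 hκ hx hx') (FB22_pp_213 hκ hx hx') (FB22_pp_303 hκ hx hx') (FB22_pp_313 hκ hx hx')
  pm := all17 (Q := fun a b c => TriB PP.cur (farS κ (h0 * x) (tbl tKF x) (tbl tL x)) a b c 2 2 1 (-1))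
    (FB22_pm_001 hκ hx hx') (FB22_pm_011 hκ hx hx') (FB22_pm_012 hκ hx hx') (FB22_pm_022 hκ hx hx') (FB22_pm_023 hκ hx hx') (FB22_pm_033 hκ hx hx') (FB22_pm_101 hκ hx hx') (FB22_pm_102 hκ hx hx') (FB22_pm_112 hκ hx hx') (FB22_pm_113 hκ hx hx') (FB22_pm_123 hκ hx hx') (FB22_pm_133 hκ hx hx') (FB22_pm_202 hκ hx hx') (FB22_pm_203 hκ hx hx') (FB22_pm_213 hκ hx hx') (FB22_pm_303 hκ hx hx') (FB22_pm_313 hκ hx hx')
  mm := all17 (Q := fun a b c => TriB PP.cur (farS κ (h0 * x) (tbl tKF x) (tbl tL x)) a b c 2 2 (-1) (-1))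
    (FB22_mm_001 hκ hx hx') (FB22_mm_011 hκ hx hx') (FB22_mm_012 hκ hx hx') (FB22_mm_022 hκ hx hx') (FB22_mm_023 hκ hx hx') (FB22_mm_033 hκ hx hx') (FB22_mm_101 hκ hx hx') (FB22_mm_102 hκ hx hx') (FB22_mm_112 hκ hx hx') (FB22_mm_113 hκ hx hx') (FB22_mm_123 hκ hx hx') (FB22_mm_133 hκ hx hx') (FB22_mm_202 hκ hx hx') (FB22_mm_203 hκ hx hx') (FB22_mm_213 hκ hx hx') (FB22_mm_303 hκ hx hx') (FB22_mm_313 hκ hx hx')

theorem FB23_pp_001 {κ x : ℝ} (hκ : κ * h0 = ken x) (hx : ((201326592 : ℕ) : ℝ) / S ≤ x) (hx' : x ≤ (((201326592 : ℕ) : ℝ) + (134217728 : ℕ)) / S) :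
    TriB PP.cur (farS κ (h0 * x) (tbl tKF x) (tbl tL x)) 0 0 1 2 3 1 1 :=
  (sideF hx hx').farB (Or.inl rfl) (Or.inl rfl) fun y y' F =>
    farB_cert (s1 := true) (s2 := true) rfl hκ covF20 covF31 hx hx'
        Pool.Agent.Strip051.G.I3_16_5_16.Tab.C.FB23.c_pp_001 noCut_B noExt_B F trivial trivial

theorem FB23_pp_011 {κ x : ℝ} (hκ : κ * h0 = ken x) (hx : ((201326592 : ℕ) : ℝ) / S ≤ x) (hx' : x ≤ (((201326592 : ℕ) : ℝ) + (134217728 : ℕ)) / S) :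
    TriB PP.cur (farS κ (h0 * x) (tbl tKF x) (tbl tL x)) 0 1 1 2 3 1 1 :=
  (sideF hx hx').farB (Or.inl rfl) (Or.inl rfl) fun y y' F =>
    farB_cert (s1 := true) (s2 := true) rfl hκ covF20 covF31 hx hx'
        Pool.Agent.Strip051.G.I3_16_5_16.Tab.C.FB23.c_pp_011 (cutB_cons (Pool.Agent.Strip051.G.I3_16_5_16.Tab.altF_B011L_23 hκ hx hx') cutB_nil) noExt_B F trivial trivial

theorem FB23_pp_012 {κ x : ℝ} (hκ : κ * h0 = ken x) (hx : ((201326592 : ℕ) : ℝ) / S ≤ x) (hx' : x ≤ (((201326592 : ℕ) : ℝ) + (134217728 : ℕ)) / S) :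
    TriB PP.cur (farS κ (h0 * x) (tbl tKF x) (tbl tL x)) 0 1 2 2 3 1 1 :=
  (sideF hx hx').farB (Or.inl rfl) (Or.inl rfl) fun y y' F =>
    farB_cert (s1 := true) (s2 := true) rfl hκ covF20 covF32 hx hx'
        Pool.Agent.Strip051.G.I3_16_5_16.Tab.C.FB23.c_pp_012 noCut_B noExt_B F trivial trivial

theorem FB23_pp_022 {κ x : ℝ} (hκ : κ * h0 = ken x) (hx : ((201326592 : ℕ) : ℝ) / S ≤ x) (hx' : x ≤ (((201326592 : ℕ) : ℝ) + (134217728 : ℕ)) / S) :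
    TriB PP.cur (farS κ (h0 * x) (tbl tKF x) (tbl tL x)) 0 2 2 2 3 1 1 :=
  (sideF hx hx').farB (Or.inl rfl) (Or.inl rfl) fun y y' F =>
    farB_cert (s1 := true) (s2 := true) rfl hκ covF20 covF32 hx hx'
        Pool.Agent.Strip051.G.I3_16_5_16.Tab.C.FB23.c_pp_022 noCut_B noExt_B F trivial trivial

theorem FB23_pp_023 {κ x : ℝ} (hκ : κ * h0 = ken x) (hx : ((201326592 : ℕ) : ℝ) / S ≤ x) (hx' : x ≤ (((201326592 : ℕ) : ℝ) + (134217728 : ℕ)) / S) :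
    TriB PP.cur (farS κ (h0 * x) (tbl tKF x) (tbl tL x)) 0 2 3 2 3 1 1 :=
  (sideF hx hx').farB (Or.inl rfl) (Or.inl rfl) fun y y' F =>
    farB_cert (s1 := true) (s2 := true) rfl hκ covF20 covF33 hx hx'
        Pool.Agent.Strip051.G.I3_16_5_16.Tab.C.FB23.c_pp_023 noCut_B noExt_B F trivial trivial

theorem FB23_pp_033 {κ x : ℝ} (hκ : κ * h0 = ken x) (hx : ((201326592 : ℕ) : ℝ) / S ≤ x) (hx' : x ≤ (((201326592 : ℕ) : ℝ) + (134217728 : ℕ)) / S) :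
    TriB PP.cur (farS κ (h0 * x) (tbl tKF x) (tbl tL x)) 0 3 3 2 3 1 1 :=
  (sideF hx hx').farB (Or.inl rfl) (Or.inl rfl) fun y y' F =>
    farB_cert (s1 := true) (s2 := true) rfl hκ covF20 covF33 hx hx'
        Pool.Agent.Strip051.G.I3_16_5_16.Tab.C.FB23.c_pp_033 noCut_B noExt_B F trivial trivial

theorem FB23_pp_101 {κ x : ℝ} (hκ : κ * h0 = ken x) (hx : ((201326592 : ℕ) : ℝ) / S ≤ x) (hx' : x ≤ (((201326592 : ℕ) : ℝ) + (134217728 : ℕ)) / S) :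
    TriB PP.cur (farS κ (h0 * x) (tbl tKF x) (tbl tL x)) 1 0 1 2 3 1 1 :=
  (sideF hx hx').farB (Or.inl rfl) (Or.inl rfl) fun y y' F =>
    farB_cert (s1 := true) (s2 := true) rfl hκ covF21 covF31 hx hx'
        Pool.Agent.Strip051.G.I3_16_5_16.Tab.C.FB23.c_pp_101 noCut_B noExt_B F trivial trivial

theorem FB23_pp_102 {κ x : ℝ} (hκ : κ * h0 = ken x) (hx : ((201326592 : ℕ) : ℝ) / S ≤ x) (hx' : x ≤ (((201326592 : ℕ) : ℝ) + (134217728 : ℕ)) / S) :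
    TriB PP.cur (farS κ (h0 * x) (tbl tKF x) (tbl tL x)) 1 0 2 2 3 1 1 :=
  (sideF hx hx').farB (Or.inl rfl) (Or.inl rfl) fun y y' F =>
    farB_cert (s1 := true) (s2 := true) rfl hκ covF21 covF32 hx hx'
        Pool.Agent.Strip051.G.I3_16_5_16.Tab.C.FB23.c_pp_102 noCut_B noExt_B F trivial trivial

theorem FB23_pp_112 {κ x : ℝ} (hκ : κ * h0 = ken x) (hx : ((201326592 : ℕ) : ℝ) / S ≤ x) (hx' : x ≤ (((201326592 : ℕ) : ℝ) + (134217728 : ℕ)) / S) :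
    TriB PP.cur (farS κ (h0 * x) (tbl tKF x) (tbl tL x)) 1 1 2 2 3 1 1 :=
  (sideF hx hx').farB (Or.inl rfl) (Or.inl rfl) fun y y' F =>
    farB_cert (s1 := true) (s2 := true) rfl hκ covF21 covF32 hx hx'
        Pool.Agent.Strip051.G.I3_16_5_16.Tab.C.FB23.c_pp_112 noCut_B noExt_B F trivial trivial

theorem FB23_pp_113 {κ x : ℝ} (hκ : κ * h0 = ken x) (hx : ((201326592 : ℕ) : ℝ) / S ≤ x) (hx' : x ≤ (((201326592 : ℕ) : ℝ) + (134217728 : ℕ)) / S) :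
    TriB PP.cur (farS κ (h0 * x) (tbl tKF x) (tbl tL x)) 1 1 3 2 3 1 1 :=
  (sideF hx hx').farB (Or.inl rfl) (Or.inl rfl) fun y y' F =>
    farB_cert (s1 := true) (s2 := true) rfl hκ covF21 covF33 hx hx'
        Pool.Agent.Strip051.G.I3_16_5_16.Tab.C.FB23.c_pp_113 noCut_B noExt_B F trivial trivial

theorem FB23_pp_123 {κ x : ℝ} (hκ : κ * h0 = ken x) (hx : ((201326592 : ℕ) : ℝ) / S ≤ x) (hx' : x ≤ (((201326592 : ℕ) : ℝ) + (134217728 : ℕ)) / S) :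
    TriB PP.cur (farS κ (h0 * x) (tbl tKF x) (tbl tL x)) 1 2 3 2 3 1 1 :=
  (sideF hx hx').farB (Or.inl rfl) (Or.inl rfl) fun y y' F =>
    farB_cert (s1 := true) (s2 := true) rfl hκ covF21 covF33 hx hx'
        Pool.Agent.Strip051.G.I3_16_5_16.Tab.C.FB23.c_pp_123 noCut_B noExt_B F trivial trivial

theorem FB23_pp_133 {κ x : ℝ} (hκ : κ * h0 = ken x) (hx : ((201326592 : ℕ) : ℝ) / S ≤ x) (hx' : x ≤ (((201326592 : ℕ) : ℝ) + (134217728 : ℕ)) / S) :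
    TriB PP.cur (farS κ (h0 * x) (tbl tKF x) (tbl tL x)) 1 3 3 2 3 1 1 :=
  (sideF hx hx').farB (Or.inl rfl) (Or.inl rfl) fun y y' F =>
    farB_cert (s1 := true) (s2 := true) rfl hκ covF21 covF33 hx hx'
        Pool.Agent.Strip051.G.I3_16_5_16.Tab.C.FB23.c_pp_133 noCut_B noExt_B F trivial trivial

theorem FB23_pp_202 {κ x : ℝ} (hκ : κ * h0 = ken x) (hx : ((201326592 : ℕ) : ℝ) / S ≤ x) (hx' : x ≤ (((201326592 : ℕ) : ℝ) + (134217728 : ℕ)) / S) :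
    TriB PP.cur (farS κ (h0 * x) (tbl tKF x) (tbl tL x)) 2 0 2 2 3 1 1 :=
  (sideF hx hx').farB (Or.inl rfl) (Or.inl rfl) fun y y' F =>
    (lt_or_ge (h0 * y) 1).elim
      (fun h => farB_cert (s1 := true) (s2 := true) rfl hκ covF22a covF32 hx hx'
        Pool.Agent.Strip051.G.I3_16_5_16.Tab.C.FB23.c_pp_202_a noCut_B noExt_B F h trivial)
      (fun h => farB_cert (s1 := true) (s2 := true) rfl hκ covF22b covF32 hx hx'
        Pool.Agent.Strip051.G.I3_16_5_16.Tab.C.FB23.c_pp_202_b noCut_B noExt_B F h trivial)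

theorem FB23_pp_203 {κ x : ℝ} (hκ : κ * h0 = ken x) (hx : ((201326592 : ℕ) : ℝ) / S ≤ x) (hx' : x ≤ (((201326592 : ℕ) : ℝ) + (134217728 : ℕ)) / S) :
    TriB PP.cur (farS κ (h0 * x) (tbl tKF x) (tbl tL x)) 2 0 3 2 3 1 1 :=
  (sideF hx hx').farB (Or.inl rfl) (Or.inl rfl) fun y y' F =>
    (lt_or_ge (h0 * y) 1).elim
      (fun h => farB_cert (s1 := true) (s2 := true) rfl hκ covF22a covF33 hx hx'
        Pool.Agent.Strip051.G.I3_16_5_16.Tab.C.FB23.c_pp_203_a noCut_B noExt_B F h trivial)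
      (fun h => farB_cert (s1 := true) (s2 := true) rfl hκ covF22b covF33 hx hx'
        Pool.Agent.Strip051.G.I3_16_5_16.Tab.C.FB23.c_pp_203_b noCut_B noExt_B F h trivial)

theorem FB23_pp_213 {κ x : ℝ} (hκ : κ * h0 = ken x) (hx : ((201326592 : ℕ) : ℝ) / S ≤ x) (hx' : x ≤ (((201326592 : ℕ) : ℝ) + (134217728 : ℕ)) / S) :
    TriB PP.cur (farS κ (h0 * x) (tbl tKF x) (tbl tL x)) 2 1 3 2 3 1 1 :=
  (sideF hx hx').farB (Or.inl rfl) (Or.inl rfl) fun y y' F =>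
    (lt_or_ge (h0 * y) 1).elim
      (fun h => farB_cert (s1 := true) (s2 := true) rfl hκ covF22a covF33 hx hx'
        Pool.Agent.Strip051.G.I3_16_5_16.Tab.C.FB23.c_pp_213_a (cutB_cons (Pool.Agent.Strip051.G.I3_16_5_16.Tab.alt12F_B213_23p hκ hx hx') cutB_nil) noExt_B F h trivial)
      (fun h => farB_cert (s1 := true) (s2 := true) rfl hκ covF22b covF33 hx hx'
        Pool.Agent.Strip051.G.I3_16_5_16.Tab.C.FB23.c_pp_213_b (cutB_cons (Pool.Agent.Strip051.G.I3_16_5_16.Tab.alt12F_B213_23p hκ hx hx') cutB_nil) noExt_B F h trivial)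

theorem FB23_pp_303 {κ x : ℝ} (hκ : κ * h0 = ken x) (hx : ((201326592 : ℕ) : ℝ) / S ≤ x) (hx' : x ≤ (((201326592 : ℕ) : ℝ) + (134217728 : ℕ)) / S) :
    TriB PP.cur (farS κ (h0 * x) (tbl tKF x) (tbl tL x)) 3 0 3 2 3 1 1 :=
  (sideF hx hx').farB (Or.inl rfl) (Or.inl rfl) fun y y' F =>
    farB_cert (s1 := true) (s2 := true) rfl hκ covF23 covF33 hx hx'
        Pool.Agent.Strip051.G.I3_16_5_16.Tab.C.FB23.c_pp_303 noCut_B noExt_B F trivial trivial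

theorem FB23_pp_313 {κ x : ℝ} (hκ : κ * h0 = ken x) (hx : ((201326592 : ℕ) : ℝ) / S ≤ x) (hx' : x ≤ (((201326592 : ℕ) : ℝ) + (134217728 : ℕ)) / S) :
    TriB PP.cur (farS κ (h0 * x) (tbl tKF x) (tbl tL x)) 3 1 3 2 3 1 1 :=
  (sideF hx hx').farB (Or.inl rfl) (Or.inl rfl) fun y y' F =>
    farB_cert (s1 := true) (s2 := true) rfl hκ covF23 covF33 hx hx'
        Pool.Agent.Strip051.G.I3_16_5_16.Tab.C.FB23.c_pp_313 noCut_B noExt_B F trivial trivial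

theorem FB23_pm_001 {κ x : ℝ} (hκ : κ * h0 = ken x) (hx : ((201326592 : ℕ) : ℝ) / S ≤ x) (hx' : x ≤ (((201326592 : ℕ) : ℝ) + (134217728 : ℕ)) / S) :
    TriB PP.cur (farS κ (h0 * x) (tbl tKF x) (tbl tL x)) 0 0 1 2 3 1 (-1) :=
  (sideF hx hx').farB (Or.inl rfl) (Or.inr rfl) fun y y' F =>
    farB_cert (s1 := true) (s2 := false) rfl hκ covF20 covF31 hx hx'
        Pool.Agent.Strip051.G.I3_16_5_16.Tab.C.FB23.c_pm_001 noCut_B noExt_B F trivial trivial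

theorem FB23_pm_011 {κ x : ℝ} (hκ : κ * h0 = ken x) (hx : ((201326592 : ℕ) : ℝ) / S ≤ x) (hx' : x ≤ (((201326592 : ℕ) : ℝ) + (134217728 : ℕ)) / S) :
    TriB PP.cur (farS κ (h0 * x) (tbl tKF x) (tbl tL x)) 0 1 1 2 3 1 (-1) :=
  (sideF hx hx').farB (Or.inl rfl) (Or.inr rfl) fun y y' F =>
    farB_cert (s1 := true) (s2 := false) rfl hκ covF20 covF31 hx hx'
        Pool.Agent.Strip051.G.I3_16_5_16.Tab.C.FB23.c_pm_011 noCut_B noExt_B F trivial trivial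

theorem FB23_pm_012 {κ x : ℝ} (hκ : κ * h0 = ken x) (hx : ((201326592 : ℕ) : ℝ) / S ≤ x) (hx' : x ≤ (((201326592 : ℕ) : ℝ) + (134217728 : ℕ)) / S) :
    TriB PP.cur (farS κ (h0 * x) (tbl tKF x) (tbl tL x)) 0 1 2 2 3 1 (-1) :=
  (sideF hx hx').farB (Or.inl rfl) (Or.inr rfl) fun y y' F =>
    farB_cert (s1 := true) (s2 := false) rfl hκ covF20 covF32 hx hx'
        Pool.Agent.Strip051.G.I3_16_5_16.Tab.C.FB23.c_pm_012 noCut_B noExt_B F trivial trivial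

theorem FB23_pm_022 {κ x : ℝ} (hκ : κ * h0 = ken x) (hx : ((201326592 : ℕ) : ℝ) / S ≤ x) (hx' : x ≤ (((201326592 : ℕ) : ℝ) + (134217728 : ℕ)) / S) :
    TriB PP.cur (farS κ (h0 * x) (tbl tKF x) (tbl tL x)) 0 2 2 2 3 1 (-1) :=
  (sideF hx hx').farB (Or.inl rfl) (Or.inr rfl) fun y y' F =>
    farB_cert (s1 := true) (s2 := false) rfl hκ covF20 covF32 hx hx'
        Pool.Agent.Strip051.G.I3_16_5_16.Tab.C.FB23.c_pm_022 noCut_B noExt_B F trivial trivial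

theorem FB23_pm_023 {κ x : ℝ} (hκ : κ * h0 = ken x) (hx : ((201326592 : ℕ) : ℝ) / S ≤ x) (hx' : x ≤ (((201326592 : ℕ) : ℝ) + (134217728 : ℕ)) / S) :
    TriB PP.cur (farS κ (h0 * x) (tbl tKF x) (tbl tL x)) 0 2 3 2 3 1 (-1) :=
  (sideF hx hx').farB (Or.inl rfl) (Or.inr rfl) fun y y' F =>
    farB_cert (s1 := true) (s2 := false) rfl hκ covF20 covF33 hx hx'
        Pool.Agent.Strip051.G.I3_16_5_16.Tab.C.FB23.c_pm_023 noCut_B noExt_B F trivial trivial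

theorem FB23_pm_033 {κ x : ℝ} (hκ : κ * h0 = ken x) (hx : ((201326592 : ℕ) : ℝ) / S ≤ x) (hx' : x ≤ (((201326592 : ℕ) : ℝ) + (134217728 : ℕ)) / S) :
    TriB PP.cur (farS κ (h0 * x) (tbl tKF x) (tbl tL x)) 0 3 3 2 3 1 (-1) :=
  (sideF hx hx').farB (Or.inl rfl) (Or.inr rfl) fun y y' F =>
    farB_cert (s1 := true) (s2 := false) rfl hκ covF20 covF33 hx hx'
        Pool.Agent.Strip051.G.I3_16_5_16.Tab.C.FB23.c_pm_033 noCut_B noExt_B F trivial trivial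

theorem FB23_pm_101 {κ x : ℝ} (hκ : κ * h0 = ken x) (hx : ((201326592 : ℕ) : ℝ) / S ≤ x) (hx' : x ≤ (((201326592 : ℕ) : ℝ) + (134217728 : ℕ)) / S) :
    TriB PP.cur (farS κ (h0 * x) (tbl tKF x) (tbl tL x)) 1 0 1 2 3 1 (-1) :=
  (sideF hx hx').farB (Or.inl rfl) (Or.inr rfl) fun y y' F =>
    farB_cert (s1 := true) (s2 := false) rfl hκ covF21 covF31 hx hx'
        Pool.Agent.Strip051.G.I3_16_5_16.Tab.C.FB23.c_pm_101 noCut_B noExt_B F trivial trivial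

theorem FB23_pm_102 {κ x : ℝ} (hκ : κ * h0 = ken x) (hx : ((201326592 : ℕ) : ℝ) / S ≤ x) (hx' : x ≤ (((201326592 : ℕ) : ℝ) + (134217728 : ℕ)) / S) :
    TriB PP.cur (farS κ (h0 * x) (tbl tKF x) (tbl tL x)) 1 0 2 2 3 1 (-1) :=
  (sideF hx hx').farB (Or.inl rfl) (Or.inr rfl) fun y y' F =>
    farB_cert (s1 := true) (s2 := false) rfl hκ covF21 covF32 hx hx'
        Pool.Agent.Strip051.G.I3_16_5_16.Tab.C.FB23.c_pm_102 noCut_B noExt_B F trivial trivial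

theorem FB23_pm_112 {κ x : ℝ} (hκ : κ * h0 = ken x) (hx : ((201326592 : ℕ) : ℝ) / S ≤ x) (hx' : x ≤ (((201326592 : ℕ) : ℝ) + (134217728 : ℕ)) / S) :
    TriB PP.cur (farS κ (h0 * x) (tbl tKF x) (tbl tL x)) 1 1 2 2 3 1 (-1) :=
  (sideF hx hx').farB (Or.inl rfl) (Or.inr rfl) fun y y' F =>
    farB_cert (s1 := true) (s2 := false) rfl hκ covF21 covF32 hx hx'
        Pool.Agent.Strip051.G.I3_16_5_16.Tab.C.FB23.c_pm_112 noCut_B noExt_B F trivial trivial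

theorem FB23_pm_113 {κ x : ℝ} (hκ : κ * h0 = ken x) (hx : ((201326592 : ℕ) : ℝ) / S ≤ x) (hx' : x ≤ (((201326592 : ℕ) : ℝ) + (134217728 : ℕ)) / S) :
    TriB PP.cur (farS κ (h0 * x) (tbl tKF x) (tbl tL x)) 1 1 3 2 3 1 (-1) :=
  (sideF hx hx').farB (Or.inl rfl) (Or.inr rfl) fun y y' F =>
    farB_cert (s1 := true) (s2 := false) rfl hκ covF21 covF33 hx hx'
        Pool.Agent.Strip051.G.I3_16_5_16.Tab.C.FB23.c_pm_113 noCut_B noExt_B F trivial trivial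

theorem FB23_pm_123 {κ x : ℝ} (hκ : κ * h0 = ken x) (hx : ((201326592 : ℕ) : ℝ) / S ≤ x) (hx' : x ≤ (((201326592 : ℕ) : ℝ) + (134217728 : ℕ)) / S) :
    TriB PP.cur (farS κ (h0 * x) (tbl tKF x) (tbl tL x)) 1 2 3 2 3 1 (-1) :=
  (sideF hx hx').farB (Or.inl rfl) (Or.inr rfl) fun y y' F =>
    farB_cert (s1 := true) (s2 := false) rfl hκ covF21 covF33 hx hx'
        Pool.Agent.Strip051.G.I3_16_5_16.Tab.C.FB23.c_pm_123 noCut_B noExt_B F trivial trivial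

theorem FB23_pm_133 {κ x : ℝ} (hκ : κ * h0 = ken x) (hx : ((201326592 : ℕ) : ℝ) / S ≤ x) (hx' : x ≤ (((201326592 : ℕ) : ℝ) + (134217728 : ℕ)) / S) :
    TriB PP.cur (farS κ (h0 * x) (tbl tKF x) (tbl tL x)) 1 3 3 2 3 1 (-1) :=
  (sideF hx hx').farB (Or.inl rfl) (Or.inr rfl) fun y y' F =>
    farB_cert (s1 := true) (s2 := false) rfl hκ covF21 covF33 hx hx'
        Pool.Agent.Strip051.G.I3_16_5_16.Tab.C.FB23.c_pm_133 noCut_B noExt_B F trivial trivial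

theorem FB23_pm_202 {κ x : ℝ} (hκ : κ * h0 = ken x) (hx : ((201326592 : ℕ) : ℝ) / S ≤ x) (hx' : x ≤ (((201326592 : ℕ) : ℝ) + (134217728 : ℕ)) / S) :
    TriB PP.cur (farS κ (h0 * x) (tbl tKF x) (tbl tL x)) 2 0 2 2 3 1 (-1) :=
  (sideF hx hx').farB (Or.inl rfl) (Or.inr rfl) fun y y' F =>
    (lt_or_ge (h0 * y) 1).elim
      (fun h => farB_cert (s1 := true) (s2 := false) rfl hκ covF22a covF32 hx hx'
        Pool.Agent.Strip051.G.I3_16_5_16.Tab.C.FB23.c_pm_202_a noCut_B noExt_B F h trivial)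
      (fun h => farB_cert (s1 := true) (s2 := false) rfl hκ covF22b covF32 hx hx'
        Pool.Agent.Strip051.G.I3_16_5_16.Tab.C.FB23.c_pm_202_b noCut_B noExt_B F h trivial)

theorem FB23_pm_203 {κ x : ℝ} (hκ : κ * h0 = ken x) (hx : ((201326592 : ℕ) : ℝ) / S ≤ x) (hx' : x ≤ (((201326592 : ℕ) : ℝ) + (134217728 : ℕ)) / S) :
    TriB PP.cur (farS κ (h0 * x) (tbl tKF x) (tbl tL x)) 2 0 3 2 3 1 (-1) :=
  (sideF hx hx').farB (Or.inl rfl) (Or.inr rfl) fun y y' F =>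
    (lt_or_ge (h0 * y) 1).elim
      (fun h => farB_cert (s1 := true) (s2 := false) rfl hκ covF22a covF33 hx hx'
        Pool.Agent.Strip051.G.I3_16_5_16.Tab.C.FB23.c_pm_203_a noCut_B noExt_B F h trivial)
      (fun h => farB_cert (s1 := true) (s2 := false) rfl hκ covF22b covF33 hx hx'
        Pool.Agent.Strip051.G.I3_16_5_16.Tab.C.FB23.c_pm_203_b noCut_B noExt_B F h trivial)

theorem FB23_pm_213 {κ x : ℝ} (hκ : κ * h0 = ken x) (hx : ((201326592 : ℕ) : ℝ) / S ≤ x) (hx' : x ≤ (((201326592 : ℕ) : ℝ) + (134217728 : ℕ)) / S) :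
    TriB PP.cur (farS κ (h0 * x) (tbl tKF x) (tbl tL x)) 2 1 3 2 3 1 (-1) :=
  (sideF hx hx').farB (Or.inl rfl) (Or.inr rfl) fun y y' F =>
    (lt_or_ge (h0 * y) 1).elim
      (fun h => farB_cert (s1 := true) (s2 := false) rfl hκ covF22a covF33 hx hx'
        Pool.Agent.Strip051.G.I3_16_5_16.Tab.C.FB23.c_pm_213_a (cutB_cons (Pool.Agent.Strip051.G.I3_16_5_16.Tab.alt12F_B213_23m hκ hx hx') cutB_nil) noExt_B F h trivial)
      (fun h => farB_cert (s1 := true) (s2 := false) rfl hκ covF22b covF33 hx hx'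
        Pool.Agent.Strip051.G.I3_16_5_16.Tab.C.FB23.c_pm_213_b (cutB_cons (Pool.Agent.Strip051.G.I3_16_5_16.Tab.alt12F_B213_23m hκ hx hx') cutB_nil) noExt_B F h trivial)

theorem FB23_pm_303 {κ x : ℝ} (hκ : κ * h0 = ken x) (hx : ((201326592 : ℕ) : ℝ) / S ≤ x) (hx' : x ≤ (((201326592 : ℕ) : ℝ) + (134217728 : ℕ)) / S) :
    TriB PP.cur (farS κ (h0 * x) (tbl tKF x) (tbl tL x)) 3 0 3 2 3 1 (-1) :=
  (sideF hx hx').farB (Or.inl rfl) (Or.inr rfl) fun y y' F =>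
    farB_cert (s1 := true) (s2 := false) rfl hκ covF23 covF33 hx hx'
        Pool.Agent.Strip051.G.I3_16_5_16.Tab.C.FB23.c_pm_303 noCut_B noExt_B F trivial trivial

theorem FB23_pm_313 {κ x : ℝ} (hκ : κ * h0 = ken x) (hx : ((201326592 : ℕ) : ℝ) / S ≤ x) (hx' : x ≤ (((201326592 : ℕ) : ℝ) + (134217728 : ℕ)) / S) :
    TriB PP.cur (farS κ (h0 * x) (tbl tKF x) (tbl tL x)) 3 1 3 2 3 1 (-1) :=
  (sideF hx hx').farB (Or.inl rfl) (Or.inr rfl) fun y y' F =>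
    farB_cert (s1 := true) (s2 := false) rfl hκ covF23 covF33 hx hx'
        Pool.Agent.Strip051.G.I3_16_5_16.Tab.C.FB23.c_pm_313 noCut_B noExt_B F trivial trivial

theorem FB23_mm_001 {κ x : ℝ} (hκ : κ * h0 = ken x) (hx : ((201326592 : ℕ) : ℝ) / S ≤ x) (hx' : x ≤ (((201326592 : ℕ) : ℝ) + (134217728 : ℕ)) / S) :
    TriB PP.cur (farS κ (h0 * x) (tbl tKF x) (tbl tL x)) 0 0 1 2 3 (-1) (-1) :=
  (sideF hx hx').farB (Or.inr rfl) (Or.inr rfl) fun y y' F =>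
    farB_cert (s1 := false) (s2 := false) rfl hκ covF20 covF31 hx hx'
        Pool.Agent.Strip051.G.I3_16_5_16.Tab.C.FB23.c_mm_001 noCut_B noExt_B F trivial trivial

theorem FB23_mm_011 {κ x : ℝ} (hκ : κ * h0 = ken x) (hx : ((201326592 : ℕ) : ℝ) / S ≤ x) (hx' : x ≤ (((201326592 : ℕ) : ℝ) + (134217728 : ℕ)) / S) :
    TriB PP.cur (farS κ (h0 * x) (tbl tKF x) (tbl tL x)) 0 1 1 2 3 (-1) (-1) :=
  (sideF hx hx').farB (Or.inr rfl) (Or.inr rfl) fun y y' F =>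
    farB_cert (s1 := false) (s2 := false) rfl hκ covF20 covF31 hx hx'
        Pool.Agent.Strip051.G.I3_16_5_16.Tab.C.FB23.c_mm_011 noCut_B noExt_B F trivial trivial

theorem FB23_mm_012 {κ x : ℝ} (hκ : κ * h0 = ken x) (hx : ((201326592 : ℕ) : ℝ) / S ≤ x) (hx' : x ≤ (((201326592 : ℕ) : ℝ) + (134217728 : ℕ)) / S) :
    TriB PP.cur (farS κ (h0 * x) (tbl tKF x) (tbl tL x)) 0 1 2 2 3 (-1) (-1) :=
  (sideF hx hx').farB (Or.inr rfl) (Or.inr rfl) fun y y' F =>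
    farB_cert (s1 := false) (s2 := false) rfl hκ covF20 covF32 hx hx'
        Pool.Agent.Strip051.G.I3_16_5_16.Tab.C.FB23.c_mm_012 noCut_B noExt_B F trivial trivial

theorem FB23_mm_022 {κ x : ℝ} (hκ : κ * h0 = ken x) (hx : ((201326592 : ℕ) : ℝ) / S ≤ x) (hx' : x ≤ (((201326592 : ℕ) : ℝ) + (134217728 : ℕ)) / S) :
    TriB PP.cur (farS κ (h0 * x) (tbl tKF x) (tbl tL x)) 0 2 2 2 3 (-1) (-1) :=
  (sideF hx hx').farB (Or.inr rfl) (Or.inr rfl) fun y y' F =>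
    farB_cert (s1 := false) (s2 := false) rfl hκ covF20 covF32 hx hx'
        Pool.Agent.Strip051.G.I3_16_5_16.Tab.C.FB23.c_mm_022 noCut_B noExt_B F trivial trivial

theorem FB23_mm_023 {κ x : ℝ} (hκ : κ * h0 = ken x) (hx : ((201326592 : ℕ) : ℝ) / S ≤ x) (hx' : x ≤ (((201326592 : ℕ) : ℝ) + (134217728 : ℕ)) / S) :
    TriB PP.cur (farS κ (h0 * x) (tbl tKF x) (tbl tL x)) 0 2 3 2 3 (-1) (-1) :=
  (sideF hx hx').farB (Or.inr rfl) (Or.inr rfl) fun y y' F =>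
    farB_cert (s1 := false) (s2 := false) rfl hκ covF20 covF33 hx hx'
        Pool.Agent.Strip051.G.I3_16_5_16.Tab.C.FB23.c_mm_023 noCut_B noExt_B F trivial trivial

theorem FB23_mm_033 {κ x : ℝ} (hκ : κ * h0 = ken x) (hx : ((201326592 : ℕ) : ℝ) / S ≤ x) (hx' : x ≤ (((201326592 : ℕ) : ℝ) + (134217728 : ℕ)) / S) :
    TriB PP.cur (farS κ (h0 * x) (tbl tKF x) (tbl tL x)) 0 3 3 2 3 (-1) (-1) :=
  (sideF hx hx').farB (Or.inr rfl) (Or.inr rfl) fun y y' F =>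
    farB_cert (s1 := false) (s2 := false) rfl hκ covF20 covF33 hx hx'
        Pool.Agent.Strip051.G.I3_16_5_16.Tab.C.FB23.c_mm_033 noCut_B noExt_B F trivial trivial

theorem FB23_mm_101 {κ x : ℝ} (hκ : κ * h0 = ken x) (hx : ((201326592 : ℕ) : ℝ) / S ≤ x) (hx' : x ≤ (((201326592 : ℕ) : ℝ) + (134217728 : ℕ)) / S) :
    TriB PP.cur (farS κ (h0 * x) (tbl tKF x) (tbl tL x)) 1 0 1 2 3 (-1) (-1) :=
  (sideF hx hx').farB (Or.inr rfl) (Or.inr rfl) fun y y' F =>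
    farB_cert (s1 := false) (s2 := false) rfl hκ covF21 covF31 hx hx'
        Pool.Agent.Strip051.G.I3_16_5_16.Tab.C.FB23.c_mm_101 noCut_B noExt_B F trivial trivial

theorem FB23_mm_102 {κ x : ℝ} (hκ : κ * h0 = ken x) (hx : ((201326592 : ℕ) : ℝ) / S ≤ x) (hx' : x ≤ (((201326592 : ℕ) : ℝ) + (134217728 : ℕ)) / S) :
    TriB PP.cur (farS κ (h0 * x) (tbl tKF x) (tbl tL x)) 1 0 2 2 3 (-1) (-1) :=
  (sideF hx hx').farB (Or.inr rfl) (Or.inr rfl) fun y y' F =>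
    farB_cert (s1 := false) (s2 := false) rfl hκ covF21 covF32 hx hx'
        Pool.Agent.Strip051.G.I3_16_5_16.Tab.C.FB23.c_mm_102 noCut_B noExt_B F trivial trivial

theorem FB23_mm_112 {κ x : ℝ} (hκ : κ * h0 = ken x) (hx : ((201326592 : ℕ) : ℝ) / S ≤ x) (hx' : x ≤ (((201326592 : ℕ) : ℝ) + (134217728 : ℕ)) / S) :
    TriB PP.cur (farS κ (h0 * x) (tbl tKF x) (tbl tL x)) 1 1 2 2 3 (-1) (-1) :=
  (sideF hx hx').farB (Or.inr rfl) (Or.inr rfl) fun y y' F =>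
    farB_cert (s1 := false) (s2 := false) rfl hκ covF21 covF32 hx hx'
        Pool.Agent.Strip051.G.I3_16_5_16.Tab.C.FB23.c_mm_112 noCut_B noExt_B F trivial trivial

theorem FB23_mm_113 {κ x : ℝ} (hκ : κ * h0 = ken x) (hx : ((201326592 : ℕ) : ℝ) / S ≤ x) (hx' : x ≤ (((201326592 : ℕ) : ℝ) + (134217728 : ℕ)) / S) :
    TriB PP.cur (farS κ (h0 * x) (tbl tKF x) (tbl tL x)) 1 1 3 2 3 (-1) (-1) :=
  (sideF hx hx').farB (Or.inr rfl) (Or.inr rfl) fun y y' F =>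
    farB_cert (s1 := false) (s2 := false) rfl hκ covF21 covF33 hx hx'
        Pool.Agent.Strip051.G.I3_16_5_16.Tab.C.FB23.c_mm_113 noCut_B noExt_B F trivial trivial

theorem FB23_mm_123 {κ x : ℝ} (hκ : κ * h0 = ken x) (hx : ((201326592 : ℕ) : ℝ) / S ≤ x) (hx' : x ≤ (((201326592 : ℕ) : ℝ) + (134217728 : ℕ)) / S) :
    TriB PP.cur (farS κ (h0 * x) (tbl tKF x) (tbl tL x)) 1 2 3 2 3 (-1) (-1) :=
  (sideF hx hx').farB (Or.inr rfl) (Or.inr rfl) fun y y' F =>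
    farB_cert (s1 := false) (s2 := false) rfl hκ covF21 covF33 hx hx'
        Pool.Agent.Strip051.G.I3_16_5_16.Tab.C.FB23.c_mm_123 noCut_B noExt_B F trivial trivial

theorem FB23_mm_133 {κ x : ℝ} (hκ : κ * h0 = ken x) (hx : ((201326592 : ℕ) : ℝ) / S ≤ x) (hx' : x ≤ (((201326592 : ℕ) : ℝ) + (134217728 : ℕ)) / S) :
    TriB PP.cur (farS κ (h0 * x) (tbl tKF x) (tbl tL x)) 1 3 3 2 3 (-1) (-1) :=
  (sideF hx hx').farB (Or.inr rfl) (Or.inr rfl) fun y y' F =>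
    farB_cert (s1 := false) (s2 := false) rfl hκ covF21 covF33 hx hx'
        Pool.Agent.Strip051.G.I3_16_5_16.Tab.C.FB23.c_mm_133 noCut_B noExt_B F trivial trivial

theorem FB23_mm_202 {κ x : ℝ} (hκ : κ * h0 = ken x) (hx : ((201326592 : ℕ) : ℝ) / S ≤ x) (hx' : x ≤ (((201326592 : ℕ) : ℝ) + (134217728 : ℕ)) / S) :
    TriB PP.cur (farS κ (h0 * x) (tbl tKF x) (tbl tL x)) 2 0 2 2 3 (-1) (-1) :=
  (sideF hx hx').farB (Or.inr rfl) (Or.inr rfl) fun y y' F =>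
    (lt_or_ge (h0 * y) 1).elim
      (fun h => farB_cert (s1 := false) (s2 := false) rfl hκ covF22a covF32 hx hx'
        Pool.Agent.Strip051.G.I3_16_5_16.Tab.C.FB23.c_mm_202_a noCut_B noExt_B F h trivial)
      (fun h => farB_cert (s1 := false) (s2 := false) rfl hκ covF22b covF32 hx hx'
        Pool.Agent.Strip051.G.I3_16_5_16.Tab.C.FB23.c_mm_202_b noCut_B noExt_B F h trivial)

theorem FB23_mm_203 {κ x : ℝ} (hκ : κ * h0 = ken x) (hx : ((201326592 : ℕ) : ℝ) / S ≤ x) (hx' : x ≤ (((201326592 : ℕ) : ℝ) + (134217728 : ℕ)) / S) :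
    TriB PP.cur (farS κ (h0 * x) (tbl tKF x) (tbl tL x)) 2 0 3 2 3 (-1) (-1) :=
  (sideF hx hx').farB (Or.inr rfl) (Or.inr rfl) fun y y' F =>
    (lt_or_ge (h0 * y) 1).elim
      (fun h => farB_cert (s1 := false) (s2 := false) rfl hκ covF22a covF33 hx hx'
        Pool.Agent.Strip051.G.I3_16_5_16.Tab.C.FB23.c_mm_203_a noCut_B noExt_B F h trivial)
      (fun h => farB_cert (s1 := false) (s2 := false) rfl hκ covF22b covF33 hx hx'
        Pool.Agent.Strip051.G.I3_16_5_16.Tab.C.FB23.c_mm_203_b noCut_B noExt_B F h trivial)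

theorem FB23_mm_213 {κ x : ℝ} (hκ : κ * h0 = ken x) (hx : ((201326592 : ℕ) : ℝ) / S ≤ x) (hx' : x ≤ (((201326592 : ℕ) : ℝ) + (134217728 : ℕ)) / S) :
    TriB PP.cur (farS κ (h0 * x) (tbl tKF x) (tbl tL x)) 2 1 3 2 3 (-1) (-1) :=
  (sideF hx hx').farB (Or.inr rfl) (Or.inr rfl) fun y y' F =>
    (lt_or_ge (h0 * y) 1).elim
      (fun h => farB_cert (s1 := false) (s2 := false) rfl hκ covF22a covF33 hx hx'
        Pool.Agent.Strip051.G.I3_16_5_16.Tab.C.FB23.c_mm_213_a noCut_B noExt_B F h trivial)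
      (fun h => farB_cert (s1 := false) (s2 := false) rfl hκ covF22b covF33 hx hx'
        Pool.Agent.Strip051.G.I3_16_5_16.Tab.C.FB23.c_mm_213_b noCut_B noExt_B F h trivial)

theorem FB23_mm_303 {κ x : ℝ} (hκ : κ * h0 = ken x) (hx : ((201326592 : ℕ) : ℝ) / S ≤ x) (hx' : x ≤ (((201326592 : ℕ) : ℝ) + (134217728 : ℕ)) / S) :
    TriB PP.cur (farS κ (h0 * x) (tbl tKF x) (tbl tL x)) 3 0 3 2 3 (-1) (-1) :=
  (sideF hx hx').farB (Or.inr rfl) (Or.inr rfl) fun y y' F =>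
    farB_cert (s1 := false) (s2 := false) rfl hκ covF23 covF33 hx hx'
        Pool.Agent.Strip051.G.I3_16_5_16.Tab.C.FB23.c_mm_303 noCut_B noExt_B F trivial trivial

theorem FB23_mm_313 {κ x : ℝ} (hκ : κ * h0 = ken x) (hx : ((201326592 : ℕ) : ℝ) / S ≤ x) (hx' : x ≤ (((201326592 : ℕ) : ℝ) + (134217728 : ℕ)) / S) :
    TriB PP.cur (farS κ (h0 * x) (tbl tKF x) (tbl tL x)) 3 1 3 2 3 (-1) (-1) :=
  (sideF hx hx').farB (Or.inr rfl) (Or.inr rfl) fun y y' F =>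
    farB_cert (s1 := false) (s2 := false) rfl hκ covF23 covF33 hx hx'
        Pool.Agent.Strip051.G.I3_16_5_16.Tab.C.FB23.c_mm_313 noCut_B noExt_B F trivial trivial

theorem FB23 {κ x : ℝ} (hκ : κ * h0 = ken x) (hx : ((201326592 : ℕ) : ℝ) / S ≤ x) (hx' : x ≤ (((201326592 : ℕ) : ℝ) + (134217728 : ℕ)) / S) : AllTB PP.cur (farS κ (h0 * x) (tbl tKF x) (tbl tL x)) 2 3 where
  pp := all17 (Q := fun a b c => TriB PP.cur (farS κ (h0 * x) (tbl tKF x) (tbl tL x)) a b c 2 3 1 1)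
    (FB23_pp_001 hκ hx hx') (FB23_pp_011 hκ hx hx') (FB23_pp_012 hκ hx hx') (FB23_pp_022 hκ hx hx') (FB23_pp_023 hκ hx hx') (FB23_pp_033 hκ hx hx') (FB23_pp_101 hκ hx hx') (FB23_pp_102 hκ hx hx') (FB23_pp_112 hκ hx hx') (FB23_pp_113 hκ hx hx') (FB23_pp_123 hκ hx hx') (FB23_pp_133 hκ hx hx') (FB23_pp_202 hκ hx hx') (FB23_pp_203 hκ hx hx') (FB23_pp_213 hκ hx hx') (FB23_pp_303 hκ hx hx') (FB23_pp_313 hκ hx hx')
  pm := all17 (Q := fun a b c => TriB PP.cur (farS κ (h0 * x) (tbl tKF x) (tbl tL x)) a b c 2 3 1 (-1))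
    (FB23_pm_001 hκ hx hx') (FB23_pm_011 hκ hx hx') (FB23_pm_012 hκ hx hx') (FB23_pm_022 hκ hx hx') (FB23_pm_023 hκ hx hx') (FB23_pm_033 hκ hx hx') (FB23_pm_101 hκ hx hx') (FB23_pm_102 hκ hx hx') (FB23_pm_112 hκ hx hx') (FB23_pm_113 hκ hx hx') (FB23_pm_123 hκ hx hx') (FB23_pm_133 hκ hx hx') (FB23_pm_202 hκ hx hx') (FB23_pm_203 hκ hx hx') (FB23_pm_213 hκ hx hx') (FB23_pm_303 hκ hx hx') (FB23_pm_313 hκ hx hx')
  mm := all17 (Q := fun a b c => TriB PP.cur (farS κ (h0 * x) (tbl tKF x) (tbl tL x)) a b c 2 3 (-1) (-1))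
    (FB23_mm_001 hκ hx hx') (FB23_mm_011 hκ hx hx') (FB23_mm_012 hκ hx hx') (FB23_mm_022 hκ hx hx') (FB23_mm_023 hκ hx hx') (FB23_mm_033 hκ hx hx') (FB23_mm_101 hκ hx hx') (FB23_mm_102 hκ hx hx') (FB23_mm_112 hκ hx hx') (FB23_mm_113 hκ hx hx') (FB23_mm_123 hκ hx hx') (FB23_mm_133 hκ hx hx') (FB23_mm_202 hκ hx hx') (FB23_mm_203 hκ hx hx') (FB23_mm_213 hκ hx hx') (FB23_mm_303 hκ hx hx') (FB23_mm_313 hκ hx hx')

end Pool.Agent.Strip051.G.I3_16_5_16.Tab
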