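import Pool.Agent.Strip051.G.I3_16_5_16.Fact
import Pool.Agent.Strip051.PB.Alt

/-! # Rows from certificates (generated) -/

set_option linter.all false
set_option maxRecDepth 100000

namespace Pool.Agent.Strip051.G.I3_16_5_16.Tab

open Pool.Agent.Strip051.PB Pool.Agent.StripNear Pool.Agent.Strip051.LC


theorem hx1 {x : ℝ} (hx : ((201326592 : ℕ) : ℝ) / S ≤ x) : 0 < x := by
  rw [S_num] at hx
  norm_num at hx
  linarith

theorem hx2 {x : ℝ} (hx' : x ≤ (((201326592 : ℕ) : ℝ) + (134217728 : ℕ)) / S) : x < 1 := by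
  rw [S_num] at hx'
  norm_num at hx'
  linarith

end Pool.Agent.Strip051.G.I3_16_5_16.Tab
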