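import Pool.Agent.Strip051.G.I3_16_5_16.CrnB
import Pool.Agent.Strip051.G.I3_16_5_16.CN_0
import Pool.Agent.Strip051.G.I3_16_5_16.CN_1
import Pool.Agent.Strip051.G.I3_16_5_16.CN_2

/-! # Aligned corners: the alternatives (generated) -/

set_option linter.all false

namespace Pool.Agent.Strip051.G.I3_16_5_16.Tab

open Pool.Agent.Strip051.PB Pool.Agent.StripNear Pool.Agent.Strip051.LC

theorem altN_A011E_00 {κ x : ℝ} (hκ : κ * h0 = ken x) (hx : ((201326592 : ℕ) : ℝ) / S ≤ x) (hx' : x ≤ (((201326592 : ℕ) : ℝ) + (134217728 : ℕ)) / S) :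
    AltA (VN 3 κ) PP tKN tL pcN [⟨0, 0, 0, 67108864⟩, ⟨1, 1, 0, 67108864⟩, ⟨2, 1, 0, 67108864⟩] 0 1 1 0 0 (sgb true) (sgb false) x := by
  have X : XR 67108864 x := XR.of hx hx' (by norm_num) (by norm_num) (by norm_num) (by norm_num)
  refine (cornS_of (C := cA011E) (C0 := c0N) (j := (0 : Fin 6)) (k := (0 : Fin 6)) (lo := 0) (hi := 0) (W := 67108864) (N0 := 3) cA011E_q (sideN hx hx') gokN X (by norm_num) (by norm_num) (l := (0 : Fin 6)) rfl
    (gatN00 x) (gatN01 x) (gatN01 x) ?_).altNA rfl hκ le_rfl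
  intro ρ a B hρ hd i h1 h2
  fin_cases i
  · exact corT_cert (G1 := gN0q0) (G2 := gN0q1) (Ga := gN0q1) (Gb := gN1q1) cA011E_ok B hρ (gatN00 x) (gatN01 x) (fun _ => gatN01 x) (fun h => absurd h (by decide)) hd hx hx' CN.A011E_000
  · exact absurd h2 (by norm_num)
  · exact absurd h2 (by norm_num)
  · exact absurd h2 (by norm_num)
  · exact absurd h2 (by norm_num)

theorem altN_A011L_00 {κ x : ℝ} (hκ : κ * h0 = ken x) (hx : ((201326592 : ℕ) : ℝ) / S ≤ x) (hx' : x ≤ (((201326592 : ℕ) : ℝ) + (134217728 : ℕ)) / S) :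
    AltA (VN 3 κ) PP tKN tL pcN [⟨0, 0, 0, 67108864⟩, ⟨1, 1, 0, 67108864⟩, ⟨2, 1, 0, 67108864⟩] 0 1 1 0 0 (sgb true) (sgb true) x := by
  have X : XR 67108864 x := XR.of hx hx' (by norm_num) (by norm_num) (by norm_num) (by norm_num)
  refine (cornS_of (C := cA011L) (C0 := c0N) (j := (0 : Fin 6)) (k := (0 : Fin 6)) (lo := 3) (hi := 5) (W := 67108864) (N0 := 3) cA011L_q (sideN hx hx') gokN X (by norm_num) (by norm_num) (l := (3 : Fin 6)) rfl
    (gatN00 x) (gatN01 x) (gatN31 x) ?_).altNA rfl hκ le_rfl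
  intro ρ a B hρ hd i h1 h2
  fin_cases i
  · exact absurd h1 (by norm_num)
  · exact absurd h1 (by norm_num)
  · exact corT_cert (G1 := gN0q0) (G2 := gN0q1) (Ga := gN2q1) (Gb := gN3q1) cA011L_ok B hρ (gatN00 x) (gatN01 x) (fun h => absurd h (by decide)) (fun _ => gatN31 x) hd hx hx' CN.A011L_002
  · exact corT_cert (G1 := gN0q0) (G2 := gN0q1) (Ga := gN3q1) (Gb := gN4q1) cA011L_ok B hρ (gatN00 x) (gatN01 x) (fun _ => gatN31 x) (fun _ => gatN41 x) hd hx hx' CN.A011L_003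
  · exact corT_cert (G1 := gN0q0) (G2 := gN0q1) (Ga := gN4q1) (Gb := gN5q1) cA011L_ok B hρ (gatN00 x) (gatN01 x) (fun _ => gatN41 x) (fun _ => gatN51 x) hd hx hx' CN.A011L_004

theorem altN_A011R_03 {κ x : ℝ} (hκ : κ * h0 = ken x) (hx : ((201326592 : ℕ) : ℝ) / S ≤ x) (hx' : x ≤ (((201326592 : ℕ) : ℝ) + (134217728 : ℕ)) / S) :
    AltA (VN 3 κ) PP tKN tL pcN [⟨0, 0, 0, 67108864⟩, ⟨1, 1, 0, 67108864⟩, ⟨2, 1, 0, 67108864⟩] 0 1 1 0 3 (sgb true) (sgb false) x := by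
  have X : XR 67108864 x := XR.of hx hx' (by norm_num) (by norm_num) (by norm_num) (by norm_num)
  refine (cornS_of (C := cA011R) (C0 := c0N) (j := (0 : Fin 6)) (k := (3 : Fin 6)) (lo := 0) (hi := 0) (W := 67108864) (N0 := 3) cA011R_q (sideN hx hx') gokN X (by norm_num) (by norm_num) (l := (0 : Fin 6)) rfl
    (gatN00 x) (gatN31 x) (gatN01 x) ?_).altNA rfl hκ le_rfl
  intro ρ a B hρ hd i h1 h2
  fin_cases i
  · exact corT_cert (G1 := gN0q0) (G2 := gN3q1) (Ga := gN0q1) (Gb := gN1q1) cA011R_ok B hρ (gatN00 x) (gatN31 x) (fun _ => gatN01 x) (fun h => absurd h (by decide)) hd hx hx' CN.A011R_030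
  · exact absurd h2 (by norm_num)
  · exact absurd h2 (by norm_num)
  · exact absurd h2 (by norm_num)
  · exact absurd h2 (by norm_num)

theorem altN_A011R_04 {κ x : ℝ} (hκ : κ * h0 = ken x) (hx : ((201326592 : ℕ) : ℝ) / S ≤ x) (hx' : x ≤ (((201326592 : ℕ) : ℝ) + (134217728 : ℕ)) / S) :
    AltA (VN 3 κ) PP tKN tL pcN [⟨0, 0, 0, 67108864⟩, ⟨1, 1, 0, 67108864⟩, ⟨2, 1, 0, 67108864⟩] 0 1 1 0 4 (sgb true) (sgb false) x := by
  have X : XR 67108864 x := XR.of hx hx' (by norm_num) (by norm_num) (by norm_num) (by norm_num)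
  refine (cornS_of (C := cA011R) (C0 := c0N) (j := (0 : Fin 6)) (k := (4 : Fin 6)) (lo := 0) (hi := 0) (W := 67108864) (N0 := 3) cA011R_q (sideN hx hx') gokN X (by norm_num) (by norm_num) (l := (0 : Fin 6)) rfl
    (gatN00 x) (gatN41 x) (gatN01 x) ?_).altNA rfl hκ le_rfl
  intro ρ a B hρ hd i h1 h2
  fin_cases i
  · exact corT_cert (G1 := gN0q0) (G2 := gN4q1) (Ga := gN0q1) (Gb := gN1q1) cA011R_ok B hρ (gatN00 x) (gatN41 x) (fun _ => gatN01 x) (fun h => absurd h (by decide)) hd hx hx' CN.A011R_040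
  · exact absurd h2 (by norm_num)
  · exact absurd h2 (by norm_num)
  · exact absurd h2 (by norm_num)
  · exact absurd h2 (by norm_num)

theorem altN_A011R_05 {κ x : ℝ} (hκ : κ * h0 = ken x) (hx : ((201326592 : ℕ) : ℝ) / S ≤ x) (hx' : x ≤ (((201326592 : ℕ) : ℝ) + (134217728 : ℕ)) / S) :
    AltA (VN 3 κ) PP tKN tL pcN [⟨0, 0, 0, 67108864⟩, ⟨1, 1, 0, 67108864⟩, ⟨2, 1, 0, 67108864⟩] 0 1 1 0 5 (sgb true) (sgb false) x := by
  have X : XR 67108864 x := XR.of hx hx' (by norm_num) (by norm_num) (by norm_num) (by norm_num)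
  refine (cornS_of (C := cA011R) (C0 := c0N) (j := (0 : Fin 6)) (k := (5 : Fin 6)) (lo := 0) (hi := 0) (W := 67108864) (N0 := 3) cA011R_q (sideN hx hx') gokN X (by norm_num) (by norm_num) (l := (0 : Fin 6)) rfl
    (gatN00 x) (gatN51 x) (gatN01 x) ?_).altNA rfl hκ le_rfl
  intro ρ a B hρ hd i h1 h2
  fin_cases i
  · exact corT_cert (G1 := gN0q0) (G2 := gN5q1) (Ga := gN0q1) (Gb := gN1q1) cA011R_ok B hρ (gatN00 x) (gatN51 x) (fun _ => gatN01 x) (fun h => absurd h (by decide)) hd hx hx' CN.A011R_050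
  · exact absurd h2 (by norm_num)
  · exact absurd h2 (by norm_num)
  · exact absurd h2 (by norm_num)
  · exact absurd h2 (by norm_num)

theorem altN_A011R_13 {κ x : ℝ} (hκ : κ * h0 = ken x) (hx : ((201326592 : ℕ) : ℝ) / S ≤ x) (hx' : x ≤ (((201326592 : ℕ) : ℝ) + (134217728 : ℕ)) / S) :
    AltA (VN 3 κ) PP tKN tL pcN [⟨0, 0, 0, 67108864⟩, ⟨1, 1, 0, 67108864⟩, ⟨2, 1, 0, 67108864⟩] 0 1 1 1 3 (sgb true) (sgb false) x := by
  have X : XR 67108864 x := XR.of hx hx' (by norm_num) (by norm_num) (by norm_num) (by norm_num)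
  refine (cornS_of (C := cA011R) (C0 := c0N) (j := (1 : Fin 6)) (k := (3 : Fin 6)) (lo := 0) (hi := 0) (W := 67108864) (N0 := 3) cA011R_q (sideN hx hx') gokN X (by norm_num) (by norm_num) (l := (0 : Fin 6)) rfl
    (gatN10 x) (gatN31 x) (gatN01 x) ?_).altNA rfl hκ le_rfl
  intro ρ a B hρ hd i h1 h2
  fin_cases i
  · exact corT_cert (G1 := gN1q0) (G2 := gN3q1) (Ga := gN0q1) (Gb := gN1q1) cA011R_ok B hρ (gatN10 x) (gatN31 x) (fun _ => gatN01 x) (fun h => absurd h (by decide)) hd hx hx' CN.A011R_130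
  · exact absurd h2 (by norm_num)
  · exact absurd h2 (by norm_num)
  · exact absurd h2 (by norm_num)
  · exact absurd h2 (by norm_num)

theorem altN_A011R_14 {κ x : ℝ} (hκ : κ * h0 = ken x) (hx : ((201326592 : ℕ) : ℝ) / S ≤ x) (hx' : x ≤ (((201326592 : ℕ) : ℝ) + (134217728 : ℕ)) / S) :
    AltA (VN 3 κ) PP tKN tL pcN [⟨0, 0, 0, 67108864⟩, ⟨1, 1, 0, 67108864⟩, ⟨2, 1, 0, 67108864⟩] 0 1 1 1 4 (sgb true) (sgb false) x := by
  have X : XR 67108864 x := XR.of hx hx' (by norm_num) (by norm_num) (by norm_num) (by norm_num)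
  refine (cornS_of (C := cA011R) (C0 := c0N) (j := (1 : Fin 6)) (k := (4 : Fin 6)) (lo := 0) (hi := 0) (W := 67108864) (N0 := 3) cA011R_q (sideN hx hx') gokN X (by norm_num) (by norm_num) (l := (0 : Fin 6)) rfl
    (gatN10 x) (gatN41 x) (gatN01 x) ?_).altNA rfl hκ le_rfl
  intro ρ a B hρ hd i h1 h2
  fin_cases i
  · exact corT_cert (G1 := gN1q0) (G2 := gN4q1) (Ga := gN0q1) (Gb := gN1q1) cA011R_ok B hρ (gatN10 x) (gatN41 x) (fun _ => gatN01 x) (fun h => absurd h (by decide)) hd hx hx' CN.A011R_140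
  · exact absurd h2 (by norm_num)
  · exact absurd h2 (by norm_num)
  · exact absurd h2 (by norm_num)
  · exact absurd h2 (by norm_num)

theorem altN_A011R_15 {κ x : ℝ} (hκ : κ * h0 = ken x) (hx : ((201326592 : ℕ) : ℝ) / S ≤ x) (hx' : x ≤ (((201326592 : ℕ) : ℝ) + (134217728 : ℕ)) / S) :
    AltA (VN 3 κ) PP tKN tL pcN [⟨0, 0, 0, 67108864⟩, ⟨1, 1, 0, 67108864⟩, ⟨2, 1, 0, 67108864⟩] 0 1 1 1 5 (sgb true) (sgb false) x := by
  have X : XR 67108864 x := XR.of hx hx' (by norm_num) (by norm_num) (by norm_num) (by norm_num)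
  refine (cornS_of (C := cA011R) (C0 := c0N) (j := (1 : Fin 6)) (k := (5 : Fin 6)) (lo := 0) (hi := 0) (W := 67108864) (N0 := 3) cA011R_q (sideN hx hx') gokN X (by norm_num) (by norm_num) (l := (0 : Fin 6)) rfl
    (gatN10 x) (gatN51 x) (gatN01 x) ?_).altNA rfl hκ le_rfl
  intro ρ a B hρ hd i h1 h2
  fin_cases i
  · exact corT_cert (G1 := gN1q0) (G2 := gN5q1) (Ga := gN0q1) (Gb := gN1q1) cA011R_ok B hρ (gatN10 x) (gatN51 x) (fun _ => gatN01 x) (fun h => absurd h (by decide)) hd hx hx' CN.A011R_150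
  · exact absurd h2 (by norm_num)
  · exact absurd h2 (by norm_num)
  · exact absurd h2 (by norm_num)
  · exact absurd h2 (by norm_num)

theorem altN_A011R_23 {κ x : ℝ} (hκ : κ * h0 = ken x) (hx : ((201326592 : ℕ) : ℝ) / S ≤ x) (hx' : x ≤ (((201326592 : ℕ) : ℝ) + (134217728 : ℕ)) / S) :
    AltA (VN 3 κ) PP tKN tL pcN [⟨0, 0, 0, 67108864⟩, ⟨1, 1, 0, 67108864⟩, ⟨2, 1, 0, 67108864⟩] 0 1 1 2 3 (sgb true) (sgb false) x := by
  have X : XR 67108864 x := XR.of hx hx' (by norm_num) (by norm_num) (by norm_num) (by norm_num)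
  refine (cornS_of (C := cA011R) (C0 := c0N) (j := (2 : Fin 6)) (k := (3 : Fin 6)) (lo := 0) (hi := 0) (W := 67108864) (N0 := 3) cA011R_q (sideN hx hx') gokN X (by norm_num) (by norm_num) (l := (0 : Fin 6)) rfl
    (gatN20 x) (gatN31 x) (gatN01 x) ?_).altNA rfl hκ le_rfl
  intro ρ a B hρ hd i h1 h2
  fin_cases i
  · exact corT_cert (G1 := gN2q0) (G2 := gN3q1) (Ga := gN0q1) (Gb := gN1q1) cA011R_ok B hρ (gatN20 x) (gatN31 x) (fun _ => gatN01 x) (fun h => absurd h (by decide)) hd hx hx' CN.A011R_230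
  · exact absurd h2 (by norm_num)
  · exact absurd h2 (by norm_num)
  · exact absurd h2 (by norm_num)
  · exact absurd h2 (by norm_num)

theorem altN_A011R_24 {κ x : ℝ} (hκ : κ * h0 = ken x) (hx : ((201326592 : ℕ) : ℝ) / S ≤ x) (hx' : x ≤ (((201326592 : ℕ) : ℝ) + (134217728 : ℕ)) / S) :
    AltA (VN 3 κ) PP tKN tL pcN [⟨0, 0, 0, 67108864⟩, ⟨1, 1, 0, 67108864⟩, ⟨2, 1, 0, 67108864⟩] 0 1 1 2 4 (sgb true) (sgb false) x := by
  have X : XR 67108864 x := XR.of hx hx' (by norm_num) (by norm_num) (by norm_num) (by norm_num)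
  refine (cornS_of (C := cA011R) (C0 := c0N) (j := (2 : Fin 6)) (k := (4 : Fin 6)) (lo := 0) (hi := 0) (W := 67108864) (N0 := 3) cA011R_q (sideN hx hx') gokN X (by norm_num) (by norm_num) (l := (0 : Fin 6)) rfl
    (gatN20 x) (gatN41 x) (gatN01 x) ?_).altNA rfl hκ le_rfl
  intro ρ a B hρ hd i h1 h2
  fin_cases i
  · exact corT_cert (G1 := gN2q0) (G2 := gN4q1) (Ga := gN0q1) (Gb := gN1q1) cA011R_ok B hρ (gatN20 x) (gatN41 x) (fun _ => gatN01 x) (fun h => absurd h (by decide)) hd hx hx' CN.A011R_240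
  · exact absurd h2 (by norm_num)
  · exact absurd h2 (by norm_num)
  · exact absurd h2 (by norm_num)
  · exact absurd h2 (by norm_num)

theorem altN_A011R_25 {κ x : ℝ} (hκ : κ * h0 = ken x) (hx : ((201326592 : ℕ) : ℝ) / S ≤ x) (hx' : x ≤ (((201326592 : ℕ) : ℝ) + (134217728 : ℕ)) / S) :
    AltA (VN 3 κ) PP tKN tL pcN [⟨0, 0, 0, 67108864⟩, ⟨1, 1, 0, 67108864⟩, ⟨2, 1, 0, 67108864⟩] 0 1 1 2 5 (sgb true) (sgb false) x := by
  have X : XR 67108864 x := XR.of hx hx' (by norm_num) (by norm_num) (by norm_num) (by norm_num)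
  refine (cornS_of (C := cA011R) (C0 := c0N) (j := (2 : Fin 6)) (k := (5 : Fin 6)) (lo := 0) (hi := 0) (W := 67108864) (N0 := 3) cA011R_q (sideN hx hx') gokN X (by norm_num) (by norm_num) (l := (0 : Fin 6)) rfl
    (gatN20 x) (gatN51 x) (gatN01 x) ?_).altNA rfl hκ le_rfl
  intro ρ a B hρ hd i h1 h2
  fin_cases i
  · exact corT_cert (G1 := gN2q0) (G2 := gN5q1) (Ga := gN0q1) (Gb := gN1q1) cA011R_ok B hρ (gatN20 x) (gatN51 x) (fun _ => gatN01 x) (fun h => absurd h (by decide)) hd hx hx' CN.A011R_250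
  · exact absurd h2 (by norm_num)
  · exact absurd h2 (by norm_num)
  · exact absurd h2 (by norm_num)
  · exact absurd h2 (by norm_num)

theorem altN_A012E_00 {κ x : ℝ} (hκ : κ * h0 = ken x) (hx : ((201326592 : ℕ) : ℝ) / S ≤ x) (hx' : x ≤ (((201326592 : ℕ) : ℝ) + (134217728 : ℕ)) / S) :
    AltA (VN 3 κ) PP tKN tL pcN [⟨0, 0, 0, 67108864⟩, ⟨1, 1, 0, 67108864⟩, ⟨2, 1, 0, 67108864⟩] 0 1 2 0 0 (sgb true) (sgb false) x := by
  have X : XR 67108864 x := XR.of hx hx' (by norm_num) (by norm_num) (by norm_num) (by norm_num)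
  refine (cornS_of (C := cA012E) (C0 := c0N) (j := (0 : Fin 6)) (k := (0 : Fin 6)) (lo := 0) (hi := 2) (W := 67108864) (N0 := 3) cA012E_q (sideN hx hx') gokN X (by norm_num) (by norm_num) (l := (0 : Fin 6)) rfl
    (gatN00 x) (gatN01 x) (gatN02 x) ?_).altNA rfl hκ le_rfl
  intro ρ a B hρ hd i h1 h2
  fin_cases i
  · exact corT_cert (G1 := gN0q0) (G2 := gN0q1) (Ga := gN0q2) (Gb := gN1q2) cA012E_ok B hρ (gatN00 x) (gatN01 x) (fun _ => gatN02 x) (fun _ => gatN12 x) hd hx hx' CN.A012E_000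
  · exact corT_cert (G1 := gN0q0) (G2 := gN0q1) (Ga := gN1q2) (Gb := gN2q2) cA012E_ok B hρ (gatN00 x) (gatN01 x) (fun _ => gatN12 x) (fun _ => gatN22 x) hd hx hx' CN.A012E_001
  · exact corT_cert (G1 := gN0q0) (G2 := gN0q1) (Ga := gN2q2) (Gb := gN3q2) cA012E_ok B hρ (gatN00 x) (gatN01 x) (fun _ => gatN22 x) (fun h => absurd h (by decide)) hd hx hx' CN.A012E_002
  · exact absurd h2 (by norm_num)
  · exact absurd h2 (by norm_num)

theorem altN_A012L_00 {κ x : ℝ} (hκ : κ * h0 = ken x) (hx : ((201326592 : ℕ) : ℝ) / S ≤ x) (hx' : x ≤ (((201326592 : ℕ) : ℝ) + (134217728 : ℕ)) / S) :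
    AltA (VN 3 κ) PP tKN tL pcN [⟨0, 0, 0, 67108864⟩, ⟨1, 1, 0, 67108864⟩, ⟨2, 1, 0, 67108864⟩] 0 1 2 0 0 (sgb true) (sgb true) x := by
  have X : XR 67108864 x := XR.of hx hx' (by norm_num) (by norm_num) (by norm_num) (by norm_num)
  refine (cornS_of (C := cA012L) (C0 := c0N) (j := (0 : Fin 6)) (k := (0 : Fin 6)) (lo := 5) (hi := 5) (W := 67108864) (N0 := 3) cA012L_q (sideN hx hx') gokN X (by norm_num) (by norm_num) (l := (5 : Fin 6)) rfl
    (gatN00 x) (gatN01 x) (gatN52 x) ?_).altNA rfl hκ le_rfl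
  intro ρ a B hρ hd i h1 h2
  fin_cases i
  · exact absurd h1 (by norm_num)
  · exact absurd h1 (by norm_num)
  · exact absurd h1 (by norm_num)
  · exact absurd h1 (by norm_num)
  · exact corT_cert (G1 := gN0q0) (G2 := gN0q1) (Ga := gN4q2) (Gb := gN5q2) cA012L_ok B hρ (gatN00 x) (gatN01 x) (fun h => absurd h (by decide)) (fun _ => gatN52 x) hd hx hx' CN.A012L_004

theorem altN_A012R_03 {κ x : ℝ} (hκ : κ * h0 = ken x) (hx : ((201326592 : ℕ) : ℝ) / S ≤ x) (hx' : x ≤ (((201326592 : ℕ) : ℝ) + (134217728 : ℕ)) / S) :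
    AltA (VN 3 κ) PP tKN tL pcN [⟨0, 0, 0, 67108864⟩, ⟨1, 1, 0, 67108864⟩, ⟨2, 1, 0, 67108864⟩] 0 1 2 0 3 (sgb true) (sgb false) x := by
  have X : XR 67108864 x := XR.of hx hx' (by norm_num) (by norm_num) (by norm_num) (by norm_num)
  refine (cornS_of (C := cA012R) (C0 := c0N) (j := (0 : Fin 6)) (k := (3 : Fin 6)) (lo := 0) (hi := 2) (W := 67108864) (N0 := 3) cA012R_q (sideN hx hx') gokN X (by norm_num) (by norm_num) (l := (0 : Fin 6)) rfl
    (gatN00 x) (gatN31 x) (gatN02 x) ?_).altNA rfl hκ le_rfl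
  intro ρ a B hρ hd i h1 h2
  fin_cases i
  · exact corT_cert (G1 := gN0q0) (G2 := gN3q1) (Ga := gN0q2) (Gb := gN1q2) cA012R_ok B hρ (gatN00 x) (gatN31 x) (fun _ => gatN02 x) (fun _ => gatN12 x) hd hx hx' CN.A012R_030
  · exact corT_cert (G1 := gN0q0) (G2 := gN3q1) (Ga := gN1q2) (Gb := gN2q2) cA012R_ok B hρ (gatN00 x) (gatN31 x) (fun _ => gatN12 x) (fun _ => gatN22 x) hd hx hx' CN.A012R_031
  · exact corT_cert (G1 := gN0q0) (G2 := gN3q1) (Ga := gN2q2) (Gb := gN3q2) cA012R_ok B hρ (gatN00 x) (gatN31 x) (fun _ => gatN22 x) (fun h => absurd h (by decide)) hd hx hx' CN.A012R_032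
  · exact absurd h2 (by norm_num)
  · exact absurd h2 (by norm_num)

theorem altN_A012R_04 {κ x : ℝ} (hκ : κ * h0 = ken x) (hx : ((201326592 : ℕ) : ℝ) / S ≤ x) (hx' : x ≤ (((201326592 : ℕ) : ℝ) + (134217728 : ℕ)) / S) :
    AltA (VN 3 κ) PP tKN tL pcN [⟨0, 0, 0, 67108864⟩, ⟨1, 1, 0, 67108864⟩, ⟨2, 1, 0, 67108864⟩] 0 1 2 0 4 (sgb true) (sgb false) x := by
  have X : XR 67108864 x := XR.of hx hx' (by norm_num) (by norm_num) (by norm_num) (by norm_num)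
  refine (cornS_of (C := cA012R) (C0 := c0N) (j := (0 : Fin 6)) (k := (4 : Fin 6)) (lo := 0) (hi := 2) (W := 67108864) (N0 := 3) cA012R_q (sideN hx hx') gokN X (by norm_num) (by norm_num) (l := (0 : Fin 6)) rfl
    (gatN00 x) (gatN41 x) (gatN02 x) ?_).altNA rfl hκ le_rfl
  intro ρ a B hρ hd i h1 h2
  fin_cases i
  · exact corT_cert (G1 := gN0q0) (G2 := gN4q1) (Ga := gN0q2) (Gb := gN1q2) cA012R_ok B hρ (gatN00 x) (gatN41 x) (fun _ => gatN02 x) (fun _ => gatN12 x) hd hx hx' CN.A012R_040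
  · exact corT_cert (G1 := gN0q0) (G2 := gN4q1) (Ga := gN1q2) (Gb := gN2q2) cA012R_ok B hρ (gatN00 x) (gatN41 x) (fun _ => gatN12 x) (fun _ => gatN22 x) hd hx hx' CN.A012R_041
  · exact corT_cert (G1 := gN0q0) (G2 := gN4q1) (Ga := gN2q2) (Gb := gN3q2) cA012R_ok B hρ (gatN00 x) (gatN41 x) (fun _ => gatN22 x) (fun h => absurd h (by decide)) hd hx hx' CN.A012R_042
  · exact absurd h2 (by norm_num)
  · exact absurd h2 (by norm_num)

theorem altN_A012R_05 {κ x : ℝ} (hκ : κ * h0 = ken x) (hx : ((201326592 : ℕ) : ℝ) / S ≤ x) (hx' : x ≤ (((201326592 : ℕ) : ℝ) + (134217728 : ℕ)) / S) :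
    AltA (VN 3 κ) PP tKN tL pcN [⟨0, 0, 0, 67108864⟩, ⟨1, 1, 0, 67108864⟩, ⟨2, 1, 0, 67108864⟩] 0 1 2 0 5 (sgb true) (sgb false) x := by
  have X : XR 67108864 x := XR.of hx hx' (by norm_num) (by norm_num) (by norm_num) (by norm_num)
  refine (cornS_of (C := cA012R) (C0 := c0N) (j := (0 : Fin 6)) (k := (5 : Fin 6)) (lo := 0) (hi := 2) (W := 67108864) (N0 := 3) cA012R_q (sideN hx hx') gokN X (by norm_num) (by norm_num) (l := (0 : Fin 6)) rfl
    (gatN00 x) (gatN51 x) (gatN02 x) ?_).altNA rfl hκ le_rfl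
  intro ρ a B hρ hd i h1 h2
  fin_cases i
  · exact corT_cert (G1 := gN0q0) (G2 := gN5q1) (Ga := gN0q2) (Gb := gN1q2) cA012R_ok B hρ (gatN00 x) (gatN51 x) (fun _ => gatN02 x) (fun _ => gatN12 x) hd hx hx' CN.A012R_050
  · exact corT_cert (G1 := gN0q0) (G2 := gN5q1) (Ga := gN1q2) (Gb := gN2q2) cA012R_ok B hρ (gatN00 x) (gatN51 x) (fun _ => gatN12 x) (fun _ => gatN22 x) hd hx hx' CN.A012R_051
  · exact corT_cert (G1 := gN0q0) (G2 := gN5q1) (Ga := gN2q2) (Gb := gN3q2) cA012R_ok B hρ (gatN00 x) (gatN51 x) (fun _ => gatN22 x) (fun h => absurd h (by decide)) hd hx hx' CN.A012R_052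
  · exact absurd h2 (by norm_num)
  · exact absurd h2 (by norm_num)

theorem altN_A012R_13 {κ x : ℝ} (hκ : κ * h0 = ken x) (hx : ((201326592 : ℕ) : ℝ) / S ≤ x) (hx' : x ≤ (((201326592 : ℕ) : ℝ) + (134217728 : ℕ)) / S) :
    AltA (VN 3 κ) PP tKN tL pcN [⟨0, 0, 0, 67108864⟩, ⟨1, 1, 0, 67108864⟩, ⟨2, 1, 0, 67108864⟩] 0 1 2 1 3 (sgb true) (sgb false) x := by
  have X : XR 67108864 x := XR.of hx hx' (by norm_num) (by norm_num) (by norm_num) (by norm_num)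
  refine (cornS_of (C := cA012R) (C0 := c0N) (j := (1 : Fin 6)) (k := (3 : Fin 6)) (lo := 0) (hi := 2) (W := 67108864) (N0 := 3) cA012R_q (sideN hx hx') gokN X (by norm_num) (by norm_num) (l := (0 : Fin 6)) rfl
    (gatN10 x) (gatN31 x) (gatN02 x) ?_).altNA rfl hκ le_rfl
  intro ρ a B hρ hd i h1 h2
  fin_cases i
  · exact corT_cert (G1 := gN1q0) (G2 := gN3q1) (Ga := gN0q2) (Gb := gN1q2) cA012R_ok B hρ (gatN10 x) (gatN31 x) (fun _ => gatN02 x) (fun _ => gatN12 x) hd hx hx' CN.A012R_130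
  · exact corT_cert (G1 := gN1q0) (G2 := gN3q1) (Ga := gN1q2) (Gb := gN2q2) cA012R_ok B hρ (gatN10 x) (gatN31 x) (fun _ => gatN12 x) (fun _ => gatN22 x) hd hx hx' CN.A012R_131
  · exact corT_cert (G1 := gN1q0) (G2 := gN3q1) (Ga := gN2q2) (Gb := gN3q2) cA012R_ok B hρ (gatN10 x) (gatN31 x) (fun _ => gatN22 x) (fun h => absurd h (by decide)) hd hx hx' CN.A012R_132
  · exact absurd h2 (by norm_num)
  · exact absurd h2 (by norm_num)

theorem altN_A012R_14 {κ x : ℝ} (hκ : κ * h0 = ken x) (hx : ((201326592 : ℕ) : ℝ) / S ≤ x) (hx' : x ≤ (((201326592 : ℕ) : ℝ) + (134217728 : ℕ)) / S) :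
    AltA (VN 3 κ) PP tKN tL pcN [⟨0, 0, 0, 67108864⟩, ⟨1, 1, 0, 67108864⟩, ⟨2, 1, 0, 67108864⟩] 0 1 2 1 4 (sgb true) (sgb false) x := by
  have X : XR 67108864 x := XR.of hx hx' (by norm_num) (by norm_num) (by norm_num) (by norm_num)
  refine (cornS_of (C := cA012R) (C0 := c0N) (j := (1 : Fin 6)) (k := (4 : Fin 6)) (lo := 0) (hi := 2) (W := 67108864) (N0 := 3) cA012R_q (sideN hx hx') gokN X (by norm_num) (by norm_num) (l := (0 : Fin 6)) rfl
    (gatN10 x) (gatN41 x) (gatN02 x) ?_).altNA rfl hκ le_rfl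
  intro ρ a B hρ hd i h1 h2
  fin_cases i
  · exact corT_cert (G1 := gN1q0) (G2 := gN4q1) (Ga := gN0q2) (Gb := gN1q2) cA012R_ok B hρ (gatN10 x) (gatN41 x) (fun _ => gatN02 x) (fun _ => gatN12 x) hd hx hx' CN.A012R_140
  · exact corT_cert (G1 := gN1q0) (G2 := gN4q1) (Ga := gN1q2) (Gb := gN2q2) cA012R_ok B hρ (gatN10 x) (gatN41 x) (fun _ => gatN12 x) (fun _ => gatN22 x) hd hx hx' CN.A012R_141
  · exact corT_cert (G1 := gN1q0) (G2 := gN4q1) (Ga := gN2q2) (Gb := gN3q2) cA012R_ok B hρ (gatN10 x) (gatN41 x) (fun _ => gatN22 x) (fun h => absurd h (by decide)) hd hx hx' CN.A012R_142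
  · exact absurd h2 (by norm_num)
  · exact absurd h2 (by norm_num)

theorem altN_A012R_15 {κ x : ℝ} (hκ : κ * h0 = ken x) (hx : ((201326592 : ℕ) : ℝ) / S ≤ x) (hx' : x ≤ (((201326592 : ℕ) : ℝ) + (134217728 : ℕ)) / S) :
    AltA (VN 3 κ) PP tKN tL pcN [⟨0, 0, 0, 67108864⟩, ⟨1, 1, 0, 67108864⟩, ⟨2, 1, 0, 67108864⟩] 0 1 2 1 5 (sgb true) (sgb false) x := by
  have X : XR 67108864 x := XR.of hx hx' (by norm_num) (by norm_num) (by norm_num) (by norm_num)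
  refine (cornS_of (C := cA012R) (C0 := c0N) (j := (1 : Fin 6)) (k := (5 : Fin 6)) (lo := 0) (hi := 2) (W := 67108864) (N0 := 3) cA012R_q (sideN hx hx') gokN X (by norm_num) (by norm_num) (l := (0 : Fin 6)) rfl
    (gatN10 x) (gatN51 x) (gatN02 x) ?_).altNA rfl hκ le_rfl
  intro ρ a B hρ hd i h1 h2
  fin_cases i
  · exact corT_cert (G1 := gN1q0) (G2 := gN5q1) (Ga := gN0q2) (Gb := gN1q2) cA012R_ok B hρ (gatN10 x) (gatN51 x) (fun _ => gatN02 x) (fun _ => gatN12 x) hd hx hx' CN.A012R_150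
  · exact corT_cert (G1 := gN1q0) (G2 := gN5q1) (Ga := gN1q2) (Gb := gN2q2) cA012R_ok B hρ (gatN10 x) (gatN51 x) (fun _ => gatN12 x) (fun _ => gatN22 x) hd hx hx' CN.A012R_151
  · exact corT_cert (G1 := gN1q0) (G2 := gN5q1) (Ga := gN2q2) (Gb := gN3q2) cA012R_ok B hρ (gatN10 x) (gatN51 x) (fun _ => gatN22 x) (fun h => absurd h (by decide)) hd hx hx' CN.A012R_152
  · exact absurd h2 (by norm_num)
  · exact absurd h2 (by norm_num)

theorem altN_A012R_23 {κ x : ℝ} (hκ : κ * h0 = ken x) (hx : ((201326592 : ℕ) : ℝ) / S ≤ x) (hx' : x ≤ (((201326592 : ℕ) : ℝ) + (134217728 : ℕ)) / S) :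
    AltA (VN 3 κ) PP tKN tL pcN [⟨0, 0, 0, 67108864⟩, ⟨1, 1, 0, 67108864⟩, ⟨2, 1, 0, 67108864⟩] 0 1 2 2 3 (sgb true) (sgb false) x := by
  have X : XR 67108864 x := XR.of hx hx' (by norm_num) (by norm_num) (by norm_num) (by norm_num)
  refine (cornS_of (C := cA012R) (C0 := c0N) (j := (2 : Fin 6)) (k := (3 : Fin 6)) (lo := 0) (hi := 2) (W := 67108864) (N0 := 3) cA012R_q (sideN hx hx') gokN X (by norm_num) (by norm_num) (l := (0 : Fin 6)) rfl
    (gatN20 x) (gatN31 x) (gatN02 x) ?_).altNA rfl hκ le_rfl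
  intro ρ a B hρ hd i h1 h2
  fin_cases i
  · exact corT_cert (G1 := gN2q0) (G2 := gN3q1) (Ga := gN0q2) (Gb := gN1q2) cA012R_ok B hρ (gatN20 x) (gatN31 x) (fun _ => gatN02 x) (fun _ => gatN12 x) hd hx hx' CN.A012R_230
  · exact corT_cert (G1 := gN2q0) (G2 := gN3q1) (Ga := gN1q2) (Gb := gN2q2) cA012R_ok B hρ (gatN20 x) (gatN31 x) (fun _ => gatN12 x) (fun _ => gatN22 x) hd hx hx' CN.A012R_231
  · exact corT_cert (G1 := gN2q0) (G2 := gN3q1) (Ga := gN2q2) (Gb := gN3q2) cA012R_ok B hρ (gatN20 x) (gatN31 x) (fun _ => gatN22 x) (fun h => absurd h (by decide)) hd hx hx' CN.A012R_232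
  · exact absurd h2 (by norm_num)
  · exact absurd h2 (by norm_num)

theorem altN_A012R_24 {κ x : ℝ} (hκ : κ * h0 = ken x) (hx : ((201326592 : ℕ) : ℝ) / S ≤ x) (hx' : x ≤ (((201326592 : ℕ) : ℝ) + (134217728 : ℕ)) / S) :
    AltA (VN 3 κ) PP tKN tL pcN [⟨0, 0, 0, 67108864⟩, ⟨1, 1, 0, 67108864⟩, ⟨2, 1, 0, 67108864⟩] 0 1 2 2 4 (sgb true) (sgb false) x := by
  have X : XR 67108864 x := XR.of hx hx' (by norm_num) (by norm_num) (by norm_num) (by norm_num)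
  refine (cornS_of (C := cA012R) (C0 := c0N) (j := (2 : Fin 6)) (k := (4 : Fin 6)) (lo := 0) (hi := 2) (W := 67108864) (N0 := 3) cA012R_q (sideN hx hx') gokN X (by norm_num) (by norm_num) (l := (0 : Fin 6)) rfl
    (gatN20 x) (gatN41 x) (gatN02 x) ?_).altNA rfl hκ le_rfl
  intro ρ a B hρ hd i h1 h2
  fin_cases i
  · exact corT_cert (G1 := gN2q0) (G2 := gN4q1) (Ga := gN0q2) (Gb := gN1q2) cA012R_ok B hρ (gatN20 x) (gatN41 x) (fun _ => gatN02 x) (fun _ => gatN12 x) hd hx hx' CN.A012R_240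
  · exact corT_cert (G1 := gN2q0) (G2 := gN4q1) (Ga := gN1q2) (Gb := gN2q2) cA012R_ok B hρ (gatN20 x) (gatN41 x) (fun _ => gatN12 x) (fun _ => gatN22 x) hd hx hx' CN.A012R_241
  · exact corT_cert (G1 := gN2q0) (G2 := gN4q1) (Ga := gN2q2) (Gb := gN3q2) cA012R_ok B hρ (gatN20 x) (gatN41 x) (fun _ => gatN22 x) (fun h => absurd h (by decide)) hd hx hx' CN.A012R_242
  · exact absurd h2 (by norm_num)
  · exact absurd h2 (by norm_num)

theorem altN_A012R_25 {κ x : ℝ} (hκ : κ * h0 = ken x) (hx : ((201326592 : ℕ) : ℝ) / S ≤ x) (hx' : x ≤ (((201326592 : ℕ) : ℝ) + (134217728 : ℕ)) / S) :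
    AltA (VN 3 κ) PP tKN tL pcN [⟨0, 0, 0, 67108864⟩, ⟨1, 1, 0, 67108864⟩, ⟨2, 1, 0, 67108864⟩] 0 1 2 2 5 (sgb true) (sgb false) x := by
  have X : XR 67108864 x := XR.of hx hx' (by norm_num) (by norm_num) (by norm_num) (by norm_num)
  refine (cornS_of (C := cA012R) (C0 := c0N) (j := (2 : Fin 6)) (k := (5 : Fin 6)) (lo := 0) (hi := 2) (W := 67108864) (N0 := 3) cA012R_q (sideN hx hx') gokN X (by norm_num) (by norm_num) (l := (0 : Fin 6)) rfl
    (gatN20 x) (gatN51 x) (gatN02 x) ?_).altNA rfl hκ le_rfl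
  intro ρ a B hρ hd i h1 h2
  fin_cases i
  · exact corT_cert (G1 := gN2q0) (G2 := gN5q1) (Ga := gN0q2) (Gb := gN1q2) cA012R_ok B hρ (gatN20 x) (gatN51 x) (fun _ => gatN02 x) (fun _ => gatN12 x) hd hx hx' CN.A012R_250
  · exact corT_cert (G1 := gN2q0) (G2 := gN5q1) (Ga := gN1q2) (Gb := gN2q2) cA012R_ok B hρ (gatN20 x) (gatN51 x) (fun _ => gatN12 x) (fun _ => gatN22 x) hd hx hx' CN.A012R_251
  · exact corT_cert (G1 := gN2q0) (G2 := gN5q1) (Ga := gN2q2) (Gb := gN3q2) cA012R_ok B hρ (gatN20 x) (gatN51 x) (fun _ => gatN22 x) (fun h => absurd h (by decide)) hd hx hx' CN.A012R_252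
  · exact absurd h2 (by norm_num)
  · exact absurd h2 (by norm_num)

theorem altN_A022E_00 {κ x : ℝ} (hκ : κ * h0 = ken x) (hx : ((201326592 : ℕ) : ℝ) / S ≤ x) (hx' : x ≤ (((201326592 : ℕ) : ℝ) + (134217728 : ℕ)) / S) :
    AltA (VN 3 κ) PP tKN tL pcN [⟨0, 0, 0, 67108864⟩, ⟨1, 1, 0, 67108864⟩, ⟨2, 1, 0, 67108864⟩] 0 2 2 0 0 (sgb true) (sgb false) x := by
  have X : XR 67108864 x := XR.of hx hx' (by norm_num) (by norm_num) (by norm_num) (by norm_num)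
  refine (cornS_of (C := cA022E) (C0 := c0N) (j := (0 : Fin 6)) (k := (0 : Fin 6)) (lo := 0) (hi := 2) (W := 67108864) (N0 := 3) cA022E_q (sideN hx hx') gokN X (by norm_num) (by norm_num) (l := (0 : Fin 6)) rfl
    (gatN00 x) (gatN02 x) (gatN02 x) ?_).altNA rfl hκ le_rfl
  intro ρ a B hρ hd i h1 h2
  fin_cases i
  · exact corT_cert (G1 := gN0q0) (G2 := gN0q2) (Ga := gN0q2) (Gb := gN1q2) cA022E_ok B hρ (gatN00 x) (gatN02 x) (fun _ => gatN02 x) (fun _ => gatN12 x) hd hx hx' CN.A022E_000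
  · exact corT_cert (G1 := gN0q0) (G2 := gN0q2) (Ga := gN1q2) (Gb := gN2q2) cA022E_ok B hρ (gatN00 x) (gatN02 x) (fun _ => gatN12 x) (fun _ => gatN22 x) hd hx hx' CN.A022E_001
  · exact corT_cert (G1 := gN0q0) (G2 := gN0q2) (Ga := gN2q2) (Gb := gN3q2) cA022E_ok B hρ (gatN00 x) (gatN02 x) (fun _ => gatN22 x) (fun h => absurd h (by decide)) hd hx hx' CN.A022E_002
  · exact absurd h2 (by norm_num)
  · exact absurd h2 (by norm_num)

theorem altN_A022E_01 {κ x : ℝ} (hκ : κ * h0 = ken x) (hx : ((201326592 : ℕ) : ℝ) / S ≤ x) (hx' : x ≤ (((201326592 : ℕ) : ℝ) + (134217728 : ℕ)) / S) :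
    AltA (VN 3 κ) PP tKN tL pcN [⟨0, 0, 0, 67108864⟩, ⟨1, 1, 0, 67108864⟩, ⟨2, 1, 0, 67108864⟩] 0 2 2 0 1 (sgb true) (sgb false) x := by
  have X : XR 67108864 x := XR.of hx hx' (by norm_num) (by norm_num) (by norm_num) (by norm_num)
  refine (cornS_of (C := cA022E) (C0 := c0N) (j := (0 : Fin 6)) (k := (1 : Fin 6)) (lo := 0) (hi := 2) (W := 67108864) (N0 := 3) cA022E_q (sideN hx hx') gokN X (by norm_num) (by norm_num) (l := (0 : Fin 6)) rfl
    (gatN00 x) (gatN12 x) (gatN02 x) ?_).altNA rfl hκ le_rfl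
  intro ρ a B hρ hd i h1 h2
  fin_cases i
  · exact corT_cert (G1 := gN0q0) (G2 := gN1q2) (Ga := gN0q2) (Gb := gN1q2) cA022E_ok B hρ (gatN00 x) (gatN12 x) (fun _ => gatN02 x) (fun _ => gatN12 x) hd hx hx' CN.A022E_010
  · exact corT_cert (G1 := gN0q0) (G2 := gN1q2) (Ga := gN1q2) (Gb := gN2q2) cA022E_ok B hρ (gatN00 x) (gatN12 x) (fun _ => gatN12 x) (fun _ => gatN22 x) hd hx hx' CN.A022E_011
  · exact corT_cert (G1 := gN0q0) (G2 := gN1q2) (Ga := gN2q2) (Gb := gN3q2) cA022E_ok B hρ (gatN00 x) (gatN12 x) (fun _ => gatN22 x) (fun h => absurd h (by decide)) hd hx hx' CN.A022E_012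
  · exact absurd h2 (by norm_num)
  · exact absurd h2 (by norm_num)

theorem altN_A022E_02 {κ x : ℝ} (hκ : κ * h0 = ken x) (hx : ((201326592 : ℕ) : ℝ) / S ≤ x) (hx' : x ≤ (((201326592 : ℕ) : ℝ) + (134217728 : ℕ)) / S) :
    AltA (VN 3 κ) PP tKN tL pcN [⟨0, 0, 0, 67108864⟩, ⟨1, 1, 0, 67108864⟩, ⟨2, 1, 0, 67108864⟩] 0 2 2 0 2 (sgb true) (sgb false) x := by
  have X : XR 67108864 x := XR.of hx hx' (by norm_num) (by norm_num) (by norm_num) (by norm_num)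
  refine (cornS_of (C := cA022E) (C0 := c0N) (j := (0 : Fin 6)) (k := (2 : Fin 6)) (lo := 0) (hi := 2) (W := 67108864) (N0 := 3) cA022E_q (sideN hx hx') gokN X (by norm_num) (by norm_num) (l := (0 : Fin 6)) rfl
    (gatN00 x) (gatN22 x) (gatN02 x) ?_).altNA rfl hκ le_rfl
  intro ρ a B hρ hd i h1 h2
  fin_cases i
  · exact corT_cert (G1 := gN0q0) (G2 := gN2q2) (Ga := gN0q2) (Gb := gN1q2) cA022E_ok B hρ (gatN00 x) (gatN22 x) (fun _ => gatN02 x) (fun _ => gatN12 x) hd hx hx' CN.A022E_020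
  · exact corT_cert (G1 := gN0q0) (G2 := gN2q2) (Ga := gN1q2) (Gb := gN2q2) cA022E_ok B hρ (gatN00 x) (gatN22 x) (fun _ => gatN12 x) (fun _ => gatN22 x) hd hx hx' CN.A022E_021
  · exact corT_cert (G1 := gN0q0) (G2 := gN2q2) (Ga := gN2q2) (Gb := gN3q2) cA022E_ok B hρ (gatN00 x) (gatN22 x) (fun _ => gatN22 x) (fun h => absurd h (by decide)) hd hx hx' CN.A022E_022
  · exact absurd h2 (by norm_num)
  · exact absurd h2 (by norm_num)

theorem altN_A022E_11 {κ x : ℝ} (hκ : κ * h0 = ken x) (hx : ((201326592 : ℕ) : ℝ) / S ≤ x) (hx' : x ≤ (((201326592 : ℕ) : ℝ) + (134217728 : ℕ)) / S) :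
    AltA (VN 3 κ) PP tKN tL pcN [⟨0, 0, 0, 67108864⟩, ⟨1, 1, 0, 67108864⟩, ⟨2, 1, 0, 67108864⟩] 0 2 2 1 1 (sgb true) (sgb false) x := by
  have X : XR 67108864 x := XR.of hx hx' (by norm_num) (by norm_num) (by norm_num) (by norm_num)
  refine (cornS_of (C := cA022E) (C0 := c0N) (j := (1 : Fin 6)) (k := (1 : Fin 6)) (lo := 0) (hi := 2) (W := 67108864) (N0 := 3) cA022E_q (sideN hx hx') gokN X (by norm_num) (by norm_num) (l := (0 : Fin 6)) rfl
    (gatN10 x) (gatN12 x) (gatN02 x) ?_).altNA rfl hκ le_rfl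
  intro ρ a B hρ hd i h1 h2
  fin_cases i
  · exact corT_cert (G1 := gN1q0) (G2 := gN1q2) (Ga := gN0q2) (Gb := gN1q2) cA022E_ok B hρ (gatN10 x) (gatN12 x) (fun _ => gatN02 x) (fun _ => gatN12 x) hd hx hx' CN.A022E_110
  · exact corT_cert (G1 := gN1q0) (G2 := gN1q2) (Ga := gN1q2) (Gb := gN2q2) cA022E_ok B hρ (gatN10 x) (gatN12 x) (fun _ => gatN12 x) (fun _ => gatN22 x) hd hx hx' CN.A022E_111
  · exact corT_cert (G1 := gN1q0) (G2 := gN1q2) (Ga := gN2q2) (Gb := gN3q2) cA022E_ok B hρ (gatN10 x) (gatN12 x) (fun _ => gatN22 x) (fun h => absurd h (by decide)) hd hx hx' CN.A022E_112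
  · exact absurd h2 (by norm_num)
  · exact absurd h2 (by norm_num)

theorem altN_A022E_12 {κ x : ℝ} (hκ : κ * h0 = ken x) (hx : ((201326592 : ℕ) : ℝ) / S ≤ x) (hx' : x ≤ (((201326592 : ℕ) : ℝ) + (134217728 : ℕ)) / S) :
    AltA (VN 3 κ) PP tKN tL pcN [⟨0, 0, 0, 67108864⟩, ⟨1, 1, 0, 67108864⟩, ⟨2, 1, 0, 67108864⟩] 0 2 2 1 2 (sgb true) (sgb false) x := by
  have X : XR 67108864 x := XR.of hx hx' (by norm_num) (by norm_num) (by norm_num) (by norm_num)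
  refine (cornS_of (C := cA022E) (C0 := c0N) (j := (1 : Fin 6)) (k := (2 : Fin 6)) (lo := 0) (hi := 2) (W := 67108864) (N0 := 3) cA022E_q (sideN hx hx') gokN X (by norm_num) (by norm_num) (l := (0 : Fin 6)) rfl
    (gatN10 x) (gatN22 x) (gatN02 x) ?_).altNA rfl hκ le_rfl
  intro ρ a B hρ hd i h1 h2
  fin_cases i
  · exact corT_cert (G1 := gN1q0) (G2 := gN2q2) (Ga := gN0q2) (Gb := gN1q2) cA022E_ok B hρ (gatN10 x) (gatN22 x) (fun _ => gatN02 x) (fun _ => gatN12 x) hd hx hx' CN.A022E_120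
  · exact corT_cert (G1 := gN1q0) (G2 := gN2q2) (Ga := gN1q2) (Gb := gN2q2) cA022E_ok B hρ (gatN10 x) (gatN22 x) (fun _ => gatN12 x) (fun _ => gatN22 x) hd hx hx' CN.A022E_121
  · exact corT_cert (G1 := gN1q0) (G2 := gN2q2) (Ga := gN2q2) (Gb := gN3q2) cA022E_ok B hρ (gatN10 x) (gatN22 x) (fun _ => gatN22 x) (fun h => absurd h (by decide)) hd hx hx' CN.A022E_122
  · exact absurd h2 (by norm_num)
  · exact absurd h2 (by norm_num)

theorem altN_A022E_22 {κ x : ℝ} (hκ : κ * h0 = ken x) (hx : ((201326592 : ℕ) : ℝ) / S ≤ x) (hx' : x ≤ (((201326592 : ℕ) : ℝ) + (134217728 : ℕ)) / S) :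
    AltA (VN 3 κ) PP tKN tL pcN [⟨0, 0, 0, 67108864⟩, ⟨1, 1, 0, 67108864⟩, ⟨2, 1, 0, 67108864⟩] 0 2 2 2 2 (sgb true) (sgb false) x := by
  have X : XR 67108864 x := XR.of hx hx' (by norm_num) (by norm_num) (by norm_num) (by norm_num)
  refine (cornS_of (C := cA022E) (C0 := c0N) (j := (2 : Fin 6)) (k := (2 : Fin 6)) (lo := 0) (hi := 2) (W := 67108864) (N0 := 3) cA022E_q (sideN hx hx') gokN X (by norm_num) (by norm_num) (l := (0 : Fin 6)) rfl
    (gatN20 x) (gatN22 x) (gatN02 x) ?_).altNA rfl hκ le_rfl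
  intro ρ a B hρ hd i h1 h2
  fin_cases i
  · exact corT_cert (G1 := gN2q0) (G2 := gN2q2) (Ga := gN0q2) (Gb := gN1q2) cA022E_ok B hρ (gatN20 x) (gatN22 x) (fun _ => gatN02 x) (fun _ => gatN12 x) hd hx hx' CN.A022E_220
  · exact corT_cert (G1 := gN2q0) (G2 := gN2q2) (Ga := gN1q2) (Gb := gN2q2) cA022E_ok B hρ (gatN20 x) (gatN22 x) (fun _ => gatN12 x) (fun _ => gatN22 x) hd hx hx' CN.A022E_221
  · exact corT_cert (G1 := gN2q0) (G2 := gN2q2) (Ga := gN2q2) (Gb := gN3q2) cA022E_ok B hρ (gatN20 x) (gatN22 x) (fun _ => gatN22 x) (fun h => absurd h (by decide)) hd hx hx' CN.A022E_222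
  · exact absurd h2 (by norm_num)
  · exact absurd h2 (by norm_num)

theorem altN_A022L_00 {κ x : ℝ} (hκ : κ * h0 = ken x) (hx : ((201326592 : ℕ) : ℝ) / S ≤ x) (hx' : x ≤ (((201326592 : ℕ) : ℝ) + (134217728 : ℕ)) / S) :
    AltA (VN 3 κ) PP tKN tL pcN [⟨0, 0, 0, 67108864⟩, ⟨1, 1, 0, 67108864⟩, ⟨2, 1, 0, 67108864⟩] 0 2 2 0 0 (sgb true) (sgb true) x := by
  have X : XR 67108864 x := XR.of hx hx' (by norm_num) (by norm_num) (by norm_num) (by norm_num)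
  refine (cornS_of (C := cA022L) (C0 := c0N) (j := (0 : Fin 6)) (k := (0 : Fin 6)) (lo := 5) (hi := 5) (W := 67108864) (N0 := 3) cA022L_q (sideN hx hx') gokN X (by norm_num) (by norm_num) (l := (5 : Fin 6)) rfl
    (gatN00 x) (gatN02 x) (gatN52 x) ?_).altNA rfl hκ le_rfl
  intro ρ a B hρ hd i h1 h2
  fin_cases i
  · exact absurd h1 (by norm_num)
  · exact absurd h1 (by norm_num)
  · exact absurd h1 (by norm_num)
  · exact absurd h1 (by norm_num)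
  · exact corT_cert (G1 := gN0q0) (G2 := gN0q2) (Ga := gN4q2) (Gb := gN5q2) cA022L_ok B hρ (gatN00 x) (gatN02 x) (fun h => absurd h (by decide)) (fun _ => gatN52 x) hd hx hx' CN.A022L_004

theorem altN_A022L_01 {κ x : ℝ} (hκ : κ * h0 = ken x) (hx : ((201326592 : ℕ) : ℝ) / S ≤ x) (hx' : x ≤ (((201326592 : ℕ) : ℝ) + (134217728 : ℕ)) / S) :
    AltA (VN 3 κ) PP tKN tL pcN [⟨0, 0, 0, 67108864⟩, ⟨1, 1, 0, 67108864⟩, ⟨2, 1, 0, 67108864⟩] 0 2 2 0 1 (sgb true) (sgb true) x := by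
  have X : XR 67108864 x := XR.of hx hx' (by norm_num) (by norm_num) (by norm_num) (by norm_num)
  refine (cornS_of (C := cA022L) (C0 := c0N) (j := (0 : Fin 6)) (k := (1 : Fin 6)) (lo := 5) (hi := 5) (W := 67108864) (N0 := 3) cA022L_q (sideN hx hx') gokN X (by norm_num) (by norm_num) (l := (5 : Fin 6)) rfl
    (gatN00 x) (gatN12 x) (gatN52 x) ?_).altNA rfl hκ le_rfl
  intro ρ a B hρ hd i h1 h2
  fin_cases i
  · exact absurd h1 (by norm_num)
  · exact absurd h1 (by norm_num)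
  · exact absurd h1 (by norm_num)
  · exact absurd h1 (by norm_num)
  · exact corT_cert (G1 := gN0q0) (G2 := gN1q2) (Ga := gN4q2) (Gb := gN5q2) cA022L_ok B hρ (gatN00 x) (gatN12 x) (fun h => absurd h (by decide)) (fun _ => gatN52 x) hd hx hx' CN.A022L_014

theorem altN_A022L_02 {κ x : ℝ} (hκ : κ * h0 = ken x) (hx : ((201326592 : ℕ) : ℝ) / S ≤ x) (hx' : x ≤ (((201326592 : ℕ) : ℝ) + (134217728 : ℕ)) / S) :
    AltA (VN 3 κ) PP tKN tL pcN [⟨0, 0, 0, 67108864⟩, ⟨1, 1, 0, 67108864⟩, ⟨2, 1, 0, 67108864⟩] 0 2 2 0 2 (sgb true) (sgb true) x := by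
  have X : XR 67108864 x := XR.of hx hx' (by norm_num) (by norm_num) (by norm_num) (by norm_num)
  refine (cornS_of (C := cA022L) (C0 := c0N) (j := (0 : Fin 6)) (k := (2 : Fin 6)) (lo := 5) (hi := 5) (W := 67108864) (N0 := 3) cA022L_q (sideN hx hx') gokN X (by norm_num) (by norm_num) (l := (5 : Fin 6)) rfl
    (gatN00 x) (gatN22 x) (gatN52 x) ?_).altNA rfl hκ le_rfl
  intro ρ a B hρ hd i h1 h2
  fin_cases i
  · exact absurd h1 (by norm_num)
  · exact absurd h1 (by norm_num)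
  · exact absurd h1 (by norm_num)
  · exact absurd h1 (by norm_num)
  · exact corT_cert (G1 := gN0q0) (G2 := gN2q2) (Ga := gN4q2) (Gb := gN5q2) cA022L_ok B hρ (gatN00 x) (gatN22 x) (fun h => absurd h (by decide)) (fun _ => gatN52 x) hd hx hx' CN.A022L_024

theorem altN_A022L_11 {κ x : ℝ} (hκ : κ * h0 = ken x) (hx : ((201326592 : ℕ) : ℝ) / S ≤ x) (hx' : x ≤ (((201326592 : ℕ) : ℝ) + (134217728 : ℕ)) / S) :
    AltA (VN 3 κ) PP tKN tL pcN [⟨0, 0, 0, 67108864⟩, ⟨1, 1, 0, 67108864⟩, ⟨2, 1, 0, 67108864⟩] 0 2 2 1 1 (sgb true) (sgb true) x := by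
  have X : XR 67108864 x := XR.of hx hx' (by norm_num) (by norm_num) (by norm_num) (by norm_num)
  refine (cornS_of (C := cA022L) (C0 := c0N) (j := (1 : Fin 6)) (k := (1 : Fin 6)) (lo := 5) (hi := 5) (W := 67108864) (N0 := 3) cA022L_q (sideN hx hx') gokN X (by norm_num) (by norm_num) (l := (5 : Fin 6)) rfl
    (gatN10 x) (gatN12 x) (gatN52 x) ?_).altNA rfl hκ le_rfl
  intro ρ a B hρ hd i h1 h2
  fin_cases i
  · exact absurd h1 (by norm_num)
  · exact absurd h1 (by norm_num)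
  · exact absurd h1 (by norm_num)
  · exact absurd h1 (by norm_num)
  · exact corT_cert (G1 := gN1q0) (G2 := gN1q2) (Ga := gN4q2) (Gb := gN5q2) cA022L_ok B hρ (gatN10 x) (gatN12 x) (fun h => absurd h (by decide)) (fun _ => gatN52 x) hd hx hx' CN.A022L_114

theorem altN_A022L_12 {κ x : ℝ} (hκ : κ * h0 = ken x) (hx : ((201326592 : ℕ) : ℝ) / S ≤ x) (hx' : x ≤ (((201326592 : ℕ) : ℝ) + (134217728 : ℕ)) / S) :
    AltA (VN 3 κ) PP tKN tL pcN [⟨0, 0, 0, 67108864⟩, ⟨1, 1, 0, 67108864⟩, ⟨2, 1, 0, 67108864⟩] 0 2 2 1 2 (sgb true) (sgb true) x := by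
  have X : XR 67108864 x := XR.of hx hx' (by norm_num) (by norm_num) (by norm_num) (by norm_num)
  refine (cornS_of (C := cA022L) (C0 := c0N) (j := (1 : Fin 6)) (k := (2 : Fin 6)) (lo := 5) (hi := 5) (W := 67108864) (N0 := 3) cA022L_q (sideN hx hx') gokN X (by norm_num) (by norm_num) (l := (5 : Fin 6)) rfl
    (gatN10 x) (gatN22 x) (gatN52 x) ?_).altNA rfl hκ le_rfl
  intro ρ a B hρ hd i h1 h2
  fin_cases i
  · exact absurd h1 (by norm_num)
  · exact absurd h1 (by norm_num)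
  · exact absurd h1 (by norm_num)
  · exact absurd h1 (by norm_num)
  · exact corT_cert (G1 := gN1q0) (G2 := gN2q2) (Ga := gN4q2) (Gb := gN5q2) cA022L_ok B hρ (gatN10 x) (gatN22 x) (fun h => absurd h (by decide)) (fun _ => gatN52 x) hd hx hx' CN.A022L_124

theorem altN_A022L_22 {κ x : ℝ} (hκ : κ * h0 = ken x) (hx : ((201326592 : ℕ) : ℝ) / S ≤ x) (hx' : x ≤ (((201326592 : ℕ) : ℝ) + (134217728 : ℕ)) / S) :
    AltA (VN 3 κ) PP tKN tL pcN [⟨0, 0, 0, 67108864⟩, ⟨1, 1, 0, 67108864⟩, ⟨2, 1, 0, 67108864⟩] 0 2 2 2 2 (sgb true) (sgb true) x := by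
  have X : XR 67108864 x := XR.of hx hx' (by norm_num) (by norm_num) (by norm_num) (by norm_num)
  refine (cornS_of (C := cA022L) (C0 := c0N) (j := (2 : Fin 6)) (k := (2 : Fin 6)) (lo := 5) (hi := 5) (W := 67108864) (N0 := 3) cA022L_q (sideN hx hx') gokN X (by norm_num) (by norm_num) (l := (5 : Fin 6)) rfl
    (gatN20 x) (gatN22 x) (gatN52 x) ?_).altNA rfl hκ le_rfl
  intro ρ a B hρ hd i h1 h2
  fin_cases i
  · exact absurd h1 (by norm_num)
  · exact absurd h1 (by norm_num)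
  · exact absurd h1 (by norm_num)
  · exact absurd h1 (by norm_num)
  · exact corT_cert (G1 := gN2q0) (G2 := gN2q2) (Ga := gN4q2) (Gb := gN5q2) cA022L_ok B hρ (gatN20 x) (gatN22 x) (fun h => absurd h (by decide)) (fun _ => gatN52 x) hd hx hx' CN.A022L_224

theorem altN_A022R_05 {κ x : ℝ} (hκ : κ * h0 = ken x) (hx : ((201326592 : ℕ) : ℝ) / S ≤ x) (hx' : x ≤ (((201326592 : ℕ) : ℝ) + (134217728 : ℕ)) / S) :
    AltA (VN 3 κ) PP tKN tL pcN [⟨0, 0, 0, 67108864⟩, ⟨1, 1, 0, 67108864⟩, ⟨2, 1, 0, 67108864⟩] 0 2 2 0 5 (sgb true) (sgb false) x := by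
  have X : XR 67108864 x := XR.of hx hx' (by norm_num) (by norm_num) (by norm_num) (by norm_num)
  refine (cornS_of (C := cA022R) (C0 := c0N) (j := (0 : Fin 6)) (k := (5 : Fin 6)) (lo := 0) (hi := 2) (W := 67108864) (N0 := 3) cA022R_q (sideN hx hx') gokN X (by norm_num) (by norm_num) (l := (0 : Fin 6)) rfl
    (gatN00 x) (gatN52 x) (gatN02 x) ?_).altNA rfl hκ le_rfl
  intro ρ a B hρ hd i h1 h2
  fin_cases i
  · exact corT_cert (G1 := gN0q0) (G2 := gN5q2) (Ga := gN0q2) (Gb := gN1q2) cA022R_ok B hρ (gatN00 x) (gatN52 x) (fun _ => gatN02 x) (fun _ => gatN12 x) hd hx hx' CN.A022R_050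
  · exact corT_cert (G1 := gN0q0) (G2 := gN5q2) (Ga := gN1q2) (Gb := gN2q2) cA022R_ok B hρ (gatN00 x) (gatN52 x) (fun _ => gatN12 x) (fun _ => gatN22 x) hd hx hx' CN.A022R_051
  · exact corT_cert (G1 := gN0q0) (G2 := gN5q2) (Ga := gN2q2) (Gb := gN3q2) cA022R_ok B hρ (gatN00 x) (gatN52 x) (fun _ => gatN22 x) (fun h => absurd h (by decide)) hd hx hx' CN.A022R_052
  · exact absurd h2 (by norm_num)
  · exact absurd h2 (by norm_num)

theorem altN_A022R_15 {κ x : ℝ} (hκ : κ * h0 = ken x) (hx : ((201326592 : ℕ) : ℝ) / S ≤ x) (hx' : x ≤ (((201326592 : ℕ) : ℝ) + (134217728 : ℕ)) / S) :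
    AltA (VN 3 κ) PP tKN tL pcN [⟨0, 0, 0, 67108864⟩, ⟨1, 1, 0, 67108864⟩, ⟨2, 1, 0, 67108864⟩] 0 2 2 1 5 (sgb true) (sgb false) x := by
  have X : XR 67108864 x := XR.of hx hx' (by norm_num) (by norm_num) (by norm_num) (by norm_num)
  refine (cornS_of (C := cA022R) (C0 := c0N) (j := (1 : Fin 6)) (k := (5 : Fin 6)) (lo := 0) (hi := 2) (W := 67108864) (N0 := 3) cA022R_q (sideN hx hx') gokN X (by norm_num) (by norm_num) (l := (0 : Fin 6)) rfl
    (gatN10 x) (gatN52 x) (gatN02 x) ?_).altNA rfl hκ le_rfl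
  intro ρ a B hρ hd i h1 h2
  fin_cases i
  · exact corT_cert (G1 := gN1q0) (G2 := gN5q2) (Ga := gN0q2) (Gb := gN1q2) cA022R_ok B hρ (gatN10 x) (gatN52 x) (fun _ => gatN02 x) (fun _ => gatN12 x) hd hx hx' CN.A022R_150
  · exact corT_cert (G1 := gN1q0) (G2 := gN5q2) (Ga := gN1q2) (Gb := gN2q2) cA022R_ok B hρ (gatN10 x) (gatN52 x) (fun _ => gatN12 x) (fun _ => gatN22 x) hd hx hx' CN.A022R_151
  · exact corT_cert (G1 := gN1q0) (G2 := gN5q2) (Ga := gN2q2) (Gb := gN3q2) cA022R_ok B hρ (gatN10 x) (gatN52 x) (fun _ => gatN22 x) (fun h => absurd h (by decide)) hd hx hx' CN.A022R_152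
  · exact absurd h2 (by norm_num)
  · exact absurd h2 (by norm_num)

theorem altN_A022R_25 {κ x : ℝ} (hκ : κ * h0 = ken x) (hx : ((201326592 : ℕ) : ℝ) / S ≤ x) (hx' : x ≤ (((201326592 : ℕ) : ℝ) + (134217728 : ℕ)) / S) :
    AltA (VN 3 κ) PP tKN tL pcN [⟨0, 0, 0, 67108864⟩, ⟨1, 1, 0, 67108864⟩, ⟨2, 1, 0, 67108864⟩] 0 2 2 2 5 (sgb true) (sgb false) x := by
  have X : XR 67108864 x := XR.of hx hx' (by norm_num) (by norm_num) (by norm_num) (by norm_num)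
  refine (cornS_of (C := cA022R) (C0 := c0N) (j := (2 : Fin 6)) (k := (5 : Fin 6)) (lo := 0) (hi := 2) (W := 67108864) (N0 := 3) cA022R_q (sideN hx hx') gokN X (by norm_num) (by norm_num) (l := (0 : Fin 6)) rfl
    (gatN20 x) (gatN52 x) (gatN02 x) ?_).altNA rfl hκ le_rfl
  intro ρ a B hρ hd i h1 h2
  fin_cases i
  · exact corT_cert (G1 := gN2q0) (G2 := gN5q2) (Ga := gN0q2) (Gb := gN1q2) cA022R_ok B hρ (gatN20 x) (gatN52 x) (fun _ => gatN02 x) (fun _ => gatN12 x) hd hx hx' CN.A022R_250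
  · exact corT_cert (G1 := gN2q0) (G2 := gN5q2) (Ga := gN1q2) (Gb := gN2q2) cA022R_ok B hρ (gatN20 x) (gatN52 x) (fun _ => gatN12 x) (fun _ => gatN22 x) hd hx hx' CN.A022R_251
  · exact corT_cert (G1 := gN2q0) (G2 := gN5q2) (Ga := gN2q2) (Gb := gN3q2) cA022R_ok B hρ (gatN20 x) (gatN52 x) (fun _ => gatN22 x) (fun h => absurd h (by decide)) hd hx hx' CN.A022R_252
  · exact absurd h2 (by norm_num)
  · exact absurd h2 (by norm_num)

theorem altN_A101E_00 {κ x : ℝ} (hκ : κ * h0 = ken x) (hx : ((201326592 : ℕ) : ℝ) / S ≤ x) (hx' : x ≤ (((201326592 : ℕ) : ℝ) + (134217728 : ℕ)) / S) :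
    AltA (VN 3 κ) PP tKN tL pcN [⟨0, 1, 0, 67108864⟩, ⟨1, 0, 0, 67108864⟩, ⟨2, 1, 0, 67108864⟩] 1 0 1 0 0 (sgb true) (sgb false) x := by
  have X : XR 67108864 x := XR.of hx hx' (by norm_num) (by norm_num) (by norm_num) (by norm_num)
  refine (cornS_of (C := cA101E) (C0 := c0N) (j := (0 : Fin 6)) (k := (0 : Fin 6)) (lo := 0) (hi := 0) (W := 67108864) (N0 := 3) cA101E_q (sideN hx hx') gokN X (by norm_num) (by norm_num) (l := (0 : Fin 6)) rfl
    (gatN01 x) (gatN00 x) (gatN01 x) ?_).altNA rfl hκ le_rfl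
  intro ρ a B hρ hd i h1 h2
  fin_cases i
  · exact corT_cert (G1 := gN0q1) (G2 := gN0q0) (Ga := gN0q1) (Gb := gN1q1) cA101E_ok B hρ (gatN01 x) (gatN00 x) (fun _ => gatN01 x) (fun h => absurd h (by decide)) hd hx hx' CN.A101E_000
  · exact absurd h2 (by norm_num)
  · exact absurd h2 (by norm_num)
  · exact absurd h2 (by norm_num)
  · exact absurd h2 (by norm_num)

theorem altN_A101E_01 {κ x : ℝ} (hκ : κ * h0 = ken x) (hx : ((201326592 : ℕ) : ℝ) / S ≤ x) (hx' : x ≤ (((201326592 : ℕ) : ℝ) + (134217728 : ℕ)) / S) :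
    AltA (VN 3 κ) PP tKN tL pcN [⟨0, 1, 0, 67108864⟩, ⟨1, 0, 0, 67108864⟩, ⟨2, 1, 0, 67108864⟩] 1 0 1 0 1 (sgb true) (sgb false) x := by
  have X : XR 67108864 x := XR.of hx hx' (by norm_num) (by norm_num) (by norm_num) (by norm_num)
  refine (cornS_of (C := cA101E) (C0 := c0N) (j := (0 : Fin 6)) (k := (1 : Fin 6)) (lo := 0) (hi := 0) (W := 67108864) (N0 := 3) cA101E_q (sideN hx hx') gokN X (by norm_num) (by norm_num) (l := (0 : Fin 6)) rfl
    (gatN01 x) (gatN10 x) (gatN01 x) ?_).altNA rfl hκ le_rfl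
  intro ρ a B hρ hd i h1 h2
  fin_cases i
  · exact corT_cert (G1 := gN0q1) (G2 := gN1q0) (Ga := gN0q1) (Gb := gN1q1) cA101E_ok B hρ (gatN01 x) (gatN10 x) (fun _ => gatN01 x) (fun h => absurd h (by decide)) hd hx hx' CN.A101E_010
  · exact absurd h2 (by norm_num)
  · exact absurd h2 (by norm_num)
  · exact absurd h2 (by norm_num)
  · exact absurd h2 (by norm_num)

theorem altN_A101E_02 {κ x : ℝ} (hκ : κ * h0 = ken x) (hx : ((201326592 : ℕ) : ℝ) / S ≤ x) (hx' : x ≤ (((201326592 : ℕ) : ℝ) + (134217728 : ℕ)) / S) :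
    AltA (VN 3 κ) PP tKN tL pcN [⟨0, 1, 0, 67108864⟩, ⟨1, 0, 0, 67108864⟩, ⟨2, 1, 0, 67108864⟩] 1 0 1 0 2 (sgb true) (sgb false) x := by
  have X : XR 67108864 x := XR.of hx hx' (by norm_num) (by norm_num) (by norm_num) (by norm_num)
  refine (cornS_of (C := cA101E) (C0 := c0N) (j := (0 : Fin 6)) (k := (2 : Fin 6)) (lo := 0) (hi := 0) (W := 67108864) (N0 := 3) cA101E_q (sideN hx hx') gokN X (by norm_num) (by norm_num) (l := (0 : Fin 6)) rfl
    (gatN01 x) (gatN20 x) (gatN01 x) ?_).altNA rfl hκ le_rfl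
  intro ρ a B hρ hd i h1 h2
  fin_cases i
  · exact corT_cert (G1 := gN0q1) (G2 := gN2q0) (Ga := gN0q1) (Gb := gN1q1) cA101E_ok B hρ (gatN01 x) (gatN20 x) (fun _ => gatN01 x) (fun h => absurd h (by decide)) hd hx hx' CN.A101E_020
  · exact absurd h2 (by norm_num)
  · exact absurd h2 (by norm_num)
  · exact absurd h2 (by norm_num)
  · exact absurd h2 (by norm_num)

theorem altN_A101R_00 {κ x : ℝ} (hκ : κ * h0 = ken x) (hx : ((201326592 : ℕ) : ℝ) / S ≤ x) (hx' : x ≤ (((201326592 : ℕ) : ℝ) + (134217728 : ℕ)) / S) :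
    AltA (VN 3 κ) PP tKN tL pcN [⟨0, 1, 0, 67108864⟩, ⟨1, 0, 0, 67108864⟩, ⟨2, 1, 0, 67108864⟩] 1 0 1 0 0 (sgb false) (sgb false) x := by
  have X : XR 67108864 x := XR.of hx hx' (by norm_num) (by norm_num) (by norm_num) (by norm_num)
  refine (cornS_of (C := cA101R) (C0 := c0N) (j := (0 : Fin 6)) (k := (0 : Fin 6)) (lo := 3) (hi := 5) (W := 67108864) (N0 := 3) cA101R_q (sideN hx hx') gokN X (by norm_num) (by norm_num) (l := (3 : Fin 6)) rfl
    (gatN01 x) (gatN00 x) (gatN31 x) ?_).altNA rfl hκ le_rfl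
  intro ρ a B hρ hd i h1 h2
  fin_cases i
  · exact absurd h1 (by norm_num)
  · exact absurd h1 (by norm_num)
  · exact corT_cert (G1 := gN0q1) (G2 := gN0q0) (Ga := gN2q1) (Gb := gN3q1) cA101R_ok B hρ (gatN01 x) (gatN00 x) (fun h => absurd h (by decide)) (fun _ => gatN31 x) hd hx hx' CN.A101R_002
  · exact corT_cert (G1 := gN0q1) (G2 := gN0q0) (Ga := gN3q1) (Gb := gN4q1) cA101R_ok B hρ (gatN01 x) (gatN00 x) (fun _ => gatN31 x) (fun _ => gatN41 x) hd hx hx' CN.A101R_003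
  · exact corT_cert (G1 := gN0q1) (G2 := gN0q0) (Ga := gN4q1) (Gb := gN5q1) cA101R_ok B hρ (gatN01 x) (gatN00 x) (fun _ => gatN41 x) (fun _ => gatN51 x) hd hx hx' CN.A101R_004

theorem altN_A101R_01 {κ x : ℝ} (hκ : κ * h0 = ken x) (hx : ((201326592 : ℕ) : ℝ) / S ≤ x) (hx' : x ≤ (((201326592 : ℕ) : ℝ) + (134217728 : ℕ)) / S) :
    AltA (VN 3 κ) PP tKN tL pcN [⟨0, 1, 0, 67108864⟩, ⟨1, 0, 0, 67108864⟩, ⟨2, 1, 0, 67108864⟩] 1 0 1 0 1 (sgb false) (sgb false) x := by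
  have X : XR 67108864 x := XR.of hx hx' (by norm_num) (by norm_num) (by norm_num) (by norm_num)
  refine (cornS_of (C := cA101R) (C0 := c0N) (j := (0 : Fin 6)) (k := (1 : Fin 6)) (lo := 3) (hi := 5) (W := 67108864) (N0 := 3) cA101R_q (sideN hx hx') gokN X (by norm_num) (by norm_num) (l := (3 : Fin 6)) rfl
    (gatN01 x) (gatN10 x) (gatN31 x) ?_).altNA rfl hκ le_rfl
  intro ρ a B hρ hd i h1 h2
  fin_cases i
  · exact absurd h1 (by norm_num)
  · exact absurd h1 (by norm_num)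
  · exact corT_cert (G1 := gN0q1) (G2 := gN1q0) (Ga := gN2q1) (Gb := gN3q1) cA101R_ok B hρ (gatN01 x) (gatN10 x) (fun h => absurd h (by decide)) (fun _ => gatN31 x) hd hx hx' CN.A101R_012
  · exact corT_cert (G1 := gN0q1) (G2 := gN1q0) (Ga := gN3q1) (Gb := gN4q1) cA101R_ok B hρ (gatN01 x) (gatN10 x) (fun _ => gatN31 x) (fun _ => gatN41 x) hd hx hx' CN.A101R_013
  · exact corT_cert (G1 := gN0q1) (G2 := gN1q0) (Ga := gN4q1) (Gb := gN5q1) cA101R_ok B hρ (gatN01 x) (gatN10 x) (fun _ => gatN41 x) (fun _ => gatN51 x) hd hx hx' CN.A101R_014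

theorem altN_A101R_02 {κ x : ℝ} (hκ : κ * h0 = ken x) (hx : ((201326592 : ℕ) : ℝ) / S ≤ x) (hx' : x ≤ (((201326592 : ℕ) : ℝ) + (134217728 : ℕ)) / S) :
    AltA (VN 3 κ) PP tKN tL pcN [⟨0, 1, 0, 67108864⟩, ⟨1, 0, 0, 67108864⟩, ⟨2, 1, 0, 67108864⟩] 1 0 1 0 2 (sgb false) (sgb false) x := by
  have X : XR 67108864 x := XR.of hx hx' (by norm_num) (by norm_num) (by norm_num) (by norm_num)
  refine (cornS_of (C := cA101R) (C0 := c0N) (j := (0 : Fin 6)) (k := (2 : Fin 6)) (lo := 3) (hi := 5) (W := 67108864) (N0 := 3) cA101R_q (sideN hx hx') gokN X (by norm_num) (by norm_num) (l := (3 : Fin 6)) rfl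
    (gatN01 x) (gatN20 x) (gatN31 x) ?_).altNA rfl hκ le_rfl
  intro ρ a B hρ hd i h1 h2
  fin_cases i
  · exact absurd h1 (by norm_num)
  · exact absurd h1 (by norm_num)
  · exact corT_cert (G1 := gN0q1) (G2 := gN2q0) (Ga := gN2q1) (Gb := gN3q1) cA101R_ok B hρ (gatN01 x) (gatN20 x) (fun h => absurd h (by decide)) (fun _ => gatN31 x) hd hx hx' CN.A101R_022
  · exact corT_cert (G1 := gN0q1) (G2 := gN2q0) (Ga := gN3q1) (Gb := gN4q1) cA101R_ok B hρ (gatN01 x) (gatN20 x) (fun _ => gatN31 x) (fun _ => gatN41 x) hd hx hx' CN.A101R_023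
  · exact corT_cert (G1 := gN0q1) (G2 := gN2q0) (Ga := gN4q1) (Gb := gN5q1) cA101R_ok B hρ (gatN01 x) (gatN20 x) (fun _ => gatN41 x) (fun _ => gatN51 x) hd hx hx' CN.A101R_024

theorem altN_A102E_00 {κ x : ℝ} (hκ : κ * h0 = ken x) (hx : ((201326592 : ℕ) : ℝ) / S ≤ x) (hx' : x ≤ (((201326592 : ℕ) : ℝ) + (134217728 : ℕ)) / S) :
    AltA (VN 3 κ) PP tKN tL pcN [⟨0, 1, 0, 67108864⟩, ⟨1, 0, 0, 67108864⟩, ⟨2, 1, 0, 67108864⟩] 1 0 2 0 0 (sgb true) (sgb false) x := by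
  have X : XR 67108864 x := XR.of hx hx' (by norm_num) (by norm_num) (by norm_num) (by norm_num)
  refine (cornS_of (C := cA102E) (C0 := c0N) (j := (0 : Fin 6)) (k := (0 : Fin 6)) (lo := 0) (hi := 2) (W := 67108864) (N0 := 3) cA102E_q (sideN hx hx') gokN X (by norm_num) (by norm_num) (l := (0 : Fin 6)) rfl
    (gatN01 x) (gatN00 x) (gatN02 x) ?_).altNA rfl hκ le_rfl
  intro ρ a B hρ hd i h1 h2
  fin_cases i
  · exact corT_cert (G1 := gN0q1) (G2 := gN0q0) (Ga := gN0q2) (Gb := gN1q2) cA102E_ok B hρ (gatN01 x) (gatN00 x) (fun _ => gatN02 x) (fun _ => gatN12 x) hd hx hx' CN.A102E_000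
  · exact corT_cert (G1 := gN0q1) (G2 := gN0q0) (Ga := gN1q2) (Gb := gN2q2) cA102E_ok B hρ (gatN01 x) (gatN00 x) (fun _ => gatN12 x) (fun _ => gatN22 x) hd hx hx' CN.A102E_001
  · exact corT_cert (G1 := gN0q1) (G2 := gN0q0) (Ga := gN2q2) (Gb := gN3q2) cA102E_ok B hρ (gatN01 x) (gatN00 x) (fun _ => gatN22 x) (fun h => absurd h (by decide)) hd hx hx' CN.A102E_002
  · exact absurd h2 (by norm_num)
  · exact absurd h2 (by norm_num)

theorem altN_A102E_01 {κ x : ℝ} (hκ : κ * h0 = ken x) (hx : ((201326592 : ℕ) : ℝ) / S ≤ x) (hx' : x ≤ (((201326592 : ℕ) : ℝ) + (134217728 : ℕ)) / S) :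
    AltA (VN 3 κ) PP tKN tL pcN [⟨0, 1, 0, 67108864⟩, ⟨1, 0, 0, 67108864⟩, ⟨2, 1, 0, 67108864⟩] 1 0 2 0 1 (sgb true) (sgb false) x := by
  have X : XR 67108864 x := XR.of hx hx' (by norm_num) (by norm_num) (by norm_num) (by norm_num)
  refine (cornS_of (C := cA102E) (C0 := c0N) (j := (0 : Fin 6)) (k := (1 : Fin 6)) (lo := 0) (hi := 2) (W := 67108864) (N0 := 3) cA102E_q (sideN hx hx') gokN X (by norm_num) (by norm_num) (l := (0 : Fin 6)) rfl
    (gatN01 x) (gatN10 x) (gatN02 x) ?_).altNA rfl hκ le_rfl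
  intro ρ a B hρ hd i h1 h2
  fin_cases i
  · exact corT_cert (G1 := gN0q1) (G2 := gN1q0) (Ga := gN0q2) (Gb := gN1q2) cA102E_ok B hρ (gatN01 x) (gatN10 x) (fun _ => gatN02 x) (fun _ => gatN12 x) hd hx hx' CN.A102E_010
  · exact corT_cert (G1 := gN0q1) (G2 := gN1q0) (Ga := gN1q2) (Gb := gN2q2) cA102E_ok B hρ (gatN01 x) (gatN10 x) (fun _ => gatN12 x) (fun _ => gatN22 x) hd hx hx' CN.A102E_011
  · exact corT_cert (G1 := gN0q1) (G2 := gN1q0) (Ga := gN2q2) (Gb := gN3q2) cA102E_ok B hρ (gatN01 x) (gatN10 x) (fun _ => gatN22 x) (fun h => absurd h (by decide)) hd hx hx' CN.A102E_012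
  · exact absurd h2 (by norm_num)
  · exact absurd h2 (by norm_num)

theorem altN_A102E_02 {κ x : ℝ} (hκ : κ * h0 = ken x) (hx : ((201326592 : ℕ) : ℝ) / S ≤ x) (hx' : x ≤ (((201326592 : ℕ) : ℝ) + (134217728 : ℕ)) / S) :
    AltA (VN 3 κ) PP tKN tL pcN [⟨0, 1, 0, 67108864⟩, ⟨1, 0, 0, 67108864⟩, ⟨2, 1, 0, 67108864⟩] 1 0 2 0 2 (sgb true) (sgb false) x := by
  have X : XR 67108864 x := XR.of hx hx' (by norm_num) (by norm_num) (by norm_num) (by norm_num)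
  refine (cornS_of (C := cA102E) (C0 := c0N) (j := (0 : Fin 6)) (k := (2 : Fin 6)) (lo := 0) (hi := 2) (W := 67108864) (N0 := 3) cA102E_q (sideN hx hx') gokN X (by norm_num) (by norm_num) (l := (0 : Fin 6)) rfl
    (gatN01 x) (gatN20 x) (gatN02 x) ?_).altNA rfl hκ le_rfl
  intro ρ a B hρ hd i h1 h2
  fin_cases i
  · exact corT_cert (G1 := gN0q1) (G2 := gN2q0) (Ga := gN0q2) (Gb := gN1q2) cA102E_ok B hρ (gatN01 x) (gatN20 x) (fun _ => gatN02 x) (fun _ => gatN12 x) hd hx hx' CN.A102E_020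
  · exact corT_cert (G1 := gN0q1) (G2 := gN2q0) (Ga := gN1q2) (Gb := gN2q2) cA102E_ok B hρ (gatN01 x) (gatN20 x) (fun _ => gatN12 x) (fun _ => gatN22 x) hd hx hx' CN.A102E_021
  · exact corT_cert (G1 := gN0q1) (G2 := gN2q0) (Ga := gN2q2) (Gb := gN3q2) cA102E_ok B hρ (gatN01 x) (gatN20 x) (fun _ => gatN22 x) (fun h => absurd h (by decide)) hd hx hx' CN.A102E_022
  · exact absurd h2 (by norm_num)
  · exact absurd h2 (by norm_num)

theorem altN_A102R_00 {κ x : ℝ} (hκ : κ * h0 = ken x) (hx : ((201326592 : ℕ) : ℝ) / S ≤ x) (hx' : x ≤ (((201326592 : ℕ) : ℝ) + (134217728 : ℕ)) / S) :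
    AltA (VN 3 κ) PP tKN tL pcN [⟨0, 1, 0, 67108864⟩, ⟨1, 0, 0, 67108864⟩, ⟨2, 1, 0, 67108864⟩] 1 0 2 0 0 (sgb false) (sgb false) x := by
  have X : XR 67108864 x := XR.of hx hx' (by norm_num) (by norm_num) (by norm_num) (by norm_num)
  refine (cornS_of (C := cA102R) (C0 := c0N) (j := (0 : Fin 6)) (k := (0 : Fin 6)) (lo := 5) (hi := 5) (W := 67108864) (N0 := 3) cA102R_q (sideN hx hx') gokN X (by norm_num) (by norm_num) (l := (5 : Fin 6)) rfl
    (gatN01 x) (gatN00 x) (gatN52 x) ?_).altNA rfl hκ le_rfl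
  intro ρ a B hρ hd i h1 h2
  fin_cases i
  · exact absurd h1 (by norm_num)
  · exact absurd h1 (by norm_num)
  · exact absurd h1 (by norm_num)
  · exact absurd h1 (by norm_num)
  · exact corT_cert (G1 := gN0q1) (G2 := gN0q0) (Ga := gN4q2) (Gb := gN5q2) cA102R_ok B hρ (gatN01 x) (gatN00 x) (fun h => absurd h (by decide)) (fun _ => gatN52 x) hd hx hx' CN.A102R_004

theorem altN_A102R_01 {κ x : ℝ} (hκ : κ * h0 = ken x) (hx : ((201326592 : ℕ) : ℝ) / S ≤ x) (hx' : x ≤ (((201326592 : ℕ) : ℝ) + (134217728 : ℕ)) / S) :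
    AltA (VN 3 κ) PP tKN tL pcN [⟨0, 1, 0, 67108864⟩, ⟨1, 0, 0, 67108864⟩, ⟨2, 1, 0, 67108864⟩] 1 0 2 0 1 (sgb false) (sgb false) x := by
  have X : XR 67108864 x := XR.of hx hx' (by norm_num) (by norm_num) (by norm_num) (by norm_num)
  refine (cornS_of (C := cA102R) (C0 := c0N) (j := (0 : Fin 6)) (k := (1 : Fin 6)) (lo := 5) (hi := 5) (W := 67108864) (N0 := 3) cA102R_q (sideN hx hx') gokN X (by norm_num) (by norm_num) (l := (5 : Fin 6)) rfl
    (gatN01 x) (gatN10 x) (gatN52 x) ?_).altNA rfl hκ le_rfl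
  intro ρ a B hρ hd i h1 h2
  fin_cases i
  · exact absurd h1 (by norm_num)
  · exact absurd h1 (by norm_num)
  · exact absurd h1 (by norm_num)
  · exact absurd h1 (by norm_num)
  · exact corT_cert (G1 := gN0q1) (G2 := gN1q0) (Ga := gN4q2) (Gb := gN5q2) cA102R_ok B hρ (gatN01 x) (gatN10 x) (fun h => absurd h (by decide)) (fun _ => gatN52 x) hd hx hx' CN.A102R_014

theorem altN_A102R_02 {κ x : ℝ} (hκ : κ * h0 = ken x) (hx : ((201326592 : ℕ) : ℝ) / S ≤ x) (hx' : x ≤ (((201326592 : ℕ) : ℝ) + (134217728 : ℕ)) / S) :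
    AltA (VN 3 κ) PP tKN tL pcN [⟨0, 1, 0, 67108864⟩, ⟨1, 0, 0, 67108864⟩, ⟨2, 1, 0, 67108864⟩] 1 0 2 0 2 (sgb false) (sgb false) x := by
  have X : XR 67108864 x := XR.of hx hx' (by norm_num) (by norm_num) (by norm_num) (by norm_num)
  refine (cornS_of (C := cA102R) (C0 := c0N) (j := (0 : Fin 6)) (k := (2 : Fin 6)) (lo := 5) (hi := 5) (W := 67108864) (N0 := 3) cA102R_q (sideN hx hx') gokN X (by norm_num) (by norm_num) (l := (5 : Fin 6)) rfl
    (gatN01 x) (gatN20 x) (gatN52 x) ?_).altNA rfl hκ le_rfl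
  intro ρ a B hρ hd i h1 h2
  fin_cases i
  · exact absurd h1 (by norm_num)
  · exact absurd h1 (by norm_num)
  · exact absurd h1 (by norm_num)
  · exact absurd h1 (by norm_num)
  · exact corT_cert (G1 := gN0q1) (G2 := gN2q0) (Ga := gN4q2) (Gb := gN5q2) cA102R_ok B hρ (gatN01 x) (gatN20 x) (fun h => absurd h (by decide)) (fun _ => gatN52 x) hd hx hx' CN.A102R_024

theorem altN_A202E_00 {κ x : ℝ} (hκ : κ * h0 = ken x) (hx : ((201326592 : ℕ) : ℝ) / S ≤ x) (hx' : x ≤ (((201326592 : ℕ) : ℝ) + (134217728 : ℕ)) / S) :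
    AltA (VN 3 κ) PP tKN tL pcN [⟨0, 1, 0, 67108864⟩, ⟨1, 0, 0, 67108864⟩, ⟨2, 1, 0, 67108864⟩] 2 0 2 0 0 (sgb true) (sgb false) x := by
  have X : XR 67108864 x := XR.of hx hx' (by norm_num) (by norm_num) (by norm_num) (by norm_num)
  refine (cornS_of (C := cA202E) (C0 := c0N) (j := (0 : Fin 6)) (k := (0 : Fin 6)) (lo := 0) (hi := 2) (W := 67108864) (N0 := 3) cA202E_q (sideN hx hx') gokN X (by norm_num) (by norm_num) (l := (0 : Fin 6)) rfl
    (gatN02 x) (gatN00 x) (gatN02 x) ?_).altNA rfl hκ le_rfl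
  intro ρ a B hρ hd i h1 h2
  fin_cases i
  · exact corT_cert (G1 := gN0q2) (G2 := gN0q0) (Ga := gN0q2) (Gb := gN1q2) cA202E_ok B hρ (gatN02 x) (gatN00 x) (fun _ => gatN02 x) (fun _ => gatN12 x) hd hx hx' CN.A202E_000
  · exact corT_cert (G1 := gN0q2) (G2 := gN0q0) (Ga := gN1q2) (Gb := gN2q2) cA202E_ok B hρ (gatN02 x) (gatN00 x) (fun _ => gatN12 x) (fun _ => gatN22 x) hd hx hx' CN.A202E_001
  · exact corT_cert (G1 := gN0q2) (G2 := gN0q0) (Ga := gN2q2) (Gb := gN3q2) cA202E_ok B hρ (gatN02 x) (gatN00 x) (fun _ => gatN22 x) (fun h => absurd h (by decide)) hd hx hx' CN.A202E_002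
  · exact absurd h2 (by norm_num)
  · exact absurd h2 (by norm_num)

theorem altN_A202E_01 {κ x : ℝ} (hκ : κ * h0 = ken x) (hx : ((201326592 : ℕ) : ℝ) / S ≤ x) (hx' : x ≤ (((201326592 : ℕ) : ℝ) + (134217728 : ℕ)) / S) :
    AltA (VN 3 κ) PP tKN tL pcN [⟨0, 1, 0, 67108864⟩, ⟨1, 0, 0, 67108864⟩, ⟨2, 1, 0, 67108864⟩] 2 0 2 0 1 (sgb true) (sgb false) x := by
  have X : XR 67108864 x := XR.of hx hx' (by norm_num) (by norm_num) (by norm_num) (by norm_num)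
  refine (cornS_of (C := cA202E) (C0 := c0N) (j := (0 : Fin 6)) (k := (1 : Fin 6)) (lo := 0) (hi := 2) (W := 67108864) (N0 := 3) cA202E_q (sideN hx hx') gokN X (by norm_num) (by norm_num) (l := (0 : Fin 6)) rfl
    (gatN02 x) (gatN10 x) (gatN02 x) ?_).altNA rfl hκ le_rfl
  intro ρ a B hρ hd i h1 h2
  fin_cases i
  · exact corT_cert (G1 := gN0q2) (G2 := gN1q0) (Ga := gN0q2) (Gb := gN1q2) cA202E_ok B hρ (gatN02 x) (gatN10 x) (fun _ => gatN02 x) (fun _ => gatN12 x) hd hx hx' CN.A202E_010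
  · exact corT_cert (G1 := gN0q2) (G2 := gN1q0) (Ga := gN1q2) (Gb := gN2q2) cA202E_ok B hρ (gatN02 x) (gatN10 x) (fun _ => gatN12 x) (fun _ => gatN22 x) hd hx hx' CN.A202E_011
  · exact corT_cert (G1 := gN0q2) (G2 := gN1q0) (Ga := gN2q2) (Gb := gN3q2) cA202E_ok B hρ (gatN02 x) (gatN10 x) (fun _ => gatN22 x) (fun h => absurd h (by decide)) hd hx hx' CN.A202E_012
  · exact absurd h2 (by norm_num)
  · exact absurd h2 (by norm_num)

theorem altN_A202E_02 {κ x : ℝ} (hκ : κ * h0 = ken x) (hx : ((201326592 : ℕ) : ℝ) / S ≤ x) (hx' : x ≤ (((201326592 : ℕ) : ℝ) + (134217728 : ℕ)) / S) :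
    AltA (VN 3 κ) PP tKN tL pcN [⟨0, 1, 0, 67108864⟩, ⟨1, 0, 0, 67108864⟩, ⟨2, 1, 0, 67108864⟩] 2 0 2 0 2 (sgb true) (sgb false) x := by
  have X : XR 67108864 x := XR.of hx hx' (by norm_num) (by norm_num) (by norm_num) (by norm_num)
  refine (cornS_of (C := cA202E) (C0 := c0N) (j := (0 : Fin 6)) (k := (2 : Fin 6)) (lo := 0) (hi := 2) (W := 67108864) (N0 := 3) cA202E_q (sideN hx hx') gokN X (by norm_num) (by norm_num) (l := (0 : Fin 6)) rfl
    (gatN02 x) (gatN20 x) (gatN02 x) ?_).altNA rfl hκ le_rfl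
  intro ρ a B hρ hd i h1 h2
  fin_cases i
  · exact corT_cert (G1 := gN0q2) (G2 := gN2q0) (Ga := gN0q2) (Gb := gN1q2) cA202E_ok B hρ (gatN02 x) (gatN20 x) (fun _ => gatN02 x) (fun _ => gatN12 x) hd hx hx' CN.A202E_020
  · exact corT_cert (G1 := gN0q2) (G2 := gN2q0) (Ga := gN1q2) (Gb := gN2q2) cA202E_ok B hρ (gatN02 x) (gatN20 x) (fun _ => gatN12 x) (fun _ => gatN22 x) hd hx hx' CN.A202E_021
  · exact corT_cert (G1 := gN0q2) (G2 := gN2q0) (Ga := gN2q2) (Gb := gN3q2) cA202E_ok B hρ (gatN02 x) (gatN20 x) (fun _ => gatN22 x) (fun h => absurd h (by decide)) hd hx hx' CN.A202E_022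
  · exact absurd h2 (by norm_num)
  · exact absurd h2 (by norm_num)

theorem altN_A202E_11 {κ x : ℝ} (hκ : κ * h0 = ken x) (hx : ((201326592 : ℕ) : ℝ) / S ≤ x) (hx' : x ≤ (((201326592 : ℕ) : ℝ) + (134217728 : ℕ)) / S) :
    AltA (VN 3 κ) PP tKN tL pcN [⟨0, 1, 0, 67108864⟩, ⟨1, 0, 0, 67108864⟩, ⟨2, 1, 0, 67108864⟩] 2 0 2 1 1 (sgb true) (sgb false) x := by
  have X : XR 67108864 x := XR.of hx hx' (by norm_num) (by norm_num) (by norm_num) (by norm_num)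
  refine (cornS_of (C := cA202E) (C0 := c0N) (j := (1 : Fin 6)) (k := (1 : Fin 6)) (lo := 0) (hi := 2) (W := 67108864) (N0 := 3) cA202E_q (sideN hx hx') gokN X (by norm_num) (by norm_num) (l := (0 : Fin 6)) rfl
    (gatN12 x) (gatN10 x) (gatN02 x) ?_).altNA rfl hκ le_rfl
  intro ρ a B hρ hd i h1 h2
  fin_cases i
  · exact corT_cert (G1 := gN1q2) (G2 := gN1q0) (Ga := gN0q2) (Gb := gN1q2) cA202E_ok B hρ (gatN12 x) (gatN10 x) (fun _ => gatN02 x) (fun _ => gatN12 x) hd hx hx' CN.A202E_110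
  · exact corT_cert (G1 := gN1q2) (G2 := gN1q0) (Ga := gN1q2) (Gb := gN2q2) cA202E_ok B hρ (gatN12 x) (gatN10 x) (fun _ => gatN12 x) (fun _ => gatN22 x) hd hx hx' CN.A202E_111
  · exact corT_cert (G1 := gN1q2) (G2 := gN1q0) (Ga := gN2q2) (Gb := gN3q2) cA202E_ok B hρ (gatN12 x) (gatN10 x) (fun _ => gatN22 x) (fun h => absurd h (by decide)) hd hx hx' CN.A202E_112
  · exact absurd h2 (by norm_num)
  · exact absurd h2 (by norm_num)

theorem altN_A202E_12 {κ x : ℝ} (hκ : κ * h0 = ken x) (hx : ((201326592 : ℕ) : ℝ) / S ≤ x) (hx' : x ≤ (((201326592 : ℕ) : ℝ) + (134217728 : ℕ)) / S) :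
    AltA (VN 3 κ) PP tKN tL pcN [⟨0, 1, 0, 67108864⟩, ⟨1, 0, 0, 67108864⟩, ⟨2, 1, 0, 67108864⟩] 2 0 2 1 2 (sgb true) (sgb false) x := by
  have X : XR 67108864 x := XR.of hx hx' (by norm_num) (by norm_num) (by norm_num) (by norm_num)
  refine (cornS_of (C := cA202E) (C0 := c0N) (j := (1 : Fin 6)) (k := (2 : Fin 6)) (lo := 0) (hi := 2) (W := 67108864) (N0 := 3) cA202E_q (sideN hx hx') gokN X (by norm_num) (by norm_num) (l := (0 : Fin 6)) rfl
    (gatN12 x) (gatN20 x) (gatN02 x) ?_).altNA rfl hκ le_rfl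
  intro ρ a B hρ hd i h1 h2
  fin_cases i
  · exact corT_cert (G1 := gN1q2) (G2 := gN2q0) (Ga := gN0q2) (Gb := gN1q2) cA202E_ok B hρ (gatN12 x) (gatN20 x) (fun _ => gatN02 x) (fun _ => gatN12 x) hd hx hx' CN.A202E_120
  · exact corT_cert (G1 := gN1q2) (G2 := gN2q0) (Ga := gN1q2) (Gb := gN2q2) cA202E_ok B hρ (gatN12 x) (gatN20 x) (fun _ => gatN12 x) (fun _ => gatN22 x) hd hx hx' CN.A202E_121
  · exact corT_cert (G1 := gN1q2) (G2 := gN2q0) (Ga := gN2q2) (Gb := gN3q2) cA202E_ok B hρ (gatN12 x) (gatN20 x) (fun _ => gatN22 x) (fun h => absurd h (by decide)) hd hx hx' CN.A202E_122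
  · exact absurd h2 (by norm_num)
  · exact absurd h2 (by norm_num)

theorem altN_A202E_22 {κ x : ℝ} (hκ : κ * h0 = ken x) (hx : ((201326592 : ℕ) : ℝ) / S ≤ x) (hx' : x ≤ (((201326592 : ℕ) : ℝ) + (134217728 : ℕ)) / S) :
    AltA (VN 3 κ) PP tKN tL pcN [⟨0, 1, 0, 67108864⟩, ⟨1, 0, 0, 67108864⟩, ⟨2, 1, 0, 67108864⟩] 2 0 2 2 2 (sgb true) (sgb false) x := by
  have X : XR 67108864 x := XR.of hx hx' (by norm_num) (by norm_num) (by norm_num) (by norm_num)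
  refine (cornS_of (C := cA202E) (C0 := c0N) (j := (2 : Fin 6)) (k := (2 : Fin 6)) (lo := 0) (hi := 2) (W := 67108864) (N0 := 3) cA202E_q (sideN hx hx') gokN X (by norm_num) (by norm_num) (l := (0 : Fin 6)) rfl
    (gatN22 x) (gatN20 x) (gatN02 x) ?_).altNA rfl hκ le_rfl
  intro ρ a B hρ hd i h1 h2
  fin_cases i
  · exact corT_cert (G1 := gN2q2) (G2 := gN2q0) (Ga := gN0q2) (Gb := gN1q2) cA202E_ok B hρ (gatN22 x) (gatN20 x) (fun _ => gatN02 x) (fun _ => gatN12 x) hd hx hx' CN.A202E_220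
  · exact corT_cert (G1 := gN2q2) (G2 := gN2q0) (Ga := gN1q2) (Gb := gN2q2) cA202E_ok B hρ (gatN22 x) (gatN20 x) (fun _ => gatN12 x) (fun _ => gatN22 x) hd hx hx' CN.A202E_221
  · exact corT_cert (G1 := gN2q2) (G2 := gN2q0) (Ga := gN2q2) (Gb := gN3q2) cA202E_ok B hρ (gatN22 x) (gatN20 x) (fun _ => gatN22 x) (fun h => absurd h (by decide)) hd hx hx' CN.A202E_222
  · exact absurd h2 (by norm_num)
  · exact absurd h2 (by norm_num)

theorem altN_A202R_00 {κ x : ℝ} (hκ : κ * h0 = ken x) (hx : ((201326592 : ℕ) : ℝ) / S ≤ x) (hx' : x ≤ (((201326592 : ℕ) : ℝ) + (134217728 : ℕ)) / S) :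
    AltA (VN 3 κ) PP tKN tL pcN [⟨0, 1, 0, 67108864⟩, ⟨1, 0, 0, 67108864⟩, ⟨2, 1, 0, 67108864⟩] 2 0 2 0 0 (sgb false) (sgb false) x := by
  have X : XR 67108864 x := XR.of hx hx' (by norm_num) (by norm_num) (by norm_num) (by norm_num)
  refine (cornS_of (C := cA202R) (C0 := c0N) (j := (0 : Fin 6)) (k := (0 : Fin 6)) (lo := 5) (hi := 5) (W := 67108864) (N0 := 3) cA202R_q (sideN hx hx') gokN X (by norm_num) (by norm_num) (l := (5 : Fin 6)) rfl
    (gatN02 x) (gatN00 x) (gatN52 x) ?_).altNA rfl hκ le_rfl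
  intro ρ a B hρ hd i h1 h2
  fin_cases i
  · exact absurd h1 (by norm_num)
  · exact absurd h1 (by norm_num)
  · exact absurd h1 (by norm_num)
  · exact absurd h1 (by norm_num)
  · exact corT_cert (G1 := gN0q2) (G2 := gN0q0) (Ga := gN4q2) (Gb := gN5q2) cA202R_ok B hρ (gatN02 x) (gatN00 x) (fun h => absurd h (by decide)) (fun _ => gatN52 x) hd hx hx' CN.A202R_004

theorem altN_A202R_01 {κ x : ℝ} (hκ : κ * h0 = ken x) (hx : ((201326592 : ℕ) : ℝ) / S ≤ x) (hx' : x ≤ (((201326592 : ℕ) : ℝ) + (134217728 : ℕ)) / S) :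
    AltA (VN 3 κ) PP tKN tL pcN [⟨0, 1, 0, 67108864⟩, ⟨1, 0, 0, 67108864⟩, ⟨2, 1, 0, 67108864⟩] 2 0 2 0 1 (sgb false) (sgb false) x := by
  have X : XR 67108864 x := XR.of hx hx' (by norm_num) (by norm_num) (by norm_num) (by norm_num)
  refine (cornS_of (C := cA202R) (C0 := c0N) (j := (0 : Fin 6)) (k := (1 : Fin 6)) (lo := 5) (hi := 5) (W := 67108864) (N0 := 3) cA202R_q (sideN hx hx') gokN X (by norm_num) (by norm_num) (l := (5 : Fin 6)) rfl
    (gatN02 x) (gatN10 x) (gatN52 x) ?_).altNA rfl hκ le_rfl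
  intro ρ a B hρ hd i h1 h2
  fin_cases i
  · exact absurd h1 (by norm_num)
  · exact absurd h1 (by norm_num)
  · exact absurd h1 (by norm_num)
  · exact absurd h1 (by norm_num)
  · exact corT_cert (G1 := gN0q2) (G2 := gN1q0) (Ga := gN4q2) (Gb := gN5q2) cA202R_ok B hρ (gatN02 x) (gatN10 x) (fun h => absurd h (by decide)) (fun _ => gatN52 x) hd hx hx' CN.A202R_014

theorem altN_A202R_02 {κ x : ℝ} (hκ : κ * h0 = ken x) (hx : ((201326592 : ℕ) : ℝ) / S ≤ x) (hx' : x ≤ (((201326592 : ℕ) : ℝ) + (134217728 : ℕ)) / S) :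
    AltA (VN 3 κ) PP tKN tL pcN [⟨0, 1, 0, 67108864⟩, ⟨1, 0, 0, 67108864⟩, ⟨2, 1, 0, 67108864⟩] 2 0 2 0 2 (sgb false) (sgb false) x := by
  have X : XR 67108864 x := XR.of hx hx' (by norm_num) (by norm_num) (by norm_num) (by norm_num)
  refine (cornS_of (C := cA202R) (C0 := c0N) (j := (0 : Fin 6)) (k := (2 : Fin 6)) (lo := 5) (hi := 5) (W := 67108864) (N0 := 3) cA202R_q (sideN hx hx') gokN X (by norm_num) (by norm_num) (l := (5 : Fin 6)) rfl
    (gatN02 x) (gatN20 x) (gatN52 x) ?_).altNA rfl hκ le_rfl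
  intro ρ a B hρ hd i h1 h2
  fin_cases i
  · exact absurd h1 (by norm_num)
  · exact absurd h1 (by norm_num)
  · exact absurd h1 (by norm_num)
  · exact absurd h1 (by norm_num)
  · exact corT_cert (G1 := gN0q2) (G2 := gN2q0) (Ga := gN4q2) (Gb := gN5q2) cA202R_ok B hρ (gatN02 x) (gatN20 x) (fun h => absurd h (by decide)) (fun _ => gatN52 x) hd hx hx' CN.A202R_024

theorem altN_A202R_11 {κ x : ℝ} (hκ : κ * h0 = ken x) (hx : ((201326592 : ℕ) : ℝ) / S ≤ x) (hx' : x ≤ (((201326592 : ℕ) : ℝ) + (134217728 : ℕ)) / S) :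
    AltA (VN 3 κ) PP tKN tL pcN [⟨0, 1, 0, 67108864⟩, ⟨1, 0, 0, 67108864⟩, ⟨2, 1, 0, 67108864⟩] 2 0 2 1 1 (sgb false) (sgb false) x := by
  have X : XR 67108864 x := XR.of hx hx' (by norm_num) (by norm_num) (by norm_num) (by norm_num)
  refine (cornS_of (C := cA202R) (C0 := c0N) (j := (1 : Fin 6)) (k := (1 : Fin 6)) (lo := 5) (hi := 5) (W := 67108864) (N0 := 3) cA202R_q (sideN hx hx') gokN X (by norm_num) (by norm_num) (l := (5 : Fin 6)) rfl
    (gatN12 x) (gatN10 x) (gatN52 x) ?_).altNA rfl hκ le_rfl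
  intro ρ a B hρ hd i h1 h2
  fin_cases i
  · exact absurd h1 (by norm_num)
  · exact absurd h1 (by norm_num)
  · exact absurd h1 (by norm_num)
  · exact absurd h1 (by norm_num)
  · exact corT_cert (G1 := gN1q2) (G2 := gN1q0) (Ga := gN4q2) (Gb := gN5q2) cA202R_ok B hρ (gatN12 x) (gatN10 x) (fun h => absurd h (by decide)) (fun _ => gatN52 x) hd hx hx' CN.A202R_114

theorem altN_A202R_12 {κ x : ℝ} (hκ : κ * h0 = ken x) (hx : ((201326592 : ℕ) : ℝ) / S ≤ x) (hx' : x ≤ (((201326592 : ℕ) : ℝ) + (134217728 : ℕ)) / S) :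
    AltA (VN 3 κ) PP tKN tL pcN [⟨0, 1, 0, 67108864⟩, ⟨1, 0, 0, 67108864⟩, ⟨2, 1, 0, 67108864⟩] 2 0 2 1 2 (sgb false) (sgb false) x := by
  have X : XR 67108864 x := XR.of hx hx' (by norm_num) (by norm_num) (by norm_num) (by norm_num)
  refine (cornS_of (C := cA202R) (C0 := c0N) (j := (1 : Fin 6)) (k := (2 : Fin 6)) (lo := 5) (hi := 5) (W := 67108864) (N0 := 3) cA202R_q (sideN hx hx') gokN X (by norm_num) (by norm_num) (l := (5 : Fin 6)) rfl
    (gatN12 x) (gatN20 x) (gatN52 x) ?_).altNA rfl hκ le_rfl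
  intro ρ a B hρ hd i h1 h2
  fin_cases i
  · exact absurd h1 (by norm_num)
  · exact absurd h1 (by norm_num)
  · exact absurd h1 (by norm_num)
  · exact absurd h1 (by norm_num)
  · exact corT_cert (G1 := gN1q2) (G2 := gN2q0) (Ga := gN4q2) (Gb := gN5q2) cA202R_ok B hρ (gatN12 x) (gatN20 x) (fun h => absurd h (by decide)) (fun _ => gatN52 x) hd hx hx' CN.A202R_124

theorem altN_A202R_22 {κ x : ℝ} (hκ : κ * h0 = ken x) (hx : ((201326592 : ℕ) : ℝ) / S ≤ x) (hx' : x ≤ (((201326592 : ℕ) : ℝ) + (134217728 : ℕ)) / S) :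
    AltA (VN 3 κ) PP tKN tL pcN [⟨0, 1, 0, 67108864⟩, ⟨1, 0, 0, 67108864⟩, ⟨2, 1, 0, 67108864⟩] 2 0 2 2 2 (sgb false) (sgb false) x := by
  have X : XR 67108864 x := XR.of hx hx' (by norm_num) (by norm_num) (by norm_num) (by norm_num)
  refine (cornS_of (C := cA202R) (C0 := c0N) (j := (2 : Fin 6)) (k := (2 : Fin 6)) (lo := 5) (hi := 5) (W := 67108864) (N0 := 3) cA202R_q (sideN hx hx') gokN X (by norm_num) (by norm_num) (l := (5 : Fin 6)) rfl
    (gatN22 x) (gatN20 x) (gatN52 x) ?_).altNA rfl hκ le_rfl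
  intro ρ a B hρ hd i h1 h2
  fin_cases i
  · exact absurd h1 (by norm_num)
  · exact absurd h1 (by norm_num)
  · exact absurd h1 (by norm_num)
  · exact absurd h1 (by norm_num)
  · exact corT_cert (G1 := gN2q2) (G2 := gN2q0) (Ga := gN4q2) (Gb := gN5q2) cA202R_ok B hρ (gatN22 x) (gatN20 x) (fun h => absurd h (by decide)) (fun _ => gatN52 x) hd hx hx' CN.A202R_224

theorem altN_B011E_00 {κ x : ℝ} (hκ : κ * h0 = ken x) (hx : ((201326592 : ℕ) : ℝ) / S ≤ x) (hx' : x ≤ (((201326592 : ℕ) : ℝ) + (134217728 : ℕ)) / S) :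
    AltB (VN 3 κ) PP tKN tL pcN [⟨0, 0, 0, 67108864⟩, ⟨1, 1, 0, 67108864⟩, ⟨2, 1, 0, 67108864⟩] 0 1 1 0 0 (sgb true) (sgb true) x := by
  have X : XR 67108864 x := XR.of hx hx' (by norm_num) (by norm_num) (by norm_num) (by norm_num)
  refine (cornS_of (C := cB011E) (C0 := c0N) (j := (0 : Fin 6)) (k := (0 : Fin 6)) (lo := 0) (hi := 0) (W := 67108864) (N0 := 3) cB011E_q (sideN hx hx') gokN X (by norm_num) (by norm_num) (l := (0 : Fin 6)) rfl
    (gatN00 x) (gatN01 x) (gatN01 x) ?_).altNB rfl hκ le_rfl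
  intro ρ a B hρ hd i h1 h2
  fin_cases i
  · exact corT_cert (G1 := gN0q0) (G2 := gN0q1) (Ga := gN0q1) (Gb := gN1q1) cB011E_ok B hρ (gatN00 x) (gatN01 x) (fun _ => gatN01 x) (fun h => absurd h (by decide)) hd hx hx' CN.B011E_000
  · exact absurd h2 (by norm_num)
  · exact absurd h2 (by norm_num)
  · exact absurd h2 (by norm_num)
  · exact absurd h2 (by norm_num)

theorem altN_B011E_10 {κ x : ℝ} (hκ : κ * h0 = ken x) (hx : ((201326592 : ℕ) : ℝ) / S ≤ x) (hx' : x ≤ (((201326592 : ℕ) : ℝ) + (134217728 : ℕ)) / S) :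
    AltB (VN 3 κ) PP tKN tL pcN [⟨0, 0, 0, 67108864⟩, ⟨1, 1, 0, 67108864⟩, ⟨2, 1, 0, 67108864⟩] 0 1 1 1 0 (sgb true) (sgb true) x := by
  have X : XR 67108864 x := XR.of hx hx' (by norm_num) (by norm_num) (by norm_num) (by norm_num)
  refine (cornS_of (C := cB011E) (C0 := c0N) (j := (1 : Fin 6)) (k := (0 : Fin 6)) (lo := 0) (hi := 0) (W := 67108864) (N0 := 3) cB011E_q (sideN hx hx') gokN X (by norm_num) (by norm_num) (l := (0 : Fin 6)) rfl
    (gatN10 x) (gatN01 x) (gatN01 x) ?_).altNB rfl hκ le_rfl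
  intro ρ a B hρ hd i h1 h2
  fin_cases i
  · exact corT_cert (G1 := gN1q0) (G2 := gN0q1) (Ga := gN0q1) (Gb := gN1q1) cB011E_ok B hρ (gatN10 x) (gatN01 x) (fun _ => gatN01 x) (fun h => absurd h (by decide)) hd hx hx' CN.B011E_100
  · exact absurd h2 (by norm_num)
  · exact absurd h2 (by norm_num)
  · exact absurd h2 (by norm_num)
  · exact absurd h2 (by norm_num)

theorem altN_B011E_20 {κ x : ℝ} (hκ : κ * h0 = ken x) (hx : ((201326592 : ℕ) : ℝ) / S ≤ x) (hx' : x ≤ (((201326592 : ℕ) : ℝ) + (134217728 : ℕ)) / S) :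
    AltB (VN 3 κ) PP tKN tL pcN [⟨0, 0, 0, 67108864⟩, ⟨1, 1, 0, 67108864⟩, ⟨2, 1, 0, 67108864⟩] 0 1 1 2 0 (sgb true) (sgb true) x := by
  have X : XR 67108864 x := XR.of hx hx' (by norm_num) (by norm_num) (by norm_num) (by norm_num)
  refine (cornS_of (C := cB011E) (C0 := c0N) (j := (2 : Fin 6)) (k := (0 : Fin 6)) (lo := 0) (hi := 0) (W := 67108864) (N0 := 3) cB011E_q (sideN hx hx') gokN X (by norm_num) (by norm_num) (l := (0 : Fin 6)) rfl
    (gatN20 x) (gatN01 x) (gatN01 x) ?_).altNB rfl hκ le_rfl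
  intro ρ a B hρ hd i h1 h2
  fin_cases i
  · exact corT_cert (G1 := gN2q0) (G2 := gN0q1) (Ga := gN0q1) (Gb := gN1q1) cB011E_ok B hρ (gatN20 x) (gatN01 x) (fun _ => gatN01 x) (fun h => absurd h (by decide)) hd hx hx' CN.B011E_200
  · exact absurd h2 (by norm_num)
  · exact absurd h2 (by norm_num)
  · exact absurd h2 (by norm_num)
  · exact absurd h2 (by norm_num)

theorem altN_B011L_03 {κ x : ℝ} (hκ : κ * h0 = ken x) (hx : ((201326592 : ℕ) : ℝ) / S ≤ x) (hx' : x ≤ (((201326592 : ℕ) : ℝ) + (134217728 : ℕ)) / S) :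
    AltB (VN 3 κ) PP tKN tL pcN [⟨0, 0, 0, 67108864⟩, ⟨1, 1, 0, 67108864⟩, ⟨2, 1, 0, 67108864⟩] 0 1 1 0 3 (sgb true) (sgb true) x := by
  have X : XR 67108864 x := XR.of hx hx' (by norm_num) (by norm_num) (by norm_num) (by norm_num)
  refine (cornS_of (C := cB011L) (C0 := c0N) (j := (0 : Fin 6)) (k := (3 : Fin 6)) (lo := 0) (hi := 0) (W := 67108864) (N0 := 3) cB011L_q (sideN hx hx') gokN X (by norm_num) (by norm_num) (l := (0 : Fin 6)) rfl
    (gatN00 x) (gatN31 x) (gatN01 x) ?_).altNB rfl hκ le_rfl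
  intro ρ a B hρ hd i h1 h2
  fin_cases i
  · exact corT_cert (G1 := gN0q0) (G2 := gN3q1) (Ga := gN0q1) (Gb := gN1q1) cB011L_ok B hρ (gatN00 x) (gatN31 x) (fun _ => gatN01 x) (fun h => absurd h (by decide)) hd hx hx' CN.B011L_030
  · exact absurd h2 (by norm_num)
  · exact absurd h2 (by norm_num)
  · exact absurd h2 (by norm_num)
  · exact absurd h2 (by norm_num)

theorem altN_B011L_04 {κ x : ℝ} (hκ : κ * h0 = ken x) (hx : ((201326592 : ℕ) : ℝ) / S ≤ x) (hx' : x ≤ (((201326592 : ℕ) : ℝ) + (134217728 : ℕ)) / S) :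
    AltB (VN 3 κ) PP tKN tL pcN [⟨0, 0, 0, 67108864⟩, ⟨1, 1, 0, 67108864⟩, ⟨2, 1, 0, 67108864⟩] 0 1 1 0 4 (sgb true) (sgb true) x := by
  have X : XR 67108864 x := XR.of hx hx' (by norm_num) (by norm_num) (by norm_num) (by norm_num)
  refine (cornS_of (C := cB011L) (C0 := c0N) (j := (0 : Fin 6)) (k := (4 : Fin 6)) (lo := 0) (hi := 0) (W := 67108864) (N0 := 3) cB011L_q (sideN hx hx') gokN X (by norm_num) (by norm_num) (l := (0 : Fin 6)) rfl
    (gatN00 x) (gatN41 x) (gatN01 x) ?_).altNB rfl hκ le_rfl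
  intro ρ a B hρ hd i h1 h2
  fin_cases i
  · exact corT_cert (G1 := gN0q0) (G2 := gN4q1) (Ga := gN0q1) (Gb := gN1q1) cB011L_ok B hρ (gatN00 x) (gatN41 x) (fun _ => gatN01 x) (fun h => absurd h (by decide)) hd hx hx' CN.B011L_040
  · exact absurd h2 (by norm_num)
  · exact absurd h2 (by norm_num)
  · exact absurd h2 (by norm_num)
  · exact absurd h2 (by norm_num)

theorem altN_B011L_05 {κ x : ℝ} (hκ : κ * h0 = ken x) (hx : ((201326592 : ℕ) : ℝ) / S ≤ x) (hx' : x ≤ (((201326592 : ℕ) : ℝ) + (134217728 : ℕ)) / S) :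
    AltB (VN 3 κ) PP tKN tL pcN [⟨0, 0, 0, 67108864⟩, ⟨1, 1, 0, 67108864⟩, ⟨2, 1, 0, 67108864⟩] 0 1 1 0 5 (sgb true) (sgb true) x := by
  have X : XR 67108864 x := XR.of hx hx' (by norm_num) (by norm_num) (by norm_num) (by norm_num)
  refine (cornS_of (C := cB011L) (C0 := c0N) (j := (0 : Fin 6)) (k := (5 : Fin 6)) (lo := 0) (hi := 0) (W := 67108864) (N0 := 3) cB011L_q (sideN hx hx') gokN X (by norm_num) (by norm_num) (l := (0 : Fin 6)) rfl
    (gatN00 x) (gatN51 x) (gatN01 x) ?_).altNB rfl hκ le_rfl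
  intro ρ a B hρ hd i h1 h2
  fin_cases i
  · exact corT_cert (G1 := gN0q0) (G2 := gN5q1) (Ga := gN0q1) (Gb := gN1q1) cB011L_ok B hρ (gatN00 x) (gatN51 x) (fun _ => gatN01 x) (fun h => absurd h (by decide)) hd hx hx' CN.B011L_050
  · exact absurd h2 (by norm_num)
  · exact absurd h2 (by norm_num)
  · exact absurd h2 (by norm_num)
  · exact absurd h2 (by norm_num)

theorem altN_B011L_13 {κ x : ℝ} (hκ : κ * h0 = ken x) (hx : ((201326592 : ℕ) : ℝ) / S ≤ x) (hx' : x ≤ (((201326592 : ℕ) : ℝ) + (134217728 : ℕ)) / S) :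
    AltB (VN 3 κ) PP tKN tL pcN [⟨0, 0, 0, 67108864⟩, ⟨1, 1, 0, 67108864⟩, ⟨2, 1, 0, 67108864⟩] 0 1 1 1 3 (sgb true) (sgb true) x := by
  have X : XR 67108864 x := XR.of hx hx' (by norm_num) (by norm_num) (by norm_num) (by norm_num)
  refine (cornS_of (C := cB011L) (C0 := c0N) (j := (1 : Fin 6)) (k := (3 : Fin 6)) (lo := 0) (hi := 0) (W := 67108864) (N0 := 3) cB011L_q (sideN hx hx') gokN X (by norm_num) (by norm_num) (l := (0 : Fin 6)) rfl
    (gatN10 x) (gatN31 x) (gatN01 x) ?_).altNB rfl hκ le_rfl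
  intro ρ a B hρ hd i h1 h2
  fin_cases i
  · exact corT_cert (G1 := gN1q0) (G2 := gN3q1) (Ga := gN0q1) (Gb := gN1q1) cB011L_ok B hρ (gatN10 x) (gatN31 x) (fun _ => gatN01 x) (fun h => absurd h (by decide)) hd hx hx' CN.B011L_130
  · exact absurd h2 (by norm_num)
  · exact absurd h2 (by norm_num)
  · exact absurd h2 (by norm_num)
  · exact absurd h2 (by norm_num)

theorem altN_B011L_14 {κ x : ℝ} (hκ : κ * h0 = ken x) (hx : ((201326592 : ℕ) : ℝ) / S ≤ x) (hx' : x ≤ (((201326592 : ℕ) : ℝ) + (134217728 : ℕ)) / S) :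
    AltB (VN 3 κ) PP tKN tL pcN [⟨0, 0, 0, 67108864⟩, ⟨1, 1, 0, 67108864⟩, ⟨2, 1, 0, 67108864⟩] 0 1 1 1 4 (sgb true) (sgb true) x := by
  have X : XR 67108864 x := XR.of hx hx' (by norm_num) (by norm_num) (by norm_num) (by norm_num)
  refine (cornS_of (C := cB011L) (C0 := c0N) (j := (1 : Fin 6)) (k := (4 : Fin 6)) (lo := 0) (hi := 0) (W := 67108864) (N0 := 3) cB011L_q (sideN hx hx') gokN X (by norm_num) (by norm_num) (l := (0 : Fin 6)) rfl
    (gatN10 x) (gatN41 x) (gatN01 x) ?_).altNB rfl hκ le_rfl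
  intro ρ a B hρ hd i h1 h2
  fin_cases i
  · exact corT_cert (G1 := gN1q0) (G2 := gN4q1) (Ga := gN0q1) (Gb := gN1q1) cB011L_ok B hρ (gatN10 x) (gatN41 x) (fun _ => gatN01 x) (fun h => absurd h (by decide)) hd hx hx' CN.B011L_140
  · exact absurd h2 (by norm_num)
  · exact absurd h2 (by norm_num)
  · exact absurd h2 (by norm_num)
  · exact absurd h2 (by norm_num)

theorem altN_B011L_15 {κ x : ℝ} (hκ : κ * h0 = ken x) (hx : ((201326592 : ℕ) : ℝ) / S ≤ x) (hx' : x ≤ (((201326592 : ℕ) : ℝ) + (134217728 : ℕ)) / S) :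
    AltB (VN 3 κ) PP tKN tL pcN [⟨0, 0, 0, 67108864⟩, ⟨1, 1, 0, 67108864⟩, ⟨2, 1, 0, 67108864⟩] 0 1 1 1 5 (sgb true) (sgb true) x := by
  have X : XR 67108864 x := XR.of hx hx' (by norm_num) (by norm_num) (by norm_num) (by norm_num)
  refine (cornS_of (C := cB011L) (C0 := c0N) (j := (1 : Fin 6)) (k := (5 : Fin 6)) (lo := 0) (hi := 0) (W := 67108864) (N0 := 3) cB011L_q (sideN hx hx') gokN X (by norm_num) (by norm_num) (l := (0 : Fin 6)) rfl
    (gatN10 x) (gatN51 x) (gatN01 x) ?_).altNB rfl hκ le_rfl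
  intro ρ a B hρ hd i h1 h2
  fin_cases i
  · exact corT_cert (G1 := gN1q0) (G2 := gN5q1) (Ga := gN0q1) (Gb := gN1q1) cB011L_ok B hρ (gatN10 x) (gatN51 x) (fun _ => gatN01 x) (fun h => absurd h (by decide)) hd hx hx' CN.B011L_150
  · exact absurd h2 (by norm_num)
  · exact absurd h2 (by norm_num)
  · exact absurd h2 (by norm_num)
  · exact absurd h2 (by norm_num)

theorem altN_B011L_23 {κ x : ℝ} (hκ : κ * h0 = ken x) (hx : ((201326592 : ℕ) : ℝ) / S ≤ x) (hx' : x ≤ (((201326592 : ℕ) : ℝ) + (134217728 : ℕ)) / S) :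
    AltB (VN 3 κ) PP tKN tL pcN [⟨0, 0, 0, 67108864⟩, ⟨1, 1, 0, 67108864⟩, ⟨2, 1, 0, 67108864⟩] 0 1 1 2 3 (sgb true) (sgb true) x := by
  have X : XR 67108864 x := XR.of hx hx' (by norm_num) (by norm_num) (by norm_num) (by norm_num)
  refine (cornS_of (C := cB011L) (C0 := c0N) (j := (2 : Fin 6)) (k := (3 : Fin 6)) (lo := 0) (hi := 0) (W := 67108864) (N0 := 3) cB011L_q (sideN hx hx') gokN X (by norm_num) (by norm_num) (l := (0 : Fin 6)) rfl
    (gatN20 x) (gatN31 x) (gatN01 x) ?_).altNB rfl hκ le_rfl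
  intro ρ a B hρ hd i h1 h2
  fin_cases i
  · exact corT_cert (G1 := gN2q0) (G2 := gN3q1) (Ga := gN0q1) (Gb := gN1q1) cB011L_ok B hρ (gatN20 x) (gatN31 x) (fun _ => gatN01 x) (fun h => absurd h (by decide)) hd hx hx' CN.B011L_230
  · exact absurd h2 (by norm_num)
  · exact absurd h2 (by norm_num)
  · exact absurd h2 (by norm_num)
  · exact absurd h2 (by norm_num)

theorem altN_B011L_24 {κ x : ℝ} (hκ : κ * h0 = ken x) (hx : ((201326592 : ℕ) : ℝ) / S ≤ x) (hx' : x ≤ (((201326592 : ℕ) : ℝ) + (134217728 : ℕ)) / S) :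
    AltB (VN 3 κ) PP tKN tL pcN [⟨0, 0, 0, 67108864⟩, ⟨1, 1, 0, 67108864⟩, ⟨2, 1, 0, 67108864⟩] 0 1 1 2 4 (sgb true) (sgb true) x := by
  have X : XR 67108864 x := XR.of hx hx' (by norm_num) (by norm_num) (by norm_num) (by norm_num)
  refine (cornS_of (C := cB011L) (C0 := c0N) (j := (2 : Fin 6)) (k := (4 : Fin 6)) (lo := 0) (hi := 0) (W := 67108864) (N0 := 3) cB011L_q (sideN hx hx') gokN X (by norm_num) (by norm_num) (l := (0 : Fin 6)) rfl
    (gatN20 x) (gatN41 x) (gatN01 x) ?_).altNB rfl hκ le_rfl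
  intro ρ a B hρ hd i h1 h2
  fin_cases i
  · exact corT_cert (G1 := gN2q0) (G2 := gN4q1) (Ga := gN0q1) (Gb := gN1q1) cB011L_ok B hρ (gatN20 x) (gatN41 x) (fun _ => gatN01 x) (fun h => absurd h (by decide)) hd hx hx' CN.B011L_240
  · exact absurd h2 (by norm_num)
  · exact absurd h2 (by norm_num)
  · exact absurd h2 (by norm_num)
  · exact absurd h2 (by norm_num)

theorem altN_B011L_25 {κ x : ℝ} (hκ : κ * h0 = ken x) (hx : ((201326592 : ℕ) : ℝ) / S ≤ x) (hx' : x ≤ (((201326592 : ℕ) : ℝ) + (134217728 : ℕ)) / S) :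
    AltB (VN 3 κ) PP tKN tL pcN [⟨0, 0, 0, 67108864⟩, ⟨1, 1, 0, 67108864⟩, ⟨2, 1, 0, 67108864⟩] 0 1 1 2 5 (sgb true) (sgb true) x := by
  have X : XR 67108864 x := XR.of hx hx' (by norm_num) (by norm_num) (by norm_num) (by norm_num)
  refine (cornS_of (C := cB011L) (C0 := c0N) (j := (2 : Fin 6)) (k := (5 : Fin 6)) (lo := 0) (hi := 0) (W := 67108864) (N0 := 3) cB011L_q (sideN hx hx') gokN X (by norm_num) (by norm_num) (l := (0 : Fin 6)) rfl
    (gatN20 x) (gatN51 x) (gatN01 x) ?_).altNB rfl hκ le_rfl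
  intro ρ a B hρ hd i h1 h2
  fin_cases i
  · exact corT_cert (G1 := gN2q0) (G2 := gN5q1) (Ga := gN0q1) (Gb := gN1q1) cB011L_ok B hρ (gatN20 x) (gatN51 x) (fun _ => gatN01 x) (fun h => absurd h (by decide)) hd hx hx' CN.B011L_250
  · exact absurd h2 (by norm_num)
  · exact absurd h2 (by norm_num)
  · exact absurd h2 (by norm_num)
  · exact absurd h2 (by norm_num)

theorem altN_B011R_00 {κ x : ℝ} (hκ : κ * h0 = ken x) (hx : ((201326592 : ℕ) : ℝ) / S ≤ x) (hx' : x ≤ (((201326592 : ℕ) : ℝ) + (134217728 : ℕ)) / S) :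
    AltB (VN 3 κ) PP tKN tL pcN [⟨0, 0, 0, 67108864⟩, ⟨1, 1, 0, 67108864⟩, ⟨2, 1, 0, 67108864⟩] 0 1 1 0 0 (sgb true) (sgb false) x := by
  have X : XR 67108864 x := XR.of hx hx' (by norm_num) (by norm_num) (by norm_num) (by norm_num)
  refine (cornS_of (C := cB011R) (C0 := c0N) (j := (0 : Fin 6)) (k := (0 : Fin 6)) (lo := 3) (hi := 5) (W := 67108864) (N0 := 3) cB011R_q (sideN hx hx') gokN X (by norm_num) (by norm_num) (l := (3 : Fin 6)) rfl
    (gatN00 x) (gatN01 x) (gatN31 x) ?_).altNB rfl hκ le_rfl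
  intro ρ a B hρ hd i h1 h2
  fin_cases i
  · exact absurd h1 (by norm_num)
  · exact absurd h1 (by norm_num)
  · exact corT_cert (G1 := gN0q0) (G2 := gN0q1) (Ga := gN2q1) (Gb := gN3q1) cB011R_ok B hρ (gatN00 x) (gatN01 x) (fun h => absurd h (by decide)) (fun _ => gatN31 x) hd hx hx' CN.B011R_002
  · exact corT_cert (G1 := gN0q0) (G2 := gN0q1) (Ga := gN3q1) (Gb := gN4q1) cB011R_ok B hρ (gatN00 x) (gatN01 x) (fun _ => gatN31 x) (fun _ => gatN41 x) hd hx hx' CN.B011R_003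
  · exact corT_cert (G1 := gN0q0) (G2 := gN0q1) (Ga := gN4q1) (Gb := gN5q1) cB011R_ok B hρ (gatN00 x) (gatN01 x) (fun _ => gatN41 x) (fun _ => gatN51 x) hd hx hx' CN.B011R_004

theorem altN_B011R_10 {κ x : ℝ} (hκ : κ * h0 = ken x) (hx : ((201326592 : ℕ) : ℝ) / S ≤ x) (hx' : x ≤ (((201326592 : ℕ) : ℝ) + (134217728 : ℕ)) / S) :
    AltB (VN 3 κ) PP tKN tL pcN [⟨0, 0, 0, 67108864⟩, ⟨1, 1, 0, 67108864⟩, ⟨2, 1, 0, 67108864⟩] 0 1 1 1 0 (sgb true) (sgb false) x := by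
  have X : XR 67108864 x := XR.of hx hx' (by norm_num) (by norm_num) (by norm_num) (by norm_num)
  refine (cornS_of (C := cB011R) (C0 := c0N) (j := (1 : Fin 6)) (k := (0 : Fin 6)) (lo := 3) (hi := 5) (W := 67108864) (N0 := 3) cB011R_q (sideN hx hx') gokN X (by norm_num) (by norm_num) (l := (3 : Fin 6)) rfl
    (gatN10 x) (gatN01 x) (gatN31 x) ?_).altNB rfl hκ le_rfl
  intro ρ a B hρ hd i h1 h2
  fin_cases i
  · exact absurd h1 (by norm_num)
  · exact absurd h1 (by norm_num)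
  · exact corT_cert (G1 := gN1q0) (G2 := gN0q1) (Ga := gN2q1) (Gb := gN3q1) cB011R_ok B hρ (gatN10 x) (gatN01 x) (fun h => absurd h (by decide)) (fun _ => gatN31 x) hd hx hx' CN.B011R_102
  · exact corT_cert (G1 := gN1q0) (G2 := gN0q1) (Ga := gN3q1) (Gb := gN4q1) cB011R_ok B hρ (gatN10 x) (gatN01 x) (fun _ => gatN31 x) (fun _ => gatN41 x) hd hx hx' CN.B011R_103
  · exact corT_cert (G1 := gN1q0) (G2 := gN0q1) (Ga := gN4q1) (Gb := gN5q1) cB011R_ok B hρ (gatN10 x) (gatN01 x) (fun _ => gatN41 x) (fun _ => gatN51 x) hd hx hx' CN.B011R_104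

theorem altN_B011R_20 {κ x : ℝ} (hκ : κ * h0 = ken x) (hx : ((201326592 : ℕ) : ℝ) / S ≤ x) (hx' : x ≤ (((201326592 : ℕ) : ℝ) + (134217728 : ℕ)) / S) :
    AltB (VN 3 κ) PP tKN tL pcN [⟨0, 0, 0, 67108864⟩, ⟨1, 1, 0, 67108864⟩, ⟨2, 1, 0, 67108864⟩] 0 1 1 2 0 (sgb true) (sgb false) x := by
  have X : XR 67108864 x := XR.of hx hx' (by norm_num) (by norm_num) (by norm_num) (by norm_num)
  refine (cornS_of (C := cB011R) (C0 := c0N) (j := (2 : Fin 6)) (k := (0 : Fin 6)) (lo := 3) (hi := 5) (W := 67108864) (N0 := 3) cB011R_q (sideN hx hx') gokN X (by norm_num) (by norm_num) (l := (3 : Fin 6)) rfl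
    (gatN20 x) (gatN01 x) (gatN31 x) ?_).altNB rfl hκ le_rfl
  intro ρ a B hρ hd i h1 h2
  fin_cases i
  · exact absurd h1 (by norm_num)
  · exact absurd h1 (by norm_num)
  · exact corT_cert (G1 := gN2q0) (G2 := gN0q1) (Ga := gN2q1) (Gb := gN3q1) cB011R_ok B hρ (gatN20 x) (gatN01 x) (fun h => absurd h (by decide)) (fun _ => gatN31 x) hd hx hx' CN.B011R_202
  · exact corT_cert (G1 := gN2q0) (G2 := gN0q1) (Ga := gN3q1) (Gb := gN4q1) cB011R_ok B hρ (gatN20 x) (gatN01 x) (fun _ => gatN31 x) (fun _ => gatN41 x) hd hx hx' CN.B011R_203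
  · exact corT_cert (G1 := gN2q0) (G2 := gN0q1) (Ga := gN4q1) (Gb := gN5q1) cB011R_ok B hρ (gatN20 x) (gatN01 x) (fun _ => gatN41 x) (fun _ => gatN51 x) hd hx hx' CN.B011R_204

theorem altN_B012E_00 {κ x : ℝ} (hκ : κ * h0 = ken x) (hx : ((201326592 : ℕ) : ℝ) / S ≤ x) (hx' : x ≤ (((201326592 : ℕ) : ℝ) + (134217728 : ℕ)) / S) :
    AltB (VN 3 κ) PP tKN tL pcN [⟨0, 0, 0, 67108864⟩, ⟨1, 1, 0, 67108864⟩, ⟨2, 1, 0, 67108864⟩] 0 1 2 0 0 (sgb true) (sgb true) x := by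
  have X : XR 67108864 x := XR.of hx hx' (by norm_num) (by norm_num) (by norm_num) (by norm_num)
  refine (cornS_of (C := cB012E) (C0 := c0N) (j := (0 : Fin 6)) (k := (0 : Fin 6)) (lo := 0) (hi := 0) (W := 67108864) (N0 := 3) cB012E_q (sideN hx hx') gokN X (by norm_num) (by norm_num) (l := (0 : Fin 6)) rfl
    (gatN00 x) (gatN02 x) (gatN01 x) ?_).altNB rfl hκ le_rfl
  intro ρ a B hρ hd i h1 h2
  fin_cases i
  · exact corT_cert (G1 := gN0q0) (G2 := gN0q2) (Ga := gN0q1) (Gb := gN1q1) cB012E_ok B hρ (gatN00 x) (gatN02 x) (fun _ => gatN01 x) (fun h => absurd h (by decide)) hd hx hx' CN.B012E_000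
  · exact absurd h2 (by norm_num)
  · exact absurd h2 (by norm_num)
  · exact absurd h2 (by norm_num)
  · exact absurd h2 (by norm_num)

theorem altN_B012E_01 {κ x : ℝ} (hκ : κ * h0 = ken x) (hx : ((201326592 : ℕ) : ℝ) / S ≤ x) (hx' : x ≤ (((201326592 : ℕ) : ℝ) + (134217728 : ℕ)) / S) :
    AltB (VN 3 κ) PP tKN tL pcN [⟨0, 0, 0, 67108864⟩, ⟨1, 1, 0, 67108864⟩, ⟨2, 1, 0, 67108864⟩] 0 1 2 0 1 (sgb true) (sgb true) x := by
  have X : XR 67108864 x := XR.of hx hx' (by norm_num) (by norm_num) (by norm_num) (by norm_num)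
  refine (cornS_of (C := cB012E) (C0 := c0N) (j := (0 : Fin 6)) (k := (1 : Fin 6)) (lo := 0) (hi := 0) (W := 67108864) (N0 := 3) cB012E_q (sideN hx hx') gokN X (by norm_num) (by norm_num) (l := (0 : Fin 6)) rfl
    (gatN00 x) (gatN12 x) (gatN01 x) ?_).altNB rfl hκ le_rfl
  intro ρ a B hρ hd i h1 h2
  fin_cases i
  · exact corT_cert (G1 := gN0q0) (G2 := gN1q2) (Ga := gN0q1) (Gb := gN1q1) cB012E_ok B hρ (gatN00 x) (gatN12 x) (fun _ => gatN01 x) (fun h => absurd h (by decide)) hd hx hx' CN.B012E_010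
  · exact absurd h2 (by norm_num)
  · exact absurd h2 (by norm_num)
  · exact absurd h2 (by norm_num)
  · exact absurd h2 (by norm_num)

theorem altN_B012E_02 {κ x : ℝ} (hκ : κ * h0 = ken x) (hx : ((201326592 : ℕ) : ℝ) / S ≤ x) (hx' : x ≤ (((201326592 : ℕ) : ℝ) + (134217728 : ℕ)) / S) :
    AltB (VN 3 κ) PP tKN tL pcN [⟨0, 0, 0, 67108864⟩, ⟨1, 1, 0, 67108864⟩, ⟨2, 1, 0, 67108864⟩] 0 1 2 0 2 (sgb true) (sgb true) x := by
  have X : XR 67108864 x := XR.of hx hx' (by norm_num) (by norm_num) (by norm_num) (by norm_num)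
  refine (cornS_of (C := cB012E) (C0 := c0N) (j := (0 : Fin 6)) (k := (2 : Fin 6)) (lo := 0) (hi := 0) (W := 67108864) (N0 := 3) cB012E_q (sideN hx hx') gokN X (by norm_num) (by norm_num) (l := (0 : Fin 6)) rfl
    (gatN00 x) (gatN22 x) (gatN01 x) ?_).altNB rfl hκ le_rfl
  intro ρ a B hρ hd i h1 h2
  fin_cases i
  · exact corT_cert (G1 := gN0q0) (G2 := gN2q2) (Ga := gN0q1) (Gb := gN1q1) cB012E_ok B hρ (gatN00 x) (gatN22 x) (fun _ => gatN01 x) (fun h => absurd h (by decide)) hd hx hx' CN.B012E_020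
  · exact absurd h2 (by norm_num)
  · exact absurd h2 (by norm_num)
  · exact absurd h2 (by norm_num)
  · exact absurd h2 (by norm_num)

theorem altN_B012E_10 {κ x : ℝ} (hκ : κ * h0 = ken x) (hx : ((201326592 : ℕ) : ℝ) / S ≤ x) (hx' : x ≤ (((201326592 : ℕ) : ℝ) + (134217728 : ℕ)) / S) :
    AltB (VN 3 κ) PP tKN tL pcN [⟨0, 0, 0, 67108864⟩, ⟨1, 1, 0, 67108864⟩, ⟨2, 1, 0, 67108864⟩] 0 1 2 1 0 (sgb true) (sgb true) x := by
  have X : XR 67108864 x := XR.of hx hx' (by norm_num) (by norm_num) (by norm_num) (by norm_num)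
  refine (cornS_of (C := cB012E) (C0 := c0N) (j := (1 : Fin 6)) (k := (0 : Fin 6)) (lo := 0) (hi := 0) (W := 67108864) (N0 := 3) cB012E_q (sideN hx hx') gokN X (by norm_num) (by norm_num) (l := (0 : Fin 6)) rfl
    (gatN10 x) (gatN02 x) (gatN01 x) ?_).altNB rfl hκ le_rfl
  intro ρ a B hρ hd i h1 h2
  fin_cases i
  · exact corT_cert (G1 := gN1q0) (G2 := gN0q2) (Ga := gN0q1) (Gb := gN1q1) cB012E_ok B hρ (gatN10 x) (gatN02 x) (fun _ => gatN01 x) (fun h => absurd h (by decide)) hd hx hx' CN.B012E_100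
  · exact absurd h2 (by norm_num)
  · exact absurd h2 (by norm_num)
  · exact absurd h2 (by norm_num)
  · exact absurd h2 (by norm_num)

end Pool.Agent.Strip051.G.I3_16_5_16.Tab
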