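import Pool.Agent.Strip051.G.I3_16_5_16.Tab

/-! # Certificates N0 (generated) -/

set_option linter.all false
set_option maxRecDepth 100000

namespace Pool.Agent.Strip051.G.I3_16_5_16.Tab.C.NA00

open Pool.Agent.Strip051.PB Pool.Agent.Strip051.PB.T
open Pool.Agent.Strip051.G.I3_16_5_16.Tab

noncomputable def f_pp_001 : ℕ → ℕ → ℕ → ℕ → Bool := onCell 0 536870912 0 536870912 201326592 134217728
    (rowN 3 0 true true true .up 0 0 1 (qsf 0 536870912 0 536870912 1) ndN0q0 ndN0q0 pcN1 Cut.none Ext.none)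

def k0_pp_001 : ∃ t, chk3 f_pp_001 t 1 1 1 = true :=
  ⟨(l 4), by decide +kernel⟩

theorem c_pp_001 : CertN 0 536870912 0 536870912 201326592 134217728 3 true true true .up 0 0 1
    ndN0q0 ndN0q0 pcN1 Cut.none Ext.none :=
  certN0 (fam := true) (s1 := true) (s2 := true) (a := 0) (b := 0) (c := 1) (cn := .up) (n1 := ndN0q0) (n2 := ndN0q0) (pc := pcN1) (cut := Cut.none) (xt := Ext.none) (P1 := 0) (W1 := 536870912) (P2 := 0) (W2 := 536870912) (P3 := 201326592) (W3 := 134217728) (N0 := 3)
    rfl k0_pp_001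

noncomputable def cut_pp_011 : Cut := Cut.of [[⟨0, 0, 0, 67108864⟩, ⟨1, 1, 0, 67108864⟩, ⟨2, 1, 0, 67108864⟩]]

noncomputable def f_pp_011 : ℕ → ℕ → ℕ → ℕ → Bool := onCell 0 536870912 536870912 536870912 201326592 134217728
    (rowN 3 0 true true true .pnn 0 1 1 (qsf 0 536870912 536870912 536870912 1) ndN0q0 ndN0q1 pcN1 cut_pp_011 Ext.none)

def k0_pp_011 : ∃ t, chk3 f_pp_011 t 1 1 1 = true :=
  ⟨(a (b (l 4) (b (l 4) (a (b (l 4) (a (b (l 4) (a (l 6) (l 4))) (l 4))) (l 4)))) (l 4)), by decide +kernel⟩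

theorem c_pp_011 : CertN 0 536870912 536870912 536870912 201326592 134217728 3 true true true .pnn 0 1 1
    ndN0q0 ndN0q1 pcN1 cut_pp_011 Ext.none :=
  certN0 (fam := true) (s1 := true) (s2 := true) (a := 0) (b := 1) (c := 1) (cn := .pnn) (n1 := ndN0q0) (n2 := ndN0q1) (pc := pcN1) (cut := cut_pp_011) (xt := Ext.none) (P1 := 0) (W1 := 536870912) (P2 := 536870912) (W2 := 536870912) (P3 := 201326592) (W3 := 134217728) (N0 := 3)
    rfl k0_pp_011

noncomputable def cut_pp_012 : Cut := Cut.of [[⟨0, 0, 0, 67108864⟩, ⟨1, 1, 0, 67108864⟩, ⟨2, 1, 0, 67108864⟩]]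

noncomputable def f_pp_012 : ℕ → ℕ → ℕ → ℕ → Bool := onCell 0 536870912 536870912 536870912 201326592 134217728
    (rowN 3 0 true true true .pnp 0 1 2 (qsf 0 536870912 536870912 536870912 2) ndN0q0 ndN0q1 pcN2 cut_pp_012 Ext.none)

def k0_pp_012 : ∃ t, chk3 f_pp_012 t 1 1 1 = true :=
  ⟨(b (l 4) (a (b (l 4) (a (b (l 4) (a (b (l 4) (a (l 6) (l 4))) (l 4))) (l 4))) (l 4))), by decide +kernel⟩

theorem c_pp_012 : CertN 0 536870912 536870912 536870912 201326592 134217728 3 true true true .pnp 0 1 2
    ndN0q0 ndN0q1 pcN2 cut_pp_012 Ext.none :=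
  certN0 (fam := true) (s1 := true) (s2 := true) (a := 0) (b := 1) (c := 2) (cn := .pnp) (n1 := ndN0q0) (n2 := ndN0q1) (pc := pcN2) (cut := cut_pp_012) (xt := Ext.none) (P1 := 0) (W1 := 536870912) (P2 := 536870912) (W2 := 536870912) (P3 := 201326592) (W3 := 134217728) (N0 := 3)
    rfl k0_pp_012

noncomputable def cut_pp_022 : Cut := Cut.of [[⟨0, 0, 0, 67108864⟩, ⟨1, 1, 0, 67108864⟩, ⟨2, 1, 0, 67108864⟩]]

noncomputable def f_pp_022 : ℕ → ℕ → ℕ → ℕ → Bool := onCell 0 536870912 0 536870912 201326592 134217728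
    (rowN 3 0 true true true .pp 0 2 2 (qsf 0 536870912 0 536870912 2) ndN0q0 ndN0q2 pcN2 cut_pp_022 Ext.none)

def k0_pp_022 : ∃ t, chk3 f_pp_022 t 4 2 1 = true :=
  ⟨(b (a (b (a (a (b (c (l 16490504) (l 16458888)) (c (a (l 16506672) (l 16494856)) (l 16499672))) (c (b (l 16489976) (l 16509144)) (b (l 16476696) (l 16474624)))) (c (b (a (l 16513464) (l 16536744)) (l 16561632)) (b (l 16569808) (l 16523520)))) (a (c (a (l 16498064) (b (l 16502312) (l 16473392))) (c (l 16502592) (l 16498008))) (c (a (l 16538944) (l 16538440)) (b (l 16517288) (l 16512160))))) (b (c (a (b (l 16591544) (l 16587560)) (l 16729872)) (a (b (l 16547592) (l 16541984)) (l 16587144))) (a (c (a (l 16559704) (l 16644400)) (l 16574344)) (c (a (l 16773832) (l 16869128)) (l 16594344))))) (a (b (a (c (a (c (l 16548272) (l 16545720)) (c (l 16545672) (l 16543976))) (a (l 16541280) (l 16540896))) (c (a (l 16552832) (l 16556272)) (a (l 16540208) (l 16518704)))) (a (a (c (b (l 16566952) (l 16592288)) (b (l 16536360) (l 16560672))) (c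 (c (l 16605600) (l 16601456)) (l 16615776))) (c (b (a (l 16548416) (l 16570240)) (a (l 16577792) (l 16580688))) (b (l 16584920) (a (l 16569880) (l 16574160)))))) (c (b (a (a (l 16566440) (l 16587808)) (a (l 16720128) (l 16815304))) (a (b (l 16581656) (a (l 16604408) (l 16586192))) (b (l 16720392) (l 16723104)))) (b (a (l 16558192) (l 16608896)) (a (a (l 16604896) (l 16608048)) (l 16646120)))))), by decide +kernel⟩

def k1_pp_022 : ∃ t, chk3 f_pp_022 t 5 2 1 = true :=
  ⟨(b (a (c (a (b (l 17005600) (l 16965744)) (b (l 17085144) (l 17035536))) (a (b (l 16628848) (l 16611000)) (b (l 16751168) (l 16733160)))) (c (b (a (l 17120904) (l 17128816)) (a (l 17062472) (l 17062992))) (a (b (l 16861000) (l 16831864)) (b (l 16925320) (l 16886208))))) (a (b (a (c (l 16803688) (l 16624064)) (c (l 16971368) (l 16708368))) (a (c (b (l 16858984) (l 16823696)) (a (l 16650000) (l 16644928))) (c (b (l 16918600) (l 16882200)) (b (l 16690704) (l 16681784))))) (b (a (c (l 16990968) (l 16797880)) (c (l 16985000) (l 16843264)))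 (c (a (b (l 16933624) (l 16894536)) (b (l 16923280) (l 16881360))) (a (b (l 16774184) (l 16761264)) (b (l 16813080) (l 16795544))))))), by decide +kernel⟩

def k2_pp_022 : ∃ t, chk3 f_pp_022 t 8 6 1 = true :=
  ⟨(b (a (b (c (a (c (l 16598200) (l 16593064)) (l 16621760)) (a (l 16584776) (l 16591184))) (a (c (a (c (l 16620064) (l 16614896)) (l 16641864)) (a (l 16606504) (l 16610496))) (c (c (l 16628032) (l 16623560)) (l 16637296)))) (b (c (a (l 16626656) (l 16631336)) (a (l 16597336) (l 16603296))) (c (a (c (l 16634200) (l 16630264)) (l 16659456)) (a (l 16644904) (l 16652312))))) (a (a (b (c (a (c (l 16642912) (l 16637960)) (c (l 16646776) (l 16642096))) (a (l 16650888) (l 16655480))) (c (a (c (b (l 16660088) (l 16671568)) (b (l 16655344) (l 16667032))) (c (b (l 16664360) (l 16676072)) (l 16692104))) (a (b (l 16647696) (l 16680728)) (c (l 16682248) (l 16677384))))) (b (c (a (c (l 16650608) (l 16646192)) (c (l 16654392) (l 16650232))) (a (l 16639048) (l 16643528))) (c (a (c (b (l 16668584) (l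 16680528)) (l 16691464)) (c (l 16699864) (l 16696016))) (a (b (l 16657608) (l 16670136)) (b (l 16662480) (l 16675232)))))) (a (b (c (c (l 16680904) (l 16677128)) (c (l 16673144) (l 16668936))) (c (a (c (l 16704136) (l 16700528)) (c (l 16708360) (l 16704992))) (a (b (l 16667296) (l 16680272)) (l 16710144)))) (c (b (c (l 16688208) (l 16684920)) (b (l 16706512) (a (l 16696464) (l 16700840)))) (b (l 16700656) (a (l 16704480) (l 16709240))))))), by decide +kernel⟩

def k3_pp_022 : ∃ t, chk3 f_pp_022 t 9 6 1 = true :=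
  ⟨(b (a (b (c (a (l 16635888) (l 16640400)) (l 16653888)) (c (a (l 16665520) (l 16671536)) (b (l 16655616) (l 16680872)))) (c (b (l 16658328) (a (l 16677640) (l 16684232))) (b (l 16665600) (a (l 16652984) (l 16681440))))) (c (a (b (a (c (l 16695328) (l 16692536)) (c (l 16702296) (l 16700008))) (a (b (l 16714704) (a (l 16705168) (l 16709448))) (b (l 16722720) (l 16736728)))) (b (a (l 16718904) (c (l 16724400) (l 16715368))) (b (a (l 16730720) (l 16738992)) (a (l 16739880) (a (l 16751528) (l 16756048)))))) (a (a (b (l 16688136) (b (l 16688272) (l 16723208))) (b (c (l 16697664) (l 16695240)) (b (l 16718296) (l 16732696)))) (b (a (l 16725720) (l 16713248)) (a (b (l 16706312) (l 16742048)) (b (l 16736352) (l 16751424))))))), by decide +kernel⟩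

def k4_pp_022 : ∃ t, chk3 f_pp_022 t 16 14 1 = true :=
  ⟨(a (b (c (a (b (c (a (l 16681856) (l 16684232)) (l 16678784)) (c (a (l 16693360) (l 16695824)) (a (l 16689400) (l 16692000)))) (b (c (l 16687744) (l 16683768)) (c (a (l 16698272) (l 16700704)) (a (l 16694584) (l 16697160))))) (a (b (c (l 16674320) (l 16669624)) (a (l 16704072) (l 16706896))) (b (c (l 16679600) (l 16675216)) (c (l 16692080) (l 16688128))))) (b (a (a (l 6) (a (l 6) (b (c (l 16714032) (l 16696296)) (l 6)))) (c (c (a (l 16720664) (l 16723176)) (a (l 16706920) (l 16709568))) (a (c (l 16703528) (l 16699992)) (c (l 16706320) (l 16702936))))) (b (b (a (l 6) (a (l 6) (a (l 6) (c (l 16719616) (l 16713816))))) (l 6)) (l 6)))) (b (c (a (b (c (l 16692408) (l 16688696)) (c (a (l 16703128) (l 16705528)) (l 16700968))) (b (c (l 16697016) (l 16693560)) (c (l 16730064) (l 16706008)))) (a (b (l 16703760) (c (l 16697472) (l 16693824))) (b (l 16688080) (c (l 16702800) (l 16699448))))) (a (c (b (c (a (l 16715184) (l 16717656)) (a (l 16712192)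 (l 16714808))) (a (b (a (l 16730384) (l 16734304)) (l 6)) (c (b (l 16727000) (l 16733392)) (b (l 16724504) (l 16731152))))) (b (b (l 16716016) (a (l 16710848) (l 16713704))) (b (c (l 16720520) (l 16717776)) (a (l 6) (l 16738152))))) (b (a (c (c (l 16720120) (l 16717408)) (l 16728872)) (c (c (l 16722576) (l 16719984)) (l 16726424))) (b (c (c (a (l 16729512) (l 16732008)) (l 16728464)) (c (l 16726104) (l 16723672))) (c (c (a (l 16735928) (l 16738448)) (a (l 16733832) (l 16736488))) (a (l 16741056) (l 16743936)))))))), by decide +kernel⟩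

def k5_pp_022 : ∃ t, chk3 f_pp_022 t 17 14 1 = true :=
  ⟨(b (a (c (b (a (c (l 16701584) (l 16698384)) (l 16725616)) (a (c (l 16713824) (l 16710992)) (c (l 16718520) (l 16715928)))) (b (a (l 16693320) (l 16698496)) (a (c (l 16708056) (l 16705008)) (l 16732864)))) (a (c (b (l 16730232) (c (l 16723168) (l 16720824))) (b (l 16703616) (l 16738152))) (b (c (l 16734800) (l 16708688)) (c (c (l 16727792) (l 16725672)) (l 16743384))))) (a (b (c (a (c (b (l 16723072) (l 16729336)) (b (l 16720568) (l 16727064))) (c (b (l 16727864) (l 16734192)) (b (l 16725608) (l 16732176)))) (a (a (l 16739688) (l 16742456)) (c (l 16742432) (l 16745424)))) (b (c (a (c (l 16735712) (l 16733688)) (c (l 16740616) (l 16738856))) (a (c (l 16731616) (l 16729488)) (c (l 16737064) (l 16735232)))) (c (a (c (a (l 16740960) (l 16743448)) (a (l 16739128) (l 16741760))) (c (a (l 16745928) (l 16748392)) (l 16756144))) (a (c (l 16749128) (l 16747288)) (c (l 16754632) (l 16753096)))))) (b (b (c (a (l 16742096) (l 16746928)) (a (l 16727504)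 (l 16732848))) (c (a (c (l 16738992) (l 16737232)) (l 16753480)) (a (l 16745008) (l 16750416)))) (c (a (a (b (l 16753984) (l 16759368)) (b (l 16756456) (l 16760560))) (b (c (l 16760776) (l 16759512)) (c (a (l 16755712) (l 16768616)) (l 16763792)))) (a (b (l 16752160) (c (l 16760072) (l 16758832))) (b (l 16757632) (c (l 16765448) (l 16764496)))))))), by decide +kernel⟩

def k6_pp_022 : ∃ t, chk3 f_pp_022 t 16 15 1 = true :=
  ⟨(b (a (l 6) (a (l 6) (b (c (b (c (a (l 16742448) (l 16744992)) (a (l 16740632) (l 16743312))) (a (l 6) (c (c (l 16757224) (l 16756536)) (b (l 16748512) (l 16752016))))) (b (a (c (l 16738768) (l 16736856)) (c (l 16741600) (l 16739848))) (a (l 6) (c (l 16754112) (l 16752688))))) (l 6)))) (l 6)), by decide +kernel⟩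

def k7_pp_022 : ∃ t, chk3 f_pp_022 t 34 60 1 = true :=
  ⟨(b (c (a (c (a (l 16747528) (l 16750040)) (a (l 16745984) (l 16748632))) (c (a (l 16752544) (l 16765512)) (a (l 16751272) (l 16753888)))) (a (a (c (l 16744416) (l 16742816)) (c (l 16747216) (l 16745768))) (a (a (l 16759120) (l 16760544)) (l 16762016)))) (a (c (c (a (c (l 16759736) (l 16759128)) (c (l 16762240) (l 16761696))) (a (b (l 16751200) (l 16754720)) (l 16762184))) (a (c (l 16756952) (l 16755688)) (c (l 16759776) (l 16758664)))) (a (c (c (c (l 16764720) (l 16764248)) (l 16766152)) (c (l 16762576) (l 16761624))) (c (c (c (l 16767192) (l 16766784)) (l 16767480)) (c (l 16767984) (l 16767184)))))), by decide +kernel⟩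

def k8_pp_022 : ∃ t, chk3 f_pp_022 t 68 61 1 = true :=
  ⟨(b (c (a (b (c (l 16759248) (l 16758264)) (l 6)) (c (b (l 16761792) (l 16769136)) (b (l 16760952) (l 16769784)))) (b (a (c (l 16757272) (l 16756280)) (c (l 16760112) (l 16759272))) (a (l 6) (c (l 16769128) (l 16768480))))) (a (l 6) (a (l 6) (b (c (c (l 16771896) (l 16774080)) (c (l 16773656) (l 16773232))) (l 6))))), by decide +kernel⟩

def k9_pp_022 : ∃ t, chk3 f_pp_022 t 69 122 1 = true :=
  ⟨(c (b (c (a (l 16769568) (l 16772080)) (a (l 16768872) (l 16771520))) (c (a (l 16771672) (c (l 16773632) (l 16774096))) (a (l 16772464) (a (l 16774464) (l 16775792))))) (c (a (b (l 16768176) (l 16771960)) (b (l 16770984) (l 16773464))) (a (b (l 16767496) (l 16771464)) (b (l 16770456) (l 16773120))))), by decide +kernel⟩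

def k10_pp_022 : ∃ t, chk3 f_pp_022 t 69 246 1 = true :=
  ⟨(c (a (a (c (l 16773168) (l 16772800)) (c (l 16774440) (l 16774144))) (b (c (l 16775464) (l 16775232)) (a (c (l 16779184) (l 16779016)) (b (c (l 16780072) (l 16777560)) (c (a (l 16778536) (b (l 16779504) (c (l 34594622983) (l 34057752215)))) (a (l 16778616) (b (l 16779576) (c (l 34057752359) (l 33520881495))))))))) (a (c (l 16774136) (l 16774168)) (b (c (l 16775016) (l 16774824)) (a (c (l 16778856) (l 16778728)) (c (b (l 16777640) (a (l 16778680) (b (l 16779624) (c (l 33520881511) (l 32984010791))))) (a (l 16777872) (a (l 16778880) (b (l 16781328) (c (l 32447139895) (l 32447139879)))))))))), by decide +kernel⟩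

def k11_pp_022 : ∃ t, chk3 f_pp_022 t 138 247 1 = true :=
  ⟨(c (b (a (a (l 6) (l 16775984)) (c (l 16778344) (l 16778200))) (a (l 6) (b (a (c (l 16778248) (l 16778328)) (a (l 16779512) (b (l 16779608) (c (l 43184557559) (l 41573945079))))) (b (a (c (l 16779600) (l 16779656)) (b (a (c (l 16778752) (l 16779120)) (l 92039812823)) (c (l 104924713447) (l 105461584423)))) (a (l 6) (l 4)))))) (b (a (l 16775896) (c (l 16778064) (l 16777952))) (a (l 6) (b (a (c (l 16778384) (l 16778424)) (b (l 16779992) (a (l 16779856) (c (l 43721428919) (l 41037074519))))) (b (a (b (l 16779488) (l 6)) (a (c (l 56069460119) (l 56606331175)) (c (l 109756551927) (l 114051519207)))) (a (l 6) (l 4))))))), by decide +kernel⟩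

def k12_pp_022 : ∃ t, chk3 f_pp_022 t 139 247 1 = true :=
  ⟨(c (b (a (b (c (l 16778200) (l 16778288)) (a (c (l 16779288) (l 16779352)) (c (a (b (l 16779904) (c (l 59290684711) (l 59827555655))) (b (l 48016396119) (l 4))) (b (c (l 30299655703) (l 29762784839)) (a (c (l 60364426775) (l 60364426791)) (l 4)))))) (b (b (a (c (c (l 16778544) (l 16779888)) (l 16778624)) (a (c (l 78081167511) (l 81302393047)) (l 4))) (a (a (c (l 34057752199) (l 34057752375)) (c (l 88818586007) (l 92039811543))) (l 4))) (a (c (l 122641454551) (l 121030841943)) (l 4)))) (a (b (a (a (c (b (l 29225913719) (l 104924710775)) (b (l 16778984) (l 98482262519))) (b (c (l 85060489415) (l 87744844039)) (l 4))) (l 4)) (l 4)) (l 4))) (b (a (b (c (l 16778352) (l 16778392)) (a (c (l 16779392) (l 16779416)) (a (b (l 16780000) (c (l 60901298535) (l 61975040647))) (b (c (l 48553267399) (l 49090138439)) (l 4))))) (b (b (a (c (l 16779968) (l 16779984)) (a (c (l 66270007863) (l 67343749975)) (l 4))) (a (a (c (l 16779304) (l 16779472))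 (c (l 95797907943) (l 101166617031))) (l 4))) (a (c (l 121030842007) (l 121030840711)) (l 4)))) (a (b (a (a (c (b (l 16779016) (l 102240358919)) (b (l 16779016) (l 106535326199))) (b (c (l 91502940439) (l 95797907703)) (l 4))) (l 4)) (l 4)) (l 4)))), by decide +kernel⟩

def k13_pp_022 : ∃ t, chk3 f_pp_022 t 35 60 1 = true :=
  ⟨(b (a (a (c (c (l 16762744) (l 16766984)) (l 16765488)) (c (c (l 16765200) (l 16769568)) (c (l 16768712) (l 16767872)))) (a (c (c (l 16767648) (l 16772144)) (l 16769432)) (c (c (l 16771392) (l 16769464)) (c (l 16768880) (l 16773568))))) (a (c (c (a (c (l 16769648) (l 16769304)) (b (l 16775496) (l 16773648))) (b (a (l 16761776) (l 16774872)) (a (l 16770576) (l 16773192)))) (c (a (l 16769440) (b (l 16774264) (l 16772760))) (a (l 16770104) (l 16770384)))) (c (b (c (l 16774256) (a (l 16777456) (l 16774784))) (a (c (l 16776112) (l 16775784)) (b (a (l 16776960) (l 16779000)) (b (c (l 16780112) (l 16780272)) (a (l 16780528) (a (l 16781328) (b (c (l 16780888) (l 16780984)) (c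 (l 80765525895) (l 71101848359))))))))) (b (a (l 16771520) (l 16775616)) (a (c (l 16775496) (l 16775232)) (b (c (l 16777848) (l 16777976)) (c (a (l 16779856) (b (l 16781768) (a (l 16780144) (b (l 16781032) (l 72712461367))))) (a (l 16779944) (b (l 16781816) (a (l 16780176) (b (l 16781040) (l 73786203447)))))))))))), by decide +kernel⟩

def k14_pp_022 : ∃ t, chk3 f_pp_022 t 70 122 1 = true :=
  ⟨(c (b (a (c (l 16773272) (l 16774160)) (a (l 16775136) (a (l 16776584) (l 16777872)))) (a (a (b (l 16776368) (l 16776824)) (b (l 16777648) (a (l 16779096) (l 16779296)))) (b (a (l 16778920) (b (l 16779504) (b (a (l 16781424) (a (l 16779864) (l 16780552))) (a (l 16779688) (a (a (l 16780552) (l 44795173335)) (a (l 72712461223) (l 92039814167))))))) (a (c (b (l 16778840) (a (c (l 16778552) (l 16778600)) (b (c (l 45332041991) (l 45332042151)) (l 95797908679)))) (b (l 16778936) (a (c (l 16779952) (l 16779984)) (b (c (l 45332042279) (l 45868913239)) (l 98482263335))))) (b (a (b (c (l 29225914839) (l 29225914999))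 (a (b (l 44795173255) (l 81839266455)) (l 111367167847))) (c (l 110293426647) (l 110830292423))) (l 4)))))) (b (a (c (l 16773768) (l 16773392)) (a (l 16775712) (a (l 16776768) (l 16778784)))) (a (a (c (l 16776872) (l 16776648)) (b (l 16777208) (a (l 16779088) (l 16779640)))) (b (a (l 16779104) (c (a (l 16781128) (a (b (l 16781304) (l 16780368)) (b (l 16781992) (b (l 16778008) (l 77544298039))))) (a (l 16781176) (a (l 16779560) (b (l 16776784) (b (l 16778008) (l 79691781959))))))) (a (b (c (l 16779008) (a (l 16780992) (l 16779720))) (a (c (l 15267271511) (l 14730400807)) (b (c (c (l 45868913367) (l 45868913351)) (c (l 46405784407) (l 46942655431))) (c (l 103314101559) (l 108145939735))))) (b (a (c (b (l 29225915399) (a (l 59290686583) (l 112440904487))) (b (l 29225915575) (a (l 60901299607) (l 115662129911)))) (c (l 107072201335) (l 111904038215))) (l 4))))))), by decide +kernel⟩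

def k15_pp_022 : ∃ t, chk3 f_pp_022 t 71 244 1 = true :=
  ⟨(a (c (b (c (l 16778824) (l 16778992)) (a (c (l 16779624) (l 16779752)) (a (b (l 16779616) (c (b (l 37815850071) (l 87744845047)) (b (l 38352721479) (l 92039812439)))) (b (c (b (l 16780520) (l 58753816327)) (b (l 16780608) (l 61438171319))) (c (l 112440905511) (l 107609072679)))))) (b (c (l 16779120) (c (l 16779192) (l 16779232))) (a (c (l 16779840) (l 16779888)) (a (b (l 16781072) (c (b (l 38352721543) (l 96871651975)) (b (l 38889592791) (a (l 74859943783) (l 4))))) (b (c (b (l 16780664) (l 59827558935)) (b (l 16780672) (l 63585655431))) (c (l 111367169127) (l 115662136391))))))) (c (b (a (b (a (l 16781568) (c (l 16780280) (l 16780384))) (a (a (l 16780328) (c (l 41037075735) (l 41573947143))) (b (c (a (l 16779712) (l 92576683751)) (l 66270009799)) (l 110830297863)))) (b (b (a (a (l 40500206887) (l 73249333351)) (l 110293427207)) (c (l 107609072711) (l 102777234647))) (l 4))) (a (a (a (b (b (l 78081171319) (l 4)) (l 4)) (l 4)) (l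 4)) (l 4))) (b (a (b (c (l 16779776) (l 16779808)) (a (a (l 13656661607) (c (l 42647689367) (l 43721431351))) (c (b (l 67343751975) (l 111904034519)) (b (l 68417494071) (l 115125259943))))) (b (a (c (b (l 48553269703) (l 105998454071)) (b (l 50163882599) (l 110293421303))) (c (l 111367164391) (l 114588389831))) (l 4))) (a (a (a (b (c (l 102240362775) (l 106535330007)) (l 4)) (l 4)) (l 4)) (l 4))))), by decide +kernel⟩

def k16_pp_022 : ∃ t, chk3 f_pp_022 t 71 245 1 = true :=
  ⟨(a (a (b (c (b (a (c (c (l 22246592423) (l 16779592)) (l 22783464551)) (b (c (a (l 16779504) (l 80228652263)) (l 54458849207)) (c (l 102240362711) (l 106535330119)))) (a (a (b (a (l 58216946455) (l 82913008791)) (l 4)) (l 115662135863)) (l 4))) (b (a (c (l 22246594071) (c (l 16779728) (l 16779720))) (b (c (l 54995720311) (a (l 16780912) (l 87744845063))) (c (l 111367163111) (l 115662130359)))) (a (b (c (a (l 65733137767) (l 111904033799)) (a (l 66806879863) (l 115125259223))) (l 4)) (l 4)))) (l 4)) (l 4)) (l 4)), by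 decide +kernel⟩

def k17_pp_022 : ∃ t, chk3 f_pp_022 t 35 123 1 = true :=
  ⟨(a (b (a (c (b (a (c (l 16778920) (l 16779032)) (b (a (l 16780208) (a (c (l 16779912) (l 16779984)) (b (l 16780216) (c (l 63048782343) (l 64122524407))))) (b (a (c (l 16779512) (l 16778928)) (c (l 92576682983) (l 95261037623))) (a (a (c (l 44258299943) (l 44258300279)) (l 88818588599)) (l 4))))) (a (b (a (c (l 16778920) (c (l 16779632) (l 16779664))) (c (b (c (l 37815848711) (l 37815848871)) (a (l 82376135031) (l 4))) (b (c (l 37815849015) (l 37278978151)) (a (l 71101846103) (l 4))))) (a (b (c (a (l 38889590567) (l 93113553495)) (a (l 38889590839) (l 96334779047))) (c (l 114051517047) (l 112977775319))) (l 4))) (b (a (c (l 121567710503) (l 119420226983)) (l 4)) (l 4)))) (b (a (c (l 16779112) (l 16779168)) (b (a (l 16780336) (a (c (l 16780032) (l 16780048)) (b (l 16780296) (c (l 65196266407) (l 66806879271))))) (b (a (c (l 16778968) (l 16778976)) (a (c (l 77544297463) (l 78618039575)) (l 4))) (a (c (a (l 44795171399)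 (l 106535323991)) (a (l 45332042455) (l 110293420343))) (l 4))))) (a (a (b (a (l 16779376) (c (l 16780032) (l 16780048))) (b (c (a (l 38889590967) (l 101166617271)) (a (l 39426462039) (l 105998455447))) (c (l 110293423431) (l 114588390711)))) (b (b (c (c (l 37278978183) (l 37278978359)) (c (l 37278978359) (l 37278978343))) (a (c (l 71638717207) (l 72712459319)) (l 4))) (l 4))) (b (a (c (l 118883356135) (l 119420227063)) (l 4)) (l 4))))) (a (a (b (b (c (a (b (c (l 51237622103) (l 50163880535)) (l 111904038727)) (b (l 92039814295) (l 4))) (b (c (a (l 53385106183) (l 111367162423)) (a (l 53921977223) (l 115662129671))) (c (l 110293426487) (l 114051517607)))) (l 4)) (l 4)) (l 4)) (l 4))) (l 4)) (l 4)), by decide +kernel⟩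

def k18_pp_022 : ∃ t, chk3 f_pp_022 t 17 31 1 = true :=
  ⟨(b (a (b (a (l 6) (b (b (a (a (l 6) (a (l 6) (l 4))) (l 4)) (l 4)) (l 4))) (l 4)) (l 4)) (l 4)), by decide +kernel⟩

def k19_pp_022 : ∃ t, chk3 f_pp_022 t 18 28 1 = true :=
  ⟨(c (a (b (c (l 16732128) (l 16740432)) (a (c (l 16753344) (l 16730472)) (c (l 16757880) (l 16756200)))) (b (a (l 16748248) (l 16752648)) (a (c (l 16762376) (l 16760904)) (c (l 16766832) (l 16765576))))) (a (b (c (l 16738232) (l 16736008)) (a (l 16748560) (l 16753688))) (b (a (l 16744568) (l 16749456)) (a (l 16758768) (l 16763800))))), by decide +kernel⟩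

def k20_pp_022 : ∃ t, chk3 f_pp_022 t 36 29 1 = true :=
  ⟨(b (b (c (a (l 16751712) (l 16766944)) (a (l 16759104) (l 16764328))) (c (a (l 16758328) (l 16763128)) (a (l 16755760) (l 16761048)))) (b (c (a (c (l 16765552) (l 16764528)) (c (l 16770288) (l 16769488))) (a (l 16763032) (l 16768376))) (a (c (c (a (l 16771024) (l 16773416)) (l 16769504)) (c (l 16765520) (l 16764856))) (a (c (l 16772232) (l 16771864)) (c (b (l 16776224) (l 16779760)) (b (l 16775288) (l 16780304))))))), by decide +kernel⟩

def k21_pp_022 : ∃ t, chk3 f_pp_022 t 37 58 1 = true :=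
  ⟨(b (c (a (l 16771640) (l 16776296)) (l 16765480)) (c (a (l 16767224) (c (l 16772920) (l 16782752))) (a (l 16766280) (l 16776688)))), by decide +kernel⟩

def k22_pp_022 : ∃ t, chk3 f_pp_022 t 37 118 1 = true :=
  ⟨(a (c (b (l 16772976) (l 16776392)) (c (l 16776504) (l 16776056))) (b (c (c (l 16779336) (l 16779768)) (c (l 16780104) (l 16780344))) (a (c (l 16783336) (l 16783872)) (b (c (c (l 16787136) (l 16782216)) (c (l 16782432) (l 16782544))) (a (c (c (l 16783776) (l 16784048)) (c (l 16784208) (l 16784280))) (c (b (c (l 48553274727) (l 50700758887)) (a (l 92576694375) (l 105461597927))) (c (b (l 53385113847) (l 107609070295)) (b (c (l 57680079895) (l 60901305047)) (l 112440908343))))))))), by decide +kernel⟩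

def k23_pp_022 : ∃ t, chk3 f_pp_022 t 37 119 1 = true :=
  ⟨(a (c (b (a (l 16778696) (c (l 16784184) (l 16784496))) (b (a (l 16783728) (a (c (l 16782576) (l 16782816)) (b (c (l 16781824) (l 16782024)) (a (c (l 58216949239) (l 60901304247)) (l 108682819303))))) (c (a (a (l 16785544) (l 16781800)) (a (b (c (l 46942659815) (l 47479530903)) (l 96334785303)) (l 105998464023))) (a (a (l 16785808) (l 16782024)) (a (b (c (l 48016402119) (l 49090144119)) (l 101166626327)) (l 109219689767)))))) (b (a (l 16779304) (a (l 16783432) (l 16780936))) (b (a (l 16784176) (a (l 16783024) (b (c (l 35668371719) (l 37815855399)) (a (c (l 64122530023) (l 71101851607)) (c (l 115662133383) (l 118883358711)))))) (a (a (l 16780816) (c (l 16782160) (l 19025372951))) (a (a (b (l 33520889639) (b (l 85060498087) (l 116199011623))) (b (c (l 77544303159) (l 81302398935)) (l 4))) (a (c (l 113514651047) (l 116735876423)) (l 4))))))) (b (a (c (a (a (c (l 16782464) (l 16782736)) (b (l 16787600) (b (l 16784744) (a (l 84523627751)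 (l 109756563559))))) (b (c (l 29225921031) (c (l 29225920423) (l 29762791527))) (b (a (l 74323080647) (l 108145946503)) (l 106535337463)))) (b (a (l 16782056) (a (l 16784056) (b (l 16784576) (a (l 59290693607) (l 90429208599))))) (b (a (c (l 16779104) (l 16779152)) (a (c (l 79691786135) (l 89892332183)) (c (l 111367166823) (l 114051521223)))) (c (a (a (l 16779864) (l 89892335367)) (l 110293426135)) (a (a (l 16779856) (l 94724172935)) (l 112977780567)))))) (a (b (c (b (c (l 62511919239) (l 64659403479)) (a (l 109219690647) (l 4))) (c (b (a (l 16780104) (l 114588391687)) (l 115125263703)) (b (a (l 16779968) (l 119420229735)) (l 118346489015)))) (l 4)) (l 4))) (b (b (a (a (a (c (l 100629755287) (b (l 92039820631) (l 111367171495))) (l 4)) (l 4)) (l 4)) (l 4)) (l 4)))), by decide +kernel⟩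

def k24_pp_022 : ∃ t, chk3 f_pp_022 t 19 28 1 = true :=
  ⟨(a (b (c (a (l 16757040) (l 16761408)) (l 16752712)) (c (b (l 16761680) (a (l 16774144) (l 16778680))) (a (l 16763536) (l 16776320)))) (b (b (c (l 16764504) (l 16762592)) (c (l 16772888) (l 16771488))) (b (c (c (l 16781624) (l 16782376)) (a (l 16777712) (l 16788608))) (a (c (l 16783488) (l 16784464)) (b (a (c (l 16794024) (l 16794944)) (c (l 16788648) (l 16789472))) (a (c (c (l 16789352) (l 16789872)) (c (l 16784976) (l 16785144))) (b (c (c (l 46405797735) (a (l 16781552) (l 68954375047))) (a (l 16781896) (c (l 77007436439) (l 82913013383)))) (c (a (b (l 76470572599) (l 110830309719)) (l 110293440583)) (c (a (l 95797920871) (l 111367172183)) (a (l 101166628471) (l 114051526487))))))))))), by decide +kernel⟩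

def k25_pp_022 : ∃ t, chk3 f_pp_022 t 38 58 1 = true :=
  ⟨(b (c (a (l 16773056) (c (l 16784480) (l 16779800))) (a (l 16779792) (c (l 16785464) (l 16785760)))) (a (b (c (l 16777832) (l 16778640)) (a (c (l 16781488) (l 16782160)) (c (c (l 16781664) (l 16782048)) (c (l 16782320) (l 16783776))))) (b (a (c (c (l 16786040) (l 16786480)) (l 16786896)) (b (c (c (l 16784712) (l 16785096)) (a (l 16778896) (c (l 16786464) (l 44795181991)))) (a (c (c (l 44795181431) (l 47479536535)) (a (l 16786248) (c (l 68954372647) (l 73249339287)))) (c (c (l 99019148167) (l 105461588935)) (c (l 112440913463) (l 117272751447)))))) (a (a (c (b (l 16784392) (b (c (l 16783472) (l 55532598583)) (l 98482276231))) (b (l 16784840) (a (c (l 65196275655) (l 70028113367)) (c (l 105998458503) (l 114588398151))))) (a (b (c (c (l 16780784) (l 16781040)) (c (l 16781160) (l 16783752))) (c (l 109219696007) (c (l 111367169303) (l 114588394567)))) (b (c (b (l 16783504) (l 111904049447)) (c (l 82913014599) (a (l 86671113719) (l 115125263783))))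 (l 4)))) (a (b (b (c (a (l 93650437031) (l 105998460279)) (c (l 117272748695) (l 121030844855))) (l 4)) (l 4)) (l 4)))))), by decide +kernel⟩

def k26_pp_022 : ∃ t, chk3 f_pp_022 t 39 58 1 = true :=
  ⟨(b (a (b (b (c (c (l 16785720) (l 16786256)) (l 16786768)) (a (c (l 16786344) (l 16787064)) (a (c (l 16779936) (l 16780496)) (c (c (l 50700763351) (l 54458860135)) (c (l 58753827703) (b (l 16782000) (l 93113565831))))))) (a (b (c (l 16784200) (l 16784784)) (c (a (l 16785840) (b (l 61438182807) (a (l 90429212503) (l 107072202551)))) (c (a (l 16780976) (b (l 74859950007) (l 117809620039))) (a (l 16781040) (b (l 88818591719) (l 122104587095)))))) (c (c (b (a (l 59827569335) (l 110293428711)) (l 107609086679)) (b (a (l 63048795575) (l 113514654503)) (a (l 111904042263) (l 4)))) (c (b (a (b (l 16782072) (l 94187307719)) (l 116735880007)) (a (l 111367171383) (l 4))) (b (a (b (l 16781736) (l 116199006711)) (l 120493976119)) (a (l 114051525671) (l 4))))))) (b (b (a (c (a (c (l 16781784) (l 16782136))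 (b (l 85060506535) (l 111367181335))) (a (c (l 16782296) (l 16782272)) (c (l 111367172647) (a (l 115662136455) (l 115125266983))))) (a (c (l 105998474183) (c (l 110293431207) (l 112977785495))) (l 4))) (a (a (c (b (l 105461599895) (l 106535343559)) (c (l 116735879543) (l 121567717479))) (l 4)) (l 4))) (l 4))) (a (b (b (a (c (b (a (c (l 71101855239) (l 79691793783)) (l 105998472167)) (c (l 108145955783) (l 112440912919))) (c (a (b (l 84523631591) (l 116735878679)) (l 110293430055)) (a (b (l 90966081863) (l 115125265703)) (l 112977784375)))) (l 4)) (l 4)) (l 4)) (l 4))), by decide +kernel⟩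

def k27_pp_022 : ∃ t, chk3 f_pp_022 t 19 59 1 = true :=
  ⟨(a (b (a (b (a (a (c (c (l 16786416) (l 16786768)) (l 16787104)) (a (c (c (l 16783264) (l 16783592)) (c (l 16783800) (l 16783896))) (b (c (l 16788456) (l 16778416)) (c (c (l 56069468439) (l 58753823767)) (b (l 16783112) (c (l 96334786359) (l 105461591207))))))) (b (a (c (c (l 16782400) (l 16782688)) (c (l 34594632631) (c (l 16782888) (l 16782880)))) (c (b (c (l 65733146151) (l 68417501255)) (a (l 111367177927) (l 4))) (c (b (l 72712468391) (l 116199006535)) (b (l 81302401351) (l 119420231799))))) (a (c (b (a (l 79691792551) (l 109756565463)) (l 107609080247)) (c (b (l 103314103239) (l 110830297991)) (b (l 108145941271) (l 113514652359)))) (l 4)))) (a (a (a (b (c (c (l 16782592) (l 16782816)) (c (l 43184566071) (l 46405791543))) (a (c (l 108145950119) (b (l 112977784839) (l 4))) (l 4))) (b (c (b (l 53385115399) (l 110293435559)) (b (c (l 16780360) (l 16780224)) (b (l 91502952775) (l 110293425623)))) (l 4))) (b (a (b (c (l 102240371591)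 (b (l 93650434711) (l 112440914263))) (l 4)) (l 4)) (l 4))) (l 4))) (b (b (b (a (a (a (c (l 105461588775) (l 110830303175)) (l 4)) (l 4)) (l 4)) (l 4)) (l 4)) (l 4))) (l 4)) (l 4)), by decide +kernel⟩

def k28_pp_022 : ∃ t, chk3 f_pp_022 t 36 120 1 = true :=
  ⟨(a (c (a (c (l 16773152) (l 16773320)) (b (l 16772992) (a (l 16778456) (l 16780856)))) (b (c (l 16771032) (l 16770608)) (a (l 16773248) (c (l 16779768) (l 16779912))))) (b (c (a (b (l 16779816) (l 16779960)) (b (l 16782216) (a (l 16781576) (a (c (l 23857209207) (l 24930951399)) (b (l 30836533655) (c (l 93650429623) (l 99556004583))))))) (a (c (l 16781264) (l 16781440)) (b (l 16782592) (c (a (l 16781824) (b (l 16781088) (a (l 16781896) (l 104387842807)))) (a (l 16781904) (b (l 16781128) (a (l 44795175415) (l 108682809991)))))))) (a (c (b (c (l 16780648) (l 16780856)) (b (a (l 16781912) (c (a (l 16781248) (l 85597365287)) (a (l 16781392) (l 90966074551)))) (b (a (l 16781872) (c (l 96334784231) (l 100629751687))) (a (c (l 35131498039) (l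 35668369383)) (l 4))))) (b (a (l 16779688) (c (l 16782376) (l 16782440))) (b (a (l 16782160) (a (c (l 16781464) (l 16781480)) (c (b (l 68417495207) (l 114588390055)) (l 100092876055)))) (a (a (l 16783112) (c (l 43184562279) (l 45332046151))) (a (c (l 105461584343) (l 109756551543)) (l 4)))))) (b (c (a (b (a (l 16783408) (c (l 50163884247) (l 51237626503))) (a (b (l 51774498807) (l 96334783863)) (l 114588398647))) (b (c (l 103314107191) (l 108145945591)) (l 4))) (a (c (b (c (l 35131498775) (l 35668369815)) (a (l 67343754615) (l 113514649047))) (a (b (l 16778376) (l 68954367431)) (b (l 55532594183) (l 116735874423)))) (b (c (l 114051520423) (l 117809616711)) (l 4)))) (l 4))))), by decide +kernel⟩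

def k29_pp_022 : ∃ t, chk3 f_pp_022 t 72 242 1 = true :=
  ⟨(c (a (b (l 16777896) (c (l 16779680) (l 16779864))) (b (a (l 16780560) (b (l 16781208) (b (c (l 31373401223) (l 31910272567)) (a (l 33520886343) (l 99556009063))))) (a (b (a (l 16782432) (c (l 32447142487) (l 33520884551))) (b (a (l 28152176823) (l 88818591991)) (a (c (l 61975042839) (l 63585656039)) (l 4)))) (b (a (c (l 87744848695) (b (l 68954365447) (l 109756551575))) (l 4)) (l 4))))) (b (a (l 16779336) (a (l 16780832) (a (c (l 16780216) (l 16780256)) (b (l 16782080) (c (b (l 56069463415) (l 112440905783)) (b (l 58753818071) (l 116199002071))))))) (a (c (l 16780000) (l 16780088)) (a (b (c (c (l 21709724151) (l 21709724359)) (c (l 21709724391) (l 21709724567))) (c (a (c (l 45332044407) (l 46405786407)) (l 107609067767)) (a (c (l 46942657479) (l 48016399255)) (l 111904034983)))) (a (b (c (b (l 71101849463) (l 112977777063)) (b (l 74323075015) (l 116199002455))) (l 4)) (l 4)))))), by decide +kernel⟩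

def k30_pp_022 : ∃ t, chk3 f_pp_022 t 72 243 1 = true :=
  ⟨(a (c (b (b (a (l 16780960) (c (a (l 16780376) (b (l 16779936) (l 90966073799))) (a (l 16780496) (b (l 16780032) (l 96334777799))))) (a (c (a (l 16781912) (l 16780672)) (l 16341014839)) (a (b (c (l 57143204359) (l 57680075559)) (l 111904039847)) (l 4)))) (a (b (b (a (l 16780656) (c (l 86134235303) (l 76470557847))) (a (c (l 51774494855) (l 52848237127)) (l 4))) (c (l 112977782583) (l 112440911847))) (l 4))) (b (b (a (l 16781184) (b (c (l 24930950167) (l 24930950375)) (a (l 24394080919) (c (l 83986751095) (l 87207977383))))) (a (c (l 15804144423) (c (l 16780224) (l 16780224))) (a (a (c (l 65196268903) (l 67343752663)) (c (l 108145938167) (l 112440905399))) (l 4)))) (a (b (c (a (c (l 37278980055) (l 37278980087)) (b (l 77544299863) (l 4))) (a (c (l 37815851159) (l 38352722215)) (b (l 79691783767) (l 4)))) (a (c (l 110293427415) (l 114588389399)) (l 4))) (l 4)))) (a (a (a (b (b (c (l 114051523863) (c (l 113514647783) (l 116735873175)))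 (l 4)) (l 4)) (l 4)) (l 4)) (l 4))), by decide +kernel⟩

def k31_pp_022 : ∃ t, chk3 f_pp_022 t 73 121 1 = true :=
  ⟨(b (b (a (a (a (c (b (c (l 52311367511) (l 53385109655)) (c (l 105461584903) (l 109219681447))) (b (c (c (l 57143205255) (l 56069463431)) (b (l 16778960) (l 83986751063))) (c (l 111904036055) (l 115125261447)))) (a (b (c (l 104387847671) (c (l 115125260727) (l 118346486103))) (l 4)) (l 4))) (l 4)) (l 4)) (l 4)) (l 4)), by decide +kernel⟩

def k32_pp_022 : ∃ t, chk3 f_pp_022 t 37 60 1 = true :=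
  ⟨(b (a (b (a (c (b (b (a (l 16782960) (a (c (l 48553271847) (l 50163885095)) (c (l 101703488759) (l 109219681687)))) (a (a (l 16783920) (a (l 52848241335) (l 88818593943))) (c (l 106535333335) (l 110293424663)))) (a (b (a (a (l 68954369047) (l 100629751719)) (l 106535332983)) (l 4)) (l 4))) (b (b (a (l 16783232) (a (c (l 52848239991) (l 56606336279)) (c (l 113514649015) (l 118346487095)))) (c (a (c (l 42110821511) (l 43184563447)) (l 114051521095)) (a (a (l 16778888) (l 68954367735)) (l 117272746471)))) (a (b (a (c (l 76470560775) (l 79154915399)) (c (l 110293424231) (l 112977778679))) (l 4)) (l 4)))) (l 4)) (l 4)) (l 4)) (l 4)), by decide +kernel⟩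

def k33_pp_022 : ∃ t, chk3 f_pp_022 t 18 61 1 = true :=
  ⟨(l 4), by decide +kernel⟩

def k34_pp_022 : ∃ t, chk3 f_pp_022 t 19 30 1 = true :=
  ⟨(l 4), by decide +kernel⟩

def k35_pp_022 : ∃ t, chk3 f_pp_022 t 9 31 1 = true :=
  ⟨(l 4), by decide +kernel⟩

def k36_pp_022 : ∃ t, chk3 f_pp_022 t 10 6 1 = true :=
  ⟨(b (b (a (c (a (l 16762936) (l 16809736)) (l 16684256)) (c (l 16825480) (l 16720560))) (a (c (a (l 16732128) (l 16779072)) (l 16719920)) (c (a (l 16805960) (l 16818432)) (a (l 16735592) (l 16750552))))) (a (c (b (a (b (l 16715736) (l 16734184)) (b (l 16761896) (l 16755072))) (b (a (l 16749680) (l 16782680)) (a (b (l 16760992) (l 16768344)) (c (l 16783368) (l 16790072))))) (b (a (l 16744744) (l 16746344)) (b (a (l 16747400) (l 16759928)) (a (l 16771040) (a (l 16776648) (l 16785392)))))) (b (b (c (a (l 16786992) (l 16797160)) (l 16766000)) (c (a (l 16778184) (a (l 16785272) (l 16786288))) (a (l 16757384) (l 16793032)))) (b (a (c (l 16781888) (l 16786888)) (b (c (a (l 16779952) (l 16779872))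 (l 16786616)) (a (c (l 16783184) (l 16788208)) (c (a (c (l 49090153223) (l 49627022631)) (b (l 60901314087) (l 128547040199))) (b (l 46942672551) (a (l 75396831095) (l 133915747975))))))) (a (c (b (a (l 16793360) (c (l 26004697735) (l 27078442871))) (a (b (l 16785552) (a (l 16787248) (l 66806895271))) (b (a (l 54995732647) (l 123178347959)) (a (l 130694542935) (l 4))))) (b (a (l 16788288) (c (l 28152186887) (b (l 16794264) (l 37815864503)))) (a (b (l 16786048) (a (l 16789400) (l 73786223239))) (b (a (l 61438188983) (l 125325834167)) (a (l 126399578039) (l 4)))))) (b (a (c (b (a (l 16787912) (b (l 64122535159) (l 125862680119))) (a (l 114588411079) (l 4))) (b (a (l 16788944) (l 108682831719)) (a (l 117272768407) (l 4)))) (l 4)) (l 4))))))), by decide +kernel⟩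

def k37_pp_022 : ∃ t, chk3 f_pp_022 t 11 12 1 = true :=
  ⟨(a (c (b (a (l 16856416) (l 16853336)) (a (l 16799544) (b (l 16824584) (l 16806264)))) (b (a (l 16739776) (l 16763672)) (a (l 16762752) (b (l 16761360) (l 16784120))))) (b (c (a (l 16844936) (l 16811856)) (a (l 16777728) (l 16784336))) (a (c (b (l 16814704) (a (l 16798400) (l 16792240))) (b (l 16772784) (b (l 16793264) (l 16793984)))) (b (c (a (l 16805064) (l 16798168)) (l 16798192)) (b (c (a (l 16790584) (b (l 16788048) (a (l 16788720) (l 92039852039)))) (a (l 16777232) (b (l 16783264) (a (l 16784216) (l 89892366679))))) (b (a (c (a (l 16786016) (l 67343788135)) (l 16793072)) (a (c (l 100629783751) (l 94187303335)) (l 4))) (a (c (a (l 72712497303) (l 107609104359)) (a (l 16788480) (l 103314108391))) (l 4)))))))), by decide +kernel⟩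

def k38_pp_022 : ∃ t, chk3 f_pp_022 t 11 13 1 = true :=
  ⟨(a (b (b (c (a (l 16796800) (a (l 16791624) (c (l 22246615287) (l 16787760)))) (a (l 16773328) (b (l 16787736) (a (l 16767648) (l 16786576))))) (c (a (b (l 16786600) (a (l 16782240) (b (l 16790792) (b (l 44795190311) (l 65196291687))))) (b (a (c (l 35131516503) (l 34594643015)) (a (b (l 49627031223) (l 104924743655)) (l 105461623975))) (a (b (a (l 69491257623) (l 117272775543)) (l 133915758743)) (l 4)))) (a (b (l 16783984) (a (l 16788240) (b (l 16794568) (l 56606353111)))) (b (a (c (l 34594640759) (l 16785680)) (b (a (l 16790024) (l 115662135463)) (l 126936430103))) (a (b (a (l 69491252103) (l 132305136199)) (l 132305142055)) (l 4)))))) (b (a (b (a (b (c (l 33520896855) (l 16784208)) (a (c (l 50163894791) (l 16787608)) (c (l 111367189495) (l 121567713543)))) (b (a (c (l 101703512055) (l 111904056679)) (l 4)) (l 4))) (a (b (a (c (l 121030846119) (l 131768262359)) (l 4)) (l 4)) (l 4))) (l 4)) (l 4))) (b (b (a (b (a (c (l 16785272) (l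 16797352)) (b (c (a (l 16784464) (l 77007463991)) (l 46942681655)) (a (c (l 83986785239) (l 85597394567)) (c (l 117809630551) (l 126399558631))))) (a (b (a (c (l 16783552) (l 16779928)) (c (l 87744879959) (l 84523642567))) (a (c (l 85597390087) (l 94724190039)) (l 4))) (b (a (c (l 121567727479) (l 129620785111)) (l 4)) (l 4)))) (a (a (b (c (l 116735913671) (l 117809648503)) (l 4)) (l 4)) (l 4))) (l 4)) (l 4))), by decide +kernel⟩

def k39_pp_022 : ∃ t, chk3 f_pp_022 t 20 56 1 = true :=
  ⟨(a (b (c (l 16778160) (l 16779776)) (a (c (l 16785184) (l 16786576)) (b (c (l 16791440) (l 16792960)) (a (c (l 16795080) (l 16796440)) (c (l 16789056) (l 16790352)))))) (b (a (c (l 16791608) (l 16782928)) (b (a (l 16788392) (c (l 16786160) (l 40500221335))) (c (a (b (l 16788936) (l 58753830583)) (b (l 77544313783) (l 121030846199))) (a (c (l 46942669799) (l 49627025927)) (b (l 93650448471) (l 118883385191)))))) (a (c (b (a (l 16787632) (b (l 16790352) (l 71101863911))) (a (b (l 51237638055) (l 101703507543))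 (l 122104605911))) (b (a (l 16789152) (b (l 16786464) (a (l 76470574631) (l 119957114135)))) (a (b (c (l 16786936) (l 58216958967)) (a (l 88818604967) (l 112440912695))) (b (a (l 118346502295) (l 4)) (l 4))))) (b (a (c (l 115662152855) (b (l 112977797895) (l 4))) (l 4)) (l 4))))), by decide +kernel⟩

def k40_pp_022 : ∃ t, chk3 f_pp_022 t 20 57 1 = true :=
  ⟨(a (b (a (b (c (c (l 16793720) (l 16794504)) (l 16795320)) (a (c (l 16787320) (l 16788320)) (a (c (l 16785448) (l 16786328)) (b (c (l 16780896) (l 16781736)) (c (l 81839283143) (c (l 86671118039) (l 106535330615))))))) (b (a (c (c (l 16784760) (l 16785512)) (c (l 16786688) (l 36205251687))) (b (c (a (l 16786672) (l 96871674391)) (c (l 67880637255) (l 71638734119))) (c (l 113514669655) (c (l 117272751079) (l 120493976599))))) (a (c (b (a (l 68954378295) (l 110293438647)) (a (l 109756568711) (l 4))) (c (b (a (l 78618048023) (l 116735879767)) (l 111367172919)) (b (a (l 84523634311) (l 114588396087)) (l 114588398359)))) (l 4)))) (a (b (b (a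 (c (c (l 16780840) (l 16781392)) (c (l 16781736) (l 16787120))) (c (a (l 96871664967) (l 105998473271)) (a (b (l 92576699495) (l 112977793799)) (b (l 111367171527) (l 4))))) (a (c (a (l 58216960391) (l 105998471415)) (a (c (l 64122536823) (l 73786210903)) (c (l 118346492311) (l 121567717623)))) (l 4))) (b (b (a (a (c (l 112440922471) (a (l 97408535175) (l 110830300247))) (l 4)) (l 4)) (l 4)) (l 4))) (l 4))) (b (a (a (b (c (l 121030866119) (c (l 111367185479) (l 114588400679))) (l 4)) (l 4)) (l 4)) (l 4))), by decide +kernel⟩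

def k41_pp_022 : ∃ t, chk3 f_pp_022 t 20 29 1 = true :=
  ⟨(l 4), by decide +kernel⟩

def k42_pp_022 : ∃ t, chk3 f_pp_022 t 21 14 1 = true :=
  ⟨(b (b (a (b (c (a (b (a (b (l 64659409607) (l 118346510471)) (l 129620803271)) (l 4)) (l 4)) (a (b (a (b (l 80765544951) (l 120493975015)) (l 125325838215)) (l 4)) (l 4))) (l 4)) (l 4)) (l 4)) (l 4)), by decide +kernel⟩

def k43_pp_022 : ∃ t, chk3 f_pp_022 t 10 15 1 = true :=
  ⟨(l 4), by decide +kernel⟩

def k44_pp_022 : ∃ t, chk3 f_pp_022 t 11 7 1 = true :=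
  ⟨(l 4), by decide +kernel⟩

def k45_pp_022 : ∃ t, chk3 f_pp_022 t 6 4 1 = true :=
  ⟨(a (b (c (l 17109232) (a (l 16958736) (l 16970872))) (c (a (l 17047184) (l 17021464)) (a (l 16911160) (l 16916464)))) (c (b (a (l 17068472) (l 17035448)) (a (l 16990096) (l 16956200))) (a (b (l 16968288) (l 16908784)) (b (l 16955632) (l 29091885335))))), by decide +kernel⟩

def k46_pp_022 : ∃ t, chk3 f_pp_022 t 12 5 1 = true :=
  ⟨(b (a (c (l 16964080) (l 16860384)) (c (b (l 16957624) (l 16912512)) (b (l 16873840) (l 16845600)))) (a (b (c (l 16898872) (l 16824384)) (c (a (l 16862168) (l 16847000)) (a (l 16802728) (l 16801784)))) (b (c (a (l 16875720) (l 16859352)) (a (l 16821488) (l 16816224))) (b (a (l 16822864) (c (l 16826456) (l 16798312))) (a (c (l 16820304) (l 16792888)) (a (c (l 16809760) (l 16790384)) (a (c (l 16806008) (l 16793656)) (b (l 16799576) (c (l 61975089063) (l 62511951399)))))))))), by decide +kernel⟩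

def k47_pp_022 : ∃ t, chk3 f_pp_022 t 13 5 1 = true :=
  ⟨(b (c (a (b (l 16924888) (a (l 16887696) (l 16871128))) (b (l 16891408) (a (l 16855320) (b (l 16851408) (l 62914666695))))) (a (b (l 16862880) (a (l 16836704) (l 16828992))) (b (l 44124207799) (a (l 16820992) (b (l 16820224) (l 62377777447)))))) (a (b (a (c (l 16843168) (l 16809648)) (a (c (l 16831920) (l 16804936)) (b (l 16821400) (c (l 16817648) (l 16811208))))) (a (c (b (a (l 16816032) (b (l 16814928) (l 16809280))) (b (a (l 52848296119) (b (l 75396875143) (l 99556063719))) (a (b (l 83449933591) (l 105998507239)) (l 4)))) (b (a (l 16795200) (b (l 16796168) (l 16805912))) (b (a (l 51774542039) (b (l 78618083991) (l 101703530727))) (a (b (l 87208014183) (l 109219717383)) (l 4))))) (c (b (b (a (l 16812120) (b (l 64122594103) (l 85060561415))) (a (b (l 68954423719) (l 92576748183)) (l 4))) (l 4)) (b (b (a (l 16802224) (b (l 67343801111) (l 86134284823))) (a (b (l 74323120887) (l 94187343447)) (l 4))) (l 4))))) (b (a (b (c (a (l 16828848)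 (l 16824152)) (a (l 16805416) (l 16825992))) (a (b (c (l 16818168) (l 16805312)) (c (b (l 60901375207) (l 77007503543)) (b (l 65196319783) (l 80765580519)))) (a (b (c (l 59290764311) (l 64122580215)) (c (l 93650504343) (l 91502979623))) (b (c (l 69491317863) (b (l 67880678743) (l 82913069783))) (l 4))))) (b (a (b (c (l 16824552) (l 16808384)) (a (c (l 60364500375) (l 62511968711)) (c (l 66806955799) (b (l 65733199399) (l 79691849207))))) (a (b (c (l 16824992) (l 117138587479)) (c (l 80765594423) (c (l 82376211255) (l 83986813015)))) (l 2))) (b (a (b (a (c (l 78081255351) (l 81302459511)) (l 4)) (l 4)) (l 4)) (l 4)))) (a (b (a (a (b (c (l 99556077591) (l 100629800375)) (l 4)) (l 4)) (l 4)) (l 4)) (l 4))))), by decide +kernel⟩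

def k48_pp_022 : ∃ t, chk3 f_pp_022 t 7 2 1 = true :=
  ⟨(b (l 2) (b (l 2) (b (l 2) (l 4)))), by decide +kernel⟩

def k49_pp_022 : ∃ t, chk3 f_pp_022 t 3 3 1 = true :=
  ⟨(a (b (a (b (a (b (a (c (b (l 16829400) (l 16807888)) (b (l 16789376) (l 16803240))) (b (c (l 16814112) (l 16787520)) (a (b (l 16792424) (c (l 16793920) (l 16792400))) (b (c (l 16796672) (l 16788104)) (c (b (a (l 16796024) (l 80228696631)) (a (l 88281748263) (l 114051550535))) (b (a (l 16790112) (l 83986792567)) (a (l 88818629783) (l 119957118583)))))))) (a (a (b (b (l 16797888) (c (b (l 16790128) (a (l 16790048) (l 80228692663))) (c (l 37815872279) (l 37815877415)))) (c (b (b (a (l 85060532663) (l 116199024871)) (l 4)) (l 4)) (b (b (l 90429251959) (l 4)) (l 4)))) (b (b (c (c (l 44795188215) (l 44795183271)) (c (l 44795178183) (l 45332043975))) (c (b (a (l 73249371767) (l 105998479895)) (l 116735899255)) (b (a (l 75396853671) (l 112977791335)) (l 124252082007)))) (l 4))) (b (a (b (c (b (a (l 16794320) (l 94724196631)) (l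 109219728999)) (b (a (l 16788816) (l 100092894247)) (l 115662169015))) (l 4)) (l 4)) (l 4)))) (b (a (c (b (b (l 16805160) (a (l 16799552) (b (l 16800600) (a (l 16800504) (l 95261079927))))) (b (a (b (l 57680101911) (a (l 75396859527) (l 104387878903))) (b (l 107609106359) (l 4))) (a (l 118883394167) (l 4)))) (b (a (l 16806880) (b (l 16790104) (b (l 16793848) (a (l 16793896) (l 98482291735))))) (b (a (b (l 58753833975) (a (l 72712473447) (l 109756575319))) (l 119420268711)) (a (l 125325853047) (l 4))))) (c (b (b (a (b (l 16802416) (l 72712506935)) (b (l 91502991767) (l 4))) (a (b (l 100092920359) (l 4)) (l 4))) (l 4)) (b (b (a (b (l 16795264) (l 74859963047)) (b (l 95797944055) (l 4))) (a (b (l 104387873335) (l 4)) (l 4))) (l 4)))) (l 4))) (l 4)) (b (l 4) (l 4))) (l 4)) (l 4)), by decide +kernel⟩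

theorem s50_pp_022 : ∃ t, chk3 f_pp_022 t 6 5 1 = true := ex3_a k46_pp_022 k47_pp_022

theorem s51_pp_022 : ∃ t, chk3 f_pp_022 t 6 2 1 = true := ex3_b k45_pp_022 s50_pp_022

theorem s52_pp_022 : ∃ t, chk3 f_pp_022 t 3 2 1 = true := ex3_a s51_pp_022 k48_pp_022

theorem s53_pp_022 : ∃ t, chk3 f_pp_022 t 3 1 1 = true := ex3_b s52_pp_022 k49_pp_022

theorem s54_pp_022 : ∃ t, chk3 f_pp_022 t 20 28 1 = true := ex3_b k39_pp_022 k40_pp_022

theorem s55_pp_022 : ∃ t, chk3 f_pp_022 t 20 14 1 = true := ex3_b s54_pp_022 k41_pp_022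

theorem s56_pp_022 : ∃ t, chk3 f_pp_022 t 10 14 1 = true := ex3_a s55_pp_022 k42_pp_022

theorem s57_pp_022 : ∃ t, chk3 f_pp_022 t 10 7 1 = true := ex3_b s56_pp_022 k43_pp_022

theorem s58_pp_022 : ∃ t, chk3 f_pp_022 t 5 7 1 = true := ex3_a s57_pp_022 k44_pp_022

theorem s59_pp_022 : ∃ t, chk3 f_pp_022 t 11 6 1 = true := ex3_b k37_pp_022 k38_pp_022

theorem s60_pp_022 : ∃ t, chk3 f_pp_022 t 5 6 1 = true := ex3_a k36_pp_022 s59_pp_022

theorem s61_pp_022 : ∃ t, chk3 f_pp_022 t 5 3 1 = true := ex3_b s60_pp_022 s58_pp_022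

theorem s62_pp_022 : ∃ t, chk3 f_pp_022 t 72 121 1 = true := ex3_b k29_pp_022 k30_pp_022

theorem s63_pp_022 : ∃ t, chk3 f_pp_022 t 36 121 1 = true := ex3_a s62_pp_022 k31_pp_022

theorem s64_pp_022 : ∃ t, chk3 f_pp_022 t 36 60 1 = true := ex3_b k28_pp_022 s63_pp_022

theorem s65_pp_022 : ∃ t, chk3 f_pp_022 t 18 60 1 = true := ex3_a s64_pp_022 k32_pp_022

theorem s66_pp_022 : ∃ t, chk3 f_pp_022 t 18 30 1 = true := ex3_b s65_pp_022 k33_pp_022

theorem s67_pp_022 : ∃ t, chk3 f_pp_022 t 9 30 1 = true := ex3_a s66_pp_022 k34_pp_022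

theorem s68_pp_022 : ∃ t, chk3 f_pp_022 t 9 15 1 = true := ex3_b s67_pp_022 k35_pp_022

theorem s69_pp_022 : ∃ t, chk3 f_pp_022 t 19 58 1 = true := ex3_a k25_pp_022 k26_pp_022

theorem s70_pp_022 : ∃ t, chk3 f_pp_022 t 19 29 1 = true := ex3_b s69_pp_022 k27_pp_022

theorem s71_pp_022 : ∃ t, chk3 f_pp_022 t 19 14 1 = true := ex3_b k24_pp_022 s70_pp_022

theorem s72_pp_022 : ∃ t, chk3 f_pp_022 t 37 59 1 = true := ex3_b k22_pp_022 k23_pp_022

theorem s73_pp_022 : ∃ t, chk3 f_pp_022 t 37 29 1 = true := ex3_b k21_pp_022 s72_pp_022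

theorem s74_pp_022 : ∃ t, chk3 f_pp_022 t 18 29 1 = true := ex3_a k20_pp_022 s73_pp_022

theorem s75_pp_022 : ∃ t, chk3 f_pp_022 t 18 14 1 = true := ex3_b k19_pp_022 s74_pp_022

theorem s76_pp_022 : ∃ t, chk3 f_pp_022 t 9 14 1 = true := ex3_a s75_pp_022 s71_pp_022

theorem s77_pp_022 : ∃ t, chk3 f_pp_022 t 9 7 1 = true := ex3_b s76_pp_022 s68_pp_022

theorem s78_pp_022 : ∃ t, chk3 f_pp_022 t 71 122 1 = true := ex3_b k15_pp_022 k16_pp_022

theorem s79_pp_022 : ∃ t, chk3 f_pp_022 t 35 122 1 = true := ex3_a k14_pp_022 s78_pp_022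

theorem s80_pp_022 : ∃ t, chk3 f_pp_022 t 35 61 1 = true := ex3_b s79_pp_022 k17_pp_022

theorem s81_pp_022 : ∃ t, chk3 f_pp_022 t 35 30 1 = true := ex3_b k13_pp_022 s80_pp_022

theorem s82_pp_022 : ∃ t, chk3 f_pp_022 t 69 247 1 = true := ex3_a k11_pp_022 k12_pp_022

theorem s83_pp_022 : ∃ t, chk3 f_pp_022 t 69 123 1 = true := ex3_b k10_pp_022 s82_pp_022

theorem s84_pp_022 : ∃ t, chk3 f_pp_022 t 69 61 1 = true := ex3_b k9_pp_022 s83_pp_022

theorem s85_pp_022 : ∃ t, chk3 f_pp_022 t 34 61 1 = true := ex3_a k8_pp_022 s84_pp_022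

theorem s86_pp_022 : ∃ t, chk3 f_pp_022 t 34 30 1 = true := ex3_b k7_pp_022 s85_pp_022

theorem s87_pp_022 : ∃ t, chk3 f_pp_022 t 17 30 1 = true := ex3_a s86_pp_022 s81_pp_022

theorem s88_pp_022 : ∃ t, chk3 f_pp_022 t 17 15 1 = true := ex3_b s87_pp_022 k18_pp_022

theorem s89_pp_022 : ∃ t, chk3 f_pp_022 t 8 15 1 = true := ex3_a k6_pp_022 s88_pp_022

theorem s90_pp_022 : ∃ t, chk3 f_pp_022 t 8 14 1 = true := ex3_a k4_pp_022 k5_pp_022

theorem s91_pp_022 : ∃ t, chk3 f_pp_022 t 8 7 1 = true := ex3_b s90_pp_022 s89_pp_022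

theorem s92_pp_022 : ∃ t, chk3 f_pp_022 t 4 7 1 = true := ex3_a s91_pp_022 s77_pp_022

theorem s93_pp_022 : ∃ t, chk3 f_pp_022 t 4 6 1 = true := ex3_a k2_pp_022 k3_pp_022

theorem s94_pp_022 : ∃ t, chk3 f_pp_022 t 4 3 1 = true := ex3_b s93_pp_022 s92_pp_022

theorem s95_pp_022 : ∃ t, chk3 f_pp_022 t 2 3 1 = true := ex3_a s94_pp_022 s61_pp_022

theorem s96_pp_022 : ∃ t, chk3 f_pp_022 t 2 2 1 = true := ex3_a k0_pp_022 k1_pp_022

theorem s97_pp_022 : ∃ t, chk3 f_pp_022 t 2 1 1 = true := ex3_b s96_pp_022 s95_pp_022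

theorem s98_pp_022 : ∃ t, chk3 f_pp_022 t 1 1 1 = true := ex3_a s97_pp_022 s53_pp_022

theorem c_pp_022 : CertN 0 536870912 0 536870912 201326592 134217728 3 true true true .pp 0 2 2
    ndN0q0 ndN0q2 pcN2 cut_pp_022 Ext.none :=
  certN0 (fam := true) (s1 := true) (s2 := true) (a := 0) (b := 2) (c := 2) (cn := .pp) (n1 := ndN0q0) (n2 := ndN0q2) (pc := pcN2) (cut := cut_pp_022) (xt := Ext.none) (P1 := 0) (W1 := 536870912) (P2 := 0) (W2 := 536870912) (P3 := 201326592) (W3 := 134217728) (N0 := 3)
    rfl s98_pp_022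

noncomputable def f_pp_023 : ℕ → ℕ → ℕ → ℕ → Bool := onCell 0 536870912 0 536870912 201326592 134217728
    (rowN 3 0 true true true .up 0 2 3 (qsf 0 536870912 0 536870912 3) ndN0q0 ndN0q2 pcN3 Cut.none Ext.none)

def k0_pp_023 : ∃ t, chk3 f_pp_023 t 2 1 1 = true :=
  ⟨(l 1), by decide +kernel⟩

def k1_pp_023 : ∃ t, chk3 f_pp_023 t 6 2 1 = true :=
  ⟨(b (a (l 1) (c (b (a (l 1) (c (l 17163144) (l 17073432))) (a (l 1) (b (c (l 17076864) (l 17008336)) (a (l 16999832) (l 16978800))))) (a (b (l 1) (l 1)) (b (b (l 16965336) (l 16940968)) (b (a (l 16918264) (l 16911616)) (a (l 16891136) (l 16883944))))))) (a (l 1) (b (a (l 1) (c (b (a (c (l 16966552) (l 16923320)) (c (l 16942064) (l 16906024))) (a (c (l 231425147415) (l 219613946167)) (b (c (l 16894504) (l 16870056)) (c (a (l 16868800) (l 16857744)) (a (l 16850744) (l 16822496)))))) (b (a (c (l 16882344) (l 16844488)) (c (l 16871752) (l 16839864))) (a (c (l 195454689879) (l 211023933431)) (b (c (l 16846416) (l 16823888)) (a (c (l 16833056) (l 16818464))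 (b (l 16826168) (c (l 16827960) (l 16818104))))))))) (a (l 1) (b (a (l 1) (b (c (a (b (c (l 16846024) (l 16835056)) (l 1)) (b (a (c (l 16838944) (l 16830712)) (b (c (l 16837816) (l 16830144)) (c (l 56606438103) (l 58753908487)))) (b (a (c (l 63585756871) (l 60901388711)) (l 4)) (l 4)))) (a (b (c (l 16825152) (l 16815896)) (l 1)) (b (a (c (l 16822856) (b (l 16816224) (l 16814448))) (b (c (l 16822784) (l 16815728)) (c (b (l 54458930807) (l 69491313079)) (a (b (l 16814368) (l 64659463511)) (b (l 63048851799) (l 82376203431)))))) (a (b (c (b (l 56606412311) (l 72175664743)) (b (a (l 16813040) (l 66270074503)) (a (l 68954427799) (l 4)))) (l 4)) (l 4))))) (a (l 1) (l 4)))) (a (l 1) (l 4))))))), by decide +kernel⟩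

def k2_pp_023 : ∃ t, chk3 f_pp_023 t 14 4 1 = true :=
  ⟨(b (a (a (c (l 17083120) (l 16942224)) (c (l 17056272) (l 16931480))) (c (b (l 17038768) (a (l 17005136) (l 16977760))) (b (l 16926512) (a (l 16906440) (l 16893288))))) (c (a (b (a (l 17008464) (l 16982232)) (a (c (l 16977888) (l 16934560)) (c (l 16948160) (l 16912424)))) (b (a (l 16955720) (l 16907984)) (a (b (l 16917280) (l 16849032)) (c (l 16867880) (l 16846768))))) (a (b (a (l 16902888) (l 16891384)) (a (c (l 16893872) (l 16856696)) (c (l 16878800) (l 16847952)))) (b (a (l 16878896) (l 16865600)) (a (c (l 16863240) (l 16838384)) (b (l 16844720) (c (l 16839768) (l 16823528)))))))), by decide +kernel⟩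

def k3_pp_023 : ∃ t, chk3 f_pp_023 t 28 20 1 = true :=
  ⟨(b (c (a (l 16915216) (c (l 16902368) (l 16877320))) (a (l 16853424) (c (l 16853336) (l 16830744)))) (c (a (c (l 16900312) (l 16875304)) (c (l 16871688) (l 16854304))) (a (c (l 16851208) (l 16828360)) (c (l 16837368) (a (l 16822736) (l 16819560)))))), by decide +kernel⟩

def k4_pp_023 : ∃ t, chk3 f_pp_023 t 28 21 1 = true :=
  ⟨(a (b (c (c (a (l 16876344) (l 16862464)) (a (l 16857344) (l 16847440))) (c (a (l 16838776) (l 16832664)) (a (l 16821120) (l 16820240)))) (c (c (b (a (l 16853736) (l 31373508263)) (a (a (l 16842920) (l 43184666039)) (b (a (l 16835352) (l 73786306503)) (l 86134335799)))) (b (a (l 16841224) (a (l 16835152) (l 43184656567))) (a (a (l 16834128) (b (l 16832392) (l 50700848775))) (a (a (l 57143299463) (l 70028199159)) (l 85060584967))))) (a (b (c (l 16829952) (l 16819600)) (a (c (l 16825672) (b (l 16818384) (l 16816808))) (b (c (l 16824576) (l 16817112)) (c (b (l 16822200) (l 57143287127)) (b (l 42110889191) (a (l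 53922046967) (l 68417561751))))))) (a (b (c (l 16826376) (l 16818064)) (b (c (l 51774579431) (a (l 16815928) (l 58753887399))) (a (c (l 74323153367) (l 74860012615)) (l 4)))) (b (b (l 16821320) (c (l 50700837303) (c (l 52848311143) (l 54458918327)))) (b (b (c (l 67343832039) (l 68417562119)) (l 4)) (l 4))))))) (b (b (c (a (l 16828744) (c (l 16843448) (l 16834696))) (a (l 16824952) (c (l 16826112) (l 37279053799)))) (c (c (a (l 16842528) (b (l 51237733255) (l 74860048807))) (a (l 16834048) (b (l 52311468727) (l 73249423975)))) (a (c (a (l 16826872) (l 16824424)) (a (l 16818304) (l 40500280231))) (b (a (c (l 16823208) (l 16816472)) (c (l 64659481687) (l 65733208615))) (a (c (l 65733220151) (l 67343821015)) (l 4)))))) (b (a (c (c (b (l 52848341047) (l 82376240503)) (a (a (l 53922073079) (l 61975136647)) (l 80765616055))) (b (a (c (l 16822656) (l 45332116887)) (c (l 67343832487) (l 68417562503))) (a (b (c (l 65196350871) (l 66270078823)) (l 4)) (l 4)))) (l 4)) (l 4)))), by decide +kernel⟩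

def k5_pp_023 : ∃ t, chk3 f_pp_023 t 29 10 1 = true :=
  ⟨(b (a (c (b (c (l 16852504) (l 16834896)) (a (c (l 16851152) (l 16839744)) (b (l 16840464) (c (l 63585776839) (a (l 16830096) (l 65196362247)))))) (b (c (l 16838800) (l 16822424)) (a (c (l 16828624) (b (l 16819128) (l 16818080))) (b (c (l 16826688) (l 16818120)) (a (c (l 54458932887) (l 57680151607)) (c (l 67343833703) (l 68417563543))))))) (b (c (a (c (l 16852720) (l 16840896)) (b (l 16841560) (c (l 48553366871) (l 51237720967)))) (a (c (l 16829296) (l 16818464)) (b (l 16843400) (c (l 53385202503) (a (l 16816888) (l 66806956535)))))) (a (a (b (c (l 46942766791) (c (l 16823544) (l 53385182375))) (c (l 88281834279) (b (l 79154986231) (l 4)))) (b (c (c (l 63048883367) (l 63048881863)) (b (l 55532671159) (l 78081244631))) (l 4))) (a (b (c (l 84523717511) (b (l 76470632119) (l 4))) (l 4)) (l 4))))) (a (b (a (b (c (b (c (l 16836624) (l 50163984711)) (a (l 60901407751) (l 4))) (a (c (l 56069546695) (l 58753893687)) (c (l 72712542151) (l 74323153495))))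 (l 4)) (l 4)) (l 4)) (l 4))), by decide +kernel⟩

def k6_pp_023 : ∃ t, chk3 f_pp_023 t 14 11 1 = true :=
  ⟨(a (b (a (b (b (a (c (b (a (c (l 54458956711) (l 55532687959)) (c (l 78081272743) (l 78618131671))) (a (c (l 81839368391) (l 81302485559)) (l 4))) (a (a (b (c (l 50700834183) (c (l 52848309143) (l 54995787047))) (b (c (l 77007507079) (l 78618108231)) (l 4))) (b (c (l 60901381335) (b (l 55532659783) (l 74860012343))) (l 4))) (b (c (l 78618130391) (c (l 78618111207) (l 79154976375))) (l 4)))) (l 4)) (l 4)) (l 4)) (l 4)) (l 4)) (l 4)), by decide +kernel⟩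

def k7_pp_023 : ∃ t, chk3 f_pp_023 t 15 4 1 = true :=
  ⟨(b (c (a (b (a (l 16997128) (l 16970104)) (a (l 16950592) (l 16924184))) (a (c (l 16916112) (l 16906008)) (b (l 16918416) (b (l 16885176) (l 16863168))))) (a (b (l 16899664) (a (l 16879512) (l 16865512))) (b (a (l 16878456) (l 16864248)) (a (b (l 16858192) (l 16844920)) (b (l 16844336) (l 16831880)))))) (a (a (b (c (b (l 16914792) (l 16890384)) (b (l 16858936) (l 16845232))) (b (c (l 16855216) (c (l 16840272) (l 16824296))) (c (a (l 16847584) (c (l 40500306439) (l 43184660839))) (a (c (l 16829808) (l 16818312)) (b (l 16822320) (c (l 51237717447) (l 53385190215))))))) (b (c (b (l 16889040) (l 16865368)) (b (l 16845280) (l 16832440))) (a (b (c (l 16847928) (l 16824248)) (a (b (c (l 16834832) (l 16820552)) (c (l 75396913287) (l 74860019287))) (b (c (l 57680180887) (l 61438260727)) (l 4)))) (b (c (c (l 16820912) (l 16833520)) (c (l 44258398311) (l 45869002199))) (a (b (c (l 68954450455) (l 72712535831)) (l 4)) (l 4)))))) (b (a (c (b (l 16864456)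 (a (l 16847840) (c (l 16841760) (l 16833264)))) (b (l 16832312) (a (l 16824248) (b (l 16822096) (l 50700850615))))) (b (c (a (l 16847264) (l 43184664087)) (a (l 16823968) (b (l 16821688) (l 16819512)))) (b (a (c (l 16832880) (l 16830208)) (c (l 76470674551) (a (l 68417581175) (l 81302467335)))) (a (c (l 77544416583) (a (l 69491323815) (l 82376209271))) (l 4))))) (a (b (b (c (a (l 47479631223) (a (l 66806971223) (l 86134327463))) (a (c (l 16823504) (l 16816568)) (a (l 70028195303) (l 83986822039)))) (a (a (c (l 67343839975) (l 71101934663)) (c (l 88281811159) (l 86134305607))) (l 4))) (l 4)) (l 4))))), by decide +kernel⟩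

def k8_pp_023 : ∃ t, chk3 f_pp_023 t 15 5 1 = true :=
  ⟨(b (a (b (a (b (a (c (b (c (l 48016500103) (l 50700854359)) (b (l 80765642727) (l 4))) (b (c (l 52311460039) (l 54458932471)) (a (b (l 74323157047) (l 4)) (l 4)))) (a (b (b (c (l 67880727991) (l 71638802791)) (l 4)) (l 4)) (l 4))) (l 4)) (l 4)) (l 4)) (l 4)) (l 4)), by decide +kernel⟩

def k9_pp_023 : ∃ t, chk3 f_pp_023 t 3 3 1 = true :=
  ⟨(a (b (l 1) (l 1)) (l 4)), by decide +kernel⟩

theorem s10_pp_023 : ∃ t, chk3 f_pp_023 t 15 2 1 = true := ex3_b k7_pp_023 k8_pp_023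

theorem s11_pp_023 : ∃ t, chk3 f_pp_023 t 28 10 1 = true := ex3_b k3_pp_023 k4_pp_023

theorem s12_pp_023 : ∃ t, chk3 f_pp_023 t 14 10 1 = true := ex3_a s11_pp_023 k5_pp_023

theorem s13_pp_023 : ∃ t, chk3 f_pp_023 t 14 5 1 = true := ex3_b s12_pp_023 k6_pp_023

theorem s14_pp_023 : ∃ t, chk3 f_pp_023 t 14 2 1 = true := ex3_b k2_pp_023 s13_pp_023

theorem s15_pp_023 : ∃ t, chk3 f_pp_023 t 7 2 1 = true := ex3_a s14_pp_023 s10_pp_023

theorem s16_pp_023 : ∃ t, chk3 f_pp_023 t 3 2 1 = true := ex3_a k1_pp_023 s15_pp_023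

theorem s17_pp_023 : ∃ t, chk3 f_pp_023 t 3 1 1 = true := ex3_b s16_pp_023 k9_pp_023

theorem s18_pp_023 : ∃ t, chk3 f_pp_023 t 1 1 1 = true := ex3_a k0_pp_023 s17_pp_023

theorem c_pp_023 : CertN 0 536870912 0 536870912 201326592 134217728 3 true true true .up 0 2 3
    ndN0q0 ndN0q2 pcN3 Cut.none Ext.none :=
  certN0 (fam := true) (s1 := true) (s2 := true) (a := 0) (b := 2) (c := 3) (cn := .up) (n1 := ndN0q0) (n2 := ndN0q2) (pc := pcN3) (cut := Cut.none) (xt := Ext.none) (P1 := 0) (W1 := 536870912) (P2 := 0) (W2 := 536870912) (P3 := 201326592) (W3 := 134217728) (N0 := 3)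
    rfl s18_pp_023

noncomputable def f_pp_101 : ℕ → ℕ → ℕ → ℕ → Bool := onCell 536870912 536870912 0 536870912 201326592 134217728
    (rowN 3 0 true true true .npn 1 0 1 (qsf 536870912 536870912 0 536870912 1) ndN0q1 ndN0q0 pcN1 Cut.none Ext.none)

def k0_pp_101 : ∃ t, chk3 f_pp_101 t 1 1 1 = true :=
  ⟨(a (l 4) (l 5)), by decide +kernel⟩

theorem c_pp_101 : CertN 536870912 536870912 0 536870912 201326592 134217728 3 true true true .npn 1 0 1
    ndN0q1 ndN0q0 pcN1 Cut.none Ext.none :=
  certN0 (fam := true) (s1 := true) (s2 := true) (a := 1) (b := 0) (c := 1) (cn := .npn) (n1 := ndN0q1) (n2 := ndN0q0) (pc := pcN1) (cut := Cut.none) (xt := Ext.none) (P1 := 536870912) (W1 := 536870912) (P2 := 0) (W2 := 536870912) (P3 := 201326592) (W3 := 134217728) (N0 := 3)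
    rfl k0_pp_101

noncomputable def f_pp_102 : ℕ → ℕ → ℕ → ℕ → Bool := onCell 536870912 536870912 0 536870912 201326592 134217728
    (rowN 3 0 true true true .npp 1 0 2 (qsf 536870912 536870912 0 536870912 2) ndN0q1 ndN0q0 pcN2 Cut.none Ext.none)

def k0_pp_102 : ∃ t, chk3 f_pp_102 t 1 1 1 = true :=
  ⟨(a (l 4) (l 5)), by decide +kernel⟩

theorem c_pp_102 : CertN 536870912 536870912 0 536870912 201326592 134217728 3 true true true .npp 1 0 2
    ndN0q1 ndN0q0 pcN2 Cut.none Ext.none :=
  certN0 (fam := true) (s1 := true) (s2 := true) (a := 1) (b := 0) (c := 2) (cn := .npp) (n1 := ndN0q1) (n2 := ndN0q0) (pc := pcN2) (cut := Cut.none) (xt := Ext.none) (P1 := 536870912) (W1 := 536870912) (P2 := 0) (W2 := 536870912) (P3 := 201326592) (W3 := 134217728) (N0 := 3)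
    rfl k0_pp_102

noncomputable def f_pp_112 : ℕ → ℕ → ℕ → ℕ → Bool := onCell 536870912 536870912 536870912 536870912 201326592 134217728
    (rowN 3 0 true true true .dn 1 1 2 (qsf 536870912 536870912 536870912 536870912 2) ndN0q1 ndN0q1 pcN2 Cut.none Ext.none)

def k0_pp_112 : ∃ t, chk3 f_pp_112 t 1 1 1 = true :=
  ⟨(l 4), by decide +kernel⟩

theorem c_pp_112 : CertN 536870912 536870912 536870912 536870912 201326592 134217728 3 true true true .dn 1 1 2
    ndN0q1 ndN0q1 pcN2 Cut.none Ext.none :=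
  certN0 (fam := true) (s1 := true) (s2 := true) (a := 1) (b := 1) (c := 2) (cn := .dn) (n1 := ndN0q1) (n2 := ndN0q1) (pc := pcN2) (cut := Cut.none) (xt := Ext.none) (P1 := 536870912) (W1 := 536870912) (P2 := 536870912) (W2 := 536870912) (P3 := 201326592) (W3 := 134217728) (N0 := 3)
    rfl k0_pp_112

noncomputable def f_pp_113 : ℕ → ℕ → ℕ → ℕ → Bool := onCell 536870912 536870912 536870912 536870912 201326592 134217728
    (rowN 3 0 true true true .nn 1 1 3 (qsf 536870912 536870912 536870912 536870912 3) ndN0q1 ndN0q1 pcN3 Cut.none Ext.none)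

def k0_pp_113 : ∃ t, chk3 f_pp_113 t 1 1 1 = true :=
  ⟨(l 4), by decide +kernel⟩

theorem c_pp_113 : CertN 536870912 536870912 536870912 536870912 201326592 134217728 3 true true true .nn 1 1 3
    ndN0q1 ndN0q1 pcN3 Cut.none Ext.none :=
  certN0 (fam := true) (s1 := true) (s2 := true) (a := 1) (b := 1) (c := 3) (cn := .nn) (n1 := ndN0q1) (n2 := ndN0q1) (pc := pcN3) (cut := Cut.none) (xt := Ext.none) (P1 := 536870912) (W1 := 536870912) (P2 := 536870912) (W2 := 536870912) (P3 := 201326592) (W3 := 134217728) (N0 := 3)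
    rfl k0_pp_113

noncomputable def f_pp_123 : ℕ → ℕ → ℕ → ℕ → Bool := onCell 536870912 536870912 0 536870912 201326592 134217728
    (rowN 3 0 true true true .npn 1 2 3 (qsf 536870912 536870912 0 536870912 3) ndN0q1 ndN0q2 pcN3 Cut.none Ext.none)

def k0_pp_123 : ∃ t, chk3 f_pp_123 t 1 1 1 = true :=
  ⟨(a (b (a (a (b (a (b (a (b (c (l 16894168) (l 16850304)) (c (b (l 16861816) (a (l 16846400) (l 16836288))) (b (l 16831352) (a (l 16823488) (l 48016496455))))) (b (c (l 16850024) (l 16847336)) (b (c (a (l 16845416) (l 16835376)) (a (l 16822888) (l 16818720))) (b (c (a (l 16831536) (l 81839394519)) (a (l 16818352) (l 70565047911))) (a (c (l 82376267671) (l 71101918359)) (l 4)))))) (b (a (b (b (a (c (l 16832312) (l 16819256)) (c (l 83450012359) (c (l 71638798871) (l 73786279911)))) (a (c (l 83986884695) (a (l 67880709671) (l 79691859463))) (l 4))) (l 4)) (l 4)) (l 4))) (b (b (c (b (a (l 16859032) (a (l 16842872) (l 16832864))) (a (a (l 16844272) (l 16834240)) (a (b (l 16829360) (l 80228777063))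 (l 83450028759)))) (b (a (l 16830128) (a (l 16821296) (l 16816744))) (a (a (l 16822176) (l 16817800)) (a (b (l 16816264) (l 71101922999)) (b (l 72175666775) (l 4)))))) (a (b (c (a (b (l 16830560) (l 81302522039)) (b (l 80765649559) (l 4))) (a (b (l 16817352) (l 70028176887)) (b (l 70565049735) (l 4)))) (l 4)) (l 4))) (l 4))) (l 4)) (b (b (a (b (c (a (b (a (l 76470702599) (l 83450005143)) (l 4)) (l 4)) (a (b (a (b (l 16815072) (l 72712538743)) (b (l 73249409975) (l 4))) (l 4)) (l 4))) (l 4)) (l 4)) (l 4)) (l 4))) (l 4)) (l 4)) (l 4)), by decide +kernel⟩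

theorem c_pp_123 : CertN 536870912 536870912 0 536870912 201326592 134217728 3 true true true .npn 1 2 3
    ndN0q1 ndN0q2 pcN3 Cut.none Ext.none :=
  certN0 (fam := true) (s1 := true) (s2 := true) (a := 1) (b := 2) (c := 3) (cn := .npn) (n1 := ndN0q1) (n2 := ndN0q2) (pc := pcN3) (cut := Cut.none) (xt := Ext.none) (P1 := 536870912) (W1 := 536870912) (P2 := 0) (W2 := 536870912) (P3 := 201326592) (W3 := 134217728) (N0 := 3)
    rfl k0_pp_123

noncomputable def f_pp_202 : ℕ → ℕ → ℕ → ℕ → Bool := onCell 0 536870912 0 536870912 201326592 134217728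
    (rowN 3 0 true true true .pp 2 0 2 (qsf 0 536870912 0 536870912 2) ndN0q2 ndN0q0 pcN2 Cut.none Ext.none)

def k0_pp_202 : ∃ t, chk3 f_pp_202 t 1 1 1 = true :=
  ⟨(l 5), by decide +kernel⟩

theorem c_pp_202 : CertN 0 536870912 0 536870912 201326592 134217728 3 true true true .pp 2 0 2
    ndN0q2 ndN0q0 pcN2 Cut.none Ext.none :=
  certN0 (fam := true) (s1 := true) (s2 := true) (a := 2) (b := 0) (c := 2) (cn := .pp) (n1 := ndN0q2) (n2 := ndN0q0) (pc := pcN2) (cut := Cut.none) (xt := Ext.none) (P1 := 0) (W1 := 536870912) (P2 := 0) (W2 := 536870912) (P3 := 201326592) (W3 := 134217728) (N0 := 3)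
    rfl k0_pp_202

noncomputable def f_pp_203 : ℕ → ℕ → ℕ → ℕ → Bool := onCell 0 536870912 0 536870912 201326592 134217728
    (rowN 3 0 true true true .up 2 0 3 (qsf 0 536870912 0 536870912 3) ndN0q2 ndN0q0 pcN3 Cut.none Ext.none)

def k0_pp_203 : ∃ t, chk3 f_pp_203 t 1 1 1 = true :=
  ⟨(l 5), by decide +kernel⟩

theorem c_pp_203 : CertN 0 536870912 0 536870912 201326592 134217728 3 true true true .up 2 0 3
    ndN0q2 ndN0q0 pcN3 Cut.none Ext.none :=
  certN0 (fam := true) (s1 := true) (s2 := true) (a := 2) (b := 0) (c := 3) (cn := .up) (n1 := ndN0q2) (n2 := ndN0q0) (pc := pcN3) (cut := Cut.none) (xt := Ext.none) (P1 := 0) (W1 := 536870912) (P2 := 0) (W2 := 536870912) (P3 := 201326592) (W3 := 134217728) (N0 := 3)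
    rfl k0_pp_203

noncomputable def f_pp_213 : ℕ → ℕ → ℕ → ℕ → Bool := onCell 0 536870912 536870912 536870912 201326592 134217728
    (rowN 3 0 true true true .pnn 2 1 3 (qsf 0 536870912 536870912 536870912 3) ndN0q2 ndN0q1 pcN3 Cut.none Ext.none)

def k0_pp_213 : ∃ t, chk3 f_pp_213 t 1 1 1 = true :=
  ⟨(a (l 5) (l 4)), by decide +kernel⟩

theorem c_pp_213 : CertN 0 536870912 536870912 536870912 201326592 134217728 3 true true true .pnn 2 1 3
    ndN0q2 ndN0q1 pcN3 Cut.none Ext.none :=
  certN0 (fam := true) (s1 := true) (s2 := true) (a := 2) (b := 1) (c := 3) (cn := .pnn) (n1 := ndN0q2) (n2 := ndN0q1) (pc := pcN3) (cut := Cut.none) (xt := Ext.none) (P1 := 0) (W1 := 536870912) (P2 := 536870912) (W2 := 536870912) (P3 := 201326592) (W3 := 134217728) (N0 := 3)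
    rfl k0_pp_213

noncomputable def f_pm_001 : ℕ → ℕ → ℕ → ℕ → Bool := onCell 0 536870912 0 536870912 201326592 134217728
    (rowN 3 0 true true false .up 0 0 1 (qsf 0 536870912 0 536870912 1) ndN0q0 ndN0q0 pcN1 Cut.none Ext.none)

def k0_pm_001 : ∃ t, chk3 f_pm_001 t 1 1 1 = true :=
  ⟨(l 3), by decide +kernel⟩

theorem c_pm_001 : CertN 0 536870912 0 536870912 201326592 134217728 3 true true false .up 0 0 1
    ndN0q0 ndN0q0 pcN1 Cut.none Ext.none :=
  certN0 (fam := true) (s1 := true) (s2 := false) (a := 0) (b := 0) (c := 1) (cn := .up) (n1 := ndN0q0) (n2 := ndN0q0) (pc := pcN1) (cut := Cut.none) (xt := Ext.none) (P1 := 0) (W1 := 536870912) (P2 := 0) (W2 := 536870912) (P3 := 201326592) (W3 := 134217728) (N0 := 3)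
    rfl k0_pm_001

noncomputable def cut_pm_011 : Cut := Cut.of [[⟨0, 0, 0, 67108864⟩, ⟨1, 1, 0, 67108864⟩, ⟨2, 1, 0, 67108864⟩]]

noncomputable def f_pm_011 : ℕ → ℕ → ℕ → ℕ → Bool := onCell 536870912 536870912 536870912 536870912 201326592 134217728
    (rowN 3 2 true true false .pnn 0 1 1 (qsf 0 536870912 536870912 536870912 1) ndN0q0 ndN0q1 pcN1 cut_pm_011 Ext.none)

def k0_pm_011 : ∃ t, chk3 f_pm_011 t 1 1 1 = true :=
  ⟨(a (l 3) (b (l 3) (a (l 3) (b (l 3) (a (l 3) (b (l 3) (a (l 3) (b (l 3) (l 6))))))))), by decide +kernel⟩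

theorem c_pm_011 : CertN 0 536870912 536870912 536870912 201326592 134217728 3 true true false .pnn 0 1 1
    ndN0q0 ndN0q1 pcN1 cut_pm_011 Ext.none :=
  certN2 (fam := true) (s1 := true) (s2 := false) (a := 0) (b := 1) (c := 1) (cn := .pnn) (n1 := ndN0q0) (n2 := ndN0q1) (pc := pcN1) (cut := cut_pm_011) (xt := Ext.none) (P1 := 0) (W1 := 536870912) (P2 := 536870912) (W2 := 536870912) (P3 := 201326592) (W3 := 134217728) (N0 := 3)
    rfl (fun _ => rfl) k0_pm_011

end Pool.Agent.Strip051.G.I3_16_5_16.Tab.C.NA00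

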