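import Pool.Agent.Strip051.G.I3_16_5_16.Tab

/-! # Certificates N1 (generated) -/

set_option linter.all false
set_option maxRecDepth 100000

namespace Pool.Agent.Strip051.G.I3_16_5_16.Tab.C.NA00

open Pool.Agent.Strip051.PB Pool.Agent.Strip051.PB.T
open Pool.Agent.Strip051.G.I3_16_5_16.Tab

noncomputable def cut_pm_012 : Cut := Cut.of [[⟨0, 0, 0, 67108864⟩, ⟨1, 1, 0, 67108864⟩, ⟨2, 1, 0, 67108864⟩], [⟨0, 0, 1, 67108864⟩, ⟨1, 1, 0, 16777216⟩, ⟨2, 1, 1, 67108864⟩]]

noncomputable def f_pm_012 : ℕ → ℕ → ℕ → ℕ → Bool := onCell 1073741824 536870912 536870912 536870912 201326592 134217728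
    (rowN 3 2 true true false .pnp 0 1 2 (qsf 0 536870912 536870912 536870912 2) ndN0q0 ndN0q1 pcN2 cut_pm_012 Ext.none)

def k0_pm_012 : ∃ t, chk3 f_pm_012 t 4 2 1 = true :=
  ⟨(b (l 3) (l 3)), by decide +kernel⟩

def k1_pm_012 : ∃ t, chk3 f_pm_012 t 5 4 1 = true :=
  ⟨(a (a (a (l 3) (l 2)) (l 2)) (l 2)), by decide +kernel⟩

def k2_pm_012 : ∃ t, chk3 f_pm_012 t 20 5 1 = true :=
  ⟨(a (b (l 3) (b (l 3) (a (l 3) (b (a (l 3) (a (l 3) (b (c (l 153712969319) (l 165524097351)) (c (l 145659896183) (l 161229124519))))) (b (a (l 3) (c (a (l 144049286167) (l 16828640)) (c (l 153712936631) (l 160155373559)))) (a (a (l 3) (c (c (l 139217455671) (l 147270503431)) (c (l 154249810151) (l 160692246759)))) (c (c (l 16830720) (l 16823280)) (c (l 117742589335) (l 123111287575))))))))) (a (b (b (l 3) (a (l 3) (a (l 3) (b (l 3) (c (l 140828079127) (l 155323562535)))))) (b (a (b (l 3) (b (c (l 149954874279) (l 162302872791)) (c (l 148881126439) (l 160692255383)))) (b (c (c (l 130627546615) (l 138143722631)) (a (l 156934170359)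 (l 16815640))) (b (c (l 16828736) (l 16814120)) (c (l 16826104) (l 16812168))))) (b (a (b (c (l 112910774695) (a (l 126869386087) (l 16813864))) (c (l 16827064) (l 16812928))) (c (l 16822320) (l 16820000))) (a (c (l 16833368) (b (l 16810880) (l 16809160))) (c (l 16818712) (l 16807760)))))) (b (a (b (b (l 2) (a (l 3) (c (l 143512433479) (l 156397304583)))) (b (c (a (l 141364949575) (l 16831992)) (a (l 155323561975) (l 16816424))) (c (a (l 16831776) (l 16827832)) (a (l 117205723655) (l 16813272))))) (b (b (l 2) (a (a (a (l 19428109239) (l 16823896)) (l 16822488)) (l 16819736))) (b (a (a (a (l 16821672) (l 16820728)) (l 16819312)) (l 16816512)) (a (a (l 16817576) (l 16815712)) (l 16812968))))) (a (b (b (c (a (l 16827088) (l 16823296)) (a (l 16812808) (l 16809960))) (c (l 16862432) (c (l 16811056) (l 16826296)))) (c (c (l 16839728) (l 16855648)) (c (l 16851088) (l 16852256)))) (b (b (a (c (l 16819304) (l 16827992)) (l 16809496)) (a (c (l 16815184) (l 16804632)) (l 16807008))) (a (c (l 16857320) (l 16852520))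 (l 16834192))))))), by decide +kernel⟩

def k3_pm_012 : ∃ t, chk3 f_pm_012 t 21 5 1 = true :=
  ⟨(b (c (b (b (l 2) (l 16886760)) (a (l 16882608) (l 16796344))) (b (a (b (l 2) (l 16840216)) (l 2)) (a (a (l 16863592) (l 16792976)) (l 16790192)))) (b (a (b (l 16842512) (l 16842344)) (l 16824968)) (a (b (l 16843232) (l 16824480)) (c (l 16826576) (l 16824000))))), by decide +kernel⟩

def k4_pm_012 : ∃ t, chk3 f_pm_012 t 11 5 1 = true :=
  ⟨(a (a (b (b (l 2) (l 16838280)) (b (l 16849432) (c (l 16854216) (l 16826312)))) (b (l 2) (b (c (l 16867064) (l 16849008)) (l 16843248)))) (b (l 2) (a (b (l 16867472) (l 16899640)) (b (l 2) (l 16929784))))), by decide +kernel⟩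

def k5_pm_012 : ∃ t, chk3 f_pm_012 t 8 6 1 = true :=
  ⟨(l 3), by decide +kernel⟩

def k6_pm_012 : ∃ t, chk3 f_pm_012 t 9 12 1 = true :=
  ⟨(a (l 3) (a (l 3) (b (l 3) (c (a (b (l 3) (a (l 3) (b (l 3) (l 159081627751)))) (b (a (l 3) (b (l 159618519175) (l 142975506327))) (a (b (l 147270470567) (a (l 142438620455) (l 16803064))) (b (l 127406245655) (l 16800896))))) (a (b (l 3) (a (l 3) (b (l 3) (l 176798347559)))) (b (a (l 3) (b (l 178945847207) (l 151028558791))) (a (b (l 174650866039) (a (l 158544729287) (l 16794464))) (b (c (l 16809600) (l 98952093383)) (l 16794088))))))))), by decide +kernel⟩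

def k7_pm_012 : ∃ t, chk3 f_pm_012 t 9 13 1 = true :=
  ⟨(a (b (l 3) (a (l 3) (b (l 3) (a (l 3) (b (l 3) (a (l 3) (a (b (l 3) (l 93583349751)) (b (l 94120223111) (l 16794456))))))))) (a (b (b (l 3) (a (l 3) (b (a (l 3) (a (l 3) (c (l 145659829975) (l 167134651543)))) (b (a (l 3) (c (a (l 108615748375) (l 16792096)) (l 103247037767))) (a (c (l 147270438503) (l 189146356007)) (c (l 16811152) (l 16805720))))))) (a (b (b (a (l 3) (a (l 3) (c (l 148881048647) (l 180019548759)))) (a (c (b (l 3) (l 146196689703)) (l 231559157111)) (c (a (b (l 152639138983) (l 16797504)) (l 87677780295)) (l 91435878503)))) (c (b (a (b (a (l 3) (l 16796488)) (l 88214643607)) (l 16792520)) (a (l 16799600) (l 16793368))) (a (b (b (l 189146354663) (l 16795288)) (l 16795728)) (l 16794120)))) (b (b (a (c (a (b (l 151565400759) (l 16799520)) (l 16804256)) (l 86067172535)) (c (l 16809304) (l 16802128))) (c (c (l 16794232) (l 16800664)) (l 16795384))) (c (l 16794200) (l 16793880))))) (b (b (b (a (a (l 3) (c (a (l 154786648119) (l 117205692023))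 (a (l 170892757719) (l 138680510119)))) (a (c (l 16819312) (l 16812504)) (l 16817112))) (a (a (c (l 145659836471) (a (l 173040239079) (l 155323494055))) (c (c (l 16818912) (l 16815088)) (l 85530308295))) (c (l 16816168) (c (l 16808792) (l 16804384))))) (a (c (a (b (c (l 94120251767) (l 95730856471)) (l 16812400)) (c (l 16813400) (l 16808712))) (b (a (l 89288403111) (l 16807192)) (l 16801064))) (c (b (l 16810328) (l 16787296)) (b (l 16795416) (l 16782736))))) (c (a (b (l 16802016) (l 16790952)) (b (l 16785520) (l 16781024))) (a (b (l 16788080) (l 16794440)) (b (l 16789360) (l 16795752))))))), by decide +kernel⟩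

def k8_pm_012 : ∃ t, chk3 f_pm_012 t 8 14 1 = true :=
  ⟨(a (l 3) (b (l 3) (a (l 3) (b (l 3) (a (b (l 3) (a (l 3) (b (l 3) (c (b (a (l 3) (a (l 3) (l 86067137079))) (a (c (l 87140869847) (l 87677741367)) (c (l 40433103719) (l 40969976471)))) (a (c (l 89288354823) (l 91435838471)) (a (b (l 3) (c (l 60297328647) (c (l 60834197927) (l 60834197127)))) (c (b (l 83382774791) (l 16783624)) (b (l 84993397703) (l 16780808))))))))) (b (b (a (l 3) (a (l 3) (c (b (l 97341428631) (l 55465495575)) (c (l 58686717223) (b (l 93583321495) (l 50096782551)))))) (b (a (l 3) (c (a (l 74255979895) (l 16783456)) (a (c (l 65666039783) (l 65666040599)) (l 16783760)))) (a (a (l 3) (a (l 3) (c (l 87677747623) (l 91972715303)))) (a (c (c (l 16783304) (l 16783656)) (c (l 16783784) (c (l 16783736) (l 16783624)))) (c (l 16783400) (l 16783440)))))) (c (a (b (b (a (c (l 89825224967) (l 91972709383)) (c (l 47949296983) (l 48486169671))) (a (a (l 90898967367) (l 47949297591)) (l 16783816))) (a (c (l 12515818295) (b (l 16783912) (l 16783608)))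 (l 16783440))) (c (b (l 16783216) (l 16782728)) (b (l 16783296) (l 16782432)))) (a (b (a (b (l 93583322455) (a (l 94120193143) (c (l 48486168631) (l 47949295815)))) (c (b (l 48486169975) (l 16783912)) (b (a (l 80161555767) (l 16779784)) (l 16778464)))) (c (a (b (c (l 16783928) (l 24326977687)) (l 16783504)) (l 16783200)) (a (a (b (b (l 74255974519) (l 16783688)) (l 16783344)) (l 16783416)) (l 16782800)))) (c (b (l 16783160) (l 16781960)) (b (a (l 16783248) (l 16782360)) (l 16781296))))))))))), by decide +kernel⟩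

def k9_pm_012 : ∃ t, chk3 f_pm_012 t 18 28 1 = true :=
  ⟨(a (b (l 3) (a (l 3) (b (a (l 3) (a (l 3) (b (l 3) (l 100562663383)))) (b (a (l 3) (c (l 64592304807) (l 63518566423))) (a (c (l 122037495495) (l 91435856455)) (c (l 16785608) (l 16787368))))))) (b (a (b (l 3) (a (c (b (l 3) (l 183777637239)) (l 165524035127)) (c (b (a (l 191293828551) (l 16790008)) (l 16789944)) (b (l 92509597415) (l 16790120))))) (c (b (a (b (a (l 3) (l 16792256)) (l 65129183623)) (l 16795928)) (l 16789696)) (a (b (l 71571640071) (l 16778976)) (l 16790864)))) (b (a (a (b (a (l 142975470727) (l 61907954263)) (c (l 16789048) (l 16788896))) (c (l 16788304) (l 16790856))) (c (l 16787816) (l 16789632))) (c (a (c (l 16789248) (l 16790376)) (l 16789328)) (a (c (l 16791120) (l 16791480)) (l 16789800)))))), by decide +kernel⟩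

def k10_pm_012 : ∃ t, chk3 f_pm_012 t 36 29 1 = true :=
  ⟨(b (a (b (b (l 3) (a (l 3) (c (a (l 114521304967) (l 58149851415)) (a (l 74255983559) (l 56539241495))))) (b (a (c (l 114521305943) (a (l 3) (c (l 97878298183) (l 87677740967)))) (a (c (l 46875562583) (a (l 47412426535) (l 16783168))) (c (l 16782312) (l 16783176)))) (c (a (a (l 80161561383) (c (l 16782344) (l 16782968))) (l 16782528)) (a (a (b (l 94120192295) (l 64592297351)) (c (l 16783312) (l 16786016))) (l 16788200))))) (a (a (c (b (c (l 41506851287) (l 40433111223)) (l 16782040)) (b (b (l 73182241223) (l 16782960)) (l 16782376))) (c (b (l 16786664) (l 16781712)) (b (c (l 16782488) (l 16782784)) (l 16781776)))) (c (b (l 16791488) (l 16781264)) (b (l 16787192) (l 16780920))))) (c (a (b (a (b (c (l 16782848) (l 16783288)) (l 16782840)) (c (l 16782192) (l 16782168))) (c (a (l 16782208) (l 16781600)) (b (l 16786896) (l 16786088)))) (a (b (l 16786776) (c (l 16781176) (l 16780176))) (b (l 16781032) (c (l 16780912) (l 16779680))))) (a (b (a (c (b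 (l 16786088) (l 16782736)) (b (a (l 16783608) (l 16783088)) (l 16782384))) (c (l 16781904) (l 16781400))) (a (b (l 16786648) (a (l 16780432) (l 16779704))) (b (l 16780008) (l 16778744)))) (b (c (a (l 16780800) (l 16779896)) (a (l 16779992) (l 16778808))) (c (a (l 16778968) (l 16778216)) (a (l 16777544) (l 16776512))))))), by decide +kernel⟩

def k11_pm_012 : ∃ t, chk3 f_pm_012 t 37 29 1 = true :=
  ⟨(c (b (b (a (c (l 16779984) (l 16780424)) (l 16779864)) (a (c (l 16780720) (l 16780480)) (c (l 16780720) (l 16780040)))) (a (b (c (l 16780976) (l 16780072)) (c (l 16780760) (l 16779216))) (b (c (l 16781136) (l 16779832)) (c (l 16781104) (l 16779176))))) (b (a (b (c (l 16780512) (l 16780248)) (c (l 16779920) (l 16779032))) (b (l 16789520) (c (l 16778992) (l 16777576)))) (a (a (b (l 16778544) (c (l 16777640) (l 16775672))) (b (l 16777888) (c (l 16777240) (l 16775016)))) (b (c (l 16778168) (l 16776152)) (c (l 16776920) (b (l 16774808) (l 16773792))))))), by decide +kernel⟩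

def k12_pm_012 : ∃ t, chk3 f_pm_012 t 19 14 1 = true :=
  ⟨(b (a (c (b (a (b (l 16793424) (l 16796152)) (l 16787704)) (a (c (l 16788400) (l 16788928)) (c (l 16778992) (l 16779296)))) (a (a (b (l 16787600) (l 16789048)) (b (l 16787152) (l 16778288))) (b (b (l 16796872) (l 16777336)) (b (l 16778360) (l 16778944))))) (b (c (a (l 16786448) (l 16777824)) (a (l 16798624) (l 16779384))) (c (a (l 16791384) (c (l 16781968) (l 16782472))) (a (b (l 16779688) (l 16780536)) (b (l 16781792) (l 16782424)))))) (a (b (b (c (a (l 16780152) (l 16781360)) (a (l 16778368) (l 16779088))) (c (a (l 16791320) (l 16782216)) (a (c (l 16778744) (l 16776816)) (l 16778808)))) (c (a (a (b (l 16780920) (c (l 16781136) (l 16778976))) (b (l 16781352) (c (l 16781056) (l 16778752)))) (b (c (l 16782040) (a (l 16780672) (l 16780920))) (c (l 16789320) (a (l 16777744) (l 16775208))))) (a (b (c (l 16778104) (l 16775584)) (c (a (l 16776424) (b (l 16777040) (l 16775264))) (b (a (l 16774448) (l 16774000)) (a (l 16773072) (l 16771976))))) (b (a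 (c (l 16778448) (l 16775704)) (b (l 16778376) (l 16776624))) (c (b (l 16775632) (l 16771792)) (b (a (l 16773520) (l 16771240)) (l 16768496))))))) (c (b (a (b (l 16783336) (c (l 16783160) (l 16782152))) (b (c (l 16783664) (l 16783320)) (c (l 16780208) (l 16779216)))) (a (c (b (l 16780096) (l 16773488)) (b (l 16778480) (l 16771360))) (c (b (l 16774168) (l 16767944)) (b (l 16772576) (l 16765744))))) (b (a (b (l 16780960) (a (l 16779736) (a (l 16780192) (l 16779832)))) (b (c (l 16782144) (l 16790616)) (c (l 16777464) (l 16774944)))) (b (a (c (l 16786720) (a (l 16774696) (l 16771856))) (c (l 16770312) (l 16767360))) (c (a (l 16768672) (l 16762952)) (a (a (l 16766808) (l 16764088)) (l 16759560)))))))), by decide +kernel⟩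

def k13_pm_012 : ∃ t, chk3 f_pm_012 t 16 30 1 = true :=
  ⟨(a (l 3) (b (l 3) (a (l 3) (b (l 3) (a (l 3) (b (l 3) (c (a (b (l 3) (b (l 3) (l 6))) (a (b (b (l 3) (l 90898965047)) (b (a (l 69960997991) (a (l 35601259031) (l 16781512))) (l 16780512))) (b (c (b (l 84993382855) (l 35601258071)) (b (l 86067125255) (l 35601258471))) (c (l 16778312) (l 16778272))))) (a (b (l 3) (b (l 3) (l 6))) (c (b (a (l 96804545687) (b (l 80161541927) (l 35601258247))) (a (a (b (l 63518544711) (l 6)) (l 9831454743)) (l 16778184))) (b (a (l 87677740327) (b (l 82309025575) (c (l 37211870695) (l 37748741607)))) (a (b (a (l 64055416215) (l 16778888)) (l 16778424)) (l 16778056)))))))))))), by decide +kernel⟩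

def k14_pm_012 : ∃ t, chk3 f_pm_012 t 34 60 1 = true :=
  ⟨(a (l 3) (b (l 3) (a (a (l 3) (b (l 3) (a (b (l 3) (c (c (l 59223579687) (l 59223581447)) (c (l 60297324007) (b (l 91972704759) (l 51707388663))))) (c (b (c (l 78550931895) (l 79624674119)) (c (l 16780768) (l 16780880))) (b (c (l 81235286999) (l 82309028711)) (c (l 16782200) (l 25400714279))))))) (b (a (a (l 3) (b (l 3) (c (c (l 61371064775) (l 61907937159)) (c (l 63518550791) (l 64592292935))))) (c (b (a (l 79624680151) (c (l 44191197063) (l 45264940087))) (c (l 16781352) (l 16782776))) (a (b (c (l 81772158855) (l 83382771447)) (c (l 16781520) (l 27548198823))) (b (c (l 44728069287) (c (l 47949294183) (l 48486165031))) (l 16781232))))) (c (c (a (b (c (l 29158810103) (l 29158810711)) (l 16780480)) (l 16780352)) (a (a (b (l 43654326151) (l 16780648)) (l 16780752)) (l 16780224))) (c (a (a (b (l 43654326423) (l 16780576)) (l 16780656)) (l 16779992)) (a (a (b (a (l 58149840759) (l 33990648983)) (l 16780384)) (l 16780448)) (l 16779648)))))))), by decide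 +kernel⟩

def k15_pm_012 : ∃ t, chk3 f_pm_012 t 68 122 1 = true :=
  ⟨(a (b (l 3) (b (l 3) (b (l 3) (a (l 3) (c (l 96267677943) (a (l 3) (l 84456515431))))))) (b (b (l 3) (a (l 3) (c (a (c (l 75866581335) (b (l 3) (l 88751478215))) (c (b (l 81772156855) (l 16780688)) (l 54928612711))) (a (c (l 89825220471) (l 91972704167)) (b (l 83919645495) (a (l 61371065175) (l 16780264))))))) (a (a (b (l 3) (b (c (l 80161548343) (c (l 75329706807) (l 76940320199))) (c (c (l 16779624) (l 16779720)) (c (l 16781048) (l 32916904839))))) (c (b (b (l 3) (a (l 92509578663) (l 55465485447))) (c (l 16779584) (l 16779632))) (b (c (l 71571613975) (l 74255965863)) (c (l 16779608) (l 16780808))))) (a (b (b (c (c (l 52244256855) (l 52781128983)) (c (l 53318000439) (l 54391742311))) (c (l 16782528) (l 16782512))) (c (l 16779232) (l 16779000))) (c (c (l 16779328) (l 16779272)) (c (l 16779144) (l 16778936))))))), by decide +kernel⟩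

def k16_pm_012 : ∃ t, chk3 f_pm_012 t 68 123 1 = true :=
  ⟨(a (b (a (b (l 3) (c (a (b (l 3) (c (l 74792835655) (l 71034741623))) (c (b (l 65129159191) (l 16779120)) (b (l 60834190791) (l 16779176)))) (b (a (l 3) (c (l 60297320599) (l 60834192087))) (a (c (l 71571609031) (l 72645351623)) (c (l 16779176) (l 16779104)))))) (c (b (c (a (b (l 67276640407) (l 54391740807)) (c (l 24326969287) (l 25937582135))) (a (b (l 65666030631) (l 51170514503)) (c (l 26474452967) (l 26474453415)))) (c (l 16780064) (l 16780032))) (b (c (a (b (l 89825219223) (l 51170515623)) (b (l 42043710263) (l 16779264))) (a (b (l 91435831975) (l 52244257751)) (b (l 43117452311) (l 16779160)))) (c (l 16779608) (c (l 16778512) (l 16778416)))))) (c (c (c (a (b (a (l 14126421207) (l 16778424)) (l 16777648)) (b (l 16777808) (l 16776824))) (a (b (a (l 13589550519) (l 16778408)) (l 16777568)) (b (l 16777712) (l 16776640)))) (a (b (a (a (l 18421389495) (l 16778768)) (l 16778360)) (l 16777424)) (b (l 16777560) (l 16776360)))) (c (b (a (a (b (l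 27548194519) (l 16778552)) (l 16778248)) (l 16777304)) (a (l 16777208) (l 16775960))) (a (b (a (b (l 28085065719) (l 16778432)) (l 16778080)) (l 16776944)) (a (l 16777936) (l 16775936)))))) (c (b (c (c (b (l 16779840) (l 16777624)) (a (l 16778720) (l 16777584))) (a (a (l 16778528) (l 16778032)) (c (l 16777408) (l 16777232)))) (c (c (b (l 16776688) (l 16775728)) (a (l 16776328) (l 16775544))) (c (a (l 16776088) (l 16775200)) (a (l 16775840) (l 16774856))))) (a (a (c (b (l 16778368) (l 16775744)) (b (l 16778152) (l 16775256))) (b (c (l 16777784) (l 16777480)) (c (l 16775168) (l 16774592)))) (b (c (c (l 16777032) (l 16776824)) (c (l 16776608) (l 16776376))) (c (l 16775648) (l 16774936)))))), by decide +kernel⟩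

def k17_pm_012 : ∃ t, chk3 f_pm_012 t 69 61 1 = true :=
  ⟨(b (b (c (a (a (b (a (a (l 3) (l 73182227319)) (c (l 39359356135) (l 39896228455))) (a (c (l 16780176) (l 16780264)) (l 16779936))) (c (l 16781184) (c (l 16779840) (l 16779784)))) (c (c (l 16779088) (l 16778920)) (c (l 16778736) (l 16779848)))) (b (a (a (c (a (l 76940318775) (c (l 40433099431) (l 39896228647))) (a (l 79087802343) (a (l 53318001607) (l 29695680903)))) (c (l 16780208) (l 16780016))) (c (l 16778768) (l 16778312))) (a (a (a (c (l 16781568) (l 17347649671)) (l 16779760)) (l 16778936)) (c (l 16777600) (l 16777000))))) (b (c (c (a (l 16781536) (l 16777728)) (a (l 16781320) (l 16777096))) (a (a (a (l 16779096) (l 16778520)) (l 16777672)) (a (l 16776584) (l 16775536)))) (c (c (a (l 16778024) (l 16776848)) (a (l 16777632) (l 16776040))) (c (a (l 16779808) (l 16775200)) (a (l 16778000) (l 16774320)))))) (c (a (a (b (c (l 16776968) (l 16776424)) (c (l 16776352) (l 16774160))) (c (b (l 16776336) (l 16774416)) (b (l 16775592) (l 16773336))))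 (a (c (b (l 16775752) (l 16773856)) (b (l 16774808) (l 16772568))) (c (b (l 16775224) (l 16773336)) (b (l 16774064) (l 16771840))))) (b (b (c (a (l 16775944) (l 16773976)) (a (l 16777928) (l 16772952))) (c (a (l 16774688) (l 16772728)) (a (l 16773904) (l 16771568)))) (b (c (a (l 16773400) (l 16771464)) (a (l 16772488) (l 16770168))) (c (a (l 16772104) (l 16770176)) (a (l 16771048) (l 16768752))))))), by decide +kernel⟩

def k18_pm_012 : ∃ t, chk3 f_pm_012 t 70 60 1 = true :=
  ⟨(b (a (c (b (a (l 3) (b (l 3) (c (l 67813515975) (l 67813521671)))) (b (a (a (l 3) (l 79087815463)) (c (l 30232554855) (c (l 30769426215) (l 30769426311)))) (a (a (c (l 62444808263) (l 62981680023)) (c (l 16782000) (l 16782168))) (l 16781992)))) (b (a (l 3) (b (l 3) (a (l 89288353207) (c (l 63518552967) (l 64592294727))))) (c (a (b (l 82845901767) (a (l 64055422743) (l 16782176))) (a (b (l 44191199431) (l 16782056)) (l 16782176))) (a (b (l 84993385303) (a (l 65666035607) (l 27548199783))) (a (b (a (l 60297326103) (l 16782304)) (l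 16781840)) (l 16781936)))))) (c (b (a (b (a (l 92509586055) (c (l 16782712) (l 16782920))) (c (l 16782752) (l 16782904))) (c (l 16782896) (l 16782952))) (c (l 16781784) (c (l 16781672) (l 16781552)))) (b (a (c (b (a (l 85530257271) (l 41506845831)) (l 16782880)) (b (a (l 86603998855) (c (l 40969974247) (l 40433103095))) (c (l 16782752) (l 16782608)))) (c (l 16782824) (l 16782528))) (a (c (l 16781664) (l 16781296)) (l 16780664))))) (c (a (c (b (c (l 16781144) (l 16781128)) (l 16779632)) (b (a (l 16781352) (l 16780736)) (l 16779192))) (c (b (l 16780360) (l 16778824)) (b (l 16779840) (l 16777952)))) (a (a (c (b (l 16781224) (l 16779096)) (b (c (l 16781040) (l 16780872)) (l 16778560))) (c (b (l 16780416) (l 16778232)) (b (l 16779968) (l 16777496)))) (c (b (l 16779208) (l 16776992)) (b (l 16778456) (l 16775960)))))), by decide +kernel⟩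

def k19_pm_012 : ∃ t, chk3 f_pm_012 t 71 60 1 = true :=
  ⟨(c (b (c (a (b (l 16782544) (l 16781184)) (b (l 16781936) (l 16780736))) (a (b (l 16782288) (l 16780576)) (b (l 16781272) (l 16779704)))) (c (a (b (l 16779712) (l 16778160)) (b (l 16779264) (l 16777712))) (a (b (l 16778752) (l 16776840)) (b (l 16777872) (l 16775976))))) (b (a (c (b (l 16781864) (l 16779832)) (b (l 16781280) (l 16778968))) (c (b (l 16780448) (l 16778552)) (b (l 16779472) (l 16777272)))) (c (a (b (l 16777688) (l 16775464)) (b (l 16776400) (l 16774176))) (b (a (l 16776536) (l 16774840)) (a (l 16774016) (l 16772328)))))), by decide +kernel⟩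

def k20_pm_012 : ∃ t, chk3 f_pm_012 t 35 122 1 = true :=
  ⟨(c (a (c (b (a (l 16778016) (l 16777200)) (a (c (l 16776592) (l 16776024)) (l 16775496))) (b (a (l 16779848) (l 16775976)) (a (c (l 16775456) (l 16774880)) (l 16773920)))) (c (b (a (l 16776528) (l 16776088)) (a (l 16774816) (l 16774376))) (b (a (l 16774856) (l 16774000)) (a (l 16772800) (l 16771944))))) (a (c (b (a (c (l 16776592) (l 16776144)) (l 16774696)) (a (c (l 16774296) (l 16773704)) (l 16772328))) (b (a (c (l 16775688) (l 16775208)) (l 16773376)) (a (c (l 16773104) (l 16772488)) (l 16770728)))) (c (a (b (l 16773160) (l 16770784)) (b (l 16771888) (l 16769528))) (a (b (l 16771424) (l 16768768)) (b (l 16769760) (l 16767120)))))), by decide +kernel⟩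

def k21_pm_012 : ∃ t, chk3 f_pm_012 t 35 123 1 = true :=
  ⟨(c (c (a (b (a (c (l 16774888) (l 16774144)) (c (l 16774184) (l 16773224))) (b (a (l 16773104) (l 16772296)) (a (l 16773448) (c (l 16771856) (l 16770680))))) (b (a (c (l 16773608) (l 16772424)) (a (l 16772528) (b (l 16773040) (l 16771928)))) (b (a (c (l 16772056) (l 16770752)) (a (a (l 16771064) (l 16770816)) (l 16770304))) (a (a (a (l 16770760) (l 16770560)) (l 16770072)) (l 16771328))))) (a (b (a (c (l 16773408) (l 16772664)) (c (l 16772264) (l 16771312))) (b (a (l 16771376) (l 16770136)) (a (l 16770248) (l 16770264)))) (b (a (c (l 16771248) (l 16770080)) (a (l 16769848) (b (l 16770288) (l 16769048)))) (b (a (c (l 16769464) (l 16768184)) (a (l 16768048) (l 16767376))) (a (a (l 16770624) (l 16767296)) (l 16765808)))))) (c (a (b (a (c (l 16771928) (l 16771184)) (c (l 16770368) (l 16769424))) (a (c (l 16769480) (l 16768600)) (a (l 16767792) (l 16766952)))) (b (a (c (l 16768920) (l 16767768)) (a (l 16767208) (a (l 16766840) (l 16769360)))) (b (a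 (l 16768920) (a (l 16765232) (l 16764496))) (a (a (l 16765448) (l 16764576)) (l 16762960))))) (a (b (a (c (l 16770448) (l 16769704)) (l 16770632)) (a (c (l 16767728) (l 16766856)) (c (l 16765688) (l 16764624)))) (b (a (l 16766056) (a (l 16764616) (a (l 16764136) (l 16763960)))) (b (a (l 16763824) (a (l 16762480) (l 16761656))) (a (c (l 16763064) (l 16761792)) (l 16760160))))))), by decide +kernel⟩

def k22_pm_012 : ∃ t, chk3 f_pm_012 t 36 60 1 = true :=
  ⟨(b (c (a (c (a (b (l 16781360) (l 16780528)) (l 16780568)) (a (b (l 16780368) (l 16779168)) (b (l 16779584) (l 16778616)))) (c (b (l 16780392) (l 16779872)) (a (l 16778584) (l 16778224)))) (a (c (b (a (l 16779216) (l 16778152)) (a (l 16777680) (l 16776848))) (b (a (l 16777912) (l 16776544)) (a (l 16776064) (l 16774928)))) (c (b (l 16776952) (a (l 16776096) (l 16775544))) (b (a (l 16775424) (l 16774520)) (a (l 16773904) (l 16773080)))))) (c (a (c (b (a (l 16779296) (l 16779384)) (a (l 16777800) (l 16778120))) (b (a (l 16777592) (l 16777416)) (a (l 16775752)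 (l 16775824)))) (c (b (l 16779264) (a (l 16778448) (l 16778264))) (b (c (l 16777560) (l 16776376)) (a (l 16775920) (c (l 16776256) (l 16774864)))))) (a (c (b (a (l 16775784) (l 16775320)) (a (l 16773640) (l 16773424))) (b (a (l 16773872) (l 16773096)) (a (l 16771456) (l 16770912)))) (c (b (a (l 16774792) (l 16774320)) (a (l 16773256) (c (l 16773432) (b (l 16772608) (l 16771648))))) (b (a (l 16772288) (l 16771552)) (b (a (l 16770976) (l 16770352)) (a (l 16769976) (a (l 16769656) (l 16769200))))))))), by decide +kernel⟩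

def k23_pm_012 : ∃ t, chk3 f_pm_012 t 72 61 1 = true :=
  ⟨(b (c (a (c (b (l 16776224) (c (l 16775072) (l 16773736))) (b (l 16773848) (c (l 16772392) (l 16771048)))) (c (b (l 16776592) (b (l 16775136) (a (l 16774192) (l 16773888)))) (b (l 16773976) (c (b (l 16773016) (l 16771856)) (b (l 16771592) (l 16770376)))))) (c (b (a (l 16771440) (l 16771288)) (a (c (l 16769696) (l 16768344)) (a (b (l 16769648) (l 16768328)) (b (l 16769480) (l 16767904))))) (b (a (l 16768976) (l 16768512)) (a (c (l 16766984) (l 16765624)) (a (b (l 16766752) (l 16765328)) (b (l 16766456) (l 16764808))))))) (c (c (b (a (c (b (l 16773648) (l 16772184)) (b (l 16772208) (l 16770704))) (c (l 16771832) (l 16770352))) (c (a (l 16769096) (l 16767720)) (a (l 16767624) (l 16766224)))) (b (a (b (a (l 16770152) (l 16770088)) (l 16769800)) (c (l 16768864) (l 16767360))) (a (c (l 16766152) (l 16764672)) (c (l 16764720) (l 16763208))))) (b (c (a (a (b (l 16767312) (l 16765880)) (b (l 16767144) (l 16765136))) (c (l 16765848) (l 16764328))) (a (a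 (b (l 16764472) (l 16762968)) (b (l 16764184) (l 16762160))) (c (l 16762792) (l 16761240)))) (c (a (c (l 16763208) (l 16761736)) (c (l 16761680) (l 16760152))) (a (c (l 16760264) (l 16758792)) (c (l 16758608) (l 16757056))))))), by decide +kernel⟩

def k24_pm_012 : ∃ t, chk3 f_pm_012 t 73 61 1 = true :=
  ⟨(c (b (c (b (a (c (l 16777408) (b (l 16776752) (l 16775680))) (c (l 16777320) (b (l 16776672) (l 16774880)))) (a (c (l 16774784) (l 16773312)) (l 16772544))) (b (b (a (l 16774680) (c (l 16775216) (l 16773720))) (a (c (l 16774240) (l 16772776)) (l 16772624))) (a (a (a (l 16771520) (l 16771096)) (l 16770568)) (c (l 16770264) (l 16768704))))) (c (b (c (a (l 16770480) (l 16769056)) (a (l 16768976) (l 16767520))) (c (a (l 16766264) (l 16764744)) (a (l 16764728) (l 16763168)))) (b (c (a (l 16767456) (l 16765952)) (a (l 16765912) (l 16764352))) (c (a (l 16763184) (l 16761568)) (a (l 16761616) (l 16759944)))))) (b (b (b (c (a (l 16771808) (a (l 16771720) (l 16771080))) (a (l 16768808) (a (a (l 16768656) (l 16768480))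 (l 16767800)))) (c (a (a (l 16770648) (l 16770576)) (l 16769496)) (a (a (l 16767600) (a (l 16767512) (l 16767312))) (l 16766208)))) (b (c (a (c (l 16769744) (l 16768176)) (l 16767392)) (a (a (a (l 16766304) (l 16765920)) (l 16765312)) (l 16764072))) (a (c (l 16766760) (l 16763568)) (c (l 16765208) (l 16761864))))) (c (b (a (c (l 16764344) (l 16762760)) (c (l 16762728) (l 16761072))) (a (c (l 16760032) (l 16758432)) (c (l 16758296) (l 16756616)))) (b (a (c (l 16761152) (l 16759520)) (c (l 16759392) (l 16757672))) (a (c (l 16756816) (l 16755176)) (c (l 16754920) (l 16753192))))))), by decide +kernel⟩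

def k25_pm_012 : ∃ t, chk3 f_pm_012 t 37 30 2 = true :=
  ⟨(b (b (a (c (b (l 16780320) (l 16779928)) (b (l 16778304) (l 16777592))) (c (b (l 16780152) (a (l 16779736) (l 16778688))) (b (a (l 16778368) (l 16778048)) (a (l 16777168) (l 16775992))))) (a (c (b (a (l 16779168) (l 16778896)) (a (c (l 16778608) (l 16777232)) (l 16776072))) (b (a (l 16776608) (c (l 16776896) (l 16775480))) (a (b (l 16775688) (l 16774488)) (l 16773168)))) (c (b (l 16778928) (l 16772744)) (b (a (l 16774640) (l 16772248)) (c (l 16770504) (l 16768936)))))) (b (c (b (a (c (l 16774312) (l 16772848)) (c (l 16769952) (l 16768408))) (a (a (l 16770936) (l 16768928)) (c (l 16766344) (l 16764704)))) (a (a (b (l 16771664) (c (l 16768600) (l 16766992))) (b (l 16769480) (l 16765704))) (a (b (l 16767192) (l 16763384)) (b (l 16764824) (l 16760984))))) (c (b (a (c (a (l 16767576) (l 16765872)) (a (l 16765992) (l 16764232))) (a (l 16762952) (l 16760648))) (a (c (a (l 16763192) (l 16761616)) (a (l 16761560) (l 16759912))) (a (a (l 16759488) (l 16758488))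 (l 16756792)))) (a (b (c (a (l 16764376) (l 16762552)) (a (l 16762712) (l 16760832))) (c (a (l 16759896) (l 16758184)) (a (l 16758200) (l 16756416)))) (a (b (l 16759480) (c (l 16756264) (l 16754416))) (b (l 16757056) (l 16753040))))))), by decide +kernel⟩

def k26_pm_012 : ∃ t, chk3 f_pm_012 t 37 30 3 = true :=
  ⟨(b (a (b (c (b (l 16776024) (l 16775008)) (b (l 16773480) (a (l 16772440) (l 16771960)))) (c (b (a (l 16773832) (a (l 16773528) (l 16773144))) (a (b (a (l 16772968) (l 16772608)) (l 16772704)) (l 16770032))) (b (a (c (l 16771600) (l 16770048)) (b (l 16770640) (a (l 16769992) (l 16768976)))) (a (a (b (l 16769808) (l 16768624)) (b (l 16769344) (l 16767440))) (c (l 16767520) (l 16765768)))))) (a (b (b (l 16774352) (a (c (l 16774568) (l 16771432)) (c (l 16774288) (l 16771048)))) (c (b (l 16771552) (l 16767688)) (b (l 16768184) (l 16764192)))) (b (c (b (l 16775264) (l 16772976)) (b (l 16772128) (l 16769616))) (c (b (l 16769072) (l 16765232)) (b (l 16765584) (l 16761616)))))) (b (a (a (a (c (b (l 16769024)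 (l 16765024)) (b (l 16765672) (l 16761584))) (c (b (l 16767928) (l 16764024)) (b (l 16764520) (l 16760512)))) (c (b (l 16766200) (c (l 16763168) (l 16761408))) (b (c (l 16763600) (l 16761800)) (c (l 16759608) (l 16757760))))) (a (c (b (l 16763816) (l 16759856)) (b (l 16760192) (l 16756120))) (c (b (l 16761320) (l 16757328)) (b (l 16757568) (l 16753456))))) (a (c (b (a (c (l 16761024) (l 16759296)) (c (l 16759072) (l 16757264))) (a (c (l 16756480) (l 16754720)) (l 16755008))) (b (a (c (l 16757528) (l 16755720)) (c (l 16755416) (l 16753528))) (a (c (l 16752936) (l 16751112)) (l 16752560)))) (a (c (b (l 16755824) (l 16751576)) (b (l 16751976) (l 16752888))) (c (b (l 16753264) (l 16749120)) (b (l 16749272) (l 16745032))))))), by decide +kernel⟩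

def k27_pm_012 : ∃ t, chk3 f_pm_012 t 19 30 2 = true :=
  ⟨(a (b (b (c (a (a (l 16778144) (l 16775544)) (l 16771944)) (a (a (l 16775464) (l 16772784)) (b (l 16771056) (l 16767448)))) (c (a (b (l 16771600) (l 16768104)) (b (l 16766816) (l 16763296))) (a (b (l 16768576) (l 16764872)) (b (l 16763760) (l 16760008))))) (b (c (a (b (l 16764528) (c (l 16761728) (l 16759976))) (b (l 16759704) (l 16756024))) (a (b (c (l 16761984) (l 16760200)) (c (l 16758168) (l 16756304))) (b (l 16756184) (l 16752280)))) (c (a (b (c (l 16758016) (l 16756168)) (c (l 16754208) (l 16752272))) (b (c (l 16753200) (l 16751288)) (c (l 16749392) (l 16747368)))) (a (b (c (l 16754272) (l 16752320)) (c (l 16750288) (l 16753504))) (b (l 16750920) (c (l 16745296) (l 16743176))))))) (b (c (b (a (l 16766864) (l 16761392)) (a (c (l 16760720) (l 16759208)) (l 16754592))) (b (a (l 16764192) (l 16758592)) (a (b (l 16758640) (l 16754864)) (l 16751216)))) (b (c (a (b (l 16754624) (l 16750960)) (c (l 16748464) (l 16746576))) (a (b (l 16751016) (l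 16747096)) (b (l 16745520) (l 16741640)))) (c (a (b (l 16747208) (c (l 16744416) (l 16742304))) (c (l 16741240) (l 16739064))) (a (b (l 16743096) (l 16739032)) (b (l 16737688) (l 16733664))))))), by decide +kernel⟩

def k28_pm_012 : ∃ t, chk3 f_pm_012 t 19 30 3 = true :=
  ⟨(a (b (a (a (b (c (b (l 16774176) (l 16770336)) (b (l 16770848) (l 16766864))) (c (b (l 16766544) (l 16762680)) (b (l 16762928) (l 16758928)))) (b (c (l 16769648) (l 16766136)) (c (l 16762024) (b (l 16760216) (l 16756184))))) (b (c (b (l 16768040) (l 16764224)) (a (l 16763808) (l 16761400))) (c (b (l 16760336) (l 16756384)) (a (l 16755752) (l 16753232))))) (b (c (a (b (a (l 16758744) (l 16756120)) (a (l 16754728) (l 16752088))) (b (l 16752360) (l 16748272))) (a (b (a (l 16754848) (l 16752080)) (a (l 16750712) (l 16747920))) (b (l 16748224) (l 16743976)))) (a (c (b (a (l 16750648) (l 16747992)) (c (l 16751432) (l 16744072))) (b (a (l 16746504) (l 16743696)) (a (l 16742232) (l 16739416)))) (c (b (l 16744112) (l 16745128)) (b (l 16739672)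 (l 16735320)))))) (b (b (c (a (l 16761032) (l 16755296)) (a (a (l 16758800) (l 16756024)) (l 16751472))) (c (a (b (l 16755136) (l 16751128)) (l 16747408)) (a (a (l 16750544) (l 16747720)) (l 16743168)))) (b (c (a (b (l 16747056) (l 16742920)) (b (l 16741344) (l 16737232))) (a (b (l 16742744) (l 16738440)) (b (l 16736808) (l 16732496)))) (a (c (b (l 16738728) (l 16734464)) (b (l 16734072) (l 16729656))) (c (b (l 16733056) (l 16728824)) (b (l 16728144) (l 16723736))))))), by decide +kernel⟩

def k29_pm_012 : ∃ t, chk3 f_pm_012 t 16 31 1 = true :=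
  ⟨(a (l 6) (b (a (l 6) (b (a (l 6) (b (b (b (a (l 6) (a (l 6) (c (l 16777424) (l 16777024)))) (l 6)) (l 6)) (l 6))) (l 6))) (l 6))), by decide +kernel⟩

def k30_pm_012 : ∃ t, chk3 f_pm_012 t 68 62 1 = true :=
  ⟨(b (c (c (b (a (c (b (a (l 16776624) (l 16775816)) (a (l 16775576) (l 16774792))) (b (a (l 16776448) (l 16775552)) (a (l 16775312) (l 16774432)))) (c (b (l 16774744) (l 16773744)) (b (l 16774328) (l 16773240)))) (b (b (a (c (l 16774376) (l 16774000)) (l 16774000)) (a (l 6) (c (l 16772456) (l 16771848)))) (a (l 6) (a (l 16771672) (l 16771000))))) (b (a (a (b (l 16776184) (l 16774928)) (a (l 16774776) (l 16774280))) (c (b (l 16773912) (l 16772736)) (b (l 16773496) (l 16772240)))) (a (a (l 6) (a (l 6) (l 16771776))) (c (b (l 16771544) (l 16770336)) (b (l 16770976) (l 16769680)))))) (b (b (a (a (c (l 16775816) (l 16775416)) (c (l 16774584) (l 16774024))) (c (c (l 16773080) (l 16772664)) (c (l 16772256) (l 16771840)))) (b (c (a (l 16775448) (l 16771856)) (a (l 16774872) (l 16770928))) (c (a (l 16774744)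 (l 16771168)) (a (l 16775408) (l 16770176))))) (b (c (a (c (l 16773376) (l 16773496)) (c (l 16770408) (l 16769856))) (a (c (l 16773120) (l 16774064)) (l 16771664))) (a (l 6) (c (c (l 16769048) (l 16768424)) (l 16767512)))))) (a (l 6) (a (l 6) (b (b (b (c (c (l 16770176) (l 16768640)) (l 16769072)) (l 6)) (l 6)) (l 6))))), by decide +kernel⟩

def k31_pm_012 : ∃ t, chk3 f_pm_012 t 69 124 1 = true :=
  ⟨(c (c (b (a (c (b (l 16773528) (l 16772544)) (b (l 16772912) (l 16771840))) (c (b (l 16772520) (l 16771552)) (b (l 16771688) (l 16770640)))) (a (c (b (c (l 16771744) (l 16771344)) (a (l 16770792) (l 16770152))) (b (l 16770760) (a (l 16769968) (l 16769240)))) (c (b (a (l 16770792) (c (l 16770440) (l 16769920))) (a (a (l 16769768) (l 16770816)) (l 16768888))) (b (a (l 16769848) (l 16769144)) (a (a (l 16768784) (l 16768480)) (l 16767816)))))) (b (b (a (l 16771992) (l 16770472)) (a (c (l 16771152) (l 16770464)) (c (l 16769744) (l 16768856)))) (a (a (b (l 16770000) (l 16768768)) (b (l 16769216) (a (l 16768184)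 (l 16767720)))) (c (b (a (l 16768928) (l 16768128)) (a (c (l 16770488) (l 16767376)) (l 16766760))) (b (a (l 16768016) (l 16767128)) (a (l 16769272) (l 16765728))))))) (c (a (a (b (l 16770624) (c (l 16768272) (l 16767544))) (b (l 16769632) (b (l 16767616) (l 16766160)))) (a (b (l 16768688) (b (l 16766680) (c (l 16765696) (l 16764768)))) (b (l 16767768) (b (l 16768280) (l 16764200))))) (a (a (b (l 16769464) (l 16766480)) (b (l 16768288) (c (l 16765624) (l 16764840)))) (b (a (l 16767152) (l 16766048)) (b (a (l 16764944) (l 16763752)) (a (l 16763392) (l 16762232))))))), by decide +kernel⟩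

def k32_pm_012 : ∃ t, chk3 f_pm_012 t 69 125 1 = true :=
  ⟨(c (b (a (a (c (c (b (b (l 16769952) (l 16769368)) (l 16768128)) (b (a (l 16768896) (l 16768568)) (l 16767216))) (b (c (c (l 16768040) (l 16767608)) (l 16766968)) (l 16768496))) (b (b (c (c (l 16769360) (l 16768392)) (c (l 16767448) (l 16766520))) (c (l 16767984) (l 16766088))) (c (c (l 16767080) (l 16766128)) (l 16764720)))) (c (c (b (c (l 16770304) (l 16769784)) (l 16768152)) (b (l 16769008) (l 16767136))) (c (b (l 16767992) (l 16763504)) (b (l 16764368) (l 16762512))))) (b (c (a (a (l 6) (l 16767368)) (c (l 16766248) (l 16762616))) (a (c (l 16763912) (l 16763024)) (c (l 16761624) (l 16760640)))) (a (l 6) (c (c (l 16761696) (l 16760704)) (l 16760552))))) (b (b (c (a (c (a (l 16766128) (l 16765224)) (a (l 16765312) (l 16764328))) (l 16765520)) (a (a (l 16764120) (l 16763024)) (l 16760992))) (c (a (c (l 16763960) (l 16763088)) (l 16761048)) (a (l 16767064) (l 16759152)))) (b (c (a (l 16764336) (l 16759192)) (a (l 16760024) (l 16757304))) (a (l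 6) (c (l 16757320) (l 16755440)))))), by decide +kernel⟩

def k33_pm_012 : ∃ t, chk3 f_pm_012 t 35 124 2 = true :=
  ⟨(c (a (b (a (c (b (l 16771680) (a (l 16770848) (l 16772968))) (b (l 16770640) (a (l 16769784) (l 16769192)))) (c (b (a (l 16770984) (l 16770584)) (a (l 16769768) (l 16768728))) (b (a (l 16769792) (l 16769304)) (a (l 16768528) (l 16767440))))) (a (c (b (a (c (l 16771288) (l 16772032)) (l 16768736)) (l 16769936)) (b (a (c (l 16768856) (l 16768296)) (l 16767560)) (l 16766176))) (c (b (l 16767272) (l 16765336)) (b (l 16766032) (l 16764096))))) (b (b (a (c (l 16769232) (l 16767864)) (l 16768064)) (a (c (l 16767296) (l 16765936)) (c (l 16765504) (l 16764056)))) (a (c (b (l 16765336) (l 16763360)) (b (l 16763992) (l 16762024))) (c (b (l 16763504) (l 16761488)) (b (l 16762072) (l 16760064)))))) (a (b (a (a (b (l 16769440) (l 16768216)) (b (l 16768784) (a (l 16767672) (l 16769968)))) (c (b (a (l 16768616) (l 16768032)) (a (l 16767312) (l 16766176))) (b (a (l 16767456) (l 16766784)) (l 16768192))))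 (b (a (a (b (l 16767288) (l 16766488)) (l 16765832)) (l 16766808)) (a (c (l 16765056) (l 16763944)) (l 16764896)))) (b (b (a (l 16771080) (l 16763864)) (a (l 16763920) (l 16761912))) (b (a (l 16761992) (l 16759936)) (a (l 16760048) (l 16757944)))))), by decide +kernel⟩

def k34_pm_012 : ∃ t, chk3 f_pm_012 t 35 124 3 = true :=
  ⟨(c (a (b (a (b (l 16767104) (a (l 16766176) (l 16767888))) (a (b (l 16765744) (l 16764336)) (b (l 16764936) (l 16763072)))) (b (a (a (a (l 16765032) (l 16764536)) (l 16763584)) (l 16761784)) (a (l 16767560) (l 16759880)))) (b (a (c (l 16765520) (l 16761592)) (c (l 16760760) (l 16759360))) (a (c (l 16759064) (l 16757768)) (c (l 16756840) (l 16755448))))) (a (b (a (a (l 16764912) (b (l 16764640) (l 16763112))) (b (c (l 16766160) (l 16762400)) (l 16764016))) (a (a (b (l 16762720) (l 16760856)) (l 16760472)) (c (l 16759072) (l 16757912)))) (b (a (c (l 16760304) (l 16759024)) (c (l 16757960) (l 16756576))) (a (l 16758472) (c (l 16754064) (l 16752688)))))), by decide +kernel⟩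

def k35_pm_012 : ∃ t, chk3 f_pm_012 t 35 125 1 = true :=
  ⟨(a (c (c (b (a (c (b (l 16765400) (l 16763456)) (b (l 16764272) (l 16762344))) (c (b (l 16763368) (l 16761392)) (b (l 16762152) (l 16760184)))) (a (c (b (l 16761504) (l 16759528)) (b (l 16760408) (l 16758448))) (c (b (l 16759400) (l 16757384)) (b (l 16758208) (l 16756208))))) (b (b (a (l 16765232) (l 16760344)) (a (l 16763328) (l 16758392))) (a (b (l 16758784) (l 16756840)) (b (l 16756432) (l 16754456))))) (b (c (a (a (l 16762744) (l 16758880)) (c (l 16757600) (l 16756424))) (a (c (l 16757912) (l 16756872)) (l 16756656))) (c (a (c (l 16757528) (l 16755168)) (c (l 16753704) (l 16752552))) (a (c (l 16754128) (l 16753088)) (l 16753456))))) (c (b (b (c (c (a (l 16761368) (l 16759456)) (a (l 16760048) (l 16758040))) (a (l 16758080) (l 16755936))) (c (c (a (l 16759352) (l 16757400)) (a (l 16758048) (l 16756000))) (a (l 16756104) (l 16753920)))) (c (a (c (b (l 16757320) (l 16755280)) (b (l 16756032) (l 16754000))) (c (b (l 16755328) (l 16753240)) (b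 (l 16753944) (l 16751872)))) (a (a (l 16755008) (l 16755152)) (a (l 16753352) (l 16752960))))) (b (c (a (c (l 16755168) (l 16753888)) (c (l 16752856) (l 16751480))) (a (l 16754616) (l 16752704))) (c (a (c (l 16751216) (l 16749952)) (c (l 16748816) (l 16747464))) (a (l 16748080) (l 16750672)))))), by decide +kernel⟩

def k36_pm_012 : ∃ t, chk3 f_pm_012 t 34 63 1 = true :=
  ⟨(a (l 6) (a (l 6) (a (l 6) (a (l 6) (b (b (b (c (c (l 16758416) (l 16756416)) (l 16753464)) (l 6)) (l 6)) (l 6)))))), by decide +kernel⟩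

def k37_pm_012 : ∃ t, chk3 f_pm_012 t 35 126 1 = true :=
  ⟨(c (a (b (c (a (c (b (l 16757536) (l 16755528)) (b (l 16756472) (l 16754480))) (c (b (l 16755352) (l 16753304)) (b (l 16754192) (l 16752168)))) (a (b (l 16754888) (l 16752920)) (a (l 16754040) (l 16753488)))) (c (a (a (l 6) (b (l 16752408) (l 6))) (c (b (l 16751240) (l 16749152)) (b (l 16750120) (l 16748056)))) (a (a (l 6) (l 16751928)) (c (l 16750600) (l 16746864))))) (b (c (c (a (b (l 16753216) (l 16751128)) (b (l 16751136) (l 16749016))) (a (b (l 16751952) (l 16749896)) (b (l 16749784) (l 16747680)))) (a (c (l 16752304) (l 16748440)) (c (l 16750016) (l 16746064)))) (c (c (a (b (l 16749032) (l 16746920)) (b (l 16746880) (l 16744720))) (a (b (l 16747816) (l 16745720)) (l 16747120))) (c (a (l 16745560) (l 16743192)) (a (l 16744344) (l 16741888)))))) (a (b (c (a (c (l 16754968) (l 16751312)) (c (l 16749760) (l 16748624))) (a (l 16752384) (l 16746928))) (c (a (c (l 16748408) (l 16747392)) (l 16747816)) (a (l 16745872) (l 16742968)))) (b (c (a (l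 16749208) (l 16746680)) (a (l 16744120) (l 16741384))) (c (a (l 16742528) (l 16739920)) (a (l 16740104) (l 16737288)))))), by decide +kernel⟩

def k38_pm_012 : ∃ t, chk3 f_pm_012 t 35 127 1 = true :=
  ⟨(a (a (l 6) (a (l 6) (b (b (c (c (l 16745880) (l 16743664)) (l 16740320)) (l 6)) (l 6)))) (c (b (c (c (b (a (l 16744728) (l 16742616)) (a (l 16742976) (l 16740896))) (b (a (l 16743552) (l 16741336)) (l 16740680))) (a (b (l 16741776) (l 16740016)) (b (l 16739416) (l 16737672)))) (c (c (b (a (l 16741280) (l 16739240)) (a (l 6) (l 16737568))) (b (l 16739000) (a (l 6) (l 16736272)))) (a (c (l 16738048) (l 16736848)) (c (l 16738432) (l 16734496))))) (a (b (c (b (l 16739408) (l 16737632)) (l 16741448)) (c (l 16735024) (l 16732568))) (b (c (c (l 16741968) (l 16735416)) (l 16738688)) (c (l 16732520) (l 16729840)))))), by decide +kernel⟩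

def k39_pm_012 : ∃ t, chk3 f_pm_012 t 18 124 2 = true :=
  ⟨(a (a (c (b (c (a (l 16765040) (l 16763528)) (a (l 16763560) (l 16762024))) (c (a (b (l 16761936) (l 16759848)) (l 16759256)) (a (l 16759432) (l 16757744)))) (b (a (c (l 16762088) (l 16760616)) (c (l 16760504) (l 16758984))) (a (c (l 16757968) (l 16756504)) (c (l 16756232) (l 16754712))))) (c (b (c (a (l 16761960) (l 16760352)) (a (l 16760408) (l 16758744))) (c (a (l 16757584) (l 16755880)) (a (l 16756016) (l 16754256)))) (b (c (a (l 16758840) (l 16757120)) (a (l 16757264) (l 16755472))) (c (a (l 16754440) (l 16752608)) (a (l 16752848) (l 16750944)))))) (c (a (b (c (a (l 16758720) (l 16757080)) (a (l 16757048) (l 16755336))) (c (a (l 16754176) (l 16752480)) (a (l 16752472) (l 16750696)))) (b (c (a (l 16755448) (l 16753632)) (a (l 16753624) (l 16751728))) (c (a (l 16750792) (l 16749136)) (a (l 16748928) (l 16747176))))) (a (b (c (a (l 16755352) (l 16753568)) (a (l 16753632) (l 16751760))) (c (a (l 16750752) (l 16748888)) (a (l 16749008) (l 16747056))))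 (a (b (l 16753448) (l 16748688)) (b (l 16751424) (l 16749424)))))), by decide +kernel⟩

def k40_pm_012 : ∃ t, chk3 f_pm_012 t 18 124 3 = true :=
  ⟨(a (a (c (b (a (c (l 16759152) (l 16757680)) (c (l 16757456) (l 16755920))) (a (c (l 16755040) (l 16753576)) (c (l 16753184) (l 16751648)))) (b (a (c (l 16756216) (l 16754744)) (c (l 16754376) (l 16752824))) (a (l 16754008) (l 16754568)))) (a (c (b (c (l 16755664) (l 16754056)) (c (l 16751248) (l 16749632))) (b (l 16755544) (l 16752424))) (c (b (c (l 16753800) (l 16752112)) (l 16753656)) (b (l 16754776) (l 16744976))))) (a (a (c (b (l 16753624) (l 16751592)) (b (l 16752640) (l 16742720))) (c (b (l 16754240) (l 16744264)) (b (l 16745208) (l 16740440)))) (a (c (b (l 16746984) (l 16742168)) (b (l 16742992) (l 16738144))) (c (b (l 16744776) (l 16740072)) (b (l 16740600) (l 16735840)))))), by decide +kernel⟩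

def k41_pm_012 : ∃ t, chk3 f_pm_012 t 18 125 1 = true :=
  ⟨(c (a (a (c (b (c (a (b (l 16757744) (l 16755616)) (b (l 16756008) (l 16753816))) (a (b (l 16756280) (l 16754168)) (l 16753408))) (c (a (b (l 16753472) (l 16751304)) (b (l 16751608) (l 16749376))) (a (l 16752600) (l 16749000)))) (b (c (a (l 16753776) (l 16751896)) (a (l 16752328) (l 16750376))) (c (a (l 16749528) (l 16747488)) (a (l 16748088) (l 16745984))))) (c (b (c (a (l 16753128) (l 16751336)) (a (l 16751552) (l 16749696))) (c (a (l 16751224) (l 16746720)) (a (l 16747024) (l 16745064)))) (b (c (a (l 16749968) (l 16748032)) (a (l 16748376) (l 16746360))) (c (a (l 16745448) (l 16743400)) (a (l 16743856) (l 16741720)))))) (c (a (b (c (a (l 16749560) (l 16747800)) (a (l 16747832) (l 16745984))) (c (a (l 16744872) (l 16743056)) (a (l 16743128) (l 16741216)))) (b (c (a (l 16746072) (l 16744376)) (a (l 16744160) (l 16742368))) (c (a (l 16741272) (l 16739544)) (a (l 16739336) (l 16737504))))) (a (a (b (c (l 16746088) (l 16744328)) (l 16745728)) (b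 (l 16747160) (l 16743664))) (a (b (l 16746504) (l 16741640)) (b (l 16739312) (l 16734400)))))) (a (a (c (b (a (c (l 16750872) (l 16749424)) (l 16752016)) (a (l 16748560) (l 16748952))) (b (a (l 16747240) (l 16745008)) (a (l 16743056) (l 16740648)))) (a (c (b (l 16751208) (l 16741448)) (b (l 16742712) (l 16738208))) (c (b (l 16749064) (l 16739176)) (b (l 16740376) (l 16735744))))) (a (c (a (b (l 16741648) (l 16736904)) (b (l 16739480) (l 16734648))) (b (c (l 16743000) (l 16746352)) (l 16737272))) (c (b (c (l 16742480) (l 16735184)) (c (l 16732320) (l 16730256))) (b (l 16742552) (l 16727120)))))), by decide +kernel⟩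

def k42_pm_012 : ∃ t, chk3 f_pm_012 t 18 126 1 = true :=
  ⟨(c (c (a (b (a (c (a (b (l 16749128) (l 16746936)) (b (l 16747136) (l 16744872))) (a (l 16749248) (l 16744520))) (c (a (l 16746624) (l 16742040)) (a (l 16742432) (l 16740376)))) (a (c (a (b (l 16744720) (l 16742488)) (b (l 16742592) (l 16740232))) (a (l 16742224) (l 16745144))) (c (b (l 16739472) (a (l 16738136) (l 16736256))) (b (l 16737864) (l 16738224))))) (b (a (c (a (l 16740112) (l 16738232)) (a (l 16738352) (l 16736376))) (c (a (l 16736408) (l 16734648)) (a (l 16734448) (l 16732568)))) (a (c (b (l 16738048) (a (l 16734504) (l 16732808))) (b (l 16733616) (l 16731880))) (c (b (a (l 16732816) (l 16731328)) (l 16730568)) (b (l 16730064) (l 16728504)))))) (a (b (b (a (c (l 16745208) (l 16743752)) (c (l 16740936) (l 16739304))) (a (c (l 16743000) (l 16741552)) (l 16743024))) (b (a (c (l 16740776) (l 16739336)) (l 16740680)) (a (c (l 16738464) (l 16737040)) (c (l 16733984) (l 16732360))))) (b (a (c (l 16740768) (l 16738944)) (c (l 16731456) (l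 16729416))) (b (a (c (l 16731800) (l 16729976)) (c (l 16728016) (l 16725952))) (a (c (l 16730040) (l 16728192)) (l 16725392)))))) (b (a (b (c (a (l 16746800) (l 16736832)) (a (l 16738616) (l 16733512))) (c (a (l 16744616) (l 16734512)) (a (l 16736440) (l 16731200)))) (a (c (c (l 16731856) (l 16730008)) (l 16727200)) (c (l 16731560) (l 16722152)))) (b (a (c (a (l 16737168) (l 16732168)) (a (l 16734264) (l 16728872))) (c (a (l 16727216) (l 16722840)) (a (l 16723496) (l 16718656)))) (a (a (c (l 16740136) (l 16732008)) (c (l 16735160) (l 16726624))) (c (a (l 16725408) (l 16721200)) (a (l 16721656) (l 16716968))))))), by decide +kernel⟩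

def k43_pm_012 : ∃ t, chk3 f_pm_012 t 18 127 1 = true :=
  ⟨(c (a (b (b (c (a (c (a (l 16740504) (l 16738440)) (a (l 16739136) (l 16736976))) (c (l 16735520) (l 16733896))) (a (c (l 16736656) (l 16735224)) (l 16731456))) (c (c (a (l 16737776) (l 16734024)) (a (l 16736352) (l 16732392))) (a (l 16736824) (l 16729920)))) (c (a (c (b (l 16736184) (c (l 16734928) (l 16734208))) (b (l 16734744) (l 16733120))) (c (b (l 16732512) (c (l 16731384) (l 16730560))) (b (l 16730864) (l 16729312)))) (a (c (b (l 16733304) (l 16731664)) (b (l 16731848) (l 16730200))) (b (l 16728368) (a (l 16727800) (l 16725840)))))) (c (b (b (c (a (l 16732152) (l 16729264)) (a (l 16730312) (l 16727176))) (c (a (l 16730744) (l 16727944)) (a (l 16728880) (l 16725832)))) (a (c (b (l 16729312) (c (l 16728336) (l 16727384))) (b (l 16727432) (l 16725960))) (c (b (l 16726600) (c (l 16725768) (l 16724696))) (b (l 16724464) (l 16723072))))) (b (a (c (l 16727736) (l 16725864)) (c (l 16724392) (l 16722272))) (a (c (b (l 16725536) (l 16724048)) (l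 16722880)) (c (a (l 16722376) (l 16720896)) (l 16719440)))))) (a (b (a (c (b (l 16738312) (l 16731304)) (b (l 16730160) (l 16728376))) (c (c (l 16728216) (l 16726552)) (l 16724040))) (c (a (a (l 16730032) (l 16727640)) (c (l 16725056) (l 16723360))) (a (c (l 16726584) (l 16725080)) (l 16720776)))) (b (c (a (l 16723024) (c (l 16720136) (l 16717984))) (a (l 16719208) (l 16714736))) (c (a (c (l 16720952) (l 16719008)) (c (l 16717248) (l 16715048))) (a (l 16716064) (l 16711704)))))), by decide +kernel⟩

def k44_pm_012 : ∃ t, chk3 f_pm_012 t 38 62 1 = true :=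
  ⟨(c (b (c (b (a (c (a (l 16751480) (l 16749168)) (a (l 16749496) (l 16747104))) (c (l 16745488) (l 16743368))) (a (c (a (l 16747312) (l 16745160)) (a (l 16745256) (l 16743024))) (c (l 16741488) (l 16739272)))) (a (a (b (l 16746448) (l 16742120)) (b (l 16743944) (l 16739752))) (b (c (l 16741200) (l 16738992)) (c (l 16737024) (l 16734736))))) (c (a (b (c (a (l 16742720) (l 16740904)) (a (l 16740616) (l 16738696))) (c (a (l 16737872) (l 16736232)) (a (l 16735712) (l 16733968)))) (b (c (a (l 16738640) (l 16736200)) (l 16735088)) (c (a (l 16734288) (l 16732008)) (l 16735960)))) (a (a (b (l 16737400) (l 16732448)) (b (l 16740584) (l 16730544))) (b (c (l 16732760) (l 16730400)) (c (l 16728320) (l 16725896)))))) (b (a (c (b (c (l 16747224) (l 16739808)) (c (l 16742856) (l 16745872))) (b (a (l 16737904) (l 16735064)) (a (l 16733384) (l 16730664)))) (c (b (l 16740840) (l 16741720)) (b (l 16730896) (l 16726424)))) (a (c (b (c (l 16732976) (l 16730712)) (l 16733504)) (b (l 16737752) (l 16722336))) (c (b (l 16737288)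 (l 16724832)) (b (l 16721896) (l 16717216)))))), by decide +kernel⟩

def k45_pm_012 : ∃ t, chk3 f_pm_012 t 38 63 2 = true :=
  ⟨(b (c (a (b (c (a (l 16732848) (b (l 16732536) (l 16730136))) (a (l 16730664) (l 16728928))) (c (a (l 16729360) (c (l 16728688) (l 16727512))) (a (l 16727120) (l 16725736)))) (b (c (a (b (l 16730768) (l 16728704)) (b (l 16728704) (l 16727304))) (a (l 16727264) (l 16728184))) (c (c (l 16726904) (l 16725640)) (c (l 16724384) (l 16723112))))) (a (a (b (l 16732600) (c (l 16724872) (l 16722616))) (b (c (l 16726616) (l 16724288)) (c (l 16723368) (l 16720976)))) (b (c (b (l 16724760) (l 16723112)) (b (l 16722296) (l 16720608))) (c (l 16721208) (l 16718648))))) (c (a (b (c (a (l 16726800) (c (l 16726328) (l 16725120))) (a (l 16724504) (l 16723296))) (c (a (c (l 16724832) (l 16723656)) (a (l 16723512) (a (l 16723160) (l 16722888)))) (a (l 16721896) (c (l 16721392) (l 16720152))))) (b (b (c (l 16724600) (l 16722016)) (c (a (l 16724000) (l 16722976)) (l 16720848))) (b (c (c (l 16722968)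 (l 16721648)) (l 16719656)) (c (c (a (l 16722272) (l 16721376)) (l 16720456)) (c (l 16719112) (l 16717768)))))) (a (b (c (a (l 16722200) (l 16720856)) (l 16719112)) (c (a (l 16719528) (l 16718272)) (a (l 16717152) (l 16715752)))) (b (c (c (l 16719472) (l 16718160)) (l 16716184)) (c (a (l 16716984) (l 16715792)) (a (l 16714344) (l 16713016))))))), by decide +kernel⟩

def k46_pm_012 : ∃ t, chk3 f_pm_012 t 38 63 3 = true :=
  ⟨(b (a (c (b (a (l 16722904) (l 16723384)) (c (l 16719496) (l 16717144))) (b (a (l 16718392) (l 16716016)) (a (l 16714600) (l 16712512)))) (a (c (b (c (l 16719968) (l 16717496)) (l 16715624)) (b (l 16713768) (l 16710528))) (c (b (c (l 16717968) (l 16715392)) (l 16713976)) (b (l 16716744) (l 16708632))))) (c (a (a (b (l 16716368) (l 16713552)) (b (l 16714688) (a (l 16712344) (l 16711552)))) (b (c (l 16713536) (l 16710864)) (c (a (l 16711680) (l 16710232)) (l 16708184)))) (a (b (c (l 16711864) (l 16709424)) (c (l 16708984) (l 16706472))) (b (l 16706824) (c (l 16705416) (l 16702632)))))),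 by decide +kernel⟩

def k47_pm_012 : ∃ t, chk3 f_pm_012 t 39 62 2 = true :=
  ⟨(a (b (c (c (b (l 16740544) (l 16736584)) (b (l 16738320) (l 16734248))) (b (l 16734888) (l 16730664))) (c (b (c (l 16732528) (l 16730088)) (c (l 16728392) (l 16725856))) (b (l 16726368) (c (l 16723296) (l 16720712))))) (a (b (c (c (l 16734928) (l 16732536)) (l 16728864)) (c (b (l 16727680) (c (l 16724808) (l 16722144))) (b (l 16722496) (c (l 16719448) (l 16716736))))) (b (c (c (l 16732480) (l 16730008)) (l 16726216)) (c (b (l 16725272) (c (b (l 16723584) (l 16722016)) (l 16719984))) (b (l 16719904) (c (l 16717200) (l 16714384))))))), by decide +kernel⟩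

def k48_pm_012 : ∃ t, chk3 f_pm_012 t 39 63 2 = true :=
  ⟨(a (b (c (a (b (c (l 16728888) (l 16723680)) (c (l 16724512) (l 16721824))) (c (b (l 16724440) (l 16723080)) (b (l 16721752) (l 16720288)))) (b (c (b (l 16720464) (l 16719440)) (b (l 16717816) (l 16716744))) (c (l 16718248) (l 16715464)))) (c (c (b (c (a (l 16723312) (l 16722368)) (a (l 16721928) (l 16720928))) (b (c (a (l 16721704) (l 16721032)) (l 16719904)) (c (a (l 16720616) (l 16719992)) (a (l 16719176) (l 16718488))))) (b (a (l 16719848) (c (l 16719480) (l 16718024))) (b (a (l 16718160) (l 16717328)) (c (l 16717336) (l 16715864))))) (b (c (a (l 16717048) (l 16715840)) (a (l 16714232) (l 16712896))) (b (c (l 16714808) (l 16711864)) (c (a (l 16714120) (l 16713200)) (l 16710656)))))) (b (c (c (b (a (l 16722672) (l 16721168)) (a (l 16721616) (c (l 16721000) (l 16719496)))) (b (a (l 16719888) (l 16718280)) (a (l 16718712) (l 16717240)))) (b (c (a (l 16717088) (l 16715376)) (a (l 16714264) (l 16712448))) (c (a (l 16715800) (l 16714216)) (a (l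 16712856) (l 16711160))))) (c (b (c (a (c (l 16721208) (l 16719712)) (b (l 16719488) (c (l 16719728) (l 16718160)))) (a (l 16717448) (c (l 16716880) (l 16715312)))) (b (c (a (c (l 16720240) (l 16718704)) (c (l 16719168) (l 16717568))) (a (l 16716384) (c (l 16715968) (l 16714352)))) (c (a (c (c (l 16719824) (l 16719048)) (l 16717872)) (c (a (l 16718856) (l 16718368)) (a (l 16717248) (l 16716720)))) (a (c (l 16716304) (l 16714728)) (c (a (l 16715624) (l 16715072)) (l 16713680)))))) (b (c (a (l 16714416) (c (l 16713736) (l 16712152))) (a (l 16711360) (l 16709768))) (c (a (c (l 16713576) (l 16712000)) (a (l 16711920) (a (l 16711440) (l 16711120)))) (a (l 16709624) (c (l 16709104) (l 16707456)))))))), by decide +kernel⟩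

def k49_pm_012 : ∃ t, chk3 f_pm_012 t 39 31 3 = true :=
  ⟨(b (b (a (c (b (l 16730144) (l 16725752)) (b (l 16725192) (l 16720664))) (c (b (l 16724536) (l 16720176)) (b (l 16719280) (l 16714776)))) (a (c (b (l 16721296) (l 16716792)) (b (l 16716088) (l 16711472))) (c (b (l 16715768) (a (l 16712616) (a (l 16710688) (l 16709496)))) (b (l 16710224) (b (l 16706776) (l 16704760)))))) (a (b (c (a (b (c (l 16715800) (l 16713136)) (l 16712264)) (b (l 16712208) (l 16710352))) (b (c (l 16714552) (l 16706544)) (l 16705576))) (c (b (c (l 16710608) (l 16707688)) (c (a (l 16708896) (l 16707696)) (l 16705264))) (b (l 16703264) (c (l 16702232) (l 16699168))))) (b (c (a (c (l 16710696) (l 16707760)) (b (l 16708008) (l 16706536))) (a (b (l 16704208) (l 16702376)) (c (l 16702704) (l 16699616)))) (c (b (a (l 16706728) (c (l 16706568) (l 16703344))) (a (c (l 16706432) (l 16703216)) (c (l 16704960) (l 16701616)))) (a (b (l 16700464) (l 16698336)) (b (l 16698456) (l 16701784))))))), by decide +kernel⟩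

def k50_pm_012 : ∃ t, chk3 f_pm_012 t 40 6 1 = true :=
  ⟨(b (b (a (b (a (l 3) (a (l 3) (b (l 3) (c (c (l 146733641463) (l 158544786423)) (c (l 169819061271) (l 180019595047)))))) (a (b (l 3) (a (l 3) (c (l 147270487959) (l 168745299623)))) (b (a (c (b (l 155860434455) (l 139754295863)) (b (l 177335243447) (l 147270466967))) (c (c (l 16825240) (l 16818456)) (c (l 138143671351) (l 140291149431)))) (c (c (l 16819672) (l 16813504)) (c (l 16818240) (l 16812904)))))) (b (a (a (b (c (c (l 142975551095) (a (l 151028600647) (l 119890084471))) (b (a (l 3) (l 161765995255)) (c (l 152102324119) (l 158007890183)))) (c (c (l 128480031207) (l 132774984295)) (b (c (l 140828031527) (l 145122987319)) (l 16810984)))) (b (c (c (l 16831928) (l 112373890727)) (c (l 118279457495) (l 125258765911))) (c (l 16823608) (l 16810480)))) (c (b (l 16823784) (l 16820448)) (b (l 16810624) (l 16808416)))) (a (b (c (l 16818632) (l 16806800)) (a (l 16808384) (l 16807864))) (c (l 16814464) (l 16805824))))) (b (b (a (a (a (c (l 144586124855)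 (l 165524067495)) (c (l 16813456) (l 16802608))) (c (l 16810664) (l 16800936))) (c (l 16834536) (l 16826032))) (a (c (a (l 16808344) (l 16806664)) (a (a (l 16799416) (l 16798472)) (l 16800072))) (c (l 16809880) (l 16796752)))) (a (a (c (l 16824520) (l 16818704)) (c (l 16804128) (l 16813328))) (c (l 16824016) (l 16802568))))) (c (b (a (b (l 16816280) (l 16793824)) (b (l 16801608) (l 16802696))) (a (b (l 16793216) (l 16789728)) (b (l 16803144) (l 16800720)))) (b (a (b (l 16805816) (l 16782416)) (b (l 16791112) (l 16785216))) (a (b (l 16791256) (l 16776912)) (b (l 16793944) (l 16779904)))))), by decide +kernel⟩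

def k51_pm_012 : ∃ t, chk3 f_pm_012 t 41 6 1 = true :=
  ⟨(a (a (b (c (b (b (l 16818648) (l 16821672)) (l 16829448)) (b (b (l 16807960) (l 16809976)) (b (l 16791304) (l 16779048)))) (b (b (l 16789272) (l 16785480)) (b (l 16800544) (b (l 16779128) (l 16802832))))) (b (b (b (l 16837352) (l 16833096)) (c (l 16832872) (l 16825136))) (b (c (l 16815088) (l 16809520)) (b (l 16804832) (c (l 16816440) (l 16780336)))))) (a (b (b (b (l 16836432) (l 16828944)) (b (l 16817040) (l 16818808))) (b (b (l 16795848) (a (l 16792336) (l 16794544))) (b (c (l 16824336) (l 16775952)) (c (l 16822512) (l 16772176))))) (b (a (b (c (l 16838168) (l 16844728)) (b (l 16802112) (l 16820912))) (b (b (l 16807336) (l 16805472)) (b (l 16802952) (l 16801544)))) (a (b (c (b (l 16823272) (l 16827200)) (b (l 16775224) (l 16790080))) (c (b (l 16829400) (l 16827160)) (b (l 16767032) (l 16761456)))) (b (b (b (l 16801128) (l 16800656)) (l 16782736)) (c (b (l 16833080) (l 16830488)) (b (l 16758040) (l 16753336)))))))), by decide +kernel⟩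

def k52_pm_012 : ∃ t, chk3 f_pm_012 t 21 6 1 = true :=
  ⟨(b (c (b (b (l 16826408) (l 16833008)) (b (l 16839440) (l 16845856))) (b (b (l 16818608) (l 16808304)) (b (a (l 16790536) (l 16805752)) (l 16805984)))) (b (c (b (a (l 16840144) (l 16866320)) (a (l 16846056) (l 16873944))) (b (l 16813336) (l 16804912))) (c (b (a (l 16848968) (l 16879000)) (a (l 16847720) (l 16880496))) (b (a (l 16759704) (l 16781800)) (a (l 16754024) (l 16763208)))))), by decide +kernel⟩

def k53_pm_012 : ∃ t, chk3 f_pm_012 t 40 14 1 = true :=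
  ⟨(c (b (a (b (l 16780344) (c (l 16791232) (l 16804008))) (b (b (l 16795360) (l 16788992)) (b (l 16780504) (l 16775680)))) (b (c (a (l 16776192) (l 16779504)) (b (l 16794816) (l 16789112))) (c (b (l 16784872) (a (l 16761880) (l 16755176))) (b (a (l 16766176) (l 16758832)) (a (l 16759488) (l 16752464)))))) (a (b (b (l 16781936) (b (l 16783424) (a (l 16783344) (l 16780792)))) (b (b (l 16776168) (l 16769408)) (b (c (l 16763736) (l 16760608)) (c (l 16756488) (l 16752888))))) (b (b (c (l 16782432) (l 16803216)) (b (l 16780288) (l 16774144))) (b (b (l 16767976) (l 16761432)) (b (l 16754528) (c (l 16749176) (l 16745296))))))), by decide +kernel⟩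

def k54_pm_012 : ∃ t, chk3 f_pm_012 t 40 30 1 = true :=
  ⟨(b (c (c (b (a (l 16755528) (l 16749160)) (a (l 16748928) (l 16742912))) (b (a (l 16752496) (l 16745792)) (a (l 16745280) (l 16738912)))) (b (c (a (l 16748960) (l 16741936)) (a (l 16744904) (l 16737584))) (a (c (l 16741216) (l 16736712)) (c (l 16734504) (l 16729680))))) (c (c (b (a (l 16752568) (l 16746896)) (a (c (l 16736112) (l 16733776)) (c (l 16730904) (l 16728368)))) (b (a (l 16737840) (l 16731792)) (a (b (l 16732096) (l 16728184)) (c (l 16725768) (l 16723112))))) (b (a (c (l 16733256) (l 16728328)) (c (l 16726856) (l 16721592))) (a (c (b (l 16727152) (l 16723016)) (l 16719768)) (c (l 16724256) (l 16713336)))))), by decide +kernel⟩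

def k55_pm_012 : ∃ t, chk3 f_pm_012 t 40 62 2 = true :=
  ⟨(b (b (c (a (l 16729384) (l 16724360)) (a (l 16724200) (l 16718776))) (c (a (c (l 16726912) (l 16724232)) (c (l 16722184) (l 16719304))) (a (l 16720152) (l 16714904)))) (c (a (b (c (l 16723088) (l 16720288)) (c (a (b (l 16721304) (l 16720392)) (l 16719360)) (a (l 16718096) (l 16716392)))) (b (c (a (l 16719672) (l 16717832)) (a (l 16716712) (l 16714760))) (c (a (l 16717888) (l 16716616)) (a (l 16714800) (l 16713416))))) (a (b (c (l 16717464) (l 16714608)) (c (a (l 16715200) (l 16713392)) (a (l 16712288) (l 16710368)))) (a (b (l 16712224) (l 16710128)) (b (a (l 16710536) (l 16709560)) (l 16708560)))))), by decide +kernel⟩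

def k56_pm_012 : ∃ t, chk3 f_pm_012 t 80 63 2 = true :=
  ⟨(b (c (c (b (a (l 16719768) (l 16718424)) (a (c (l 16719712) (l 16718160)) (l 16717632))) (b (a (l 16716776) (l 16715320)) (a (l 16715816) (l 16714400)))) (b (c (a (l 16713760) (l 16712192)) (a (l 16710720) (l 16709040))) (c (a (l 16712672) (l 16711152)) (a (l 16709512) (l 16707872))))) (c (b (b (c (a (l 16718240) (l 16716968)) (a (l 16715032) (l 16713648))) (c (a (c (l 16718552) (l 16716928)) (c (l 16717328) (l 16715648))) (a (l 16714472) (l 16713112)))) (c (a (c (b (a (l 16718376) (l 16717760)) (a (c (l 16718248) (l 16717408)) (l 16717224))) (b (l 16716384) (a (l 16716152) (l 16715528)))) (c (b (l 16716840) (b (l 16716456) (a (l 16716512) (l 16715936)))) (b (l 16715128) (a (l 16714920) (l 16714320))))) (a (c (b (l 16714720) (a (l 16714472) (l 16713824))) (b (l 16713056) (l 16712424))) (c (b (l 16713408) (a (l 16713184) (l 16712560))) (b (l 16711688) (l 16711080)))))) (b (c (a (c (l 16712312) (l 16710672)) (l 16710008)) (a (l 16708200) (l 16706608)))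 (b (c (a (l 16710536) (l 16709088)) (a (l 16707152) (l 16705600))) (c (a (c (l 16710720) (l 16709008)) (c (l 16709320) (l 16707552))) (a (l 16706424) (l 16704888))))))), by decide +kernel⟩

def k57_pm_012 : ∃ t, chk3 f_pm_012 t 81 63 2 = true :=
  ⟨(c (b (c (b (a (l 16717160) (l 16715984)) (a (l 16719024) (c (l 14) (l 16714392)))) (b (a (l 16713944) (l 16712656)) (a (l 16713064) (l 16711800)))) (b (b (c (a (l 16715768) (l 16714632)) (a (l 16712336) (l 16711088))) (c (a (c (l 16716176) (l 16714440)) (c (l 14) (l 16713288))) (a (l 16711824) (l 16710592)))) (c (a (c (a (b (l 16716008) (c (l 14) (l 16715064))) (l 14)) (b (l 16713936) (a (l 16713728) (l 16713152)))) (c (l 14) (b (l 16712800) (a (l 16712592) (c (l 14) (l 16711576)))))) (a (c (b (l 16712168) (a (l 16711944) (l 16711344))) (b (l 16710392) (l 16711112))) (c (b (l 16710976) (a (l 16710752) (l 16710168))) (b (l 16709144) (a (l 16708904) (l 16708296)))))))) (b (b (c (a (l 16710712) (l 16709304)) (l 16706632)) (c (a (l 16709704) (l 16708320)) (a (l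 16706312) (l 16704816)))) (b (c (a (l 16708600) (c (l 16708152) (l 16706344))) (a (l 16705088) (l 16703624))) (b (c (a (l 16707704) (l 16706376)) (a (l 16704104) (l 16702664))) (c (a (c (l 16707992) (l 16706168)) (c (l 16706704) (l 16704824))) (a (l 16703416) (l 16701992))))))), by decide +kernel⟩

def k58_pm_012 : ∃ t, chk3 f_pm_012 t 40 31 3 = true :=
  ⟨(b (b (a (c (b (l 16718816) (l 16714560)) (b (l 16713224) (l 16708808))) (c (b (l 16713000) (l 16708912)) (b (l 16707032) (l 16702776)))) (a (c (b (l 16710256) (a (c (l 16709344) (l 16706384)) (l 16705784))) (b (l 16704344) (a (l 16701880) (l 16699584)))) (c (a (b (l 16706136) (l 16703800)) (b (l 16703792) (l 16702008))) (b (a (l 16699928) (l 16697368)) (l 16696440))))) (a (b (c (a (b (l 16706112) (l 16704712)) (b (l 16704264) (l 16702912))) (a (c (l 16700672) (l 16697472)) (b (l 16697808) (l 16696192)))) (c (b (c (a (l 16704888) (l 16703184)) (a (l 16701544) (l 16699728))) (a (c (l 16703360) (l 16699888)) (c (l 16701696) (l 16698120)))) (b (a (l 16696472)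 (l 16694488)) (a (l 16699872) (l 16692688))))) (a (b (c (c (l 16706168) (l 16700168)) (l 16700280)) (c (b (c (l 16701544) (l 16697976)) (c (l 16700104) (l 16696408))) (b (l 16692560) (l 16690800)))) (b (c (c (l 16704544) (l 16698424)) (l 16698360)) (c (b (c (l 16699968) (l 16696280)) (c (b (l 16698912) (l 16698184)) (l 16694744))) (b (l 16690688) (l 16688960))))))), by decide +kernel⟩

def k59_pm_012 : ∃ t, chk3 f_pm_012 t 82 14 1 = true :=
  ⟨(b (b (c (a (l 16801856) (l 16807664)) (a (l 16780136) (l 16773224))) (c (c (l 16822120) (l 16767536)) (c (l 16766840) (l 16765208)))) (c (b (c (l 16756272) (l 16758112)) (c (b (l 16768056) (l 16747328)) (b (l 16750016) (l 16744192)))) (b (a (l 16757808) (l 16752200)) (b (l 16766152) (c (l 16740520) (l 16736312)))))), by decide +kernel⟩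

def k60_pm_012 : ∃ t, chk3 f_pm_012 t 82 30 1 = true :=
  ⟨(c (b (c (b (l 16741896) (l 16736216)) (b (l 16738088) (l 16731768))) (c (b (l 16740776) (c (l 16725464) (l 16722696))) (b (l 16725224) (c (l 16719872) (l 16716992))))) (b (b (c (l 16733840) (l 16729128)) (c (l 16726952) (l 16721760))) (b (c (l 16719864) (l 16714216)) (c (a (l 16714368) (l 16711056)) (a (l 16708392) (l 16704864)))))), by decide +kernel⟩

def k61_pm_012 : ∃ t, chk3 f_pm_012 t 82 62 1 = true :=
  ⟨(c (b (c (a (c (l 16720448) (l 16717448)) (b (l 16718064) (a (l 16715392) (l 16719600)))) (b (l 16713192) (a (l 16711040) (l 16708464)))) (b (c (c (a (l 16716368) (l 16715128)) (a (l 16713176) (l 16711816))) (a (l 16713584) (l 16706792))) (a (c (c (l 16715504) (l 16712184)) (l 16707160)) (c (c (l 16714488) (l 16711048)) (l 16705832))))) (b (c (a (l 16706680) (b (l 16705568) (l 16701912))) (a (l 16700312) (l 16702288))) (c (a (b (l 16701792) (l 16700360)) (c (l 16701232) (l 16697736))) (a (b (l 16695136) (l 16693448)) (l 16692448))))),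 by decide +kernel⟩

def k62_pm_012 : ∃ t, chk3 f_pm_012 t 82 63 1 = true :=
  ⟨(c (c (b (c (b (a (l 16714888) (l 16713872)) (a (c (l 14) (l 16713280)) (l 14))) (b (a (l 16711440) (l 16710312)) (a (l 16710600) (l 16709480)))) (b (c (a (c (l 14) (b (l 16712648) (l 16712200))) (l 14)) (a (c (l 16710592) (l 16708744)) (a (l 16708832) (l 16710904)))) (c (a (a (a (c (l 14) (b (l 16712144) (l 16711640))) (l 14)) (l 14)) (l 14)) (a (c (b (l 16709840) (a (l 16709608) (l 16709048))) (b (l 16707952) (a (l 16707704) (l 16707120)))) (c (b (a (l 16709032) (l 16708504)) (a (l 16708512) (c (l 14) (l 16707488)))) (b (l 16706816) (a (l 16706552) (l 16705992)))))))) (b (a (c (b (l 16707968) (l 16707008)) (b (l 16704472) (l 16703392))) (c (b (l 16706720) (l 16705768)) (b (l 16703104) (l 16702032)))) (b (c (a (c (l 16706888) (l 16705024)) (c (l 16705688) (l 16703768))) (a (l 16702216) (l 16700872))) (b (c (a (l 16707720) (c (l 16704864) (l 16702896))) (a (l 16701272) (l 16699936))) (c (a (a (l 16704824) (l 16704208)) (c (a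 (l 16704584) (l 16703992)) (a (l 16702600) (l 16701992)))) (a (c (l 16701592) (l 16699640)) (c (l 16700296) (l 16698288)))))))) (b (b (c (a (l 16699176) (l 16697616)) (a (l 16692000) (l 16690200))) (c (a (l 16697904) (l 16696360)) (a (l 16690480) (l 16688696)))) (c (a (b (c (l 16698440) (l 16694640)) (c (b (l 16697408) (l 16696696)) (l 16693128))) (b (c (l 16696976) (l 16693056)) (c (b (l 16695960) (l 16695256)) (l 16691568)))) (a (b (l 16688864) (c (l 16689168) (l 16685168))) (b (l 16687104) (c (l 16687488) (l 16683368))))))), by decide +kernel⟩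

def k63_pm_012 : ∃ t, chk3 f_pm_012 t 83 14 1 = true :=
  ⟨(c (b (a (b (l 16813768) (l 16763712)) (b (a (l 16818320) (l 16800536)) (a (l 16758096) (c (l 16845208) (l 16761496))))) (a (b (c (l 16812824) (l 16749088)) (c (l 16752328) (l 16739384))) (b (a (c (l 16819800) (l 16742040)) (c (b (l 16830952) (l 16817048)) (l 16736944))) (a (c (l 16739976) (l 16733568)) (c (b (l 16798752) (l 16775144)) (l 16739904)))))) (b (b (a (l 16764440) (a (l 16754784) (l 16747560))) (a (l 16755472) (a (l 16746944) (l 16761624)))) (b (a (l 16760904) (a (l 16758816) (c (l 16734128) (l 16730760)))) (a (c (l 16735664) (l 16731432)) (a (c (l 16729640) (l 16725264)) (c (l 16746304) (l 16731328))))))), by decide +kernel⟩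

def k64_pm_012 : ∃ t, chk3 f_pm_012 t 83 30 1 = true :=
  ⟨(a (c (b (c (b (l 16735504) (l 16730488)) (b (l 16731296) (l 16725640))) (c (b (l 16725216) (l 16724912)) (b (l 16719760) (l 16713632)))) (b (b (l 16724240) (l 16717760)) (c (b (l 16714048) (l 16707416)) (b (l 16708080) (l 16701016))))) (c (a (b (c (b (l 16737944) (l 16726448)) (l 16734432)) (c (b (l 16721792) (c (l 16718456) (l 16715376))) (b (l 16716104) (l 16710672)))) (b (c (b (l 16724120) (l 16723664)) (b (l 16722960) (l 16718408))) (c (b (c (l 16720944) (l 16718064)) (a (a (a (l 16715504) (c (l 16721640) (a (l 16713424) (l 16713000)))) (l 16714424)) (l 16714320))) (b (a (l 16724232) (l 16712760)) (a (a (a (l 16709168) (a (l 16708640) (l 16708208))) (l 16708040)) (l 16707880)))))) (a (b (c (l 16718856) (l 16713448)) (b (c (l 16710208) (l 16704080)) (c (l 16704264) (l 16697704)))) (b (c (b (l 16718016) (l 16712904)) (b (l 16712744) (l 16707144))) (a (a (b (c (l 16718280) (l 16717344)) (a (l 16704640) (a (a (l 16699032) (l 16704040)) (c (l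 16701712) (l 16695080))))) (c (b (l 16706856) (l 16701520)) (l 16697784))) (c (b (l 16706688) (l 16701312)) (l 16697536))))))), by decide +kernel⟩

def k65_pm_012 : ∃ t, chk3 f_pm_012 t 166 31 2 = true :=
  ⟨(b (c (b (c (b (l 16716760) (l 16715040)) (b (l 16713576) (l 16711728))) (c (b (l 16714096) (l 16713568)) (b (l 16710656) (l 16710008)))) (b (b (l 16708744) (c (l 16708384) (l 16705016))) (c (b (l 16707184) (l 16706416)) (l 16708504)))) (c (c (b (b (l 16718192) (l 14)) (l 14)) (b (b (l 16709264) (a (l 16708680) (l 16708168))) (b (a (c (l 16708728) (l 16706776)) (c (l 14) (l 16706248))) (a (c (b (l 16707984) (c (l 14) (l 16706960))) (b (l 16706000) (l 16705448))) (c (l 14) (b (l 16705472) (c (l 16705432) (l 16704408)))))))) (b (c (b (l 16705552) (a (l 16704880) (l 16704312))) (b (l 16701816) (l 16700752))) (c (b (a (l 16703840) (l 16703272)) (b (a (l 16703000) (l 16702432)) (a (c (l 16703424) (l 16701392)) (c (l 16702872) (l 16700808))))) (b (a (l 16699896) (l 16699264)) (a (c (l 16699672) (l 16697632))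 (a (l 16698176) (l 16697864)))))))), by decide +kernel⟩

def k66_pm_012 : ∃ t, chk3 f_pm_012 t 167 62 2 = true :=
  ⟨(a (c (b (b (a (l 16713528) (l 16713024)) (l 16717472)) (c (b (l 16713480) (l 16712944)) (b (l 16709944) (l 16709280)))) (b (b (a (l 16706928) (l 16706352)) (l 16705336)) (c (b (l 16706368) (l 16705592)) (l 16702344)))) (c (a (a (b (a (l 16712416) (a (l 16712328) (l 16717424))) (c (a (l 16713000) (b (l 16713200) (l 16712648))) (a (l 16709360) (b (l 16709616) (l 16708936))))) (b (l 16712112) (c (l 16712880) (l 16709216)))) (b (l 16711968) (c (l 16712736) (l 16709048)))) (a (a (a (b (l 16705568) (l 16703848)) (b (a (l 16705456) (l 16705296)) (c (a (l 16705640) (l 16705608)) (l 16712408)))) (b (l 16705216) (l 16703664))) (b (l 16705024) (l 16703464))))), by decide +kernel⟩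

def k67_pm_012 : ∃ t, chk3 f_pm_012 t 334 63 2 = true :=
  ⟨(c (c (b (b (l 16717560) (l 14)) (l 14)) (c (b (b (l 16709480) (l 14)) (l 14)) (b (b (l 16707584) (l 16711968)) (b (a (l 16705856) (l 16705616)) (a (b (l 16705072) (l 16704528)) (b (l 16704832) (a (l 16704328) (l 16704200)))))))) (b (c (b (l 16704728) (a (l 16703888) (l 16703616))) (b (l 16700896) (l 16710312))) (c (b (a (l 16702840) (c (l 16703592) (l 16701560))) (a (c (b (l 16703024) (l 16702448)) (l 16700672)) (a (c (l 16702536) (l 16700456)) (b (l 16701648) (a (l 16701088) (l 16701024)))))) (b (a (l 16698792) (l 16698496)) (a (c (l 16698600) (l 16696512)) (a (l 16697320) (a (l 16697200) (l 16697128)))))))), by decide +kernel⟩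

def k68_pm_012 : ∃ t, chk3 f_pm_012 t 335 63 2 = true :=
  ⟨(c (b (c (b (a (a (a (l 16712048) (a (l 16712008) (l 16711984))) (l 16711920)) (l 16711768)) (l 14)) (a (a (a (b (l 16708232) (l 16707392)) (b (a (l 16708192) (l 16708160)) (a (l 16707344) (c (l 14) (l 16706328))))) (l 16707688)) (l 16707512))) (c (l 14) (c (l 14) (c (l 14) (b (a (a (a (l 16704936) (a (l 16704888) (b (l 16705096) (l 16704592)))) (l 16704768)) (l 16704576)) (a (a (a (l 16703864) (a (b (l 16704088) (l 16703528)) (a (a (l 16703792) (b (l 16704056) (b (l 16703640) (b (l 16703424) (l 16705904))))) (l 16703776)))) (l 16703704)) (l 16703504))))))) (b (c (a (a (a (l 16703944) (a (l 16703888) (b (l 16704304) (l 16703344)))) (l 16703768)) (l 16703568)) (a (a (a (l 16700016) (a (l 16699952) (b (l 16700424) (l 16699352)))) (l 16699816)) (l 16699600))) (b (c (a (a (b (a (l 16702656) (a (l 16702600) (l 16702568))) (a (l 16702112) (a (l 16702056) (c (l 16708296) (l 16700992))))) (l 16702216)) (l 16702008)) (a (a (a (l 16698296) (a (l 16698232)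 (c (l 16699224) (l 16697168)))) (l 16698096)) (l 16697872))) (c (a (a (a (c (l 16702304) (l 16700208)) (a (c (b (l 16702528) (l 16701952)) (l 16700152)) (c (a (a (l 16702224) (b (l 16702496) (b (l 16702072) (c (l 16702304) (l 16701248))))) (l 16702208)) (a (a (l 16700128) (b (l 16700416) (l 16699816))) (l 16700112))))) (c (l 16702128) (l 16700024))) (c (l 16701928) (l 16699816))) (a (a (a (l 16697056) (a (c (l 16698048) (l 16695936)) (a (a (l 16696968) (c (b (l 16698320) (l 16697696)) (l 16695896))) (l 16696944)))) (l 16696856)) (l 16696632)))))), by decide +kernel⟩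

def k69_pm_012 : ∃ t, chk3 f_pm_012 t 166 31 3 = true :=
  ⟨(b (b (c (b (l 16702176) (l 16710392)) (b (l 16695472) (l 16692976))) (c (c (l 16699672) (l 16696056)) (l 16690568))) (b (b (c (l 16696144) (l 16688472)) (c (a (l 16695248) (l 16694528)) (l 16686984))) (c (b (c (a (l 16695920) (l 16695232)) (l 16691552)) (c (a (l 16694560) (l 16693872)) (a (l 16690424) (l 16689680)))) (a (b (l 16685816) (l 16684160)) (b (l 16684976) (l 16683328)))))), by decide +kernel⟩

def k70_pm_012 : ∃ t, chk3 f_pm_012 t 167 31 3 = true :=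
  ⟨(c (a (b (b (b (l 16710528) (l 16698328)) (c (l 16698656) (l 16694944))) (b (b (l 16705560) (a (l 16693984) (l 16693640))) (b (c (a (l 16694712) (l 16694384)) (l 16695688)) (c (a (l 16693360) (c (l 16694096) (l 16691968))) (a (l 16689128) (l 16688768)))))) (b (b (a (a (a (l 16698608) (a (l 16698480) (l 16698312))) (l 16698208)) (l 16697968)) (a (a (a (l 16696392) (c (l 16698184) (l 16694416))) (l 16696168)) (l 16695920))) (b (a (a (a (l 16694056) (a (l 16693992) (b (l 16694536) (l 16703776)))) (l 16693832)) (l 16693576)) (b (a (a (a (l 16692080) (a (l 16692016) (c (l 16694056) (l 16689880)))) (l 16691856)) (l 16691600)) (a (a (a (c (l 16692808) (l 16688528)) (a (c (l 16692744) (l 16688456)) (a (c (a (l 16692720) (l 16692704)) (a (l 16688424) (l 16688416))) (c (l 16692688) (l 16688400))))) (c (l 16692600) (l 16688296))) (c (l 16692344) (l 16688024))))))) (a (a (b (b (l 16692568) (l 16689504)) (b (l 16686680) (c (l 16685672) (l 16681416)))) (b (b (l 16692048) (l 16689088)) (b (l 16686264) (b (l 16683936)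 (l 16687536))))) (b (b (a (a (a (l 16691528) (a (l 16691392) (l 16691216))) (l 16691088)) (l 16690792)) (b (l 16710080) (c (l 16700208) (l 16706792)))) (b (a (a (a (l 16686000) (a (l 16685920) (l 16685864))) (l 16685736)) (l 16685432)) (b (a (a (a (l 16683672) (a (l 16683592) (l 16683536))) (l 16683408)) (l 16683104)) (a (a (a (l 16682032) (a (l 16681952) (c (l 16694568) (l 16679712)))) (l 16681768)) (l 16681464))))))), by decide +kernel⟩

def k71_pm_012 : ∃ t, chk3 f_pm_012 t 21 14 1 = true :=
  ⟨(b (c (b (a (c (l 16875496) (l 16805776)) (l 16814160)) (a (c (l 16868336) (l 16782232)) (c (l 16910736) (l 16822736)))) (b (a (l 16747368) (l 16754056)) (a (c (l 16741024) (l 16738152)) (l 16743984)))) (c (b (a (c (b (l 16856752) (l 16845144)) (l 16744944)) (c (l 16858216) (b (l 16801928) (l 16783640)))) (a (c (b (l 16829680) (l 16788592)) (b (l 16730344) (l 16725944))) (c (b (l 16884984) (l 16870408)) (b (l 16761088) (l 16733480))))) (b (a (b (l 16733160) (l 16728440)) (c (l 16735568) (l 16730072))) (a (b (l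 16723440) (l 16718184)) (c (l 16724016) (l 16717464)))))), by decide +kernel⟩

def k72_pm_012 : ∃ t, chk3 f_pm_012 t 21 30 1 = true :=
  ⟨(b (c (a (c (a (b (l 16766472) (l 16731680)) (b (l 16801128) (l 16770888))) (b (l 16721296) (l 16716448))) (c (b (l 16809496) (l 16722352)) (b (l 16721736) (l 16715920)))) (a (b (l 16723200) (c (l 16710272) (l 16703840))) (b (l 16711216) (c (l 16708464) (l 16700728))))) (c (a (c (b (c (l 16717200) (l 16716296)) (b (l 16714376) (c (l 16713656) (l 16710104)))) (b (l 16711400) (b (l 16707464) (l 16704720)))) (c (b (l 16717976) (c (l 16715432) (l 16709904))) (b (l 16709920) (b (l 16705296) (l 16702104))))) (a (b (c (l 16704704) (l 16697808)) (c (b (l 16700408) (l 16697432)) (a (l 16693024) (l 16690288)))) (b (c (l 16701960) (l 16693792)) (c (b (l 16696984) (l 16693576)) (a (l 16687848) (l 16685752))))))), by decide +kernel⟩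

def k73_pm_012 : ∃ t, chk3 f_pm_012 t 21 62 1 = true :=
  ⟨(c (a (c (b (c (a (l 16712896) (l 16711752)) (a (l 16709304) (l 16707872))) (c (b (l 16711280) (a (l 16711504) (l 16710216))) (a (l 16708000) (l 16706472)))) (b (a (l 16703864) (l 16701992)) (a (c (l 16704152) (l 16700264)) (c (l 16702344) (l 16698184))))) (a (c (b (c (l 16701528) (l 16706752)) (c (l 16709592) (l 16705208))) (b (l 16700416) (c (l 16700800) (l 16696368)))) (c (b (c (l 16711088) (l 16705960)) (c (l 16708360) (l 16704240))) (b (l 16699176) (c (l 16699552) (l 16694824)))))) (a (b (c (a (l 16696504) (l 16694056)) (a (l 16689032) (l 16685992))) (c (a (c (l 16696352) (l 16692408)) (c (l 16694000) (l 16689776))) (a (l 16686432) (l 16683384)))) (b (c (a (l 16691880) (l 16690024)) (a (l 16683216) (l 16680752))) (c (a (c (l 16691896) (l 16687392)) (c (l 16690064) (l 16685272))) (a (l 16680568) (l 16678016)))))), by decide +kernel⟩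

def k74_pm_012 : ∃ t, chk3 f_pm_012 t 21 63 2 = true :=
  ⟨(a (c (b (b (c (a (l 16710800) (l 16709448)) (a (l 16706808) (l 16705200))) (c (l 14) (a (c (l 14) (l 16704888)) (l 14)))) (a (a (a (c (l 14) (b (l 16705752) (c (l 14) (b (l 16703920) (l 16703368))))) (l 14)) (l 14)) (l 14))) (b (a (c (b (l 16702792) (l 16701792)) (b (l 16698744) (l 16697632))) (c (b (l 16700928) (l 16699888)) (b (l 16696616) (l 16695480)))) (a (c (b (a (l 16701320) (l 16700304)) (a (b (l 16700464) (c (l 16700944) (l 16698784))) (b (l 16699432) (c (l 16699944) (l 16697720))))) (b (a (l 16697112) (l 16695976)) (a (c (l 16696936) (l 16694768)) (c (b (l 16696136) (l 16695496)) (l 16693592))))) (a (c (b (l 16699328) (c (b (l 16699576) (c (l 14) (l 16698416))) (b (l 16697328) (l 16696712)))) (b (l 16694880) (c (b (l 16695064) (l 16694424)) (l 16692464)))) (c (b (l 16698408) (c (l 14) (b (l 16696368) (l 16695744)))) (b (l 16693840) (c (b (l 16694048) (l 16693400)) (l 16691384)))))))) (c (b (b (c (a (l 16708360) (l 16709816)) (a (l 16703856)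 (l 16702776))) (l 14)) (l 14)) (b (a (c (b (l 16699312) (l 16698224)) (b (l 16694736) (l 16693560))) (c (b (l 16697960) (l 14)) (b (l 16693112) (l 16691880)))) (a (a (c (a (b (l 16697784) (c (l 14) (b (l 16695704) (l 16695072)))) (l 14)) (b (l 16692856) (b (l 16691888) (c (l 16692424) (l 16690016))))) (c (l 14) (b (l 16691928) (b (l 16690944) (c (l 16691504) (l 16689032)))))) (c (l 14) (a (b (l 16691064) (b (l 16690056) (c (l 16690624) (l 16688096)))) (b (l 16690248) (c (l 14) (b (l 16687928) (l 16687208)))))))))), by decide +kernel⟩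

def k75_pm_012 : ∃ t, chk3 f_pm_012 t 21 63 3 = true :=
  ⟨(a (b (c (a (c (b (l 16694656) (l 16693440)) (l 16695136)) (c (b (l 16692272) (l 16691032)) (l 16687232))) (a (c (l 16685680) (l 16681432)) (c (l 16682760) (l 16678248)))) (c (a (b (c (l 16692144) (l 16687800)) (c (a (l 16691504) (l 16690240)) (a (l 16687104) (l 16685728)))) (c (b (l 16689728) (b (l 16688696) (a (l 16688664) (l 16687496)))) (b (l 16685136) (a (l 16684392) (l 16683096))))) (a (b (l 16686456) (c (l 16681824) (l 16677288))) (b (l 16683416) (c (l 16678920) (l 16674144)))))) (b (b (c (a (l 16687800) (l 16685768)) (a (l 16678416) (l 16675832))) (c (a (c (l 16688856) (l 16684112)) (c (l 16686912) (l 16681904))) (a (l 16676912) (l 16674304)))) (c (a (c (b (l 16690136) (a (c (l 16687944) (l 16685520)) (c (l 16686904) (l 16684416)))) (b (l 16682680) (a (l 16681856) (l 16680672)))) (c (b (a (l 16686072) (l 16685136)) (a (c (l 16685920) (l 16683368)) (c (b (l 16685344) (l 16684608)) (l 16682376)))) (b (l 16680440) (a (l 16679528) (l 16678440)))))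 (a (b (c (l 16677792) (l 16672864)) (c (a (l 16676936) (l 16675624)) (l 16671176))) (c (b (l 16675296) (a (l 16674360) (l 16673152))) (b (l 16670112) (l 16668408))))))), by decide +kernel⟩

def k76_pm_012 : ∃ t, chk3 f_pm_012 t 11 6 1 = true :=
  ⟨(b (a (b (c (b (l 16880328) (l 16887648)) (a (l 16828936) (l 16856744))) (c (a (l 16883536) (l 16914128)) (b (l 16842448) (l 16841720)))) (c (b (l 16946648) (l 16961192)) (b (l 16902888) (l 16902848)))) (c (a (b (b (l 16909944) (l 16918360)) (b (l 16926008) (a (l 16914336) (l 16948048)))) (b (b (l 16972712) (l 16980816)) (b (l 16988992) (l 16996960)))) (a (b (b (l 16839520) (l 16833360)) (b (l 16802200) (l 16807728))) (b (b (l 16901320) (l 16896400)) (b (l 16886208) (l 16832248)))))), by decide +kernel⟩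

def k77_pm_012 : ∃ t, chk3 f_pm_012 t 11 14 1 = true :=
  ⟨(b (c (a (b (a (l 16914272) (l 16951016)) (a (c (l 16952712) (l 16864264)) (l 16886376))) (b (c (l 17040160) (l 16967104)) (c (l 17049800) (l 16964264)))) (a (b (a (l 16766896) (l 16803432)) (a (l 16750392) (l 16773696))) (b (l 16795664) (a (l 16815824) (l 16856848))))) (c (a (b (a (c (l 16947696) (l 16820744)) (c (l 16993040) (l 16888912))) (a (c (b (l 16938128) (l 16928192)) (b (l 16816544) (l 16794768))) (c (l 16985504) (b (l 16869752) (l 16852920))))) (b (c (l 17055640) (a (l 16933992) (l 16976416))) (c (a (l 17033656) (l 17077800)) (a (l 16914024) (l 16962592))))) (a (b (a (c (l 16740288) (l 16733344)) (l 16743064)) (a (c (l 16726448) (l 16718512)) (c (l 16737232) (l 16721496)))) (b (a (l 16760224) (l 16765464)) (a (c (l 16730808) (l 16726632)) (c (l 16825872) (l 16734136))))))), by decide +kernel⟩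

def k78_pm_012 : ∃ t, chk3 f_pm_012 t 11 30 1 = true :=
  ⟨(a (b (c (c (a (b (l 16914808) (l 16855392)) (b (l 16973416) (l 16961456))) (b (a (l 16768200) (l 16832224)) (a (l 16735984) (l 16807000)))) (a (b (l 16711336) (c (l 16708232) (l 16699152))) (b (l 16713296) (a (l 16704232) (l 16705112))))) (c (c (a (b (c (l 16919080) (l 16830624)) (c (l 16811368) (l 16692760))) (b (l 16903688) (c (l 16971248) (l 16857992)))) (b (a (l 16709968) (l 16713520)) (a (c (l 16705168) (l 16700352)) (c (l 16702256) (l 16700688))))) (b (c (a (l 16700712) (l 16701120)) (a (l 16691224) (l 16690288))) (c (a (l 16693056) (l 16692408)) (a (l 16683200) (l 16681216)))))) (c (b (c (a (l 17023704) (l 17074240)) (a (b (l 16891552) (l 16872128)) (b (l 16946088) (l 16931488)))) (c (a (b (l 17009168) (l 16974104)) (l 17040928)) (a (b (l 16806488) (l 16693832)) (b (l 16913432) (c (l 16932912) (l 16849576)))))) (b (a (c (l 16718760) (l 16706400)) (c (l 16719160) (l 16711216))) (c (b (a (l 16703368) (l 16759304)) (a (l 16693488) (l 16702680)))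 (b (a (l 16691152) (l 16694024)) (a (l 16680936) (l 16682544))))))), by decide +kernel⟩

def k79_pm_012 : ∃ t, chk3 f_pm_012 t 22 62 1 = true :=
  ⟨(c (a (a (c (b (c (l 16801280) (l 16712936)) (c (l 16705696) (l 16703552))) (b (l 16698256) (c (l 16698568) (l 16693560)))) (c (b (c (l 16888408) (l 16740560)) (c (b (l 16865064) (l 16847224)) (l 16698176))) (b (l 16697688) (c (l 16697896) (l 16692584))))) (c (b (c (l 16908872) (a (l 16807128) (l 16870872))) (c (a (l 16861936) (l 16948016)) (b (l 16699192) (l 16701528)))) (b (c (l 16695712) (l 16694640)) (c (a (l 16697544) (l 16688560)) (a (l 16691944) (l 16691632)))))) (a (c (b (a (l 16688488) (l 16687288)) (b (l 16693632) (a (l 16685320) (l 16683864)))) (b (a (l 16678592) (l 16676760)) (a (l 16675728) (l 16673728)))) (c (b (b (l 16686840) (l 16685200)) (b (l 16683704) (a (l 16682720) (l 16681896)))) (b (b (l 16675416) (l 16673648)) (a (l 16672024) (l 16670648)))))), by decide +kernel⟩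

def k80_pm_012 : ∃ t, chk3 f_pm_012 t 22 63 2 = true :=
  ⟨(a (a (c (b (b (c (l 16697520) (l 16701936)) (l 14)) (l 14)) (c (b (b (l 16696856) (l 14)) (l 14)) (a (b (l 16691488) (b (l 16689488) (c (l 14) (b (l 16687112) (l 16686376))))) (b (l 16690840) (l 14))))) (b (b (c (c (l 16743408) (l 16702392)) (c (l 16696016) (l 16690616))) (l 14)) (l 14))) (b (b (b (c (c (l 16844928) (l 16696776)) (c (l 16695560) (l 16689752))) (l 14)) (l 14)) (l 14))), by decide +kernel⟩

def k81_pm_012 : ∃ t, chk3 f_pm_012 t 22 63 3 = true :=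
  ⟨(a (b (c (a (b (l 16683976) (c (l 16685200) (l 16679920))) (b (l 16682440) (c (l 16683728) (l 16678184)))) (a (c (l 16675376) (l 16670048)) (c (l 16673392) (l 16667784)))) (c (a (c (b (c (l 16685096) (l 16682432)) (c (b (l 16683984) (a (l 16683720) (l 16682872))) (a (l 16681424) (l 16680528)))) (b (l 16678416) (b (l 16677240) (a (l 16677000) (l 16676008))))) (c (b (c (l 16683616) (l 16680824)) (b (c (l 16682448) (l 16679640)) (c (a (l 16682088) (l 14)) (a (l 16679288) (l 16678488))))) (b (l 16676608) (b (l 16675392) (a (l 16675064) (l 16674176)))))) (a (c (b (l 16673016) (a (l 16671984) (l 16670872))) (b (l 16667560) (l 16665832))) (c (b (l 16670944) (a (l 16669808) (l 16668800))) (b (l 16665232) (l 16663464)))))) (b (b (a (c (l 16681200) (l 16669576)) (c (l 16680248) (l 16668040))) (c (c (a (l 16682528) (l 14)) (a (l 16676704) (l 16675496))) (a (l 16667880) (l 16666248)))) (c (a (c (a (b (l 16681272) (c (l 14) (b (l 16678592) (l 16677752)))) (l 14)) (b (l 16680288) (a (c (l 16675240) (l 16672296))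 (c (b (l 16674944) (l 16674064)) (l 16671496))))) (c (l 14) (b (c (l 16675272) (l 16672192)) (a (c (b (l 16674280) (l 16673376)) (l 16670752)) (c (l 14) (l 16671384)))))) (a (c (b (l 16669120) (a (l 16667848) (l 16666952))) (b (l 16663136) (a (l 16661872) (l 16660840)))) (c (b (l 16667536) (b (l 16666144) (a (l 16665648) (l 16664848)))) (b (l 16661280) (a (l 16659872) (l 16658952)))))))), by decide +kernel⟩

def k82_pm_012 : ∃ t, chk3 f_pm_012 t 23 62 1 = true :=
  ⟨(c (c (a (b (c (l 17025008) (l 16888120)) (c (l 17008464) (a (l 16863304) (l 16925936)))) (b (l 17045384) (c (l 17079624) (l 16983160)))) (a (b (b (l 16689912) (l 16693912)) (c (a (l 16694968) (l 16761088)) (a (l 16691672) (l 16679496)))) (b (c (l 16889856) (b (l 16827552) (l 16812784))) (c (a (l 16866168) (l 16905576)) (a (l 16683072) (l 16767624)))))) (a (c (b (b (l 16686888) (l 16684840)) (b (l 16683032) (a (l 16681400) (l 16681256)))) (b (b (l 16674128) (l 16671984)) (a (l 16669608) (l 16668920)))) (c (b (b (l 16693432) (l 16686144)) (b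 (l 16683904) (a (l 16681480) (l 16682080)))) (b (b (l 16674608) (l 16671936)) (a (l 16668600) (l 16668680)))))), by decide +kernel⟩

def k83_pm_012 : ∃ t, chk3 f_pm_012 t 23 63 1 = true :=
  ⟨(c (b (b (b (c (a (c (l 16995832) (l 16845328)) (l 16957968)) (a (c (l 16694192) (l 16689456)) (c (l 16826384) (l 16682000)))) (c (a (l 14) (c (l 17067736) (l 14))) (l 14))) (c (a (l 14) (c (l 17061680) (l 14))) (l 14))) (c (a (l 14) (c (a (l 17027216) (l 17067344)) (l 14))) (l 14))) (a (b (b (a (c (l 16679608) (l 16666808)) (c (l 16679288) (l 16665896))) (c (c (l 14) (a (l 16674576) (l 14))) (a (l 16672760) (c (l 16667224) (l 16660432))))) (a (c (a (c (l 14) (b (l 16672960) (c (l 14) (b (l 16669928) (l 16668960))))) (l 14)) (c (b (l 16666208) (b (l 16664728) (a (l 16664112) (l 16663432)))) (b (l 16659672) (a (l 16658096) (l 16657296))))) (c (l 14) (c (b (l 16670384) (a (c (b (l 16665544) (l 16664496)) (l 16661648)) (c (l 14) (l 16661072)))) (b (l 16658320) (a (l 16656560) (l 16658496))))))) (c (b (b (c (l 16688136)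 (l 16686288)) (l 14)) (l 14)) (b (b (c (l 16668648) (l 16661432)) (c (a (l 16666608) (l 14)) (a (l 16659520) (l 16658920)))) (a (c (a (b (l 16664552) (c (l 14) (b (l 16661120) (l 16659984)))) (l 14)) (b (l 16657248) (b (l 16655520) (a (l 16654680) (l 16654104))))) (c (l 14) (b (l 16656448) (a (c (l 16656040) (l 16652352)) (c (l 14) (l 16651888)))))))))), by decide +kernel⟩

def k84_pm_012 : ∃ t, chk3 f_pm_012 t 3 2 1 = true :=
  ⟨(a (b (l 2) (b (l 2) (b (l 2) (a (c (l 17033992) (a (l 16959464) (l 2))) (l 2))))) (l 2)), by decide +kernel⟩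

def k85_pm_012 : ∃ t, chk3 f_pm_012 t 6 6 1 = true :=
  ⟨(b (b (a (a (c (l 17003752) (l 16962768)) (c (l 17053312) (l 17017896))) (l 2)) (a (a (c (l 17021024) (l 16965896)) (c (l 17071416) (l 17022296))) (c (l 17130144) (l 17155304)))) (a (a (b (c (l 17079504) (b (l 16965912) (l 16963872))) (c (b (l 17050808) (l 17059792)) (b (l 16955568) (l 16944848)))) (b (c (l 17091032) (l 17005320)) (c (l 17110968) (b (l 17022040) (l 17013776))))) (c (b (l 17317968) (a (l 17156344) (l 17189280))) (a (b (l 17077592) (b (l 17080064) (l 17074752))) (b (l 17118864) (l 17187040)))))), by decide +kernel⟩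

def k86_pm_012 : ∃ t, chk3 f_pm_012 t 12 14 1 = true :=
  ⟨(b (c (a (b (l 17068288) (c (l 17116232) (l 17035536))) (b (l 17126768) (l 17136760))) (a (b (a (l 16912776) (l 16949704)) (a (l 16896072) (l 16934048))) (b (l 17003760) (a (l 16972184) (l 17008992))))) (c (a (b (c (l 17127944) (l 17034384)) (c (l 17136480) (l 16986168))) (b (l 17145368) (c (l 17201496) (l 17102560)))) (a (a (b (l 16810128) (l 16746176)) (b (l 16914824) (l 16741752))) (b (a (l 16954560) (l 16993736)) (a (c (l 16983584) (l 16881760)) (c (l 17022432) (l 16925608))))))), by decide +kernel⟩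

def k87_pm_012 : ∃ t, chk3 f_pm_012 t 12 30 1 = true :=
  ⟨(c (a (c (b (l 17140504) (a (l 17114496) (l 17160968))) (b (a (l 16990864) (l 17037576)) (a (b (l 16971880) (l 16955208)) (l 17018528)))) (b (c (l 17212712) (l 17098848)) (c (l 17220328) (a (l 17067088) (l 17110152))))) (a (b (a (b (l 16745456) (l 16719464)) (c (l 16872136) (l 16726768))) (c (a (b (l 16825760) (l 16692008)) (b (l 16885800) (l 16841560))) (b (a (l 16699000) (l 16745984)) (a (l 16686152) (l 16690272))))) (b (a (b (l 16890528) (l 16768360)) (c (l 17005608) (l 16893384))) (c (a (b (l 16939880) (l 16921368)) (l 16981504)) (b (l 16710104) (a (l 16736640) (l 16839144))))))), by decide +kernel⟩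

def k88_pm_012 : ∃ t, chk3 f_pm_012 t 12 31 2 = true :=
  ⟨(a (b (c (a (b (l 17104800) (l 17096112)) (l 17154912)) (a (b (c (l 16978136) (l 16893056)) (c (l 16959864) (a (l 16849448) (l 16886800)))) (b (l 16997488) (c (l 17024328) (l 16938424))))) (c (a (b (c (l 17133104) (l 17035744)) (c (l 17121640) (a (l 16997440) (l 17035288)))) (b (l 17145416) (l 17093784))) (a (b (b (a (a (l 16761088) (l 16822944)) (l 16830576)) (l 14)) (l 14)) (b (c (l 17008200) (a (l 16876976) (l 16933704))) (c (a (l 16970208) (l 17005968)) (l 14)))))) (c (b (l 17201992) (a (l 17195480) (l 17242192))) (b (a (b (l 17052080) (l 17040376)) (l 17096504)) (a (b (c (l 17069216) (l 16982864)) (c (l 17054736) (a (l 16945120) (l 16978928)))) (b (l 17081632) (c (l 17111840) (l 17025200))))))), by decide +kernel⟩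

def k89_pm_012 : ∃ t, chk3 f_pm_012 t 12 31 3 = true :=
  ⟨(a (b (b (c (a (a (l 16682280) (l 16678352)) (b (l 16800560) (l 16766520))) (a (b (l 16676976) (l 16673624)) (b (l 16681976) (l 16677264)))) (b (c (a (l 16676160) (l 16669016)) (a (l 16670840) (l 16673824))) (c (a (c (l 16683960) (l 16679768)) (c (l 16824320) (l 16672944))) (a (l 16668048) (l 16670392))))) (a (a (c (b (b (l 16683032) (l 14)) (l 14)) (a (b (c (l 16667624) (l 16660008)) (c (l 14) (b (l 16656056) (c (l 14) (l 16651480))))) (b (c (l 16667768) (l 16659992)) (l 14)))) (b (b (c (l 16681264) (l 16665592)) (l 14)) (l 14))) (a (b (b (c (l 16676176) (l 16666448)) (l 14)) (l 14)) (b (b (c (c (l 16849704) (l 16759592)) (l 16667720)) (l 14)) (l 14))))) (b (c (a (b (b (l 16905240) (l 16894664)) (a (c (l 16902872) (l 16819896)) (l 16852056))) (b (l 16957008) (c (l 16977520) (l 16900664)))) (b (a (a (l 16665872) (l 16679648)) (b (l 16818640) (l 16784200))) (a (a (l 16673480) (l 16669168)) (b (l 16686768) (l 16672280))))) (b (b (b (c (a (c (l 16904976)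 (l 16819792)) (l 16926664)) (a (l 16670056) (l 16660760))) (c (a (l 14) (l 16879360)) (l 14))) (c (a (l 14) (c (l 16954464) (l 14))) (l 14))) (c (a (l 14) (c (a (l 16900856) (l 16953832)) (l 14))) (l 14))))), by decide +kernel⟩

def k90_pm_012 : ∃ t, chk3 f_pm_012 t 13 7 1 = true :=
  ⟨(b (b (c (a (l 17181232) (l 17218272)) (a (b (l 17067816) (l 17059672)) (b (l 17120632) (l 17116448)))) (c (a (b (l 17199304) (l 17209800)) (l 17247232)) (a (b (l 17027608) (a (l 17014176) (l 17051680))) (b (l 17110080) (l 17101384))))) (b (c (a (b (l 17218304) (c (l 17282768) (l 17165648))) (b (l 17267080) (l 17278280))) (c (a (b (l 17023048) (a (l 17026520) (l 17067336))) (b (l 17133576) (l 17123480))) (a (b (a (l 16939248) (l 16983528)) (a (b (l 16913336) (l 16893448)) (b (l 16959816) (l 16942288)))) (b (l 17043912) (a (l 16997224) (l 17039128)))))) (a (c (b (c (l 17293480) (a (l 17140096) (l 17178128))) (c (l 17299800) (a (b (l 17129856) (l 17120360)) (l 17168616)))) (b (c (a (b (l 17007432) (l 16993144)) (b (l 17052024)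 (l 17040680))) (a (b (b (l 16876472) (l 16865056)) (a (l 16748624) (l 16841208))) (b (l 16923264) (a (l 16890120) (l 16916432))))) (c (a (b (c (l 17014960) (l 16937808)) (c (l 16997776) (a (b (l 16906280) (l 14)) (l 16930408)))) (b (l 17027168) (c (l 17049632) (l 16972168)))) (a (b (b (a (l 16749424) (l 16822600)) (l 14)) (l 14)) (b (a (c (l 16904024) (l 16787456)) (l 16810912)) (c (a (b (l 16886080) (l 14)) (l 16908424)) (l 14))))))) (a (c (b (l 17272912) (l 17233744)) (b (c (l 17088152) (b (l 16971392) (l 16890384))) (c (b (l 17071536) (l 17058200)) (b (a (l 16921128) (l 16945848)) (c (l 16890488) (a (b (l 16867088) (l 14)) (l 16887720))))))) (c (b (l 17298880) (l 17304184)) (b (c (l 17126368) (b (l 17017248) (l 17000584))) (c (b (l 17111368) (l 17099456)) (b (a (l 16969512) (l 16993136)) (a (l 16948808) (l 16972312)))))))))), by decide +kernel⟩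

def k91_pm_012 : ∃ t, chk3 f_pm_012 t 7 3 1 = true :=
  ⟨(b (b (l 2) (b (l 2) (a (a (a (l 17241176) (l 2)) (l 2)) (l 2)))) (a (b (b (c (a (l 17242416) (l 17255720)) (a (l 17159640) (l 17188584))) (c (a (l 17275952) (l 17291680)) (a (b (l 17157720) (l 17154232)) (l 17191232)))) (b (c (a (l 17308560) (l 17329080)) (a (b (l 17147920) (c (l 17183288) (l 17093472))) (b (l 17190872) (l 17187896)))) (a (c (b (l 17329944) (c (l 17398832) (l 17281704))) (b (a (c (l 17160600) (l 17052184)) (l 17140472)) (a (c (l 17144648) (b (l 17028576) (l 16926008))) (c (l 17179760) (l 17064392))))) (a (c (l 17359040) (b (l 17169136) (l 17135640))) (c (l 17369072) (b (l 17193040) (l 17185272))))))) (b (b (l 2) (c (l 17442488) (a (l 17213624) (l 2)))) (b (c (l 17420248) (a (l 17219432) (l 17235888))) (c (a (l 17376872) (l 17376120)) (a (b (l 17220320) (l 17218512)) (b (l 17242640) (l 17246296)))))))), by decide +kernel⟩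

theorem s92_pm_012 : ∃ t, chk3 f_pm_012 t 12 31 1 = true := ex3_c k88_pm_012 k89_pm_012

theorem s93_pm_012 : ∃ t, chk3 f_pm_012 t 12 15 1 = true := ex3_b k87_pm_012 s92_pm_012

theorem s94_pm_012 : ∃ t, chk3 f_pm_012 t 12 7 1 = true := ex3_b k86_pm_012 s93_pm_012

theorem s95_pm_012 : ∃ t, chk3 f_pm_012 t 6 7 1 = true := ex3_a s94_pm_012 k90_pm_012

theorem s96_pm_012 : ∃ t, chk3 f_pm_012 t 6 3 1 = true := ex3_b k85_pm_012 s95_pm_012

theorem s97_pm_012 : ∃ t, chk3 f_pm_012 t 3 3 1 = true := ex3_a s96_pm_012 k91_pm_012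

theorem s98_pm_012 : ∃ t, chk3 f_pm_012 t 3 1 1 = true := ex3_b k84_pm_012 s97_pm_012

theorem s99_pm_012 : ∃ t, chk3 f_pm_012 t 23 31 1 = true := ex3_b k82_pm_012 k83_pm_012

theorem s100_pm_012 : ∃ t, chk3 f_pm_012 t 22 63 1 = true := ex3_c k80_pm_012 k81_pm_012

theorem s101_pm_012 : ∃ t, chk3 f_pm_012 t 22 31 1 = true := ex3_b k79_pm_012 s100_pm_012

theorem s102_pm_012 : ∃ t, chk3 f_pm_012 t 11 31 1 = true := ex3_a s101_pm_012 s99_pm_012

theorem s103_pm_012 : ∃ t, chk3 f_pm_012 t 11 15 1 = true := ex3_b k78_pm_012 s102_pm_012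

theorem s104_pm_012 : ∃ t, chk3 f_pm_012 t 11 7 1 = true := ex3_b k77_pm_012 s103_pm_012

theorem s105_pm_012 : ∃ t, chk3 f_pm_012 t 11 3 1 = true := ex3_b k76_pm_012 s104_pm_012

theorem s106_pm_012 : ∃ t, chk3 f_pm_012 t 21 63 1 = true := ex3_c k74_pm_012 k75_pm_012

theorem s107_pm_012 : ∃ t, chk3 f_pm_012 t 21 31 1 = true := ex3_b k73_pm_012 s106_pm_012

theorem s108_pm_012 : ∃ t, chk3 f_pm_012 t 21 15 1 = true := ex3_b k72_pm_012 s107_pm_012

theorem s109_pm_012 : ∃ t, chk3 f_pm_012 t 21 7 1 = true := ex3_b k71_pm_012 s108_pm_012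

theorem s110_pm_012 : ∃ t, chk3 f_pm_012 t 83 31 3 = true := ex3_a k69_pm_012 k70_pm_012

theorem s111_pm_012 : ∃ t, chk3 f_pm_012 t 167 63 2 = true := ex3_a k67_pm_012 k68_pm_012

theorem s112_pm_012 : ∃ t, chk3 f_pm_012 t 167 31 2 = true := ex3_b k66_pm_012 s111_pm_012

theorem s113_pm_012 : ∃ t, chk3 f_pm_012 t 83 31 2 = true := ex3_a k65_pm_012 s112_pm_012

theorem s114_pm_012 : ∃ t, chk3 f_pm_012 t 83 31 1 = true := ex3_c s113_pm_012 s110_pm_012

theorem s115_pm_012 : ∃ t, chk3 f_pm_012 t 83 15 1 = true := ex3_b k64_pm_012 s114_pm_012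

theorem s116_pm_012 : ∃ t, chk3 f_pm_012 t 83 7 1 = true := ex3_b k63_pm_012 s115_pm_012

theorem s117_pm_012 : ∃ t, chk3 f_pm_012 t 82 31 1 = true := ex3_b k61_pm_012 k62_pm_012

theorem s118_pm_012 : ∃ t, chk3 f_pm_012 t 82 15 1 = true := ex3_b k60_pm_012 s117_pm_012

theorem s119_pm_012 : ∃ t, chk3 f_pm_012 t 82 7 1 = true := ex3_b k59_pm_012 s118_pm_012

theorem s120_pm_012 : ∃ t, chk3 f_pm_012 t 41 7 1 = true := ex3_a s119_pm_012 s116_pm_012

theorem s121_pm_012 : ∃ t, chk3 f_pm_012 t 40 63 2 = true := ex3_a k56_pm_012 k57_pm_012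

theorem s122_pm_012 : ∃ t, chk3 f_pm_012 t 40 31 2 = true := ex3_b k55_pm_012 s121_pm_012

theorem s123_pm_012 : ∃ t, chk3 f_pm_012 t 40 31 1 = true := ex3_c s122_pm_012 k58_pm_012

theorem s124_pm_012 : ∃ t, chk3 f_pm_012 t 40 15 1 = true := ex3_b k54_pm_012 s123_pm_012

theorem s125_pm_012 : ∃ t, chk3 f_pm_012 t 40 7 1 = true := ex3_b k53_pm_012 s124_pm_012

theorem s126_pm_012 : ∃ t, chk3 f_pm_012 t 20 7 1 = true := ex3_a s125_pm_012 s120_pm_012

theorem s127_pm_012 : ∃ t, chk3 f_pm_012 t 10 7 1 = true := ex3_a s126_pm_012 s109_pm_012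

theorem s128_pm_012 : ∃ t, chk3 f_pm_012 t 20 6 1 = true := ex3_a k50_pm_012 k51_pm_012

theorem s129_pm_012 : ∃ t, chk3 f_pm_012 t 10 6 1 = true := ex3_a s128_pm_012 k52_pm_012

theorem s130_pm_012 : ∃ t, chk3 f_pm_012 t 10 3 1 = true := ex3_b s129_pm_012 s127_pm_012

theorem s131_pm_012 : ∃ t, chk3 f_pm_012 t 5 3 1 = true := ex3_a s130_pm_012 s105_pm_012

theorem s132_pm_012 : ∃ t, chk3 f_pm_012 t 39 31 2 = true := ex3_b k47_pm_012 k48_pm_012

theorem s133_pm_012 : ∃ t, chk3 f_pm_012 t 39 31 1 = true := ex3_c s132_pm_012 k49_pm_012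

theorem s134_pm_012 : ∃ t, chk3 f_pm_012 t 38 63 1 = true := ex3_c k45_pm_012 k46_pm_012

theorem s135_pm_012 : ∃ t, chk3 f_pm_012 t 38 31 1 = true := ex3_b k44_pm_012 s134_pm_012

theorem s136_pm_012 : ∃ t, chk3 f_pm_012 t 19 31 1 = true := ex3_a s135_pm_012 s133_pm_012

theorem s137_pm_012 : ∃ t, chk3 f_pm_012 t 18 63 1 = true := ex3_b k42_pm_012 k43_pm_012

theorem s138_pm_012 : ∃ t, chk3 f_pm_012 t 18 124 1 = true := ex3_c k39_pm_012 k40_pm_012

theorem s139_pm_012 : ∃ t, chk3 f_pm_012 t 18 62 1 = true := ex3_b s138_pm_012 k41_pm_012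

theorem s140_pm_012 : ∃ t, chk3 f_pm_012 t 18 31 1 = true := ex3_b s139_pm_012 s137_pm_012

theorem s141_pm_012 : ∃ t, chk3 f_pm_012 t 9 31 1 = true := ex3_a s140_pm_012 s136_pm_012

theorem s142_pm_012 : ∃ t, chk3 f_pm_012 t 35 63 1 = true := ex3_b k37_pm_012 k38_pm_012

theorem s143_pm_012 : ∃ t, chk3 f_pm_012 t 17 63 1 = true := ex3_a k36_pm_012 s142_pm_012

theorem s144_pm_012 : ∃ t, chk3 f_pm_012 t 35 124 1 = true := ex3_c k33_pm_012 k34_pm_012

theorem s145_pm_012 : ∃ t, chk3 f_pm_012 t 35 62 1 = true := ex3_b s144_pm_012 k35_pm_012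

theorem s146_pm_012 : ∃ t, chk3 f_pm_012 t 69 62 1 = true := ex3_b k31_pm_012 k32_pm_012

theorem s147_pm_012 : ∃ t, chk3 f_pm_012 t 34 62 1 = true := ex3_a k30_pm_012 s146_pm_012

theorem s148_pm_012 : ∃ t, chk3 f_pm_012 t 17 62 1 = true := ex3_a s147_pm_012 s145_pm_012

theorem s149_pm_012 : ∃ t, chk3 f_pm_012 t 17 31 1 = true := ex3_b s148_pm_012 s143_pm_012

theorem s150_pm_012 : ∃ t, chk3 f_pm_012 t 8 31 1 = true := ex3_a k29_pm_012 s149_pm_012

theorem s151_pm_012 : ∃ t, chk3 f_pm_012 t 4 31 1 = true := ex3_a s150_pm_012 s141_pm_012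

theorem s152_pm_012 : ∃ t, chk3 f_pm_012 t 19 30 1 = true := ex3_c k27_pm_012 k28_pm_012

theorem s153_pm_012 : ∃ t, chk3 f_pm_012 t 37 30 1 = true := ex3_c k25_pm_012 k26_pm_012

theorem s154_pm_012 : ∃ t, chk3 f_pm_012 t 36 61 1 = true := ex3_a k23_pm_012 k24_pm_012

theorem s155_pm_012 : ∃ t, chk3 f_pm_012 t 36 30 1 = true := ex3_b k22_pm_012 s154_pm_012

theorem s156_pm_012 : ∃ t, chk3 f_pm_012 t 18 30 1 = true := ex3_a s155_pm_012 s153_pm_012

theorem s157_pm_012 : ∃ t, chk3 f_pm_012 t 9 30 1 = true := ex3_a s156_pm_012 s152_pm_012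

theorem s158_pm_012 : ∃ t, chk3 f_pm_012 t 35 61 1 = true := ex3_b k20_pm_012 k21_pm_012

theorem s159_pm_012 : ∃ t, chk3 f_pm_012 t 35 60 1 = true := ex3_a k18_pm_012 k19_pm_012

theorem s160_pm_012 : ∃ t, chk3 f_pm_012 t 35 30 1 = true := ex3_b s159_pm_012 s158_pm_012

theorem s161_pm_012 : ∃ t, chk3 f_pm_012 t 68 61 1 = true := ex3_b k15_pm_012 k16_pm_012

theorem s162_pm_012 : ∃ t, chk3 f_pm_012 t 34 61 1 = true := ex3_a s161_pm_012 k17_pm_012

theorem s163_pm_012 : ∃ t, chk3 f_pm_012 t 34 30 1 = true := ex3_b k14_pm_012 s162_pm_012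

theorem s164_pm_012 : ∃ t, chk3 f_pm_012 t 17 30 1 = true := ex3_a s163_pm_012 s160_pm_012

theorem s165_pm_012 : ∃ t, chk3 f_pm_012 t 8 30 1 = true := ex3_a k13_pm_012 s164_pm_012

theorem s166_pm_012 : ∃ t, chk3 f_pm_012 t 4 30 1 = true := ex3_a s165_pm_012 s157_pm_012

theorem s167_pm_012 : ∃ t, chk3 f_pm_012 t 4 15 1 = true := ex3_b s166_pm_012 s151_pm_012

theorem s168_pm_012 : ∃ t, chk3 f_pm_012 t 18 29 1 = true := ex3_a k10_pm_012 k11_pm_012

theorem s169_pm_012 : ∃ t, chk3 f_pm_012 t 18 14 1 = true := ex3_b k9_pm_012 s168_pm_012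

theorem s170_pm_012 : ∃ t, chk3 f_pm_012 t 9 14 1 = true := ex3_a s169_pm_012 k12_pm_012

theorem s171_pm_012 : ∃ t, chk3 f_pm_012 t 4 14 1 = true := ex3_a k8_pm_012 s170_pm_012

theorem s172_pm_012 : ∃ t, chk3 f_pm_012 t 4 7 1 = true := ex3_b s171_pm_012 s167_pm_012

theorem s173_pm_012 : ∃ t, chk3 f_pm_012 t 9 6 1 = true := ex3_b k6_pm_012 k7_pm_012

theorem s174_pm_012 : ∃ t, chk3 f_pm_012 t 4 6 1 = true := ex3_a k5_pm_012 s173_pm_012

theorem s175_pm_012 : ∃ t, chk3 f_pm_012 t 4 3 1 = true := ex3_b s174_pm_012 s172_pm_012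

theorem s176_pm_012 : ∃ t, chk3 f_pm_012 t 2 3 1 = true := ex3_a s175_pm_012 s131_pm_012

theorem s177_pm_012 : ∃ t, chk3 f_pm_012 t 10 5 1 = true := ex3_a k2_pm_012 k3_pm_012

theorem s178_pm_012 : ∃ t, chk3 f_pm_012 t 5 5 1 = true := ex3_a s177_pm_012 k4_pm_012

theorem s179_pm_012 : ∃ t, chk3 f_pm_012 t 5 2 1 = true := ex3_b k1_pm_012 s178_pm_012

theorem s180_pm_012 : ∃ t, chk3 f_pm_012 t 2 2 1 = true := ex3_a k0_pm_012 s179_pm_012

theorem s181_pm_012 : ∃ t, chk3 f_pm_012 t 2 1 1 = true := ex3_b s180_pm_012 s176_pm_012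

theorem s182_pm_012 : ∃ t, chk3 f_pm_012 t 1 1 1 = true := ex3_a s181_pm_012 s98_pm_012

theorem c_pm_012 : CertN 0 536870912 536870912 536870912 201326592 134217728 3 true true false .pnp 0 1 2
    ndN0q0 ndN0q1 pcN2 cut_pm_012 Ext.none :=
  certN2 (fam := true) (s1 := true) (s2 := false) (a := 0) (b := 1) (c := 2) (cn := .pnp) (n1 := ndN0q0) (n2 := ndN0q1) (pc := pcN2) (cut := cut_pm_012) (xt := Ext.none) (P1 := 0) (W1 := 536870912) (P2 := 536870912) (W2 := 536870912) (P3 := 201326592) (W3 := 134217728) (N0 := 3)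
    rfl (fun _ => rfl) s182_pm_012

end Pool.Agent.Strip051.G.I3_16_5_16.Tab.C.NA00

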