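import Pool.Agent.Strip051.G.I3_16_5_16.Tab

/-! # Certificates N10 (generated) -/

set_option linter.all false
set_option maxRecDepth 100000

namespace Pool.Agent.Strip051.G.I3_16_5_16.Tab.C.NA05

open Pool.Agent.Strip051.PB Pool.Agent.Strip051.PB.T
open Pool.Agent.Strip051.G.I3_16_5_16.Tab

noncomputable def cut_pm_012 : Cut := Cut.of [[⟨0, 0, 0, 67108864⟩, ⟨1, 1, 0, 67108864⟩, ⟨2, 1, 0, 67108864⟩]]

noncomputable def f_pm_012 : ℕ → ℕ → ℕ → ℕ → Bool := onCell 1073741824 536870912 536870912 536870912 201326592 134217728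
    (rowN 3 2 true true false .pnp 0 1 2 (qsf 0 536870912 536870912 536870912 2) ndN0q0 ndN5q1 pcN2 cut_pm_012 Ext.none)

def k0_pm_012 : ∃ t, chk3 f_pm_012 t 2 2 1 = true :=
  ⟨(a (b (b (a (c (a (l 17728456) (l 17870288)) (a (b (l 17339568) (l 17246392)) (l 17423640))) (a (c (l 17997368) (l 17545920)) (l 2))) (a (c (a (b (l 17596296) (l 17499176)) (l 17713808)) (a (b (l 17145240) (l 17032072)) (b (l 17286680) (l 17182960)))) (a (c (l 17864552) (l 17379088)) (a (l 17661920) (c (l 18026984) (l 17542888)))))) (a (b (a (c (b (l 17394984) (a (l 17229784) (l 17328024))) (b (a (l 16864912) (l 16944272)) (a (l 16709488) (l 16795736)))) (c (b (l 17575416) (l 17471608)) (b (l 17064552) (l 16927568)))) (a (c (b (a (l 16980000) (l 17191960)) (a (c (l 17056928) (l 16749184)) (l 16958168))) (b (a (l 16518592) (l 16611880)) (a (l 16519424) (l 16461680)))) (c (b (l 17350360) (a (l 17139264) (l 17255568))) (b (l 16738184) (a (l 16489840) (l 16602088)))))) (a (b (c (l 17701888) (b (l 17224840)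 (l 17101544))) (c (b (l 17550008) (l 17423128)) (b (l 16954952) (l 16770600)))) (a (b (c (l 17823952) (l 17286792)) (c (l 17637688) (l 17019344))) (b (c (l 17897848) (a (l 17345208) (l 17382856))) (c (a (l 17707328) (l 17751968)) (a (l 17091936) (l 17139152)))))))) (a (a (b (a (b (l 2) (c (l 18083800) (l 17603120))) (l 2)) (a (b (c (l 17967952) (l 17436616)) (c (l 17814376) (a (l 17185104) (l 17229472)))) (a (b (l 17522504) (c (l 17873192) (l 17272744))) (b (c (l 18044432) (l 17521496)) (c (l 17910840) (a (l 17304376) (l 17325200))))))) (b (l 2) (b (c (l 18106408) (l 17596136)) (c (l 17992096) (a (l 17375056) (l 17452544)))))) (b (l 2) (a (c (b (l 18199696) (l 18113272)) (b (l 17708528) (l 17558800))) (b (l 2) (c (l 18211704) (l 17683968))))))), by decide +kernel⟩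

def k1_pm_012 : ∃ t, chk3 f_pm_012 t 8 6 1 = true :=
  ⟨(b (a (a (c (b (a (l 16619088) (l 16702864)) (a (c (l 16590176) (l 16583056)) (l 16610176))) (b (b (l 16522336) (l 16538472)) (a (l 16593672) (l 16553144)))) (c (b (c (l 16977344) (l 16623280)) (c (l 16709728) (l 16536536))) (b (l 16492216) (l 16544920)))) (c (b (a (l 16871432) (l 17067280)) (a (b (l 16737712) (l 16578816)) (l 16775264))) (b (a (l 16434056) (l 16397664)) (a (l 16485760) (l 16427320))))) (a (a (a (c (b (b (l 16609592) (l 16625200)) (b (c (l 16622632) (l 16617768)) (c (l 16659480) (l 16655136)))) (b (b (l 16576768) (l 16614592)) (b (l 16631656) (l 16648808)))) (c (b (c (l 16601816) (l 16595464)) (b (l 16622248) (l 16638288))) (b (l 16607120) (b (l 16590528) (l 16628536))))) (c (b (c (a (l 16583584) (l 16544536)) (l 16588120)) (b (c (l 16597352) (l 16569984)) (c (l 16612960) (l 16607072)))) (b (b (l 16548344) (l 16564808)) (b (l 16581488) (l 16619312))))) (c (b (a (c (l 16543984) (l 16530192)) (c (l 16711160)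 (l 16472992))) (a (c (b (l 16540384) (l 16555728)) (l 16582408)) (c (l 16554384) (l 16524664)))) (b (a (l 16538528) (l 16479384)) (a (b (l 16521240) (l 16558768)) (l 16532504)))))), by decide +kernel⟩

def k2_pm_012 : ∃ t, chk3 f_pm_012 t 9 6 1 = true :=
  ⟨(a (b (b (c (l 17050224) (l 16533432)) (c (a (l 16970032) (l 17117312)) (l 16435032))) (c (b (a (c (l 16895360) (l 16437288)) (l 16734744)) (a (c (l 16495992) (l 16467584)) (c (l 16720856) (l 16432056)))) (b (a (l 16420784) (l 16383744)) (a (l 16494288) (l 16414720))))) (a (b (c (b (l 17440224) (l 17257464)) (b (l 16724552) (l 16452528))) (c (b (l 16905824) (c (l 16931552) (l 16396952))) (b (l 16347232) (l 16377432)))) (b (c (a (l 17447112) (b (l 17579216) (l 17421184))) (a (l 16698368) (b (l 16875904) (l 16634576)))) (a (c (b (l 17132136) (l 16819144)) (b (l 16320464) (l 16350048))) (c (b (l 17209632) (c (l 17173088) (l 16659416))) (b (l 16314648) (l 16332368))))))), by decide +kernel⟩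

def k3_pm_012 : ∃ t, chk3 f_pm_012 t 8 14 1 = true :=
  ⟨(a (a (b (a (c (b (c (l 16674968) (l 16671136)) (c (a (l 16693488) (l 16663600)) (l 16685768))) (a (b (l 16670616) (l 16686008)) (b (l 16639696) (l 16676192)))) (b (c (c (l 16635624) (l 16631144)) (l 16645536)) (c (c (l 16671272) (l 16667336)) (l 16661560)))) (a (b (c (a (c (l 16707512) (l 16705080)) (c (l 16698432) (l 16695648))) (a (l 16701584) (l 16691600))) (c (a (c (a (l 16724368) (l 16719720)) (b (l 16716376) (l 16724040))) (c (l 16712760) (l 16710568))) (a (b (l 16713528) (l 16721592)) (l 16707384)))) (c (b (c (l 16684936) (l 16681616)) (c (b (l 16695440) (l 16702584)) (a (l 16701024) (l 16670584)))) (b (l 16687224) (a (l 16697296) (l 16687280)))))) (b (b (c (c (l 16628712) (l 16623304)) (l 16636240)) (c (c (a (l 16632400) (l 16614248)) (l 16649680)) (c (l 16655264) (l 16650400)))) (c (b (a (c (l 16667200) (l 16642192)) (c (l 16628720) (l 16623976))) (a (c (b (l 16656480) (l 16663440)) (l 16677472)) (c (l 16663120)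 (l 16658968)))) (b (a (l 16657168) (l 16637840)) (a (c (l 16674064) (l 16670672)) (l 16652720)))))) (b (a (c (b (c (l 16592264) (l 16564568)) (c (l 16607904) (l 16601616))) (b (l 16575464) (l 16613160))) (c (b (c (l 16535544) (l 16527464)) (c (l 16551024) (l 16543368))) (b (l 16515312) (l 16552800)))) (c (a (b (c (a (l 16611192) (l 16593472)) (l 16617312)) (c (b (l 16633912) (l 16640512)) (a (l 16619880) (l 16602040)))) (b (c (l 16587480) (l 16559272)) (c (a (l 16590480) (l 16572952)) (l 16595712)))) (a (b (a (l 16597480) (l 16577936)) (a (l 16633424) (l 16593416))) (b (l 16569304) (a (l 16574240) (l 16554856))))))), by decide +kernel⟩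

def k4_pm_012 : ∃ t, chk3 f_pm_012 t 16 15 1 = true :=
  ⟨(b (a (a (b (b (c (a (c (l 16722784) (l 16731816)) (c (l 16723840) (l 16701088))) (a (l 16724488) (l 16719448))) (a (l 6) (a (l 6) (c (l 16717712) (l 16704032))))) (l 6)) (a (b (b (c (l 16702936) (l 16688264)) (c (a (l 16712904) (l 16708120)) (l 16717280))) (l 6)) (c (b (c (b (l 16684256) (l 16691600)) (l 16706544)) (b (c (l 16699056) (l 16697088)) (l 6))) (b (c (l 16704216) (l 16701904)) (b (l 16715088) (l 6)))))) (b (c (a (c (b (l 16691480) (l 16698672)) (b (l 16667512) (l 16695944))) (c (b (l 16652456) (l 16659456)) (b (l 16648744) (l 16656016)))) (a (b (l 16683992) (a (l 16675920) (l 16665824))) (c (l 16669728) (l 16666104)))) (c (a (b (c (a (l 16689680) (l 16680376)) (l 16698256)) (a (l 6) (a (l 6) (l 16694648)))) (b (c (l 16687536) (l 16663392)) (c (a (l 16678424) (l 16669184)) (l 16691824)))) (a (b (c (l 16701000) (l 16677504)) (a (l 6) (l 16681616))) (b (l 16679512) (c (l 16667864) (l 16664816))))))) (a (l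 6) (a (l 6) (a (l 6) (b (b (b (c (l 16673176) (l 16667152)) (l 6)) (l 6)) (l 6)))))), by decide +kernel⟩

def k5_pm_012 : ∃ t, chk3 f_pm_012 t 17 15 1 = true :=
  ⟨(b (c (a (b (a (c (b (l 16634856) (l 16641672)) (l 16654872)) (c (l 16641888) (l 16615784))) (a (c (b (l 16648592) (l 16655624)) (b (l 16644664) (l 16651952))) (c (b (l 16631008) (l 16637848)) (b (l 16626296) (l 16633400))))) (b (c (b (l 16592152) (l 16619600)) (a (l 16597928) (l 16580272))) (c (b (l 16626104) (a (l 16620368) (l 16603168))) (a (l 16632600) (l 16593712))))) (a (b (a (b (l 16623576) (l 16631080)) (l 16639432)) (a (b (l 16638656) (l 16667272)) (b (l 16619072) (l 16626552)))) (a (b (l 16609864) (b (l 16599744) (l 16607056))) (b (l 16570032) (c (l 16587424) (l 16581016)))))) (b (a (c (b (a (c (b (l 16660976) (l 16664568)) (l 16659320)) (c (l 16644792) (l 16640592))) (a (a (l 6) (b (l 16672400) (l 6))) (c (l 16657088) (l 16647864)))) (b (a (c (l 16655792) (l 16652176)) (l 16655056)) (a (c (l 16673936)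 (l 16660016)) (c (l 16643768) (l 16639552))))) (c (b (c (a (l 16627128) (l 16609752)) (a (l 16622136) (l 16603960))) (c (a (l 16633984) (l 16616424)) (a (l 16629232) (l 16610880)))) (a (b (l 16614424) (l 16642816)) (b (l 16595024) (l 16602280))))) (a (a (l 6) (a (l 6) (b (c (c (l 16654464) (l 16650488)) (l 16644280)) (l 6)))) (c (b (c (a (l 16651424) (l 16623192)) (a (l 16636400) (l 16617872))) (a (a (l 6) (c (l 16643480) (l 16638944))) (c (b (l 16628336) (l 16631784)) (l 16624936)))) (b (a (c (l 16631720) (l 16626888)) (l 16620072)) (a (c (l 16649624) (l 16634472)) (c (l 16619648) (l 16614184)))))))), by decide +kernel⟩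

def k6_pm_012 : ∃ t, chk3 f_pm_012 t 18 7 1 = true :=
  ⟨(b (b (c (a (c (b (l 16500640) (l 16515920)) (l 16540752)) (c (l 16494584) (l 16483824))) (b (l 16520432) (a (l 16493048) (l 16454792)))) (c (b (c (a (l 16531272) (l 16496576)) (a (l 16522560) (l 16486360))) (a (c (l 16546592) (l 16538264)) (c (l 16511784) (l 16501936)))) (b (a (l 16509368) (l 16470880)) (a (l 16546592) (l 16486976))))) (b (c (b (a (c (l 16603368) (l 16574464)) (c (l 16526920) (l 16517424))) (a (c (b (l 16571840) (l 16578176)) (b (l 16564240) (l 16570824))) (c (b (l 16538152) (l 16545168)) (l 16553352)))) (b (a (c (l 16545464) (l 16537328)) (l 16523920)) (a (a (l 16586376) (l 16546808)) (c (l 16523104) (l 16513680))))) (b (b (c (c (a (l 16584528) (l 16551728)) (a (l 16577424) (l 16542888))) (a (c (l 16570192) (l 16562816)) (l 16550296))) (c (c (a (a (l 16599368) (l 16582632)) (l 16557912)) (a (l 16584096) (l 16549296))) (a (c (l 16577096) (l 16569944)) (l 16557032)))) (c (b (c (a (a (l 16605944) (l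 16589040)) (l 16585064)) (a (l 16601312) (l 16555712))) (c (a (a (l 16612616) (l 16595528)) (a (l 16578688) (l 16562080))) (a (a (l 16606656) (l 16588696)) (l 16572664)))) (b (a (c (l 16584056) (l 16577104)) (c (l 16547160) (l 16538424))) (a (c (a (l 16600528) (l 16581688)) (l 16594784)) (c (l 16553840) (l 16545304)))))))), by decide +kernel⟩

def k7_pm_012 : ∃ t, chk3 f_pm_012 t 19 7 1 = true :=
  ⟨(a (b (c (b (c (l 16480600) (l 16427248)) (c (b (l 16462312) (l 16477376)) (l 16500088))) (b (l 16450760) (b (l 16432848) (l 16448736)))) (b (c (b (c (l 16492416) (l 16481368)) (c (l 16528312) (l 16496608))) (b (l 16464568) (c (l 16485736) (l 16474712)))) (c (b (c (b (l 16518384) (l 16525256)) (l 16532232)) (c (b (l 16531656) (a (l 16545680) (l 16529744))) (b (l 16521512) (l 16527728)))) (b (c (l 16500680) (l 16489920)) (b (c (l 16511176) (l 16500648)) (c (l 16517592) (l 16507248))))))) (b (a (c (b (l 16449840) (c (l 16444592) (l 16431848))) (b (l 16381072) (l 16412552))) (c (b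 (c (l 16801264) (l 16384288)) (c (l 16449192) (l 16414672))) (b (l 16362984) (l 16436096)))) (b (c (b (a (l 16482000) (c (l 16450648) (l 16437528))) (c (a (l 16482040) (l 16465424)) (a (l 16470048) (l 16452600)))) (b (a (l 16436224) (l 16417632)) (a (l 16451792) (l 16433088)))) (c (b (c (a (l 16496720) (l 16480048)) (a (l 16485016) (l 16467488))) (c (a (l 16531624) (l 16515304)) (a (l 16499232) (l 16482032)))) (b (a (l 16467128) (l 16448336)) (a (c (l 16487624) (l 16475816)) (c (l 16469544) (l 16456856)))))))), by decide +kernel⟩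

def k8_pm_012 : ∃ t, chk3 f_pm_012 t 10 6 1 = true :=
  ⟨(a (a (b (c (b (l 17655560) (l 17302048)) (a (b (l 16933832) (l 16704232)) (b (l 16989736) (l 16771848)))) (b (c (a (l 17284200) (l 17355528)) (a (l 16401000) (l 16484904))) (c (a (l 16822240) (l 16996136)) (a (l 16315584) (l 16301192))))) (b (c (a (l 17667032) (a (l 17704224) (b (l 17784288) (l 17664456)))) (a (b (l 17044128) (l 16837512)) (a (l 16991080) (b (l 17109904) (l 16916776))))) (c (a (b (l 17424096) (l 17124264)) (a (b (l 17473632) (l 17249344)) (b (l 17505816) (c (l 17526992) (l 17050768))))) (a (b (l 16566160) (l 16287256)) (a (b (l 16625384) (l 16277640)) (b (a (l 16654440) (l 16673616)) (l 16366872))))))) (b (c (a (l 17785728) (l 17873240)) (a (b (l 17172776) (l 16992672)) (l 17173056))) (c (a (b (l 17582616) (l 17365208)) (b (l 17697792) (l 17529568))) (a (b (l 16757904) (l 16444360)) (b (l 16899216) (l 16622472)))))), by decide +kernel⟩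

def k9_pm_012 : ∃ t, chk3 f_pm_012 t 20 7 1 = true :=
  ⟨(a (b (b (c (a (c (l 16919048) (l 16368232)) (c (l 17031144) (l 16444736))) (a (l 16345592) (l 16330056))) (c (a (c (l 16412632) (l 16398168)) (c (l 16556024) (l 16383464))) (b (l 16424096) (l 16460168)))) (b (c (b (c (l 16470104) (l 16434504)) (c (l 16505344) (l 16470056))) (b (a (l 16399488) (l 16382504)) (a (l 16414752) (l 16397400)))) (c (b (c (a (l 16463824) (l 16448696)) (l 16505496)) (c (a (l 16478040) (l 16462568)) (a (l 16464832) (l 16448344)))) (a (b (l 16429848) (c (l 16451440) (l 16437864))) (b (l 16412168) (l 16447672)))))) (b (b (a (c (c (l 17137640) (l 16564216)) (l 16314944)) (c (a (l 16807112) (a (l 16867520) (c (l 17275328) (l 16719456)))) (a (l 16304272) (a (l 16299144) (l 16295968))))) (c (c (a (l 16702648) (a (l 16806952) (a (l 16857360) (l 16890368)))) (a (l 16369096) (a (l 16358944) (l 16415160)))) (a (l 16343840) (a (l 16332328) (a (l 16326736) (l 16323200)))))) (b (c (a (c (l 16434320) (l 16397256))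 (a (c (l 16403312) (l 16386336)) (c (b (l 16448552) (l 16424288)) (a (l 16381040) (l 16377672))))) (a (b (l 16365816) (l 16380336)) (a (l 16360744) (b (l 16387704) (l 16422624))))) (c (a (b (c (l 16433912) (l 16418336)) (c (l 16447384) (l 16432128))) (b (a (c (l 16423264) (l 16406840)) (c (l 16458184) (l 16420224))) (a (c (l 16436376) (l 16420312)) (c (a (l 16431008) (l 16427568)) (l 16454432))))) (a (b (l 16394736) (l 16429928)) (b (a (l 16382016) (a (l 16375768) (l 16371736))) (a (l 16395952) (a (l 16389552) (l 16385392))))))))), by decide +kernel⟩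

def k10_pm_012 : ∃ t, chk3 f_pm_012 t 21 7 1 = true :=
  ⟨(b (b (c (a (c (l 17380768) (l 16839144)) (c (l 17553112) (l 17035352))) (a (l 16283056) (l 16259168))) (c (a (c (b (l 17133608) (l 16921040)) (l 16385904)) (c (l 17262784) (l 16650168))) (a (l 16329320) (l 16281480)))) (b (c (c (a (b (l 16656184) (l 16388912)) (b (l 16951864) (l 16678688))) (a (l 16384360) (l 16338064))) (a (b (l 16328144) (l 16341240)) (l 16368096))) (c (a (b (c (l 16400912) (l 16382328)) (c (l 16412832) (l 16394696))) (c (b (l 16376280) (l 16386960)) (b (l 16355120) (l 16366360)))) (a (b (l 16354336) (l 16430232)) (b (l 16323384) (l 16356352)))))), by decide +kernel⟩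

def k11_pm_012 : ∃ t, chk3 f_pm_012 t 11 3 1 = true :=
  ⟨(b (a (b (c (l 17989784) (a (l 17292856) (l 17384768))) (c (b (l 17850936) (a (l 17659624) (l 17777176))) (b (a (l 17030328) (l 17151992)) (a (l 16786552) (l 16937320))))) (b (c (l 18122384) (l 17510272)) (c (b (l 18024232) (l 17932032)) (b (l 17318168) (a (l 17075720) (l 17203152)))))) (b (a (c (b (a (l 17440040) (l 17610072)) (a (c (l 17466320) (l 16885672)) (c (l 17646472) (l 17095600)))) (b (a (l 16457216) (l 16650072)) (a (l 16257912) (l 16254144)))) (c (b (l 17805008) (c (l 17878440) (l 17368792))) (b (a (l 16825536) (l 16985048)) (a (l 16483536) (l 16690032))))) (b (a (c (c (a (b (l 17209984) (l 16986736)) (l 17349408)) (a (l 16405968) (l 16693456))) (a (l 16299520) (l 16255032))) (c (a (c (l 17563032) (l 16945800)) (c (l 17749632) (l 17167864))) (a (l 16235032) (l 16278488)))) (a (c (c (b (a (l 16705880) (l 17025528)) (a (l 16363752) (l 16737544))) (a (b (l 16330640) (l 16340488)) (l 16312960))) (a (b (l 16294864)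 (l 16305648)) (b (l 16269000) (l 16278392)))) (c (c (a (b (l 17300008) (l 17068024)) (l 17217808)) (b (a (l 16589816) (l 16872496)) (l 16351600))) (a (b (l 16246168) (l 16253896)) (l 16250568))))))), by decide +kernel⟩

def k12_pm_012 : ∃ t, chk3 f_pm_012 t 3 1 1 = true :=
  ⟨(b (a (b (l 2) (a (b (l 2) (c (l 18322824) (l 18023832))) (l 2))) (l 2)) (a (b (a (b (a (c (l 18230224) (l 17655288)) (l 18046552)) (c (a (l 18136696) (l 18256608)) (a (b (l 17508760) (l 17375552)) (l 17621232)))) (b (a (l 18125336) (l 2)) (a (c (l 18347272) (l 17762080)) (l 18144200)))) (a (b (a (c (b (l 18018512) (l 17897504)) (b (l 16967696) (a (l 16875952) (l 17043456)))) (c (b (l 18186352) (l 18110880)) (b (l 17440920) (l 17077048)))) (a (c (b (c (l 17986384) (l 17452712)) (c (a (l 17670576) (l 17862376)) (a (l 16914432) (l 17252088)))) (b (a (l 16524120) (l 16743144)) (c (l 16289960) (l 16230784)))) (c (b (l 17997704) (c (l 18102640) (l 17337760))) (b (a (l 16939032) (l 17114480)) (a (l 16328248)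 (l 16622544)))))) (b (c (a (l 18296528) (l 18398928)) (a (b (l 17637736) (l 17516240)) (b (l 17792088) (l 17715048)))) (c (a (b (l 18210056) (l 18106592)) (b (l 18368408) (l 18317520))) (a (b (a (l 17272112) (l 17414696)) (a (l 16974976) (l 17199792))) (b (l 17603424) (a (l 17362792) (l 17509520)))))))) (a (b (a (b (l 2) (l 18215552)) (l 2)) (b (a (c (l 18477512) (l 17885552)) (l 18264568)) (a (c (l 18476248) (b (l 17791008) (l 17684496))) (c (l 18566624) (l 17895432))))) (b (l 2) (b (l 18350360) (c (l 18655368) (l 18054776))))))), by decide +kernel⟩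

theorem s13_pm_012 : ∃ t, chk3 f_pm_012 t 10 7 1 = true := ex3_a k9_pm_012 k10_pm_012

theorem s14_pm_012 : ∃ t, chk3 f_pm_012 t 10 3 1 = true := ex3_b k8_pm_012 s13_pm_012

theorem s15_pm_012 : ∃ t, chk3 f_pm_012 t 5 3 1 = true := ex3_a s14_pm_012 k11_pm_012

theorem s16_pm_012 : ∃ t, chk3 f_pm_012 t 9 7 1 = true := ex3_a k6_pm_012 k7_pm_012

theorem s17_pm_012 : ∃ t, chk3 f_pm_012 t 8 15 1 = true := ex3_a k4_pm_012 k5_pm_012

theorem s18_pm_012 : ∃ t, chk3 f_pm_012 t 8 7 1 = true := ex3_b k3_pm_012 s17_pm_012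

theorem s19_pm_012 : ∃ t, chk3 f_pm_012 t 4 7 1 = true := ex3_a s18_pm_012 s16_pm_012

theorem s20_pm_012 : ∃ t, chk3 f_pm_012 t 4 6 1 = true := ex3_a k1_pm_012 k2_pm_012

theorem s21_pm_012 : ∃ t, chk3 f_pm_012 t 4 3 1 = true := ex3_b s20_pm_012 s19_pm_012

theorem s22_pm_012 : ∃ t, chk3 f_pm_012 t 2 3 1 = true := ex3_a s21_pm_012 s15_pm_012

theorem s23_pm_012 : ∃ t, chk3 f_pm_012 t 2 1 1 = true := ex3_b k0_pm_012 s22_pm_012

theorem s24_pm_012 : ∃ t, chk3 f_pm_012 t 1 1 1 = true := ex3_a s23_pm_012 k12_pm_012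

theorem c_pm_012 : CertN 0 536870912 536870912 536870912 201326592 134217728 3 true true false .pnp 0 1 2
    ndN0q0 ndN5q1 pcN2 cut_pm_012 Ext.none :=
  certN2 (fam := true) (s1 := true) (s2 := false) (a := 0) (b := 1) (c := 2) (cn := .pnp) (n1 := ndN0q0) (n2 := ndN5q1) (pc := pcN2) (cut := cut_pm_012) (xt := Ext.none) (P1 := 0) (W1 := 536870912) (P2 := 536870912) (W2 := 536870912) (P3 := 201326592) (W3 := 134217728) (N0 := 3)
    rfl (fun _ => rfl) s24_pm_012

noncomputable def cut_pm_022 : Cut := Cut.of [[⟨0, 0, 0, 67108864⟩, ⟨1, 1, 0, 67108864⟩, ⟨2, 1, 0, 67108864⟩]]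

noncomputable def f_pm_022 : ℕ → ℕ → ℕ → ℕ → Bool := onCell 1073741824 536870912 1073741824 536870912 201326592 134217728
    (rowN 3 2 true true false .pp 0 2 2 (qsf 0 536870912 1073741824 536870912 2) ndN0q0 ndN5q2 pcN2 cut_pm_022 Ext.none)

def k0_pm_022 : ∃ t, chk3 f_pm_022 t 8 4 1 = true :=
  ⟨(b (a (b (l 6) (b (l 6) (l 1))) (b (a (l 6) (a (l 6) (a (l 6) (a (l 6) (c (b (c (l 16627912) (l 16623376)) (c (l 16629312) (l 16626320))) (b (l 16626736) (l 16621576))))))) (a (b (l 6) (b (l 6) (l 1))) (b (a (l 6) (a (l 6) (c (l 16646432) (l 16648888)))) (b (a (l 6) (c (c (l 16670512) (l 16668776)) (l 16676664))) (b (a (l 6) (c (c (l 16682440) (l 16680176)) (l 16676784))) (a (l 1) (c (a (l 214781715687) (l 63384124039)) (a (l 138009201783) (l 16655504)))))))))) (a (l 1) (a (l 1) (b (b (a (l 1) (a (l 1) (b (c (l 214244879671) (l 243772725767)) (l 1)))) (l 1)) (l 1))))), by decide +kernel⟩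

def k1_pm_022 : ∃ t, chk3 f_pm_022 t 18 4 1 = true :=
  ⟨(b (b (a (b (c (c (b (a (l 16616512) (l 16599312)) (l 16614024)) (b (l 16612456) (l 16603688))) (b (c (l 16595904) (l 16589656)) (c (l 16598432) (l 16593000)))) (c (b (c (l 16630536) (l 16605248)) (c (l 16641328) (l 16627312))) (b (a (l 16608200) (l 16588848)) (c (l 16623648) (l 16640824))))) (c (b (c (b (l 16584456) (l 16574848)) (b (l 16566344) (l 16568040))) (c (b (l 16575576) (l 16576176)) (l 16591240))) (b (c (b (l 16558528) (l 16561048)) (l 16573184)) (c (l 16564496) (l 16558568))))) (b (a (c (a (c (l 16639040) (l 16637112)) (c (l 16622176) (l 16619376))) (a (l 16628776) (l 16625448))) (c (c (b (l 16597160) (l 16597024)) (l 16613864)) (b (l 16606784) (l 16608592)))) (a (a (c (c (a (l 16655576) (l 16640120)) (l 16667296)) (c (l 16665736) (l 16643176))) (c (b (l 16619584) (l 16645352)) (l 16616664))) (c (c (l 16605072) (l 16592120)) (l 16598760))))) (b (a (b (c (c (a (b (a (l 87006446119) (l 16664568)) (l 207265505687))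 (b (l 16641640) (l 64994713127))) (a (b (l 62310381847) (l 218539788263)) (b (c (l 16640136) (l 16639104)) (l 62847224711)))) (a (b (a (l 82174601479) (l 16658352)) (l 237867120583)) (b (a (l 16622832) (l 16629064)) (l 59089127095)))) (a (l 1) (b (c (a (l 1) (l 216392264871)) (l 241625198567)) (l 1)))) (b (c (c (l 16639808) (l 16643512)) (a (c (l 16636104) (l 16602648)) (l 16583880))) (a (c (b (c (l 65531555367) (l 16640688)) (l 213707938535)) (b (l 16649288) (l 244309523895))) (c (b (l 16611480) (c (l 16629080) (l 16626080))) (b (l 16606600) (l 16621288)))))) (a (l 1) (b (a (l 1) (c (b (l 213707867735) (l 1)) (l 244309487351))) (l 1))))), by decide +kernel⟩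

def k2_pm_022 : ∃ t, chk3 f_pm_022 t 19 4 1 = true :=
  ⟨(b (a (b (c (b (c (b (l 16541168) (l 16542024)) (b (l 16531744) (l 16533432))) (c (l 16563992) (l 16535640))) (b (c (l 16544368) (l 16514016)) (c (l 16528112) (l 16520408)))) (c (b (c (l 16564320) (l 16558552)) (a (l 16569072) (l 16553520))) (b (c (l 16552648) (l 16546600)) (a (l 16561376) (l 16522968))))) (b (b (c (c (a (l 16517992) (l 16502504)) (a (l 16507552) (l 16491128))) (a (l 16491536) (l 16494672))) (c (c (l 16554008) (l 16544696)) (c (l 16535232) (l 16525616)))) (c (b (c (l 16533672) (l 16525976)) (c (l 16532832) (l 16526744))) (b (a (l 16501968) (l 16484152)) (l 16538376))))) (a (b (c (a (c (l 16614344) (l 16612928)) (b (l 16549800) (l 16577712))) (b (l 16573256) (l 16610720))) (b (a (c (b (l 68752727479) (l 214244709415)) (b (l 16606232) (l 246993818823))) (c (c (l 16612336) (l 16588504)) (l 16604784))) (a (l 1) (c (l 219076575559) (l 246456932135))))) (b (c (b (a (l 16534808) (l 16520600)) (l 16543592))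 (b (l 16539704) (l 16537720))) (b (c (l 16584112) (l 16579944)) (a (c (b (l 16593392) (l 167536949767)) (l 84858824295)) (c (l 45130322439) (l 16552904))))))), by decide +kernel⟩

def k3_pm_022 : ∃ t, chk3 f_pm_022 t 4 5 1 = true :=
  ⟨(b (a (l 1) (a (l 1) (b (a (l 1) (b (a (l 1) (c (l 219076472535) (l 247530612375))) (l 1))) (l 1)))) (l 1)), by decide +kernel⟩

def k4_pm_022 : ∃ t, chk3 f_pm_022 t 10 4 1 = true :=
  ⟨(a (b (a (b (c (b (c (a (l 16486984) (l 16471760)) (a (l 16474648) (l 16458424))) (c (l 16502888) (l 16491616))) (a (b (l 16476776) (l 16461800)) (b (l 16438088) (l 16444800)))) (c (b (c (l 16482448) (l 16472808)) (c (l 16482304) (l 16474296))) (b (l 16500072) (l 16483056)))) (a (c (b (c (b (l 16456440) (l 16459952)) (b (l 16442104) (l 16447152))) (c (l 16460608) (l 16450312))) (b (b (l 16420296) (l 16427712)) (l 16455632))) (a (c (b (c (l 16447216) (l 16432864)) (c (l 16450256) (l 16439184))) (b (b (l 16407152) (l 16414944)) (l 16422384))) (c (b (c (b (l 16479752)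 (l 16441704)) (b (l 16464104) (l 16427624))) (b (l 16489672) (l 16458280))) (b (b (a (l 16400672) (l 16396440)) (l 16448232)) (b (l 16433128) (l 16415696))))))) (a (b (c (b (l 16518968) (l 16521184)) (a (l 16514608) (l 16498208))) (c (c (l 16556928) (l 16555600)) (c (l 16554032) (l 16552240)))) (a (c (b (b (l 16455200) (l 16453104)) (l 16486872)) (b (l 16460688) (l 16458496))) (c (b (a (l 16464104) (l 16477976)) (a (l 16457272) (a (l 16452904) (l 16470392)))) (a (b (l 16427664) (l 16427552)) (b (l 16461584) (a (l 16422528) (l 16439600)))))))) (a (b (c (b (c (b (l 16420888) (l 16424408)) (b (l 16403792) (l 16408952))) (c (l 16426336) (l 16413416))) (b (b (l 16398920) (l 16385592)) (l 16435824))) (b (c (l 16460040) (l 16420256)) (c (l 16454008) (l 16421352)))) (b (c (b (c (b (l 16394096) (l 16397128)) (l 16398016)) (c (l 16399568) (l 16384512))) (b (b (l 16345376) (l 16352800)) (l 16382792))) (b (c (l 16411920) (l 16368168)) (c (l 16404288) (l 16368176)))))), by decide +kernel⟩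

def k5_pm_022 : ∃ t, chk3 f_pm_022 t 10 5 1 = true :=
  ⟨(a (b (a (b (c (b (a (l 103112382631) (l 16547984)) (l 223908361015)) (b (a (l 16572424) (l 16520096)) (l 247530639623))) (l 1)) (b (a (c (b (l 16493496) (l 109017897687)) (l 50498975191)) (a (c (l 33855910711) (l 16498160)) (c (b (l 16492408) (l 16523344)) (c (l 16524888) (l 16521736))))) (a (l 1) (a (l 1) (a (l 1) (c (l 214244534983) (l 231961231255))))))) (l 1)) (b (b (c (a (l 16478968) (l 16410328)) (l 16481976)) (a (b (c (l 97206651303) (l 16464696)) (c (l 207265137511) (l 179347939783))) (c (b (c (l 16382528) (l 16373472)) (l 16470200)) (b (l 16367424) (l 16438232))))) (b (a (l 1) (c (l 211023236631) (l 228203053959))) (l 1)))), by decide +kernel⟩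

def k6_pm_022 : ∃ t, chk3 f_pm_022 t 11 2 1 = true :=
  ⟨(b (b (a (b (c (a (c (l 16370968) (l 16349928)) (c (b (l 16547448) (l 16516104)) (l 16325176))) (a (b (l 16314856) (l 16321848)) (l 16352696))) (c (c (l 16425136) (l 16385696)) (a (l 16330696) (l 16301048)))) (c (b (c (a (l 16846688) (l 17192712)) (b (l 16292808) (l 16294528))) (c (a (l 16819232) (l 17111848)) (l 16295728))) (b (a (l 16284616) (l 16240504)) (l 16344640)))) (a (c (b (c (l 16380256) (l 16365752)) (b (l 16368112) (l 16361752))) (b (l 16385840) (l 16386144))) (c (b (c (l 16911968) (l 16294872)) (c (l 16869744) (l 16289168))) (b (l 16287432) (l 16288384))))) (c (b (a (b (b (l 16374024) (l 16362464)) (l 16431176)) (b (l 16516104) (l 16531632))) (a (b (a (l 157873016183) (l 16430192)) (l 214244452311)) (b (l 16570880) (a (l 165389395543) (l 16732408))))) (b (a (b (l 16376936) (l 16402968)) (b (l 16300888) (l 16279168))) (a (b (a (l 124050156679) (l 16396080)) (l 229276776407)) (b (l 16335776) (l 128881924935)))))),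 by decide +kernel⟩

def k7_pm_022 : ∃ t, chk3 f_pm_022 t 2 3 1 = true :=
  ⟨(a (l 1) (a (l 1) (b (b (a (l 1) (b (c (l 234646038471) (l 230887295479)) (l 1))) (l 1)) (l 1)))), by decide +kernel⟩

def k8_pm_022 : ∃ t, chk3 f_pm_022 t 6 1 1 = true :=
  ⟨(b (b (a (b (a (c (b (c (l 17568384) (a (l 16748512) (l 17018392))) (c (l 17476280) (l 16818008))) (b (a (l 16220616) (l 16204832)) (l 16237032))) (c (b (c (l 17954416) (l 17358648)) (l 17355544)) (b (a (l 16312368) (l 16576032)) (l 16387784)))) (a (c (b (c (l 17398544) (l 16762768)) (l 17030096)) (b (l 16217728) (l 16216304))) (c (b (l 17485864) (l 17419784)) (b (l 16342152) (l 16311088))))) (b (c (a (c (l 18189616) (l 17669496)) (l 18173992)) (a (b (a (l 16809440) (l 17016408)) (l 16838680)) (b (a (l 17200096) (l 17363512)) (l 17196928)))) (c (a (l 17758144) (l 17995944)) (a (b (l 16775736) (l 16726544)) (b (l 17121896) (l 17059896)))))) (a (b (c (a (b (l 16994000) (l 16976072)) (b (l 17367376) (l 17329552))) (a (b (l 16208360)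 (l 16186664)) (b (l 16294424) (l 16292992)))) (c (a (b (l 16978960) (l 17001584)) (l 17241992)) (b (l 16251024) (a (a (l 16261336) (l 16207712)) (l 16351384))))) (b (c (a (l 17633816) (l 17859968)) (a (l 16678608) (l 16991624))) (c (a (l 17562528) (l 17769840)) (a (l 16667952) (l 16948592)))))) (b (b (a (a (b (c (a (l 196528195671) (l 17118816)) (l 16369752)) (c (l 284038958999) (l 236792824471))) (c (b (l 17319384) (l 17355832)) (b (l 16412888) (l 16496232)))) (c (a (l 17550688) (l 17729920)) (a (l 16730400) (l 16967296)))) (a (a (l 1) (c (l 318399364295) (l 267931902071))) (b (c (l 17665120) (l 209413098679)) (c (l 316788898695) (l 249141802775))))) (a (l 1) (b (c (l 350075735655) (l 322693710599)) (l 1))))), by decide +kernel⟩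

def k9_pm_022 : ∃ t, chk3 f_pm_022 t 7 1 1 = true :=
  ⟨(b (a (b (a (b (c (l 18349872) (a (l 17453072) (l 17568616))) (c (l 18175368) (l 17354656))) (b (c (l 18475200) (l 17717448)) (c (l 18308680) (l 17560016)))) (b (c (l 18213392) (a (l 17243752) (l 17445240))) (c (l 18005248) (a (l 17179936) (l 17369144))))) (b (b (c (l 18592992) (a (l 17873168) (l 17987232))) (c (l 18441232) (l 17785816))) (b (c (l 18313224) (l 17671272)) (c (l 18207328) (l 17587040))))) (b (a (b (c (l 17939240) (l 17255280)) (c (l 17913464) (l 17282296))) (b (l 17789504) (l 17795384))) (a (b (c (l 17940456) (b (l 17340392) (l 17396008))) (l 355443902183)) (b (c (l 18049224) (l 17535576)) (l 333432504151))))), by decide +kernel⟩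

theorem s10_pm_022 : ∃ t, chk3 f_pm_022 t 3 1 1 = true := ex3_a k8_pm_022 k9_pm_022

theorem s11_pm_022 : ∃ t, chk3 f_pm_022 t 10 2 1 = true := ex3_b k4_pm_022 k5_pm_022

theorem s12_pm_022 : ∃ t, chk3 f_pm_022 t 5 2 1 = true := ex3_a s11_pm_022 k6_pm_022

theorem s13_pm_022 : ∃ t, chk3 f_pm_022 t 9 4 1 = true := ex3_a k1_pm_022 k2_pm_022

theorem s14_pm_022 : ∃ t, chk3 f_pm_022 t 4 4 1 = true := ex3_a k0_pm_022 s13_pm_022

theorem s15_pm_022 : ∃ t, chk3 f_pm_022 t 4 2 1 = true := ex3_b s14_pm_022 k3_pm_022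

theorem s16_pm_022 : ∃ t, chk3 f_pm_022 t 2 2 1 = true := ex3_a s15_pm_022 s12_pm_022

theorem s17_pm_022 : ∃ t, chk3 f_pm_022 t 2 1 1 = true := ex3_b s16_pm_022 k7_pm_022

theorem s18_pm_022 : ∃ t, chk3 f_pm_022 t 1 1 1 = true := ex3_a s17_pm_022 s10_pm_022

theorem c_pm_022 : CertN 0 536870912 1073741824 536870912 201326592 134217728 3 true true false .pp 0 2 2
    ndN0q0 ndN5q2 pcN2 cut_pm_022 Ext.none :=
  certN2 (fam := true) (s1 := true) (s2 := false) (a := 0) (b := 2) (c := 2) (cn := .pp) (n1 := ndN0q0) (n2 := ndN5q2) (pc := pcN2) (cut := cut_pm_022) (xt := Ext.none) (P1 := 0) (W1 := 536870912) (P2 := 1073741824) (W2 := 536870912) (P3 := 201326592) (W3 := 134217728) (N0 := 3)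
    rfl (fun _ => rfl) s18_pm_022

noncomputable def f_pm_023 : ℕ → ℕ → ℕ → ℕ → Bool := onCell 0 536870912 1073741824 536870912 201326592 134217728
    (rowN 3 0 true true false .up 0 2 3 (qsf 0 536870912 1073741824 536870912 3) ndN0q0 ndN5q2 pcN3 Cut.none Ext.none)

def k0_pm_023 : ∃ t, chk3 f_pm_023 t 1 1 1 = true :=
  ⟨(a (b (b (l 1) (a (l 1) (b (l 1) (l 299072413207)))) (a (b (b (l 1) (l 315178323799)) (b (l 319473283319) (l 340411819687))) (b (b (l 306052025911) (l 319473703159)) (b (l 17946720) (l 17924488))))) (b (a (a (b (l 1) (l 313031494135)) (b (l 338264783319) (l 311421550071))) (b (a (c (l 18522720) (l 386046605799)) (c (l 18538328) (l 318401149655))) (a (c (l 18375456) (l 17951184)) (b (l 18184320) (l 18081288))))) (a (b (a (b (l 18020136) (l 17998536)) (l 18035496)) (a (l 17906032) (l 17855808))) (b (a (l 18001144) (l 17908640)) (a (l 17773496) (b (l 17717704) (a (l 17617032) (b (l 17580728) (a (l 17527056) (l 17614912)))))))))), by decide +kernel⟩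

theorem c_pm_023 : CertN 0 536870912 1073741824 536870912 201326592 134217728 3 true true false .up 0 2 3
    ndN0q0 ndN5q2 pcN3 Cut.none Ext.none :=
  certN0 (fam := true) (s1 := true) (s2 := false) (a := 0) (b := 2) (c := 3) (cn := .up) (n1 := ndN0q0) (n2 := ndN5q2) (pc := pcN3) (cut := Cut.none) (xt := Ext.none) (P1 := 0) (W1 := 536870912) (P2 := 1073741824) (W2 := 536870912) (P3 := 201326592) (W3 := 134217728) (N0 := 3)
    rfl k0_pm_023

noncomputable def f_pm_033 : ℕ → ℕ → ℕ → ℕ → Bool := onCell 1610612736 536870912 0 1230186008 201326592 134217728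
    (rowN 3 2 true true false .pnn 0 3 3 (qsf 0 536870912 0 1230186008 3) ndN0q0 ndN5q3 pcN3 Cut.none Ext.none)

def k0_pm_033 : ∃ t, chk3 f_pm_033 t 1 1 1 = true :=
  ⟨(a (b (l 1) (b (a (l 1) (b (l 1) (b (l 1) (l 17971048)))) (b (a (l 1) (b (l 17931384) (l 17896352))) (a (b (l 17971448) (a (l 17922520) (l 17930808))) (b (l 17883656) (l 17992624)))))) (b (b (a (l 1) (l 4)) (a (l 1) (a (a (l 17615760) (l 17571752)) (a (l 17540152) (l 4))))) (a (b (b (a (l 1) (l 238406620359)) (a (l 18062168) (b (l 17674736) (l 17707648)))) (b (b (l 17743088) (l 17725368)) (b (l 17733520) (a (l 17796928) (l 17720552))))) (b (a (b (l 17535584) (l 17576472)) (a (b (l 17462536) (l 17467312)) (a (l 17591304) (b (l 4) (a (l 17411824) (l 17417648)))))) (a (b (l 17577656) (b (l 17594160) (l 17624336))) (b (a (l 17495016) (a (l 17453592) (a (l 17432696) (l 17419840)))) (a (b (l 17519056) (l 17541096)) (a (l 17482392) (a (l 17455336) (l 17580896)))))))))), by decide +kernel⟩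

theorem c_pm_033 : CertN 0 536870912 0 1230186008 201326592 134217728 3 true true false .pnn 0 3 3
    ndN0q0 ndN5q3 pcN3 Cut.none Ext.none :=
  certN2 (fam := true) (s1 := true) (s2 := false) (a := 0) (b := 3) (c := 3) (cn := .pnn) (n1 := ndN0q0) (n2 := ndN5q3) (pc := pcN3) (cut := Cut.none) (xt := Ext.none) (P1 := 0) (W1 := 536870912) (P2 := 0) (W2 := 1230186008) (P3 := 201326592) (W3 := 134217728) (N0 := 3)
    rfl (fun _ => rfl) k0_pm_033

noncomputable def f_pm_101 : ℕ → ℕ → ℕ → ℕ → Bool := onCell 536870912 536870912 536870912 536870912 201326592 134217728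
    (rowN 3 1 true true false .npn 1 0 1 (qsf 536870912 536870912 0 536870912 1) ndN0q1 ndN5q0 pcN1 Cut.none Ext.none)

def k0_pm_101 : ∃ t, chk3 f_pm_101 t 2 4 1 = true :=
  ⟨(a (b (a (l 3) (a (a (l 3) (l 1)) (l 1))) (a (b (a (l 3) (b (l 3) (a (l 3) (a (l 3) (b (l 3) (c (l 402821104071) (l 431275224679))))))) (a (b (l 3) (a (l 3) (a (l 3) (b (l 3) (c (l 396378649047) (l 434496448327)))))) (c (b (a (b (l 3) (a (l 3) (l 403357973319))) (b (a (l 403357974231) (b (l 397989236743) (l 375440646935))) (a (b (l 397989235719) (l 372219419623)) (l 16831112)))) (a (b (a (l 401747359479) (b (l 397452363527) (l 16845896))) (a (b (l 393694265591) (l 16824024)) (l 16829560))) (l 16871800))) (b (a (b (l 3) (a (l 3) (l 432885836775))) (b (a (l 431812095335) (l 427517096871)) (a (l 424295870887) (l 16841960)))) (a (b (a (l 433422707175) (l 421074644695)) (a (b (l 428590845015) (l 16811376)) (l 16820120))) (l 16866864)))))) (b (c (a (b (a (b (l 3) (a (l 3) (l 400673620951))) (b (l 1) (a (l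 357052819799) (l 1)))) (a (b (a (l 402284233719) (b (l 397989238023) (l 380272488055))) (a (b (l 397989237511) (l 378125003031)) (l 16831888))) (l 16883768))) (l 162705727015)) (a (b (a (b (l 3) (a (l 3) (l 431812095431))) (b (l 1) (a (l 381748851303) (l 1)))) (a (b (a (l 430738353911) (l 429664580951)) (a (l 429664580839) (l 16842240))) (a (l 16875648) (l 16779488)))) (b (l 1) (l 16823168)))) (b (a (a (b (c (l 16862952) (l 16854808)) (l 16819928)) (l 16805568)) (a (l 16843152) (l 16881560))) (a (a (l 16805464) (l 16841992)) (l 16897312)))))) (a (b (l 1) (b (l 1) (a (l 16937008) (l 1)))) (l 1))), by decide +kernel⟩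

def k1_pm_101 : ∃ t, chk3 f_pm_101 t 2 5 1 = true :=
  ⟨(a (b (a (b (a (b (c (a (b (l 3) (a (l 3) (l 383493722919))) (b (a (l 389936196567) (b (l 385641200087) (l 16822960))) (a (b (l 377051263383) (l 16821720)) (l 16827256)))) (a (b (l 3) (a (l 3) (l 427517124615))) (b (a (l 431812092935) (b (l 426443360279) (l 16810696))) (a (b (l 419464037095) (l 16809880)) (l 16818600))))) (c (a (b (a (b (l 389936203879) (l 374366925863)) (b (l 307794955527) (l 16820152))) (a (l 283635778199) (l 16823648))) (l 16846024)) (a (b (a (l 424832768903) (b (l 414632197255) (l 16808800))) (a (b (l 404968523015) (l 16807448)) (l 16815984))) (l 16842528)))) (a (b (c (l 16848536) (l 16865416)) (l 16808144)) (b (l 16806240) (l 16842920)))) (b (a (a (b (l 16850352) (l 16808440)) (l 16811704)) (a (l 16845632) (l 16879624))) (a (a (l 16816864) (l 16850056)) (l 16899960)))) (a (b (c (l 16888304) (l 16888024)) (l 16927992)) (b (l 16948760) (l 17016480)))) (a (a (b (c (l 16906808) (l 16876992)) (l 16946520))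 (b (l 16934976) (l 17028376))) (b (a (l 17020032) (l 17084160)) (c (l 17164840) (l 17076248))))) (a (a (b (b (l 17020752) (l 17084136)) (l 17180840)) (b (l 99355304343) (l 17245200))) (b (c (l 17309952) (l 17202624)) (c (l 17422280) (l 17281856))))), by decide +kernel⟩

def k2_pm_101 : ∃ t, chk3 f_pm_101 t 3 2 1 = true :=
  ⟨(b (l 1) (a (b (l 1) (a (l 17500968) (l 1))) (l 1))), by decide +kernel⟩

def k3_pm_101 : ∃ t, chk3 f_pm_101 t 1 3 1 = true :=
  ⟨(a (b (a (b (a (b (a (l 17039304) (l 17097320)) (a (l 17108512) (l 17163912))) (c (l 17277720) (l 17158048))) (a (a (a (l 17195440) (l 17221944)) (l 17261664)) (c (l 17423112) (l 17257408)))) (a (b (c (l 17402832) (l 17259840)) (l 17442776)) (b (l 17451072) (l 17551088)))) (a (a (b (c (l 17467648) (l 17247664)) (c (l 17611488) (l 17394928))) (b (c (l 17569784) (l 17343368)) (c (l 17711176) (l 17398088)))) (a (b (l 17551576) (l 17648792)) (b (l 17650304) (l 17741272))))) (b (a (a (b (l 17571544) (l 17654056)) (b (l 17755880)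 (l 17788632))) (a (b (l 1) (l 17946344)) (l 1))) (a (a (b (l 17744920) (l 17832568)) (b (l 17841760) (l 17956016))) (a (b (l 18019880) (l 18134096)) (l 62850953991))))), by decide +kernel⟩

theorem s4_pm_101 : ∃ t, chk3 f_pm_101 t 2 2 1 = true := ex3_b k0_pm_101 k1_pm_101

theorem s5_pm_101 : ∃ t, chk3 f_pm_101 t 1 2 1 = true := ex3_a s4_pm_101 k2_pm_101

theorem s6_pm_101 : ∃ t, chk3 f_pm_101 t 1 1 1 = true := ex3_b s5_pm_101 k3_pm_101

theorem c_pm_101 : CertN 536870912 536870912 0 536870912 201326592 134217728 3 true true false .npn 1 0 1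
    ndN0q1 ndN5q0 pcN1 Cut.none Ext.none :=
  certN1 (fam := true) (s1 := true) (s2 := false) (a := 1) (b := 0) (c := 1) (cn := .npn) (n1 := ndN0q1) (n2 := ndN5q0) (pc := pcN1) (cut := Cut.none) (xt := Ext.none) (P1 := 536870912) (W1 := 536870912) (P2 := 0) (W2 := 536870912) (P3 := 201326592) (W3 := 134217728) (N0 := 3)
    rfl (fun _ => rfl) s6_pm_101

noncomputable def f_pm_102 : ℕ → ℕ → ℕ → ℕ → Bool := onCell 536870912 536870912 1073741824 536870912 201326592 134217728
    (rowN 3 1 true true false .npp 1 0 2 (qsf 536870912 536870912 0 536870912 2) ndN0q1 ndN5q0 pcN2 Cut.none Ext.none)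

def k0_pm_102 : ∃ t, chk3 f_pm_102 t 1 1 1 = true :=
  ⟨(a (b (a (b (a (b (c (l 17878224) (a (l 17402384) (l 17484720))) (b (c (l 17968320) (l 17508048)) (l 2))) (b (c (l 18014480) (l 17597920)) (b (l 17870160) (b (l 17902760) (l 17923688))))) (b (b (b (a (l 2) (l 17945424)) (l 2)) (l 2)) (l 2))) (b (a (b (c (l 18140224) (l 17734064)) (b (l 17984976) (b (l 18009344) (l 18025128)))) (b (c (l 18266008) (l 17862072)) (b (l 18094088) (b (l 18109768) (l 18120040))))) (b (b (b (a (l 18041656) (l 18131000)) (a (l 18057312) (l 18141224))) (a (l 18075360) (l 18153048))) (a (l 212704729367) (l 18181864))))) (a (l 2) (b (b (a (l 2) (l 18220592)) (l 2)) (l 2)))) (b (a (b (a (b (l 18188448) (b (l 18196712) (b (l 18203056) (l 18207984)))) (b (l 18307000) (b (l 18292824) (l 18289096)))) (b (b (a (b (l 18213112) (l 18218144)) (l 18287976)) (l 18264928)) (a (l 18240304) (l 18286712)))) (a (b (b (l 18420056) (b (l 18381880) (l 18361920))) (l 18330136)) (b (l 18506312) (l 18364928)))) (b (a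 (b (a (l 18262520) (l 18285456)) (a (l 18285688) (l 18281696))) (b (l 18286040) (l 18244360))) (a (a (l 2) (l 252970365783)) (b (l 18195512) (l 18137080)))))), by decide +kernel⟩

theorem c_pm_102 : CertN 536870912 536870912 0 536870912 201326592 134217728 3 true true false .npp 1 0 2
    ndN0q1 ndN5q0 pcN2 Cut.none Ext.none :=
  certN1 (fam := true) (s1 := true) (s2 := false) (a := 1) (b := 0) (c := 2) (cn := .npp) (n1 := ndN0q1) (n2 := ndN5q0) (pc := pcN2) (cut := Cut.none) (xt := Ext.none) (P1 := 536870912) (W1 := 536870912) (P2 := 0) (W2 := 536870912) (P3 := 201326592) (W3 := 134217728) (N0 := 3)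
    rfl (fun _ => rfl) k0_pm_102

noncomputable def f_pm_112 : ℕ → ℕ → ℕ → ℕ → Bool := onCell 536870912 536870912 1073741824 536870912 201326592 134217728
    (rowN 3 1 true true false .dn 1 1 2 (qsf 536870912 536870912 536870912 536870912 2) ndN0q1 ndN5q1 pcN2 Cut.none Ext.none)

def k0_pm_112 : ∃ t, chk3 f_pm_112 t 1 1 1 = true :=
  ⟨(a (b (a (b (a (b (c (l 17875184) (l 17444264)) (b (l 17695856) (b (l 17777736) (c (l 18040872) (l 17562032))))) (b (l 140158562039) (b (l 17868216) (b (l 17901176) (l 17921928))))) (b (b (b (c (l 18122072) (a (l 17584576) (l 17717536))) (c (a (l 18098424) (l 18188296)) (a (b (l 17600304) (l 17610872)) (l 17736280)))) (c (l 18174384) (a (l 17633064) (l 17758368)))) (a (b (l 17929760) (l 17975448)) (b (l 18023880) (l 18059688))))) (a (b (b (l 1) (b (l 1) (b (l 1) (l 18023424)))) (b (b (b (l 18039840) (l 18055360)) (l 18072200)) (l 18110536))) (b (l 1) (b (b (l 1) (l 18150160)) (l 18175760))))) (b (a (b (c (l 18322952) (a (l 17781656) (l 17878856)))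 (a (c (l 18391032) (l 17870248)) (l 18176288))) (b (a (l 18164592) (l 18212472)) (a (l 18210840) (l 18244096)))) (b (a (a (b (l 18209200) (l 18268168)) (l 18255888)) (a (l 18268736) (l 18283896))) (a (a (l 18355576) (l 18344248)) (l 18328896))))) (b (a (b (l 1) (b (l 1) (l 177204432967))) (l 1)) (b (a (b (l 18272256) (l 18275904)) (l 18462744)) (a (b (l 18277056) (l 18270448)) (l 18405552))))), by decide +kernel⟩

theorem c_pm_112 : CertN 536870912 536870912 536870912 536870912 201326592 134217728 3 true true false .dn 1 1 2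
    ndN0q1 ndN5q1 pcN2 Cut.none Ext.none :=
  certN1 (fam := true) (s1 := true) (s2 := false) (a := 1) (b := 1) (c := 2) (cn := .dn) (n1 := ndN0q1) (n2 := ndN5q1) (pc := pcN2) (cut := Cut.none) (xt := Ext.none) (P1 := 536870912) (W1 := 536870912) (P2 := 536870912) (W2 := 536870912) (P3 := 201326592) (W3 := 134217728) (N0 := 3)
    rfl (fun _ => rfl) k0_pm_112

noncomputable def f_pm_113 : ℕ → ℕ → ℕ → ℕ → Bool := onCell 536870912 536870912 1610612736 536870912 201326592 134217728
    (rowN 3 1 true true false .nn 1 1 3 (qsf 536870912 536870912 536870912 536870912 3) ndN0q1 ndN5q1 pcN3 Cut.none Ext.none)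

def k0_pm_113 : ∃ t, chk3 f_pm_113 t 1 1 1 = true :=
  ⟨(b (a (b (a (a (c (l 18701512) (l 18276376)) (c (l 18510472) (l 18177824))) (a (c (l 18344944) (l 18092504)) (b (l 18097272) (l 18152792)))) (a (a (l 2) (l 258876502935)) (b (a (l 18343280) (l 18200160)) (a (l 18410000) (l 18240712))))) (b (a (b (c (l 18082584) (l 17927440)) (l 18040544)) (b (a (l 17988656) (l 17967824)) (a (l 17968936) (l 17899496)))) (a (b (l 18046912) (a (l 18100320) (l 17983592))) (a (b (l 17924224) (l 17873120)) (l 4))))) (b (a (a (l 2) (b (a (l 2) (l 18268904)) (l 2))) (a (b (l 172976098551) (l 18035352)) (l 4))) (a (l 2) (b (l 4) (l 4))))), by decide +kernel⟩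

theorem c_pm_113 : CertN 536870912 536870912 536870912 536870912 201326592 134217728 3 true true false .nn 1 1 3
    ndN0q1 ndN5q1 pcN3 Cut.none Ext.none :=
  certN1 (fam := true) (s1 := true) (s2 := false) (a := 1) (b := 1) (c := 3) (cn := .nn) (n1 := ndN0q1) (n2 := ndN5q1) (pc := pcN3) (cut := Cut.none) (xt := Ext.none) (P1 := 536870912) (W1 := 536870912) (P2 := 536870912) (W2 := 536870912) (P3 := 201326592) (W3 := 134217728) (N0 := 3)
    rfl (fun _ => rfl) k0_pm_113

noncomputable def f_pm_123 : ℕ → ℕ → ℕ → ℕ → Bool := onCell 536870912 536870912 1610612736 536870912 201326592 134217728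
    (rowN 3 1 true true false .npn 1 2 3 (qsf 536870912 536870912 1073741824 536870912 3) ndN0q1 ndN5q2 pcN3 Cut.none Ext.none)

def k0_pm_123 : ∃ t, chk3 f_pm_123 t 1 1 1 = true :=
  ⟨(b (a (a (b (c (a (l 18563288) (l 18652968)) (a (l 18170760) (l 18335312))) (a (l 18127736) (l 18332456))) (b (a (c (l 18751704) (l 335044834279)) (l 1)) (b (a (l 18344784) (l 18447616)) (a (l 18167672) (l 18242216))))) (b (l 1) (a (b (l 1) (a (l 18339352) (l 1))) (l 1)))) (b (a (a (b (l 17943776) (a (l 17793952) (l 17809328))) (b (a (l 17994832) (l 18038376)) (a (l 17826168) (l 17847136)))) (a (b (c (l 18236200) (l 18014648)) (c (l 18013184) (l 17807552))) (l 4))) (a (a (b (l 17910920) (b (l 17549112) (b (l 17495672) (l 4)))) (b (l 17818888) (l 4))) (b (l 4) (l 4))))), by decide +kernel⟩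

theorem c_pm_123 : CertN 536870912 536870912 1073741824 536870912 201326592 134217728 3 true true false .npn 1 2 3
    ndN0q1 ndN5q2 pcN3 Cut.none Ext.none :=
  certN1 (fam := true) (s1 := true) (s2 := false) (a := 1) (b := 2) (c := 3) (cn := .npn) (n1 := ndN0q1) (n2 := ndN5q2) (pc := pcN3) (cut := Cut.none) (xt := Ext.none) (P1 := 536870912) (W1 := 536870912) (P2 := 1073741824) (W2 := 536870912) (P3 := 201326592) (W3 := 134217728) (N0 := 3)
    rfl (fun _ => rfl) k0_pm_123

noncomputable def f_pm_133 : ℕ → ℕ → ℕ → ℕ → Bool := onCell 536870912 536870912 0 1230186008 201326592 134217728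
    (rowN 3 0 true true false .dn 1 3 3 (qsf 536870912 536870912 0 1230186008 3) ndN0q1 ndN5q3 pcN3 Cut.none Ext.none)

def k0_pm_133 : ∃ t, chk3 f_pm_133 t 1 1 1 = true :=
  ⟨(b (l 2) (b (l 2) (a (b (l 2) (l 4)) (l 2)))), by decide +kernel⟩

theorem c_pm_133 : CertN 536870912 536870912 0 1230186008 201326592 134217728 3 true true false .dn 1 3 3
    ndN0q1 ndN5q3 pcN3 Cut.none Ext.none :=
  certN0 (fam := true) (s1 := true) (s2 := false) (a := 1) (b := 3) (c := 3) (cn := .dn) (n1 := ndN0q1) (n2 := ndN5q3) (pc := pcN3) (cut := Cut.none) (xt := Ext.none) (P1 := 536870912) (W1 := 536870912) (P2 := 0) (W2 := 1230186008) (P3 := 201326592) (W3 := 134217728) (N0 := 3)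
    rfl k0_pm_133

noncomputable def f_pm_202 : ℕ → ℕ → ℕ → ℕ → Bool := onCell 0 536870912 0 536870912 201326592 134217728
    (rowN 3 0 true true false .pp 2 0 2 (qsf 0 536870912 0 536870912 2) ndN0q2 ndN5q0 pcN2 Cut.none Ext.none)

def k0_pm_202 : ∃ t, chk3 f_pm_202 t 1 1 1 = true :=
  ⟨(a (l 4) (a (b (b (b (a (l 18415848) (l 18496984)) (l 18327024)) (b (l 18195064) (l 18075680))) (l 4)) (b (b (b (c (l 18768120) (l 18351552)) (a (l 18435088) (l 18486000))) (b (l 18363976) (l 18267544))) (b (b (l 18176784) (a (l 18029680) (l 18141544))) (a (l 4) (b (l 18054968) (l 17965880))))))), by decide +kernel⟩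

theorem c_pm_202 : CertN 0 536870912 0 536870912 201326592 134217728 3 true true false .pp 2 0 2
    ndN0q2 ndN5q0 pcN2 Cut.none Ext.none :=
  certN0 (fam := true) (s1 := true) (s2 := false) (a := 2) (b := 0) (c := 2) (cn := .pp) (n1 := ndN0q2) (n2 := ndN5q0) (pc := pcN2) (cut := Cut.none) (xt := Ext.none) (P1 := 0) (W1 := 536870912) (P2 := 0) (W2 := 536870912) (P3 := 201326592) (W3 := 134217728) (N0 := 3)
    rfl k0_pm_202

noncomputable def f_pm_203 : ℕ → ℕ → ℕ → ℕ → Bool := onCell 0 536870912 1610612736 536870912 201326592 134217728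
    (rowN 3 1 true true false .up 2 0 3 (qsf 0 536870912 0 536870912 3) ndN0q2 ndN5q0 pcN3 Cut.none Ext.none)

def k0_pm_203 : ∃ t, chk3 f_pm_203 t 1 1 1 = true :=
  ⟨(a (l 4) (b (l 4) (l 2))), by decide +kernel⟩

theorem c_pm_203 : CertN 0 536870912 0 536870912 201326592 134217728 3 true true false .up 2 0 3
    ndN0q2 ndN5q0 pcN3 Cut.none Ext.none :=
  certN1 (fam := true) (s1 := true) (s2 := false) (a := 2) (b := 0) (c := 3) (cn := .up) (n1 := ndN0q2) (n2 := ndN5q0) (pc := pcN3) (cut := Cut.none) (xt := Ext.none) (P1 := 0) (W1 := 536870912) (P2 := 0) (W2 := 536870912) (P3 := 201326592) (W3 := 134217728) (N0 := 3)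
    rfl (fun _ => rfl) k0_pm_203

noncomputable def f_pm_213 : ℕ → ℕ → ℕ → ℕ → Bool := onCell 0 536870912 536870912 536870912 201326592 134217728
    (rowN 3 0 true true false .pnn 2 1 3 (qsf 0 536870912 536870912 536870912 3) ndN0q2 ndN5q1 pcN3 Cut.none Ext.none)

def k0_pm_213 : ∃ t, chk3 f_pm_213 t 1 1 1 = true :=
  ⟨(a (l 4) (b (l 4) (l 4))), by decide +kernel⟩

theorem c_pm_213 : CertN 0 536870912 536870912 536870912 201326592 134217728 3 true true false .pnn 2 1 3
    ndN0q2 ndN5q1 pcN3 Cut.none Ext.none :=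
  certN0 (fam := true) (s1 := true) (s2 := false) (a := 2) (b := 1) (c := 3) (cn := .pnn) (n1 := ndN0q2) (n2 := ndN5q1) (pc := pcN3) (cut := Cut.none) (xt := Ext.none) (P1 := 0) (W1 := 536870912) (P2 := 536870912) (W2 := 536870912) (P3 := 201326592) (W3 := 134217728) (N0 := 3)
    rfl k0_pm_213

noncomputable def f_mm_001 : ℕ → ℕ → ℕ → ℕ → Bool := onCell 0 536870912 0 536870912 201326592 134217728
    (rowN 3 0 true false false .up 0 0 1 (qsf 0 536870912 0 536870912 1) ndN0q0 ndN5q0 pcN1 Cut.none Ext.none)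

def k0_mm_001 : ∃ t, chk3 f_mm_001 t 1 1 1 = true :=
  ⟨(l 4), by decide +kernel⟩

theorem c_mm_001 : CertN 0 536870912 0 536870912 201326592 134217728 3 true false false .up 0 0 1
    ndN0q0 ndN5q0 pcN1 Cut.none Ext.none :=
  certN0 (fam := true) (s1 := false) (s2 := false) (a := 0) (b := 0) (c := 1) (cn := .up) (n1 := ndN0q0) (n2 := ndN5q0) (pc := pcN1) (cut := Cut.none) (xt := Ext.none) (P1 := 0) (W1 := 536870912) (P2 := 0) (W2 := 536870912) (P3 := 201326592) (W3 := 134217728) (N0 := 3)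
    rfl k0_mm_001

noncomputable def f_mm_011 : ℕ → ℕ → ℕ → ℕ → Bool := onCell 0 536870912 536870912 536870912 201326592 134217728
    (rowN 3 0 true false false .pnn 0 1 1 (qsf 0 536870912 536870912 536870912 1) ndN0q0 ndN5q1 pcN1 Cut.none Ext.none)

def k0_mm_011 : ∃ t, chk3 f_mm_011 t 1 1 1 = true :=
  ⟨(l 4), by decide +kernel⟩

theorem c_mm_011 : CertN 0 536870912 536870912 536870912 201326592 134217728 3 true false false .pnn 0 1 1
    ndN0q0 ndN5q1 pcN1 Cut.none Ext.none :=
  certN0 (fam := true) (s1 := false) (s2 := false) (a := 0) (b := 1) (c := 1) (cn := .pnn) (n1 := ndN0q0) (n2 := ndN5q1) (pc := pcN1) (cut := Cut.none) (xt := Ext.none) (P1 := 0) (W1 := 536870912) (P2 := 536870912) (W2 := 536870912) (P3 := 201326592) (W3 := 134217728) (N0 := 3)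
    rfl k0_mm_011

noncomputable def f_mm_012 : ℕ → ℕ → ℕ → ℕ → Bool := onCell 0 536870912 536870912 536870912 201326592 134217728
    (rowN 3 0 true false false .pnp 0 1 2 (qsf 0 536870912 536870912 536870912 2) ndN0q0 ndN5q1 pcN2 Cut.none Ext.none)

def k0_mm_012 : ∃ t, chk3 f_mm_012 t 1 1 1 = true :=
  ⟨(l 4), by decide +kernel⟩

theorem c_mm_012 : CertN 0 536870912 536870912 536870912 201326592 134217728 3 true false false .pnp 0 1 2
    ndN0q0 ndN5q1 pcN2 Cut.none Ext.none :=
  certN0 (fam := true) (s1 := false) (s2 := false) (a := 0) (b := 1) (c := 2) (cn := .pnp) (n1 := ndN0q0) (n2 := ndN5q1) (pc := pcN2) (cut := Cut.none) (xt := Ext.none) (P1 := 0) (W1 := 536870912) (P2 := 536870912) (W2 := 536870912) (P3 := 201326592) (W3 := 134217728) (N0 := 3)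
    rfl k0_mm_012

noncomputable def f_mm_022 : ℕ → ℕ → ℕ → ℕ → Bool := onCell 0 536870912 1073741824 536870912 201326592 134217728
    (rowN 3 0 true false false .pp 0 2 2 (qsf 0 536870912 1073741824 536870912 2) ndN0q0 ndN5q2 pcN2 Cut.none Ext.none)

def k0_mm_022 : ∃ t, chk3 f_mm_022 t 1 1 1 = true :=
  ⟨(l 4), by decide +kernel⟩

theorem c_mm_022 : CertN 0 536870912 1073741824 536870912 201326592 134217728 3 true false false .pp 0 2 2
    ndN0q0 ndN5q2 pcN2 Cut.none Ext.none :=
  certN0 (fam := true) (s1 := false) (s2 := false) (a := 0) (b := 2) (c := 2) (cn := .pp) (n1 := ndN0q0) (n2 := ndN5q2) (pc := pcN2) (cut := Cut.none) (xt := Ext.none) (P1 := 0) (W1 := 536870912) (P2 := 1073741824) (W2 := 536870912) (P3 := 201326592) (W3 := 134217728) (N0 := 3)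
    rfl k0_mm_022

noncomputable def f_mm_023 : ℕ → ℕ → ℕ → ℕ → Bool := onCell 0 536870912 1073741824 536870912 201326592 134217728
    (rowN 3 0 true false false .up 0 2 3 (qsf 0 536870912 1073741824 536870912 3) ndN0q0 ndN5q2 pcN3 Cut.none Ext.none)

def k0_mm_023 : ∃ t, chk3 f_mm_023 t 1 1 1 = true :=
  ⟨(l 4), by decide +kernel⟩

theorem c_mm_023 : CertN 0 536870912 1073741824 536870912 201326592 134217728 3 true false false .up 0 2 3
    ndN0q0 ndN5q2 pcN3 Cut.none Ext.none :=
  certN0 (fam := true) (s1 := false) (s2 := false) (a := 0) (b := 2) (c := 3) (cn := .up) (n1 := ndN0q0) (n2 := ndN5q2) (pc := pcN3) (cut := Cut.none) (xt := Ext.none) (P1 := 0) (W1 := 536870912) (P2 := 1073741824) (W2 := 536870912) (P3 := 201326592) (W3 := 134217728) (N0 := 3)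
    rfl k0_mm_023

noncomputable def f_mm_033 : ℕ → ℕ → ℕ → ℕ → Bool := onCell 0 536870912 0 1230186008 201326592 134217728
    (rowN 3 0 true false false .pnn 0 3 3 (qsf 0 536870912 0 1230186008 3) ndN0q0 ndN5q3 pcN3 Cut.none Ext.none)

def k0_mm_033 : ∃ t, chk3 f_mm_033 t 1 1 1 = true :=
  ⟨(l 4), by decide +kernel⟩

theorem c_mm_033 : CertN 0 536870912 0 1230186008 201326592 134217728 3 true false false .pnn 0 3 3
    ndN0q0 ndN5q3 pcN3 Cut.none Ext.none :=
  certN0 (fam := true) (s1 := false) (s2 := false) (a := 0) (b := 3) (c := 3) (cn := .pnn) (n1 := ndN0q0) (n2 := ndN5q3) (pc := pcN3) (cut := Cut.none) (xt := Ext.none) (P1 := 0) (W1 := 536870912) (P2 := 0) (W2 := 1230186008) (P3 := 201326592) (W3 := 134217728) (N0 := 3)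
    rfl k0_mm_033

noncomputable def f_mm_101 : ℕ → ℕ → ℕ → ℕ → Bool := onCell 536870912 536870912 0 536870912 201326592 134217728
    (rowN 3 0 true false false .npn 1 0 1 (qsf 536870912 536870912 0 536870912 1) ndN0q1 ndN5q0 pcN1 Cut.none Ext.none)

def k0_mm_101 : ∃ t, chk3 f_mm_101 t 1 1 1 = true :=
  ⟨(l 4), by decide +kernel⟩

theorem c_mm_101 : CertN 536870912 536870912 0 536870912 201326592 134217728 3 true false false .npn 1 0 1
    ndN0q1 ndN5q0 pcN1 Cut.none Ext.none :=
  certN0 (fam := true) (s1 := false) (s2 := false) (a := 1) (b := 0) (c := 1) (cn := .npn) (n1 := ndN0q1) (n2 := ndN5q0) (pc := pcN1) (cut := Cut.none) (xt := Ext.none) (P1 := 536870912) (W1 := 536870912) (P2 := 0) (W2 := 536870912) (P3 := 201326592) (W3 := 134217728) (N0 := 3)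
    rfl k0_mm_101

noncomputable def f_mm_102 : ℕ → ℕ → ℕ → ℕ → Bool := onCell 536870912 536870912 0 536870912 201326592 134217728
    (rowN 3 0 true false false .npp 1 0 2 (qsf 536870912 536870912 0 536870912 2) ndN0q1 ndN5q0 pcN2 Cut.none Ext.none)

def k0_mm_102 : ∃ t, chk3 f_mm_102 t 1 1 1 = true :=
  ⟨(l 4), by decide +kernel⟩

theorem c_mm_102 : CertN 536870912 536870912 0 536870912 201326592 134217728 3 true false false .npp 1 0 2
    ndN0q1 ndN5q0 pcN2 Cut.none Ext.none :=
  certN0 (fam := true) (s1 := false) (s2 := false) (a := 1) (b := 0) (c := 2) (cn := .npp) (n1 := ndN0q1) (n2 := ndN5q0) (pc := pcN2) (cut := Cut.none) (xt := Ext.none) (P1 := 536870912) (W1 := 536870912) (P2 := 0) (W2 := 536870912) (P3 := 201326592) (W3 := 134217728) (N0 := 3)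
    rfl k0_mm_102

noncomputable def f_mm_112 : ℕ → ℕ → ℕ → ℕ → Bool := onCell 536870912 536870912 536870912 536870912 201326592 134217728
    (rowN 3 0 true false false .dn 1 1 2 (qsf 536870912 536870912 536870912 536870912 2) ndN0q1 ndN5q1 pcN2 Cut.none Ext.none)

def k0_mm_112 : ∃ t, chk3 f_mm_112 t 1 1 1 = true :=
  ⟨(l 4), by decide +kernel⟩

theorem c_mm_112 : CertN 536870912 536870912 536870912 536870912 201326592 134217728 3 true false false .dn 1 1 2
    ndN0q1 ndN5q1 pcN2 Cut.none Ext.none :=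
  certN0 (fam := true) (s1 := false) (s2 := false) (a := 1) (b := 1) (c := 2) (cn := .dn) (n1 := ndN0q1) (n2 := ndN5q1) (pc := pcN2) (cut := Cut.none) (xt := Ext.none) (P1 := 536870912) (W1 := 536870912) (P2 := 536870912) (W2 := 536870912) (P3 := 201326592) (W3 := 134217728) (N0 := 3)
    rfl k0_mm_112

noncomputable def f_mm_113 : ℕ → ℕ → ℕ → ℕ → Bool := onCell 536870912 536870912 536870912 536870912 201326592 134217728
    (rowN 3 0 true false false .nn 1 1 3 (qsf 536870912 536870912 536870912 536870912 3) ndN0q1 ndN5q1 pcN3 Cut.none Ext.none)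

def k0_mm_113 : ∃ t, chk3 f_mm_113 t 1 1 1 = true :=
  ⟨(l 4), by decide +kernel⟩

theorem c_mm_113 : CertN 536870912 536870912 536870912 536870912 201326592 134217728 3 true false false .nn 1 1 3
    ndN0q1 ndN5q1 pcN3 Cut.none Ext.none :=
  certN0 (fam := true) (s1 := false) (s2 := false) (a := 1) (b := 1) (c := 3) (cn := .nn) (n1 := ndN0q1) (n2 := ndN5q1) (pc := pcN3) (cut := Cut.none) (xt := Ext.none) (P1 := 536870912) (W1 := 536870912) (P2 := 536870912) (W2 := 536870912) (P3 := 201326592) (W3 := 134217728) (N0 := 3)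
    rfl k0_mm_113

noncomputable def f_mm_123 : ℕ → ℕ → ℕ → ℕ → Bool := onCell 536870912 536870912 1073741824 536870912 201326592 134217728
    (rowN 3 0 true false false .npn 1 2 3 (qsf 536870912 536870912 1073741824 536870912 3) ndN0q1 ndN5q2 pcN3 Cut.none Ext.none)

def k0_mm_123 : ∃ t, chk3 f_mm_123 t 1 1 1 = true :=
  ⟨(l 4), by decide +kernel⟩

theorem c_mm_123 : CertN 536870912 536870912 1073741824 536870912 201326592 134217728 3 true false false .npn 1 2 3
    ndN0q1 ndN5q2 pcN3 Cut.none Ext.none :=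
  certN0 (fam := true) (s1 := false) (s2 := false) (a := 1) (b := 2) (c := 3) (cn := .npn) (n1 := ndN0q1) (n2 := ndN5q2) (pc := pcN3) (cut := Cut.none) (xt := Ext.none) (P1 := 536870912) (W1 := 536870912) (P2 := 1073741824) (W2 := 536870912) (P3 := 201326592) (W3 := 134217728) (N0 := 3)
    rfl k0_mm_123

noncomputable def f_mm_133 : ℕ → ℕ → ℕ → ℕ → Bool := onCell 536870912 536870912 0 1230186008 201326592 134217728
    (rowN 3 0 true false false .dn 1 3 3 (qsf 536870912 536870912 0 1230186008 3) ndN0q1 ndN5q3 pcN3 Cut.none Ext.none)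

def k0_mm_133 : ∃ t, chk3 f_mm_133 t 1 1 1 = true :=
  ⟨(l 4), by decide +kernel⟩

theorem c_mm_133 : CertN 536870912 536870912 0 1230186008 201326592 134217728 3 true false false .dn 1 3 3
    ndN0q1 ndN5q3 pcN3 Cut.none Ext.none :=
  certN0 (fam := true) (s1 := false) (s2 := false) (a := 1) (b := 3) (c := 3) (cn := .dn) (n1 := ndN0q1) (n2 := ndN5q3) (pc := pcN3) (cut := Cut.none) (xt := Ext.none) (P1 := 536870912) (W1 := 536870912) (P2 := 0) (W2 := 1230186008) (P3 := 201326592) (W3 := 134217728) (N0 := 3)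
    rfl k0_mm_133

noncomputable def f_mm_202 : ℕ → ℕ → ℕ → ℕ → Bool := onCell 0 536870912 0 536870912 201326592 134217728
    (rowN 3 0 true false false .pp 2 0 2 (qsf 0 536870912 0 536870912 2) ndN0q2 ndN5q0 pcN2 Cut.none Ext.none)

def k0_mm_202 : ∃ t, chk3 f_mm_202 t 1 1 1 = true :=
  ⟨(l 4), by decide +kernel⟩

theorem c_mm_202 : CertN 0 536870912 0 536870912 201326592 134217728 3 true false false .pp 2 0 2
    ndN0q2 ndN5q0 pcN2 Cut.none Ext.none :=
  certN0 (fam := true) (s1 := false) (s2 := false) (a := 2) (b := 0) (c := 2) (cn := .pp) (n1 := ndN0q2) (n2 := ndN5q0) (pc := pcN2) (cut := Cut.none) (xt := Ext.none) (P1 := 0) (W1 := 536870912) (P2 := 0) (W2 := 536870912) (P3 := 201326592) (W3 := 134217728) (N0 := 3)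
    rfl k0_mm_202

noncomputable def f_mm_203 : ℕ → ℕ → ℕ → ℕ → Bool := onCell 0 536870912 0 536870912 201326592 134217728
    (rowN 3 0 true false false .up 2 0 3 (qsf 0 536870912 0 536870912 3) ndN0q2 ndN5q0 pcN3 Cut.none Ext.none)

def k0_mm_203 : ∃ t, chk3 f_mm_203 t 1 1 1 = true :=
  ⟨(l 4), by decide +kernel⟩

theorem c_mm_203 : CertN 0 536870912 0 536870912 201326592 134217728 3 true false false .up 2 0 3
    ndN0q2 ndN5q0 pcN3 Cut.none Ext.none :=
  certN0 (fam := true) (s1 := false) (s2 := false) (a := 2) (b := 0) (c := 3) (cn := .up) (n1 := ndN0q2) (n2 := ndN5q0) (pc := pcN3) (cut := Cut.none) (xt := Ext.none) (P1 := 0) (W1 := 536870912) (P2 := 0) (W2 := 536870912) (P3 := 201326592) (W3 := 134217728) (N0 := 3)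
    rfl k0_mm_203

noncomputable def f_mm_213 : ℕ → ℕ → ℕ → ℕ → Bool := onCell 0 536870912 536870912 536870912 201326592 134217728
    (rowN 3 0 true false false .pnn 2 1 3 (qsf 0 536870912 536870912 536870912 3) ndN0q2 ndN5q1 pcN3 Cut.none Ext.none)

def k0_mm_213 : ∃ t, chk3 f_mm_213 t 1 1 1 = true :=
  ⟨(l 4), by decide +kernel⟩

theorem c_mm_213 : CertN 0 536870912 536870912 536870912 201326592 134217728 3 true false false .pnn 2 1 3
    ndN0q2 ndN5q1 pcN3 Cut.none Ext.none :=
  certN0 (fam := true) (s1 := false) (s2 := false) (a := 2) (b := 1) (c := 3) (cn := .pnn) (n1 := ndN0q2) (n2 := ndN5q1) (pc := pcN3) (cut := Cut.none) (xt := Ext.none) (P1 := 0) (W1 := 536870912) (P2 := 536870912) (W2 := 536870912) (P3 := 201326592) (W3 := 134217728) (N0 := 3)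
    rfl k0_mm_213

end Pool.Agent.Strip051.G.I3_16_5_16.Tab.C.NA05

namespace Pool.Agent.Strip051.G.I3_16_5_16.Tab.C.NA11

open Pool.Agent.Strip051.PB Pool.Agent.Strip051.PB.T
open Pool.Agent.Strip051.G.I3_16_5_16.Tab

noncomputable def f_pp_001 : ℕ → ℕ → ℕ → ℕ → Bool := onCell 0 536870912 0 536870912 201326592 134217728
    (rowN 3 0 true true true .up 0 0 1 (qsf 0 536870912 0 536870912 1) ndN1q0 ndN1q0 pcN1 Cut.none Ext.none)

def k0_pp_001 : ∃ t, chk3 f_pp_001 t 1 1 1 = true :=
  ⟨(l 4), by decide +kernel⟩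

theorem c_pp_001 : CertN 0 536870912 0 536870912 201326592 134217728 3 true true true .up 0 0 1
    ndN1q0 ndN1q0 pcN1 Cut.none Ext.none :=
  certN0 (fam := true) (s1 := true) (s2 := true) (a := 0) (b := 0) (c := 1) (cn := .up) (n1 := ndN1q0) (n2 := ndN1q0) (pc := pcN1) (cut := Cut.none) (xt := Ext.none) (P1 := 0) (W1 := 536870912) (P2 := 0) (W2 := 536870912) (P3 := 201326592) (W3 := 134217728) (N0 := 3)
    rfl k0_pp_001

noncomputable def f_pp_011 : ℕ → ℕ → ℕ → ℕ → Bool := onCell 0 536870912 536870912 536870912 201326592 134217728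
    (rowN 3 0 true true true .pnn 0 1 1 (qsf 0 536870912 536870912 536870912 1) ndN1q0 ndN1q1 pcN1 Cut.none Ext.none)

def k0_pp_011 : ∃ t, chk3 f_pp_011 t 1 1 1 = true :=
  ⟨(l 4), by decide +kernel⟩

theorem c_pp_011 : CertN 0 536870912 536870912 536870912 201326592 134217728 3 true true true .pnn 0 1 1
    ndN1q0 ndN1q1 pcN1 Cut.none Ext.none :=
  certN0 (fam := true) (s1 := true) (s2 := true) (a := 0) (b := 1) (c := 1) (cn := .pnn) (n1 := ndN1q0) (n2 := ndN1q1) (pc := pcN1) (cut := Cut.none) (xt := Ext.none) (P1 := 0) (W1 := 536870912) (P2 := 536870912) (W2 := 536870912) (P3 := 201326592) (W3 := 134217728) (N0 := 3)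
    rfl k0_pp_011

noncomputable def f_pp_012 : ℕ → ℕ → ℕ → ℕ → Bool := onCell 0 536870912 536870912 536870912 201326592 134217728
    (rowN 3 0 true true true .pnp 0 1 2 (qsf 0 536870912 536870912 536870912 2) ndN1q0 ndN1q1 pcN2 Cut.none Ext.none)

def k0_pp_012 : ∃ t, chk3 f_pp_012 t 1 1 1 = true :=
  ⟨(l 4), by decide +kernel⟩

theorem c_pp_012 : CertN 0 536870912 536870912 536870912 201326592 134217728 3 true true true .pnp 0 1 2
    ndN1q0 ndN1q1 pcN2 Cut.none Ext.none :=
  certN0 (fam := true) (s1 := true) (s2 := true) (a := 0) (b := 1) (c := 2) (cn := .pnp) (n1 := ndN1q0) (n2 := ndN1q1) (pc := pcN2) (cut := Cut.none) (xt := Ext.none) (P1 := 0) (W1 := 536870912) (P2 := 536870912) (W2 := 536870912) (P3 := 201326592) (W3 := 134217728) (N0 := 3)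
    rfl k0_pp_012

noncomputable def cut_pp_022_a : Cut := Cut.of [[⟨0, 0, 0, 67108864⟩, ⟨1, 1, 0, 67108864⟩, ⟨2, 1, 0, 67108864⟩]]

noncomputable def f_pp_022_a : ℕ → ℕ → ℕ → ℕ → Bool := onCell 0 536870912 0 536870912 201326592 134217728
    (rowN 3 0 true true true .pp 0 2 2 (qsf 0 536870912 0 536870912 2) ndN1q0 ndN1q2a pcN2 cut_pp_022_a Ext.none)

def k0_pp_022_a : ∃ t, chk3 f_pp_022_a t 1 1 1 = true :=
  ⟨(a (b (a (a (b (a (c (a (b (l 16504600) (l 16544888)) (l 16557000)) (b (l 16542336) (a (l 16518504) (l 16521136)))) (b (l 16546568) (l 16570680))) (a (a (b (c (a (l 16568112) (l 16548392)) (l 16562088)) (c (a (b (l 16566824) (l 16581136)) (l 16575896)) (a (l 16587112) (l 16568576)))) (c (b (l 16550752) (l 16579056)) (b (l 16545296) (l 16572496)))) (a (b (l 16574104) (l 16623648)) (a (l 16678384) (l 16684720))))) (b (a (c (l 16622400) (l 16526904)) (l 16611808)) (a (b (c (l 16584920) (l 16578232)) (a (l 16594024) (l 4))) (l 4)))) (a (b (a (l 16777024) (l 4)) (l 4)) (l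 4))) (a (b (a (b (a (a (c (a (c (b (l 16598064) (l 16614352)) (l 16644280)) (l 16627376)) (a (b (l 16587568) (l 16603176)) (l 16619112))) (c (l 16651800) (l 16644320))) (a (b (l 16626240) (l 16667552)) (c (l 16664880) (l 16654936)))) (a (a (a (b (c (b (l 16625456) (l 16645288)) (l 16642232)) (c (c (a (l 16651072) (l 16651936)) (l 16668496)) (a (l 16661656) (l 16642032)))) (c (a (l 16683296) (l 16684352)) (a (l 16675360) (l 16676760)))) (a (c (l 16686456) (l 16679240)) (c (l 16693208) (l 16685776)))) (a (b (l 16693040) (l 4)) (l 4)))) (l 4)) (a (a (a (b (b (a (c (a (c (b (l 16666536) (l 16677696)) (l 16689304)) (l 16692064)) (a (c (l 16685544) (l 16681784)) (l 16684984))) (c (l 16703984) (l 16687032))) (b (a (a (l 6) (c (l 16689640) (l 16683848))) (c (l 16712984) (l 16686696))) (a (l 6) (c (l 16728728) (l 16724152))))) (l 6)) (b (b (a (a (l 16714720) (l 16719976)) (l 4)) (l 4)) (l 4))) (l 4)) (l 4))) (l 4))) (l 4)), by decide +kernel⟩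

theorem c_pp_022_a : CertN 0 536870912 0 536870912 201326592 134217728 3 true true true .pp 0 2 2
    ndN1q0 ndN1q2a pcN2 cut_pp_022_a Ext.none :=
  certN0 (fam := true) (s1 := true) (s2 := true) (a := 0) (b := 2) (c := 2) (cn := .pp) (n1 := ndN1q0) (n2 := ndN1q2a) (pc := pcN2) (cut := cut_pp_022_a) (xt := Ext.none) (P1 := 0) (W1 := 536870912) (P2 := 0) (W2 := 536870912) (P3 := 201326592) (W3 := 134217728) (N0 := 3)
    rfl k0_pp_022_a

noncomputable def cut_pp_022_b : Cut := Cut.of [[⟨0, 0, 0, 67108864⟩, ⟨1, 1, 0, 67108864⟩, ⟨2, 1, 0, 67108864⟩]]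

noncomputable def f_pp_022_b : ℕ → ℕ → ℕ → ℕ → Bool := onCell 0 536870912 1239849684 370763052 201326592 134217728
    (rowN 3 0 true true true .pp 0 2 2 (qsf 0 536870912 1239849684 370763052 2) ndN1q0 ndN1q2b pcN2 cut_pp_022_b Ext.none)

def k0_pp_022_b : ∃ t, chk3 f_pp_022_b t 1 1 1 = true :=
  ⟨(a (b (a (b (a (c (a (a (b (b (l 16499880) (l 16445712)) (b (l 16415552) (l 16699968))) (b (l 16503880) (l 16750752))) (b (l 16509384) (l 16965152))) (a (a (b (b (l 16474752) (l 16440384)) (l 16414472)) (b (l 16458224) (l 16399856))) (b (l 16483096) (l 16413384)))) (b (a (l 16564688) (l 16744288)) (a (c (l 17129080) (l 16547464)) (l 16983536)))) (a (a (b (c (a (l 16835008) (l 17194112)) (l 16391816)) (c (l 17314152) (a (l 16690312) (l 16820048)))) (b (c (l 17300608) (l 16637008)) (c (l 17545696) (l 16965928)))) (a (b (c (l 17374232) (l 16851528)) (l 17327368)) (l 4)))) (b (a (b (a (l 16877448) (l 4)) (l 4)) (l 4)) (l 4))) (a (a (b (a (b (c (l 17715432) (l 17092712)) (c (l 17873328)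 (l 17335096))) (b (c (l 17720320) (l 17213664)) (l 4))) (b (a (c (l 17972832) (l 17505400)) (l 4)) (l 4))) (l 4)) (l 4))) (l 4)), by decide +kernel⟩

theorem c_pp_022_b : CertN 0 536870912 1239849684 370763052 201326592 134217728 3 true true true .pp 0 2 2
    ndN1q0 ndN1q2b pcN2 cut_pp_022_b Ext.none :=
  certN0 (fam := true) (s1 := true) (s2 := true) (a := 0) (b := 2) (c := 2) (cn := .pp) (n1 := ndN1q0) (n2 := ndN1q2b) (pc := pcN2) (cut := cut_pp_022_b) (xt := Ext.none) (P1 := 0) (W1 := 536870912) (P2 := 1239849684) (W2 := 370763052) (P3 := 201326592) (W3 := 134217728) (N0 := 3)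
    rfl k0_pp_022_b

noncomputable def f_pp_023_a : ℕ → ℕ → ℕ → ℕ → Bool := onCell 1610612736 536870912 0 536870912 201326592 134217728
    (rowN 3 2 true true true .up 0 2 3 (qsf 0 536870912 0 536870912 3) ndN1q0 ndN1q2a pcN3 Cut.none Ext.none)

def k0_pp_023_a : ∃ t, chk3 f_pp_023_a t 1 1 1 = true :=
  ⟨(l 4), by decide +kernel⟩

theorem c_pp_023_a : CertN 0 536870912 0 536870912 201326592 134217728 3 true true true .up 0 2 3
    ndN1q0 ndN1q2a pcN3 Cut.none Ext.none :=
  certN2 (fam := true) (s1 := true) (s2 := true) (a := 0) (b := 2) (c := 3) (cn := .up) (n1 := ndN1q0) (n2 := ndN1q2a) (pc := pcN3) (cut := Cut.none) (xt := Ext.none) (P1 := 0) (W1 := 536870912) (P2 := 0) (W2 := 536870912) (P3 := 201326592) (W3 := 134217728) (N0 := 3)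
    rfl (fun _ => rfl) k0_pp_023_a

noncomputable def f_pp_023_b : ℕ → ℕ → ℕ → ℕ → Bool := onCell 1610612736 536870912 1239849684 370763052 201326592 134217728
    (rowN 3 2 true true true .up 0 2 3 (qsf 0 536870912 1239849684 370763052 3) ndN1q0 ndN1q2b pcN3 Cut.none Ext.none)

def k0_pp_023_b : ∃ t, chk3 f_pp_023_b t 1 1 1 = true :=
  ⟨(a (l 4) (l 4)), by decide +kernel⟩

theorem c_pp_023_b : CertN 0 536870912 1239849684 370763052 201326592 134217728 3 true true true .up 0 2 3
    ndN1q0 ndN1q2b pcN3 Cut.none Ext.none :=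
  certN2 (fam := true) (s1 := true) (s2 := true) (a := 0) (b := 2) (c := 3) (cn := .up) (n1 := ndN1q0) (n2 := ndN1q2b) (pc := pcN3) (cut := Cut.none) (xt := Ext.none) (P1 := 0) (W1 := 536870912) (P2 := 1239849684) (W2 := 370763052) (P3 := 201326592) (W3 := 134217728) (N0 := 3)
    rfl (fun _ => rfl) k0_pp_023_b

noncomputable def f_pp_033 : ℕ → ℕ → ℕ → ℕ → Bool := onCell 0 536870912 1610612736 536870912 201326592 134217728
    (rowN 3 0 true true true .pnn 0 3 3 (qsf 0 536870912 1610612736 536870912 3) ndN1q0 ndN1q3 pcN3 Cut.none Ext.none)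

def k0_pp_033 : ∃ t, chk3 f_pp_033 t 1 1 1 = true :=
  ⟨(a (b (l 4) (l 4)) (l 4)), by decide +kernel⟩

theorem c_pp_033 : CertN 0 536870912 1610612736 536870912 201326592 134217728 3 true true true .pnn 0 3 3
    ndN1q0 ndN1q3 pcN3 Cut.none Ext.none :=
  certN0 (fam := true) (s1 := true) (s2 := true) (a := 0) (b := 3) (c := 3) (cn := .pnn) (n1 := ndN1q0) (n2 := ndN1q3) (pc := pcN3) (cut := Cut.none) (xt := Ext.none) (P1 := 0) (W1 := 536870912) (P2 := 1610612736) (W2 := 536870912) (P3 := 201326592) (W3 := 134217728) (N0 := 3)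
    rfl k0_pp_033

noncomputable def f_pp_101 : ℕ → ℕ → ℕ → ℕ → Bool := onCell 536870912 536870912 0 536870912 201326592 134217728
    (rowN 3 0 true true true .npn 1 0 1 (qsf 536870912 536870912 0 536870912 1) ndN1q1 ndN1q0 pcN1 Cut.none Ext.none)

def k0_pp_101 : ∃ t, chk3 f_pp_101 t 1 1 1 = true :=
  ⟨(l 4), by decide +kernel⟩

theorem c_pp_101 : CertN 536870912 536870912 0 536870912 201326592 134217728 3 true true true .npn 1 0 1
    ndN1q1 ndN1q0 pcN1 Cut.none Ext.none :=
  certN0 (fam := true) (s1 := true) (s2 := true) (a := 1) (b := 0) (c := 1) (cn := .npn) (n1 := ndN1q1) (n2 := ndN1q0) (pc := pcN1) (cut := Cut.none) (xt := Ext.none) (P1 := 536870912) (W1 := 536870912) (P2 := 0) (W2 := 536870912) (P3 := 201326592) (W3 := 134217728) (N0 := 3)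
    rfl k0_pp_101

noncomputable def f_pp_102 : ℕ → ℕ → ℕ → ℕ → Bool := onCell 536870912 536870912 0 536870912 201326592 134217728
    (rowN 3 0 true true true .npp 1 0 2 (qsf 536870912 536870912 0 536870912 2) ndN1q1 ndN1q0 pcN2 Cut.none Ext.none)

def k0_pp_102 : ∃ t, chk3 f_pp_102 t 1 1 1 = true :=
  ⟨(l 4), by decide +kernel⟩

theorem c_pp_102 : CertN 536870912 536870912 0 536870912 201326592 134217728 3 true true true .npp 1 0 2
    ndN1q1 ndN1q0 pcN2 Cut.none Ext.none :=
  certN0 (fam := true) (s1 := true) (s2 := true) (a := 1) (b := 0) (c := 2) (cn := .npp) (n1 := ndN1q1) (n2 := ndN1q0) (pc := pcN2) (cut := Cut.none) (xt := Ext.none) (P1 := 536870912) (W1 := 536870912) (P2 := 0) (W2 := 536870912) (P3 := 201326592) (W3 := 134217728) (N0 := 3)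
    rfl k0_pp_102

noncomputable def f_pp_112 : ℕ → ℕ → ℕ → ℕ → Bool := onCell 536870912 536870912 536870912 536870912 201326592 134217728
    (rowN 3 0 true true true .dn 1 1 2 (qsf 536870912 536870912 536870912 536870912 2) ndN1q1 ndN1q1 pcN2 Cut.none Ext.none)

def k0_pp_112 : ∃ t, chk3 f_pp_112 t 1 1 1 = true :=
  ⟨(l 4), by decide +kernel⟩

theorem c_pp_112 : CertN 536870912 536870912 536870912 536870912 201326592 134217728 3 true true true .dn 1 1 2
    ndN1q1 ndN1q1 pcN2 Cut.none Ext.none :=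
  certN0 (fam := true) (s1 := true) (s2 := true) (a := 1) (b := 1) (c := 2) (cn := .dn) (n1 := ndN1q1) (n2 := ndN1q1) (pc := pcN2) (cut := Cut.none) (xt := Ext.none) (P1 := 536870912) (W1 := 536870912) (P2 := 536870912) (W2 := 536870912) (P3 := 201326592) (W3 := 134217728) (N0 := 3)
    rfl k0_pp_112

noncomputable def f_pp_113 : ℕ → ℕ → ℕ → ℕ → Bool := onCell 536870912 536870912 536870912 536870912 201326592 134217728
    (rowN 3 0 true true true .nn 1 1 3 (qsf 536870912 536870912 536870912 536870912 3) ndN1q1 ndN1q1 pcN3 Cut.none Ext.none)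

def k0_pp_113 : ∃ t, chk3 f_pp_113 t 1 1 1 = true :=
  ⟨(l 4), by decide +kernel⟩

theorem c_pp_113 : CertN 536870912 536870912 536870912 536870912 201326592 134217728 3 true true true .nn 1 1 3
    ndN1q1 ndN1q1 pcN3 Cut.none Ext.none :=
  certN0 (fam := true) (s1 := true) (s2 := true) (a := 1) (b := 1) (c := 3) (cn := .nn) (n1 := ndN1q1) (n2 := ndN1q1) (pc := pcN3) (cut := Cut.none) (xt := Ext.none) (P1 := 536870912) (W1 := 536870912) (P2 := 536870912) (W2 := 536870912) (P3 := 201326592) (W3 := 134217728) (N0 := 3)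
    rfl k0_pp_113

noncomputable def f_pp_123_a : ℕ → ℕ → ℕ → ℕ → Bool := onCell 536870912 536870912 0 536870912 201326592 134217728
    (rowN 3 0 true true true .npn 1 2 3 (qsf 536870912 536870912 0 536870912 3) ndN1q1 ndN1q2a pcN3 Cut.none Ext.none)

def k0_pp_123_a : ∃ t, chk3 f_pp_123_a t 1 1 1 = true :=
  ⟨(l 4), by decide +kernel⟩

theorem c_pp_123_a : CertN 536870912 536870912 0 536870912 201326592 134217728 3 true true true .npn 1 2 3
    ndN1q1 ndN1q2a pcN3 Cut.none Ext.none :=
  certN0 (fam := true) (s1 := true) (s2 := true) (a := 1) (b := 2) (c := 3) (cn := .npn) (n1 := ndN1q1) (n2 := ndN1q2a) (pc := pcN3) (cut := Cut.none) (xt := Ext.none) (P1 := 536870912) (W1 := 536870912) (P2 := 0) (W2 := 536870912) (P3 := 201326592) (W3 := 134217728) (N0 := 3)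
    rfl k0_pp_123_a

noncomputable def f_pp_123_b : ℕ → ℕ → ℕ → ℕ → Bool := onCell 536870912 536870912 1239849684 370763052 201326592 134217728
    (rowN 3 0 true true true .npn 1 2 3 (qsf 536870912 536870912 1239849684 370763052 3) ndN1q1 ndN1q2b pcN3 Cut.none Ext.none)

def k0_pp_123_b : ∃ t, chk3 f_pp_123_b t 1 1 1 = true :=
  ⟨(l 4), by decide +kernel⟩

theorem c_pp_123_b : CertN 536870912 536870912 1239849684 370763052 201326592 134217728 3 true true true .npn 1 2 3
    ndN1q1 ndN1q2b pcN3 Cut.none Ext.none :=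
  certN0 (fam := true) (s1 := true) (s2 := true) (a := 1) (b := 2) (c := 3) (cn := .npn) (n1 := ndN1q1) (n2 := ndN1q2b) (pc := pcN3) (cut := Cut.none) (xt := Ext.none) (P1 := 536870912) (W1 := 536870912) (P2 := 1239849684) (W2 := 370763052) (P3 := 201326592) (W3 := 134217728) (N0 := 3)
    rfl k0_pp_123_b

noncomputable def f_pp_133 : ℕ → ℕ → ℕ → ℕ → Bool := onCell 536870912 536870912 1610612736 536870912 201326592 134217728
    (rowN 3 0 true true true .dn 1 3 3 (qsf 536870912 536870912 1610612736 536870912 3) ndN1q1 ndN1q3 pcN3 Cut.none Ext.none)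

def k0_pp_133 : ∃ t, chk3 f_pp_133 t 1 1 1 = true :=
  ⟨(l 4), by decide +kernel⟩

theorem c_pp_133 : CertN 536870912 536870912 1610612736 536870912 201326592 134217728 3 true true true .dn 1 3 3
    ndN1q1 ndN1q3 pcN3 Cut.none Ext.none :=
  certN0 (fam := true) (s1 := true) (s2 := true) (a := 1) (b := 3) (c := 3) (cn := .dn) (n1 := ndN1q1) (n2 := ndN1q3) (pc := pcN3) (cut := Cut.none) (xt := Ext.none) (P1 := 536870912) (W1 := 536870912) (P2 := 1610612736) (W2 := 536870912) (P3 := 201326592) (W3 := 134217728) (N0 := 3)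
    rfl k0_pp_133

noncomputable def f_pp_202_a : ℕ → ℕ → ℕ → ℕ → Bool := onCell 0 536870912 0 536870912 201326592 134217728
    (rowN 3 0 true true true .pp 2 0 2 (qsf 0 536870912 0 536870912 2) ndN1q2a ndN1q0 pcN2 Cut.none Ext.none)

def k0_pp_202_a : ∃ t, chk3 f_pp_202_a t 1 1 1 = true :=
  ⟨(l 5), by decide +kernel⟩

theorem c_pp_202_a : CertN 0 536870912 0 536870912 201326592 134217728 3 true true true .pp 2 0 2
    ndN1q2a ndN1q0 pcN2 Cut.none Ext.none :=
  certN0 (fam := true) (s1 := true) (s2 := true) (a := 2) (b := 0) (c := 2) (cn := .pp) (n1 := ndN1q2a) (n2 := ndN1q0) (pc := pcN2) (cut := Cut.none) (xt := Ext.none) (P1 := 0) (W1 := 536870912) (P2 := 0) (W2 := 536870912) (P3 := 201326592) (W3 := 134217728) (N0 := 3)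
    rfl k0_pp_202_a

noncomputable def f_pp_202_b : ℕ → ℕ → ℕ → ℕ → Bool := onCell 1239849684 370763052 0 536870912 201326592 134217728
    (rowN 3 0 true true true .pp 2 0 2 (qsf 1239849684 370763052 0 536870912 2) ndN1q2b ndN1q0 pcN2 Cut.none Ext.none)

def k0_pp_202_b : ∃ t, chk3 f_pp_202_b t 1 1 1 = true :=
  ⟨(l 5), by decide +kernel⟩

theorem c_pp_202_b : CertN 1239849684 370763052 0 536870912 201326592 134217728 3 true true true .pp 2 0 2
    ndN1q2b ndN1q0 pcN2 Cut.none Ext.none :=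
  certN0 (fam := true) (s1 := true) (s2 := true) (a := 2) (b := 0) (c := 2) (cn := .pp) (n1 := ndN1q2b) (n2 := ndN1q0) (pc := pcN2) (cut := Cut.none) (xt := Ext.none) (P1 := 1239849684) (W1 := 370763052) (P2 := 0) (W2 := 536870912) (P3 := 201326592) (W3 := 134217728) (N0 := 3)
    rfl k0_pp_202_b

noncomputable def f_pp_203_a : ℕ → ℕ → ℕ → ℕ → Bool := onCell 0 536870912 0 536870912 201326592 134217728
    (rowN 3 0 true true true .up 2 0 3 (qsf 0 536870912 0 536870912 3) ndN1q2a ndN1q0 pcN3 Cut.none Ext.none)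

def k0_pp_203_a : ∃ t, chk3 f_pp_203_a t 1 1 1 = true :=
  ⟨(l 5), by decide +kernel⟩

theorem c_pp_203_a : CertN 0 536870912 0 536870912 201326592 134217728 3 true true true .up 2 0 3
    ndN1q2a ndN1q0 pcN3 Cut.none Ext.none :=
  certN0 (fam := true) (s1 := true) (s2 := true) (a := 2) (b := 0) (c := 3) (cn := .up) (n1 := ndN1q2a) (n2 := ndN1q0) (pc := pcN3) (cut := Cut.none) (xt := Ext.none) (P1 := 0) (W1 := 536870912) (P2 := 0) (W2 := 536870912) (P3 := 201326592) (W3 := 134217728) (N0 := 3)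
    rfl k0_pp_203_a

noncomputable def f_pp_203_b : ℕ → ℕ → ℕ → ℕ → Bool := onCell 1239849684 370763052 0 536870912 201326592 134217728
    (rowN 3 0 true true true .up 2 0 3 (qsf 1239849684 370763052 0 536870912 3) ndN1q2b ndN1q0 pcN3 Cut.none Ext.none)

def k0_pp_203_b : ∃ t, chk3 f_pp_203_b t 1 1 1 = true :=
  ⟨(l 5), by decide +kernel⟩

theorem c_pp_203_b : CertN 1239849684 370763052 0 536870912 201326592 134217728 3 true true true .up 2 0 3
    ndN1q2b ndN1q0 pcN3 Cut.none Ext.none :=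
  certN0 (fam := true) (s1 := true) (s2 := true) (a := 2) (b := 0) (c := 3) (cn := .up) (n1 := ndN1q2b) (n2 := ndN1q0) (pc := pcN3) (cut := Cut.none) (xt := Ext.none) (P1 := 1239849684) (W1 := 370763052) (P2 := 0) (W2 := 536870912) (P3 := 201326592) (W3 := 134217728) (N0 := 3)
    rfl k0_pp_203_b

noncomputable def f_pp_213_a : ℕ → ℕ → ℕ → ℕ → Bool := onCell 0 536870912 536870912 536870912 201326592 134217728
    (rowN 3 0 true true true .pnn 2 1 3 (qsf 0 536870912 536870912 536870912 3) ndN1q2a ndN1q1 pcN3 Cut.none Ext.none)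

def k0_pp_213_a : ∃ t, chk3 f_pp_213_a t 1 1 1 = true :=
  ⟨(l 4), by decide +kernel⟩

theorem c_pp_213_a : CertN 0 536870912 536870912 536870912 201326592 134217728 3 true true true .pnn 2 1 3
    ndN1q2a ndN1q1 pcN3 Cut.none Ext.none :=
  certN0 (fam := true) (s1 := true) (s2 := true) (a := 2) (b := 1) (c := 3) (cn := .pnn) (n1 := ndN1q2a) (n2 := ndN1q1) (pc := pcN3) (cut := Cut.none) (xt := Ext.none) (P1 := 0) (W1 := 536870912) (P2 := 536870912) (W2 := 536870912) (P3 := 201326592) (W3 := 134217728) (N0 := 3)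
    rfl k0_pp_213_a

noncomputable def f_pp_213_b : ℕ → ℕ → ℕ → ℕ → Bool := onCell 1239849684 370763052 536870912 536870912 201326592 134217728
    (rowN 3 0 true true true .pnn 2 1 3 (qsf 1239849684 370763052 536870912 536870912 3) ndN1q2b ndN1q1 pcN3 Cut.none Ext.none)

def k0_pp_213_b : ∃ t, chk3 f_pp_213_b t 1 1 1 = true :=
  ⟨(l 4), by decide +kernel⟩

theorem c_pp_213_b : CertN 1239849684 370763052 536870912 536870912 201326592 134217728 3 true true true .pnn 2 1 3
    ndN1q2b ndN1q1 pcN3 Cut.none Ext.none :=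
  certN0 (fam := true) (s1 := true) (s2 := true) (a := 2) (b := 1) (c := 3) (cn := .pnn) (n1 := ndN1q2b) (n2 := ndN1q1) (pc := pcN3) (cut := Cut.none) (xt := Ext.none) (P1 := 1239849684) (W1 := 370763052) (P2 := 536870912) (W2 := 536870912) (P3 := 201326592) (W3 := 134217728) (N0 := 3)
    rfl k0_pp_213_b

noncomputable def f_pp_303 : ℕ → ℕ → ℕ → ℕ → Bool := onCell 1610612736 536870912 0 536870912 201326592 134217728
    (rowN 3 0 true true true .npn 3 0 3 (qsf 1610612736 536870912 0 536870912 3) ndN1q3 ndN1q0 pcN3 Cut.none Ext.none)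

def k0_pp_303 : ∃ t, chk3 f_pp_303 t 1 1 1 = true :=
  ⟨(l 5), by decide +kernel⟩

theorem c_pp_303 : CertN 1610612736 536870912 0 536870912 201326592 134217728 3 true true true .npn 3 0 3
    ndN1q3 ndN1q0 pcN3 Cut.none Ext.none :=
  certN0 (fam := true) (s1 := true) (s2 := true) (a := 3) (b := 0) (c := 3) (cn := .npn) (n1 := ndN1q3) (n2 := ndN1q0) (pc := pcN3) (cut := Cut.none) (xt := Ext.none) (P1 := 1610612736) (W1 := 536870912) (P2 := 0) (W2 := 536870912) (P3 := 201326592) (W3 := 134217728) (N0 := 3)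
    rfl k0_pp_303

noncomputable def f_pp_313 : ℕ → ℕ → ℕ → ℕ → Bool := onCell 1610612736 536870912 536870912 536870912 201326592 134217728
    (rowN 3 0 true true true .dn 3 1 3 (qsf 1610612736 536870912 536870912 536870912 3) ndN1q3 ndN1q1 pcN3 Cut.none Ext.none)

def k0_pp_313 : ∃ t, chk3 f_pp_313 t 1 1 1 = true :=
  ⟨(l 4), by decide +kernel⟩

theorem c_pp_313 : CertN 1610612736 536870912 536870912 536870912 201326592 134217728 3 true true true .dn 3 1 3
    ndN1q3 ndN1q1 pcN3 Cut.none Ext.none :=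
  certN0 (fam := true) (s1 := true) (s2 := true) (a := 3) (b := 1) (c := 3) (cn := .dn) (n1 := ndN1q3) (n2 := ndN1q1) (pc := pcN3) (cut := Cut.none) (xt := Ext.none) (P1 := 1610612736) (W1 := 536870912) (P2 := 536870912) (W2 := 536870912) (P3 := 201326592) (W3 := 134217728) (N0 := 3)
    rfl k0_pp_313

noncomputable def f_pm_001 : ℕ → ℕ → ℕ → ℕ → Bool := onCell 0 536870912 0 536870912 201326592 134217728
    (rowN 3 0 true true false .up 0 0 1 (qsf 0 536870912 0 536870912 1) ndN1q0 ndN1q0 pcN1 Cut.none Ext.none)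

def k0_pm_001 : ∃ t, chk3 f_pm_001 t 1 1 1 = true :=
  ⟨(l 3), by decide +kernel⟩

theorem c_pm_001 : CertN 0 536870912 0 536870912 201326592 134217728 3 true true false .up 0 0 1
    ndN1q0 ndN1q0 pcN1 Cut.none Ext.none :=
  certN0 (fam := true) (s1 := true) (s2 := false) (a := 0) (b := 0) (c := 1) (cn := .up) (n1 := ndN1q0) (n2 := ndN1q0) (pc := pcN1) (cut := Cut.none) (xt := Ext.none) (P1 := 0) (W1 := 536870912) (P2 := 0) (W2 := 536870912) (P3 := 201326592) (W3 := 134217728) (N0 := 3)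
    rfl k0_pm_001

noncomputable def f_pm_011 : ℕ → ℕ → ℕ → ℕ → Bool := onCell 0 536870912 536870912 536870912 201326592 134217728
    (rowN 3 1 true true false .pnn 0 1 1 (qsf 0 536870912 536870912 536870912 1) ndN1q0 ndN1q1 pcN1 Cut.none Ext.none)

def k0_pm_011 : ∃ t, chk3 f_pm_011 t 1 1 1 = true :=
  ⟨(l 3), by decide +kernel⟩

theorem c_pm_011 : CertN 0 536870912 536870912 536870912 201326592 134217728 3 true true false .pnn 0 1 1
    ndN1q0 ndN1q1 pcN1 Cut.none Ext.none :=
  certN1 (fam := true) (s1 := true) (s2 := false) (a := 0) (b := 1) (c := 1) (cn := .pnn) (n1 := ndN1q0) (n2 := ndN1q1) (pc := pcN1) (cut := Cut.none) (xt := Ext.none) (P1 := 0) (W1 := 536870912) (P2 := 536870912) (W2 := 536870912) (P3 := 201326592) (W3 := 134217728) (N0 := 3)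
    rfl (fun _ => rfl) k0_pm_011

noncomputable def f_pm_012 : ℕ → ℕ → ℕ → ℕ → Bool := onCell 1073741824 536870912 536870912 536870912 201326592 134217728
    (rowN 3 2 true true false .pnp 0 1 2 (qsf 0 536870912 536870912 536870912 2) ndN1q0 ndN1q1 pcN2 Cut.none Ext.none)

def k0_pm_012 : ∃ t, chk3 f_pm_012 t 1 1 1 = true :=
  ⟨(a (a (l 3) (a (a (a (l 3) (b (a (l 3) (a (l 3) (l 170356770167))) (a (l 3) (b (a (l 3) (a (l 16988760) (l 16987640))) (a (b (l 16927824) (l 16879944)) (b (l 17171552) (a (l 16874048) (l 16869480)))))))) (b (l 16961992) (b (l 16985280) (b (l 16881504) (l 16831264))))) (b (l 16973056) (b (l 17016768) (b (l 16816616) (l 16760104)))))) (b (a (l 17046672) (l 2)) (b (a (l 17126528) (l 17233168)) (a (b (l 17114048) (a (l 16817128) (l 17127064))) (l 17554616))))), by decide +kernel⟩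

theorem c_pm_012 : CertN 0 536870912 536870912 536870912 201326592 134217728 3 true true false .pnp 0 1 2
    ndN1q0 ndN1q1 pcN2 Cut.none Ext.none :=
  certN2 (fam := true) (s1 := true) (s2 := false) (a := 0) (b := 1) (c := 2) (cn := .pnp) (n1 := ndN1q0) (n2 := ndN1q1) (pc := pcN2) (cut := Cut.none) (xt := Ext.none) (P1 := 0) (W1 := 536870912) (P2 := 536870912) (W2 := 536870912) (P3 := 201326592) (W3 := 134217728) (N0 := 3)
    rfl (fun _ => rfl) k0_pm_012

noncomputable def cut_pm_022_a : Cut := Cut.of [[⟨0, 0, 0, 67108864⟩, ⟨1, 1, 0, 67108864⟩, ⟨2, 1, 0, 67108864⟩]]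

noncomputable def f_pm_022_a : ℕ → ℕ → ℕ → ℕ → Bool := onCell 1073741824 536870912 0 536870912 201326592 134217728
    (rowN 3 2 true true false .pp 0 2 2 (qsf 0 536870912 0 536870912 2) ndN1q0 ndN1q2a pcN2 cut_pm_022_a Ext.none)

def k0_pm_022_a : ∃ t, chk3 f_pm_022_a t 4 2 1 = true :=
  ⟨(b (l 1) (b (l 1) (b (l 1) (a (l 1) (a (l 1) (a (l 1) (a (l 1) (c (c (l 138545778999) (l 140693292055)) (l 84858671975))))))))), by decide +kernel⟩

def k1_pm_022_a : ∃ t, chk3 f_pm_022_a t 5 2 1 = true :=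
  ⟨(a (a (a (b (l 1) (a (b (l 1) (c (b (a (l 106870368343) (l 132103304215)) (c (l 16563912) (l 16543656))) (b (l 96669778679) (a (l 16543208) (l 16523032))))) (b (c (c (l 111165293239) (l 98817247319)) (b (l 16500072) (l 131566442695))) (c (b (b (l 16544240) (l 16531960)) (l 16545832)) (b (l 16486592) (l 16523936)))))) (a (b (a (l 1) (b (l 1) (c (l 83784855575) (l 16470416)))) (b (c (b (a (l 16499928) (l 16481112)) (l 16535264)) (a (b (l 16481712) (l 16494336)) (l 16510656))) (c (b (l 16530528) (l 16527576)) (a (l 16517680) (l 16518512))))) (b (a (b (l 1) (c (b (l 16486872) (l 16473560)) (l 16493464))) (c (b (a (l 16482200) (b (l 16502720) (l 16505400))) (a (l 16513592) (b (l 16510512) (l 16517928)))) (a (b (l 16452792) (l 16453016)) (b (b (l 16483480) (l 16486608)) (l 16516688))))) (c (a (b (b (l 16483336) (l 16495504)) (l 16499584)) (b (a (l 16511880) (l 16554448)) (b (l 16617456) (l 16593400)))) (a (b (l 16491224) (l 16519440)) (b (a (l 16471392) (l 16534888)) (a (l 16520056)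 (l 16520216)))))))) (b (a (c (b (a (l 16459672) (l 16470592)) (b (l 16513544) (l 16499456))) (b (l 16509688) (a (l 16476440) (l 16480760)))) (b (c (l 16478320) (l 16478648)) (c (l 16485504) (l 16486584)))) (a (b (c (a (l 16472096) (l 16497168)) (l 16536560)) (b (c (l 16512464) (l 16512288)) (l 16592008))) (b (c (l 16502088) (l 16502720)) (c (l 16527096) (l 16525944)))))) (a (a (b (b (l 16512040) (l 16517736)) (b (l 16532472) (l 16534056))) (b (l 16548120) (b (l 16520008) (l 16540952)))) (b (c (l 16584968) (l 16520848)) (c (l 16608712) (l 16561048))))), by decide +kernel⟩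

def k2_pm_022_a : ∃ t, chk3 f_pm_022_a t 4 6 1 = true :=
  ⟨(a (l 1) (a (b (l 1) (a (b (l 1) (a (l 1) (c (b (l 115997411255) (c (l 142840951543) (l 147672786679))) (b (l 99354395799) (l 149283399015))))) (c (b (a (b (l 1) (l 101501852775)) (c (l 142304010167) (l 144451488967))) (a (b (c (l 150357107863) (l 16620200)) (l 16630288)) (b (l 16616096) (l 16602656)))) (b (a (l 102575588791) (l 148209583703)) (b (l 180421878583) (l 16624168)))))) (c (a (b (b (a (l 1) (l 94522417431)) (c (a (l 112239197495) (l 158946929815)) (l 145525192951))) (b (c (a (l 16590936) (l 16575328)) (l 16590504)) (l 16614896))) (b (a (b (l 114386601895) (l 16576000)) (b (c (l 16574384) (l 16558920)) (l 16580240))) (a (b (l 16578664) (l 16603992)) (b (l 16582696) (l 16607848))))) (a (b (b (l 93448701127) (l 140156484311)) (b (l 164315679223) (l 16596032))) (b (a (b (l 16534504) (l 16553640)) (b (l 16579128) (l 16556152))) (a (l 16587168) (l 16589464))))))), by decide +kernel⟩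

def k3_pm_022_a : ∃ t, chk3 f_pm_022_a t 4 7 1 = true :=
  ⟨(a (a (b (l 1) (l 6)) (a (a (b (b (l 1) (l 6)) (l 6)) (b (b (l 1) (l 6)) (l 6))) (a (b (b (l 1) (l 6)) (l 6)) (a (b (b (b (l 1) (b (l 1) (l 6))) (l 6)) (l 6)) (b (b (b (l 1) (c (b (l 147135971415) (l 16663336)) (l 180421969831))) (c (b (l 16665528) (l 16668472)) (l 16685920))) (b (l 16688088) (l 16725136))))))) (a (c (b (b (a (c (a (b (l 150357180279) (l 16663216)) (b (l 16655448) (l 16637840))) (a (b (l 153578403415) (l 16672288)) (l 16653168))) (l 16638568)) (a (b (l 16668496) (l 16661824)) (l 16653856))) (b (l 16679488) (l 16725280))) (b (b (a (a (b (l 158410242327) (l 16669936)) (b (l 16650992) (l 16635200))) (l 16641280)) (a (l 16672904) (l 16649728))) (b (l 16672496) (l 16719360)))) (a (b (b (c (l 16626296) (l 16620992)) (l 16653888)) (b (l 16687144) (l 16724488))) (b (b (a (l 16627240) (l 16630184)) (l 16740640)) (a (l 16709448) (l 16733128)))))), by decide +kernel⟩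

def k4_pm_022_a : ∃ t, chk3 f_pm_022_a t 5 3 1 = true :=
  ⟨(a (a (a (b (c (b (a (b (l 16563120) (l 16542360)) (b (l 16544496) (l 16565600))) (a (l 16620368) (l 16601592))) (b (a (b (l 16539968) (l 16558776)) (l 16548504)) (a (l 16612872) (l 16593256)))) (b (a (l 16690368) (l 16671152)) (a (l 16714936) (l 16716696)))) (b (a (b (b (l 16587552) (l 16586360)) (l 16641712)) (a (b (l 16599192) (l 16601168)) (b (c (l 16644576) (l 16639072)) (a (l 16601784) (l 16622928))))) (a (b (l 16652232) (l 16718752)) (b (c (l 16787336) (l 16794832)) (a (l 16720168) (l 16763168)))))) (b (b (a (c (l 16559752) (l 16554488)) (l 16603256)) (a (l 16622648) (l 16605072))) (b (a (l 16654336) (l 16657768)) (a (l 16721216) (l 16724848))))) (b (a (b (a (l 16564808) (l 16568904)) (a (l 16607464) (l 16609080))) (b (l 16575184) (l 16631360))) (a (b (a (l 16660320) (l 16661752)) (l 16746976)) (b (l 16659464) (l 16728160))))), by decide +kernel⟩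

def k5_pm_022_a : ∃ t, chk3 f_pm_022_a t 3 1 1 = true :=
  ⟨(a (a (b (b (a (l 16552280) (l 16814400)) (a (l 16589416) (l 16829632))) (b (a (l 16696256) (l 16861816)) (a (b (l 16711056) (l 16796032)) (b (l 16900128) (l 16943888))))) (b (b (a (l 17000280) (l 17127296)) (a (l 17008344) (l 17131200))) (b (a (l 17019080) (l 17128344)) (a (b (l 17032008) (l 17050808)) (l 17127512))))) (a (b (b (l 17252496) (l 17341616)) (b (a (l 17213400) (l 17277296)) (a (l 17203000) (l 17263000)))) (b (l 17457000) (b (l 17332368) (l 17314808))))), by decide +kernel⟩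

theorem s6_pm_022_a : ∃ t, chk3 f_pm_022_a t 4 3 1 = true := ex3_b k2_pm_022_a k3_pm_022_a

theorem s7_pm_022_a : ∃ t, chk3 f_pm_022_a t 2 3 1 = true := ex3_a s6_pm_022_a k4_pm_022_a

theorem s8_pm_022_a : ∃ t, chk3 f_pm_022_a t 2 2 1 = true := ex3_a k0_pm_022_a k1_pm_022_a

theorem s9_pm_022_a : ∃ t, chk3 f_pm_022_a t 2 1 1 = true := ex3_b s8_pm_022_a s7_pm_022_a

theorem s10_pm_022_a : ∃ t, chk3 f_pm_022_a t 1 1 1 = true := ex3_a s9_pm_022_a k5_pm_022_a

theorem c_pm_022_a : CertN 0 536870912 0 536870912 201326592 134217728 3 true true false .pp 0 2 2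
    ndN1q0 ndN1q2a pcN2 cut_pm_022_a Ext.none :=
  certN2 (fam := true) (s1 := true) (s2 := false) (a := 0) (b := 2) (c := 2) (cn := .pp) (n1 := ndN1q0) (n2 := ndN1q2a) (pc := pcN2) (cut := cut_pm_022_a) (xt := Ext.none) (P1 := 0) (W1 := 536870912) (P2 := 0) (W2 := 536870912) (P3 := 201326592) (W3 := 134217728) (N0 := 3)
    rfl (fun _ => rfl) s10_pm_022_a

noncomputable def cut_pm_022_b : Cut := Cut.of [[⟨0, 0, 0, 67108864⟩, ⟨1, 1, 0, 67108864⟩, ⟨2, 1, 0, 67108864⟩]]

noncomputable def f_pm_022_b : ℕ → ℕ → ℕ → ℕ → Bool := onCell 0 536870912 1073741824 536870912 201326592 134217728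
    (rowN 3 1 true true false .pp 0 2 2 (qsf 0 536870912 1239849684 370763052 2) ndN1q0 ndN1q2b pcN2 cut_pm_022_b Ext.none)

def k0_pm_022_b : ∃ t, chk3 f_pm_022_b t 1 1 1 = true :=
  ⟨(a (b (a (b (l 1) (b (a (b (b (l 1) (b (l 1) (a (a (a (b (l 1) (b (l 1) (c (l 16510488) (l 16469320)))) (l 1)) (l 1)) (l 1)))) (a (c (b (a (a (l 16492472) (l 16491608)) (l 16479584)) (b (a (l 16461464) (l 16481632)) (l 16509360))) (b (b (a (l 16469384) (l 1)) (l 16537592)) (a (l 16476416) (l 16473192)))) (b (l 1) (c (l 16535016) (l 16530000))))) (l 1)) (b (a (a (c (b (b (l 16473360) (l 16458024)) (c (l 16460120) (l 16414912))) (b (a (l 16426856) (l 16445624)) (l 16459376))) (b (c (l 16507768) (l 16504624)) (c (l 16479168) (l 16477704)))) (c (l 63384363255) (a (l 16589104) (l 1)))) (a (a (c (b (l 16430752) (l 16640272)) (b (l 16408288) (l 16356264))) (c (l 16544464) (l 16475488))) (c (l 16625272) (l 16642064)))))) (l 1)) (b (b (a (a (b (a (c (b (l 16840552) (l 17015520)) (b (l 16324472) (l 16270832)))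 (c (l 16906336) (l 16374120))) (c (a (l 17238880) (l 17191656)) (a (l 16314128) (l 16336840)))) (b (c (l 16893904) (l 16526400)) (c (l 17136576) (l 16448952)))) (a (b (l 16709312) (l 16828392)) (l 1))) (a (a (c (b (l 17447128) (l 17630816)) (b (a (l 16647008) (l 16641160)) (a (l 16911488) (l 16887544)))) (b (c (l 17338144) (l 16658256)) (l 17190744))) (a (b (l 16992520) (l 17141416)) (b (l 17019520) (l 17120224))))) (b (a (b (a (c (l 17773184) (l 17095024)) (l 17346176)) (c (l 17819048) (l 17218688))) (a (l 17333632) (l 17271584))) (a (a (l 17693888) (l 17633080)) (l 17484344))))) (a (b (l 1) (b (l 1) (b (a (l 17222960) (l 1)) (a (l 17352184) (l 17266616))))) (l 1))), by decide +kernel⟩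

theorem c_pm_022_b : CertN 0 536870912 1239849684 370763052 201326592 134217728 3 true true false .pp 0 2 2
    ndN1q0 ndN1q2b pcN2 cut_pm_022_b Ext.none :=
  certN1 (fam := true) (s1 := true) (s2 := false) (a := 0) (b := 2) (c := 2) (cn := .pp) (n1 := ndN1q0) (n2 := ndN1q2b) (pc := pcN2) (cut := cut_pm_022_b) (xt := Ext.none) (P1 := 0) (W1 := 536870912) (P2 := 1239849684) (W2 := 370763052) (P3 := 201326592) (W3 := 134217728) (N0 := 3)
    rfl (fun _ => rfl) k0_pm_022_b

noncomputable def f_pm_023_a : ℕ → ℕ → ℕ → ℕ → Bool := onCell 1610612736 536870912 0 536870912 201326592 134217728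
    (rowN 3 2 true true false .up 0 2 3 (qsf 0 536870912 0 536870912 3) ndN1q0 ndN1q2a pcN3 Cut.none Ext.none)

def k0_pm_023_a : ∃ t, chk3 f_pm_023_a t 1 1 1 = true :=
  ⟨(a (a (b (a (b (l 17371160) (l 17361608)) (b (l 17326600) (l 17373712))) (b (a (l 17369600) (l 17395104)) (c (l 17556696) (l 17249584)))) (b (a (l 17445856) (l 2)) (b (l 2) (l 2)))) (l 2)), by decide +kernel⟩

theorem c_pm_023_a : CertN 0 536870912 0 536870912 201326592 134217728 3 true true false .up 0 2 3
    ndN1q0 ndN1q2a pcN3 Cut.none Ext.none :=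
  certN2 (fam := true) (s1 := true) (s2 := false) (a := 0) (b := 2) (c := 3) (cn := .up) (n1 := ndN1q0) (n2 := ndN1q2a) (pc := pcN3) (cut := Cut.none) (xt := Ext.none) (P1 := 0) (W1 := 536870912) (P2 := 0) (W2 := 536870912) (P3 := 201326592) (W3 := 134217728) (N0 := 3)
    rfl (fun _ => rfl) k0_pm_023_a

noncomputable def f_pm_023_b : ℕ → ℕ → ℕ → ℕ → Bool := onCell 1610612736 536870912 1239849684 370763052 201326592 134217728
    (rowN 3 2 true true false .up 0 2 3 (qsf 0 536870912 1239849684 370763052 3) ndN1q0 ndN1q2b pcN3 Cut.none Ext.none)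

def k0_pm_023_b : ∃ t, chk3 f_pm_023_b t 1 1 1 = true :=
  ⟨(a (a (b (a (c (l 17603712) (l 17285856)) (b (l 17358648) (l 17490064))) (a (c (b (l 17835504) (l 17960392)) (b (l 17481064) (l 17629096))) (c (l 17835144) (l 17532712)))) (a (b (l 17584784) (l 17635736)) (b (a (l 17377608) (l 4)) (l 17721544)))) (a (l 4) (l 4))), by decide +kernel⟩

theorem c_pm_023_b : CertN 0 536870912 1239849684 370763052 201326592 134217728 3 true true false .up 0 2 3
    ndN1q0 ndN1q2b pcN3 Cut.none Ext.none :=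
  certN2 (fam := true) (s1 := true) (s2 := false) (a := 0) (b := 2) (c := 3) (cn := .up) (n1 := ndN1q0) (n2 := ndN1q2b) (pc := pcN3) (cut := Cut.none) (xt := Ext.none) (P1 := 0) (W1 := 536870912) (P2 := 1239849684) (W2 := 370763052) (P3 := 201326592) (W3 := 134217728) (N0 := 3)
    rfl (fun _ => rfl) k0_pm_023_b

noncomputable def f_pm_033 : ℕ → ℕ → ℕ → ℕ → Bool := onCell 0 536870912 1610612736 536870912 201326592 134217728
    (rowN 3 1 true true false .pnn 0 3 3 (qsf 0 536870912 1610612736 536870912 3) ndN1q0 ndN1q3 pcN3 Cut.none Ext.none)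

def k0_pm_033 : ∃ t, chk3 f_pm_033 t 1 1 1 = true :=
  ⟨(b (b (a (b (a (c (l 17978704) (a (l 17679760) (l 17576136))) (l 1)) (a (c (l 17925096) (l 17663880)) (l 17586944))) (l 1)) (a (b (a (l 17812712) (l 17611576)) (a (c (l 17915392) (l 17673728)) (l 17617248))) (b (l 1) (l 284039538743)))) (b (l 4) (l 4))), by decide +kernel⟩

theorem c_pm_033 : CertN 0 536870912 1610612736 536870912 201326592 134217728 3 true true false .pnn 0 3 3
    ndN1q0 ndN1q3 pcN3 Cut.none Ext.none :=
  certN1 (fam := true) (s1 := true) (s2 := false) (a := 0) (b := 3) (c := 3) (cn := .pnn) (n1 := ndN1q0) (n2 := ndN1q3) (pc := pcN3) (cut := Cut.none) (xt := Ext.none) (P1 := 0) (W1 := 536870912) (P2 := 1610612736) (W2 := 536870912) (P3 := 201326592) (W3 := 134217728) (N0 := 3)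
    rfl (fun _ => rfl) k0_pm_033

noncomputable def f_pm_101 : ℕ → ℕ → ℕ → ℕ → Bool := onCell 536870912 536870912 0 536870912 201326592 134217728
    (rowN 3 2 true true false .npn 1 0 1 (qsf 536870912 536870912 0 536870912 1) ndN1q1 ndN1q0 pcN1 Cut.none Ext.none)

def k0_pm_101 : ∃ t, chk3 f_pm_101 t 1 1 1 = true :=
  ⟨(l 3), by decide +kernel⟩

theorem c_pm_101 : CertN 536870912 536870912 0 536870912 201326592 134217728 3 true true false .npn 1 0 1
    ndN1q1 ndN1q0 pcN1 Cut.none Ext.none :=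
  certN2 (fam := true) (s1 := true) (s2 := false) (a := 1) (b := 0) (c := 1) (cn := .npn) (n1 := ndN1q1) (n2 := ndN1q0) (pc := pcN1) (cut := Cut.none) (xt := Ext.none) (P1 := 536870912) (W1 := 536870912) (P2 := 0) (W2 := 536870912) (P3 := 201326592) (W3 := 134217728) (N0 := 3)
    rfl (fun _ => rfl) k0_pm_101

noncomputable def f_pm_102 : ℕ → ℕ → ℕ → ℕ → Bool := onCell 536870912 536870912 1073741824 536870912 201326592 134217728
    (rowN 3 1 true true false .npp 1 0 2 (qsf 536870912 536870912 0 536870912 2) ndN1q1 ndN1q0 pcN2 Cut.none Ext.none)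

def k0_pm_102 : ∃ t, chk3 f_pm_102 t 1 1 1 = true :=
  ⟨(b (b (l 3) (b (b (b (l 3) (a (b (l 3) (b (l 3) (l 170356770167))) (b (l 3) (a (b (l 3) (b (l 16988760) (l 16987640))) (b (a (l 16927824) (l 16879944)) (a (l 17171552) (b (l 16874048) (l 16869480)))))))) (a (l 16961992) (a (l 16985280) (a (l 16881504) (l 16831264))))) (a (l 16973056) (a (l 17016768) (a (l 16816616) (l 16718160)))))) (b (a (l 17046672) (a (l 17126528) (a (l 17114048) (b (l 16817128) (l 17127064))))) (a (l 2) (a (l 17233168) (l 17344904))))), by decide +kernel⟩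

theorem c_pm_102 : CertN 536870912 536870912 0 536870912 201326592 134217728 3 true true false .npp 1 0 2
    ndN1q1 ndN1q0 pcN2 Cut.none Ext.none :=
  certN1 (fam := true) (s1 := true) (s2 := false) (a := 1) (b := 0) (c := 2) (cn := .npp) (n1 := ndN1q1) (n2 := ndN1q0) (pc := pcN2) (cut := Cut.none) (xt := Ext.none) (P1 := 536870912) (W1 := 536870912) (P2 := 0) (W2 := 536870912) (P3 := 201326592) (W3 := 134217728) (N0 := 3)
    rfl (fun _ => rfl) k0_pm_102

noncomputable def f_pm_112 : ℕ → ℕ → ℕ → ℕ → Bool := onCell 536870912 536870912 1073741824 536870912 201326592 134217728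
    (rowN 3 1 true true false .dn 1 1 2 (qsf 536870912 536870912 536870912 536870912 2) ndN1q1 ndN1q1 pcN2 Cut.none Ext.none)

def k0_pm_112 : ∃ t, chk3 f_pm_112 t 1 1 1 = true :=
  ⟨(b (b (l 3) (a (b (b (b (l 3) (b (l 3) (b (l 3) (l 38152905575)))) (l 17287136)) (l 17364032)) (b (l 1) (l 358665298935)))) (a (b (l 17412824) (l 17374216)) (b (l 303367569063) (l 17412992)))), by decide +kernel⟩

theorem c_pm_112 : CertN 536870912 536870912 536870912 536870912 201326592 134217728 3 true true false .dn 1 1 2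
    ndN1q1 ndN1q1 pcN2 Cut.none Ext.none :=
  certN1 (fam := true) (s1 := true) (s2 := false) (a := 1) (b := 1) (c := 2) (cn := .dn) (n1 := ndN1q1) (n2 := ndN1q1) (pc := pcN2) (cut := Cut.none) (xt := Ext.none) (P1 := 536870912) (W1 := 536870912) (P2 := 536870912) (W2 := 536870912) (P3 := 201326592) (W3 := 134217728) (N0 := 3)
    rfl (fun _ => rfl) k0_pm_112

noncomputable def f_pm_113 : ℕ → ℕ → ℕ → ℕ → Bool := onCell 536870912 536870912 536870912 536870912 201326592 134217728
    (rowN 3 0 true true false .nn 1 1 3 (qsf 536870912 536870912 536870912 536870912 3) ndN1q1 ndN1q1 pcN3 Cut.none Ext.none)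

def k0_pm_113 : ∃ t, chk3 f_pm_113 t 1 1 1 = true :=
  ⟨(a (b (l 303367422551) (l 17494176)) (b (l 17494176) (b (l 220151947639) (a (l 17139944) (b (l 16993184) (a (l 16967808) (b (l 16887976) (a (l 16873168) (b (l 16833032) (a (l 16825080) (a (l 16805192) (b (l 16801080) (l 16788376))))))))))))), by decide +kernel⟩

theorem c_pm_113 : CertN 536870912 536870912 536870912 536870912 201326592 134217728 3 true true false .nn 1 1 3
    ndN1q1 ndN1q1 pcN3 Cut.none Ext.none :=
  certN0 (fam := true) (s1 := true) (s2 := false) (a := 1) (b := 1) (c := 3) (cn := .nn) (n1 := ndN1q1) (n2 := ndN1q1) (pc := pcN3) (cut := Cut.none) (xt := Ext.none) (P1 := 536870912) (W1 := 536870912) (P2 := 536870912) (W2 := 536870912) (P3 := 201326592) (W3 := 134217728) (N0 := 3)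
    rfl k0_pm_113

noncomputable def f_pm_123_a : ℕ → ℕ → ℕ → ℕ → Bool := onCell 1610612736 536870912 0 536870912 201326592 134217728
    (rowN 3 2 true true false .npn 1 2 3 (qsf 536870912 536870912 0 536870912 3) ndN1q1 ndN1q2a pcN3 Cut.none Ext.none)

def k0_pm_123_a : ∃ t, chk3 f_pm_123_a t 1 1 1 = true :=
  ⟨(a (a (b (a (l 1) (l 186865817447)) (a (l 17381376) (b (l 17168376) (l 17222576)))) (b (a (l 17059896) (l 17112472)) (a (b (l 17115352) (l 17167520)) (b (l 17056816) (l 17108560))))) (a (b (a (l 16924632) (l 4)) (a (b (l 17000224) (l 17047912)) (b (l 16944016) (l 16990632)))) (a (b (l 4) (b (l 4) (l 17016712))) (l 4)))), by decide +kernel⟩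

theorem c_pm_123_a : CertN 536870912 536870912 0 536870912 201326592 134217728 3 true true false .npn 1 2 3
    ndN1q1 ndN1q2a pcN3 Cut.none Ext.none :=
  certN2 (fam := true) (s1 := true) (s2 := false) (a := 1) (b := 2) (c := 3) (cn := .npn) (n1 := ndN1q1) (n2 := ndN1q2a) (pc := pcN3) (cut := Cut.none) (xt := Ext.none) (P1 := 536870912) (W1 := 536870912) (P2 := 0) (W2 := 536870912) (P3 := 201326592) (W3 := 134217728) (N0 := 3)
    rfl (fun _ => rfl) k0_pm_123_a

noncomputable def f_pm_123_b : ℕ → ℕ → ℕ → ℕ → Bool := onCell 1610612736 536870912 1239849684 370763052 201326592 134217728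
    (rowN 3 2 true true false .npn 1 2 3 (qsf 536870912 536870912 1239849684 370763052 3) ndN1q1 ndN1q2b pcN3 Cut.none Ext.none)

def k0_pm_123_b : ∃ t, chk3 f_pm_123_b t 1 1 1 = true :=
  ⟨(b (a (a (l 1) (a (l 17051272) (l 17147320))) (l 4)) (a (l 1) (l 4))), by decide +kernel⟩

theorem c_pm_123_b : CertN 536870912 536870912 1239849684 370763052 201326592 134217728 3 true true false .npn 1 2 3
    ndN1q1 ndN1q2b pcN3 Cut.none Ext.none :=
  certN2 (fam := true) (s1 := true) (s2 := false) (a := 1) (b := 2) (c := 3) (cn := .npn) (n1 := ndN1q1) (n2 := ndN1q2b) (pc := pcN3) (cut := Cut.none) (xt := Ext.none) (P1 := 536870912) (W1 := 536870912) (P2 := 1239849684) (W2 := 370763052) (P3 := 201326592) (W3 := 134217728) (N0 := 3)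
    rfl (fun _ => rfl) k0_pm_123_b

noncomputable def f_pm_133 : ℕ → ℕ → ℕ → ℕ → Bool := onCell 536870912 536870912 1610612736 536870912 201326592 134217728
    (rowN 3 0 true true false .dn 1 3 3 (qsf 536870912 536870912 1610612736 536870912 3) ndN1q1 ndN1q3 pcN3 Cut.none Ext.none)

def k0_pm_133 : ∃ t, chk3 f_pm_133 t 1 1 1 = true :=
  ⟨(l 4), by decide +kernel⟩

theorem c_pm_133 : CertN 536870912 536870912 1610612736 536870912 201326592 134217728 3 true true false .dn 1 3 3
    ndN1q1 ndN1q3 pcN3 Cut.none Ext.none :=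
  certN0 (fam := true) (s1 := true) (s2 := false) (a := 1) (b := 3) (c := 3) (cn := .dn) (n1 := ndN1q1) (n2 := ndN1q3) (pc := pcN3) (cut := Cut.none) (xt := Ext.none) (P1 := 536870912) (W1 := 536870912) (P2 := 1610612736) (W2 := 536870912) (P3 := 201326592) (W3 := 134217728) (N0 := 3)
    rfl k0_pm_133

noncomputable def cut_pm_202_a : Cut := Cut.of [[⟨0, 1, 0, 67108864⟩, ⟨1, 0, 0, 67108864⟩, ⟨2, 1, 0, 67108864⟩]]

noncomputable def f_pm_202_a : ℕ → ℕ → ℕ → ℕ → Bool := onCell 0 536870912 1073741824 536870912 201326592 134217728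
    (rowN 3 1 true true false .pp 2 0 2 (qsf 0 536870912 0 536870912 2) ndN1q2a ndN1q0 pcN2 cut_pm_202_a Ext.none)

def k0_pm_202_a : ∃ t, chk3 f_pm_202_a t 4 2 1 = true :=
  ⟨(b (l 1) (b (b (b (l 1) (a (b (l 1) (b (l 1) (c (b (c (l 16481032) (l 16435944)) (a (l 16502720) (l 16505400))) (b (l 11844121031) (a (l 16483480) (l 16486608)))))) (b (a (l 1) (c (b (l 1) (l 16492152)) (l 16514984))) (b (c (a (l 16486872) (l 16494528)) (l 136398232007)) (c (b (a (l 16467672) (l 16475192)) (a (l 16510512) (l 16517928))) (b (a (l 16470096) (l 16477472)) (l 16537664))))))) (b (a (c (c (l 16486112) (l 16488064)) (l 16509688)) (c (b (a (l 16470712) (l 16477856)) (l 16479296)) (b (l 16476440) (l 16480760)))) (a (c (l 16478320) (l 16478648)) (c (l 16485504) (l 16486584))))) (b (b (a (l 16512040) (l 16517736)) (l 16569088)) (c (l 16584968) (l 16520848))))), by decide +kernel⟩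

def k1_pm_202_a : ∃ t, chk3 f_pm_202_a t 5 2 1 = true :=
  ⟨(b (a (l 1) (a (l 1) (b (l 1) (b (l 1) (b (l 1) (b (l 1) (c (c (l 139619520823) (l 116534060375)) (l 85932413799)))))))) (b (b (b (b (a (l 1) (c (a (b (l 85932359271) (l 132103304215)) (c (l 16553424) (l 16564624))) (a (c (l 134250811543) (l 16495264)) (b (l 16543208) (l 16523032))))) (a (c (a (l 62310033799) (b (l 109017822871) (l 16512280))) (a (l 16521040) (l 132103313607))) (c (a (a (l 16533752) (l 16531960)) (l 16545832)) (a (l 16487248) (l 16523936))))) (c (b (a (a (c (l 16486560) (l 16522960)) (l 16537888)) (a (l 16530528) (l 16527576))) (b (a (a (l 16483336) (l 16495504)) (l 16499584)) (a (b (l 16532848) (a (l 16506520) (l 16497112))) (a (l 16617456) (l 16593400))))) (b (a (a (b (l 16481712) (l 16483488)) (l 16515880)) (b (l 16538656) (l 16518512))) (b (a (l 16512192) (l 16519440)) (a (b (l 16471392) (l 16555864)) (b (l 16520056) (l 16520216))))))) (b (a (c (b (l 16472096) (l 16497168)) (l 16557536)) (a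 (c (l 16512464) (l 16512288)) (l 16592008))) (a (c (l 16502088) (l 16502720)) (c (l 16527096) (l 16525944))))) (b (a (b (l 16532472) (l 16520008)) (b (l 16534056) (l 16540952))) (c (l 16608712) (l 16561048))))), by decide +kernel⟩

def k2_pm_202_a : ∃ t, chk3 f_pm_202_a t 2 3 1 = true :=
  ⟨(b (b (a (b (l 16552280) (l 16814400)) (b (l 16589416) (l 16829632))) (a (b (l 17000280) (l 17127296)) (b (l 17008344) (l 17131200)))) (b (b (l 17218112) (l 17281280)) (l 17331168))), by decide +kernel⟩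

def k3_pm_202_a : ∃ t, chk3 f_pm_202_a t 6 2 1 = true :=
  ⟨(b (a (b (l 1) (b (l 1) (b (c (b (a (l 1) (a (l 1) (l 125660968967))) (a (c (l 102575477287) (l 16559352)) (a (l 151430732647) (l 16567288)))) (a (b (l 1) (l 16558000)) (b (l 117607898711) (l 16562000)))) (c (b (a (c (l 16547216) (l 16533912)) (l 16576000)) (a (b (l 16558080) (l 16539760)) (l 16580240))) (b (a (l 16534504) (l 16553640)) (a (l 198138530695) (l 16556152))))))) (b (l 1) (b (b (a (l 1) (b (l 1) (c (a (c (l 95059435207) (l 96670042743)) (c (l 142840951543) (l 147672786679))) (a (l 99354395799) (l 149283399015))))) (c (a (b (a (l 1) (c (l 100428108231) (l 102575586567))) (c (l 142304010167) (l 144451488967))) (b (a (c (l 150357107863) (l 16625440)) (l 16630288)) (a (l 16616096) (l 16602656)))) (a (b (l 103112459703) (l 148209583703)) (a (b (l 159483907591) (l 16590904)) (l 16624168))))) (c (b (a (a (b (l 180958675639) (l 16568792)) (l 16590224)) (b (l 16597960) (l 16600552))) (b (a (l 16578664) (l 16603992))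 (a (l 16582696) (l 16607848)))) (b (a (l 163778808311) (l 16596032)) (b (l 16587168) (l 16599952))))))) (b (b (b (a (b (c (a (b (l 16541896) (l 16543112)) (l 16542360)) (a (l 16539968) (l 16558776))) (a (c (l 16544496) (l 16541480)) (c (l 16565600) (l 16560216)))) (a (a (b (l 16598584) (l 16579464)) (l 16673136)) (l 16701912))) (b (a (a (l 16587552) (l 16586360)) (l 16641712)) (b (a (l 16620160) (l 16601168)) (a (c (l 16644576) (l 16660048)) (b (l 16601784) (l 16622928)))))) (a (b (c (l 16559752) (l 16554488)) (l 16603256)) (b (l 16622648) (l 16605072)))) (b (a (b (l 16564808) (l 16568904)) (b (l 16607464) (l 16609080))) (a (l 16575184) (l 16631360))))), by decide +kernel⟩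

def k4_pm_202_a : ∃ t, chk3 f_pm_202_a t 7 2 1 = true :=
  ⟨(b (a (b (a (b (l 1) (b (l 1) (b (l 1) (a (l 1) (b (a (l 1) (l 6)) (c (a (l 147135971415) (l 16673816)) (l 180421969831))))))) (b (l 1) (b (l 6) (b (l 6) (b (l 6) (a (c (l 16665528) (l 16662920)) (l 16688664))))))) (b (b (a (b (a (c (c (l 150357180279) (l 153578403415)) (l 158410242327)) (c (c (l 16663216) (l 16672288)) (l 16669936))) (c (a (c (l 16655448) (l 16653712)) (l 16637344)) (a (l 16650992) (l 16635200)))) (c (a (l 16668496) (l 16661824)) (l 16672904))) (a (c (l 16638568) (l 16641280)) (c (l 16653856) (l 16649728)))) (b (a (c (l 16626296) (l 16620992)) (l 16653888)) (a (b (l 16627240) (l 16630184)) (l 16740640))))) (b (b (l 6) (b (l 6) (b (l 6) (a (a (l 16679752) (l 16697304)) (l 16725632))))) (b (a (a (b (l 16677120) (l 16676184)) (l 16735920)) (b (l 16702272) (l 16722472))) (b (a (l 16687144) (l 16724488)) (b (l 16709448) (l 16733128)))))) (a (b (b (b (b (l 16690368) (l 16671152)) (b (l 16652232) (c (l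 16787336) (l 16794832)))) (b (l 16654336) (l 16657768))) (b (b (l 16660320) (l 16661752)) (l 16659464))) (b (b (b (b (l 16714936) (l 16716696)) (b (l 16718752) (b (l 16720168) (l 16763168)))) (b (l 16721216) (l 16724848))) (b (l 16746976) (l 16728160))))), by decide +kernel⟩

def k5_pm_202_a : ∃ t, chk3 f_pm_202_a t 3 3 1 = true :=
  ⟨(b (b (a (b (l 16675288) (l 16861816)) (b (a (l 16711056) (l 16796016)) (a (l 16900128) (l 16943848)))) (a (b (l 17019080) (l 17128344)) (b (a (l 17032008) (l 17050760)) (l 17127312)))) (b (b (a (l 17213400) (l 17202800)) (a (l 17277296) (l 17262800))) (a (l 17332368) (l 17314504)))), by decide +kernel⟩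

theorem s6_pm_202_a : ∃ t, chk3 f_pm_202_a t 3 2 1 = true := ex3_a k3_pm_202_a k4_pm_202_a

theorem s7_pm_202_a : ∃ t, chk3 f_pm_202_a t 3 1 1 = true := ex3_b s6_pm_202_a k5_pm_202_a

theorem s8_pm_202_a : ∃ t, chk3 f_pm_202_a t 2 2 1 = true := ex3_a k0_pm_202_a k1_pm_202_a

theorem s9_pm_202_a : ∃ t, chk3 f_pm_202_a t 2 1 1 = true := ex3_b s8_pm_202_a k2_pm_202_a

theorem s10_pm_202_a : ∃ t, chk3 f_pm_202_a t 1 1 1 = true := ex3_a s9_pm_202_a s7_pm_202_a

theorem c_pm_202_a : CertN 0 536870912 0 536870912 201326592 134217728 3 true true false .pp 2 0 2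
    ndN1q2a ndN1q0 pcN2 cut_pm_202_a Ext.none :=
  certN1 (fam := true) (s1 := true) (s2 := false) (a := 2) (b := 0) (c := 2) (cn := .pp) (n1 := ndN1q2a) (n2 := ndN1q0) (pc := pcN2) (cut := cut_pm_202_a) (xt := Ext.none) (P1 := 0) (W1 := 536870912) (P2 := 0) (W2 := 536870912) (P3 := 201326592) (W3 := 134217728) (N0 := 3)
    rfl (fun _ => rfl) s10_pm_202_a

noncomputable def cut_pm_202_b : Cut := Cut.of [[⟨0, 1, 0, 67108864⟩, ⟨1, 0, 0, 67108864⟩, ⟨2, 1, 0, 67108864⟩]]

noncomputable def f_pm_202_b : ℕ → ℕ → ℕ → ℕ → Bool := onCell 1073741824 536870912 0 536870912 201326592 134217728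
    (rowN 3 2 true true false .pp 2 0 2 (qsf 1239849684 370763052 0 536870912 2) ndN1q2b ndN1q0 pcN2 cut_pm_202_b Ext.none)

def k0_pm_202_b : ∃ t, chk3 f_pm_202_b t 1 1 1 = true :=
  ⟨(a (b (a (l 1) (a (b (b (a (a (l 1) (a (l 1) (b (b (b (a (l 1) (a (l 1) (c (l 16510488) (l 16469320)))) (l 1)) (l 1)) (l 1)))) (b (c (a (b (b (l 16492472) (l 16491608)) (l 16479584)) (a (b (l 16461464) (l 16481632)) (l 16509360))) (a (a (b (l 16469384) (l 1)) (l 16537592)) (b (l 16476416) (l 16473192)))) (a (l 1) (c (l 16535016) (l 16530000))))) (l 1)) (l 1)) (b (a (b (b (c (a (a (l 16473360) (l 16458024)) (c (l 16460120) (l 16414912))) (a (b (l 16426856) (l 16445624)) (l 16459376))) (a (c (l 16507768) (l 16504624)) (c (l 16479168) (l 16477704)))) (c (l 63384363255) (b (l 16589104) (l 1)))) (b (b (c (a (l 16430752) (l 16640272)) (a (l 16408288) (l 16356264))) (c (l 16544464) (l 16475488))) (c (l 16625272) (l 16642064)))) (l 1)))) (l 1)) (a (b (a (b (b (a (b (c (a (l 16840552) (l 17015520))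 (a (l 16324472) (l 16270832))) (c (l 16906336) (l 16374120))) (c (b (l 17238880) (l 17191656)) (b (l 16314128) (l 16336840)))) (a (c (l 16893904) (l 16526400)) (c (l 17136576) (l 16448952)))) (b (a (l 16709312) (l 16828392)) (l 1))) (b (b (c (a (l 17447128) (l 17630816)) (a (b (l 16647008) (l 16641160)) (b (l 16911488) (l 16887544)))) (a (c (l 17338144) (l 16658256)) (l 17190744))) (b (a (l 16992520) (l 17141416)) (a (l 17019520) (l 17120224))))) (l 1)) (b (a (b (a (b (c (l 17773184) (l 17095024)) (l 17346176)) (c (l 17819048) (l 17218688))) (b (l 17333632) (l 17271584))) (b (b (l 17672912) (l 17633080)) (l 17484344))) (b (a (b (l 17222960) (l 1)) (b (l 17352184) (l 17266616))) (l 1))))), by decide +kernel⟩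

theorem c_pm_202_b : CertN 1239849684 370763052 0 536870912 201326592 134217728 3 true true false .pp 2 0 2
    ndN1q2b ndN1q0 pcN2 cut_pm_202_b Ext.none :=
  certN2 (fam := true) (s1 := true) (s2 := false) (a := 2) (b := 0) (c := 2) (cn := .pp) (n1 := ndN1q2b) (n2 := ndN1q0) (pc := pcN2) (cut := cut_pm_202_b) (xt := Ext.none) (P1 := 1239849684) (W1 := 370763052) (P2 := 0) (W2 := 536870912) (P3 := 201326592) (W3 := 134217728) (N0 := 3)
    rfl (fun _ => rfl) k0_pm_202_b

noncomputable def f_pm_203_a : ℕ → ℕ → ℕ → ℕ → Bool := onCell 0 536870912 1610612736 536870912 201326592 134217728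
    (rowN 3 1 true true false .up 2 0 3 (qsf 0 536870912 0 536870912 3) ndN1q2a ndN1q0 pcN3 Cut.none Ext.none)

def k0_pm_203_a : ∃ t, chk3 f_pm_203_a t 1 1 1 = true :=
  ⟨(b (b (a (b (a (l 17371160) (l 17361608)) (a (l 17326600) (l 17373712))) (a (b (l 17369600) (l 17395104)) (c (l 17556696) (l 17249584)))) (a (b (l 17445856) (l 2)) (a (l 2) (l 2)))) (l 2)), by decide +kernel⟩

theorem c_pm_203_a : CertN 0 536870912 0 536870912 201326592 134217728 3 true true false .up 2 0 3
    ndN1q2a ndN1q0 pcN3 Cut.none Ext.none :=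
  certN1 (fam := true) (s1 := true) (s2 := false) (a := 2) (b := 0) (c := 3) (cn := .up) (n1 := ndN1q2a) (n2 := ndN1q0) (pc := pcN3) (cut := Cut.none) (xt := Ext.none) (P1 := 0) (W1 := 536870912) (P2 := 0) (W2 := 536870912) (P3 := 201326592) (W3 := 134217728) (N0 := 3)
    rfl (fun _ => rfl) k0_pm_203_a

noncomputable def f_pm_203_b : ℕ → ℕ → ℕ → ℕ → Bool := onCell 1239849684 370763052 1610612736 536870912 201326592 134217728
    (rowN 3 1 true true false .up 2 0 3 (qsf 1239849684 370763052 0 536870912 3) ndN1q2b ndN1q0 pcN3 Cut.none Ext.none)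

def k0_pm_203_b : ∃ t, chk3 f_pm_203_b t 1 1 1 = true :=
  ⟨(b (b (a (b (c (l 17603712) (l 17285856)) (a (l 17358648) (l 17490064))) (b (c (a (l 17835504) (l 17960392)) (a (l 17481064) (l 17629096))) (c (l 17835144) (l 17532712)))) (b (a (l 17584784) (l 17635736)) (a (b (l 17377608) (l 4)) (l 17721544)))) (b (l 4) (l 4))), by decide +kernel⟩

theorem c_pm_203_b : CertN 1239849684 370763052 0 536870912 201326592 134217728 3 true true false .up 2 0 3
    ndN1q2b ndN1q0 pcN3 Cut.none Ext.none :=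
  certN1 (fam := true) (s1 := true) (s2 := false) (a := 2) (b := 0) (c := 3) (cn := .up) (n1 := ndN1q2b) (n2 := ndN1q0) (pc := pcN3) (cut := Cut.none) (xt := Ext.none) (P1 := 1239849684) (W1 := 370763052) (P2 := 0) (W2 := 536870912) (P3 := 201326592) (W3 := 134217728) (N0 := 3)
    rfl (fun _ => rfl) k0_pm_203_b

noncomputable def f_pm_213_a : ℕ → ℕ → ℕ → ℕ → Bool := onCell 0 536870912 1610612736 536870912 201326592 134217728
    (rowN 3 1 true true false .pnn 2 1 3 (qsf 0 536870912 536870912 536870912 3) ndN1q2a ndN1q1 pcN3 Cut.none Ext.none)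

def k0_pm_213_a : ∃ t, chk3 f_pm_213_a t 1 1 1 = true :=
  ⟨(b (b (a (b (l 1) (l 186865817447)) (b (l 17381376) (a (l 17168376) (l 17222576)))) (a (b (l 17059896) (l 17112472)) (b (a (l 17115352) (l 17167520)) (a (l 17056816) (l 17108560))))) (b (a (b (l 16924632) (l 4)) (b (a (l 17000224) (l 17047912)) (a (l 16944016) (l 16990632)))) (b (a (l 4) (a (l 4) (l 17016712))) (l 4)))), by decide +kernel⟩

theorem c_pm_213_a : CertN 0 536870912 536870912 536870912 201326592 134217728 3 true true false .pnn 2 1 3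
    ndN1q2a ndN1q1 pcN3 Cut.none Ext.none :=
  certN1 (fam := true) (s1 := true) (s2 := false) (a := 2) (b := 1) (c := 3) (cn := .pnn) (n1 := ndN1q2a) (n2 := ndN1q1) (pc := pcN3) (cut := Cut.none) (xt := Ext.none) (P1 := 0) (W1 := 536870912) (P2 := 536870912) (W2 := 536870912) (P3 := 201326592) (W3 := 134217728) (N0 := 3)
    rfl (fun _ => rfl) k0_pm_213_a

noncomputable def f_pm_213_b : ℕ → ℕ → ℕ → ℕ → Bool := onCell 1239849684 370763052 1610612736 536870912 201326592 134217728
    (rowN 3 1 true true false .pnn 2 1 3 (qsf 1239849684 370763052 536870912 536870912 3) ndN1q2b ndN1q1 pcN3 Cut.none Ext.none)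

def k0_pm_213_b : ∃ t, chk3 f_pm_213_b t 1 1 1 = true :=
  ⟨(a (b (b (l 1) (b (l 17051272) (l 17147320))) (l 4)) (b (l 1) (l 4))), by decide +kernel⟩

theorem c_pm_213_b : CertN 1239849684 370763052 536870912 536870912 201326592 134217728 3 true true false .pnn 2 1 3
    ndN1q2b ndN1q1 pcN3 Cut.none Ext.none :=
  certN1 (fam := true) (s1 := true) (s2 := false) (a := 2) (b := 1) (c := 3) (cn := .pnn) (n1 := ndN1q2b) (n2 := ndN1q1) (pc := pcN3) (cut := Cut.none) (xt := Ext.none) (P1 := 1239849684) (W1 := 370763052) (P2 := 536870912) (W2 := 536870912) (P3 := 201326592) (W3 := 134217728) (N0 := 3)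
    rfl (fun _ => rfl) k0_pm_213_b

noncomputable def f_pm_303 : ℕ → ℕ → ℕ → ℕ → Bool := onCell 1610612736 536870912 0 536870912 201326592 134217728
    (rowN 3 2 true true false .npn 3 0 3 (qsf 1610612736 536870912 0 536870912 3) ndN1q3 ndN1q0 pcN3 Cut.none Ext.none)

def k0_pm_303 : ∃ t, chk3 f_pm_303 t 1 1 1 = true :=
  ⟨(a (a (b (a (b (c (l 17978704) (b (l 17679760) (l 17576136))) (l 1)) (b (c (l 17925096) (l 17663880)) (l 17586944))) (l 1)) (b (a (b (l 17812712) (l 17611576)) (b (c (l 17915392) (l 17673728)) (l 17617248))) (a (l 1) (l 284039538743)))) (a (l 4) (l 4))), by decide +kernel⟩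

theorem c_pm_303 : CertN 1610612736 536870912 0 536870912 201326592 134217728 3 true true false .npn 3 0 3
    ndN1q3 ndN1q0 pcN3 Cut.none Ext.none :=
  certN2 (fam := true) (s1 := true) (s2 := false) (a := 3) (b := 0) (c := 3) (cn := .npn) (n1 := ndN1q3) (n2 := ndN1q0) (pc := pcN3) (cut := Cut.none) (xt := Ext.none) (P1 := 1610612736) (W1 := 536870912) (P2 := 0) (W2 := 536870912) (P3 := 201326592) (W3 := 134217728) (N0 := 3)
    rfl (fun _ => rfl) k0_pm_303

noncomputable def f_pm_313 : ℕ → ℕ → ℕ → ℕ → Bool := onCell 1610612736 536870912 536870912 536870912 201326592 134217728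
    (rowN 3 0 true true false .dn 3 1 3 (qsf 1610612736 536870912 536870912 536870912 3) ndN1q3 ndN1q1 pcN3 Cut.none Ext.none)

def k0_pm_313 : ∃ t, chk3 f_pm_313 t 1 1 1 = true :=
  ⟨(l 4), by decide +kernel⟩

theorem c_pm_313 : CertN 1610612736 536870912 536870912 536870912 201326592 134217728 3 true true false .dn 3 1 3
    ndN1q3 ndN1q1 pcN3 Cut.none Ext.none :=
  certN0 (fam := true) (s1 := true) (s2 := false) (a := 3) (b := 1) (c := 3) (cn := .dn) (n1 := ndN1q3) (n2 := ndN1q1) (pc := pcN3) (cut := Cut.none) (xt := Ext.none) (P1 := 1610612736) (W1 := 536870912) (P2 := 536870912) (W2 := 536870912) (P3 := 201326592) (W3 := 134217728) (N0 := 3)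
    rfl k0_pm_313

noncomputable def f_mm_001 : ℕ → ℕ → ℕ → ℕ → Bool := onCell 0 536870912 0 536870912 201326592 134217728
    (rowN 3 0 true false false .up 0 0 1 (qsf 0 536870912 0 536870912 1) ndN1q0 ndN1q0 pcN1 Cut.none Ext.none)

def k0_mm_001 : ∃ t, chk3 f_mm_001 t 1 1 1 = true :=
  ⟨(l 4), by decide +kernel⟩

theorem c_mm_001 : CertN 0 536870912 0 536870912 201326592 134217728 3 true false false .up 0 0 1
    ndN1q0 ndN1q0 pcN1 Cut.none Ext.none :=
  certN0 (fam := true) (s1 := false) (s2 := false) (a := 0) (b := 0) (c := 1) (cn := .up) (n1 := ndN1q0) (n2 := ndN1q0) (pc := pcN1) (cut := Cut.none) (xt := Ext.none) (P1 := 0) (W1 := 536870912) (P2 := 0) (W2 := 536870912) (P3 := 201326592) (W3 := 134217728) (N0 := 3)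
    rfl k0_mm_001

noncomputable def f_mm_011 : ℕ → ℕ → ℕ → ℕ → Bool := onCell 0 536870912 536870912 536870912 201326592 134217728
    (rowN 3 0 true false false .pnn 0 1 1 (qsf 0 536870912 536870912 536870912 1) ndN1q0 ndN1q1 pcN1 Cut.none Ext.none)

def k0_mm_011 : ∃ t, chk3 f_mm_011 t 1 1 1 = true :=
  ⟨(l 4), by decide +kernel⟩

theorem c_mm_011 : CertN 0 536870912 536870912 536870912 201326592 134217728 3 true false false .pnn 0 1 1
    ndN1q0 ndN1q1 pcN1 Cut.none Ext.none :=
  certN0 (fam := true) (s1 := false) (s2 := false) (a := 0) (b := 1) (c := 1) (cn := .pnn) (n1 := ndN1q0) (n2 := ndN1q1) (pc := pcN1) (cut := Cut.none) (xt := Ext.none) (P1 := 0) (W1 := 536870912) (P2 := 536870912) (W2 := 536870912) (P3 := 201326592) (W3 := 134217728) (N0 := 3)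
    rfl k0_mm_011

noncomputable def f_mm_012 : ℕ → ℕ → ℕ → ℕ → Bool := onCell 0 536870912 536870912 536870912 201326592 134217728
    (rowN 3 0 true false false .pnp 0 1 2 (qsf 0 536870912 536870912 536870912 2) ndN1q0 ndN1q1 pcN2 Cut.none Ext.none)

def k0_mm_012 : ∃ t, chk3 f_mm_012 t 1 1 1 = true :=
  ⟨(l 4), by decide +kernel⟩

theorem c_mm_012 : CertN 0 536870912 536870912 536870912 201326592 134217728 3 true false false .pnp 0 1 2
    ndN1q0 ndN1q1 pcN2 Cut.none Ext.none :=
  certN0 (fam := true) (s1 := false) (s2 := false) (a := 0) (b := 1) (c := 2) (cn := .pnp) (n1 := ndN1q0) (n2 := ndN1q1) (pc := pcN2) (cut := Cut.none) (xt := Ext.none) (P1 := 0) (W1 := 536870912) (P2 := 536870912) (W2 := 536870912) (P3 := 201326592) (W3 := 134217728) (N0 := 3)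
    rfl k0_mm_012

noncomputable def f_mm_022_a : ℕ → ℕ → ℕ → ℕ → Bool := onCell 0 536870912 0 536870912 201326592 134217728
    (rowN 3 0 true false false .pp 0 2 2 (qsf 0 536870912 0 536870912 2) ndN1q0 ndN1q2a pcN2 Cut.none Ext.none)

def k0_mm_022_a : ∃ t, chk3 f_mm_022_a t 1 1 1 = true :=
  ⟨(l 5), by decide +kernel⟩

theorem c_mm_022_a : CertN 0 536870912 0 536870912 201326592 134217728 3 true false false .pp 0 2 2
    ndN1q0 ndN1q2a pcN2 Cut.none Ext.none :=
  certN0 (fam := true) (s1 := false) (s2 := false) (a := 0) (b := 2) (c := 2) (cn := .pp) (n1 := ndN1q0) (n2 := ndN1q2a) (pc := pcN2) (cut := Cut.none) (xt := Ext.none) (P1 := 0) (W1 := 536870912) (P2 := 0) (W2 := 536870912) (P3 := 201326592) (W3 := 134217728) (N0 := 3)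
    rfl k0_mm_022_a

noncomputable def f_mm_022_b : ℕ → ℕ → ℕ → ℕ → Bool := onCell 0 536870912 1239849684 370763052 201326592 134217728
    (rowN 3 0 true false false .pp 0 2 2 (qsf 0 536870912 1239849684 370763052 2) ndN1q0 ndN1q2b pcN2 Cut.none Ext.none)

def k0_mm_022_b : ∃ t, chk3 f_mm_022_b t 1 1 1 = true :=
  ⟨(l 5), by decide +kernel⟩

theorem c_mm_022_b : CertN 0 536870912 1239849684 370763052 201326592 134217728 3 true false false .pp 0 2 2
    ndN1q0 ndN1q2b pcN2 Cut.none Ext.none :=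
  certN0 (fam := true) (s1 := false) (s2 := false) (a := 0) (b := 2) (c := 2) (cn := .pp) (n1 := ndN1q0) (n2 := ndN1q2b) (pc := pcN2) (cut := Cut.none) (xt := Ext.none) (P1 := 0) (W1 := 536870912) (P2 := 1239849684) (W2 := 370763052) (P3 := 201326592) (W3 := 134217728) (N0 := 3)
    rfl k0_mm_022_b

noncomputable def f_mm_023_a : ℕ → ℕ → ℕ → ℕ → Bool := onCell 0 536870912 0 536870912 201326592 134217728
    (rowN 3 0 true false false .up 0 2 3 (qsf 0 536870912 0 536870912 3) ndN1q0 ndN1q2a pcN3 Cut.none Ext.none)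

def k0_mm_023_a : ∃ t, chk3 f_mm_023_a t 1 1 1 = true :=
  ⟨(l 5), by decide +kernel⟩

theorem c_mm_023_a : CertN 0 536870912 0 536870912 201326592 134217728 3 true false false .up 0 2 3
    ndN1q0 ndN1q2a pcN3 Cut.none Ext.none :=
  certN0 (fam := true) (s1 := false) (s2 := false) (a := 0) (b := 2) (c := 3) (cn := .up) (n1 := ndN1q0) (n2 := ndN1q2a) (pc := pcN3) (cut := Cut.none) (xt := Ext.none) (P1 := 0) (W1 := 536870912) (P2 := 0) (W2 := 536870912) (P3 := 201326592) (W3 := 134217728) (N0 := 3)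
    rfl k0_mm_023_a

noncomputable def f_mm_023_b : ℕ → ℕ → ℕ → ℕ → Bool := onCell 0 536870912 1239849684 370763052 201326592 134217728
    (rowN 3 0 true false false .up 0 2 3 (qsf 0 536870912 1239849684 370763052 3) ndN1q0 ndN1q2b pcN3 Cut.none Ext.none)

def k0_mm_023_b : ∃ t, chk3 f_mm_023_b t 1 1 1 = true :=
  ⟨(l 5), by decide +kernel⟩

theorem c_mm_023_b : CertN 0 536870912 1239849684 370763052 201326592 134217728 3 true false false .up 0 2 3
    ndN1q0 ndN1q2b pcN3 Cut.none Ext.none :=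
  certN0 (fam := true) (s1 := false) (s2 := false) (a := 0) (b := 2) (c := 3) (cn := .up) (n1 := ndN1q0) (n2 := ndN1q2b) (pc := pcN3) (cut := Cut.none) (xt := Ext.none) (P1 := 0) (W1 := 536870912) (P2 := 1239849684) (W2 := 370763052) (P3 := 201326592) (W3 := 134217728) (N0 := 3)
    rfl k0_mm_023_b

noncomputable def f_mm_033 : ℕ → ℕ → ℕ → ℕ → Bool := onCell 0 536870912 1610612736 536870912 201326592 134217728
    (rowN 3 0 true false false .pnn 0 3 3 (qsf 0 536870912 1610612736 536870912 3) ndN1q0 ndN1q3 pcN3 Cut.none Ext.none)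

def k0_mm_033 : ∃ t, chk3 f_mm_033 t 1 1 1 = true :=
  ⟨(l 5), by decide +kernel⟩

theorem c_mm_033 : CertN 0 536870912 1610612736 536870912 201326592 134217728 3 true false false .pnn 0 3 3
    ndN1q0 ndN1q3 pcN3 Cut.none Ext.none :=
  certN0 (fam := true) (s1 := false) (s2 := false) (a := 0) (b := 3) (c := 3) (cn := .pnn) (n1 := ndN1q0) (n2 := ndN1q3) (pc := pcN3) (cut := Cut.none) (xt := Ext.none) (P1 := 0) (W1 := 536870912) (P2 := 1610612736) (W2 := 536870912) (P3 := 201326592) (W3 := 134217728) (N0 := 3)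
    rfl k0_mm_033

noncomputable def f_mm_101 : ℕ → ℕ → ℕ → ℕ → Bool := onCell 536870912 536870912 0 536870912 201326592 134217728
    (rowN 3 0 true false false .npn 1 0 1 (qsf 536870912 536870912 0 536870912 1) ndN1q1 ndN1q0 pcN1 Cut.none Ext.none)

def k0_mm_101 : ∃ t, chk3 f_mm_101 t 1 1 1 = true :=
  ⟨(l 4), by decide +kernel⟩

theorem c_mm_101 : CertN 536870912 536870912 0 536870912 201326592 134217728 3 true false false .npn 1 0 1
    ndN1q1 ndN1q0 pcN1 Cut.none Ext.none :=
  certN0 (fam := true) (s1 := false) (s2 := false) (a := 1) (b := 0) (c := 1) (cn := .npn) (n1 := ndN1q1) (n2 := ndN1q0) (pc := pcN1) (cut := Cut.none) (xt := Ext.none) (P1 := 536870912) (W1 := 536870912) (P2 := 0) (W2 := 536870912) (P3 := 201326592) (W3 := 134217728) (N0 := 3)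
    rfl k0_mm_101

noncomputable def f_mm_102 : ℕ → ℕ → ℕ → ℕ → Bool := onCell 536870912 536870912 0 536870912 201326592 134217728
    (rowN 3 0 true false false .npp 1 0 2 (qsf 536870912 536870912 0 536870912 2) ndN1q1 ndN1q0 pcN2 Cut.none Ext.none)

def k0_mm_102 : ∃ t, chk3 f_mm_102 t 1 1 1 = true :=
  ⟨(l 4), by decide +kernel⟩

theorem c_mm_102 : CertN 536870912 536870912 0 536870912 201326592 134217728 3 true false false .npp 1 0 2
    ndN1q1 ndN1q0 pcN2 Cut.none Ext.none :=
  certN0 (fam := true) (s1 := false) (s2 := false) (a := 1) (b := 0) (c := 2) (cn := .npp) (n1 := ndN1q1) (n2 := ndN1q0) (pc := pcN2) (cut := Cut.none) (xt := Ext.none) (P1 := 536870912) (W1 := 536870912) (P2 := 0) (W2 := 536870912) (P3 := 201326592) (W3 := 134217728) (N0 := 3)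
    rfl k0_mm_102

noncomputable def f_mm_112 : ℕ → ℕ → ℕ → ℕ → Bool := onCell 536870912 536870912 536870912 536870912 201326592 134217728
    (rowN 3 0 true false false .dn 1 1 2 (qsf 536870912 536870912 536870912 536870912 2) ndN1q1 ndN1q1 pcN2 Cut.none Ext.none)

def k0_mm_112 : ∃ t, chk3 f_mm_112 t 1 1 1 = true :=
  ⟨(l 4), by decide +kernel⟩

theorem c_mm_112 : CertN 536870912 536870912 536870912 536870912 201326592 134217728 3 true false false .dn 1 1 2
    ndN1q1 ndN1q1 pcN2 Cut.none Ext.none :=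
  certN0 (fam := true) (s1 := false) (s2 := false) (a := 1) (b := 1) (c := 2) (cn := .dn) (n1 := ndN1q1) (n2 := ndN1q1) (pc := pcN2) (cut := Cut.none) (xt := Ext.none) (P1 := 536870912) (W1 := 536870912) (P2 := 536870912) (W2 := 536870912) (P3 := 201326592) (W3 := 134217728) (N0 := 3)
    rfl k0_mm_112

noncomputable def f_mm_113 : ℕ → ℕ → ℕ → ℕ → Bool := onCell 536870912 536870912 536870912 536870912 201326592 134217728
    (rowN 3 0 true false false .nn 1 1 3 (qsf 536870912 536870912 536870912 536870912 3) ndN1q1 ndN1q1 pcN3 Cut.none Ext.none)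

def k0_mm_113 : ∃ t, chk3 f_mm_113 t 1 1 1 = true :=
  ⟨(l 4), by decide +kernel⟩

theorem c_mm_113 : CertN 536870912 536870912 536870912 536870912 201326592 134217728 3 true false false .nn 1 1 3
    ndN1q1 ndN1q1 pcN3 Cut.none Ext.none :=
  certN0 (fam := true) (s1 := false) (s2 := false) (a := 1) (b := 1) (c := 3) (cn := .nn) (n1 := ndN1q1) (n2 := ndN1q1) (pc := pcN3) (cut := Cut.none) (xt := Ext.none) (P1 := 536870912) (W1 := 536870912) (P2 := 536870912) (W2 := 536870912) (P3 := 201326592) (W3 := 134217728) (N0 := 3)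
    rfl k0_mm_113

noncomputable def f_mm_123_a : ℕ → ℕ → ℕ → ℕ → Bool := onCell 536870912 536870912 0 536870912 201326592 134217728
    (rowN 3 0 true false false .npn 1 2 3 (qsf 536870912 536870912 0 536870912 3) ndN1q1 ndN1q2a pcN3 Cut.none Ext.none)

def k0_mm_123_a : ∃ t, chk3 f_mm_123_a t 1 1 1 = true :=
  ⟨(l 4), by decide +kernel⟩

theorem c_mm_123_a : CertN 536870912 536870912 0 536870912 201326592 134217728 3 true false false .npn 1 2 3
    ndN1q1 ndN1q2a pcN3 Cut.none Ext.none :=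
  certN0 (fam := true) (s1 := false) (s2 := false) (a := 1) (b := 2) (c := 3) (cn := .npn) (n1 := ndN1q1) (n2 := ndN1q2a) (pc := pcN3) (cut := Cut.none) (xt := Ext.none) (P1 := 536870912) (W1 := 536870912) (P2 := 0) (W2 := 536870912) (P3 := 201326592) (W3 := 134217728) (N0 := 3)
    rfl k0_mm_123_a

noncomputable def f_mm_123_b : ℕ → ℕ → ℕ → ℕ → Bool := onCell 536870912 536870912 1239849684 370763052 201326592 134217728
    (rowN 3 0 true false false .npn 1 2 3 (qsf 536870912 536870912 1239849684 370763052 3) ndN1q1 ndN1q2b pcN3 Cut.none Ext.none)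

def k0_mm_123_b : ∃ t, chk3 f_mm_123_b t 1 1 1 = true :=
  ⟨(l 4), by decide +kernel⟩

theorem c_mm_123_b : CertN 536870912 536870912 1239849684 370763052 201326592 134217728 3 true false false .npn 1 2 3
    ndN1q1 ndN1q2b pcN3 Cut.none Ext.none :=
  certN0 (fam := true) (s1 := false) (s2 := false) (a := 1) (b := 2) (c := 3) (cn := .npn) (n1 := ndN1q1) (n2 := ndN1q2b) (pc := pcN3) (cut := Cut.none) (xt := Ext.none) (P1 := 536870912) (W1 := 536870912) (P2 := 1239849684) (W2 := 370763052) (P3 := 201326592) (W3 := 134217728) (N0 := 3)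
    rfl k0_mm_123_b

noncomputable def f_mm_133 : ℕ → ℕ → ℕ → ℕ → Bool := onCell 536870912 536870912 1610612736 536870912 201326592 134217728
    (rowN 3 0 true false false .dn 1 3 3 (qsf 536870912 536870912 1610612736 536870912 3) ndN1q1 ndN1q3 pcN3 Cut.none Ext.none)

def k0_mm_133 : ∃ t, chk3 f_mm_133 t 1 1 1 = true :=
  ⟨(l 4), by decide +kernel⟩

theorem c_mm_133 : CertN 536870912 536870912 1610612736 536870912 201326592 134217728 3 true false false .dn 1 3 3
    ndN1q1 ndN1q3 pcN3 Cut.none Ext.none :=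
  certN0 (fam := true) (s1 := false) (s2 := false) (a := 1) (b := 3) (c := 3) (cn := .dn) (n1 := ndN1q1) (n2 := ndN1q3) (pc := pcN3) (cut := Cut.none) (xt := Ext.none) (P1 := 536870912) (W1 := 536870912) (P2 := 1610612736) (W2 := 536870912) (P3 := 201326592) (W3 := 134217728) (N0 := 3)
    rfl k0_mm_133

noncomputable def cut_mm_202_a : Cut := Cut.of [[⟨0, 1, 0, 67108864⟩, ⟨1, 0, 0, 67108864⟩, ⟨2, 1, 0, 67108864⟩]]

noncomputable def f_mm_202_a : ℕ → ℕ → ℕ → ℕ → Bool := onCell 0 536870912 0 536870912 201326592 134217728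
    (rowN 3 0 true false false .pp 2 0 2 (qsf 0 536870912 0 536870912 2) ndN1q2a ndN1q0 pcN2 cut_mm_202_a Ext.none)

def k0_mm_202_a : ∃ t, chk3 f_mm_202_a t 1 2 1 = true :=
  ⟨(a (b (b (a (b (b (a (c (l 16504600) (l 16500320)) (c (l 16565856) (l 16518504))) (a (l 16544664) (c (l 16525376) (l 16521136)))) (a (l 16546568) (c (l 16530112) (l 16526856)))) (b (a (b (c (b (l 16568112) (l 16548392)) (l 16583056)) (c (l 16550752) (l 16545296))) (b (c (b (a (l 16566824) (l 16581136)) (l 16575896)) (b (l 16608088) (l 16568576))) (c (l 16579056) (l 16572496)))) (a (b (l 16574104) (l 16559248)) (a (l 16630096) (b (l 16589080) (l 16601208)))))) (a (b (c (l 16622400) (l 16526904)) (l 16617048)) (b (a (c (l 16584920) (l 16578232)) (b (l 16594024) (l 4))) (l 4)))) (b (a (b (l 16777024) (l 4)) (l 4)) (l 4))) (b (a (b (b (c (a (b (b (a (l 16617240) (c (l 16614352) (l 16610216))) (l 16648352)) (l 16651800)) (b (a (b (c (l 16653136) (l 16628024)) (l 16632184)) (b (b (c (l 16672048) (l 16647040))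 (l 16670984)) (l 16672456))) (b (a (l 16634480) (l 16654152)) (l 16714184)))) (a (b (b (a (l 16587568) (l 16603176)) (l 16619112)) (l 16644320)) (b (a (b (l 16652712) (l 16624024)) (b (b (l 16661656) (l 16642032)) (l 16644080))) (b (l 16700216) (l 16685776))))) (a (b (a (l 16626240) (l 16667552)) (c (l 16664880) (l 16654936))) (b (a (l 16693040) (l 4)) (l 4)))) (l 4)) (b (b (b (a (a (b (c (a (c (l 16687888) (l 16663144)) (b (c (l 16677696) (l 16674008)) (l 16676712))) (b (a (l 16656792) (l 16689552)) (l 16684984))) (c (l 16703984) (l 16697512))) (a (b (b (l 6) (c (l 16689640) (l 16683848))) (c (l 16712984) (l 16686696))) (b (l 6) (c (l 16728728) (l 16724152))))) (l 6)) (a (a (b (c (l 16700144) (l 16672592)) (l 4)) (l 4)) (l 4))) (l 4)) (l 4))) (l 4))), by decide +kernel⟩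

def k1_mm_202_a : ∃ t, chk3 f_mm_202_a t 1 3 1 = true :=
  ⟨(l 4), by decide +kernel⟩

theorem s2_mm_202_a : ∃ t, chk3 f_mm_202_a t 1 1 1 = true := ex3_b k0_mm_202_a k1_mm_202_a

theorem c_mm_202_a : CertN 0 536870912 0 536870912 201326592 134217728 3 true false false .pp 2 0 2
    ndN1q2a ndN1q0 pcN2 cut_mm_202_a Ext.none :=
  certN0 (fam := true) (s1 := false) (s2 := false) (a := 2) (b := 0) (c := 2) (cn := .pp) (n1 := ndN1q2a) (n2 := ndN1q0) (pc := pcN2) (cut := cut_mm_202_a) (xt := Ext.none) (P1 := 0) (W1 := 536870912) (P2 := 0) (W2 := 536870912) (P3 := 201326592) (W3 := 134217728) (N0 := 3)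
    rfl s2_mm_202_a

noncomputable def cut_mm_202_b : Cut := Cut.of [[⟨0, 1, 0, 67108864⟩, ⟨1, 0, 0, 67108864⟩, ⟨2, 1, 0, 67108864⟩]]

noncomputable def f_mm_202_b : ℕ → ℕ → ℕ → ℕ → Bool := onCell 1239849684 370763052 0 536870912 201326592 134217728
    (rowN 3 0 true false false .pp 2 0 2 (qsf 1239849684 370763052 0 536870912 2) ndN1q2b ndN1q0 pcN2 cut_mm_202_b Ext.none)

def k0_mm_202_b : ∃ t, chk3 f_mm_202_b t 1 1 1 = true :=
  ⟨(b (a (b (a (b (c (b (b (a (a (l 16499880) (l 16445712)) (a (l 16415552) (l 16699968))) (a (l 16503880) (l 16750752))) (a (l 16509384) (l 16965152))) (b (b (a (a (l 16474752) (l 16440384)) (l 16414472)) (a (l 16458224) (l 16399856))) (a (l 16483096) (l 16413384)))) (a (b (l 16564688) (l 16744288)) (b (c (l 17129080) (l 16547464)) (l 16983536)))) (b (b (a (c (b (a (l 16970552) (l 17192832)) (l 17194112)) (l 16391816)) (c (b (l 17455672) (l 17504272)) (b (l 16690312) (l 16820048)))) (a (c (l 17300608) (l 16637008)) (c (l 17545696) (l 16965928))))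 (b (a (c (l 17374232) (l 16851528)) (l 17327368)) (l 4)))) (a (b (a (b (l 16877448) (l 4)) (l 4)) (l 4)) (l 4))) (b (b (a (b (a (c (l 17715432) (l 17092712)) (c (l 17873328) (l 17335096))) (a (c (l 17720320) (l 17213664)) (l 4))) (a (b (c (l 17972832) (l 17505400)) (l 4)) (l 4))) (l 4)) (l 4))) (l 4)), by decide +kernel⟩

theorem c_mm_202_b : CertN 1239849684 370763052 0 536870912 201326592 134217728 3 true false false .pp 2 0 2
    ndN1q2b ndN1q0 pcN2 cut_mm_202_b Ext.none :=
  certN0 (fam := true) (s1 := false) (s2 := false) (a := 2) (b := 0) (c := 2) (cn := .pp) (n1 := ndN1q2b) (n2 := ndN1q0) (pc := pcN2) (cut := cut_mm_202_b) (xt := Ext.none) (P1 := 1239849684) (W1 := 370763052) (P2 := 0) (W2 := 536870912) (P3 := 201326592) (W3 := 134217728) (N0 := 3)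
    rfl k0_mm_202_b

noncomputable def f_mm_203_a : ℕ → ℕ → ℕ → ℕ → Bool := onCell 0 536870912 1610612736 536870912 201326592 134217728
    (rowN 3 1 true false false .up 2 0 3 (qsf 0 536870912 0 536870912 3) ndN1q2a ndN1q0 pcN3 Cut.none Ext.none)

def k0_mm_203_a : ∃ t, chk3 f_mm_203_a t 1 1 1 = true :=
  ⟨(l 4), by decide +kernel⟩

theorem c_mm_203_a : CertN 0 536870912 0 536870912 201326592 134217728 3 true false false .up 2 0 3
    ndN1q2a ndN1q0 pcN3 Cut.none Ext.none :=
  certN1 (fam := true) (s1 := false) (s2 := false) (a := 2) (b := 0) (c := 3) (cn := .up) (n1 := ndN1q2a) (n2 := ndN1q0) (pc := pcN3) (cut := Cut.none) (xt := Ext.none) (P1 := 0) (W1 := 536870912) (P2 := 0) (W2 := 536870912) (P3 := 201326592) (W3 := 134217728) (N0 := 3)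
    rfl (fun _ => rfl) k0_mm_203_a

noncomputable def f_mm_203_b : ℕ → ℕ → ℕ → ℕ → Bool := onCell 1239849684 370763052 1610612736 536870912 201326592 134217728
    (rowN 3 1 true false false .up 2 0 3 (qsf 1239849684 370763052 0 536870912 3) ndN1q2b ndN1q0 pcN3 Cut.none Ext.none)

def k0_mm_203_b : ∃ t, chk3 f_mm_203_b t 1 1 1 = true :=
  ⟨(b (l 4) (l 4)), by decide +kernel⟩

theorem c_mm_203_b : CertN 1239849684 370763052 0 536870912 201326592 134217728 3 true false false .up 2 0 3
    ndN1q2b ndN1q0 pcN3 Cut.none Ext.none :=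
  certN1 (fam := true) (s1 := false) (s2 := false) (a := 2) (b := 0) (c := 3) (cn := .up) (n1 := ndN1q2b) (n2 := ndN1q0) (pc := pcN3) (cut := Cut.none) (xt := Ext.none) (P1 := 1239849684) (W1 := 370763052) (P2 := 0) (W2 := 536870912) (P3 := 201326592) (W3 := 134217728) (N0 := 3)
    rfl (fun _ => rfl) k0_mm_203_b

noncomputable def f_mm_213_a : ℕ → ℕ → ℕ → ℕ → Bool := onCell 0 536870912 536870912 536870912 201326592 134217728
    (rowN 3 0 true false false .pnn 2 1 3 (qsf 0 536870912 536870912 536870912 3) ndN1q2a ndN1q1 pcN3 Cut.none Ext.none)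

def k0_mm_213_a : ∃ t, chk3 f_mm_213_a t 1 1 1 = true :=
  ⟨(l 4), by decide +kernel⟩

theorem c_mm_213_a : CertN 0 536870912 536870912 536870912 201326592 134217728 3 true false false .pnn 2 1 3
    ndN1q2a ndN1q1 pcN3 Cut.none Ext.none :=
  certN0 (fam := true) (s1 := false) (s2 := false) (a := 2) (b := 1) (c := 3) (cn := .pnn) (n1 := ndN1q2a) (n2 := ndN1q1) (pc := pcN3) (cut := Cut.none) (xt := Ext.none) (P1 := 0) (W1 := 536870912) (P2 := 536870912) (W2 := 536870912) (P3 := 201326592) (W3 := 134217728) (N0 := 3)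
    rfl k0_mm_213_a

noncomputable def f_mm_213_b : ℕ → ℕ → ℕ → ℕ → Bool := onCell 1239849684 370763052 536870912 536870912 201326592 134217728
    (rowN 3 0 true false false .pnn 2 1 3 (qsf 1239849684 370763052 536870912 536870912 3) ndN1q2b ndN1q1 pcN3 Cut.none Ext.none)

def k0_mm_213_b : ∃ t, chk3 f_mm_213_b t 1 1 1 = true :=
  ⟨(l 4), by decide +kernel⟩

theorem c_mm_213_b : CertN 1239849684 370763052 536870912 536870912 201326592 134217728 3 true false false .pnn 2 1 3
    ndN1q2b ndN1q1 pcN3 Cut.none Ext.none :=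
  certN0 (fam := true) (s1 := false) (s2 := false) (a := 2) (b := 1) (c := 3) (cn := .pnn) (n1 := ndN1q2b) (n2 := ndN1q1) (pc := pcN3) (cut := Cut.none) (xt := Ext.none) (P1 := 1239849684) (W1 := 370763052) (P2 := 536870912) (W2 := 536870912) (P3 := 201326592) (W3 := 134217728) (N0 := 3)
    rfl k0_mm_213_b

noncomputable def f_mm_303 : ℕ → ℕ → ℕ → ℕ → Bool := onCell 1610612736 536870912 0 536870912 201326592 134217728
    (rowN 3 0 true false false .npn 3 0 3 (qsf 1610612736 536870912 0 536870912 3) ndN1q3 ndN1q0 pcN3 Cut.none Ext.none)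

def k0_mm_303 : ∃ t, chk3 f_mm_303 t 1 1 1 = true :=
  ⟨(a (b (l 4) (l 4)) (l 4)), by decide +kernel⟩

theorem c_mm_303 : CertN 1610612736 536870912 0 536870912 201326592 134217728 3 true false false .npn 3 0 3
    ndN1q3 ndN1q0 pcN3 Cut.none Ext.none :=
  certN0 (fam := true) (s1 := false) (s2 := false) (a := 3) (b := 0) (c := 3) (cn := .npn) (n1 := ndN1q3) (n2 := ndN1q0) (pc := pcN3) (cut := Cut.none) (xt := Ext.none) (P1 := 1610612736) (W1 := 536870912) (P2 := 0) (W2 := 536870912) (P3 := 201326592) (W3 := 134217728) (N0 := 3)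
    rfl k0_mm_303

noncomputable def f_mm_313 : ℕ → ℕ → ℕ → ℕ → Bool := onCell 1610612736 536870912 536870912 536870912 201326592 134217728
    (rowN 3 0 true false false .dn 3 1 3 (qsf 1610612736 536870912 536870912 536870912 3) ndN1q3 ndN1q1 pcN3 Cut.none Ext.none)

def k0_mm_313 : ∃ t, chk3 f_mm_313 t 1 1 1 = true :=
  ⟨(l 4), by decide +kernel⟩

theorem c_mm_313 : CertN 1610612736 536870912 536870912 536870912 201326592 134217728 3 true false false .dn 3 1 3
    ndN1q3 ndN1q1 pcN3 Cut.none Ext.none :=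
  certN0 (fam := true) (s1 := false) (s2 := false) (a := 3) (b := 1) (c := 3) (cn := .dn) (n1 := ndN1q3) (n2 := ndN1q1) (pc := pcN3) (cut := Cut.none) (xt := Ext.none) (P1 := 1610612736) (W1 := 536870912) (P2 := 536870912) (W2 := 536870912) (P3 := 201326592) (W3 := 134217728) (N0 := 3)
    rfl k0_mm_313

end Pool.Agent.Strip051.G.I3_16_5_16.Tab.C.NA11

namespace Pool.Agent.Strip051.G.I3_16_5_16.Tab.C.NA12

open Pool.Agent.Strip051.PB Pool.Agent.Strip051.PB.T
open Pool.Agent.Strip051.G.I3_16_5_16.Tab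

noncomputable def f_pp_001 : ℕ → ℕ → ℕ → ℕ → Bool := onCell 0 536870912 0 536870912 201326592 134217728
    (rowN 3 0 true true true .up 0 0 1 (qsf 0 536870912 0 536870912 1) ndN1q0 ndN2q0 pcN1 Cut.none Ext.none)

def k0_pp_001 : ∃ t, chk3 f_pp_001 t 1 1 1 = true :=
  ⟨(l 4), by decide +kernel⟩

theorem c_pp_001 : CertN 0 536870912 0 536870912 201326592 134217728 3 true true true .up 0 0 1
    ndN1q0 ndN2q0 pcN1 Cut.none Ext.none :=
  certN0 (fam := true) (s1 := true) (s2 := true) (a := 0) (b := 0) (c := 1) (cn := .up) (n1 := ndN1q0) (n2 := ndN2q0) (pc := pcN1) (cut := Cut.none) (xt := Ext.none) (P1 := 0) (W1 := 536870912) (P2 := 0) (W2 := 536870912) (P3 := 201326592) (W3 := 134217728) (N0 := 3)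
    rfl k0_pp_001

noncomputable def f_pp_011 : ℕ → ℕ → ℕ → ℕ → Bool := onCell 0 536870912 536870912 536870912 201326592 134217728
    (rowN 3 0 true true true .pnn 0 1 1 (qsf 0 536870912 536870912 536870912 1) ndN1q0 ndN2q1 pcN1 Cut.none Ext.none)

def k0_pp_011 : ∃ t, chk3 f_pp_011 t 1 1 1 = true :=
  ⟨(l 4), by decide +kernel⟩

theorem c_pp_011 : CertN 0 536870912 536870912 536870912 201326592 134217728 3 true true true .pnn 0 1 1
    ndN1q0 ndN2q1 pcN1 Cut.none Ext.none :=
  certN0 (fam := true) (s1 := true) (s2 := true) (a := 0) (b := 1) (c := 1) (cn := .pnn) (n1 := ndN1q0) (n2 := ndN2q1) (pc := pcN1) (cut := Cut.none) (xt := Ext.none) (P1 := 0) (W1 := 536870912) (P2 := 536870912) (W2 := 536870912) (P3 := 201326592) (W3 := 134217728) (N0 := 3)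
    rfl k0_pp_011

noncomputable def f_pp_012 : ℕ → ℕ → ℕ → ℕ → Bool := onCell 0 536870912 536870912 536870912 201326592 134217728
    (rowN 3 0 true true true .pnp 0 1 2 (qsf 0 536870912 536870912 536870912 2) ndN1q0 ndN2q1 pcN2 Cut.none Ext.none)

def k0_pp_012 : ∃ t, chk3 f_pp_012 t 1 1 1 = true :=
  ⟨(l 4), by decide +kernel⟩

theorem c_pp_012 : CertN 0 536870912 536870912 536870912 201326592 134217728 3 true true true .pnp 0 1 2
    ndN1q0 ndN2q1 pcN2 Cut.none Ext.none :=
  certN0 (fam := true) (s1 := true) (s2 := true) (a := 0) (b := 1) (c := 2) (cn := .pnp) (n1 := ndN1q0) (n2 := ndN2q1) (pc := pcN2) (cut := Cut.none) (xt := Ext.none) (P1 := 0) (W1 := 536870912) (P2 := 536870912) (W2 := 536870912) (P3 := 201326592) (W3 := 134217728) (N0 := 3)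
    rfl k0_pp_012

noncomputable def cut_pp_022_a : Cut := Cut.of [[⟨0, 0, 0, 67108864⟩, ⟨1, 1, 0, 67108864⟩, ⟨2, 1, 0, 67108864⟩]]

noncomputable def f_pp_022_a : ℕ → ℕ → ℕ → ℕ → Bool := onCell 0 536870912 0 536870912 201326592 134217728
    (rowN 3 0 true true true .pp 0 2 2 (qsf 0 536870912 0 536870912 2) ndN1q0 ndN2q2a pcN2 cut_pp_022_a Ext.none)

def k0_pp_022_a : ∃ t, chk3 f_pp_022_a t 1 1 1 = true :=
  ⟨(a (b (l 4) (a (b (l 4) (a (b (l 4) (a (b (l 4) (l 6)) (l 4))) (l 4))) (l 4))) (l 4)), by decide +kernel⟩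

theorem c_pp_022_a : CertN 0 536870912 0 536870912 201326592 134217728 3 true true true .pp 0 2 2
    ndN1q0 ndN2q2a pcN2 cut_pp_022_a Ext.none :=
  certN0 (fam := true) (s1 := true) (s2 := true) (a := 0) (b := 2) (c := 2) (cn := .pp) (n1 := ndN1q0) (n2 := ndN2q2a) (pc := pcN2) (cut := cut_pp_022_a) (xt := Ext.none) (P1 := 0) (W1 := 536870912) (P2 := 0) (W2 := 536870912) (P3 := 201326592) (W3 := 134217728) (N0 := 3)
    rfl k0_pp_022_a

noncomputable def cut_pp_022_b : Cut := Cut.of [[⟨0, 0, 0, 67108864⟩, ⟨1, 1, 0, 67108864⟩, ⟨2, 1, 0, 67108864⟩]]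

noncomputable def f_pp_022_b : ℕ → ℕ → ℕ → ℕ → Bool := onCell 0 536870912 1239849684 370763052 201326592 134217728
    (rowN 3 0 true true true .pp 0 2 2 (qsf 0 536870912 1239849684 370763052 2) ndN1q0 ndN2q2b pcN2 cut_pp_022_b Ext.none)

def k0_pp_022_b : ∃ t, chk3 f_pp_022_b t 1 1 1 = true :=
  ⟨(a (b (l 4) (l 4)) (l 4)), by decide +kernel⟩

theorem c_pp_022_b : CertN 0 536870912 1239849684 370763052 201326592 134217728 3 true true true .pp 0 2 2
    ndN1q0 ndN2q2b pcN2 cut_pp_022_b Ext.none :=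
  certN0 (fam := true) (s1 := true) (s2 := true) (a := 0) (b := 2) (c := 2) (cn := .pp) (n1 := ndN1q0) (n2 := ndN2q2b) (pc := pcN2) (cut := cut_pp_022_b) (xt := Ext.none) (P1 := 0) (W1 := 536870912) (P2 := 1239849684) (W2 := 370763052) (P3 := 201326592) (W3 := 134217728) (N0 := 3)
    rfl k0_pp_022_b

noncomputable def f_pp_023_a : ℕ → ℕ → ℕ → ℕ → Bool := onCell 1610612736 536870912 0 536870912 201326592 134217728
    (rowN 3 2 true true true .up 0 2 3 (qsf 0 536870912 0 536870912 3) ndN1q0 ndN2q2a pcN3 Cut.none Ext.none)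

def k0_pp_023_a : ∃ t, chk3 f_pp_023_a t 1 1 1 = true :=
  ⟨(l 4), by decide +kernel⟩

theorem c_pp_023_a : CertN 0 536870912 0 536870912 201326592 134217728 3 true true true .up 0 2 3
    ndN1q0 ndN2q2a pcN3 Cut.none Ext.none :=
  certN2 (fam := true) (s1 := true) (s2 := true) (a := 0) (b := 2) (c := 3) (cn := .up) (n1 := ndN1q0) (n2 := ndN2q2a) (pc := pcN3) (cut := Cut.none) (xt := Ext.none) (P1 := 0) (W1 := 536870912) (P2 := 0) (W2 := 536870912) (P3 := 201326592) (W3 := 134217728) (N0 := 3)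
    rfl (fun _ => rfl) k0_pp_023_a

noncomputable def f_pp_023_b : ℕ → ℕ → ℕ → ℕ → Bool := onCell 1610612736 536870912 1239849684 370763052 201326592 134217728
    (rowN 3 2 true true true .up 0 2 3 (qsf 0 536870912 1239849684 370763052 3) ndN1q0 ndN2q2b pcN3 Cut.none Ext.none)

def k0_pp_023_b : ∃ t, chk3 f_pp_023_b t 1 1 1 = true :=
  ⟨(l 4), by decide +kernel⟩

theorem c_pp_023_b : CertN 0 536870912 1239849684 370763052 201326592 134217728 3 true true true .up 0 2 3
    ndN1q0 ndN2q2b pcN3 Cut.none Ext.none :=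
  certN2 (fam := true) (s1 := true) (s2 := true) (a := 0) (b := 2) (c := 3) (cn := .up) (n1 := ndN1q0) (n2 := ndN2q2b) (pc := pcN3) (cut := Cut.none) (xt := Ext.none) (P1 := 0) (W1 := 536870912) (P2 := 1239849684) (W2 := 370763052) (P3 := 201326592) (W3 := 134217728) (N0 := 3)
    rfl (fun _ => rfl) k0_pp_023_b

noncomputable def f_pp_033 : ℕ → ℕ → ℕ → ℕ → Bool := onCell 0 536870912 1610612736 536870912 201326592 134217728
    (rowN 3 0 true true true .pnn 0 3 3 (qsf 0 536870912 1610612736 536870912 3) ndN1q0 ndN2q3 pcN3 Cut.none Ext.none)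

def k0_pp_033 : ∃ t, chk3 f_pp_033 t 1 1 1 = true :=
  ⟨(l 4), by decide +kernel⟩

theorem c_pp_033 : CertN 0 536870912 1610612736 536870912 201326592 134217728 3 true true true .pnn 0 3 3
    ndN1q0 ndN2q3 pcN3 Cut.none Ext.none :=
  certN0 (fam := true) (s1 := true) (s2 := true) (a := 0) (b := 3) (c := 3) (cn := .pnn) (n1 := ndN1q0) (n2 := ndN2q3) (pc := pcN3) (cut := Cut.none) (xt := Ext.none) (P1 := 0) (W1 := 536870912) (P2 := 1610612736) (W2 := 536870912) (P3 := 201326592) (W3 := 134217728) (N0 := 3)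
    rfl k0_pp_033

noncomputable def f_pp_101 : ℕ → ℕ → ℕ → ℕ → Bool := onCell 536870912 536870912 0 536870912 201326592 134217728
    (rowN 3 0 true true true .npn 1 0 1 (qsf 536870912 536870912 0 536870912 1) ndN1q1 ndN2q0 pcN1 Cut.none Ext.none)

def k0_pp_101 : ∃ t, chk3 f_pp_101 t 1 1 1 = true :=
  ⟨(l 4), by decide +kernel⟩

theorem c_pp_101 : CertN 536870912 536870912 0 536870912 201326592 134217728 3 true true true .npn 1 0 1
    ndN1q1 ndN2q0 pcN1 Cut.none Ext.none :=
  certN0 (fam := true) (s1 := true) (s2 := true) (a := 1) (b := 0) (c := 1) (cn := .npn) (n1 := ndN1q1) (n2 := ndN2q0) (pc := pcN1) (cut := Cut.none) (xt := Ext.none) (P1 := 536870912) (W1 := 536870912) (P2 := 0) (W2 := 536870912) (P3 := 201326592) (W3 := 134217728) (N0 := 3)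
    rfl k0_pp_101

noncomputable def f_pp_102 : ℕ → ℕ → ℕ → ℕ → Bool := onCell 536870912 536870912 0 536870912 201326592 134217728
    (rowN 3 0 true true true .npp 1 0 2 (qsf 536870912 536870912 0 536870912 2) ndN1q1 ndN2q0 pcN2 Cut.none Ext.none)

def k0_pp_102 : ∃ t, chk3 f_pp_102 t 1 1 1 = true :=
  ⟨(l 4), by decide +kernel⟩

theorem c_pp_102 : CertN 536870912 536870912 0 536870912 201326592 134217728 3 true true true .npp 1 0 2
    ndN1q1 ndN2q0 pcN2 Cut.none Ext.none :=
  certN0 (fam := true) (s1 := true) (s2 := true) (a := 1) (b := 0) (c := 2) (cn := .npp) (n1 := ndN1q1) (n2 := ndN2q0) (pc := pcN2) (cut := Cut.none) (xt := Ext.none) (P1 := 536870912) (W1 := 536870912) (P2 := 0) (W2 := 536870912) (P3 := 201326592) (W3 := 134217728) (N0 := 3)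
    rfl k0_pp_102

noncomputable def f_pp_112 : ℕ → ℕ → ℕ → ℕ → Bool := onCell 536870912 536870912 536870912 536870912 201326592 134217728
    (rowN 3 0 true true true .dn 1 1 2 (qsf 536870912 536870912 536870912 536870912 2) ndN1q1 ndN2q1 pcN2 Cut.none Ext.none)

def k0_pp_112 : ∃ t, chk3 f_pp_112 t 1 1 1 = true :=
  ⟨(l 4), by decide +kernel⟩

theorem c_pp_112 : CertN 536870912 536870912 536870912 536870912 201326592 134217728 3 true true true .dn 1 1 2
    ndN1q1 ndN2q1 pcN2 Cut.none Ext.none :=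
  certN0 (fam := true) (s1 := true) (s2 := true) (a := 1) (b := 1) (c := 2) (cn := .dn) (n1 := ndN1q1) (n2 := ndN2q1) (pc := pcN2) (cut := Cut.none) (xt := Ext.none) (P1 := 536870912) (W1 := 536870912) (P2 := 536870912) (W2 := 536870912) (P3 := 201326592) (W3 := 134217728) (N0 := 3)
    rfl k0_pp_112

noncomputable def f_pp_113 : ℕ → ℕ → ℕ → ℕ → Bool := onCell 536870912 536870912 536870912 536870912 201326592 134217728
    (rowN 3 0 true true true .nn 1 1 3 (qsf 536870912 536870912 536870912 536870912 3) ndN1q1 ndN2q1 pcN3 Cut.none Ext.none)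

def k0_pp_113 : ∃ t, chk3 f_pp_113 t 1 1 1 = true :=
  ⟨(l 4), by decide +kernel⟩

theorem c_pp_113 : CertN 536870912 536870912 536870912 536870912 201326592 134217728 3 true true true .nn 1 1 3
    ndN1q1 ndN2q1 pcN3 Cut.none Ext.none :=
  certN0 (fam := true) (s1 := true) (s2 := true) (a := 1) (b := 1) (c := 3) (cn := .nn) (n1 := ndN1q1) (n2 := ndN2q1) (pc := pcN3) (cut := Cut.none) (xt := Ext.none) (P1 := 536870912) (W1 := 536870912) (P2 := 536870912) (W2 := 536870912) (P3 := 201326592) (W3 := 134217728) (N0 := 3)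
    rfl k0_pp_113

noncomputable def f_pp_123_a : ℕ → ℕ → ℕ → ℕ → Bool := onCell 536870912 536870912 0 536870912 201326592 134217728
    (rowN 3 0 true true true .npn 1 2 3 (qsf 536870912 536870912 0 536870912 3) ndN1q1 ndN2q2a pcN3 Cut.none Ext.none)

def k0_pp_123_a : ∃ t, chk3 f_pp_123_a t 1 1 1 = true :=
  ⟨(l 4), by decide +kernel⟩

theorem c_pp_123_a : CertN 536870912 536870912 0 536870912 201326592 134217728 3 true true true .npn 1 2 3
    ndN1q1 ndN2q2a pcN3 Cut.none Ext.none :=
  certN0 (fam := true) (s1 := true) (s2 := true) (a := 1) (b := 2) (c := 3) (cn := .npn) (n1 := ndN1q1) (n2 := ndN2q2a) (pc := pcN3) (cut := Cut.none) (xt := Ext.none) (P1 := 536870912) (W1 := 536870912) (P2 := 0) (W2 := 536870912) (P3 := 201326592) (W3 := 134217728) (N0 := 3)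
    rfl k0_pp_123_a

noncomputable def f_pp_123_b : ℕ → ℕ → ℕ → ℕ → Bool := onCell 536870912 536870912 1239849684 370763052 201326592 134217728
    (rowN 3 0 true true true .npn 1 2 3 (qsf 536870912 536870912 1239849684 370763052 3) ndN1q1 ndN2q2b pcN3 Cut.none Ext.none)

def k0_pp_123_b : ∃ t, chk3 f_pp_123_b t 1 1 1 = true :=
  ⟨(l 4), by decide +kernel⟩

theorem c_pp_123_b : CertN 536870912 536870912 1239849684 370763052 201326592 134217728 3 true true true .npn 1 2 3
    ndN1q1 ndN2q2b pcN3 Cut.none Ext.none :=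
  certN0 (fam := true) (s1 := true) (s2 := true) (a := 1) (b := 2) (c := 3) (cn := .npn) (n1 := ndN1q1) (n2 := ndN2q2b) (pc := pcN3) (cut := Cut.none) (xt := Ext.none) (P1 := 536870912) (W1 := 536870912) (P2 := 1239849684) (W2 := 370763052) (P3 := 201326592) (W3 := 134217728) (N0 := 3)
    rfl k0_pp_123_b

noncomputable def f_pp_133 : ℕ → ℕ → ℕ → ℕ → Bool := onCell 536870912 536870912 1610612736 536870912 201326592 134217728
    (rowN 3 0 true true true .dn 1 3 3 (qsf 536870912 536870912 1610612736 536870912 3) ndN1q1 ndN2q3 pcN3 Cut.none Ext.none)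

def k0_pp_133 : ∃ t, chk3 f_pp_133 t 1 1 1 = true :=
  ⟨(l 4), by decide +kernel⟩

theorem c_pp_133 : CertN 536870912 536870912 1610612736 536870912 201326592 134217728 3 true true true .dn 1 3 3
    ndN1q1 ndN2q3 pcN3 Cut.none Ext.none :=
  certN0 (fam := true) (s1 := true) (s2 := true) (a := 1) (b := 3) (c := 3) (cn := .dn) (n1 := ndN1q1) (n2 := ndN2q3) (pc := pcN3) (cut := Cut.none) (xt := Ext.none) (P1 := 536870912) (W1 := 536870912) (P2 := 1610612736) (W2 := 536870912) (P3 := 201326592) (W3 := 134217728) (N0 := 3)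
    rfl k0_pp_133

noncomputable def f_pp_202_a : ℕ → ℕ → ℕ → ℕ → Bool := onCell 0 536870912 0 536870912 201326592 134217728
    (rowN 3 0 true true true .pp 2 0 2 (qsf 0 536870912 0 536870912 2) ndN1q2a ndN2q0 pcN2 Cut.none Ext.none)

def k0_pp_202_a : ∃ t, chk3 f_pp_202_a t 1 1 1 = true :=
  ⟨(l 5), by decide +kernel⟩

theorem c_pp_202_a : CertN 0 536870912 0 536870912 201326592 134217728 3 true true true .pp 2 0 2
    ndN1q2a ndN2q0 pcN2 Cut.none Ext.none :=
  certN0 (fam := true) (s1 := true) (s2 := true) (a := 2) (b := 0) (c := 2) (cn := .pp) (n1 := ndN1q2a) (n2 := ndN2q0) (pc := pcN2) (cut := Cut.none) (xt := Ext.none) (P1 := 0) (W1 := 536870912) (P2 := 0) (W2 := 536870912) (P3 := 201326592) (W3 := 134217728) (N0 := 3)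
    rfl k0_pp_202_a

noncomputable def f_pp_202_b : ℕ → ℕ → ℕ → ℕ → Bool := onCell 1239849684 370763052 0 536870912 201326592 134217728
    (rowN 3 0 true true true .pp 2 0 2 (qsf 1239849684 370763052 0 536870912 2) ndN1q2b ndN2q0 pcN2 Cut.none Ext.none)

def k0_pp_202_b : ∃ t, chk3 f_pp_202_b t 1 1 1 = true :=
  ⟨(l 5), by decide +kernel⟩

theorem c_pp_202_b : CertN 1239849684 370763052 0 536870912 201326592 134217728 3 true true true .pp 2 0 2
    ndN1q2b ndN2q0 pcN2 Cut.none Ext.none :=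
  certN0 (fam := true) (s1 := true) (s2 := true) (a := 2) (b := 0) (c := 2) (cn := .pp) (n1 := ndN1q2b) (n2 := ndN2q0) (pc := pcN2) (cut := Cut.none) (xt := Ext.none) (P1 := 1239849684) (W1 := 370763052) (P2 := 0) (W2 := 536870912) (P3 := 201326592) (W3 := 134217728) (N0 := 3)
    rfl k0_pp_202_b

noncomputable def f_pp_203_a : ℕ → ℕ → ℕ → ℕ → Bool := onCell 0 536870912 0 536870912 201326592 134217728
    (rowN 3 0 true true true .up 2 0 3 (qsf 0 536870912 0 536870912 3) ndN1q2a ndN2q0 pcN3 Cut.none Ext.none)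

def k0_pp_203_a : ∃ t, chk3 f_pp_203_a t 1 1 1 = true :=
  ⟨(l 5), by decide +kernel⟩

theorem c_pp_203_a : CertN 0 536870912 0 536870912 201326592 134217728 3 true true true .up 2 0 3
    ndN1q2a ndN2q0 pcN3 Cut.none Ext.none :=
  certN0 (fam := true) (s1 := true) (s2 := true) (a := 2) (b := 0) (c := 3) (cn := .up) (n1 := ndN1q2a) (n2 := ndN2q0) (pc := pcN3) (cut := Cut.none) (xt := Ext.none) (P1 := 0) (W1 := 536870912) (P2 := 0) (W2 := 536870912) (P3 := 201326592) (W3 := 134217728) (N0 := 3)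
    rfl k0_pp_203_a

noncomputable def f_pp_203_b : ℕ → ℕ → ℕ → ℕ → Bool := onCell 1239849684 370763052 0 536870912 201326592 134217728
    (rowN 3 0 true true true .up 2 0 3 (qsf 1239849684 370763052 0 536870912 3) ndN1q2b ndN2q0 pcN3 Cut.none Ext.none)

def k0_pp_203_b : ∃ t, chk3 f_pp_203_b t 1 1 1 = true :=
  ⟨(l 5), by decide +kernel⟩

theorem c_pp_203_b : CertN 1239849684 370763052 0 536870912 201326592 134217728 3 true true true .up 2 0 3
    ndN1q2b ndN2q0 pcN3 Cut.none Ext.none :=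
  certN0 (fam := true) (s1 := true) (s2 := true) (a := 2) (b := 0) (c := 3) (cn := .up) (n1 := ndN1q2b) (n2 := ndN2q0) (pc := pcN3) (cut := Cut.none) (xt := Ext.none) (P1 := 1239849684) (W1 := 370763052) (P2 := 0) (W2 := 536870912) (P3 := 201326592) (W3 := 134217728) (N0 := 3)
    rfl k0_pp_203_b

noncomputable def f_pp_213_a : ℕ → ℕ → ℕ → ℕ → Bool := onCell 0 536870912 536870912 536870912 201326592 134217728
    (rowN 3 0 true true true .pnn 2 1 3 (qsf 0 536870912 536870912 536870912 3) ndN1q2a ndN2q1 pcN3 Cut.none Ext.none)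

def k0_pp_213_a : ∃ t, chk3 f_pp_213_a t 1 1 1 = true :=
  ⟨(l 4), by decide +kernel⟩

theorem c_pp_213_a : CertN 0 536870912 536870912 536870912 201326592 134217728 3 true true true .pnn 2 1 3
    ndN1q2a ndN2q1 pcN3 Cut.none Ext.none :=
  certN0 (fam := true) (s1 := true) (s2 := true) (a := 2) (b := 1) (c := 3) (cn := .pnn) (n1 := ndN1q2a) (n2 := ndN2q1) (pc := pcN3) (cut := Cut.none) (xt := Ext.none) (P1 := 0) (W1 := 536870912) (P2 := 536870912) (W2 := 536870912) (P3 := 201326592) (W3 := 134217728) (N0 := 3)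
    rfl k0_pp_213_a

noncomputable def f_pp_213_b : ℕ → ℕ → ℕ → ℕ → Bool := onCell 1239849684 370763052 536870912 536870912 201326592 134217728
    (rowN 3 0 true true true .pnn 2 1 3 (qsf 1239849684 370763052 536870912 536870912 3) ndN1q2b ndN2q1 pcN3 Cut.none Ext.none)

def k0_pp_213_b : ∃ t, chk3 f_pp_213_b t 1 1 1 = true :=
  ⟨(l 4), by decide +kernel⟩

theorem c_pp_213_b : CertN 1239849684 370763052 536870912 536870912 201326592 134217728 3 true true true .pnn 2 1 3
    ndN1q2b ndN2q1 pcN3 Cut.none Ext.none :=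
  certN0 (fam := true) (s1 := true) (s2 := true) (a := 2) (b := 1) (c := 3) (cn := .pnn) (n1 := ndN1q2b) (n2 := ndN2q1) (pc := pcN3) (cut := Cut.none) (xt := Ext.none) (P1 := 1239849684) (W1 := 370763052) (P2 := 536870912) (W2 := 536870912) (P3 := 201326592) (W3 := 134217728) (N0 := 3)
    rfl k0_pp_213_b

noncomputable def f_pp_303 : ℕ → ℕ → ℕ → ℕ → Bool := onCell 1610612736 536870912 0 536870912 201326592 134217728
    (rowN 3 0 true true true .npn 3 0 3 (qsf 1610612736 536870912 0 536870912 3) ndN1q3 ndN2q0 pcN3 Cut.none Ext.none)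

def k0_pp_303 : ∃ t, chk3 f_pp_303 t 1 1 1 = true :=
  ⟨(l 5), by decide +kernel⟩

theorem c_pp_303 : CertN 1610612736 536870912 0 536870912 201326592 134217728 3 true true true .npn 3 0 3
    ndN1q3 ndN2q0 pcN3 Cut.none Ext.none :=
  certN0 (fam := true) (s1 := true) (s2 := true) (a := 3) (b := 0) (c := 3) (cn := .npn) (n1 := ndN1q3) (n2 := ndN2q0) (pc := pcN3) (cut := Cut.none) (xt := Ext.none) (P1 := 1610612736) (W1 := 536870912) (P2 := 0) (W2 := 536870912) (P3 := 201326592) (W3 := 134217728) (N0 := 3)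
    rfl k0_pp_303

noncomputable def f_pp_313 : ℕ → ℕ → ℕ → ℕ → Bool := onCell 1610612736 536870912 536870912 536870912 201326592 134217728
    (rowN 3 0 true true true .dn 3 1 3 (qsf 1610612736 536870912 536870912 536870912 3) ndN1q3 ndN2q1 pcN3 Cut.none Ext.none)

def k0_pp_313 : ∃ t, chk3 f_pp_313 t 1 1 1 = true :=
  ⟨(l 4), by decide +kernel⟩

theorem c_pp_313 : CertN 1610612736 536870912 536870912 536870912 201326592 134217728 3 true true true .dn 3 1 3
    ndN1q3 ndN2q1 pcN3 Cut.none Ext.none :=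
  certN0 (fam := true) (s1 := true) (s2 := true) (a := 3) (b := 1) (c := 3) (cn := .dn) (n1 := ndN1q3) (n2 := ndN2q1) (pc := pcN3) (cut := Cut.none) (xt := Ext.none) (P1 := 1610612736) (W1 := 536870912) (P2 := 536870912) (W2 := 536870912) (P3 := 201326592) (W3 := 134217728) (N0 := 3)
    rfl k0_pp_313

noncomputable def f_pm_001 : ℕ → ℕ → ℕ → ℕ → Bool := onCell 0 536870912 0 536870912 201326592 134217728
    (rowN 3 0 true true false .up 0 0 1 (qsf 0 536870912 0 536870912 1) ndN1q0 ndN2q0 pcN1 Cut.none Ext.none)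

def k0_pm_001 : ∃ t, chk3 f_pm_001 t 1 1 1 = true :=
  ⟨(l 3), by decide +kernel⟩

theorem c_pm_001 : CertN 0 536870912 0 536870912 201326592 134217728 3 true true false .up 0 0 1
    ndN1q0 ndN2q0 pcN1 Cut.none Ext.none :=
  certN0 (fam := true) (s1 := true) (s2 := false) (a := 0) (b := 0) (c := 1) (cn := .up) (n1 := ndN1q0) (n2 := ndN2q0) (pc := pcN1) (cut := Cut.none) (xt := Ext.none) (P1 := 0) (W1 := 536870912) (P2 := 0) (W2 := 536870912) (P3 := 201326592) (W3 := 134217728) (N0 := 3)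
    rfl k0_pm_001

noncomputable def f_pm_011 : ℕ → ℕ → ℕ → ℕ → Bool := onCell 0 536870912 536870912 536870912 201326592 134217728
    (rowN 3 1 true true false .pnn 0 1 1 (qsf 0 536870912 536870912 536870912 1) ndN1q0 ndN2q1 pcN1 Cut.none Ext.none)

def k0_pm_011 : ∃ t, chk3 f_pm_011 t 1 1 1 = true :=
  ⟨(b (l 3) (b (l 3) (l 3))), by decide +kernel⟩

theorem c_pm_011 : CertN 0 536870912 536870912 536870912 201326592 134217728 3 true true false .pnn 0 1 1
    ndN1q0 ndN2q1 pcN1 Cut.none Ext.none :=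
  certN1 (fam := true) (s1 := true) (s2 := false) (a := 0) (b := 1) (c := 1) (cn := .pnn) (n1 := ndN1q0) (n2 := ndN2q1) (pc := pcN1) (cut := Cut.none) (xt := Ext.none) (P1 := 0) (W1 := 536870912) (P2 := 536870912) (W2 := 536870912) (P3 := 201326592) (W3 := 134217728) (N0 := 3)
    rfl (fun _ => rfl) k0_pm_011

noncomputable def f_pm_012 : ℕ → ℕ → ℕ → ℕ → Bool := onCell 1073741824 536870912 536870912 536870912 201326592 134217728
    (rowN 3 2 true true false .pnp 0 1 2 (qsf 0 536870912 536870912 536870912 2) ndN1q0 ndN2q1 pcN2 Cut.none Ext.none)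

def k0_pm_012 : ∃ t, chk3 f_pm_012 t 1 1 1 = true :=
  ⟨(a (a (b (a (l 3) (a (l 3) (b (l 17178880) (l 17222592)))) (a (b (l 3) (l 3)) (b (a (l 3) (b (l 16980104) (l 16568672))) (a (b (l 145122709063) (b (l 126869124679) (a (l 3) (c (l 16538168) (l 16578824))))) (b (b (l 16512040) (l 16575344)) (b (a (l 16477888) (l 16451504)) (b (l 16683848) (b (l 16656752) (l 16687576))))))))) (a (b (b (a (a (l 17215064) (l 2)) (l 2)) (a (a (l 17237560) (a (l 17261760) (a (l 17274496) (a (l 17281120) (l 17284976))))) (l 17322464))) (a (a (b (b (l 17082552) (l 16749728)) (b (l 16370640) (b (l 16425464) (l 16502904)))) (a (b (l 17016416) (b (l 16354472) (l 16530464))) (a (b (l 17047856) (b (l 16349912) (l 16466424))) (b (a (l 17062904) (l 17072096)) (b (l 16360200) (l 16494768)))))) (b (b (l 17240480) (l 17025480)) (b (l 16504704) (b (l 16394056) (l 16425856)))))) (b (b (l 2) (l 17418848)) (b (b (l 17411728) (l 17303184)) (b (l 17006200) (b (l 16528472) (l 16350096))))))) (a (b (b (l 2) (l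 17557456)) (b (b (l 17658696) (l 17687752)) (b (a (l 17475432) (l 17782928)) (a (c (l 17644720) (l 16666496)) (l 17687640))))) (b (l 2) (b (l 17876720) (b (l 18044768) (l 18117944)))))), by decide +kernel⟩

theorem c_pm_012 : CertN 0 536870912 536870912 536870912 201326592 134217728 3 true true false .pnp 0 1 2
    ndN1q0 ndN2q1 pcN2 Cut.none Ext.none :=
  certN2 (fam := true) (s1 := true) (s2 := false) (a := 0) (b := 1) (c := 2) (cn := .pnp) (n1 := ndN1q0) (n2 := ndN2q1) (pc := pcN2) (cut := Cut.none) (xt := Ext.none) (P1 := 0) (W1 := 536870912) (P2 := 536870912) (W2 := 536870912) (P3 := 201326592) (W3 := 134217728) (N0 := 3)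
    rfl (fun _ => rfl) k0_pm_012

noncomputable def cut_pm_022_a : Cut := Cut.of [[⟨0, 0, 0, 67108864⟩, ⟨1, 1, 0, 67108864⟩, ⟨2, 1, 0, 67108864⟩]]

noncomputable def f_pm_022_a : ℕ → ℕ → ℕ → ℕ → Bool := onCell 1073741824 536870912 0 536870912 201326592 134217728
    (rowN 3 2 true true false .pp 0 2 2 (qsf 0 536870912 0 536870912 2) ndN1q0 ndN2q2a pcN2 cut_pm_022_a Ext.none)

def k0_pm_022_a : ∃ t, chk3 f_pm_022_a t 2 2 1 = true :=
  ⟨(a (b (l 1) (a (l 1) (a (l 1) (a (l 1) (b (l 1) (b (l 1) (a (l 1) (c (c (l 175589961447) (l 175053081847)) (l 183106141111))))))))) (a (a (a (b (l 1) (b (a (l 1) (c (c (l 182032331591) (l 167536838967)) (l 171294929079))) (a (c (b (c (l 173979317031) (l 172905565271)) (c (l 16568224) (l 16541816))) (b (l 179884881703) (l 16554544))) (b (c (c (l 16534016) (l 16528000)) (l 16539888)) (c (l 16529760) (l 16519456)))))) (a (b (b (l 1) (b (l 1) (c (l 154651916247) (l 155188762695)))) (b (c (c (l 200822819687) (l 206191518503)) (l 208338996183)) (c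 (l 16536440) (l 16525880)))) (b (c (a (b (l 1) (c (l 16511960) (l 16504376))) (a (b (l 155725617255) (c (l 16506680) (l 16499144))) (b (c (l 16504144) (l 16496176)) (b (l 16520760) (l 16499296))))) (a (b (l 1) (l 16513984)) (b (a (l 16487520) (l 16505248)) (a (l 16487904) (l 16505584))))) (b (c (a (l 16527832) (a (l 16501488) (l 16519032))) (a (l 16493672) (l 16549496))) (c (a (l 16504296) (l 16559672)) (a (l 16494120) (l 16528752))))))) (b (a (c (a (b (l 16492008) (l 16491272)) (l 16509232)) (b (l 16491368) (l 16491472))) (c (l 16499960) (l 16485016))) (a (b (c (l 16504400) (l 16491600)) (c (l 16480112) (l 16470312))) (b (l 16500816) (l 16494344))))) (a (b (c (l 16525856) (l 16467952)) (c (l 16513752) (l 16497336))) (b (l 16464592) (c (l 16608560) (l 16432272)))))), by decide +kernel⟩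

def k1_pm_022_a : ∃ t, chk3 f_pm_022_a t 4 6 1 = true :=
  ⟨(a (l 1) (a (b (l 1) (a (b (l 1) (a (l 1) (b (c (a (l 1) (l 135861622743)) (l 155725836567)) (c (c (l 190085596183) (l 199212394983)) (a (l 170758249335) (l 214781650983)))))) (b (a (c (c (l 146062153015) (l 155188949607)) (l 168073858375)) (c (c (a (l 156262680215) (l 180421879559)) (l 177200651447)) (b (l 184716808631) (l 193843651783)))) (a (b (c (c (l 170221370919) (l 175590072695)) (l 179885036007)) (c (c (l 16633144) (l 16630032)) (l 16625208))) (c (b (l 16638208) (l 16617344)) (l 16632008)))))) (a (b (a (b (l 1) (b (l 1) (c (c (l 176663739607) (l 164852597143)) (l 175053136567)))) (b (c (c (l 153578263831) (l 159483832599)) (l 168073749687)) (c (c (l 192769873079) (l 189548639767)) (b (l 175053110119) (l 16579232))))) (c (b (a (b (c (l 199212345111) (l 16621472)) (l 16602592)) (l 16608680)) (l 16626216)) (b (a (b (l 208876009863) (l 16595296)) (l 16580664)) (l 16610728)))) (b (a (b (c (c (l 179884943319)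 (l 185253642887)) (l 194380442967)) (c (b (l 16573344) (l 16572768)) (l 16564592))) (c (b (c (l 16582160) (l 16577320)) (l 16578288)) (b (l 16580416) (l 16549824)))) (c (b (l 16628192) (l 16613848)) (b (l 16622376) (l 16591432))))))), by decide +kernel⟩

def k2_pm_022_a : ∃ t, chk3 f_pm_022_a t 4 7 1 = true :=
  ⟨(a (a (b (l 1) (l 6)) (a (b (b (l 1) (l 6)) (l 6)) (a (b (b (l 1) (l 6)) (l 6)) (a (b (b (b (l 1) (b (l 1) (l 6))) (l 6)) (l 6)) (b (b (b (l 1) (c (c (l 184180072231) (l 191159390727)) (l 201359934983))) (c (b (l 16670648) (l 16671968)) (l 16686176))) (b (l 16685824) (l 16724192))))))) (a (b (a (b (a (b (c (c (a (l 158410245575) (l 190085625943)) (l 191696229943)) (a (l 177737582871) (l 208339228103))) (c (c (l 206728648151) (l 16679472)) (b (l 16675128) (l 16655312)))) (c (b (c (l 16647088) (l 16644320)) (l 16646336)) (b (l 16660960) (l 16641896)))) (c (b (l 16674992) (l 16655240)) (b (l 16671480) (l 16654640)))) (b (c (b (l 16645688) (l 16624744)) (l 16652160))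 (l 16655816))) (b (c (l 16682424) (l 16679328)) (a (l 16721936) (l 16720560)))) (a (b (b (l 16626656) (l 16641408)) (b (l 16680168) (l 16721960))) (b (c (l 16730824) (l 16634128)) (a (l 16703648) (l 16726736)))))), by decide +kernel⟩

def k3_pm_022_a : ∃ t, chk3 f_pm_022_a t 5 3 1 = true :=
  ⟨(a (a (a (b (b (c (b (a (l 16543152) (l 16528056)) (l 16576168)) (b (l 16590504) (l 16548848))) (b (l 16596688) (l 16594088))) (b (b (l 16607704) (l 16645184)) (a (l 16708016) (l 16709424)))) (b (b (a (l 16553272) (c (l 16617008) (l 16606160))) (a (l 16558848) (b (l 16648624) (l 16659800)))) (a (b (l 16607840) (l 16711128)) (b (a (l 16629560) (l 16651152)) (a (l 16712336) (l 16755192)))))) (b (b (c (l 16559008) (l 16537944)) (a (l 16558520) (l 16559880))) (b (l 16752552) (a (l 16713104) (l 16716296))))) (b (a (b (l 16561176) (l 16579680)) (c (l 16646512) (l 16527456))) (a (b (l 16631424) (l 16717208)) (b (l 16631848) (l 16719152))))), by decide +kernel⟩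

def k4_pm_022_a : ∃ t, chk3 f_pm_022_a t 3 1 1 = true :=
  ⟨(a (a (b (a (b (l 16534064) (l 16548248)) (b (l 16806168) (l 16809496))) (b (a (l 16601304) (l 16832664)) (a (l 16760640) (b (l 16881136) (l 16937992))))) (b (a (b (l 16995448) (l 16991776)) (l 17124024)) (b (a (l 16994728) (l 17112080)) (a (l 17029664) (l 17119928))))) (a (b (a (l 17222096) (l 17296008)) (a (b (l 17206048) (l 17200792)) (b (l 17279064) (l 17265968)))) (b (l 17366312) (b (l 17346960) (l 17323992))))), by decide +kernel⟩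

theorem s5_pm_022_a : ∃ t, chk3 f_pm_022_a t 4 3 1 = true := ex3_b k1_pm_022_a k2_pm_022_a

theorem s6_pm_022_a : ∃ t, chk3 f_pm_022_a t 2 3 1 = true := ex3_a s5_pm_022_a k3_pm_022_a

theorem s7_pm_022_a : ∃ t, chk3 f_pm_022_a t 2 1 1 = true := ex3_b k0_pm_022_a s6_pm_022_a

theorem s8_pm_022_a : ∃ t, chk3 f_pm_022_a t 1 1 1 = true := ex3_a s7_pm_022_a k4_pm_022_a

theorem c_pm_022_a : CertN 0 536870912 0 536870912 201326592 134217728 3 true true false .pp 0 2 2
    ndN1q0 ndN2q2a pcN2 cut_pm_022_a Ext.none :=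
  certN2 (fam := true) (s1 := true) (s2 := false) (a := 0) (b := 2) (c := 2) (cn := .pp) (n1 := ndN1q0) (n2 := ndN2q2a) (pc := pcN2) (cut := cut_pm_022_a) (xt := Ext.none) (P1 := 0) (W1 := 536870912) (P2 := 0) (W2 := 536870912) (P3 := 201326592) (W3 := 134217728) (N0 := 3)
    rfl (fun _ => rfl) s8_pm_022_a

noncomputable def cut_pm_022_b : Cut := Cut.of [[⟨0, 0, 0, 67108864⟩, ⟨1, 1, 0, 67108864⟩, ⟨2, 1, 0, 67108864⟩]]

noncomputable def f_pm_022_b : ℕ → ℕ → ℕ → ℕ → Bool := onCell 0 536870912 1073741824 536870912 201326592 134217728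
    (rowN 3 1 true true false .pp 0 2 2 (qsf 0 536870912 1239849684 370763052 2) ndN1q0 ndN2q2b pcN2 cut_pm_022_b Ext.none)

def k0_pm_022_b : ∃ t, chk3 f_pm_022_b t 1 1 1 = true :=
  ⟨(a (b (a (b (l 1) (b (a (b (b (l 1) (b (l 1) (a (a (a (b (l 1) (b (l 1) (c (l 16520896) (l 16484624)))) (l 1)) (l 1)) (l 1)))) (a (a (c (b (b (l 16512896) (l 16479232)) (c (l 16466688) (l 16456928))) (b (l 16491336) (l 16463616))) (c (l 16559808) (l 16544776))) (c (l 16566736) (l 16567128)))) (l 1)) (b (a (a (c (a (b (l 16459896) (l 16417928)) (l 16490728)) (b (l 16458712) (l 16413184))) (c (l 16486136) (l 16469152))) (c (l 113849668807) (l 113312773959))) (a (a (a (c (b (l 16530648) (l 16760672)) (l 16423112)) (c (l 16632128) (l 16381112))) (c (l 16612080) (l 16380304))) (c (l 16606760) (l 16414288)))))) (l 1)) (b (b (a (a (b (c (a (b (l 16777504) (l 17115312)) (l 16983200)) (a (b (l 16331504) (l 16317280)) (l 16323776))) (b (a (c (l 17263712) (l 16398792)) (l 16794664)) (c (l 17361424) (l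 16566904)))) (b (a (l 16523528) (l 16531936)) (c (l 17190480) (l 16454832)))) (a (b (l 16586616) (l 16807288)) (l 1))) (a (b (b (a (c (l 17474200) (l 16728312)) (l 17013720)) (a (c (l 17573240) (l 16873144)) (l 17123832))) (a (c (l 17697520) (a (l 17087432) (l 17035752))) (c (l 17564488) (l 16964064)))) (b (a (l 17005096) (l 16990968)) (a (l 17174776) (l 17121128))))) (b (a (b (a (c (l 17817320) (b (l 17203032) (l 17270184))) (l 17411872)) (a (l 17633880) (l 17522496))) (b (l 17272872) (l 17380680))) (a (c (l 17948024) (l 17454328)) (l 17508520))))) (a (b (l 1) (b (l 1) (b (b (l 17190696) (l 17270576)) (l 17370200)))) (l 1))), by decide +kernel⟩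

theorem c_pm_022_b : CertN 0 536870912 1239849684 370763052 201326592 134217728 3 true true false .pp 0 2 2
    ndN1q0 ndN2q2b pcN2 cut_pm_022_b Ext.none :=
  certN1 (fam := true) (s1 := true) (s2 := false) (a := 0) (b := 2) (c := 2) (cn := .pp) (n1 := ndN1q0) (n2 := ndN2q2b) (pc := pcN2) (cut := cut_pm_022_b) (xt := Ext.none) (P1 := 0) (W1 := 536870912) (P2 := 1239849684) (W2 := 370763052) (P3 := 201326592) (W3 := 134217728) (N0 := 3)
    rfl (fun _ => rfl) k0_pm_022_b

noncomputable def f_pm_023_a : ℕ → ℕ → ℕ → ℕ → Bool := onCell 1610612736 536870912 0 536870912 201326592 134217728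
    (rowN 3 2 true true false .up 0 2 3 (qsf 0 536870912 0 536870912 3) ndN1q0 ndN2q2a pcN3 Cut.none Ext.none)

def k0_pm_023_a : ∃ t, chk3 f_pm_023_a t 1 1 1 = true :=
  ⟨(a (a (b (l 17446552) (c (l 17582304) (b (l 17277240) (l 17262888)))) (b (a (l 17450592) (l 2)) (a (l 17552664) (l 2)))) (l 2)), by decide +kernel⟩

theorem c_pm_023_a : CertN 0 536870912 0 536870912 201326592 134217728 3 true true false .up 0 2 3
    ndN1q0 ndN2q2a pcN3 Cut.none Ext.none :=
  certN2 (fam := true) (s1 := true) (s2 := false) (a := 0) (b := 2) (c := 3) (cn := .up) (n1 := ndN1q0) (n2 := ndN2q2a) (pc := pcN3) (cut := Cut.none) (xt := Ext.none) (P1 := 0) (W1 := 536870912) (P2 := 0) (W2 := 536870912) (P3 := 201326592) (W3 := 134217728) (N0 := 3)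
    rfl (fun _ => rfl) k0_pm_023_a

noncomputable def f_pm_023_b : ℕ → ℕ → ℕ → ℕ → Bool := onCell 1610612736 536870912 1239849684 370763052 201326592 134217728
    (rowN 3 2 true true false .up 0 2 3 (qsf 0 536870912 1239849684 370763052 3) ndN1q0 ndN2q2b pcN3 Cut.none Ext.none)

def k0_pm_023_b : ∃ t, chk3 f_pm_023_b t 1 1 1 = true :=
  ⟨(a (a (b (c (l 17699320) (l 17368384)) (a (c (l 17913592) (l 17580816)) (l 17712528))) (b (a (l 17502240) (l 17471808)) (a (l 17660048) (l 17600144)))) (a (a (b (l 17446656) (l 17539832)) (b (l 17425392) (l 17481488))) (l 4))), by decide +kernel⟩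

theorem c_pm_023_b : CertN 0 536870912 1239849684 370763052 201326592 134217728 3 true true false .up 0 2 3
    ndN1q0 ndN2q2b pcN3 Cut.none Ext.none :=
  certN2 (fam := true) (s1 := true) (s2 := false) (a := 0) (b := 2) (c := 3) (cn := .up) (n1 := ndN1q0) (n2 := ndN2q2b) (pc := pcN3) (cut := Cut.none) (xt := Ext.none) (P1 := 0) (W1 := 536870912) (P2 := 1239849684) (W2 := 370763052) (P3 := 201326592) (W3 := 134217728) (N0 := 3)
    rfl (fun _ => rfl) k0_pm_023_b

noncomputable def f_pm_033 : ℕ → ℕ → ℕ → ℕ → Bool := onCell 0 536870912 1610612736 536870912 201326592 134217728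
    (rowN 3 1 true true false .pnn 0 3 3 (qsf 0 536870912 1610612736 536870912 3) ndN1q0 ndN2q3 pcN3 Cut.none Ext.none)

def k0_pm_033 : ∃ t, chk3 f_pm_033 t 1 1 1 = true :=
  ⟨(b (b (a (a (c (l 17961456) (b (l 17656936) (l 17686016))) (l 277598050663)) (l 1)) (a (b (a (l 17979920) (l 17680512)) (a (l 17861752) (l 17697440))) (b (l 1) (l 17412872)))) (b (a (b (a (l 18004208) (l 17695248)) (l 4)) (b (l 83787246519) (l 17452224))) (l 4))), by decide +kernel⟩

theorem c_pm_033 : CertN 0 536870912 1610612736 536870912 201326592 134217728 3 true true false .pnn 0 3 3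
    ndN1q0 ndN2q3 pcN3 Cut.none Ext.none :=
  certN1 (fam := true) (s1 := true) (s2 := false) (a := 0) (b := 3) (c := 3) (cn := .pnn) (n1 := ndN1q0) (n2 := ndN2q3) (pc := pcN3) (cut := Cut.none) (xt := Ext.none) (P1 := 0) (W1 := 536870912) (P2 := 1610612736) (W2 := 536870912) (P3 := 201326592) (W3 := 134217728) (N0 := 3)
    rfl (fun _ => rfl) k0_pm_033

noncomputable def f_pm_101 : ℕ → ℕ → ℕ → ℕ → Bool := onCell 536870912 536870912 0 536870912 201326592 134217728
    (rowN 3 2 true true false .npn 1 0 1 (qsf 536870912 536870912 0 536870912 1) ndN1q1 ndN2q0 pcN1 Cut.none Ext.none)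

def k0_pm_101 : ∃ t, chk3 f_pm_101 t 1 1 1 = true :=
  ⟨(a (l 3) (l 3)), by decide +kernel⟩

theorem c_pm_101 : CertN 536870912 536870912 0 536870912 201326592 134217728 3 true true false .npn 1 0 1
    ndN1q1 ndN2q0 pcN1 Cut.none Ext.none :=
  certN2 (fam := true) (s1 := true) (s2 := false) (a := 1) (b := 0) (c := 1) (cn := .npn) (n1 := ndN1q1) (n2 := ndN2q0) (pc := pcN1) (cut := Cut.none) (xt := Ext.none) (P1 := 536870912) (W1 := 536870912) (P2 := 0) (W2 := 536870912) (P3 := 201326592) (W3 := 134217728) (N0 := 3)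
    rfl (fun _ => rfl) k0_pm_101

noncomputable def f_pm_102 : ℕ → ℕ → ℕ → ℕ → Bool := onCell 536870912 536870912 1073741824 536870912 201326592 134217728
    (rowN 3 1 true true false .npp 1 0 2 (qsf 536870912 536870912 0 536870912 2) ndN1q1 ndN2q0 pcN2 Cut.none Ext.none)

def k0_pm_102 : ∃ t, chk3 f_pm_102 t 1 1 1 = true :=
  ⟨(a (b (b (b (l 3) (a (l 17083008) (l 3))) (b (b (b (l 16975888) (a (l 2) (b (l 16949632) (l 17108824)))) (l 16929352)) (l 16984464))) (a (l 2) (l 17149376))) (b (b (b (l 3) (l 3)) (b (b (b (a (l 17047752) (a (l 16985680) (l 16924952))) (a (b (l 17035088) (b (l 17028136) (l 17021656))) (b (a (l 16967584) (l 16905624)) (b (a (l 16958552) (l 16896272)) (a (l 16992296) (b (l 16889880) (l 16885288))))))) (a (l 16991312) (a (l 16912232) (l 16846544)))) (a (l 16957464) (a (l 16811016) (l 16729904))))) (a (b (l 17029712) (l 17139064)) (b (a (l 17078752) (l 17206008)) (a (l 17285712) (l 17352744)))))), by decide +kernel⟩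

theorem c_pm_102 : CertN 536870912 536870912 0 536870912 201326592 134217728 3 true true false .npp 1 0 2
    ndN1q1 ndN2q0 pcN2 Cut.none Ext.none :=
  certN1 (fam := true) (s1 := true) (s2 := false) (a := 1) (b := 0) (c := 2) (cn := .npp) (n1 := ndN1q1) (n2 := ndN2q0) (pc := pcN2) (cut := Cut.none) (xt := Ext.none) (P1 := 536870912) (W1 := 536870912) (P2 := 0) (W2 := 536870912) (P3 := 201326592) (W3 := 134217728) (N0 := 3)
    rfl (fun _ => rfl) k0_pm_102

noncomputable def f_pm_112 : ℕ → ℕ → ℕ → ℕ → Bool := onCell 536870912 536870912 1073741824 536870912 201326592 134217728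
    (rowN 3 1 true true false .dn 1 1 2 (qsf 536870912 536870912 536870912 536870912 2) ndN1q1 ndN2q1 pcN2 Cut.none Ext.none)

def k0_pm_112 : ∃ t, chk3 f_pm_112 t 1 1 1 = true :=
  ⟨(a (b (b (b (l 3) (b (l 3) (l 193979895335))) (b (b (b (l 17430552) (b (l 17450752) (b (l 17460464) (b (l 17465536) (l 17468816))))) (l 17496176)) (l 17571840))) (b (a (l 17790920) (l 17661592)) (a (l 18038240) (l 17810368)))) (b (b (l 1) (b (l 1) (l 435974871079))) (b (l 371550371287) (l 17594784)))), by decide +kernel⟩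

theorem c_pm_112 : CertN 536870912 536870912 536870912 536870912 201326592 134217728 3 true true false .dn 1 1 2
    ndN1q1 ndN2q1 pcN2 Cut.none Ext.none :=
  certN1 (fam := true) (s1 := true) (s2 := false) (a := 1) (b := 1) (c := 2) (cn := .dn) (n1 := ndN1q1) (n2 := ndN2q1) (pc := pcN2) (cut := Cut.none) (xt := Ext.none) (P1 := 536870912) (W1 := 536870912) (P2 := 536870912) (W2 := 536870912) (P3 := 201326592) (W3 := 134217728) (N0 := 3)
    rfl (fun _ => rfl) k0_pm_112

noncomputable def f_pm_113 : ℕ → ℕ → ℕ → ℕ → Bool := onCell 536870912 536870912 1610612736 536870912 201326592 134217728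
    (rowN 3 1 true true false .nn 1 1 3 (qsf 536870912 536870912 536870912 536870912 3) ndN1q1 ndN2q1 pcN3 Cut.none Ext.none)

def k0_pm_113 : ∃ t, chk3 f_pm_113 t 1 1 1 = true :=
  ⟨(a (b (b (a (l 18274672) (l 17948304)) (a (b (l 18486176) (l 2)) (l 18168688))) (b (a (l 2) (b (a (l 2) (l 18222864)) (l 2))) (l 2))) (a (b (b (l 17684344) (l 17794872)) (b (l 17899760) (b (a (l 2) (l 17880544)) (l 2)))) (b (b (l 17492920) (l 17438192)) (b (l 17504744) (b (l 17548744) (b (l 17617208) (b (l 17681104) (l 4)))))))), by decide +kernel⟩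

theorem c_pm_113 : CertN 536870912 536870912 536870912 536870912 201326592 134217728 3 true true false .nn 1 1 3
    ndN1q1 ndN2q1 pcN3 Cut.none Ext.none :=
  certN1 (fam := true) (s1 := true) (s2 := false) (a := 1) (b := 1) (c := 3) (cn := .nn) (n1 := ndN1q1) (n2 := ndN2q1) (pc := pcN3) (cut := Cut.none) (xt := Ext.none) (P1 := 536870912) (W1 := 536870912) (P2 := 536870912) (W2 := 536870912) (P3 := 201326592) (W3 := 134217728) (N0 := 3)
    rfl (fun _ => rfl) k0_pm_113

noncomputable def f_pm_123_a : ℕ → ℕ → ℕ → ℕ → Bool := onCell 1610612736 536870912 0 536870912 201326592 134217728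
    (rowN 3 2 true true false .npn 1 2 3 (qsf 536870912 536870912 0 536870912 3) ndN1q1 ndN2q2a pcN3 Cut.none Ext.none)

def k0_pm_123_a : ∃ t, chk3 f_pm_123_a t 1 1 1 = true :=
  ⟨(a (a (b (l 17173320) (l 17468544)) (b (a (l 17117136) (l 17064944)) (a (l 17169328) (l 17111848)))) (a (a (b (l 17008536) (l 17051128)) (b (l 16956640) (l 17244888))) (a (b (l 4) (b (l 4) (l 16989464))) (l 4)))), by decide +kernel⟩

theorem c_pm_123_a : CertN 536870912 536870912 0 536870912 201326592 134217728 3 true true false .npn 1 2 3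
    ndN1q1 ndN2q2a pcN3 Cut.none Ext.none :=
  certN2 (fam := true) (s1 := true) (s2 := false) (a := 1) (b := 2) (c := 3) (cn := .npn) (n1 := ndN1q1) (n2 := ndN2q2a) (pc := pcN3) (cut := Cut.none) (xt := Ext.none) (P1 := 536870912) (W1 := 536870912) (P2 := 0) (W2 := 536870912) (P3 := 201326592) (W3 := 134217728) (N0 := 3)
    rfl (fun _ => rfl) k0_pm_123_a

noncomputable def f_pm_123_b : ℕ → ℕ → ℕ → ℕ → Bool := onCell 1610612736 536870912 1239849684 370763052 201326592 134217728
    (rowN 3 2 true true false .npn 1 2 3 (qsf 536870912 536870912 1239849684 370763052 3) ndN1q1 ndN2q2b pcN3 Cut.none Ext.none)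

def k0_pm_123_b : ∃ t, chk3 f_pm_123_b t 1 1 1 = true :=
  ⟨(a (a (l 1) (b (a (l 17062592) (l 17019144)) (l 1))) (a (a (b (l 16967176) (l 1)) (b (l 16920664) (l 16897416))) (l 4))), by decide +kernel⟩

theorem c_pm_123_b : CertN 536870912 536870912 1239849684 370763052 201326592 134217728 3 true true false .npn 1 2 3
    ndN1q1 ndN2q2b pcN3 Cut.none Ext.none :=
  certN2 (fam := true) (s1 := true) (s2 := false) (a := 1) (b := 2) (c := 3) (cn := .npn) (n1 := ndN1q1) (n2 := ndN2q2b) (pc := pcN3) (cut := Cut.none) (xt := Ext.none) (P1 := 536870912) (W1 := 536870912) (P2 := 1239849684) (W2 := 370763052) (P3 := 201326592) (W3 := 134217728) (N0 := 3)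
    rfl (fun _ => rfl) k0_pm_123_b

noncomputable def f_pm_133 : ℕ → ℕ → ℕ → ℕ → Bool := onCell 536870912 536870912 1610612736 536870912 201326592 134217728
    (rowN 3 0 true true false .dn 1 3 3 (qsf 536870912 536870912 1610612736 536870912 3) ndN1q1 ndN2q3 pcN3 Cut.none Ext.none)

def k0_pm_133 : ∃ t, chk3 f_pm_133 t 1 1 1 = true :=
  ⟨(l 4), by decide +kernel⟩

theorem c_pm_133 : CertN 536870912 536870912 1610612736 536870912 201326592 134217728 3 true true false .dn 1 3 3
    ndN1q1 ndN2q3 pcN3 Cut.none Ext.none :=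
  certN0 (fam := true) (s1 := true) (s2 := false) (a := 1) (b := 3) (c := 3) (cn := .dn) (n1 := ndN1q1) (n2 := ndN2q3) (pc := pcN3) (cut := Cut.none) (xt := Ext.none) (P1 := 536870912) (W1 := 536870912) (P2 := 1610612736) (W2 := 536870912) (P3 := 201326592) (W3 := 134217728) (N0 := 3)
    rfl k0_pm_133

noncomputable def cut_pm_202_a : Cut := Cut.of [[⟨0, 1, 0, 67108864⟩, ⟨1, 0, 0, 67108864⟩, ⟨2, 1, 0, 67108864⟩]]

noncomputable def f_pm_202_a : ℕ → ℕ → ℕ → ℕ → Bool := onCell 0 536870912 1073741824 536870912 201326592 134217728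
    (rowN 3 1 true true false .pp 2 0 2 (qsf 0 536870912 0 536870912 2) ndN1q2a ndN2q0 pcN2 cut_pm_202_a Ext.none)

def k0_pm_202_a : ∃ t, chk3 f_pm_202_a t 2 2 1 = true :=
  ⟨(a (b (l 1) (b (b (b (l 1) (b (a (l 1) (a (l 1) (b (l 1) (c (l 284037696311) (l 16474408))))) (b (a (l 1) (c (a (l 282427078647) (l 16493416)) (l 311955018951))) (c (a (b (a (l 16481112) (l 16483440)) (a (l 16502392) (l 16504600))) (b (c (l 16452848) (l 16439696)) (c (l 16510512) (l 16513200)))) (a (b (a (l 16461864) (l 16464744)) (a (l 16483240) (l 16486024))) (b (a (l 16469424) (l 16475816)) (l 16514936))))))) (b (c (a (b (l 16483288) (l 16464928)) (b (l 16470144) (l 16472008))) (a (l 16506736) (l 16515064))) (a (l 16512808) (l 16519256)))) (b (a (l 16565016) (l 16589576)) (l 16526800)))) (b (a (l 1) (a (l 1) (b (l 1) (b (l 1) (b (l 1) (b (l 1) (c (c (l 338261756455) (l 315713166871)) (l 282427165959)))))))) (b (b (b (b (a (l 1) (c (a (b (l 295312014215) (l 320008117191)) (b (l 371010884999) (l 16519056)))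 (a (a (l 281890299527) (l 330208695063)) (b (l 16541448) (l 16519792))))) (a (c (a (l 260415396983) (b (l 298533252375) (l 325913669287))) (a (l 229813726951) (l 299070071687))) (c (a (c (l 16523416) (l 16525192)) (l 16517560)) (a (l 258267885831) (l 16518552))))) (b (a (c (a (b (l 306049421831) (l 16479752)) (b (l 16489936) (l 16489592))) (b (a (l 16471408) (l 16492352)) (l 351146633143))) (c (l 16551576) (l 16553264))) (a (c (b (a (l 16480416) (l 16490040)) (b (l 16485768) (l 16527640))) (b (l 16467264) (b (l 16488744) (l 16488848)))) (b (c (l 16508800) (l 16510904)) (b (l 16552152) (c (l 16508080) (l 16510696))))))) (b (a (c (l 16468720) (l 16488448)) (c (l 16506616) (l 16510112))) (c (l 16562704) (l 16567656)))) (b (a (l 16601808) (l 16600880)) (l 16586640))))), by decide +kernel⟩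

def k1_pm_202_a : ∃ t, chk3 f_pm_202_a t 2 3 1 = true :=
  ⟨(b (b (a (l 16748320) (b (l 16555504) (l 16835224))) (a (l 17102032) (l 17108744))) (b (a (l 17288064) (l 17310952)) (l 17363016))), by decide +kernel⟩

def k2_pm_202_a : ∃ t, chk3 f_pm_202_a t 6 2 1 = true :=
  ⟨(b (a (b (l 1) (b (l 1) (b (a (b (l 1) (c (b (l 1) (l 361884096759)) (l 331819296663))) (b (c (a (l 1) (b (l 302828361383) (l 331819379735))) (l 386043327527)) (c (b (l 340946174743) (l 367252832215)) (l 332356230311)))) (b (a (c (a (l 366715912743) (l 346851704807)) (l 281353439607)) (c (l 16549464) (l 16549560))) (a (c (c (l 384432703719) (l 16576040)) (l 326450590695)) (c (l 16550080) (l 16549456))))))) (b (l 1) (b (b (a (l 1) (b (l 1) (a (c (b (l 1) (l 299070339927)) (l 317323945991)) (c (c (l 355978697847) (l 362957993671)) (l 374769167047))))) (a (b (c (a (l 1) (b (l 1) (l 311418355815))) (l 329135106311)) (c (c (a (l 321081984759) (l 345778076631)) (l 308733993879)) (a (l 393559541943) (l 355441752615))))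 (b (a (c (b (l 316787088391) (l 366716073271)) (l 329135101703)) (c (l 16627496) (l 16611896))) (c (a (l 16618552) (l 16602984)) (l 16595136))))) (b (a (c (a (b (l 367252884567) (l 16562672)) (l 16593392)) (l 372084730199)) (c (l 16587144) (l 16587464))) (a (b (l 16567600) (l 16568192)) (b (l 16587416) (l 16588336))))))) (b (b (b (a (b (c (a (l 16534232) (l 16550768)) (l 16529032)) (a (l 16575360) (l 16549640))) (a (l 16672352) (l 16609048))) (b (a (c (l 16540680) (l 16540688)) (l 16578728)) (a (b (l 16540512) (b (l 16540088) (l 16539536))) (b (l 16578400) (l 16578336))))) (b (a (l 16558464) (l 16575032)) (a (l 16541096) (l 16578176)))) (b (a (l 16544480) (l 16581408)) (l 16618896)))), by decide +kernel⟩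

def k3_pm_202_a : ∃ t, chk3 f_pm_202_a t 7 2 1 = true :=
  ⟨(b (a (b (a (b (l 1) (b (l 1) (b (l 1) (a (l 1) (b (a (l 1) (l 6)) (c (a (l 351683770327) (l 389801627335)) (l 360810597111))))))) (b (l 1) (b (l 6) (b (l 6) (b (l 6) (c (l 16693464) (l 16668304))))))) (c (b (b (a (c (b (a (b (l 330745785399) (l 347388772551)) (l 16668840)) (a (l 16658280) (l 16643704))) (b (a (l 358663084055) (l 16664208)) (a (l 16634976) (l 16641504)))) (l 16689040)) (a (l 16640120) (l 16635168))) (b (l 16621152) (l 16641520))) (b (b (a (b (a (b (l 348462514727) (l 362421172903)) (l 16666296)) (a (l 16652448) (l 16638264))) (l 16674040)) (a (l 16614776) (l 16636888))) (b (l 16621704) (l 16641248))))) (b (b (l 6) (b (l 6) (a (b (l 6) (l 16706960)) (l 16708968)))) (b (a (l 16719072) (l 16699208)) (b (l 16681272) (b (l 16683656) (l 16685992)))))) (b (b (b (a (b (l 16625664) (l 16625712)) (l 16687552)) (b (a (l 16626112) (l 16690056)) (a (b (l 16626168) (l 16626344)) (b (l 16690568) (l 16691032)))))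 (a (b (l 16623224) (l 16626360)) (l 16683984))) (b (a (l 16629888) (l 16696568)) (l 16698544)))), by decide +kernel⟩

def k4_pm_202_a : ∃ t, chk3 f_pm_202_a t 3 3 1 = true :=
  ⟨(b (b (a (b (l 16625424) (l 16873288)) (b (l 16756584) (l 16945208))) (a (l 17116296) (b (l 17079696) (l 17176992)))) (b (a (l 17306776) (b (l 17253336) (l 17306960))) (a (l 17377616) (l 17345592)))), by decide +kernel⟩

theorem s5_pm_202_a : ∃ t, chk3 f_pm_202_a t 3 2 1 = true := ex3_a k2_pm_202_a k3_pm_202_a

theorem s6_pm_202_a : ∃ t, chk3 f_pm_202_a t 3 1 1 = true := ex3_b s5_pm_202_a k4_pm_202_a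

theorem s7_pm_202_a : ∃ t, chk3 f_pm_202_a t 2 1 1 = true := ex3_b k0_pm_202_a k1_pm_202_a

theorem s8_pm_202_a : ∃ t, chk3 f_pm_202_a t 1 1 1 = true := ex3_a s7_pm_202_a s6_pm_202_a

theorem c_pm_202_a : CertN 0 536870912 0 536870912 201326592 134217728 3 true true false .pp 2 0 2
    ndN1q2a ndN2q0 pcN2 cut_pm_202_a Ext.none :=
  certN1 (fam := true) (s1 := true) (s2 := false) (a := 2) (b := 0) (c := 2) (cn := .pp) (n1 := ndN1q2a) (n2 := ndN2q0) (pc := pcN2) (cut := cut_pm_202_a) (xt := Ext.none) (P1 := 0) (W1 := 536870912) (P2 := 0) (W2 := 536870912) (P3 := 201326592) (W3 := 134217728) (N0 := 3)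
    rfl (fun _ => rfl) s8_pm_202_a

noncomputable def cut_pm_202_b : Cut := Cut.of [[⟨0, 1, 0, 67108864⟩, ⟨1, 0, 0, 67108864⟩, ⟨2, 1, 0, 67108864⟩]]

noncomputable def f_pm_202_b : ℕ → ℕ → ℕ → ℕ → Bool := onCell 1073741824 536870912 0 536870912 201326592 134217728
    (rowN 3 2 true true false .pp 2 0 2 (qsf 1239849684 370763052 0 536870912 2) ndN1q2b ndN2q0 pcN2 cut_pm_202_b Ext.none)

def k0_pm_202_b : ∃ t, chk3 f_pm_202_b t 1 1 1 = true :=
  ⟨(a (b (a (l 1) (a (b (b (a (a (l 1) (a (l 1) (b (b (a (l 1) (a (l 1) (b (c (l 16508864) (l 16468152)) (l 1)))) (l 1)) (l 1)))) (b (c (b (a (b (l 16490840) (l 16465944)) (a (l 16458184) (l 16443256))) (l 63920670199)) (b (a (a (l 16467088) (l 16453792)) (l 16474008)) (l 58551930359))) (c (l 16533400) (l 16517864)))) (l 1)) (l 1)) (b (b (a (b (c (a (a (l 16487952) (l 16451616)) (a (l 16436088) (l 16420392))) (a (b (l 16424368) (l 16438976)) (l 16454608))) (a (l 16535512) (l 16507720))) (b (a (c (l 16427768) (l 16403504)) (c (l 16639392)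 (l 16372512))) (c (l 16539376) (l 16422488)))) (a (b (l 16576680) (l 1)) (b (l 16524712) (l 16588440)))) (l 1)))) (l 1)) (a (b (a (b (b (a (b (a (c (l 16841528) (l 16319896)) (c (l 17018144) (l 16287464))) (l 16469664)) (b (c (l 17033920) (l 16328384)) (l 16766584))) (a (l 16619496) (l 16773072))) (b (a (l 16677096) (l 16833200)) (l 1))) (b (a (b (b (c (l 17485032) (l 16643000)) (l 17038432)) (l 17011208)) (b (c (l 17648016) (b (l 16909680) (l 16883952))) (l 17210312))) (b (l 17178416) (l 17096496)))) (l 1)) (b (a (b (b (a (c (l 17794240) (l 17096776)) (c (l 17912304) (l 17258576))) (a (l 17375408) (l 17513952))) (b (l 17379600) (l 17309504))) (b (b (c (l 18051632) (l 17454232)) (l 17682376)) (l 17542120))) (b (a (l 17173824) (l 17328616)) (l 1))))), by decide +kernel⟩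

theorem c_pm_202_b : CertN 1239849684 370763052 0 536870912 201326592 134217728 3 true true false .pp 2 0 2
    ndN1q2b ndN2q0 pcN2 cut_pm_202_b Ext.none :=
  certN2 (fam := true) (s1 := true) (s2 := false) (a := 2) (b := 0) (c := 2) (cn := .pp) (n1 := ndN1q2b) (n2 := ndN2q0) (pc := pcN2) (cut := cut_pm_202_b) (xt := Ext.none) (P1 := 1239849684) (W1 := 370763052) (P2 := 0) (W2 := 536870912) (P3 := 201326592) (W3 := 134217728) (N0 := 3)
    rfl (fun _ => rfl) k0_pm_202_b

noncomputable def f_pm_203_a : ℕ → ℕ → ℕ → ℕ → Bool := onCell 0 536870912 1610612736 536870912 201326592 134217728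
    (rowN 3 1 true true false .up 2 0 3 (qsf 0 536870912 0 536870912 3) ndN1q2a ndN2q0 pcN3 Cut.none Ext.none)

def k0_pm_203_a : ∃ t, chk3 f_pm_203_a t 1 1 1 = true :=
  ⟨(b (b (b (a (l 17382736) (a (l 17400400) (l 17527176))) (a (b (l 17393224) (l 17398312)) (a (l 17424000) (l 17415456)))) (a (c (l 17580464) (l 17314768)) (a (l 2) (l 2)))) (l 2)), by decide +kernel⟩

theorem c_pm_203_a : CertN 0 536870912 0 536870912 201326592 134217728 3 true true false .up 2 0 3
    ndN1q2a ndN2q0 pcN3 Cut.none Ext.none :=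
  certN1 (fam := true) (s1 := true) (s2 := false) (a := 2) (b := 0) (c := 3) (cn := .up) (n1 := ndN1q2a) (n2 := ndN2q0) (pc := pcN3) (cut := Cut.none) (xt := Ext.none) (P1 := 0) (W1 := 536870912) (P2 := 0) (W2 := 536870912) (P3 := 201326592) (W3 := 134217728) (N0 := 3)
    rfl (fun _ => rfl) k0_pm_203_a

noncomputable def f_pm_203_b : ℕ → ℕ → ℕ → ℕ → Bool := onCell 1239849684 370763052 1610612736 536870912 201326592 134217728
    (rowN 3 1 true true false .up 2 0 3 (qsf 1239849684 370763052 0 536870912 3) ndN1q2b ndN2q0 pcN3 Cut.none Ext.none)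

def k0_pm_203_b : ∃ t, chk3 f_pm_203_b t 1 1 1 = true :=
  ⟨(b (b (a (b (a (l 17427264) (l 17587880)) (a (l 17514792) (l 17579592))) (b (a (l 17838744) (b (c (l 18024312) (l 17636128)) (l 17846736))) (a (l 17719032) (l 17836216)))) (a (l 4) (b (a (l 17686800) (l 17798864)) (l 4)))) (l 4)), by decide +kernel⟩

theorem c_pm_203_b : CertN 1239849684 370763052 0 536870912 201326592 134217728 3 true true false .up 2 0 3
    ndN1q2b ndN2q0 pcN3 Cut.none Ext.none :=
  certN1 (fam := true) (s1 := true) (s2 := false) (a := 2) (b := 0) (c := 3) (cn := .up) (n1 := ndN1q2b) (n2 := ndN2q0) (pc := pcN3) (cut := Cut.none) (xt := Ext.none) (P1 := 1239849684) (W1 := 370763052) (P2 := 0) (W2 := 536870912) (P3 := 201326592) (W3 := 134217728) (N0 := 3)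
    rfl (fun _ => rfl) k0_pm_203_b

noncomputable def f_pm_213_a : ℕ → ℕ → ℕ → ℕ → Bool := onCell 0 536870912 1610612736 536870912 201326592 134217728
    (rowN 3 1 true true false .pnn 2 1 3 (qsf 0 536870912 536870912 536870912 3) ndN1q2a ndN2q1 pcN3 Cut.none Ext.none)

def k0_pm_213_a : ∃ t, chk3 f_pm_213_a t 1 1 1 = true :=
  ⟨(b (b (b (a (l 1) (a (l 1) (l 17355376))) (a (l 17309184) (l 17353232))) (a (b (l 17238184) (l 4)) (b (l 17538952) (a (l 4) (l 17330368))))) (b (l 4) (l 4))), by decide +kernel⟩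

theorem c_pm_213_a : CertN 0 536870912 536870912 536870912 201326592 134217728 3 true true false .pnn 2 1 3
    ndN1q2a ndN2q1 pcN3 Cut.none Ext.none :=
  certN1 (fam := true) (s1 := true) (s2 := false) (a := 2) (b := 1) (c := 3) (cn := .pnn) (n1 := ndN1q2a) (n2 := ndN2q1) (pc := pcN3) (cut := Cut.none) (xt := Ext.none) (P1 := 0) (W1 := 536870912) (P2 := 536870912) (W2 := 536870912) (P3 := 201326592) (W3 := 134217728) (N0 := 3)
    rfl (fun _ => rfl) k0_pm_213_a

noncomputable def f_pm_213_b : ℕ → ℕ → ℕ → ℕ → Bool := onCell 1239849684 370763052 536870912 536870912 201326592 134217728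
    (rowN 3 0 true true false .pnn 2 1 3 (qsf 1239849684 370763052 536870912 536870912 3) ndN1q2b ndN2q1 pcN3 Cut.none Ext.none)

def k0_pm_213_b : ∃ t, chk3 f_pm_213_b t 1 1 1 = true :=
  ⟨(l 4), by decide +kernel⟩

theorem c_pm_213_b : CertN 1239849684 370763052 536870912 536870912 201326592 134217728 3 true true false .pnn 2 1 3
    ndN1q2b ndN2q1 pcN3 Cut.none Ext.none :=
  certN0 (fam := true) (s1 := true) (s2 := false) (a := 2) (b := 1) (c := 3) (cn := .pnn) (n1 := ndN1q2b) (n2 := ndN2q1) (pc := pcN3) (cut := Cut.none) (xt := Ext.none) (P1 := 1239849684) (W1 := 370763052) (P2 := 536870912) (W2 := 536870912) (P3 := 201326592) (W3 := 134217728) (N0 := 3)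
    rfl k0_pm_213_b

noncomputable def f_pm_303 : ℕ → ℕ → ℕ → ℕ → Bool := onCell 1610612736 536870912 0 536870912 201326592 134217728
    (rowN 3 2 true true false .npn 3 0 3 (qsf 1610612736 536870912 0 536870912 3) ndN1q3 ndN2q0 pcN3 Cut.none Ext.none)

def k0_pm_303 : ∃ t, chk3 f_pm_303 t 1 1 1 = true :=
  ⟨(a (a (b (b (a (b (c (l 17989920) (l 17697320)) (l 17786320)) (c (l 17985200) (l 17698544))) (a (l 1) (l 17670456))) (l 1)) (b (a (b (c (l 17992096) (l 17720024)) (l 17959496)) (b (c (l 17966472) (l 17709152)) (l 4))) (a (l 1) (l 4)))) (a (b (l 4) (l 4)) (l 4))), by decide +kernel⟩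

theorem c_pm_303 : CertN 1610612736 536870912 0 536870912 201326592 134217728 3 true true false .npn 3 0 3
    ndN1q3 ndN2q0 pcN3 Cut.none Ext.none :=
  certN2 (fam := true) (s1 := true) (s2 := false) (a := 3) (b := 0) (c := 3) (cn := .npn) (n1 := ndN1q3) (n2 := ndN2q0) (pc := pcN3) (cut := Cut.none) (xt := Ext.none) (P1 := 1610612736) (W1 := 536870912) (P2 := 0) (W2 := 536870912) (P3 := 201326592) (W3 := 134217728) (N0 := 3)
    rfl (fun _ => rfl) k0_pm_303

noncomputable def f_pm_313 : ℕ → ℕ → ℕ → ℕ → Bool := onCell 1610612736 536870912 536870912 536870912 201326592 134217728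
    (rowN 3 0 true true false .dn 3 1 3 (qsf 1610612736 536870912 536870912 536870912 3) ndN1q3 ndN2q1 pcN3 Cut.none Ext.none)

def k0_pm_313 : ∃ t, chk3 f_pm_313 t 1 1 1 = true :=
  ⟨(l 4), by decide +kernel⟩

theorem c_pm_313 : CertN 1610612736 536870912 536870912 536870912 201326592 134217728 3 true true false .dn 3 1 3
    ndN1q3 ndN2q1 pcN3 Cut.none Ext.none :=
  certN0 (fam := true) (s1 := true) (s2 := false) (a := 3) (b := 1) (c := 3) (cn := .dn) (n1 := ndN1q3) (n2 := ndN2q1) (pc := pcN3) (cut := Cut.none) (xt := Ext.none) (P1 := 1610612736) (W1 := 536870912) (P2 := 536870912) (W2 := 536870912) (P3 := 201326592) (W3 := 134217728) (N0 := 3)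
    rfl k0_pm_313

noncomputable def f_mm_001 : ℕ → ℕ → ℕ → ℕ → Bool := onCell 0 536870912 0 536870912 201326592 134217728
    (rowN 3 0 true false false .up 0 0 1 (qsf 0 536870912 0 536870912 1) ndN1q0 ndN2q0 pcN1 Cut.none Ext.none)

def k0_mm_001 : ∃ t, chk3 f_mm_001 t 1 1 1 = true :=
  ⟨(l 4), by decide +kernel⟩

theorem c_mm_001 : CertN 0 536870912 0 536870912 201326592 134217728 3 true false false .up 0 0 1
    ndN1q0 ndN2q0 pcN1 Cut.none Ext.none :=
  certN0 (fam := true) (s1 := false) (s2 := false) (a := 0) (b := 0) (c := 1) (cn := .up) (n1 := ndN1q0) (n2 := ndN2q0) (pc := pcN1) (cut := Cut.none) (xt := Ext.none) (P1 := 0) (W1 := 536870912) (P2 := 0) (W2 := 536870912) (P3 := 201326592) (W3 := 134217728) (N0 := 3)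
    rfl k0_mm_001

noncomputable def f_mm_011 : ℕ → ℕ → ℕ → ℕ → Bool := onCell 0 536870912 536870912 536870912 201326592 134217728
    (rowN 3 0 true false false .pnn 0 1 1 (qsf 0 536870912 536870912 536870912 1) ndN1q0 ndN2q1 pcN1 Cut.none Ext.none)

def k0_mm_011 : ∃ t, chk3 f_mm_011 t 1 1 1 = true :=
  ⟨(l 4), by decide +kernel⟩

theorem c_mm_011 : CertN 0 536870912 536870912 536870912 201326592 134217728 3 true false false .pnn 0 1 1
    ndN1q0 ndN2q1 pcN1 Cut.none Ext.none :=
  certN0 (fam := true) (s1 := false) (s2 := false) (a := 0) (b := 1) (c := 1) (cn := .pnn) (n1 := ndN1q0) (n2 := ndN2q1) (pc := pcN1) (cut := Cut.none) (xt := Ext.none) (P1 := 0) (W1 := 536870912) (P2 := 536870912) (W2 := 536870912) (P3 := 201326592) (W3 := 134217728) (N0 := 3)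
    rfl k0_mm_011

noncomputable def f_mm_012 : ℕ → ℕ → ℕ → ℕ → Bool := onCell 0 536870912 536870912 536870912 201326592 134217728
    (rowN 3 0 true false false .pnp 0 1 2 (qsf 0 536870912 536870912 536870912 2) ndN1q0 ndN2q1 pcN2 Cut.none Ext.none)

def k0_mm_012 : ∃ t, chk3 f_mm_012 t 1 1 1 = true :=
  ⟨(l 4), by decide +kernel⟩

theorem c_mm_012 : CertN 0 536870912 536870912 536870912 201326592 134217728 3 true false false .pnp 0 1 2
    ndN1q0 ndN2q1 pcN2 Cut.none Ext.none :=
  certN0 (fam := true) (s1 := false) (s2 := false) (a := 0) (b := 1) (c := 2) (cn := .pnp) (n1 := ndN1q0) (n2 := ndN2q1) (pc := pcN2) (cut := Cut.none) (xt := Ext.none) (P1 := 0) (W1 := 536870912) (P2 := 536870912) (W2 := 536870912) (P3 := 201326592) (W3 := 134217728) (N0 := 3)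
    rfl k0_mm_012

noncomputable def f_mm_022_a : ℕ → ℕ → ℕ → ℕ → Bool := onCell 0 536870912 0 536870912 201326592 134217728
    (rowN 3 0 true false false .pp 0 2 2 (qsf 0 536870912 0 536870912 2) ndN1q0 ndN2q2a pcN2 Cut.none Ext.none)

def k0_mm_022_a : ∃ t, chk3 f_mm_022_a t 1 1 1 = true :=
  ⟨(l 5), by decide +kernel⟩

theorem c_mm_022_a : CertN 0 536870912 0 536870912 201326592 134217728 3 true false false .pp 0 2 2
    ndN1q0 ndN2q2a pcN2 Cut.none Ext.none :=
  certN0 (fam := true) (s1 := false) (s2 := false) (a := 0) (b := 2) (c := 2) (cn := .pp) (n1 := ndN1q0) (n2 := ndN2q2a) (pc := pcN2) (cut := Cut.none) (xt := Ext.none) (P1 := 0) (W1 := 536870912) (P2 := 0) (W2 := 536870912) (P3 := 201326592) (W3 := 134217728) (N0 := 3)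
    rfl k0_mm_022_a

noncomputable def f_mm_022_b : ℕ → ℕ → ℕ → ℕ → Bool := onCell 0 536870912 1239849684 370763052 201326592 134217728
    (rowN 3 0 true false false .pp 0 2 2 (qsf 0 536870912 1239849684 370763052 2) ndN1q0 ndN2q2b pcN2 Cut.none Ext.none)

def k0_mm_022_b : ∃ t, chk3 f_mm_022_b t 1 1 1 = true :=
  ⟨(l 5), by decide +kernel⟩

theorem c_mm_022_b : CertN 0 536870912 1239849684 370763052 201326592 134217728 3 true false false .pp 0 2 2
    ndN1q0 ndN2q2b pcN2 Cut.none Ext.none :=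
  certN0 (fam := true) (s1 := false) (s2 := false) (a := 0) (b := 2) (c := 2) (cn := .pp) (n1 := ndN1q0) (n2 := ndN2q2b) (pc := pcN2) (cut := Cut.none) (xt := Ext.none) (P1 := 0) (W1 := 536870912) (P2 := 1239849684) (W2 := 370763052) (P3 := 201326592) (W3 := 134217728) (N0 := 3)
    rfl k0_mm_022_b

noncomputable def f_mm_023_a : ℕ → ℕ → ℕ → ℕ → Bool := onCell 0 536870912 0 536870912 201326592 134217728
    (rowN 3 0 true false false .up 0 2 3 (qsf 0 536870912 0 536870912 3) ndN1q0 ndN2q2a pcN3 Cut.none Ext.none)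

def k0_mm_023_a : ∃ t, chk3 f_mm_023_a t 1 1 1 = true :=
  ⟨(l 5), by decide +kernel⟩

theorem c_mm_023_a : CertN 0 536870912 0 536870912 201326592 134217728 3 true false false .up 0 2 3
    ndN1q0 ndN2q2a pcN3 Cut.none Ext.none :=
  certN0 (fam := true) (s1 := false) (s2 := false) (a := 0) (b := 2) (c := 3) (cn := .up) (n1 := ndN1q0) (n2 := ndN2q2a) (pc := pcN3) (cut := Cut.none) (xt := Ext.none) (P1 := 0) (W1 := 536870912) (P2 := 0) (W2 := 536870912) (P3 := 201326592) (W3 := 134217728) (N0 := 3)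
    rfl k0_mm_023_a

noncomputable def f_mm_023_b : ℕ → ℕ → ℕ → ℕ → Bool := onCell 0 536870912 1239849684 370763052 201326592 134217728
    (rowN 3 0 true false false .up 0 2 3 (qsf 0 536870912 1239849684 370763052 3) ndN1q0 ndN2q2b pcN3 Cut.none Ext.none)

def k0_mm_023_b : ∃ t, chk3 f_mm_023_b t 1 1 1 = true :=
  ⟨(l 5), by decide +kernel⟩

theorem c_mm_023_b : CertN 0 536870912 1239849684 370763052 201326592 134217728 3 true false false .up 0 2 3
    ndN1q0 ndN2q2b pcN3 Cut.none Ext.none :=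
  certN0 (fam := true) (s1 := false) (s2 := false) (a := 0) (b := 2) (c := 3) (cn := .up) (n1 := ndN1q0) (n2 := ndN2q2b) (pc := pcN3) (cut := Cut.none) (xt := Ext.none) (P1 := 0) (W1 := 536870912) (P2 := 1239849684) (W2 := 370763052) (P3 := 201326592) (W3 := 134217728) (N0 := 3)
    rfl k0_mm_023_b

noncomputable def f_mm_033 : ℕ → ℕ → ℕ → ℕ → Bool := onCell 0 536870912 1610612736 536870912 201326592 134217728
    (rowN 3 0 true false false .pnn 0 3 3 (qsf 0 536870912 1610612736 536870912 3) ndN1q0 ndN2q3 pcN3 Cut.none Ext.none)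

def k0_mm_033 : ∃ t, chk3 f_mm_033 t 1 1 1 = true :=
  ⟨(l 4), by decide +kernel⟩

theorem c_mm_033 : CertN 0 536870912 1610612736 536870912 201326592 134217728 3 true false false .pnn 0 3 3
    ndN1q0 ndN2q3 pcN3 Cut.none Ext.none :=
  certN0 (fam := true) (s1 := false) (s2 := false) (a := 0) (b := 3) (c := 3) (cn := .pnn) (n1 := ndN1q0) (n2 := ndN2q3) (pc := pcN3) (cut := Cut.none) (xt := Ext.none) (P1 := 0) (W1 := 536870912) (P2 := 1610612736) (W2 := 536870912) (P3 := 201326592) (W3 := 134217728) (N0 := 3)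
    rfl k0_mm_033

noncomputable def f_mm_101 : ℕ → ℕ → ℕ → ℕ → Bool := onCell 536870912 536870912 0 536870912 201326592 134217728
    (rowN 3 0 true false false .npn 1 0 1 (qsf 536870912 536870912 0 536870912 1) ndN1q1 ndN2q0 pcN1 Cut.none Ext.none)

def k0_mm_101 : ∃ t, chk3 f_mm_101 t 1 1 1 = true :=
  ⟨(l 4), by decide +kernel⟩

theorem c_mm_101 : CertN 536870912 536870912 0 536870912 201326592 134217728 3 true false false .npn 1 0 1
    ndN1q1 ndN2q0 pcN1 Cut.none Ext.none :=
  certN0 (fam := true) (s1 := false) (s2 := false) (a := 1) (b := 0) (c := 1) (cn := .npn) (n1 := ndN1q1) (n2 := ndN2q0) (pc := pcN1) (cut := Cut.none) (xt := Ext.none) (P1 := 536870912) (W1 := 536870912) (P2 := 0) (W2 := 536870912) (P3 := 201326592) (W3 := 134217728) (N0 := 3)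
    rfl k0_mm_101

noncomputable def f_mm_102 : ℕ → ℕ → ℕ → ℕ → Bool := onCell 536870912 536870912 0 536870912 201326592 134217728
    (rowN 3 0 true false false .npp 1 0 2 (qsf 536870912 536870912 0 536870912 2) ndN1q1 ndN2q0 pcN2 Cut.none Ext.none)

def k0_mm_102 : ∃ t, chk3 f_mm_102 t 1 1 1 = true :=
  ⟨(l 4), by decide +kernel⟩

theorem c_mm_102 : CertN 536870912 536870912 0 536870912 201326592 134217728 3 true false false .npp 1 0 2
    ndN1q1 ndN2q0 pcN2 Cut.none Ext.none :=
  certN0 (fam := true) (s1 := false) (s2 := false) (a := 1) (b := 0) (c := 2) (cn := .npp) (n1 := ndN1q1) (n2 := ndN2q0) (pc := pcN2) (cut := Cut.none) (xt := Ext.none) (P1 := 536870912) (W1 := 536870912) (P2 := 0) (W2 := 536870912) (P3 := 201326592) (W3 := 134217728) (N0 := 3)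
    rfl k0_mm_102

noncomputable def f_mm_112 : ℕ → ℕ → ℕ → ℕ → Bool := onCell 536870912 536870912 536870912 536870912 201326592 134217728
    (rowN 3 0 true false false .dn 1 1 2 (qsf 536870912 536870912 536870912 536870912 2) ndN1q1 ndN2q1 pcN2 Cut.none Ext.none)

def k0_mm_112 : ∃ t, chk3 f_mm_112 t 1 1 1 = true :=
  ⟨(l 4), by decide +kernel⟩

theorem c_mm_112 : CertN 536870912 536870912 536870912 536870912 201326592 134217728 3 true false false .dn 1 1 2
    ndN1q1 ndN2q1 pcN2 Cut.none Ext.none :=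
  certN0 (fam := true) (s1 := false) (s2 := false) (a := 1) (b := 1) (c := 2) (cn := .dn) (n1 := ndN1q1) (n2 := ndN2q1) (pc := pcN2) (cut := Cut.none) (xt := Ext.none) (P1 := 536870912) (W1 := 536870912) (P2 := 536870912) (W2 := 536870912) (P3 := 201326592) (W3 := 134217728) (N0 := 3)
    rfl k0_mm_112

noncomputable def f_mm_113 : ℕ → ℕ → ℕ → ℕ → Bool := onCell 536870912 536870912 536870912 536870912 201326592 134217728
    (rowN 3 0 true false false .nn 1 1 3 (qsf 536870912 536870912 536870912 536870912 3) ndN1q1 ndN2q1 pcN3 Cut.none Ext.none)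

def k0_mm_113 : ∃ t, chk3 f_mm_113 t 1 1 1 = true :=
  ⟨(l 4), by decide +kernel⟩

theorem c_mm_113 : CertN 536870912 536870912 536870912 536870912 201326592 134217728 3 true false false .nn 1 1 3
    ndN1q1 ndN2q1 pcN3 Cut.none Ext.none :=
  certN0 (fam := true) (s1 := false) (s2 := false) (a := 1) (b := 1) (c := 3) (cn := .nn) (n1 := ndN1q1) (n2 := ndN2q1) (pc := pcN3) (cut := Cut.none) (xt := Ext.none) (P1 := 536870912) (W1 := 536870912) (P2 := 536870912) (W2 := 536870912) (P3 := 201326592) (W3 := 134217728) (N0 := 3)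
    rfl k0_mm_113

noncomputable def f_mm_123_a : ℕ → ℕ → ℕ → ℕ → Bool := onCell 536870912 536870912 0 536870912 201326592 134217728
    (rowN 3 0 true false false .npn 1 2 3 (qsf 536870912 536870912 0 536870912 3) ndN1q1 ndN2q2a pcN3 Cut.none Ext.none)

def k0_mm_123_a : ∃ t, chk3 f_mm_123_a t 1 1 1 = true :=
  ⟨(l 4), by decide +kernel⟩

theorem c_mm_123_a : CertN 536870912 536870912 0 536870912 201326592 134217728 3 true false false .npn 1 2 3
    ndN1q1 ndN2q2a pcN3 Cut.none Ext.none :=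
  certN0 (fam := true) (s1 := false) (s2 := false) (a := 1) (b := 2) (c := 3) (cn := .npn) (n1 := ndN1q1) (n2 := ndN2q2a) (pc := pcN3) (cut := Cut.none) (xt := Ext.none) (P1 := 536870912) (W1 := 536870912) (P2 := 0) (W2 := 536870912) (P3 := 201326592) (W3 := 134217728) (N0 := 3)
    rfl k0_mm_123_a

noncomputable def f_mm_123_b : ℕ → ℕ → ℕ → ℕ → Bool := onCell 536870912 536870912 1239849684 370763052 201326592 134217728
    (rowN 3 0 true false false .npn 1 2 3 (qsf 536870912 536870912 1239849684 370763052 3) ndN1q1 ndN2q2b pcN3 Cut.none Ext.none)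

def k0_mm_123_b : ∃ t, chk3 f_mm_123_b t 1 1 1 = true :=
  ⟨(l 4), by decide +kernel⟩

theorem c_mm_123_b : CertN 536870912 536870912 1239849684 370763052 201326592 134217728 3 true false false .npn 1 2 3
    ndN1q1 ndN2q2b pcN3 Cut.none Ext.none :=
  certN0 (fam := true) (s1 := false) (s2 := false) (a := 1) (b := 2) (c := 3) (cn := .npn) (n1 := ndN1q1) (n2 := ndN2q2b) (pc := pcN3) (cut := Cut.none) (xt := Ext.none) (P1 := 536870912) (W1 := 536870912) (P2 := 1239849684) (W2 := 370763052) (P3 := 201326592) (W3 := 134217728) (N0 := 3)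
    rfl k0_mm_123_b

noncomputable def f_mm_133 : ℕ → ℕ → ℕ → ℕ → Bool := onCell 536870912 536870912 1610612736 536870912 201326592 134217728
    (rowN 3 0 true false false .dn 1 3 3 (qsf 536870912 536870912 1610612736 536870912 3) ndN1q1 ndN2q3 pcN3 Cut.none Ext.none)

def k0_mm_133 : ∃ t, chk3 f_mm_133 t 1 1 1 = true :=
  ⟨(l 4), by decide +kernel⟩

theorem c_mm_133 : CertN 536870912 536870912 1610612736 536870912 201326592 134217728 3 true false false .dn 1 3 3
    ndN1q1 ndN2q3 pcN3 Cut.none Ext.none :=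
  certN0 (fam := true) (s1 := false) (s2 := false) (a := 1) (b := 3) (c := 3) (cn := .dn) (n1 := ndN1q1) (n2 := ndN2q3) (pc := pcN3) (cut := Cut.none) (xt := Ext.none) (P1 := 536870912) (W1 := 536870912) (P2 := 1610612736) (W2 := 536870912) (P3 := 201326592) (W3 := 134217728) (N0 := 3)
    rfl k0_mm_133

noncomputable def cut_mm_202_a : Cut := Cut.of [[⟨0, 1, 0, 67108864⟩, ⟨1, 0, 0, 67108864⟩, ⟨2, 1, 0, 67108864⟩]]

noncomputable def f_mm_202_a : ℕ → ℕ → ℕ → ℕ → Bool := onCell 0 536870912 0 536870912 201326592 134217728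
    (rowN 3 0 true false false .pp 2 0 2 (qsf 0 536870912 0 536870912 2) ndN1q2a ndN2q0 pcN2 cut_mm_202_a Ext.none)

def k0_mm_202_a : ∃ t, chk3 f_mm_202_a t 1 1 1 = true :=
  ⟨(b (a (b (b (a (b (a (b (c (l 16505760) (l 16500456)) (l 16505144)) (b (c (b (l 16524336) (l 16526008)) (l 16518632)) (l 16546992))) (b (l 16562616) (l 16527976))) (b (b (a (c (b (l 16589616) (l 16550152)) (l 16583184)) (c (b (a (l 16567352) (l 16581656)) (l 16577608)) (b (l 16608136) (l 16568832)))) (a (l 16592656) (c (l 16582936) (l 16573352)))) (a (b (l 16557992) (l 16576912)) (b (l 16635048) (l 4))))) (a (b (a (l 16535384) (l 16580896)) (l 16634768)) (l 4))) (l 4)) (b (b (a (b (b (a (b (c (a (l 16617760) (b (l 16633096) (l 16613640))) (a (l 16587624) (l 16603248))) (c (l 16629064) (l 16619408))) (b (a (c (c (l 16653776) (l 16628424)) (b (l 16620648) (l 16622104))) (c (b (c (l 16672368) (l 16647240)) (l 16650816)) (b (l 16661704) (l 16642208)))) (c (a (l 16633864) (l 16653448)) (a (l 16624376) (l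 16644704))))) (a (c (l 16658808) (l 16647904)) (a (c (l 16670176) (l 16658416)) (c (l 16718584) (l 16706264))))) (a (b (l 16703192) (l 4)) (l 4))) (b (b (a (a (b (c (b (b (c (l 16693056) (l 16689176)) (l 16691808)) (l 16692888)) (b (a (l 16656856) (l 16689624)) (l 16685192))) (b (c (l 16694880) (l 16687096)) (l 16717424))) (a (b (b (l 6) (c (l 16690480) (l 16684088))) (c (l 16720824) (l 16713136))) (b (l 6) (c (l 16738416) (l 16731128))))) (l 6)) (l 4)) (l 4))) (l 4)) (l 4))) (l 4)), by decide +kernel⟩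

theorem c_mm_202_a : CertN 0 536870912 0 536870912 201326592 134217728 3 true false false .pp 2 0 2
    ndN1q2a ndN2q0 pcN2 cut_mm_202_a Ext.none :=
  certN0 (fam := true) (s1 := false) (s2 := false) (a := 2) (b := 0) (c := 2) (cn := .pp) (n1 := ndN1q2a) (n2 := ndN2q0) (pc := pcN2) (cut := cut_mm_202_a) (xt := Ext.none) (P1 := 0) (W1 := 536870912) (P2 := 0) (W2 := 536870912) (P3 := 201326592) (W3 := 134217728) (N0 := 3)
    rfl k0_mm_202_a

noncomputable def cut_mm_202_b : Cut := Cut.of [[⟨0, 1, 0, 67108864⟩, ⟨1, 0, 0, 67108864⟩, ⟨2, 1, 0, 67108864⟩]]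

noncomputable def f_mm_202_b : ℕ → ℕ → ℕ → ℕ → Bool := onCell 1073741824 536870912 0 536870912 201326592 134217728
    (rowN 3 2 true false false .pp 2 0 2 (qsf 1239849684 370763052 0 536870912 2) ndN1q2b ndN2q0 pcN2 cut_mm_202_b Ext.none)

def k0_mm_202_b : ∃ t, chk3 f_mm_202_b t 1 1 1 = true :=
  ⟨(a (a (l 1) (b (b (a (b (b (b (b (c (a (l 24192345911) (l 16517872)) (a (l 16563624) (l 16470752))) (c (l 38687919047) (l 16612072))) (c (l 40835454919) (l 16630664))) (a (l 1) (l 59625917655))) (l 1)) (b (b (c (b (a (l 16456160) (l 16650536)) (l 16482616)) (a (b (l 16428152) (l 16454504)) (l 16419496))) (c (l 16544104) (l 16512960))) (b (l 98280709095) (l 131566869303)))) (l 1)) (l 1))) (b (b (a (a (b (b (c (a (l 17006688) (l 17315752)) (b (l 16334560) (l 16363624))) (c (l 17114384) (l 16407424))) (a (l 16594752) (l 16845328))) (b (c (b (l 17625832) (l 17535096)) (b (a (l 16823712) (l 17065672)) (l 16924464))) (l 4))) (a (b (c (l 17836744) (b (l 17337640) (l 4))) (l 4)) (l 4)))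 (l 4)) (l 4))), by decide +kernel⟩

theorem c_mm_202_b : CertN 1239849684 370763052 0 536870912 201326592 134217728 3 true false false .pp 2 0 2
    ndN1q2b ndN2q0 pcN2 cut_mm_202_b Ext.none :=
  certN2 (fam := true) (s1 := false) (s2 := false) (a := 2) (b := 0) (c := 2) (cn := .pp) (n1 := ndN1q2b) (n2 := ndN2q0) (pc := pcN2) (cut := cut_mm_202_b) (xt := Ext.none) (P1 := 1239849684) (W1 := 370763052) (P2 := 0) (W2 := 536870912) (P3 := 201326592) (W3 := 134217728) (N0 := 3)
    rfl (fun _ => rfl) k0_mm_202_b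

noncomputable def f_mm_203_a : ℕ → ℕ → ℕ → ℕ → Bool := onCell 0 536870912 1610612736 536870912 201326592 134217728
    (rowN 3 1 true false false .up 2 0 3 (qsf 0 536870912 0 536870912 3) ndN1q2a ndN2q0 pcN3 Cut.none Ext.none)

def k0_mm_203_a : ∃ t, chk3 f_mm_203_a t 1 1 1 = true :=
  ⟨(l 4), by decide +kernel⟩

theorem c_mm_203_a : CertN 0 536870912 0 536870912 201326592 134217728 3 true false false .up 2 0 3
    ndN1q2a ndN2q0 pcN3 Cut.none Ext.none :=
  certN1 (fam := true) (s1 := false) (s2 := false) (a := 2) (b := 0) (c := 3) (cn := .up) (n1 := ndN1q2a) (n2 := ndN2q0) (pc := pcN3) (cut := Cut.none) (xt := Ext.none) (P1 := 0) (W1 := 536870912) (P2 := 0) (W2 := 536870912) (P3 := 201326592) (W3 := 134217728) (N0 := 3)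
    rfl (fun _ => rfl) k0_mm_203_a

noncomputable def f_mm_203_b : ℕ → ℕ → ℕ → ℕ → Bool := onCell 1239849684 370763052 1610612736 536870912 201326592 134217728
    (rowN 3 1 true false false .up 2 0 3 (qsf 1239849684 370763052 0 536870912 3) ndN1q2b ndN2q0 pcN3 Cut.none Ext.none)

def k0_mm_203_b : ∃ t, chk3 f_mm_203_b t 1 1 1 = true :=
  ⟨(b (b (l 4) (l 4)) (l 4)), by decide +kernel⟩

theorem c_mm_203_b : CertN 1239849684 370763052 0 536870912 201326592 134217728 3 true false false .up 2 0 3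
    ndN1q2b ndN2q0 pcN3 Cut.none Ext.none :=
  certN1 (fam := true) (s1 := false) (s2 := false) (a := 2) (b := 0) (c := 3) (cn := .up) (n1 := ndN1q2b) (n2 := ndN2q0) (pc := pcN3) (cut := Cut.none) (xt := Ext.none) (P1 := 1239849684) (W1 := 370763052) (P2 := 0) (W2 := 536870912) (P3 := 201326592) (W3 := 134217728) (N0 := 3)
    rfl (fun _ => rfl) k0_mm_203_b

noncomputable def f_mm_213_a : ℕ → ℕ → ℕ → ℕ → Bool := onCell 0 536870912 536870912 536870912 201326592 134217728
    (rowN 3 0 true false false .pnn 2 1 3 (qsf 0 536870912 536870912 536870912 3) ndN1q2a ndN2q1 pcN3 Cut.none Ext.none)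

def k0_mm_213_a : ∃ t, chk3 f_mm_213_a t 1 1 1 = true :=
  ⟨(l 4), by decide +kernel⟩

theorem c_mm_213_a : CertN 0 536870912 536870912 536870912 201326592 134217728 3 true false false .pnn 2 1 3
    ndN1q2a ndN2q1 pcN3 Cut.none Ext.none :=
  certN0 (fam := true) (s1 := false) (s2 := false) (a := 2) (b := 1) (c := 3) (cn := .pnn) (n1 := ndN1q2a) (n2 := ndN2q1) (pc := pcN3) (cut := Cut.none) (xt := Ext.none) (P1 := 0) (W1 := 536870912) (P2 := 536870912) (W2 := 536870912) (P3 := 201326592) (W3 := 134217728) (N0 := 3)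
    rfl k0_mm_213_a

noncomputable def f_mm_213_b : ℕ → ℕ → ℕ → ℕ → Bool := onCell 1239849684 370763052 536870912 536870912 201326592 134217728
    (rowN 3 0 true false false .pnn 2 1 3 (qsf 1239849684 370763052 536870912 536870912 3) ndN1q2b ndN2q1 pcN3 Cut.none Ext.none)

def k0_mm_213_b : ∃ t, chk3 f_mm_213_b t 1 1 1 = true :=
  ⟨(l 4), by decide +kernel⟩

theorem c_mm_213_b : CertN 1239849684 370763052 536870912 536870912 201326592 134217728 3 true false false .pnn 2 1 3
    ndN1q2b ndN2q1 pcN3 Cut.none Ext.none :=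
  certN0 (fam := true) (s1 := false) (s2 := false) (a := 2) (b := 1) (c := 3) (cn := .pnn) (n1 := ndN1q2b) (n2 := ndN2q1) (pc := pcN3) (cut := Cut.none) (xt := Ext.none) (P1 := 1239849684) (W1 := 370763052) (P2 := 536870912) (W2 := 536870912) (P3 := 201326592) (W3 := 134217728) (N0 := 3)
    rfl k0_mm_213_b

noncomputable def f_mm_303 : ℕ → ℕ → ℕ → ℕ → Bool := onCell 1610612736 536870912 0 536870912 201326592 134217728
    (rowN 3 0 true false false .npn 3 0 3 (qsf 1610612736 536870912 0 536870912 3) ndN1q3 ndN2q0 pcN3 Cut.none Ext.none)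

def k0_mm_303 : ∃ t, chk3 f_mm_303 t 1 1 1 = true :=
  ⟨(a (b (l 4) (l 4)) (l 4)), by decide +kernel⟩

theorem c_mm_303 : CertN 1610612736 536870912 0 536870912 201326592 134217728 3 true false false .npn 3 0 3
    ndN1q3 ndN2q0 pcN3 Cut.none Ext.none :=
  certN0 (fam := true) (s1 := false) (s2 := false) (a := 3) (b := 0) (c := 3) (cn := .npn) (n1 := ndN1q3) (n2 := ndN2q0) (pc := pcN3) (cut := Cut.none) (xt := Ext.none) (P1 := 1610612736) (W1 := 536870912) (P2 := 0) (W2 := 536870912) (P3 := 201326592) (W3 := 134217728) (N0 := 3)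
    rfl k0_mm_303

noncomputable def f_mm_313 : ℕ → ℕ → ℕ → ℕ → Bool := onCell 1610612736 536870912 536870912 536870912 201326592 134217728
    (rowN 3 0 true false false .dn 3 1 3 (qsf 1610612736 536870912 536870912 536870912 3) ndN1q3 ndN2q1 pcN3 Cut.none Ext.none)

def k0_mm_313 : ∃ t, chk3 f_mm_313 t 1 1 1 = true :=
  ⟨(l 4), by decide +kernel⟩

theorem c_mm_313 : CertN 1610612736 536870912 536870912 536870912 201326592 134217728 3 true false false .dn 3 1 3
    ndN1q3 ndN2q1 pcN3 Cut.none Ext.none :=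
  certN0 (fam := true) (s1 := false) (s2 := false) (a := 3) (b := 1) (c := 3) (cn := .dn) (n1 := ndN1q3) (n2 := ndN2q1) (pc := pcN3) (cut := Cut.none) (xt := Ext.none) (P1 := 1610612736) (W1 := 536870912) (P2 := 536870912) (W2 := 536870912) (P3 := 201326592) (W3 := 134217728) (N0 := 3)
    rfl k0_mm_313

end Pool.Agent.Strip051.G.I3_16_5_16.Tab.C.NA12

namespace Pool.Agent.Strip051.G.I3_16_5_16.Tab.C.NA13

open Pool.Agent.Strip051.PB Pool.Agent.Strip051.PB.T
open Pool.Agent.Strip051.G.I3_16_5_16.Tab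

noncomputable def f_pp_001 : ℕ → ℕ → ℕ → ℕ → Bool := onCell 0 536870912 0 536870912 201326592 134217728
    (rowN 3 0 true true true .up 0 0 1 (qsf 0 536870912 0 536870912 1) ndN1q0 ndN3q0 pcN1 Cut.none Ext.none)

def k0_pp_001 : ∃ t, chk3 f_pp_001 t 1 1 1 = true :=
  ⟨(l 4), by decide +kernel⟩

theorem c_pp_001 : CertN 0 536870912 0 536870912 201326592 134217728 3 true true true .up 0 0 1
    ndN1q0 ndN3q0 pcN1 Cut.none Ext.none :=
  certN0 (fam := true) (s1 := true) (s2 := true) (a := 0) (b := 0) (c := 1) (cn := .up) (n1 := ndN1q0) (n2 := ndN3q0) (pc := pcN1) (cut := Cut.none) (xt := Ext.none) (P1 := 0) (W1 := 536870912) (P2 := 0) (W2 := 536870912) (P3 := 201326592) (W3 := 134217728) (N0 := 3)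
    rfl k0_pp_001

noncomputable def f_pp_011 : ℕ → ℕ → ℕ → ℕ → Bool := onCell 0 536870912 536870912 536870912 201326592 134217728
    (rowN 3 0 true true true .pnn 0 1 1 (qsf 0 536870912 536870912 536870912 1) ndN1q0 ndN3q1 pcN1 Cut.none Ext.none)

def k0_pp_011 : ∃ t, chk3 f_pp_011 t 1 1 1 = true :=
  ⟨(l 4), by decide +kernel⟩

theorem c_pp_011 : CertN 0 536870912 536870912 536870912 201326592 134217728 3 true true true .pnn 0 1 1
    ndN1q0 ndN3q1 pcN1 Cut.none Ext.none :=
  certN0 (fam := true) (s1 := true) (s2 := true) (a := 0) (b := 1) (c := 1) (cn := .pnn) (n1 := ndN1q0) (n2 := ndN3q1) (pc := pcN1) (cut := Cut.none) (xt := Ext.none) (P1 := 0) (W1 := 536870912) (P2 := 536870912) (W2 := 536870912) (P3 := 201326592) (W3 := 134217728) (N0 := 3)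
    rfl k0_pp_011

noncomputable def f_pp_012 : ℕ → ℕ → ℕ → ℕ → Bool := onCell 0 536870912 536870912 536870912 201326592 134217728
    (rowN 3 0 true true true .pnp 0 1 2 (qsf 0 536870912 536870912 536870912 2) ndN1q0 ndN3q1 pcN2 Cut.none Ext.none)

def k0_pp_012 : ∃ t, chk3 f_pp_012 t 1 1 1 = true :=
  ⟨(l 4), by decide +kernel⟩

theorem c_pp_012 : CertN 0 536870912 536870912 536870912 201326592 134217728 3 true true true .pnp 0 1 2
    ndN1q0 ndN3q1 pcN2 Cut.none Ext.none :=
  certN0 (fam := true) (s1 := true) (s2 := true) (a := 0) (b := 1) (c := 2) (cn := .pnp) (n1 := ndN1q0) (n2 := ndN3q1) (pc := pcN2) (cut := Cut.none) (xt := Ext.none) (P1 := 0) (W1 := 536870912) (P2 := 536870912) (W2 := 536870912) (P3 := 201326592) (W3 := 134217728) (N0 := 3)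
    rfl k0_pp_012

noncomputable def f_pp_022 : ℕ → ℕ → ℕ → ℕ → Bool := onCell 0 536870912 1073741824 536870912 201326592 134217728
    (rowN 3 0 true true true .pp 0 2 2 (qsf 0 536870912 1073741824 536870912 2) ndN1q0 ndN3q2 pcN2 Cut.none Ext.none)

def k0_pp_022 : ∃ t, chk3 f_pp_022 t 1 1 1 = true :=
  ⟨(l 4), by decide +kernel⟩

theorem c_pp_022 : CertN 0 536870912 1073741824 536870912 201326592 134217728 3 true true true .pp 0 2 2
    ndN1q0 ndN3q2 pcN2 Cut.none Ext.none :=
  certN0 (fam := true) (s1 := true) (s2 := true) (a := 0) (b := 2) (c := 2) (cn := .pp) (n1 := ndN1q0) (n2 := ndN3q2) (pc := pcN2) (cut := Cut.none) (xt := Ext.none) (P1 := 0) (W1 := 536870912) (P2 := 1073741824) (W2 := 536870912) (P3 := 201326592) (W3 := 134217728) (N0 := 3)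
    rfl k0_pp_022

noncomputable def f_pp_023 : ℕ → ℕ → ℕ → ℕ → Bool := onCell 0 536870912 1073741824 536870912 201326592 134217728
    (rowN 3 0 true true true .up 0 2 3 (qsf 0 536870912 1073741824 536870912 3) ndN1q0 ndN3q2 pcN3 Cut.none Ext.none)

def k0_pp_023 : ∃ t, chk3 f_pp_023 t 1 1 1 = true :=
  ⟨(l 4), by decide +kernel⟩

theorem c_pp_023 : CertN 0 536870912 1073741824 536870912 201326592 134217728 3 true true true .up 0 2 3
    ndN1q0 ndN3q2 pcN3 Cut.none Ext.none :=
  certN0 (fam := true) (s1 := true) (s2 := true) (a := 0) (b := 2) (c := 3) (cn := .up) (n1 := ndN1q0) (n2 := ndN3q2) (pc := pcN3) (cut := Cut.none) (xt := Ext.none) (P1 := 0) (W1 := 536870912) (P2 := 1073741824) (W2 := 536870912) (P3 := 201326592) (W3 := 134217728) (N0 := 3)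
    rfl k0_pp_023

noncomputable def f_pp_033 : ℕ → ℕ → ℕ → ℕ → Bool := onCell 0 536870912 0 1230186008 201326592 134217728
    (rowN 3 0 true true true .pnn 0 3 3 (qsf 0 536870912 0 1230186008 3) ndN1q0 ndN3q3 pcN3 Cut.none Ext.none)

def k0_pp_033 : ∃ t, chk3 f_pp_033 t 1 1 1 = true :=
  ⟨(b (l 4) (l 4)), by decide +kernel⟩

theorem c_pp_033 : CertN 0 536870912 0 1230186008 201326592 134217728 3 true true true .pnn 0 3 3
    ndN1q0 ndN3q3 pcN3 Cut.none Ext.none :=
  certN0 (fam := true) (s1 := true) (s2 := true) (a := 0) (b := 3) (c := 3) (cn := .pnn) (n1 := ndN1q0) (n2 := ndN3q3) (pc := pcN3) (cut := Cut.none) (xt := Ext.none) (P1 := 0) (W1 := 536870912) (P2 := 0) (W2 := 1230186008) (P3 := 201326592) (W3 := 134217728) (N0 := 3)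
    rfl k0_pp_033

noncomputable def f_pp_101 : ℕ → ℕ → ℕ → ℕ → Bool := onCell 536870912 536870912 0 536870912 201326592 134217728
    (rowN 3 0 true true true .npn 1 0 1 (qsf 536870912 536870912 0 536870912 1) ndN1q1 ndN3q0 pcN1 Cut.none Ext.none)

def k0_pp_101 : ∃ t, chk3 f_pp_101 t 1 1 1 = true :=
  ⟨(l 4), by decide +kernel⟩

theorem c_pp_101 : CertN 536870912 536870912 0 536870912 201326592 134217728 3 true true true .npn 1 0 1
    ndN1q1 ndN3q0 pcN1 Cut.none Ext.none :=
  certN0 (fam := true) (s1 := true) (s2 := true) (a := 1) (b := 0) (c := 1) (cn := .npn) (n1 := ndN1q1) (n2 := ndN3q0) (pc := pcN1) (cut := Cut.none) (xt := Ext.none) (P1 := 536870912) (W1 := 536870912) (P2 := 0) (W2 := 536870912) (P3 := 201326592) (W3 := 134217728) (N0 := 3)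
    rfl k0_pp_101

noncomputable def f_pp_102 : ℕ → ℕ → ℕ → ℕ → Bool := onCell 536870912 536870912 0 536870912 201326592 134217728
    (rowN 3 0 true true true .npp 1 0 2 (qsf 536870912 536870912 0 536870912 2) ndN1q1 ndN3q0 pcN2 Cut.none Ext.none)

def k0_pp_102 : ∃ t, chk3 f_pp_102 t 1 1 1 = true :=
  ⟨(l 4), by decide +kernel⟩

theorem c_pp_102 : CertN 536870912 536870912 0 536870912 201326592 134217728 3 true true true .npp 1 0 2
    ndN1q1 ndN3q0 pcN2 Cut.none Ext.none :=
  certN0 (fam := true) (s1 := true) (s2 := true) (a := 1) (b := 0) (c := 2) (cn := .npp) (n1 := ndN1q1) (n2 := ndN3q0) (pc := pcN2) (cut := Cut.none) (xt := Ext.none) (P1 := 536870912) (W1 := 536870912) (P2 := 0) (W2 := 536870912) (P3 := 201326592) (W3 := 134217728) (N0 := 3)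
    rfl k0_pp_102

noncomputable def f_pp_112 : ℕ → ℕ → ℕ → ℕ → Bool := onCell 536870912 536870912 536870912 536870912 201326592 134217728
    (rowN 3 0 true true true .dn 1 1 2 (qsf 536870912 536870912 536870912 536870912 2) ndN1q1 ndN3q1 pcN2 Cut.none Ext.none)

def k0_pp_112 : ∃ t, chk3 f_pp_112 t 1 1 1 = true :=
  ⟨(l 4), by decide +kernel⟩

theorem c_pp_112 : CertN 536870912 536870912 536870912 536870912 201326592 134217728 3 true true true .dn 1 1 2
    ndN1q1 ndN3q1 pcN2 Cut.none Ext.none :=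
  certN0 (fam := true) (s1 := true) (s2 := true) (a := 1) (b := 1) (c := 2) (cn := .dn) (n1 := ndN1q1) (n2 := ndN3q1) (pc := pcN2) (cut := Cut.none) (xt := Ext.none) (P1 := 536870912) (W1 := 536870912) (P2 := 536870912) (W2 := 536870912) (P3 := 201326592) (W3 := 134217728) (N0 := 3)
    rfl k0_pp_112

noncomputable def f_pp_113 : ℕ → ℕ → ℕ → ℕ → Bool := onCell 536870912 536870912 536870912 536870912 201326592 134217728
    (rowN 3 0 true true true .nn 1 1 3 (qsf 536870912 536870912 536870912 536870912 3) ndN1q1 ndN3q1 pcN3 Cut.none Ext.none)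

def k0_pp_113 : ∃ t, chk3 f_pp_113 t 1 1 1 = true :=
  ⟨(l 4), by decide +kernel⟩

theorem c_pp_113 : CertN 536870912 536870912 536870912 536870912 201326592 134217728 3 true true true .nn 1 1 3
    ndN1q1 ndN3q1 pcN3 Cut.none Ext.none :=
  certN0 (fam := true) (s1 := true) (s2 := true) (a := 1) (b := 1) (c := 3) (cn := .nn) (n1 := ndN1q1) (n2 := ndN3q1) (pc := pcN3) (cut := Cut.none) (xt := Ext.none) (P1 := 536870912) (W1 := 536870912) (P2 := 536870912) (W2 := 536870912) (P3 := 201326592) (W3 := 134217728) (N0 := 3)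
    rfl k0_pp_113

noncomputable def f_pp_123 : ℕ → ℕ → ℕ → ℕ → Bool := onCell 536870912 536870912 1073741824 536870912 201326592 134217728
    (rowN 3 0 true true true .npn 1 2 3 (qsf 536870912 536870912 1073741824 536870912 3) ndN1q1 ndN3q2 pcN3 Cut.none Ext.none)

def k0_pp_123 : ∃ t, chk3 f_pp_123 t 1 1 1 = true :=
  ⟨(l 4), by decide +kernel⟩

theorem c_pp_123 : CertN 536870912 536870912 1073741824 536870912 201326592 134217728 3 true true true .npn 1 2 3
    ndN1q1 ndN3q2 pcN3 Cut.none Ext.none :=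
  certN0 (fam := true) (s1 := true) (s2 := true) (a := 1) (b := 2) (c := 3) (cn := .npn) (n1 := ndN1q1) (n2 := ndN3q2) (pc := pcN3) (cut := Cut.none) (xt := Ext.none) (P1 := 536870912) (W1 := 536870912) (P2 := 1073741824) (W2 := 536870912) (P3 := 201326592) (W3 := 134217728) (N0 := 3)
    rfl k0_pp_123

noncomputable def f_pp_133 : ℕ → ℕ → ℕ → ℕ → Bool := onCell 536870912 536870912 0 1230186008 201326592 134217728
    (rowN 3 0 true true true .dn 1 3 3 (qsf 536870912 536870912 0 1230186008 3) ndN1q1 ndN3q3 pcN3 Cut.none Ext.none)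

def k0_pp_133 : ∃ t, chk3 f_pp_133 t 1 1 1 = true :=
  ⟨(l 4), by decide +kernel⟩

theorem c_pp_133 : CertN 536870912 536870912 0 1230186008 201326592 134217728 3 true true true .dn 1 3 3
    ndN1q1 ndN3q3 pcN3 Cut.none Ext.none :=
  certN0 (fam := true) (s1 := true) (s2 := true) (a := 1) (b := 3) (c := 3) (cn := .dn) (n1 := ndN1q1) (n2 := ndN3q3) (pc := pcN3) (cut := Cut.none) (xt := Ext.none) (P1 := 536870912) (W1 := 536870912) (P2 := 0) (W2 := 1230186008) (P3 := 201326592) (W3 := 134217728) (N0 := 3)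
    rfl k0_pp_133

noncomputable def f_pp_202_a : ℕ → ℕ → ℕ → ℕ → Bool := onCell 0 536870912 0 536870912 201326592 134217728
    (rowN 3 0 true true true .pp 2 0 2 (qsf 0 536870912 0 536870912 2) ndN1q2a ndN3q0 pcN2 Cut.none Ext.none)

def k0_pp_202_a : ∃ t, chk3 f_pp_202_a t 1 1 1 = true :=
  ⟨(l 5), by decide +kernel⟩

theorem c_pp_202_a : CertN 0 536870912 0 536870912 201326592 134217728 3 true true true .pp 2 0 2
    ndN1q2a ndN3q0 pcN2 Cut.none Ext.none :=
  certN0 (fam := true) (s1 := true) (s2 := true) (a := 2) (b := 0) (c := 2) (cn := .pp) (n1 := ndN1q2a) (n2 := ndN3q0) (pc := pcN2) (cut := Cut.none) (xt := Ext.none) (P1 := 0) (W1 := 536870912) (P2 := 0) (W2 := 536870912) (P3 := 201326592) (W3 := 134217728) (N0 := 3)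
    rfl k0_pp_202_a

noncomputable def f_pp_202_b : ℕ → ℕ → ℕ → ℕ → Bool := onCell 1239849684 370763052 0 536870912 201326592 134217728
    (rowN 3 0 true true true .pp 2 0 2 (qsf 1239849684 370763052 0 536870912 2) ndN1q2b ndN3q0 pcN2 Cut.none Ext.none)

def k0_pp_202_b : ∃ t, chk3 f_pp_202_b t 1 1 1 = true :=
  ⟨(l 5), by decide +kernel⟩

theorem c_pp_202_b : CertN 1239849684 370763052 0 536870912 201326592 134217728 3 true true true .pp 2 0 2
    ndN1q2b ndN3q0 pcN2 Cut.none Ext.none :=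
  certN0 (fam := true) (s1 := true) (s2 := true) (a := 2) (b := 0) (c := 2) (cn := .pp) (n1 := ndN1q2b) (n2 := ndN3q0) (pc := pcN2) (cut := Cut.none) (xt := Ext.none) (P1 := 1239849684) (W1 := 370763052) (P2 := 0) (W2 := 536870912) (P3 := 201326592) (W3 := 134217728) (N0 := 3)
    rfl k0_pp_202_b

noncomputable def f_pp_203_a : ℕ → ℕ → ℕ → ℕ → Bool := onCell 0 536870912 0 536870912 201326592 134217728
    (rowN 3 0 true true true .up 2 0 3 (qsf 0 536870912 0 536870912 3) ndN1q2a ndN3q0 pcN3 Cut.none Ext.none)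

def k0_pp_203_a : ∃ t, chk3 f_pp_203_a t 1 1 1 = true :=
  ⟨(l 5), by decide +kernel⟩

theorem c_pp_203_a : CertN 0 536870912 0 536870912 201326592 134217728 3 true true true .up 2 0 3
    ndN1q2a ndN3q0 pcN3 Cut.none Ext.none :=
  certN0 (fam := true) (s1 := true) (s2 := true) (a := 2) (b := 0) (c := 3) (cn := .up) (n1 := ndN1q2a) (n2 := ndN3q0) (pc := pcN3) (cut := Cut.none) (xt := Ext.none) (P1 := 0) (W1 := 536870912) (P2 := 0) (W2 := 536870912) (P3 := 201326592) (W3 := 134217728) (N0 := 3)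
    rfl k0_pp_203_a

noncomputable def f_pp_203_b : ℕ → ℕ → ℕ → ℕ → Bool := onCell 1239849684 370763052 0 536870912 201326592 134217728
    (rowN 3 0 true true true .up 2 0 3 (qsf 1239849684 370763052 0 536870912 3) ndN1q2b ndN3q0 pcN3 Cut.none Ext.none)

def k0_pp_203_b : ∃ t, chk3 f_pp_203_b t 1 1 1 = true :=
  ⟨(l 5), by decide +kernel⟩

theorem c_pp_203_b : CertN 1239849684 370763052 0 536870912 201326592 134217728 3 true true true .up 2 0 3
    ndN1q2b ndN3q0 pcN3 Cut.none Ext.none :=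
  certN0 (fam := true) (s1 := true) (s2 := true) (a := 2) (b := 0) (c := 3) (cn := .up) (n1 := ndN1q2b) (n2 := ndN3q0) (pc := pcN3) (cut := Cut.none) (xt := Ext.none) (P1 := 1239849684) (W1 := 370763052) (P2 := 0) (W2 := 536870912) (P3 := 201326592) (W3 := 134217728) (N0 := 3)
    rfl k0_pp_203_b

noncomputable def f_pp_213_a : ℕ → ℕ → ℕ → ℕ → Bool := onCell 0 536870912 536870912 536870912 201326592 134217728
    (rowN 3 0 true true true .pnn 2 1 3 (qsf 0 536870912 536870912 536870912 3) ndN1q2a ndN3q1 pcN3 Cut.none Ext.none)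

def k0_pp_213_a : ∃ t, chk3 f_pp_213_a t 1 1 1 = true :=
  ⟨(l 4), by decide +kernel⟩

theorem c_pp_213_a : CertN 0 536870912 536870912 536870912 201326592 134217728 3 true true true .pnn 2 1 3
    ndN1q2a ndN3q1 pcN3 Cut.none Ext.none :=
  certN0 (fam := true) (s1 := true) (s2 := true) (a := 2) (b := 1) (c := 3) (cn := .pnn) (n1 := ndN1q2a) (n2 := ndN3q1) (pc := pcN3) (cut := Cut.none) (xt := Ext.none) (P1 := 0) (W1 := 536870912) (P2 := 536870912) (W2 := 536870912) (P3 := 201326592) (W3 := 134217728) (N0 := 3)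
    rfl k0_pp_213_a

noncomputable def f_pp_213_b : ℕ → ℕ → ℕ → ℕ → Bool := onCell 1239849684 370763052 536870912 536870912 201326592 134217728
    (rowN 3 0 true true true .pnn 2 1 3 (qsf 1239849684 370763052 536870912 536870912 3) ndN1q2b ndN3q1 pcN3 Cut.none Ext.none)

def k0_pp_213_b : ∃ t, chk3 f_pp_213_b t 1 1 1 = true :=
  ⟨(l 4), by decide +kernel⟩

theorem c_pp_213_b : CertN 1239849684 370763052 536870912 536870912 201326592 134217728 3 true true true .pnn 2 1 3
    ndN1q2b ndN3q1 pcN3 Cut.none Ext.none :=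
  certN0 (fam := true) (s1 := true) (s2 := true) (a := 2) (b := 1) (c := 3) (cn := .pnn) (n1 := ndN1q2b) (n2 := ndN3q1) (pc := pcN3) (cut := Cut.none) (xt := Ext.none) (P1 := 1239849684) (W1 := 370763052) (P2 := 536870912) (W2 := 536870912) (P3 := 201326592) (W3 := 134217728) (N0 := 3)
    rfl k0_pp_213_b

noncomputable def f_pp_303 : ℕ → ℕ → ℕ → ℕ → Bool := onCell 1610612736 536870912 0 536870912 201326592 134217728
    (rowN 3 0 true true true .npn 3 0 3 (qsf 1610612736 536870912 0 536870912 3) ndN1q3 ndN3q0 pcN3 Cut.none Ext.none)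

def k0_pp_303 : ∃ t, chk3 f_pp_303 t 1 1 1 = true :=
  ⟨(l 4), by decide +kernel⟩

theorem c_pp_303 : CertN 1610612736 536870912 0 536870912 201326592 134217728 3 true true true .npn 3 0 3
    ndN1q3 ndN3q0 pcN3 Cut.none Ext.none :=
  certN0 (fam := true) (s1 := true) (s2 := true) (a := 3) (b := 0) (c := 3) (cn := .npn) (n1 := ndN1q3) (n2 := ndN3q0) (pc := pcN3) (cut := Cut.none) (xt := Ext.none) (P1 := 1610612736) (W1 := 536870912) (P2 := 0) (W2 := 536870912) (P3 := 201326592) (W3 := 134217728) (N0 := 3)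
    rfl k0_pp_303

noncomputable def f_pp_313 : ℕ → ℕ → ℕ → ℕ → Bool := onCell 1610612736 536870912 536870912 536870912 201326592 134217728
    (rowN 3 0 true true true .dn 3 1 3 (qsf 1610612736 536870912 536870912 536870912 3) ndN1q3 ndN3q1 pcN3 Cut.none Ext.none)

def k0_pp_313 : ∃ t, chk3 f_pp_313 t 1 1 1 = true :=
  ⟨(l 4), by decide +kernel⟩

theorem c_pp_313 : CertN 1610612736 536870912 536870912 536870912 201326592 134217728 3 true true true .dn 3 1 3
    ndN1q3 ndN3q1 pcN3 Cut.none Ext.none :=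
  certN0 (fam := true) (s1 := true) (s2 := true) (a := 3) (b := 1) (c := 3) (cn := .dn) (n1 := ndN1q3) (n2 := ndN3q1) (pc := pcN3) (cut := Cut.none) (xt := Ext.none) (P1 := 1610612736) (W1 := 536870912) (P2 := 536870912) (W2 := 536870912) (P3 := 201326592) (W3 := 134217728) (N0 := 3)
    rfl k0_pp_313

noncomputable def f_pm_001 : ℕ → ℕ → ℕ → ℕ → Bool := onCell 0 536870912 0 536870912 201326592 134217728
    (rowN 3 0 true true false .up 0 0 1 (qsf 0 536870912 0 536870912 1) ndN1q0 ndN3q0 pcN1 Cut.none Ext.none)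

def k0_pm_001 : ∃ t, chk3 f_pm_001 t 1 1 1 = true :=
  ⟨(a (l 3) (l 3)), by decide +kernel⟩

theorem c_pm_001 : CertN 0 536870912 0 536870912 201326592 134217728 3 true true false .up 0 0 1
    ndN1q0 ndN3q0 pcN1 Cut.none Ext.none :=
  certN0 (fam := true) (s1 := true) (s2 := false) (a := 0) (b := 0) (c := 1) (cn := .up) (n1 := ndN1q0) (n2 := ndN3q0) (pc := pcN1) (cut := Cut.none) (xt := Ext.none) (P1 := 0) (W1 := 536870912) (P2 := 0) (W2 := 536870912) (P3 := 201326592) (W3 := 134217728) (N0 := 3)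
    rfl k0_pm_001

noncomputable def cut_pm_011 : Cut := Cut.of [[⟨0, 0, 0, 67108864⟩, ⟨1, 1, 0, 67108864⟩, ⟨2, 1, 0, 67108864⟩]]

noncomputable def f_pm_011 : ℕ → ℕ → ℕ → ℕ → Bool := onCell 0 536870912 536870912 536870912 201326592 134217728
    (rowN 3 1 true true false .pnn 0 1 1 (qsf 0 536870912 536870912 536870912 1) ndN1q0 ndN3q1 pcN1 cut_pm_011 Ext.none)

def k0_pm_011 : ∃ t, chk3 f_pm_011 t 1 1 1 = true :=
  ⟨(b (l 3) (a (a (b (l 3) (a (b (l 3) (b (l 3) (a (b (l 3) (l 6)) (l 3)))) (l 3))) (l 3)) (l 3))), by decide +kernel⟩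

theorem c_pm_011 : CertN 0 536870912 536870912 536870912 201326592 134217728 3 true true false .pnn 0 1 1
    ndN1q0 ndN3q1 pcN1 cut_pm_011 Ext.none :=
  certN1 (fam := true) (s1 := true) (s2 := false) (a := 0) (b := 1) (c := 1) (cn := .pnn) (n1 := ndN1q0) (n2 := ndN3q1) (pc := pcN1) (cut := cut_pm_011) (xt := Ext.none) (P1 := 0) (W1 := 536870912) (P2 := 536870912) (W2 := 536870912) (P3 := 201326592) (W3 := 134217728) (N0 := 3)
    rfl (fun _ => rfl) k0_pm_011

noncomputable def cut_pm_012 : Cut := Cut.of [[⟨0, 0, 0, 67108864⟩, ⟨1, 1, 0, 67108864⟩, ⟨2, 1, 0, 67108864⟩]]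

noncomputable def f_pm_012 : ℕ → ℕ → ℕ → ℕ → Bool := onCell 1073741824 536870912 536870912 536870912 201326592 134217728
    (rowN 3 2 true true false .pnp 0 1 2 (qsf 0 536870912 536870912 536870912 2) ndN1q0 ndN3q1 pcN2 cut_pm_012 Ext.none)

def k0_pm_012 : ∃ t, chk3 f_pm_012 t 2 1 1 = true :=
  ⟨(b (a (a (l 3) (b (b (l 17446752) (a (l 17271784) (l 17355624))) (b (a (l 17216240) (l 17324616)) (a (l 17074616) (l 17236584))))) (b (a (a (a (b (l 2) (l 17408672)) (l 2)) (l 2)) (l 2)) (a (a (a (b (l 17394280) (l 17323488)) (b (l 17420864) (l 17373560))) (b (l 17481016) (l 17458976))) (b (l 17585528) (l 17608304))))) (a (b (a (b (l 3) (a (l 3) (b (l 16562704) (l 16629440)))) (b (a (b (l 16872304) (l 16661728)) (b (l 17064880) (l 16898952))) (a (b (l 16475904) (l 16508128)) (b (l 16657928) (l 16480544))))) (a (a (b (l 3) (a (b (l 3) (l 6)) (b (c (l 16697704) (l 16694720)) (b (a (l 6) (l 16705104)) (l 6))))) (b (b (c (l 16619248) (l 16615592)) (a (l 16612376) (l 16575064))) (b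 (a (b (l 16629024) (l 16622048)) (l 16665848)) (a (b (a (l 16665984) (l 16647648)) (b (l 16709928) (l 6))) (b (l 16642096) (c (l 16638408) (l 16631016))))))) (b (b (a (c (l 16512368) (l 16503688)) (a (l 16465928) (l 16446952))) (a (l 16612800) (l 16515512))) (a (b (a (l 16567984) (l 16535088)) (b (l 16632408) (a (l 16599376) (l 16565776)))) (b (l 16517824) (c (l 16526704) (l 16505824))))))) (b (a (b (a (a (l 17137352) (l 17223632)) (l 17349520)) (a (b (l 16932704) (l 16669912)) (l 17088960))) (b (l 17566136) (b (l 17468600) (l 17357368)))) (b (b (a (a (l 16625408) (l 16701904)) (l 17191160)) (a (c (l 16604296) (l 16568776)) (l 16938936))) (a (b (c (l 16588896) (l 16660536)) (a (a (l 16480584) (l 16531616)) (l 16435008))) (b (l 16558512) (l 16366376))))))), by decide +kernel⟩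

def k1_pm_012 : ∃ t, chk3 f_pm_012 t 3 1 1 = true :=
  ⟨(b (a (b (l 2) (b (l 2) (l 17809056))) (l 2)) (a (b (b (l 17858512) (c (l 18139384) (l 17579744))) (b (b (l 17810616) (l 17741136)) (a (c (l 17760728) (l 16701472)) (l 17791096)))) (b (b (l 2) (a (l 18087752) (l 2))) (b (b (a (l 18126152) (l 2)) (l 18217032)) (l 18239168))))), by decide +kernel⟩

theorem s2_pm_012 : ∃ t, chk3 f_pm_012 t 1 1 1 = true := ex3_a k0_pm_012 k1_pm_012

theorem c_pm_012 : CertN 0 536870912 536870912 536870912 201326592 134217728 3 true true false .pnp 0 1 2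
    ndN1q0 ndN3q1 pcN2 cut_pm_012 Ext.none :=
  certN2 (fam := true) (s1 := true) (s2 := false) (a := 0) (b := 1) (c := 2) (cn := .pnp) (n1 := ndN1q0) (n2 := ndN3q1) (pc := pcN2) (cut := cut_pm_012) (xt := Ext.none) (P1 := 0) (W1 := 536870912) (P2 := 536870912) (W2 := 536870912) (P3 := 201326592) (W3 := 134217728) (N0 := 3)
    rfl (fun _ => rfl) s2_pm_012

noncomputable def f_pm_022 : ℕ → ℕ → ℕ → ℕ → Bool := onCell 0 536870912 1073741824 536870912 201326592 134217728
    (rowN 3 0 true true false .pp 0 2 2 (qsf 0 536870912 1073741824 536870912 2) ndN1q0 ndN3q2 pcN2 Cut.none Ext.none)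

def k0_pm_022 : ∃ t, chk3 f_pm_022 t 8 4 1 = true :=
  ⟨(b (a (b (l 3) (a (l 3) (b (l 3) (a (l 3) (c (l 16722656) (l 155860153671)))))) (b (b (l 3) (a (l 3) (a (l 16798280) (l 16755456)))) (a (b (c (l 16785496) (l 16771048)) (c (l 16730368) (l 16740080))) (b (c (l 16697976) (l 16685792)) (b (l 16638376) (l 16628568)))))) (b (a (a (b (a (l 3) (b (l 3) (c (l 16648344) (l 203104634807)))) (b (a (l 3) (c (l 16622104) (l 16603072))) (a (c (l 116668480007) (l 114520984631)) (c (l 16576336) (l 16568920))))) (a (c (b (l 16711728) (l 16590664)) (b (l 5536346519) (l 16603976))) (b (c (l 16620304) (l 16611336)) (l 16634448)))) (a (b (c (l 16698176) (l 16680920)) (a (l 16617984) (c (l 16612368) (l 16594992)))) (b (a (l 16613616) (l 16674056)) (a (b (l 16556384) (l 16643408)) (l 16664176))))) (a (b (a (a (b (c (l 16613304) (l 16606360)) (c (l 16589632) (l 16562240))) (c (l 16603568) (l 16581448))) (a (c (l 16578656) (l 16559048)) (c (l 16617136) (l 16640256)))) (a (b (c (c (l 16582176)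 (l 16567088)) (l 16585384)) (a (c (l 16557528) (l 16557352)) (c (l 16555064) (l 16534760)))) (b (a (c (l 16521672) (l 16522952)) (b (l 16564112) (l 16575152))) (a (b (c (l 16513464) (l 16514560)) (a (l 16551568) (l 16522128))) (c (l 16590008) (l 16591744)))))) (b (a (a (b (l 16581400) (a (l 16527984) (l 16520136))) (b (a (l 16535408) (l 16527272)) (l 16619176))) (a (l 16644200) (l 16560304))) (b (c (l 16607472) (l 16630056)) (c (l 16557456) (l 16557952))))))), by decide +kernel⟩

def k1_pm_022 : ∃ t, chk3 f_pm_022 t 9 4 1 = true :=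
  ⟨(b (b (a (b (a (b (l 16789384) (l 16720632)) (l 16757288)) (a (c (l 16686768) (l 16673568)) (a (l 16628656) (l 16627840)))) (b (a (l 16780216) (a (l 16645552) (l 16661000))) (a (c (l 16789336) (l 16838784)) (l 16742448)))) (a (b (a (l 16749352) (a (l 16607880) (l 16667600))) (b (a (l 16614736) (a (l 16589728) (l 16576608))) (a (l 16666080) (l 16655312)))) (c (l 16708696) (l 16757344)))) (b (a (a (b (a (b (l 16573240) (l 16552616)) (l 16661912)) (l 16662320)) (l 16734336)) (l 16504472)) (b (l 16496184) (b (l 16457696) (l 16487128))))), by decide +kernel⟩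

def k2_pm_022 : ∃ t, chk3 f_pm_022 t 4 5 1 = true :=
  ⟨(a (b (b (a (b (c (a (b (a (a (l 16546392) (l 16545472)) (a (l 16543256) (l 16559536))) (a (b (l 16533840) (b (l 16506184) (l 16521040))) (l 16586920))) (b (l 16618632) (l 16538520))) (a (b (a (l 16566840) (b (l 16505496) (l 16495280))) (a (a (l 16532024) (l 16549248)) (l 16586976))) (b (l 16611400) (l 16519640)))) (b (a (a (a (b (c (l 16493832) (l 16475840)) (c (l 16476512) (l 16459112))) (c (l 16561400) (l 16557632))) (c (l 16531928) (l 16531008))) (l 16492416)) (b (a (c (a (l 16527184) (l 16446120)) (l 16531392)) (l 16458376)) (a (c (b (l 16505904) (l 16511392)) (b (l 16492480) (l 16492224))) (c (l 16516120) (l 16493120)))))) (b (b (l 16493120) (l 16476768)) (b (l 16460080) (c (l 16578840) (b (l 16405304) (l 16438568)))))) (b (a (c (a (l 16495040) (l 16417968)) (l 16482888)) (l 16431888)) (a (c (a (l 16446032) (l 16369912)) (l 16430664)) (l 16402912)))) (b (a (c (b (l 16436472) (a (l 16379592) (l 16592712))) (b (l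 16402512) (l 16377608))) (c (l 16785968) (l 16352096))) (c (a (a (b (l 16612712) (l 16834336)) (l 16908648)) (l 17126128)) (a (a (l 16384392) (l 16292824)) (l 16251040))))) (b (b (b (c (l 16477408) (l 16440976)) (b (l 16439344) (b (l 16383736) (a (l 16428512) (l 16472272))))) (c (l 16892752) (l 16384312))) (b (a (b (l 16571488) (l 16738272)) (l 16936080)) (a (l 16933928) (l 17158392))))), by decide +kernel⟩

def k3_pm_022 : ∃ t, chk3 f_pm_022 t 5 2 1 = true :=
  ⟨(b (a (b (b (a (b (l 16847304) (l 16741848)) (l 16580360)) (l 16537368)) (b (l 16490032) (b (l 16470728) (b (l 16583632) (l 16654600))))) (b (b (l 16570248) (l 16638024)) (b (l 16857520) (b (l 17002888) (l 17088656))))) (b (b (a (b (a (l 16602752) (l 16883512)) (b (l 16847280) (b (l 16891176) (l 16919568)))) (b (l 17169144) (b (l 17224368) (l 17258976)))) (a (a (l 16930840) (l 17129416)) (a (l 17275512) (l 17383616)))) (a (b (a (l 17139208) (l 17288408)) (a (l 17307608) (l 17416512))) (b (l 17441640) (l 17526256))))),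 by decide +kernel⟩

def k4_pm_022 : ∃ t, chk3 f_pm_022 t 2 3 1 = true :=
  ⟨(a (b (b (a (a (c (b (b (l 16928728) (l 17250096)) (a (l 17400888) (l 17484600))) (b (l 16342704) (b (l 16546744) (l 16718144)))) (b (c (l 17386560) (l 16585496)) (c (l 17586184) (l 16877208)))) (b (a (c (l 17536720) (l 16836552)) (l 17335632)) (a (l 17331800) (l 17473520)))) (a (a (b (c (a (l 17619456) (l 17672912)) (a (l 16889800) (l 16986944))) (c (l 17798088) (b (l 17125976) (l 17230656)))) (b (c (l 17736384) (l 17108600)) (c (l 17845392) (l 17289704)))) (b (a (l 17515448) (l 17580352)) (l 17642112)))) (b (a (b (a (c (l 17901208) (b (l 17311688) (l 17378000))) (l 17673632)) (l 17737008)) (b (l 17709864) (l 17764776))) (a (l 17830416) (l 17826328)))) (b (b (a (b (a (l 17441192) (l 17518048)) (l 17572552)) (l 17616200)) (b (l 17656624) (l 17681848))) (b (b (l 17706872) (l 2)) (l 2)))), by decide +kernel⟩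

def k5_pm_022 : ∃ t, chk3 f_pm_022 t 3 1 1 = true :=
  ⟨(b (a (b (a (b (b (l 16907648) (l 17056600)) (b (l 17195480) (b (l 17288368) (l 17343736)))) (b (b (l 17184664) (l 17288376)) (b (l 17384960) (b (l 17446144) (l 17482848))))) (b (b (b (a (l 17396760) (l 17517584)) (b (l 17493304) (l 17510360))) (l 17541016)) (b (l 17589264) (l 17623000)))) (b (b (a (b (l 17470944) (l 17417720)) (l 17459752)) (b (l 17514512) (b (l 17551544) (l 17571136)))) (b (b (b (l 17589640) (l 2)) (l 2)) (l 2)))) (a (b (b (l 17648088) (l 2)) (l 2)) (l 2))), by decide +kernel⟩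

theorem s6_pm_022 : ∃ t, chk3 f_pm_022 t 4 4 1 = true := ex3_a k0_pm_022 k1_pm_022

theorem s7_pm_022 : ∃ t, chk3 f_pm_022 t 4 2 1 = true := ex3_b s6_pm_022 k2_pm_022

theorem s8_pm_022 : ∃ t, chk3 f_pm_022 t 2 2 1 = true := ex3_a s7_pm_022 k3_pm_022

theorem s9_pm_022 : ∃ t, chk3 f_pm_022 t 2 1 1 = true := ex3_b s8_pm_022 k4_pm_022

theorem s10_pm_022 : ∃ t, chk3 f_pm_022 t 1 1 1 = true := ex3_a s9_pm_022 k5_pm_022

theorem c_pm_022 : CertN 0 536870912 1073741824 536870912 201326592 134217728 3 true true false .pp 0 2 2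
    ndN1q0 ndN3q2 pcN2 Cut.none Ext.none :=
  certN0 (fam := true) (s1 := true) (s2 := false) (a := 0) (b := 2) (c := 2) (cn := .pp) (n1 := ndN1q0) (n2 := ndN3q2) (pc := pcN2) (cut := Cut.none) (xt := Ext.none) (P1 := 0) (W1 := 536870912) (P2 := 1073741824) (W2 := 536870912) (P3 := 201326592) (W3 := 134217728) (N0 := 3)
    rfl s10_pm_022

noncomputable def f_pm_023 : ℕ → ℕ → ℕ → ℕ → Bool := onCell 1610612736 536870912 1073741824 536870912 201326592 134217728
    (rowN 3 2 true true false .up 0 2 3 (qsf 0 536870912 1073741824 536870912 3) ndN1q0 ndN3q2 pcN3 Cut.none Ext.none)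

def k0_pm_023 : ∃ t, chk3 f_pm_023 t 1 1 1 = true :=
  ⟨(a (b (a (b (b (l 17531416) (b (l 17570000) (b (l 17589616) (l 17600312)))) (b (b (b (l 17612048) (l 17684712)) (l 17624728)) (b (l 17639240) (l 17652776)))) (b (b (l 2) (b (l 2) (b (l 2) (l 17650544)))) (b (b (b (l 17657384) (l 17662104)) (l 17655168)) (b (l 17656824) (l 17655896))))) (b (b (a (l 17713792) (l 17650928)) (a (a (l 17700672) (l 17697544)) (l 17639216))) (b (a (a (l 17763168) (l 17740760)) (l 17663744)) (a (a (l 17831032) (l 17797832)) (l 17716008))))) (b (a (b (l 2) (b (l 2) (a (l 17609576) (l 2)))) (l 2)) (a (b (b (a (l 17596384) (l 17560392)) (a (l 17566008) (l 17519136))) (b (l 17548744) (l 17585232))) (a (b (b (l 2) (l 17470184)) (b (l 17456792) (l 17481384))) (l 4))))), by decide +kernel⟩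

theorem c_pm_023 : CertN 0 536870912 1073741824 536870912 201326592 134217728 3 true true false .up 0 2 3
    ndN1q0 ndN3q2 pcN3 Cut.none Ext.none :=
  certN2 (fam := true) (s1 := true) (s2 := false) (a := 0) (b := 2) (c := 3) (cn := .up) (n1 := ndN1q0) (n2 := ndN3q2) (pc := pcN3) (cut := Cut.none) (xt := Ext.none) (P1 := 0) (W1 := 536870912) (P2 := 1073741824) (W2 := 536870912) (P3 := 201326592) (W3 := 134217728) (N0 := 3)
    rfl (fun _ => rfl) k0_pm_023

end Pool.Agent.Strip051.G.I3_16_5_16.Tab.C.NA13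

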