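import Pool.Agent.Strip051.G.I3_16_5_16.Tab

/-! # Certificates N2 (generated) -/

set_option linter.all false
set_option maxRecDepth 100000

namespace Pool.Agent.Strip051.G.I3_16_5_16.Tab.C.NA00

open Pool.Agent.Strip051.PB Pool.Agent.Strip051.PB.T
open Pool.Agent.Strip051.G.I3_16_5_16.Tab

noncomputable def cut_pm_022 : Cut := Cut.of [[⟨0, 0, 0, 67108864⟩, ⟨1, 1, 0, 67108864⟩, ⟨2, 1, 0, 67108864⟩], [⟨0, 0, 1, 67108864⟩, ⟨1, 1, 0, 16777216⟩, ⟨2, 1, 1, 67108864⟩]]

noncomputable def f_pm_022 : ℕ → ℕ → ℕ → ℕ → Bool := onCell 1073741824 536870912 0 536870912 201326592 134217728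
    (rowN 3 2 true true false .pp 0 2 2 (qsf 0 536870912 0 536870912 2) ndN0q0 ndN0q2 pcN2 cut_pm_022 Ext.none)

def k0_pm_022 : ∃ t, chk3 f_pm_022 t 4 2 1 = true :=
  ⟨(b (l 1) (a (l 1) (a (l 1) (a (l 1) (b (l 1) (b (l 1) (a (l 1) (c (a (l 16549248) (b (l 16527240) (l 16535464))) (a (l 16522600) (l 16545808)))))))))), by decide +kernel⟩

def k1_pm_022 : ∃ t, chk3 f_pm_022 t 10 2 1 = true :=
  ⟨(a (a (b (l 1) (b (a (l 1) (c (b (l 16506712) (c (l 16527032) (l 16523536))) (b (l 16479984) (l 16517848)))) (c (a (b (a (l 16538320) (l 16540056)) (c (l 16557144) (l 16553576))) (b (b (l 16538008) (l 16546184)) (l 16568728))) (a (b (b (l 16527152) (l 16535400)) (b (l 16543648) (l 16551872))) (b (l 16534008) (l 16549944)))))) (b (b (a (l 1) (a (l 1) (b (c (l 16481144) (l 16452032)) (c (l 16504960) (l 16477184))))) (a (c (c (l 16510992) (l 16508848)) (l 16504960)) (c (a (b (l 16466368) (l 16477992)) (b (l 16511592) (a (l 16480040) (l 16502248)))) (a (l 16487792) (b (l 16505592) (l 16537640)))))) (c (b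 (a (b (c (l 16513016) (l 16510056)) (l 16529512)) (a (b (l 16494152) (l 16511552)) (a (l 16546688) (b (l 16517856) (l 16534728))))) (a (b (l 16545872) (l 16571792)) (a (b (l 16527408) (l 16542360)) (b (a (l 16528560) (l 16550088)) (a (l 16543264) (l 16564576)))))) (a (b (b (c (l 16506768) (l 16503160)) (l 16521280)) (b (l 16536880) (l 16552288))) (b (a (l 16516232) (a (l 16517592) (l 16539336))) (a (l 16567944) (a (l 16568816) (b (l 16540376) (l 16554928))))))))) (b (c (b (a (c (l 16493744) (l 16489720)) (b (l 16488760) (l 16488016))) (a (b (l 16497688) (l 16507464)) (c (l 16518168) (l 16514384)))) (a (b (l 16483216) (l 16516944)) (b (l 16498472) (l 16507768)))) (b (a (c (b (l 16521840) (l 16537528)) (b (l 16513792) (l 16528080))) (c (b (l 16511520) (l 16525432)) (l 16571768))) (a (c (b (l 16562248) (a (l 16544360) (l 16546920))) (b (l 16541760) (l 16555360))) (c (b (l 16537992) (l 16570816)) (b (l 16527128) (l 16539336))))))), by decide +kernel⟩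

def k2_pm_022 : ∃ t, chk3 f_pm_022 t 11 2 1 = true :=
  ⟨(b (a (b (a (c (l 16528344) (l 16494136)) (c (l 16549280) (l 16512280))) (a (c (l 16551904) (l 16520536)) (c (l 16546920) (l 16513424)))) (b (c (b (l 16608272) (l 16608992)) (l 16605176)) (c (a (l 16543512) (l 16693256)) (a (l 16528488) (l 16544808))))) (a (b (c (a (b (l 16522912) (l 16534792)) (l 16582384)) (a (l 16538944) (l 16527768))) (c (a (b (l 16545432) (l 16555472)) (b (l 16553440) (l 16561400))) (a (b (l 16533704) (l 16544328)) (l 16587544)))) (b (c (a (l 16573816) (l 16700608)) (a (l 16538336) (l 16549664))) (c (b (l 16615712) (a (l 16567808) (l 16716328))) (a (l 16551976) (l 16558232)))))), by decide +kernel⟩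

def k3_pm_022 : ∃ t, chk3 f_pm_022 t 4 6 1 = true :=
  ⟨(a (l 1) (a (b (l 1) (b (a (l 1) (c (b (a (l 1) (l 16619040)) (a (l 16616512) (c (l 16603768) (l 16600024)))) (a (l 16626104) (a (l 16616464) (l 16609912))))) (a (a (l 1) (c (b (l 16634368) (c (l 16640288) (l 16636256))) (b (l 16625112) (l 16630432)))) (c (b (a (c (l 16622336) (l 16618368)) (l 16626800)) (c (l 16639672) (l 16636776))) (a (b (l 16612664) (l 16638976)) (l 16623568)))))) (a (b (b (c (a (l 1) (l 16557784)) (l 16559712)) (c (c (a (l 16593368) (l 16577160)) (a (l 16554472) (l 16553696))) (a (l 16595296) (l 16571112)))) (b (c (c (b (l 16597368) (l 16601248)) (l 16607280)) (b (l 16600928) (l 16595560))) (c (b (l 16606704) (c (l 16622000) (l 16600000))) (b (l 16606440) (l 16619056))))) (b (b (a (c (c (l 16540384) (l 16538744)) (l 16535888)) (c (c (l 16588576) (l 16585952)) (c (l 16583120) (l 16580096)))) (a (c (l 16576032) (l 16551872)) (c (c (l 16603920) (l 16601488)) (c (l 16598848) (l 16596000))))) (a (b (c (l 16595264) (l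 16591784)) (c (c (l 16621368) (l 16598152)) (l 16615400))) (c (b (c (l 16622440) (l 16619856)) (c (l 16649064) (l 16643248))) (b (b (l 16609896) (l 16621064)) (c (l 16639880) (l 16636336))))))))), by decide +kernel⟩

def k4_pm_022 : ∃ t, chk3 f_pm_022 t 8 7 1 = true :=
  ⟨(b (c (c (a (l 1) (b (a (l 1) (a (l 1) (b (l 1) (b (l 16673512) (l 16675272))))) (a (l 6) (a (l 6) (b (l 16688352) (l 16691504)))))) (a (l 1) (a (b (l 1) (l 6)) (a (b (l 1) (l 6)) (b (b (l 1) (b (l 16669528) (l 16671712))) (b (l 16674936) (l 16699928))))))) (c (c (a (l 1) (a (b (l 1) (l 6)) (a (b (l 1) (l 6)) (b (b (l 1) (l 16667888)) (b (l 16672792) (l 16698416)))))) (a (l 1) (a (b (l 1) (l 6)) (a (b (l 1) (l 6)) (b (b (l 1) (l 16666080)) (b (l 16671376) (l 16697416))))))) (b (b (l 1) (a (l 1) (a (l 1) (a (l 1) (l 16663400))))) (b (a (l 1) (a (l 1) (a (l 6) (l 16669288)))) (a (l 1) (a (l 6) (a (l 6) (l 16695936)))))))) (a (l 6) (b (a (l 6) (a (l 6) (c (b (c (l 16694280) (l 16703584)) (c (l 16706272) (l 16702912))) (b (l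 16691352) (l 16706944))))) (b (a (l 6) (a (l 6) (a (l 6) (a (l 6) (c (b (l 16704384) (l 16723368)) (l 16726272)))))) (a (l 6) (a (l 6) (a (l 6) (a (l 6) (a (l 6) (b (c (c (l 16722248) (l 16720064)) (l 16716720)) (c (c (c (l 16742064) (l 16730320)) (l 16738904)) (c (l 16725856) (l 16723248))))))))))))), by decide +kernel⟩

def k5_pm_022 : ∃ t, chk3 f_pm_022 t 18 14 1 = true :=
  ⟨(b (a (a (c (b (c (b (l 16656720) (l 16658528)) (l 16653688)) (c (l 16661280) (l 16658104))) (b (a (l 16650896) (l 16644968)) (l 16674464))) (c (b (l 16663280) (l 16662160)) (b (l 16656888) (l 16641464)))) (c (b (c (l 16643568) (l 16641328)) (c (l 16647504) (l 16645928))) (b (l 16638144) (l 16644864)))) (a (c (b (c (b (l 16678264) (l 16680000)) (l 16677056)) (c (a (l 16689024) (l 16676672)) (l 16680464))) (b (c (l 16675008) (l 16673016)) (a (l 16685184) (l 16675336)))) (c (b (c (l 16650320) (l 16659944)) (c (a (l 16676048) (l 16654960)) (l 16674440))) (b (l 16658400) (l 16672072))))), by decide +kernel⟩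

def k6_pm_022 : ∃ t, chk3 f_pm_022 t 18 30 1 = true :=
  ⟨(c (a (b (c (a (l 16694568) (l 16692856)) (a (l 16694024) (l 16691736))) (c (a (l 16700960) (l 16698672)) (b (l 16694224) (l 16702216)))) (b (c (a (l 16691632) (l 16669960)) (l 16689136)) (c (b (l 16692248) (l 16699992)) (c (l 16704640) (l 16703304))))) (a (b (a (l 16693048) (l 16689912)) (a (l 16702992) (l 16704616))) (b (c (l 16687008) (l 16684792)) (c (l 16701272) (l 16698496))))), by decide +kernel⟩

def k7_pm_022 : ∃ t, chk3 f_pm_022 t 18 31 1 = true :=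
  ⟨(b (b (c (a (c (c (l 16712704) (l 16711720)) (l 16710224)) (c (a (l 16698240) (l 16696520)) (l 16694208))) (a (c (l 16708184) (l 16695600)) (c (l 16691072) (l 16687872)))) (c (c (a (a (l 16711672) (l 16708688)) (c (l 16716408) (l 16704256))) (a (a (l 16709592) (l 16706128)) (a (l 16703096) (l 16700520)))) (a (c (l 16715896) (l 16702992)) (c (l 16698296) (l 16694808))))) (c (b (a (c (a (c (l 16720800) (l 16719600)) (c (l 16717656) (l 16716224))) (a (l 16717776) (l 16714056))) (c (c (a (l 16715000) (l 16712848)) (a (l 16713312) (l 16710888))) (a (l 16710768) (l 16707928)))) (a (c (b (a (l 16731848) (l 16723144)) (c (a (b (l 16730512) (l 16732672)) (b (l 16727056) (l 16729152))) (a (l 16730184) (l 16726472)))) (a (b (l 16723936) (c (l 16728760) (l 16727328))) (b (l 16720024) (c (l 16724832) (l 16723184))))) (b (c (c (a (l 16721056) (l 16718688)) (l 16717848)) (c (l 16715912) (l 16713960))) (c (c (a (c (l 16725568) (l 16724632)) (c (l 16723120) (l 16722056))) (a (l 16723232) (l 16720456)))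 (c (a (l 16721344) (l 16718304)) (a (l 16719448) (l 16716144))))))) (c (b (a (a (l 16715312) (l 16711128)) (a (l 16707328) (l 16703928))) (b (a (a (l 16721216) (l 16716848)) (a (l 16712872) (l 16709288))) (a (a (l 16725160) (l 16720680)) (a (l 16716576) (l 16718112))))) (b (a (a (l 16712808) (l 16708136)) (a (l 16703816) (l 16699864))) (b (a (l 16715976) (l 16707000)) (a (a (l 16722232) (l 16717288)) (a (l 16712688) (l 16708440)))))))), by decide +kernel⟩

def k8_pm_022 : ∃ t, chk3 f_pm_022 t 38 7 1 = true :=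
  ⟨(b (b (c (c (b (l 16635608) (l 16638672)) (a (l 16640080) (l 16641592))) (b (l 16631576) (l 16644032))) (c (b (c (l 16662768) (l 16639400)) (c (a (l 16655376) (l 16656128)) (l 16673720))) (b (l 16656528) (c (l 16649744) (l 16646648))))) (b (c (b (c (a (l 16680256) (l 16669896)) (l 16687280)) (c (a (b (l 16680664) (l 16687968)) (l 16694328)) (c (l 16702000) (l 16700016)))) (a (b (l 16661912) (l 16696128)) (b (l 16660320) (l 16694008)))) (c (b (b (c (a (l 16695312) (l 16694368)) (l 16711392)) (c (a (c (l 16703744) (l 16701616)) (l 16709296)) (a (l 16698400) (l 16696560)))) (c (b (a (c (l 16717760) (l 16708952)) (c (l 16709776) (l 16707240))) (a (c (b (l 16722056) (a (l 16721040) (c (l 16720760) (l 16719520)))) (b (l 16714464) (a (l 16718696) (l 16717648)))) (c (b (l 16715144) (b (l 16717840) (a (l 16720096) (l 16719216)))) (b (l 16712528) (c (l 16716728) (l 16715384)))))) (b (a (l 16716024) (l 16711272)) (a (c (b (l 16712096) (a (l 16716336) (l 16715152))) (b (l 16709720) (l 16718520))) (c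 (b (l 16709888) (c (l 16714040) (l 16712688))) (b (l 16707232) (l 16710648))))))) (b (c (a (l 16711624) (l 16709312)) (a (l 16686392) (l 16683456))) (c (b (a (l 16700944) (l 16698240)) (b (a (l 16706120) (l 16703216)) (a (c (l 16710816) (l 16708336)) (c (l 16707920) (l 16705168))))) (b (a (l 16696280) (l 16692992)) (a (a (l 16703848) (l 16709896)) (c (l 16700776) (l 16698008))))))))), by decide +kernel⟩

def k9_pm_022 : ∃ t, chk3 f_pm_022 t 39 14 1 = true :=
  ⟨(a (b (c (c (l 16646584) (l 16622608)) (l 16638784)) (c (c (b (l 16644456) (l 16657344)) (l 16668144)) (b (l 16635248) (l 16647088)))) (c (b (c (b (l 16643416) (l 16655376)) (l 16666568)) (b (c (l 16667424) (l 16663032)) (c (l 16679744) (l 16674944)))) (b (c (l 16662560) (l 16658392)) (b (l 16656200) (l 16688520))))), by decide +kernel⟩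

def k10_pm_022 : ∃ t, chk3 f_pm_022 t 39 30 1 = true :=
  ⟨(c (a (b (c (l 16670488) (l 16666008)) (c (l 16704760) (l 16678856))) (b (c (a (l 16671328) (l 16671992)) (l 16687088)) (a (c (l 16684152) (l 16678688)) (c (l 16684496) (l 16678672))))) (a (b (l 16659120) (c (l 16673856) (l 16668776))) (b (c (l 16681784) (l 16676400)) (c (l 16693704) (l 16687928))))), by decide +kernel⟩

def k11_pm_022 : ∃ t, chk3 f_pm_022 t 39 31 1 = true :=
  ⟨(b (a (c (b (c (l 16693840) (l 16688584)) (c (l 16708440) (l 16695112))) (c (l 16707392) (l 16680904))) (c (c (b (a (l 16693824) (l 16693936)) (c (l 16712096) (l 16719560))) (b (l 16708720) (a (l 16694368) (l 16694000)))) (c (a (l 16685304) (l 16705648)) (a (l 16679296) (l 16678328))))) (a (c (c (b (c (l 16708744) (l 16705928)) (c (b (l 16719104) (c (a (l 16718320) (b (l 16716912) (l 16718608))) (a (l 16716888) (l 16716264)))) (b (l 16710976) (c (a (l 16715456) (l 16714760)) (l 16713608))))) (b (c (l 16703088) (l 16700232)) (c (b (l 16708064) (c (l 16712128)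 (l 16710640))) (b (l 16705128) (l 16713648))))) (c (b (l 16695912) (b (l 16700688) (a (l 16704512) (l 16708552)))) (b (l 16690080) (c (l 16697760) (l 16694712))))) (c (c (b (c (a (l 16708344) (l 16708216)) (a (l 16705304) (l 16705024))) (b (c (a (l 16713272) (l 16718240)) (a (l 16710168) (l 16709744))) (b (c (a (l 16715744) (c (l 16716112) (l 16714480))) (a (l 16712608) (l 16712024))) (c (a (c (l 16718176) (l 16716600)) (c (a (l 16717816) (l 16717384)) (a (l 16716192) (l 16715728)))) (a (c (l 16715024) (l 16713440)) (c (l 16716912) (l 16712632))))))) (b (a (l 16700704) (c (l 16701808) (l 16698576))) (a (b (l 16710712) (c (l 16710256) (l 16707064))) (c (b (l 16706472) (a (l 16709712) (l 16709216))) (b (l 16703176) (c (l 16706920) (l 16705248))))))) (c (b (a (l 16694496) (l 16693672)) (a (c (l 16702288) (l 16699064)) (b (l 16698176) (a (l 16701408) (l 16705984))))) (b (a (l 16688192) (l 16687048)) (a (l 16704664) (c (l 16694496) (l 16691072)))))))), by decide +kernel⟩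

def k12_pm_022 : ∃ t, chk3 f_pm_022 t 20 6 1 = true :=
  ⟨(a (b (b (a (c (c (l 16572912) (l 16569536)) (c (l 16565936) (l 16562128))) (c (c (l 16575464) (l 16550768)) (l 16565656))) (a (c (a (l 16586416) (l 16566520)) (l 16600608)) (c (c (l 16590264) (l 16586672)) (l 16580792)))) (b (a (c (c (l 16626912) (l 16623536)) (c (l 16619952) (l 16616168))) (a (c (l 16605816) (l 16576968)) (c (l 16606408) (l 16577200)))) (c (b (a (l 16621128) (l 16621968)) (a (l 16632536) (l 16633144))) (a (b (l 16613160) (l 16623968)) (l 16639488))))) (a (c (b (b (l 16591920) (c (l 16592512) (l 16588624))) (b (c (l 16609016) (l 16604976)) (c (l 16630864) (l 16626192)))) (b (b (l 16567512) (l 16582192)) (b (l 16619328) (l 16639640)))) (b (a (c (b (l 16556808) (l 16570816)) (b (l 16547720) (l 16562016))) (b (c (a (l 16557464) (l 16599560)) (a (l 16548248) (l 16569336))) (c (a (l 16571240) (l 16613152)) (a (l 16562336) (l 16604232))))) (b (a (c (l 16607680) (l 16577664)) (c (a (l 16607832) (c (l 16609680) (l 16605472)))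 (a (l 16577712) (l 16619424)))) (c (a (l 16628952) (a (l 16629008) (c (l 16631208) (l 16626256)))) (a (l 16618600) (a (l 16618496) (l 16639168)))))))), by decide +kernel⟩

def k13_pm_022 : ∃ t, chk3 f_pm_022 t 40 14 1 = true :=
  ⟨(b (c (a (c (l 16667600) (l 16668264)) (c (l 16673344) (l 16647360))) (a (b (l 16634696) (l 16645392)) (b (l 16613216) (l 16644640)))) (c (a (b (c (l 16648160) (l 16643072)) (c (l 16680984) (l 16654536))) (b (c (l 16648368) (l 16642808)) (c (l 16660024) (l 16654064)))) (a (b (l 16656152) (l 16667080)) (b (l 16655152) (l 16665856))))), by decide +kernel⟩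

def k14_pm_022 : ∃ t, chk3 f_pm_022 t 40 30 1 = true :=
  ⟨(c (a (b (c (l 16693080) (l 16687208)) (c (c (l 16706872) (l 16703768)) (c (l 16700648) (l 16697504)))) (b (c (l 16692888) (l 16665560)) (c (c (l 16706608) (l 16703264)) (l 16703440)))) (a (b (c (l 16660272) (l 16654208)) (c (l 16692744) (l 16686320))) (b (c (l 16659088) (l 16652496)) (c (l 16691352) (l 16684392))))), by decide +kernel⟩

def k15_pm_022 : ∃ t, chk3 f_pm_022 t 80 31 1 = true :=
  ⟨(c (b (c (b (a (l 16693904) (l 16693592)) (c (l 16711928) (l 16719096))) (b (l 16708064) (a (l 16693568) (l 16692912)))) (c (b (c (a (l 16707944) (l 16707192)) (a (l 16704616) (l 16703744))) (b (c (a (l 16717576) (l 16711216)) (a (l 16708952) (l 16707736))) (b (c (a (c (l 16715208) (l 16713520)) (c (l 16714072) (l 16712328))) (a (l 16710968) (l 16709696))) (c (a (c (a (l 16716872) (l 16716280)) (a (l 16715184) (l 16714576))) (a (c (l 16715712) (l 16713976)) (c (l 16715152) (l 16713384)))) (a (c (l 16715776) (l 16711440)) (c (l 16711888) (l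 16710120))))))) (b (c (a (l 16701256) (l 16700280)) (a (l 16697880) (l 16696776))) (c (a (b (l 16705552) (c (l 16709064) (l 16707344))) (b (l 16704224) (c (l 16707696) (l 16705920)))) (a (b (l 16702128) (l 16707368)) (b (l 16700680) (l 16703248))))))) (b (c (a (l 16704960) (l 16704096)) (b (l 16673800) (l 16700448))) (c (b (a (l 16692760) (l 16691480)) (a (b (l 16696928) (a (l 16705192) (l 16699112))) (c (b (l 16697112) (l 16699648)) (l 16694768)))) (b (a (l 16685848) (l 16684312)) (a (c (l 16692936) (l 16689376)) (c (l 16691128) (l 16687448))))))), by decide +kernel⟩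

def k16_pm_022 : ∃ t, chk3 f_pm_022 t 81 31 1 = true :=
  ⟨(c (b (c (b (l 16708640) (c (l 16710768) (l 16717712))) (b (l 16706896) (a (l 16692096) (l 16691016)))) (c (a (b (c (l 16706232) (l 16702680)) (b (c (l 16710144) (l 16706552)) (b (c (c (l 16712992) (l 16711200)) (l 16708488)) (c (a (c (l 16714600) (l 16712808)) (c (l 14) (l 16712240))) (c (a (l 16711008) (l 16710416)) (l 16708864)))))) (b (c (l 16705240) (l 16701584)) (b (c (l 16709112) (l 16705408)) (c (c (l 14) (b (l 16710112) (a (l 16711688) (l 16711144)))) (a (c (l 16709192) (l 16707336)) (c (l 16708624) (l 16706744))))))) (b (c (a (l 16699096) (l 16697896)) (a (l 16695488) (l 16694184))) (c (b (a (l 16702936) (l 16701680)) (a (c (l 16709016) (l 16704568)) (a (l 16709776) (l 16706520)))) (a (b (l 16699280) (l 16707048)) (b (l 16697920) (c (l 16701352) (l 16699448)))))))) (b (c (a (l 16703144) (l 16702056)) (a (l 16674984) (l 16673648))) (c (b (a (l 16690024) (l 16688544)) (a (c (b (l 16695600) (l 16698096)) (l 16703608)) (c (b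 (l 16694128) (l 16696584)) (l 16696760)))) (b (a (l 16682624) (l 16680920)) (a (c (l 16689360) (l 16685568)) (c (l 16687640) (l 16683728))))))), by decide +kernel⟩

def k17_pm_022 : ∃ t, chk3 f_pm_022 t 82 7 1 = true :=
  ⟨(b (b (c (c (l 16674080) (l 16668664)) (b (l 16633968) (l 16644184))) (c (b (c (l 16648840) (l 16642848)) (c (l 16660320) (l 16653912))) (b (l 16654480) (l 16685936)))) (b (c (b (c (l 16693008) (l 16686184)) (c (b (l 16680864) (l 16707432)) (a (l 16676808) (l 16676200)))) (b (c (l 16679216) (l 16672104)) (c (a (l 16669576) (l 16668752)) (a (l 16662216) (l 16661152))))) (c (b (a (c (b (l 16692208) (l 16697328)) (b (l 16684872) (l 16689856))) (c (b (l 16691344) (l 16706888)) (b (l 16683808) (l 16688728)))) (c (b (c (a (l 16704288) (l 16703368)) (a (l 16700528) (l 16699504))) (b (c (c (l 14) (a (l 16707160) (l 16706184))) (a (l 16704304) (l 16703240))) (c (a (c (l 14) (b (l 16709064) (a (l 16710608) (l 14)))) (l 14)) (a (a (c (l 16708072) (l 16706160)) (b (l 16705928) (c (l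 16708152) (l 16706208)))) (c (b (l 16706096) (a (l 16707616) (l 16707088))) (a (l 16705024) (l 16704472))))))) (b (a (c (l 16696728) (l 16692904)) (c (l 16695600) (l 16691664))) (b (c (a (l 16700464) (l 16699296)) (a (l 16696592) (l 16695312))) (b (c (a (l 16702328) (l 16701144)) (a (l 16698440) (l 16697136))) (c (a (c (l 16704544) (l 16702600)) (a (l 16702672) (l 16707320))) (a (l 16699664) (c (l 16699360) (l 16697336))))))))) (a (b (c (l 16700800) (l 16672168)) (c (b (l 16687104) (b (l 16690720) (c (l 16695112) (l 16691144)))) (b (l 16679248) (c (l 16685952) (l 16681928))))) (b (c (l 16699512) (l 16670656)) (c (b (l 16685696) (b (l 16689272) (c (l 16698936) (l 16689608)))) (b (l 16677616) (c (l 16684320) (l 16680176))))))))), by decide +kernel⟩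

def k18_pm_022 : ∃ t, chk3 f_pm_022 t 83 14 1 = true :=
  ⟨(b (c (a (c (l 16632472) (l 16626800)) (a (c (l 16632528) (l 16626768)) (c (l 16674264) (l 16668464)))) (a (l 16638800) (a (l 16638584) (c (l 16662376) (l 16656008))))) (c (a (c (b (l 16649056) (l 16660456)) (l 16669328)) (a (c (b (l 16649080) (l 16660464)) (l 16669224)) (c (b (l 16669864) (l 16681272)) (b (l 16663416) (l 16674360))))) (c (b (b (c (a (l 16635280) (a (l 16635104) (l 16634808))) (a (l 16632032) (a (l 16631784) (l 16631456)))) (a (l 16638880) (a (l 16638648) (l 16638336)))) (a (l 16646856) (a (l 16646592) (l 16667248)))) (b (b (a (l 16627048) (a (l 16626688) (l 16626304))) (a (l 16632088) (a (l 16631704) (l 16631312)))) (a (l 16639768) (a (l 16639344) (l 16659912))))))), by decide +kernel⟩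

def k19_pm_022 : ∃ t, chk3 f_pm_022 t 83 30 1 = true :=
  ⟨(c (c (a (b (l 16672072) (l 16703936)) (a (b (l 16671960) (l 16703376)) (b (b (l 16689936) (l 16695312)) (b (l 16700344) (c (l 16707280) (l 16703416)))))) (a (b (l 16664936) (l 16675456)) (a (b (l 16664680) (l 16674768)) (b (a (l 16695872) (l 16664184)) (b (l 16692712) (b (l 16696344) (l 16698760))))))) (a (b (l 16674880) (c (l 16667800) (l 16659976))) (a (b (l 16674400) (c (l 16666968) (l 16659000))) (b (c (l 16688216) (l 16690968)) (b (c (l 16684912) (l 16676936)) (c (l 16689592) (l 16681456))))))), by decide +kernel⟩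

def k20_pm_022 : ∃ t, chk3 f_pm_022 t 166 31 1 = true :=
  ⟨(c (b (c (b (l 16690536) (c (l 16697488) (l 16693584))) (b (l 16682800) (l 16708632))) (c (c (b (b (l 16701264) (l 14)) (l 14)) (b (a (l 16698744) (l 16698256)) (b (a (l 16702464) (l 16701968)) (b (a (l 16704328) (l 16709064)) (a (c (l 16709192) (l 16704552)) (c (l 14) (c (l 16704536) (l 16703512)))))))) (b (c (a (l 16694768) (l 16694224)) (l 16700976)) (c (b (a (l 16698440) (l 16697888)) (a (c (l 16701904) (l 16699864)) (c (b (l 16700744) (l 16701960)) (l 16699288)))) (b (l 16699344) (a (l 16696784) (c (l 16697208) (l 16695120)))))))) (a (b (c (l 16677560) (l 16669520)) (c (b (l 16684664) (c (l 16696704) (l 16687312))) (b (l 16676408) (l 16691488)))) (b (c (l 16676920) (l 16668768)) (c (b (l 16683984) (c (b (l 16689608) (l 16691976)) (l 16686584))) (b (l 16675616) (c (l 16682328) (l 16678032))))))), by decide +kernel⟩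

def k21_pm_022 : ∃ t, chk3 f_pm_022 t 167 62 2 = true :=
  ⟨(b (c (b (a (l 16688656) (c (l 16711056) (l 16707136))) (a (l 16691152) (c (l 16713576) (l 16709608)))) (a (l 16682024) (a (a (a (l 16681632) (l 16702552)) (l 16681464)) (l 16681256)))) (a (c (c (l 16696872) (l 16692896)) (l 16697344)) (a (a (c (a (l 16694544) (c (l 16706984) (l 16702976))) (a (l 16686472) (c (l 16709416) (l 16705336)))) (c (l 16694392) (l 16686296))) (c (l 16694224) (l 16686080))))), by decide +kernel⟩

def k22_pm_022 : ∃ t, chk3 f_pm_022 t 167 63 2 = true :=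
  ⟨(a (c (c (l 14) (b (a (l 16697880) (l 16697656)) (b (a (l 16701584) (l 16701352)) (c (l 14) (a (l 16705632) (a (l 16702816) (l 16705312))))))) (a (b (l 16702248) (c (b (l 16697456) (c (l 16700936) (l 16698848))) (b (l 16693296) (l 16695696)))) (b (c (l 16693560) (l 16689424)) (c (b (l 16697200) (a (c (l 16700728) (l 16698632)) (c (l 16700592) (l 16698488)))) (b (l 16693016) (c (l 16701704) (l 16694344))))))) (b (c (c (l 14) (a (a (a (l 16697480) (a (l 16697432) (l 16707888))) (l 16697320)) (l 16697136))) (a (a (a (l 16691296) (a (l 16701728) (c (l 16693288) (l 16689128)))) (l 16691120)) (l 16690904))) (c (c (l 14) (c (l 14) (b (a (a (a (l 16700136) (a (l 16700088) (b (l 16699448) (l 16700672)))) (l 16699976)) (l 16699784)) (a (a (a (l 16702592) (a (b (l 16701928) (l 16703160)) (a (a (l 16702520) (b (l 16701896) (b (l 16702816) (c (l 14) (b (l 16702752) (l 16705680)))))) (l 16702504)))) (l 16702432)) (l 16702240))))) (b (c (a (a (a (l 16697008) (a (l 16696960) (c (l 16708456) (l 16695872))))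 (l 16696832)) (l 16696632)) (a (a (a (l 16692808) (a (l 16692752) (l 16703200))) (l 16692616)) (l 16692392))) (c (a (a (a (c (l 16700496) (l 16698384)) (a (c (l 16700440) (l 16698328)) (a (b (a (l 16698752) (l 16698744)) (a (l 16703248) (c (c (l 16701544) (l 16700488)) (l 16698896)))) (l 16699336)))) (l 16701880)) (c (l 16700120) (l 16697992))) (a (a (a (l 16695200) (a (l 16695144) (a (a (l 16695112) (c (l 16696168) (l 16694040))) (l 16695088)))) (l 16695008)) (l 16694776))))))), by decide +kernel⟩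

def k23_pm_022 : ∃ t, chk3 f_pm_022 t 167 31 3 = true :=
  ⟨(a (b (c (b (l 16673992) (l 16678680)) (b (l 16665800) (l 16670344))) (c (b (c (l 16695944) (l 16681264)) (c (a (l 16690288) (b (l 16688784) (l 16691144))) (a (l 16686032) (l 16696168)))) (b (l 16685368) (a (l 16679568) (a (l 16679264) (l 16679064)))))) (b (a (a (c (a (l 16675912) (a (l 16675856) (l 16696792))) (a (l 16667600) (a (l 16667536) (l 16667488)))) (c (l 16675712) (l 16667368))) (c (l 16675464) (l 16667080))) (c (b (a (a (a (l 16682920) (a (l 16682864) (c (l 16684936) (l 16680696)))) (l 16682712)) (l 16682456)) (a (a (a (c (l 16689744) (l 16685440)) (a (c (l 16689680) (l 16685376)) (a (a (c (l 16689656) (l 16685344)) (b (l 16686320) (c (l 16690816) (l 16686488)))) (c (l 16689632) (l 16685320))))) (c (l 16689536) (l 16685216))) (c (l 16689288) (l 16684944)))) (b (a (a (a (l 16674384) (a (l 16674312) (l 16674264))) (l 16674144)) (l 16673840)) (a (a (a (l 16678912) (a (l 16678840) (c (b (l 16679840) (l 16682120)) (l 16676592))))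 (l 16678664)) (l 16678360)))))), by decide +kernel⟩

def k24_pm_022 : ∃ t, chk3 f_pm_022 t 21 6 1 = true :=
  ⟨(b (a (c (b (a (l 16557856) (l 16559712)) (c (l 16592728) (l 16588744))) (b (l 16568848) (l 16602856))) (c (b (l 16582320) (l 16604048)) (b (l 16551512) (l 16584280)))) (b (c (a (a (l 16606904) (l 16607328)) (b (l 16601928) (l 16610616))) (a (a (l 16576632) (l 16576880)) (l 16618128))) (c (a (c (l 16649872) (l 16623944)) (c (l 16629560) (l 16624488))) (a (b (l 16610664) (l 16620744)) (l 16636848))))), by decide +kernel⟩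

def k25_pm_022 : ∃ t, chk3 f_pm_022 t 21 14 1 = true :=
  ⟨(b (c (a (c (a (l 16631688) (l 16631872)) (a (l 16625744) (l 16625736))) (c (b (l 16625304) (l 16636008)) (l 16666320))) (a (a (l 16637224) (l 16615864)) (b (l 16609568) (l 16639928)))) (a (c (b (c (l 16668152) (l 16640528)) (c (l 16679144) (l 16672000))) (b (a (l 16631304) (l 16630672)) (c (l 16664616) (l 16656976)))) (c (c (b (l 16646232) (l 16656168)) (b (l 16639192) (l 16648592))) (b (l 16648896) (a (l 16638272) (l 16636304)))))), by decide +kernel⟩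

def k26_pm_022 : ∃ t, chk3 f_pm_022 t 21 30 1 = true :=
  ⟨(a (a (c (c (b (l 16670408) (l 16680512)) (b (l 16662880) (l 16672600))) (b (l 16672176) (c (l 16664504) (l 16656224)))) (c (c (b (l 16669040) (l 16678992)) (b (l 16661232) (l 16670760))) (b (l 16649080) (c (l 16662312) (l 16653656))))) (c (c (b (l 16687112) (a (l 16677528) (l 16676096))) (b (l 16678992) (a (l 16668992) (l 16667256)))) (b (c (l 16649624) (l 16640928)) (c (a (l 16660216) (l 16658160)) (a (l 16651192) (l 16648792)))))), by decide +kernel⟩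

def k27_pm_022 : ∃ t, chk3 f_pm_022 t 42 31 1 = true :=
  ⟨(c (b (c (a (b (l 16688016) (c (l 14) (l 16690944))) (c (l 16701552) (l 16697280))) (a (b (l 16679840) (l 16684664)) (b (l 16677912) (l 16682680)))) (b (c (c (l 14) (a (b (l 16694656) (l 16697128)) (l 16704656))) (a (c (l 16691632) (l 16687328)) (c (l 16689712) (l 16685200)))) (c (a (c (l 14) (c (l 14) (b (l 16698520) (a (a (l 16701856) (l 16701368)) (l 14))))) (l 14)) (a (c (b (a (l 16695920) (l 16694896)) (c (b (l 16698192) (a (l 16700032) (l 16699032))) (a (l 16697264) (l 16696200)))) (b (l 16690920) (a (c (l 16695088) (l 16692904)) (c (l 16693976) (l 16691736))))) (c (b (c (l 16694472) (l 16692192)) (c (a (b (l 16696864) (l 16698072)) (l 14)) (a (l 16697808) (b (l 16693624) (l 16694824))))) (b (l 16688760) (c (a (l 16692904) (l 16691880)) (a (l 16690608) (l 16689528))))))))) (b (c (a (b (l 16671488) (l 16676144)) (b (l 16669176) (l 16673760))) (a (l 16686184) (l 16662448))) (b (c (a (c (l 16682992) (l 16678608)) (c (l 16680648)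 (l 16676048))) (a (l 16671952) (l 16669056))) (c (a (c (b (l 16686520) (a (l 16689608) (l 16688352))) (a (l 16684024) (l 16682656))) (c (b (l 16684136) (a (l 16687144) (l 16685976))) (a (l 16681344) (l 16680064)))) (a (c (b (l 16677592) (l 16679864)) (l 16684656)) (c (b (l 16674752) (l 16676984)) (l 16671072))))))), by decide +kernel⟩

def k28_pm_022 : ∃ t, chk3 f_pm_022 t 43 31 1 = true :=
  ⟨(c (b (b (c (a (l 16684976) (l 16683584)) (a (l 16676088) (l 16674352))) (c (l 14) (a (l 16680832) (l 16679096)))) (c (l 14) (b (a (c (l 16687944) (l 16683224)) (c (l 16686320) (l 16681400))) (b (a (c (c (l 14) (l 16690368)) (l 16686768)) (c (l 14) (l 16684944))) (a (c (c (l 14) (a (b (l 16692704) (l 16693904)) (l 14))) (c (a (l 16690904) (l 16692592)) (a (l 16688496) (l 16687504)))) (c (l 14) (c (a (b (l 16688496) (l 16689680)) (l 14)) (a (l 16686560) (l 16685672))))))))) (b (c (b (l 16686424) (a (l 16671512) (l 16669384))) (a (l 16659816) (l 16657296))) (b (c (a (c (l 16678456) (l 16673640)) (c (l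 16676416) (l 16671384))) (a (l 16666320) (l 16663720))) (b (c (a (c (l 16681920) (l 16677024)) (c (l 16679872) (l 16674744))) (a (l 16669584) (l 16666960))) (c (a (a (c (l 16684856) (l 16679960)) (c (l 16689024) (l 16678768))) (c (b (l 16681608) (a (l 16683328) (l 16682344))) (a (l 16677624) (l 16676520)))) (a (c (l 16674280) (l 16669232)) (c (l 16671760) (l 16666464)))))))), by decide +kernel⟩

def k29_pm_022 : ∃ t, chk3 f_pm_022 t 11 6 1 = true :=
  ⟨(a (b (c (a (b (l 16565248) (l 16595776)) (b (l 16569176) (l 16576832))) (a (b (l 16554984) (l 16565344)) (b (l 16558400) (l 16567168)))) (c (a (b (c (l 16587688) (l 16583808)) (b (l 16621272) (l 16631784))) (b (l 16626800) (c (l 16629792) (l 16599928)))) (a (b (l 16597552) (l 16636152)) (b (l 16596840) (l 16612288))))) (b (a (c (b (l 16573192) (l 16582232)) (b (l 16561744) (l 16567608))) (c (b (l 16723992) (l 16731688)) (b (l 16563248) (l 16565624)))) (a (c (b (l 16617448) (c (l 16780488) (l 16595008))) (b (l 16572768) (l 16607552))) (c (b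 (c (l 16894352) (l 16583160)) (c (l 16900648) (l 16601160))) (b (l 16567640) (l 16580360)))))), by decide +kernel⟩

def k30_pm_022 : ∃ t, chk3 f_pm_022 t 22 14 1 = true :=
  ⟨(c (a (b (c (l 16649568) (l 16643280)) (c (b (l 16643296) (l 16653216)) (b (l 16636056) (l 16645312)))) (b (c (l 16652640) (l 16618600)) (c (b (l 16671992) (l 16686240)) (b (l 16632424) (l 16641856))))) (a (b (c (l 16636440) (l 16629024)) (b (l 16645288) (l 16664144))) (b (b (l 16603824) (l 16612032)) (b (l 16620256) (l 16649592))))), by decide +kernel⟩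

def k31_pm_022 : ∃ t, chk3 f_pm_022 t 22 30 1 = true :=
  ⟨(a (c (c (b (l 16684272) (a (l 16674680) (l 16673336))) (b (l 16654728) (a (l 16665560) (l 16663920)))) (b (c (l 16645808) (l 16636520)) (c (a (l 16656144) (l 16654200)) (l 16665864)))) (c (c (b (l 16659680) (a (l 16662088) (l 16710248))) (b (l 16651496) (a (l 16662416) (l 16661008)))) (b (c (l 16642056) (l 16632200)) (c (l 16672112) (l 16640600))))), by decide +kernel⟩

def k32_pm_022 : ∃ t, chk3 f_pm_022 t 22 31 1 = true :=
  ⟨(c (b (b (a (c (a (l 16682256) (l 16681056)) (a (l 16672688) (l 16671144))) (c (c (l 16679424) (l 16676640)) (l 16689768))) (c (l 14) (a (a (l 16677472) (l 16676000)) (l 14)))) (a (c (l 14) (c (l 14) (a (b (l 16679712) (b (l 16683288) (c (l 14) (b (l 16683752) (a (l 16685416) (l 14)))))) (b (l 16678200) (l 14))))) (l 14))) (b (a (c (b (l 16682488) (a (l 16667368) (l 16665496))) (a (l 16654880) (l 16652592))) (c (a (b (l 16659192) (l 16663792)) (l 16680872)) (a (l 16650448) (l 16648440)))) (a (b (c (a (c (l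 16674520) (l 16669264)) (c (l 16672800) (l 16667328))) (a (l 16661272) (l 16658992))) (b (c (a (c (l 16677992) (l 16672640)) (c (l 16676304) (l 16670720))) (a (l 16664504) (l 16672712))) (c (b (a (c (l 16679736) (l 16674336)) (c (c (l 16679472) (l 16676664)) (l 16672432))) (a (c (c (a (l 16682752) (l 16681896)) (a (l 16680072) (l 16679160))) (c (l 16676832) (l 16674096))) (c (c (a (l 16681096) (l 14)) (a (l 16678296) (l 16677488))) (c (l 16674992) (l 16672136))))) (a (c (a (l 16670048) (l 16668920)) (l 16663880)) (c (c (l 16668712) (l 16665832)) (l 16661488)))))) (b (c (a (c (l 16671264) (l 16665568)) (c (l 16669904) (l 16663984))) (a (l 16656896) (l 16654960))) (a (c (c (b (l 16674824) (a (c (l 14) (l 16676144)) (l 14))) (b (l 16669000) (b (l 16670728) (a (l 16672328) (l 16676776))))) (c (b (l 16663112) (c (l 16666832) (l 16663832))) (b (l 16657160) (l 16659296)))) (c (c (l 14) (a (b (l 16667888) (c (l 16671744) (l 16668680))) (b (l 16667176) (c (l 14) (l 16667960))))) (b (c (l 16661344)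 (l 16655144)) (c (a (l 16664056) (l 16663240)) (l 16662552))))))))), by decide +kernel⟩

def k33_pm_022 : ∃ t, chk3 f_pm_022 t 23 14 1 = true :=
  ⟨(a (c (b (b (l 16632088) (l 16644560)) (b (c (l 16809368) (l 16628512)) (c (l 16819720) (l 16638368)))) (b (l 16645272) (b (l 16615872) (l 16645440)))) (c (b (c (l 16911088) (l 16624608)) (c (b (l 16920936) (l 16928728)) (b (l 16644568) (l 16659312)))) (b (l 16639776) (b (l 16611000) (l 16641016))))), by decide +kernel⟩

def k34_pm_022 : ∃ t, chk3 f_pm_022 t 23 15 1 = true :=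
  ⟨(b (c (a (b (c (a (l 16801416) (l 16859944)) (l 16648464)) (c (a (l 16730976) (l 16829856)) (a (l 16659688) (l 16658472)))) (b (c (l 16874704) (l 16675280)) (c (a (l 16923600) (l 16970824)) (l 16671496)))) (a (b (c (l 16638464) (l 16627992)) (c (l 16668856) (l 16636608))) (b (c (l 16634872) (l 16623752)) (c (l 16665872) (l 16632848))))) (c (b (b (c (a (a (l 16783776) (l 16839504)) (c (l 17017928) (l 16893712))) (a (l 16666640) (l 16664264))) (c (a (l 14) (c (l 17022888) (l 14))) (l 14))) (c (a (l 14) (c (a (l 14) (l 17051904)) (l 14))) (l 14))) (b (a (a (c (l 16679416) (l 16646560)) (c (l 16678088) (l 16644800))) (c (b (l 16652592) (l 14)) (a (l 16643152) (l 16641624)))) (a (a (b (c (c (l 14) (l 16662576)) (l 16653192)) (c (c (l 14) (b (l 16666144) (c (l 14) (a (l 16667288) (l 14))))) (a (c (b (l 16660192) (l 16662472)) (l 16654896)) (b (l 16656200) (c (c (l 16663400) (l 16660112)) (l 16655144)))))) (b (c (c (l 14) (l 16661336)) (l 16651600)) (c (l 14) (c (b (l 16658392) (c (a (l 16662776)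 (l 14)) (a (l 16659424) (l 16658792)))) (b (l 16651688) (c (l 16659592) (l 16652232))))))) (c (l 14) (a (b (l 16660664) (c (b (l 16657216) (c (l 14) (a (l 16658208) (l 14)))) (b (l 16650256) (a (l 16652944) (l 16652320))))) (b (c (l 16652448) (l 16645392)) (c (l 14) (b (l 16649024) (b (l 16650856) (a (l 16652360) (l 16657104)))))))))))), by decide +kernel⟩

def k35_pm_022 : ∃ t, chk3 f_pm_022 t 6 2 1 = true :=
  ⟨(a (b (c (a (b (b (l 16874320) (l 16877032)) (b (l 16879880) (l 16882888))) (b (b (l 17029584) (l 17035568)) (l 17042464))) (a (b (l 16632528) (l 16591984)) (b (l 16658352) (l 16606216)))) (a (b (c (b (l 16886216) (l 16889752)) (l 16608056)) (c (b (l 16851184) (a (l 16843208) (l 16943616))) (a (l 16563152) (l 16566656)))) (b (c (b (l 17049304) (l 17053096)) (l 16586376)) (c (b (l 17055464) (l 17056608)) (b (l 16576680) (l 16581368)))))) (b (b (c (a (l 17121480) (l 17166632)) (a (l 16765648) (l 16886240))) (c (a (l 17137456) (l 17190320)) (a (l 16761328) (l 16888104)))) (b (c (a (l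 17149672) (l 17206584)) (a (l 16739248) (l 16885824))) (c (a (b (l 17155624) (l 17157040)) (l 17216744)) (a (b (l 16760632) (l 16760944)) (b (l 16884200) (l 16882416))))))), by decide +kernel⟩

def k36_pm_022 : ∃ t, chk3 f_pm_022 t 12 6 1 = true :=
  ⟨(b (a (c (a (b (l 16847200) (l 16850792)) (b (l 16945328) (l 16946304))) (a (l 16604936) (l 16581120))) (c (a (b (l 17023640) (l 17023056)) (b (l 17086160) (l 17084832))) (b (l 16586424) (l 16612312)))) (a (b (c (a (c (l 16994280) (l 16712600)) (l 16862616)) (a (l 16561448) (l 16553944))) (c (a (c (l 16997304) (l 16724816)) (c (l 17075464) (l 16825760))) (a (l 16572824) (l 16563424)))) (c (b (a (l 17021600) (l 17082576)) (a (c (l 17138840) (l 16908432)) (l 17041688))) (b (a (l 16544792) (l 16642144)) (a (l 16558016) (l 16650632)))))), by decide +kernel⟩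

def k37_pm_022 : ∃ t, chk3 f_pm_022 t 12 14 1 = true :=
  ⟨(a (b (c (a (c (l 17004768) (l 16742992)) (c (l 17081288) (l 16840480))) (a (l 16633408) (l 16604808))) (c (a (c (b (l 17012296) (l 17018472)) (b (l 16758960) (l 16770984))) (c (l 17089936) (b (l 16853784) (l 16864000)))) (a (b (l 16605632) (l 16636344)) (b (l 16599392) (l 16610136))))) (c (b (a (c (l 17143864) (l 16920880)) (c (l 17195216) (l 16987432))) (a (c (l 17151656) (b (l 16932544) (l 16941648))) (c (l 17202848) (l 17002312)))) (b (a (l 16602920) (c (l 16777376) (l 16564904))) (a (b (l 16602952) (l 16618672)) (c (b (l 16793576) (l 16805984)) (l 16594736)))))), by decide +kernel⟩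

def k38_pm_022 : ∃ t, chk3 f_pm_022 t 12 15 1 = true :=
  ⟨(a (b (c (c (a (b (l 17025704) (l 16992088)) (b (l 17098952) (l 17106280))) (a (b (l 16721296) (a (l 16773952) (l 16822592))) (b (l 16875416) (a (l 16867224) (l 16908208))))) (a (b (c (l 16631272) (l 16619456)) (c (l 16642152) (l 16629296))) (b (c (l 16649608) (l 16614920)) (c (l 16646664) (l 16625832))))) (c (c (a (b (c (l 17100408) (l 16986456)) (c (l 17109464) (a (l 14) (l 17018504)))) (b (l 17114720) (c (l 17175752) (l 17072832)))) (b (a (b (l 16663592) (l 14)) (a (c (l 16935912) (l 16827096)) (l 16837968))) (a (l 14) (a (l 14) (c (l 16987920) (l 14)))))) (c (b (b (a (l 16650544) (l 16640184)) (l 14)) (l 14)) (c (b (b (a (l 16640344) (l 16637968)) (l 14)) (l 14)) (b (a (b (l 16633424) (l 16638456)) (b (l 16630584) (l 14))) (a (a (b (l 16644200) (b (l 16648000) (a (c (l 14) (l 16648888)) (l 14)))) (b (l 16643208) (l 14))) (l 14))))))) (c (b (a (c (l 17163168) (b (l 16951944) (l 16963512))) (c (l 17214104) (b (l 17016424) (l 17027408))))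 (c (a (b (l 17174712) (l 17183800)) (l 17229600)) (a (b (c (l 17026176) (l 16905544)) (c (l 17039176) (a (l 14) (l 16959592)))) (b (l 17039736) (c (l 17098848) (l 17007992)))))) (b (a (b (c (l 16741792) (l 16609688)) (c (a (l 16736936) (l 16778608)) (l 16622136))) (b (c (l 16819832) (l 16621048)) (c (a (l 16817080) (l 16852632)) (l 16619832)))) (b (b (a (c (l 16645568) (l 16631816)) (c (l 16763856) (l 16635856))) (a (l 14) (c (a (l 14) (l 16873904)) (l 14)))) (a (l 14) (a (l 14) (c (c (l 16933088) (l 14)) (l 14)))))))), by decide +kernel⟩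

def k39_pm_022 : ∃ t, chk3 f_pm_022 t 13 6 1 = true :=
  ⟨(a (b (c (a (l 17135128) (l 17174936)) (b (l 16697968) (a (l 16723568) (l 16793096)))) (c (b (a (l 17132208) (l 17172736)) (a (l 17132632) (l 17173048))) (b (a (l 16722816) (l 16790136)) (a (b (l 16723472) (l 16731200)) (b (l 16788312) (l 16794840)))))) (b (c (a (l 17206704) (l 17231936)) (a (b (l 16854280) (l 16851128)) (b (l 16903552) (l 16899672)))) (c (b (a (l 17205928) (l 17233200)) (a (l 17206632) (l 17234784))) (b (a (l 16846760) (l 16894560)) (a (b (l 16843208) (l 16848504)) (b (l 16890120) (l 16893872))))))), by decide +kernel⟩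

def k40_pm_022 : ∃ t, chk3 f_pm_022 t 13 7 1 = true :=
  ⟨(b (b (a (c (a (l 17077496) (l 17180976)) (a (b (l 16740920) (l 16751824)) (c (l 16902992) (l 16714784)))) (c (a (l 17214880) (l 17243368)) (a (c (l 16951448) (l 16773096)) (c (l 16992496) (l 16822784))))) (a (c (c (l 17264056) (a (l 17057136) (l 17103312))) (a (b (l 16722072) (c (l 16872800) (l 16681984))) (b (l 16763480) (c (l 16929568) (l 16749384))))) (a (c (l 17226824) (c (l 16972056) (b (l 16792360) (l 16807368)))) (c (l 17255872) (c (l 17013392) (b (l 16842120) (l 16857240))))))) (a (c (c (b (l 17275672) (a (l 17272432) (l 17308712))) (b (a (l 17076112) (l 17122352)) (a (b (l 17093816) (l 17107328)) (l 17146616)))) (b (a (b (c (l 16886128) (l 16699208)) (c (l 16880040) (a (l 16700000) (l 16735872)))) (b (c (l 16942736) (l 16766264)) (c (l 16957504) (a (l 16769232) (l 16800320))))) (b (c (a (a (l 16902112) (l 16932416)) (l 16973912)) (a (b (a (l 16715608) (l 16751344)) (l 14)) (a (b (l 16784640) (l 14)) (b (l 16815696) (l 16826592)))))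 (c (a (a (c (l 16964152) (l 14)) (a (l 16922296) (l 16957832))) (b (l 16987336) (l 16975848))) (a (l 14) (a (l 14) (c (l 16884320) (l 14)))))))) (a (c (b (l 17179816) (c (l 17339384) (l 17186272))) (b (c (b (l 16991312) (l 17006160)) (b (l 16824224) (a (l 16829280) (l 16856280)))) (c (b (l 17022648) (l 17040808)) (b (a (l 16850080) (l 16877120)) (a (c (l 16912144) (l 14)) (a (l 16851432) (l 16906464))))))) (c (b (l 17272288) (l 17292920)) (b (c (l 17040288) (b (l 16874280) (l 16893272))) (c (b (l 17064720) (l 17083048)) (b (a (l 16902368) (l 16925912)) (a (l 16904328) (l 16948968))))))))), by decide +kernel⟩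

def k41_pm_022 : ∃ t, chk3 f_pm_022 t 7 2 1 = true :=
  ⟨(a (b (b (c (a (l 17183104) (l 17180080)) (a (l 16961344) (l 17004344))) (c (a (l 17217040) (l 17225472)) (a (l 16974528) (l 17032384)))) (a (c (b (l 17238720) (l 17254600)) (b (l 16974280) (a (l 16952296) (l 16992688)))) (c (b (l 17253488) (l 17275792)) (b (l 17037008) (l 17041032))))) (b (c (b (l 17151152) (l 17209232)) (b (a (l 17023216) (l 17025792)) (a (l 17064904) (l 17078344)))) (c (b (l 17249488) (l 17280680)) (b (l 17091088) (a (l 17086544) (l 17114568)))))), by decide +kernel⟩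

def k42_pm_022 : ∃ t, chk3 f_pm_022 t 7 3 1 = true :=
  ⟨(a (b (a (b (c (a (l 17253880) (l 17272488)) (a (b (l 16949112) (l 16945816)) (l 16990440))) (c (a (b (l 17257928) (l 17261072)) (l 17281512)) (a (b (l 16941496) (b (l 16937688) (l 16940400))) (b (l 16987024) (l 16985744))))) (c (b (l 17291824) (l 17306320)) (b (l 17042800) (b (l 17043128) (l 17043984))))) (a (b (c (a (c (l 17352504) (l 17198760)) (l 17300056)) (a (b (a (l 16941432) (l 16966304)) (c (l 17054584) (a (l 16886352) (l 16913600)))) (b (l 17000320) (l 17022960)))) (c (a (b (l 17299368) (l 17319728)) (b (l 17323240) (l 17343088))) (b (a (c (l 17080936) (a (l 16920080) (l 16946232))) (c (l 17119768) (l 16982448))) (a (c (l 17113944) (b (a (l 16950344) (l 16975480)) (a (l 16973344) (l 16998992)))) (b (l 17077864) (l 17057064)))))) (b (c (l 17327312) (b (l 17057560) (a (l 17061992) (l 17096272)))) (c (b (l 17350144) (l 17368880)) (b (a (l 17090480) (l 17124856)) (c (l 17200936) (a (l 17067512) (l 17105304)))))))) (b (c (b (l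 17304920) (a (l 17324632) (l 17326544))) (b (a (l 17093544) (l 17126688)) (a (b (l 17098488) (l 17102440)) (b (l 17136152) (l 17143296))))) (b (c (a (l 17347640) (l 17351848)) (a (b (l 17116376) (l 17139136)) (b (l 17157328) (l 17179080)))) (c (a (l 17377648) (l 17380224)) (a (b (l 17166472) (l 17198584)) (b (l 17204288) (l 17232528))))))), by decide +kernel⟩

theorem s43_pm_022 : ∃ t, chk3 f_pm_022 t 7 1 1 = true := ex3_b k41_pm_022 k42_pm_022

theorem s44_pm_022 : ∃ t, chk3 f_pm_022 t 13 3 1 = true := ex3_b k39_pm_022 k40_pm_022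

theorem s45_pm_022 : ∃ t, chk3 f_pm_022 t 12 7 1 = true := ex3_b k37_pm_022 k38_pm_022

theorem s46_pm_022 : ∃ t, chk3 f_pm_022 t 12 3 1 = true := ex3_b k36_pm_022 s45_pm_022

theorem s47_pm_022 : ∃ t, chk3 f_pm_022 t 6 3 1 = true := ex3_a s46_pm_022 s44_pm_022

theorem s48_pm_022 : ∃ t, chk3 f_pm_022 t 6 1 1 = true := ex3_b k35_pm_022 s47_pm_022

theorem s49_pm_022 : ∃ t, chk3 f_pm_022 t 3 1 1 = true := ex3_a s48_pm_022 s43_pm_022

theorem s50_pm_022 : ∃ t, chk3 f_pm_022 t 23 7 1 = true := ex3_b k33_pm_022 k34_pm_022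

theorem s51_pm_022 : ∃ t, chk3 f_pm_022 t 22 15 1 = true := ex3_b k31_pm_022 k32_pm_022

theorem s52_pm_022 : ∃ t, chk3 f_pm_022 t 22 7 1 = true := ex3_b k30_pm_022 s51_pm_022

theorem s53_pm_022 : ∃ t, chk3 f_pm_022 t 11 7 1 = true := ex3_a s52_pm_022 s50_pm_022

theorem s54_pm_022 : ∃ t, chk3 f_pm_022 t 11 3 1 = true := ex3_b k29_pm_022 s53_pm_022

theorem s55_pm_022 : ∃ t, chk3 f_pm_022 t 21 31 1 = true := ex3_a k27_pm_022 k28_pm_022

theorem s56_pm_022 : ∃ t, chk3 f_pm_022 t 21 15 1 = true := ex3_b k26_pm_022 s55_pm_022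

theorem s57_pm_022 : ∃ t, chk3 f_pm_022 t 21 7 1 = true := ex3_b k25_pm_022 s56_pm_022

theorem s58_pm_022 : ∃ t, chk3 f_pm_022 t 21 3 1 = true := ex3_b k24_pm_022 s57_pm_022

theorem s59_pm_022 : ∃ t, chk3 f_pm_022 t 167 31 2 = true := ex3_b k21_pm_022 k22_pm_022

theorem s60_pm_022 : ∃ t, chk3 f_pm_022 t 167 31 1 = true := ex3_c s59_pm_022 k23_pm_022

theorem s61_pm_022 : ∃ t, chk3 f_pm_022 t 83 31 1 = true := ex3_a k20_pm_022 s60_pm_022

theorem s62_pm_022 : ∃ t, chk3 f_pm_022 t 83 15 1 = true := ex3_b k19_pm_022 s61_pm_022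

theorem s63_pm_022 : ∃ t, chk3 f_pm_022 t 83 7 1 = true := ex3_b k18_pm_022 s62_pm_022

theorem s64_pm_022 : ∃ t, chk3 f_pm_022 t 41 7 1 = true := ex3_a k17_pm_022 s63_pm_022

theorem s65_pm_022 : ∃ t, chk3 f_pm_022 t 40 31 1 = true := ex3_a k15_pm_022 k16_pm_022

theorem s66_pm_022 : ∃ t, chk3 f_pm_022 t 40 15 1 = true := ex3_b k14_pm_022 s65_pm_022

theorem s67_pm_022 : ∃ t, chk3 f_pm_022 t 40 7 1 = true := ex3_b k13_pm_022 s66_pm_022

theorem s68_pm_022 : ∃ t, chk3 f_pm_022 t 20 7 1 = true := ex3_a s67_pm_022 s64_pm_022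

theorem s69_pm_022 : ∃ t, chk3 f_pm_022 t 20 3 1 = true := ex3_b k12_pm_022 s68_pm_022

theorem s70_pm_022 : ∃ t, chk3 f_pm_022 t 10 3 1 = true := ex3_a s69_pm_022 s58_pm_022

theorem s71_pm_022 : ∃ t, chk3 f_pm_022 t 5 3 1 = true := ex3_a s70_pm_022 s54_pm_022

theorem s72_pm_022 : ∃ t, chk3 f_pm_022 t 39 15 1 = true := ex3_b k10_pm_022 k11_pm_022

theorem s73_pm_022 : ∃ t, chk3 f_pm_022 t 39 7 1 = true := ex3_b k9_pm_022 s72_pm_022

theorem s74_pm_022 : ∃ t, chk3 f_pm_022 t 19 7 1 = true := ex3_a k8_pm_022 s73_pm_022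

theorem s75_pm_022 : ∃ t, chk3 f_pm_022 t 18 15 1 = true := ex3_b k6_pm_022 k7_pm_022

theorem s76_pm_022 : ∃ t, chk3 f_pm_022 t 18 7 1 = true := ex3_b k5_pm_022 s75_pm_022

theorem s77_pm_022 : ∃ t, chk3 f_pm_022 t 9 7 1 = true := ex3_a s76_pm_022 s74_pm_022

theorem s78_pm_022 : ∃ t, chk3 f_pm_022 t 4 7 1 = true := ex3_a k4_pm_022 s77_pm_022

theorem s79_pm_022 : ∃ t, chk3 f_pm_022 t 4 3 1 = true := ex3_b k3_pm_022 s78_pm_022

theorem s80_pm_022 : ∃ t, chk3 f_pm_022 t 2 3 1 = true := ex3_a s79_pm_022 s71_pm_022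

theorem s81_pm_022 : ∃ t, chk3 f_pm_022 t 5 2 1 = true := ex3_a k1_pm_022 k2_pm_022

theorem s82_pm_022 : ∃ t, chk3 f_pm_022 t 2 2 1 = true := ex3_a k0_pm_022 s81_pm_022

theorem s83_pm_022 : ∃ t, chk3 f_pm_022 t 2 1 1 = true := ex3_b s82_pm_022 s80_pm_022

theorem s84_pm_022 : ∃ t, chk3 f_pm_022 t 1 1 1 = true := ex3_a s83_pm_022 s49_pm_022

theorem c_pm_022 : CertN 0 536870912 0 536870912 201326592 134217728 3 true true false .pp 0 2 2
    ndN0q0 ndN0q2 pcN2 cut_pm_022 Ext.none :=
  certN2 (fam := true) (s1 := true) (s2 := false) (a := 0) (b := 2) (c := 2) (cn := .pp) (n1 := ndN0q0) (n2 := ndN0q2) (pc := pcN2) (cut := cut_pm_022) (xt := Ext.none) (P1 := 0) (W1 := 536870912) (P2 := 0) (W2 := 536870912) (P3 := 201326592) (W3 := 134217728) (N0 := 3)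
    rfl (fun _ => rfl) s84_pm_022

noncomputable def f_pm_023 : ℕ → ℕ → ℕ → ℕ → Bool := onCell 0 536870912 0 536870912 201326592 134217728
    (rowN 3 0 true true false .up 0 2 3 (qsf 0 536870912 0 536870912 3) ndN0q0 ndN0q2 pcN3 Cut.none Ext.none)

def k0_pm_023 : ∃ t, chk3 f_pm_023 t 2 1 1 = true :=
  ⟨(l 1), by decide +kernel⟩

def k1_pm_023 : ∃ t, chk3 f_pm_023 t 3 2 1 = true :=
  ⟨(a (a (l 1) (a (b (b (l 1) (l 1)) (l 1)) (b (c (b (c (l 17274888) (l 17155672)) (b (l 17285784) (c (l 17405952) (l 17249552)))) (b (c (l 17047352) (l 16954472)) (b (l 17029208) (a (l 17047040) (l 17046472))))) (c (b (l 69291059575) (l 81639088375)) (b (c (l 17132216) (l 17006712)) (c (l 110629728215) (l 139620487751))))))) (b (a (c (a (b (c (l 17215472) (l 17115096)) (c (l 17327160) (l 17196024))) (b (b (l 17085208) (l 17130864)) (l 17199752))) (a (b (c (l 17025224) (l 16949544)) (b (l 17018808) (l 17040136))) (b (b (l 16952160) (l 16976696)) (l 17011968)))) (c (b (a (b (l 17028992) (l 17073728)) (b (l 16975416)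 (l 17019344))) (a (l 17141640) (b (l 17063704) (l 17109408)))) (a (b (b (l 16926288) (l 16952152)) (l 16990232)) (b (b (l 16898496) (l 16925320)) (l 16986592))))) (a (c (b (a (l 17319536) (l 17275072)) (a (l 17356456) (l 17325056))) (b (a (c (l 17123056) (l 17015792)) (l 17119384)) (a (c (l 17154224) (l 17035096)) (l 17093624)))) (b (c (a (l 17227280) (b (l 17157016) (l 17199040))) (a (l 17040664) (l 17135984))) (c (l 17267336) (a (l 17086040) (l 17072256))))))), by decide +kernel⟩

def k2_pm_023 : ∃ t, chk3 f_pm_023 t 3 3 1 = true :=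
  ⟨(a (b (l 1) (l 1)) (b (b (a (c (a (l 101503363303) (l 17363928)) (a (c (l 106871685111) (b (l 17037408) (l 106334434327))) (c (l 17174600) (l 17058856)))) (c (l 17321928) (a (l 17120408) (l 17116608)))) (a (c (c (l 103651360263) (a (l 120830650903) (l 108482661047))) (a (b (c (l 143915645175) (l 160021560071)) (l 1)) (b (c (l 17184048) (l 107945105751)) (c (l 110629730919) (a (l 156263392759) (l 17051976)))))) (c (c (l 17430048) (l 17313288)) (a (b (l 17136512) (c (l 17201728) (l 17079400))) (b (l 17143208) (l 17156232)))))) (b (b (a (a (l 1) (a (l 1) (c (l 17396072) (c (l 17178936) (l 99891974775))))) (c (a (l 17398464) (l 17392296)) (a (c (l 17201984) (a (l 60163619751) (l 17081464))) (c (l 17220408) (l 17106560))))) (a (l 1) (c (l 17396624) (a (c (l 17199840) (l 98818271143)) (l 17169832))))) (a (l 1) (c (c (l 17460408) (l 108482870631)) (a (c (l 111166713431) (b (l 105260839495) (l 1))) (c (l 17245032) (b (l 17125688) (l 108482152855))))))))), by decide +kernel⟩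

theorem s3_pm_023 : ∃ t, chk3 f_pm_023 t 3 1 1 = true := ex3_b k1_pm_023 k2_pm_023

theorem s4_pm_023 : ∃ t, chk3 f_pm_023 t 1 1 1 = true := ex3_a k0_pm_023 s3_pm_023

theorem c_pm_023 : CertN 0 536870912 0 536870912 201326592 134217728 3 true true false .up 0 2 3
    ndN0q0 ndN0q2 pcN3 Cut.none Ext.none :=
  certN0 (fam := true) (s1 := true) (s2 := false) (a := 0) (b := 2) (c := 3) (cn := .up) (n1 := ndN0q0) (n2 := ndN0q2) (pc := pcN3) (cut := Cut.none) (xt := Ext.none) (P1 := 0) (W1 := 536870912) (P2 := 0) (W2 := 536870912) (P3 := 201326592) (W3 := 134217728) (N0 := 3)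
    rfl s4_pm_023

noncomputable def cut_pm_101 : Cut := Cut.of [[⟨0, 1, 0, 67108864⟩, ⟨1, 0, 0, 67108864⟩, ⟨2, 1, 0, 67108864⟩]]

noncomputable def f_pm_101 : ℕ → ℕ → ℕ → ℕ → Bool := onCell 536870912 536870912 536870912 536870912 201326592 134217728
    (rowN 3 1 true true false .npn 1 0 1 (qsf 536870912 536870912 0 536870912 1) ndN0q1 ndN0q0 pcN1 cut_pm_101 Ext.none)

def k0_pm_101 : ∃ t, chk3 f_pm_101 t 1 1 1 = true :=
  ⟨(b (l 3) (a (l 3) (b (l 3) (a (l 3) (b (l 3) (a (l 3) (b (l 3) (a (l 3) (l 6))))))))), by decide +kernel⟩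

theorem c_pm_101 : CertN 536870912 536870912 0 536870912 201326592 134217728 3 true true false .npn 1 0 1
    ndN0q1 ndN0q0 pcN1 cut_pm_101 Ext.none :=
  certN1 (fam := true) (s1 := true) (s2 := false) (a := 1) (b := 0) (c := 1) (cn := .npn) (n1 := ndN0q1) (n2 := ndN0q0) (pc := pcN1) (cut := cut_pm_101) (xt := Ext.none) (P1 := 536870912) (W1 := 536870912) (P2 := 0) (W2 := 536870912) (P3 := 201326592) (W3 := 134217728) (N0 := 3)
    rfl (fun _ => rfl) k0_pm_101

end Pool.Agent.Strip051.G.I3_16_5_16.Tab.C.NA00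

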