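import Pool.Agent.Strip051.G.I3_16_5_16.Tab

/-! # Certificates N4 (generated) -/

set_option linter.all false
set_option maxRecDepth 100000

namespace Pool.Agent.Strip051.G.I3_16_5_16.Tab.C.NA00

open Pool.Agent.Strip051.PB Pool.Agent.Strip051.PB.T
open Pool.Agent.Strip051.G.I3_16_5_16.Tab

noncomputable def f_pm_112 : ℕ → ℕ → ℕ → ℕ → Bool := onCell 536870912 536870912 1073741824 536870912 201326592 134217728
    (rowN 3 1 true true false .dn 1 1 2 (qsf 536870912 536870912 536870912 536870912 2) ndN0q1 ndN0q1 pcN2 Cut.none Ext.none)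

def k0_pm_112 : ∃ t, chk3 f_pm_112 t 2 4 1 = true :=
  ⟨(a (l 3) (l 3)), by decide +kernel⟩

def k1_pm_112 : ∃ t, chk3 f_pm_112 t 2 10 1 = true :=
  ⟨(a (b (b (l 3) (b (l 3) (a (b (a (a (b (l 3) (c (l 140828082823) (l 155323566231))) (l 3)) (l 3)) (a (a (b (b (a (l 16824304) (l 16825672)) (l 16822920)) (l 16819832)) (b (b (a (l 16826880) (l 159081664359)) (l 123111312519)) (l 16832896))) (a (b (b (l 3) (l 150491734039)) (l 16834680)) (b (b (l 3) (l 154786704535)) (l 16835896))))) (b (l 3) (a (b (l 3) (a (l 16836496) (l 16836480))) (a (b (b (l 3) (l 155860445911)) (l 16835840)) (b (b (l 3) (l 151565475047)) (l 16824104)))))))) (a (c (a (b (a (l 16849096) (l 16852256)) (l 16793416)) (b (a (l 16854616) (l 16855880)) (l 16806032))) (a (b (a (l 16860032) (l 16862080)) (l 16788616)) (b (a (l 16863736) (l 16864704)) (l 16783368)))) (b (c (b (a (l 16865416) (l 16864248)) (l 16889504)) (a (a (l 16865328) (l 16844496)) (a (l 16844136) (l 16864264)))) (c (l 16863936) (l 16863824))))) (b (b (a (l 3)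 (l 1)) (b (a (a (l 3) (l 1)) (l 1)) (a (a (b (b (l 3) (a (c (l 141901827159) (l 157471052215)) (c (l 142975564215) (l 155860435655)))) (b (b (c (a (l 16835328) (l 16832456)) (a (l 16818944) (l 16816720))) (a (a (l 16825608) (l 16824496)) (l 16822496))) (a (l 16832696) (l 16819736)))) (a (b (l 1) (b (l 1) (l 16816520))) (l 1))) (l 1)))) (a (c (a (a (l 16882008) (a (l 16878016) (l 16877272))) (a (l 16877128) (l 16879280))) (b (b (a (c (l 16850440) (l 16865512)) (l 16863632)) (a (l 16813896) (l 16792992))) (a (l 16784592) (l 16790192)))) (a (a (l 143915163111) (l 1)) (l 1))))), by decide +kernel⟩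

def k2_pm_112 : ∃ t, chk3 f_pm_112 t 2 11 1 = true :=
  ⟨(a (c (a (a (b (b (l 16824648) (l 16863296)) (l 16921552)) (b (l 16831568) (l 16906256))) (b (b (l 16874608) (l 16890800)) (l 16983832))) (a (b (a (b (l 16815056) (l 16847912)) (l 16869776)) (a (l 16898008) (l 16894664))) (b (b (l 16895296) (l 16907360)) (a (l 16896688) (l 16895952))))) (b (a (a (l 16911760) (a (l 16851000) (l 16876352))) (a (c (l 16872496) (l 101502408791)) (b (l 1) (l 50499553367)))) (a (a (l 16900216) (l 16917488)) (a (a (l 16900696) (l 16885088)) (a (l 16911928) (l 16896192)))))), by decide +kernel⟩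

def k3_pm_112 : ∃ t, chk3 f_pm_112 t 2 3 1 = true :=
  ⟨(b (a (a (a (b (b (c (l 16995792) (l 16961912)) (c (l 17062888) (l 17021024))) (c (b (l 17123016) (l 17177288)) (b (l 17074960) (l 17164120)))) (b (b (c (l 16977736) (l 16957704)) (c (l 17044520) (l 17016000))) (c (l 17340408) (l 17093392)))) (b (a (b (c (l 16965144) (l 16958064)) (l 17020416)) (b (l 16964048) (l 17017360))) (c (b (l 17077992) (l 17128224)) (b (l 17063448) (l 17107104))))) (a (a (b (b (l 16969704) (l 17024440)) (c (l 17085896) (l 17088232))) (b (b (l 16960184) (l 17017920)) (c (l 17089584) (l 17103936)))) (b (c (b (l 17062904) (l 17028512)) (b (a (l 16956320) (l 16959448)) (l 17034856))) (c (l 17216448) (b (l 17062656) (l 17106480)))))) (a (c (b (a (a (a (l 17258888) (l 17242920)) (l 17221776)) (b (l 17169496) (l 17203688))) (a (a (b (l 17316816) (l 17355384)) (l 17296552)) (b (l 17233224) (l 17256872)))) (b (a (b (a (l 17223400) (l 17154616)) (a (l 17190200) (l 17186216))) (a (l 17163584) (l 17156160))) (a (a (b (l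 17217296) (a (l 17243128) (l 17238216))) (b (l 17209728) (l 17230576))) (a (l 17189904) (l 17202184))))) (a (b (c (l 17197656) (a (l 17151880) (l 17152712))) (c (l 17205744) (l 17213064))) (a (b (l 17219984) (l 17188216)) (b (l 17259960) (l 17188112)))))), by decide +kernel⟩

def k4_pm_112 : ∃ t, chk3 f_pm_112 t 3 1 1 = true :=
  ⟨(b (a (b (l 1) (b (l 1) (a (a (a (b (l 1) (l 16901056)) (l 1)) (l 1)) (l 1)))) (l 1)) (b (a (a (b (c (b (a (l 17003672) (l 17020848)) (l 47278807751)) (b (a (l 16962656) (l 16965640)) (a (l 17017880) (l 17022192)))) (c (b (l 17104272) (l 17136048)) (b (a (l 17065152) (l 17071000)) (l 17108408)))) (a (b (b (l 1) (c (l 17090880) (l 17026040))) (c (l 17296928) (a (l 17055496) (l 17016976)))) (b (l 1) (b (c (l 17156224) (l 47815457751)) (c (l 17189240) (l 17165984)))))) (b (l 1) (a (a (a (b (l 1) (l 76269957863)) (l 1)) (l 1)) (l 1)))) (a (a (b (c (l 17212160) (b (l 17139568) (l 17164640))) (c (l 17256832) (l 17316272))) (b (c (a (l 17196224) (l 17219808)) (b (a (l 17150032)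 (l 17158960)) (l 17177784))) (c (l 17242312) (a (l 17193232) (l 17201464))))) (b (a (a (c (l 17360368) (b (l 17159576) (l 17188568))) (c (l 78954961383) (b (l 91302434151) (l 17191176)))) (a (c (l 85934385239) (b (l 1) (l 108482323399))) (l 1))) (a (a (c (l 17258176) (l 17211688)) (c (l 17295688) (b (l 17213616) (l 17224688)))) (a (c (l 17336376) (b (l 17219392) (l 17235888))) (c (b (l 17376912) (l 17376152)) (b (l 95060685095) (l 83249611847))))))))), by decide +kernel⟩

theorem s5_pm_112 : ∃ t, chk3 f_pm_112 t 2 5 1 = true := ex3_b k1_pm_112 k2_pm_112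

theorem s6_pm_112 : ∃ t, chk3 f_pm_112 t 2 2 1 = true := ex3_b k0_pm_112 s5_pm_112

theorem s7_pm_112 : ∃ t, chk3 f_pm_112 t 2 1 1 = true := ex3_b s6_pm_112 k3_pm_112

theorem s8_pm_112 : ∃ t, chk3 f_pm_112 t 1 1 1 = true := ex3_a s7_pm_112 k4_pm_112

theorem c_pm_112 : CertN 536870912 536870912 536870912 536870912 201326592 134217728 3 true true false .dn 1 1 2
    ndN0q1 ndN0q1 pcN2 Cut.none Ext.none :=
  certN1 (fam := true) (s1 := true) (s2 := false) (a := 1) (b := 1) (c := 2) (cn := .dn) (n1 := ndN0q1) (n2 := ndN0q1) (pc := pcN2) (cut := Cut.none) (xt := Ext.none) (P1 := 536870912) (W1 := 536870912) (P2 := 536870912) (W2 := 536870912) (P3 := 201326592) (W3 := 134217728) (N0 := 3)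
    rfl (fun _ => rfl) s8_pm_112

noncomputable def cut_pm_113 : Cut := Cut.of [[⟨0, 1, 0, 57167902⟩, ⟨1, 1, 0, 57167902⟩, ⟨2, 2, 0, 11758673⟩]]

noncomputable def f_pm_113 : ℕ → ℕ → ℕ → ℕ → Bool := onCell 536870912 536870912 536870912 536870912 201326592 134217728
    (rowN 3 0 true true false .nn 1 1 3 (qsf 536870912 536870912 536870912 536870912 3) ndN0q1 ndN0q1 pcN3 cut_pm_113 Ext.none)

def k0_pm_113 : ∃ t, chk3 f_pm_113 t 2 1 1 = true :=
  ⟨(b (b (l 1) (a (l 1) (a (l 1) (b (l 1) (l 17365088))))) (b (a (b (l 1) (a (l 1) (c (l 17315016) (l 97744998279)))) (a (b (l 119756464967) (c (l 17266584) (l 17203784))) (c (l 17475648) (b (l 17191936) (l 17200568))))) (a (b (a (c (l 90229319847) (c (l 103113951351) (l 108482490471))) (c (l 54259111575) (c (l 17416008) (l 73586127223)))) (c (a (b (l 17358392) (a (l 17388112) (l 17369472))) (b (l 17323056) (l 17574016))) (b (a (l 107945604439) (l 17240424)) (b (a (a (l 112777353255) (l 17249184)) (l 17244528)) (a (a (l 17241952) (l 17256192)) (l 17248688))))))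 (b (a (c (l 17477408) (b (l 17221672) (l 17222176))) (a (l 17412608) (b (l 17202408) (l 17186488)))) (b (a (c (l 17258008) (l 17212864)) (l 17353680)) (a (c (l 17254128) (a (l 17256744) (l 17182512))) (c (l 17143632) (l 17185016)))))))), by decide +kernel⟩

def k1_pm_113 : ∃ t, chk3 f_pm_113 t 3 2 1 = true :=
  ⟨(a (b (a (l 1) (b (l 1) (c (l 17315016) (l 97744998279)))) (b (a (l 119756464967) (c (l 17266584) (l 17203784))) (c (l 17475648) (a (l 17191936) (l 17200568))))) (b (a (b (c (l 90229319847) (c (l 103113951351) (l 108482490471))) (c (l 54259111575) (c (l 17416008) (l 88081641847)))) (c (b (a (l 17358392) (b (l 17388112) (l 17369472))) (a (l 17323056) (l 17574016))) (a (b (l 107945604439) (l 17240424)) (a (b (b (l 112777353255) (l 17249184)) (l 17244528)) (b (b (l 17241952) (l 17256192)) (l 17248688)))))) (a (b (c (l 17477408) (a (l 17221672) (l 17222176))) (b (l 17412608) (a (l 17202408) (l 17186488)))) (a (b (c (l 17258008) (l 17212864)) (l 17353680)) (b (c (l 17254128) (b (l 17256744)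 (l 17182512))) (c (l 17143632) (l 17185016))))))), by decide +kernel⟩

def k2_pm_113 : ∃ t, chk3 f_pm_113 t 3 6 1 = true :=
  ⟨(a (a (c (l 17201728) (l 17284752)) (l 17350992)) (a (b (a (l 17152624) (l 17130320)) (l 17064760)) (b (a (l 17126944) (c (l 17137144) (l 17187496))) (a (c (l 17126448) (l 17130792)) (b (l 17265656) (c (l 17040624) (l 17042528))))))), by decide +kernel⟩

def k3_pm_113 : ∃ t, chk3 f_pm_113 t 6 7 1 = true :=
  ⟨(b (a (b (l 17152624) (l 17130320)) (l 17064760)) (a (b (l 17126944) (c (l 17137144) (l 17187496))) (b (c (l 17126448) (l 17130792)) (a (l 17265656) (c (l 17040624) (l 17042528)))))), by decide +kernel⟩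

def k4_pm_113 : ∃ t, chk3 f_pm_113 t 7 7 1 = true :=
  ⟨(b (a (l 17007712) (a (c (l 17131448) (l 17130688)) (a (b (l 16949296) (l 17075744)) (c (b (l 16973400) (l 17073088)) (b (l 16949048) (b (l 16918976) (a (l 16897648) (l 16900488)))))))) (a (b (c (l 17131448) (l 17130688)) (b (a (l 16949296) (l 17075744)) (c (a (l 16973400) (l 17073088)) (a (l 16949048) (a (l 16918976) (b (l 16897648) (l 16900488))))))) (b (a (l 16882344) (a (b (l 16960512) (l 16936712)) (c (b (l 17000696) (b (l 16941312) (l 16949352))) (b (a (l 16871176) (l 16939512)) (a (l 16866784) (a (l 16850104) (l 16914424))))))) (a (b (a (l 16960512) (l 16936712)) (c (a (l 17000696) (a (l 16941312) (l 16949352))) (a (b (l 16871176) (l 16939512)) (b (l 16866784) (b (l 16850104) (l 16914424)))))) (b (a (l 16829360) (a (c (l 16865832) (l 16863928)) (c (b (l 16914392) (c (l 16880360) (l 16878208))) (b (c (l 16889056) (l 16886464)) (b (l 16868144) (b (l 16863400) (l 16854904))))))) (a (b (c (l 16865832) (l 16863928)) (c (a (l 16914392)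 (c (l 16880360) (l 16878208))) (a (c (l 16889056) (l 16886464)) (a (l 16868144) (a (l 16863400) (l 16854904)))))) (b (a (l 16803120) (c (a (l 16822056) (b (l 16847112) (c (l 16840032) (l 16828360)))) (a (l 16820936) (b (c (l 16844640) (l 16832688)) (a (l 16816368) (b (l 16820040) (l 16816168))))))) (a (c (b (l 16822056) (a (l 16847112) (c (l 16840032) (l 16828360)))) (b (l 16820936) (a (c (l 16844640) (l 16832688)) (b (l 16816368) (a (l 16820040) (l 16816168)))))) (b (a (l 16790120) (a (a (l 16788488) (l 6)) (l 6))) (a (a (b (l 16811744) (l 6)) (l 6)) (l 6))))))))))), by decide +kernel⟩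

theorem s5_pm_113 : ∃ t, chk3 f_pm_113 t 3 7 1 = true := ex3_a k3_pm_113 k4_pm_113

theorem s6_pm_113 : ∃ t, chk3 f_pm_113 t 3 3 1 = true := ex3_b k2_pm_113 s5_pm_113

theorem s7_pm_113 : ∃ t, chk3 f_pm_113 t 3 1 1 = true := ex3_b k1_pm_113 s6_pm_113

theorem s8_pm_113 : ∃ t, chk3 f_pm_113 t 1 1 1 = true := ex3_a k0_pm_113 s7_pm_113

theorem c_pm_113 : CertN 536870912 536870912 536870912 536870912 201326592 134217728 3 true true false .nn 1 1 3
    ndN0q1 ndN0q1 pcN3 cut_pm_113 Ext.none :=
  certN0 (fam := true) (s1 := true) (s2 := false) (a := 1) (b := 1) (c := 3) (cn := .nn) (n1 := ndN0q1) (n2 := ndN0q1) (pc := pcN3) (cut := cut_pm_113) (xt := Ext.none) (P1 := 536870912) (W1 := 536870912) (P2 := 536870912) (W2 := 536870912) (P3 := 201326592) (W3 := 134217728) (N0 := 3)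
    rfl s8_pm_113

noncomputable def cut_pm_123 : Cut := Cut.of [[⟨0, 1, 0, 57167902⟩, ⟨1, 1, 0, 57167902⟩, ⟨2, 2, 0, 11758673⟩]]

noncomputable def f_pm_123 : ℕ → ℕ → ℕ → ℕ → Bool := onCell 1610612736 536870912 0 536870912 201326592 134217728
    (rowN 3 2 true true false .npn 1 2 3 (qsf 536870912 536870912 0 536870912 3) ndN0q1 ndN0q2 pcN3 cut_pm_123 Ext.none)

def k0_pm_123 : ∃ t, chk3 f_pm_123 t 2 2 1 = true :=
  ⟨(a (b (l 1) (a (l 1) (a (l 1) (b (l 1) (b (l 1) (l 17164400)))))) (a (b (c (a (b (b (l 16972576) (l 17014576)) (l 17074832)) (b (b (a (l 16934952) (l 16911072)) (l 16964152)) (b (l 17004224) (l 17044016)))) (a (b (a (l 1) (l 16902504)) (l 16980928)) (b (a (l 16888472) (b (l 16861640) (l 16887864))) (b (l 16920616) (l 16946232))))) (c (b (a (b (l 17135112) (l 17171496)) (b (l 17084040) (l 17123808))) (a (l 17208384) (l 17165152))) (b (a (l 17092992) (b (l 16971920) (l 16996912))) (a (l 17054680) (l 17031792))))) (b (a (c (b (a (b (l 16887696) (l 16928112)) (b (l 16843960) (l 16904512)))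 (b (l 16955520) (l 16994792))) (b (b (a (l 16847592) (l 16833856)) (a (l 16873560) (l 16859120))) (b (l 16892200) (l 16918224)))) (c (b (b (a (b (a (l 16839112) (l 16829384)) (l 16852744)) (b (a (l 79691928903) (l 87208095703)) (a (l 16836888) (l 16827240)))) (a (l 16881368) (b (l 16849824) (l 16868336)))) (b (a (l 16919760) (l 16896368)) (l 16946328))) (b (b (a (b (a (l 16819176) (l 16814864)) (l 16826712)) (b (a (l 78618159575) (l 88281839895)) (a (l 16817784) (l 16813408)))) (a (l 16844712) (c (l 16837128) (l 16824568)))) (a (l 16903928) (b (l 16855312) (l 16881112)))))) (c (b (a (l 17053544) (b (l 16985320) (l 17023248))) (a (l 17120072) (b (l 17058976) (l 17088168)))) (b (a (l 16977928) (b (l 16914968) (l 16940392))) (a (b (l 16993544) (l 17017120)) (b (l 16964072) (l 16987024)))))))), by decide +kernel⟩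

def k1_pm_123 : ∃ t, chk3 f_pm_123 t 2 3 1 = true :=
  ⟨(a (b (a (l 1) (b (a (l 1) (c (l 17287560) (l 17111568))) (c (a (l 17353856) (l 17326656)) (a (b (l 17143392) (l 17160136)) (l 17233576))))) (b (a (a (l 1) (c (b (l 17392664) (l 17391248)) (b (c (l 17220360) (l 34930948823)) (l 17181792)))) (a (c (l 23657452039) (b (c (l 17227128) (l 17127784)) (l 17195432))) (c (l 17376448) (b (l 17180304) (l 17197536))))) (a (c (b (l 55869573431) (l 66607015543)) (a (b (l 100965990055) (c (l 17270904) (l 39762777527))) (b (l 17209408) (l 17242168)))) (c (b (l 17360768) (l 17349920)) (b (a (l 17219352) (l 17216784)) (l 17283776)))))) (b (a (b (c (a (l 17251432) (l 17212376)) (a (l 17097208) (l 17077104))) (c (l 17275944) (a (l 17139512) (l 17121672)))) (b (c (a (l 17169624) (l 17124504)) (a (l 17051616) (l 17021960))) (a (c (l 17215064) (l 17097568)) (c (l 17168256) (l 17067440))))) (b (a (c (b (l 17307808) (l 17310592)) (b (a (l 17173208) (l 17157344)) (a (l 17189840) (l 17174208)))) (a (c (l 17311800)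 (b (l 17133944) (l 17151256))) (c (l 17327112) (b (l 17103184) (l 17121240))))) (a (b (c (l 17292392) (l 17194096)) (a (l 17253336) (l 17214104))) (b (a (l 17189992) (l 17146704)) (c (l 17219240) (a (l 17148576) (l 17105968)))))))), by decide +kernel⟩

def k2_pm_123 : ∃ t, chk3 f_pm_123 t 12 2 1 = true :=
  ⟨(b (a (b (c (b (a (b (l 4) (a (l 81302539895) (l 89355575127))) (l 4)) (a (b (a (l 16834080) (l 16824592)) (l 16846304)) (b (a (l 83450024647) (l 91503053351)) (a (l 16830696) (l 49627078999))))) (b (a (b (l 4) (a (l 81302517751) (l 90966191047))) (l 4)) (a (b (a (l 16816056) (l 16811736)) (l 16823016)) (b (a (l 84523746023) (l 93113670231)) (a (l 16813992) (l 55532659095)))))) (c (b (a (l 16873440) (b (l 16842376) (l 16860072))) (a (l 16910832) (l 16887600))) (a (b (l 16840568) (l 16865928)) (b (b (l 16820672) (l 16832096)) (l 16850720))))) (b (b (l 4) (a (c (b (l 4) (a (l 74860078311) (l 95261142775))) (b (l 4) (a (b (l 95261139895) (l 16809072)) (l 97945502519)))) (l 4))) (c (b (b (a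 (a (l 16826936) (l 70028218935)) (a (l 79691892055) (l 101703584375))) (a (l 16838288) (a (l 16822840) (l 77544420247)))) (a (b (l 16855896) (l 16874040)) (a (l 16847856) (l 16815648)))) (b (b (a (a (l 16811688) (b (l 67343817015) (l 16808880))) (a (b (l 92576733255) (l 68954422983)) (l 104387945351))) (a (l 16818160) (a (l 16809200) (b (l 85060587159) (l 16806552))))) (a (a (l 16839408) (l 16831912)) (a (l 16824448) (l 16817152))))))) (c (b (a (a (l 16967424) (l 16922360)) (a (b (l 16901512) (l 16937296)) (b (l 16877576) (l 16912112)))) (a (b (l 17008264) (l 17040024)) (a (l 16985272) (l 16958368)))) (b (a (a (l 16904528) (b (l 16876544) (l 16901576))) (a (b (l 16860824) (l 16885480)) (b (l 16844840) (l 16868848)))) (a (b (l 16932776) (l 16955008)) (a (l 16918848) (b (l 16891080) (l 16911824))))))), by decide +kernel⟩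

def k3_pm_123 : ∃ t, chk3 f_pm_123 t 13 2 1 = true :=
  ⟨(b (a (b (l 4) (a (a (b (b (l 4) (c (l 87208078967) (b (l 4) (l 89892428727)))) (c (b (l 16818160) (l 16833928)) (b (l 16806416) (l 16815488)))) (b (l 4) (b (c (l 71101981431) (b (l 94187396903) (l 16804248))) (c (l 16822904) (l 16808656))))) (b (l 4) (b (a (b (l 4) (a (l 93113660471) (l 4))) (l 4)) (c (a (l 74323200215) (l 82376255879)) (a (b (l 61975089255) (l 16804920)) (b (l 95261098455) (l 86134328343)))))))) (b (l 4) (b (l 4) (l 4)))) (a (a (b (c (b (a (l 16859496) (l 16847504)) (l 16886752)) (b (a (l 16832712) (l 16824664)) (l 16851904))) (c (b (l 16917152) (l 16945256)) (b (l 16873552) (l 16893784)))) (b (c (b (b (a (l 16827656) (l 16816704)) (l 16827512)) (a (l 16867816) (l 16855312))) (a (b (l 16816792) (l 16839136)) (b (a (l 16811112) (l 16807544)) (l 16830656)))) (c (b (l 16890480) (l 16917424)) (b (l 16855800) (l 16875536))))) (b (b (a (a (b (c (l 83986872103) (b (l 92039909463) (l 16801608))) (c (l 16820624) (l 16807064)))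 (b (b (l 4) (c (l 87208047671) (l 86671185191))) (c (b (l 73786287687) (l 16813312)) (b (l 79154999447) (l 16802640))))) (a (b (l 4) (c (l 83986870471) (a (l 83449970871) (l 92039889319)))) (l 4))) (c (a (a (l 16842880) (l 16820320)) (a (b (l 16812632) (l 16826080)) (b (b (l 94187396887) (l 16805824)) (l 16814848)))) (a (a (l 16822216) (l 16814008)) (b (a (l 16802080) (b (l 81839344871) (l 16798376))) (a (l 16810960) (l 16803424)))))) (c (b (a (l 16843648) (a (l 16845960) (l 16834104))) (a (l 16890376) (l 16865000))) (a (b (a (l 16842632) (l 16833904)) (l 16857456)) (a (b (l 16825392) (l 16844320)) (b (l 16817104) (l 16835752)))))))), by decide +kernel⟩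

def k4_pm_123 : ∃ t, chk3 f_pm_123 t 6 3 1 = true :=
  ⟨(b (a (b (c (a (l 17075592) (b (l 17012968) (l 17034264))) (a (b (l 16977288) (l 16999784)) (b (a (l 16950272) (l 16931608)) (l 16962064)))) (c (a (l 17117312) (l 17061192)) (a (l 17032448) (b (l 16982680) (l 17003456))))) (b (a (c (b (a (l 16971328) (l 16942552)) (l 16978000)) (b (a (l 16912664) (l 16893848)) (l 16921944))) (c (b (a (l 16914696) (l 16888600)) (a (l 16937216) (l 16910776))) (b (a (l 16875448) (l 16857696)) (a (l 16892552) (l 16873904))))) (c (a (b (l 16996992) (l 17013816)) (b (l 16942688) (l 16959792))) (a (b (l 16941920) (l 16961472)) (b (l 16900968) (l 16898528)))))) (a (b (b (a (l 17124808) (c (l 17087952) (l 17024800))) (a (c (l 17154592) (l 17084576)) (c (l 17098976) (l 17043800)))) (a (b (l 17100888) (l 17065240)) (b (a (l 17066088) (l 17043432)) (l 17014200)))) (b (b (a (c (l 17030576) (l 16981544)) (c (l 16975688) (l 16937968))) (a (c (l 17043696) (l 17000584)) (c (l 16989480) (l 16956120)))) (b (a (l 17135712)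 (c (l 16978112) (l 16957840))) (c (l 17035000) (l 17071976)))))), by decide +kernel⟩

def k5_pm_123 : ∃ t, chk3 f_pm_123 t 14 2 1 = true :=
  ⟨(b (l 4) (a (b (b (l 4) (a (b (a (a (c (l 95797970551) (l 94724239367)) (l 4)) (l 4)) (c (a (b (l 84523708887) (l 16807528)) (b (l 103851046535) (l 79691862759))) (a (b (l 86671191895) (l 16798848)) (c (l 91503035991) (a (l 75933736759) (l 100092919175)))))) (l 4))) (a (b (b (a (c (l 16816536) (l 16804688)) (c (b (l 16803472) (l 16808952)) (b (l 16801688) (l 16799632)))) (c (a (l 16828928) (l 16817784)) (a (l 16813688) (l 16805824)))) (a (c (l 16847024) (l 16827352)) (c (l 16835416) (l 16819072)))) (c (a (b (b (a (l 77544390151) (l 86671182151)) (l 16807184)) (l 16813648)) (b (b (b (l 4) (a (l 99019166295) (l 4))) (b (l 82376232327) (l 72175670823))) (b (l 16807832) (l 16818720)))) (a (b (b (a (b (l 94187357431) (l 16795432)) (b (l 4) (l 73249363143))) (l 16798504)) (b (l 16806704) (l 16815312))) (b (b (b (l 4) (a (l 96334803399) (l 4))) (a (l 72175661239)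 (b (l 90966095495) (l 16793224)))) (b (l 16799072) (l 16807216))))))) (b (l 4) (a (c (b (a (b (l 4) (a (b (l 4) (l 99019198167)) (l 4))) (l 4)) (b (a (a (l 16800344) (b (l 95797972503) (l 16798160))) (b (l 4) (a (l 89892391719) (l 103851014887)))) (a (l 16807984) (a (l 16800344) (b (l 81302456231) (l 16797904)))))) (b (a (b (l 4) (a (b (l 4) (l 100092934423)) (l 4))) (l 4)) (b (a (a (l 16794024) (b (l 96871708391) (l 16792720))) (b (l 4) (a (l 84523676487) (l 101703524823)))) (a (l 16799400) (a (l 16793984) (b (l 82376191543) (l 16792352))))))) (b (l 4) (c (a (b (l 4) (b (a (l 100629789559) (l 4)) (a (l 79691842071) (l 98482305607)))) (l 4)) (a (b (l 4) (a (b (l 98482299639) (l 80228705895)) (b (l 4) (l 95797965927)))) (l 4)))))))), by decide +kernel⟩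

def k6_pm_123 : ∃ t, chk3 f_pm_123 t 14 3 1 = true :=
  ⟨(b (a (b (c (a (b (l 16863840) (l 16885200)) (b (a (l 16846136) (l 16834616)) (l 16860664))) (a (b (l 16882344) (l 16856144)) (b (b (l 16861520) (l 16827592)) (l 16838808)))) (c (a (l 17017584) (a (l 16957032) (l 16965648))) (b (a (l 16871608) (l 16852840)) (l 16878256)))) (b (a (c (a (b (l 16802416) (l 16843040)) (b (a (l 16815176) (l 16799312)) (l 16831608))) (b (a (l 16853088) (b (l 16799336) (l 16806880))) (b (l 16860320) (l 16846408)))) (b (c (b (a (a (l 16799888) (b (l 78081225879) (l 16797256))) (a (b (l 96334821223) (l 76470608903)) (b (l 4) (l 95261078263)))) (a (l 16806704) (a (l 16798936) (b (l 75933734887) (l 16796144))))) (b (a (a (l 16793696) (b (l 78618091271) (l 16791856))) (a (b (l 93650481783) (l 77007476887)) (b (l 4) (l 107072249655)))) (a (l 16798872) (a (l 16793104) (b (l 77007475703) (l 16791104)))))) (a (c (l 16862392) (l 16851432)) (b (c (l 16805256) (l 16818976)) (b (l 16838616) (l 16852856)))))) (a (c (b (l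 16855320) (l 16914072)) (b (l 16835152) (l 16849144))) (c (b (b (l 16870064) (l 16836480)) (c (l 16895584) (l 16842840))) (b (c (l 16863312) (l 16816064)) (b (l 16827272) (l 16833776))))))) (a (b (c (b (l 16923016) (l 16936640)) (b (l 16894832) (l 16974376))) (b (c (l 17037576) (l 17084744)) (l 17035280))) (b (b (c (l 16872944) (l 16853384)) (a (l 16929392) (l 16864080))) (b (c (l 17053656) (a (l 16886896) (l 16865920))) (c (l 16964464) (l 16998920)))))), by decide +kernel⟩

def k7_pm_123 : ∃ t, chk3 f_pm_123 t 15 2 1 = true :=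
  ⟨(l 4), by decide +kernel⟩

def k8_pm_123 : ∃ t, chk3 f_pm_123 t 30 12 1 = true :=
  ⟨(a (b (a (b (l 4) (b (a (c (l 105998508695) (l 107072249255)) (l 4)) (a (c (l 76470604743) (l 77007474919)) (b (c (l 114051558999) (l 116199040983)) (c (l 87208013719) (l 84523654775)))))) (l 4)) (a (b (a (c (l 16797456) (l 16792152)) (b (c (l 77544346583) (l 77544345575)) (c (l 16794520) (l 16790000)))) (c (l 16824264) (l 16817696))) (b (a (b (c (l 107072247719) (a (l 84523653447) (l 4))) (c (l 79154961671) (l 79154958215))) (a (b (l 4) (b (l 4) (l 96871689655))) (l 4))) (a (c (l 16795472) (l 16790792)) (a (c (l 16791696) (l 16787976)) (b (b (l 98482301159) (l 16797736)) (l 16789320))))))) (b (l 4) (a (b (l 4) (a (b (a (c (l 93650457879) (l 108682846167)) (l 4)) (c (a (l 16788752) (l 72175622439)) (a (l 16785912) (l 87744881383)))) (a (b (l 4) (b (l 4) (l 105998490871))) (l 4)))) (l 4)))), by decide +kernel⟩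

def k9_pm_123 : ∃ t, chk3 f_pm_123 t 30 13 1 = true :=
  ⟨(a (b (a (c (l 16857408) (l 16795680)) (a (c (l 16828248) (l 16821000)) (b (a (l 16796560) (l 16809992)) (l 16823048)))) (c (a (l 16830448) (l 16840240)) (a (l 16817384) (l 16809264)))) (b (a (b (a (b (c (l 16791096) (l 16787584)) (l 16808264)) (b (c (a (l 16797880) (l 82913038631)) (a (l 16795432) (l 93113589367))) (c (l 16789664) (l 16786560)))) (a (c (l 16800320) (l 16794840)) (c (l 16794976) (l 16790736)))) (b (a (a (b (b (l 4) (l 113514679719)) (c (l 83449913847) (l 82376169687))) (b (l 4) (b (l 4) (c (l 100092906503) (l 101166647015))))) (l 4)) (c (a (b (c (l 16799248) (l 16797856)) (l 16791480)) (b (a (l 90429234823) (b (l 4) (l 110830320839))) (a (l 16787608) (l 82376169239)))) (a (b (a (l 16786352) (l 16784488)) (l 16788072)) (b (a (b (l 106535354999) (l 16793888)) (b (l 4) (l 112977803607))) (a (l 16785080) (l 81302426055))))))) (a (b (c (l 16825696) (l 16819344)) (c (l 16811416) (l 16782584))) (b (c (a (l 16796544) (b (l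 16789584) (l 16792824))) (a (l 16792120) (b (l 16786672) (l 16789280)))) (a (l 16820864) (c (l 16797496) (l 16793032))))))), by decide +kernel⟩

def k10_pm_123 : ∃ t, chk3 f_pm_123 t 30 7 1 = true :=
  ⟨(b (b (b (c (a (l 16835216) (a (l 16796440) (l 16827208))) (a (l 16821712) (a (l 16808088) (l 16799848)))) (c (a (l 16840464) (a (l 16802576) (l 16811496))) (a (l 16827280) (a (l 16813376) (l 16804000))))) (a (c (l 16847840) (l 16836064)) (a (l 16825168) (c (l 16819232) (l 16811680))))) (a (b (c (l 16894776) (l 16928816)) (c (l 16892536) (l 16907888))) (b (b (l 16826848) (c (l 16832344) (l 16826968))) (a (l 16931312) (b (l 16861368) (l 16896344)))))), by decide +kernel⟩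

def k11_pm_123 : ∃ t, chk3 f_pm_123 t 62 6 1 = true :=
  ⟨(b (l 4) (a (b (a (a (a (b (l 4) (b (l 4) (b (l 114588414551) (l 82913035015)))) (b (l 4) (b (l 4) (b (l 4) (l 107072224023))))) (l 4)) (l 4)) (a (c (b (b (a (l 16796192) (b (l 106535353927) (l 81839292983))) (a (l 16788824) (l 16786224))) (l 16802536)) (b (b (a (l 16794160) (b (l 108145965911) (l 80765548599))) (l 16795608)) (l 16799288))) (a (b (a (b (b (l 4) (l 110293447479)) (c (l 16794760) (l 16793104))) (b (l 4) (b (l 104387868375) (l 16793560)))) (b (l 16795976) (l 16798584))) (b (b (l 4) (b (l 4) (a (l 92576708231) (l 116199023991)))) (b (b (c (l 81302419687) (l 79691805191)) (l 16794328)) (l 16796216)))))) (b (l 4) (b (l 4) (b (a (a (c (b (l 101166634647) (l 99019158887)) (b (a (a (l 108682825415) (l 4)) (l 4)) (l 99556030167))) (l 4)) (l 4)) (a (c (a (l 16792064) (b (l 111367186583) (l 84523643207))) (a (l 16793088) (b (l 113514671543) (l 82913030071)))) (a (a (c (l 106535341447) (l 107609083111)) (l 4)) (l 4)))))))), by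 decide +kernel⟩

def k12_pm_123 : ∃ t, chk3 f_pm_123 t 62 7 1 = true :=
  ⟨(b (b (a (c (b (a (l 16797832) (l 16813304)) (l 16821368)) (a (l 16819168) (a (l 16792368) (b (l 16788112) (l 16792352))))) (a (b (a (c (l 16798736) (l 16796440)) (b (c (l 16794760) (l 16782720)) (l 16796328))) (c (l 16812976) (l 16789088))) (b (c (a (b (a (l 65733163111) (a (l 90429220215) (l 100629764359))) (l 16794688)) (a (b (b (l 4) (l 111367180823)) (l 78081188679)) (b (l 4) (b (l 111904048951) (l 16786712))))) (a (b (b (b (l 112977796567) (l 100092897191)) (l 66806902807)) (l 16782712)) (a (b (c (l 94724182407) (l 95261053159)) (l 75396832263)) (b (l 4) (b (b (l 32447139239) (l 104924727367)) (l 16785768)))))) (a (b (l 16796176) (l 16798352)) (b (a (l 16794344) (l 16787888)) (l 16795880)))))) (b (a (c (a (l 16808304) (l 16802200)) (a (l 16801984) (l 16797152))) (a (c (l 16796552) (l 16792760)) (c (l 16806816) (l 16791112)))) (a (l 16806376) (c (a (l 16801400) (c (l 16796104) (l 16812560))) (a (l 16797000) (b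 (l 16790936) (l 16793008))))))) (b (b (c (l 16807056) (l 16797584)) (a (l 16834880) (l 16802536))) (b (a (l 16863984) (c (l 16844848) (l 16843560))) (a (c (l 16824176) (l 16818096)) (c (l 16852152) (a (l 16809064) (l 16823904))))))), by decide +kernel⟩

def k13_pm_123 : ∃ t, chk3 f_pm_123 t 63 6 1 = true :=
  ⟨(l 4), by decide +kernel⟩

def k14_pm_123 : ∃ t, chk3 f_pm_123 t 126 14 1 = true :=
  ⟨(b (a (b (a (a (a (b (l 4) (b (l 4) (l 92576699223))) (b (l 4) (b (l 4) (l 116735887815)))) (l 4)) (l 4)) (c (a (a (b (l 16787168) (l 16784256)) (b (b (l 109219696359) (l 16786432)) (l 16782896))) (a (b (b (l 4) (l 109219696199)) (l 16788072)) (b (l 4) (b (l 110293437639) (l 16785944))))) (a (b (a (l 16786152) (a (l 82913023591) (b (l 34594624775) (l 16780064)))) (l 16792808)) (a (b (b (l 4) (l 111367179671)) (l 16785856)) (b (l 4) (b (l 111904050343) (l 16785200))))))) (a (a (b (l 4) (b (l 4) (b (l 4) (c (l 111367179143) (l 113514662935))))) (l 4)) (l 4))) (a (b (c (a (l 16797344) (b (l 16788272)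 (l 16795600))) (a (c (l 16795984) (l 16795208)) (b (l 16787160) (l 16794184)))) (c (a (l 16790672) (l 16798544)) (a (l 16788272) (l 16786168)))) (b (c (a (a (b (c (l 63048795975) (l 76470570151)) (l 16783000)) (b (b (l 113514662455) (l 81839277927)) (l 16786848))) (a (b (b (l 4) (c (l 106535336871) (l 107609078615))) (b (c (l 85597374135) (l 85597372679)) (l 16780704))) (a (b (l 4) (b (l 117809624135) (l 16784832))) (b (l 4) (b (l 4) (l 96871659879)))))) (a (a (b (c (l 74859956823) (l 73249343351)) (l 16781952)) (b (b (b (l 118346494759) (l 110830305751)) (l 79154922855)) (l 16786024))) (a (a (b (b (l 4) (c (l 52848236503) (l 52311365527))) (l 16785144)) (b (l 4) (b (l 89355467207) (l 16779736)))) (a (b (l 4) (b (l 101703494423) (l 16779096))) (b (l 4) (b (l 4) (l 96334788839))))))) (c (a (b (l 16794728) (l 16796568)) (b (a (l 16782096) (l 16785920)) (l 6))) (a (b (l 16793512) (l 16795080)) (b (a (l 16786480) (l 16785288)) (l 6))))))), by decide +kernel⟩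

def k15_pm_123 : ∃ t, chk3 f_pm_123 t 126 15 1 = true :=
  ⟨(b (a (c (a (l 16817040) (b (l 16812760) (l 16793824))) (b (a (l 16791968) (a (l 16790080) (l 16809720))) (l 16793192))) (a (a (b (b (l 16787400) (l 16789160)) (l 16790744)) (l 6)) (l 6))) (b (b (c (l 16814696) (l 16781768)) (a (l 16816528) (l 16806104))) (a (c (l 16820368) (l 16828184)) (a (a (l 16825224) (l 6)) (l 6))))), by decide +kernel⟩

def k16_pm_123 : ∃ t, chk3 f_pm_123 t 127 7 1 = true :=
  ⟨(a (b (b (l 4) (b (a (a (a (b (l 4) (b (l 4) (c (l 169349230151) (l 173644196935)))) (l 4)) (l 4)) (l 4)) (a (a (a (b (b (c (l 87207982919) (l 85597369975)) (l 6)) (l 6)) (b (b (b (l 4) (l 6)) (l 6)) (l 6))) (b (b (l 4) (l 6)) (l 6))) (l 6)))) (l 6)) (b (l 4) (l 6))), by decide +kernel⟩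

theorem s17_pm_123 : ∃ t, chk3 f_pm_123 t 126 7 1 = true := ex3_b k14_pm_123 k15_pm_123

theorem s18_pm_123 : ∃ t, chk3 f_pm_123 t 63 7 1 = true := ex3_a s17_pm_123 k16_pm_123

theorem s19_pm_123 : ∃ t, chk3 f_pm_123 t 63 3 1 = true := ex3_b k13_pm_123 s18_pm_123

theorem s20_pm_123 : ∃ t, chk3 f_pm_123 t 62 3 1 = true := ex3_b k11_pm_123 k12_pm_123

theorem s21_pm_123 : ∃ t, chk3 f_pm_123 t 31 3 1 = true := ex3_a s20_pm_123 s19_pm_123

theorem s22_pm_123 : ∃ t, chk3 f_pm_123 t 30 6 1 = true := ex3_b k8_pm_123 k9_pm_123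

theorem s23_pm_123 : ∃ t, chk3 f_pm_123 t 30 3 1 = true := ex3_b s22_pm_123 k10_pm_123

theorem s24_pm_123 : ∃ t, chk3 f_pm_123 t 15 3 1 = true := ex3_a s23_pm_123 s21_pm_123

theorem s25_pm_123 : ∃ t, chk3 f_pm_123 t 15 1 1 = true := ex3_b k7_pm_123 s24_pm_123

theorem s26_pm_123 : ∃ t, chk3 f_pm_123 t 14 1 1 = true := ex3_b k5_pm_123 k6_pm_123

theorem s27_pm_123 : ∃ t, chk3 f_pm_123 t 7 1 1 = true := ex3_a s26_pm_123 s25_pm_123

theorem s28_pm_123 : ∃ t, chk3 f_pm_123 t 6 2 1 = true := ex3_a k2_pm_123 k3_pm_123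

theorem s29_pm_123 : ∃ t, chk3 f_pm_123 t 6 1 1 = true := ex3_b s28_pm_123 k4_pm_123

theorem s30_pm_123 : ∃ t, chk3 f_pm_123 t 3 1 1 = true := ex3_a s29_pm_123 s27_pm_123

theorem s31_pm_123 : ∃ t, chk3 f_pm_123 t 2 1 1 = true := ex3_b k0_pm_123 k1_pm_123

theorem s32_pm_123 : ∃ t, chk3 f_pm_123 t 1 1 1 = true := ex3_a s31_pm_123 s30_pm_123

theorem c_pm_123 : CertN 536870912 536870912 0 536870912 201326592 134217728 3 true true false .npn 1 2 3
    ndN0q1 ndN0q2 pcN3 cut_pm_123 Ext.none :=
  certN2 (fam := true) (s1 := true) (s2 := false) (a := 1) (b := 2) (c := 3) (cn := .npn) (n1 := ndN0q1) (n2 := ndN0q2) (pc := pcN3) (cut := cut_pm_123) (xt := Ext.none) (P1 := 536870912) (W1 := 536870912) (P2 := 0) (W2 := 536870912) (P3 := 201326592) (W3 := 134217728) (N0 := 3)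
    rfl (fun _ => rfl) s32_pm_123

noncomputable def cut_pm_202 : Cut := Cut.of [[⟨0, 1, 0, 67108864⟩, ⟨1, 0, 0, 67108864⟩, ⟨2, 1, 0, 67108864⟩], [⟨0, 1, 0, 16777216⟩, ⟨1, 0, 1, 67108864⟩, ⟨2, 1, 1, 67108864⟩]]

noncomputable def f_pm_202 : ℕ → ℕ → ℕ → ℕ → Bool := onCell 0 536870912 1073741824 536870912 201326592 134217728
    (rowN 3 1 true true false .pp 2 0 2 (qsf 0 536870912 0 536870912 2) ndN0q2 ndN0q0 pcN2 cut_pm_202 Ext.none)

def k0_pm_202 : ∃ t, chk3 f_pm_202 t 4 2 1 = true :=
  ⟨(b (l 1) (b (b (b (l 1) (a (b (l 1) (b (l 1) (c (a (l 16502112) (b (l 16462016) (l 16463768))) (b (l 16432256) (l 16439144))))) (a (b (l 1) (c (b (l 16466368) (b (l 16468736) (l 16491200))) (b (l 16460808) (l 16505592)))) (b (c (b (l 1) (l 16496200)) (l 16447744)) (c (b (l 16477992) (b (l 16480040) (l 16502248))) (b (l 16472248) (l 16537640))))))) (a (c (b (a (l 16470248) (l 16492536)) (a (l 16488760) (l 16488016))) (b (l 16504192) (l 16498472))) (c (b (a (l 16497688) (l 16507464)) (a (l 16491168) (l 16499016)))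 (b (a (l 16469800) (l 16500592)) (l 16528736))))) (b (a (b (c (a (l 16509016) (l 16505952)) (l 16494136)) (c (l 16549280) (l 16512280))) (b (c (a (l 16506864) (l 16512528)) (l 16520536)) (c (l 16546920) (l 16513424)))) (a (c (a (l 16608272) (l 16608992)) (l 16605176)) (c (b (l 16543512) (l 16693256)) (b (l 16528488) (l 16544808))))))), by decide +kernel⟩

def k1_pm_202 : ∃ t, chk3 f_pm_202 t 5 2 1 = true :=
  ⟨(b (a (l 1) (b (l 1) (b (l 1) (b (l 1) (b (l 1) (a (l 1) (c (b (l 16546624) (a (l 16527240) (l 16535464))) (a (l 16560880) (l 16558760))))))))) (b (b (b (a (b (l 1) (c (a (l 16506712) (b (l 16524664) (l 16526648))) (a (l 16479984) (l 16538816)))) (c (b (a (a (l 16539728) (c (l 16544720) (l 16541128))) (a (l 16561704) (l 16559312))) (a (c (l 16544208) (l 16540288)) (l 16568728))) (b (a (a (l 16527152) (l 16535400)) (a (l 16543648) (l 16551872))) (a (l 16534008) (l 16549944))))) (c (a (b (a (c (l 16513016) (l 16510056)) (l 16529512)) (b (a (l 16494152) (l 16511552)) (a (b (l 16495888)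 (l 16517856)) (b (l 16512984) (l 16534728))))) (b (a (l 16545872) (l 16571792)) (b (a (l 16527408) (l 16542360)) (b (a (l 16528560) (l 16543264)) (a (l 16550088) (l 16564576)))))) (a (b (a (b (l 16483096) (l 16485016)) (l 16521280)) (b (l 16516232) (b (l 16517592) (l 16560312)))) (b (a (l 16536880) (l 16552288)) (b (l 16567944) (b (l 16568816) (a (l 16540376) (l 16554928)))))))) (a (b (c (a (l 16521840) (l 16537528)) (a (l 16513792) (l 16528080))) (c (a (l 16511520) (l 16525432)) (a (l 16502160) (l 16514896)))) (b (c (a (l 16562248) (b (l 16544360) (l 16546920))) (a (l 16541760) (l 16555360))) (c (a (l 16537992) (l 16570816)) (a (l 16527128) (l 16539336)))))) (b (a (c (b (a (l 16522912) (l 16534792)) (a (l 16535328) (l 16544952))) (b (l 16559920) (l 16527768))) (c (b (a (l 16545432) (l 16555472)) (a (l 16553440) (l 16561400))) (b (a (l 16533704) (l 16544328)) (l 16587544)))) (a (c (b (l 16573816) (l 16700608)) (b (l 16538336) (l 16549664))) (c (a (l 16618336) (b (l 16567808) (l 16716328)))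 (b (l 16572952) (l 16558232))))))), by decide +kernel⟩

def k2_pm_202 : ∃ t, chk3 f_pm_202 t 2 3 1 = true :=
  ⟨(b (b (a (a (b (c (a (l 16874320) (l 16877032)) (l 16632528)) (c (a (l 17029584) (l 17035568)) (l 16658352))) (b (c (a (l 16879880) (l 16882888)) (l 16591984)) (c (l 17042464) (l 16606216)))) (b (a (c (a (l 16886216) (l 16889752)) (l 16629024)) (c (a (l 16851184) (b (l 16843208) (l 16943616))) (b (l 16563152) (l 16566656)))) (a (c (a (l 17049304) (l 17053096)) (l 16586376)) (c (a (l 17055464) (l 17056608)) (a (l 16576680) (l 16581368)))))) (a (a (c (b (l 17121480) (l 17166632)) (b (l 16765648) (l 16886240))) (c (b (l 17137456) (l 17190320)) (b (l 16761328) (l 16888104)))) (b (a (c (l 17149672) (l 16760216)) (c (a (l 17155624) (l 17157040)) (a (l 16760632) (l 16760944)))) (c (a (l 17206584) (l 17216744)) (a (l 16885824) (a (l 16884200) (l 16882416))))))) (b (a (a (c (b (l 17183104) (l 17180080)) (b (l 16961344) (l 17004344))) (c (b (l 17217040) (l 17225472)) (b (l 16974528) (l 17032384))))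 (b (c (a (l 17238720) (l 17254600)) (a (l 16974280) (b (l 16952296) (l 16992688)))) (c (a (l 17253488) (l 17275792)) (a (l 17037008) (l 17041032))))) (a (c (a (l 17151152) (l 17209232)) (a (b (l 17023216) (l 17025792)) (b (l 17064904) (l 17078344)))) (c (a (l 17249488) (l 17280680)) (a (l 17091088) (b (l 17086544) (l 17114568))))))), by decide +kernel⟩

def k3_pm_202 : ∃ t, chk3 f_pm_202 t 6 4 1 = true :=
  ⟨(a (b (l 1) (b (l 1) (b (b (a (l 1) (a (l 1) (c (l 16596488) (l 44056518359)))) (c (a (l 16557784) (c (l 16577160) (l 16574664))) (a (l 16532280) (l 16571112)))) (a (b (c (c (l 16540384) (l 16538744)) (l 16535888)) (c (b (l 16565368) (l 16568544)) (c (l 16583120) (l 16580096)))) (b (c (l 16576032) (l 16551872)) (c (c (l 16603920) (l 16601488)) (a (l 16593456) (l 16601232)))))))) (b (l 1) (b (b (a (l 1) (b (l 1) (c (a (c (l 16636776) (l 16632000)) (c (l 16650776) (l 16636256))) (a (l 16625112) (b (l 16633472) (l 16627352)))))) (a (c (a (b (l 1) (l 16619040)) (b (l 16637480) (c (l 16603768)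 (l 16600024)))) (b (a (l 1) (l 16607520)) (a (l 16589672) (l 16615616)))) (c (a (b (c (l 16622336) (l 16618368)) (l 16626800)) (c (l 16639672) (l 16636776))) (b (a (l 16633632) (l 16638976)) (l 16623568))))) (b (a (c (a (c (l 16597368) (l 16594520)) (l 16605296)) (a (l 16600928) (l 16595560))) (c (c (a (l 16608288) (l 16622000)) (l 16622264)) (a (l 16606440) (l 16619056)))) (a (b (c (l 16600512) (l 16591784)) (c (c (l 16627680) (l 16619856)) (a (l 16609896) (l 16621064)))) (b (c (c (l 16621368) (l 16598152)) (l 16615400)) (b (c (l 16623432) (l 16596120)) (c (l 16636056) (l 16618240))))))))), by decide +kernel⟩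

def k4_pm_202 : ∃ t, chk3 f_pm_202 t 6 10 1 = true :=
  ⟨(b (b (a (c (b (a (c (l 16572912) (l 16569536)) (b (l 16586416) (l 16587496))) (a (c (l 16575464) (l 16571736)) (c (l 16590264) (l 16586672)))) (b (a (a (l 16559976) (l 16567912)) (l 16600608)) (a (l 16565656) (l 16580792)))) (a (b (c (c (l 16626912) (l 16623536)) (c (l 16619952) (l 16616168))) (b (c (l 16605816) (l 16576968)) (c (l 16606408) (l 16577200)))) (c (a (b (l 16621128) (l 16621968)) (b (l 16632536) (l 16633144))) (b (a (l 16613160) (l 16623968)) (l 16639488))))) (b (c (a (a (c (l 16578176) (l 16553176)) (c (l 16592512) (l 16588624))) (a (c (l 16609016) (l 16604976)) (c (l 16630864) (l 16626192)))) (a (a (l 16567512) (l 16582192)) (a (l 16619328) (l 16639640)))) (a (b (c (a (l 16556808) (l 16570816)) (a (l 16547720) (l 16562016))) (a (c (b (l 16557464) (l 16599560)) (b (l 16548248) (l 16569336))) (c (b (l 16571240) (l 16613152)) (b (l 16562336) (l 16604232))))) (a (b (c (l 16607680) (l 16577664)) (c (b (l 16607832) (c (l 16609680)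 (l 16605472))) (b (l 16577712) (l 16619424)))) (c (b (l 16628952) (b (l 16629008) (c (l 16631208) (l 16626256)))) (b (l 16618600) (b (l 16618496) (l 16639168)))))))) (a (b (c (a (b (l 16557856) (l 16559712)) (c (l 16592728) (l 16588744))) (a (l 16568848) (l 16602856))) (c (a (l 16582320) (l 16604048)) (a (l 16551512) (l 16584280)))) (a (c (b (b (l 16606904) (l 16607328)) (a (l 16601928) (l 16610616))) (b (b (l 16576632) (l 16576880)) (l 16618128))) (c (b (c (l 16649872) (l 16623944)) (c (l 16629560) (l 16624488))) (b (a (l 16610664) (l 16620744)) (l 16636848)))))), by decide +kernel⟩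

def k5_pm_202 : ∃ t, chk3 f_pm_202 t 6 11 1 = true :=
  ⟨(b (a (c (b (a (l 16565248) (l 16595776)) (a (l 16569176) (l 16576832))) (b (a (l 16554984) (l 16565344)) (a (l 16558400) (l 16567168)))) (c (b (a (c (l 16587688) (l 16583808)) (a (l 16621272) (l 16631784))) (a (l 16626800) (c (l 16629792) (l 16599928)))) (b (a (l 16597552) (l 16636152)) (a (l 16596840) (l 16612288))))) (a (b (c (a (l 16573192) (l 16582232)) (a (l 16561744) (l 16567608))) (c (a (l 16723992) (l 16731688)) (a (l 16563248) (l 16565624)))) (b (c (a (l 16617448) (c (l 16780488) (l 16595008))) (a (l 16572768) (l 16607552))) (c (a (c (l 16894352) (l 16583160)) (c (l 16900648) (l 16601160))) (a (l 16567640) (l 16580360)))))), by decide +kernel⟩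

def k6_pm_202 : ∃ t, chk3 f_pm_202 t 14 8 1 = true :=
  ⟨(c (c (b (l 1) (a (b (l 1) (b (l 1) (a (l 1) (a (l 16673512) (l 16675272))))) (b (l 6) (b (l 6) (a (l 16688352) (l 16691504)))))) (b (l 1) (b (a (l 1) (l 6)) (b (a (l 1) (l 6)) (a (a (l 1) (a (l 16669528) (l 16671712))) (a (l 16685424) (l 16699928))))))) (c (c (b (l 1) (b (a (l 1) (l 6)) (b (a (l 1) (l 6)) (a (a (l 1) (a (l 16666616) (l 16669096))) (a (l 16672792) (l 16698416)))))) (b (l 1) (b (a (l 1) (l 6)) (b (a (l 1) (l 6)) (a (a (l 1) (l 16666080)) (a (l 16671376) (l 16697416))))))) (a (a (l 1) (b (l 1) (b (l 1) (b (l 1) (a (l 16661888) (l 16664856)))))) (a (b (l 1) (b (l 1) (b (l 6) (l 16669288)))) (b (l 1) (b (l 6) (b (l 6) (l 16695936)))))))), by decide +kernel⟩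

def k7_pm_202 : ∃ t, chk3 f_pm_202 t 14 9 1 = true :=
  ⟨(b (a (b (b (c (a (c (a (l 16656720) (l 16658528)) (l 16653688)) (c (l 16661280) (l 16658104))) (a (b (l 16650896) (l 16644968)) (l 16674464))) (c (a (l 16663280) (l 16662160)) (a (l 16656888) (l 16641464)))) (c (a (c (l 16643568) (l 16641328)) (c (l 16647504) (l 16645928))) (a (l 16638144) (l 16644864)))) (b (b (c (a (c (l 16685800) (l 16683416)) (c (l 16689024) (l 16666488))) (a (l 16679952) (l 16685184))) (c (a (l 16666184) (l 16669248)) (a (l 16646936) (l 16675336)))) (c (a (c (l 16650320) (l 16659944)) (c (b (l 16676048) (l 16654960)) (l 16674440))) (a (l 16658400) (l 16672072))))) (b (a (c (c (a (l 16635608) (l 16638672)) (b (l 16640080) (l 16641592))) (a (l 16631576) (l 16644032))) (c (a (c (l 16662768) (l 16639400)) (c (b (l 16655376) (l 16656128)) (l 16673720))) (a (l 16656528) (l 16669176)))) (b (a (c (c (l 16646584) (l 16622608)) (l 16638784)) (c (c (a (l 16644456) (l 16657344)) (l 16668144)) (a (l 16635248) (l 16647088))))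 (c (a (c (a (l 16643416) (l 16655376)) (l 16666568)) (a (c (l 16667424) (l 16663032)) (c (l 16679744) (l 16674944)))) (a (c (l 16662560) (l 16658392)) (a (l 16656200) (l 16688520))))))), by decide +kernel⟩

def k8_pm_202 : ∃ t, chk3 f_pm_202 t 15 8 1 = true :=
  ⟨(b (l 6) (a (b (l 6) (b (l 6) (c (a (c (l 16694280) (l 16703584)) (c (l 16706272) (l 16702912))) (a (l 16691352) (l 16706944))))) (a (b (l 6) (b (l 6) (b (l 6) (b (l 6) (c (a (l 16704384) (l 16723368)) (l 16726272)))))) (b (l 6) (b (l 6) (b (l 6) (b (l 6) (a (c (c (l 16722480) (l 16720328)) (l 16717016)) (c (c (c (l 16737064) (l 16730576)) (c (l 16729328) (l 16728064))) (c (l 16726160) (l 16723576))))))))))), by decide +kernel⟩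

def k9_pm_202 : ∃ t, chk3 f_pm_202 t 30 18 1 = true :=
  ⟨(c (b (a (c (b (l 16694568) (l 16692856)) (b (l 16694024) (l 16691736))) (c (b (l 16700960) (l 16698672)) (a (l 16694224) (l 16702216)))) (a (c (b (l 16691632) (l 16669960)) (l 16689136)) (c (b (l 16696872) (l 16695584)) (c (l 16704640) (l 16703304))))) (b (a (b (l 16693048) (l 16689912)) (b (l 16702992) (l 16704616))) (a (c (l 16687008) (l 16684792)) (c (l 16701272) (l 16698496))))), by decide +kernel⟩

def k10_pm_202 : ∃ t, chk3 f_pm_202 t 31 18 1 = true :=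
  ⟨(a (a (c (b (c (c (l 16712704) (l 16711720)) (l 16710224)) (c (b (l 16698240) (l 16696520)) (l 16694208))) (b (c (l 16708184) (l 16695600)) (c (l 16691072) (l 16687872)))) (c (c (b (b (l 16711672) (l 16708688)) (c (l 16716408) (l 16704256))) (b (b (l 16709592) (l 16706128)) (b (l 16703096) (l 16700520)))) (b (c (l 16715896) (l 16702992)) (c (l 16698296) (l 16694808))))) (c (a (b (c (b (c (l 16720800) (l 16719600)) (c (l 16717656) (l 16716224))) (b (l 16717776) (l 16714056))) (c (c (b (l 16715000) (l 16712848)) (b (l 16713312) (l 16710888))) (b (l 16710768) (l 16707928)))) (b (a (b (c (l 16731848) (l 16723936)) (c (l 16723144) (l 16720024))) (c (c (b (a (l 16730512) (l 16732672)) (c (l 16728512) (l 16727696))) (b (l 16730184) (l 16726472))) (b (c (l 16728760) (l 16727328)) (c (l 16724832) (l 16723184))))) (a (c (c (b (l 16721056) (l 16718688)) (l 16717848)) (c (l 16715912) (l 16713960))) (c (c (b (c (l 16725568) (l 16724632)) (c (l 16723120) (l 16722056))) (b (l 16723232) (l 16720456)))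 (c (b (l 16721344) (l 16718304)) (b (l 16719448) (l 16716144))))))) (c (a (b (b (l 16715312) (l 16711128)) (b (l 16707328) (l 16703928))) (a (b (b (l 16721216) (l 16716848)) (b (l 16712872) (l 16709288))) (b (b (l 16725160) (l 16720680)) (b (l 16716576) (l 16712872))))) (a (b (b (l 16712808) (l 16708136)) (b (l 16703816) (l 16699864))) (a (b (l 16715976) (l 16707000)) (b (b (l 16722232) (l 16717288)) (b (l 16712688) (l 16708440)))))))), by decide +kernel⟩

def k11_pm_202 : ∃ t, chk3 f_pm_202 t 15 38 1 = true :=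
  ⟨(a (c (a (c (c (l 16686296) (l 16689848)) (l 16687280)) (c (b (c (l 16685216) (l 16683424)) (l 16694328)) (b (l 16680704) (l 16679576)))) (a (c (l 16662816) (l 16659232)) (c (l 16694392) (l 16692944)))) (c (a (a (c (b (l 16695312) (l 16694368)) (l 16711392)) (c (b (c (l 16703744) (l 16701616)) (l 16711912)) (b (l 16698400) (l 16696560)))) (c (a (b (c (l 16716448) (l 16708952)) (c (l 16709776) (l 16707240))) (b (c (a (l 16722056) (b (l 16721040) (c (l 16720760) (l 16719520)))) (a (l 16714464) (b (l 16718696) (l 16717648)))) (c (a (l 16715144) (a (l 16717840) (b (l 16720096) (l 16719216)))) (a (l 16712528) (c (l 16716728) (l 16715384)))))) (a (b (l 16716024) (l 16713896)) (b (c (a (l 16712096) (b (l 16716336) (l 16715152))) (a (l 16709720) (l 16713272))) (c (a (l 16709888) (c (l 16714040) (l 16712688))) (a (l 16707232) (l 16710648))))))) (a (c (b (l 16711624) (l 16688336)) (b (l 16686392) (l 16683456))) (c (a (b (l 16700944) (l 16698240)) (a (b (l 16706120) (l 16703216)) (b (c (l 16710816)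 (l 16708336)) (c (l 16707920) (l 16705168))))) (a (b (l 16696280) (l 16692992)) (b (b (l 16703848) (l 16707280)) (c (l 16700776) (l 16698008)))))))), by decide +kernel⟩

def k12_pm_202 : ∃ t, chk3 f_pm_202 t 30 39 1 = true :=
  ⟨(c (b (c (a (l 16670488) (l 16704760)) (a (l 16666008) (l 16678856))) (a (c (l 16694928) (l 16687088)) (c (c (l 16706424) (l 16703632)) (b (l 16678688) (l 16678672))))) (b (a (l 16659120) (l 16692288)) (a (c (l 16681784) (l 16676400)) (c (l 16693704) (l 16687928))))), by decide +kernel⟩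

def k13_pm_202 : ∃ t, chk3 f_pm_202 t 31 39 1 = true :=
  ⟨(a (b (c (a (c (l 16693840) (l 16688584)) (c (l 16711064) (l 16695112))) (c (l 16707392) (l 16680904))) (c (c (a (b (l 16693824) (l 16693936)) (c (l 16712096) (l 16719560))) (a (l 16708720) (b (l 16694368) (l 16694000)))) (c (b (l 16685304) (l 16705648)) (b (l 16679296) (l 16678328))))) (b (c (c (a (c (l 16708744) (l 16705928)) (c (a (l 16719104) (c (b (l 16718320) (a (l 16716912) (l 16718608))) (b (l 16716888) (l 16716264)))) (a (l 16710976) (c (b (l 16715456) (l 16714760)) (l 16713608))))) (a (c (l 16703088) (l 16700232)) (c (a (l 16708064) (c (l 16712128) (l 16710640))) (a (l 16705128) (l 16708408))))) (c (a (l 16695912) (a (l 16700688) (b (l 16704512) (l 16708552)))) (a (l 16690080) (c (l 16697760) (l 16694712))))) (c (c (a (c (b (l 16708344) (l 16708216)) (b (l 16705304) (l 16705024))) (a (c (b (l 16713272) (l 16718240)) (b (l 16710168) (l 16709744))) (a (c (b (l 16715744) (c (l 16716112) (l 16714480))) (b (l 16712608) (l 16712024)))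 (c (b (c (l 16718176) (l 16716600)) (c (b (l 16717816) (l 16717384)) (b (l 16716192) (l 16715728)))) (b (c (l 16715024) (l 16713440)) (c (l 16716912) (l 16712632))))))) (a (b (l 16700704) (c (l 16701808) (l 16698576))) (b (a (l 16710712) (c (l 16710256) (l 16707064))) (c (a (l 16706472) (b (l 16709712) (l 16709216))) (a (l 16703176) (c (l 16706920) (l 16705248))))))) (c (a (b (l 16694496) (l 16693672)) (b (c (l 16702288) (l 16699064)) (a (l 16698176) (b (l 16701408) (l 16705984))))) (a (b (l 16688192) (l 16687048)) (b (l 16704664) (c (l 16694496) (l 16691072)))))))), by decide +kernel⟩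

def k14_pm_202 : ∃ t, chk3 f_pm_202 t 14 40 1 = true :=
  ⟨(a (c (b (c (l 16667600) (l 16668264)) (c (l 16673344) (l 16647360))) (b (a (l 16634696) (l 16645392)) (a (l 16613216) (l 16644640)))) (c (b (a (c (l 16648160) (l 16643072)) (c (l 16680984) (l 16654536))) (a (c (l 16648368) (l 16642808)) (c (l 16660024) (l 16654064)))) (b (a (l 16656152) (l 16667080)) (a (l 16655152) (l 16665856))))), by decide +kernel⟩

def k15_pm_202 : ∃ t, chk3 f_pm_202 t 30 40 1 = true :=
  ⟨(c (b (a (c (l 16693080) (l 16687208)) (c (c (l 16706872) (l 16703768)) (c (l 16700648) (l 16697504)))) (a (c (l 16692888) (l 16665560)) (c (c (l 16706608) (l 16703264)) (l 16698200)))) (b (a (c (l 16660272) (l 16654208)) (c (l 16692744) (l 16686320))) (a (c (l 16659088) (l 16652496)) (c (l 16691352) (l 16684392))))), by decide +kernel⟩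

def k16_pm_202 : ∃ t, chk3 f_pm_202 t 31 80 1 = true :=
  ⟨(c (a (c (a (b (l 16693904) (l 16693592)) (c (l 16711928) (l 16719096))) (a (l 16708064) (b (l 16693568) (l 16692920)))) (c (a (c (b (l 16707944) (l 16707192)) (b (l 16704616) (l 16703744))) (a (c (b (l 16717576) (l 16711216)) (b (l 16708952) (l 16707736))) (a (c (b (c (l 16715208) (l 16713520)) (c (l 16714072) (l 16712328))) (b (l 16710968) (l 16709696))) (c (b (c (b (l 16716872) (l 16716280)) (b (l 16715184) (l 16714576))) (b (c (l 16715712) (l 16713976)) (c (l 16715152) (l 16713384)))) (b (c (l 16713152) (l 16711440)) (c (l 16711888) (l 16710120))))))) (a (c (b (l 16701256) (l 16700280)) (b (l 16697880) (l 16696776))) (c (b (a (l 16705552) (c (l 16709064) (l 16707344))) (a (l 16704224) (c (l 16707696) (l 16705920)))) (b (a (l 16702128) (l 16709992)) (a (l 16700680) (l 16703248))))))) (a (c (b (l 16704960) (l 16704096)) (a (l 16673800) (l 16700448))) (c (a (b (l 16692760) (l 16691480)) (b (c (a (l 16698664) (l 16701264)) (l 16703016))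 (c (a (l 16697112) (l 16699648)) (l 16694768)))) (a (b (l 16685848) (l 16684312)) (b (c (l 16692936) (l 16689376)) (c (l 16691128) (l 16687448))))))), by decide +kernel⟩

def k17_pm_202 : ∃ t, chk3 f_pm_202 t 31 81 1 = true :=
  ⟨(c (a (c (a (l 16708640) (c (l 16721256) (l 16696744))) (a (l 16685920) (b (l 16692096) (l 16691016)))) (c (b (a (c (l 16706232) (l 16702680)) (a (c (l 16710144) (l 16706552)) (a (c (c (l 16712992) (l 16711200)) (l 16708488)) (c (b (c (l 16714600) (l 16712808)) (c (l 14) (l 16712240))) (c (b (l 16711008) (l 16710416)) (l 16708864)))))) (a (c (l 16705240) (l 16701584)) (a (c (l 16709112) (l 16705408)) (c (c (l 14) (a (l 16710112) (b (l 16711688) (l 16711144)))) (a (l 16707320) (c (b (l 16709832) (l 16709264)) (l 16707648))))))) (a (c (b (l 16699096) (l 16697896)) (b (l 16695488) (l 16694184))) (c (b (a (l 16702936) (c (l 16709016) (l 16704568))) (a (l 16701680) (b (l 16704536) (l 16709144)))) (b (a (l 16699280) (l 16707048)) (a (l 16697920) (c (l 16701352) (l 16699448))))))))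 (a (c (b (l 16703144) (l 16702056)) (b (l 16674984) (l 16673648))) (c (a (b (l 16690024) (l 16688544)) (b (c (a (l 16695600) (l 16698096)) (l 16693120)) (c (a (l 16694128) (l 16696584)) (l 16702000)))) (a (b (l 16682624) (l 16680920)) (b (c (l 16689360) (l 16685568)) (c (l 16687640) (l 16683728))))))), by decide +kernel⟩

def k18_pm_202 : ∃ t, chk3 f_pm_202 t 7 82 1 = true :=
  ⟨(a (a (c (c (l 16674080) (l 16647688)) (a (l 16633968) (l 16644184))) (c (a (c (l 16648840) (l 16642848)) (c (l 16660320) (l 16653912))) (a (l 16654480) (l 16685936)))) (a (c (a (c (l 16693008) (l 16686184)) (c (a (l 16680864) (l 16707432)) (b (l 16676808) (l 16676200)))) (a (c (l 16679216) (l 16672104)) (c (b (l 16669576) (l 16668752)) (b (l 16662216) (l 16661152))))) (c (a (b (c (a (l 16692208) (l 16697328)) (a (l 16684872) (l 16689856))) (c (a (l 16691344) (l 16706888)) (a (l 16683808) (l 16688728)))) (c (a (c (b (l 16704288) (l 16703368)) (b (l 16700528) (l 16699504))) (a (c (c (l 14) (b (l 16707160) (l 16706184)))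 (b (l 16704304) (l 16703240))) (c (b (c (l 14) (a (l 16709064) (b (l 16710608) (l 14)))) (l 14)) (b (b (c (l 16708072) (l 16706160)) (c (l 16710144) (l 16705584))) (c (a (l 16706096) (b (l 16707616) (l 16707088))) (b (l 16705024) (l 16704472))))))) (a (b (c (l 16696728) (l 16692904)) (c (l 16695600) (l 16691664))) (a (c (b (l 16700464) (l 16699296)) (b (l 16696592) (l 16695312))) (a (c (b (l 16702328) (l 16701144)) (b (l 16698440) (l 16697136))) (c (b (c (l 16704544) (l 16702600)) (b (l 16702672) (l 16707320))) (b (l 16699664) (c (l 16699360) (l 16697336))))))))) (a (c (b (l 16700800) (l 16699512)) (b (l 16672168) (l 16670656))) (c (a (b (l 16687104) (l 16685696)) (a (b (l 16690720) (l 16689272)) (b (c (l 16695112) (l 16691144)) (c (l 16698936) (l 16689608))))) (a (b (l 16679248) (l 16677616)) (b (c (l 16685952) (l 16681928)) (c (l 16684320) (l 16680176))))))))), by decide +kernel⟩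

def k19_pm_202 : ∃ t, chk3 f_pm_202 t 14 83 1 = true :=
  ⟨(a (c (b (c (l 16632472) (l 16626800)) (b (c (l 16632528) (l 16626768)) (c (l 16674264) (l 16668464)))) (b (l 16638800) (b (l 16638584) (c (l 16662376) (l 16656008))))) (c (b (c (l 16686312) (l 16669328)) (b (c (l 16686336) (l 16669224)) (c (a (l 16669864) (l 16681272)) (a (l 16663416) (l 16674360))))) (c (a (a (c (b (l 16635280) (b (l 16635104) (l 16634808))) (b (l 16632032) (b (l 16631784) (l 16631456)))) (b (l 16638880) (b (l 16638648) (l 16638336)))) (b (l 16646856) (b (l 16646592) (l 16667248)))) (a (a (b (l 16627048) (b (l 16626688) (l 16626304))) (b (l 16632088) (b (l 16631704) (l 16631312)))) (b (l 16639768) (b (l 16639344) (l 16659912))))))), by decide +kernel⟩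

def k20_pm_202 : ∃ t, chk3 f_pm_202 t 30 83 1 = true :=
  ⟨(c (c (b (a (l 16672072) (l 16703936)) (b (a (l 16671960) (l 16703376)) (a (a (l 16668968) (l 16695312)) (a (l 16700344) (c (l 16707280) (l 16703416)))))) (b (a (l 16664936) (l 16675456)) (b (a (l 16664680) (l 16674768)) (a (l 16690504) (a (l 16692712) (a (l 16696344) (l 16698760))))))) (b (a (l 16674880) (c (l 16667800) (l 16659976))) (b (a (l 16674400) (c (l 16666968) (l 16659000))) (a (c (l 16688216) (l 16690968)) (a (c (l 16684912) (l 16676936)) (c (l 16689592) (l 16681456))))))), by decide +kernel⟩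

def k21_pm_202 : ∃ t, chk3 f_pm_202 t 31 166 1 = true :=
  ⟨(c (a (c (a (l 16690536) (c (l 16697488) (l 16693584))) (a (l 16682800) (l 16708632))) (c (c (a (b (l 16702688) (l 16702256)) (l 14)) (a (b (l 16698744) (l 16698256)) (a (b (l 16702464) (l 16701968)) (a (b (l 16704328) (l 16709064)) (b (c (l 16709192) (l 16704552)) (c (l 14) (c (l 16704536) (l 16703512)))))))) (a (c (b (l 16694768) (l 16694224)) (l 16690496)) (c (a (b (l 16698440) (l 16697888)) (b (c (l 16701904) (l 16699864)) (c (a (l 16700744) (l 16701960)) (l 16699288)))) (a (l 16699344) (b (l 16696784) (c (l 16697208) (l 16695120)))))))) (a (c (a (l 16674912) (l 16679640)) (a (l 16666880) (l 16671464))) (c (a (c (l 16686416) (l 16682296)) (c (b (l 16696704) (a (l 16689608) (l 16691976))) (b (l 16687312) (l 16686584)))) (a (l 16676048) (a (l 16679480) (b (l 16682144) (l 16681328))))))), by decide +kernel⟩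

def k22_pm_202 : ∃ t, chk3 f_pm_202 t 62 167 2 = true :=
  ⟨(a (c (a (b (l 16688656) (c (l 16711056) (l 16707136))) (b (l 16691152) (c (l 16713576) (l 16709608)))) (b (l 16682024) (b (b (b (l 16681632) (l 16702552)) (l 16681464)) (l 16681256)))) (b (c (c (l 16696872) (l 16692896)) (l 16697344)) (b (b (c (b (l 16694544) (c (l 16706984) (l 16702976))) (b (l 16686472) (c (l 16709416) (l 16705336)))) (c (l 16694392) (l 16686296))) (c (l 16694224) (l 16686080))))), by decide +kernel⟩

def k23_pm_202 : ∃ t, chk3 f_pm_202 t 63 167 2 = true :=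
  ⟨(b (c (c (l 14) (a (b (l 16697880) (l 16697656)) (b (a (l 16701584) (c (l 14) (l 16703016))) (a (l 16701352) (c (l 14) (b (l 16702816) (l 16707936))))))) (b (a (l 16691760) (c (a (l 16697456) (c (l 16700936) (l 16698848))) (a (l 16693296) (l 16695696)))) (a (c (l 16693560) (l 16689424)) (c (a (l 16697200) (a (l 16699024) (b (l 16700288) (a (l 16699848) (l 16703072))))) (a (l 16693016) (c (l 16701704) (l 16694344))))))) (c (a (c (l 14) (b (b (b (l 16697480) (b (l 16697432) (l 16707888))) (l 16697320)) (l 16697136))) (c (l 14) (c (l 14) (a (b (b (b (l 16700136) (b (l 16700088) (a (l 16699448) (l 16700672)))) (l 16699976)) (l 16699784)) (b (b (b (l 16702592) (b (l 16705168) (b (b (l 16702520) (a (l 16701896) (a (l 16702816) (c (l 14) (a (l 16702752) (l 16705680)))))) (l 16702504)))) (l 16702432)) (l 16702240)))))) (a (b (b (b (l 16691296) (b (l 16701728) (c (l 16693288) (l 16689128)))) (l 16691120)) (l 16690904)) (a (c (b (b (b (l 16697008) (b (l 16696960) (c (l 16708456) (l 16695872)))) (l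 16696832)) (l 16696632)) (b (b (b (l 16692808) (b (l 16692752) (l 16703200))) (l 16692616)) (l 16692392))) (c (b (b (b (c (l 16700496) (l 16698384)) (b (c (l 16700440) (l 16698328)) (b (a (b (l 16698752) (l 16698744)) (b (l 16702592) (c (c (l 16701544) (l 16700488)) (l 16698896)))) (l 16699336)))) (l 16704504)) (c (l 16700120) (l 16697992))) (b (b (b (l 16695200) (b (l 16695144) (b (b (l 16695112) (c (l 16696168) (l 16694040))) (l 16695088)))) (l 16695008)) (l 16694776))))))), by decide +kernel⟩

def k24_pm_202 : ∃ t, chk3 f_pm_202 t 31 167 3 = true :=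
  ⟨(b (a (c (a (l 16673992) (l 16678680)) (a (l 16665800) (l 16670344))) (c (a (c (l 16695944) (l 16681264)) (c (b (l 16690288) (a (l 16688784) (l 16691144))) (b (l 16686032) (l 16696168)))) (a (l 16685368) (b (l 16679568) (a (l 16678040) (l 16680312)))))) (a (b (b (c (b (l 16675912) (b (l 16675856) (l 16696792))) (b (l 16667600) (b (l 16667536) (l 16667488)))) (c (l 16675712) (l 16667368))) (c (l 16675464) (l 16667080))) (c (a (b (b (b (l 16682920) (b (l 16682864) (c (l 16684936) (l 16680696)))) (l 16682712)) (l 16682456)) (b (b (b (c (l 16689744) (l 16685440)) (b (c (l 16689680) (l 16685376)) (b (b (c (l 16689656) (l 16685344)) (a (l 16686320) (c (l 16690816) (l 16686488)))) (c (l 16689632) (l 16685320))))) (c (l 16689536) (l 16685216))) (c (l 16689288) (l 16684944)))) (b (a (b (b (l 16674384) (b (l 16674312) (l 16674264))) (l 16674144)) (b (b (l 16678912) (b (l 16678840) (c (a (l 16679840) (l 16682120)) (l 16676592)))) (l 16678664))) (a (l 16673840) (l 16678360)))))), by decide +kernel⟩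

def k25_pm_202 : ∃ t, chk3 f_pm_202 t 14 21 1 = true :=
  ⟨(a (c (b (c (b (l 16631688) (l 16631872)) (b (l 16625744) (l 16625736))) (c (a (l 16625304) (l 16636008)) (l 16666320))) (a (b (l 16630792) (l 16609568)) (b (l 16640856) (l 16639928)))) (b (c (c (a (l 16668152) (l 16679144)) (a (l 16640528) (l 16672000))) (a (b (l 16631304) (l 16630672)) (c (l 16664616) (l 16656976)))) (c (c (a (l 16646232) (l 16656168)) (a (l 16639192) (l 16648592))) (a (l 16648896) (b (l 16638272) (l 16636304)))))), by decide +kernel⟩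

def k26_pm_202 : ∃ t, chk3 f_pm_202 t 30 21 1 = true :=
  ⟨(b (c (a (c (b (l 16670408) (l 16669040)) (b (l 16662880) (l 16661232))) (c (b (l 16680512) (l 16678992)) (b (l 16672600) (l 16670760)))) (a (c (l 16684784) (l 16666256)) (c (b (l 16664504) (l 16662312)) (b (l 16656224) (l 16653656))))) (c (c (a (l 16687112) (b (l 16677528) (l 16676096))) (a (l 16678992) (b (l 16668992) (l 16667256)))) (a (c (l 16649624) (l 16640928)) (c (b (l 16660216) (l 16658160)) (b (l 16651192) (l 16648792)))))), by decide +kernel⟩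

def k27_pm_202 : ∃ t, chk3 f_pm_202 t 31 42 1 = true :=
  ⟨(c (a (c (c (a (l 16699048) (l 14)) (b (l 16698952) (l 16697280))) (b (a (l 16679840) (l 16684664)) (a (l 16677912) (l 16682680)))) (a (c (c (l 14) (b (l 16701128) (l 16694176))) (b (c (l 16691632) (l 16687328)) (c (l 16689712) (l 16685200)))) (c (b (c (l 14) (c (l 14) (a (l 16698520) (b (b (l 16701856) (l 16701368)) (l 14))))) (l 14)) (b (c (a (b (l 16695920) (l 16694896)) (c (a (l 16698192) (b (l 16700032) (l 16699032))) (b (l 16697264) (l 16696200)))) (a (l 16690920) (b (c (l 16695088) (l 16692904)) (c (l 16693976) (l 16691736))))) (c (a (c (l 16694472) (l 16692192)) (c (b (a (l 16696864) (l 16698072)) (l 14)) (b (l 16695192) (a (l 16693624) (l 16694824))))) (a (l 16688760) (c (b (l 16692904) (l 16691880)) (b (l 16690608) (l 16689528))))))))) (a (c (b (a (l 16671488) (l 16676144)) (a (l 16669176) (l 16673760))) (b (l 16686184) (l 16662448))) (a (c (b (c (l 16682992) (l 16678608)) (c (l 16680648) (l 16676048))) (b (l 16671952) (l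 16669056))) (c (b (c (a (l 16686520) (b (l 16689608) (l 16688352))) (b (l 16684024) (l 16682656))) (c (a (l 16684136) (b (l 16687144) (l 16685976))) (b (l 16681344) (l 16680064)))) (b (c (a (l 16677592) (l 16679864)) (l 16674176)) (c (a (l 16674752) (l 16676984)) (l 16671072))))))), by decide +kernel⟩

def k28_pm_202 : ∃ t, chk3 f_pm_202 t 31 43 1 = true :=
  ⟨(c (a (a (c (b (l 16684976) (l 16683584)) (b (l 16676088) (l 16674352))) (c (l 14) (b (l 16680832) (l 16679096)))) (c (l 14) (a (b (c (l 16687944) (l 16683224)) (c (l 16686320) (l 16681400))) (a (b (c (c (l 14) (l 16690368)) (l 16686768)) (c (l 14) (l 16684944))) (b (c (c (l 14) (b (a (l 16692704) (l 16693904)) (l 14))) (c (b (l 16690904) (l 16692592)) (b (l 16688496) (l 16687504)))) (c (l 14) (c (b (a (l 16688496) (l 16689680)) (l 14)) (b (l 16686560) (l 16685672))))))))) (a (c (b (a (l 16666984) (l 16671512)) (l 16682856)) (b (l 16659816) (l 16657296))) (a (c (b (c (l 16678456) (l 16673640)) (c (l 16676416) (l 16671384))) (b (l 16666320)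 (l 16663720))) (a (c (b (c (l 16681920) (l 16677024)) (c (l 16679872) (l 16674744))) (b (l 16669584) (l 16666960))) (c (b (b (c (l 16684856) (l 16679960)) (c (l 16689024) (l 16678768))) (c (a (l 16681608) (b (l 16683328) (l 16682344))) (b (l 16677624) (l 16676520)))) (b (c (l 16674280) (l 16669232)) (c (l 16671760) (l 16666464)))))))), by decide +kernel⟩

def k29_pm_202 : ∃ t, chk3 f_pm_202 t 14 22 1 = true :=
  ⟨(c (b (a (c (l 16649568) (l 16643280)) (c (a (l 16643296) (l 16653216)) (a (l 16636056) (l 16645312)))) (a (c (l 16652640) (l 16618600)) (c (a (l 16671992) (l 16686240)) (a (l 16632424) (l 16641856))))) (b (a (c (l 16636440) (l 16629024)) (a (l 16645288) (l 16664144))) (a (a (l 16603824) (l 16612032)) (a (l 16620256) (l 16649592))))), by decide +kernel⟩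

def k30_pm_202 : ∃ t, chk3 f_pm_202 t 30 22 1 = true :=
  ⟨(b (c (c (a (l 16684272) (b (l 16674680) (l 16673336))) (a (l 16654728) (b (l 16665560) (l 16663920)))) (a (c (l 16645808) (l 16636520)) (c (b (l 16656144) (l 16654200)) (l 16665864)))) (c (c (a (l 16659680) (a (l 16692952) (l 16680552))) (a (l 16651496) (b (l 16662416) (l 16661008)))) (a (c (l 16642056) (l 16632200)) (c (l 16672112) (l 16640600))))), by decide +kernel⟩

def k31_pm_202 : ∃ t, chk3 f_pm_202 t 31 22 1 = true :=
  ⟨(c (a (a (b (c (b (l 16682256) (l 16681056)) (b (l 16672688) (l 16671144))) (c (c (l 16679424) (l 16676640)) (l 16689768))) (c (l 14) (b (b (l 16677472) (l 16676000)) (l 14)))) (b (c (l 14) (c (l 14) (b (a (l 16679712) (a (l 16683288) (c (l 14) (a (l 16683752) (b (l 16685416) (l 14)))))) (a (l 16678200) (l 14))))) (l 14))) (a (b (c (b (l 16675592) (l 16673712)) (b (l 16654880) (l 16652592))) (c (b (l 16671968) (l 16680872)) (b (l 16650448) (l 16648440)))) (b (a (c (b (c (l 16674520) (l 16669264)) (c (l 16672800)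 (l 16667328))) (b (l 16661272) (l 16658992))) (a (c (b (c (l 16677992) (l 16672640)) (c (l 16676304) (l 16670720))) (b (l 16664504) (l 16672712))) (c (a (b (c (l 16679736) (l 16674336)) (c (c (l 16679472) (l 16676664)) (l 16672432))) (b (c (c (b (l 16682752) (l 16681896)) (b (l 16680072) (l 16679160))) (c (l 16676832) (l 16674096))) (c (c (b (l 16681096) (l 14)) (b (l 16678296) (l 16677488))) (c (l 16674992) (l 16672136))))) (b (c (b (l 16670048) (l 16668920)) (l 16663880)) (c (c (l 16668712) (l 16665832)) (l 16661488)))))) (a (c (b (c (l 16671264) (l 16665568)) (c (l 16669904) (l 16663984))) (b (l 16656896) (l 16654960))) (a (c (b (c (l 16674824) (l 16669000)) (c (l 14) (l 16667472))) (b (l 16668008) (c (l 16661344) (l 16655144)))) (c (b (b (c (c (l 14) (l 16676144)) (c (l 16673224) (l 16670288))) (c (l 14) (c (l 16672456) (l 16669456)))) (b (c (l 14) (c (l 16671744) (l 16668680))) (c (l 14) (c (l 14) (l 16667960))))) (b (c (c (l 16666832) (l 16663832)) (l 16659296)) (c (b (l 16664056) (l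 16663240)) (l 16657304))))))))), by decide +kernel⟩

def k32_pm_202 : ∃ t, chk3 f_pm_202 t 14 23 1 = true :=
  ⟨(b (c (a (c (l 16711896) (l 16614152)) (a (c (l 16809368) (l 16628512)) (c (l 16819720) (l 16638368)))) (a (l 16645272) (a (l 16615872) (l 16645440)))) (c (a (c (l 16911088) (l 16624608)) (c (a (l 16920936) (l 16928728)) (a (l 16644568) (l 16659312)))) (a (l 16639776) (a (l 16611000) (l 16641016))))), by decide +kernel⟩

def k33_pm_202 : ∃ t, chk3 f_pm_202 t 15 23 1 = true :=
  ⟨(a (c (b (a (c (b (l 16801416) (l 16859944)) (l 16648464)) (c (b (l 16751944) (l 16829856)) (b (l 16659688) (l 16658472)))) (a (c (l 16874704) (l 16675280)) (c (b (l 16923600) (l 16970824)) (l 16671496)))) (b (a (c (l 16638464) (l 16627992)) (c (l 16668856) (l 16636608))) (a (c (l 16634872) (l 16623752)) (c (l 16644896) (l 16632848))))) (c (a (a (c (b (b (l 16783776) (l 16860472)) (c (l 17017928) (l 16893712))) (b (l 16666640) (l 16664264))) (c (b (l 14) (c (l 17022888) (l 14))) (l 14))) (c (b (l 14) (c (b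 (l 14) (l 17051904)) (l 14))) (l 14))) (a (b (b (c (l 16679416) (l 16646560)) (c (l 16678088) (l 16644800))) (b (c (l 16676880) (l 16643152)) (c (l 16670560) (l 16641624)))) (b (b (a (c (c (l 14) (l 16662576)) (l 16653192)) (b (c (c (l 14) (a (l 16666504) (c (l 14) (l 16667288)))) (c (a (l 16660192) (l 16662472)) (l 16654896))) (c (c (l 14) (a (l 16665888) (l 14))) (c (a (l 16659448) (c (l 16663400) (l 16660112))) (l 16659280))))) (a (c (c (l 14) (l 16661336)) (l 16651600)) (c (l 14) (c (a (l 16658392) (c (b (l 16662776) (l 14)) (b (l 16659424) (l 16658792)))) (a (l 16651688) (c (l 16660904) (l 16652232))))))) (c (l 14) (b (a (l 16660664) (c (a (l 16657216) (c (l 14) (b (l 16658208) (l 14)))) (a (l 16650256) (b (l 16652944) (l 16652320))))) (a (c (l 16652448) (l 16645392)) (c (l 14) (a (l 16649024) (a (l 16650856) (b (l 16652360) (l 16657104)))))))))))), by decide +kernel⟩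

def k34_pm_202 : ∃ t, chk3 f_pm_202 t 6 12 1 = true :=
  ⟨(a (b (c (b (a (l 16847200) (l 16850792)) (a (l 16945328) (l 16946304))) (b (l 16583960) (l 16581120))) (c (b (a (l 17023640) (l 17023056)) (a (l 17086160) (l 17084832))) (a (l 16586424) (l 16612312)))) (b (b (c (a (c (l 16994280) (l 16712600)) (c (l 16997304) (l 16724816))) (a (l 16561448) (l 16572824))) (c (a (l 16862616) (c (l 17075464) (l 16825760))) (a (l 16553944) (l 16563424)))) (c (a (b (l 17021600) (l 17082576)) (b (c (l 17138840) (l 16908432)) (l 17062664))) (a (b (l 16544792) (l 16642144)) (b (l 16558016) (l 16650632)))))), by decide +kernel⟩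

def k35_pm_202 : ∃ t, chk3 f_pm_202 t 14 12 1 = true :=
  ⟨(b (a (c (b (c (l 17004768) (l 16742992)) (c (l 17081288) (l 16840480))) (b (l 16633408) (l 16604808))) (c (b (c (a (l 17012296) (l 17018472)) (a (l 16758960) (l 16770984))) (c (l 17089936) (a (l 16853784) (l 16864000)))) (b (a (l 16605632) (l 16636344)) (a (l 16599392) (l 16610136))))) (c (a (b (c (l 17143864) (l 16920880)) (c (l 17195216) (l 16987432))) (b (c (l 17151656) (l 16895024)) (c (l 17202848) (l 17002312)))) (a (b (l 16602920) (c (l 16777376) (l 16564904))) (b (a (l 16602952) (l 16618672)) (c (a (l 16793576) (l 16805984)) (l 16594736)))))), by decide +kernel⟩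

def k36_pm_202 : ∃ t, chk3 f_pm_202 t 15 12 1 = true :=
  ⟨(b (c (a (c (b (a (l 17025704) (l 16992088)) (a (l 17098952) (l 17106280))) (b (a (l 16742264) (b (l 16773952) (l 16822592))) (a (l 16875416) (b (l 16867224) (l 16908208))))) (c (b (a (c (l 17100408) (l 16986456)) (c (l 17109464) (b (l 14) (l 17018504)))) (a (l 17114720) (c (l 17175752) (l 17072824)))) (b (a (a (l 16663592) (l 14)) (l 14)) (a (b (c (l 16935912) (l 16827096)) (l 16858944)) (c (b (l 14) (l 16987920)) (l 14)))))) (a (b (a (c (l 16631272) (l 16619456)) (c (l 16642152) (l 16629296))) (a (c (l 16649608) (l 16614920)) (c (l 16646664) (l 16625832)))) (c (a (a (b (l 16650544) (l 16640184)) (l 14)) (l 14)) (c (a (a (b (l 16640344) (l 16637968)) (l 14)) (l 14)) (a (b (a (l 16633424) (l 16638456)) (a (l 16630584) (l 14))) (b (b (a (l 16644200) (a (l 16648000) (b (c (l 14) (l 16648888)) (l 14)))) (a (l 16643208) (l 14))) (l 14))))))) (c (a (b (c (l 17163168) (a (l 16951944) (l 16963512))) (c (l 17214104) (a (l 17016424) (l 17027408))))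 (c (b (a (l 17174712) (l 17183800)) (l 17229592)) (b (a (c (l 17026176) (l 16926520)) (c (l 17039176) (b (l 14) (l 16959592)))) (a (l 17039736) (c (l 17098848) (l 17007992)))))) (a (b (a (c (l 16741792) (l 16609688)) (c (b (l 16736936) (l 16778608)) (l 16622136))) (a (c (l 16819832) (l 16621048)) (c (b (l 16817080) (l 16852632)) (l 16619832)))) (a (a (b (c (l 16645568) (l 16631816)) (c (l 16763856) (l 16635856))) (b (l 14) (c (b (l 14) (l 16873904)) (l 14)))) (b (l 14) (b (l 14) (c (c (l 16933088) (l 14)) (l 14)))))))), by decide +kernel⟩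

def k37_pm_202 : ∃ t, chk3 f_pm_202 t 6 13 1 = true :=
  ⟨(b (a (c (b (l 17135128) (l 17174936)) (a (l 16697968) (a (l 16760304) (l 16717680)))) (c (a (b (l 17132208) (l 17172736)) (b (l 17132632) (l 17173048))) (a (b (l 16722816) (l 16790136)) (b (a (l 16723472) (l 16731200)) (a (l 16788312) (l 16794840)))))) (a (c (b (l 17206704) (l 17231936)) (b (a (l 16854280) (l 16851128)) (a (l 16903552) (l 16899672)))) (c (a (b (l 17205928) (l 17233200)) (b (l 17206632) (l 17234784))) (a (b (l 16846760) (l 16894560)) (b (a (l 16843208) (l 16848504)) (a (l 16890120) (l 16893872))))))), by decide +kernel⟩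

def k38_pm_202 : ∃ t, chk3 f_pm_202 t 7 13 1 = true :=
  ⟨(b (a (c (a (b (l 17077496) (l 17180976)) (c (l 17264056) (b (l 17057136) (l 17103312)))) (a (b (a (l 16740920) (l 16751824)) (c (l 16902992) (l 16714784))) (b (a (l 16722072) (c (l 16872800) (l 16681984))) (a (l 16763480) (c (l 16929568) (l 16749384)))))) (c (c (a (l 17275672) (b (l 17272424) (l 17308704))) (a (b (l 17076112) (l 17122352)) (b (a (l 17093816) (l 17107328)) (l 17146616)))) (a (b (a (c (l 16886128) (l 16699208)) (c (l 16880040) (b (l 16700000) (l 16735872)))) (a (c (l 16942736) (l 16766264)) (c (l 16957504) (b (l 16769232) (l 16800320))))) (b (a (c (b (l 16902112) (l 16932416)) (a (b (l 16715608) (l 16751344)) (l 14))) (c (b (c (l 16964144) (l 14)) (c (l 16993016) (l 16908064))) (l 14))) (c (a (l 16973912) (b (l 16978712) (l 17004888))) (b (a (a (l 16784640) (l 14)) (l 14)) (a (a (l 16815696) (l 16826592)) (c (l 16884320) (l 14))))))))) (a (c (a (b (l 17214880) (l 17243368)) (b (l 17226824) (l 17255872))) (b (a (c (l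 16951448) (l 16773096)) (c (l 16972056) (a (l 16792360) (l 16807368)))) (a (c (l 16992496) (l 16822784)) (c (l 17013392) (a (l 16842120) (l 16857240)))))) (b (c (a (l 17200792) (c (l 17339376) (l 17186264))) (a (c (a (l 16991312) (l 17006160)) (a (l 16824224) (b (l 16829280) (l 16856280)))) (c (a (l 17022648) (l 17040808)) (a (b (l 16850080) (l 16877120)) (b (c (l 16912144) (l 14)) (a (l 16894056) (l 16905984))))))) (c (a (l 17272288) (l 17292912)) (a (c (l 17040288) (a (l 16874280) (l 16893272))) (c (a (l 17064720) (l 17083048)) (a (b (l 16902368) (l 16925912)) (b (l 16925304) (l 16948968))))))))), by decide +kernel⟩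

def k39_pm_202 : ∃ t, chk3 f_pm_202 t 3 7 1 = true :=
  ⟨(b (a (b (a (c (b (l 17253880) (l 17272488)) (b (a (l 16949112) (l 16945816)) (l 16990440))) (c (b (a (l 17257928) (l 17261072)) (l 17281512)) (b (a (l 16941496) (a (l 16937688) (l 16940400))) (a (l 16987024) (l 16985744))))) (c (a (l 17291824) (l 17306320)) (a (l 17042800) (a (l 17043128) (l 17043984))))) (b (a (c (b (c (l 17352504) (l 17198760)) (l 17300056)) (b (a (b (l 16941432) (l 16966304)) (c (l 17054584) (b (l 16886352) (l 16913600)))) (a (l 17000320) (l 17022960)))) (c (b (a (l 17299368) (l 17319720)) (c (l 17397408) (l 17267152))) (b (a (c (l 17080936) (b (l 16920080) (l 16946232))) (c (l 17113936) (a (l 16910744) (b (l 16973344) (l 16998992))))) (a (c (l 17119768) (l 16982448)) (a (l 17077864) (l 17057064)))))) (a (c (l 17327312) (a (l 17057560) (b (l 17061992) (l 17096272)))) (c (a (l 17350144) (l 17368872)) (a (b (l 17090480) (l 17124856)) (c (l 17200936) (b (l 17067512) (l 17105296)))))))) (a (c (a (l 17304920) (b (l 17324632)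 (l 17326544))) (a (b (l 17093544) (l 17126688)) (b (a (l 17098488) (l 17102440)) (a (l 17136152) (l 17143296))))) (a (c (b (l 17347640) (l 17351848)) (b (a (l 17116376) (l 17139136)) (a (l 17157328) (l 17179080)))) (c (b (l 17377616) (l 17380192)) (b (a (l 17166472) (l 17198576)) (a (l 17204288) (l 17232520))))))), by decide +kernel⟩

theorem s40_pm_202 : ∃ t, chk3 f_pm_202 t 3 13 1 = true := ex3_a k37_pm_202 k38_pm_202

theorem s41_pm_202 : ∃ t, chk3 f_pm_202 t 7 12 1 = true := ex3_a k35_pm_202 k36_pm_202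

theorem s42_pm_202 : ∃ t, chk3 f_pm_202 t 3 12 1 = true := ex3_a k34_pm_202 s41_pm_202

theorem s43_pm_202 : ∃ t, chk3 f_pm_202 t 3 6 1 = true := ex3_b s42_pm_202 s40_pm_202

theorem s44_pm_202 : ∃ t, chk3 f_pm_202 t 3 3 1 = true := ex3_b s43_pm_202 k39_pm_202

theorem s45_pm_202 : ∃ t, chk3 f_pm_202 t 7 23 1 = true := ex3_a k32_pm_202 k33_pm_202

theorem s46_pm_202 : ∃ t, chk3 f_pm_202 t 15 22 1 = true := ex3_a k30_pm_202 k31_pm_202

theorem s47_pm_202 : ∃ t, chk3 f_pm_202 t 7 22 1 = true := ex3_a k29_pm_202 s46_pm_202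

theorem s48_pm_202 : ∃ t, chk3 f_pm_202 t 7 11 1 = true := ex3_b s47_pm_202 s45_pm_202

theorem s49_pm_202 : ∃ t, chk3 f_pm_202 t 31 21 1 = true := ex3_b k27_pm_202 k28_pm_202

theorem s50_pm_202 : ∃ t, chk3 f_pm_202 t 15 21 1 = true := ex3_a k26_pm_202 s49_pm_202

theorem s51_pm_202 : ∃ t, chk3 f_pm_202 t 7 21 1 = true := ex3_a k25_pm_202 s50_pm_202

theorem s52_pm_202 : ∃ t, chk3 f_pm_202 t 31 167 2 = true := ex3_a k22_pm_202 k23_pm_202

theorem s53_pm_202 : ∃ t, chk3 f_pm_202 t 31 167 1 = true := ex3_c s52_pm_202 k24_pm_202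

theorem s54_pm_202 : ∃ t, chk3 f_pm_202 t 31 83 1 = true := ex3_b k21_pm_202 s53_pm_202

theorem s55_pm_202 : ∃ t, chk3 f_pm_202 t 15 83 1 = true := ex3_a k20_pm_202 s54_pm_202

theorem s56_pm_202 : ∃ t, chk3 f_pm_202 t 7 83 1 = true := ex3_a k19_pm_202 s55_pm_202

theorem s57_pm_202 : ∃ t, chk3 f_pm_202 t 7 41 1 = true := ex3_b k18_pm_202 s56_pm_202

theorem s58_pm_202 : ∃ t, chk3 f_pm_202 t 31 40 1 = true := ex3_b k16_pm_202 k17_pm_202

theorem s59_pm_202 : ∃ t, chk3 f_pm_202 t 15 40 1 = true := ex3_a k15_pm_202 s58_pm_202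

theorem s60_pm_202 : ∃ t, chk3 f_pm_202 t 7 40 1 = true := ex3_a k14_pm_202 s59_pm_202

theorem s61_pm_202 : ∃ t, chk3 f_pm_202 t 7 20 1 = true := ex3_b s60_pm_202 s57_pm_202

theorem s62_pm_202 : ∃ t, chk3 f_pm_202 t 7 10 1 = true := ex3_b s61_pm_202 s51_pm_202

theorem s63_pm_202 : ∃ t, chk3 f_pm_202 t 7 5 1 = true := ex3_b s62_pm_202 s48_pm_202

theorem s64_pm_202 : ∃ t, chk3 f_pm_202 t 15 39 1 = true := ex3_a k12_pm_202 k13_pm_202

theorem s65_pm_202 : ∃ t, chk3 f_pm_202 t 15 19 1 = true := ex3_b k11_pm_202 s64_pm_202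

theorem s66_pm_202 : ∃ t, chk3 f_pm_202 t 15 18 1 = true := ex3_a k9_pm_202 k10_pm_202

theorem s67_pm_202 : ∃ t, chk3 f_pm_202 t 15 9 1 = true := ex3_b s66_pm_202 s65_pm_202

theorem s68_pm_202 : ∃ t, chk3 f_pm_202 t 15 4 1 = true := ex3_b k8_pm_202 s67_pm_202

theorem s69_pm_202 : ∃ t, chk3 f_pm_202 t 14 4 1 = true := ex3_b k6_pm_202 k7_pm_202

theorem s70_pm_202 : ∃ t, chk3 f_pm_202 t 7 4 1 = true := ex3_a s69_pm_202 s68_pm_202

theorem s71_pm_202 : ∃ t, chk3 f_pm_202 t 7 2 1 = true := ex3_b s70_pm_202 s63_pm_202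

theorem s72_pm_202 : ∃ t, chk3 f_pm_202 t 6 5 1 = true := ex3_b k4_pm_202 k5_pm_202

theorem s73_pm_202 : ∃ t, chk3 f_pm_202 t 6 2 1 = true := ex3_b k3_pm_202 s72_pm_202

theorem s74_pm_202 : ∃ t, chk3 f_pm_202 t 3 2 1 = true := ex3_a s73_pm_202 s71_pm_202

theorem s75_pm_202 : ∃ t, chk3 f_pm_202 t 3 1 1 = true := ex3_b s74_pm_202 s44_pm_202

theorem s76_pm_202 : ∃ t, chk3 f_pm_202 t 2 2 1 = true := ex3_a k0_pm_202 k1_pm_202

theorem s77_pm_202 : ∃ t, chk3 f_pm_202 t 2 1 1 = true := ex3_b s76_pm_202 k2_pm_202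

theorem s78_pm_202 : ∃ t, chk3 f_pm_202 t 1 1 1 = true := ex3_a s77_pm_202 s75_pm_202

theorem c_pm_202 : CertN 0 536870912 0 536870912 201326592 134217728 3 true true false .pp 2 0 2
    ndN0q2 ndN0q0 pcN2 cut_pm_202 Ext.none :=
  certN1 (fam := true) (s1 := true) (s2 := false) (a := 2) (b := 0) (c := 2) (cn := .pp) (n1 := ndN0q2) (n2 := ndN0q0) (pc := pcN2) (cut := cut_pm_202) (xt := Ext.none) (P1 := 0) (W1 := 536870912) (P2 := 0) (W2 := 536870912) (P3 := 201326592) (W3 := 134217728) (N0 := 3)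
    rfl (fun _ => rfl) s78_pm_202

noncomputable def f_pm_203 : ℕ → ℕ → ℕ → ℕ → Bool := onCell 0 536870912 0 536870912 201326592 134217728
    (rowN 3 0 true true false .up 2 0 3 (qsf 0 536870912 0 536870912 3) ndN0q2 ndN0q0 pcN3 Cut.none Ext.none)

def k0_pm_203 : ∃ t, chk3 f_pm_203 t 2 1 1 = true :=
  ⟨(b (l 1) (b (b (l 1) (b (a (a (l 1) (l 1)) (l 1)) (a (c (a (c (l 17274888) (l 17155672)) (a (l 17285784) (c (l 17405952) (l 17249552)))) (a (c (l 17047352) (l 16954472)) (a (l 17029208) (b (l 17047040) (l 17046472))))) (c (a (l 69291059575) (l 81639088375)) (a (c (l 17132216) (l 17006712)) (c (l 110629728215) (l 139620487751))))))) (a (b (c (b (a (c (l 17215472) (l 17115096)) (c (l 17327160) (l 17196024))) (a (a (l 17085208) (l 17130864)) (l 17199752))) (b (a (c (l 17025224) (l 16949544)) (a (l 17018808) (l 17040136))) (a (a (l 16952160) (l 16976696)) (l 17011968)))) (c (a (b (a (l 17028992) (l 17073728)) (a (l 16975416) (l 17019344))) (b (l 17141640) (a (l 17063704) (l 17109408)))) (b (a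 (a (l 16926288) (l 16952152)) (l 16990232)) (a (a (l 16898496) (l 16925320)) (l 16986592))))) (b (c (a (b (l 17319536) (l 17275072)) (b (l 17356456) (l 17325056))) (a (b (c (l 17123056) (l 17015792)) (l 17119384)) (b (c (l 17154224) (l 17035096)) (l 17093624)))) (a (c (b (l 17227280) (a (l 17157016) (l 17199040))) (b (l 17040664) (l 17135984))) (c (l 17267336) (b (l 17086040) (l 17072256)))))))), by decide +kernel⟩

def k1_pm_203 : ∃ t, chk3 f_pm_203 t 3 1 1 = true :=
  ⟨(b (l 1) (b (a (l 1) (l 1)) (a (a (b (c (b (l 101503363303) (l 17363928)) (b (c (l 106871685111) (a (l 17037408) (l 106334434327))) (c (l 17174600) (l 17058856)))) (c (l 17321928) (b (l 17120408) (l 17116608)))) (b (c (c (l 103651360263) (a (l 108482688119) (l 112240825351))) (b (a (c (l 143915645175) (l 160021560071)) (l 1)) (a (c (l 17184048) (l 107945105751)) (c (l 110629730919) (b (l 156263392759) (l 17051976)))))) (c (c (l 17430048) (l 17313288)) (b (a (l 17136512) (c (l 17201728) (l 17079400))) (a (l 17143208) (l 17156232))))))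 (a (a (b (b (l 1) (b (l 1) (c (l 17396072) (c (l 17178936) (l 99891974775))))) (c (b (l 17398464) (l 17392296)) (b (c (l 17201984) (b (l 60163619751) (l 17081464))) (c (l 17220408) (l 17106560))))) (b (l 1) (c (l 17396624) (b (c (l 17199840) (l 98818271143)) (l 17169832))))) (b (l 1) (c (c (l 17460408) (l 108482870631)) (b (c (l 111166713431) (a (l 105260839495) (l 1))) (c (l 17245032) (a (l 17125688) (l 108482152855)))))))))), by decide +kernel⟩

theorem s2_pm_203 : ∃ t, chk3 f_pm_203 t 1 1 1 = true := ex3_a k0_pm_203 k1_pm_203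

theorem c_pm_203 : CertN 0 536870912 0 536870912 201326592 134217728 3 true true false .up 2 0 3
    ndN0q2 ndN0q0 pcN3 Cut.none Ext.none :=
  certN0 (fam := true) (s1 := true) (s2 := false) (a := 2) (b := 0) (c := 3) (cn := .up) (n1 := ndN0q2) (n2 := ndN0q0) (pc := pcN3) (cut := Cut.none) (xt := Ext.none) (P1 := 0) (W1 := 536870912) (P2 := 0) (W2 := 536870912) (P3 := 201326592) (W3 := 134217728) (N0 := 3)
    rfl s2_pm_203

noncomputable def cut_pm_213 : Cut := Cut.of [[⟨0, 1, 0, 57167902⟩, ⟨1, 1, 0, 57167902⟩, ⟨2, 2, 0, 11758673⟩]]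

noncomputable def f_pm_213 : ℕ → ℕ → ℕ → ℕ → Bool := onCell 0 536870912 1610612736 536870912 201326592 134217728
    (rowN 3 1 true true false .pnn 2 1 3 (qsf 0 536870912 536870912 536870912 3) ndN0q2 ndN0q1 pcN3 cut_pm_213 Ext.none)

def k0_pm_213 : ∃ t, chk3 f_pm_213 t 2 2 1 = true :=
  ⟨(b (a (l 1) (a (l 1) (a (l 1) (b (l 1) (b (l 1) (l 17164400)))))) (b (a (c (b (a (a (l 16972576) (l 17014576)) (l 17074832)) (a (a (b (l 16934952) (l 16911072)) (l 16964152)) (a (l 17004224) (l 17044016)))) (b (a (b (l 1) (l 16902504)) (l 16980928)) (a (b (l 16888472) (a (l 16861640) (l 16887864))) (a (l 16920616) (l 16946232))))) (c (a (b (a (l 17135112) (l 17171496)) (a (l 17084040) (l 17123808))) (b (l 17208384) (l 17165152))) (a (b (l 17092992) (a (l 16971920) (l 16996912))) (b (l 17054680) (l 17031792))))) (a (b (c (a (b (a (l 16887696) (l 16928112)) (a (l 16843960) (l 16904512))) (a (l 16955520) (l 16994792))) (a (a (b (l 16847592) (l 16833856)) (b (l 16873560) (l 16859120))) (a (l 16892200) (l 16918224))))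 (c (a (a (b (a (b (l 16839112) (l 16829384)) (l 16852744)) (a (b (l 79691928903) (l 87208095703)) (b (l 16836888) (l 16827240)))) (b (l 16881368) (a (l 16849824) (l 16868336)))) (a (b (l 16919760) (l 16896368)) (l 16946328))) (a (a (b (a (b (l 16819176) (l 16814864)) (l 16826712)) (a (b (l 78618159575) (l 88281839895)) (b (l 16817784) (l 16813408)))) (b (l 16844712) (c (l 16837128) (l 16824568)))) (b (l 16903928) (a (l 16855312) (l 16881112)))))) (c (a (b (l 17053544) (a (l 16985320) (l 17023248))) (b (l 17120072) (a (l 17058976) (l 17088168)))) (a (b (l 16977928) (a (l 16914968) (l 16940392))) (b (a (l 16993544) (l 17017120)) (a (l 16964072) (l 16987024)))))))), by decide +kernel⟩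

def k1_pm_213 : ∃ t, chk3 f_pm_213 t 3 2 1 = true :=
  ⟨(b (a (b (l 1) (a (b (l 1) (c (l 17287560) (l 17111568))) (c (b (l 17353856) (l 17326656)) (b (a (l 17143392) (l 17160136)) (l 17233576))))) (a (b (b (l 1) (c (a (l 17392664) (l 17391248)) (a (c (l 17220360) (l 34930948823)) (l 17181792)))) (b (c (l 23657452039) (a (c (l 17227128) (l 17127784)) (l 17195432))) (c (l 17376448) (a (l 17180304) (l 17197536))))) (b (c (a (l 55869573431) (l 66607015543)) (b (a (l 100965990055) (c (l 17270904) (l 39762777527))) (a (l 17209408) (l 17242168)))) (c (a (l 17360768) (l 17349920)) (a (b (l 17219352) (l 17216784)) (l 17283776)))))) (a (b (a (c (b (l 17251432) (l 17212376)) (b (l 17097208) (l 17077104))) (c (l 17275944) (b (l 17139512) (l 17121672)))) (a (c (b (l 17169624) (l 17124504)) (b (l 17051616) (l 17021960))) (b (c (l 17215064) (l 17097568)) (c (l 17168256) (l 17067440))))) (a (b (c (a (l 17307808) (l 17310592)) (a (b (l 17173208) (l 17157344)) (b (l 17189840) (l 17174208)))) (b (c (l 17311800)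 (a (l 17133944) (l 17151256))) (c (l 17327112) (a (l 17103184) (l 17121240))))) (b (a (c (l 17292392) (l 17194096)) (b (l 17253336) (l 17214104))) (a (b (l 17189992) (l 17146704)) (c (l 17219240) (b (l 17148576) (l 17105968)))))))), by decide +kernel⟩

def k2_pm_213 : ∃ t, chk3 f_pm_213 t 2 12 1 = true :=
  ⟨(a (b (a (c (a (b (a (l 4) (b (l 81302539895) (l 89355575127))) (l 4)) (b (a (b (l 16834080) (l 16824592)) (l 16846304)) (a (b (l 83450024647) (l 91503053351)) (b (l 16830696) (l 49627078999))))) (a (b (a (l 4) (b (l 81302517751) (l 90966191047))) (l 4)) (b (a (b (l 16816056) (l 16811736)) (l 16823016)) (a (b (l 84523746023) (l 93113670231)) (b (l 16813992) (l 55532659095)))))) (c (a (b (l 16873440) (a (l 16842376) (l 16860072))) (b (l 16910832) (l 16887600))) (b (a (l 16840568) (l 16865928)) (a (a (l 16820672) (l 16832096)) (l 16850720))))) (a (a (l 4) (b (c (a (l 4) (b (l 74860078311) (l 95261142775))) (a (l 4) (b (a (l 95261139895) (l 16809072)) (l 97945502519)))) (l 4))) (c (a (a (b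 (b (l 16826936) (l 70028218935)) (b (l 79691892055) (l 101703584375))) (b (l 16838288) (b (l 16822840) (l 77544420247)))) (b (a (l 16855896) (l 16874040)) (b (l 16847856) (l 16815648)))) (a (a (b (b (l 16811688) (a (l 67343817015) (l 16808880))) (b (a (l 92576733255) (l 68954422983)) (l 104387945351))) (b (l 16818160) (b (l 16809200) (a (l 85060587159) (l 16806552))))) (b (b (l 16839408) (l 16831912)) (b (l 16824448) (l 16817152))))))) (c (a (b (b (l 16967424) (l 16922360)) (b (a (l 16901512) (l 16937296)) (a (l 16877576) (l 16912112)))) (b (a (l 17008264) (l 17040024)) (b (l 16985272) (l 16958368)))) (a (b (b (l 16904528) (a (l 16876544) (l 16901576))) (b (a (l 16860824) (l 16885480)) (a (l 16844840) (l 16868848)))) (b (a (l 16932776) (l 16955008)) (b (l 16918848) (a (l 16891080) (l 16911824))))))), by decide +kernel⟩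

def k3_pm_213 : ∃ t, chk3 f_pm_213 t 2 13 1 = true :=
  ⟨(a (b (a (l 4) (b (b (a (a (l 4) (c (l 87208078967) (a (l 4) (l 89892428727)))) (c (a (l 16818160) (l 16833928)) (a (l 16806416) (l 16815488)))) (a (l 4) (a (c (l 71101981431) (a (l 94187396903) (l 16804248))) (c (l 16822904) (l 16808656))))) (a (l 4) (a (b (a (l 4) (b (l 93113660471) (l 4))) (l 4)) (c (b (l 74323200215) (l 82376255879)) (b (a (l 61975089255) (l 16804920)) (a (l 95261098455) (l 86134328343)))))))) (a (l 4) (a (l 4) (l 4)))) (b (b (a (c (a (b (l 16859496) (l 16847504)) (l 16886752)) (a (b (l 16832712) (l 16824664)) (l 16851904))) (c (a (l 16917152) (l 16945256)) (a (l 16873552) (l 16893784)))) (a (c (a (a (b (l 16827656) (l 16816704)) (l 16827512)) (b (l 16867816) (l 16855312))) (a (b (l 16816792) (a (l 16804880) (l 16814512))) (b (l 16839136) (l 16830656)))) (c (a (l 16890480) (l 16917424)) (a (l 16855800) (l 16875536))))) (a (a (b (b (a (c (l 83986871447) (a (l 92039909463) (l 16801608))) (c (l 16820624) (l 16807064)))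 (a (a (l 4) (c (l 87208047671) (l 86671185191))) (c (a (l 73786287687) (l 16813312)) (a (l 79154999447) (l 16802640))))) (a (l 4) (b (c (l 83986870471) (a (l 95797984519) (l 88281809655))) (l 4)))) (c (b (b (l 16842880) (l 16820320)) (b (a (l 16812632) (l 16826080)) (a (a (l 94187396887) (l 16805824)) (l 16814848)))) (b (b (l 16822216) (l 16814008)) (a (b (l 16802080) (a (l 81839344871) (l 16798376))) (b (l 16810960) (l 16803424)))))) (c (a (b (l 16843648) (b (l 16845960) (l 16834104))) (b (l 16890376) (l 16865000))) (b (a (b (l 16842632) (l 16833904)) (l 16857456)) (a (b (l 16825392) (l 16817104)) (b (l 16844320) (l 16835752)))))))), by decide +kernel⟩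

def k4_pm_213 : ∃ t, chk3 f_pm_213 t 3 6 1 = true :=
  ⟨(a (b (a (c (b (l 17075592) (a (l 17012968) (l 17034264))) (b (a (l 16977288) (l 16999784)) (a (b (l 16950272) (l 16931608)) (l 16962064)))) (c (b (l 17117312) (l 17061192)) (b (l 17032448) (a (l 16982680) (l 17003456))))) (a (c (b (a (b (l 16971328) (l 16942552)) (l 16978000)) (a (b (l 16914696) (l 16888600)) (b (l 16937216) (l 16910776)))) (b (a (b (l 16912664) (l 16893848)) (l 16921944)) (a (b (l 16875448) (l 16857696)) (b (l 16892552) (l 16873904))))) (c (b (a (l 16996992) (l 17013816)) (a (l 16942688) (l 16959792))) (b (a (l 16941920) (l 16961472)) (a (l 16900968) (l 16898528)))))) (b (a (a (b (l 17124808) (c (l 17087952) (l 17024800))) (b (c (l 17154592) (l 17084576)) (c (l 17098976) (l 17043800)))) (a (b (l 17100888) (a (l 17062760) (l 17046112))) (c (l 17039672) (l 17036376)))) (a (a (b (c (l 17030576) (l 16981544)) (c (l 16975688) (l 16937968))) (b (c (l 17043696) (l 17000584)) (c (l 16989480) (l 16956120)))) (a (b (l 17135712)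 (c (l 16978112) (l 16957840))) (c (l 17035000) (l 17071976)))))), by decide +kernel⟩

def k5_pm_213 : ∃ t, chk3 f_pm_213 t 2 14 1 = true :=
  ⟨(a (l 4) (b (a (a (l 4) (b (a (a (l 4) (b (c (l 93650488279) (l 92039886071)) (l 4))) (c (b (a (l 84523708727) (l 16807528)) (a (l 103851046535) (l 79691862759))) (b (a (l 86671191895) (l 16798848)) (c (l 91503035991) (a (l 103851014439) (l 94187369511)))))) (l 4))) (b (a (a (b (c (l 16816536) (l 16804688)) (c (a (l 16803472) (l 16808952)) (a (l 16801688) (l 16799632)))) (c (b (l 16828928) (l 16817784)) (b (l 16813688) (l 16805824)))) (b (c (l 16847024) (l 16827352)) (c (l 16835416) (l 16819072)))) (c (b (a (a (b (l 77544390151) (l 86671182151)) (l 16807184)) (l 16813648)) (a (a (a (l 4) (b (l 99019166295) (l 4))) (a (l 82376232327) (l 72175670823))) (a (l 16807832) (l 16818720)))) (b (a (a (b (a (l 94187357431) (l 16795432)) (a (l 4) (l 73786234215))) (l 16798504)) (a (l 16806704) (l 16815312))) (a (a (a (l 4) (b (l 96334803399) (l 4))) (b (l 72175661079)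 (a (l 90966095495) (l 16793224)))) (a (l 16799072) (l 16807216))))))) (a (l 4) (b (c (a (b (a (l 4) (b (a (l 4) (l 99019198167)) (l 4))) (l 4)) (a (b (b (l 16800344) (a (l 95797972503) (l 16798160))) (a (l 4) (b (l 89892391719) (l 103851014887)))) (b (l 16807984) (b (l 16800344) (a (l 81302456231) (l 16797904)))))) (a (b (a (l 4) (b (a (l 4) (l 100092934423)) (l 4))) (l 4)) (a (b (b (l 16794024) (a (l 96871708391) (l 16792720))) (a (l 4) (b (l 84523676487) (l 101703524823)))) (b (l 16799400) (b (l 16793984) (a (l 82376191543) (l 16792352))))))) (a (l 4) (c (b (a (l 4) (a (b (l 100629789559) (l 4)) (b (l 79691842071) (l 98482305607)))) (l 4)) (b (a (l 4) (b (a (l 98482299639) (l 80228705895)) (a (l 4) (l 95797965927)))) (l 4)))))))), by decide +kernel⟩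

def k6_pm_213 : ∃ t, chk3 f_pm_213 t 3 14 1 = true :=
  ⟨(a (b (a (c (a (b (l 16863840) (a (l 16835112) (l 16845632))) (b (l 16885200) (l 16860664))) (a (b (l 16882344) (a (l 16861520) (l 16827592))) (b (l 16856144) (l 16838808)))) (c (b (l 17017584) (b (l 16957032) (l 16965648))) (a (b (l 16871608) (l 16852840)) (l 16878256)))) (a (b (c (a (b (l 16802416) (a (l 16807608) (l 16817456))) (b (l 16843040) (l 16831608))) (a (b (l 16853088) (a (l 16799336) (l 16806880))) (a (l 16860320) (l 16846408)))) (a (c (a (b (b (l 16799888) (a (l 78081225223) (l 16797256))) (b (a (l 96334821223) (l 76470608247)) (a (l 4) (l 95261078263)))) (b (l 16806704) (b (l 16798936) (a (l 75933734887) (l 16796144))))) (a (b (b (l 16793696) (a (l 78618091271) (l 16791856))) (b (a (l 93650481783) (l 77007476887)) (a (l 4) (l 107072249479)))) (b (l 16798872) (b (l 16793104) (a (l 77007475703) (l 16791104)))))) (b (c (l 16862392) (l 16851432)) (a (c (l 16805256) (l 16818976)) (a (l 16838616) (l 16852856)))))) (b (c (a (l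 16855320) (l 16914072)) (a (l 16835152) (l 16849144))) (c (a (a (l 16870064) (l 16836480)) (c (l 16895584) (l 16842840))) (a (c (l 16863312) (l 16816064)) (a (l 16827272) (l 16833776))))))) (b (a (c (a (l 16923016) (l 16936640)) (a (l 16894832) (l 16974376))) (a (c (l 17037576) (l 17084744)) (l 17035280))) (a (a (c (l 16872944) (l 16853384)) (b (l 16929392) (l 16864080))) (a (c (l 17053656) (b (l 16886896) (l 16865920))) (c (l 16964464) (l 16998920)))))), by decide +kernel⟩

def k7_pm_213 : ∃ t, chk3 f_pm_213 t 2 15 1 = true :=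
  ⟨(l 4), by decide +kernel⟩

def k8_pm_213 : ∃ t, chk3 f_pm_213 t 12 30 1 = true :=
  ⟨(b (a (b (a (l 4) (a (b (c (l 105998508695) (l 107072249255)) (l 4)) (b (c (l 76470605079) (l 77007474919)) (a (c (l 114051558999) (l 116199040983)) (c (l 87208013719) (l 84523654775)))))) (l 4)) (b (a (b (c (l 16797456) (l 16792152)) (a (c (l 77544346583) (l 77544345575)) (c (l 16794520) (l 16790000)))) (c (l 16824264) (l 16817696))) (a (b (a (c (l 107072247719) (b (l 84523653447) (l 4))) (c (l 79154961511) (l 79154958215))) (a (l 4) (a (l 4) (b (l 96871689655) (l 4))))) (b (c (l 16795472) (l 16790792)) (b (c (l 16791696) (l 16787976)) (a (a (l 98482301159) (l 16797736)) (l 16789320))))))) (b (a (l 4) (a (l 4) (b (a (a (l 4) (c (l 107609109079) (l 108682850391))) (c (b (l 16788752) (l 72175622439)) (b (l 16785912) (l 87744881383)))) (a (l 4) (a (l 4) (b (l 105998490871) (l 4))))))) (l 4))), by decide +kernel⟩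

def k9_pm_213 : ∃ t, chk3 f_pm_213 t 13 30 1 = true :=
  ⟨(b (a (b (c (l 16857408) (l 16795680)) (b (c (l 16828248) (l 16821000)) (a (a (l 16814704) (l 16797120)) (l 16823048)))) (c (b (l 16830448) (l 16840240)) (b (l 16817384) (l 16809264)))) (a (b (a (b (a (c (l 16791096) (l 16787584)) (l 16808264)) (a (c (b (l 16797880) (l 82913038631)) (b (l 16795432) (l 93113589367))) (c (l 16789664) (l 16786560)))) (b (c (l 16800320) (l 16794840)) (c (l 16794976) (l 16790736)))) (a (b (b (a (a (l 4) (l 113514679719)) (c (l 82913042935) (l 82376169687))) (a (l 4) (a (l 4) (c (l 100092906503) (l 101166647015))))) (l 4)) (c (b (a (c (l 16799248) (l 16797856)) (l 16791480)) (a (b (l 90429234823) (a (l 4) (l 110830320839))) (b (l 16787608) (l 81839298327)))) (b (a (b (l 16786352) (l 16784488)) (l 16788072)) (a (b (l 89892362615) (a (l 4) (l 112977803607))) (b (l 16785080) (l 80765555143))))))) (b (a (c (l 16825696) (l 16819344)) (c (l 16811416) (l 16782584))) (a (c (b (l 16796544) (a (l 16789584) (l 16792824)))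 (b (l 16792120) (a (l 16786672) (l 16789280)))) (b (l 16820864) (c (l 16797496) (l 16793032))))))), by decide +kernel⟩

def k10_pm_213 : ∃ t, chk3 f_pm_213 t 7 30 1 = true :=
  ⟨(a (a (a (c (b (l 16835216) (b (l 16796440) (l 16827208))) (b (l 16821712) (b (l 16808088) (l 16799848)))) (c (b (l 16840464) (b (l 16802576) (l 16811496))) (b (l 16827280) (b (l 16813376) (l 16804000))))) (b (c (l 16847840) (l 16836064)) (b (l 16825168) (c (l 16819232) (l 16811680))))) (b (a (c (l 16894776) (l 16928816)) (c (l 16892536) (l 16907888))) (a (a (l 16826848) (c (l 16832344) (l 16826968))) (a (l 16898808) (b (l 16887320) (l 16896344)))))), by decide +kernel⟩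

def k11_pm_213 : ∃ t, chk3 f_pm_213 t 6 62 1 = true :=
  ⟨(a (l 4) (b (a (b (b (b (a (l 4) (a (l 4) (a (l 114588414551) (l 82913035015)))) (a (l 4) (a (l 4) (a (l 4) (l 107072224023))))) (l 4)) (l 4)) (b (c (a (a (b (l 16796192) (a (l 106535353927) (l 81839292983))) (b (l 16788824) (l 16786224))) (l 16802536)) (a (a (b (l 16794160) (a (l 108145965911) (l 80765548599))) (l 16795608)) (l 16799288))) (b (a (b (a (a (l 4) (l 110293447479)) (c (l 16794760) (l 16793104))) (a (l 4) (a (l 104387868375) (l 16793560)))) (a (l 16795976) (l 16798584))) (a (a (l 4) (a (l 4) (b (l 92576708231) (l 116199023991)))) (a (a (c (l 81302419687) (l 79691805191)) (l 16794328)) (l 16796216)))))) (a (l 4) (a (l 4) (a (b (b (b (a (l 110830316551) (l 79154933351)) (a (l 4) (a (l 114588407895) (l 99556024743)))) (l 4)) (l 4)) (b (b (c (l 16792064) (l 16793088)) (b (c (l 86671126759) (l 85597384855)) (c (l 101166638839) (l 101703510711)))) (a (l 4) (b (c (l 103314119015) (l 104924728919)) (l 4))))))))), by decide +kernel⟩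

def k12_pm_213 : ∃ t, chk3 f_pm_213 t 7 62 1 = true :=
  ⟨(a (a (b (c (a (b (l 16797832) (l 16813304)) (l 16821368)) (a (a (b (l 16792360) (l 16788088)) (l 16813448)) (l 16800840))) (b (a (a (b (l 16796336) (c (l 16794760) (l 16782720))) (c (l 16798736) (l 16796472))) (c (l 16812976) (l 16789088))) (a (c (b (a (a (a (l 108145960839) (l 99019155895)) (l 64659421399)) (l 16794688)) (b (a (a (l 4) (l 111367180823)) (l 78081188679)) (a (l 4) (a (l 111367177719) (l 16786712))))) (b (a (a (a (l 112977796567) (l 100092897191)) (l 66806902807)) (l 16782712)) (b (a (c (l 94724182407) (l 95261053159)) (l 75396832263)) (a (l 4) (a (a (l 32447139239) (l 104924727367)) (l 16785768)))))) (a (b (l 16796176) (a (l 16790584) (l 16794288))) (b (l 16798352) (l 16795880)))))) (a (b (c (b (l 16808304) (l 16802200)) (b (l 16801984) (l 16797152))) (b (c (l 16796552) (l 16792760)) (c (l 16806816) (l 16791112)))) (b (l 16806376) (c (b (l 16801400) (c (l 16796104) (l 16812560))) (b (l 16797000) (a (l 16790936) (l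 16793008))))))) (a (a (c (l 16807056) (l 16797584)) (b (l 16834880) (l 16802536))) (a (b (l 16863984) (c (l 16844848) (l 16843560))) (b (c (l 16824176) (l 16818096)) (c (l 16852152) (b (l 16809064) (l 16823904))))))), by decide +kernel⟩

def k13_pm_213 : ∃ t, chk3 f_pm_213 t 6 63 1 = true :=
  ⟨(l 4), by decide +kernel⟩

def k14_pm_213 : ∃ t, chk3 f_pm_213 t 14 126 1 = true :=
  ⟨(a (b (a (b (b (b (a (l 4) (a (l 4) (l 93113570135))) (a (l 4) (a (l 4) (l 116735887815)))) (l 4)) (l 4)) (c (b (b (a (l 16787168) (l 16784256)) (a (a (l 109219696359) (l 16786432)) (l 16782896))) (b (a (a (l 4) (l 109219696199)) (l 16788072)) (a (l 4) (a (l 110293437639) (l 16785944))))) (b (a (b (l 16786152) (b (l 82913023591) (a (l 34594623463) (l 16780064)))) (l 16792808)) (b (a (a (l 4) (l 111367179671)) (l 16785856)) (a (l 4) (a (l 111904050343) (l 16785200))))))) (b (b (a (l 4) (a (l 4) (a (l 4) (c (l 111367179143) (l 113514662935))))) (l 4)) (l 4))) (b (a (c (b (l 16797344) (a (l 16788272) (l 16795600))) (b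 (c (l 16795984) (l 16795208)) (a (l 16787160) (l 16794184)))) (c (b (l 16790672) (l 16798544)) (b (l 16788272) (l 16786168)))) (a (c (b (b (a (c (l 63048795975) (l 76470570151)) (l 16783000)) (a (a (l 113514662455) (l 81839277927)) (l 16786848))) (b (a (a (l 4) (c (l 106535336871) (l 107609078615))) (a (c (l 85060503223) (l 85597372679)) (l 16780704))) (b (a (l 4) (a (l 117809624135) (l 16784832))) (a (l 4) (a (l 4) (l 96871659879)))))) (b (b (a (c (l 74859956823) (l 73249343351)) (l 16781952)) (a (a (a (l 118346494759) (l 110830305751)) (l 79154922855)) (l 16786024))) (b (b (a (a (l 4) (c (l 52848236503) (l 52311365527))) (l 16785144)) (a (l 4) (a (l 89355467207) (l 16779736)))) (b (a (l 4) (a (l 101703494423) (l 16779096))) (a (l 4) (a (l 4) (l 96334788839))))))) (c (b (a (l 16794728) (l 16796568)) (a (b (l 16782096) (l 16785920)) (l 6))) (b (a (l 16793512) (l 16795080)) (a (b (l 16786480) (l 16785288)) (l 6))))))), by decide +kernel⟩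

def k15_pm_213 : ∃ t, chk3 f_pm_213 t 15 126 1 = true :=
  ⟨(a (b (c (b (l 16817040) (a (l 16812760) (l 16793824))) (a (a (a (l 16789272) (l 16790328)) (l 16791160)) (l 16793192))) (b (b (a (a (l 16787400) (l 16789160)) (l 16790744)) (l 6)) (l 6))) (a (a (c (l 16814696) (l 16781768)) (b (l 16816528) (l 16806104))) (b (c (l 16820368) (l 16828184)) (a (l 16808672) (b (l 16817744) (l 6)))))), by decide +kernel⟩

def k16_pm_213 : ∃ t, chk3 f_pm_213 t 7 127 1 = true :=
  ⟨(b (a (a (l 4) (a (b (b (b (a (l 4) (a (l 4) (c (l 169886101063) (l 173644196935)))) (l 4)) (l 4)) (l 4)) (a (a (b (b (b (c (l 86671112007) (l 85597369975)) (c (l 102777240551) (l 110830301319))) (l 4)) (l 4)) (l 6)) (l 6)))) (l 6)) (a (l 4) (l 6))), by decide +kernel⟩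

theorem s17_pm_213 : ∃ t, chk3 f_pm_213 t 7 126 1 = true := ex3_a k14_pm_213 k15_pm_213

theorem s18_pm_213 : ∃ t, chk3 f_pm_213 t 7 63 1 = true := ex3_b s17_pm_213 k16_pm_213

theorem s19_pm_213 : ∃ t, chk3 f_pm_213 t 3 63 1 = true := ex3_a k13_pm_213 s18_pm_213

theorem s20_pm_213 : ∃ t, chk3 f_pm_213 t 3 62 1 = true := ex3_a k11_pm_213 k12_pm_213

theorem s21_pm_213 : ∃ t, chk3 f_pm_213 t 3 31 1 = true := ex3_b s20_pm_213 s19_pm_213

theorem s22_pm_213 : ∃ t, chk3 f_pm_213 t 6 30 1 = true := ex3_a k8_pm_213 k9_pm_213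

theorem s23_pm_213 : ∃ t, chk3 f_pm_213 t 3 30 1 = true := ex3_a s22_pm_213 k10_pm_213

theorem s24_pm_213 : ∃ t, chk3 f_pm_213 t 3 15 1 = true := ex3_b s23_pm_213 s21_pm_213

theorem s25_pm_213 : ∃ t, chk3 f_pm_213 t 1 15 1 = true := ex3_a k7_pm_213 s24_pm_213

theorem s26_pm_213 : ∃ t, chk3 f_pm_213 t 1 14 1 = true := ex3_a k5_pm_213 k6_pm_213

theorem s27_pm_213 : ∃ t, chk3 f_pm_213 t 1 7 1 = true := ex3_b s26_pm_213 s25_pm_213

theorem s28_pm_213 : ∃ t, chk3 f_pm_213 t 2 6 1 = true := ex3_b k2_pm_213 k3_pm_213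

theorem s29_pm_213 : ∃ t, chk3 f_pm_213 t 1 6 1 = true := ex3_a s28_pm_213 k4_pm_213

theorem s30_pm_213 : ∃ t, chk3 f_pm_213 t 1 3 1 = true := ex3_b s29_pm_213 s27_pm_213

theorem s31_pm_213 : ∃ t, chk3 f_pm_213 t 1 2 1 = true := ex3_a k0_pm_213 k1_pm_213

theorem s32_pm_213 : ∃ t, chk3 f_pm_213 t 1 1 1 = true := ex3_b s31_pm_213 s30_pm_213

theorem c_pm_213 : CertN 0 536870912 536870912 536870912 201326592 134217728 3 true true false .pnn 2 1 3
    ndN0q2 ndN0q1 pcN3 cut_pm_213 Ext.none :=
  certN1 (fam := true) (s1 := true) (s2 := false) (a := 2) (b := 1) (c := 3) (cn := .pnn) (n1 := ndN0q2) (n2 := ndN0q1) (pc := pcN3) (cut := cut_pm_213) (xt := Ext.none) (P1 := 0) (W1 := 536870912) (P2 := 536870912) (W2 := 536870912) (P3 := 201326592) (W3 := 134217728) (N0 := 3)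
    rfl (fun _ => rfl) s32_pm_213

noncomputable def f_mm_001 : ℕ → ℕ → ℕ → ℕ → Bool := onCell 0 536870912 0 536870912 201326592 134217728
    (rowN 3 0 true false false .up 0 0 1 (qsf 0 536870912 0 536870912 1) ndN0q0 ndN0q0 pcN1 Cut.none Ext.none)

def k0_mm_001 : ∃ t, chk3 f_mm_001 t 1 1 1 = true :=
  ⟨(l 4), by decide +kernel⟩

theorem c_mm_001 : CertN 0 536870912 0 536870912 201326592 134217728 3 true false false .up 0 0 1
    ndN0q0 ndN0q0 pcN1 Cut.none Ext.none :=
  certN0 (fam := true) (s1 := false) (s2 := false) (a := 0) (b := 0) (c := 1) (cn := .up) (n1 := ndN0q0) (n2 := ndN0q0) (pc := pcN1) (cut := Cut.none) (xt := Ext.none) (P1 := 0) (W1 := 536870912) (P2 := 0) (W2 := 536870912) (P3 := 201326592) (W3 := 134217728) (N0 := 3)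
    rfl k0_mm_001

noncomputable def f_mm_011 : ℕ → ℕ → ℕ → ℕ → Bool := onCell 0 536870912 536870912 536870912 201326592 134217728
    (rowN 3 0 true false false .pnn 0 1 1 (qsf 0 536870912 536870912 536870912 1) ndN0q0 ndN0q1 pcN1 Cut.none Ext.none)

def k0_mm_011 : ∃ t, chk3 f_mm_011 t 1 1 1 = true :=
  ⟨(a (l 5) (l 4)), by decide +kernel⟩

theorem c_mm_011 : CertN 0 536870912 536870912 536870912 201326592 134217728 3 true false false .pnn 0 1 1
    ndN0q0 ndN0q1 pcN1 Cut.none Ext.none :=
  certN0 (fam := true) (s1 := false) (s2 := false) (a := 0) (b := 1) (c := 1) (cn := .pnn) (n1 := ndN0q0) (n2 := ndN0q1) (pc := pcN1) (cut := Cut.none) (xt := Ext.none) (P1 := 0) (W1 := 536870912) (P2 := 536870912) (W2 := 536870912) (P3 := 201326592) (W3 := 134217728) (N0 := 3)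
    rfl k0_mm_011

noncomputable def f_mm_012 : ℕ → ℕ → ℕ → ℕ → Bool := onCell 0 536870912 536870912 536870912 201326592 134217728
    (rowN 3 0 true false false .pnp 0 1 2 (qsf 0 536870912 536870912 536870912 2) ndN0q0 ndN0q1 pcN2 Cut.none Ext.none)

def k0_mm_012 : ∃ t, chk3 f_mm_012 t 1 1 1 = true :=
  ⟨(b (l 4) (l 5)), by decide +kernel⟩

theorem c_mm_012 : CertN 0 536870912 536870912 536870912 201326592 134217728 3 true false false .pnp 0 1 2
    ndN0q0 ndN0q1 pcN2 Cut.none Ext.none :=
  certN0 (fam := true) (s1 := false) (s2 := false) (a := 0) (b := 1) (c := 2) (cn := .pnp) (n1 := ndN0q0) (n2 := ndN0q1) (pc := pcN2) (cut := Cut.none) (xt := Ext.none) (P1 := 0) (W1 := 536870912) (P2 := 536870912) (W2 := 536870912) (P3 := 201326592) (W3 := 134217728) (N0 := 3)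
    rfl k0_mm_012

noncomputable def f_mm_022 : ℕ → ℕ → ℕ → ℕ → Bool := onCell 0 536870912 0 536870912 201326592 134217728
    (rowN 3 0 true false false .pp 0 2 2 (qsf 0 536870912 0 536870912 2) ndN0q0 ndN0q2 pcN2 Cut.none Ext.none)

def k0_mm_022 : ∃ t, chk3 f_mm_022 t 1 1 1 = true :=
  ⟨(l 5), by decide +kernel⟩

theorem c_mm_022 : CertN 0 536870912 0 536870912 201326592 134217728 3 true false false .pp 0 2 2
    ndN0q0 ndN0q2 pcN2 Cut.none Ext.none :=
  certN0 (fam := true) (s1 := false) (s2 := false) (a := 0) (b := 2) (c := 2) (cn := .pp) (n1 := ndN0q0) (n2 := ndN0q2) (pc := pcN2) (cut := Cut.none) (xt := Ext.none) (P1 := 0) (W1 := 536870912) (P2 := 0) (W2 := 536870912) (P3 := 201326592) (W3 := 134217728) (N0 := 3)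
    rfl k0_mm_022

noncomputable def f_mm_023 : ℕ → ℕ → ℕ → ℕ → Bool := onCell 0 536870912 0 536870912 201326592 134217728
    (rowN 3 0 true false false .up 0 2 3 (qsf 0 536870912 0 536870912 3) ndN0q0 ndN0q2 pcN3 Cut.none Ext.none)

def k0_mm_023 : ∃ t, chk3 f_mm_023 t 1 1 1 = true :=
  ⟨(l 5), by decide +kernel⟩

theorem c_mm_023 : CertN 0 536870912 0 536870912 201326592 134217728 3 true false false .up 0 2 3
    ndN0q0 ndN0q2 pcN3 Cut.none Ext.none :=
  certN0 (fam := true) (s1 := false) (s2 := false) (a := 0) (b := 2) (c := 3) (cn := .up) (n1 := ndN0q0) (n2 := ndN0q2) (pc := pcN3) (cut := Cut.none) (xt := Ext.none) (P1 := 0) (W1 := 536870912) (P2 := 0) (W2 := 536870912) (P3 := 201326592) (W3 := 134217728) (N0 := 3)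
    rfl k0_mm_023

noncomputable def cut_mm_101 : Cut := Cut.of [[⟨0, 1, 0, 67108864⟩, ⟨1, 0, 0, 67108864⟩, ⟨2, 1, 0, 67108864⟩]]

noncomputable def f_mm_101 : ℕ → ℕ → ℕ → ℕ → Bool := onCell 536870912 536870912 0 536870912 201326592 134217728
    (rowN 3 0 true false false .npn 1 0 1 (qsf 536870912 536870912 0 536870912 1) ndN0q1 ndN0q0 pcN1 cut_mm_101 Ext.none)

def k0_mm_101 : ∃ t, chk3 f_mm_101 t 1 1 1 = true :=
  ⟨(a (l 4) (b (a (l 4) (b (a (l 4) (b (a (l 4) (b (l 6) (l 4))) (l 4))) (l 4))) (l 4))), by decide +kernel⟩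

theorem c_mm_101 : CertN 536870912 536870912 0 536870912 201326592 134217728 3 true false false .npn 1 0 1
    ndN0q1 ndN0q0 pcN1 cut_mm_101 Ext.none :=
  certN0 (fam := true) (s1 := false) (s2 := false) (a := 1) (b := 0) (c := 1) (cn := .npn) (n1 := ndN0q1) (n2 := ndN0q0) (pc := pcN1) (cut := cut_mm_101) (xt := Ext.none) (P1 := 536870912) (W1 := 536870912) (P2 := 0) (W2 := 536870912) (P3 := 201326592) (W3 := 134217728) (N0 := 3)
    rfl k0_mm_101

noncomputable def cut_mm_102 : Cut := Cut.of [[⟨0, 1, 0, 67108864⟩, ⟨1, 0, 0, 67108864⟩, ⟨2, 1, 0, 67108864⟩]]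

noncomputable def f_mm_102 : ℕ → ℕ → ℕ → ℕ → Bool := onCell 536870912 536870912 0 536870912 201326592 134217728
    (rowN 3 0 true false false .npp 1 0 2 (qsf 536870912 536870912 0 536870912 2) ndN0q1 ndN0q0 pcN2 cut_mm_102 Ext.none)

def k0_mm_102 : ∃ t, chk3 f_mm_102 t 1 1 1 = true :=
  ⟨(a (l 4) (b (a (l 4) (b (a (l 4) (b (a (l 4) (b (l 6) (l 4))) (l 4))) (l 4))) (l 4))), by decide +kernel⟩

theorem c_mm_102 : CertN 536870912 536870912 0 536870912 201326592 134217728 3 true false false .npp 1 0 2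
    ndN0q1 ndN0q0 pcN2 cut_mm_102 Ext.none :=
  certN0 (fam := true) (s1 := false) (s2 := false) (a := 1) (b := 0) (c := 2) (cn := .npp) (n1 := ndN0q1) (n2 := ndN0q0) (pc := pcN2) (cut := cut_mm_102) (xt := Ext.none) (P1 := 536870912) (W1 := 536870912) (P2 := 0) (W2 := 536870912) (P3 := 201326592) (W3 := 134217728) (N0 := 3)
    rfl k0_mm_102

noncomputable def f_mm_112 : ℕ → ℕ → ℕ → ℕ → Bool := onCell 536870912 536870912 536870912 536870912 201326592 134217728
    (rowN 3 0 true false false .dn 1 1 2 (qsf 536870912 536870912 536870912 536870912 2) ndN0q1 ndN0q1 pcN2 Cut.none Ext.none)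

def k0_mm_112 : ∃ t, chk3 f_mm_112 t 1 1 1 = true :=
  ⟨(l 4), by decide +kernel⟩

theorem c_mm_112 : CertN 536870912 536870912 536870912 536870912 201326592 134217728 3 true false false .dn 1 1 2
    ndN0q1 ndN0q1 pcN2 Cut.none Ext.none :=
  certN0 (fam := true) (s1 := false) (s2 := false) (a := 1) (b := 1) (c := 2) (cn := .dn) (n1 := ndN0q1) (n2 := ndN0q1) (pc := pcN2) (cut := Cut.none) (xt := Ext.none) (P1 := 536870912) (W1 := 536870912) (P2 := 536870912) (W2 := 536870912) (P3 := 201326592) (W3 := 134217728) (N0 := 3)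
    rfl k0_mm_112

noncomputable def f_mm_113 : ℕ → ℕ → ℕ → ℕ → Bool := onCell 536870912 536870912 536870912 536870912 201326592 134217728
    (rowN 3 0 true false false .nn 1 1 3 (qsf 536870912 536870912 536870912 536870912 3) ndN0q1 ndN0q1 pcN3 Cut.none Ext.none)

def k0_mm_113 : ∃ t, chk3 f_mm_113 t 1 1 1 = true :=
  ⟨(l 4), by decide +kernel⟩

theorem c_mm_113 : CertN 536870912 536870912 536870912 536870912 201326592 134217728 3 true false false .nn 1 1 3
    ndN0q1 ndN0q1 pcN3 Cut.none Ext.none :=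
  certN0 (fam := true) (s1 := false) (s2 := false) (a := 1) (b := 1) (c := 3) (cn := .nn) (n1 := ndN0q1) (n2 := ndN0q1) (pc := pcN3) (cut := Cut.none) (xt := Ext.none) (P1 := 536870912) (W1 := 536870912) (P2 := 536870912) (W2 := 536870912) (P3 := 201326592) (W3 := 134217728) (N0 := 3)
    rfl k0_mm_113

noncomputable def f_mm_123 : ℕ → ℕ → ℕ → ℕ → Bool := onCell 536870912 536870912 0 536870912 201326592 134217728
    (rowN 3 0 true false false .npn 1 2 3 (qsf 536870912 536870912 0 536870912 3) ndN0q1 ndN0q2 pcN3 Cut.none Ext.none)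

def k0_mm_123 : ∃ t, chk3 f_mm_123 t 1 1 1 = true :=
  ⟨(a (l 5) (l 4)), by decide +kernel⟩

theorem c_mm_123 : CertN 536870912 536870912 0 536870912 201326592 134217728 3 true false false .npn 1 2 3
    ndN0q1 ndN0q2 pcN3 Cut.none Ext.none :=
  certN0 (fam := true) (s1 := false) (s2 := false) (a := 1) (b := 2) (c := 3) (cn := .npn) (n1 := ndN0q1) (n2 := ndN0q2) (pc := pcN3) (cut := Cut.none) (xt := Ext.none) (P1 := 536870912) (W1 := 536870912) (P2 := 0) (W2 := 536870912) (P3 := 201326592) (W3 := 134217728) (N0 := 3)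
    rfl k0_mm_123

end Pool.Agent.Strip051.G.I3_16_5_16.Tab.C.NA00

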