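import Pool.Agent.Strip051.G.I3_16_5_16.Tab

/-! # Certificates N5 (generated) -/

set_option linter.all false
set_option maxRecDepth 100000

namespace Pool.Agent.Strip051.G.I3_16_5_16.Tab.C.NA00

open Pool.Agent.Strip051.PB Pool.Agent.Strip051.PB.T
open Pool.Agent.Strip051.G.I3_16_5_16.Tab

noncomputable def cut_mm_202 : Cut := Cut.of [[⟨0, 1, 0, 67108864⟩, ⟨1, 0, 0, 67108864⟩, ⟨2, 1, 0, 67108864⟩]]

noncomputable def f_mm_202 : ℕ → ℕ → ℕ → ℕ → Bool := onCell 0 536870912 0 536870912 201326592 134217728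
    (rowN 3 0 true false false .pp 2 0 2 (qsf 0 536870912 0 536870912 2) ndN0q2 ndN0q0 pcN2 cut_mm_202 Ext.none)

def k0_mm_202 : ∃ t, chk3 f_mm_202 t 2 4 1 = true :=
  ⟨(a (b (a (b (b (c (a (l 16490504) (a (l 16492544) (l 16468576))) (a (l 16458888) (l 16499672))) (a (c (l 16489976) (l 16476696)) (c (l 16509144) (l 16474624)))) (c (a (b (l 16513464) (l 16536744)) (b (l 16509512) (l 16530872))) (a (l 16569808) (l 16523520)))) (b (c (b (a (l 16483568) (l 16483224)) (a (l 16502312) (l 16473392))) (b (l 16493128) (l 16487888))) (c (b (a (l 16501048) (l 16513832)) (l 16559408)) (a (l 16517288) (l 16512160))))) (a (c (b (a (l 16591544) (l 16587560)) (l 16666960)) (b (a (l 16547592) (l 16541984)) (l 16608112))) (b (c (a (l 16574952) (l 16553544)) (l 16595312)) (c (a (l 16836408) (l 16815080)) (l 16594344))))) (b (a (b (c (b (a (l 16511296) (l 16540176)) (c (l 16545672) (l 16543976))) (b (l 16541280) (l 16540896))) (c (b (a (l 16506408) (l 16538064)) (l 16556272)) (c (l 16540136) (l 16560248))))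 (b (b (c (a (l 16566952) (c (l 16573816) (l 16568768))) (a (l 16536360) (l 16560672))) (c (a (l 16547336) (l 16595648)) (a (l 16539208) (l 16565400)))) (c (a (b (l 16569384) (l 16570240)) (b (l 16577792) (l 16580688))) (a (l 16584920) (b (l 16569880) (l 16574160)))))) (c (a (b (b (l 16550712) (l 16608776)) (a (l 16788280) (l 16756528))) (b (a (l 16576408) (b (l 16604408) (l 16586192))) (a (l 16720392) (b (l 16625008) (l 16727824))))) (a (b (l 16560808) (l 16608896)) (b (a (l 16568384) (l 16590768)) (l 16646120)))))), by decide +kernel⟩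

def k1_mm_202 : ∃ t, chk3 f_mm_202 t 2 5 1 = true :=
  ⟨(a (b (a (c (b (l 17005600) (l 17085144)) (b (l 16628848) (l 16751168))) (c (b (l 16965744) (l 17035536)) (b (l 16611000) (l 16733160)))) (c (a (b (l 17120904) (l 17128816)) (b (l 17062472) (l 17062992))) (a (b (l 16861000) (l 16925320)) (b (l 16831864) (l 16886208))))) (b (a (b (c (a (l 16925088) (l 16893096)) (l 16624064)) (c (l 16971368) (l 16708368))) (b (c (a (l 16858984) (l 16823696)) (a (l 16609808) (l 16643808))) (c (a (l 16918600) (l 16882200)) (a (l 16690704) (l 16681784))))) (a (b (c (l 16990968) (l 16797880)) (c (l 16985000) (l 16843264))) (c (b (a (l 16933624) (l 16894536)) (a (l 16923280) (l 16881360))) (b (a (l 16774184) (l 16761264)) (a (l 16813080) (l 16795544))))))), by decide +kernel⟩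

def k2_mm_202 : ∃ t, chk3 f_mm_202 t 4 6 1 = true :=
  ⟨(b (a (c (l 17109232) (b (l 16958736) (l 16970872))) (c (b (l 17047184) (l 17021464)) (b (l 16911160) (l 16916464)))) (c (a (b (l 17068472) (l 17035448)) (b (l 16990096) (l 16956200))) (b (a (l 16968288) (l 16908784)) (a (l 16955632) (l 29091887463))))), by decide +kernel⟩

def k3_mm_202 : ∃ t, chk3 f_mm_202 t 5 12 1 = true :=
  ⟨(a (b (c (l 16964080) (a (l 16873288) (l 16848056))) (c (a (l 16957624) (l 16912512)) (a (l 16873840) (l 16845600)))) (b (a (c (l 16898872) (l 16824384)) (c (b (l 16862168) (l 16847000)) (b (l 16802728) (l 16801784)))) (a (c (b (l 16875720) (l 16859352)) (b (l 16821488) (l 16816224))) (a (b (l 16822864) (c (l 16826456) (l 16798312))) (b (c (l 16820304) (l 16792888)) (b (c (l 16809760) (l 16790384)) (b (c (l 16806008) (l 16793656)) (a (l 16799576) (c (l 61975089063) (l 62511951319)))))))))), by decide +kernel⟩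

def k4_mm_202 : ∃ t, chk3 f_mm_202 t 5 13 1 = true :=
  ⟨(a (c (b (a (l 16924888) (b (l 16887696) (l 16871128))) (a (l 16891408) (b (l 16855320) (a (l 16851408) (l 62914666695))))) (b (a (l 16862880) (b (l 16836704) (l 16828992))) (a (l 44124208119) (b (l 16820992) (a (l 16820224) (l 62377777447)))))) (b (a (b (c (l 16843168) (l 16809648)) (b (c (l 16831920) (l 16804936)) (a (l 16821400) (c (l 16817648) (a (l 16801096) (l 16803768)))))) (b (c (a (b (l 16816032) (a (l 16814928) (l 16809280))) (a (b (l 52848296279) (a (l 75396875143) (l 99556063719))) (b (a (l 83449933591) (l 105998507239)) (l 4)))) (a (b (l 16795200) (a (l 16796168) (l 16805912))) (a (b (l 51774542039) (a (l 78618083991) (l 101703530727))) (b (a (l 87208014183) (l 109219717383)) (l 4))))) (c (a (a (b (l 16812120) (a (l 64122594103) (l 85060561415))) (b (a (l 68954423719) (l 92576748183)) (l 4))) (l 4)) (a (a (b (l 16802224) (a (l 67343801111) (l 86134284823))) (b (a (l 74323120887) (l 94187343447)) (l 4))) (l 4))))) (a (b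 (a (c (b (l 16828848) (l 16824152)) (b (l 16805416) (l 16825992))) (b (a (c (l 16818168) (l 16805312)) (c (a (l 60901375207) (l 77007503543)) (a (l 65196319783) (l 80765580519)))) (b (a (c (l 59290764151) (l 64122580215)) (c (l 93650504343) (l 91502979623))) (a (c (l 69491317863) (a (l 67880678743) (l 82913069783))) (l 4))))) (a (b (a (c (l 16824552) (l 16808384)) (b (c (l 60364500375) (l 62511968711)) (c (l 66806955799) (a (l 65733199399) (l 79691849207))))) (b (a (c (l 16824992) (l 116601716903)) (c (l 80765594423) (c (l 82376211255) (l 83986813015)))) (l 2))) (a (b (a (b (c (l 78081255351) (l 81302459511)) (l 4)) (l 4)) (l 4)) (l 4)))) (b (a (a (a (b (c (l 98482337511) (l 98482318215)) (l 4)) (l 4)) (l 4)) (l 4)) (l 4))))), by decide +kernel⟩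

def k5_mm_202 : ∃ t, chk3 f_mm_202 t 2 7 1 = true :=
  ⟨(a (l 2) (a (l 2) (a (l 2) (l 4)))), by decide +kernel⟩

def k6_mm_202 : ∃ t, chk3 f_mm_202 t 6 8 1 = true :=
  ⟨(a (b (a (b (c (c (l 16598200) (l 16593064)) (l 16605752)) (c (l 16632248) (l 16591184))) (b (c (b (c (l 16620064) (l 16614896)) (l 16641864)) (b (l 16606504) (l 16610496))) (c (c (l 16649000) (l 16623560)) (l 16637296)))) (a (c (b (l 16626656) (l 16631336)) (b (l 16597336) (l 16603296))) (c (b (c (l 16634200) (l 16630264)) (l 16659456)) (b (l 16644904) (l 16652312))))) (b (b (a (c (b (c (l 16663888) (l 16637960)) (c (l 16646776) (l 16642096))) (b (a (l 16623960) (l 16635760)) (l 16655480))) (c (b (c (a (l 16660088) (l 16671568)) (a (l 16655344) (l 16667032))) (c (a (l 16664360) (l 16676072)) (a (l 16659880) (l 16671808)))) (b (a (l 16647696) (l 16680728)) (a (l 16652680) (l 16664984))))) (a (c (b (c (l 16650608) (l 16646192)) (c (l 16654392) (l 16650232))) (b (l 16660016) (l 16643528))) (a (c (b (l 16687472) (l 16670816))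 (b (l 16657608) (l 16662480))) (c (b (c (l 16680528) (l 16676528)) (l 16704064)) (b (l 16670136) (l 16675232)))))) (b (b (a (c (l 16677176) (l 16647944)) (c (c (l 16704136) (l 16700528)) (a (l 16667296) (l 16680272)))) (a (c (l 16680992) (l 16652312)) (c (c (l 16708360) (l 16704992)) (a (l 16672048) (l 16685256))))) (c (a (c (l 16688208) (l 16684920)) (a (l 16706512) (b (l 16696464) (l 16700840)))) (a (l 16690168) (b (l 16714960) (l 16709240))))))), by decide +kernel⟩

def k7_mm_202 : ∃ t, chk3 f_mm_202 t 6 9 1 = true :=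
  ⟨(a (b (a (c (b (l 16635888) (l 16640400)) (c (l 16644744) (l 16652536))) (c (b (l 16665520) (l 16671536)) (a (l 16655616) (l 16680872)))) (c (a (l 16658328) (b (l 16677640) (l 16684232))) (a (l 16665600) (b (l 16652984) (l 16681440))))) (a (b (b (c (c (l 16695328) (l 16692536)) (l 16688136)) (c (a (l 16672880) (l 16708416)) (a (l 16668112) (l 16682792)))) (c (b (l 16718904) (a (l 16687336) (l 16723832))) (b (l 16725720) (l 16713248)))) (b (b (a (c (l 16714704) (l 16688272)) (c (b (l 16705168) (l 16709448)) (l 16723208))) (c (a (l 16722720) (l 16736728)) (a (l 16718296) (l 16732696)))) (a (c (b (l 16730720) (l 16738992)) (b (l 16706312) (l 16736352))) (c (b (l 16742504) (b (l 16751528) (l 16756048))) (b (l 16742048) (l 16751424))))))), by decide +kernel⟩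

def k8_mm_202 : ∃ t, chk3 f_mm_202 t 14 16 1 = true :=
  ⟨(b (a (c (b (a (c (b (l 16681856) (l 16684232)) (l 16689264)) (c (b (l 16714336) (l 16695824)) (b (l 16689400) (l 16692000)))) (a (c (l 16687744) (l 16683768)) (c (b (l 16698272) (l 16700704)) (b (l 16694584) (l 16697160))))) (b (a (c (l 16674320) (l 16669624)) (b (c (l 16685256) (l 16680904)) (l 16706896))) (a (c (l 16679600) (l 16675216)) (c (l 16702568) (l 16688128))))) (b (a (b (l 6) (a (a (c (l 16706624) (l 16693936)) (l 6)) (l 6))) (l 6)) (a (c (c (b (a (l 16707152) (l 16713200)) (l 16723176)) (b (l 16706920) (l 16709568))) (b (c (l 16703528) (l 16699992)) (c (l 16706320) (l 16702936)))) (a (b (l 6) (c (c (l 16721936) (l 16719160)) (l 16714816))) (l 6))))) (a (c (b (a (c (l 16692408) (l 16688696)) (c (b (l 16703128) (l 16705528)) (l 16721936))) (a (c (l 16697016) (l 16693560)) (c (l 16730064) (l 16706008)))) (b (a (l 16703760) (c (l 16697472) (l 16693824))) (a (l 16688080) (c (l 16702800) (l 16699448))))) (b (c (a (c (b (l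 16725664) (l 16717656)) (b (l 16712192) (l 16714808))) (b (a (a (l 16721568) (l 16730016)) (l 6)) (c (a (l 16727000) (l 16733392)) (a (l 16724504) (l 16731152))))) (a (a (l 16716016) (a (l 16710568) (l 16713976))) (a (c (l 16731008) (l 16717776)) (b (l 6) (l 16738152))))) (a (a (c (c (l 16718232) (l 16715464)) (l 16711120)) (c (c (l 16724432) (l 16721904)) (c (l 16719280) (l 16716568)))) (a (c (c (b (l 16729512) (l 16732008)) (l 16728464)) (c (l 16726104) (l 16723672))) (c (c (b (l 16735928) (l 16738448)) (b (l 16733832) (l 16736488))) (b (l 16741056) (l 16743936)))))))), by decide +kernel⟩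

def k9_mm_202 : ∃ t, chk3 f_mm_202 t 14 17 1 = true :=
  ⟨(a (b (c (a (b (c (l 16701584) (l 16698384)) (l 16725616)) (b (c (l 16713824) (l 16710992)) (c (l 16718520) (l 16715928)))) (a (b (l 16693320) (l 16698496)) (b (c (l 16708056) (l 16705008)) (l 16732864)))) (c (a (b (l 16730232) (l 16724312)) (b (c (l 16723168) (l 16720824)) (c (l 16727792) (l 16725672)))) (a (c (l 16728472) (l 16725696)) (b (l 16738152) (l 16743384))))) (b (a (a (c (b (c (l 16723072) (l 16720568)) (c (l 16727864) (l 16725608))) (b (l 16716648) (l 16722104))) (c (b (c (l 16729336) (l 16727064)) (c (l 16734192) (l 16732176))) (b (l 16734016) (l 16739544)))) (c (b (a (c (l 16735712) (l 16733688)) (c (b (l 16740960) (l 16743448)) (b (l 16739128) (l 16741760)))) (a (c (l 16740616) (l 16738856)) (c (b (l 16745928) (l 16748392)) (l 16756144)))) (b (a (c (l 16731616) (l 16729488)) (c (l 16743888) (l 16747288))) (a (c (l 16737064) (l 16735232)) (c (l 16754632) (l 16753096)))))) (a (a (c (b (l 16742096) (l 16746928)) (b (l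 16727504) (l 16732848))) (c (b (c (l 16738992) (l 16737232)) (l 16753480)) (b (l 16745008) (l 16750416)))) (c (b (a (c (l 16755960) (l 16743968)) (c (b (l 16750848) (l 16753288)) (l 16761304))) (a (c (l 16760776) (l 16759512)) (c (b (l 16755712) (l 16768616)) (l 16763792)))) (b (a (l 16754784) (c (l 16760072) (l 16758832))) (a (l 16757632) (c (l 16765448) (l 16764496)))))))), by decide +kernel⟩

def k10_mm_202 : ∃ t, chk3 f_mm_202 t 15 16 1 = true :=
  ⟨(a (b (l 6) (b (l 6) (a (c (a (c (b (l 16742448) (l 16744992)) (b (l 16740632) (l 16743312))) (b (l 6) (c (c (l 16757224) (l 16756536)) (a (l 16748512) (l 16752016))))) (a (b (c (l 16738768) (l 16736856)) (c (l 16741600) (l 16739848))) (b (l 6) (c (l 16754112) (l 16752688))))) (l 6)))) (l 6)), by decide +kernel⟩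

def k11_mm_202 : ∃ t, chk3 f_mm_202 t 60 34 1 = true :=
  ⟨(c (b (a (c (b (l 16747528) (l 16750040)) (b (l 16745984) (l 16748632))) (c (b (c (l 16759736) (l 16759128)) (c (l 16762240) (l 16761696))) (b (a (l 16751200) (l 16754720)) (c (l 16761144) (l 16760600))))) (a (c (b (l 16752544) (l 16760272)) (b (l 16751272) (l 16753888))) (c (a (b (l 16757560) (l 16760056)) (b (l 16760928) (l 16763440))) (a (b (l 16756520) (l 16759160)) (b (l 16760056) (l 16762704)))))) (b (a (b (c (l 16744416) (l 16742816)) (c (l 16747216) (l 16745768))) (b (c (l 16756952) (l 16755688)) (c (l 16759776) (l 16758664)))) (a (c (b (l 16749992) (l 16752752)) (b (l 16748696) (l 16751608))) (b (c (l 16765200) (l 16764248)) (c (l 16767984) (l 16767184)))))), by decide +kernel⟩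

def k12_mm_202 : ∃ t, chk3 f_mm_202 t 122 34 1 = true :=
  ⟨(b (c (b (a (c (l 16759248) (l 16758264)) (l 6)) (c (a (l 16767032) (l 16769136)) (a (l 16760952) (l 16769784)))) (a (b (c (l 16757272) (l 16756280)) (c (l 16760112) (l 16759272))) (b (l 6) (c (l 16769128) (l 16768480))))) (c (a (c (b (l 16769568) (l 16772080)) (b (l 16768872) (l 16771520))) (c (b (l 16772000) (c (l 16773632) (l 16774096))) (b (l 16772464) (a (l 16774224) (l 16776032))))) (c (b (a (l 16768176) (l 16771960)) (a (l 16770984) (l 16773464))) (b (a (l 16767496) (l 16771464)) (a (l 16770456) (l 16773120)))))), by decide +kernel⟩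

def k13_mm_202 : ∃ t, chk3 f_mm_202 t 123 68 1 = true :=
  ⟨(b (l 6) (b (l 6) (a (c (c (l 16771896) (l 16771456)) (c (l 16773656) (l 16773232))) (l 6)))), by decide +kernel⟩

def k14_mm_202 : ∃ t, chk3 f_mm_202 t 246 69 1 = true :=
  ⟨(c (b (a (b (l 16773408) (l 16774056)) (c (l 16774992) (l 16774384))) (a (c (l 16775464) (l 16775232)) (b (c (l 16779184) (l 16779016)) (a (c (l 16780072) (l 16777560)) (c (b (l 16778536) (a (l 16779504) (c (l 34594622983) (l 34057752215)))) (b (l 16778616) (a (l 16779576) (c (l 34057752359) (l 33520881495))))))))) (b (c (l 16774136) (l 16774168)) (a (c (l 16775016) (l 16774824)) (b (c (l 16778856) (l 16778728)) (c (a (l 16777640) (a (l 16778936) (b (l 16779112) (c (l 33520881511) (l 32984010791))))) (a (l 16777696) (a (l 16778968) (b (l 16779144) (c (l 32984010791) (l 32984010775)))))))))), by decide +kernel⟩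

def k15_mm_202 : ∃ t, chk3 f_mm_202 t 247 138 1 = true :=
  ⟨(c (a (b (a (l 16775208) (l 16776096)) (c (l 16778344) (l 16778200))) (b (l 6) (a (b (c (l 16778248) (l 16778328)) (b (l 16779512) (a (l 16779608) (c (l 43184557559) (l 41573945079))))) (a (b (c (l 16779600) (l 16779656)) (a (b (c (l 16778752) (l 16779120)) (l 92039812823)) (c (l 104924713447) (l 105461584423)))) (b (l 6) (l 4)))))) (a (b (l 16775896) (c (l 16778064) (l 16777952))) (b (l 6) (a (a (c (l 16778640) (l 16778672)) (b (l 16778840) (b (l 16779856) (c (l 43721428919) (l 41037074519))))) (a (b (a (l 16779488) (l 6)) (b (c (l 56069460119) (l 56606331175)) (c (l 109756551927) (l 114051519207)))) (b (l 6) (l 4))))))), by decide +kernel⟩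

def k16_mm_202 : ∃ t, chk3 f_mm_202 t 247 139 1 = true :=
  ⟨(c (a (b (a (c (l 16778200) (l 16778288)) (b (c (l 16779288) (l 16779352)) (c (a (b (l 16779904) (l 48016396119)) (b (c (l 59290684711) (l 59827555655)) (l 4))) (a (c (l 30299655703) (l 30299655751)) (b (c (l 60364426775) (l 60364426791)) (l 4)))))) (a (a (b (c (c (l 16778544) (l 16779888)) (l 16778624)) (b (c (l 78081167511) (l 81302393047)) (l 4))) (b (b (c (l 34057752199) (l 34057752375)) (c (l 88818586007) (l 92039811543))) (l 4))) (b (c (l 122641454551) (l 121030841943)) (l 4)))) (b (a (b (b (c (a (l 29225913719) (l 104924710775)) (a (l 16778984) (l 98482262519))) (a (c (l 85060489415) (l 87744844039)) (l 4))) (l 4)) (l 4)) (l 4))) (a (b (a (c (l 16778352) (l 16778392)) (b (c (l 16779392) (l 16779416)) (a (b (l 16780000) (c (l 48553267399) (l 49090138439))) (b (c (l 60901298535) (l 61975040647)) (l 4))))) (a (a (b (c (l 16779968) (l 16779984)) (b (c (l 66270007863) (l 67343749975)) (l 4))) (b (b (c (l 16779304) (l 16779472))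 (c (l 95797907943) (l 101166617031))) (l 4))) (b (c (l 121030842007) (l 121030840711)) (l 4)))) (b (a (b (b (c (a (l 16779016) (l 102240358919)) (a (l 16779016) (l 106535326199))) (a (c (l 91502940439) (l 95797907703)) (l 4))) (l 4)) (l 4)) (l 4)))), by decide +kernel⟩

def k17_mm_202 : ∃ t, chk3 f_mm_202 t 60 35 1 = true :=
  ⟨(a (b (b (c (c (l 16762744) (l 16766984)) (l 16764176)) (c (c (l 16765200) (l 16769568)) (c (l 16768712) (l 16767872)))) (c (c (a (l 16767176) (l 16771360)) (a (l 16766416) (l 16769944))) (c (b (l 16771424) (l 16768880)) (b (l 16770728) (l 16773568))))) (b (c (c (b (c (l 16769648) (l 16769304)) (a (l 16775496) (l 16773648))) (a (b (l 16761776) (l 16774872)) (b (l 16770576) (l 16773192)))) (c (b (l 16770096) (l 16770224)) (b (l 16770104) (l 16770384)))) (c (a (c (l 16774256) (b (l 16777456) (l 16774784))) (b (c (l 16776112) (l 16775784)) (a (b (l 16776960) (l 16779000)) (a (c (l 16780112) (l 16780272)) (b (l 16780528) (a (c (l 16780208) (l 16780328)) (b (l 16780448)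 (c (l 80765525895) (l 71101848359))))))))) (a (b (l 16771520) (l 16775616)) (b (c (l 16775496) (l 16775232)) (a (c (l 16777848) (l 16777976)) (c (b (l 16779856) (a (l 16781768) (b (l 16780144) (a (l 16781032) (l 72712461367))))) (a (l 16780464) (b (l 16780776) (b (l 16780176) (a (l 16781040) (l 73786203447)))))))))))), by decide +kernel⟩

def k18_mm_202 : ∃ t, chk3 f_mm_202 t 122 70 1 = true :=
  ⟨(c (a (b (c (l 16773272) (l 16774160)) (a (l 16774400) (b (l 16777160) (l 16778432)))) (b (a (c (l 16777152) (l 16776872)) (b (l 16776824) (b (l 16779096) (l 16779296)))) (a (b (l 16778920) (a (l 16779504) (a (a (l 16780600) (b (l 16781648) (l 19025369367))) (b (l 16779688) (a (b (l 16780512) (l 68417493879)) (b (l 49090140679) (l 92039814231))))))) (b (c (a (l 16778840) (b (c (l 16778552) (l 16778600)) (a (b (l 16780504) (l 68954362615)) (l 95797908679)))) (a (l 16778936) (b (c (l 16779952) (l 16779984)) (a (c (l 45332042279) (l 45868913239)) (l 98482263335))))) (a (b (a (c (l 29225914839) (l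 29225914999)) (b (a (l 44795173255) (l 82376137527)) (l 111367167847))) (c (l 110293426647) (l 110830292423))) (l 4)))))) (a (a (b (l 16772608) (l 16775448)) (b (l 16774544) (b (l 16776680) (l 16778448)))) (b (b (c (l 16776872) (l 16776648)) (a (l 16777208) (c (l 16779736) (l 16779808)))) (a (b (l 16779104) (c (a (l 16780960) (a (l 16779616) (b (l 16779784) (b (l 16780768) (l 77544298039))))) (a (l 16781008) (a (l 16779648) (b (l 16777184) (b (l 16780768) (l 79691781959))))))) (b (a (c (l 16779008) (b (l 16780992) (l 16779720))) (b (c (l 15267271511) (l 14730400807)) (a (c (c (l 45868913367) (l 45868913351)) (c (l 46405784407) (l 46942655431))) (c (l 103314101559) (l 108145939735))))) (a (b (c (a (l 29225915399) (b (l 59290686583) (l 112440904487))) (a (l 29225915575) (b (l 60901299607) (l 115662129911)))) (c (l 107072201335) (l 111904038215))) (l 4))))))), by decide +kernel⟩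

def k19_mm_202 : ∃ t, chk3 f_mm_202 t 244 71 1 = true :=
  ⟨(b (c (a (c (l 16778824) (l 16778992)) (b (c (l 16779624) (l 16779752)) (b (a (l 16779616) (c (a (l 37815850071) (l 87744845047)) (a (l 38352721479) (l 92039812439)))) (a (c (a (l 16780520) (l 58753816327)) (a (l 16780608) (l 61438171319))) (c (l 112440905511) (l 107609072679)))))) (a (c (l 16779120) (c (l 16779192) (l 16779232))) (b (c (l 16779840) (l 16779888)) (b (a (l 16781072) (c (a (l 38352721543) (l 96871651975)) (a (l 38889592791) (b (l 74859943783) (l 4))))) (a (c (a (l 16780664) (l 59827558935)) (a (l 16780672) (l 63585655431))) (c (l 111367169127) (l 115662136391))))))) (c (a (b (a (a (l 16781832) (c (l 16780016) (l 16780128))) (b (a (l 16780248) (c (l 42110817687) (l 42647689079))) (a (c (b (l 16779712) (l 92576683751)) (l 66270009799)) (l 110830297863)))) (a (a (b (b (l 40500206887) (l 73249333351)) (l 110293427207)) (c (l 107609072711) (l 102777234647))) (l 4))) (b (a (a (b (b (l 78081171319) (l 4)) (l 4)) (l 4))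 (l 4)) (l 4))) (a (b (a (c (l 16779776) (l 16779808)) (b (a (l 16780376) (c (l 43721430967) (l 44258302263))) (c (a (l 67343751975) (l 111904034519)) (a (l 68417494071) (l 115125259943))))) (a (b (c (a (l 48553269703) (l 105998454071)) (a (l 50163882599) (l 110293421303))) (c (l 111367164391) (l 114588389831))) (l 4))) (b (a (a (b (c (l 101703491751) (l 105998453751)) (l 4)) (l 4)) (l 4)) (l 4))))), by decide +kernel⟩

def k20_mm_202 : ∃ t, chk3 f_mm_202 t 245 71 1 = true :=
  ⟨(b (a (b (c (a (b (c (c (l 22246592423) (l 16779592)) (l 22783464551)) (a (c (b (l 16779504) (l 80228652263)) (l 54458849207)) (c (l 102240362711) (l 106535330119)))) (a (b (a (b (l 52848237111) (l 92039814343)) (l 106535329703)) (l 4)) (l 4))) (a (b (c (l 22246594071) (c (l 16779728) (l 16779720))) (a (c (l 54995720311) (b (l 16780912) (l 87744845063))) (c (l 111367163111) (l 115662130359)))) (b (a (c (b (l 65733137767) (l 111904033799)) (b (l 66806879863) (l 115125259223))) (l 4)) (l 4)))) (l 4)) (l 4)) (l 4)),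 by decide +kernel⟩

def k21_mm_202 : ∃ t, chk3 f_mm_202 t 123 35 1 = true :=
  ⟨(b (a (b (c (a (b (c (l 16778920) (l 16779032)) (a (b (l 16780208) (a (l 16779864) (a (c (l 16779144) (l 16779208)) (b (l 32447141527) (l 90966071943))))) (a (b (c (l 16779512) (l 16778928)) (c (l 92576682983) (l 95261037623))) (b (b (c (l 44258299943) (l 44258300279)) (l 88818588599)) (l 4))))) (b (a (b (c (l 16778920) (c (l 16779632) (l 16779664))) (c (a (c (l 37815848711) (l 37815848871)) (b (l 82376135031) (l 4))) (a (c (l 37815849015) (l 37278978151)) (b (l 71101846103) (l 4))))) (b (a (c (b (l 38889590567) (l 93113553495)) (b (l 38889590839) (l 96334779047))) (c (l 114051517047) (l 112977775319))) (l 4))) (a (b (c (l 121567710503) (l 119420226983)) (l 4)) (l 4)))) (a (b (c (l 16779112) (l 16779168)) (a (b (l 16780336) (a (l 16780616) (a (c (l 16779240) (l 16779248)) (c (l 53385106663) (l 53921977543))))) (a (b (c (l 16778968) (l 16778976)) (b (c (l 77544297463) (l 78618039575)) (l 4))) (b (c (b (l 44795171399)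 (l 105998453079)) (b (l 45332042455) (l 110293420343))) (l 4))))) (b (b (a (a (l 16779288) (c (l 16778808) (l 16780128))) (a (c (b (l 38889590967) (l 101166617271)) (b (l 39426462039) (l 105998455447))) (c (l 110293423431) (l 114588390711)))) (a (a (c (c (l 37278978183) (l 37278978359)) (c (l 37278978359) (l 37278978343))) (b (c (l 71638717207) (l 72712459319)) (l 4))) (l 4))) (a (b (c (l 118883356135) (l 119420227063)) (l 4)) (l 4))))) (a (a (b (b (c (a (b (c (l 51237622103) (l 50163880535)) (l 92039814295)) (c (l 110830291991) (l 106535330055))) (a (c (b (l 53385106183) (l 111367162423)) (b (l 53921977223) (l 115662129687))) (c (l 110293426487) (l 114051517607)))) (l 4)) (l 4)) (l 4)) (l 4))) (l 4)) (l 4)), by decide +kernel⟩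

def k22_mm_202 : ∃ t, chk3 f_mm_202 t 31 17 1 = true :=
  ⟨(a (b (a (b (l 6) (a (a (b (a (b (l 6) (b (l 6) (l 4))) (l 6)) (l 4)) (l 4)) (l 4))) (l 4)) (l 4)) (l 4)), by decide +kernel⟩

def k23_mm_202 : ∃ t, chk3 f_mm_202 t 28 18 1 = true :=
  ⟨(c (b (a (c (l 16732128) (l 16740432)) (b (c (l 16753344) (l 16730472)) (c (l 16757880) (l 16756200)))) (a (c (l 16746032) (l 16744296)) (b (c (l 16762376) (l 16760904)) (c (l 16766832) (l 16765576))))) (b (a (c (l 16738232) (l 16736008)) (b (l 16748560) (l 16753688))) (a (b (l 16744568) (l 16749456)) (b (l 16758768) (l 16758552))))), by decide +kernel⟩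

def k24_mm_202 : ∃ t, chk3 f_mm_202 t 29 36 1 = true :=
  ⟨(a (a (c (b (l 16751712) (l 16766944)) (b (l 16759104) (l 16764328))) (c (b (l 16758328) (l 16763128)) (b (l 16755760) (l 16761048)))) (a (c (b (c (l 16765552) (l 16764528)) (c (l 16770288) (l 16769488))) (b (l 16763032) (l 16765752))) (b (c (c (b (l 16771024) (l 16773416)) (l 16769504)) (c (l 16765520) (l 16767480))) (b (c (l 16772560) (l 16771864)) (c (a (l 16776224) (l 16779760)) (a (l 16775288) (l 16780304))))))), by decide +kernel⟩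

def k25_mm_202 : ∃ t, chk3 f_mm_202 t 58 37 1 = true :=
  ⟨(a (c (b (l 16771640) (l 16776296)) (l 16765480)) (c (b (l 16767224) (c (l 16772920) (l 16782752))) (b (l 16766280) (l 16776688)))), by decide +kernel⟩

def k26_mm_202 : ∃ t, chk3 f_mm_202 t 118 37 1 = true :=
  ⟨(b (c (a (l 16772976) (l 16776392)) (c (l 16776504) (l 16776056))) (a (c (c (l 16779336) (l 16779768)) (c (l 16780104) (l 16780344))) (b (c (l 16783336) (l 16783872)) (a (c (c (l 16787136) (l 16782216)) (c (l 16782432) (l 16782544))) (b (c (c (l 16783776) (l 16784048)) (c (l 16784208) (l 16784280))) (c (a (c (l 48553274727) (l 50700758887)) (b (l 92576694375) (l 105461597927))) (c (a (l 53385113847) (l 107609070295)) (a (c (l 57680079895) (l 60901305047)) (l 112440908343))))))))), by decide +kernel⟩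

def k27_mm_202 : ∃ t, chk3 f_mm_202 t 119 37 1 = true :=
  ⟨(b (c (a (b (l 16778696) (c (l 16784184) (l 16784496))) (a (b (l 16783728) (b (c (l 16782576) (l 16782816)) (a (c (l 16781824) (l 16782024)) (b (c (l 58216949239) (l 60901304247)) (l 108682819303))))) (c (b (b (l 16785544) (l 16781800)) (b (a (c (l 46942659815) (l 47479530903)) (l 96334785303)) (l 105998464023))) (b (b (l 16785808) (l 16782024)) (b (a (c (l 48016402119) (l 49090144119)) (l 101166626327)) (l 109219689767)))))) (a (b (l 16779304) (a (l 16783192) (l 16783800))) (a (b (l 16784176) (b (l 16783024) (a (c (l 35668371719) (l 37815855399)) (b (c (l 64122530023) (l 71101851607)) (c (l 115662133383) (l 118883358711)))))) (b (b (l 16780816) (c (l 16782160) (l 19025372951))) (b (b (a (l 33520889639) (a (l 85060498087) (l 116199011623))) (a (c (l 77544303159) (l 81302398935)) (l 4))) (a (c (l 113514650887) (l 116735876247)) (l 4))))))) (a (b (c (b (b (c (l 16782464) (l 16782736)) (a (l 16787600) (a (l 16784744) (a (l 80228660247)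 (l 109219692743))))) (a (c (l 29225921031) (c (l 29225920423) (l 29762791527))) (a (b (l 74323080647) (l 108145946503)) (l 106535337463)))) (a (a (l 16782616) (b (l 16782848) (b (l 16784776) (a (l 16782792) (l 91502950167))))) (a (b (c (l 16779104) (l 16779152)) (b (c (l 79691786135) (l 89892332183)) (c (l 111367166823) (l 114051521223)))) (c (b (b (l 16779864) (l 89892335367)) (l 110293426135)) (b (b (l 16779856) (l 94724172935)) (l 112977780567)))))) (a (b (c (a (c (l 62511919239) (l 64659403479)) (b (l 109219690647) (l 4))) (c (a (b (l 16780104) (l 114588391687)) (l 115125263703)) (a (b (l 16779968) (l 119420229735)) (l 118346489015)))) (l 4)) (l 4))) (a (a (b (b (b (c (l 100629755287) (a (l 92039820631) (l 111367171495))) (l 4)) (l 4)) (l 4)) (l 4)) (l 4)))), by decide +kernel⟩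

def k28_mm_202 : ∃ t, chk3 f_mm_202 t 28 19 1 = true :=
  ⟨(b (a (c (b (l 16757040) (l 16761408)) (l 16752712)) (a (c (l 16761680) (l 16762336)) (c (b (l 16774144) (l 16778680)) (c (l 16772576) (l 16774536))))) (a (a (c (l 16764504) (l 16762592)) (c (l 16772888) (l 16771488))) (a (c (c (l 16781624) (l 16782376)) (b (l 16777712) (l 16788608))) (b (c (l 16783488) (l 16784464)) (a (b (c (l 16794024) (l 16794944)) (c (l 16788648) (l 16789472))) (b (c (c (l 16789352) (l 16789872)) (c (l 16784976) (l 16785144))) (a (c (c (l 46405797735) (b (l 16781552) (l 68954375047))) (b (l 16781896) (c (l 77007436439) (l 82913013383)))) (c (b (a (l 76470572599) (l 110830309719)) (l 110293440583)) (c (b (l 95797920871) (l 111367172183)) (b (l 101166628471) (l 114051526487))))))))))), by decide +kernel⟩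

def k29_mm_202 : ∃ t, chk3 f_mm_202 t 58 38 1 = true :=
  ⟨(a (c (b (l 16773056) (c (l 16784480) (l 16779800))) (b (l 16779792) (c (l 16785464) (l 16785760)))) (b (a (c (l 16777832) (l 16778640)) (b (c (l 16781488) (l 16782160)) (c (c (l 16781664) (l 16782048)) (c (l 16782320) (l 16783776))))) (a (b (c (c (l 16786040) (l 16786480)) (l 16786896)) (a (c (c (l 16784712) (l 16785096)) (b (l 16778896) (c (l 16786464) (l 44795181991)))) (b (c (c (l 44795181431) (l 47479536535)) (a (l 16786184) (c (l 72175596775) (l 84523625959)))) (c (c (l 99019148167) (l 105461588935)) (c (l 112440913463) (l 117272751447)))))) (b (b (c (a (l 16784392) (a (c (l 16783472) (l 55532598583)) (l 98482276231))) (a (l 16784840) (a (c (l 59827566119) (l 65196275015)) (c (l 113514651431) (l 117809618519))))) (b (a (c (c (l 16780784) (l 16781040)) (c (l 16781160) (l 16783752))) (c (l 109219696007) (c (l 111367169303) (l 114588394567)))) (a (c (a (l 16783504) (l 111904049447)) (c (l 82913014599) (a (l 16780752) (l 115125264343))))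 (l 4)))) (a (a (b (c (b (l 93650437031) (l 105998460279)) (c (l 117272748695) (l 121030844855))) (l 4)) (l 4)) (l 4)))))), by decide +kernel⟩

def k30_mm_202 : ∃ t, chk3 f_mm_202 t 58 39 1 = true :=
  ⟨(a (b (a (b (c (l 16784776) (l 16785552)) (a (c (l 16788760) (l 16789432)) (b (c (l 16779936) (l 16780496)) (c (c (l 50700763351) (l 54458860135)) (c (l 58753827703) (a (l 16782000) (l 93113565831))))))) (b (a (c (l 16784200) (l 16784784)) (c (b (l 16785840) (a (l 61438182807) (b (l 90429212503) (l 107072202551)))) (c (b (l 16780976) (a (l 74859950007) (l 117809620039))) (b (l 16781040) (a (l 88818591719) (l 122104587095)))))) (c (c (a (b (l 59827569335) (l 110293428711)) (l 107609086679)) (a (b (l 63048795575) (l 113514654503)) (b (l 111904042263) (l 4)))) (c (a (b (a (l 16782072) (l 94187307719)) (l 116735880007)) (b (l 111367171383) (l 4))) (a (b (a (l 16781736) (l 116199006711)) (l 120493976119)) (b (l 114051525671) (l 4))))))) (a (a (b (c (b (c (l 16781784) (l 16782136)) (a (l 84523635623)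 (l 111367181335))) (b (c (l 16782296) (l 16782272)) (c (l 111367172647) (a (l 107072209047) (l 114051525287))))) (b (c (l 105998474183) (c (l 110293431207) (l 112977785495))) (l 4))) (b (b (c (a (l 105461599895) (l 106535343559)) (c (l 116735879543) (l 121567717479))) (l 4)) (l 4))) (l 4))) (b (a (a (b (c (a (b (c (l 71101855239) (l 79691793783)) (l 105998472167)) (c (l 108145955783) (l 112440912919))) (c (b (a (l 84523631591) (l 116735878679)) (l 110293430055)) (b (a (l 90966081863) (l 115125265703)) (l 112977784375)))) (l 4)) (l 4)) (l 4)) (l 4))), by decide +kernel⟩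

def k31_mm_202 : ∃ t, chk3 f_mm_202 t 59 19 1 = true :=
  ⟨(b (a (b (a (b (b (c (c (l 16786416) (l 16786768)) (l 16787104)) (b (c (c (l 16783264) (l 16783592)) (c (l 16783800) (l 16783896))) (a (c (l 16788456) (l 16778416)) (c (c (l 56069468439) (l 58753823767)) (a (l 16783112) (c (l 96334786359) (l 105461591207))))))) (a (b (c (c (l 16782400) (l 16782688)) (c (l 34594632631) (c (l 16782888) (l 16782880)))) (c (a (c (l 65733146151) (l 68417501255)) (b (l 111367177927) (l 4))) (c (a (l 72712468391) (l 116199006535)) (a (l 81302401351) (l 119420231799))))) (b (c (a (b (l 79691792551) (l 109756565463)) (l 107609080247)) (c (a (l 103314103239) (l 110830297991)) (a (l 108145941271) (l 113514652359)))) (l 4)))) (b (b (b (a (c (c (l 16782592) (l 16782816)) (c (l 43184566071) (l 46405791543))) (a (a (c (l 110293435415) (l 112977784775)) (l 4)) (l 4))) (a (c (a (l 53385115399) (l 110293435559)) (a (c (l 16780360) (l 16780224)) (a (l 91502952775) (l 110293425623)))) (l 4))) (a (a (b (c (l 102240371591)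 (a (l 93650434711) (l 112440914263))) (l 4)) (l 4)) (l 4))) (l 4))) (a (a (a (b (b (b (c (l 105461588775) (l 110830303175)) (l 4)) (l 4)) (l 4)) (l 4)) (l 4)) (l 4))) (l 4)) (l 4)), by decide +kernel⟩

def k32_mm_202 : ∃ t, chk3 f_mm_202 t 120 36 1 = true :=
  ⟨(b (c (a (c (l 16772008) (l 16771496)) (b (l 16773984) (b (l 16778456) (l 16780856)))) (a (c (l 16771032) (l 16770608)) (b (l 16773248) (c (l 16779768) (l 16779912))))) (a (c (b (a (l 16779816) (l 16779960)) (a (l 16782216) (b (l 16781576) (a (c (l 16780792) (l 16780976)) (b (c (l 16781680) (l 16781824)) (c (l 93650429623) (l 99556004583))))))) (b (c (l 16781264) (l 16781440)) (a (l 16782592) (c (b (l 16781824) (a (l 16781088) (b (l 16781896) (l 104387842807)))) (b (l 16781904) (a (l 16781128) (b (l 44795175415) (l 108682809991)))))))) (b (c (a (c (l 16780648) (l 16780856)) (a (b (l 16781912) (c (b (l 16781248) (l 85597365287)) (b (l 16781392) (l 90966074551)))) (a (b (l 16781872) (c (l 96334784231) (l 100629751687))) (b (c (l 35131498039)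 (l 35668369383)) (l 4))))) (a (b (l 16779688) (c (l 16782376) (l 16782440))) (a (b (l 16782160) (b (c (l 16781464) (l 16781480)) (c (a (l 68417495207) (l 114588390055)) (l 100092876055)))) (b (b (l 16783112) (c (l 43184562279) (l 45332046151))) (a (c (l 105998460839) (l 110830295015)) (l 4)))))) (a (c (b (a (b (l 16783408) (c (l 50163884247) (l 51237626503))) (b (a (l 51774498807) (l 96334783863)) (l 114588398647))) (a (c (l 103314107191) (l 108145945591)) (l 4))) (b (c (a (c (l 35131498775) (l 35668369815)) (b (l 67343754615) (l 113514649047))) (a (b (l 16778376) (l 55532594183)) (b (l 68954367431) (l 116735874423)))) (a (c (l 114051520423) (l 117809616711)) (l 4)))) (l 4))))), by decide +kernel⟩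

def k33_mm_202 : ∃ t, chk3 f_mm_202 t 242 72 1 = true :=
  ⟨(c (b (a (l 16777896) (c (l 16779680) (l 16779864))) (a (b (l 16780560) (a (l 16781208) (a (c (l 31373401223) (l 31910272567)) (b (l 33520886343) (l 99556009063))))) (b (a (a (l 16781400) (c (l 27615304423) (l 28152175767))) (a (b (l 28152176823) (l 88818591991)) (b (c (l 61975042839) (l 63585656039)) (l 4)))) (a (b (c (l 87744848695) (a (l 68954365447) (l 109756551575))) (l 4)) (l 4))))) (a (b (l 16779336) (b (l 16780832) (b (c (l 16780216) (l 16780256)) (a (l 16782080) (c (a (l 56069463415) (l 112440905783)) (a (l 58753818071) (l 116199002071))))))) (b (c (l 16780000) (l 16780088)) (b (a (c (c (l 21709724151) (l 21709724359)) (c (l 21709724391) (l 21709724567))) (c (b (c (l 45332044407) (l 46405786407)) (l 107609067767)) (b (c (l 46942657479) (l 48016399255)) (l 111904034983)))) (b (a (c (a (l 71101849463) (l 112977777063)) (a (l 74323075015) (l 116199002455))) (l 4)) (l 4)))))), by decide +kernel⟩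

def k34_mm_202 : ∃ t, chk3 f_mm_202 t 243 72 1 = true :=
  ⟨(b (c (a (a (b (l 16780960) (c (b (l 16780376) (a (l 16779936) (l 90966073799))) (b (l 16780496) (a (l 16780032) (l 96334777799))))) (b (c (b (l 16781912) (l 16780672)) (l 16341014839)) (b (a (c (l 57143204359) (l 57680075559)) (l 111904039847)) (l 4)))) (b (a (a (b (l 16780656) (c (l 86134235303) (l 76470557847))) (b (c (l 51774494855) (l 52848237127)) (l 4))) (c (l 112977782583) (l 112440911847))) (l 4))) (a (a (b (l 16781184) (a (c (l 24930950167) (l 24930950375)) (b (l 24394080919) (c (l 83986751095) (l 87207977383))))) (b (c (l 15804144423) (c (l 16780224) (l 16780224))) (a (b (c (l 59827559415) (l 61438172407)) (l 4)) (c (l 112977782583) (l 116735873671))))) (b (a (c (b (c (l 37278980055) (l 37278980087)) (a (l 77544299863) (l 4))) (b (c (l 37815851159) (l 38352722215)) (a (l 79691783767) (l 4)))) (b (c (l 110293427415) (l 114588389399)) (l 4))) (l 4)))) (a (a (a (b (b (c (l 114588394679) (c (l 113514647687) (l 116735873079)))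 (l 4)) (l 4)) (l 4)) (l 4)) (l 4))), by decide +kernel⟩

def k35_mm_202 : ∃ t, chk3 f_mm_202 t 121 73 1 = true :=
  ⟨(a (a (b (b (b (c (a (c (l 52311367511) (l 53385109655)) (c (l 105461584903) (l 109219681447))) (a (c (c (l 57143205255) (l 56069463431)) (a (l 16778960) (l 83986751063))) (c (l 111904036055) (l 115125261447)))) (a (a (c (l 103850976679) (c (l 115125260647) (l 118883356935))) (l 4)) (l 4))) (l 4)) (l 4)) (l 4)) (l 4)), by decide +kernel⟩

def k36_mm_202 : ∃ t, chk3 f_mm_202 t 60 37 1 = true :=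
  ⟨(a (b (a (b (c (a (a (b (l 16782960) (b (c (l 48553271847) (l 50163885095)) (c (l 101703488759) (l 109219681687)))) (b (b (l 16783920) (a (l 49627015671) (l 93650432247))) (c (l 106535333335) (l 110293424663)))) (a (b (b (a (l 63585659911) (l 107072202759)) (l 106535332983)) (l 4)) (l 4))) (a (a (b (l 16783232) (b (c (l 52848239991) (l 56606336279)) (c (l 113514649015) (l 117809616183)))) (c (b (c (l 42110821511) (l 43184563447)) (l 114051521095)) (b (b (l 16778888) (l 68954367735)) (l 117272746471)))) (b (a (b (c (l 76470560775) (l 79154915399)) (c (l 110293424231) (l 112977778679))) (l 4)) (l 4)))) (l 4)) (l 4)) (l 4)) (l 4)), by decide +kernel⟩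

def k37_mm_202 : ∃ t, chk3 f_mm_202 t 61 18 1 = true :=
  ⟨(l 4), by decide +kernel⟩

def k38_mm_202 : ∃ t, chk3 f_mm_202 t 30 19 1 = true :=
  ⟨(l 4), by decide +kernel⟩

def k39_mm_202 : ∃ t, chk3 f_mm_202 t 31 9 1 = true :=
  ⟨(l 4), by decide +kernel⟩

def k40_mm_202 : ∃ t, chk3 f_mm_202 t 6 10 1 = true :=
  ⟨(a (a (b (c (b (l 16762936) (l 16809736)) (l 16684256)) (c (b (l 16837800) (l 16852136)) (l 16720560))) (b (c (b (l 16732128) (l 16779072)) (l 16719920)) (c (b (l 16805960) (l 16818432)) (b (l 16735592) (l 16750552))))) (b (c (a (b (a (l 16715736) (l 16734184)) (a (l 16761896) (l 16755072))) (a (b (l 16749680) (c (l 16776560) (l 16761544))) (b (a (l 16760992) (l 16768344)) (c (l 16783368) (l 16790072))))) (a (b (l 16734256) (l 16746344)) (a (b (l 16747400) (l 16759928)) (b (l 16771040) (b (l 16776648) (l 16785392)))))) (a (a (c (b (l 16786992) (l 16797160)) (l 16766328)) (c (b (l 16778184) (b (l 16785272) (l 16786288))) (b (l 16757384) (l 16793032)))) (a (b (c (l 16780576) (l 16786888))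 (a (c (b (l 16779952) (l 16779872)) (l 16786616)) (b (c (l 16783184) (l 16788208)) (c (b (c (l 49090153223) (l 49627022631)) (a (l 60901314087) (l 128547040199))) (a (l 46942672551) (b (l 75396831095) (l 133915747975))))))) (b (c (a (b (l 16793360) (c (l 26004697735) (l 27078442871))) (b (a (l 16785552) (b (l 16787248) (l 66806895271))) (a (b (l 54995732647) (l 123178347959)) (b (l 130694542935) (l 4))))) (a (b (l 16788288) (c (l 28152186887) (a (l 16794264) (l 37815864503)))) (b (a (l 16786048) (b (l 16789400) (a (l 16787944) (l 91502961175)))) (a (b (l 61438188983) (l 125325834167)) (b (l 126399578039) (l 4)))))) (a (b (c (a (b (l 16787912) (a (l 64122535159) (l 125862680119))) (b (l 114588411079) (l 4))) (a (b (l 16788944) (l 108682831719)) (b (l 117272768407) (l 4)))) (l 4)) (l 4))))))), by decide +kernel⟩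

def k41_mm_202 : ∃ t, chk3 f_mm_202 t 12 11 1 = true :=
  ⟨(b (c (a (b (l 16856416) (l 16853336)) (b (l 16799544) (a (l 16824584) (l 16806264)))) (a (b (l 16739776) (l 16763672)) (b (l 16762752) (a (l 16761360) (l 16784120))))) (a (c (b (l 16844936) (l 16811856)) (b (l 16777728) (l 16784336))) (b (c (a (l 16814704) (b (l 16798400) (l 16792240))) (a (l 16772784) (a (l 16793264) (l 16793984)))) (a (c (b (l 16805064) (l 16798168)) (l 16798192)) (a (c (b (l 16790584) (a (l 16788048) (b (l 16788720) (l 92039852039)))) (b (l 16777232) (a (l 16783264) (b (l 16784216) (l 89892366679))))) (a (b (c (b (l 16786016) (l 67343788135)) (l 16793072)) (b (c (l 100629783751) (l 94187303335)) (l 4))) (b (c (b (l 72712497303) (l 107609104359)) (b (l 16788480) (l 103314108391))) (l 4)))))))), by decide +kernel⟩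

def k42_mm_202 : ∃ t, chk3 f_mm_202 t 13 11 1 = true :=
  ⟨(b (a (a (c (b (l 16796800) (b (l 16791624) (a (l 16790760) (a (l 16784712) (l 34057775367))))) (b (l 16773328) (a (l 16787736) (b (l 16767648) (l 16786576))))) (c (b (a (l 16786600) (b (l 16782240) (a (l 16790792) (a (l 44795190311) (l 65196291687))))) (a (b (c (l 35131516503) (l 34594643015)) (b (a (l 49627031223) (l 104924743655)) (l 105461623975))) (b (a (b (l 69491257623) (l 117272775543)) (l 133915758743)) (l 4)))) (b (a (l 16783984) (b (l 16788240) (a (l 16794568) (l 56606353111)))) (a (b (c (l 34594640759) (l 16785680)) (a (b (l 16790024) (l 115662135463)) (l 126936430103))) (b (a (b (l 69491252103) (l 132305136199)) (l 132305142055)) (l 4)))))) (a (b (a (b (a (c (l 33520896855) (l 16784208)) (b (c (l 50163894791) (l 16787608)) (c (l 111367189495) (l 121567713543)))) (a (b (c (l 101703512055) (l 111904056679)) (l 4)) (l 4))) (b (a (b (c (l 121030846119) (l 131768262359)) (l 4)) (l 4)) (l 4))) (l 4)) (l 4))) (a (a (b (a (b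 (c (l 16785272) (l 16797352)) (a (c (b (l 16784464) (l 77007463991)) (l 46942681655)) (b (c (l 83986785239) (l 85597394567)) (c (l 117809630551) (l 126399558631))))) (b (a (b (c (l 16783552) (l 16779928)) (c (l 87744879959) (l 84523642567))) (b (c (l 85597390087) (l 94724190039)) (l 4))) (a (b (c (l 121567727479) (l 129620785111)) (l 4)) (l 4)))) (a (b (b (c (l 116735913671) (l 117809648503)) (l 4)) (l 4)) (l 4))) (l 4)) (l 4))), by decide +kernel⟩

def k43_mm_202 : ∃ t, chk3 f_mm_202 t 56 20 1 = true :=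
  ⟨(b (a (c (l 16778160) (l 16779776)) (b (c (l 16785184) (l 16786576)) (a (c (l 16791440) (l 16792960)) (b (c (l 16795080) (l 16796440)) (c (l 16789056) (l 16790352)))))) (a (b (c (l 16791608) (l 16782928)) (a (b (l 16788392) (c (l 16786160) (l 40500221335))) (c (b (a (l 16788936) (l 58753830583)) (a (l 77544313783) (l 121030846199))) (b (c (l 46942669799) (l 49627025927)) (a (l 93650448471) (l 118883385191)))))) (b (c (a (b (l 16787632) (a (l 16790352) (l 71101863911))) (b (a (l 51237638055) (l 101703507543)) (l 122104605911))) (a (b (l 16789152) (a (l 16786464) (b (l 76470574631) (l 119957114135)))) (b (a (c (l 16786936) (l 58216958967)) (b (l 88818604967) (l 112440912695))) (a (b (l 118346502295) (l 4)) (l 4))))) (a (b (c (l 115662152855) (a (l 112977797895) (l 4))) (l 4)) (l 4))))), by decide +kernel⟩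

def k44_mm_202 : ∃ t, chk3 f_mm_202 t 57 20 1 = true :=
  ⟨(b (a (b (a (c (c (l 16793720) (l 16794504)) (l 16795320)) (b (c (l 16787320) (l 16788320)) (a (c (l 16790360) (l 16791304)) (b (c (l 16786736) (l 16787408)) (c (l 81839283143) (c (l 86671118039) (l 106535330615))))))) (a (b (c (c (l 16784760) (l 16785512)) (c (l 16786688) (l 36205251687))) (a (c (b (l 16786672) (l 96871674391)) (c (l 67880637255) (l 71638734119))) (c (l 113514669655) (c (l 117272751079) (l 120493976599))))) (b (c (a (b (l 68954378295) (l 110293438647)) (b (l 109756568711) (l 4))) (c (a (b (l 78618048023) (l 116735879767)) (l 111367172919)) (a (b (l 84523634311) (l 114588396087)) (l 114588398359)))) (l 4)))) (b (a (a (b (c (c (l 16780840) (l 16781392)) (c (l 16781736) (l 16787120))) (c (b (l 96871664967) (l 105998473271)) (b (a (l 92576699495) (l 112977793799)) (a (l 111367171527) (l 4))))) (b (c (b (l 58216960391) (l 105998471415)) (b (c (l 64122536823) (l 73786210903)) (c (l 118346492311) (l 121567717623)))) (l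 4))) (a (a (b (b (c (l 112440922471) (b (l 97408535175) (l 110830300247))) (l 4)) (l 4)) (l 4)) (l 4))) (l 4))) (a (b (a (b (c (l 121030866119) (c (l 111367185479) (l 114588400679))) (l 4)) (l 4)) (l 4)) (l 4))), by decide +kernel⟩

def k45_mm_202 : ∃ t, chk3 f_mm_202 t 29 20 1 = true :=
  ⟨(l 4), by decide +kernel⟩

def k46_mm_202 : ∃ t, chk3 f_mm_202 t 14 21 1 = true :=
  ⟨(a (a (b (a (c (b (a (b (a (l 64659409607) (l 118346510471)) (l 129620803271)) (l 4)) (l 4)) (b (a (b (a (l 80765544951) (l 120493975015)) (l 125325838215)) (l 4)) (l 4))) (l 4)) (l 4)) (l 4)) (l 4)), by decide +kernel⟩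

def k47_mm_202 : ∃ t, chk3 f_mm_202 t 15 10 1 = true :=
  ⟨(l 4), by decide +kernel⟩

def k48_mm_202 : ∃ t, chk3 f_mm_202 t 7 11 1 = true :=
  ⟨(l 4), by decide +kernel⟩

def k49_mm_202 : ∃ t, chk3 f_mm_202 t 3 3 1 = true :=
  ⟨(b (a (b (a (b (a (b (c (a (l 16829400) (l 16807888)) (a (l 16789376) (l 16803240))) (a (c (l 16814112) (l 16787520)) (b (a (l 16792424) (c (l 16793920) (l 16792400))) (a (c (l 16796672) (l 16788104)) (c (a (b (l 16796024) (l 80228696631)) (b (l 88281748263) (l 114051550535))) (a (b (l 16790112) (l 83986792567)) (b (l 88818629783) (l 119957118583)))))))) (b (b (a (a (l 16797888) (c (a (l 16790128) (b (l 16790048) (l 80228692663))) (c (l 37815872279) (l 37815877415)))) (c (a (a (b (l 85060532663) (l 116199024871)) (l 4)) (l 4)) (a (a (l 90429251959) (l 4)) (l 4)))) (a (a (c (c (l 44795188215) (l 44795183271)) (c (l 44795178183) (l 45332043815))) (c (a (b (l 73249371767) (l 105998479895)) (l 116735899255)) (a (b (l 75396853671) (l 112977791335)) (l 124252082007))))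 (l 4))) (a (b (a (c (a (b (l 16794320) (l 94724196631)) (l 109219728999)) (a (b (l 16788816) (l 100092894247)) (l 115662169015))) (l 4)) (l 4)) (l 4)))) (a (b (c (a (a (l 16805160) (b (l 16799552) (a (l 16800600) (b (l 16800504) (l 95261079927))))) (a (b (a (l 57680101911) (b (l 75396859527) (l 104387878903))) (a (l 107609106359) (l 4))) (b (l 118883394167) (l 4)))) (a (b (l 16806880) (a (l 16790104) (a (l 16793848) (b (l 16793896) (l 98482291735))))) (a (b (a (l 58753833975) (b (l 72712473447) (l 109756575319))) (l 119420268711)) (b (l 125325853047) (l 4))))) (c (a (a (b (a (l 16802416) (l 72712506935)) (a (l 91502991767) (l 4))) (b (a (l 100092920359) (l 4)) (l 4))) (l 4)) (a (a (b (a (l 16795264) (l 74859963047)) (a (l 95797944055) (l 4))) (b (a (l 104387873335) (l 4)) (l 4))) (l 4)))) (l 4))) (l 4)) (a (l 4) (l 4))) (l 4)) (l 4)), by decide +kernel⟩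

theorem s50_mm_202 : ∃ t, chk3 f_mm_202 t 28 20 1 = true := ex3_a k43_mm_202 k44_mm_202

theorem s51_mm_202 : ∃ t, chk3 f_mm_202 t 14 20 1 = true := ex3_a s50_mm_202 k45_mm_202

theorem s52_mm_202 : ∃ t, chk3 f_mm_202 t 14 10 1 = true := ex3_b s51_mm_202 k46_mm_202

theorem s53_mm_202 : ∃ t, chk3 f_mm_202 t 7 10 1 = true := ex3_a s52_mm_202 k47_mm_202

theorem s54_mm_202 : ∃ t, chk3 f_mm_202 t 7 5 1 = true := ex3_b s53_mm_202 k48_mm_202

theorem s55_mm_202 : ∃ t, chk3 f_mm_202 t 6 11 1 = true := ex3_a k41_mm_202 k42_mm_202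

theorem s56_mm_202 : ∃ t, chk3 f_mm_202 t 6 5 1 = true := ex3_b k40_mm_202 s55_mm_202

theorem s57_mm_202 : ∃ t, chk3 f_mm_202 t 3 5 1 = true := ex3_a s56_mm_202 s54_mm_202

theorem s58_mm_202 : ∃ t, chk3 f_mm_202 t 121 72 1 = true := ex3_a k33_mm_202 k34_mm_202

theorem s59_mm_202 : ∃ t, chk3 f_mm_202 t 121 36 1 = true := ex3_b s58_mm_202 k35_mm_202

theorem s60_mm_202 : ∃ t, chk3 f_mm_202 t 60 36 1 = true := ex3_a k32_mm_202 s59_mm_202

theorem s61_mm_202 : ∃ t, chk3 f_mm_202 t 60 18 1 = true := ex3_b s60_mm_202 k36_mm_202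

theorem s62_mm_202 : ∃ t, chk3 f_mm_202 t 30 18 1 = true := ex3_a s61_mm_202 k37_mm_202

theorem s63_mm_202 : ∃ t, chk3 f_mm_202 t 30 9 1 = true := ex3_b s62_mm_202 k38_mm_202

theorem s64_mm_202 : ∃ t, chk3 f_mm_202 t 15 9 1 = true := ex3_a s63_mm_202 k39_mm_202

theorem s65_mm_202 : ∃ t, chk3 f_mm_202 t 58 19 1 = true := ex3_b k29_mm_202 k30_mm_202

theorem s66_mm_202 : ∃ t, chk3 f_mm_202 t 29 19 1 = true := ex3_a s65_mm_202 k31_mm_202

theorem s67_mm_202 : ∃ t, chk3 f_mm_202 t 14 19 1 = true := ex3_a k28_mm_202 s66_mm_202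

theorem s68_mm_202 : ∃ t, chk3 f_mm_202 t 59 37 1 = true := ex3_a k26_mm_202 k27_mm_202

theorem s69_mm_202 : ∃ t, chk3 f_mm_202 t 29 37 1 = true := ex3_a k25_mm_202 s68_mm_202

theorem s70_mm_202 : ∃ t, chk3 f_mm_202 t 29 18 1 = true := ex3_b k24_mm_202 s69_mm_202

theorem s71_mm_202 : ∃ t, chk3 f_mm_202 t 14 18 1 = true := ex3_a k23_mm_202 s70_mm_202

theorem s72_mm_202 : ∃ t, chk3 f_mm_202 t 14 9 1 = true := ex3_b s71_mm_202 s67_mm_202

theorem s73_mm_202 : ∃ t, chk3 f_mm_202 t 7 9 1 = true := ex3_a s72_mm_202 s64_mm_202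

theorem s74_mm_202 : ∃ t, chk3 f_mm_202 t 122 71 1 = true := ex3_a k19_mm_202 k20_mm_202

theorem s75_mm_202 : ∃ t, chk3 f_mm_202 t 122 35 1 = true := ex3_b k18_mm_202 s74_mm_202

theorem s76_mm_202 : ∃ t, chk3 f_mm_202 t 61 35 1 = true := ex3_a s75_mm_202 k21_mm_202

theorem s77_mm_202 : ∃ t, chk3 f_mm_202 t 30 35 1 = true := ex3_a k17_mm_202 s76_mm_202

theorem s78_mm_202 : ∃ t, chk3 f_mm_202 t 247 69 1 = true := ex3_b k15_mm_202 k16_mm_202

theorem s79_mm_202 : ∃ t, chk3 f_mm_202 t 123 69 1 = true := ex3_a k14_mm_202 s78_mm_202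

theorem s80_mm_202 : ∃ t, chk3 f_mm_202 t 123 34 1 = true := ex3_b k13_mm_202 s79_mm_202

theorem s81_mm_202 : ∃ t, chk3 f_mm_202 t 61 34 1 = true := ex3_a k12_mm_202 s80_mm_202

theorem s82_mm_202 : ∃ t, chk3 f_mm_202 t 30 34 1 = true := ex3_a k11_mm_202 s81_mm_202

theorem s83_mm_202 : ∃ t, chk3 f_mm_202 t 30 17 1 = true := ex3_b s82_mm_202 s77_mm_202

theorem s84_mm_202 : ∃ t, chk3 f_mm_202 t 15 17 1 = true := ex3_a s83_mm_202 k22_mm_202

theorem s85_mm_202 : ∃ t, chk3 f_mm_202 t 15 8 1 = true := ex3_b k10_mm_202 s84_mm_202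

theorem s86_mm_202 : ∃ t, chk3 f_mm_202 t 14 8 1 = true := ex3_b k8_mm_202 k9_mm_202

theorem s87_mm_202 : ∃ t, chk3 f_mm_202 t 7 8 1 = true := ex3_a s86_mm_202 s85_mm_202

theorem s88_mm_202 : ∃ t, chk3 f_mm_202 t 7 4 1 = true := ex3_b s87_mm_202 s73_mm_202

theorem s89_mm_202 : ∃ t, chk3 f_mm_202 t 6 4 1 = true := ex3_b k6_mm_202 k7_mm_202

theorem s90_mm_202 : ∃ t, chk3 f_mm_202 t 3 4 1 = true := ex3_a s89_mm_202 s88_mm_202

theorem s91_mm_202 : ∃ t, chk3 f_mm_202 t 3 2 1 = true := ex3_b s90_mm_202 s57_mm_202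

theorem s92_mm_202 : ∃ t, chk3 f_mm_202 t 3 1 1 = true := ex3_b s91_mm_202 k49_mm_202

theorem s93_mm_202 : ∃ t, chk3 f_mm_202 t 5 6 1 = true := ex3_b k3_mm_202 k4_mm_202

theorem s94_mm_202 : ∃ t, chk3 f_mm_202 t 2 6 1 = true := ex3_a k2_mm_202 s93_mm_202

theorem s95_mm_202 : ∃ t, chk3 f_mm_202 t 2 3 1 = true := ex3_b s94_mm_202 k5_mm_202

theorem s96_mm_202 : ∃ t, chk3 f_mm_202 t 2 2 1 = true := ex3_b k0_mm_202 k1_mm_202

theorem s97_mm_202 : ∃ t, chk3 f_mm_202 t 2 1 1 = true := ex3_b s96_mm_202 s95_mm_202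

theorem s98_mm_202 : ∃ t, chk3 f_mm_202 t 1 1 1 = true := ex3_a s97_mm_202 s92_mm_202

theorem c_mm_202 : CertN 0 536870912 0 536870912 201326592 134217728 3 true false false .pp 2 0 2
    ndN0q2 ndN0q0 pcN2 cut_mm_202 Ext.none :=
  certN0 (fam := true) (s1 := false) (s2 := false) (a := 2) (b := 0) (c := 2) (cn := .pp) (n1 := ndN0q2) (n2 := ndN0q0) (pc := pcN2) (cut := cut_mm_202) (xt := Ext.none) (P1 := 0) (W1 := 536870912) (P2 := 0) (W2 := 536870912) (P3 := 201326592) (W3 := 134217728) (N0 := 3)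
    rfl s98_mm_202

noncomputable def f_mm_203 : ℕ → ℕ → ℕ → ℕ → Bool := onCell 0 536870912 0 536870912 201326592 134217728
    (rowN 3 0 true false false .up 2 0 3 (qsf 0 536870912 0 536870912 3) ndN0q2 ndN0q0 pcN3 Cut.none Ext.none)

def k0_mm_203 : ∃ t, chk3 f_mm_203 t 2 2 1 = true :=
  ⟨(l 1), by decide +kernel⟩

def k1_mm_203 : ∃ t, chk3 f_mm_203 t 2 6 1 = true :=
  ⟨(a (b (l 1) (c (a (b (l 1) (c (l 17163144) (l 17073432))) (b (l 1) (a (c (l 17076864) (l 17008336)) (b (l 16999832) (l 16978800))))) (b (a (l 1) (l 1)) (a (a (l 16965336) (l 16940968)) (a (b (l 16918264) (l 16911616)) (b (l 16891136) (l 16883944))))))) (b (l 1) (a (b (l 1) (c (a (b (c (l 16966552) (l 16923320)) (c (l 16942064) (l 16906024))) (b (c (l 231425147415) (l 219613946167)) (a (c (l 16894504) (l 16870056)) (c (b (l 16868800) (l 16857744)) (b (l 16850744) (l 16822496)))))) (a (b (c (l 16882344) (l 16844488)) (c (l 16871752) (l 16839864))) (b (c (l 195454689879) (l 211023933431)) (a (c (l 16846416) (l 16823888)) (a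 (b (l 16827280) (l 16826168)) (b (l 16823992) (c (l 16827960) (l 16818104))))))))) (b (l 1) (a (b (l 1) (a (c (b (a (c (l 16846024) (l 16835056)) (l 1)) (a (b (c (l 16838944) (l 16830712)) (a (c (l 16837816) (l 16830144)) (c (l 56606438103) (l 58753908487)))) (a (b (c (l 63585756871) (l 60901388711)) (l 4)) (l 4)))) (b (a (c (l 16825152) (l 16815896)) (l 1)) (a (b (c (l 16822856) (a (l 16816224) (l 16814448))) (a (c (l 16822784) (l 16815728)) (c (a (l 54458930727) (l 69491313079)) (b (a (l 16814368) (l 64659463511)) (a (l 63048851799) (l 82376203431)))))) (b (a (c (a (l 56606412311) (l 72175664743)) (a (b (l 16813040) (l 66270074503)) (b (l 68954427799) (l 4)))) (l 4)) (l 4))))) (b (l 1) (l 4)))) (b (l 1) (l 4))))))), by decide +kernel⟩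

def k2_mm_203 : ∃ t, chk3 f_mm_203 t 4 14 1 = true :=
  ⟨(a (b (b (c (l 17083120) (l 16942224)) (c (l 17056272) (l 16931480))) (c (a (l 17038768) (b (l 17005136) (l 16977760))) (a (l 16926512) (b (l 16906440) (l 16893288))))) (c (b (a (b (l 17008464) (l 16982232)) (b (c (l 16977888) (l 16934560)) (c (l 16948160) (l 16912424)))) (a (b (l 16955720) (l 16907984)) (b (a (l 16917280) (l 16849032)) (c (l 16867880) (l 16846768))))) (b (a (b (l 16902888) (l 16891384)) (b (c (l 16893872) (l 16856696)) (c (l 16878800) (l 16847952)))) (a (b (l 16878896) (l 16865600)) (b (c (l 16863240) (l 16838384)) (a (l 16844720) (c (l 16839768) (l 16823528)))))))), by decide +kernel⟩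

def k3_mm_203 : ∃ t, chk3 f_mm_203 t 20 28 1 = true :=
  ⟨(a (c (b (l 16915216) (c (l 16902368) (l 16877320))) (b (l 16853424) (c (l 16853336) (l 16830744)))) (c (b (c (l 16900312) (l 16875304)) (c (l 16871688) (l 16854304))) (b (c (l 16851208) (l 16828360)) (c (l 16837368) (b (l 16822736) (l 16819560)))))), by decide +kernel⟩

def k4_mm_203 : ∃ t, chk3 f_mm_203 t 21 28 1 = true :=
  ⟨(b (a (c (c (b (l 16876344) (l 16862464)) (b (l 16857344) (l 16847440))) (c (b (l 16838776) (l 16832664)) (b (l 16821120) (l 16820240)))) (c (c (a (b (l 16853736) (l 31373508263)) (b (b (l 16842920) (l 43184665863)) (a (b (l 16835352) (l 73786306503)) (l 86134335799)))) (a (b (l 16841224) (b (l 16835152) (l 43184656567))) (b (b (l 16834128) (a (l 16832392) (l 50700848775))) (b (a (l 49627106919) (l 76470648503)) (l 85060584967))))) (b (a (c (l 16829952) (l 16819600)) (b (c (l 16825672) (a (l 16818384) (l 16816808))) (a (c (l 16824576) (l 16817112)) (c (a (l 16822200) (l 57143287127)) (a (l 42110889191) (b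 (l 53922046967) (l 68417561751))))))) (b (a (c (l 16826376) (l 16818064)) (a (c (l 51774579431) (b (l 16815928) (l 58753887399))) (b (c (l 74323153367) (l 74860012615)) (l 4)))) (a (a (l 16821320) (c (l 50700837303) (c (l 52848311223) (l 54458918327)))) (a (a (c (l 67343832039) (l 68417562119)) (l 4)) (l 4))))))) (a (a (c (b (l 16828744) (c (l 16843448) (l 16834696))) (b (l 16824952) (c (l 16826112) (l 37279053799)))) (c (c (b (l 16842528) (a (l 51237733255) (l 74860048807))) (b (l 16834048) (a (l 52311468727) (l 73249423975)))) (b (c (b (l 16826872) (l 16824424)) (b (l 16818304) (l 40500280231))) (a (b (c (l 16823208) (l 16816472)) (c (l 64659481687) (l 65733208615))) (b (c (l 65733220151) (l 67343821015)) (l 4)))))) (a (b (c (c (a (l 52848341047) (l 82376240503)) (b (a (l 16829408) (l 68954456711)) (l 80765616055))) (a (b (c (l 16822656) (l 45332116887)) (c (l 67343832487) (l 68417562503))) (b (a (c (l 65196350871) (l 66270078823)) (l 4)) (l 4)))) (l 4)) (l 4)))), by decide +kernel⟩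

def k5_mm_203 : ∃ t, chk3 f_mm_203 t 10 29 1 = true :=
  ⟨(a (b (c (a (c (l 16852504) (l 16834896)) (b (c (l 16851152) (l 16839744)) (a (l 16840464) (c (l 63585776839) (a (l 16830184) (l 65733232919)))))) (a (c (l 16838800) (l 16822424)) (b (c (l 16828624) (a (l 16819128) (l 16818080))) (a (c (l 16826688) (l 16818120)) (b (c (l 54458932887) (l 57680151607)) (c (l 67343833703) (l 68417563543))))))) (a (c (b (c (l 16852720) (l 16840896)) (a (l 16841560) (c (l 48553366871) (l 51237720967)))) (b (c (l 16829296) (l 16818464)) (a (l 16843400) (c (l 53385202503) (a (l 16816912) (l 62511992423)))))) (a (a (c (b (l 44795286615) (b (l 73249431575) (l 4))) (b (c (l 16823592) (l 49090215303)) (b (l 76470632119) (l 4)))) (b (c (b (l 16831800) (l 74860042663)) (b (l 56606413559) (l 78081244631))) (l 4))) (a (b (b (c (l 77007525735) (l 79154986231)) (l 4)) (l 4)) (l 4))))) (b (a (a (b (c (a (c (l 16836624) (l 50163984711)) (b (l 60901407751) (l 4))) (b (c (l 56069546695) (l 58753893687)) (c (l 72712542151)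 (l 74323153495)))) (l 4)) (l 4)) (l 4)) (l 4))), by decide +kernel⟩

def k6_mm_203 : ∃ t, chk3 f_mm_203 t 11 14 1 = true :=
  ⟨(b (a (b (a (a (b (c (a (b (c (l 54458956711) (l 55532687959)) (c (l 78081272743) (l 78618131671))) (b (c (l 81839368391) (l 81302485559)) (l 4))) (b (b (a (c (l 50700834359) (c (l 52848309143) (l 54995787047))) (a (c (l 77007507079) (l 78618108231)) (l 4))) (a (c (l 60901381335) (a (l 55532659783) (l 74860012343))) (l 4))) (a (c (l 78618130391) (c (l 78618111207) (l 79154976375))) (l 4)))) (l 4)) (l 4)) (l 4)) (l 4)) (l 4)) (l 4)), by decide +kernel⟩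

def k7_mm_203 : ∃ t, chk3 f_mm_203 t 4 15 1 = true :=
  ⟨(a (c (b (a (b (l 16997128) (l 16970104)) (b (l 16950592) (l 16924184))) (b (c (l 16916112) (l 16906008)) (a (l 16918416) (a (l 16885176) (l 16863168))))) (b (a (l 16899664) (b (l 16879512) (l 16865512))) (a (b (l 16878456) (l 16864248)) (b (a (l 16858192) (l 16844920)) (a (l 16844336) (l 16831880)))))) (b (b (a (c (a (l 16914792) (l 16890384)) (a (l 16858936) (l 16845232))) (a (c (l 16855216) (c (l 16840272) (l 16824296))) (c (b (l 16847584) (c (l 40500306439) (l 43184660839))) (b (c (l 16829808) (l 16818312)) (a (l 16822320) (c (l 51237717447) (l 53385190215))))))) (a (c (a (l 16889040) (l 16865368)) (a (l 16845280) (l 16832440))) (b (a (c (l 16847928) (l 16824248)) (b (a (c (l 16834832) (l 16820552)) (c (l 75396913287) (l 74860019287))) (a (c (l 57680180887) (l 61438260727)) (l 4)))) (a (c (c (l 16820912) (l 16833520)) (c (l 44258398311) (l 45869002199))) (a (b (c (l 68954450455) (l 72712535831)) (l 4)) (l 4)))))) (a (b (c (a (l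 16864456) (b (l 16847840) (c (l 16841760) (l 16833264)))) (a (l 16832312) (b (l 16824248) (a (l 16822096) (l 50700850615))))) (a (c (b (l 16847264) (l 43184664087)) (b (l 16823968) (a (l 16821688) (l 16819512)))) (a (b (c (l 16832880) (l 16830208)) (c (l 76470674551) (b (l 68417581175) (l 81302467335)))) (b (c (l 77544416583) (b (l 69491323815) (l 82376209271))) (l 4))))) (b (a (a (c (b (l 47479631223) (b (l 66806971223) (l 86134327463))) (b (c (l 16823504) (l 16816568)) (b (l 70028195303) (l 83986822039)))) (a (b (c (l 74860052567) (c (l 70565066071) (l 73249408679))) (l 4)) (l 4))) (l 4)) (l 4))))), by decide +kernel⟩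

def k8_mm_203 : ∃ t, chk3 f_mm_203 t 5 15 1 = true :=
  ⟨(a (b (a (b (a (a (c (b (c (l 48016500103) (l 50700854359)) (a (l 78081288567) (l 4))) (b (c (l 52311460039) (l 54458932471)) (c (l 86134312407) (l 84523688407)))) (a (b (b (c (l 70028209255) (l 74323157047)) (l 4)) (l 4)) (l 4))) (l 4)) (l 4)) (l 4)) (l 4)) (l 4)), by decide +kernel⟩

def k9_mm_203 : ∃ t, chk3 f_mm_203 t 3 1 1 = true :=
  ⟨(b (l 1) (b (a (l 1) (l 1)) (l 4))), by decide +kernel⟩

theorem s10_mm_203 : ∃ t, chk3 f_mm_203 t 2 15 1 = true := ex3_a k7_mm_203 k8_mm_203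

theorem s11_mm_203 : ∃ t, chk3 f_mm_203 t 10 28 1 = true := ex3_a k3_mm_203 k4_mm_203

theorem s12_mm_203 : ∃ t, chk3 f_mm_203 t 10 14 1 = true := ex3_b s11_mm_203 k5_mm_203

theorem s13_mm_203 : ∃ t, chk3 f_mm_203 t 5 14 1 = true := ex3_a s12_mm_203 k6_mm_203

theorem s14_mm_203 : ∃ t, chk3 f_mm_203 t 2 14 1 = true := ex3_a k2_mm_203 s13_mm_203

theorem s15_mm_203 : ∃ t, chk3 f_mm_203 t 2 7 1 = true := ex3_b s14_mm_203 s10_mm_203

theorem s16_mm_203 : ∃ t, chk3 f_mm_203 t 2 3 1 = true := ex3_b k1_mm_203 s15_mm_203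

theorem s17_mm_203 : ∃ t, chk3 f_mm_203 t 2 1 1 = true := ex3_b k0_mm_203 s16_mm_203

theorem s18_mm_203 : ∃ t, chk3 f_mm_203 t 1 1 1 = true := ex3_a s17_mm_203 k9_mm_203

theorem c_mm_203 : CertN 0 536870912 0 536870912 201326592 134217728 3 true false false .up 2 0 3
    ndN0q2 ndN0q0 pcN3 Cut.none Ext.none :=
  certN0 (fam := true) (s1 := false) (s2 := false) (a := 2) (b := 0) (c := 3) (cn := .up) (n1 := ndN0q2) (n2 := ndN0q0) (pc := pcN3) (cut := Cut.none) (xt := Ext.none) (P1 := 0) (W1 := 536870912) (P2 := 0) (W2 := 536870912) (P3 := 201326592) (W3 := 134217728) (N0 := 3)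
    rfl s18_mm_203

noncomputable def f_mm_213 : ℕ → ℕ → ℕ → ℕ → Bool := onCell 0 536870912 536870912 536870912 201326592 134217728
    (rowN 3 0 true false false .pnn 2 1 3 (qsf 0 536870912 536870912 536870912 3) ndN0q2 ndN0q1 pcN3 Cut.none Ext.none)

def k0_mm_213 : ∃ t, chk3 f_mm_213 t 1 1 1 = true :=
  ⟨(a (b (b (b (a (b (a (b (a (c (l 16894168) (l 16850304)) (c (a (l 16861816) (b (l 16846400) (l 16836288))) (a (l 16831352) (b (l 16823488) (l 48016496455))))) (a (c (l 16850024) (l 16847336)) (a (c (b (l 16845416) (l 16835376)) (b (l 16822888) (l 16818720))) (a (c (b (l 16831536) (l 81839394519)) (b (l 16818352) (l 70565047911))) (b (c (l 82376267671) (l 71101918359)) (l 4)))))) (a (b (a (a (b (c (l 16832312) (l 16819256)) (c (l 83450012359) (c (l 71638798871) (l 73786279911)))) (b (c (l 83986884695) (b (l 67880709671) (l 79691859463))) (l 4))) (l 4)) (l 4)) (l 4))) (a (a (c (a (b (l 16859032) (b (l 16842872) (l 16832864))) (b (b (l 16844272) (l 16834240)) (b (a (l 16829360) (l 80228777063))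 (l 83450028759)))) (a (b (l 16830128) (b (l 16821296) (l 16816744))) (b (b (l 16822176) (l 16817800)) (b (a (l 16816264) (l 71101922999)) (a (l 72175666775) (l 4)))))) (b (a (c (b (a (l 16830560) (l 81302522039)) (a (l 80765649559) (l 4))) (b (a (l 16817352) (l 70028176887)) (a (l 70565049735) (l 4)))) (l 4)) (l 4))) (l 4))) (l 4)) (a (a (b (a (c (b (a (b (l 76470702599) (l 83450005143)) (l 4)) (l 4)) (b (a (b (a (l 16815072) (l 72712538743)) (a (l 73249409975) (l 4))) (l 4)) (l 4))) (l 4)) (l 4)) (l 4)) (l 4))) (l 4)) (l 4)) (l 4)), by decide +kernel⟩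

theorem c_mm_213 : CertN 0 536870912 536870912 536870912 201326592 134217728 3 true false false .pnn 2 1 3
    ndN0q2 ndN0q1 pcN3 Cut.none Ext.none :=
  certN0 (fam := true) (s1 := false) (s2 := false) (a := 2) (b := 1) (c := 3) (cn := .pnn) (n1 := ndN0q2) (n2 := ndN0q1) (pc := pcN3) (cut := Cut.none) (xt := Ext.none) (P1 := 0) (W1 := 536870912) (P2 := 536870912) (W2 := 536870912) (P3 := 201326592) (W3 := 134217728) (N0 := 3)
    rfl k0_mm_213

end Pool.Agent.Strip051.G.I3_16_5_16.Tab.C.NA00

namespace Pool.Agent.Strip051.G.I3_16_5_16.Tab.C.NA01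

open Pool.Agent.Strip051.PB Pool.Agent.Strip051.PB.T
open Pool.Agent.Strip051.G.I3_16_5_16.Tab

noncomputable def f_pp_001 : ℕ → ℕ → ℕ → ℕ → Bool := onCell 0 536870912 0 536870912 201326592 134217728
    (rowN 3 0 true true true .up 0 0 1 (qsf 0 536870912 0 536870912 1) ndN0q0 ndN1q0 pcN1 Cut.none Ext.none)

def k0_pp_001 : ∃ t, chk3 f_pp_001 t 1 1 1 = true :=
  ⟨(l 4), by decide +kernel⟩

theorem c_pp_001 : CertN 0 536870912 0 536870912 201326592 134217728 3 true true true .up 0 0 1
    ndN0q0 ndN1q0 pcN1 Cut.none Ext.none :=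
  certN0 (fam := true) (s1 := true) (s2 := true) (a := 0) (b := 0) (c := 1) (cn := .up) (n1 := ndN0q0) (n2 := ndN1q0) (pc := pcN1) (cut := Cut.none) (xt := Ext.none) (P1 := 0) (W1 := 536870912) (P2 := 0) (W2 := 536870912) (P3 := 201326592) (W3 := 134217728) (N0 := 3)
    rfl k0_pp_001

noncomputable def f_pp_011 : ℕ → ℕ → ℕ → ℕ → Bool := onCell 0 536870912 536870912 536870912 201326592 134217728
    (rowN 3 0 true true true .pnn 0 1 1 (qsf 0 536870912 536870912 536870912 1) ndN0q0 ndN1q1 pcN1 Cut.none Ext.none)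

def k0_pp_011 : ∃ t, chk3 f_pp_011 t 1 1 1 = true :=
  ⟨(l 4), by decide +kernel⟩

theorem c_pp_011 : CertN 0 536870912 536870912 536870912 201326592 134217728 3 true true true .pnn 0 1 1
    ndN0q0 ndN1q1 pcN1 Cut.none Ext.none :=
  certN0 (fam := true) (s1 := true) (s2 := true) (a := 0) (b := 1) (c := 1) (cn := .pnn) (n1 := ndN0q0) (n2 := ndN1q1) (pc := pcN1) (cut := Cut.none) (xt := Ext.none) (P1 := 0) (W1 := 536870912) (P2 := 536870912) (W2 := 536870912) (P3 := 201326592) (W3 := 134217728) (N0 := 3)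
    rfl k0_pp_011

noncomputable def f_pp_012 : ℕ → ℕ → ℕ → ℕ → Bool := onCell 0 536870912 536870912 536870912 201326592 134217728
    (rowN 3 0 true true true .pnp 0 1 2 (qsf 0 536870912 536870912 536870912 2) ndN0q0 ndN1q1 pcN2 Cut.none Ext.none)

def k0_pp_012 : ∃ t, chk3 f_pp_012 t 1 1 1 = true :=
  ⟨(l 4), by decide +kernel⟩

theorem c_pp_012 : CertN 0 536870912 536870912 536870912 201326592 134217728 3 true true true .pnp 0 1 2
    ndN0q0 ndN1q1 pcN2 Cut.none Ext.none :=
  certN0 (fam := true) (s1 := true) (s2 := true) (a := 0) (b := 1) (c := 2) (cn := .pnp) (n1 := ndN0q0) (n2 := ndN1q1) (pc := pcN2) (cut := Cut.none) (xt := Ext.none) (P1 := 0) (W1 := 536870912) (P2 := 536870912) (W2 := 536870912) (P3 := 201326592) (W3 := 134217728) (N0 := 3)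
    rfl k0_pp_012

noncomputable def cut_pp_022_a : Cut := Cut.of [[⟨0, 0, 0, 67108864⟩, ⟨1, 1, 0, 67108864⟩, ⟨2, 1, 0, 67108864⟩]]

noncomputable def f_pp_022_a : ℕ → ℕ → ℕ → ℕ → Bool := onCell 0 536870912 0 536870912 201326592 134217728
    (rowN 3 0 true true true .pp 0 2 2 (qsf 0 536870912 0 536870912 2) ndN0q0 ndN1q2a pcN2 cut_pp_022_a Ext.none)

def k0_pp_022_a : ∃ t, chk3 f_pp_022_a t 4 2 1 = true :=
  ⟨(a (b (a (b (c (a (l 16509064) (l 16516344)) (l 16550624)) (c (a (l 16549368) (l 16537928)) (a (l 16522728) (l 16533208)))) (c (b (l 16569472) (a (l 16547640) (l 16557744))) (b (l 16546696) (l 16591056)))) (a (a (b (c (c (l 16553264) (l 16550848)) (l 16566312)) (c (c (b (l 16573488) (l 16588112)) (l 16619688)) (b (l 16564448) (l 16578328)))) (b (c (l 16605352) (l 16557384)) (c (b (l 16584352) (l 16620176)) (b (l 16577376) (l 16591632))))) (a (b (c (l 16595832) (l 16569576)) (c (b (l 16596688) (l 16611968)) (l 16639672))) (b (c (l 16607552) (l 16581992)) (c (b (l 16609264) (l 16624864))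 (l 16652984)))))) (b (a (c (b (l 16650200) (l 16622840)) (b (l 16544096) (l 16592856))) (c (b (l 16850736) (l 16827464)) (a (l 16638448) (l 16651072)))) (a (b (c (a (l 16598848) (l 16632112)) (l 16664216)) (a (c (l 16672104) (l 16645600)) (c (l 16685768) (l 16659680)))) (b (c (a (l 16741560) (l 16814688)) (l 16671648)) (c (a (l 16692952) (l 16755288)) (b (l 16674224) (l 16712344))))))), by decide +kernel⟩

def k1_pp_022_a : ∃ t, chk3 f_pp_022_a t 4 6 1 = true :=
  ⟨(a (b (a (b (a (c (a (l 16619544) (l 16605024)) (a (l 16589680) (l 16596448))) (c (c (l 16616376) (l 16612872)) (l 16606544))) (a (c (a (c (l 16616696) (l 16612472)) (l 16642112)) (a (l 16605272) (l 16612088))) (c (c (l 16653768) (l 16628856)) (a (l 16618888) (l 16625688))))) (b (c (a (l 16648672) (l 16661768)) (a (l 16620096) (l 16633688))) (c (a (c (l 16645824) (l 16642056)) (c (l 16658920) (l 16655312))) (a (l 16656792) (l 16670400))))) (a (a (b (c (a (c (l 16634512) (l 16630280)) (c (l 16640936) (l 16636840))) (a (l 16644312)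 (l 16651128))) (c (a (c (b (l 16648816) (l 16658832)) (l 16670736)) (c (b (l 16655184) (l 16665136)) (l 16677224))) (a (c (l 16666528) (l 16662144)) (a (l 16669456) (l 16672824))))) (c (b (a (c (l 16647384) (l 16643408)) (c (l 16653840) (l 16649968))) (a (c (l 16687448) (l 16683696)) (c (l 16693784) (l 16690160)))) (b (a (l 16636952) (l 16643736)) (a (b (l 16651720) (l 16662048)) (b (l 16658456) (l 16668728)))))) (a (b (c (a (l 16679416) (l 16685952)) (c (l 16676816) (l 16672728))) (c (a (c (l 16700136) (l 16696624)) (c (l 16706488) (l 16703080))) (a (l 16701720) (l 16697896)))) (b (c (a (l 16692488) (l 16699048)) (c (l 16690208) (l 16686400))) (c (b (c (l 16712240) (l 16708800)) (a (l 16717072) (l 16727472))) (b (l 16703584) (c (l 16717360) (l 16713976)))))))) (b (b (a (c (a (l 16654104) (l 16667816)) (a (l 16647464) (l 16661576))) (a (c (l 16706512) (l 16679056)) (l 4))) (a (a (c (l 16691392) (l 16684104)) (c (l 16729312) (l 16700920))) (l 4))) (a (b (a (c (c (l 16724336) (l 16731136))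 (a (l 16699480) (l 16708848))) (l 4)) (a (b (l 4) (l 4)) (l 4))) (l 4)))), by decide +kernel⟩

def k2_pp_022_a : ∃ t, chk3 f_pp_022_a t 8 14 1 = true :=
  ⟨(a (b (b (a (c (a (c (l 16690224) (l 16665368)) (c (l 16675480) (l 16671760))) (a (l 16669960) (l 16687120))) (c (a (c (l 16681688) (l 16678120)) (c (l 16687888) (l 16684464))) (a (l 16672792) (l 16679392)))) (a (c (a (c (a (l 16678864) (l 16681936)) (a (l 16675120) (l 16678288))) (c (a (l 16685000) (l 16688064)) (l 16703968))) (a (a (l 16690560) (l 16672904)) (c (l 16679552) (l 16676160)))) (c (a (c (l 16703104) (l 16689272)) (c (l 16709192) (l 16706000))) (a (c (l 16686008) (l 16682832)) (l 16711904))))) (a (b (c (a (a (l 6) (c (l 16694600) (l 16691440))) (c (a (l 16697624) (l 16700640)) (a (l 16694560) (l 16697672)))) (a (a (l 6) (l 16707792)) (a (l 16711072) (l 16714352)))) (a (l 6) (a (l 6) (a (l 6) (b (c (l 16710000) (l 16705128)) (l 6)))))) (b (a (c (c (a (l 16703640) (l 16706640)) (a (l 16700776) (l 16703864))) (a (l 16717608)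 (l 16720856))) (c (c (b (l 16707928) (l 16725040)) (b (l 16705136) (l 16722528))) (a (l 16724096) (l 16727512)))) (a (c (a (b (l 16722744) (l 6)) (c (b (l 16716448) (l 16723224)) (l 16728136))) (b (c (l 16710280) (l 16708080)) (a (l 6) (l 16728792)))) (a (b (c (l 16728904) (l 16735104)) (c (a (l 16735432) (l 16737976)) (l 16732912))) (b (c (l 16733368) (l 16739504)) (l 4))))))) (b (b (a (c (a (c (l 16694080) (l 16690792)) (c (l 16701048) (l 16697808))) (a (l 16706936) (l 16714088))) (a (c (l 14193435127) (l 16723616)) (l 4))) (a (b (c (a (l 16710784) (l 16729840)) (a (l 16694208) (l 16723640))) (a (c (l 16722504) (l 16722064)) (l 4))) (l 4))) (a (a (b (a (c (c (l 16738128) (l 16735480)) (l 16731744)) (l 4)) (l 4)) (l 4)) (l 4)))), by decide +kernel⟩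

def k3_pp_022_a : ∃ t, chk3 f_pp_022_a t 8 15 1 = true :=
  ⟨(a (a (l 6) (a (b (l 6) (l 4)) (l 4))) (l 4)), by decide +kernel⟩

def k4_pp_022_a : ∃ t, chk3 f_pp_022_a t 9 7 1 = true :=
  ⟨(l 4), by decide +kernel⟩

def k5_pp_022_a : ∃ t, chk3 f_pp_022_a t 5 1 1 = true :=
  ⟨(b (a (a (b (c (b (l 16941840) (l 16917664)) (l 16707128)) (b (c (l 16877800) (l 16708264)) (a (c (l 16808272) (l 16735504)) (c (l 16839608) (l 16762248))))) (b (b (l 16796088) (a (l 16829456) (l 16851824))) (b (c (l 16907024) (l 16788744)) (l 4)))) (b (a (b (l 16887152) (c (l 16940056) (l 16796496))) (b (l 11509350519) (c (l 16918672) (l 16842928)))) (l 4))) (l 4)), by decide +kernel⟩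

def k6_pp_022_a : ∃ t, chk3 f_pp_022_a t 3 1 1 = true :=
  ⟨(b (a (a (b (a (b (c (l 16918896) (l 16839328)) (l 4)) (l 4)) (l 4)) (l 4)) (l 4)) (l 4)), by decide +kernel⟩

theorem s7_pp_022_a : ∃ t, chk3 f_pp_022_a t 8 7 1 = true := ex3_b k2_pp_022_a k3_pp_022_a

theorem s8_pp_022_a : ∃ t, chk3 f_pp_022_a t 4 7 1 = true := ex3_a s7_pp_022_a k4_pp_022_a

theorem s9_pp_022_a : ∃ t, chk3 f_pp_022_a t 4 3 1 = true := ex3_b k1_pp_022_a s8_pp_022_a

theorem s10_pp_022_a : ∃ t, chk3 f_pp_022_a t 4 1 1 = true := ex3_b k0_pp_022_a s9_pp_022_a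

theorem s11_pp_022_a : ∃ t, chk3 f_pp_022_a t 2 1 1 = true := ex3_a s10_pp_022_a k5_pp_022_a

theorem s12_pp_022_a : ∃ t, chk3 f_pp_022_a t 1 1 1 = true := ex3_a s11_pp_022_a k6_pp_022_a

theorem c_pp_022_a : CertN 0 536870912 0 536870912 201326592 134217728 3 true true true .pp 0 2 2
    ndN0q0 ndN1q2a pcN2 cut_pp_022_a Ext.none :=
  certN0 (fam := true) (s1 := true) (s2 := true) (a := 0) (b := 2) (c := 2) (cn := .pp) (n1 := ndN0q0) (n2 := ndN1q2a) (pc := pcN2) (cut := cut_pp_022_a) (xt := Ext.none) (P1 := 0) (W1 := 536870912) (P2 := 0) (W2 := 536870912) (P3 := 201326592) (W3 := 134217728) (N0 := 3)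
    rfl s12_pp_022_a

noncomputable def cut_pp_022_b : Cut := Cut.of [[⟨0, 0, 0, 67108864⟩, ⟨1, 1, 0, 67108864⟩, ⟨2, 1, 0, 67108864⟩]]

noncomputable def f_pp_022_b : ℕ → ℕ → ℕ → ℕ → Bool := onCell 0 536870912 1239849684 370763052 201326592 134217728
    (rowN 3 0 true true true .pp 0 2 2 (qsf 0 536870912 1239849684 370763052 2) ndN0q0 ndN1q2b pcN2 cut_pp_022_b Ext.none)

def k0_pp_022_b : ∃ t, chk3 f_pp_022_b t 2 1 1 = true :=
  ⟨(b (a (b (a (b (a (c (b (a (l 16504304) (l 16511272)) (a (l 16450016) (l 16459192))) (a (l 16534592) (l 16533088))) (c (b (a (l 16497496) (l 16505160)) (a (l 16551288) (l 16728664))) (b (l 16541272) (l 16491224)))) (a (c (c (a (l 16752544) (l 16986792)) (l 16473016)) (b (l 16418576) (l 16391136))) (c (a (l 16656304) (l 16995696)) (l 16516928)))) (b (a (c (b (a (l 16673424) (l 16796008)) (l 16841344)) (b (l 16538536) (l 16494288))) (c (b (l 16893176) (l 17028952)) (b (l 16538888) (l 16584792)))) (a (c (b (l 17052896) (l 17185600)) (l 16539944)) (c (l 17187176) (b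 (l 16702816) (l 16814848)))))) (b (a (c (a (a (l 16877304) (l 17192832)) (b (l 17221496) (l 17361056))) (a (l 16398824) (l 16477232))) (c (a (l 17355904) (l 17366040)) (a (l 16849976) (l 16968104)))) (a (a (c (l 17478808) (a (l 16691824) (l 16822136))) (c (l 17532560) (l 16963744))) (c (a (l 17535112) (l 17507248)) (a (l 17081064) (l 17143576)))))) (b (a (b (c (a (b (l 16992608) (l 17079808)) (b (l 17016992) (l 17088312))) (a (b (l 16664008) (l 16746912)) (b (l 16774824) (l 16836592)))) (c (a (l 17203488) (l 17191360)) (a (l 16873496) (l 16935024)))) (a (b (c (l 17041464) (b (l 16831528) (l 16881608))) (c (l 17163392) (l 16964136))) (b (b (c (l 16987336) (l 16855656)) (l 16972248)) (l 4)))) (a (b (c (a (l 17347824) (l 17314120)) (a (l 17032952) (l 17064160))) (a (l 17317848) (l 4))) (l 4)))) (a (a (b (b (c (a (l 17710368) (l 17703568)) (a (l 17091536) (l 17204008))) (c (a (l 17867208) (l 17820624)) (a (l 17331184) (l 17382432)))) (b (a (l 17734208) (l 4)) (l 4))) (b (b (a (c (l 17666680)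 (l 17262112)) (l 4)) (l 4)) (l 4))) (l 4))), by decide +kernel⟩

def k1_pp_022_b : ∃ t, chk3 f_pp_022_b t 3 1 1 = true :=
  ⟨(b (a (b (a (b (a (b (c (l 16957728) (l 16862344)) (l 4)) (l 4)) (l 4)) (l 4)) (l 4)) (l 2)) (l 2)), by decide +kernel⟩

theorem s2_pp_022_b : ∃ t, chk3 f_pp_022_b t 1 1 1 = true := ex3_a k0_pp_022_b k1_pp_022_b

theorem c_pp_022_b : CertN 0 536870912 1239849684 370763052 201326592 134217728 3 true true true .pp 0 2 2
    ndN0q0 ndN1q2b pcN2 cut_pp_022_b Ext.none :=
  certN0 (fam := true) (s1 := true) (s2 := true) (a := 0) (b := 2) (c := 2) (cn := .pp) (n1 := ndN0q0) (n2 := ndN1q2b) (pc := pcN2) (cut := cut_pp_022_b) (xt := Ext.none) (P1 := 0) (W1 := 536870912) (P2 := 1239849684) (W2 := 370763052) (P3 := 201326592) (W3 := 134217728) (N0 := 3)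
    rfl s2_pp_022_b

noncomputable def f_pp_023_a : ℕ → ℕ → ℕ → ℕ → Bool := onCell 1610612736 536870912 0 536870912 201326592 134217728
    (rowN 3 2 true true true .up 0 2 3 (qsf 0 536870912 0 536870912 3) ndN0q0 ndN1q2a pcN3 Cut.none Ext.none)

def k0_pp_023_a : ∃ t, chk3 f_pp_023_a t 1 1 1 = true :=
  ⟨(a (l 4) (l 2)), by decide +kernel⟩

theorem c_pp_023_a : CertN 0 536870912 0 536870912 201326592 134217728 3 true true true .up 0 2 3
    ndN0q0 ndN1q2a pcN3 Cut.none Ext.none :=
  certN2 (fam := true) (s1 := true) (s2 := true) (a := 0) (b := 2) (c := 3) (cn := .up) (n1 := ndN0q0) (n2 := ndN1q2a) (pc := pcN3) (cut := Cut.none) (xt := Ext.none) (P1 := 0) (W1 := 536870912) (P2 := 0) (W2 := 536870912) (P3 := 201326592) (W3 := 134217728) (N0 := 3)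
    rfl (fun _ => rfl) k0_pp_023_a

noncomputable def f_pp_023_b : ℕ → ℕ → ℕ → ℕ → Bool := onCell 1610612736 536870912 1239849684 370763052 201326592 134217728
    (rowN 3 2 true true true .up 0 2 3 (qsf 0 536870912 1239849684 370763052 3) ndN0q0 ndN1q2b pcN3 Cut.none Ext.none)

def k0_pp_023_b : ∃ t, chk3 f_pp_023_b t 1 1 1 = true :=
  ⟨(a (l 4) (l 4)), by decide +kernel⟩

theorem c_pp_023_b : CertN 0 536870912 1239849684 370763052 201326592 134217728 3 true true true .up 0 2 3
    ndN0q0 ndN1q2b pcN3 Cut.none Ext.none :=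
  certN2 (fam := true) (s1 := true) (s2 := true) (a := 0) (b := 2) (c := 3) (cn := .up) (n1 := ndN0q0) (n2 := ndN1q2b) (pc := pcN3) (cut := Cut.none) (xt := Ext.none) (P1 := 0) (W1 := 536870912) (P2 := 1239849684) (W2 := 370763052) (P3 := 201326592) (W3 := 134217728) (N0 := 3)
    rfl (fun _ => rfl) k0_pp_023_b

noncomputable def f_pp_033 : ℕ → ℕ → ℕ → ℕ → Bool := onCell 0 536870912 1610612736 536870912 201326592 134217728
    (rowN 3 0 true true true .pnn 0 3 3 (qsf 0 536870912 1610612736 536870912 3) ndN0q0 ndN1q3 pcN3 Cut.none Ext.none)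

def k0_pp_033 : ∃ t, chk3 f_pp_033 t 1 1 1 = true :=
  ⟨(a (b (l 4) (l 4)) (l 4)), by decide +kernel⟩

theorem c_pp_033 : CertN 0 536870912 1610612736 536870912 201326592 134217728 3 true true true .pnn 0 3 3
    ndN0q0 ndN1q3 pcN3 Cut.none Ext.none :=
  certN0 (fam := true) (s1 := true) (s2 := true) (a := 0) (b := 3) (c := 3) (cn := .pnn) (n1 := ndN0q0) (n2 := ndN1q3) (pc := pcN3) (cut := Cut.none) (xt := Ext.none) (P1 := 0) (W1 := 536870912) (P2 := 1610612736) (W2 := 536870912) (P3 := 201326592) (W3 := 134217728) (N0 := 3)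
    rfl k0_pp_033

noncomputable def f_pp_101 : ℕ → ℕ → ℕ → ℕ → Bool := onCell 536870912 536870912 0 536870912 201326592 134217728
    (rowN 3 0 true true true .npn 1 0 1 (qsf 536870912 536870912 0 536870912 1) ndN0q1 ndN1q0 pcN1 Cut.none Ext.none)

def k0_pp_101 : ∃ t, chk3 f_pp_101 t 1 1 1 = true :=
  ⟨(l 5), by decide +kernel⟩

theorem c_pp_101 : CertN 536870912 536870912 0 536870912 201326592 134217728 3 true true true .npn 1 0 1
    ndN0q1 ndN1q0 pcN1 Cut.none Ext.none :=
  certN0 (fam := true) (s1 := true) (s2 := true) (a := 1) (b := 0) (c := 1) (cn := .npn) (n1 := ndN0q1) (n2 := ndN1q0) (pc := pcN1) (cut := Cut.none) (xt := Ext.none) (P1 := 536870912) (W1 := 536870912) (P2 := 0) (W2 := 536870912) (P3 := 201326592) (W3 := 134217728) (N0 := 3)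
    rfl k0_pp_101

noncomputable def f_pp_102 : ℕ → ℕ → ℕ → ℕ → Bool := onCell 536870912 536870912 0 536870912 201326592 134217728
    (rowN 3 0 true true true .npp 1 0 2 (qsf 536870912 536870912 0 536870912 2) ndN0q1 ndN1q0 pcN2 Cut.none Ext.none)

def k0_pp_102 : ∃ t, chk3 f_pp_102 t 1 1 1 = true :=
  ⟨(l 5), by decide +kernel⟩

theorem c_pp_102 : CertN 536870912 536870912 0 536870912 201326592 134217728 3 true true true .npp 1 0 2
    ndN0q1 ndN1q0 pcN2 Cut.none Ext.none :=
  certN0 (fam := true) (s1 := true) (s2 := true) (a := 1) (b := 0) (c := 2) (cn := .npp) (n1 := ndN0q1) (n2 := ndN1q0) (pc := pcN2) (cut := Cut.none) (xt := Ext.none) (P1 := 536870912) (W1 := 536870912) (P2 := 0) (W2 := 536870912) (P3 := 201326592) (W3 := 134217728) (N0 := 3)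
    rfl k0_pp_102

noncomputable def f_pp_112 : ℕ → ℕ → ℕ → ℕ → Bool := onCell 536870912 536870912 536870912 536870912 201326592 134217728
    (rowN 3 0 true true true .dn 1 1 2 (qsf 536870912 536870912 536870912 536870912 2) ndN0q1 ndN1q1 pcN2 Cut.none Ext.none)

def k0_pp_112 : ∃ t, chk3 f_pp_112 t 1 1 1 = true :=
  ⟨(l 4), by decide +kernel⟩

theorem c_pp_112 : CertN 536870912 536870912 536870912 536870912 201326592 134217728 3 true true true .dn 1 1 2
    ndN0q1 ndN1q1 pcN2 Cut.none Ext.none :=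
  certN0 (fam := true) (s1 := true) (s2 := true) (a := 1) (b := 1) (c := 2) (cn := .dn) (n1 := ndN0q1) (n2 := ndN1q1) (pc := pcN2) (cut := Cut.none) (xt := Ext.none) (P1 := 536870912) (W1 := 536870912) (P2 := 536870912) (W2 := 536870912) (P3 := 201326592) (W3 := 134217728) (N0 := 3)
    rfl k0_pp_112

noncomputable def f_pp_113 : ℕ → ℕ → ℕ → ℕ → Bool := onCell 536870912 536870912 536870912 536870912 201326592 134217728
    (rowN 3 0 true true true .nn 1 1 3 (qsf 536870912 536870912 536870912 536870912 3) ndN0q1 ndN1q1 pcN3 Cut.none Ext.none)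

def k0_pp_113 : ∃ t, chk3 f_pp_113 t 1 1 1 = true :=
  ⟨(l 4), by decide +kernel⟩

theorem c_pp_113 : CertN 536870912 536870912 536870912 536870912 201326592 134217728 3 true true true .nn 1 1 3
    ndN0q1 ndN1q1 pcN3 Cut.none Ext.none :=
  certN0 (fam := true) (s1 := true) (s2 := true) (a := 1) (b := 1) (c := 3) (cn := .nn) (n1 := ndN0q1) (n2 := ndN1q1) (pc := pcN3) (cut := Cut.none) (xt := Ext.none) (P1 := 536870912) (W1 := 536870912) (P2 := 536870912) (W2 := 536870912) (P3 := 201326592) (W3 := 134217728) (N0 := 3)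
    rfl k0_pp_113

noncomputable def f_pp_123_a : ℕ → ℕ → ℕ → ℕ → Bool := onCell 536870912 536870912 0 536870912 201326592 134217728
    (rowN 3 0 true true true .npn 1 2 3 (qsf 536870912 536870912 0 536870912 3) ndN0q1 ndN1q2a pcN3 Cut.none Ext.none)

def k0_pp_123_a : ∃ t, chk3 f_pp_123_a t 1 1 1 = true :=
  ⟨(l 4), by decide +kernel⟩

theorem c_pp_123_a : CertN 536870912 536870912 0 536870912 201326592 134217728 3 true true true .npn 1 2 3
    ndN0q1 ndN1q2a pcN3 Cut.none Ext.none :=
  certN0 (fam := true) (s1 := true) (s2 := true) (a := 1) (b := 2) (c := 3) (cn := .npn) (n1 := ndN0q1) (n2 := ndN1q2a) (pc := pcN3) (cut := Cut.none) (xt := Ext.none) (P1 := 536870912) (W1 := 536870912) (P2 := 0) (W2 := 536870912) (P3 := 201326592) (W3 := 134217728) (N0 := 3)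
    rfl k0_pp_123_a

noncomputable def f_pp_123_b : ℕ → ℕ → ℕ → ℕ → Bool := onCell 536870912 536870912 1239849684 370763052 201326592 134217728
    (rowN 3 0 true true true .npn 1 2 3 (qsf 536870912 536870912 1239849684 370763052 3) ndN0q1 ndN1q2b pcN3 Cut.none Ext.none)

def k0_pp_123_b : ∃ t, chk3 f_pp_123_b t 1 1 1 = true :=
  ⟨(l 4), by decide +kernel⟩

theorem c_pp_123_b : CertN 536870912 536870912 1239849684 370763052 201326592 134217728 3 true true true .npn 1 2 3
    ndN0q1 ndN1q2b pcN3 Cut.none Ext.none :=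
  certN0 (fam := true) (s1 := true) (s2 := true) (a := 1) (b := 2) (c := 3) (cn := .npn) (n1 := ndN0q1) (n2 := ndN1q2b) (pc := pcN3) (cut := Cut.none) (xt := Ext.none) (P1 := 536870912) (W1 := 536870912) (P2 := 1239849684) (W2 := 370763052) (P3 := 201326592) (W3 := 134217728) (N0 := 3)
    rfl k0_pp_123_b

noncomputable def f_pp_133 : ℕ → ℕ → ℕ → ℕ → Bool := onCell 536870912 536870912 1610612736 536870912 201326592 134217728
    (rowN 3 0 true true true .dn 1 3 3 (qsf 536870912 536870912 1610612736 536870912 3) ndN0q1 ndN1q3 pcN3 Cut.none Ext.none)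

def k0_pp_133 : ∃ t, chk3 f_pp_133 t 1 1 1 = true :=
  ⟨(l 4), by decide +kernel⟩

theorem c_pp_133 : CertN 536870912 536870912 1610612736 536870912 201326592 134217728 3 true true true .dn 1 3 3
    ndN0q1 ndN1q3 pcN3 Cut.none Ext.none :=
  certN0 (fam := true) (s1 := true) (s2 := true) (a := 1) (b := 3) (c := 3) (cn := .dn) (n1 := ndN0q1) (n2 := ndN1q3) (pc := pcN3) (cut := Cut.none) (xt := Ext.none) (P1 := 536870912) (W1 := 536870912) (P2 := 1610612736) (W2 := 536870912) (P3 := 201326592) (W3 := 134217728) (N0 := 3)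
    rfl k0_pp_133

noncomputable def f_pp_202 : ℕ → ℕ → ℕ → ℕ → Bool := onCell 0 536870912 0 536870912 201326592 134217728
    (rowN 3 0 true true true .pp 2 0 2 (qsf 0 536870912 0 536870912 2) ndN0q2 ndN1q0 pcN2 Cut.none Ext.none)

def k0_pp_202 : ∃ t, chk3 f_pp_202 t 1 1 1 = true :=
  ⟨(l 5), by decide +kernel⟩

theorem c_pp_202 : CertN 0 536870912 0 536870912 201326592 134217728 3 true true true .pp 2 0 2
    ndN0q2 ndN1q0 pcN2 Cut.none Ext.none :=
  certN0 (fam := true) (s1 := true) (s2 := true) (a := 2) (b := 0) (c := 2) (cn := .pp) (n1 := ndN0q2) (n2 := ndN1q0) (pc := pcN2) (cut := Cut.none) (xt := Ext.none) (P1 := 0) (W1 := 536870912) (P2 := 0) (W2 := 536870912) (P3 := 201326592) (W3 := 134217728) (N0 := 3)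
    rfl k0_pp_202

noncomputable def f_pp_203 : ℕ → ℕ → ℕ → ℕ → Bool := onCell 0 536870912 0 536870912 201326592 134217728
    (rowN 3 0 true true true .up 2 0 3 (qsf 0 536870912 0 536870912 3) ndN0q2 ndN1q0 pcN3 Cut.none Ext.none)

def k0_pp_203 : ∃ t, chk3 f_pp_203 t 1 1 1 = true :=
  ⟨(l 5), by decide +kernel⟩

theorem c_pp_203 : CertN 0 536870912 0 536870912 201326592 134217728 3 true true true .up 2 0 3
    ndN0q2 ndN1q0 pcN3 Cut.none Ext.none :=
  certN0 (fam := true) (s1 := true) (s2 := true) (a := 2) (b := 0) (c := 3) (cn := .up) (n1 := ndN0q2) (n2 := ndN1q0) (pc := pcN3) (cut := Cut.none) (xt := Ext.none) (P1 := 0) (W1 := 536870912) (P2 := 0) (W2 := 536870912) (P3 := 201326592) (W3 := 134217728) (N0 := 3)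
    rfl k0_pp_203

noncomputable def f_pp_213 : ℕ → ℕ → ℕ → ℕ → Bool := onCell 0 536870912 536870912 536870912 201326592 134217728
    (rowN 3 0 true true true .pnn 2 1 3 (qsf 0 536870912 536870912 536870912 3) ndN0q2 ndN1q1 pcN3 Cut.none Ext.none)

def k0_pp_213 : ∃ t, chk3 f_pp_213 t 1 1 1 = true :=
  ⟨(l 4), by decide +kernel⟩

theorem c_pp_213 : CertN 0 536870912 536870912 536870912 201326592 134217728 3 true true true .pnn 2 1 3
    ndN0q2 ndN1q1 pcN3 Cut.none Ext.none :=
  certN0 (fam := true) (s1 := true) (s2 := true) (a := 2) (b := 1) (c := 3) (cn := .pnn) (n1 := ndN0q2) (n2 := ndN1q1) (pc := pcN3) (cut := Cut.none) (xt := Ext.none) (P1 := 0) (W1 := 536870912) (P2 := 536870912) (W2 := 536870912) (P3 := 201326592) (W3 := 134217728) (N0 := 3)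
    rfl k0_pp_213

noncomputable def f_pm_001 : ℕ → ℕ → ℕ → ℕ → Bool := onCell 0 536870912 0 536870912 201326592 134217728
    (rowN 3 0 true true false .up 0 0 1 (qsf 0 536870912 0 536870912 1) ndN0q0 ndN1q0 pcN1 Cut.none Ext.none)

def k0_pm_001 : ∃ t, chk3 f_pm_001 t 1 1 1 = true :=
  ⟨(l 3), by decide +kernel⟩

theorem c_pm_001 : CertN 0 536870912 0 536870912 201326592 134217728 3 true true false .up 0 0 1
    ndN0q0 ndN1q0 pcN1 Cut.none Ext.none :=
  certN0 (fam := true) (s1 := true) (s2 := false) (a := 0) (b := 0) (c := 1) (cn := .up) (n1 := ndN0q0) (n2 := ndN1q0) (pc := pcN1) (cut := Cut.none) (xt := Ext.none) (P1 := 0) (W1 := 536870912) (P2 := 0) (W2 := 536870912) (P3 := 201326592) (W3 := 134217728) (N0 := 3)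
    rfl k0_pm_001

noncomputable def f_pm_011 : ℕ → ℕ → ℕ → ℕ → Bool := onCell 0 536870912 536870912 536870912 201326592 134217728
    (rowN 3 1 true true false .pnn 0 1 1 (qsf 0 536870912 536870912 536870912 1) ndN0q0 ndN1q1 pcN1 Cut.none Ext.none)

def k0_pm_011 : ∃ t, chk3 f_pm_011 t 1 1 1 = true :=
  ⟨(l 3), by decide +kernel⟩

theorem c_pm_011 : CertN 0 536870912 536870912 536870912 201326592 134217728 3 true true false .pnn 0 1 1
    ndN0q0 ndN1q1 pcN1 Cut.none Ext.none :=
  certN1 (fam := true) (s1 := true) (s2 := false) (a := 0) (b := 1) (c := 1) (cn := .pnn) (n1 := ndN0q0) (n2 := ndN1q1) (pc := pcN1) (cut := Cut.none) (xt := Ext.none) (P1 := 0) (W1 := 536870912) (P2 := 536870912) (W2 := 536870912) (P3 := 201326592) (W3 := 134217728) (N0 := 3)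
    rfl (fun _ => rfl) k0_pm_011

noncomputable def f_pm_012 : ℕ → ℕ → ℕ → ℕ → Bool := onCell 1073741824 536870912 536870912 536870912 201326592 134217728
    (rowN 3 2 true true false .pnp 0 1 2 (qsf 0 536870912 536870912 536870912 2) ndN0q0 ndN1q1 pcN2 Cut.none Ext.none)

def k0_pm_012 : ∃ t, chk3 f_pm_012 t 2 2 1 = true :=
  ⟨(a (a (l 3) (a (l 3) (b (b (l 2) (a (l 3) (c (l 17204744) (l 17068656)))) (a (l 3) (b (b (l 17145752) (l 3)) (l 3)))))) (a (b (a (a (b (l 2) (c (l 17221456) (l 17074160))) (l 2)) (l 2)) (b (a (a (c (l 17196304) (a (l 17069232) (l 17066360))) (a (c (l 17203168) (l 17064576)) (a (l 17133600) (a (l 17136000) (l 17137008))))) (c (l 17233448) (l 17073488))) (a (a (c (l 88215842055) (b (l 17080192) (l 17089752))) (a (c (l 17197992) (l 17069656)) (a (c (l 17199040) (l 17063968)) (a (l 17148936) (l 17128424))))) (c (l 17218288) (l 17058712))))) (b (l 2) (a (b (l 17181736) (l 17159728)) (b (l 2) (l 17192672)))))), by decide +kernel⟩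

def k1_pm_012 : ∃ t, chk3 f_pm_012 t 2 3 1 = true :=
  ⟨(a (l 3) (a (b (b (a (a (a (l 3) (b (l 17135856) (l 205789907047))) (a (c (l 17193216) (l 17051968)) (a (c (l 17192000) (l 17039344)) (a (c (l 17193224) (l 17036328)) (l 17068552))))) (b (l 17121208) (l 17096904))) (a (a (l 3) (a (c (l 17103192) (b (l 17041992) (l 17027888))) (a (c (l 17104184) (l 17021904)) (a (c (l 17106608) (l 17015992)) (c (l 17108784) (l 17012352)))))) (c (l 17131080) (b (l 16984752) (l 16974016))))) (a (a (l 3) (a (b (l 3) (l 3)) (a (b (c (l 356113760151) (b (l 16995720) (l 16972976))) (l 3)) (b (a (c (b (l 17036312) (l 17016616)) (b (l 16990160) (l 16967512))) (c (l 17023776) (b (l 16986840) (l 16964320)))) (a (b (c (l 16992504) (a (l 16941688) (l 16940096))) (c (l 1078741833271) (b (l 16918040) (l 3)))) (b (c (l 16988984) (l 16937696)) (c (l 16960280) (l 16906888)))))))) (b (c (b (l 16999128) (l 16981120)) (b (l 16957768) (l 16936432))) (b (c (l 16958096) (a (l 16923328) (l 16896880))) (c (b (l 16937168) (l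 16921864)) (b (l 16887808) (l 16871400))))))) (b (a (b (c (l 17236992) (l 17026592)) (b (l 17073944) (l 16992960))) (b (l 17163056) (c (l 17240784) (l 16947160)))) (b (b (a (l 16917064) (l 16958712)) (c (l 16971448) (l 16872464))) (b (c (l 16864952) (a (l 16856152) (l 16798224))) (a (c (l 16869752) (l 16826632)) (c (l 16806064) (l 16770184)))))))), by decide +kernel⟩

def k2_pm_012 : ∃ t, chk3 f_pm_012 t 3 1 1 = true :=
  ⟨(b (a (b (l 2) (a (b (l 2) (a (l 17227344) (l 2))) (l 2))) (l 2)) (a (b (a (b (c (l 17339432) (l 17109696)) (c (l 17471000) (b (l 17060760) (l 17005232)))) (b (a (l 17281184) (l 2)) (c (l 17415640) (l 17152728)))) (a (b (b (c (l 17285464) (l 16917920)) (a (l 16940144) (l 17064560))) (b (c (l 17126592) (l 16703032)) (a (l 16725200) (l 16743136)))) (b (b (l 17254816) (l 17215624)) (b (c (l 17371624) (l 16923640)) (a (l 16953568) (l 17117928)))))) (b (b (l 2) (a (a (l 17341992) (l 2)) (l 2))) (a (b (c (l 17499624) (l 17210904)) (b (l 17334752) (l 17299536))) (b (b (l 2) (l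 17425608)) (c (l 17588816) (l 17282816))))))), by decide +kernel⟩

theorem s3_pm_012 : ∃ t, chk3 f_pm_012 t 2 1 1 = true := ex3_b k0_pm_012 k1_pm_012

theorem s4_pm_012 : ∃ t, chk3 f_pm_012 t 1 1 1 = true := ex3_a s3_pm_012 k2_pm_012

theorem c_pm_012 : CertN 0 536870912 536870912 536870912 201326592 134217728 3 true true false .pnp 0 1 2
    ndN0q0 ndN1q1 pcN2 Cut.none Ext.none :=
  certN2 (fam := true) (s1 := true) (s2 := false) (a := 0) (b := 1) (c := 2) (cn := .pnp) (n1 := ndN0q0) (n2 := ndN1q1) (pc := pcN2) (cut := Cut.none) (xt := Ext.none) (P1 := 0) (W1 := 536870912) (P2 := 536870912) (W2 := 536870912) (P3 := 201326592) (W3 := 134217728) (N0 := 3)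
    rfl (fun _ => rfl) s4_pm_012

end Pool.Agent.Strip051.G.I3_16_5_16.Tab.C.NA01

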