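import Pool.Agent.Strip051.G.I3_16_5_16.Tab

/-! # Certificates N6 (generated) -/

set_option linter.all false
set_option maxRecDepth 100000

namespace Pool.Agent.Strip051.G.I3_16_5_16.Tab.C.NA01

open Pool.Agent.Strip051.PB Pool.Agent.Strip051.PB.T
open Pool.Agent.Strip051.G.I3_16_5_16.Tab

noncomputable def cut_pm_022_a : Cut := Cut.of [[⟨0, 0, 0, 67108864⟩, ⟨1, 1, 0, 67108864⟩, ⟨2, 1, 0, 67108864⟩], [⟨0, 0, 1, 67108864⟩, ⟨1, 1, 0, 16777216⟩, ⟨2, 1, 1, 67108864⟩]]

noncomputable def f_pm_022_a : ℕ → ℕ → ℕ → ℕ → Bool := onCell 1073741824 536870912 0 536870912 201326592 134217728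
    (rowN 3 2 true true false .pp 0 2 2 (qsf 0 536870912 0 536870912 2) ndN0q0 ndN1q2a pcN2 cut_pm_022_a Ext.none)

def k0_pm_022_a : ∃ t, chk3 f_pm_022_a t 4 2 1 = true :=
  ⟨(b (l 1) (a (l 1) (a (l 1) (a (l 1) (a (l 1) (b (l 1) (b (l 1) (c (c (l 16542512) (a (l 16519064) (l 16520120))) (a (l 16520072) (l 16541480)))))))))), by decide +kernel⟩

def k1_pm_022_a : ∃ t, chk3 f_pm_022_a t 20 2 1 = true :=
  ⟨(a (b (l 1) (a (b (l 1) (c (b (a (l 16526304) (c (l 16504168) (l 16505712))) (c (l 16561128) (l 16540984))) (b (a (l 16486056) (l 16527416)) (l 16561824)))) (b (c (b (l 16520896) (a (l 16512048) (l 16511728))) (b (l 16482016) (l 16534624))) (c (b (c (l 16503208) (l 16525616)) (a (l 16540400) (l 16539896))) (b (l 16547104) (l 16539376)))))) (a (b (a (l 1) (b (l 1) (c (l 16490200) (l 16492928)))) (b (c (b (a (l 16500256) (l 16499992)) (l 16529304)) (b (l 16523728) (l 16533872))) (c (b (l 16542744) (c (l 16538608) (l 16539056))) (b (l 16546104) (l 16538168))))) (b (a (b (l 1) (c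 (b (l 16487312) (l 16492840)) (l 16492864))) (c (b (a (l 16482536) (b (l 16502224) (l 16504192))) (a (l 16511080) (c (l 16509312) (l 16511800)))) (a (b (l 16484544) (l 16492736)) (b (b (l 16483048) (l 16485536)) (l 16534344))))) (b (a (c (b (l 16499776) (l 16510240)) (l 16528384)) (a (c (b (l 16499464) (l 16509696)) (l 16527952)) (c (b (a (l 16525256) (l 16477776)) (c (l 16528832) (l 16530888))) (b (l 16522528) (l 16531920))))) (a (c (b (l 16523576) (l 16538040)) (b (l 16503184) (l 16516104))) (a (c (b (l 16523008) (l 16537464)) (l 16551176)) (c (a (b (l 16548696) (l 16563168)) (l 16540024)) (b (l 16543936) (l 16556792))))))))), by decide +kernel⟩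

def k2_pm_022_a : ∃ t, chk3 f_pm_022_a t 21 2 1 = true :=
  ⟨(b (c (a (b (a (l 16481848) (l 16461480)) (a (l 16488560) (l 16488272))) (b (b (l 16481944) (l 16482256)) (c (l 16484824) (l 16487864)))) (a (b (l 16503816) (b (l 16487152) (l 16492048))) (b (l 16484496) (a (l 16470000) (l 16469824))))) (c (b (a (a (c (l 16501136) (l 16503456)) (b (l 16475544) (l 16484744))) (c (l 16517280) (l 16520264))) (a (b (c (l 16517024) (l 16518624)) (c (l 16532208) (l 16532816))) (b (l 16536048) (l 16550800)))) (b (a (a (l 16504792) (l 16503784)) (b (l 16497224) (l 16505000))) (a (a (l 16548696) (l 16526248)) (b (l 16516464) (l 16529224)))))), by decide +kernel⟩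

def k3_pm_022_a : ∃ t, chk3 f_pm_022_a t 11 2 1 = true :=
  ⟨(a (b (c (a (b (l 16483640) (b (l 16484192) (l 16487096))) (b (l 16485152) (l 16484960))) (a (b (l 16465040) (l 16489520)) (b (l 16466520) (l 16468008)))) (c (b (a (b (l 16491656) (l 16498624)) (c (l 16538600) (l 16493808))) (a (b (l 16511336) (l 16526392)) (b (l 16506936) (l 16522448)))) (a (b (b (l 16474776) (l 16502376)) (c (l 16520224) (l 16519304))) (b (l 16496592) (l 16537256))))) (b (c (b (a (l 16501112) (l 16688488)) (a (l 16505816) (l 16691544))) (b (l 16540672) (a (l 16467280) (l 16466184)))) (b (c (a (l 16505888) (l 16697056)) (a (l 16493744) (l 16469480))) (a (c (b (l 16526720) (l 16535744)) (l 16512008)) (c (b (l 16702272) (l 16707048)) (l 16506568)))))), by decide +kernel⟩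

def k4_pm_022_a : ∃ t, chk3 f_pm_022_a t 4 6 1 = true :=
  ⟨(a (l 1) (a (b (l 1) (a (a (l 1) (b (l 1) (c (b (c (l 16625440) (l 16622208)) (c (a (l 16634192) (l 16628032)) (l 16628616))) (b (l 16617464) (l 16645768))))) (b (c (a (c (l 16625832) (l 16622096)) (c (b (l 16589160) (l 16604936)) (l 16609616))) (a (l 16616752) (l 16605032))) (c (b (a (c (l 16623408) (l 16610136)) (l 16609272)) (c (l 16633176) (l 16631328))) (a (b (l 16627040) (l 16634344)) (l 16618992)))))) (a (b (c (b (a (l 1) (l 16563032)) (a (a (l 16585160) (b (l 1) (l 16575896))) (c (l 16564800) (l 16561440)))) (b (l 16560704) (a (l 16579768) (l 16561032)))) (c (b (c (b (l 16589912) (l 16596192)) (l 16588152)) (c (a (l 16612936) (l 16612600)) (l 16611488))) (b (c (l 16590384) (l 16589736)) (l 16606872)))) (b (b (c (a (c (l 16543168) (l 16533800)) (c (l 16565856) (l 16576736))) (a (l 16534408) (l 16576232))) (c (a (c (l 16551000) (l 16550888)) (a (l 16572952) (l 16573664))) (a (l 16549960) (l 16591376)))) (c (a (b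 (c (l 16591720) (l 16590608)) (c (l 16612744) (l 16589672))) (b (c (l 16592472) (l 16590688)) (a (l 16611960) (l 16612208)))) (a (b (l 16562216) (l 16607232)) (b (l 16608480) (l 16626912)))))))), by decide +kernel⟩

def k5_pm_022_a : ∃ t, chk3 f_pm_022_a t 8 7 1 = true :=
  ⟨(b (c (a (l 1) (b (a (l 1) (a (l 1) (b (l 1) (c (a (l 16669608) (l 16663744)) (b (l 16663464) (l 16666352)))))) (a (l 6) (a (l 6) (a (l 6) (a (l 6) (b (l 16666584) (l 16682016)))))))) (a (l 1) (b (a (l 1) (b (l 1) (a (l 1) (a (l 16675112) (l 16659248))))) (a (l 6) (a (l 6) (a (l 6) (b (l 16665408) (l 16692392)))))))) (a (l 6) (b (a (l 6) (a (l 6) (a (l 6) (c (b (l 16685736) (c (l 16712816) (l 16711336))) (b (l 16677400) (l 16709248)))))) (b (a (l 6) (a (l 6) (a (l 6) (c (c (l 16724912) (l 16717768)) (c (l 16726384) (l 16724536)))))) (a (l 6) (a (l 6) (a (l 6) (a (l 6) (b (c (c (l 16721976) (l 16719680)) (l 16716216)) (c (c (c (l 16736880) (l 16730368)) (c (l 16729096) (l 16727816))) (c (l 16725888) (l 16723280)))))))))))),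 by decide +kernel⟩

def k6_pm_022_a : ∃ t, chk3 f_pm_022_a t 18 14 1 = true :=
  ⟨(b (a (c (b (a (c (a (l 16652072) (l 16646128)) (a (l 16649832) (l 16644064))) (c (l 16637008) (l 16635248))) (c (a (l 16665392) (l 16663720)) (a (l 16653504) (l 16662704)))) (b (a (c (l 16644720) (l 16642368)) (l 16653400)) (a (l 16672056) (l 16660880)))) (c (b (c (l 16639008) (l 16637912)) (c (l 16642048) (l 16644320))) (b (l 16636096) (l 16643496)))) (a (c (b (c (b (l 16668200) (l 16670512)) (a (l 16679784) (l 16646936))) (a (c (l 16685288) (l 16663936)) (c (l 16675744) (l 16674328)))) (b (c (l 16673056) (l 16672024)) (a (l 16684048) (l 16672608)))) (c (b (c (l 16647344) (l 16656024)) (c (l 16664192) (l 16669896))) (b (l 16653448) (l 16661536))))), by decide +kernel⟩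

def k7_pm_022_a : ∃ t, chk3 f_pm_022_a t 18 15 1 = true :=
  ⟨(b (c (a (b (c (a (l 16693816) (l 16690608)) (b (l 16686848) (l 16694216))) (c (a (l 16699520) (l 16696168)) (b (l 16691624) (l 16699896)))) (b (c (c (l 16676832) (l 16675544)) (l 16673640)) (c (c (l 16697984) (l 16701744)) (l 16699544)))) (b (a (a (l 16690528) (l 16686216)) (l 16680432)) (a (a (l 16700432) (l 16701224)) (c (l 16696648) (l 16693800))))) (b (b (c (a (c (c (l 16711144) (l 16709984)) (l 16708264)) (c (l 16704608) (l 16690872))) (a (c (l 16706000) (l 16693272)) (l 16701752))) (c (c (a (a (l 16710632) (l 16707112)) (a (l 16704072) (l 16701520))) (a (a (l 16708320) (l 16704376)) (l 16720200))) (c (a (l 16724728) (l 16695744)) (a (l 16701248) (l 16692248))))) (c (b (c (a (a (l 16729984) (l 16726400)) (c (a (l 16713672) (l 16711184)) (a (l 16711944) (l 16709200)))) (a (a (l 16716952) (l 16712936)) (a (l 16709352) (l 16706208)))) (b (c (a (a (l 16726224) (l 16722600)) (c (a (l 16720360) (l 16717824)) (l 16717056)))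 (a (a (l 16723496) (l 16719440)) (c (l 16715104) (l 16713144)))) (a (c (c (b (l 16728464) (a (l 16732608) (l 16729056))) (a (l 16730040) (l 16726288))) (a (c (l 16728616) (l 16727176)) (c (l 16724640) (l 16722976)))) (c (c (b (l 16724984) (a (l 16725992) (l 16723416))) (a (l 16722984) (l 16720160))) (c (a (l 16721096) (l 16718008)) (a (l 16719200) (l 16715840))))))) (c (b (a (a (l 16714392) (l 16709944)) (l 16714440)) (b (a (l 16723656) (l 16710184)) (a (a (l 16725000) (l 16720464)) (a (l 16716320) (l 16712568))))) (b (a (a (l 16711824) (l 16706920)) (l 16700184)) (b (a (l 16715408) (l 16706184)) (a (a (l 16722056) (l 16717072)) (a (l 16712432) (l 16708144))))))))), by decide +kernel⟩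

def k8_pm_022_a : ∃ t, chk3 f_pm_022_a t 38 7 1 = true :=
  ⟨(b (b (c (c (b (l 16629632) (l 16631136)) (a (l 16634104) (l 16632760))) (a (l 16631104) (l 16628880))) (c (b (c (l 16644496) (l 16652040)) (c (l 16658352) (l 16665560))) (b (l 16647760) (l 16660760)))) (b (b (c (c (a (l 16662976) (l 16661544)) (l 16679464)) (c (l 16654896) (l 16651360))) (c (c (a (l 16699528) (l 16676960)) (l 16694576)) (c (l 16690560) (l 16686584)))) (c (b (c (a (c (l 16706776) (l 16715160)) (c (l 16715616) (l 16692272))) (a (l 16712008) (l 16709680))) (c (b (a (c (l 16709208) (l 16706936)) (c (l 16707432) (l 16704896))) (a (c (b (l 16715784) (a (l 16720704) (c (l 16720392) (l 16719152)))) (b (l 16713432) (a (l 16718360) (l 16717288)))) (c (b (l 16713944) (c (a (l 16719448) (l 16718584)) (l 16720280))) (b (l 16711328) (c (l 16716320) (l 16714976)))))) (b (a (l 16703520) (l 16701080)) (b (a (l 16709872) (l 16707368)) (c (a (a (l 16716000) (l 16714784)) (c (l 16713632) (l 16712280))) (a (l 16712920)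 (l 16710248))))))) (b (c (a (l 16686832) (l 16683960)) (a (l 16682632) (l 16679192))) (b (c (a (l 16698944) (l 16695952)) (a (l 16694320) (l 16690776))) (b (c (a (l 16705088) (l 16702048)) (a (l 16700256) (l 16696656))) (c (a (c (l 16710464) (l 16707984)) (c (l 16707520) (l 16704776))) (a (c (l 16705496) (l 16702984)) (l 16700616))))))))), by decide +kernel⟩

def k9_pm_022_a : ∃ t, chk3 f_pm_022_a t 39 14 1 = true :=
  ⟨(a (c (b (c (l 16635064) (l 16631848)) (c (l 16660736) (l 16656760))) (b (l 16627056) (l 16650888))) (c (b (c (l 16645496) (l 16631168)) (c (a (l 16660616) (l 16660640)) (l 16666232))) (b (c (l 16627344) (l 16623520)) (b (l 16642608) (l 16655192))))), by decide +kernel⟩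

def k10_pm_022_a : ∃ t, chk3 f_pm_022_a t 39 15 1 = true :=
  ⟨(b (c (a (c (b (l 16660544) (l 16675776)) (b (l 16656024) (l 16670864))) (c (b (l 16680880) (l 16695952)) (b (l 16654776) (l 16690440)))) (a (b (l 16649320) (l 16663552)) (b (l 16668120) (c (l 16663976) (l 16658504))))) (b (a (c (c (b (l 16687952) (l 16696232)) (l 16707760)) (c (l 16681464) (l 16676112))) (c (a (c (l 16712416) (l 16685696)) (c (b (l 16687056) (l 16695216)) (l 16685088))) (c (a (l 16679920) (l 16679008)) (l 16694344)))) (c (a (c (b (c (l 16706048) (l 16703248)) (c (b (l 16712480) (a (c (l 16717864) (l 16716432)) (c (l 16719904) (l 16715784)))) (b (l 16709600) (c (b (l 16713544) (l 16715696)) (l 16713144))))) (b (l 16709504) (c (b (l 16706704) (c (l 16711664) (l 16710184))) (b (l 16703792) (l 16707952))))) (b (c (c (a (l 16705384) (l 16705088)) (a (l 16702376) (l 16701928))) (c (l 16709400) (l 16716776))) (c (b (c (a (l 16711760) (l 16711392)) (a (l 16708672) (l 16708160))) (c (a (c (b (l 16715752) (l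 16717920)) (l 16717896)) (a (c (l 16719784) (l 16714896)) (b (l 16714368) (c (l 16717112) (l 16715456))))) (a (c (l 16713704) (l 16712128)) (b (l 16711224) (a (l 16713488) (l 16715584)))))) (c (b (a (l 16705560) (l 16704912)) (a (l 16709752) (c (l 16709720) (l 16708064)))) (a (b (l 16702432) (l 16706568)) (b (l 16701640) (l 16710808))))))) (a (c (b (l 16693336) (c (b (l 16700856) (l 16704952)) (l 16706472))) (b (l 16687600) (b (l 16693432) (l 16697360)))) (c (b (a (l 16691704) (l 16690744)) (a (c (l 16701328) (l 16698120)) (c (b (l 16698344) (l 16702216)) (l 16707384)))) (b (l 16705744) (a (l 16693272) (b (l 16689992) (l 16693720))))))))), by decide +kernel⟩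

def k11_pm_022_a : ∃ t, chk3 f_pm_022_a t 20 6 1 = true :=
  ⟨(a (a (b (c (b (c (l 16556520) (l 16556352)) (c (l 16573944) (l 16572592))) (b (l 16575944) (l 16569768))) (c (c (b (l 16592888) (l 16613184)) (b (l 16590568) (l 16609904))) (b (b (l 16582088) (l 16590936)) (l 16604672)))) (b (b (c (a (l 16556088) (l 16555520)) (c (l 16554072) (l 16552392))) (c (c (l 16572856) (l 16571232)) (l 16567936))) (c (b (c (l 16591744) (l 16589128)) (c (l 16612040) (l 16608408))) (b (l 16584584) (l 16602608))))) (a (b (c (b (a (l 16554888) (l 16554208)) (c (l 16572000) (l 16570136))) (b (l 16551920) (l 16566400))) (b (c (c (l 16590872) (l 16587968)) (l 16582928)) (c (c (l 16611192) (l 16607224)) (l 16600864)))) (b (a (c (b (l 16553584) (l 16570208)) (b (l 16529760) (l 16544176))) (c (b (a (l 16553008) (a (l 16573496) (l 16531208))) (a (l 16569656) (c (l 16570024) (l 16567984)))) (b (a (l 16529112) (l 16570424)) (a (l 16543512) (l 16563856))))) (c (a (b (l 16588576) (l 16608416)) (a (b (l 16588064)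 (l 16607960)) (b (c (l 16589064) (l 16585896)) (c (l 16609624) (l 16605296))))) (a (b (l 16560664) (l 16578576)) (a (b (l 16559984) (l 16577904)) (b (l 16580344) (l 16598288)))))))), by decide +kernel⟩

def k12_pm_022_a : ∃ t, chk3 f_pm_022_a t 40 14 1 = true :=
  ⟨(b (c (a (c (l 16634872) (l 16630488)) (c (l 16633776) (l 16628984))) (a (l 16644856) (l 16621744))) (c (a (c (b (l 16632344) (l 16645656)) (l 16654832)) (c (l 16658952) (l 16653344))) (a (c (l 16649704) (l 16644608)) (c (l 16647752) (l 16642176))))), by decide +kernel⟩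

def k13_pm_022_a : ∃ t, chk3 f_pm_022_a t 40 30 1 = true :=
  ⟨(c (a (c (b (l 16659408) (l 16695328)) (b (l 16653696) (l 16668280))) (c (b (l 16658408) (l 16694368)) (b (l 16652232) (l 16666840)))) (a (b (l 16666152) (c (l 16662208) (l 16656144))) (b (l 16663952) (l 16688432)))), by decide +kernel⟩

def k14_pm_022_a : ∃ t, chk3 f_pm_022_a t 40 31 2 = true :=
  ⟨(b (b (c (a (l 16686320) (l 16685224)) (a (l 16679968) (l 16678400))) (c (a (c (l 16696072) (l 16692816)) (c (l 16694624) (l 16691144))) (a (l 16708880) (l 16685888)))) (a (b (a (c (c (l 16704672) (l 16701384)) (l 16696408)) (c (c (l 16703824) (l 16700424)) (l 16695272))) (c (b (c (a (l 16710664) (l 16709496)) (a (l 16707304) (l 16706040))) (b (c (a (c (l 16714360) (l 16712680)) (l 16712328)) (a (l 16710136) (l 16708840))) (c (a (a (c (l 16716592) (l 16714904)) (c (l 16716000) (l 16714288))) (a (c (l 16715424) (l 16713688)) (c (l 16714856) (l 16713096)))) (a (c (l 16712872) (l 16711160)) (c (l 16711600) (l 16709832))))))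 (c (b (a (l 16703928) (l 16702552)) (a (c (l 16708512) (l 16706800)) (c (l 16707136) (l 16705360)))) (b (a (l 16700528) (l 16699040)) (a (l 16704208) (l 16702688)))))) (b (c (c (a (l 16702768) (l 16701704)) (a (l 16699256) (l 16698088))) (c (l 16705448) (l 16691360))) (c (b (c (a (l 16708384) (l 16707304)) (a (l 16704808) (l 16703624))) (b (c (a (l 16716448) (c (l 14) (l 16709200))) (a (l 16707608) (l 16706416))) (c (a (a (c (l 16714304) (l 16712512)) (c (l 14) (l 16711944))) (c (l 14) (a (l 16711384) (l 16710832)))) (a (c (l 16710384) (l 16708568)) (c (a (l 16709528) (l 16708952)) (l 16707344)))))) (c (b (a (l 16701216) (l 16699920)) (a (c (l 16705816) (l 16703992)) (c (l 16709784) (l 16702656)))) (b (l 16707272) (a (l 16701232) (l 16705064)))))))), by decide +kernel⟩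

def k15_pm_022_a : ∃ t, chk3 f_pm_022_a t 40 31 3 = true :=
  ⟨(b (b (a (l 16691352) (l 16689024)) (a (c (l 16681312) (l 16674656)) (c (l 16678816) (l 16671656)))) (b (a (c (a (l 16689712) (l 16688336)) (l 16692480)) (c (a (l 16686792) (l 16685232)) (l 16678544))) (a (c (c (b (l 16696208) (a (l 16700736) (l 16699104))) (a (l 16695432) (l 16693712))) (a (b (l 16688416) (l 16691920)) (l 16698760))) (c (c (b (l 16693088) (a (l 16697536) (l 16696008))) (a (l 16692032) (l 16690400))) (a (l 16696904) (b (l 16682888) (l 16686336))))))), by decide +kernel⟩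

def k16_pm_022_a : ∃ t, chk3 f_pm_022_a t 41 14 1 = true :=
  ⟨(a (b (c (c (l 16633000) (l 16627816)) (l 16640912)) (c (c (l 16668752) (l 16652216)) (c (l 16646160) (l 16640080)))) (b (c (a (c (l 16611440) (l 16605984)) (a (l 16639784) (c (l 16631712) (l 16626064)))) (b (c (a (l 16595248) (l 16657504)) (b (a (l 16587528) (l 16628616)) (c (a (l 16593576) (a (l 16592880) (l 16592296))) (a (l 16590800) (a (l 16590024) (l 16589400)))))) (a (l 16602656) (a (l 16602000) (l 16622424))))) (a (c (c (l 16636816) (l 16630456)) (l 16641824)) (a (c (c (l 16636560) (l 16630056)) (l 16641192)) (c (c (l 16678208) (l 16650656)) (b (l 16634392) (l 16646888))))))), by decide +kernel⟩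

def k17_pm_022_a : ∃ t, chk3 f_pm_022_a t 82 15 1 = true :=
  ⟨(b (c (b (c (l 16657768) (l 16651128)) (c (l 16693456) (l 16686440))) (b (l 16662112) (c (l 16658424) (l 16651328)))) (c (b (c (b (l 16683656) (c (l 16692760) (l 16689072))) (b (l 16676392) (l 16704464))) (b (a (c (c (l 16700672) (l 16696952)) (l 16691320)) (c (c (l 16699680) (l 16695856)) (l 16700552))) (c (a (b (c (l 16706264) (l 16702480)) (c (c (l 14) (b (l 16708136) (a (l 16710296) (l 14)))) (a (c (l 16707456) (l 16705552)) (c (l 16706904) (l 16704968))))) (b (c (l 16705280) (l 16701384)) (c (l 14) (a (c (l 16709640) (l 16704400)) (b (l 16703904) (c (l 16706768) (l 16704776))))))) (b (c (a (l 16698672) (l 16697464)) (a (l 16694824) (l 16693512))) (b (c (a (l 16701424) (l 16700216)) (a (l 16697544) (l 16696224))) (c (a (c (l 16704240) (l 16702296)) (a (l 16702360) (l 16701768))) (a (l 16699368) (c (l 16699056) (l 16697040))))))))) (b (c (a (l 16673264) (l 16671832)) (a (l 16665864) (l 16664208))) (c (b (a (l 16683720)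 (l 16682240)) (a (c (b (l 16690952) (l 16694528)) (l 16688808)) (b (l 16687520) (c (l 16693096) (l 16689024))))) (b (a (l 16676008) (l 16674304)) (a (b (l 16681128) (l 16684568)) (b (l 16679408) (l 16682840)))))))), by decide +kernel⟩

def k18_pm_022_a : ∃ t, chk3 f_pm_022_a t 83 30 1 = true :=
  ⟨(a (c (c (b (l 16657344) (l 16671512)) (b (l 16650376) (l 16664184))) (b (l 16639864) (l 16674056))) (a (c (c (b (l 16657032) (l 16670816)) (b (l 16649912) (l 16663344))) (b (l 16639152) (l 16672992))) (c (c (b (l 16677600) (l 16696448)) (b (l 16649424) (l 16683648))) (b (l 16659496) (c (l 16676032) (l 16668344)))))), by decide +kernel⟩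

def k19_pm_022_a : ∃ t, chk3 f_pm_022_a t 166 31 1 = true :=
  ⟨(c (b (c (b (l 16682224) (l 16689464)) (l 16699160)) (b (c (c (l 16698768) (l 16694832)) (c (l 16690872) (l 16686880))) (c (c (l 14) (b (a (l 16700584) (l 16700072)) (a (c (b (l 16704384) (l 16706256)) (l 16708544)) (b (l 16702864) (c (l 14) (l 16706328)))))) (c (b (l 16696336) (a (c (l 16701272) (l 16699240)) (c (l 16705960) (l 16698656)))) (b (l 16692264) (a (l 16696168) (l 16700792))))))) (b (c (l 16670440) (l 16662592)) (c (b (l 16680832) (a (c (l 16690264) (l 16686128)) (c (b (l 16687792) (l 16691368)) (l 16685392)))) (b (l 16672664) (a (l 16679864) (l 16689520)))))), by decide +kernel⟩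

def k20_pm_022_a : ∃ t, chk3 f_pm_022_a t 167 31 2 = true :=
  ⟨(b (a (c (b (l 16681496) (l 16688744)) (l 16698280)) (a (c (a (a (l 16684760) (c (l 16707632) (l 16703720))) (l 16684600)) (b (l 16694248) (c (l 16703328) (l 16699312)))) (c (l 16684408) (l 16676488)))) (a (b (c (c (l 14) (l 16694072)) (c (l 16690032) (l 16685960))) (c (c (l 14) (c (b (l 16705880) (l 14)) (b (l 16709072) (a (l 16702376) (a (l 16702176) (l 16702048)))))) (c (b (a (l 16695576) (l 16695312)) (a (c (l 16700296) (l 16698216)) (a (a (l 16704320) (l 16704248)) (a (l 16704176) (l 16703128))))) (b (l 16701832) (a (l 16695072) (c (l 16695832) (l 16693720))))))) (b (c (c (l 14) (a (a (a (l 16693720) (a (l 16693672) (l 16693640))) (l 16693552)) (l 16693360))) (a (a (a (l 16687600) (a (l 16687544) (b (l 16685704) (l 16699800)))) (l 16687416)) (l 16687192))) (c (c (l 14) (c (l 14) (b (a (a (a (l 16698232) (a (l 16698184) (l 16698144))) (l 16698064)) (l 16697864)) (a (a (a (l 16701952) (a (l 16707144) (a (a (l 16701880)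 (b (l 16700936) (c (l 14) (b (l 16701808) (l 16705368))))) (l 16701856)))) (l 16701784)) (l 16701592))))) (b (a (a (a (l 16703520) (a (l 16698224) (c (l 16695032) (l 16690848)))) (l 16692848)) (l 16692624)) (c (a (a (a (c (l 16699856) (l 16697744)) (a (c (l 16699800) (l 16697696)) (a (a (c (l 16699776) (l 16697672)) (b (l 16697792) (c (c (l 16701224) (l 16700168)) (l 16698576)))) (l 16698704)))) (l 16703864)) (c (l 16699472) (l 16697352))) (a (a (a (l 16694568) (a (l 16694512) (a (a (l 16694488) (c (l 16695536) (l 16693408))) (l 16694464)))) (l 16694376)) (l 16694144)))))))), by decide +kernel⟩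

def k21_pm_022_a : ∃ t, chk3 f_pm_022_a t 167 31 3 = true :=
  ⟨(b (b (a (l 16662024) (c (l 16686184) (l 16657208))) (a (c (l 16672840) (l 16664720)) (c (c (l 16695096) (l 16691016)) (l 16690080)))) (a (a (c (b (l 16679912) (c (l 16689064) (l 16684832))) (b (l 16671600) (l 16678408))) (c (b (l 16679576) (c (b (l 16686952) (l 16690528)) (l 16684480))) (b (l 16671208) (c (l 16680176) (l 16675840))))) (b (c (a (a (a (l 16679336) (c (l 16702312) (l 16698144))) (l 16679112)) (l 16678848)) (a (a (a (l 16670936) (l 16691816)) (l 16670680)) (l 16670376))) (c (a (a (a (c (l 16688520) (l 16684240)) (a (c (l 16688456) (l 16684168)) (a (a (c (l 16688424) (l 16684136)) (b (l 16684504) (c (l 16690200) (l 16685880)))) (c (l 16688400) (l 16684112))))) (c (l 16688304) (l 16684008))) (c (l 16688048) (l 16683736))) (a (a (a (l 16677744) (a (l 16677672) (c (b (l 16678072) (l 16681520)) (l 16675432)))) (l 16677488)) (l 16677184)))))), by decide +kernel⟩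

def k22_pm_022_a : ∃ t, chk3 f_pm_022_a t 21 6 1 = true :=
  ⟨(b (a (c (a (b (l 16550648) (l 16567456)) (b (l 16528200) (l 16545120))) (b (l 16566600) (l 16581144))) (c (b (l 16561560) (c (l 16543104) (l 16540984))) (b (l 16542864) (l 16557384)))) (b (c (a (c (l 16585840) (l 16582592)) (c (l 16562968) (l 16559456))) (a (l 16597816) (l 16574088))) (c (a (c (l 16606832) (l 16602336)) (c (l 16584440) (l 16579520))) (a (l 16615968) (l 16592352))))), by decide +kernel⟩

def k23_pm_022_a : ∃ t, chk3 f_pm_022_a t 21 14 1 = true :=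
  ⟨(b (c (a (c (l 16629384) (l 16623480)) (c (l 16627992) (l 16621584))) (a (c (l 16617456) (l 16611280)) (l 16632520))) (a (c (c (b (l 16627464) (l 16640616)) (b (l 16620784) (l 16633520))) (c (l 16662016) (l 16654968))) (c (c (b (l 16625240) (l 16637568)) (l 16644832)) (c (l 16637224) (l 16629464))))), by decide +kernel⟩

def k24_pm_022_a : ∃ t, chk3 f_pm_022_a t 21 30 1 = true :=
  ⟨(a (c (c (b (l 16674512) (a (l 16668728) (l 16666888))) (b (l 16646024) (l 16680208))) (b (a (l 16636584) (l 16633912)) (c (l 16672224) (l 16643176)))) (c (c (b (l 16650128) (l 16684760)) (b (l 16641976) (l 16676144))) (b (l 16650480) (c (l 16646432) (l 16637560))))), by decide +kernel⟩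

def k25_pm_022_a : ∃ t, chk3 f_pm_022_a t 21 31 2 = true :=
  ⟨(b (a (c (a (b (l 16679472) (l 16686768)) (b (l 16677680) (l 16685016))) (a (l 16695944) (l 16693776))) (c (b (l 16685240) (l 14)) (a (l 16691744) (l 16668872)))) (a (b (c (c (l 14) (a (l 16692072) (l 16690256))) (a (c (l 16687848) (l 16683600)) (c (l 16685824) (l 16681360)))) (c (a (c (l 14) (b (l 16702896) (a (c (l 14) (a (l 16701208) (l 16700712))) (l 14)))) (l 14)) (b (a (c (l 16693360) (l 16689024)) (c (l 16691360) (l 16686808))) (b (a (c (c (l 16697224) (l 16695048)) (l 16691760)) (c (c (l 16695296) (l 16693008)) (l 16689552))) (a (c (c (a (l 16699712) (l 16698704)) (a (l 16697544) (l 16696480))) (a (l 16694280) (l 16693128))) (a (c (c (l 16697736) (l 16695464)) (l 16697264)) (c (c (l 14) (l 16694488)) (c (l 16692144) (l 16689784))))))))) (c (l 14) (b (a (c (l 16683968) (l 16679288)) (c (l 16682264) (l 16677368))) (b (c (a (l 16689544) (l 14)) (a (l 16684768) (l 16682896))) (a (a (c (c (l 14) (b (l 16691696)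 (l 16693560))) (c (l 16690232) (l 16687824))) (c (l 14) (c (l 16694536) (l 16686832)))) (c (l 14) (b (l 16685688) (c (a (l 16689336) (l 14)) (a (l 16686808) (l 16685912))))))))))), by decide +kernel⟩

def k26_pm_022_a : ∃ t, chk3 f_pm_022_a t 21 31 3 = true :=
  ⟨(b (a (c (a (l 16666728) (l 16664152)) (a (l 16658368) (l 16655352))) (c (a (l 16661712) (l 16659400)) (a (l 16652488) (l 16649752)))) (a (b (c (a (l 16677160) (l 16674592)) (a (l 16668440) (l 16665416))) (c (a (c (b (l 16684656) (a (l 16688984) (l 16687720))) (a (l 16682808) (l 16681416))) (a (c (b (l 16682904) (l 16686496)) (l 16680080)) (c (b (l 16681720) (l 16685320)) (l 16678784)))) (a (b (l 16673552) (c (l 16679256) (l 16674696))) (b (l 16670528) (c (l 16676352) (l 16671560)))))) (b (c (a (l 16672184) (l 16669936)) (a (l 16662560) (l 16659856))) (c (a (a (c (b (l 16680584) (l 16684192)) (l 16677536)) (c (b (l 16679488) (l 16683112)) (l 16686816))) (c (b (l 16677848) (b (l 16680584) (a (l 16682992) (l 16682000))))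 (b (l 16672744) (a (l 16676952) (l 16675848))))) (a (c (b (l 16670152) (l 16673632)) (l 16666888)) (c (b (l 16667592) (l 16671096)) (l 16674584))))))), by decide +kernel⟩

def k27_pm_022_a : ∃ t, chk3 f_pm_022_a t 11 6 1 = true :=
  ⟨(a (b (a (c (b (l 16542768) (l 16560464)) (b (l 16518864) (l 16533520))) (c (b (l 16539368) (l 16557720)) (b (l 16515536) (l 16530584)))) (c (a (b (l 16580128) (c (l 16582496) (l 16577296))) (b (l 16577280) (c (l 16615752) (l 16573368)))) (a (b (l 16550440) (l 16589536)) (b (l 16547200) (l 16564184))))) (b (a (c (b (l 16547392) (l 16561728)) (l 16560944)) (c (b (l 16713536) (l 16721856)) (l 16554480))) (c (a (b (l 16578832) (l 16598960)) (b (l 16732360) (l 16661464))) (a (b (l 16542032) (l 16558656)) (b (l 16535288) (l 16552480)))))), by decide +kernel⟩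

def k28_pm_022_a : ∃ t, chk3 f_pm_022_a t 11 14 1 = true :=
  ⟨(a (a (c (b (c (l 16604056) (l 16597272)) (c (l 16648704) (l 16640768))) (b (l 16607512) (b (l 16601920) (l 16613096)))) (c (b (c (l 16638536) (l 16592848)) (c (l 16645168) (l 16615744))) (b (l 16602504) (l 16644552)))) (b (c (a (c (l 16790544) (l 16588256)) (c (l 16914080) (l 16607504))) (a (l 16576296) (l 16570856))) (c (a (c (b (l 16803688) (l 16814024)) (l 16611952)) (c (l 16925552) (l 16636960))) (a (l 16618896) (l 16614280))))), by decide +kernel⟩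

def k29_pm_022_a : ∃ t, chk3 f_pm_022_a t 22 15 1 = true :=
  ⟨(b (c (a (c (b (l 16646792) (l 16681736)) (b (l 16638040) (l 16651456))) (c (b (l 16690392) (l 16667080)) (b (l 16634448) (l 16648256)))) (a (b (l 16645544) (c (l 16641976) (l 16632320))) (b (l 16619968) (c (l 16638016) (l 16627568))))) (c (a (c (b (b (l 16672000) (l 14)) (l 14)) (a (c (b (l 16669536) (l 14)) (b (l 16664648) (b (l 16675608) (b (l 16681208) (a (c (l 14) (l 16686744)) (l 14)))))) (b (l 16665496) (b (c (l 14) (l 16674048)) (l 14))))) (b (b (c (l 16672064) (l 16659392)) (l 14)) (l 14))) (b (a (c (a (l 16657216) (l 16655200)) (a (l 16647144) (l 16644696))) (c (b (l 16648648) (l 16655880)) (a (l 16642416) (l 16640312)))) (b (a (c (a (l 16667848) (l 16665952)) (a (l 16657312) (l 16654952))) (c (a (l 16664248) (l 16662744)) (a (l 16652784) (l 16650792)))) (a (b (c (a (c (l 16675928) (l 16670600)) (c (l 16674208) (l 16668640))) (a (l 16662496) (l 16660176))) (c (b (a (c (l 16678696) (l 16673304)) (c (l 16677016)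 (l 16671384))) (a (c (c (a (l 16682400) (l 16681544)) (a (l 16679728) (l 16678808))) (c (l 16676480) (l 16673752))) (c (c (a (l 16680744) (l 14)) (a (l 16677952) (l 16677136))) (c (l 16674640) (l 16671784))))) (a (c (l 16673984) (l 16663208)) (c (b (l 16665688) (l 16667480)) (l 16660808))))) (a (b (c (c (l 16672704) (l 16666896)) (l 16658064)) (c (c (a (c (l 14) (l 16675440)) (l 14)) (b (l 16669664) (a (l 16671976) (l 16671176)))) (c (a (l 16665144) (l 16664216)) (l 16658600)))) (c (c (l 14) (b (l 16665344) (a (c (l 16671024) (l 16667968)) (c (l 14) (l 16667240))))) (b (l 16656144) (c (a (l 16663344) (l 16662520)) (l 16656600)))))))))), by decide +kernel⟩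

def k30_pm_022_a : ∃ t, chk3 f_pm_022_a t 23 15 1 = true :=
  ⟨(b (c (a (c (b (l 16825544) (a (l 16808936) (l 16867896))) (b (l 16631352) (l 16645648))) (c (b (l 16936968) (l 16904600)) (b (l 16662800) (l 16682544)))) (a (b (l 16615776) (c (l 16634600) (l 16623312))) (b (l 16611904) (c (l 16631696) (l 16619528))))) (c (b (b (a (c (l 16703544) (l 16657200)) (c (l 16934008) (l 16698872))) (c (a (l 14) (c (l 17023312) (l 14))) (l 14))) (c (a (l 14) (c (b (l 17028376) (l 17012824)) (l 14))) (l 14))) (b (a (c (b (l 16645584) (l 16653056)) (l 16658208)) (c (b (l 16643120) (l 14)) (l 16654944))) (b (a (c (c (l 14) (l 16678488)) (a (l 16648992) (l 16647376))) (c (l 14) (a (l 16645952) (l 16644720)))) (a (a (a (c (c (l 14) (b (l 16664360) (c (l 14) (l 16666568)))) (c (b (l 16658056) (l 16661752)) (l 16653480))) (c (c (l 14) (b (l 16663744) (l 14))) (c (b (l 16657312) (b (l 16660104) (l 16661976))) (l 16663104)))) (c (l 14) (b (l 16663400) (c (b (l 16659088) (c (a (l 16663008) (l 14)) (l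 16659296))) (a (l 16653640) (l 16652904)))))) (c (l 14) (b (a (l 16662088) (c (l 14) (l 16646896))) (a (a (c (c (l 14) (l 16657488)) (l 16652224)) (c (l 14) (l 16651600))) (c (l 14) (b (l 16649784) (a (l 16652000) (l 16656744)))))))))))), by decide +kernel⟩

def k31_pm_022_a : ∃ t, chk3 f_pm_022_a t 6 2 1 = true :=
  ⟨(a (b (a (c (b (a (l 16836256) (l 16953440)) (a (l 16838672) (l 16955976))) (a (b (l 16471000) (l 16464912)) (l 16509432))) (c (b (l 17086176) (l 17089664)) (b (l 16514520) (l 16513824)))) (a (b (c (a (l 16840976) (l 16956384)) (a (l 16465240) (l 16457960))) (c (a (b (l 16842568) (l 16844336)) (l 16934200)) (a (l 16498384) (l 16487040)))) (c (b (a (l 17049280) (l 17124168)) (a (l 17045608) (l 17118976))) (b (l 16518736) (a (l 16466064) (l 16586088)))))) (b (c (a (b (l 17205064) (l 17210824)) (l 17282584)) (a (b (l 16729352) (l 16728088)) (b (l 16875816) (l 16875288)))) (a (c (b (l 17210296) (c (l 17320464) (l 17087080))) (b (a (l 16682856) (l 16769496)) (a (l 16685752)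 (l 16768928)))) (c (b (l 17289144) (c (l 17385528) (l 17181904))) (b (a (l 16841864) (l 16902464)) (a (l 16838784) (l 16897840))))))), by decide +kernel⟩

def k32_pm_022_a : ∃ t, chk3 f_pm_022_a t 12 6 1 = true :=
  ⟨(a (b (c (a (b (l 16847192) (l 16851328)) (b (l 16955496) (l 16956728))) (a (l 16525016) (l 16514656))) (c (a (b (l 16857176) (l 16739224)) (b (l 16959312) (l 16921576))) (a (b (l 16527712) (l 16545816)) (b (l 16518992) (l 16538312))))) (c (b (a (c (l 17178632) (l 16906328)) (l 17114120)) (a (b (l 17043136) (l 17044776)) (c (l 17229736) (l 16993016)))) (b (b (l 16522064) (l 16535184)) (b (l 16561832) (a (l 16538192) (l 16641328)))))), by decide +kernel⟩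

def k33_pm_022_a : ∃ t, chk3 f_pm_022_a t 12 7 1 = true :=
  ⟨(b (a (c (b (a (c (l 17015296) (l 16734544)) (c (l 17098672) (l 16840072))) (a (c (l 17021976) (l 16756872)) (c (l 17101936) (l 16857080)))) (b (a (l 16565184) (l 16559064)) (a (l 16609768) (l 16605120)))) (c (b (a (l 16985152) (l 17113312)) (c (l 17197312) (a (l 16941096) (l 17011792)))) (b (a (l 16563880) (l 16662432)) (a (l 16595648) (c (l 16797512) (l 16580848)))))) (a (b (c (a (c (b (l 17029472) (l 17036280)) (b (l 16777008) (l 16771792))) (c (l 17108880) (b (l 16872976) (l 16885744)))) (a (b (l 16608320) (c (l 16629280) (l 16616192))) (c (l 16647176) (l 16626728)))) (c (c (a (b (l 16960888) (c (l 17110312) (b (l 16995536) (l 16918144)))) (b (l 17117824) (c (l 17177200) (l 17073472)))) (b (a (a (l 16660024) (l 16771672)) (a (l 16858496) (l 16920824))) (a (l 14) (a (l 14) (c (l 16987936) (l 14)))))) (a (a (c (b (l 16645840) (l 14)) (b (l 16632072) (c (l 14) (b (l 16640024) (b (l 16645888) (a (c (l 14) (l 16648176))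 (l 14))))))) (b (c (l 16645200) (l 16630920)) (b (c (l 14) (l 16642872)) (l 14)))) (b (c (b (l 16674864) (l 14)) (l 16650320)) (l 14))))) (c (b (c (a (l 17172688) (l 17226304)) (a (b (l 16953864) (l 16964432)) (l 17026632))) (c (a (b (l 17179432) (l 17185400)) (l 17233736)) (a (b (l 16934960) (a (c (l 17023136) (l 14)) (l 16944768))) (b (l 17042064) (c (l 17099960) (l 17008448)))))) (b (b (a (l 16623656) (l 16713848)) (a (c (l 16752128) (l 16610464)) (c (l 16832816) (l 16632152)))) (b (a (c (b (l 16767016) (l 14)) (l 16648840)) (c (b (l 16845992) (l 16834376)) (l 16636032))) (c (a (l 14) (a (l 14) (c (l 16933064) (l 14)))) (l 14))))))), by decide +kernel⟩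

def k34_pm_022_a : ∃ t, chk3 f_pm_022_a t 13 3 1 = true :=
  ⟨(b (a (c (b (c (l 17310024) (l 17084304)) (a (l 17126176) (l 17214888))) (b (a (l 16698008) (l 16776992)) (a (b (l 16713792) (l 16728128)) (b (l 16789584) (l 16801528))))) (c (b (c (l 17375944) (l 17176840)) (a (l 17253792) (l 17286224))) (b (a (l 16843472) (l 16899584)) (a (b (l 16853728) (l 16863952)) (b (l 16908136) (l 16917096)))))) (b (a (c (c (b (l 17292400) (l 17290416)) (b (l 17090240) (l 17097784))) (b (a (l 16745800) (l 16816688)) (a (b (l 16762800) (l 16776192)) (l 16753832)))) (c (c (l 17356192) (b (l 17177864) (l 17183568))) (b (a (l 16877288) (l 16929144)) (a (l 16833600) (l 16947056))))) (a (c (b (c (l 17291216) (a (l 17084120) (l 17133112))) (c (l 17296632) (a (b (l 17097776) (l 17108672)) (l 17150272)))) (b (a (b (l 16770064) (c (l 16901984) (l 16713672))) (b (l 16857424) (c (l 16961504) (l 16784248)))) (b (a (c (l 16897128) (l 16631512)) (c (l 16976368) (b (l 16799856) (l 16810912)))) (c (a (c (l 16979312)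 (a (l 14) (l 16908144))) (b (l 16988576) (l 16997240))) (a (l 14) (a (l 14) (c (l 16884584) (l 14)))))))) (c (b (c (l 17355264) (l 17193248)) (c (l 17359200) (a (l 17190752) (l 17225376)))) (b (a (c (l 17006728) (b (l 16828120) (l 16845592))) (c (l 17051304) (l 16890432))) (c (a (b (l 17026768) (l 17042216)) (l 17077472)) (b (a (l 16823496) (l 16917760)) (a (a (c (l 16912752) (l 14)) (a (l 16894016) (l 16907272))) (a (l 16926344) (l 16950312)))))))))), by decide +kernel⟩

def k35_pm_022_a : ∃ t, chk3 f_pm_022_a t 7 1 1 = true :=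
  ⟨(a (b (a (b (c (l 17330216) (b (l 16981256) (l 16982816))) (c (b (l 17341808) (l 17339976)) (b (l 16981824) (a (l 16951696) (l 17001216))))) (b (c (l 17358560) (l 17061248)) (c (l 17375032) (b (l 17065040) (l 17063056))))) (b (a (c (b (l 17334424) (a (l 17315336) (l 17340752))) (b (a (l 16952128) (l 17001424)) (a (l 16900688) (l 17012368)))) (c (b (l 17373792) (l 17369688)) (b (l 17063160) (l 17073128)))) (a (b (c (a (l 17312632) (l 17337832)) (a (b (l 16979024) (l 16995592)) (b (l 17026464) (l 17041592)))) (c (b (a (l 17317448) (l 17341664)) (c (l 17404264) (l 17272152))) (b (a (c (l 17093312) (l 16942056)) (l 17062088)) (a (c (l 17118176) (b (l 16967536) (a (l 16974840) (l 17000496)))) (b (l 17083304) (l 17079888)))))) (b (c (l 17366456) (b (l 17085456) (l 17099568))) (b (c (l 17369096) (l 17119768)) (c (l 17375256) (a (l 17109800) (l 17163800)))))))) (b (b (c (l 17371936) (l 17137600)) (c (l 17397928) (b (l 17147304) (l 17148872)))) (b (c (b (l 17401960) (l 17397640)) (b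 (a (l 17125600) (l 17169312)) (a (l 17134664) (l 17178000)))) (b (c (a (l 17388456) (l 17394128)) (a (l 17153072) (l 17194760))) (c (a (l 17390920) (l 17393928)) (a (b (l 17178368) (l 17202592)) (b (l 17216816) (l 17236760)))))))), by decide +kernel⟩

theorem s36_pm_022_a : ∃ t, chk3 f_pm_022_a t 12 3 1 = true := ex3_b k32_pm_022_a k33_pm_022_a

theorem s37_pm_022_a : ∃ t, chk3 f_pm_022_a t 6 3 1 = true := ex3_a s36_pm_022_a k34_pm_022_a

theorem s38_pm_022_a : ∃ t, chk3 f_pm_022_a t 6 1 1 = true := ex3_b k31_pm_022_a s37_pm_022_a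

theorem s39_pm_022_a : ∃ t, chk3 f_pm_022_a t 3 1 1 = true := ex3_a s38_pm_022_a k35_pm_022_a

theorem s40_pm_022_a : ∃ t, chk3 f_pm_022_a t 11 15 1 = true := ex3_a k29_pm_022_a k30_pm_022_a

theorem s41_pm_022_a : ∃ t, chk3 f_pm_022_a t 11 7 1 = true := ex3_b k28_pm_022_a s40_pm_022_a

theorem s42_pm_022_a : ∃ t, chk3 f_pm_022_a t 11 3 1 = true := ex3_b k27_pm_022_a s41_pm_022_a

theorem s43_pm_022_a : ∃ t, chk3 f_pm_022_a t 21 31 1 = true := ex3_c k25_pm_022_a k26_pm_022_a

theorem s44_pm_022_a : ∃ t, chk3 f_pm_022_a t 21 15 1 = true := ex3_b k24_pm_022_a s43_pm_022_a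

theorem s45_pm_022_a : ∃ t, chk3 f_pm_022_a t 21 7 1 = true := ex3_b k23_pm_022_a s44_pm_022_a

theorem s46_pm_022_a : ∃ t, chk3 f_pm_022_a t 21 3 1 = true := ex3_b k22_pm_022_a s45_pm_022_a

theorem s47_pm_022_a : ∃ t, chk3 f_pm_022_a t 167 31 1 = true := ex3_c k20_pm_022_a k21_pm_022_a

theorem s48_pm_022_a : ∃ t, chk3 f_pm_022_a t 83 31 1 = true := ex3_a k19_pm_022_a s47_pm_022_a

theorem s49_pm_022_a : ∃ t, chk3 f_pm_022_a t 83 15 1 = true := ex3_b k18_pm_022_a s48_pm_022_a

theorem s50_pm_022_a : ∃ t, chk3 f_pm_022_a t 41 15 1 = true := ex3_a k17_pm_022_a s49_pm_022_a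

theorem s51_pm_022_a : ∃ t, chk3 f_pm_022_a t 41 7 1 = true := ex3_b k16_pm_022_a s50_pm_022_a

theorem s52_pm_022_a : ∃ t, chk3 f_pm_022_a t 40 31 1 = true := ex3_c k14_pm_022_a k15_pm_022_a

theorem s53_pm_022_a : ∃ t, chk3 f_pm_022_a t 40 15 1 = true := ex3_b k13_pm_022_a s52_pm_022_a

theorem s54_pm_022_a : ∃ t, chk3 f_pm_022_a t 40 7 1 = true := ex3_b k12_pm_022_a s53_pm_022_a

theorem s55_pm_022_a : ∃ t, chk3 f_pm_022_a t 20 7 1 = true := ex3_a s54_pm_022_a s51_pm_022_a

theorem s56_pm_022_a : ∃ t, chk3 f_pm_022_a t 20 3 1 = true := ex3_b k11_pm_022_a s55_pm_022_a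

theorem s57_pm_022_a : ∃ t, chk3 f_pm_022_a t 10 3 1 = true := ex3_a s56_pm_022_a s46_pm_022_a

theorem s58_pm_022_a : ∃ t, chk3 f_pm_022_a t 5 3 1 = true := ex3_a s57_pm_022_a s42_pm_022_a

theorem s59_pm_022_a : ∃ t, chk3 f_pm_022_a t 39 7 1 = true := ex3_b k9_pm_022_a k10_pm_022_a

theorem s60_pm_022_a : ∃ t, chk3 f_pm_022_a t 19 7 1 = true := ex3_a k8_pm_022_a s59_pm_022_a

theorem s61_pm_022_a : ∃ t, chk3 f_pm_022_a t 18 7 1 = true := ex3_b k6_pm_022_a k7_pm_022_a

theorem s62_pm_022_a : ∃ t, chk3 f_pm_022_a t 9 7 1 = true := ex3_a s61_pm_022_a s60_pm_022_a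

theorem s63_pm_022_a : ∃ t, chk3 f_pm_022_a t 4 7 1 = true := ex3_a k5_pm_022_a s62_pm_022_a

theorem s64_pm_022_a : ∃ t, chk3 f_pm_022_a t 4 3 1 = true := ex3_b k4_pm_022_a s63_pm_022_a

theorem s65_pm_022_a : ∃ t, chk3 f_pm_022_a t 2 3 1 = true := ex3_a s64_pm_022_a s58_pm_022_a

theorem s66_pm_022_a : ∃ t, chk3 f_pm_022_a t 10 2 1 = true := ex3_a k1_pm_022_a k2_pm_022_a

theorem s67_pm_022_a : ∃ t, chk3 f_pm_022_a t 5 2 1 = true := ex3_a s66_pm_022_a k3_pm_022_a

theorem s68_pm_022_a : ∃ t, chk3 f_pm_022_a t 2 2 1 = true := ex3_a k0_pm_022_a s67_pm_022_a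

theorem s69_pm_022_a : ∃ t, chk3 f_pm_022_a t 2 1 1 = true := ex3_b s68_pm_022_a s65_pm_022_a

theorem s70_pm_022_a : ∃ t, chk3 f_pm_022_a t 1 1 1 = true := ex3_a s69_pm_022_a s39_pm_022_a

theorem c_pm_022_a : CertN 0 536870912 0 536870912 201326592 134217728 3 true true false .pp 0 2 2
    ndN0q0 ndN1q2a pcN2 cut_pm_022_a Ext.none :=
  certN2 (fam := true) (s1 := true) (s2 := false) (a := 0) (b := 2) (c := 2) (cn := .pp) (n1 := ndN0q0) (n2 := ndN1q2a) (pc := pcN2) (cut := cut_pm_022_a) (xt := Ext.none) (P1 := 0) (W1 := 536870912) (P2 := 0) (W2 := 536870912) (P3 := 201326592) (W3 := 134217728) (N0 := 3)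
    rfl (fun _ => rfl) s70_pm_022_a

noncomputable def cut_pm_022_b : Cut := Cut.of [[⟨0, 0, 0, 67108864⟩, ⟨1, 1, 0, 67108864⟩, ⟨2, 1, 0, 67108864⟩], [⟨0, 0, 1, 67108864⟩, ⟨1, 1, 0, 16777216⟩, ⟨2, 1, 1, 67108864⟩]]

noncomputable def f_pm_022_b : ℕ → ℕ → ℕ → ℕ → Bool := onCell 0 536870912 1073741824 536870912 201326592 134217728
    (rowN 3 1 true true false .pp 0 2 2 (qsf 0 536870912 1239849684 370763052 2) ndN0q0 ndN1q2b pcN2 cut_pm_022_b Ext.none)

def k0_pm_022_b : ∃ t, chk3 f_pm_022_b t 2 2 1 = true :=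
  ⟨(a (b (l 1) (b (a (b (b (l 1) (b (l 1) (a (a (b (l 1) (b (l 1) (c (l 16525744) (l 16515792)))) (l 1)) (l 1)))) (b (a (c (a (c (l 16496288) (l 16498176)) (l 21507921719)) (a (l 16498952) (l 16527160))) (l 1)) (c (a (a (l 16489664) (l 16499920)) (b (l 1) (l 16540888))) (a (a (l 16471776) (l 16501392)) (a (l 16509512) (l 1)))))) (l 1)) (b (a (a (c (b (a (l 16438264) (b (l 16436632) (l 16421072))) (c (l 16472728) (l 16424616))) (b (l 16478944) (l 16428264))) (c (b (c (l 16517408) (l 16518808)) (c (l 16510200) (l 16468272))) (b (l 16539464) (l 16490352)))) (a (b (l 1) (c (l 36540399223) (l 16552328))) (l 1))) (b (a (a (c (l 16444160) (l 16397616)) (c (l 16464312) (l 16439488))) (a (c (l 16552928) (l 16524496)) (l 1))) (a (c (a (l 16651320) (l 16664432)) (a (l 16344944) (l 16408224))) (c (a (l 16681632) (l 16684352)) (a (l 16473864) (l 16539248)))))))) (l 1)), by decide +kernel⟩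

def k1_pm_022_b : ∃ t, chk3 f_pm_022_b t 2 3 1 = true :=
  ⟨(b (b (a (a (b (c (a (b (l 16849504) (l 17022600)) (b (l 16841048) (l 16997424))) (b (a (l 16312408) (l 16355136)) (a (l 16278856) (l 16322000)))) (c (a (l 17075736) (l 17199952)) (a (l 16329912) (l 16371280)))) (b (a (c (b (l 16835688) (l 16974592)) (l 16509760)) (c (b (l 16835600) (l 16955976)) (b (l 16509984) (l 16457928)))) (c (a (l 17157768) (l 17055672)) (a (l 16414952) (l 16462352))))) (a (b (a (c (b (l 1) (l 16943088)) (l 52109759735)) (l 1)) (c (a (l 45667735047) (l 93449348759)) (a (l 16556416) (l 58015328295)))) (l 1))) (a (a (c (b (c (l 17640944) (l 17256952)) (l 17629544)) (b (a (l 16659688) (l 16669248)) (a (l 16921608) (l 16910144)))) (c (b (a (l 17361392) (l 17304280)) (l 17492072)) (b (a (l 16680024) (l 16693144)) (a (l 16899120) (l 16889400))))) (a (b (c (a (l 17251400) (l 17202248)) (a (l 16709840) (l 49425341911))) (c (l 17237440) (a (l 16882512) (l 16878040)))) (a (b (c (l 107945103303) (l 69826609671))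 (c (l 17274528) (l 60163068151))) (b (l 1) (c (l 122977669079) (l 95059803927))))))) (b (a (c (b (a (l 17767488) (l 17620024)) (l 17800848)) (b (a (l 17107352) (l 17060496)) (a (l 17258840) (l 17196360)))) (a (b (c (l 17479664) (l 17019864)) (c (l 17578224) (l 17139328))) (c (b (l 87544471863) (l 17440760)) (b (a (l 16994552) (l 16980136)) (l 17089288))))) (a (c (l 17929184) (a (l 17442216) (l 17362992))) (c (a (l 17698680) (l 17553992)) (a (l 17288208) (l 17219400)))))), by decide +kernel⟩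

def k2_pm_022_b : ∃ t, chk3 f_pm_022_b t 3 1 1 = true :=
  ⟨(a (b (l 1) (b (l 1) (a (b (b (c (l 184181142103) (a (l 147136437671) (l 1))) (c (l 17312512) (l 115998084791))) (c (l 17417128) (l 87007310951))) (b (l 1) (c (l 179886204151) (l 166464166311)))))) (l 1)), by decide +kernel⟩

theorem s3_pm_022_b : ∃ t, chk3 f_pm_022_b t 2 1 1 = true := ex3_b k0_pm_022_b k1_pm_022_b

theorem s4_pm_022_b : ∃ t, chk3 f_pm_022_b t 1 1 1 = true := ex3_a s3_pm_022_b k2_pm_022_b

theorem c_pm_022_b : CertN 0 536870912 1239849684 370763052 201326592 134217728 3 true true false .pp 0 2 2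
    ndN0q0 ndN1q2b pcN2 cut_pm_022_b Ext.none :=
  certN1 (fam := true) (s1 := true) (s2 := false) (a := 0) (b := 2) (c := 2) (cn := .pp) (n1 := ndN0q0) (n2 := ndN1q2b) (pc := pcN2) (cut := cut_pm_022_b) (xt := Ext.none) (P1 := 0) (W1 := 536870912) (P2 := 1239849684) (W2 := 370763052) (P3 := 201326592) (W3 := 134217728) (N0 := 3)
    rfl (fun _ => rfl) s4_pm_022_b

noncomputable def f_pm_023_a : ℕ → ℕ → ℕ → ℕ → Bool := onCell 0 536870912 0 536870912 201326592 134217728
    (rowN 3 0 true true false .up 0 2 3 (qsf 0 536870912 0 536870912 3) ndN0q0 ndN1q2a pcN3 Cut.none Ext.none)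

def k0_pm_023_a : ∃ t, chk3 f_pm_023_a t 1 1 1 = true :=
  ⟨(a (l 1) (a (b (a (l 1) (c (b (l 17461136) (l 149285277031)) (b (a (l 103650334263) (l 17166488)) (a (l 1) (b (l 17174896) (l 172906572695)))))) (b (l 1) (l 1))) (b (c (a (b (l 17414968) (l 17539888)) (b (l 17334424) (l 17393104))) (a (b (a (l 17173672) (l 17168824)) (a (b (l 17191120) (l 17187488)) (l 17196696))) (b (l 17147224) (l 17336608)))) (b (a (c (b (l 117609948119) (l 118683350695)) (b (a (c (l 17240664) (l 121903906615)) (l 17189952)) (a (l 109555597063) (l 17159184)))) (c (b (l 17428000) (l 17430200)) (b (a (l 17202800) (l 17205224)) (a (l 17187752) (l 17203392))))) (b (a (c (l 121904473031) (a (l 1) (l 126735536567))) (c (l 17419016) (a (l 111166464663) (l 17198744)))) (a (l 1) (c (l 111167221943) (a (l 151968777847) (c (l 17257840) (l 112777187207)))))))))), by decide +kernel⟩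

theorem c_pm_023_a : CertN 0 536870912 0 536870912 201326592 134217728 3 true true false .up 0 2 3
    ndN0q0 ndN1q2a pcN3 Cut.none Ext.none :=
  certN0 (fam := true) (s1 := true) (s2 := false) (a := 0) (b := 2) (c := 3) (cn := .up) (n1 := ndN0q0) (n2 := ndN1q2a) (pc := pcN3) (cut := Cut.none) (xt := Ext.none) (P1 := 0) (W1 := 536870912) (P2 := 0) (W2 := 536870912) (P3 := 201326592) (W3 := 134217728) (N0 := 3)
    rfl k0_pm_023_a

noncomputable def f_pm_023_b : ℕ → ℕ → ℕ → ℕ → Bool := onCell 1610612736 536870912 1239849684 370763052 201326592 134217728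
    (rowN 3 2 true true false .up 0 2 3 (qsf 0 536870912 1239849684 370763052 3) ndN0q0 ndN1q2b pcN3 Cut.none Ext.none)

def k0_pm_023_b : ∃ t, chk3 f_pm_023_b t 1 1 1 = true :=
  ⟨(a (a (b (b (c (a (b (a (l 17475520) (l 17449200)) (l 17542416)) (b (l 17389384) (l 17474592))) (a (b (a (l 17184216) (l 17185856)) (l 17249176)) (b (a (l 17177296) (l 17160656)) (l 17233488)))) (a (c (l 17656632) (b (l 17312392) (l 17375936))) (c (l 17592272) (b (l 17298040) (l 17357488))))) (b (a (c (l 17797976) (l 17513800)) (c (l 17723176) (l 17449456))) (a (c (l 17933184) (l 17599808)) (c (l 17852120) (l 17572256))))) (b (b (a (b (c (l 17294856) (l 17229360)) (c (l 17380168) (l 17187856))) (b (a (l 240619722951) (l 2)) (c (l 17268360) (l 17122600)))) (a (b (c (l 17463600) (l 17254600)) (l 17452000)) (b (c (l 17346760) (l 17189080)) (l 17343368)))) (b (a (c (l 17638216) (l 17411280)) (c (l 17541120) (l 17357608))) (a (l 17798160) (l 17571576))))) (b (b (l 2) (a (a (b (l 293233471511) (l 17288264))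 (a (l 309339531895) (l 2))) (l 2))) (a (a (b (b (l 17320080) (l 17391968)) (a (l 17506168) (l 17462704))) (b (a (l 17280768) (l 17396888)) (a (l 17413120) (l 4)))) (l 4)))), by decide +kernel⟩

theorem c_pm_023_b : CertN 0 536870912 1239849684 370763052 201326592 134217728 3 true true false .up 0 2 3
    ndN0q0 ndN1q2b pcN3 Cut.none Ext.none :=
  certN2 (fam := true) (s1 := true) (s2 := false) (a := 0) (b := 2) (c := 3) (cn := .up) (n1 := ndN0q0) (n2 := ndN1q2b) (pc := pcN3) (cut := Cut.none) (xt := Ext.none) (P1 := 0) (W1 := 536870912) (P2 := 1239849684) (W2 := 370763052) (P3 := 201326592) (W3 := 134217728) (N0 := 3)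
    rfl (fun _ => rfl) k0_pm_023_b

noncomputable def f_pm_033 : ℕ → ℕ → ℕ → ℕ → Bool := onCell 0 536870912 1610612736 536870912 201326592 134217728
    (rowN 3 1 true true false .pnn 0 3 3 (qsf 0 536870912 1610612736 536870912 3) ndN0q0 ndN1q3 pcN3 Cut.none Ext.none)

def k0_pm_033 : ∃ t, chk3 f_pm_033 t 1 1 1 = true :=
  ⟨(b (a (b (c (a (b (l 17891888) (l 17888328)) (l 286188048615)) (a (b (l 115462990919) (l 17671024)) (l 265786457223))) (b (a (c (l 17895416) (l 17666784)) (c (l 17663864) (l 17464688))) (a (c (l 17885480) (l 17658240)) (l 17611808)))) (b (l 1) (a (b (l 1) (l 253437925959)) (l 1)))) (b (a (b (a (b (l 17744320) (l 4)) (b (l 17559704) (l 17546560))) (l 4)) (a (b (l 216931090343) (l 17357952)) (b (l 1) (l 269544013143)))) (a (l 4) (l 4)))), by decide +kernel⟩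

theorem c_pm_033 : CertN 0 536870912 1610612736 536870912 201326592 134217728 3 true true false .pnn 0 3 3
    ndN0q0 ndN1q3 pcN3 Cut.none Ext.none :=
  certN1 (fam := true) (s1 := true) (s2 := false) (a := 0) (b := 3) (c := 3) (cn := .pnn) (n1 := ndN0q0) (n2 := ndN1q3) (pc := pcN3) (cut := Cut.none) (xt := Ext.none) (P1 := 0) (W1 := 536870912) (P2 := 1610612736) (W2 := 536870912) (P3 := 201326592) (W3 := 134217728) (N0 := 3)
    rfl (fun _ => rfl) k0_pm_033

noncomputable def cut_pm_101 : Cut := Cut.of [[⟨0, 1, 0, 67108864⟩, ⟨1, 0, 0, 67108864⟩, ⟨2, 1, 0, 67108864⟩]]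

noncomputable def f_pm_101 : ℕ → ℕ → ℕ → ℕ → Bool := onCell 536870912 536870912 0 536870912 201326592 134217728
    (rowN 3 2 true true false .npn 1 0 1 (qsf 536870912 536870912 0 536870912 1) ndN0q1 ndN1q0 pcN1 cut_pm_101 Ext.none)

def k0_pm_101 : ∃ t, chk3 f_pm_101 t 1 1 1 = true :=
  ⟨(a (l 3) (b (a (l 3) (b (a (l 3) (a (l 3) (b (a (l 3) (b (l 6) (l 3))) (l 3)))) (l 3))) (l 3))), by decide +kernel⟩

theorem c_pm_101 : CertN 536870912 536870912 0 536870912 201326592 134217728 3 true true false .npn 1 0 1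
    ndN0q1 ndN1q0 pcN1 cut_pm_101 Ext.none :=
  certN2 (fam := true) (s1 := true) (s2 := false) (a := 1) (b := 0) (c := 1) (cn := .npn) (n1 := ndN0q1) (n2 := ndN1q0) (pc := pcN1) (cut := cut_pm_101) (xt := Ext.none) (P1 := 536870912) (W1 := 536870912) (P2 := 0) (W2 := 536870912) (P3 := 201326592) (W3 := 134217728) (N0 := 3)
    rfl (fun _ => rfl) k0_pm_101

noncomputable def cut_pm_102 : Cut := Cut.of [[⟨0, 1, 0, 67108864⟩, ⟨1, 0, 0, 67108864⟩, ⟨2, 1, 0, 67108864⟩]]

noncomputable def f_pm_102 : ℕ → ℕ → ℕ → ℕ → Bool := onCell 536870912 536870912 1073741824 536870912 201326592 134217728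
    (rowN 3 1 true true false .npp 1 0 2 (qsf 536870912 536870912 0 536870912 2) ndN0q1 ndN1q0 pcN2 cut_pm_102 Ext.none)

def k0_pm_102 : ∃ t, chk3 f_pm_102 t 2 1 1 = true :=
  ⟨(b (b (b (l 3) (b (a (l 3) (a (b (l 3) (a (l 263235172535) (l 17071560))) (c (l 142439574311) (b (l 251960892871) (l 169282807047))))) (a (a (l 2) (b (c (l 164451282055) (l 173577920743)) (c (l 17192816) (l 17115256)))) (a (c (b (l 17107936) (l 17089672)) (b (l 173040801607) (l 17034608))) (c (l 17198624) (b (l 16966000) (l 16950224))))))) (b (b (b (a (a (l 2) (l 75263434647)) (a (a (l 17069232) (l 17021080)) (l 16944776))) (a (l 2) (a (b (l 17031992) (l 17020360)) (l 16965664)))) (a (l 2) (a (l 16999304) (l 16896424)))) (a (l 2) (a (l 16957576) (l 16849696))))) (a (l 2) (b (a (l 2) (l 16799976)) (l 2)))), by decide +kernel⟩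

def k1_pm_102 : ∃ t, chk3 f_pm_102 t 3 1 1 = true :=
  ⟨(b (a (b (b (b (l 3) (a (b (l 3) (c (l 172503920231) (l 145660486439))) (b (c (l 17033448) (l 145123438135)) (l 17063840)))) (a (b (c (l 17142112) (l 17163128)) (l 17110456)) (b (l 17043632) (l 16941704)))) (b (b (a (l 17016312) (b (l 16814400) (l 16908648))) (a (l 16814680) (l 16835232))) (b (l 17051952) (l 16995352)))) (b (a (a (b (b (b (l 3) (l 145660177959)) (b (l 16928616) (l 16880064))) (b (l 16916384) (l 17010368))) (b (b (b (l 3) (l 144586343319)) (b (l 16886512) (l 16859480))) (b (l 16940864) (b (l 16811000) (l 16811592))))) (b (b (a (a (b (l 212231918263) (l 16874104)) (b (a (l 199347007271) (l 6)) (l 16862680))) (b (l 6) (a (a (l 16843088) (l 6)) (l 6)))) (a (b (b (l 16845832) (l 16816880)) (l 16882760)) (a (b (l 16777672) (l 16771512)) (b (a (l 16764952) (l 6)) (l 16775736))))) (b (a (l 16789000) (a (l 16766712) (l 16771480))) (b (a (l 16788824) (l 16760512)) (a (l 16790384) (l 16846872)))))) (b (b (b (a (l 16823600)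 (a (l 16794640) (l 16789440))) (a (l 17057408) (b (a (l 16797872) (l 16772104)) (c (l 16963560) (b (l 16781712) (l 16803608)))))) (a (l 16828840) (a (l 16799800) (l 16772984)))) (a (b (l 16859184) (l 16922880)) (b (a (l 16807904) (l 16781032)) (l 16830376)))))) (b (b (a (a (l 16872360) (l 16953888)) (a (b (l 16979856) (l 17029056)) (b (l 16921888) (l 17026448)))) (a (a (l 16928168) (l 17022240)) (a (l 17091224) (b (l 17089856) (l 17140288))))) (b (a (a (l 2) (l 17076936)) (a (b (l 17145880) (l 17174024)) (b (l 17190928) (l 17233672)))) (a (l 2) (a (l 17203608) (l 17273560)))))), by decide +kernel⟩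

theorem s2_pm_102 : ∃ t, chk3 f_pm_102 t 1 1 1 = true := ex3_a k0_pm_102 k1_pm_102

theorem c_pm_102 : CertN 536870912 536870912 0 536870912 201326592 134217728 3 true true false .npp 1 0 2
    ndN0q1 ndN1q0 pcN2 cut_pm_102 Ext.none :=
  certN1 (fam := true) (s1 := true) (s2 := false) (a := 1) (b := 0) (c := 2) (cn := .npp) (n1 := ndN0q1) (n2 := ndN1q0) (pc := pcN2) (cut := cut_pm_102) (xt := Ext.none) (P1 := 536870912) (W1 := 536870912) (P2 := 0) (W2 := 536870912) (P3 := 201326592) (W3 := 134217728) (N0 := 3)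
    rfl (fun _ => rfl) s2_pm_102

noncomputable def f_pm_112 : ℕ → ℕ → ℕ → ℕ → Bool := onCell 536870912 536870912 1073741824 536870912 201326592 134217728
    (rowN 3 1 true true false .dn 1 1 2 (qsf 536870912 536870912 536870912 536870912 2) ndN0q1 ndN1q1 pcN2 Cut.none Ext.none)

def k0_pm_112 : ∃ t, chk3 f_pm_112 t 1 1 1 = true :=
  ⟨(a (b (b (b (l 3) (a (b (l 3) (b (a (l 3) (c (l 17253552) (l 23119806759))) (a (c (l 17209080) (l 17070152)) (c (l 17259864) (l 17100584))))) (a (a (b (l 1) (b (l 1) (l 248068666615))) (l 1)) (l 1)))) (b (b (b (a (a (c (l 17216464) (l 17071528)) (c (l 17264800) (l 17103720))) (a (c (l 17335792) (l 17266376)) (l 1))) (a (b (a (l 17144616) (l 17185472)) (b (a (l 17147280) (l 17186208)) (b (a (l 17147896) (l 17183208)) (a (l 17147552) (l 17179296))))) (a (b (l 16677569687) (c (l 17325016) (l 17153008))) (l 1)))) (a (a (l 17156272) (l 17184952)) (a (l 17236520) (l 259880180711)))) (a (a (c (l 17279992) (l 17096128)) (l 17209168)) (a (l 17249080) (l 17313192)))))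 (a (b (a (b (l 17234912) (l 17292248)) (b (l 17248936) (l 17296088))) (a (b (l 17357440) (l 17428280)) (l 17520264))) (b (a (l 17283792) (l 17318184)) (a (l 17346320) (l 17333328))))) (b (a (b (l 1) (b (l 1) (a (l 256122713143) (l 1)))) (l 1)) (b (b (a (a (l 17377584) (l 252364642695)) (l 1)) (a (a (l 17362752) (l 17515808)) (b (l 1) (l 17466504)))) (b (a (b (l 17369048) (l 17358696)) (b (l 17438768) (l 17416688))) (a (l 17341424) (l 17388104)))))), by decide +kernel⟩

theorem c_pm_112 : CertN 536870912 536870912 536870912 536870912 201326592 134217728 3 true true false .dn 1 1 2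
    ndN0q1 ndN1q1 pcN2 Cut.none Ext.none :=
  certN1 (fam := true) (s1 := true) (s2 := false) (a := 1) (b := 1) (c := 2) (cn := .dn) (n1 := ndN0q1) (n2 := ndN1q1) (pc := pcN2) (cut := Cut.none) (xt := Ext.none) (P1 := 536870912) (W1 := 536870912) (P2 := 536870912) (W2 := 536870912) (P3 := 201326592) (W3 := 134217728) (N0 := 3)
    rfl (fun _ => rfl) k0_pm_112

noncomputable def f_pm_113 : ℕ → ℕ → ℕ → ℕ → Bool := onCell 536870912 536870912 1610612736 536870912 201326592 134217728
    (rowN 3 1 true true false .nn 1 1 3 (qsf 536870912 536870912 536870912 536870912 3) ndN0q1 ndN1q1 pcN3 Cut.none Ext.none)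

def k0_pm_113 : ∃ t, chk3 f_pm_113 t 1 1 1 = true :=
  ⟨(b (a (a (b (a (l 17625504) (b (l 17411480) (l 17476632))) (a (l 2) (b (l 17523264) (l 2)))) (b (a (l 17369136) (l 17330496)) (a (b (l 17428536) (l 17613992)) (l 17361360)))) (b (a (a (l 17280520) (l 17242016)) (a (l 17348560) (l 17293432))) (a (a (l 17293488) (b (l 17172880) (l 17116072))) (b (l 17443832) (a (l 17150320) (l 17146456)))))) (b (a (a (l 2) (a (l 2) (b (l 130561901335) (l 2)))) (a (a (b (l 17226512) (l 17203464)) (b (l 17083328) (l 17050696))) (b (a (l 17074824) (l 17078608)) (b (l 17029224) (l 16995240))))) (a (l 2) (b (a (a (l 2) (l 17251376)) (b (l 16955344) (l 16906576))) (a (l 2) (b (l 16850152) (a (l 2) (l 4)))))))), by decide +kernel⟩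

theorem c_pm_113 : CertN 536870912 536870912 536870912 536870912 201326592 134217728 3 true true false .nn 1 1 3
    ndN0q1 ndN1q1 pcN3 Cut.none Ext.none :=
  certN1 (fam := true) (s1 := true) (s2 := false) (a := 1) (b := 1) (c := 3) (cn := .nn) (n1 := ndN0q1) (n2 := ndN1q1) (pc := pcN3) (cut := Cut.none) (xt := Ext.none) (P1 := 536870912) (W1 := 536870912) (P2 := 536870912) (W2 := 536870912) (P3 := 201326592) (W3 := 134217728) (N0 := 3)
    rfl (fun _ => rfl) k0_pm_113

noncomputable def cut_pm_123_a : Cut := Cut.of [[⟨0, 1, 0, 57167902⟩, ⟨1, 1, 0, 57167902⟩, ⟨2, 2, 0, 11758673⟩]]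

noncomputable def f_pm_123_a : ℕ → ℕ → ℕ → ℕ → Bool := onCell 1610612736 536870912 0 536870912 201326592 134217728
    (rowN 3 2 true true false .npn 1 2 3 (qsf 536870912 536870912 0 536870912 3) ndN0q1 ndN1q2a pcN3 cut_pm_123_a Ext.none)

def k0_pm_123_a : ∃ t, chk3 f_pm_123_a t 2 1 1 = true :=
  ⟨(a (b (a (l 1) (b (l 1) (c (l 17404592) (a (l 1) (l 17187328))))) (b (a (l 1) (c (b (l 17413992) (l 17406072)) (b (l 42447716119) (a (l 17206152) (l 17208048))))) (a (b (c (l 55869798151) (a (l 1) (l 17203824))) (c (a (l 17412432) (l 17398552)) (a (b (l 17203632) (c (l 17276896) (l 17181232))) (b (l 17226616) (l 17247808))))) (b (c (l 17382128) (a (l 17215528) (l 17215616))) (c (l 17358288) (a (l 17242216) (l 17234432))))))) (b (a (b (c (l 17284120) (l 17123000)) (c (l 17325408) (l 17288520))) (a (b (l 17144440) (l 17190376)) (b (l 17104344) (l 17151136)))) (b (a (c (b (l 17345256) (l 17346992)) (b (l 17183808) (l 17382488))) (a (c (l 17283520) (l 17364960)) (c (l 17236120) (l 17209008))))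 (a (b (c (l 17320464) (l 17239752)) (a (c (l 17300824) (l 17216136)) (c (l 17254008) (l 17188840)))) (b (a (l 17211160) (l 17172872)) (c (b (l 17255328) (l 17152696)) (a (l 17153864) (l 17113376)))))))), by decide +kernel⟩

def k1_pm_123_a : ∃ t, chk3 f_pm_123_a t 6 1 1 = true :=
  ⟨(b (a (b (c (a (l 17117088) (l 17065784)) (a (l 17016848) (l 16981120))) (c (l 17136224) (a (l 17060784) (l 17022272)))) (b (a (c (l 17010656) (l 16943480)) (c (l 16952656) (l 16904992))) (a (c (l 17052488) (l 16980400)) (c (l 16993816) (l 16937872))))) (b (a (a (c (l 17184608) (l 17173632)) (b (l 17084328) (l 17092992))) (c (a (l 17069184) (l 17030640)) (a (l 17089456) (l 17085736)))) (a (b (b (a (l 17139680) (l 17093640)) (a (l 17119656) (l 17073672))) (c (l 17206256) (b (l 17056992) (l 17034624)))) (a (b (b (l 17043984) (l 17029088)) (l 17126984)) (b (b (l 16993424) (l 16986352)) (l 17123792)))))), by decide +kernel⟩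

def k2_pm_123_a : ∃ t, chk3 f_pm_123_a t 7 1 1 = true :=
  ⟨(a (a (b (b (c (l 16961320) (l 16952760)) (a (l 17011168) (l 17009072))) (b (l 17164088) (b (b (l 16942792) (l 16940704)) (c (l 17019440) (l 17042384))))) (a (b (b (b (l 16890544) (l 16864872)) (l 16966432)) (b (l 16982672) (b (l 16904432) (l 17057464)))) (b (b (b (l 132305254775) (l 16870320)) (l 16904528)) (b (l 17043680) (b (b (l 16881192) (l 16882808)) (b (l 16870784) (l 16958744))))))) (b (a (b (b (l 4) (l 147338040631)) (a (l 17044248) (l 69491708391))) (a (b (l 4) (l 103314549815)) (l 4))) (a (b (a (c (l 17036376) (l 17099504)) (b (l 16833128) (l 16834256))) (b (l 16992472) (b (a (l 16873536) (l 16916400)) (a (l 16959272) (a (l 16921648) (l 16910040)))))) (a (a (b (c (l 16957576) (l 16991232)) (b (c (l 16917392) (l 16968272)) (b (l 16817536) (b (l 16807312) (l 16875760))))) (b (a (l 16968392) (l 16960784)) (b (c (l 16943928) (l 16955400)) (b (l 16885288) (b (l 16822760) (c (l 16854392) (l 16849584))))))) (a (b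 (c (l 16924744) (l 16945000)) (b (b (l 16880992) (a (l 16800400) (l 16901128))) (b (l 16796320) (b (c (l 16855096) (l 16854416)) (b (l 16813400) (a (l 16829256) (c (l 16818096) (l 16814992)))))))) (b (l 4) (b (a (a (l 16884248) (l 16861592)) (a (a (l 16848696) (l 16876216)) (l 4))) (l 6)))))))), by decide +kernel⟩

theorem s3_pm_123_a : ∃ t, chk3 f_pm_123_a t 3 1 1 = true := ex3_a k1_pm_123_a k2_pm_123_a

theorem s4_pm_123_a : ∃ t, chk3 f_pm_123_a t 1 1 1 = true := ex3_a k0_pm_123_a s3_pm_123_a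

theorem c_pm_123_a : CertN 536870912 536870912 0 536870912 201326592 134217728 3 true true false .npn 1 2 3
    ndN0q1 ndN1q2a pcN3 cut_pm_123_a Ext.none :=
  certN2 (fam := true) (s1 := true) (s2 := false) (a := 1) (b := 2) (c := 3) (cn := .npn) (n1 := ndN0q1) (n2 := ndN1q2a) (pc := pcN3) (cut := cut_pm_123_a) (xt := Ext.none) (P1 := 536870912) (W1 := 536870912) (P2 := 0) (W2 := 536870912) (P3 := 201326592) (W3 := 134217728) (N0 := 3)
    rfl (fun _ => rfl) s4_pm_123_a

noncomputable def cut_pm_123_b : Cut := Cut.of [[⟨0, 1, 0, 57167902⟩, ⟨1, 1, 0, 57167902⟩, ⟨2, 2, 0, 11758673⟩]]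

noncomputable def f_pm_123_b : ℕ → ℕ → ℕ → ℕ → Bool := onCell 1610612736 536870912 1239849684 370763052 201326592 134217728
    (rowN 3 2 true true false .npn 1 2 3 (qsf 536870912 536870912 1239849684 370763052 3) ndN0q1 ndN1q2b pcN3 cut_pm_123_b Ext.none)

def k0_pm_123_b : ∃ t, chk3 f_pm_123_b t 1 1 1 = true :=
  ⟨(a (b (a (l 1) (b (a (b (c (l 17316408) (a (l 17137408) (l 17110480))) (l 1)) (b (a (c (l 17219968) (l 17079944)) (c (l 17169912) (l 17047992))) (a (l 17214040) (l 17168536)))) (a (l 1) (b (c (l 17347848) (l 17189864)) (l 1))))) (l 1)) (a (b (a (b (b (a (c (l 17115960) (l 17014128)) (b (l 17004432) (l 17033392))) (a (l 17123968) (l 17080520))) (b (a (l 17193888) (l 17147456)) (a (l 1) (l 17218936)))) (b (b (a (b (l 16961048) (l 16991192)) (b (l 17064168) (l 16950288))) (a (l 17038640) (l 17041192))) (a (b (l 17104776) (l 17172744)) (b (l 17065992) (l 17131624))))) (a (l 1) (b (b (l 5068213079) (l 17479448)) (l 1)))) (a (b (b (b (a (b (a (l 16887128) (l 16870368)) (l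 17038360)) (b (c (l 17031240) (l 90966612327)) (l 4))) (a (a (l 16973832) (l 16955792)) (l 4))) (a (b (l 17028032) (l 4)) (l 4))) (l 4)) (l 4)))), by decide +kernel⟩

theorem c_pm_123_b : CertN 536870912 536870912 1239849684 370763052 201326592 134217728 3 true true false .npn 1 2 3
    ndN0q1 ndN1q2b pcN3 cut_pm_123_b Ext.none :=
  certN2 (fam := true) (s1 := true) (s2 := false) (a := 1) (b := 2) (c := 3) (cn := .npn) (n1 := ndN0q1) (n2 := ndN1q2b) (pc := pcN3) (cut := cut_pm_123_b) (xt := Ext.none) (P1 := 536870912) (W1 := 536870912) (P2 := 1239849684) (W2 := 370763052) (P3 := 201326592) (W3 := 134217728) (N0 := 3)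
    rfl (fun _ => rfl) k0_pm_123_b

noncomputable def f_pm_133 : ℕ → ℕ → ℕ → ℕ → Bool := onCell 536870912 536870912 1610612736 536870912 201326592 134217728
    (rowN 3 0 true true false .dn 1 3 3 (qsf 536870912 536870912 1610612736 536870912 3) ndN0q1 ndN1q3 pcN3 Cut.none Ext.none)

def k0_pm_133 : ∃ t, chk3 f_pm_133 t 1 1 1 = true :=
  ⟨(l 4), by decide +kernel⟩

theorem c_pm_133 : CertN 536870912 536870912 1610612736 536870912 201326592 134217728 3 true true false .dn 1 3 3
    ndN0q1 ndN1q3 pcN3 Cut.none Ext.none :=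
  certN0 (fam := true) (s1 := true) (s2 := false) (a := 1) (b := 3) (c := 3) (cn := .dn) (n1 := ndN0q1) (n2 := ndN1q3) (pc := pcN3) (cut := Cut.none) (xt := Ext.none) (P1 := 536870912) (W1 := 536870912) (P2 := 1610612736) (W2 := 536870912) (P3 := 201326592) (W3 := 134217728) (N0 := 3)
    rfl k0_pm_133

noncomputable def cut_pm_202 : Cut := Cut.of [[⟨0, 1, 0, 67108864⟩, ⟨1, 0, 0, 67108864⟩, ⟨2, 1, 0, 67108864⟩]]

noncomputable def f_pm_202 : ℕ → ℕ → ℕ → ℕ → Bool := onCell 0 536870912 1073741824 536870912 201326592 134217728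
    (rowN 3 1 true true false .pp 2 0 2 (qsf 0 536870912 0 536870912 2) ndN0q2 ndN1q0 pcN2 cut_pm_202 Ext.none)

def k0_pm_202 : ∃ t, chk3 f_pm_202 t 4 2 1 = true :=
  ⟨(b (l 1) (b (b (b (l 1) (b (a (l 1) (a (l 1) (c (l 77342423335) (l 16467000)))) (b (a (l 1) (c (a (l 16486904) (l 16479672)) (a (l 16460416) (l 16473744)))) (a (c (a (l 16501992) (b (l 16462000) (l 16464976))) (b (l 16431960) (l 16439944))) (c (a (a (l 16510840) (l 16516032)) (l 16547904)) (a (l 16507376) (l 16520336))))))) (b (a (c (a (l 16476448) (l 16499464)) (b (l 16483560) (l 16474328))) (c (a (l 16506048) (l 16496992)) (a (l 16477248) (l 16488984)))) (a (c (l 16505200) (l 16492616)) (c (l 16515168) (l 16504496))))) (a (b (b (l 16571016) (l 16577872)) (l 16612832)) (b (b (l 16555000) (l 16559608)) (l 16601248))))), by decide +kernel⟩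

def k1_pm_202 : ∃ t, chk3 f_pm_202 t 5 2 1 = true :=
  ⟨(b (b (l 1) (b (l 1) (b (l 1) (b (l 1) (a (l 1) (a (l 1) (c (b (a (l 1) (l 16531592)) (c (l 16554376) (l 16551216))) (b (l 16499880) (l 16546136))))))))) (b (b (b (a (b (l 1) (c (a (l 16523784) (b (l 16523056) (l 16527408))) (a (l 16476528) (l 16538456)))) (b (c (a (c (l 115460357543) (l 115997223383)) (b (l 16557680) (l 16540544))) (a (a (l 16525280) (l 16535528)) (l 187937972343))) (a (c (c (l 16548040) (l 16543952)) (l 16537352)) (c (l 16566832) (l 16536656))))) (b (a (c (a (b (l 16510120) (l 16493848)) (l 16533864)) (a (l 16526736) (l 16525160))) (c (a (l 16533400) (l 16553640)) (a (l 16523504) (l 16543256)))) (a (b (c (l 16561872) (l 16521840)) (c (a (l 16566464) (l 16565976)) (a (l 16558232) (l 16576800)))) (b (c (l 16550040) (l 16539080)) (a (b (l 16537096) (l 16559776)) (b (l 16556424) (l 16557936))))))) (a (c (b (a (l 16514176) (l 16533344)) (l 16544136)) (b (l 16555776) (l 16531608))) (b (c (l 16582496) (l 16570240))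 (l 16634360)))) (b (a (b (l 16558144) (l 16579344)) (b (l 16587776) (l 16604920))) (a (l 16613328) (l 16631752))))), by decide +kernel⟩

def k2_pm_202 : ∃ t, chk3 f_pm_202 t 2 3 1 = true :=
  ⟨(b (b (a (b (l 16794440) (l 16817672)) (b (l 16775832) (l 16849608))) (a (l 17017816) (a (l 17063208) (l 17077504)))) (b (a (l 17116416) (a (l 17186464) (l 17221480))) (a (l 17123456) (l 17226104)))), by decide +kernel⟩

def k3_pm_202 : ∃ t, chk3 f_pm_202 t 6 2 1 = true :=
  ⟨(b (a (b (l 1) (b (l 1) (b (b (a (l 1) (c (a (l 1) (l 104186158663)) (l 98817439223))) (c (a (l 65531387223) (l 148209523911)) (a (l 16558656) (l 16570576)))) (b (c (a (l 45667111863) (l 16561584)) (a (l 16536008) (l 16557664))) (a (b (c (l 16569000) (l 16542376)) (c (l 16553504) (l 16546584))) (c (a (l 16566272) (l 16577200)) (l 16565408))))))) (b (l 1) (b (b (a (l 1) (b (l 1) (a (c (l 81100810647) (l 86469515447)) (c (c (l 133177299991) (l 141230356919)) (l 125124226455))))) (c (a (b (a (l 1) (l 78953294151)) (a (l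 89690676567) (l 144451517111))) (b (a (l 134251008599) (l 16642312)) (l 16623912))) (a (b (a (l 1) (l 95596275479)) (a (l 109018015639) (l 16614720))) (a (b (l 132640378471) (l 16596416)) (l 16638768))))) (a (b (c (c (l 172368777767) (l 178811223527)) (b (l 199212300679) (l 16573240))) (b (c (l 16584480) (l 16580040)) (a (l 16626960) (l 16638088)))) (b (c (l 16601904) (l 16599360)) (b (l 16609760) (l 16679104))))))) (b (b (b (a (b (a (c (l 16580648) (l 16572472)) (c (l 16581144) (l 16572672))) (c (l 16619664) (l 16610152))) (a (c (l 16709768) (l 16721408)) (c (l 16712376) (l 16723176)))) (b (a (c (l 16605680) (l 16595064)) (a (l 16610088) (l 16631504))) (b (a (l 16626184) (l 16645960)) (a (a (l 16681920) (l 16680656)) (b (l 16626840) (l 16648728)))))) (a (b (c (l 16598184) (l 16585992)) (l 16605368)) (b (l 16672704) (l 16641040)))) (b (a (l 16727496) (l 16736920)) (a (l 16651968) (l 16674760))))), by decide +kernel⟩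

def k4_pm_202 : ∃ t, chk3 f_pm_202 t 7 2 1 = true :=
  ⟨(b (a (b (b (l 1) (b (a (l 1) (l 6)) (a (b (l 1) (a (l 1) (b (a (l 1) (l 6)) (c (a (l 135324829607) (l 16669344)) (l 168610816967))))) (b (l 6) (b (l 6) (a (c (l 16670688) (l 16665272)) (l 16691264))))))) (b (a (b (b (a (c (b (l 114386850919) (l 151967799271)) (a (l 122976771879) (l 144451610695))) (c (c (l 16680072) (l 16676880)) (l 16672344))) (c (a (l 16660752) (l 16641520)) (a (l 16654480) (l 16636752)))) (c (l 16645072) (l 16644384))) (b (c (a (l 16672296) (l 16662344)) (l 16679928)) (c (l 16657752) (l 16654880)))) (b (a (c (l 16633400) (l 16628944)) (l 16683288)) (a (c (l 16768480) (l 16781472)) (b (l 16668640) (l 16673296)))))) (b (b (l 6) (b (l 6) (b (l 6) (a (a (l 16701400) (l 16698600)) (l 16726376))))) (b (a (a (b (l 16679704) (l 16681376)) (l 16739512)) (b (l 16724536) (l 16724504))) (b (a (l 16694304) (l 16727296)) (b (l 16715672) (l 16782032)))))) (b (b (b (a (a (b (l 16649712) (l 16653000)) (l 16762088)) (b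 (l 16743528) (l 16724760))) (b (a (l 16712480) (l 16727240)) (a (a (a (l 16822184) (l 16814200)) (l 16855432)) (b (l 16728936) (l 16814064))))) (a (b (l 16696160) (l 16681264)) (b (l 16730320) (l 16734520)))) (b (a (b (l 16686880) (l 16692440)) (l 16798888)) (a (l 16699776) (l 16740216))))), by decide +kernel⟩

def k5_pm_202 : ∃ t, chk3 f_pm_202 t 3 3 1 = true :=
  ⟨(b (b (a (b (a (l 16684088) (l 16697312)) (a (l 16876888) (l 16899552))) (b (a (l 16745984) (l 16807784)) (a (l 16924416) (l 16953288)))) (a (b (l 17033264) (l 17130536)) (b (a (l 17046512) (l 17057472)) (l 17194352)))) (b (a (b (l 17202136) (l 17251712)) (b (l 17200040) (l 17253384))) (a (l 17285440) (l 17297104)))), by decide +kernel⟩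

theorem s6_pm_202 : ∃ t, chk3 f_pm_202 t 3 2 1 = true := ex3_a k3_pm_202 k4_pm_202

theorem s7_pm_202 : ∃ t, chk3 f_pm_202 t 3 1 1 = true := ex3_b s6_pm_202 k5_pm_202

theorem s8_pm_202 : ∃ t, chk3 f_pm_202 t 2 2 1 = true := ex3_a k0_pm_202 k1_pm_202

theorem s9_pm_202 : ∃ t, chk3 f_pm_202 t 2 1 1 = true := ex3_b s8_pm_202 k2_pm_202

theorem s10_pm_202 : ∃ t, chk3 f_pm_202 t 1 1 1 = true := ex3_a s9_pm_202 s7_pm_202

theorem c_pm_202 : CertN 0 536870912 0 536870912 201326592 134217728 3 true true false .pp 2 0 2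
    ndN0q2 ndN1q0 pcN2 cut_pm_202 Ext.none :=
  certN1 (fam := true) (s1 := true) (s2 := false) (a := 2) (b := 0) (c := 2) (cn := .pp) (n1 := ndN0q2) (n2 := ndN1q0) (pc := pcN2) (cut := cut_pm_202) (xt := Ext.none) (P1 := 0) (W1 := 536870912) (P2 := 0) (W2 := 536870912) (P3 := 201326592) (W3 := 134217728) (N0 := 3)
    rfl (fun _ => rfl) s10_pm_202

noncomputable def f_pm_203 : ℕ → ℕ → ℕ → ℕ → Bool := onCell 0 536870912 1610612736 536870912 201326592 134217728
    (rowN 3 1 true true false .up 2 0 3 (qsf 0 536870912 0 536870912 3) ndN0q2 ndN1q0 pcN3 Cut.none Ext.none)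

def k0_pm_203 : ∃ t, chk3 f_pm_203 t 1 1 1 = true :=
  ⟨(b (b (a (b (a (l 17295760) (c (l 17326568) (l 17102904))) (a (c (l 17165632) (l 17031944)) (l 17204728))) (a (b (a (l 17440472) (l 17302280)) (b (l 17447752) (l 17302320))) (b (c (l 17507608) (l 17195304)) (a (l 17362688) (l 2))))) (b (a (a (l 4) (c (l 17283168) (l 17125672))) (a (l 2) (l 2))) (a (l 2) (l 2)))) (l 2)), by decide +kernel⟩

theorem c_pm_203 : CertN 0 536870912 0 536870912 201326592 134217728 3 true true false .up 2 0 3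
    ndN0q2 ndN1q0 pcN3 Cut.none Ext.none :=
  certN1 (fam := true) (s1 := true) (s2 := false) (a := 2) (b := 0) (c := 3) (cn := .up) (n1 := ndN0q2) (n2 := ndN1q0) (pc := pcN3) (cut := Cut.none) (xt := Ext.none) (P1 := 0) (W1 := 536870912) (P2 := 0) (W2 := 536870912) (P3 := 201326592) (W3 := 134217728) (N0 := 3)
    rfl (fun _ => rfl) k0_pm_203

noncomputable def f_pm_213 : ℕ → ℕ → ℕ → ℕ → Bool := onCell 0 536870912 1610612736 536870912 201326592 134217728
    (rowN 3 1 true true false .pnn 2 1 3 (qsf 0 536870912 536870912 536870912 3) ndN0q2 ndN1q1 pcN3 Cut.none Ext.none)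

def k0_pm_213 : ∃ t, chk3 f_pm_213 t 1 1 1 = true :=
  ⟨(a (b (b (b (l 1) (a (l 1) (l 530462702055))) (b (a (l 4) (b (l 17072136) (l 17033936))) (c (l 58754631367) (l 17156392)))) (l 4)) (b (b (a (b (l 1) (c (l 17089016) (l 17128520))) (b (l 17241928) (l 17216432))) (b (a (l 17063296) (l 17202496)) (a (l 17145368) (l 17206832)))) (b (b (c (l 17183400) (l 17095752)) (a (l 4) (l 17008104))) (b (a (l 4) (l 17118032)) (l 4))))), by decide +kernel⟩

theorem c_pm_213 : CertN 0 536870912 536870912 536870912 201326592 134217728 3 true true false .pnn 2 1 3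
    ndN0q2 ndN1q1 pcN3 Cut.none Ext.none :=
  certN1 (fam := true) (s1 := true) (s2 := false) (a := 2) (b := 1) (c := 3) (cn := .pnn) (n1 := ndN0q2) (n2 := ndN1q1) (pc := pcN3) (cut := Cut.none) (xt := Ext.none) (P1 := 0) (W1 := 536870912) (P2 := 536870912) (W2 := 536870912) (P3 := 201326592) (W3 := 134217728) (N0 := 3)
    rfl (fun _ => rfl) k0_pm_213

noncomputable def f_mm_001 : ℕ → ℕ → ℕ → ℕ → Bool := onCell 0 536870912 0 536870912 201326592 134217728
    (rowN 3 0 true false false .up 0 0 1 (qsf 0 536870912 0 536870912 1) ndN0q0 ndN1q0 pcN1 Cut.none Ext.none)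

def k0_mm_001 : ∃ t, chk3 f_mm_001 t 1 1 1 = true :=
  ⟨(l 4), by decide +kernel⟩

theorem c_mm_001 : CertN 0 536870912 0 536870912 201326592 134217728 3 true false false .up 0 0 1
    ndN0q0 ndN1q0 pcN1 Cut.none Ext.none :=
  certN0 (fam := true) (s1 := false) (s2 := false) (a := 0) (b := 0) (c := 1) (cn := .up) (n1 := ndN0q0) (n2 := ndN1q0) (pc := pcN1) (cut := Cut.none) (xt := Ext.none) (P1 := 0) (W1 := 536870912) (P2 := 0) (W2 := 536870912) (P3 := 201326592) (W3 := 134217728) (N0 := 3)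
    rfl k0_mm_001

noncomputable def f_mm_011 : ℕ → ℕ → ℕ → ℕ → Bool := onCell 0 536870912 536870912 536870912 201326592 134217728
    (rowN 3 0 true false false .pnn 0 1 1 (qsf 0 536870912 536870912 536870912 1) ndN0q0 ndN1q1 pcN1 Cut.none Ext.none)

def k0_mm_011 : ∃ t, chk3 f_mm_011 t 1 1 1 = true :=
  ⟨(l 4), by decide +kernel⟩

theorem c_mm_011 : CertN 0 536870912 536870912 536870912 201326592 134217728 3 true false false .pnn 0 1 1
    ndN0q0 ndN1q1 pcN1 Cut.none Ext.none :=
  certN0 (fam := true) (s1 := false) (s2 := false) (a := 0) (b := 1) (c := 1) (cn := .pnn) (n1 := ndN0q0) (n2 := ndN1q1) (pc := pcN1) (cut := Cut.none) (xt := Ext.none) (P1 := 0) (W1 := 536870912) (P2 := 536870912) (W2 := 536870912) (P3 := 201326592) (W3 := 134217728) (N0 := 3)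
    rfl k0_mm_011

noncomputable def f_mm_012 : ℕ → ℕ → ℕ → ℕ → Bool := onCell 0 536870912 536870912 536870912 201326592 134217728
    (rowN 3 0 true false false .pnp 0 1 2 (qsf 0 536870912 536870912 536870912 2) ndN0q0 ndN1q1 pcN2 Cut.none Ext.none)

def k0_mm_012 : ∃ t, chk3 f_mm_012 t 1 1 1 = true :=
  ⟨(l 4), by decide +kernel⟩

theorem c_mm_012 : CertN 0 536870912 536870912 536870912 201326592 134217728 3 true false false .pnp 0 1 2
    ndN0q0 ndN1q1 pcN2 Cut.none Ext.none :=
  certN0 (fam := true) (s1 := false) (s2 := false) (a := 0) (b := 1) (c := 2) (cn := .pnp) (n1 := ndN0q0) (n2 := ndN1q1) (pc := pcN2) (cut := Cut.none) (xt := Ext.none) (P1 := 0) (W1 := 536870912) (P2 := 536870912) (W2 := 536870912) (P3 := 201326592) (W3 := 134217728) (N0 := 3)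
    rfl k0_mm_012

noncomputable def f_mm_022_a : ℕ → ℕ → ℕ → ℕ → Bool := onCell 0 536870912 0 536870912 201326592 134217728
    (rowN 3 0 true false false .pp 0 2 2 (qsf 0 536870912 0 536870912 2) ndN0q0 ndN1q2a pcN2 Cut.none Ext.none)

def k0_mm_022_a : ∃ t, chk3 f_mm_022_a t 1 1 1 = true :=
  ⟨(l 5), by decide +kernel⟩

theorem c_mm_022_a : CertN 0 536870912 0 536870912 201326592 134217728 3 true false false .pp 0 2 2
    ndN0q0 ndN1q2a pcN2 Cut.none Ext.none :=
  certN0 (fam := true) (s1 := false) (s2 := false) (a := 0) (b := 2) (c := 2) (cn := .pp) (n1 := ndN0q0) (n2 := ndN1q2a) (pc := pcN2) (cut := Cut.none) (xt := Ext.none) (P1 := 0) (W1 := 536870912) (P2 := 0) (W2 := 536870912) (P3 := 201326592) (W3 := 134217728) (N0 := 3)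
    rfl k0_mm_022_a

noncomputable def f_mm_022_b : ℕ → ℕ → ℕ → ℕ → Bool := onCell 0 536870912 1239849684 370763052 201326592 134217728
    (rowN 3 0 true false false .pp 0 2 2 (qsf 0 536870912 1239849684 370763052 2) ndN0q0 ndN1q2b pcN2 Cut.none Ext.none)

def k0_mm_022_b : ∃ t, chk3 f_mm_022_b t 1 1 1 = true :=
  ⟨(l 5), by decide +kernel⟩

theorem c_mm_022_b : CertN 0 536870912 1239849684 370763052 201326592 134217728 3 true false false .pp 0 2 2
    ndN0q0 ndN1q2b pcN2 Cut.none Ext.none :=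
  certN0 (fam := true) (s1 := false) (s2 := false) (a := 0) (b := 2) (c := 2) (cn := .pp) (n1 := ndN0q0) (n2 := ndN1q2b) (pc := pcN2) (cut := Cut.none) (xt := Ext.none) (P1 := 0) (W1 := 536870912) (P2 := 1239849684) (W2 := 370763052) (P3 := 201326592) (W3 := 134217728) (N0 := 3)
    rfl k0_mm_022_b

noncomputable def f_mm_023_a : ℕ → ℕ → ℕ → ℕ → Bool := onCell 0 536870912 0 536870912 201326592 134217728
    (rowN 3 0 true false false .up 0 2 3 (qsf 0 536870912 0 536870912 3) ndN0q0 ndN1q2a pcN3 Cut.none Ext.none)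

def k0_mm_023_a : ∃ t, chk3 f_mm_023_a t 1 1 1 = true :=
  ⟨(l 5), by decide +kernel⟩

theorem c_mm_023_a : CertN 0 536870912 0 536870912 201326592 134217728 3 true false false .up 0 2 3
    ndN0q0 ndN1q2a pcN3 Cut.none Ext.none :=
  certN0 (fam := true) (s1 := false) (s2 := false) (a := 0) (b := 2) (c := 3) (cn := .up) (n1 := ndN0q0) (n2 := ndN1q2a) (pc := pcN3) (cut := Cut.none) (xt := Ext.none) (P1 := 0) (W1 := 536870912) (P2 := 0) (W2 := 536870912) (P3 := 201326592) (W3 := 134217728) (N0 := 3)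
    rfl k0_mm_023_a

noncomputable def f_mm_023_b : ℕ → ℕ → ℕ → ℕ → Bool := onCell 0 536870912 1239849684 370763052 201326592 134217728
    (rowN 3 0 true false false .up 0 2 3 (qsf 0 536870912 1239849684 370763052 3) ndN0q0 ndN1q2b pcN3 Cut.none Ext.none)

def k0_mm_023_b : ∃ t, chk3 f_mm_023_b t 1 1 1 = true :=
  ⟨(l 5), by decide +kernel⟩

theorem c_mm_023_b : CertN 0 536870912 1239849684 370763052 201326592 134217728 3 true false false .up 0 2 3
    ndN0q0 ndN1q2b pcN3 Cut.none Ext.none :=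
  certN0 (fam := true) (s1 := false) (s2 := false) (a := 0) (b := 2) (c := 3) (cn := .up) (n1 := ndN0q0) (n2 := ndN1q2b) (pc := pcN3) (cut := Cut.none) (xt := Ext.none) (P1 := 0) (W1 := 536870912) (P2 := 1239849684) (W2 := 370763052) (P3 := 201326592) (W3 := 134217728) (N0 := 3)
    rfl k0_mm_023_b

noncomputable def f_mm_033 : ℕ → ℕ → ℕ → ℕ → Bool := onCell 0 536870912 1610612736 536870912 201326592 134217728
    (rowN 3 0 true false false .pnn 0 3 3 (qsf 0 536870912 1610612736 536870912 3) ndN0q0 ndN1q3 pcN3 Cut.none Ext.none)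

def k0_mm_033 : ∃ t, chk3 f_mm_033 t 1 1 1 = true :=
  ⟨(l 5), by decide +kernel⟩

theorem c_mm_033 : CertN 0 536870912 1610612736 536870912 201326592 134217728 3 true false false .pnn 0 3 3
    ndN0q0 ndN1q3 pcN3 Cut.none Ext.none :=
  certN0 (fam := true) (s1 := false) (s2 := false) (a := 0) (b := 3) (c := 3) (cn := .pnn) (n1 := ndN0q0) (n2 := ndN1q3) (pc := pcN3) (cut := Cut.none) (xt := Ext.none) (P1 := 0) (W1 := 536870912) (P2 := 1610612736) (W2 := 536870912) (P3 := 201326592) (W3 := 134217728) (N0 := 3)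
    rfl k0_mm_033

noncomputable def cut_mm_101 : Cut := Cut.of [[⟨0, 1, 0, 67108864⟩, ⟨1, 0, 0, 67108864⟩, ⟨2, 1, 0, 67108864⟩]]

noncomputable def f_mm_101 : ℕ → ℕ → ℕ → ℕ → Bool := onCell 536870912 536870912 0 536870912 201326592 134217728
    (rowN 3 0 true false false .npn 1 0 1 (qsf 536870912 536870912 0 536870912 1) ndN0q1 ndN1q0 pcN1 cut_mm_101 Ext.none)

def k0_mm_101 : ∃ t, chk3 f_mm_101 t 1 1 1 = true :=
  ⟨(a (l 4) (b (a (l 4) (a (l 4) (a (l 4) (b (b (b (l 6) (l 4)) (l 2)) (l 2))))) (l 4))), by decide +kernel⟩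

theorem c_mm_101 : CertN 536870912 536870912 0 536870912 201326592 134217728 3 true false false .npn 1 0 1
    ndN0q1 ndN1q0 pcN1 cut_mm_101 Ext.none :=
  certN0 (fam := true) (s1 := false) (s2 := false) (a := 1) (b := 0) (c := 1) (cn := .npn) (n1 := ndN0q1) (n2 := ndN1q0) (pc := pcN1) (cut := cut_mm_101) (xt := Ext.none) (P1 := 536870912) (W1 := 536870912) (P2 := 0) (W2 := 536870912) (P3 := 201326592) (W3 := 134217728) (N0 := 3)
    rfl k0_mm_101

noncomputable def cut_mm_102 : Cut := Cut.of [[⟨0, 1, 0, 67108864⟩, ⟨1, 0, 0, 67108864⟩, ⟨2, 1, 0, 67108864⟩]]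

noncomputable def f_mm_102 : ℕ → ℕ → ℕ → ℕ → Bool := onCell 536870912 536870912 0 536870912 201326592 134217728
    (rowN 3 0 true false false .npp 1 0 2 (qsf 536870912 536870912 0 536870912 2) ndN0q1 ndN1q0 pcN2 cut_mm_102 Ext.none)

def k0_mm_102 : ∃ t, chk3 f_mm_102 t 1 1 1 = true :=
  ⟨(a (l 4) (b (a (l 4) (b (a (l 4) (a (l 4) (b (b (l 6) (l 4)) (l 4)))) (l 4))) (l 4))), by decide +kernel⟩

theorem c_mm_102 : CertN 536870912 536870912 0 536870912 201326592 134217728 3 true false false .npp 1 0 2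
    ndN0q1 ndN1q0 pcN2 cut_mm_102 Ext.none :=
  certN0 (fam := true) (s1 := false) (s2 := false) (a := 1) (b := 0) (c := 2) (cn := .npp) (n1 := ndN0q1) (n2 := ndN1q0) (pc := pcN2) (cut := cut_mm_102) (xt := Ext.none) (P1 := 536870912) (W1 := 536870912) (P2 := 0) (W2 := 536870912) (P3 := 201326592) (W3 := 134217728) (N0 := 3)
    rfl k0_mm_102

noncomputable def f_mm_112 : ℕ → ℕ → ℕ → ℕ → Bool := onCell 536870912 536870912 536870912 536870912 201326592 134217728
    (rowN 3 0 true false false .dn 1 1 2 (qsf 536870912 536870912 536870912 536870912 2) ndN0q1 ndN1q1 pcN2 Cut.none Ext.none)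

def k0_mm_112 : ∃ t, chk3 f_mm_112 t 1 1 1 = true :=
  ⟨(l 4), by decide +kernel⟩

theorem c_mm_112 : CertN 536870912 536870912 536870912 536870912 201326592 134217728 3 true false false .dn 1 1 2
    ndN0q1 ndN1q1 pcN2 Cut.none Ext.none :=
  certN0 (fam := true) (s1 := false) (s2 := false) (a := 1) (b := 1) (c := 2) (cn := .dn) (n1 := ndN0q1) (n2 := ndN1q1) (pc := pcN2) (cut := Cut.none) (xt := Ext.none) (P1 := 536870912) (W1 := 536870912) (P2 := 536870912) (W2 := 536870912) (P3 := 201326592) (W3 := 134217728) (N0 := 3)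
    rfl k0_mm_112

noncomputable def f_mm_113 : ℕ → ℕ → ℕ → ℕ → Bool := onCell 536870912 536870912 536870912 536870912 201326592 134217728
    (rowN 3 0 true false false .nn 1 1 3 (qsf 536870912 536870912 536870912 536870912 3) ndN0q1 ndN1q1 pcN3 Cut.none Ext.none)

def k0_mm_113 : ∃ t, chk3 f_mm_113 t 1 1 1 = true :=
  ⟨(l 4), by decide +kernel⟩

theorem c_mm_113 : CertN 536870912 536870912 536870912 536870912 201326592 134217728 3 true false false .nn 1 1 3
    ndN0q1 ndN1q1 pcN3 Cut.none Ext.none :=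
  certN0 (fam := true) (s1 := false) (s2 := false) (a := 1) (b := 1) (c := 3) (cn := .nn) (n1 := ndN0q1) (n2 := ndN1q1) (pc := pcN3) (cut := Cut.none) (xt := Ext.none) (P1 := 536870912) (W1 := 536870912) (P2 := 536870912) (W2 := 536870912) (P3 := 201326592) (W3 := 134217728) (N0 := 3)
    rfl k0_mm_113

noncomputable def f_mm_123_a : ℕ → ℕ → ℕ → ℕ → Bool := onCell 536870912 536870912 0 536870912 201326592 134217728
    (rowN 3 0 true false false .npn 1 2 3 (qsf 536870912 536870912 0 536870912 3) ndN0q1 ndN1q2a pcN3 Cut.none Ext.none)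

def k0_mm_123_a : ∃ t, chk3 f_mm_123_a t 1 1 1 = true :=
  ⟨(l 4), by decide +kernel⟩

theorem c_mm_123_a : CertN 536870912 536870912 0 536870912 201326592 134217728 3 true false false .npn 1 2 3
    ndN0q1 ndN1q2a pcN3 Cut.none Ext.none :=
  certN0 (fam := true) (s1 := false) (s2 := false) (a := 1) (b := 2) (c := 3) (cn := .npn) (n1 := ndN0q1) (n2 := ndN1q2a) (pc := pcN3) (cut := Cut.none) (xt := Ext.none) (P1 := 536870912) (W1 := 536870912) (P2 := 0) (W2 := 536870912) (P3 := 201326592) (W3 := 134217728) (N0 := 3)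
    rfl k0_mm_123_a

noncomputable def f_mm_123_b : ℕ → ℕ → ℕ → ℕ → Bool := onCell 536870912 536870912 1239849684 370763052 201326592 134217728
    (rowN 3 0 true false false .npn 1 2 3 (qsf 536870912 536870912 1239849684 370763052 3) ndN0q1 ndN1q2b pcN3 Cut.none Ext.none)

def k0_mm_123_b : ∃ t, chk3 f_mm_123_b t 1 1 1 = true :=
  ⟨(l 4), by decide +kernel⟩

theorem c_mm_123_b : CertN 536870912 536870912 1239849684 370763052 201326592 134217728 3 true false false .npn 1 2 3
    ndN0q1 ndN1q2b pcN3 Cut.none Ext.none :=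
  certN0 (fam := true) (s1 := false) (s2 := false) (a := 1) (b := 2) (c := 3) (cn := .npn) (n1 := ndN0q1) (n2 := ndN1q2b) (pc := pcN3) (cut := Cut.none) (xt := Ext.none) (P1 := 536870912) (W1 := 536870912) (P2 := 1239849684) (W2 := 370763052) (P3 := 201326592) (W3 := 134217728) (N0 := 3)
    rfl k0_mm_123_b

noncomputable def f_mm_133 : ℕ → ℕ → ℕ → ℕ → Bool := onCell 536870912 536870912 1610612736 536870912 201326592 134217728
    (rowN 3 0 true false false .dn 1 3 3 (qsf 536870912 536870912 1610612736 536870912 3) ndN0q1 ndN1q3 pcN3 Cut.none Ext.none)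

def k0_mm_133 : ∃ t, chk3 f_mm_133 t 1 1 1 = true :=
  ⟨(l 4), by decide +kernel⟩

theorem c_mm_133 : CertN 536870912 536870912 1610612736 536870912 201326592 134217728 3 true false false .dn 1 3 3
    ndN0q1 ndN1q3 pcN3 Cut.none Ext.none :=
  certN0 (fam := true) (s1 := false) (s2 := false) (a := 1) (b := 3) (c := 3) (cn := .dn) (n1 := ndN0q1) (n2 := ndN1q3) (pc := pcN3) (cut := Cut.none) (xt := Ext.none) (P1 := 536870912) (W1 := 536870912) (P2 := 1610612736) (W2 := 536870912) (P3 := 201326592) (W3 := 134217728) (N0 := 3)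
    rfl k0_mm_133

noncomputable def cut_mm_202 : Cut := Cut.of [[⟨0, 1, 0, 67108864⟩, ⟨1, 0, 0, 67108864⟩, ⟨2, 1, 0, 67108864⟩]]

noncomputable def f_mm_202 : ℕ → ℕ → ℕ → ℕ → Bool := onCell 0 536870912 0 536870912 201326592 134217728
    (rowN 3 0 true false false .pp 2 0 2 (qsf 0 536870912 0 536870912 2) ndN0q2 ndN1q0 pcN2 cut_mm_202 Ext.none)

def k0_mm_202 : ∃ t, chk3 f_mm_202 t 2 1 1 = true :=
  ⟨(b (b (a (b (a (b (c (b (b (a (l 16488360) (l 16507704)) (l 16554248)) (l 16560728)) (b (a (l 16443416) (l 16462464)) (a (l 16488968) (l 16483144)))) (b (l 16556688) (l 16539496))) (b (c (b (a (l 16486256) (l 16478736)) (l 16484688)) (b (l 16494632) (l 16474248))) (b (l 16543696) (l 16523776)))) (b (a (l 16571992) (l 16555776)) (l 16645936))) (b (a (b (b (c (b (l 16555712) (l 16539872)) (l 16558024)) (c (l 16511176) (l 16486816))) (b (l 16535360) (l 16515656))) (b (b (c (a (l 16562424) (b (l 16568152) (l 16565504))) (b (l 16587904) (l 16564784))) (c (l 16590728) (l 16551232))) (b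 (l 16603264) (l 16578672)))) (b (a (l 16547864) (l 16602936)) (a (l 16586464) (l 16600600))))) (a (b (b (l 16777928) (l 16908176)) (l 16999200)) (b (b (l 16749096) (l 16821264)) (a (l 16917864) (l 16855936))))) (b (a (b (a (l 17050184) (l 16990704)) (l 35132465639)) (a (l 4) (l 4))) (l 4))), by decide +kernel⟩

def k1_mm_202 : ∃ t, chk3 f_mm_202 t 3 1 1 = true :=
  ⟨(b (b (a (b (a (b (b (b (c (a (l 16613032) (c (l 16617720) (l 16612640))) (a (l 16581048) (l 16604408))) (c (l 16644496) (l 16634560))) (c (l 16642640) (l 16633976))) (c (a (l 16584464) (l 16611656)) (l 16638688))) (b (b (a (c (b (c (l 16661536) (l 16635704)) (l 16637736)) (b (b (l 16627736) (l 16627984)) (l 16628384))) (c (b (b (c (l 16684576) (l 16658952)) (l 16682288)) (l 16661376)) (b (a (l 16645632) (l 16678688)) (l 16652808)))) (a (c (l 16637376) (l 16629312)) (c (l 16682736) (l 16675504)))) (b (a (l 16655264) (l 16702024)) (l 16712344)))) (a (b (l 16684528) (l 16682648)) (b (c (l 16766768) (l 16746400)) (l 16859352))))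 (b (a (b (b (a (b (c (b (a (c (l 16680680) (l 16676416)) (c (l 16692192) (l 16688288))) (a (l 16678760) (l 16690544))) (b (a (l 16669616) (c (l 16684208) (l 16679936))) (l 16697640))) (c (a (l 16679088) (l 16691016)) (l 16698792))) (a (b (b (l 6) (c (l 16702600) (l 16695912))) (c (l 16703200) (l 16697304))) (b (l 6) (c (l 16736816) (l 16731976))))) (b (a (c (l 16685744) (l 16679440)) (c (l 16742000) (l 16727128))) (a (l 16715288) (l 16741336)))) (a (b (l 16727760) (l 16733040)) (b (c (l 16759240) (l 16756256)) (l 16772280)))) (b (a (b (l 6) (a (c (l 16758072) (l 16755752)) (l 6))) (l 6)) (b (a (a (l 16768760) (l 4)) (l 4)) (l 4)))) (a (a (b (l 16802936) (l 4)) (l 4)) (l 4)))) (a (b (a (b (l 16701832) (l 4)) (l 4)) (l 4)) (l 4))) (l 4)), by decide +kernel⟩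

theorem s2_mm_202 : ∃ t, chk3 f_mm_202 t 1 1 1 = true := ex3_a k0_mm_202 k1_mm_202

theorem c_mm_202 : CertN 0 536870912 0 536870912 201326592 134217728 3 true false false .pp 2 0 2
    ndN0q2 ndN1q0 pcN2 cut_mm_202 Ext.none :=
  certN0 (fam := true) (s1 := false) (s2 := false) (a := 2) (b := 0) (c := 2) (cn := .pp) (n1 := ndN0q2) (n2 := ndN1q0) (pc := pcN2) (cut := cut_mm_202) (xt := Ext.none) (P1 := 0) (W1 := 536870912) (P2 := 0) (W2 := 536870912) (P3 := 201326592) (W3 := 134217728) (N0 := 3)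
    rfl s2_mm_202

noncomputable def f_mm_203 : ℕ → ℕ → ℕ → ℕ → Bool := onCell 0 536870912 0 536870912 201326592 134217728
    (rowN 3 0 true false false .up 2 0 3 (qsf 0 536870912 0 536870912 3) ndN0q2 ndN1q0 pcN3 Cut.none Ext.none)

def k0_mm_203 : ∃ t, chk3 f_mm_203 t 1 1 1 = true :=
  ⟨(b (l 1) (a (b (b (l 1) (a (a (l 17139168) (l 4)) (l 4))) (l 4)) (l 4))), by decide +kernel⟩

theorem c_mm_203 : CertN 0 536870912 0 536870912 201326592 134217728 3 true false false .up 2 0 3
    ndN0q2 ndN1q0 pcN3 Cut.none Ext.none :=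
  certN0 (fam := true) (s1 := false) (s2 := false) (a := 2) (b := 0) (c := 3) (cn := .up) (n1 := ndN0q2) (n2 := ndN1q0) (pc := pcN3) (cut := Cut.none) (xt := Ext.none) (P1 := 0) (W1 := 536870912) (P2 := 0) (W2 := 536870912) (P3 := 201326592) (W3 := 134217728) (N0 := 3)
    rfl k0_mm_203

noncomputable def f_mm_213 : ℕ → ℕ → ℕ → ℕ → Bool := onCell 0 536870912 536870912 536870912 201326592 134217728
    (rowN 3 0 true false false .pnn 2 1 3 (qsf 0 536870912 536870912 536870912 3) ndN0q2 ndN1q1 pcN3 Cut.none Ext.none)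

def k0_mm_213 : ∃ t, chk3 f_mm_213 t 1 1 1 = true :=
  ⟨(l 4), by decide +kernel⟩

theorem c_mm_213 : CertN 0 536870912 536870912 536870912 201326592 134217728 3 true false false .pnn 2 1 3
    ndN0q2 ndN1q1 pcN3 Cut.none Ext.none :=
  certN0 (fam := true) (s1 := false) (s2 := false) (a := 2) (b := 1) (c := 3) (cn := .pnn) (n1 := ndN0q2) (n2 := ndN1q1) (pc := pcN3) (cut := Cut.none) (xt := Ext.none) (P1 := 0) (W1 := 536870912) (P2 := 536870912) (W2 := 536870912) (P3 := 201326592) (W3 := 134217728) (N0 := 3)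
    rfl k0_mm_213

end Pool.Agent.Strip051.G.I3_16_5_16.Tab.C.NA01

namespace Pool.Agent.Strip051.G.I3_16_5_16.Tab.C.NA02

open Pool.Agent.Strip051.PB Pool.Agent.Strip051.PB.T
open Pool.Agent.Strip051.G.I3_16_5_16.Tab

noncomputable def f_pp_001 : ℕ → ℕ → ℕ → ℕ → Bool := onCell 0 536870912 0 536870912 201326592 134217728
    (rowN 3 0 true true true .up 0 0 1 (qsf 0 536870912 0 536870912 1) ndN0q0 ndN2q0 pcN1 Cut.none Ext.none)

def k0_pp_001 : ∃ t, chk3 f_pp_001 t 1 1 1 = true :=
  ⟨(l 4), by decide +kernel⟩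

theorem c_pp_001 : CertN 0 536870912 0 536870912 201326592 134217728 3 true true true .up 0 0 1
    ndN0q0 ndN2q0 pcN1 Cut.none Ext.none :=
  certN0 (fam := true) (s1 := true) (s2 := true) (a := 0) (b := 0) (c := 1) (cn := .up) (n1 := ndN0q0) (n2 := ndN2q0) (pc := pcN1) (cut := Cut.none) (xt := Ext.none) (P1 := 0) (W1 := 536870912) (P2 := 0) (W2 := 536870912) (P3 := 201326592) (W3 := 134217728) (N0 := 3)
    rfl k0_pp_001

noncomputable def f_pp_011 : ℕ → ℕ → ℕ → ℕ → Bool := onCell 0 536870912 536870912 536870912 201326592 134217728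
    (rowN 3 0 true true true .pnn 0 1 1 (qsf 0 536870912 536870912 536870912 1) ndN0q0 ndN2q1 pcN1 Cut.none Ext.none)

def k0_pp_011 : ∃ t, chk3 f_pp_011 t 1 1 1 = true :=
  ⟨(l 4), by decide +kernel⟩

theorem c_pp_011 : CertN 0 536870912 536870912 536870912 201326592 134217728 3 true true true .pnn 0 1 1
    ndN0q0 ndN2q1 pcN1 Cut.none Ext.none :=
  certN0 (fam := true) (s1 := true) (s2 := true) (a := 0) (b := 1) (c := 1) (cn := .pnn) (n1 := ndN0q0) (n2 := ndN2q1) (pc := pcN1) (cut := Cut.none) (xt := Ext.none) (P1 := 0) (W1 := 536870912) (P2 := 536870912) (W2 := 536870912) (P3 := 201326592) (W3 := 134217728) (N0 := 3)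
    rfl k0_pp_011

noncomputable def f_pp_012 : ℕ → ℕ → ℕ → ℕ → Bool := onCell 0 536870912 536870912 536870912 201326592 134217728
    (rowN 3 0 true true true .pnp 0 1 2 (qsf 0 536870912 536870912 536870912 2) ndN0q0 ndN2q1 pcN2 Cut.none Ext.none)

def k0_pp_012 : ∃ t, chk3 f_pp_012 t 1 1 1 = true :=
  ⟨(l 4), by decide +kernel⟩

theorem c_pp_012 : CertN 0 536870912 536870912 536870912 201326592 134217728 3 true true true .pnp 0 1 2
    ndN0q0 ndN2q1 pcN2 Cut.none Ext.none :=
  certN0 (fam := true) (s1 := true) (s2 := true) (a := 0) (b := 1) (c := 2) (cn := .pnp) (n1 := ndN0q0) (n2 := ndN2q1) (pc := pcN2) (cut := Cut.none) (xt := Ext.none) (P1 := 0) (W1 := 536870912) (P2 := 536870912) (W2 := 536870912) (P3 := 201326592) (W3 := 134217728) (N0 := 3)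
    rfl k0_pp_012

noncomputable def cut_pp_022_a : Cut := Cut.of [[⟨0, 0, 0, 67108864⟩, ⟨1, 1, 0, 67108864⟩, ⟨2, 1, 0, 67108864⟩]]

noncomputable def f_pp_022_a : ℕ → ℕ → ℕ → ℕ → Bool := onCell 0 536870912 0 536870912 201326592 134217728
    (rowN 3 0 true true true .pp 0 2 2 (qsf 0 536870912 0 536870912 2) ndN0q0 ndN2q2a pcN2 cut_pp_022_a Ext.none)

def k0_pp_022_a : ∃ t, chk3 f_pp_022_a t 1 1 1 = true :=
  ⟨(a (a (b (l 4) (b (l 4) (a (b (l 4) (a (b (l 4) (l 6)) (l 4))) (l 4)))) (l 4)) (l 4)), by decide +kernel⟩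

theorem c_pp_022_a : CertN 0 536870912 0 536870912 201326592 134217728 3 true true true .pp 0 2 2
    ndN0q0 ndN2q2a pcN2 cut_pp_022_a Ext.none :=
  certN0 (fam := true) (s1 := true) (s2 := true) (a := 0) (b := 2) (c := 2) (cn := .pp) (n1 := ndN0q0) (n2 := ndN2q2a) (pc := pcN2) (cut := cut_pp_022_a) (xt := Ext.none) (P1 := 0) (W1 := 536870912) (P2 := 0) (W2 := 536870912) (P3 := 201326592) (W3 := 134217728) (N0 := 3)
    rfl k0_pp_022_a

noncomputable def cut_pp_022_b : Cut := Cut.of [[⟨0, 0, 0, 67108864⟩, ⟨1, 1, 0, 67108864⟩, ⟨2, 1, 0, 67108864⟩]]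

noncomputable def f_pp_022_b : ℕ → ℕ → ℕ → ℕ → Bool := onCell 0 536870912 1239849684 370763052 201326592 134217728
    (rowN 3 0 true true true .pp 0 2 2 (qsf 0 536870912 1239849684 370763052 2) ndN0q0 ndN2q2b pcN2 cut_pp_022_b Ext.none)

def k0_pp_022_b : ∃ t, chk3 f_pp_022_b t 1 1 1 = true :=
  ⟨(a (b (l 4) (l 4)) (l 4)), by decide +kernel⟩

theorem c_pp_022_b : CertN 0 536870912 1239849684 370763052 201326592 134217728 3 true true true .pp 0 2 2
    ndN0q0 ndN2q2b pcN2 cut_pp_022_b Ext.none :=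
  certN0 (fam := true) (s1 := true) (s2 := true) (a := 0) (b := 2) (c := 2) (cn := .pp) (n1 := ndN0q0) (n2 := ndN2q2b) (pc := pcN2) (cut := cut_pp_022_b) (xt := Ext.none) (P1 := 0) (W1 := 536870912) (P2 := 1239849684) (W2 := 370763052) (P3 := 201326592) (W3 := 134217728) (N0 := 3)
    rfl k0_pp_022_b

noncomputable def f_pp_023_a : ℕ → ℕ → ℕ → ℕ → Bool := onCell 1610612736 536870912 0 536870912 201326592 134217728
    (rowN 3 2 true true true .up 0 2 3 (qsf 0 536870912 0 536870912 3) ndN0q0 ndN2q2a pcN3 Cut.none Ext.none)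

def k0_pp_023_a : ∃ t, chk3 f_pp_023_a t 1 1 1 = true :=
  ⟨(l 4), by decide +kernel⟩

theorem c_pp_023_a : CertN 0 536870912 0 536870912 201326592 134217728 3 true true true .up 0 2 3
    ndN0q0 ndN2q2a pcN3 Cut.none Ext.none :=
  certN2 (fam := true) (s1 := true) (s2 := true) (a := 0) (b := 2) (c := 3) (cn := .up) (n1 := ndN0q0) (n2 := ndN2q2a) (pc := pcN3) (cut := Cut.none) (xt := Ext.none) (P1 := 0) (W1 := 536870912) (P2 := 0) (W2 := 536870912) (P3 := 201326592) (W3 := 134217728) (N0 := 3)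
    rfl (fun _ => rfl) k0_pp_023_a

noncomputable def f_pp_023_b : ℕ → ℕ → ℕ → ℕ → Bool := onCell 1610612736 536870912 1239849684 370763052 201326592 134217728
    (rowN 3 2 true true true .up 0 2 3 (qsf 0 536870912 1239849684 370763052 3) ndN0q0 ndN2q2b pcN3 Cut.none Ext.none)

def k0_pp_023_b : ∃ t, chk3 f_pp_023_b t 1 1 1 = true :=
  ⟨(l 4), by decide +kernel⟩

theorem c_pp_023_b : CertN 0 536870912 1239849684 370763052 201326592 134217728 3 true true true .up 0 2 3
    ndN0q0 ndN2q2b pcN3 Cut.none Ext.none :=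
  certN2 (fam := true) (s1 := true) (s2 := true) (a := 0) (b := 2) (c := 3) (cn := .up) (n1 := ndN0q0) (n2 := ndN2q2b) (pc := pcN3) (cut := Cut.none) (xt := Ext.none) (P1 := 0) (W1 := 536870912) (P2 := 1239849684) (W2 := 370763052) (P3 := 201326592) (W3 := 134217728) (N0 := 3)
    rfl (fun _ => rfl) k0_pp_023_b

noncomputable def f_pp_033 : ℕ → ℕ → ℕ → ℕ → Bool := onCell 0 536870912 1610612736 536870912 201326592 134217728
    (rowN 3 0 true true true .pnn 0 3 3 (qsf 0 536870912 1610612736 536870912 3) ndN0q0 ndN2q3 pcN3 Cut.none Ext.none)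

def k0_pp_033 : ∃ t, chk3 f_pp_033 t 1 1 1 = true :=
  ⟨(l 4), by decide +kernel⟩

theorem c_pp_033 : CertN 0 536870912 1610612736 536870912 201326592 134217728 3 true true true .pnn 0 3 3
    ndN0q0 ndN2q3 pcN3 Cut.none Ext.none :=
  certN0 (fam := true) (s1 := true) (s2 := true) (a := 0) (b := 3) (c := 3) (cn := .pnn) (n1 := ndN0q0) (n2 := ndN2q3) (pc := pcN3) (cut := Cut.none) (xt := Ext.none) (P1 := 0) (W1 := 536870912) (P2 := 1610612736) (W2 := 536870912) (P3 := 201326592) (W3 := 134217728) (N0 := 3)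
    rfl k0_pp_033

noncomputable def f_pp_101 : ℕ → ℕ → ℕ → ℕ → Bool := onCell 536870912 536870912 0 536870912 201326592 134217728
    (rowN 3 0 true true true .npn 1 0 1 (qsf 536870912 536870912 0 536870912 1) ndN0q1 ndN2q0 pcN1 Cut.none Ext.none)

def k0_pp_101 : ∃ t, chk3 f_pp_101 t 1 1 1 = true :=
  ⟨(l 5), by decide +kernel⟩

theorem c_pp_101 : CertN 536870912 536870912 0 536870912 201326592 134217728 3 true true true .npn 1 0 1
    ndN0q1 ndN2q0 pcN1 Cut.none Ext.none :=
  certN0 (fam := true) (s1 := true) (s2 := true) (a := 1) (b := 0) (c := 1) (cn := .npn) (n1 := ndN0q1) (n2 := ndN2q0) (pc := pcN1) (cut := Cut.none) (xt := Ext.none) (P1 := 536870912) (W1 := 536870912) (P2 := 0) (W2 := 536870912) (P3 := 201326592) (W3 := 134217728) (N0 := 3)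
    rfl k0_pp_101

noncomputable def f_pp_102 : ℕ → ℕ → ℕ → ℕ → Bool := onCell 536870912 536870912 0 536870912 201326592 134217728
    (rowN 3 0 true true true .npp 1 0 2 (qsf 536870912 536870912 0 536870912 2) ndN0q1 ndN2q0 pcN2 Cut.none Ext.none)

def k0_pp_102 : ∃ t, chk3 f_pp_102 t 1 1 1 = true :=
  ⟨(l 5), by decide +kernel⟩

theorem c_pp_102 : CertN 536870912 536870912 0 536870912 201326592 134217728 3 true true true .npp 1 0 2
    ndN0q1 ndN2q0 pcN2 Cut.none Ext.none :=
  certN0 (fam := true) (s1 := true) (s2 := true) (a := 1) (b := 0) (c := 2) (cn := .npp) (n1 := ndN0q1) (n2 := ndN2q0) (pc := pcN2) (cut := Cut.none) (xt := Ext.none) (P1 := 536870912) (W1 := 536870912) (P2 := 0) (W2 := 536870912) (P3 := 201326592) (W3 := 134217728) (N0 := 3)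
    rfl k0_pp_102

noncomputable def f_pp_112 : ℕ → ℕ → ℕ → ℕ → Bool := onCell 536870912 536870912 536870912 536870912 201326592 134217728
    (rowN 3 0 true true true .dn 1 1 2 (qsf 536870912 536870912 536870912 536870912 2) ndN0q1 ndN2q1 pcN2 Cut.none Ext.none)

def k0_pp_112 : ∃ t, chk3 f_pp_112 t 1 1 1 = true :=
  ⟨(l 4), by decide +kernel⟩

theorem c_pp_112 : CertN 536870912 536870912 536870912 536870912 201326592 134217728 3 true true true .dn 1 1 2
    ndN0q1 ndN2q1 pcN2 Cut.none Ext.none :=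
  certN0 (fam := true) (s1 := true) (s2 := true) (a := 1) (b := 1) (c := 2) (cn := .dn) (n1 := ndN0q1) (n2 := ndN2q1) (pc := pcN2) (cut := Cut.none) (xt := Ext.none) (P1 := 536870912) (W1 := 536870912) (P2 := 536870912) (W2 := 536870912) (P3 := 201326592) (W3 := 134217728) (N0 := 3)
    rfl k0_pp_112

noncomputable def f_pp_113 : ℕ → ℕ → ℕ → ℕ → Bool := onCell 536870912 536870912 536870912 536870912 201326592 134217728
    (rowN 3 0 true true true .nn 1 1 3 (qsf 536870912 536870912 536870912 536870912 3) ndN0q1 ndN2q1 pcN3 Cut.none Ext.none)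

def k0_pp_113 : ∃ t, chk3 f_pp_113 t 1 1 1 = true :=
  ⟨(l 4), by decide +kernel⟩

theorem c_pp_113 : CertN 536870912 536870912 536870912 536870912 201326592 134217728 3 true true true .nn 1 1 3
    ndN0q1 ndN2q1 pcN3 Cut.none Ext.none :=
  certN0 (fam := true) (s1 := true) (s2 := true) (a := 1) (b := 1) (c := 3) (cn := .nn) (n1 := ndN0q1) (n2 := ndN2q1) (pc := pcN3) (cut := Cut.none) (xt := Ext.none) (P1 := 536870912) (W1 := 536870912) (P2 := 536870912) (W2 := 536870912) (P3 := 201326592) (W3 := 134217728) (N0 := 3)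
    rfl k0_pp_113

noncomputable def f_pp_123_a : ℕ → ℕ → ℕ → ℕ → Bool := onCell 536870912 536870912 0 536870912 201326592 134217728
    (rowN 3 0 true true true .npn 1 2 3 (qsf 536870912 536870912 0 536870912 3) ndN0q1 ndN2q2a pcN3 Cut.none Ext.none)

def k0_pp_123_a : ∃ t, chk3 f_pp_123_a t 1 1 1 = true :=
  ⟨(l 4), by decide +kernel⟩

theorem c_pp_123_a : CertN 536870912 536870912 0 536870912 201326592 134217728 3 true true true .npn 1 2 3
    ndN0q1 ndN2q2a pcN3 Cut.none Ext.none :=
  certN0 (fam := true) (s1 := true) (s2 := true) (a := 1) (b := 2) (c := 3) (cn := .npn) (n1 := ndN0q1) (n2 := ndN2q2a) (pc := pcN3) (cut := Cut.none) (xt := Ext.none) (P1 := 536870912) (W1 := 536870912) (P2 := 0) (W2 := 536870912) (P3 := 201326592) (W3 := 134217728) (N0 := 3)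
    rfl k0_pp_123_a

noncomputable def f_pp_123_b : ℕ → ℕ → ℕ → ℕ → Bool := onCell 536870912 536870912 1239849684 370763052 201326592 134217728
    (rowN 3 0 true true true .npn 1 2 3 (qsf 536870912 536870912 1239849684 370763052 3) ndN0q1 ndN2q2b pcN3 Cut.none Ext.none)

def k0_pp_123_b : ∃ t, chk3 f_pp_123_b t 1 1 1 = true :=
  ⟨(l 4), by decide +kernel⟩

theorem c_pp_123_b : CertN 536870912 536870912 1239849684 370763052 201326592 134217728 3 true true true .npn 1 2 3
    ndN0q1 ndN2q2b pcN3 Cut.none Ext.none :=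
  certN0 (fam := true) (s1 := true) (s2 := true) (a := 1) (b := 2) (c := 3) (cn := .npn) (n1 := ndN0q1) (n2 := ndN2q2b) (pc := pcN3) (cut := Cut.none) (xt := Ext.none) (P1 := 536870912) (W1 := 536870912) (P2 := 1239849684) (W2 := 370763052) (P3 := 201326592) (W3 := 134217728) (N0 := 3)
    rfl k0_pp_123_b

noncomputable def f_pp_133 : ℕ → ℕ → ℕ → ℕ → Bool := onCell 536870912 536870912 1610612736 536870912 201326592 134217728
    (rowN 3 0 true true true .dn 1 3 3 (qsf 536870912 536870912 1610612736 536870912 3) ndN0q1 ndN2q3 pcN3 Cut.none Ext.none)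

def k0_pp_133 : ∃ t, chk3 f_pp_133 t 1 1 1 = true :=
  ⟨(l 4), by decide +kernel⟩

theorem c_pp_133 : CertN 536870912 536870912 1610612736 536870912 201326592 134217728 3 true true true .dn 1 3 3
    ndN0q1 ndN2q3 pcN3 Cut.none Ext.none :=
  certN0 (fam := true) (s1 := true) (s2 := true) (a := 1) (b := 3) (c := 3) (cn := .dn) (n1 := ndN0q1) (n2 := ndN2q3) (pc := pcN3) (cut := Cut.none) (xt := Ext.none) (P1 := 536870912) (W1 := 536870912) (P2 := 1610612736) (W2 := 536870912) (P3 := 201326592) (W3 := 134217728) (N0 := 3)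
    rfl k0_pp_133

noncomputable def f_pp_202 : ℕ → ℕ → ℕ → ℕ → Bool := onCell 0 536870912 0 536870912 201326592 134217728
    (rowN 3 0 true true true .pp 2 0 2 (qsf 0 536870912 0 536870912 2) ndN0q2 ndN2q0 pcN2 Cut.none Ext.none)

def k0_pp_202 : ∃ t, chk3 f_pp_202 t 1 1 1 = true :=
  ⟨(l 5), by decide +kernel⟩

theorem c_pp_202 : CertN 0 536870912 0 536870912 201326592 134217728 3 true true true .pp 2 0 2
    ndN0q2 ndN2q0 pcN2 Cut.none Ext.none :=
  certN0 (fam := true) (s1 := true) (s2 := true) (a := 2) (b := 0) (c := 2) (cn := .pp) (n1 := ndN0q2) (n2 := ndN2q0) (pc := pcN2) (cut := Cut.none) (xt := Ext.none) (P1 := 0) (W1 := 536870912) (P2 := 0) (W2 := 536870912) (P3 := 201326592) (W3 := 134217728) (N0 := 3)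
    rfl k0_pp_202

noncomputable def f_pp_203 : ℕ → ℕ → ℕ → ℕ → Bool := onCell 0 536870912 0 536870912 201326592 134217728
    (rowN 3 0 true true true .up 2 0 3 (qsf 0 536870912 0 536870912 3) ndN0q2 ndN2q0 pcN3 Cut.none Ext.none)

def k0_pp_203 : ∃ t, chk3 f_pp_203 t 1 1 1 = true :=
  ⟨(l 5), by decide +kernel⟩

theorem c_pp_203 : CertN 0 536870912 0 536870912 201326592 134217728 3 true true true .up 2 0 3
    ndN0q2 ndN2q0 pcN3 Cut.none Ext.none :=
  certN0 (fam := true) (s1 := true) (s2 := true) (a := 2) (b := 0) (c := 3) (cn := .up) (n1 := ndN0q2) (n2 := ndN2q0) (pc := pcN3) (cut := Cut.none) (xt := Ext.none) (P1 := 0) (W1 := 536870912) (P2 := 0) (W2 := 536870912) (P3 := 201326592) (W3 := 134217728) (N0 := 3)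
    rfl k0_pp_203

noncomputable def f_pp_213 : ℕ → ℕ → ℕ → ℕ → Bool := onCell 0 536870912 536870912 536870912 201326592 134217728
    (rowN 3 0 true true true .pnn 2 1 3 (qsf 0 536870912 536870912 536870912 3) ndN0q2 ndN2q1 pcN3 Cut.none Ext.none)

def k0_pp_213 : ∃ t, chk3 f_pp_213 t 1 1 1 = true :=
  ⟨(l 4), by decide +kernel⟩

theorem c_pp_213 : CertN 0 536870912 536870912 536870912 201326592 134217728 3 true true true .pnn 2 1 3
    ndN0q2 ndN2q1 pcN3 Cut.none Ext.none :=
  certN0 (fam := true) (s1 := true) (s2 := true) (a := 2) (b := 1) (c := 3) (cn := .pnn) (n1 := ndN0q2) (n2 := ndN2q1) (pc := pcN3) (cut := Cut.none) (xt := Ext.none) (P1 := 0) (W1 := 536870912) (P2 := 536870912) (W2 := 536870912) (P3 := 201326592) (W3 := 134217728) (N0 := 3)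
    rfl k0_pp_213

noncomputable def f_pm_001 : ℕ → ℕ → ℕ → ℕ → Bool := onCell 0 536870912 536870912 536870912 201326592 134217728
    (rowN 3 1 true true false .up 0 0 1 (qsf 0 536870912 0 536870912 1) ndN0q0 ndN2q0 pcN1 Cut.none Ext.none)

def k0_pm_001 : ∃ t, chk3 f_pm_001 t 1 1 1 = true :=
  ⟨(b (l 3) (l 3)), by decide +kernel⟩

theorem c_pm_001 : CertN 0 536870912 0 536870912 201326592 134217728 3 true true false .up 0 0 1
    ndN0q0 ndN2q0 pcN1 Cut.none Ext.none :=
  certN1 (fam := true) (s1 := true) (s2 := false) (a := 0) (b := 0) (c := 1) (cn := .up) (n1 := ndN0q0) (n2 := ndN2q0) (pc := pcN1) (cut := Cut.none) (xt := Ext.none) (P1 := 0) (W1 := 536870912) (P2 := 0) (W2 := 536870912) (P3 := 201326592) (W3 := 134217728) (N0 := 3)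
    rfl (fun _ => rfl) k0_pm_001

noncomputable def f_pm_011 : ℕ → ℕ → ℕ → ℕ → Bool := onCell 0 536870912 536870912 536870912 201326592 134217728
    (rowN 3 1 true true false .pnn 0 1 1 (qsf 0 536870912 536870912 536870912 1) ndN0q0 ndN2q1 pcN1 Cut.none Ext.none)

def k0_pm_011 : ∃ t, chk3 f_pm_011 t 1 1 1 = true :=
  ⟨(b (l 3) (l 3)), by decide +kernel⟩

theorem c_pm_011 : CertN 0 536870912 536870912 536870912 201326592 134217728 3 true true false .pnn 0 1 1
    ndN0q0 ndN2q1 pcN1 Cut.none Ext.none :=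
  certN1 (fam := true) (s1 := true) (s2 := false) (a := 0) (b := 1) (c := 1) (cn := .pnn) (n1 := ndN0q0) (n2 := ndN2q1) (pc := pcN1) (cut := Cut.none) (xt := Ext.none) (P1 := 0) (W1 := 536870912) (P2 := 536870912) (W2 := 536870912) (P3 := 201326592) (W3 := 134217728) (N0 := 3)
    rfl (fun _ => rfl) k0_pm_011

noncomputable def f_pm_012 : ℕ → ℕ → ℕ → ℕ → Bool := onCell 1073741824 536870912 536870912 536870912 201326592 134217728
    (rowN 3 2 true true false .pnp 0 1 2 (qsf 0 536870912 536870912 536870912 2) ndN0q0 ndN2q1 pcN2 Cut.none Ext.none)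

def k0_pm_012 : ∃ t, chk3 f_pm_012 t 4 2 1 = true :=
  ⟨(b (a (a (a (l 3) (b (c (l 94121517911) (b (l 80699184455) (l 76404189799))) (c (l 84994630743) (b (l 73182938807) (l 274509480439))))) (b (c (a (l 17433760) (l 17463952)) (a (b (l 17212480) (l 17187488)) (l 17219536))) (c (a (b (l 17399400) (l 17382784)) (l 17424288)) (a (b (l 17161120) (a (l 17133920) (l 17139832))) (b (l 17180976) (l 17151224)))))) (a (b (c (l 17502704) (a (l 17237920) (l 2))) (c (l 17465992) (a (l 17184816) (l 17204816)))) (b (l 2) (c (a (l 17510528) (l 17540648)) (a (l 17229152) (l 17255744)))))) (a (b (a (l 3) (c (a (b (l 17357312) (l 17323480)) (b (l 17390120) (l 17359464))) (a (b (a (l 17098368) (l 17103416)) (a (c (l 17112192) (l 16974600)) (l 17049464))) (b (l 17113368) (a (l 17056648) (l 17065336)))))) (a (l 3) (c (a (a (b (l 17264552) (l 67813959271)) (b (l 17283680) (l 17124208))) (b (l 17312568) (c (l 17335104) (l 17144960)))) (a (b (a (l 68887272423) (c (l 17044392) (l 16882328))) (a (c (l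 16794968) (l 59760435703)) (c (l 16931736) (l 16743504)))) (b (a (l 16972440) (l 16983528)) (a (l 16743080) (l 16861008))))))) (a (b (a (c (l 17408576) (b (l 17130832) (l 17079552))) (c (l 17441152) (l 17129056))) (c (b (l 17351704) (a (l 17288912) (l 17335976))) (b (a (l 17003248) (l 17031632)) (a (l 16676544) (l 16924008))))) (b (c (a (l 17473640) (l 17508648)) (a (l 17154048) (l 17184240))) (c (a (l 17410232) (l 17452736)) (a (b (l 17063152) (l 16966448)) (b (l 17098160) (l 17011440)))))))), by decide +kernel⟩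

def k1_pm_012 : ∃ t, chk3 f_pm_012 t 5 2 1 = true :=
  ⟨(a (b (a (a (b (l 2) (l 17428824)) (l 2)) (l 2)) (a (a (b (c (l 17544688) (l 17217368)) (c (l 17497888) (l 17101832))) (b (c (l 17581504) (l 17295128)) (c (l 17543880) (a (l 17136544) (l 17160224))))) (b (c (l 17631584) (l 17305960)) (c (l 17609960) (l 17219112))))) (b (l 2) (a (b (l 17535384) (c (l 17691392) (l 17311752))) (b (l 2) (l 17580352))))), by decide +kernel⟩

def k2_pm_012 : ∃ t, chk3 f_pm_012 t 8 6 1 = true :=
  ⟨(a (l 3) (b (a (c (b (a (l 246591602279) (c (l 17200584) (l 16985592))) (a (l 3) (c (l 16902088) (l 16787336)))) (b (a (c (l 232096027495) (l 213305482679)) (c (l 16765952) (l 64055323495))) (a (l 3) (c (b (l 16747848) (l 16738504)) (b (l 16717360) (l 61907792087)))))) (a (c (b (c (l 17228440) (l 17007176)) (c (l 17081992) (l 16813864))) (b (b (l 16720272) (l 16713176)) (c (l 16716184) (l 16686448)))) (c (b (l 17103496) (l 16730096)) (b (l 16688800) (c (l 16688480) (l 16659264)))))) (a (a (l 3) (c (b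 (c (l 47412438343) (l 54391664183)) (c (b (l 16767648) (l 156934018647)) (b (l 47949196455) (l 110226198407)))) (b (c (b (l 16728576) (l 53317870823)) (b (l 59760286871) (l 56539042439))) (b (c (l 50633495575) (l 52780927367)) (c (l 55465311655) (l 44190992519)))))) (a (c (b (c (l 16768296) (l 16727136)) (c (b (l 16741664) (l 16730504)) (b (l 16711312) (l 16700688)))) (b (c (b (l 16702072) (l 16692368)) (b (l 16673272) (l 16664304))) (b (c (l 16682536) (l 16655296)) (c (l 16672640) (l 16646336))))) (c (b (c (l 16897552) (l 16699448)) (c (l 16708560) (l 16678704))) (b (c (l 16670128) (l 16642080)) (b (l 16641656) (l 16642664)))))))), by decide +kernel⟩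

def k3_pm_012 : ∃ t, chk3 f_pm_012 t 9 6 1 = true :=
  ⟨(a (b (c (a (b (c (l 17304616) (l 17072600)) (c (l 17174712) (l 16707512))) (b (l 17247400) (l 16901736))) (a (b (l 16694816) (a (l 16646968) (l 16619872))) (b (l 16765640) (l 16574192)))) (a (a (c (b (l 16713416) (c (l 16681336) (l 16651928))) (b (l 16629800) (b (l 16615504) (l 16605936)))) (c (b (l 16679472) (c (l 16683408) (l 16625080))) (b (l 16603592) (l 16605912)))) (c (b (l 16650488) (c (l 16643480) (l 16581632))) (b (l 16559696) (b (l 16546960) (l 16559552)))))) (b (c (b (l 17336760) (a (l 17188056) (l 17264720))) (b (a (l 16821920) (l 16882320)) (a (l 16612784) (l 16694456)))) (c (b (a (l 16795352) (l 17107456)) (a (l 16574800) (l 16654728))) (a (b (l 16496680) (l 16501688)) (b (l 16429952) (l 16435944)))))), by decide +kernel⟩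

def k4_pm_012 : ∃ t, chk3 f_pm_012 t 8 7 1 = true :=
  ⟨(b (a (l 3) (c (a (l 3) (b (c (b (a (l 16718864) (l 16691304)) (a (l 47412254567) (l 16679440))) (b (a (l 16689744) (l 16662352)) (a (l 44727861703) (l 16651296)))) (a (a (b (c (l 16701264) (l 16674008)) (l 3)) (b (c (l 16688384) (l 16661128)) (c (l 16676904) (l 16650712)))) (c (b (l 16667576) (b (l 16658696) (l 16652968))) (b (l 16640352) (l 16650688)))))) (a (l 3) (b (a (b (c (l 16662592) (l 16637384)) (c (l 16662968) (l 16649504))) (b (c (l 16635400) (l 16610400)) (c (l 16625328) (l 16601520)))) (a (b (c (l 21642379303) (l 16640960)) (c (b (l 16635400) (l 16631240)) (l 16643728))) (b (c (l 16615488) (l 16592984)) (c (l 16627048) (l 16605944)))))))) (a (l 3) (b (a (l 3) (c (a (a (l 3) (b (c (l 23253017191) (l 16641992)) (a (l 3) (c (l 37748514919) (l 16630600))))) (b (c (b (l 16647848) (l 16643312)) (b (l 16622464) (l 16618472))) (c (b (l 16659832) (l 16655352)) (b (l 16635552) (l 16631672))))) (c (a (a (l 3) (b (l 16619608)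 (l 16633640))) (b (l 16640064) (b (l 16614136) (l 16610928)))) (a (a (l 3) (b (l 16599928) (l 16636488))) (b (l 16620400) (l 16615352)))))) (a (l 3) (a (l 3) (c (b (c (b (b (l 16651960) (l 16649688)) (c (l 16652320) (l 16640336))) (b (l 16627760) (l 16644800))) (b (c (b (l 16642752) (l 16661376)) (l 16640840)) (c (b (l 16659016) (l 16651400)) (l 16626416)))) (a (b (b (l 16627192) (l 16629136)) (b (b (l 16640184) (l 16647536)) (c (l 16643296) (b (l 16616936) (l 16623992))))) (b (l 16619048) (b (b (l 16630616) (l 16637792)) (c (l 16622888) (b (l 16606856) (l 16613712)))))))))))), by decide +kernel⟩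

def k5_pm_012 : ∃ t, chk3 f_pm_012 t 9 14 1 = true :=
  ⟨(a (a (c (b (c (b (l 16650688) (l 16638768)) (b (l 16622336) (l 16632088))) (b (c (a (l 16640224) (l 16613200)) (a (l 16613208) (l 16586568))) (c (a (l 16628304) (l 16601120)) (a (l 16602248) (l 16575376))))) (b (b (a (l 16596256) (l 16570528)) (c (l 16606560) (l 16562152))) (a (b (l 16598032) (c (l 16578728) (l 16557736))) (b (l 16550888) (l 16562368))))) (c (b (c (b (l 16593776) (l 16582624)) (a (l 16576432) (l 16545952))) (b (c (l 16591992) (l 16566200)) (c (l 16601032) (l 16576016)))) (b (b (l 16571552) (a (l 16534376) (l 16505256))) (a (b (l 16524592) (l 16536168)) (b (l 16496368) (l 16529536)))))) (c (a (b (c (l 16540880) (l 16518240)) (b (l 16556480) (a (l 16520640) (l 16487128)))) (b (l 16504984) (b (l 16466504) (l 16476848)))) (b (a (b (l 16488320) (l 16500248)) (c (l 16428632) (l 16429896))) (a (a (l 16523624) (l 16491808)) (b (l 16425568) (l 16416400)))))), by decide +kernel⟩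

def k6_pm_012 : ∃ t, chk3 f_pm_012 t 18 15 1 = true :=
  ⟨(a (b (a (c (b (c (l 16638032) (l 16613024)) (c (b (l 16609784) (l 16605280)) (l 16625600))) (b (a (l 16608448) (l 16594600)) (c (l 16604584) (l 16565496)))) (c (b (c (l 16589232) (l 16564496)) (c (l 16599736) (l 16576064))) (b (l 16595296) (l 16582592)))) (c (b (a (c (b (l 16621728) (l 16617184)) (b (l 16598688) (l 16615728))) (c (b (l 16571856) (l 16588256)) (l 16588992))) (b (a (c (l 16633584) (l 16590840)) (c (l 16583656) (l 16563392))) (a (c (b (l 16609160) (l 16627832)) (l 16597224)) (c (l 16600008) (l 16578472))))) (c (b (b (l 16585328) (l 16590848)) (b (a (l 16594032) (l 16574704)) (a (l 16624304) (l 16609984)))) (b (a (l 16608200) (l 16583120)) (a (b (l 16623752) (b (l 16592064) (c (l 16597272) (l 16600200)))) (b (l 16582632) (b (l 16571768) (l 16578456)))))))) (b (c (b (c (a (l 16561872) (l 16533600)) (l 16585872)) (c (b (l 16580208) (l 16574800)) (a (l 16548040) (l 16540872)))) (b (c (l 16564312) (l 16545288))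 (c (l 16555072) (l 16525568)))) (a (b (c (c (l 16582656) (l 16560400)) (a (l 16574648) (l 16554240))) (c (c (a (l 16572768) (l 16545168)) (l 16573096)) (c (b (l 16555096) (l 16569184)) (b (l 16541152) (b (l 16551120) (l 16557712)))))) (b (c (b (l 16544328) (l 16550656)) (c (l 16514608) (l 16542792))) (c (c (l 16533912) (l 16554256)) (c (c (l 16561312) (l 16564984)) (b (l 16520464) (l 16533536)))))))), by decide +kernel⟩

def k7_pm_012 : ∃ t, chk3 f_pm_012 t 19 15 1 = true :=
  ⟨(a (b (c (a (b (l 16531072) (b (l 16523256) (l 16518192))) (b (l 16497496) (l 16508040))) (b (l 16504968) (l 16507840))) (b (c (c (b (l 16507608) (l 16523968)) (l 16502232)) (c (l 16531672) (a (l 16524160) (l 16487728)))) (c (c (b (l 16512536) (l 16526496)) (b (l 16523184) (l 16547048))) (a (c (b (l 16517080) (l 16530256)) (b (l 16501112) (a (l 16518080) (l 16509160)))) (c (l 16530136) (b (l 16485552) (l 16497216))))))) (b (c (b (l 16476648) (a (l 16473376) (l 16441760))) (b (l 16433264) (l 16480856))) (c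 (b (c (l 16449512) (l 16478880)) (c (l 16498720) (b (l 16478536) (l 16491712)))) (b (c (l 16484320) (l 16486800)) (b (a (l 16490840) (l 16456304)) (c (l 16516464) (a (l 16482288) (l 16468144)))))))), by decide +kernel⟩

def k8_pm_012 : ∃ t, chk3 f_pm_012 t 10 6 1 = true :=
  ⟨(a (b (a (c (b (l 17425144) (l 17339920)) (b (l 16944560) (l 16777872))) (c (b (l 17492056) (a (l 17395008) (l 17433040))) (a (l 16923448) (a (l 16950736) (l 16968904))))) (a (c (b (l 17206936) (l 16959368)) (b (l 16537480) (l 16386824))) (a (c (b (l 17278872) (l 17098960)) (b (l 16622456) (l 16307400))) (c (a (l 17008336) (b (l 17337592) (l 17176840))) (a (l 16507736) (b (l 16691840) (l 16403296))))))) (b (c (l 17548056) (b (l 17103752) (l 16984184))) (c (b (l 17438080) (l 17309128)) (b (l 16812224) (l 16566136))))), by decide +kernel⟩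

def k9_pm_012 : ∃ t, chk3 f_pm_012 t 20 7 1 = true :=
  ⟨(b (c (a (b (b (l 16775320) (l 16575904)) (b (l 16414392) (l 16403640))) (b (a (l 16819624) (a (l 16885592) (c (l 17158040) (l 16695824)))) (a (l 16379248) (a (l 16476376) (a (l 16523696) (l 16554624)))))) (a (b (l 16390688) (l 16395280)) (a (b (l 16294104) (l 16342768)) (b (a (l 16270576) (l 16311296)) (a (l 16317840) (l 16398608)))))) (a (b (b (c (l 16402584) (l 16391728)) (c (l 16440248) (l 16437624))) (c (b (c (l 16432512) (l 16438200)) (c (l 16480584) (b (l 16436824) (l 16449680)))) (b (c (l 16440920) (l 16461632)) (b (a (l 16443784) (l 16432416)) (c (l 16492712) (a (l 16454696) (l 16442328))))))) (b (c (a (c (l 16382640) (l 16388008)) (a (l 16403368) (b (l 16389424) (c (l 16370792) (l 16374232))))) (a (b (l 16358096) (l 16381800)) (a (l 16406632) (a (l 16384248) (l 16404344))))) (b (a (c (l 16445464) (l 16426120)) (c (a (l 16399416) (c (l 16396384) (l 16419792))) (a (l 16399200) (a (l 16397456) (l 16417368))))) (a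 (c (c (l 16427232) (l 16429976)) (c (l 16429520) (b (l 16420416) (l 16431376)))) (c (a (c (l 16423048) (l 16424928)) (c (l 16442704) (a (l 16423680) (l 16422952)))) (a (c (l 16423568) (b (l 16413600) (l 16424336))) (c (a (l 16421864) (l 16420848)) (a (b (l 16411440) (l 16422072)) (b (l 16410128) (l 16441680))))))))))), by decide +kernel⟩

def k10_pm_012 : ∃ t, chk3 f_pm_012 t 21 7 1 = true :=
  ⟨(b (b (c (c (l 17326864) (l 16887944)) (l 16314608)) (c (b (c (l 17142672) (l 16630096)) (l 16440720)) (b (l 16305208) (l 16304952)))) (b (c (b (l 16382440) (c (l 16493472) (l 16351168))) (b (l 16347040) (c (l 16349144) (l 16344120)))) (c (b (c (l 16394664) (l 16394696)) (c (a (l 16408872) (l 16386248)) (b (l 16390640) (l 16422760)))) (b (c (l 16391560) (a (l 16378416) (l 16351000))) (c (b (l 16386616) (a (l 16411152) (l 16383896))) (b (a (l 16393960) (l 16365360)) (a (c (l 16406232) (l 16401872)) (l 16374800)))))))), by decide +kernel⟩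

def k11_pm_012 : ∃ t, chk3 f_pm_012 t 11 3 1 = true :=
  ⟨(b (b (c (a (l 17663616) (l 17762992)) (a (l 17186008) (l 17310368))) (c (a (b (l 17599048) (l 17516968)) (l 17717256)) (a (b (l 17009376) (l 16826336)) (b (l 17184368) (l 17050936))))) (b (c (a (b (l 17301288) (c (l 17418480) (l 16849536))) (b (l 17611632) (c (l 17697784) (l 17261064)))) (a (b (l 16522664) (l 16300160)) (b (l 16860656) (b (l 16665912) (l 16502624))))) (a (b (c (c (b (l 17227584) (l 17054272)) (l 16359280)) (b (l 16285600) (l 16302448))) (c (b (c (l 16600560) (l 16332144)) (c (l 16395296) (a (l 16361544) (l 16341224)))) (b (c (l 16324552) (l 16313760)) (c (a (l 16353968) (l 16331416)) (b (l 16326200) (a (l 16347416) (l 16322176))))))) (b (c (c (l 17532096) (b (l 17079640) (l 16920752))) (b (l 16305496) (l 16266368))) (c (c (b (l 17338216) (a (l 17024000) (l 17286088))) (b (l 16575296) (l 16366800))) (b (c (l 16288040) (l 16272600)) (c (a (l 16311248) (l 16293760)) (a (l 16295784) (l 16275984))))))))), by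 decide +kernel⟩

def k12_pm_012 : ∃ t, chk3 f_pm_012 t 3 1 1 = true :=
  ⟨(b (a (b (l 2) (a (b (l 2) (a (l 17645168) (l 2))) (l 2))) (l 2)) (a (b (a (b (c (l 17878248) (a (l 17419616) (l 17511312))) (c (a (l 17844360) (l 17944792)) (a (b (l 17336312) (l 17244144)) (l 17439008)))) (b (a (l 17768856) (l 2)) (c (l 18044728) (a (l 17557080) (l 17648976))))) (b (a (c (a (b (l 17795240) (l 17721248)) (b (l 17942192) (l 17911304))) (a (b (l 17108336) (b (l 16969488) (l 16853848))) (b (l 17316632) (l 17181152)))) (c (a (l 18059600) (l 18152480)) (a (b (l 17487848) (l 17401960)) (l 17605944)))) (a (c (b (a (c (l 17827336) (l 17357784)) (l 17844712)) (a (c (b (l 17714888) (l 17609408)) (b (l 17174640) (a (l 16892680) (l 17125296)))) (c (l 17971816) (b (l 17520080) (l 17418112))))) (a (b (b (l 16714528) (l 16315632)) (b (c (l 16622952) (l 16238600)) (c (l 16319936) (a (l 16257952) (l 16241464))))) (b (b (l 17041688) (l 16757152)) (b (c (l 17031712) (l 16532536)) (c (a (l 16775472) (l 16985328))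 (l 16253568)))))) (c (a (b (l 18038496) (l 17771400)) (b (l 18185584) (l 18176696))) (a (b (b (l 17306856) (l 17226832)) (b (l 16879056) (c (l 17254152) (a (l 16672328) (l 16864672))))) (b (l 17500704) (b (l 17409288) (c (l 17544352) (l 17115808))))))))) (a (b (a (b (l 2) (l 17911680)) (l 2)) (b (a (c (l 18217840) (l 17725264)) (l 18040976)) (c (a (l 18307904) (l 18392472)) (a (b (l 17678528) (a (l 17553152) (l 17653512))) (b (l 17811896) (l 17780064)))))) (b (l 2) (b (c (l 18295816) (l 17902320)) (c (l 18464752) (b (l 17946616) (l 17960520)))))))), by decide +kernel⟩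

theorem s13_pm_012 : ∃ t, chk3 f_pm_012 t 10 7 1 = true := ex3_a k9_pm_012 k10_pm_012

theorem s14_pm_012 : ∃ t, chk3 f_pm_012 t 10 3 1 = true := ex3_b k8_pm_012 s13_pm_012

theorem s15_pm_012 : ∃ t, chk3 f_pm_012 t 5 3 1 = true := ex3_a s14_pm_012 k11_pm_012

theorem s16_pm_012 : ∃ t, chk3 f_pm_012 t 9 15 1 = true := ex3_a k6_pm_012 k7_pm_012

theorem s17_pm_012 : ∃ t, chk3 f_pm_012 t 9 7 1 = true := ex3_b k5_pm_012 s16_pm_012

theorem s18_pm_012 : ∃ t, chk3 f_pm_012 t 4 7 1 = true := ex3_a k4_pm_012 s17_pm_012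

theorem s19_pm_012 : ∃ t, chk3 f_pm_012 t 4 6 1 = true := ex3_a k2_pm_012 k3_pm_012

theorem s20_pm_012 : ∃ t, chk3 f_pm_012 t 4 3 1 = true := ex3_b s19_pm_012 s18_pm_012

theorem s21_pm_012 : ∃ t, chk3 f_pm_012 t 2 3 1 = true := ex3_a s20_pm_012 s15_pm_012

theorem s22_pm_012 : ∃ t, chk3 f_pm_012 t 2 2 1 = true := ex3_a k0_pm_012 k1_pm_012

theorem s23_pm_012 : ∃ t, chk3 f_pm_012 t 2 1 1 = true := ex3_b s22_pm_012 s21_pm_012

theorem s24_pm_012 : ∃ t, chk3 f_pm_012 t 1 1 1 = true := ex3_a s23_pm_012 k12_pm_012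

theorem c_pm_012 : CertN 0 536870912 536870912 536870912 201326592 134217728 3 true true false .pnp 0 1 2
    ndN0q0 ndN2q1 pcN2 Cut.none Ext.none :=
  certN2 (fam := true) (s1 := true) (s2 := false) (a := 0) (b := 1) (c := 2) (cn := .pnp) (n1 := ndN0q0) (n2 := ndN2q1) (pc := pcN2) (cut := Cut.none) (xt := Ext.none) (P1 := 0) (W1 := 536870912) (P2 := 536870912) (W2 := 536870912) (P3 := 201326592) (W3 := 134217728) (N0 := 3)
    rfl (fun _ => rfl) s24_pm_012

end Pool.Agent.Strip051.G.I3_16_5_16.Tab.C.NA02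

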