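import Pool.Agent.Strip051.G.I3_16_5_16.Tab

/-! # Certificates N8 (generated) -/

set_option linter.all false
set_option maxRecDepth 100000

namespace Pool.Agent.Strip051.G.I3_16_5_16.Tab.C.NA03

open Pool.Agent.Strip051.PB Pool.Agent.Strip051.PB.T
open Pool.Agent.Strip051.G.I3_16_5_16.Tab

noncomputable def f_pm_022 : ℕ → ℕ → ℕ → ℕ → Bool := onCell 1073741824 536870912 1073741824 536870912 201326592 134217728
    (rowN 3 2 true true false .pp 0 2 2 (qsf 0 536870912 1073741824 536870912 2) ndN0q0 ndN3q2 pcN2 Cut.none Ext.none)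

def k0_pm_022 : ∃ t, chk3 f_pm_022 t 4 2 1 = true :=
  ⟨(b (a (l 3) (b (a (l 3) (a (a (b (b (l 3) (c (c (l 16668224) (l 16660704)) (l 16681920))) (c (b (c (l 16651496) (l 16644664)) (l 17347404983)) (b (l 16656256) (l 16640448)))) (b (c (b (l 16682712) (l 16668048)) (b (l 16668728) (l 16654944))) (c (c (l 16668648) (l 16662416)) (b (l 16640408) (l 16625168))))) (b (b (c (a (l 16666528) (l 16650000)) (c (l 16668832) (l 16662720))) (c (b (l 16668896) (l 16661632)) (l 16662856))) (c (b (b (l 16654112) (l 16646368)) (b (l 16638400) (l 16630216))) (b (l 16638216) (l 16623280)))))) (b (b (a (l 3) (a (c (a (l 16634016) (l 16618920)) (a (l 16624088) (l 16609280))) (c (a (l 16604104) (l 16588832)) (l 16607656)))) (a (l 3) (a (c (a (l 16615624) (l 16601080)) (b (l 17884206023) (l 18421057751))) (c (l 16600176) (l 16591424))))) (a (l 3) (b (a (c (c (a (l 16598512) (l 16584456)) (l 16609192)) (a (b (l 16594288) (l 16548880)) (l 16575912))) (c (a (l 16568304) (l 16553504)) (l 16574672))) (a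 (b (c (a (l 1) (l 16537112)) (l 16549088)) (l 1)) (b (c (l 16557688) (l 16545312)) (c (a (l 16566688) (l 16548192)) (l 16560784))))))))) (b (b (a (l 1) (b (a (l 1) (a (l 1) (b (c (l 16555712) (l 16554560)) (l 1)))) (l 1))) (l 1)) (l 1))), by decide +kernel⟩

def k1_pm_022 : ∃ t, chk3 f_pm_022 t 5 4 1 = true :=
  ⟨(a (b (b (a (a (c (a (l 16647672) (l 16630936)) (b (l 16641960) (l 16628360))) (a (c (l 16617272) (l 16631320)) (a (c (l 16596456) (l 16605216)) (c (l 16618704) (l 16611344))))) (c (b (l 16598224) (l 16563088)) (l 16597184))) (a (a (c (a (l 16618320) (l 16601592)) (c (l 16619192) (l 16608520))) (a (c (l 16596072) (l 16582536)) (c (c (l 16606936) (l 16602240)) (l 16624376)))) (c (b (l 16570072) (l 16555696)) (l 16567344)))) (b (a (a (a (c (l 16585736) (l 16562896)) (c (l 16554472) (l 16538640))) (a (c (l 16570688) (l 16555304)) (c (a (l 16538616) (l 16554672)) (l 16576984)))) (c (a (l 16518736) (l 16510904)) (l 16536944))) (a (a (b (c (c (l 16560936) (l 16542104)) (l 16543824))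 (c (b (l 16542200) (a (l 16552992) (l 16548048))) (b (l 16535864) (c (l 16530168) (l 16529848))))) (a (b (c (l 16533048) (l 16515704)) (b (c (l 16504248) (l 16506784)) (c (l 16545488) (l 16542136)))) (b (c (l 16552824) (l 16535112)) (b (c (l 16522232) (l 16525208)) (c (c (l 16536672) (l 16537600)) (l 16539112)))))) (b (c (l 16511864) (l 16472152)) (b (c (l 16480936) (l 16461464)) (c (l 16510440) (l 16474808))))))) (b (b (c (a (l 16588472) (b (l 16716728) (l 16697704))) (b (l 16597064) (l 16579632))) (c (a (b (l 16523392) (l 16508480)) (l 16671480)) (b (l 16562728) (l 16546344)))) (b (c (a (l 16527392) (l 16640064)) (a (l 16505688) (l 16477280))) (b (c (a (l 16462728) (l 16618072)) (l 16497360)) (b (c (l 16478952) (l 16464352)) (c (a (l 16463008) (l 16600272)) (l 16497400))))))), by decide +kernel⟩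

def k2_pm_022 : ∃ t, chk3 f_pm_022 t 5 10 1 = true :=
  ⟨(a (a (a (b (a (b (c (b (l 16538936) (l 16516344)) (b (l 16504904) (l 16496064))) (l 1)) (b (b (c (l 16541680) (l 16500776)) (c (l 16526776) (l 16491816))) (b (c (l 16501272) (l 16482832)) (l 1)))) (l 1)) (b (a (b (b (c (l 16533016) (l 16534744)) (c (l 16527656) (l 16524872))) (b (c (a (l 16516576) (l 16485672)) (l 16514872)) (b (c (l 16481752) (l 16464880)) (l 1)))) (b (c (b (l 16539512) (l 16537176)) (b (l 16531312) (l 16521088))) (b (c (c (l 16526776) (l 16520112)) (l 16532120)) (c (b (l 16522152) (b (l 16521760) (c (l 16536296) (l 16539032)))) (b (l 16508928) (b (l 16507936) (l 16541640))))))) (b (a (l 1) (a (l 1) (c (l 16513744) (l 16486656)))) (l 1)))) (b (b (b (c (l 16496792) (l 16466448)) (c (l 16492368) (l 16455672))) (b (c (l 16496040) (l 16465824)) (c (b (l 16474448) (b (l 16474352) (c (l 16499536) (l 16491920)))) (b (l 16440520) (b (l 16439776) (l 16481528)))))) (b (c (a (l 16497040) (l 16462936)) (l 16487344))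 (c (b (l 16475624) (l 16475912)) (l 16477904))))) (b (b (c (b (a (l 16432224) (l 16593640)) (a (l 16440104) (l 16588104))) (b (l 16487704) (l 16474744))) (b (c (a (l 16426840) (l 16583496)) (a (l 16406304) (l 16394608))) (b (c (l 16432688) (l 16410408)) (c (b (a (l 16410752) (l 16579760)) (a (l 16438136) (l 16579272))) (b (l 16426296) (l 16440936)))))) (c (b (a (l 16444072) (l 16578656)) (a (a (l 16435120) (l 16405952)) (l 16579400))) (b (c (l 16429864) (l 16425480)) (a (l 16401016) (l 16347464)))))), by decide +kernel⟩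

def k3_pm_022 : ∃ t, chk3 f_pm_022 t 5 11 1 = true :=
  ⟨(a (a (l 1) (a (l 1) (b (b (c (l 16443872) (l 16398592)) (l 1)) (l 1)))) (b (a (c (b (a (l 16417352) (l 16389976)) (l 16450656)) (b (l 16421552) (l 16400944))) (c (b (l 16543600) (a (l 16483528) (l 16700240))) (b (l 16344568) (l 16348248)))) (a (b (c (l 16414016) (l 16381064)) (l 1)) (c (b (c (l 16893152) (l 16335248)) (c (l 16916048) (l 16349352))) (b (l 16352656) (l 16337056)))))), by decide +kernel⟩

def k4_pm_022 : ∃ t, chk3 f_pm_022 t 2 3 1 = true :=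
  ⟨(a (l 1) (b (a (l 1) (a (l 1) (b (b (b (c (l 16659088) (l 16322224)) (l 1)) (l 1)) (l 1)))) (l 1))), by decide +kernel⟩

def k5_pm_022 : ∃ t, chk3 f_pm_022 t 6 2 1 = true :=
  ⟨(b (a (b (c (b (a (l 16863192) (l 17156264)) (a (l 16953056) (l 17155056))) (b (a (l 16553552) (l 16669376)) (a (l 16512328) (l 16607848)))) (b (c (a (l 16942304) (l 17157920)) (l 16515384)) (b (c (l 17058560) (l 16444856)) (b (c (l 17058920) (l 16431000)) (c (l 17038112) (l 16421144)))))) (b (c (b (a (l 17292560) (l 17390504)) (l 17357776)) (b (a (l 16871784) (l 17024104)) (a (l 16826968) (l 16992016)))) (b (c (l 17373720) (l 16883056)) (b (c (l 17387720) (l 16862992)) (c (b (l 17395184) (l 17399944)) (b (l 16853928) (l 16847944))))))) (b (b (b (a (c (b (l 16954256) (l 16974936)) (b (l 16409776) (l 16396848))) (c (l 17405104) (b (l 16842048) (l 16835848)))) (a (b (c (l 16807424) (l 16404464)) (b (c (l 17059592) (l 16372960)) (c (b (l 17059976) (a (l 16927208) (l 17172240))) (b (l 16367472) (l 16384408)))))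 (c (b (l 17410504) (b (l 17412992) (l 17414792))) (b (l 16830168) (b (l 16826176) (b (l 16824272) (l 16823000))))))) (a (c (b (a (l 16928616) (l 17174632)) (a (l 16933920) (l 17182000))) (b (l 16405840) (a (l 16315160) (l 16419080)))) (c (b (l 17418272) (l 17427320)) (b (l 16817648) (l 16810864))))) (a (b (c (b (a (l 16943344) (l 17192600)) (a (l 16957120) (l 17206888))) (b (l 16318288) (l 16300712))) (c (a (b (l 16975352) (l 16914352)) (b (l 17224736) (l 17246304))) (b (l 16326776) (a (l 6475023895) (l 16412704))))) (c (b (a (l 17375488) (l 17500792)) (a (l 17408896) (l 17531040))) (b (b (l 16806768) (l 16805744)) (a (l 16696952) (l 16909976))))))), by decide +kernel⟩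

def k6_pm_022 : ∃ t, chk3 f_pm_022 t 7 2 1 = true :=
  ⟨(b (a (b (c (b (l 17485368) (l 17507728)) (b (a (l 17140112) (l 17229832)) (l 17166160))) (b (c (l 17533760) (l 17152512)) (b (l 17204304) (b (l 17355464) (l 17169416))))) (b (c (b (l 17534216) (l 17565584)) (a (l 17286656) (l 17330944))) (b (c (l 17599760) (l 17302040)) (b (l 17465136) (c (l 17642272) (l 17302056)))))) (a (b (b (b (c (l 17580448) (l 17137992)) (b (l 17257848) (c (l 17593264) (b (l 17133248) (l 17132296))))) (c (l 17599288) (b (l 17128968) (l 17127000)))) (b (c (l 17622240) (l 17126272)) (c (l 17648912) (l 17133480)))) (b (b (b (c (l 17657960) (l 17304032)) (b (l 17486240) (c (l 17672592) (l 17304296)))) (c (l 17678072) (l 17299360))) (b (c (l 17700264) (l 17303768)) (l 17519392))))), by decide +kernel⟩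

def k7_pm_022 : ∃ t, chk3 f_pm_022 t 3 3 1 = true :=
  ⟨(b (a (b (a (c (b (a (b (c (l 17265256) (l 16779552)) (l 84859201303)) (c (l 17493712) (l 17076392))) (b (a (l 17079160) (l 17332120)) (l 107945042007))) (b (b (a (l 16278072) (l 16424936)) (l 60699139639)) (a (l 16352488) (l 16358248)))) (c (b (a (l 17454992) (l 17571480)) (a (l 17514176) (l 17623320))) (b (a (l 16719832) (l 16930216)) (a (l 16659608) (l 16968480))))) (b (b (a (c (l 117608790439) (l 16375672)) (c (l 17622744) (a (l 16814256) (l 17010920)))) (a (l 1) (c (l 17655600) (l 140156717447)))) (a (l 1) (c (l 189550622823) (a (l 117071335559) (l 17105704)))))) (a (b (c (b (l 17681776) (l 17722024)) (b (l 17150120) (l 17178720))) (b (c (l 17770616) (l 17222336)) (c (l 17829744) (a (l 17235672) (l 17324800))))) (b (b (l 17538808) (l 17562728)) (b (l 17592688) (l 17630360))))) (a (b (a (l 1) (b (c (l 200825272855) (a (l 1) (l 17098432))) (l 1))) (l 1)) (b (a (b (c (l 17890208) (a (l 17292816) (l 17380568))) (c (l 17938952)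 (l 204582633799))) (b (l 17680512) (l 17736128))) (a (a (l 1) (l 17741512)) (l 17720384))))), by decide +kernel⟩

theorem s8_pm_022 : ∃ t, chk3 f_pm_022 t 3 2 1 = true := ex3_a k5_pm_022 k6_pm_022

theorem s9_pm_022 : ∃ t, chk3 f_pm_022 t 3 1 1 = true := ex3_b s8_pm_022 k7_pm_022

theorem s10_pm_022 : ∃ t, chk3 f_pm_022 t 5 5 1 = true := ex3_b k2_pm_022 k3_pm_022

theorem s11_pm_022 : ∃ t, chk3 f_pm_022 t 5 2 1 = true := ex3_b k1_pm_022 s10_pm_022

theorem s12_pm_022 : ∃ t, chk3 f_pm_022 t 2 2 1 = true := ex3_a k0_pm_022 s11_pm_022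

theorem s13_pm_022 : ∃ t, chk3 f_pm_022 t 2 1 1 = true := ex3_b s12_pm_022 k4_pm_022

theorem s14_pm_022 : ∃ t, chk3 f_pm_022 t 1 1 1 = true := ex3_a s13_pm_022 s9_pm_022

theorem c_pm_022 : CertN 0 536870912 1073741824 536870912 201326592 134217728 3 true true false .pp 0 2 2
    ndN0q0 ndN3q2 pcN2 Cut.none Ext.none :=
  certN2 (fam := true) (s1 := true) (s2 := false) (a := 0) (b := 2) (c := 2) (cn := .pp) (n1 := ndN0q0) (n2 := ndN3q2) (pc := pcN2) (cut := Cut.none) (xt := Ext.none) (P1 := 0) (W1 := 536870912) (P2 := 1073741824) (W2 := 536870912) (P3 := 201326592) (W3 := 134217728) (N0 := 3)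
    rfl (fun _ => rfl) s14_pm_022

noncomputable def f_pm_023 : ℕ → ℕ → ℕ → ℕ → Bool := onCell 0 536870912 1073741824 536870912 201326592 134217728
    (rowN 3 0 true true false .up 0 2 3 (qsf 0 536870912 1073741824 536870912 3) ndN0q0 ndN3q2 pcN3 Cut.none Ext.none)

def k0_pm_023 : ∃ t, chk3 f_pm_023 t 1 1 1 = true :=
  ⟨(a (b (a (l 1) (b (l 1) (b (l 1) (b (l 1) (l 251290092375))))) (b (a (b (l 1) (c (l 322158694887) (a (l 1) (l 314104755911)))) (c (b (l 249681006279) (l 193309650727)) (b (b (l 228204702295) (l 202435354279)) (b (l 17439688) (l 17480600))))) (b (a (b (c (l 17950672) (l 276524001655)) (l 248070010775)) (b (l 17667328) (l 17688504))) (a (a (l 17828224) (l 17789304)) (a (l 17732752) (l 17665992)))))) (b (a (a (b (l 1) (b (b (l 1) (l 244310821351)) (b (l 17497560) (l 17561760)))) (b (b (l 1) (b (l 1) (b (l 1) (l 229278621287)))) (b (b (b (l 217467389143) (b (l 17497320) (l 182034455735))) (l 17529144)) (b (l 17559048) (l 17575344))))) (b (a (b (l 193307717543) (b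 (l 17447712) (b (l 17486384) (l 17506024)))) (b (l 223909649575) (b (l 17482832) (b (l 17498776) (l 17504800))))) (b (b (b (a (l 17524000) (l 17510384)) (a (b (l 17533088) (l 17538344)) (b (l 17510704) (l 17510400)))) (a (l 17539448) (l 17498048))) (a (b (l 17545432) (l 17541408)) (b (l 17485736) (l 17466192)))))) (b (a (b (b (c (l 17738264) (l 17438848)) (l 17593304)) (b (l 17583936) (l 17563416))) (b (a (l 17518480) (l 17427376)) (a (l 17462720) (b (l 17379152) (l 17336624))))) (a (b (b (l 17555536) (l 17597672)) (a (l 17588696) (l 17500984))) (b (a (b (l 17426208) (l 17416368)) (b (l 17297968) (l 17295680))) (a (l 17501152) (b (l 17278000) (a (l 17291048) (a (l 17241336) (b (l 17212984) (l 4))))))))))), by decide +kernel⟩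

theorem c_pm_023 : CertN 0 536870912 1073741824 536870912 201326592 134217728 3 true true false .up 0 2 3
    ndN0q0 ndN3q2 pcN3 Cut.none Ext.none :=
  certN0 (fam := true) (s1 := true) (s2 := false) (a := 0) (b := 2) (c := 3) (cn := .up) (n1 := ndN0q0) (n2 := ndN3q2) (pc := pcN3) (cut := Cut.none) (xt := Ext.none) (P1 := 0) (W1 := 536870912) (P2 := 1073741824) (W2 := 536870912) (P3 := 201326592) (W3 := 134217728) (N0 := 3)
    rfl k0_pm_023

noncomputable def f_pm_033 : ℕ → ℕ → ℕ → ℕ → Bool := onCell 1610612736 536870912 0 1230186008 201326592 134217728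
    (rowN 3 2 true true false .pnn 0 3 3 (qsf 0 536870912 0 1230186008 3) ndN0q0 ndN3q3 pcN3 Cut.none Ext.none)

def k0_pm_033 : ∃ t, chk3 f_pm_033 t 1 1 1 = true :=
  ⟨(a (b (l 1) (b (a (l 1) (a (l 1) (b (l 1) (l 181498546439)))) (a (b (l 1) (a (b (l 1) (l 17863624)) (b (l 17813168) (l 17741944)))) (b (a (l 17812248) (c (l 17764504) (l 17627728))) (a (b (l 17702496) (l 17624872)) (l 17548984)))))) (b (a (l 1) (l 4)) (a (b (a (b (l 1) (l 17897008)) (b (l 17679424) (l 17786232))) (b (a (l 17582336) (l 17455952)) (a (l 17435336) (b (l 17355640) (l 17277000))))) (b (a (b (l 4) (l 17460832)) (l 4)) (a (b (l 17342056) (b (l 17240760) (l 17158600))) (a (b (l 4) (l 17103136)) (l 4))))))), by decide +kernel⟩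

theorem c_pm_033 : CertN 0 536870912 0 1230186008 201326592 134217728 3 true true false .pnn 0 3 3
    ndN0q0 ndN3q3 pcN3 Cut.none Ext.none :=
  certN2 (fam := true) (s1 := true) (s2 := false) (a := 0) (b := 3) (c := 3) (cn := .pnn) (n1 := ndN0q0) (n2 := ndN3q3) (pc := pcN3) (cut := Cut.none) (xt := Ext.none) (P1 := 0) (W1 := 536870912) (P2 := 0) (W2 := 1230186008) (P3 := 201326592) (W3 := 134217728) (N0 := 3)
    rfl (fun _ => rfl) k0_pm_033

noncomputable def f_pm_101 : ℕ → ℕ → ℕ → ℕ → Bool := onCell 536870912 536870912 536870912 536870912 201326592 134217728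
    (rowN 3 1 true true false .npn 1 0 1 (qsf 536870912 536870912 0 536870912 1) ndN0q1 ndN3q0 pcN1 Cut.none Ext.none)

def k0_pm_101 : ∃ t, chk3 f_pm_101 t 1 1 1 = true :=
  ⟨(a (b (a (l 3) (b (a (b (l 1) (l 3)) (l 1)) (l 3))) (b (l 3) (b (l 3) (c (a (a (a (a (l 189147978487) (l 189147910599)) (l 188610937879)) (b (l 192905700311) (l 17404000))) (a (b (l 192905755815) (l 17265808)) (l 17321112))) (a (a (b (a (l 200958761543) (l 202032412887)) (a (l 17406456) (l 17358184))) (a (a (l 197737358919) (l 198274150167)) (l 202569270183))) (a (b (l 202032274391) (l 17190120)) (l 170893937495))))))) (b (a (b (l 1) (a (b (l 1) (l 3)) (l 1))) (l 1)) (a (b (l 3) (b (l 3) (a (c (l 17211904) (l 166062122983)) (b (c (l 17117112) (l 171430428871)) (l 17206432))))) (b (a (b (l 1) (l 3)) (l 1)) (b (a (l 3) (l 3)) (a (b (c (l 152640002103) (a (l 173040911447) (l 175725249319))) (l 17169216)) (a (b (b (c (l 505229756919) (b (l 3) (l 140157422295))) (l 134788784471)) (l 17066432)) (b (l 558916760487)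 (l 463890675671))))))))), by decide +kernel⟩

theorem c_pm_101 : CertN 536870912 536870912 0 536870912 201326592 134217728 3 true true false .npn 1 0 1
    ndN0q1 ndN3q0 pcN1 Cut.none Ext.none :=
  certN1 (fam := true) (s1 := true) (s2 := false) (a := 1) (b := 0) (c := 1) (cn := .npn) (n1 := ndN0q1) (n2 := ndN3q0) (pc := pcN1) (cut := Cut.none) (xt := Ext.none) (P1 := 536870912) (W1 := 536870912) (P2 := 0) (W2 := 536870912) (P3 := 201326592) (W3 := 134217728) (N0 := 3)
    rfl (fun _ => rfl) k0_pm_101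

noncomputable def f_pm_102 : ℕ → ℕ → ℕ → ℕ → Bool := onCell 536870912 536870912 1073741824 536870912 201326592 134217728
    (rowN 3 1 true true false .npp 1 0 2 (qsf 536870912 536870912 0 536870912 2) ndN0q1 ndN3q0 pcN2 Cut.none Ext.none)

def k0_pm_102 : ∃ t, chk3 f_pm_102 t 1 1 1 = true :=
  ⟨(a (b (a (b (a (b (c (l 17521736) (a (l 17404688) (l 17354016))) (b (l 17430976) (l 2))) (b (c (l 17379264) (l 17278928)) (b (l 17304992) (l 115529548983)))) (b (b (b (l 145594351111) (l 2)) (l 2)) (l 2))) (b (b (a (c (l 17236120) (l 17180888)) (l 17314840)) (b (a (l 17181176) (l 17116968)) (b (l 17391320) (a (l 17177648) (l 17108728))))) (b (b (b (a (l 17178648) (l 17105192)) (a (l 17177728) (l 17141864))) (a (l 17164064) (l 17078168))) (c (l 17262952) (l 17277168))))) (b (b (a (l 2) (a (l 2) (l 16993672))) (l 2)) (l 2))) (b (a (b (b (a (l 17299216) (l 17287408)) (b (a (l 17091424) (l 17078376)) (b (l 17121904) (a (l 17078960) (l 17071336))))) (b (b (b (l 17177616) (b (l 17068512) (l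 17191584))) (l 17154584)) (b (l 17037288) (l 17024176)))) (b (a (b (b (l 17093464) (l 17076400)) (b (l 17073400) (b (l 17080808) (l 17087296)))) (b (b (c (l 17122392) (a (l 17053432) (l 17035344))) (a (l 17068912) (l 17058272))) (b (l 17371672) (b (l 17180128) (l 17202704))))) (b (b (b (a (l 17096096) (l 17226680)) (a (b (l 17100976) (l 17104496)) (l 17479224))) (a (l 17108120) (l 17265856))) (b (l 17458608) (l 17304184))))) (b (b (a (l 17256896) (a (l 17171000) (l 17349176))) (a (l 17113448) (l 17498880))) (b (a (l 16988608) (a (l 17177920) (l 17311872))) (a (l 2) (l 17210272)))))), by decide +kernel⟩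

theorem c_pm_102 : CertN 536870912 536870912 0 536870912 201326592 134217728 3 true true false .npp 1 0 2
    ndN0q1 ndN3q0 pcN2 Cut.none Ext.none :=
  certN1 (fam := true) (s1 := true) (s2 := false) (a := 1) (b := 0) (c := 2) (cn := .npp) (n1 := ndN0q1) (n2 := ndN3q0) (pc := pcN2) (cut := Cut.none) (xt := Ext.none) (P1 := 536870912) (W1 := 536870912) (P2 := 0) (W2 := 536870912) (P3 := 201326592) (W3 := 134217728) (N0 := 3)
    rfl (fun _ => rfl) k0_pm_102

noncomputable def f_pm_112 : ℕ → ℕ → ℕ → ℕ → Bool := onCell 1073741824 536870912 536870912 536870912 201326592 134217728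
    (rowN 3 2 true true false .dn 1 1 2 (qsf 536870912 536870912 536870912 536870912 2) ndN0q1 ndN3q1 pcN2 Cut.none Ext.none)

def k0_pm_112 : ∃ t, chk3 f_pm_112 t 2 1 1 = true :=
  ⟨(b (a (b (a (b (c (a (b (l 17538064) (l 17491800)) (l 17613888)) (a (b (a (l 182570333927) (l 17235392)) (l 201897711687)) (b (l 17292160) (l 17245696)))) (b (c (l 223910182503) (a (l 1) (l 17193072))) (l 1))) (a (b (c (l 17709456) (l 17351336)) (c (b (l 17650848) (l 17608640)) (b (l 17281192) (l 17224776)))) (b (a (l 17593288) (c (l 17818336) (l 17453456))) (a (c (l 17708696) (b (l 17349856) (l 17298912))) (c (l 17756544) (b (l 17394448) (l 17347640))))))) (a (l 1) (a (l 1) (b (a (l 1) (c (l 259344538503) (b (l 17292056) (l 1)))) (l 1))))) (a (b (a (b (a (c (l 17858152) (l 17493056)) (c (l 17894720) (a (l 17520704) (l 17538728)))) (a (c (l 17802736) (b (l 17438856) (l 17396232))) (c (b (l 17855520) (l 17828488)) (a (l 17452856) (b (l 17490672) (l 17453400)))))) (b (l 17754000) (c (l 17893464) (b (l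 17534768) (l 17503184))))) (b (a (a (c (l 17790480) (b (l 17346376) (l 1))) (c (a (l 17787424) (l 17812280)) (a (l 124052233607) (b (l 17410896) (l 17357904))))) (c (l 17864840) (b (l 17468264) (l 17425040)))) (a (l 1) (c (l 288872710679) (l 256122582167))))) (b (b (a (l 17810024) (l 17854000)) (a (c (l 17953168) (l 17594032)) (c (l 17998744) (l 17654896)))) (b (a (b (l 17749456) (l 17633160)) (c (l 18003168) (l 17621640))) (a (c (l 17935240) (l 239479734391)) (c (l 18021152) (l 17564936))))))) (a (l 1) (b (a (l 1) (a (l 1) (b (b (l 280281601079) (l 1)) (l 1)))) (l 1)))), by decide +kernel⟩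

def k1_pm_112 : ∃ t, chk3 f_pm_112 t 3 1 1 = true :=
  ⟨(b (a (b (a (b (l 17903880) (a (l 17892752) (l 17904256))) (b (l 17937872) (c (l 18082264) (l 17788808)))) (a (b (c (l 18066032) (a (l 17686696) (l 17740120))) (c (l 18111664) (a (l 17656944) (l 17729880)))) (b (a (l 17943552) (l 17964048)) (a (l 17977192) (l 18007128))))) (b (a (b (l 17970576) (l 17978640)) (b (l 17961264) (l 18003496))) (a (b (a (l 17990488) (l 18018952)) (a (l 18041296) (l 18075384))) (b (l 18046304) (l 18110008))))) (a (b (b (a (c (l 300147607575) (a (l 266860327095) (l 17682200))) (a (c (l 18212208) (l 17766736)) (l 18040248))) (a (c (l 341486696919) (a (l 1) (l 333969351447))) (a (c (l 18249384) (l 296925525191)) (c (l 18300600) (l 17806016))))) (b (a (l 1) (b (c (l 408058987831) (l 379603599463)) (l 1))) (l 1))) (b (a (b (a (l 18082312) (l 18125032)) (a (c (l 18346440) (l 17886120)) (l 18172368))) (b (l 18169224) (l 18230544))) (b (a (b (a (l 18130912) (l 18199824)) (a (l 314105243047) (l 18214288)))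 (b (l 18273584) (l 18302528))) (a (a (l 1) (l 325916578855)) (c (l 18633792) (l 18042656))))))), by decide +kernel⟩

theorem s2_pm_112 : ∃ t, chk3 f_pm_112 t 1 1 1 = true := ex3_a k0_pm_112 k1_pm_112

theorem c_pm_112 : CertN 536870912 536870912 536870912 536870912 201326592 134217728 3 true true false .dn 1 1 2
    ndN0q1 ndN3q1 pcN2 Cut.none Ext.none :=
  certN2 (fam := true) (s1 := true) (s2 := false) (a := 1) (b := 1) (c := 2) (cn := .dn) (n1 := ndN0q1) (n2 := ndN3q1) (pc := pcN2) (cut := Cut.none) (xt := Ext.none) (P1 := 536870912) (W1 := 536870912) (P2 := 536870912) (W2 := 536870912) (P3 := 201326592) (W3 := 134217728) (N0 := 3)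
    rfl (fun _ => rfl) s2_pm_112

noncomputable def f_pm_113 : ℕ → ℕ → ℕ → ℕ → Bool := onCell 1610612736 536870912 536870912 536870912 201326592 134217728
    (rowN 3 2 true true false .nn 1 1 3 (qsf 536870912 536870912 536870912 536870912 3) ndN0q1 ndN3q1 pcN3 Cut.none Ext.none)

def k0_pm_113 : ∃ t, chk3 f_pm_113 t 1 1 1 = true :=
  ⟨(a (b (b (a (a (b (l 17649912) (c (l 17672816) (l 17612728))) (b (a (l 17630536) (l 2)) (c (l 17714888) (l 17785176)))) (b (l 2) (a (c (l 17488760) (l 17408504)) (l 2)))) (a (a (b (l 17928672) (l 17825128)) (b (l 17708672) (l 17786688))) (a (b (c (l 17606544) (l 17749520)) (a (l 17758240) (l 17711424))) (b (l 4) (l 17566624))))) (a (b (a (b (l 17928488) (c (l 18139440) (l 17940872))) (b (l 17910704) (c (l 18079128) (l 17923880)))) (b (b (a (l 18148568) (l 18109952)) (a (l 18222544) (l 18186368))) (a (c (l 18515560) (l 18156080)) (l 18315016)))) (b (b (a (l 17838656) (l 17695112)) (a (c (l 18012616) (l 17858808)) (a (l 17881408) (l 17817144)))) (b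 (a (b (l 18040936) (l 18117512)) (b (l 17948312) (l 18021448))) (a (l 18247784) (l 18147872)))))) (b (a (b (l 2) (l 4)) (l 2)) (a (a (b (b (l 4) (l 4)) (b (b (l 17796352) (l 17871552)) (l 17998648))) (b (l 4) (l 4))) (b (l 4) (l 4))))), by decide +kernel⟩

theorem c_pm_113 : CertN 536870912 536870912 536870912 536870912 201326592 134217728 3 true true false .nn 1 1 3
    ndN0q1 ndN3q1 pcN3 Cut.none Ext.none :=
  certN2 (fam := true) (s1 := true) (s2 := false) (a := 1) (b := 1) (c := 3) (cn := .nn) (n1 := ndN0q1) (n2 := ndN3q1) (pc := pcN3) (cut := Cut.none) (xt := Ext.none) (P1 := 536870912) (W1 := 536870912) (P2 := 536870912) (W2 := 536870912) (P3 := 201326592) (W3 := 134217728) (N0 := 3)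
    rfl (fun _ => rfl) k0_pm_113

noncomputable def f_pm_123 : ℕ → ℕ → ℕ → ℕ → Bool := onCell 1610612736 536870912 1073741824 536870912 201326592 134217728
    (rowN 3 2 true true false .npn 1 2 3 (qsf 536870912 536870912 1073741824 536870912 3) ndN0q1 ndN3q2 pcN3 Cut.none Ext.none)

def k0_pm_123 : ∃ t, chk3 f_pm_123 t 2 1 1 = true :=
  ⟨(b (a (b (a (b (c (l 17570088) (b (l 17338792) (l 17338000))) (b (l 176128736343) (l 1))) (b (b (l 17436576) (l 17453336)) (b (l 17473064) (b (l 17490784) (l 17501760))))) (b (b (b (a (l 1) (l 17515480)) (l 1)) (l 1)) (l 1))) (b (a (b (b (l 17379808) (l 17403736)) (b (l 17425968) (b (l 17443856) (l 17454024)))) (b (b (l 17291048) (l 17320280)) (b (l 17349752) (b (l 17369408) (l 17379648))))) (b (b (b (a (l 17466808) (l 17391528)) (a (b (l 17474024) (l 17479320)) (l 17654272))) (a (l 17483184) (l 17405272))) (a (b (l 17504832) (l 1)) (b (l 17424776) (l 17444584)))))) (a (l 1) (b (b (a (l 1) (b (l 17466624) (l 1))) (l 1)) (l 1)))), by decide +kernel⟩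

def k1_pm_123 : ∃ t, chk3 f_pm_123 t 3 1 1 = true :=
  ⟨(b (a (b (b (a (l 17200968) (l 17092296)) (b (a (l 17249232) (l 17136376)) (b (l 17446264) (a (l 17284016) (l 17172976))))) (c (b (b (b (l 17282592) (l 17375864)) (l 17292904)) (a (l 17386096) (l 17270360))) (b (b (b (l 17192728) (l 17452496)) (l 17202320)) (a (l 17268224) (l 17176736))))) (b (a (b (a (l 17024304) (l 17187544)) (b (l 17028984) (b (l 17048400) (l 17052848)))) (b (a (b (l 16960624) (l 16936016)) (a (l 16921592) (a (l 16837568) (l 673471750551)))) (b (a (l 16958064) (a (l 16916144) (a (l 16881976) (l 17070016)))) (a (b (l 16974488) (l 16980912)) (a (b (l 16937960) (l 16946856)) (a (b (l 16910000) (l 16926904)) (b (l 16983544) (l 17119744)))))))) (b (a (b (b (l 17069200) (l 17074904)) (l 17075656)) (a (b (b (l 16988696) (l 16995712)) (l 16994712)) (b (a (b (l 16955736) (l 16959528)) (a (b (l 16939192) (l 16944688)) (b (l 17072576) (a (l 16938032) (l 17143216))))) (a (l 16962624) (a (l 16952672) (l 16982784))))))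 (a (b (l 17105008) (l 17135208)) (a (l 17036256) (a (l 16994232) (a (l 16977008) (b (l 16958776) (l 16970936))))))))) (a (b (b (a (l 17607832) (b (l 17266616) (l 17286736))) (a (l 127273736871) (l 17514552))) (b (a (l 1) (l 252364616295)) (l 1))) (b (a (b (b (l 17245312) (l 17175640)) (l 17179632)) (a (b (l 17079912) (l 17152200)) (b (a (l 17048392) (a (l 17019904) (l 16988264))) (a (l 17060808) (a (l 17032104) (l 4)))))) (a (b (l 17458016) (l 17336024)) (a (b (l 17154616) (l 17238168)) (a (b (l 17106296) (l 17185160)) (l 4))))))), by decide +kernel⟩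

theorem s2_pm_123 : ∃ t, chk3 f_pm_123 t 1 1 1 = true := ex3_a k0_pm_123 k1_pm_123

theorem c_pm_123 : CertN 536870912 536870912 1073741824 536870912 201326592 134217728 3 true true false .npn 1 2 3
    ndN0q1 ndN3q2 pcN3 Cut.none Ext.none :=
  certN2 (fam := true) (s1 := true) (s2 := false) (a := 1) (b := 2) (c := 3) (cn := .npn) (n1 := ndN0q1) (n2 := ndN3q2) (pc := pcN3) (cut := Cut.none) (xt := Ext.none) (P1 := 536870912) (W1 := 536870912) (P2 := 1073741824) (W2 := 536870912) (P3 := 201326592) (W3 := 134217728) (N0 := 3)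
    rfl (fun _ => rfl) s2_pm_123

noncomputable def f_pm_133 : ℕ → ℕ → ℕ → ℕ → Bool := onCell 536870912 536870912 0 1230186008 201326592 134217728
    (rowN 3 0 true true false .dn 1 3 3 (qsf 536870912 536870912 0 1230186008 3) ndN0q1 ndN3q3 pcN3 Cut.none Ext.none)

def k0_pm_133 : ∃ t, chk3 f_pm_133 t 1 1 1 = true :=
  ⟨(b (l 2) (b (l 2) (a (l 4) (l 2)))), by decide +kernel⟩

theorem c_pm_133 : CertN 536870912 536870912 0 1230186008 201326592 134217728 3 true true false .dn 1 3 3
    ndN0q1 ndN3q3 pcN3 Cut.none Ext.none :=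
  certN0 (fam := true) (s1 := true) (s2 := false) (a := 1) (b := 3) (c := 3) (cn := .dn) (n1 := ndN0q1) (n2 := ndN3q3) (pc := pcN3) (cut := Cut.none) (xt := Ext.none) (P1 := 536870912) (W1 := 536870912) (P2 := 0) (W2 := 1230186008) (P3 := 201326592) (W3 := 134217728) (N0 := 3)
    rfl k0_pm_133

noncomputable def f_pm_202 : ℕ → ℕ → ℕ → ℕ → Bool := onCell 0 536870912 1073741824 536870912 201326592 134217728
    (rowN 3 1 true true false .pp 2 0 2 (qsf 0 536870912 0 536870912 2) ndN0q2 ndN3q0 pcN2 Cut.none Ext.none)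

def k0_pm_202 : ∃ t, chk3 f_pm_202 t 1 1 1 = true :=
  ⟨(a (b (a (b (l 1) (b (b (b (l 1) (a (l 16948368) (l 16976616))) (l 16988088)) (l 17035720))) (b (a (l 1) (b (l 1) (b (l 1) (b (l 1) (l 16997984))))) (b (b (b (a (l 16985624) (l 17021336)) (a (l 17009920) (l 17042472))) (a (l 17042688) (l 17071032))) (b (l 17094744) (l 17125880))))) (b (b (a (l 17072120) (l 17163824)) (a (l 17113128) (l 17223968))) (b (l 17374640) (l 17173600)))) (b (a (b (a (b (l 1) (b (l 1) (b (l 17013440) (l 17034656)))) (b (l 1) (b (b (a (l 1) (l 17017816)) (l 17029752)) (b (l 17051488) (l 17070632))))) (b (b (b (a (l 17055456) (l 17090936)) (a (l 17075120) (l 17110272))) (l 17117520)) (b (l 17159272) (l 17208896)))) (b (a (a (b (b (l 1) (b (l 1) (l 17016696))) (b (l 17048152) (b (l 17079816) (l 17099096)))) (b (b (l 1) (b (b (l 17011960) (l 17022400)) (l 17037696))) (b (l 17068432) (b (l 17100664) (l 17120432))))) (b (b (a (b (l 1) (c (l 286723268199) (l 260416454263))) (c (l 17088416) (l 142841758775)))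 (a (b (l 17039560) (l 17059384)) (l 17075128))) (b (l 17104096) (b (l 17138704) (l 17159920))))) (b (b (b (a (l 17130824) (l 17182936)) (a (l 17150688) (l 17288360))) (l 17449280)) (b (l 17238384) (l 17282568))))) (b (b (a (l 17263360) (l 17363032)) (a (l 17347880) (l 17418888))) (b (a (l 17347544) (l 17391576)) (l 17387344))))), by decide +kernel⟩

theorem c_pm_202 : CertN 0 536870912 0 536870912 201326592 134217728 3 true true false .pp 2 0 2
    ndN0q2 ndN3q0 pcN2 Cut.none Ext.none :=
  certN1 (fam := true) (s1 := true) (s2 := false) (a := 2) (b := 0) (c := 2) (cn := .pp) (n1 := ndN0q2) (n2 := ndN3q0) (pc := pcN2) (cut := Cut.none) (xt := Ext.none) (P1 := 0) (W1 := 536870912) (P2 := 0) (W2 := 536870912) (P3 := 201326592) (W3 := 134217728) (N0 := 3)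
    rfl (fun _ => rfl) k0_pm_202

noncomputable def f_pm_203 : ℕ → ℕ → ℕ → ℕ → Bool := onCell 0 536870912 1610612736 536870912 201326592 134217728
    (rowN 3 1 true true false .up 2 0 3 (qsf 0 536870912 0 536870912 3) ndN0q2 ndN3q0 pcN3 Cut.none Ext.none)

def k0_pm_203 : ∃ t, chk3 f_pm_203 t 1 1 1 = true :=
  ⟨(b (b (a (l 4) (b (a (l 17269424) (l 17314816)) (a (l 17273920) (l 17331200)))) (a (l 4) (a (l 2) (l 2)))) (l 2)), by decide +kernel⟩

theorem c_pm_203 : CertN 0 536870912 0 536870912 201326592 134217728 3 true true false .up 2 0 3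
    ndN0q2 ndN3q0 pcN3 Cut.none Ext.none :=
  certN1 (fam := true) (s1 := true) (s2 := false) (a := 2) (b := 0) (c := 3) (cn := .up) (n1 := ndN0q2) (n2 := ndN3q0) (pc := pcN3) (cut := Cut.none) (xt := Ext.none) (P1 := 0) (W1 := 536870912) (P2 := 0) (W2 := 536870912) (P3 := 201326592) (W3 := 134217728) (N0 := 3)
    rfl (fun _ => rfl) k0_pm_203

noncomputable def f_pm_213 : ℕ → ℕ → ℕ → ℕ → Bool := onCell 0 536870912 536870912 536870912 201326592 134217728
    (rowN 3 0 true true false .pnn 2 1 3 (qsf 0 536870912 536870912 536870912 3) ndN0q2 ndN3q1 pcN3 Cut.none Ext.none)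

def k0_pm_213 : ∃ t, chk3 f_pm_213 t 1 1 1 = true :=
  ⟨(a (l 4) (b (a (b (l 4) (l 4)) (b (b (a (b (l 17622264) (l 17592488)) (l 17849144)) (c (a (l 17622712) (l 17695968)) (a (l 17456128) (l 17538392)))) (b (c (l 17529408) (l 17440656)) (l 4)))) (l 4))), by decide +kernel⟩

theorem c_pm_213 : CertN 0 536870912 536870912 536870912 201326592 134217728 3 true true false .pnn 2 1 3
    ndN0q2 ndN3q1 pcN3 Cut.none Ext.none :=
  certN0 (fam := true) (s1 := true) (s2 := false) (a := 2) (b := 1) (c := 3) (cn := .pnn) (n1 := ndN0q2) (n2 := ndN3q1) (pc := pcN3) (cut := Cut.none) (xt := Ext.none) (P1 := 0) (W1 := 536870912) (P2 := 536870912) (W2 := 536870912) (P3 := 201326592) (W3 := 134217728) (N0 := 3)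
    rfl k0_pm_213

noncomputable def f_mm_001 : ℕ → ℕ → ℕ → ℕ → Bool := onCell 0 536870912 0 536870912 201326592 134217728
    (rowN 3 0 true false false .up 0 0 1 (qsf 0 536870912 0 536870912 1) ndN0q0 ndN3q0 pcN1 Cut.none Ext.none)

def k0_mm_001 : ∃ t, chk3 f_mm_001 t 1 1 1 = true :=
  ⟨(l 4), by decide +kernel⟩

theorem c_mm_001 : CertN 0 536870912 0 536870912 201326592 134217728 3 true false false .up 0 0 1
    ndN0q0 ndN3q0 pcN1 Cut.none Ext.none :=
  certN0 (fam := true) (s1 := false) (s2 := false) (a := 0) (b := 0) (c := 1) (cn := .up) (n1 := ndN0q0) (n2 := ndN3q0) (pc := pcN1) (cut := Cut.none) (xt := Ext.none) (P1 := 0) (W1 := 536870912) (P2 := 0) (W2 := 536870912) (P3 := 201326592) (W3 := 134217728) (N0 := 3)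
    rfl k0_mm_001

noncomputable def f_mm_011 : ℕ → ℕ → ℕ → ℕ → Bool := onCell 0 536870912 536870912 536870912 201326592 134217728
    (rowN 3 0 true false false .pnn 0 1 1 (qsf 0 536870912 536870912 536870912 1) ndN0q0 ndN3q1 pcN1 Cut.none Ext.none)

def k0_mm_011 : ∃ t, chk3 f_mm_011 t 1 1 1 = true :=
  ⟨(l 4), by decide +kernel⟩

theorem c_mm_011 : CertN 0 536870912 536870912 536870912 201326592 134217728 3 true false false .pnn 0 1 1
    ndN0q0 ndN3q1 pcN1 Cut.none Ext.none :=
  certN0 (fam := true) (s1 := false) (s2 := false) (a := 0) (b := 1) (c := 1) (cn := .pnn) (n1 := ndN0q0) (n2 := ndN3q1) (pc := pcN1) (cut := Cut.none) (xt := Ext.none) (P1 := 0) (W1 := 536870912) (P2 := 536870912) (W2 := 536870912) (P3 := 201326592) (W3 := 134217728) (N0 := 3)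
    rfl k0_mm_011

noncomputable def f_mm_012 : ℕ → ℕ → ℕ → ℕ → Bool := onCell 0 536870912 536870912 536870912 201326592 134217728
    (rowN 3 0 true false false .pnp 0 1 2 (qsf 0 536870912 536870912 536870912 2) ndN0q0 ndN3q1 pcN2 Cut.none Ext.none)

def k0_mm_012 : ∃ t, chk3 f_mm_012 t 1 1 1 = true :=
  ⟨(l 4), by decide +kernel⟩

theorem c_mm_012 : CertN 0 536870912 536870912 536870912 201326592 134217728 3 true false false .pnp 0 1 2
    ndN0q0 ndN3q1 pcN2 Cut.none Ext.none :=
  certN0 (fam := true) (s1 := false) (s2 := false) (a := 0) (b := 1) (c := 2) (cn := .pnp) (n1 := ndN0q0) (n2 := ndN3q1) (pc := pcN2) (cut := Cut.none) (xt := Ext.none) (P1 := 0) (W1 := 536870912) (P2 := 536870912) (W2 := 536870912) (P3 := 201326592) (W3 := 134217728) (N0 := 3)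
    rfl k0_mm_012

noncomputable def f_mm_022 : ℕ → ℕ → ℕ → ℕ → Bool := onCell 0 536870912 1073741824 536870912 201326592 134217728
    (rowN 3 0 true false false .pp 0 2 2 (qsf 0 536870912 1073741824 536870912 2) ndN0q0 ndN3q2 pcN2 Cut.none Ext.none)

def k0_mm_022 : ∃ t, chk3 f_mm_022 t 1 1 1 = true :=
  ⟨(l 4), by decide +kernel⟩

theorem c_mm_022 : CertN 0 536870912 1073741824 536870912 201326592 134217728 3 true false false .pp 0 2 2
    ndN0q0 ndN3q2 pcN2 Cut.none Ext.none :=
  certN0 (fam := true) (s1 := false) (s2 := false) (a := 0) (b := 2) (c := 2) (cn := .pp) (n1 := ndN0q0) (n2 := ndN3q2) (pc := pcN2) (cut := Cut.none) (xt := Ext.none) (P1 := 0) (W1 := 536870912) (P2 := 1073741824) (W2 := 536870912) (P3 := 201326592) (W3 := 134217728) (N0 := 3)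
    rfl k0_mm_022

noncomputable def f_mm_023 : ℕ → ℕ → ℕ → ℕ → Bool := onCell 0 536870912 1073741824 536870912 201326592 134217728
    (rowN 3 0 true false false .up 0 2 3 (qsf 0 536870912 1073741824 536870912 3) ndN0q0 ndN3q2 pcN3 Cut.none Ext.none)

def k0_mm_023 : ∃ t, chk3 f_mm_023 t 1 1 1 = true :=
  ⟨(l 4), by decide +kernel⟩

theorem c_mm_023 : CertN 0 536870912 1073741824 536870912 201326592 134217728 3 true false false .up 0 2 3
    ndN0q0 ndN3q2 pcN3 Cut.none Ext.none :=
  certN0 (fam := true) (s1 := false) (s2 := false) (a := 0) (b := 2) (c := 3) (cn := .up) (n1 := ndN0q0) (n2 := ndN3q2) (pc := pcN3) (cut := Cut.none) (xt := Ext.none) (P1 := 0) (W1 := 536870912) (P2 := 1073741824) (W2 := 536870912) (P3 := 201326592) (W3 := 134217728) (N0 := 3)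
    rfl k0_mm_023

noncomputable def f_mm_033 : ℕ → ℕ → ℕ → ℕ → Bool := onCell 0 536870912 0 1230186008 201326592 134217728
    (rowN 3 0 true false false .pnn 0 3 3 (qsf 0 536870912 0 1230186008 3) ndN0q0 ndN3q3 pcN3 Cut.none Ext.none)

def k0_mm_033 : ∃ t, chk3 f_mm_033 t 1 1 1 = true :=
  ⟨(l 5), by decide +kernel⟩

theorem c_mm_033 : CertN 0 536870912 0 1230186008 201326592 134217728 3 true false false .pnn 0 3 3
    ndN0q0 ndN3q3 pcN3 Cut.none Ext.none :=
  certN0 (fam := true) (s1 := false) (s2 := false) (a := 0) (b := 3) (c := 3) (cn := .pnn) (n1 := ndN0q0) (n2 := ndN3q3) (pc := pcN3) (cut := Cut.none) (xt := Ext.none) (P1 := 0) (W1 := 536870912) (P2 := 0) (W2 := 1230186008) (P3 := 201326592) (W3 := 134217728) (N0 := 3)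
    rfl k0_mm_033

noncomputable def f_mm_101 : ℕ → ℕ → ℕ → ℕ → Bool := onCell 536870912 536870912 0 536870912 201326592 134217728
    (rowN 3 0 true false false .npn 1 0 1 (qsf 536870912 536870912 0 536870912 1) ndN0q1 ndN3q0 pcN1 Cut.none Ext.none)

def k0_mm_101 : ∃ t, chk3 f_mm_101 t 1 1 1 = true :=
  ⟨(l 4), by decide +kernel⟩

theorem c_mm_101 : CertN 536870912 536870912 0 536870912 201326592 134217728 3 true false false .npn 1 0 1
    ndN0q1 ndN3q0 pcN1 Cut.none Ext.none :=
  certN0 (fam := true) (s1 := false) (s2 := false) (a := 1) (b := 0) (c := 1) (cn := .npn) (n1 := ndN0q1) (n2 := ndN3q0) (pc := pcN1) (cut := Cut.none) (xt := Ext.none) (P1 := 536870912) (W1 := 536870912) (P2 := 0) (W2 := 536870912) (P3 := 201326592) (W3 := 134217728) (N0 := 3)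
    rfl k0_mm_101

noncomputable def f_mm_102 : ℕ → ℕ → ℕ → ℕ → Bool := onCell 536870912 536870912 0 536870912 201326592 134217728
    (rowN 3 0 true false false .npp 1 0 2 (qsf 536870912 536870912 0 536870912 2) ndN0q1 ndN3q0 pcN2 Cut.none Ext.none)

def k0_mm_102 : ∃ t, chk3 f_mm_102 t 1 1 1 = true :=
  ⟨(l 4), by decide +kernel⟩

theorem c_mm_102 : CertN 536870912 536870912 0 536870912 201326592 134217728 3 true false false .npp 1 0 2
    ndN0q1 ndN3q0 pcN2 Cut.none Ext.none :=
  certN0 (fam := true) (s1 := false) (s2 := false) (a := 1) (b := 0) (c := 2) (cn := .npp) (n1 := ndN0q1) (n2 := ndN3q0) (pc := pcN2) (cut := Cut.none) (xt := Ext.none) (P1 := 536870912) (W1 := 536870912) (P2 := 0) (W2 := 536870912) (P3 := 201326592) (W3 := 134217728) (N0 := 3)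
    rfl k0_mm_102

noncomputable def f_mm_112 : ℕ → ℕ → ℕ → ℕ → Bool := onCell 536870912 536870912 536870912 536870912 201326592 134217728
    (rowN 3 0 true false false .dn 1 1 2 (qsf 536870912 536870912 536870912 536870912 2) ndN0q1 ndN3q1 pcN2 Cut.none Ext.none)

def k0_mm_112 : ∃ t, chk3 f_mm_112 t 1 1 1 = true :=
  ⟨(l 4), by decide +kernel⟩

theorem c_mm_112 : CertN 536870912 536870912 536870912 536870912 201326592 134217728 3 true false false .dn 1 1 2
    ndN0q1 ndN3q1 pcN2 Cut.none Ext.none :=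
  certN0 (fam := true) (s1 := false) (s2 := false) (a := 1) (b := 1) (c := 2) (cn := .dn) (n1 := ndN0q1) (n2 := ndN3q1) (pc := pcN2) (cut := Cut.none) (xt := Ext.none) (P1 := 536870912) (W1 := 536870912) (P2 := 536870912) (W2 := 536870912) (P3 := 201326592) (W3 := 134217728) (N0 := 3)
    rfl k0_mm_112

noncomputable def f_mm_113 : ℕ → ℕ → ℕ → ℕ → Bool := onCell 536870912 536870912 536870912 536870912 201326592 134217728
    (rowN 3 0 true false false .nn 1 1 3 (qsf 536870912 536870912 536870912 536870912 3) ndN0q1 ndN3q1 pcN3 Cut.none Ext.none)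

def k0_mm_113 : ∃ t, chk3 f_mm_113 t 1 1 1 = true :=
  ⟨(l 4), by decide +kernel⟩

theorem c_mm_113 : CertN 536870912 536870912 536870912 536870912 201326592 134217728 3 true false false .nn 1 1 3
    ndN0q1 ndN3q1 pcN3 Cut.none Ext.none :=
  certN0 (fam := true) (s1 := false) (s2 := false) (a := 1) (b := 1) (c := 3) (cn := .nn) (n1 := ndN0q1) (n2 := ndN3q1) (pc := pcN3) (cut := Cut.none) (xt := Ext.none) (P1 := 536870912) (W1 := 536870912) (P2 := 536870912) (W2 := 536870912) (P3 := 201326592) (W3 := 134217728) (N0 := 3)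
    rfl k0_mm_113

noncomputable def f_mm_123 : ℕ → ℕ → ℕ → ℕ → Bool := onCell 536870912 536870912 1073741824 536870912 201326592 134217728
    (rowN 3 0 true false false .npn 1 2 3 (qsf 536870912 536870912 1073741824 536870912 3) ndN0q1 ndN3q2 pcN3 Cut.none Ext.none)

def k0_mm_123 : ∃ t, chk3 f_mm_123 t 1 1 1 = true :=
  ⟨(l 4), by decide +kernel⟩

theorem c_mm_123 : CertN 536870912 536870912 1073741824 536870912 201326592 134217728 3 true false false .npn 1 2 3
    ndN0q1 ndN3q2 pcN3 Cut.none Ext.none :=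
  certN0 (fam := true) (s1 := false) (s2 := false) (a := 1) (b := 2) (c := 3) (cn := .npn) (n1 := ndN0q1) (n2 := ndN3q2) (pc := pcN3) (cut := Cut.none) (xt := Ext.none) (P1 := 536870912) (W1 := 536870912) (P2 := 1073741824) (W2 := 536870912) (P3 := 201326592) (W3 := 134217728) (N0 := 3)
    rfl k0_mm_123

noncomputable def f_mm_133 : ℕ → ℕ → ℕ → ℕ → Bool := onCell 536870912 536870912 0 1230186008 201326592 134217728
    (rowN 3 0 true false false .dn 1 3 3 (qsf 536870912 536870912 0 1230186008 3) ndN0q1 ndN3q3 pcN3 Cut.none Ext.none)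

def k0_mm_133 : ∃ t, chk3 f_mm_133 t 1 1 1 = true :=
  ⟨(l 4), by decide +kernel⟩

theorem c_mm_133 : CertN 536870912 536870912 0 1230186008 201326592 134217728 3 true false false .dn 1 3 3
    ndN0q1 ndN3q3 pcN3 Cut.none Ext.none :=
  certN0 (fam := true) (s1 := false) (s2 := false) (a := 1) (b := 3) (c := 3) (cn := .dn) (n1 := ndN0q1) (n2 := ndN3q3) (pc := pcN3) (cut := Cut.none) (xt := Ext.none) (P1 := 536870912) (W1 := 536870912) (P2 := 0) (W2 := 1230186008) (P3 := 201326592) (W3 := 134217728) (N0 := 3)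
    rfl k0_mm_133

noncomputable def f_mm_202 : ℕ → ℕ → ℕ → ℕ → Bool := onCell 0 536870912 0 536870912 201326592 134217728
    (rowN 3 0 true false false .pp 2 0 2 (qsf 0 536870912 0 536870912 2) ndN0q2 ndN3q0 pcN2 Cut.none Ext.none)

def k0_mm_202 : ∃ t, chk3 f_mm_202 t 1 1 1 = true :=
  ⟨(b (a (b (b (a (b (l 16949144) (l 16980232)) (b (a (l 16933888) (l 16939232)) (l 16999768))) (a (l 17006592) (b (l 16958568) (l 4)))) (a (b (l 16984744) (l 4)) (l 4))) (b (a (b (a (b (l 16985952) (l 4)) (l 4)) (l 4)) (l 4)) (l 4))) (l 4)), by decide +kernel⟩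

theorem c_mm_202 : CertN 0 536870912 0 536870912 201326592 134217728 3 true false false .pp 2 0 2
    ndN0q2 ndN3q0 pcN2 Cut.none Ext.none :=
  certN0 (fam := true) (s1 := false) (s2 := false) (a := 2) (b := 0) (c := 2) (cn := .pp) (n1 := ndN0q2) (n2 := ndN3q0) (pc := pcN2) (cut := Cut.none) (xt := Ext.none) (P1 := 0) (W1 := 536870912) (P2 := 0) (W2 := 536870912) (P3 := 201326592) (W3 := 134217728) (N0 := 3)
    rfl k0_mm_202

noncomputable def f_mm_203 : ℕ → ℕ → ℕ → ℕ → Bool := onCell 0 536870912 1610612736 536870912 201326592 134217728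
    (rowN 3 1 true false false .up 2 0 3 (qsf 0 536870912 0 536870912 3) ndN0q2 ndN3q0 pcN3 Cut.none Ext.none)

def k0_mm_203 : ∃ t, chk3 f_mm_203 t 1 1 1 = true :=
  ⟨(l 4), by decide +kernel⟩

theorem c_mm_203 : CertN 0 536870912 0 536870912 201326592 134217728 3 true false false .up 2 0 3
    ndN0q2 ndN3q0 pcN3 Cut.none Ext.none :=
  certN1 (fam := true) (s1 := false) (s2 := false) (a := 2) (b := 0) (c := 3) (cn := .up) (n1 := ndN0q2) (n2 := ndN3q0) (pc := pcN3) (cut := Cut.none) (xt := Ext.none) (P1 := 0) (W1 := 536870912) (P2 := 0) (W2 := 536870912) (P3 := 201326592) (W3 := 134217728) (N0 := 3)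
    rfl (fun _ => rfl) k0_mm_203

noncomputable def f_mm_213 : ℕ → ℕ → ℕ → ℕ → Bool := onCell 0 536870912 536870912 536870912 201326592 134217728
    (rowN 3 0 true false false .pnn 2 1 3 (qsf 0 536870912 536870912 536870912 3) ndN0q2 ndN3q1 pcN3 Cut.none Ext.none)

def k0_mm_213 : ∃ t, chk3 f_mm_213 t 1 1 1 = true :=
  ⟨(l 4), by decide +kernel⟩

theorem c_mm_213 : CertN 0 536870912 536870912 536870912 201326592 134217728 3 true false false .pnn 2 1 3
    ndN0q2 ndN3q1 pcN3 Cut.none Ext.none :=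
  certN0 (fam := true) (s1 := false) (s2 := false) (a := 2) (b := 1) (c := 3) (cn := .pnn) (n1 := ndN0q2) (n2 := ndN3q1) (pc := pcN3) (cut := Cut.none) (xt := Ext.none) (P1 := 0) (W1 := 536870912) (P2 := 536870912) (W2 := 536870912) (P3 := 201326592) (W3 := 134217728) (N0 := 3)
    rfl k0_mm_213

end Pool.Agent.Strip051.G.I3_16_5_16.Tab.C.NA03

namespace Pool.Agent.Strip051.G.I3_16_5_16.Tab.C.NA04

open Pool.Agent.Strip051.PB Pool.Agent.Strip051.PB.T
open Pool.Agent.Strip051.G.I3_16_5_16.Tab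

noncomputable def f_pp_001 : ℕ → ℕ → ℕ → ℕ → Bool := onCell 0 536870912 0 536870912 201326592 134217728
    (rowN 3 0 true true true .up 0 0 1 (qsf 0 536870912 0 536870912 1) ndN0q0 ndN4q0 pcN1 Cut.none Ext.none)

def k0_pp_001 : ∃ t, chk3 f_pp_001 t 1 1 1 = true :=
  ⟨(l 4), by decide +kernel⟩

theorem c_pp_001 : CertN 0 536870912 0 536870912 201326592 134217728 3 true true true .up 0 0 1
    ndN0q0 ndN4q0 pcN1 Cut.none Ext.none :=
  certN0 (fam := true) (s1 := true) (s2 := true) (a := 0) (b := 0) (c := 1) (cn := .up) (n1 := ndN0q0) (n2 := ndN4q0) (pc := pcN1) (cut := Cut.none) (xt := Ext.none) (P1 := 0) (W1 := 536870912) (P2 := 0) (W2 := 536870912) (P3 := 201326592) (W3 := 134217728) (N0 := 3)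
    rfl k0_pp_001

noncomputable def f_pp_011 : ℕ → ℕ → ℕ → ℕ → Bool := onCell 0 536870912 536870912 536870912 201326592 134217728
    (rowN 3 0 true true true .pnn 0 1 1 (qsf 0 536870912 536870912 536870912 1) ndN0q0 ndN4q1 pcN1 Cut.none Ext.none)

def k0_pp_011 : ∃ t, chk3 f_pp_011 t 1 1 1 = true :=
  ⟨(l 4), by decide +kernel⟩

theorem c_pp_011 : CertN 0 536870912 536870912 536870912 201326592 134217728 3 true true true .pnn 0 1 1
    ndN0q0 ndN4q1 pcN1 Cut.none Ext.none :=
  certN0 (fam := true) (s1 := true) (s2 := true) (a := 0) (b := 1) (c := 1) (cn := .pnn) (n1 := ndN0q0) (n2 := ndN4q1) (pc := pcN1) (cut := Cut.none) (xt := Ext.none) (P1 := 0) (W1 := 536870912) (P2 := 536870912) (W2 := 536870912) (P3 := 201326592) (W3 := 134217728) (N0 := 3)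
    rfl k0_pp_011

noncomputable def f_pp_012 : ℕ → ℕ → ℕ → ℕ → Bool := onCell 0 536870912 536870912 536870912 201326592 134217728
    (rowN 3 0 true true true .pnp 0 1 2 (qsf 0 536870912 536870912 536870912 2) ndN0q0 ndN4q1 pcN2 Cut.none Ext.none)

def k0_pp_012 : ∃ t, chk3 f_pp_012 t 1 1 1 = true :=
  ⟨(l 4), by decide +kernel⟩

theorem c_pp_012 : CertN 0 536870912 536870912 536870912 201326592 134217728 3 true true true .pnp 0 1 2
    ndN0q0 ndN4q1 pcN2 Cut.none Ext.none :=
  certN0 (fam := true) (s1 := true) (s2 := true) (a := 0) (b := 1) (c := 2) (cn := .pnp) (n1 := ndN0q0) (n2 := ndN4q1) (pc := pcN2) (cut := Cut.none) (xt := Ext.none) (P1 := 0) (W1 := 536870912) (P2 := 536870912) (W2 := 536870912) (P3 := 201326592) (W3 := 134217728) (N0 := 3)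
    rfl k0_pp_012

noncomputable def f_pp_022 : ℕ → ℕ → ℕ → ℕ → Bool := onCell 0 536870912 1073741824 536870912 201326592 134217728
    (rowN 3 0 true true true .pp 0 2 2 (qsf 0 536870912 1073741824 536870912 2) ndN0q0 ndN4q2 pcN2 Cut.none Ext.none)

def k0_pp_022 : ∃ t, chk3 f_pp_022 t 1 1 1 = true :=
  ⟨(l 4), by decide +kernel⟩

theorem c_pp_022 : CertN 0 536870912 1073741824 536870912 201326592 134217728 3 true true true .pp 0 2 2
    ndN0q0 ndN4q2 pcN2 Cut.none Ext.none :=
  certN0 (fam := true) (s1 := true) (s2 := true) (a := 0) (b := 2) (c := 2) (cn := .pp) (n1 := ndN0q0) (n2 := ndN4q2) (pc := pcN2) (cut := Cut.none) (xt := Ext.none) (P1 := 0) (W1 := 536870912) (P2 := 1073741824) (W2 := 536870912) (P3 := 201326592) (W3 := 134217728) (N0 := 3)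
    rfl k0_pp_022

noncomputable def f_pp_023 : ℕ → ℕ → ℕ → ℕ → Bool := onCell 0 536870912 1073741824 536870912 201326592 134217728
    (rowN 3 0 true true true .up 0 2 3 (qsf 0 536870912 1073741824 536870912 3) ndN0q0 ndN4q2 pcN3 Cut.none Ext.none)

def k0_pp_023 : ∃ t, chk3 f_pp_023 t 1 1 1 = true :=
  ⟨(l 4), by decide +kernel⟩

theorem c_pp_023 : CertN 0 536870912 1073741824 536870912 201326592 134217728 3 true true true .up 0 2 3
    ndN0q0 ndN4q2 pcN3 Cut.none Ext.none :=
  certN0 (fam := true) (s1 := true) (s2 := true) (a := 0) (b := 2) (c := 3) (cn := .up) (n1 := ndN0q0) (n2 := ndN4q2) (pc := pcN3) (cut := Cut.none) (xt := Ext.none) (P1 := 0) (W1 := 536870912) (P2 := 1073741824) (W2 := 536870912) (P3 := 201326592) (W3 := 134217728) (N0 := 3)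
    rfl k0_pp_023

noncomputable def f_pp_033 : ℕ → ℕ → ℕ → ℕ → Bool := onCell 0 536870912 0 1230186008 201326592 134217728
    (rowN 3 0 true true true .pnn 0 3 3 (qsf 0 536870912 0 1230186008 3) ndN0q0 ndN4q3 pcN3 Cut.none Ext.none)

def k0_pp_033 : ∃ t, chk3 f_pp_033 t 1 1 1 = true :=
  ⟨(b (l 4) (l 4)), by decide +kernel⟩

theorem c_pp_033 : CertN 0 536870912 0 1230186008 201326592 134217728 3 true true true .pnn 0 3 3
    ndN0q0 ndN4q3 pcN3 Cut.none Ext.none :=
  certN0 (fam := true) (s1 := true) (s2 := true) (a := 0) (b := 3) (c := 3) (cn := .pnn) (n1 := ndN0q0) (n2 := ndN4q3) (pc := pcN3) (cut := Cut.none) (xt := Ext.none) (P1 := 0) (W1 := 536870912) (P2 := 0) (W2 := 1230186008) (P3 := 201326592) (W3 := 134217728) (N0 := 3)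
    rfl k0_pp_033

noncomputable def f_pp_101 : ℕ → ℕ → ℕ → ℕ → Bool := onCell 536870912 536870912 0 536870912 201326592 134217728
    (rowN 3 0 true true true .npn 1 0 1 (qsf 536870912 536870912 0 536870912 1) ndN0q1 ndN4q0 pcN1 Cut.none Ext.none)

def k0_pp_101 : ∃ t, chk3 f_pp_101 t 1 1 1 = true :=
  ⟨(l 4), by decide +kernel⟩

theorem c_pp_101 : CertN 536870912 536870912 0 536870912 201326592 134217728 3 true true true .npn 1 0 1
    ndN0q1 ndN4q0 pcN1 Cut.none Ext.none :=
  certN0 (fam := true) (s1 := true) (s2 := true) (a := 1) (b := 0) (c := 1) (cn := .npn) (n1 := ndN0q1) (n2 := ndN4q0) (pc := pcN1) (cut := Cut.none) (xt := Ext.none) (P1 := 536870912) (W1 := 536870912) (P2 := 0) (W2 := 536870912) (P3 := 201326592) (W3 := 134217728) (N0 := 3)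
    rfl k0_pp_101

noncomputable def f_pp_102 : ℕ → ℕ → ℕ → ℕ → Bool := onCell 536870912 536870912 0 536870912 201326592 134217728
    (rowN 3 0 true true true .npp 1 0 2 (qsf 536870912 536870912 0 536870912 2) ndN0q1 ndN4q0 pcN2 Cut.none Ext.none)

def k0_pp_102 : ∃ t, chk3 f_pp_102 t 1 1 1 = true :=
  ⟨(l 4), by decide +kernel⟩

theorem c_pp_102 : CertN 536870912 536870912 0 536870912 201326592 134217728 3 true true true .npp 1 0 2
    ndN0q1 ndN4q0 pcN2 Cut.none Ext.none :=
  certN0 (fam := true) (s1 := true) (s2 := true) (a := 1) (b := 0) (c := 2) (cn := .npp) (n1 := ndN0q1) (n2 := ndN4q0) (pc := pcN2) (cut := Cut.none) (xt := Ext.none) (P1 := 536870912) (W1 := 536870912) (P2 := 0) (W2 := 536870912) (P3 := 201326592) (W3 := 134217728) (N0 := 3)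
    rfl k0_pp_102

noncomputable def f_pp_112 : ℕ → ℕ → ℕ → ℕ → Bool := onCell 536870912 536870912 536870912 536870912 201326592 134217728
    (rowN 3 0 true true true .dn 1 1 2 (qsf 536870912 536870912 536870912 536870912 2) ndN0q1 ndN4q1 pcN2 Cut.none Ext.none)

def k0_pp_112 : ∃ t, chk3 f_pp_112 t 1 1 1 = true :=
  ⟨(l 4), by decide +kernel⟩

theorem c_pp_112 : CertN 536870912 536870912 536870912 536870912 201326592 134217728 3 true true true .dn 1 1 2
    ndN0q1 ndN4q1 pcN2 Cut.none Ext.none :=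
  certN0 (fam := true) (s1 := true) (s2 := true) (a := 1) (b := 1) (c := 2) (cn := .dn) (n1 := ndN0q1) (n2 := ndN4q1) (pc := pcN2) (cut := Cut.none) (xt := Ext.none) (P1 := 536870912) (W1 := 536870912) (P2 := 536870912) (W2 := 536870912) (P3 := 201326592) (W3 := 134217728) (N0 := 3)
    rfl k0_pp_112

noncomputable def f_pp_113 : ℕ → ℕ → ℕ → ℕ → Bool := onCell 536870912 536870912 536870912 536870912 201326592 134217728
    (rowN 3 0 true true true .nn 1 1 3 (qsf 536870912 536870912 536870912 536870912 3) ndN0q1 ndN4q1 pcN3 Cut.none Ext.none)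

def k0_pp_113 : ∃ t, chk3 f_pp_113 t 1 1 1 = true :=
  ⟨(l 4), by decide +kernel⟩

theorem c_pp_113 : CertN 536870912 536870912 536870912 536870912 201326592 134217728 3 true true true .nn 1 1 3
    ndN0q1 ndN4q1 pcN3 Cut.none Ext.none :=
  certN0 (fam := true) (s1 := true) (s2 := true) (a := 1) (b := 1) (c := 3) (cn := .nn) (n1 := ndN0q1) (n2 := ndN4q1) (pc := pcN3) (cut := Cut.none) (xt := Ext.none) (P1 := 536870912) (W1 := 536870912) (P2 := 536870912) (W2 := 536870912) (P3 := 201326592) (W3 := 134217728) (N0 := 3)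
    rfl k0_pp_113

noncomputable def f_pp_123 : ℕ → ℕ → ℕ → ℕ → Bool := onCell 536870912 536870912 1073741824 536870912 201326592 134217728
    (rowN 3 0 true true true .npn 1 2 3 (qsf 536870912 536870912 1073741824 536870912 3) ndN0q1 ndN4q2 pcN3 Cut.none Ext.none)

def k0_pp_123 : ∃ t, chk3 f_pp_123 t 1 1 1 = true :=
  ⟨(l 4), by decide +kernel⟩

theorem c_pp_123 : CertN 536870912 536870912 1073741824 536870912 201326592 134217728 3 true true true .npn 1 2 3
    ndN0q1 ndN4q2 pcN3 Cut.none Ext.none :=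
  certN0 (fam := true) (s1 := true) (s2 := true) (a := 1) (b := 2) (c := 3) (cn := .npn) (n1 := ndN0q1) (n2 := ndN4q2) (pc := pcN3) (cut := Cut.none) (xt := Ext.none) (P1 := 536870912) (W1 := 536870912) (P2 := 1073741824) (W2 := 536870912) (P3 := 201326592) (W3 := 134217728) (N0 := 3)
    rfl k0_pp_123

noncomputable def f_pp_133 : ℕ → ℕ → ℕ → ℕ → Bool := onCell 536870912 536870912 0 1230186008 201326592 134217728
    (rowN 3 0 true true true .dn 1 3 3 (qsf 536870912 536870912 0 1230186008 3) ndN0q1 ndN4q3 pcN3 Cut.none Ext.none)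

def k0_pp_133 : ∃ t, chk3 f_pp_133 t 1 1 1 = true :=
  ⟨(l 4), by decide +kernel⟩

theorem c_pp_133 : CertN 536870912 536870912 0 1230186008 201326592 134217728 3 true true true .dn 1 3 3
    ndN0q1 ndN4q3 pcN3 Cut.none Ext.none :=
  certN0 (fam := true) (s1 := true) (s2 := true) (a := 1) (b := 3) (c := 3) (cn := .dn) (n1 := ndN0q1) (n2 := ndN4q3) (pc := pcN3) (cut := Cut.none) (xt := Ext.none) (P1 := 536870912) (W1 := 536870912) (P2 := 0) (W2 := 1230186008) (P3 := 201326592) (W3 := 134217728) (N0 := 3)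
    rfl k0_pp_133

noncomputable def f_pp_202 : ℕ → ℕ → ℕ → ℕ → Bool := onCell 0 536870912 0 536870912 201326592 134217728
    (rowN 3 0 true true true .pp 2 0 2 (qsf 0 536870912 0 536870912 2) ndN0q2 ndN4q0 pcN2 Cut.none Ext.none)

def k0_pp_202 : ∃ t, chk3 f_pp_202 t 1 1 1 = true :=
  ⟨(l 5), by decide +kernel⟩

theorem c_pp_202 : CertN 0 536870912 0 536870912 201326592 134217728 3 true true true .pp 2 0 2
    ndN0q2 ndN4q0 pcN2 Cut.none Ext.none :=
  certN0 (fam := true) (s1 := true) (s2 := true) (a := 2) (b := 0) (c := 2) (cn := .pp) (n1 := ndN0q2) (n2 := ndN4q0) (pc := pcN2) (cut := Cut.none) (xt := Ext.none) (P1 := 0) (W1 := 536870912) (P2 := 0) (W2 := 536870912) (P3 := 201326592) (W3 := 134217728) (N0 := 3)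
    rfl k0_pp_202

noncomputable def f_pp_203 : ℕ → ℕ → ℕ → ℕ → Bool := onCell 0 536870912 0 536870912 201326592 134217728
    (rowN 3 0 true true true .up 2 0 3 (qsf 0 536870912 0 536870912 3) ndN0q2 ndN4q0 pcN3 Cut.none Ext.none)

def k0_pp_203 : ∃ t, chk3 f_pp_203 t 1 1 1 = true :=
  ⟨(l 5), by decide +kernel⟩

theorem c_pp_203 : CertN 0 536870912 0 536870912 201326592 134217728 3 true true true .up 2 0 3
    ndN0q2 ndN4q0 pcN3 Cut.none Ext.none :=
  certN0 (fam := true) (s1 := true) (s2 := true) (a := 2) (b := 0) (c := 3) (cn := .up) (n1 := ndN0q2) (n2 := ndN4q0) (pc := pcN3) (cut := Cut.none) (xt := Ext.none) (P1 := 0) (W1 := 536870912) (P2 := 0) (W2 := 536870912) (P3 := 201326592) (W3 := 134217728) (N0 := 3)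
    rfl k0_pp_203

noncomputable def f_pp_213 : ℕ → ℕ → ℕ → ℕ → Bool := onCell 0 536870912 536870912 536870912 201326592 134217728
    (rowN 3 0 true true true .pnn 2 1 3 (qsf 0 536870912 536870912 536870912 3) ndN0q2 ndN4q1 pcN3 Cut.none Ext.none)

def k0_pp_213 : ∃ t, chk3 f_pp_213 t 1 1 1 = true :=
  ⟨(l 4), by decide +kernel⟩

theorem c_pp_213 : CertN 0 536870912 536870912 536870912 201326592 134217728 3 true true true .pnn 2 1 3
    ndN0q2 ndN4q1 pcN3 Cut.none Ext.none :=
  certN0 (fam := true) (s1 := true) (s2 := true) (a := 2) (b := 1) (c := 3) (cn := .pnn) (n1 := ndN0q2) (n2 := ndN4q1) (pc := pcN3) (cut := Cut.none) (xt := Ext.none) (P1 := 0) (W1 := 536870912) (P2 := 536870912) (W2 := 536870912) (P3 := 201326592) (W3 := 134217728) (N0 := 3)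
    rfl k0_pp_213

noncomputable def f_pm_001 : ℕ → ℕ → ℕ → ℕ → Bool := onCell 0 536870912 0 536870912 201326592 134217728
    (rowN 3 0 true true false .up 0 0 1 (qsf 0 536870912 0 536870912 1) ndN0q0 ndN4q0 pcN1 Cut.none Ext.none)

def k0_pm_001 : ∃ t, chk3 f_pm_001 t 1 1 1 = true :=
  ⟨(a (l 3) (b (l 3) (a (l 3) (b (a (l 3) (a (l 3) (b (l 3) (b (l 3) (c (l 295984543751) (l 211158817495)))))) (a (b (l 3) (a (b (l 3) (a (l 3) (b (l 3) (b (c (l 287931899175) (l 284710347511)) (a (c (c (l 286858315415) (l 288468716007)) (c (l 286857925687) (l 279878465543))) (c (c (l 198274588343) (l 191831937527)) (c (l 184315582007) (l 174114915415)))))))) (b (a (l 3) (c (l 285784283431) (c (l 281489107719) (l 304037624775)))) (a (c (b (l 285247500023) (l 189684396871)) (c (l 183778679255) (a (l 174114893479) (a (l 174114919447) (l 199884777015))))) (c (l 17400168) (c (l 197737504615) (l 168209349511))))))) (b (a (b (l 3) (a (c (l 286857927559) (l 295984509559)) (c (l 207401124183) (l 151566081351))))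 (c (b (l 249277188775) (l 17454224)) (b (a (l 189146909399) (l 118816936791)) (a (l 17174144) (l 17238528))))) (a (a (b (c (l 202569400871) (c (l 198274237719) (l 148881818199))) (c (l 17380688) (l 17318160))) (c (l 17350096) (b (l 17276776) (l 17312808)))) (c (l 17337680) (b (l 17272616) (l 17310416)))))))))), by decide +kernel⟩

theorem c_pm_001 : CertN 0 536870912 0 536870912 201326592 134217728 3 true true false .up 0 0 1
    ndN0q0 ndN4q0 pcN1 Cut.none Ext.none :=
  certN0 (fam := true) (s1 := true) (s2 := false) (a := 0) (b := 0) (c := 1) (cn := .up) (n1 := ndN0q0) (n2 := ndN4q0) (pc := pcN1) (cut := Cut.none) (xt := Ext.none) (P1 := 0) (W1 := 536870912) (P2 := 0) (W2 := 536870912) (P3 := 201326592) (W3 := 134217728) (N0 := 3)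
    rfl k0_pm_001

noncomputable def cut_pm_011 : Cut := Cut.of [[⟨0, 0, 0, 67108864⟩, ⟨1, 1, 0, 67108864⟩, ⟨2, 1, 0, 67108864⟩]]

noncomputable def f_pm_011 : ℕ → ℕ → ℕ → ℕ → Bool := onCell 0 536870912 536870912 536870912 201326592 134217728
    (rowN 3 1 true true false .pnn 0 1 1 (qsf 0 536870912 536870912 536870912 1) ndN0q0 ndN4q1 pcN1 cut_pm_011 Ext.none)

def k0_pm_011 : ∃ t, chk3 f_pm_011 t 1 2 1 = true :=
  ⟨(l 3), by decide +kernel⟩

def k1_pm_011 : ∃ t, chk3 f_pm_011 t 2 6 1 = true :=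
  ⟨(l 3), by decide +kernel⟩

def k2_pm_011 : ∃ t, chk3 f_pm_011 t 4 14 1 = true :=
  ⟨(l 3), by decide +kernel⟩

def k3_pm_011 : ∃ t, chk3 f_pm_011 t 8 15 1 = true :=
  ⟨(b (l 3) (a (b (l 3) (l 6)) (b (a (l 3) (a (l 3) (a (l 3) (a (l 3) (b (l 3) (a (l 3) (b (l 3) (c (c (l 16756264) (l 16753768)) (l 16754168))))))))) (b (a (b (b (l 3) (l 6)) (l 6)) (c (a (a (b (b (l 3) (c (c (l 16760464) (l 16759416)) (l 16759296))) (b (c (l 16755120) (l 16753224)) (l 6))) (b (b (c (c (l 16760632) (l 16759488)) (l 16757928)) (c (l 16755592) (l 16753496))) (c (b (l 16755760) (l 16750592)) (l 16751208)))) (a (b (c (b (l 16755824) (l 16756256)) (c (l 16754288) (l 16753256))) (c (l 16748512) (l 16746416))) (b (c (b (l 16756600) (l 16751528)) (l 16751680)) (c (l 16743784) (l 16741648))))) (a (a (b (b (l 3) (c (l 16756328) (l 16756024))) (c (l 16752176) (l 16750400))) (b (b (l 16758064) (l 16753928)) (l 16749968))) (b (a (c (l 16751848) (l 16749704)) (l 16749688)) (c (l 16742256) (l 16740536)))))) (b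 (a (l 6) (b (a (c (c (l 16745104) (l 16746720)) (l 16744128)) (c (c (l 16738392) (l 16738776)) (l 16740224))) (a (l 6) (c (l 16733648) (l 16736792))))) (a (l 6) (a (l 6) (c (c (l 16727056) (b (l 16721856) (l 16739624))) (b (l 16733360) (l 16729936)))))))))), by decide +kernel⟩

def k4_pm_011 : ∃ t, chk3 f_pm_011 t 9 30 1 = true :=
  ⟨(a (l 3) (b (l 3) (a (l 3) (a (l 3) (b (l 3) (a (l 3) (b (l 3) (c (c (l 16731392) (l 16731544)) (l 16735320))))))))), by decide +kernel⟩

def k5_pm_011 : ∃ t, chk3 f_pm_011 t 9 62 1 = true :=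
  ⟨(a (a (b (l 3) (c (a (a (b (l 3) (c (b (l 3) (l 16756688)) (l 16754880))) (b (l 3) (c (b (l 16756536) (l 16752080)) (l 16751560)))) (a (b (l 3) (c (b (l 16752032) (l 16757712)) (l 16746760))) (b (c (l 58686649431) (l 16750768)) (b (l 16745728) (l 16740704))))) (a (b (l 3) (a (c (l 16751376) (l 16749456)) (l 16749824))) (a (b (l 3) (l 16744416)) (b (l 16747536) (l 16741768)))))) (a (b (l 3) (c (b (c (b (l 47412355863) (l 37748670759)) (l 16746168)) (c (l 16739760) (l 16734072))) (c (b (l 16742688) (l 16745816)) (b (l 16744280) (l 16736736))))) (b (b (l 3) (a (l 3) (c (c (l 16743216) (l 16750240)) (l 16744296)))) (c (b (c (l 16739392) (l 16733408)) (c (l 16726680) (l 16736584))) (c (l 16734008) (b (l 16746824) (l 16718904))))))) (c (a (c (b (a (b (l 3) (l 16738392)) (b (b (l 3) (l 16743032)) (l 16728184))) (a (b (l 16731424) (l 16726952)) (b (b (l 16728376) (l 16724368)) (l 16719992)))) (b (a (b (l 3) (b (l 16744856) (l 16740704))) (b (l 16732056) (l 16734808))) (b (l 16726848)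 (l 16715472)))) (b (a (b (c (b (l 16737408) (l 16732952)) (l 16734104)) (b (c (l 16727976) (l 16728800)) (l 16714592))) (b (c (b (l 16727240) (l 16722256)) (l 16726136)) (c (l 16716960) (l 16720064)))) (a (c (l 16707888) (l 16718456)) (c (b (l 16711352) (l 16705808)) (l 16711304))))) (a (b (b (a (l 3) (c (l 16745024) (l 16746856))) (a (c (l 16745112) (l 16746840)) (l 16732872))) (c (a (l 16728056) (l 16722312)) (a (l 16730808) (l 16728936)))) (b (a (c (c (l 16727440) (l 16728496)) (l 16729760)) (c (l 16720328) (l 16727320))) (a (c (l 16720464) (l 16721792)) (c (l 16713304) (l 16714576))))))), by decide +kernel⟩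

def k6_pm_011 : ∃ t, chk3 f_pm_011 t 9 63 1 = true :=
  ⟨(a (b (b (a (c (a (c (c (a (l 16749992) (l 16745152)) (l 16746216)) (l 16746968)) (c (l 16737016) (l 16734552))) (a (c (l 16743824) (l 16745000)) (l 16735528))) (a (c (c (l 16737328) (l 16737576)) (l 16724480)) (c (l 16720760) (l 16732608)))) (a (c (a (c (l 16739184) (l 16735808)) (c (l 16726680) (l 16738688))) (c (l 16734952) (a (l 16738056) (l 16740976)))) (c (c (l 16720472) (b (l 16729208) (l 16726088))) (c (l 16723800) (l 16724664))))) (a (a (c (b (c (l 16727952) (l 16729416)) (c (l 16716656) (l 16723064))) (b (c (l 16730472) (l 16731112)) (c (l 16723824) (l 16724176)))) (c (c (b (l 16730816) (l 16714344)) (b (l 16732368) (l 16726080))) (b (l 16728584) (l 16721848)))) (c (b (c (l 16709296) (l 16716184)) (c (b (l 16715376) (l 16712456)) (b (l 16716784) (l 16713696)))) (b (c (l 16722536) (l 16723120)) (c (l 16710800) (l 16716328)))))) (b (b (a (c (c (l 16709672) (l 16719816)) (c (l 16721464) (l 16722488))) (c (c (l 16703792)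 (l 16706120)) (l 16708256))) (c (a (c (l 16711696) (l 16713688)) (c (l 16698264) (l 16700296))) (a (c (l 16715056) (l 16715808)) (l 16702000)))) (c (a (b (c (l 16705904) (l 16707600)) (c (l 16694928) (l 16701544))) (b (c (l 16692736) (l 16694456)) (c (l 16687208) (l 16688608)))) (a (b (l 16708976) (b (l 16704096) (l 16700840))) (b (l 16695704) (l 16689384)))))), by decide +kernel⟩

def k7_pm_011 : ∃ t, chk3 f_pm_011 t 5 14 1 = true :=
  ⟨(a (l 3) (b (l 3) (b (l 3) (b (l 3) (a (l 3) (a (l 3) (a (l 3) (c (l 72108564903) (l 28084928295))))))))), by decide +kernel⟩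

def k8_pm_011 : ∃ t, chk3 f_pm_011 t 10 30 1 = true :=
  ⟨(a (b (l 3) (c (a (b (l 3) (a (b (l 3) (c (b (l 16726824) (l 16722376)) (l 16724528))) (b (c (l 179482529415) (l 16723288)) (c (b (l 16717512) (l 16712536)) (l 16715632))))) (b (a (l 3) (b (l 3) (c (l 176261285911) (l 16712848)))) (c (b (a (b (l 16716904) (l 16712456)) (b (l 16707192) (l 16702208))) (a (b (l 16707480) (l 16702288)) (a (l 16697512) (l 16693520)))) (b (a (l 16713960) (l 16705232)) (l 16703280))))) (a (a (b (l 3) (b (l 3) (l 16723192))) (b (l 3) (b (l 16722200) (l 16719664)))) (a (b (l 3) (b (l 16718264) (l 16711424))) (b (b (l 3) (l 16712112)) (c (l 16705344) (l 16707560))))))) (b (a (l 3) (a (l 3) (a (l 3) (b (l 3) (c (c (l 42580535207) (l 16738256)) (l 16810608407)))))) (c (a (b (a (b (l 3) (c (c (l 16710752) (l 110763009719)) (l 16703600))) (c (b (l 34527452407) (l 16745152)) (b (l 16702152) (l 16694776)))) (c (a (b (c (l 16684400) (b (l 16695544) (l 16692792))) (l 16687608)) (b (l 16694336) (l 16679784)))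 (a (l 16694280) (l 16686400)))) (b (c (a (b (l 16748400) (l 16729136)) (b (l 16774536) (l 16758088))) (a (b (l 16692872) (l 16686584)) (l 25400589655))) (c (a (l 16734440) (l 16726864)) (b (l 16677256) (l 16671968))))) (a (a (b (b (l 3) (l 16702968)) (c (l 16697368) (l 16699576))) (b (b (l 16706864) (l 16699416)) (l 16688064))) (b (c (b (l 16692048) (l 16685896)) (l 16691488)) (c (l 16677632) (l 16679744))))))), by decide +kernel⟩

def k9_pm_011 : ∃ t, chk3 f_pm_011 t 10 31 1 = true :=
  ⟨(b (a (c (c (a (b (a (b (b (l 16717400) (l 16713008)) (l 16708816)) (b (l 16706160) (l 16700632))) (b (l 16699176) (l 16693736))) (b (a (l 16687408) (l 16676832)) (b (l 16683200) (l 16677904)))) (a (b (a (l 16709648) (l 16706752)) (b (l 16702168) (l 16696472))) (b (b (l 16697584) (l 16691944)) (l 16683536)))) (a (b (c (b (l 16716352) (l 16710352)) (a (l 16719192) (l 16711128))) (c (l 16701376) (l 16702672))) (b (c (l 16697384) (l 16699184)) (c (l 16685688) (l 16686984))))) (c (a (b (c (b (l 16678304)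 (l 16673032)) (l 16676616)) (c (l 16662584) (l 16668312))) (b (c (a (l 16664288) (l 16671160)) (l 16664072)) (c (l 16650488) (l 16653632)))) (a (b (c (l 16681920) (l 16683688)) (l 16671224)) (b (c (l 16666720) (l 16668392)) (l 16656480))))) (b (a (c (a (c (b (l 16688360) (l 16683048)) (l 16687992)) (c (l 16670064) (l 16672504))) (a (c (l 16689512) (l 16690248)) (l 16674552))) (c (c (a (l 16655032) (l 16640704)) (a (l 16657552) (l 16622288))) (a (l 16659600) (l 16645224)))) (a (a (c (c (b (l 16677792) (l 16672592)) (b (l 16658656) (l 16653120))) (b (l 16680912) (l 16674872))) (c (c (b (l 16641432) (l 16636376)) (l 16661640)) (c (l 16662576) (l 16641696)))) (c (a (c (l 16645112) (l 16646968)) (c (l 16631080) (l 16611984))) (a (l 16648032) (l 16633928)))))), by decide +kernel⟩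

def k10_pm_011 : ∃ t, chk3 f_pm_011 t 11 30 1 = true :=
  ⟨(a (b (c (a (b (l 3) (c (a (l 17884494807) (l 20032019303)) (a (l 17347579975) (l 21105674087)))) (b (c (l 72108575623) (l 44728004039)) (c (a (l 16863248) (l 16887096)) (a (l 16734392) (l 16756848))))) (a (b (l 3) (c (a (l 16690192) (l 16681528)) (l 16688432))) (b (a (l 3) (c (l 16690224) (l 16682304))) (c (a (l 16673360) (l 16665704)) (l 16671944))))) (c (c (a (b (a (l 16773448) (l 16822144)) (a (l 16760824) (l 16794192))) (b (l 16863432) (l 16842920))) (b (a (a (l 16673760) (l 16668584)) (l 16709328)) (a (l 16659528) (l 16661352)))) (a (b (c (l 16673216) (l 16675512)) (c (l 16662472) (l 16664424))) (b (c (l 16658560) (l 16660664)) (l 16649064))))) (c (b (c (a (b (l 16921312) (l 16922520)) (l 25400984951)) (a (b (l 24326939847) (l 16790776)) (b (l 16849520) (l 16835936)))) (c (a (b (l 16917208) (l 16904952)) (l 16966976)) (a (b (l 16763176) (l 16726112)) (b (l 16815632) (l 16787568))))) (b (c (a (b (l 20568767015) (l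 16656032)) (b (l 29158663863) (l 16700016))) (a (b (b (l 16673392) (l 16665872)) (l 16657248)) (b (l 16654632) (l 16643848)))) (b (a (c (l 16644728) (l 16625632)) (l 16674712)) (a (l 16635368) (l 16622584)))))), by decide +kernel⟩

def k11_pm_011 : ∃ t, chk3 f_pm_011 t 11 31 1 = true :=
  ⟨(c (b (a (b (a (c (l 16733728) (l 16649304)) (c (l 16811960) (l 16635304))) (a (c (l 16673784) (l 16639272)) (c (l 16768392) (l 16604568)))) (c (a (l 16870456) (l 16942152)) (a (l 16690832) (l 16727856)))) (a (b (c (a (l 16626896) (l 16709576)) (l 16622408)) (a (c (l 16596792) (l 16598632)) (c (l 16632280) (l 16585608)))) (b (c (l 16857568) (l 16591920)) (c (l 16808904) (l 16588240))))) (b (a (a (b (l 16652720) (l 16641936)) (b (l 16638472) (l 16627944))) (b (c (l 16617872) (l 16618840)) (c (l 16607992) (l 16587464)))) (a (b (c (l 16623808) (l 16624144)) (c (l 16613528) (l 16613200))) (b (l 16598280) (l 16609248))))), by decide +kernel⟩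

def k12_pm_011 : ∃ t, chk3 f_pm_011 t 3 6 1 = true :=
  ⟨(a (l 3) (a (l 3) (l 1))), by decide +kernel⟩

def k13_pm_011 : ∃ t, chk3 f_pm_011 t 6 14 1 = true :=
  ⟨(a (b (l 3) (c (a (b (l 3) (c (a (l 16985392) (l 17023288)) (a (b (l 3) (l 16892608)) (l 23253447751)))) (b (c (l 17035408) (l 114521550647)) (c (l 17078056) (a (l 16961480) (l 16995336))))) (a (b (l 3) (a (b (l 3) (c (l 24326909255) (l 26474304551))) (c (b (l 16832592) (l 16823000)) (b (l 36137988439) (l 16714808))))) (a (b (l 3) (c (b (l 16863472) (l 16856512)) (b (l 16766304) (l 16746456)))) (b (c (l 93583479303) (l 66202920935)) (c (l 16892392) (b (l 16794824) (l 16778224)))))))) (a (b (l 3) (c (c (l 45265511047) (a (l 32917307735) (l 17048888))) (b (c (a (l 16921960) (l 16950128)) (a (l 26474520663) (l 30232661255))) (c (l 16939440) (a (l 16817064) (l 16846840)))))) (b (a (l 3) (c (l 107005522007) (b (l 3) (l 112910881303)))) (c (b (l 17124128) (l 17159696)) (b (c (l 16991648) (a (l 16887904) (l 16913544))) (c (l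 17000112) (l 16890824))))))), by decide +kernel⟩

def k14_pm_011 : ∃ t, chk3 f_pm_011 t 6 15 1 = true :=
  ⟨(a (b (c (a (b (c (a (l 17010184) (l 17051904)) (a (b (l 16889152) (l 16880392)) (l 16926448))) (c (l 17043832) (a (l 16856744) (l 16907992)))) (b (c (l 17111488) (l 16985688)) (c (l 17136008) (l 16979552)))) (a (b (a (b (c (l 16770056) (l 16648232)) (c (l 16744000) (l 16610248))) (b (c (l 16807800) (l 16684712)) (l 16717944))) (a (b (l 16631840) (l 16610800)) (b (l 16682456) (l 16639112)))) (b (a (c (l 16837776) (l 16706504)) (c (l 16876192) (l 16744920))) (a (b (l 16730888) (l 16695008)) (l 16763000))))) (c (a (b (c (l 17038360) (a (l 16800128) (l 16866352))) (c (l 17007376) (b (l 16775280) (l 16722760)))) (b (c (l 17148440) (l 16955728)) (c (l 17143936) (l 16908016)))) (b (a (a (c (l 16588424) (l 16575008)) (l 16606632)) (a (l 16626560) (l 16690688))) (a (b (l 16576232) (l 16566736)) (b (l 16577568) (l 16528944)))))) (b (b (a (c (l 17122800) (a (l 16785232) (l 16884144)))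 (c (l 17190840) (l 16872896))) (c (a (l 17141968) (l 17216648)) (a (a (l 16809376) (l 16853168)) (l 16914496)))) (c (a (b (l 17150776) (l 17145472)) (c (l 17335136) (l 17145536))) (a (b (l 16735640) (l 16698456)) (b (l 16878704) (l 16824376)))))), by decide +kernel⟩

def k15_pm_011 : ∃ t, chk3 f_pm_011 t 7 7 1 = true :=
  ⟨(b (b (a (c (a (b (l 3) (l 17145080)) (l 89691661607)) (a (b (l 3) (c (l 17028384) (l 45802099095))) (b (l 1) (l 80564589831)))) (l 1)) (a (c (a (c (l 17253296) (l 17154288)) (l 17268072)) (a (b (c (l 17046536) (l 16951392)) (l 17002928)) (b (l 17053096) (l 17059352)))) (c (l 102040071735) (a (l 87007184935) (l 1))))) (a (c (b (a (l 17270704) (l 17335624)) (a (l 17318360) (l 17388400))) (b (a (b (l 16999472) (l 16987168)) (l 17057392)) (a (b (l 16963688) (l 16926024)) (l 17025144)))) (c (b (l 17430672) (l 17486112)) (b (a (l 17118456) (l 17178240)) (a (l 17096856) (l 17164504)))))), by decide +kernel⟩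

theorem s16_pm_011 : ∃ t, chk3 f_pm_011 t 6 7 1 = true := ex3_b k13_pm_011 k14_pm_011

theorem s17_pm_011 : ∃ t, chk3 f_pm_011 t 3 7 1 = true := ex3_a s16_pm_011 k15_pm_011

theorem s18_pm_011 : ∃ t, chk3 f_pm_011 t 3 3 1 = true := ex3_b k12_pm_011 s17_pm_011

theorem s19_pm_011 : ∃ t, chk3 f_pm_011 t 11 15 1 = true := ex3_b k10_pm_011 k11_pm_011

theorem s20_pm_011 : ∃ t, chk3 f_pm_011 t 10 15 1 = true := ex3_b k8_pm_011 k9_pm_011

theorem s21_pm_011 : ∃ t, chk3 f_pm_011 t 5 15 1 = true := ex3_a s20_pm_011 s19_pm_011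

theorem s22_pm_011 : ∃ t, chk3 f_pm_011 t 5 7 1 = true := ex3_b k7_pm_011 s21_pm_011

theorem s23_pm_011 : ∃ t, chk3 f_pm_011 t 9 31 1 = true := ex3_b k5_pm_011 k6_pm_011

theorem s24_pm_011 : ∃ t, chk3 f_pm_011 t 9 15 1 = true := ex3_b k4_pm_011 s23_pm_011

theorem s25_pm_011 : ∃ t, chk3 f_pm_011 t 4 15 1 = true := ex3_a k3_pm_011 s24_pm_011

theorem s26_pm_011 : ∃ t, chk3 f_pm_011 t 4 7 1 = true := ex3_b k2_pm_011 s25_pm_011

theorem s27_pm_011 : ∃ t, chk3 f_pm_011 t 2 7 1 = true := ex3_a s26_pm_011 s22_pm_011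

theorem s28_pm_011 : ∃ t, chk3 f_pm_011 t 2 3 1 = true := ex3_b k1_pm_011 s27_pm_011

theorem s29_pm_011 : ∃ t, chk3 f_pm_011 t 1 3 1 = true := ex3_a s28_pm_011 s18_pm_011

theorem s30_pm_011 : ∃ t, chk3 f_pm_011 t 1 1 1 = true := ex3_b k0_pm_011 s29_pm_011

theorem c_pm_011 : CertN 0 536870912 536870912 536870912 201326592 134217728 3 true true false .pnn 0 1 1
    ndN0q0 ndN4q1 pcN1 cut_pm_011 Ext.none :=
  certN1 (fam := true) (s1 := true) (s2 := false) (a := 0) (b := 1) (c := 1) (cn := .pnn) (n1 := ndN0q0) (n2 := ndN4q1) (pc := pcN1) (cut := cut_pm_011) (xt := Ext.none) (P1 := 0) (W1 := 536870912) (P2 := 536870912) (W2 := 536870912) (P3 := 201326592) (W3 := 134217728) (N0 := 3)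
    rfl (fun _ => rfl) s30_pm_011

noncomputable def cut_pm_012 : Cut := Cut.of [[⟨0, 0, 0, 67108864⟩, ⟨1, 1, 0, 67108864⟩, ⟨2, 1, 0, 67108864⟩]]

noncomputable def f_pm_012 : ℕ → ℕ → ℕ → ℕ → Bool := onCell 1073741824 536870912 536870912 536870912 201326592 134217728
    (rowN 3 2 true true false .pnp 0 1 2 (qsf 0 536870912 536870912 536870912 2) ndN0q0 ndN4q1 pcN2 cut_pm_012 Ext.none)

def k0_pm_012 : ∃ t, chk3 f_pm_012 t 4 2 1 = true :=
  ⟨(b (b (a (c (a (b (l 17644568) (l 17580912)) (l 17748760)) (a (b (l 17243824) (l 17168192)) (b (l 17370488) (l 17299064)))) (a (c (l 17875720) (l 17460544)) (l 2))) (a (a (c (b (l 17512040) (l 17395008)) (b (a (l 17053072) (l 17119392)) (a (l 16960256) (l 17028056)))) (c (b (l 17658712) (l 17590864)) (b (l 17220696) (l 17133128)))) (a (c (l 17767288) (b (l 17354624) (l 17274144))) (a (c (l 17865632) (l 17415168)) (c (l 17925264) (l 17477392)))))) (a (b (a (c (b (a (l 17310712) (l 17393352)) (a (c (l 17325272) (l 17082128)) (l 17294192))) (b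 (a (b (l 16879760) (l 16816472)) (l 16921272)) (a (b (l 16745528) (l 16666792)) (l 16786656)))) (c (b (l 17514936) (l 17426472)) (b (a (l 16994760) (l 17069440)) (a (l 16868672) (l 16950768))))) (a (c (a (b (c (l 17204704) (l 16939608)) (c (a (l 17024864) (l 17079464)) (a (l 16734440) (l 16784080)))) (b (l 17065632) (c (l 17162824) (l 16861984)))) (b (a (a (l 16511280) (l 16551664)) (l 16616200)) (a (a (l 16537832) (l 16501832)) (l 16500544)))) (c (b (c (l 17454448) (l 17177968)) (a (l 16954416) (l 17230600))) (b (a (l 16706712) (l 16799680)) (a (l 16500104) (l 16605368)))))) (a (b (c (b (l 17670912) (l 17594800)) (b (l 17181912) (l 17072560))) (c (b (l 17503576) (l 17304200)) (b (l 16896256) (l 16639280)))) (a (b (c (l 17748712) (l 17244896)) (c (l 17588312) (b (l 17072520) (l 16920648)))) (b (c (l 17818760) (a (l 17300968) (l 17337360))) (c (a (l 17654128) (l 17696464)) (a (l 17070576) (l 17052952)))))))), by decide +kernel⟩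

def k1_pm_012 : ∃ t, chk3 f_pm_012 t 5 2 1 = true :=
  ⟨(a (a (a (b (b (l 2) (c (l 17982160) (l 17537864))) (b (c (l 17885968) (a (l 17372856) (l 17406728))) (c (l 17756208) (a (l 17160096) (l 17203016))))) (b (l 2) (b (c (a (l 17931224) (l 17959928)) (a (l 17439784) (a (l 17463840) (l 17479672)))) (c (a (l 17812832) (l 17849080)) (a (l 17244912) (a (l 17275600) (b (l 17348752) (l 17236712)))))))) (b (l 2) (c (b (l 18019064) (l 17927672)) (b (l 17544784) (a (l 17344208) (l 17419192)))))) (b (l 2) (a (c (b (l 18108840) (l 18043200)) (b (l 17654384) (l 17522016))) (c (l 18160816) (b (l 2) (l 17642680)))))), by decide +kernel⟩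

def k2_pm_012 : ∃ t, chk3 f_pm_012 t 8 6 1 = true :=
  ⟨(b (a (c (a (b (c (a (l 16782024) (l 16883248)) (a (l 16546464) (l 16550744))) (b (c (l 16660656) (l 16560504)) (c (a (l 16583632) (l 16547352)) (l 16575488)))) (b (c (l 16933800) (l 16636600)) (c (b (l 16793296) (l 16644288)) (l 16557136)))) (a (b (b (l 16549864) (l 16564080)) (a (b (l 16545704) (l 16582360)) (b (l 16528784) (l 16544040)))) (b (c (l 16505728) (l 16501416)) (b (l 16524648) (l 16539232))))) (c (b (a (c (l 17101584) (l 16757648)) (c (l 17226720) (l 16881424))) (a (c (l 16783616) (l 16505440)) (c (l 17014368) (l 16618256)))) (b (a (l 16472616) (l 16421504)) (a (l 16519464) (l 16466184))))) (a (a (b (b (c (c (a (l 16598880) (l 16562144)) (l 16601208)) (a (l 16598160) (l 16559408))) (c (c (a (l 16614808) (l 16598600)) (a (l 16615160) (l 16577192))) (c (l 16626880) (l 16625584)))) (c (a (c (b (l 16631368) (l 16648424)) (b (l 16631792) (l 16648864))) (b (c (l 16614752) (l 16593432)) (c (l 16631432) (l 16631128))))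 (b (a (l 16631320) (l 16612760)) (a (l 16658984) (l 16629592))))) (b (c (b (c (l 16559680) (l 16557920)) (c (l 16574560) (l 16572960))) (a (l 16591272) (l 16552656))) (c (b (c (l 16590072) (l 16588576)) (c (l 16616680) (l 16604752))) (b (l 16606136) (l 16622456))))) (c (b (a (c (b (l 16631536) (l 16522456)) (l 16553704)) (c (l 16694992) (l 16501176))) (a (c (b (l 16558160) (l 16573480)) (b (l 16534096) (l 16549488))) (c (b (l 16506048) (l 16520632)) (l 16550296)))) (b (a (c (l 16528768) (l 16524096)) (l 16513440)) (a (b (l 16549200) (l 16564784)) (b (l 16492984) (l 16507848))))))), by decide +kernel⟩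

def k3_pm_012 : ∃ t, chk3 f_pm_012 t 9 6 1 = true :=
  ⟨(a (b (c (b (c (l 17407640) (l 17064680)) (a (c (l 17158272) (l 16764888)) (l 16914424))) (b (a (l 16476664) (l 16600968)) (a (l 16413728) (l 16382992)))) (c (b (a (c (l 16892248) (l 16449296)) (c (l 17061792) (l 16610568))) (a (c (l 16504080) (l 16496928)) (c (l 16722296) (l 16444224)))) (b (a (l 16459080) (l 16405376)) (a (l 16507152) (l 16451888))))) (a (b (c (b (l 17408488) (l 17216680)) (b (l 16722528) (l 16460752))) (c (b (c (l 17222288) (l 16780936)) (c (l 16927384) (l 16412760))) (b (l 16373240) (l 16397032)))) (b (c (a (b (l 17489448) (l 17333704)) (b (l 17541344) (l 17395232))) (a (l 16530408) (b (l 16868392) (l 16637216)))) (b (c (a (l 17120120) (l 17132400)) (a (l 16349808) (l 16334808))) (c (a (l 16692080) (c (l 17162976) (l 16662296))) (a (l 16372248) (l 16356176))))))), by decide +kernel⟩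

def k4_pm_012 : ∃ t, chk3 f_pm_012 t 8 14 1 = true :=
  ⟨(a (a (b (a (b (c (c (a (l 16669176) (l 16660792)) (l 16665336)) (a (l 16669816) (l 16660440))) (c (c (l 16674512) (l 16671072)) (a (l 16684856) (l 16675528)))) (c (b (c (l 16647976) (l 16647656)) (c (l 16663240) (l 16662936))) (b (l 16646192) (l 16672104)))) (a (c (b (c (l 16693872) (l 16691464)) (a (b (l 16703688) (l 16713192)) (c (l 16706328) (l 16706664)))) (a (b (l 16689840) (a (l 16708392) (l 16713936))) (b (l 16690736) (l 16706552)))) (c (b (c (l 16677840) (l 16677592)) (c (b (l 16689280) (l 16697120)) (a (l 16697472) (l 16688368)))) (b (c (l 16676944) (l 16675904)) (b (l 16688016) (l 16695880)))))) (b (c (c (b (a (l 16630888) (l 16592904)) (a (l 16646576) (l 16608696))) (b (l 16631352) (a (l 16645488) (l 16606848)))) (b (a (l 16627216) (l 16587344)) (a (l 16642960) (l 16624120)))) (c (b (a (c (l 16661112) (l 16660064)) (c (l 16644624) (l 16621808))) (a (c (b (l 16651168) (l 16679696)) (l 16674832)) (c (l 16658880)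 (l 16657056)))) (a (b (l 16657704) (c (l 16673456) (l 16671728))) (b (l 16639184) (b (l 16629016) (l 16636376))))))) (b (c (a (b (c (l 16588888) (l 16585896)) (c (l 16604272) (l 16601264))) (b (c (l 16535288) (l 16530696)) (c (l 16570992) (l 16545424)))) (a (b (l 16580344) (a (l 16584264) (l 16565496))) (b (l 16543680) (l 16558504)))) (c (a (b (c (b (l 16616056) (l 16623584)) (l 16637560)) (c (a (l 16642360) (l 16605168)) (a (l 16618728) (l 16601664)))) (b (c (l 16586144) (l 16560528)) (c (a (l 16588768) (l 16572096)) (l 16596512)))) (a (b (a (l 16599656) (l 16580968)) (a (l 16634984) (l 16595648))) (b (l 16594608) (a (l 16577152) (l 16558464))))))), by decide +kernel⟩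

def k5_pm_012 : ∃ t, chk3 f_pm_012 t 16 15 1 = true :=
  ⟨(b (a (a (b (a (b (c (c (l 16717304) (l 16717920)) (l 16717040)) (l 6)) (c (c (l 16713664) (a (l 16725440) (l 16720688))) (b (l 16718800) (l 16716592)))) (l 6)) (a (b (c (c (b (l 16709648) (l 16717912)) (b (l 16688568) (l 16717736))) (b (l 16708840) (l 16716992))) (l 6)) (b (c (c (b (l 16679736) (l 16687848)) (l 16698960)) (c (l 16703424) (l 16702368))) (b (c (c (l 16716744) (l 16695216)) (l 16714912)) (l 6))))) (b (b (c (a (c (l 16687440) (l 16665408)) (c (l 16649064) (l 16647232))) (a (l 16684224) (l 16643880))) (c (a (c (l 16684840) (l 16694232)) (c (l 16656664) (l 16654816))) (a (a (l 16676064) (l 16666184)) (l 16672456)))) (c (b (a (c (a (l 16686616) (l 16677544)) (l 16696696)) (c (l 16685048) (l 16662248))) (a (a (l 6) (a (l 6) (l 16692808))) (c (a (l 16676136) (l 16667080)) (l 16690744)))) (a (a (b (l 16683872) (l 6)) (b (l 16673872) (l 16681632))) (b (c (l 16660152) (l 16657784)) (c (l 16667704) (l 16665400)))))))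 (a (l 6) (a (l 6) (a (l 6) (b (b (b (c (l 16671808) (l 16667328)) (l 6)) (l 6)) (l 6)))))), by decide +kernel⟩

def k6_pm_012 : ∃ t, chk3 f_pm_012 t 17 15 1 = true :=
  ⟨(b (c (b (a (a (c (b (l 16632136) (l 16639456)) (l 16654056)) (c (l 16640024) (l 16615552))) (c (b (l 16591160) (l 16618856)) (a (l 16598280) (l 16581224)))) (a (a (c (b (l 16646584) (l 16653800)) (b (l 16643960) (l 16651208))) (c (b (l 16629480) (l 16636424)) (b (l 16626024) (l 16633016)))) (c (b (l 16625312) (a (l 16619328) (l 16602536))) (a (l 16632656) (l 16594168))))) (a (b (a (b (l 16624856) (l 16632224)) (c (l 16611720) (l 16607544))) (a (b (l 16639488) (l 16667800)) (b (l 16620288) (l 16627392)))) (a (b (l 16612064) (b (l 16601352) (l 16608208))) (b (l 16572744) (c (l 16588768) (l 16583048)))))) (b (c (a (b (a (c (a (l 16665688) (l 16656776)) (l 16658624)) (c (l 16643544) (l 16640160))) (a (a (l 6) (b (l 16661032) (l 6))) (c (l 16661344) (l 16647472)))) (b (c (a (l 16626176) (l 16609112)) (a (l 16621984)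 (l 16604088))) (c (a (l 16633208) (l 16615864)) (a (l 16629024) (l 16610872))))) (a (b (a (c (l 16655800) (l 16652744)) (l 16655592)) (a (c (l 16663376) (l 16660344)) (c (l 16643864) (l 16640032)))) (a (b (l 16615200) (l 16622320)) (b (l 16596040) (l 16602920))))) (a (a (l 6) (a (l 6) (b (b (c (l 16655440) (l 16642584)) (l 6)) (l 6)))) (c (b (c (a (l 16650904) (l 16622792)) (a (l 16636224) (l 16617808))) (a (a (l 6) (c (l 16643296) (l 16638872))) (c (b (l 16628112) (l 16631704)) (l 16624896)))) (b (a (c (l 16631824) (l 16627216)) (l 16620400)) (a (c (l 16649640) (l 16634560)) (c (l 16619696) (l 16614304)))))))), by decide +kernel⟩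

def k7_pm_012 : ∃ t, chk3 f_pm_012 t 18 7 1 = true :=
  ⟨(b (c (b (a (c (b (l 16503600) (l 16517624)) (l 16546008)) (c (l 16520792) (l 16491872))) (b (a (c (l 16532160) (l 16525856)) (c (l 16499744) (l 16491752))) (a (c (l 16568040) (l 16540688)) (c (l 16514072) (l 16506016))))) (b (a (b (l 16486776) (l 16500936)) (b (l 16451392) (l 16464920))) (b (a (l 16515488) (l 16478840)) (a (l 16551264) (l 16493104))))) (b (c (b (a (c (b (l 16558432) (l 16565616)) (l 16576336)) (c (l 16528712) (l 16520544))) (a (c (b (l 16572072) (l 16578160)) (b (l 16565584) (l 16571728))) (c (b (l 16539432) (l 16546000)) (l 16555312)))) (b (a (c (l 16548496) (l 16541264)) (l 16528536)) (a (b (l 16576192) (l 16582480)) (c (l 16525816) (l 16516952))))) (b (b (c (c (a (l 16584360) (l 16552208)) (a (l 16577984) (l 16544040))) (a (c (l 16571344) (l 16564416)) (l 16552208))) (c (c (a (a (l 16599024) (l 16582512)) (l 16558136)) (a (l 16584392) (l 16550008))) (a (c (l 16577824) (l 16570992)) (l 16558288)))) (c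 (b (c (a (a (l 16605680) (l 16588904)) (l 16564160)) (a (l 16601432) (l 16556072))) (c (a (a (l 16612504) (l 16595456)) (a (l 16578664) (l 16562096))) (a (a (l 16606656) (l 16588728)) (l 16572760)))) (b (a (c (l 16584432) (l 16577680)) (c (l 16547760) (l 16539200))) (a (c (a (l 16600608) (l 16581808)) (l 16594960)) (c (l 16554016) (l 16545544)))))))), by decide +kernel⟩

def k8_pm_012 : ∃ t, chk3 f_pm_012 t 19 7 1 = true :=
  ⟨(b (a (c (b (c (l 16486272) (l 16438128)) (c (b (l 16467784) (l 16481496)) (l 16506624))) (b (l 16464552) (b (l 16442680) (l 16456352)))) (b (c (a (c (l 16679720) (l 16414288)) (c (l 16801248) (l 16398680))) (a (l 16396792) (l 16379888))) (c (a (c (l 16450864) (l 16439856)) (c (l 16435472) (l 16423592))) (a (l 16422472) (l 16446824))))) (a (b (c (b (c (l 16495600) (l 16485768)) (c (l 16530296) (l 16499456))) (b (l 16491264) (c (l 16489256) (l 16478720)))) (c (b (c (b (l 16519520) (l 16525944)) (l 16533656)) (c (b (l 16532000) (a (l 16545744) (l 16529856)))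 (b (l 16522120) (l 16527904)))) (b (c (l 16502520) (l 16492064)) (b (c (l 16512008) (l 16501632)) (c (l 16517840) (l 16507552)))))) (a (b (c (b (l 16486848) (c (l 16484768) (l 16473584))) (b (l 16442824) (l 16456184))) (c (b (c (l 16498040) (l 16486832)) (c (l 16531944) (l 16499728))) (b (l 16469488) (c (l 16488256) (l 16476544))))) (b (c (c (b (l 16455568) (l 16468616)) (l 16491760)) (b (l 16424768) (l 16437848))) (c (b (c (l 16481632) (l 16469552)) (c (l 16515720) (l 16482608))) (b (l 16450912) (c (l 16470248) (l 16457656)))))))), by decide +kernel⟩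

def k9_pm_012 : ∃ t, chk3 f_pm_012 t 10 6 1 = true :=
  ⟨(a (a (b (c (b (l 17614952) (c (l 17665536) (l 17298824))) (b (a (l 16924384) (l 16978584)) (a (l 16704856) (l 16770616)))) (c (b (c (l 17511232) (l 17092512)) (a (c (l 17250560) (l 16758456)) (l 16883736))) (b (a (l 16411080) (l 16492992)) (a (l 16340824) (l 16327352))))) (b (c (a (l 17629704) (a (l 17665840) (b (l 17739728) (l 17631208)))) (a (b (l 17031376) (l 16834504)) (a (l 16940080) (b (l 17095312) (a (l 16904088) (l 16919208)))))) (c (a (b (l 17404032) (l 17031016)) (a (b (l 17452344) (l 17238688)) (b (l 17483744) (c (l 17509120) (l 17045448))))) (a (b (l 16572344) (l 16314312)) (a (b (l 16630192) (l 16305264)) (b (a (l 16658584) (l 16677320)) (l 16378752))))))) (b (c (a (l 17745360) (l 17830568)) (a (b (l 17156632) (l 16985696)) (b (l 17250864) (l 17098280)))) (c (a (b (l 17558848) (l 17246952)) (b (l 17671408) (l 17513344))) (b (a (l 16759672) (l 16897824)) (a (l 16453888) (l 16628672)))))), by decide +kernel⟩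

def k10_pm_012 : ∃ t, chk3 f_pm_012 t 20 7 1 = true :=
  ⟨(a (b (b (c (c (a (l 16917000) (l 17027176)) (l 16454160)) (a (l 16363560) (l 16348720))) (c (c (a (l 16420736) (l 16559936)) (a (l 16407880) (l 16393680))) (b (l 16416280) (l 16449464)))) (b (c (b (c (l 16454728) (l 16441144)) (c (l 16488032) (l 16453488))) (b (a (l 16407120) (l 16390464)) (a (l 16419856) (l 16402736)))) (c (b (c (a (l 16465640) (l 16450664)) (l 16486856)) (c (a (l 16478528) (l 16463096)) (a (l 16465480) (l 16449040)))) (a (b (l 16432616) (c (l 16452216) (l 16438728))) (b (l 16415072) (l 16448536)))))) (b (b (a (c (c (l 17131872) (l 16569592)) (l 16334296)) (c (a (l 16742768) (a (l 16802528) (c (l 17267272) (l 16722320)))) (a (l 16324056) (a (l 16319120) (l 16316032))))) (c (a (c (l 16704816) (l 16379800)) (a (c (l 16807880) (l 16369944)) (c (a (l 16857680) (l 16890296)) (l 16405376)))) (a (l 16356256) (a (l 16345040) (a (l 16339592) (l 16336120)))))) (b (c (a (c (l 16439312) (l 16403152)) (a (c (l 16408472)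 (l 16392400)) (c (b (l 16452856) (l 16428584)) (a (l 16387176) (l 16383848))))) (a (b (l 16374104) (l 16385904)) (a (l 16367752) (b (l 16396336) (l 16428440))))) (c (c (a (b (l 16436008) (l 16447960)) (a (b (l 16425448) (l 16436984)) (b (l 16439456) (a (l 16431632) (l 16428184))))) (a (b (l 16420896) (l 16432872)) (a (l 16457040) (b (l 16422928) (l 16455224))))) (a (b (l 16397784) (l 16430840)) (b (a (l 16385152) (a (l 16378944) (l 16374928))) (a (l 16396896) (a (l 16390504) (l 16386352))))))))), by decide +kernel⟩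

def k11_pm_012 : ∃ t, chk3 f_pm_012 t 21 7 1 = true :=
  ⟨(b (c (b (a (c (l 17370984) (l 16840048)) (c (l 17540576) (l 17033176))) (a (c (b (l 17130032) (l 16920904)) (l 16392816)) (c (l 17258296) (l 16654080)))) (b (a (l 16303320) (l 16280328)) (a (l 16342400) (l 16295200)))) (b (c (c (a (b (l 16658736) (l 16393248)) (b (l 16952064) (l 16680600))) (a (l 16390608) (l 16344640))) (a (b (l 16336896) (l 16347144)) (l 16375712))) (c (a (b (c (l 16403176) (l 16385072)) (c (l 16413464) (l 16395496))) (c (b (l 16378688) (l 16387640)) (b (l 16358032) (l 16367216)))) (a (b (l 16357584) (l 16410240)) (b (l 16326824) (l 16357400)))))), by decide +kernel⟩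

def k12_pm_012 : ∃ t, chk3 f_pm_012 t 11 3 1 = true :=
  ⟨(b (a (b (c (l 17944120) (a (l 17276064) (l 17365680))) (c (b (l 17821488) (c (l 17904264) (l 17493768))) (b (a (l 17026056) (l 17145152)) (a (l 16789688) (l 16937648))))) (b (c (l 18072120) (b (l 17533680) (l 17435976))) (c (b (l 17991512) (l 17908648)) (b (l 17307992) (a (l 17073496) (l 17198632)))))) (b (a (c (b (a (l 17367264) (l 17597928)) (a (c (l 17459480) (l 16886896)) (c (l 17637584) (l 17094432)))) (b (a (l 16466240) (l 16656192)) (a (l 16272096) (l 16263880)))) (c (b (l 17790008) (c (l 17866968) (l 17364496))) (b (a (l 16828992) (l 16986064)) (a (l 16490688) (l 16694808))))) (b (a (c (c (a (b (l 17208104) (l 16986904)) (l 17346912)) (a (l 16410680) (l 16696192))) (a (l 16307416) (l 16263120))) (c (c (a (l 17559064) (l 17744392)) (a (l 16946784) (l 17167304))) (b (l 16278808) (l 16258128)))) (a (c (c (b (a (l 16706928) (l 17025472)) (a (l 16364456) (l 16737816))) (a (l 16379096) (l 16314848))) (a (b (l 16298448)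 (l 16306744)) (b (l 16272680) (l 16279520)))) (c (c (a (b (l 17299008) (l 17067920)) (l 17258648)) (b (a (l 16591600) (l 16873272)) (l 16352296))) (a (b (l 16249896) (l 16255040)) (l 16252904))))))), by decide +kernel⟩

def k13_pm_012 : ∃ t, chk3 f_pm_012 t 3 1 1 = true :=
  ⟨(b (a (a (a (b (l 2) (b (l 2) (l 17937944))) (l 2)) (l 2)) (l 2)) (a (b (a (b (c (a (l 18174000) (l 18251368)) (a (l 17628376) (l 17743272))) (c (a (l 18105248) (l 18221504)) (a (b (l 17494880) (l 17368072)) (l 17607448)))) (b (a (l 18074552) (l 2)) (a (c (l 18306440) (l 17745176)) (c (l 18365864) (l 17851976))))) (a (b (c (a (b (l 18000608) (l 17886704)) (b (l 18166512) (l 18097952))) (a (b (a (l 17128936) (l 17259608)) (a (l 16878576) (l 17044120))) (b (l 17435168) (l 17033152)))) (a (c (b (c (l 17979552) (l 17450152)) (c (a (l 17668960) (l 17860312)) (a (l 16935488) (l 17251608)))) (b (a (l 16528520) (l 16745944)) (c (l 16291344) (l 16212168)))) (c (b (l 17991184) (c (l 18100024) (l 17441416))) (b (a (l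 16940368) (l 17114464)) (a (l 16350360) (l 16644032)))))) (b (c (a (l 18278120) (l 18378000)) (a (b (l 17630008) (l 17511392)) (b (l 17783504) (l 17710072)))) (c (a (b (l 18202232) (l 18104032)) (b (l 18359824) (l 18314520))) (a (b (a (l 17270880) (l 17412360)) (a (l 16995904) (l 17199240))) (b (l 17599704) (a (l 17361792) (l 17508128)))))))) (a (b (a (b (l 2) (l 18179216)) (l 2)) (b (a (c (l 18452568) (l 17877472)) (l 18245848)) (a (c (l 18469832) (b (l 17788208) (l 17682912))) (c (l 18559368) (l 17893824))))) (b (l 2) (b (l 18329184) (c (l 18646856) (l 18051960))))))), by decide +kernel⟩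

theorem s14_pm_012 : ∃ t, chk3 f_pm_012 t 10 7 1 = true := ex3_a k10_pm_012 k11_pm_012

theorem s15_pm_012 : ∃ t, chk3 f_pm_012 t 10 3 1 = true := ex3_b k9_pm_012 s14_pm_012

theorem s16_pm_012 : ∃ t, chk3 f_pm_012 t 5 3 1 = true := ex3_a s15_pm_012 k12_pm_012

theorem s17_pm_012 : ∃ t, chk3 f_pm_012 t 9 7 1 = true := ex3_a k7_pm_012 k8_pm_012

theorem s18_pm_012 : ∃ t, chk3 f_pm_012 t 8 15 1 = true := ex3_a k5_pm_012 k6_pm_012

theorem s19_pm_012 : ∃ t, chk3 f_pm_012 t 8 7 1 = true := ex3_b k4_pm_012 s18_pm_012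

theorem s20_pm_012 : ∃ t, chk3 f_pm_012 t 4 7 1 = true := ex3_a s19_pm_012 s17_pm_012

theorem s21_pm_012 : ∃ t, chk3 f_pm_012 t 4 6 1 = true := ex3_a k2_pm_012 k3_pm_012

theorem s22_pm_012 : ∃ t, chk3 f_pm_012 t 4 3 1 = true := ex3_b s21_pm_012 s20_pm_012

theorem s23_pm_012 : ∃ t, chk3 f_pm_012 t 2 3 1 = true := ex3_a s22_pm_012 s16_pm_012

theorem s24_pm_012 : ∃ t, chk3 f_pm_012 t 2 2 1 = true := ex3_a k0_pm_012 k1_pm_012

theorem s25_pm_012 : ∃ t, chk3 f_pm_012 t 2 1 1 = true := ex3_b s24_pm_012 s23_pm_012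

theorem s26_pm_012 : ∃ t, chk3 f_pm_012 t 1 1 1 = true := ex3_a s25_pm_012 k13_pm_012

theorem c_pm_012 : CertN 0 536870912 536870912 536870912 201326592 134217728 3 true true false .pnp 0 1 2
    ndN0q0 ndN4q1 pcN2 cut_pm_012 Ext.none :=
  certN2 (fam := true) (s1 := true) (s2 := false) (a := 0) (b := 1) (c := 2) (cn := .pnp) (n1 := ndN0q0) (n2 := ndN4q1) (pc := pcN2) (cut := cut_pm_012) (xt := Ext.none) (P1 := 0) (W1 := 536870912) (P2 := 536870912) (W2 := 536870912) (P3 := 201326592) (W3 := 134217728) (N0 := 3)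
    rfl (fun _ => rfl) s26_pm_012

noncomputable def f_pm_022 : ℕ → ℕ → ℕ → ℕ → Bool := onCell 0 536870912 1073741824 536870912 201326592 134217728
    (rowN 3 1 true true false .pp 0 2 2 (qsf 0 536870912 1073741824 536870912 2) ndN0q0 ndN4q2 pcN2 Cut.none Ext.none)

def k0_pm_022 : ∃ t, chk3 f_pm_022 t 1 2 1 = true :=
  ⟨(b (a (l 3) (l 1)) (a (b (b (b (a (l 3) (l 3)) (b (a (l 3) (a (a (b (l 3) (c (l 16480112) (l 16465728))) (l 1)) (l 1))) (a (b (a (c (a (l 3) (l 16489256)) (l 109152010247)) (c (a (l 16492992) (l 16498024)) (b (l 16483488) (l 16481264)))) (b (a (c (b (l 173576503015) (l 16482968)) (b (l 16453176) (l 16451424))) (c (a (l 16489448) (l 16494576)) (b (l 16478968) (l 16477288)))) (a (c (l 16480544) (l 16448824)) (c (l 16488472) (l 16474800))))) (a (a (b (c (l 16499832) (l 16462312)) (b (c (l 16517408) (l 16479128)) (c (l 16472384) (l 16454880)))) (b (l 1) (b (l 1) (c (l 16471848) (l 16451648))))) (l 1))))) (a (a (c (c (a (l 16455792) (l 16437728)) (a (l 16417968) (l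 16431096))) (a (l 16419024) (l 16421256))) (c (a (l 16460056) (l 16466160)) (c (l 16471976) (l 16464264)))) (a (c (a (l 16468904) (c (l 16453864) (l 16442408))) (a (l 16428320) (l 16425720))) (a (c (l 32782114535) (l 16422648)) (l 1))))) (a (a (c (b (a (l 16402192) (l 16406136)) (a (l 16510104) (l 16523760))) (a (l 16401960) (l 16405808))) (c (a (b (l 16391240) (l 16537504)) (b (l 16398984) (l 16553712))) (a (b (l 16372872) (l 16323416)) (l 16416848)))) (a (c (a (b (l 16403232) (l 16573448)) (b (l 16425720) (l 16596288))) (a (l 16419160) (b (l 16378352) (l 16333016)))) (c (a (b (l 19360254887) (l 16518824)) (b (l 16449912) (c (l 16949368) (l 16359968)))) (b (a (l 16376536) (l 16374488)) (a (l 16332536) (l 16331888))))))) (b (l 1) (a (a (a (b (l 1) (c (l 62309909399) (l 16331336))) (l 1)) (l 1)) (l 1))))), by decide +kernel⟩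

def k1_pm_022 : ∃ t, chk3 f_pm_022 t 1 3 1 = true :=
  ⟨(a (a (b (b (a (c (b (l 16927888) (l 17239512)) (b (l 16266128) (l 16293664))) (c (b (l 16949536) (l 17252872)) (b (l 16280144) (l 16329456)))) (a (c (l 17580800) (l 16762448)) (c (l 17580744) (l 16787288)))) (c (b (l 17872056) (l 18054184)) (a (b (l 17188288) (l 17470224)) (l 17343680)))) (b (b (a (c (b (a (l 16973320) (l 16993728)) (l 17278368)) (b (l 16288696) (l 16366584))) (c (b (a (l 17018272) (l 16901208)) (l 17109576)) (a (l 16291688) (l 16335224)))) (c (a (l 17593056) (l 17620408)) (a (l 16815712) (b (l 16721544) (l 16963728))))) (c (b (l 17863800) (l 18016240)) (b (a (l 17210976) (l 17232456)) (l 17466296))))) (b (a (b (b (a (c (a (c (l 17335880) (l 16824672)) (l 124587782519)) (a (l 16292520) (l 16294448))) (l 1)) (c (a (c (l 17601888) (l 22582642711)) (l 168074988215)) (a (a (l 16448376) (l 16329112)) (a (l 16478616) (l 1))))) (c (a (b (l 17583992) (l 17735680)) (b (l 171296676359) (l 17794088))) (a (b (a (l 16757184)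 (l 16786608)) (l 17005864)) (b (a (l 16569104) (l 16753888)) (a (l 17049840) (l 17084392)))))) (b (l 1) (a (c (l 227668849895) (a (l 154115500919) (l 1))) (l 1)))) (a (a (c (l 17967472) (b (l 17263344) (l 17487576))) (c (l 17998840) (b (b (l 17238904) (l 17371424)) (l 17515600)))) (c (a (b (l 17995008) (l 18079360)) (l 236796775159)) (a (b (a (l 17359696) (l 186865425399)) (l 17562336)) (b (l 237868882695) (l 17634400))))))), by decide +kernel⟩

theorem s2_pm_022 : ∃ t, chk3 f_pm_022 t 1 1 1 = true := ex3_b k0_pm_022 k1_pm_022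

theorem c_pm_022 : CertN 0 536870912 1073741824 536870912 201326592 134217728 3 true true false .pp 0 2 2
    ndN0q0 ndN4q2 pcN2 Cut.none Ext.none :=
  certN1 (fam := true) (s1 := true) (s2 := false) (a := 0) (b := 2) (c := 2) (cn := .pp) (n1 := ndN0q0) (n2 := ndN4q2) (pc := pcN2) (cut := Cut.none) (xt := Ext.none) (P1 := 0) (W1 := 536870912) (P2 := 1073741824) (W2 := 536870912) (P3 := 201326592) (W3 := 134217728) (N0 := 3)
    rfl (fun _ => rfl) s2_pm_022

noncomputable def f_pm_023 : ℕ → ℕ → ℕ → ℕ → Bool := onCell 0 536870912 1073741824 536870912 201326592 134217728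
    (rowN 3 0 true true false .up 0 2 3 (qsf 0 536870912 1073741824 536870912 3) ndN0q0 ndN4q2 pcN3 Cut.none Ext.none)

def k0_pm_023 : ∃ t, chk3 f_pm_023 t 1 1 1 = true :=
  ⟨(a (a (b (l 1) (b (l 222299333111) (l 261491315031))) (b (b (l 1) (l 212098824935)) (b (l 258270026151) (l 17936304)))) (b (c (a (l 237869789911) (b (l 246460452231) (l 18057784))) (a (l 225520652327) (b (l 245385870743) (l 17717624)))) (a (b (l 17911384) (l 17877776)) (b (l 17813104) (a (l 17750144) (b (l 17664624) (a (l 17620776) (b (l 17574408) (a (l 17550240) (b (l 17527000) (l 17505968))))))))))), by decide +kernel⟩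

theorem c_pm_023 : CertN 0 536870912 1073741824 536870912 201326592 134217728 3 true true false .up 0 2 3
    ndN0q0 ndN4q2 pcN3 Cut.none Ext.none :=
  certN0 (fam := true) (s1 := true) (s2 := false) (a := 0) (b := 2) (c := 3) (cn := .up) (n1 := ndN0q0) (n2 := ndN4q2) (pc := pcN3) (cut := Cut.none) (xt := Ext.none) (P1 := 0) (W1 := 536870912) (P2 := 1073741824) (W2 := 536870912) (P3 := 201326592) (W3 := 134217728) (N0 := 3)
    rfl k0_pm_023

noncomputable def f_pm_033 : ℕ → ℕ → ℕ → ℕ → Bool := onCell 1610612736 536870912 0 1230186008 201326592 134217728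
    (rowN 3 2 true true false .pnn 0 3 3 (qsf 0 536870912 0 1230186008 3) ndN0q0 ndN4q3 pcN3 Cut.none Ext.none)

def k0_pm_033 : ∃ t, chk3 f_pm_033 t 1 1 1 = true :=
  ⟨(a (b (l 1) (b (b (l 1) (a (l 1) (a (l 1) (b (l 1) (l 17805400))))) (b (a (l 1) (a (b (l 17951616) (l 17913576)) (b (l 17806200) (l 17786064)))) (a (b (l 280819883383) (c (l 17945672) (l 17705488))) (b (a (l 17817992) (l 17720176)) (c (l 17716992) (l 17594528))))))) (b (a (l 1) (a (b (l 1) (l 17647816)) (l 4))) (a (b (a (b (l 1) (b (l 17735568) (l 17939168))) (b (a (l 17698904) (l 17632512)) (l 17855768))) (b (c (a (l 17915296) (l 17578288)) (a (l 17725088) (l 17509064))) (b (a (l 17609968) (l 17640584)) (a (l 17521552) (l 17415544))))) (b (a (b (l 17549656) (l 17488360)) (a (l 17452184) (l 4))) (a (b (c (l 17449736) (l 17474712)) (b (l 17370712) (l 17298176))) (b (a (l 17349424) (a (l 17313864) (a (l 17302280) (l 4)))) (a (b (l 17284056) (l 17199000)) (a (l 17192800) (a (l 17168496) (l 17362656)))))))))), by decide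 +kernel⟩

theorem c_pm_033 : CertN 0 536870912 0 1230186008 201326592 134217728 3 true true false .pnn 0 3 3
    ndN0q0 ndN4q3 pcN3 Cut.none Ext.none :=
  certN2 (fam := true) (s1 := true) (s2 := false) (a := 0) (b := 3) (c := 3) (cn := .pnn) (n1 := ndN0q0) (n2 := ndN4q3) (pc := pcN3) (cut := Cut.none) (xt := Ext.none) (P1 := 0) (W1 := 536870912) (P2 := 0) (W2 := 1230186008) (P3 := 201326592) (W3 := 134217728) (N0 := 3)
    rfl (fun _ => rfl) k0_pm_033

noncomputable def f_pm_101 : ℕ → ℕ → ℕ → ℕ → Bool := onCell 536870912 536870912 536870912 536870912 201326592 134217728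
    (rowN 3 1 true true false .npn 1 0 1 (qsf 536870912 536870912 0 536870912 1) ndN0q1 ndN4q0 pcN1 Cut.none Ext.none)

def k0_pm_101 : ∃ t, chk3 f_pm_101 t 1 1 1 = true :=
  ⟨(a (b (a (l 3) (b (a (b (l 1) (l 3)) (l 1)) (l 3))) (b (a (b (l 3) (a (b (l 3) (c (l 183778897847) (a (c (l 17178272) (l 90899645831)) (l 17200312)))) (c (a (b (l 3) (l 17231128)) (l 147808088615)) (b (a (l 3) (l 17145928)) (l 132775751303))))) (b (a (l 3) (b (l 3) (c (l 142976441415) (l 124722768631)))) (a (b (c (l 148345088487) (l 126870176791)) (c (l 17312840) (l 17229088))) (c (b (l 17352624) (l 17396352)) (b (l 17247320) (l 17280776)))))) (a (b (a (c (b (l 17354608) (l 17290200)) (b (a (l 17200208) (l 17198272)) (l 17230488))) (c (b (l 17286816) (l 17325152)) (b (l 17215992) (l 17245512)))) (c (a (l 17349624) (l 17379712)) (a (l 17280960) (l 17287712)))) (c (a (b (l 17370672) (l 17437480)) (b (l 17452368) (l 17514512))) (b (a (l 17273328) (l 17325112)) (a (l 17323424) (l 17373216))))))) (b (a (b (l 1)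 (a (b (l 1) (l 3)) (l 1))) (l 1)) (a (a (b (b (b (l 3) (c (l 148345461431) (l 95731814263))) (c (l 17450560) (b (l 17287600) (l 17320920)))) (b (c (l 17527864) (l 17367608)) (l 17506720))) (b (b (b (l 1) (c (l 351148711207) (l 303366716071))) (c (l 17512696) (b (l 17306224) (l 17337352)))) (b (c (l 17578664) (l 17386272)) (l 17545920)))) (a (b (b (l 1) (c (l 383361273495) (l 356517345815))) (b (c (l 17610936) (l 17385400)) (l 17556352))) (b (l 1) (b (c (l 17612848) (l 17352600)) (l 17542040))))))), by decide +kernel⟩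

theorem c_pm_101 : CertN 536870912 536870912 0 536870912 201326592 134217728 3 true true false .npn 1 0 1
    ndN0q1 ndN4q0 pcN1 Cut.none Ext.none :=
  certN1 (fam := true) (s1 := true) (s2 := false) (a := 1) (b := 0) (c := 1) (cn := .npn) (n1 := ndN0q1) (n2 := ndN4q0) (pc := pcN1) (cut := Cut.none) (xt := Ext.none) (P1 := 536870912) (W1 := 536870912) (P2 := 0) (W2 := 536870912) (P3 := 201326592) (W3 := 134217728) (N0 := 3)
    rfl (fun _ => rfl) k0_pm_101

noncomputable def f_pm_102 : ℕ → ℕ → ℕ → ℕ → Bool := onCell 536870912 536870912 1073741824 536870912 201326592 134217728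
    (rowN 3 1 true true false .npp 1 0 2 (qsf 536870912 536870912 0 536870912 2) ndN0q1 ndN4q0 pcN2 Cut.none Ext.none)

def k0_pm_102 : ∃ t, chk3 f_pm_102 t 1 1 1 = true :=
  ⟨(a (b (a (b (a (b (c (l 17450048) (l 17381776)) (b (l 17437784) (l 2))) (b (c (l 17476024) (l 17365016)) (b (l 17438808) (b (l 17440192) (l 17437560))))) (b (b (b (a (l 2) (l 17435128)) (l 2)) (l 2)) (l 2))) (b (a (b (c (l 17546976) (l 17413240)) (b (l 17488224) (b (l 17485336) (l 17480192)))) (b (l 17571240) (b (l 17564752) (b (l 17559712) (l 17553432))))) (b (b (b (c (l 17566688) (l 17435176)) (a (b (l 17468560) (l 17463808)) (l 17559736))) (c (l 17525184) (l 17409968))) (a (b (l 17416664) (l 2)) (l 19429942487))))) (b (a (l 2) (b (c (l 17389840) (l 17318664)) (l 2))) (l 2))) (b (a (b (b (c (l 17800816) (l 17760400)) (b (l 17924576) (b (l 17689112) (l 17746264)))) (b (b (b (l 17677528) (c (l 17741856) (l 17585464))) (l 17648872)) (b (l 17625136) (l 17597536)))) (b (b (c (l 17963800) (l 17770064)) (b (l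 17825488) (b (l 17829536) (l 17828024)))) (b (b (b (l 17825792) (a (l 17783408) (l 17852720))) (l 17810136)) (a (l 17739792) (l 17822488))))) (b (a (b (c (l 17581456) (l 17502864)) (l 17729072)) (b (a (l 17694464) (l 17770536)) (l 17662328))) (a (b (l 17535280) (l 2)) (b (l 17570320) (l 17454816)))))), by decide +kernel⟩

theorem c_pm_102 : CertN 536870912 536870912 0 536870912 201326592 134217728 3 true true false .npp 1 0 2
    ndN0q1 ndN4q0 pcN2 Cut.none Ext.none :=
  certN1 (fam := true) (s1 := true) (s2 := false) (a := 1) (b := 0) (c := 2) (cn := .npp) (n1 := ndN0q1) (n2 := ndN4q0) (pc := pcN2) (cut := Cut.none) (xt := Ext.none) (P1 := 536870912) (W1 := 536870912) (P2 := 0) (W2 := 536870912) (P3 := 201326592) (W3 := 134217728) (N0 := 3)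
    rfl (fun _ => rfl) k0_pm_102

noncomputable def f_pm_112 : ℕ → ℕ → ℕ → ℕ → Bool := onCell 536870912 536870912 1073741824 536870912 201326592 134217728
    (rowN 3 1 true true false .dn 1 1 2 (qsf 536870912 536870912 536870912 536870912 2) ndN0q1 ndN4q1 pcN2 Cut.none Ext.none)

def k0_pm_112 : ∃ t, chk3 f_pm_112 t 1 1 1 = true :=
  ⟨(a (b (a (b (a (b (c (l 17739472) (b (l 17313592) (l 17369784))) (b (c (l 17848592) (l 17425992)) (b (l 17603608) (c (l 17936584) (l 17494216))))) (b (c (l 17851952) (l 156264193111)) (b (l 17628384) (b (l 17797496) (c (l 18025296) (l 17617736)))))) (b (b (b (c (l 18014592) (a (l 17521128) (l 17642016))) (b (c (l 18035168) (l 17602552)) (c (l 18237392) (a (l 17551912) (l 17669056))))) (c (l 18073136) (a (l 17577144) (l 17689792)))) (b (c (l 18122664) (a (l 17624792) (l 17729920))) (c (l 18170128) (l 17723888))))) (a (b (b (l 1) (b (l 1) (b (l 1) (l 17918608)))) (b (b (b (l 17939960) (c (l 18150744) (l 17763752))) (l 17977368)) (c (l 18208176) (l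 17825360)))) (b (l 1) (b (b (l 1) (l 18052216)) (l 18141848))))) (b (b (a (b (c (l 18217072) (l 17766376)) (c (l 18263064) (l 17808744))) (c (l 18281032) (l 17912304))) (a (c (l 18327512) (b (l 17851296) (l 17894792))) (c (l 18318632) (l 17953624)))) (b (a (b (c (l 18407368) (l 17944992)) (c (l 18474432) (l 17998744))) (c (l 18379848) (l 18009704))) (a (c (l 18572392) (l 18076584)) (l 18265784))))) (b (a (b (l 1) (b (l 1) (l 236260030615))) (l 1)) (b (a (b (l 18175800) (l 18184376)) (b (l 1) (l 18205896))) (b (a (l 18207368) (l 18169744)) (a (l 18222104) (l 18118392)))))), by decide +kernel⟩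

theorem c_pm_112 : CertN 536870912 536870912 536870912 536870912 201326592 134217728 3 true true false .dn 1 1 2
    ndN0q1 ndN4q1 pcN2 Cut.none Ext.none :=
  certN1 (fam := true) (s1 := true) (s2 := false) (a := 1) (b := 1) (c := 2) (cn := .dn) (n1 := ndN0q1) (n2 := ndN4q1) (pc := pcN2) (cut := Cut.none) (xt := Ext.none) (P1 := 536870912) (W1 := 536870912) (P2 := 536870912) (W2 := 536870912) (P3 := 201326592) (W3 := 134217728) (N0 := 3)
    rfl (fun _ => rfl) k0_pm_112

noncomputable def f_pm_113 : ℕ → ℕ → ℕ → ℕ → Bool := onCell 536870912 536870912 1610612736 536870912 201326592 134217728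
    (rowN 3 1 true true false .nn 1 1 3 (qsf 536870912 536870912 536870912 536870912 3) ndN0q1 ndN4q1 pcN3 Cut.none Ext.none)

def k0_pm_113 : ∃ t, chk3 f_pm_113 t 1 1 1 = true :=
  ⟨(b (a (b (a (c (a (l 18706104) (l 18499080)) (a (l 18277624) (l 18170168))) (a (l 18416960) (b (l 18055064) (l 18125856)))) (a (a (l 2) (c (l 18752840) (l 18373256))) (b (c (l 18369488) (l 18126680)) (a (l 18422264) (l 18239456))))) (b (a (b (c (l 17982824) (l 17871528)) (c (l 18040520) (l 17899232))) (b (l 17883224) (c (l 17956608) (l 17780904)))) (a (b (l 18008944) (l 18206840)) (b (a (l 17881552) (l 17795680)) (a (l 17846088) (l 4)))))) (b (a (a (l 2) (b (a (l 2) (l 18280640)) (l 2))) (a (b (l 18237904) (l 18017264)) (l 4))) (a (l 2) (l 4)))), by decide +kernel⟩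

theorem c_pm_113 : CertN 536870912 536870912 536870912 536870912 201326592 134217728 3 true true false .nn 1 1 3
    ndN0q1 ndN4q1 pcN3 Cut.none Ext.none :=
  certN1 (fam := true) (s1 := true) (s2 := false) (a := 1) (b := 1) (c := 3) (cn := .nn) (n1 := ndN0q1) (n2 := ndN4q1) (pc := pcN3) (cut := Cut.none) (xt := Ext.none) (P1 := 536870912) (W1 := 536870912) (P2 := 536870912) (W2 := 536870912) (P3 := 201326592) (W3 := 134217728) (N0 := 3)
    rfl (fun _ => rfl) k0_pm_113

noncomputable def f_pm_123 : ℕ → ℕ → ℕ → ℕ → Bool := onCell 536870912 536870912 1610612736 536870912 201326592 134217728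
    (rowN 3 1 true true false .npn 1 2 3 (qsf 536870912 536870912 1073741824 536870912 3) ndN0q1 ndN4q2 pcN3 Cut.none Ext.none)

def k0_pm_123 : ∃ t, chk3 f_pm_123 t 1 1 1 = true :=
  ⟨(b (a (a (a (b (l 17943288) (l 17835760)) (b (l 18000584) (l 17849592))) (b (a (l 249144766823) (l 1)) (a (l 17879424) (l 18039856)))) (b (l 1) (a (a (b (l 1) (l 17732064)) (l 1)) (l 1)))) (b (a (a (a (l 17699120) (l 17675024)) (a (b (l 17716968) (l 17603192)) (b (l 17665240) (l 17548624)))) (a (b (a (l 17611088) (l 17591640)) (a (l 17498824) (l 17480144))) (b (l 1) (c (l 17479584) (l 209414591879))))) (a (b (a (l 17559216) (l 17591544)) (b (a (l 17494464) (l 17392368)) (a (b (l 17462632) (b (l 17446544) (l 17436080))) (b (l 17355480) (b (l 17344632) (l 17346424)))))) (b (a (c (l 17508488) (l 17566608)) (l 110093704423)) (b (a (l 17302488) (l 17298880)) (a (b (l 17277376) (l 4)) (l 4))))))), by decide +kernel⟩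

theorem c_pm_123 : CertN 536870912 536870912 1073741824 536870912 201326592 134217728 3 true true false .npn 1 2 3
    ndN0q1 ndN4q2 pcN3 Cut.none Ext.none :=
  certN1 (fam := true) (s1 := true) (s2 := false) (a := 1) (b := 2) (c := 3) (cn := .npn) (n1 := ndN0q1) (n2 := ndN4q2) (pc := pcN3) (cut := Cut.none) (xt := Ext.none) (P1 := 536870912) (W1 := 536870912) (P2 := 1073741824) (W2 := 536870912) (P3 := 201326592) (W3 := 134217728) (N0 := 3)
    rfl (fun _ => rfl) k0_pm_123

noncomputable def f_pm_133 : ℕ → ℕ → ℕ → ℕ → Bool := onCell 536870912 536870912 0 1230186008 201326592 134217728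
    (rowN 3 0 true true false .dn 1 3 3 (qsf 536870912 536870912 0 1230186008 3) ndN0q1 ndN4q3 pcN3 Cut.none Ext.none)

def k0_pm_133 : ∃ t, chk3 f_pm_133 t 1 1 1 = true :=
  ⟨(b (l 2) (b (l 2) (a (b (l 2) (a (b (l 2) (a (l 16957888) (l 2))) (l 2))) (l 2)))), by decide +kernel⟩

theorem c_pm_133 : CertN 536870912 536870912 0 1230186008 201326592 134217728 3 true true false .dn 1 3 3
    ndN0q1 ndN4q3 pcN3 Cut.none Ext.none :=
  certN0 (fam := true) (s1 := true) (s2 := false) (a := 1) (b := 3) (c := 3) (cn := .dn) (n1 := ndN0q1) (n2 := ndN4q3) (pc := pcN3) (cut := Cut.none) (xt := Ext.none) (P1 := 536870912) (W1 := 536870912) (P2 := 0) (W2 := 1230186008) (P3 := 201326592) (W3 := 134217728) (N0 := 3)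
    rfl k0_pm_133

noncomputable def f_pm_202 : ℕ → ℕ → ℕ → ℕ → Bool := onCell 0 536870912 1073741824 536870912 201326592 134217728
    (rowN 3 1 true true false .pp 2 0 2 (qsf 0 536870912 0 536870912 2) ndN0q2 ndN4q0 pcN2 Cut.none Ext.none)

def k0_pm_202 : ∃ t, chk3 f_pm_202 t 1 1 1 = true :=
  ⟨(a (b (b (a (l 1) (a (l 1) (b (l 1) (b (l 1) (l 17750320))))) (b (a (b (l 17694672) (l 17734592)) (b (l 17782376) (l 17819968))) (a (l 17732064) (l 17852152)))) (b (b (l 17862192) (l 17574576)) (l 4))) (b (a (b (b (l 1) (b (a (l 1) (b (l 17799416) (l 17836048))) (a (l 17813888) (l 17875928)))) (b (l 17908912) (l 17931416))) (b (a (b (c (l 17879352) (l 159486278887)) (b (l 17886152) (l 17942984))) (b (c (l 18026048) (l 17694304)) (b (l 17925768) (l 17914776)))) (b (b (a (l 17978136) (l 17910352)) (l 17907840)) (l 17872376)))) (b (a (l 17926080) (l 17854184)) (b (l 17720384) (l 17464896))))), by decide +kernel⟩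

theorem c_pm_202 : CertN 0 536870912 0 536870912 201326592 134217728 3 true true false .pp 2 0 2
    ndN0q2 ndN4q0 pcN2 Cut.none Ext.none :=
  certN1 (fam := true) (s1 := true) (s2 := false) (a := 2) (b := 0) (c := 2) (cn := .pp) (n1 := ndN0q2) (n2 := ndN4q0) (pc := pcN2) (cut := Cut.none) (xt := Ext.none) (P1 := 0) (W1 := 536870912) (P2 := 0) (W2 := 536870912) (P3 := 201326592) (W3 := 134217728) (N0 := 3)
    rfl (fun _ => rfl) k0_pm_202

noncomputable def f_pm_203 : ℕ → ℕ → ℕ → ℕ → Bool := onCell 0 536870912 1610612736 536870912 201326592 134217728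
    (rowN 3 1 true true false .up 2 0 3 (qsf 0 536870912 0 536870912 3) ndN0q2 ndN4q0 pcN3 Cut.none Ext.none)

def k0_pm_203 : ∃ t, chk3 f_pm_203 t 1 1 1 = true :=
  ⟨(b (b (a (l 4) (a (l 4) (b (a (l 17328616) (l 17321800)) (l 65063418455)))) (l 4)) (l 2)), by decide +kernel⟩

theorem c_pm_203 : CertN 0 536870912 0 536870912 201326592 134217728 3 true true false .up 2 0 3
    ndN0q2 ndN4q0 pcN3 Cut.none Ext.none :=
  certN1 (fam := true) (s1 := true) (s2 := false) (a := 2) (b := 0) (c := 3) (cn := .up) (n1 := ndN0q2) (n2 := ndN4q0) (pc := pcN3) (cut := Cut.none) (xt := Ext.none) (P1 := 0) (W1 := 536870912) (P2 := 0) (W2 := 536870912) (P3 := 201326592) (W3 := 134217728) (N0 := 3)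
    rfl (fun _ => rfl) k0_pm_203

noncomputable def f_pm_213 : ℕ → ℕ → ℕ → ℕ → Bool := onCell 0 536870912 1610612736 536870912 201326592 134217728
    (rowN 3 1 true true false .pnn 2 1 3 (qsf 0 536870912 536870912 536870912 3) ndN0q2 ndN4q1 pcN3 Cut.none Ext.none)

def k0_pm_213 : ∃ t, chk3 f_pm_213 t 1 1 1 = true :=
  ⟨(b (b (a (l 4) (a (l 4) (a (b (l 17843136) (l 4)) (b (l 17874504) (l 17802040))))) (l 4)) (l 4)), by decide +kernel⟩

theorem c_pm_213 : CertN 0 536870912 536870912 536870912 201326592 134217728 3 true true false .pnn 2 1 3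
    ndN0q2 ndN4q1 pcN3 Cut.none Ext.none :=
  certN1 (fam := true) (s1 := true) (s2 := false) (a := 2) (b := 1) (c := 3) (cn := .pnn) (n1 := ndN0q2) (n2 := ndN4q1) (pc := pcN3) (cut := Cut.none) (xt := Ext.none) (P1 := 0) (W1 := 536870912) (P2 := 536870912) (W2 := 536870912) (P3 := 201326592) (W3 := 134217728) (N0 := 3)
    rfl (fun _ => rfl) k0_pm_213

noncomputable def f_mm_001 : ℕ → ℕ → ℕ → ℕ → Bool := onCell 0 536870912 0 536870912 201326592 134217728
    (rowN 3 0 true false false .up 0 0 1 (qsf 0 536870912 0 536870912 1) ndN0q0 ndN4q0 pcN1 Cut.none Ext.none)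

def k0_mm_001 : ∃ t, chk3 f_mm_001 t 1 1 1 = true :=
  ⟨(l 4), by decide +kernel⟩

theorem c_mm_001 : CertN 0 536870912 0 536870912 201326592 134217728 3 true false false .up 0 0 1
    ndN0q0 ndN4q0 pcN1 Cut.none Ext.none :=
  certN0 (fam := true) (s1 := false) (s2 := false) (a := 0) (b := 0) (c := 1) (cn := .up) (n1 := ndN0q0) (n2 := ndN4q0) (pc := pcN1) (cut := Cut.none) (xt := Ext.none) (P1 := 0) (W1 := 536870912) (P2 := 0) (W2 := 536870912) (P3 := 201326592) (W3 := 134217728) (N0 := 3)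
    rfl k0_mm_001

noncomputable def f_mm_011 : ℕ → ℕ → ℕ → ℕ → Bool := onCell 0 536870912 536870912 536870912 201326592 134217728
    (rowN 3 0 true false false .pnn 0 1 1 (qsf 0 536870912 536870912 536870912 1) ndN0q0 ndN4q1 pcN1 Cut.none Ext.none)

def k0_mm_011 : ∃ t, chk3 f_mm_011 t 1 1 1 = true :=
  ⟨(l 4), by decide +kernel⟩

theorem c_mm_011 : CertN 0 536870912 536870912 536870912 201326592 134217728 3 true false false .pnn 0 1 1
    ndN0q0 ndN4q1 pcN1 Cut.none Ext.none :=
  certN0 (fam := true) (s1 := false) (s2 := false) (a := 0) (b := 1) (c := 1) (cn := .pnn) (n1 := ndN0q0) (n2 := ndN4q1) (pc := pcN1) (cut := Cut.none) (xt := Ext.none) (P1 := 0) (W1 := 536870912) (P2 := 536870912) (W2 := 536870912) (P3 := 201326592) (W3 := 134217728) (N0 := 3)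
    rfl k0_mm_011

noncomputable def f_mm_012 : ℕ → ℕ → ℕ → ℕ → Bool := onCell 0 536870912 536870912 536870912 201326592 134217728
    (rowN 3 0 true false false .pnp 0 1 2 (qsf 0 536870912 536870912 536870912 2) ndN0q0 ndN4q1 pcN2 Cut.none Ext.none)

def k0_mm_012 : ∃ t, chk3 f_mm_012 t 1 1 1 = true :=
  ⟨(l 4), by decide +kernel⟩

theorem c_mm_012 : CertN 0 536870912 536870912 536870912 201326592 134217728 3 true false false .pnp 0 1 2
    ndN0q0 ndN4q1 pcN2 Cut.none Ext.none :=
  certN0 (fam := true) (s1 := false) (s2 := false) (a := 0) (b := 1) (c := 2) (cn := .pnp) (n1 := ndN0q0) (n2 := ndN4q1) (pc := pcN2) (cut := Cut.none) (xt := Ext.none) (P1 := 0) (W1 := 536870912) (P2 := 536870912) (W2 := 536870912) (P3 := 201326592) (W3 := 134217728) (N0 := 3)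
    rfl k0_mm_012

noncomputable def f_mm_022 : ℕ → ℕ → ℕ → ℕ → Bool := onCell 0 536870912 1073741824 536870912 201326592 134217728
    (rowN 3 0 true false false .pp 0 2 2 (qsf 0 536870912 1073741824 536870912 2) ndN0q0 ndN4q2 pcN2 Cut.none Ext.none)

def k0_mm_022 : ∃ t, chk3 f_mm_022 t 1 1 1 = true :=
  ⟨(l 4), by decide +kernel⟩

theorem c_mm_022 : CertN 0 536870912 1073741824 536870912 201326592 134217728 3 true false false .pp 0 2 2
    ndN0q0 ndN4q2 pcN2 Cut.none Ext.none :=
  certN0 (fam := true) (s1 := false) (s2 := false) (a := 0) (b := 2) (c := 2) (cn := .pp) (n1 := ndN0q0) (n2 := ndN4q2) (pc := pcN2) (cut := Cut.none) (xt := Ext.none) (P1 := 0) (W1 := 536870912) (P2 := 1073741824) (W2 := 536870912) (P3 := 201326592) (W3 := 134217728) (N0 := 3)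
    rfl k0_mm_022

noncomputable def f_mm_023 : ℕ → ℕ → ℕ → ℕ → Bool := onCell 0 536870912 1073741824 536870912 201326592 134217728
    (rowN 3 0 true false false .up 0 2 3 (qsf 0 536870912 1073741824 536870912 3) ndN0q0 ndN4q2 pcN3 Cut.none Ext.none)

def k0_mm_023 : ∃ t, chk3 f_mm_023 t 1 1 1 = true :=
  ⟨(l 4), by decide +kernel⟩

theorem c_mm_023 : CertN 0 536870912 1073741824 536870912 201326592 134217728 3 true false false .up 0 2 3
    ndN0q0 ndN4q2 pcN3 Cut.none Ext.none :=
  certN0 (fam := true) (s1 := false) (s2 := false) (a := 0) (b := 2) (c := 3) (cn := .up) (n1 := ndN0q0) (n2 := ndN4q2) (pc := pcN3) (cut := Cut.none) (xt := Ext.none) (P1 := 0) (W1 := 536870912) (P2 := 1073741824) (W2 := 536870912) (P3 := 201326592) (W3 := 134217728) (N0 := 3)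
    rfl k0_mm_023

noncomputable def f_mm_033 : ℕ → ℕ → ℕ → ℕ → Bool := onCell 0 536870912 0 1230186008 201326592 134217728
    (rowN 3 0 true false false .pnn 0 3 3 (qsf 0 536870912 0 1230186008 3) ndN0q0 ndN4q3 pcN3 Cut.none Ext.none)

def k0_mm_033 : ∃ t, chk3 f_mm_033 t 1 1 1 = true :=
  ⟨(l 5), by decide +kernel⟩

theorem c_mm_033 : CertN 0 536870912 0 1230186008 201326592 134217728 3 true false false .pnn 0 3 3
    ndN0q0 ndN4q3 pcN3 Cut.none Ext.none :=
  certN0 (fam := true) (s1 := false) (s2 := false) (a := 0) (b := 3) (c := 3) (cn := .pnn) (n1 := ndN0q0) (n2 := ndN4q3) (pc := pcN3) (cut := Cut.none) (xt := Ext.none) (P1 := 0) (W1 := 536870912) (P2 := 0) (W2 := 1230186008) (P3 := 201326592) (W3 := 134217728) (N0 := 3)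
    rfl k0_mm_033

noncomputable def f_mm_101 : ℕ → ℕ → ℕ → ℕ → Bool := onCell 536870912 536870912 0 536870912 201326592 134217728
    (rowN 3 0 true false false .npn 1 0 1 (qsf 536870912 536870912 0 536870912 1) ndN0q1 ndN4q0 pcN1 Cut.none Ext.none)

def k0_mm_101 : ∃ t, chk3 f_mm_101 t 1 1 1 = true :=
  ⟨(l 4), by decide +kernel⟩

theorem c_mm_101 : CertN 536870912 536870912 0 536870912 201326592 134217728 3 true false false .npn 1 0 1
    ndN0q1 ndN4q0 pcN1 Cut.none Ext.none :=
  certN0 (fam := true) (s1 := false) (s2 := false) (a := 1) (b := 0) (c := 1) (cn := .npn) (n1 := ndN0q1) (n2 := ndN4q0) (pc := pcN1) (cut := Cut.none) (xt := Ext.none) (P1 := 536870912) (W1 := 536870912) (P2 := 0) (W2 := 536870912) (P3 := 201326592) (W3 := 134217728) (N0 := 3)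
    rfl k0_mm_101

noncomputable def f_mm_102 : ℕ → ℕ → ℕ → ℕ → Bool := onCell 536870912 536870912 0 536870912 201326592 134217728
    (rowN 3 0 true false false .npp 1 0 2 (qsf 536870912 536870912 0 536870912 2) ndN0q1 ndN4q0 pcN2 Cut.none Ext.none)

def k0_mm_102 : ∃ t, chk3 f_mm_102 t 1 1 1 = true :=
  ⟨(l 4), by decide +kernel⟩

theorem c_mm_102 : CertN 536870912 536870912 0 536870912 201326592 134217728 3 true false false .npp 1 0 2
    ndN0q1 ndN4q0 pcN2 Cut.none Ext.none :=
  certN0 (fam := true) (s1 := false) (s2 := false) (a := 1) (b := 0) (c := 2) (cn := .npp) (n1 := ndN0q1) (n2 := ndN4q0) (pc := pcN2) (cut := Cut.none) (xt := Ext.none) (P1 := 536870912) (W1 := 536870912) (P2 := 0) (W2 := 536870912) (P3 := 201326592) (W3 := 134217728) (N0 := 3)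
    rfl k0_mm_102

noncomputable def f_mm_112 : ℕ → ℕ → ℕ → ℕ → Bool := onCell 536870912 536870912 536870912 536870912 201326592 134217728
    (rowN 3 0 true false false .dn 1 1 2 (qsf 536870912 536870912 536870912 536870912 2) ndN0q1 ndN4q1 pcN2 Cut.none Ext.none)

def k0_mm_112 : ∃ t, chk3 f_mm_112 t 1 1 1 = true :=
  ⟨(l 4), by decide +kernel⟩

theorem c_mm_112 : CertN 536870912 536870912 536870912 536870912 201326592 134217728 3 true false false .dn 1 1 2
    ndN0q1 ndN4q1 pcN2 Cut.none Ext.none :=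
  certN0 (fam := true) (s1 := false) (s2 := false) (a := 1) (b := 1) (c := 2) (cn := .dn) (n1 := ndN0q1) (n2 := ndN4q1) (pc := pcN2) (cut := Cut.none) (xt := Ext.none) (P1 := 536870912) (W1 := 536870912) (P2 := 536870912) (W2 := 536870912) (P3 := 201326592) (W3 := 134217728) (N0 := 3)
    rfl k0_mm_112

noncomputable def f_mm_113 : ℕ → ℕ → ℕ → ℕ → Bool := onCell 536870912 536870912 536870912 536870912 201326592 134217728
    (rowN 3 0 true false false .nn 1 1 3 (qsf 536870912 536870912 536870912 536870912 3) ndN0q1 ndN4q1 pcN3 Cut.none Ext.none)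

def k0_mm_113 : ∃ t, chk3 f_mm_113 t 1 1 1 = true :=
  ⟨(l 4), by decide +kernel⟩

theorem c_mm_113 : CertN 536870912 536870912 536870912 536870912 201326592 134217728 3 true false false .nn 1 1 3
    ndN0q1 ndN4q1 pcN3 Cut.none Ext.none :=
  certN0 (fam := true) (s1 := false) (s2 := false) (a := 1) (b := 1) (c := 3) (cn := .nn) (n1 := ndN0q1) (n2 := ndN4q1) (pc := pcN3) (cut := Cut.none) (xt := Ext.none) (P1 := 536870912) (W1 := 536870912) (P2 := 536870912) (W2 := 536870912) (P3 := 201326592) (W3 := 134217728) (N0 := 3)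
    rfl k0_mm_113

noncomputable def f_mm_123 : ℕ → ℕ → ℕ → ℕ → Bool := onCell 536870912 536870912 1073741824 536870912 201326592 134217728
    (rowN 3 0 true false false .npn 1 2 3 (qsf 536870912 536870912 1073741824 536870912 3) ndN0q1 ndN4q2 pcN3 Cut.none Ext.none)

def k0_mm_123 : ∃ t, chk3 f_mm_123 t 1 1 1 = true :=
  ⟨(l 4), by decide +kernel⟩

theorem c_mm_123 : CertN 536870912 536870912 1073741824 536870912 201326592 134217728 3 true false false .npn 1 2 3
    ndN0q1 ndN4q2 pcN3 Cut.none Ext.none :=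
  certN0 (fam := true) (s1 := false) (s2 := false) (a := 1) (b := 2) (c := 3) (cn := .npn) (n1 := ndN0q1) (n2 := ndN4q2) (pc := pcN3) (cut := Cut.none) (xt := Ext.none) (P1 := 536870912) (W1 := 536870912) (P2 := 1073741824) (W2 := 536870912) (P3 := 201326592) (W3 := 134217728) (N0 := 3)
    rfl k0_mm_123

noncomputable def f_mm_133 : ℕ → ℕ → ℕ → ℕ → Bool := onCell 536870912 536870912 0 1230186008 201326592 134217728
    (rowN 3 0 true false false .dn 1 3 3 (qsf 536870912 536870912 0 1230186008 3) ndN0q1 ndN4q3 pcN3 Cut.none Ext.none)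

def k0_mm_133 : ∃ t, chk3 f_mm_133 t 1 1 1 = true :=
  ⟨(l 4), by decide +kernel⟩

theorem c_mm_133 : CertN 536870912 536870912 0 1230186008 201326592 134217728 3 true false false .dn 1 3 3
    ndN0q1 ndN4q3 pcN3 Cut.none Ext.none :=
  certN0 (fam := true) (s1 := false) (s2 := false) (a := 1) (b := 3) (c := 3) (cn := .dn) (n1 := ndN0q1) (n2 := ndN4q3) (pc := pcN3) (cut := Cut.none) (xt := Ext.none) (P1 := 536870912) (W1 := 536870912) (P2 := 0) (W2 := 1230186008) (P3 := 201326592) (W3 := 134217728) (N0 := 3)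
    rfl k0_mm_133

noncomputable def f_mm_202 : ℕ → ℕ → ℕ → ℕ → Bool := onCell 0 536870912 0 536870912 201326592 134217728
    (rowN 3 0 true false false .pp 2 0 2 (qsf 0 536870912 0 536870912 2) ndN0q2 ndN4q0 pcN2 Cut.none Ext.none)

def k0_mm_202 : ∃ t, chk3 f_mm_202 t 1 1 1 = true :=
  ⟨(b (a (l 4) (l 4)) (l 4)), by decide +kernel⟩

theorem c_mm_202 : CertN 0 536870912 0 536870912 201326592 134217728 3 true false false .pp 2 0 2
    ndN0q2 ndN4q0 pcN2 Cut.none Ext.none :=
  certN0 (fam := true) (s1 := false) (s2 := false) (a := 2) (b := 0) (c := 2) (cn := .pp) (n1 := ndN0q2) (n2 := ndN4q0) (pc := pcN2) (cut := Cut.none) (xt := Ext.none) (P1 := 0) (W1 := 536870912) (P2 := 0) (W2 := 536870912) (P3 := 201326592) (W3 := 134217728) (N0 := 3)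
    rfl k0_mm_202

noncomputable def f_mm_203 : ℕ → ℕ → ℕ → ℕ → Bool := onCell 0 536870912 1610612736 536870912 201326592 134217728
    (rowN 3 1 true false false .up 2 0 3 (qsf 0 536870912 0 536870912 3) ndN0q2 ndN4q0 pcN3 Cut.none Ext.none)

def k0_mm_203 : ∃ t, chk3 f_mm_203 t 1 1 1 = true :=
  ⟨(l 4), by decide +kernel⟩

theorem c_mm_203 : CertN 0 536870912 0 536870912 201326592 134217728 3 true false false .up 2 0 3
    ndN0q2 ndN4q0 pcN3 Cut.none Ext.none :=
  certN1 (fam := true) (s1 := false) (s2 := false) (a := 2) (b := 0) (c := 3) (cn := .up) (n1 := ndN0q2) (n2 := ndN4q0) (pc := pcN3) (cut := Cut.none) (xt := Ext.none) (P1 := 0) (W1 := 536870912) (P2 := 0) (W2 := 536870912) (P3 := 201326592) (W3 := 134217728) (N0 := 3)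
    rfl (fun _ => rfl) k0_mm_203

noncomputable def f_mm_213 : ℕ → ℕ → ℕ → ℕ → Bool := onCell 0 536870912 536870912 536870912 201326592 134217728
    (rowN 3 0 true false false .pnn 2 1 3 (qsf 0 536870912 536870912 536870912 3) ndN0q2 ndN4q1 pcN3 Cut.none Ext.none)

def k0_mm_213 : ∃ t, chk3 f_mm_213 t 1 1 1 = true :=
  ⟨(l 4), by decide +kernel⟩

theorem c_mm_213 : CertN 0 536870912 536870912 536870912 201326592 134217728 3 true false false .pnn 2 1 3
    ndN0q2 ndN4q1 pcN3 Cut.none Ext.none :=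
  certN0 (fam := true) (s1 := false) (s2 := false) (a := 2) (b := 1) (c := 3) (cn := .pnn) (n1 := ndN0q2) (n2 := ndN4q1) (pc := pcN3) (cut := Cut.none) (xt := Ext.none) (P1 := 0) (W1 := 536870912) (P2 := 536870912) (W2 := 536870912) (P3 := 201326592) (W3 := 134217728) (N0 := 3)
    rfl k0_mm_213

end Pool.Agent.Strip051.G.I3_16_5_16.Tab.C.NA04

namespace Pool.Agent.Strip051.G.I3_16_5_16.Tab.C.NA05

open Pool.Agent.Strip051.PB Pool.Agent.Strip051.PB.T
open Pool.Agent.Strip051.G.I3_16_5_16.Tab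

noncomputable def f_pp_001 : ℕ → ℕ → ℕ → ℕ → Bool := onCell 0 536870912 0 536870912 201326592 134217728
    (rowN 3 0 true true true .up 0 0 1 (qsf 0 536870912 0 536870912 1) ndN0q0 ndN5q0 pcN1 Cut.none Ext.none)

def k0_pp_001 : ∃ t, chk3 f_pp_001 t 1 1 1 = true :=
  ⟨(l 4), by decide +kernel⟩

theorem c_pp_001 : CertN 0 536870912 0 536870912 201326592 134217728 3 true true true .up 0 0 1
    ndN0q0 ndN5q0 pcN1 Cut.none Ext.none :=
  certN0 (fam := true) (s1 := true) (s2 := true) (a := 0) (b := 0) (c := 1) (cn := .up) (n1 := ndN0q0) (n2 := ndN5q0) (pc := pcN1) (cut := Cut.none) (xt := Ext.none) (P1 := 0) (W1 := 536870912) (P2 := 0) (W2 := 536870912) (P3 := 201326592) (W3 := 134217728) (N0 := 3)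
    rfl k0_pp_001

noncomputable def f_pp_011 : ℕ → ℕ → ℕ → ℕ → Bool := onCell 0 536870912 536870912 536870912 201326592 134217728
    (rowN 3 0 true true true .pnn 0 1 1 (qsf 0 536870912 536870912 536870912 1) ndN0q0 ndN5q1 pcN1 Cut.none Ext.none)

def k0_pp_011 : ∃ t, chk3 f_pp_011 t 1 1 1 = true :=
  ⟨(l 4), by decide +kernel⟩

theorem c_pp_011 : CertN 0 536870912 536870912 536870912 201326592 134217728 3 true true true .pnn 0 1 1
    ndN0q0 ndN5q1 pcN1 Cut.none Ext.none :=
  certN0 (fam := true) (s1 := true) (s2 := true) (a := 0) (b := 1) (c := 1) (cn := .pnn) (n1 := ndN0q0) (n2 := ndN5q1) (pc := pcN1) (cut := Cut.none) (xt := Ext.none) (P1 := 0) (W1 := 536870912) (P2 := 536870912) (W2 := 536870912) (P3 := 201326592) (W3 := 134217728) (N0 := 3)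
    rfl k0_pp_011

noncomputable def f_pp_012 : ℕ → ℕ → ℕ → ℕ → Bool := onCell 0 536870912 536870912 536870912 201326592 134217728
    (rowN 3 0 true true true .pnp 0 1 2 (qsf 0 536870912 536870912 536870912 2) ndN0q0 ndN5q1 pcN2 Cut.none Ext.none)

def k0_pp_012 : ∃ t, chk3 f_pp_012 t 1 1 1 = true :=
  ⟨(l 4), by decide +kernel⟩

theorem c_pp_012 : CertN 0 536870912 536870912 536870912 201326592 134217728 3 true true true .pnp 0 1 2
    ndN0q0 ndN5q1 pcN2 Cut.none Ext.none :=
  certN0 (fam := true) (s1 := true) (s2 := true) (a := 0) (b := 1) (c := 2) (cn := .pnp) (n1 := ndN0q0) (n2 := ndN5q1) (pc := pcN2) (cut := Cut.none) (xt := Ext.none) (P1 := 0) (W1 := 536870912) (P2 := 536870912) (W2 := 536870912) (P3 := 201326592) (W3 := 134217728) (N0 := 3)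
    rfl k0_pp_012

noncomputable def f_pp_022 : ℕ → ℕ → ℕ → ℕ → Bool := onCell 0 536870912 1073741824 536870912 201326592 134217728
    (rowN 3 0 true true true .pp 0 2 2 (qsf 0 536870912 1073741824 536870912 2) ndN0q0 ndN5q2 pcN2 Cut.none Ext.none)

def k0_pp_022 : ∃ t, chk3 f_pp_022 t 1 1 1 = true :=
  ⟨(l 4), by decide +kernel⟩

theorem c_pp_022 : CertN 0 536870912 1073741824 536870912 201326592 134217728 3 true true true .pp 0 2 2
    ndN0q0 ndN5q2 pcN2 Cut.none Ext.none :=
  certN0 (fam := true) (s1 := true) (s2 := true) (a := 0) (b := 2) (c := 2) (cn := .pp) (n1 := ndN0q0) (n2 := ndN5q2) (pc := pcN2) (cut := Cut.none) (xt := Ext.none) (P1 := 0) (W1 := 536870912) (P2 := 1073741824) (W2 := 536870912) (P3 := 201326592) (W3 := 134217728) (N0 := 3)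
    rfl k0_pp_022

noncomputable def f_pp_023 : ℕ → ℕ → ℕ → ℕ → Bool := onCell 0 536870912 1073741824 536870912 201326592 134217728
    (rowN 3 0 true true true .up 0 2 3 (qsf 0 536870912 1073741824 536870912 3) ndN0q0 ndN5q2 pcN3 Cut.none Ext.none)

def k0_pp_023 : ∃ t, chk3 f_pp_023 t 1 1 1 = true :=
  ⟨(l 4), by decide +kernel⟩

theorem c_pp_023 : CertN 0 536870912 1073741824 536870912 201326592 134217728 3 true true true .up 0 2 3
    ndN0q0 ndN5q2 pcN3 Cut.none Ext.none :=
  certN0 (fam := true) (s1 := true) (s2 := true) (a := 0) (b := 2) (c := 3) (cn := .up) (n1 := ndN0q0) (n2 := ndN5q2) (pc := pcN3) (cut := Cut.none) (xt := Ext.none) (P1 := 0) (W1 := 536870912) (P2 := 1073741824) (W2 := 536870912) (P3 := 201326592) (W3 := 134217728) (N0 := 3)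
    rfl k0_pp_023

noncomputable def f_pp_033 : ℕ → ℕ → ℕ → ℕ → Bool := onCell 0 536870912 0 1230186008 201326592 134217728
    (rowN 3 0 true true true .pnn 0 3 3 (qsf 0 536870912 0 1230186008 3) ndN0q0 ndN5q3 pcN3 Cut.none Ext.none)

def k0_pp_033 : ∃ t, chk3 f_pp_033 t 1 1 1 = true :=
  ⟨(l 4), by decide +kernel⟩

theorem c_pp_033 : CertN 0 536870912 0 1230186008 201326592 134217728 3 true true true .pnn 0 3 3
    ndN0q0 ndN5q3 pcN3 Cut.none Ext.none :=
  certN0 (fam := true) (s1 := true) (s2 := true) (a := 0) (b := 3) (c := 3) (cn := .pnn) (n1 := ndN0q0) (n2 := ndN5q3) (pc := pcN3) (cut := Cut.none) (xt := Ext.none) (P1 := 0) (W1 := 536870912) (P2 := 0) (W2 := 1230186008) (P3 := 201326592) (W3 := 134217728) (N0 := 3)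
    rfl k0_pp_033

noncomputable def f_pp_101 : ℕ → ℕ → ℕ → ℕ → Bool := onCell 536870912 536870912 0 536870912 201326592 134217728
    (rowN 3 0 true true true .npn 1 0 1 (qsf 536870912 536870912 0 536870912 1) ndN0q1 ndN5q0 pcN1 Cut.none Ext.none)

def k0_pp_101 : ∃ t, chk3 f_pp_101 t 1 1 1 = true :=
  ⟨(l 4), by decide +kernel⟩

theorem c_pp_101 : CertN 536870912 536870912 0 536870912 201326592 134217728 3 true true true .npn 1 0 1
    ndN0q1 ndN5q0 pcN1 Cut.none Ext.none :=
  certN0 (fam := true) (s1 := true) (s2 := true) (a := 1) (b := 0) (c := 1) (cn := .npn) (n1 := ndN0q1) (n2 := ndN5q0) (pc := pcN1) (cut := Cut.none) (xt := Ext.none) (P1 := 536870912) (W1 := 536870912) (P2 := 0) (W2 := 536870912) (P3 := 201326592) (W3 := 134217728) (N0 := 3)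
    rfl k0_pp_101

noncomputable def f_pp_102 : ℕ → ℕ → ℕ → ℕ → Bool := onCell 536870912 536870912 0 536870912 201326592 134217728
    (rowN 3 0 true true true .npp 1 0 2 (qsf 536870912 536870912 0 536870912 2) ndN0q1 ndN5q0 pcN2 Cut.none Ext.none)

def k0_pp_102 : ∃ t, chk3 f_pp_102 t 1 1 1 = true :=
  ⟨(l 4), by decide +kernel⟩

theorem c_pp_102 : CertN 536870912 536870912 0 536870912 201326592 134217728 3 true true true .npp 1 0 2
    ndN0q1 ndN5q0 pcN2 Cut.none Ext.none :=
  certN0 (fam := true) (s1 := true) (s2 := true) (a := 1) (b := 0) (c := 2) (cn := .npp) (n1 := ndN0q1) (n2 := ndN5q0) (pc := pcN2) (cut := Cut.none) (xt := Ext.none) (P1 := 536870912) (W1 := 536870912) (P2 := 0) (W2 := 536870912) (P3 := 201326592) (W3 := 134217728) (N0 := 3)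
    rfl k0_pp_102

noncomputable def f_pp_112 : ℕ → ℕ → ℕ → ℕ → Bool := onCell 536870912 536870912 536870912 536870912 201326592 134217728
    (rowN 3 0 true true true .dn 1 1 2 (qsf 536870912 536870912 536870912 536870912 2) ndN0q1 ndN5q1 pcN2 Cut.none Ext.none)

def k0_pp_112 : ∃ t, chk3 f_pp_112 t 1 1 1 = true :=
  ⟨(l 4), by decide +kernel⟩

theorem c_pp_112 : CertN 536870912 536870912 536870912 536870912 201326592 134217728 3 true true true .dn 1 1 2
    ndN0q1 ndN5q1 pcN2 Cut.none Ext.none :=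
  certN0 (fam := true) (s1 := true) (s2 := true) (a := 1) (b := 1) (c := 2) (cn := .dn) (n1 := ndN0q1) (n2 := ndN5q1) (pc := pcN2) (cut := Cut.none) (xt := Ext.none) (P1 := 536870912) (W1 := 536870912) (P2 := 536870912) (W2 := 536870912) (P3 := 201326592) (W3 := 134217728) (N0 := 3)
    rfl k0_pp_112

noncomputable def f_pp_113 : ℕ → ℕ → ℕ → ℕ → Bool := onCell 536870912 536870912 536870912 536870912 201326592 134217728
    (rowN 3 0 true true true .nn 1 1 3 (qsf 536870912 536870912 536870912 536870912 3) ndN0q1 ndN5q1 pcN3 Cut.none Ext.none)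

def k0_pp_113 : ∃ t, chk3 f_pp_113 t 1 1 1 = true :=
  ⟨(l 4), by decide +kernel⟩

theorem c_pp_113 : CertN 536870912 536870912 536870912 536870912 201326592 134217728 3 true true true .nn 1 1 3
    ndN0q1 ndN5q1 pcN3 Cut.none Ext.none :=
  certN0 (fam := true) (s1 := true) (s2 := true) (a := 1) (b := 1) (c := 3) (cn := .nn) (n1 := ndN0q1) (n2 := ndN5q1) (pc := pcN3) (cut := Cut.none) (xt := Ext.none) (P1 := 536870912) (W1 := 536870912) (P2 := 536870912) (W2 := 536870912) (P3 := 201326592) (W3 := 134217728) (N0 := 3)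
    rfl k0_pp_113

noncomputable def f_pp_123 : ℕ → ℕ → ℕ → ℕ → Bool := onCell 536870912 536870912 1073741824 536870912 201326592 134217728
    (rowN 3 0 true true true .npn 1 2 3 (qsf 536870912 536870912 1073741824 536870912 3) ndN0q1 ndN5q2 pcN3 Cut.none Ext.none)

def k0_pp_123 : ∃ t, chk3 f_pp_123 t 1 1 1 = true :=
  ⟨(l 4), by decide +kernel⟩

theorem c_pp_123 : CertN 536870912 536870912 1073741824 536870912 201326592 134217728 3 true true true .npn 1 2 3
    ndN0q1 ndN5q2 pcN3 Cut.none Ext.none :=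
  certN0 (fam := true) (s1 := true) (s2 := true) (a := 1) (b := 2) (c := 3) (cn := .npn) (n1 := ndN0q1) (n2 := ndN5q2) (pc := pcN3) (cut := Cut.none) (xt := Ext.none) (P1 := 536870912) (W1 := 536870912) (P2 := 1073741824) (W2 := 536870912) (P3 := 201326592) (W3 := 134217728) (N0 := 3)
    rfl k0_pp_123

noncomputable def f_pp_133 : ℕ → ℕ → ℕ → ℕ → Bool := onCell 536870912 536870912 0 1230186008 201326592 134217728
    (rowN 3 0 true true true .dn 1 3 3 (qsf 536870912 536870912 0 1230186008 3) ndN0q1 ndN5q3 pcN3 Cut.none Ext.none)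

def k0_pp_133 : ∃ t, chk3 f_pp_133 t 1 1 1 = true :=
  ⟨(l 4), by decide +kernel⟩

theorem c_pp_133 : CertN 536870912 536870912 0 1230186008 201326592 134217728 3 true true true .dn 1 3 3
    ndN0q1 ndN5q3 pcN3 Cut.none Ext.none :=
  certN0 (fam := true) (s1 := true) (s2 := true) (a := 1) (b := 3) (c := 3) (cn := .dn) (n1 := ndN0q1) (n2 := ndN5q3) (pc := pcN3) (cut := Cut.none) (xt := Ext.none) (P1 := 536870912) (W1 := 536870912) (P2 := 0) (W2 := 1230186008) (P3 := 201326592) (W3 := 134217728) (N0 := 3)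
    rfl k0_pp_133

noncomputable def f_pp_202 : ℕ → ℕ → ℕ → ℕ → Bool := onCell 0 536870912 0 536870912 201326592 134217728
    (rowN 3 0 true true true .pp 2 0 2 (qsf 0 536870912 0 536870912 2) ndN0q2 ndN5q0 pcN2 Cut.none Ext.none)

def k0_pp_202 : ∃ t, chk3 f_pp_202 t 1 1 1 = true :=
  ⟨(l 4), by decide +kernel⟩

theorem c_pp_202 : CertN 0 536870912 0 536870912 201326592 134217728 3 true true true .pp 2 0 2
    ndN0q2 ndN5q0 pcN2 Cut.none Ext.none :=
  certN0 (fam := true) (s1 := true) (s2 := true) (a := 2) (b := 0) (c := 2) (cn := .pp) (n1 := ndN0q2) (n2 := ndN5q0) (pc := pcN2) (cut := Cut.none) (xt := Ext.none) (P1 := 0) (W1 := 536870912) (P2 := 0) (W2 := 536870912) (P3 := 201326592) (W3 := 134217728) (N0 := 3)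
    rfl k0_pp_202

noncomputable def f_pp_203 : ℕ → ℕ → ℕ → ℕ → Bool := onCell 0 536870912 0 536870912 201326592 134217728
    (rowN 3 0 true true true .up 2 0 3 (qsf 0 536870912 0 536870912 3) ndN0q2 ndN5q0 pcN3 Cut.none Ext.none)

def k0_pp_203 : ∃ t, chk3 f_pp_203 t 1 1 1 = true :=
  ⟨(l 4), by decide +kernel⟩

theorem c_pp_203 : CertN 0 536870912 0 536870912 201326592 134217728 3 true true true .up 2 0 3
    ndN0q2 ndN5q0 pcN3 Cut.none Ext.none :=
  certN0 (fam := true) (s1 := true) (s2 := true) (a := 2) (b := 0) (c := 3) (cn := .up) (n1 := ndN0q2) (n2 := ndN5q0) (pc := pcN3) (cut := Cut.none) (xt := Ext.none) (P1 := 0) (W1 := 536870912) (P2 := 0) (W2 := 536870912) (P3 := 201326592) (W3 := 134217728) (N0 := 3)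
    rfl k0_pp_203

noncomputable def f_pp_213 : ℕ → ℕ → ℕ → ℕ → Bool := onCell 0 536870912 536870912 536870912 201326592 134217728
    (rowN 3 0 true true true .pnn 2 1 3 (qsf 0 536870912 536870912 536870912 3) ndN0q2 ndN5q1 pcN3 Cut.none Ext.none)

def k0_pp_213 : ∃ t, chk3 f_pp_213 t 1 1 1 = true :=
  ⟨(l 4), by decide +kernel⟩

theorem c_pp_213 : CertN 0 536870912 536870912 536870912 201326592 134217728 3 true true true .pnn 2 1 3
    ndN0q2 ndN5q1 pcN3 Cut.none Ext.none :=
  certN0 (fam := true) (s1 := true) (s2 := true) (a := 2) (b := 1) (c := 3) (cn := .pnn) (n1 := ndN0q2) (n2 := ndN5q1) (pc := pcN3) (cut := Cut.none) (xt := Ext.none) (P1 := 0) (W1 := 536870912) (P2 := 536870912) (W2 := 536870912) (P3 := 201326592) (W3 := 134217728) (N0 := 3)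
    rfl k0_pp_213

noncomputable def f_pm_001 : ℕ → ℕ → ℕ → ℕ → Bool := onCell 0 536870912 536870912 536870912 201326592 134217728
    (rowN 3 1 true true false .up 0 0 1 (qsf 0 536870912 0 536870912 1) ndN0q0 ndN5q0 pcN1 Cut.none Ext.none)

def k0_pm_001 : ∃ t, chk3 f_pm_001 t 2 1 1 = true :=
  ⟨(b (l 3) (b (b (l 3) (l 2)) (l 2))), by decide +kernel⟩

def k1_pm_001 : ∃ t, chk3 f_pm_001 t 3 4 1 = true :=
  ⟨(l 3), by decide +kernel⟩

def k2_pm_001 : ∃ t, chk3 f_pm_001 t 6 5 1 = true :=
  ⟨(l 3), by decide +kernel⟩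

def k3_pm_001 : ∃ t, chk3 f_pm_001 t 7 10 1 = true :=
  ⟨(a (l 3) (b (a (l 3) (b (l 3) (c (a (l 3) (b (l 3) (a (l 3) (b (l 380809396647) (l 366850730439))))) (a (l 3) (b (l 3) (a (l 3) (l 416242832855))))))) (a (c (b (l 3) (a (l 3) (b (a (l 3) (b (l 3) (l 352355251943))) (a (b (l 3) (l 352892112855)) (b (l 357187062407) (l 287393859895)))))) (b (l 3) (a (l 3) (b (a (l 3) (b (l 3) (l 412484757255))) (a (b (l 3) (l 408189785367)) (b (l 402284189319) (l 321753570599))))))) (b (c (a (b (l 3) (a (l 3) (b (l 367387618983) (l 351818338039)))) (b (a (b (l 373830072615) (l 359334534535)) (l 280951418407)) (l 270214005751))) (a (b (l 3) (a (l 3) (b (l 417316580279) (l 406579142567)))) (b (a (b (l 421611549479) (l 411947854423)) (l 294373173191)) (a (l 285246363335) (l 16790624))))) (c (a (b (a (b (l 360945164743) (l 293836316135)) (l 16838248)) (l 16843552)) (l 16825112)) (a (b (a (b (l 413558481495) (l 397989204663)) (l 16848896)) (l 16846224)) (l 16804952))))))), by decide +kernel⟩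

def k4_pm_001 : ∃ t, chk3 f_pm_001 t 14 11 1 = true :=
  ⟨(b (c (a (l 3) (b (l 3) (a (l 3) (b (a (l 3) (b (l 367387616695) (l 368461331783))) (a (b (l 374366925095) (l 363629480551)) (l 261624050551)))))) (a (l 3) (b (l 3) (a (l 3) (b (a (l 3) (b (l 415169101095) (l 412484722855))) (a (a (b (l 3) (l 426980215815)) (l 411410973815)) (b (l 332490970983) (l 16800448)))))))) (a (b (a (l 3) (b (l 3) (a (l 3) (b (l 3) (a (l 3) (c (l 378661869047) (l 420000912295))))))) (a (b (l 3) (a (l 3) (c (b (l 387788681927) (l 379735595303)) (c (l 400673562247) (a (l 418390301063) (l 410874093447)))))) (b (a (b (l 3) (a (l 3) (c (l 377051244023) (l 411947838935)))) (c (b (l 371682532087) (l 16830856)) (c (l 393157347415) (a (l 415705925607) (l 358797612135))))) (a (b (c (l 371682520439) (a (l 407115996039) (l 16806064))) (c (l 16804584) (l 16821552))) (l 16834488))))) (c (b (a (b (a (b (l 3) (l 379735633047)) (b (l 373830040839) (l 365776951703))) (a (b (l 377051253463) (l 291688797223)) (l 16823904)))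 (l 251960379063)) (a (l 16842600) (l 16815280))) (b (a (c (b (a (l 406042304919) (l 395304850791)) (a (l 394767969783) (l 16820224))) (b (a (b (l 3) (l 435033310503)) (b (l 431275202103) (l 422148375783))) (a (b (l 424295871095) (l 413558433191)) (l 16796800)))) (b (a (b (l 328195988583) (l 16796896)) (l 16787512)) (l 16785256))) (a (b (l 16841152) (l 16789800)) (l 16806240)))))), by decide +kernel⟩

def k5_pm_001 : ∃ t, chk3 f_pm_001 t 15 11 1 = true :=
  ⟨(b (a (b (c (a (b (a (l 3) (b (l 3) (l 354502715143))) (a (b (l 3) (l 362018894231)) (b (l 348060236711) (l 16820208)))) (b (a (b (l 347523376167) (l 16846368)) (l 16830224)) (l 16835184))) (a (b (a (l 3) (b (l 3) (l 409263517111))) (a (b (l 3) (l 410874119895)) (b (l 404968525527) (l 16829416)))) (b (a (b (l 403357922199) (l 313700502743)) (l 16820488)) (l 16830096)))) (a (b (c (a (b (l 276119575575) (l 16813824)) (l 16799792)) (a (b (l 405505387255) (l 16804352)) (l 16813800))) (l 16846176)) (l 16838000))) (c (b (l 16830456)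 (l 16855528)) (b (l 16844976) (l 16836872)))) (a (c (b (l 16826160) (l 16872368)) (b (l 16814144) (l 16847176))) (c (l 16861016) (l 16865504)))), by decide +kernel⟩

def k6_pm_001 : ∃ t, chk3 f_pm_001 t 6 12 1 = true :=
  ⟨(a (b (l 3) (a (l 3) (b (l 3) (a (l 3) (b (l 3) (a (b (l 3) (l 2)) (c (b (l 381883036263) (a (l 366313766519) (l 16808048))) (b (l 388862353383) (a (l 388325469623) (l 16806664)))))))))) (b (a (l 3) (b (a (l 3) (b (l 3) (c (a (b (l 3) (l 373293145863)) (b (l 368998172839) (l 280414500167))) (c (a (l 399062952471) (l 386178024583)) (a (b (l 3) (l 399599805991)) (b (l 395841703783) (l 373293107927))))))) (c (a (b (a (l 3) (b (l 3) (l 374903742695))) (a (b (l 375440619175) (l 365240050775)) (b (l 362555690743) (l 16793624)))) (b (a (b (l 365776931591) (l 16821984)) (l 16814472)) (l 16803472))) (a (b (a (l 3) (b (l 3) (a (l 3) (l 385641146167)))) (c (a (l 382419925319) (b (l 375440588471) (l 16792880))) (a (l 399062923639) (b (l 384030518935) (l 16791968))))) (b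 (a (b (a (l 388325507415) (l 380809302759)) (l 269677063399)) (l 16834648)) (l 16828880)))))) (a (b (c (a (b (l 3) (a (l 3) (b (l 3) (l 381883044695)))) (b (a (b (l 3) (l 379735576295)) (b (l 378124958135) (l 363092552007))) (a (b (l 380809297495) (l 16812488)) (l 16805048)))) (a (b (l 3) (a (l 3) (b (l 3) (l 388325490695)))) (b (a (b (l 3) (l 401747277319)) (b (l 393694207975) (l 385104254919))) (a (b (l 386714872615) (l 264308334983)) (l 16827296))))) (c (a (a (b (b (l 384030534023) (l 382956792999)) (l 16813920)) (c (l 204178802951) (l 194515118807))) (l 16808136)) (a (b (a (b (l 397452301815) (l 382956768023)) (b (a (l 386714865127) (l 16789840)) (l 16805528))) (a (l 247128460423) (l 16786192))) (b (l 16808080) (l 16799984))))) (c (b (a (b (l 16823904) (l 16793128)) (l 16812096)) (l 16843536)) (b (a (b (a (l 263234609831) (l 16806768)) (l 16791904)) (l 16803952)) (l 16822936)))))), by decide +kernel⟩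

def k7_pm_001 : ∃ t, chk3 f_pm_001 t 6 13 1 = true :=
  ⟨(a (b (a (l 2) (b (a (l 2) (b (a (l 2) (l 148277096807)) (l 2))) (l 2))) (l 2)) (b (a (a (b (b (l 16798296) (l 16795752)) (l 74725768679)) (c (l 16846816) (l 16812984))) (b (c (l 16889880) (l 16851296)) (c (l 16935592) (l 16877680)))) (a (a (l 2) (a (l 2) (l 84926445959))) (c (l 17002976) (l 16912360))))), by decide +kernel⟩

def k8_pm_001 : ∃ t, chk3 f_pm_001 t 7 6 1 = true :=
  ⟨(b (a (a (b (b (c (a (b (a (c (l 368998178455) (l 378661850503)) (l 260013416407)) (l 16840096)) (l 16829112)) (a (a (b (b (a (l 3) (l 406042259783)) (a (l 399062933031) (l 355576388967))) (b (a (l 16815184) (l 16798384)) (l 16793816))) (b (b (a (l 386178021495) (l 16802080)) (l 16797032)) (l 16787976))) (l 16831976))) (a (b (l 16830544) (l 16805976)) (l 16825824))) (c (l 16843336) (l 16831512))) (b (c (l 16823976) (l 16830720)) (c (l 16956160) (l 16902544)))) (b (a (b (l 16898104) (l 16935704)) (l 16958664)) (a (l 16970008) (l 17051168)))) (a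 (b (a (c (l 16976104) (l 16909456)) (c (l 17044576) (l 16958936))) (a (c (l 17064904) (l 16958560)) (l 17069752))) (b (a (l 17061632) (l 17120136)) (c (l 17230784) (l 17085816))))), by decide +kernel⟩

def k9_pm_001 : ∃ t, chk3 f_pm_001 t 3 7 1 = true :=
  ⟨(a (b (a (l 2) (b (a (l 2) (c (l 17088576) (l 16945808))) (l 2))) (l 2)) (a (a (b (b (c (l 17150592) (l 16996104)) (l 95664205255)) (l 2)) (b (b (l 17131872) (l 17184048)) (c (l 17395744) (l 110696860295)))) (b (c (b (l 17312632) (l 17390824)) (b (l 17127480) (l 17157400))) (c (b (l 17462688) (l 17523064)) (a (l 17133376) (l 17199216)))))), by decide +kernel⟩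

theorem s10_pm_001 : ∃ t, chk3 f_pm_001 t 6 6 1 = true := ex3_b k6_pm_001 k7_pm_001

theorem s11_pm_001 : ∃ t, chk3 f_pm_001 t 3 6 1 = true := ex3_a s10_pm_001 k8_pm_001

theorem s12_pm_001 : ∃ t, chk3 f_pm_001 t 3 3 1 = true := ex3_b s11_pm_001 k9_pm_001

theorem s13_pm_001 : ∃ t, chk3 f_pm_001 t 7 11 1 = true := ex3_a k4_pm_001 k5_pm_001

theorem s14_pm_001 : ∃ t, chk3 f_pm_001 t 7 5 1 = true := ex3_b k3_pm_001 s13_pm_001

theorem s15_pm_001 : ∃ t, chk3 f_pm_001 t 3 5 1 = true := ex3_a k2_pm_001 s14_pm_001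

theorem s16_pm_001 : ∃ t, chk3 f_pm_001 t 3 2 1 = true := ex3_b k1_pm_001 s15_pm_001

theorem s17_pm_001 : ∃ t, chk3 f_pm_001 t 3 1 1 = true := ex3_b s16_pm_001 s12_pm_001

theorem s18_pm_001 : ∃ t, chk3 f_pm_001 t 1 1 1 = true := ex3_a k0_pm_001 s17_pm_001

theorem c_pm_001 : CertN 0 536870912 0 536870912 201326592 134217728 3 true true false .up 0 0 1
    ndN0q0 ndN5q0 pcN1 Cut.none Ext.none :=
  certN1 (fam := true) (s1 := true) (s2 := false) (a := 0) (b := 0) (c := 1) (cn := .up) (n1 := ndN0q0) (n2 := ndN5q0) (pc := pcN1) (cut := Cut.none) (xt := Ext.none) (P1 := 0) (W1 := 536870912) (P2 := 0) (W2 := 536870912) (P3 := 201326592) (W3 := 134217728) (N0 := 3)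
    rfl (fun _ => rfl) s18_pm_001

end Pool.Agent.Strip051.G.I3_16_5_16.Tab.C.NA05

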