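import Pool.Agent.Strip051.G.I3_16_5_16.Tab

/-! # Certificates N12 (generated) -/

set_option linter.all false
set_option maxRecDepth 100000

namespace Pool.Agent.Strip051.G.I3_16_5_16.Tab.C.NA34

open Pool.Agent.Strip051.PB Pool.Agent.Strip051.PB.T
open Pool.Agent.Strip051.G.I3_16_5_16.Tab

noncomputable def f_pm_202 : ℕ → ℕ → ℕ → ℕ → Bool := onCell 1073741824 536870912 1073741824 536870912 201326592 134217728
    (rowN 3 1 true true false .pp 2 0 2 (qsf 1073741824 536870912 0 536870912 2) ndN3q2 ndN4q0 pcN2 Cut.none Ext.none)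

def k0_pm_202 : ∃ t, chk3 f_pm_202 t 2 1 1 = true :=
  ⟨(b (a (b (a (b (c (l 17827552) (l 17470576)) (b (l 17804288) (b (l 17855496) (l 17893856)))) (b (a (c (l 17705272) (l 17414984)) (l 1)) (b (a (l 17661856) (a (l 17660360) (l 1))) (a (b (l 17753528) (l 17779520)) (b (a (l 17715456) (l 17681008)) (a (l 17741752) (l 17712936))))))) (a (b (b (b (l 17934616) (l 17927168)) (l 17903792)) (l 17864304)) (a (b (b (b (l 17808016) (l 17836144)) (l 17869144)) (l 17950936)) (b (b (a (b (l 17765944) (l 17789672)) (b (l 17739304) (l 17760656))) (a (l 17816152) (l 17783416))) (a (l 17884880) (l 17844536)))))) (b (a (b (l 1) (b (l 1) (a (a (b (l 1) (l 17679320)) (l 1)) (l 1)))) (l 1)) (b (a (b (a (b (a (l 17711592) (l 17675328)) (a (l 17735352) (l 289946248199))) (b (l 1) (l 17632344))) (a (a (l 17754864) (l 17726344)) (l 17661568))) (b (l 1) (a (l 17578504) (l 1)))) (a (a (a (l 17809248) (l 17774856)) (l 17712056)) (b (l 17573304) (l 17615944)))))) (a (b (a (b (l 17808016) (l 17741696))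 (a (b (l 17974648) (l 17863256)) (b (l 17978480) (l 17971728)))) (a (b (l 17675904) (l 17599288)) (a (b (l 17772192) (l 17681368)) (b (l 17838704) (l 17730072))))) (b (a (a (b (a (l 17904376) (l 17861472)) (l 17982968)) (b (l 17788064) (l 17874560))) (b (l 17663744) (l 17732448))) (a (a (b (l 17980752) (l 17827976)) (l 18258880)) (b (l 17841280) (l 17910840)))))), by decide +kernel⟩

def k1_pm_202 : ∃ t, chk3 f_pm_202 t 3 1 1 = true :=
  ⟨(b (a (b (l 1) (a (b (l 1) (b (l 1) (l 17438480))) (l 1))) (l 1)) (a (b (b (a (l 17751616) (b (l 1) (l 17311040))) (a (l 17573264) (l 17376776))) (b (a (l 17665624) (l 17483824)) (a (l 17755576) (l 17565904)))) (b (a (b (l 1) (a (l 17224976) (l 1))) (l 1)) (b (a (l 17324016) (l 17173984)) (a (l 17426392) (l 17310280)))))), by decide +kernel⟩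

theorem s2_pm_202 : ∃ t, chk3 f_pm_202 t 1 1 1 = true := ex3_a k0_pm_202 k1_pm_202

theorem c_pm_202 : CertN 1073741824 536870912 0 536870912 201326592 134217728 3 true true false .pp 2 0 2
    ndN3q2 ndN4q0 pcN2 Cut.none Ext.none :=
  certN1 (fam := true) (s1 := true) (s2 := false) (a := 2) (b := 0) (c := 2) (cn := .pp) (n1 := ndN3q2) (n2 := ndN4q0) (pc := pcN2) (cut := Cut.none) (xt := Ext.none) (P1 := 1073741824) (W1 := 536870912) (P2 := 0) (W2 := 536870912) (P3 := 201326592) (W3 := 134217728) (N0 := 3)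
    rfl (fun _ => rfl) s2_pm_202

noncomputable def f_pm_203 : ℕ → ℕ → ℕ → ℕ → Bool := onCell 1073741824 536870912 1610612736 536870912 201326592 134217728
    (rowN 3 1 true true false .up 2 0 3 (qsf 1073741824 536870912 0 536870912 3) ndN3q2 ndN4q0 pcN3 Cut.none Ext.none)

def k0_pm_203 : ∃ t, chk3 f_pm_203 t 1 1 1 = true :=
  ⟨(a (b (a (b (a (l 17413080) (a (l 17429632) (l 17652152))) (a (l 2) (a (l 2) (b (l 17371032) (l 2))))) (a (b (a (c (l 17509856) (l 17421912)) (l 17420616)) (a (b (l 17382280) (l 2)) (l 17347216))) (b (l 17387352) (b (l 17330824) (l 17294128))))) (a (l 2) (l 4))) (b (a (b (a (l 17338680) (l 17261152)) (b (l 17251128) (a (l 17240768) (l 17164880)))) (b (a (l 17229928) (l 17244848)) (a (l 17209824) (l 17160672)))) (l 4))), by decide +kernel⟩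

theorem c_pm_203 : CertN 1073741824 536870912 0 536870912 201326592 134217728 3 true true false .up 2 0 3
    ndN3q2 ndN4q0 pcN3 Cut.none Ext.none :=
  certN1 (fam := true) (s1 := true) (s2 := false) (a := 2) (b := 0) (c := 3) (cn := .up) (n1 := ndN3q2) (n2 := ndN4q0) (pc := pcN3) (cut := Cut.none) (xt := Ext.none) (P1 := 1073741824) (W1 := 536870912) (P2 := 0) (W2 := 536870912) (P3 := 201326592) (W3 := 134217728) (N0 := 3)
    rfl (fun _ => rfl) k0_pm_203

noncomputable def f_pm_213 : ℕ → ℕ → ℕ → ℕ → Bool := onCell 1073741824 536870912 536870912 536870912 201326592 134217728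
    (rowN 3 0 true true false .pnn 2 1 3 (qsf 1073741824 536870912 536870912 536870912 3) ndN3q2 ndN4q1 pcN3 Cut.none Ext.none)

def k0_pm_213 : ∃ t, chk3 f_pm_213 t 1 1 1 = true :=
  ⟨(a (b (a (b (a (b (l 17673176) (l 17660864)) (a (b (l 17610712) (l 17569456)) (b (l 17552872) (l 17495256)))) (a (b (l 17622600) (l 17570144)) (b (a (l 17504576) (l 17419768)) (l 4)))) (b (a (a (b (l 17490616) (l 17410256)) (l 17570144)) (b (l 17260448) (l 4))) (l 4))) (a (b (l 4) (l 4)) (l 4))) (b (l 4) (l 4))), by decide +kernel⟩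

theorem c_pm_213 : CertN 1073741824 536870912 536870912 536870912 201326592 134217728 3 true true false .pnn 2 1 3
    ndN3q2 ndN4q1 pcN3 Cut.none Ext.none :=
  certN0 (fam := true) (s1 := true) (s2 := false) (a := 2) (b := 1) (c := 3) (cn := .pnn) (n1 := ndN3q2) (n2 := ndN4q1) (pc := pcN3) (cut := Cut.none) (xt := Ext.none) (P1 := 1073741824) (W1 := 536870912) (P2 := 536870912) (W2 := 536870912) (P3 := 201326592) (W3 := 134217728) (N0 := 3)
    rfl k0_pm_213

noncomputable def f_pm_303 : ℕ → ℕ → ℕ → ℕ → Bool := onCell 0 1230186008 0 536870912 201326592 134217728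
    (rowN 3 0 true true false .npn 3 0 3 (qsf 0 1230186008 0 536870912 3) ndN3q3 ndN4q0 pcN3 Cut.none Ext.none)

def k0_pm_303 : ∃ t, chk3 f_pm_303 t 1 1 1 = true :=
  ⟨(a (l 4) (a (l 4) (b (a (b (b (a (l 4) (l 17122416)) (l 4)) (l 4)) (b (a (b (l 17245480) (l 17052040)) (b (l 17185392) (l 17212000))) (a (l 4) (b (l 16992912) (l 4))))) (l 4)))), by decide +kernel⟩

theorem c_pm_303 : CertN 0 1230186008 0 536870912 201326592 134217728 3 true true false .npn 3 0 3
    ndN3q3 ndN4q0 pcN3 Cut.none Ext.none :=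
  certN0 (fam := true) (s1 := true) (s2 := false) (a := 3) (b := 0) (c := 3) (cn := .npn) (n1 := ndN3q3) (n2 := ndN4q0) (pc := pcN3) (cut := Cut.none) (xt := Ext.none) (P1 := 0) (W1 := 1230186008) (P2 := 0) (W2 := 536870912) (P3 := 201326592) (W3 := 134217728) (N0 := 3)
    rfl k0_pm_303

noncomputable def f_pm_313 : ℕ → ℕ → ℕ → ℕ → Bool := onCell 0 1230186008 536870912 536870912 201326592 134217728
    (rowN 3 0 true true false .dn 3 1 3 (qsf 0 1230186008 536870912 536870912 3) ndN3q3 ndN4q1 pcN3 Cut.none Ext.none)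

def k0_pm_313 : ∃ t, chk3 f_pm_313 t 1 1 1 = true :=
  ⟨(a (l 2) (l 4)), by decide +kernel⟩

theorem c_pm_313 : CertN 0 1230186008 536870912 536870912 201326592 134217728 3 true true false .dn 3 1 3
    ndN3q3 ndN4q1 pcN3 Cut.none Ext.none :=
  certN0 (fam := true) (s1 := true) (s2 := false) (a := 3) (b := 1) (c := 3) (cn := .dn) (n1 := ndN3q3) (n2 := ndN4q1) (pc := pcN3) (cut := Cut.none) (xt := Ext.none) (P1 := 0) (W1 := 1230186008) (P2 := 536870912) (W2 := 536870912) (P3 := 201326592) (W3 := 134217728) (N0 := 3)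
    rfl k0_pm_313

noncomputable def f_mm_001 : ℕ → ℕ → ℕ → ℕ → Bool := onCell 0 536870912 0 536870912 201326592 134217728
    (rowN 3 0 true false false .up 0 0 1 (qsf 0 536870912 0 536870912 1) ndN3q0 ndN4q0 pcN1 Cut.none Ext.none)

def k0_mm_001 : ∃ t, chk3 f_mm_001 t 1 1 1 = true :=
  ⟨(l 4), by decide +kernel⟩

theorem c_mm_001 : CertN 0 536870912 0 536870912 201326592 134217728 3 true false false .up 0 0 1
    ndN3q0 ndN4q0 pcN1 Cut.none Ext.none :=
  certN0 (fam := true) (s1 := false) (s2 := false) (a := 0) (b := 0) (c := 1) (cn := .up) (n1 := ndN3q0) (n2 := ndN4q0) (pc := pcN1) (cut := Cut.none) (xt := Ext.none) (P1 := 0) (W1 := 536870912) (P2 := 0) (W2 := 536870912) (P3 := 201326592) (W3 := 134217728) (N0 := 3)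
    rfl k0_mm_001

noncomputable def f_mm_011 : ℕ → ℕ → ℕ → ℕ → Bool := onCell 0 536870912 536870912 536870912 201326592 134217728
    (rowN 3 0 true false false .pnn 0 1 1 (qsf 0 536870912 536870912 536870912 1) ndN3q0 ndN4q1 pcN1 Cut.none Ext.none)

def k0_mm_011 : ∃ t, chk3 f_mm_011 t 1 1 1 = true :=
  ⟨(l 4), by decide +kernel⟩

theorem c_mm_011 : CertN 0 536870912 536870912 536870912 201326592 134217728 3 true false false .pnn 0 1 1
    ndN3q0 ndN4q1 pcN1 Cut.none Ext.none :=
  certN0 (fam := true) (s1 := false) (s2 := false) (a := 0) (b := 1) (c := 1) (cn := .pnn) (n1 := ndN3q0) (n2 := ndN4q1) (pc := pcN1) (cut := Cut.none) (xt := Ext.none) (P1 := 0) (W1 := 536870912) (P2 := 536870912) (W2 := 536870912) (P3 := 201326592) (W3 := 134217728) (N0 := 3)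
    rfl k0_mm_011

noncomputable def f_mm_012 : ℕ → ℕ → ℕ → ℕ → Bool := onCell 0 536870912 536870912 536870912 201326592 134217728
    (rowN 3 0 true false false .pnp 0 1 2 (qsf 0 536870912 536870912 536870912 2) ndN3q0 ndN4q1 pcN2 Cut.none Ext.none)

def k0_mm_012 : ∃ t, chk3 f_mm_012 t 1 1 1 = true :=
  ⟨(l 4), by decide +kernel⟩

theorem c_mm_012 : CertN 0 536870912 536870912 536870912 201326592 134217728 3 true false false .pnp 0 1 2
    ndN3q0 ndN4q1 pcN2 Cut.none Ext.none :=
  certN0 (fam := true) (s1 := false) (s2 := false) (a := 0) (b := 1) (c := 2) (cn := .pnp) (n1 := ndN3q0) (n2 := ndN4q1) (pc := pcN2) (cut := Cut.none) (xt := Ext.none) (P1 := 0) (W1 := 536870912) (P2 := 536870912) (W2 := 536870912) (P3 := 201326592) (W3 := 134217728) (N0 := 3)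
    rfl k0_mm_012

noncomputable def f_mm_022 : ℕ → ℕ → ℕ → ℕ → Bool := onCell 0 536870912 1073741824 536870912 201326592 134217728
    (rowN 3 0 true false false .pp 0 2 2 (qsf 0 536870912 1073741824 536870912 2) ndN3q0 ndN4q2 pcN2 Cut.none Ext.none)

def k0_mm_022 : ∃ t, chk3 f_mm_022 t 1 1 1 = true :=
  ⟨(l 4), by decide +kernel⟩

theorem c_mm_022 : CertN 0 536870912 1073741824 536870912 201326592 134217728 3 true false false .pp 0 2 2
    ndN3q0 ndN4q2 pcN2 Cut.none Ext.none :=
  certN0 (fam := true) (s1 := false) (s2 := false) (a := 0) (b := 2) (c := 2) (cn := .pp) (n1 := ndN3q0) (n2 := ndN4q2) (pc := pcN2) (cut := Cut.none) (xt := Ext.none) (P1 := 0) (W1 := 536870912) (P2 := 1073741824) (W2 := 536870912) (P3 := 201326592) (W3 := 134217728) (N0 := 3)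
    rfl k0_mm_022

noncomputable def f_mm_023 : ℕ → ℕ → ℕ → ℕ → Bool := onCell 0 536870912 1073741824 536870912 201326592 134217728
    (rowN 3 0 true false false .up 0 2 3 (qsf 0 536870912 1073741824 536870912 3) ndN3q0 ndN4q2 pcN3 Cut.none Ext.none)

def k0_mm_023 : ∃ t, chk3 f_mm_023 t 1 1 1 = true :=
  ⟨(l 4), by decide +kernel⟩

theorem c_mm_023 : CertN 0 536870912 1073741824 536870912 201326592 134217728 3 true false false .up 0 2 3
    ndN3q0 ndN4q2 pcN3 Cut.none Ext.none :=
  certN0 (fam := true) (s1 := false) (s2 := false) (a := 0) (b := 2) (c := 3) (cn := .up) (n1 := ndN3q0) (n2 := ndN4q2) (pc := pcN3) (cut := Cut.none) (xt := Ext.none) (P1 := 0) (W1 := 536870912) (P2 := 1073741824) (W2 := 536870912) (P3 := 201326592) (W3 := 134217728) (N0 := 3)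
    rfl k0_mm_023

noncomputable def f_mm_033 : ℕ → ℕ → ℕ → ℕ → Bool := onCell 0 536870912 0 1230186008 201326592 134217728
    (rowN 3 0 true false false .pnn 0 3 3 (qsf 0 536870912 0 1230186008 3) ndN3q0 ndN4q3 pcN3 Cut.none Ext.none)

def k0_mm_033 : ∃ t, chk3 f_mm_033 t 1 1 1 = true :=
  ⟨(l 5), by decide +kernel⟩

theorem c_mm_033 : CertN 0 536870912 0 1230186008 201326592 134217728 3 true false false .pnn 0 3 3
    ndN3q0 ndN4q3 pcN3 Cut.none Ext.none :=
  certN0 (fam := true) (s1 := false) (s2 := false) (a := 0) (b := 3) (c := 3) (cn := .pnn) (n1 := ndN3q0) (n2 := ndN4q3) (pc := pcN3) (cut := Cut.none) (xt := Ext.none) (P1 := 0) (W1 := 536870912) (P2 := 0) (W2 := 1230186008) (P3 := 201326592) (W3 := 134217728) (N0 := 3)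
    rfl k0_mm_033

noncomputable def f_mm_101 : ℕ → ℕ → ℕ → ℕ → Bool := onCell 536870912 536870912 0 536870912 201326592 134217728
    (rowN 3 0 true false false .npn 1 0 1 (qsf 536870912 536870912 0 536870912 1) ndN3q1 ndN4q0 pcN1 Cut.none Ext.none)

def k0_mm_101 : ∃ t, chk3 f_mm_101 t 1 1 1 = true :=
  ⟨(l 4), by decide +kernel⟩

theorem c_mm_101 : CertN 536870912 536870912 0 536870912 201326592 134217728 3 true false false .npn 1 0 1
    ndN3q1 ndN4q0 pcN1 Cut.none Ext.none :=
  certN0 (fam := true) (s1 := false) (s2 := false) (a := 1) (b := 0) (c := 1) (cn := .npn) (n1 := ndN3q1) (n2 := ndN4q0) (pc := pcN1) (cut := Cut.none) (xt := Ext.none) (P1 := 536870912) (W1 := 536870912) (P2 := 0) (W2 := 536870912) (P3 := 201326592) (W3 := 134217728) (N0 := 3)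
    rfl k0_mm_101

noncomputable def f_mm_102 : ℕ → ℕ → ℕ → ℕ → Bool := onCell 536870912 536870912 0 536870912 201326592 134217728
    (rowN 3 0 true false false .npp 1 0 2 (qsf 536870912 536870912 0 536870912 2) ndN3q1 ndN4q0 pcN2 Cut.none Ext.none)

def k0_mm_102 : ∃ t, chk3 f_mm_102 t 1 1 1 = true :=
  ⟨(l 4), by decide +kernel⟩

theorem c_mm_102 : CertN 536870912 536870912 0 536870912 201326592 134217728 3 true false false .npp 1 0 2
    ndN3q1 ndN4q0 pcN2 Cut.none Ext.none :=
  certN0 (fam := true) (s1 := false) (s2 := false) (a := 1) (b := 0) (c := 2) (cn := .npp) (n1 := ndN3q1) (n2 := ndN4q0) (pc := pcN2) (cut := Cut.none) (xt := Ext.none) (P1 := 536870912) (W1 := 536870912) (P2 := 0) (W2 := 536870912) (P3 := 201326592) (W3 := 134217728) (N0 := 3)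
    rfl k0_mm_102

noncomputable def f_mm_112 : ℕ → ℕ → ℕ → ℕ → Bool := onCell 536870912 536870912 536870912 536870912 201326592 134217728
    (rowN 3 0 true false false .dn 1 1 2 (qsf 536870912 536870912 536870912 536870912 2) ndN3q1 ndN4q1 pcN2 Cut.none Ext.none)

def k0_mm_112 : ∃ t, chk3 f_mm_112 t 1 1 1 = true :=
  ⟨(l 4), by decide +kernel⟩

theorem c_mm_112 : CertN 536870912 536870912 536870912 536870912 201326592 134217728 3 true false false .dn 1 1 2
    ndN3q1 ndN4q1 pcN2 Cut.none Ext.none :=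
  certN0 (fam := true) (s1 := false) (s2 := false) (a := 1) (b := 1) (c := 2) (cn := .dn) (n1 := ndN3q1) (n2 := ndN4q1) (pc := pcN2) (cut := Cut.none) (xt := Ext.none) (P1 := 536870912) (W1 := 536870912) (P2 := 536870912) (W2 := 536870912) (P3 := 201326592) (W3 := 134217728) (N0 := 3)
    rfl k0_mm_112

noncomputable def f_mm_113 : ℕ → ℕ → ℕ → ℕ → Bool := onCell 536870912 536870912 536870912 536870912 201326592 134217728
    (rowN 3 0 true false false .nn 1 1 3 (qsf 536870912 536870912 536870912 536870912 3) ndN3q1 ndN4q1 pcN3 Cut.none Ext.none)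

def k0_mm_113 : ∃ t, chk3 f_mm_113 t 1 1 1 = true :=
  ⟨(l 4), by decide +kernel⟩

theorem c_mm_113 : CertN 536870912 536870912 536870912 536870912 201326592 134217728 3 true false false .nn 1 1 3
    ndN3q1 ndN4q1 pcN3 Cut.none Ext.none :=
  certN0 (fam := true) (s1 := false) (s2 := false) (a := 1) (b := 1) (c := 3) (cn := .nn) (n1 := ndN3q1) (n2 := ndN4q1) (pc := pcN3) (cut := Cut.none) (xt := Ext.none) (P1 := 536870912) (W1 := 536870912) (P2 := 536870912) (W2 := 536870912) (P3 := 201326592) (W3 := 134217728) (N0 := 3)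
    rfl k0_mm_113

noncomputable def f_mm_123 : ℕ → ℕ → ℕ → ℕ → Bool := onCell 536870912 536870912 1073741824 536870912 201326592 134217728
    (rowN 3 0 true false false .npn 1 2 3 (qsf 536870912 536870912 1073741824 536870912 3) ndN3q1 ndN4q2 pcN3 Cut.none Ext.none)

def k0_mm_123 : ∃ t, chk3 f_mm_123 t 1 1 1 = true :=
  ⟨(l 4), by decide +kernel⟩

theorem c_mm_123 : CertN 536870912 536870912 1073741824 536870912 201326592 134217728 3 true false false .npn 1 2 3
    ndN3q1 ndN4q2 pcN3 Cut.none Ext.none :=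
  certN0 (fam := true) (s1 := false) (s2 := false) (a := 1) (b := 2) (c := 3) (cn := .npn) (n1 := ndN3q1) (n2 := ndN4q2) (pc := pcN3) (cut := Cut.none) (xt := Ext.none) (P1 := 536870912) (W1 := 536870912) (P2 := 1073741824) (W2 := 536870912) (P3 := 201326592) (W3 := 134217728) (N0 := 3)
    rfl k0_mm_123

noncomputable def f_mm_133 : ℕ → ℕ → ℕ → ℕ → Bool := onCell 536870912 536870912 0 1230186008 201326592 134217728
    (rowN 3 0 true false false .dn 1 3 3 (qsf 536870912 536870912 0 1230186008 3) ndN3q1 ndN4q3 pcN3 Cut.none Ext.none)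

def k0_mm_133 : ∃ t, chk3 f_mm_133 t 1 1 1 = true :=
  ⟨(l 4), by decide +kernel⟩

theorem c_mm_133 : CertN 536870912 536870912 0 1230186008 201326592 134217728 3 true false false .dn 1 3 3
    ndN3q1 ndN4q3 pcN3 Cut.none Ext.none :=
  certN0 (fam := true) (s1 := false) (s2 := false) (a := 1) (b := 3) (c := 3) (cn := .dn) (n1 := ndN3q1) (n2 := ndN4q3) (pc := pcN3) (cut := Cut.none) (xt := Ext.none) (P1 := 536870912) (W1 := 536870912) (P2 := 0) (W2 := 1230186008) (P3 := 201326592) (W3 := 134217728) (N0 := 3)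
    rfl k0_mm_133

noncomputable def f_mm_202 : ℕ → ℕ → ℕ → ℕ → Bool := onCell 1073741824 536870912 0 536870912 201326592 134217728
    (rowN 3 0 true false false .pp 2 0 2 (qsf 1073741824 536870912 0 536870912 2) ndN3q2 ndN4q0 pcN2 Cut.none Ext.none)

def k0_mm_202 : ∃ t, chk3 f_mm_202 t 1 1 1 = true :=
  ⟨(l 4), by decide +kernel⟩

theorem c_mm_202 : CertN 1073741824 536870912 0 536870912 201326592 134217728 3 true false false .pp 2 0 2
    ndN3q2 ndN4q0 pcN2 Cut.none Ext.none :=
  certN0 (fam := true) (s1 := false) (s2 := false) (a := 2) (b := 0) (c := 2) (cn := .pp) (n1 := ndN3q2) (n2 := ndN4q0) (pc := pcN2) (cut := Cut.none) (xt := Ext.none) (P1 := 1073741824) (W1 := 536870912) (P2 := 0) (W2 := 536870912) (P3 := 201326592) (W3 := 134217728) (N0 := 3)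
    rfl k0_mm_202

noncomputable def f_mm_203 : ℕ → ℕ → ℕ → ℕ → Bool := onCell 1073741824 536870912 0 536870912 201326592 134217728
    (rowN 3 0 true false false .up 2 0 3 (qsf 1073741824 536870912 0 536870912 3) ndN3q2 ndN4q0 pcN3 Cut.none Ext.none)

def k0_mm_203 : ∃ t, chk3 f_mm_203 t 1 1 1 = true :=
  ⟨(l 4), by decide +kernel⟩

theorem c_mm_203 : CertN 1073741824 536870912 0 536870912 201326592 134217728 3 true false false .up 2 0 3
    ndN3q2 ndN4q0 pcN3 Cut.none Ext.none :=
  certN0 (fam := true) (s1 := false) (s2 := false) (a := 2) (b := 0) (c := 3) (cn := .up) (n1 := ndN3q2) (n2 := ndN4q0) (pc := pcN3) (cut := Cut.none) (xt := Ext.none) (P1 := 1073741824) (W1 := 536870912) (P2 := 0) (W2 := 536870912) (P3 := 201326592) (W3 := 134217728) (N0 := 3)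
    rfl k0_mm_203

noncomputable def f_mm_213 : ℕ → ℕ → ℕ → ℕ → Bool := onCell 1073741824 536870912 536870912 536870912 201326592 134217728
    (rowN 3 0 true false false .pnn 2 1 3 (qsf 1073741824 536870912 536870912 536870912 3) ndN3q2 ndN4q1 pcN3 Cut.none Ext.none)

def k0_mm_213 : ∃ t, chk3 f_mm_213 t 1 1 1 = true :=
  ⟨(l 4), by decide +kernel⟩

theorem c_mm_213 : CertN 1073741824 536870912 536870912 536870912 201326592 134217728 3 true false false .pnn 2 1 3
    ndN3q2 ndN4q1 pcN3 Cut.none Ext.none :=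
  certN0 (fam := true) (s1 := false) (s2 := false) (a := 2) (b := 1) (c := 3) (cn := .pnn) (n1 := ndN3q2) (n2 := ndN4q1) (pc := pcN3) (cut := Cut.none) (xt := Ext.none) (P1 := 1073741824) (W1 := 536870912) (P2 := 536870912) (W2 := 536870912) (P3 := 201326592) (W3 := 134217728) (N0 := 3)
    rfl k0_mm_213

noncomputable def f_mm_303 : ℕ → ℕ → ℕ → ℕ → Bool := onCell 0 1230186008 0 536870912 201326592 134217728
    (rowN 3 0 true false false .npn 3 0 3 (qsf 0 1230186008 0 536870912 3) ndN3q3 ndN4q0 pcN3 Cut.none Ext.none)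

def k0_mm_303 : ∃ t, chk3 f_mm_303 t 1 1 1 = true :=
  ⟨(l 4), by decide +kernel⟩

theorem c_mm_303 : CertN 0 1230186008 0 536870912 201326592 134217728 3 true false false .npn 3 0 3
    ndN3q3 ndN4q0 pcN3 Cut.none Ext.none :=
  certN0 (fam := true) (s1 := false) (s2 := false) (a := 3) (b := 0) (c := 3) (cn := .npn) (n1 := ndN3q3) (n2 := ndN4q0) (pc := pcN3) (cut := Cut.none) (xt := Ext.none) (P1 := 0) (W1 := 1230186008) (P2 := 0) (W2 := 536870912) (P3 := 201326592) (W3 := 134217728) (N0 := 3)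
    rfl k0_mm_303

noncomputable def f_mm_313 : ℕ → ℕ → ℕ → ℕ → Bool := onCell 0 1230186008 536870912 536870912 201326592 134217728
    (rowN 3 0 true false false .dn 3 1 3 (qsf 0 1230186008 536870912 536870912 3) ndN3q3 ndN4q1 pcN3 Cut.none Ext.none)

def k0_mm_313 : ∃ t, chk3 f_mm_313 t 1 1 1 = true :=
  ⟨(l 4), by decide +kernel⟩

theorem c_mm_313 : CertN 0 1230186008 536870912 536870912 201326592 134217728 3 true false false .dn 3 1 3
    ndN3q3 ndN4q1 pcN3 Cut.none Ext.none :=
  certN0 (fam := true) (s1 := false) (s2 := false) (a := 3) (b := 1) (c := 3) (cn := .dn) (n1 := ndN3q3) (n2 := ndN4q1) (pc := pcN3) (cut := Cut.none) (xt := Ext.none) (P1 := 0) (W1 := 1230186008) (P2 := 536870912) (W2 := 536870912) (P3 := 201326592) (W3 := 134217728) (N0 := 3)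
    rfl k0_mm_313

end Pool.Agent.Strip051.G.I3_16_5_16.Tab.C.NA34

namespace Pool.Agent.Strip051.G.I3_16_5_16.Tab.C.NA35

open Pool.Agent.Strip051.PB Pool.Agent.Strip051.PB.T
open Pool.Agent.Strip051.G.I3_16_5_16.Tab

noncomputable def f_pp_001 : ℕ → ℕ → ℕ → ℕ → Bool := onCell 0 536870912 0 536870912 201326592 134217728
    (rowN 3 0 true true true .up 0 0 1 (qsf 0 536870912 0 536870912 1) ndN3q0 ndN5q0 pcN1 Cut.none Ext.none)

def k0_pp_001 : ∃ t, chk3 f_pp_001 t 1 1 1 = true :=
  ⟨(l 4), by decide +kernel⟩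

theorem c_pp_001 : CertN 0 536870912 0 536870912 201326592 134217728 3 true true true .up 0 0 1
    ndN3q0 ndN5q0 pcN1 Cut.none Ext.none :=
  certN0 (fam := true) (s1 := true) (s2 := true) (a := 0) (b := 0) (c := 1) (cn := .up) (n1 := ndN3q0) (n2 := ndN5q0) (pc := pcN1) (cut := Cut.none) (xt := Ext.none) (P1 := 0) (W1 := 536870912) (P2 := 0) (W2 := 536870912) (P3 := 201326592) (W3 := 134217728) (N0 := 3)
    rfl k0_pp_001

noncomputable def f_pp_011 : ℕ → ℕ → ℕ → ℕ → Bool := onCell 0 536870912 536870912 536870912 201326592 134217728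
    (rowN 3 0 true true true .pnn 0 1 1 (qsf 0 536870912 536870912 536870912 1) ndN3q0 ndN5q1 pcN1 Cut.none Ext.none)

def k0_pp_011 : ∃ t, chk3 f_pp_011 t 1 1 1 = true :=
  ⟨(l 4), by decide +kernel⟩

theorem c_pp_011 : CertN 0 536870912 536870912 536870912 201326592 134217728 3 true true true .pnn 0 1 1
    ndN3q0 ndN5q1 pcN1 Cut.none Ext.none :=
  certN0 (fam := true) (s1 := true) (s2 := true) (a := 0) (b := 1) (c := 1) (cn := .pnn) (n1 := ndN3q0) (n2 := ndN5q1) (pc := pcN1) (cut := Cut.none) (xt := Ext.none) (P1 := 0) (W1 := 536870912) (P2 := 536870912) (W2 := 536870912) (P3 := 201326592) (W3 := 134217728) (N0 := 3)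
    rfl k0_pp_011

noncomputable def f_pp_012 : ℕ → ℕ → ℕ → ℕ → Bool := onCell 0 536870912 536870912 536870912 201326592 134217728
    (rowN 3 0 true true true .pnp 0 1 2 (qsf 0 536870912 536870912 536870912 2) ndN3q0 ndN5q1 pcN2 Cut.none Ext.none)

def k0_pp_012 : ∃ t, chk3 f_pp_012 t 1 1 1 = true :=
  ⟨(l 4), by decide +kernel⟩

theorem c_pp_012 : CertN 0 536870912 536870912 536870912 201326592 134217728 3 true true true .pnp 0 1 2
    ndN3q0 ndN5q1 pcN2 Cut.none Ext.none :=
  certN0 (fam := true) (s1 := true) (s2 := true) (a := 0) (b := 1) (c := 2) (cn := .pnp) (n1 := ndN3q0) (n2 := ndN5q1) (pc := pcN2) (cut := Cut.none) (xt := Ext.none) (P1 := 0) (W1 := 536870912) (P2 := 536870912) (W2 := 536870912) (P3 := 201326592) (W3 := 134217728) (N0 := 3)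
    rfl k0_pp_012

noncomputable def f_pp_022 : ℕ → ℕ → ℕ → ℕ → Bool := onCell 0 536870912 1073741824 536870912 201326592 134217728
    (rowN 3 0 true true true .pp 0 2 2 (qsf 0 536870912 1073741824 536870912 2) ndN3q0 ndN5q2 pcN2 Cut.none Ext.none)

def k0_pp_022 : ∃ t, chk3 f_pp_022 t 1 1 1 = true :=
  ⟨(l 4), by decide +kernel⟩

theorem c_pp_022 : CertN 0 536870912 1073741824 536870912 201326592 134217728 3 true true true .pp 0 2 2
    ndN3q0 ndN5q2 pcN2 Cut.none Ext.none :=
  certN0 (fam := true) (s1 := true) (s2 := true) (a := 0) (b := 2) (c := 2) (cn := .pp) (n1 := ndN3q0) (n2 := ndN5q2) (pc := pcN2) (cut := Cut.none) (xt := Ext.none) (P1 := 0) (W1 := 536870912) (P2 := 1073741824) (W2 := 536870912) (P3 := 201326592) (W3 := 134217728) (N0 := 3)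
    rfl k0_pp_022

noncomputable def f_pp_023 : ℕ → ℕ → ℕ → ℕ → Bool := onCell 0 536870912 1073741824 536870912 201326592 134217728
    (rowN 3 0 true true true .up 0 2 3 (qsf 0 536870912 1073741824 536870912 3) ndN3q0 ndN5q2 pcN3 Cut.none Ext.none)

def k0_pp_023 : ∃ t, chk3 f_pp_023 t 1 1 1 = true :=
  ⟨(l 4), by decide +kernel⟩

theorem c_pp_023 : CertN 0 536870912 1073741824 536870912 201326592 134217728 3 true true true .up 0 2 3
    ndN3q0 ndN5q2 pcN3 Cut.none Ext.none :=
  certN0 (fam := true) (s1 := true) (s2 := true) (a := 0) (b := 2) (c := 3) (cn := .up) (n1 := ndN3q0) (n2 := ndN5q2) (pc := pcN3) (cut := Cut.none) (xt := Ext.none) (P1 := 0) (W1 := 536870912) (P2 := 1073741824) (W2 := 536870912) (P3 := 201326592) (W3 := 134217728) (N0 := 3)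
    rfl k0_pp_023

noncomputable def f_pp_033 : ℕ → ℕ → ℕ → ℕ → Bool := onCell 0 536870912 0 1230186008 201326592 134217728
    (rowN 3 0 true true true .pnn 0 3 3 (qsf 0 536870912 0 1230186008 3) ndN3q0 ndN5q3 pcN3 Cut.none Ext.none)

def k0_pp_033 : ∃ t, chk3 f_pp_033 t 1 1 1 = true :=
  ⟨(l 4), by decide +kernel⟩

theorem c_pp_033 : CertN 0 536870912 0 1230186008 201326592 134217728 3 true true true .pnn 0 3 3
    ndN3q0 ndN5q3 pcN3 Cut.none Ext.none :=
  certN0 (fam := true) (s1 := true) (s2 := true) (a := 0) (b := 3) (c := 3) (cn := .pnn) (n1 := ndN3q0) (n2 := ndN5q3) (pc := pcN3) (cut := Cut.none) (xt := Ext.none) (P1 := 0) (W1 := 536870912) (P2 := 0) (W2 := 1230186008) (P3 := 201326592) (W3 := 134217728) (N0 := 3)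
    rfl k0_pp_033

noncomputable def f_pp_101 : ℕ → ℕ → ℕ → ℕ → Bool := onCell 536870912 536870912 0 536870912 201326592 134217728
    (rowN 3 0 true true true .npn 1 0 1 (qsf 536870912 536870912 0 536870912 1) ndN3q1 ndN5q0 pcN1 Cut.none Ext.none)

def k0_pp_101 : ∃ t, chk3 f_pp_101 t 1 1 1 = true :=
  ⟨(l 4), by decide +kernel⟩

theorem c_pp_101 : CertN 536870912 536870912 0 536870912 201326592 134217728 3 true true true .npn 1 0 1
    ndN3q1 ndN5q0 pcN1 Cut.none Ext.none :=
  certN0 (fam := true) (s1 := true) (s2 := true) (a := 1) (b := 0) (c := 1) (cn := .npn) (n1 := ndN3q1) (n2 := ndN5q0) (pc := pcN1) (cut := Cut.none) (xt := Ext.none) (P1 := 536870912) (W1 := 536870912) (P2 := 0) (W2 := 536870912) (P3 := 201326592) (W3 := 134217728) (N0 := 3)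
    rfl k0_pp_101

noncomputable def f_pp_102 : ℕ → ℕ → ℕ → ℕ → Bool := onCell 536870912 536870912 0 536870912 201326592 134217728
    (rowN 3 0 true true true .npp 1 0 2 (qsf 536870912 536870912 0 536870912 2) ndN3q1 ndN5q0 pcN2 Cut.none Ext.none)

def k0_pp_102 : ∃ t, chk3 f_pp_102 t 1 1 1 = true :=
  ⟨(l 4), by decide +kernel⟩

theorem c_pp_102 : CertN 536870912 536870912 0 536870912 201326592 134217728 3 true true true .npp 1 0 2
    ndN3q1 ndN5q0 pcN2 Cut.none Ext.none :=
  certN0 (fam := true) (s1 := true) (s2 := true) (a := 1) (b := 0) (c := 2) (cn := .npp) (n1 := ndN3q1) (n2 := ndN5q0) (pc := pcN2) (cut := Cut.none) (xt := Ext.none) (P1 := 536870912) (W1 := 536870912) (P2 := 0) (W2 := 536870912) (P3 := 201326592) (W3 := 134217728) (N0 := 3)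
    rfl k0_pp_102

noncomputable def f_pp_112 : ℕ → ℕ → ℕ → ℕ → Bool := onCell 536870912 536870912 536870912 536870912 201326592 134217728
    (rowN 3 0 true true true .dn 1 1 2 (qsf 536870912 536870912 536870912 536870912 2) ndN3q1 ndN5q1 pcN2 Cut.none Ext.none)

def k0_pp_112 : ∃ t, chk3 f_pp_112 t 1 1 1 = true :=
  ⟨(l 4), by decide +kernel⟩

theorem c_pp_112 : CertN 536870912 536870912 536870912 536870912 201326592 134217728 3 true true true .dn 1 1 2
    ndN3q1 ndN5q1 pcN2 Cut.none Ext.none :=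
  certN0 (fam := true) (s1 := true) (s2 := true) (a := 1) (b := 1) (c := 2) (cn := .dn) (n1 := ndN3q1) (n2 := ndN5q1) (pc := pcN2) (cut := Cut.none) (xt := Ext.none) (P1 := 536870912) (W1 := 536870912) (P2 := 536870912) (W2 := 536870912) (P3 := 201326592) (W3 := 134217728) (N0 := 3)
    rfl k0_pp_112

noncomputable def f_pp_113 : ℕ → ℕ → ℕ → ℕ → Bool := onCell 536870912 536870912 536870912 536870912 201326592 134217728
    (rowN 3 0 true true true .nn 1 1 3 (qsf 536870912 536870912 536870912 536870912 3) ndN3q1 ndN5q1 pcN3 Cut.none Ext.none)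

def k0_pp_113 : ∃ t, chk3 f_pp_113 t 1 1 1 = true :=
  ⟨(l 4), by decide +kernel⟩

theorem c_pp_113 : CertN 536870912 536870912 536870912 536870912 201326592 134217728 3 true true true .nn 1 1 3
    ndN3q1 ndN5q1 pcN3 Cut.none Ext.none :=
  certN0 (fam := true) (s1 := true) (s2 := true) (a := 1) (b := 1) (c := 3) (cn := .nn) (n1 := ndN3q1) (n2 := ndN5q1) (pc := pcN3) (cut := Cut.none) (xt := Ext.none) (P1 := 536870912) (W1 := 536870912) (P2 := 536870912) (W2 := 536870912) (P3 := 201326592) (W3 := 134217728) (N0 := 3)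
    rfl k0_pp_113

noncomputable def f_pp_123 : ℕ → ℕ → ℕ → ℕ → Bool := onCell 536870912 536870912 1073741824 536870912 201326592 134217728
    (rowN 3 0 true true true .npn 1 2 3 (qsf 536870912 536870912 1073741824 536870912 3) ndN3q1 ndN5q2 pcN3 Cut.none Ext.none)

def k0_pp_123 : ∃ t, chk3 f_pp_123 t 1 1 1 = true :=
  ⟨(l 4), by decide +kernel⟩

theorem c_pp_123 : CertN 536870912 536870912 1073741824 536870912 201326592 134217728 3 true true true .npn 1 2 3
    ndN3q1 ndN5q2 pcN3 Cut.none Ext.none :=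
  certN0 (fam := true) (s1 := true) (s2 := true) (a := 1) (b := 2) (c := 3) (cn := .npn) (n1 := ndN3q1) (n2 := ndN5q2) (pc := pcN3) (cut := Cut.none) (xt := Ext.none) (P1 := 536870912) (W1 := 536870912) (P2 := 1073741824) (W2 := 536870912) (P3 := 201326592) (W3 := 134217728) (N0 := 3)
    rfl k0_pp_123

noncomputable def f_pp_133 : ℕ → ℕ → ℕ → ℕ → Bool := onCell 536870912 536870912 0 1230186008 201326592 134217728
    (rowN 3 0 true true true .dn 1 3 3 (qsf 536870912 536870912 0 1230186008 3) ndN3q1 ndN5q3 pcN3 Cut.none Ext.none)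

def k0_pp_133 : ∃ t, chk3 f_pp_133 t 1 1 1 = true :=
  ⟨(l 4), by decide +kernel⟩

theorem c_pp_133 : CertN 536870912 536870912 0 1230186008 201326592 134217728 3 true true true .dn 1 3 3
    ndN3q1 ndN5q3 pcN3 Cut.none Ext.none :=
  certN0 (fam := true) (s1 := true) (s2 := true) (a := 1) (b := 3) (c := 3) (cn := .dn) (n1 := ndN3q1) (n2 := ndN5q3) (pc := pcN3) (cut := Cut.none) (xt := Ext.none) (P1 := 536870912) (W1 := 536870912) (P2 := 0) (W2 := 1230186008) (P3 := 201326592) (W3 := 134217728) (N0 := 3)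
    rfl k0_pp_133

noncomputable def f_pp_202 : ℕ → ℕ → ℕ → ℕ → Bool := onCell 1073741824 536870912 0 536870912 201326592 134217728
    (rowN 3 0 true true true .pp 2 0 2 (qsf 1073741824 536870912 0 536870912 2) ndN3q2 ndN5q0 pcN2 Cut.none Ext.none)

def k0_pp_202 : ∃ t, chk3 f_pp_202 t 1 1 1 = true :=
  ⟨(l 4), by decide +kernel⟩

theorem c_pp_202 : CertN 1073741824 536870912 0 536870912 201326592 134217728 3 true true true .pp 2 0 2
    ndN3q2 ndN5q0 pcN2 Cut.none Ext.none :=
  certN0 (fam := true) (s1 := true) (s2 := true) (a := 2) (b := 0) (c := 2) (cn := .pp) (n1 := ndN3q2) (n2 := ndN5q0) (pc := pcN2) (cut := Cut.none) (xt := Ext.none) (P1 := 1073741824) (W1 := 536870912) (P2 := 0) (W2 := 536870912) (P3 := 201326592) (W3 := 134217728) (N0 := 3)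
    rfl k0_pp_202

noncomputable def f_pp_203 : ℕ → ℕ → ℕ → ℕ → Bool := onCell 1073741824 536870912 0 536870912 201326592 134217728
    (rowN 3 0 true true true .up 2 0 3 (qsf 1073741824 536870912 0 536870912 3) ndN3q2 ndN5q0 pcN3 Cut.none Ext.none)

def k0_pp_203 : ∃ t, chk3 f_pp_203 t 1 1 1 = true :=
  ⟨(l 4), by decide +kernel⟩

theorem c_pp_203 : CertN 1073741824 536870912 0 536870912 201326592 134217728 3 true true true .up 2 0 3
    ndN3q2 ndN5q0 pcN3 Cut.none Ext.none :=
  certN0 (fam := true) (s1 := true) (s2 := true) (a := 2) (b := 0) (c := 3) (cn := .up) (n1 := ndN3q2) (n2 := ndN5q0) (pc := pcN3) (cut := Cut.none) (xt := Ext.none) (P1 := 1073741824) (W1 := 536870912) (P2 := 0) (W2 := 536870912) (P3 := 201326592) (W3 := 134217728) (N0 := 3)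
    rfl k0_pp_203

noncomputable def f_pp_213 : ℕ → ℕ → ℕ → ℕ → Bool := onCell 1073741824 536870912 536870912 536870912 201326592 134217728
    (rowN 3 0 true true true .pnn 2 1 3 (qsf 1073741824 536870912 536870912 536870912 3) ndN3q2 ndN5q1 pcN3 Cut.none Ext.none)

def k0_pp_213 : ∃ t, chk3 f_pp_213 t 1 1 1 = true :=
  ⟨(l 4), by decide +kernel⟩

theorem c_pp_213 : CertN 1073741824 536870912 536870912 536870912 201326592 134217728 3 true true true .pnn 2 1 3
    ndN3q2 ndN5q1 pcN3 Cut.none Ext.none :=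
  certN0 (fam := true) (s1 := true) (s2 := true) (a := 2) (b := 1) (c := 3) (cn := .pnn) (n1 := ndN3q2) (n2 := ndN5q1) (pc := pcN3) (cut := Cut.none) (xt := Ext.none) (P1 := 1073741824) (W1 := 536870912) (P2 := 536870912) (W2 := 536870912) (P3 := 201326592) (W3 := 134217728) (N0 := 3)
    rfl k0_pp_213

noncomputable def f_pp_303 : ℕ → ℕ → ℕ → ℕ → Bool := onCell 0 1230186008 0 536870912 201326592 134217728
    (rowN 3 0 true true true .npn 3 0 3 (qsf 0 1230186008 0 536870912 3) ndN3q3 ndN5q0 pcN3 Cut.none Ext.none)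

def k0_pp_303 : ∃ t, chk3 f_pp_303 t 1 1 1 = true :=
  ⟨(l 4), by decide +kernel⟩

theorem c_pp_303 : CertN 0 1230186008 0 536870912 201326592 134217728 3 true true true .npn 3 0 3
    ndN3q3 ndN5q0 pcN3 Cut.none Ext.none :=
  certN0 (fam := true) (s1 := true) (s2 := true) (a := 3) (b := 0) (c := 3) (cn := .npn) (n1 := ndN3q3) (n2 := ndN5q0) (pc := pcN3) (cut := Cut.none) (xt := Ext.none) (P1 := 0) (W1 := 1230186008) (P2 := 0) (W2 := 536870912) (P3 := 201326592) (W3 := 134217728) (N0 := 3)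
    rfl k0_pp_303

noncomputable def f_pp_313 : ℕ → ℕ → ℕ → ℕ → Bool := onCell 0 1230186008 536870912 536870912 201326592 134217728
    (rowN 3 0 true true true .dn 3 1 3 (qsf 0 1230186008 536870912 536870912 3) ndN3q3 ndN5q1 pcN3 Cut.none Ext.none)

def k0_pp_313 : ∃ t, chk3 f_pp_313 t 1 1 1 = true :=
  ⟨(l 4), by decide +kernel⟩

theorem c_pp_313 : CertN 0 1230186008 536870912 536870912 201326592 134217728 3 true true true .dn 3 1 3
    ndN3q3 ndN5q1 pcN3 Cut.none Ext.none :=
  certN0 (fam := true) (s1 := true) (s2 := true) (a := 3) (b := 1) (c := 3) (cn := .dn) (n1 := ndN3q3) (n2 := ndN5q1) (pc := pcN3) (cut := Cut.none) (xt := Ext.none) (P1 := 0) (W1 := 1230186008) (P2 := 536870912) (W2 := 536870912) (P3 := 201326592) (W3 := 134217728) (N0 := 3)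
    rfl k0_pp_313

noncomputable def f_pm_001 : ℕ → ℕ → ℕ → ℕ → Bool := onCell 0 536870912 0 536870912 201326592 134217728
    (rowN 3 0 true true false .up 0 0 1 (qsf 0 536870912 0 536870912 1) ndN3q0 ndN5q0 pcN1 Cut.none Ext.none)

def k0_pm_001 : ∃ t, chk3 f_pm_001 t 1 1 1 = true :=
  ⟨(l 3), by decide +kernel⟩

theorem c_pm_001 : CertN 0 536870912 0 536870912 201326592 134217728 3 true true false .up 0 0 1
    ndN3q0 ndN5q0 pcN1 Cut.none Ext.none :=
  certN0 (fam := true) (s1 := true) (s2 := false) (a := 0) (b := 0) (c := 1) (cn := .up) (n1 := ndN3q0) (n2 := ndN5q0) (pc := pcN1) (cut := Cut.none) (xt := Ext.none) (P1 := 0) (W1 := 536870912) (P2 := 0) (W2 := 536870912) (P3 := 201326592) (W3 := 134217728) (N0 := 3)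
    rfl k0_pm_001

noncomputable def f_pm_011 : ℕ → ℕ → ℕ → ℕ → Bool := onCell 0 536870912 536870912 536870912 201326592 134217728
    (rowN 3 1 true true false .pnn 0 1 1 (qsf 0 536870912 536870912 536870912 1) ndN3q0 ndN5q1 pcN1 Cut.none Ext.none)

def k0_pm_011 : ∃ t, chk3 f_pm_011 t 1 1 1 = true :=
  ⟨(b (l 3) (l 3)), by decide +kernel⟩

theorem c_pm_011 : CertN 0 536870912 536870912 536870912 201326592 134217728 3 true true false .pnn 0 1 1
    ndN3q0 ndN5q1 pcN1 Cut.none Ext.none :=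
  certN1 (fam := true) (s1 := true) (s2 := false) (a := 0) (b := 1) (c := 1) (cn := .pnn) (n1 := ndN3q0) (n2 := ndN5q1) (pc := pcN1) (cut := Cut.none) (xt := Ext.none) (P1 := 0) (W1 := 536870912) (P2 := 536870912) (W2 := 536870912) (P3 := 201326592) (W3 := 134217728) (N0 := 3)
    rfl (fun _ => rfl) k0_pm_011

noncomputable def f_pm_012 : ℕ → ℕ → ℕ → ℕ → Bool := onCell 1073741824 536870912 536870912 536870912 201326592 134217728
    (rowN 3 2 true true false .pnp 0 1 2 (qsf 0 536870912 536870912 536870912 2) ndN3q0 ndN5q1 pcN2 Cut.none Ext.none)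

def k0_pm_012 : ∃ t, chk3 f_pm_012 t 1 1 1 = true :=
  ⟨(a (a (b (l 3) (a (l 3) (b (l 3) (b (l 3) (a (l 3) (l 258403534215)))))) (b (a (a (a (b (l 17383952) (l 17337368)) (a (b (l 2) (l 17380848)) (c (l 17567544) (l 17546600)))) (b (l 2) (l 17476776))) (b (l 2) (l 17612344))) (a (a (a (b (l 17001208) (b (l 16915496) (l 16911720))) (a (b (l 17094568) (b (l 16909392) (l 16902928))) (b (a (l 17138592) (l 17166760)) (a (l 16903144) (b (l 16901040) (l 17018520)))))) (b (l 17285432) (b (l 16879512) (l 16869296)))) (b (l 17545384) (b (l 17235784) (l 16813184)))))) (a (b (b (l 2) (l 17791912)) (b (l 17881648) (b (l 17845152) (l 17844184)))) (b (l 2) (b (l 18092384) (l 18238200))))), by decide +kernel⟩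

theorem c_pm_012 : CertN 0 536870912 536870912 536870912 201326592 134217728 3 true true false .pnp 0 1 2
    ndN3q0 ndN5q1 pcN2 Cut.none Ext.none :=
  certN2 (fam := true) (s1 := true) (s2 := false) (a := 0) (b := 1) (c := 2) (cn := .pnp) (n1 := ndN3q0) (n2 := ndN5q1) (pc := pcN2) (cut := Cut.none) (xt := Ext.none) (P1 := 0) (W1 := 536870912) (P2 := 536870912) (W2 := 536870912) (P3 := 201326592) (W3 := 134217728) (N0 := 3)
    rfl (fun _ => rfl) k0_pm_012

noncomputable def f_pm_022 : ℕ → ℕ → ℕ → ℕ → Bool := onCell 0 536870912 1073741824 536870912 201326592 134217728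
    (rowN 3 1 true true false .pp 0 2 2 (qsf 0 536870912 1073741824 536870912 2) ndN3q0 ndN5q2 pcN2 Cut.none Ext.none)

def k0_pm_022 : ∃ t, chk3 f_pm_022 t 1 1 1 = true :=
  ⟨(b (b (a (b (l 3) (b (l 3) (a (a (b (l 16956664) (l 16930208)) (b (l 3) (l 16929120))) (a (b (l 1) (l 16922528)) (l 1))))) (l 1)) (a (b (b (b (a (a (l 16906576) (l 16909152)) (a (l 16905304) (l 1))) (a (b (a (l 16889072) (l 16896040)) (b (a (l 16879408) (l 16888536)) (b (a (l 16875024) (l 16883752)) (a (l 16873184) (l 16880520))))) (b (l 16895520) (b (l 16890800) (b (l 16886968) (l 16884288)))))) (a (a (l 16844560) (l 16854992)) (a (l 16861544) (l 16861776)))) (a (a (l 16760528) (l 16782032)) (a (l 16797296) (l 16805912)))) (b (l 1) (a (a (l 16808480) (l 1)) (l 1))))) (b (a (a (a (b (l 16642616) (l 17035344)) (b (l 16681920) (l 17133896))) (b (l 16867200) (l 17360560))) (a (b (l 330210890471) (l 17718704)) (b (l 1) (l 18062712)))) (a (a (a (b (l 17397976) (l 17612560)) (l 17591744)) (a (l 17691224)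 (l 17807336))) (a (l 18235512) (l 18271208))))), by decide +kernel⟩

theorem c_pm_022 : CertN 0 536870912 1073741824 536870912 201326592 134217728 3 true true false .pp 0 2 2
    ndN3q0 ndN5q2 pcN2 Cut.none Ext.none :=
  certN1 (fam := true) (s1 := true) (s2 := false) (a := 0) (b := 2) (c := 2) (cn := .pp) (n1 := ndN3q0) (n2 := ndN5q2) (pc := pcN2) (cut := Cut.none) (xt := Ext.none) (P1 := 0) (W1 := 536870912) (P2 := 1073741824) (W2 := 536870912) (P3 := 201326592) (W3 := 134217728) (N0 := 3)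
    rfl (fun _ => rfl) k0_pm_022

noncomputable def f_pm_023 : ℕ → ℕ → ℕ → ℕ → Bool := onCell 0 536870912 1073741824 536870912 201326592 134217728
    (rowN 3 0 true true false .up 0 2 3 (qsf 0 536870912 1073741824 536870912 3) ndN3q0 ndN5q2 pcN3 Cut.none Ext.none)

def k0_pm_023 : ∃ t, chk3 f_pm_023 t 1 1 1 = true :=
  ⟨(a (b (a (l 1) (l 473018232423)) (b (l 591130648343) (a (l 17706040) (l 17907328)))) (b (b (l 504158587655) (l 18186976)) (b (a (l 18066272) (l 18087272)) (b (l 17950968) (a (l 17873568) (a (l 17811104) (a (l 17775504) (b (l 17788608) (l 17711024))))))))), by decide +kernel⟩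

theorem c_pm_023 : CertN 0 536870912 1073741824 536870912 201326592 134217728 3 true true false .up 0 2 3
    ndN3q0 ndN5q2 pcN3 Cut.none Ext.none :=
  certN0 (fam := true) (s1 := true) (s2 := false) (a := 0) (b := 2) (c := 3) (cn := .up) (n1 := ndN3q0) (n2 := ndN5q2) (pc := pcN3) (cut := Cut.none) (xt := Ext.none) (P1 := 0) (W1 := 536870912) (P2 := 1073741824) (W2 := 536870912) (P3 := 201326592) (W3 := 134217728) (N0 := 3)
    rfl k0_pm_023

noncomputable def f_pm_033 : ℕ → ℕ → ℕ → ℕ → Bool := onCell 1610612736 536870912 0 1230186008 201326592 134217728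
    (rowN 3 2 true true false .pnn 0 3 3 (qsf 0 536870912 0 1230186008 3) ndN3q0 ndN5q3 pcN3 Cut.none Ext.none)

def k0_pm_033 : ∃ t, chk3 f_pm_033 t 1 1 1 = true :=
  ⟨(b (a (l 1) (a (l 1) (a (b (l 1) (l 17334568)) (l 4)))) (b (a (b (l 1) (a (l 1) (a (l 1) (a (l 1) (l 17639560))))) (a (b (a (l 1) (l 17402328)) (c (l 17590008) (l 380139969559))) (a (l 17369288) (a (l 4) (l 4))))) (a (b (a (l 1) (a (l 862787447831) (b (l 17706192) (l 17735208)))) (a (b (l 904126481639) (l 17738264)) (b (l 18008576) (l 17818800)))) (a (b (a (l 17661096) (l 17562568)) (l 17735200)) (a (b (l 17486968) (l 17638216)) (a (l 17523976) (b (l 4) (l 17576864)))))))), by decide +kernel⟩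

theorem c_pm_033 : CertN 0 536870912 0 1230186008 201326592 134217728 3 true true false .pnn 0 3 3
    ndN3q0 ndN5q3 pcN3 Cut.none Ext.none :=
  certN2 (fam := true) (s1 := true) (s2 := false) (a := 0) (b := 3) (c := 3) (cn := .pnn) (n1 := ndN3q0) (n2 := ndN5q3) (pc := pcN3) (cut := Cut.none) (xt := Ext.none) (P1 := 0) (W1 := 536870912) (P2 := 0) (W2 := 1230186008) (P3 := 201326592) (W3 := 134217728) (N0 := 3)
    rfl (fun _ => rfl) k0_pm_033

noncomputable def f_pm_101 : ℕ → ℕ → ℕ → ℕ → Bool := onCell 536870912 536870912 536870912 536870912 201326592 134217728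
    (rowN 3 1 true true false .npn 1 0 1 (qsf 536870912 536870912 0 536870912 1) ndN3q1 ndN5q0 pcN1 Cut.none Ext.none)

def k0_pm_101 : ∃ t, chk3 f_pm_101 t 1 1 1 = true :=
  ⟨(l 3), by decide +kernel⟩

theorem c_pm_101 : CertN 536870912 536870912 0 536870912 201326592 134217728 3 true true false .npn 1 0 1
    ndN3q1 ndN5q0 pcN1 Cut.none Ext.none :=
  certN1 (fam := true) (s1 := true) (s2 := false) (a := 1) (b := 0) (c := 1) (cn := .npn) (n1 := ndN3q1) (n2 := ndN5q0) (pc := pcN1) (cut := Cut.none) (xt := Ext.none) (P1 := 536870912) (W1 := 536870912) (P2 := 0) (W2 := 536870912) (P3 := 201326592) (W3 := 134217728) (N0 := 3)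
    rfl (fun _ => rfl) k0_pm_101

noncomputable def f_pm_102 : ℕ → ℕ → ℕ → ℕ → Bool := onCell 536870912 536870912 1073741824 536870912 201326592 134217728
    (rowN 3 1 true true false .npp 1 0 2 (qsf 536870912 536870912 0 536870912 2) ndN3q1 ndN5q0 pcN2 Cut.none Ext.none)

def k0_pm_102 : ∃ t, chk3 f_pm_102 t 1 1 1 = true :=
  ⟨(a (b (b (l 3) (a (b (b (b (a (l 2) (l 18285968)) (l 2)) (l 2)) (l 2)) (b (b (b (l 18397136) (b (l 18433312) (a (l 18413784) (l 18502328)))) (l 18532736)) (l 18597688)))) (a (l 2) (b (a (l 2) (l 18600448)) (l 2)))) (b (a (b (l 3) (b (b (b (l 18718480) (b (l 18626176) (a (l 18581360) (l 18662248)))) (l 18723896)) (l 18824704))) (b (a (l 3) (b (l 3) (l 18731184))) (a (b (b (b (l 18730232) (b (l 18758816) (l 18780992))) (l 18849080)) (l 19023064)) (b (b (b (l 18818024) (b (l 18841464) (l 18860864))) (l 18922552)) (l 19101296))))) (a (b (a (l 18650464) (l 18718288)) (a (l 2) (l 18465112))) (a (b (l 18855168) (l 18538000)) (b (l 18946984) (l 18580864)))))),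 by decide +kernel⟩

theorem c_pm_102 : CertN 536870912 536870912 0 536870912 201326592 134217728 3 true true false .npp 1 0 2
    ndN3q1 ndN5q0 pcN2 Cut.none Ext.none :=
  certN1 (fam := true) (s1 := true) (s2 := false) (a := 1) (b := 0) (c := 2) (cn := .npp) (n1 := ndN3q1) (n2 := ndN5q0) (pc := pcN2) (cut := Cut.none) (xt := Ext.none) (P1 := 536870912) (W1 := 536870912) (P2 := 0) (W2 := 536870912) (P3 := 201326592) (W3 := 134217728) (N0 := 3)
    rfl (fun _ => rfl) k0_pm_102

noncomputable def f_pm_112 : ℕ → ℕ → ℕ → ℕ → Bool := onCell 536870912 536870912 1073741824 536870912 201326592 134217728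
    (rowN 3 1 true true false .dn 1 1 2 (qsf 536870912 536870912 536870912 536870912 2) ndN3q1 ndN5q1 pcN2 Cut.none Ext.none)

def k0_pm_112 : ∃ t, chk3 f_pm_112 t 1 1 1 = true :=
  ⟨(a (b (b (l 3) (a (b (b (b (a (l 18242336) (l 18283120)) (b (l 18504488) (a (l 18304056) (l 18345784)))) (l 18531648)) (l 18582440)) (b (b (b (l 18389664) (b (l 18426448) (a (l 18411744) (l 1)))) (l 18522176)) (l 18584616)))) (a (a (l 18493024) (l 18469920)) (b (l 18550032) (l 18394920)))) (b (a (b (l 1) (b (l 1) (l 18821112))) (l 1)) (a (a (l 18543592) (l 18594120)) (a (l 18725128) (l 18772144))))), by decide +kernel⟩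

theorem c_pm_112 : CertN 536870912 536870912 536870912 536870912 201326592 134217728 3 true true false .dn 1 1 2
    ndN3q1 ndN5q1 pcN2 Cut.none Ext.none :=
  certN1 (fam := true) (s1 := true) (s2 := false) (a := 1) (b := 1) (c := 2) (cn := .dn) (n1 := ndN3q1) (n2 := ndN5q1) (pc := pcN2) (cut := Cut.none) (xt := Ext.none) (P1 := 536870912) (W1 := 536870912) (P2 := 536870912) (W2 := 536870912) (P3 := 201326592) (W3 := 134217728) (N0 := 3)
    rfl (fun _ => rfl) k0_pm_112

noncomputable def f_pm_113 : ℕ → ℕ → ℕ → ℕ → Bool := onCell 536870912 536870912 536870912 536870912 201326592 134217728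
    (rowN 3 0 true true false .nn 1 1 3 (qsf 536870912 536870912 536870912 536870912 3) ndN3q1 ndN5q1 pcN3 Cut.none Ext.none)

def k0_pm_113 : ∃ t, chk3 f_pm_113 t 1 1 1 = true :=
  ⟨(b (a (a (l 1) (l 528318769943)) (a (l 544424551303) (a (l 18269032) (l 18113184)))) (a (a (a (l 18492200) (l 18375496)) (l 408058728055)) (a (a (l 17904080) (l 17708608)) (a (l 17491520) (b (l 17499240) (b (l 17186960) (b (l 17044048) (a (l 17007664) (b (l 16911960) (a (l 16893256) (l 16833352))))))))))), by decide +kernel⟩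

theorem c_pm_113 : CertN 536870912 536870912 536870912 536870912 201326592 134217728 3 true true false .nn 1 1 3
    ndN3q1 ndN5q1 pcN3 Cut.none Ext.none :=
  certN0 (fam := true) (s1 := true) (s2 := false) (a := 1) (b := 1) (c := 3) (cn := .nn) (n1 := ndN3q1) (n2 := ndN5q1) (pc := pcN3) (cut := Cut.none) (xt := Ext.none) (P1 := 536870912) (W1 := 536870912) (P2 := 536870912) (W2 := 536870912) (P3 := 201326592) (W3 := 134217728) (N0 := 3)
    rfl k0_pm_113

noncomputable def f_pm_123 : ℕ → ℕ → ℕ → ℕ → Bool := onCell 536870912 536870912 1610612736 536870912 201326592 134217728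
    (rowN 3 1 true true false .npn 1 2 3 (qsf 536870912 536870912 1073741824 536870912 3) ndN3q1 ndN5q2 pcN3 Cut.none Ext.none)

def k0_pm_123 : ∃ t, chk3 f_pm_123 t 1 1 1 = true :=
  ⟨(a (b (a (a (l 18019088) (l 18097064)) (a (l 18157696) (l 18196440))) (b (a (a (l 17350432) (l 17399904)) (l 17451304)) (a (b (a (l 17014280) (l 17074288)) (b (l 16876960) (a (l 16812424) (l 16827408)))) (b (l 17107488) (b (l 16944624) (b (l 16873848) (l 16817712))))))) (b (a (a (l 18228808) (l 1)) (l 1)) (a (b (a (l 17480808) (l 17501552)) (b (a (l 17115944) (l 17124488)) (b (l 16932864) (a (l 16832376) (l 16841336))))) (b (a (l 17493232) (l 1)) (a (b (l 17117080) (b (l 16930552) (b (l 16857344) (l 16802816)))) (b (l 17150392) (b (l 16962624) (l 16837680)))))))), by decide +kernel⟩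

theorem c_pm_123 : CertN 536870912 536870912 1073741824 536870912 201326592 134217728 3 true true false .npn 1 2 3
    ndN3q1 ndN5q2 pcN3 Cut.none Ext.none :=
  certN1 (fam := true) (s1 := true) (s2 := false) (a := 1) (b := 2) (c := 3) (cn := .npn) (n1 := ndN3q1) (n2 := ndN5q2) (pc := pcN3) (cut := Cut.none) (xt := Ext.none) (P1 := 536870912) (W1 := 536870912) (P2 := 1073741824) (W2 := 536870912) (P3 := 201326592) (W3 := 134217728) (N0 := 3)
    rfl (fun _ => rfl) k0_pm_123

noncomputable def f_pm_133 : ℕ → ℕ → ℕ → ℕ → Bool := onCell 536870912 536870912 0 1230186008 201326592 134217728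
    (rowN 3 0 true true false .dn 1 3 3 (qsf 536870912 536870912 0 1230186008 3) ndN3q1 ndN5q3 pcN3 Cut.none Ext.none)

def k0_pm_133 : ∃ t, chk3 f_pm_133 t 1 1 1 = true :=
  ⟨(b (l 2) (b (l 2) (a (b (l 2) (l 4)) (l 2)))), by decide +kernel⟩

theorem c_pm_133 : CertN 536870912 536870912 0 1230186008 201326592 134217728 3 true true false .dn 1 3 3
    ndN3q1 ndN5q3 pcN3 Cut.none Ext.none :=
  certN0 (fam := true) (s1 := true) (s2 := false) (a := 1) (b := 3) (c := 3) (cn := .dn) (n1 := ndN3q1) (n2 := ndN5q3) (pc := pcN3) (cut := Cut.none) (xt := Ext.none) (P1 := 536870912) (W1 := 536870912) (P2 := 0) (W2 := 1230186008) (P3 := 201326592) (W3 := 134217728) (N0 := 3)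
    rfl k0_pm_133

noncomputable def f_pm_202 : ℕ → ℕ → ℕ → ℕ → Bool := onCell 1073741824 536870912 1073741824 536870912 201326592 134217728
    (rowN 3 1 true true false .pp 2 0 2 (qsf 1073741824 536870912 0 536870912 2) ndN3q2 ndN5q0 pcN2 Cut.none Ext.none)

def k0_pm_202 : ∃ t, chk3 f_pm_202 t 1 1 1 = true :=
  ⟨(a (b (a (b (a (b (l 18448136) (b (l 18504072) (l 18340288))) (b (a (l 18236504) (l 1)) (a (b (l 18320624) (l 18455656)) (b (a (l 18385384) (l 1)) (a (l 18426088) (l 18394064)))))) (a (b (l 18372808) (l 18301344)) (a (b (l 18424328) (l 18333360)) (b (a (l 18437888) (l 18410856)) (l 18346968))))) (b (a (b (l 1) (b (l 1) (a (a (l 18355232) (l 1)) (l 1)))) (l 1)) (a (b (a (a (l 18386032) (l 18354120)) (l 18277512)) (a (l 18505968) (l 18308000))) (b (l 255586487399) (l 18184624))))) (a (b (a (l 18215696) (a (l 18211880) (l 18204624))) (a (l 18087488) (a (l 18046480) (l 18017224)))) (a (b (a (a (l 18227488) (l 18233424)) (l 18227512)) (a (l 18009480) (l 17983232)))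 (b (l 18180792) (l 17945816))))) (b (a (b (l 1) (a (b (l 1) (l 18004968)) (l 1))) (l 1)) (a (b (a (l 18018680) (l 17952984)) (a (l 17901864) (l 17756232))) (b (a (b (l 1) (l 17696000)) (l 1)) (a (l 17697808) (l 17535320)))))), by decide +kernel⟩

theorem c_pm_202 : CertN 1073741824 536870912 0 536870912 201326592 134217728 3 true true false .pp 2 0 2
    ndN3q2 ndN5q0 pcN2 Cut.none Ext.none :=
  certN1 (fam := true) (s1 := true) (s2 := false) (a := 2) (b := 0) (c := 2) (cn := .pp) (n1 := ndN3q2) (n2 := ndN5q0) (pc := pcN2) (cut := Cut.none) (xt := Ext.none) (P1 := 1073741824) (W1 := 536870912) (P2 := 0) (W2 := 536870912) (P3 := 201326592) (W3 := 134217728) (N0 := 3)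
    rfl (fun _ => rfl) k0_pm_202

noncomputable def f_pm_203 : ℕ → ℕ → ℕ → ℕ → Bool := onCell 1073741824 536870912 1610612736 536870912 201326592 134217728
    (rowN 3 1 true true false .up 2 0 3 (qsf 1073741824 536870912 0 536870912 3) ndN3q2 ndN5q0 pcN3 Cut.none Ext.none)

def k0_pm_203 : ∃ t, chk3 f_pm_203 t 1 1 1 = true :=
  ⟨(a (b (a (b (a (l 17824944) (a (l 17731544) (b (l 17715480) (l 17666496)))) (a (l 2) (a (l 2) (b (l 17593600) (l 2))))) (a (b (a (b (l 17702792) (l 17640952)) (l 17646416)) (b (a (l 17551248) (l 17504600)) (l 4))) (b (l 17784664) (l 4)))) (l 4)) (b (b (a (a (l 17530096) (l 17584248)) (a (b (l 17454976) (l 4)) (l 4))) (l 4)) (l 4))), by decide +kernel⟩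

theorem c_pm_203 : CertN 1073741824 536870912 0 536870912 201326592 134217728 3 true true false .up 2 0 3
    ndN3q2 ndN5q0 pcN3 Cut.none Ext.none :=
  certN1 (fam := true) (s1 := true) (s2 := false) (a := 2) (b := 0) (c := 3) (cn := .up) (n1 := ndN3q2) (n2 := ndN5q0) (pc := pcN3) (cut := Cut.none) (xt := Ext.none) (P1 := 1073741824) (W1 := 536870912) (P2 := 0) (W2 := 536870912) (P3 := 201326592) (W3 := 134217728) (N0 := 3)
    rfl (fun _ => rfl) k0_pm_203

noncomputable def f_pm_213 : ℕ → ℕ → ℕ → ℕ → Bool := onCell 1073741824 536870912 536870912 536870912 201326592 134217728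
    (rowN 3 0 true true false .pnn 2 1 3 (qsf 1073741824 536870912 536870912 536870912 3) ndN3q2 ndN5q1 pcN3 Cut.none Ext.none)

def k0_pm_213 : ∃ t, chk3 f_pm_213 t 1 1 1 = true :=
  ⟨(a (b (a (b (a (b (l 17768176) (l 17729896)) (a (b (l 17686784) (l 17612552)) (b (l 17608560) (l 4)))) (a (c (l 17836936) (l 17601712)) (l 4))) (b (a (a (b (l 17520856) (l 4)) (l 4)) (l 4)) (l 4))) (l 4)) (l 4)), by decide +kernel⟩

theorem c_pm_213 : CertN 1073741824 536870912 536870912 536870912 201326592 134217728 3 true true false .pnn 2 1 3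
    ndN3q2 ndN5q1 pcN3 Cut.none Ext.none :=
  certN0 (fam := true) (s1 := true) (s2 := false) (a := 2) (b := 1) (c := 3) (cn := .pnn) (n1 := ndN3q2) (n2 := ndN5q1) (pc := pcN3) (cut := Cut.none) (xt := Ext.none) (P1 := 1073741824) (W1 := 536870912) (P2 := 536870912) (W2 := 536870912) (P3 := 201326592) (W3 := 134217728) (N0 := 3)
    rfl k0_pm_213

noncomputable def f_pm_303 : ℕ → ℕ → ℕ → ℕ → Bool := onCell 0 1230186008 1610612736 536870912 201326592 134217728
    (rowN 3 1 true true false .npn 3 0 3 (qsf 0 1230186008 0 536870912 3) ndN3q3 ndN5q0 pcN3 Cut.none Ext.none)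

def k0_pm_303 : ∃ t, chk3 f_pm_303 t 1 1 1 = true :=
  ⟨(a (l 4) (a (l 4) (b (l 4) (l 4)))), by decide +kernel⟩

theorem c_pm_303 : CertN 0 1230186008 0 536870912 201326592 134217728 3 true true false .npn 3 0 3
    ndN3q3 ndN5q0 pcN3 Cut.none Ext.none :=
  certN1 (fam := true) (s1 := true) (s2 := false) (a := 3) (b := 0) (c := 3) (cn := .npn) (n1 := ndN3q3) (n2 := ndN5q0) (pc := pcN3) (cut := Cut.none) (xt := Ext.none) (P1 := 0) (W1 := 1230186008) (P2 := 0) (W2 := 536870912) (P3 := 201326592) (W3 := 134217728) (N0 := 3)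
    rfl (fun _ => rfl) k0_pm_303

noncomputable def f_pm_313 : ℕ → ℕ → ℕ → ℕ → Bool := onCell 0 1230186008 536870912 536870912 201326592 134217728
    (rowN 3 0 true true false .dn 3 1 3 (qsf 0 1230186008 536870912 536870912 3) ndN3q3 ndN5q1 pcN3 Cut.none Ext.none)

def k0_pm_313 : ∃ t, chk3 f_pm_313 t 1 1 1 = true :=
  ⟨(a (l 2) (l 4)), by decide +kernel⟩

theorem c_pm_313 : CertN 0 1230186008 536870912 536870912 201326592 134217728 3 true true false .dn 3 1 3
    ndN3q3 ndN5q1 pcN3 Cut.none Ext.none :=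
  certN0 (fam := true) (s1 := true) (s2 := false) (a := 3) (b := 1) (c := 3) (cn := .dn) (n1 := ndN3q3) (n2 := ndN5q1) (pc := pcN3) (cut := Cut.none) (xt := Ext.none) (P1 := 0) (W1 := 1230186008) (P2 := 536870912) (W2 := 536870912) (P3 := 201326592) (W3 := 134217728) (N0 := 3)
    rfl k0_pm_313

noncomputable def f_mm_001 : ℕ → ℕ → ℕ → ℕ → Bool := onCell 0 536870912 0 536870912 201326592 134217728
    (rowN 3 0 true false false .up 0 0 1 (qsf 0 536870912 0 536870912 1) ndN3q0 ndN5q0 pcN1 Cut.none Ext.none)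

def k0_mm_001 : ∃ t, chk3 f_mm_001 t 1 1 1 = true :=
  ⟨(l 4), by decide +kernel⟩

theorem c_mm_001 : CertN 0 536870912 0 536870912 201326592 134217728 3 true false false .up 0 0 1
    ndN3q0 ndN5q0 pcN1 Cut.none Ext.none :=
  certN0 (fam := true) (s1 := false) (s2 := false) (a := 0) (b := 0) (c := 1) (cn := .up) (n1 := ndN3q0) (n2 := ndN5q0) (pc := pcN1) (cut := Cut.none) (xt := Ext.none) (P1 := 0) (W1 := 536870912) (P2 := 0) (W2 := 536870912) (P3 := 201326592) (W3 := 134217728) (N0 := 3)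
    rfl k0_mm_001

noncomputable def f_mm_011 : ℕ → ℕ → ℕ → ℕ → Bool := onCell 0 536870912 536870912 536870912 201326592 134217728
    (rowN 3 0 true false false .pnn 0 1 1 (qsf 0 536870912 536870912 536870912 1) ndN3q0 ndN5q1 pcN1 Cut.none Ext.none)

def k0_mm_011 : ∃ t, chk3 f_mm_011 t 1 1 1 = true :=
  ⟨(l 4), by decide +kernel⟩

theorem c_mm_011 : CertN 0 536870912 536870912 536870912 201326592 134217728 3 true false false .pnn 0 1 1
    ndN3q0 ndN5q1 pcN1 Cut.none Ext.none :=
  certN0 (fam := true) (s1 := false) (s2 := false) (a := 0) (b := 1) (c := 1) (cn := .pnn) (n1 := ndN3q0) (n2 := ndN5q1) (pc := pcN1) (cut := Cut.none) (xt := Ext.none) (P1 := 0) (W1 := 536870912) (P2 := 536870912) (W2 := 536870912) (P3 := 201326592) (W3 := 134217728) (N0 := 3)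
    rfl k0_mm_011

noncomputable def f_mm_012 : ℕ → ℕ → ℕ → ℕ → Bool := onCell 0 536870912 536870912 536870912 201326592 134217728
    (rowN 3 0 true false false .pnp 0 1 2 (qsf 0 536870912 536870912 536870912 2) ndN3q0 ndN5q1 pcN2 Cut.none Ext.none)

def k0_mm_012 : ∃ t, chk3 f_mm_012 t 1 1 1 = true :=
  ⟨(l 4), by decide +kernel⟩

theorem c_mm_012 : CertN 0 536870912 536870912 536870912 201326592 134217728 3 true false false .pnp 0 1 2
    ndN3q0 ndN5q1 pcN2 Cut.none Ext.none :=
  certN0 (fam := true) (s1 := false) (s2 := false) (a := 0) (b := 1) (c := 2) (cn := .pnp) (n1 := ndN3q0) (n2 := ndN5q1) (pc := pcN2) (cut := Cut.none) (xt := Ext.none) (P1 := 0) (W1 := 536870912) (P2 := 536870912) (W2 := 536870912) (P3 := 201326592) (W3 := 134217728) (N0 := 3)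
    rfl k0_mm_012

noncomputable def f_mm_022 : ℕ → ℕ → ℕ → ℕ → Bool := onCell 0 536870912 1073741824 536870912 201326592 134217728
    (rowN 3 0 true false false .pp 0 2 2 (qsf 0 536870912 1073741824 536870912 2) ndN3q0 ndN5q2 pcN2 Cut.none Ext.none)

def k0_mm_022 : ∃ t, chk3 f_mm_022 t 1 1 1 = true :=
  ⟨(l 4), by decide +kernel⟩

theorem c_mm_022 : CertN 0 536870912 1073741824 536870912 201326592 134217728 3 true false false .pp 0 2 2
    ndN3q0 ndN5q2 pcN2 Cut.none Ext.none :=
  certN0 (fam := true) (s1 := false) (s2 := false) (a := 0) (b := 2) (c := 2) (cn := .pp) (n1 := ndN3q0) (n2 := ndN5q2) (pc := pcN2) (cut := Cut.none) (xt := Ext.none) (P1 := 0) (W1 := 536870912) (P2 := 1073741824) (W2 := 536870912) (P3 := 201326592) (W3 := 134217728) (N0 := 3)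
    rfl k0_mm_022

noncomputable def f_mm_023 : ℕ → ℕ → ℕ → ℕ → Bool := onCell 0 536870912 1073741824 536870912 201326592 134217728
    (rowN 3 0 true false false .up 0 2 3 (qsf 0 536870912 1073741824 536870912 3) ndN3q0 ndN5q2 pcN3 Cut.none Ext.none)

def k0_mm_023 : ∃ t, chk3 f_mm_023 t 1 1 1 = true :=
  ⟨(l 4), by decide +kernel⟩

theorem c_mm_023 : CertN 0 536870912 1073741824 536870912 201326592 134217728 3 true false false .up 0 2 3
    ndN3q0 ndN5q2 pcN3 Cut.none Ext.none :=
  certN0 (fam := true) (s1 := false) (s2 := false) (a := 0) (b := 2) (c := 3) (cn := .up) (n1 := ndN3q0) (n2 := ndN5q2) (pc := pcN3) (cut := Cut.none) (xt := Ext.none) (P1 := 0) (W1 := 536870912) (P2 := 1073741824) (W2 := 536870912) (P3 := 201326592) (W3 := 134217728) (N0 := 3)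
    rfl k0_mm_023

noncomputable def f_mm_033 : ℕ → ℕ → ℕ → ℕ → Bool := onCell 0 536870912 0 1230186008 201326592 134217728
    (rowN 3 0 true false false .pnn 0 3 3 (qsf 0 536870912 0 1230186008 3) ndN3q0 ndN5q3 pcN3 Cut.none Ext.none)

def k0_mm_033 : ∃ t, chk3 f_mm_033 t 1 1 1 = true :=
  ⟨(l 4), by decide +kernel⟩

theorem c_mm_033 : CertN 0 536870912 0 1230186008 201326592 134217728 3 true false false .pnn 0 3 3
    ndN3q0 ndN5q3 pcN3 Cut.none Ext.none :=
  certN0 (fam := true) (s1 := false) (s2 := false) (a := 0) (b := 3) (c := 3) (cn := .pnn) (n1 := ndN3q0) (n2 := ndN5q3) (pc := pcN3) (cut := Cut.none) (xt := Ext.none) (P1 := 0) (W1 := 536870912) (P2 := 0) (W2 := 1230186008) (P3 := 201326592) (W3 := 134217728) (N0 := 3)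
    rfl k0_mm_033

noncomputable def f_mm_101 : ℕ → ℕ → ℕ → ℕ → Bool := onCell 536870912 536870912 0 536870912 201326592 134217728
    (rowN 3 0 true false false .npn 1 0 1 (qsf 536870912 536870912 0 536870912 1) ndN3q1 ndN5q0 pcN1 Cut.none Ext.none)

def k0_mm_101 : ∃ t, chk3 f_mm_101 t 1 1 1 = true :=
  ⟨(l 4), by decide +kernel⟩

theorem c_mm_101 : CertN 536870912 536870912 0 536870912 201326592 134217728 3 true false false .npn 1 0 1
    ndN3q1 ndN5q0 pcN1 Cut.none Ext.none :=
  certN0 (fam := true) (s1 := false) (s2 := false) (a := 1) (b := 0) (c := 1) (cn := .npn) (n1 := ndN3q1) (n2 := ndN5q0) (pc := pcN1) (cut := Cut.none) (xt := Ext.none) (P1 := 536870912) (W1 := 536870912) (P2 := 0) (W2 := 536870912) (P3 := 201326592) (W3 := 134217728) (N0 := 3)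
    rfl k0_mm_101

noncomputable def f_mm_102 : ℕ → ℕ → ℕ → ℕ → Bool := onCell 536870912 536870912 0 536870912 201326592 134217728
    (rowN 3 0 true false false .npp 1 0 2 (qsf 536870912 536870912 0 536870912 2) ndN3q1 ndN5q0 pcN2 Cut.none Ext.none)

def k0_mm_102 : ∃ t, chk3 f_mm_102 t 1 1 1 = true :=
  ⟨(l 4), by decide +kernel⟩

theorem c_mm_102 : CertN 536870912 536870912 0 536870912 201326592 134217728 3 true false false .npp 1 0 2
    ndN3q1 ndN5q0 pcN2 Cut.none Ext.none :=
  certN0 (fam := true) (s1 := false) (s2 := false) (a := 1) (b := 0) (c := 2) (cn := .npp) (n1 := ndN3q1) (n2 := ndN5q0) (pc := pcN2) (cut := Cut.none) (xt := Ext.none) (P1 := 536870912) (W1 := 536870912) (P2 := 0) (W2 := 536870912) (P3 := 201326592) (W3 := 134217728) (N0 := 3)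
    rfl k0_mm_102

noncomputable def f_mm_112 : ℕ → ℕ → ℕ → ℕ → Bool := onCell 536870912 536870912 536870912 536870912 201326592 134217728
    (rowN 3 0 true false false .dn 1 1 2 (qsf 536870912 536870912 536870912 536870912 2) ndN3q1 ndN5q1 pcN2 Cut.none Ext.none)

def k0_mm_112 : ∃ t, chk3 f_mm_112 t 1 1 1 = true :=
  ⟨(l 4), by decide +kernel⟩

theorem c_mm_112 : CertN 536870912 536870912 536870912 536870912 201326592 134217728 3 true false false .dn 1 1 2
    ndN3q1 ndN5q1 pcN2 Cut.none Ext.none :=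
  certN0 (fam := true) (s1 := false) (s2 := false) (a := 1) (b := 1) (c := 2) (cn := .dn) (n1 := ndN3q1) (n2 := ndN5q1) (pc := pcN2) (cut := Cut.none) (xt := Ext.none) (P1 := 536870912) (W1 := 536870912) (P2 := 536870912) (W2 := 536870912) (P3 := 201326592) (W3 := 134217728) (N0 := 3)
    rfl k0_mm_112

noncomputable def f_mm_113 : ℕ → ℕ → ℕ → ℕ → Bool := onCell 536870912 536870912 536870912 536870912 201326592 134217728
    (rowN 3 0 true false false .nn 1 1 3 (qsf 536870912 536870912 536870912 536870912 3) ndN3q1 ndN5q1 pcN3 Cut.none Ext.none)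

def k0_mm_113 : ∃ t, chk3 f_mm_113 t 1 1 1 = true :=
  ⟨(l 4), by decide +kernel⟩

theorem c_mm_113 : CertN 536870912 536870912 536870912 536870912 201326592 134217728 3 true false false .nn 1 1 3
    ndN3q1 ndN5q1 pcN3 Cut.none Ext.none :=
  certN0 (fam := true) (s1 := false) (s2 := false) (a := 1) (b := 1) (c := 3) (cn := .nn) (n1 := ndN3q1) (n2 := ndN5q1) (pc := pcN3) (cut := Cut.none) (xt := Ext.none) (P1 := 536870912) (W1 := 536870912) (P2 := 536870912) (W2 := 536870912) (P3 := 201326592) (W3 := 134217728) (N0 := 3)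
    rfl k0_mm_113

noncomputable def f_mm_123 : ℕ → ℕ → ℕ → ℕ → Bool := onCell 536870912 536870912 1073741824 536870912 201326592 134217728
    (rowN 3 0 true false false .npn 1 2 3 (qsf 536870912 536870912 1073741824 536870912 3) ndN3q1 ndN5q2 pcN3 Cut.none Ext.none)

def k0_mm_123 : ∃ t, chk3 f_mm_123 t 1 1 1 = true :=
  ⟨(l 4), by decide +kernel⟩

theorem c_mm_123 : CertN 536870912 536870912 1073741824 536870912 201326592 134217728 3 true false false .npn 1 2 3
    ndN3q1 ndN5q2 pcN3 Cut.none Ext.none :=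
  certN0 (fam := true) (s1 := false) (s2 := false) (a := 1) (b := 2) (c := 3) (cn := .npn) (n1 := ndN3q1) (n2 := ndN5q2) (pc := pcN3) (cut := Cut.none) (xt := Ext.none) (P1 := 536870912) (W1 := 536870912) (P2 := 1073741824) (W2 := 536870912) (P3 := 201326592) (W3 := 134217728) (N0 := 3)
    rfl k0_mm_123

noncomputable def f_mm_133 : ℕ → ℕ → ℕ → ℕ → Bool := onCell 536870912 536870912 0 1230186008 201326592 134217728
    (rowN 3 0 true false false .dn 1 3 3 (qsf 536870912 536870912 0 1230186008 3) ndN3q1 ndN5q3 pcN3 Cut.none Ext.none)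

def k0_mm_133 : ∃ t, chk3 f_mm_133 t 1 1 1 = true :=
  ⟨(l 4), by decide +kernel⟩

theorem c_mm_133 : CertN 536870912 536870912 0 1230186008 201326592 134217728 3 true false false .dn 1 3 3
    ndN3q1 ndN5q3 pcN3 Cut.none Ext.none :=
  certN0 (fam := true) (s1 := false) (s2 := false) (a := 1) (b := 3) (c := 3) (cn := .dn) (n1 := ndN3q1) (n2 := ndN5q3) (pc := pcN3) (cut := Cut.none) (xt := Ext.none) (P1 := 536870912) (W1 := 536870912) (P2 := 0) (W2 := 1230186008) (P3 := 201326592) (W3 := 134217728) (N0 := 3)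
    rfl k0_mm_133

noncomputable def f_mm_202 : ℕ → ℕ → ℕ → ℕ → Bool := onCell 1073741824 536870912 0 536870912 201326592 134217728
    (rowN 3 0 true false false .pp 2 0 2 (qsf 1073741824 536870912 0 536870912 2) ndN3q2 ndN5q0 pcN2 Cut.none Ext.none)

def k0_mm_202 : ∃ t, chk3 f_mm_202 t 1 1 1 = true :=
  ⟨(l 4), by decide +kernel⟩

theorem c_mm_202 : CertN 1073741824 536870912 0 536870912 201326592 134217728 3 true false false .pp 2 0 2
    ndN3q2 ndN5q0 pcN2 Cut.none Ext.none :=
  certN0 (fam := true) (s1 := false) (s2 := false) (a := 2) (b := 0) (c := 2) (cn := .pp) (n1 := ndN3q2) (n2 := ndN5q0) (pc := pcN2) (cut := Cut.none) (xt := Ext.none) (P1 := 1073741824) (W1 := 536870912) (P2 := 0) (W2 := 536870912) (P3 := 201326592) (W3 := 134217728) (N0 := 3)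
    rfl k0_mm_202

noncomputable def f_mm_203 : ℕ → ℕ → ℕ → ℕ → Bool := onCell 1073741824 536870912 0 536870912 201326592 134217728
    (rowN 3 0 true false false .up 2 0 3 (qsf 1073741824 536870912 0 536870912 3) ndN3q2 ndN5q0 pcN3 Cut.none Ext.none)

def k0_mm_203 : ∃ t, chk3 f_mm_203 t 1 1 1 = true :=
  ⟨(l 4), by decide +kernel⟩

theorem c_mm_203 : CertN 1073741824 536870912 0 536870912 201326592 134217728 3 true false false .up 2 0 3
    ndN3q2 ndN5q0 pcN3 Cut.none Ext.none :=
  certN0 (fam := true) (s1 := false) (s2 := false) (a := 2) (b := 0) (c := 3) (cn := .up) (n1 := ndN3q2) (n2 := ndN5q0) (pc := pcN3) (cut := Cut.none) (xt := Ext.none) (P1 := 1073741824) (W1 := 536870912) (P2 := 0) (W2 := 536870912) (P3 := 201326592) (W3 := 134217728) (N0 := 3)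
    rfl k0_mm_203

noncomputable def f_mm_213 : ℕ → ℕ → ℕ → ℕ → Bool := onCell 1073741824 536870912 536870912 536870912 201326592 134217728
    (rowN 3 0 true false false .pnn 2 1 3 (qsf 1073741824 536870912 536870912 536870912 3) ndN3q2 ndN5q1 pcN3 Cut.none Ext.none)

def k0_mm_213 : ∃ t, chk3 f_mm_213 t 1 1 1 = true :=
  ⟨(l 4), by decide +kernel⟩

theorem c_mm_213 : CertN 1073741824 536870912 536870912 536870912 201326592 134217728 3 true false false .pnn 2 1 3
    ndN3q2 ndN5q1 pcN3 Cut.none Ext.none :=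
  certN0 (fam := true) (s1 := false) (s2 := false) (a := 2) (b := 1) (c := 3) (cn := .pnn) (n1 := ndN3q2) (n2 := ndN5q1) (pc := pcN3) (cut := Cut.none) (xt := Ext.none) (P1 := 1073741824) (W1 := 536870912) (P2 := 536870912) (W2 := 536870912) (P3 := 201326592) (W3 := 134217728) (N0 := 3)
    rfl k0_mm_213

noncomputable def f_mm_303 : ℕ → ℕ → ℕ → ℕ → Bool := onCell 0 1230186008 0 536870912 201326592 134217728
    (rowN 3 0 true false false .npn 3 0 3 (qsf 0 1230186008 0 536870912 3) ndN3q3 ndN5q0 pcN3 Cut.none Ext.none)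

def k0_mm_303 : ∃ t, chk3 f_mm_303 t 1 1 1 = true :=
  ⟨(l 4), by decide +kernel⟩

theorem c_mm_303 : CertN 0 1230186008 0 536870912 201326592 134217728 3 true false false .npn 3 0 3
    ndN3q3 ndN5q0 pcN3 Cut.none Ext.none :=
  certN0 (fam := true) (s1 := false) (s2 := false) (a := 3) (b := 0) (c := 3) (cn := .npn) (n1 := ndN3q3) (n2 := ndN5q0) (pc := pcN3) (cut := Cut.none) (xt := Ext.none) (P1 := 0) (W1 := 1230186008) (P2 := 0) (W2 := 536870912) (P3 := 201326592) (W3 := 134217728) (N0 := 3)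
    rfl k0_mm_303

noncomputable def f_mm_313 : ℕ → ℕ → ℕ → ℕ → Bool := onCell 0 1230186008 536870912 536870912 201326592 134217728
    (rowN 3 0 true false false .dn 3 1 3 (qsf 0 1230186008 536870912 536870912 3) ndN3q3 ndN5q1 pcN3 Cut.none Ext.none)

def k0_mm_313 : ∃ t, chk3 f_mm_313 t 1 1 1 = true :=
  ⟨(l 4), by decide +kernel⟩

theorem c_mm_313 : CertN 0 1230186008 536870912 536870912 201326592 134217728 3 true false false .dn 3 1 3
    ndN3q3 ndN5q1 pcN3 Cut.none Ext.none :=
  certN0 (fam := true) (s1 := false) (s2 := false) (a := 3) (b := 1) (c := 3) (cn := .dn) (n1 := ndN3q3) (n2 := ndN5q1) (pc := pcN3) (cut := Cut.none) (xt := Ext.none) (P1 := 0) (W1 := 1230186008) (P2 := 536870912) (W2 := 536870912) (P3 := 201326592) (W3 := 134217728) (N0 := 3)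
    rfl k0_mm_313

end Pool.Agent.Strip051.G.I3_16_5_16.Tab.C.NA35

namespace Pool.Agent.Strip051.G.I3_16_5_16.Tab.C.NA44

open Pool.Agent.Strip051.PB Pool.Agent.Strip051.PB.T
open Pool.Agent.Strip051.G.I3_16_5_16.Tab

noncomputable def f_pp_001 : ℕ → ℕ → ℕ → ℕ → Bool := onCell 0 536870912 0 536870912 201326592 134217728
    (rowN 3 0 true true true .up 0 0 1 (qsf 0 536870912 0 536870912 1) ndN4q0 ndN4q0 pcN1 Cut.none Ext.none)

def k0_pp_001 : ∃ t, chk3 f_pp_001 t 1 1 1 = true :=
  ⟨(l 4), by decide +kernel⟩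

theorem c_pp_001 : CertN 0 536870912 0 536870912 201326592 134217728 3 true true true .up 0 0 1
    ndN4q0 ndN4q0 pcN1 Cut.none Ext.none :=
  certN0 (fam := true) (s1 := true) (s2 := true) (a := 0) (b := 0) (c := 1) (cn := .up) (n1 := ndN4q0) (n2 := ndN4q0) (pc := pcN1) (cut := Cut.none) (xt := Ext.none) (P1 := 0) (W1 := 536870912) (P2 := 0) (W2 := 536870912) (P3 := 201326592) (W3 := 134217728) (N0 := 3)
    rfl k0_pp_001

noncomputable def f_pp_011 : ℕ → ℕ → ℕ → ℕ → Bool := onCell 0 536870912 536870912 536870912 201326592 134217728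
    (rowN 3 0 true true true .pnn 0 1 1 (qsf 0 536870912 536870912 536870912 1) ndN4q0 ndN4q1 pcN1 Cut.none Ext.none)

def k0_pp_011 : ∃ t, chk3 f_pp_011 t 1 1 1 = true :=
  ⟨(l 4), by decide +kernel⟩

theorem c_pp_011 : CertN 0 536870912 536870912 536870912 201326592 134217728 3 true true true .pnn 0 1 1
    ndN4q0 ndN4q1 pcN1 Cut.none Ext.none :=
  certN0 (fam := true) (s1 := true) (s2 := true) (a := 0) (b := 1) (c := 1) (cn := .pnn) (n1 := ndN4q0) (n2 := ndN4q1) (pc := pcN1) (cut := Cut.none) (xt := Ext.none) (P1 := 0) (W1 := 536870912) (P2 := 536870912) (W2 := 536870912) (P3 := 201326592) (W3 := 134217728) (N0 := 3)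
    rfl k0_pp_011

noncomputable def f_pp_012 : ℕ → ℕ → ℕ → ℕ → Bool := onCell 0 536870912 536870912 536870912 201326592 134217728
    (rowN 3 0 true true true .pnp 0 1 2 (qsf 0 536870912 536870912 536870912 2) ndN4q0 ndN4q1 pcN2 Cut.none Ext.none)

def k0_pp_012 : ∃ t, chk3 f_pp_012 t 1 1 1 = true :=
  ⟨(l 4), by decide +kernel⟩

theorem c_pp_012 : CertN 0 536870912 536870912 536870912 201326592 134217728 3 true true true .pnp 0 1 2
    ndN4q0 ndN4q1 pcN2 Cut.none Ext.none :=
  certN0 (fam := true) (s1 := true) (s2 := true) (a := 0) (b := 1) (c := 2) (cn := .pnp) (n1 := ndN4q0) (n2 := ndN4q1) (pc := pcN2) (cut := Cut.none) (xt := Ext.none) (P1 := 0) (W1 := 536870912) (P2 := 536870912) (W2 := 536870912) (P3 := 201326592) (W3 := 134217728) (N0 := 3)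
    rfl k0_pp_012

noncomputable def f_pp_022 : ℕ → ℕ → ℕ → ℕ → Bool := onCell 0 536870912 1073741824 536870912 201326592 134217728
    (rowN 3 0 true true true .pp 0 2 2 (qsf 0 536870912 1073741824 536870912 2) ndN4q0 ndN4q2 pcN2 Cut.none Ext.none)

def k0_pp_022 : ∃ t, chk3 f_pp_022 t 1 1 1 = true :=
  ⟨(l 4), by decide +kernel⟩

theorem c_pp_022 : CertN 0 536870912 1073741824 536870912 201326592 134217728 3 true true true .pp 0 2 2
    ndN4q0 ndN4q2 pcN2 Cut.none Ext.none :=
  certN0 (fam := true) (s1 := true) (s2 := true) (a := 0) (b := 2) (c := 2) (cn := .pp) (n1 := ndN4q0) (n2 := ndN4q2) (pc := pcN2) (cut := Cut.none) (xt := Ext.none) (P1 := 0) (W1 := 536870912) (P2 := 1073741824) (W2 := 536870912) (P3 := 201326592) (W3 := 134217728) (N0 := 3)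
    rfl k0_pp_022

noncomputable def f_pp_023 : ℕ → ℕ → ℕ → ℕ → Bool := onCell 0 536870912 1073741824 536870912 201326592 134217728
    (rowN 3 0 true true true .up 0 2 3 (qsf 0 536870912 1073741824 536870912 3) ndN4q0 ndN4q2 pcN3 Cut.none Ext.none)

def k0_pp_023 : ∃ t, chk3 f_pp_023 t 1 1 1 = true :=
  ⟨(l 4), by decide +kernel⟩

theorem c_pp_023 : CertN 0 536870912 1073741824 536870912 201326592 134217728 3 true true true .up 0 2 3
    ndN4q0 ndN4q2 pcN3 Cut.none Ext.none :=
  certN0 (fam := true) (s1 := true) (s2 := true) (a := 0) (b := 2) (c := 3) (cn := .up) (n1 := ndN4q0) (n2 := ndN4q2) (pc := pcN3) (cut := Cut.none) (xt := Ext.none) (P1 := 0) (W1 := 536870912) (P2 := 1073741824) (W2 := 536870912) (P3 := 201326592) (W3 := 134217728) (N0 := 3)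
    rfl k0_pp_023

noncomputable def f_pp_033 : ℕ → ℕ → ℕ → ℕ → Bool := onCell 0 536870912 0 1230186008 201326592 134217728
    (rowN 3 0 true true true .pnn 0 3 3 (qsf 0 536870912 0 1230186008 3) ndN4q0 ndN4q3 pcN3 Cut.none Ext.none)

def k0_pp_033 : ∃ t, chk3 f_pp_033 t 1 1 1 = true :=
  ⟨(l 4), by decide +kernel⟩

theorem c_pp_033 : CertN 0 536870912 0 1230186008 201326592 134217728 3 true true true .pnn 0 3 3
    ndN4q0 ndN4q3 pcN3 Cut.none Ext.none :=
  certN0 (fam := true) (s1 := true) (s2 := true) (a := 0) (b := 3) (c := 3) (cn := .pnn) (n1 := ndN4q0) (n2 := ndN4q3) (pc := pcN3) (cut := Cut.none) (xt := Ext.none) (P1 := 0) (W1 := 536870912) (P2 := 0) (W2 := 1230186008) (P3 := 201326592) (W3 := 134217728) (N0 := 3)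
    rfl k0_pp_033

noncomputable def f_pp_101 : ℕ → ℕ → ℕ → ℕ → Bool := onCell 536870912 536870912 0 536870912 201326592 134217728
    (rowN 3 0 true true true .npn 1 0 1 (qsf 536870912 536870912 0 536870912 1) ndN4q1 ndN4q0 pcN1 Cut.none Ext.none)

def k0_pp_101 : ∃ t, chk3 f_pp_101 t 1 1 1 = true :=
  ⟨(l 4), by decide +kernel⟩

theorem c_pp_101 : CertN 536870912 536870912 0 536870912 201326592 134217728 3 true true true .npn 1 0 1
    ndN4q1 ndN4q0 pcN1 Cut.none Ext.none :=
  certN0 (fam := true) (s1 := true) (s2 := true) (a := 1) (b := 0) (c := 1) (cn := .npn) (n1 := ndN4q1) (n2 := ndN4q0) (pc := pcN1) (cut := Cut.none) (xt := Ext.none) (P1 := 536870912) (W1 := 536870912) (P2 := 0) (W2 := 536870912) (P3 := 201326592) (W3 := 134217728) (N0 := 3)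
    rfl k0_pp_101

noncomputable def f_pp_102 : ℕ → ℕ → ℕ → ℕ → Bool := onCell 536870912 536870912 0 536870912 201326592 134217728
    (rowN 3 0 true true true .npp 1 0 2 (qsf 536870912 536870912 0 536870912 2) ndN4q1 ndN4q0 pcN2 Cut.none Ext.none)

def k0_pp_102 : ∃ t, chk3 f_pp_102 t 1 1 1 = true :=
  ⟨(l 4), by decide +kernel⟩

theorem c_pp_102 : CertN 536870912 536870912 0 536870912 201326592 134217728 3 true true true .npp 1 0 2
    ndN4q1 ndN4q0 pcN2 Cut.none Ext.none :=
  certN0 (fam := true) (s1 := true) (s2 := true) (a := 1) (b := 0) (c := 2) (cn := .npp) (n1 := ndN4q1) (n2 := ndN4q0) (pc := pcN2) (cut := Cut.none) (xt := Ext.none) (P1 := 536870912) (W1 := 536870912) (P2 := 0) (W2 := 536870912) (P3 := 201326592) (W3 := 134217728) (N0 := 3)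
    rfl k0_pp_102

noncomputable def f_pp_112 : ℕ → ℕ → ℕ → ℕ → Bool := onCell 536870912 536870912 536870912 536870912 201326592 134217728
    (rowN 3 0 true true true .dn 1 1 2 (qsf 536870912 536870912 536870912 536870912 2) ndN4q1 ndN4q1 pcN2 Cut.none Ext.none)

def k0_pp_112 : ∃ t, chk3 f_pp_112 t 1 1 1 = true :=
  ⟨(l 4), by decide +kernel⟩

theorem c_pp_112 : CertN 536870912 536870912 536870912 536870912 201326592 134217728 3 true true true .dn 1 1 2
    ndN4q1 ndN4q1 pcN2 Cut.none Ext.none :=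
  certN0 (fam := true) (s1 := true) (s2 := true) (a := 1) (b := 1) (c := 2) (cn := .dn) (n1 := ndN4q1) (n2 := ndN4q1) (pc := pcN2) (cut := Cut.none) (xt := Ext.none) (P1 := 536870912) (W1 := 536870912) (P2 := 536870912) (W2 := 536870912) (P3 := 201326592) (W3 := 134217728) (N0 := 3)
    rfl k0_pp_112

noncomputable def f_pp_113 : ℕ → ℕ → ℕ → ℕ → Bool := onCell 536870912 536870912 536870912 536870912 201326592 134217728
    (rowN 3 0 true true true .nn 1 1 3 (qsf 536870912 536870912 536870912 536870912 3) ndN4q1 ndN4q1 pcN3 Cut.none Ext.none)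

def k0_pp_113 : ∃ t, chk3 f_pp_113 t 1 1 1 = true :=
  ⟨(l 4), by decide +kernel⟩

theorem c_pp_113 : CertN 536870912 536870912 536870912 536870912 201326592 134217728 3 true true true .nn 1 1 3
    ndN4q1 ndN4q1 pcN3 Cut.none Ext.none :=
  certN0 (fam := true) (s1 := true) (s2 := true) (a := 1) (b := 1) (c := 3) (cn := .nn) (n1 := ndN4q1) (n2 := ndN4q1) (pc := pcN3) (cut := Cut.none) (xt := Ext.none) (P1 := 536870912) (W1 := 536870912) (P2 := 536870912) (W2 := 536870912) (P3 := 201326592) (W3 := 134217728) (N0 := 3)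
    rfl k0_pp_113

noncomputable def f_pp_123 : ℕ → ℕ → ℕ → ℕ → Bool := onCell 536870912 536870912 1073741824 536870912 201326592 134217728
    (rowN 3 0 true true true .npn 1 2 3 (qsf 536870912 536870912 1073741824 536870912 3) ndN4q1 ndN4q2 pcN3 Cut.none Ext.none)

def k0_pp_123 : ∃ t, chk3 f_pp_123 t 1 1 1 = true :=
  ⟨(l 4), by decide +kernel⟩

theorem c_pp_123 : CertN 536870912 536870912 1073741824 536870912 201326592 134217728 3 true true true .npn 1 2 3
    ndN4q1 ndN4q2 pcN3 Cut.none Ext.none :=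
  certN0 (fam := true) (s1 := true) (s2 := true) (a := 1) (b := 2) (c := 3) (cn := .npn) (n1 := ndN4q1) (n2 := ndN4q2) (pc := pcN3) (cut := Cut.none) (xt := Ext.none) (P1 := 536870912) (W1 := 536870912) (P2 := 1073741824) (W2 := 536870912) (P3 := 201326592) (W3 := 134217728) (N0 := 3)
    rfl k0_pp_123

noncomputable def f_pp_133 : ℕ → ℕ → ℕ → ℕ → Bool := onCell 536870912 536870912 0 1230186008 201326592 134217728
    (rowN 3 0 true true true .dn 1 3 3 (qsf 536870912 536870912 0 1230186008 3) ndN4q1 ndN4q3 pcN3 Cut.none Ext.none)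

def k0_pp_133 : ∃ t, chk3 f_pp_133 t 1 1 1 = true :=
  ⟨(l 4), by decide +kernel⟩

theorem c_pp_133 : CertN 536870912 536870912 0 1230186008 201326592 134217728 3 true true true .dn 1 3 3
    ndN4q1 ndN4q3 pcN3 Cut.none Ext.none :=
  certN0 (fam := true) (s1 := true) (s2 := true) (a := 1) (b := 3) (c := 3) (cn := .dn) (n1 := ndN4q1) (n2 := ndN4q3) (pc := pcN3) (cut := Cut.none) (xt := Ext.none) (P1 := 536870912) (W1 := 536870912) (P2 := 0) (W2 := 1230186008) (P3 := 201326592) (W3 := 134217728) (N0 := 3)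
    rfl k0_pp_133

noncomputable def f_pp_202 : ℕ → ℕ → ℕ → ℕ → Bool := onCell 1073741824 536870912 0 536870912 201326592 134217728
    (rowN 3 0 true true true .pp 2 0 2 (qsf 1073741824 536870912 0 536870912 2) ndN4q2 ndN4q0 pcN2 Cut.none Ext.none)

def k0_pp_202 : ∃ t, chk3 f_pp_202 t 1 1 1 = true :=
  ⟨(l 4), by decide +kernel⟩

theorem c_pp_202 : CertN 1073741824 536870912 0 536870912 201326592 134217728 3 true true true .pp 2 0 2
    ndN4q2 ndN4q0 pcN2 Cut.none Ext.none :=
  certN0 (fam := true) (s1 := true) (s2 := true) (a := 2) (b := 0) (c := 2) (cn := .pp) (n1 := ndN4q2) (n2 := ndN4q0) (pc := pcN2) (cut := Cut.none) (xt := Ext.none) (P1 := 1073741824) (W1 := 536870912) (P2 := 0) (W2 := 536870912) (P3 := 201326592) (W3 := 134217728) (N0 := 3)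
    rfl k0_pp_202

noncomputable def f_pp_203 : ℕ → ℕ → ℕ → ℕ → Bool := onCell 1073741824 536870912 0 536870912 201326592 134217728
    (rowN 3 0 true true true .up 2 0 3 (qsf 1073741824 536870912 0 536870912 3) ndN4q2 ndN4q0 pcN3 Cut.none Ext.none)

def k0_pp_203 : ∃ t, chk3 f_pp_203 t 1 1 1 = true :=
  ⟨(l 4), by decide +kernel⟩

theorem c_pp_203 : CertN 1073741824 536870912 0 536870912 201326592 134217728 3 true true true .up 2 0 3
    ndN4q2 ndN4q0 pcN3 Cut.none Ext.none :=
  certN0 (fam := true) (s1 := true) (s2 := true) (a := 2) (b := 0) (c := 3) (cn := .up) (n1 := ndN4q2) (n2 := ndN4q0) (pc := pcN3) (cut := Cut.none) (xt := Ext.none) (P1 := 1073741824) (W1 := 536870912) (P2 := 0) (W2 := 536870912) (P3 := 201326592) (W3 := 134217728) (N0 := 3)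
    rfl k0_pp_203

noncomputable def f_pp_213 : ℕ → ℕ → ℕ → ℕ → Bool := onCell 1073741824 536870912 536870912 536870912 201326592 134217728
    (rowN 3 0 true true true .pnn 2 1 3 (qsf 1073741824 536870912 536870912 536870912 3) ndN4q2 ndN4q1 pcN3 Cut.none Ext.none)

def k0_pp_213 : ∃ t, chk3 f_pp_213 t 1 1 1 = true :=
  ⟨(l 4), by decide +kernel⟩

theorem c_pp_213 : CertN 1073741824 536870912 536870912 536870912 201326592 134217728 3 true true true .pnn 2 1 3
    ndN4q2 ndN4q1 pcN3 Cut.none Ext.none :=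
  certN0 (fam := true) (s1 := true) (s2 := true) (a := 2) (b := 1) (c := 3) (cn := .pnn) (n1 := ndN4q2) (n2 := ndN4q1) (pc := pcN3) (cut := Cut.none) (xt := Ext.none) (P1 := 1073741824) (W1 := 536870912) (P2 := 536870912) (W2 := 536870912) (P3 := 201326592) (W3 := 134217728) (N0 := 3)
    rfl k0_pp_213

noncomputable def f_pp_303 : ℕ → ℕ → ℕ → ℕ → Bool := onCell 0 1230186008 0 536870912 201326592 134217728
    (rowN 3 0 true true true .npn 3 0 3 (qsf 0 1230186008 0 536870912 3) ndN4q3 ndN4q0 pcN3 Cut.none Ext.none)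

def k0_pp_303 : ∃ t, chk3 f_pp_303 t 1 1 1 = true :=
  ⟨(l 4), by decide +kernel⟩

theorem c_pp_303 : CertN 0 1230186008 0 536870912 201326592 134217728 3 true true true .npn 3 0 3
    ndN4q3 ndN4q0 pcN3 Cut.none Ext.none :=
  certN0 (fam := true) (s1 := true) (s2 := true) (a := 3) (b := 0) (c := 3) (cn := .npn) (n1 := ndN4q3) (n2 := ndN4q0) (pc := pcN3) (cut := Cut.none) (xt := Ext.none) (P1 := 0) (W1 := 1230186008) (P2 := 0) (W2 := 536870912) (P3 := 201326592) (W3 := 134217728) (N0 := 3)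
    rfl k0_pp_303

noncomputable def f_pp_313 : ℕ → ℕ → ℕ → ℕ → Bool := onCell 0 1230186008 536870912 536870912 201326592 134217728
    (rowN 3 0 true true true .dn 3 1 3 (qsf 0 1230186008 536870912 536870912 3) ndN4q3 ndN4q1 pcN3 Cut.none Ext.none)

def k0_pp_313 : ∃ t, chk3 f_pp_313 t 1 1 1 = true :=
  ⟨(l 4), by decide +kernel⟩

theorem c_pp_313 : CertN 0 1230186008 536870912 536870912 201326592 134217728 3 true true true .dn 3 1 3
    ndN4q3 ndN4q1 pcN3 Cut.none Ext.none :=
  certN0 (fam := true) (s1 := true) (s2 := true) (a := 3) (b := 1) (c := 3) (cn := .dn) (n1 := ndN4q3) (n2 := ndN4q1) (pc := pcN3) (cut := Cut.none) (xt := Ext.none) (P1 := 0) (W1 := 1230186008) (P2 := 536870912) (W2 := 536870912) (P3 := 201326592) (W3 := 134217728) (N0 := 3)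
    rfl k0_pp_313

noncomputable def f_pm_001 : ℕ → ℕ → ℕ → ℕ → Bool := onCell 0 536870912 0 536870912 201326592 134217728
    (rowN 3 0 true true false .up 0 0 1 (qsf 0 536870912 0 536870912 1) ndN4q0 ndN4q0 pcN1 Cut.none Ext.none)

def k0_pm_001 : ∃ t, chk3 f_pm_001 t 1 1 1 = true :=
  ⟨(l 3), by decide +kernel⟩

theorem c_pm_001 : CertN 0 536870912 0 536870912 201326592 134217728 3 true true false .up 0 0 1
    ndN4q0 ndN4q0 pcN1 Cut.none Ext.none :=
  certN0 (fam := true) (s1 := true) (s2 := false) (a := 0) (b := 0) (c := 1) (cn := .up) (n1 := ndN4q0) (n2 := ndN4q0) (pc := pcN1) (cut := Cut.none) (xt := Ext.none) (P1 := 0) (W1 := 536870912) (P2 := 0) (W2 := 536870912) (P3 := 201326592) (W3 := 134217728) (N0 := 3)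
    rfl k0_pm_001

noncomputable def f_pm_011 : ℕ → ℕ → ℕ → ℕ → Bool := onCell 0 536870912 536870912 536870912 201326592 134217728
    (rowN 3 1 true true false .pnn 0 1 1 (qsf 0 536870912 536870912 536870912 1) ndN4q0 ndN4q1 pcN1 Cut.none Ext.none)

def k0_pm_011 : ∃ t, chk3 f_pm_011 t 1 1 1 = true :=
  ⟨(l 3), by decide +kernel⟩

theorem c_pm_011 : CertN 0 536870912 536870912 536870912 201326592 134217728 3 true true false .pnn 0 1 1
    ndN4q0 ndN4q1 pcN1 Cut.none Ext.none :=
  certN1 (fam := true) (s1 := true) (s2 := false) (a := 0) (b := 1) (c := 1) (cn := .pnn) (n1 := ndN4q0) (n2 := ndN4q1) (pc := pcN1) (cut := Cut.none) (xt := Ext.none) (P1 := 0) (W1 := 536870912) (P2 := 536870912) (W2 := 536870912) (P3 := 201326592) (W3 := 134217728) (N0 := 3)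
    rfl (fun _ => rfl) k0_pm_011

noncomputable def f_pm_012 : ℕ → ℕ → ℕ → ℕ → Bool := onCell 1073741824 536870912 536870912 536870912 201326592 134217728
    (rowN 3 2 true true false .pnp 0 1 2 (qsf 0 536870912 536870912 536870912 2) ndN4q0 ndN4q1 pcN2 Cut.none Ext.none)

def k0_pm_012 : ∃ t, chk3 f_pm_012 t 1 1 1 = true :=
  ⟨(a (a (l 3) (b (a (a (a (l 3) (a (l 3) (a (l 3) (l 17765576)))) (l 17709912)) (l 17718680)) (a (a (a (l 3) (a (l 3) (a (l 3) (b (l 17930536) (l 18013408))))) (b (l 17946176) (l 18031032))) (b (l 17998080) (l 18085264))))) (b (b (l 2) (l 17825496)) (b (l 18102616) (a (l 18256800) (l 18300776))))), by decide +kernel⟩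

theorem c_pm_012 : CertN 0 536870912 536870912 536870912 201326592 134217728 3 true true false .pnp 0 1 2
    ndN4q0 ndN4q1 pcN2 Cut.none Ext.none :=
  certN2 (fam := true) (s1 := true) (s2 := false) (a := 0) (b := 1) (c := 2) (cn := .pnp) (n1 := ndN4q0) (n2 := ndN4q1) (pc := pcN2) (cut := Cut.none) (xt := Ext.none) (P1 := 0) (W1 := 536870912) (P2 := 536870912) (W2 := 536870912) (P3 := 201326592) (W3 := 134217728) (N0 := 3)
    rfl (fun _ => rfl) k0_pm_012

noncomputable def f_pm_022 : ℕ → ℕ → ℕ → ℕ → Bool := onCell 0 536870912 1073741824 536870912 201326592 134217728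
    (rowN 3 1 true true false .pp 0 2 2 (qsf 0 536870912 1073741824 536870912 2) ndN4q0 ndN4q2 pcN2 Cut.none Ext.none)

def k0_pm_022 : ∃ t, chk3 f_pm_022 t 1 1 1 = true :=
  ⟨(a (b (a (b (b (l 3) (b (c (l 18135992) (l 17802136)) (a (l 17863944) (l 18015592)))) (b (a (l 17813024) (l 17939168)) (l 17777952))) (b (b (l 1) (b (l 1) (c (l 18467920) (l 455303394439)))) (b (c (l 18373440) (l 412353558119)) (l 18091296)))) (b (b (a (l 17705360) (l 17981000)) (l 17780112)) (b (a (l 17516632) (l 17760120)) (l 17553712)))) (b (a (b (l 1) (b (l 1) (l 424165514743))) (l 1)) (b (b (a (l 18258432) (l 1)) (a (l 18108368) (l 18201208))) (b (l 18048896) (l 17942144))))), by decide +kernel⟩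

theorem c_pm_022 : CertN 0 536870912 1073741824 536870912 201326592 134217728 3 true true false .pp 0 2 2
    ndN4q0 ndN4q2 pcN2 Cut.none Ext.none :=
  certN1 (fam := true) (s1 := true) (s2 := false) (a := 0) (b := 2) (c := 2) (cn := .pp) (n1 := ndN4q0) (n2 := ndN4q2) (pc := pcN2) (cut := Cut.none) (xt := Ext.none) (P1 := 0) (W1 := 536870912) (P2 := 1073741824) (W2 := 536870912) (P3 := 201326592) (W3 := 134217728) (N0 := 3)
    rfl (fun _ => rfl) k0_pm_022

noncomputable def f_pm_023 : ℕ → ℕ → ℕ → ℕ → Bool := onCell 1610612736 536870912 1073741824 536870912 201326592 134217728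
    (rowN 3 2 true true false .up 0 2 3 (qsf 0 536870912 1073741824 536870912 3) ndN4q0 ndN4q2 pcN3 Cut.none Ext.none)

def k0_pm_023 : ∃ t, chk3 f_pm_023 t 1 1 1 = true :=
  ⟨(b (a (a (b (l 17875280) (l 17707344)) (b (l 17866152) (l 17717032))) (a (c (l 18002584) (l 17635504)) (l 2))) (a (a (a (l 17429552) (l 17491712)) (a (l 17512736) (l 17506216))) (a (a (l 17484672) (l 17470664)) (a (l 17463624) (l 4))))), by decide +kernel⟩

theorem c_pm_023 : CertN 0 536870912 1073741824 536870912 201326592 134217728 3 true true false .up 0 2 3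
    ndN4q0 ndN4q2 pcN3 Cut.none Ext.none :=
  certN2 (fam := true) (s1 := true) (s2 := false) (a := 0) (b := 2) (c := 3) (cn := .up) (n1 := ndN4q0) (n2 := ndN4q2) (pc := pcN3) (cut := Cut.none) (xt := Ext.none) (P1 := 0) (W1 := 536870912) (P2 := 1073741824) (W2 := 536870912) (P3 := 201326592) (W3 := 134217728) (N0 := 3)
    rfl (fun _ => rfl) k0_pm_023

noncomputable def f_pm_033 : ℕ → ℕ → ℕ → ℕ → Bool := onCell 1610612736 536870912 0 1230186008 201326592 134217728
    (rowN 3 2 true true false .pnn 0 3 3 (qsf 0 536870912 0 1230186008 3) ndN4q0 ndN4q3 pcN3 Cut.none Ext.none)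

def k0_pm_033 : ∃ t, chk3 f_pm_033 t 1 1 1 = true :=
  ⟨(a (b (l 1) (b (b (l 1) (a (l 1) (a (l 1) (l 17219624)))) (b (a (l 1) (a (l 17227760) (l 17146016))) (a (b (l 17249280) (l 17198344)) (a (l 17133992) (l 17067344)))))) (a (b (l 1) (b (a (l 17240272) (l 4)) (b (l 17105544) (l 17148976)))) (b (b (l 4) (l 4)) (b (l 4) (l 4))))), by decide +kernel⟩

theorem c_pm_033 : CertN 0 536870912 0 1230186008 201326592 134217728 3 true true false .pnn 0 3 3
    ndN4q0 ndN4q3 pcN3 Cut.none Ext.none :=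
  certN2 (fam := true) (s1 := true) (s2 := false) (a := 0) (b := 3) (c := 3) (cn := .pnn) (n1 := ndN4q0) (n2 := ndN4q3) (pc := pcN3) (cut := Cut.none) (xt := Ext.none) (P1 := 0) (W1 := 536870912) (P2 := 0) (W2 := 1230186008) (P3 := 201326592) (W3 := 134217728) (N0 := 3)
    rfl (fun _ => rfl) k0_pm_033

noncomputable def f_pm_101 : ℕ → ℕ → ℕ → ℕ → Bool := onCell 536870912 536870912 0 536870912 201326592 134217728
    (rowN 3 2 true true false .npn 1 0 1 (qsf 536870912 536870912 0 536870912 1) ndN4q1 ndN4q0 pcN1 Cut.none Ext.none)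

def k0_pm_101 : ∃ t, chk3 f_pm_101 t 1 1 1 = true :=
  ⟨(l 3), by decide +kernel⟩

theorem c_pm_101 : CertN 536870912 536870912 0 536870912 201326592 134217728 3 true true false .npn 1 0 1
    ndN4q1 ndN4q0 pcN1 Cut.none Ext.none :=
  certN2 (fam := true) (s1 := true) (s2 := false) (a := 1) (b := 0) (c := 1) (cn := .npn) (n1 := ndN4q1) (n2 := ndN4q0) (pc := pcN1) (cut := Cut.none) (xt := Ext.none) (P1 := 536870912) (W1 := 536870912) (P2 := 0) (W2 := 536870912) (P3 := 201326592) (W3 := 134217728) (N0 := 3)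
    rfl (fun _ => rfl) k0_pm_101

noncomputable def f_pm_102 : ℕ → ℕ → ℕ → ℕ → Bool := onCell 536870912 536870912 1073741824 536870912 201326592 134217728
    (rowN 3 1 true true false .npp 1 0 2 (qsf 536870912 536870912 0 536870912 2) ndN4q1 ndN4q0 pcN2 Cut.none Ext.none)

def k0_pm_102 : ∃ t, chk3 f_pm_102 t 1 1 1 = true :=
  ⟨(b (b (l 3) (a (b (b (b (l 3) (b (l 3) (b (l 3) (l 17765576)))) (l 17709912)) (l 17718680)) (b (b (b (l 3) (b (l 3) (a (l 18012392) (b (l 3) (l 18013408))))) (a (l 17946176) (l 18031032))) (a (l 17998080) (l 18085264))))) (a (a (l 2) (l 17825496)) (a (l 18102616) (b (l 18256800) (l 18300776))))), by decide +kernel⟩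

theorem c_pm_102 : CertN 536870912 536870912 0 536870912 201326592 134217728 3 true true false .npp 1 0 2
    ndN4q1 ndN4q0 pcN2 Cut.none Ext.none :=
  certN1 (fam := true) (s1 := true) (s2 := false) (a := 1) (b := 0) (c := 2) (cn := .npp) (n1 := ndN4q1) (n2 := ndN4q0) (pc := pcN2) (cut := Cut.none) (xt := Ext.none) (P1 := 536870912) (W1 := 536870912) (P2 := 0) (W2 := 536870912) (P3 := 201326592) (W3 := 134217728) (N0 := 3)
    rfl (fun _ => rfl) k0_pm_102

noncomputable def f_pm_112 : ℕ → ℕ → ℕ → ℕ → Bool := onCell 536870912 536870912 1073741824 536870912 201326592 134217728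
    (rowN 3 1 true true false .dn 1 1 2 (qsf 536870912 536870912 536870912 536870912 2) ndN4q1 ndN4q1 pcN2 Cut.none Ext.none)

def k0_pm_112 : ∃ t, chk3 f_pm_112 t 1 1 1 = true :=
  ⟨(b (b (l 3) (b (b (b (l 3) (b (l 3) (a (l 18511328) (l 1)))) (l 67683423159)) (l 18780032))) (a (l 18625640) (l 18657552))), by decide +kernel⟩

theorem c_pm_112 : CertN 536870912 536870912 536870912 536870912 201326592 134217728 3 true true false .dn 1 1 2
    ndN4q1 ndN4q1 pcN2 Cut.none Ext.none :=
  certN1 (fam := true) (s1 := true) (s2 := false) (a := 1) (b := 1) (c := 2) (cn := .dn) (n1 := ndN4q1) (n2 := ndN4q1) (pc := pcN2) (cut := Cut.none) (xt := Ext.none) (P1 := 536870912) (W1 := 536870912) (P2 := 536870912) (W2 := 536870912) (P3 := 201326592) (W3 := 134217728) (N0 := 3)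
    rfl (fun _ => rfl) k0_pm_112

noncomputable def f_pm_113 : ℕ → ℕ → ℕ → ℕ → Bool := onCell 536870912 536870912 1610612736 536870912 201326592 134217728
    (rowN 3 1 true true false .nn 1 1 3 (qsf 536870912 536870912 536870912 536870912 3) ndN4q1 ndN4q1 pcN3 Cut.none Ext.none)

def k0_pm_113 : ∃ t, chk3 f_pm_113 t 1 1 1 = true :=
  ⟨(b (a (l 18041088) (l 17972224)) (b (a (l 17617248) (l 17386208)) (b (l 17394432) (b (l 17141568) (a (l 2) (b (l 16949088) (l 16904792))))))), by decide +kernel⟩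

theorem c_pm_113 : CertN 536870912 536870912 536870912 536870912 201326592 134217728 3 true true false .nn 1 1 3
    ndN4q1 ndN4q1 pcN3 Cut.none Ext.none :=
  certN1 (fam := true) (s1 := true) (s2 := false) (a := 1) (b := 1) (c := 3) (cn := .nn) (n1 := ndN4q1) (n2 := ndN4q1) (pc := pcN3) (cut := Cut.none) (xt := Ext.none) (P1 := 536870912) (W1 := 536870912) (P2 := 536870912) (W2 := 536870912) (P3 := 201326592) (W3 := 134217728) (N0 := 3)
    rfl (fun _ => rfl) k0_pm_113

noncomputable def f_pm_123 : ℕ → ℕ → ℕ → ℕ → Bool := onCell 1610612736 536870912 1073741824 536870912 201326592 134217728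
    (rowN 3 2 true true false .npn 1 2 3 (qsf 536870912 536870912 1073741824 536870912 3) ndN4q1 ndN4q2 pcN3 Cut.none Ext.none)

def k0_pm_123 : ∃ t, chk3 f_pm_123 t 1 1 1 = true :=
  ⟨(a (a (b (l 371550804023) (l 1)) (b (b (l 17556592) (l 17452832)) (a (l 1) (l 17316608)))) (a (b (a (l 17312296) (l 17203312)) (a (l 17144480) (l 16991272))) (a (b (l 17077784) (l 16862408)) (a (b (l 17023216) (l 4)) (l 4))))), by decide +kernel⟩

theorem c_pm_123 : CertN 536870912 536870912 1073741824 536870912 201326592 134217728 3 true true false .npn 1 2 3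
    ndN4q1 ndN4q2 pcN3 Cut.none Ext.none :=
  certN2 (fam := true) (s1 := true) (s2 := false) (a := 1) (b := 2) (c := 3) (cn := .npn) (n1 := ndN4q1) (n2 := ndN4q2) (pc := pcN3) (cut := Cut.none) (xt := Ext.none) (P1 := 536870912) (W1 := 536870912) (P2 := 1073741824) (W2 := 536870912) (P3 := 201326592) (W3 := 134217728) (N0 := 3)
    rfl (fun _ => rfl) k0_pm_123

noncomputable def f_pm_133 : ℕ → ℕ → ℕ → ℕ → Bool := onCell 536870912 536870912 0 1230186008 201326592 134217728
    (rowN 3 0 true true false .dn 1 3 3 (qsf 536870912 536870912 0 1230186008 3) ndN4q1 ndN4q3 pcN3 Cut.none Ext.none)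

def k0_pm_133 : ∃ t, chk3 f_pm_133 t 1 1 1 = true :=
  ⟨(b (l 2) (l 4)), by decide +kernel⟩

theorem c_pm_133 : CertN 536870912 536870912 0 1230186008 201326592 134217728 3 true true false .dn 1 3 3
    ndN4q1 ndN4q3 pcN3 Cut.none Ext.none :=
  certN0 (fam := true) (s1 := true) (s2 := false) (a := 1) (b := 3) (c := 3) (cn := .dn) (n1 := ndN4q1) (n2 := ndN4q3) (pc := pcN3) (cut := Cut.none) (xt := Ext.none) (P1 := 536870912) (W1 := 536870912) (P2 := 0) (W2 := 1230186008) (P3 := 201326592) (W3 := 134217728) (N0 := 3)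
    rfl k0_pm_133

noncomputable def f_pm_202 : ℕ → ℕ → ℕ → ℕ → Bool := onCell 1073741824 536870912 0 536870912 201326592 134217728
    (rowN 3 2 true true false .pp 2 0 2 (qsf 1073741824 536870912 0 536870912 2) ndN4q2 ndN4q0 pcN2 Cut.none Ext.none)

def k0_pm_202 : ∃ t, chk3 f_pm_202 t 1 1 1 = true :=
  ⟨(a (b (a (a (b (l 3) (l 1)) (b (a (c (l 18135992) (l 17802136)) (b (l 17863944) (l 18015592))) (a (l 1) (c (l 18467920) (l 455303394439))))) (a (b (b (l 17813024) (l 17939168)) (c (l 18373440) (l 89157269095))) (b (l 17777952) (l 18091296)))) (a (l 1) (a (l 1) (b (l 424165514743) (l 1))))) (a (a (b (b (l 17705360) (l 17981000)) (b (l 18258432) (l 1))) (b (l 17822056) (b (l 18108368) (l 18201208)))) (a (b (b (l 17516632) (l 17760120)) (l 18048896)) (b (l 17553712) (l 17942144))))), by decide +kernel⟩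

theorem c_pm_202 : CertN 1073741824 536870912 0 536870912 201326592 134217728 3 true true false .pp 2 0 2
    ndN4q2 ndN4q0 pcN2 Cut.none Ext.none :=
  certN2 (fam := true) (s1 := true) (s2 := false) (a := 2) (b := 0) (c := 2) (cn := .pp) (n1 := ndN4q2) (n2 := ndN4q0) (pc := pcN2) (cut := Cut.none) (xt := Ext.none) (P1 := 1073741824) (W1 := 536870912) (P2 := 0) (W2 := 536870912) (P3 := 201326592) (W3 := 134217728) (N0 := 3)
    rfl (fun _ => rfl) k0_pm_202

noncomputable def f_pm_203 : ℕ → ℕ → ℕ → ℕ → Bool := onCell 1073741824 536870912 1610612736 536870912 201326592 134217728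
    (rowN 3 1 true true false .up 2 0 3 (qsf 1073741824 536870912 0 536870912 3) ndN4q2 ndN4q0 pcN3 Cut.none Ext.none)

def k0_pm_203 : ∃ t, chk3 f_pm_203 t 1 1 1 = true :=
  ⟨(a (b (b (a (l 17875280) (l 17707344)) (a (l 17866152) (l 17717032))) (b (c (l 18002584) (l 17635504)) (l 2))) (b (b (b (l 17429552) (l 17491712)) (b (l 17512736) (l 17506216))) (b (b (l 17484672) (l 17470664)) (b (l 17463624) (l 4))))), by decide +kernel⟩

theorem c_pm_203 : CertN 1073741824 536870912 0 536870912 201326592 134217728 3 true true false .up 2 0 3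
    ndN4q2 ndN4q0 pcN3 Cut.none Ext.none :=
  certN1 (fam := true) (s1 := true) (s2 := false) (a := 2) (b := 0) (c := 3) (cn := .up) (n1 := ndN4q2) (n2 := ndN4q0) (pc := pcN3) (cut := Cut.none) (xt := Ext.none) (P1 := 1073741824) (W1 := 536870912) (P2 := 0) (W2 := 536870912) (P3 := 201326592) (W3 := 134217728) (N0 := 3)
    rfl (fun _ => rfl) k0_pm_203

noncomputable def f_pm_213 : ℕ → ℕ → ℕ → ℕ → Bool := onCell 1073741824 536870912 1610612736 536870912 201326592 134217728
    (rowN 3 1 true true false .pnn 2 1 3 (qsf 1073741824 536870912 536870912 536870912 3) ndN4q2 ndN4q1 pcN3 Cut.none Ext.none)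

def k0_pm_213 : ∃ t, chk3 f_pm_213 t 1 1 1 = true :=
  ⟨(b (b (a (l 371550804023) (l 1)) (a (a (l 17556592) (l 17452832)) (b (l 1) (l 17316608)))) (b (a (b (l 17312296) (l 17203312)) (b (l 17144480) (l 16991272))) (b (a (l 17077784) (l 16862408)) (b (a (l 17023216) (l 4)) (l 4))))), by decide +kernel⟩

theorem c_pm_213 : CertN 1073741824 536870912 536870912 536870912 201326592 134217728 3 true true false .pnn 2 1 3
    ndN4q2 ndN4q1 pcN3 Cut.none Ext.none :=
  certN1 (fam := true) (s1 := true) (s2 := false) (a := 2) (b := 1) (c := 3) (cn := .pnn) (n1 := ndN4q2) (n2 := ndN4q1) (pc := pcN3) (cut := Cut.none) (xt := Ext.none) (P1 := 1073741824) (W1 := 536870912) (P2 := 536870912) (W2 := 536870912) (P3 := 201326592) (W3 := 134217728) (N0 := 3)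
    rfl (fun _ => rfl) k0_pm_213

noncomputable def f_pm_303 : ℕ → ℕ → ℕ → ℕ → Bool := onCell 0 1230186008 1610612736 536870912 201326592 134217728
    (rowN 3 1 true true false .npn 3 0 3 (qsf 0 1230186008 0 536870912 3) ndN4q3 ndN4q0 pcN3 Cut.none Ext.none)

def k0_pm_303 : ∃ t, chk3 f_pm_303 t 1 1 1 = true :=
  ⟨(b (a (l 1) (a (a (l 1) (b (l 1) (b (l 1) (l 17219624)))) (a (b (l 1) (b (l 17227760) (l 17146016))) (b (b (l 17247312) (l 17196096)) (b (l 17133992) (l 17067344)))))) (b (a (l 1) (a (b (l 17240272) (l 4)) (a (l 17105544) (l 17148976)))) (a (a (l 4) (l 4)) (a (l 4) (l 4))))), by decide +kernel⟩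

theorem c_pm_303 : CertN 0 1230186008 0 536870912 201326592 134217728 3 true true false .npn 3 0 3
    ndN4q3 ndN4q0 pcN3 Cut.none Ext.none :=
  certN1 (fam := true) (s1 := true) (s2 := false) (a := 3) (b := 0) (c := 3) (cn := .npn) (n1 := ndN4q3) (n2 := ndN4q0) (pc := pcN3) (cut := Cut.none) (xt := Ext.none) (P1 := 0) (W1 := 1230186008) (P2 := 0) (W2 := 536870912) (P3 := 201326592) (W3 := 134217728) (N0 := 3)
    rfl (fun _ => rfl) k0_pm_303

noncomputable def f_pm_313 : ℕ → ℕ → ℕ → ℕ → Bool := onCell 0 1230186008 536870912 536870912 201326592 134217728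
    (rowN 3 0 true true false .dn 3 1 3 (qsf 0 1230186008 536870912 536870912 3) ndN4q3 ndN4q1 pcN3 Cut.none Ext.none)

def k0_pm_313 : ∃ t, chk3 f_pm_313 t 1 1 1 = true :=
  ⟨(a (l 2) (l 4)), by decide +kernel⟩

theorem c_pm_313 : CertN 0 1230186008 536870912 536870912 201326592 134217728 3 true true false .dn 3 1 3
    ndN4q3 ndN4q1 pcN3 Cut.none Ext.none :=
  certN0 (fam := true) (s1 := true) (s2 := false) (a := 3) (b := 1) (c := 3) (cn := .dn) (n1 := ndN4q3) (n2 := ndN4q1) (pc := pcN3) (cut := Cut.none) (xt := Ext.none) (P1 := 0) (W1 := 1230186008) (P2 := 536870912) (W2 := 536870912) (P3 := 201326592) (W3 := 134217728) (N0 := 3)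
    rfl k0_pm_313

noncomputable def f_mm_001 : ℕ → ℕ → ℕ → ℕ → Bool := onCell 0 536870912 0 536870912 201326592 134217728
    (rowN 3 0 true false false .up 0 0 1 (qsf 0 536870912 0 536870912 1) ndN4q0 ndN4q0 pcN1 Cut.none Ext.none)

def k0_mm_001 : ∃ t, chk3 f_mm_001 t 1 1 1 = true :=
  ⟨(l 4), by decide +kernel⟩

theorem c_mm_001 : CertN 0 536870912 0 536870912 201326592 134217728 3 true false false .up 0 0 1
    ndN4q0 ndN4q0 pcN1 Cut.none Ext.none :=
  certN0 (fam := true) (s1 := false) (s2 := false) (a := 0) (b := 0) (c := 1) (cn := .up) (n1 := ndN4q0) (n2 := ndN4q0) (pc := pcN1) (cut := Cut.none) (xt := Ext.none) (P1 := 0) (W1 := 536870912) (P2 := 0) (W2 := 536870912) (P3 := 201326592) (W3 := 134217728) (N0 := 3)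
    rfl k0_mm_001

noncomputable def f_mm_011 : ℕ → ℕ → ℕ → ℕ → Bool := onCell 0 536870912 536870912 536870912 201326592 134217728
    (rowN 3 0 true false false .pnn 0 1 1 (qsf 0 536870912 536870912 536870912 1) ndN4q0 ndN4q1 pcN1 Cut.none Ext.none)

def k0_mm_011 : ∃ t, chk3 f_mm_011 t 1 1 1 = true :=
  ⟨(l 4), by decide +kernel⟩

theorem c_mm_011 : CertN 0 536870912 536870912 536870912 201326592 134217728 3 true false false .pnn 0 1 1
    ndN4q0 ndN4q1 pcN1 Cut.none Ext.none :=
  certN0 (fam := true) (s1 := false) (s2 := false) (a := 0) (b := 1) (c := 1) (cn := .pnn) (n1 := ndN4q0) (n2 := ndN4q1) (pc := pcN1) (cut := Cut.none) (xt := Ext.none) (P1 := 0) (W1 := 536870912) (P2 := 536870912) (W2 := 536870912) (P3 := 201326592) (W3 := 134217728) (N0 := 3)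
    rfl k0_mm_011

noncomputable def f_mm_012 : ℕ → ℕ → ℕ → ℕ → Bool := onCell 0 536870912 536870912 536870912 201326592 134217728
    (rowN 3 0 true false false .pnp 0 1 2 (qsf 0 536870912 536870912 536870912 2) ndN4q0 ndN4q1 pcN2 Cut.none Ext.none)

def k0_mm_012 : ∃ t, chk3 f_mm_012 t 1 1 1 = true :=
  ⟨(l 4), by decide +kernel⟩

theorem c_mm_012 : CertN 0 536870912 536870912 536870912 201326592 134217728 3 true false false .pnp 0 1 2
    ndN4q0 ndN4q1 pcN2 Cut.none Ext.none :=
  certN0 (fam := true) (s1 := false) (s2 := false) (a := 0) (b := 1) (c := 2) (cn := .pnp) (n1 := ndN4q0) (n2 := ndN4q1) (pc := pcN2) (cut := Cut.none) (xt := Ext.none) (P1 := 0) (W1 := 536870912) (P2 := 536870912) (W2 := 536870912) (P3 := 201326592) (W3 := 134217728) (N0 := 3)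
    rfl k0_mm_012

noncomputable def f_mm_022 : ℕ → ℕ → ℕ → ℕ → Bool := onCell 0 536870912 1073741824 536870912 201326592 134217728
    (rowN 3 0 true false false .pp 0 2 2 (qsf 0 536870912 1073741824 536870912 2) ndN4q0 ndN4q2 pcN2 Cut.none Ext.none)

def k0_mm_022 : ∃ t, chk3 f_mm_022 t 1 1 1 = true :=
  ⟨(l 4), by decide +kernel⟩

theorem c_mm_022 : CertN 0 536870912 1073741824 536870912 201326592 134217728 3 true false false .pp 0 2 2
    ndN4q0 ndN4q2 pcN2 Cut.none Ext.none :=
  certN0 (fam := true) (s1 := false) (s2 := false) (a := 0) (b := 2) (c := 2) (cn := .pp) (n1 := ndN4q0) (n2 := ndN4q2) (pc := pcN2) (cut := Cut.none) (xt := Ext.none) (P1 := 0) (W1 := 536870912) (P2 := 1073741824) (W2 := 536870912) (P3 := 201326592) (W3 := 134217728) (N0 := 3)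
    rfl k0_mm_022

noncomputable def f_mm_023 : ℕ → ℕ → ℕ → ℕ → Bool := onCell 0 536870912 1073741824 536870912 201326592 134217728
    (rowN 3 0 true false false .up 0 2 3 (qsf 0 536870912 1073741824 536870912 3) ndN4q0 ndN4q2 pcN3 Cut.none Ext.none)

def k0_mm_023 : ∃ t, chk3 f_mm_023 t 1 1 1 = true :=
  ⟨(l 4), by decide +kernel⟩

theorem c_mm_023 : CertN 0 536870912 1073741824 536870912 201326592 134217728 3 true false false .up 0 2 3
    ndN4q0 ndN4q2 pcN3 Cut.none Ext.none :=
  certN0 (fam := true) (s1 := false) (s2 := false) (a := 0) (b := 2) (c := 3) (cn := .up) (n1 := ndN4q0) (n2 := ndN4q2) (pc := pcN3) (cut := Cut.none) (xt := Ext.none) (P1 := 0) (W1 := 536870912) (P2 := 1073741824) (W2 := 536870912) (P3 := 201326592) (W3 := 134217728) (N0 := 3)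
    rfl k0_mm_023

noncomputable def f_mm_033 : ℕ → ℕ → ℕ → ℕ → Bool := onCell 0 536870912 0 1230186008 201326592 134217728
    (rowN 3 0 true false false .pnn 0 3 3 (qsf 0 536870912 0 1230186008 3) ndN4q0 ndN4q3 pcN3 Cut.none Ext.none)

def k0_mm_033 : ∃ t, chk3 f_mm_033 t 1 1 1 = true :=
  ⟨(l 4), by decide +kernel⟩

theorem c_mm_033 : CertN 0 536870912 0 1230186008 201326592 134217728 3 true false false .pnn 0 3 3
    ndN4q0 ndN4q3 pcN3 Cut.none Ext.none :=
  certN0 (fam := true) (s1 := false) (s2 := false) (a := 0) (b := 3) (c := 3) (cn := .pnn) (n1 := ndN4q0) (n2 := ndN4q3) (pc := pcN3) (cut := Cut.none) (xt := Ext.none) (P1 := 0) (W1 := 536870912) (P2 := 0) (W2 := 1230186008) (P3 := 201326592) (W3 := 134217728) (N0 := 3)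
    rfl k0_mm_033

noncomputable def f_mm_101 : ℕ → ℕ → ℕ → ℕ → Bool := onCell 536870912 536870912 0 536870912 201326592 134217728
    (rowN 3 0 true false false .npn 1 0 1 (qsf 536870912 536870912 0 536870912 1) ndN4q1 ndN4q0 pcN1 Cut.none Ext.none)

def k0_mm_101 : ∃ t, chk3 f_mm_101 t 1 1 1 = true :=
  ⟨(l 4), by decide +kernel⟩

theorem c_mm_101 : CertN 536870912 536870912 0 536870912 201326592 134217728 3 true false false .npn 1 0 1
    ndN4q1 ndN4q0 pcN1 Cut.none Ext.none :=
  certN0 (fam := true) (s1 := false) (s2 := false) (a := 1) (b := 0) (c := 1) (cn := .npn) (n1 := ndN4q1) (n2 := ndN4q0) (pc := pcN1) (cut := Cut.none) (xt := Ext.none) (P1 := 536870912) (W1 := 536870912) (P2 := 0) (W2 := 536870912) (P3 := 201326592) (W3 := 134217728) (N0 := 3)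
    rfl k0_mm_101

noncomputable def f_mm_102 : ℕ → ℕ → ℕ → ℕ → Bool := onCell 536870912 536870912 0 536870912 201326592 134217728
    (rowN 3 0 true false false .npp 1 0 2 (qsf 536870912 536870912 0 536870912 2) ndN4q1 ndN4q0 pcN2 Cut.none Ext.none)

def k0_mm_102 : ∃ t, chk3 f_mm_102 t 1 1 1 = true :=
  ⟨(l 4), by decide +kernel⟩

theorem c_mm_102 : CertN 536870912 536870912 0 536870912 201326592 134217728 3 true false false .npp 1 0 2
    ndN4q1 ndN4q0 pcN2 Cut.none Ext.none :=
  certN0 (fam := true) (s1 := false) (s2 := false) (a := 1) (b := 0) (c := 2) (cn := .npp) (n1 := ndN4q1) (n2 := ndN4q0) (pc := pcN2) (cut := Cut.none) (xt := Ext.none) (P1 := 536870912) (W1 := 536870912) (P2 := 0) (W2 := 536870912) (P3 := 201326592) (W3 := 134217728) (N0 := 3)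
    rfl k0_mm_102

noncomputable def f_mm_112 : ℕ → ℕ → ℕ → ℕ → Bool := onCell 536870912 536870912 536870912 536870912 201326592 134217728
    (rowN 3 0 true false false .dn 1 1 2 (qsf 536870912 536870912 536870912 536870912 2) ndN4q1 ndN4q1 pcN2 Cut.none Ext.none)

def k0_mm_112 : ∃ t, chk3 f_mm_112 t 1 1 1 = true :=
  ⟨(l 4), by decide +kernel⟩

theorem c_mm_112 : CertN 536870912 536870912 536870912 536870912 201326592 134217728 3 true false false .dn 1 1 2
    ndN4q1 ndN4q1 pcN2 Cut.none Ext.none :=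
  certN0 (fam := true) (s1 := false) (s2 := false) (a := 1) (b := 1) (c := 2) (cn := .dn) (n1 := ndN4q1) (n2 := ndN4q1) (pc := pcN2) (cut := Cut.none) (xt := Ext.none) (P1 := 536870912) (W1 := 536870912) (P2 := 536870912) (W2 := 536870912) (P3 := 201326592) (W3 := 134217728) (N0 := 3)
    rfl k0_mm_112

noncomputable def f_mm_113 : ℕ → ℕ → ℕ → ℕ → Bool := onCell 536870912 536870912 536870912 536870912 201326592 134217728
    (rowN 3 0 true false false .nn 1 1 3 (qsf 536870912 536870912 536870912 536870912 3) ndN4q1 ndN4q1 pcN3 Cut.none Ext.none)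

def k0_mm_113 : ∃ t, chk3 f_mm_113 t 1 1 1 = true :=
  ⟨(l 4), by decide +kernel⟩

theorem c_mm_113 : CertN 536870912 536870912 536870912 536870912 201326592 134217728 3 true false false .nn 1 1 3
    ndN4q1 ndN4q1 pcN3 Cut.none Ext.none :=
  certN0 (fam := true) (s1 := false) (s2 := false) (a := 1) (b := 1) (c := 3) (cn := .nn) (n1 := ndN4q1) (n2 := ndN4q1) (pc := pcN3) (cut := Cut.none) (xt := Ext.none) (P1 := 536870912) (W1 := 536870912) (P2 := 536870912) (W2 := 536870912) (P3 := 201326592) (W3 := 134217728) (N0 := 3)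
    rfl k0_mm_113

noncomputable def f_mm_123 : ℕ → ℕ → ℕ → ℕ → Bool := onCell 536870912 536870912 1073741824 536870912 201326592 134217728
    (rowN 3 0 true false false .npn 1 2 3 (qsf 536870912 536870912 1073741824 536870912 3) ndN4q1 ndN4q2 pcN3 Cut.none Ext.none)

def k0_mm_123 : ∃ t, chk3 f_mm_123 t 1 1 1 = true :=
  ⟨(l 4), by decide +kernel⟩

theorem c_mm_123 : CertN 536870912 536870912 1073741824 536870912 201326592 134217728 3 true false false .npn 1 2 3
    ndN4q1 ndN4q2 pcN3 Cut.none Ext.none :=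
  certN0 (fam := true) (s1 := false) (s2 := false) (a := 1) (b := 2) (c := 3) (cn := .npn) (n1 := ndN4q1) (n2 := ndN4q2) (pc := pcN3) (cut := Cut.none) (xt := Ext.none) (P1 := 536870912) (W1 := 536870912) (P2 := 1073741824) (W2 := 536870912) (P3 := 201326592) (W3 := 134217728) (N0 := 3)
    rfl k0_mm_123

noncomputable def f_mm_133 : ℕ → ℕ → ℕ → ℕ → Bool := onCell 536870912 536870912 0 1230186008 201326592 134217728
    (rowN 3 0 true false false .dn 1 3 3 (qsf 536870912 536870912 0 1230186008 3) ndN4q1 ndN4q3 pcN3 Cut.none Ext.none)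

def k0_mm_133 : ∃ t, chk3 f_mm_133 t 1 1 1 = true :=
  ⟨(l 4), by decide +kernel⟩

theorem c_mm_133 : CertN 536870912 536870912 0 1230186008 201326592 134217728 3 true false false .dn 1 3 3
    ndN4q1 ndN4q3 pcN3 Cut.none Ext.none :=
  certN0 (fam := true) (s1 := false) (s2 := false) (a := 1) (b := 3) (c := 3) (cn := .dn) (n1 := ndN4q1) (n2 := ndN4q3) (pc := pcN3) (cut := Cut.none) (xt := Ext.none) (P1 := 536870912) (W1 := 536870912) (P2 := 0) (W2 := 1230186008) (P3 := 201326592) (W3 := 134217728) (N0 := 3)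
    rfl k0_mm_133

noncomputable def f_mm_202 : ℕ → ℕ → ℕ → ℕ → Bool := onCell 1073741824 536870912 0 536870912 201326592 134217728
    (rowN 3 0 true false false .pp 2 0 2 (qsf 1073741824 536870912 0 536870912 2) ndN4q2 ndN4q0 pcN2 Cut.none Ext.none)

def k0_mm_202 : ∃ t, chk3 f_mm_202 t 1 1 1 = true :=
  ⟨(l 4), by decide +kernel⟩

theorem c_mm_202 : CertN 1073741824 536870912 0 536870912 201326592 134217728 3 true false false .pp 2 0 2
    ndN4q2 ndN4q0 pcN2 Cut.none Ext.none :=
  certN0 (fam := true) (s1 := false) (s2 := false) (a := 2) (b := 0) (c := 2) (cn := .pp) (n1 := ndN4q2) (n2 := ndN4q0) (pc := pcN2) (cut := Cut.none) (xt := Ext.none) (P1 := 1073741824) (W1 := 536870912) (P2 := 0) (W2 := 536870912) (P3 := 201326592) (W3 := 134217728) (N0 := 3)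
    rfl k0_mm_202

noncomputable def f_mm_203 : ℕ → ℕ → ℕ → ℕ → Bool := onCell 1073741824 536870912 0 536870912 201326592 134217728
    (rowN 3 0 true false false .up 2 0 3 (qsf 1073741824 536870912 0 536870912 3) ndN4q2 ndN4q0 pcN3 Cut.none Ext.none)

def k0_mm_203 : ∃ t, chk3 f_mm_203 t 1 1 1 = true :=
  ⟨(l 4), by decide +kernel⟩

theorem c_mm_203 : CertN 1073741824 536870912 0 536870912 201326592 134217728 3 true false false .up 2 0 3
    ndN4q2 ndN4q0 pcN3 Cut.none Ext.none :=
  certN0 (fam := true) (s1 := false) (s2 := false) (a := 2) (b := 0) (c := 3) (cn := .up) (n1 := ndN4q2) (n2 := ndN4q0) (pc := pcN3) (cut := Cut.none) (xt := Ext.none) (P1 := 1073741824) (W1 := 536870912) (P2 := 0) (W2 := 536870912) (P3 := 201326592) (W3 := 134217728) (N0 := 3)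
    rfl k0_mm_203

noncomputable def f_mm_213 : ℕ → ℕ → ℕ → ℕ → Bool := onCell 1073741824 536870912 536870912 536870912 201326592 134217728
    (rowN 3 0 true false false .pnn 2 1 3 (qsf 1073741824 536870912 536870912 536870912 3) ndN4q2 ndN4q1 pcN3 Cut.none Ext.none)

def k0_mm_213 : ∃ t, chk3 f_mm_213 t 1 1 1 = true :=
  ⟨(l 4), by decide +kernel⟩

theorem c_mm_213 : CertN 1073741824 536870912 536870912 536870912 201326592 134217728 3 true false false .pnn 2 1 3
    ndN4q2 ndN4q1 pcN3 Cut.none Ext.none :=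
  certN0 (fam := true) (s1 := false) (s2 := false) (a := 2) (b := 1) (c := 3) (cn := .pnn) (n1 := ndN4q2) (n2 := ndN4q1) (pc := pcN3) (cut := Cut.none) (xt := Ext.none) (P1 := 1073741824) (W1 := 536870912) (P2 := 536870912) (W2 := 536870912) (P3 := 201326592) (W3 := 134217728) (N0 := 3)
    rfl k0_mm_213

noncomputable def f_mm_303 : ℕ → ℕ → ℕ → ℕ → Bool := onCell 0 1230186008 0 536870912 201326592 134217728
    (rowN 3 0 true false false .npn 3 0 3 (qsf 0 1230186008 0 536870912 3) ndN4q3 ndN4q0 pcN3 Cut.none Ext.none)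

def k0_mm_303 : ∃ t, chk3 f_mm_303 t 1 1 1 = true :=
  ⟨(l 4), by decide +kernel⟩

theorem c_mm_303 : CertN 0 1230186008 0 536870912 201326592 134217728 3 true false false .npn 3 0 3
    ndN4q3 ndN4q0 pcN3 Cut.none Ext.none :=
  certN0 (fam := true) (s1 := false) (s2 := false) (a := 3) (b := 0) (c := 3) (cn := .npn) (n1 := ndN4q3) (n2 := ndN4q0) (pc := pcN3) (cut := Cut.none) (xt := Ext.none) (P1 := 0) (W1 := 1230186008) (P2 := 0) (W2 := 536870912) (P3 := 201326592) (W3 := 134217728) (N0 := 3)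
    rfl k0_mm_303

noncomputable def f_mm_313 : ℕ → ℕ → ℕ → ℕ → Bool := onCell 0 1230186008 536870912 536870912 201326592 134217728
    (rowN 3 0 true false false .dn 3 1 3 (qsf 0 1230186008 536870912 536870912 3) ndN4q3 ndN4q1 pcN3 Cut.none Ext.none)

def k0_mm_313 : ∃ t, chk3 f_mm_313 t 1 1 1 = true :=
  ⟨(l 4), by decide +kernel⟩

theorem c_mm_313 : CertN 0 1230186008 536870912 536870912 201326592 134217728 3 true false false .dn 3 1 3
    ndN4q3 ndN4q1 pcN3 Cut.none Ext.none :=
  certN0 (fam := true) (s1 := false) (s2 := false) (a := 3) (b := 1) (c := 3) (cn := .dn) (n1 := ndN4q3) (n2 := ndN4q1) (pc := pcN3) (cut := Cut.none) (xt := Ext.none) (P1 := 0) (W1 := 1230186008) (P2 := 536870912) (W2 := 536870912) (P3 := 201326592) (W3 := 134217728) (N0 := 3)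
    rfl k0_mm_313

end Pool.Agent.Strip051.G.I3_16_5_16.Tab.C.NA44

namespace Pool.Agent.Strip051.G.I3_16_5_16.Tab.C.NA45

open Pool.Agent.Strip051.PB Pool.Agent.Strip051.PB.T
open Pool.Agent.Strip051.G.I3_16_5_16.Tab

noncomputable def f_pp_001 : ℕ → ℕ → ℕ → ℕ → Bool := onCell 0 536870912 0 536870912 201326592 134217728
    (rowN 3 0 true true true .up 0 0 1 (qsf 0 536870912 0 536870912 1) ndN4q0 ndN5q0 pcN1 Cut.none Ext.none)

def k0_pp_001 : ∃ t, chk3 f_pp_001 t 1 1 1 = true :=
  ⟨(l 4), by decide +kernel⟩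

theorem c_pp_001 : CertN 0 536870912 0 536870912 201326592 134217728 3 true true true .up 0 0 1
    ndN4q0 ndN5q0 pcN1 Cut.none Ext.none :=
  certN0 (fam := true) (s1 := true) (s2 := true) (a := 0) (b := 0) (c := 1) (cn := .up) (n1 := ndN4q0) (n2 := ndN5q0) (pc := pcN1) (cut := Cut.none) (xt := Ext.none) (P1 := 0) (W1 := 536870912) (P2 := 0) (W2 := 536870912) (P3 := 201326592) (W3 := 134217728) (N0 := 3)
    rfl k0_pp_001

noncomputable def f_pp_011 : ℕ → ℕ → ℕ → ℕ → Bool := onCell 0 536870912 536870912 536870912 201326592 134217728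
    (rowN 3 0 true true true .pnn 0 1 1 (qsf 0 536870912 536870912 536870912 1) ndN4q0 ndN5q1 pcN1 Cut.none Ext.none)

def k0_pp_011 : ∃ t, chk3 f_pp_011 t 1 1 1 = true :=
  ⟨(l 4), by decide +kernel⟩

theorem c_pp_011 : CertN 0 536870912 536870912 536870912 201326592 134217728 3 true true true .pnn 0 1 1
    ndN4q0 ndN5q1 pcN1 Cut.none Ext.none :=
  certN0 (fam := true) (s1 := true) (s2 := true) (a := 0) (b := 1) (c := 1) (cn := .pnn) (n1 := ndN4q0) (n2 := ndN5q1) (pc := pcN1) (cut := Cut.none) (xt := Ext.none) (P1 := 0) (W1 := 536870912) (P2 := 536870912) (W2 := 536870912) (P3 := 201326592) (W3 := 134217728) (N0 := 3)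
    rfl k0_pp_011

noncomputable def f_pp_012 : ℕ → ℕ → ℕ → ℕ → Bool := onCell 0 536870912 536870912 536870912 201326592 134217728
    (rowN 3 0 true true true .pnp 0 1 2 (qsf 0 536870912 536870912 536870912 2) ndN4q0 ndN5q1 pcN2 Cut.none Ext.none)

def k0_pp_012 : ∃ t, chk3 f_pp_012 t 1 1 1 = true :=
  ⟨(l 4), by decide +kernel⟩

theorem c_pp_012 : CertN 0 536870912 536870912 536870912 201326592 134217728 3 true true true .pnp 0 1 2
    ndN4q0 ndN5q1 pcN2 Cut.none Ext.none :=
  certN0 (fam := true) (s1 := true) (s2 := true) (a := 0) (b := 1) (c := 2) (cn := .pnp) (n1 := ndN4q0) (n2 := ndN5q1) (pc := pcN2) (cut := Cut.none) (xt := Ext.none) (P1 := 0) (W1 := 536870912) (P2 := 536870912) (W2 := 536870912) (P3 := 201326592) (W3 := 134217728) (N0 := 3)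
    rfl k0_pp_012

noncomputable def f_pp_022 : ℕ → ℕ → ℕ → ℕ → Bool := onCell 0 536870912 1073741824 536870912 201326592 134217728
    (rowN 3 0 true true true .pp 0 2 2 (qsf 0 536870912 1073741824 536870912 2) ndN4q0 ndN5q2 pcN2 Cut.none Ext.none)

def k0_pp_022 : ∃ t, chk3 f_pp_022 t 1 1 1 = true :=
  ⟨(l 4), by decide +kernel⟩

theorem c_pp_022 : CertN 0 536870912 1073741824 536870912 201326592 134217728 3 true true true .pp 0 2 2
    ndN4q0 ndN5q2 pcN2 Cut.none Ext.none :=
  certN0 (fam := true) (s1 := true) (s2 := true) (a := 0) (b := 2) (c := 2) (cn := .pp) (n1 := ndN4q0) (n2 := ndN5q2) (pc := pcN2) (cut := Cut.none) (xt := Ext.none) (P1 := 0) (W1 := 536870912) (P2 := 1073741824) (W2 := 536870912) (P3 := 201326592) (W3 := 134217728) (N0 := 3)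
    rfl k0_pp_022

noncomputable def f_pp_023 : ℕ → ℕ → ℕ → ℕ → Bool := onCell 0 536870912 1073741824 536870912 201326592 134217728
    (rowN 3 0 true true true .up 0 2 3 (qsf 0 536870912 1073741824 536870912 3) ndN4q0 ndN5q2 pcN3 Cut.none Ext.none)

def k0_pp_023 : ∃ t, chk3 f_pp_023 t 1 1 1 = true :=
  ⟨(l 4), by decide +kernel⟩

theorem c_pp_023 : CertN 0 536870912 1073741824 536870912 201326592 134217728 3 true true true .up 0 2 3
    ndN4q0 ndN5q2 pcN3 Cut.none Ext.none :=
  certN0 (fam := true) (s1 := true) (s2 := true) (a := 0) (b := 2) (c := 3) (cn := .up) (n1 := ndN4q0) (n2 := ndN5q2) (pc := pcN3) (cut := Cut.none) (xt := Ext.none) (P1 := 0) (W1 := 536870912) (P2 := 1073741824) (W2 := 536870912) (P3 := 201326592) (W3 := 134217728) (N0 := 3)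
    rfl k0_pp_023

noncomputable def f_pp_033 : ℕ → ℕ → ℕ → ℕ → Bool := onCell 0 536870912 0 1230186008 201326592 134217728
    (rowN 3 0 true true true .pnn 0 3 3 (qsf 0 536870912 0 1230186008 3) ndN4q0 ndN5q3 pcN3 Cut.none Ext.none)

def k0_pp_033 : ∃ t, chk3 f_pp_033 t 1 1 1 = true :=
  ⟨(l 4), by decide +kernel⟩

theorem c_pp_033 : CertN 0 536870912 0 1230186008 201326592 134217728 3 true true true .pnn 0 3 3
    ndN4q0 ndN5q3 pcN3 Cut.none Ext.none :=
  certN0 (fam := true) (s1 := true) (s2 := true) (a := 0) (b := 3) (c := 3) (cn := .pnn) (n1 := ndN4q0) (n2 := ndN5q3) (pc := pcN3) (cut := Cut.none) (xt := Ext.none) (P1 := 0) (W1 := 536870912) (P2 := 0) (W2 := 1230186008) (P3 := 201326592) (W3 := 134217728) (N0 := 3)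
    rfl k0_pp_033

noncomputable def f_pp_101 : ℕ → ℕ → ℕ → ℕ → Bool := onCell 536870912 536870912 0 536870912 201326592 134217728
    (rowN 3 0 true true true .npn 1 0 1 (qsf 536870912 536870912 0 536870912 1) ndN4q1 ndN5q0 pcN1 Cut.none Ext.none)

def k0_pp_101 : ∃ t, chk3 f_pp_101 t 1 1 1 = true :=
  ⟨(l 4), by decide +kernel⟩

theorem c_pp_101 : CertN 536870912 536870912 0 536870912 201326592 134217728 3 true true true .npn 1 0 1
    ndN4q1 ndN5q0 pcN1 Cut.none Ext.none :=
  certN0 (fam := true) (s1 := true) (s2 := true) (a := 1) (b := 0) (c := 1) (cn := .npn) (n1 := ndN4q1) (n2 := ndN5q0) (pc := pcN1) (cut := Cut.none) (xt := Ext.none) (P1 := 536870912) (W1 := 536870912) (P2 := 0) (W2 := 536870912) (P3 := 201326592) (W3 := 134217728) (N0 := 3)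
    rfl k0_pp_101

noncomputable def f_pp_102 : ℕ → ℕ → ℕ → ℕ → Bool := onCell 536870912 536870912 0 536870912 201326592 134217728
    (rowN 3 0 true true true .npp 1 0 2 (qsf 536870912 536870912 0 536870912 2) ndN4q1 ndN5q0 pcN2 Cut.none Ext.none)

def k0_pp_102 : ∃ t, chk3 f_pp_102 t 1 1 1 = true :=
  ⟨(l 4), by decide +kernel⟩

theorem c_pp_102 : CertN 536870912 536870912 0 536870912 201326592 134217728 3 true true true .npp 1 0 2
    ndN4q1 ndN5q0 pcN2 Cut.none Ext.none :=
  certN0 (fam := true) (s1 := true) (s2 := true) (a := 1) (b := 0) (c := 2) (cn := .npp) (n1 := ndN4q1) (n2 := ndN5q0) (pc := pcN2) (cut := Cut.none) (xt := Ext.none) (P1 := 536870912) (W1 := 536870912) (P2 := 0) (W2 := 536870912) (P3 := 201326592) (W3 := 134217728) (N0 := 3)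
    rfl k0_pp_102

noncomputable def f_pp_112 : ℕ → ℕ → ℕ → ℕ → Bool := onCell 536870912 536870912 536870912 536870912 201326592 134217728
    (rowN 3 0 true true true .dn 1 1 2 (qsf 536870912 536870912 536870912 536870912 2) ndN4q1 ndN5q1 pcN2 Cut.none Ext.none)

def k0_pp_112 : ∃ t, chk3 f_pp_112 t 1 1 1 = true :=
  ⟨(l 4), by decide +kernel⟩

theorem c_pp_112 : CertN 536870912 536870912 536870912 536870912 201326592 134217728 3 true true true .dn 1 1 2
    ndN4q1 ndN5q1 pcN2 Cut.none Ext.none :=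
  certN0 (fam := true) (s1 := true) (s2 := true) (a := 1) (b := 1) (c := 2) (cn := .dn) (n1 := ndN4q1) (n2 := ndN5q1) (pc := pcN2) (cut := Cut.none) (xt := Ext.none) (P1 := 536870912) (W1 := 536870912) (P2 := 536870912) (W2 := 536870912) (P3 := 201326592) (W3 := 134217728) (N0 := 3)
    rfl k0_pp_112

noncomputable def f_pp_113 : ℕ → ℕ → ℕ → ℕ → Bool := onCell 536870912 536870912 536870912 536870912 201326592 134217728
    (rowN 3 0 true true true .nn 1 1 3 (qsf 536870912 536870912 536870912 536870912 3) ndN4q1 ndN5q1 pcN3 Cut.none Ext.none)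

def k0_pp_113 : ∃ t, chk3 f_pp_113 t 1 1 1 = true :=
  ⟨(l 4), by decide +kernel⟩

theorem c_pp_113 : CertN 536870912 536870912 536870912 536870912 201326592 134217728 3 true true true .nn 1 1 3
    ndN4q1 ndN5q1 pcN3 Cut.none Ext.none :=
  certN0 (fam := true) (s1 := true) (s2 := true) (a := 1) (b := 1) (c := 3) (cn := .nn) (n1 := ndN4q1) (n2 := ndN5q1) (pc := pcN3) (cut := Cut.none) (xt := Ext.none) (P1 := 536870912) (W1 := 536870912) (P2 := 536870912) (W2 := 536870912) (P3 := 201326592) (W3 := 134217728) (N0 := 3)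
    rfl k0_pp_113

noncomputable def f_pp_123 : ℕ → ℕ → ℕ → ℕ → Bool := onCell 536870912 536870912 1073741824 536870912 201326592 134217728
    (rowN 3 0 true true true .npn 1 2 3 (qsf 536870912 536870912 1073741824 536870912 3) ndN4q1 ndN5q2 pcN3 Cut.none Ext.none)

def k0_pp_123 : ∃ t, chk3 f_pp_123 t 1 1 1 = true :=
  ⟨(l 4), by decide +kernel⟩

theorem c_pp_123 : CertN 536870912 536870912 1073741824 536870912 201326592 134217728 3 true true true .npn 1 2 3
    ndN4q1 ndN5q2 pcN3 Cut.none Ext.none :=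
  certN0 (fam := true) (s1 := true) (s2 := true) (a := 1) (b := 2) (c := 3) (cn := .npn) (n1 := ndN4q1) (n2 := ndN5q2) (pc := pcN3) (cut := Cut.none) (xt := Ext.none) (P1 := 536870912) (W1 := 536870912) (P2 := 1073741824) (W2 := 536870912) (P3 := 201326592) (W3 := 134217728) (N0 := 3)
    rfl k0_pp_123

noncomputable def f_pp_133 : ℕ → ℕ → ℕ → ℕ → Bool := onCell 536870912 536870912 0 1230186008 201326592 134217728
    (rowN 3 0 true true true .dn 1 3 3 (qsf 536870912 536870912 0 1230186008 3) ndN4q1 ndN5q3 pcN3 Cut.none Ext.none)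

def k0_pp_133 : ∃ t, chk3 f_pp_133 t 1 1 1 = true :=
  ⟨(l 4), by decide +kernel⟩

theorem c_pp_133 : CertN 536870912 536870912 0 1230186008 201326592 134217728 3 true true true .dn 1 3 3
    ndN4q1 ndN5q3 pcN3 Cut.none Ext.none :=
  certN0 (fam := true) (s1 := true) (s2 := true) (a := 1) (b := 3) (c := 3) (cn := .dn) (n1 := ndN4q1) (n2 := ndN5q3) (pc := pcN3) (cut := Cut.none) (xt := Ext.none) (P1 := 536870912) (W1 := 536870912) (P2 := 0) (W2 := 1230186008) (P3 := 201326592) (W3 := 134217728) (N0 := 3)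
    rfl k0_pp_133

noncomputable def f_pp_202 : ℕ → ℕ → ℕ → ℕ → Bool := onCell 1073741824 536870912 0 536870912 201326592 134217728
    (rowN 3 0 true true true .pp 2 0 2 (qsf 1073741824 536870912 0 536870912 2) ndN4q2 ndN5q0 pcN2 Cut.none Ext.none)

def k0_pp_202 : ∃ t, chk3 f_pp_202 t 1 1 1 = true :=
  ⟨(l 4), by decide +kernel⟩

theorem c_pp_202 : CertN 1073741824 536870912 0 536870912 201326592 134217728 3 true true true .pp 2 0 2
    ndN4q2 ndN5q0 pcN2 Cut.none Ext.none :=
  certN0 (fam := true) (s1 := true) (s2 := true) (a := 2) (b := 0) (c := 2) (cn := .pp) (n1 := ndN4q2) (n2 := ndN5q0) (pc := pcN2) (cut := Cut.none) (xt := Ext.none) (P1 := 1073741824) (W1 := 536870912) (P2 := 0) (W2 := 536870912) (P3 := 201326592) (W3 := 134217728) (N0 := 3)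
    rfl k0_pp_202

noncomputable def f_pp_203 : ℕ → ℕ → ℕ → ℕ → Bool := onCell 1073741824 536870912 0 536870912 201326592 134217728
    (rowN 3 0 true true true .up 2 0 3 (qsf 1073741824 536870912 0 536870912 3) ndN4q2 ndN5q0 pcN3 Cut.none Ext.none)

def k0_pp_203 : ∃ t, chk3 f_pp_203 t 1 1 1 = true :=
  ⟨(l 4), by decide +kernel⟩

theorem c_pp_203 : CertN 1073741824 536870912 0 536870912 201326592 134217728 3 true true true .up 2 0 3
    ndN4q2 ndN5q0 pcN3 Cut.none Ext.none :=
  certN0 (fam := true) (s1 := true) (s2 := true) (a := 2) (b := 0) (c := 3) (cn := .up) (n1 := ndN4q2) (n2 := ndN5q0) (pc := pcN3) (cut := Cut.none) (xt := Ext.none) (P1 := 1073741824) (W1 := 536870912) (P2 := 0) (W2 := 536870912) (P3 := 201326592) (W3 := 134217728) (N0 := 3)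
    rfl k0_pp_203

noncomputable def f_pp_213 : ℕ → ℕ → ℕ → ℕ → Bool := onCell 1073741824 536870912 536870912 536870912 201326592 134217728
    (rowN 3 0 true true true .pnn 2 1 3 (qsf 1073741824 536870912 536870912 536870912 3) ndN4q2 ndN5q1 pcN3 Cut.none Ext.none)

def k0_pp_213 : ∃ t, chk3 f_pp_213 t 1 1 1 = true :=
  ⟨(l 4), by decide +kernel⟩

theorem c_pp_213 : CertN 1073741824 536870912 536870912 536870912 201326592 134217728 3 true true true .pnn 2 1 3
    ndN4q2 ndN5q1 pcN3 Cut.none Ext.none :=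
  certN0 (fam := true) (s1 := true) (s2 := true) (a := 2) (b := 1) (c := 3) (cn := .pnn) (n1 := ndN4q2) (n2 := ndN5q1) (pc := pcN3) (cut := Cut.none) (xt := Ext.none) (P1 := 1073741824) (W1 := 536870912) (P2 := 536870912) (W2 := 536870912) (P3 := 201326592) (W3 := 134217728) (N0 := 3)
    rfl k0_pp_213

noncomputable def f_pp_303 : ℕ → ℕ → ℕ → ℕ → Bool := onCell 0 1230186008 0 536870912 201326592 134217728
    (rowN 3 0 true true true .npn 3 0 3 (qsf 0 1230186008 0 536870912 3) ndN4q3 ndN5q0 pcN3 Cut.none Ext.none)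

def k0_pp_303 : ∃ t, chk3 f_pp_303 t 1 1 1 = true :=
  ⟨(l 4), by decide +kernel⟩

theorem c_pp_303 : CertN 0 1230186008 0 536870912 201326592 134217728 3 true true true .npn 3 0 3
    ndN4q3 ndN5q0 pcN3 Cut.none Ext.none :=
  certN0 (fam := true) (s1 := true) (s2 := true) (a := 3) (b := 0) (c := 3) (cn := .npn) (n1 := ndN4q3) (n2 := ndN5q0) (pc := pcN3) (cut := Cut.none) (xt := Ext.none) (P1 := 0) (W1 := 1230186008) (P2 := 0) (W2 := 536870912) (P3 := 201326592) (W3 := 134217728) (N0 := 3)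
    rfl k0_pp_303

noncomputable def f_pp_313 : ℕ → ℕ → ℕ → ℕ → Bool := onCell 0 1230186008 536870912 536870912 201326592 134217728
    (rowN 3 0 true true true .dn 3 1 3 (qsf 0 1230186008 536870912 536870912 3) ndN4q3 ndN5q1 pcN3 Cut.none Ext.none)

def k0_pp_313 : ∃ t, chk3 f_pp_313 t 1 1 1 = true :=
  ⟨(l 4), by decide +kernel⟩

theorem c_pp_313 : CertN 0 1230186008 536870912 536870912 201326592 134217728 3 true true true .dn 3 1 3
    ndN4q3 ndN5q1 pcN3 Cut.none Ext.none :=
  certN0 (fam := true) (s1 := true) (s2 := true) (a := 3) (b := 1) (c := 3) (cn := .dn) (n1 := ndN4q3) (n2 := ndN5q1) (pc := pcN3) (cut := Cut.none) (xt := Ext.none) (P1 := 0) (W1 := 1230186008) (P2 := 536870912) (W2 := 536870912) (P3 := 201326592) (W3 := 134217728) (N0 := 3)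
    rfl k0_pp_313

noncomputable def f_pm_001 : ℕ → ℕ → ℕ → ℕ → Bool := onCell 0 536870912 0 536870912 201326592 134217728
    (rowN 3 0 true true false .up 0 0 1 (qsf 0 536870912 0 536870912 1) ndN4q0 ndN5q0 pcN1 Cut.none Ext.none)

def k0_pm_001 : ∃ t, chk3 f_pm_001 t 1 1 1 = true :=
  ⟨(l 3), by decide +kernel⟩

theorem c_pm_001 : CertN 0 536870912 0 536870912 201326592 134217728 3 true true false .up 0 0 1
    ndN4q0 ndN5q0 pcN1 Cut.none Ext.none :=
  certN0 (fam := true) (s1 := true) (s2 := false) (a := 0) (b := 0) (c := 1) (cn := .up) (n1 := ndN4q0) (n2 := ndN5q0) (pc := pcN1) (cut := Cut.none) (xt := Ext.none) (P1 := 0) (W1 := 536870912) (P2 := 0) (W2 := 536870912) (P3 := 201326592) (W3 := 134217728) (N0 := 3)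
    rfl k0_pm_001

noncomputable def f_pm_011 : ℕ → ℕ → ℕ → ℕ → Bool := onCell 0 536870912 536870912 536870912 201326592 134217728
    (rowN 3 1 true true false .pnn 0 1 1 (qsf 0 536870912 536870912 536870912 1) ndN4q0 ndN5q1 pcN1 Cut.none Ext.none)

def k0_pm_011 : ∃ t, chk3 f_pm_011 t 1 1 1 = true :=
  ⟨(l 3), by decide +kernel⟩

theorem c_pm_011 : CertN 0 536870912 536870912 536870912 201326592 134217728 3 true true false .pnn 0 1 1
    ndN4q0 ndN5q1 pcN1 Cut.none Ext.none :=
  certN1 (fam := true) (s1 := true) (s2 := false) (a := 0) (b := 1) (c := 1) (cn := .pnn) (n1 := ndN4q0) (n2 := ndN5q1) (pc := pcN1) (cut := Cut.none) (xt := Ext.none) (P1 := 0) (W1 := 536870912) (P2 := 536870912) (W2 := 536870912) (P3 := 201326592) (W3 := 134217728) (N0 := 3)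
    rfl (fun _ => rfl) k0_pm_011

noncomputable def f_pm_012 : ℕ → ℕ → ℕ → ℕ → Bool := onCell 1073741824 536870912 536870912 536870912 201326592 134217728
    (rowN 3 2 true true false .pnp 0 1 2 (qsf 0 536870912 536870912 536870912 2) ndN4q0 ndN5q1 pcN2 Cut.none Ext.none)

def k0_pm_012 : ∃ t, chk3 f_pm_012 t 1 1 1 = true :=
  ⟨(a (a (l 3) (b (a (a (a (l 3) (b (l 2) (a (l 3) (l 17755384)))) (l 17708640)) (l 17750056)) (a (a (a (l 3) (a (l 3) (a (l 3) (b (l 17908872) (l 18005248))))) (b (l 17922696) (l 18022256))) (b (l 17986656) (l 18074376))))) (b (b (l 2) (l 17887904)) (b (l 18155232) (a (l 18258440) (l 18311736))))), by decide +kernel⟩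

theorem c_pm_012 : CertN 0 536870912 536870912 536870912 201326592 134217728 3 true true false .pnp 0 1 2
    ndN4q0 ndN5q1 pcN2 Cut.none Ext.none :=
  certN2 (fam := true) (s1 := true) (s2 := false) (a := 0) (b := 1) (c := 2) (cn := .pnp) (n1 := ndN4q0) (n2 := ndN5q1) (pc := pcN2) (cut := Cut.none) (xt := Ext.none) (P1 := 0) (W1 := 536870912) (P2 := 536870912) (W2 := 536870912) (P3 := 201326592) (W3 := 134217728) (N0 := 3)
    rfl (fun _ => rfl) k0_pm_012

noncomputable def f_pm_022 : ℕ → ℕ → ℕ → ℕ → Bool := onCell 0 536870912 1073741824 536870912 201326592 134217728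
    (rowN 3 1 true true false .pp 0 2 2 (qsf 0 536870912 1073741824 536870912 2) ndN4q0 ndN5q2 pcN2 Cut.none Ext.none)

def k0_pm_022 : ∃ t, chk3 f_pm_022 t 1 1 1 = true :=
  ⟨(b (b (l 3) (a (b (b (b (l 3) (b (l 3) (b (l 3) (a (l 17830072) (l 18087880))))) (a (l 17811544) (l 18071832))) (a (l 17759440) (l 18025232))) (b (l 1) (a (l 18417552) (l 1))))) (a (b (a (b (l 17686416) (l 17613496)) (l 17928104)) (a (b (l 17533000) (l 17418336)) (l 17818000))) (a (b (l 18362752) (l 18170680)) (b (l 478926792823) (l 484294957287))))), by decide +kernel⟩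

theorem c_pm_022 : CertN 0 536870912 1073741824 536870912 201326592 134217728 3 true true false .pp 0 2 2
    ndN4q0 ndN5q2 pcN2 Cut.none Ext.none :=
  certN1 (fam := true) (s1 := true) (s2 := false) (a := 0) (b := 2) (c := 2) (cn := .pp) (n1 := ndN4q0) (n2 := ndN5q2) (pc := pcN2) (cut := Cut.none) (xt := Ext.none) (P1 := 0) (W1 := 536870912) (P2 := 1073741824) (W2 := 536870912) (P3 := 201326592) (W3 := 134217728) (N0 := 3)
    rfl (fun _ => rfl) k0_pm_022

noncomputable def f_pm_023 : ℕ → ℕ → ℕ → ℕ → Bool := onCell 1610612736 536870912 1073741824 536870912 201326592 134217728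
    (rowN 3 2 true true false .up 0 2 3 (qsf 0 536870912 1073741824 536870912 3) ndN4q0 ndN5q2 pcN3 Cut.none Ext.none)

def k0_pm_023 : ∃ t, chk3 f_pm_023 t 1 1 1 = true :=
  ⟨(b (a (b (l 18261176) (l 18004504)) (a (b (l 2) (l 17938352)) (l 2))) (a (b (a (l 17744928) (l 17750008)) (a (l 17721056) (l 17518944))) (a (b (l 17688896) (l 17441992)) (a (l 17542512) (a (l 17539704) (b (l 2) (l 17378472))))))), by decide +kernel⟩

theorem c_pm_023 : CertN 0 536870912 1073741824 536870912 201326592 134217728 3 true true false .up 0 2 3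
    ndN4q0 ndN5q2 pcN3 Cut.none Ext.none :=
  certN2 (fam := true) (s1 := true) (s2 := false) (a := 0) (b := 2) (c := 3) (cn := .up) (n1 := ndN4q0) (n2 := ndN5q2) (pc := pcN3) (cut := Cut.none) (xt := Ext.none) (P1 := 0) (W1 := 536870912) (P2 := 1073741824) (W2 := 536870912) (P3 := 201326592) (W3 := 134217728) (N0 := 3)
    rfl (fun _ => rfl) k0_pm_023

noncomputable def f_pm_033 : ℕ → ℕ → ℕ → ℕ → Bool := onCell 1610612736 536870912 0 1230186008 201326592 134217728
    (rowN 3 2 true true false .pnn 0 3 3 (qsf 0 536870912 0 1230186008 3) ndN4q0 ndN5q3 pcN3 Cut.none Ext.none)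

def k0_pm_033 : ∃ t, chk3 f_pm_033 t 1 1 1 = true :=
  ⟨(a (b (l 1) (b (b (l 1) (a (l 1) (a (l 1) (l 17178256)))) (b (a (l 1) (l 17432888)) (a (b (l 17309888) (l 17319080)) (l 17332512))))) (a (b (l 1) (b (b (l 629247265447) (l 17275392)) (b (l 17092880) (l 17440696)))) (b (b (l 4) (l 4)) (b (a (l 4) (l 4)) (a (b (l 16990592) (l 17152704)) (a (l 17042024) (l 4))))))), by decide +kernel⟩

theorem c_pm_033 : CertN 0 536870912 0 1230186008 201326592 134217728 3 true true false .pnn 0 3 3
    ndN4q0 ndN5q3 pcN3 Cut.none Ext.none :=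
  certN2 (fam := true) (s1 := true) (s2 := false) (a := 0) (b := 3) (c := 3) (cn := .pnn) (n1 := ndN4q0) (n2 := ndN5q3) (pc := pcN3) (cut := Cut.none) (xt := Ext.none) (P1 := 0) (W1 := 536870912) (P2 := 0) (W2 := 1230186008) (P3 := 201326592) (W3 := 134217728) (N0 := 3)
    rfl (fun _ => rfl) k0_pm_033

noncomputable def f_pm_101 : ℕ → ℕ → ℕ → ℕ → Bool := onCell 536870912 536870912 536870912 536870912 201326592 134217728
    (rowN 3 1 true true false .npn 1 0 1 (qsf 536870912 536870912 0 536870912 1) ndN4q1 ndN5q0 pcN1 Cut.none Ext.none)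

def k0_pm_101 : ∃ t, chk3 f_pm_101 t 1 1 1 = true :=
  ⟨(l 3), by decide +kernel⟩

theorem c_pm_101 : CertN 536870912 536870912 0 536870912 201326592 134217728 3 true true false .npn 1 0 1
    ndN4q1 ndN5q0 pcN1 Cut.none Ext.none :=
  certN1 (fam := true) (s1 := true) (s2 := false) (a := 1) (b := 0) (c := 1) (cn := .npn) (n1 := ndN4q1) (n2 := ndN5q0) (pc := pcN1) (cut := Cut.none) (xt := Ext.none) (P1 := 536870912) (W1 := 536870912) (P2 := 0) (W2 := 536870912) (P3 := 201326592) (W3 := 134217728) (N0 := 3)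
    rfl (fun _ => rfl) k0_pm_101

noncomputable def f_pm_102 : ℕ → ℕ → ℕ → ℕ → Bool := onCell 1073741824 536870912 0 536870912 201326592 134217728
    (rowN 3 2 true true false .npp 1 0 2 (qsf 536870912 536870912 0 536870912 2) ndN4q1 ndN5q0 pcN2 Cut.none Ext.none)

def k0_pm_102 : ∃ t, chk3 f_pm_102 t 1 1 1 = true :=
  ⟨(a (a (b (a (l 3) (b (l 18878024) (l 18612056))) (l 3)) (b (a (a (a (l 18927064) (a (l 18977584) (b (l 2) (l 18861888)))) (l 19094000)) (l 19311632)) (a (a (a (l 18558584) (a (l 18606752) (a (l 18629952) (l 18898504)))) (l 18726424)) (l 19120872)))) (a (b (b (l 2) (l 19312112)) (b (l 19163792) (l 18833256))) (b (l 2) (b (l 19225792) (l 18698008))))), by decide +kernel⟩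

theorem c_pm_102 : CertN 536870912 536870912 0 536870912 201326592 134217728 3 true true false .npp 1 0 2
    ndN4q1 ndN5q0 pcN2 Cut.none Ext.none :=
  certN2 (fam := true) (s1 := true) (s2 := false) (a := 1) (b := 0) (c := 2) (cn := .npp) (n1 := ndN4q1) (n2 := ndN5q0) (pc := pcN2) (cut := Cut.none) (xt := Ext.none) (P1 := 536870912) (W1 := 536870912) (P2 := 0) (W2 := 536870912) (P3 := 201326592) (W3 := 134217728) (N0 := 3)
    rfl (fun _ => rfl) k0_pm_102

noncomputable def f_pm_112 : ℕ → ℕ → ℕ → ℕ → Bool := onCell 1073741824 536870912 536870912 536870912 201326592 134217728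
    (rowN 3 2 true true false .dn 1 1 2 (qsf 536870912 536870912 536870912 536870912 2) ndN4q1 ndN5q1 pcN2 Cut.none Ext.none)

def k0_pm_112 : ∃ t, chk3 f_pm_112 t 1 1 1 = true :=
  ⟨(a (a (l 3) (b (a (a (a (l 3) (a (l 18489192) (l 18518136))) (l 18591152)) (l 18796784)) (a (l 1) (l 18831400)))) (b (l 18611064) (l 18666432))), by decide +kernel⟩

theorem c_pm_112 : CertN 536870912 536870912 536870912 536870912 201326592 134217728 3 true true false .dn 1 1 2
    ndN4q1 ndN5q1 pcN2 Cut.none Ext.none :=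
  certN2 (fam := true) (s1 := true) (s2 := false) (a := 1) (b := 1) (c := 2) (cn := .dn) (n1 := ndN4q1) (n2 := ndN5q1) (pc := pcN2) (cut := Cut.none) (xt := Ext.none) (P1 := 536870912) (W1 := 536870912) (P2 := 536870912) (W2 := 536870912) (P3 := 201326592) (W3 := 134217728) (N0 := 3)
    rfl (fun _ => rfl) k0_pm_112

noncomputable def f_pm_113 : ℕ → ℕ → ℕ → ℕ → Bool := onCell 536870912 536870912 1610612736 536870912 201326592 134217728
    (rowN 3 1 true true false .nn 1 1 3 (qsf 536870912 536870912 536870912 536870912 3) ndN4q1 ndN5q1 pcN3 Cut.none Ext.none)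

def k0_pm_113 : ∃ t, chk3 f_pm_113 t 1 1 1 = true :=
  ⟨(a (b (l 18315360) (b (l 17582704) (l 2))) (b (l 17971304) (b (l 17407792) (b (l 17135688) (b (l 16998856) (b (l 16937608) (l 16886072))))))), by decide +kernel⟩

theorem c_pm_113 : CertN 536870912 536870912 536870912 536870912 201326592 134217728 3 true true false .nn 1 1 3
    ndN4q1 ndN5q1 pcN3 Cut.none Ext.none :=
  certN1 (fam := true) (s1 := true) (s2 := false) (a := 1) (b := 1) (c := 3) (cn := .nn) (n1 := ndN4q1) (n2 := ndN5q1) (pc := pcN3) (cut := Cut.none) (xt := Ext.none) (P1 := 536870912) (W1 := 536870912) (P2 := 536870912) (W2 := 536870912) (P3 := 201326592) (W3 := 134217728) (N0 := 3)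
    rfl (fun _ => rfl) k0_pm_113

noncomputable def f_pm_123 : ℕ → ℕ → ℕ → ℕ → Bool := onCell 1610612736 536870912 1073741824 536870912 201326592 134217728
    (rowN 3 2 true true false .npn 1 2 3 (qsf 536870912 536870912 1073741824 536870912 3) ndN4q1 ndN5q2 pcN3 Cut.none Ext.none)

def k0_pm_123 : ∃ t, chk3 f_pm_123 t 1 1 1 = true :=
  ⟨(a (b (b (l 18006328) (l 17893392)) (b (l 505768416391) (l 1))) (a (b (b (l 17407264) (l 17351456)) (b (l 17290024) (l 17104936))) (a (b (l 17123168) (l 16934592)) (b (a (l 16925680) (a (l 16846208) (b (l 16806464) (l 16802024)))) (a (l 16805328) (b (l 16823688) (l 16900816))))))), by decide +kernel⟩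

theorem c_pm_123 : CertN 536870912 536870912 1073741824 536870912 201326592 134217728 3 true true false .npn 1 2 3
    ndN4q1 ndN5q2 pcN3 Cut.none Ext.none :=
  certN2 (fam := true) (s1 := true) (s2 := false) (a := 1) (b := 2) (c := 3) (cn := .npn) (n1 := ndN4q1) (n2 := ndN5q2) (pc := pcN3) (cut := Cut.none) (xt := Ext.none) (P1 := 536870912) (W1 := 536870912) (P2 := 1073741824) (W2 := 536870912) (P3 := 201326592) (W3 := 134217728) (N0 := 3)
    rfl (fun _ => rfl) k0_pm_123

noncomputable def f_pm_133 : ℕ → ℕ → ℕ → ℕ → Bool := onCell 536870912 536870912 0 1230186008 201326592 134217728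
    (rowN 3 0 true true false .dn 1 3 3 (qsf 536870912 536870912 0 1230186008 3) ndN4q1 ndN5q3 pcN3 Cut.none Ext.none)

def k0_pm_133 : ∃ t, chk3 f_pm_133 t 1 1 1 = true :=
  ⟨(b (l 2) (b (l 2) (a (l 4) (l 2)))), by decide +kernel⟩

theorem c_pm_133 : CertN 536870912 536870912 0 1230186008 201326592 134217728 3 true true false .dn 1 3 3
    ndN4q1 ndN5q3 pcN3 Cut.none Ext.none :=
  certN0 (fam := true) (s1 := true) (s2 := false) (a := 1) (b := 3) (c := 3) (cn := .dn) (n1 := ndN4q1) (n2 := ndN5q3) (pc := pcN3) (cut := Cut.none) (xt := Ext.none) (P1 := 536870912) (W1 := 536870912) (P2 := 0) (W2 := 1230186008) (P3 := 201326592) (W3 := 134217728) (N0 := 3)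
    rfl k0_pm_133

noncomputable def f_pm_202 : ℕ → ℕ → ℕ → ℕ → Bool := onCell 1073741824 536870912 0 536870912 201326592 134217728
    (rowN 3 2 true true false .pp 2 0 2 (qsf 1073741824 536870912 0 536870912 2) ndN4q2 ndN5q0 pcN2 Cut.none Ext.none)

def k0_pm_202 : ∃ t, chk3 f_pm_202 t 1 1 1 = true :=
  ⟨(a (b (a (b (a (l 231429415431) (a (l 18449656) (a (l 18603264) (l 18563872)))) (a (l 1) (a (l 1) (a (l 1) (l 19235384))))) (a (a (a (b (l 18525712) (l 19071984)) (b (l 18503720) (l 143383103303))) (b (l 18449192) (l 18966520))) (b (l 18350512) (l 18531280)))) (a (l 1) (a (l 1) (b (l 527782538215) (l 1))))) (a (b (a (b (l 18231944) (l 18470256)) (b (l 18104328) (l 18418112))) (a (b (l 18456592) (l 1)) (b (l 18320048) (l 18397240)))) (a (b (l 18130760) (b (l 18222456) (l 18242880))) (b (l 18039408) (l 18124880))))), by decide +kernel⟩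

theorem c_pm_202 : CertN 1073741824 536870912 0 536870912 201326592 134217728 3 true true false .pp 2 0 2
    ndN4q2 ndN5q0 pcN2 Cut.none Ext.none :=
  certN2 (fam := true) (s1 := true) (s2 := false) (a := 2) (b := 0) (c := 2) (cn := .pp) (n1 := ndN4q2) (n2 := ndN5q0) (pc := pcN2) (cut := Cut.none) (xt := Ext.none) (P1 := 1073741824) (W1 := 536870912) (P2 := 0) (W2 := 536870912) (P3 := 201326592) (W3 := 134217728) (N0 := 3)
    rfl (fun _ => rfl) k0_pm_202

noncomputable def f_pm_203 : ℕ → ℕ → ℕ → ℕ → Bool := onCell 1073741824 536870912 1610612736 536870912 201326592 134217728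
    (rowN 3 1 true true false .up 2 0 3 (qsf 1073741824 536870912 0 536870912 3) ndN4q2 ndN5q0 pcN3 Cut.none Ext.none)

def k0_pm_203 : ∃ t, chk3 f_pm_203 t 1 1 1 = true :=
  ⟨(a (b (b (a (l 17792912) (l 17767776)) (a (b (l 17618904) (l 2)) (l 17648632))) (a (l 2) (b (b (l 17288368) (l 2)) (l 2)))) (b (b (a (l 17712256) (l 17470008)) (a (l 17416456) (l 17405248))) (b (a (l 17342336) (l 17038880)) (l 4)))), by decide +kernel⟩

theorem c_pm_203 : CertN 1073741824 536870912 0 536870912 201326592 134217728 3 true true false .up 2 0 3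
    ndN4q2 ndN5q0 pcN3 Cut.none Ext.none :=
  certN1 (fam := true) (s1 := true) (s2 := false) (a := 2) (b := 0) (c := 3) (cn := .up) (n1 := ndN4q2) (n2 := ndN5q0) (pc := pcN3) (cut := Cut.none) (xt := Ext.none) (P1 := 1073741824) (W1 := 536870912) (P2 := 0) (W2 := 536870912) (P3 := 201326592) (W3 := 134217728) (N0 := 3)
    rfl (fun _ => rfl) k0_pm_203

noncomputable def f_pm_213 : ℕ → ℕ → ℕ → ℕ → Bool := onCell 1073741824 536870912 1610612736 536870912 201326592 134217728
    (rowN 3 1 true true false .pnn 2 1 3 (qsf 1073741824 536870912 536870912 536870912 3) ndN4q2 ndN5q1 pcN3 Cut.none Ext.none)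

def k0_pm_213 : ∃ t, chk3 f_pm_213 t 1 1 1 = true :=
  ⟨(a (b (b (a (l 17789240) (l 17754472)) (a (l 17553672) (l 17475040))) (b (a (b (l 17392688) (l 17267376)) (l 17308200)) (b (l 17096352) (b (l 17048632) (l 4))))) (b (b (l 1) (a (l 17405472) (l 1))) (b (b (l 17162824) (l 16991272)) (l 4)))), by decide +kernel⟩

theorem c_pm_213 : CertN 1073741824 536870912 536870912 536870912 201326592 134217728 3 true true false .pnn 2 1 3
    ndN4q2 ndN5q1 pcN3 Cut.none Ext.none :=
  certN1 (fam := true) (s1 := true) (s2 := false) (a := 2) (b := 1) (c := 3) (cn := .pnn) (n1 := ndN4q2) (n2 := ndN5q1) (pc := pcN3) (cut := Cut.none) (xt := Ext.none) (P1 := 1073741824) (W1 := 536870912) (P2 := 536870912) (W2 := 536870912) (P3 := 201326592) (W3 := 134217728) (N0 := 3)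
    rfl (fun _ => rfl) k0_pm_213

noncomputable def f_pm_303 : ℕ → ℕ → ℕ → ℕ → Bool := onCell 0 1230186008 1610612736 536870912 201326592 134217728
    (rowN 3 1 true true false .npn 3 0 3 (qsf 0 1230186008 0 536870912 3) ndN4q3 ndN5q0 pcN3 Cut.none Ext.none)

def k0_pm_303 : ∃ t, chk3 f_pm_303 t 1 1 1 = true :=
  ⟨(a (l 4) (b (a (b (l 1) (l 4)) (b (a (l 1) (b (l 16998912) (l 16966992))) (a (l 17079712) (b (l 16877928) (l 16849104))))) (b (a (l 4) (l 4)) (l 4)))), by decide +kernel⟩

theorem c_pm_303 : CertN 0 1230186008 0 536870912 201326592 134217728 3 true true false .npn 3 0 3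
    ndN4q3 ndN5q0 pcN3 Cut.none Ext.none :=
  certN1 (fam := true) (s1 := true) (s2 := false) (a := 3) (b := 0) (c := 3) (cn := .npn) (n1 := ndN4q3) (n2 := ndN5q0) (pc := pcN3) (cut := Cut.none) (xt := Ext.none) (P1 := 0) (W1 := 1230186008) (P2 := 0) (W2 := 536870912) (P3 := 201326592) (W3 := 134217728) (N0 := 3)
    rfl (fun _ => rfl) k0_pm_303

noncomputable def f_pm_313 : ℕ → ℕ → ℕ → ℕ → Bool := onCell 0 1230186008 536870912 536870912 201326592 134217728
    (rowN 3 0 true true false .dn 3 1 3 (qsf 0 1230186008 536870912 536870912 3) ndN4q3 ndN5q1 pcN3 Cut.none Ext.none)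

def k0_pm_313 : ∃ t, chk3 f_pm_313 t 1 1 1 = true :=
  ⟨(a (l 2) (l 4)), by decide +kernel⟩

theorem c_pm_313 : CertN 0 1230186008 536870912 536870912 201326592 134217728 3 true true false .dn 3 1 3
    ndN4q3 ndN5q1 pcN3 Cut.none Ext.none :=
  certN0 (fam := true) (s1 := true) (s2 := false) (a := 3) (b := 1) (c := 3) (cn := .dn) (n1 := ndN4q3) (n2 := ndN5q1) (pc := pcN3) (cut := Cut.none) (xt := Ext.none) (P1 := 0) (W1 := 1230186008) (P2 := 536870912) (W2 := 536870912) (P3 := 201326592) (W3 := 134217728) (N0 := 3)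
    rfl k0_pm_313

noncomputable def f_mm_001 : ℕ → ℕ → ℕ → ℕ → Bool := onCell 0 536870912 0 536870912 201326592 134217728
    (rowN 3 0 true false false .up 0 0 1 (qsf 0 536870912 0 536870912 1) ndN4q0 ndN5q0 pcN1 Cut.none Ext.none)

def k0_mm_001 : ∃ t, chk3 f_mm_001 t 1 1 1 = true :=
  ⟨(l 4), by decide +kernel⟩

theorem c_mm_001 : CertN 0 536870912 0 536870912 201326592 134217728 3 true false false .up 0 0 1
    ndN4q0 ndN5q0 pcN1 Cut.none Ext.none :=
  certN0 (fam := true) (s1 := false) (s2 := false) (a := 0) (b := 0) (c := 1) (cn := .up) (n1 := ndN4q0) (n2 := ndN5q0) (pc := pcN1) (cut := Cut.none) (xt := Ext.none) (P1 := 0) (W1 := 536870912) (P2 := 0) (W2 := 536870912) (P3 := 201326592) (W3 := 134217728) (N0 := 3)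
    rfl k0_mm_001

noncomputable def f_mm_011 : ℕ → ℕ → ℕ → ℕ → Bool := onCell 0 536870912 536870912 536870912 201326592 134217728
    (rowN 3 0 true false false .pnn 0 1 1 (qsf 0 536870912 536870912 536870912 1) ndN4q0 ndN5q1 pcN1 Cut.none Ext.none)

def k0_mm_011 : ∃ t, chk3 f_mm_011 t 1 1 1 = true :=
  ⟨(l 4), by decide +kernel⟩

theorem c_mm_011 : CertN 0 536870912 536870912 536870912 201326592 134217728 3 true false false .pnn 0 1 1
    ndN4q0 ndN5q1 pcN1 Cut.none Ext.none :=
  certN0 (fam := true) (s1 := false) (s2 := false) (a := 0) (b := 1) (c := 1) (cn := .pnn) (n1 := ndN4q0) (n2 := ndN5q1) (pc := pcN1) (cut := Cut.none) (xt := Ext.none) (P1 := 0) (W1 := 536870912) (P2 := 536870912) (W2 := 536870912) (P3 := 201326592) (W3 := 134217728) (N0 := 3)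
    rfl k0_mm_011

noncomputable def f_mm_012 : ℕ → ℕ → ℕ → ℕ → Bool := onCell 0 536870912 536870912 536870912 201326592 134217728
    (rowN 3 0 true false false .pnp 0 1 2 (qsf 0 536870912 536870912 536870912 2) ndN4q0 ndN5q1 pcN2 Cut.none Ext.none)

def k0_mm_012 : ∃ t, chk3 f_mm_012 t 1 1 1 = true :=
  ⟨(l 4), by decide +kernel⟩

theorem c_mm_012 : CertN 0 536870912 536870912 536870912 201326592 134217728 3 true false false .pnp 0 1 2
    ndN4q0 ndN5q1 pcN2 Cut.none Ext.none :=
  certN0 (fam := true) (s1 := false) (s2 := false) (a := 0) (b := 1) (c := 2) (cn := .pnp) (n1 := ndN4q0) (n2 := ndN5q1) (pc := pcN2) (cut := Cut.none) (xt := Ext.none) (P1 := 0) (W1 := 536870912) (P2 := 536870912) (W2 := 536870912) (P3 := 201326592) (W3 := 134217728) (N0 := 3)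
    rfl k0_mm_012

noncomputable def f_mm_022 : ℕ → ℕ → ℕ → ℕ → Bool := onCell 0 536870912 1073741824 536870912 201326592 134217728
    (rowN 3 0 true false false .pp 0 2 2 (qsf 0 536870912 1073741824 536870912 2) ndN4q0 ndN5q2 pcN2 Cut.none Ext.none)

def k0_mm_022 : ∃ t, chk3 f_mm_022 t 1 1 1 = true :=
  ⟨(l 4), by decide +kernel⟩

theorem c_mm_022 : CertN 0 536870912 1073741824 536870912 201326592 134217728 3 true false false .pp 0 2 2
    ndN4q0 ndN5q2 pcN2 Cut.none Ext.none :=
  certN0 (fam := true) (s1 := false) (s2 := false) (a := 0) (b := 2) (c := 2) (cn := .pp) (n1 := ndN4q0) (n2 := ndN5q2) (pc := pcN2) (cut := Cut.none) (xt := Ext.none) (P1 := 0) (W1 := 536870912) (P2 := 1073741824) (W2 := 536870912) (P3 := 201326592) (W3 := 134217728) (N0 := 3)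
    rfl k0_mm_022

noncomputable def f_mm_023 : ℕ → ℕ → ℕ → ℕ → Bool := onCell 0 536870912 1073741824 536870912 201326592 134217728
    (rowN 3 0 true false false .up 0 2 3 (qsf 0 536870912 1073741824 536870912 3) ndN4q0 ndN5q2 pcN3 Cut.none Ext.none)

def k0_mm_023 : ∃ t, chk3 f_mm_023 t 1 1 1 = true :=
  ⟨(l 4), by decide +kernel⟩

theorem c_mm_023 : CertN 0 536870912 1073741824 536870912 201326592 134217728 3 true false false .up 0 2 3
    ndN4q0 ndN5q2 pcN3 Cut.none Ext.none :=
  certN0 (fam := true) (s1 := false) (s2 := false) (a := 0) (b := 2) (c := 3) (cn := .up) (n1 := ndN4q0) (n2 := ndN5q2) (pc := pcN3) (cut := Cut.none) (xt := Ext.none) (P1 := 0) (W1 := 536870912) (P2 := 1073741824) (W2 := 536870912) (P3 := 201326592) (W3 := 134217728) (N0 := 3)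
    rfl k0_mm_023

noncomputable def f_mm_033 : ℕ → ℕ → ℕ → ℕ → Bool := onCell 0 536870912 0 1230186008 201326592 134217728
    (rowN 3 0 true false false .pnn 0 3 3 (qsf 0 536870912 0 1230186008 3) ndN4q0 ndN5q3 pcN3 Cut.none Ext.none)

def k0_mm_033 : ∃ t, chk3 f_mm_033 t 1 1 1 = true :=
  ⟨(l 4), by decide +kernel⟩

theorem c_mm_033 : CertN 0 536870912 0 1230186008 201326592 134217728 3 true false false .pnn 0 3 3
    ndN4q0 ndN5q3 pcN3 Cut.none Ext.none :=
  certN0 (fam := true) (s1 := false) (s2 := false) (a := 0) (b := 3) (c := 3) (cn := .pnn) (n1 := ndN4q0) (n2 := ndN5q3) (pc := pcN3) (cut := Cut.none) (xt := Ext.none) (P1 := 0) (W1 := 536870912) (P2 := 0) (W2 := 1230186008) (P3 := 201326592) (W3 := 134217728) (N0 := 3)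
    rfl k0_mm_033

noncomputable def f_mm_101 : ℕ → ℕ → ℕ → ℕ → Bool := onCell 536870912 536870912 0 536870912 201326592 134217728
    (rowN 3 0 true false false .npn 1 0 1 (qsf 536870912 536870912 0 536870912 1) ndN4q1 ndN5q0 pcN1 Cut.none Ext.none)

def k0_mm_101 : ∃ t, chk3 f_mm_101 t 1 1 1 = true :=
  ⟨(l 4), by decide +kernel⟩

theorem c_mm_101 : CertN 536870912 536870912 0 536870912 201326592 134217728 3 true false false .npn 1 0 1
    ndN4q1 ndN5q0 pcN1 Cut.none Ext.none :=
  certN0 (fam := true) (s1 := false) (s2 := false) (a := 1) (b := 0) (c := 1) (cn := .npn) (n1 := ndN4q1) (n2 := ndN5q0) (pc := pcN1) (cut := Cut.none) (xt := Ext.none) (P1 := 536870912) (W1 := 536870912) (P2 := 0) (W2 := 536870912) (P3 := 201326592) (W3 := 134217728) (N0 := 3)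
    rfl k0_mm_101

noncomputable def f_mm_102 : ℕ → ℕ → ℕ → ℕ → Bool := onCell 536870912 536870912 0 536870912 201326592 134217728
    (rowN 3 0 true false false .npp 1 0 2 (qsf 536870912 536870912 0 536870912 2) ndN4q1 ndN5q0 pcN2 Cut.none Ext.none)

def k0_mm_102 : ∃ t, chk3 f_mm_102 t 1 1 1 = true :=
  ⟨(l 4), by decide +kernel⟩

theorem c_mm_102 : CertN 536870912 536870912 0 536870912 201326592 134217728 3 true false false .npp 1 0 2
    ndN4q1 ndN5q0 pcN2 Cut.none Ext.none :=
  certN0 (fam := true) (s1 := false) (s2 := false) (a := 1) (b := 0) (c := 2) (cn := .npp) (n1 := ndN4q1) (n2 := ndN5q0) (pc := pcN2) (cut := Cut.none) (xt := Ext.none) (P1 := 536870912) (W1 := 536870912) (P2 := 0) (W2 := 536870912) (P3 := 201326592) (W3 := 134217728) (N0 := 3)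
    rfl k0_mm_102

noncomputable def f_mm_112 : ℕ → ℕ → ℕ → ℕ → Bool := onCell 536870912 536870912 536870912 536870912 201326592 134217728
    (rowN 3 0 true false false .dn 1 1 2 (qsf 536870912 536870912 536870912 536870912 2) ndN4q1 ndN5q1 pcN2 Cut.none Ext.none)

def k0_mm_112 : ∃ t, chk3 f_mm_112 t 1 1 1 = true :=
  ⟨(l 4), by decide +kernel⟩

theorem c_mm_112 : CertN 536870912 536870912 536870912 536870912 201326592 134217728 3 true false false .dn 1 1 2
    ndN4q1 ndN5q1 pcN2 Cut.none Ext.none :=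
  certN0 (fam := true) (s1 := false) (s2 := false) (a := 1) (b := 1) (c := 2) (cn := .dn) (n1 := ndN4q1) (n2 := ndN5q1) (pc := pcN2) (cut := Cut.none) (xt := Ext.none) (P1 := 536870912) (W1 := 536870912) (P2 := 536870912) (W2 := 536870912) (P3 := 201326592) (W3 := 134217728) (N0 := 3)
    rfl k0_mm_112

noncomputable def f_mm_113 : ℕ → ℕ → ℕ → ℕ → Bool := onCell 536870912 536870912 536870912 536870912 201326592 134217728
    (rowN 3 0 true false false .nn 1 1 3 (qsf 536870912 536870912 536870912 536870912 3) ndN4q1 ndN5q1 pcN3 Cut.none Ext.none)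

def k0_mm_113 : ∃ t, chk3 f_mm_113 t 1 1 1 = true :=
  ⟨(l 4), by decide +kernel⟩

theorem c_mm_113 : CertN 536870912 536870912 536870912 536870912 201326592 134217728 3 true false false .nn 1 1 3
    ndN4q1 ndN5q1 pcN3 Cut.none Ext.none :=
  certN0 (fam := true) (s1 := false) (s2 := false) (a := 1) (b := 1) (c := 3) (cn := .nn) (n1 := ndN4q1) (n2 := ndN5q1) (pc := pcN3) (cut := Cut.none) (xt := Ext.none) (P1 := 536870912) (W1 := 536870912) (P2 := 536870912) (W2 := 536870912) (P3 := 201326592) (W3 := 134217728) (N0 := 3)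
    rfl k0_mm_113

noncomputable def f_mm_123 : ℕ → ℕ → ℕ → ℕ → Bool := onCell 536870912 536870912 1073741824 536870912 201326592 134217728
    (rowN 3 0 true false false .npn 1 2 3 (qsf 536870912 536870912 1073741824 536870912 3) ndN4q1 ndN5q2 pcN3 Cut.none Ext.none)

def k0_mm_123 : ∃ t, chk3 f_mm_123 t 1 1 1 = true :=
  ⟨(l 4), by decide +kernel⟩

theorem c_mm_123 : CertN 536870912 536870912 1073741824 536870912 201326592 134217728 3 true false false .npn 1 2 3
    ndN4q1 ndN5q2 pcN3 Cut.none Ext.none :=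
  certN0 (fam := true) (s1 := false) (s2 := false) (a := 1) (b := 2) (c := 3) (cn := .npn) (n1 := ndN4q1) (n2 := ndN5q2) (pc := pcN3) (cut := Cut.none) (xt := Ext.none) (P1 := 536870912) (W1 := 536870912) (P2 := 1073741824) (W2 := 536870912) (P3 := 201326592) (W3 := 134217728) (N0 := 3)
    rfl k0_mm_123

noncomputable def f_mm_133 : ℕ → ℕ → ℕ → ℕ → Bool := onCell 536870912 536870912 0 1230186008 201326592 134217728
    (rowN 3 0 true false false .dn 1 3 3 (qsf 536870912 536870912 0 1230186008 3) ndN4q1 ndN5q3 pcN3 Cut.none Ext.none)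

def k0_mm_133 : ∃ t, chk3 f_mm_133 t 1 1 1 = true :=
  ⟨(l 4), by decide +kernel⟩

theorem c_mm_133 : CertN 536870912 536870912 0 1230186008 201326592 134217728 3 true false false .dn 1 3 3
    ndN4q1 ndN5q3 pcN3 Cut.none Ext.none :=
  certN0 (fam := true) (s1 := false) (s2 := false) (a := 1) (b := 3) (c := 3) (cn := .dn) (n1 := ndN4q1) (n2 := ndN5q3) (pc := pcN3) (cut := Cut.none) (xt := Ext.none) (P1 := 536870912) (W1 := 536870912) (P2 := 0) (W2 := 1230186008) (P3 := 201326592) (W3 := 134217728) (N0 := 3)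
    rfl k0_mm_133

noncomputable def f_mm_202 : ℕ → ℕ → ℕ → ℕ → Bool := onCell 1073741824 536870912 0 536870912 201326592 134217728
    (rowN 3 0 true false false .pp 2 0 2 (qsf 1073741824 536870912 0 536870912 2) ndN4q2 ndN5q0 pcN2 Cut.none Ext.none)

def k0_mm_202 : ∃ t, chk3 f_mm_202 t 1 1 1 = true :=
  ⟨(l 4), by decide +kernel⟩

theorem c_mm_202 : CertN 1073741824 536870912 0 536870912 201326592 134217728 3 true false false .pp 2 0 2
    ndN4q2 ndN5q0 pcN2 Cut.none Ext.none :=
  certN0 (fam := true) (s1 := false) (s2 := false) (a := 2) (b := 0) (c := 2) (cn := .pp) (n1 := ndN4q2) (n2 := ndN5q0) (pc := pcN2) (cut := Cut.none) (xt := Ext.none) (P1 := 1073741824) (W1 := 536870912) (P2 := 0) (W2 := 536870912) (P3 := 201326592) (W3 := 134217728) (N0 := 3)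
    rfl k0_mm_202

noncomputable def f_mm_203 : ℕ → ℕ → ℕ → ℕ → Bool := onCell 1073741824 536870912 0 536870912 201326592 134217728
    (rowN 3 0 true false false .up 2 0 3 (qsf 1073741824 536870912 0 536870912 3) ndN4q2 ndN5q0 pcN3 Cut.none Ext.none)

def k0_mm_203 : ∃ t, chk3 f_mm_203 t 1 1 1 = true :=
  ⟨(l 4), by decide +kernel⟩

theorem c_mm_203 : CertN 1073741824 536870912 0 536870912 201326592 134217728 3 true false false .up 2 0 3
    ndN4q2 ndN5q0 pcN3 Cut.none Ext.none :=
  certN0 (fam := true) (s1 := false) (s2 := false) (a := 2) (b := 0) (c := 3) (cn := .up) (n1 := ndN4q2) (n2 := ndN5q0) (pc := pcN3) (cut := Cut.none) (xt := Ext.none) (P1 := 1073741824) (W1 := 536870912) (P2 := 0) (W2 := 536870912) (P3 := 201326592) (W3 := 134217728) (N0 := 3)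
    rfl k0_mm_203

noncomputable def f_mm_213 : ℕ → ℕ → ℕ → ℕ → Bool := onCell 1073741824 536870912 536870912 536870912 201326592 134217728
    (rowN 3 0 true false false .pnn 2 1 3 (qsf 1073741824 536870912 536870912 536870912 3) ndN4q2 ndN5q1 pcN3 Cut.none Ext.none)

def k0_mm_213 : ∃ t, chk3 f_mm_213 t 1 1 1 = true :=
  ⟨(l 4), by decide +kernel⟩

theorem c_mm_213 : CertN 1073741824 536870912 536870912 536870912 201326592 134217728 3 true false false .pnn 2 1 3
    ndN4q2 ndN5q1 pcN3 Cut.none Ext.none :=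
  certN0 (fam := true) (s1 := false) (s2 := false) (a := 2) (b := 1) (c := 3) (cn := .pnn) (n1 := ndN4q2) (n2 := ndN5q1) (pc := pcN3) (cut := Cut.none) (xt := Ext.none) (P1 := 1073741824) (W1 := 536870912) (P2 := 536870912) (W2 := 536870912) (P3 := 201326592) (W3 := 134217728) (N0 := 3)
    rfl k0_mm_213

noncomputable def f_mm_303 : ℕ → ℕ → ℕ → ℕ → Bool := onCell 0 1230186008 0 536870912 201326592 134217728
    (rowN 3 0 true false false .npn 3 0 3 (qsf 0 1230186008 0 536870912 3) ndN4q3 ndN5q0 pcN3 Cut.none Ext.none)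

def k0_mm_303 : ∃ t, chk3 f_mm_303 t 1 1 1 = true :=
  ⟨(l 4), by decide +kernel⟩

theorem c_mm_303 : CertN 0 1230186008 0 536870912 201326592 134217728 3 true false false .npn 3 0 3
    ndN4q3 ndN5q0 pcN3 Cut.none Ext.none :=
  certN0 (fam := true) (s1 := false) (s2 := false) (a := 3) (b := 0) (c := 3) (cn := .npn) (n1 := ndN4q3) (n2 := ndN5q0) (pc := pcN3) (cut := Cut.none) (xt := Ext.none) (P1 := 0) (W1 := 1230186008) (P2 := 0) (W2 := 536870912) (P3 := 201326592) (W3 := 134217728) (N0 := 3)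
    rfl k0_mm_303

noncomputable def f_mm_313 : ℕ → ℕ → ℕ → ℕ → Bool := onCell 0 1230186008 536870912 536870912 201326592 134217728
    (rowN 3 0 true false false .dn 3 1 3 (qsf 0 1230186008 536870912 536870912 3) ndN4q3 ndN5q1 pcN3 Cut.none Ext.none)

def k0_mm_313 : ∃ t, chk3 f_mm_313 t 1 1 1 = true :=
  ⟨(l 4), by decide +kernel⟩

theorem c_mm_313 : CertN 0 1230186008 536870912 536870912 201326592 134217728 3 true false false .dn 3 1 3
    ndN4q3 ndN5q1 pcN3 Cut.none Ext.none :=
  certN0 (fam := true) (s1 := false) (s2 := false) (a := 3) (b := 1) (c := 3) (cn := .dn) (n1 := ndN4q3) (n2 := ndN5q1) (pc := pcN3) (cut := Cut.none) (xt := Ext.none) (P1 := 0) (W1 := 1230186008) (P2 := 536870912) (W2 := 536870912) (P3 := 201326592) (W3 := 134217728) (N0 := 3)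
    rfl k0_mm_313

end Pool.Agent.Strip051.G.I3_16_5_16.Tab.C.NA45

namespace Pool.Agent.Strip051.G.I3_16_5_16.Tab.C.NA55

open Pool.Agent.Strip051.PB Pool.Agent.Strip051.PB.T
open Pool.Agent.Strip051.G.I3_16_5_16.Tab

noncomputable def f_pp_001 : ℕ → ℕ → ℕ → ℕ → Bool := onCell 0 536870912 0 536870912 201326592 134217728
    (rowN 3 0 true true true .up 0 0 1 (qsf 0 536870912 0 536870912 1) ndN5q0 ndN5q0 pcN1 Cut.none Ext.none)

def k0_pp_001 : ∃ t, chk3 f_pp_001 t 1 1 1 = true :=
  ⟨(l 4), by decide +kernel⟩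

theorem c_pp_001 : CertN 0 536870912 0 536870912 201326592 134217728 3 true true true .up 0 0 1
    ndN5q0 ndN5q0 pcN1 Cut.none Ext.none :=
  certN0 (fam := true) (s1 := true) (s2 := true) (a := 0) (b := 0) (c := 1) (cn := .up) (n1 := ndN5q0) (n2 := ndN5q0) (pc := pcN1) (cut := Cut.none) (xt := Ext.none) (P1 := 0) (W1 := 536870912) (P2 := 0) (W2 := 536870912) (P3 := 201326592) (W3 := 134217728) (N0 := 3)
    rfl k0_pp_001

noncomputable def f_pp_011 : ℕ → ℕ → ℕ → ℕ → Bool := onCell 0 536870912 536870912 536870912 201326592 134217728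
    (rowN 3 0 true true true .pnn 0 1 1 (qsf 0 536870912 536870912 536870912 1) ndN5q0 ndN5q1 pcN1 Cut.none Ext.none)

def k0_pp_011 : ∃ t, chk3 f_pp_011 t 1 1 1 = true :=
  ⟨(l 4), by decide +kernel⟩

theorem c_pp_011 : CertN 0 536870912 536870912 536870912 201326592 134217728 3 true true true .pnn 0 1 1
    ndN5q0 ndN5q1 pcN1 Cut.none Ext.none :=
  certN0 (fam := true) (s1 := true) (s2 := true) (a := 0) (b := 1) (c := 1) (cn := .pnn) (n1 := ndN5q0) (n2 := ndN5q1) (pc := pcN1) (cut := Cut.none) (xt := Ext.none) (P1 := 0) (W1 := 536870912) (P2 := 536870912) (W2 := 536870912) (P3 := 201326592) (W3 := 134217728) (N0 := 3)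
    rfl k0_pp_011

noncomputable def f_pp_012 : ℕ → ℕ → ℕ → ℕ → Bool := onCell 0 536870912 536870912 536870912 201326592 134217728
    (rowN 3 0 true true true .pnp 0 1 2 (qsf 0 536870912 536870912 536870912 2) ndN5q0 ndN5q1 pcN2 Cut.none Ext.none)

def k0_pp_012 : ∃ t, chk3 f_pp_012 t 1 1 1 = true :=
  ⟨(l 4), by decide +kernel⟩

theorem c_pp_012 : CertN 0 536870912 536870912 536870912 201326592 134217728 3 true true true .pnp 0 1 2
    ndN5q0 ndN5q1 pcN2 Cut.none Ext.none :=
  certN0 (fam := true) (s1 := true) (s2 := true) (a := 0) (b := 1) (c := 2) (cn := .pnp) (n1 := ndN5q0) (n2 := ndN5q1) (pc := pcN2) (cut := Cut.none) (xt := Ext.none) (P1 := 0) (W1 := 536870912) (P2 := 536870912) (W2 := 536870912) (P3 := 201326592) (W3 := 134217728) (N0 := 3)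
    rfl k0_pp_012

noncomputable def f_pp_022 : ℕ → ℕ → ℕ → ℕ → Bool := onCell 0 536870912 1073741824 536870912 201326592 134217728
    (rowN 3 0 true true true .pp 0 2 2 (qsf 0 536870912 1073741824 536870912 2) ndN5q0 ndN5q2 pcN2 Cut.none Ext.none)

def k0_pp_022 : ∃ t, chk3 f_pp_022 t 1 1 1 = true :=
  ⟨(l 4), by decide +kernel⟩

theorem c_pp_022 : CertN 0 536870912 1073741824 536870912 201326592 134217728 3 true true true .pp 0 2 2
    ndN5q0 ndN5q2 pcN2 Cut.none Ext.none :=
  certN0 (fam := true) (s1 := true) (s2 := true) (a := 0) (b := 2) (c := 2) (cn := .pp) (n1 := ndN5q0) (n2 := ndN5q2) (pc := pcN2) (cut := Cut.none) (xt := Ext.none) (P1 := 0) (W1 := 536870912) (P2 := 1073741824) (W2 := 536870912) (P3 := 201326592) (W3 := 134217728) (N0 := 3)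
    rfl k0_pp_022

noncomputable def f_pp_023 : ℕ → ℕ → ℕ → ℕ → Bool := onCell 0 536870912 1073741824 536870912 201326592 134217728
    (rowN 3 0 true true true .up 0 2 3 (qsf 0 536870912 1073741824 536870912 3) ndN5q0 ndN5q2 pcN3 Cut.none Ext.none)

def k0_pp_023 : ∃ t, chk3 f_pp_023 t 1 1 1 = true :=
  ⟨(l 4), by decide +kernel⟩

theorem c_pp_023 : CertN 0 536870912 1073741824 536870912 201326592 134217728 3 true true true .up 0 2 3
    ndN5q0 ndN5q2 pcN3 Cut.none Ext.none :=
  certN0 (fam := true) (s1 := true) (s2 := true) (a := 0) (b := 2) (c := 3) (cn := .up) (n1 := ndN5q0) (n2 := ndN5q2) (pc := pcN3) (cut := Cut.none) (xt := Ext.none) (P1 := 0) (W1 := 536870912) (P2 := 1073741824) (W2 := 536870912) (P3 := 201326592) (W3 := 134217728) (N0 := 3)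
    rfl k0_pp_023

noncomputable def f_pp_033 : ℕ → ℕ → ℕ → ℕ → Bool := onCell 0 536870912 0 1230186008 201326592 134217728
    (rowN 3 0 true true true .pnn 0 3 3 (qsf 0 536870912 0 1230186008 3) ndN5q0 ndN5q3 pcN3 Cut.none Ext.none)

def k0_pp_033 : ∃ t, chk3 f_pp_033 t 1 1 1 = true :=
  ⟨(l 4), by decide +kernel⟩

theorem c_pp_033 : CertN 0 536870912 0 1230186008 201326592 134217728 3 true true true .pnn 0 3 3
    ndN5q0 ndN5q3 pcN3 Cut.none Ext.none :=
  certN0 (fam := true) (s1 := true) (s2 := true) (a := 0) (b := 3) (c := 3) (cn := .pnn) (n1 := ndN5q0) (n2 := ndN5q3) (pc := pcN3) (cut := Cut.none) (xt := Ext.none) (P1 := 0) (W1 := 536870912) (P2 := 0) (W2 := 1230186008) (P3 := 201326592) (W3 := 134217728) (N0 := 3)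
    rfl k0_pp_033

noncomputable def f_pp_101 : ℕ → ℕ → ℕ → ℕ → Bool := onCell 536870912 536870912 0 536870912 201326592 134217728
    (rowN 3 0 true true true .npn 1 0 1 (qsf 536870912 536870912 0 536870912 1) ndN5q1 ndN5q0 pcN1 Cut.none Ext.none)

def k0_pp_101 : ∃ t, chk3 f_pp_101 t 1 1 1 = true :=
  ⟨(l 4), by decide +kernel⟩

theorem c_pp_101 : CertN 536870912 536870912 0 536870912 201326592 134217728 3 true true true .npn 1 0 1
    ndN5q1 ndN5q0 pcN1 Cut.none Ext.none :=
  certN0 (fam := true) (s1 := true) (s2 := true) (a := 1) (b := 0) (c := 1) (cn := .npn) (n1 := ndN5q1) (n2 := ndN5q0) (pc := pcN1) (cut := Cut.none) (xt := Ext.none) (P1 := 536870912) (W1 := 536870912) (P2 := 0) (W2 := 536870912) (P3 := 201326592) (W3 := 134217728) (N0 := 3)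
    rfl k0_pp_101

noncomputable def f_pp_102 : ℕ → ℕ → ℕ → ℕ → Bool := onCell 536870912 536870912 0 536870912 201326592 134217728
    (rowN 3 0 true true true .npp 1 0 2 (qsf 536870912 536870912 0 536870912 2) ndN5q1 ndN5q0 pcN2 Cut.none Ext.none)

def k0_pp_102 : ∃ t, chk3 f_pp_102 t 1 1 1 = true :=
  ⟨(l 4), by decide +kernel⟩

theorem c_pp_102 : CertN 536870912 536870912 0 536870912 201326592 134217728 3 true true true .npp 1 0 2
    ndN5q1 ndN5q0 pcN2 Cut.none Ext.none :=
  certN0 (fam := true) (s1 := true) (s2 := true) (a := 1) (b := 0) (c := 2) (cn := .npp) (n1 := ndN5q1) (n2 := ndN5q0) (pc := pcN2) (cut := Cut.none) (xt := Ext.none) (P1 := 536870912) (W1 := 536870912) (P2 := 0) (W2 := 536870912) (P3 := 201326592) (W3 := 134217728) (N0 := 3)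
    rfl k0_pp_102

noncomputable def f_pp_112 : ℕ → ℕ → ℕ → ℕ → Bool := onCell 536870912 536870912 536870912 536870912 201326592 134217728
    (rowN 3 0 true true true .dn 1 1 2 (qsf 536870912 536870912 536870912 536870912 2) ndN5q1 ndN5q1 pcN2 Cut.none Ext.none)

def k0_pp_112 : ∃ t, chk3 f_pp_112 t 1 1 1 = true :=
  ⟨(l 4), by decide +kernel⟩

theorem c_pp_112 : CertN 536870912 536870912 536870912 536870912 201326592 134217728 3 true true true .dn 1 1 2
    ndN5q1 ndN5q1 pcN2 Cut.none Ext.none :=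
  certN0 (fam := true) (s1 := true) (s2 := true) (a := 1) (b := 1) (c := 2) (cn := .dn) (n1 := ndN5q1) (n2 := ndN5q1) (pc := pcN2) (cut := Cut.none) (xt := Ext.none) (P1 := 536870912) (W1 := 536870912) (P2 := 536870912) (W2 := 536870912) (P3 := 201326592) (W3 := 134217728) (N0 := 3)
    rfl k0_pp_112

noncomputable def f_pp_113 : ℕ → ℕ → ℕ → ℕ → Bool := onCell 536870912 536870912 536870912 536870912 201326592 134217728
    (rowN 3 0 true true true .nn 1 1 3 (qsf 536870912 536870912 536870912 536870912 3) ndN5q1 ndN5q1 pcN3 Cut.none Ext.none)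

def k0_pp_113 : ∃ t, chk3 f_pp_113 t 1 1 1 = true :=
  ⟨(l 4), by decide +kernel⟩

theorem c_pp_113 : CertN 536870912 536870912 536870912 536870912 201326592 134217728 3 true true true .nn 1 1 3
    ndN5q1 ndN5q1 pcN3 Cut.none Ext.none :=
  certN0 (fam := true) (s1 := true) (s2 := true) (a := 1) (b := 1) (c := 3) (cn := .nn) (n1 := ndN5q1) (n2 := ndN5q1) (pc := pcN3) (cut := Cut.none) (xt := Ext.none) (P1 := 536870912) (W1 := 536870912) (P2 := 536870912) (W2 := 536870912) (P3 := 201326592) (W3 := 134217728) (N0 := 3)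
    rfl k0_pp_113

noncomputable def f_pp_123 : ℕ → ℕ → ℕ → ℕ → Bool := onCell 536870912 536870912 1073741824 536870912 201326592 134217728
    (rowN 3 0 true true true .npn 1 2 3 (qsf 536870912 536870912 1073741824 536870912 3) ndN5q1 ndN5q2 pcN3 Cut.none Ext.none)

def k0_pp_123 : ∃ t, chk3 f_pp_123 t 1 1 1 = true :=
  ⟨(l 4), by decide +kernel⟩

theorem c_pp_123 : CertN 536870912 536870912 1073741824 536870912 201326592 134217728 3 true true true .npn 1 2 3
    ndN5q1 ndN5q2 pcN3 Cut.none Ext.none :=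
  certN0 (fam := true) (s1 := true) (s2 := true) (a := 1) (b := 2) (c := 3) (cn := .npn) (n1 := ndN5q1) (n2 := ndN5q2) (pc := pcN3) (cut := Cut.none) (xt := Ext.none) (P1 := 536870912) (W1 := 536870912) (P2 := 1073741824) (W2 := 536870912) (P3 := 201326592) (W3 := 134217728) (N0 := 3)
    rfl k0_pp_123

noncomputable def f_pp_133 : ℕ → ℕ → ℕ → ℕ → Bool := onCell 536870912 536870912 0 1230186008 201326592 134217728
    (rowN 3 0 true true true .dn 1 3 3 (qsf 536870912 536870912 0 1230186008 3) ndN5q1 ndN5q3 pcN3 Cut.none Ext.none)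

def k0_pp_133 : ∃ t, chk3 f_pp_133 t 1 1 1 = true :=
  ⟨(l 4), by decide +kernel⟩

theorem c_pp_133 : CertN 536870912 536870912 0 1230186008 201326592 134217728 3 true true true .dn 1 3 3
    ndN5q1 ndN5q3 pcN3 Cut.none Ext.none :=
  certN0 (fam := true) (s1 := true) (s2 := true) (a := 1) (b := 3) (c := 3) (cn := .dn) (n1 := ndN5q1) (n2 := ndN5q3) (pc := pcN3) (cut := Cut.none) (xt := Ext.none) (P1 := 536870912) (W1 := 536870912) (P2 := 0) (W2 := 1230186008) (P3 := 201326592) (W3 := 134217728) (N0 := 3)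
    rfl k0_pp_133

noncomputable def f_pp_202 : ℕ → ℕ → ℕ → ℕ → Bool := onCell 1073741824 536870912 0 536870912 201326592 134217728
    (rowN 3 0 true true true .pp 2 0 2 (qsf 1073741824 536870912 0 536870912 2) ndN5q2 ndN5q0 pcN2 Cut.none Ext.none)

def k0_pp_202 : ∃ t, chk3 f_pp_202 t 1 1 1 = true :=
  ⟨(l 4), by decide +kernel⟩

theorem c_pp_202 : CertN 1073741824 536870912 0 536870912 201326592 134217728 3 true true true .pp 2 0 2
    ndN5q2 ndN5q0 pcN2 Cut.none Ext.none :=
  certN0 (fam := true) (s1 := true) (s2 := true) (a := 2) (b := 0) (c := 2) (cn := .pp) (n1 := ndN5q2) (n2 := ndN5q0) (pc := pcN2) (cut := Cut.none) (xt := Ext.none) (P1 := 1073741824) (W1 := 536870912) (P2 := 0) (W2 := 536870912) (P3 := 201326592) (W3 := 134217728) (N0 := 3)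
    rfl k0_pp_202

noncomputable def f_pp_203 : ℕ → ℕ → ℕ → ℕ → Bool := onCell 1073741824 536870912 0 536870912 201326592 134217728
    (rowN 3 0 true true true .up 2 0 3 (qsf 1073741824 536870912 0 536870912 3) ndN5q2 ndN5q0 pcN3 Cut.none Ext.none)

def k0_pp_203 : ∃ t, chk3 f_pp_203 t 1 1 1 = true :=
  ⟨(l 4), by decide +kernel⟩

theorem c_pp_203 : CertN 1073741824 536870912 0 536870912 201326592 134217728 3 true true true .up 2 0 3
    ndN5q2 ndN5q0 pcN3 Cut.none Ext.none :=
  certN0 (fam := true) (s1 := true) (s2 := true) (a := 2) (b := 0) (c := 3) (cn := .up) (n1 := ndN5q2) (n2 := ndN5q0) (pc := pcN3) (cut := Cut.none) (xt := Ext.none) (P1 := 1073741824) (W1 := 536870912) (P2 := 0) (W2 := 536870912) (P3 := 201326592) (W3 := 134217728) (N0 := 3)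
    rfl k0_pp_203

noncomputable def f_pp_213 : ℕ → ℕ → ℕ → ℕ → Bool := onCell 1073741824 536870912 536870912 536870912 201326592 134217728
    (rowN 3 0 true true true .pnn 2 1 3 (qsf 1073741824 536870912 536870912 536870912 3) ndN5q2 ndN5q1 pcN3 Cut.none Ext.none)

def k0_pp_213 : ∃ t, chk3 f_pp_213 t 1 1 1 = true :=
  ⟨(l 4), by decide +kernel⟩

theorem c_pp_213 : CertN 1073741824 536870912 536870912 536870912 201326592 134217728 3 true true true .pnn 2 1 3
    ndN5q2 ndN5q1 pcN3 Cut.none Ext.none :=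
  certN0 (fam := true) (s1 := true) (s2 := true) (a := 2) (b := 1) (c := 3) (cn := .pnn) (n1 := ndN5q2) (n2 := ndN5q1) (pc := pcN3) (cut := Cut.none) (xt := Ext.none) (P1 := 1073741824) (W1 := 536870912) (P2 := 536870912) (W2 := 536870912) (P3 := 201326592) (W3 := 134217728) (N0 := 3)
    rfl k0_pp_213

noncomputable def f_pp_303 : ℕ → ℕ → ℕ → ℕ → Bool := onCell 0 1230186008 0 536870912 201326592 134217728
    (rowN 3 0 true true true .npn 3 0 3 (qsf 0 1230186008 0 536870912 3) ndN5q3 ndN5q0 pcN3 Cut.none Ext.none)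

def k0_pp_303 : ∃ t, chk3 f_pp_303 t 1 1 1 = true :=
  ⟨(l 4), by decide +kernel⟩

theorem c_pp_303 : CertN 0 1230186008 0 536870912 201326592 134217728 3 true true true .npn 3 0 3
    ndN5q3 ndN5q0 pcN3 Cut.none Ext.none :=
  certN0 (fam := true) (s1 := true) (s2 := true) (a := 3) (b := 0) (c := 3) (cn := .npn) (n1 := ndN5q3) (n2 := ndN5q0) (pc := pcN3) (cut := Cut.none) (xt := Ext.none) (P1 := 0) (W1 := 1230186008) (P2 := 0) (W2 := 536870912) (P3 := 201326592) (W3 := 134217728) (N0 := 3)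
    rfl k0_pp_303

noncomputable def f_pp_313 : ℕ → ℕ → ℕ → ℕ → Bool := onCell 0 1230186008 536870912 536870912 201326592 134217728
    (rowN 3 0 true true true .dn 3 1 3 (qsf 0 1230186008 536870912 536870912 3) ndN5q3 ndN5q1 pcN3 Cut.none Ext.none)

def k0_pp_313 : ∃ t, chk3 f_pp_313 t 1 1 1 = true :=
  ⟨(l 4), by decide +kernel⟩

theorem c_pp_313 : CertN 0 1230186008 536870912 536870912 201326592 134217728 3 true true true .dn 3 1 3
    ndN5q3 ndN5q1 pcN3 Cut.none Ext.none :=
  certN0 (fam := true) (s1 := true) (s2 := true) (a := 3) (b := 1) (c := 3) (cn := .dn) (n1 := ndN5q3) (n2 := ndN5q1) (pc := pcN3) (cut := Cut.none) (xt := Ext.none) (P1 := 0) (W1 := 1230186008) (P2 := 536870912) (W2 := 536870912) (P3 := 201326592) (W3 := 134217728) (N0 := 3)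
    rfl k0_pp_313

noncomputable def f_pm_001 : ℕ → ℕ → ℕ → ℕ → Bool := onCell 0 536870912 0 536870912 201326592 134217728
    (rowN 3 0 true true false .up 0 0 1 (qsf 0 536870912 0 536870912 1) ndN5q0 ndN5q0 pcN1 Cut.none Ext.none)

def k0_pm_001 : ∃ t, chk3 f_pm_001 t 1 1 1 = true :=
  ⟨(l 3), by decide +kernel⟩

theorem c_pm_001 : CertN 0 536870912 0 536870912 201326592 134217728 3 true true false .up 0 0 1
    ndN5q0 ndN5q0 pcN1 Cut.none Ext.none :=
  certN0 (fam := true) (s1 := true) (s2 := false) (a := 0) (b := 0) (c := 1) (cn := .up) (n1 := ndN5q0) (n2 := ndN5q0) (pc := pcN1) (cut := Cut.none) (xt := Ext.none) (P1 := 0) (W1 := 536870912) (P2 := 0) (W2 := 536870912) (P3 := 201326592) (W3 := 134217728) (N0 := 3)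
    rfl k0_pm_001

noncomputable def f_pm_011 : ℕ → ℕ → ℕ → ℕ → Bool := onCell 0 536870912 536870912 536870912 201326592 134217728
    (rowN 3 1 true true false .pnn 0 1 1 (qsf 0 536870912 536870912 536870912 1) ndN5q0 ndN5q1 pcN1 Cut.none Ext.none)

def k0_pm_011 : ∃ t, chk3 f_pm_011 t 1 1 1 = true :=
  ⟨(l 3), by decide +kernel⟩

theorem c_pm_011 : CertN 0 536870912 536870912 536870912 201326592 134217728 3 true true false .pnn 0 1 1
    ndN5q0 ndN5q1 pcN1 Cut.none Ext.none :=
  certN1 (fam := true) (s1 := true) (s2 := false) (a := 0) (b := 1) (c := 1) (cn := .pnn) (n1 := ndN5q0) (n2 := ndN5q1) (pc := pcN1) (cut := Cut.none) (xt := Ext.none) (P1 := 0) (W1 := 536870912) (P2 := 536870912) (W2 := 536870912) (P3 := 201326592) (W3 := 134217728) (N0 := 3)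
    rfl (fun _ => rfl) k0_pm_011

noncomputable def f_pm_012 : ℕ → ℕ → ℕ → ℕ → Bool := onCell 0 536870912 1073741824 536870912 201326592 134217728
    (rowN 3 1 true true false .pnp 0 1 2 (qsf 0 536870912 536870912 536870912 2) ndN5q0 ndN5q1 pcN2 Cut.none Ext.none)

def k0_pm_012 : ∃ t, chk3 f_pm_012 t 1 1 1 = true :=
  ⟨(a (b (b (b (l 3) (a (l 18884424) (l 18694128))) (b (b (b (l 18934816) (b (l 18966464) (a (l 2) (l 18843664)))) (l 19101256)) (a (l 2) (l 19189880)))) (a (l 2) (b (l 19304616) (l 2)))) (b (b (l 3) (b (b (b (l 18710160) (a (b (l 18645440) (l 18675680)) (l 234247698775))) (l 18727128)) (a (l 19009352) (l 18892264)))) (a (b (l 19165344) (b (l 18971312) (l 2))) (a (l 18832832) (l 18757376))))), by decide +kernel⟩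

theorem c_pm_012 : CertN 0 536870912 536870912 536870912 201326592 134217728 3 true true false .pnp 0 1 2
    ndN5q0 ndN5q1 pcN2 Cut.none Ext.none :=
  certN1 (fam := true) (s1 := true) (s2 := false) (a := 0) (b := 1) (c := 2) (cn := .pnp) (n1 := ndN5q0) (n2 := ndN5q1) (pc := pcN2) (cut := Cut.none) (xt := Ext.none) (P1 := 0) (W1 := 536870912) (P2 := 536870912) (W2 := 536870912) (P3 := 201326592) (W3 := 134217728) (N0 := 3)
    rfl (fun _ => rfl) k0_pm_012

noncomputable def f_pm_022 : ℕ → ℕ → ℕ → ℕ → Bool := onCell 0 536870912 1073741824 536870912 201326592 134217728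
    (rowN 3 1 true true false .pp 0 2 2 (qsf 0 536870912 1073741824 536870912 2) ndN5q0 ndN5q2 pcN2 Cut.none Ext.none)

def k0_pm_022 : ∃ t, chk3 f_pm_022 t 1 1 1 = true :=
  ⟨(a (b (b (b (l 3) (b (l 3) (a (l 18651512) (l 557310967831)))) (b (b (b (a (l 18596776) (l 19174960)) (a (b (l 18569072) (b (l 18554520) (l 18541168))) (b (l 19164512) (b (l 19144096) (l 19131960))))) (a (l 18498000) (l 19075640))) (a (l 18385408) (l 18943160)))) (b (a (b (l 18223992) (l 18052464)) (l 18650584)) (b (a (l 17888720) (l 18330632)) (a (l 17699808) (l 18138248))))) (b (b (l 1) (b (l 1) (a (l 19445104) (l 1)))) (b (a (l 19123392) (l 19226672)) (b (l 39229671911) (a (l 18465936) (l 18529528)))))), by decide +kernel⟩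

theorem c_pm_022 : CertN 0 536870912 1073741824 536870912 201326592 134217728 3 true true false .pp 0 2 2
    ndN5q0 ndN5q2 pcN2 Cut.none Ext.none :=
  certN1 (fam := true) (s1 := true) (s2 := false) (a := 0) (b := 2) (c := 2) (cn := .pp) (n1 := ndN5q0) (n2 := ndN5q2) (pc := pcN2) (cut := Cut.none) (xt := Ext.none) (P1 := 0) (W1 := 536870912) (P2 := 1073741824) (W2 := 536870912) (P3 := 201326592) (W3 := 134217728) (N0 := 3)
    rfl (fun _ => rfl) k0_pm_022

noncomputable def f_pm_023 : ℕ → ℕ → ℕ → ℕ → Bool := onCell 1610612736 536870912 1073741824 536870912 201326592 134217728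
    (rowN 3 2 true true false .up 0 2 3 (qsf 0 536870912 1073741824 536870912 3) ndN5q0 ndN5q2 pcN3 Cut.none Ext.none)

def k0_pm_023 : ∃ t, chk3 f_pm_023 t 1 1 1 = true :=
  ⟨(a (b (b (a (l 18184992) (l 17853784)) (a (l 18102032) (l 17731392))) (b (a (l 17866288) (l 17525264)) (a (l 17376736) (l 17319240)))) (b (a (b (l 2) (a (l 17450656) (l 2))) (l 2)) (a (b (l 17219080) (l 17030264)) (a (b (l 16932512) (l 16837424)) (b (l 2) (a (l 16855104) (l 4))))))), by decide +kernel⟩

theorem c_pm_023 : CertN 0 536870912 1073741824 536870912 201326592 134217728 3 true true false .up 0 2 3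
    ndN5q0 ndN5q2 pcN3 Cut.none Ext.none :=
  certN2 (fam := true) (s1 := true) (s2 := false) (a := 0) (b := 2) (c := 3) (cn := .up) (n1 := ndN5q0) (n2 := ndN5q2) (pc := pcN3) (cut := Cut.none) (xt := Ext.none) (P1 := 0) (W1 := 536870912) (P2 := 1073741824) (W2 := 536870912) (P3 := 201326592) (W3 := 134217728) (N0 := 3)
    rfl (fun _ => rfl) k0_pm_023

noncomputable def f_pm_033 : ℕ → ℕ → ℕ → ℕ → Bool := onCell 1610612736 536870912 0 1230186008 201326592 134217728
    (rowN 3 2 true true false .pnn 0 3 3 (qsf 0 536870912 0 1230186008 3) ndN5q0 ndN5q3 pcN3 Cut.none Ext.none)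

def k0_pm_033 : ∃ t, chk3 f_pm_033 t 1 1 1 = true :=
  ⟨(a (b (l 1) (b (a (l 1) (b (l 1) (l 233036349479))) (a (b (l 1) (l 17010720)) (b (a (l 16848808) (l 16801376)) (a (l 17043592) (l 17008376)))))) (b (l 4) (b (l 4) (a (b (l 16883408) (a (l 16909744) (l 16798720))) (a (b (l 4) (l 16878016)) (l 4)))))), by decide +kernel⟩

theorem c_pm_033 : CertN 0 536870912 0 1230186008 201326592 134217728 3 true true false .pnn 0 3 3
    ndN5q0 ndN5q3 pcN3 Cut.none Ext.none :=
  certN2 (fam := true) (s1 := true) (s2 := false) (a := 0) (b := 3) (c := 3) (cn := .pnn) (n1 := ndN5q0) (n2 := ndN5q3) (pc := pcN3) (cut := Cut.none) (xt := Ext.none) (P1 := 0) (W1 := 536870912) (P2 := 0) (W2 := 1230186008) (P3 := 201326592) (W3 := 134217728) (N0 := 3)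
    rfl (fun _ => rfl) k0_pm_033

noncomputable def f_pm_101 : ℕ → ℕ → ℕ → ℕ → Bool := onCell 536870912 536870912 536870912 536870912 201326592 134217728
    (rowN 3 1 true true false .npn 1 0 1 (qsf 536870912 536870912 0 536870912 1) ndN5q1 ndN5q0 pcN1 Cut.none Ext.none)

def k0_pm_101 : ∃ t, chk3 f_pm_101 t 1 1 1 = true :=
  ⟨(l 3), by decide +kernel⟩

theorem c_pm_101 : CertN 536870912 536870912 0 536870912 201326592 134217728 3 true true false .npn 1 0 1
    ndN5q1 ndN5q0 pcN1 Cut.none Ext.none :=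
  certN1 (fam := true) (s1 := true) (s2 := false) (a := 1) (b := 0) (c := 1) (cn := .npn) (n1 := ndN5q1) (n2 := ndN5q0) (pc := pcN1) (cut := Cut.none) (xt := Ext.none) (P1 := 536870912) (W1 := 536870912) (P2 := 0) (W2 := 536870912) (P3 := 201326592) (W3 := 134217728) (N0 := 3)
    rfl (fun _ => rfl) k0_pm_101

noncomputable def f_pm_102 : ℕ → ℕ → ℕ → ℕ → Bool := onCell 1073741824 536870912 0 536870912 201326592 134217728
    (rowN 3 2 true true false .npp 1 0 2 (qsf 536870912 536870912 0 536870912 2) ndN5q1 ndN5q0 pcN2 Cut.none Ext.none)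

def k0_pm_102 : ∃ t, chk3 f_pm_102 t 1 1 1 = true :=
  ⟨(a (a (b (a (l 3) (b (l 18884424) (l 18694128))) (l 3)) (b (a (a (a (l 18934816) (a (l 18966464) (b (l 2) (l 18843664)))) (l 19101256)) (b (l 2) (l 19189880))) (a (a (a (l 18710160) (b (a (l 18645440) (l 18675680)) (l 234247698775))) (l 18727128)) (b (l 19009352) (l 18892264))))) (a (b (b (l 2) (l 19304616)) (b (l 19165344) (l 18897392))) (b (l 2) (b (a (l 18971312) (l 2)) (l 18699904))))), by decide +kernel⟩

theorem c_pm_102 : CertN 536870912 536870912 0 536870912 201326592 134217728 3 true true false .npp 1 0 2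
    ndN5q1 ndN5q0 pcN2 Cut.none Ext.none :=
  certN2 (fam := true) (s1 := true) (s2 := false) (a := 1) (b := 0) (c := 2) (cn := .npp) (n1 := ndN5q1) (n2 := ndN5q0) (pc := pcN2) (cut := Cut.none) (xt := Ext.none) (P1 := 536870912) (W1 := 536870912) (P2 := 0) (W2 := 536870912) (P3 := 201326592) (W3 := 134217728) (N0 := 3)
    rfl (fun _ => rfl) k0_pm_102

noncomputable def f_pm_112 : ℕ → ℕ → ℕ → ℕ → Bool := onCell 536870912 536870912 1073741824 536870912 201326592 134217728
    (rowN 3 1 true true false .dn 1 1 2 (qsf 536870912 536870912 536870912 536870912 2) ndN5q1 ndN5q1 pcN2 Cut.none Ext.none)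

def k0_pm_112 : ∃ t, chk3 f_pm_112 t 1 1 1 = true :=
  ⟨(b (b (a (l 3) (l 1)) (a (b (b (b (l 3) (b (l 3) (l 18550816))) (l 18626416)) (l 18836864)) (b (l 1) (l 18962984)))) (a (b (l 18845984) (l 18533112)) (b (l 18902800) (l 18551744)))), by decide +kernel⟩

theorem c_pm_112 : CertN 536870912 536870912 536870912 536870912 201326592 134217728 3 true true false .dn 1 1 2
    ndN5q1 ndN5q1 pcN2 Cut.none Ext.none :=
  certN1 (fam := true) (s1 := true) (s2 := false) (a := 1) (b := 1) (c := 2) (cn := .dn) (n1 := ndN5q1) (n2 := ndN5q1) (pc := pcN2) (cut := Cut.none) (xt := Ext.none) (P1 := 536870912) (W1 := 536870912) (P2 := 536870912) (W2 := 536870912) (P3 := 201326592) (W3 := 134217728) (N0 := 3)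
    rfl (fun _ => rfl) k0_pm_112

noncomputable def f_pm_113 : ℕ → ℕ → ℕ → ℕ → Bool := onCell 536870912 536870912 1610612736 536870912 201326592 134217728
    (rowN 3 1 true true false .nn 1 1 3 (qsf 536870912 536870912 536870912 536870912 3) ndN5q1 ndN5q1 pcN3 Cut.none Ext.none)

def k0_pm_113 : ∃ t, chk3 f_pm_113 t 1 1 1 = true :=
  ⟨(a (b (b (l 18208848) (l 17885448)) (b (a (l 2) (l 17496776)) (l 2))) (b (l 17992728) (b (l 17397632) (b (l 17112104) (b (l 16974864) (b (l 16910600) (l 16855424))))))), by decide +kernel⟩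

theorem c_pm_113 : CertN 536870912 536870912 536870912 536870912 201326592 134217728 3 true true false .nn 1 1 3
    ndN5q1 ndN5q1 pcN3 Cut.none Ext.none :=
  certN1 (fam := true) (s1 := true) (s2 := false) (a := 1) (b := 1) (c := 3) (cn := .nn) (n1 := ndN5q1) (n2 := ndN5q1) (pc := pcN3) (cut := Cut.none) (xt := Ext.none) (P1 := 536870912) (W1 := 536870912) (P2 := 536870912) (W2 := 536870912) (P3 := 201326592) (W3 := 134217728) (N0 := 3)
    rfl (fun _ => rfl) k0_pm_113

noncomputable def f_pm_123 : ℕ → ℕ → ℕ → ℕ → Bool := onCell 536870912 536870912 1610612736 536870912 201326592 134217728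
    (rowN 3 1 true true false .npn 1 2 3 (qsf 536870912 536870912 1073741824 536870912 3) ndN5q1 ndN5q2 pcN3 Cut.none Ext.none)

def k0_pm_123 : ∃ t, chk3 f_pm_123 t 1 1 1 = true :=
  ⟨(b (a (a (b (l 18247512) (l 17774040)) (l 549255651943)) (a (l 18251136) (l 1))) (b (a (a (l 17313904) (l 17372696)) (a (l 17423976) (l 17497672))) (b (a (a (l 16915520) (l 17019232)) (a (l 17076888) (l 17116648))) (a (b (l 16823880) (a (l 4) (l 16842728))) (b (l 16930496) (b (l 16858160) (a (l 16820304) (l 16814984)))))))), by decide +kernel⟩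

theorem c_pm_123 : CertN 536870912 536870912 1073741824 536870912 201326592 134217728 3 true true false .npn 1 2 3
    ndN5q1 ndN5q2 pcN3 Cut.none Ext.none :=
  certN1 (fam := true) (s1 := true) (s2 := false) (a := 1) (b := 2) (c := 3) (cn := .npn) (n1 := ndN5q1) (n2 := ndN5q2) (pc := pcN3) (cut := Cut.none) (xt := Ext.none) (P1 := 536870912) (W1 := 536870912) (P2 := 1073741824) (W2 := 536870912) (P3 := 201326592) (W3 := 134217728) (N0 := 3)
    rfl (fun _ => rfl) k0_pm_123

noncomputable def f_pm_133 : ℕ → ℕ → ℕ → ℕ → Bool := onCell 536870912 536870912 0 1230186008 201326592 134217728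
    (rowN 3 0 true true false .dn 1 3 3 (qsf 536870912 536870912 0 1230186008 3) ndN5q1 ndN5q3 pcN3 Cut.none Ext.none)

def k0_pm_133 : ∃ t, chk3 f_pm_133 t 1 1 1 = true :=
  ⟨(b (l 2) (b (l 2) (l 4))), by decide +kernel⟩

theorem c_pm_133 : CertN 536870912 536870912 0 1230186008 201326592 134217728 3 true true false .dn 1 3 3
    ndN5q1 ndN5q3 pcN3 Cut.none Ext.none :=
  certN0 (fam := true) (s1 := true) (s2 := false) (a := 1) (b := 3) (c := 3) (cn := .dn) (n1 := ndN5q1) (n2 := ndN5q3) (pc := pcN3) (cut := Cut.none) (xt := Ext.none) (P1 := 536870912) (W1 := 536870912) (P2 := 0) (W2 := 1230186008) (P3 := 201326592) (W3 := 134217728) (N0 := 3)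
    rfl k0_pm_133

noncomputable def f_pm_202 : ℕ → ℕ → ℕ → ℕ → Bool := onCell 1073741824 536870912 0 536870912 201326592 134217728
    (rowN 3 2 true true false .pp 2 0 2 (qsf 1073741824 536870912 0 536870912 2) ndN5q2 ndN5q0 pcN2 Cut.none Ext.none)

def k0_pm_202 : ∃ t, chk3 f_pm_202 t 1 1 1 = true :=
  ⟨(a (a (a (l 3) (a (l 3) (b (b (l 18651512) (l 557310967831)) (l 1)))) (b (a (a (a (b (l 18596776) (l 19174960)) (b (a (l 18569072) (a (l 18554520) (l 18541168))) (a (l 19164512) (a (l 19144096) (l 19131960))))) (b (l 18498000) (l 19075640))) (b (l 18385408) (l 18943160))) (a (l 1) (b (l 19445104) (l 1))))) (a (b (b (a (l 18223992) (l 18052464)) (l 18650584)) (b (l 19123392) (l 19226672))) (b (a (b (l 17888720) (l 18330632)) (b (l 17699808) (l 18138248))) (a (l 42450813495) (l 28491763879))))), by decide +kernel⟩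

theorem c_pm_202 : CertN 1073741824 536870912 0 536870912 201326592 134217728 3 true true false .pp 2 0 2
    ndN5q2 ndN5q0 pcN2 Cut.none Ext.none :=
  certN2 (fam := true) (s1 := true) (s2 := false) (a := 2) (b := 0) (c := 2) (cn := .pp) (n1 := ndN5q2) (n2 := ndN5q0) (pc := pcN2) (cut := Cut.none) (xt := Ext.none) (P1 := 1073741824) (W1 := 536870912) (P2 := 0) (W2 := 536870912) (P3 := 201326592) (W3 := 134217728) (N0 := 3)
    rfl (fun _ => rfl) k0_pm_202

noncomputable def f_pm_203 : ℕ → ℕ → ℕ → ℕ → Bool := onCell 1073741824 536870912 1610612736 536870912 201326592 134217728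
    (rowN 3 1 true true false .up 2 0 3 (qsf 1073741824 536870912 0 536870912 3) ndN5q2 ndN5q0 pcN3 Cut.none Ext.none)

def k0_pm_203 : ∃ t, chk3 f_pm_203 t 1 1 1 = true :=
  ⟨(a (b (a (b (l 18184992) (l 17853784)) (b (l 18102032) (l 17731392))) (a (l 2) (b (b (l 17450656) (l 2)) (l 2)))) (b (a (b (l 17866288) (l 17525264)) (b (l 17376736) (l 17319240))) (b (a (l 17219080) (l 17030264)) (b (a (l 16932512) (l 16837424)) (a (l 2) (b (l 16855104) (l 4))))))), by decide +kernel⟩

theorem c_pm_203 : CertN 1073741824 536870912 0 536870912 201326592 134217728 3 true true false .up 2 0 3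
    ndN5q2 ndN5q0 pcN3 Cut.none Ext.none :=
  certN1 (fam := true) (s1 := true) (s2 := false) (a := 2) (b := 0) (c := 3) (cn := .up) (n1 := ndN5q2) (n2 := ndN5q0) (pc := pcN3) (cut := Cut.none) (xt := Ext.none) (P1 := 1073741824) (W1 := 536870912) (P2 := 0) (W2 := 536870912) (P3 := 201326592) (W3 := 134217728) (N0 := 3)
    rfl (fun _ => rfl) k0_pm_203

noncomputable def f_pm_213 : ℕ → ℕ → ℕ → ℕ → Bool := onCell 1073741824 536870912 1610612736 536870912 201326592 134217728
    (rowN 3 1 true true false .pnn 2 1 3 (qsf 1073741824 536870912 536870912 536870912 3) ndN5q2 ndN5q1 pcN3 Cut.none Ext.none)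

def k0_pm_213 : ∃ t, chk3 f_pm_213 t 1 1 1 = true :=
  ⟨(b (a (a (l 18147432) (b (l 18090856) (l 17732616))) (a (b (l 1) (l 17521912)) (l 1))) (b (a (a (l 17387480) (l 17338296)) (a (l 17223080) (l 17032656))) (a (b (a (l 17088104) (l 17034696)) (b (l 16924392) (b (l 16855056) (a (l 16814192) (l 16821944))))) (b (l 16913936) (b (l 16809768) (a (l 16852296) (l 4))))))), by decide +kernel⟩

theorem c_pm_213 : CertN 1073741824 536870912 536870912 536870912 201326592 134217728 3 true true false .pnn 2 1 3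
    ndN5q2 ndN5q1 pcN3 Cut.none Ext.none :=
  certN1 (fam := true) (s1 := true) (s2 := false) (a := 2) (b := 1) (c := 3) (cn := .pnn) (n1 := ndN5q2) (n2 := ndN5q1) (pc := pcN3) (cut := Cut.none) (xt := Ext.none) (P1 := 1073741824) (W1 := 536870912) (P2 := 536870912) (W2 := 536870912) (P3 := 201326592) (W3 := 134217728) (N0 := 3)
    rfl (fun _ => rfl) k0_pm_213

noncomputable def f_pm_303 : ℕ → ℕ → ℕ → ℕ → Bool := onCell 0 1230186008 1610612736 536870912 201326592 134217728
    (rowN 3 1 true true false .npn 3 0 3 (qsf 0 1230186008 0 536870912 3) ndN5q3 ndN5q0 pcN3 Cut.none Ext.none)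

def k0_pm_303 : ∃ t, chk3 f_pm_303 t 1 1 1 = true :=
  ⟨(b (a (l 1) (a (b (l 1) (a (l 1) (l 233036349479))) (b (a (l 1) (l 17010720)) (a (b (l 16848808) (l 16801360)) (b (l 17043544) (l 17008376)))))) (a (l 4) (a (l 4) (b (a (l 16883408) (b (l 16909744) (l 16798720))) (b (a (l 4) (l 16878016)) (l 4)))))), by decide +kernel⟩

theorem c_pm_303 : CertN 0 1230186008 0 536870912 201326592 134217728 3 true true false .npn 3 0 3
    ndN5q3 ndN5q0 pcN3 Cut.none Ext.none :=
  certN1 (fam := true) (s1 := true) (s2 := false) (a := 3) (b := 0) (c := 3) (cn := .npn) (n1 := ndN5q3) (n2 := ndN5q0) (pc := pcN3) (cut := Cut.none) (xt := Ext.none) (P1 := 0) (W1 := 1230186008) (P2 := 0) (W2 := 536870912) (P3 := 201326592) (W3 := 134217728) (N0 := 3)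
    rfl (fun _ => rfl) k0_pm_303

noncomputable def f_pm_313 : ℕ → ℕ → ℕ → ℕ → Bool := onCell 0 1230186008 536870912 536870912 201326592 134217728
    (rowN 3 0 true true false .dn 3 1 3 (qsf 0 1230186008 536870912 536870912 3) ndN5q3 ndN5q1 pcN3 Cut.none Ext.none)

def k0_pm_313 : ∃ t, chk3 f_pm_313 t 1 1 1 = true :=
  ⟨(a (l 2) (a (l 2) (l 4))), by decide +kernel⟩

theorem c_pm_313 : CertN 0 1230186008 536870912 536870912 201326592 134217728 3 true true false .dn 3 1 3
    ndN5q3 ndN5q1 pcN3 Cut.none Ext.none :=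
  certN0 (fam := true) (s1 := true) (s2 := false) (a := 3) (b := 1) (c := 3) (cn := .dn) (n1 := ndN5q3) (n2 := ndN5q1) (pc := pcN3) (cut := Cut.none) (xt := Ext.none) (P1 := 0) (W1 := 1230186008) (P2 := 536870912) (W2 := 536870912) (P3 := 201326592) (W3 := 134217728) (N0 := 3)
    rfl k0_pm_313

noncomputable def f_mm_001 : ℕ → ℕ → ℕ → ℕ → Bool := onCell 0 536870912 0 536870912 201326592 134217728
    (rowN 3 0 true false false .up 0 0 1 (qsf 0 536870912 0 536870912 1) ndN5q0 ndN5q0 pcN1 Cut.none Ext.none)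

def k0_mm_001 : ∃ t, chk3 f_mm_001 t 1 1 1 = true :=
  ⟨(l 4), by decide +kernel⟩

theorem c_mm_001 : CertN 0 536870912 0 536870912 201326592 134217728 3 true false false .up 0 0 1
    ndN5q0 ndN5q0 pcN1 Cut.none Ext.none :=
  certN0 (fam := true) (s1 := false) (s2 := false) (a := 0) (b := 0) (c := 1) (cn := .up) (n1 := ndN5q0) (n2 := ndN5q0) (pc := pcN1) (cut := Cut.none) (xt := Ext.none) (P1 := 0) (W1 := 536870912) (P2 := 0) (W2 := 536870912) (P3 := 201326592) (W3 := 134217728) (N0 := 3)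
    rfl k0_mm_001

noncomputable def f_mm_011 : ℕ → ℕ → ℕ → ℕ → Bool := onCell 0 536870912 536870912 536870912 201326592 134217728
    (rowN 3 0 true false false .pnn 0 1 1 (qsf 0 536870912 536870912 536870912 1) ndN5q0 ndN5q1 pcN1 Cut.none Ext.none)

def k0_mm_011 : ∃ t, chk3 f_mm_011 t 1 1 1 = true :=
  ⟨(l 4), by decide +kernel⟩

theorem c_mm_011 : CertN 0 536870912 536870912 536870912 201326592 134217728 3 true false false .pnn 0 1 1
    ndN5q0 ndN5q1 pcN1 Cut.none Ext.none :=
  certN0 (fam := true) (s1 := false) (s2 := false) (a := 0) (b := 1) (c := 1) (cn := .pnn) (n1 := ndN5q0) (n2 := ndN5q1) (pc := pcN1) (cut := Cut.none) (xt := Ext.none) (P1 := 0) (W1 := 536870912) (P2 := 536870912) (W2 := 536870912) (P3 := 201326592) (W3 := 134217728) (N0 := 3)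
    rfl k0_mm_011

noncomputable def f_mm_012 : ℕ → ℕ → ℕ → ℕ → Bool := onCell 0 536870912 536870912 536870912 201326592 134217728
    (rowN 3 0 true false false .pnp 0 1 2 (qsf 0 536870912 536870912 536870912 2) ndN5q0 ndN5q1 pcN2 Cut.none Ext.none)

def k0_mm_012 : ∃ t, chk3 f_mm_012 t 1 1 1 = true :=
  ⟨(l 4), by decide +kernel⟩

theorem c_mm_012 : CertN 0 536870912 536870912 536870912 201326592 134217728 3 true false false .pnp 0 1 2
    ndN5q0 ndN5q1 pcN2 Cut.none Ext.none :=
  certN0 (fam := true) (s1 := false) (s2 := false) (a := 0) (b := 1) (c := 2) (cn := .pnp) (n1 := ndN5q0) (n2 := ndN5q1) (pc := pcN2) (cut := Cut.none) (xt := Ext.none) (P1 := 0) (W1 := 536870912) (P2 := 536870912) (W2 := 536870912) (P3 := 201326592) (W3 := 134217728) (N0 := 3)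
    rfl k0_mm_012

noncomputable def f_mm_022 : ℕ → ℕ → ℕ → ℕ → Bool := onCell 0 536870912 1073741824 536870912 201326592 134217728
    (rowN 3 0 true false false .pp 0 2 2 (qsf 0 536870912 1073741824 536870912 2) ndN5q0 ndN5q2 pcN2 Cut.none Ext.none)

def k0_mm_022 : ∃ t, chk3 f_mm_022 t 1 1 1 = true :=
  ⟨(l 4), by decide +kernel⟩

theorem c_mm_022 : CertN 0 536870912 1073741824 536870912 201326592 134217728 3 true false false .pp 0 2 2
    ndN5q0 ndN5q2 pcN2 Cut.none Ext.none :=
  certN0 (fam := true) (s1 := false) (s2 := false) (a := 0) (b := 2) (c := 2) (cn := .pp) (n1 := ndN5q0) (n2 := ndN5q2) (pc := pcN2) (cut := Cut.none) (xt := Ext.none) (P1 := 0) (W1 := 536870912) (P2 := 1073741824) (W2 := 536870912) (P3 := 201326592) (W3 := 134217728) (N0 := 3)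
    rfl k0_mm_022

noncomputable def f_mm_023 : ℕ → ℕ → ℕ → ℕ → Bool := onCell 0 536870912 1073741824 536870912 201326592 134217728
    (rowN 3 0 true false false .up 0 2 3 (qsf 0 536870912 1073741824 536870912 3) ndN5q0 ndN5q2 pcN3 Cut.none Ext.none)

def k0_mm_023 : ∃ t, chk3 f_mm_023 t 1 1 1 = true :=
  ⟨(l 4), by decide +kernel⟩

theorem c_mm_023 : CertN 0 536870912 1073741824 536870912 201326592 134217728 3 true false false .up 0 2 3
    ndN5q0 ndN5q2 pcN3 Cut.none Ext.none :=
  certN0 (fam := true) (s1 := false) (s2 := false) (a := 0) (b := 2) (c := 3) (cn := .up) (n1 := ndN5q0) (n2 := ndN5q2) (pc := pcN3) (cut := Cut.none) (xt := Ext.none) (P1 := 0) (W1 := 536870912) (P2 := 1073741824) (W2 := 536870912) (P3 := 201326592) (W3 := 134217728) (N0 := 3)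
    rfl k0_mm_023

noncomputable def f_mm_033 : ℕ → ℕ → ℕ → ℕ → Bool := onCell 0 536870912 0 1230186008 201326592 134217728
    (rowN 3 0 true false false .pnn 0 3 3 (qsf 0 536870912 0 1230186008 3) ndN5q0 ndN5q3 pcN3 Cut.none Ext.none)

def k0_mm_033 : ∃ t, chk3 f_mm_033 t 1 1 1 = true :=
  ⟨(l 4), by decide +kernel⟩

theorem c_mm_033 : CertN 0 536870912 0 1230186008 201326592 134217728 3 true false false .pnn 0 3 3
    ndN5q0 ndN5q3 pcN3 Cut.none Ext.none :=
  certN0 (fam := true) (s1 := false) (s2 := false) (a := 0) (b := 3) (c := 3) (cn := .pnn) (n1 := ndN5q0) (n2 := ndN5q3) (pc := pcN3) (cut := Cut.none) (xt := Ext.none) (P1 := 0) (W1 := 536870912) (P2 := 0) (W2 := 1230186008) (P3 := 201326592) (W3 := 134217728) (N0 := 3)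
    rfl k0_mm_033

noncomputable def f_mm_101 : ℕ → ℕ → ℕ → ℕ → Bool := onCell 536870912 536870912 0 536870912 201326592 134217728
    (rowN 3 0 true false false .npn 1 0 1 (qsf 536870912 536870912 0 536870912 1) ndN5q1 ndN5q0 pcN1 Cut.none Ext.none)

def k0_mm_101 : ∃ t, chk3 f_mm_101 t 1 1 1 = true :=
  ⟨(l 4), by decide +kernel⟩

theorem c_mm_101 : CertN 536870912 536870912 0 536870912 201326592 134217728 3 true false false .npn 1 0 1
    ndN5q1 ndN5q0 pcN1 Cut.none Ext.none :=
  certN0 (fam := true) (s1 := false) (s2 := false) (a := 1) (b := 0) (c := 1) (cn := .npn) (n1 := ndN5q1) (n2 := ndN5q0) (pc := pcN1) (cut := Cut.none) (xt := Ext.none) (P1 := 536870912) (W1 := 536870912) (P2 := 0) (W2 := 536870912) (P3 := 201326592) (W3 := 134217728) (N0 := 3)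
    rfl k0_mm_101

noncomputable def f_mm_102 : ℕ → ℕ → ℕ → ℕ → Bool := onCell 536870912 536870912 0 536870912 201326592 134217728
    (rowN 3 0 true false false .npp 1 0 2 (qsf 536870912 536870912 0 536870912 2) ndN5q1 ndN5q0 pcN2 Cut.none Ext.none)

def k0_mm_102 : ∃ t, chk3 f_mm_102 t 1 1 1 = true :=
  ⟨(l 4), by decide +kernel⟩

theorem c_mm_102 : CertN 536870912 536870912 0 536870912 201326592 134217728 3 true false false .npp 1 0 2
    ndN5q1 ndN5q0 pcN2 Cut.none Ext.none :=
  certN0 (fam := true) (s1 := false) (s2 := false) (a := 1) (b := 0) (c := 2) (cn := .npp) (n1 := ndN5q1) (n2 := ndN5q0) (pc := pcN2) (cut := Cut.none) (xt := Ext.none) (P1 := 536870912) (W1 := 536870912) (P2 := 0) (W2 := 536870912) (P3 := 201326592) (W3 := 134217728) (N0 := 3)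
    rfl k0_mm_102

noncomputable def f_mm_112 : ℕ → ℕ → ℕ → ℕ → Bool := onCell 536870912 536870912 536870912 536870912 201326592 134217728
    (rowN 3 0 true false false .dn 1 1 2 (qsf 536870912 536870912 536870912 536870912 2) ndN5q1 ndN5q1 pcN2 Cut.none Ext.none)

def k0_mm_112 : ∃ t, chk3 f_mm_112 t 1 1 1 = true :=
  ⟨(l 4), by decide +kernel⟩

theorem c_mm_112 : CertN 536870912 536870912 536870912 536870912 201326592 134217728 3 true false false .dn 1 1 2
    ndN5q1 ndN5q1 pcN2 Cut.none Ext.none :=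
  certN0 (fam := true) (s1 := false) (s2 := false) (a := 1) (b := 1) (c := 2) (cn := .dn) (n1 := ndN5q1) (n2 := ndN5q1) (pc := pcN2) (cut := Cut.none) (xt := Ext.none) (P1 := 536870912) (W1 := 536870912) (P2 := 536870912) (W2 := 536870912) (P3 := 201326592) (W3 := 134217728) (N0 := 3)
    rfl k0_mm_112

noncomputable def f_mm_113 : ℕ → ℕ → ℕ → ℕ → Bool := onCell 536870912 536870912 536870912 536870912 201326592 134217728
    (rowN 3 0 true false false .nn 1 1 3 (qsf 536870912 536870912 536870912 536870912 3) ndN5q1 ndN5q1 pcN3 Cut.none Ext.none)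

def k0_mm_113 : ∃ t, chk3 f_mm_113 t 1 1 1 = true :=
  ⟨(l 4), by decide +kernel⟩

theorem c_mm_113 : CertN 536870912 536870912 536870912 536870912 201326592 134217728 3 true false false .nn 1 1 3
    ndN5q1 ndN5q1 pcN3 Cut.none Ext.none :=
  certN0 (fam := true) (s1 := false) (s2 := false) (a := 1) (b := 1) (c := 3) (cn := .nn) (n1 := ndN5q1) (n2 := ndN5q1) (pc := pcN3) (cut := Cut.none) (xt := Ext.none) (P1 := 536870912) (W1 := 536870912) (P2 := 536870912) (W2 := 536870912) (P3 := 201326592) (W3 := 134217728) (N0 := 3)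
    rfl k0_mm_113

noncomputable def f_mm_123 : ℕ → ℕ → ℕ → ℕ → Bool := onCell 536870912 536870912 1073741824 536870912 201326592 134217728
    (rowN 3 0 true false false .npn 1 2 3 (qsf 536870912 536870912 1073741824 536870912 3) ndN5q1 ndN5q2 pcN3 Cut.none Ext.none)

def k0_mm_123 : ∃ t, chk3 f_mm_123 t 1 1 1 = true :=
  ⟨(l 4), by decide +kernel⟩

theorem c_mm_123 : CertN 536870912 536870912 1073741824 536870912 201326592 134217728 3 true false false .npn 1 2 3
    ndN5q1 ndN5q2 pcN3 Cut.none Ext.none :=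
  certN0 (fam := true) (s1 := false) (s2 := false) (a := 1) (b := 2) (c := 3) (cn := .npn) (n1 := ndN5q1) (n2 := ndN5q2) (pc := pcN3) (cut := Cut.none) (xt := Ext.none) (P1 := 536870912) (W1 := 536870912) (P2 := 1073741824) (W2 := 536870912) (P3 := 201326592) (W3 := 134217728) (N0 := 3)
    rfl k0_mm_123

noncomputable def f_mm_133 : ℕ → ℕ → ℕ → ℕ → Bool := onCell 536870912 536870912 0 1230186008 201326592 134217728
    (rowN 3 0 true false false .dn 1 3 3 (qsf 536870912 536870912 0 1230186008 3) ndN5q1 ndN5q3 pcN3 Cut.none Ext.none)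

def k0_mm_133 : ∃ t, chk3 f_mm_133 t 1 1 1 = true :=
  ⟨(l 4), by decide +kernel⟩

theorem c_mm_133 : CertN 536870912 536870912 0 1230186008 201326592 134217728 3 true false false .dn 1 3 3
    ndN5q1 ndN5q3 pcN3 Cut.none Ext.none :=
  certN0 (fam := true) (s1 := false) (s2 := false) (a := 1) (b := 3) (c := 3) (cn := .dn) (n1 := ndN5q1) (n2 := ndN5q3) (pc := pcN3) (cut := Cut.none) (xt := Ext.none) (P1 := 536870912) (W1 := 536870912) (P2 := 0) (W2 := 1230186008) (P3 := 201326592) (W3 := 134217728) (N0 := 3)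
    rfl k0_mm_133

noncomputable def f_mm_202 : ℕ → ℕ → ℕ → ℕ → Bool := onCell 1073741824 536870912 0 536870912 201326592 134217728
    (rowN 3 0 true false false .pp 2 0 2 (qsf 1073741824 536870912 0 536870912 2) ndN5q2 ndN5q0 pcN2 Cut.none Ext.none)

def k0_mm_202 : ∃ t, chk3 f_mm_202 t 1 1 1 = true :=
  ⟨(l 4), by decide +kernel⟩

theorem c_mm_202 : CertN 1073741824 536870912 0 536870912 201326592 134217728 3 true false false .pp 2 0 2
    ndN5q2 ndN5q0 pcN2 Cut.none Ext.none :=
  certN0 (fam := true) (s1 := false) (s2 := false) (a := 2) (b := 0) (c := 2) (cn := .pp) (n1 := ndN5q2) (n2 := ndN5q0) (pc := pcN2) (cut := Cut.none) (xt := Ext.none) (P1 := 1073741824) (W1 := 536870912) (P2 := 0) (W2 := 536870912) (P3 := 201326592) (W3 := 134217728) (N0 := 3)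
    rfl k0_mm_202

noncomputable def f_mm_203 : ℕ → ℕ → ℕ → ℕ → Bool := onCell 1073741824 536870912 0 536870912 201326592 134217728
    (rowN 3 0 true false false .up 2 0 3 (qsf 1073741824 536870912 0 536870912 3) ndN5q2 ndN5q0 pcN3 Cut.none Ext.none)

def k0_mm_203 : ∃ t, chk3 f_mm_203 t 1 1 1 = true :=
  ⟨(l 4), by decide +kernel⟩

theorem c_mm_203 : CertN 1073741824 536870912 0 536870912 201326592 134217728 3 true false false .up 2 0 3
    ndN5q2 ndN5q0 pcN3 Cut.none Ext.none :=
  certN0 (fam := true) (s1 := false) (s2 := false) (a := 2) (b := 0) (c := 3) (cn := .up) (n1 := ndN5q2) (n2 := ndN5q0) (pc := pcN3) (cut := Cut.none) (xt := Ext.none) (P1 := 1073741824) (W1 := 536870912) (P2 := 0) (W2 := 536870912) (P3 := 201326592) (W3 := 134217728) (N0 := 3)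
    rfl k0_mm_203

noncomputable def f_mm_213 : ℕ → ℕ → ℕ → ℕ → Bool := onCell 1073741824 536870912 536870912 536870912 201326592 134217728
    (rowN 3 0 true false false .pnn 2 1 3 (qsf 1073741824 536870912 536870912 536870912 3) ndN5q2 ndN5q1 pcN3 Cut.none Ext.none)

def k0_mm_213 : ∃ t, chk3 f_mm_213 t 1 1 1 = true :=
  ⟨(l 4), by decide +kernel⟩

theorem c_mm_213 : CertN 1073741824 536870912 536870912 536870912 201326592 134217728 3 true false false .pnn 2 1 3
    ndN5q2 ndN5q1 pcN3 Cut.none Ext.none :=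
  certN0 (fam := true) (s1 := false) (s2 := false) (a := 2) (b := 1) (c := 3) (cn := .pnn) (n1 := ndN5q2) (n2 := ndN5q1) (pc := pcN3) (cut := Cut.none) (xt := Ext.none) (P1 := 1073741824) (W1 := 536870912) (P2 := 536870912) (W2 := 536870912) (P3 := 201326592) (W3 := 134217728) (N0 := 3)
    rfl k0_mm_213

noncomputable def f_mm_303 : ℕ → ℕ → ℕ → ℕ → Bool := onCell 0 1230186008 0 536870912 201326592 134217728
    (rowN 3 0 true false false .npn 3 0 3 (qsf 0 1230186008 0 536870912 3) ndN5q3 ndN5q0 pcN3 Cut.none Ext.none)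

def k0_mm_303 : ∃ t, chk3 f_mm_303 t 1 1 1 = true :=
  ⟨(l 4), by decide +kernel⟩

theorem c_mm_303 : CertN 0 1230186008 0 536870912 201326592 134217728 3 true false false .npn 3 0 3
    ndN5q3 ndN5q0 pcN3 Cut.none Ext.none :=
  certN0 (fam := true) (s1 := false) (s2 := false) (a := 3) (b := 0) (c := 3) (cn := .npn) (n1 := ndN5q3) (n2 := ndN5q0) (pc := pcN3) (cut := Cut.none) (xt := Ext.none) (P1 := 0) (W1 := 1230186008) (P2 := 0) (W2 := 536870912) (P3 := 201326592) (W3 := 134217728) (N0 := 3)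
    rfl k0_mm_303

noncomputable def f_mm_313 : ℕ → ℕ → ℕ → ℕ → Bool := onCell 0 1230186008 536870912 536870912 201326592 134217728
    (rowN 3 0 true false false .dn 3 1 3 (qsf 0 1230186008 536870912 536870912 3) ndN5q3 ndN5q1 pcN3 Cut.none Ext.none)

def k0_mm_313 : ∃ t, chk3 f_mm_313 t 1 1 1 = true :=
  ⟨(l 4), by decide +kernel⟩

theorem c_mm_313 : CertN 0 1230186008 536870912 536870912 201326592 134217728 3 true false false .dn 3 1 3
    ndN5q3 ndN5q1 pcN3 Cut.none Ext.none :=
  certN0 (fam := true) (s1 := false) (s2 := false) (a := 3) (b := 1) (c := 3) (cn := .dn) (n1 := ndN5q3) (n2 := ndN5q1) (pc := pcN3) (cut := Cut.none) (xt := Ext.none) (P1 := 0) (W1 := 1230186008) (P2 := 536870912) (W2 := 536870912) (P3 := 201326592) (W3 := 134217728) (N0 := 3)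
    rfl k0_mm_313

end Pool.Agent.Strip051.G.I3_16_5_16.Tab.C.NA55

namespace Pool.Agent.Strip051.G.I3_16_5_16.Tab.C.NB00

open Pool.Agent.Strip051.PB Pool.Agent.Strip051.PB.T
open Pool.Agent.Strip051.G.I3_16_5_16.Tab

noncomputable def f_pp_001 : ℕ → ℕ → ℕ → ℕ → Bool := onCell 0 536870912 0 536870912 201326592 134217728
    (rowN 3 1 false true true .up 0 0 1 (qsf 0 536870912 536870912 536870912 0) ndN0q0 ndN0q1 pcN0 Cut.none Ext.none)

def k0_pp_001 : ∃ t, chk3 f_pp_001 t 1 1 1 = true :=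
  ⟨(l 3), by decide +kernel⟩

theorem c_pp_001 : CertN 0 536870912 536870912 536870912 201326592 134217728 3 false true true .up 0 0 1
    ndN0q0 ndN0q1 pcN0 Cut.none Ext.none :=
  certN1 (fam := false) (s1 := true) (s2 := true) (a := 0) (b := 0) (c := 1) (cn := .up) (n1 := ndN0q0) (n2 := ndN0q1) (pc := pcN0) (cut := Cut.none) (xt := Ext.none) (P1 := 0) (W1 := 536870912) (P2 := 536870912) (W2 := 536870912) (P3 := 201326592) (W3 := 134217728) (N0 := 3)
    rfl (fun _ => rfl) k0_pp_001

noncomputable def cut_pp_011 : Cut := Cut.of [[⟨0, 0, 0, 67108864⟩, ⟨1, 1, 0, 67108864⟩, ⟨2, 1, 0, 67108864⟩]]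

noncomputable def f_pp_011 : ℕ → ℕ → ℕ → ℕ → Bool := onCell 536870912 536870912 536870912 536870912 201326592 134217728
    (rowN 3 2 false true true .pnn 0 1 1 (qsf 0 536870912 536870912 536870912 1) ndN0q0 ndN0q1 pcN1 cut_pp_011 Ext.none)

def k0_pp_011 : ∃ t, chk3 f_pp_011 t 1 1 1 = true :=
  ⟨(a (l 3) (b (l 3) (a (l 3) (b (l 3) (a (l 3) (b (l 3) (b (l 3) (a (l 3) (l 6))))))))), by decide +kernel⟩

theorem c_pp_011 : CertN 0 536870912 536870912 536870912 201326592 134217728 3 false true true .pnn 0 1 1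
    ndN0q0 ndN0q1 pcN1 cut_pp_011 Ext.none :=
  certN2 (fam := false) (s1 := true) (s2 := true) (a := 0) (b := 1) (c := 1) (cn := .pnn) (n1 := ndN0q0) (n2 := ndN0q1) (pc := pcN1) (cut := cut_pp_011) (xt := Ext.none) (P1 := 0) (W1 := 536870912) (P2 := 536870912) (W2 := 536870912) (P3 := 201326592) (W3 := 134217728) (N0 := 3)
    rfl (fun _ => rfl) k0_pp_011

noncomputable def cut_pp_012 : Cut := Cut.of [[⟨0, 0, 0, 67108864⟩, ⟨1, 1, 0, 67108864⟩, ⟨2, 1, 0, 67108864⟩]]

noncomputable def f_pp_012 : ℕ → ℕ → ℕ → ℕ → Bool := onCell 536870912 536870912 0 536870912 201326592 134217728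
    (rowN 3 2 false true true .pnp 0 1 2 (qsf 0 536870912 0 536870912 1) ndN0q0 ndN0q2 pcN1 cut_pp_012 Ext.none)

def k0_pp_012 : ∃ t, chk3 f_pp_012 t 4 2 1 = true :=
  ⟨(b (l 2) (l 3)), by decide +kernel⟩

def k1_pp_012 : ∃ t, chk3 f_pp_012 t 10 2 1 = true :=
  ⟨(b (b (b (a (c (l 69357228039) (l 71504704359)) (c (l 16889912) (l 16865944))) (a (a (l 2) (c (l 116601869895) (l 113380601943))) (a (a (l 16842976) (l 16848040)) (l 16858320)))) (a (c (b (a (l 2) (b (a (l 2) (l 90362214871)) (l 104857735223))) (l 3)) (a (l 2) (b (a (l 2) (b (l 92509675223) (l 107005171127))) (l 3)))) (b (c (a (b (a (l 16829000) (l 16829952)) (a (l 96804650279) (l 89288476951))) (b (l 16842520) (a (l 16829768) (l 16832072)))) (a (b (b (l 16821072) (l 16859456)) (a (l 98952102135) (l 91435933383))) (b (l 16840768) (b (l 16823376) (l 16860528))))) (c (a (b (a (l 3) (l 103247107143)) (l 3)) (b (a (l 96267799143) (l 87677862647)) (a (l 3) (l 103247105447)))) (a (b (a (l 3) (l 104320815543)) (l 3)) (b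 (a (l 97878380599) (l 89825320375)) (a (l 3) (l 103783943367)))))))) (l 3)), by decide +kernel⟩

def k2_pp_012 : ∃ t, chk3 f_pp_012 t 11 4 1 = true :=
  ⟨(b (a (c (l 16892552) (l 16879384)) (c (b (l 16970328) (l 16935976)) (l 16899448))) (c (b (a (a (l 16854464) (l 16872448)) (l 16902136)) (a (a (b (l 16852808) (a (b (l 90899073431) (l 102710230695)) (l 86604119575))) (b (l 16853832) (l 16854600))) (a (l 16862656) (l 16879608)))) (b (a (a (l 16850848) (l 16857576)) (l 16870312)) (a (a (b (a (l 16840488) (l 16826808)) (a (b (l 91972785671) (l 100562715031)) (b (l 16818392) (l 90362172455)))) (b (l 16853680) (a (l 16820904) (l 16830224)))) (a (l 16855136) (l 16859552)))))), by decide +kernel⟩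

def k3_pp_012 : ∃ t, chk3 f_pp_012 t 11 5 1 = true :=
  ⟨(b (a (b (c (a (b (a (l 3) (l 102710232503)) (l 3)) (b (a (b (l 88751588039) (l 96804648615)) (b (l 16831144) (l 81235394775))) (a (l 3) (b (l 95730905703) (l 3))))) (a (b (a (l 3) (l 102710210551)) (l 3)) (b (a (b (l 82845979559) (l 98415230039)) (b (l 16819336) (l 80698496535))) (a (l 3) (b (l 97341487511) (l 3)))))) (l 3)) (b (c (a (b (l 16856952) (a (b (l 16830832) (l 94657167991)) (b (l 16831840) (l 16830584)))) (b (l 16860544) (l 16859624))) (a (b (a (l 16822744) (l 16834656)) (a (b (l 79087883479) (a (l 100025842215) (l 93046518951))) (b (l 16820552) (a (l 16816760) (l 16817696))))) (b (l 16853120) (a (l 16824944) (l 16840192))))) (a (c (b (a (l 109689557527) (c (l 101636494055) (l 101099606855))) (l 3)) (b (a (b (l 109152650775) (l 3)) (b (a (l 100025841367) (l 91435905671)) (l 109152644423))) (l 3))) (b (c (a (b (l 16830360) (a (l 100562741703) (l 89288446023))) (b (l 16832592) (l 16830176))) (a (b (l 16817176)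 (c (l 93583396135) (a (l 98952091607) (l 89288414743)))) (b (l 16822072) (l 16817320)))) (a (a (l 3) (b (c (l 108615807127) (l 108078905255)) (l 3))) (b (a (b (c (l 90362184919) (l 90899028119)) (c (l 100025870423) (l 99488969207))) (c (b (l 16829936) (l 89288442471)) (c (l 87677814615) (l 87140930343)))) (a (l 3) (b (c (l 100025859175) (a (l 107005161927) (l 98415226439))) (l 3))))))))) (l 3)), by decide +kernel⟩

def k4_pp_012 : ∃ t, chk3 f_pp_012 t 2 3 1 = true :=
  ⟨(l 3), by decide +kernel⟩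

def k5_pp_012 : ∃ t, chk3 f_pp_012 t 6 4 1 = true :=
  ⟨(a (a (b (c (l 16986808) (l 16909736)) (c (b (l 16937584) (l 16904400)) (b (l 16880976) (l 16864296)))) (b (c (l 17004272) (l 16896984)) (c (l 16899208) (l 16862080)))) (c (b (a (l 16999176) (l 16959544)) (a (l 16942368) (l 16912344))) (b (a (l 16894288) (l 16892016)) (a (l 16854856) (l 16849520))))), by decide +kernel⟩

def k6_pp_012 : ∃ t, chk3 f_pp_012 t 12 10 1 = true :=
  ⟨(a (b (a (a (l 16817520) (l 16862056)) (l 16863816)) (b (a (a (c (l 16836336) (l 16827904)) (l 16829248)) (l 16850840)) (c (a (c (a (b (l 16833352) (a (l 92509683047) (l 16833208))) (l 16854280)) (a (b (l 16826800) (a (l 93046538599) (l 79087893271))) (b (l 16830808) (l 16825736)))) (l 16848072)) (a (a (b (l 16822784) (c (a (b (l 81235361223) (l 97878362599)) (l 78551008359)) (a (b (l 81235347687) (l 98415219415)) (b (l 16813088) (l 80161605655))))) (b (l 16823968) (a (l 16816504) (l 16817896)))) (l 16825688))))) (a (b (l 16863488) (a (l 16843808)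 (l 16841952))) (b (l 16860384) (l 16818088)))), by decide +kernel⟩

def k7_pp_012 : ∃ t, chk3 f_pp_012 t 24 11 1 = true :=
  ⟨(b (a (b (a (b (a (l 3) (b (c (c (l 95194037671) (l 96267763975)) (c (a (l 100562717031) (l 93583394215)) (a (l 101099573815) (l 93583380423)))) (l 3))) (l 3)) (b (a (b (c (c (l 16832152) (l 16824912)) (c (l 16818032) (l 16811512))) (c (c (l 95194034327) (l 97341502887)) (c (l 99488972215) (l 100562700487)))) (c (c (l 16830088) (l 16823320)) (b (l 16814496) (l 16810688)))) (a (a (l 3) (c (l 109152650647) (l 109689513223))) (b (c (c (l 94120288087) (l 96267757191)) (c (l 97878356135) (l 99488955831))) (c (l 109152667831) (l 112373864903)))))) (l 3)) (b (a (b (c (l 16825688) (l 16836112)) (a (c (c (l 90362187063) (l 91972786087)) (c (l 93583385831) (l 86604051703))) (c (l 16823008) (l 16811264)))) (c (l 16826280) (b (l 16826232) (l 16813840)))) (a (b (a (b (c (l 105931438135) (l 112373861703)) (l 3)) (b (c (l 92509654663) (l 95730859863)) (c (l 105931433975)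 (l 111836987607)))) (l 3)) (c (b (c (l 84456608535) (l 86067210247)) (a (l 107542043719) (b (l 90362164407) (l 106468296711)))) (b (a (b (l 16809312) (l 93583377239)) (l 16808992)) (a (l 107005147079) (b (l 85530313367) (l 104857659543)))))))) (l 3)), by decide +kernel⟩

def k8_pp_012 : ∃ t, chk3 f_pp_012 t 25 11 1 = true :=
  ⟨(b (a (c (b (l 16840016) (a (b (l 16821000) (a (l 86604068679) (l 16816536))) (l 16827880))) (b (l 16826424) (a (b (l 16813504) (c (l 83919717511) (l 81235357191))) (l 16819800)))) (c (l 16814432) (l 16818296))) (a (c (b (a (b (a (l 107542035591) (l 91972773991)) (l 113447617815)) (b (a (l 16813728) (l 16813992)) (a (l 107542027703) (l 88751544871)))) (a (l 3) (b (l 110763255207) (l 3)))) (b (a (b (a (l 106468269911) (l 94657127431)) (l 117742561095)) (b (a (l 16803880) (l 16805984)) (a (l 101636425639) (l 89288408375)))) (a (l 3) (b (l 117742554791) (l 3))))) (c (b (a (b (l 16822088) (l 16811104)) (l 16823392)) (a (b (a (l 95193989159) (l 85530315975))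 (l 110763247335)) (b (l 16809608) (a (l 92509627399) (l 16815680))))) (b (a (b (l 16814136) (l 16813944)) (l 16811384)) (a (b (a (l 98952065255) (l 85530309847)) (l 117742548599)) (b (l 16803952) (a (l 95193963383) (l 16797136)))))))), by decide +kernel⟩

def k9_pp_012 : ∃ t, chk3 f_pp_012 t 13 5 1 = true :=
  ⟨(b (a (c (b (l 16896784) (l 16845672)) (b (l 16829424) (l 16816240))) (c (b (l 16873936) (l 16848424)) (b (l 16821160) (l 16805752)))) (a (b (c (a (l 16838568) (l 16838904)) (a (l 16810896) (l 16803864))) (c (a (b (l 16821272) (a (b (l 16817232) (l 16810464)) (l 16813264))) (l 16816160)) (a (b (l 16806584) (a (l 16805160) (l 16802520))) (l 16798024)))) (c (b (l 16825328) (a (l 16811320) (l 16796584))) (b (l 16794536) (a (l 16790608) (l 16783816)))))), by decide +kernel⟩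

def k10_pp_012 : ∃ t, chk3 f_pp_012 t 7 2 1 = true :=
  ⟨(a (b (c (a (b (l 16919936) (l 16868512)) (b (l 16918760) (l 16865392))) (b (a (l 16888416) (l 16882912)) (a (l 16843992) (l 16837432)))) (b (a (c (b (l 16831768) (l 16810504)) (b (l 16813656) (l 16796720))) (c (b (l 16826696) (l 16803920)) (b (l 16805896) (l 16787992)))) (a (c (b (l 16794384) (a (l 16785992) (l 16780304))) (b (l 16783840) (a (l 16777608) (l 16771856)))) (c (b (l 16786336) (a (l 16775408) (l 16771048))) (b (l 16774136) (a (l 16766424) (l 16761080))))))) (b (a (c (b (l 16915904) (b (l 16874360) (l 16847744))) (b (a (l 16877144) (l 16872544)) (a (l 16831176) (l 16826264)))) (c (b (a (l 16912128) (l 16908992)) (a (l 16856728) (l 16853152))) (b (a (l 16867296) (l 16861440)) (a (l 16820696) (b (l 16825632) (l 16803104)))))) (c (a (b (b (l 16821208) (l 16797360)) (b (a (l 16780592) (l 16776424)) (a (l 16766704) (l 16761992)))) (b (a (l 16803816) (b (l 16811792) (l 16786912))) (a (b (l 16771912) (l 16757024))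 (b (l 16767120) (l 16751928))))) (a (b (a (l 16790040) (l 16784584)) (b (a (l 16766256) (l 16760344)) (a (l 16755424) (l 16749176)))) (b (a (l 16778496) (b (l 16781304) (l 16762056))) (a (b (l 16753832) (l 16742376)) (b (l 16746800) (l 16735168)))))))), by decide +kernel⟩

def k11_pp_012 : ∃ t, chk3 f_pp_012 t 12 6 1 = true :=
  ⟨(b (a (l 3) (b (a (l 3) (b (c (a (l 3) (b (l 110763244935) (l 3))) (a (l 3) (b (l 111300112599) (l 3)))) (l 3))) (l 3))) (l 3)), by decide +kernel⟩

def k12_pp_012 : ∃ t, chk3 f_pp_012 t 13 6 1 = true :=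
  ⟨(b (a (b (a (c (b (a (b (a (l 89825266119) (l 16802848)) (a (l 114521331927) (l 108078874583))) (b (l 16810248) (a (l 88214666407) (l 16801856)))) (a (l 3) (b (a (l 111300099031) (l 101636437895)) (l 3)))) (b (c (a (b (l 83382827351) (l 110226348007)) (l 50096817015)) (a (b (l 81235339367) (l 117205662023)) (l 47949330983))) (a (l 3) (b (a (l 112910695431) (l 101636401719)) (l 3))))) (b (c (a (l 16806968) (l 16803104)) (l 16795512)) (a (b (c (c (l 16811280) (l 16808784)) (l 16794768)) (a (c (l 110763221015) (l 117742528023)) (c (l 87140916711) (l 83919685463)))) (c (b (l 16801808) (l 16791264)) (l 16792584))))) (a (l 3) (b (a (a (l 3) (c (l 117742547735) (l 123111242919))) (b (a (c (l 114521321143) (l 104857620839)) (c (l 76940362839) (l 16798000))) (a (l 3) (c (l 112910697703) (l 120963748695))))) (l 3)))) (b (c (a (b (l 16798744) (l 16795440)) (l 16787368)) (a (l 16797920) (l 16779672))) (a (b (a (b (c (l 16786088) (l 16788760)) (c (a (l 93046488983) (l 16803464)) (a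 (l 83919680039) (l 16787288)))) (c (l 16792848) (l 16785208))) (a (a (l 3) (b (c (l 116668787351) (l 111836958775)) (l 3))) (b (c (a (l 76403489591) (l 16791224)) (l 43117483687)) (c (a (l 123111239159) (l 88214643655)) (a (l 125795604343) (l 83919666279)))))) (a (b (l 16800384) (c (b (l 16788624) (l 34527546983)) (l 23253252119))) (c (l 16794704) (l 16798520)))))) (a (l 3) (b (a (l 3) (b (a (b (a (c (l 116668802471) (l 117205643367)) (c (l 68887287607) (l 62981697863))) (l 3)) (c (b (l 16795520) (a (l 100025797767) (l 51707410119))) (a (b (l 16780120) (l 108615724551)) (l 16789200)))) (a (l 3) (b (a (l 3) (c (l 131701183111) (l 130627413671))) (l 3))))) (l 3)))), by decide +kernel⟩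

def k13_pp_012 : ∃ t, chk3 f_pp_012 t 6 7 1 = true :=
  ⟨(l 3), by decide +kernel⟩

def k14_pp_012 : ∃ t, chk3 f_pp_012 t 14 12 1 = true :=
  ⟨(c (a (b (a (l 16779616) (l 16772896)) (a (b (l 16777552) (l 16788112)) (b (l 16770040) (l 16769600)))) (b (a (l 16767152) (l 16762064)) (a (l 16773728) (l 16778352)))) (a (b (a (l 16772568) (l 16766080)) (a (b (l 16771296) (l 16792784)) (l 16785352))) (b (a (l 16760080) (l 16754256)) (a (l 16778704) (l 16751408))))), by decide +kernel⟩

def k15_pp_012 : ∃ t, chk3 f_pp_012 t 14 13 1 = true :=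
  ⟨(a (b (a (b (c (a (l 16791480) (l 16776440)) (l 16789032)) (b (a (a (c (l 78550955383) (l 61907949575)) (b (l 16788664) (l 37748762711))) (l 16789568)) (a (a (l 3) (c (l 111836953015) (l 114521303239))) (a (c (l 49559918647) (l 47949304919)) (l 16785792))))) (c (b (l 16780600) (l 16787344)) (b (l 16786424) (l 16788448)))) (a (b (a (l 3) (b (a (b (l 137606758567) (l 3)) (b (c (l 16789296) (l 16788944)) (l 119890017623))) (l 3))) (l 3)) (b (c (a (b (l 18958269927) (a (l 120426883703) (b (l 16786024) (l 65666043527)))) (c (l 16783368) (l 16791848))) (a (b (l 19495147415) (a (b (l 83382790119) (l 3)) (a (l 66739792007) (l 16789336)))) (b (l 16788496) (l 16788488)))) (a (a (l 3) (b (c (l 138680479287) (l 134922385911)) (l 3))) (b (a (b (c (l 54928624423) (a (l 80161561495) (l 16790736))) (c (l 129016799287) (l 120963759223))) (b (l 16788832) (c (l 44191205559) (l 46875566071)))) (a (l 3) (b (c (l 105931370327) (l 100025792663)) (l 3)))))))) (b (c (a (b (l 16762752) (l 16774224))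 (b (l 16756256) (l 16767304))) (a (a (l 16774128) (l 16767992)) (b (l 16751608) (l 16773984)))) (a (b (c (c (l 16777016) (l 16775328)) (a (l 16785472) (l 16781744))) (a (b (c (l 16790752) (l 16792400)) (a (b (c (l 16788664) (l 16788128)) (a (c (l 124184961447) (l 123648092583)) (c (l 59223592551) (l 62444822407)))) (c (l 16785944) (l 16788072)))) (c (l 16782304) (l 16786216)))) (c (b (c (l 16769576) (l 16768056)) (c (l 16770648) (l 16770096))) (b (l 16768448) (a (l 16781440) (l 16777744))))))), by decide +kernel⟩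

def k16_pp_012 : ∃ t, chk3 f_pp_012 t 15 6 1 = true :=
  ⟨(a (b (b (c (a (l 16757072) (l 16751808)) (a (l 16748192) (l 16741592))) (a (c (l 16772672) (l 16744912)) (c (b (l 16746784) (l 16744816)) (b (l 16738336) (l 16737488))))) (c (b (a (b (l 16750064) (l 16760760)) (a (l 16745416) (l 16752816))) (a (a (b (l 16753152) (l 16776392)) (b (l 16749712) (l 16762376))) (b (a (l 16746376) (l 16743640)) (a (l 16748912) (l 16746448))))) (b (a (b (l 16744784) (l 16745968)) (b (l 16737560) (l 16759640))) (a (b (l 16763800) (c (l 16762320) (l 16763680))) (b (a (l 16742504) (l 16739208)) (a (l 16745936) (l 16742904))))))) (b (a (c (b (l 16746384) (a (l 16741456) (l 16738768))) (b (l 16734512) (a (l 16732472) (l 16728912)))) (b (c (a (l 16742344) (l 16740144)) (a (l 16729000) (l 16725656))) (c (a (l 16736552) (b (l 16735464) (l 16733768))) (a (l 16725672) (l 16722624))))) (a (b (c (b (l 16743528) (a (l 16739744) (l 16737632))) (a (l 16732944) (l 16729832))) (c (a (b (l 16741368) (l 16743960))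 (b (l 16739024) (l 16741368))) (a (b (l 16736192) (l 16739712)) (b (l 16732992) (l 16736312))))) (b (c (a (b (l 16735112) (l 16735400)) (b (l 16732960) (l 16733040))) (a (b (l 16725944) (l 16727344)) (b (l 16722688) (l 16723920)))) (a (c (b (l 16736568) (c (l 16740016) (l 16737280))) (b (l 16729592) (l 16732712))) (c (b (c (l 16735816) (l 16732096)) (a (l 16736576) (l 16735128))) (b (l 16725992) (a (l 16729888) (l 16727944))))))))), by decide +kernel⟩

def k17_pp_012 : ∃ t, chk3 f_pp_012 t 28 14 1 = true :=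
  ⟨(l 3), by decide +kernel⟩

def k18_pp_012 : ∃ t, chk3 f_pp_012 t 58 28 1 = true :=
  ⟨(b (a (b (a (l 3) (b (c (a (l 88751501447) (l 16785672)) (a (l 98415179751) (l 46338693591))) (c (l 126332464135) (a (l 3) (l 127406190119))))) (l 3)) (a (a (b (b (c (l 16788760) (l 16779960)) (c (l 60834207319) (c (l 61907947447) (l 66202914951)))) (l 3)) (b (c (l 16788400) (l 16790016)) (b (c (l 90362115767) (b (l 80161554215) (l 127406190359))) (l 3)))) (b (c (l 16784536) (l 16786216)) (b (c (c (l 16785120) (l 26474465415)) (c (l 26474467239) (a (l 50096785607) (l 16780648)))) (c (a (l 114521298647) (b (l 16787048) (l 91435850295))) (a (l 126332449191) (b (l 43654336423) (l 102710127367)))))))) (l 3)), by decide +kernel⟩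

def k19_pp_012 : ∃ t, chk3 f_pp_012 t 59 28 1 = true :=
  ⟨(b (b (c (c (l 16779616) (l 16778608)) (a (l 16788656) (l 16780736))) (a (a (c (c (l 16787544) (l 16788424)) (b (l 16787240) (c (l 16791000) (l 16786040)))) (c (l 16782712) (l 16783992))) (c (l 16779792) (l 16775816)))) (a (b (a (b (c (a (b (l 69961010887) (l 119353126759)) (c (l 41506849799) (l 43117464071))) (b (a (a (l 116131900423) (l 80161560295)) (l 16782136)) (a (l 126869320183) (c (l 71571618087) (l 76403456471))))) (a (l 3) (a (l 3) (c (l 117205643063) (l 125258707239))))) (b (c (l 16789144) (l 16790096)) (c (a (b (l 45801819735) (l 95193945111)) (l 16786592)) (a (b (c (l 16782912) (l 56002361191)) (a (l 122037481527) (l 98952039543))) (c (l 16781936) (l 16782040)))))) (b (a (l 3) (a (l 3) (c (b (a (l 109689449559) (l 60834201047)) (l 118816256743)) (b (a (l 116131900935) (c (l 79087804311) (l 82845897431))) (l 125795578823))))) (l 3))) (b (c (c (l 16782896) (l 16783544)) (c (l 16784008) (a (l 16786976)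 (l 16792056)))) (a (a (a (b (c (c (l 49023042983) (l 51707398343)) (b (l 16782768) (b (l 95193940935) (l 118816255511)))) (l 3)) (b (c (l 16787320) (c (l 16782528) (l 16782544))) (b (c (l 109152579015) (l 115595035431)) (l 3)))) (b (c (l 16785576) (l 16786176)) (c (b (c (l 16785232) (l 38822494759)) (c (l 93583322327) (l 96804548279))) (b (c (l 50633652167) (c (l 53318006759) (l 55465489991))) (a (l 125795578231) (b (c (l 16785768) (l 97878293815)) (l 118279384711))))))) (b (c (l 16786856) (l 16787536)) (a (c (c (l 16786648) (l 16787056)) (c (l 17884529895) (b (l 16781208) (l 50633645943)))) (c (l 16789440) (l 16789960)))))))), by decide +kernel⟩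

def k20_pp_012 : ∃ t, chk3 f_pp_012 t 29 29 1 = true :=
  ⟨(a (l 3) (b (a (l 3) (b (a (l 3) (c (b (b (a (a (l 110763191927) (c (l 16782824) (l 65129165351))) (l 16781624)) (a (l 115058160519) (c (l 51170526327) (c (l 53318008871) (l 56539233783))))) (a (l 3) (c (l 107005096343) (l 115058162999)))) (b (c (a (b (a (l 116668772135) (l 71034742519)) (l 120426869735)) (a (b (l 16782528) (l 97878294439)) (l 16782096))) (a (b (a (l 120426868151) (b (l 16783048) (l 100025777431))) (l 124184965671)) (a (b (l 16782480) (b (l 91435842519) (l 123111222071))) (l 16782064)))) (a (l 3) (a (l 3) (b (c (l 116668771239) (l 119889996359)) (l 3))))))) (l 3))) (l 3))), by decide +kernel⟩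

def k21_pp_012 : ∃ t, chk3 f_pp_012 t 14 15 1 = true :=
  ⟨(l 3), by decide +kernel⟩

def k22_pp_012 : ∃ t, chk3 f_pp_012 t 30 28 1 = true :=
  ⟨(a (a (b (c (l 16766664) (l 16767664)) (b (c (l 16775280) (l 16778120)) (a (c (l 16783000) (l 16783688)) (c (l 16776880) (l 16777648))))) (b (c (l 16764128) (l 16764256)) (c (c (l 16767720) (l 16767056)) (c (l 16770368) (l 16769792))))) (c (b (a (c (l 16753464) (l 16752408)) (c (l 16750896) (l 16749632))) (a (c (l 16763600) (l 16765448)) (c (l 16760744) (l 16759784)))) (b (a (l 16761192) (l 16758000)) (a (c (l 16764656) (l 16763832)) (c (l 16763992) (l 16762880)))))), by decide +kernel⟩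

def k23_pp_012 : ∃ t, chk3 f_pp_012 t 60 58 1 = true :=
  ⟨(a (b (b (c (a (l 16783520) (l 16782728)) (a (c (l 16789200) (l 16784024)) (l 16783336))) (a (c (a (b (c (l 16784608) (l 38822493879)) (a (l 115058158759) (c (l 67813520567) (l 74255971639)))) (c (l 16785528) (l 16785888))) (a (a (b (c (l 64055423655) (l 69424129943)) (l 123111222391)) (b (l 16781928) (c (l 79624679095) (b (l 86604003623) (l 121500608439))))) (c (l 16786072) (c (l 16780848) (l 16780800))))) (c (c (l 16786368) (l 16786768)) (l 16784464)))) (a (b (a (l 3) (c (b (a (b (l 84993393831) (l 114521287095)) (c (l 16781896) (l 16782152))) (l 113984416903)) (c (b (a (l 114521286663) (l 58686714055)) (l 120426867959)) (b (a (l 118279387991) (l 62981680855)) (l 123648093063))))) (l 3)) (b (b (c (l 16784176) (c (l 16784528) (l 16784568))) (c (a (a (a (l 88214619527) (l 54391749895)) (l 16781344)) (l 16784576)) (a (a (c (l 72645358679) (b (l 80161551943) (l 119353123927))) (l 42580583911)) (l 16779688)))) (c (a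 (a (l 3) (c (l 100562642743) (l 104857610343))) (b (c (l 16783488) (l 25400719111)) (a (l 112373802407) (c (l 56539231127) (l 59760456551))))) (a (a (l 3) (b (c (l 102173254791) (l 105394479975)) (l 3))) (a (b (c (l 53854874855) (l 58149841687)) (l 120426868695)) (b (l 16780688) (c (l 68350390151) (c (l 71571615223) (l 73182227815)))))))))) (a (b (c (l 16778576) (l 16779224)) (a (c (c (l 16782384) (l 16782720)) (b (l 16786368) (c (l 16784744) (l 16784768)))) (c (l 16782192) (b (l 16783400) (l 16781904))))) (b (c (l 16775056) (l 16774136)) (c (l 16778968) (l 16780816))))), by decide +kernel⟩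

def k24_pp_012 : ∃ t, chk3 f_pp_012 t 60 59 1 = true :=
  ⟨(a (l 3) (b (a (b (a (c (b (a (b (l 64592295255) (l 113984414407)) (c (l 16780896) (l 16781128))) (a (l 3) (l 105394484903))) (c (b (a (l 98415157495) (l 16781216)) (l 117742511639)) (b (a (b (l 88214616231) (l 124721832471)) (l 53318002471)) (l 121500607735)))) (a (b (c (l 16779792) (l 16780064)) (c (c (l 51170521047) (l 54391746247)) (c (l 64055421223) (c (l 66202905191) (l 67813517783))))) (c (l 16784528) (c (l 16779544) (l 16779552))))) (a (l 3) (b (c (a (l 113984414743) (b (l 57076102695) (l 111836929879))) (a (l 120963736599) (b (c (l 68887259159) (l 72645355223)) (l 119889993575)))) (l 3)))) (b (c (l 16782808) (c (l 16781160) (l 16781240))) (a (c (b (c (l 16782336) (l 16782576)) (a (b (l 86067128375) (l 3)) (c (l 45801811015) (l 47412424039)))) (c (b (l 16810783031) (a (l 107541962535) (c (l 56539227367) (l 58149840519)))) (b (c (l 16782696) (l 42580581159)) (a (l 111300058679) (c (l 60297324183) (l 61907936791))))))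 (c (l 16783168) (c (l 16783424) (l 16783456)))))) (a (l 3) (b (a (a (l 3) (b (c (l 113984413879) (l 121500606663)) (l 3))) (c (b (a (c (l 64055422439) (l 66739775895)) (c (l 16779808) (l 16780016))) (a (l 3) (b (l 74255971207) (l 3)))) (b (a (b (c (l 16782016) (l 65129161495)) (l 117205640759)) (c (l 16780104) (l 16780080))) (a (l 3) (c (l 102710123447) (l 106468219623)))))) (l 3))))), by decide +kernel⟩

def k25_pp_012 : ∃ t, chk3 f_pp_012 t 61 29 1 = true :=
  ⟨(b (b (c (a (c (l 16773032) (l 16772440)) (c (l 16759448) (l 16758696))) (a (l 16766328) (l 16762728))) (c (a (c (l 16772136) (l 16772968)) (c (l 16767568) (l 16766944))) (a (c (l 16772520) (l 16772112)) (c (l 16766296) (l 16765624))))) (a (b (a (a (c (l 16780880) (l 16781288)) (c (l 16777872) (l 16780944))) (c (l 16774256) (l 16774872))) (a (b (a (a (b (c (l 16783792) (l 16778792)) (c (c (l 39896229991) (l 40969972327)) (b (l 16780048) (a (l 96804548119) (l 16780392))))) (c (l 16783272) (l 16783520))) (c (l 16781048)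 (l 16781352))) (b (a (c (a (l 112373805527) (b (c (l 16780056) (l 16780216)) (l 80698420631))) (a (l 119889995687) (c (b (l 16780272) (l 95193932615)) (b (l 16781536) (l 105931348007))))) (c (c (l 16783784) (l 16783984)) (c (l 16784088) (l 16781472)))) (a (l 3) (c (a (c (l 88751478615) (l 93583317031)) (c (l 33453778039) (l 33990649447))) (a (b (c (l 79624675863) (l 83919643351)) (l 120963734151)) (a (b (l 16779784) (l 84993384631)) (l 16782176))))))) (c (b (l 16777872) (c (l 16780304) (l 16780520))) (c (a (l 16781552) (l 16777288)) (a (b (l 16783696) (l 16782168)) (l 16777400)))))) (a (b (c (l 16769896) (l 16770320)) (c (c (l 16774624) (l 16774288)) (c (l 16775304) (l 16776360)))) (b (c (l 16769440) (l 16768344)) (c (c (l 16772808) (l 16772408)) (l 16770512)))))), by decide +kernel⟩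

def k26_pp_012 : ∃ t, chk3 f_pp_012 t 31 28 1 = true :=
  ⟨(c (a (a (b (c (l 16748288) (l 16746736)) (c (b (l 16751384) (l 16753752)) (l 16759240))) (b (c (l 16745616) (l 16743712)) (b (l 16752936) (a (l 16750808) (l 16749176))))) (a (b (c (l 16742848) (l 16740544)) (c (a (l 16747328) (l 16745776)) (a (l 16745528) (l 16743776)))) (b (a (l 16739424) (c (l 16739248) (l 16736392))) (a (c (l 16744184) (l 16741992)) (c (l 16742576) (l 16740168)))))) (a (b (a (l 16754600) (c (l 16741616) (l 16739344))) (a (c (l 16760520) (l 16759064)) (a (l 16746472) (l 16744504)))) (a (b (a (l 16737672) (l 16735720)) (a (l 16752984) (l 16750928))) (b (a (l 16733720) (l 16731680)) (a (c (l 16739608) (l 16737024)) (b (l 16734952) (l 16737384))))))), by decide +kernel⟩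

def k27_pp_012 : ∃ t, chk3 f_pp_012 t 31 29 1 = true :=
  ⟨(a (c (c (b (a (b (l 16756312) (l 16764248)) (a (l 16760464) (l 16758784))) (a (b (a (l 16762728) (l 16760960)) (a (l 16770976) (l 16763880))) (b (a (l 16759184) (l 16757384)) (a (l 16762016) (l 6))))) (a (b (b (l 16755320) (l 16763416)) (b (a (l 16762096) (l 16760224)) (a (l 16770488) (l 16763296)))) (b (a (l 16764584) (l 16762768)) (b (a (l 16758320) (l 16756384)) (a (l 16761320) (l 6)))))) (a (b (b (c (l 16754248) (l 16753080)) (c (l 16762512) (l 16756288))) (a (b (l 16766312) (l 16769728)) (b (l 16758992) (l 16767584)))) (a (b (b (l 16750688) (l 16753712)) (b (l 16756872) (c (l 16760560) (l 16759736)))) (b (b (l 16748640) (l 16751608)) (b (l 16754696) (l 6)))))) (a (a (c (b (c (l 16757096) (l 16755664)) (a (b (l 16755480) (l 6)) (l 6))) (b (c (l 16759344) (l 16757632)) (b (l 16757728) (l 6)))) (b (b (c (l 16748120) (l 16744400)) (c (l 16754472) (l 16747248))) (l 6))) (a (a (b (b (c (l 16746776) (l 16742768))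 (l 6)) (l 6)) (l 6)) (l 6)))), by decide +kernel⟩

def k28_pp_012 : ∃ t, chk3 f_pp_012 t 60 30 1 = true :=
  ⟨(l 3), by decide +kernel⟩

def k29_pp_012 : ∃ t, chk3 f_pp_012 t 122 60 1 = true :=
  ⟨(b (a (b (b (a (l 3) (a (l 3) (a (l 3) (b (c (l 88751484199) (l 95730805607)) (l 3))))) (l 3)) (l 3)) (b (a (a (b (b (c (l 27011328055) (c (l 16779776) (l 16779744))) (c (c (l 71034741751) (l 75866579511)) (c (l 85530255463) (l 89288352183)))) (l 3)) (c (b (l 16781392) (b (c (l 53318001095) (l 54928614087)) (l 108615702295))) (b (l 16782872) (b (c (l 64592288951) (l 67276644087)) (l 118279378743))))) (a (b (c (l 16782560) (l 16782768)) (c (c (l 27011326023) (l 27011326503)) (c (l 27548197719) (c (l 30769422199) (l 46875546871))))) (c (c (l 16781936) (l 16782120)) (l 16782256)))) (a (l 3) (c (c (b (a (l 96267671079) (a (l 55465484679) (l 16781736))) (l 109689445271)) (b (a (l 101636380391) (a (l 57076097639) (l 16781872))) (l 114521283719))) (c (b (a (l 105394476791) (b (l 16779240)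 (l 76940319367))) (l 118279380183)) (b (a (l 109689443943) (b (l 16779224) (l 79624674631))) (l 122037476455))))))) (l 3)), by decide +kernel⟩

def k30_pp_012 : ∃ t, chk3 f_pp_012 t 123 120 1 = true :=
  ⟨(c (b (a (c (l 16778216) (l 16778416)) (l 16773088)) (b (a (c (l 16781120) (l 16781296)) (l 16776320)) (a (a (a (b (c (l 43654323831) (l 44728065895)) (c (l 97878283095) (l 101636379655))) (c (l 16781128) (l 16781264))) (l 16781656)) (l 16777208)))) (b (a (a (l 16780072) (l 16777144)) (l 16774504)) (a (a (b (c (l 16782856) (l 16782872)) (a (b (c (l 46875549623) (l 60297320535)) (c (l 105931346967) (l 109689443223))) (c (l 16781336) (l 14126424103)))) (a (a (l 16781992) (l 16781272)) (l 16780176))) (c (l 16776480) (l 16776592))))), by decide +kernel⟩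

def k31_pp_012 : ∃ t, chk3 f_pp_012 t 123 121 1 = true :=
  ⟨(a (b (c (a (b (a (l 3) (b (c (l 67276644359) (l 68887257255)) (l 3))) (l 3)) (a (a (b (b (l 16781528) (l 72108483495)) (l 3)) (b (c (l 16781200) (l 16781328)) (l 104857610279))) (b (l 16780208) (c (b (l 33990646167) (l 88214605847)) (b (l 33990646727) (l 93583315127)))))) (a (b (a (l 3) (b (c (l 73182224247) (l 84456512471)) (l 3))) (l 3)) (a (a (b (b (l 16779008) (a (l 105931349271) (l 72108482551))) (l 3)) (b (c (l 16778768) (l 16778752)) (b (l 97878287847) (l 3)))) (b (l 16780360) (b (c (l 35064388647) (l 37748743159)) (c (l 97341411527) (l 101636378711))))))) (l 3)) (c (b (a (b (l 16780616) (c (l 16779840) (l 16779968))) (l 16778624)) (b (b (a (a (a (l 80161546679) (a (l 53318000103) (l 16781464))) (l 16780608)) (l 16781032)) (a (a (l 110226319127) (c (l 39359355415) (l 39359355623))) (l 16779368))) (b (a (a (l 3) (c (l 93046443927) (l 97878282279))) (c (l 10368325399) (l 9294583959))) (a (l 3) (a (a (l 101099512775)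 (a (l 62981676183) (l 6))) (l 6)))))) (b (a (a (c (l 16781144) (l 16780832)) (l 16781024)) (l 16778848)) (b (a (b (a (c (a (l 93046446023) (l 16779024)) (a (l 96267671799) (l 16779000))) (l 16780728)) (a (c (l 117742506743) (l 121500603031)) (a (a (l 75329707927) (l 49023032983)) (l 16781264)))) (c (l 16781640) (l 16779048))) (a (a (l 3) (c (l 105931346583) (l 109689442887))) (a (b (c (l 16781112) (l 16781096)) (a (l 110226318311) (b (l 16781408) (l 6)))) (l 16780840))))))), by decide +kernel⟩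

def k32_pp_012 : ∃ t, chk3 f_pp_012 t 61 61 1 = true :=
  ⟨(a (l 3) (b (a (l 3) (b (b (a (l 3) (a (l 3) (l 6))) (l 3)) (l 3))) (l 3))), by decide +kernel⟩

def k33_pp_012 : ∃ t, chk3 f_pp_012 t 30 31 1 = true :=
  ⟨(l 3), by decide +kernel⟩

def k34_pp_012 : ∃ t, chk3 f_pp_012 t 31 15 1 = true :=
  ⟨(b (a (b (a (b (c (a (b (l 16770504) (l 16773128)) (c (l 16770872) (l 16770448))) (c (a (l 16770824) (l 16771304)) (a (l 16770480) (l 16770824)))) (a (c (a (b (l 16776960) (c (l 16779456) (l 16779584))) (b (l 16775944) (l 6))) (b (c (l 16776112) (l 16775904)) (a (c (l 16779672) (l 16779728)) (l 6)))) (l 6))) (l 6)) (l 6)) (l 6)) (l 6)), by decide +kernel⟩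

theorem s35_pp_012 : ∃ t, chk3 f_pp_012 t 123 60 1 = true := ex3_b k30_pp_012 k31_pp_012

theorem s36_pp_012 : ∃ t, chk3 f_pp_012 t 61 60 1 = true := ex3_a k29_pp_012 s35_pp_012

theorem s37_pp_012 : ∃ t, chk3 f_pp_012 t 61 30 1 = true := ex3_b s36_pp_012 k32_pp_012

theorem s38_pp_012 : ∃ t, chk3 f_pp_012 t 30 30 1 = true := ex3_a k28_pp_012 s37_pp_012

theorem s39_pp_012 : ∃ t, chk3 f_pp_012 t 30 15 1 = true := ex3_b s38_pp_012 k33_pp_012

theorem s40_pp_012 : ∃ t, chk3 f_pp_012 t 15 15 1 = true := ex3_a s39_pp_012 k34_pp_012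

theorem s41_pp_012 : ∃ t, chk3 f_pp_012 t 31 14 1 = true := ex3_b k26_pp_012 k27_pp_012

theorem s42_pp_012 : ∃ t, chk3 f_pp_012 t 60 29 1 = true := ex3_b k23_pp_012 k24_pp_012

theorem s43_pp_012 : ∃ t, chk3 f_pp_012 t 30 29 1 = true := ex3_a s42_pp_012 k25_pp_012

theorem s44_pp_012 : ∃ t, chk3 f_pp_012 t 30 14 1 = true := ex3_b k22_pp_012 s43_pp_012

theorem s45_pp_012 : ∃ t, chk3 f_pp_012 t 15 14 1 = true := ex3_a s44_pp_012 s41_pp_012

theorem s46_pp_012 : ∃ t, chk3 f_pp_012 t 15 7 1 = true := ex3_b s45_pp_012 s40_pp_012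

theorem s47_pp_012 : ∃ t, chk3 f_pp_012 t 29 28 1 = true := ex3_a k18_pp_012 k19_pp_012

theorem s48_pp_012 : ∃ t, chk3 f_pp_012 t 29 14 1 = true := ex3_b s47_pp_012 k20_pp_012

theorem s49_pp_012 : ∃ t, chk3 f_pp_012 t 14 14 1 = true := ex3_a k17_pp_012 s48_pp_012

theorem s50_pp_012 : ∃ t, chk3 f_pp_012 t 14 7 1 = true := ex3_b s49_pp_012 k21_pp_012

theorem s51_pp_012 : ∃ t, chk3 f_pp_012 t 7 7 1 = true := ex3_a s50_pp_012 s46_pp_012

theorem s52_pp_012 : ∃ t, chk3 f_pp_012 t 14 6 1 = true := ex3_b k14_pp_012 k15_pp_012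

theorem s53_pp_012 : ∃ t, chk3 f_pp_012 t 7 6 1 = true := ex3_a s52_pp_012 k16_pp_012

theorem s54_pp_012 : ∃ t, chk3 f_pp_012 t 7 3 1 = true := ex3_b s53_pp_012 s51_pp_012

theorem s55_pp_012 : ∃ t, chk3 f_pp_012 t 6 6 1 = true := ex3_a k11_pp_012 k12_pp_012

theorem s56_pp_012 : ∃ t, chk3 f_pp_012 t 6 3 1 = true := ex3_b s55_pp_012 k13_pp_012

theorem s57_pp_012 : ∃ t, chk3 f_pp_012 t 3 3 1 = true := ex3_a s56_pp_012 s54_pp_012

theorem s58_pp_012 : ∃ t, chk3 f_pp_012 t 12 11 1 = true := ex3_a k7_pp_012 k8_pp_012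

theorem s59_pp_012 : ∃ t, chk3 f_pp_012 t 12 5 1 = true := ex3_b k6_pp_012 s58_pp_012

theorem s60_pp_012 : ∃ t, chk3 f_pp_012 t 6 5 1 = true := ex3_a s59_pp_012 k9_pp_012

theorem s61_pp_012 : ∃ t, chk3 f_pp_012 t 6 2 1 = true := ex3_b k5_pp_012 s60_pp_012

theorem s62_pp_012 : ∃ t, chk3 f_pp_012 t 3 2 1 = true := ex3_a s61_pp_012 k10_pp_012

theorem s63_pp_012 : ∃ t, chk3 f_pp_012 t 3 1 1 = true := ex3_b s62_pp_012 s57_pp_012

theorem s64_pp_012 : ∃ t, chk3 f_pp_012 t 11 2 1 = true := ex3_b k2_pp_012 k3_pp_012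

theorem s65_pp_012 : ∃ t, chk3 f_pp_012 t 5 2 1 = true := ex3_a k1_pp_012 s64_pp_012

theorem s66_pp_012 : ∃ t, chk3 f_pp_012 t 2 2 1 = true := ex3_a k0_pp_012 s65_pp_012

theorem s67_pp_012 : ∃ t, chk3 f_pp_012 t 2 1 1 = true := ex3_b s66_pp_012 k4_pp_012

theorem s68_pp_012 : ∃ t, chk3 f_pp_012 t 1 1 1 = true := ex3_a s67_pp_012 s63_pp_012

theorem c_pp_012 : CertN 0 536870912 0 536870912 201326592 134217728 3 false true true .pnp 0 1 2
    ndN0q0 ndN0q2 pcN1 cut_pp_012 Ext.none :=
  certN2 (fam := false) (s1 := true) (s2 := true) (a := 0) (b := 1) (c := 2) (cn := .pnp) (n1 := ndN0q0) (n2 := ndN0q2) (pc := pcN1) (cut := cut_pp_012) (xt := Ext.none) (P1 := 0) (W1 := 536870912) (P2 := 0) (W2 := 536870912) (P3 := 201326592) (W3 := 134217728) (N0 := 3)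
    rfl (fun _ => rfl) s68_pp_012

noncomputable def cut_pp_022 : Cut := Cut.of [[⟨0, 0, 0, 67108864⟩, ⟨1, 1, 0, 67108864⟩, ⟨2, 1, 0, 67108864⟩]]

noncomputable def f_pp_022 : ℕ → ℕ → ℕ → ℕ → Bool := onCell 1073741824 536870912 0 536870912 201326592 134217728
    (rowN 3 2 false true true .pp 0 2 2 (qsf 0 536870912 0 536870912 2) ndN0q0 ndN0q2 pcN2 cut_pp_022 Ext.none)

def k0_pp_022 : ∃ t, chk3 f_pp_022 t 4 2 1 = true :=
  ⟨(b (a (a (c (b (l 16541224) (b (l 16525656) (l 16560328))) (b (l 16522392) (l 16580400))) (c (b (l 16539640) (b (l 16511048) (l 16543784))) (b (l 16510832) (l 16554408)))) (a (c (b (b (l 16481768) (l 16487936)) (b (l 16496008) (l 16527800))) (b (l 16498288) (b (l 16490848) (l 16502368)))) (a (c (b (l 16497832) (l 16513208)) (b (l 16469600) (l 16507896))) (b (c (c (l 16536192) (l 16532792)) (a (l 16466200) (l 16453472))) (c (a (l 16509200) (l 16527432)) (a (l 16482520) (l 16500480))))))) (a (b (a (c (a (l 16610040) (l 16601048)) (b (l 16572992) (l 16588840)))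 (c (b (l 16558208) (l 16571992)) (b (l 16533248) (l 16568184)))) (a (c (b (l 16614032) (a (l 16618224) (l 16606360))) (b (l 16623152) (l 16624040))) (a (c (l 16602912) (l 16601376)) (c (l 16590216) (l 16580040))))) (a (b (c (b (l 16541376) (l 16554424)) (l 16574696)) (c (b (l 16564200) (l 16571392)) (b (l 16560128) (l 16569192)))) (a (b (c (l 16548120) (l 16531648)) (c (c (l 16558312) (l 16535056)) (l 16562576))) (b (a (c (l 16533136) (l 16505464)) (c (b (l 16523632) (l 16535880)) (l 16543760))) (a (c (b (l 16527552) (l 16534480)) (l 16546272)) (c (b (l 16545088) (c (l 16553368) (l 16550424))) (b (l 16537664) (l 16566624))))))))), by decide +kernel⟩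

def k1_pp_022 : ∃ t, chk3 f_pp_022 t 5 2 1 = true :=
  ⟨(a (a (a (b (b (c (b (l 16486944) (l 16511440)) (l 16522984)) (c (a (l 16524352) (l 16520152)) (a (l 16497296) (l 16493312)))) (b (c (b (a (l 16520016) (l 16514848)) (a (l 16531968) (l 16526216))) (b (a (l 16492120) (l 16487216)) (a (l 16503152) (l 16497680)))) (b (a (c (l 16540904) (l 16533208)) (c (l 16534600) (l 16527208))) (a (c (l 16568480) (l 16540912)) (l 1))))) (b (a (c (b (l 16484880) (l 16516128)) (b (l 16456552) (l 16489488))) (c (b (a (l 16483016) (b (l 16481392) (l 16503736))) (a (l 62846878183) (a (l 16490456) (l 1)))) (b (a (l 16454744) (l 16495552)) (a (l 16455112) (c (l 16528120) (l 16525088)))))) (a (b (c (b (l 16509808) (l 16520552)) (l 16529576)) (l 1)) (l 1)))) (b (b (l 1) (l 1)) (l 1))) (l 1)), by decide +kernel⟩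

def k2_pp_022 : ∃ t, chk3 f_pp_022 t 8 6 1 = true :=
  ⟨(b (a (b (c (a (l 16668960) (l 16654848)) (a (l 16658136) (l 16624000))) (c (b (a (l 16677696) (l 16662048)) (a (l 16690576) (l 16676832))) (a (b (l 16664456) (l 16677064)) (c (l 16680632) (l 16674952))))) (b (c (a (l 16640112) (l 16624800)) (c (l 16626256) (l 16622528))) (c (a (c (l 16677624) (l 16671432)) (b (l 16628792) (l 16644880))) (a (b (c (l 16616328) (l 16611312)) (l 16649544)) (l 16644992))))) (a (b (c (a (b (l 16695216) (c (l 16682712) (l 16676752))) (c (l 16688920) (l 16682776))) (a (b (l 16683064) (l 16689824)) (b (l 16670840) (l 16678040)))) (a (c (b (c (l 16709496) (l 16704240)) (c (l 16710888) (l 16701072))) (b (l 16697320) (a (l 16708104) (l 16702864)))) (c (b (c (l 16677168) (l 16671952)) (c (l 16705336) (l 16700712))) (b (l 16685920) (c (l 16696472) (l 16692616)))))) (b (c (a (c (l 16675192) (l 16669368)) (c (l 16660168) (l 16654800))) (a (a (l 16664776) (l 16657984)) (a (l 16650952) (l 16643704))))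 (b (c (a (c (l 16664432) (l 16659384)) (c (l 16650408) (l 16645640))) (a (l 16673448) (l 16659992))) (a (c (c (l 16672224) (l 16667656)) (l 16682360)) (c (c (l 16658792) (l 16654408)) (a (l 16651608) (l 16644800)))))))), by decide +kernel⟩

def k3_pp_022 : ∃ t, chk3 f_pp_022 t 9 6 1 = true :=
  ⟨(a (b (c (a (b (l 16609032) (b (l 16611440) (l 16627288))) (b (l 16572496) (c (l 16603400) (l 16599560)))) (b (a (l 16581848) (l 16571952)) (a (l 16631608) (l 16615144)))) (c (b (a (c (l 16644040) (l 16639224)) (b (l 16620344) (c (l 16610056) (l 16605976)))) (a (b (c (l 16635280) (l 16630896)) (a (l 16645840) (l 16654136))) (b (a (l 16621168) (l 1)) (l 1)))) (a (b (a (l 16636232) (l 16628568)) (b (l 16645632) (a (l 16637784) (l 16630560)))) (b (b (l 16612208) (l 16621088)) (b (l 16630464) (l 1)))))) (a (b (b (c (l 16565208) (l 16541928)) (c (c (l 16584488) (l 16581560)) (a (l 16581560) (l 16552120)))) (b (b (c (l 16602224) (l 16595552)) (l 1)) (l 1))) (b (b (c (a (l 16539416) (c (l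 16557800) (l 16555720))) (a (l 16535744) (l 16552256))) (l 1)) (l 1)))), by decide +kernel⟩

def k4_pp_022 : ∃ t, chk3 f_pp_022 t 4 7 1 = true :=
  ⟨(a (a (b (b (a (c (b (a (c (l 16725864) (l 16721992)) (l 16708584)) (b (a (l 16719544) (l 16725376)) (l 6))) (a (b (l 16706464) (b (l 16723960) (l 6))) (b (l 16711864) (l 16716200)))) (a (c (b (l 16703408) (c (l 16703488) (l 16699960))) (b (l 16706480) (l 16705688))) (c (b (l 16697888) (c (l 16698200) (l 16694592))) (b (l 16700800) (l 16710608))))) (l 6)) (l 6)) (b (b (b (a (c (c (l 16696432) (l 16697560)) (c (l 16693696) (l 16690080))) (c (c (a (l 16671128) (l 16664368)) (l 16684744)) (a (l 16661304) (l 16654632)))) (a (b (c (c (l 16687408) (l 16683600)) (l 16699248)) (l 6)) (c (a (c (l 16680568) (l 16676816)) (c (b (l 16671528) (l 16676480)) (l 16670304))) (a (l 16671448) (c (l 16666672) (l 16663128)))))) (a (l 6) (a (l 6) (a (l 6) (l 1))))) (a (l 6) (l 1)))) (a (b (b (a (b (c (a (c (l 16657400) (l 16653456)) (l 16648216))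 (a (l 16647752) (l 16640664))) (a (c (l 16681168) (l 16658112)) (l 1))) (l 1)) (l 1)) (l 1)) (l 1))), by decide +kernel⟩

def k5_pp_022 : ∃ t, chk3 f_pp_022 t 5 3 1 = true :=
  ⟨(b (l 1) (l 1)), by decide +kernel⟩

def k6_pp_022 : ∃ t, chk3 f_pp_022 t 3 1 1 = true :=
  ⟨(l 1), by decide +kernel⟩

theorem s7_pp_022 : ∃ t, chk3 f_pp_022 t 4 6 1 = true := ex3_a k2_pp_022 k3_pp_022

theorem s8_pp_022 : ∃ t, chk3 f_pp_022 t 4 3 1 = true := ex3_b s7_pp_022 k4_pp_022

theorem s9_pp_022 : ∃ t, chk3 f_pp_022 t 2 3 1 = true := ex3_a s8_pp_022 k5_pp_022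

theorem s10_pp_022 : ∃ t, chk3 f_pp_022 t 2 2 1 = true := ex3_a k0_pp_022 k1_pp_022

theorem s11_pp_022 : ∃ t, chk3 f_pp_022 t 2 1 1 = true := ex3_b s10_pp_022 s9_pp_022

theorem s12_pp_022 : ∃ t, chk3 f_pp_022 t 1 1 1 = true := ex3_a s11_pp_022 k6_pp_022

theorem c_pp_022 : CertN 0 536870912 0 536870912 201326592 134217728 3 false true true .pp 0 2 2
    ndN0q0 ndN0q2 pcN2 cut_pp_022 Ext.none :=
  certN2 (fam := false) (s1 := true) (s2 := true) (a := 0) (b := 2) (c := 2) (cn := .pp) (n1 := ndN0q0) (n2 := ndN0q2) (pc := pcN2) (cut := cut_pp_022) (xt := Ext.none) (P1 := 0) (W1 := 536870912) (P2 := 0) (W2 := 536870912) (P3 := 201326592) (W3 := 134217728) (N0 := 3)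
    rfl (fun _ => rfl) s12_pp_022

noncomputable def f_pp_101 : ℕ → ℕ → ℕ → ℕ → Bool := onCell 536870912 536870912 536870912 536870912 201326592 134217728
    (rowN 3 0 false true true .npn 1 0 1 (qsf 536870912 536870912 536870912 536870912 0) ndN0q1 ndN0q1 pcN0 Cut.none Ext.none)

def k0_pp_101 : ∃ t, chk3 f_pp_101 t 1 1 1 = true :=
  ⟨(l 3), by decide +kernel⟩

theorem c_pp_101 : CertN 536870912 536870912 536870912 536870912 201326592 134217728 3 false true true .npn 1 0 1
    ndN0q1 ndN0q1 pcN0 Cut.none Ext.none :=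
  certN0 (fam := false) (s1 := true) (s2 := true) (a := 1) (b := 0) (c := 1) (cn := .npn) (n1 := ndN0q1) (n2 := ndN0q1) (pc := pcN0) (cut := Cut.none) (xt := Ext.none) (P1 := 536870912) (W1 := 536870912) (P2 := 536870912) (W2 := 536870912) (P3 := 201326592) (W3 := 134217728) (N0 := 3)
    rfl k0_pp_101

noncomputable def f_pp_102 : ℕ → ℕ → ℕ → ℕ → Bool := onCell 0 536870912 0 536870912 201326592 134217728
    (rowN 3 2 false true true .npp 1 0 2 (qsf 536870912 536870912 0 536870912 0) ndN0q1 ndN0q2 pcN0 Cut.none Ext.none)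

def k0_pp_102 : ∃ t, chk3 f_pp_102 t 1 1 1 = true :=
  ⟨(a (b (l 3) (l 3)) (l 3)), by decide +kernel⟩

theorem c_pp_102 : CertN 536870912 536870912 0 536870912 201326592 134217728 3 false true true .npp 1 0 2
    ndN0q1 ndN0q2 pcN0 Cut.none Ext.none :=
  certN2 (fam := false) (s1 := true) (s2 := true) (a := 1) (b := 0) (c := 2) (cn := .npp) (n1 := ndN0q1) (n2 := ndN0q2) (pc := pcN0) (cut := Cut.none) (xt := Ext.none) (P1 := 536870912) (W1 := 536870912) (P2 := 0) (W2 := 536870912) (P3 := 201326592) (W3 := 134217728) (N0 := 3)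
    rfl (fun _ => rfl) k0_pp_102

noncomputable def f_pp_112 : ℕ → ℕ → ℕ → ℕ → Bool := onCell 536870912 536870912 0 536870912 201326592 134217728
    (rowN 3 0 false true true .dn 1 1 2 (qsf 536870912 536870912 0 536870912 1) ndN0q1 ndN0q2 pcN1 Cut.none Ext.none)

def k0_pp_112 : ∃ t, chk3 f_pp_112 t 1 1 1 = true :=
  ⟨(a (b (a (a (b (b (a (c (b (a (l 16856472) (l 16838136)) (a (b (l 16831480) (b (l 16827496) (l 88214728599))) (b (b (l 16826424) (l 89825335463)) (a (l 95730905655) (l 106468331543))))) (b (a (l 16846600) (l 16837480)) (a (b (l 16827904) (a (l 16817784) (l 16837248))) (b (a (l 16816976) (l 16815776)) (a (l 97878358583) (l 105394556343)))))) (c (b (a (b (l 16827984) (b (l 16825184) (l 16838600))) (b (b (l 16823792) (l 16827256)) (a (l 97878387911) (l 107542072807)))) (a (b (a (l 96804646823) (l 107005202183)) (l 3)) (l 3))) (b (a (b (l 16825352) (a (l 16816064) (l 16815168))) (b (b (l 16814688) (l 16835576)) (a (l 100562712055) (l 107542039543)))) (a (b (a (l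 98952099911) (l 106468297943)) (l 3)) (l 3))))) (c (a (b (a (b (a (l 95730906167) (l 105931460855)) (l 3)) (l 3)) (l 3)) (l 3)) (a (b (a (b (a (l 97341509031) (l 104857685655)) (l 3)) (l 3)) (l 3)) (l 3)))) (l 3)) (b (b (a (b (c (a (b (a (l 98952128919) (l 108078943415)) (l 3)) (l 3)) (a (b (a (l 102173324135) (l 108615781159)) (l 3)) (l 3))) (l 3)) (l 3)) (l 3)) (l 3))) (l 3)) (l 3)) (l 1)), by decide +kernel⟩

theorem c_pp_112 : CertN 536870912 536870912 0 536870912 201326592 134217728 3 false true true .dn 1 1 2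
    ndN0q1 ndN0q2 pcN1 Cut.none Ext.none :=
  certN0 (fam := false) (s1 := true) (s2 := true) (a := 1) (b := 1) (c := 2) (cn := .dn) (n1 := ndN0q1) (n2 := ndN0q2) (pc := pcN1) (cut := Cut.none) (xt := Ext.none) (P1 := 536870912) (W1 := 536870912) (P2 := 0) (W2 := 536870912) (P3 := 201326592) (W3 := 134217728) (N0 := 3)
    rfl k0_pp_112

noncomputable def f_pp_202 : ℕ → ℕ → ℕ → ℕ → Bool := onCell 0 536870912 0 536870912 201326592 134217728
    (rowN 3 0 false true true .pp 2 0 2 (qsf 0 536870912 0 536870912 0) ndN0q2 ndN0q2 pcN0 Cut.none Ext.none)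

def k0_pp_202 : ∃ t, chk3 f_pp_202 t 1 1 1 = true :=
  ⟨(l 3), by decide +kernel⟩

theorem c_pp_202 : CertN 0 536870912 0 536870912 201326592 134217728 3 false true true .pp 2 0 2
    ndN0q2 ndN0q2 pcN0 Cut.none Ext.none :=
  certN0 (fam := false) (s1 := true) (s2 := true) (a := 2) (b := 0) (c := 2) (cn := .pp) (n1 := ndN0q2) (n2 := ndN0q2) (pc := pcN0) (cut := Cut.none) (xt := Ext.none) (P1 := 0) (W1 := 536870912) (P2 := 0) (W2 := 536870912) (P3 := 201326592) (W3 := 134217728) (N0 := 3)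
    rfl k0_pp_202

noncomputable def f_pm_001 : ℕ → ℕ → ℕ → ℕ → Bool := onCell 0 536870912 536870912 536870912 201326592 134217728
    (rowN 3 0 false true false .up 0 0 1 (qsf 0 536870912 536870912 536870912 0) ndN0q0 ndN0q1 pcN0 Cut.none Ext.none)

def k0_pm_001 : ∃ t, chk3 f_pm_001 t 2 1 1 = true :=
  ⟨(b (l 4) (b (b (l 4) (l 2)) (l 2))), by decide +kernel⟩

def k1_pm_001 : ∃ t, chk3 f_pm_001 t 6 2 1 = true :=
  ⟨(b (l 4) (l 4)), by decide +kernel⟩

def k2_pm_001 : ∃ t, chk3 f_pm_001 t 7 4 1 = true :=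
  ⟨(l 4), by decide +kernel⟩

def k3_pm_001 : ∃ t, chk3 f_pm_001 t 7 10 1 = true :=
  ⟨(a (l 4) (b (a (l 4) (b (l 4) (a (l 4) (b (l 4) (a (l 4) (a (b (l 4) (c (l 134989615527) (l 155927548615))) (b (c (l 138210842039) (l 160759387543)) (c (l 104387986951) (l 127473398823))))))))) (a (b (l 4) (a (l 4) (b (b (l 4) (a (l 4) (a (l 4) (c (l 125862822775) (l 153243205031))))) (b (a (l 4) (c (a (l 125325948247) (l 97408677431)) (c (l 135526461815) (a (l 162370000455) (l 150558821015))))) (a (a (l 4) (a (l 4) (c (l 108146091111) (l 146800743911)))) (c (a (l 94724321015) (l 16823296)) (a (c (l 141968876359) (l 159148729271)) (l 16811232)))))))) (b (a (b (l 4) (a (l 4) (c (b (a (l 4) (l 126399677207)) (a (l 104924872679) (l 16832704))) (a (c (l 144116402103) (l 152706319751)) (b (l 147874482151) (l 111367274487)))))) (b (a (a (b (l 4) (c (l 133915871319) (l 150558837751))) (b (c (l 132305259815) (l 152706322311)) (c (l 99556147815) (l 117272855767)))) (c (c (l 16850000) (l 88818742343))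 (b (a (l 122104692551) (l 16812216)) (l 16806520)))) (c (c (l 16866608) (l 83450044487)) (a (b (a (l 114051630247) (l 16809784)) (l 16804320)) (l 16817672))))) (a (b (a (c (b (a (l 4) (l 102240517863)) (a (l 99556162247) (l 16829560))) (b (c (l 140358303959) (l 149485092663)) (a (b (l 139821429143) (l 124252169399)) (l 16814848)))) (c (l 83986912471) (b (a (l 16837776) (l 16807048)) (l 16802352)))) (a (c (l 16855504) (b (l 16829424) (l 16800752))) (l 16861296))) (c (l 16859768) (l 16872320))))))), by decide +kernel⟩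

def k4_pm_001 : ∃ t, chk3 f_pm_001 t 14 22 1 = true :=
  ⟨(a (l 4) (b (l 4) (a (l 4) (b (a (l 4) (c (a (c (l 129084039095) (l 136063350423)) (b (l 131231512311) (l 90966225319))) (b (a (l 4) (b (l 4) (l 151632575735))) (a (c (l 155927529127) (l 161296225255)) (b (c (l 165054315047) (l 151095687367)) (l 104387945815)))))) (a (c (b (c (l 129084029799) (l 137137083255)) (a (b (l 134989595943) (l 94187442151)) (l 16850920))) (c (b (a (l 4) (l 153243148439)) (b (l 137137054567) (l 104387953527))) (b (a (l 4) (b (l 4) (l 154853785815))) (a (b (l 161833113671) (l 149485072423)) (l 99019238983))))) (c (b (l 87208130983) (l 16810384)) (b (a (a (c (l 160222471175) (l 110830397175)) (l 97408619895)) (l 16807768)) (l 16824864)))))))), by decide +kernel⟩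

def k5_pm_001 : ∃ t, chk3 f_pm_001 t 28 23 1 = true :=
  ⟨(b (a (l 4) (b (l 4) (b (l 4) (b (l 4) (a (l 4) (a (l 4) (c (l 101703620567) (c (l 144116350119) (l 146800716311))))))))) (a (b (l 4) (a (l 4) (c (c (b (l 136063333623) (a (l 132842094359) (l 16839976))) (b (a (l 4) (l 142505771143)) (a (l 138210798407) (l 92576779047)))) (b (a (l 4) (a (l 4) (c (l 147874469239) (l 152706298743)))) (a (b (l 4) (a (l 4) (c (l 118346579943) (l 139821388183)))) (b (c (l 129620868535) (a (l 145726970263) (l 16820576))) (c (l 16811576) (l 16818456)))))))) (b (b (a (l 4) (c (a (b (l 138210808007) (l 99019260279)) (l 83986873671)) (c (b (a (l 151095698295) (l 102240460535)) (l 107072288695)) (a (b (l 155927526935) (l 139284540391)) (l 96871749255))))) (a (a (l 4) (c (b (l 134989576695) (l 96871768951)) (b (c (l 145190113319) (l 149485071655)) (c (l 97408637063) (a (l 124789028055) (l 16809744)))))) (c (l 80228772663) (c (l 82376212439) (a (l 93650517191) (l 16803432)))))) (c (a (b (c (l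 92039944135) (l 95798021287)) (l 16832480)) (l 16830824)) (c (a (b (a (b (l 138210807655) (l 99556104807)) (l 16809784)) (l 16828176)) (l 16805248)) (a (b (a (b (a (l 4) (l 118346574455)) (l 108146028183)) (l 16827144)) (l 16824696)) (l 16822824))))))), by decide +kernel⟩

def k6_pm_001 : ∃ t, chk3 f_pm_001 t 29 23 1 = true :=
  ⟨(b (a (b (b (a (l 4) (a (l 4) (c (b (l 101703636167) (l 93113693271)) (b (c (l 153243185895) (l 157001271063)) (c (l 161296210279) (l 118346586023)))))) (a (a (l 4) (a (l 4) (c (l 137137074327) (c (l 155390671511) (l 159685627927))))) (c (c (l 92576825543) (l 94187428439)) (c (b (l 107609177575) (l 102240452775)) (a (a (l 147874460151) (l 108146037191)) (l 16828480)))))) (c (a (b (a (b (l 4) (l 134989583095)) (l 93113697495)) (a (l 92039947383) (l 16813400))) (l 16851352)) (c (a (b (a (b (l 4) (l 150021956071)) (b (l 142505736663) (l 16835584))) (l 100629842215)) (l 16826080)) (a (b (a (b (l 4) (l 153243171527)) (b (l 144653231543) (l 16831232)))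 (a (b (l 116735970551) (l 16808600)) (l 16805040))) (l 16833176))))) (c (b (a (l 79691930679) (l 16825712)) (l 16828080)) (b (a (a (a (c (l 16831864) (l 92576785431)) (l 16827008)) (l 16823800)) (l 16820952)) (l 16865848)))) (c (a (b (a (l 16829904) (l 16829896)) (l 16836752)) (l 16847520)) (a (a (b (c (l 16825608) (l 16822304)) (l 16827536)) (l 16850056)) (l 16868144)))), by decide +kernel⟩

def k7_pm_001 : ∃ t, chk3 f_pm_001 t 15 11 1 = true :=
  ⟨(b (a (b (a (b (b (l 4) (a (l 4) (a (l 4) (c (l 123178448663) (b (l 152169454215) (l 125862790615)))))) (b (a (l 4) (c (c (l 94724322935) (l 89892491991)) (a (b (l 150021965863) (l 119420339543)) (l 100629862887)))) (a (a (l 4) (c (l 93650589799) (b (l 146263864743) (l 112977888231)))) (c (l 16839024) (c (l 16811208) (l 16843024)))))) (b (a (c (b (a (l 125325939047) (l 92576835175)) (l 86671261015)) (c (b (l 135526451399) (l 16835968)) (b (a (l 159685637607) (l 155927502295)) (a (l 108146047927) (l 16805496))))) (c (l 16830976)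 (l 16844104))) (c (l 16844480) (a (l 16821680) (l 16818040))))) (c (a (a (b (c (l 89892480535) (l 87208129879)) (l 16825496)) (l 16844328)) (l 16847688)) (a (b (a (b (a (b (a (l 161833100119) (l 166664916487)) (l 107609176903)) (l 16831944)) (l 16826984)) (l 16820768)) (l 16856552)) (l 16869408)))) (c (b (b (l 16884448) (l 16856408)) (l 16875152)) (b (a (l 16863104) (l 16819224)) (a (l 16826768) (l 16849328))))) (c (a (a (b (l 16835712) (l 16852864)) (b (l 16840392) (l 16881560))) (b (l 16884016) (l 16923512))) (a (a (b (l 16857264) (l 16846304)) (b (l 16835776) (l 16867808))) (b (l 16869176) (l 16900664))))), by decide +kernel⟩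

def k8_pm_001 : ∃ t, chk3 f_pm_001 t 12 12 1 = true :=
  ⟨(a (l 4) (b (l 4) (b (l 4) (a (l 4) (b (l 4) (a (b (l 4) (l 2)) (a (b (l 4) (b (c (l 136063299783) (l 100092940263)) (l 2))) (c (b (b (l 135526414695) (l 105998530695)) (c (l 16815728) (l 42110869703))) (b (c (l 123715268935) (a (l 135526386599) (l 93113608135))) (c (l 26541599719) (l 16791208))))))))))), by decide +kernel⟩

def k9_pm_001 : ∃ t, chk3 f_pm_001 t 26 24 1 = true :=
  ⟨(l 4), by decide +kernel⟩

def k10_pm_001 : ∃ t, chk3 f_pm_001 t 27 48 1 = true :=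
  ⟨(a (l 4) (b (l 4) (a (a (l 4) (a (l 4) (b (l 4) (b (l 4) (c (l 100092967799) (c (l 106535411159) (l 129083961351))))))) (c (c (b (a (l 131231475095) (l 94187404935)) (l 84523729879)) (b (a (l 136600180263) (l 95797999735)) (a (l 87208058375) (l 16810224)))) (b (b (a (l 4) (a (l 4) (c (l 104387931575) (l 113514727623)))) (a (c (l 138747653495) (l 144116355607)) (c (l 92039906759) (l 96334863927)))) (a (c (c (l 105998559159) (l 107609169079)) (b (a (l 136063286135) (l 101166690839)) (l 16815568))) (c (l 16807472) (l 16804200)))))))), by decide +kernel⟩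

def k11_pm_001 : ∃ t, chk3 f_pm_001 t 27 49 1 = true :=
  ⟨(a (b (b (l 4) (a (l 4) (a (l 4) (c (b (l 128547142935) (l 91503035959)) (b (c (l 131768341543) (l 136600174023)) (c (l 95798003495) (a (l 109756623335) (l 16802664)))))))) (a (a (a (l 4) (b (l 4) (c (l 99019234967) (b (l 4) (c (l 16824480) (l 102240426071)))))) (a (b (l 4) (c (l 88281811463) (c (l 89355549719) (a (l 114588454935) (l 90966143463))))) (b (c (l 130694618071) (b (l 4) (c (l 102240442647) (l 134989533831)))) (c (l 72712539143) (c (l 16802064) (l 16820736)))))) (b (a (c (b (l 98482361799) (l 82913092071)) (a (c (l 90966168887) (a (l 128010233287) (l 117272812759))) (c (l 87744937799) (l 89892408663)))) (c (c (l 16807024) (l 16805400)) (c (l 16803248) (l 16800600)))) (c (a (l 16805344) (l 16809168)) (c (l 16803104) (l 16800144)))))) (c (b (a (b (a (b (l 134452709495) (l 96871751495)) (c (l 16832064) (l 76470631431))) (c (l 66270094999) (a (l 16807136) (l 16807872)))) (c (l 16813992) (l 16810720))) (c (a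 (l 16815720) (l 16829200)) (a (l 16811944) (l 16823688)))) (b (a (a (b (c (b (l 141432003719) (l 116735974919)) (b (l 146800706487) (a (l 139821378807) (l 102240430983)))) (c (l 60901367591) (l 85060571495))) (b (c (b (l 93113651991) (l 16805952)) (b (l 96334862935) (l 16803072))) (l 16824488))) (b (c (l 16806456) (l 16803000)) (l 16827912))) (c (a (l 16808104) (l 16818544)) (a (l 16825208) (l 16813800)))))), by decide +kernel⟩

def k12_pm_001 : ∃ t, chk3 f_pm_001 t 26 50 1 = true :=
  ⟨(a (b (l 4) (a (l 4) (b (l 4) (a (l 4) (c (b (l 133915810999) (l 100092961271)) (c (l 122104664727) (b (l 141431975959) (l 97945468039)))))))) (b (b (a (l 4) (a (l 4) (b (c (l 131768337239) (a (l 4) (c (l 101703568039) (l 137673884567)))) (c (l 96334872743) (c (l 97408607495) (l 108682892375)))))) (a (a (l 4) (a (l 4) (c (l 133378946807) (c (l 138747631047) (l 141431981383))))) (a (c (b (l 99019228471) (l 85597446327)) (a (b (l 4) (l 89355543063)) (c (l 78081220519) (l 100629825143)))) (c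 (b (l 16822440) (l 16802208)) (c (l 16799240) (l 16807592)))))) (b (a (c (a (b (l 4) (l 102777317143)) (b (l 98482355351) (l 16817448))) (c (a (l 131231455543) (l 79691842903)) (a (b (l 4) (a (l 4) (l 99556072919))) (b (l 97945472903) (l 16816568))))) (c (c (l 16804712) (l 16802608)) (c (l 16800248) (l 16808144)))) (c (a (a (c (l 16824912) (l 73249397751)) (l 16801840)) (c (l 16814632) (l 16810808))) (b (a (a (c (l 16807632) (l 67880670903)) (l 16796784)) (l 16803320)) (a (c (l 16797872) (l 16795680)) (l 16807536))))))), by decide +kernel⟩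

def k13_pm_001 : ∃ t, chk3 f_pm_001 t 26 51 1 = true :=
  ⟨(a (b (a (a (a (l 4) (b (l 4) (b (l 4) (c (l 107609131031) (l 96871706071))))) (b (a (l 4) (c (l 134452678871) (b (l 4) (l 100092953191)))) (c (b (l 102777310135) (l 75396884279)) (c (l 81839327879) (a (l 87744893319) (l 16797712)))))) (a (b (c (b (l 106535405751) (l 89892412983)) (c (l 90429267735) (a (l 96334856871) (l 77544340151)))) (c (c (l 16798656) (l 16797304)) (c (l 16795664) (l 16793784)))) (c (b (c (l 16818920) (l 16817944)) (l 16805688)) (b (c (l 16795608) (l 16799120)) (l 16800024))))) (a (c (b (a (c (l 85060572551) (l 75396881847)) (c (l 16800688) (l 16798816))) (a (c (l 16803816) (l 16801360)) (l 16812992))) (b (a (b (a (l 87744896567) (l 16792048)) (l 16792472)) (c (l 16796800) (l 16794648))) (a (c (l 16798896) (l 16796432)) (l 16805600)))) (c (a (b (l 16808920) (l 16824032)) (c (l 16829808) (l 16824168))) (c (l 16809208) (l 16810456))))) (b (c (a (b (a (l 16803320) (l 16811464)) (c (l 16822232) (l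 16817432))) (c (l 16835456) (l 16829288))) (a (c (b (l 16802672) (l 16813016)) (b (l 16799664) (l 16809032))) (c (l 16823848) (l 16798240)))) (c (a (c (l 16825952) (l 16818688)) (l 16853792)) (a (a (l 16826200) (l 16835656)) (l 16828872))))), by decide +kernel⟩

def k14_pm_001 : ∃ t, chk3 f_pm_001 t 27 25 1 = true :=
  ⟨(c (a (b (b (a (b (a (c (l 16824440) (l 16812848)) (l 16805104)) (c (l 16809912) (l 16806936))) (b (l 16813160) (l 16822792))) (b (a (l 16817928) (l 16834728)) (a (l 16830184) (l 16848256)))) (b (a (l 16841296) (l 16860112)) (c (l 16878624) (l 16888536)))) (b (b (c (l 16833672) (l 16837368)) (c (l 16861152) (l 16863088))) (b (l 16875864) (l 16928648)))) (b (b (a (a (b (a (c (l 56606386871) (b (l 88281785639) (l 16797928))) (l 16810816)) (c (l 16803840) (l 16800632))) (b (l 16816136) (l 16813232))) (a (c (l 16824304) (l 16819456)) (l 16815384))) (a (a (c (l 16816352) (l 16811976)) (l 16829368)) (a (l 16845640) (l 16862160)))) (a (b (a (l 16838776) (l 16856416))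 (a (l 16868512) (l 16886576))) (b (a (l 16873832) (l 16890792)) (l 16870344))))), by decide +kernel⟩

def k15_pm_001 : ∃ t, chk3 f_pm_001 t 12 13 1 = true :=
  ⟨(b (a (l 2) (b (b (a (l 2) (b (a (l 2) (a (l 2) (c (l 145592801623) (l 16800512)))) (l 2))) (l 2)) (l 2))) (l 2)), by decide +kernel⟩

def k16_pm_001 : ∃ t, chk3 f_pm_001 t 13 26 1 = true :=
  ⟨(a (c (b (a (b (a (c (b (l 16826432) (l 16845792)) (b (l 16821136) (l 16838520))) (c (l 16838560) (l 16844352))) (a (c (l 92442605527) (l 16856456)) (c (l 16891656) (l 16873912)))) (a (b (l 16865736) (c (l 16925216) (l 16910816))) (b (l 16884176) (c (l 16946512) (l 16930480))))) (a (a (l 2) (b (c (l 16946656) (l 47345614839)) (l 2))) (b (a (c (l 16968896) (l 16949848)) (c (l 16989304) (l 16968592))) (c (a (l 17015480) (l 17034880)) (a (l 61841259175) (l 17008520)))))) (a (b (a (b (c (l 16817616) (l 16814440)) (c (l 16858664) (l 16852744))) (b (c (l 16845152) (l 16839864)) (c (l 16879952) (l 16873592)))) (a (l 2) (b (c (l 39829389559)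 (l 16908440)) (l 2)))) (a (b (b (c (l 16865552) (l 16859976)) (c (l 16900016) (l 16893552))) (b (c (l 16893744) (l 16927480)) (c (l 85463501255) (l 119286297671)))) (b (b (l 16860808) (l 16894000)) (c (b (l 16953544) (l 16989024)) (b (l 16945472) (l 16936008))))))) (c (a (b (a (c (l 16914656) (l 16930744)) (c (l 16934352) (l 16948024))) (b (c (l 17016600) (a (l 16985840) (l 17001688))) (c (l 17060648) (a (l 17024712) (l 17039488))))) (b (b (l 16962168) (l 16997336)) (a (b (l 17027416) (l 17066904)) (l 17033704)))) (b (a (b (c (l 16912208) (l 16907536)) (c (l 16944824) (l 16939352))) (b (l 16900584) (c (l 16975648) (l 16972064)))) (a (c (a (l 16987264) (l 17002152)) (b (l 16970600) (l 16980264))) (c (b (l 17006696) (l 16996280)) (b (l 17001024) (l 17029208))))))), by decide +kernel⟩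

def k17_pm_001 : ∃ t, chk3 f_pm_001 t 13 27 1 = true :=
  ⟨(a (a (l 2) (a (l 2) (a (l 2) (b (b (c (l 91906149255) (l 141298081079)) (l 2)) (l 2))))) (c (a (b (b (c (l 61304626327) (a (l 17065600) (l 17079248))) (c (l 90295755799) (l 89758803575))) (b (c (l 106938860951) (l 120897385399)) (l 2))) (b (c (b (l 17134280) (l 17182272)) (b (l 17097200) (l 17137504))) (b (c (l 17233840) (l 74189676071)) (c (l 128950721591) (l 112844472151))))) (b (c (a (b (a (l 17039792) (l 17052928)) (a (l 82779391799) (l 17088304))) (b (l 17049592) (a (l 17099120) (l 17108928)))) (a (b (l 71504996967) (a (l 101569805175) (l 124655212535))) (b (l 17056960) (l 17095200)))) (a (b (a (l 2) (c (l 95127518231) (l 96201213431))) (l 2)) (b (c (a (l 17134904) (l 17143448)) (a (l 80631976807) (l 17117520))) (a (c (l 136466670935) (l 121434221879)) (c (l 17179960) (l 103180626631)))))))), by decide +kernel⟩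

def k18_pm_001 : ∃ t, chk3 f_pm_001 t 14 12 1 = true :=
  ⟨(b (a (b (a (b (a (c (b (a (l 4) (c (l 129083992327) (l 132305213159))) (b (a (a (l 4) (l 98482389191)) (l 88281812375)) (c (l 88818692599) (l 89355552071)))) (b (a (l 4) (b (l 4) (a (c (l 144653236455) (l 149485066983)) (c (l 16824424) (l 114051600871))))) (a (b (a (l 4) (c (l 139284524999) (l 143579484855))) (a (c (l 111367255895) (l 131768322487)) (c (l 16812024) (l 16819072)))) (b (c (l 16827424) (l 96334863783)) (l 16828432))))) (c (b (c (l 16835864) (l 79155003399)) (l 16832512)) (c (b (a (b (l 101703588423) (l 16810144)) (l 16807936)) (l 16806904)) (b (a (b (a (l 121567796183) (l 16808424)) (l 16806672)) (l 16804464)) (l 16803344))))) (a (c (a (c (l 16813384) (l 16821352)) (l 16854624)) (b (a (c (l 16830072) (l 84523701383)) (l 16805704)) (c (l 16807896) (l 16804064)))) (c (l 16836944) (b (l 16806208) (l 16810400))))) (c (b (a (l 16854136) (l 16817688)) (l 16849608)) (a (b (b (l 16825424) (l 16806760)) (l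 16815480)) (l 16859840)))) (c (a (a (b (l 16863104) (l 16839784)) (a (l 16838352) (l 16844528))) (b (l 16849056) (l 16872944))) (a (b (a (b (l 16809152) (l 16815176)) (l 16821456)) (b (l 16829832) (l 16841048))) (b (l 16842240) (l 16868216))))) (c (b (a (l 16883600) (l 16867856)) (a (l 16887656) (l 16913024))) (b (a (b (l 16827792) (l 16850696)) (l 16859560)) (a (l 16877440) (l 16895896))))) (a (a (c (b (b (l 16870848) (l 16898288)) (c (l 16948856) (l 16937496))) (b (b (l 16860008) (l 16887744)) (c (l 16931656) (l 16928896)))) (c (b (l 16933200) (l 16968280)) (b (c (l 16906192) (l 16896928)) (l 16908024)))) (c (b (a (l 16937384) (l 16960104)) (a (l 16990528) (l 17009248))) (b (a (l 16918400) (l 16935232)) (a (l 16964016) (l 16977840)))))), by decide +kernel⟩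

def k19_pm_001 : ∃ t, chk3 f_pm_001 t 15 12 1 = true :=
  ⟨(b (b (a (c (l 16908952) (l 16890120)) (c (l 16961832) (a (l 16921648) (l 16942160)))) (c (a (l 16950968) (l 16999248)) (a (l 16924640) (l 16963056)))) (b (c (a (l 16993456) (l 17036056)) (a (l 16960656) (l 16994728))) (c (a (l 17036720) (l 17072400)) (a (l 16998688) (l 17027224))))), by decide +kernel⟩

def k20_pm_001 : ∃ t, chk3 f_pm_001 t 7 13 1 = true :=
  ⟨(a (a (c (a (b (b (c (l 17016024) (l 16998432)) (b (l 17058000) (l 17094744))) (c (b (b (l 17153720) (l 17199248)) (b (l 17248184) (l 17300920))) (b (b (l 17116376) (l 17154160)) (b (l 17194440) (l 17237592))))) (b (b (l 17028024) (l 17093056)) (b (c (l 17187056) (l 17147840)) (b (l 17227240) (c (l 17304728) (l 17243080)))))) (b (c (b (a (l 16989096) (l 17014680)) (a (l 17046624) (l 17069176))) (b (a (l 16984352) (l 16993944)) (a (l 17022424) (l 17054816)))) (a (b (c (l 17106328) (a (l 17087496) (l 17099208))) (b (c (l 17154344) (l 17131088)) (c (a (l 17186104)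 (l 17191144)) (a (l 17153480) (l 17160912))))) (b (c (l 17122904) (l 17116568)) (c (b (l 17166248) (l 17197392)) (a (l 17156208) (l 17164056))))))) (c (b (b (a (l 17046272) (l 17061080)) (a (l 17106136) (l 17116080))) (b (a (l 17173440) (l 17177584)) (a (b (l 17230448) (l 17272248)) (c (l 17275864) (l 17226456))))) (b (c (b (l 17030704) (l 17087592)) (b (l 17006784) (l 17038464))) (c (a (b (l 17137592) (l 17189704)) (b (l 17151000) (l 17196272))) (a (b (l 17122808) (l 17175728)) (b (l 17118992) (l 17186728))))))) (a (b (c (c (l 17130872) (l 17159264)) (c (b (l 17052368) (l 17098184)) (b (l 17024928) (l 17067592)))) (b (c (l 17199944) (c (l 17148720) (l 17115720))) (c (a (l 17244408) (l 17237720)) (c (l 17204296) (l 17171168))))) (b (c (l 17252496) (c (l 17093392) (b (l 17045128) (l 17079472)))) (b (c (l 17181352) (l 17198248)) (c (l 17375112) (a (l 17180160) (l 17178344))))))), by decide +kernel⟩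

def k21_pm_001 : ∃ t, chk3 f_pm_001 t 6 7 1 = true :=
  ⟨(b (a (l 2) (b (a (l 2) (a (l 2) (b (b (a (l 2) (b (c (l 198206979767) (l 160625859623)) (l 2))) (l 2)) (l 2)))) (l 2))) (l 2)), by decide +kernel⟩

def k22_pm_001 : ∃ t, chk3 f_pm_001 t 14 28 1 = true :=
  ⟨(a (b (c (c (a (b (l 103181060647) (l 146667706647)) (b (l 17358504) (l 17416712))) (a (b (l 115528946919) (a (l 193912175687) (l 152036236791))) (b (l 17286344) (a (l 17333800) (l 17332304))))) (c (a (b (a (l 131098061527) (l 17227008)) (a (l 189080197623) (l 154720460359))) (b (l 17230784) (a (l 17266608) (l 17266952)))) (a (b (a (l 126803012087) (l 17187536)) (a (l 174047708503) (l 148277913991))) (b (a (l 17192880) (l 17197968)) (a (l 17219488) (l 17222720)))))) (a (a (l 2) (b (a (l 2) (b (c (l 210555217719) (l 204649425735)) (l 2))) (l 2))) (c (b (b (c (l 17463512) (l 113381586695)) (a (c (l 174048232087) (l 185859202791)) (c (l 17493752) (b (l 17388688) (a (l 17403048) (l 17398544)))))) (a (a (l 2) (a (l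 2) (c (l 216461105175) (l 213776554823)))) (c (l 17525632) (l 147204548887)))) (b (b (c (l 122508252631) (a (l 17246112) (l 17242688))) (a (c (l 178342886423) (l 173510925591)) (a (b (l 17278880) (c (l 17321040) (l 17260392))) (c (l 17314464) (l 17256952))))) (a (a (l 2) (a (l 2) (a (l 2) (c (l 204649581895) (l 192838336487))))) (c (l 153109974359) (a (l 155794243767) (l 17275736)))))))) (c (a (b (b (l 17317488) (c (l 17409000) (l 17328368))) (c (b (a (l 17470280) (l 17457720)) (l 17505904)) (b (a (b (l 17366168) (l 17386504)) (l 17368184)) (l 17409208)))) (b (b (l 17310736) (a (l 17360456) (l 17355200))) (c (l 17455304) (a (l 17374840) (l 17368872))))) (a (b (c (b (l 17233816) (l 17266392)) (b (l 17205320) (a (l 17225744) (l 17228640)))) (b (a (b (l 17266224) (c (l 17310296) (l 17256384))) (b (c (l 17291832) (l 17245872)) (l 17278544))) (c (l 17330928) (l 17274152)))) (b (b (l 17221448) (a (c (l 17265480) (l 17231728)) (l 17266872))) (b (c (l 17290992) (a (l 17251240) (l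 17252648))) (l 17292912)))))), by decide +kernel⟩

def k23_pm_001 : ∃ t, chk3 f_pm_001 t 14 29 1 = true :=
  ⟨(a (a (l 2) (b (a (l 2) (c (c (l 204113226247) (l 204649881207)) (b (c (l 200891571191) (l 193375240439)) (l 2)))) (l 2))) (c (a (c (b (l 133246240151) (l 194986539047)) (b (a (l 143983443623) (l 17456080)) (l 198744413431))) (b (c (l 17535368) (l 17439832)) (c (l 17613928) (l 138077978967)))) (c (a (b (a (l 150425660231) (l 103181069303)) (a (l 2) (l 198744214343))) (b (b (l 17347592) (l 17376216)) (a (l 145593983111) (l 124119128823)))) (b (a (b (l 153109916071) (l 153109963271)) (b (l 17293144) (l 17315096))) (a (b (l 196596557607) (l 2)) (b (l 148815026807) (l 147741333863))))))), by decide +kernel⟩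

def k24_pm_001 : ∃ t, chk3 f_pm_001 t 15 14 1 = true :=
  ⟨(b (a (c (b (a (b (l 17301264) (c (l 17377784) (l 17308024))) (b (l 17291824) (l 17321144))) (a (l 17392104) (l 17370232))) (b (c (a (l 17248936) (l 17244480)) (b (l 17346560) (a (l 17238792) (l 17241856)))) (a (c (l 17296624) (l 17262392)) (l 17271832)))) (c (a (b (l 17286384) (l 17348920)) (l 17317616)) (c (c (l 17384096) (l 17420184)) (b (l 17246856) (l 17263080))))) (a (c (b (a (l 17460464) (l 17435880)) (c (l 17568080) (a (l 17485336) (l 17461640)))) (b (c (a (l 17348096) (l 17334712)) (a (l 17298512) (l 17293320))) (a (c (l 17403520) (b (l 17328896) (l 17350768))) (c (l 17386456) (l 17329648))))) (c (b (c (l 17437216) (l 17366808)) (c (l 17508864) (l 17426744))) (b (a (l 17301952) (l 17292880)) (a (l 17342176) (c (l 17353056) (l 17309792))))))), by decide +kernel⟩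

def k25_pm_001 : ∃ t, chk3 f_pm_001 t 7 15 1 = true :=
  ⟨(a (b (b (a (l 2) (a (l 2) (a (l 2) (b (c (l 194986328311) (l 194986008439)) (l 2))))) (l 2)) (l 2)) (b (a (b (c (c (l 115529753175) (a (l 131098758391) (l 17530392))) (b (a (c (l 138077821863) (l 140762035719)) (l 17392480)) (a (c (l 156331502359) (l 193375434167)) (c (l 17458160) (l 17383512))))) (c (c (a (l 168680074231) (l 146131470391)) (a (l 179417258199) (b (l 17585200) (l 177269745639)))) (b (a (c (l 188543821895) (l 250820673591)) (c (l 128951101335) (a (l 181027430055) (l 17403624)))) (a (l 2) (c (a (l 223440463495) (l 194449380759)) (a (l 266926828343) (b (l 190154216119) (l 203039184839)))))))) (b (c (c (l 17585368) (l 17491896)) (a (c (l 17423240) (l 17358040)) (l 17371704))) (c (c (a (l 17683440) (l 17653552)) (a (b (l 17557904) (l 17595240)) (l 17551192))) (a (c (b (l 17467232) (a (l 17504320) (l 17492760))) (b (l 17391200) (a (c (l 17439728) (l 17401144)) (l 17410976)))) (b (l 17408256) (c (l 17476624)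 (l 17398368))))))) (a (a (l 2) (a (l 2) (b (b (b (b (b (c (c (l 17754568) (l 17638464)) (c (l 230419732087) (l 264779356583))) (l 2)) (l 2)) (l 2)) (l 2)) (l 2)))) (c (b (c (a (l 17729296) (l 17693736)) (a (b (a (l 17625792) (l 17610176)) (l 17624344)) (l 17588784))) (l 112845307383)) (c (b (a (b (a (b (c (l 17547824) (l 17500480)) (l 17528200)) (l 17512176)) (l 17526240)) (l 17495472)) (l 112845101319)) (a (b (b (b (b (a (a (b (l 147741428647) (l 17438720)) (l 17432448)) (l 17424616)) (l 137540884087)) (l 135393410727)) (l 190691162119)) (l 183711859047)) (b (l 17414464) (l 114455475287)))))))), by decide +kernel⟩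

theorem s26_pm_001 : ∃ t, chk3 f_pm_001 t 14 14 1 = true := ex3_b k22_pm_001 k23_pm_001

theorem s27_pm_001 : ∃ t, chk3 f_pm_001 t 7 14 1 = true := ex3_a s26_pm_001 k24_pm_001

theorem s28_pm_001 : ∃ t, chk3 f_pm_001 t 7 7 1 = true := ex3_b s27_pm_001 k25_pm_001

theorem s29_pm_001 : ∃ t, chk3 f_pm_001 t 3 7 1 = true := ex3_a k21_pm_001 s28_pm_001

theorem s30_pm_001 : ∃ t, chk3 f_pm_001 t 7 12 1 = true := ex3_a k18_pm_001 k19_pm_001

theorem s31_pm_001 : ∃ t, chk3 f_pm_001 t 7 6 1 = true := ex3_b s30_pm_001 k20_pm_001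

theorem s32_pm_001 : ∃ t, chk3 f_pm_001 t 13 13 1 = true := ex3_b k16_pm_001 k17_pm_001

theorem s33_pm_001 : ∃ t, chk3 f_pm_001 t 6 13 1 = true := ex3_a k15_pm_001 s32_pm_001

theorem s34_pm_001 : ∃ t, chk3 f_pm_001 t 26 25 1 = true := ex3_b k12_pm_001 k13_pm_001

theorem s35_pm_001 : ∃ t, chk3 f_pm_001 t 13 25 1 = true := ex3_a s34_pm_001 k14_pm_001

theorem s36_pm_001 : ∃ t, chk3 f_pm_001 t 27 24 1 = true := ex3_b k10_pm_001 k11_pm_001

theorem s37_pm_001 : ∃ t, chk3 f_pm_001 t 13 24 1 = true := ex3_a k9_pm_001 s36_pm_001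

theorem s38_pm_001 : ∃ t, chk3 f_pm_001 t 13 12 1 = true := ex3_b s37_pm_001 s35_pm_001

theorem s39_pm_001 : ∃ t, chk3 f_pm_001 t 6 12 1 = true := ex3_a k8_pm_001 s38_pm_001

theorem s40_pm_001 : ∃ t, chk3 f_pm_001 t 6 6 1 = true := ex3_b s39_pm_001 s33_pm_001

theorem s41_pm_001 : ∃ t, chk3 f_pm_001 t 3 6 1 = true := ex3_a s40_pm_001 s31_pm_001

theorem s42_pm_001 : ∃ t, chk3 f_pm_001 t 3 3 1 = true := ex3_b s41_pm_001 s29_pm_001

theorem s43_pm_001 : ∃ t, chk3 f_pm_001 t 14 23 1 = true := ex3_a k5_pm_001 k6_pm_001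

theorem s44_pm_001 : ∃ t, chk3 f_pm_001 t 14 11 1 = true := ex3_b k4_pm_001 s43_pm_001

theorem s45_pm_001 : ∃ t, chk3 f_pm_001 t 7 11 1 = true := ex3_a s44_pm_001 k7_pm_001

theorem s46_pm_001 : ∃ t, chk3 f_pm_001 t 7 5 1 = true := ex3_b k3_pm_001 s45_pm_001

theorem s47_pm_001 : ∃ t, chk3 f_pm_001 t 7 2 1 = true := ex3_b k2_pm_001 s46_pm_001

theorem s48_pm_001 : ∃ t, chk3 f_pm_001 t 3 2 1 = true := ex3_a k1_pm_001 s47_pm_001

theorem s49_pm_001 : ∃ t, chk3 f_pm_001 t 3 1 1 = true := ex3_b s48_pm_001 s42_pm_001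

theorem s50_pm_001 : ∃ t, chk3 f_pm_001 t 1 1 1 = true := ex3_a k0_pm_001 s49_pm_001

theorem c_pm_001 : CertN 0 536870912 536870912 536870912 201326592 134217728 3 false true false .up 0 0 1
    ndN0q0 ndN0q1 pcN0 Cut.none Ext.none :=
  certN0 (fam := false) (s1 := true) (s2 := false) (a := 0) (b := 0) (c := 1) (cn := .up) (n1 := ndN0q0) (n2 := ndN0q1) (pc := pcN0) (cut := Cut.none) (xt := Ext.none) (P1 := 0) (W1 := 536870912) (P2 := 536870912) (W2 := 536870912) (P3 := 201326592) (W3 := 134217728) (N0 := 3)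
    rfl s50_pm_001

end Pool.Agent.Strip051.G.I3_16_5_16.Tab.C.NB00

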