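import Pool.Agent.Strip051.G.I3_16_5_16.Tab

/-! # Certificates N13 (generated) -/

set_option linter.all false
set_option maxRecDepth 100000

namespace Pool.Agent.Strip051.G.I3_16_5_16.Tab.C.NB00

open Pool.Agent.Strip051.PB Pool.Agent.Strip051.PB.T
open Pool.Agent.Strip051.G.I3_16_5_16.Tab

noncomputable def cut_pm_011 : Cut := Cut.of [[⟨0, 0, 0, 67108864⟩, ⟨1, 1, 0, 67108864⟩, ⟨2, 1, 0, 67108864⟩], [⟨0, 0, 1, 67108864⟩, ⟨1, 1, 2, 67108864⟩, ⟨2, 1, 0, 16777216⟩]]

noncomputable def f_pm_011 : ℕ → ℕ → ℕ → ℕ → Bool := onCell 0 536870912 536870912 536870912 201326592 134217728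
    (rowN 3 0 false true false .pnn 0 1 1 (qsf 0 536870912 536870912 536870912 1) ndN0q0 ndN0q1 pcN1 cut_pm_011 Ext.none)

def k0_pm_011 : ∃ t, chk3 f_pm_011 t 2 2 1 = true :=
  ⟨(l 4), by decide +kernel⟩

def k1_pm_011 : ∃ t, chk3 f_pm_011 t 4 6 1 = true :=
  ⟨(l 4), by decide +kernel⟩

def k2_pm_011 : ∃ t, chk3 f_pm_011 t 8 14 1 = true :=
  ⟨(l 4), by decide +kernel⟩

def k3_pm_011 : ∃ t, chk3 f_pm_011 t 9 28 1 = true :=
  ⟨(l 4), by decide +kernel⟩

def k4_pm_011 : ∃ t, chk3 f_pm_011 t 18 29 1 = true :=
  ⟨(l 4), by decide +kernel⟩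

def k5_pm_011 : ∃ t, chk3 f_pm_011 t 19 58 1 = true :=
  ⟨(l 4), by decide +kernel⟩

def k6_pm_011 : ∃ t, chk3 f_pm_011 t 38 59 1 = true :=
  ⟨(l 4), by decide +kernel⟩

def k7_pm_011 : ∃ t, chk3 f_pm_011 t 39 118 1 = true :=
  ⟨(l 4), by decide +kernel⟩

def k8_pm_011 : ∃ t, chk3 f_pm_011 t 78 238 1 = true :=
  ⟨(l 4), by decide +kernel⟩

def k9_pm_011 : ∃ t, chk3 f_pm_011 t 78 239 1 = true :=
  ⟨(a (l 4) (c (b (l 4) (a (b (l 4) (a (l 4) (a (l 4) (a (l 4) (b (l 4) (b (l 4) (b (l 4) (c (l 80228666327) (l 71638730007))))))))) (b (a (l 4) (a (l 4) (b (l 4) (c (c (c (l 97945410151) (l 96871667831)) (b (l 92039825927) (a (l 79154923239) (l 69491247495)))) (b (c (l 88281728503) (l 85060502023)) (c (a (l 74859954951) (l 16786792)) (l 65733148199))))))) (a (a (b (l 4) (c (b (b (l 90966086935) (l 97945409591)) (c (l 68417504663) (l 65196278903))) (b (c (a (l 87744858423) (l 74323083703)) (a (l 80765533911) (l 70028115671))) (l 60901311239)))) (b (b (l 4) (a (c (l 93650441783) (c (l 81839277015) (l 77007437287))) (c (c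 (l 78618052743) (l 74859955623)) (c (l 71101858647) (l 67343761511))))) (c (c (l 58216957415) (l 54995731607)) (c (l 16786648) (l 16786072))))) (c (b (a (b (c (a (l 92039829175) (l 75933698391)) (a (l 82913020119) (l 72175601655))) (l 62511925943)) (l 16786352)) (l 16787384)) (b (a (b (c (a (l 78081180215) (l 68417504567)) (l 68417502215)) (l 16786448)) (l 16786488)) (l 16786184))))))) (b (l 4) (a (b (l 4) (a (l 4) (a (l 4) (a (l 4) (b (l 4) (b (l 4) (c (l 68417501943) (l 59827565895)))))))) (b (a (l 4) (a (l 4) (b (l 4) (c (b (c (l 81302404711) (l 77544307447)) (c (l 61975051207) (l 57143211959))) (c (b (l 72175595671) (l 54995728759)) (l 61438175751)))))) (c (a (b (a (l 4) (b (l 4) (c (l 68954372151) (l 65196275015)))) (a (b (a (l 75396823479) (l 65196277047)) (l 53385117895)) (l 45868926343))) (a (b (a (b (l 68954373127) (l 16785296)) (l 52311375863)) (l 16785088)) (l 16785120))) (a (b (a (l 4) (b (l 4) (l 59290694615))) (c (a (l 57143209415) (l 16784352)) (l 45868918567))) (c (c (l 37278986471) (l 36205245207))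 (l 34594632807))))))))), by decide +kernel⟩

def k10_pm_011 : ∃ t, chk3 f_pm_011 t 79 476 1 = true :=
  ⟨(b (l 4) (b (l 4) (a (l 4) (a (l 4) (a (l 4) (c (c (l 103314122295) (l 109219699703)) (c (l 107072213591) (l 104387856743)))))))), by decide +kernel⟩

def k11_pm_011 : ∃ t, chk3 f_pm_011 t 158 477 1 = true :=
  ⟨(l 4), by decide +kernel⟩

def k12_pm_011 : ∃ t, chk3 f_pm_011 t 159 477 2 = true :=
  ⟨(a (b (l 4) (a (a (l 4) (b (l 4) (b (l 4) (c (c (a (l 94187314135) (l 77007441895)) (a (l 85597376583) (l 73249344967))) (c (a (l 80228665479) (l 69491247895)) (l 72175600103)))))) (a (b (c (l 99556024391) (b (l 4) (c (l 89892342503) (l 86134245079)))) (b (c (c (a (l 88818604663) (l 74859958551)) (a (l 81302408471) (l 71101861607))) (c (l 72175601079) (l 68954375079))) (c (l 16788432) (l 16787184)))) (b (c (c (c (l 97408540871) (l 96334798551)) (b (l 90966085591) (l 73786214823))) (b (c (l 87207988151) (l 83986761703)) (c (l 70028117895) (l 66270020951)))) (c (l 16788440) (l 16787168)))))) (b (a (b (l 4) (c (a (b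 (l 4) (c (l 92576699591) (l 88818603447))) (b (c (l 90429221367) (a (l 95797926215) (l 78618053911))) (c (l 71101861559) (l 67343764759)))) (a (b (l 4) (c (a (l 4) (l 77007440135)) (l 81302407479))) (b (l 95797925511) (l 62511926215))))) (c (b (a (c (c (l 94187315207) (l 92576701895)) (l 101166633031)) (b (c (l 81839284327) (l 77544310951)) (l 16788536))) (c (l 54995733287) (l 16786880))) (b (b (c (l 97408538343) (l 94187311943)) (a (c (l 77544310023) (l 73786212951)) (l 16787272))) (l 47479539975)))) (a (a (c (b (b (c (l 73249344759) (l 70028118887)) (l 16788480)) (l 16788312)) (c (c (l 49090150935) (l 47479537879)) (l 45868925095))) (c (l 16788296) (l 16786984))) (c (l 16787864) (l 16786520))))), by decide +kernel⟩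

def k13_pm_011 : ∃ t, chk3 f_pm_011 t 159 477 3 = true :=
  ⟨(a (b (l 4) (b (b (c (c (l 109219697703) (l 108682825559)) (c (l 107609082551) (l 106535339575))) (a (l 4) (c (a (c (l 82913018647) (l 79154921287)) (l 59290698599)) (a (l 72712467879) (l 52848247367))))) (b (a (l 4) (c (c (l 58216955287) (l 54995729559)) (l 51774504951))) (a (a (l 4) (c (c (l 68417503047) (l 64122534823)) (l 59290696039))) (c (l 16785896) (l 16784624)))))) (b (a (b (l 4) (b (a (l 4) (c (c (l 72712470135) (l 68954372919)) (l 64122534151))) (c (a (c (l 75396824391) (l 71638727191)) (l 16786632)) (c (l 60364436279) (l 56069467783))))) (c (b (a (b (l 4) (l 68954374119)) (c (l 58216955383) (l 53921987175))) (l 16785920)) (b (a (c (l 73786208663) (l 67880627655)) (l 50163891735)) (l 16784632)))) (c (a (c (l 38889604391) (l 36742120759)) (l 16785192)) (c (l 29225926551) (l 27615313239))))), by decide +kernel⟩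

def k14_pm_011 : ∃ t, chk3 f_pm_011 t 158 478 2 = true :=
  ⟨(a (b (l 4) (a (l 4) (b (l 4) (c (c (a (l 102240374807) (b (a (l 94187313623) (l 77544311927)) (l 65733152007))) (a (l 100629763591) (b (a (l 86671118535) (l 73786214807)) (l 16786400)))) (a (c (l 98482278887) (b (l 4) (a (l 78081179895) (l 68954374903)))) (b (c (a (l 79691793943) (l 70028117847)) (a (l 75396825399) (l 66270020727))) (l 57143216663))))))) (b (a (a (l 4) (a (l 4) (b (l 4) (b (l 4) (b (l 4) (c (l 87207991399) (l 74323085879))))))) (a (b (l 4) (c (a (b (l 4) (c (l 78618054247) (l 74859956999))) (b (c (l 90429217271) (l 81839279495)) (l 67880636887))) (b (a (l 4) (b (l 4) (l 71638731687))) (c (l 66270021399) (l 61438182487))))) (a (b (l 4) (b (c (c (l 75933699911) (l 72175603031)) (l 66270022455)) (c (l 16788336) (l 16787104)))) (b (b (l 4) (c (c (l 84523635783) (l 78618053719)) (c (l 74323085335) (l 70564988279)))) (c (l 16787056) (l 16787128)))))) (a (c (b (a (b (l 94187313479) (c (a (l 89892345991) (l 74859957719)) (a (l 80765537015)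 (l 71101860823)))) (b (c (a (l 82376151143) (l 71638732823)) (a (l 77544311431) (l 67880635911))) (l 16788192))) (c (l 16787088) (l 16787776))) (b (b (a (c (l 89355470967) (l 85597373543)) (c (a (l 73249343175) (l 16787264)) (l 64659407591))) (a (c (a (l 76470568455) (l 66806892855)) (l 66806890615)) (l 16786968))) (c (l 16787152) (l 16786536)))) (b (c (l 16788208) (l 16786944)) (l 16787072))))), by decide +kernel⟩

def k15_pm_011 : ∃ t, chk3 f_pm_011 t 158 479 2 = true :=
  ⟨(c (a (b (a (b (a (b (l 4) (c (l 93113569079) (l 89355474247))) (a (b (l 4) (c (l 76470569655) (l 73249343687))) (b (c (l 88281732743) (l 79691794615)) (l 16787856)))) (a (b (c (l 88818603383) (a (l 75933697783) (l 16787464))) (l 16787768)) (l 16787800))) (a (b (c (b (l 67880634935) (l 16788216)) (l 57143215751)) (l 16787672)) (l 16787712))) (l 16786840)) (l 16786080)) (a (b (a (a (b (a (l 4) (b (l 4) (a (l 80228665191) (l 74859955655)))) (c (b (l 66806891031) (l 16786880)) (l 55532600743))) (b (a (b (l 4) (l 67343763111)) (b (a (l 76470568455)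 (l 72175601447)) (l 16786688))) (l 16786592))) (c (c (l 39963344711) (l 38889603415)) (l 37278991143))) (l 16785616)) (l 16787472))), by decide +kernel⟩

def k16_pm_011 : ∃ t, chk3 f_pm_011 t 159 239 2 = true :=
  ⟨(c (a (b (b (a (b (a (b (c (a (l 93650441239) (l 80765538391)) (a (l 92039829239) (l 77007441047))) (c (l 68954377863) (l 65733152167))) (c (l 59827572327) (l 16786784))) (l 16788240)) (l 16787968)) (l 16786904)) (l 16783992)) (l 16789024)) (b (a (b (a (b (a (b (c (a (l 83449891367) (l 72712472903)) (a (l 78618051607) (l 67880634007))) (l 60364442695)) (l 51774508055)) (l 16786952)) (l 16786656)) (l 16785616)) (l 16784552)) (l 16781680))), by decide +kernel⟩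

def k17_pm_011 : ∃ t, chk3 f_pm_011 t 79 239 3 = true :=
  ⟨(a (b (a (b (l 4) (a (l 4) (b (l 4) (b (a (l 4) (c (c (l 67343760407) (l 63048792327)) (l 58216953655))) (a (c (c (l 70028114567) (l 66270017415)) (l 61438179351)) (c (l 16785632) (l 16784448))))))) (b (a (a (l 4) (a (l 4) (c (c (l 104924724919) (l 103314116279)) (c (l 101703502423) (l 100092888631))))) (a (b (l 4) (b (a (l 4) (c (l 67880632679) (l 58216954391))) (c (l 56606343815) (l 50700763527)))) (c (b (b (l 4) (c (l 71638727911) (l 67880630727))) (c (l 50700765319) (l 48553280647))) (b (a (l 4) (b (l 4) (l 58216956023))) (l 44795183895))))) (c (a (b (a (b (c (l 81839276183) (l 78081178903)) (c (l 64122535319) (l 59827567047))) (c (l 53385116855) (l 51237633319))) (l 39426475127)) (l 16785440)) (a (b (a (b (a (l 4) (l 65733146583)) (l 53385115927)) (l 47479537767)) (l 16784368)) (l 16784160))))) (c (a (b (a (b (b (a (l 4) (c (l 73249339623) (l 69491242487))) (a (c (l 78618050583) (l 72712467559)) (l 54458859527))) (c (l 45332052183) (l 43184569559)))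 (c (l 35668378151) (l 34057764919))) (l 16784384)) (l 16786224)) (a (b (b (a (a (b (l 4) (c (l 68954370439) (l 65196273175))) (c (b (l 65733145367) (l 16784624)) (l 54458854455))) (l 37815861511)) (c (l 32984022311) (l 31910279431))) (l 16783152)) (l 16784968)))) (c (b (a (b (a (b (a (b (a (l 73786212439) (l 63585666183)) (l 53921991431)) (l 16785896)) (l 16785664)) (l 16785344)) (l 16784320)) (l 16783264)) (l 16780512)) (b (a (b (a (b (c (a (l 53385114535) (l 16784960)) (l 45332051783)) (l 16784384)) (l 16784032)) (l 16783024)) (l 16781960)) (l 16779312)))), by decide +kernel⟩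

def k18_pm_011 : ∃ t, chk3 f_pm_011 t 8 30 1 = true :=
  ⟨(a (l 4) (b (l 4) (a (l 4) (b (l 4) (a (l 4) (b (l 4) (a (l 4) (b (l 4) (c (a (b (l 4) (a (l 4) (b (l 4) (c (c (a (l 91502942183) (b (l 78618040471) (l 16780096))) (a (l 92039812759) (b (l 77544298807) (l 16779936)))) (a (b (l 4) (l 78618040919)) (b (l 74323074135) (l 16780344))))))) (b (a (l 4) (c (b (l 107609070567) (a (b (l 4) (c (l 64122527175) (l 63585655927))) (b (c (l 59290689111) (l 59290688647)) (l 16780080)))) (b (l 110293424423) (a (b (l 4) (c (l 63048784711) (l 61975042567))) (a (b (l 89355460935) (l 16779832)) (l 22246595607)))))) (c (a (b (a (b (l 4) (c (l 73786202791) (l 72175590215))) (c (b (l 68954365047) (a (l 49627011111) (l 16780032))) (b (l 67343752391) (c (l 39426462375) (l 16779928))))) (c (l 16780936) (l 16779472))) (c (l 16780360) (l 16780216))) (b (b (a (a (l 4) (c (l 66806881143) (l 66806880663))) (l 16779496)) (a (a (c (l 71101848375) (l 70564977143)) (c (l 37278978519) (l 16779632))) (l 16778968))) (c (l 16780400) (l 16779928))))))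 (a (a (l 4) (b (l 4) (b (l 4) (c (a (b (l 4) (l 75933686695)) (b (l 71638719415) (l 16779368))) (a (b (l 4) (l 75396815143)) (c (l 49090139799) (l 48553268583))))))) (b (a (l 4) (c (b (l 112977778295) (c (a (l 81839265719) (l 38352722231)) (a (l 81839264071) (l 37278980071)))) (b (l 116199003095) (c (a (l 74323073511) (l 37278979575)) (a (l 74859943991) (l 36742108327)))))) (c (a (b (a (b (l 4) (l 67343752087)) (c (c (l 44795173015) (l 44795172839)) (l 43721430935))) (l 16780232)) (c (l 16778472) (l 16778320))) (a (b (a (b (l 4) (l 66806880535)) (c (l 43184559703) (l 42647688471))) (l 16778608)) (l 16778744)))))))))))))), by decide +kernel⟩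

def k19_pm_011 : ∃ t, chk3 f_pm_011 t 16 31 1 = true :=
  ⟨(b (b (l 4) (l 6)) (l 6)), by decide +kernel⟩

def k20_pm_011 : ∃ t, chk3 f_pm_011 t 34 124 1 = true :=
  ⟨(a (l 4) (b (l 4) (a (l 4) (b (l 4) (c (a (l 4) (b (l 4) (a (b (l 4) (c (a (b (l 4) (l 99556006087)) (a (b (l 4) (c (l 56606331383) (l 57680072951))) (b (l 90429200375) (l 16780080)))) (a (b (l 4) (l 101166615831)) (b (l 97945391671) (c (c (l 41573945335) (l 43184557815)) (l 38889590871)))))) (c (a (a (b (l 4) (b (c (l 52848234967) (l 52848234791)) (l 16778504))) (b (b (l 4) (l 80228652279)) (l 16779808))) (b (b (c (l 90429198087) (l 90966068807)) (a (c (l 48016396871) (l 48553267511)) (l 16778784))) (l 16779352))) (a (a (b (l 4) (b (a (l 59290686231) (l 38352720423)) (l 16778328))) (b (b (l 4) (l 79154910375)) (l 16779632))) (b (b (c (l 92039810423) (l 92576681143)) (c (l 32984010999) (l 34057752471))) (l 16777896))))))) (a (l 4) (b (l 4) (a (b (l 4) (c (a (b (l 4) (l 102777228199)) (b (l 99556005351) (c (l 41573944999) (l 41037073991)))) (a (b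 (l 4) (l 104387840583)) (b (l 101166615095) (c (l 39963332151) (l 16778904)))))) (a (c (b (b (l 4) (l 96334779863)) (a (c (l 26004688871) (l 26004688679)) (l 16778144))) (b (b (l 4) (l 97945392215)) (c (l 17951624999) (l 16778688)))) (c (b (b (l 93113553063) (a (l 42110816807) (l 16778400))) (l 16777736)) (b (b (l 79691781351) (l 26541560343)) (l 16777568)))))))))))), by decide +kernel⟩

def k21_pm_011 : ∃ t, chk3 f_pm_011 t 68 125 2 = true :=
  ⟨(b (b (l 4) (l 6)) (l 6)), by decide +kernel⟩

def k22_pm_011 : ∃ t, chk3 f_pm_011 t 138 250 2 = true :=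
  ⟨(b (a (l 4) (b (l 4) (a (a (l 4) (b (l 4) (b (l 4) (a (c (l 96334777351) (l 87207973159)) (c (c (l 52848234583) (l 53385105255)) (c (l 54458846855) (l 56069459351))))))) (a (b (l 4) (b (a (c (l 82913006519) (l 82376135447)) (c (c (l 49090138183) (l 49627008903)) (c (l 50700750487) (l 50700750343)))) (c (l 8287949111) (l 16779512)))) (c (b (b (l 4) (a (l 78618039319) (c (l 45332041847) (l 45868912519)))) (l 16779440)) (b (b (l 4) (a (l 77544297239) (a (l 52311363975) (l 16779152)))) (l 16779224))))))) (a (b (a (l 6) (b (b (l 4) (l 6)) (l 6))) (l 6)) (b (a (c (b (c (a (b (a (l 104387841095) (l 56069460087)) (l 15267270359)) (l 16779392)) (a (b (a (l 100629744551) (l 57143201687)) (l 16778960)) (l 16779328))) (l 16779080)) (b (c (a (b (a (l 95797907671) (l 58216943271)) (l 16779544)) (l 16779264)) (a (b (l 66270007287) (l 16778160)) (l 16779192))) (l 16778344))) (b (c (l 16778424) (l 16778344)) (c (l 16778464) (l 16778456)))) (b (c (c (l 16777824) (l 16777840)) (c (l 16777856) (l 16777856))) (c (l 16776560) (c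 (l 16776632) (l 16776672))))))), by decide +kernel⟩

def k23_pm_011 : ∃ t, chk3 f_pm_011 t 139 250 2 = true :=
  ⟨(b (a (b (a (b (l 4) (a (l 4) (b (l 4) (a (c (c (l 73249329559) (l 74323071127)) (l 69491233559)) (c (c (l 37278978199) (l 38352719687)) (l 33520882199)))))) (c (a (a (b (l 4) (b (a (l 89355458103) (l 59290686359)) (l 16778496))) (b (l 107072196407) (c (c (l 14730399959) (l 15267270615)) (l 14193528839)))) (a (b (b (l 4) (c (l 64659394999) (l 66270007463))) (l 16779512)) (b (b (l 104924712391) (a (l 32447140535) (l 16778704))) (l 16777896)))) (a (b (l 109219682535) (b (a (l 65196266263) (l 29762785687)) (l 16778192))) (b (b (l 103850970391) (c (c (l 46942654519) (l 48016396167)) (l 45332041815))) (l 16779216))))) (c (a (b (a (b (a (a (l 94187295639) (l 68954362743)) (b (l 61975040487) (l 16778624))) (l 16779664)) (l 16779360)) (l 16779728)) (c (l 16779104) (l 16779080))) (a (b (a (b (a (l 73786200855) (a (l 48016396631) (l 16779816))) (l 16778200)) (l 16779224)) (l 16779648)) (c (l 16779056) (l 16779024)))))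 (b (c (b (a (a (a (b (c (l 60364427719) (l 61975040199)) (l 16778496)) (c (l 16779848) (l 16779760))) (l 16779360)) (l 16779728)) (c (l 16779104) (l 16779080))) (b (a (a (b (c (c (l 44258299927) (l 45868912423)) (l 42110816391)) (l 16778192)) (l 16779208)) (l 16779624)) (c (l 16779048) (l 16779016)))) (c (a (l 16777824) (c (l 16776520) (l 16776568))) (c (l 16777216) (l 16777232))))) (c (b (a (c (a (l 16777816) (l 16776520)) (a (l 16777832) (l 16776576))) (l 16775288)) (a (l 16775624) (l 16772096))) (b (a (a (l 16777848) (l 16776632)) (l 16775480)) (a (l 16775496) (l 16773736))))), by decide +kernel⟩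

def k24_pm_011 : ∃ t, chk3 f_pm_011 t 69 251 2 = true :=
  ⟨(a (a (l 6) (a (l 6) (a (l 6) (b (c (l 16773776) (l 16772752)) (l 6))))) (a (b (b (c (l 16772120) (l 16772440)) (c (l 16770536) (l 16772672))) (c (l 16769624) (l 16768616))) (b (c (l 16770160) (l 16770144)) (c (l 16767640) (l 16767952))))), by decide +kernel⟩

def k25_pm_011 : ∃ t, chk3 f_pm_011 t 68 125 3 = true :=
  ⟨(b (b (l 4) (l 6)) (l 6)), by decide +kernel⟩

def k26_pm_011 : ∃ t, chk3 f_pm_011 t 138 250 3 = true :=
  ⟨(b (a (l 4) (b (l 4) (a (a (l 4) (b (l 4) (a (c (l 104924714343) (l 107072197703)) (b (l 4) (c (l 49090138263) (l 47479525415)))))) (a (b (l 4) (b (c (c (l 61438168919) (l 61975039671)) (c (l 61975039527) (l 64122523015))) (c (l 16779360) (l 16779208)))) (c (b (b (l 4) (c (l 58216943447) (l 59290685111))) (l 16779088)) (b (b (l 4) (c (l 59290684951) (l 61438168455))) (l 16778944))))))) (a (b (a (l 6) (b (b (l 4) (l 6)) (l 6))) (l 6)) (b (a (b (a (b (c (c (l 66806878055) (l 67343748807)) (c (l 68417490487) (l 68954361255))) (c (l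 16779360) (l 16779216))) (c (l 16779096) (l 16778952))) (c (l 16778256) (l 16778152))) (b (c (l 16778248) (l 16778136)) (c (l 16778416) (l 16778352)))) (a (a (l 6) (c (l 16777568) (l 16777544))) (c (l 16776704) (l 16776712)))))), by decide +kernel⟩

def k27_pm_011 : ∃ t, chk3 f_pm_011 t 139 250 3 = true :=
  ⟨(b (a (b (a (a (l 4) (b (l 4) (b (l 4) (a (c (l 68417491559) (l 67343749479)) (c (l 31910269127) (l 16779520)))))) (a (a (b (l 4) (b (c (l 64122524247) (l 63048782167)) (c (l 16778168) (l 16778000)))) (c (b (l 109756550295) (c (l 16778200) (l 16778112))) (b (l 112440904519) (l 16779304)))) (c (b (b (l 105998453687) (c (l 45332041639) (l 47479524951))) (l 16777752)) (b (b (l 108145936999) (c (l 46942653959) (l 46405782967))) (l 16777600))))) (c (a (b (a (b (a (l 72712458855) (l 36205236407)) (l 16778040)) (l 16779072)) (l 16779544)) (c (l 16778984) (l 16777632))) (a (b (a (b (c (l 56069459495) (l 56069459351)) (l 16777888)) (l 16777616)) (l 16779432)) (c (l 16777584) (l 16777528))))) (c (a (b (b (a (b (c (l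 43184557879) (l 44795170359)) (l 16778024)) (l 16777744)) (l 16779520)) (l 16777808)) (b (c (l 16778968) (l 16778920)) (l 16776656))) (a (b (b (a (c (c (l 24394075591) (l 24394075495)) (l 21709721303)) (l 16777584)) (l 16779400)) (l 16777760)) (b (c (l 16778864) (l 16776184)) (l 16776648))))) (b (a (a (c (l 16777832) (c (l 16777800) (l 16777776))) (c (l 16776680) (l 16776680))) (c (l 16775600) (c (l 16775000) (l 16775016)))) (a (c (c (l 16774944) (l 16774992)) (c (l 16775032) (l 16775056))) (c (l 16772664) (l 16772824))))), by decide +kernel⟩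

def k28_pm_011 : ∃ t, chk3 f_pm_011 t 69 251 3 = true :=
  ⟨(a (b (b (a (l 6) (a (l 6) (b (l 16775688) (l 6)))) (l 6)) (l 6)) (a (a (b (c (l 16772128) (c (l 16773592) (l 16773664))) (l 6)) (c (b (l 16770976) (l 16769056)) (b (l 16772520) (l 16769472)))) (b (c (l 16769904) (c (l 16770792) (l 16770912))) (c (l 16767336) (l 16767816))))), by decide +kernel⟩

def k29_pm_011 : ∃ t, chk3 f_pm_011 t 70 248 1 = true :=
  ⟨(a (l 4) (b (l 4) (c (a (b (l 4) (b (l 4) (b (l 4) (a (l 4) (a (l 4) (c (l 94724168807) (l 95797907495))))))) (b (a (l 4) (a (l 4) (b (l 4) (a (c (l 106535326871) (l 109219680887)) (b (l 4) (c (l 64659397111) (l 64659396663))))))) (c (a (b (a (l 4) (c (l 94724166711) (l 95261037351))) (c (b (a (l 92039811767) (l 34594625175)) (a (c (l 39963334071) (l 39963333943)) (l 16779008))) (a (b (l 92039811511) (l 38889592103)) (a (l 24394077639) (l 16779032))))) (b (c (a (b (l 79691782631) (l 30836528759)) (l 13119788855)) (a (b (l 79154911447) (l 31910270231)) (l 16780144))) (l 16780976))) (a (b (a (l 4) (b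 (l 4) (l 79154911847))) (c (a (b (l 92576682151) (l 38889591927)) (c (l 19025368103) (l 19025367975))) (a (b (l 87744845335) (l 38352720775)) (l 17951626135)))) (b (b (a (a (l 4) (l 69491234823)) (l 22783465271)) (c (l 15804142903) (l 16780216))) (l 16780768)))))) (a (b (l 4) (b (l 4) (a (l 4) (a (l 4) (c (l 102777230567) (l 104387844135)))))) (b (a (l 4) (a (l 4) (b (l 4) (b (l 4) (c (l 72175589383) (l 71638718183)))))) (c (b (c (a (l 101703487927) (a (b (l 79691781383) (l 16778992)) (l 16778776))) (a (l 102777229511) (a (b (l 79691781111) (l 16778864)) (l 16778648)))) (a (a (b (l 84523620375) (l 32984012183)) (b (l 29762786567) (l 16778472))) (l 16777928))) (b (b (a (l 4) (a (l 75396814583) (l 16778672))) (a (a (l 4) (l 79154910983)) (l 10435433799))) (a (a (b (l 84523620039) (l 34057753271)) (a (l 21172851607) (l 16778352))) (l 16777704))))))))), by decide +kernel⟩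

def k30_pm_011 : ∃ t, chk3 f_pm_011 t 140 249 2 = true :=
  ⟨(b (a (l 4) (b (l 4) (b (b (a (l 4) (a (l 4) (a (c (l 73786202071) (l 73249330759)) (c (a (l 48553268823) (l 16779232)) (l 38352721031))))) (a (l 4) (a (a (c (l 81302394119) (l 78081168871)) (c (a (l 54458848711) (l 31910270295)) (l 42647688423))) (c (l 16778936) (l 16778720))))) (c (a (a (a (l 100092877655) (b (l 4) (a (l 64659396119) (l 42647688583)))) (b (a (l 90429200967) (a (l 58753816215) (l 36742108615))) (l 16780240))) (c (l 16779704) (l 16779616))) (a (a (b (l 4) (c (l 67343750119) (l 67343749911))) (b (c (l 63585653767) (l 64122524455)) (l 16778712))) (l 16779640)))))) (a (b (a (b (l 4) (c (a (b (l 4) (c (l 87744843543) (l 88281714247))) (c (b (l 75933685127) (l 26004689655)) (b (l 76470555831) (l 26004689383)))) (c (a (l 95797907191) (b (l 77007426519) (l 16779400))) (a (l 96871648823) (b (l 77007426327) (l 16778648)))))) (a (c (b (b (l 4) (c (a (l 105998454775) (l 65196266503)) (l 73249330359))) (c (c (l 10972304055) (l 10972303959)) (l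 9898562327))) (b (b (l 4) (c (l 73249330151) (l 73786200839))) (c (l 16779808) (l 16779712)))) (b (b (c (c (a (l 104387842055) (l 60901299239)) (l 70028104887)) (c (l 70564975591) (l 70564975367))) (c (c (l 16779624) (l 16778864)) (l 16779776))) (c (l 16778040) (l 16777880))))) (c (c (b (a (a (a (b (l 44258300391) (l 16778544)) (l 16778544)) (l 16778080)) (l 16777128)) (l 16779104)) (b (a (a (b (l 29225914919) (l 16778312)) (l 16778008)) (l 16777080)) (l 16779072))) (b (a (a (a (b (l 38889591767) (l 16778320)) (l 16778320)) (l 16777888)) (l 16779616)) (c (l 16779040) (l 16779000))))) (c (a (b (b (c (l 16779704) (l 16779608)) (l 16779720)) (l 16777816)) (b (l 16779088) (l 16776544))) (b (a (a (c (l 16779224) (l 16779144)) (l 16779904)) (l 16779008)) (c (l 16777200) (l 16777208)))))), by decide +kernel⟩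

def k31_pm_011 : ∃ t, chk3 f_pm_011 t 141 249 2 = true :=
  ⟨(b (a (a (b (a (b (l 4) (c (b (l 106535326215) (a (l 68954363959) (l 32984012423))) (b (l 108682809383) (c (l 52848235623) (l 52848235399))))) (b (c (l 106535329239) (l 108682812407)) (b (a (c (c (l 67880621543) (l 67343750391)) (l 63585654391)) (c (l 28152174247) (l 16780368))) (c (l 16778944) (l 16778720))))) (b (c (l 16779664) (l 16779472)) (c (l 16779720) (l 16776976)))) (c (b (b (a (b (l 104387845223) (c (c (l 47479526711) (l 46942655847)) (l 46942655655))) (b (c (c (l 44258301223) (l 44258301191)) (l 42647688423)) (l 16778944))) (l 16779664)) (l 16779088)) (b (b (a (b (l 99019132967) (c (l 45868913767) (l 45868913527))) (a (b (l 53921978023) (l 16778848)) (l 16778848))) (l 16779464)) (l 16779000)))) (c (a (b (c (l 16779408) (l 16779000)) (l 16777816)) (c (l 16779128) (l 16779128))) (b (a (c (l 16778920) (l 16778832)) (l 16778992)) (l 16778504)))) (a (b (c (c (l 16777168) (l 16777184)) (l 16777856)) (a (b (l 16775960) (l 16774720)) (a (l 16775720)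 (l 16775096)))) (c (c (l 16775912) (l 16774728)) (b (l 16777408) (l 16775000))))), by decide +kernel⟩

def k32_pm_011 : ∃ t, chk3 f_pm_011 t 140 249 3 = true :=
  ⟨(b (a (l 4) (b (l 4) (a (b (l 4) (c (b (a (l 4) (c (l 64659395143) (l 64659394935))) (a (c (l 67880620599) (l 67880620391)) (l 16778504))) (c (a (l 90429197207) (c (l 41573945383) (l 41573945271))) (a (l 91502938823) (c (l 40500203511) (l 40500203415)))))) (c (b (a (b (l 4) (c (l 60901298807) (l 60901298583))) (b (c (l 56069460695) (l 55532589575)) (l 16778496))) (l 16779280)) (b (a (b (l 4) (c (l 60901298375) (l 59290685431))) (c (c (l 36205236295) (l 36742107095)) (l 35131494359))) (l 16779080)))))) (a (b (c (c (a (b (l 4) (a (l 97408519543) (b (l 77544297031) (l 16778552)))) (b (a (l 93113552215) (b (l 71101846071) (l 16778552))) (l 16779344))) (a (b (l 4) (a (l 98482261175) (b (l 78081167735) (l 16778448)))) (b (a (l 94187293847) (b (l 71638716775) (l 16778448))) (l 16779248)))) (a (b (l 4) (a (b (l 4) (l 74859943127)) (b (l 71101846727) (l 16779608))))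 (b (a (b (l 4) (l 67880621239)) (b (c (l 71638716567) (l 72175587271)) (l 16778296))) (c (l 16779160) (l 16777752))))) (c (a (b (a (c (l 12046045399) (l 16779520)) (l 16777720)) (l 16779504)) (l 16778920)) (a (b (c (l 16779168) (l 16779080)) (l 16776744)) (l 16778720)))) (c (b (a (a (b (l 16779560) (l 16777144)) (l 16779760)) (l 16778904)) (c (l 16777200) (l 16777184))) (b (a (b (l 16779096) (l 16776712)) (l 16778776)) (c (l 16777160) (l 16777120)))))), by decide +kernel⟩

def k33_pm_011 : ∃ t, chk3 f_pm_011 t 141 249 3 = true :=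
  ⟨(b (a (a (a (b (b (l 4) (c (b (l 111367163479) (c (l 52311364263) (l 52311364055))) (b (l 114051517575) (l 46405784679)))) (b (c (l 16778232) (l 16778016)) (l 16779664))) (b (c (b (l 107609067495) (a (c (l 39963333111) (l 38889591207)) (l 16779920))) (b (l 109756550679) (c (l 31373398039) (l 30299656151)))) (c (l 16779744) (l 16779568)))) (c (b (b (a (b (l 100629745207) (c (l 45332042375) (l 44795171239))) (c (l 24394076823) (l 26541559975))) (l 16779264)) (l 16778880)) (b (b (a (b (l 101703486551) (l 40500204407)) (b (l 37278978807) (l 16778248))) (l 16777736)) (l 16778744)))) (b (a (c (c (l 16778736) (l 16777336)) (c (l 16777240) (l 16777136))) (c (l 16778864) (l 16778712))) (c (l 16778464) (c (l 16777104) (l 16777056))))) (b (a (c (c (l 16777184) (l 16777160)) (c (l 16777128) (l 16777088))) (c (l 16774872) (l 16774896))) (a (c (l 16774888) (l 16774920)) (c (l 16775208) (l 16775328))))), by decide +kernel⟩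

def k34_pm_011 : ∃ t, chk3 f_pm_011 t 142 248 2 = true :=
  ⟨(b (a (b (l 4) (b (l 4) (b (l 4) (a (l 4) (a (l 4) (a (c (l 89355460343) (l 81839264519)) (c (l 44795173431) (l 43721431047)))))))) (b (a (l 4) (b (l 4) (c (a (l 105998456599) (b (l 103314104311) (c (l 45332044423) (l 44795173175)))) (a (l 108145942247) (b (l 104924716407) (c (l 44258301959) (l 43721430663))))))) (c (a (a (b (l 107072198407) (b (b (l 75933685207) (l 41037077111)) (l 16779520))) (b (b (l 105998456215) (a (l 72175588855) (l 37278980071))) (l 16779248))) (b (a (b (b (l 64122526007) (l 34594625303)) (l 16779528)) (l 16779256)) (l 16778360))) (b (b (a (l 109219681447) (a (a (l 63585654919) (l 16779216)) (l 16779240))) (a (a (l 109219681063) (c (l 52311365639) (l 51237623527))) (l 16778976))) (a (a (b (c (l 56606332887) (l 56606332615)) (l 16779232)) (l 16778976)) (l 16778128)))))) (b (a (c (b (b (a (l 4) (a (a (l 92039814711) (l 49627011703)) (l 16779512))) (a (a (l 4) (c (l 68417493383) (l 68417493095))) (l 16780552))) (a (b (a (c (l 72712460647)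 (l 72175589447)) (l 16780800)) (c (l 16780608) (l 16779168))) (l 16778352))) (b (b (b (a (l 4) (a (l 85060489863) (l 16779336))) (a (l 4) (c (l 31373399415) (l 30299657559)))) (a (a (l 4) (c (l 68417492823) (l 68417492535))) (l 16780288))) (a (a (b (a (l 98482264647) (l 59290687559)) (l 16780520)) (l 16780288)) (l 16778136)))) (a (c (l 16780360) (l 16780168)) (c (l 16779104) (l 16778976)))) (c (b (a (c (l 16779088) (l 16779000)) (l 16780456)) (a (l 16779096) (l 16779184))) (b (a (c (l 16778912) (l 16778816)) (l 16777784)) (a (l 16778984) (l 16779200)))))), by decide +kernel⟩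

def k35_pm_011 : ∃ t, chk3 f_pm_011 t 143 248 2 = true :=
  ⟨(b (a (b (c (a (a (a (b (l 4) (b (l 55532591223) (l 16779664))) (b (l 103314104503) (l 16779664))) (b (c (b (l 100092879031) (l 37278980775)) (b (l 100629749607) (l 36742109543))) (l 16779264))) (b (a (a (c (l 24930949735) (l 16780472)) (l 16779680)) (l 16779264)) (l 16778368))) (a (a (b (b (l 4) (l 92576686407)) (c (c (l 27615303319) (l 27615303255)) (l 26541561367))) (b (b (l 84523620279) (l 34057754999)) (l 16778976))) (b (c (l 8824822103) (l 16780464)) (l 16778120)))) (c (c (l 16779776) (l 16779696)) (c (l 16779616) (l 16779528)))) (b (c (c (l 16779792) (l 16779704)) (c (l 16779616) (l 16779520))) (c (l 16779840) (l 16779800)))) (a (c (b (l 16779824) (l 16777280)) (c (l 16778592) (l 16777296))) (c (b (l 16777296) (l 16774752)) (c (l 16776168) (l 16776232))))), by decide +kernel⟩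

def k36_pm_011 : ∃ t, chk3 f_pm_011 t 142 248 3 = true :=
  ⟨(b (a (b (l 4) (b (l 4) (b (l 4) (a (l 4) (a (l 4) (c (c (l 60364428743) (l 60364428343)) (l 56069461735))))))) (b (b (l 4) (a (l 4) (b (c (l 101703490695) (l 103314102823)) (c (a (l 108682809543) (l 39963334823)) (a (l 98482265223) (l 38352721495)))))) (c (b (b (a (l 111367167143) (c (l 30836528503) (l 29762786535))) (a (a (l 111367164119) (l 48553269287)) (l 16778696))) (b (a (a (a (l 72175589031) (l 16779216)) (l 16778944)) (l 16778160)) (l 16778984))) (b (a (a (l 115125260343) (c (l 67343750983) (l 67343750695))) (c (l 21709722135) (l 21172851095))) (a (a (b (l 50700752631) (l 16778664)) (l 16778424)) (l 16777632)))))) (b (a (c (a (a (b (l 4) (b (l 68417493015) (l 16778944))) (b (b (l 4) (l 65196267479)) (l 16778712))) (a (b (b (a (l 85597360567) (l 46942656055)) (l 16778944)) (l 16778184)) (l 16778832))) (b (b (a (l 4) (a (l 59827558135) (l 16778672))) (a (a (l 4) (l 64122525447)) (l 16778440))) (b (a (a (l 67880621815) (l 16778672)) (l 16777936))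 (c (l 16778000) (l 16777880))))) (c (c (l 16779440) (l 16779344)) (c (l 16779248) (l 16779144)))) (a (a (c (c (l 16777408) (l 16777312)) (c (l 16777208) (l 16777096))) (c (l 16778840) (l 16778680))) (c (l 16777128) (l 16777024))))), by decide +kernel⟩

def k37_pm_011 : ∃ t, chk3 f_pm_011 t 143 248 3 = true :=
  ⟨(b (b (c (a (a (b (a (l 99019134791) (b (l 81302395159) (l 31910271063))) (c (c (l 16877884583) (l 16780280)) (l 16341013463))) (c (c (l 16779824) (l 16779752)) (l 16779648))) (c (l 16779416) (l 16776680))) (a (a (b (a (l 100092877319) (c (l 56069461159) (l 56069461527))) (c (l 16780016) (l 16778552))) (c (l 16779504) (l 16778048))) (c (l 16776568) (l 16776448)))) (c (a (c (l 16779432) (l 16779328)) (l 16777096)) (a (c (l 16779216) (l 16776480)) (l 16776960)))) (c (a (a (l 16777856) (l 16778016)) (l 16776304)) (a (b (l 16776992) (l 16777432)) (c (l 16776320) (l 16776304))))), by decide +kernel⟩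

def k38_pm_011 : ∃ t, chk3 f_pm_011 t 71 249 1 = true :=
  ⟨(c (a (b (c (b (a (l 16777184) (l 16777272)) (c (l 16775928) (l 16776048))) (a (b (l 16777184) (l 16777400)) (b (l 16777400) (l 16775000)))) (a (c (l 16773440) (l 16773792)) (c (l 16770904) (l 16771392)))) (a (b (c (l 16773464) (l 16773800)) (c (l 16768432) (l 16769000))) (b (c (l 16770936) (l 16771408)) (c (l 16766528) (l 16771856))))) (a (b (b (a (c (l 16777144) (l 16777048)) (c (l 16777464) (l 16777456))) (a (c (l 16777480) (l 16774864)) (b (l 16775792) (l 16774680)))) (a (c (l 16774048) (c (l 16774176) (l 16774232))) (c (l 16771760) (l 16772000)))) (b (b (c (c (l 16773976) (l 16774064)) (l 16774144)) (c (l 16771744) (l 16771968))) (c (c (l 16768216) (l 16768440)) (c (l 16768624) (l 16768768)))))), by decide +kernel⟩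

def k39_pm_011 : ∃ t, chk3 f_pm_011 t 70 125 1 = true :=
  ⟨(c (b (a (b (b (a (c (c (l 16777160) (l 16777192)) (c (l 16777208) (l 16777216))) (c (l 16775936) (c (l 16777384) (l 16774832)))) (a (c (l 16775944) (l 16776120)) (c (l 16774704) (l 16775016)))) (c (a (b (l 16774704) (l 16772648)) (l 16770280)) (a (c (l 16772424) (l 16772600)) (l 16771416)))) (b (a (c (c (l 16773320) (l 16773528)) (c (l 16773720) (l 16773880))) (c (l 16770992) (l 16771400))) (c (c (l 16767760) (l 16767264)) (l 16767904)))) (a (b (c (c (l 16768320) (l 16767824)) (c (l 16767360) (l 16766944))) (c (c (l 16765248) (l 16764584)) (c (l 16762648) (l 16764696)))) (b (c (c (l 16764728) (l 16765368)) (l 16764456)) (c (l 16763048) (l 16760984))))) (b (a (a (b (c (c (b (l 16777216) (l 16774904)) (b (l 16777208) (l 16774944))) (b (c (l 16777184) (l 16777152)) (l 16776288))) (a (c (l 16773384) (l 16773560)) (b (l 16773472) (l 16772552)))) (b (b (c (l 16774904) (l 16774952)) (c (l 16775240) (l 16772760))) (c (l 16771824) (c (l 16772048) (l 16772160)))))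 (a (b (c (c (l 16774024) (l 16772824)) (c (l 16772912) (l 16772976))) (c (l 16769528) (l 16769896))) (b (c (l 16771784) (l 16772048)) (c (l 16767240) (l 16767688))))) (a (b (c (l 16767848) (a (l 16769960) (l 16767752))) (c (l 16763920) (l 16763200))) (b (c (l 16763848) (l 16764448)) (c (l 16759656) (l 16760120)))))), by decide +kernel⟩

def k40_pm_011 : ∃ t, chk3 f_pm_011 t 71 125 1 = true :=
  ⟨(c (b (a (b (c (l 16767856) (l 16767144)) (c (l 16765088) (l 16763856))) (b (c (l 16764408) (l 16763184)) (c (l 16761328) (l 16759776)))) (a (b (c (l 16761984) (l 16760416)) (c (l 16758856) (l 16756968))) (a (c (a (l 16758088) (l 16757152)) (l 16755656)) (c (l 16757768) (l 16753672))))) (b (a (c (b (c (l 16768232) (l 16768464)) (l 16763816)) (b (c (l 16768656) (l 16768816)) (l 16761776))) (c (b (l 16763800) (l 16764520)) (b (l 16763048) (l 16760024)))) (a (b (a (l 16760824) (l 16758600)) (l 16757272)) (c (l 16755616) (l 16754776))))), by decide +kernel⟩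

def k41_pm_011 : ∃ t, chk3 f_pm_011 t 17 126 1 = true :=
  ⟨(a (a (l 6) (a (l 6) (b (b (a (l 6) (c (c (l 16764440) (l 16764432)) (l 16763840))) (l 6)) (l 6)))) (b (c (a (b (a (c (c (l 16763464) (l 16762624)) (l 16761472)) (c (c (l 16759976) (l 16758960)) (l 16757568))) (c (a (b (l 16760688) (a (l 6) (l 16758424))) (c (l 16760000) (l 16756288))) (a (c (l 16761352) (l 16760496)) (l 16757416)))) (c (b (a (a (l 16756848) (l 16755104)) (l 16755304)) (a (l 16754368) (l 16746720))) (b (a (l 16756504) (l 16752952)) (c (l 16751488) (l 16750448))))) (a (b (a (c (l 16760136) (l 16760192)) (c (l 16755952) (l 16755752))) (a (c (c (l 16757088) (l 16756360)) (l 16758120)) (c (l 16755664) (l 16754184)))) (a (b (a (l 16754736) (l 16755344)) (l 16752720)) (b (l 16753304) (l 16749400))))) (a (b (a (c (c (l 16757560) (l 16756400)) (c (l 16754792) (l 16753392))) (c (c (l 16755816) (l 16753912)) (c (l 16752192) (l 16755896)))) (a (l 6) (c (c (c (l 16749904) (l 16749032)) (l 16747760)) (c (l 16746120) (l 16744560))))) (b (a (c (c (l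 16753472) (l 16746240)) (c (l 16744408) (l 16742720))) (c (c (l 16745928) (l 16743848)) (c (l 16741896) (l 16740072)))) (a (c (c (l 16749864) (l 16745432)) (c (l 16743680) (l 16741968))) (c (c (l 16745040) (l 16743144)) (c (l 16741264) (l 16739408)))))))), by decide +kernel⟩

def k42_pm_011 : ∃ t, chk3 f_pm_011 t 17 127 1 = true :=
  ⟨(a (l 6) (b (c (b (b (c (a (c (l 16750016) (l 16749264)) (c (l 16745792) (l 16744944))) (a (c (l 16748512) (l 16747760)) (c (l 16744096) (l 16743224)))) (a (l 6) (a (c (l 16745840) (l 16744288)) (c (l 16743792) (l 16742136))))) (a (l 6) (c (c (a (l 16745336) (l 16743464)) (a (l 16744672) (l 16742736))) (c (b (l 16743128) (l 16747896)) (b (l 16742336) (l 16747128)))))) (b (b (a (c (l 16751880) (l 16750392)) (c (l 16741904) (l 16740104))) (a (l 6) (c (l 16741504) (l 16739696)))) (a (l 6) (b (c (l 16746328) (l 16739272)) (a (c (l 16741760) (l 16740024)) (c (l 16739520) (l 16737592))))))) (c (a (l 6) (a (b (b (c (l 16746576) (l 16742456)) (l 6)) (l 6)) (b (c (c (l 16742432) (l 16741504))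 (l 16742656)) (c (a (c (l 16742024) (l 16740736)) (c (l 16741232) (l 16739880))) (c (l 16738968) (l 16737600)))))) (a (l 6) (a (a (l 6) (b (c (l 16739624) (l 16737528)) (l 6))) (b (c (l 16737920) (l 16735632)) (c (l 16736824) (l 16732664)))))))), by decide +kernel⟩

def k43_pm_011 : ∃ t, chk3 f_pm_011 t 36 60 1 = true :=
  ⟨(l 4), by decide +kernel⟩

def k44_pm_011 : ∃ t, chk3 f_pm_011 t 37 120 1 = true :=
  ⟨(l 4), by decide +kernel⟩

def k45_pm_011 : ∃ t, chk3 f_pm_011 t 74 121 1 = true :=
  ⟨(l 4), by decide +kernel⟩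

def k46_pm_011 : ∃ t, chk3 f_pm_011 t 75 242 1 = true :=
  ⟨(l 4), by decide +kernel⟩

def k47_pm_011 : ∃ t, chk3 f_pm_011 t 150 243 1 = true :=
  ⟨(b (l 4) (c (a (l 4) (b (a (l 4) (b (l 4) (c (l 105998468135) (l 106535337543)))) (c (b (a (l 107609075559) (a (b (l 103314107895) (c (l 82376144887) (l 80228660311))) (b (c (l 78618048199) (l 75396821703)) (l 16783376)))) (a (a (b (l 107072204119) (l 88281725719)) (b (c (l 86134241399) (l 83986756759)) (l 16783296))) (l 16783032))) (b (b (a (l 4) (a (l 102240364663) (c (l 71638724135) (l 67343755575)))) (a (l 107609073815) (a (c (l 77007433767) (l 73786207207)) (l 16782656)))) (a (a (b (l 106535331783) (l 85060498727)) (b (c (l 81839272295) (l 79154916823)) (l 16782600))) (l 16782320)))))) (a (l 4) (b (a (l 4) (b (l 4) (c (l 107609077911) (l 107609076487)))) (b (a (c (l 110293427207) (l 111367172871)) (c (a (b (l 99556012375) (l 70028110711)) (c (l 46405786679) (l 16780560))) (a (b (l 97408527607) (l 53385108391)) (l 41037077447)))) (a (c (a (b (l 105998459511) (l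 80228659079)) (b (l 75396820359) (l 16781904))) (c (a (l 89892335319) (l 48016397575)) (a (l 87744851111) (l 45868913735)))) (c (l 16781616) (l 16780904)))))))), by decide +kernel⟩

def k48_pm_011 : ∃ t, chk3 f_pm_011 t 151 486 1 = true :=
  ⟨(c (a (b (l 4) (a (l 4) (a (l 4) (b (l 4) (b (l 4) (c (l 90429210183) (l 86671112247))))))) (b (a (l 4) (b (l 4) (c (a (l 104387850775) (b (l 99556012615) (c (l 76470565175) (l 72712467543)))) (a (l 104387849191) (b (l 96871660231) (l 67880628871)))))) (c (a (b (a (l 107072205207) (b (l 103850979655) (c (l 85060500375) (l 82376144775)))) (a (b (l 87207984759) (l 16783784)) (l 16783712))) (b (a (b (c (l 80765532871) (l 77544306247)) (l 16783872)) (l 16783776)) (l 16783184))) (a (b (a (l 107609074551) (b (l 102240365431) (l 78618048119))) (a (b (l 82913015767) (l 16783040)) (l 16782952))) (a (b (b (l 73786209575) (l 16783104)) (l 16782624)) (l 16782632)))))) (a (b (l 4) (a (l 4) (a (l 4) (b (l 4) (b (l 4) (c (l 81839272343) (l 75396819367))))))) (b (b (l 4) (a (l 4) (c (a (l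 103314105863) (b (l 93650433095) (l 52848240023))) (a (l 101703496919) (b (l 89892335431) (l 16781768)))))) (c (b (a (a (l 107609073031) (b (l 100092880343) (l 71638724007))) (c (c (l 41037077895) (l 39963335847)) (l 38889593943))) (b (a (a (l 77007433799) (l 16782320)) (l 16781864)) (l 16781856))) (a (b (a (l 107072200647) (b (l 97408528039) (l 54458850999))) (c (c (l 42647688679) (l 41573946487)) (l 39963333847))) (c (l 30299658215) (l 16781080))))))), by decide +kernel⟩

def k49_pm_011 : ∃ t, chk3 f_pm_011 t 151 487 1 = true :=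
  ⟨(c (a (b (c (a (b (a (l 4) (l 101166627223)) (a (b (l 99019140839) (c (l 73786209655) (l 70028111991))) (c (c (l 54458854903) (l 52848241463)) (l 46942659415)))) (b (a (b (l 93113564775) (l 62511920247)) (l 42647693959)) (l 16783112))) (b (a (a (l 4) (l 100092886567)) (a (b (l 90429208679) (l 16782952)) (l 16782896))) (a (a (b (l 96334788535) (l 65733144535)) (c (l 16781696) (l 16782648))) (l 16782376)))) (c (l 16784768) (l 16784080))) (b (c (l 16782192) (l 16781480)) (l 16784896))) (a (b (c (a (b (a (l 4) (l 98482272439)) (a (b (l 93650432711) (l 51237626375)) (l 16782104))) (a (b (b (l 86134239783) (l 16782224)) (l 16781824)) (l 16781832))) (a (b (a (l 4) (l 96334787463)) (a (b (l 90429206039) (l 16781448)) (l 16781384))) (a (b (b (l 81302399911) (l 16781504)) (l 16781088)) (l 16781088)))) (c (l 16780760) (l 16780048))) (c (c (l 16779928) (l 16779592)) (l 16781688)))), by decide +kernel⟩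

def k50_pm_011 : ∃ t, chk3 f_pm_011 t 72 122 1 = true :=
  ⟨(l 4), by decide +kernel⟩

def k51_pm_011 : ∃ t, chk3 f_pm_011 t 73 244 1 = true :=
  ⟨(l 4), by decide +kernel⟩

def k52_pm_011 : ∃ t, chk3 f_pm_011 t 146 245 1 = true :=
  ⟨(a (l 4) (a (l 4) (a (l 4) (b (l 4) (b (l 4) (b (l 4) (c (c (l 103314107303) (l 104387848103)) (c (l 105461591543) (b (l 4) (l 94187300295)))))))))), by decide +kernel⟩

def k53_pm_011 : ∃ t, chk3 f_pm_011 t 147 245 2 = true :=
  ⟨(b (a (l 4) (b (l 4) (a (l 4) (b (l 4) (c (a (l 105998460055) (b (l 102240363463) (a (l 84523626199) (l 16781992)))) (a (l 107072200759) (b (l 101703491447) (c (l 68954367735) (l 66806883143))))))))) (a (b (a (l 4) (a (l 4) (b (l 4) (a (c (l 103850975879) (l 104387845719)) (b (l 4) (c (l 79691787543) (l 75933689847))))))) (c (a (a (b (l 4) (a (b (l 106535330071) (l 74323077735)) (b (l 90966076535) (l 16781536)))) (b (b (l 4) (l 95261043527)) (b (a (l 68954368247) (l 16781568)) (l 16781280)))) (a (b (a (b (l 100092881863) (l 63048787831)) (b (l 83986754839)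 (l 16781592))) (l 16781056)) (c (c (l 27078433063) (l 16781128)) (l 16780288)))) (a (a (b (l 4) (b (l 96871657815) (a (l 69491238231) (l 16781040)))) (b (b (l 4) (l 90429205815)) (c (c (l 41037076583) (l 39963334519)) (l 38352721559)))) (a (b (b (a (l 99556010087) (l 80765528311)) (l 45868916567)) (l 16780568)) (c (l 16780696) (l 16780448)))))) (b (c (a (a (b (l 107609072759) (b (c (l 83986755303) (l 82913013079)) (l 16781712))) (b (a (l 100092882199) (b (l 102240365751) (l 69491239671))) (l 16781552))) (a (b (b (a (l 88281722535) (l 63585659095)) (l 16781760)) (l 16781096)) (l 16781104))) (a (a (b (l 109219684391) (b (a (l 92576688631) (l 70028109431)) (l 16781192))) (b (a (l 100092883751) (b (l 101703493911) (l 63585658023))) (l 16781024))) (a (b (a (b (l 85060496071) (l 16781296)) (l 41037078279)) (l 16780584)) (l 16780592)))) (c (l 16782328) (l 16781888))))), by decide +kernel⟩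

def k54_pm_011 : ∃ t, chk3 f_pm_011 t 147 245 3 = true :=
  ⟨(b (a (l 4) (b (l 4) (a (l 4) (b (l 4) (c (a (l 108145941479) (b (l 97408526855) (c (l 64122527735) (l 59827559415)))) (a (l 108682816567) (c (l 58216947191) (l 57143205207)))))))) (a (b (a (l 4) (a (l 4) (b (l 4) (c (c (l 77544299367) (l 75933686823)) (c (l 74323074343) (l 72712461863)))))) (c (c (a (b (l 93113556535) (a (b (l 93113558743) (l 51774494999)) (l 16780592))) (b (a (l 46942658903) (l 16780616)) (l 16779960))) (a (b (l 93113555367) (a (l 53385109447) (l 16780344))) (b (a (l 45868916551) (l 16780360)) (l 16779712)))) (c (a (b (l 93113554871) (a (l 52311366999) (l 16780096))) (b (c (l 33520884887) (l 32984013735)) (l 16779472))) (a (b (l 93113554375) (c (l 38352722631) (l 37815851479))) (b (l 31910271863) (l 16779224)))))) (b (c (a (b (a (l 110830296039) (b (l 106535328487) (c (l 74859947319) (l 72712462759)))) (b (c (l 39963335239) (l 37815851399)) (l 16780496))) (a (c (l 19562242327) (l 19025370887)) (l 16780072))) (a (b (a (l 112440907719)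 (c (l 66270011079) (l 64659398071))) (c (l 27078434119) (l 26004691703))) (c (l 14193532231) (l 16779632)))) (c (l 16781432) (l 16780968))))), by decide +kernel⟩

def k55_pm_011 : ∃ t, chk3 f_pm_011 t 144 246 1 = true :=
  ⟨(l 4), by decide +kernel⟩

def k56_pm_011 : ∃ t, chk3 f_pm_011 t 145 492 1 = true :=
  ⟨(l 4), by decide +kernel⟩

def k57_pm_011 : ∃ t, chk3 f_pm_011 t 145 493 2 = true :=
  ⟨(a (b (l 4) (c (a (b (l 4) (a (l 4) (b (l 4) (c (a (l 94724170727) (l 72712463143)) (l 64659396215))))) (a (a (b (l 4) (b (l 89892333223) (l 16780736))) (b (l 106535329063) (b (a (l 74859947191) (l 16780848)) (l 16780536)))) (a (b (b (l 4) (l 86671108023)) (l 16780544)) (b (b (l 99556009399) (c (l 61975044055) (l 59290688823))) (l 16780304))))) (a (b (l 4) (a (l 4) (b (l 4) (c (l 63585654391) (l 61438171111))))) (a (b (l 109219682935) (b (c (l 58753816023) (l 57680074135)) (l 16780232))) (b (b (l 105998457127) (c (l 54995719111) (l 52311364647))) (l 16780024)))))) (b (c (a (b (l 4) (a (l 105461587431) (b (l 101703490775)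 (a (a (l 87207978631) (l 73786205495)) (l 16780960))))) (a (b (b (l 4) (l 99556009783)) (c (l 29762788951) (l 28152176071))) (a (b (b (l 105998458279) (c (l 71101850599) (l 68954366359))) (l 16780584)) (b (b (l 88818591959) (l 16781016)) (l 16780328))))) (a (b (l 4) (b (l 105998460087) (b (c (l 74859945415) (l 73249332919)) (a (l 97408525399) (l 16780528))))) (b (b (a (l 4) (l 96334783479)) (a (l 99556011511) (a (l 65733141143) (l 16780568)))) (c (l 19562241399) (l 16781464))))) (c (b (b (b (a (a (a (l 97945396295) (l 16780968)) (l 16780792)) (l 16780048)) (c (l 16781728) (l 16780208))) (l 16781216)) (l 16781648)) (b (b (a (c (l 31373401863) (l 30299659623)) (l 16779520)) (l 16782136)) (l 16778688))))), by decide +kernel⟩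

def k58_pm_011 : ∃ t, chk3 f_pm_011 t 145 493 3 = true :=
  ⟨(b (a (l 4) (b (a (l 4) (c (a (b (l 4) (l 99019139735)) (c (c (l 53385108999) (l 52848237799)) (l 52848237815))) (a (l 92039813303) (c (l 52311366487) (l 49627011527))))) (c (a (a (l 108682816407) (b (l 102240365175) (a (l 73249333687) (l 16780104)))) (c (l 16779936) (l 16779728))) (a (a (l 99019133895) (c (l 59290688439) (l 58753816983))) (l 16780712))))) (b (a (a (l 4) (c (a (l 111367165735) (b (l 107072198103) (l 49090140455))) (a (l 113514648567) (c (l 65733139399) (l 65196268119))))) (a (c (c (l 22246595479) (l 21709724151)) (c (l 16779512) (l 16779304))) (l 16781288))) (a (b (a (l 4) (c (c (l 35668368423) (l 35131497015)) (c (l 34057754711) (l 32984012487)))) (a (a (l 4) (c (l 57680075735) (l 54458850167))) (c (l 16779616) (l 16779216)))) (c (l 16778336) (l 16777960))))), by decide +kernel⟩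

def k59_pm_011 : ∃ t, chk3 f_pm_011 t 144 247 2 = true :=
  ⟨(b (b (a (l 4) (c (a (b (l 4) (a (l 4) (b (l 4) (c (l 97408525463) (l 97408525063))))) (a (a (b (l 4) (b (l 100629750583) (c (l 62511914791) (l 60901301511)))) (b (l 4) (b (l 82913011239) (l 16780488)))) (b (b (l 4) (a (l 97945396311) (c (l 81302398071) (l 80228655911)))) (l 16341015623)))) (c (a (b (l 4) (a (l 4) (l 90966071383))) (a (b (l 4) (a (l 61438172951) (l 40500206871))) (b (l 85060492679) (c (l 34057752983) (l 16779392))))) (a (b (l 4) (l 96871652695)) (a (b (l 4) (a (l 61438172439) (l 39426464663))) (b (l 85060490967) (l 31910269063))))))) (a (a (b (l 4) (c (l 106535330071) (l 109219685207))) (a (b (l 4) (b (c (l 103314102583) (l 104387843639)) (c (c (l 48016399607) (l 46405786839)) (c (l 44795173751) (l 43721431479))))) (c (b (l 104387847383) (b (c (l 44795173495) (l 42647689879)) (l 16780112))) (b (l 96334782935) (c (l 26541562855) (l 27078433319)))))) (c (a (b (a (b (l 99556008871) (c (l 43721430359) (l 41573946663))) (c (l 20635983463)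 (l 16780920))) (l 16779584)) (l 16781624)) (a (b (a (b (l 100092878999) (l 35668368119)) (a (l 24930950327) (l 16779880))) (l 16779240)) (l 16781304))))) (c (a (b (a (b (a (b (l 105998457111) (c (l 55532592711) (l 54995721447))) (b (c (l 51237625463) (l 50700754119)) (l 16780096))) (l 16779568)) (c (l 16779064) (l 16778912))) (l 16779760)) (a (l 16780448) (l 16780512))) (a (b (a (b (a (b (l 107609069095) (c (l 53921979207) (l 52848237015))) (c (c (l 34057755399) (l 34057755223)) (l 32984013367))) (l 16779240)) (c (l 16778768) (l 16778608))) (l 16779568)) (a (l 16779952) (l 16780408))))), by decide +kernel⟩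

def k60_pm_011 : ∃ t, chk3 f_pm_011 t 145 247 2 = true :=
  ⟨(a (c (b (b (a (a (a (b (b (l 95797912951) (l 50163883607)) (l 16780016)) (b (c (l 36205239671) (l 34594626951)) (l 16779736))) (l 16781192)) (l 16781632)) (l 16782408)) (l 16778632)) (b (b (a (a (a (b (b (l 95797912295) (l 16780288)) (l 16779640)) (c (c (l 14193532167) (l 14730402727)) (l 13119790183))) (l 16780824)) (l 16778688)) (l 16779568)) (l 16778624))) (c (b (c (l 16781208) (l 16781136)) (l 16776128)) (b (c (l 16781056) (l 16780960)) (l 16776248)))), by decide +kernel⟩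

def k61_pm_011 : ∃ t, chk3 f_pm_011 t 72 247 3 = true :=
  ⟨(a (b (a (b (l 4) (a (b (l 4) (c (l 106535329927) (l 108145941959))) (a (b (l 4) (b (c (l 105461589975) (l 91502940775)) (c (l 41037077287) (l 38352722023)))) (c (b (l 96871654391) (c (l 16779680) (l 16779496))) (b (l 97945391543) (l 22246594823)))))) (b (a (a (l 4) (b (l 4) (b (l 4) (c (l 77544298503) (l 74323073431))))) (a (b (l 4) (c (c (c (l 50163882855) (l 50163882599)) (l 49090140743)) (c (l 48016398551) (l 47479527271)))) (b (b (l 4) (c (l 66806881063) (l 64122526583))) (c (l 16778960) (l 26004688743))))) (b (b (a (a (c (l 82913007095) (l 79691782023)) (c (l 32984010807) (l 16778744))) (c (l 16779144) (l 16778776))) (a (c (l 21172853335) (l 16780536)) (l 16781080))) (c (l 16780984) (l 16780648))))) (c (a (b (a (b (a (b (l 109756552023) (l 50700753719)) (b (l 45332044679) (l 16779392))) (l 16778912)) (l 16779688)) (l 16779344)) (b (l 16779328) (l 16779696))) (a (b (a (b (c (a (l 68417493415) (l 30836528663)) (a (l 68417493079) (l 16779128))) (l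 16778576)) (l 16779368)) (l 16779096)) (b (l 16779064) (l 16779528))))) (c (a (b (b (a (a (b (b (l 61975043031) (l 16779816)) (l 16779144)) (l 16779136)) (l 16778344)) (l 16779312)) (l 16778552)) (b (c (l 16780856) (l 16780744)) (l 16776280))) (a (b (b (a (a (b (a (l 47479528407) (l 16780800)) (l 16778768)) (l 16778760)) (l 16777992)) (l 16779032)) (c (l 16778456) (l 16778376))) (b (c (l 16778000) (l 16777864)) (l 16776224))))), by decide +kernel⟩

def k62_pm_011 : ∃ t, chk3 f_pm_011 t 146 492 2 = true :=
  ⟨(a (b (a (l 4) (b (l 4) (c (l 108145943175) (l 110293425847)))) (c (a (b (l 4) (a (b (l 4) (c (l 94724171927) (l 89892333911))) (c (b (l 87744850807) (l 48553270759)) (b (l 87207979463) (l 16781016))))) (b (a (a (l 103850974999) (b (l 4) (l 77007432071))) (b (a (l 93113559591) (a (l 80228657239) (l 16781336))) (l 16781176))) (c (c (l 16779592) (l 16780792)) (l 16780624)))) (a (b (l 4) (a (b (l 4) (c (l 89355462567) (l 89355462471))) (b (c (l 86134237543) (l 85060495303)) (l 42647690247)))) (b (c (a (c (l 80228654119)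 (l 79691782983)) (c (l 42110820775) (l 41037078631))) (a (l 79154913031) (c (l 40500207495) (l 39963336359)))) (c (l 16780400) (l 16780176)))))) (b (c (a (b (l 106535333079) (b (a (l 105461587959) (a (l 86671108951) (l 61438174583))) (a (a (l 90429205143) (l 67343754999)) (l 16781216)))) (b (a (b (l 102240362567) (a (l 82913012599) (l 16781472))) (a (b (l 78618045223) (l 16781344)) (l 16781352))) (l 16780776))) (a (b (l 108682815735) (a (a (l 100092880343) (b (l 101703493079) (l 61975044615))) (c (l 36742110279) (l 34594626695)))) (a (b (b (l 102777232471) (a (l 80228657079) (l 16780984))) (l 16780544)) (c (c (l 16341016535) (l 16781256)) (l 16341016199))))) (c (c (l 16781064) (l 16780864)) (c (l 16780664) (l 16780464))))), by decide +kernel⟩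

def k63_pm_011 : ∃ t, chk3 f_pm_011 t 146 492 3 = true :=
  ⟨(b (a (a (l 4) (c (l 114051524711) (l 116735878375))) (c (b (b (a (l 4) (a (l 102240360599) (c (l 57680075703) (l 54458849335)))) (a (l 109219687943) (c (l 33520882119) (l 32447139655)))) (a (c (a (l 68417495527) (l 32984013767)) (a (l 67880624103) (l 16780616))) (l 16779840))) (a (b (l 104387849127) (a (a (l 80228652839) (l 56606334567)) (l 27615305111))) (a (b (a (l 70564977191) (l 46942657223)) (l 16779592)) (l 12046048375))))) (b (a (a (l 4) (c (a (c (l 75933687927) (l 74859945975)) (c (l 38889594519) (l 37815852151))) (a (b (l 4) (l 58753815447)) (c (l 36742109799) (l 35131496615))))) (c (l 16781976) (l 16781528))) (a (c (a (a (c (l 86134233063) (l 85597361703)) (c (b (l 84523623991) (l 16780336)) (l 44795174135))) (l 16779840)) (a (c (a (l 85597361271) (l 43721431799)) (a (l 80765525079) (l 42647689463))) (l 16779392))) (c (l 16778304) (l 16777896))))), by decide +kernel⟩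

def k64_pm_011 : ∃ t, chk3 f_pm_011 t 146 493 1 = true :=
  ⟨(c (b (b (a (a (c (c (l 16782136) (l 16780608)) (c (l 16780384) (l 16780168))) (l 16782064)) (l 16781632)) (a (a (l 16782064) (l 16780904)) (l 16779120))) (c (l 16780560) (c (l 16781080) (l 16780968)))) (a (b (c (c (c (l 16780312) (l 16778896)) (l 16780056)) (c (l 16778544) (l 16778336))) (c (l 16781912) (l 16776352))) (c (l 16779472) (c (l 16780576) (l 16775176))))), by decide +kernel⟩

def k65_pm_011 : ∃ t, chk3 f_pm_011 t 147 246 1 = true :=
  ⟨(a (c (b (b (c (l 16781808) (l 16781880)) (c (l 16782496) (l 16776968))) (c (l 16778752) (l 16778680))) (b (b (c (l 16781448) (l 16781000)) (c (l 16776648) (l 16776296))) (c (l 16778536) (l 16778328)))) (c (b (c (l 16781288) (l 16781056)) (c (l 16781528) (l 16776336))) (b (c (l 16780776) (l 16780448)) (c (l 16776288) (l 16776152))))), by decide +kernel⟩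

def k66_pm_011 : ∃ t, chk3 f_pm_011 t 73 247 1 = true :=
  ⟨(c (b (a (c (a (l 16778688) (l 16776200)) (a (l 16778648) (l 16776288))) (c (a (l 16778960) (l 16776488)) (l 16772752))) (a (a (c (l 16773632) (l 16773880)) (a (l 16771952) (l 16770744))) (c (l 16772680) (c (l 16773120) (l 16773352))))) (a (a (c (b (l 16778544) (l 16774016)) (b (l 16778368) (l 16774040))) (c (b (l 16776280) (l 16771760)) (b (l 16776184) (l 16771864)))) (c (b (l 16772904) (l 16773632)) (b (l 16772928) (l 16768608))))), by decide +kernel⟩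

def k67_pm_011 : ∃ t, chk3 f_pm_011 t 148 244 1 = true :=
  ⟨(b (l 4) (c (a (l 4) (b (l 4) (c (a (l 108682817783) (a (b (l 4) (b (l 104387847927) (c (l 80765530567) (l 79154917095)))) (b (l 104924719111) (b (c (l 76470562935) (l 74859949463)) (l 16782312))))) (a (l 110830301527) (a (b (l 4) (b (l 104387846711) (c (l 77007432551) (l 74859948183)))) (b (l 105461588775) (b (c (l 72175594071) (l 69491238535)) (l 16781712)))))))) (a (l 4) (b (l 4) (c (a (l 113514654887) (a (b (l 4) (b (l 103850974631) (c (l 72175592727) (l 69491237191)))) (a (b (l 4) (c (l 58753818759) (l 55532592167))) (b (l 103850974743) (l 16781192))))) (a (l 115662140007) (a (b (l 4) (b (l 100092881047) (l 66270011943))) (b (l 106535333431) (c (l 42647687447) (l 16779192)))))))))), by decide +kernel⟩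

def k68_pm_011 : ∃ t, chk3 f_pm_011 t 149 244 2 = true :=
  ⟨(b (a (l 4) (b (l 4) (a (a (l 4) (b (l 4) (c (b (l 105998461479) (c (l 86134240631) (l 84523627159))) (b (l 105998460151) (c (l 82376142743) (l 80228658167)))))) (c (b (a (l 105998461751) (b (l 102240365239) (c (l 78618047447) (l 75933692007)))) (a (b (c (l 82376144151) (l 80765530471)) (l 16782808)) (l 16782680))) (b (a (l 106535331303) (b (l 101166622119) (c (l 73249336407) (l 70028109895)))) (a (b (c (l 78081175127) (l 75396819623)) (l 16782160)) (l 16782024))))))) (a (b (a (a (l 4) (b (l 4) (c (l 102240367255) (l 102240368615)))) (a (b (l 4) (c (b (l 93113562759) (c (l 61975046983) (l 16782488))) (b (l 92039819799) (l 54995724007)))) (c (b (b (l 4) (l 90966079287)) (c (l 44258305367) (l 16782416))) (b (b (l 4) (l 88818594583)) (l 37278982103))))) (a (b (b (c (a (l 100629751687) (c (l 67343756647) (l 64659401079))) (a (l 99019137751) (c (l 60901303639) (l 16781832)))) (a (c (c (l 72175595383) (l 70028110727)) (c (l 66806884343) (l 63585657751)))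 (l 16783368))) (c (l 16781944) (l 16781352))) (c (l 16781472) (l 16780888)))) (a (b (b (a (c (b (l 87744854071) (l 16782736)) (b (l 85597369047) (l 16782104))) (c (l 16782632) (l 16781992))) (c (l 16782000) (l 16781376))) (l 16782744)) (c (l 16783024) (l 16782480))))), by decide +kernel⟩

def k69_pm_011 : ∃ t, chk3 f_pm_011 t 149 244 3 = true :=
  ⟨(b (a (l 4) (b (l 4) (a (a (l 4) (b (l 4) (c (b (l 105461587975) (l 77007432935)) (b (l 102240364871) (l 71638721959))))) (c (b (a (l 107072200903) (b (l 98482269911) (l 66270013463))) (a (b (l 72175594199) (l 16781512)) (l 16781368))) (b (a (l 107609070519) (b (l 96334785399) (l 51237624055))) (a (c (l 45868913271) (l 43184558567)) (l 16780720))))))) (a (b (a (a (l 4) (b (l 4) (c (l 101703496487) (l 100629753479)))) (c (a (b (l 4) (b (l 88818593287) (l 16781416))) (b (b (l 4) (l 86134238951)) (l 16781320))) (b (a (l 4) (b (l 4) (l 81839270183))) (a (b (l 86134237655) (l 16780808)) (l 16780704))))) (a (a (b (c (b (l 95797915063) (l 60364432407)) (b (l 94187301415) (l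 47479527223))) (c (l 16780952) (l 16780352))) (b (b (c (l 53921980727) (l 16780784)) (l 16783456)) (l 16782856))) (c (l 16780296) (l 16779704)))) (a (a (b (b (c (b (l 81302400423) (l 16781472)) (b (l 77007431623) (l 16780848))) (l 16783280)) (l 16784512)) (c (c (l 16780200) (l 16779904)) (l 16782072))) (c (l 16781912) (l 16781328))))), by decide +kernel⟩

def k70_pm_011 : ∃ t, chk3 f_pm_011 t 148 490 1 = true :=
  ⟨(a (c (b (a (l 4) (a (b (l 4) (b (l 4) (c (l 92039820023) (l 90429206567)))) (b (l 4) (c (b (l 88818594871) (l 52848240759)) (b (l 86671110247) (l 16781616)))))) (c (b (a (a (l 103314108183) (b (l 97408530663) (c (l 64122530167) (l 61438174647)))) (a (a (b (l 69491240039) (l 16781936)) (l 16781944)) (l 16781640))) (a (a (a (b (l 80228658823) (l 16781888)) (l 16781896)) (l 16781616)) (l 16780872))) (b (a (a (l 103850980567) (b (l 93113560983) (c (l 58216948215) (l 16781408)))) (c (c (l 34057754263) (l 16780048)) (l 16779832))) (b (c (c (l 16877888551) (l 16781136)) (l 15267275623)) (l 16780600))))) (b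 (b (l 4) (a (l 4) (b (a (l 4) (c (l 84523625463) (l 81302398951))) (a (c (l 87744851111) (l 85597366583)) (c (l 16781048) (l 16780488)))))) (b (c (a (a (l 104387850359) (b (l 90966076471) (l 50700754647))) (c (l 16780864) (l 16780584))) (a (a (l 104387849271) (b (l 90429204759) (l 16780448))) (l 16780160))) (c (c (l 16781088) (l 16780160)) (c (l 16779888) (l 16779616)))))) (c (c (b (a (b (a (b (l 4) (c (l 87744852471) (l 86134239175))) (b (c (l 84523627079) (l 82913013639)) (l 16782256))) (c (l 16782032) (l 16781744))) (l 16782088)) (l 16779760)) (b (a (b (a (b (l 4) (c (l 85597367639) (l 83449883447))) (b (c (l 80765529271) (l 79691786823)) (l 16781672))) (l 16781312)) (l 16780872)) (l 16779288))) (a (a (b (c (b (b (l 4) (c (l 81839270023) (l 80228656583))) (l 16780920)) (b (b (l 4) (l 77007431463)) (l 16780344))) (l 16781928)) (b (c (b (b (c (l 77544302375) (l 74859946935)) (l 16781088)) (l 16780528)) (c (l 21172854599) (l 16780848))) (l 16781424))) (b (c (l 16780304) (l 16779728)) (l 16783256))))), by decide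 +kernel⟩

def k71_pm_011 : ∃ t, chk3 f_pm_011 t 148 491 1 = true :=
  ⟨(a (c (c (c (l 16783872) (l 16783688)) (c (l 16780872) (l 16780672))) (c (c (l 16780456) (l 16780240)) (c (l 16780024) (l 16777168)))) (c (c (l 16781368) (l 16781096)) (c (l 16780776) (l 16780400)))), by decide +kernel⟩

def k72_pm_011 : ∃ t, chk3 f_pm_011 t 149 245 1 = true :=
  ⟨(c (a (c (b (l 16782536) (l 16784176)) (b (l 16781456) (l 16778784))) (c (c (l 16779008) (l 16778936)) (c (l 16778848) (l 16780056)))) (c (b (a (c (l 16783080) (l 16782840)) (l 16780768)) (l 16777440)) (a (b (l 16779848) (l 16773008)) (b (l 16775096) (l 16770856))))), by decide +kernel⟩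

def k73_pm_011 : ∃ t, chk3 f_pm_011 t 75 122 1 = true :=
  ⟨(c (b (a (b (a (b (a (b (l 4) (c (a (l 103314107287) (b (l 95797918119) (c (l 68954370263) (l 65733143639)))) (a (l 103314111159) (b (l 94724175047) (l 61438176167))))) (a (c (b (b (l 4) (l 93650434631)) (c (c (l 50163886423) (l 48553273175)) (l 44258304231))) (b (b (l 4) (l 91502949799)) (c (l 16782560) (l 16782224)))) (b (b (c (l 90966080295) (l 88818595223)) (c (l 57143209847) (l 16782528))) (l 16783736)))) (b (a (a (b (c (c (l 74323079815) (l 71101853287)) (c (l 67880626759) (l 63585658247))) (l 16783848)) (c (l 16782720) (l 16782056))) (l 16784368)) (c (l 16781536) (l 16780920)))) (b (a (b (a (c (l 16783136) (l 16782448)) (l 16785072)) (l 16784384)) (l 16783888)) (c (l 16779880) (l 16779320)))) (c (c (l 16782808) (l 16782616)) (c (l 16782408) (l 16782192)))) (b (c (l 16782784) (l 16782328)) (c (l 16783112) (l 16782928)))) (c (a (b (l 16777792) (l 16778072)) (b (l 16778152) (l 16773176))) (a (b (l 16777656) (l 16778216)) (b (l 16778240) (l 16773560)))))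 (b (a (b (a (b (b (b (a (l 4) (a (l 4) (c (l 84523626535) (l 80228657655)))) (a (l 4) (c (a (l 88818594119) (l 16781848)) (a (l 84523625287) (l 16781176))))) (c (a (a (l 103314109831) (b (l 92576690231) (l 16781128))) (l 31373401831)) (a (a (l 102240366727) (b (l 88818592743) (l 16781128))) (l 16780896)))) (c (c (c (l 16781656) (l 16780840)) (l 9361695175)) (c (l 16780264) (l 16779936)))) (a (b (c (l 16781208) (l 16780520)) (l 16784208)) (b (l 16782568) (l 16777920)))) (c (c (l 16781960) (l 16781720)) (c (l 16781464) (l 16778584)))) (c (b (c (l 16781952) (l 16781688)) (l 16777408)) (b (c (l 16781408) (l 16781120)) (l 16777040)))) (b (a (c (l 16777424) (l 16777112)) (c (l 16778208) (l 16778032))) (a (c (l 16778224) (l 16772856)) (l 16773784))))), by decide +kernel⟩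

def k74_pm_011 : ∃ t, chk3 f_pm_011 t 37 123 1 = true :=
  ⟨(c (a (b (a (c (b (l 16777616) (c (l 16777760) (l 16777904))) (b (l 16777560) (l 16772824))) (c (b (l 16777968) (c (l 16772816) (l 16773096))) (b (l 16778152) (l 16773432)))) (a (c (c (l 16767480) (l 16770480)) (b (l 16773328) (l 16768592))) (c (l 16764792) (l 16766344)))) (b (b (c (a (l 16773096) (l 16768224)) (a (l 16773528) (l 16768880))) (c (c (l 16765448) (l 16765928)) (l 16766520))) (a (c (l 16760656) (l 16761784)) (c (l 16755888) (l 16757248))))) (a (a (b (c (b (l 16778736) (l 16772928)) (b (c (l 16777264) (l 16777136)) (l 16772904))) (c (b (l 16773672) (l 16769176)) (b (l 16773848) (l 16769544)))) (a (c (b (l 16774456) (l 16768104)) (b (l 16774448) (l 16768480))) (c (b (l 16774864) (l 16765904)) (b (l 16769680) (l 16766360))))) (b (a (c (b (l 16773768) (l 16769320)) (c (l 16771680) (l 16771720))) (c (l 16767104) (l 16767416))) (a (a (l 16764016) (l 16761880)) (a (l 16759744) (l 16757600)))))), by decide +kernel⟩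

def k75_pm_011 : ∃ t, chk3 f_pm_011 t 76 120 1 = true :=
  ⟨(l 4), by decide +kernel⟩

def k76_pm_011 : ∃ t, chk3 f_pm_011 t 77 240 1 = true :=
  ⟨(a (l 4) (b (l 4) (c (a (l 4) (b (l 4) (a (b (l 4) (c (l 108145951303) (l 107609083511))) (a (b (l 4) (c (b (l 93650441975) (c (l 88818600983) (l 85060503143))) (b (c (l 89355468007) (l 86671112551)) (c (l 67343758791) (l 64122532999))))) (b (c (l 103850989383) (l 101703503735)) (c (b (c (l 85060504343) (l 67343759815)) (l 16786368)) (c (c (l 57143211479) (l 54995727639)) (l 52848243719)))))))) (a (l 4) (b (l 4) (a (b (l 4) (c (l 107072210535) (l 105998466743))) (a (b (l 4) (c (b (c (l 83449886231) (l 78081174343)) (l 60364436471)) (b (l 90429208951) (l 51774500503)))) (b (c (l 98482276391) (l 93650436471)) (c (c (l 50163888551) (l 16784088)) (l 43184567447)))))))))), by decide +kernel⟩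

def k77_pm_011 : ∃ t, chk3 f_pm_011 t 154 241 2 = true :=
  ⟨(b (a (l 4) (b (l 4) (a (l 4) (a (l 4) (b (l 4) (c (c (l 96334793463) (l 94724179879)) (b (l 91502955479) (c (l 83986759383) (l 66270015271))))))))) (a (b (a (l 4) (b (l 4) (c (l 105461597911) (a (l 4) (l 101703502247))))) (c (a (b (l 107609078807) (a (b (l 98482272983) (l 90966083591)) (b (c (l 88818599335) (l 86134243527)) (l 16785304)))) (b (b (a (l 102240369655) (c (l 81302406135) (l 76470566375))) (a (c (l 85597373703) (l 81839275943)) (l 16785416))) (l 16785168))) (a (b (l 107609076887) (a (b (l 94187309143) (l 86134243335)) (b (l 81302404839) (l 16784384)))) (b (a (b (l 99019142471) (l 76470566247)) (c (l 52848242551) (l 50700758631))) (l 16784232))))) (b (c (a (b (c (l 103314112279) (l 102777245639)) (a (b (l 97408531863) (c (l 75933696471) (l 61975049623))) (c (l 53385115271) (l 16784040)))) (b (a (b (l 93113567991) (l 16784384)) (l 16785704)) (l 16785304))) (a (b (c (l 102240373783) (l 101703501943)) (a (b (l 94187307783) (l 58216953095))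 (l 46942664071))) (b (a (b (l 87207985911) (l 16784744)) (l 16784736)) (l 16784328)))) (c (l 16784496) (l 16783544))))), by decide +kernel⟩

def k78_pm_011 : ∃ t, chk3 f_pm_011 t 155 241 2 = true :=
  ⟨(b (a (b (a (l 4) (b (l 4) (c (a (l 102240373335) (b (l 96334794263) (c (l 63585664055) (l 16784512)))) (a (l 99556018199) (b (l 92039824967) (l 56606341799)))))) (b (a (c (a (l 105461595927) (b (l 100629757943) (c (l 83449890759) (l 78618050919)))) (a (l 103850981239) (b (l 96871659815) (c (l 64122533175) (l 60364436503))))) (a (c (c (c (l 65733149095) (l 56606340647)) (l 54995727831)) (c (l 51774502199) (l 16783448))) (c (l 16785904) (l 16784888)))) (b (a (c (a (c (l 87744858247) (l 83449889527)) (l 16785888)) (a (c (l 66806887047) (l 63585661303)) (l 16784904))) (l 16785096)) (c (l 16785568) (l 16784560))))) (b (c (a (b (a (b (l 4) (l 94187310647)) (b (c (l 92039826471) (l 88818599767)) (l 16786232))) (c (l 16784696) (l 16784512))) (c (l 16786160) (l 16785632))) (a (b (a (c (l 95797924023) (l 93650439543)) (b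 (c (l 70564989127) (l 67880628855)) (l 16785224))) (l 39963343287)) (l 16784848))) (c (l 16784648) (l 16783640)))) (a (b (c (l 16784576) (l 16783592)) (l 16787336)) (c (l 16781480) (l 16780616)))), by decide +kernel⟩

def k79_pm_011 : ∃ t, chk3 f_pm_011 t 77 241 3 = true :=
  ⟨(a (b (a (l 4) (b (l 4) (a (l 4) (a (l 4) (b (l 4) (c (c (l 88281726615) (l 85060500279)) (b (l 80228663031) (l 55532595895)))))))) (a (b (a (l 4) (a (l 4) (b (l 4) (c (l 99019145959) (l 95261047975))))) (c (a (b (l 107609080279) (a (b (l 89892340151) (l 78081177143)) (c (l 53385111399) (l 50163885687)))) (b (a (b (l 95797918535) (l 57680080343)) (l 46942662023)) (l 16783288))) (a (b (l 107072207559) (a (b (l 84523629463) (l 58216949399)) (l 46405789127))) (b (a (b (l 90966078487) (l 16782688)) (l 16782688)) (l 16782352))))) (b (b (b (a (l 4) (c (a (l 79154919463) (l 16783848)) (c (l 50163885223) (l 46942658983)))) (a (a (l 4) (c (c (l 71101852087) (l 66806884423)) (l 62511916807))) (c (l 16783744) (l 16782784)))) (c (a (a (b (c (l 74323077175)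 (l 71638722103)) (l 16783696)) (l 16783696)) (l 16783352)) (a (a (a (l 74859950119) (l 50700757351)) (l 16782752)) (l 16782376)))) (c (l 16782592) (l 16781632))))) (b (a (b (b (l 4) (a (l 4) (c (a (b (l 4) (l 89355468055)) (b (l 84523629735) (l 16784112))) (a (c (l 93113560359) (l 90429204999)) (c (l 54995723735) (l 52848239463)))))) (c (a (b (b (l 99556017431) (a (l 82913016823) (l 56069468855))) (c (l 44258306695) (l 41573951495))) (c (l 16783320) (l 16783472))) (a (b (a (l 97945402871) (b (l 86134240599) (l 16783040))) (c (l 16783160) (l 16782672))) (l 27078440567)))) (b (c (a (b (a (c (l 91502955111) (l 88818594487)) (c (l 55532596679) (l 52311370727))) (l 16784032)) (l 16783792)) (a (b (a (b (l 4) (l 59827563495)) (l 49090145079)) (l 16783008)) (l 16782744))) (c (l 16782624) (l 16781600)))) (a (c (l 16784328) (l 16783360)) (a (l 16785008) (l 16784000))))), by decide +kernel⟩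

def k80_pm_011 : ∃ t, chk3 f_pm_011 t 152 242 2 = true :=
  ⟨(b (l 4) (a (b (l 4) (a (l 4) (b (c (l 108145948087) (l 109219688215)) (c (a (b (l 4) (l 91502952919)) (b (l 88281727527) (l 16784280))) (a (b (l 4) (l 87744854823)) (b (l 83986758311) (l 16783480))))))) (b (a (b (l 4) (c (l 105998469767) (l 106535338951))) (a (b (l 4) (c (b (l 99556013527) (c (l 77544307831) (l 73249339191))) (b (l 96871660743) (l 68417500487)))) (b (c (l 101166631591) (l 99556017207)) (b (c (l 72175599127) (l 55532596599)) (l 16785360))))) (a (c (b (a (b (l 103850980535) (c (l 86134243015) (l 83449887351))) (b (c (l 82376146503) (l 78618048807)) (l 16784384))) (l 16784096)) (b (a (b (l 101703495303) (l 79154919799)) (b (l 74323081191) (l 16783560))) (l 16783280))) (c (l 16783768) (l 16782936)))))), by decide +kernel⟩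

def k81_pm_011 : ∃ t, chk3 f_pm_011 t 153 242 2 = true :=
  ⟨(b (a (b (l 4) (a (a (l 4) (b (l 4) (b (l 4) (c (l 91502953735) (l 87207984551))))) (b (c (a (l 107072206887) (b (l 103314110535) (c (l 86134243879) (l 82913017255)))) (a (l 106535334199) (b (l 100629754311) (l 78618049367)))) (c (a (b (l 88818599271) (l 16784784)) (l 16784752)) (a (b (l 83449888055) (l 16783928)) (l 16783872)))))) (b (a (b (l 4) (c (a (l 103850981575) (b (l 99019143575) (c (l 77544308631) (l 72175597911)))) (a (l 102777243255) (b (l 95797919831) (l 58753822663))))) (a (b (c (l 100629758967) (l 98482274919)) (c (c (l 58753825111) (l 50700759223)) (l 46942662663))) (c (b (b (l 94187309095) (l 65733148199)) (l 16784904)) (b (b (l 89892339895) (l 16784280)) (l 16783992))))) (b (a (a (b (c (c (l 82376147207) (l 78081178583)) (l 73249339767)) (c (l 16784896) (l 16784016))) (c (l 16784832) (l 16783936))) (l 16783904)) (c (l 16783896) (l 16783016))))) (a (b (c (a (b (a (b (l 94187308295) (l 66270018423)) (l 46405792391)) (l 16784208)) (l 16783840))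 (a (b (a (b (l 90966081015) (l 16783824)) (l 16783800)) (l 16783352)) (l 16782984))) (c (l 16782328) (l 16781544))) (c (l 16781264) (l 16780512)))), by decide +kernel⟩

def k82_pm_011 : ∃ t, chk3 f_pm_011 t 76 242 3 = true :=
  ⟨(a (b (l 4) (a (b (l 4) (a (l 4) (c (b (l 109756557463) (a (b (l 4) (l 82376143831)) (b (l 77007434055) (l 16782680)))) (b (l 110293426759) (a (b (l 4) (l 74859948775)) (c (l 49090141239) (l 46405786231))))))) (b (a (b (l 4) (c (l 106535337287) (l 106535335671))) (a (b (l 4) (c (b (l 93113562983) (l 52848240951)) (b (l 88818593959) (l 16782096)))) (c (b (l 97408532023) (l 16782888)) (b (l 93650434183) (l 16782064))))) (b (c (a (a (b (l 99019139239) (l 71101853511)) (c (l 48553272247) (l 16781296))) (l 16782480)) (a (a (b (l 96334786887) (l 53921980983)) (l 42110820935)) (l 16781640))) (c (l 16782096) (l 16781272)))))) (b (a (b (l 4) (b (a (l 4) (c (a (l 105461590663) (b (l 97408527287) (l 59290691767))) (a (l 103850976279) (b (l 94187303511) (l 52848240167))))) (b (a (l 4) (a (c (l 75396821767)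 (l 56606336103)) (c (l 16783112) (l 16782248)))) (a (a (l 4) (c (l 80765531383) (l 60364431863))) (c (l 16782992) (l 16782120)))))) (b (b (a (l 4) (c (a (b (l 4) (l 87744854231)) (b (l 83449886727) (l 16783392))) (a (b (l 4) (l 79691788039)) (c (l 53385109575) (l 51237625399))))) (c (a (a (l 101166628839) (b (l 91502950791) (l 16783288))) (l 16783200)) (a (a (l 98482272695) (b (l 85597368551) (l 16782432))) (l 16782304)))) (a (b (c (c (l 41037079847) (l 16781616)) (l 36205241335)) (l 16784712)) (c (l 16782136) (l 16781240))))) (b (a (a (a (b (b (c (l 85597369975) (l 78081174759)) (c (l 16783000) (l 16782168))) (l 16783552)) (c (l 16782680) (l 16781816))) (c (l 16782120) (l 16781256))) (c (l 16780744) (l 16779896))) (c (l 16784976) (l 16784184))))), by decide +kernel⟩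

def k83_pm_011 : ∃ t, chk3 f_pm_011 t 76 243 1 = true :=
  ⟨(a (c (b (c (a (b (a (a (b (l 101166630711) (c (c (l 57680081399) (l 55532597031)) (l 49090144023))) (b (b (l 94187307511) (l 65196275767)) (l 16783832))) (c (c (l 16782672) (l 16783784)) (l 16783480))) (l 16782232)) (l 16786416)) (a (b (a (b (a (l 100092887335) (b (l 90966080263) (l 16783384))) (c (l 39963337879) (l 16781664))) (c (l 16783080) (l 16782680))) (l 16781496)) (l 16785712))) (c (l 16782864) (l 16782360))) (b (c (a (b (a (b (a (l 97945402199) (b (l 86671111271) (l 16782608))) (l 35131499511)) (l 16782080)) (l 16780752)) (l 16784984)) (a (a (b (b (a (l 95261046247) (b (l 80765529303) (l 16781832))) (l 16781600)) (l 16780456)) (c (l 16780640) (l 16780240))) (l 16784232))) (c (l 16781800) (l 16781192)))) (b (c (c (l 16782960) (l 16782408)) (c (l 16781792) (l 16781128))) (c (c (l 16783320) (l 16783032)) (c (l 16782648) (l 16771680))))), by decide +kernel⟩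

def k84_pm_011 : ∃ t, chk3 f_pm_011 t 77 121 1 = true :=
  ⟨(c (c (b (a (b (a (a (b (c (l 16783704) (l 16784552)) (l 16782952)) (l 16782976)) (l 16781368)) (l 16788312)) (l 16786016)) (a (l 16780976) (l 16776176))) (b (a (b (a (a (b (l 16784192) (l 16782096)) (l 16782104)) (l 16780560)) (l 16782456)) (c (l 16785624) (l 16785336))) (a (l 16780768) (l 16776184)))) (c (b (a (b (a (a (b (l 16782936) (l 16781224)) (l 16781224)) (l 16779728)) (l 16781792)) (c (l 16785032) (l 16784704))) (a (l 16780440) (l 16776032))) (b (a (b (a (b (l 17414762679) (l 16779864)) (l 16778856)) (l 16781064)) (c (l 16779112) (l 16778744))) (a (c (l 16780120) (l 16779864)) (l 16775712))))), by decide +kernel⟩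

def k85_pm_011 : ∃ t, chk3 f_pm_011 t 156 240 2 = true :=
  ⟨(b (a (l 4) (b (l 4) (a (b (l 4) (c (b (l 103850987543) (a (c (l 95261050855) (l 92039824359)) (c (l 85597376135) (l 68417502551)))) (a (l 103314117063) (b (c (l 85597376663) (l 82376150311)) (c (l 64659405959) (l 60901309015)))))) (a (a (b (c (l 98482281223) (b (l 4) (l 89892342343))) (c (c (l 75933698967) (l 62511922887)) (c (l 59290697095) (l 16784920)))) (b (c (l 100092891543) (b (l 4) (c (l 74859953703) (l 71101856471)))) (c (l 16786960) (l 16785864)))) (c (b (b (c (l 86671119623) (l 83449893271)) (c (l 65733149639) (l 62511923911))) (l 16786904)) (b (b (a (c (l 83986760183) (l 78618049255)) (l 70564986647)) (l 57680085479)) (l 16785784))))))) (a (b (a (a (l 4) (b (l 4) (b (l 4) (c (l 96871665975) (l 92039825623))))) (a (b (l 4) (c (b (c (l 95797923687) (l 93113567863)) (l 61438182183)) (b (b (l 95261051591) (l 67880631319)) (l 16785584)))) (b (a (c (l 101703503719) (l 97408537143)) (c (c (l 94724180199) (l 93113568615)) (b (l 85597372983) (l 64659406839))))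 (c (l 16785360) (l 16785600))))) (c (a (b (a (b (l 99019148919) (c (l 80228665751) (l 64659405879))) (c (l 56606342343) (l 53921987719))) (l 16786264)) (l 16786024)) (a (b (a (b (c (l 83449891175) (l 77544310343)) (l 60364438375)) (l 49627020327)) (l 16785192)) (l 16784936)))) (c (b (a (b (a (b (c (l 89355472679) (l 85060503847)) (l 16786784)) (l 16786792)) (l 16786424)) (l 16786144)) (l 16784800)) (b (a (a (b (b (c (l 67880630727) (l 64122533975)) (l 16785712)) (l 16785440)) (l 16785472)) (l 16785024)) (l 16783736))))), by decide +kernel⟩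

def k86_pm_011 : ∃ t, chk3 f_pm_011 t 157 240 2 = true :=
  ⟨(b (a (b (a (b (c (l 107609084615) (l 107072214007)) (c (c (a (l 99556021399) (b (l 93113570039) (l 16787472))) (a (l 97408536759) (b (a (l 80228664055) (l 69491246359)) (l 16786912)))) (a (b (l 4) (c (a (l 79154921239) (l 68954374407)) (l 70564984839))) (b (c (a (l 75933695815) (l 16786336)) (l 67343759911)) (l 16786080))))) (c (b (a (b (c (l 94187309943) (l 90966083431)) (c (l 89355473511) (a (l 76470567655) (l 16786984)))) (b (c (l 85597376855) (l 68417503671)) (l 16787344))) (l 16787184)) (b (a (b (a (l 4) (a (l 4) (l 75933696535))) (c (l 67343760871) (l 63585664071))) (c (b (l 64659406919) (l 16786488)) (l 53385116631))) (l 16786032)))) (a (b (c (c (l 48016409207) (l 16785480)) (l 42110828919)) (l 16787304)) (c (l 16786256) (l 16785096)))) (c (c (l 16787504) (l 16788232)) (c (l 16787648) (l 16784440)))) (c (l 16788064) (l 16787048))), by decide +kernel⟩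

def k87_pm_011 : ∃ t, chk3 f_pm_011 t 78 240 3 = true :=
  ⟨(a (b (a (l 4) (b (l 4) (a (b (l 4) (c (a (l 100092889607) (b (c (l 79154920103) (l 73249337079)) (l 56606341463))) (a (l 95797920503) (c (b (l 70028111063) (l 16783936)) (l 58216949383))))) (c (b (b (c (l 94187308087) (l 91502952695)) (a (l 87744856775) (l 16784856))) (c (l 16785008) (l 16784456))) (b (a (b (l 4) (l 65196273383)) (c (l 54995725303) (l 51237627959))) (l 36742118183)))))) (a (b (a (a (l 4) (b (l 4) (b (l 4) (c (l 83986759383) (l 61975047447))))) (a (b (l 4) (c (c (b (l 67880628791) (l 16784800)) (l 55532596599)) (c (l 51774499367) (l 47479531223)))) (c (b (b (c (l 85060499415) (l 81839273079)) (c (l 63585662023) (l 59290694055))) (l 16784528)) (b (b (l 77007437543) (l 54995726471)) (l 16783456))))) (c (a (b (a (b (l 88818597847) (l 53385115559)) (l 16784440)) (l 16784128)) (l 16783848)) (a (a (b (b (l 66270014231) (l 16783408)) (l 16783184)) (l 16783200)) (l 16782760)))) (b (a (c (a (c (c (l 43721436791) (l 41037081927)) (l 40500211431))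 (l 16784360)) (c (l 32984019479) (l 31373407095))) (c (l 16783896) (l 16782768))) (c (l 16782656) (l 16781560))))) (b (a (b (c (a (b (l 105461599063) (a (b (l 4) (c (l 66806887911) (l 61975048999))) (c (l 56069469463) (l 52311372327)))) (b (a (b (c (l 80228662375) (l 74859950407)) (l 59827567383)) (c (l 49627019703) (l 16784816))) (l 16784872))) (a (b (l 103314113303) (a (b (l 4) (l 57143210551)) (l 47479533799))) (b (a (a (b (l 4) (l 56069470487)) (l 56606339575)) (l 44258311319)) (l 16783728)))) (c (c (l 16784576) (l 16784000)) (c (l 16783416) (l 16782840)))) (b (c (l 16785648) (l 16783144)) (l 16784720))) (c (l 16785992) (l 16784912)))), by decide +kernel⟩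

def k88_pm_011 : ∃ t, chk3 f_pm_011 t 78 241 1 = true :=
  ⟨(c (c (a (a (b (l 16783728) (l 16779232)) (l 16789776)) (l 16786320)) (a (a (b (l 16782728) (l 16778456)) (l 16783736)) (l 16785664))) (b (a (a (c (l 16781720) (l 16780688)) (l 16783824)) (c (l 16776592) (l 16775672))) (a (a (l 16782440) (l 16780336)) (l 16777144)))), by decide +kernel⟩

def k89_pm_011 : ∃ t, chk3 f_pm_011 t 79 120 1 = true :=
  ⟨(a (c (b (c (c (l 16791432) (l 16785720)) (c (l 16785240) (l 16784736))) (c (l 16781656) (l 16781200))) (b (c (c (l 16784232) (l 16783704)) (c (l 16783168) (l 16782616))) (c (l 16780608) (l 16779896)))) (c (b (c (l 16786344) (l 16785576)) (c (l 16787120) (l 16786880))) (b (c (l 16784712) (l 16783760)) (c (l 16775984) (l 16764920))))), by decide +kernel⟩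

def k90_pm_011 : ∃ t, chk3 f_pm_011 t 39 121 1 = true :=
  ⟨(a (c (c (b (a (l 16781280) (l 16776544)) (a (l 16781888) (l 16777152))) (b (c (l 16778760) (l 16778608)) (c (l 16769304) (l 16769408)))) (c (b (a (l 16780504) (l 16776136)) (a (l 16771640) (l 16767288))) (b (a (l 16779928) (l 16775688)) (c (l 16769384) (l 16769264))))) (c (c (b (l 16771936) (a (l 16772464) (l 16767440))) (b (l 16769512) (l 16760216))) (b (c (l 16769480) (c (l 16769304) (l 16769112))) (c (l 16760648) (l 16760776))))), by decide +kernel⟩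

def k91_pm_011 : ∃ t, chk3 f_pm_011 t 38 61 1 = true :=
  ⟨(b (c (a (b (c (a (c (l 16780736) (l 16780712)) (l 16775880)) (a (c (l 16780664) (l 16780592)) (l 16776008))) (c (b (a (l 16773280) (l 16778920)) (l 16765896)) (a (l 16771256) (l 16766640)))) (b (c (a (l 16771056) (l 16776744)) (a (l 16771408) (l 16766832))) (c (c (l 16758456) (l 16759040)) (a (l 16762056) (l 16768000))))) (b (a (c (a (c (l 16780488) (l 16775104)) (l 16775976)) (a (c (l 16777568) (l 16777376)) (l 16775784))) (a (c (l 16771552) (l 16771496)) (c (l 16767152) (l 16767224)))) (a (c (a (l 16771520) (l 16767088)) (a (l 16771584) (l 16767288))) (c (a (l 16762680) (l 16768792)) (l 16763512))))) (b (c (a (c (c (l 16759464) (l 16758800)) (c (l 16759368) (l 16759864))) (c (c (l 16748472) (l 16749368)) (l 16753136))) (a (c (a (l 16762664) (l 16758256)) (a (l 16763120) (l 16758848))) (c (a (l 16764360) (l 16760016)) (l 16752480)))) (c (c (a (a (l 16751096) (l 16756792)) (a (l 16752040) (l 16747472))) (a (a (l 16752688) (l 16758608)) (l 16741336)))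 (a (a (c (l 16753896) (l 16754728)) (l 16752664)) (c (l 16742984) (l 16744152)))))), by decide +kernel⟩

def k92_pm_011 : ∃ t, chk3 f_pm_011 t 39 61 1 = true :=
  ⟨(b (c (a (b (c (a (l 16771992) (l 16767280)) (a (l 16772776) (l 16768280))) (c (l 16751928) (a (l 16763488) (l 16759016)))) (b (c (a (l 16762616) (l 16757624)) (a (l 16763816) (l 16759048))) (c (l 16742472) (a (l 16754592) (l 16749856))))) (a (a (b (l 16764224) (l 16754304)) (b (l 16758648) (l 16750072))) (c (b (l 16751856) (l 16753600)) (b (l 16752376) (l 16754512))))) (c (c (a (b (l 16742160) (a (l 16743096) (l 16738672))) (b (l 16732768) (a (l 16734192) (l 16730240)))) (a (b (l 16741552) (l 16742912)) (b (l 16743072) (l 16733784)))) (a (c (a (l 16746096) (l 16741840)) (b (l 16754600) (l 16746320))) (c (b (l 16744928) (l 16736128)) (b (l 16746224) (l 16737808)))))), by decide +kernel⟩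

def k93_pm_011 : ∃ t, chk3 f_pm_011 t 36 124 1 = true :=
  ⟨(c (a (b (a (b (c (a (c (l 16778568) (l 16778600)) (c (l 16776016) (l 16776112))) (a (c (l 16778608) (l 16778600)) (l 16776216))) (c (c (l 16772128) (l 16772352)) (c (l 16772536) (l 16772696)))) (b (b (c (c (l 16778736) (l 16773656)) (l 16773848)) (a (l 16772480) (l 16770048))) (c (l 16769856) (l 16770496)))) (a (b (c (l 16768480) (l 16769144)) (c (l 16763648) (l 16763056))) (b (c (l 16768056) (l 16768344)) (c (l 16765016) (l 16763584))))) (b (a (b (c (l 16769952) (l 16767928)) (c (l 16767520) (l 16768408))) (b (c (l 16767640) (l 16768488)) (c (l 16763144) (l 16763752)))) (a (c (l 16758672) (l 16758664)) (c (l 16755984) (l 16756656))))) (a (b (b (a (c (a (c (l 16778584) (l 16778552)) (l 16776288)) (a (c (l 16778496) (l 16775808)) (l 16776264))) (c (a (l 16774008) (l 16771744)) (c (l 16772968) (l 16772984)))) (a (a (c (l 16774016) (l 16774112)) (a (l 16773712) (l 16771288))) (c (l 16768336) (l 16768640)))) (b (a (c (l 16769640) (l 16769976)) (a (l 16767808)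 (l 16765600))) (c (a (l 16763800) (l 16764536)) (a (l 16764328) (l 16765232))))) (b (a (a (b (l 16772232) (l 16767816)) (b (l 16770032) (l 16768240))) (b (a (l 16765208) (l 16768264)) (l 16763648))) (a (c (l 16759696) (c (l 16762904) (l 16760592))) (c (l 16757888) (l 16758792)))))), by decide +kernel⟩

def k94_pm_011 : ∃ t, chk3 f_pm_011 t 36 125 1 = true :=
  ⟨(c (a (b (a (c (c (l 16759528) (l 16758608)) (l 16759976)) (c (c (l 16755744) (l 16754664)) (l 16755800))) (c (a (b (l 16754432) (l 16754328)) (b (l 16755904) (l 16750880))) (b (l 16755576) (a (l 16754464) (l 16750856))))) (a (b (c (l 16753888) (l 16754200)) (b (c (l 16752312) (l 16749552)) (c (l 16740504) (l 16748216)))) (b (c (l 16750032) (l 16750032)) (c (c (l 16746528) (l 16745008)) (l 16745528))))) (c (a (b (a (l 16758328) (l 16755160)) (b (l 16753568) (a (l 16752344) (l 16748576)))) (b (a (l 16753344) (l 16748848)) (b (l 16748080) (l 16744480)))) (a (b (b (a (l 16765240) (l 16750432)) (l 16753520)) (b (l 16750392) (a (l 16751896) (l 16746912)))) (b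 (a (l 16754480) (l 16750144)) (b (l 16745592) (l 16742344)))))), by decide +kernel⟩

def k95_pm_011 : ∃ t, chk3 f_pm_011 t 37 62 1 = true :=
  ⟨(b (a (c (b (c (a (b (l 16762768) (l 16759080)) (l 16756456)) (a (l 16761496) (l 16756928))) (a (c (l 16749304) (l 16752304)) (c (l 16750424) (l 16747896)))) (b (c (a (l 16762440) (l 16758064)) (a (l 16763104) (l 16758872))) (a (c (l 16753496) (l 16754552)) (c (l 16749160) (l 16739864))))) (c (b (c (a (l 16752264) (l 16748000)) (a (l 16752408) (l 16758432))) (c (c (l 16745152) (l 16743560)) (l 16741376))) (b (c (a (l 16753728) (l 16759936)) (l 16755216)) (b (l 16748280) (l 16745128))))) (c (a (a (b (c (l 16749008) (l 16746120)) (c (l 16740880) (l 16743160))) (c (b (c (l 16746008) (l 16744352)) (l 16738360)) (b (l 16742080) (l 16740576)))) (c (a (b (l 16742760) (l 16730584)) (b (l 16738200) (l 16728048))) (b (c (l 16740008) (l 16738488)) (l 16736704)))) (b (a (c (c (l 16746304) (l 16745840)) (b (l 16745928) (l 16746008))) (c (l 16739048) (b (l 16747200) (l 16741672))))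 (c (a (l 16739208) (l 16733872)) (a (l 16736864) (l 16731304)))))), by decide +kernel⟩

def k96_pm_011 : ∃ t, chk3 f_pm_011 t 18 126 1 = true :=
  ⟨(a (b (b (c (c (a (c (l 16749672) (l 16748336)) (c (l 16739608) (l 16738216))) (a (l 16749096) (l 16741480))) (a (c (l 16744248) (l 16747552)) (c (l 16744296) (l 16742096)))) (c (a (c (c (l 16743792) (l 16742560)) (c (l 16741376) (l 16740240))) (c (c (l 16739136) (l 16737848)) (l 16746456))) (a (c (l 16749112) (l 16747120)) (c (l 16733584) (l 16731328))))) (b (c (c (a (c (l 16743088) (l 16741960)) (c (l 16738608) (l 16737416))) (a (c (l 16740856) (l 16739776)) (l 16738264))) (a (c (l 16743432) (l 16746640)) (c (l 16733304) (l 16731000)))) (c (c (a (a (l 16742864) (l 16740704)) (c (l 16738000) (l 16736920))) (a (c (l 16740264) (l 16739240)) (c (l 16735816) (l 16734696)))) (c (a (c (l 16738208) (l 16737176)) (l 16732976)) (a (l 16735616) (l 16730624)))))) (c (c (b (a (b (l 16739312) (a (l 16734976) (l 16732624))) (c (l 16731200) (l 16728448))) (a (c (b (l 16734104) (l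 16733680)) (b (l 16732864) (l 16732536))) (c (b (l 16729568) (l 16729296)) (b (l 16728272) (l 16728112))))) (b (a (c (l 16731896) (l 16730568)) (c (l 16727032) (l 16725632))) (b (a (l 16730984) (l 16726304)) (a (c (l 16731360) (l 16730152)) (l 16728864))))) (a (b (c (c (l 16729264) (l 16728000)) (l 16739264)) (a (c (l 16729568) (l 16727048)) (c (l 16727184) (l 16724536)))) (b (c (c (l 16724248) (l 16722880)) (l 16720864)) (c (c (l 16724288) (l 16722912)) (b (l 16720808) (l 16720736))))))), by decide +kernel⟩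

def k97_pm_011 : ∃ t, chk3 f_pm_011 t 18 254 1 = true :=
  ⟨(c (c (a (a (b (c (a (l 16742432) (l 16740392)) (a (l 16741552) (l 16739472))) (c (a (l 16741536) (l 16739568)) (a (l 16740744) (l 16738704)))) (b (c (a (l 16738344) (l 16736288)) (l 16736352)) (c (b (l 16739480) (l 16736624)) (b (l 16735944) (l 16735584))))) (a (b (c (a (l 16734224) (l 16732240)) (a (l 16733208) (l 16731192))) (c (a (l 16733688) (l 16731864)) (a (l 16732584) (l 16730664)))) (b (c (a (l 16730232) (l 16728120)) (b (l 16727952) (l 16727888))) (c (l 16729176) (l 16727824))))) (a (a (b (c (l 16739592) (l 16738632)) (c (a (l 16739904) (l 16737792)) (a (l 16739016) (l 16736824)))) (b (c (l 16735336) (l 16734272)) (b (a (l 16735536) (l 16733360)) (l 16733912)))) (a (b (c (l 16731176) (l 16730016)) (c (a (l 16731416) (l 16729400)) (l 16734304))) (b (c (b (l 16726776) (l 16726712)) (l 16730904)) (c (l 16726408) (l 16724928)))))) (c (a (a (b (c (l 16737640) (l 16736616)) (c (b (l 16737208) (l 16736520)) (b (l 16736192) (l 16735456)))) (a (b (l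 16733728) (a (l 16733512) (l 16732336))) (b (l 16731464) (l 16735792)))) (a (b (c (l 16728808) (l 16727536)) (c (l 16727712) (l 16726304))) (b (c (l 16724328) (l 16722928)) (l 16722568)))) (a (a (b (c (l 16735560) (l 16734472)) (b (l 16739824) (c (l 16734344) (l 16733168)))) (a (b (l 16731400) (l 16735688)) (b (l 16729000) (l 16727904)))) (a (b (c (l 16726200) (l 16724808)) (c (l 16724824) (l 16723288))) (b (c (l 16721464) (l 16719920)) (l 16719192)))))), by decide +kernel⟩

def k98_pm_011 : ∃ t, chk3 f_pm_011 t 18 255 1 = true :=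
  ⟨(c (a (c (a (c (b (a (l 16740728) (l 16739016)) (b (l 16739432) (a (l 16739864) (l 16738320)))) (b (a (l 16739672) (l 16737840)) (b (l 16738016) (a (l 16738320) (l 16736648))))) (a (c (b (l 16737296) (c (l 16737320) (l 16736472))) (b (l 16736008) (c (l 16735624) (l 16734768)))) (c (b (l 16735576) (c (l 16735768) (l 16734864))) (b (l 16734176) (c (l 16733952) (l 16733040)))))) (a (b (c (l 16737608) (l 16736408)) (c (a (l 16737128) (l 16735304)) (a (l 16735640) (l 16733688)))) (b (c (l 16733704) (l 16732272)) (c (a (l 16733480) (l 16731664)) (a (l 16731736) (l 16729800)))))) (c (a (a (c (b (l 16733848) (c (l 16734208) (l 16733248))) (b (l 16732336) (c (l 16732280) (l 16731312)))) (c (b (l 16732120) (c (l 16732640) (l 16731624))) (b (l 16730496) (c (l 16730608) (l 16729576))))) (c (b (c (l 16729960) (l 16729080)) (c (a (l 16731080) (l 16729512)) (a (l 16730008) (l 16728392)))) (b (c (l 16728192) (l 16727288)) (b (l 16727608) (a (l 16728304) (l 16726648)))))) (a (c (b (l 16729808) (a (l 16729840) (l 16728024)))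 (b (l 16728152) (a (l 16727864) (l 16725936)))) (c (b (l 16725920) (c (l 16725880) (l 16724760))) (b (l 16724048) (l 16724376)))))) (b (a (c (a (c (l 16735168) (l 16733880)) (c (l 16730792) (l 16729272))) (a (l 16737112) (l 16726904))) (c (a (l 16728200) (l 16721152)) (a (l 16721984) (l 16717120)))) (a (c (a (a (l 16735984) (l 16731216)) (c (l 16728952) (l 16727104))) (a (c (l 16729872) (l 16728224)) (l 16726912))) (c (a (c (l 16724848) (l 16722768)) (c (l 16720784) (l 16718472))) (a (l 16719592) (l 16714960)))))), by decide +kernel⟩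

def k99_pm_011 : ∃ t, chk3 f_pm_011 t 19 62 1 = true :=
  ⟨(b (a (c (a (a (b (c (l 16743712) (l 16753984)) (c (l 16738224) (l 16734872))) (b (c (l 16739464) (l 16749488)) (c (l 16736816) (l 16735904)))) (b (c (l 16734616) (l 16732048)) (c (a (l 16732384) (l 16727168)) (l 16731704)))) (b (a (c (l 16745624) (l 16744280)) (c (l 16734176) (l 16735728))) (b (a (l 16741128) (c (l 16737368) (l 16739136))) (a (c (l 16741568) (l 16743272)) (l 16731008))))) (c (b (a (c (b (l 16736592) (l 16726376)) (l 16727672)) (c (c (l 16721296) (l 16719096)) (b (l 16726264) (l 16723928)))) (c (a (l 16723264) (l 16717728)) (a (l 16729888) (l 16724264)))) (b (a (c (a (l 16737872) (l 16733224)) (l 16737104)) (c (l 16726696) (l 16727296))) (a (c (l 16726512) (l 16723688)) (l 16713896))))) (a (a (c (b (c (c (l 16735328) (l 16733496)) (l 16733576)) (c (c (l 16725064) (l 16723408)) (l 16731512))) (b (c (l 16727920) (l 16735776)) (c (l 16728520) (l 16725744)))) (c (c (a (b (l 16730416) (l 16730776)) (b (l 16727736) (l 16728160))) (b (l 16725504)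 (c (l 16726904) (l 16725304)))) (b (c (l 16722328) (l 16729992)) (c (l 16728224) (l 16730512))))) (c (b (c (a (l 16724800) (c (l 16708480) (l 16706568))) (a (l 16719880) (l 16714304))) (c (a (c (l 16724848) (l 16723144)) (c (l 16719232) (l 16707024))) (a (c (l 16721464) (l 16709328)) (l 16720192)))) (b (c (a (l 16727064) (l 16721352)) (a (l 16724056) (l 16718160))) (a (c (l 16727880) (l 16724744)) (c (l 16722072) (l 16718776))))))), by decide +kernel⟩

def k100_pm_011 : ∃ t, chk3 f_pm_011 t 19 126 1 = true :=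
  ⟨(a (c (b (b (a (c (l 16724312) (l 16721304)) (c (c (l 16719944) (l 16718400)) (l 16726576))) (c (a (l 16724328) (l 16719496)) (a (l 16721456) (l 16716536)))) (c (a (c (b (l 16724968) (l 16724848)) (b (l 16723640) (l 16723624))) (c (b (l 16720288) (l 16720312)) (l 16721624))) (a (c (l 16722320) (l 16720944)) (c (l 16717632) (l 16716200))))) (b (b (a (c (l 16718368) (l 16715488)) (c (l 16713024) (l 16709968))) (c (a (l 16718552) (l 16713488)) (a (l 16715608) (l 16710352)))) (a (c (c (l 16719520) (l 16718056)) (c (l 16716536) (l 16714968))) (c (c (l 16714704) (l 16713152)) (c (l 16711536) (l 16709856)))))) (c (c (a (b (c (a (l 16716280) (l 16713568)) (a (l 16714760) (l 16712040))) (b (c (a (l 16716624) (l 16714088)) (a (l 16715248) (l 16712704))) (c (a (l 16716888) (b (l 16714336) (l 16714632))) (a (l 16715608) (l 16718536))))) (b (c (a (l 16710640) (l 16708160)) (a (l 16709104) (l 16706608))) (b (c (a (l 16711208) (l 16708720)) (l 16708312)) (c (a (b (l 16711536) (l 16711984)) (l 16709288)) (a (l 16710640) (l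 16707944)))))) (a (a (b (l 16722936) (b (l 16713080) (l 16713528))) (b (l 16709704) (b (l 16710504) (c (l 16711904) (l 16710424))))) (a (b (l 16706744) (b (l 16707600) (c (l 16709224) (l 16707712)))) (b (l 16704216) (c (l 16711480) (l 16704696)))))) (b (b (c (a (l 16707608) (l 16701848)) (a (l 16704376) (l 16698456))) (a (c (l 16718560) (l 16704776)) (c (l 16702344) (l 16698896)))) (b (a (c (a (l 16709976) (l 16707344)) (a (l 16706640) (l 16703928))) (c (l 16713368) (l 16699376))) (a (c (a (l 16710464) (l 16718528)) (a (l 16707064) (l 16704536))) (c (a (l 16715760) (l 16702456)) (c (l 16711616) (l 16709696)))))))), by decide +kernel⟩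

def k101_pm_011 : ∃ t, chk3 f_pm_011 t 38 127 1 = true :=
  ⟨(c (b (c (a (c (b (c (l 16725136) (l 16724552)) (l 16725416)) (b (l 16726264) (l 16723864))) (c (b (b (l 16720416) (l 16720856)) (l 16721640)) (b (l 16724352) (l 16719904)))) (a (b (c (l 16722352) (l 16720992)) (c (l 16722256) (l 16720568))) (c (b (l 16717704) (l 16718096)) (b (l 16716208) (l 16716224))))) (c (a (c (b (c (l 16726536) (l 16725560)) (c (a (l 16727952) (l 16726392)) (a (l 16726776) (l 16725168)))) (b (c (l 16724568) (l 16723568)) (b (l 16724144) (a (l 16724992) (l 16723336))))) (c (b (c (l 16723112) (l 16722040)) (c (a (l 16724832) (l 16723272)) (a (l 16723552) (l 16721944)))) (b (l 16720400) (b (l 16720696) (a (l 16721680) (l 16720040)))))) (a (c (b (l 16722040) (c (l 16722336) (l 16721104))) (b (l 16719960) (l 16719248))) (c (b (l 16718168) (c (l 16718800) (l 16717472))) (b (l 16715896) (l 16715456)))))) (b (c (a (b (c (l 16719544) (l 16718016)) (l 16717912)) (b (c (l 16714632) (l 16712968)) (l 16713280))) (b (a (c (l 16716416) (l 16714728))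 (l 16720792)) (a (l 16714136) (l 16709104)))) (c (a (b (l 16716752) (c (l 16716752) (l 16714224))) (b (l 16712376) (c (l 16712744) (l 16710000)))) (a (c (l 16717808) (l 16710136)) (c (l 16708008) (l 16705360)))))), by decide +kernel⟩

def k102_pm_011 : ∃ t, chk3 f_pm_011 t 39 127 2 = true :=
  ⟨(c (a (b (b (c (a (l 16717320) (l 16715360)) (a (l 16715896) (l 16713848))) (c (l 16717856) (l 16715936))) (c (b (c (l 16719688) (l 16718520)) (b (a (l 16720776) (l 16719152)) (c (a (l 16721992) (l 16720480)) (l 16719784)))) (b (l 16716736) (c (a (l 16718952) (l 16717304)) (l 16718024))))) (b (c (a (b (l 16713152) (c (l 16715376) (l 16714368))) (b (l 16710960) (l 16713056))) (a (b (l 16711560) (l 16712824)) (b (l 16709272) (l 16710904)))) (c (a (b (c (l 16717016) (l 16715776)) (c (b (l 16718248) (l 16718968)) (l 16717136))) (b (c (a (l 16715944) (l 16715264)) (l 16714256)) (c (a (b (l 16717240) (l 16718048)) (b (l 16716720) (l 16717600))) (a (l 16716112) (b (l 16715240) (l 16716000)))))) (a (b (c (l 16714520) (l 16713256))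 (c (l 16715656) (l 16714160))) (b (c (l 16712952) (l 16711632)) (c (a (l 16714584) (l 16714048)) (a (l 16713056) (l 16712488)))))))) (a (b (b (a (l 16713592) (l 16711416)) (c (l 16713944) (l 16711880))) (c (b (l 16714312) (c (l 16715288) (l 16713856))) (b (l 16711840) (l 16711688)))) (b (c (a (b (l 16709872) (l 16710696)) (b (l 16707504) (l 16708680))) (a (b (l 16708096) (l 16708496)) (l 16705992))) (a (c (b (l 16711328) (l 16711904)) (b (l 16708712) (l 16708872))) (c (b (l 16709632) (a (l 16710744) (l 16712760))) (b (l 16706912) (c (l 16708032) (l 16706448)))))))), by decide +kernel⟩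

def k103_pm_011 : ∃ t, chk3 f_pm_011 t 39 127 3 = true :=
  ⟨(c (a (b (b (a (l 16710208) (l 16707856)) (l 16708648)) (c (b (l 16709312) (l 16708768)) (l 16711536))) (b (a (c (l 16706168) (l 16704016)) (c (l 16703824) (l 16701584))) (b (c (a (l 16706040) (l 16704136)) (a (l 16703320) (l 16701304))) (a (l 16704248) (c (l 16704064) (l 16700848)))))) (a (b (a (l 16705752) (b (l 16703928) (l 16702832))) (c (l 16703480) (l 16700624))) (b (a (c (l 16701784) (l 16699472)) (l 16708544)) (a (b (l 16699128) (l 16697960)) (b (l 16696952) (l 16695952)))))), by decide +kernel⟩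

def k104_pm_011 : ∃ t, chk3 f_pm_011 t 5 6 1 = true :=
  ⟨(b (l 4) (a (l 4) (b (l 4) (a (b (l 4) (a (l 4) (b (l 4) (a (l 4) (a (l 4) (b (l 4) (c (b (l 126936439895) (l 96334815111)) (l 97945429671)))))))) (b (a (l 4) (b (a (l 4) (b (l 4) (a (l 4) (c (l 122104639719) (l 143579435895))))) (c (a (b (l 4) (a (l 121567768551) (l 117809662615))) (b (a (l 126936472871) (l 94724198439)) (c (l 16797376) (l 16794656)))) (a (b (l 4) (a (l 141968822679) (l 120493997063))) (b (a (l 146263784951) (l 16796016)) (l 16795448)))))) (a (c (b (a (l 4) (b (a (l 4) (b (l 4) (l 126936458887))) (a (l 111367206471) (l 58753849271)))) (c (a (b (l 99556054231) (a (l 52848264087) (l 16788800))) (l 16792832)) (a (b (l 97408570471) (l 29225943655)) (l 16787688)))) (b (a (l 4) (b (a (l 4) (l 143042559271)) (a (l 111367202215) (l 16792360)))) (a (b (a (l 133378887975) (l 70028139399)) (c (l 16793176) (l 16790528))) (b (l 16789536) (l 16779408))))) (c (b (a (a (b (l 88818639815) (l 16786640)) (l 16798056)) (l 16796224)) (c (l 16793400) (l 16802864)))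 (b (a (b (c (l 50163910263) (l 43721455303)) (l 16780104)) (l 16783024)) (l 16784608))))))))), by decide +kernel⟩

def k105_pm_011 : ∃ t, chk3 f_pm_011 t 20 28 1 = true :=
  ⟨(l 4), by decide +kernel⟩

def k106_pm_011 : ∃ t, chk3 f_pm_011 t 21 56 1 = true :=
  ⟨(l 4), by decide +kernel⟩

def k107_pm_011 : ∃ t, chk3 f_pm_011 t 42 57 1 = true :=
  ⟨(b (l 4) (a (l 4) (b (l 4) (c (a (a (l 4) (b (l 4) (c (l 110830311719) (l 109756576567)))) (b (a (b (l 4) (l 119957115831)) (b (l 117809642167) (a (l 97408550055) (l 16793776)))) (a (b (a (l 110293438503) (l 88281743463)) (c (l 16789584) (l 16787808))) (c (l 16789288) (l 16787336))))) (a (a (l 4) (b (l 4) (c (l 107609089463) (l 86134239415)))) (a (b (l 123178345367) (b (a (l 95797931591) (l 74859965255)) (l 16785200))) (b (b (l 114051549175) (c (l 80228673671) (l 73786217687))) (l 16784512)))))))), by decide +kernel⟩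

def k108_pm_011 : ∃ t, chk3 f_pm_011 t 43 57 1 = true :=
  ⟨(b (a (b (l 4) (a (l 4) (a (l 4) (b (l 4) (c (l 121030863255) (l 121030871143)))))) (b (a (l 4) (b (l 4) (c (c (l 114051547607) (l 110293457383)) (a (l 125325817559) (l 87208003495))))) (b (c (a (a (l 4) (l 112977808807)) (a (b (l 95797939271) (l 16788472)) (l 16790864))) (a (a (l 4) (l 90429228231)) (c (l 30836541991) (l 16783712)))) (c (a (a (b (l 113514663751) (l 83449906135)) (c (l 63585680071) (l 16787536))) (l 16786776)) (a (c (a (l 89355489271) (l 16785624)) (l 35668384455)) (l 16782320)))))) (a (a (b (b (l 4) (c (a (b (l 4) (l 114051545383)) (b (l 107609094183) (c (l 16789440) (l 16787720)))) (a (b (l 4) (l 108145969095)) (b (l 97408551271) (l 57143225255))))) (a (b (c (b (c (l 84523647239) (l 79154935079)) (l 16788504)) (c (b (l 16791272) (l 16785664)) (l 16779008))) (c (l 16786824) (l 16782776))) (c (l 16786488) (l 16782368)))) (c (b (b (a (b (l 121030857527) (l 102777255943)) (b (l 88281745031) (l 16788576))) (c (a (l 16790792) (l 16788360))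 (l 16781720))) (l 16783280)) (b (c (a (b (l 104387873911) (l 16785600)) (l 16341031927)) (a (b (l 79154918327) (l 16783736)) (l 16783384))) (l 16789560)))) (b (a (c (c (l 16787152) (l 16784880)) (l 16785568)) (c (l 16784464) (l 16777072))) (c (l 16785552) (l 16792728))))), by decide +kernel⟩

def k109_pm_011 : ∃ t, chk3 f_pm_011 t 40 58 1 = true :=
  ⟨(l 4), by decide +kernel⟩

def k110_pm_011 : ∃ t, chk3 f_pm_011 t 41 116 1 = true :=
  ⟨(a (l 4) (a (l 4) (b (l 4) (b (l 4) (c (c (a (l 117272763943) (b (l 114051536967) (a (l 99556022135) (l 16789456)))) (a (l 118883373031) (b (l 112977791671) (a (l 93650447319) (l 16787864))))) (a (b (l 4) (l 114588410359)) (a (c (l 100629768007) (l 96334798119)) (b (l 99556025143) (l 45332051719))))))))), by decide +kernel⟩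

def k111_pm_011 : ∃ t, chk3 f_pm_011 t 82 117 1 = true :=
  ⟨(b (b (l 4) (b (l 4) (a (l 4) (a (l 4) (a (l 4) (b (l 4) (c (c (l 102777253431) (l 97945412103)) (l 88818606759)))))))) (c (a (c (b (a (l 4) (l 116199022071)) (a (b (l 4) (a (l 111367181751) (b (l 107072214455) (l 85060512151)))) (b (a (l 105461601655) (b (l 99019156999) (l 16789240))) (c (a (l 66806897223) (l 16789304)) (l 46942665511))))) (b (a (l 4) (l 118346502295)) (a (b (l 4) (a (l 110293436887) (b (l 102777244535) (l 74323088391)))) (b (a (l 102777244215) (b (l 94187315447) (l 16787760))) (l 43184569111))))) (b (a (c (b (l 113514665959) (a (l 100629774103) (c (l 78618061543) (l 74859961943)))) (b (l 113514662663) (a (l 96334804279) (l 68417508775)))) (b (a (c (l 93113576743) (l 87744867191)) (c (l 66270027607) (l 16787784))) (l 16788096))) (a (c (l 16785896) (l 16786888)) (l 16785920)))) (a (b (a (l 4) (c (l 119957111799) (l 121567731959))) (a (b (l 4) (a (c (l 108145950439) (l 104924722439)) (c (b (l 99019150903) (l 16786288)) (b (l 92039825447)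 (l 16784904))))) (b (a (c (l 98482284871) (l 93113573655)) (c (c (l 71101859399) (l 56606337639)) (l 51774499175))) (c (l 16786024) (l 16784520))))) (b (a (c (b (l 112440917751) (a (l 89355480343) (l 16783680))) (b (l 111367183559) (a (l 86134248135) (l 16784848)))) (b (a (b (l 95261058103) (l 59827571495)) (l 41037086983)) (l 16784872))) (c (l 16784432) (l 16782840)))))), by decide +kernel⟩

def k112_pm_011 : ∃ t, chk3 f_pm_011 t 83 117 1 = true :=
  ⟨(b (c (a (c (b (a (l 4) (b (l 4) (a (l 112440923863) (l 92039837591)))) (a (b (l 106535348887) (a (l 85597385543) (l 16789336))) (b (a (l 77544320919) (l 16789272)) (l 16788584)))) (b (a (l 4) (b (l 4) (a (l 110293436999) (l 87207995927)))) (a (b (l 104387867415) (a (l 79691801719) (l 16787720))) (c (b (l 50700759671) (l 16787296)) (l 16783072))))) (b (c (a (b (a (l 105998472855) (l 85597385751)) (l 16789360)) (l 16788800)) (a (b (a (l 102240373511) (l 78618059431)) (l 16787688)) (l 16787032))) (l 16791016))) (b (b (a (l 4) (a (c (a (l 96871661911) (l 66270020567))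 (a (l 92039828727) (l 16784840))) (l 16785032))) (a (a (l 4) (a (l 103850992391) (b (l 91502961463) (l 16785592)))) (c (l 16785432) (l 16783760)))) (a (a (b (a (l 110830314007) (c (l 90966089911) (l 85060505687))) (c (c (l 51237627687) (l 48016402023)) (l 43721434615))) (c (l 34594630695) (l 16784160))) (l 16787560)))) (a (c (c (l 16790632) (l 16788968)) (c (l 16787320) (l 16790944))) (c (l 16790256) (l 16787152)))), by decide +kernel⟩

def k113_pm_011 : ∃ t, chk3 f_pm_011 t 80 118 1 = true :=
  ⟨(b (l 4) (c (a (b (l 4) (a (l 4) (b (l 4) (a (l 4) (b (l 4) (c (c (l 101166639703) (l 99019154919)) (a (a (l 4) (l 88281734839)) (b (l 100092894119) (l 65196280519))))))))) (b (a (l 4) (b (l 4) (c (a (l 109756573751) (b (l 104924735559) (a (l 90966090967) (l 16788872)))) (a (l 109219700023) (b (l 101166636727) (a (l 81302410343) (l 16787512))))))) (a (b (a (l 4) (b (c (l 102240380839) (l 108145952935)) (c (a (l 99556026679) (c (l 84523638215) (l 67343763319))) (a (l 93113568503) (l 62511924791))))) (a (c (b (a (l 104387859319)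 (b (l 100092895479) (l 16788728))) (c (l 58216958343) (l 16785784))) (b (a (l 99556018855) (b (l 74859955559) (l 16787424))) (l 50700765495))) (c (l 16787328) (l 16787240)))) (a (b (c (b (a (l 96871671287) (l 75396832071)) (l 16788776)) (b (a (l 88281733191) (l 16787480)) (l 16787384))) (l 16787352)) (c (l 16787992) (l 16786552)))))) (a (b (l 4) (a (l 4) (b (l 4) (b (l 4) (a (l 4) (c (a (b (l 4) (l 76470566263)) (c (l 65733147527) (l 61975050407))) (a (l 79154924871) (l 56606340759)))))))) (b (a (l 4) (b (l 4) (a (c (l 107609087255) (b (l 4) (l 95261046855))) (c (b (l 96334796423) (l 53921987655)) (b (l 89355472391) (l 16784840)))))) (b (a (a (l 4) (c (b (l 104924724983) (a (c (l 72712468567) (l 69491242551)) (l 16786128))) (b (l 100629755479) (c (l 60364435367) (l 56606338055))))) (c (a (b (c (l 59290695527) (l 55532598519)) (l 16786000)) (l 16785728)) (c (l 37815856199) (l 35131502887)))) (a (c (a (b (a (b (l 4) (l 71638728663)) (l 59290697447)) (l 16786064)) (l 16785856)) (a (b (c (a (l 72712466759) (l 16785136))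 (l 61975046759)) (l 16784736)) (l 16784480))) (l 16785416))))))), by decide +kernel⟩

def k114_pm_011 : ∃ t, chk3 f_pm_011 t 81 236 1 = true :=
  ⟨(c (a (b (l 4) (c (a (l 4) (b (l 112440929015) (a (b (l 103314117703) (a (l 101166634391) (l 86671123335))) (b (a (l 97408542455) (l 16788976)) (l 16788976))))) (a (l 4) (b (l 112440925943) (a (b (l 109219694935) (a (l 96871668583) (l 64122537431))) (b (a (l 90429217159) (l 16787600)) (l 16787536))))))) (b (a (b (l 4) (a (l 4) (c (l 106535348503) (l 104387862071)))) (b (a (c (l 108682827383) (l 114588404295)) (b (c (l 103850988855) (l 99556029159)) (c (l 95261060423) (l 89355476759)))) (a (c (b (l 97945409223) (l 16789096)) (b (l 93650444519) (l 16787664))) (c (l 16789056) (l 16787552))))) (c (a (b (a (b (l 105998472407) (c (l 85060510919) (l 80228670199))) (b (l 78081188727) (l 16788952))) (l 16788536)) (l 16787688)) (a (b (a (b (l 102240373463) (l 73786217335)) (l 49627020951)) (l 16787024)) (l 16786144))))) (a (b (l 4) (a (l 4) (c (b (l 112440928263) (a (b (l 105461596007)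 (l 79154925863)) (c (l 51774501655) (l 48553275639)))) (b (l 111904054599) (a (b (l 101166626455) (l 59290693895)) (l 44258308087)))))) (b (a (b (l 4) (a (l 4) (c (l 101166634103) (l 96871669911)))) (a (b (c (l 114051530455) (l 112440914999)) (b (c (l 86671118711) (l 64122531479)) (l 44795185511))) (b (c (b (l 105998467015) (l 79691795415)) (b (l 100629755639) (l 59290694039))) (l 16787960)))) (b (a (c (a (b (l 96871662199) (l 54995729543)) (l 16786168)) (a (b (l 92576696615) (l 16784880)) (l 16784744))) (l 16784568)) (c (l 16784744) (l 16783240)))))), by decide +kernel⟩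

def k115_pm_011 : ∃ t, chk3 f_pm_011 t 81 237 1 = true :=
  ⟨(c (a (b (a (a (b (b (l 4) (c (l 101703510295) (l 96871669863))) (b (a (c (l 85060510279) (l 63585666487)) (l 16788216)) (l 16788032))) (b (c (b (l 96871672439) (l 67880638775)) (b (a (l 87207993271) (l 82376152359)) (l 16787544))) (l 16787744))) (c (c (l 16785816) (l 16787688)) (c (l 16786936) (l 16786200)))) (c (l 16785608) (l 16784184))) (c (l 16793512) (l 16792136))) (a (b (a (b (b (a (l 4) (c (a (l 82376153063) (l 60901310327)) (c (l 66270014711) (l 63048788647)))) (a (c (l 90966087751) (l 85597373703)) (c (l 16786168) (l 16784800)))) (c (c (l 16786216) (l 16785504)) (l 16785752))) (c (l 16785088) (l 16783632))) (c (l 16782768) (l 16781344))) (c (l 16790744) (l 16784104)))), by decide +kernel⟩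

def k116_pm_011 : ∃ t, chk3 f_pm_011 t 80 119 2 = true :=
  ⟨(b (a (b (a (b (a (l 4) (a (l 4) (b (l 4) (c (l 103314122615) (l 98482282215))))) (a (b (c (l 108145960519) (l 106535345223)) (c (a (c (l 98482279911) (l 95797924359)) (b (c (l 76470570071) (l 71638731447)) (l 16788592))) (a (c (l 92576697991) (b (l 85060503543) (l 68417504567))) (c (l 60901312087) (l 57143215079))))) (c (c (b (a (l 94187315271) (l 63585668519)) (l 16788864)) (b (a (l 92039830151) (l 16785688)) (l 16788192))) (b (a (b (l 98482280711) (l 64122538887)) (l 16787336)) (l 16787192))))) (b (b (b (a (c (l 100092896999) (a (l 4) (l 87744858663))) (c (c (l 80765541287) (l 65196279543)) (c (l 61438183015) (l 16785744)))) (a (c (c (l 101703505415) (l 99019149767)) (a (l 90429213031) (l 72175601511))) (c (l 16788696) (l 16787360)))) (a (c (a (a (l 93113573575) (l 81839283255)) (l 16788680)) (a (c (l 66806891031) (l 63585665207)) (l 16787360))) (l 16787808))) (c (l 16787976) (l 16786592)))) (a (b (c (c (l 16787120) (l 16787752)) (c (l 16787072)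 (l 16786392))) (l 16785904)) (c (l 16785424) (l 16784104)))) (a (b (c (l 16787064) (l 16785664)) (l 16782496)) (c (l 16782872) (l 16781608)))) (c (c (l 16786960) (l 16787816)) (a (l 16789552) (l 16784608)))), by decide +kernel⟩

def k117_pm_011 : ∃ t, chk3 f_pm_011 t 80 119 3 = true :=
  ⟨(b (a (b (a (b (b (l 4) (b (l 4) (a (l 4) (a (l 4) (c (l 70564986935) (l 61975050679)))))) (a (c (b (c (l 104924725447) (l 102777240663)) (a (c (b (l 79691791863) (l 61975052727)) (l 66270016951)) (l 52311376535))) (b (a (l 4) (c (l 80228661975) (l 76470564487))) (c (a (l 64122532615) (l 16785080)) (l 53921983383)))) (c (b (c (a (l 64659405623) (l 16786368)) (l 53921985927)) (l 16785856)) (c (l 42647695063) (l 39963341591))))) (b (a (c (b (c (l 96334796839) (l 93113570391)) (c (l 52848245607) (l 49090148439))) (b (a (l 84523633591) (l 64122532903)) (l 45332052999))) (c (c (l 16784976) (l 16785616)) (l 35131507879))) (c (l 16785216) (l 16783840)))) (a (c (c (l 16785040) (l 16784360)) (c (l 16783688) (l 16783016))) (c (l 16782784)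 (l 16781448)))) (a (b (c (l 16784272) (l 16782880)) (l 16779968)) (c (l 16780328) (l 16779024)))) (a (c (l 16788448) (l 16782048)) (a (l 16784360) (l 16781976)))), by decide +kernel⟩

def k118_pm_011 : ∃ t, chk3 f_pm_011 t 81 119 1 = true :=
  ⟨(c (b (c (l 16788328) (c (l 16786248) (l 16785720))) (c (l 16787992) (l 16776984))) (a (b (c (l 16787312) (l 16786088)) (l 16778368)) (b (l 16781912) (l 16773496)))), by decide +kernel⟩

def k119_pm_011 : ∃ t, chk3 f_pm_011 t 41 59 1 = true :=
  ⟨(b (a (c (b (c (a (b (a (b (a (b (l 91502963847) (l 16789144)) (l 16789000)) (l 16788224)) (l 16787248)) (l 16784560)) (l 16781848)) (a (b (a (a (a (b (l 75933702631) (l 16787176)) (l 16787392)) (l 16786920)) (l 16785648)) (l 16783056)) (l 16780392))) (c (l 16785832) (l 16784720))) (b (c (a (a (a (b (b (l 51237630839) (l 16785480)) (l 16783168)) (l 16783872)) (l 16782328)) (l 16778920)) (b (a (c (a (l 16783256) (l 16782904)) (l 21172859063)) (l 16779360)) (l 16788304))) (c (l 16783552) (l 16782320)))) (b (c (c (l 16795032) (l 16793824))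 (c (l 16792568) (l 16780768))) (c (c (l 16770200) (l 16784856)) (l 16773064)))) (a (b (c (c (l 16786840) (l 16786224)) (c (l 16785472) (l 16774104))) (c (c (l 16777224) (l 16777128)) (l 16770048))) (c (c (l 16766176) (a (l 16773864) (l 16768648))) (b (l 16764632) (l 16766704))))), by decide +kernel⟩

def k120_pm_011 : ∃ t, chk3 f_pm_011 t 21 58 1 = true :=
  ⟨(a (b (a (b (a (l 4) (c (c (b (l 118883378071) (a (b (l 111904054023) (l 99556032519)) (b (l 87744871927) (l 16789480)))) (b (l 120493986871) (a (b (l 119420243015) (l 94724191639)) (b (l 84523645095) (l 16787688))))) (b (c (l 122104606407) (l 113514668423)) (a (b (l 117272764743) (c (l 88818609399) (l 82376154631))) (b (a (l 87744868359) (l 16785456)) (l 16785072)))))) (c (a (b (c (a (l 113514677031) (b (l 104387860135) (a (l 85060514647) (l 16789488)))) (a (l 113514673383) (b (l 100629771095) (l 64122542311)))) (a (b (a (b (l 100092901367) (l 16791248)) (c (l 16789512) (l 16787848))) (l 16788248)) (l 16787440))) (a (b (b (c (l 16789528) (l 16787800)) (l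 16787840)) (l 16785544)) (l 16785200))) (c (a (b (a (l 112977799095) (b (l 96334801207) (l 16786232))) (a (c (b (l 65196278647) (l 16786064)) (l 43721431063)) (l 16784720))) (b (l 16784952) (l 16781696))) (a (b (a (l 111367183271) (b (l 90429218999) (l 16784640))) (a (c (l 16779608) (l 16784048)) (l 16782968))) (l 16784248))))) (c (b (a (c (b (a (b (l 113514665943) (l 81839291463)) (b (l 75396839543) (l 16789216))) (l 16788168)) (b (a (b (l 111904049591) (l 75933709239)) (b (l 69491253191) (l 16787312))) (l 16786200))) (c (l 16785880) (l 16783840))) (c (l 16784344) (l 16799328))) (b (a (b (a (b (l 105998475399) (a (l 78081191335) (l 16785352))) (c (l 16780672) (l 16784176))) (l 16788608)) (l 16791384)) (c (l 16797536) (l 16795768))))) (b (c (a (c (l 16792160) (l 16790440)) (l 16786064)) (a (c (l 16788744) (l 16787072)) (l 16778040))) (c (a (l 16782496) (l 16772776)) (a (l 16779800) (l 16780216))))) (c (b (a (c (l 16790728) (l 16793392)) (l 16780816)) (c (a (l 16797736) (l 16809888)) (a (l 16763360) (l 16768888))))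 (b (a (c (l 16781104) (l 16789856)) (l 16775296)) (c (a (l 16774752) (l 16764520)) (a (l 16773672) (l 16763664)))))), by decide +kernel⟩

def k121_pm_011 : ∃ t, chk3 f_pm_011 t 21 59 1 = true :=
  ⟨(c (a (a (c (b (l 16778688) (l 16770368)) (b (l 16778872) (b (l 16765360) (l 16756376)))) (b (c (l 16788296) (l 16768376)) (b (l 16766240) (c (l 16780144) (l 16746088))))) (b (c (a (l 16800344) (l 16814264)) (a (l 16748024) (l 16755984))) (c (a (l 16797248) (l 16813456)) (a (l 16745776) (l 16735904))))) (a (b (c (a (l 16778144) (l 16767960)) (a (l 16777272) (l 16767352))) (b (a (l 16765160) (l 16755240)) (a (l 16756824) (l 16746992)))) (b (b (c (l 16757000) (l 16756568)) (a (l 16753584) (l 16743744))) (a (a (l 16743744) (l 16738880)) (l 16729024))))), by decide +kernel⟩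

def k122_pm_011 : ∃ t, chk3 f_pm_011 t 20 60 1 = true :=
  ⟨(a (c (b (b (a (c (l 16778456) (l 16778016)) (c (l 16778296) (l 16778304))) (c (a (l 16768664) (l 16768528)) (a (l 16768768) (l 16769088)))) (a (c (b (a (l 16771968) (l 16766672)) (a (l 16762144) (l 16756864))) (b (l 16769984) (l 16760720))) (c (c (l 16749488) (l 16748984)) (b (l 16759864) (l 16750664))))) (b (c (a (b (l 16777432) (l 16768648)) (b (l 16778104) (l 16769352))) (a (b (c (l 16776904) (l 16776504)) (l 16768304)) (b (l 16767192) (l 16769312)))) (a (b (c (l 16770336) (l 16759896)) (c (l 16761552) (l 16761984))) (b (c (l 16760600) (l 16760952)) (c (l 16751880) (l 16752632)))))) (c (b (a (c (b (l 16767568) (c (l 16761696) (l 16758192))) (b (l 16768024) (l 16758912))) (c (b (l 16746280) (l 16754008)) (b (l 16757696) (l 16748672)))) (c (a (a (l 16745984) (l 16735528)) (b (l 16737704) (l 16728192))) (a (c (l 16744800) (b (l 16750120) (l 16741136))) (l 16732568)))) (b (b (a (l 16762912) (l 16758320)) (a (l 16754472) (l 16749976))) (a (b (l 16746040)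 (l 16737624)) (c (b (l 16741152) (l 16732688)) (l 16738024)))))), by decide +kernel⟩

def k123_pm_011 : ∃ t, chk3 f_pm_011 t 20 61 1 = true :=
  ⟨(a (b (c (c (a (b (l 16749720) (l 16740008)) (b (l 16739272) (a (l 16732208) (l 16727048)))) (a (c (l 16743160) (l 16742096)) (c (l 16731128) (l 16737488)))) (a (c (b (l 16752816) (l 16744136)) (b (l 16753648) (l 16745360))) (c (b (l 16743208) (l 16734592)) (l 16740216)))) (c (a (b (c (a (l 16732968) (l 16728240)) (l 16733272)) (c (c (l 16718536) (l 16724080)) (l 16715760))) (b (c (a (l 16724336) (l 16720600)) (l 16723168)) (c (c (l 16709224) (l 16717232)) (l 16711208)))) (a (b (c (l 16735520) (l 16737128)) (c (l 16725968) (l 16727936))) (b (c (l 16725816) (l 16727752)) (c (l 16715104) (l 16717256)))))) (b (c (a (c (b (a (l 16731504) (l 16726360)) (a (l 16722200) (l 16718168))) (b (l 16731616) (l 16722600))) (c (b (c (l 16705720) (l 16719544)) (a (l 16714096) (l 16710216))) (b (l 16721816) (l 16712624)))) (a (c (l 16724144) (l 16731024)) (b (l 16719944) (l 16714072))))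 (c (b (a (c (c (l 16708808) (l 16714088)) (l 16707408)) (c (a (l 16699296) (l 16727816)) (l 16700616))) (c (a (l 16700608) (c (l 16689264) (l 16686640))) (l 16701128))) (a (b (c (l 16715616) (l 16717816)) (l 16708560)) (b (c (l 16704816) (l 16707184)) (l 16697528)))))), by decide +kernel⟩

def k124_pm_011 : ∃ t, chk3 f_pm_011 t 21 30 1 = true :=
  ⟨(b (a (c (c (b (a (b (l 16758552) (l 16747584)) (l 16769360)) (a (b (l 16733824) (l 16716960)) (b (l 16753248) (l 16739152)))) (b (b (l 16739656) (l 16730768)) (a (l 16719896) (l 16715176)))) (b (a (b (l 16748520) (l 16740256)) (b (l 16738784) (l 16730616))) (c (b (l 16726488) (l 16718168)) (a (l 16728576) (l 16719176))))) (c (b (c (a (l 16787208) (l 16806432)) (a (l 16722776) (l 16707288))) (a (c (b (l 16774256) (l 16762656)) (l 16705368)) (c (b (l 16796344) (l 16787136)) (b (l 16700240) (l 16691144))))) (b (c (c (l 16719248) (l 16720016)) (l 16720880)) (c (a (l 16708008) (l 16698256)) (a (l 16709896) (l 16700384)))))) (a (b (b (a (c (c (l 16717632) (l 16711976)) (l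 16715816)) (c (c (l 16743176) (l 16701824)) (l 16706136))) (c (c (b (a (l 16705512) (l 16744312)) (a (c (l 16705624) (l 16701928)) (l 16698200))) (a (l 16694648) (l 16689648))) (a (c (l 16705384) (l 16707752)) (c (l 16694344) (l 16696856))))) (c (c (c (a (b (l 16690184) (l 16684424)) (b (l 16725160) (l 16706120))) (b (l 16690384) (l 16692344))) (a (l 16690664) (l 16685696))) (a (c (l 16693920) (l 16700376)) (c (l 16688776) (l 16684520))))) (c (b (b (a (c (c (l 16783832) (l 16713768)) (l 16691344)) (b (c (l 16778944) (l 16683832)) (c (l 16773920) (l 16681224)))) (c (a (l 16734264) (l 16765672)) (a (l 16687232) (l 16682128)))) (c (a (b (l 16739072) (c (l 16744768) (l 16672168))) (b (l 16752744) (c (l 16782464) (l 16692160)))) (a (l 16678192) (c (l 16669408) (l 16682464))))) (c (b (b (a (l 16694656) (l 16683696)) (l 16690152)) (a (l 16683728) (l 16668176))) (b (b (a (l 16697112) (l 16686272)) (l 16698064)) (l 16680288)))))), by decide +kernel⟩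

def k125_pm_011 : ∃ t, chk3 f_pm_011 t 20 62 1 = true :=
  ⟨(a (b (b (c (c (a (l 16710248) (l 16703032)) (l 16712488)) (a (c (l 16715232) (l 16714560)) (l 16703264))) (a (c (c (l 16713120) (l 16719512)) (l 16708848)) (c (c (l 16708600) (l 16714856)) (l 16703880)))) (c (c (a (b (c (l 16703936) (l 16701976)) (c (l 16714720) (l 16702456))) (b (c (l 16699496) (l 16697472)) (c (l 16710320) (l 16698000)))) (a (b (l 16709608) (l 16710280)) (b (l 16694512) (l 16705720)))) (a (c (a (l 16718048) (l 16715672)) (a (l 16714624) (l 16712136))) (c (a (l 16713288) (l 16710896)) (a (l 16709632) (l 16707120)))))) (c (b (b (c (a (l 16698376) (l 16693672)) (a (l 16709496) (l 16683680))) (c (a (l 16704016) (c (l 16690080) (l 16687768))) (c (l 16703368) (l 16701224)))) (c (b (a (c (l 16695008) (l 16692928)) (c (l 16690488) (l 16688352))) (a (c (l 16705880) (l 16693504)) (c (l 16701424) (l 16688992)))) (a (b (l 16689856) (l 16701120)) (b (l 16685176) (l 16699120))))) (b (c (a (l 16700392) (l 16695400)) (a (l 16696632) (l 16696648)))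 (b (c (c (l 16705096) (l 16703080)) (a (l 16681952) (l 16676856))) (c (a (l 16686736) (l 16681936)) (a (l 16682744) (l 16677720))))))), by decide +kernel⟩

def k126_pm_011 : ∃ t, chk3 f_pm_011 t 20 126 1 = true :=
  ⟨(a (c (c (c (a (a (b (l 16705984) (b (l 16706536) (l 16707160))) (b (l 16703792) (b (l 16704336) (l 16705080)))) (a (b (l 16701592) (b (l 16702136) (l 16703072))) (b (l 16699392) (b (l 16699928) (l 16701168))))) (a (b (a (l 16704408) (l 16702192)) (b (l 16703760) (a (l 16705760) (l 16703616)))) (b (a (l 16699968) (l 16697736)) (b (l 16699328) (a (l 16701528) (l 16699536)))))) (b (a (c (l 16711920) (l 16699760)) (c (l 16696936) (l 16695184))) (a (a (b (l 16702808) (l 16708704)) (b (l 16700536) (l 16706456))) (c (b (l 16697744) (l 16702528)) (b (l 16696072) (l 16696800)))))) (a (b (c (a (l 16698544) (l 16696192)) (l 16714504)) (b (c (l 16698080) (l 16694368)) (c (c (l 16699520) (l 16697672)) (a (l 16696216) (l 16693656))))) (c (b (c (l 16693384) (l 16691512)) (b (l 16693384) (a (l 16695280) (l 16692992))))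 (b (l 16688608) (b (l 16689456) (l 16700160)))))) (c (c (b (a (c (a (l 16697176) (l 16694968)) (a (l 16695496) (l 16693256))) (c (a (l 16692752) (l 16690544)) (a (l 16691016) (l 16688784)))) (a (c (a (b (l 16697800) (l 16699392)) (l 14)) (b (l 16695032) (a (l 16697664) (l 16695888)))) (c (l 14) (b (a (l 16691936) (l 16689800)) (l 16693016))))) (a (b (c (l 16692416) (l 16690592)) (c (b (l 16693384) (l 16694640)) (b (l 16691632) (l 16692656)))) (b (c (l 16687880) (l 16685984)) (c (b (l 16688968) (l 16690936)) (b (l 16687104) (l 16688752)))))) (c (b (a (c (l 16688696) (l 16686736)) (c (l 16684000) (l 16681936))) (a (b (l 16699288) (l 16699968)) (b (l 16689336) (l 16685264)))) (b (a (l 16683656) (l 16678696)) (a (b (l 16684656) (l 16684872)) (b (l 16679680) (l 16680240))))))), by decide +kernel⟩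

def k127_pm_011 : ∃ t, chk3 f_pm_011 t 40 127 4 = true :=
  ⟨(a (b (c (a (b (l 16709160) (l 16711336)) (b (l 16707408) (l 16709744))) (a (b (l 16707376) (l 16709088)) (b (l 16705520) (l 16707392)))) (c (a (b (c (l 16714064) (l 16712720)) (b (c (l 16715664) (l 16714144)) (c (a (l 16717056) (l 16716424)) (a (l 16715432) (l 16714776))))) (b (c (l 16712664) (l 16711264)) (b (c (l 16714384) (l 16712808)) (a (c (l 16715832) (l 16714144)) (c (l 16715240) (l 16713536)))))) (a (b (c (l 16711360) (l 16709992)) (c (b (l 16712608) (l 16713432)) (b (l 16711072) (l 16711768)))) (b (c (l 16709856) (l 16708440)) (c (b (l 16711224) (l 16712072)) (b (l 16709632) (l 16710368))))))) (b (b (c (a (l 16705688) (l 16704024)) (a (l 16703704) (l 16701936))) (c (a (l 16708192) (l 16709312)) (a (l 16705744) (l 16704136)))) (c (c (a (b (l 16711304) (a (c (l 14) (l 16713656)) (l 14))) (l 14)) (a (b (l 16709856) (b (l 16711528) (c (l 16713008) (l 16712136)))) (b (l 16708496) (b (l 16710280) (a (l 16711760) (l 16711192)))))) (a (b (c (l 16708400)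 (l 16706920)) (c (b (l 16709888) (l 16710816)) (b (l 16708240) (l 16709056)))) (a (b (l 16706648) (c (l 16709448) (l 16707696))) (b (l 16705936) (c (l 16708832) (l 16707056)))))))), by decide +kernel⟩

def k128_pm_011 : ∃ t, chk3 f_pm_011 t 41 127 4 = true :=
  ⟨(a (b (c (a (c (l 14) (b (l 16701856) (l 16704576))) (l 14)) (a (b (l 16700208) (l 16702568)) (b (l 16698520) (l 16701048)))) (c (c (l 14) (a (b (l 16707176) (b (l 16709088) (c (l 14) (l 16709840)))) (l 14))) (a (b (c (l 16705608) (l 16704024)) (c (b (l 16707344) (c (l 16708904) (l 16707976))) (b (l 16705584) (l 16706568)))) (b (c (l 16704280) (l 16702640)) (c (b (l 16706136) (c (l 16707800) (l 16706840))) (b (l 16704328) (l 16705392))))))) (c (l 14) (c (a (b (l 16704080) (b (l 16702992) (b (l 16704976) (c (l 14) (l 16705744))))) (l 14)) (b (a (l 16697496) (l 16695968)) (a (b (l 16701304) (a (l 16704008) (l 16703432))) (b (l 16700016) (b (l 16701944) (c (l 16703688) (l 16702664))))))))), by decide +kernel⟩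

def k129_pm_011 : ∃ t, chk3 f_pm_011 t 20 127 5 = true :=
  ⟨(a (b (a (c (a (l 16710632) (l 16709416)) (a (l 16703864) (l 16701896))) (c (a (l 16707584) (l 16705800)) (a (l 16699960) (l 16698072)))) (a (c (a (b (l 16707912) (a (l 16709424) (l 16708648))) (b (l 16706272) (c (l 16708296) (l 16706632)))) (a (b (l 16705088) (c (l 16706576) (l 16704936))) (b (l 16703344) (l 16709344)))) (c (a (b (l 16704680) (c (l 16709520) (l 16705168))) (b (l 16703128) (c (b (l 16705176) (l 16705960)) (l 16703760)))) (a (b (l 16701648) (c (l 16703432) (l 16701688))) (b (l 16699984) (c (l 16701968) (l 16700168))))))) (b (a (c (a (l 16704056) (l 16702352)) (a (l 16696216) (l 16694408))) (b (c (l 16693360) (l 16690728)) (c (a (l 16696624) (l 16695088)) (l 16692600)))) (a (c (a (b (l 16701624) (c (b (l 16703816) (l 16704688)) (l 16702384))) (b (l 16700160) (c (b (l 16702504) (l 16703456)) (l 16701056)))) (a (b (l 16698368) (c (l 16700536) (l 16698680))) (b (l 16696800) (c (l 16699160) (l 16697248))))) (c (a (b (l 16698744) (c (b (l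 16701232) (l 16702264)) (l 16699776))) (b (l 16697368) (b (l 16699040) (c (l 16701128) (l 16699064))))) (a (b (l 16695272) (c (l 16697824) (l 16695848))) (b (l 16693784) (c (l 16696528) (l 16694504)))))))), by decide +kernel⟩

def k130_pm_011 : ∃ t, chk3 f_pm_011 t 20 127 3 = true :=
  ⟨(c (a (b (b (a (c (l 16700160) (l 16697976)) (l 16700008)) (a (c (l 16700664) (l 16698072)) (c (l 16696760) (l 16693960)))) (b (a (a (l 16705992) (l 16704088)) (a (l 16702224) (l 16700400))) (a (c (a (l 16702464) (l 16700704)) (a (l 16699136) (l 16697264))) (c (a (l 16699048) (l 16697440)) (a (l 16695496) (l 16693776)))))) (b (b (a (l 16701088) (l 16697088)) (a (c (l 16693016) (l 16690000)) (c (l 16689440) (l 16686208)))) (b (a (c (a (l 16695056) (l 16693376)) (l 16690608)) (c (a (l 16691736) (l 16690144)) (l 16687128))) (a (c (a (l 16695880) (l 16694352)) (a (l 16692096) (l 16690456))) (c (a (l 16692872) (l 16691440)) (a (l 16688864) (l 16687320))))))) (a (b (a (a (l 16695592) (l 16693256)) (a (l 16690960) (l 16688696))) (a (a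 (c (l 16696000) (l 16692768)) (c (l 16693928) (l 16690584))) (c (a (l 16691976) (l 16690072)) (a (l 16688528) (l 16686504))))) (a (b (c (l 16686648) (l 16683672)) (c (a (l 16688208) (l 16686384)) (a (l 16684520) (l 16682584)))) (b (c (l 16682496) (l 16679304)) (c (a (l 16684600) (l 16682864)) (a (l 16680688) (l 16678832))))))), by decide +kernel⟩

def k131_pm_011 : ∃ t, chk3 f_pm_011 t 21 62 1 = true :=
  ⟨(a (c (c (b (a (c (b (l 16684960) (l 16685464)) (l 16693184)) (c (b (l 16683784) (l 16680848)) (b (l 16677648) (l 16678416)))) (b (a (c (l 16685968) (l 16683768)) (c (l 16686696) (l 16679192))) (a (c (a (l 16687744) (l 16685520)) (l 16684480)) (c (a (l 16683304) (l 16681096)) (l 16679992))))) (b (a (c (l 16690800) (l 16688488)) (c (l 16686000) (l 16683600))) (b (a (l 16680480) (l 16686272)) (a (c (l 16682432) (l 16680344)) (c (l 16677872) (l 16675696)))))) (a (b (c (l 16685136) (l 16691392)) (c (c (l 16693296) (l 16696360)) (b (l 16671736) (l 16672688)))) (b (c (l 16685344) (l 16686120)) (c (c (l 16693752) (l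 16691472)) (b (l 16666624) (l 16667664)))))) (c (c (b (b (a (c (l 16726672) (l 16672968)) (c (l 16768112) (l 16670616))) (a (c (a (l 16693784) (l 16717104)) (l 16673792)) (c (l 16730088) (l 16669288)))) (c (b (a (a (l 16678192) (l 16693720)) (a (l 16718832) (l 16743272))) (a (c (l 16683576) (l 16677144)) (a (c (l 16724880) (l 16674008)) (b (l 16727104) (l 16715296))))) (a (b (l 16674648) (l 16686016)) (b (l 16670200) (a (l 16672352) (l 16670192)))))) (b (c (a (l 16681280) (l 16676656)) (a (l 16678800) (l 16663600))) (a (b (c (l 16672296) (l 16669936)) (c (l 16673328) (l 16671064))) (c (b (l 16667776) (l 16668864)) (b (l 16665320) (l 16666504)))))) (b (c (a (l 16680400) (l 16670296)) (a (l 16680936) (l 16675840))) (b (c (a (l 16666352) (l 16661584)) (a (l 16661520) (l 16656504))) (c (a (l 16667552) (l 16662832)) (a (l 16662648) (l 16657688))))))), by decide +kernel⟩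

def k132_pm_011 : ∃ t, chk3 f_pm_011 t 21 126 1 = true :=
  ⟨(c (c (a (b (b (a (c (l 16687000) (l 16685144)) (c (l 16687856) (l 16680696))) (a (c (l 14) (l 16685552)) (l 14))) (c (l 14) (a (b (a (l 16687712) (l 14)) (l 16689624)) (l 14)))) (b (b (a (c (c (l 16678776) (l 16677800)) (l 16676304)) (c (a (l 16675208) (l 16702632)) (l 16671968))) (l 14)) (l 14))) (a (b (a (c (l 16683360) (l 16681376)) (c (l 16689440) (l 16676888))) (a (c (b (l 16684680) (l 16687336)) (b (l 16682672) (l 16684936))) (c (a (l 16693632) (l 16681424)) (b (l 16678504) (l 16681304))))) (b (a (c (a (l 16675832) (l 16673704)) (l 16682992)) (c (b (l 16669792) (l 14)) (b (l 16667512) (l 16668528)))) (a (c (a (l 16679888) (l 14)) (a (l 16677328) (l 16675584))) (c (l 14) (l 16683392)))))) (c (a (b (a (c (l 16679304) (l 16677144)) (c (l 16674728) (l 16672464))) (b (a (c (l 16680544) (l 16678296)) (l 16685488)) (a (l 16681128) (l 16677176)))) (b (a (c (l 16670240) (l 16667872)) (c (l 16676264) (l 16663272))) (a (c (l 16673448) (l 16670608)) (c (l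 16669952) (l 16666888))))) (a (b (a (l 16673736) (l 16668880)) (a (b (l 16674704) (l 16675680)) (b (l 16669912) (l 16671288)))) (b (a (l 16685072) (c (l 16660648) (l 16657912))) (a (c (l 16667648) (l 16664584)) (l 16662072)))))), by decide +kernel⟩

def k133_pm_011 : ∃ t, chk3 f_pm_011 t 21 127 2 = true :=
  ⟨(a (c (a (a (a (a (c (l 14) (b (l 16695856) (c (l 14) (b (l 16699304) (l 16701928))))) (l 14)) (l 14)) (l 14)) (l 14)) (b (b (a (c (l 16690072) (l 16687224)) (c (l 16686976) (l 16683912))) (a (c (a (l 16693592) (l 16692152)) (l 16689416)) (c (a (l 16690752) (l 16689408)) (l 16686416)))) (a (c (a (b (l 16701288) (c (b (l 16698832) (l 16700032)) (b (l 16696832) (l 16697920)))) (b (c (l 16695704) (l 16693816)) (a (c (l 16698640) (l 16696536)) (c (l 16698104) (l 16695976))))) (a (b (l 16692352) (c (l 16695280) (l 16693200))) (b (l 16690960) (c (l 16694080) (l 16691944))))) (c (c (a (a (b (l 16694840) (l 16700208)) (l 14)) (l 14)) (a (b (l 16692552) (b (l 16694504) (l 16695760))) (b (l 16691344) (b (l 16693416)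 (l 16694744))))) (a (b (l 16689616) (c (l 16695552) (l 16690736))) (b (l 16688312) (c (b (l 16691232) (l 16692448)) (l 16689568)))))))) (c (l 14) (b (a (a (c (c (l 14) (l 16685616)) (l 16683016)) (c (l 14) (l 16681576))) (c (l 14) (a (l 16690680) (l 16684752)))) (a (c (c (l 14) (a (a (b (l 16690504) (l 16693344)) (l 14)) (l 14))) (a (b (l 16687064) (c (b (l 16690128) (l 16691432)) (l 16688456))) (b (l 16685864) (c (b (l 16689072) (l 16690464)) (l 16690008))))) (c (l 14) (a (b (l 16684712) (c (b (l 16688072) (l 16689536)) (b (l 16685704) (l 16687056)))) (b (l 16688848) (c (l 14) (b (l 16684688) (l 16686128)))))))))), by decide +kernel⟩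

def k134_pm_011 : ∃ t, chk3 f_pm_011 t 21 127 3 = true :=
  ⟨(a (b (b (c (a (l 16688024) (c (l 16680752) (l 16677496))) (a (l 16676520) (l 16672432))) (c (a (c (l 16686040) (l 16682592)) (c (l 16682824) (l 16679144))) (a (l 16677256) (l 16673472)))) (b (c (a (c (a (l 16688592) (l 16687088)) (l 16683816)) (c (a (l 16685632) (l 16684216)) (l 16680688))) (a (c (l 16679880) (l 16675872)) (c (l 16676520) (l 16672280)))) (c (a (c (a (l 16690056) (l 16688712)) (a (l 16685816) (l 16684360))) (c (a (l 16691344) (c (l 16687304) (l 16685024))) (a (l 16682944) (l 16681576)))) (a (c (l 16685848) (l 16676208)) (c (a (l 16678416) (l 16676936)) (l 16672920)))))) (c (b (a (c (a (l 16679464) (l 16677912)) (b (l 16673920) (l 16675880))) (c (a (l 16676416) (l 16674960)) (a (l 16672544) (l 16670976)))) (b (a (c (a (l 16682856) (l 16681536)) (l 16677744)) (c (a (l 16680272) (l 16679048)) (l 16674984))) (a (c (a (c (l 16686128) (l 16683792)) (c (l 16685000) (l 16682608))) (a (l 16680256) (l 16678984))) (c (a (c (l 16683920) (l 16681464))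 (c (l 16682896) (l 16680376))) (a (l 16677752) (l 16676576)))))) (a (a (b (l 16670192) (c (l 16674832) (l 16670216))) (b (l 16668352) (c (l 16678608) (l 16668624)))) (b (c (l 16667608) (l 16663504)) (c (b (l 16670344) (a (l 16672752) (l 16671456))) (b (l 16665632) (l 16666888))))))), by decide +kernel⟩

def k135_pm_011 : ∃ t, chk3 f_pm_011 t 22 28 1 = true :=
  ⟨(b (a (b (a (l 4) (l 4)) (a (b (l 4) (a (a (l 4) (b (l 4) (c (l 123178342439) (l 129083914039)))) (c (b (a (l 4) (l 123178340855)) (a (l 110293458519) (l 75933717143))) (b (l 117272774967) (a (l 89355487927) (l 61975067991)))))) (a (b (b (l 4) (c (a (l 118346504551) (l 114588425815)) (l 104924742343))) (c (b (a (l 99019168791) (l 16798576)) (l 16787232)) (c (l 23320356711) (l 16787856)))) (b (b (c (a (l 124788953783) (l 104387877479)) (l 87744882439)) (c (a (l 80228684151) (l 16787808)) (l 16789104))) (c (l 16786032) (l 16779904)))))) (b (a (b (a (l 4) (b (l 4) (c (l 125325845847) (l 115125289511)))) (a (c (b (l 125862718663) (l 92039849511)) (b (l 128547064263)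 (l 66270031527))) (c (c (l 45332072983) (l 37815875591)) (c (l 16789616) (l 16792736))))) (b (a (b (c (l 116735909431) (l 97408547687)) (c (l 77544336519) (l 16788560))) (c (l 16792176) (l 16792144))) (c (l 16788712) (l 16798464)))) (c (a (a (c (l 16790144) (l 16783944)) (l 16791464)) (l 16799400)) (a (b (l 16790376) (l 16793600)) (l 16793344))))) (a (c (a (b (b (b (a (a (l 116735900167) (b (l 98482294807) (l 16798672))) (c (a (l 16789296) (l 16788376)) (l 16786680))) (c (c (l 16788864) (l 16787648)) (l 16791104))) (c (l 16790296) (l 16781320))) (l 16786584)) (b (c (l 16797688) (l 16785320)) (l 16801576))) (b (a (b (a (a (b (l 97945420759) (a (l 16792584) (l 16784392))) (c (l 27078452951) (l 16783376))) (l 16787224)) (l 16787824)) (c (l 16793368) (l 16791032))) (a (l 16781312) (l 16776248)))) (c (b (c (l 16817648) (l 16796888)) (c (l 16834872) (l 16802624))) (b (a (l 16785184) (l 16765232)) (a (l 16772616) (l 16754080)))))), by decide +kernel⟩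

def k136_pm_011 : ∃ t, chk3 f_pm_011 t 23 28 1 = true :=
  ⟨(c (b (a (b (a (l 16795360) (l 16807376)) (l 16796512)) (c (l 16826600) (l 16823624))) (a (c (l 16835696) (b (l 16817120) (l 16824560))) (c (l 16888440) (l 16845472)))) (b (a (b (a (l 16787544) (l 16779648)) (l 16775784)) (b (l 16786368) (l 16785640))) (b (a (l 16759816) (l 16782040)) (a (c (l 16782512) (l 16739416)) (l 16754200))))), by decide +kernel⟩

def k137_pm_011 : ∃ t, chk3 f_pm_011 t 11 29 1 = true :=
  ⟨(a (b (a (c (c (b (l 16820504) (l 16830944)) (b (l 16785768) (l 16760480))) (b (a (l 16770328) (l 16760192)) (b (l 16753152) (c (l 16745896) (l 16744928))))) (c (c (b (l 16849984) (l 16862504)) (b (l 16805160) (l 16803920))) (b (a (l 16755016) (l 16738192)) (a (l 16734528) (l 16716824))))) (a (c (c (b (l 16837672) (a (l 16830888) (l 16849200))) (b (a (l 16766128) (l 16778000)) (a (l 16748952) (l 16763512)))) (c (b (l 16733056) (l 16716928)) (a (b (l 16738024) (l 16722480)) (b (l 16728528) (l 16713256))))) (c (c (b (l 16871952) (l 16877752))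 (b (l 16798248) (l 16766440))) (c (b (l 16722856) (l 16694984)) (a (l 16716888) (l 16702696)))))) (b (c (a (c (l 16889512) (b (l 16829208) (l 16830624))) (c (l 16923536) (l 16858352))) (a (b (c (l 16775128) (l 16719768)) (c (l 16763408) (l 16715616))) (c (b (l 16795440) (l 16786872)) (b (l 16733368) (l 16712248))))) (c (a (c (b (l 16908040) (l 16916752)) (b (l 16828304) (l 16821672))) (c (b (l 16944728) (l 16955968)) (b (l 16860368) (l 16857504)))) (a (b (c (l 16746728) (l 16696832)) (c (l 16724360) (l 16682680))) (a (b (l 16723624) (l 16718248)) (b (l 16736816) (a (l 16708984) (l 16717184)))))))), by decide +kernel⟩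

def k138_pm_011 : ∃ t, chk3 f_pm_011 t 22 30 1 = true :=
  ⟨(b (a (c (b (c (a (l 16826608) (l 16847424)) (a (l 16724072) (l 16742056))) (c (a (b (l 16819104) (l 16791232)) (b (l 16842384) (l 16837688))) (b (a (l 16699528) (l 16720872)) (a (l 16701632) (l 16705152))))) (b (c (l 16700920) (l 16702544)) (a (c (l 16689496) (l 16690512)) (c (b (l 16684176) (l 16673496)) (l 16685920))))) (b (c (c (a (l 16868608) (l 16890112)) (a (l 16760904) (l 16780536))) (c (a (l 16687480) (l 16668376)) (a (l 16689352) (l 16680328)))) (c (c (b (a (l 16865920) (l 16889672)) (l 16814024)) (b (a (l 16743008) (l 16765888)) (a (l 16731200) (l 16757208)))) (a (b (c (l 16674448) (l 16676872)) (l 16661720)) (c (b (l 16663768) (l 16651864)) (l 16668952)))))) (c (b (a (c (a (c (l 16837864) (l 16764192)) (c (l 16867248) (l 16793808))) (a (c (l 16689720) (l 16674944)) (c (l 16719616) (l 16669656)))) (c (a (c (l 16896072) (l 16823016)) (c (l 16924240) (l 16851672))) (a (b (l 16718856) (l 16704800)) (b (l 16747096) (l 16735488))))) (b (a (c (a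 (l 16765768) (l 16777992)) (a (l 16657296) (l 16654680))) (c (a (l 16810272) (l 16883520)) (a (l 16688896) (l 16722248)))) (a (c (a (c (l 16819040) (l 16729944)) (c (l 16854392) (l 16766584))) (a (l 16658520) (l 16658944))) (c (a (c (l 16888488) (l 16802008)) (l 16794928)) (a (l 16656568) (l 16717736)))))) (a (c (b (a (l 16671088) (l 16665664)) (a (l 16663080) (l 16657992))) (b (b (l 16687560) (l 16664248)) (c (l 16667104) (l 16664672)))) (b (c (a (l 16660264) (b (l 16653928) (l 16634864))) (l 16652392)) (c (a (l 16652952) (l 16647992)) (c (l 16656656) (l 16653960))))))), by decide +kernel⟩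

def k139_pm_011 : ∃ t, chk3 f_pm_011 t 23 30 1 = true :=
  ⟨(b (b (c (a (c (a (l 16911696) (l 16933152)) (b (l 16813680) (a (l 16796544) (l 16817992)))) (c (a (l 16954552) (l 16975952)) (b (a (l 16843056) (l 16863232)) (l 16851368)))) (a (a (c (l 16718472) (l 16671040)) (b (l 16698072) (a (l 16700928) (l 16664752)))) (b (c (a (l 16731160) (l 16750704)) (a (l 16658664) (l 16635528))) (c (l 16732224) (l 16658144))))) (c (a (c (c (l 16958536) (l 16895248)) (a (l 16786648) (l 16811336))) (c (l 16974696) (a (l 16835704) (l 16859672)))) (a (c (a (l 16655736) (l 16680800)) (a (l 16665800) (l 16634064))) (c (a (l 16705736) (l 16730432)) (a (l 16628200) (l 16622488)))))) (a (c (c (b (a (l 16894784) (l 16942696)) (a (c (l 16953104) (l 16871816)) (c (l 16982528) (l 16902480)))) (b (a (b (l 16774944) (l 16765520)) (b (l 16802288) (l 16794824))) (a (b (l 16754664) (l 16716056)) (b (l 16765128) (c (l 16817720) (l 16734152)))))) (c (b (a (b (l 16631216) (l 16629696)) (l 16634968)) (a (c (l 16634176) (l 16631136)) (c (l 16637544)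 (l 16626352)))) (b (a (l 16644096) (l 16638648)) (c (l 16646528) (l 16643528))))) (a (c (c (b (l 16968840) (l 16950480)) (b (c (l 16862200) (l 16790296)) (b (l 16795552) (c (l 16849496) (l 16767376))))) (b (c (b (l 16687776) (l 16674248)) (l 16633328)) (c (b (l 16659352) (l 16632528)) (l 16627280)))) (c (c (b (l 16994144) (l 16999176)) (b (c (l 16888688) (l 16817592)) (b (l 16845928) (l 16776848)))) (b (c (b (l 16715304) (l 16703832)) (c (l 16608784) (l 16605640))) (c (b (l 16691152) (l 16698160)) (l 16622624))))))), by decide +kernel⟩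

def k140_pm_011 : ∃ t, chk3 f_pm_011 t 22 62 2 = true :=
  ⟨(b (b (a (c (a (c (l 16807944) (l 16712192)) (c (l 16846168) (l 16752160))) (a (l 16664944) (l 16660280))) (c (a (c (l 16882768) (l 16790528)) (c (l 16917776) (l 16827288))) (a (c (l 16697624) (l 16649016)) (c (l 16736168) (l 16644496))))) (a (c (a (c (l 16731624) (l 16670832)) (c (l 16814968) (l 16735464))) (a (l 16671360) (c (l 16657704) (l 16654976)))) (c (a (c (l 16875320) (l 16756096)) (c (l 16912760) (l 16795704))) (a (c (l 16657224) (l 16650480)) (c (l 16720008) (l 16646112)))))) (a (c (a (c (b (a (l 16767032) (l 16790128)) (a (b (l 16752536) (l 16741904)) (b (l 16777184) (l 16767664)))) (b (l 16671184) (c (l 16671688) (l 16666288)))) (b (c (a (l 16812592) (l 16834424)) (a (l 16704672) (l 16727880))) (b (c (l 16749792) (l 16710696)) (c (a (l 16792592) (l 16816728)) (c (l 16717664) (l 16662448)))))) (a (c (b (l 16663328) (l 16664496)) (b (l 16660776) (l 16662040))) (c (b (l 16658960) (l 16665472)) (b (l 16656304) (l 16657656))))) (c (c (a (b (a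 (l 16855648) (l 16876280)) (a (l 16822504) (l 16865696))) (b (l 16906112) (c (l 16924608) (l 16870744)))) (a (b (a (l 16750464) (l 16772424)) (a (b (l 16736592) (l 16726552)) (l 16713488))) (b (a (l 16793792) (l 16814576)) (a (l 16715600) (l 16758960))))) (a (c (b (l 16656376) (c (l 16659928) (l 16655424))) (b (l 16651928) (l 16653392))) (b (c (a (l 16690712) (l 16712792)) (l 16647704)) (c (a (l 16648352) (l 16714208)) (l 16649288))))))), by decide +kernel⟩

def k141_pm_011 : ∃ t, chk3 f_pm_011 t 22 62 3 = true :=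
  ⟨(a (c (b (a (l 16670688) (b (l 16649536) (l 16650864))) (a (b (l 16656880) (l 16658200)) (b (l 16652232) (l 16653640)))) (b (b (l 16667560) (l 16668672)) (a (b (l 16651552) (l 16652808)) (b (l 16646648) (l 16647984))))) (b (c (a (c (l 16646840) (l 16643984)) (c (l 16642272) (l 16639280))) (a (l 16639712) (l 16655760))) (c (a (b (l 16647672) (l 16659672)) (c (b (l 16644736) (l 16646360)) (l 16663416))) (a (b (l 16641808) (l 16643248)) (b (l 16637080) (l 16638624)))))), by decide +kernel⟩

def k142_pm_011 : ∃ t, chk3 f_pm_011 t 23 62 2 = true :=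
  ⟨(a (b (c (a (c (l 16949912) (b (l 16862464) (l 16854368))) (c (l 16982728) (b (l 16896096) (l 16890208)))) (a (b (c (l 16773120) (l 16683144)) (c (l 16738880) (l 16643776))) (b (c (l 16808496) (l 16720304)) (c (l 16797792) (l 16704816))))) (c (a (c (b (l 16944016) (l 16938184)) (b (a (l 16834792) (l 16854456)) (a (l 16801648) (l 16843696)))) (c (b (l 16979832) (l 16976304)) (b (l 16882912) (a (l 16864144) (l 16884056))))) (a (b (c (a (l 16734288) (l 16755208)) (l 16644352)) (c (a (l 16716448) (l 16718016)) (c (l 16648344) (l 16644600)))) (b (c (a (l 16775568) (l 16795392)) (a (l 16677032) (l 16698080))) (b (c (l 16754224) (l 16673456)) (c (a (l 16756912) (l 16778600)) (l 16648104))))))) (c (b (c (l 17028912) (a (l 16926392) (l 16957920))) (a (c (l 17013152) (b (l 16919128) (a (l 16903384) (l 16922144)))) (c (l 17046048) (b (l 16953400) (l 16949264))))) (b (a (b (c (l 16842360) (l 16755920)) (c (l 16833928) (l 16743016))) (c (b (l 16874752) (l 16868336)) (b (l 16790032) (l 16779448)))) (a (b (c (a (l 16814688)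 (l 16833472)) (a (l 16718576) (l 16738544))) (c (b (l 16815784) (a (l 16799672) (l 16820128))) (b (l 16716712) (a (l 16697504) (l 16719360))))) (b (c (l 16860696) (a (l 16758000) (l 16776960))) (c (b (l 16854136) (a (l 16840000) (l 16859336))) (b (l 16736664) (a (l 16709160) (l 16708872))))))))), by decide +kernel⟩

def k143_pm_011 : ∃ t, chk3 f_pm_011 t 23 62 3 = true :=
  ⟨(a (b (c (a (c (l 16648328) (l 16634704)) (b (l 16631008) (l 16643440))) (a (l 16650952) (l 16646288))) (b (c (a (l 16649432) (c (l 16636520) (l 16633176))) (a (l 16632472) (l 16628032))) (c (a (c (l 16642280) (l 16639104)) (c (l 16638544) (l 16635192))) (a (l 16634136) (l 16629960))))) (b (c (a (c (b (l 16668880) (l 16651544)) (l 16636576)) (c (b (l 16704736) (l 16690008)) (l 16632624))) (a (l 16636568) (c (l 16618440) (l 16614720)))) (c (a (b (c (l 16632752) (l 16629216)) (c (b (l 16634312) (l 16635648)) (l 16631584))) (b (c (a (l 16663736) (l 16683840)) (l 16625528)) (c (b (l 16660656) (b (l 16632864) (l 16634008))) (b (l 16627200) (l 16628816)))))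 (a (b (l 16623784) (c (l 16627920) (l 16624152))) (b (l 16619784) (c (l 16624352) (l 16620344))))))), by decide +kernel⟩

def k144_pm_011 : ∃ t, chk3 f_pm_011 t 22 63 2 = true :=
  ⟨(b (a (c (b (b (a (c (a (l 16730488) (l 16736432)) (l 16672984)) (c (a (l 16762448) (l 16766656)) (a (l 16664744) (l 16710736)))) (l 14)) (l 14)) (b (b (a (c (l 16665472) (l 16663088)) (c (l 16661336) (l 16658840))) (a (c (l 14) (l 16664448)) (l 14))) (a (c (l 14) (a (l 16670640) (l 14))) (l 14)))) (b (b (b (c (a (c (l 16804488) (l 16711824)) (c (l 16891560) (a (l 16767864) (l 16791384)))) (c (a (l 16657040) (l 16656936)) (a (l 16654408) (l 16650432)))) (l 14)) (l 14)) (l 14))) (a (a (a (a (c (l 14) (c (l 14) (b (l 16677928) (c (l 14) (b (l 16681688) (l 16684728)))))) (l 14)) (l 14)) (l 14)) (l 14))), by decide +kernel⟩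

def k145_pm_011 : ∃ t, chk3 f_pm_011 t 22 126 3 = true :=
  ⟨(c (a (b (a (c (b (l 16660592) (l 16661872)) (l 16658744)) (c (b (l 16656224) (l 16658008)) (l 16675336))) (a (c (l 16666544) (l 16663248)) (c (l 16663360) (l 16659824)))) (b (a (b (l 16666368) (l 16653168)) (c (b (l 16648104) (l 14)) (l 16662096))) (a (c (l 16660416) (l 16656632)) (c (l 14) (l 16653680))))) (a (b (a (b (l 16653864) (l 16654872)) (b (l 16649176) (l 16650496))) (a (l 16668568) (l 16654304))) (b (a (b (l 16644632) (l 16646616)) (b (l 16640192) (l 16642864))) (a (l 16661224) (l 16656592))))), by decide +kernel⟩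

def k146_pm_011 : ∃ t, chk3 f_pm_011 t 22 127 3 = true :=
  ⟨(a (c (b (a (c (a (l 16673552) (l 16672200)) (a (l 16669448) (l 16667976))) (a (c (l 16670896) (l 16666560)) (c (l 16669656) (l 16665200)))) (a (c (a (b (l 16677880) (c (l 16684536) (l 16679336))) (b (l 16676760) (c (b (l 16680248) (l 16681736)) (l 16678352)))) (b (a (l 16673136) (l 16671888)) (a (l 16680688) (c (l 16675696) (l 16673032))))) (c (a (b (l 16675688) (c (b (l 16679328) (l 16680896)) (l 16682656))) (b (l 16674680) (c (l 14) (b (l 16675768) (l 16677304))))) (a (b (l 16670704) (c (l 16674696) (l 16671976))) (b (l 16669568) (c (l 16673752) (l 16670968))))))) (a (b (c (l 16664344) (l 16660000)) (b (a (l 16665864) (l 16664448)) (c (a (l 16670208) (l 16669000)) (l 16664152)))) (a (b (l 16670360) (c (b (l 16665640) (l 16667848)) (l 16661384))) (b (l 16668816) (c (b (l 16664384) (l 16666752)) (l 16670568)))))) (c (b (a (c (a (l 16668472) (l 14)) (a (l 16663896) (l 16662648))) (c (l 14) (a (l 16661456) (l 16660328)))) (a (a (c (b (l 16678968) (c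 (l 14) (b (l 16674896) (l 16676512)))) (b (l 16668488) (c (l 16672864) (l 16670016)))) (c (l 14) (b (l 16667472) (c (l 16672024) (l 16669112))))) (c (l 14) (b (c (l 16672608) (l 16664576)) (a (c (b (l 16670424) (l 16672088)) (l 16668272)) (c (l 14) (l 16667480))))))) (b (a (c (l 16668912) (l 16653600)) (c (b (l 16654304) (l 16657368)) (l 16650720))) (a (c (b (l 16662528) (a (l 16665704) (l 16664712))) (b (l 16657080) (a (l 16659896) (l 16658776)))) (c (b (l 16665592) (a (c (l 16665280) (l 16662264)) (c (l 16664424) (l 16661352)))) (b (l 16654648) (a (l 16657712) (l 16656696)))))))), by decide +kernel⟩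

def k147_pm_011 : ∃ t, chk3 f_pm_011 t 23 63 2 = true :=
  ⟨(a (b (b (b (b (b (c (a (c (l 16934264) (l 16805048)) (c (l 16973920) (l 16868784))) (a (c (l 16717368) (l 16646472)) (c (l 16705568) (l 16646792)))) (l 14)) (l 14)) (l 14)) (l 14)) (l 14)) (c (b (b (c (l 17030432) (a (l 16908312) (l 16947304))) (c (l 17032872) (l 14))) (c (a (b (l 17014872) (l 14)) (l 17055368)) (l 14))) (b (b (b (a (c (l 16763664) (l 16701864)) (c (l 16847120) (l 16725392))) (l 14)) (l 14)) (l 14)))), by decide +kernel⟩

def k148_pm_011 : ∃ t, chk3 f_pm_011 t 23 63 3 = true :=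
  ⟨(c (a (a (c (b (b (b (l 16644504) (l 14)) (l 14)) (l 14)) (b (b (l 16663880) (l 16650992)) (a (b (l 16659256) (b (l 16664744) (c (l 14) (l 16670680)))) (l 14)))) (b (b (c (b (l 16641472) (l 14)) (l 16650416)) (l 14)) (l 14))) (b (b (a (c (l 16652040) (l 16637520)) (c (c (l 16646632) (l 16638496)) (l 16635232))) (l 14)) (l 14))) (a (b (b (a (c (l 16639304) (l 16635576)) (c (l 16636056) (l 16632072))) (a (c (l 16646576) (l 16642056)) (c (l 16643888) (l 16639096)))) (b (a (c (b (l 16651768) (l 16655120)) (l 16648072)) (c (a (l 16651856) (l 16650848)) (l 16645656))) (a (c (b (c (l 16659880) (l 16656912)) (a (c (l 16663632) (l 16660488)) (c (l 16662888) (l 16659680)))) (b (l 16652432) (a (l 16655736) (l 16654840)))) (c (b (c (l 16658224) (l 16655128)) (a (c (l 16662208) (l 16658936)) (c (l 14) (l 16658248)))) (b (l 16650448) (a (l 16653992) (l 16658440))))))) (b (b (a (l 16631240) (l 16649480)) (a (c (l 16641472) (l 16636400)) (c (l 14) (l 16633992)))) (b (a (c (a (l 16649896) (l 14)) (l 16653984)) (c (l 14) (a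 (l 16642104) (l 16641216)))) (a (c (a (b (l 16655600) (c (l 14) (l 16657616))) (l 14)) (b (l 16653944) (a (c (l 16654192) (l 16650744)) (c (l 16653552) (l 16650032))))) (c (l 14) (b (c (l 16648904) (l 16645488)) (a (c (l 16652968) (l 16649384)) (c (l 14) (l 16648800)))))))))), by decide +kernel⟩

def k149_pm_011 : ∃ t, chk3 f_pm_011 t 3 2 1 = true :=
  ⟨(b (l 1) (a (l 4) (l 1))), by decide +kernel⟩

def k150_pm_011 : ∃ t, chk3 f_pm_011 t 6 12 1 = true :=
  ⟨(a (b (l 4) (a (l 4) (c (b (l 4) (a (l 4) (b (l 4) (a (b (l 4) (l 135526400183)) (b (l 133915782279) (l 100092929015)))))) (b (l 4) (a (l 4) (b (l 4) (a (b (l 4) (l 140895104855)) (b (l 140895099959) (l 95797970951))))))))) (b (l 1) (a (b (l 1) (a (b (l 1) (a (l 190085942759) (l 1))) (l 1))) (l 1)))), by decide +kernel⟩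

def k151_pm_011 : ∃ t, chk3 f_pm_011 t 12 13 1 = true :=
  ⟨(b (a (b (l 4) (a (b (l 4) (a (l 4) (b (l 4) (c (a (l 128547059399) (l 130157672343)) (a (l 138747598407) (l 93113591671)))))) (b (a (b (l 4) (c (l 132305182327) (l 144116335223))) (b (a (l 4) (c (l 132842021607) (l 96871690967))) (c (l 92576733015) (l 16798720)))) (c (a (c (l 77007481015) (l 70565022519)) (l 16788400)) (a (b (l 129083953271) (l 16800000)) (l 16783376)))))) (b (b (a (a (l 4) (b (l 4) (c (l 133915796071) (l 137673866359)))) (a (b (a (c (l 133378904551) (l 140358221719)) (l 92039878135)) (l 89892388311)) (b (l 16811560) (l 16804544)))) (c (a (a (b (l 134452651271) (a (l 128547059879) (l 16808144))) (l 80765582103)) (l 16793744)) (a (a (b (l 139284483991) (a (l 138210730039) (l 16804872))) (l 72175643799)) (l 16788336)))) (c (a (b (a (l 16803400) (l 16794480)) (l 16809200)) (l 16805960)) (a (b (a (l 16800840) (l 16787816)) (l 16794952)) (l 16780088))))) (a (c (b (a (b (a (b (a (l 4) (l 129620801271)) (l 92039864375)) (b (l 73786246663)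 (l 16787816))) (a (l 16795008) (l 16802752))) (b (l 16802520) (l 16823536))) (a (b (l 16816160) (l 16835784)) (l 16833176))) (a (b (b (a (b (l 150558786903) (l 74323111047)) (b (l 16797376) (l 16781904))) (a (l 16782040) (l 16787904))) (b (l 16791400) (l 16796256))) (b (b (l 16789656) (l 16798280)) (l 16787568)))) (c (b (a (l 16820456) (l 16870080)) (a (l 16882752) (l 16911528))) (b (a (l 16809816) (l 16827232)) (a (l 16825328) (l 16843768)))))), by decide +kernel⟩

def k152_pm_011 : ∃ t, chk3 f_pm_011 t 13 13 1 = true :=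
  ⟨(b (a (c (b (a (l 16811440) (l 16819360)) (a (l 16855688) (l 16884368))) (b (a (l 16799728) (l 16818432)) (a (l 16824408) (l 16843456)))) (b (l 1) (c (l 16927016) (l 16873256)))) (a (c (b (l 16913016) (l 16954536)) (b (a (l 16845904) (l 16865504)) (a (l 16863392) (l 16883848)))) (c (b (l 16969688) (l 17011120)) (b (l 16896032) (l 16915504))))), by decide +kernel⟩

def k153_pm_011 : ∃ t, chk3 f_pm_011 t 12 14 1 = true :=
  ⟨(b (c (a (b (a (c (l 16879008) (l 16847936)) (l 16892336)) (a (c (l 16920896) (l 16871768)) (l 16926488))) (b (c (l 16958200) (l 16913632)) (c (l 17001712) (l 16941240)))) (a (b (a (c (l 16816032) (l 16783256)) (c (l 16835600) (l 16796560))) (a (c (l 16821464) (l 16769952)) (c (l 16843640) (l 16786760)))) (b (a (l 16834792) (l 16854848)) (a (c (l 16867192) (l 16805768)) (c (l 16891576) (l 16826264)))))) (b (a (c (c (l 16974912) (a (l 16887816) (l 16917944))) (a (c (b (l 16818640) (l 16812808)) (b (l 16751104) (l 16733496))) (c (l 16842264) (b (l 16771584) (l 16757064))))) (c (a (l 16987016)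 (c (l 17058056) (l 16978376))) (a (c (l 16869216) (b (l 16793832) (l 16781992))) (b (l 16856848) (c (l 16896592) (l 16807976)))))) (a (c (c (b (l 16999328) (a (l 16994664) (l 17032488))) (a (b (l 16893304) (a (l 16884680) (l 16902920))) (b (l 16926536) (l 16909616)))) (a (a (b (l 16750536) (c (l 16782000) (l 16697848))) (b (l 16764648) (b (l 16729792) (c (l 16796128) (l 16686768))))) (a (b (l 16758064) (b (c (l 16818768) (l 16714928)) (l 16740184))) (b (c (l 16841376) (l 16745792)) (c (l 16835384) (l 16728536)))))) (c (c (a (l 17060784) (l 17095112)) (a (b (l 16959648) (l 16967560)) (b (l 16992464) (l 17003120)))) (a (b (c (b (l 16865536) (l 16863792)) (b (l 16771128) (a (l 16755840) (l 16771928)))) (c (l 16863376) (a (l 16747456) (l 16766048)))) (b (c (a (l 16888576) (l 16904816)) (a (b (l 16792472) (l 16789056)) (l 16806712))) (c (a (l 16890680) (l 16908400)) (a (l 16784528) (l 16802696))))))))), by decide +kernel⟩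

def k154_pm_011 : ∃ t, chk3 f_pm_011 t 13 14 1 = true :=
  ⟨(b (b (c (a (l 16994088) (l 17050896)) (a (a (l 16875912) (l 16897640)) (c (l 16961496) (l 16900024)))) (c (a (l 17030968) (l 17088344)) (a (c (l 16928896) (a (l 16847736) (l 16869824))) (a (l 16929592) (c (l 16991400) (l 16915088)))))) (a (b (a (c (l 17049248) (b (l 16882136) (c (l 16925176) (b (l 16835984) (l 16832888))))) (c (l 17079224) (b (l 16865784) (c (l 16953848) (l 16862456))))) (c (a (c (l 17127776) (l 17030640)) (l 17110376)) (a (c (b (l 16929032) (l 16933808)) (b (l 16831152) (a (l 16820360) (l 16837576)))) (c (l 16963040) (b (l 16862560) (l 16862600)))))) (c (b (c (l 17164736) (l 17079664)) (l 17132776)) (c (b (a (l 16979224) (l 17006104)) (l 17007392)) (b (b (a (l 16890528) (l 16915912)) (l 16904992)) (a (l 16893616) (l 16923040))))))), by decide +kernel⟩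

def k155_pm_011 : ∃ t, chk3 f_pm_011 t 12 30 2 = true :=
  ⟨(a (b (c (a (b (l 17007736) (l 17020080)) (l 17055720)) (a (b (l 16894736) (a (l 16883192) (l 16906208))) (b (l 16935968) (l 16918696)))) (c (a (b (l 17030512) (c (l 17076328) (l 17000752))) (b (l 17076024) (l 17087408))) (a (b (a (l 16816440) (l 16904720)) (a (c (l 16910792) (l 16833408)) (c (l 16938232) (l 16862176)))) (b (a (l 16929304) (l 16953072)) (a (c (l 16964600) (l 16889872)) (l 16953288)))))) (b (a (c (l 17094824) (b (l 16975512) (l 16982168))) (c (l 17131432) (b (l 17013200) (l 17022160)))) (c (a (b (l 17118104) (l 17131992)) (l 17164848)) (a (b (l 16945256) (a (l 16978232) (l 17002152))) (b (l 17029928) (l 17036168)))))), by decide +kernel⟩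

def k156_pm_011 : ∃ t, chk3 f_pm_011 t 12 30 3 = true :=
  ⟨(a (b (a (b (c (a (l 16768544) (l 16789800)) (a (l 16650264) (l 16671840))) (c (a (l 16754840) (l 16778872)) (b (l 16663896) (l 16608664)))) (b (c (a (l 16810840) (l 16831600)) (a (l 16693336) (l 16714672))) (c (a (l 16802440) (l 16825512)) (a (l 16673656) (l 16697968))))) (a (b (c (a (b (l 16742240) (l 16732632)) (b (l 16768600) (l 16760656))) (a (l 16612760) (l 16609088))) (c (a (b (l 16721960) (l 16710144)) (b (l 16751776) (l 16699952))) (a (l 16618208) (c (l 16609392) (l 16601664))))) (b (c (a (b (l 16794296) (l 16787896)) (c (l 16851168) (l 16782464))) (a (b (l 16656680) (l 16644208)) (b (l 16683456) (l 16672752)))) (b (c (a (l 16780640) (l 16808528)) (a (l 16630736) (l 16661160))) (c (a (l 16709576) (l 16760024)) (a (l 16605736) (l 16669592))))))) (b (a (b (c (a (l 16852032) (l 16872096)) (a (l 16735776) (l 16756616))) (c (a (l 16848040) (l 16870024)) (a (l 16721808) (l 16745160)))) (b (c (a (l 16891768) (l 16911056)) (a (l 16777152) (l 16797384)))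 (c (a (l 16891432) (l 16912272)) (a (l 16767992) (l 16790312))))) (a (b (c (a (c (l 16875592) (l 16807872)) (l 16844984)) (a (b (l 16709568) (l 16700480)) (b (l 16734992) (l 16727392)))) (b (c (a (l 16835440) (l 16861400)) (a (l 16690600) (l 16719080))) (c (a (l 16809344) (l 16857576)) (a (l 16679872) (l 16710016))))) (b (c (a (l 16889336) (l 16911960)) (a (b (l 16759728) (l 16753488)) (b (l 16783792) (l 16778792)))) (c (a (c (l 16920368) (l 16849840)) (l 16867880)) (a (b (l 16746616) (l 16718096)) (b (l 16773232) (l 16746096)))))))), by decide +kernel⟩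

def k157_pm_011 : ∃ t, chk3 f_pm_011 t 24 62 2 = true :=
  ⟨(c (a (a (b (l 17029968) (c (l 17077072) (b (l 16985864) (l 16983640)))) (b (l 17057680) (c (l 17106336) (l 17016640)))) (b (c (l 17136344) (l 17056840)) (c (l 17147088) (b (l 17059624) (l 17061392))))) (a (b (a (c (l 16903536) (b (l 16822712) (l 16814184))) (c (l 16933928) (b (l 16854000) (l 16847320)))) (b (a (c (l 16895400) (a (l 16795440) (l 16813448))) (c (l 16928328) (l 16839584))) (a (c (b (l 16890392) (l 16887384)) (b (l 16796368) (b (l 16750352) (l 16790496)))) (c (b (l 16924760) (l 16923080)) (b (l 16833152) (l 16787688)))))) (b (a (b (l 16923856) (l 16857616)) (c (l 16990560) (l 16910936))) (b (a (c (l 16959560) (l 16872960)) (l 16863104)) (b (c (l 16951984) (a (l 16868064) (l 16901168))) (a (l 16848624) (l 16944592))))))), by decide +kernel⟩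

def k158_pm_011 : ∃ t, chk3 f_pm_011 t 24 62 3 = true :=
  ⟨(b (a (c (a (c (b (l 16739128) (l 16726736)) (b (l 16654960) (l 16638728))) (b (c (l 16772104) (l 16689632)) (c (l 16761808) (l 16675752)))) (a (c (l 16614584) (l 16610632)) (c (l 16621544) (l 16606864)))) (c (a (b (c (l 16803720) (l 16722928)) (c (l 16795304) (l 16711152))) (b (c (l 16834048) (l 16754904)) (c (l 16827312) (l 16745024)))) (a (c (b (l 16641544) (l 16626440)) (l 16603464)) (c (b (l 16675184) (l 16662184)) (l 16611016))))) (a (c (a (b (c (a (l 16703456) (l 16722584)) (l 16622168)) (b (c (l 16701888) (l 16623960)) (c (a (l 16705264) (l 16705248)) (l 16626064)))) (b (c (a (l 16741240) (l 16759440)) (a (l 16650960) (l 16670248))) (c (b (l 16720112) (a (l 16725720) (l 16745728))) (b (l 16669512) (l 16630864))))) (b (a (l 16616080) (l 16623208)) (a (c (l 16631600) (l 16616848)) (b (l 16614688) (l 16627704))))) (c (b (a (c (l 16733440) (a (l 16689072) (l 16707448))) (c (l 16819672) (a (l 16725384) (l 16742904)))) (a (b (c (a (l 16769200) (l 16787344))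 (a (l 16678424) (l 16697720))) (c (l 16774672) (l 16682840))) (b (c (a (l 16805024) (l 16822272)) (b (l 16726984) (l 16724456))) (c (l 16811400) (l 16722016))))) (b (a (c (l 16612088) (l 16607440)) (a (l 16607888) (l 16611816))) (a (c (b (l 16614424) (l 16617984)) (l 16621608)) (c (b (l 16616384) (l 16632120)) (b (l 16607344) (l 16611392)))))))), by decide +kernel⟩

def k159_pm_011 : ∃ t, chk3 f_pm_011 t 25 62 1 = true :=
  ⟨(c (c (a (b (l 17144224) (c (l 17196072) (l 17114072))) (b (l 17187016) (l 17200520))) (a (b (a (c (l 17016920) (l 16939016)) (l 17003992)) (b (a (l 16976136) (l 17003872)) (a (c (l 17017960) (l 16932512)) (l 17004480)))) (b (a (l 17028744) (l 17052328)) (b (c (l 17081608) (l 17004096)) (l 17045248))))) (b (a (c (a (b (c (l 16863104) (l 16785608)) (c (l 16857896) (l 16777448))) (c (l 16889112) (b (l 16815064) (l 16808464)))) (a (c (b (l 16707528) (l 16696448)) (l 16608872)) (b (c (l 16738608) (l 16661560)) (c (l 16729280) (l 16649512))))) (b (c (a (l 16880536) (l 16906848)) (a (c (l 16768464)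 (l 16693016)) (c (l 16797136) (l 16723264)))) (c (a (l 16792760) (l 16904168)) (a (c (l 16760728) (l 16682744)) (c (l 16790872) (l 16714624)))))) (a (c (b (a (c (l 16851872) (l 16747440)) (a (l 16792184) (l 16786760))) (a (c (b (l 16847400) (l 16846136)) (b (b (l 16762544) (l 16761024)) (l 16759112))) (c (l 16879184) (a (l 16786560) (l 16803592))))) (b (a (c (l 16684432) (l 16602680)) (a (l 16684896) (a (l 16682336) (l 16691024)))) (a (b (c (b (l 16676688) (l 16674488)) (l 16605672)) (c (l 16671592) (l 16610296))) (c (a (l 16701360) (l 16719520)) (l 16617352))))) (c (b (a (c (l 16911976) (b (l 16833816) (l 16830896))) (c (l 16939872) (l 16862336))) (a (c (l 16910136) (l 16828216)) (l 16857528))) (b (b (a (l 16690968) (l 16704832)) (a (c (l 16729272) (l 16674288)) (c (l 16761392) (b (l 16704160) (l 16701984))))) (a (c (l 16724816) (l 16662824)) (c (l 16779208) (l 16698360)))))))), by decide +kernel⟩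

def k160_pm_011 : ∃ t, chk3 f_pm_011 t 12 63 2 = true :=
  ⟨(a (c (a (b (c (l 17100224) (a (l 16984328) (l 17019272))) (c (l 17109968) (a (b (l 16985272) (l 14)) (l 17023376)))) (b (c (l 17159888) (l 17067384)) (c (l 17173600) (l 17054184)))) (a (b (b (b (a (c (l 16886120) (l 16767272)) (a (l 16761168) (l 16842536))) (l 14)) (l 14)) (l 14)) (b (c (a (l 16957640) (l 16990944)) (b (a (l 16864184) (l 16899520)) (l 14))) (c (a (b (l 16958040) (l 14)) (l 16993992)) (l 14))))) (c (a (b (l 17168240) (l 17181960)) (b (l 17215752) (l 17231296))) (a (b (c (l 17036944) (a (l 16932808) (l 16964616))) (a (c (l 17027408) (b (l 16932808) (l 14))) (c (l 17058472) (l 16966800)))) (a (b (l 17036720) (l 17001056)) (b (l 17063592) (l 17071200)))))), by decide +kernel⟩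

def k161_pm_011 : ∃ t, chk3 f_pm_011 t 12 63 3 = true :=
  ⟨(a (a (a (b (c (b (b (c (l 16689912) (l 16630880)) (l 14)) (l 14)) (c (b (l 16628552) (l 14)) (b (l 16623672) (l 16631880)))) (a (c (l 14) (a (c (l 14) (b (l 16640616) (c (l 14) (l 16657040)))) (l 14))) (l 14))) (b (b (b (c (c (l 16732120) (l 16657040)) (l 16621864)) (l 14)) (l 14)) (l 14))) (b (b (b (c (a (c (l 16771928) (l 16678544)) (c (l 16809472) (l 16718656))) (c (a (l 16622832) (l 16627328)) (l 16627056))) (l 14)) (l 14)) (l 14))) (c (a (b (b (b (a (a (l 16728920) (l 16746736)) (a (l 16785032) (l 16822832))) (l 14)) (l 14)) (l 14)) (b (c (a (l 16867728) (l 16940088)) (b (a (l 16825632) (l 16857912)) (l 14))) (c (a (b (l 16909304) (l 14)) (l 16920520)) (l 14)))) (b (b (b (a (a (c (l 16667712) (l 16615000)) (c (l 16705952) (l 16618968))) (a (c (l 16742152) (l 16657496)) (c (l 16776424) (l 16694016)))) (l 14)) (l 14)) (l 14)))), by decide +kernel⟩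

def k162_pm_011 : ∃ t, chk3 f_pm_011 t 13 30 1 = true :=
  ⟨(c (a (b (a (c (l 17165048) (b (l 17048176) (l 17059400))) (c (l 17195800) (l 17086192))) (c (a (l 17201000) (b (l 17223792) (l 17242080))) (a (b (l 17069640) (l 17078256)) (b (l 17104768) (a (l 17107512) (l 17125160)))))) (b (c (l 17238312) (l 17130352)) (a (c (l 17261024) (l 17162376)) (l 17228192)))) (a (b (a (b (c (a (l 16929600) (l 16947128)) (a (b (l 16817960) (l 16815968)) (l 16835664))) (c (a (l 16932576) (l 16951808)) (a (l 16791192) (b (l 16833872) (l 16832176))))) (b (c (l 16972088) (l 16862448)) (c (l 16978016) (a (l 16852576) (l 16871216))))) (a (b (c (a (l 16933840) (l 16955056)) (a (b (l 16807176) (l 16803320)) (b (l 16829952) (l 16827088)))) (c (a (l 16933520) (l 16956312)) (a (b (l 16798960) (l 16794064)) (b (l 16823832) (l 16820088))))) (c (b (a (l 16974848) (l 16992768)) (a (l 16978336) (b (l 16997432) (l 16999896)))) (b (a (b (l 16851392) (a (l 16844472) (l 16855536))) (l 16849944)) (a (b (l 16847952) (l 16845208)) (b (a (l 16865128)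 (l 16875632)) (a (l 16863512) (l 16875056)))))))) (b (c (a (l 17006984) (l 17036616)) (a (b (l 16896120) (l 16897736)) (l 16929176))) (a (b (c (l 17017600) (l 16899216)) (c (a (l 17016456) (l 17032984)) (a (b (l 16890544) (l 16890712)) (l 16909984)))) (c (l 17052248) (b (l 16933888) (l 16937088))))))), by decide +kernel⟩

def k163_pm_011 : ∃ t, chk3 f_pm_011 t 13 31 2 = true :=
  ⟨(c (b (a (b (a (l 17225336) (l 17259544)) (a (l 17240648) (l 17275904))) (a (b (l 17288528) (l 17306256)) (l 17322432))) (a (a (l 17265296) (l 17301248)) (a (l 17332784) (l 17357568)))) (b (a (a (b (l 17085592) (b (l 17090280) (l 17094208))) (b (l 17126480) (l 17134952))) (a (b (a (l 17153376) (l 17169240)) (a (l 17164536) (l 17181200))) (b (l 17189080) (l 17202240)))) (a (a (b (l 17100744) (l 17109848)) (b (l 17145032) (l 17155392))) (a (b (l 17183976) (l 17194792)) (l 17221856))))), by decide +kernel⟩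

def k164_pm_011 : ∃ t, chk3 f_pm_011 t 26 31 3 = true :=
  ⟨(b (b (a (c (a (c (l 16967400) (l 16895136)) (l 16935016)) (a (b (l 16725688) (c (l 16819744) (l 16745208))) (b (l 16794880) (c (l 16847432) (l 16774576))))) (c (a (l 16979584) (l 17002288)) (a (b (l 16842080) (l 16796536)) (b (l 16867432) (l 16864816))))) (a (c (b (a (c (l 16966392) (l 16890744)) (l 16912840)) (a (l 16928088) (l 16955168))) (b (a (b (l 16735672) (c (l 16813056) (l 16693784))) (b (l 16744328) (c (l 16842488) (l 16767056)))) (a (c (l 16810920) (l 16732136)) (c (l 16841016) (l 16764224))))) (c (b (a (l 16979680) (l 17003408)) (l 16993072)) (b (a (b (c (l 16871848) (l 16799232)) (l 16833984)) (b (l 16841736) (l 16861648))) (a (c (l 16869584) (l 16794744)) (l 16839344)))))) (a (c (b (a (b (l 16928288) (l 16865712)) (c (l 16995632) (l 16917176))) (a (c (l 16971632) (b (l 16887296) (l 14))) (b (l 16958160) (l 16896640)))) (b (b (b (b (a (l 16706360) (l 16779928)) (l 14)) (l 14)) (l 14)) (l 14))) (c (b (a (l 16982856) (l 17007696)) (a (c (l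 17026080) (l 16946456)) (l 17012032))) (b (a (c (b (l 16868320) (l 16867312)) (b (l 16791784) (l 14))) (c (l 16895736) (b (l 16821464) (l 14)))) (c (a (b (l 16866584) (l 14)) (b (l 16895400) (l 16895608))) (l 14)))))), by decide +kernel⟩

def k165_pm_011 : ∃ t, chk3 f_pm_011 t 27 31 3 = true :=
  ⟨(b (a (b (c (a (b (l 17021624) (l 17024288)) (a (l 17036464) (l 17044920))) (a (b (a (l 16885312) (l 16896056)) (a (l 16883944) (l 16895888))) (a (l 16906432) (l 16916704)))) (c (a (l 17006464) (b (l 17046080) (l 17049352))) (a (b (c (l 16922728) (l 16853176)) (l 16887008)) (b (a (b (l 16906800) (l 16906808)) (l 16917584)) (l 16912120))))) (c (b (l 17064944) (l 17072800)) (b (b (l 16939456) (l 16941480)) (a (b (l 16932776) (l 16933880)) (l 16952600))))) (c (a (b (a (l 17031088) (l 17053504)) (c (l 17084456) (l 17010352))) (b (l 17081328) (l 17089048))) (a (b (a (b (l 16885944) (l 16822296)) (a (l 16905128) (l 16896968))) (a (c (l 16922800) (b (l 16847064) (l 14))) (c (l 16948440) (b (l 16874592) (l 16874384))))) (b (a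 (c (l 16969808) (l 16900504)) (c (l 16989216) (l 16922088))) (a (a (l 16909488) (l 16900872)) (c (l 16994360) (l 16924496))))))), by decide +kernel⟩

def k166_pm_011 : ∃ t, chk3 f_pm_011 t 7 6 1 = true :=
  ⟨(a (a (b (l 1) (b (l 1) (c (l 17050048) (b (l 1) (l 16960584))))) (l 1)) (l 1)), by decide +kernel⟩

def k167_pm_011 : ∃ t, chk3 f_pm_011 t 7 14 1 = true :=
  ⟨(c (a (b (a (b (l 17109624) (l 17146440)) (b (l 1) (l 17207704))) (a (c (l 17240688) (l 17147376)) (c (l 17300128) (l 17202272)))) (a (b (l 1) (b (l 1) (l 17751376295))) (l 1))) (b (a (a (b (l 16977408) (a (b (l 16974880) (l 16979992)) (b (l 16999704) (l 17005248)))) (b (l 1) (c (l 17103880) (b (l 1) (l 16999736))))) (l 1)) (b (a (a (c (l 17045808) (a (l 16943192) (l 16968200))) (c (l 17097888) (a (l 16992776) (l 17017024)))) (l 1)) (a (a (c (l 17061288) (a (l 16950328) (l 16975696))) (c (l 17112064) (a (l 17000200) (l 17024040)))) (a (a (b (l 1) (l 13455856759)) (l 1)) (l 1)))))), by decide +kernel⟩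

def k168_pm_011 : ∃ t, chk3 f_pm_011 t 14 15 1 = true :=
  ⟨(b (c (c (a (l 17308776) (l 17361776)) (a (b (l 17183680) (l 17207424)) (b (l 17234816) (l 17255344)))) (a (c (b (l 17076672) (a (l 17079880) (l 17104704))) (b (a (l 16958072) (l 16983888)) (a (b (l 16964272) (l 16968648)) (b (l 16990584) (l 16995400))))) (c (b (l 17125832) (a (l 17128264) (l 17150944))) (b (a (l 17008320) (l 17031664)) (a (b (l 17015032) (l 17019912)) (b (l 17038008) (l 17042664))))))) (b (c (c (a (l 17356824) (l 17402584)) (a (l 17273304) (b (l 17270352) (l 17280768)))) (c (a (b (a (l 17092840) (l 17116992)) (l 17113600)) (b (a (l 17139544) (l 17161016)) (l 17158280))) (a (b (a (b (l 16972016) (l 16974400)) (b (l 16999184) (l 17001424))) (a (l 16977328) (l 17005048))) (b (a (b (l 17023896) (l 17025904)) (b (l 17046624) (l 17048616))) (a (l 17029656) (l 17051848)))))) (a (c (a (c (l 17378440) (l 17246048)) (l 17332848)) (c (a (b (l 17110744) (l 17120224)) (l 17139424)) (a (b (l 16981672) (a (l 16936408) (l 16994248))) (c (l 17044152)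 (l 16981144))))) (c (c (l 17426640) (l 17296872)) (c (a (l 17160856) (l 17180512)) (a (c (l 17067896) (l 17006888)) (c (l 17089040) (l 17029400)))))))), by decide +kernel⟩

def k169_pm_011 : ∃ t, chk3 f_pm_011 t 15 15 1 = true :=
  ⟨(b (c (c (a (l 17415392) (b (l 1) (l 17478464))) (a (b (l 17285288) (l 17302384)) (b (l 1) (l 26341467303)))) (a (c (b (l 11845577015) (a (l 17173072) (l 17194792))) (b (a (l 17054256) (l 17076264)) (a (b (l 17059984) (l 17064200)) (b (l 17081208) (l 17084856))))) (a (a (b (l 1) (c (l 17210848) (l 17098288))) (l 1)) (l 1)))) (c (b (c (a (l 17448704) (l 17493768)) (a (b (l 17314256) (l 17321808)) (b (l 17357360) (l 17361848)))) (c (a (l 17464352) (l 17501384)) (a (l 17333432) (l 17368800)))) (a (c (b (b (a (l 17181888) (l 17202368)) (l 17198416)) (c (l 17238872) (l 17177584))) (b (b (b (a (l 17067632) (l 17087600)) (l 17079528)) (a (l 17072400) (l 17091808))) (a (l 17078912) (l 17097368)))) (c (b (b (a (l 17222504) (l 1)) (l 17236464)) (a (l 17234216) (l 17251112))) (b (a (b (l 17107432)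 (l 17110312)) (l 41910188087)) (a (l 17114744) (l 35467728551))))))), by decide +kernel⟩

theorem s170_pm_011 : ∃ t, chk3 f_pm_011 t 7 15 1 = true := ex3_a k168_pm_011 k169_pm_011

theorem s171_pm_011 : ∃ t, chk3 f_pm_011 t 7 7 1 = true := ex3_b k167_pm_011 s170_pm_011

theorem s172_pm_011 : ∃ t, chk3 f_pm_011 t 7 3 1 = true := ex3_b k166_pm_011 s171_pm_011

theorem s173_pm_011 : ∃ t, chk3 f_pm_011 t 13 31 3 = true := ex3_a k164_pm_011 k165_pm_011

theorem s174_pm_011 : ∃ t, chk3 f_pm_011 t 13 31 1 = true := ex3_c k163_pm_011 s173_pm_011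

theorem s175_pm_011 : ∃ t, chk3 f_pm_011 t 13 15 1 = true := ex3_b k162_pm_011 s174_pm_011

theorem s176_pm_011 : ∃ t, chk3 f_pm_011 t 12 63 1 = true := ex3_c k160_pm_011 k161_pm_011

theorem s177_pm_011 : ∃ t, chk3 f_pm_011 t 24 62 1 = true := ex3_c k157_pm_011 k158_pm_011

theorem s178_pm_011 : ∃ t, chk3 f_pm_011 t 12 62 1 = true := ex3_a s177_pm_011 k159_pm_011

theorem s179_pm_011 : ∃ t, chk3 f_pm_011 t 12 31 1 = true := ex3_b s178_pm_011 s176_pm_011

theorem s180_pm_011 : ∃ t, chk3 f_pm_011 t 12 30 1 = true := ex3_c k155_pm_011 k156_pm_011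

theorem s181_pm_011 : ∃ t, chk3 f_pm_011 t 12 15 1 = true := ex3_b s180_pm_011 s179_pm_011

theorem s182_pm_011 : ∃ t, chk3 f_pm_011 t 6 15 1 = true := ex3_a s181_pm_011 s175_pm_011

theorem s183_pm_011 : ∃ t, chk3 f_pm_011 t 6 14 1 = true := ex3_a k153_pm_011 k154_pm_011

theorem s184_pm_011 : ∃ t, chk3 f_pm_011 t 6 7 1 = true := ex3_b s183_pm_011 s182_pm_011

theorem s185_pm_011 : ∃ t, chk3 f_pm_011 t 6 13 1 = true := ex3_a k151_pm_011 k152_pm_011

theorem s186_pm_011 : ∃ t, chk3 f_pm_011 t 6 6 1 = true := ex3_b k150_pm_011 s185_pm_011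

theorem s187_pm_011 : ∃ t, chk3 f_pm_011 t 6 3 1 = true := ex3_b s186_pm_011 s184_pm_011

theorem s188_pm_011 : ∃ t, chk3 f_pm_011 t 3 3 1 = true := ex3_a s187_pm_011 s172_pm_011

theorem s189_pm_011 : ∃ t, chk3 f_pm_011 t 3 1 1 = true := ex3_b k149_pm_011 s188_pm_011

theorem s190_pm_011 : ∃ t, chk3 f_pm_011 t 23 63 1 = true := ex3_c k147_pm_011 k148_pm_011

theorem s191_pm_011 : ∃ t, chk3 f_pm_011 t 22 63 3 = true := ex3_b k145_pm_011 k146_pm_011

theorem s192_pm_011 : ∃ t, chk3 f_pm_011 t 22 63 1 = true := ex3_c k144_pm_011 s191_pm_011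

theorem s193_pm_011 : ∃ t, chk3 f_pm_011 t 11 63 1 = true := ex3_a s192_pm_011 s190_pm_011

theorem s194_pm_011 : ∃ t, chk3 f_pm_011 t 23 62 1 = true := ex3_c k142_pm_011 k143_pm_011

theorem s195_pm_011 : ∃ t, chk3 f_pm_011 t 22 62 1 = true := ex3_c k140_pm_011 k141_pm_011

theorem s196_pm_011 : ∃ t, chk3 f_pm_011 t 11 62 1 = true := ex3_a s195_pm_011 s194_pm_011

theorem s197_pm_011 : ∃ t, chk3 f_pm_011 t 11 31 1 = true := ex3_b s196_pm_011 s193_pm_011

theorem s198_pm_011 : ∃ t, chk3 f_pm_011 t 11 30 1 = true := ex3_a k138_pm_011 k139_pm_011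

theorem s199_pm_011 : ∃ t, chk3 f_pm_011 t 11 15 1 = true := ex3_b s198_pm_011 s197_pm_011

theorem s200_pm_011 : ∃ t, chk3 f_pm_011 t 11 28 1 = true := ex3_a k135_pm_011 k136_pm_011

theorem s201_pm_011 : ∃ t, chk3 f_pm_011 t 11 14 1 = true := ex3_b s200_pm_011 k137_pm_011

theorem s202_pm_011 : ∃ t, chk3 f_pm_011 t 11 7 1 = true := ex3_b s201_pm_011 s199_pm_011

theorem s203_pm_011 : ∃ t, chk3 f_pm_011 t 21 127 1 = true := ex3_c k133_pm_011 k134_pm_011

theorem s204_pm_011 : ∃ t, chk3 f_pm_011 t 21 63 1 = true := ex3_b k132_pm_011 s203_pm_011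

theorem s205_pm_011 : ∃ t, chk3 f_pm_011 t 21 31 1 = true := ex3_b k131_pm_011 s204_pm_011

theorem s206_pm_011 : ∃ t, chk3 f_pm_011 t 20 127 4 = true := ex3_a k127_pm_011 k128_pm_011

theorem s207_pm_011 : ∃ t, chk3 f_pm_011 t 20 127 2 = true := ex3_c s206_pm_011 k129_pm_011

theorem s208_pm_011 : ∃ t, chk3 f_pm_011 t 20 127 1 = true := ex3_c s207_pm_011 k130_pm_011

theorem s209_pm_011 : ∃ t, chk3 f_pm_011 t 20 63 1 = true := ex3_b k126_pm_011 s208_pm_011

theorem s210_pm_011 : ∃ t, chk3 f_pm_011 t 20 31 1 = true := ex3_b k125_pm_011 s209_pm_011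

theorem s211_pm_011 : ∃ t, chk3 f_pm_011 t 10 31 1 = true := ex3_a s210_pm_011 s205_pm_011

theorem s212_pm_011 : ∃ t, chk3 f_pm_011 t 20 30 1 = true := ex3_b k122_pm_011 k123_pm_011

theorem s213_pm_011 : ∃ t, chk3 f_pm_011 t 10 30 1 = true := ex3_a s212_pm_011 k124_pm_011

theorem s214_pm_011 : ∃ t, chk3 f_pm_011 t 10 15 1 = true := ex3_b s213_pm_011 s211_pm_011

theorem s215_pm_011 : ∃ t, chk3 f_pm_011 t 21 29 1 = true := ex3_b k120_pm_011 k121_pm_011

theorem s216_pm_011 : ∃ t, chk3 f_pm_011 t 80 119 1 = true := ex3_c k116_pm_011 k117_pm_011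

theorem s217_pm_011 : ∃ t, chk3 f_pm_011 t 40 119 1 = true := ex3_a s216_pm_011 k118_pm_011

theorem s218_pm_011 : ∃ t, chk3 f_pm_011 t 81 118 1 = true := ex3_b k114_pm_011 k115_pm_011

theorem s219_pm_011 : ∃ t, chk3 f_pm_011 t 40 118 1 = true := ex3_a k113_pm_011 s218_pm_011

theorem s220_pm_011 : ∃ t, chk3 f_pm_011 t 40 59 1 = true := ex3_b s219_pm_011 s217_pm_011

theorem s221_pm_011 : ∃ t, chk3 f_pm_011 t 20 59 1 = true := ex3_a s220_pm_011 k119_pm_011

theorem s222_pm_011 : ∃ t, chk3 f_pm_011 t 41 117 1 = true := ex3_a k111_pm_011 k112_pm_011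

theorem s223_pm_011 : ∃ t, chk3 f_pm_011 t 41 58 1 = true := ex3_b k110_pm_011 s222_pm_011

theorem s224_pm_011 : ∃ t, chk3 f_pm_011 t 20 58 1 = true := ex3_a k109_pm_011 s223_pm_011

theorem s225_pm_011 : ∃ t, chk3 f_pm_011 t 20 29 1 = true := ex3_b s224_pm_011 s221_pm_011

theorem s226_pm_011 : ∃ t, chk3 f_pm_011 t 10 29 1 = true := ex3_a s225_pm_011 s215_pm_011

theorem s227_pm_011 : ∃ t, chk3 f_pm_011 t 21 57 1 = true := ex3_a k107_pm_011 k108_pm_011

theorem s228_pm_011 : ∃ t, chk3 f_pm_011 t 21 28 1 = true := ex3_b k106_pm_011 s227_pm_011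

theorem s229_pm_011 : ∃ t, chk3 f_pm_011 t 10 28 1 = true := ex3_a k105_pm_011 s228_pm_011

theorem s230_pm_011 : ∃ t, chk3 f_pm_011 t 10 14 1 = true := ex3_b s229_pm_011 s226_pm_011

theorem s231_pm_011 : ∃ t, chk3 f_pm_011 t 10 7 1 = true := ex3_b s230_pm_011 s214_pm_011

theorem s232_pm_011 : ∃ t, chk3 f_pm_011 t 5 7 1 = true := ex3_a s231_pm_011 s202_pm_011

theorem s233_pm_011 : ∃ t, chk3 f_pm_011 t 5 3 1 = true := ex3_b k104_pm_011 s232_pm_011

theorem s234_pm_011 : ∃ t, chk3 f_pm_011 t 39 127 1 = true := ex3_c k102_pm_011 k103_pm_011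

theorem s235_pm_011 : ∃ t, chk3 f_pm_011 t 19 127 1 = true := ex3_a k101_pm_011 s234_pm_011

theorem s236_pm_011 : ∃ t, chk3 f_pm_011 t 19 63 1 = true := ex3_b k100_pm_011 s235_pm_011

theorem s237_pm_011 : ∃ t, chk3 f_pm_011 t 19 31 1 = true := ex3_b k99_pm_011 s236_pm_011

theorem s238_pm_011 : ∃ t, chk3 f_pm_011 t 18 127 1 = true := ex3_b k97_pm_011 k98_pm_011

theorem s239_pm_011 : ∃ t, chk3 f_pm_011 t 18 63 1 = true := ex3_b k96_pm_011 s238_pm_011

theorem s240_pm_011 : ∃ t, chk3 f_pm_011 t 36 62 1 = true := ex3_b k93_pm_011 k94_pm_011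

theorem s241_pm_011 : ∃ t, chk3 f_pm_011 t 18 62 1 = true := ex3_a s240_pm_011 k95_pm_011

theorem s242_pm_011 : ∃ t, chk3 f_pm_011 t 18 31 1 = true := ex3_b s241_pm_011 s239_pm_011

theorem s243_pm_011 : ∃ t, chk3 f_pm_011 t 9 31 1 = true := ex3_a s242_pm_011 s237_pm_011

theorem s244_pm_011 : ∃ t, chk3 f_pm_011 t 19 61 1 = true := ex3_a k91_pm_011 k92_pm_011

theorem s245_pm_011 : ∃ t, chk3 f_pm_011 t 78 240 2 = true := ex3_a k85_pm_011 k86_pm_011

theorem s246_pm_011 : ∃ t, chk3 f_pm_011 t 78 240 1 = true := ex3_c s245_pm_011 k87_pm_011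

theorem s247_pm_011 : ∃ t, chk3 f_pm_011 t 78 120 1 = true := ex3_b s246_pm_011 k88_pm_011

theorem s248_pm_011 : ∃ t, chk3 f_pm_011 t 39 120 1 = true := ex3_a s247_pm_011 k89_pm_011

theorem s249_pm_011 : ∃ t, chk3 f_pm_011 t 39 60 1 = true := ex3_b s248_pm_011 k90_pm_011

theorem s250_pm_011 : ∃ t, chk3 f_pm_011 t 76 242 2 = true := ex3_a k80_pm_011 k81_pm_011

theorem s251_pm_011 : ∃ t, chk3 f_pm_011 t 76 242 1 = true := ex3_c s250_pm_011 k82_pm_011

theorem s252_pm_011 : ∃ t, chk3 f_pm_011 t 76 121 1 = true := ex3_b s251_pm_011 k83_pm_011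

theorem s253_pm_011 : ∃ t, chk3 f_pm_011 t 38 121 1 = true := ex3_a s252_pm_011 k84_pm_011

theorem s254_pm_011 : ∃ t, chk3 f_pm_011 t 77 241 2 = true := ex3_a k77_pm_011 k78_pm_011

theorem s255_pm_011 : ∃ t, chk3 f_pm_011 t 77 241 1 = true := ex3_c s254_pm_011 k79_pm_011

theorem s256_pm_011 : ∃ t, chk3 f_pm_011 t 77 120 1 = true := ex3_b k76_pm_011 s255_pm_011

theorem s257_pm_011 : ∃ t, chk3 f_pm_011 t 38 120 1 = true := ex3_a k75_pm_011 s256_pm_011

theorem s258_pm_011 : ∃ t, chk3 f_pm_011 t 38 60 1 = true := ex3_b s257_pm_011 s253_pm_011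

theorem s259_pm_011 : ∃ t, chk3 f_pm_011 t 19 60 1 = true := ex3_a s258_pm_011 s249_pm_011

theorem s260_pm_011 : ∃ t, chk3 f_pm_011 t 19 30 1 = true := ex3_b s259_pm_011 s244_pm_011

theorem s261_pm_011 : ∃ t, chk3 f_pm_011 t 148 245 1 = true := ex3_b k70_pm_011 k71_pm_011

theorem s262_pm_011 : ∃ t, chk3 f_pm_011 t 74 245 1 = true := ex3_a s261_pm_011 k72_pm_011

theorem s263_pm_011 : ∃ t, chk3 f_pm_011 t 149 244 1 = true := ex3_c k68_pm_011 k69_pm_011

theorem s264_pm_011 : ∃ t, chk3 f_pm_011 t 74 244 1 = true := ex3_a k67_pm_011 s263_pm_011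

theorem s265_pm_011 : ∃ t, chk3 f_pm_011 t 74 122 1 = true := ex3_b s264_pm_011 s262_pm_011

theorem s266_pm_011 : ∃ t, chk3 f_pm_011 t 37 122 1 = true := ex3_a s265_pm_011 k73_pm_011

theorem s267_pm_011 : ∃ t, chk3 f_pm_011 t 37 61 1 = true := ex3_b s266_pm_011 k74_pm_011

theorem s268_pm_011 : ∃ t, chk3 f_pm_011 t 146 492 1 = true := ex3_c k62_pm_011 k63_pm_011

theorem s269_pm_011 : ∃ t, chk3 f_pm_011 t 146 246 1 = true := ex3_b s268_pm_011 k64_pm_011

theorem s270_pm_011 : ∃ t, chk3 f_pm_011 t 73 246 1 = true := ex3_a s269_pm_011 k65_pm_011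

theorem s271_pm_011 : ∃ t, chk3 f_pm_011 t 73 123 1 = true := ex3_b s270_pm_011 k66_pm_011

theorem s272_pm_011 : ∃ t, chk3 f_pm_011 t 72 247 2 = true := ex3_a k59_pm_011 k60_pm_011

theorem s273_pm_011 : ∃ t, chk3 f_pm_011 t 72 247 1 = true := ex3_c s272_pm_011 k61_pm_011

theorem s274_pm_011 : ∃ t, chk3 f_pm_011 t 145 493 1 = true := ex3_c k57_pm_011 k58_pm_011

theorem s275_pm_011 : ∃ t, chk3 f_pm_011 t 145 246 1 = true := ex3_b k56_pm_011 s274_pm_011

theorem s276_pm_011 : ∃ t, chk3 f_pm_011 t 72 246 1 = true := ex3_a k55_pm_011 s275_pm_011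

theorem s277_pm_011 : ∃ t, chk3 f_pm_011 t 72 123 1 = true := ex3_b s276_pm_011 s273_pm_011

theorem s278_pm_011 : ∃ t, chk3 f_pm_011 t 36 123 1 = true := ex3_a s277_pm_011 s271_pm_011

theorem s279_pm_011 : ∃ t, chk3 f_pm_011 t 147 245 1 = true := ex3_c k53_pm_011 k54_pm_011

theorem s280_pm_011 : ∃ t, chk3 f_pm_011 t 73 245 1 = true := ex3_a k52_pm_011 s279_pm_011

theorem s281_pm_011 : ∃ t, chk3 f_pm_011 t 73 122 1 = true := ex3_b k51_pm_011 s280_pm_011

theorem s282_pm_011 : ∃ t, chk3 f_pm_011 t 36 122 1 = true := ex3_a k50_pm_011 s281_pm_011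

theorem s283_pm_011 : ∃ t, chk3 f_pm_011 t 36 61 1 = true := ex3_b s282_pm_011 s278_pm_011

theorem s284_pm_011 : ∃ t, chk3 f_pm_011 t 18 61 1 = true := ex3_a s283_pm_011 s267_pm_011

theorem s285_pm_011 : ∃ t, chk3 f_pm_011 t 151 243 1 = true := ex3_b k48_pm_011 k49_pm_011

theorem s286_pm_011 : ∃ t, chk3 f_pm_011 t 75 243 1 = true := ex3_a k47_pm_011 s285_pm_011

theorem s287_pm_011 : ∃ t, chk3 f_pm_011 t 75 121 1 = true := ex3_b k46_pm_011 s286_pm_011

theorem s288_pm_011 : ∃ t, chk3 f_pm_011 t 37 121 1 = true := ex3_a k45_pm_011 s287_pm_011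

theorem s289_pm_011 : ∃ t, chk3 f_pm_011 t 37 60 1 = true := ex3_b k44_pm_011 s288_pm_011

theorem s290_pm_011 : ∃ t, chk3 f_pm_011 t 18 60 1 = true := ex3_a k43_pm_011 s289_pm_011

theorem s291_pm_011 : ∃ t, chk3 f_pm_011 t 18 30 1 = true := ex3_b s290_pm_011 s284_pm_011

theorem s292_pm_011 : ∃ t, chk3 f_pm_011 t 9 30 1 = true := ex3_a s291_pm_011 s260_pm_011

theorem s293_pm_011 : ∃ t, chk3 f_pm_011 t 9 15 1 = true := ex3_b s292_pm_011 s243_pm_011

theorem s294_pm_011 : ∃ t, chk3 f_pm_011 t 17 63 1 = true := ex3_b k41_pm_011 k42_pm_011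

theorem s295_pm_011 : ∃ t, chk3 f_pm_011 t 35 125 1 = true := ex3_a k39_pm_011 k40_pm_011

theorem s296_pm_011 : ∃ t, chk3 f_pm_011 t 71 248 3 = true := ex3_a k36_pm_011 k37_pm_011

theorem s297_pm_011 : ∃ t, chk3 f_pm_011 t 71 248 2 = true := ex3_a k34_pm_011 k35_pm_011

theorem s298_pm_011 : ∃ t, chk3 f_pm_011 t 71 248 1 = true := ex3_c s297_pm_011 s296_pm_011

theorem s299_pm_011 : ∃ t, chk3 f_pm_011 t 71 124 1 = true := ex3_b s298_pm_011 k38_pm_011

theorem s300_pm_011 : ∃ t, chk3 f_pm_011 t 70 249 3 = true := ex3_a k32_pm_011 k33_pm_011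

theorem s301_pm_011 : ∃ t, chk3 f_pm_011 t 70 249 2 = true := ex3_a k30_pm_011 k31_pm_011

theorem s302_pm_011 : ∃ t, chk3 f_pm_011 t 70 249 1 = true := ex3_c s301_pm_011 s300_pm_011

theorem s303_pm_011 : ∃ t, chk3 f_pm_011 t 70 124 1 = true := ex3_b k29_pm_011 s302_pm_011

theorem s304_pm_011 : ∃ t, chk3 f_pm_011 t 35 124 1 = true := ex3_a s303_pm_011 s299_pm_011

theorem s305_pm_011 : ∃ t, chk3 f_pm_011 t 35 62 1 = true := ex3_b s304_pm_011 s295_pm_011

theorem s306_pm_011 : ∃ t, chk3 f_pm_011 t 69 250 3 = true := ex3_a k26_pm_011 k27_pm_011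

theorem s307_pm_011 : ∃ t, chk3 f_pm_011 t 69 125 3 = true := ex3_b s306_pm_011 k28_pm_011

theorem s308_pm_011 : ∃ t, chk3 f_pm_011 t 34 125 3 = true := ex3_a k25_pm_011 s307_pm_011

theorem s309_pm_011 : ∃ t, chk3 f_pm_011 t 69 250 2 = true := ex3_a k22_pm_011 k23_pm_011

theorem s310_pm_011 : ∃ t, chk3 f_pm_011 t 69 125 2 = true := ex3_b s309_pm_011 k24_pm_011

theorem s311_pm_011 : ∃ t, chk3 f_pm_011 t 34 125 2 = true := ex3_a k21_pm_011 s310_pm_011

theorem s312_pm_011 : ∃ t, chk3 f_pm_011 t 34 125 1 = true := ex3_c s311_pm_011 s308_pm_011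

theorem s313_pm_011 : ∃ t, chk3 f_pm_011 t 34 62 1 = true := ex3_b k20_pm_011 s312_pm_011

theorem s314_pm_011 : ∃ t, chk3 f_pm_011 t 17 62 1 = true := ex3_a s313_pm_011 s305_pm_011

theorem s315_pm_011 : ∃ t, chk3 f_pm_011 t 17 31 1 = true := ex3_b s314_pm_011 s294_pm_011

theorem s316_pm_011 : ∃ t, chk3 f_pm_011 t 8 31 1 = true := ex3_a k19_pm_011 s315_pm_011

theorem s317_pm_011 : ∃ t, chk3 f_pm_011 t 8 15 1 = true := ex3_b k18_pm_011 s316_pm_011

theorem s318_pm_011 : ∃ t, chk3 f_pm_011 t 4 15 1 = true := ex3_a s317_pm_011 s293_pm_011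

theorem s319_pm_011 : ∃ t, chk3 f_pm_011 t 158 239 2 = true := ex3_b k14_pm_011 k15_pm_011

theorem s320_pm_011 : ∃ t, chk3 f_pm_011 t 79 239 2 = true := ex3_a s319_pm_011 k16_pm_011

theorem s321_pm_011 : ∃ t, chk3 f_pm_011 t 79 239 1 = true := ex3_c s320_pm_011 k17_pm_011

theorem s322_pm_011 : ∃ t, chk3 f_pm_011 t 159 477 1 = true := ex3_c k12_pm_011 k13_pm_011

theorem s323_pm_011 : ∃ t, chk3 f_pm_011 t 79 477 1 = true := ex3_a k11_pm_011 s322_pm_011

theorem s324_pm_011 : ∃ t, chk3 f_pm_011 t 79 238 1 = true := ex3_b k10_pm_011 s323_pm_011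

theorem s325_pm_011 : ∃ t, chk3 f_pm_011 t 79 119 1 = true := ex3_b s324_pm_011 s321_pm_011

theorem s326_pm_011 : ∃ t, chk3 f_pm_011 t 78 119 1 = true := ex3_b k8_pm_011 k9_pm_011

theorem s327_pm_011 : ∃ t, chk3 f_pm_011 t 39 119 1 = true := ex3_a s326_pm_011 s325_pm_011

theorem s328_pm_011 : ∃ t, chk3 f_pm_011 t 39 59 1 = true := ex3_b k7_pm_011 s327_pm_011

theorem s329_pm_011 : ∃ t, chk3 f_pm_011 t 19 59 1 = true := ex3_a k6_pm_011 s328_pm_011

theorem s330_pm_011 : ∃ t, chk3 f_pm_011 t 19 29 1 = true := ex3_b k5_pm_011 s329_pm_011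

theorem s331_pm_011 : ∃ t, chk3 f_pm_011 t 9 29 1 = true := ex3_a k4_pm_011 s330_pm_011

theorem s332_pm_011 : ∃ t, chk3 f_pm_011 t 9 14 1 = true := ex3_b k3_pm_011 s331_pm_011

theorem s333_pm_011 : ∃ t, chk3 f_pm_011 t 4 14 1 = true := ex3_a k2_pm_011 s332_pm_011

theorem s334_pm_011 : ∃ t, chk3 f_pm_011 t 4 7 1 = true := ex3_b s333_pm_011 s318_pm_011

theorem s335_pm_011 : ∃ t, chk3 f_pm_011 t 4 3 1 = true := ex3_b k1_pm_011 s334_pm_011

theorem s336_pm_011 : ∃ t, chk3 f_pm_011 t 2 3 1 = true := ex3_a s335_pm_011 s233_pm_011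

theorem s337_pm_011 : ∃ t, chk3 f_pm_011 t 2 1 1 = true := ex3_b k0_pm_011 s336_pm_011

theorem s338_pm_011 : ∃ t, chk3 f_pm_011 t 1 1 1 = true := ex3_a s337_pm_011 s189_pm_011

theorem c_pm_011 : CertN 0 536870912 536870912 536870912 201326592 134217728 3 false true false .pnn 0 1 1
    ndN0q0 ndN0q1 pcN1 cut_pm_011 Ext.none :=
  certN0 (fam := false) (s1 := true) (s2 := false) (a := 0) (b := 1) (c := 1) (cn := .pnn) (n1 := ndN0q0) (n2 := ndN0q1) (pc := pcN1) (cut := cut_pm_011) (xt := Ext.none) (P1 := 0) (W1 := 536870912) (P2 := 536870912) (W2 := 536870912) (P3 := 201326592) (W3 := 134217728) (N0 := 3)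
    rfl s338_pm_011

end Pool.Agent.Strip051.G.I3_16_5_16.Tab.C.NB00

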