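import Pool.Agent.Strip051.G.I3_16_5_16.Tab

/-! # Certificates N14 (generated) -/

set_option linter.all false
set_option maxRecDepth 100000

namespace Pool.Agent.Strip051.G.I3_16_5_16.Tab.C.NB00

open Pool.Agent.Strip051.PB Pool.Agent.Strip051.PB.T
open Pool.Agent.Strip051.G.I3_16_5_16.Tab

noncomputable def cut_pm_012 : Cut := Cut.of [[⟨0, 0, 0, 53687091⟩, ⟨1, 1, 0, 53687091⟩, ⟨2, 1, 0, 53687091⟩], [⟨0, 0, 1, 67108864⟩, ⟨1, 1, 2, 67108864⟩, ⟨2, 1, 0, 16777216⟩]]

noncomputable def f_pm_012 : ℕ → ℕ → ℕ → ℕ → Bool := onCell 536870912 536870912 0 536870912 201326592 134217728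
    (rowN 3 2 false true false .pnp 0 1 2 (qsf 0 536870912 0 536870912 1) ndN0q0 ndN0q2 pcN1 cut_pm_012 Ext.none)

def k0_pm_012 : ∃ t, chk3 f_pm_012 t 4 1 1 = true :=
  ⟨(b (a (l 2) (a (l 2) (b (l 2) (b (l 2) (c (l 17162416) (l 17041432)))))) (b (a (l 2) (a (b (l 2) (c (l 17316792) (l 17135680))) (c (b (l 17245824) (l 17316712)) (b (l 17095232) (l 17130488))))) (a (a (b (l 2) (c (b (l 17421336) (c (l 17499192) (l 17374512))) (b (c (l 17253752) (b (l 17144144) (l 17143960))) (c (b (l 17255040) (l 17250832)) (b (l 17139432) (a (l 17138656) (l 17123936))))))) (b (c (l 17377936) (b (l 17166920) (l 17176384))) (c (b (l 17403152) (c (l 17472672) (l 17347528))) (b (b (l 17178920) (c (l 17233912) (l 17121656))) (c (b (l 17229456) (l 17220840)) (b (l 17112640) (a (l 17108480) (l 17091976)))))))) (b (c (a (l 17367920) (l 17358136)) (a (b (l 17155280) (l 17159680)) (b (l 17141472) (l 17139936)))) (b (b (c (a (l 17383448) (l 17366288)) (a (l 17158024) (c (l 17190984) (b (l 17077664) (l 17073192))))) (c (a (l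 17385560) (l 17364288)) (a (c (l 17211000) (l 17096120)) (c (l 17182816) (l 17062280))))) (c (a (c (l 17445160) (l 17319192)) (c (l 17416600) (a (l 17296008) (l 17278936)))) (a (c (b (l 17201568) (l 17188104)) (b (l 17081824) (a (l 17074048) (l 17054032)))) (c (a (l 17168904) (b (l 17158544) (l 17137560))) (a (b (l 17053336) (l 17031144)) (b (l 17030400) (a (l 17011376) (l 16996688)))))))))))), by decide +kernel⟩

def k1_pm_012 : ∃ t, chk3 f_pm_012 t 5 2 1 = true :=
  ⟨(b (a (c (a (b (l 16867560) (l 16999040)) (b (b (l 16929336) (l 16969528)) (l 17031496))) (a (b (l 16877224) (l 16934928)) (b (l 16860576) (l 16957184)))) (c (b (a (l 16987080) (l 17022456)) (a (l 17063352) (l 17093952))) (b (a (l 16925624) (l 16944512)) (a (l 16978576) (l 16996704))))) (a (c (b (a (l 17091672) (l 17116592)) (a (l 17178200) (l 17196552))) (b (a (l 16997064) (l 17016984)) (a (l 29092516823) (b (l 17060776) (l 17083456))))) (c (b (a (l 17143096) (l 17169216)) (a (l 17217480) (l 17233744))) (b (a (l 17038568) (l 17054904))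 (a (b (l 17079520) (l 17088056)) (l 17079600)))))), by decide +kernel⟩

def k2_pm_012 : ∃ t, chk3 f_pm_012 t 5 6 1 = true :=
  ⟨(c (a (b (a (l 17256568) (l 17267760)) (a (l 17317408) (l 17316136))) (b (a (l 17275800) (l 17272456)) (a (l 17306936) (b (l 17281648) (l 17273992))))) (a (b (a (l 17099704) (l 17100464)) (a (b (l 17118752) (l 17124192)) (b (l 17106712) (l 17102552)))) (b (a (l 17089472) (b (l 17062496) (l 17044256))) (a (b (l 17078536) (l 17060432)) (b (l 17017672) (l 16854544)))))), by decide +kernel⟩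

def k3_pm_012 : ∃ t, chk3 f_pm_012 t 10 7 1 = true :=
  ⟨(b (c (a (b (l 17343496) (l 17348688)) (b (l 17330784) (l 17326336))) (a (b (l 17122280) (c (l 17170992) (l 17053560))) (a (b (l 17100232) (l 17081608)) (b (l 17079224) (l 16968136))))) (a (c (b (c (l 17405024) (b (l 17283680) (l 17273160))) (c (l 17382912) (a (l 17257944) (l 17230616)))) (b (b (a (b (l 17111504) (l 17106224)) (l 17087240)) (c (l 17143800) (a (l 17028480) (l 16997944)))) (b (a (c (l 17135096) (a (l 17009768) (l 16993184))) (c (l 17103848) (b (l 16972648) (l 16953416)))) (c (a (l 17108656) (b (l 17078984) (l 17060432))) (a (b (a (l 16987648) (l 16967544)) (a (l 16970584) (l 16947880))) (b (c (l 16969424) (l 16895920)) (c (l 16948160) (a (l 16886192) (l 14))))))))) (c (b (b (l 17314032) (l 17254144)) (c (b (l 17346512) (l 17318096)) (b (l 17195400) (a (l 17179992) (l 17137208))))) (b (b (c (a (l 17125272) (l 17091784)) (b (l 16978968) (l 16964656))) (a (c (l 17098720) (l 16957520)) (c (l 17058864) (l 16908032)))) (b (c (a (l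 17064824) (l 16955872)) (a (b (l 16926504) (l 16820128)) (b (l 16872224) (l 14)))) (c (a (b (l 17035240) (c (l 17052856) (l 16973768))) (b (c (l 17025304) (l 16943120)) (c (l 17000936) (a (l 16931840) (l 14))))) (c (a (b (l 16918952) (a (l 16908416) (l 14))) (l 14)) (l 14)))))))), by decide +kernel⟩

def k4_pm_012 : ∃ t, chk3 f_pm_012 t 11 14 1 = true :=
  ⟨(c (a (b (l 17304496) (l 17286088)) (b (l 17211912) (c (l 17304800) (a (l 17156272) (l 17106536))))) (a (b (a (l 17049920) (l 17010352)) (b (c (l 17074376) (l 16928328)) (c (l 17053912) (l 16901720)))) (b (c (l 17012680) (l 16808856)) (b (l 16782360) (a (l 16847376) (l 16771176)))))), by decide +kernel⟩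

def k5_pm_012 : ∃ t, chk3 f_pm_012 t 11 15 1 = true :=
  ⟨(c (b (a (c (l 17326848) (b (l 17183496) (l 17107616))) (c (b (l 17269096) (l 17230904)) (b (a (l 17115200) (l 17055856)) (a (l 17071096) (l 16941896))))) (a (c (b (l 17280592) (a (l 17261528) (l 17214904))) (b (a (l 17132928) (l 17060200)) (a (a (l 17100336) (l 17010304)) (b (c (l 17088712) (l 16995832)) (c (l 17061000) (a (l 16983080) (l 14))))))) (b (c (a (l 17211880) (l 17133080)) (a (a (l 17035920) (l 16918384)) (b (l 16856560) (l 14)))) (c (a (c (l 17209352) (l 17067800)) (b (l 16984208) (c (l 17131424) (a (l 17042232) (l 14))))) (a (c (a (l 17026976) (a (l 17000600) (l 14))) (l 14)) (l 14)))))) (b (a (b (c (a (l 17050560) (l 17000016)) (b (l 16773520) (l 16750544))) (a (c (l 17011024) (l 16723352)) (c (l 16932640) (l 16737168)))) (b (c (b (l 16768288) (l 16762544)) (a (l 16758248) (l 16741488))) (c (a (l 16737952) (l 16739208)) (a (l 16700136) (b (l 16719648) (l 16706240)))))) (a (b (b (c (a (l 16976776) (l 16872424)) (a (l 16703584)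 (l 16712400))) (c (a (c (l 16994552) (l 14)) (l 14)) (l 14))) (c (a (c (b (l 16968656) (a (l 16956648) (l 14))) (l 14)) (l 14)) (l 14))) (b (b (c (a (l 16714488) (l 16710384)) (a (l 16678184) (a (l 16694920) (l 16692232)))) (c (l 14) (a (l 14) (a (l 14) (c (l 14) (l 16675616)))))) (a (l 14) (a (l 14) (a (l 14) (c (l 14) (c (l 14) (b (l 16665320) (b (l 16658432) (c (l 14) (l 16652152))))))))))))), by decide +kernel⟩

def k6_pm_012 : ∃ t, chk3 f_pm_012 t 6 2 1 = true :=
  ⟨(b (a (c (a (b (l 17051752) (l 17118792)) (b (l 17064448) (l 17125624))) (a (b (l 16952976) (l 17003656)) (b (l 16941336) (l 16997712)))) (c (b (a (l 17052320) (l 17001712)) (a (l 17105144) (l 17037248))) (b (a (l 16942240) (l 16942080)) (a (l 16999744) (b (l 16985560) (l 17005224)))))) (a (b (c (a (l 17187424) (b (l 17172240) (l 17190744))) (a (l 17053200) (b (l 17040680) (l 17031160)))) (c (a (l 17231248) (l 17197448)) (a (l 17035848) (l 16968376)))) (b (c (a (l 17136600) (l 17028152)) (a (b (l 17024992) (l 16989480)) (l 16921856)))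 (c (a (l 17035256) (b (l 16988944) (l 16948336))) (a (b (l 16947272) (l 16905056)) (b (l 16900728) (l 16859328))))))), by decide +kernel⟩

def k7_pm_012 : ∃ t, chk3 f_pm_012 t 7 2 1 = true :=
  ⟨(b (a (a (c (b (l 16978216) (l 17080976)) (b (l 16939592) (b (l 16978232) (l 16972720)))) (c (b (l 16976816) (b (l 17000592) (l 16965592))) (b (l 16933176) (b (a (l 16964104) (l 16943256)) (l 16916504))))) (b (a (c (b (l 16960032) (l 16974432)) (b (l 16912960) (a (l 16935480) (l 16918280)))) (c (a (b (l 16953216) (l 16942792)) (b (l 16939584) (l 16907312))) (b (a (l 16902264) (c (l 16900768) (l 16872480))) (a (l 16891008) (l 16855704))))) (a (c (a (l 16942096) (l 16910288)) (a (l 16892256) (b (l 16880888) (l 16839120)))) (c (a (l 16856200) (b (l 16862952) (l 16822264))) (a (b (l 16847512) (l 16806504)) (b (l 16813048) (l 16773056))))))) (a (b (c (a (l 16982896) (b (l 16925944) (l 16887704))) (a (b (l 16932144) (l 16891184)) (b (l 16875696) (l 16835824)))) (c (a (b (l 16902352) (l 16863488)) (b (l 16849464)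 (a (l 16825232) (l 16799048)))) (a (b (l 16850104) (l 16768360)) (b (a (l 16810032) (l 16782688)) (a (l 16771888) (l 16745896)))))) (b (a (c (b (l 16866312) (a (l 16844472) (l 16814648))) (a (b (l 16830880) (l 16792400)) (b (l 16800064) (l 16762784)))) (c (a (b (l 16818920) (l 16784024)) (b (l 16786216) (l 16752744))) (a (b (l 16768568) (l 16732704)) (b (l 16736488) (l 16702272))))) (a (c (b (a (l 16807616) (l 16778984)) (a (l 16772304) (l 16745056))) (b (a (l 16754872) (l 16726712)) (a (l 16719608) (l 16693160)))) (c (a (b (l 16749760) (c (l 16730368) (l 16704592))) (b (c (l 16732848) (l 16707400)) (c (l 16702368) (l 16677024)))) (a (b (l 16698296) (l 16645688)) (b (a (l 16676864) (l 16662576)) (a (l 16646792) (l 16633664))))))))), by decide +kernel⟩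

def k8_pm_012 : ∃ t, chk3 f_pm_012 t 12 6 1 = true :=
  ⟨(b (c (a (l 17244616) (b (l 17189400) (l 17171280))) (a (b (l 16992736) (l 16955824)) (b (l 16904304) (l 16863576)))) (c (a (b (l 17231632) (l 17081736)) (b (l 16993472) (c (l 17203360) (l 16983544)))) (a (b (l 16888296) (a (l 16888728) (l 16815048))) (b (l 16804520) (a (l 16799176) (l 16782392)))))), by decide +kernel⟩

def k9_pm_012 : ∃ t, chk3 f_pm_012 t 12 14 1 = true :=
  ⟨(b (c (a (c (l 17264592) (l 17071912)) (c (l 17063784) (l 16804560))) (a (c (l 16814016) (b (l 16783192) (l 16768528))) (c (a (l 16784008) (l 16768376)) (a (l 16753960) (l 16738592))))) (a (c (c (b (l 17229720) (l 17200048)) (b (l 17026280) (a (l 17027856) (l 16947072)))) (b (a (l 16777136) (l 16763920)) (c (b (l 16787232) (l 16771320)) (a (l 16748880) (b (l 16740032) (l 16734008)))))) (c (b (c (l 17092640) (l 16799168)) (c (a (l 17092824) (b (l 17011120) (l 16983512))) (a (l 16783800) (l 16770144)))) (b (c (l 16758232) (a (l 16734848) (l 16720704))) (b (a (l 16721168)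 (c (l 16743192) (l 16713216))) (c (a (l 16751280) (l 16737056)) (a (l 16721200) (l 16707968)))))))), by decide +kernel⟩

def k10_pm_012 : ∃ t, chk3 f_pm_012 t 24 30 1 = true :=
  ⟨(c (c (b (a (l 17191400) (l 17123376)) (a (l 17142384) (c (l 17125424) (l 17006832)))) (b (a (l 16982816) (l 16851336)) (a (l 16756688) (c (l 16740368) (l 16745456))))) (b (a (c (l 16770192) (l 16729592)) (c (l 16746344) (b (l 16723656) (l 16712656)))) (a (a (c (l 16732216) (l 16706984)) (c (l 16727864) (l 16682144))) (c (a (l 16723600) (l 16698488)) (b (l 16702320) (a (l 16694304) (l 16691176))))))), by decide +kernel⟩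

def k11_pm_012 : ∃ t, chk3 f_pm_012 t 24 31 1 = true :=
  ⟨(c (b (b (c (a (l 17099712) (c (l 17078080) (l 16956264))) (a (l 16728520) (c (l 16749600) (l 16720272)))) (c (a (c (l 17124776) (l 14)) (l 14)) (l 14))) (c (a (c (b (l 17091616) (a (l 17075920) (l 14))) (l 14)) (l 14)) (l 14))) (b (a (c (b (c (l 16715696) (l 16704776)) (l 14)) (b (a (l 16689656) (l 16687216)) (a (c (l 14) (l 16674104)) (c (l 16682528) (l 16672768))))) (c (b (c (l 16709824) (l 16694160)) (c (l 14) (a (l 14) (l 16689064)))) (b (a (l 16684936) (l 16672336)) (a (c (l 16681096) (l 16671608)) (c (l 16679856) (l 16670640)))))) (a (c (l 14) (a (c (l 14) (b (b (l 16667096) (l 16662704)) (b (c (l 16660592) (l 16656480)) (c (a (l 14) (l 16656712)) (a (l 16652496) (l 16652896)))))) (a (c (l 14) (b (l 16664624) (b (l 16658808) (c (l 16657104) (l 16653352))))) (b (c (l 16673128) (l 16664488)) (c (b (l 16666896) (c (l 14) (l 16661208))) (b (l 16659040) (c (l 16657544) (l 16653864)))))))) (b (c (a (l 14) (c (l 14) (b (l 16682688) (l 16678728))))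 (a (c (b (l 16674768) (l 16670840)) (b (l 16666072) (l 16662664))) (c (b (l 16674288) (l 16670856)) (b (l 16665856) (l 16662952))))) (c (a (l 14) (a (l 14) (c (l 14) (b (l 16675104) (c (l 14) (b (l 16670816) (l 16669240))))))) (b (a (c (c (l 16669024) (l 16665216)) (c (l 16661392) (l 16657552))) (c (c (l 16669480) (l 16665808)) (c (l 16662112) (l 16658408)))) (a (a (c (c (l 14) (l 16661640)) (l 16656240)) (c (c (l 16665648) (l 16662136)) (l 16656832))) (a (c (c (l 16666128) (l 16662680)) (l 16657480)) (c (c (l 16666664) (l 16663288)) (l 16658184)))))))))), by decide +kernel⟩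

def k12_pm_012 : ∃ t, chk3 f_pm_012 t 25 30 1 = true :=
  ⟨(c (b (c (a (l 17038560) (l 16764808)) (a (l 16762216) (l 16728352))) (c (a (b (l 16990008) (l 16744936)) (c (l 16761640) (l 16741920))) (a (b (l 16742680) (l 16709792)) (b (l 16733200) (c (l 16728736) (l 16718056)))))) (b (a (c (b (l 16739768) (l 16728704)) (b (l 16711608) (l 16702632))) (a (c (l 16725496) (l 16699208)) (c (l 16719784) (l 16694080)))) (a (c (b (l 16718312) (c (l 16714128) (l 16703120))) (b (a (l 16696296) (l 16692464)) (a (l 16688216) (l 16685424)))) (c (b (c (l 16715616) (l 16704056)) (a (l 16703864) (l 16700832))) (a (b (l 16688800) (l 16682800)) (b (l 16685264) (l 16680336))))))), by decide +kernel⟩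

def k13_pm_012 : ∃ t, chk3 f_pm_012 t 25 31 2 = true :=
  ⟨(b (b (c (a (c (l 16983736) (l 16723888)) (c (l 16741984) (l 16728656))) (a (c (l 16724576) (l 16714576)) (c (a (l 16720520) (l 16717920)) (a (l 16710864) (l 16708520))))) (c (l 14) (a (l 14) (c (l 14) (a (l 14) (l 16701336)))))) (a (l 14) (a (l 14) (a (l 14) (a (l 14) (c (l 14) (c (l 14) (b (l 16694984) (b (l 16691024) (c (l 14) (l 16687264))))))))))), by decide +kernel⟩

def k14_pm_012 : ∃ t, chk3 f_pm_012 t 25 62 3 = true :=
  ⟨(a (c (b (a (l 16690424) (c (l 16703520) (l 16693728))) (a (c (l 14) (l 16687752)) (c (l 16695328) (l 16686632)))) (a (b (c (l 16685880) (l 16675896)) (c (l 16678808) (l 16669864))) (b (c (l 16683984) (l 16674280)) (c (l 16677952) (l 16669280))))) (c (a (b (c (l 16701280) (l 16691744)) (c (l 16694144) (l 16685704))) (b (c (l 16699184) (l 16689920)) (c (l 16693120) (l 16684944)))) (a (b (c (l 16682272) (l 16672848)) (c (l 16677280) (l 16668888))) (b (c (l 16680728) (l 16671584)) (c (l 16676800) (l 16668680)))))),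 by decide +kernel⟩

def k15_pm_012 : ∃ t, chk3 f_pm_012 t 50 63 3 = true :=
  ⟨(b (c (a (c (l 14) (b (l 16682144) (l 16678696))) (c (b (l 16689680) (c (l 14) (l 16684360))) (b (l 16681808) (l 16681488)))) (a (c (b (l 16674000) (l 16671088)) (b (l 16665840) (l 16663448))) (c (b (l 16673920) (l 16671520)) (b (l 16666032) (l 16664144))))) (c (b (c (a (l 14) (c (l 14) (a (l 14) (l 16681432)))) (a (a (l 16675344) (l 16675640)) (a (l 16675992) (l 16676392)))) (a (c (l 14) (c (a (l 14) (b (l 16675088) (l 16673632))) (a (l 16670560) (l 16671144)))) (c (c (l 14) (a (l 14) (b (l 16679312) (l 16677976)))) (c (a (l 16674936) (l 16675568)) (a (l 16671776) (l 16672472)))))) (a (c (b (c (l 16670152) (l 16666608)) (c (a (l 16667256) (l 16667904)) (a (l 16663944) (l 16664656)))) (b (l 16661264) (a (l 16658944) (l 16659752)))) (a (c (b (l 16669112) (l 16667016)) (b (l 16662192) (l 16660616))) (c (b (l 16669640) (l 16667800)) (l 16662184)))))), by decide +kernel⟩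

def k16_pm_012 : ∃ t, chk3 f_pm_012 t 51 63 3 = true :=
  ⟨(b (c (a (c (b (l 16689280) (c (l 16688080) (l 16684552))) (a (l 16680448) (l 16680552))) (c (b (l 16689064) (c (l 16688344) (l 16684936))) (b (l 16681704) (l 16685064)))) (a (c (a (l 16673024) (l 16673264)) (a (l 16665584) (l 16665960))) (c (a (l 16673552) (l 16673888)) (a (l 16666376) (l 16666848))))) (c (b (a (a (c (a (l 16683352) (l 16683536)) (l 16676848)) (c (l 16683808) (l 16677352))) (a (c (l 16684240) (l 16677904)) (c (l 16684728) (l 16678512)))) (a (c (a (c (l 14) (b (l 16679872) (l 16678664))) (c (b (l 16683488) (l 16682280)) (l 16679944))) (a (c (l 16676248) (l 16673216)) (c (l 16676984) (l 16674016)))) (c (c (a (b (l 16684088) (l 16683008)) (b (l 16684744) (l 16683792))) (a (l 16680664) (l 16681448))) (a (c (l 16677768) (l 16674864)) (l 16679808))))) (a (a (c (b (l 16670224) (l 16668640)) (l 16663024)) (c (b (l 16670856) (l 16669536)) (l 16663920))) (c (b (a (l 16671536) (l 16672272)) (a (l 16670480) (l 16671472))) (b (l 16665512)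 (l 16665088)))))), by decide +kernel⟩

def k17_pm_012 : ∃ t, chk3 f_pm_012 t 13 6 1 = true :=
  ⟨(b (c (a (b (l 17082520) (l 16957296)) (b (l 16892488) (c (l 16970360) (l 16823424)))) (a (b (l 16863840) (l 16824456)) (b (l 16819584) (a (l 16792824) (l 16771192))))) (c (a (b (l 16857200) (c (l 16918280) (l 16799328))) (b (a (l 16814032) (l 16793720)) (c (b (l 16806384) (l 16784440)) (a (l 16771248) (l 16752296))))) (a (b (a (l 16797560) (l 16778192)) (a (c (l 16779344) (l 16750272)) (c (l 16761216) (l 16732472)))) (b (a (l 16758352) (c (l 16752144) (l 16724224))) (a (c (l 16742768) (l 16714456)) (c (l 16724112) (l 16696368))))))), by decide +kernel⟩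

def k18_pm_012 : ∃ t, chk3 f_pm_012 t 13 14 1 = true :=
  ⟨(b (c (a (c (a (l 17011752) (l 16888288)) (a (l 16781728) (l 16764832))) (c (a (l 16777440) (l 16738912)) (a (l 16747672) (b (l 16735008) (l 16725648))))) (a (a (c (l 16752080) (l 16701776)) (c (l 16735496) (b (l 16712288) (l 16701056)))) (a (c (b (l 16723888) (l 16713520)) (b (l 16695720) (l 16685536))) (b (c (l 16706656) (l 16679208)) (c (l 16697288) (l 16670160)))))) (a (c (b (c (l 16786160) (a (l 16765688) (l 16749936))) (c (a (l 16792128) (b (l 16774200) (l 16765392))) (a (b (l 16758624) (l 16751232)) (b (l 16743464) (l 16736472))))) (b (c (a (l 16735560) (l 16720312)) (a (l 16706240) (l 16691736))) (a (c (b (l 16728408) (l 16722352)) (b (l 16699240) (l 16694512))) (c (b (l 16714032) (l 16708768)) (b (l 16685864) (l 16682248)))))) (c (b (a (c (l 16764416) (l 16734072)) (c (b (l 16749544) (l 16746584)) (b (l 16719736) (a (l 16720376) (l 16712440))))) (c (a (b (l 16758392) (l 16750352)) (b (l 16742744) (l 16736168))) (a (b (l 16728464)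 (l 16722536)) (b (l 16713808) (l 16709536))))) (b (a (c (l 16705056) (l 16677352)) (b (c (l 16691440) (l 16664624)) (c (a (l 16691944) (l 16684432)) (l 16669616)))) (a (c (b (l 16700032) (l 16696080)) (b (l 16673056) (l 16670952))) (c (b (l 16686552) (l 16684400)) (b (l 16660944) (l 16660744)))))))), by decide +kernel⟩

def k19_pm_012 : ∃ t, chk3 f_pm_012 t 26 30 2 = true :=
  ⟨(b (c (a (l 16757608) (b (l 16755664) (l 16746528))) (a (b (l 16741592) (l 16732592)) (b (l 16729048) (l 16711760)))) (c (a (b (l 16747216) (c (l 16750480) (l 16732016))) (b (c (l 16743664) (l 16732496)) (c (l 16735256) (l 16725296)))) (a (b (c (l 16729936) (l 16718624)) (c (l 16721712) (l 16711544))) (b (c (l 16721520) (l 16710736)) (a (l 16701768) (c (l 16714280) (l 16704752))))))), by decide +kernel⟩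

def k20_pm_012 : ∃ t, chk3 f_pm_012 t 26 62 2 = true :=
  ⟨(a (c (b (c (l 16732552) (a (l 16724760) (l 16722336))) (l 14)) (b (c (a (l 16715528) (l 16713336)) (a (l 16706368) (l 16704432))) (a (c (l 14) (b (l 16701688) (l 16698840))) (c (b (l 16708616) (l 16705728)) (b (l 16700576) (l 16698264)))))) (c (b (c (a (l 16728976) (l 16726696)) (a (l 16720112) (l 16718064))) (c (l 14) (a (l 14) (b (l 16714088) (l 16711688))))) (b (a (c (l 16711352) (l 16702704)) (c (l 16709560) (l 16701160))) (a (c (b (l 16707448) (l 16705104)) (b (l 16699656) (l 16697880))) (c (b (l 16706464) (l 16704656)) (b (l 16698920) (l 16697680))))))), by decide +kernel⟩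

def k21_pm_012 : ∃ t, chk3 f_pm_012 t 52 63 2 = true :=
  ⟨(c (l 14) (b (a (c (l 14) (b (l 16696184) (c (l 16695376) (l 16692096)))) (c (b (l 16703040) (c (l 14) (l 16698968))) (b (l 16696144) (c (l 16695808) (l 16692648))))) (a (c (l 14) (b (c (a (l 14) (l 16693280)) (a (l 16689808) (l 16690312))) (c (a (l 14) (b (l 16691720) (l 16690752))) (a (b (l 16688272) (l 16687312)) (b (l 16688960) (l 16688136)))))) (b (c (c (l 14) (a (l 14) (l 16697136))) (c (a (l 16693760) (l 16694296)) (a (l 16690856) (l 16691448)))) (c (a (l 14) (a (l 14) (c (l 14) (l 16695552)))) (c (a (b (l 16692400) (l 16691560)) (b (l 16693128) (l 16692424))) (a (l 16689360) (l 16690216)))))))), by decide +kernel⟩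

def k22_pm_012 : ∃ t, chk3 f_pm_012 t 53 63 2 = true :=
  ⟨(c (a (l 14) (a (l 14) (c (l 14) (c (l 14) (b (l 16707104) (b (l 16704720) (b (l 16703704) (c (l 14) (l 16702536))))))))) (b (a (c (b (c (l 16704616) (l 16701280)) (c (l 16702512) (l 16699464))) (b (l 16696296) (c (l 16696424) (l 16693392)))) (c (a (b (l 16703080) (l 16701528)) (b (l 16703176) (l 16701896))) (b (l 16701872) (a (l 16695624) (l 16696112))))) (b (a (c (c (a (l 14) (l 16700952)) (a (l 16697656) (l 16698232))) (c (a (l 16694872) (l 16695504)) (a (l 16692088) (l 16692776)))) (c (c (a (l 16701512) (l 16702120)) (a (l 16698848) (l 16699512))) (a (l 16700088) (l 16695600)))) (a (c (c (a (l 14) (b (l 16699752) (c (l 14) (l 16698440)))) (a (b (l 16696480) (l 16695768)) (b (l 16697248) (l 16696672)))) (a (c (b (l 16693912) (l 16693344)) (l 16691120)) (c (l 16694520) (l 16692072)))) (c (a (a (c (l 16700032) (l 16697640)) (c (l 16700456) (l 16698096))) (c (b (l 16701320) (l 16700856)) (b (l 16698928) (l 16698616)))) (a (c (l 16695464)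 (l 16693072)) (c (l 16696448) (l 16694120)))))))), by decide +kernel⟩

def k23_pm_012 : ∃ t, chk3 f_pm_012 t 26 30 3 = true :=
  ⟨(b (a (a (c (l 16714232) (l 16689144)) (c (l 16708880) (l 16684408))) (a (c (l 16703736) (l 16679904)) (c (a (l 16700032) (l 16697632)) (l 16675640)))) (a (c (b (a (l 16703928) (l 16700208)) (a (l 16697992) (l 16695360))) (a (b (l 16681936) (l 16678072)) (b (l 16678816) (l 16676024)))) (c (a (b (l 16696712) (l 16682464)) (b (l 16693424) (l 16685504))) (a (b (l 16675928) (l 16674200)) (b (l 16673256) (l 16672592)))))), by decide +kernel⟩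

def k24_pm_012 : ∃ t, chk3 f_pm_012 t 26 62 3 = true :=
  ⟨(a (c (a (b (c (l 16697296) (l 16688304)) (c (b (l 16693456) (l 16691160)) (l 16684400))) (b (c (l 16695624) (l 16686896)) (c (b (l 16692592) (l 16690832)) (l 16686688)))) (a (b (c (l 16679384) (l 16670536)) (c (l 16676520) (l 16668680))) (b (c (l 16678256) (l 16669696)) (c (l 16676456) (l 16668888))))) (c (a (b (c (l 16694152) (l 16685696)) (c (b (l 16691928) (l 16690704)) (b (l 16684272) (l 16683576)))) (b (c (l 16692880) (l 16684704)) (c (b (l 16691456) (l 16690760)) (b (l 16684064) (l 16683896))))) (a (b (c (l 16677344) (l 16669080)) (c (l 16676592) (l 16669312))) (b (c (l 16676632) (l 16668664)) (c (l 16676920) (l 16669920)))))), by decide +kernel⟩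

def k25_pm_012 : ∃ t, chk3 f_pm_012 t 26 63 3 = true :=
  ⟨(a (b (c (a (c (b (l 16689064) (c (l 16688816) (l 16685536))) (b (l 16681960) (l 16685848))) (c (b (l 16689272) (a (l 16687768) (l 16688192))) (b (l 16682424) (l 16686840)))) (a (c (a (l 16674280) (l 16674728)) (a (l 16667376) (l 16667952))) (c (a (l 16675224) (l 16675768)) (a (l 16668584) (l 16669264))))) (c (b (a (a (c (l 16685264) (l 16679168)) (c (l 16685848) (l 16679880))) (c (a (l 16686488) (l 16687168)) (a (l 16680640) (l 16681448)))) (a (c (a (c (l 16685040) (l 16682280)) (c (l 16685856) (l 16683160))) (a (l 16678112) (l 16679080))) (c (a (c (l 16686728) (l 16684080)) (c (l 16687640) (l 16685056))) (a (l 16680096) (l 16681168))))) (a (c (b (l 16678656) (a (l 16672520) (l 16673608))) (b (l 16667328) (l 16667424))) (a (c (l 16674760) (l 16669120)) (c (l 16675824) (l 16670304)))))) (b (c (b (a (c (l 16689672) (l 16683072)) (c (l 16690256) (l 16683920))) (a (c (a (l 16688656) (l 16689176)) (l 16682768)) (c (a (l 16689736) (l 16690344))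 (l 16684136)))) (a (c (a (l 16676360) (l 16677000)) (a (l 16669984) (l 16670760))) (c (a (l 16677680) (l 16678416)) (l 16679808)))) (c (b (a (c (a (l 16687896) (l 16688672)) (a (l 16682296) (l 16683200))) (c (a (l 16689504) (l 16690376)) (a (l 16684144) (l 16685144)))) (a (c (a (c (l 16688608) (l 16686080)) (c (l 16689616) (l 16687152))) (a (l 16682280) (l 16683440))) (c (a (l 16689472) (l 16690608)) (a (l 16684640) (l 16685896))))) (a (a (c (l 16676928) (l 16671536)) (c (l 16678080) (l 16672816))) (c (b (l 16679256) (l 16685616)) (b (l 16673944) (l 16675544))))))), by decide +kernel⟩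

def k26_pm_012 : ∃ t, chk3 f_pm_012 t 27 30 1 = true :=
  ⟨(c (a (b (c (b (l 16742816) (c (l 16741872) (l 16730008))) (b (l 16717296) (a (l 16715144) (l 16710592)))) (c (b (c (l 16734992) (l 16724320)) (c (a (l 16730600) (l 16727576)) (a (l 16721008) (l 16718232)))) (a (b (l 16710696) (c (l 16711576) (l 16702320))) (b (l 16707240) (c (l 16709072) (l 16700088)))))) (b (c (a (c (l 16737304) (l 16725240)) (c (l 16731952) (l 16720168))) (a (b (l 16709160) (l 16706248)) (b (l 16703984) (l 16702176)))) (c (a (c (b (l 16729240) (l 16724736)) (b (l 16718960) (l 16715656))) (b (c (l 16725560) (l 16715552)) (c (l 16722168) (l 16713352)))) (a (b (l 16703984) (c (l 16706760) (l 16698056))) (b (l 16698384) (c (l 16704736) (l 16696312))))))) (a (b (c (b (l 16692968) (a (l 16692648) (l 16688704))) (a (l 16671608) (l 16678296))) (c (a (b (l 16690352) (l 16688576)) (b (l 16687488) (c (l 16691280) (l 16682640)))) (a (b (l 16670816) (l 16671192)) (b (l 16668592) (l 16670008))))) (b (c (a (b (l 16685792) (l 16684992))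 (b (l 16681280) (l 16681560))) (a (l 16674752) (l 16679352))) (c (a (b (l 16684840) (c (l 16689544) (l 16681208))) (b (l 16682472) (c (l 16688088) (l 16680064)))) (a (b (l 16666608) (l 16669048)) (b (l 16664904) (l 16689352))))))), by decide +kernel⟩

def k27_pm_012 : ∃ t, chk3 f_pm_012 t 54 62 2 = true :=
  ⟨(c (b (c (a (l 16724584) (l 16722656)) (a (l 16716200) (l 16714520))) (c (a (l 14) (b (l 16719408) (l 16717488))) (a (b (l 16713040) (l 16711184)) (b (l 16712176) (l 16710864))))) (a (b (c (l 16707944) (l 16699808)) (c (b (l 16705664) (l 16704392)) (b (l 16698368) (l 16697664)))) (b (c (l 16706520) (l 16698656)) (c (b (l 16705048) (l 16704320)) (b (l 16698016) (l 16697848)))))), by decide +kernel⟩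

def k28_pm_012 : ∃ t, chk3 f_pm_012 t 54 126 2 = true :=
  ⟨(c (a (a (c (l 14) (b (l 16709592) (l 16707992))) (c (l 14) (b (l 16709664) (l 16708336)))) (a (c (l 14) (b (l 16709784) (c (l 16710088) (l 16707360)))) (c (b (l 16715912) (c (l 14) (l 16713176))) (b (l 16709952) (c (l 16710496) (l 16707832)))))) (a (a (c (b (l 16703320) (l 16702312)) (b (l 16697096) (l 16696648))) (c (b (l 16703512) (l 16702768)) (b (l 16697408) (l 16697224)))) (c (b (a (l 16703752) (l 16704040)) (a (l 16703280) (l 16703832))) (a (b (l 16697776) (l 16697856)) (b (l 16698184) (l 16698536)))))), by decide +kernel⟩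

def k29_pm_012 : ∃ t, chk3 f_pm_012 t 54 127 2 = true :=
  ⟨(c (b (c (a (l 14) (c (l 14) (a (l 14) (l 16712136)))) (a (c (a (l 14) (l 16708448)) (a (l 16705320) (l 16705960))) (c (a (l 16709080) (l 16709760)) (a (l 16706648) (l 16707384))))) (c (c (l 14) (a (l 14) (a (l 14) (b (l 16711472) (c (l 14) (l 16710600)))))) (a (c (a (l 14) (b (l 16707608) (c (l 14) (l 16706592)))) (a (b (l 16704504) (c (l 16704568) (l 16703480))) (a (l 16704976) (l 16705440)))) (a (c (b (l 16708448) (c (l 16708600) (l 16707576))) (b (l 16706232) (l 16706032))) (c (b (l 16709328) (c (l 16709608) (l 16708600))) (b (l 16707168) (l 16707096))))))) (b (a (c (a (c (l 16702768) (l 16700224)) (c (l 16703472) (l 16700976))) (a (l 16696400) (l 16697240))) (c (a (c (l 16704216) (l 16701784)) (c (l 16705008) (l 16702632))) (a (l 16698136) (l 16699072)))) (a (c (a (c (b (l 16702176) (l 16701848)) (b (l 16699840) (l 16699656))) (c (b (l 16703072) (l 16702880)) (l 16700776))) (a (c (l 16697488) (l 16695208)) (c (l 16698568) (l 16696352))))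 (c (a (c (b (l 16704024) (l 16703960)) (l 16701848)) (c (b (l 16705016) (l 16705088)) (l 16702960))) (a (c (l 16699696) (l 16697536)) (c (l 16700864) (l 16698768))))))), by decide +kernel⟩

def k30_pm_012 : ∃ t, chk3 f_pm_012 t 55 62 2 = true :=
  ⟨(c (a (b (c (l 16715672) (b (l 16713592) (l 16712464))) (c (b (l 16718488) (c (l 16718728) (l 16715512))) (a (l 16711328) (l 16709872)))) (b (c (b (l 16720048) (l 16718864)) (a (l 16712160) (l 16711600))) (b (c (a (l 16718064) (l 16717784)) (l 16711128)) (c (a (l 16717112) (l 16717104)) (a (l 16710912) (l 16711024)))))) (a (b (c (l 16705296) (l 16697696)) (c (b (l 16704632) (l 16707064)) (a (l 16698104) (l 16698224)))) (b (c (a (l 16704616) (l 16704184)) (a (l 16697216) (l 16696928))) (c (a (l 16704688) (l 16710040)) (a (l 16698384) (l 16698624)))))), by decide +kernel⟩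

def k31_pm_012 : ∃ t, chk3 f_pm_012 t 55 126 2 = true :=
  ⟨(c (a (c (b (c (l 16717392) (l 16714488)) (c (a (l 14) (l 16716592)) (a (l 16713576) (l 16714024)))) (b (a (l 16710168) (l 16710432)) (a (c (l 16710952) (l 16708344)) (c (l 16711456) (l 16708904))))) (c (a (b (l 16716344) (c (l 16717024) (l 16714512))) (b (l 16716616) (c (l 16717536) (l 16715080)))) (a (b (l 16710736) (c (l 16712008) (l 16709512))) (b (l 16711128) (c (l 16712632) (l 16710200)))))) (a (c (b (a (l 16704376) (l 16704760)) (a (l 16704440) (l 16705088))) (a (b (l 16698648) (l 16699256)) (b (l 16699152) (l 16700024)))) (c (a (b (l 16705192) (l 16705784)) (b (l 16705704) (l 16706560))) (a (b (l 16699712) (l 16700848)) (b (l 16700344) (l 16701736)))))), by decide +kernel⟩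

def k32_pm_012 : ∃ t, chk3 f_pm_012 t 55 127 2 = true :=
  ⟨(c (b (a (c (c (a (l 14) (b (l 16715960) (l 16715600))) (a (l 16712800) (l 16713520))) (a (c (l 16710480) (l 16708168)) (c (l 16711256) (l 16708992)))) (c (a (c (b (l 16716592) (l 16716376)) (l 16716896)) (c (b (l 16717312) (l 16717224)) (b (l 16715080) (l 16715152)))) (a (c (l 16712072) (l 16709864)) (c (l 16712968) (l 16710816))))) (a (c (a (c (l 14) (b (l 16712344) (c (l 16712592) (l 16711624)))) (a (c (l 14) (b (l 16713072) (l 16712936))) (c (b (l 16715560) (l 16715344)) (b (l 16713536) (l 16713472))))) (a (a (c (l 16709992) (l 16707952)) (c (l 16710504) (l 16708488))) (c (b (l 16711224) (l 16711272)) (b (l 16709184) (l 16709376))))) (c (a (c (b (l 16717512) (a (l 16715864) (l 16716400))) (b (l 16714224) (c (l 16714712) (l 16713792)))) (c (a (b (l 16716960) (l 16716944)) (b (l 16717456) (l 16717504))) (b (l 16715264) (c (l 16715872) (l 16714984))))) (a (c (b (l 16712240) (l 16712416)) (b (l 16710256) (l 16710576))) (c (b (l 16713336)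 (l 16713648)) (b (l 16711408) (l 16711864))))))) (b (a (c (a (c (l 16705848) (l 16703536)) (c (l 16706736) (l 16704480))) (a (l 16700064) (l 16701096))) (c (a (c (l 16707664) (l 16705464)) (c (l 16708672) (l 16706528))) (a (l 16702168) (l 16703320)))) (a (c (a (c (b (l 16706056) (l 16706256)) (l 16704120)) (c (l 16707304) (l 16705328))) (a (c (l 16702080) (l 16700040)) (c (l 16703344) (l 16701360)))) (c (a (c (l 16708504) (l 16706576)) (c (l 16709776) (l 16707904))) (a (l 16708936) (c (l 16706040) (l 16704168))))))), by decide +kernel⟩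

def k33_pm_012 : ∃ t, chk3 f_pm_012 t 54 31 3 = true :=
  ⟨(b (c (a (b (c (l 16691792) (l 16683904)) (c (b (l 16691168) (l 16691008)) (a (l 16684224) (l 16684408)))) (b (c (l 16690912) (l 16683304)) (c (a (l 16691296) (l 16691440)) (a (l 16684632) (l 16684912))))) (a (b (c (l 16676120) (l 16668456)) (c (l 16677448) (l 16670736))) (b (c (l 16675816) (l 16668456)) (c (l 16688664) (l 16671752))))) (b (c (a (c (a (l 16694888) (l 16696768)) (a (l 16685064) (l 16685768))) (c (a (l 16697392) (l 16698064)) (a (l 16686512) (l 16687312)))) (a (c (a (l 16679200) (l 16680032)) (l 16684248)) (c (a (l 16680912) (l 16681840)) (l 16686264)))) (c (b (a (c (a (l 16691296) (l 16692256)) (a (l 16686184) (l 16687272))) (c (a (l 16693272) (l 16694328)) (a (l 16688408) (l 16689584)))) (a (c (a (l 16691784) (l 16693016)) (a (l 16687192) (l 16688536))) (c (a (l 16694280) (l 16695600)) (a (l 16689928) (l 16691360))))) (a (c (b (l 16681576) (l 16683200)) (b (l 16676512) (l 16678616))) (c (b (l 16684080) (l 16686208)) (b (l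 16679272) (l 16681864))))))), by decide +kernel⟩

def k34_pm_012 : ∃ t, chk3 f_pm_012 t 55 31 3 = true :=
  ⟨(b (c (a (b (c (l 16690240) (l 16682912)) (c (a (l 16691632) (l 16691880)) (a (l 16685248) (l 16685632)))) (b (c (l 16700336) (l 16682816)) (c (a (l 16692176) (l 16692544)) (a (l 16686064) (l 16686568))))) (a (b (c (l 16675728) (l 16668672)) (c (l 16689592) (l 16672968))) (b (c (l 16675928) (l 16669184)) (c (l 16690808) (l 16674472))))) (b (c (a (c (a (l 16698776) (l 16699544)) (a (l 16688160) (l 16689048))) (c (a (l 16705600) (l 16701240)) (a (l 16689992) (l 16691008)))) (a (c (a (l 16682816) (l 16683840)) (l 16688472)) (c (a (l 16684912) (l 16686064)) (a (l 16679880) (l 16681160))))) (c (a (c (b (a (l 16695432) (l 16696584)) (a (l 16696960) (l 16698368))) (b (l 16696560) (a (l 16692840) (l 16694368)))) (c (b (a (l 16697784) (l 16699056)) (a (l 16699824) (l 16701344))) (b (a (l 16693408) (l 16694800)) (a (l 16695936) (l 16697576))))) (a (c (b (l 16686768) (l 16699872)) (b (l 16682216) (l 16685288)))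 (a (a (l 16698560) (l 16699384)) (a (l 16700224) (l 16701080))))))), by decide +kernel⟩

def k35_pm_012 : ∃ t, chk3 f_pm_012 t 14 6 1 = true :=
  ⟨(b (a (c (b (c (l 16839528) (l 16813384)) (c (l 16805944) (l 16779048))) (b (a (l 16784512) (l 16760616)) (a (l 16749144) (l 16726800)))) (c (b (a (l 16789904) (l 16764976)) (a (c (l 16771152) (l 16744304)) (c (l 16747648) (l 16720968)))) (b (a (l 16736432) (l 16712032)) (a (c (l 16717608) (l 16691024)) (c (l 16694736) (l 16668896)))))) (a (c (b (c (a (l 16786696) (l 16765320)) (a (l 16759024) (l 16737784))) (a (c (l 16761496) (l 16733024)) (c (l 16741552) (l 16713456)))) (b (a (c (l 16731512) (l 16704104)) (c (l 16710664) (l 16683920))) (a (c (l 16705288) (l 16678264)) (b (l 16678384) (l 16657408))))) (c (b (a (c (l 16743616) (l 16716344)) (c (l 16721640) (l 16694776))) (a (c (b (l 16726200) (l 16716552)) (b (l 16698680) (l 16688936))) (c (b (l 16705536) (l 16696840)) (b (l 16678608) (l 16669952))))) (b (a (c (l 16689752) (l 16663824)) (b (l 16661896)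 (l 16650552))) (a (b (l 16659464) (c (l 16662728) (l 16637896))) (b (l 16651272) (c (l 16644720) (l 16621136)))))))), by decide +kernel⟩

def k36_pm_012 : ∃ t, chk3 f_pm_012 t 30 6 1 = true :=
  ⟨(b (c (b (a (c (l 16752832) (l 16726528)) (c (l 16727064) (l 16701064))) (a (c (l 16723792) (l 16697448)) (c (l 16699752) (l 16673920)))) (b (a (l 16666552) (c (l 16675592) (l 16650624))) (a (c (l 16671824) (l 16646888)) (b (l 16642864) (l 16631064))))) (c (b (a (c (b (l 16704840) (l 16694104)) (b (l 16678528) (l 16667832))) (c (b (l 16682248) (l 16672656)) (b (l 16656608) (l 16647176)))) (a (c (b (l 16684896) (l 16677320)) (b (l 16658712) (l 16651296))) (c (b (l 16664960) (a (l 16663392) (l 16654960))) (b (l 16639664) (l 16639400))))) (b (a (b (l 16641096) (l 16641448)) (b (l 16631168) (c (l 16623312) (l 16601056)))) (a (b (c (l 16634160) (l 16611240)) (c (l 16627200) (l 16605000))) (b (c (l 16616256) (l 16594720)) (c (l 16611264) (l 16590528))))))), by decide +kernel⟩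

def k37_pm_012 : ∃ t, chk3 f_pm_012 t 31 6 1 = true :=
  ⟨(b (b (c (a (c (l 16701056) (l 16675512)) (c (a (l 16681528) (l 16669056)) (a (l 16656432) (l 16644280)))) (a (c (l 16650784) (l 16626848)) (a (l 16620704) (l 16619760)))) (a (c (c (b (l 16681400) (l 16670120)) (b (l 16656136) (l 16645064))) (b (l 16620376) (c (l 16621384) (l 16599064)))) (c (a (c (l 16658656) (l 16634040)) (c (l 16647808) (l 16623568))) (a (c (l 16610880) (l 16589176)) (b (l 16594248) (l 16586096)))))) (a (c (b (c (b (l 16660520) (l 16652704)) (b (l 16635672) (l 16628080))) (c (b (a (l 16651176) (l 16642248)) (a (l 16646576) (l 16638176))) (b (a (l 16626584) (l 16618144)) (a (l 16622296) (l 16614448))))) (b (a (c (l 16613376) (l 16591784)) (c (l 16604424) (l 16583512))) (b (a (l 16593568) (l 16586096)) (a (l 16620392) (c (l 16593176) (l 16574368)))))) (c (b (a (c (b (l 16645304) (l 16638472)) (l 16617832)) (c (b (l 16635248) (l 16628944)) (b (l 16611488) (l 16605536)))) (a (c (b (l 16633280) (l 16629760)) (b (l 16609712)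 (l 16606624))) (b (c (l 16624296) (l 16601304)) (c (a (l 16623424) (l 16619208)) (l 16619800))))) (b (a (c (l 16595696) (l 16575480)) (b (l 16579472) (c (l 16584320) (l 16565280)))) (a (b (c (l 16588464) (l 16569528)) (a (l 16620344) (l 16617016))) (b (c (l 16580744) (l 16583600)) (a (l 16613712) (l 16610440)))))))), by decide +kernel⟩

def k38_pm_012 : ∃ t, chk3 f_pm_012 t 28 14 1 = true :=
  ⟨(c (b (a (c (b (l 16745944) (l 16737720)) (b (l 16717032) (l 16708624))) (c (b (l 16727224) (l 16719864)) (b (l 16698888) (l 16691488)))) (b (a (c (b (l 16732616) (b (l 16730512) (l 16729368))) (b (l 16703456) (b (l 16701336) (l 16700336)))) (c (b (l 16715456) (c (l 16720520) (l 16706032))) (b (l 16687128) (l 16685288)))) (a (c (a (l 16728000) (l 16720696)) (a (l 16701208) (l 16694624))) (c (b (l 16711000) (l 16698872)) (b (l 16684952) (l 16685504)))))) (b (a (b (c (l 16689320) (l 16662784)) (c (l 16681048) (l 16654952))) (b (c (l 16672008) (l 16646552)) (c (l 16664872) (l 16639992)))) (b (b (a (c (l 16676040)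 (l 16650360)) (c (l 16660784) (l 16636416))) (a (b (l 16671544) (c (l 16673240) (l 16648040))) (c (l 16659456) (l 16635696)))) (a (c (a (l 16676120) (l 16670312)) (a (l 16652696) (l 16647736))) (c (b (l 16660864) (l 16663408)) (b (l 16638696) (l 16643048))))))), by decide +kernel⟩

def k39_pm_012 : ∃ t, chk3 f_pm_012 t 28 30 1 = true :=
  ⟨(c (a (b (c (a (b (l 16722240) (l 16719232)) (b (l 16716504) (l 16714536))) (a (b (l 16698832) (l 16698064)) (b (l 16693776) (l 16694032)))) (c (a (b (c (l 16721744) (l 16712024)) (c (l 16719416) (l 16710880))) (b (c (l 16717936) (l 16708528)) (c (l 16716656) (l 16708416)))) (a (b (c (l 16702568) (l 16693376)) (c (l 16702552) (l 16694432))) (b (l 16694920) (c (l 16700392) (l 16692584)))))) (b (c (b (c (l 16713968) (l 16702744)) (c (l 16712952) (l 16702872))) (b (a (l 16688928) (l 16684336)) (a (l 16690176) (l 16686576)))) (c (b (c (a (l 16714256) (l 16710840)) (a (l 16705168) (l 16702072))) (c (a (l 16713992) (l 16711888)) (a (l 16706056) (l 16704256)))) (b (a (l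 16692056) (l 16699968)) (a (c (l 16698352) (l 16690872)) (c (l 16696864) (l 16689712))))))) (a (b (c (a (b (l 16676832) (l 16678128)) (b (l 16672520) (l 16674808))) (a (l 16678784) (l 16675760))) (c (a (b (l 16680056) (c (l 16686520) (l 16678816))) (b (l 16677720) (l 16691776))) (a (b (l 16663192) (l 16688616)) (b (l 16661592) (l 16666976))))) (b (c (b (l 16687512) (a (l 16671688) (l 16668840))) (b (l 16647968) (l 16674464))) (c (b (a (l 16675568) (l 16673704)) (a (l 16680080) (l 16700392))) (b (a (l 16660184) (l 16659088)) (a (l 16666480) (l 16666528))))))), by decide +kernel⟩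

def k40_pm_012 : ∃ t, chk3 f_pm_012 t 28 62 2 = true :=
  ⟨(a (c (b (a (c (a (l 16718328) (l 16717392)) (a (l 16710896) (l 16710096))) (c (b (l 16716112) (l 16715976)) (l 16708968))) (a (c (a (b (l 16717344) (l 16716928)) (b (l 16716792) (l 16716640))) (a (b (l 16710800) (l 16710976)) (l 16713224))) (c (b (l 16716016) (l 16718880)) (b (l 16709816) (l 16710640))))) (a (b (c (a (l 16703624) (l 16702968)) (a (l 16696504) (l 16696000))) (c (a (l 16709992) (l 16704592)) (a (l 16698704) (l 16698696)))) (b (c (l 16702064) (l 16695320)) (c (b (l 16703736) (l 16705120)) (b (l 16697792) (l 16699696)))))) (c (b (c (a (b (l 16714232) (l 16714728)) (b (l 16713248) (l 16714512))) (a (b (l 16707160) (l 16708224)) (b (l 16706464) (l 16708288)))) (c (a (b (l 16715488) (c (l 16717880) (l 16715176))) (b (l 16715944) (c (l 16718832) (l 16716248)))) (a (b (l 16709560) (l 16711160)) (b (l 16710272) (l 16712424))))) (b (a (c (l 16711608) (l 16694688)) (c (l 16711536) (l 16694912))) (a (c (b (l 16703768) (l 16705904)) (b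 (l 16698104) (l 16700760))) (c (b (l 16704744) (l 16707416)) (b (l 16699352) (l 16702528))))))), by decide +kernel⟩

def k41_pm_012 : ∃ t, chk3 f_pm_012 t 56 63 2 = true :=
  ⟨(b (c (a (c (a (b (l 16716696) (c (l 16717856) (l 16715456))) (b (l 16716664) (c (l 16718040) (l 16715704)))) (a (b (l 16711336) (c (l 16713072) (l 16710696))) (b (l 16711424) (l 16712224)))) (c (b (c (l 16718040) (l 16715496)) (c (a (l 16718312) (l 16718992)) (a (l 16716040) (l 16716776)))) (b (c (l 16712976) (l 16710472)) (c (l 16716832) (l 16711984))))) (a (c (a (b (l 16706040) (l 16707144)) (b (l 16706256) (l 16707616))) (a (b (l 16700808) (l 16702456)) (l 16707352))) (c (b (l 16712000) (c (l 16709776) (l 16707576))) (b (l 16701864) (l 16704304))))) (c (a (c (b (a (c (a (l 16717776) (l 16717976)) (a (l 16715664) (l 16715896))) (c (l 16718312) (l 16716272))) (a (c (b (l 16719272) (a (l 16717960) (l 16718320))) (a (l 16716096) (l 16716448))) (c (b (l 16718696) (l 16719096)) (b (l 16716880) (l 16717424))))) (b (a (c (l 16713664)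 (l 16711576)) (c (l 16714240) (l 16712208))) (a (c (b (l 16714224) (l 16714664)) (b (l 16712352) (l 16712936))) (c (b (l 16715064) (l 16715760)) (l 16713688))))) (b (c (c (a (l 16719064) (l 16720168)) (a (l 16717088) (l 16718248))) (c (a (l 16715112) (l 16716320)) (a (l 16713144) (l 16714408)))) (c (c (b (a (l 16719856) (l 16721160)) (a (l 16720472) (l 16721888))) (b (l 16718784) (a (l 16718856) (l 16720320)))) (c (a (l 16716784) (l 16718256)) (a (l 16715096) (l 16716616)))))) (a (c (b (a (c (l 16709488) (l 16707408)) (l 16709176)) (a (c (l 16710840) (l 16709032)) (c (l 16711944) (l 16710192)))) (b (a (l 16704288) (l 16705144)) (a (l 16711560) (l 16707560)))) (c (a (b (l 16710192) (l 16715176)) (b (l 16711544) (c (l 16714968) (l 16713328)))) (b (l 16712264) (c (l 16710856) (l 16709176))))))), by decide +kernel⟩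

def k42_pm_012 : ∃ t, chk3 f_pm_012 t 57 63 2 = true :=
  ⟨(b (c (c (a (b (c (l 16719040) (l 16716616)) (c (a (l 16719912) (l 16720832)) (a (l 16717752) (l 16718728)))) (b (c (l 16720448) (l 16718152)) (c (a (l 16721760) (l 16722704)) (a (l 16719712) (l 16720712))))) (a (b (c (l 16714216) (l 16711840)) (c (l 16716128) (l 16714024))) (b (c (l 16715872) (l 16713608)) (c (l 16718216) (l 16716224))))) (a (c (b (l 16708304) (c (l 16711928) (l 16709848))) (b (l 16703664) (l 16706752))) (c (b (l 16710264) (c (l 16714248) (l 16712288))) (b (l 16705864) (l 16709368))))) (c (b (c (a (c (a (l 16721312) (l 16722456)) (a (l 16719440) (l 16720640))) (c (a (l 16723608) (l 16724768)) (a (l 16721848) (l 16723064)))) (a (c (a (l 16717576) (l 16718832)) (l 16719000)) (c (a (l 16720096) (l 16721368)) (a (l 16718344) (l 16719672))))) (c (b (a (c (a (l 16722472) (l 16723784)) (l 16721504)) (c (a (l 16725104) (l 16726432)) (l 16724248))) (a (c (a (l 16723312) (l 16724736)) (a (l 16721792) (l 16723272))) (c (a (l 16726160)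 (l 16727592)) (a (l 16724752) (l 16726240))))) (a (c (a (l 16719720) (l 16721200)) (a (l 16718136) (l 16719664))) (a (b (l 16721232) (l 16722640)) (b (l 16722696) (l 16724200)))))) (b (c (a (c (l 16714552) (l 16712728)) (c (l 16717304) (l 16715592))) (a (l 16710008) (l 16718288))) (b (c (a (l 16715808) (l 16718928)) (a (l 16712552) (l 16715896))) (c (a (c (l 16718064) (l 16716560)) (c (l 16721344) (l 16719952))) (a (l 16714312) (l 16717856))))))), by decide +kernel⟩

def k43_pm_012 : ∃ t, chk3 f_pm_012 t 28 31 3 = true :=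
  ⟨(b (a (c (a (b (c (l 16699776) (l 16682560)) (c (a (l 16692776) (l 16692904)) (a (l 16686944) (l 16687216)))) (b (c (l 16688744) (l 16682328)) (c (l 16703680) (l 16687736)))) (a (b (c (l 16675984) (l 16669568)) (c (l 16691832) (l 16675792))) (b (l 16673016) (c (l 16682384) (l 16677152))))) (c (b (a (c (l 16688424) (l 16682336)) (c (l 16688952) (l 16683168))) (a (c (l 16704664) (l 16689016)) (c (l 16695928) (l 16691040)))) (b (a (l 16673528) (l 16674832)) (a (l 16691968) (l 16694416))))) (a (b (c (a (c (a (l 16707208) (l 16697336)) (a (l 16691864) (l 16692608))) (c (b (l 16697040) (l 16699976)) (b (l 16692288) (l 16695696)))) (a (a (a (l 16684456) (l 16684912)) (l 16685632)) (c (l 16689576) (l 16685168)))) (b (c (a (c (a (l 16700144) (l 16701128)) (a (l 16696008) (l 16697128))) (c (l 16703184) (l 16699360))) (a (c (l 16702904) (l 16688384)) (l 16693656))) (c (a (c (a (l 16702680) (l 16704040)) (a (l 16699032) (l 16700512))) (c (l 16706664) (l 16703296))) (a (a (l 16693520) (l 16695192)) (l 16703472)))))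 (b (c (a (c (b (l 16699104) (l 16702664)) (l 16707112)) (c (b (l 16701560) (l 16705528)) (b (l 16697328) (l 16701736)))) (a (c (l 16692432) (l 16688288)) (c (l 16695592) (l 16691712)))) (b (a (c (c (l 16706392) (l 16702808)) (l 16697456)) (c (c (l 16709664) (l 16706312)) (l 16701320))) (c (a (c (c (l 16711080) (l 16709512)) (l 16707152)) (c (a (l 16713032) (l 16714880)) (l 16711040))) (a (c (l 16704000) (l 16700840)) (c (l 16708120) (l 16705192)))))))), by decide +kernel⟩

def k44_pm_012 : ∃ t, chk3 f_pm_012 t 29 14 1 = true :=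
  ⟨(b (c (a (c (b (l 16708440) (l 16702056)) (b (l 16680824) (l 16674544))) (c (b (l 16689752) (a (l 16688768) (l 16680104))) (b (l 16662992) (l 16657992)))) (a (b (c (l 16654912) (l 16630680)) (c (l 16649032) (l 16625512))) (b (c (l 16638184) (l 16615320)) (c (l 16633728) (l 16611696))))) (c (b (a (c (b (l 16698440) (a (l 16701552) (l 16693768))) (b (l 16671072) (a (l 16674568) (l 16667544)))) (c (b (a (l 16685352) (l 16677384)) (a (l 16685936) (l 16679296))) (b (l 16668256) (a (l 16660584) (l 16654808))))) (a (c (b (l 16696864) (a (l 16700088) (l 16694424))) (a (l 16676392) (l 16681480))) (c (a (b (l 16687328) (l 16689768)) (b (l 16682232) (l 16685712))) (a (l 16682128) (b (l 16659808) (l 16665336)))))) (b (a (c (b (l 16645944) (l 16667848)) (b (l 16623032) (l 16624800))) (c (b (l 16652440) (l 16635336)) (b (l 16610240) (l 16615184)))) (a (c (b (l 16650032) (l 16675520)) (a (l 16634648) (l 16631016))) (c (a (l 16646264) (l 16643272)) (a (l 16628168) (l 16626040))))))), by decide +kernel⟩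

def k45_pm_012 : ∃ t, chk3 f_pm_012 t 29 30 1 = true :=
  ⟨(c (b (a (c (b (a (l 16700576) (l 16696288)) (a (l 16704464) (c (l 16703648) (l 16694424)))) (b (a (l 16680032) (l 16676488)) (a (l 16683440) (l 16681272)))) (c (b (a (l 16692904) (l 16700232)) (a (c (l 16701088) (l 16692192)) (c (l 16698656) (l 16690104)))) (a (b (l 16673816) (l 16679560)) (b (l 16671392) (l 16677992))))) (a (c (b (a (c (l 16708256) (l 16699816)) (c (l 16706456) (l 16698328))) (a (c (l 16710720) (l 16703392)) (c (l 16715104) (l 16702824)))) (b (a (l 16698208) (l 16697200)) (a (c (l 16696296) (l 16689456)) (c (l 16696032) (l 16689496))))) (c (b (a (c (l 16704800) (l 16696984)) (c (l 16703256) (l 16695768))) (a (c (b (l 16707936) (l 16710232)) (l 16702352)) (c (b (l 16707048) (l 16709776)) (l 16712480)))) (b (a (l 16696344) (l 16695632)) (a (c (l 16695880) (l 16689656)) (c (l 16695832) (l 16689936))))))) (b (b (a (c (l 16680768) (l 16642912)) (c (l 16676600) (l 16640376))) (a (c (a (l 16666456) (l 16665016)) (l 16671544))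 (c (a (l 16664024) (l 16663192)) (l 16670904)))) (a (c (b (a (l 16672640) (l 16672304)) (a (l 16679648) (l 16680168))) (b (l 16679904) (a (l 16667416) (l 16668600)))) (c (b (a (l 16672136) (l 16672112)) (a (l 16680808) (l 16702552))) (b (a (l 16659672) (l 16660376)) (a (l 16669912) (l 16671368))))))), by decide +kernel⟩

def k46_pm_012 : ∃ t, chk3 f_pm_012 t 29 62 1 = true :=
  ⟨(c (a (c (b (a (c (b (l 16712976) (l 16714696)) (b (l 16706472) (l 16708736))) (c (b (l 16712784) (l 16714944)) (b (l 16706560) (l 16709264)))) (a (c (b (l 16721816) (c (l 16719848) (l 16717384))) (b (l 16711160) (l 16718992))) (c (b (c (l 16718576) (l 16715968)) (c (l 16720912) (l 16718576))) (b (l 16712120) (c (l 16716272) (l 16714008)))))) (b (a (c (l 16712048) (l 16695712)) (c (b (l 16700544) (l 16703760)) (l 16696592))) (a (c (b (l 16705896) (l 16709000)) (b (l 16700784) (l 16704376))) (c (b (l 16707128) (l 16710656)) (b (l 16702288) (l 16706296)))))) (c (b (a (c (b (l 16712680) (l 16715272)) (b (l 16706744) (l 16709872)))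 (c (b (l 16712648) (l 16720912)) (b (l 16707016) (l 16710560)))) (a (c (b (c (l 16719264) (l 16716792)) (c (l 16724648) (l 16719824))) (b (l 16713152) (a (l 16716208) (l 16716944)))) (c (b (a (l 16718616) (l 16719040)) (a (l 16721832) (l 16722456))) (b (l 16714248) (a (l 16717704) (l 16718464)))))) (b (a (c (b (l 16701024) (l 16704656)) (l 16697576)) (c (b (l 16701600) (l 16705640)) (l 16709152))) (a (c (b (l 16708440) (l 16712376)) (b (l 16703880) (l 16708288))) (c (b (l 16709824) (l 16714160)) (b (l 16705560) (l 16710360))))))) (a (c (b (a (c (l 16690040) (l 16684560)) (c (l 16691224) (l 16686048))) (a (c (l 16708328) (l 16693224)) (c (l 16710320) (l 16695504)))) (b (a (l 16676680) (l 16678640)) (a (l 16697032) (l 16699736)))) (b (c (a (c (l 16692512) (l 16687640)) (c (l 16693904) (l 16689352))) (a (l 16680712) (l 16682904))) (c (a (c (l 16712392) (l 16697864)) (a (l 16712072) (l 16713256))) (a (l 16702552) (l 16705472)))))), by decide +kernel⟩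

def k47_pm_012 : ∃ t, chk3 f_pm_012 t 29 126 2 = true :=
  ⟨(a (c (a (a (c (b (l 16725664) (c (l 16723648) (l 16721720))) (b (l 16716040) (l 16718848))) (c (b (l 16726432) (c (l 16724608) (l 16722736))) (b (l 16716936) (l 16719952)))) (a (c (b (l 16727216) (c (l 16725568) (l 16723760))) (b (l 16717840) (l 16721072))) (c (b (l 16726696) (c (l 16726544) (l 16724792))) (b (l 16718760) (l 16722200))))) (a (c (b (l 16712272) (c (l 16716624) (l 16714776))) (b (l 16708128) (l 16712040))) (c (b (l 16719576) (c (l 16719032) (l 16717320))) (b (l 16710456) (l 16714768))))) (c (a (a (c (b (c (l 16724544) (l 16722584)) (c (l 16727520) (l 16725832))) (b (l 16719696) (l 16723336))) (c (b (c (l 16725328) (l 16723432)) (c (l 16728504) (l 16726880))) (b (l 16720632) (l 16724480)))) (c (b (a (c (l 16726112) (l 16724288)) (c (l 16726904) (l 16725144))) (a (c (l 16729496) (l 16727936)) (c (l 16730480) (l 16728992)))) (b (a (l 16721592) (l 16722552)) (a (l 16725632) (l 16726784))))) (a (c (b (l 16721704) (a (l 16720056)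 (l 16721328))) (b (l 16712848) (l 16717552))) (c (b (l 16723880) (a (l 16722616) (l 16723912))) (b (l 16715296) (l 16725632)))))), by decide +kernel⟩

def k48_pm_012 : ∃ t, chk3 f_pm_012 t 58 127 2 = true :=
  ⟨(c (b (c (a (c (a (l 16725936) (l 16727104)) (a (l 16724288) (l 16725512))) (c (a (l 16728280) (l 16732088)) (a (l 16726752) (l 16727992)))) (a (c (a (l 16722640) (l 16723928)) (a (l 16721008) (l 16722352))) (c (a (l 16725224) (l 16726528)) (a (l 16723704) (l 16725064))))) (b (c (a (c (a (l 16727760) (l 16729088)) (l 16727016)) (c (a (l 16730424) (l 16731760)) (l 16729800))) (a (c (l 16725608) (l 16724192)) (c (l 16728504) (l 16727208)))) (c (a (c (a (l 16729032) (l 16730464)) (a (l 16727728) (l 16729216))) (c (a (l 16731904) (l 16733344)) (a (l 16730712) (l 16732216)))) (a (a (l 16725768) (l 16727344)) (a (l 16728928) (l 16730512)))))) (b (b (c (a (l 16718368) (l 16721152)) (a (l 16715080) (l 16718104))) (c (a (l 16720208) (l 16723192)) (a (l 16717160) (l 16720376)))) (b (c (a (l 16722088)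 (l 16725272)) (a (l 16719280) (l 16722696))) (c (a (c (l 16724648) (l 16723368)) (c (l 16727976) (l 16726808))) (a (l 16721440) (l 16725056)))))), by decide +kernel⟩

def k49_pm_012 : ∃ t, chk3 f_pm_012 t 59 127 2 = true :=
  ⟨(c (b (a (c (c (a (l 16733272) (l 16734464)) (a (l 16729240) (l 16730488))) (a (c (l 16727832) (l 16726432)) (c (l 16729144) (l 16727808)))) (c (a (c (l 16735648) (l 16731736)) (b (l 16732608) (l 16734584))) (a (c (l 16730456) (l 16729184)) (c (l 16731776) (l 16730568))))) (b (c (a (c (a (l 16733104) (l 16734440)) (l 16732592)) (a (l 16737848) (l 16736592))) (a (c (l 16731416) (l 16730240)) (c (l 16734336) (l 16733288)))) (b (c (a (c (l 16735072) (l 16733992)) (c (l 16737888) (l 16736928))) (a (l 16732376) (l 16735504))) (c (a (c (l 16735952) (l 16734936)) (c (l 16738864) (l 16737976))) (a (c (l 16733920) (l 16732912)) (c (l 16737088) (l 16736192))))))) (b (b (a (c (l 16723976) (l 16721176)) (c (l 16726832) (l 16724296))) (a (c (l 16726208) (l 16723648)) (c (l 16729256) (l 16726952))))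 (b (c (a (l 16728488) (l 16731720)) (a (l 16726152) (l 16729648))) (a (c (c (l 16731328) (l 16730272)) (l 16728696)) (c (c (l 16734688) (l 16733768)) (c (l 16732840) (l 16731920))))))), by decide +kernel⟩

def k50_pm_012 : ∃ t, chk3 f_pm_012 t 29 63 3 = true :=
  ⟨(b (b (c (a (a (c (l 16704072) (l 16700104)) (l 16712664)) (a (l 16715464) (l 16715720))) (a (a (l 16694312) (l 16697584)) (a (l 16700936) (l 16704384)))) (c (a (a (c (l 16708448) (l 16704904)) (c (l 16711424) (l 16708144))) (a (c (l 16714472) (l 16711448)) (c (l 16717576) (l 16714832)))) (a (a (l 16699704) (l 16703328)) (a (l 16707040) (l 16710848))))) (a (c (a (b (c (l 16712976) (l 16709864)) (c (a (l 16716736) (l 16718600)) (l 16714984))) (b (c (l 16716344) (l 16713480)) (c (b (l 16720128) (l 16722712)) (b (l 16717576) (l 16720360))))) (a (b (l 16705240) (c (l 16712288) (l 16709592))) (b (l 16709232) (c (l 16716512) (l 16714064))))) (b (c (a (c (l 16719768) (l 16717152)) (c (l 16728488) (l 16720896))) (a (l 16723784) (l 16722688))) (b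 (c (a (c (l 16723832) (l 16721520)) (c (l 16727584) (l 16725536))) (a (l 16718080) (l 16722480))) (c (a (c (l 16726600) (l 16724488)) (c (l 16730528) (l 16728672))) (a (l 16721320) (l 16731136))))))), by decide +kernel⟩

def k51_pm_012 : ∃ t, chk3 f_pm_012 t 30 14 1 = true :=
  ⟨(b (c (a (c (b (a (l 16675880) (l 16667312)) (a (l 16672040) (l 16664600))) (b (l 16645944) (a (l 16646328) (l 16639440)))) (c (b (a (l 16659384) (l 16651544)) (a (l 16657288) (l 16649984))) (b (a (l 16634392) (l 16627096)) (a (l 16632704) (l 16626000))))) (a (b (c (l 16622368) (l 16600984)) (c (a (l 16623056) (l 16616816)) (l 16599488))) (b (a (l 16630840) (c (l 16605144) (l 16585680))) (c (a (l 16610768) (l 16604792)) (l 16630880))))) (c (a (b (c (a (b (l 16670712) (l 16673600)) (b (l 16664488) (l 16668128))) (a (b (l 16645480) (l 16649944)) (b (l 16639920) (l 16645320)))) (c (a (b (l 16677440) (l 16681824)) (b (l 16672872) (l 16688640))) (a (b (l 16655824) (l 16662216)) (b (l 16652072) (l 16659336))))) (b (c (a (b (l 16658480)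 (l 16663032)) (b (l 16652568) (l 16658248))) (a (b (l 16634640) (l 16641088)) (c (l 16660048) (l 16649680)))) (c (a (b (l 16668808) (l 16685584)) (b (l 16665048) (l 16688072))) (a (b (l 16648816) (l 16657032)) (b (l 16645872) (l 16655048)))))) (c (a (b (a (l 16658088) (l 16653776)) (a (l 16661528) (l 16659056))) (b (a (l 16660200) (l 16656376)) (a (l 16657112) (l 16665968)))) (a (b (b (l 16642960) (l 16629640)) (a (l 16624208) (l 16643608))) (b (a (l 16642576) (l 16639744)) (b (l 16646712) (l 16658520))))))), by decide +kernel⟩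

def k52_pm_012 : ∃ t, chk3 f_pm_012 t 31 28 1 = true :=
  ⟨(c (a (b (c (a (l 16643688) (l 16635832)) (a (l 16619824) (l 16612584))) (c (a (b (l 16642672) (l 16642384)) (b (l 16635232) (l 16656280))) (a (l 16640016) (l 16643752)))) (a (b (c (l 16638448) (l 16626352)) (c (b (l 16627792) (l 16660272)) (b (l 16626672) (l 16649200)))) (b (c (a (l 16622056) (l 16618120)) (l 16629680)) (c (a (l 16654032) (a (l 16661992) (l 16649880))) (l 16634192))))) (a (b (a (c (l 16598568) (l 16600896)) (b (l 16624656) (l 16624864))) (a (b (l 16631192) (l 16632016)) (l 16631296))) (b (a (b (l 16618480) (l 16619064)) (a (l 16614352) (l 16627632))) (a (c (l 16629304) (a (l 16632936) (l 16640520))) (b (c (l 16634280) (l 16643344)) (c (l 16650920) (a (l 16656032) (b (l 16618400) (l 16624416))))))))), by decide +kernel⟩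

def k53_pm_012 : ∃ t, chk3 f_pm_012 t 31 29 1 = true :=
  ⟨(a (c (c (b (a (b (l 16667640) (l 16653712)) (b (l 16662088) (l 16670408))) (a (b (l 16682488) (c (l 16674256) (l 16665464))) (b (c (l 16662960) (l 16653616)) (c (l 16671712) (l 16663320))))) (b (a (a (l 16651168) (l 16648920)) (b (l 16640992) (l 16651136))) (b (a (l 16643184) (l 16661720)) (a (l 16674264) (l 16672744))))) (b (a (b (l 16638816) (l 16650184)) (b (l 16637840) (l 16648512))) (a (b (l 16662176) (l 16669344)) (b (l 16650624) (l 16663872))))) (c (b (a (c (a (l 16662856) (c (l 16644888) (l 16655656))) (b (l 16636992) (l 16648056))) (c (a (b (l 16653528) (l 16663528)) (b (l 16651256) (l 16661720))) (b (l 16633304) (l 16645272)))) (a (c (a (c (l 16686184) (l 16677632)) (b (l 16675368) (l 16685776))) (a (l 16676400) (l 16672976))) (c (b (a (l 16673960) (l 16672608)) (a (l 16684816) (l 6))) (a (l 16672896) (l 16668952))))) (c (a (b (l 16642264) (l 16662120)) (b (b (l 16651576) (l 16662040)) (a (l 16675224) (a (l 16680408) (l 6)))))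 (a (b (a (l 16647528) (l 16654352)) (b (l 16666536) (l 16677560))) (b (a (b (l 16624720) (l 16634616)) (b (l 16631456) (l 16641240))) (b (a (l 16644984) (c (l 16650120) (l 16652704))) (a (l 16676800) (l 6)))))))), by decide +kernel⟩

def k54_pm_012 : ∃ t, chk3 f_pm_012 t 30 30 1 = true :=
  ⟨(c (a (b (c (a (b (l 16697232) (c (l 16696352) (l 16688152))) (b (c (l 16688464) (l 16679576)) (c (l 16694264) (l 16686416)))) (a (b (l 16669136) (l 16676584)) (b (l 16667104) (l 16696360)))) (c (a (b (c (l 16712312) (l 16694672)) (c (b (l 16706264) (l 16709408)) (b (l 16699888) (l 16703560)))) (b (c (a (l 16700808) (l 16700352)) (l 16704256)) (c (a (l 16707448) (l 16707424)) (a (l 16701584) (l 16701720))))) (a (b (c (l 16687848) (l 16681360)) (c (l 16695896) (l 16690328))) (b (c (l 16687296) (l 16681160)) (c (l 16706640) (l 16690928)))))) (b (c (a (b (c (l 16686216) (l 16677680)) (c (l 16692992) (l 16685472))) (b (c (l 16684280) (l 16676088)) (c (l 16702520) (l 16684840)))) (a (b (l 16665744) (l 16695920)) (b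 (l 16664704) (c (l 16678056) (l 16671696))))) (c (b (a (c (a (l 16700280) (l 16700256)) (l 16704248)) (c (a (l 16700256) (l 16700288)) (l 16704560))) (a (c (a (l 16707832) (l 16708288)) (a (l 16702264) (l 16702856))) (c (a (l 16719248) (l 16719744)) (a (l 16703464) (l 16704112))))) (b (a (c (l 16687600) (l 16681776)) (c (l 16688216) (l 16682720))) (a (c (l 16707832) (l 16692416)) (a (l 16706560) (l 16702176))))))) (b (a (c (a (b (l 16653320) (l 16662520)) (b (l 16652080) (l 16662080))) (b (l 16670544) (a (l 16650016) (l 16650368)))) (b (a (c (l 16651472) (l 16639072)) (c (l 16651184) (l 16660552))) (a (c (l 16662344) (l 16651368)) (c (l 16683896) (l 16673664))))) (a (c (a (b (l 16672240) (l 16692976)) (b (l 16672584) (l 16694088))) (b (a (l 16661240) (l 16662336)) (a (l 16672976) (l 16674808)))) (b (a (c (l 16673696) (l 16664136)) (c (l 16696104) (l 16687224))) (c (a (c (l 16687768) (l 16683400)) (b (l 16684568) (l 16691032))) (a (l 16677384) (l 16701240))))))), by decide +kernel⟩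

def k55_pm_012 : ∃ t, chk3 f_pm_012 t 30 62 2 = true :=
  ⟨(a (c (b (a (c (b (l 16712696) (a (l 16716000) (l 16716240))) (b (l 16707368) (l 16711320))) (c (a (b (l 16712768) (l 16716496)) (b (l 16713056) (l 16717000))) (a (l 16720288) (l 16720840)))) (a (c (b (a (l 16719472) (l 16719912)) (a (l 16723088) (l 16723728))) (b (l 16720648) (a (l 16719240) (l 16720032)))) (c (b (a (l 16720368) (l 16721072)) (a (l 16724376) (l 16730536))) (b (a (l 16716304) (l 16717160)) (a (l 16720832) (l 16721888)))))) (b (a (c (b (l 16702264) (l 16706704)) (l 16710328)) (c (a (l 16705192) (l 16705888)) (a (l 16700792) (l 16701640)))) (a (c (b (l 16711288) (l 16716008)) (b (l 16707328) (l 16712504))) (a (b (l 16710536) (l 16726256)) (b (l 16711608) (l 16722280)))))) (b (c (a (c (a (b (l 16713824) (l 16718000)) (b (l 16714624) (l 16719032))) (a (l 16716600) (l 16717648))) (c (a (b (l 16715456) (l 16720088)) (b (l 16716296) (l 16721160))) (a (l 16718712) (l 16720456)))) (b (a (l 16708056) (c (l 16707152) (l 16703152)))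 (a (c (l 16710240) (l 16706408)) (c (l 16712848) (l 16709280))))) (c (a (b (c (a (l 16722312) (l 16723576)) (a (l 16718512) (l 16719888))) (c (a (l 16726760) (l 16728248)) (a (l 16723464) (l 16725064)))) (b (c (a (l 16724856) (l 16726152)) (a (l 16721288) (l 16722712))) (a (c (l 16729760) (l 16726680)) (l 6)))) (a (a (b (l 16713136) (l 16718776)) (b (l 16714688) (l 16725792))) (a (b (l 16716272) (l 16727576)) (b (l 16717872) (l 6))))))), by decide +kernel⟩

def k56_pm_012 : ∃ t, chk3 f_pm_012 t 30 62 3 = true :=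
  ⟨(b (a (c (a (c (l 16695408) (l 16691184)) (c (l 16707600) (l 16693216))) (a (l 16685240) (l 16698264))) (c (a (c (l 16704968) (l 16696120)) (b (l 16697608) (l 16704304))) (a (b (l 16687616) (l 16694600)) (a (l 16693816) (l 16716640))))) (b (a (c (a (l 16701688) (l 16714600)) (a (l 16694752) (l 16697816))) (c (a (l 16707464) (l 16716368)) (a (l 16701712) (l 16705888)))) (a (c (a (l 16707496) (l 16715520)) (a (l 16701280) (l 16704688))) (c (a (l 16719264) (a (l 16717048) (l 6))) (a (l 16708944) (l 16713480)))))), by decide +kernel⟩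

def k57_pm_012 : ∃ t, chk3 f_pm_012 t 30 126 1 = true :=
  ⟨(c (a (c (a (c (b (a (c (l 16727696) (l 16726008)) (l 16731616)) (a (c (l 16731472) (l 16730048)) (c (l 16732472) (l 16731120)))) (b (a (l 16723520) (l 16724504)) (a (l 16727952) (l 16729128)))) (b (c (a (l 16732464) (c (l 16730392) (l 16728920))) (a (l 16725496) (l 16726760))) (c (a (c (l 16733472) (l 16732192)) (a (l 16736312) (l 16734616))) (a (l 16730312) (l 16734384))))) (a (c (b (a (l 16720296) (l 16721432)) (a (l 16725216) (l 16726528))) (b (l 16717824) (l 16728528))) (b (c (a (l 16722576) (l 16723968)) (l 16725760)) (c (a (l 16727864) (l 16729448)) (a (l 16725488) (l 16727208)))))) (a (c (b (c (a (c (l 16732056) (l 16730632)) (c (l 16733752) (l 16732376))) (a (l 16728552) (l 16730368))) (c (a (c (l 16739280) (l 16735488)) (a (l 16737520) (l 6))) (a (l 16736400) (l 16738432)))) (b (c (a (l 16725864) (l 16727784)) (l 16729544)) (c (a (l 16731552) (l 16733688)) (a (l 16729408) (l 16731640))))) (l 6))) (a (b (c (a (l 16721296) (c (l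 16717864) (l 16715320))) (a (l 16707944) (l 16711688))) (a (c (c (l 16720752) (l 16718296)) (l 16714744)) (c (c (l 16729352) (l 16721944)) (l 16726688)))) (a (b (c (c (l 16721880) (l 16719568)) (l 16716296)) (a (c (l 16726328) (l 16722480)) (c (l 16728712) (l 16725080)))) (l 6)))), by decide +kernel⟩

def k58_pm_012 : ∃ t, chk3 f_pm_012 t 30 127 2 = true :=
  ⟨(a (b (b (c (a (a (c (l 16733784) (l 16731368)) (c (l 16734960) (l 16732680))) (c (a (l 16736144) (l 16737616)) (a (l 16734008) (l 16735608)))) (a (c (l 16729720) (l 16727464)) (a (l 16730888) (l 16737928)))) (c (a (a (c (l 16735856) (l 16733688)) (c (l 16737128) (l 16735104))) (c (a (l 16738400) (l 16739976)) (a (l 16736520) (l 16738224)))) (a (c (l 16732336) (l 16730304)) (c (a (l 16734664) (l 16736496)) (l 16733832))))) (c (a (c (b (a (l 16737960) (l 16739328)) (c (a (l 16740512) (l 16741944)) (a (l 16739688) (l 16741184)))) (a (b (l 16736056) (l 16738456)) (b (l 16737560) (l 16740056)))) (c (a (b (l 16740696) (c (l 16743376) (l 16742688)))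 (b (c (l 16742752) (l 16741992)) (c (l 16745120) (l 16744496)))) (a (b (l 16739072) (l 16741656)) (b (l 16740872) (c (l 16743864) (l 16743240)))))) (b (a (c (l 16737608) (l 16733184)) (c (a (l 16737456) (l 16739376)) (a (l 16735856) (l 16737904)))) (a (c (a (l 16736808) (l 16738536)) (a (l 16735160) (l 16737024))) (c (a (l 16740280) (l 16742296)) (a (l 16738904) (l 16741040))))))) (a (a (b (b (c (c (l 16739704) (l 16737784)) (l 16734992)) (c (c (l 16742168) (l 16740496)) (l 16740680))) (l 6)) (l 6)) (l 6))), by decide +kernel⟩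

def k59_pm_012 : ∃ t, chk3 f_pm_012 t 30 127 3 = true :=
  ⟨(b (b (a (c (a (l 16724168) (c (l 16728880) (l 16726992))) (a (l 16719928) (l 16724256))) (a (c (c (l 16733560) (l 16731888)) (l 16729472)) (l 6))) (a (c (a (l 16732552) (c (l 16732104) (l 16730408))) (a (l 16723424) (l 16727920))) (a (c (c (l 16736976) (l 16735488)) (l 16733312)) (l 6)))) (b (a (c (a (c (l 16731384) (l 16729608)) (c (l 16735360) (l 16733856))) (a (l 16726968) (l 16735552))) (l 6)) (a (c (a (c (l 16734512) (l 16732920)) (a (l 16736832) (l 16741776))) (a (c (l 16731336) (l 16729744)) (a (l 16734064) (l 16736632)))) (l 6)))), by decide +kernel⟩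

def k60_pm_012 : ∃ t, chk3 f_pm_012 t 31 15 1 = true :=
  ⟨(b (a (c (b (c (a (b (c (l 16682504) (l 16674688)) (a (l 16698368) (l 16698080))) (b (a (l 16698424) (l 16697768)) (a (c (l 16690704) (l 16684120)) (c (l 16690424) (l 16684008))))) (b (a (l 16684832) (l 16684200)) (a (b (l 16672064) (l 16677688)) (a (l 16696008) (l 16696176))))) (c (b (a (a (c (l 16700352) (l 16694384)) (c (l 16700456) (l 16694648))) (a (c (l 16700584) (l 16694944)) (l 6))) (a (a (b (l 16704704) (l 16720272)) (b (l 16705224) (l 6))) (l 6))) (b (a (a (l 16686104) (l 16707584)) (a (l 16708128) (l 6))) (a (b (l 16705736) (a (l 16700824) (l 6))) (l 6))))) (b (a (b (c (l 16672096) (l 16661304)) (c (l 16684680) (l 16675208))) (c (b (l 16672264) (l 16685672)) (b (l 16665664) (l 16677928)))) (a (b (c (l 16697712) (l 16689528)) (c (a (l 16710568) (l 16711816)) (l 16704296))) (b (a (c (l 16699032) (l 16691384)) (l 6)) (l 6))))) (b (a (b (c (c (a (l 16697160) (l 16696608)) (a (l 16683856) (l 16683704))) (c (l 16672672) (b (l 16675648)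 (l 16681528)))) (l 6)) (l 6)) (l 6))) (b (b (b (a (a (a (c (c (c (l 16717168) (l 16712888)) (l 16706928)) (l 16717640)) (l 6)) (l 6)) (l 6)) (l 6)) (l 6)) (l 6))), by decide +kernel⟩

theorem s61_pm_012 : ∃ t, chk3 f_pm_012 t 30 127 1 = true := ex3_c k58_pm_012 k59_pm_012

theorem s62_pm_012 : ∃ t, chk3 f_pm_012 t 30 63 1 = true := ex3_b k57_pm_012 s61_pm_012

theorem s63_pm_012 : ∃ t, chk3 f_pm_012 t 30 62 1 = true := ex3_c k55_pm_012 k56_pm_012

theorem s64_pm_012 : ∃ t, chk3 f_pm_012 t 30 31 1 = true := ex3_b s63_pm_012 s62_pm_012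

theorem s65_pm_012 : ∃ t, chk3 f_pm_012 t 30 15 1 = true := ex3_b k54_pm_012 s64_pm_012

theorem s66_pm_012 : ∃ t, chk3 f_pm_012 t 15 15 1 = true := ex3_a s65_pm_012 k60_pm_012

theorem s67_pm_012 : ∃ t, chk3 f_pm_012 t 31 14 1 = true := ex3_b k52_pm_012 k53_pm_012

theorem s68_pm_012 : ∃ t, chk3 f_pm_012 t 15 14 1 = true := ex3_a k51_pm_012 s67_pm_012

theorem s69_pm_012 : ∃ t, chk3 f_pm_012 t 15 7 1 = true := ex3_b s68_pm_012 s66_pm_012

theorem s70_pm_012 : ∃ t, chk3 f_pm_012 t 29 127 2 = true := ex3_a k48_pm_012 k49_pm_012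

theorem s71_pm_012 : ∃ t, chk3 f_pm_012 t 29 63 2 = true := ex3_b k47_pm_012 s70_pm_012

theorem s72_pm_012 : ∃ t, chk3 f_pm_012 t 29 63 1 = true := ex3_c s71_pm_012 k50_pm_012

theorem s73_pm_012 : ∃ t, chk3 f_pm_012 t 29 31 1 = true := ex3_b k46_pm_012 s72_pm_012

theorem s74_pm_012 : ∃ t, chk3 f_pm_012 t 29 15 1 = true := ex3_b k45_pm_012 s73_pm_012

theorem s75_pm_012 : ∃ t, chk3 f_pm_012 t 29 7 1 = true := ex3_b k44_pm_012 s74_pm_012

theorem s76_pm_012 : ∃ t, chk3 f_pm_012 t 28 63 2 = true := ex3_a k41_pm_012 k42_pm_012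

theorem s77_pm_012 : ∃ t, chk3 f_pm_012 t 28 31 2 = true := ex3_b k40_pm_012 s76_pm_012

theorem s78_pm_012 : ∃ t, chk3 f_pm_012 t 28 31 1 = true := ex3_c s77_pm_012 k43_pm_012

theorem s79_pm_012 : ∃ t, chk3 f_pm_012 t 28 15 1 = true := ex3_b k39_pm_012 s78_pm_012

theorem s80_pm_012 : ∃ t, chk3 f_pm_012 t 28 7 1 = true := ex3_b k38_pm_012 s79_pm_012

theorem s81_pm_012 : ∃ t, chk3 f_pm_012 t 14 7 1 = true := ex3_a s80_pm_012 s75_pm_012

theorem s82_pm_012 : ∃ t, chk3 f_pm_012 t 7 7 1 = true := ex3_a s81_pm_012 s69_pm_012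

theorem s83_pm_012 : ∃ t, chk3 f_pm_012 t 15 6 1 = true := ex3_a k36_pm_012 k37_pm_012

theorem s84_pm_012 : ∃ t, chk3 f_pm_012 t 7 6 1 = true := ex3_a k35_pm_012 s83_pm_012

theorem s85_pm_012 : ∃ t, chk3 f_pm_012 t 7 3 1 = true := ex3_b s84_pm_012 s82_pm_012

theorem s86_pm_012 : ∃ t, chk3 f_pm_012 t 27 31 3 = true := ex3_a k33_pm_012 k34_pm_012

theorem s87_pm_012 : ∃ t, chk3 f_pm_012 t 55 63 2 = true := ex3_b k31_pm_012 k32_pm_012

theorem s88_pm_012 : ∃ t, chk3 f_pm_012 t 55 31 2 = true := ex3_b k30_pm_012 s87_pm_012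

theorem s89_pm_012 : ∃ t, chk3 f_pm_012 t 54 63 2 = true := ex3_b k28_pm_012 k29_pm_012

theorem s90_pm_012 : ∃ t, chk3 f_pm_012 t 54 31 2 = true := ex3_b k27_pm_012 s89_pm_012

theorem s91_pm_012 : ∃ t, chk3 f_pm_012 t 27 31 2 = true := ex3_a s90_pm_012 s88_pm_012

theorem s92_pm_012 : ∃ t, chk3 f_pm_012 t 27 31 1 = true := ex3_c s91_pm_012 s86_pm_012

theorem s93_pm_012 : ∃ t, chk3 f_pm_012 t 27 15 1 = true := ex3_b k26_pm_012 s92_pm_012

theorem s94_pm_012 : ∃ t, chk3 f_pm_012 t 26 31 3 = true := ex3_b k24_pm_012 k25_pm_012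

theorem s95_pm_012 : ∃ t, chk3 f_pm_012 t 26 15 3 = true := ex3_b k23_pm_012 s94_pm_012

theorem s96_pm_012 : ∃ t, chk3 f_pm_012 t 26 63 2 = true := ex3_a k21_pm_012 k22_pm_012

theorem s97_pm_012 : ∃ t, chk3 f_pm_012 t 26 31 2 = true := ex3_b k20_pm_012 s96_pm_012

theorem s98_pm_012 : ∃ t, chk3 f_pm_012 t 26 15 2 = true := ex3_b k19_pm_012 s97_pm_012

theorem s99_pm_012 : ∃ t, chk3 f_pm_012 t 26 15 1 = true := ex3_c s98_pm_012 s95_pm_012

theorem s100_pm_012 : ∃ t, chk3 f_pm_012 t 13 15 1 = true := ex3_a s99_pm_012 s93_pm_012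

theorem s101_pm_012 : ∃ t, chk3 f_pm_012 t 13 7 1 = true := ex3_b k18_pm_012 s100_pm_012

theorem s102_pm_012 : ∃ t, chk3 f_pm_012 t 13 3 1 = true := ex3_b k17_pm_012 s101_pm_012

theorem s103_pm_012 : ∃ t, chk3 f_pm_012 t 25 63 3 = true := ex3_a k15_pm_012 k16_pm_012

theorem s104_pm_012 : ∃ t, chk3 f_pm_012 t 25 31 3 = true := ex3_b k14_pm_012 s103_pm_012

theorem s105_pm_012 : ∃ t, chk3 f_pm_012 t 25 31 1 = true := ex3_c k13_pm_012 s104_pm_012

theorem s106_pm_012 : ∃ t, chk3 f_pm_012 t 25 15 1 = true := ex3_b k12_pm_012 s105_pm_012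

theorem s107_pm_012 : ∃ t, chk3 f_pm_012 t 24 15 1 = true := ex3_b k10_pm_012 k11_pm_012

theorem s108_pm_012 : ∃ t, chk3 f_pm_012 t 12 15 1 = true := ex3_a s107_pm_012 s106_pm_012

theorem s109_pm_012 : ∃ t, chk3 f_pm_012 t 12 7 1 = true := ex3_b k9_pm_012 s108_pm_012

theorem s110_pm_012 : ∃ t, chk3 f_pm_012 t 12 3 1 = true := ex3_b k8_pm_012 s109_pm_012

theorem s111_pm_012 : ∃ t, chk3 f_pm_012 t 6 3 1 = true := ex3_a s110_pm_012 s102_pm_012

theorem s112_pm_012 : ∃ t, chk3 f_pm_012 t 3 3 1 = true := ex3_a s111_pm_012 s85_pm_012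

theorem s113_pm_012 : ∃ t, chk3 f_pm_012 t 3 2 1 = true := ex3_a k6_pm_012 k7_pm_012

theorem s114_pm_012 : ∃ t, chk3 f_pm_012 t 3 1 1 = true := ex3_b s113_pm_012 s112_pm_012

theorem s115_pm_012 : ∃ t, chk3 f_pm_012 t 11 7 1 = true := ex3_b k4_pm_012 k5_pm_012

theorem s116_pm_012 : ∃ t, chk3 f_pm_012 t 5 7 1 = true := ex3_a k3_pm_012 s115_pm_012

theorem s117_pm_012 : ∃ t, chk3 f_pm_012 t 5 3 1 = true := ex3_b k2_pm_012 s116_pm_012

theorem s118_pm_012 : ∃ t, chk3 f_pm_012 t 5 1 1 = true := ex3_b k1_pm_012 s117_pm_012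

theorem s119_pm_012 : ∃ t, chk3 f_pm_012 t 2 1 1 = true := ex3_a k0_pm_012 s118_pm_012

theorem s120_pm_012 : ∃ t, chk3 f_pm_012 t 1 1 1 = true := ex3_a s119_pm_012 s114_pm_012

theorem c_pm_012 : CertN 0 536870912 0 536870912 201326592 134217728 3 false true false .pnp 0 1 2
    ndN0q0 ndN0q2 pcN1 cut_pm_012 Ext.none :=
  certN2 (fam := false) (s1 := true) (s2 := false) (a := 0) (b := 1) (c := 2) (cn := .pnp) (n1 := ndN0q0) (n2 := ndN0q2) (pc := pcN1) (cut := cut_pm_012) (xt := Ext.none) (P1 := 0) (W1 := 536870912) (P2 := 0) (W2 := 536870912) (P3 := 201326592) (W3 := 134217728) (N0 := 3)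
    rfl (fun _ => rfl) s120_pm_012

noncomputable def cut_pm_022 : Cut := Cut.of [[⟨0, 0, 0, 67108864⟩, ⟨1, 1, 0, 67108864⟩, ⟨2, 1, 0, 67108864⟩]]

noncomputable def f_pm_022 : ℕ → ℕ → ℕ → ℕ → Bool := onCell 0 536870912 0 536870912 201326592 134217728
    (rowN 3 0 false true false .pp 0 2 2 (qsf 0 536870912 0 536870912 2) ndN0q0 ndN0q2 pcN2 cut_pm_022 Ext.none)

def k0_pm_022 : ∃ t, chk3 f_pm_022 t 2 2 1 = true :=
  ⟨(a (b (a (a (b (a (b (c (a (a (l 16481616) (l 16461072)) (l 16461952)) (a (l 16472544) (l 16452616))) (c (a (l 16502960) (l 16483408)) (l 16472280))) (b (c (l 16484912) (l 16454648)) (c (l 16506400) (l 16474992)))) (c (c (l 16496584) (l 16471312)) (l 16489848))) (b (c (b (l 16468768) (l 16489048)) (l 16501512)) (c (b (l 16503096) (l 16476056)) (l 16510512)))) (b (c (a (l 16496776) (l 16507016)) (a (l 16486216) (l 16495264))) (c (a (b (l 16522720) (l 16483816)) (b (l 16522536) (l 16491536))) (a (b (l 16500512) (l 16452312)) (b (l 16508704) (l 16478848)))))) (a (b (c (a (c (l 16560032)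 (l 16536520)) (c (l 16527960) (l 16515848))) (a (l 16553072) (l 16533872))) (a (b (c (l 16574264) (l 16544072)) (c (c (l 16578304) (l 16573552)) (l 16586856))) (c (b (l 16547752) (l 16567064)) (b (a (l 16505080) (l 16492704)) (l 16538576))))) (b (c (a (b (l 16475584) (l 16502904)) (b (l 16483600) (l 16477696))) (a (l 16482000) (l 16492120))) (a (c (b (l 16519688) (a (l 16522672) (l 16506408))) (a (l 16530568) (l 16516592))) (c (b (l 16478024) (c (l 16485584) (l 16482360))) (b (l 16471152) (l 16479224))))))) (a (a (b (b (c (l 16515544) (l 16481752)) (c (b (l 16484912) (a (l 16496784) (l 16520648))) (b (l 16469904) (l 16503984)))) (b (c (b (l 16488608) (l 16481264)) (l 16493792)) (c (b (l 16479960) (l 16484056)) (b (l 16449160) (l 16453584))))) (b (b (l 1) (l 1)) (l 1))) (l 1))), by decide +kernel⟩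

def k1_pm_022 : ∃ t, chk3 f_pm_022 t 4 6 1 = true :=
  ⟨(a (b (a (b (c (c (l 16621168) (l 16616400)) (a (l 16574144) (l 16559288))) (c (a (c (l 16609496) (l 16604528)) (l 16631320)) (a (l 16617408) (l 16580168)))) (c (a (b (l 16573256) (l 16592328)) (b (l 16556344) (l 16573896))) (b (l 16578312) (a (l 16563536) (l 16567504))))) (a (c (b (a (c (l 16652312) (l 16647568)) (c (l 16632904) (l 16628856))) (a (c (a (l 16679520) (l 16669256)) (b (l 16643304) (l 16675528))) (c (a (l 16658904) (l 16648456)) (b (l 16623600) (l 16634232))))) (b (a (c (l 16642504) (l 16637112)) (l 16643176)) (a (a (b (l 16640600) (l 16652384)) (l 16679096)) (c (l 16666904) (l 16662672))))) (b (c (a (c (l 16613128) (l 16609768)) (c (l 16592904) (l 16590240))) (a (l 16604184) (l 16585752))) (b (c (a (l 16636560) (l 16605144)) (a (l 16598320) (l 16599816))) (c (a (c (l 16616432) (l 16613480)) (c (l 16615472) (l 16613208))) (a (l 16629632) (l 16609480))))))) (b (a (c (b (c (l 16552024) (l 16549992)) (a (l 16565448) (l 16545944)))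 (a (b (l 16512664) (l 16550056)) (b (l 16496264) (l 16532120)))) (c (b (a (l 16502552) (l 16495432)) (a (c (l 16505144) (l 16494040)) (l 1))) (b (a (l 16479344) (l 16467176)) (a (l 16503112) (l 1))))) (a (c (b (a (b (l 16567008) (l 16575256)) (a (l 7012436471) (c (l 16524312) (l 16523360)))) (a (a (a (l 16596264) (l 16590768)) (b (l 16578216) (b (l 16584448) (l 16588648)))) (b (c (l 16541032) (l 16540080)) (l 1)))) (b (a (l 16587816) (c (l 16527216) (l 16525592))) (a (a (l 16589520) (l 16563152)) (b (l 16538312) (l 1))))) (b (b (c (l 16530584) (l 16519944)) (l 1)) (l 1))))), by decide +kernel⟩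

def k2_pm_022 : ∃ t, chk3 f_pm_022 t 4 7 1 = true :=
  ⟨(a (b (a (b (a (c (a (c (b (l 16675320) (l 16707616)) (b (l 16671104) (l 16682784))) (c (b (l 16664608) (l 16675648)) (b (l 16660736) (l 16672120)))) (a (b (l 16685336) (c (l 16678736) (l 16674496))) (b (l 16654528) (l 16687472)))) (c (b (c (l 16669304) (l 16665936)) (b (a (l 16660208) (l 16649232)) (l 6))) (b (a (l 16644584) (l 16634536)) (a (l 16677224) (l 16645888))))) (l 6)) (b (a (c (b (c (l 16647240) (l 16644544)) (c (b (l 16654712) (l 6)) (l 16660096))) (b (c (l 16641688) (l 16617688)) (a (l 16635408) (l 16645768)))) (c (b (c (l 16624656) (l 16622648)) (a (c (l 16639904) (l 16617064)) (c (b (l 16604840) (l 16630472)) (l 16621368)))) (b (l 16629856) (a (l 16635032) (b (l 16621584) (l 16626712)))))) (a (l 6) (a (l 6) (a (l 6) (l 1)))))) (a (l 6) (a (l 6) (l 1)))) (a (b (b (a (c (b (a (c (l 16596856) (l 16605864)) (l 16589776)) (b (l 16607416) (l 1))) (b (a (l 16603416) (l 16571608)) (l 16602280))) (l 1)) (l 1)) (l 1)) (l 1))), by decide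 +kernel⟩

def k3_pm_022 : ∃ t, chk3 f_pm_022 t 5 3 1 = true :=
  ⟨(b (l 1) (l 1)), by decide +kernel⟩

def k4_pm_022 : ∃ t, chk3 f_pm_022 t 3 1 1 = true :=
  ⟨(l 1), by decide +kernel⟩

theorem s5_pm_022 : ∃ t, chk3 f_pm_022 t 4 3 1 = true := ex3_b k1_pm_022 k2_pm_022

theorem s6_pm_022 : ∃ t, chk3 f_pm_022 t 2 3 1 = true := ex3_a s5_pm_022 k3_pm_022

theorem s7_pm_022 : ∃ t, chk3 f_pm_022 t 2 1 1 = true := ex3_b k0_pm_022 s6_pm_022

theorem s8_pm_022 : ∃ t, chk3 f_pm_022 t 1 1 1 = true := ex3_a s7_pm_022 k4_pm_022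

theorem c_pm_022 : CertN 0 536870912 0 536870912 201326592 134217728 3 false true false .pp 0 2 2
    ndN0q0 ndN0q2 pcN2 cut_pm_022 Ext.none :=
  certN0 (fam := false) (s1 := true) (s2 := false) (a := 0) (b := 2) (c := 2) (cn := .pp) (n1 := ndN0q0) (n2 := ndN0q2) (pc := pcN2) (cut := cut_pm_022) (xt := Ext.none) (P1 := 0) (W1 := 536870912) (P2 := 0) (W2 := 536870912) (P3 := 201326592) (W3 := 134217728) (N0 := 3)
    rfl s8_pm_022

noncomputable def cut_pm_101 : Cut := Cut.of [[⟨0, 1, 0, 53687091⟩, ⟨1, 0, 0, 53687091⟩, ⟨2, 1, 0, 53687091⟩]]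

noncomputable def f_pm_101 : ℕ → ℕ → ℕ → ℕ → Bool := onCell 536870912 536870912 536870912 536870912 201326592 134217728
    (rowN 3 0 false true false .npn 1 0 1 (qsf 536870912 536870912 536870912 536870912 0) ndN0q1 ndN0q1 pcN0 cut_pm_101 Ext.none)

def k0_pm_101 : ∃ t, chk3 f_pm_101 t 8 4 1 = true :=
  ⟨(b (l 4) (a (b (l 4) (b (l 4) (a (l 4) (b (l 4) (a (l 4) (b (l 4) (a (l 4) (c (l 144116410007) (l 158075021959))))))))) (b (b (l 4) (a (l 4) (b (l 4) (a (l 4) (b (l 4) (a (l 4) (c (l 147337639831) (l 161833120535)))))))) (b (a (b (l 4) (a (l 4) (b (l 4) (a (l 4) (c (l 146263896199) (l 160222506999)))))) (b (a (b (l 4) (a (l 4) (c (l 146800768103) (l 161296249287)))) (b (a (c (l 147337639447) (l 161296249463)) (c (l 133915857607) (l 138747681575))) (a (c (l 134452725815) (l 138747680055)) (c (l 16824528) (l 16810592))))) (a (b (a (c (l 146800767623) (l 160759378151)) (c (l 134452724039) (l 139284548919))) (a (c (l 134989592647) (l 138747676247)) (c (l 16824072) (l 16810264)))) (c (l 16857536) (l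 16844592))))) (b (a (a (b (l 4) (a (l 4) (c (l 145190153191) (l 159148764551)))) (b (a (c (l 145727024711) (l 159685635799)) (c (l 16832056) (l 139284544199))) (c (a (l 16831752) (l 16823496)) (a (l 129084007303) (l 16809816))))) (a (c (l 16857000) (l 16844040)) (l 16858864))) (a (a (b (a (c (l 144653281623) (l 158611893271)) (c (l 16831416) (l 16837744))) (c (l 91503098135) (a (l 16816528) (l 16809208)))) (c (l 16835312) (l 16843280))) (a (l 16858864) (l 16816024)))))))), by decide +kernel⟩

def k1_pm_101 : ∃ t, chk3 f_pm_101 t 9 4 1 = true :=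
  ⟨(b (a (a (l 4) (l 1)) (l 1)) (b (a (a (b (b (l 4) (b (l 4) (a (l 4) (a (l 4) (c (l 147874511623) (l 162906862503)))))) (b (a (b (l 4) (a (l 4) (c (l 147337640455) (l 162906862567)))) (c (b (a (l 147337640711) (l 130157769879)) (c (l 98482419543) (l 112977908599))) (b (a (l 162369991719) (l 139821427751)) (a (l 139284556135) (l 16810904))))) (c (a (b (a (l 147337640167) (l 131768378887)) (a (l 132842118439) (l 16824848))) (l 16858104)) (a (b (a (l 162906862471) (l 139284555063)) (a (l 138747683047) (l 16810808))) (b (l 16828144) (l 16819888)))))) (a (a (b (b (l 1) (b (l 1) (c (l 245920560855) (l 254510477207)))) (b (c (l 16841608) (l 16828136)) (l 16837392))) (b (l 1) (b (l 143378265783) (l 16837568)))) (b (l 1) (l 138546478711)))) (a (b (l 1) (l 163242578903)) (l 1))) (c (a (a (b (c (l 16886120) (l 16881456)) (l 16816080)) (l 16892096)) (a (l 16860056) (l 16870488))) (a (b (a (b (a (l 16865928) (l 16812728)) (l 16834984)) (l 16821080)) (a (l 16800632) (l 16823416))) (a (l 16877696) (l 16861480)))))),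 by decide +kernel⟩

def k2_pm_101 : ∃ t, chk3 f_pm_101 t 4 10 1 = true :=
  ⟨(a (b (a (b (a (b (l 4) (b (l 4) (a (l 4) (a (c (l 146800779239) (l 163980614727)) (c (l 118346624871) (l 142505776327)))))) (b (a (b (l 4) (a (l 4) (c (l 144116404503) (l 155927537351)))) (b (a (c (l 143579538327) (l 157001279671)) (c (l 16830680) (l 16816248))) (c (l 16857592) (a (l 16815944) (l 16808440))))) (a (b (a (c (l 141968920343) (l 154316924055)) (c (l 16829832) (l 16815600))) (c (l 16846168) (l 16842880))) (c (l 16833320) (l 16820512))))) (a (b (b (a (a (l 4) (c (l 144116423895) (l 163443743319))) (a (c (l 112977919367) (l 137137072583)) (c (l 16828840) (l 16814768)))) (a (a (c (l 141432068471) (l 161833130023)) (c (l 109756695143) (l 132842108455))) (c (l 16823960) (l 16831256)))) (a (c (c (l 87208145879) (l 90429360135)) (b (a (l 129084013831) (l 16813640)) (l 16829736))) (c (l 16829248) (l 16819208)))) (c (l 16881408) (b (l 16857752) (l 16815744))))) (b (a (c (b (l 16867488) (l 16816824)) (c (l 16878088) (l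 16865200))) (l 16883264)) (a (l 16885792) (c (l 16827872) (l 16826680))))) (c (a (b (a (l 16880368) (l 16804024)) (l 16866992)) (b (l 16847400) (l 16883024))) (a (b (a (b (l 16857472) (l 16796880)) (l 16807864)) (a (l 16812952) (l 16835400))) (b (l 16863088) (l 16870616))))) (a (a (b (c (l 16841536) (l 16858648)) (c (l 16908704) (l 16891984))) (b (c (l 16871808) (l 16862384)) (c (l 16937240) (l 16915400)))) (b (c (b (l 16901240) (l 16932080)) (b (l 16886520) (l 16911696))) (c (l 16979440) (l 16949880))))), by decide +kernel⟩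

def k3_pm_101 : ∃ t, chk3 f_pm_101 t 4 11 1 = true :=
  ⟨(a (c (b (a (b (l 16862704) (l 16901008)) (b (l 16919024) (l 16955088))) (a (b (l 16939008) (l 16975504)) (l 17007696))) (a (b (b (l 16853272) (l 16883544)) (b (l 16913720) (l 16943160))) (b (b (l 16899368) (l 16928104)) (c (l 16980104) (l 16960032))))) (c (b (a (l 16991112) (l 17043184)) (a (l 17056336) (l 17103656))) (b (a (l 16958120) (l 17000800)) (a (l 17010576) (l 17049392))))), by decide +kernel⟩

def k4_pm_101 : ∃ t, chk3 f_pm_101 t 5 2 1 = true :=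
  ⟨(b (a (b (l 1) (a (a (b (l 1) (b (l 1) (l 16908256))) (l 1)) (l 1))) (l 1)) (a (b (a (c (b (l 16975760) (l 17034128)) (b (b (l 16935632) (l 16958832)) (l 16994360))) (c (b (l 17037112) (l 17090032)) (b (l 16996920) (l 17038784)))) (b (c (a (l 17093656) (l 17144704)) (a (l 17041648) (l 17081600))) (c (a (l 17149584) (l 17196176)) (a (l 17086360) (l 17122312))))) (a (b (a (b (l 1) (l 17103048)) (l 1)) (c (b (l 17198256) (l 17244440)) (b (l 17121808) (l 17157472)))) (b (l 1) (c (l 17273888) (b (l 17161512) (l 17190512))))))), by decide +kernel⟩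

def k5_pm_101 : ∃ t, chk3 f_pm_101 t 4 6 1 = true :=
  ⟨(b (a (b (c (a (b (l 17010296) (l 17043592)) (l 17070896)) (a (b (l 16971792) (l 16999904)) (l 17022744))) (c (a (b (l 17075560) (l 17106200)) (l 17126464)) (a (c (l 17055696) (l 17026848)) (l 17072048)))) (b (c (a (l 17113592) (l 17155536)) (a (l 17058464) (l 17092920))) (c (a (l 17161912) (l 17197576)) (a (l 17101984) (l 17131296))))) (b (a (c (a (l 17149816) (l 17173992)) (a (c (l 17113712) (l 17080728)) (l 17119008))) (a (c (l 17200256) (l 17141208)) (c (l 17226792) (l 17163896)))) (a (c (a (c (l 17291848) (l 17282192)) (l 17338344)) (a (b (l 17142336) (a (l 17175688) (l 17195408))) (b (l 17154312) (a (l 17175600) (l 17179144))))) (a (c (l 17373728) (b (l 17168008) (l 17185688))) (c (l 17328440) (b (l 17184328) (l 17195920))))))), by decide +kernel⟩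

def k6_pm_101 : ∃ t, chk3 f_pm_101 t 4 7 1 = true :=
  ⟨(b (a (b (c (c (l 17417024) (l 17454088)) (a (c (l 17240512) (l 17298272)) (c (l 17228408) (l 17203168)))) (c (a (b (l 17353856) (l 17394216)) (c (l 17364384) (l 17312080))) (a (b (l 17278960) (a (l 17315640) (l 17302280))) (c (l 17278160) (l 17265360))))) (c (b (l 17448320) (c (l 17344264) (l 17351032))) (b (c (l 17348240) (a (l 17344936) (l 17197168))) (b (l 17438696) (l 17447848))))) (b (a (c (a (b (l 17482248) (c (l 17607392) (b (l 17491984) (l 17527080)))) (b (l 17428520) (b (l 17480344) (l 17512768)))) (a (b (a (l 17355080) (l 17338496)) (b (l 17380056) (a (c (l 17453920) (l 17380504)) (l 17394656)))) (b (c (l 17335768) (l 17295064)) (b (l 17342416) (a (l 17373392) (l 17351776)))))) (b (c (a (l 17374048) (l 17318752)) (a (l 17278376) (l 17241984))) (a (c (b (l 17423552) (l 17449384)) (b (l 17303912) (l 17318688))) (c (b (l 17367296) (l 17386160)) (l 17343512))))) (a (a (c (c (l 17645456) (l 17549544)) (c (l 17464344) (a (l 17400824) (l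 17380264)))) (c (l 17532616) (c (l 17414240) (l 17349536)))) (c (a (l 17469728) (l 17407624)) (a (l 17335248) (l 17290248)))))), by decide +kernel⟩

def k7_pm_101 : ∃ t, chk3 f_pm_101 t 5 3 1 = true :=
  ⟨(b (b (a (c (b (l 17218384) (l 17252360)) (a (b (l 17125712) (l 17159432)) (l 17236512))) (b (c (l 17304320) (l 17287104)) (c (a (l 17309272) (l 17344944)) (a (l 17213272) (l 17235640))))) (a (c (b (a (l 17255416) (l 17287432)) (l 17524528)) (b (a (l 17269896) (l 17208424)) (a (l 17204232) (l 17218528)))) (a (c (b (l 17322120) (l 17307536)) (b (l 17230664) (l 17233192))) (c (b (l 17354112) (l 17331984)) (b (l 17249560) (l 17246272)))))) (b (a (c (b (c (l 17256224) (l 17329976)) (l 17438592)) (a (b (l 17212904) (l 17358344)) (b (l 17216912) (b (l 17207360) (l 17196152))))) (c (b (l 17512280) (c (l 17215936) (l 17297432))) (b (a (l 17222920) (l 17228976)) (b (l 17414728) (a (l 17187680) (l 17181712)))))) (b (a (b (c (l 17316272) (l 17357696)) (c (a (l 17314000) (l 17248952)) (c (l 17258784) (l 17276512))))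 (b (c (l 17186096) (l 17368744)) (a (l 17402448) (l 17343968)))) (a (a (c (l 17346256) (l 17253096)) (c (l 17283584) (l 17199136))) (c (l 17331984) (l 17378512)))))), by decide +kernel⟩

def k8_pm_101 : ∃ t, chk3 f_pm_101 t 3 2 1 = true :=
  ⟨(a (b (l 1) (a (b (l 1) (b (l 1) (c (l 17357384) (a (l 17220360) (l 1))))) (l 1))) (l 1)), by decide +kernel⟩

def k9_pm_101 : ∃ t, chk3 f_pm_101 t 6 3 1 = true :=
  ⟨(b (b (a (b (c (l 17378840) (a (l 17238704) (l 17257904))) (c (a (l 17374520) (l 17399848)) (b (l 17258280) (a (l 17255504) (l 17266640))))) (a (b (l 1) (c (l 17421736) (b (l 1) (l 17273904)))) (l 1))) (a (b (c (l 17537336) (a (l 17261664) (l 17269328))) (c (l 17361744) (a (l 17255368) (l 17260328)))) (b (c (l 17462648) (a (l 17273120) (l 17273480))) (c (l 17427672) (a (l 17260928) (l 17257704)))))) (b (a (b (c (l 17373136) (a (l 17232624) (l 17233400))) (a (c (l 17267232) (l 17190024)) (c (l 17229744) (l 17184984)))) (a (b (c (l 17321456) (l 17230904)) (c (l 17232168) (l 17178048))) (b (c (l 17325872)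 (l 17224624)) (c (l 17232528) (l 17231440))))) (c (b (a (c (l 17240304) (l 17289728)) (b (l 17367440) (l 17099160))) (a (l 17187672) (l 17211040))) (b (b (a (b (l 17273056) (l 17357264)) (a (l 17181304) (l 17273384))) (a (c (l 17102600) (l 17164240)) (a (l 17078008) (l 17061696)))) (a (l 17270432) (a (l 17048240) (l 17108840))))))), by decide +kernel⟩

def k10_pm_101 : ∃ t, chk3 f_pm_101 t 7 3 1 = true :=
  ⟨(b (a (a (b (l 1) (b (l 1) (c (l 17394456) (l 69827845655)))) (l 1)) (l 1)) (b (a (a (b (c (l 17328456) (c (l 17242536) (l 17189280))) (c (l 17231216) (c (l 17175072) (l 17137880)))) (b (c (l 122978225767) (c (l 17322912) (l 103113789319))) (c (c (l 17252456) (l 17208048)) (c (l 111166723095) (b (l 17136832) (l 17103672)))))) (b (l 1) (a (a (b (l 1) (c (l 17192296) (l 146599973159))) (l 1)) (l 1)))) (a (c (b (b (a (l 17130720) (l 17251152)) (l 17292328)) (b (l 17196256) (l 17092544))) (b (b (a (c (l 17101896) (l 17164104)) (b (l 17088424) (a (l 17069312) (l 17060296)))) (a (l 17043648) (l 17023664)))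 (a (c (l 17021144) (l 17156720)) (b (a (l 16969752) (l 16957120)) (l 16959288))))) (b (a (a (b (c (l 17162248) (b (l 17075208) (c (l 17064408) (l 17037568)))) (c (l 17046216) (l 17007376))) (b (a (b (l 1) (b (l 1) (l 176664582167))) (l 1)) (l 6))) (b (l 1) (l 6))) (a (a (b (c (l 16964064) (l 16944328)) (c (l 16873584) (l 16936184))) (l 6)) (l 6)))))), by decide +kernel⟩

theorem s11_pm_101 : ∃ t, chk3 f_pm_101 t 3 3 1 = true := ex3_a k9_pm_101 k10_pm_101

theorem s12_pm_101 : ∃ t, chk3 f_pm_101 t 3 1 1 = true := ex3_b k8_pm_101 s11_pm_101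

theorem s13_pm_101 : ∃ t, chk3 f_pm_101 t 4 3 1 = true := ex3_b k5_pm_101 k6_pm_101

theorem s14_pm_101 : ∃ t, chk3 f_pm_101 t 2 3 1 = true := ex3_a s13_pm_101 k7_pm_101

theorem s15_pm_101 : ∃ t, chk3 f_pm_101 t 4 5 1 = true := ex3_b k2_pm_101 k3_pm_101

theorem s16_pm_101 : ∃ t, chk3 f_pm_101 t 4 4 1 = true := ex3_a k0_pm_101 k1_pm_101

theorem s17_pm_101 : ∃ t, chk3 f_pm_101 t 4 2 1 = true := ex3_b s16_pm_101 s15_pm_101

theorem s18_pm_101 : ∃ t, chk3 f_pm_101 t 2 2 1 = true := ex3_a s17_pm_101 k4_pm_101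

theorem s19_pm_101 : ∃ t, chk3 f_pm_101 t 2 1 1 = true := ex3_b s18_pm_101 s14_pm_101

theorem s20_pm_101 : ∃ t, chk3 f_pm_101 t 1 1 1 = true := ex3_a s19_pm_101 s12_pm_101

theorem c_pm_101 : CertN 536870912 536870912 536870912 536870912 201326592 134217728 3 false true false .npn 1 0 1
    ndN0q1 ndN0q1 pcN0 cut_pm_101 Ext.none :=
  certN0 (fam := false) (s1 := true) (s2 := false) (a := 1) (b := 0) (c := 1) (cn := .npn) (n1 := ndN0q1) (n2 := ndN0q1) (pc := pcN0) (cut := cut_pm_101) (xt := Ext.none) (P1 := 536870912) (W1 := 536870912) (P2 := 536870912) (W2 := 536870912) (P3 := 201326592) (W3 := 134217728) (N0 := 3)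
    rfl s20_pm_101

end Pool.Agent.Strip051.G.I3_16_5_16.Tab.C.NB00

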