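import Pool.Agent.Strip051.G.I3_16_5_16.Tab

/-! # Certificates N15 (generated) -/

set_option linter.all false
set_option maxRecDepth 100000

namespace Pool.Agent.Strip051.G.I3_16_5_16.Tab.C.NB00

open Pool.Agent.Strip051.PB Pool.Agent.Strip051.PB.T
open Pool.Agent.Strip051.G.I3_16_5_16.Tab

noncomputable def cut_pm_102 : Cut := Cut.of [[⟨0, 1, 0, 67108864⟩, ⟨1, 0, 0, 67108864⟩, ⟨2, 1, 0, 67108864⟩]]

noncomputable def f_pm_102 : ℕ → ℕ → ℕ → ℕ → Bool := onCell 536870912 536870912 0 536870912 201326592 134217728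
    (rowN 3 0 false true false .npp 1 0 2 (qsf 536870912 536870912 0 536870912 0) ndN0q1 ndN0q2 pcN0 cut_pm_102 Ext.none)

def k0_pm_102 : ∃ t, chk3 f_pm_102 t 4 2 1 = true :=
  ⟨(b (l 2) (a (l 2) (b (l 2) (a (l 2) (c (l 17071848) (l 17014696)))))), by decide +kernel⟩

def k1_pm_102 : ∃ t, chk3 f_pm_102 t 10 2 1 = true :=
  ⟨(b (b (a (a (l 2) (l 3)) (l 3)) (a (a (l 2) (a (b (l 2) (l 498853879319)) (c (b (b (l 86067230599) (l 49560006151)) (l 16866848)) (b (b (l 84456586727) (l 50633731815)) (l 16843480))))) (b (c (a (b (l 3) (a (b (l 83919748503) (l 16839088)) (l 86067229127))) (l 3)) (a (b (l 3) (a (b (l 82309103847) (l 16821648)) (l 84993456871))) (l 3))) (c (a (b (a (l 16849776) (l 53318102679)) (l 16860768)) (b (a (b (l 84456617607) (l 59760554167)) (l 86604098391)) (a (l 16847640) (b (l 61371165399) (l 16843064))))) (a (b (a (l 16829776) (l 52781208279)) (l 16838592)) (b (a (b (l 82845973671) (l 61371138375)) (l 85530326967)) (a (l 16828136) (b (l 62981749863) (l 16824616)))))))))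 (b (a (b (a (l 16912088) (l 16870456)) (c (l 16956296) (l 16918608))) (a (b (c (l 16885576) (l 16859216)) (l 16904304)) (b (b (a (l 16851016) (l 16842912)) (l 16861008)) (c (l 16898312) (l 16870360))))) (b (a (c (l 16995368) (l 16951640)) (a (l 16937928) (l 16915608))) (a (l 17009200) (c (l 16981192) (l 16940880)))))), by decide +kernel⟩

def k2_pm_102 : ∃ t, chk3 f_pm_102 t 11 4 1 = true :=
  ⟨(c (b (l 3) (a (b (l 3) (a (b (l 3) (a (b (l 84993486519) (l 63518648135)) (l 87140967479))) (l 3))) (l 3))) (b (l 3) (a (b (l 3) (a (b (l 3) (a (b (l 83919714279) (l 65129232887)) (l 86604067927))) (l 3))) (l 3)))), by decide +kernel⟩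

def k3_pm_102 : ∃ t, chk3 f_pm_102 t 11 10 1 = true :=
  ⟨(a (b (a (c (b (a (l 16845264) (b (l 66739881495) (l 16840840))) (l 16854824)) (b (a (l 16826320) (b (l 67276719655) (l 16822952))) (l 16834016))) (c (b (a (b (l 85530355255) (a (l 16835760) (l 72645457191))) (l 92509674727)) (a (l 16842696) (b (a (l 62981770359) (l 74792939335)) (l 16838488)))) (b (a (b (l 84993454871) (a (l 16819264) (l 73719167703))) (b (l 3) (l 90362163383))) (a (l 16824392) (b (a (l 65129225815) (l 75866650359)) (l 16821224)))))) (a (c (l 16877376) (l 16852904)) (c (b (l 16851520) (l 16865384)) (b (l 16831472) (l 16843064))))) (b (c (a (b (l 3) (a (b (l 91435933031) (a (l 65666123879) (l 76940421447))) (l 3))) (l 3)) (a (b (l 3) (a (b (l 90899033703) (a (l 67276708823) (l 77477262103))) (l 3))) (l 3))) (a (c (b (a (b (l 16837288) (l 16842848)) (b (a (l 69424231335) (l 84993483559)) (a (l 16837656) (l 16834592)))) (l 16847968)) (b (a (b (l 16820336) (l 16824584)) (b (a (l 70497941847) (l 83382841127)) (a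 (l 16820616) (l 58149902071)))) (a (l 16832088) (l 16825704)))) (b (a (b (l 3) (a (b (c (l 84993484087) (l 83382841367)) (c (l 64592378631) (l 66739834567))) (b (l 3) (c (l 84993483239) (l 83382840823))))) (l 3)) (a (b (c (c (l 62444911815) (l 62981767671)) (a (l 16819672) (b (l 68350447015) (l 16818368)))) (c (l 16839784) (l 16822280))) (b (a (c (c (l 74792944727) (l 74792928855)) (c (l 74792913815) (l 75329770503))) (a (c (l 84993481127) (l 82309097719)) (l 3))) (a (c (l 16835072) (l 16818736)) (b (c (a (l 16832000) (l 73719173399)) (c (l 71571688791) (l 72108545335))) (c (l 16833360) (l 16817520)))))))))), by decide +kernel⟩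

def k4_pm_102 : ∃ t, chk3 f_pm_102 t 11 11 1 = true :=
  ⟨(a (b (a (l 16894424) (c (l 16887720) (l 16862232))) (a (l 16925384) (l 16903384))) (b (a (c (l 16867608) (l 16845448)) (a (b (l 16827832) (l 16849600)) (b (c (l 16840816) (l 16823168)) (l 16841864)))) (a (l 16882552) (c (l 16874976) (l 16852896))))), by decide +kernel⟩

def k5_pm_102 : ∃ t, chk3 f_pm_102 t 2 3 1 = true :=
  ⟨(a (b (a (l 2) (b (a (l 2) (b (l 17100952) (a (l 17154568) (l 17125816)))) (c (a (l 17304448) (l 17240248)) (a (l 17205688) (l 17154512))))) (b (a (a (l 2) (c (l 17457024) (l 17327728))) (c (l 17361552) (a (l 17277320) (l 17227312)))) (b (a (c (c (l 17723944) (a (l 17548288) (l 17490040))) (a (c (l 118750713271) (b (l 17389072) (l 132709169591))) (c (l 17417816) (l 17350712)))) (c (l 17435312) (a (l 17335584) (l 17287744)))) (a (c (a (l 110697764135) (l 17544200)) (a (c (l 17478192) (l 80095771655)) (l 17394400))) (c (a (l 17485200) (l 17427416)) (a (l 17349480) (l 17305336))))))) (b (a (b (a (c (l 17095560)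 (b (l 17019056) (l 17053016))) (c (l 17016008) (b (l 16972528) (l 17004304)))) (a (c (l 17175568) (b (l 17086336) (l 17121320))) (b (c (l 17092560) (l 17036456)) (l 17100184)))) (b (a (c (b (l 16963312) (l 16996704)) (b (l 16928024) (l 16957512))) (a (b (l 16910424) (l 16938912)) (b (l 16888656) (l 16915136)))) (c (a (b (l 17029912) (l 17066608)) (b (l 16971792) (l 17004152))) (a (b (l 16987128) (l 17019024)) (l 16955928))))) (a (b (a (c (l 17268024) (l 17177720)) (c (l 17204024) (l 17127408))) (b (a (l 17290480) (l 17234432)) (c (l 17571304) (a (l 17261552) (l 17237392))))) (a (b (c (l 17137312) (l 17075944)) (b (l 17176336) (c (l 17251120) (l 17337216)))) (b (c (b (l 17045928) (l 17096352)) (l 17025056)) (b (l 17118536) (c (l 17189584) (l 17122144)))))))), by decide +kernel⟩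

def k6_pm_102 : ∃ t, chk3 f_pm_102 t 6 4 1 = true :=
  ⟨(l 3), by decide +kernel⟩

def k7_pm_102 : ∃ t, chk3 f_pm_102 t 12 10 1 = true :=
  ⟨(a (b (l 3) (a (b (l 3) (a (b (l 3) (a (b (c (l 84456599255) (a (l 82845968775) (l 3))) (c (c (l 73182331607) (l 73182315767)) (c (l 73719171671) (l 74256028375)))) (c (c (l 91435936999) (l 90362180503)) (c (l 89288424823) (l 89288411767))))) (l 3))) (l 3))) (l 3)), by decide +kernel⟩

def k8_pm_102 : ∃ t, chk3 f_pm_102 t 24 11 1 = true :=
  ⟨(b (a (b (a (b (a (c (l 16833800) (l 16816504)) (b (c (c (l 73719201335) (a (l 70497953239) (l 75329797447))) (c (a (l 71034809927) (l 75329782839)) (a (l 72108542775) (b (l 81772219687) (l 71571673015))))) (c (c (l 16836176) (l 16828016)) (c (l 16820288) (l 16812984))))) (c (l 16836520) (l 16819832))) (b (a (a (b (c (l 84456597223) (b (l 3) (l 83382832679))) (c (c (l 67813610375) (l 68887345975)) (c (l 69424202215) (l 71034801079)))) (b (l 3) (c (c (l 83919743239) (l 81772244695)) (c (l 80161617847) (l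 78550991783))))) (l 3)) (a (c (c (l 16835000) (l 16826936)) (c (l 16819312) (l 16812120))) (b (c (c (l 72645451287) (l 73182307543)) (c (l 73719164599) (l 74256022439))) (c (c (l 16831736) (l 16824112)) (c (l 16816904) (l 16810104))))))) (c (a (l 16843528) (l 16834536)) (a (l 16825616) (l 16818448)))) (b (a (b (l 3) (a (c (c (l 84456605527) (l 82309108039)) (c (l 80698482263) (l 79624728183))) (l 3))) (l 3)) (c (a (a (c (l 60297411687) (l 61371141047)) (b (c (l 71034830775) (l 71571687799)) (l 16825928))) (b (a (l 83382848263) (l 3)) (a (b (l 66739841383) (l 16822872)) (b (l 82845974167) (l 68887332903))))) (a (b (a (b (l 61907996775) (l 16812864)) (b (l 80161602439) (l 68887318695))) (l 16813376)) (b (a (l 86067189367) (l 3)) (a (l 68350448375) (b (l 79624725207) (l 70497920999)))))))) (a (c (l 16854464) (b (l 16830728) (l 16840904))) (b (a (c (l 16834392) (l 16818816)) (b (c (l 16823536) (l 16810016)) (l 16820232))) (c (l 16839520) (l 16823864))))), by decide +kernel⟩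

def k9_pm_102 : ∃ t, chk3 f_pm_102 t 25 11 1 = true :=
  ⟨(b (a (b (l 3) (a (a (b (l 3) (c (l 86604065559) (l 86067172887))) (l 3)) (l 3))) (l 3)) (a (c (b (a (b (a (b (l 69961070535) (l 16818584)) (l 83919708823)) (l 16813976)) (b (l 3) (a (l 69424192679) (l 84456571703)))) (a (l 16825496) (c (l 56539292279) (l 58686775223)))) (b (a (b (a (l 69424187287) (l 80698482215)) (l 16811952)) (b (l 3) (a (l 70497912231) (l 81235326103)))) (a (l 16812120) (b (l 63518606039) (l 16806840))))) (c (b (l 3) (a (b (a (l 71034797303) (l 84456564007)) (a (l 16812840) (l 67276705319))) (b (l 3) (a (l 84456562231) (l 81235331335))))) (b (l 3) (a (b (a (l 72108518727) (l 78550986871)) (a (l 16801824) (l 69961047815))) (b (l 3) (a (l 81772189111) (l 84993411943)))))))), by decide +kernel⟩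

def k10_pm_102 : ∃ t, chk3 f_pm_102 t 13 5 1 = true :=
  ⟨(l 3), by decide +kernel⟩

def k11_pm_102 : ∃ t, chk3 f_pm_102 t 7 2 1 = true :=
  ⟨(l 3), by decide +kernel⟩

def k12_pm_102 : ∃ t, chk3 f_pm_102 t 12 6 1 = true :=
  ⟨(b (c (a (b (a (l 16878168) (l 16856368)) (a (l 16904336) (l 16881152))) (b (a (b (l 16830672) (l 16841520)) (b (a (l 16817056) (b (a (l 16808816) (l 68350433847)) (l 16810784))) (l 16822328))) (b (a (l 16853184) (l 16833128)) (l 16896744)))) (a (b (a (l 16858032) (l 16839752)) (l 16851840)) (b (a (b (l 16817344) (l 16827712)) (b (a (l 16805712) (b (a (l 16798704) (l 71571655079)) (l 16800552))) (a (l 16815168) (l 16807184)))) (a (l 16844824) (l 16827168))))) (b (a (l 16908152) (c (l 16873808) (l 16859672))) (a (l 16936016) (l 16891856)))), by decide +kernel⟩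

def k13_pm_102 : ∃ t, chk3 f_pm_102 t 13 12 1 = true :=
  ⟨(a (b (a (c (b (a (b (a (l 84456554663) (l 3)) (a (l 16804904) (l 70497909815))) (b (l 3) (a (l 79087848903) (l 3)))) (a (l 16809096) (b (a (l 68350433927) (b (l 83919674103) (l 71034782183))) (l 16803056)))) (b (a (b (a (l 74256011639) (l 3)) (a (l 16795672) (l 71034763815))) (b (l 3) (a (l 81772178455) (l 3)))) (a (l 16799624) (b (a (l 69961033191) (l 75866617335)) (l 16794608))))) (b (l 3) (a (b (a (c (l 89825250583) (l 94657077399)) (l 3)) (a (c (l 68350418295) (l 67813542135)) (c (l 80698458423) (l 82845934055)))) (l 3)))) (c (a (b (a (l 16819032) (l 16810088)) (l 16825256)) (b (a (b (l 62981714647) (l 16803912)) (b (a (b (l 76940344263) (l 16794728)) (l 91435875815)) (a (l 16797752) (l 67813542551)))) (a (l 16811552) (l 16823800)))) (a (b (a (l 16809216) (l 16801368)) (l 16815720)) (b (a (b (l 62981700919) (l 16796160)) (a (c (l 63518568311) (l 80698458807)) (b (l 103247025511) (l 81772196295)))) (a (l 16782664) (l 16795904))))))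 (b (l 3) (a (b (a (b (l 3) (c (a (l 83919681543) (l 107005131559)) (a (l 91435862471) (l 118279386551)))) (l 3)) (a (b (a (c (l 16794248) (l 16788040)) (c (b (l 66739789815) (l 16791472)) (l 69424155575))) (c (l 16796864) (l 16790816))) (b (a (c (l 100025802663) (l 104857631399)) (l 3)) (c (a (l 74792873511) (l 76940358199)) (a (l 16795888) (l 77477224311)))))) (b (l 3) (a (b (l 3) (a (c (l 112910691671) (l 105394497799)) (l 3))) (l 3)))))), by decide +kernel⟩

def k14_pm_102 : ∃ t, chk3 f_pm_102 t 13 13 1 = true :=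
  ⟨(a (a (b (l 16858056) (l 16861488)) (b (c (l 16823656) (l 16815800)) (l 16842472))) (b (a (c (b (a (l 16825512) (b (l 16814448) (l 16798528))) (l 16810968)) (b (a (l 16798368) (l 16801224)) (l 16804992))) (c (b (a (b (a (l 80698452983) (l 101099537511)) (c (l 16802152) (l 16799320))) (b (a (l 126332465767) (l 3)) (a (b (l 82845925223) (l 16795832)) (b (l 3) (l 89288373127))))) (a (l 16797904) (a (l 16791584) (b (l 77477222807) (l 16789968))))) (b (a (b (a (l 83919672439) (l 95730819927)) (l 16796232)) (b (l 121500619847) (a (l 90362118119) (l 104320748519)))) (a (l 16793344) (b (l 77477224487) (l 16788448)))))) (a (b (l 16818584) (l 16830200)) (a (l 16853488) (b (l 16818664) (l 16808616)))))), by decide +kernel⟩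

def k15_pm_102 : ∃ t, chk3 f_pm_102 t 6 7 1 = true :=
  ⟨(b (b (a (a (c (l 16984856) (l 16957096)) (c (l 16931376) (l 16912912))) (a (l 16919560) (a (l 16848776) (l 16872552)))) (a (c (l 17003672) (l 16972048)) (a (c (l 16921096) (l 16904320)) (a (l 16919424) (l 16898840))))) (a (c (b (l 17059328) (a (l 17194240) (l 17075872))) (b (l 17016432) (a (l 17076096) (l 17030896)))) (a (b (l 16959720) (c (l 17022456) (l 16986424))) (c (b (l 16920672) (l 16970544)) (b (l 16902080) (l 17005776)))))), by decide +kernel⟩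

def k16_pm_102 : ∃ t, chk3 f_pm_102 t 7 6 1 = true :=
  ⟨(a (b (l 3) (a (b (a (b (l 3) (a (c (b (a (b (l 98952048151) (l 84456536599)) (b (l 3) (l 107005107495))) (a (l 16785856) (l 84993412039))) (b (a (b (l 102710115239) (l 16789512)) (l 126332435351)) (l 85530285943))) (a (b (l 3) (c (b (l 115058165863) (l 82309045751)) (l 107005105319))) (l 3)))) (l 3)) (a (c (b (a (l 16812584) (b (a (l 16793264) (b (l 98415169959) (l 83919658903))) (l 16806888))) (l 16819216)) (b (a (l 16811784) (b (a (l 16793248) (b (l 108078830455) (l 84993403623))) (l 16797544))) (a (l 16802920) (l 16796072)))) (b (c (a (b (a (b (l 3) (l 108078846599)) (l 3)) (a (l 86604017095) (b (l 127943051047) (l 87140884327)))) (l 3)) (a (b (a (l 135459268199) (l 3)) (a (l 85530282887) (b (l 136532990855) (l 96804564263)))) (l 3))) (c (a (b (a (l 16785800) (l 16793304)) (l 16789896)) (b (a (b (l 103783883863) (l 83919658919)) (b (l 3) (l 117205647879))) (a (l 16785376) (b (l 88751497831) (l 16783736))))) (a (b (c (l 16785920)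 (a (l 16788168) (l 16784712))) (l 16792184)) (b (a (b (a (l 93046468503) (l 121500607207)) (l 83919665399)) (b (l 3) (l 117742527511))) (a (l 16797488) (b (a (l 16783032) (l 90362115415)) (l 16785040))))))))) (c (b (l 3) (a (b (l 3) (a (b (l 3) (a (b (l 133311776423) (a (l 16788736) (l 106468240855))) (l 142975453319))) (l 3))) (l 3))) (b (l 3) (a (b (l 3) (a (b (l 3) (a (b (l 132238037639) (a (l 83919660663) (l 103783883607))) (l 141901713799))) (l 3))) (l 3)))))) (l 3)), by decide +kernel⟩

def k17_pm_102 : ∃ t, chk3 f_pm_102 t 28 14 1 = true :=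
  ⟨(b (a (b (l 16851808) (l 16821616)) (b (a (l 16831488) (b (c (l 16789392) (l 16791168)) (l 16817256))) (a (l 16811656) (l 16825896)))) (a (l 16902216) (b (l 16840888) (l 16831608)))), by decide +kernel⟩

def k18_pm_102 : ∃ t, chk3 f_pm_102 t 58 28 1 = true :=
  ⟨(b (a (c (b (a (b (l 16793920) (l 16786160)) (b (a (l 88214627143) (l 120426876343)) (l 83382792039))) (l 16799184)) (c (b (a (l 16785792) (b (a (l 90362099015) (l 118816255031)) (l 66739780087))) (l 16800320)) (b (a (l 16786000) (b (a (l 86604009575) (l 118279384615)) (l 64592297751))) (l 16787440)))) (c (b (a (b (l 3) (a (l 105394490183) (l 135459252487))) (l 3)) (a (b (a (l 16793960) (l 91435852855)) (l 16795848)) (b (a (l 119890007079) (l 3)) (a (l 83919659959) (b (l 123648093207) (l 87140883223)))))) (b (a (b (l 3) (a (b (l 124184964583) (l 86604012215)) (l 135996125207))) (l 3)) (a (b (a (l 16784224) (b (l 96804562743) (l 16783296))) (l 16786152)) (b (a (b (l 3) (l 109152584071)) (l 3)) (b (a (l 76940329223) (l 123111223591))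 (c (l 79624684839) (l 78014073239)))))))) (c (a (l 16796840) (b (b (a (l 16788048) (a (l 16785680) (l 16789368))) (l 16789144)) (l 16793152))) (a (l 16798816) (b (a (l 16790464) (b (c (l 16785448) (l 16785440)) (l 16788312))) (c (l 16794296) (l 16794512)))))), by decide +kernel⟩

def k19_pm_102 : ∃ t, chk3 f_pm_102 t 59 28 1 = true :=
  ⟨(b (a (b (l 3) (a (b (l 3) (a (c (l 134922383079) (l 135459255095)) (l 3))) (l 3))) (l 3)) (a (b (a (c (b (a (b (l 98952038231) (l 16788504)) (b (l 3) (l 110763201671))) (a (l 16785168) (b (l 84456527623) (l 16784256)))) (b (a (b (a (l 78550941735) (l 100025784231)) (l 65666038295)) (a (b (l 3) (l 86604010951)) (l 133311771671))) (a (l 16785648) (c (l 69961006759) (l 67276652103))))) (b (l 3) (c (a (b (l 118816266663) (l 89288365463)) (l 134922384199)) (c (a (b (l 118279386007) (l 81772162839)) (l 135996126583)) (a (b (l 118279385895) (l 79624684263)) (l 136532997239)))))) (c (a (l 16798800) (b (a (l 16789856) (b (a (l 84456524439) (l 111300062839))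 (l 79624689655))) (l 16796888))) (a (b (l 16787560) (l 16790408)) (b (a (c (l 16784936) (l 16784816)) (a (c (l 71571619255) (l 68887264503)) (b (b (l 116131902343) (l 91972720439)) (l 71034748807)))) (c (l 16786784) (l 16786672)))))) (b (l 3) (a (b (b (l 3) (a (c (a (l 96804558295) (l 126869320487)) (a (b (l 98415166567) (l 76403455927)) (c (l 117205644503) (l 117205644231)))) (l 3))) (c (c (a (l 74792843415) (b (l 119889998583) (l 90898968183))) (a (l 73719103815) (b (l 119889999127) (l 89825237335)))) (c (a (b (l 77477199335) (l 16784856)) (b (l 124184966535) (a (l 16783672) (l 88751490087)))) (a (b (l 74792844455) (l 16784680)) (b (a (b (l 3) (l 91972709991)) (l 3)) (a (l 16783488) (b (l 98952032327) (l 79624681799)))))))) (b (l 3) (a (a (c (a (l 127943062919) (l 3)) (c (l 134385514151) (l 134922384647))) (l 3)) (l 3))))))), by decide +kernel⟩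

def k20_pm_102 : ∃ t, chk3 f_pm_102 t 29 29 1 = true :=
  ⟨(a (b (a (l 16830488) (b (l 16820632) (l 16805312))) (l 16859384)) (b (a (b (a (l 16815344) (c (l 16811288) (l 16791008))) (l 16819104)) (b (a (b (c (c (l 16785528) (l 16785880)) (a (l 16786840) (c (l 16785096) (l 16784904)))) (c (l 16788240) (l 16788648))) (b (b (a (c (a (b (l 86604007703) (l 16783456)) (b (l 3) (l 97341429351))) (a (b (c (l 82845907831) (l 80161549831)) (l 16784792)) (b (l 3) (c (l 96267677367) (l 95193935271))))) (l 3)) (c (a (c (l 16783672) (l 16783904)) (a (b (l 103783880535) (l 80698423127)) (l 127406190983))) (a (c (l 68887262023) (l 66202906855)) (a (a (c (l 81235294807) (l 78550936631)) (b (l 3) (l 79087811287))) (b (l 3) (a (l 103783875399) (l 3))))))) (c (a (l 16785528) (b (c (l 81235294071) (l 79624682903)) (l 16784280))) (a (l 16785688) (b (a (l 16783624) (b (c (l 83919648951) (l 81235290807)) (l 71571617399))) (l 16784360)))))) (a (c (l 16791936) (l 16792744)) (b (c (l 16797480) (l 16787320))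 (l 16805608))))) (a (l 16837792) (a (l 16831944) (b (l 16814808) (l 16799216)))))), by decide +kernel⟩

def k21_pm_102 : ∃ t, chk3 f_pm_102 t 30 28 1 = true :=
  ⟨(l 3), by decide +kernel⟩

def k22_pm_102 : ∃ t, chk3 f_pm_102 t 60 58 1 = true :=
  ⟨(a (b (a (b (l 3) (a (a (c (b (b (l 3) (l 99488912183)) (l 75866583719)) (b (b (l 3) (a (l 80698423751) (l 105394487815))) (c (l 16783048) (l 67813518359)))) (b (l 3) (c (b (l 115595029607) (l 84993393319)) (a (c (l 81772161543) (l 80161553767)) (b (l 3) (l 82309036215)))))) (b (l 3) (c (l 133311775335) (c (l 133848641111) (l 134385511639)))))) (l 3)) (a (c (c (b (a (l 16784040) (b (a (l 83382773687) (l 118816254535)) (l 16782840))) (l 16785456)) (b (a (l 16784304) (b (a (l 81772161335) (l 118816254919)) (l 72645357095))) (l 16785824))) (c (b (a (l 16784352) (b (a (l 79624682967) (l 118816254967)) (l 69961002663))) (l 16785952)) (b (a (l 16784192) (b (a (b (l 83919644535) (l 16782496)) (b (l 3) (l 100562648119))) (l 67813519415))) (l 16785856))))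 (b (b (l 3) (a (c (a (b (l 118279383367) (l 87677747671)) (l 132238027255)) (c (a (b (l 109152578071) (l 81772163575)) (l 132774898311)) (b (l 127406189015) (a (l 79087808727) (l 119353125031))))) (l 3))) (a (c (b (a (l 16782736) (b (l 97878295335) (l 16782144))) (l 16783448)) (b (a (l 16782776) (c (l 87140874871) (b (l 87140874455) (l 16782072)))) (l 16783544))) (c (c (b (l 126869317527) (a (l 16781992) (l 111300059783))) (b (l 126869317847) (a (l 77477195207) (l 110763189255)))) (c (b (l 127406191383) (a (l 74792840663) (b (l 113447539287) (l 84993388839)))) (b (a (c (l 121500608471) (l 122037479159)) (l 3)) (a (l 72108485975) (b (a (l 104857609415) (l 3)) (l 81235288599)))))))))) (b (l 3) (a (b (l 3) (a (b (l 3) (c (l 137069864439) (a (l 135996122679) (l 3)))) (l 3))) (l 3)))), by decide +kernel⟩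

def k23_pm_102 : ∃ t, chk3 f_pm_102 t 120 59 1 = true :=
  ⟨(c (b (a (l 16789376) (a (l 16797000) (b (c (l 16783232) (l 16783472)) (l 16785848)))) (l 16792528)) (b (a (l 16800520) (b (a (l 16785552) (c (l 16783536) (l 16783416))) (l 16787256))) (a (l 16795648) (l 16812424)))), by decide +kernel⟩

def k24_pm_102 : ∃ t, chk3 f_pm_102 t 121 59 1 = true :=
  ⟨(b (a (b (b (a (c (a (c (l 94120190279) (l 91972706951)) (b (l 3) (l 116668774311))) (c (a (b (l 107005092439) (l 16781784)) (l 124184962327)) (a (b (a (l 79087806983) (l 107541963623)) (l 16781648)) (l 124721832967)))) (l 3)) (a (c (c (l 84993391271) (l 78014066647)) (a (l 16782640) (c (l 77477195191) (l 74792840519)))) (a (c (c (l 113984413991) (l 113447543399)) (b (l 126332448103) (a (l 75329710535) (c (l 101099511863) (l 100562640775))))) (l 3)))) (c (a (l 16789168) (b (a (c (l 16781784) (l 16781952)) (b (a (l 90362099671) (l 122037477591)) (l 85530261703))) (l 16787872))) (c (a (l 16784144) (b (a (l 16781976) (b (l 111300059127)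 (l 16781360))) (l 16782768))) (a (l 16784064) (b (a (l 16781848) (b (l 110763188039) (l 72645354791))) (l 16782664)))))) (b (l 3) (a (c (c (b (l 132238024791) (a (l 87140869143) (l 116668767911))) (b (l 132238025015) (a (l 84456517159) (l 116668768199)))) (c (b (l 131701154071) (a (l 81772163111) (b (l 131701153831) (l 98415156471)))) (b (a (l 127406186631) (l 3)) (a (b (l 82309032983) (l 16781464)) (b (l 132238024503) (l 96804546167)))))) (l 3)))) (a (b (a (l 16797256) (c (l 16794984) (l 16784784))) (l 16801552)) (b (c (a (a (l 16788288) (c (l 16781312) (l 16782152))) (b (b (c (l 124721831367) (l 125258702535)) (a (l 87677745351) (l 124721831239))) (a (l 16781736) (c (l 89288350679) (l 89825224135))))) (a (b (c (l 16782048) (l 64592290247)) (l 16783368)) (c (b (a (b (l 115595025943) (l 79624677031)) (l 130627411463)) (a (l 16781840) (b (l 91972705047) (l 16781160)))) (b (a (b (l 115595025735) (l 76940322263)) (l 131164282119)) (a (l 16781736) (b (l 90362092119) (l 16781048)))))))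 (a (c (l 16785088) (l 16785456)) (c (l 16788376) (b (l 16782648) (l 16784032))))))), by decide +kernel⟩

def k25_pm_102 : ∃ t, chk3 f_pm_102 t 61 29 1 = true :=
  ⟨(b (l 3) (a (b (l 3) (a (b (b (l 3) (a (a (c (c (l 119889992663) (l 119889992919)) (b (l 136532991063) (c (l 110226315911) (l 109689450103)))) (l 3)) (l 3))) (a (b (c (b (a (l 86067131879) (a (l 111836933543) (l 3))) (c (l 83919641735) (l 83382772359))) (c (a (l 16781128) (b (l 120426863447) (l 87677739239))) (a (l 69960999335) (b (l 120426863255) (l 84993383815))))) (c (c (l 16781704) (l 16781880)) (c (l 16781936) (l 16781856)))) (a (b (b (l 3) (c (l 131164281383) (l 131701154919))) (c (b (a (l 87677743127) (l 115058158919)) (l 82845905895)) (b (a (l 80698418519) (b (l 120426862967) (l 91435837431))) (c (l 16780728) (l 16780640))))) (b (l 3) (b (l 3) (c (a (l 101636386231) (l 129553668231)) (c (l 115058153719) (l 115058153543)))))))) (l 3))) (l 3))), by decide +kernel⟩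

def k26_pm_102 : ∃ t, chk3 f_pm_102 t 31 14 1 = true :=
  ⟨(l 3), by decide +kernel⟩

def k27_pm_102 : ∃ t, chk3 f_pm_102 t 14 15 1 = true :=
  ⟨(b (b (a (a (l 16862040) (l 16863176)) (a (l 16849816) (a (l 16817400) (l 16830472)))) (a (c (l 16882112) (l 16869448)) (a (l 16882608) (l 16886456)))) (b (a (l 16902840) (a (l 16867256) (l 16869840))) (a (c (l 16932984) (l 16911240)) (c (l 16989448) (l 16996048))))), by decide +kernel⟩

def k28_pm_102 : ∃ t, chk3 f_pm_102 t 60 30 1 = true :=
  ⟨(b (a (b (l 16819632) (l 16804224)) (b (a (l 16813504) (b (c (l 16786680) (l 16797704)) (l 16800272))) (l 16816992))) (b (l 16841224) (l 16853488))), by decide +kernel⟩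

def k29_pm_102 : ∃ t, chk3 f_pm_102 t 122 60 1 = true :=
  ⟨(b (a (c (b (a (l 16794208) (b (a (l 16781600) (b (l 88214615207) (l 16780936))) (l 16787632))) (l 16785320)) (b (a (l 16789248) (b (a (l 16781704) (c (l 79087805879) (l 75866580279))) (l 16782568))) (l 16793640))) (b (a (b (c (a (b (a (l 118279384103) (l 3)) (a (l 83382774951) (l 104320739831))) (l 138143607687)) (c (a (b (l 125258700887) (l 91972703927)) (l 139217344231)) (a (b (l 125795571607) (a (l 16780184) (l 100562638199))) (l 139754214887)))) (c (a (c (l 16780816) (l 16780960)) (b (a (l 91972710119) (l 122037480167)) (l 86604001463))) (c (a (l 16780992) (b (l 109689449047) (l 16780304))) (a (l 16780920) (b (a (l 88214608183) (l 122574345767)) (l 16780224)))))) (a (a (b (l 3) (b (l 3) (c (l 108615706935) (b (l 124184958423) (l 90898966615))))) (l 3)) (l 3))) (a (c (b (l 16786936) (l 16782984)) (c (l 16779912) (l 16782512))) (b (a (c (b (a (l 16780136) (l 99488901863)) (l 16780520)) (b (c (l 89288350919) (l 87140867271))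 (l 16780576))) (c (b (l 130090543495) (a (l 88751483671) (l 116131898263))) (a (b (l 126332447143) (c (l 16781168) (l 79087803495))) (c (l 125795570967) (l 125795570791))))) (a (c (l 16781488) (l 16781624)) (c (b (l 83382775655) (l 16780808)) (c (l 16780568) (l 16780512)))))))) (a (c (l 16789256) (l 16790096)) (b (a (l 16795736) (b (c (l 16787536) (l 16787752)) (l 16794320))) (c (l 16786592) (l 16797688))))), by decide +kernel⟩

def k30_pm_102 : ∃ t, chk3 f_pm_102 t 123 120 1 = true :=
  ⟨(a (b (l 3) (a (b (l 3) (c (c (a (b (l 116668765079) (l 86603994471)) (l 130090537687)) (a (b (l 116131894343) (l 86067124567)) (l 130627408711))) (c (a (b (l 115595023431) (l 83919641271)) (l 131164279575)) (a (b (l 115595025911) (l 81235286567)) (l 131701150279))))) (l 3))) (l 3)), by decide +kernel⟩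

def k31_pm_102 : ∃ t, chk3 f_pm_102 t 246 121 1 = true :=
  ⟨(b (a (b (a (c (l 16783400) (c (l 16780888) (l 16780848))) (c (b (a (l 84456515607) (b (l 120963732071) (l 91435836919))) (l 16782728)) (a (c (l 16780096) (l 16780040)) (b (b (l 120963737351) (l 90362095431)) (l 16779888))))) (c (l 16786832) (c (l 16781752) (l 16781736)))) (b (a (c (b (l 137069864583) (a (b (l 104320738103) (l 16782144)) (l 123648090407))) (a (b (l 135996117543) (c (l 94120187911) (l 91972704135))) (c (l 131164279287) (l 131164279111)))) (l 3)) (a (c (c (l 84993386535) (l 76940318327)) (c (l 76403448375) (l 72645351463))) (c (b (c (l 122037473559) (l 122037473703)) (a (l 16782272) (b (l 112373802135) (l 87677739623)))) (c (b (l 122037473703) (l 92509575383)) (b (l 122037476183) (a (l 16779640) (l 97341412887)))))))) (a (c (l 16783568) (l 16789160)) (b (a (c (l 16781384) (l 16781560)) (c (c (l 16780296) (l 16780424)) (c (l 16780472) (l 16780432)))) (c (l 16792688) (l 16787696))))), by decide +kernel⟩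

def k32_pm_102 : ∃ t, chk3 f_pm_102 t 247 121 1 = true :=
  ⟨(b (a (a (a (c (c (l 136532987927) (l 138143600647)) (c (l 137606729575) (l 139217342023))) (l 3)) (l 3)) (l 3)) (a (b (c (a (a (c (l 88751481303) (l 82845897927)) (b (b (l 133848633319) (l 105394479943)) (l 84456514791))) (b (l 3) (a (b (l 118816252903) (l 90898965047)) (l 132238025639)))) (c (a (b (a (l 87677736503) (l 117742506071)) (l 16779752)) (b (l 3) (a (l 102173249255) (l 133311762231)))) (a (b (a (l 84993381911) (l 117742505943)) (l 16779704)) (b (l 3) (a (l 100562636423) (l 133848632999)))))) (a (c (l 16785920) (l 16783424)) (c (b (a (l 16782208) (b (l 103246995447) (l 16781872))) (l 16782608)) (b (a (l 16782248) (c (l 93046445239) (l 90898961559))) (l 16782688))))) (b (l 3) (c (a (b (c (l 127943052903) (l 127943052999)) (a (l 86067127207) (b (l 124721832631) (l 6)))) (b (l 3) (l 6))) (c (a (b (l 128479923879) (a (l 16779280) (l 108078829159))) (l 141364825271)) (a (b (l 128479923735) (a (l 16779232) (l 110763183623)))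 (l 141901695943))))))), by decide +kernel⟩

def k33_pm_102 : ∃ t, chk3 f_pm_102 t 61 61 1 = true :=
  ⟨(a (b (c (l 16792608) (l 16793776)) (l 16820008)) (b (a (a (l 16801128) (c (l 16785544) (l 16786096))) (b (a (b (c (l 16786744) (l 16786944)) (l 16790912)) (b (b (a (a (c (l 16779888) (l 16779960)) (l 6)) (l 6)) (l 6)) (l 6))) (l 6))) (a (l 16813632) (l 6)))), by decide +kernel⟩

def k34_pm_102 : ∃ t, chk3 f_pm_102 t 30 31 1 = true :=
  ⟨(b (a (b (l 16857216) (l 16847936)) (b (a (l 16825840) (l 6)) (l 6))) (a (b (l 16841720) (l 16913456)) (l 6))), by decide +kernel⟩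

def k35_pm_102 : ∃ t, chk3 f_pm_102 t 31 15 1 = true :=
  ⟨(b (b (l 3) (l 6)) (l 6)), by decide +kernel⟩

theorem s36_pm_102 : ∃ t, chk3 f_pm_102 t 123 121 1 = true := ex3_a k31_pm_102 k32_pm_102

theorem s37_pm_102 : ∃ t, chk3 f_pm_102 t 123 60 1 = true := ex3_b k30_pm_102 s36_pm_102

theorem s38_pm_102 : ∃ t, chk3 f_pm_102 t 61 60 1 = true := ex3_a k29_pm_102 s37_pm_102

theorem s39_pm_102 : ∃ t, chk3 f_pm_102 t 61 30 1 = true := ex3_b s38_pm_102 k33_pm_102

theorem s40_pm_102 : ∃ t, chk3 f_pm_102 t 30 30 1 = true := ex3_a k28_pm_102 s39_pm_102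

theorem s41_pm_102 : ∃ t, chk3 f_pm_102 t 30 15 1 = true := ex3_b s40_pm_102 k34_pm_102

theorem s42_pm_102 : ∃ t, chk3 f_pm_102 t 15 15 1 = true := ex3_a s41_pm_102 k35_pm_102

theorem s43_pm_102 : ∃ t, chk3 f_pm_102 t 7 15 1 = true := ex3_a k27_pm_102 s42_pm_102

theorem s44_pm_102 : ∃ t, chk3 f_pm_102 t 60 59 1 = true := ex3_a k23_pm_102 k24_pm_102

theorem s45_pm_102 : ∃ t, chk3 f_pm_102 t 60 29 1 = true := ex3_b k22_pm_102 s44_pm_102

theorem s46_pm_102 : ∃ t, chk3 f_pm_102 t 30 29 1 = true := ex3_a s45_pm_102 k25_pm_102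

theorem s47_pm_102 : ∃ t, chk3 f_pm_102 t 30 14 1 = true := ex3_b k21_pm_102 s46_pm_102

theorem s48_pm_102 : ∃ t, chk3 f_pm_102 t 15 14 1 = true := ex3_a s47_pm_102 k26_pm_102

theorem s49_pm_102 : ∃ t, chk3 f_pm_102 t 29 28 1 = true := ex3_a k18_pm_102 k19_pm_102

theorem s50_pm_102 : ∃ t, chk3 f_pm_102 t 29 14 1 = true := ex3_b s49_pm_102 k20_pm_102

theorem s51_pm_102 : ∃ t, chk3 f_pm_102 t 14 14 1 = true := ex3_a k17_pm_102 s50_pm_102

theorem s52_pm_102 : ∃ t, chk3 f_pm_102 t 7 14 1 = true := ex3_a s51_pm_102 s48_pm_102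

theorem s53_pm_102 : ∃ t, chk3 f_pm_102 t 7 7 1 = true := ex3_b s52_pm_102 s43_pm_102

theorem s54_pm_102 : ∃ t, chk3 f_pm_102 t 7 3 1 = true := ex3_b k16_pm_102 s53_pm_102

theorem s55_pm_102 : ∃ t, chk3 f_pm_102 t 13 6 1 = true := ex3_b k13_pm_102 k14_pm_102

theorem s56_pm_102 : ∃ t, chk3 f_pm_102 t 6 6 1 = true := ex3_a k12_pm_102 s55_pm_102

theorem s57_pm_102 : ∃ t, chk3 f_pm_102 t 6 3 1 = true := ex3_b s56_pm_102 k15_pm_102

theorem s58_pm_102 : ∃ t, chk3 f_pm_102 t 3 3 1 = true := ex3_a s57_pm_102 s54_pm_102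

theorem s59_pm_102 : ∃ t, chk3 f_pm_102 t 12 11 1 = true := ex3_a k8_pm_102 k9_pm_102

theorem s60_pm_102 : ∃ t, chk3 f_pm_102 t 12 5 1 = true := ex3_b k7_pm_102 s59_pm_102

theorem s61_pm_102 : ∃ t, chk3 f_pm_102 t 6 5 1 = true := ex3_a s60_pm_102 k10_pm_102

theorem s62_pm_102 : ∃ t, chk3 f_pm_102 t 6 2 1 = true := ex3_b k6_pm_102 s61_pm_102

theorem s63_pm_102 : ∃ t, chk3 f_pm_102 t 3 2 1 = true := ex3_a s62_pm_102 k11_pm_102

theorem s64_pm_102 : ∃ t, chk3 f_pm_102 t 3 1 1 = true := ex3_b s63_pm_102 s58_pm_102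

theorem s65_pm_102 : ∃ t, chk3 f_pm_102 t 11 5 1 = true := ex3_b k3_pm_102 k4_pm_102

theorem s66_pm_102 : ∃ t, chk3 f_pm_102 t 11 2 1 = true := ex3_b k2_pm_102 s65_pm_102

theorem s67_pm_102 : ∃ t, chk3 f_pm_102 t 5 2 1 = true := ex3_a k1_pm_102 s66_pm_102

theorem s68_pm_102 : ∃ t, chk3 f_pm_102 t 2 2 1 = true := ex3_a k0_pm_102 s67_pm_102

theorem s69_pm_102 : ∃ t, chk3 f_pm_102 t 2 1 1 = true := ex3_b s68_pm_102 k5_pm_102

theorem s70_pm_102 : ∃ t, chk3 f_pm_102 t 1 1 1 = true := ex3_a s69_pm_102 s64_pm_102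

theorem c_pm_102 : CertN 536870912 536870912 0 536870912 201326592 134217728 3 false true false .npp 1 0 2
    ndN0q1 ndN0q2 pcN0 cut_pm_102 Ext.none :=
  certN0 (fam := false) (s1 := true) (s2 := false) (a := 1) (b := 0) (c := 2) (cn := .npp) (n1 := ndN0q1) (n2 := ndN0q2) (pc := pcN0) (cut := cut_pm_102) (xt := Ext.none) (P1 := 536870912) (W1 := 536870912) (P2 := 0) (W2 := 536870912) (P3 := 201326592) (W3 := 134217728) (N0 := 3)
    rfl s70_pm_102

noncomputable def f_pm_112 : ℕ → ℕ → ℕ → ℕ → Bool := onCell 536870912 536870912 0 536870912 201326592 134217728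
    (rowN 3 2 false true false .dn 1 1 2 (qsf 536870912 536870912 0 536870912 1) ndN0q1 ndN0q2 pcN1 Cut.none Ext.none)

def k0_pm_112 : ∃ t, chk3 f_pm_112 t 8 2 1 = true :=
  ⟨(b (b (a (c (b (l 3) (a (b (l 3) (a (l 3) (l 104857721591))) (b (l 105394596471) (a (b (l 103783977399) (l 106468320791)) (b (l 105394580023) (l 16823296)))))) (b (l 3) (a (b (l 3) (a (l 3) (l 108078914039))) (b (l 108615809767) (a (b (l 107005169735) (l 112910741303)) (b (l 111300129335) (l 16811096))))))) (c (b (a (b (l 3) (l 105394597239)) (b (l 104857726839) (a (l 110763295047) (l 101636478919)))) (a (b (a (l 103247122087) (b (l 103247098087) (l 16825048))) (b (l 16862744) (l 16815936))) (b (b (l 16864584) (l 16818160)) (l 16823480)))) (b (a (b (l 3) (l 107542047367)) (b (l 107005176663) (a (l 106468295367) (l 105394546455)))) (b (a (a (l 108615799159) (l 108078920487)) (a (l 16853176) (l 16811840))) (a (a (l 16862320) (l 16810552)) (l 16821688)))))) (a (c (b (a (b (a (b (l 104857718071) (l 109152672711))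 (b (l 107542061383) (l 16821144))) (b (l 16879016) (l 16811560))) (b (b (l 16881520) (l 16813632)) (l 16825328))) (a (l 16845744) (l 16873512))) (b (a (a (b (b (l 108078910775) (l 116668835799)) (l 16864456)) (b (b (l 115058224071) (l 16809608)) (l 16808784))) (b (a (l 16860816) (l 16809432)) (l 16819816))) (a (l 16831408) (l 16849864)))) (b (a (c (l 16836944) (l 16827592)) (l 16852784)) (a (l 16882560) (l 16901792))))) (b (b (a (a (l 16878216) (l 16919280)) (c (l 16975384) (l 16917032))) (a (c (l 17004352) (l 16936056)) (l 16997840))) (a (c (b (l 17074096) (l 17140608)) (b (l 16982000) (l 17025520))) (c (l 17128832) (l 17017248))))), by decide +kernel⟩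

def k1_pm_112 : ∃ t, chk3 f_pm_112 t 9 2 1 = true :=
  ⟨(b (b (b (a (c (a (b (a (l 110226424919) (l 100025867735)) (l 16878120)) (b (l 16875760) (l 16825944))) (a (b (a (l 104857683175) (l 103247063991)) (b (l 16854560) (l 16812768))) (b (b (l 16855528) (l 16814040)) (l 16825888)))) (a (c (l 16835920) (l 16832568)) (l 16850184))) (a (a (b (l 16824256) (l 16840440)) (l 16849560)) (c (l 16890560) (l 16864120)))) (a (c (b (l 16897496) (l 16953400)) (l 16864264)) (b (c (l 16939216) (l 16895016)) (l 16957592)))) (c (b (a (l 17039304) (l 17066680)) (a (l 17145760) (l 17162416))) (b (a (l 16959376) (l 16978368)) (a (l 17028984) (l 17041440))))), by decide +kernel⟩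

def k2_pm_112 : ∃ t, chk3 f_pm_112 t 4 3 1 = true :=
  ⟨(b (a (b (a (c (b (l 17203528) (l 17258024)) (b (l 17066000) (l 17101488))) (c (b (l 17211944) (l 17257416)) (b (l 17070448) (l 17101032)))) (c (a (l 17323624) (l 17318784)) (a (l 17145760) (l 17140152)))) (a (c (b (l 17237576) (l 17316784)) (b (b (l 17075416) (l 17103088)) (l 17135704))) (c (b (l 17245824) (l 17316720)) (b (l 17095256) (l 17130568))))) (a (a (b (c (l 17389208) (b (l 17178168) (l 17191904))) (c (b (l 17421328) (c (l 17499152) (l 17374496))) (b (c (l 17253752) (b (l 17144152) (l 17143968))) (a (c (l 17260048) (b (l 17145720) (l 17138656))) (l 148747508375))))) (b (c (l 17377928) (b (l 17166928) (l 17176400))) (b (b (c (l 17399728) (l 17178936)) (l 1)) (l 1)))) (a (a (b (c (l 17370392) (l 17161792)) (l 1)) (l 1)) (l 1)))), by decide +kernel⟩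

def k3_pm_112 : ∃ t, chk3 f_pm_112 t 5 1 1 = true :=
  ⟨(b (a (a (b (b (c (l 16867560) (l 16877232)) (c (l 16999048) (l 16934936))) (b (c (l 17091680) (l 16997088)) (c (l 17178216) (b (l 17042200) (l 17069672))))) (b (b (l 1) (l 1)) (l 1))) (l 1)) (b (l 1) (l 1))), by decide +kernel⟩

def k4_pm_112 : ∃ t, chk3 f_pm_112 t 3 1 1 = true :=
  ⟨(l 1), by decide +kernel⟩

theorem s5_pm_112 : ∃ t, chk3 f_pm_112 t 4 2 1 = true := ex3_a k0_pm_112 k1_pm_112

theorem s6_pm_112 : ∃ t, chk3 f_pm_112 t 4 1 1 = true := ex3_b s5_pm_112 k2_pm_112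

theorem s7_pm_112 : ∃ t, chk3 f_pm_112 t 2 1 1 = true := ex3_a s6_pm_112 k3_pm_112

theorem s8_pm_112 : ∃ t, chk3 f_pm_112 t 1 1 1 = true := ex3_a s7_pm_112 k4_pm_112

theorem c_pm_112 : CertN 536870912 536870912 0 536870912 201326592 134217728 3 false true false .dn 1 1 2
    ndN0q1 ndN0q2 pcN1 Cut.none Ext.none :=
  certN2 (fam := false) (s1 := true) (s2 := false) (a := 1) (b := 1) (c := 2) (cn := .dn) (n1 := ndN0q1) (n2 := ndN0q2) (pc := pcN1) (cut := Cut.none) (xt := Ext.none) (P1 := 536870912) (W1 := 536870912) (P2 := 0) (W2 := 536870912) (P3 := 201326592) (W3 := 134217728) (N0 := 3)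
    rfl (fun _ => rfl) s8_pm_112

noncomputable def cut_pm_202 : Cut := Cut.of [[⟨0, 1, 0, 67108864⟩, ⟨1, 0, 0, 67108864⟩, ⟨2, 1, 0, 67108864⟩]]

noncomputable def f_pm_202 : ℕ → ℕ → ℕ → ℕ → Bool := onCell 0 536870912 0 536870912 201326592 134217728
    (rowN 3 0 false true false .pp 2 0 2 (qsf 0 536870912 0 536870912 0) ndN0q2 ndN0q2 pcN0 cut_pm_202 Ext.none)

def k0_pm_202 : ∃ t, chk3 f_pm_202 t 1 1 1 = true :=
  ⟨(a (l 3) (b (l 3) (a (l 3) (a (l 3) (b (l 3) (b (l 3) (l 6))))))), by decide +kernel⟩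

theorem c_pm_202 : CertN 0 536870912 0 536870912 201326592 134217728 3 false true false .pp 2 0 2
    ndN0q2 ndN0q2 pcN0 cut_pm_202 Ext.none :=
  certN0 (fam := false) (s1 := true) (s2 := false) (a := 2) (b := 0) (c := 2) (cn := .pp) (n1 := ndN0q2) (n2 := ndN0q2) (pc := pcN0) (cut := cut_pm_202) (xt := Ext.none) (P1 := 0) (W1 := 536870912) (P2 := 0) (W2 := 536870912) (P3 := 201326592) (W3 := 134217728) (N0 := 3)
    rfl k0_pm_202

noncomputable def f_mm_001 : ℕ → ℕ → ℕ → ℕ → Bool := onCell 0 536870912 0 536870912 201326592 134217728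
    (rowN 3 1 false false false .up 0 0 1 (qsf 0 536870912 536870912 536870912 0) ndN0q0 ndN0q1 pcN0 Cut.none Ext.none)

def k0_mm_001 : ∃ t, chk3 f_mm_001 t 1 1 1 = true :=
  ⟨(l 3), by decide +kernel⟩

theorem c_mm_001 : CertN 0 536870912 536870912 536870912 201326592 134217728 3 false false false .up 0 0 1
    ndN0q0 ndN0q1 pcN0 Cut.none Ext.none :=
  certN1 (fam := false) (s1 := false) (s2 := false) (a := 0) (b := 0) (c := 1) (cn := .up) (n1 := ndN0q0) (n2 := ndN0q1) (pc := pcN0) (cut := Cut.none) (xt := Ext.none) (P1 := 0) (W1 := 536870912) (P2 := 536870912) (W2 := 536870912) (P3 := 201326592) (W3 := 134217728) (N0 := 3)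
    rfl (fun _ => rfl) k0_mm_001

noncomputable def f_mm_011 : ℕ → ℕ → ℕ → ℕ → Bool := onCell 0 536870912 536870912 536870912 201326592 134217728
    (rowN 3 1 false false false .pnn 0 1 1 (qsf 0 536870912 536870912 536870912 1) ndN0q0 ndN0q1 pcN1 Cut.none Ext.none)

def k0_mm_011 : ∃ t, chk3 f_mm_011 t 1 1 1 = true :=
  ⟨(l 5), by decide +kernel⟩

theorem c_mm_011 : CertN 0 536870912 536870912 536870912 201326592 134217728 3 false false false .pnn 0 1 1
    ndN0q0 ndN0q1 pcN1 Cut.none Ext.none :=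
  certN1 (fam := false) (s1 := false) (s2 := false) (a := 0) (b := 1) (c := 1) (cn := .pnn) (n1 := ndN0q0) (n2 := ndN0q1) (pc := pcN1) (cut := Cut.none) (xt := Ext.none) (P1 := 0) (W1 := 536870912) (P2 := 536870912) (W2 := 536870912) (P3 := 201326592) (W3 := 134217728) (N0 := 3)
    rfl (fun _ => rfl) k0_mm_011

noncomputable def f_mm_012 : ℕ → ℕ → ℕ → ℕ → Bool := onCell 0 536870912 0 536870912 201326592 134217728
    (rowN 3 0 false false false .pnp 0 1 2 (qsf 0 536870912 0 536870912 1) ndN0q0 ndN0q2 pcN1 Cut.none Ext.none)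

def k0_mm_012 : ∃ t, chk3 f_mm_012 t 1 1 1 = true :=
  ⟨(l 5), by decide +kernel⟩

theorem c_mm_012 : CertN 0 536870912 0 536870912 201326592 134217728 3 false false false .pnp 0 1 2
    ndN0q0 ndN0q2 pcN1 Cut.none Ext.none :=
  certN0 (fam := false) (s1 := false) (s2 := false) (a := 0) (b := 1) (c := 2) (cn := .pnp) (n1 := ndN0q0) (n2 := ndN0q2) (pc := pcN1) (cut := Cut.none) (xt := Ext.none) (P1 := 0) (W1 := 536870912) (P2 := 0) (W2 := 536870912) (P3 := 201326592) (W3 := 134217728) (N0 := 3)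
    rfl k0_mm_012

noncomputable def f_mm_022 : ℕ → ℕ → ℕ → ℕ → Bool := onCell 0 536870912 0 536870912 201326592 134217728
    (rowN 3 0 false false false .pp 0 2 2 (qsf 0 536870912 0 536870912 2) ndN0q0 ndN0q2 pcN2 Cut.none Ext.none)

def k0_mm_022 : ∃ t, chk3 f_mm_022 t 1 1 1 = true :=
  ⟨(l 5), by decide +kernel⟩

theorem c_mm_022 : CertN 0 536870912 0 536870912 201326592 134217728 3 false false false .pp 0 2 2
    ndN0q0 ndN0q2 pcN2 Cut.none Ext.none :=
  certN0 (fam := false) (s1 := false) (s2 := false) (a := 0) (b := 2) (c := 2) (cn := .pp) (n1 := ndN0q0) (n2 := ndN0q2) (pc := pcN2) (cut := Cut.none) (xt := Ext.none) (P1 := 0) (W1 := 536870912) (P2 := 0) (W2 := 536870912) (P3 := 201326592) (W3 := 134217728) (N0 := 3)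
    rfl k0_mm_022

noncomputable def f_mm_101 : ℕ → ℕ → ℕ → ℕ → Bool := onCell 536870912 536870912 536870912 536870912 201326592 134217728
    (rowN 3 0 false false false .npn 1 0 1 (qsf 536870912 536870912 536870912 536870912 0) ndN0q1 ndN0q1 pcN0 Cut.none Ext.none)

def k0_mm_101 : ∃ t, chk3 f_mm_101 t 1 1 1 = true :=
  ⟨(l 3), by decide +kernel⟩

theorem c_mm_101 : CertN 536870912 536870912 536870912 536870912 201326592 134217728 3 false false false .npn 1 0 1
    ndN0q1 ndN0q1 pcN0 Cut.none Ext.none :=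
  certN0 (fam := false) (s1 := false) (s2 := false) (a := 1) (b := 0) (c := 1) (cn := .npn) (n1 := ndN0q1) (n2 := ndN0q1) (pc := pcN0) (cut := Cut.none) (xt := Ext.none) (P1 := 536870912) (W1 := 536870912) (P2 := 536870912) (W2 := 536870912) (P3 := 201326592) (W3 := 134217728) (N0 := 3)
    rfl k0_mm_101

noncomputable def f_mm_102 : ℕ → ℕ → ℕ → ℕ → Bool := onCell 536870912 536870912 0 536870912 201326592 134217728
    (rowN 3 0 false false false .npp 1 0 2 (qsf 536870912 536870912 0 536870912 0) ndN0q1 ndN0q2 pcN0 Cut.none Ext.none)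

def k0_mm_102 : ∃ t, chk3 f_mm_102 t 1 1 1 = true :=
  ⟨(a (l 5) (l 3)), by decide +kernel⟩

theorem c_mm_102 : CertN 536870912 536870912 0 536870912 201326592 134217728 3 false false false .npp 1 0 2
    ndN0q1 ndN0q2 pcN0 Cut.none Ext.none :=
  certN0 (fam := false) (s1 := false) (s2 := false) (a := 1) (b := 0) (c := 2) (cn := .npp) (n1 := ndN0q1) (n2 := ndN0q2) (pc := pcN0) (cut := Cut.none) (xt := Ext.none) (P1 := 536870912) (W1 := 536870912) (P2 := 0) (W2 := 536870912) (P3 := 201326592) (W3 := 134217728) (N0 := 3)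
    rfl k0_mm_102

noncomputable def f_mm_112 : ℕ → ℕ → ℕ → ℕ → Bool := onCell 536870912 536870912 0 536870912 201326592 134217728
    (rowN 3 2 false false false .dn 1 1 2 (qsf 536870912 536870912 0 536870912 1) ndN0q1 ndN0q2 pcN1 Cut.none Ext.none)

def k0_mm_112 : ∃ t, chk3 f_mm_112 t 1 1 1 = true :=
  ⟨(l 5), by decide +kernel⟩

theorem c_mm_112 : CertN 536870912 536870912 0 536870912 201326592 134217728 3 false false false .dn 1 1 2
    ndN0q1 ndN0q2 pcN1 Cut.none Ext.none :=
  certN2 (fam := false) (s1 := false) (s2 := false) (a := 1) (b := 1) (c := 2) (cn := .dn) (n1 := ndN0q1) (n2 := ndN0q2) (pc := pcN1) (cut := Cut.none) (xt := Ext.none) (P1 := 536870912) (W1 := 536870912) (P2 := 0) (W2 := 536870912) (P3 := 201326592) (W3 := 134217728) (N0 := 3)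
    rfl (fun _ => rfl) k0_mm_112

noncomputable def f_mm_202 : ℕ → ℕ → ℕ → ℕ → Bool := onCell 0 536870912 0 536870912 201326592 134217728
    (rowN 3 0 false false false .pp 2 0 2 (qsf 0 536870912 0 536870912 0) ndN0q2 ndN0q2 pcN0 Cut.none Ext.none)

def k0_mm_202 : ∃ t, chk3 f_mm_202 t 1 1 1 = true :=
  ⟨(l 3), by decide +kernel⟩

theorem c_mm_202 : CertN 0 536870912 0 536870912 201326592 134217728 3 false false false .pp 2 0 2
    ndN0q2 ndN0q2 pcN0 Cut.none Ext.none :=
  certN0 (fam := false) (s1 := false) (s2 := false) (a := 2) (b := 0) (c := 2) (cn := .pp) (n1 := ndN0q2) (n2 := ndN0q2) (pc := pcN0) (cut := Cut.none) (xt := Ext.none) (P1 := 0) (W1 := 536870912) (P2 := 0) (W2 := 536870912) (P3 := 201326592) (W3 := 134217728) (N0 := 3)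
    rfl k0_mm_202

end Pool.Agent.Strip051.G.I3_16_5_16.Tab.C.NB00

namespace Pool.Agent.Strip051.G.I3_16_5_16.Tab.C.NB01

open Pool.Agent.Strip051.PB Pool.Agent.Strip051.PB.T
open Pool.Agent.Strip051.G.I3_16_5_16.Tab

noncomputable def f_pp_001 : ℕ → ℕ → ℕ → ℕ → Bool := onCell 0 536870912 536870912 536870912 201326592 134217728
    (rowN 3 0 false true true .up 0 0 1 (qsf 0 536870912 536870912 536870912 0) ndN0q0 ndN1q1 pcN0 Cut.none Ext.none)

def k0_pp_001 : ∃ t, chk3 f_pp_001 t 1 1 1 = true :=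
  ⟨(l 3), by decide +kernel⟩

theorem c_pp_001 : CertN 0 536870912 536870912 536870912 201326592 134217728 3 false true true .up 0 0 1
    ndN0q0 ndN1q1 pcN0 Cut.none Ext.none :=
  certN0 (fam := false) (s1 := true) (s2 := true) (a := 0) (b := 0) (c := 1) (cn := .up) (n1 := ndN0q0) (n2 := ndN1q1) (pc := pcN0) (cut := Cut.none) (xt := Ext.none) (P1 := 0) (W1 := 536870912) (P2 := 536870912) (W2 := 536870912) (P3 := 201326592) (W3 := 134217728) (N0 := 3)
    rfl k0_pp_001

noncomputable def f_pp_011 : ℕ → ℕ → ℕ → ℕ → Bool := onCell 0 536870912 536870912 536870912 201326592 134217728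
    (rowN 3 0 false true true .pnn 0 1 1 (qsf 0 536870912 536870912 536870912 1) ndN0q0 ndN1q1 pcN1 Cut.none Ext.none)

def k0_pp_011 : ∃ t, chk3 f_pp_011 t 1 1 1 = true :=
  ⟨(l 3), by decide +kernel⟩

theorem c_pp_011 : CertN 0 536870912 536870912 536870912 201326592 134217728 3 false true true .pnn 0 1 1
    ndN0q0 ndN1q1 pcN1 Cut.none Ext.none :=
  certN0 (fam := false) (s1 := true) (s2 := true) (a := 0) (b := 1) (c := 1) (cn := .pnn) (n1 := ndN0q0) (n2 := ndN1q1) (pc := pcN1) (cut := Cut.none) (xt := Ext.none) (P1 := 0) (W1 := 536870912) (P2 := 536870912) (W2 := 536870912) (P3 := 201326592) (W3 := 134217728) (N0 := 3)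
    rfl k0_pp_011

noncomputable def cut_pp_012_a : Cut := Cut.of [[⟨0, 0, 0, 67108864⟩, ⟨1, 1, 0, 67108864⟩, ⟨2, 1, 0, 67108864⟩]]

noncomputable def f_pp_012_a : ℕ → ℕ → ℕ → ℕ → Bool := onCell 536870912 536870912 0 536870912 201326592 134217728
    (rowN 3 2 false true true .pnp 0 1 2 (qsf 0 536870912 0 536870912 1) ndN0q0 ndN1q2a pcN1 cut_pp_012_a Ext.none)

def k0_pp_012_a : ∃ t, chk3 f_pp_012_a t 2 1 1 = true :=
  ⟨(l 3), by decide +kernel⟩

def k1_pp_012_a : ∃ t, chk3 f_pp_012_a t 6 1 1 = true :=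
  ⟨(b (a (b (l 3) (l 3)) (b (c (a (b (a (l 16273961623) (l 16830816)) (a (l 3) (l 33990733415))) (b (a (l 16835888) (l 16832744)) (a (l 27011400871) (l 16800024)))) (a (b (a (l 19495210887) (l 16806064)) (a (l 3) (b (l 16809736) (l 3)))) (b (a (l 16762368) (l 16750608)) (a (b (l 16771248) (l 16811040)) (l 13589613415))))) (a (l 3) (a (l 3) (b (b (c (l 16810984) (l 29695755239)) (l 3)) (l 3)))))) (l 3)), by decide +kernel⟩

def k2_pp_012_a : ∃ t, chk3 f_pp_012_a t 7 2 1 = true :=
  ⟨(a (b (a (b (c (a (l 16818632) (l 16789296)) (l 16747576)) (a (b (l 16767968) (c (l 16807000) (l 16747792))) (c (l 16783144) (l 16753000)))) (b (c (a (l 16738616) (l 16676352)) (l 16690768)) (c (a (l 16735800) (l 16700288)) (a (l 16727776) (l 16681800))))) (a (b (a (b (c (l 16800760) (l 16789992)) (c (l 20568939351) (c (l 16807064) (l 20032068375)))) (b (c (l 16774952) (l 16744616)) (c (l 16789280) (l 16785328)))) (a (b (c (l 38285693479) (b (l 37748811095) (l 3))) (l 3)) (a (b (c (l 16807312) (l 28621991463))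 (l 3)) (b (c (l 16776136) (l 16796888)) (c (l 36138186535) (b (l 16807696) (l 3))))))) (c (b (a (b (l 16727792) (l 16758784)) (l 16753440)) (a (b (l 16778712) (c (l 18421433991) (b (l 16771488) (l 16800208)))) (b (l 16752904) (c (l 16771448) (l 16771264))))) (b (b (l 16769264) (a (l 16760208) (l 16734512))) (a (b (l 16799424) (a (b (l 16776184) (l 18958293143)) (l 16788720))) (b (l 16752880) (c (l 16770400) (l 16768856)))))))) (b (a (b (c (l 16715696) (l 16705832)) (c (l 16686056) (l 16695232))) (b (c (a (l 16670224) (l 16667392)) (l 16717816)) (c (a (l 16646016) (l 16664272)) (a (l 16636816) (l 16631832))))) (c (a (a (b (b (l 16685384) (l 16706760)) (b (l 16726792) (l 16755928))) (b (l 16691656) (b (l 16701016) (l 16719640)))) (b (a (l 16665472) (l 16641624)) (a (a (l 16712200) (l 16699600)) (b (l 16650848) (l 16679424))))) (a (b (a (l 16720160) (l 16695600)) (a (b (l 16727256) (l 16744152)) (b (l 16702192) (l 16718984)))) (b (a (l 16650960) (l 16644200)) (a (c (l 16706976) (l 16707168))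 (b (l 16633368) (l 16670504)))))))), by decide +kernel⟩

def k3_pp_012_a : ∃ t, chk3 f_pp_012_a t 14 3 1 = true :=
  ⟨(b (a (l 3) (b (a (b (a (b (c (l 32380075335) (l 35064417767)) (l 3)) (c (c (l 24863884055) (l 24863883127)) (b (c (l 16779688) (l 16777408)) (c (l 33453803943) (l 35601282599))))) (l 3)) (a (b (c (c (l 16795080) (l 16793984)) (b (l 16766712) (c (l 16774928) (l 16772360)))) (b (c (c (l 16784632) (l 31843189671)) (c (l 24326992199) (l 27011340295))) (l 3))) (b (c (c (l 16761544) (l 16760440)) (b (l 16754072) (l 16761376))) (c (b (c (l 16773816) (l 16771984)) (c (l 13589575319) (l 14126442615))) (b (c (l 16769656) (l 16766824)) (c (b (l 16774488) (l 18421398279)) (b (l 16781896) (l 21105748551)))))))) (a (l 3) (a (l 3) (a (l 3) (b (b (b (c (l 30232557031) (l 24863828359)) (l 3)) (l 3)) (l 3))))))) (l 3)), by decide +kernel⟩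

def k4_pp_012_a : ∃ t, chk3 f_pp_012_a t 30 12 1 = true :=
  ⟨(b (a (a (c (l 16769192) (l 16766016)) (c (l 16756328) (l 16753376))) (c (a (l 16743480) (l 16730664)) (l 16750280))) (a (a (b (c (l 16760312) (l 16755800)) (c (c (l 16769080) (l 16766792)) (c (l 16764136) (l 16761096)))) (c (c (l 16773376) (l 16771352)) (c (l 16769000) (l 16766288)))) (a (c (b (l 16734808) (l 16742656)) (b (l 16730744) (l 16737744))) (c (l 16746928) (l 16742784))))), by decide +kernel⟩

def k5_pp_012_a : ∃ t, chk3 f_pp_012_a t 60 13 1 = true :=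
  ⟨(b (c (a (a (b (c (l 16779520) (l 22179494343)) (c (l 23253244775) (l 24863852967))) (b (c (l 16773816) (l 16771328)) (c (l 25937596807) (l 28621936887)))) (b (c (l 16764424) (l 16761944)) (c (b (l 16770280) (l 13589552295)) (b (l 16767672) (a (l 16774376) (l 16768288)))))) (a (b (c (a (l 24863843287) (l 16768512)) (b (l 16777048) (a (l 23253221303) (l 16767200)))) (a (c (l 25937589687) (l 29695670647)) (c (b (l 16773752) (l 28621936183)) (b (l 25400701031) (l 29695671671))))) (b (c (l 16759184) (l 16777104)) (c (b (l 16764800) (a (l 16771432) (l 16765368))) (b (l 16772144) (a (l 17884503607) (l 16762216))))))) (c (a (l 3) (a (b (b (c (l 25937588727) (l 27548197047)) (l 3)) (l 3)) (b (c (b (l 16774712) (l 14126425111)) (b (l 16771952) (c (l 16781096) (l 17347645559)))) (b (c (l 21105749991) (l 22179476071)) (l 3))))) (a (l 3) (b (a (b (c (l 29695674983) (c (l 21642607543) (l 22179475287))) (l 3)) (b (c (l 16768976) (l 16771016)) (a (c (l 28621927831) (l 30232534327)) (c (l 16773544)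 (l 28085046135))))) (a (l 3) (a (l 3) (b (c (l 24863830887) (l 25400695623)) (l 3)))))))), by decide +kernel⟩

def k6_pp_012_a : ∃ t, chk3 f_pp_012_a t 61 13 1 = true :=
  ⟨(b (a (b (c (l 16761096) (l 16766272)) (c (c (l 16759648) (l 16757040)) (c (l 16775200) (l 16761696)))) (b (c (l 16758904) (l 16732920)) (c (c (l 16746832) (l 16744320)) (l 16761240)))) (a (c (b (c (b (l 16765376) (a (l 16772216) (l 16765792))) (b (l 16762632) (a (l 16769392) (l 16762992)))) (a (c (b (c (l 16776232) (l 16780072)) (c (l 20032006919) (l 20032004263))) (b (c (l 17347644327) (l 19495125191)) (c (l 20568872295) (l 20568869687)))) (c (b (l 16769016) (c (l 16772776) (l 16771344))) (b (l 16766160) (c (l 16769896) (l 16773664)))))) (b (a (b (l 16766520) (c (l 16766392) (l 16763216))) (c (l 16758304) (l 16755240))) (a (a (b (c (l 23253215223) (c (l 25400695415) (l 22179466663))) (c (l 16810765255) (l 19495113863))) (b (c (l 16768184) (l 16765008)) (c (l 23790084487) (c (l 23790080967) (l 23790077799)))))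 (c (b (l 16763192) (c (l 16772176) (l 21105724295))) (b (l 16760104) (c (l 21105721223) (l 21642589015))))))) (c (b (c (l 16774848) (l 16772184)) (a (c (l 16774200) (l 16771384)) (c (l 16756872) (l 16754144)))) (b (c (l 16758928) (l 16756056)) (c (a (l 16768504) (l 16751376)) (a (l 16765552) (l 16748560))))))), by decide +kernel⟩

def k7_pp_012_a : ∃ t, chk3 f_pp_012_a t 31 6 1 = true :=
  ⟨(b (a (c (b (l 16721976) (a (l 16734136) (l 16721128))) (b (l 16709904) (a (l 16730424) (l 16717984)))) (c (b (a (l 16692368) (l 16679168)) (a (l 16707664) (c (l 16694232) (l 16693576)))) (b (l 16695840) (a (l 16705232) (l 16692328))))) (a (a (b (c (c (l 16750536) (l 16748312)) (c (l 16745968) (l 16743496))) (c (b (c (l 16740032) (l 16737576)) (c (l 16757096) (l 16765008))) (b (l 16754768) (c (l 16762432) (l 16759856))))) (c (b (c (l 16736720) (l 16734776)) (b (l 16746096) (c (l 16743456) (l 16751640)))) (b (l 16731696) (b (l 16741712) (l 16748248))))) (b (c (a (l 16722000) (c (l 16709024) (l 16707824)))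 (a (l 16718696) (l 16705944))) (b (a (c (l 16722064) (l 16728888)) (c (l 16708680) (l 16716304))) (c (a (l 16734160) (l 16720936)) (a (l 16735568) (l 16712632))))))), by decide +kernel⟩

def k8_pp_012_a : ∃ t, chk3 f_pp_012_a t 30 14 1 = true :=
  ⟨(b (a (l 3) (a (a (l 3) (a (b (b (c (c (l 18958255591) (l 18958250119)) (c (l 18958244375) (l 18958238823))) (l 3)) (l 3)) (b (c (c (b (l 17347638727) (l 15737027623)) (b (l 21105729447) (l 15200151287))) (c (b (l 18958240023) (l 16273887655)) (b (l 19495106871) (l 16810756375)))) (l 3)))) (b (c (a (a (c (b (l 16770056) (l 20031991991)) (b (l 16767160) (l 20568857415))) (c (b (l 16766680) (l 16769736)) (b (l 16763816) (l 16766832)))) (c (b (l 16761608) (l 16775200)) (b (l 16758808) (l 16761872)))) (a (a (c (b (l 16764224) (l 20568852823)) (b (l 16761264) (l 13589529559))) (b (l 16759488) (c (l 16763944) (l 16761072)))) (b (l 16765096) (a (l 16764520) (l 16756056))))) (c (a (a (l 3) (b (c (c (l 16810767447) (l 16810764871)) (l 17347631127))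 (l 3))) (a (c (b (c (l 16770144) (l 16768680)) (c (l 14663283079) (l 15200151575))) (b (l 16810757895) (c (l 15737019943) (l 15200147991)))) (c (b (l 16766144) (c (l 11442054103) (l 14663277303))) (b (l 16763288) (c (l 14126404823) (l 13589532855)))))) (a (a (l 3) (b (c (l 15737016647) (l 14663271847)) (l 3))) (a (c (b (l 16770240) (l 14126405143)) (b (l 16766152) (l 15200142775))) (c (b (l 16760512) (l 13589531015)) (b (l 16757792) (l 16810751639))))))))) (a (l 3) (a (l 3) (a (l 3) (a (l 3) (a (l 3) (b (b (c (c (l 12515795511) (l 11442052343)) (c (l 11442048663) (l 16769768))) (l 3)) (l 3)))))))), by decide +kernel⟩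

def k9_pp_012_a : ∃ t, chk3 f_pp_012_a t 62 28 1 = true :=
  ⟨(a (a (b (c (c (l 16766896) (l 16764168)) (c (l 16761488) (l 16748360))) (c (c (b (l 16771640) (a (c (l 16767144) (l 16765768)) (l 16763160))) (b (l 16758376) (c (l 16768032) (l 16766720)))) (c (b (l 16755680) (c (l 16770664) (l 16769392))) (b (l 16753072) (l 16767528))))) (b (c (c (l 16749680) (l 16747064)) (l 16753752)) (b (c (c (l 16754512) (l 16751832)) (l 16758504)) (c (c (l 16768704) (l 16755640)) (l 16762464))))) (c (b (c (l 16755336) (l 16747672)) (c (a (l 16760232) (l 16753648)) (a (l 16757720) (l 16751264)))) (b (c (l 16755840) (l 16753608)) (a (c (l 16755344) (l 16753104)) (l 16747976))))), by decide +kernel⟩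

def k10_pp_012_a : ∃ t, chk3 f_pp_012_a t 62 29 2 = true :=
  ⟨(a (b (a (a (b (b (c (l 13052663847) (l 16771928)) (a (l 3) (c (l 15200148583) (l 16767752)))) (l 3)) (b (c (c (l 10905178839) (l 16771648)) (c (l 16770408) (l 16769192))) (b (c (c (l 9831439847) (l 16771704)) (l 9831437367)) (c (c (l 9294570439) (l 8757698295)) (l 8220825911))))) (a (c (b (l 16769024) (b (l 16771976) (a (l 13052664519) (l 16770512)))) (b (l 16761344) (b (l 16764424) (l 10368306663)))) (c (b (l 16760512) (c (l 16770296) (l 16763920))) (b (l 16758128) (l 16767504))))) (a (l 3) (a (b (b (a (l 3) (c (l 9831436919) (l 16770104))) (l 3)) (l 3)) (b (b (c (c (l 16773232) (l 16766920)) (l 11978916727)) (c (c (c (l 6610214407) (l 9831438855)) (l 7147083607)) (c (l 8220823623) (l 16771936)))) (b (a (l 3) (c (l 6610211127) (l 16770800))) (l 3)))))) (b (a (c (b (l 16766112) (c (l 16765440) (l 16769584))) (b (l 16753320) (l 16765360))) (c (b (l 16749128) (l 16763688)) (c (l 16760040) (l 16759016)))) (a (a (c (b (a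 (c (l 16771832) (l 16770808)) (l 16769720)) (c (b (c (l 7683954039) (l 16771040)) (c (l 4999601815) (l 4999600919))) (b (l 8220823383) (l 4462729335)))) (b (c (l 16769008) (l 16768024)) (c (b (l 16769392) (l 4999598663)) (b (l 16771096) (l 16770176))))) (c (b (l 16767328) (b (l 16770392) (l 6))) (b (l 16765368) (b (l 16763304) (l 6))))) (b (c (c (l 16768280) (l 16767304)) (l 16765896)) (l 6))))), by decide +kernel⟩

def k11_pp_012_a : ∃ t, chk3 f_pp_012_a t 62 29 3 = true :=
  ⟨(a (b (a (a (b (c (c (l 15737015223) (l 16273884071)) (l 15737011943)) (l 3)) (b (c (l 15737009479) (l 16765080)) (a (c (l 10368306231) (l 10905173575)) (c (l 12515788807) (l 14126397719))))) (a (c (b (l 16759000) (c (l 12515786007) (l 16767912))) (b (l 16756752) (l 13589524535))) (b (l 16765232) (c (l 16770624) (l 16758096))))) (a (l 3) (a (a (l 3) (b (c (c (l 8757692903) (l 9294561911)) (l 8220818919)) (l 3))) (a (b (c (c (l 11442045863) (l 16769752)) (l 10905172183)) (l 3)) (b (c (l 13052656391) (l 16767000))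 (c (c (l 4999596935) (l 16769336)) (l 4999594471))))))) (b (a (b (l 16760568) (a (l 16766496) (l 16763416))) (c (l 16757544) (l 16755688))) (a (a (b (c (c (l 16767072) (l 16760888)) (l 16764768)) (b (c (l 16768456) (l 16768064)) (c (l 4999596103) (l 16769968)))) (b (c (l 16758264) (l 16756504)) (b (a (l 16766728) (l 16759960)) (l 6)))) (b (c (l 16764128) (l 16762464)) (l 6))))), by decide +kernel⟩

def k12_pp_012_a : ∃ t, chk3 f_pp_012_a t 63 14 1 = true :=
  ⟨(b (a (c (c (b (l 16736752) (b (l 16741880) (l 16745784))) (b (l 16734640) (l 16746896))) (b (l 16742192) (a (l 16741800) (l 16746160)))) (a (c (c (l 16735664) (l 16733784)) (l 16736504)) (c (b (l 16719424) (l 16726712)) (l 16729144)))) (a (b (c (a (c (l 16755192) (l 16753200)) (c (l 16748776) (l 16746912))) (a (l 16753112) (l 16744432))) (b (a (a (c (l 16759472) (l 16748248)) (l 6)) (l 6)) (l 6))) (a (a (b (c (l 16743080) (l 16750408)) (l 6)) (l 6)) (l 6)))), by decide +kernel⟩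

def k13_pp_012_a : ∃ t, chk3 f_pp_012_a t 15 15 1 = true :=
  ⟨(a (l 3) (a (a (l 3) (b (l 6) (l 3))) (l 6))), by decide +kernel⟩

theorem s14_pp_012_a : ∃ t, chk3 f_pp_012_a t 62 29 1 = true := ex3_c k10_pp_012_a k11_pp_012_a

theorem s15_pp_012_a : ∃ t, chk3 f_pp_012_a t 62 14 1 = true := ex3_b k9_pp_012_a s14_pp_012_a

theorem s16_pp_012_a : ∃ t, chk3 f_pp_012_a t 31 14 1 = true := ex3_a s15_pp_012_a k12_pp_012_a

theorem s17_pp_012_a : ∃ t, chk3 f_pp_012_a t 15 14 1 = true := ex3_a k8_pp_012_a s16_pp_012_a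

theorem s18_pp_012_a : ∃ t, chk3 f_pp_012_a t 15 7 1 = true := ex3_b s17_pp_012_a k13_pp_012_a

theorem s19_pp_012_a : ∃ t, chk3 f_pp_012_a t 30 13 1 = true := ex3_a k5_pp_012_a k6_pp_012_a

theorem s20_pp_012_a : ∃ t, chk3 f_pp_012_a t 30 6 1 = true := ex3_b k4_pp_012_a s19_pp_012_a

theorem s21_pp_012_a : ∃ t, chk3 f_pp_012_a t 15 6 1 = true := ex3_a s20_pp_012_a k7_pp_012_a

theorem s22_pp_012_a : ∃ t, chk3 f_pp_012_a t 15 3 1 = true := ex3_b s21_pp_012_a s18_pp_012_a

theorem s23_pp_012_a : ∃ t, chk3 f_pp_012_a t 7 3 1 = true := ex3_a k3_pp_012_a s22_pp_012_a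

theorem s24_pp_012_a : ∃ t, chk3 f_pp_012_a t 7 1 1 = true := ex3_b k2_pp_012_a s23_pp_012_a

theorem s25_pp_012_a : ∃ t, chk3 f_pp_012_a t 3 1 1 = true := ex3_a k1_pp_012_a s24_pp_012_a

theorem s26_pp_012_a : ∃ t, chk3 f_pp_012_a t 1 1 1 = true := ex3_a k0_pp_012_a s25_pp_012_a

theorem c_pp_012_a : CertN 0 536870912 0 536870912 201326592 134217728 3 false true true .pnp 0 1 2
    ndN0q0 ndN1q2a pcN1 cut_pp_012_a Ext.none :=
  certN2 (fam := false) (s1 := true) (s2 := true) (a := 0) (b := 1) (c := 2) (cn := .pnp) (n1 := ndN0q0) (n2 := ndN1q2a) (pc := pcN1) (cut := cut_pp_012_a) (xt := Ext.none) (P1 := 0) (W1 := 536870912) (P2 := 0) (W2 := 536870912) (P3 := 201326592) (W3 := 134217728) (N0 := 3)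
    rfl (fun _ => rfl) s26_pp_012_a

noncomputable def cut_pp_012_b : Cut := Cut.of [[⟨0, 0, 0, 67108864⟩, ⟨1, 1, 0, 67108864⟩, ⟨2, 1, 0, 67108864⟩]]

noncomputable def f_pp_012_b : ℕ → ℕ → ℕ → ℕ → Bool := onCell 536870912 536870912 1239849684 370763052 201326592 134217728
    (rowN 3 2 false true true .pnp 0 1 2 (qsf 0 536870912 1239849684 370763052 1) ndN0q0 ndN1q2b pcN1 cut_pp_012_b Ext.none)

def k0_pp_012_b : ∃ t, chk3 f_pp_012_b t 2 1 1 = true :=
  ⟨(b (l 3) (l 2)), by decide +kernel⟩

def k1_pp_012_b : ∃ t, chk3 f_pp_012_b t 3 2 1 = true :=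
  ⟨(a (b (a (a (l 3) (b (l 3) (l 3))) (b (a (b (c (a (l 16844272) (l 16855392)) (a (l 16784408) (l 16771376))) (a (c (l 16879152) (l 16812792)) (l 16804896))) (c (b (a (l 16860840) (l 16858888)) (l 16904248)) (a (l 16786672) (l 16756360)))) (a (a (a (l 3) (b (l 16884696) (l 16927936))) (c (l 16953832) (l 16862720))) (c (b (l 16949168) (l 16993320)) (a (l 16848952) (l 16830032)))))) (a (l 3) (b (a (a (l 3) (c (l 17036056) (l 16957208))) (c (b (l 17036288) (l 17077128)) (a (l 16946040) (l 16932672)))) (a (c (l 18958916663) (b (l 16986384) (l 17066432))) (c (b (l 17113952) (l 17145856)) (a (l 17038520) (l 17030448))))))) (b (a (c (a (b (b (a (l 16846880) (l 16821096)) (l 16894536)) (b (l 16952648) (l 17007432))) (a (b (l 16816224) (l 16966784)) (b (l 16756328) (l 16942328)))) (a (b (b (l 16700632) (l 16712864)) (a (l 16803616) (l 16765224))) (b (b (l 16698440) (l 16635032)) (l 16718640)))) (b (a (b (c (a (l 16662368) (l 16661184)) (l 16694144)) (c (l 16698456) (l 16607536))) (b (a (c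 (l 16659520) (l 16646568)) (c (l 16657408) (l 16641904))) (c (a (l 16603872) (l 16603832)) (l 16656440)))) (a (c (a (l 16900448) (l 16834912)) (l 16640040)) (c (a (l 16736632) (l 16592816)) (l 16584792))))) (b (a (a (c (b (l 17057440) (l 17103192)) (b (l 16876800) (l 16934256))) (c (b (l 17059904) (l 17117584)) (b (l 16806280) (l 16881048)))) (a (c (l 17066152) (l 16769896)) (c (a (l 17011072) (l 16946184)) (l 16585088)))) (a (a (c (l 17163120) (l 17015064)) (c (l 17190512) (l 16981160))) (a (c (l 17202904) (l 16917816)) (c (l 17185048) (l 16802176))))))), by decide +kernel⟩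

def k2_pp_012_b : ∃ t, chk3 f_pp_012_b t 3 3 1 = true :=
  ⟨(a (b (a (l 2) (a (l 3) (b (c (l 17181416) (a (l 17111200) (l 17109208))) (c (l 17209032) (l 17160456))))) (l 2)) (a (b (a (b (c (l 17221840) (l 17103232)) (c (l 17255808) (l 17165072))) (b (c (l 17262088) (l 17090224)) (c (l 17304216) (l 17168096)))) (b (a (l 2) (l 17266016)) (l 2))) (b (a (b (c (l 17296880) (l 17061192)) (c (l 17353248) (l 17163320))) (b (c (l 17316424) (l 17001184)) (c (l 17397696) (l 17142288)))) (a (b (l 17301008) (l 17315304)) (b (l 17333728) (l 17360376)))))), by decide +kernel⟩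

theorem s3_pp_012_b : ∃ t, chk3 f_pp_012_b t 3 1 1 = true := ex3_b k1_pp_012_b k2_pp_012_b

theorem s4_pp_012_b : ∃ t, chk3 f_pp_012_b t 1 1 1 = true := ex3_a k0_pp_012_b s3_pp_012_b

theorem c_pp_012_b : CertN 0 536870912 1239849684 370763052 201326592 134217728 3 false true true .pnp 0 1 2
    ndN0q0 ndN1q2b pcN1 cut_pp_012_b Ext.none :=
  certN2 (fam := false) (s1 := true) (s2 := true) (a := 0) (b := 1) (c := 2) (cn := .pnp) (n1 := ndN0q0) (n2 := ndN1q2b) (pc := pcN1) (cut := cut_pp_012_b) (xt := Ext.none) (P1 := 0) (W1 := 536870912) (P2 := 1239849684) (W2 := 370763052) (P3 := 201326592) (W3 := 134217728) (N0 := 3)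
    rfl (fun _ => rfl) s4_pp_012_b

noncomputable def cut_pp_022_a : Cut := Cut.of [[⟨0, 0, 0, 67108864⟩, ⟨1, 1, 0, 67108864⟩, ⟨2, 1, 0, 67108864⟩]]

noncomputable def f_pp_022_a : ℕ → ℕ → ℕ → ℕ → Bool := onCell 1073741824 536870912 0 536870912 201326592 134217728
    (rowN 3 2 false true true .pp 0 2 2 (qsf 0 536870912 0 536870912 2) ndN0q0 ndN1q2a pcN2 cut_pp_022_a Ext.none)

def k0_pp_022_a : ∃ t, chk3 f_pp_022_a t 4 2 1 = true :=
  ⟨(b (a (a (c (b (l 16592624) (c (l 16621680) (l 16627096))) (b (l 16598872) (c (l 16631048) (a (l 16619792) (l 16584408))))) (c (b (l 16568512) (l 16601888)) (b (l 16573112) (l 16603152)))) (a (c (b (l 16544328) (l 16560120)) (b (l 16526328) (l 16575280))) (a (c (c (l 16540656) (l 16532248)) (b (l 16509232) (l 16515288))) (a (c (b (l 16500976) (l 16505408)) (b (l 16501368) (l 16507032))) (c (b (l 16516944) (l 16542120)) (b (l 16516776) (l 16543096))))))) (a (a (b (c (a (l 16659912) (l 16641960)) (a (l 16665600) (l 16626776))) (a (b (c (l 16661304) (l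 16643480)) (c (l 16674552) (l 16676104))) (c (b (l 16640720) (l 16652552)) (l 16670608)))) (b (c (b (l 16608616) (l 16620504)) (a (l 16608424) (l 16590848))) (c (a (l 16646936) (l 16627488)) (c (l 16650576) (l 16651352))))) (a (b (c (a (l 16569136) (l 16575640)) (l 16587488)) (c (a (c (l 16586784) (l 16568624)) (b (l 16546536) (l 16575472))) (a (l 16612944) (l 16574760)))) (a (c (b (a (l 16544976) (l 16538968)) (c (l 16549784) (l 16557128))) (b (l 16524272) (b (l 16534512) (l 16540840)))) (b (a (c (l 16533352) (l 16514696)) (c (c (l 16547336) (l 16549128)) (l 16560512))) (c (a (c (l 16544664) (l 16525400)) (c (a (l 16518856) (l 16536576)) (l 16542944))) (a (l 16547424) (b (l 16537120) (l 16563200))))))))), by decide +kernel⟩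

def k1_pp_022_a : ∃ t, chk3 f_pp_022_a t 5 2 1 = true :=
  ⟨(a (a (a (b (c (a (b (l 16510984) (l 16535832)) (b (l 16502368) (l 16526568))) (a (b (l 16510680) (l 16515632)) (b (l 16502648) (l 16507000)))) (c (c (b (a (l 16540376) (l 16530200)) (a (l 16537392) (l 16539728))) (a (b (l 16542072) (l 16530936)) (b (l 16532232) (l 16520496)))) (a (b (l 16553320) (b (l 16550160) (l 16533888))) (b (c (l 16533320) (l 16512456)) (l 16524240))))) (a (b (c (b (l 16514728) (b (l 16495576) (l 16517936))) (a (l 16519960) (l 16515568))) (b (a (c (l 16524008) (l 16484744)) (c (l 16497616) (l 16479784))) (l 1))) (b (a (c (b (l 16465888) (l 16488856)) (b (l 16467440) (l 16470672))) (a (c (b (l 16483232) (l 16463952)) (l 16518304)) (b (c (l 16501488) (l 16503736)) (l 1)))) (l 1)))) (a (b (b (l 1) (l 1)) (l 1)) (l 1))) (l 1)), by decide +kernel⟩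

def k2_pp_022_a : ∃ t, chk3 f_pp_022_a t 8 6 1 = true :=
  ⟨(a (b (a (a (c (b (l 16671360) (l 16703440)) (b (l 16671112) (l 16701712))) (c (b (l 16659680) (l 16691432)) (b (l 16659976) (l 16669368)))) (c (b (l 16663560) (l 16673856)) (b (l 16664576) (l 16673576)))) (a (c (a (b (c (l 16693800) (l 16693088)) (c (l 16725808) (l 16724744))) (b (l 16702208) (l 16712824))) (a (b (c (l 16691872) (l 16690128)) (c (l 16723344) (l 16721616))) (b (l 16700448) (l 16710744)))) (a (c (b (l 16690168) (l 16700552)) (b (l 16689008) (l 16699096))) (c (b (l 16678384) (l 16683272)) (b (l 16677728) (l 16666608)))))) (b (c (a (c (l 16661432) (l 16657488)) (b (l 16620896) (l 16634968))) (a (b (l 16643416) (l 16651824)) (b (l 16591608) (l 16609840)))) (b (c (a (b (l 16658568) (l 16663480)) (c (l 16638384) (l 16639064))) (a (l 16661024) (l 16639384))) (c (a (c (l 16667992) (l 16670736)) (c (b (l 16653992) (l 16655072)) (a (l 16660216) (l 16655064)))) (a (l 16667864) (b (l 16648560) (l 16660536))))))), by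 decide +kernel⟩

def k3_pp_022_a : ∃ t, chk3 f_pp_022_a t 9 6 1 = true :=
  ⟨(a (b (c (b (a (l 16601272) (l 16577688)) (a (l 16609240) (c (l 16594944) (l 16591344)))) (b (a (l 16582608) (l 16564096)) (a (l 16610584) (l 16591264)))) (c (b (a (c (l 16627304) (l 16624352)) (c (b (l 16599472) (l 16610112)) (b (l 16585760) (l 16607048)))) (a (b (c (l 16633072) (l 16619928)) (a (c (l 16636832) (l 16634480)) (c (l 16631304) (l 16628768)))) (b (c (a (l 16613824) (l 1)) (l 16628816)) (l 1)))) (b (a (l 16620336) (a (l 16611016) (l 16604472))) (a (b (l 16637088) (a (l 16651944) (l 16624928))) (b (l 16624504) (l 1)))))) (a (b (c (b (c (l 16565208) (l 16545656)) (c (c (l 16582352) (l 16580496)) (l 16577832))) (b (l 16546632) (l 16572952))) (a (b (c (c (l 16605448) (l 16602248)) (l 16576688)) (l 1)) (l 1))) (b (b (c (a (l 16543616) (l 16561792)) (a (l 16534256) (l 16546856))) (l 1)) (l 1)))), by decide +kernel⟩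

def k4_pp_022_a : ∃ t, chk3 f_pp_022_a t 4 7 1 = true :=
  ⟨(a (a (b (b (b (a (a (c (c (l 16733944) (l 16711640)) (l 16730296)) (c (l 16720664) (l 16718384))) (c (c (l 16697112) (l 16701784)) (l 16700704))) (b (b (c (a (c (l 16730848) (l 16729576)) (l 16700000)) (a (l 16727512) (l 16703800))) (l 6)) (l 6))) (l 6)) (l 6)) (b (b (c (a (b (a (l 16688256) (l 16673432)) (b (a (l 16676784) (l 16693368)) (l 6))) (a (b (l 16673944) (c (l 16681832) (l 16669840))) (b (c (l 16654072) (l 16652168)) (c (b (l 16663344) (l 16669208)) (b (l 16661616) (l 16667480)))))) (a (b (l 16673080) (a (l 16698728) (l 16693672))) (b (a (l 16675736) (l 16670144)) (a (l 16688296) (b (l 16658736) (l 16664536)))))) (a (l 6) (a (l 6) (a (l 6) (l 1))))) (a (l 6) (l 1)))) (a (b (b (a (b (c (a (c (l 16659344) (l 16646728)) (c (l 16643328) (l 16640992))) (a (l 16664320) (l 16637248))) (a (b (c (l 16657144) (l 16652856)) (l 1)) (l 1))) (l 1)) (l 1)) (l 1)) (l 1))), by decide +kernel⟩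

def k5_pp_022_a : ∃ t, chk3 f_pp_022_a t 5 3 1 = true :=
  ⟨(b (l 1) (l 1)), by decide +kernel⟩

def k6_pp_022_a : ∃ t, chk3 f_pp_022_a t 3 1 1 = true :=
  ⟨(l 1), by decide +kernel⟩

theorem s7_pp_022_a : ∃ t, chk3 f_pp_022_a t 4 6 1 = true := ex3_a k2_pp_022_a k3_pp_022_a

theorem s8_pp_022_a : ∃ t, chk3 f_pp_022_a t 4 3 1 = true := ex3_b s7_pp_022_a k4_pp_022_a

theorem s9_pp_022_a : ∃ t, chk3 f_pp_022_a t 2 3 1 = true := ex3_a s8_pp_022_a k5_pp_022_a

theorem s10_pp_022_a : ∃ t, chk3 f_pp_022_a t 2 2 1 = true := ex3_a k0_pp_022_a k1_pp_022_a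

theorem s11_pp_022_a : ∃ t, chk3 f_pp_022_a t 2 1 1 = true := ex3_b s10_pp_022_a s9_pp_022_a

theorem s12_pp_022_a : ∃ t, chk3 f_pp_022_a t 1 1 1 = true := ex3_a s11_pp_022_a k6_pp_022_a

theorem c_pp_022_a : CertN 0 536870912 0 536870912 201326592 134217728 3 false true true .pp 0 2 2
    ndN0q0 ndN1q2a pcN2 cut_pp_022_a Ext.none :=
  certN2 (fam := false) (s1 := true) (s2 := true) (a := 0) (b := 2) (c := 2) (cn := .pp) (n1 := ndN0q0) (n2 := ndN1q2a) (pc := pcN2) (cut := cut_pp_022_a) (xt := Ext.none) (P1 := 0) (W1 := 536870912) (P2 := 0) (W2 := 536870912) (P3 := 201326592) (W3 := 134217728) (N0 := 3)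
    rfl (fun _ => rfl) s12_pp_022_a

noncomputable def cut_pp_022_b : Cut := Cut.of [[⟨0, 0, 0, 67108864⟩, ⟨1, 1, 0, 67108864⟩, ⟨2, 1, 0, 67108864⟩]]

noncomputable def f_pp_022_b : ℕ → ℕ → ℕ → ℕ → Bool := onCell 0 536870912 1073741824 536870912 201326592 134217728
    (rowN 3 1 false true true .pp 0 2 2 (qsf 0 536870912 1239849684 370763052 2) ndN0q0 ndN1q2b pcN2 cut_pp_022_b Ext.none)

def k0_pp_022_b : ∃ t, chk3 f_pp_022_b t 4 4 1 = true :=
  ⟨(a (b (l 1) (a (b (l 1) (b (l 1) (b (l 1) (c (l 33319121911) (l 16543616))))) (b (b (l 1) (c (l 33856073079) (l 16587680))) (b (c (l 16549000) (l 16528912)) (b (c (l 16517112) (l 16495280)) (c (l 16529976) (l 16506992))))))) (b (b (a (l 1) (b (l 1) (c (l 23655649687) (l 45667293255)))) (a (a (l 1) (c (l 27950583031) (l 16636328))) (c (b (l 16613224) (l 16557344)) (l 16593360)))) (b (c (a (l 29561065159) (l 16557312)) (a (l 16562968) (l 16533824))) (b (c (a (l 16498008) (l 16494976)) (a (l 16495632) (l 16488240))) (b (c (l 16516408) (l 16499576))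 (c (a (l 16479320) (l 16539088)) (l 16511816))))))), by decide +kernel⟩

def k1_pp_022_b : ∃ t, chk3 f_pp_022_b t 4 5 1 = true :=
  ⟨(b (b (b (b (a (c (a (l 16531240) (l 16499680)) (a (l 16533952) (l 16496896))) (c (a (l 16470448) (l 16635184)) (l 16502464))) (a (c (a (l 36540269031) (l 16487648)) (a (l 16522128) (l 16463856))) (c (a (l 16458960) (l 16725656)) (l 16470280)))) (a (b (c (a (a (l 16514680) (l 16485496)) (l 16475480)) (a (l 16510064) (l 16451776))) (c (b (a (l 16500424) (l 16444880)) (b (a (l 16495272) (l 16439872)) (a (a (l 16495976) (l 16466704)) (l 16457224)))) (b (a (l 16458600) (l 16442360)) (a (b (l 16453640) (l 16492016)) (b (l 16437544) (l 16434104)))))) (b (c (a (l 16447328) (l 16810752)) (l 16459040)) (b (c (l 16564136) (l 16429280)) (c (a (b (l 16514376) (l 16540992)) (l 16721424)) (b (l 16424776) (l 16442520))))))) (a (c (b (a (c (l 16472320) (l 16474280)) (l 16460736)) (a (a (l 16448896) (l 16420424)) (l 16418736))) (b (a (l 16495792) (l 16438520)) (a (a (l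 16431184) (l 16401616)) (l 16391384)))) (c (b (a (l 16655728) (l 17002456)) (a (l 16838856) (l 17136672))) (b (l 16447912) (l 16402376))))) (b (a (c (b (a (l 16414800) (l 16642224)) (a (l 16405152) (l 16837048))) (b (a (l 16398264) (l 16364080)) (a (l 16368880) (l 16335744)))) (c (a (b (l 17000264) (l 17142904)) (l 17310888)) (b (l 16355704) (l 16437872)))) (a (c (a (b (l 16641408) (l 16846032)) (b (l 17007576) (l 17157392))) (b (a (l 16317584) (l 16306464)) (l 16342920))) (c (a (l 17327040) (l 17501664)) (a (l 16503008) (l 16783888)))))), by decide +kernel⟩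

def k2_pp_022_b : ∃ t, chk3 f_pp_022_b t 5 2 1 = true :=
  ⟨(b (a (b (b (c (a (b (l 16636272) (l 16580584)) (l 16599696)) (a (l 18286845047) (l 16584208))) (c (a (l 16570600) (l 16537752)) (a (l 16558984) (l 16532032)))) (b (c (a (l 16513072) (l 16822232)) (l 16565920)) (b (c (l 16757304) (l 16480808)) (c (b (l 16987272) (l 17031104)) (b (l 16469888) (l 16462128)))))) (b (b (c (a (l 16586304) (l 16687432)) (a (l 16560616) (l 16564768))) (c (a (l 16848704) (l 17099424)) (l 16575616))) (b (c (a (l 17093232) (l 17287360)) (l 16563696)) (b (c (l 17335160) (l 16725248)) (c (b (l 17397120) (l 17435896)) (b (l 16799000) (l 16845568))))))) (b (b (b (a (c (b (l 17113280) (l 17170656)) (b (l 16453744) (l 16443528))) (c (l 17488992) (b (l 16890088) (l 16932200)))) (c (a (b (l 17225088) (b (l 17263968) (a (l 17182792) (l 17379352)))) (b (l 17538184) (l 17569072))) (b (a (l 16484128) (l 16972648)) (a (b (l 16533920) (l 16503216)) (b (l 17001816) (l 17020792)))))) (a (c (b (l 17348096) (l 17435928))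 (b (l 16643336) (l 16757832))) (c (l 17634304) (l 17099144)))) (b (a (c (l 17550536) (l 16679840)) (c (l 17729448) (l 17225112))) (a (c (l 17678592) (l 17083704)) (l 17570104))))), by decide +kernel⟩

def k3_pp_022_b : ∃ t, chk3 f_pp_022_b t 2 3 1 = true :=
  ⟨(b (b (a (a (c (b (a (c (l 17346744) (l 16859744)) (l 17349520)) (a (l 17378336) (l 17556160))) (b (b (l 16290296) (l 16402376)) (a (l 16488216) (l 16777832)))) (c (b (l 17595616) (l 17734032)) (b (l 16724576) (l 17087312)))) (c (a (l 17824992) (l 17892568)) (a (b (l 17227304) (l 17345912)) (l 17455960)))) (a (a (c (b (l 17659784) (l 17804464)) (b (a (l 16789648) (l 17009768)) (l 17118304))) (c (l 17888976) (b (l 17246368) (l 17375760)))) (c (l 17967848) (a (l 17485088) (l 17574704))))) (b (a (c (a (l 17967232) (l 18038464)) (a (b (l 17280872) (l 17411608)) (l 17529088))) (c (l 18047304) (l 17654496))) (a (c (l 18139408) (l 17634792)) (l 2)))), by decide +kernel⟩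

def k4_pp_022_b : ∃ t, chk3 f_pp_022_b t 3 1 1 = true :=
  ⟨(b (a (b (a (b (c (b (a (l 17064304) (l 17270272)) (l 17347800)) (b (a (l 16576568) (l 16799448)) (l 16831552))) (b (c (l 17479800) (l 16998728)) (b (c (l 17566448) (l 17096576)) (c (l 17616784) (l 17155104))))) (b (a (c (l 17442912) (l 16952856)) (c (l 17512352) (l 17156840))) (b (c (l 17615488) (l 17240096)) (b (l 17487736) (c (l 17705984) (l 17338120)))))) (b (b (b (c (l 17710392) (a (l 17210448) (l 17373152))) (c (a (l 17914904) (l 17763360)) (b (l 17334232) (a (l 17271896) (l 17410848))))) (c (l 17776600) (a (l 17322848) (l 17439272)))) (c (b (l 17820792) (l 17854480)) (b (l 17451816) (l 17501088))))) (b (a (b (c (l 17569600) (a (l 17246616) (l 17311528))) (b (l 17512216) (b (l 17550312) (l 17571608)))) (b (c (l 17573984) (l 17364536)) (b (l 17521240) (l 2)))) (b (b (b (a (l 17592256) (l 2)) (l 2)) (l 2)) (l 2)))) (a (b (b (c (l 17889624) (l 17557776)) (l 2)) (l 2)) (l 2))), by decide +kernel⟩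

theorem s5_pp_022_b : ∃ t, chk3 f_pp_022_b t 4 2 1 = true := ex3_b k0_pp_022_b k1_pp_022_b

theorem s6_pp_022_b : ∃ t, chk3 f_pp_022_b t 2 2 1 = true := ex3_a s5_pp_022_b k2_pp_022_b

theorem s7_pp_022_b : ∃ t, chk3 f_pp_022_b t 2 1 1 = true := ex3_b s6_pp_022_b k3_pp_022_b

theorem s8_pp_022_b : ∃ t, chk3 f_pp_022_b t 1 1 1 = true := ex3_a s7_pp_022_b k4_pp_022_b

theorem c_pp_022_b : CertN 0 536870912 1239849684 370763052 201326592 134217728 3 false true true .pp 0 2 2
    ndN0q0 ndN1q2b pcN2 cut_pp_022_b Ext.none :=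
  certN1 (fam := false) (s1 := true) (s2 := true) (a := 0) (b := 2) (c := 2) (cn := .pp) (n1 := ndN0q0) (n2 := ndN1q2b) (pc := pcN2) (cut := cut_pp_022_b) (xt := Ext.none) (P1 := 0) (W1 := 536870912) (P2 := 1239849684) (W2 := 370763052) (P3 := 201326592) (W3 := 134217728) (N0 := 3)
    rfl (fun _ => rfl) s8_pp_022_b

noncomputable def f_pp_023 : ℕ → ℕ → ℕ → ℕ → Bool := onCell 0 536870912 1073741824 536870912 201326592 134217728
    (rowN 3 1 false true true .up 0 2 3 (qsf 0 536870912 1610612736 536870912 2) ndN0q0 ndN1q3 pcN2 Cut.none Ext.none)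

def k0_pp_023 : ∃ t, chk3 f_pp_023 t 1 1 1 = true :=
  ⟨(a (b (a (l 1) (b (l 1) (b (l 1) (c (l 267397632679) (l 231426224679))))) (b (b (a (l 1) (c (l 17926664) (l 262028303239))) (a (c (l 276524726535) (l 245385105639)) (c (l 17953688) (l 17543008)))) (b (a (c (l 272766923447) (l 254512324839)) (c (l 18024488) (l 17647392))) (a (l 17730064) (l 17905792))))) (b (a (b (a (l 1) (b (l 1) (b (l 1) (b (l 1) (l 233036606695))))) (b (a (b (l 1) (l 242700184775)) (b (b (l 17533520) (c (l 17764568) (l 189550672151))) (l 17603536))) (b (l 202435586647) (l 17673048)))) (b (a (b (l 204045190951) (b (l 17490056) (b (l 17536736) (l 17562272)))) (b (l 232499561943) (b (l 17521560) (b (l 17547160) (l 17560112))))) (b (b (b (a (l 17586104) (l 17572560)) (a (b (l 17600120) (l 17608760)) (l 17665688))) (a (l 17620960) (l 17581912))) (a (l 17646696) (l 17583560))))) (a (b (b (c (l 17887312) (l 17550160)) (l 17756040)) (b (l 17794816) (l 17827344))) (b (b (l 17752456) (l 17619560)) (b (l 17632424) (l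 17633504)))))), by decide +kernel⟩

theorem c_pp_023 : CertN 0 536870912 1610612736 536870912 201326592 134217728 3 false true true .up 0 2 3
    ndN0q0 ndN1q3 pcN2 Cut.none Ext.none :=
  certN1 (fam := false) (s1 := true) (s2 := true) (a := 0) (b := 2) (c := 3) (cn := .up) (n1 := ndN0q0) (n2 := ndN1q3) (pc := pcN2) (cut := Cut.none) (xt := Ext.none) (P1 := 0) (W1 := 536870912) (P2 := 1610612736) (W2 := 536870912) (P3 := 201326592) (W3 := 134217728) (N0 := 3)
    rfl (fun _ => rfl) k0_pp_023

noncomputable def f_pp_033 : ℕ → ℕ → ℕ → ℕ → Bool := onCell 1610612736 536870912 1610612736 536870912 201326592 134217728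
    (rowN 3 2 false true true .pnn 0 3 3 (qsf 0 536870912 1610612736 536870912 3) ndN0q0 ndN1q3 pcN3 Cut.none Ext.none)

def k0_pp_033 : ∃ t, chk3 f_pp_033 t 1 1 1 = true :=
  ⟨(a (b (a (b (a (c (l 17939808) (l 17701144)) (c (l 18048032) (l 17780704))) (a (c (l 17722440) (l 17593624)) (l 17923760))) (a (b (l 293168036455) (l 17854616)) (b (l 1) (l 18086728)))) (a (b (a (b (l 17540352) (l 17459424)) (l 17613176)) (a (c (l 17298648) (l 17298720)) (b (l 17481728) (l 17384368)))) (a (b (l 17686328) (a (l 17492000) (l 17515192))) (b (l 17897936) (a (l 17524408) (l 4)))))) (a (b (a (c (l 272767245767) (l 300147155015)) (l 1)) (l 4)) (l 4))), by decide +kernel⟩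

theorem c_pp_033 : CertN 0 536870912 1610612736 536870912 201326592 134217728 3 false true true .pnn 0 3 3
    ndN0q0 ndN1q3 pcN3 Cut.none Ext.none :=
  certN2 (fam := false) (s1 := true) (s2 := true) (a := 0) (b := 3) (c := 3) (cn := .pnn) (n1 := ndN0q0) (n2 := ndN1q3) (pc := pcN3) (cut := Cut.none) (xt := Ext.none) (P1 := 0) (W1 := 536870912) (P2 := 1610612736) (W2 := 536870912) (P3 := 201326592) (W3 := 134217728) (N0 := 3)
    rfl (fun _ => rfl) k0_pp_033

noncomputable def f_pp_101 : ℕ → ℕ → ℕ → ℕ → Bool := onCell 536870912 536870912 536870912 536870912 201326592 134217728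
    (rowN 3 0 false true true .npn 1 0 1 (qsf 536870912 536870912 536870912 536870912 0) ndN0q1 ndN1q1 pcN0 Cut.none Ext.none)

def k0_pp_101 : ∃ t, chk3 f_pp_101 t 1 1 1 = true :=
  ⟨(l 3), by decide +kernel⟩

theorem c_pp_101 : CertN 536870912 536870912 536870912 536870912 201326592 134217728 3 false true true .npn 1 0 1
    ndN0q1 ndN1q1 pcN0 Cut.none Ext.none :=
  certN0 (fam := false) (s1 := true) (s2 := true) (a := 1) (b := 0) (c := 1) (cn := .npn) (n1 := ndN0q1) (n2 := ndN1q1) (pc := pcN0) (cut := Cut.none) (xt := Ext.none) (P1 := 536870912) (W1 := 536870912) (P2 := 536870912) (W2 := 536870912) (P3 := 201326592) (W3 := 134217728) (N0 := 3)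
    rfl k0_pp_101

noncomputable def f_pp_102_a : ℕ → ℕ → ℕ → ℕ → Bool := onCell 536870912 536870912 0 536870912 201326592 134217728
    (rowN 3 0 false true true .npp 1 0 2 (qsf 536870912 536870912 0 536870912 0) ndN0q1 ndN1q2a pcN0 Cut.none Ext.none)

def k0_pp_102_a : ∃ t, chk3 f_pp_102_a t 1 1 1 = true :=
  ⟨(l 3), by decide +kernel⟩

theorem c_pp_102_a : CertN 536870912 536870912 0 536870912 201326592 134217728 3 false true true .npp 1 0 2
    ndN0q1 ndN1q2a pcN0 Cut.none Ext.none :=
  certN0 (fam := false) (s1 := true) (s2 := true) (a := 1) (b := 0) (c := 2) (cn := .npp) (n1 := ndN0q1) (n2 := ndN1q2a) (pc := pcN0) (cut := Cut.none) (xt := Ext.none) (P1 := 536870912) (W1 := 536870912) (P2 := 0) (W2 := 536870912) (P3 := 201326592) (W3 := 134217728) (N0 := 3)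
    rfl k0_pp_102_a

noncomputable def f_pp_102_b : ℕ → ℕ → ℕ → ℕ → Bool := onCell 536870912 536870912 0 536870912 201326592 134217728
    (rowN 3 1 false true true .npp 1 0 2 (qsf 536870912 536870912 1239849684 370763052 0) ndN0q1 ndN1q2b pcN0 Cut.none Ext.none)

def k0_pp_102_b : ∃ t, chk3 f_pp_102_b t 1 1 1 = true :=
  ⟨(l 3), by decide +kernel⟩

theorem c_pp_102_b : CertN 536870912 536870912 1239849684 370763052 201326592 134217728 3 false true true .npp 1 0 2
    ndN0q1 ndN1q2b pcN0 Cut.none Ext.none :=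
  certN1 (fam := false) (s1 := true) (s2 := true) (a := 1) (b := 0) (c := 2) (cn := .npp) (n1 := ndN0q1) (n2 := ndN1q2b) (pc := pcN0) (cut := Cut.none) (xt := Ext.none) (P1 := 536870912) (W1 := 536870912) (P2 := 1239849684) (W2 := 370763052) (P3 := 201326592) (W3 := 134217728) (N0 := 3)
    rfl (fun _ => rfl) k0_pp_102_b

noncomputable def f_pp_112_a : ℕ → ℕ → ℕ → ℕ → Bool := onCell 536870912 536870912 0 536870912 201326592 134217728
    (rowN 3 0 false true true .dn 1 1 2 (qsf 536870912 536870912 0 536870912 1) ndN0q1 ndN1q2a pcN1 Cut.none Ext.none)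

def k0_pp_112_a : ∃ t, chk3 f_pp_112_a t 1 1 1 = true :=
  ⟨(l 3), by decide +kernel⟩

theorem c_pp_112_a : CertN 536870912 536870912 0 536870912 201326592 134217728 3 false true true .dn 1 1 2
    ndN0q1 ndN1q2a pcN1 Cut.none Ext.none :=
  certN0 (fam := false) (s1 := true) (s2 := true) (a := 1) (b := 1) (c := 2) (cn := .dn) (n1 := ndN0q1) (n2 := ndN1q2a) (pc := pcN1) (cut := Cut.none) (xt := Ext.none) (P1 := 536870912) (W1 := 536870912) (P2 := 0) (W2 := 536870912) (P3 := 201326592) (W3 := 134217728) (N0 := 3)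
    rfl k0_pp_112_a

noncomputable def f_pp_112_b : ℕ → ℕ → ℕ → ℕ → Bool := onCell 536870912 536870912 536870912 536870912 201326592 134217728
    (rowN 3 1 false true true .dn 1 1 2 (qsf 536870912 536870912 1239849684 370763052 1) ndN0q1 ndN1q2b pcN1 Cut.none Ext.none)

def k0_pp_112_b : ∃ t, chk3 f_pp_112_b t 1 1 1 = true :=
  ⟨(b (a (l 3) (l 3)) (a (b (a (b (l 3) (b (l 3) (a (c (l 17208664) (l 17159128)) (l 100026682311)))) (l 3)) (a (b (a (b (c (l 17266144) (l 17192600)) (l 17271728)) (b (l 17236464) (l 17265464))) (a (c (l 17400344) (l 17277984)) (b (l 17294640) (l 2)))) (b (a (b (l 17209856) (l 2)) (l 2)) (l 2)))) (b (l 3) (l 2)))), by decide +kernel⟩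

theorem c_pp_112_b : CertN 536870912 536870912 1239849684 370763052 201326592 134217728 3 false true true .dn 1 1 2
    ndN0q1 ndN1q2b pcN1 Cut.none Ext.none :=
  certN1 (fam := false) (s1 := true) (s2 := true) (a := 1) (b := 1) (c := 2) (cn := .dn) (n1 := ndN0q1) (n2 := ndN1q2b) (pc := pcN1) (cut := Cut.none) (xt := Ext.none) (P1 := 536870912) (W1 := 536870912) (P2 := 1239849684) (W2 := 370763052) (P3 := 201326592) (W3 := 134217728) (N0 := 3)
    rfl (fun _ => rfl) k0_pp_112_b

noncomputable def cut_pp_113 : Cut := Cut.of [[⟨0, 1, 0, 57167902⟩, ⟨1, 1, 0, 57167902⟩, ⟨2, 2, 0, 11758673⟩]]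

noncomputable def f_pp_113 : ℕ → ℕ → ℕ → ℕ → Bool := onCell 536870912 536870912 536870912 536870912 201326592 134217728
    (rowN 3 1 false true true .nn 1 1 3 (qsf 536870912 536870912 1610612736 536870912 1) ndN0q1 ndN1q3 pcN1 cut_pp_113 Ext.none)

def k0_pp_113 : ∃ t, chk3 f_pp_113 t 1 1 1 = true :=
  ⟨(b (a (l 3) (l 3)) (a (b (a (b (l 1) (a (l 1) (c (l 207266705559) (l 194918460903)))) (l 3)) (a (b (a (c (l 218004436039) (l 211024774807)) (c (l 17348512) (l 189013181607))) (a (c (l 17454728) (l 17262256)) (c (l 17417896) (l 17281608)))) (b (a (b (c (l 17290128) (l 17218800)) (l 17275368)) (a (l 127944020599) (l 164988405063))) (a (l 17297800) (l 17381336))))) (b (l 3) (a (b (a (l 152103077863) (l 3)) (a (l 17112416) (l 151566228919))) (b (l 3) (a (b (l 401210701639) (l 17005464)) (b (l 3) (a (b (l 506974097127) (l 16864568)) (b (l 3) (b (l 541333733767) (a (l 16832944) (b (l 557976691655) (a (l 16795032) (b (l 563345380023) (l 6))))))))))))))), by decide +kernel⟩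

theorem c_pp_113 : CertN 536870912 536870912 1610612736 536870912 201326592 134217728 3 false true true .nn 1 1 3
    ndN0q1 ndN1q3 pcN1 cut_pp_113 Ext.none :=
  certN1 (fam := false) (s1 := true) (s2 := true) (a := 1) (b := 1) (c := 3) (cn := .nn) (n1 := ndN0q1) (n2 := ndN1q3) (pc := pcN1) (cut := cut_pp_113) (xt := Ext.none) (P1 := 536870912) (W1 := 536870912) (P2 := 1610612736) (W2 := 536870912) (P3 := 201326592) (W3 := 134217728) (N0 := 3)
    rfl (fun _ => rfl) k0_pp_113

noncomputable def cut_pp_123 : Cut := Cut.of [[⟨0, 1, 0, 57167902⟩, ⟨1, 1, 0, 57167902⟩, ⟨2, 2, 0, 11758673⟩]]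

noncomputable def f_pp_123 : ℕ → ℕ → ℕ → ℕ → Bool := onCell 536870912 536870912 1073741824 536870912 201326592 134217728
    (rowN 3 1 false true true .npn 1 2 3 (qsf 536870912 536870912 1610612736 536870912 2) ndN0q1 ndN1q3 pcN2 cut_pp_123 Ext.none)

def k0_pp_123 : ∃ t, chk3 f_pp_123 t 1 1 1 = true :=
  ⟨(a (b (a (b (b (a (l 17464872) (l 17419272)) (b (a (l 17494160) (l 17425272)) (b (l 17471104) (a (l 17511840) (l 17430512))))) (b (b (b (l 17622832) (a (l 17519480) (l 17429472))) (l 17463072)) (b (l 17454016) (l 17442000)))) (b (b (a (l 17337200) (l 17227384)) (b (a (l 17327880) (l 17207824)) (b (l 17431024) (a (l 17323640) (l 17195624))))) (b (b (b (a (l 17321792) (l 17192344)) (a (l 17401472) (l 17187048))) (l 17440768)) (a (l 17269760) (l 17243040))))) (a (b (b (l 17422560) (l 17398912)) (b (l 17431528) (l 17376176))) (b (b (l 17200872) (l 17240944)) (a (b (l 17245632) (l 2)) (l 2))))) (b (a (b (b (a (l 17105328) (l 16986704)) (b (l 17017536) (b (l 17007928) (l 17001368))))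 (b (b (b (l 16997328) (a (l 17055032) (l 16939104))) (l 16967472)) (b (l 16950968) (l 17003024)))) (b (b (a (l 16900848) (b (a (l 16821512) (b (a (l 16797312) (b (a (l 16786696) (l 6)) (l 16776160))) (l 16797496))) (l 16893920))) (b (l 283032200055) (b (l 248135472727) (l 226660801623)))) (b (b (b (l 206259657783) (l 2)) (l 2)) (l 2)))) (a (b (a (b (l 17012392) (l 2)) (l 2)) (l 2)) (l 2)))), by decide +kernel⟩

theorem c_pp_123 : CertN 536870912 536870912 1610612736 536870912 201326592 134217728 3 false true true .npn 1 2 3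
    ndN0q1 ndN1q3 pcN2 cut_pp_123 Ext.none :=
  certN1 (fam := false) (s1 := true) (s2 := true) (a := 1) (b := 2) (c := 3) (cn := .npn) (n1 := ndN0q1) (n2 := ndN1q3) (pc := pcN2) (cut := cut_pp_123) (xt := Ext.none) (P1 := 536870912) (W1 := 536870912) (P2 := 1610612736) (W2 := 536870912) (P3 := 201326592) (W3 := 134217728) (N0 := 3)
    rfl (fun _ => rfl) k0_pp_123

noncomputable def f_pp_133 : ℕ → ℕ → ℕ → ℕ → Bool := onCell 536870912 536870912 1610612736 536870912 201326592 134217728
    (rowN 3 0 false true true .dn 1 3 3 (qsf 536870912 536870912 1610612736 536870912 3) ndN0q1 ndN1q3 pcN3 Cut.none Ext.none)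

def k0_pp_133 : ∃ t, chk3 f_pp_133 t 1 1 1 = true :=
  ⟨(a (b (l 1) (a (b (l 1) (a (b (l 1) (l 17210984)) (l 1))) (l 1))) (l 1)), by decide +kernel⟩

theorem c_pp_133 : CertN 536870912 536870912 1610612736 536870912 201326592 134217728 3 false true true .dn 1 3 3
    ndN0q1 ndN1q3 pcN3 Cut.none Ext.none :=
  certN0 (fam := false) (s1 := true) (s2 := true) (a := 1) (b := 3) (c := 3) (cn := .dn) (n1 := ndN0q1) (n2 := ndN1q3) (pc := pcN3) (cut := Cut.none) (xt := Ext.none) (P1 := 536870912) (W1 := 536870912) (P2 := 1610612736) (W2 := 536870912) (P3 := 201326592) (W3 := 134217728) (N0 := 3)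
    rfl k0_pp_133

noncomputable def f_pp_202_a : ℕ → ℕ → ℕ → ℕ → Bool := onCell 0 536870912 0 536870912 201326592 134217728
    (rowN 3 0 false true true .pp 2 0 2 (qsf 0 536870912 0 536870912 0) ndN0q2 ndN1q2a pcN0 Cut.none Ext.none)

def k0_pp_202_a : ∃ t, chk3 f_pp_202_a t 1 1 1 = true :=
  ⟨(l 3), by decide +kernel⟩

theorem c_pp_202_a : CertN 0 536870912 0 536870912 201326592 134217728 3 false true true .pp 2 0 2
    ndN0q2 ndN1q2a pcN0 Cut.none Ext.none :=
  certN0 (fam := false) (s1 := true) (s2 := true) (a := 2) (b := 0) (c := 2) (cn := .pp) (n1 := ndN0q2) (n2 := ndN1q2a) (pc := pcN0) (cut := Cut.none) (xt := Ext.none) (P1 := 0) (W1 := 536870912) (P2 := 0) (W2 := 536870912) (P3 := 201326592) (W3 := 134217728) (N0 := 3)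
    rfl k0_pp_202_a

noncomputable def f_pp_202_b : ℕ → ℕ → ℕ → ℕ → Bool := onCell 0 536870912 1239849684 370763052 201326592 134217728
    (rowN 3 0 false true true .pp 2 0 2 (qsf 0 536870912 1239849684 370763052 0) ndN0q2 ndN1q2b pcN0 Cut.none Ext.none)

def k0_pp_202_b : ∃ t, chk3 f_pp_202_b t 1 1 1 = true :=
  ⟨(l 3), by decide +kernel⟩

theorem c_pp_202_b : CertN 0 536870912 1239849684 370763052 201326592 134217728 3 false true true .pp 2 0 2
    ndN0q2 ndN1q2b pcN0 Cut.none Ext.none :=
  certN0 (fam := false) (s1 := true) (s2 := true) (a := 2) (b := 0) (c := 2) (cn := .pp) (n1 := ndN0q2) (n2 := ndN1q2b) (pc := pcN0) (cut := Cut.none) (xt := Ext.none) (P1 := 0) (W1 := 536870912) (P2 := 1239849684) (W2 := 370763052) (P3 := 201326592) (W3 := 134217728) (N0 := 3)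
    rfl k0_pp_202_b

noncomputable def f_pp_203 : ℕ → ℕ → ℕ → ℕ → Bool := onCell 0 536870912 0 536870912 201326592 134217728
    (rowN 3 1 false true true .up 2 0 3 (qsf 0 536870912 1610612736 536870912 0) ndN0q2 ndN1q3 pcN0 Cut.none Ext.none)

def k0_pp_203 : ∃ t, chk3 f_pp_203 t 1 1 1 = true :=
  ⟨(l 3), by decide +kernel⟩

theorem c_pp_203 : CertN 0 536870912 1610612736 536870912 201326592 134217728 3 false true true .up 2 0 3
    ndN0q2 ndN1q3 pcN0 Cut.none Ext.none :=
  certN1 (fam := false) (s1 := true) (s2 := true) (a := 2) (b := 0) (c := 3) (cn := .up) (n1 := ndN0q2) (n2 := ndN1q3) (pc := pcN0) (cut := Cut.none) (xt := Ext.none) (P1 := 0) (W1 := 536870912) (P2 := 1610612736) (W2 := 536870912) (P3 := 201326592) (W3 := 134217728) (N0 := 3)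
    rfl (fun _ => rfl) k0_pp_203

noncomputable def cut_pp_213 : Cut := Cut.of [[⟨0, 1, 0, 57167902⟩, ⟨1, 1, 0, 57167902⟩, ⟨2, 2, 0, 11758673⟩]]

noncomputable def f_pp_213 : ℕ → ℕ → ℕ → ℕ → Bool := onCell 0 536870912 1610612736 536870912 201326592 134217728
    (rowN 3 0 false true true .pnn 2 1 3 (qsf 0 536870912 1610612736 536870912 1) ndN0q2 ndN1q3 pcN1 cut_pp_213 Ext.none)

def k0_pp_213 : ∃ t, chk3 f_pp_213 t 1 1 1 = true :=
  ⟨(b (l 3) (a (l 3) (b (l 3) (a (l 3) (b (l 3) (a (l 3) (a (l 3) (b (l 3) (b (l 3) (b (l 3) (l 6))))))))))), by decide +kernel⟩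

theorem c_pp_213 : CertN 0 536870912 1610612736 536870912 201326592 134217728 3 false true true .pnn 2 1 3
    ndN0q2 ndN1q3 pcN1 cut_pp_213 Ext.none :=
  certN0 (fam := false) (s1 := true) (s2 := true) (a := 2) (b := 1) (c := 3) (cn := .pnn) (n1 := ndN0q2) (n2 := ndN1q3) (pc := pcN1) (cut := cut_pp_213) (xt := Ext.none) (P1 := 0) (W1 := 536870912) (P2 := 1610612736) (W2 := 536870912) (P3 := 201326592) (W3 := 134217728) (N0 := 3)
    rfl k0_pp_213

noncomputable def f_pm_001 : ℕ → ℕ → ℕ → ℕ → Bool := onCell 0 536870912 536870912 536870912 201326592 134217728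
    (rowN 3 0 false true false .up 0 0 1 (qsf 0 536870912 536870912 536870912 0) ndN0q0 ndN1q1 pcN0 Cut.none Ext.none)

def k0_pm_001 : ∃ t, chk3 f_pm_001 t 1 1 1 = true :=
  ⟨(l 4), by decide +kernel⟩

theorem c_pm_001 : CertN 0 536870912 536870912 536870912 201326592 134217728 3 false true false .up 0 0 1
    ndN0q0 ndN1q1 pcN0 Cut.none Ext.none :=
  certN0 (fam := false) (s1 := true) (s2 := false) (a := 0) (b := 0) (c := 1) (cn := .up) (n1 := ndN0q0) (n2 := ndN1q1) (pc := pcN0) (cut := Cut.none) (xt := Ext.none) (P1 := 0) (W1 := 536870912) (P2 := 536870912) (W2 := 536870912) (P3 := 201326592) (W3 := 134217728) (N0 := 3)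
    rfl k0_pm_001

noncomputable def f_pm_011 : ℕ → ℕ → ℕ → ℕ → Bool := onCell 0 536870912 536870912 536870912 201326592 134217728
    (rowN 3 0 false true false .pnn 0 1 1 (qsf 0 536870912 536870912 536870912 1) ndN0q0 ndN1q1 pcN1 Cut.none Ext.none)

def k0_pm_011 : ∃ t, chk3 f_pm_011 t 1 1 1 = true :=
  ⟨(l 4), by decide +kernel⟩

theorem c_pm_011 : CertN 0 536870912 536870912 536870912 201326592 134217728 3 false true false .pnn 0 1 1
    ndN0q0 ndN1q1 pcN1 Cut.none Ext.none :=
  certN0 (fam := false) (s1 := true) (s2 := false) (a := 0) (b := 1) (c := 1) (cn := .pnn) (n1 := ndN0q0) (n2 := ndN1q1) (pc := pcN1) (cut := Cut.none) (xt := Ext.none) (P1 := 0) (W1 := 536870912) (P2 := 536870912) (W2 := 536870912) (P3 := 201326592) (W3 := 134217728) (N0 := 3)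
    rfl k0_pm_011

end Pool.Agent.Strip051.G.I3_16_5_16.Tab.C.NB01

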