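import Pool.Agent.Strip051.G.I3_16_5_16.Tab

/-! # Certificates N16 (generated) -/

set_option linter.all false
set_option maxRecDepth 100000

namespace Pool.Agent.Strip051.G.I3_16_5_16.Tab.C.NB01

open Pool.Agent.Strip051.PB Pool.Agent.Strip051.PB.T
open Pool.Agent.Strip051.G.I3_16_5_16.Tab

noncomputable def cut_pm_012_a : Cut := Cut.of [[⟨0, 0, 0, 67108864⟩, ⟨1, 1, 0, 67108864⟩, ⟨2, 1, 0, 67108864⟩], [⟨0, 0, 1, 67108864⟩, ⟨1, 1, 2, 67108864⟩, ⟨2, 1, 0, 16777216⟩]]

noncomputable def f_pm_012_a : ℕ → ℕ → ℕ → ℕ → Bool := onCell 536870912 536870912 0 536870912 201326592 134217728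
    (rowN 3 2 false true false .pnp 0 1 2 (qsf 0 536870912 0 536870912 1) ndN0q0 ndN1q2a pcN1 cut_pm_012_a Ext.none)

def k0_pm_012_a : ∃ t, chk3 f_pm_012_a t 4 1 1 = true :=
  ⟨(b (a (l 2) (b (l 2) (c (l 17354648) (a (l 2) (l 17155144))))) (a (b (l 2) (a (b (l 2) (c (b (l 17452968) (c (l 17512000) (l 17382520))) (a (b (l 2) (c (l 17264264) (l 17143200))) (b (l 17203968) (c (l 17249864) (l 17128392)))))) (b (c (l 17439392) (b (l 17203136) (l 17196592))) (c (b (l 17432152) (c (l 17483752) (l 17353728))) (b (c (l 17245544) (l 17123784)) (c (b (l 17232856) (l 17221448)) (b (l 17110064) (a (l 17107408) (l 17090224))))))))) (b (c (b (l 17407312) (l 17422480)) (b (l 17182600) (a (l 17191008) (l 17171368)))) (b (c (b (l 17420088) (a (l 17420760) (l 17402672))) (b (a (l 17182384) (l 17157064)) (a (c (l 17234064) (l 17110824)) (c (l 17207664) (l 17099096))))) (a (c (b (l 17409696) (c (l 17454272) (l 17323304))) (b (c (l 17218304) (l 17092616)) (c (b (l 17201440) (l 17187472)) (b (l 17074976)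 (a (l 17071536) (l 17050680)))))) (c (b (l 17384880) (a (l 17364816) (l 17347832))) (b (c (l 17185296) (a (l 17063672) (l 17040632))) (a (c (l 17166144) (b (l 17042624) (l 17026840))) (c (b (l 17153056) (l 17135024)) (b (l 17016744) (b (l 17003432) (l 16952064)))))))))))), by decide +kernel⟩

def k1_pm_012_a : ∃ t, chk3 f_pm_012_a t 5 2 1 = true :=
  ⟨(b (a (c (l 17279384) (a (l 17100184) (l 17101160))) (c (l 17307376) (a (l 17094176) (l 17071936)))) (a (c (l 17388344) (a (l 17148264) (l 17134776))) (c (a (l 17371960) (l 17364184)) (a (l 17109736) (b (l 17071536) (l 17053824)))))), by decide +kernel⟩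

def k2_pm_012_a : ∃ t, chk3 f_pm_012_a t 10 3 1 = true :=
  ⟨(b (c (b (l 17403400) (l 17486688)) (b (a (l 17158016) (l 17131008)) (a (l 17145120) (l 17106104)))) (b (c (a (b (l 17396736) (l 17380552)) (b (l 17373152) (l 17347816))) (a (b (l 17123488) (a (l 17113928) (l 17089096))) (b (a (l 17088344) (l 17057448)) (a (l 17058184) (l 17018600))))) (c (b (a (c (l 17425232) (l 17282984)) (c (l 17387160) (l 17228864))) (a (c (l 17387376) (a (l 17257464) (l 17228136))) (c (b (l 17349216) (l 17318168)) (b (l 17187960) (a (l 17177176) (l 17133120)))))) (b (a (a (c (l 17153456) (l 17012808)) (b (l 17062056) (l 17020088))) (a (b (l 17024808) (l 16872568)) (b (l 16977624) (c (l 17030904) (l 16862816))))) (a (b (a (c (l 17126752) (l 16984368)) (c (l 17091952) (l 16899880))) (c (a (l 17105088) (l 17044072)) (a (b (l 16947152) (a (l 16967328) (l 16944240))) (b (l 16836976) (a (l 16856448) (c (l 16931352) (l 14))))))) (b (c (a (l 17049120) (l 16999008)) (a (b (l 16897256) (l 16881760)) (b (l 16837656)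 (l 14)))) (c (a (a (l 17030584) (l 16942512)) (b (l 16889192) (c (l 16997352) (a (l 16927528) (l 14))))) (a (c (b (l 16906032) (a (l 16904008) (l 14))) (l 14)) (l 14))))))))), by decide +kernel⟩

def k3_pm_012_a : ∃ t, chk3 f_pm_012_a t 11 6 1 = true :=
  ⟨(c (b (a (l 17388360) (l 17360984)) (a (l 17368904) (b (l 17335256) (l 17305984)))) (b (a (l 17086984) (l 17013544)) (a (b (l 17058232) (l 17030304)) (b (l 16965280) (l 16921840))))), by decide +kernel⟩

def k4_pm_012_a : ∃ t, chk3 f_pm_012_a t 11 7 1 = true :=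
  ⟨(b (c (a (b (l 17333256) (c (l 17380664) (l 17206000))) (b (c (l 17363184) (l 17167384)) (c (l 17310456) (a (l 17135216) (l 17074776))))) (a (b (b (l 17004280) (l 16982688)) (a (l 16968632) (l 16761656))) (b (b (l 16883304) (l 16726624)) (a (l 16647528) (l 16665872))))) (c (b (a (c (l 17327816) (a (l 17170200) (l 17121208))) (b (c (l 17258728) (l 16944808)) (c (l 17218360) (a (l 17041936) (l 16968752))))) (a (c (b (l 17277080) (a (l 17259912) (l 17212008))) (b (a (l 17119992) (l 17064208)) (a (b (l 17091576) (l 16987504)) (b (l 16969480) (c (l 17057840) (a (l 16979088) (l 14))))))) (c (b (a (l 17202896) (l 17140992)) (a (c (l 17206136) (l 17104376)) (c (l 17142896) (b (l 17046936) (a (l 17038752) (l 14)))))) (b (a (b (l 17009528) (l 16944736)) (b (l 16911568) (l 14))) (a (c (b (l 17014328) (a (l 17007712) (l 14))) (l 14)) (l 14)))))) (b (a (a (b (l 16900472) (c (l 16976480) (l 16796536))) (b (l 16770920) (c (l 16912144) (l 16718808)))) (a (b (l 16670856) (c (l 16836048) (l 16647896)))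 (b (l 16660744) (c (l 16703904) (l 16643648))))) (a (b (b (a (c (l 16949688) (l 16768312)) (c (l 16882072) (l 16687480))) (c (a (l 16909888) (l 14)) (l 14))) (c (a (a (c (l 16962392) (l 14)) (b (l 16831464) (l 14))) (l 14)) (l 14))) (a (b (b (a (l 16658256) (l 16653112)) (l 14)) (l 14)) (a (b (c (l 16658504) (l 16647144)) (l 14)) (c (b (l 16669976) (l 14)) (b (l 16646120) (b (l 16660656) (a (l 14) (a (l 14) (c (l 14) (c (l 14) (l 16647992)))))))))))))), by decide +kernel⟩

def k5_pm_012_a : ∃ t, chk3 f_pm_012_a t 3 2 1 = true :=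
  ⟨(a (a (b (c (a (l 17306552) (l 17276128)) (a (l 17022200) (l 16925952))) (c (a (l 17337472) (b (l 17288496) (l 17266392))) (a (b (l 16999912) (l 16960912)) (b (l 16876280) (l 16810784))))) (b (c (a (l 17206640) (l 16827296)) (a (l 16765672) (b (l 16737736) (l 16682648)))) (a (c (b (l 17194712) (l 17146256)) (b (l 16682512) (l 16638952))) (c (b (l 17033800) (c (l 17121216) (l 16772216))) (b (l 16636080) (l 16600168)))))) (a (b (c (a (b (l 16876888) (l 16845256)) (b (l 16675344) (l 16624888))) (a (b (l 16688344) (l 16635304)) (b (l 16635712) (l 16585248)))) (a (c (b (l 16661984) (b (l 16669144) (l 16596920))) (b (l 16591384) (b (l 16565008) (l 16551856)))) (b (c (a (l 16597184) (l 16572928)) (a (l 16556224) (l 16532608))) (c (b (l 16594808) (a (l 16564320) (l 16542424))) (a (l 16526544) (l 16526168)))))) (b (a (c (b (a (l 16634152) (l 16606104)) (a (l 16585544) (l 16558936))) (b (l 16560264) (a (l 16546664) (l 16520904)))) (b (c (a (l 16577600) (l 16548688)) (a (l 16539768) (l 16512048)))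 (c (a (l 16532008) (b (l 16514144) (l 16495136))) (a (l 16495128) (b (l 16478536) (l 16459960)))))) (a (c (b (a (l 16548352) (c (l 16533424) (l 16513760))) (a (b (l 16528488) (l 16520376)) (b (l 16505232) (l 16519256)))) (b (a (l 16508912) (b (l 16492472) (l 16477736))) (a (b (l 16488176) (l 16479256)) (b (l 16466440) (l 16458936))))) (b (c (a (b (l 16505016) (l 16491624)) (b (l 16479392) (c (l 16476664) (l 16458032)))) (a (b (l 16468368) (l 16454896)) (b (l 16444472) (l 16453344)))) (c (a (b (l 16502912) (c (l 16486664) (l 16466376))) (b (c (l 16468472) (l 16449520)) (a (l 16480872) (l 16491120)))) (a (b (l 16465968) (l 16480984)) (b (l 16465936) (l 16461696))))))))), by decide +kernel⟩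

def k6_pm_012_a : ∃ t, chk3 f_pm_012_a t 12 6 1 = true :=
  ⟨(b (c (a (l 17305728) (c (l 17332528) (l 17086192))) (a (b (l 16913680) (l 16871288)) (l 16666760))) (c (a (b (l 17260712) (l 17216872)) (b (l 17118432) (c (l 17210864) (l 16937216)))) (a (b (l 16819912) (l 16716624)) (b (l 16634432) (a (l 16640192) (l 16625384)))))), by decide +kernel⟩

def k7_pm_012_a : ∃ t, chk3 f_pm_012_a t 12 14 1 = true :=
  ⟨(a (c (b (b (l 17091744) (l 16952248)) (c (a (l 17232952) (l 17165400)) (a (l 17001056) (l 16911128)))) (b (b (l 16683640) (l 16660400)) (a (l 16652216) (l 16643136)))) (b (c (c (a (l 17175080) (l 17086312)) (l 16681216)) (a (l 16638104) (l 16624536))) (c (b (c (l 16996952) (l 16662224)) (a (l 16663072) (c (l 16947240) (l 16659032)))) (a (b (l 16633896) (l 16634664)) (b (l 16624464) (l 16627624)))))), by decide +kernel⟩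

def k8_pm_012_a : ∃ t, chk3 f_pm_012_a t 24 15 1 = true :=
  ⟨(b (c (c (a (b (l 17169032) (l 17120216)) (b (l 17092144) (l 16953128))) (b (l 16674888) (a (b (l 16894080) (l 16867904)) (l 16670936)))) (a (b (l 16648520) (c (l 16659384) (l 16639896))) (b (l 16642672) (c (l 16655200) (l 16636752))))) (c (b (b (c (a (l 17080616) (l 16866944)) (a (l 16694056) (l 16668384))) (c (a (l 16926816) (l 14)) (l 14))) (c (a (c (b (l 17082792) (a (l 17072760) (l 14))) (l 14)) (l 14)) (l 14))) (b (a (c (b (l 16661216) (l 14)) (b (l 16643280) (l 16646360))) (a (c (l 16660792) (l 16644152)) (c (l 16660000) (l 16643880)))) (b (a (c (l 14) (a (l 16660576) (l 16660720))) (c (c (l 14) (a (l 14) (l 16662120))) (a (l 16661080) (l 16672144)))) (a (a (c (l 14) (c (l 14) (b (l 16649160) (a (c (l 14) (l 16649392)) (a (l 16651616) (l 16651840)))))) (c (l 14) (c (a (l 14) (b (l 16657504) (c (l 14) (l 16658128)))) (b (l 16649848) (b (l 16651760) (a (l 16652848) (l 16653416))))))) (a (c (l 14) (c (b (l 16657976)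 (a (c (l 14) (l 16658624)) (c (l 16662608) (l 16659168)))) (b (l 16650752) (a (l 16653328) (l 16653976))))) (a (c (l 14) (b (l 16665608) (c (a (l 16661320) (l 16661616)) (l 16654672)))) (c (c (l 14) (b (l 16665960) (c (l 14) (l 16667032)))) (b (l 16655680) (c (b (l 16661320) (l 16662848)) (l 16655432))))))))))), by decide +kernel⟩

def k9_pm_012_a : ∃ t, chk3 f_pm_012_a t 25 30 1 = true :=
  ⟨(c (a (b (c (l 16997832) (l 16712408)) (c (b (l 16951632) (l 16835688)) (l 16669232))) (c (b (l 16818808) (l 16685864)) (b (l 16660792) (l 16665440)))) (a (b (l 16637376) (c (l 16651680) (l 16634288))) (b (c (l 16641984) (l 16623576)) (c (l 16648880) (l 16632560))))), by decide +kernel⟩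

def k10_pm_012_a : ∃ t, chk3 f_pm_012_a t 25 31 1 = true :=
  ⟨(c (b (b (c (a (l 16676728) (l 16688784)) (a (l 16672736) (l 16670720))) (c (l 14) (a (l 14) (a (l 14) (l 16675208))))) (a (l 14) (a (l 14) (a (l 14) (c (l 14) (c (l 14) (b (l 16677616) (b (l 16682288) (c (l 14) (b (l 16683384) (l 16685128))))))))))) (b (a (a (c (l 16669888) (l 16643816)) (c (l 16669504) (l 16643952))) (a (c (l 16672592) (l 16644280)) (c (l 16674552) (l 16644800)))) (b (a (c (a (c (l 14) (l 16662512)) (c (l 16669856) (l 16663120))) (a (l 16672928) (l 16673928))) (c (a (c (l 16670416) (l 16663936)) (c (l 16671184) (l 16664952))) (a (l 16675128) (l 16676528)))) (a (c (a (c (l 14) (b (l 16666560) (a (c (l 14) (l 16667616)) (b (l 16669064) (a (l 16675688) (l 16670776)))))) (c (a (l 14) (b (l 16674208) (b (l 16676456) (c (l 14) (l 16676520))))) (b (l 16667600) (a (c (l 16672040) (l 16668952)) (a (l 16676280) (l 16671416)))))) (a (c (b (l 16659920) (a (b (l 16661968) (l 16663560)) (l 16668752))) (b (l 16653224)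 (b (l 16655760) (l 16662752)))) (a (c (b (l 16660904) (l 16664296)) (l 16666712)) (c (b (l 16661608) (l 16665144)) (l 16657128))))) (c (b (a (c (l 16674936) (l 16668848)) (c (l 16676152) (l 16670304))) (a (a (c (b (l 16677064) (c (l 14) (l 16677240))) (b (l 16671104) (l 16678104))) (c (b (l 16677728) (c (l 16680848) (l 16678008))) (b (l 16671896) (l 16673720)))) (a (c (b (l 16678448) (c (l 16681608) (l 16678832))) (l 16678936)) (c (c (l 16686760) (l 16678768)) (l 16679864))))) (a (c (b (l 16662712) (a (l 16666040) (l 16666992))) (a (l 16658080) (l 16659088))) (c (b (l 16664424) (b (l 16667424) (l 16674720))) (b (l 16658496) (l 16662768))))))))), by decide +kernel⟩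

def k11_pm_012_a : ∃ t, chk3 f_pm_012_a t 13 6 1 = true :=
  ⟨(b (c (a (b (l 17082424) (l 16917088)) (b (l 16740504) (l 16647592))) (a (b (l 16617400) (l 16607864)) (b (l 16580768) (l 16573024)))) (c (a (b (c (l 17107704) (l 16781784)) (a (l 16686000) (l 16672144))) (b (c (l 16843104) (l 16609640)) (c (b (l 16664832) (l 16676280)) (a (l 16620544) (l 16605592))))) (a (b (l 16603568) (b (l 16603384) (l 16604472))) (b (l 16570760) (a (l 16602096) (b (l 16564200) (l 16568728))))))), by decide +kernel⟩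

def k12_pm_012_a : ∃ t, chk3 f_pm_012_a t 13 14 1 = true :=
  ⟨(a (c (b (c (a (l 16974744) (l 16834280)) (a (l 16649848) (l 16636288))) (a (c (l 16680064) (l 16650024)) (c (l 16664360) (l 16641536)))) (b (a (l 16611784) (l 16599944)) (a (b (l 16615592) (l 16621216)) (b (l 16607520) (l 16615648))))) (c (b (a (c (l 16656496) (l 16623536)) (c (l 16635352) (l 16611840))) (a (c (b (l 16651192) (l 16656120)) (b (l 16630088) (l 16637432))) (c (b (l 16642304) (l 16649808)) (b (l 16622256) (l 16632144))))) (b (a (l 16609960) (b (l 16574992) (l 16583096))) (a (b (l 16600352) (l 16631928)) (c (b (l 16603344) (l 16615408)) (l 16634608)))))), by decide +kernel⟩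

def k13_pm_012_a : ∃ t, chk3 f_pm_012_a t 26 30 1 = true :=
  ⟨(c (a (c (b (l 16695960) (b (l 16678888) (l 16679744))) (b (l 16655264) (l 16672856))) (c (b (l 16667872) (b (l 16672768) (l 16677184))) (b (l 16650568) (b (l 16657272) (l 16662896))))) (a (b (c (l 16637488) (l 16620192)) (c (l 16646832) (l 16631592))) (b (c (l 16633840) (l 16617672)) (c (l 16666600) (l 16652440))))), by decide +kernel⟩

def k14_pm_012_a : ∃ t, chk3 f_pm_012_a t 26 31 2 = true :=
  ⟨(b (a (c (b (c (l 16687064) (l 16680000)) (l 14)) (b (l 16669496) (a (l 16675232) (l 16675464)))) (c (c (b (l 16685472) (l 14)) (a (l 16682248) (l 16692712))) (b (l 16684808) (a (l 16675904) (l 16676528))))) (a (c (l 14) (b (a (c (l 14) (l 16678136)) (c (l 16684808) (l 16679088))) (b (c (a (l 14) (c (l 14) (l 16688496))) (a (l 16693624) (l 16695008))) (a (c (l 14) (b (c (l 16687104) (l 16684432)) (c (a (l 14) (l 16689360)) (a (l 16685928) (l 16686784))))) (a (c (l 14) (c (b (l 16688320) (l 16690208)) (l 16686720))) (c (a (l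 14) (c (l 14) (l 16692832))) (c (b (l 16689144) (l 16691104)) (l 16687632)))))))) (b (c (c (l 14) (a (l 14) (l 16702544))) (a (c (l 16685712) (l 16680224)) (c (l 16686808) (l 16681552)))) (c (a (l 14) (a (l 14) (c (l 14) (b (l 16697960) (c (l 14) (b (l 16699744) (b (l 16701264) (l 16702288)))))))) (b (a (c (c (l 16692424) (l 16689896)) (l 16686088)) (c (c (l 16693888) (l 16691480)) (l 16687848))) (a (c (b (c (l 16700464) (l 16692800)) (c (a (l 14) (b (l 16697192) (l 16698184))) (a (l 16694432) (l 16695368)))) (a (c (b (l 16690016) (l 16692048)) (l 16688600)) (c (l 16697232) (l 16689608)))) (c (b (c (l 16696912) (l 16694608)) (c (a (l 16701232) (l 16699584)) (a (l 16696344) (l 16697376)))) (a (c (l 16692984) (l 16690672)) (a (l 16697896) (l 16693208)))))))))), by decide +kernel⟩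

def k15_pm_012_a : ∃ t, chk3 f_pm_012_a t 26 31 3 = true :=
  ⟨(b (a (c (b (l 16655624) (a (l 16662192) (l 16662920))) (a (l 16666512) (l 16667448))) (c (b (l 16656208) (a (l 16663840) (l 16664952))) (a (l 16668592) (l 16669928)))) (a (b (c (a (c (l 16672168) (l 16666176)) (c (l 16673360) (l 16667616))) (a (l 16678136) (l 16658976))) (c (b (a (c (l 16677568) (l 16671968)) (c (l 16679192) (l 16673832))) (a (a (c (c (l 16682352) (l 16679656)) (l 16675600)) (c (b (l 16680920) (l 16688144)) (l 16676632))) (a (c (b (l 16681840) (l 16683896)) (l 16677704)) (c (b (l 16682808) (l 16684936)) (l 16678832))))) (a (a (c (l 16675896) (l 16662408)) (c (l 16679592) (l 16663616))) (b (l 16676224) (c (a (l 16672496) (l 16673744)) (l 16667856)))))) (b (c (a (c (l 16674736) (l 16669240)) (c (l 16676296) (l 16671048))) (a (l 16660976) (l 16663160))) (b (c (a (c (l 16681000) (l 16675888)) (c (l 16683000) (l 16678120))) (a (l 16678640) (l 16670760))) (c (a (a (c (b (l 16683824) (l 16686024)) (l 16680000))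 (c (l 16691272) (l 16681224))) (c (a (l 16687176) (l 16688368)) (a (l 16682488) (l 16683800)))) (a (c (l 16680864) (l 16670672)) (c (l 16688864) (l 16673680)))))))), by decide +kernel⟩

def k16_pm_012_a : ∃ t, chk3 f_pm_012_a t 27 30 1 = true :=
  ⟨(c (a (c (b (l 16662976) (b (l 16669736) (l 16685848))) (b (l 16646664) (a (l 16659328) (l 16658832)))) (c (b (a (l 16660216) (l 16658480)) (a (l 16671736) (l 16692200))) (b (l 16664832) (a (l 16658528) (l 16658512))))) (a (b (c (l 16631008) (l 16615984)) (c (a (l 16645552) (l 16645576)) (l 16653120))) (b (c (l 16629272) (l 16615400)) (c (a (l 16645800) (l 16646304)) (a (l 16633544) (l 16634600)))))), by decide +kernel⟩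

def k17_pm_012_a : ∃ t, chk3 f_pm_012_a t 54 31 2 = true :=
  ⟨(b (c (b (a (l 16682072) (l 16681992)) (c (a (l 14) (l 16691792)) (a (l 16685736) (l 16686368)))) (b (a (l 16669672) (l 16670072)) (a (l 16677328) (l 16678320)))) (b (c (c (a (l 14) (b (l 16697208) (l 16701032))) (a (b (l 16691168) (l 16695000)) (b (l 16692256) (l 16696376)))) (a (c (l 16698568) (l 16683064)) (c (l 16700024) (l 16684752)))) (c (b (c (a (l 14) (c (l 14) (l 16709160))) (a (c (l 16700128) (l 16697840)) (a (l 16700352) (l 16701240)))) (c (c (l 14) (c (l 14) (a (l 14) (a (l 14) (b (l 16707144) (l 16709344)))))) (b (a (a (a (l 16701544) (l 16701992)) (l 16707888)) (a (l 16703600) (l 16704600))) (a (c (a (l 14) (a (l 14) (l 16706104))) (a (b (l 16702208) (l 16703272)) (l 16706368))) (c (a (b (l 16706272) (l 16707376)) (b (l 16707304) (l 16708440))) (a (l 16704800) (l 16705904))))))) (b (a (c (a (l 16694064) (l 16694976)) (l 16689800)) (c (a (l 16695928) (l 16696936)) (l 16691928))) (b (a (c (c (l 16698784) (l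 16696592)) (a (l 16692848) (l 16693984))) (c (a (l 16699392) (l 16700504)) (l 16700880))) (a (c (c (a (l 16700600) (l 16701664)) (a (l 16698448) (l 16699568))) (a (l 16695200) (l 16696408))) (c (a (c (l 16702776) (l 16700736)) (c (l 16703928) (l 16701944))) (a (l 16697656) (l 16698952))))))))), by decide +kernel⟩

def k18_pm_012_a : ∃ t, chk3 f_pm_012_a t 54 31 3 = true :=
  ⟨(b (c (b (l 16678520) (a (l 16666248) (l 16667728))) (a (l 16671456) (l 16673168))) (b (c (a (c (l 16678048) (l 16673040)) (c (l 16679984) (l 16675216))) (a (l 16665528) (l 16668080))) (c (b (a (c (l 16685176) (l 16680544)) (c (l 16687536) (l 16683144))) (a (c (a (l 16689608) (l 16690896)) (a (l 16685152) (l 16686552))) (c (a (l 16692224) (l 16693600)) (a (l 16688000) (l 16689496))))) (a (b (l 16673544) (c (l 16681320) (l 16676864))) (b (l 16676512) (c (l 16684440) (l 16680216))))))), by decide +kernel⟩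

def k19_pm_012_a : ∃ t, chk3 f_pm_012_a t 55 31 2 = true :=
  ⟨(b (c (a (b (l 16682104) (c (l 16692376) (l 16687192))) (b (l 16682504) (c (l 16693272) (l 16688312)))) (a (b (l 16670656) (l 16700472)) (b (l 16671544) (l 16701944)))) (b (c (a (c (b (l 16698248) (l 16702360)) (b (l 16693520) (l 16697936))) (c (b (l 16699592) (l 16714496)) (b (l 16695088) (l 16699800)))) (a (c (l 16701664) (l 16686632)) (c (a (l 16692688) (l 16693688)) (l 16699288)))) (c (b (a (a (c (l 16706368) (l 16702176)) (c (l 16707240) (l 16703160))) (c (a (l 16708152) (l 16709144)) (a (l 16704184) (l 16705288)))) (a (c (a (c (l 14) (b (l 16708616) (a (l 16710640) (l 16711176)))) (c (a (l 14) (b (l 16711832) (l 16714104))) (b (l 16709624) (b (l 16711360) (l 16712536))))) (b (a (l 16705640) (l 16706736)) (a (c (b (l 16708376) (l 16709544)) (l 16707048)) (c (l 16710096) (l 16708240))))) (b (c (a (c (l 16712544) (l 16710680)) (c (l 16713624) (l 16711808))) (a (l 16707872) (l 16709080))) (c (a (a (c (l 16714640) (l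 16712832)) (c (l 16715184) (l 16713408))) (a (c (l 16715744) (l 16714000)) (c (l 16716328) (l 16714600)))) (a (c (l 16711280) (l 16709472)) (c (l 16712536) (l 16710784))))))) (b (a (c (a (l 16697984) (l 16699080)) (l 16694232)) (c (a (l 16700216) (l 16701432)) (l 16707320))) (a (c (a (c (l 16706520) (l 16701936)) (c (l 16710352) (l 16703200))) (a (b (l 16697656) (l 16700296)) (l 16705576))) (c (a (a (l 16710392) (l 16711048)) (c (l 16712936) (l 16705896))) (a (l 16706968) (l 16708440)))))))), by decide +kernel⟩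

def k20_pm_012_a : ∃ t, chk3 f_pm_012_a t 55 31 3 = true :=
  ⟨(b (c (a (b (l 16659520) (l 16669400)) (b (l 16660904) (l 16671360))) (a (l 16675072) (l 16677264))) (b (c (a (c (l 16682096) (l 16677576)) (c (l 16684504) (l 16680224))) (a (l 16670816) (l 16694800))) (c (a (c (b (l 16690080) (a (l 16695016) (l 16696480))) (a (l 16698680) (l 16700192))) (c (b (l 16692912) (a (l 16697992) (l 16699576))) (a (l 16701744) (l 16703368)))) (a (b (l 16679656) (c (l 16687728) (l 16683752))) (b (l 16693552) (a (l 16688552) (l 16690424))))))), by decide +kernel⟩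

def k21_pm_012_a : ∃ t, chk3 f_pm_012_a t 14 6 1 = true :=
  ⟨(a (b (c (b (l 16589192) (c (l 16598656) (l 16573120))) (b (l 16542336) (a (l 16545792) (l 16527624)))) (c (b (c (l 16600848) (l 16574240)) (a (c (l 16616648) (l 16590272)) (c (l 16600352) (l 16575152)))) (b (a (l 16545456) (l 16528712)) (a (b (l 16549456) (l 16555928)) (b (l 16535488) (l 16544176)))))) (b (c (b (a (l 16558072) (l 16537264)) (a (l 16556152) (c (l 16548896) (l 16524664)))) (b (a (l 16512920) (l 16493544)) (a (l 16509512) (l 16491624)))) (b (c (a (c (l 16571312) (l 16545816)) (c (l 16573808) (l 16549256))) (a (l 16553160) (c (l 16526880) (l 16527632)))) (c (a (c (l 16583424) (l 16559760)) (c (l 16589384) (l 16567336))) (a (c (l 16538088) (l 16539352)) (a (l 16561560) (l 16556664))))))), by decide +kernel⟩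

def k22_pm_012_a : ∃ t, chk3 f_pm_012_a t 28 14 1 = true :=
  ⟨(b (c (a (c (l 16622848) (l 16600552)) (c (l 16632072) (l 16611096))) (a (b (l 16564568) (l 16575032)) (b (l 16555144) (l 16567904)))) (c (a (c (b (l 16633464) (l 16643344)) (b (l 16614592) (l 16626824))) (c (b (l 16625328) (l 16637616)) (b (l 16607712) (l 16622296)))) (a (b (l 16609536) (c (l 16611312) (l 16596800))) (b (l 16604696) (l 16643288))))), by decide +kernel⟩

def k23_pm_012_a : ∃ t, chk3 f_pm_012_a t 28 30 1 = true :=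
  ⟨(c (a (c (b (a (l 16656496) (l 16654488)) (a (l 16691408) (l 16690552))) (b (l 16669712) (a (l 16658240) (l 16657928)))) (b (c (l 16672696) (l 16638672)) (c (b (l 16663912) (l 16694248)) (b (l 16652552) (l 16663032))))) (a (b (c (l 16648440) (l 16635824)) (c (a (l 16646592) (l 16646848)) (a (l 16635472) (l 16636336)))) (b (c (l 16626480) (l 16615144)) (c (b (l 16641872) (l 16653336)) (l 16659080))))), by decide +kernel⟩

def k24_pm_012_a : ∃ t, chk3 f_pm_012_a t 28 62 1 = true :=
  ⟨(c (a (c (a (b (l 16682584) (c (l 16693808) (l 16689096))) (b (l 16682600) (c (l 16694288) (l 16689816)))) (a (b (l 16672128) (l 16703096)) (b (l 16672656) (l 16683224)))) (c (b (c (l 16685712) (l 16681032)) (c (a (l 16695280) (l 16697080)) (a (l 16691056) (l 16693088)))) (b (l 16695184) (c (l 16698552) (l 16705064))))) (a (c (a (b (l 16662016) (l 16673024)) (b (l 16663096) (l 16674656))) (a (b (l 16652256) (l 16664144)) (l 16681136))) (c (b (l 16665472) (a (l 16676800) (l 16679680))) (b (l 16657136)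 (l 16691680))))), by decide +kernel⟩

def k25_pm_012_a : ∃ t, chk3 f_pm_012_a t 28 126 1 = true :=
  ⟨(c (a (c (a (c (a (l 16702840) (l 16703272)) (a (l 16698656) (l 16699200))) (c (b (l 16701568) (l 16706760)) (l 16710816))) (a (c (a (l 16694488) (l 16695160)) (l 16701120)) (c (l 16696472) (l 16692640)))) (c (c (b (l 16715032) (a (l 16709056) (l 16711520))) (a (l 16713064) (l 16715640))) (a (c (l 16698952) (l 16695352)) (c (l 16701744) (l 16698376))))) (a (c (a (c (l 16686584) (l 16682560)) (l 16697432)) (a (l 16697528) (l 16679448))) (c (a (l 16710984) (l 16703872)) (a (l 16683000) (l 16686848))))), by decide +kernel⟩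

def k26_pm_012_a : ∃ t, chk3 f_pm_012_a t 28 127 2 = true :=
  ⟨(a (c (b (a (c (a (l 16709928) (l 16710592)) (a (l 16706192) (l 16706960))) (c (c (l 16713072) (l 16711336)) (l 16708744))) (b (a (c (a (c (l 16714488) (l 16712728)) (l 16714448)) (a (l 16710088) (l 16711040))) (c (c (l 16717248) (l 16715624)) (l 16713184))) (a (c (a (a (c (l 16716800) (l 16715096)) (c (l 16717168) (l 16715504))) (c (l 16717968) (l 16716336))) (a (c (l 16713584) (l 16711888)) (c (l 16714704) (l 16713064)))) (c (c (a (l 16719368) (l 16720816)) (a (l 16717792) (l 16719288))) (c (l 16716992) (l 16715432)))))) (b (a (c (a (l 16702448) (l 16703336)) (l 16706960)) (c (l 16705280) (l 16701832))) (a (c (a (b (l 16706552) (l 16714584)) (b (l 16707624) (l 16710600))) (a (l 16709704) (l 16705760))) (a (c (l 16715920) (l 16707416)) (c (l 16717568) (l 16709168)))))) (c (b (c (a (c (l 16715664) (l 16714040)) (c (l 16718296) (l 16716784))) (a (l 16711600) (l 16714504))) (b (c (a (c (l 16720032) (l 16718512)) (c (l 16722840)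 (l 16721424))) (a (l 16716232) (l 16719296))) (c (a (c (a (l 16722264) (l 16723720)) (a (l 16720784) (l 16722296))) (c (a (l 16725168) (l 16726632)) (a (l 16723800) (l 16725312)))) (a (a (l 16718568) (l 16720152)) (a (l 16721736) (l 16723328)))))) (b (c (a (l 16708360) (l 16711480)) (a (l 16705128) (l 16708464))) (c (a (a (l 16719224) (l 16720880)) (b (l 16716464) (c (l 16720504) (l 16719144)))) (a (b (l 16710120) (l 16713504)) (b (l 16713624) (l 16717104))))))), by decide +kernel⟩

def k27_pm_012_a : ∃ t, chk3 f_pm_012_a t 28 127 3 = true :=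
  ⟨(c (a (b (a (c (l 16695416) (l 16691728)) (l 16696648)) (a (c (a (l 16700960) (l 16702376)) (a (l 16697440) (l 16698968))) (c (l 16705072) (l 16701832)))) (a (b (l 16700280) (c (l 16714048) (l 16705784))) (b (l 16703960) (c (b (l 16710776) (l 16714368)) (l 16709776))))) (a (a (b (l 16696688) (a (l 16692112) (l 16693832))) (b (l 16689752) (l 16707424))) (a (b (l 16693832) (l 16711704)) (b (l 16697968) (c (l 16706960) (l 16704136)))))), by decide +kernel⟩

def k28_pm_012_a : ∃ t, chk3 f_pm_012_a t 29 14 1 = true :=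
  ⟨(b (c (a (c (b (l 16594816) (l 16604968)) (l 16622408)) (c (b (l 16583640) (l 16596144)) (b (l 16564584) (l 16579080)))) (a (a (l 16597880) (l 16594504)) (b (l 16581424) (l 16598592)))) (c (b (a (c (l 16617728) (l 16601456)) (c (l 16632544) (l 16596704))) (a (c (l 16653352) (l 16618368)) (c (a (l 16629616) (l 16628808)) (l 16637488)))) (a (b (l 16600624) (c (l 16605512) (l 16593800))) (b (l 16619064) (c (l 16625976) (l 16615664)))))), by decide +kernel⟩

def k29_pm_012_a : ∃ t, chk3 f_pm_012_a t 29 30 1 = true :=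
  ⟨(c (b (a (c (b (l 16644624) (l 16653672)) (l 16658408)) (c (a (l 16648912) (l 16670104)) (b (l 16632664) (l 16644040)))) (b (a (c (l 16663768) (l 16653536)) (c (l 16686368) (l 16656272))) (a (c (l 16690488) (l 16665584)) (c (a (l 16676608) (l 16677944)) (l 16690168))))) (b (a (c (l 16647488) (l 16637488)) (a (l 16665272) (l 16656512))) (b (a (l 16671008) (c (l 16647912) (l 16640304))) (a (c (l 16657000) (l 16648984)) (a (l 16677776) (l 16680512)))))), by decide +kernel⟩

def k30_pm_012_a : ∃ t, chk3 f_pm_012_a t 29 62 1 = true :=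
  ⟨(c (a (c (b (c (l 16709320) (l 16684168)) (a (c (l 16699016) (l 16695256)) (c (l 16700992) (l 16697472)))) (b (a (l 16677000) (l 16679160)) (a (l 16689768) (l 16692352)))) (c (b (a (l 16709720) (l 16711488)) (a (c (l 16703008) (l 16699744)) (c (l 16705064) (l 16702048)))) (b (a (l 16681384) (l 16683688)) (a (l 16705480) (l 16708176))))) (a (b (c (l 16670400) (l 16663144)) (c (a (l 16682696) (l 16685784)) (l 16688216))) (b (c (l 16687720) (l 16690728)) (c (a (l 16688936) (l 16692168)) (a (l 16683200) (l 16686976)))))), by decide +kernel⟩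

def k31_pm_012_a : ∃ t, chk3 f_pm_012_a t 29 63 2 = true :=
  ⟨(b (b (c (a (c (a (l 16707904) (l 16710208)) (l 16716336)) (a (c (l 16712544) (l 16709680)) (c (l 16714904) (l 16712288)))) (a (a (l 16699624) (l 16702520)) (a (l 16705472) (l 16708464)))) (c (a (c (a (l 16714016) (l 16716528)) (a (l 16710936) (l 16713680))) (a (c (l 16719072) (l 16716464)) (c (l 16721624) (l 16719264)))) (a (a (l 16706368) (l 16709472)) (a (l 16712616) (l 16726288))))) (a (c (b (c (a (c (l 16720952) (l 16719544)) (c (l 16723624) (l 16722328))) (a (l 16717432) (l 16725640))) (b (c (a (c (l 16725656) (l 16724344)) (c (l 16728480) (l 16727288))) (a (l 16722384) (l 16725496))) (c (a (c (a (l 16728096) (l 16729560)) (a (l 16726824) (l 16728344))) (c (a (l 16731024) (l 16732488)) (a (l 16729864) (l 16731392)))) (a (a (l 16724920) (l 16726520)) (a (l 16728128) (l 16729736)))))) (b (a (c (l 16714632) (l 16711848)) (c (l 16717824) (l 16715264))) (a (c (b (l 16719768) (c (l 16723864) (l 16722616))) (b (l 16717152)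 (l 16720736))) (c (b (l 16723104) (c (l 16727240) (l 16726104))) (b (l 16720720) (l 16724400)))))) (b (c (a (c (c (l 16726312) (l 16725128)) (l 16728616)) (c (a (l 16727768) (l 16729136)) (l 16731608))) (a (c (l 16721040) (l 16718720)) (c (l 16724280) (l 16722216)))) (c (b (c (a (c (l 16731312) (l 16730240)) (c (l 16734136) (l 16733184))) (a (l 16728624) (l 16731752))) (b (c (a (l 16735952) (l 16736280)) (a (l 16731272) (l 16734472))) (c (a (c (l 16735536) (l 16734544)) (c (l 16738480) (l 16737608))) (a (c (l 16733552) (l 16732552)) (c (l 16736736) (l 16735864)))))) (a (c (b (l 16726472) (c (l 16730640) (l 16729624))) (b (l 16724320) (l 16728088))) (c (b (l 16729848) (c (l 16736672) (l 16733160))) (a (l 16734200) (l 16736048)))))))), by decide +kernel⟩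

def k32_pm_012_a : ∃ t, chk3 f_pm_012_a t 29 63 3 = true :=
  ⟨(b (c (a (a (l 16707296) (c (l 16701712) (l 16698888))) (a (c (l 16705128) (l 16702560)) (c (l 16719088) (l 16706296)))) (a (a (l 16690760) (l 16694736)) (a (l 16709272) (l 16713408)))) (a (b (c (a (l 16707680) (l 16711456)) (a (l 16702160) (l 16706416))) (c (a (c (b (l 16714528) (l 16718216)) (l 16713800)) (b (l 16717136) (a (l 16719952) (l 16721968)))) (a (c (l 16711224) (l 16708632)) (c (l 16715536) (l 16713184))))) (b (c (a (l 16725760) (l 16729640)) (a (l 16710736) (l 16715136))) (b (c (a (l 16721096) (l 16725112)) (a (l 16716808) (l 16721336))) (c (a (c (l 16726048) (l 16723992)) (c (l 16730024) (l 16728224))) (a (l 16720896) (l 16730752))))))), by decide +kernel⟩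

def k33_pm_012_a : ∃ t, chk3 f_pm_012_a t 15 6 1 = true :=
  ⟨(b (c (a (a (b (l 16537368) (c (l 16528960) (l 16505480))) (b (c (l 16506744) (l 16484944)) (c (l 16509168) (l 16507584)))) (a (b (c (l 16506720) (l 16485848)) (c (l 16521360) (l 16489384))) (a (b (l 16501856) (l 16515504)) (b (l 16484640) (b (l 16507152) (l 16528704)))))) (a (a (b (l 16474376) (l 16515992)) (b (l 16497576) (l 16519944))) (a (b (l 16479368) (b (l 16484072) (l 16527328))) (b (a (l 16476528) (l 16512440)) (b (a (l 16507304) (l 16521848)) (c (l 16533768) (a (l 16489496) (l 16503728)))))))) (a (c (b (a (c (l 16577648) (l 16554184)) (c (b (l 16534872) (l 16544976)) (l 16550192))) (a (c (a (l 16558144) (l 16572840)) (l 16576656)) (c (b (l 16557944) (l 16572784)) (c (l 16572272) (l 16563464))))) (b (a (b (l 16519632) (l 16527912)) (l 16537464)) (a (b (l 16541872) (l 16558152)) (b (l 16534288) (l 16553440))))) (c (b (a (c (a (l 16551032) (l 16544952)) (l 16532856)) (c (a (l 16539288) (l 16548768)) (a (l 16544576)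 (l 16559056)))) (a (c (a (l 16580672) (l 16577376)) (l 16561864)) (a (c (l 16563904) (l 16579376)) (c (b (l 16553536) (l 16572560)) (b (l 16562760) (l 16581120)))))) (a (b (a (l 16549504) (c (l 16538944) (l 16545040))) (a (l 16574160) (b (l 16567408) (l 16585592)))) (b (a (c (l 16552760) (b (l 16508616) (l 16523848))) (c (b (l 16516992) (l 16531968)) (b (l 16521304) (l 16536008)))) (b (a (l 16580064) (c (l 16548304) (l 16552104))) (a (c (l 16574592) (l 16557968)) (c (l 16587200) (l 16569800))))))))), by decide +kernel⟩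

def k34_pm_012_a : ∃ t, chk3 f_pm_012_a t 15 14 1 = true :=
  ⟨(a (b (c (a (c (b (l 16595080) (l 16610544)) (b (l 16577592) (l 16594944))) (b (a (l 16602856) (l 16595808)) (c (l 16617888) (l 16603600)))) (a (b (l 16575952) (l 16595816)) (b (l 16573944) (l 16590816)))) (c (a (b (c (l 16639408) (l 16615416)) (c (a (l 16628208) (l 16648816)) (a (l 16616440) (l 16637680)))) (b (c (a (l 16627912) (l 16627960)) (l 16626136)) (c (a (l 16649520) (l 16650592)) (a (l 16638912) (l 16640504))))) (a (b (a (l 16597752) (l 16619136)) (b (l 16626800) (l 16639536))) (b (l 16615848) (a (l 16635912) (l 16638328)))))) (b (a (c (c (b (a (l 16586296) (l 16584656)) (a (l 16606064) (l 16605456))) (a (l 16592608) (l 16606648))) (b (c (l 16596384) (l 16601536)) (a (l 16614376) (c (l 16603152) (l 16607568))))) (b (c (a (c (l 16583248) (l 16588048)) (c (l 16593216) (l 16601136))) (a (a (l 16614648) (l 16615464)) (c (l 16617264) (a (l 16586264) (l 16592040))))) (c (a (c (l 16605048) (l 16609696)) (c (l 16615312)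 (l 16633016))) (a (c (l 16615504) (l 16629744)) (a (c (l 16603688) (l 16606928)) (c (l 16609728) (l 16612632))))))) (a (c (c (b (a (l 16628184) (l 16628568)) (b (a (l 16645680) (l 16646784)) (a (l 16657832) (l 16659400)))) (b (l 16622496) (a (l 16642256) (l 16644152)))) (b (a (l 16614760) (b (l 16642304) (l 16642760))) (a (l 16637688) (b (l 16654136) (l 16665952))))) (b (c (a (c (l 16629120) (l 16631736)) (a (c (l 16634840) (l 16641216)) (l 6))) (a (c (l 16647280) (b (l 16613744) (l 16624496))) (a (c (l 16645824) (l 16627672)) (l 6)))) (b (a (a (c (l 16643264) (l 16652472)) (l 6)) (l 6)) (l 6)))))), by decide +kernel⟩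

def k35_pm_012_a : ∃ t, chk3 f_pm_012_a t 30 30 1 = true :=
  ⟨(c (b (a (c (a (l 16670424) (c (l 16673408) (l 16668576))) (a (l 16660664) (l 16661800))) (c (a (c (l 16674968) (l 16670376)) (a (l 16674144) (l 16675192))) (a (l 16663968) (l 16669112)))) (a (c (a (b (l 16666800) (l 16679352)) (b (l 16667976) (l 16701912))) (b (l 16680408) (a (l 16672088) (l 16674248)))) (b (c (a (l 16670360) (l 16683584)) (a (l 16663144) (l 16687296))) (c (a (l 16694256) (b (l 16683424) (l 6))) (a (l 16698488) (l 16691616)))))) (b (b (a (l 16652632) (l 16647352)) (a (c (l 16659304) (l 16652200)) (a (l 16659912) (l 16663400)))) (a (a (b (l 16668592) (l 16683352)) (b (l 16671248) (l 16686392))) (a (b (l 16674816) (l 16690360)) (b (l 16678704) (a (l 16693552) (l 6))))))), by decide +kernel⟩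

def k36_pm_012_a : ∃ t, chk3 f_pm_012_a t 30 31 1 = true :=
  ⟨(b (c (b (a (c (a (l 16702816) (c (l 16695832) (l 16692848))) (a (l 16686056) (l 16709576))) (a (a (c (l 16696688) (l 16691296)) (c (l 16708968) (l 16693288))) (l 6))) (a (c (a (c (l 16717624) (l 16704400)) (b (l 16704616) (l 16717528))) (a (c (l 16701744) (l 16699176)) (c (l 16709776) (l 16712728)))) (l 6))) (a (b (c (b (l 16698992) (l 16706592)) (a (l 16674960) (l 16678656))) (c (a (l 16695480) (b (l 16695008) (l 16702904))) (a (l 16690848) (l 16705392)))) (b (a (c (l 16708488) (l 16704224)) (l 6)) (l 6)))) (b (a (c (c (a (c (b (l 16717272) (l 16724184)) (b (l 16714920) (l 16722088))) (b (c (l 16719800) (l 16717720)) (l 6))) (a (b (l 16711504) (l 16724264)) (b (l 16725200) (l 6)))) (c (a (b (l 16707144) (l 16715064)) (b (l 16710904) (l 6))) (a (b (l 16703008) (l 16711256)) (b (l 16707320) (l 6))))) (l 6)) (b (a (a (c (c (c (a (l 16730512) (l 16731888)) (a (l 16728608) (l 16730120))) (c (l 16732800) (l 16725760))) (c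 (l 16730960) (l 16719616))) (l 6)) (l 6)) (a (a (a (c (b (c (c (l 16735816) (l 16734104)) (l 16731552)) (a (c (c (l 16739016) (l 16737400)) (l 16738904)) (l 6))) (c (c (l 16731024) (l 16729376)) (l 16737384))) (l 6)) (l 6)) (l 6))))), by decide +kernel⟩

def k37_pm_012_a : ∃ t, chk3 f_pm_012_a t 31 15 1 = true :=
  ⟨(b (a (a (b (c (b (c (l 16670344) (l 16641224)) (c (l 16683216) (l 16675992))) (b (l 16656032) (l 16668856))) (l 6)) (l 6)) (l 6)) (l 6)), by decide +kernel⟩

theorem s38_pm_012_a : ∃ t, chk3 f_pm_012_a t 30 15 1 = true := ex3_b k35_pm_012_a k36_pm_012_a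

theorem s39_pm_012_a : ∃ t, chk3 f_pm_012_a t 15 15 1 = true := ex3_a s38_pm_012_a k37_pm_012_a

theorem s40_pm_012_a : ∃ t, chk3 f_pm_012_a t 15 7 1 = true := ex3_b k34_pm_012_a s39_pm_012_a

theorem s41_pm_012_a : ∃ t, chk3 f_pm_012_a t 15 3 1 = true := ex3_b k33_pm_012_a s40_pm_012_a

theorem s42_pm_012_a : ∃ t, chk3 f_pm_012_a t 29 63 1 = true := ex3_c k31_pm_012_a k32_pm_012_a

theorem s43_pm_012_a : ∃ t, chk3 f_pm_012_a t 29 31 1 = true := ex3_b k30_pm_012_a s42_pm_012_a

theorem s44_pm_012_a : ∃ t, chk3 f_pm_012_a t 29 15 1 = true := ex3_b k29_pm_012_a s43_pm_012_a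

theorem s45_pm_012_a : ∃ t, chk3 f_pm_012_a t 29 7 1 = true := ex3_b k28_pm_012_a s44_pm_012_a

theorem s46_pm_012_a : ∃ t, chk3 f_pm_012_a t 28 127 1 = true := ex3_c k26_pm_012_a k27_pm_012_a

theorem s47_pm_012_a : ∃ t, chk3 f_pm_012_a t 28 63 1 = true := ex3_b k25_pm_012_a s46_pm_012_a

theorem s48_pm_012_a : ∃ t, chk3 f_pm_012_a t 28 31 1 = true := ex3_b k24_pm_012_a s47_pm_012_a

theorem s49_pm_012_a : ∃ t, chk3 f_pm_012_a t 28 15 1 = true := ex3_b k23_pm_012_a s48_pm_012_a

theorem s50_pm_012_a : ∃ t, chk3 f_pm_012_a t 28 7 1 = true := ex3_b k22_pm_012_a s49_pm_012_a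

theorem s51_pm_012_a : ∃ t, chk3 f_pm_012_a t 14 7 1 = true := ex3_a s50_pm_012_a s45_pm_012_a

theorem s52_pm_012_a : ∃ t, chk3 f_pm_012_a t 14 3 1 = true := ex3_b k21_pm_012_a s51_pm_012_a

theorem s53_pm_012_a : ∃ t, chk3 f_pm_012_a t 7 3 1 = true := ex3_a s52_pm_012_a s41_pm_012_a

theorem s54_pm_012_a : ∃ t, chk3 f_pm_012_a t 55 31 1 = true := ex3_c k19_pm_012_a k20_pm_012_a

theorem s55_pm_012_a : ∃ t, chk3 f_pm_012_a t 54 31 1 = true := ex3_c k17_pm_012_a k18_pm_012_a

theorem s56_pm_012_a : ∃ t, chk3 f_pm_012_a t 27 31 1 = true := ex3_a s55_pm_012_a s54_pm_012_a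

theorem s57_pm_012_a : ∃ t, chk3 f_pm_012_a t 27 15 1 = true := ex3_b k16_pm_012_a s56_pm_012_a

theorem s58_pm_012_a : ∃ t, chk3 f_pm_012_a t 26 31 1 = true := ex3_c k14_pm_012_a k15_pm_012_a

theorem s59_pm_012_a : ∃ t, chk3 f_pm_012_a t 26 15 1 = true := ex3_b k13_pm_012_a s58_pm_012_a

theorem s60_pm_012_a : ∃ t, chk3 f_pm_012_a t 13 15 1 = true := ex3_a s59_pm_012_a s57_pm_012_a

theorem s61_pm_012_a : ∃ t, chk3 f_pm_012_a t 13 7 1 = true := ex3_b k12_pm_012_a s60_pm_012_a

theorem s62_pm_012_a : ∃ t, chk3 f_pm_012_a t 13 3 1 = true := ex3_b k11_pm_012_a s61_pm_012_a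

theorem s63_pm_012_a : ∃ t, chk3 f_pm_012_a t 25 15 1 = true := ex3_b k9_pm_012_a k10_pm_012_a

theorem s64_pm_012_a : ∃ t, chk3 f_pm_012_a t 12 15 1 = true := ex3_a k8_pm_012_a s63_pm_012_a

theorem s65_pm_012_a : ∃ t, chk3 f_pm_012_a t 12 7 1 = true := ex3_b k7_pm_012_a s64_pm_012_a

theorem s66_pm_012_a : ∃ t, chk3 f_pm_012_a t 12 3 1 = true := ex3_b k6_pm_012_a s65_pm_012_a

theorem s67_pm_012_a : ∃ t, chk3 f_pm_012_a t 6 3 1 = true := ex3_a s66_pm_012_a s62_pm_012_a

theorem s68_pm_012_a : ∃ t, chk3 f_pm_012_a t 3 3 1 = true := ex3_a s67_pm_012_a s53_pm_012_a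

theorem s69_pm_012_a : ∃ t, chk3 f_pm_012_a t 3 1 1 = true := ex3_b k5_pm_012_a s68_pm_012_a

theorem s70_pm_012_a : ∃ t, chk3 f_pm_012_a t 11 3 1 = true := ex3_b k3_pm_012_a k4_pm_012_a

theorem s71_pm_012_a : ∃ t, chk3 f_pm_012_a t 5 3 1 = true := ex3_a k2_pm_012_a s70_pm_012_a

theorem s72_pm_012_a : ∃ t, chk3 f_pm_012_a t 5 1 1 = true := ex3_b k1_pm_012_a s71_pm_012_a

theorem s73_pm_012_a : ∃ t, chk3 f_pm_012_a t 2 1 1 = true := ex3_a k0_pm_012_a s72_pm_012_a

theorem s74_pm_012_a : ∃ t, chk3 f_pm_012_a t 1 1 1 = true := ex3_a s73_pm_012_a s69_pm_012_a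

theorem c_pm_012_a : CertN 0 536870912 0 536870912 201326592 134217728 3 false true false .pnp 0 1 2
    ndN0q0 ndN1q2a pcN1 cut_pm_012_a Ext.none :=
  certN2 (fam := false) (s1 := true) (s2 := false) (a := 0) (b := 1) (c := 2) (cn := .pnp) (n1 := ndN0q0) (n2 := ndN1q2a) (pc := pcN1) (cut := cut_pm_012_a) (xt := Ext.none) (P1 := 0) (W1 := 536870912) (P2 := 0) (W2 := 536870912) (P3 := 201326592) (W3 := 134217728) (N0 := 3)
    rfl (fun _ => rfl) s74_pm_012_a

noncomputable def cut_pm_012_b : Cut := Cut.of [[⟨0, 0, 0, 67108864⟩, ⟨1, 1, 0, 67108864⟩, ⟨2, 1, 0, 67108864⟩], [⟨0, 0, 1, 67108864⟩, ⟨1, 1, 2, 67108864⟩, ⟨2, 1, 0, 16777216⟩]]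

noncomputable def f_pm_012_b : ℕ → ℕ → ℕ → ℕ → Bool := onCell 536870912 536870912 1239849684 370763052 201326592 134217728
    (rowN 3 2 false true false .pnp 0 1 2 (qsf 0 536870912 1239849684 370763052 1) ndN0q0 ndN1q2b pcN1 cut_pm_012_b Ext.none)

def k0_pm_012_b : ∃ t, chk3 f_pm_012_b t 2 1 1 = true :=
  ⟨(b (a (l 2) (b (b (a (c (l 17283360) (a (l 17074744) (l 17080392))) (c (l 17280152) (a (l 17082936) (l 17074928)))) (a (l 2) (c (l 17304712) (l 17101096)))) (a (l 2) (b (l 29629964279) (l 2))))) (l 2)), by decide +kernel⟩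

def k1_pm_012_b : ∃ t, chk3 f_pm_012_b t 3 1 1 = true :=
  ⟨(b (a (b (a (a (b (c (l 17299768) (l 17045664)) (l 17215616)) (b (c (l 17293520) (l 16982504)) (l 17165808))) (b (a (c (l 17256352) (l 16865824)) (c (l 17172936) (l 16728136))) (c (a (l 17358288) (l 17327824)) (a (l 16987904) (l 16867216))))) (a (b (c (l 17387832) (l 17127792)) (c (l 17403536) (l 17166600))) (b (c (l 17437336) (a (l 17090456) (l 17024856))) (c (l 17490992) (l 17158304))))) (b (a (b (a (c (l 16789912) (b (l 16697080) (l 16655568))) (c (b (l 16680616) (l 16857480)) (b (l 16642568) (l 16599672)))) (a (c (l 17252656) (l 16672800)) (c (l 17111208) (l 16535800)))) (b (a (c (b (a (l 16637696) (l 16608488)) (l 16574424)) (a (l 16578016) (b (l 16570784) (l 16524800)))) (c (a (b (l 16578664) (l 16527864)) (b (l 16548328) (l 16496256))) (a (b (l 16541568) (l 16494064)) (b (l 16512136) (l 16463016))))) (a (c (b (l 16747392) (l 16974568)) (b (l 16495160) (l 16450032))) (c (a (l 16576824) (l 16439768)) (a (l 16424056)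 (l 16411504)))))) (a (a (b (c (l 17421824) (l 16909016)) (l 17081320)) (b (c (l 17362680) (l 16723272)) (c (l 17532672) (l 16982872)))) (b (a (c (l 17242904) (l 16439176)) (c (a (l 17093640) (l 16954080)) (a (l 16329856) (l 16293608)))) (a (c (l 17494960) (l 16813992)) (c (l 17403152) (l 16555512))))))) (a (b (a (l 2) (b (c (l 17508792) (l 17219744)) (l 17504392))) (l 2)) (b (a (a (b (l 17403384) (l 17447304)) (b (l 17361864) (l 17485072))) (b (c (a (l 17655040) (l 17642160)) (a (l 17081384) (l 16934376))) (c (l 17995416) (a (l 17261888) (l 17196608))))) (a (b (c (l 17628032) (l 17333136)) (l 2)) (a (a (l 17562568) (l 17594800)) (b (l 17482712) (l 17652760))))))), by decide +kernel⟩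

theorem s2_pm_012_b : ∃ t, chk3 f_pm_012_b t 1 1 1 = true := ex3_a k0_pm_012_b k1_pm_012_b

theorem c_pm_012_b : CertN 0 536870912 1239849684 370763052 201326592 134217728 3 false true false .pnp 0 1 2
    ndN0q0 ndN1q2b pcN1 cut_pm_012_b Ext.none :=
  certN2 (fam := false) (s1 := true) (s2 := false) (a := 0) (b := 1) (c := 2) (cn := .pnp) (n1 := ndN0q0) (n2 := ndN1q2b) (pc := pcN1) (cut := cut_pm_012_b) (xt := Ext.none) (P1 := 0) (W1 := 536870912) (P2 := 1239849684) (W2 := 370763052) (P3 := 201326592) (W3 := 134217728) (N0 := 3)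
    rfl (fun _ => rfl) s2_pm_012_b

noncomputable def cut_pm_022_a : Cut := Cut.of [[⟨0, 0, 0, 67108864⟩, ⟨1, 1, 0, 67108864⟩, ⟨2, 1, 0, 67108864⟩]]

noncomputable def f_pm_022_a : ℕ → ℕ → ℕ → ℕ → Bool := onCell 0 536870912 0 536870912 201326592 134217728
    (rowN 3 0 false true false .pp 0 2 2 (qsf 0 536870912 0 536870912 2) ndN0q0 ndN1q2a pcN2 cut_pm_022_a Ext.none)

def k0_pm_022_a : ∃ t, chk3 f_pm_022_a t 2 2 1 = true :=
  ⟨(a (a (b (a (c (b (l 16529320) (c (l 16525000) (l 16524024))) (b (l 16505112) (l 16541488))) (c (b (l 16492536) (l 16526032)) (c (b (l 16451344) (l 16484424)) (l 16540768)))) (a (a (b (c (l 16577784) (l 16529672)) (c (c (l 16584104) (l 16581376)) (l 16617576))) (b (c (l 16556176) (l 16510176)) (c (c (l 16560696) (l 16559032)) (l 16575848)))) (b (c (c (l 16522736) (a (l 16492272) (l 16470608))) (c (l 16522856) (l 16521328))) (c (a (c (l 16537032) (l 16536400)) (b (l 16507088) (l 16519312))) (a (l 16554768) (l 16533304)))))) (b (c (a (b (l 16454376) (a (l 16452864)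 (l 16431424))) (b (l 16442496) (a (l 16423784) (l 16426536)))) (a (a (l 16493544) (l 16475064)) (b (l 16408840) (l 16407416)))) (a (b (c (c (l 16486992) (l 16479168)) (a (l 16470720) (l 16428776))) (c (a (b (l 16483432) (l 16516016)) (c (l 16484520) (l 16466008))) (b (l 16494768) (l 16515896)))) (c (b (c (l 16456328) (l 16441768)) (b (c (l 16456240) (l 16447592)) (a (l 16472496) (c (l 16450472) (l 16441864))))) (b (l 16442464) (a (l 16466344) (l 16464184))))))) (a (a (b (c (b (c (l 16414664) (l 16402968)) (c (l 16432744) (l 16420936))) (b (l 16407912) (l 16415312))) (a (b (c (b (l 16432080) (l 16439648)) (l 16415816)) (c (c (a (l 16463392) (l 16462192)) (l 16463344)) (b (l 16410368) (l 16446544)))) (b (c (c (l 16419416) (l 16407504)) (l 16412136)) (l 1)))) (b (b (l 1) (l 1)) (l 1))) (l 1))), by decide +kernel⟩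

def k1_pm_022_a : ∃ t, chk3 f_pm_022_a t 8 6 1 = true :=
  ⟨(a (a (b (c (b (c (l 16585176) (l 16581840)) (c (l 16622240) (l 16597496))) (b (l 16575584) (l 16632872))) (a (b (c (c (l 16625168) (l 16621104)) (l 16614392)) (c (c (l 16665424) (l 16661528)) (l 16676312))) (b (c (l 16642536) (l 16603264)) (c (c (l 16652992) (l 16649528)) (l 16644024))))) (b (b (c (l 16580936) (l 16554024)) (c (c (l 16597744) (l 16573976)) (l 16589880))) (c (c (b (l 16615120) (b (l 16629192) (l 16639080))) (b (l 16612224) (l 16652272))) (b (l 16628280) (c (l 16649312) (l 16646200)))))) (b (c (c (b (l 16566072) (a (l 16572904) (l 16547624))) (a (l 16595184) (l 16571104))) (a (b (l 16532096) (l 16567448)) (b (l 16530720) (l 16544568)))) (b (c (a (b (l 16584504) (l 16593464)) (b (l 16559392) (l 16573400))) (a (l 16605392) (l 16582024))) (c (a (c (b (l 16603776) (l 16613544)) (l 16617160)) (c (b (l 16577872) (l 16588208)) (l 16581536))) (a (b (l 16598520) (l 16608496)) (l 16587528)))))), by decide +kernel⟩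

def k2_pm_022_a : ∃ t, chk3 f_pm_022_a t 9 6 1 = true :=
  ⟨(c (b (a (b (a (l 16518328) (l 16492848)) (a (c (l 16521832) (l 16521904)) (c (l 16514344) (l 16509704)))) (b (a (c (l 16490224) (l 16462568)) (c (l 16489656) (l 16460840))) (a (c (l 16513088) (b (l 16479840) (l 16492616))) (l 1)))) (a (b (b (c (l 16537328) (l 16531728)) (a (l 16544656) (a (l 16537136) (l 16543432)))) (b (a (c (l 16567512) (l 16543840)) (c (l 16564416) (l 16560600))) (a (c (a (l 16585544) (l 16562744)) (l 16582160)) (l 1)))) (b (a (b (c (l 16511264) (l 16505896)) (l 1)) (l 1)) (l 1)))) (b (a (a (a (l 16541480) (l 16529800)) (b (l 16484544) (l 16503232))) (b (a (l 16474352) (l 16470840)) (a (l 16509488) (l 1)))) (a (b (a (l 16537144) (a (l 16532856) (l 16530256))) (b (a (l 16560776) (a (l 16535360) (l 1))) (a (l 16580864) (l 1)))) (b (b (a (l 16519024) (l 1)) (l 1)) (l 1))))), by decide +kernel⟩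

def k3_pm_022_a : ∃ t, chk3 f_pm_022_a t 4 7 1 = true :=
  ⟨(a (b (a (b (b (c (c (a (a (l 16659920) (l 16647416)) (l 16649408)) (a (l 16671056) (l 16646672))) (a (c (l 16667472) (l 16663856)) (l 16653032))) (b (c (c (a (l 16682744) (l 16657480)) (a (l 16679272) (l 16654792))) (a (c (l 16675840) (l 16672440)) (l 16650880))) (l 6))) (l 6)) (b (a (a (c (b (l 16629176) (c (l 16641232) (l 16618224))) (l 16631272)) (c (c (l 16625360) (l 16621048)) (l 16625256))) (c (b (c (l 16607032) (l 16605768)) (a (c (l 16627776) (l 16605904)) (c (b (l 16599576) (l 16609176)) (l 16623976)))) (b (l 16603584) (a (l 16625104) (a (l 16622336) (l 16620480)))))) (a (l 6) (a (l 6) (a (l 6) (l 1)))))) (a (l 6) (a (l 6) (l 1)))) (a (b (b (a (b (c (a (c (l 16593376) (l 16580848)) (c (l 16580728) (l 16578160))) (a (l 16598440) (l 16573952))) (a (b (c (l 16596288) (l 16592008)) (l 1)) (l 1))) (l 1)) (l 1)) (l 1)) (l 1))), by decide +kernel⟩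

def k4_pm_022_a : ∃ t, chk3 f_pm_022_a t 5 3 1 = true :=
  ⟨(b (l 1) (l 1)), by decide +kernel⟩

def k5_pm_022_a : ∃ t, chk3 f_pm_022_a t 3 1 1 = true :=
  ⟨(l 1), by decide +kernel⟩

theorem s6_pm_022_a : ∃ t, chk3 f_pm_022_a t 4 6 1 = true := ex3_a k1_pm_022_a k2_pm_022_a

theorem s7_pm_022_a : ∃ t, chk3 f_pm_022_a t 4 3 1 = true := ex3_b s6_pm_022_a k3_pm_022_a

theorem s8_pm_022_a : ∃ t, chk3 f_pm_022_a t 2 3 1 = true := ex3_a s7_pm_022_a k4_pm_022_a

theorem s9_pm_022_a : ∃ t, chk3 f_pm_022_a t 2 1 1 = true := ex3_b k0_pm_022_a s8_pm_022_a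

theorem s10_pm_022_a : ∃ t, chk3 f_pm_022_a t 1 1 1 = true := ex3_a s9_pm_022_a k5_pm_022_a

theorem c_pm_022_a : CertN 0 536870912 0 536870912 201326592 134217728 3 false true false .pp 0 2 2
    ndN0q0 ndN1q2a pcN2 cut_pm_022_a Ext.none :=
  certN0 (fam := false) (s1 := true) (s2 := false) (a := 0) (b := 2) (c := 2) (cn := .pp) (n1 := ndN0q0) (n2 := ndN1q2a) (pc := pcN2) (cut := cut_pm_022_a) (xt := Ext.none) (P1 := 0) (W1 := 536870912) (P2 := 0) (W2 := 536870912) (P3 := 201326592) (W3 := 134217728) (N0 := 3)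
    rfl s10_pm_022_a

noncomputable def cut_pm_022_b : Cut := Cut.of [[⟨0, 0, 0, 67108864⟩, ⟨1, 1, 0, 67108864⟩, ⟨2, 1, 0, 67108864⟩]]

noncomputable def f_pm_022_b : ℕ → ℕ → ℕ → ℕ → Bool := onCell 1073741824 536870912 1239849684 370763052 201326592 134217728
    (rowN 3 2 false true false .pp 0 2 2 (qsf 0 536870912 1239849684 370763052 2) ndN0q0 ndN1q2b pcN2 cut_pm_022_b Ext.none)

def k0_pm_022_b : ∃ t, chk3 f_pm_022_b t 2 2 1 = true :=
  ⟨(a (b (a (b (c (a (c (a (l 16422008) (l 16420016)) (l 16427744)) (b (l 16440992) (l 16390024))) (a (b (l 16410536) (l 16365768)) (l 16434064))) (c (a (c (b (l 16444632) (l 16857376)) (l 16330584)) (b (l 16351200) (l 16488872))) (a (c (l 16312048) (l 16315672)) (l 16341472)))) (b (b (a (c (l 16443456) (l 16404944)) (c (l 16478808) (a (l 16393616) (l 16425888)))) (c (a (l 16382080) (l 16412480)) (a (l 16361344) (l 16354456)))) (c (a (b (l 16343016) (l 16472936)) (b (l 16330016) (l 16468536))) (a (l 16336488) (l 16362208))))) (a (c (b (a (c (l 17323232)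 (l 16483048)) (c (l 17286512) (l 16703080))) (a (c (l 17747088) (l 17258656)) (l 17343024))) (b (a (l 16274144) (l 16243752)) (a (b (l 16360104) (l 16639680)) (l 16368392)))) (c (b (a (c (l 17256648) (l 16680896)) (c (l 17233888) (l 16668144))) (a (l 17438800) (l 17414096))) (b (a (l 16234520) (l 16223824)) (a (l 16450528) (l 16437536)))))) (b (a (a (b (b (c (l 16515064) (l 16492088)) (c (l 16431032) (l 16410504))) (c (l 16395920) (l 16379952))) (b (b (c (a (l 83248063255) (l 117607837959)) (l 82711238439)) (c (l 16490352) (l 16444560))) (c (b (l 16386648) (l 16502008)) (l 16397112)))) (a (b (b (l 1) (c (l 126734617095) (l 112239094023))) (c (b (l 16469920) (l 16541968)) (l 30097748327))) (b (l 1) (b (c (l 168610365143) (l 141766960311)) (c (l 59088972535) (l 16382520)))))) (a (c (b (a (l 16817344) (l 16924016)) (a (l 17394872) (l 17381920))) (b (a (l 16229408) (l 16250832)) (a (l 16433960) (l 16440200)))) (b (c (a (l 16958968) (b (l 16866016) (l 17095592))) (a (l 16294752) (l 16318120)))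 (c (a (l 17376600) (l 17380328)) (a (l 16457584) (l 16488168))))))), by decide +kernel⟩

def k1_pm_022_b : ∃ t, chk3 f_pm_022_b t 2 3 1 = true :=
  ⟨(a (b (a (c (b (c (l 18002672) (l 17589776)) (l 17997816)) (b (a (b (l 16872328) (l 17066000)) (l 16937696)) (a (l 17298672) (l 17262264)))) (c (b (l 17741856) (l 17952424)) (b (a (l 16909832) (l 16889128)) (a (l 17234784) (l 17212272))))) (a (c (b (l 18115080) (l 18165832)) (b (a (l 17523400) (l 17488088)) (l 17649736))) (c (b (l 18085152) (l 18154136)) (b (l 17450184) (l 17604160))))) (b (a (c (b (l 17699312) (l 17914008)) (b (a (l 16875240) (l 16868240)) (l 17187728))) (c (b (l 17672432) (l 17883104)) (b (l 16871992) (l 17172464)))) (a (c (l 18104040) (b (l 17415792) (l 17575056))) (c (l 18079992) (l 17481208))))), by decide +kernel⟩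

def k2_pm_022_b : ∃ t, chk3 f_pm_022_b t 3 1 1 = true :=
  ⟨(a (b (b (l 1) (a (b (a (c (b (l 181495709031) (l 17128912)) (l 136935008279)) (c (l 251826654007) (l 209949313415))) (c (a (l 17393200) (l 17420592)) (a (l 16533152) (l 16595224)))) (a (c (l 277060072999) (l 219076330071)) (l 1)))) (b (c (a (b (l 17668808) (l 17863616)) (b (l 17704312) (l 17864800))) (a (b (l 16910632) (l 17180696)) (b (a (l 16972024) (l 17036088)) (l 17224296)))) (a (c (l 18055864) (l 17470336)) (c (l 18037152) (l 17475600))))) (b (l 1) (a (b (b (l 1) (c (l 17907912) (l 303366998167))) (c (l 18030840) (l 17507904))) (b (l 1) (l 802322625223))))), by decide +kernel⟩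

theorem s3_pm_022_b : ∃ t, chk3 f_pm_022_b t 2 1 1 = true := ex3_b k0_pm_022_b k1_pm_022_b

theorem s4_pm_022_b : ∃ t, chk3 f_pm_022_b t 1 1 1 = true := ex3_a s3_pm_022_b k2_pm_022_b

theorem c_pm_022_b : CertN 0 536870912 1239849684 370763052 201326592 134217728 3 false true false .pp 0 2 2
    ndN0q0 ndN1q2b pcN2 cut_pm_022_b Ext.none :=
  certN2 (fam := false) (s1 := true) (s2 := false) (a := 0) (b := 2) (c := 2) (cn := .pp) (n1 := ndN0q0) (n2 := ndN1q2b) (pc := pcN2) (cut := cut_pm_022_b) (xt := Ext.none) (P1 := 0) (W1 := 536870912) (P2 := 1239849684) (W2 := 370763052) (P3 := 201326592) (W3 := 134217728) (N0 := 3)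
    rfl (fun _ => rfl) s4_pm_022_b

noncomputable def f_pm_023 : ℕ → ℕ → ℕ → ℕ → Bool := onCell 0 536870912 1073741824 536870912 201326592 134217728
    (rowN 3 1 false true false .up 0 2 3 (qsf 0 536870912 1610612736 536870912 2) ndN0q0 ndN1q3 pcN2 Cut.none Ext.none)

def k0_pm_023 : ∃ t, chk3 f_pm_023 t 1 1 1 = true :=
  ⟨(a (b (b (l 1) (a (l 1) (b (l 1) (l 260417614167)))) (b (a (b (l 1) (l 295314081735)) (c (l 313032513431) (l 308199553639))) (a (b (l 307662077111) (l 340411739239)) (b (l 17948136) (l 17931336))))) (b (a (b (c (l 247533416583) (l 215856693623)) (c (l 287799638519) (l 286187858855))) (a (b (l 253975254647) (l 17958872)) (b (b (l 17945608) (l 17941928)) (l 17901048)))) (b (a (c (l 18167312) (l 17773384)) (l 17847520)) (a (l 17885936) (l 17693456))))), by decide +kernel⟩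

theorem c_pm_023 : CertN 0 536870912 1610612736 536870912 201326592 134217728 3 false true false .up 0 2 3
    ndN0q0 ndN1q3 pcN2 Cut.none Ext.none :=
  certN1 (fam := false) (s1 := true) (s2 := false) (a := 0) (b := 2) (c := 3) (cn := .up) (n1 := ndN0q0) (n2 := ndN1q3) (pc := pcN2) (cut := Cut.none) (xt := Ext.none) (P1 := 0) (W1 := 536870912) (P2 := 1610612736) (W2 := 536870912) (P3 := 201326592) (W3 := 134217728) (N0 := 3)
    rfl (fun _ => rfl) k0_pm_023

noncomputable def f_pm_033 : ℕ → ℕ → ℕ → ℕ → Bool := onCell 1610612736 536870912 1610612736 536870912 201326592 134217728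
    (rowN 3 2 false true false .pnn 0 3 3 (qsf 0 536870912 1610612736 536870912 3) ndN0q0 ndN1q3 pcN3 Cut.none Ext.none)

def k0_pm_033 : ∃ t, chk3 f_pm_033 t 1 1 1 = true :=
  ⟨(a (b (a (a (b (l 4) (c (l 18046200) (l 17727024))) (l 4)) (l 4)) (a (b (a (b (l 17777872) (l 17658192)) (a (l 17738272) (l 17731936))) (a (b (l 17499144) (l 17300840)) (b (l 17571968) (l 17420024)))) (b (l 4) (a (a (l 17522384) (l 17525128)) (l 4))))) (l 4)), by decide +kernel⟩

theorem c_pm_033 : CertN 0 536870912 1610612736 536870912 201326592 134217728 3 false true false .pnn 0 3 3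
    ndN0q0 ndN1q3 pcN3 Cut.none Ext.none :=
  certN2 (fam := false) (s1 := true) (s2 := false) (a := 0) (b := 3) (c := 3) (cn := .pnn) (n1 := ndN0q0) (n2 := ndN1q3) (pc := pcN3) (cut := Cut.none) (xt := Ext.none) (P1 := 0) (W1 := 536870912) (P2 := 1610612736) (W2 := 536870912) (P3 := 201326592) (W3 := 134217728) (N0 := 3)
    rfl (fun _ => rfl) k0_pm_033

noncomputable def f_pm_101 : ℕ → ℕ → ℕ → ℕ → Bool := onCell 0 536870912 536870912 536870912 201326592 134217728
    (rowN 3 2 false true false .npn 1 0 1 (qsf 536870912 536870912 536870912 536870912 0) ndN0q1 ndN1q1 pcN0 Cut.none Ext.none)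

def k0_pm_101 : ∃ t, chk3 f_pm_101 t 1 1 1 = true :=
  ⟨(a (b (l 4) (a (b (a (b (l 4) (a (l 17727472) (l 4))) (l 4)) (a (b (c (l 17961240) (l 17694968)) (c (l 17935096) (l 17651376))) (b (c (l 17920456) (l 17653608)) (c (l 17981008) (l 17693168))))) (b (l 4) (b (l 4) (a (c (l 17992424) (l 17692856)) (a (l 17815232) (l 4))))))) (l 4)), by decide +kernel⟩

theorem c_pm_101 : CertN 536870912 536870912 536870912 536870912 201326592 134217728 3 false true false .npn 1 0 1
    ndN0q1 ndN1q1 pcN0 Cut.none Ext.none :=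
  certN2 (fam := false) (s1 := true) (s2 := false) (a := 1) (b := 0) (c := 1) (cn := .npn) (n1 := ndN0q1) (n2 := ndN1q1) (pc := pcN0) (cut := Cut.none) (xt := Ext.none) (P1 := 536870912) (W1 := 536870912) (P2 := 536870912) (W2 := 536870912) (P3 := 201326592) (W3 := 134217728) (N0 := 3)
    rfl (fun _ => rfl) k0_pm_101

noncomputable def cut_pm_102_a : Cut := Cut.of [[⟨0, 1, 0, 67108864⟩, ⟨1, 0, 0, 67108864⟩, ⟨2, 1, 0, 67108864⟩]]

noncomputable def f_pm_102_a : ℕ → ℕ → ℕ → ℕ → Bool := onCell 536870912 536870912 0 536870912 201326592 134217728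
    (rowN 3 0 false true false .npp 1 0 2 (qsf 536870912 536870912 0 536870912 0) ndN0q1 ndN1q2a pcN0 cut_pm_102_a Ext.none)

def k0_pm_102_a : ∃ t, chk3 f_pm_102_a t 2 1 1 = true :=
  ⟨(b (a (a (l 2) (b (l 2) (c (l 17466872) (l 17138832)))) (a (a (b (l 17014208) (l 17083616)) (b (l 16955888) (l 17023192))) (a (b (l 16899960) (l 16962856)) (b (l 16891128) (l 16947528))))) (a (b (a (l 2) (c (l 17310264) (b (l 17192264) (l 17233944)))) (b (a (c (l 82243712519) (a (l 2) (l 17359448))) (c (l 17400944) (l 17324960))) (a (c (c (l 17651080) (a (l 17554192) (l 17497592))) (c (a (l 17472912) (l 17423672)) (a (b (l 17397144) (l 17400000)) (l 17398712)))) (c (b (l 17445432) (l 17449648)) (c (b (l 17347904) (l 17350936)) (b (l 17311456) (l 17295088))))))) (b (a (c (l 17177536) (l 17106360)) (c (a (l 17074760) (l 17005168)) (b (l 16975672) (l 17020952)))) (b (a (c (l 17273688) (l 17181752)) (c (l 17139808) (l 17077232))) (a (c (c (l 17380016) (l 17511816)) (a (b (l 17249752) (l 17255312)) (b (l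 17201728) (l 17210064)))) (c (b (l 17303896) (l 17338616)) (b (a (l 17151848) (l 17101896)) (l 17287232)))))))), by decide +kernel⟩

def k1_pm_102_a : ∃ t, chk3 f_pm_102_a t 3 2 1 = true :=
  ⟨(a (a (b (b (a (l 16815944) (c (l 16818992) (a (l 16786408) (l 16782472)))) (l 16989656)) (c (l 17023480) (l 17050248))) (c (b (a (b (a (l 131164361655) (l 142438671255)) (a (l 16804048) (l 115058235095))) (b (l 3) (a (l 134922462007) (l 149954848567)))) (a (l 16883456) (b (a (l 16807464) (b (l 133311827463) (l 16804208))) (l 16832272)))) (b (a (b (a (l 128479962471) (l 140827949783)) (a (l 16801104) (l 119353226375))) (b (l 3) (a (b (l 139754209623) (l 132774961511)) (l 144049193559)))) (a (l 16952640) (b (a (l 16806416) (b (l 133311784215) (l 16800976))) (l 16879584)))))) (a (b (l 3) (a (b (c (a (b (l 148881068199) (l 135459277895)) (l 3)) (a (b (l 148881021879) (a (l 119890047207) (l 138143613767))) (l 3))) (c (a (b (l 16816768) (l 16804592)) (b (a (l 134385521879) (l 140827965495)) (a (l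 16796552) (l 119353162567)))) (a (b (a (l 16801640) (l 16794760)) (l 16807320)) (b (a (l 133311822391) (l 140827963063)) (a (l 16797184) (b (l 131701166247) (l 16791912))))))) (c (b (l 3) (a (b (l 3) (a (b (l 141364836823) (l 135459261463)) (l 3))) (l 3))) (b (l 3) (a (b (l 3) (a (b (l 146733541175) (l 133848644263)) (l 3))) (l 3)))))) (l 3))), by decide +kernel⟩

def k2_pm_102_a : ∃ t, chk3 f_pm_102_a t 6 3 1 = true :=
  ⟨(b (b (a (l 17006640) (l 17013520)) (a (c (l 16939112) (l 16918992)) (a (l 16882536) (l 16879808)))) (b (a (c (l 17012272) (l 16976304)) (a (l 16914368) (l 16969872))) (b (a (c (l 17076472) (l 17028416)) (a (l 16974488) (l 16924656))) (a (c (l 17099976) (l 17072080)) (c (l 17163632) (l 17215912)))))), by decide +kernel⟩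

def k3_pm_102_a : ∃ t, chk3 f_pm_102_a t 14 6 1 = true :=
  ⟨(a (b (a (l 16856424) (b (c (l 16801792) (l 16802000)) (l 16829928))) (l 16938256)) (b (a (c (b (a (b (l 16790416) (l 16794488)) (b (l 137606741383) (a (l 16789360) (l 122037486887)))) (a (l 16799968) (l 16793368))) (b (a (b (l 115058166903) (l 16792672)) (b (a (l 133311769463) (l 140291086167)) (a (l 16786472) (l 120963737879)))) (a (l 16798408) (l 16790456)))) (b (a (a (b (l 3) (c (l 138143609463) (l 137069859143))) (l 3)) (l 3)) (a (c (b (c (l 123648098887) (l 132774901175)) (l 16788224)) (b (a (b (l 118816247895) (l 16783104)) (b (l 137606727031) (l 130627407303))) (a (l 16786192) (l 16781880)))) (b (a (b (l 3) (c (l 140291088919) (l 145122916391))) (l 3)) (a (b (c (l 134922381079) (a (l 129553660135) (l 136532981415))) (c (l 119353124039) (l 117205628279))) (b (l 3) (c (l 137069862199) (a (l 133848626327) (l 144586042087))))))))) (a (b (c (l 16803856) (l 16802552)) (l 16826976)) (b (a (c (l 16794176) (l 16791016)) (b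 (a (c (l 16786840) (l 16782320)) (b (b (c (l 132238025543) (l 130090525719)) (c (l 16782608) (l 117205624983))) (c (l 16784160) (l 16779160)))) (c (l 16789024) (l 16784896)))) (c (l 16818912) (l 16826960)))))), by decide +kernel⟩

def k4_pm_102_a : ∃ t, chk3 f_pm_102_a t 30 12 1 = true :=
  ⟨(l 3), by decide +kernel⟩

def k5_pm_102_a : ∃ t, chk3 f_pm_102_a t 60 13 1 = true :=
  ⟨(b (a (b (a (a (b (c (l 138680473399) (l 137606719863)) (c (l 122037474759) (c (l 120426853575) (l 119889976071)))) (c (c (l 134385507943) (l 134922373607)) (c (l 135459238519) (l 136532973591)))) (b (l 3) (l 3))) (a (c (c (l 16784504) (l 16782328)) (b (a (l 16778272) (l 16773440)) (l 16779552))) (b (b (a (c (l 136532988455) (a (l 132238009975) (l 138680459575))) (l 3)) (c (a (l 122574342439) (l 138680469623)) (c (l 133848625575) (l 134922360903)))) (a (c (l 16781664) (l 16776248)) (c (c (l 124184960679) (l 124184955543)) (c (l 123648078903) (l 122574330727))))))) (b (l 3) (a (b (l 3) (a (c (c (l 137606731175)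 (l 137069854759)) (c (l 136532977799) (l 135996100247))) (l 3))) (l 3)))) (a (b (a (l 16785384) (c (l 16783672) (l 16778656))) (l 16808424)) (b (a (b (a (c (c (l 16781160) (l 16778592)) (c (l 120963720823) (l 119889972343))) (c (c (l 127943054359) (l 127943048855)) (c (l 127943042839) (b (l 137606711847) (l 129553649639))))) (c (a (l 16781848) (l 16779976)) (a (l 16776536) (l 16774336)))) (b (b (l 3) (b (l 3) (a (c (c (l 139754212807) (l 139754207063)) (c (l 139217329959) (l 144049161511))) (l 3)))) (a (c (c (l 126869312247) (l 126332435815)) (c (b (l 133848621671) (l 16774272)) (b (l 132774873351) (l 120963710919)))) (b (l 3) (c (c (l 137069857575) (l 137069851783)) (c (l 136532974679) (l 137606709927))))))) (a (c (l 16783744) (l 16778832)) (b (a (c (l 16780016) (l 16774440)) (c (c (l 125258699335) (l 124721822903)) (c (b (l 125258686855) (l 16774336)) (b (l 129016776871) (l 16771248))))) (c (l 16780840) (l 16775488))))))), by decide +kernel⟩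

def k6_pm_102_a : ∃ t, chk3 f_pm_102_a t 61 13 1 = true :=
  ⟨(b (l 3) (a (b (l 3) (a (b (a (c (c (l 135996114983) (b (l 139217334151) (l 133311754727))) (c (b (l 139217327847) (l 132238006807)) (b (l 139754192087) (a (l 125258676583) (l 139754192151))))) (l 3)) (a (c (c (l 16779088) (l 16776344)) (c (l 123648070807) (b (l 16769944) (l 16770896)))) (c (c (b (l 135996112711) (l 127406178567)) (b (l 134922364967) (l 127943043767))) (c (b (l 134385487895) (l 127943037847)) (b (a (l 131701127623) (l 141901673335)) (l 127943031671)))))) (b (l 3) (b (l 3) (a (a (c (c (l 137069852567) (l 136532975703)) (c (l 135996098647) (l 140291059607))) (l 3)) (l 3)))))) (l 3))), by decide +kernel⟩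

def k7_pm_102_a : ∃ t, chk3 f_pm_102_a t 31 6 1 = true :=
  ⟨(l 3), by decide +kernel⟩

def k8_pm_102_a : ∃ t, chk3 f_pm_102_a t 14 14 1 = true :=
  ⟨(a (c (l 16954080) (l 16940088)) (b (a (l 16810312) (l 16839888)) (l 16900320))), by decide +kernel⟩

def k9_pm_102_a : ∃ t, chk3 f_pm_102_a t 60 28 1 = true :=
  ⟨(b (a (l 16791208) (c (l 16785032) (l 16780608))) (a (l 16794536) (l 16786512))), by decide +kernel⟩

def k10_pm_102_a : ∃ t, chk3 f_pm_102_a t 122 28 1 = true :=
  ⟨(b (a (a (c (l 16779776) (l 16774664)) (b (c (l 16776920) (l 16771320)) (l 16775800))) (b (a (c (c (b (l 133311755911) (l 16776464)) (b (l 132238008263) (l 16773664))) (c (b (l 131164260471) (l 16770792)) (b (l 131701125239) (l 16767840)))) (a (b (a (b (l 3) (c (c (l 141364817639) (l 139754198951)) (l 141901673415))) (l 3)) (c (c (l 130627399351) (l 132238006247)) (c (l 131701129399) (l 132237994263)))) (a (b (l 3) (c (c (l 138143591047) (l 137606714183)) (c (l 137606708151) (l 138680443831)))) (l 3)))) (a (c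 (l 16776152) (l 16770728)) (b (c (c (l 127943042087) (l 127943036375)) (c (l 127943034775) (l 126332416519))) (c (l 16774312) (l 16768760)))))) (a (l 16779832) (c (l 16777600) (l 16772840)))), by decide +kernel⟩

def k11_pm_102_a : ∃ t, chk3 f_pm_102_a t 123 28 1 = true :=
  ⟨(b (a (b (l 3) (a (a (b (c (c (l 136532976935) (l 135996100087)) (c (l 136532965031) (l 137069829943))) (c (c (l 16774088) (l 16771224)) (c (l 16768352) (l 16765480)))) (b (l 3) (c (c (l 134922363095) (l 133848615415)) (c (l 134385480455) (l 134922345511))))) (a (b (l 3) (b (l 3) (c (c (l 139754200071) (l 140291065015)) (l 141364803191)))) (l 3)))) (l 3)) (a (b (a (c (c (l 16774616) (l 16771880)) (b (l 16767272) (l 16768312))) (b (c (c (l 135459232503) (l 134385484791)) (c (l 135459220791) (l 136532956855))) (c (c (l 127943040423) (l 128479908663)) (c (l 128479903191) (l 126332414055))))) (c (l 16774312) (l 16769400))) (b (a (a (b (l 3) (c (c (l 136532972519) (l 135459224839)) (c (l 134922348183) (l 135459213463))))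 (l 3)) (l 3)) (a (b (c (c (a (l 16772296) (l 131701133975)) (l 129553645767)) (c (l 130090511239) (l 129016764087))) (c (c (l 16772888) (l 16770328)) (l 16766544))) (a (b (b (l 3) (c (c (l 140291067479) (l 139217320007)) (l 138143580439))) (c (c (l 130090521143) (l 129553644887)) (c (l 128479897847) (l 127406150919)))) (b (l 3) (b (l 3) (c (c (l 137069841719) (l 135996094535)) (a (l 133311740503) (l 139217322263)))))))))), by decide +kernel⟩

def k12_pm_102_a : ∃ t, chk3 f_pm_102_a t 30 29 1 = true :=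
  ⟨(a (a (l 16797992) (l 16812376)) (a (b (c (l 16784496) (l 16781440)) (l 16809552)) (b (a (c (l 16778080) (l 16774304)) (b (a (c (l 16773504) (l 16769008)) (b (c (a (l 16771192) (c (l 129016781879) (l 128479905831))) (c (l 126332417623) (l 124721800087))) (c (l 16771928) (l 16767408)))) (c (l 16775008) (l 16771152)))) (c (l 16802216) (l 16799672))))), by decide +kernel⟩

def k13_pm_102_a : ∃ t, chk3 f_pm_102_a t 62 28 1 = true :=
  ⟨(l 3), by decide +kernel⟩

def k14_pm_102_a : ∃ t, chk3 f_pm_102_a t 124 29 1 = true :=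
  ⟨(b (a (b (a (b (c (c (a (l 136532970503) (l 141901678695)) (a (l 133848610759) (l 141901673367))) (c (l 137069830647) (l 135996083831))) (c (c (c (l 130627392615) (l 130090519255)) (a (l 16769056) (l 131701127303))) (c (a (l 16766720) (l 131164251623)) (l 127943022647)))) (a (a (b (l 3) (c (c (l 139217323959) (l 139217318951)) (c (l 138680443175) (l 138143567527)))) (l 3)) (l 3))) (a (c (c (l 16772736) (l 16770616)) (b (l 16766656) (l 16768360))) (b (c (c (c (a (l 130627391623) (l 138143583031)) (l 134922358615)) (a (l 130090514919) (l 137606706135))) (c (a (l 129016768583) (l 137069830615)) (l 132237988919))) (c (a (l 16770672) (b (c (l 130090521255) (l 129553645895)) (l 16769888))) (c (l 126869288119) (l 125258671223)))))) (b (l 3) (a (b (l 3) (c (c (a (b (l 139217323175) (l 133311743799)) (l 141901677207)) (a (l 135459227975) (l 141901672583))) (c (a (l 134385476567) (l 141364797207)) (l 135996084519)))) (l 3)))) (a (b (a (l 16772680) (c (l 16772176) (l 16768536))) (l 16785200))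 (b (a (b (c (c (a (l 16770824) (b (l 135996102935) (l 130627391463))) (a (l 16768792) (b (l 135459222487) (l 130090516279)))) (c (a (l 16766808) (l 132237993575)) (l 128479894423))) (c (c (l 16771592) (l 16769720)) (l 16766992))) (b (a (a (b (l 3) (c (c (l 137069839127) (l 136532964023)) (c (l 135996089063) (l 134922343335)))) (l 3)) (l 3)) (c (c (a (b (l 133311745927) (l 16770288)) (c (l 137606710823) (l 137606708759))) (a (b (l 132237997447) (l 16768368)) (b (l 141364801671) (l 135459222359)))) (c (a (l 129553639815) (l 136532959991)) (a (l 130090509527) (l 135996085303)))))) (a (c (l 16772800) (l 16769680)) (b (c (a (l 16770400) (b (c (l 131164261639) (l 130090516071)) (l 16769640))) (c (a (l 16767800) (l 128479900407)) (l 125795543015))) (c (l 16771304) (l 16768168))))))), by decide +kernel⟩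

def k15_pm_102_a : ∃ t, chk3 f_pm_102_a t 125 29 1 = true :=
  ⟨(b (l 3) (a (b (l 3) (a (b (c (c (a (c (l 135996098183) (l 135459225335)) (b (l 3) (l 141364805463))) (a (b (l 138680447399) (l 132237997431)) (l 141364801431))) (c (a (l 134922347943) (l 141901668567)) (a (l 133848602631) (l 141901664935)))) (c (a (c (l 16770488) (l 16768784)) (b (a (c (l 133311742631) (l 133311741335)) (l 6)) (l 6))) (a (l 16768968) (c (l 132774865143) (l 131701120087))))) (b (l 3) (l 6)))) (l 3))), by decide +kernel⟩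

def k16_pm_102_a : ∃ t, chk3 f_pm_102_a t 63 14 1 = true :=
  ⟨(l 3), by decide +kernel⟩

def k17_pm_102_a : ∃ t, chk3 f_pm_102_a t 7 15 1 = true :=
  ⟨(b (b (a (a (l 16864808) (l 16886736)) (a (a (l 16805192) (a (l 16792768) (l 16785952))) (a (a (a (l 16800640) (b (c (l 16774664) (l 16772128)) (l 6))) (l 6)) (l 6)))) (a (a (l 16886984) (l 16860232)) (a (a (l 16831000) (l 16838584)) (l 6)))) (a (c (a (l 16924064) (l 16978320)) (a (l 16945136) (l 17007576))) (a (a (c (l 16881520) (l 16873224)) (a (c (l 16865960) (l 16882144)) (l 6))) (l 6)))), by decide +kernel⟩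

theorem s18_pm_102_a : ∃ t, chk3 f_pm_102_a t 62 29 1 = true := ex3_a k14_pm_102_a k15_pm_102_a

theorem s19_pm_102_a : ∃ t, chk3 f_pm_102_a t 62 14 1 = true := ex3_b k13_pm_102_a s18_pm_102_a

theorem s20_pm_102_a : ∃ t, chk3 f_pm_102_a t 31 14 1 = true := ex3_a s19_pm_102_a k16_pm_102_a

theorem s21_pm_102_a : ∃ t, chk3 f_pm_102_a t 61 28 1 = true := ex3_a k10_pm_102_a k11_pm_102_a

theorem s22_pm_102_a : ∃ t, chk3 f_pm_102_a t 30 28 1 = true := ex3_a k9_pm_102_a s21_pm_102_a

theorem s23_pm_102_a : ∃ t, chk3 f_pm_102_a t 30 14 1 = true := ex3_b s22_pm_102_a k12_pm_102_a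

theorem s24_pm_102_a : ∃ t, chk3 f_pm_102_a t 15 14 1 = true := ex3_a s23_pm_102_a s20_pm_102_a

theorem s25_pm_102_a : ∃ t, chk3 f_pm_102_a t 7 14 1 = true := ex3_a k8_pm_102_a s24_pm_102_a

theorem s26_pm_102_a : ∃ t, chk3 f_pm_102_a t 7 7 1 = true := ex3_b s25_pm_102_a k17_pm_102_a

theorem s27_pm_102_a : ∃ t, chk3 f_pm_102_a t 30 13 1 = true := ex3_a k5_pm_102_a k6_pm_102_a

theorem s28_pm_102_a : ∃ t, chk3 f_pm_102_a t 30 6 1 = true := ex3_b k4_pm_102_a s27_pm_102_a

theorem s29_pm_102_a : ∃ t, chk3 f_pm_102_a t 15 6 1 = true := ex3_a s28_pm_102_a k7_pm_102_a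

theorem s30_pm_102_a : ∃ t, chk3 f_pm_102_a t 7 6 1 = true := ex3_a k3_pm_102_a s29_pm_102_a

theorem s31_pm_102_a : ∃ t, chk3 f_pm_102_a t 7 3 1 = true := ex3_b s30_pm_102_a s26_pm_102_a

theorem s32_pm_102_a : ∃ t, chk3 f_pm_102_a t 3 3 1 = true := ex3_a k2_pm_102_a s31_pm_102_a

theorem s33_pm_102_a : ∃ t, chk3 f_pm_102_a t 3 1 1 = true := ex3_b k1_pm_102_a s32_pm_102_a

theorem s34_pm_102_a : ∃ t, chk3 f_pm_102_a t 1 1 1 = true := ex3_a k0_pm_102_a s33_pm_102_a

theorem c_pm_102_a : CertN 536870912 536870912 0 536870912 201326592 134217728 3 false true false .npp 1 0 2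
    ndN0q1 ndN1q2a pcN0 cut_pm_102_a Ext.none :=
  certN0 (fam := false) (s1 := true) (s2 := false) (a := 1) (b := 0) (c := 2) (cn := .npp) (n1 := ndN0q1) (n2 := ndN1q2a) (pc := pcN0) (cut := cut_pm_102_a) (xt := Ext.none) (P1 := 536870912) (W1 := 536870912) (P2 := 0) (W2 := 536870912) (P3 := 201326592) (W3 := 134217728) (N0 := 3)
    rfl s34_pm_102_a

noncomputable def cut_pm_102_b : Cut := Cut.of [[⟨0, 1, 0, 67108864⟩, ⟨1, 0, 0, 67108864⟩, ⟨2, 1, 0, 67108864⟩]]

noncomputable def f_pm_102_b : ℕ → ℕ → ℕ → ℕ → Bool := onCell 536870912 536870912 0 536870912 201326592 134217728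
    (rowN 3 1 false true false .npp 1 0 2 (qsf 536870912 536870912 1239849684 370763052 0) ndN0q1 ndN1q2b pcN0 cut_pm_102_b Ext.none)

def k0_pm_102_b : ∃ t, chk3 f_pm_102_b t 1 1 1 = true :=
  ⟨(b (a (l 1) (a (l 1) (l 3))) (a (b (l 1) (a (l 1) (a (b (l 1) (a (l 366180027831) (b (l 347926265335) (l 17050448)))) (b (a (b (l 1) (l 333430668183)) (b (l 362421612615) (l 16971400))) (c (l 116535132583) (l 17075248)))))) (b (a (b (a (l 1) (l 3)) (a (b (a (l 1) (a (l 1) (b (l 1) (c (l 154652436967) (l 158410554407))))) (a (l 324303765863) (a (l 174516806167) (c (b (l 16817688) (l 16839000)) (l 16819880))))) (a (a (b (b (l 3) (a (l 297594309879) (l 3))) (c (l 132238196215) (l 139217389671))) (l 3)) (l 3)))) (l 3)) (a (a (b (b (a (l 16952624) (c (l 16856256) (a (l 16808208) (l 16830840)))) (a (l 16846104) (l 16894064))) (a (l 16992360) (b (l 16952344) (l 17003064)))) (c (b (a (b (a (l 131164578295) (l 246591901927)) (l 119353692567)) (l 3)) (a (b (l 17060080) (l 17103192)) (b (l 291689402343)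 (l 123648996071)))) (b (a (b (a (l 140291235207) (l 218137568775)) (l 141901936327)) (l 3)) (a (b (l 16976232) (l 17050904)) (b (l 270751263591) (l 137607381415)))))) (l 3))))), by decide +kernel⟩

theorem c_pm_102_b : CertN 536870912 536870912 1239849684 370763052 201326592 134217728 3 false true false .npp 1 0 2
    ndN0q1 ndN1q2b pcN0 cut_pm_102_b Ext.none :=
  certN1 (fam := false) (s1 := true) (s2 := false) (a := 1) (b := 0) (c := 2) (cn := .npp) (n1 := ndN0q1) (n2 := ndN1q2b) (pc := pcN0) (cut := cut_pm_102_b) (xt := Ext.none) (P1 := 536870912) (W1 := 536870912) (P2 := 1239849684) (W2 := 370763052) (P3 := 201326592) (W3 := 134217728) (N0 := 3)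
    rfl (fun _ => rfl) k0_pm_102_b

noncomputable def f_pm_112_a : ℕ → ℕ → ℕ → ℕ → Bool := onCell 536870912 536870912 0 536870912 201326592 134217728
    (rowN 3 0 false true false .dn 1 1 2 (qsf 536870912 536870912 0 536870912 1) ndN0q1 ndN1q2a pcN1 Cut.none Ext.none)

def k0_pm_112_a : ∃ t, chk3 f_pm_112_a t 1 1 1 = true :=
  ⟨(a (b (a (b (a (c (b (l 17238928) (l 17290280)) (b (l 17082208) (l 17114192))) (c (a (l 17249800) (l 17243160)) (a (l 17093224) (l 17092376)))) (a (c (l 17356440) (l 17219280)) (c (b (l 17324744) (l 17373160)) (b (l 17146664) (l 17180696))))) (a (b (c (a (l 17227272) (l 17208008)) (a (l 17086800) (l 17079184))) (a (b (a (l 17237496) (l 17240872)) (l 17286168)) (l 1))) (l 1))) (a (a (a (b (c (l 17417944) (l 17189832)) (b (c (l 17442816) (b (l 17202920) (l 17207616))) (a (c (b (l 17449296) (l 17458736)) (b (l 17205544) (c (l 17269240) (l 17148216)))) (c (l 199214117671) (b (l 17217760) (l 177738640903)))))) (b (c (l 17422224) (l 17202912)) (b (c (l 17456712)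 (b (l 17221296) (l 17228280))) (b (c (l 17474080) (l 165927659655)) (l 1))))) (b (c (l 17453496) (b (l 17209024) (l 17233064))) (b (c (l 64459828375) (a (l 17243664) (l 1))) (l 1)))) (b (l 1) (l 1)))) (l 1)), by decide +kernel⟩

theorem c_pm_112_a : CertN 536870912 536870912 0 536870912 201326592 134217728 3 false true false .dn 1 1 2
    ndN0q1 ndN1q2a pcN1 Cut.none Ext.none :=
  certN0 (fam := false) (s1 := true) (s2 := false) (a := 1) (b := 1) (c := 2) (cn := .dn) (n1 := ndN0q1) (n2 := ndN1q2a) (pc := pcN1) (cut := Cut.none) (xt := Ext.none) (P1 := 536870912) (W1 := 536870912) (P2 := 0) (W2 := 536870912) (P3 := 201326592) (W3 := 134217728) (N0 := 3)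
    rfl k0_pm_112_a

noncomputable def f_pm_112_b : ℕ → ℕ → ℕ → ℕ → Bool := onCell 536870912 536870912 536870912 536870912 201326592 134217728
    (rowN 3 1 false true false .dn 1 1 2 (qsf 536870912 536870912 1239849684 370763052 1) ndN0q1 ndN1q2b pcN1 Cut.none Ext.none)

def k0_pm_112_b : ∃ t, chk3 f_pm_112_b t 1 1 1 = true :=
  ⟨(b (a (b (a (c (a (b (l 1) (l 175054513175)) (b (l 180423202487) (l 17215008))) (a (b (l 1) (b (l 157337538407) (l 132641500663))) (b (l 166464393271) (l 114924782871)))) (b (a (c (l 113851333671) (b (l 17042704) (l 17064360))) (c (l 17169984) (l 17205688))) (a (c (l 17229952) (l 17100592)) (l 17207136)))) (a (a (b (c (l 17267528) (l 122441126871)) (c (l 17317856) (l 17117528))) (b (l 17193464) (l 17251840))) (a (b (l 17220832) (l 17276184)) (b (l 17237712) (l 17281112))))) (b (a (b (a (c (l 17175176) (l 17138520)) (a (b (l 17168768) (l 17201888)) (b (c (l 17203208) (l 134923088247)) (l 162303637687)))) (a (l 17205264) (c (l 17308584) (l 76941662743)))) (a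 (b (l 3) (a (l 349671617223) (l 3))) (l 3))) (a (b (a (l 17238192) (l 17367448)) (a (l 17261744) (l 17216872))) (a (b (a (l 295917913383) (l 2)) (l 2)) (l 2))))) (a (b (a (a (b (c (l 17401872) (l 17169528)) (l 17372984)) (b (l 17312480) (l 17376960))) (a (l 17495040) (l 17575240))) (a (a (c (l 17696608) (l 17390464)) (b (l 17448888) (l 17537384))) (a (l 17553904) (l 2)))) (b (a (a (l 112845045975) (l 2)) (l 2)) (l 2)))), by decide +kernel⟩

theorem c_pm_112_b : CertN 536870912 536870912 1239849684 370763052 201326592 134217728 3 false true false .dn 1 1 2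
    ndN0q1 ndN1q2b pcN1 Cut.none Ext.none :=
  certN1 (fam := false) (s1 := true) (s2 := false) (a := 1) (b := 1) (c := 2) (cn := .dn) (n1 := ndN0q1) (n2 := ndN1q2b) (pc := pcN1) (cut := Cut.none) (xt := Ext.none) (P1 := 536870912) (W1 := 536870912) (P2 := 1239849684) (W2 := 370763052) (P3 := 201326592) (W3 := 134217728) (N0 := 3)
    rfl (fun _ => rfl) k0_pm_112_b

noncomputable def cut_pm_113 : Cut := Cut.of [[⟨0, 1, 0, 57167902⟩, ⟨1, 1, 0, 57167902⟩, ⟨2, 2, 0, 11758673⟩]]

noncomputable def f_pm_113 : ℕ → ℕ → ℕ → ℕ → Bool := onCell 536870912 536870912 536870912 536870912 201326592 134217728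
    (rowN 3 1 false true false .nn 1 1 3 (qsf 536870912 536870912 1610612736 536870912 1) ndN0q1 ndN1q3 pcN1 cut_pm_113 Ext.none)

def k0_pm_113 : ∃ t, chk3 f_pm_113 t 1 1 1 = true :=
  ⟨(b (a (b (l 1) (a (l 1) (a (l 1) (l 182571054247)))) (b (a (a (l 1) (b (l 1) (a (l 1) (l 176665154247)))) (a (b (l 3) (a (b (l 310480139559) (l 154250668247)) (l 3))) (l 3))) (a (a (l 156801331047) (b (b (l 17242368) (l 17238728)) (l 17219616))) (a (b (a (c (l 17294024) (l 157472056135)) (l 3)) (b (l 173041232583) (l 151566608007))) (l 3))))) (a (b (a (b (l 1) (l 160021724471)) (a (l 17273656) (l 17257784))) (a (a (b (l 17432608) (l 17584256)) (b (l 17389176) (l 17493144))) (a (l 17624088) (l 17290632)))) (b (a (b (l 17420536) (l 17255936)) (a (b (l 17372312) (l 17080096)) (a (b (l 292226227959) (l 17168616)) (l 3)))) (a (a (l 17192488) (l 17108536)) (a (c (l 17159304) (l 17209960)) (a (b (l 17002664) (l 16903472)) (b (a (l 17037016) (l 3)) (a (l 16931496) (a (b (l 16866024) (l 16834064)) (a (b (l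 3) (c (l 16825168) (l 16824560))) (b (l 3) (c (b (l 3) (b (l 355039489431) (a (l 16786544) (l 6)))) (b (l 3) (b (l 352355135191) (a (l 16786136) (l 6)))))))))))))))), by decide +kernel⟩

theorem c_pm_113 : CertN 536870912 536870912 1610612736 536870912 201326592 134217728 3 false true false .nn 1 1 3
    ndN0q1 ndN1q3 pcN1 cut_pm_113 Ext.none :=
  certN1 (fam := false) (s1 := true) (s2 := false) (a := 1) (b := 1) (c := 3) (cn := .nn) (n1 := ndN0q1) (n2 := ndN1q3) (pc := pcN1) (cut := cut_pm_113) (xt := Ext.none) (P1 := 536870912) (W1 := 536870912) (P2 := 1610612736) (W2 := 536870912) (P3 := 201326592) (W3 := 134217728) (N0 := 3)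
    rfl (fun _ => rfl) k0_pm_113

noncomputable def cut_pm_123 : Cut := Cut.of [[⟨0, 1, 0, 57167902⟩, ⟨1, 1, 0, 57167902⟩, ⟨2, 2, 0, 11758673⟩]]

noncomputable def f_pm_123 : ℕ → ℕ → ℕ → ℕ → Bool := onCell 1073741824 536870912 1610612736 536870912 201326592 134217728
    (rowN 3 2 false true false .npn 1 2 3 (qsf 536870912 536870912 1610612736 536870912 2) ndN0q1 ndN1q3 pcN2 cut_pm_123 Ext.none)

def k0_pm_123 : ∃ t, chk3 f_pm_123 t 1 1 1 = true :=
  ⟨(a (b (a (b (b (a (c (l 18119928) (l 17761568)) (l 241091439239)) (a (l 17886152) (a (l 17911808) (l 17924856)))) (a (b (l 17769976) (l 17611288)) (a (l 17832432) (a (l 17776376) (l 17876312))))) (a (b (b (l 1) (l 17947200)) (a (b (l 17868112) (l 17749624)) (l 17860064))) (b (l 1) (b (l 17923960) (l 17825176))))) (a (b (a (b (l 17424384) (l 17219680)) (a (b (l 17502640) (l 17305600)) (a (l 17442808) (b (l 17563056) (l 17373768))))) (a (b (a (l 16996160) (l 17046384)) (a (b (l 16880816) (b (l 16830688) (b (l 16847984) (l 6)))) (b (l 16912592)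 (l 16836584)))) (a (b (l 17102648) (l 16912376)) (a (b (l 17146080) (l 16947736)) (b (l 17171960) (l 16971880)))))) (a (b (a (a (l 17636512) (b (l 17606824) (l 17425168))) (b (l 17634792) (l 17454320))) (a (a (b (l 17198984) (l 16998240)) (b (l 17434600) (a (l 17016304) (l 17028464)))) (b (l 17256160) (l 17049472)))) (a (b (l 17590912) (l 17324176)) (b (l 17634072) (l 17288696)))))) (b (a (b (l 1) (a (b (l 1) (l 17880896)) (l 1))) (l 1)) (a (b (a (b (l 17761920) (l 17617000)) (b (l 17819880) (l 17687728))) (a (b (l 17431232) (l 17220800)) (b (l 17532232) (l 17329128)))) (b (a (b (l 1) (l 17742488)) (l 1)) (a (b (l 17603912) (l 17442592)) (b (l 17649960) (l 17511944))))))), by decide +kernel⟩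

theorem c_pm_123 : CertN 536870912 536870912 1610612736 536870912 201326592 134217728 3 false true false .npn 1 2 3
    ndN0q1 ndN1q3 pcN2 cut_pm_123 Ext.none :=
  certN2 (fam := false) (s1 := true) (s2 := false) (a := 1) (b := 2) (c := 3) (cn := .npn) (n1 := ndN0q1) (n2 := ndN1q3) (pc := pcN2) (cut := cut_pm_123) (xt := Ext.none) (P1 := 536870912) (W1 := 536870912) (P2 := 1610612736) (W2 := 536870912) (P3 := 201326592) (W3 := 134217728) (N0 := 3)
    rfl (fun _ => rfl) k0_pm_123

noncomputable def f_pm_133 : ℕ → ℕ → ℕ → ℕ → Bool := onCell 536870912 536870912 1610612736 536870912 201326592 134217728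
    (rowN 3 0 false true false .dn 1 3 3 (qsf 536870912 536870912 1610612736 536870912 3) ndN0q1 ndN1q3 pcN3 Cut.none Ext.none)

def k0_pm_133 : ∃ t, chk3 f_pm_133 t 1 1 1 = true :=
  ⟨(a (b (l 1) (a (a (b (l 1) (a (l 17098160) (l 1))) (l 1)) (l 1))) (l 1)), by decide +kernel⟩

theorem c_pm_133 : CertN 536870912 536870912 1610612736 536870912 201326592 134217728 3 false true false .dn 1 3 3
    ndN0q1 ndN1q3 pcN3 Cut.none Ext.none :=
  certN0 (fam := false) (s1 := true) (s2 := false) (a := 1) (b := 3) (c := 3) (cn := .dn) (n1 := ndN0q1) (n2 := ndN1q3) (pc := pcN3) (cut := Cut.none) (xt := Ext.none) (P1 := 536870912) (W1 := 536870912) (P2 := 1610612736) (W2 := 536870912) (P3 := 201326592) (W3 := 134217728) (N0 := 3)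
    rfl k0_pm_133

noncomputable def cut_pm_202_a : Cut := Cut.of [[⟨0, 1, 0, 67108864⟩, ⟨1, 0, 0, 67108864⟩, ⟨2, 1, 0, 67108864⟩]]

noncomputable def f_pm_202_a : ℕ → ℕ → ℕ → ℕ → Bool := onCell 0 536870912 0 536870912 201326592 134217728
    (rowN 3 0 false true false .pp 2 0 2 (qsf 0 536870912 0 536870912 0) ndN0q2 ndN1q2a pcN0 cut_pm_202_a Ext.none)

def k0_pm_202_a : ∃ t, chk3 f_pm_202_a t 1 1 1 = true :=
  ⟨(a (l 3) (b (l 3) (a (l 3) (b (l 3) (a (l 3) (b (l 3) (l 6))))))), by decide +kernel⟩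

theorem c_pm_202_a : CertN 0 536870912 0 536870912 201326592 134217728 3 false true false .pp 2 0 2
    ndN0q2 ndN1q2a pcN0 cut_pm_202_a Ext.none :=
  certN0 (fam := false) (s1 := true) (s2 := false) (a := 2) (b := 0) (c := 2) (cn := .pp) (n1 := ndN0q2) (n2 := ndN1q2a) (pc := pcN0) (cut := cut_pm_202_a) (xt := Ext.none) (P1 := 0) (W1 := 536870912) (P2 := 0) (W2 := 536870912) (P3 := 201326592) (W3 := 134217728) (N0 := 3)
    rfl k0_pm_202_a

noncomputable def cut_pm_202_b : Cut := Cut.of [[⟨0, 1, 0, 67108864⟩, ⟨1, 0, 0, 67108864⟩, ⟨2, 1, 0, 67108864⟩]]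

noncomputable def f_pm_202_b : ℕ → ℕ → ℕ → ℕ → Bool := onCell 0 536870912 1239849684 370763052 201326592 134217728
    (rowN 3 0 false true false .pp 2 0 2 (qsf 0 536870912 1239849684 370763052 0) ndN0q2 ndN1q2b pcN0 cut_pm_202_b Ext.none)

def k0_pm_202_b : ∃ t, chk3 f_pm_202_b t 1 1 1 = true :=
  ⟨(l 3), by decide +kernel⟩

theorem c_pm_202_b : CertN 0 536870912 1239849684 370763052 201326592 134217728 3 false true false .pp 2 0 2
    ndN0q2 ndN1q2b pcN0 cut_pm_202_b Ext.none :=
  certN0 (fam := false) (s1 := true) (s2 := false) (a := 2) (b := 0) (c := 2) (cn := .pp) (n1 := ndN0q2) (n2 := ndN1q2b) (pc := pcN0) (cut := cut_pm_202_b) (xt := Ext.none) (P1 := 0) (W1 := 536870912) (P2 := 1239849684) (W2 := 370763052) (P3 := 201326592) (W3 := 134217728) (N0 := 3)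
    rfl k0_pm_202_b

noncomputable def f_pm_203 : ℕ → ℕ → ℕ → ℕ → Bool := onCell 0 536870912 0 536870912 201326592 134217728
    (rowN 3 1 false true false .up 2 0 3 (qsf 0 536870912 1610612736 536870912 0) ndN0q2 ndN1q3 pcN0 Cut.none Ext.none)

def k0_pm_203 : ∃ t, chk3 f_pm_203 t 1 1 1 = true :=
  ⟨(l 3), by decide +kernel⟩

theorem c_pm_203 : CertN 0 536870912 1610612736 536870912 201326592 134217728 3 false true false .up 2 0 3
    ndN0q2 ndN1q3 pcN0 Cut.none Ext.none :=
  certN1 (fam := false) (s1 := true) (s2 := false) (a := 2) (b := 0) (c := 3) (cn := .up) (n1 := ndN0q2) (n2 := ndN1q3) (pc := pcN0) (cut := Cut.none) (xt := Ext.none) (P1 := 0) (W1 := 536870912) (P2 := 1610612736) (W2 := 536870912) (P3 := 201326592) (W3 := 134217728) (N0 := 3)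
    rfl (fun _ => rfl) k0_pm_203

noncomputable def cut_pm_213 : Cut := Cut.of [[⟨0, 1, 0, 57167902⟩, ⟨1, 1, 0, 57167902⟩, ⟨2, 2, 0, 11758673⟩]]

noncomputable def f_pm_213 : ℕ → ℕ → ℕ → ℕ → Bool := onCell 0 536870912 1610612736 536870912 201326592 134217728
    (rowN 3 0 false true false .pnn 2 1 3 (qsf 0 536870912 1610612736 536870912 1) ndN0q2 ndN1q3 pcN1 cut_pm_213 Ext.none)

def k0_pm_213 : ∃ t, chk3 f_pm_213 t 1 1 1 = true :=
  ⟨(b (l 3) (a (l 3) (b (l 3) (a (l 3) (a (l 3) (b (l 3) (a (l 3) (a (l 3) (b (l 3) (a (l 3) (a (l 3) (a (l 3) (a (l 3) (b (l 3) (b (l 3) (l 6)))))))))))))))), by decide +kernel⟩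

theorem c_pm_213 : CertN 0 536870912 1610612736 536870912 201326592 134217728 3 false true false .pnn 2 1 3
    ndN0q2 ndN1q3 pcN1 cut_pm_213 Ext.none :=
  certN0 (fam := false) (s1 := true) (s2 := false) (a := 2) (b := 1) (c := 3) (cn := .pnn) (n1 := ndN0q2) (n2 := ndN1q3) (pc := pcN1) (cut := cut_pm_213) (xt := Ext.none) (P1 := 0) (W1 := 536870912) (P2 := 1610612736) (W2 := 536870912) (P3 := 201326592) (W3 := 134217728) (N0 := 3)
    rfl k0_pm_213

noncomputable def f_mm_001 : ℕ → ℕ → ℕ → ℕ → Bool := onCell 0 536870912 536870912 536870912 201326592 134217728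
    (rowN 3 0 false false false .up 0 0 1 (qsf 0 536870912 536870912 536870912 0) ndN0q0 ndN1q1 pcN0 Cut.none Ext.none)

def k0_mm_001 : ∃ t, chk3 f_mm_001 t 1 1 1 = true :=
  ⟨(l 3), by decide +kernel⟩

theorem c_mm_001 : CertN 0 536870912 536870912 536870912 201326592 134217728 3 false false false .up 0 0 1
    ndN0q0 ndN1q1 pcN0 Cut.none Ext.none :=
  certN0 (fam := false) (s1 := false) (s2 := false) (a := 0) (b := 0) (c := 1) (cn := .up) (n1 := ndN0q0) (n2 := ndN1q1) (pc := pcN0) (cut := Cut.none) (xt := Ext.none) (P1 := 0) (W1 := 536870912) (P2 := 536870912) (W2 := 536870912) (P3 := 201326592) (W3 := 134217728) (N0 := 3)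
    rfl k0_mm_001

noncomputable def f_mm_011 : ℕ → ℕ → ℕ → ℕ → Bool := onCell 0 536870912 536870912 536870912 201326592 134217728
    (rowN 3 0 false false false .pnn 0 1 1 (qsf 0 536870912 536870912 536870912 1) ndN0q0 ndN1q1 pcN1 Cut.none Ext.none)

def k0_mm_011 : ∃ t, chk3 f_mm_011 t 1 1 1 = true :=
  ⟨(l 3), by decide +kernel⟩

theorem c_mm_011 : CertN 0 536870912 536870912 536870912 201326592 134217728 3 false false false .pnn 0 1 1
    ndN0q0 ndN1q1 pcN1 Cut.none Ext.none :=
  certN0 (fam := false) (s1 := false) (s2 := false) (a := 0) (b := 1) (c := 1) (cn := .pnn) (n1 := ndN0q0) (n2 := ndN1q1) (pc := pcN1) (cut := Cut.none) (xt := Ext.none) (P1 := 0) (W1 := 536870912) (P2 := 536870912) (W2 := 536870912) (P3 := 201326592) (W3 := 134217728) (N0 := 3)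
    rfl k0_mm_011

noncomputable def f_mm_012_a : ℕ → ℕ → ℕ → ℕ → Bool := onCell 0 536870912 0 536870912 201326592 134217728
    (rowN 3 0 false false false .pnp 0 1 2 (qsf 0 536870912 0 536870912 1) ndN0q0 ndN1q2a pcN1 Cut.none Ext.none)

def k0_mm_012_a : ∃ t, chk3 f_mm_012_a t 1 1 1 = true :=
  ⟨(l 5), by decide +kernel⟩

theorem c_mm_012_a : CertN 0 536870912 0 536870912 201326592 134217728 3 false false false .pnp 0 1 2
    ndN0q0 ndN1q2a pcN1 Cut.none Ext.none :=
  certN0 (fam := false) (s1 := false) (s2 := false) (a := 0) (b := 1) (c := 2) (cn := .pnp) (n1 := ndN0q0) (n2 := ndN1q2a) (pc := pcN1) (cut := Cut.none) (xt := Ext.none) (P1 := 0) (W1 := 536870912) (P2 := 0) (W2 := 536870912) (P3 := 201326592) (W3 := 134217728) (N0 := 3)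
    rfl k0_mm_012_a

noncomputable def f_mm_012_b : ℕ → ℕ → ℕ → ℕ → Bool := onCell 0 536870912 1239849684 370763052 201326592 134217728
    (rowN 3 0 false false false .pnp 0 1 2 (qsf 0 536870912 1239849684 370763052 1) ndN0q0 ndN1q2b pcN1 Cut.none Ext.none)

def k0_mm_012_b : ∃ t, chk3 f_mm_012_b t 1 1 1 = true :=
  ⟨(l 5), by decide +kernel⟩

theorem c_mm_012_b : CertN 0 536870912 1239849684 370763052 201326592 134217728 3 false false false .pnp 0 1 2
    ndN0q0 ndN1q2b pcN1 Cut.none Ext.none :=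
  certN0 (fam := false) (s1 := false) (s2 := false) (a := 0) (b := 1) (c := 2) (cn := .pnp) (n1 := ndN0q0) (n2 := ndN1q2b) (pc := pcN1) (cut := Cut.none) (xt := Ext.none) (P1 := 0) (W1 := 536870912) (P2 := 1239849684) (W2 := 370763052) (P3 := 201326592) (W3 := 134217728) (N0 := 3)
    rfl k0_mm_012_b

noncomputable def f_mm_022_a : ℕ → ℕ → ℕ → ℕ → Bool := onCell 0 536870912 0 536870912 201326592 134217728
    (rowN 3 0 false false false .pp 0 2 2 (qsf 0 536870912 0 536870912 2) ndN0q0 ndN1q2a pcN2 Cut.none Ext.none)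

def k0_mm_022_a : ∃ t, chk3 f_mm_022_a t 1 1 1 = true :=
  ⟨(l 5), by decide +kernel⟩

theorem c_mm_022_a : CertN 0 536870912 0 536870912 201326592 134217728 3 false false false .pp 0 2 2
    ndN0q0 ndN1q2a pcN2 Cut.none Ext.none :=
  certN0 (fam := false) (s1 := false) (s2 := false) (a := 0) (b := 2) (c := 2) (cn := .pp) (n1 := ndN0q0) (n2 := ndN1q2a) (pc := pcN2) (cut := Cut.none) (xt := Ext.none) (P1 := 0) (W1 := 536870912) (P2 := 0) (W2 := 536870912) (P3 := 201326592) (W3 := 134217728) (N0 := 3)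
    rfl k0_mm_022_a

noncomputable def f_mm_022_b : ℕ → ℕ → ℕ → ℕ → Bool := onCell 0 536870912 1239849684 370763052 201326592 134217728
    (rowN 3 0 false false false .pp 0 2 2 (qsf 0 536870912 1239849684 370763052 2) ndN0q0 ndN1q2b pcN2 Cut.none Ext.none)

def k0_mm_022_b : ∃ t, chk3 f_mm_022_b t 1 1 1 = true :=
  ⟨(l 5), by decide +kernel⟩

theorem c_mm_022_b : CertN 0 536870912 1239849684 370763052 201326592 134217728 3 false false false .pp 0 2 2
    ndN0q0 ndN1q2b pcN2 Cut.none Ext.none :=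
  certN0 (fam := false) (s1 := false) (s2 := false) (a := 0) (b := 2) (c := 2) (cn := .pp) (n1 := ndN0q0) (n2 := ndN1q2b) (pc := pcN2) (cut := Cut.none) (xt := Ext.none) (P1 := 0) (W1 := 536870912) (P2 := 1239849684) (W2 := 370763052) (P3 := 201326592) (W3 := 134217728) (N0 := 3)
    rfl k0_mm_022_b

noncomputable def f_mm_023 : ℕ → ℕ → ℕ → ℕ → Bool := onCell 0 536870912 1610612736 536870912 201326592 134217728
    (rowN 3 0 false false false .up 0 2 3 (qsf 0 536870912 1610612736 536870912 2) ndN0q0 ndN1q3 pcN2 Cut.none Ext.none)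

def k0_mm_023 : ∃ t, chk3 f_mm_023 t 1 1 1 = true :=
  ⟨(l 5), by decide +kernel⟩

theorem c_mm_023 : CertN 0 536870912 1610612736 536870912 201326592 134217728 3 false false false .up 0 2 3
    ndN0q0 ndN1q3 pcN2 Cut.none Ext.none :=
  certN0 (fam := false) (s1 := false) (s2 := false) (a := 0) (b := 2) (c := 3) (cn := .up) (n1 := ndN0q0) (n2 := ndN1q3) (pc := pcN2) (cut := Cut.none) (xt := Ext.none) (P1 := 0) (W1 := 536870912) (P2 := 1610612736) (W2 := 536870912) (P3 := 201326592) (W3 := 134217728) (N0 := 3)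
    rfl k0_mm_023

noncomputable def f_mm_033 : ℕ → ℕ → ℕ → ℕ → Bool := onCell 0 536870912 1610612736 536870912 201326592 134217728
    (rowN 3 0 false false false .pnn 0 3 3 (qsf 0 536870912 1610612736 536870912 3) ndN0q0 ndN1q3 pcN3 Cut.none Ext.none)

def k0_mm_033 : ∃ t, chk3 f_mm_033 t 1 1 1 = true :=
  ⟨(l 5), by decide +kernel⟩

theorem c_mm_033 : CertN 0 536870912 1610612736 536870912 201326592 134217728 3 false false false .pnn 0 3 3
    ndN0q0 ndN1q3 pcN3 Cut.none Ext.none :=
  certN0 (fam := false) (s1 := false) (s2 := false) (a := 0) (b := 3) (c := 3) (cn := .pnn) (n1 := ndN0q0) (n2 := ndN1q3) (pc := pcN3) (cut := Cut.none) (xt := Ext.none) (P1 := 0) (W1 := 536870912) (P2 := 1610612736) (W2 := 536870912) (P3 := 201326592) (W3 := 134217728) (N0 := 3)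
    rfl k0_mm_033

noncomputable def f_mm_101 : ℕ → ℕ → ℕ → ℕ → Bool := onCell 536870912 536870912 536870912 536870912 201326592 134217728
    (rowN 3 0 false false false .npn 1 0 1 (qsf 536870912 536870912 536870912 536870912 0) ndN0q1 ndN1q1 pcN0 Cut.none Ext.none)

def k0_mm_101 : ∃ t, chk3 f_mm_101 t 1 1 1 = true :=
  ⟨(l 3), by decide +kernel⟩

theorem c_mm_101 : CertN 536870912 536870912 536870912 536870912 201326592 134217728 3 false false false .npn 1 0 1
    ndN0q1 ndN1q1 pcN0 Cut.none Ext.none :=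
  certN0 (fam := false) (s1 := false) (s2 := false) (a := 1) (b := 0) (c := 1) (cn := .npn) (n1 := ndN0q1) (n2 := ndN1q1) (pc := pcN0) (cut := Cut.none) (xt := Ext.none) (P1 := 536870912) (W1 := 536870912) (P2 := 536870912) (W2 := 536870912) (P3 := 201326592) (W3 := 134217728) (N0 := 3)
    rfl k0_mm_101

noncomputable def f_mm_102_a : ℕ → ℕ → ℕ → ℕ → Bool := onCell 536870912 536870912 0 536870912 201326592 134217728
    (rowN 3 0 false false false .npp 1 0 2 (qsf 536870912 536870912 0 536870912 0) ndN0q1 ndN1q2a pcN0 Cut.none Ext.none)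

def k0_mm_102_a : ∃ t, chk3 f_mm_102_a t 1 1 1 = true :=
  ⟨(l 3), by decide +kernel⟩

theorem c_mm_102_a : CertN 536870912 536870912 0 536870912 201326592 134217728 3 false false false .npp 1 0 2
    ndN0q1 ndN1q2a pcN0 Cut.none Ext.none :=
  certN0 (fam := false) (s1 := false) (s2 := false) (a := 1) (b := 0) (c := 2) (cn := .npp) (n1 := ndN0q1) (n2 := ndN1q2a) (pc := pcN0) (cut := Cut.none) (xt := Ext.none) (P1 := 536870912) (W1 := 536870912) (P2 := 0) (W2 := 536870912) (P3 := 201326592) (W3 := 134217728) (N0 := 3)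
    rfl k0_mm_102_a

noncomputable def f_mm_102_b : ℕ → ℕ → ℕ → ℕ → Bool := onCell 536870912 536870912 1239849684 370763052 201326592 134217728
    (rowN 3 0 false false false .npp 1 0 2 (qsf 536870912 536870912 1239849684 370763052 0) ndN0q1 ndN1q2b pcN0 Cut.none Ext.none)

def k0_mm_102_b : ∃ t, chk3 f_mm_102_b t 1 1 1 = true :=
  ⟨(l 5), by decide +kernel⟩

theorem c_mm_102_b : CertN 536870912 536870912 1239849684 370763052 201326592 134217728 3 false false false .npp 1 0 2
    ndN0q1 ndN1q2b pcN0 Cut.none Ext.none :=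
  certN0 (fam := false) (s1 := false) (s2 := false) (a := 1) (b := 0) (c := 2) (cn := .npp) (n1 := ndN0q1) (n2 := ndN1q2b) (pc := pcN0) (cut := Cut.none) (xt := Ext.none) (P1 := 536870912) (W1 := 536870912) (P2 := 1239849684) (W2 := 370763052) (P3 := 201326592) (W3 := 134217728) (N0 := 3)
    rfl k0_mm_102_b

noncomputable def f_mm_112_a : ℕ → ℕ → ℕ → ℕ → Bool := onCell 536870912 536870912 0 536870912 201326592 134217728
    (rowN 3 0 false false false .dn 1 1 2 (qsf 536870912 536870912 0 536870912 1) ndN0q1 ndN1q2a pcN1 Cut.none Ext.none)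

def k0_mm_112_a : ∃ t, chk3 f_mm_112_a t 1 1 1 = true :=
  ⟨(l 3), by decide +kernel⟩

theorem c_mm_112_a : CertN 536870912 536870912 0 536870912 201326592 134217728 3 false false false .dn 1 1 2
    ndN0q1 ndN1q2a pcN1 Cut.none Ext.none :=
  certN0 (fam := false) (s1 := false) (s2 := false) (a := 1) (b := 1) (c := 2) (cn := .dn) (n1 := ndN0q1) (n2 := ndN1q2a) (pc := pcN1) (cut := Cut.none) (xt := Ext.none) (P1 := 536870912) (W1 := 536870912) (P2 := 0) (W2 := 536870912) (P3 := 201326592) (W3 := 134217728) (N0 := 3)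
    rfl k0_mm_112_a

noncomputable def f_mm_112_b : ℕ → ℕ → ℕ → ℕ → Bool := onCell 536870912 536870912 1239849684 370763052 201326592 134217728
    (rowN 3 0 false false false .dn 1 1 2 (qsf 536870912 536870912 1239849684 370763052 1) ndN0q1 ndN1q2b pcN1 Cut.none Ext.none)

def k0_mm_112_b : ∃ t, chk3 f_mm_112_b t 1 1 1 = true :=
  ⟨(l 5), by decide +kernel⟩

theorem c_mm_112_b : CertN 536870912 536870912 1239849684 370763052 201326592 134217728 3 false false false .dn 1 1 2
    ndN0q1 ndN1q2b pcN1 Cut.none Ext.none :=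
  certN0 (fam := false) (s1 := false) (s2 := false) (a := 1) (b := 1) (c := 2) (cn := .dn) (n1 := ndN0q1) (n2 := ndN1q2b) (pc := pcN1) (cut := Cut.none) (xt := Ext.none) (P1 := 536870912) (W1 := 536870912) (P2 := 1239849684) (W2 := 370763052) (P3 := 201326592) (W3 := 134217728) (N0 := 3)
    rfl k0_mm_112_b

noncomputable def f_mm_113 : ℕ → ℕ → ℕ → ℕ → Bool := onCell 536870912 536870912 1610612736 536870912 201326592 134217728
    (rowN 3 0 false false false .nn 1 1 3 (qsf 536870912 536870912 1610612736 536870912 1) ndN0q1 ndN1q3 pcN1 Cut.none Ext.none)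

def k0_mm_113 : ∃ t, chk3 f_mm_113 t 1 1 1 = true :=
  ⟨(l 5), by decide +kernel⟩

theorem c_mm_113 : CertN 536870912 536870912 1610612736 536870912 201326592 134217728 3 false false false .nn 1 1 3
    ndN0q1 ndN1q3 pcN1 Cut.none Ext.none :=
  certN0 (fam := false) (s1 := false) (s2 := false) (a := 1) (b := 1) (c := 3) (cn := .nn) (n1 := ndN0q1) (n2 := ndN1q3) (pc := pcN1) (cut := Cut.none) (xt := Ext.none) (P1 := 536870912) (W1 := 536870912) (P2 := 1610612736) (W2 := 536870912) (P3 := 201326592) (W3 := 134217728) (N0 := 3)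
    rfl k0_mm_113

noncomputable def f_mm_123 : ℕ → ℕ → ℕ → ℕ → Bool := onCell 536870912 536870912 1610612736 536870912 201326592 134217728
    (rowN 3 0 false false false .npn 1 2 3 (qsf 536870912 536870912 1610612736 536870912 2) ndN0q1 ndN1q3 pcN2 Cut.none Ext.none)

def k0_mm_123 : ∃ t, chk3 f_mm_123 t 1 1 1 = true :=
  ⟨(l 5), by decide +kernel⟩

theorem c_mm_123 : CertN 536870912 536870912 1610612736 536870912 201326592 134217728 3 false false false .npn 1 2 3
    ndN0q1 ndN1q3 pcN2 Cut.none Ext.none :=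
  certN0 (fam := false) (s1 := false) (s2 := false) (a := 1) (b := 2) (c := 3) (cn := .npn) (n1 := ndN0q1) (n2 := ndN1q3) (pc := pcN2) (cut := Cut.none) (xt := Ext.none) (P1 := 536870912) (W1 := 536870912) (P2 := 1610612736) (W2 := 536870912) (P3 := 201326592) (W3 := 134217728) (N0 := 3)
    rfl k0_mm_123

noncomputable def f_mm_133 : ℕ → ℕ → ℕ → ℕ → Bool := onCell 536870912 536870912 1610612736 536870912 201326592 134217728
    (rowN 3 0 false false false .dn 1 3 3 (qsf 536870912 536870912 1610612736 536870912 3) ndN0q1 ndN1q3 pcN3 Cut.none Ext.none)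

def k0_mm_133 : ∃ t, chk3 f_mm_133 t 1 1 1 = true :=
  ⟨(l 5), by decide +kernel⟩

theorem c_mm_133 : CertN 536870912 536870912 1610612736 536870912 201326592 134217728 3 false false false .dn 1 3 3
    ndN0q1 ndN1q3 pcN3 Cut.none Ext.none :=
  certN0 (fam := false) (s1 := false) (s2 := false) (a := 1) (b := 3) (c := 3) (cn := .dn) (n1 := ndN0q1) (n2 := ndN1q3) (pc := pcN3) (cut := Cut.none) (xt := Ext.none) (P1 := 536870912) (W1 := 536870912) (P2 := 1610612736) (W2 := 536870912) (P3 := 201326592) (W3 := 134217728) (N0 := 3)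
    rfl k0_mm_133

noncomputable def f_mm_202_a : ℕ → ℕ → ℕ → ℕ → Bool := onCell 0 536870912 0 536870912 201326592 134217728
    (rowN 3 0 false false false .pp 2 0 2 (qsf 0 536870912 0 536870912 0) ndN0q2 ndN1q2a pcN0 Cut.none Ext.none)

def k0_mm_202_a : ∃ t, chk3 f_mm_202_a t 1 1 1 = true :=
  ⟨(l 3), by decide +kernel⟩

theorem c_mm_202_a : CertN 0 536870912 0 536870912 201326592 134217728 3 false false false .pp 2 0 2
    ndN0q2 ndN1q2a pcN0 Cut.none Ext.none :=
  certN0 (fam := false) (s1 := false) (s2 := false) (a := 2) (b := 0) (c := 2) (cn := .pp) (n1 := ndN0q2) (n2 := ndN1q2a) (pc := pcN0) (cut := Cut.none) (xt := Ext.none) (P1 := 0) (W1 := 536870912) (P2 := 0) (W2 := 536870912) (P3 := 201326592) (W3 := 134217728) (N0 := 3)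
    rfl k0_mm_202_a

noncomputable def f_mm_202_b : ℕ → ℕ → ℕ → ℕ → Bool := onCell 0 536870912 1239849684 370763052 201326592 134217728
    (rowN 3 0 false false false .pp 2 0 2 (qsf 0 536870912 1239849684 370763052 0) ndN0q2 ndN1q2b pcN0 Cut.none Ext.none)

def k0_mm_202_b : ∃ t, chk3 f_mm_202_b t 1 1 1 = true :=
  ⟨(l 3), by decide +kernel⟩

theorem c_mm_202_b : CertN 0 536870912 1239849684 370763052 201326592 134217728 3 false false false .pp 2 0 2
    ndN0q2 ndN1q2b pcN0 Cut.none Ext.none :=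
  certN0 (fam := false) (s1 := false) (s2 := false) (a := 2) (b := 0) (c := 2) (cn := .pp) (n1 := ndN0q2) (n2 := ndN1q2b) (pc := pcN0) (cut := Cut.none) (xt := Ext.none) (P1 := 0) (W1 := 536870912) (P2 := 1239849684) (W2 := 370763052) (P3 := 201326592) (W3 := 134217728) (N0 := 3)
    rfl k0_mm_202_b

noncomputable def f_mm_203 : ℕ → ℕ → ℕ → ℕ → Bool := onCell 0 536870912 0 536870912 201326592 134217728
    (rowN 3 1 false false false .up 2 0 3 (qsf 0 536870912 1610612736 536870912 0) ndN0q2 ndN1q3 pcN0 Cut.none Ext.none)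

def k0_mm_203 : ∃ t, chk3 f_mm_203 t 1 1 1 = true :=
  ⟨(l 3), by decide +kernel⟩

theorem c_mm_203 : CertN 0 536870912 1610612736 536870912 201326592 134217728 3 false false false .up 2 0 3
    ndN0q2 ndN1q3 pcN0 Cut.none Ext.none :=
  certN1 (fam := false) (s1 := false) (s2 := false) (a := 2) (b := 0) (c := 3) (cn := .up) (n1 := ndN0q2) (n2 := ndN1q3) (pc := pcN0) (cut := Cut.none) (xt := Ext.none) (P1 := 0) (W1 := 536870912) (P2 := 1610612736) (W2 := 536870912) (P3 := 201326592) (W3 := 134217728) (N0 := 3)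
    rfl (fun _ => rfl) k0_mm_203

noncomputable def f_mm_213 : ℕ → ℕ → ℕ → ℕ → Bool := onCell 0 536870912 1610612736 536870912 201326592 134217728
    (rowN 3 0 false false false .pnn 2 1 3 (qsf 0 536870912 1610612736 536870912 1) ndN0q2 ndN1q3 pcN1 Cut.none Ext.none)

def k0_mm_213 : ∃ t, chk3 f_mm_213 t 1 1 1 = true :=
  ⟨(a (l 3) (l 5)), by decide +kernel⟩

theorem c_mm_213 : CertN 0 536870912 1610612736 536870912 201326592 134217728 3 false false false .pnn 2 1 3
    ndN0q2 ndN1q3 pcN1 Cut.none Ext.none :=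
  certN0 (fam := false) (s1 := false) (s2 := false) (a := 2) (b := 1) (c := 3) (cn := .pnn) (n1 := ndN0q2) (n2 := ndN1q3) (pc := pcN1) (cut := Cut.none) (xt := Ext.none) (P1 := 0) (W1 := 536870912) (P2 := 1610612736) (W2 := 536870912) (P3 := 201326592) (W3 := 134217728) (N0 := 3)
    rfl k0_mm_213

end Pool.Agent.Strip051.G.I3_16_5_16.Tab.C.NB01

namespace Pool.Agent.Strip051.G.I3_16_5_16.Tab.C.NB02

open Pool.Agent.Strip051.PB Pool.Agent.Strip051.PB.T
open Pool.Agent.Strip051.G.I3_16_5_16.Tab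

noncomputable def f_pp_001 : ℕ → ℕ → ℕ → ℕ → Bool := onCell 0 536870912 0 536870912 201326592 134217728
    (rowN 3 1 false true true .up 0 0 1 (qsf 0 536870912 536870912 536870912 0) ndN0q0 ndN2q1 pcN0 Cut.none Ext.none)

def k0_pp_001 : ∃ t, chk3 f_pp_001 t 1 1 1 = true :=
  ⟨(l 3), by decide +kernel⟩

theorem c_pp_001 : CertN 0 536870912 536870912 536870912 201326592 134217728 3 false true true .up 0 0 1
    ndN0q0 ndN2q1 pcN0 Cut.none Ext.none :=
  certN1 (fam := false) (s1 := true) (s2 := true) (a := 0) (b := 0) (c := 1) (cn := .up) (n1 := ndN0q0) (n2 := ndN2q1) (pc := pcN0) (cut := Cut.none) (xt := Ext.none) (P1 := 0) (W1 := 536870912) (P2 := 536870912) (W2 := 536870912) (P3 := 201326592) (W3 := 134217728) (N0 := 3)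
    rfl (fun _ => rfl) k0_pp_001

noncomputable def f_pp_011 : ℕ → ℕ → ℕ → ℕ → Bool := onCell 0 536870912 536870912 536870912 201326592 134217728
    (rowN 3 0 false true true .pnn 0 1 1 (qsf 0 536870912 536870912 536870912 1) ndN0q0 ndN2q1 pcN1 Cut.none Ext.none)

def k0_pp_011 : ∃ t, chk3 f_pp_011 t 1 1 1 = true :=
  ⟨(a (l 3) (l 3)), by decide +kernel⟩

theorem c_pp_011 : CertN 0 536870912 536870912 536870912 201326592 134217728 3 false true true .pnn 0 1 1
    ndN0q0 ndN2q1 pcN1 Cut.none Ext.none :=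
  certN0 (fam := false) (s1 := true) (s2 := true) (a := 0) (b := 1) (c := 1) (cn := .pnn) (n1 := ndN0q0) (n2 := ndN2q1) (pc := pcN1) (cut := Cut.none) (xt := Ext.none) (P1 := 0) (W1 := 536870912) (P2 := 536870912) (W2 := 536870912) (P3 := 201326592) (W3 := 134217728) (N0 := 3)
    rfl k0_pp_011

noncomputable def cut_pp_012_a : Cut := Cut.of [[⟨0, 0, 0, 67108864⟩, ⟨1, 1, 0, 67108864⟩, ⟨2, 1, 0, 67108864⟩]]

noncomputable def f_pp_012_a : ℕ → ℕ → ℕ → ℕ → Bool := onCell 536870912 536870912 0 536870912 201326592 134217728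
    (rowN 3 2 false true true .pnp 0 1 2 (qsf 0 536870912 0 536870912 1) ndN0q0 ndN2q2a pcN1 cut_pp_012_a Ext.none)

def k0_pp_012_a : ∃ t, chk3 f_pp_012_a t 2 1 1 = true :=
  ⟨(l 3), by decide +kernel⟩

def k1_pp_012_a : ∃ t, chk3 f_pp_012_a t 6 1 1 = true :=
  ⟨(l 3), by decide +kernel⟩

def k2_pp_012_a : ∃ t, chk3 f_pp_012_a t 14 2 1 = true :=
  ⟨(l 3), by decide +kernel⟩

def k3_pp_012_a : ∃ t, chk3 f_pp_012_a t 30 2 1 = true :=
  ⟨(b (a (l 3) (a (l 3) (b (b (c (c (c (l 23789992183) (l 23789987143)) (l 23253114391)) (c (l 24326844807) (l 28084927895))) (l 3)) (l 3)))) (l 3)), by decide +kernel⟩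

def k4_pp_012_a : ∃ t, chk3 f_pp_012_a t 31 4 1 = true :=
  ⟨(a (b (a (c (c (b (b (l 16715096) (l 20031881831)) (c (l 17884404119) (l 17347528967))) (b (l 20031871255) (b (l 16712416) (l 16810651143)))) (b (c (l 16713480) (l 16685840)) (c (l 17884383159) (l 20568723479)))) (c (c (b (l 16689992) (l 16704640)) (b (l 16683864) (l 16687888))) (b (l 16674576) (c (l 16681568) (l 16675176))))) (c (a (a (a (l 3) (b (c (l 20568758023) (l 21105615687)) (l 3))) (c (b (b (l 16709152) (l 16810656503)) (b (l 14126305623) (l 13052566343))) (b (l 18421258807) (b (l 16706680) (l 16719152))))) (c (a (b (l 16712960) (b (l 16705944) (l 16718840))) (b (l 16694648) (l 16699344))) (b (l 16713208) (b (l 16695704) (l 16719112))))) (a (b (c (b (l 16273770519) (l 14663160887)) (l 17884375143)) (c (b (l 13589421255) (l 13052552263)) (l 20568724615))) (b (c (l 16685832) (l 16679352)) (c (b (l 16689288) (l 16691736)) (l 16704992)))))) (a (c (b (c (l 16697440) (l 16691680)) (c (b (l 16682928) (l 16698152)) (b (l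 16677016) (l 16681744)))) (b (b (l 16660104) (l 16663848)) (b (l 16668056) (l 16693736)))) (c (b (c (l 16681920) (l 16655664)) (c (b (l 16667368) (l 16672144)) (b (l 16661928) (l 16666696)))) (b (l 16668680) (b (l 16653712) (l 16658440)))))), by decide +kernel⟩

def k5_pp_012_a : ∃ t, chk3 f_pp_012_a t 62 5 1 = true :=
  ⟨(b (c (a (a (l 3) (b (b (c (l 14663171351) (l 15736910823)) (l 3)) (l 3))) (b (c (b (c (l 16718968) (l 16715856)) (c (l 16273790935) (l 16273785095))) (a (b (l 16704424) (l 16717376)) (l 16698216))) (c (b (c (a (l 16717080) (l 16709904)) (l 14126306519)) (c (a (l 16719384) (l 16712712)) (a (l 16716368) (l 16709736)))) (b (a (l 14126297815) (l 16702328)) (a (l 12515689319) (l 16705232)))))) (a (a (l 3) (b (c (l 15736904759) (l 18421246967)) (l 3))) (a (b (c (l 20031862775) (l 16713616)) (c (b (l 16703032) (l 16705600)) (l 18421248807))) (b (c (l 16691976) (l 16685640)) (c (l 16708136) (l 16691440)))))) (c (a (l 3) (a (b (b (b (c (l 10368206935) (l 16724128)) (l 3))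 (l 3)) (l 3)) (b (c (b (c (l 16715600) (l 16712664)) (c (l 16718472) (l 16715608))) (b (l 16718720) (l 15736915223))) (c (b (c (l 16731848) (l 16718560)) (c (l 16729512) (l 16732040))) (b (l 12515690295) (c (l 16718816) (l 16716056))))))) (a (l 3) (a (b (c (b (l 16708200) (l 3)) (l 13052548839)) (l 3)) (b (c (b (l 16702240) (l 16705384)) (l 20568733927)) (c (b (l 16719080) (l 16722368)) (b (l 16702776) (l 16706224)))))))), by decide +kernel⟩

def k6_pp_012_a : ∃ t, chk3 f_pp_012_a t 63 5 1 = true :=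
  ⟨(b (c (a (b (c (b (l 16691448) (l 16694104)) (l 16707880)) (c (c (l 16710208) (l 16717840)) (b (l 16691088) (l 16694048)))) (b (c (l 16677336) (l 16671928)) (c (l 16703968) (l 16677688)))) (b (a (c (l 16680984) (l 16675000)) (l 16684704)) (a (c (l 16707720) (l 16680864)) (l 16690608)))) (c (a (a (b (c (b (l 16706576) (l 16709720)) (b (l 16700856) (l 16704096))) (c (b (c (l 16714376) (l 16711640)) (c (l 16717800) (l 16715128))) (b (l 16707496) (l 16721568)))) (b (c (l 16711040) (l 16695080)) (c (b (l 16705504) (l 16709016)) (l 16722952)))) (b (c (b (l 16687584) (l 16690832)) (l 16705016)) (c (b (l 16694248) (l 16718744)) (b (l 16689232) (l 16692872))))) (a (b (c (b (l 16691456) (l 16694816)) (l 16708384)) (c (b (l 16719320) (a (l 16705616) (l 16698544))) (b (l 16692792) (l 16717608)))) (a (b (l 16679728) (l 16707992)) (b (l 16672736) (l 16701016)))))), by decide +kernel⟩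

def k7_pp_012_a : ∃ t, chk3 f_pp_012_a t 14 3 1 = true :=
  ⟨(l 3), by decide +kernel⟩

def k8_pp_012_a : ∃ t, chk3 f_pp_012_a t 30 6 1 = true :=
  ⟨(l 3), by decide +kernel⟩

def k9_pp_012_a : ∃ t, chk3 f_pp_012_a t 31 12 1 = true :=
  ⟨(a (a (l 3) (a (l 3) (b (b (c (c (c (l 16732464) (l 16724600)) (l 10905079847)) (c (l 16725736) (l 16709792))) (l 3)) (l 3)))) (a (c (a (b (c (b (c (l 16721360) (l 16718752)) (c (l 16735440) (l 16732912))) (b (l 7146988199) (c (l 16719880) (l 16717312)))) (c (b (c (b (l 16727584) (l 16734328)) (l 13589457271)) (c (b (l 11978850263) (l 10905110279)) (l 11978849207))) (b (c (l 16733872) (l 16720920)) (c (l 13052587031) (l 16724168))))) (b (c (b (l 16712704) (l 16726848)) (b (l 16707632) (l 16711432))) (c (b (c (l 16720920) (l 16718560)) (c (l 16734760) (l 16722024))) (b (l 16715000) (l 16729112))))) (a (b (c (b (l 16709480) (l 16723920)) (b (l 16704080) (l 16708200))) (c (b (l 15736922327) (l 12515702439)) (b (l 16722656) (l 16715888)))) (b (c (b (l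 16702496) (l 16706456)) (l 16720288)) (c (b (l 16710216) (l 16714064)) (b (l 16705376) (l 16709456)))))) (a (c (b (c (b (l 16705168) (l 16708528)) (l 16722968)) (c (b (l 16711848) (l 16715368)) (b (l 16707328) (l 16711056)))) (b (c (l 16697168) (l 16692288)) (c (l 16725696) (l 16700256)))) (c (b (c (l 16719912) (l 16694384)) (c (b (l 16703992) (l 16707616)) (l 16712080))) (b (c (l 16689800) (l 16685176)) (c (l 16697400) (l 16693184))))))), by decide +kernel⟩

def k10_pp_012_a : ∃ t, chk3 f_pp_012_a t 31 13 1 = true :=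
  ⟨(a (l 3) (a (b (c (c (a (b (c (b (l 9831370183) (l 3)) (l 9831369799)) (l 3)) (b (c (b (l 16726744) (l 16728400)) (l 16735928)) (c (b (l 16740584) (l 16737072)) (l 13052587735)))) (b (a (c (l 10905107319) (l 16727288)) (c (l 16723320) (l 16721200))) (a (l 3) (c (l 16737512) (l 16725064))))) (b (c (a (l 16729264) (l 16717992)) (a (l 16719624) (l 16713688))) (a (l 3) (c (l 16732592) (l 16718128))))) (a (l 3) (c (a (b (b (c (l 10368242583) (l 16730576)) (l 3)) (l 3)) (c (b (c (l 16738312) (l 16731304)) (c (l 10905115751) (l 16740672))) (b (l 16739128) (l 12515728535)))) (b (c (l 8757623223) (l 16733304)) (c (c (l 10905115047) (l 16740704)) (l 16735640)))))) (b (a (c (c (b (l 16729360) (c (l 16723560) (l 16721704))) (b (l 16714848) (l 16718912))) (c (b (l 16710800) (l 16715168)) (l 16719528))) (b (c (c (l 16711248) (l 16707440)) (l 16701712)) (c (c (l 16715128) (l 16711624)) (l 16716824)))) (c (a (c (b (c (l 16738040) (l 16725856)) (c (b (l 16730792) (l 16733064)) (l 16738240))) (b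 (l 16733784) (c (l 16739320) (l 16727280)))) (c (b (l 16729824) (c (l 16735136) (l 16723200))) (b (l 16716136) (l 16731512)))) (a (b (c (l 16719872) (l 16716424)) (c (l 16735432) (l 16721816))) (b (l 16719184) (c (l 16718128) (l 16715208)))))))), by decide +kernel⟩

def k11_pp_012_a : ∃ t, chk3 f_pp_012_a t 15 7 1 = true :=
  ⟨(a (l 3) (b (a (l 3) (a (a (l 3) (a (l 3) (a (l 3) (b (b (b (c (c (l 16738824) (l 16735896)) (l 16731456)) (l 3)) (l 3)) (l 3))))) (b (c (a (a (b (c (c (b (l 16737224) (l 16739624)) (l 16742232)) (c (l 16735584) (l 16734176))) (c (c (b (l 16742064) (l 16744424)) (b (l 16740784) (l 16743248))) (c (l 11978865831) (l 16744752)))) (c (b (c (l 16734896) (l 16733536)) (b (l 16738168) (l 16746072))) (b (l 16731488) (c (l 16737680) (l 16736472))))) (a (c (b (l 16730688) (c (l 16736616) (l 16735448))) (b (l 16728040) (l 16733704))) (c (b (l 16727160) (l 16737176)) (b (l 16724608) (l 16730336))))) (a (b (c (c (l 16741576) (l 16740176)) (l 16738072)) (c (b (l 16739944)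 (l 16810701383)) (b (l 16732144) (l 16745728)))) (b (c (l 16734208) (l 16721120)) (c (a (l 16731368) (l 16728088)) (l 16733984))))) (a (a (a (l 3) (l 6)) (l 6)) (l 6))))) (a (l 3) (l 6)))), by decide +kernel⟩

theorem s12_pp_012_a : ∃ t, chk3 f_pp_012_a t 31 6 1 = true := ex3_b k9_pp_012_a k10_pp_012_a

theorem s13_pp_012_a : ∃ t, chk3 f_pp_012_a t 15 6 1 = true := ex3_a k8_pp_012_a s12_pp_012_a

theorem s14_pp_012_a : ∃ t, chk3 f_pp_012_a t 15 3 1 = true := ex3_b s13_pp_012_a k11_pp_012_a

theorem s15_pp_012_a : ∃ t, chk3 f_pp_012_a t 7 3 1 = true := ex3_a k7_pp_012_a s14_pp_012_a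

theorem s16_pp_012_a : ∃ t, chk3 f_pp_012_a t 31 5 1 = true := ex3_a k5_pp_012_a k6_pp_012_a

theorem s17_pp_012_a : ∃ t, chk3 f_pp_012_a t 31 2 1 = true := ex3_b k4_pp_012_a s16_pp_012_a

theorem s18_pp_012_a : ∃ t, chk3 f_pp_012_a t 15 2 1 = true := ex3_a k3_pp_012_a s17_pp_012_a

theorem s19_pp_012_a : ∃ t, chk3 f_pp_012_a t 7 2 1 = true := ex3_a k2_pp_012_a s18_pp_012_a

theorem s20_pp_012_a : ∃ t, chk3 f_pp_012_a t 7 1 1 = true := ex3_b s19_pp_012_a s15_pp_012_a

theorem s21_pp_012_a : ∃ t, chk3 f_pp_012_a t 3 1 1 = true := ex3_a k1_pp_012_a s20_pp_012_a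

theorem s22_pp_012_a : ∃ t, chk3 f_pp_012_a t 1 1 1 = true := ex3_a k0_pp_012_a s21_pp_012_a

theorem c_pp_012_a : CertN 0 536870912 0 536870912 201326592 134217728 3 false true true .pnp 0 1 2
    ndN0q0 ndN2q2a pcN1 cut_pp_012_a Ext.none :=
  certN2 (fam := false) (s1 := true) (s2 := true) (a := 0) (b := 1) (c := 2) (cn := .pnp) (n1 := ndN0q0) (n2 := ndN2q2a) (pc := pcN1) (cut := cut_pp_012_a) (xt := Ext.none) (P1 := 0) (W1 := 536870912) (P2 := 0) (W2 := 536870912) (P3 := 201326592) (W3 := 134217728) (N0 := 3)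
    rfl (fun _ => rfl) s22_pp_012_a

noncomputable def cut_pp_012_b : Cut := Cut.of [[⟨0, 0, 0, 67108864⟩, ⟨1, 1, 0, 67108864⟩, ⟨2, 1, 0, 67108864⟩]]

noncomputable def f_pp_012_b : ℕ → ℕ → ℕ → ℕ → Bool := onCell 0 536870912 536870912 536870912 201326592 134217728
    (rowN 3 1 false true true .pnp 0 1 2 (qsf 0 536870912 1239849684 370763052 1) ndN0q0 ndN2q2b pcN1 cut_pp_012_b Ext.none)

def k0_pp_012_b : ∃ t, chk3 f_pp_012_b t 1 2 1 = true :=
  ⟨(l 3), by decide +kernel⟩

def k1_pp_012_b : ∃ t, chk3 f_pp_012_b t 2 3 1 = true :=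
  ⟨(b (l 1) (a (l 1) (b (l 3) (a (b (a (l 1) (a (l 1) (a (l 1) (b (l 1) (b (l 1) (c (c (l 13589443463) (l 11441956119)) (c (l 16716104) (l 16699288)))))))) (a (a (l 1) (b (l 1) (b (l 1) (c (l 16679008) (l 16649040))))) (b (c (b (a (l 1) (a (c (l 16715256) (l 16698784)) (c (l 16713816) (l 16696816)))) (c (a (l 16690416) (l 16686768)) (a (l 16685040) (l 16680344)))) (a (b (l 1) (l 16697880)) (b (c (l 16712368) (l 16684992)) (l 16691592)))) (c (b (c (l 16691728) (l 16685744)) (c (l 16673912) (l 16646912))) (b (a (l 16659328) (l 16652800)) (l 16669312)))))) (b (a (b (l 3) (b (l 3) (b (l 3) (c (c (a (l 15200043623) (l 15736901815)) (a (l 12515686327) (l 16714152))) (c (a (l 16698968) (l 16695200)) (a (l 16691632) (l 16686608))))))) (b (l 3) (l 3))) (b (c (a (c (b (a (c (l 16703480) (l 16699800)) (c (l 16706272) (l 16698408))) (a (l 16684304) (l 16727536))) (b (a (b (l 16698592) (l 16689888)) (b (l 16696248) (l 16687528))) (a (l 16676688) (l 16674312)))) (c (a (b (c (l 16864128) (l 16694056))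 (l 16771752)) (b (c (l 16968176) (l 16867680)) (l 16927328))) (b (a (l 29695519623) (l 31842996391)) (l 16683792)))) (a (b (c (a (l 16707728) (l 16704104)) (a (l 16679176) (l 16674280))) (c (l 16687824) (l 16679488))) (b (c (a (l 16701848) (l 16701104)) (a (l 16670704) (l 16668600))) (c (l 16662392) (l 16651416))))) (c (a (c (b (l 16676184) (l 16647720)) (b (l 16657312) (l 16639272))) (a (c (l 16670928) (l 16646512)) (c (b (l 16936336) (l 16945032)) (l 16656520)))) (a (b (c (l 16648920) (l 16640496)) (l 16647568)) (b (c (l 16644416) (l 16633360)) (l 16620736)))))))))), by decide +kernel⟩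

def k2_pp_012_b : ∃ t, chk3 f_pp_012_b t 3 3 1 = true :=
  ⟨(b (l 3) (a (b (l 3) (a (b (l 3) (c (a (b (c (a (b (l 16951760) (l 17007568)) (l 17026624)) (b (a (l 34527352855) (c (l 16926424) (l 16836728))) (l 16678632))) (c (a (l 17027760) (l 17102168)) (b (l 16764744) (l 16850576)))) (b (c (l 48486680055) (a (b (l 16950232) (l 16958864)) (l 16995480))) (c (l 17194136) (a (l 16971176) (l 17038696))))) (b (a (c (b (a (l 16681040) (l 16680136)) (l 16664320)) (b (a (l 16668112) (l 16669416)) (l 16650544))) (c (b (a (l 16675680) (l 37748683207)) (l 16669744)) (b (a (l 16672584) (l 16668472)) (l 16657128)))) (a (c (b (l 16646312) (l 16628104)) (l 16644304)) (b (l 16659600) (l 16632744)))))) (b (l 3) (c (a (b (c (l 17243264) (l 50634079815)) (c (l 17287576) (l 17123256))) (b (l 59224222407) (l 17282768))) (a (b (c (a (b (l 16913736) (l 16918672)) (l 16952008)) (b (a (l 16677840) (l 41506752855)) (l 16666880))) (a (l 16649920) (c (l 16986960) (l 16824344)))) (b (c (l 53855242119) (b (a (l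 16883680) (l 16934696)) (l 16892272))) (a (l 16880880) (l 17016224)))))))) (b (l 3) (b (l 3) (a (c (a (c (l 17379048) (l 17259136)) (l 17357112)) (a (b (c (l 17126136) (a (l 16985216) (l 17030888))) (c (l 17149440) (l 17021272))) (b (l 68887780039) (l 17160240)))) (c (l 102174488983) (a (l 84457231799) (l 17235608)))))))), by decide +kernel⟩

theorem s3_pp_012_b : ∃ t, chk3 f_pp_012_b t 1 3 1 = true := ex3_a k1_pp_012_b k2_pp_012_b

theorem s4_pp_012_b : ∃ t, chk3 f_pp_012_b t 1 1 1 = true := ex3_b k0_pp_012_b s3_pp_012_b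

theorem c_pp_012_b : CertN 0 536870912 1239849684 370763052 201326592 134217728 3 false true true .pnp 0 1 2
    ndN0q0 ndN2q2b pcN1 cut_pp_012_b Ext.none :=
  certN1 (fam := false) (s1 := true) (s2 := true) (a := 0) (b := 1) (c := 2) (cn := .pnp) (n1 := ndN0q0) (n2 := ndN2q2b) (pc := pcN1) (cut := cut_pp_012_b) (xt := Ext.none) (P1 := 0) (W1 := 536870912) (P2 := 1239849684) (W2 := 370763052) (P3 := 201326592) (W3 := 134217728) (N0 := 3)
    rfl (fun _ => rfl) s4_pp_012_b

noncomputable def cut_pp_022_a : Cut := Cut.of [[⟨0, 0, 0, 67108864⟩, ⟨1, 1, 0, 67108864⟩, ⟨2, 1, 0, 67108864⟩]]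

noncomputable def f_pp_022_a : ℕ → ℕ → ℕ → ℕ → Bool := onCell 1073741824 536870912 0 536870912 201326592 134217728
    (rowN 3 2 false true true .pp 0 2 2 (qsf 0 536870912 0 536870912 2) ndN0q0 ndN2q2a pcN2 cut_pp_022_a Ext.none)

def k0_pp_022_a : ∃ t, chk3 f_pp_022_a t 4 4 1 = true :=
  ⟨(a (a (a (c (b (c (l 16669656) (l 16644296)) (c (b (l 16653896) (l 16657944)) (l 16682840))) (b (l 16658192) (b (l 16642080) (l 16667072)))) (c (b (l 16638976) (c (l 16647296) (l 16622904))) (b (l 16610888) (l 16638288)))) (c (b (c (l 16616224) (l 16614512)) (c (l 16621792) (l 16620064))) (b (l 16611528) (l 16627568)))) (a (c (b (l 16552952) (c (l 16566032) (l 16562816))) (b (l 16551816) (l 16558072))) (a (c (b (l 16527440) (l 16554704)) (b (l 16518360) (l 16524600))) (c (a (b (l 16521240) (l 16527584)) (b (l 16537856) (l 16544200))) (a (l 16535480) (b (l 16505832) (l 16512048))))))), by decide +kernel⟩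

def k1_pp_022_a : ∃ t, chk3 f_pp_022_a t 4 5 1 = true :=
  ⟨(a (a (a (b (c (c (b (l 16683424) (l 16688400)) (b (l 16657936) (l 16683976))) (b (l 16671696) (c (l 16658368) (l 16653504)))) (c (a (b (c (l 16680576) (l 16676000)) (c (l 16707256) (l 16681920))) (c (b (l 16665144) (l 16670280)) (l 16684760))) (b (c (l 16684968) (l 16680304)) (c (l 16701408) (l 16686536))))) (c (b (c (l 16655304) (l 16652016)) (c (b (l 16641168) (l 16667280)) (l 16672232))) (b (l 16667664) (b (l 16654200) (l 16660016))))) (c (b (a (l 16633168) (l 16597328)) (a (c (l 16643568) (l 16631368)) (b (l 16599144) (l 16609360)))) (b (a (l 16618080) (l 16589728)) (a (l 16639008) (l 16600440))))) (a (c (b (c (a (l 16560152) (l 16555456)) (l 16578520)) (a (c (l 16601000) (l 16598128)) (c (l 16595520) (l 16591648)))) (b (b (l 16566808) (l 16574872)) (b (l 16589680) (a (l 16578272) (l 16570040))))) (a (b (c (c (l 16548720) (l 16544064)) (l 16558032)) (c (c (b (l 16561688) (l 16572192)) (b (l 16556984) (l 16567472))) (b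 (l 16549864) (l 16560280)))) (b (c (a (c (l 16542672) (l 16537400)) (c (l 16538360) (l 16532712))) (a (l 16529440) (l 16545120))) (c (a (c (l 16581616) (l 16555328)) (b (c (l 16550824) (l 16545136)) (c (l 16560848) (l 16555168)))) (a (b (l 16541968) (l 16552128)) (b (l 16536480) (l 16567432)))))))), by decide +kernel⟩

def k2_pp_022_a : ∃ t, chk3 f_pp_022_a t 5 2 1 = true :=
  ⟨(a (a (a (b (c (b (a (l 16512696) (l 16509608)) (a (l 16539968) (c (l 16519048) (l 16512424)))) (b (a (l 16500752) (l 16496456)) (c (l 16560864) (l 16564928)))) (b (c (a (c (l 16534144) (l 16528048)) (c (l 16530808) (l 16524144))) (a (l 16539784) (l 16535032))) (a (c (b (c (l 16546344) (l 16540232)) (c (l 16556144) (l 16550048))) (b (l 16530928) (l 16540720))) (a (b (c (l 16540112) (l 16526976)) (l 1)) (l 1))))) (b (a (c (b (l 16527248) (c (l 16515824) (l 16508600))) (b (l 16491912) (l 16518712))) (c (a (b (l 16503864) (l 16530592)) (a (b (l 16502712) (l 16529344)) (b (c (l 16506168) (l 16498056)) (l 1)))) (a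 (b (l 16488552) (l 16494240)) (a (b (l 16486896) (l 16492512)) (b (l 16485920) (l 1)))))) (a (b (c (c (l 16527216) (l 16519984)) (l 16551000)) (l 1)) (l 1)))) (a (b (b (l 1) (l 1)) (l 1)) (l 1))) (l 1)), by decide +kernel⟩

def k3_pp_022_a : ∃ t, chk3 f_pp_022_a t 8 6 1 = true :=
  ⟨(a (b (a (c (a (b (c (l 16712960) (l 16687920)) (c (c (l 16720240) (l 16718416)) (l 16715624))) (b (c (l 16675968) (l 16672552)) (c (l 16682544) (l 16679488)))) (a (b (c (l 16683704) (l 16679328)) (c (l 16711800) (l 16686888))) (b (l 16667160) (l 16695664)))) (c (c (b (l 16673216) (l 16680152)) (b (l 16670728) (l 16677984))) (a (b (l 16652904) (l 16681584)) (l 16674104)))) (a (a (c (b (c (b (l 16724480) (l 16728160)) (b (l 16700168) (l 16704128))) (c (a (b (l 16715072) (l 16719432)) (l 16720048)) (b (l 16729416) (l 16728864)))) (b (b (l 16715928) (l 16715096)) (b (c (l 16705592) (l 16702656)) (c (l 16731552) (l 16707952))))) (c (b (c (l 16710752) (l 16708176)) (c (l 16716528) (l 16717104))) (b (l 16704144)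 (c (l 16714992) (l 16712816))))) (a (c (b (c (l 16695416) (l 16693416)) (c (l 16693664) (l 16702640))) (b (l 16690272) (l 16700264))) (c (b (l 16674328) (c (l 16689360) (l 16688328))) (b (l 16676496) (l 16676216)))))) (b (a (c (b (l 16641488) (c (l 16649536) (l 16648464))) (b (l 16638592) (l 16646712))) (c (b (l 16613568) (c (l 16638432) (l 16615552))) (b (l 16619048) (l 16633584)))) (c (b (a (c (l 16659312) (l 16658336)) (c (a (l 16656136) (l 16632464)) (l 16647600))) (b (a (l 16662920) (c (l 16657488) (l 16644848))) (a (c (l 16672320) (l 16681584)) (c (a (l 16657688) (l 16654384)) (l 16664400))))) (b (a (l 16656808) (c (l 16650728) (l 16648560))) (a (b (l 16670240) (l 16669152)) (b (l 16657192) (a (l 16652584) (l 16648088)))))))), by decide +kernel⟩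

def k4_pp_022_a : ∃ t, chk3 f_pp_022_a t 9 6 1 = true :=
  ⟨(a (b (c (b (a (c (l 16598272) (l 16595336)) (c (l 16591992) (l 16588096))) (a (c (l 16622776) (l 16630304)) (c (b (l 16601776) (l 16608752)) (l 16622432)))) (b (a (l 16611848) (l 16603104)) (a (l 16625744) (c (l 16597488) (l 16593416))))) (c (b (a (c (b (l 16623744) (l 16631912)) (b (l 16620728) (l 16628840))) (b (c (l 16616248) (l 16612336)) (c (a (l 16626136) (l 16621736)) (a (l 16622392) (l 16617600))))) (a (b (c (a (l 16642080) (l 16638384)) (l 16647696)) (a (c (l 16650840) (l 16647928)) (c (b (l 16644736) (l 16649056)) (l 16643552)))) (b (a (c (l 16634232) (l 16630472)) (l 1)) (l 1)))) (b (a (a (l 16643312) (l 16638696)) (b (c (l 16608312) (l 16604168)) (a (l 16616552) (l 16611136)))) (a (b (a (l 16634688) (l 16629800)) (a (l 16643328) (c (l 16640048) (l 16636408)))) (b (a (l 16629800) (l 1)) (l 1)))))) (a (b (c (b (c (a (l 16585936) (l 16581600)) (l 16579168)) (c (a (l 16598840) (b (l 16590864) (l 16597456))) (a (l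 16594384) (l 16589376)))) (b (c (l 16574368) (l 16569480)) (a (c (l 16589808) (l 16585112)) (b (l 16578480) (l 16585104))))) (a (a (b (c (c (l 16614424) (l 16610032)) (l 16603160)) (l 1)) (l 1)) (l 1))) (b (b (a (c (c (l 16576904) (l 16571616)) (l 16563472)) (c (c (l 16571952) (l 16566304)) (l 16557600))) (l 1)) (l 1)))), by decide +kernel⟩

def k5_pp_022_a : ∃ t, chk3 f_pp_022_a t 4 7 1 = true :=
  ⟨(a (a (b (a (b (a (c (a (c (b (l 16734704) (c (l 16740384) (l 16728880))) (b (l 16721864) (l 16737816))) (c (b (l 16716712) (l 16721984)) (b (l 16714640) (l 16720192)))) (a (c (b (l 16719456) (l 16725224)) (b (l 16716984) (l 16723064))) (b (l 16711432) (l 16717416)))) (c (b (c (l 16726504) (l 16724832)) (c (l 16721440) (l 16720024))) (b (l 16722240) (l 16723080)))) (l 6)) (b (c (a (b (l 16705944) (a (l 16709992) (l 16702880))) (c (l 16695112) (l 16693240))) (a (b (l 16708776) (l 16709744)) (b (l 16695384) (l 16705280)))) (l 6))) (l 6)) (b (b (c (a (b (c (a (l 16672976) (l 16670304)) (l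 16680920)) (b (a (l 16690584) (l 16687440)) (l 6))) (b (c (a (l 16667176) (l 16663608)) (a (l 16665144) (l 16661136))) (a (c (l 16687424) (l 16674856)) (b (c (l 16670632) (l 16668144)) (a (l 6) (l 16678424)))))) (a (b (a (l 16670272) (l 16687248)) (a (l 16690864) (l 16686608))) (b (a (l 16661912) (l 16667680)) (a (c (l 16672664) (l 16670344)) (b (l 16664152) (a (l 6) (l 16667632))))))) (a (l 6) (a (l 6) (a (l 6) (l 1))))) (a (l 6) (l 1)))) (a (b (a (b (c (b (a (c (b (l 16657520) (l 16662064)) (b (l 16654592) (l 16659128))) (c (l 16655656) (l 16652280))) (a (c (l 16669056) (l 16666096)) (l 1))) (b (a (c (l 16653808) (l 16650592)) (l 16646920)) (a (l 16661368) (l 1)))) (l 1)) (l 1)) (l 1)) (l 1))), by decide +kernel⟩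

def k6_pp_022_a : ∃ t, chk3 f_pp_022_a t 5 3 1 = true :=
  ⟨(b (l 1) (l 1)), by decide +kernel⟩

def k7_pp_022_a : ∃ t, chk3 f_pp_022_a t 3 1 1 = true :=
  ⟨(l 1), by decide +kernel⟩

theorem s8_pp_022_a : ∃ t, chk3 f_pp_022_a t 4 6 1 = true := ex3_a k3_pp_022_a k4_pp_022_a

theorem s9_pp_022_a : ∃ t, chk3 f_pp_022_a t 4 3 1 = true := ex3_b s8_pp_022_a k5_pp_022_a

theorem s10_pp_022_a : ∃ t, chk3 f_pp_022_a t 2 3 1 = true := ex3_a s9_pp_022_a k6_pp_022_a

theorem s11_pp_022_a : ∃ t, chk3 f_pp_022_a t 4 2 1 = true := ex3_b k0_pp_022_a k1_pp_022_a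

theorem s12_pp_022_a : ∃ t, chk3 f_pp_022_a t 2 2 1 = true := ex3_a s11_pp_022_a k2_pp_022_a

theorem s13_pp_022_a : ∃ t, chk3 f_pp_022_a t 2 1 1 = true := ex3_b s12_pp_022_a s10_pp_022_a

theorem s14_pp_022_a : ∃ t, chk3 f_pp_022_a t 1 1 1 = true := ex3_a s13_pp_022_a k7_pp_022_a

theorem c_pp_022_a : CertN 0 536870912 0 536870912 201326592 134217728 3 false true true .pp 0 2 2
    ndN0q0 ndN2q2a pcN2 cut_pp_022_a Ext.none :=
  certN2 (fam := false) (s1 := true) (s2 := true) (a := 0) (b := 2) (c := 2) (cn := .pp) (n1 := ndN0q0) (n2 := ndN2q2a) (pc := pcN2) (cut := cut_pp_022_a) (xt := Ext.none) (P1 := 0) (W1 := 536870912) (P2 := 0) (W2 := 536870912) (P3 := 201326592) (W3 := 134217728) (N0 := 3)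
    rfl (fun _ => rfl) s14_pp_022_a

noncomputable def cut_pp_022_b : Cut := Cut.of [[⟨0, 0, 0, 67108864⟩, ⟨1, 1, 0, 67108864⟩, ⟨2, 1, 0, 67108864⟩]]

noncomputable def f_pp_022_b : ℕ → ℕ → ℕ → ℕ → Bool := onCell 0 536870912 1073741824 536870912 201326592 134217728
    (rowN 3 1 false true true .pp 0 2 2 (qsf 0 536870912 1239849684 370763052 2) ndN0q0 ndN2q2b pcN2 cut_pp_022_b Ext.none)

def k0_pp_022_b : ∃ t, chk3 f_pp_022_b t 4 4 1 = true :=
  ⟨(a (b (l 1) (b (a (l 1) (a (l 1) (b (l 1) (c (l 16576528) (l 16568352))))) (b (a (l 1) (c (c (l 16580272) (l 16575592)) (l 22044869399))) (b (a (l 1) (c (l 27950397303) (l 16523128))) (a (a (l 1) (c (l 16572056) (l 16539792))) (c (c (l 16520048) (l 16514832)) (l 16527984))))))) (b (b (a (l 1) (b (l 1) (c (a (l 1) (l 16641944)) (l 16650728)))) (a (b (l 1) (c (c (l 16622656) (l 16620184)) (l 16627064))) (c (b (l 5938822983) (l 16584288)) (b (l 16605136) (l 16569928))))) (b (a (c (a (a (l 16594736) (l 16582152)) (l 13991791543)) (b (l 16585264)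 (l 16553680))) (c (c (l 16542568) (l 16540896)) (l 16537968))) (b (a (c (c (l 16530936) (l 16527208)) (a (l 16481168) (l 16467368))) (c (l 16489928) (l 16464904))) (a (b (c (a (l 16475936) (l 16445008)) (l 16455464)) (c (l 16489528) (l 16460352))) (c (b (l 16472680) (l 16565808)) (l 16497344))))))), by decide +kernel⟩

def k1_pp_022_b : ∃ t, chk3 f_pp_022_b t 4 5 1 = true :=
  ⟨(b (b (b (a (a (c (b (c (l 27413560999) (l 16564584)) (a (l 26876660631) (l 16521928))) (b (l 24192324263) (l 27413519271))) (c (b (c (l 16504976) (l 16499472)) (l 16509536)) (b (l 16512192) (l 16476640)))) (a (c (b (l 16474280) (l 16460712)) (l 16500896)) (c (b (l 16653856) (l 16737216)) (l 16436592)))) (a (b (a (c (c (l 16543504) (l 16515424)) (l 30634719687)) (c (l 16495984) (l 16462072))) (a (b (c (c (l 16512784) (l 16484248)) (l 16493920)) (c (b (a (l 16514304) (l 16472568)) (c (l 16526096) (l 16497128))) (b (l 16488600) (a (l 16495192) (l 16474904))))) (c (b (l 16465200) (b (l 16460440) (l 16478456)))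 (b (l 16451416) (a (l 16497112) (l 16474960)))))) (b (c (a (l 16450840) (l 16815976)) (a (l 16436512) (l 16367344))) (c (b (a (l 16529440) (l 16872216)) (a (b (l 16567352) (l 16592192)) (b (l 16899456) (l 16917320)))) (b (l 16432584) (a (l 16460776) (l 16409808))))))) (a (a (b (c (c (l 16524408) (l 16505072)) (a (l 16480848) (l 16460760))) (c (c (l 16469456) (l 16459088)) (l 16485792))) (c (b (c (l 16543536) (l 16441160)) (c (l 16768688) (l 16395568))) (b (l 16449952) (l 16402160)))) (c (a (b (l 16615496) (l 16850080)) (b (l 16994672) (l 17120448))) (a (a (l 16448352) (l 16424600)) (b (l 16332480) (l 16369160)))))) (b (a (c (b (a (a (l 16451576) (l 16410592)) (l 16507688)) (a (c (l 16719552) (l 16393328)) (l 16754768))) (b (a (l 16439136) (l 16376936)) (a (l 16394088) (l 16332552)))) (c (a (b (l 17022640) (l 17156656)) (l 17284400)) (a (l 16385656) (l 16584384)))) (a (a (c (b (c (l 17010112) (l 16488976)) (c (l 17187808) (l 16701304))) (b (l 16350936) (l 16331160))) (c (b (l 17041512)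 (l 17203480)) (l 16365792))) (c (a (l 17329464) (l 17463552)) (a (l 16592464) (l 16823928)))))), by decide +kernel⟩

def k2_pp_022_b : ∃ t, chk3 f_pp_022_b t 5 4 1 = true :=
  ⟨(a (b (a (b (b (c (c (b (l 16677432) (l 16639000)) (l 3791450855)) (c (l 16681624) (l 16656256))) (c (c (l 16633752) (l 16630008)) (l 16623904))) (c (b (l 16596952) (l 16562096)) (b (l 16589128) (l 16554320)))) (b (c (b (c (l 16658488) (l 16652576)) (c (l 16603040) (l 16597192))) (b (c (l 16646392) (l 16618960)) (l 16587936))) (c (b (l 16586744) (l 16594064)) (l 16578480)))) (b (c (a (b (l 16527448) (l 16550424)) (l 16625088)) (b (l 16533000) (l 16499040))) (b (c (a (l 16707104) (l 16971248)) (l 16465552)) (c (b (l 16713680) (a (l 16883144) (l 17104176))) (a (l 16437648) (l 16429168)))))) (b (b (b (c (a (c (l 16640480) (l 16624088)) (c (b (l 16886992) (l 16971088)) (l 16638560))) (a (c (l 16615488) (l 16606632)) (l 16647360))) (c (a (c (l 16812640) (l 16590360)) (c (l 17034376) (l 16765800))) (a (l 16577512)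 (l 16572512)))) (c (a (b (l 16722360) (l 16870816)) (b (l 16963856) (l 17066848))) (a (l 16548136) (l 16523264)))) (b (c (a (l 16957960) (l 17183400)) (a (l 16460904) (l 16666288))) (b (c (l 17229872) (l 16692696)) (c (a (l 17240464) (l 17356400)) (b (l 16758544) (l 16800752))))))), by decide +kernel⟩

def k3_pp_022_b : ∃ t, chk3 f_pp_022_b t 5 5 1 = true :=
  ⟨(b (b (b (a (c (a (b (l 16947736) (l 17009056)) (l 17176736)) (a (l 16403912) (l 16548944))) (c (l 17372120) (a (l 16771920) (l 16938736)))) (a (c (b (l 17142640) (b (l 17200136) (a (l 17136264) (l 17297400)))) (b (l 16505600) (b (l 16551432) (b (l 16573800) (l 16588520))))) (c (b (l 17419400) (b (l 17441680) (l 17456160))) (b (l 16918624) (b (l 16946112) (l 16964048)))))) (a (c (b (l 17279872) (l 17363264)) (b (l 16652864) (l 16759520))) (c (l 17514496) (b (l 17006920) (l 17072088))))) (b (a (c (l 17472656) (b (l 16857128) (l 16946320))) (c (l 17607992) (l 17159832))) (a (c (l 17594104) (l 17065560)) (c (l 17682424) (l 17260880))))),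 by decide +kernel⟩

def k4_pp_022_b : ∃ t, chk3 f_pp_022_b t 2 3 1 = true :=
  ⟨(b (a (b (a (b (c (a (b (c (l 17341176) (l 16885856)) (l 17240472)) (l 17299560)) (a (l 16370312) (l 16510664))) (c (a (c (l 17641304) (l 17252752)) (l 17574784)) (a (b (l 16574216) (l 16736040)) (l 16887840)))) (c (b (l 17564600) (l 17690288)) (b (a (l 16848480) (l 17019912)) (l 17122672)))) (a (c (b (a (l 17644352) (l 17721192)) (l 17813896)) (b (a (l 16800232) (l 17107648)) (a (l 17179704) (l 17283864)))) (b (c (l 17784000) (l 17270120)) (c (l 17851256) (l 17385360))))) (b (b (a (c (l 17689904) (l 17200008)) (l 17543264)) (a (l 17474600) (l 17595160))) (b (a (l 17605440) (l 17633800)) (a (l 17656456) (l 2))))) (b (a (b (a (c (l 17903944) (l 17374584)) (l 17692824)) (a (l 17726080) (l 17757432))) (b (l 17707192) (l 2))) (a (a (l 17828792) (l 17838592)) (l 2)))), by decide +kernel⟩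

def k5_pp_022_b : ∃ t, chk3 f_pp_022_b t 3 1 1 = true :=
  ⟨(b (a (b (a (b (b (c (a (b (c (l 17125104) (l 16789872)) (l 16930176)) (b (c (l 17251008) (l 17051936)) (l 17204960))) (a (b (l 16626960) (l 16609744)) (b (l 16622488) (l 16800040)))) (c (a (l 17112752) (l 17283600)) (a (l 16713120) (l 16880448)))) (b (c (l 17345344) (a (l 16849240) (l 16987208))) (b (c (l 17422856) (l 17009112)) (c (l 17470128) (l 17063016))))) (b (c (b (a (b (l 17254928) (l 17297584)) (l 17346216)) (l 17390096)) (b (a (b (c (l 16992512) (l 16814672)) (l 16944248)) (b (l 16938088) (l 17053384))) (a (l 17007096) (l 17102488)))) (b (c (l 17462824) (l 17132952)) (b (l 17352304) (c (l 17546040) (l 17222304)))))) (a (b (b (b (c (l 17515224) (l 17114880)) (b (l 17307976) (c (l 17565264) (l 17174560)))) (c (l 17604784) (l 17225960))) (b (l 17484904) (l 17539240))) (b (b (b (l 17417528) (c (l 17604640) (b (l 17279576) (l 17294696)))) (l 17480568)) (b (l 17523560) (l 2))))) (b (a (b (c (a (l 17421608) (l 17444112))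 (b (a (l 17021544) (l 17194872)) (l 17205112))) (b (c (l 17503776) (l 17248616)) (b (l 17410480) (l 17431064)))) (b (c (l 17448224) (b (l 17257672) (l 17275200))) (b (l 17392040) (l 2)))) (b (b (b (a (l 17451832) (l 2)) (l 2)) (l 2)) (l 2)))) (b (b (a (b (a (l 17580008) (l 2)) (l 2)) (l 2)) (l 2)) (l 2))), by decide +kernel⟩

theorem s6_pp_022_b : ∃ t, chk3 f_pp_022_b t 5 2 1 = true := ex3_b k2_pp_022_b k3_pp_022_b

theorem s7_pp_022_b : ∃ t, chk3 f_pp_022_b t 4 2 1 = true := ex3_b k0_pp_022_b k1_pp_022_b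

theorem s8_pp_022_b : ∃ t, chk3 f_pp_022_b t 2 2 1 = true := ex3_a s7_pp_022_b s6_pp_022_b

theorem s9_pp_022_b : ∃ t, chk3 f_pp_022_b t 2 1 1 = true := ex3_b s8_pp_022_b k4_pp_022_b

theorem s10_pp_022_b : ∃ t, chk3 f_pp_022_b t 1 1 1 = true := ex3_a s9_pp_022_b k5_pp_022_b

theorem c_pp_022_b : CertN 0 536870912 1239849684 370763052 201326592 134217728 3 false true true .pp 0 2 2
    ndN0q0 ndN2q2b pcN2 cut_pp_022_b Ext.none :=
  certN1 (fam := false) (s1 := true) (s2 := true) (a := 0) (b := 2) (c := 2) (cn := .pp) (n1 := ndN0q0) (n2 := ndN2q2b) (pc := pcN2) (cut := cut_pp_022_b) (xt := Ext.none) (P1 := 0) (W1 := 536870912) (P2 := 1239849684) (W2 := 370763052) (P3 := 201326592) (W3 := 134217728) (N0 := 3)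
    rfl (fun _ => rfl) s10_pp_022_b

noncomputable def f_pp_023 : ℕ → ℕ → ℕ → ℕ → Bool := onCell 0 536870912 1073741824 536870912 201326592 134217728
    (rowN 3 1 false true true .up 0 2 3 (qsf 0 536870912 1610612736 536870912 2) ndN0q0 ndN2q3 pcN2 Cut.none Ext.none)

def k0_pp_023 : ∃ t, chk3 f_pp_023 t 1 1 1 = true :=
  ⟨(a (b (a (l 1) (b (l 1) (b (l 1) (b (l 1) (l 243237130551))))) (b (b (a (l 1) (b (l 258269790391) (l 207804208727))) (a (b (l 1) (l 310346758311)) (b (l 218541933543) (l 224447748279)))) (b (a (b (c (l 17913200) (l 257196570855)) (l 241090198359)) (b (l 17707440) (l 17757432))) (a (l 247533026871) (l 17825648))))) (b (a (a (b (l 1) (b (b (l 1) (l 244310690071)) (b (l 260953852263) (l 17538752)))) (b (b (l 1) (b (l 1) (b (l 1) (l 236794465143)))) (b (b (b (l 246458171655) (b (l 17434664) (l 172907402631))) (l 178275943255)) (b (l 17523200) (l 17555832))))) (b (a (b (c (l 261490820855) (l 253437327607)) (b (l 251289885191) (b (l 17406896) (l 178812874583)))) (b (c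 (l 17452608) (l 273301699127)) (b (l 17391784) (b (l 17410632) (l 17421936))))) (b (b (b (a (l 17450952) (l 17433912)) (a (c (l 17595832) (l 17592280)) (b (l 17441064) (l 17445664)))) (a (l 17488144) (l 17449120))) (b (a (l 17512768) (l 17459216)) (a (l 17528136) (l 17462912)))))) (b (b (a (b (c (l 17731360) (l 17434096)) (l 17606088)) (b (l 17587344) (l 17508000))) (a (b (l 17622888) (l 17634880)) (a (l 17552400) (l 17467216)))) (b (a (b (l 17662808) (l 17701960)) (a (l 17595624) (l 17506024))) (a (l 17754352) (l 17598552)))))), by decide +kernel⟩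

theorem c_pp_023 : CertN 0 536870912 1610612736 536870912 201326592 134217728 3 false true true .up 0 2 3
    ndN0q0 ndN2q3 pcN2 Cut.none Ext.none :=
  certN1 (fam := false) (s1 := true) (s2 := true) (a := 0) (b := 2) (c := 3) (cn := .up) (n1 := ndN0q0) (n2 := ndN2q3) (pc := pcN2) (cut := Cut.none) (xt := Ext.none) (P1 := 0) (W1 := 536870912) (P2 := 1610612736) (W2 := 536870912) (P3 := 201326592) (W3 := 134217728) (N0 := 3)
    rfl (fun _ => rfl) k0_pp_023

noncomputable def f_pp_033 : ℕ → ℕ → ℕ → ℕ → Bool := onCell 1610612736 536870912 1610612736 536870912 201326592 134217728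
    (rowN 3 2 false true true .pnn 0 3 3 (qsf 0 536870912 1610612736 536870912 3) ndN0q0 ndN2q3 pcN3 Cut.none Ext.none)

def k0_pp_033 : ∃ t, chk3 f_pp_033 t 1 1 1 = true :=
  ⟨(a (b (a (b (a (c (l 17959192) (l 17689000)) (l 271156221319)) (a (c (l 17711504) (l 17551432)) (c (l 17850880) (l 17659440)))) (b (a (l 270619565879) (l 1)) (a (c (l 17981112) (l 17747784)) (l 18061224)))) (a (b (a (b (l 17499800) (l 17413080)) (c (l 17617920) (l 17525016))) (a (b (l 17317640) (l 17220080)) (b (l 17458936) (l 17375224)))) (b (a (c (l 17764616) (l 17601256)) (l 17831800)) (a (b (l 17549336) (l 17454264)) (a (l 17536664) (l 17548360)))))) (b (a (a (b (l 1) (l 268472069175)) (l 1)) (l 1)) (a (a (b (c (l 17935168) (l 17699744)) (l 4)) (b (l 4) (l 4))) (l 4)))), by decide +kernel⟩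

theorem c_pp_033 : CertN 0 536870912 1610612736 536870912 201326592 134217728 3 false true true .pnn 0 3 3
    ndN0q0 ndN2q3 pcN3 Cut.none Ext.none :=
  certN2 (fam := false) (s1 := true) (s2 := true) (a := 0) (b := 3) (c := 3) (cn := .pnn) (n1 := ndN0q0) (n2 := ndN2q3) (pc := pcN3) (cut := Cut.none) (xt := Ext.none) (P1 := 0) (W1 := 536870912) (P2 := 1610612736) (W2 := 536870912) (P3 := 201326592) (W3 := 134217728) (N0 := 3)
    rfl (fun _ => rfl) k0_pp_033

noncomputable def f_pp_101 : ℕ → ℕ → ℕ → ℕ → Bool := onCell 536870912 536870912 536870912 536870912 201326592 134217728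
    (rowN 3 0 false true true .npn 1 0 1 (qsf 536870912 536870912 536870912 536870912 0) ndN0q1 ndN2q1 pcN0 Cut.none Ext.none)

def k0_pp_101 : ∃ t, chk3 f_pp_101 t 1 1 1 = true :=
  ⟨(a (l 3) (l 5)), by decide +kernel⟩

theorem c_pp_101 : CertN 536870912 536870912 536870912 536870912 201326592 134217728 3 false true true .npn 1 0 1
    ndN0q1 ndN2q1 pcN0 Cut.none Ext.none :=
  certN0 (fam := false) (s1 := true) (s2 := true) (a := 1) (b := 0) (c := 1) (cn := .npn) (n1 := ndN0q1) (n2 := ndN2q1) (pc := pcN0) (cut := Cut.none) (xt := Ext.none) (P1 := 536870912) (W1 := 536870912) (P2 := 536870912) (W2 := 536870912) (P3 := 201326592) (W3 := 134217728) (N0 := 3)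
    rfl k0_pp_101

noncomputable def f_pp_102_a : ℕ → ℕ → ℕ → ℕ → Bool := onCell 536870912 536870912 0 536870912 201326592 134217728
    (rowN 3 0 false true true .npp 1 0 2 (qsf 536870912 536870912 0 536870912 0) ndN0q1 ndN2q2a pcN0 Cut.none Ext.none)

def k0_pp_102_a : ∃ t, chk3 f_pp_102_a t 1 1 1 = true :=
  ⟨(l 3), by decide +kernel⟩

theorem c_pp_102_a : CertN 536870912 536870912 0 536870912 201326592 134217728 3 false true true .npp 1 0 2
    ndN0q1 ndN2q2a pcN0 Cut.none Ext.none :=
  certN0 (fam := false) (s1 := true) (s2 := true) (a := 1) (b := 0) (c := 2) (cn := .npp) (n1 := ndN0q1) (n2 := ndN2q2a) (pc := pcN0) (cut := Cut.none) (xt := Ext.none) (P1 := 536870912) (W1 := 536870912) (P2 := 0) (W2 := 536870912) (P3 := 201326592) (W3 := 134217728) (N0 := 3)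
    rfl k0_pp_102_a

noncomputable def f_pp_102_b : ℕ → ℕ → ℕ → ℕ → Bool := onCell 536870912 536870912 0 536870912 201326592 134217728
    (rowN 3 1 false true true .npp 1 0 2 (qsf 536870912 536870912 1239849684 370763052 0) ndN0q1 ndN2q2b pcN0 Cut.none Ext.none)

def k0_pp_102_b : ∃ t, chk3 f_pp_102_b t 1 1 1 = true :=
  ⟨(l 3), by decide +kernel⟩

theorem c_pp_102_b : CertN 536870912 536870912 1239849684 370763052 201326592 134217728 3 false true true .npp 1 0 2
    ndN0q1 ndN2q2b pcN0 Cut.none Ext.none :=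
  certN1 (fam := false) (s1 := true) (s2 := true) (a := 1) (b := 0) (c := 2) (cn := .npp) (n1 := ndN0q1) (n2 := ndN2q2b) (pc := pcN0) (cut := Cut.none) (xt := Ext.none) (P1 := 536870912) (W1 := 536870912) (P2 := 1239849684) (W2 := 370763052) (P3 := 201326592) (W3 := 134217728) (N0 := 3)
    rfl (fun _ => rfl) k0_pp_102_b

noncomputable def f_pp_112_a : ℕ → ℕ → ℕ → ℕ → Bool := onCell 536870912 536870912 0 536870912 201326592 134217728
    (rowN 3 0 false true true .dn 1 1 2 (qsf 536870912 536870912 0 536870912 1) ndN0q1 ndN2q2a pcN1 Cut.none Ext.none)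

def k0_pp_112_a : ∃ t, chk3 f_pp_112_a t 1 1 1 = true :=
  ⟨(l 3), by decide +kernel⟩

theorem c_pp_112_a : CertN 536870912 536870912 0 536870912 201326592 134217728 3 false true true .dn 1 1 2
    ndN0q1 ndN2q2a pcN1 Cut.none Ext.none :=
  certN0 (fam := false) (s1 := true) (s2 := true) (a := 1) (b := 1) (c := 2) (cn := .dn) (n1 := ndN0q1) (n2 := ndN2q2a) (pc := pcN1) (cut := Cut.none) (xt := Ext.none) (P1 := 536870912) (W1 := 536870912) (P2 := 0) (W2 := 536870912) (P3 := 201326592) (W3 := 134217728) (N0 := 3)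
    rfl k0_pp_112_a

noncomputable def f_pp_112_b : ℕ → ℕ → ℕ → ℕ → Bool := onCell 536870912 536870912 536870912 536870912 201326592 134217728
    (rowN 3 1 false true true .dn 1 1 2 (qsf 536870912 536870912 1239849684 370763052 1) ndN0q1 ndN2q2b pcN1 Cut.none Ext.none)

def k0_pp_112_b : ∃ t, chk3 f_pp_112_b t 1 1 1 = true :=
  ⟨(b (l 3) (b (l 3) (a (b (l 3) (a (b (l 3) (a (c (l 17368296) (l 106469277111)) (l 2))) (l 2))) (l 2)))), by decide +kernel⟩

theorem c_pp_112_b : CertN 536870912 536870912 1239849684 370763052 201326592 134217728 3 false true true .dn 1 1 2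
    ndN0q1 ndN2q2b pcN1 Cut.none Ext.none :=
  certN1 (fam := false) (s1 := true) (s2 := true) (a := 1) (b := 1) (c := 2) (cn := .dn) (n1 := ndN0q1) (n2 := ndN2q2b) (pc := pcN1) (cut := Cut.none) (xt := Ext.none) (P1 := 536870912) (W1 := 536870912) (P2 := 1239849684) (W2 := 370763052) (P3 := 201326592) (W3 := 134217728) (N0 := 3)
    rfl (fun _ => rfl) k0_pp_112_b

noncomputable def cut_pp_113 : Cut := Cut.of [[⟨0, 1, 0, 57167902⟩, ⟨1, 1, 0, 57167902⟩, ⟨2, 2, 0, 11758673⟩]]

noncomputable def f_pp_113 : ℕ → ℕ → ℕ → ℕ → Bool := onCell 536870912 536870912 536870912 536870912 201326592 134217728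
    (rowN 3 1 false true true .nn 1 1 3 (qsf 536870912 536870912 1610612736 536870912 1) ndN0q1 ndN2q3 pcN1 cut_pp_113 Ext.none)

def k0_pp_113 : ∃ t, chk3 f_pp_113 t 1 1 1 = true :=
  ⟨(b (l 3) (a (b (l 3) (b (l 3) (b (l 3) (a (a (c (l 17375264) (a (l 194381675879) (l 17254872))) (c (l 17311040) (l 17244816))) (a (c (l 17215280) (l 17098008)) (l 158008763495)))))) (b (l 3) (b (l 3) (b (l 3) (a (a (l 166061863207) (c (l 167672364487) (l 223506664359))) (b (l 3) (b (a (l 3) (l 3)) (a (a (l 16970664) (l 217063905975)) (b (a (l 3) (l 3)) (b (a (a (l 16892568) (l 16844888)) (l 3)) (a (a (l 16888424) (l 16861008)) (a (a (l 16838760) (l 239612270359)) (a (c (l 218137406695) (l 230485425671)) (l 6))))))))))))))), by decide +kernel⟩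

theorem c_pp_113 : CertN 536870912 536870912 1610612736 536870912 201326592 134217728 3 false true true .nn 1 1 3
    ndN0q1 ndN2q3 pcN1 cut_pp_113 Ext.none :=
  certN1 (fam := false) (s1 := true) (s2 := true) (a := 1) (b := 1) (c := 3) (cn := .nn) (n1 := ndN0q1) (n2 := ndN2q3) (pc := pcN1) (cut := cut_pp_113) (xt := Ext.none) (P1 := 536870912) (W1 := 536870912) (P2 := 1610612736) (W2 := 536870912) (P3 := 201326592) (W3 := 134217728) (N0 := 3)
    rfl (fun _ => rfl) k0_pp_113

end Pool.Agent.Strip051.G.I3_16_5_16.Tab.C.NB02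

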