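import Pool.Agent.Strip051.G.I3_16_5_16.Tab

/-! # Certificates N17 (generated) -/

set_option linter.all false
set_option maxRecDepth 100000

namespace Pool.Agent.Strip051.G.I3_16_5_16.Tab.C.NB02

open Pool.Agent.Strip051.PB Pool.Agent.Strip051.PB.T
open Pool.Agent.Strip051.G.I3_16_5_16.Tab

noncomputable def cut_pp_123 : Cut := Cut.of [[⟨0, 1, 0, 57167902⟩, ⟨1, 1, 0, 57167902⟩, ⟨2, 2, 0, 11758673⟩]]

noncomputable def f_pp_123 : ℕ → ℕ → ℕ → ℕ → Bool := onCell 536870912 536870912 1073741824 536870912 201326592 134217728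
    (rowN 3 1 false true true .npn 1 2 3 (qsf 536870912 536870912 1610612736 536870912 2) ndN0q1 ndN2q3 pcN2 cut_pp_123 Ext.none)

def k0_pp_123 : ∃ t, chk3 f_pp_123 t 1 1 1 = true :=
  ⟨(a (b (a (b (a (b (c (l 17411680) (l 17282064)) (b (l 17361544) (b (l 17369800) (l 17374704)))) (b (c (l 17331816) (l 17256592)) (b (l 17295536) (b (l 17298240) (l 17299712))))) (b (b (b (a (l 17380832) (l 17302656)) (a (l 17616800) (l 17514632))) (a (l 17382496) (l 17296704))) (b (a (l 17383152) (l 17293024)) (l 17482784)))) (b (b (a (c (l 17226584) (l 17191832)) (l 17103496)) (b (a (l 17204848) (l 17096816)) (b (l 17150464) (l 17213112)))) (b (b (b (l 17151592) (a (l 17207624) (l 17099208))) (l 17143072)) (b (l 17141248) (l 17143248))))) (a (b (b (a (l 17379176) (l 17287320)) (a (l 17378512) (l 17294992))) (b (a (l 17420992) (l 17352936)) (a (l 17436592) (l 17324896)))) (b (b (a (l 17197640) (l 17123512)) (a (l 17230352) (l 17278888))) (a (b (l 17287592) (l 2)) (l 2))))) (b (a (b (b (a (l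 17071416) (l 17188064)) (b (l 17046160) (b (l 16944792) (l 17052944)))) (b (b (b (l 17059056) (a (l 16998896) (l 17058720))) (l 17128296)) (b (l 17021616) (l 17185688)))) (b (a (b (b (a (l 16934112) (b (l 16969296) (l 16873704))) (l 16864352)) (b (l 16840392) (b (l 16854656) (l 16867256)))) (b (b (b (a (c (b (l 16829904) (l 16831728)) (l 16816368)) (b (a (c (l 16802168) (l 16814856)) (a (a (l 16840200) (a (l 16812800) (l 6))) (l 6))) (l 266388822903))) (a (l 16817616) (l 16870352))) (l 214312670855)) (b (l 17086568) (l 2)))) (a (b (b (b (l 16884600) (l 2)) (l 2)) (l 2)) (l 2)))) (a (b (a (b (l 17277592) (l 2)) (l 2)) (l 2)) (l 2)))), by decide +kernel⟩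

theorem c_pp_123 : CertN 536870912 536870912 1610612736 536870912 201326592 134217728 3 false true true .npn 1 2 3
    ndN0q1 ndN2q3 pcN2 cut_pp_123 Ext.none :=
  certN1 (fam := false) (s1 := true) (s2 := true) (a := 1) (b := 2) (c := 3) (cn := .npn) (n1 := ndN0q1) (n2 := ndN2q3) (pc := pcN2) (cut := cut_pp_123) (xt := Ext.none) (P1 := 536870912) (W1 := 536870912) (P2 := 1610612736) (W2 := 536870912) (P3 := 201326592) (W3 := 134217728) (N0 := 3)
    rfl (fun _ => rfl) k0_pp_123

noncomputable def f_pp_133 : ℕ → ℕ → ℕ → ℕ → Bool := onCell 536870912 536870912 1610612736 536870912 201326592 134217728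
    (rowN 3 0 false true true .dn 1 3 3 (qsf 536870912 536870912 1610612736 536870912 3) ndN0q1 ndN2q3 pcN3 Cut.none Ext.none)

def k0_pp_133 : ∃ t, chk3 f_pp_133 t 1 1 1 = true :=
  ⟨(a (b (l 1) (a (b (l 1) (b (l 1) (a (l 411814475223) (l 1)))) (l 1))) (l 1)), by decide +kernel⟩

theorem c_pp_133 : CertN 536870912 536870912 1610612736 536870912 201326592 134217728 3 false true true .dn 1 3 3
    ndN0q1 ndN2q3 pcN3 Cut.none Ext.none :=
  certN0 (fam := false) (s1 := true) (s2 := true) (a := 1) (b := 3) (c := 3) (cn := .dn) (n1 := ndN0q1) (n2 := ndN2q3) (pc := pcN3) (cut := Cut.none) (xt := Ext.none) (P1 := 536870912) (W1 := 536870912) (P2 := 1610612736) (W2 := 536870912) (P3 := 201326592) (W3 := 134217728) (N0 := 3)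
    rfl k0_pp_133

noncomputable def f_pp_202_a : ℕ → ℕ → ℕ → ℕ → Bool := onCell 0 536870912 0 536870912 201326592 134217728
    (rowN 3 0 false true true .pp 2 0 2 (qsf 0 536870912 0 536870912 0) ndN0q2 ndN2q2a pcN0 Cut.none Ext.none)

def k0_pp_202_a : ∃ t, chk3 f_pp_202_a t 1 1 1 = true :=
  ⟨(l 3), by decide +kernel⟩

theorem c_pp_202_a : CertN 0 536870912 0 536870912 201326592 134217728 3 false true true .pp 2 0 2
    ndN0q2 ndN2q2a pcN0 Cut.none Ext.none :=
  certN0 (fam := false) (s1 := true) (s2 := true) (a := 2) (b := 0) (c := 2) (cn := .pp) (n1 := ndN0q2) (n2 := ndN2q2a) (pc := pcN0) (cut := Cut.none) (xt := Ext.none) (P1 := 0) (W1 := 536870912) (P2 := 0) (W2 := 536870912) (P3 := 201326592) (W3 := 134217728) (N0 := 3)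
    rfl k0_pp_202_a

noncomputable def f_pp_202_b : ℕ → ℕ → ℕ → ℕ → Bool := onCell 0 536870912 1239849684 370763052 201326592 134217728
    (rowN 3 0 false true true .pp 2 0 2 (qsf 0 536870912 1239849684 370763052 0) ndN0q2 ndN2q2b pcN0 Cut.none Ext.none)

def k0_pp_202_b : ∃ t, chk3 f_pp_202_b t 1 1 1 = true :=
  ⟨(l 3), by decide +kernel⟩

theorem c_pp_202_b : CertN 0 536870912 1239849684 370763052 201326592 134217728 3 false true true .pp 2 0 2
    ndN0q2 ndN2q2b pcN0 Cut.none Ext.none :=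
  certN0 (fam := false) (s1 := true) (s2 := true) (a := 2) (b := 0) (c := 2) (cn := .pp) (n1 := ndN0q2) (n2 := ndN2q2b) (pc := pcN0) (cut := Cut.none) (xt := Ext.none) (P1 := 0) (W1 := 536870912) (P2 := 1239849684) (W2 := 370763052) (P3 := 201326592) (W3 := 134217728) (N0 := 3)
    rfl k0_pp_202_b

noncomputable def f_pp_203 : ℕ → ℕ → ℕ → ℕ → Bool := onCell 0 536870912 0 536870912 201326592 134217728
    (rowN 3 1 false true true .up 2 0 3 (qsf 0 536870912 1610612736 536870912 0) ndN0q2 ndN2q3 pcN0 Cut.none Ext.none)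

def k0_pp_203 : ∃ t, chk3 f_pp_203 t 1 1 1 = true :=
  ⟨(l 3), by decide +kernel⟩

theorem c_pp_203 : CertN 0 536870912 1610612736 536870912 201326592 134217728 3 false true true .up 2 0 3
    ndN0q2 ndN2q3 pcN0 Cut.none Ext.none :=
  certN1 (fam := false) (s1 := true) (s2 := true) (a := 2) (b := 0) (c := 3) (cn := .up) (n1 := ndN0q2) (n2 := ndN2q3) (pc := pcN0) (cut := Cut.none) (xt := Ext.none) (P1 := 0) (W1 := 536870912) (P2 := 1610612736) (W2 := 536870912) (P3 := 201326592) (W3 := 134217728) (N0 := 3)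
    rfl (fun _ => rfl) k0_pp_203

noncomputable def cut_pp_213 : Cut := Cut.of [[⟨0, 1, 0, 57167902⟩, ⟨1, 1, 0, 57167902⟩, ⟨2, 2, 0, 11758673⟩]]

noncomputable def f_pp_213 : ℕ → ℕ → ℕ → ℕ → Bool := onCell 0 536870912 1610612736 536870912 201326592 134217728
    (rowN 3 0 false true true .pnn 2 1 3 (qsf 0 536870912 1610612736 536870912 1) ndN0q2 ndN2q3 pcN1 cut_pp_213 Ext.none)

def k0_pp_213 : ∃ t, chk3 f_pp_213 t 1 1 1 = true :=
  ⟨(b (l 3) (a (l 3) (b (l 3) (a (l 3) (b (l 3) (a (l 3) (b (l 3) (b (l 3) (b (l 3) (l 6)))))))))), by decide +kernel⟩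

theorem c_pp_213 : CertN 0 536870912 1610612736 536870912 201326592 134217728 3 false true true .pnn 2 1 3
    ndN0q2 ndN2q3 pcN1 cut_pp_213 Ext.none :=
  certN0 (fam := false) (s1 := true) (s2 := true) (a := 2) (b := 1) (c := 3) (cn := .pnn) (n1 := ndN0q2) (n2 := ndN2q3) (pc := pcN1) (cut := cut_pp_213) (xt := Ext.none) (P1 := 0) (W1 := 536870912) (P2 := 1610612736) (W2 := 536870912) (P3 := 201326592) (W3 := 134217728) (N0 := 3)
    rfl k0_pp_213

noncomputable def f_pm_001 : ℕ → ℕ → ℕ → ℕ → Bool := onCell 0 536870912 536870912 536870912 201326592 134217728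
    (rowN 3 0 false true false .up 0 0 1 (qsf 0 536870912 536870912 536870912 0) ndN0q0 ndN2q1 pcN0 Cut.none Ext.none)

def k0_pm_001 : ∃ t, chk3 f_pm_001 t 1 1 1 = true :=
  ⟨(l 4), by decide +kernel⟩

theorem c_pm_001 : CertN 0 536870912 536870912 536870912 201326592 134217728 3 false true false .up 0 0 1
    ndN0q0 ndN2q1 pcN0 Cut.none Ext.none :=
  certN0 (fam := false) (s1 := true) (s2 := false) (a := 0) (b := 0) (c := 1) (cn := .up) (n1 := ndN0q0) (n2 := ndN2q1) (pc := pcN0) (cut := Cut.none) (xt := Ext.none) (P1 := 0) (W1 := 536870912) (P2 := 536870912) (W2 := 536870912) (P3 := 201326592) (W3 := 134217728) (N0 := 3)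
    rfl k0_pm_001

noncomputable def f_pm_011 : ℕ → ℕ → ℕ → ℕ → Bool := onCell 0 536870912 536870912 536870912 201326592 134217728
    (rowN 3 0 false true false .pnn 0 1 1 (qsf 0 536870912 536870912 536870912 1) ndN0q0 ndN2q1 pcN1 Cut.none Ext.none)

def k0_pm_011 : ∃ t, chk3 f_pm_011 t 1 1 1 = true :=
  ⟨(l 4), by decide +kernel⟩

theorem c_pm_011 : CertN 0 536870912 536870912 536870912 201326592 134217728 3 false true false .pnn 0 1 1
    ndN0q0 ndN2q1 pcN1 Cut.none Ext.none :=
  certN0 (fam := false) (s1 := true) (s2 := false) (a := 0) (b := 1) (c := 1) (cn := .pnn) (n1 := ndN0q0) (n2 := ndN2q1) (pc := pcN1) (cut := Cut.none) (xt := Ext.none) (P1 := 0) (W1 := 536870912) (P2 := 536870912) (W2 := 536870912) (P3 := 201326592) (W3 := 134217728) (N0 := 3)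
    rfl k0_pm_011

noncomputable def cut_pm_012_a : Cut := Cut.of [[⟨0, 0, 0, 67108864⟩, ⟨1, 1, 0, 67108864⟩, ⟨2, 1, 0, 67108864⟩], [⟨0, 0, 1, 67108864⟩, ⟨1, 1, 2, 67108864⟩, ⟨2, 1, 0, 16777216⟩]]

noncomputable def f_pm_012_a : ℕ → ℕ → ℕ → ℕ → Bool := onCell 536870912 536870912 0 536870912 201326592 134217728
    (rowN 3 2 false true false .pnp 0 1 2 (qsf 0 536870912 0 536870912 1) ndN0q0 ndN2q2a pcN1 cut_pm_012_a Ext.none)

def k0_pm_012_a : ∃ t, chk3 f_pm_012_a t 4 1 1 = true :=
  ⟨(b (a (l 2) (b (l 2) (c (l 17519296) (l 17251464)))) (a (b (l 2) (a (b (l 2) (c (b (l 17479872) (c (l 17521496) (l 17388512))) (b (l 17218712) (c (l 17260072) (a (l 17143800) (l 17128160)))))) (b (c (l 17485488) (b (l 17225752) (l 17208808))) (c (b (l 17455256) (c (l 17491872) (l 17358288))) (a (b (l 17196360) (c (l 17236720) (l 17111640))) (b (l 17180224) (c (l 17220360) (l 17093960)))))))) (b (c (b (l 17509704) (l 17531264)) (b (a (l 2) (l 17218872)) (a (l 17220360) (l 17189960)))) (b (c (a (l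 17466528) (l 17444000)) (a (b (l 17196720) (l 17176496)) (b (l 17160392) (l 17136696)))) (c (b (a (l 17428384) (l 17398632)) (a (c (l 17460816) (l 17326184)) (c (l 17428376) (l 17290104)))) (b (a (c (l 17221688) (l 17086240)) (a (l 17122424) (l 17098008))) (a (c (b (l 17201224) (l 17186888)) (b (l 17069712) (a (l 17069560) (l 17048024)))) (a (c (l 17163816) (b (l 17034288) (l 17023440))) (c (l 17140544) (b (l 17006064) (b (l 16997328) (l 16991792)))))))))))), by decide +kernel⟩

def k1_pm_012_a : ∃ t, chk3 f_pm_012_a t 5 2 1 = true :=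
  ⟨(a (b (l 17371568) (a (l 17369024) (c (l 17514008) (l 17184328)))) (b (c (l 17513840) (l 17140856)) (c (a (l 17502120) (l 17477312)) (a (l 17134016) (b (l 17079544) (l 17038368)))))), by decide +kernel⟩

def k2_pm_012_a : ∃ t, chk3 f_pm_012_a t 10 3 1 = true :=
  ⟨(b (c (b (a (l 17497464) (l 17483304)) (a (l 17467432) (l 17443328))) (b (a (l 17186328) (l 17140896)) (a (l 17149152) (l 17091200)))) (b (c (a (c (l 17495800) (l 17337192)) (b (l 17397896) (l 17357544))) (a (b (l 17111920) (a (l 17098136) (l 17065704))) (b (l 17042568) (a (l 17026696) (l 16978648))))) (c (b (a (c (l 17439288) (l 17284896)) (c (l 17394704) (l 17222144))) (a (c (l 17390208) (a (l 17256688) (l 17225768))) (c (b (l 17350360) (l 17317840)) (b (l 17181528) (a (l 17174712) (l 17129632)))))) (b (c (a (a (l 17145064) (l 17111952)) (a (l 17071296) (l 17021664))) (a (a (l 16991656) (l 16950608)) (a (l 16858416) (l 16755472)))) (a (c (a (b (l 17119992) (l 17102160)) (b (l 17082368) (l 17061072))) (b (a (l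 16970848) (l 16924944)) (b (a (l 16960504) (l 16890472)) (a (a (l 16964736) (l 16941344)) (a (l 16874208) (c (l 16928144) (l 14))))))) (b (a (c (l 17036512) (l 16827264)) (c (l 16983152) (b (l 16810448) (l 14)))) (c (a (a (l 17025784) (l 16958104)) (b (l 16943064) (c (l 16994432) (a (l 16924048) (l 14))))) (a (a (c (l 16884280) (l 14)) (b (l 16838880) (l 14))) (l 14))))))))), by decide +kernel⟩

def k3_pm_012_a : ∃ t, chk3 f_pm_012_a t 11 3 1 = true :=
  ⟨(b (c (b (a (l 17459312) (l 17416328)) (a (l 17404152) (b (l 17363088) (l 17315624)))) (b (a (l 17073976) (l 16973904)) (a (b (l 17026664) (l 16986744)) (b (l 16908000) (l 16853096))))) (b (c (a (b (l 17343528) (c (l 17390128) (l 17190584))) (b (l 17258568) (c (l 17306368) (l 17054328)))) (a (b (a (l 16969944) (l 16907304)) (a (l 16919880) (l 16850616))) (b (a (l 16833064) (l 16745264)) (a (l 16727144) (l 16652040))))) (c (b (a (c (l 17327064) (a (l 17156032) (l 17101584))) (c (a (l 17256472) (l 17197160)) (a (l 17015976) (b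 (l 16980688) (l 16939872))))) (a (c (b (l 17273304) (a (l 17258232) (l 17209312))) (b (a (l 17109200) (l 17050216)) (a (b (l 17085064) (l 17006040)) (b (l 17003176) (c (l 17055184) (a (l 16975808) (l 14))))))) (c (b (a (l 17194776) (l 17129640)) (a (c (l 17203128) (l 17099744)) (c (l 17138712) (b (l 17038592) (a (l 17035800) (l 14)))))) (b (a (b (l 16990232) (l 16971400)) (b (l 16909096) (l 14))) (a (a (c (l 17013928) (l 14)) (b (l 16891176) (l 14))) (l 14)))))) (b (a (b (a (l 16879856) (l 16805904)) (c (a (l 16949344) (l 16879552)) (l 16620800))) (a (b (l 16719248) (c (l 16797728) (l 16589280))) (c (l 16615344) (l 16576400)))) (c (a (b (a (b (l 16928088) (l 16914096)) (b (l 16856344) (l 14))) (a (a (c (l 16955888) (l 14)) (b (l 16862008) (l 14))) (l 14))) (b (a (l 16638456) (l 16649664)) (l 14))) (a (b (a (l 16625840) (l 16623856)) (l 14)) (a (b (l 16614368) (l 14)) (a (b (l 16613928) (l 14)) (b (l 16613888) (a (l 14) (a (l 14) (b (l 16634400) (c (l 14) (c (l 14) (l 16653472))))))))))))))),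 by decide +kernel⟩

def k4_pm_012_a : ∃ t, chk3 f_pm_012_a t 6 2 1 = true :=
  ⟨(a (b (c (a (l 17475736) (l 17417920)) (a (l 17015984) (l 16876512))) (c (a (l 17430688) (b (l 17379728) (l 17320168))) (a (b (l 16974160) (l 16914736)) (b (l 16815608) (l 16732240))))) (b (a (c (l 17318384) (l 16670960)) (c (b (l 17174432) (l 17143616)) (b (l 16398496) (l 16349128)))) (c (a (b (l 17261104) (l 17091728)) (b (l 16862176) (a (l 17015920) (l 16875944)))) (a (b (l 16584280) (l 16469080)) (b (l 16297800) (l 16348680)))))), by decide +kernel⟩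

def k5_pm_012_a : ∃ t, chk3 f_pm_012_a t 7 2 1 = true :=
  ⟨(a (a (b (c (b (l 16780912) (a (l 16957512) (l 16792704))) (a (l 16290720) (l 16315000))) (b (c (a (l 16861832) (l 16676232)) (l 16375352)) (c (a (l 16658960) (l 16480936)) (a (l 16334344) (l 16358560))))) (b (c (b (c (l 16827824) (l 16326464)) (a (l 16584752) (l 16348160))) (b (l 16345848) (l 16353312))) (b (c (a (l 16441976) (l 16385560)) (l 16410736)) (c (a (l 16405960) (c (l 16410888) (l 16388696))) (a (l 16382256) (l 16405160)))))) (b (a (c (b (c (l 16397344) (l 16395952)) (c (l 16427160) (l 16424784))) (b (a (l 16358408) (l 16379048)) (a (l 16365440) (l 16385696)))) (c (b (a (c (l 16411432) (l 16407952)) (c (l 16433192) (l 16428384))) (a (c (l 16419296) (l 16415000)) (c (b (l 16437568) (l 16443176)) (b (l 16432160) (l 16437528))))) (b (a (c (l 16402200) (l 16394152)) (c (l 16421272) (b (l 16411376) (l 16412032)))) (a (c (l 16408672) (l 16400288)) (c (b (l 16424632) (l 16429888)) (b (l 16414952) (l 16420224)))))))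 (a (b (c (a (c (l 16390056) (l 16387720)) (c (l 16413336) (l 16409800))) (a (l 16380976) (l 16422152))) (c (a (c (l 16436176) (l 16412736)) (c (l 16459352) (l 16455800))) (a (l 16448240) (b (l 16418920) (l 16434488))))) (b (c (a (c (l 16435112) (l 16430456)) (c (b (l 16450888) (l 16460840)) (b (l 16445120) (l 16455072)))) (a (c (l 16424016) (l 16415792)) (b (c (l 16437488) (l 16427968)) (c (l 16447568) (l 16438312))))) (c (a (c (b (l 16452560) (l 16467560)) (b (l 16447904) (l 16463080))) (c (b (l 16473216) (a (l 16483200) (l 16493216))) (b (l 16467560) (a (l 16478008) (l 16487560))))) (a (b (l 16437960) (c (l 16457176) (l 16449816))) (b (c (l 16460312) (l 16451448)) (a (l 16467488) (a (l 16474192) (l 16478528)))))))))), by decide +kernel⟩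

def k6_pm_012_a : ∃ t, chk3 f_pm_012_a t 12 6 1 = true :=
  ⟨(c (b (a (l 17342536) (c (l 17375368) (l 17073048))) (a (b (l 17269136) (l 17185216)) (b (l 16999360) (c (l 17200232) (l 16881088))))) (a (b (l 16824648) (b (l 16735040) (l 16662856))) (b (a (l 16670840) (l 16542736)) (b (l 16489224) (l 16468984))))), by decide +kernel⟩

def k7_pm_012_a : ∃ t, chk3 f_pm_012_a t 12 14 1 = true :=
  ⟨(a (c (b (c (l 17266784) (l 16995816)) (c (a (l 17217384) (l 17141520)) (a (l 16956904) (l 16857840)))) (b (a (l 16641224) (l 16517704)) (a (l 16559528) (l 16534360)))) (c (b (a (l 16830176) (c (l 17052896) (l 16713296))) (a (c (l 17048928) (l 16738496)) (c (l 16893624) (l 16594040)))) (b (a (l 16489120) (l 16486664)) (a (l 16553920) (l 16553200))))), by decide +kernel⟩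

def k8_pm_012_a : ∃ t, chk3 f_pm_012_a t 12 30 1 = true :=
  ⟨(a (c (c (a (b (l 17149840) (l 17101592)) (b (l 17066048) (l 17012808))) (a (b (l 16891400) (l 16846424)) (b (l 16784560) (l 16734984)))) (a (b (l 16570304) (l 16626504)) (b (l 16569384) (l 16626360)))) (c (a (c (b (l 16964352) (l 16716728)) (b (l 16656216) (l 16613920))) (c (b (l 16840344) (b (l 16791408) (l 16758800))) (b (l 16586856) (l 16613872)))) (a (b (l 16569208) (l 16632256)) (c (b (l 16575512) (l 16602672)) (l 16619936))))), by decide +kernel⟩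

def k9_pm_012_a : ∃ t, chk3 f_pm_012_a t 24 31 1 = true :=
  ⟨(c (b (b (c (a (l 17064416) (l 16951296)) (a (l 16792008) (l 16698680))) (c (a (l 16997472) (l 14)) (l 14))) (c (a (c (b (l 17075112) (a (l 17070000) (l 14))) (l 14)) (l 14)) (l 14))) (b (a (c (l 16654776) (l 16635136)) (c (b (l 16621560) (l 16635528)) (l 16636296))) (b (a (c (l 14) (a (l 16634688) (l 16635352))) (c (c (l 14) (l 16667616)) (a (l 16636248) (l 16637360)))) (a (c (l 14) (a (c (l 14) (b (l 16641704) (a (c (l 14) (l 16646928)) (a (l 16659640) (l 16649400))))) (a (b (l 16646016) (c (l 14) (b (l 16647928) (l 16651648)))) (b (l 16646472) (c (c (l 14) (l 16655672)) (l 16658232)))))) (a (c (l 14) (b (l 16657736) (c (a (c (l 14) (l 16656208)) (c (l 16660176) (l 16656800))) (a (l 16661488) (l 16651696))))) (a (c (l 14) (b (l 16648208) (c (b (l 16657184) (l 16666248)) (l 16652440)))) (c (b (l 16672288) (c (l 14) (c (l 14) (l 16669864)))) (b (l 16648896) (c (b (l 16657848) (l 16661688)) (l 16653248)))))))))),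 by decide +kernel⟩

def k10_pm_012_a : ∃ t, chk3 f_pm_012_a t 25 31 1 = true :=
  ⟨(c (a (b (b (c (l 16714464) (l 16634432)) (l 14)) (l 14)) (a (b (c (c (l 16784736) (l 16668224)) (l 16642424)) (l 14)) (a (b (c (l 16671280) (l 16642928)) (l 14)) (c (b (l 16664416) (l 14)) (c (b (l 16645984) (l 14)) (b (l 16640640) (b (l 16663440) (b (l 16675248) (b (l 16681256) (c (l 14) (l 16683976))))))))))) (b (a (c (b (l 16622328) (l 16636704)) (l 16638312)) (c (b (l 16623928) (l 16638728)) (l 16662120))) (b (a (c (c (l 16675528) (l 16669456)) (a (l 16638696) (l 16640240))) (c (a (l 16653488) (l 16654952)) (a (l 16641992) (l 16643952)))) (a (c (a (c (l 14) (b (l 16659408) (a (c (l 14) (l 16665256)) (c (l 16674264) (l 16665944))))) (c (b (l 16666664) (b (l 16672496) (c (l 14) (a (l 14) (l 16675344))))) (b (l 16660720) (a (c (l 16669704) (l 16666680)) (a (l 16679256) (l 16679656)))))) (a (b (l 16649992) (a (c (b (l 16658560) (l 16662432)) (l 16654104)) (c (l 16671768) (l 16655016)))) (b (l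 16651688) (a (c (l 16662120) (l 16655984)) (c (l 16663016) (l 16657000)))))) (c (b (a (c (l 16667944) (l 16662248)) (c (l 16669440) (l 16663992))) (a (c (b (l 16673856) (c (a (l 14) (l 16679680)) (a (l 16676088) (l 16676880)))) (b (l 16668160) (a (l 16677000) (l 16672640)))) (a (c (b (l 16675072) (c (l 16680464) (l 16677720))) (l 16676816)) (c (c (l 16684528) (l 16676600)) (l 16683032))))) (a (b (l 16653600) (a (c (l 16663960) (l 16658072)) (c (l 16664952) (l 16659192)))) (b (l 16655712) (c (b (l 16664464) (l 16673744)) (l 16660928))))))))), by decide +kernel⟩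

def k11_pm_012_a : ∃ t, chk3 f_pm_012_a t 13 6 1 = true :=
  ⟨(a (b (c (a (l 17095976) (l 16879016)) (l 16430520)) (c (b (a (l 16970136) (l 16836032)) (a (l 16844200) (l 16692168))) (a (l 16467128) (l 16484408)))) (b (c (a (l 16593144) (b (l 16733128) (l 16610168))) (a (l 16389624) (l 16384376))) (c (a (b (l 16669928) (l 16524728)) (b (l 16463048) (l 16496328))) (b (l 16458728) (c (l 16483256) (l 16495752)))))), by decide +kernel⟩

def k12_pm_012_a : ∃ t, chk3 f_pm_012_a t 13 14 1 = true :=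
  ⟨(a (c (c (b (a (l 16930632) (l 16779056)) (a (l 16670272) (b (l 16664264) (l 16582832)))) (b (l 16540792) (a (l 16548152) (l 16547544)))) (b (c (l 16530344) (l 16520112)) (a (l 16553248) (l 16575112)))) (b (c (a (c (l 16589768) (l 16497272)) (c (l 16526288) (l 16517928))) (a (l 16504840) (l 16526968))) (c (a (c (l 16577568) (l 16568776)) (c (l 16599096) (l 16570240))) (a (l 16576856) (l 16600712))))), by decide +kernel⟩

def k13_pm_012_a : ∃ t, chk3 f_pm_012_a t 26 30 1 = true :=
  ⟨(c (b (a (c (l 16688128) (l 16586744)) (c (l 16596952) (l 16587536))) (a (c (l 16645808) (l 16614672)) (c (l 16646568) (l 16616352)))) (b (a (l 16571216) (l 16594448)) (a (c (l 16604448) (l 16594168)) (c (l 16607088) (l 16597792))))), by decide +kernel⟩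

def k14_pm_012_a : ∃ t, chk3 f_pm_012_a t 26 31 2 = true :=
  ⟨(b (c (a (b (l 16646544) (l 14)) (b (l 16647928) (c (l 14) (l 16661224)))) (a (b (l 16636512) (l 16672672)) (a (l 16667328) (l 16668832)))) (a (c (l 14) (c (a (l 14) (a (l 14) (a (l 14) (b (l 16671448) (b (l 16683560) (c (l 14) (l 16695840))))))) (b (a (l 16664392) (l 16665920)) (b (a (l 16676312) (l 16677984)) (a (b (l 16692856) (c (a (l 14) (l 16688224)) (a (l 16684808) (l 16685688)))) (b (l 16684112) (c (a (l 16689096) (l 16690016)) (a (l 16686616) (l 16687592))))))))) (b (c (c (l 14) (a (l 14) (l 16678384))) (a (c (l 16672304) (l 16667640)) (c (l 16673976) (l 16669544)))) (c (a (l 14) (a (l 14) (c (l 14) (b (l 16691248) (b (l 16697528) (c (l 14) (b (l 16699624) (l 16704368)))))))) (b (a (c (l 16684496) (l 16679848)) (c (l 16686320) (l 16681896))) (a (c (b (c (l 16691848) (l 16689536)) (c (a (l 14) (b (l 16695528) (l 16697624))) (a (l 16693336) (l 16694296)))) (b (l 16686048) (c (a (l 16690984) (l 16691992))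 (a (l 16688616) (l 16689688))))) (c (b (c (l 16693688) (l 16691488)) (c (a (l 16700144) (l 16698520)) (a (l 16695296) (l 16696344)))) (a (a (l 16694824) (l 16695376)) (a (l 16701176) (l 16701752)))))))))), by decide +kernel⟩

def k15_pm_012_a : ∃ t, chk3 f_pm_012_a t 26 31 3 = true :=
  ⟨(b (a (c (b (l 16626376) (l 16641600)) (l 16665776)) (c (a (l 16636920) (l 16638888)) (a (l 16627384) (l 16629832)))) (a (b (c (a (l 16656624) (l 16658512)) (a (l 16646120) (l 16648488))) (c (b (a (c (l 16671144) (l 16665936)) (c (l 16673056) (l 16668088))) (a (a (c (c (l 16680168) (l 16677536)) (l 16673576)) (c (b (l 16677760) (l 16687096)) (l 16674656))) (a (c (b (l 16678752) (l 16682872)) (l 16675776)) (c (b (l 16679792) (l 16683936)) (l 16676952))))) (a (b (l 16658032) (c (b (l 16666736) (l 16670816)) (l 16663464))) (b (l 16660544) (c (b (l 16669192) (l 16673320)) (l 16666192)))))) (b (c (a (l 16660584) (l 16662832)) (a (l 16651040) (l 16653776))) (c (b (a (l 16683272) (l 16685672)) (a (a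 (c (b (l 16680880) (l 16685048)) (l 16678168)) (c (l 16694600) (l 16679432))) (a (c (l 16695792) (l 16680744)) (c (l 16686552) (l 16682104))))) (a (b (l 16663240) (c (l 16684416) (l 16669104))) (b (l 16666112) (c (l 16687272) (l 16672200)))))))), by decide +kernel⟩

def k16_pm_012_a : ∃ t, chk3 f_pm_012_a t 27 30 1 = true :=
  ⟨(c (a (c (b (l 16597616) (l 16648088)) (b (l 16589128) (l 16639760))) (c (b (l 16620464) (c (l 16652648) (l 16648912))) (b (l 16591888) (l 16643328)))) (a (b (l 16597488) (c (l 16610472) (l 16602160))) (b (l 16601640) (c (l 16635920) (l 16628552))))), by decide +kernel⟩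

def k17_pm_012_a : ∃ t, chk3 f_pm_012_a t 54 31 1 = true :=
  ⟨(c (b (c (b (l 16671040) (c (l 16688992) (l 16663968))) (a (l 16670504) (l 16672368))) (b (c (c (a (l 14) (l 16685768)) (a (l 16680016) (l 16681832))) (a (c (l 16675840) (l 16671632)) (l 16694240))) (c (b (c (a (l 14) (c (l 14) (l 16697384))) (a (l 16692488) (l 16694448))) (c (c (l 14) (a (l 14) (a (l 14) (a (l 14) (a (l 14) (l 16712280)))))) (a (b (c (l 16699856) (l 16697784)) (c (a (l 14) (a (l 14) (l 16705032))) (a (b (l 16700600) (l 16702736)) (l 16705328)))) (b (c (l 16701832) (l 16699880)) (c (a (b (l 16704688) (l 16706848)) (b (l 16705752) (l 16707920))) (a (l 16703784) (l 16704904))))))) (b (a (c (l 16688320) (l 16684128)) (c (l 16690512) (l 16686536))) (a (c (b (l 16699904) (c (a (l 16699560) (l 16700648)) (a (l 16697448) (l 16698592)))) (b (l 16690472) (a (l 16694256) (l 16695480)))) (c (b (l 16696920) (a (c (l 16701784) (l 16699784)) (c (l 16702968) (l 16701016)))) (b (l 16692960) (a (l 16696760) (l 16698080)))))))))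 (b (c (c (l 16675240) (l 16681592)) (a (l 16632456) (l 16635256))) (b (c (a (l 16665272) (l 16667888)) (a (l 16656688) (l 16659784))) (c (b (a (l 16688256) (l 16691016)) (a (a (c (l 16687832) (l 16683504)) (c (l 16689168) (l 16684952))) (a (c (l 16690544) (l 16686448)) (c (l 16691968) (l 16687984))))) (a (b (l 16669168) (c (l 16679816) (l 16675472))) (b (l 16672408) (c (l 16683024) (l 16678912)))))))), by decide +kernel⟩

def k18_pm_012_a : ∃ t, chk3 f_pm_012_a t 55 31 1 = true :=
  ⟨(c (b (c (b (l 16674336) (a (l 16669024) (l 16671016))) (a (l 16674400) (l 16676736))) (b (c (a (c (l 16687544) (l 16683832)) (c (l 16710600) (l 16686136))) (a (l 16696576) (c (l 16682616) (l 16679088)))) (c (b (a (c (a (l 16699952) (l 16700968)) (l 16696592)) (c (a (l 16702032) (l 16703168)) (l 16709528))) (a (c (b (c (l 16712912) (l 16705840)) (c (a (l 14) (a (l 14) (l 16718296))) (a (a (l 16709592) (l 16710136)) (b (l 16709832) (l 16714648))))) (b (a (l 16702664) (l 16703824)) (a (c (b (l 16706856)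 (l 16709040)) (l 16706072)) (c (l 16714352) (l 16707288))))) (b (a (c (l 16708560) (l 16705032)) (c (l 16709736) (l 16706320))) (c (a (a (c (l 16713600) (l 16711832)) (c (l 16714160) (l 16712416))) (a (c (l 16714736) (l 16713016)) (c (l 16715328) (l 16713640)))) (a (c (l 16710320) (l 16708552)) (c (l 16711600) (l 16709888))))))) (b (a (c (l 16692872) (l 16689128)) (c (l 16695536) (l 16692016))) (b (a (c (l 16699360) (l 16695616)) (c (l 16707344) (l 16698576))) (a (c (a (c (l 16704192) (l 16702296)) (c (l 16705456) (l 16703624))) (a (l 16699440) (l 16700848))) (c (a (c (l 16706776) (l 16704992)) (c (l 16708168) (l 16706440))) (a (l 16702304) (l 16703832))))))))) (b (c (a (l 16645856) (l 16669608)) (a (l 16638240) (l 16641488))) (b (c (a (l 16670680) (l 16673752)) (a (l 16663048) (l 16666584))) (c (b (a (l 16704432) (l 16697168)) (a (a (c (l 16693432) (l 16689568)) (c (l 16694944) (l 16691192))) (c (a (l 16696496) (l 16698128)) (a (l 16692864) (l 16694600))))) (a (b (l 16675808)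 (c (l 16696888) (l 16682536))) (b (l 16679488) (c (l 16699232) (l 16686416)))))))), by decide +kernel⟩

def k19_pm_012_a : ∃ t, chk3 f_pm_012_a t 14 6 1 = true :=
  ⟨(a (b (c (a (c (l 16719136) (l 16392192)) (b (l 16383256) (l 16403200))) (a (l 16389824) (l 16393552))) (c (b (a (l 16450440) (l 16447872)) (a (c (l 16476384) (l 16468544)) (l 16491168))) (a (a (l 16479016) (l 16478208)) (l 16484256)))) (a (b (c (c (l 16440424) (l 16440640)) (l 16438848)) (c (b (l 16474904) (l 16501752)) (c (l 16509808) (l 16508880)))) (b (c (b (l 16435448) (l 16455944)) (l 16483360)) (c (b (l 16501256) (c (l 16508488) (l 16508312))) (b (l 16477336) (l 16527536)))))), by decide +kernel⟩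

def k20_pm_012_a : ∃ t, chk3 f_pm_012_a t 28 14 1 = true :=
  ⟨(a (c (b (b (l 16507816) (l 16543904)) (c (a (l 16578680) (l 16578640)) (l 16592168))) (b (l 16527816) (c (l 16585496) (l 16579056)))) (b (c (c (l 16523568) (l 16517216)) (l 16529416)) (c (b (l 16560976) (l 16595320)) (l 16585416)))), by decide +kernel⟩

def k21_pm_012_a : ∃ t, chk3 f_pm_012_a t 28 30 1 = true :=
  ⟨(c (b (a (c (l 16621664) (l 16615024)) (c (l 16602592) (l 16596904))) (a (c (b (l 16644752) (l 16660648)) (l 16667264)) (c (l 16655680) (l 16650128)))) (b (a (l 16626288) (l 16609688)) (a (c (l 16639880) (l 16633536)) (l 16662976)))), by decide +kernel⟩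

def k22_pm_012_a : ∃ t, chk3 f_pm_012_a t 28 62 1 = true :=
  ⟨(c (a (c (a (c (l 16687000) (l 16683672)) (b (l 16657272) (l 16674120))) (a (l 16678696) (l 16680576))) (c (b (l 16659888) (a (l 16676120) (l 16678904))) (b (l 16654416) (l 16693056)))) (a (c (a (l 16672048) (l 16674424)) (a (l 16644424) (l 16647312))) (b (l 16667272) (a (l 16661952) (l 16665856))))), by decide +kernel⟩

def k23_pm_012_a : ∃ t, chk3 f_pm_012_a t 56 63 1 = true :=
  ⟨(c (b (c (a (c (l 16712280) (l 16688040)) (c (l 16693144) (l 16690096))) (a (c (l 16684752) (l 16681456)) (l 16706480))) (c (b (a (c (a (l 16704096) (l 16704888)) (l 16711592)) (c (l 16706704) (l 16703664))) (b (a (c (a (l 16710696) (l 16711608)) (a (l 16707392) (l 16708408))) (c (l 16713696) (l 16710656))) (a (c (a (a (c (l 16715808) (l 16714144)) (c (l 16716192) (l 16714560))) (c (l 16717000) (l 16715408))) (a (c (l 16712672) (l 16711008)) (c (l 16713816) (l 16712208)))) (a (c (c (l 16718432) (l 16716888)) (l 16719808)) (c (c (l 16719896)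 (l 16718408)) (l 16721400)))))) (b (a (c (l 16697832) (l 16694544)) (l 16709560)) (a (c (a (b (l 16704056) (l 16713752)) (b (l 16705192) (l 16709792))) (a (l 16713424) (l 16704280))) (a (c (l 16714344) (l 16705968)) (c (l 16716040) (l 16707768))))))) (b (c (a (l 16697456) (l 16679352)) (a (l 16669800) (l 16673160))) (b (c (a (l 16700056) (l 16692896)) (a (l 16682864) (l 16686648))) (c (a (c (a (l 16699552) (l 16701016)) (a (l 16696152) (l 16697728))) (c (l 16714256) (l 16700640))) (a (a (l 16690992) (l 16692744)) (l 16706400)))))), by decide +kernel⟩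

def k24_pm_012_a : ∃ t, chk3 f_pm_012_a t 57 63 1 = true :=
  ⟨(c (b (b (c (l 16701640) (l 16685696)) (c (a (l 16698880) (l 16701880)) (l 16705424))) (b (a (c (c (l 16709616) (l 16706784)) (l 16702512)) (c (c (l 16712568) (l 16709944)) (l 16705984))) (b (c (c (a (l 16716664) (l 16719648)) (a (l 16713832) (l 16717024))) (c (a (l 16710976) (l 16714384)) (l 16709936))) (b (c (c (a (l 16720216) (l 16723216)) (a (l 16717376) (l 16720584))) (c (a (l 16714520) (l 16717944)) (l 16713480))) (c (c (a (c (a (l 16722552) (l 16724032)) (l 16721880)) (c (a (l 16725512) (l 16726992)) (l 16724944))) (a (c (l 16720464) (l 16719040)) (c (l 16723632) (l 16722312)))) (c (a (l 16716896) (l 16720328)) (a (l 16714016) (l 16717664)))))))) (b (c (a (l 16682904) (l 16686752)) (l 16700312)) (b (c (a (l 16696760) (l 16700672)) (l 16693152)) (c (a (c (l 16712832) (l 16704672)) (c (b (l 16709056) (l 16713792)) (l 16708744))) (a (l 16710752) (c (l 16706032) (l 16703304))))))), by decide +kernel⟩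

def k25_pm_012_a : ∃ t, chk3 f_pm_012_a t 29 14 1 = true :=
  ⟨(a (b (c (c (l 16543576) (l 16517360)) (l 16535984)) (c (c (b (l 16543312) (l 16594168)) (l 16595624)) (b (l 16552608) (l 16582808)))) (b (c (c (l 16561376) (l 16561680)) (l 16566192)) (c (c (a (l 16601792) (l 16598672)) (l 16599056)) (l 16598528)))), by decide +kernel⟩

def k26_pm_012_a : ∃ t, chk3 f_pm_012_a t 29 30 1 = true :=
  ⟨(a (b (c (c (l 16626024) (l 16621376)) (b (l 16606424) (l 16622896))) (c (c (l 16670248) (l 16655168)) (c (l 16650712) (l 16646392)))) (b (c (c (l 16630592) (l 16626928)) (l 16632328)) (c (c (a (l 16663792) (l 16666576)) (l 16672072)) (a (l 16654360) (a (l 16657336) (l 16659352)))))), by decide +kernel⟩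

def k27_pm_012_a : ∃ t, chk3 f_pm_012_a t 29 62 1 = true :=
  ⟨(c (a (c (b (l 16686152) (c (l 16705432) (l 16682168))) (b (l 16660616) (l 16699720))) (c (b (l 16691920) (c (l 16711152) (l 16709312))) (b (l 16688288) (c (l 16707496) (l 16705680))))) (a (b (l 16674880) (a (l 16669888) (l 16694944))) (b (c (l 16684736) (l 16660304)) (c (l 16702992) (l 16699440))))), by decide +kernel⟩

def k28_pm_012_a : ∃ t, chk3 f_pm_012_a t 29 63 2 = true :=
  ⟨(b (a (c (a (c (l 16701472) (l 16699072)) (c (l 16725360) (l 16702208))) (a (l 16716432) (l 16709424))) (c (a (c (l 16728304) (l 16726352)) (c (l 16720768) (l 16719056))) (a (l 16712944) (c (l 16717344) (l 16705160))))) (a (b (c (c (a (l 16715536) (l 16718520)) (a (l 16713128) (l 16716328))) (a (l 16719984) (l 16723528))) (c (b (c (a (l 16722648) (l 16725664)) (a (l 16720240) (l 16723472))) (b (c (a (l 16726232) (l 16729256)) (a (l 16723816) (l 16727064))) (c (a (c (l 16729232) (l 16728024)) (c (l 16732208) (l 16731112))) (a (c (l 16726816)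 (l 16725608)) (c (l 16730016) (l 16728920)))))) (a (c (b (l 16717816) (c (l 16723200) (l 16721976))) (b (l 16715376) (l 16720144))) (b (l 16724752) (c (c (l 16726616) (l 16725512)) (l 16723848)))))) (b (c (a (c (l 16721504) (l 16719552)) (c (l 16724496) (l 16722784))) (a (l 16727096) (l 16730696))) (c (b (c (a (l 16728680) (l 16731680)) (a (l 16726720) (l 16729968))) (b (c (a (l 16732280) (l 16735296)) (a (l 16730320) (l 16733584))) (c (a (c (l 16735184) (l 16734208)) (c (l 16738144) (l 16737288))) (a (c (l 16733224) (l 16732240)) (c (l 16736432) (l 16735576)))))) (b (a (l 16729008) (l 16732632)) (a (c (c (l 16730056) (l 16729064)) (l 16727576)) (c (c (l 16736128) (l 16732640)) (a (l 16730392) (l 16732280))))))))), by decide +kernel⟩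

def k29_pm_012_a : ∃ t, chk3 f_pm_012_a t 29 63 3 = true :=
  ⟨(b (c (a (a (l 16690640) (l 16694576)) (a (l 16698568) (l 16713096))) (a (a (l 16685816) (l 16690216)) (a (l 16694680) (l 16699224)))) (a (b (c (a (l 16704632) (l 16708624)) (a (l 16699720) (l 16704184))) (b (c (c (l 16714904) (l 16712552)) (l 16714256)) (c (a (c (l 16717688) (l 16715216)) (c (l 16721616) (l 16719376))) (a (l 16711472) (l 16715992))))) (b (c (a (l 16712672) (l 16716768)) (a (l 16708712) (l 16713312))) (b (c (a (l 16719800) (l 16723928)) (a (l 16715808) (l 16720432))) (c (a (c (l 16725592) (l 16723592)) (c (l 16729600) (l 16727856))) (a (l 16720568) (l 16725208))))))), by decide +kernel⟩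

def k30_pm_012_a : ∃ t, chk3 f_pm_012_a t 15 6 1 = true :=
  ⟨(b (a (c (a (c (l 16503056) (l 16490472)) (c (b (l 16463704) (l 16484496)) (b (l 16460424) (l 16481584)))) (a (b (l 16432376) (l 16475048)) (b (l 16453112) (l 16496056)))) (c (a (c (b (l 16485352) (l 16526960)) (b (l 16481176) (l 16523216))) (b (c (a (l 16500896) (l 16510352)) (a (l 16496056) (l 16505120))) (c (a (l 16520840) (l 16529832)) (a (l 16516536) (l 16525200))))) (a (b (c (l 16475712) (l 16468944)) (c (l 16497360) (l 16491320))) (b (a (l 16486344) (c (l 16498576) (l 16490712))) (a (c (l 16511072) (l 16504448)) (c (l 16519400) (l 16512440))))))) (a (c (a (b (c (l 16506568) (l 16483952)) (c (l 16555816) (l 16533592))) (b (c (l 16530016) (l 16527480)) (c (b (l 16529576) (l 16544048)) (l 16576584)))) (a (b (l 16500648) (a (l 16524536) (l 16536072))) (b (b (l 16494024) (l 16507880)) (c (l 16573752) (l 16570112))))) (a (a (c (b (c (l 16524968) (l 16521880)) (c (l 16551784) (l 16549328))) (b (l 16515400) (b (l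 16536432) (l 16551800)))) (c (b (c (l 16534632) (l 16531224)) (c (l 16582488) (l 16558784))) (b (l 16545232) (c (l 16555240) (l 16550856))))) (c (b (c (a (l 16543960) (b (l 16546856) (l 16559592))) (a (l 16540264) (l 16549208))) (a (c (b (l 16563872) (l 16578520)) (l 16578648)) (c (b (l 16573352) (l 16588200)) (b (l 16569880) (l 16585120))))) (b (a (c (l 16535568) (l 16529872)) (c (l 16544216) (l 16538224))) (a (c (l 16564344) (l 16559688)) (b (l 16573512) (c (l 16581248) (l 16576584))))))))), by decide +kernel⟩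

def k31_pm_012_a : ∃ t, chk3 f_pm_012_a t 15 14 1 = true :=
  ⟨(a (b (c (a (c (c (l 16587352) (l 16587168)) (l 16586608)) (c (b (l 16580208) (l 16596560)) (a (l 16582056) (l 16592040)))) (a (a (l 16578952) (l 16590112)) (b (l 16575120) (c (l 16593704) (l 16570408))))) (a (c (b (c (l 16592232) (l 16592032)) (c (l 16616176) (l 16611096))) (a (l 16597680) (b (l 16596352) (l 16595296)))) (c (b (c (l 16619624) (l 16613616)) (c (a (l 16628200) (l 16638920)) (a (l 16627920) (l 16638432)))) (b (c (l 16612344) (l 16610560)) (a (l 16626712) (l 16636888)))))) (b (a (c (a (c (l 16614104) (l 16622920)) (c (b (l 16584376) (l 16601216)) (b (l 16582240) (l 16599496)))) (a (b (l 16568344) (l 16586160)) (b (l 16577704) (l 16595744)))) (c (a (c (b (l 16594312) (l 16611376)) (b (l 16591920) (l 16609400))) (c (b (l 16604208) (a (l 16618984) (l 16624040))) (b (l 16601536) (l 16624496)))) (a (b (l 16586984) (c (l 16606800) (l 16603568))) (b (c (l 16598168) (l 16594072)) (c (l 16616376) (l 16612872))))))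 (a (c (b (a (c (l 16609160) (l 16608048)) (c (l 16640552) (l 16618232))) (a (c (l 16649616) (l 16648896)) (c (l 16660280) (l 16659320)))) (b (a (l 16626376) (c (l 16616360) (l 16613944))) (a (b (l 16620704) (l 16631376)) (c (l 16657920) (l 16635104))))) (a (a (c (c (b (l 16627392) (l 16647312)) (b (l 16625848) (l 16646152))) (b (l 16622536) (l 16648824))) (b (c (b (l 16626936) (l 16636696)) (l 16627392)) (l 6))) (a (b (c (c (l 16637760) (l 16635952)) (l 16632224)) (l 6)) (l 6)))))), by decide +kernel⟩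

def k32_pm_012_a : ∃ t, chk3 f_pm_012_a t 15 15 1 = true :=
  ⟨(a (b (b (c (a (c (l 16635960) (l 16633272)) (a (c (l 16648584) (l 16648712)) (c (l 16659552) (l 16659472)))) (a (l 16637008) (a (l 16648288) (a (l 16656120) (l 16661312))))) (a (c (c (a (l 16669408) (l 16672424)) (b (l 16659336) (l 16671880))) (b (l 16655648) (l 16673384))) (c (b (c (l 16665208) (l 16662912)) (c (a (l 16685768) (l 16690624)) (l 16681064))) (a (l 16670680) (b (l 16676072) (l 16688200)))))) (b (a (b (c (c (c (l 16693312) (l 16691968)) (l 16692616)) (c (l 16692688) (l 16690232))) (a (c (c (l 16704224) (l 16711816)) (l 16702328)) (c (c (l 16712648) (l 16715504)) (c (l 16713176) (l 16710904))))) (a (b (c (c (l 16693480) (l 16701912)) (l 16693792)) (l 6)) (l 6))) (b (a (a (c (b (c (l 16707744) (l 16704848)) (c (l 16727688) (l 16714304))) (c (l 16717192) (l 16714320))) (b (c (c (l 16710968) (l 16708584)) (l 16715544)) (l 6))) (l 6)) (b (a (a (c (c (c (l 16732720) (l 16726024)) (c (l 16724568) (l 16723112)))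 (c (l 16720920) (l 16717984))) (l 6)) (l 6)) (a (a (a (c (b (c (c (l 16733928) (l 16732408)) (l 16730120)) (a (c (c (l 16738384) (l 16736832)) (l 16739736)) (l 6))) (c (c (l 16740720) (l 16728688)) (l 16736832))) (l 6)) (l 6)) (l 6)))))) (b (a (a (b (c (b (c (l 16644144) (l 16643728)) (c (l 16675920) (l 16675712))) (c (l 16669536) (l 16668528))) (l 6)) (l 6)) (l 6)) (l 6))), by decide +kernel⟩

theorem s33_pm_012_a : ∃ t, chk3 f_pm_012_a t 15 7 1 = true := ex3_b k31_pm_012_a k32_pm_012_a

theorem s34_pm_012_a : ∃ t, chk3 f_pm_012_a t 15 3 1 = true := ex3_b k30_pm_012_a s33_pm_012_a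

theorem s35_pm_012_a : ∃ t, chk3 f_pm_012_a t 29 63 1 = true := ex3_c k28_pm_012_a k29_pm_012_a

theorem s36_pm_012_a : ∃ t, chk3 f_pm_012_a t 29 31 1 = true := ex3_b k27_pm_012_a s35_pm_012_a

theorem s37_pm_012_a : ∃ t, chk3 f_pm_012_a t 29 15 1 = true := ex3_b k26_pm_012_a s36_pm_012_a

theorem s38_pm_012_a : ∃ t, chk3 f_pm_012_a t 29 7 1 = true := ex3_b k25_pm_012_a s37_pm_012_a

theorem s39_pm_012_a : ∃ t, chk3 f_pm_012_a t 28 63 1 = true := ex3_a k23_pm_012_a k24_pm_012_a

theorem s40_pm_012_a : ∃ t, chk3 f_pm_012_a t 28 31 1 = true := ex3_b k22_pm_012_a s39_pm_012_a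

theorem s41_pm_012_a : ∃ t, chk3 f_pm_012_a t 28 15 1 = true := ex3_b k21_pm_012_a s40_pm_012_a

theorem s42_pm_012_a : ∃ t, chk3 f_pm_012_a t 28 7 1 = true := ex3_b k20_pm_012_a s41_pm_012_a

theorem s43_pm_012_a : ∃ t, chk3 f_pm_012_a t 14 7 1 = true := ex3_a s42_pm_012_a s38_pm_012_a

theorem s44_pm_012_a : ∃ t, chk3 f_pm_012_a t 14 3 1 = true := ex3_b k19_pm_012_a s43_pm_012_a

theorem s45_pm_012_a : ∃ t, chk3 f_pm_012_a t 7 3 1 = true := ex3_a s44_pm_012_a s34_pm_012_a

theorem s46_pm_012_a : ∃ t, chk3 f_pm_012_a t 27 31 1 = true := ex3_a k17_pm_012_a k18_pm_012_a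

theorem s47_pm_012_a : ∃ t, chk3 f_pm_012_a t 27 15 1 = true := ex3_b k16_pm_012_a s46_pm_012_a

theorem s48_pm_012_a : ∃ t, chk3 f_pm_012_a t 26 31 1 = true := ex3_c k14_pm_012_a k15_pm_012_a

theorem s49_pm_012_a : ∃ t, chk3 f_pm_012_a t 26 15 1 = true := ex3_b k13_pm_012_a s48_pm_012_a

theorem s50_pm_012_a : ∃ t, chk3 f_pm_012_a t 13 15 1 = true := ex3_a s49_pm_012_a s47_pm_012_a

theorem s51_pm_012_a : ∃ t, chk3 f_pm_012_a t 13 7 1 = true := ex3_b k12_pm_012_a s50_pm_012_a

theorem s52_pm_012_a : ∃ t, chk3 f_pm_012_a t 13 3 1 = true := ex3_b k11_pm_012_a s51_pm_012_a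

theorem s53_pm_012_a : ∃ t, chk3 f_pm_012_a t 12 31 1 = true := ex3_a k9_pm_012_a k10_pm_012_a

theorem s54_pm_012_a : ∃ t, chk3 f_pm_012_a t 12 15 1 = true := ex3_b k8_pm_012_a s53_pm_012_a

theorem s55_pm_012_a : ∃ t, chk3 f_pm_012_a t 12 7 1 = true := ex3_b k7_pm_012_a s54_pm_012_a

theorem s56_pm_012_a : ∃ t, chk3 f_pm_012_a t 12 3 1 = true := ex3_b k6_pm_012_a s55_pm_012_a

theorem s57_pm_012_a : ∃ t, chk3 f_pm_012_a t 6 3 1 = true := ex3_a s56_pm_012_a s52_pm_012_a

theorem s58_pm_012_a : ∃ t, chk3 f_pm_012_a t 3 3 1 = true := ex3_a s57_pm_012_a s45_pm_012_a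

theorem s59_pm_012_a : ∃ t, chk3 f_pm_012_a t 3 2 1 = true := ex3_a k4_pm_012_a k5_pm_012_a

theorem s60_pm_012_a : ∃ t, chk3 f_pm_012_a t 3 1 1 = true := ex3_b s59_pm_012_a s58_pm_012_a

theorem s61_pm_012_a : ∃ t, chk3 f_pm_012_a t 5 3 1 = true := ex3_a k2_pm_012_a k3_pm_012_a

theorem s62_pm_012_a : ∃ t, chk3 f_pm_012_a t 5 1 1 = true := ex3_b k1_pm_012_a s61_pm_012_a

theorem s63_pm_012_a : ∃ t, chk3 f_pm_012_a t 2 1 1 = true := ex3_a k0_pm_012_a s62_pm_012_a

theorem s64_pm_012_a : ∃ t, chk3 f_pm_012_a t 1 1 1 = true := ex3_a s63_pm_012_a s60_pm_012_a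

theorem c_pm_012_a : CertN 0 536870912 0 536870912 201326592 134217728 3 false true false .pnp 0 1 2
    ndN0q0 ndN2q2a pcN1 cut_pm_012_a Ext.none :=
  certN2 (fam := false) (s1 := true) (s2 := false) (a := 0) (b := 1) (c := 2) (cn := .pnp) (n1 := ndN0q0) (n2 := ndN2q2a) (pc := pcN1) (cut := cut_pm_012_a) (xt := Ext.none) (P1 := 0) (W1 := 536870912) (P2 := 0) (W2 := 536870912) (P3 := 201326592) (W3 := 134217728) (N0 := 3)
    rfl (fun _ => rfl) s64_pm_012_a

noncomputable def cut_pm_012_b : Cut := Cut.of [[⟨0, 0, 0, 67108864⟩, ⟨1, 1, 0, 67108864⟩, ⟨2, 1, 0, 67108864⟩], [⟨0, 0, 1, 67108864⟩, ⟨1, 1, 2, 67108864⟩, ⟨2, 1, 0, 16777216⟩]]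

noncomputable def f_pm_012_b : ℕ → ℕ → ℕ → ℕ → Bool := onCell 0 536870912 536870912 536870912 201326592 134217728
    (rowN 3 1 false true false .pnp 0 1 2 (qsf 0 536870912 1239849684 370763052 1) ndN0q0 ndN2q2b pcN1 cut_pm_012_b Ext.none)

def k0_pm_012_b : ∃ t, chk3 f_pm_012_b t 2 1 1 = true :=
  ⟨(b (l 1) (a (l 1) (b (l 1) (b (a (l 1) (b (a (l 1) (a (l 1) (c (l 16535632) (l 16392560)))) (a (c (c (l 39224539527) (l 16464264)) (l 21507716727)) (c (c (l 16861288) (l 16343096)) (l 16384248))))) (a (a (a (l 1) (b (l 1) (b (l 1) (c (c (l 16455696) (l 16452768)) (c (l 16447488) (b (l 1) (l 16436392))))))) (c (b (b (l 1) (c (l 16442088) (l 16442712))) (b (c (l 16440640) (l 16438368)) (c (a (l 16429488) (l 16405192)) (a (l 16425048) (l 16399304))))) (b (b (l 1) (c (l 16441088) (l 16416256))) (b (c (l 16433744) (a (l 16421056) (l 16391056))) (c (a (l 16418176) (l 16390880)) (a (l 16429824) (l 16379880))))))) (c (b (b (a (l 24192038647) (l 16356536)) (a (c (l 16372648) (l 16370376))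 (c (l 16937200) (l 16327160)))) (a (c (b (l 16373080) (l 16372352)) (b (l 16367976) (l 16385400))) (c (a (b (l 16839896) (l 16884536)) (l 17137840)) (b (l 16326832) (l 16325352))))) (a (b (b (l 16409984) (c (l 16365680) (l 16358544))) (b (c (l 16360288) (l 16349992)) (c (a (l 16365704) (l 16342536)) (a (l 16353048) (l 16328216))))) (b (b (l 16318400) (l 16314816)) (b (c (l 16316264) (l 16302760)) (c (l 16311680) (l 16326352))))))))))), by decide +kernel⟩

def k1_pm_012_b : ∃ t, chk3 f_pm_012_b t 3 1 1 = true :=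
  ⟨(b (b (l 1) (a (l 1) (b (a (l 1) (c (l 17474416) (l 168612026087))) (a (c (l 177739301799) (a (l 144452319671) (l 17110632))) (c (l 17567272) (l 17217936)))))) (a (b (b (a (l 1) (c (a (l 154653247303) (l 17404016)) (a (b (l 1) (l 16735928)) (l 53183856999)))) (a (b (a (l 1) (c (l 16923112) (l 16478224))) (a (c (l 91301416215) (l 116533765479)) (c (l 17022664) (l 16423560)))) (c (a (l 17368496) (l 17529768)) (a (b (l 16707464) (l 16700456)) (l 16916616))))) (b (a (b (c (a (c (l 17181752) (l 16719472)) (c (l 17456112) (l 17039416))) (a (l 16378008) (a (l 16306672) (l 16483016)))) (c (a (c (l 17254768) (l 16741136)) (l 17328152)) (a (l 16318912) (l 16397552)))) (c (a (l 17526952) (l 17708320)) (a (b (l 16714768) (l 16749112)) (l 16994160)))) (a (c (a (b (c (l 17353176) (l 16644880)) (c (l 17474264) (a (l 16742888) (l 16984696)))) (c (l 17736496) (b (l 17180088) (l 17279720)))) (b (a (b (l 16276928) (l 16275032)) (l 16275928)) (a (b (c (l 16279800) (l 16263104)) (c (l 16277104)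 (l 16257000))) (b (l 16351456) (c (l 16762128) (l 16220296)))))) (c (a (c (l 17968720) (l 17522000)) (l 17933816)) (a (b (l 16801752) (c (l 17109216) (l 16629600))) (b (l 17090744) (l 17170640))))))) (b (a (c (b (l 17556320) (l 17704880)) (b (a (l 17038096) (l 17154024)) (a (l 17094840) (l 17239296)))) (c (b (l 17686016) (l 17829808)) (b (l 17291816) (l 17394864)))) (a (c (b (l 17890072) (l 18106840)) (b (a (l 17202264) (l 17363224)) (a (l 17353016) (l 17519584)))) (c (l 18085696) (b (l 17523440) (l 17673040))))))), by decide +kernel⟩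

theorem s2_pm_012_b : ∃ t, chk3 f_pm_012_b t 1 1 1 = true := ex3_a k0_pm_012_b k1_pm_012_b

theorem c_pm_012_b : CertN 0 536870912 1239849684 370763052 201326592 134217728 3 false true false .pnp 0 1 2
    ndN0q0 ndN2q2b pcN1 cut_pm_012_b Ext.none :=
  certN1 (fam := false) (s1 := true) (s2 := false) (a := 0) (b := 1) (c := 2) (cn := .pnp) (n1 := ndN0q0) (n2 := ndN2q2b) (pc := pcN1) (cut := cut_pm_012_b) (xt := Ext.none) (P1 := 0) (W1 := 536870912) (P2 := 1239849684) (W2 := 370763052) (P3 := 201326592) (W3 := 134217728) (N0 := 3)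
    rfl (fun _ => rfl) s2_pm_012_b

noncomputable def cut_pm_022_a : Cut := Cut.of [[⟨0, 0, 0, 67108864⟩, ⟨1, 1, 0, 67108864⟩, ⟨2, 1, 0, 67108864⟩]]

noncomputable def f_pm_022_a : ℕ → ℕ → ℕ → ℕ → Bool := onCell 1073741824 536870912 0 536870912 201326592 134217728
    (rowN 3 2 false true false .pp 0 2 2 (qsf 0 536870912 0 536870912 2) ndN0q0 ndN2q2a pcN2 cut_pm_022_a Ext.none)

def k0_pm_022_a : ∃ t, chk3 f_pm_022_a t 4 2 1 = true :=
  ⟨(a (b (c (a (b (c (l 16470408) (l 16435232)) (c (a (l 16455248) (l 16457008)) (a (l 16440872) (l 16443976)))) (b (c (l 16448936) (l 16437624)) (c (l 16455640) (l 16444864)))) (a (b (a (l 16411200) (l 16416208)) (a (l 16440072) (l 16424232))) (b (l 16420496) (l 16470480)))) (a (b (c (c (a (l 16491224) (l 16471712)) (a (l 16456960) (l 16459792))) (a (c (l 16443552) (l 16430016)) (l 16462680))) (c (a (c (b (l 16487056) (l 16501160)) (b (l 16474960) (l 16490088))) (c (l 16515984) (l 16484856))) (a (b (l 16456528) (l 16494152)) (b (l 16461000) (l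 16477656))))) (b (c (c (l 16491376) (l 16481736)) (a (l 16444824) (l 16447312))) (c (c (b (l 16487448) (l 16523280)) (b (l 16479008) (l 16515840))) (a (l 16494120) (l 16497400)))))) (b (c (a (b (l 16459872) (a (l 16447576) (l 16444536))) (b (l 16472744) (l 16500200))) (a (b (l 16422624) (l 16451872)) (c (l 16483632) (l 16480032)))) (a (c (b (a (l 16484776) (l 16498744)) (c (l 16537496) (l 16530904))) (b (b (l 16484384) (l 16494696)) (a (l 16517680) (l 4)))) (l 4)))), by decide +kernel⟩

def k1_pm_022_a : ∃ t, chk3 f_pm_022_a t 4 3 1 = true :=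
  ⟨(b (a (a (b (c (a (c (b (l 16517632) (l 16547640)) (b (l 16507760) (l 16528648))) (c (b (l 16519032) (l 16539320)) (b (l 16510568) (l 16532176)))) (a (b (c (l 16497728) (l 16487528)) (c (l 16519968) (l 16511112))) (b (l 16497600) (l 16542120)))) (c (b (a (c (a (l 16560008) (l 16561584)) (a (l 16552552) (l 16554784))) (c (l 16584760) (l 16557952))) (a (c (b (l 16581216) (l 16601504)) (a (l 16581680) (l 16584320))) (c (a (l 16591672) (l 16614392)) (b (l 16580048) (l 16596168))))) (b (a (c (l 16567336) (l 16538872)) (c (l 16551960) (l 16545816))) (b (a (c (l 16568896) (l 16562464)) (l 16572488)) (a (c (l 16585416) (l 16579728)) (c (l 16591872) (l 16587424))))))) (a (b (c (c (b (l 16520048) (l 16541000)) (b (l 16513008) (l 16535224))) (b (l 16502200) (l 16547256))) (c (b (c (l 16585664) (l 16581264)) (a (c (l 16613792) (l 16610424)) (l 4))) (b (c (l 16576736) (l 16572072)) (b (l 16617816) (l 16623088))))) (b (c (c (b (l 16518736) (l 16557856)) (l 16575080)) (c (l 16570344) (l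 16565496))) (l 4)))) (l 4)) (a (a (b (b (b (c (a (c (a (l 16611272) (l 16613680)) (l 16613144)) (c (l 16637368) (l 16633976))) (a (a (l 16598752) (l 16602608)) (c (l 16630440) (l 16626768)))) (b (b (c (a (c (l 16623232) (l 16619120)) (c (l 16627040) (l 16624120))) (a (l 16623096) (l 16640456))) (l 6)) (l 6))) (l 6)) (l 6)) (l 4)) (l 4))), by decide +kernel⟩

def k2_pm_022_a : ∃ t, chk3 f_pm_022_a t 5 1 1 = true :=
  ⟨(b (l 4) (l 4)), by decide +kernel⟩

def k3_pm_022_a : ∃ t, chk3 f_pm_022_a t 3 1 1 = true :=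
  ⟨(l 1), by decide +kernel⟩

theorem s4_pm_022_a : ∃ t, chk3 f_pm_022_a t 4 1 1 = true := ex3_b k0_pm_022_a k1_pm_022_a

theorem s5_pm_022_a : ∃ t, chk3 f_pm_022_a t 2 1 1 = true := ex3_a s4_pm_022_a k2_pm_022_a

theorem s6_pm_022_a : ∃ t, chk3 f_pm_022_a t 1 1 1 = true := ex3_a s5_pm_022_a k3_pm_022_a

theorem c_pm_022_a : CertN 0 536870912 0 536870912 201326592 134217728 3 false true false .pp 0 2 2
    ndN0q0 ndN2q2a pcN2 cut_pm_022_a Ext.none :=
  certN2 (fam := false) (s1 := true) (s2 := false) (a := 0) (b := 2) (c := 2) (cn := .pp) (n1 := ndN0q0) (n2 := ndN2q2a) (pc := pcN2) (cut := cut_pm_022_a) (xt := Ext.none) (P1 := 0) (W1 := 536870912) (P2 := 0) (W2 := 536870912) (P3 := 201326592) (W3 := 134217728) (N0 := 3)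
    rfl (fun _ => rfl) s6_pm_022_a

noncomputable def cut_pm_022_b : Cut := Cut.of [[⟨0, 0, 0, 67108864⟩, ⟨1, 1, 0, 67108864⟩, ⟨2, 1, 0, 67108864⟩]]

noncomputable def f_pm_022_b : ℕ → ℕ → ℕ → ℕ → Bool := onCell 1073741824 536870912 1239849684 370763052 201326592 134217728
    (rowN 3 2 false true false .pp 0 2 2 (qsf 0 536870912 1239849684 370763052 2) ndN0q0 ndN2q2b pcN2 cut_pm_022_b Ext.none)

def k0_pm_022_b : ∃ t, chk3 f_pm_022_b t 2 2 1 = true :=
  ⟨(a (b (a (b (c (a (a (c (b (l 16429864) (l 16397456)) (b (l 16413568) (l 16378384))) (c (l 16455144) (l 16417952))) (c (b (l 16450664) (l 16395536)) (b (l 16416968) (l 16380152)))) (a (a (c (l 16440424) (l 16401656)) (b (l 16393424) (l 16353008))) (a (b (l 16396960) (l 16356008)) (l 16440656)))) (c (c (a (b (l 16400624) (l 16698432)) (b (l 16432008) (l 16886112))) (a (b (l 16346624) (l 16318160)) (l 16349960))) (a (b (a (l 16313808) (l 16315928)) (l 16344864)) (b (l 16318368) (l 16282944))))) (b (c (a (b (c (l 16423112) (l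 16413672)) (c (l 16388896) (l 16376832))) (b (a (l 16433488) (l 16423896)) (l 16422944))) (a (a (l 16441504) (l 16419976)) (a (l 16439696) (l 16434672)))) (a (c (b (l 16370184) (l 16474432)) (b (l 16319624) (l 16282448))) (c (b (l 16358248) (l 16448712)) (l 16379520))))) (a (c (c (b (a (b (l 17318120) (l 17610920)) (l 17402696)) (l 17908016)) (b (a (b (l 16635616) (l 16993056)) (l 16595016)) (a (l 17404968) (l 17341544)))) (a (b (b (l 16253392) (l 16229592)) (b (l 16423704) (l 16732056))) (b (l 16299352) (l 16316664)))) (b (c (a (c (l 17341496) (l 16713488)) (b (l 16822504) (l 17131536))) (a (l 16231888) (l 16245896))) (c (a (l 17550504) (l 17498184)) (a (l 16478744) (l 16442552)))))) (a (a (b (b (l 4) (c (l 104923894407) (l 16359912))) (b (c (b (l 16797536) (l 17094736)) (l 16273840)) (c (l 17453344) (l 16418296)))) (b (l 4) (c (b (l 4) (l 17416104)) (l 101702546615)))) (l 4))), by decide +kernel⟩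

def k1_pm_022_b : ∃ t, chk3 f_pm_022_b t 2 3 1 = true :=
  ⟨(a (b (a (c (b (c (l 18208112) (l 17755640)) (l 18197720)) (b (a (b (l 16986696) (l 17196856)) (l 17037096)) (a (l 17446192) (l 17388832)))) (c (b (l 17873848) (l 18104712)) (b (a (l 16985576) (l 16941960)) (l 17317712)))) (a (c (b (l 18319464) (l 18367736)) (b (l 17655136) (l 17803496))) (c (l 18352640) (b (l 17563312) (l 17726464))))) (a (b (c (b (l 17780624) (l 18020040)) (b (a (l 16906496) (l 16879664)) (l 17242112))) (c (l 18229136) (l 17586928))) (b (a (c (l 17851416) (l 152706250407)) (l 4)) (c (l 18164656) (l 17573160))))), by decide +kernel⟩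

def k2_pm_022_b : ∃ t, chk3 f_pm_022_b t 3 1 1 = true :=
  ⟨(b (l 4) (a (b (l 4) (a (c (l 18097096) (l 17488736)) (l 4))) (l 4))), by decide +kernel⟩

theorem s3_pm_022_b : ∃ t, chk3 f_pm_022_b t 2 1 1 = true := ex3_b k0_pm_022_b k1_pm_022_b

theorem s4_pm_022_b : ∃ t, chk3 f_pm_022_b t 1 1 1 = true := ex3_a s3_pm_022_b k2_pm_022_b

theorem c_pm_022_b : CertN 0 536870912 1239849684 370763052 201326592 134217728 3 false true false .pp 0 2 2
    ndN0q0 ndN2q2b pcN2 cut_pm_022_b Ext.none :=
  certN2 (fam := false) (s1 := true) (s2 := false) (a := 0) (b := 2) (c := 2) (cn := .pp) (n1 := ndN0q0) (n2 := ndN2q2b) (pc := pcN2) (cut := cut_pm_022_b) (xt := Ext.none) (P1 := 0) (W1 := 536870912) (P2 := 1239849684) (W2 := 370763052) (P3 := 201326592) (W3 := 134217728) (N0 := 3)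
    rfl (fun _ => rfl) s4_pm_022_b

noncomputable def f_pm_023 : ℕ → ℕ → ℕ → ℕ → Bool := onCell 0 536870912 1073741824 536870912 201326592 134217728
    (rowN 3 1 false true false .up 0 2 3 (qsf 0 536870912 1610612736 536870912 2) ndN0q0 ndN2q3 pcN2 Cut.none Ext.none)

def k0_pm_023 : ∃ t, chk3 f_pm_023 t 1 1 1 = true :=
  ⟨(a (b (b (l 1) (a (l 1) (b (l 1) (l 289945596343)))) (b (a (l 4) (b (l 318399922455) (l 4))) (l 4))) (b (a (b (c (l 274377265031) (b (l 1) (l 272228512151))) (c (l 306053463671) (l 310347316151))) (b (c (l 275988839063) (a (l 289945813303) (l 17867560))) (a (c (l 18275616) (l 17837888)) (l 18003880)))) (b (a (b (l 18024048) (l 17989632)) (a (l 17947632) (l 17839336))) (a (b (l 17921496) (l 17827272)) (l 17779320))))), by decide +kernel⟩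

theorem c_pm_023 : CertN 0 536870912 1610612736 536870912 201326592 134217728 3 false true false .up 0 2 3
    ndN0q0 ndN2q3 pcN2 Cut.none Ext.none :=
  certN1 (fam := false) (s1 := true) (s2 := false) (a := 0) (b := 2) (c := 3) (cn := .up) (n1 := ndN0q0) (n2 := ndN2q3) (pc := pcN2) (cut := Cut.none) (xt := Ext.none) (P1 := 0) (W1 := 536870912) (P2 := 1610612736) (W2 := 536870912) (P3 := 201326592) (W3 := 134217728) (N0 := 3)
    rfl (fun _ => rfl) k0_pm_023

noncomputable def f_pm_033 : ℕ → ℕ → ℕ → ℕ → Bool := onCell 1610612736 536870912 1610612736 536870912 201326592 134217728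
    (rowN 3 2 false true false .pnn 0 3 3 (qsf 0 536870912 1610612736 536870912 3) ndN0q0 ndN2q3 pcN3 Cut.none Ext.none)

def k0_pm_033 : ∃ t, chk3 f_pm_033 t 1 1 1 = true :=
  ⟨(a (b (l 4) (a (b (a (b (l 4) (l 17694544)) (l 4)) (a (b (l 17648776) (l 17318872)) (b (l 17678576) (l 17657728)))) (a (b (l 4) (a (l 17553264) (l 17509504))) (l 4)))) (l 4)), by decide +kernel⟩

theorem c_pm_033 : CertN 0 536870912 1610612736 536870912 201326592 134217728 3 false true false .pnn 0 3 3
    ndN0q0 ndN2q3 pcN3 Cut.none Ext.none :=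
  certN2 (fam := false) (s1 := true) (s2 := false) (a := 0) (b := 3) (c := 3) (cn := .pnn) (n1 := ndN0q0) (n2 := ndN2q3) (pc := pcN3) (cut := Cut.none) (xt := Ext.none) (P1 := 0) (W1 := 536870912) (P2 := 1610612736) (W2 := 536870912) (P3 := 201326592) (W3 := 134217728) (N0 := 3)
    rfl (fun _ => rfl) k0_pm_033

noncomputable def f_pm_101 : ℕ → ℕ → ℕ → ℕ → Bool := onCell 536870912 536870912 536870912 536870912 201326592 134217728
    (rowN 3 0 false true false .npn 1 0 1 (qsf 536870912 536870912 536870912 536870912 0) ndN0q1 ndN2q1 pcN0 Cut.none Ext.none)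

def k0_pm_101 : ∃ t, chk3 f_pm_101 t 1 1 1 = true :=
  ⟨(l 4), by decide +kernel⟩

theorem c_pm_101 : CertN 536870912 536870912 536870912 536870912 201326592 134217728 3 false true false .npn 1 0 1
    ndN0q1 ndN2q1 pcN0 Cut.none Ext.none :=
  certN0 (fam := false) (s1 := true) (s2 := false) (a := 1) (b := 0) (c := 1) (cn := .npn) (n1 := ndN0q1) (n2 := ndN2q1) (pc := pcN0) (cut := Cut.none) (xt := Ext.none) (P1 := 536870912) (W1 := 536870912) (P2 := 536870912) (W2 := 536870912) (P3 := 201326592) (W3 := 134217728) (N0 := 3)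
    rfl k0_pm_101

noncomputable def cut_pm_102_a : Cut := Cut.of [[⟨0, 1, 0, 67108864⟩, ⟨1, 0, 0, 67108864⟩, ⟨2, 1, 0, 67108864⟩]]

noncomputable def f_pm_102_a : ℕ → ℕ → ℕ → ℕ → Bool := onCell 536870912 536870912 0 536870912 201326592 134217728
    (rowN 3 0 false true false .npp 1 0 2 (qsf 536870912 536870912 0 536870912 0) ndN0q1 ndN2q2a pcN0 cut_pm_102_a Ext.none)

def k0_pm_102_a : ∃ t, chk3 f_pm_102_a t 2 1 1 = true :=
  ⟨(a (b (a (l 2) (c (l 17289760) (l 17191400))) (b (a (l 2) (c (l 17363648) (l 17376808))) (a (c (b (l 17536592) (a (l 17591896) (l 17530264))) (b (l 17410144) (a (c (l 17467048) (l 17394184)) (l 17382896)))) (b (c (l 17416600) (l 17315504)) (c (l 17439344) (a (l 17336760) (l 17291128))))))) (b (a (l 17112808) (l 16985080)) (b (a (a (l 17216696) (l 17155904)) (l 17061736)) (b (a (c (l 17295808) (l 17449296)) (c (l 17165912) (l 17095176))) (a (c (l 17321832) (a (l 17245976) (l 17200240))) (c (a (l 17232456) (l 17172992)) (a (l 17153496) (l 17107776)))))))),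 by decide +kernel⟩

def k1_pm_102_a : ∃ t, chk3 f_pm_102_a t 6 2 1 = true :=
  ⟨(a (l 16949512) (c (l 17028568) (l 17038504))), by decide +kernel⟩

def k2_pm_102_a : ∃ t, chk3 f_pm_102_a t 14 2 1 = true :=
  ⟨(a (b (l 16801472) (l 16812184)) (b (l 16789176) (a (l 16790936) (l 16793800)))), by decide +kernel⟩

def k3_pm_102_a : ∃ t, chk3 f_pm_102_a t 30 2 1 = true :=
  ⟨(c (b (a (l 16742784) (a (l 16728560) (b (a (l 16718464) (b (c (l 127942941495) (l 126332304471)) (l 16714896))) (l 16721760)))) (a (l 16756272) (b (l 16733504) (l 16742136)))) (b (a (l 16733864) (a (l 16738496) (b (b (c (l 123647939143) (l 16698584)) (l 16704720)) (l 16709736)))) (a (l 16749688) (b (l 16723296) (l 16733520))))), by decide +kernel⟩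

def k4_pm_102_a : ∃ t, chk3 f_pm_102_a t 31 2 1 = true :=
  ⟨(b (a (a (b (a (c (c (b (l 141901562695) (a (l 129016680039) (l 139754080231))) (b (l 140827807463) (l 136532843543))) (c (b (l 140290922919) (l 135459088247)) (b (l 139754038151) (l 134385332679)))) (l 3)) (a (c (b (c (a (l 16717232) (l 129553551719)) (l 127406047431)) (l 16716016)) (b (c (l 16703072) (l 16696336)) (l 16703344))) (c (c (c (b (l 141364696007) (l 137069732903)) (b (l 141364689351) (l 137069726487))) (b (l 140827818839) (a (l 128479789879) (l 138680327287)))) (c (b (l 140290923799) (l 135459090807)) (b (l 139754039015) (l 134385335495)))))) (b (l 3) (l 3))) (l 3)) (a (b (a (a (c (l 16721464) (l 16709760)) (c (b (a (l 16715880) (c (b (l 130090414375) (l 16717456)) (l 129553534055))) (l 16718640)) (b (c (l 126869168071) (l 16698792)) (l 16706720)))) (a (c (c (c (b (a (l 139217216487) (l 3)) (a (l 131164160935) (l 139217219335))) (b (l 140827832391) (a (l 16716536) (l 138680342311)))) (c (b (l 140827815463)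 (a (l 16713520) (l 138680336135))) (b (l 140827808967) (a (l 16710472) (l 138680329911))))) (c (b (a (l 138143445719) (l 3)) (a (l 16705840) (l 138143470535))) (b (l 140290914855) (a (l 16699552) (l 137069694951))))) (l 3))) (a (c (b (l 16725528) (l 16730616)) (b (l 16714672) (l 16720648))) (a (b (a (c (l 16719568) (l 16708048)) (c (c (c (l 132237906503) (l 131701029895)) (b (l 16713024) (l 16715568))) (c (l 130090400983) (l 16702392)))) (c (l 16728800) (l 16712800))) (b (a (c (c (c (a (l 135995998391) (l 140827835207)) (l 138680351783)) (b (l 140827819079) (l 136532855991))) (c (b (l 140827806855) (l 135995973271)) (l 137606571623))) (l 3)) (c (c (c (b (l 137606615319) (l 135459136375)) (b (l 137606609735) (l 134922260119))) (a (b (l 132237897383) (l 16718760)) (b (l 140827824807) (l 136532862455)))) (c (b (l 136532847959) (l 133311628231)) (a (l 16708672) (l 137606589495)))))))) (b (l 3) (a (l 3) (l 3))))), by decide +kernel⟩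

def k5_pm_102_a : ∃ t, chk3 f_pm_102_a t 6 3 1 = true :=
  ⟨(b (a (l 17006936) (l 17047584)) (a (b (c (l 17040880) (l 16995128)) (c (l 17275928) (b (l 17033384) (l 17044848)))) (b (l 16995616) (a (c (l 17010760) (l 16974768)) (a (l 17166696) (l 17143408)))))), by decide +kernel⟩

def k6_pm_102_a : ∃ t, chk3 f_pm_102_a t 14 6 1 = true :=
  ⟨(a (l 16930376) (a (l 16848592) (l 16919416))), by decide +kernel⟩

def k7_pm_102_a : ∃ t, chk3 f_pm_102_a t 30 6 1 = true :=
  ⟨(a (b (l 16769464) (l 16783456)) (b (c (l 16753320) (l 16746592)) (c (l 16787608) (l 16783392)))), by decide +kernel⟩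

def k8_pm_102_a : ∃ t, chk3 f_pm_102_a t 62 6 1 = true :=
  ⟨(b (a (c (l 16739576) (l 16731096)) (a (c (b (l 16729472) (l 16736096)) (b (l 16719672) (l 16727336))) (b (a (c (l 16726000) (l 16715832)) (c (c (b (a (l 16725264) (l 134385398119)) (l 16727776)) (b (l 132774775223) (l 16722800))) (b (c (l 16714144) (l 16708712)) (l 16715136)))) (c (c (l 16733528) (l 16729048)) (l 16722080))))) (b (a (l 16746376) (c (l 16739792) (l 16732224))) (a (l 16753976) (c (l 16746648) (l 16740680))))), by decide +kernel⟩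

def k9_pm_102_a : ∃ t, chk3 f_pm_102_a t 63 6 1 = true :=
  ⟨(b (a (a (b (a (c (c (b (b (l 143512196183) (l 141364714903)) (b (l 138143492071) (l 135996011335))) (b (l 140827832135) (l 137069741543))) (c (b (l 140827821255) (l 135995989335)) (b (l 140827810183) (l 135459107847)))) (l 3)) (c (c (c (a (b (l 16729832) (l 16732456)) (b (l 138680369143) (l 138143502455))) (b (a (l 16727432) (l 140290976951)) (l 137069763687))) (a (b (l 132774784679) (l 16726808)) (b (l 146196549527) (l 135996007207)))) (c (a (b (l 16718864) (l 16722200)) (b (l 145659668551) (l 134922255991))) (b (a (l 16713848) (l 145122787447)) (l 131164152743))))) (l 3)) (l 3)) (a (b (a (c (a (l 16743928) (b (c (c (l 137069765623) (l 16730408)) (l 132237919799)) (c (l 16734392) (l 16730552)))) (b (c (l 129553558359) (l 16719920)) (l 16726032))) (a (c (c (c (b (l 138680374455) (l 137069766471)) (b (l 138143499207) (l 136532891639))) (b (l 140290976311) (l 135996014807))) (c (b (l 142975322071) (l 134922264999))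 (b (l 143512184071) (l 133848515095)))) (l 3))) (a (c (b (l 16737248) (l 16741136)) (b (l 16730336) (l 16735040))) (c (a (b (c (b (l 135996029447) (l 16736088)) (l 132237928247)) (c (l 16738912) (l 16735800))) (b (c (c (l 137606639895) (l 137606636279)) (l 137606630823)) (c (c (a (l 132774808967) (l 137069774215)) (l 135996030231)) (a (l 131164190999) (l 136532895239))))) (c (a (b (l 16728112) (l 16732640)) (b (l 141901590791) (l 134385406199))) (a (b (l 16724480) (l 16729424)) (b (l 142438454295) (l 134385399639))))))) (l 3))), by decide +kernel⟩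

def k10_pm_102_a : ∃ t, chk3 f_pm_102_a t 7 7 1 = true :=
  ⟨(b (a (b (l 17022856) (l 17038408)) (a (a (l 16858240) (a (l 16828576) (l 16840736))) (a (a (c (l 16790288) (l 16808696)) (b (c (l 16755096) (l 16750760)) (c (l 16786024) (l 16783448)))) (a (a (b (c (l 16747776) (l 16742912)) (c (l 16778920) (l 16775808))) (b (a (c (b (l 16741728) (l 16746512)) (b (l 16736216) (l 16741816))) (c (b (c (a (l 16741224) (b (l 132237942055) (l 16741120))) (a (l 16738464) (l 127406101079))) (c (l 16745232) (l 16742856))) (b (c (l 122037387575) (l 16732152)) (l 16739208)))) (b (c (a (l 16751592) (l 16749168)) (l 16746512)) (l 6)))) (b (a (a (c (b (a (c (b (l 138143518375) (l 136532909495)) (l 136532912391)) (l 3)) (a (b (c (l 131164206743) (l 126332363271)) (c (l 16744608) (l 16742272))) (b (c (l 138143530343) (l 138143519863)) (c (a (l 135459176967) (l 138680399703)) (l 135459169911))))) (c (b (l 137069777015) (a (l 127406103863) (l 135996033559))) (b (l 137069760647) (a (l 16736016) (l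 135459157575))))) (l 3)) (l 3)) (a (b (b (a (a (c (l 16746000) (l 16741728)) (l 6)) (l 6)) (l 6)) (l 6)) (l 3))))))) (b (a (c (l 17035856) (l 17000880)) (a (b (l 16879424) (l 16885352)) (a (a (l 16826632) (l 6)) (l 6)))) (a (a (l 17081840) (c (l 16920200) (l 16926584))) (a (a (c (l 16863312) (l 16875216)) (a (l 16905344) (l 6))) (l 6))))), by decide +kernel⟩

theorem s11_pm_102_a : ∃ t, chk3 f_pm_102_a t 31 6 1 = true := ex3_a k8_pm_102_a k9_pm_102_a

theorem s12_pm_102_a : ∃ t, chk3 f_pm_102_a t 15 6 1 = true := ex3_a k7_pm_102_a s11_pm_102_a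

theorem s13_pm_102_a : ∃ t, chk3 f_pm_102_a t 7 6 1 = true := ex3_a k6_pm_102_a s12_pm_102_a

theorem s14_pm_102_a : ∃ t, chk3 f_pm_102_a t 7 3 1 = true := ex3_b s13_pm_102_a k10_pm_102_a

theorem s15_pm_102_a : ∃ t, chk3 f_pm_102_a t 3 3 1 = true := ex3_a k5_pm_102_a s14_pm_102_a

theorem s16_pm_102_a : ∃ t, chk3 f_pm_102_a t 15 2 1 = true := ex3_a k3_pm_102_a k4_pm_102_a

theorem s17_pm_102_a : ∃ t, chk3 f_pm_102_a t 7 2 1 = true := ex3_a k2_pm_102_a s16_pm_102_a

theorem s18_pm_102_a : ∃ t, chk3 f_pm_102_a t 3 2 1 = true := ex3_a k1_pm_102_a s17_pm_102_a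

theorem s19_pm_102_a : ∃ t, chk3 f_pm_102_a t 3 1 1 = true := ex3_b s18_pm_102_a s15_pm_102_a

theorem s20_pm_102_a : ∃ t, chk3 f_pm_102_a t 1 1 1 = true := ex3_a k0_pm_102_a s19_pm_102_a

theorem c_pm_102_a : CertN 536870912 536870912 0 536870912 201326592 134217728 3 false true false .npp 1 0 2
    ndN0q1 ndN2q2a pcN0 cut_pm_102_a Ext.none :=
  certN0 (fam := false) (s1 := true) (s2 := false) (a := 1) (b := 0) (c := 2) (cn := .npp) (n1 := ndN0q1) (n2 := ndN2q2a) (pc := pcN0) (cut := cut_pm_102_a) (xt := Ext.none) (P1 := 536870912) (W1 := 536870912) (P2 := 0) (W2 := 536870912) (P3 := 201326592) (W3 := 134217728) (N0 := 3)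
    rfl s20_pm_102_a

noncomputable def cut_pm_102_b : Cut := Cut.of [[⟨0, 1, 0, 67108864⟩, ⟨1, 0, 0, 67108864⟩, ⟨2, 1, 0, 67108864⟩]]

noncomputable def f_pm_102_b : ℕ → ℕ → ℕ → ℕ → Bool := onCell 536870912 536870912 1239849684 370763052 201326592 134217728
    (rowN 3 0 false true false .npp 1 0 2 (qsf 536870912 536870912 1239849684 370763052 0) ndN0q1 ndN2q2b pcN0 cut_pm_102_b Ext.none)

def k0_pm_102_b : ∃ t, chk3 f_pm_102_b t 2 1 1 = true :=
  ⟨(b (a (l 2) (a (b (l 17036968) (l 2)) (b (l 16904880) (l 16813136)))) (l 2)), by decide +kernel⟩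

def k1_pm_102_b : ∃ t, chk3 f_pm_102_b t 6 2 1 = true :=
  ⟨(b (a (b (l 16816768) (l 16810392)) (b (l 16928888) (l 16898584))) (a (l 17019912) (a (l 16949976) (l 16989304)))), by decide +kernel⟩

def k2_pm_102_b : ∃ t, chk3 f_pm_102_b t 7 4 1 = true :=
  ⟨(a (a (b (l 16800448) (l 16886896)) (b (a (l 16769336) (l 16749752)) (a (l 16864512) (l 16834024)))) (a (a (b (c (l 16752120) (l 16722376)) (c (l 16927480) (l 16719632))) (a (b (c (l 16719992) (l 16705296)) (c (l 16732128) (l 16701024))) (b (a (c (b (l 16713984) (l 16714192)) (b (l 16699872) (l 16694680))) (a (c (b (c (l 16713824) (l 16706688)) (c (l 16797328) (l 16703824))) (b (l 16695688) (l 16690280))) (c (b (c (b (l 137069737687) (l 135995989927)) (b (l 136532850487) (l 16703232))) (c (b (l 16733376) (l 16797408)) (l 16706352))) (b (c (b (l 16698352) (l 16695368)) (l 117742349047)) (c (l 16691960) (l 16682672)))))) (a (c (b (l 16830184) (l 16929768)) (l 16691616)) (c (c (b (a (l 16911576) (l 16821048)) (l 17006504)) (b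 (l 16696136) (l 16830032))) (b (c (l 16691408) (l 16680408)) (c (l 16692448) (l 16679624)))))))) (a (b (a (a (a (a (b (l 3) (c (c (b (l 238001522775) (l 146196665159)) (l 155860196647)) (c (l 142438408455) (l 141901521591)))) (l 3)) (l 3)) (l 3)) (l 3)) (a (a (a (c (b (c (c (l 149955096775) (l 147807394775)) (l 142975279175)) (c (l 147270580871) (b (l 141901530839) (l 142438468583)))) (b (c (l 141901512967) (l 140827748775)) (c (l 141364639271) (l 141364633911)))) (l 3)) (l 3)) (l 3))) (l 3)))), by decide +kernel⟩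

def k3_pm_102_b : ∃ t, chk3 f_pm_102_b t 7 5 1 = true :=
  ⟨(a (a (b (l 16973032) (l 17049984)) (b (a (l 16970952) (l 16960632)) (c (l 17152224) (l 16974112)))) (a (a (b (c (l 17065512) (l 16813616)) (c (l 17169096) (l 16946712))) (b (c (a (l 17058280) (b (c (l 17091064) (l 16931512)) (l 17001456))) (a (l 16772776) (b (a (l 16699144) (l 16689608)) (l 16702936)))) (c (b (l 17148240) (l 17198400)) (a (l 16926032) (b (l 16745416) (l 16943696)))))) (a (a (a (c (b (c (b (l 155323845431) (l 17157400)) (b (a (l 144049204839) (l 501068602903)) (l 155860558343))) (c (l 17243352) (l 160692635655))) (c (b (b (l 147270228631) (a (l 16845672) (l 154249721271))) (b (l 149954843879) (l 16998968))) (b (b (l 144048973591) (l 145122727511)) (b (l 145122728375) (l 148344109095))))) (b (l 3) (b (l 3) (c (l 653540204247) (c (l 591799947399) (l 413558522727)))))) (l 3)) (l 3)))), by decide +kernel⟩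

def k4_pm_102_b : ∃ t, chk3 f_pm_102_b t 3 3 1 = true :=
  ⟨(a (a (l 2) (b (l 17069408) (l 2))) (a (b (a (l 17283224) (b (l 17139936) (l 17194816))) (a (l 2) (b (l 17228512) (l 2)))) (b (a (a (b (c (l 17245656) (l 17054088)) (l 17215272)) (b (c (l 17259320) (b (l 16906936) (l 17066480))) (c (l 17315048) (l 17133984)))) (a (a (b (c (c (l 17326400) (l 163914184199)) (c (b (l 162303199015) (l 17112264)) (b (a (l 16934000) (l 160692471767)) (l 164450566151)))) (c (l 17327904) (b (l 167671936087) (l 17150784)))) (l 3)) (l 3))) (a (c (b (l 17332240) (l 17338112)) (b (a (l 17187056) (l 17195424)) (l 17222480))) (a (c (b (l 167672722503) (l 17367456)) (b (a (l 17199440) (l 924660327991)) (l 171967469047))) (l 3)))))), by decide +kernel⟩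

theorem s5_pm_102_b : ∃ t, chk3 f_pm_102_b t 7 2 1 = true := ex3_b k2_pm_102_b k3_pm_102_b

theorem s6_pm_102_b : ∃ t, chk3 f_pm_102_b t 3 2 1 = true := ex3_a k1_pm_102_b s5_pm_102_b

theorem s7_pm_102_b : ∃ t, chk3 f_pm_102_b t 3 1 1 = true := ex3_b s6_pm_102_b k4_pm_102_b

theorem s8_pm_102_b : ∃ t, chk3 f_pm_102_b t 1 1 1 = true := ex3_a k0_pm_102_b s7_pm_102_b

theorem c_pm_102_b : CertN 536870912 536870912 1239849684 370763052 201326592 134217728 3 false true false .npp 1 0 2
    ndN0q1 ndN2q2b pcN0 cut_pm_102_b Ext.none :=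
  certN0 (fam := false) (s1 := true) (s2 := false) (a := 1) (b := 0) (c := 2) (cn := .npp) (n1 := ndN0q1) (n2 := ndN2q2b) (pc := pcN0) (cut := cut_pm_102_b) (xt := Ext.none) (P1 := 536870912) (W1 := 536870912) (P2 := 1239849684) (W2 := 370763052) (P3 := 201326592) (W3 := 134217728) (N0 := 3)
    rfl s8_pm_102_b

noncomputable def f_pm_112_a : ℕ → ℕ → ℕ → ℕ → Bool := onCell 536870912 536870912 0 536870912 201326592 134217728
    (rowN 3 0 false true false .dn 1 1 2 (qsf 536870912 536870912 0 536870912 1) ndN0q1 ndN2q2a pcN1 Cut.none Ext.none)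

def k0_pm_112_a : ∃ t, chk3 f_pm_112_a t 1 1 1 = true :=
  ⟨(a (b (a (a (c (l 17516992) (l 17307952)) (c (l 17512352) (l 17272024))) (a (c (l 17517096) (l 17296016)) (l 1))) (a (b (a (c (b (l 17512744) (l 17504024)) (b (l 17244136) (a (l 17228416) (l 17251144)))) (c (l 17525808) (b (l 17279520) (l 17281144)))) (a (a (c (b (l 17490080) (c (l 17544776) (l 17411544))) (b (l 17224152) (b (l 17220512) (c (l 17280048) (b (l 17156704) (l 3255555415)))))) (c (b (l 17506360) (l 227131483751)) (b (l 17249264) (b (l 17247656) (l 1))))) (b (c (l 204583338519) (c (l 17428128) (l 181497230711))) (l 1)))) (b (l 1) (l 1)))) (l 1)), by decide +kernel⟩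

theorem c_pm_112_a : CertN 536870912 536870912 0 536870912 201326592 134217728 3 false true false .dn 1 1 2
    ndN0q1 ndN2q2a pcN1 Cut.none Ext.none :=
  certN0 (fam := false) (s1 := true) (s2 := false) (a := 1) (b := 1) (c := 2) (cn := .dn) (n1 := ndN0q1) (n2 := ndN2q2a) (pc := pcN1) (cut := Cut.none) (xt := Ext.none) (P1 := 536870912) (W1 := 536870912) (P2 := 0) (W2 := 536870912) (P3 := 201326592) (W3 := 134217728) (N0 := 3)
    rfl k0_pm_112_a

noncomputable def f_pm_112_b : ℕ → ℕ → ℕ → ℕ → Bool := onCell 536870912 536870912 536870912 536870912 201326592 134217728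
    (rowN 3 1 false true false .dn 1 1 2 (qsf 536870912 536870912 1239849684 370763052 1) ndN0q1 ndN2q2b pcN1 Cut.none Ext.none)

def k0_pm_112_b : ∃ t, chk3 f_pm_112_b t 1 1 1 = true :=
  ⟨(a (b (b (a (b (a (l 1) (l 168075356247)) (a (l 173444068503) (l 17396344))) (a (b (l 17391688) (l 17408408)) (b (l 17393992) (l 17389592)))) (a (a (b (l 132104985079) (l 17476656)) (c (l 17593768) (l 17342408))) (a (l 17449248) (l 17389960)))) (b (a (a (c (l 17786944) (l 17450168)) (l 17607920)) (a (l 17529608) (l 17483400))) (a (a (c (l 18051712) (l 17675208)) (l 17786464)) (a (l 17632584) (l 2))))) (b (b (b (a (a (l 17369520) (l 17324472)) (a (l 17485008) (a (b (l 17291168) (l 17286608)) (a (c (l 17356560) (l 167135832199)) (l 3))))) (a (a (l 17350304) (l 17304032)) (a (l 17265160) (l 594417641191)))) (a (b (l 17501312) (l 17333672)) (a (l 344773131271) (l 2)))) (b (a (a (l 17295216) (l 2)) (l 2)) (l 2)))), by decide +kernel⟩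

theorem c_pm_112_b : CertN 536870912 536870912 1239849684 370763052 201326592 134217728 3 false true false .dn 1 1 2
    ndN0q1 ndN2q2b pcN1 Cut.none Ext.none :=
  certN1 (fam := false) (s1 := true) (s2 := false) (a := 1) (b := 1) (c := 2) (cn := .dn) (n1 := ndN0q1) (n2 := ndN2q2b) (pc := pcN1) (cut := Cut.none) (xt := Ext.none) (P1 := 536870912) (W1 := 536870912) (P2 := 1239849684) (W2 := 370763052) (P3 := 201326592) (W3 := 134217728) (N0 := 3)
    rfl (fun _ => rfl) k0_pm_112_b

noncomputable def cut_pm_113 : Cut := Cut.of [[⟨0, 1, 0, 57167902⟩, ⟨1, 1, 0, 57167902⟩, ⟨2, 2, 0, 11758673⟩]]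

noncomputable def f_pm_113 : ℕ → ℕ → ℕ → ℕ → Bool := onCell 536870912 536870912 536870912 536870912 201326592 134217728
    (rowN 3 1 false true false .nn 1 1 3 (qsf 536870912 536870912 1610612736 536870912 1) ndN0q1 ndN2q3 pcN1 cut_pm_113 Ext.none)

def k0_pm_113 : ∃ t, chk3 f_pm_113 t 1 1 1 = true :=
  ⟨(a (b (b (l 1) (a (l 1) (a (l 1) (l 17333400)))) (b (a (a (l 1) (l 17555040)) (a (l 17495192) (l 17386944))) (a (a (c (l 18028432) (l 17675880)) (l 17777992)) (a (l 17639464) (l 17446648))))) (b (b (a (a (l 1) (l 132105376087)) (a (b (c (l 17312128) (l 17267856)) (l 17414944)) (b (a (c (l 17339376) (b (l 17232088) (l 17245632))) (a (c (l 160156715975) (b (l 154250643479) (l 17250496))) (l 3))) (a (c (l 17290224) (l 17241944)) (c (l 174651863831) (a (l 17243720) (l 3))))))) (a (b (l 17520448) (l 17365080)) (a (b (l 17222624) (l 17189984)) (b (c (l 168746615495) (a (l 17201968) (l 183778342919))) (c (l 17264328) (l 165525207959)))))) (b (a (a (l 17303200) (l 17237592)) (a (b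 (l 17171880) (l 17145240)) (b (a (l 17111056) (l 205253501863)) (a (l 17078136) (c (l 17154536) (l 185388631783)))))) (a (a (l 17297728) (l 17187488)) (a (b (l 17102632) (l 17038672)) (a (b (l 17128752) (l 16941896)) (b (a (l 17131016) (b (l 233170114023) (b (l 16947312) (l 250349871927)))) (b (a (l 16919512) (b (a (l 16909184) (l 262697841655)) (c (l 16863576) (l 262697776455)))) (a (l 16864840) (a (b (l 16854208) (l 16822536)) (a (b (l 16820488) (c (l 16812416) (l 16805696))) (b (c (l 279877593399) (b (l 16834488) (l 16820232))) (a (c (l 16783808) (l 16778624)) (b (c (l 16798584) (l 285246256807)) (l 6))))))))))))))), by decide +kernel⟩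

theorem c_pm_113 : CertN 536870912 536870912 1610612736 536870912 201326592 134217728 3 false true false .nn 1 1 3
    ndN0q1 ndN2q3 pcN1 cut_pm_113 Ext.none :=
  certN1 (fam := false) (s1 := true) (s2 := false) (a := 1) (b := 1) (c := 3) (cn := .nn) (n1 := ndN0q1) (n2 := ndN2q3) (pc := pcN1) (cut := cut_pm_113) (xt := Ext.none) (P1 := 536870912) (W1 := 536870912) (P2 := 1610612736) (W2 := 536870912) (P3 := 201326592) (W3 := 134217728) (N0 := 3)
    rfl (fun _ => rfl) k0_pm_113

noncomputable def cut_pm_123 : Cut := Cut.of [[⟨0, 1, 0, 57167902⟩, ⟨1, 1, 0, 57167902⟩, ⟨2, 2, 0, 11758673⟩]]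

noncomputable def f_pm_123 : ℕ → ℕ → ℕ → ℕ → Bool := onCell 1073741824 536870912 1610612736 536870912 201326592 134217728
    (rowN 3 2 false true false .npn 1 2 3 (qsf 536870912 536870912 1610612736 536870912 2) ndN0q1 ndN2q3 pcN2 cut_pm_123 Ext.none)

def k0_pm_123 : ∃ t, chk3 f_pm_123 t 1 1 1 = true :=
  ⟨(a (b (a (b (a (b (c (l 18347920) (l 17894840)) (l 18075456)) (b (l 259345326679) (l 18067472))) (a (b (l 17966792) (l 17814440)) (a (l 18102744) (b (l 17990000) (l 17865960))))) (b (a (b (l 1) (l 18061280)) (l 1)) (a (b (l 17999456) (l 17889928)) (b (l 18012048) (l 17918672))))) (a (b (a (b (l 17606216) (l 17371688)) (a (b (l 17662216) (l 17439152)) (a (l 17583152) (b (l 17709248) (l 17494824))))) (a (b (b (l 17186384) (l 17058664)) (b (a (l 16927152) (l 16960576)) (a (b (l 16855712) (a (b (l 16815632) (l 6)) (l 16810920))) (l 16852768)))) (a (b (l 17196576) (b (l 17006320) (l 16887000))) (a (b (l 17234704) (l 16981384)) (b (l 17257560) (l 17005088)))))) (a (b (a (b (l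 17729920) (a (l 17516664) (l 17537816))) (b (l 17755256) (l 17564896))) (a (a (b (l 17281608) (l 17030816)) (b (l 17409784) (a (l 17048432) (l 17060224)))) (b (l 17334424) (l 17080672)))) (b (b (l 17788424) (l 17623488)) (b (a (l 17381320) (l 17426872)) (a (l 17127112) (l 17176368))))))) (b (a (b (l 1) (a (b (l 1) (l 17941736)) (l 1))) (l 1)) (a (b (a (b (l 17826760) (l 17680944)) (b (l 17854152) (l 17726584))) (a (b (l 17499848) (l 17248328)) (b (l 17569672) (l 17504648)))) (b (a (b (l 1) (l 17753680)) (l 1)) (a (b (l 17622136) (l 17453064)) (b (l 17645384) (l 17516392))))))), by decide +kernel⟩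

theorem c_pm_123 : CertN 536870912 536870912 1610612736 536870912 201326592 134217728 3 false true false .npn 1 2 3
    ndN0q1 ndN2q3 pcN2 cut_pm_123 Ext.none :=
  certN2 (fam := false) (s1 := true) (s2 := false) (a := 1) (b := 2) (c := 3) (cn := .npn) (n1 := ndN0q1) (n2 := ndN2q3) (pc := pcN2) (cut := cut_pm_123) (xt := Ext.none) (P1 := 536870912) (W1 := 536870912) (P2 := 1610612736) (W2 := 536870912) (P3 := 201326592) (W3 := 134217728) (N0 := 3)
    rfl (fun _ => rfl) k0_pm_123

noncomputable def f_pm_133 : ℕ → ℕ → ℕ → ℕ → Bool := onCell 536870912 536870912 1610612736 536870912 201326592 134217728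
    (rowN 3 0 false true false .dn 1 3 3 (qsf 536870912 536870912 1610612736 536870912 3) ndN0q1 ndN2q3 pcN3 Cut.none Ext.none)

def k0_pm_133 : ∃ t, chk3 f_pm_133 t 1 1 1 = true :=
  ⟨(a (b (l 1) (a (b (l 1) (a (b (l 1) (l 17304528)) (l 1))) (l 1))) (l 1)), by decide +kernel⟩

theorem c_pm_133 : CertN 536870912 536870912 1610612736 536870912 201326592 134217728 3 false true false .dn 1 3 3
    ndN0q1 ndN2q3 pcN3 Cut.none Ext.none :=
  certN0 (fam := false) (s1 := true) (s2 := false) (a := 1) (b := 3) (c := 3) (cn := .dn) (n1 := ndN0q1) (n2 := ndN2q3) (pc := pcN3) (cut := Cut.none) (xt := Ext.none) (P1 := 536870912) (W1 := 536870912) (P2 := 1610612736) (W2 := 536870912) (P3 := 201326592) (W3 := 134217728) (N0 := 3)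
    rfl k0_pm_133

noncomputable def cut_pm_202_a : Cut := Cut.of [[⟨0, 1, 0, 67108864⟩, ⟨1, 0, 0, 67108864⟩, ⟨2, 1, 0, 67108864⟩]]

noncomputable def f_pm_202_a : ℕ → ℕ → ℕ → ℕ → Bool := onCell 0 536870912 0 536870912 201326592 134217728
    (rowN 3 0 false true false .pp 2 0 2 (qsf 0 536870912 0 536870912 0) ndN0q2 ndN2q2a pcN0 cut_pm_202_a Ext.none)

def k0_pm_202_a : ∃ t, chk3 f_pm_202_a t 1 1 1 = true :=
  ⟨(a (l 3) (b (l 3) (a (l 3) (b (l 3) (b (l 3) (a (l 3) (l 6))))))), by decide +kernel⟩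

theorem c_pm_202_a : CertN 0 536870912 0 536870912 201326592 134217728 3 false true false .pp 2 0 2
    ndN0q2 ndN2q2a pcN0 cut_pm_202_a Ext.none :=
  certN0 (fam := false) (s1 := true) (s2 := false) (a := 2) (b := 0) (c := 2) (cn := .pp) (n1 := ndN0q2) (n2 := ndN2q2a) (pc := pcN0) (cut := cut_pm_202_a) (xt := Ext.none) (P1 := 0) (W1 := 536870912) (P2 := 0) (W2 := 536870912) (P3 := 201326592) (W3 := 134217728) (N0 := 3)
    rfl k0_pm_202_a

noncomputable def cut_pm_202_b : Cut := Cut.of [[⟨0, 1, 0, 67108864⟩, ⟨1, 0, 0, 67108864⟩, ⟨2, 1, 0, 67108864⟩]]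

noncomputable def f_pm_202_b : ℕ → ℕ → ℕ → ℕ → Bool := onCell 0 536870912 1239849684 370763052 201326592 134217728
    (rowN 3 0 false true false .pp 2 0 2 (qsf 0 536870912 1239849684 370763052 0) ndN0q2 ndN2q2b pcN0 cut_pm_202_b Ext.none)

def k0_pm_202_b : ∃ t, chk3 f_pm_202_b t 1 1 1 = true :=
  ⟨(a (l 3) (l 3)), by decide +kernel⟩

theorem c_pm_202_b : CertN 0 536870912 1239849684 370763052 201326592 134217728 3 false true false .pp 2 0 2
    ndN0q2 ndN2q2b pcN0 cut_pm_202_b Ext.none :=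
  certN0 (fam := false) (s1 := true) (s2 := false) (a := 2) (b := 0) (c := 2) (cn := .pp) (n1 := ndN0q2) (n2 := ndN2q2b) (pc := pcN0) (cut := cut_pm_202_b) (xt := Ext.none) (P1 := 0) (W1 := 536870912) (P2 := 1239849684) (W2 := 370763052) (P3 := 201326592) (W3 := 134217728) (N0 := 3)
    rfl k0_pm_202_b

noncomputable def f_pm_203 : ℕ → ℕ → ℕ → ℕ → Bool := onCell 0 536870912 0 536870912 201326592 134217728
    (rowN 3 1 false true false .up 2 0 3 (qsf 0 536870912 1610612736 536870912 0) ndN0q2 ndN2q3 pcN0 Cut.none Ext.none)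

def k0_pm_203 : ∃ t, chk3 f_pm_203 t 1 1 1 = true :=
  ⟨(b (l 1) (a (l 3) (l 3))), by decide +kernel⟩

theorem c_pm_203 : CertN 0 536870912 1610612736 536870912 201326592 134217728 3 false true false .up 2 0 3
    ndN0q2 ndN2q3 pcN0 Cut.none Ext.none :=
  certN1 (fam := false) (s1 := true) (s2 := false) (a := 2) (b := 0) (c := 3) (cn := .up) (n1 := ndN0q2) (n2 := ndN2q3) (pc := pcN0) (cut := Cut.none) (xt := Ext.none) (P1 := 0) (W1 := 536870912) (P2 := 1610612736) (W2 := 536870912) (P3 := 201326592) (W3 := 134217728) (N0 := 3)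
    rfl (fun _ => rfl) k0_pm_203

noncomputable def cut_pm_213 : Cut := Cut.of [[⟨0, 1, 0, 57167902⟩, ⟨1, 1, 0, 57167902⟩, ⟨2, 2, 0, 11758673⟩]]

noncomputable def f_pm_213 : ℕ → ℕ → ℕ → ℕ → Bool := onCell 0 536870912 1610612736 536870912 201326592 134217728
    (rowN 3 0 false true false .pnn 2 1 3 (qsf 0 536870912 1610612736 536870912 1) ndN0q2 ndN2q3 pcN1 cut_pm_213 Ext.none)

def k0_pm_213 : ∃ t, chk3 f_pm_213 t 1 1 1 = true :=
  ⟨(a (l 3) (a (l 3) (a (b (l 3) (l 3)) (b (l 3) (b (l 3) (b (l 3) (a (l 3) (b (l 3) (b (l 3) (b (l 3) (l 6))))))))))), by decide +kernel⟩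

theorem c_pm_213 : CertN 0 536870912 1610612736 536870912 201326592 134217728 3 false true false .pnn 2 1 3
    ndN0q2 ndN2q3 pcN1 cut_pm_213 Ext.none :=
  certN0 (fam := false) (s1 := true) (s2 := false) (a := 2) (b := 1) (c := 3) (cn := .pnn) (n1 := ndN0q2) (n2 := ndN2q3) (pc := pcN1) (cut := cut_pm_213) (xt := Ext.none) (P1 := 0) (W1 := 536870912) (P2 := 1610612736) (W2 := 536870912) (P3 := 201326592) (W3 := 134217728) (N0 := 3)
    rfl k0_pm_213

noncomputable def f_mm_001 : ℕ → ℕ → ℕ → ℕ → Bool := onCell 0 536870912 0 536870912 201326592 134217728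
    (rowN 3 1 false false false .up 0 0 1 (qsf 0 536870912 536870912 536870912 0) ndN0q0 ndN2q1 pcN0 Cut.none Ext.none)

def k0_mm_001 : ∃ t, chk3 f_mm_001 t 1 1 1 = true :=
  ⟨(l 3), by decide +kernel⟩

theorem c_mm_001 : CertN 0 536870912 536870912 536870912 201326592 134217728 3 false false false .up 0 0 1
    ndN0q0 ndN2q1 pcN0 Cut.none Ext.none :=
  certN1 (fam := false) (s1 := false) (s2 := false) (a := 0) (b := 0) (c := 1) (cn := .up) (n1 := ndN0q0) (n2 := ndN2q1) (pc := pcN0) (cut := Cut.none) (xt := Ext.none) (P1 := 0) (W1 := 536870912) (P2 := 536870912) (W2 := 536870912) (P3 := 201326592) (W3 := 134217728) (N0 := 3)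
    rfl (fun _ => rfl) k0_mm_001

noncomputable def f_mm_011 : ℕ → ℕ → ℕ → ℕ → Bool := onCell 0 536870912 536870912 536870912 201326592 134217728
    (rowN 3 1 false false false .pnn 0 1 1 (qsf 0 536870912 536870912 536870912 1) ndN0q0 ndN2q1 pcN1 Cut.none Ext.none)

def k0_mm_011 : ∃ t, chk3 f_mm_011 t 1 1 1 = true :=
  ⟨(l 5), by decide +kernel⟩

theorem c_mm_011 : CertN 0 536870912 536870912 536870912 201326592 134217728 3 false false false .pnn 0 1 1
    ndN0q0 ndN2q1 pcN1 Cut.none Ext.none :=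
  certN1 (fam := false) (s1 := false) (s2 := false) (a := 0) (b := 1) (c := 1) (cn := .pnn) (n1 := ndN0q0) (n2 := ndN2q1) (pc := pcN1) (cut := Cut.none) (xt := Ext.none) (P1 := 0) (W1 := 536870912) (P2 := 536870912) (W2 := 536870912) (P3 := 201326592) (W3 := 134217728) (N0 := 3)
    rfl (fun _ => rfl) k0_mm_011

noncomputable def f_mm_012_a : ℕ → ℕ → ℕ → ℕ → Bool := onCell 0 536870912 0 536870912 201326592 134217728
    (rowN 3 0 false false false .pnp 0 1 2 (qsf 0 536870912 0 536870912 1) ndN0q0 ndN2q2a pcN1 Cut.none Ext.none)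

def k0_mm_012_a : ∃ t, chk3 f_mm_012_a t 1 1 1 = true :=
  ⟨(l 5), by decide +kernel⟩

theorem c_mm_012_a : CertN 0 536870912 0 536870912 201326592 134217728 3 false false false .pnp 0 1 2
    ndN0q0 ndN2q2a pcN1 Cut.none Ext.none :=
  certN0 (fam := false) (s1 := false) (s2 := false) (a := 0) (b := 1) (c := 2) (cn := .pnp) (n1 := ndN0q0) (n2 := ndN2q2a) (pc := pcN1) (cut := Cut.none) (xt := Ext.none) (P1 := 0) (W1 := 536870912) (P2 := 0) (W2 := 536870912) (P3 := 201326592) (W3 := 134217728) (N0 := 3)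
    rfl k0_mm_012_a

noncomputable def f_mm_012_b : ℕ → ℕ → ℕ → ℕ → Bool := onCell 0 536870912 1239849684 370763052 201326592 134217728
    (rowN 3 0 false false false .pnp 0 1 2 (qsf 0 536870912 1239849684 370763052 1) ndN0q0 ndN2q2b pcN1 Cut.none Ext.none)

def k0_mm_012_b : ∃ t, chk3 f_mm_012_b t 1 1 1 = true :=
  ⟨(l 5), by decide +kernel⟩

theorem c_mm_012_b : CertN 0 536870912 1239849684 370763052 201326592 134217728 3 false false false .pnp 0 1 2
    ndN0q0 ndN2q2b pcN1 Cut.none Ext.none :=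
  certN0 (fam := false) (s1 := false) (s2 := false) (a := 0) (b := 1) (c := 2) (cn := .pnp) (n1 := ndN0q0) (n2 := ndN2q2b) (pc := pcN1) (cut := Cut.none) (xt := Ext.none) (P1 := 0) (W1 := 536870912) (P2 := 1239849684) (W2 := 370763052) (P3 := 201326592) (W3 := 134217728) (N0 := 3)
    rfl k0_mm_012_b

noncomputable def f_mm_022_a : ℕ → ℕ → ℕ → ℕ → Bool := onCell 0 536870912 0 536870912 201326592 134217728
    (rowN 3 0 false false false .pp 0 2 2 (qsf 0 536870912 0 536870912 2) ndN0q0 ndN2q2a pcN2 Cut.none Ext.none)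

def k0_mm_022_a : ∃ t, chk3 f_mm_022_a t 1 1 1 = true :=
  ⟨(l 5), by decide +kernel⟩

theorem c_mm_022_a : CertN 0 536870912 0 536870912 201326592 134217728 3 false false false .pp 0 2 2
    ndN0q0 ndN2q2a pcN2 Cut.none Ext.none :=
  certN0 (fam := false) (s1 := false) (s2 := false) (a := 0) (b := 2) (c := 2) (cn := .pp) (n1 := ndN0q0) (n2 := ndN2q2a) (pc := pcN2) (cut := Cut.none) (xt := Ext.none) (P1 := 0) (W1 := 536870912) (P2 := 0) (W2 := 536870912) (P3 := 201326592) (W3 := 134217728) (N0 := 3)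
    rfl k0_mm_022_a

noncomputable def f_mm_022_b : ℕ → ℕ → ℕ → ℕ → Bool := onCell 0 536870912 1239849684 370763052 201326592 134217728
    (rowN 3 0 false false false .pp 0 2 2 (qsf 0 536870912 1239849684 370763052 2) ndN0q0 ndN2q2b pcN2 Cut.none Ext.none)

def k0_mm_022_b : ∃ t, chk3 f_mm_022_b t 1 1 1 = true :=
  ⟨(l 5), by decide +kernel⟩

theorem c_mm_022_b : CertN 0 536870912 1239849684 370763052 201326592 134217728 3 false false false .pp 0 2 2
    ndN0q0 ndN2q2b pcN2 Cut.none Ext.none :=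
  certN0 (fam := false) (s1 := false) (s2 := false) (a := 0) (b := 2) (c := 2) (cn := .pp) (n1 := ndN0q0) (n2 := ndN2q2b) (pc := pcN2) (cut := Cut.none) (xt := Ext.none) (P1 := 0) (W1 := 536870912) (P2 := 1239849684) (W2 := 370763052) (P3 := 201326592) (W3 := 134217728) (N0 := 3)
    rfl k0_mm_022_b

noncomputable def f_mm_023 : ℕ → ℕ → ℕ → ℕ → Bool := onCell 0 536870912 1610612736 536870912 201326592 134217728
    (rowN 3 0 false false false .up 0 2 3 (qsf 0 536870912 1610612736 536870912 2) ndN0q0 ndN2q3 pcN2 Cut.none Ext.none)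

def k0_mm_023 : ∃ t, chk3 f_mm_023 t 1 1 1 = true :=
  ⟨(l 5), by decide +kernel⟩

theorem c_mm_023 : CertN 0 536870912 1610612736 536870912 201326592 134217728 3 false false false .up 0 2 3
    ndN0q0 ndN2q3 pcN2 Cut.none Ext.none :=
  certN0 (fam := false) (s1 := false) (s2 := false) (a := 0) (b := 2) (c := 3) (cn := .up) (n1 := ndN0q0) (n2 := ndN2q3) (pc := pcN2) (cut := Cut.none) (xt := Ext.none) (P1 := 0) (W1 := 536870912) (P2 := 1610612736) (W2 := 536870912) (P3 := 201326592) (W3 := 134217728) (N0 := 3)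
    rfl k0_mm_023

noncomputable def f_mm_033 : ℕ → ℕ → ℕ → ℕ → Bool := onCell 0 536870912 1610612736 536870912 201326592 134217728
    (rowN 3 0 false false false .pnn 0 3 3 (qsf 0 536870912 1610612736 536870912 3) ndN0q0 ndN2q3 pcN3 Cut.none Ext.none)

def k0_mm_033 : ∃ t, chk3 f_mm_033 t 1 1 1 = true :=
  ⟨(l 5), by decide +kernel⟩

theorem c_mm_033 : CertN 0 536870912 1610612736 536870912 201326592 134217728 3 false false false .pnn 0 3 3
    ndN0q0 ndN2q3 pcN3 Cut.none Ext.none :=
  certN0 (fam := false) (s1 := false) (s2 := false) (a := 0) (b := 3) (c := 3) (cn := .pnn) (n1 := ndN0q0) (n2 := ndN2q3) (pc := pcN3) (cut := Cut.none) (xt := Ext.none) (P1 := 0) (W1 := 536870912) (P2 := 1610612736) (W2 := 536870912) (P3 := 201326592) (W3 := 134217728) (N0 := 3)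
    rfl k0_mm_033

noncomputable def f_mm_101 : ℕ → ℕ → ℕ → ℕ → Bool := onCell 0 536870912 536870912 536870912 201326592 134217728
    (rowN 3 2 false false false .npn 1 0 1 (qsf 536870912 536870912 536870912 536870912 0) ndN0q1 ndN2q1 pcN0 Cut.none Ext.none)

def k0_mm_101 : ∃ t, chk3 f_mm_101 t 1 1 1 = true :=
  ⟨(a (l 3) (l 3)), by decide +kernel⟩

theorem c_mm_101 : CertN 536870912 536870912 536870912 536870912 201326592 134217728 3 false false false .npn 1 0 1
    ndN0q1 ndN2q1 pcN0 Cut.none Ext.none :=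
  certN2 (fam := false) (s1 := false) (s2 := false) (a := 1) (b := 0) (c := 1) (cn := .npn) (n1 := ndN0q1) (n2 := ndN2q1) (pc := pcN0) (cut := Cut.none) (xt := Ext.none) (P1 := 536870912) (W1 := 536870912) (P2 := 536870912) (W2 := 536870912) (P3 := 201326592) (W3 := 134217728) (N0 := 3)
    rfl (fun _ => rfl) k0_mm_101

noncomputable def f_mm_102_a : ℕ → ℕ → ℕ → ℕ → Bool := onCell 536870912 536870912 0 536870912 201326592 134217728
    (rowN 3 0 false false false .npp 1 0 2 (qsf 536870912 536870912 0 536870912 0) ndN0q1 ndN2q2a pcN0 Cut.none Ext.none)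

def k0_mm_102_a : ∃ t, chk3 f_mm_102_a t 1 1 1 = true :=
  ⟨(l 3), by decide +kernel⟩

theorem c_mm_102_a : CertN 536870912 536870912 0 536870912 201326592 134217728 3 false false false .npp 1 0 2
    ndN0q1 ndN2q2a pcN0 Cut.none Ext.none :=
  certN0 (fam := false) (s1 := false) (s2 := false) (a := 1) (b := 0) (c := 2) (cn := .npp) (n1 := ndN0q1) (n2 := ndN2q2a) (pc := pcN0) (cut := Cut.none) (xt := Ext.none) (P1 := 536870912) (W1 := 536870912) (P2 := 0) (W2 := 536870912) (P3 := 201326592) (W3 := 134217728) (N0 := 3)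
    rfl k0_mm_102_a

noncomputable def f_mm_102_b : ℕ → ℕ → ℕ → ℕ → Bool := onCell 536870912 536870912 1239849684 370763052 201326592 134217728
    (rowN 3 0 false false false .npp 1 0 2 (qsf 536870912 536870912 1239849684 370763052 0) ndN0q1 ndN2q2b pcN0 Cut.none Ext.none)

def k0_mm_102_b : ∃ t, chk3 f_mm_102_b t 1 1 1 = true :=
  ⟨(l 5), by decide +kernel⟩

theorem c_mm_102_b : CertN 536870912 536870912 1239849684 370763052 201326592 134217728 3 false false false .npp 1 0 2
    ndN0q1 ndN2q2b pcN0 Cut.none Ext.none :=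
  certN0 (fam := false) (s1 := false) (s2 := false) (a := 1) (b := 0) (c := 2) (cn := .npp) (n1 := ndN0q1) (n2 := ndN2q2b) (pc := pcN0) (cut := Cut.none) (xt := Ext.none) (P1 := 536870912) (W1 := 536870912) (P2 := 1239849684) (W2 := 370763052) (P3 := 201326592) (W3 := 134217728) (N0 := 3)
    rfl k0_mm_102_b

noncomputable def f_mm_112_a : ℕ → ℕ → ℕ → ℕ → Bool := onCell 536870912 536870912 0 536870912 201326592 134217728
    (rowN 3 0 false false false .dn 1 1 2 (qsf 536870912 536870912 0 536870912 1) ndN0q1 ndN2q2a pcN1 Cut.none Ext.none)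

def k0_mm_112_a : ∃ t, chk3 f_mm_112_a t 1 1 1 = true :=
  ⟨(l 3), by decide +kernel⟩

theorem c_mm_112_a : CertN 536870912 536870912 0 536870912 201326592 134217728 3 false false false .dn 1 1 2
    ndN0q1 ndN2q2a pcN1 Cut.none Ext.none :=
  certN0 (fam := false) (s1 := false) (s2 := false) (a := 1) (b := 1) (c := 2) (cn := .dn) (n1 := ndN0q1) (n2 := ndN2q2a) (pc := pcN1) (cut := Cut.none) (xt := Ext.none) (P1 := 536870912) (W1 := 536870912) (P2 := 0) (W2 := 536870912) (P3 := 201326592) (W3 := 134217728) (N0 := 3)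
    rfl k0_mm_112_a

noncomputable def f_mm_112_b : ℕ → ℕ → ℕ → ℕ → Bool := onCell 536870912 536870912 1239849684 370763052 201326592 134217728
    (rowN 3 0 false false false .dn 1 1 2 (qsf 536870912 536870912 1239849684 370763052 1) ndN0q1 ndN2q2b pcN1 Cut.none Ext.none)

def k0_mm_112_b : ∃ t, chk3 f_mm_112_b t 1 1 1 = true :=
  ⟨(l 5), by decide +kernel⟩

theorem c_mm_112_b : CertN 536870912 536870912 1239849684 370763052 201326592 134217728 3 false false false .dn 1 1 2
    ndN0q1 ndN2q2b pcN1 Cut.none Ext.none :=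
  certN0 (fam := false) (s1 := false) (s2 := false) (a := 1) (b := 1) (c := 2) (cn := .dn) (n1 := ndN0q1) (n2 := ndN2q2b) (pc := pcN1) (cut := Cut.none) (xt := Ext.none) (P1 := 536870912) (W1 := 536870912) (P2 := 1239849684) (W2 := 370763052) (P3 := 201326592) (W3 := 134217728) (N0 := 3)
    rfl k0_mm_112_b

noncomputable def f_mm_113 : ℕ → ℕ → ℕ → ℕ → Bool := onCell 536870912 536870912 1610612736 536870912 201326592 134217728
    (rowN 3 0 false false false .nn 1 1 3 (qsf 536870912 536870912 1610612736 536870912 1) ndN0q1 ndN2q3 pcN1 Cut.none Ext.none)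

def k0_mm_113 : ∃ t, chk3 f_mm_113 t 1 1 1 = true :=
  ⟨(l 5), by decide +kernel⟩

theorem c_mm_113 : CertN 536870912 536870912 1610612736 536870912 201326592 134217728 3 false false false .nn 1 1 3
    ndN0q1 ndN2q3 pcN1 Cut.none Ext.none :=
  certN0 (fam := false) (s1 := false) (s2 := false) (a := 1) (b := 1) (c := 3) (cn := .nn) (n1 := ndN0q1) (n2 := ndN2q3) (pc := pcN1) (cut := Cut.none) (xt := Ext.none) (P1 := 536870912) (W1 := 536870912) (P2 := 1610612736) (W2 := 536870912) (P3 := 201326592) (W3 := 134217728) (N0 := 3)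
    rfl k0_mm_113

noncomputable def f_mm_123 : ℕ → ℕ → ℕ → ℕ → Bool := onCell 536870912 536870912 1610612736 536870912 201326592 134217728
    (rowN 3 0 false false false .npn 1 2 3 (qsf 536870912 536870912 1610612736 536870912 2) ndN0q1 ndN2q3 pcN2 Cut.none Ext.none)

def k0_mm_123 : ∃ t, chk3 f_mm_123 t 1 1 1 = true :=
  ⟨(l 5), by decide +kernel⟩

theorem c_mm_123 : CertN 536870912 536870912 1610612736 536870912 201326592 134217728 3 false false false .npn 1 2 3
    ndN0q1 ndN2q3 pcN2 Cut.none Ext.none :=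
  certN0 (fam := false) (s1 := false) (s2 := false) (a := 1) (b := 2) (c := 3) (cn := .npn) (n1 := ndN0q1) (n2 := ndN2q3) (pc := pcN2) (cut := Cut.none) (xt := Ext.none) (P1 := 536870912) (W1 := 536870912) (P2 := 1610612736) (W2 := 536870912) (P3 := 201326592) (W3 := 134217728) (N0 := 3)
    rfl k0_mm_123

noncomputable def f_mm_133 : ℕ → ℕ → ℕ → ℕ → Bool := onCell 536870912 536870912 1610612736 536870912 201326592 134217728
    (rowN 3 0 false false false .dn 1 3 3 (qsf 536870912 536870912 1610612736 536870912 3) ndN0q1 ndN2q3 pcN3 Cut.none Ext.none)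

def k0_mm_133 : ∃ t, chk3 f_mm_133 t 1 1 1 = true :=
  ⟨(l 5), by decide +kernel⟩

theorem c_mm_133 : CertN 536870912 536870912 1610612736 536870912 201326592 134217728 3 false false false .dn 1 3 3
    ndN0q1 ndN2q3 pcN3 Cut.none Ext.none :=
  certN0 (fam := false) (s1 := false) (s2 := false) (a := 1) (b := 3) (c := 3) (cn := .dn) (n1 := ndN0q1) (n2 := ndN2q3) (pc := pcN3) (cut := Cut.none) (xt := Ext.none) (P1 := 536870912) (W1 := 536870912) (P2 := 1610612736) (W2 := 536870912) (P3 := 201326592) (W3 := 134217728) (N0 := 3)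
    rfl k0_mm_133

noncomputable def f_mm_202_a : ℕ → ℕ → ℕ → ℕ → Bool := onCell 0 536870912 0 536870912 201326592 134217728
    (rowN 3 0 false false false .pp 2 0 2 (qsf 0 536870912 0 536870912 0) ndN0q2 ndN2q2a pcN0 Cut.none Ext.none)

def k0_mm_202_a : ∃ t, chk3 f_mm_202_a t 1 1 1 = true :=
  ⟨(l 3), by decide +kernel⟩

theorem c_mm_202_a : CertN 0 536870912 0 536870912 201326592 134217728 3 false false false .pp 2 0 2
    ndN0q2 ndN2q2a pcN0 Cut.none Ext.none :=
  certN0 (fam := false) (s1 := false) (s2 := false) (a := 2) (b := 0) (c := 2) (cn := .pp) (n1 := ndN0q2) (n2 := ndN2q2a) (pc := pcN0) (cut := Cut.none) (xt := Ext.none) (P1 := 0) (W1 := 536870912) (P2 := 0) (W2 := 536870912) (P3 := 201326592) (W3 := 134217728) (N0 := 3)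
    rfl k0_mm_202_a

noncomputable def f_mm_202_b : ℕ → ℕ → ℕ → ℕ → Bool := onCell 0 536870912 1239849684 370763052 201326592 134217728
    (rowN 3 0 false false false .pp 2 0 2 (qsf 0 536870912 1239849684 370763052 0) ndN0q2 ndN2q2b pcN0 Cut.none Ext.none)

def k0_mm_202_b : ∃ t, chk3 f_mm_202_b t 1 1 1 = true :=
  ⟨(l 3), by decide +kernel⟩

theorem c_mm_202_b : CertN 0 536870912 1239849684 370763052 201326592 134217728 3 false false false .pp 2 0 2
    ndN0q2 ndN2q2b pcN0 Cut.none Ext.none :=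
  certN0 (fam := false) (s1 := false) (s2 := false) (a := 2) (b := 0) (c := 2) (cn := .pp) (n1 := ndN0q2) (n2 := ndN2q2b) (pc := pcN0) (cut := Cut.none) (xt := Ext.none) (P1 := 0) (W1 := 536870912) (P2 := 1239849684) (W2 := 370763052) (P3 := 201326592) (W3 := 134217728) (N0 := 3)
    rfl k0_mm_202_b

noncomputable def f_mm_203 : ℕ → ℕ → ℕ → ℕ → Bool := onCell 0 536870912 0 536870912 201326592 134217728
    (rowN 3 1 false false false .up 2 0 3 (qsf 0 536870912 1610612736 536870912 0) ndN0q2 ndN2q3 pcN0 Cut.none Ext.none)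

def k0_mm_203 : ∃ t, chk3 f_mm_203 t 1 1 1 = true :=
  ⟨(l 3), by decide +kernel⟩

theorem c_mm_203 : CertN 0 536870912 1610612736 536870912 201326592 134217728 3 false false false .up 2 0 3
    ndN0q2 ndN2q3 pcN0 Cut.none Ext.none :=
  certN1 (fam := false) (s1 := false) (s2 := false) (a := 2) (b := 0) (c := 3) (cn := .up) (n1 := ndN0q2) (n2 := ndN2q3) (pc := pcN0) (cut := Cut.none) (xt := Ext.none) (P1 := 0) (W1 := 536870912) (P2 := 1610612736) (W2 := 536870912) (P3 := 201326592) (W3 := 134217728) (N0 := 3)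
    rfl (fun _ => rfl) k0_mm_203

noncomputable def f_mm_213 : ℕ → ℕ → ℕ → ℕ → Bool := onCell 0 536870912 1610612736 536870912 201326592 134217728
    (rowN 3 0 false false false .pnn 2 1 3 (qsf 0 536870912 1610612736 536870912 1) ndN0q2 ndN2q3 pcN1 Cut.none Ext.none)

def k0_mm_213 : ∃ t, chk3 f_mm_213 t 1 1 1 = true :=
  ⟨(b (l 3) (a (l 3) (l 5))), by decide +kernel⟩

theorem c_mm_213 : CertN 0 536870912 1610612736 536870912 201326592 134217728 3 false false false .pnn 2 1 3
    ndN0q2 ndN2q3 pcN1 Cut.none Ext.none :=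
  certN0 (fam := false) (s1 := false) (s2 := false) (a := 2) (b := 1) (c := 3) (cn := .pnn) (n1 := ndN0q2) (n2 := ndN2q3) (pc := pcN1) (cut := Cut.none) (xt := Ext.none) (P1 := 0) (W1 := 536870912) (P2 := 1610612736) (W2 := 536870912) (P3 := 201326592) (W3 := 134217728) (N0 := 3)
    rfl k0_mm_213

end Pool.Agent.Strip051.G.I3_16_5_16.Tab.C.NB02

namespace Pool.Agent.Strip051.G.I3_16_5_16.Tab.C.NB03

open Pool.Agent.Strip051.PB Pool.Agent.Strip051.PB.T
open Pool.Agent.Strip051.G.I3_16_5_16.Tab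

noncomputable def f_pp_001 : ℕ → ℕ → ℕ → ℕ → Bool := onCell 0 536870912 0 536870912 201326592 134217728
    (rowN 3 1 false true true .up 0 0 1 (qsf 0 536870912 536870912 536870912 0) ndN0q0 ndN3q1 pcN0 Cut.none Ext.none)

def k0_pp_001 : ∃ t, chk3 f_pp_001 t 1 1 1 = true :=
  ⟨(l 3), by decide +kernel⟩

theorem c_pp_001 : CertN 0 536870912 536870912 536870912 201326592 134217728 3 false true true .up 0 0 1
    ndN0q0 ndN3q1 pcN0 Cut.none Ext.none :=
  certN1 (fam := false) (s1 := true) (s2 := true) (a := 0) (b := 0) (c := 1) (cn := .up) (n1 := ndN0q0) (n2 := ndN3q1) (pc := pcN0) (cut := Cut.none) (xt := Ext.none) (P1 := 0) (W1 := 536870912) (P2 := 536870912) (W2 := 536870912) (P3 := 201326592) (W3 := 134217728) (N0 := 3)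
    rfl (fun _ => rfl) k0_pp_001

noncomputable def cut_pp_011 : Cut := Cut.of [[⟨0, 0, 0, 67108864⟩, ⟨1, 1, 0, 67108864⟩, ⟨2, 1, 0, 67108864⟩]]

noncomputable def f_pp_011 : ℕ → ℕ → ℕ → ℕ → Bool := onCell 0 536870912 536870912 536870912 201326592 134217728
    (rowN 3 1 false true true .pnn 0 1 1 (qsf 0 536870912 536870912 536870912 1) ndN0q0 ndN3q1 pcN1 cut_pp_011 Ext.none)

def k0_pp_011 : ∃ t, chk3 f_pp_011 t 1 1 1 = true :=
  ⟨(b (l 3) (a (a (b (l 3) (b (l 3) (a (b (l 3) (a (l 6) (l 3))) (l 3)))) (l 3)) (l 3))), by decide +kernel⟩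

theorem c_pp_011 : CertN 0 536870912 536870912 536870912 201326592 134217728 3 false true true .pnn 0 1 1
    ndN0q0 ndN3q1 pcN1 cut_pp_011 Ext.none :=
  certN1 (fam := false) (s1 := true) (s2 := true) (a := 0) (b := 1) (c := 1) (cn := .pnn) (n1 := ndN0q0) (n2 := ndN3q1) (pc := pcN1) (cut := cut_pp_011) (xt := Ext.none) (P1 := 0) (W1 := 536870912) (P2 := 536870912) (W2 := 536870912) (P3 := 201326592) (W3 := 134217728) (N0 := 3)
    rfl (fun _ => rfl) k0_pp_011

noncomputable def f_pp_012 : ℕ → ℕ → ℕ → ℕ → Bool := onCell 0 536870912 536870912 536870912 201326592 134217728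
    (rowN 3 1 false true true .pnp 0 1 2 (qsf 0 536870912 1073741824 536870912 1) ndN0q0 ndN3q2 pcN1 Cut.none Ext.none)

def k0_pp_012 : ∃ t, chk3 f_pp_012 t 1 1 1 = true :=
  ⟨(l 3), by decide +kernel⟩

theorem c_pp_012 : CertN 0 536870912 1073741824 536870912 201326592 134217728 3 false true true .pnp 0 1 2
    ndN0q0 ndN3q2 pcN1 Cut.none Ext.none :=
  certN1 (fam := false) (s1 := true) (s2 := true) (a := 0) (b := 1) (c := 2) (cn := .pnp) (n1 := ndN0q0) (n2 := ndN3q2) (pc := pcN1) (cut := Cut.none) (xt := Ext.none) (P1 := 0) (W1 := 536870912) (P2 := 1073741824) (W2 := 536870912) (P3 := 201326592) (W3 := 134217728) (N0 := 3)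
    rfl (fun _ => rfl) k0_pp_012

noncomputable def f_pp_022 : ℕ → ℕ → ℕ → ℕ → Bool := onCell 1073741824 536870912 1073741824 536870912 201326592 134217728
    (rowN 3 2 false true true .pp 0 2 2 (qsf 0 536870912 1073741824 536870912 2) ndN0q0 ndN3q2 pcN2 Cut.none Ext.none)

def k0_pp_022 : ∃ t, chk3 f_pp_022 t 4 4 1 = true :=
  ⟨(a (l 3) (b (a (l 3) (l 1)) (b (a (l 3) (b (l 1) (a (a (c (l 102172965303) (l 103783561623)) (l 1)) (l 1)))) (a (l 3) (b (a (c (a (b (l 44190841927) (l 16585496)) (b (l 16593544) (l 16577968))) (b (a (l 16594288) (l 16564272)) (a (l 16559392) (l 16550616)))) (c (b (l 1) (l 16587080)) (l 16585064))) (a (b (c (a (l 16580520) (l 16564368)) (l 16570088)) (c (c (b (l 16577536) (l 16580704)) (l 16607880)) (a (l 16601976) (l 16586680)))) (c (b (a (l 16554352) (l 16525304)) (a (l 16574336) (c (l 16548064) (l 16537752)))) (b (l 16543496) (b (l 16554264) (l 16566408)))))))))), by decide +kernel⟩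

def k1_pp_022 : ∃ t, chk3 f_pp_022 t 4 10 1 = true :=
  ⟨(b (a (l 3) (b (a (a (l 3) (a (l 3) (l 3))) (a (b (c (a (l 16610968) (l 16594296)) (c (l 16598200) (l 16595072))) (c (c (l 16604888) (l 16601928)) (c (l 16598688) (l 16595176)))) (b (c (c (l 16570472) (l 16569448)) (l 16577648)) (c (c (l 16571120) (l 16569880)) (l 16567160))))) (a (a (l 3) (a (l 3) (b (c (l 16628784) (l 16599248)) (c (b (l 16587576) (b (l 16587744) (l 16629448))) (b (l 16578640) (b (l 16578704) (l 16599432))))))) (b (a (c (b (l 16604472) (l 16604600)) (l 16614464)) (c (c (l 16571800) (l 16570400)) (l 16588296))) (c (b (a (l 16604752) (c (l 16550792) (l 16549360))) (b (a (l 16604688) (c (l 16550544) (l 16549144))) (a (c (l 16605872) (l 16602632)) (a (l 16578800) (l 16562264))))) (b (a (l 16576456) (l 16546136)) (b (a (l 16576352) (l 16545912)) (a (c (l 16598968) (l 16594872)) (l 16587424))))))))) (a (l 3) (a (a (l 3) (a (l 3) (c (b (l 16626848) (l 16606504)) (b (l 16596952) (l 16576464))))) (a (b (c (a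 (l 16610072) (l 16592360)) (b (l 16574752) (l 16574432))) (c (c (l 16580896) (l 16578080)) (l 16593592))) (b (c (c (l 16567048) (l 16566000)) (b (l 16544048) (l 16543408))) (c (b (l 16546200) (l 16545000)) (a (l 16527864) (l 16533760)))))))), by decide +kernel⟩

def k2_pp_022 : ∃ t, chk3 f_pp_022 t 4 11 1 = true :=
  ⟨(a (l 3) (a (a (l 3) (a (l 3) (b (b (c (l 16605840) (l 16576016)) (c (l 16582480) (l 16574072))) (c (b (l 16595640) (l 16737896)) (b (l 16568992) (l 16561512)))))) (b (a (c (b (c (l 16578952) (l 16576520)) (l 16606576)) (b (l 16592280) (l 16569128))) (c (b (c (l 16541472) (l 16541328)) (l 16558864)) (b (l 16560088) (l 16536192)))) (c (a (b (l 16594880) (c (l 16891856) (l 16558336))) (b (l 16547984) (l 16712104))) (b (a (l 16564712) (l 16532328)) (a (l 16557232) (l 16504848))))))), by decide +kernel⟩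

def k3_pp_022 : ∃ t, chk3 f_pp_022 t 5 4 1 = true :=
  ⟨(a (b (l 1) (b (l 1) (a (a (b (l 1) (b (l 1) (c (c (l 16552832) (l 16558048)) (l 16548792)))) (l 1)) (l 1)))) (l 1)), by decide +kernel⟩

def k4_pp_022 : ∃ t, chk3 f_pp_022 t 5 10 1 = true :=
  ⟨(a (b (a (a (b (c (b (a (b (l 16505160) (l 16526400)) (l 16531928)) (a (l 16547064) (b (l 16490664) (l 16511600)))) (b (a (l 16546848) (l 16492152)) (a (l 16504688) (l 16491816)))) (b (c (a (l 16547368) (l 16532168)) (a (l 16525616) (l 16512608))) (b (c (a (l 16526120) (l 16510784)) (l 16539112)) (b (c (a (l 16525776) (l 16510272)) (l 16549216)) (c (a (l 16546160) (b (l 16538592) (l 16488408))) (b (a (l 16545544) (l 16532232)) (l 16517056))))))) (a (b (b (l 1) (c (l 16533440) (l 16495080))) (b (b (c (l 16512072) (l 16494416)) (c (l 16505952) (l 16493488))) (b (c (l 16510304) (l 16471616)) (b (c (l 16509416) (l 16491776)) (c (c (l 16527944) (l 16509736)) (l 16532888)))))) (b (l 1) (b (c (c (l 16533408) (l 16526224)) (l 16537416))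 (c (b (a (l 16476160) (l 16504816)) (b (a (l 16473328) (l 16502088)) (c (l 16533832) (l 16526264)))) (b (l 16510248) (b (l 16507272) (l 16535728)))))))) (b (l 1) (b (l 1) (b (l 1) (b (l 1) (c (l 16508688) (l 16492280))))))) (a (a (b (c (a (c (l 16520568) (l 16521384)) (c (l 16524608) (l 16505792))) (a (l 16541832) (l 16527920))) (c (c (a (l 16518192) (l 16500408)) (l 16552232)) (a (l 16519352) (l 16504696)))) (c (b (a (b (l 16505912) (l 16482096)) (c (l 16523704) (l 16520816))) (a (l 16502752) (c (l 16504696) (l 16495656)))) (b (a (l 16527880) (b (l 16501712) (l 16494112))) (a (l 16502456) (l 16505144))))) (a (b (c (b (l 16472200) (l 16465664)) (l 16485672)) (c (l 16478776) (l 16439608))) (b (c (b (l 1) (l 16428232)) (l 16435656)) (c (b (l 16443552) (l 16438296)) (l 16443144)))))) (b (l 1) (b (l 1) (b (l 1) (c (l 16439096) (l 16414320)))))), by decide +kernel⟩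

def k5_pp_022 : ∃ t, chk3 f_pp_022 t 5 11 1 = true :=
  ⟨(a (a (a (b (b (c (a (l 16515616) (l 16518560)) (a (l 16495896) (l 16501344))) (c (a (l 16511312) (l 16492104)) (l 16556424))) (b (c (a (l 16530648) (l 16520856)) (a (l 16488024) (l 16469984))) (c (a (l 16703728) (l 16699440)) (a (l 16482256) (l 16462416))))) (b (c (b (a (l 16491288) (a (l 16466720) (l 16479616))) (a (l 16484072) (c (l 16542608) (l 16471368)))) (a (b (l 16476368) (l 16449288)) (b (l 16489424) (c (l 16455136) (l 16458472))))) (a (c (b (l 16515640) (l 16697960)) (l 16530496)) (c (c (b (l 16746528) (l 16906360)) (l 16498800)) (a (l 16496528) (l 16474752)))))) (b (c (b (a (l 16467320) (l 16453288)) (c (l 16540176) (l 16423968))) (b (l 16439288) (l 16427800))) (c (b (b (l 16451928) (l 16561840)) (l 16704344)) (b (l 16396680) (l 16388208))))) (b (a (b (c (a (b (l 16397192) (l 16393432)) (l 16401512)) (a (l 16414008) (l 16343936))) (c (a (l 16410144) (l 16406192)) (l 16406824))) (b (l 1) (c (l 16372568) (l 16341120))))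 (a (c (b (c (l 16775360) (l 16369048)) (l 16631968)) (b (l 16367840) (l 16341184))) (c (b (a (c (l 16790736) (l 16347688)) (l 16497264)) (a (l 16729848) (c (l 17008376) (l 16464880)))) (b (l 16357016) (l 16332976)))))), by decide +kernel⟩

def k6_pp_022 : ∃ t, chk3 f_pp_022 t 4 3 1 = true :=
  ⟨(b (b (a (l 3) (a (a (l 3) (b (c (b (c (l 16993184) (l 16714608)) (c (l 17073216) (l 16817736))) (b (l 16580832) (l 16569824))) (c (b (l 35601340919) (l 16977512)) (b (l 16564192) (l 16658888))))) (b (a (c (b (l 16700920) (l 16904896)) (b (l 16526568) (l 16514640))) (c (b (l 16843784) (l 16950376)) (b (l 16495232) (l 16482808)))) (a (c (b (l 17027704) (l 17094064)) (b (l 16511736) (l 16615616))) (c (b (l 17037168) (l 17108232)) (b (l 16483072) (l 16596200))))))) (a (l 3) (a (a (a (l 3) (b (l 3) (b (l 3) (c (l 17226024) (l 16888008))))) (c (b (b (l 17133440) (l 17176088)) (c (l 17317216) (l 53318720919))) (b (b (l 39895988487) (a (l 16785880) (l 16780968))) (b (a (l 16841032) (l 16838696))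 (a (l 16888248) (l 16888072)))))) (b (c (a (c (l 17278976) (l 17065704)) (c (l 17304616) (l 17078184))) (a (b (l 16702224) (l 16774968)) (b (l 16690512) (l 16769544)))) (c (a (c (l 17344128) (l 17154016)) (l 17251760)) (a (b (l 16836672) (l 16889344)) (b (l 16836408) (l 16893328)))))))) (b (a (l 3) (a (b (c (a (b (l 79625354887) (l 17273304)) (b (l 17271416) (l 17297184))) (a (b (c (l 17012888) (l 73719147511)) (l 16980960)) (b (c (l 17021080) (l 16851616)) (l 16984704)))) (c (a (l 17303344) (l 17327336)) (a (l 17040200) (l 17045264)))) (b (c (a (b (l 17294568) (l 17320616)) (l 17332792)) (a (b (l 16940352) (l 16989488)) (b (l 16946576) (l 16996560)))) (a (c (l 17351216) (l 17051544)) (c (l 17375376) (l 17059408)))))) (a (l 3) (a (c (a (l 17355792) (l 17360672)) (a (b (l 17101632) (l 17146096)) (b (l 17107576) (l 17152776)))) (c (a (l 17385712) (l 17409632)) (a (l 17140280) (l 17148928))))))), by decide +kernel⟩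

def k7_pp_022 : ∃ t, chk3 f_pp_022 t 5 6 1 = true :=
  ⟨(a (a (a (b (b (c (a (b (l 16842416) (l 16954408)) (b (l 16842112) (l 16956920))) (a (l 16528448) (l 16507568))) (c (a (l 17063328) (l 17089592)) (b (l 16477696) (l 16578504)))) (c (b (c (l 17329000) (l 17090128)) (l 17293176)) (b (a (l 16726224) (l 16722216)) (b (l 16835664) (l 16896040))))) (b (b (c (a (b (l 16843312) (l 16960224)) (b (a (l 16845696) (l 16848376)) (l 16965184))) (a (l 16479256) (a (l 16455984) (l 16457936)))) (c (a (l 17095360) (c (l 17248632) (l 16953688))) (a (l 16507448) (a (l 16502824) (l 16500992))))) (c (b (a (l 17221648) (l 17229368)) (a (l 17306960) (l 17315464))) (b (a (l 16719424) (a (l 16718264) (l 16718056))) (a (l 16868328) (a (l 16869664) (l 16870704))))))) (b (b (c (b (l 16859544) (l 16983680)) (l 16439672)) (c (b (l 17083864) (l 17165112)) (b (l 16417000) (l 16554840)))) (b (c (l 17259720) (l 16719472)) (c (l 17348816) (l 16881096))))) (b (b (c (b (a (l 16885680) (l 16814608)) (a (l 17020784)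 (l 17065064))) (b (a (l 16337256) (l 16310856)) (l 16387616))) (c (b (a (l 17128992) (l 17181080)) (l 17160120)) (b (l 16367480) (a (l 16547048) (l 16549072))))) (b (c (b (l 17316256) (l 17374344)) (b (l 16678752) (l 16788360))) (c (a (l 17409280) (l 17473952)) (a (l 16905408) (l 16935912)))))), by decide +kernel⟩

def k8_pp_022 : ∃ t, chk3 f_pp_022 t 5 7 1 = true :=
  ⟨(b (a (b (c (a (a (l 17352424) (a (l 17366088) (l 17374120))) (l 17407248)) (a (a (b (l 16950576) (l 17000296)) (a (l 16979664) (b (l 16956312) (l 17005312)))) (l 16996016))) (a (c (a (l 17392952) (l 17411048)) (a (l 17062760) (a (l 17065632) (l 17067024)))) (l 17264344))) (b (c (l 17498552) (b (l 17017384) (l 17066304))) (c (l 17532216) (l 17127648)))) (a (a (c (a (l 17425336) (l 17445528)) (a (l 17151944) (a (l 17154816) (l 17156000)))) (c (l 17474192) (l 17169760))) (c (l 17557192) (l 17215704)))), by decide +kernel⟩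

def k9_pp_022 : ∃ t, chk3 f_pp_022 t 3 1 1 = true :=
  ⟨(b (a (b (l 1) (b (l 1) (b (l 1) (a (a (b (l 1) (c (l 16742472) (l 16280272))) (l 1)) (l 1))))) (l 1)) (b (a (b (b (a (c (a (b (a (l 16839208) (l 16952008)) (c (l 17341376) (l 16878480))) (b (l 1) (l 17137216))) (a (b (l 16281776) (l 16285904)) (l 16317232))) (l 1)) (a (c (a (b (l 17238208) (l 17336176)) (b (l 17283664) (l 17398008))) (a (b (l 16381144) (l 16559248)) (b (l 16383944) (l 16575016)))) (b (l 1) (c (l 17446288) (l 16594736))))) (b (c (a (b (l 17448312) (l 17510624)) (a (l 17576952) (l 17616032))) (a (b (l 16719264) (l 16844784)) (a (b (l 16758312) (l 16899152)) (l 16854368)))) (a (c (l 17579152) (b (l 16948392) (l 17034032))) (c (b (l 17698328) (l 17742664)) (b (l 16884784) (l 17128896)))))) (b (l 1) (a (b (l 1) (c (l 17813776) (a (l 17138336) (l 1)))) (l 1)))) (a (b (a (b (c (l 17631440) (b (l 17097664) (l 17145208))) (c (l 17657624) (l 17204608))) (b (c (l 17775080) (b (l 17195888) (l 17242000))) (c (l 17792888)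 (l 17297320)))) (a (c (l 17673648) (l 17288968)) (c (l 17796560) (l 17374464)))) (a (b (b (c (l 17894240) (a (l 17291960) (l 17327560))) (c (l 17927552) (l 17396208))) (c (l 17926112) (l 17470024))) (b (b (l 1) (l 17744664)) (l 17676464)))))), by decide +kernel⟩

theorem s10_pp_022 : ∃ t, chk3 f_pp_022 t 5 3 1 = true := ex3_b k7_pp_022 k8_pp_022

theorem s11_pp_022 : ∃ t, chk3 f_pp_022 t 2 3 1 = true := ex3_a k6_pp_022 s10_pp_022

theorem s12_pp_022 : ∃ t, chk3 f_pp_022 t 5 5 1 = true := ex3_b k4_pp_022 k5_pp_022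

theorem s13_pp_022 : ∃ t, chk3 f_pp_022 t 5 2 1 = true := ex3_b k3_pp_022 s12_pp_022

theorem s14_pp_022 : ∃ t, chk3 f_pp_022 t 4 5 1 = true := ex3_b k1_pp_022 k2_pp_022

theorem s15_pp_022 : ∃ t, chk3 f_pp_022 t 4 2 1 = true := ex3_b k0_pp_022 s14_pp_022

theorem s16_pp_022 : ∃ t, chk3 f_pp_022 t 2 2 1 = true := ex3_a s15_pp_022 s13_pp_022

theorem s17_pp_022 : ∃ t, chk3 f_pp_022 t 2 1 1 = true := ex3_b s16_pp_022 s11_pp_022

theorem s18_pp_022 : ∃ t, chk3 f_pp_022 t 1 1 1 = true := ex3_a s17_pp_022 k9_pp_022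

theorem c_pp_022 : CertN 0 536870912 1073741824 536870912 201326592 134217728 3 false true true .pp 0 2 2
    ndN0q0 ndN3q2 pcN2 Cut.none Ext.none :=
  certN2 (fam := false) (s1 := true) (s2 := true) (a := 0) (b := 2) (c := 2) (cn := .pp) (n1 := ndN0q0) (n2 := ndN3q2) (pc := pcN2) (cut := Cut.none) (xt := Ext.none) (P1 := 0) (W1 := 536870912) (P2 := 1073741824) (W2 := 536870912) (P3 := 201326592) (W3 := 134217728) (N0 := 3)
    rfl (fun _ => rfl) s18_pp_022

noncomputable def f_pp_023 : ℕ → ℕ → ℕ → ℕ → Bool := onCell 1073741824 536870912 0 1230186008 201326592 134217728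
    (rowN 3 2 false true true .up 0 2 3 (qsf 0 536870912 0 1230186008 2) ndN0q0 ndN3q3 pcN2 Cut.none Ext.none)

def k0_pp_023 : ∃ t, chk3 f_pp_023 t 1 1 1 = true :=
  ⟨(b (a (l 2) (a (l 2) (a (b (l 2) (a (l 17304184) (l 17374816))) (b (l 17444776) (l 17478728))))) (b (a (b (l 2) (a (l 2) (a (l 2) (a (l 2) (l 17300808))))) (a (a (b (l 2) (a (l 17340304) (l 17379512))) (b (l 306655516439) (a (l 17406288) (l 17426864)))) (a (b (a (l 17371352) (l 17441856)) (a (l 17464680) (l 17517736))) (b (l 17538752) (l 17597568))))) (a (b (a (l 2) (b (a (a (l 2) (l 17297080)) (l 17442912)) (a (a (a (l 17303120) (l 17324912)) (l 17346304)) (a (l 17393064) (l 17441696))))) (a (a (b (l 2) (l 3)) (b (b (a (l 2) (c (l 17412552) (l 17216952))) (a (c (l 17397920) (a (l 17184432) (l 17197672))) (c (l 17437760) (l 17217200)))) (a (c (b (l 17410568) (a (l 17404664) (l 17431520))) (b (a (l 17168152) (l 17183272)) (a (b (l 17146752) (c (l 17195912) (l 85530705735))) (b (l 17164112) (l 17145992))))) (c (a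 (l 17455176) (l 17477512)) (a (b (l 17200928) (l 17176368)) (b (l 17215984) (l 17196016))))))) (a (b (a (c (l 17470152) (a (l 17234600) (l 17251400))) (l 17391656)) (a (c (b (l 17505816) (l 17519496)) (b (a (l 17231536) (l 17255016)) (a (l 17214904) (l 17237792)))) (c (l 17556536) (l 17274200)))) (b (a (l 17440640) (l 17488848)) (c (l 17632160) (a (l 17319952) (l 17363464))))))) (a (b (a (b (l 17446480) (l 17506336)) (b (l 17514080) (l 17568848))) (a (b (l 17803136) (c (l 17721496) (l 17429568))) (b (l 17616856) (c (l 17800544) (l 17511232))))) (a (b (a (l 17582848) (l 17617024)) (a (b (l 17664512) (l 17715208)) (l 17730304))) (b (l 17674528) (b (l 17752720) (l 17810640)))))))), by decide +kernel⟩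

theorem c_pp_023 : CertN 0 536870912 0 1230186008 201326592 134217728 3 false true true .up 0 2 3
    ndN0q0 ndN3q3 pcN2 Cut.none Ext.none :=
  certN2 (fam := false) (s1 := true) (s2 := true) (a := 0) (b := 2) (c := 3) (cn := .up) (n1 := ndN0q0) (n2 := ndN3q3) (pc := pcN2) (cut := Cut.none) (xt := Ext.none) (P1 := 0) (W1 := 536870912) (P2 := 0) (W2 := 1230186008) (P3 := 201326592) (W3 := 134217728) (N0 := 3)
    rfl (fun _ => rfl) k0_pp_023

noncomputable def f_pp_033 : ℕ → ℕ → ℕ → ℕ → Bool := onCell 1610612736 536870912 0 1230186008 201326592 134217728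
    (rowN 3 2 false true true .pnn 0 3 3 (qsf 0 536870912 0 1230186008 3) ndN0q0 ndN3q3 pcN3 Cut.none Ext.none)

def k0_pp_033 : ∃ t, chk3 f_pp_033 t 1 1 1 = true :=
  ⟨(a (b (a (b (a (l 17170608) (l 17317504)) (a (b (l 17185608) (l 17238984)) (b (l 17310384) (l 17351544)))) (a (b (l 17419896) (b (l 17408464) (l 17440208))) (c (l 17566176) (l 17589104)))) (b (a (b (a (l 17322616) (l 17413392)) (a (l 17427840) (l 17514912))) (a (b (l 17495736) (l 17595592)) (b (l 17564752) (l 17662936)))) (a (b (a (l 17580896) (l 17655648)) (b (a (l 17733656) (l 17795096)) (a (l 17853120) (l 17905184)))) (a (b (l 17731808) (b (l 17854560) (l 1))) (b (l 17797128) (l 1)))))) (a (b (a (b (l 4) (c (l 17556120) (l 17427016))) (l 4)) (b (a (b (l 17607864) (l 17711776)) (c (l 17784904) (l 17617048))) (l 1))) (b (l 4) (a (b (l 202436384295) (l 1)) (l 1))))), by decide +kernel⟩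

theorem c_pp_033 : CertN 0 536870912 0 1230186008 201326592 134217728 3 false true true .pnn 0 3 3
    ndN0q0 ndN3q3 pcN3 Cut.none Ext.none :=
  certN2 (fam := false) (s1 := true) (s2 := true) (a := 0) (b := 3) (c := 3) (cn := .pnn) (n1 := ndN0q0) (n2 := ndN3q3) (pc := pcN3) (cut := Cut.none) (xt := Ext.none) (P1 := 0) (W1 := 536870912) (P2 := 0) (W2 := 1230186008) (P3 := 201326592) (W3 := 134217728) (N0 := 3)
    rfl (fun _ => rfl) k0_pp_033

noncomputable def f_pp_101 : ℕ → ℕ → ℕ → ℕ → Bool := onCell 536870912 536870912 536870912 536870912 201326592 134217728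
    (rowN 3 0 false true true .npn 1 0 1 (qsf 536870912 536870912 536870912 536870912 0) ndN0q1 ndN3q1 pcN0 Cut.none Ext.none)

def k0_pp_101 : ∃ t, chk3 f_pp_101 t 1 1 1 = true :=
  ⟨(a (l 3) (l 5)), by decide +kernel⟩

theorem c_pp_101 : CertN 536870912 536870912 536870912 536870912 201326592 134217728 3 false true true .npn 1 0 1
    ndN0q1 ndN3q1 pcN0 Cut.none Ext.none :=
  certN0 (fam := false) (s1 := true) (s2 := true) (a := 1) (b := 0) (c := 1) (cn := .npn) (n1 := ndN0q1) (n2 := ndN3q1) (pc := pcN0) (cut := Cut.none) (xt := Ext.none) (P1 := 536870912) (W1 := 536870912) (P2 := 536870912) (W2 := 536870912) (P3 := 201326592) (W3 := 134217728) (N0 := 3)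
    rfl k0_pp_101

noncomputable def f_pp_102 : ℕ → ℕ → ℕ → ℕ → Bool := onCell 536870912 536870912 0 536870912 201326592 134217728
    (rowN 3 1 false true true .npp 1 0 2 (qsf 536870912 536870912 1073741824 536870912 0) ndN0q1 ndN3q2 pcN0 Cut.none Ext.none)

def k0_pp_102 : ∃ t, chk3 f_pp_102 t 1 1 1 = true :=
  ⟨(l 3), by decide +kernel⟩

theorem c_pp_102 : CertN 536870912 536870912 1073741824 536870912 201326592 134217728 3 false true true .npp 1 0 2
    ndN0q1 ndN3q2 pcN0 Cut.none Ext.none :=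
  certN1 (fam := false) (s1 := true) (s2 := true) (a := 1) (b := 0) (c := 2) (cn := .npp) (n1 := ndN0q1) (n2 := ndN3q2) (pc := pcN0) (cut := Cut.none) (xt := Ext.none) (P1 := 536870912) (W1 := 536870912) (P2 := 1073741824) (W2 := 536870912) (P3 := 201326592) (W3 := 134217728) (N0 := 3)
    rfl (fun _ => rfl) k0_pp_102

noncomputable def f_pp_112 : ℕ → ℕ → ℕ → ℕ → Bool := onCell 536870912 536870912 1073741824 536870912 201326592 134217728
    (rowN 3 0 false true true .dn 1 1 2 (qsf 536870912 536870912 1073741824 536870912 1) ndN0q1 ndN3q2 pcN1 Cut.none Ext.none)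

def k0_pp_112 : ∃ t, chk3 f_pp_112 t 1 1 1 = true :=
  ⟨(a (l 3) (l 3)), by decide +kernel⟩

theorem c_pp_112 : CertN 536870912 536870912 1073741824 536870912 201326592 134217728 3 false true true .dn 1 1 2
    ndN0q1 ndN3q2 pcN1 Cut.none Ext.none :=
  certN0 (fam := false) (s1 := true) (s2 := true) (a := 1) (b := 1) (c := 2) (cn := .dn) (n1 := ndN0q1) (n2 := ndN3q2) (pc := pcN1) (cut := Cut.none) (xt := Ext.none) (P1 := 536870912) (W1 := 536870912) (P2 := 1073741824) (W2 := 536870912) (P3 := 201326592) (W3 := 134217728) (N0 := 3)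
    rfl k0_pp_112

noncomputable def cut_pp_113 : Cut := Cut.of [[⟨0, 1, 0, 57167902⟩, ⟨1, 1, 0, 57167902⟩, ⟨2, 2, 0, 11758673⟩]]

noncomputable def f_pp_113 : ℕ → ℕ → ℕ → ℕ → Bool := onCell 536870912 536870912 0 1230186008 201326592 134217728
    (rowN 3 2 false true true .nn 1 1 3 (qsf 536870912 536870912 0 1230186008 1) ndN0q1 ndN3q3 pcN1 cut_pp_113 Ext.none)

def k0_pp_113 : ∃ t, chk3 f_pp_113 t 1 1 1 = true :=
  ⟨(b (a (l 2) (a (l 2) (a (l 3) (a (l 3) (b (b (l 6) (l 3)) (l 3)))))) (a (b (l 3) (a (l 3) (l 3))) (b (a (l 3) (l 3)) (l 3)))), by decide +kernel⟩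

theorem c_pp_113 : CertN 536870912 536870912 0 1230186008 201326592 134217728 3 false true true .nn 1 1 3
    ndN0q1 ndN3q3 pcN1 cut_pp_113 Ext.none :=
  certN2 (fam := false) (s1 := true) (s2 := true) (a := 1) (b := 1) (c := 3) (cn := .nn) (n1 := ndN0q1) (n2 := ndN3q3) (pc := pcN1) (cut := cut_pp_113) (xt := Ext.none) (P1 := 536870912) (W1 := 536870912) (P2 := 0) (W2 := 1230186008) (P3 := 201326592) (W3 := 134217728) (N0 := 3)
    rfl (fun _ => rfl) k0_pp_113

noncomputable def cut_pp_123 : Cut := Cut.of [[⟨0, 1, 0, 57167902⟩, ⟨1, 1, 0, 57167902⟩, ⟨2, 2, 0, 11758673⟩]]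

noncomputable def f_pp_123 : ℕ → ℕ → ℕ → ℕ → Bool := onCell 1073741824 536870912 0 1230186008 201326592 134217728
    (rowN 3 2 false true true .npn 1 2 3 (qsf 536870912 536870912 0 1230186008 2) ndN0q1 ndN3q3 pcN2 cut_pp_123 Ext.none)

def k0_pp_123 : ∃ t, chk3 f_pp_123 t 1 2 1 = true :=
  ⟨(b (a (b (a (a (a (l 6) (l 16801864)) (a (l 16830888) (a (l 16860056) (l 16880296)))) (a (a (a (l 16903240) (l 16926080)) (l 16948432)) (l 17008216))) (a (a (a (a (a (l 3) (b (a (b (l 6) (l 270213889111)) (l 103783950807)) (a (l 3) (l 269140211543)))) (a (b (l 16840576) (l 16861248)) (l 16874200))) (a (l 16836224) (l 16822208))) (a (l 16841128) (a (l 16867464) (l 16886400)))) (a (a (a (l 16908024) (l 16930016)) (l 16951720)) (l 17008640)))) (a (a (l 17108808) (l 17206312)) (a (l 17328616) (l 17445032)))) (a (b (a (a (a (a (l 3) (a (b (a (l 16864600) (l 16825408)) (l 212231935159)) (b (l 16832248) (l 16850928)))) (a (l 16999192) (l 16861192))) (a (l 16874304) (a (l 16898216) (l 16915672))))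 (a (a (a (l 16935976) (l 16957216)) (l 16980008)) (a (l 17021096) (l 17063152)))) (a (a (a (a (l 3) (a (l 3) (b (l 186462196455) (l 17005216)))) (a (b (l 16890632) (a (l 16922032) (l 16926536))) (b (l 16899368) (l 16983424)))) (a (l 17145776) (a (l 16953928) (l 16970608)))) (a (a (a (l 16989896) (l 17073968)) (l 17037680)) (a (l 17080560) (l 17120136))))) (a (a (a (l 17131904) (l 17173320)) (a (l 17212440) (l 17247040))) (a (a (l 17304192) (l 17375088)) (l 17480712))))), by decide +kernel⟩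

def k1_pp_123 : ∃ t, chk3 f_pp_123 t 1 3 1 = true :=
  ⟨(b (a (b (a (a (b (a (l 3) (a (c (l 16979872) (l 16951240)) (l 17042984))) (a (l 3) (a (l 181093736343) (l 17108616)))) (a (b (l 17119752) (l 17227688)) (a (l 17122680) (l 17074728)))) (a (a (a (l 17073192) (a (l 17089024) (l 17099776))) (l 17121208)) (a (l 17164760) (l 17204656)))) (a (a (a (l 3) (b (c (l 208474816023) (a (l 17035296) (l 17046096))) (a (c (l 17152448) (l 184852083751)) (c (l 17180808) (l 17099056))))) (a (b (a (l 17096344) (l 17106792)) (a (l 17155264) (l 17168616))) (a (b (l 17117392) (l 17178048)) (b (l 17133000) (l 17188304))))) (a (a (a (l 17177776) (b (l 17169888) (l 17220944))) (l 17265056)) (a (l 17262064) (l 17300808))))) (a (a (b (a (l 17239872) (l 17267472)) (a (l 17340504) (l 17380160))) (b (a (l 17292560) (l 17318032)) (a (l 17407664) (l 1)))) (a (b (a (l 17372072) (l 1)) (l 1)) (l 1)))) (a (b (a (a (a (l 3) (a (l 3) (b (a (l 152639963495) (l 17200704)) (c (l 17306544) (l 138681452263)))))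 (a (b (c (l 17275632) (a (l 17147712) (l 17163744))) (c (l 17353352) (a (l 17182112) (l 17192912)))) (b (l 17364632) (c (l 17368448) (l 17203840))))) (a (a (a (b (l 17254120) (l 17303144)) (b (l 17280112) (l 17345952))) (b (l 17297080) (l 17346552))) (b (a (l 17339408) (l 17383312)) (l 1)))) (a (a (b (a (l 3) (a (l 3) (a (l 3) (c (l 17362624) (l 336249836423))))) (l 3)) (b (a (c (a (l 17377928) (l 17397880)) (a (b (l 17189648) (l 17184440)) (l 17199976))) (a (b (l 17309240) (l 17320904)) (l 81639130503))) (a (a (b (c (l 17399624) (l 17168176)) (l 1)) (l 1)) (l 1)))) (a (a (a (b (l 17343072) (l 1)) (l 1)) (l 1)) (l 1)))) (l 1))), by decide +kernel⟩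

theorem s2_pp_123 : ∃ t, chk3 f_pp_123 t 1 1 1 = true := ex3_b k0_pp_123 k1_pp_123

theorem c_pp_123 : CertN 536870912 536870912 0 1230186008 201326592 134217728 3 false true true .npn 1 2 3
    ndN0q1 ndN3q3 pcN2 cut_pp_123 Ext.none :=
  certN2 (fam := false) (s1 := true) (s2 := true) (a := 1) (b := 2) (c := 3) (cn := .npn) (n1 := ndN0q1) (n2 := ndN3q3) (pc := pcN2) (cut := cut_pp_123) (xt := Ext.none) (P1 := 536870912) (W1 := 536870912) (P2 := 0) (W2 := 1230186008) (P3 := 201326592) (W3 := 134217728) (N0 := 3)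
    rfl (fun _ => rfl) s2_pp_123

noncomputable def f_pp_133 : ℕ → ℕ → ℕ → ℕ → Bool := onCell 536870912 536870912 0 1230186008 201326592 134217728
    (rowN 3 0 false true true .dn 1 3 3 (qsf 536870912 536870912 0 1230186008 3) ndN0q1 ndN3q3 pcN3 Cut.none Ext.none)

def k0_pp_133 : ∃ t, chk3 f_pp_133 t 1 1 1 = true :=
  ⟨(b (b (a (a (a (l 17184304) (l 1)) (l 1)) (l 1)) (l 1)) (l 1)), by decide +kernel⟩

theorem c_pp_133 : CertN 536870912 536870912 0 1230186008 201326592 134217728 3 false true true .dn 1 3 3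
    ndN0q1 ndN3q3 pcN3 Cut.none Ext.none :=
  certN0 (fam := false) (s1 := true) (s2 := true) (a := 1) (b := 3) (c := 3) (cn := .dn) (n1 := ndN0q1) (n2 := ndN3q3) (pc := pcN3) (cut := Cut.none) (xt := Ext.none) (P1 := 536870912) (W1 := 536870912) (P2 := 0) (W2 := 1230186008) (P3 := 201326592) (W3 := 134217728) (N0 := 3)
    rfl k0_pp_133

noncomputable def f_pp_202 : ℕ → ℕ → ℕ → ℕ → Bool := onCell 0 536870912 1073741824 536870912 201326592 134217728
    (rowN 3 0 false true true .pp 2 0 2 (qsf 0 536870912 1073741824 536870912 0) ndN0q2 ndN3q2 pcN0 Cut.none Ext.none)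

def k0_pp_202 : ∃ t, chk3 f_pp_202 t 1 1 1 = true :=
  ⟨(l 3), by decide +kernel⟩

theorem c_pp_202 : CertN 0 536870912 1073741824 536870912 201326592 134217728 3 false true true .pp 2 0 2
    ndN0q2 ndN3q2 pcN0 Cut.none Ext.none :=
  certN0 (fam := false) (s1 := true) (s2 := true) (a := 2) (b := 0) (c := 2) (cn := .pp) (n1 := ndN0q2) (n2 := ndN3q2) (pc := pcN0) (cut := Cut.none) (xt := Ext.none) (P1 := 0) (W1 := 536870912) (P2 := 1073741824) (W2 := 536870912) (P3 := 201326592) (W3 := 134217728) (N0 := 3)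
    rfl k0_pp_202

noncomputable def f_pp_203 : ℕ → ℕ → ℕ → ℕ → Bool := onCell 0 536870912 0 1230186008 201326592 134217728
    (rowN 3 0 false true true .up 2 0 3 (qsf 0 536870912 0 1230186008 0) ndN0q2 ndN3q3 pcN0 Cut.none Ext.none)

def k0_pp_203 : ∃ t, chk3 f_pp_203 t 1 1 1 = true :=
  ⟨(b (l 2) (l 3)), by decide +kernel⟩

theorem c_pp_203 : CertN 0 536870912 0 1230186008 201326592 134217728 3 false true true .up 2 0 3
    ndN0q2 ndN3q3 pcN0 Cut.none Ext.none :=
  certN0 (fam := false) (s1 := true) (s2 := true) (a := 2) (b := 0) (c := 3) (cn := .up) (n1 := ndN0q2) (n2 := ndN3q3) (pc := pcN0) (cut := Cut.none) (xt := Ext.none) (P1 := 0) (W1 := 536870912) (P2 := 0) (W2 := 1230186008) (P3 := 201326592) (W3 := 134217728) (N0 := 3)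
    rfl k0_pp_203

noncomputable def cut_pp_213 : Cut := Cut.of [[⟨0, 1, 0, 57167902⟩, ⟨1, 1, 0, 57167902⟩, ⟨2, 2, 0, 11758673⟩]]

noncomputable def f_pp_213 : ℕ → ℕ → ℕ → ℕ → Bool := onCell 0 536870912 0 1230186008 201326592 134217728
    (rowN 3 0 false true true .pnn 2 1 3 (qsf 0 536870912 0 1230186008 1) ndN0q2 ndN3q3 pcN1 cut_pp_213 Ext.none)

def k0_pp_213 : ∃ t, chk3 f_pp_213 t 1 1 1 = true :=
  ⟨(b (a (l 3) (b (a (l 3) (a (l 3) (b (l 6) (l 3)))) (l 3))) (l 3)), by decide +kernel⟩

theorem c_pp_213 : CertN 0 536870912 0 1230186008 201326592 134217728 3 false true true .pnn 2 1 3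
    ndN0q2 ndN3q3 pcN1 cut_pp_213 Ext.none :=
  certN0 (fam := false) (s1 := true) (s2 := true) (a := 2) (b := 1) (c := 3) (cn := .pnn) (n1 := ndN0q2) (n2 := ndN3q3) (pc := pcN1) (cut := cut_pp_213) (xt := Ext.none) (P1 := 0) (W1 := 536870912) (P2 := 0) (W2 := 1230186008) (P3 := 201326592) (W3 := 134217728) (N0 := 3)
    rfl k0_pp_213

noncomputable def f_pm_001 : ℕ → ℕ → ℕ → ℕ → Bool := onCell 0 536870912 536870912 536870912 201326592 134217728
    (rowN 3 0 false true false .up 0 0 1 (qsf 0 536870912 536870912 536870912 0) ndN0q0 ndN3q1 pcN0 Cut.none Ext.none)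

def k0_pm_001 : ∃ t, chk3 f_pm_001 t 1 1 1 = true :=
  ⟨(l 4), by decide +kernel⟩

theorem c_pm_001 : CertN 0 536870912 536870912 536870912 201326592 134217728 3 false true false .up 0 0 1
    ndN0q0 ndN3q1 pcN0 Cut.none Ext.none :=
  certN0 (fam := false) (s1 := true) (s2 := false) (a := 0) (b := 0) (c := 1) (cn := .up) (n1 := ndN0q0) (n2 := ndN3q1) (pc := pcN0) (cut := Cut.none) (xt := Ext.none) (P1 := 0) (W1 := 536870912) (P2 := 536870912) (W2 := 536870912) (P3 := 201326592) (W3 := 134217728) (N0 := 3)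
    rfl k0_pm_001

noncomputable def f_pm_011 : ℕ → ℕ → ℕ → ℕ → Bool := onCell 0 536870912 536870912 536870912 201326592 134217728
    (rowN 3 0 false true false .pnn 0 1 1 (qsf 0 536870912 536870912 536870912 1) ndN0q0 ndN3q1 pcN1 Cut.none Ext.none)

def k0_pm_011 : ∃ t, chk3 f_pm_011 t 1 1 1 = true :=
  ⟨(l 4), by decide +kernel⟩

theorem c_pm_011 : CertN 0 536870912 536870912 536870912 201326592 134217728 3 false true false .pnn 0 1 1
    ndN0q0 ndN3q1 pcN1 Cut.none Ext.none :=
  certN0 (fam := false) (s1 := true) (s2 := false) (a := 0) (b := 1) (c := 1) (cn := .pnn) (n1 := ndN0q0) (n2 := ndN3q1) (pc := pcN1) (cut := Cut.none) (xt := Ext.none) (P1 := 0) (W1 := 536870912) (P2 := 536870912) (W2 := 536870912) (P3 := 201326592) (W3 := 134217728) (N0 := 3)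
    rfl k0_pm_011

noncomputable def f_pm_012 : ℕ → ℕ → ℕ → ℕ → Bool := onCell 0 536870912 1073741824 536870912 201326592 134217728
    (rowN 3 0 false true false .pnp 0 1 2 (qsf 0 536870912 1073741824 536870912 1) ndN0q0 ndN3q2 pcN1 Cut.none Ext.none)

def k0_pm_012 : ∃ t, chk3 f_pm_012 t 2 1 1 = true :=
  ⟨(l 4), by decide +kernel⟩

def k1_pm_012 : ∃ t, chk3 f_pm_012 t 3 2 1 = true :=
  ⟨(a (b (a (l 4) (a (l 4) (a (l 4) (b (l 4) (l 4))))) (l 4)) (b (a (b (c (a (b (l 17438920) (l 17522064)) (l 17556144)) (a (b (l 16965360) (l 16998232)) (b (l 17066552) (l 17109712)))) (b (c (l 44796979223) (a (l 17034032) (l 17155040))) (b (c (l 17709976) (l 36742642695)) (c (a (l 17709096) (l 17786080)) (a (l 41037729623) (l 17212600)))))) (b (c (l 17649968) (a (l 17176016) (l 17252144))) (b (c (l 17769864) (l 17294072)) (b (c (l 17829464) (l 17334008)) (c (l 17866568) (b (l 17354048) (l 17367112))))))) (b (b (b (a (c (l 52850613815) (a (l 4) (l 17236160))) (c (l 17904344) (l 17385288))) (c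 (a (b (l 17818880) (a (l 4) (l 17873640))) (b (l 17929832) (l 17946744))) (a (b (l 36205905895) (a (l 4) (b (l 17261040) (l 17266584)))) (b (l 17403472) (b (l 17412272) (l 17418208)))))) (c (a (l 54998360135) (l 17981024)) (a (a (l 4) (l 17289784)) (b (l 17431904) (l 17455992))))) (b (c (a (l 57682735895) (l 18046056)) (a (a (l 4) (l 17338104)) (l 17491896))) (a (c (l 18018464) (a (l 4) (l 17389536))) (a (c (l 18099320) (l 17500360)) (c (l 18117152) (l 17578776)))))))), by decide +kernel⟩

def k2_pm_012 : ∃ t, chk3 f_pm_012 t 3 3 1 = true :=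
  ⟨(a (l 4) (b (a (a (l 4) (b (c (l 64125798183) (b (l 17440480) (l 17503512))) (c (l 18331544) (b (l 17575856) (l 4))))) (b (a (c (l 18202896) (b (l 17555728) (l 17615536))) (b (c (l 18176568) (l 17629496)) (c (l 18236168) (l 17682696)))) (b (a (c (l 18310248) (l 17680904)) (c (l 18299248) (a (l 17728264) (l 17746376)))) (a (a (l 18042152) (c (l 18379136) (l 17769648))) (a (c (l 18363560) (l 17791712)) (c (l 18338456) (l 17800976))))))) (a (l 4) (b (b (a (c (l 18463168) (l 17823784)) (b (a (l 18126648) (l 18115464)) (l 18154696))) (c (l 18519816) (l 17905904))) (c (l 18621632) (a (l 17981728) (l 18014520))))))), by decide +kernel⟩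

theorem s3_pm_012 : ∃ t, chk3 f_pm_012 t 3 1 1 = true := ex3_b k1_pm_012 k2_pm_012

theorem s4_pm_012 : ∃ t, chk3 f_pm_012 t 1 1 1 = true := ex3_a k0_pm_012 s3_pm_012

theorem c_pm_012 : CertN 0 536870912 1073741824 536870912 201326592 134217728 3 false true false .pnp 0 1 2
    ndN0q0 ndN3q2 pcN1 Cut.none Ext.none :=
  certN0 (fam := false) (s1 := true) (s2 := false) (a := 0) (b := 1) (c := 2) (cn := .pnp) (n1 := ndN0q0) (n2 := ndN3q2) (pc := pcN1) (cut := Cut.none) (xt := Ext.none) (P1 := 0) (W1 := 536870912) (P2 := 1073741824) (W2 := 536870912) (P3 := 201326592) (W3 := 134217728) (N0 := 3)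
    rfl s4_pm_012

noncomputable def f_pm_022 : ℕ → ℕ → ℕ → ℕ → Bool := onCell 1073741824 536870912 1073741824 536870912 201326592 134217728
    (rowN 3 2 false true false .pp 0 2 2 (qsf 0 536870912 1073741824 536870912 2) ndN0q0 ndN3q2 pcN2 Cut.none Ext.none)

def k0_pm_022 : ∃ t, chk3 f_pm_022 t 1 1 1 = true :=
  ⟨(a (b (l 4) (b (l 4) (a (b (l 4) (a (c (l 18578928) (l 18010640)) (l 4))) (l 4)))) (l 4)), by decide +kernel⟩

theorem c_pm_022 : CertN 0 536870912 1073741824 536870912 201326592 134217728 3 false true false .pp 0 2 2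
    ndN0q0 ndN3q2 pcN2 Cut.none Ext.none :=
  certN2 (fam := false) (s1 := true) (s2 := false) (a := 0) (b := 2) (c := 2) (cn := .pp) (n1 := ndN0q0) (n2 := ndN3q2) (pc := pcN2) (cut := Cut.none) (xt := Ext.none) (P1 := 0) (W1 := 536870912) (P2 := 1073741824) (W2 := 536870912) (P3 := 201326592) (W3 := 134217728) (N0 := 3)
    rfl (fun _ => rfl) k0_pm_022

noncomputable def f_pm_023 : ℕ → ℕ → ℕ → ℕ → Bool := onCell 0 536870912 0 1230186008 201326592 134217728
    (rowN 3 0 false true false .up 0 2 3 (qsf 0 536870912 0 1230186008 2) ndN0q0 ndN3q3 pcN2 Cut.none Ext.none)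

def k0_pm_023 : ∃ t, chk3 f_pm_023 t 1 1 1 = true :=
  ⟨(a (b (l 2) (l 4)) (a (b (l 2) (b (l 4) (l 4))) (b (b (a (l 2) (l 17491272)) (a (b (l 17548144) (l 17637304)) (l 17590352))) (b (b (a (l 17758120) (l 17744552)) (a (l 17902504) (l 17893752))) (a (b (l 18289840) (l 4)) (b (l 18066720) (b (l 18203656) (l 18296664)))))))), by decide +kernel⟩

theorem c_pm_023 : CertN 0 536870912 0 1230186008 201326592 134217728 3 false true false .up 0 2 3
    ndN0q0 ndN3q3 pcN2 Cut.none Ext.none :=
  certN0 (fam := false) (s1 := true) (s2 := false) (a := 0) (b := 2) (c := 3) (cn := .up) (n1 := ndN0q0) (n2 := ndN3q3) (pc := pcN2) (cut := Cut.none) (xt := Ext.none) (P1 := 0) (W1 := 536870912) (P2 := 0) (W2 := 1230186008) (P3 := 201326592) (W3 := 134217728) (N0 := 3)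
    rfl k0_pm_023

noncomputable def f_pm_033 : ℕ → ℕ → ℕ → ℕ → Bool := onCell 1610612736 536870912 0 1230186008 201326592 134217728
    (rowN 3 2 false true false .pnn 0 3 3 (qsf 0 536870912 0 1230186008 3) ndN0q0 ndN3q3 pcN3 Cut.none Ext.none)

def k0_pm_033 : ∃ t, chk3 f_pm_033 t 1 1 1 = true :=
  ⟨(b (a (a (b (a (l 17273080) (l 17391192)) (a (c (l 17599192) (l 17450584)) (b (l 17581720) (l 4)))) (b (a (l 6142304023) (l 4)) (l 4))) (l 4)) (a (b (a (l 4) (l 4)) (l 4)) (l 4))), by decide +kernel⟩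

theorem c_pm_033 : CertN 0 536870912 0 1230186008 201326592 134217728 3 false true false .pnn 0 3 3
    ndN0q0 ndN3q3 pcN3 Cut.none Ext.none :=
  certN2 (fam := false) (s1 := true) (s2 := false) (a := 0) (b := 3) (c := 3) (cn := .pnn) (n1 := ndN0q0) (n2 := ndN3q3) (pc := pcN3) (cut := Cut.none) (xt := Ext.none) (P1 := 0) (W1 := 536870912) (P2 := 0) (W2 := 1230186008) (P3 := 201326592) (W3 := 134217728) (N0 := 3)
    rfl (fun _ => rfl) k0_pm_033

noncomputable def f_pm_101 : ℕ → ℕ → ℕ → ℕ → Bool := onCell 536870912 536870912 536870912 536870912 201326592 134217728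
    (rowN 3 0 false true false .npn 1 0 1 (qsf 536870912 536870912 536870912 536870912 0) ndN0q1 ndN3q1 pcN0 Cut.none Ext.none)

def k0_pm_101 : ∃ t, chk3 f_pm_101 t 1 1 1 = true :=
  ⟨(l 4), by decide +kernel⟩

theorem c_pm_101 : CertN 536870912 536870912 536870912 536870912 201326592 134217728 3 false true false .npn 1 0 1
    ndN0q1 ndN3q1 pcN0 Cut.none Ext.none :=
  certN0 (fam := false) (s1 := true) (s2 := false) (a := 1) (b := 0) (c := 1) (cn := .npn) (n1 := ndN0q1) (n2 := ndN3q1) (pc := pcN0) (cut := Cut.none) (xt := Ext.none) (P1 := 536870912) (W1 := 536870912) (P2 := 536870912) (W2 := 536870912) (P3 := 201326592) (W3 := 134217728) (N0 := 3)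
    rfl k0_pm_101

noncomputable def f_pm_102 : ℕ → ℕ → ℕ → ℕ → Bool := onCell 536870912 536870912 1073741824 536870912 201326592 134217728
    (rowN 3 0 false true false .npp 1 0 2 (qsf 536870912 536870912 1073741824 536870912 0) ndN0q1 ndN3q2 pcN0 Cut.none Ext.none)

def k0_pm_102 : ∃ t, chk3 f_pm_102 t 2 1 1 = true :=
  ⟨(b (a (b (a (b (c (a (l 17515640) (l 17714536)) (a (l 17566464) (l 17610952))) (b (a (l 2) (c (l 17484448) (l 17363312))) (l 2))) (b (c (l 17579904) (a (l 17354016) (l 17346136))) (b (a (l 17408568) (l 17382096)) (b (l 17386168) (l 17376792))))) (b (a (l 2) (b (b (l 17368080) (l 2)) (l 2))) (l 2))) (b (a (b (c (l 17413328) (l 17374432)) (b (c (l 17367232) (l 17298520)) (b (l 17319936) (l 17301760)))) (b (c (l 17386160) (l 17310328)) (b (c (l 17310784) (l 17254752)) (b (l 17254936) (l 17227960))))) (b (b (b (a (l 17284120) (l 17201272)) (a (l 45199338391) (c (l 17175752) (l 17153064)))) (a (l 17218536) (l 17215856))) (a (b (l 17171240) (l 2)) (b (l 17056312)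 (l 17004200)))))) (a (l 2) (b (b (a (l 2) (l 16925752)) (l 2)) (l 2)))), by decide +kernel⟩

def k1_pm_102 : ∃ t, chk3 f_pm_102 t 3 1 1 = true :=
  ⟨(b (a (b (a (b (c (l 17354760) (l 17321480)) (b (l 17465584) (b (l 17188328) (l 17153672)))) (b (c (l 17308848) (l 17464736)) (b (l 17420960) (b (l 17299968) (l 17288144))))) (b (b (b (a (l 17117552) (l 17053360)) (a (c (l 17081160) (l 17075480)) (l 17166640))) (a (l 17033872) (l 16967672))) (a (l 17187488) (b (l 16917392) (l 16908440))))) (b (a (b (b (c (l 17290584) (l 17202688)) (c (l 17199616) (l 17137360))) (b (c (l 17106536) (l 17071120)) (b (l 17158960) (b (l 17029048) (l 17018184))))) (b (b (c (a (l 17241136) (l 17201584)) (a (l 17151320) (l 17109824))) (a (l 17234296) (c (l 17094088) (l 17054968)))) (b (a (l 17083776) (l 17130032)) (b (a (l 17056952) (l 16992376)) (c (l 17085544) (l 17170392)))))) (b (b (b (a (l 17002512) (a (l 16995928) (l 16972144))) (a (b (l 16992144) (l 16991608)) (b (l 17046936) (a (l 16943896) (l 16950928)))))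 (a (l 17043888) (a (l 16870136) (l 17030000)))) (a (b (l 16964832) (l 16903048)) (b (b (l 16997528) (l 16923264)) (l 16909176)))))) (b (a (b (a (l 17021896) (l 17154216)) (a (l 16870856) (l 16984640))) (b (a (l 17162336) (b (l 16922344) (a (l 17016536) (l 16995464)))) (a (l 17069656) (b (a (l 17077000) (l 17072432)) (a (l 17128160) (l 17129840)))))) (a (b (l 17216688) (l 2)) (b (a (l 17382968) (b (a (l 17178648) (l 17189448)) (l 17463576))) (a (l 17201616) (a (l 17261056) (l 17293352))))))), by decide +kernel⟩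

theorem s2_pm_102 : ∃ t, chk3 f_pm_102 t 1 1 1 = true := ex3_a k0_pm_102 k1_pm_102

theorem c_pm_102 : CertN 536870912 536870912 1073741824 536870912 201326592 134217728 3 false true false .npp 1 0 2
    ndN0q1 ndN3q2 pcN0 Cut.none Ext.none :=
  certN0 (fam := false) (s1 := true) (s2 := false) (a := 1) (b := 0) (c := 2) (cn := .npp) (n1 := ndN0q1) (n2 := ndN3q2) (pc := pcN0) (cut := Cut.none) (xt := Ext.none) (P1 := 536870912) (W1 := 536870912) (P2 := 1073741824) (W2 := 536870912) (P3 := 201326592) (W3 := 134217728) (N0 := 3)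
    rfl s2_pm_102

noncomputable def f_pm_112 : ℕ → ℕ → ℕ → ℕ → Bool := onCell 536870912 536870912 1073741824 536870912 201326592 134217728
    (rowN 3 0 false true false .dn 1 1 2 (qsf 536870912 536870912 1073741824 536870912 1) ndN0q1 ndN3q2 pcN1 Cut.none Ext.none)

def k0_pm_112 : ∃ t, chk3 f_pm_112 t 2 2 1 = true :=
  ⟨(a (b (a (b (c (l 17751464) (a (l 17319608) (l 17380456))) (b (c (l 17855840) (l 17430952)) (b (c (l 17906608) (l 17470336)) (c (l 17979096) (a (l 17466424) (l 17521208)))))) (b (c (l 17833040) (a (l 141768812807) (l 1))) (b (c (l 17914208) (l 17526976)) (b (l 17754776) (c (l 17970448) (l 17574992)))))) (b (a (c (b (b (l 18051496) (b (l 17987424) (l 18126080))) (a (l 18018848) (l 18023672))) (b (b (a (l 17492272) (l 17544200)) (b (a (l 17509680) (l 17558936)) (a (l 17521264) (l 17568592)))) (a (l 17544456) (l 17586904)))) (b (b (c (l 17990704) (l 17592912)) (c (l 18007400) (b (l 17604024) (l 17611288)))) (a (c (l 18019448) (l 17613480)) (l 17823280)))) (c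 (a (b (a (l 18071048) (l 18062944)) (l 18281696)) (b (a (l 18045200) (l 18029960)) (a (l 18073024) (l 18039848)))) (a (b (a (l 17589168) (l 17623624)) (a (l 17632416) (l 17660496))) (b (a (l 17642440) (l 17653040)) (a (l 17671736) (l 17672256))))))) (a (b (b (l 1) (b (l 1) (b (l 1) (c (l 17993464) (l 17623880))))) (b (b (b (c (l 18005808) (l 17635312)) (c (l 18014408) (b (l 17641368) (l 17645216)))) (c (l 18010376) (l 17647320))) (b (l 17853648) (a (c (l 18013784) (l 17667336)) (l 17827712))))) (b (l 1) (b (b (l 1) (l 204047118407)) (b (l 17825904) (l 17805472)))))), by decide +kernel⟩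

def k1_pm_112 : ∃ t, chk3 f_pm_112 t 2 3 1 = true :=
  ⟨(a (b (a (b (b (a (c (l 18166856) (l 17674496)) (l 17921288)) (a (c (l 18213288) (l 17717752)) (l 17957504))) (b (a (c (l 18258824) (l 17762664)) (c (l 18211216) (l 17767344))) (a (a (l 18060664) (l 18047880)) (l 18041368)))) (b (b (a (l 17906976) (c (l 18050680) (l 17689432))) (a (l 17934936) (l 17899912))) (b (a (l 17956504) (l 17907784)) (c (l 18124512) (l 17763296))))) (a (b (a (b (b (c (l 18336776) (l 17847704)) (l 18121248)) (a (l 18175800) (l 18157856))) (b (l 18059296) (l 18112400))) (a (l 18264536) (b (a (l 18180736) (l 18149088)) (l 18226032)))) (b (b (c (l 18145720) (l 17790616)) (a (l 18040904) (l 17963256))) (a (b (l 18088560) (l 18142952)) (b (l 17997176) (l 18044072)))))) (b (b (a (b (a (l 17888136) (l 17821048)) (c (l 17984096) (l 17676184))) (b (l 17780928) (l 17753200))) (a (b (l 17828240) (l 17818872)) (b (l 17726480) (l 17699360)))) (b (a (b (l 17819608) (l 17841504)) (b (l 17703856) (l 17700912)))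 (a (b (l 17870880) (l 17898096)) (l 17718616))))), by decide +kernel⟩

def k2_pm_112 : ∃ t, chk3 f_pm_112 t 3 1 1 = true :=
  ⟨(b (a (b (l 1) (b (l 1) (a (b (l 1) (l 17773464)) (l 1)))) (l 1)) (a (b (b (a (b (l 17733592) (l 17687424)) (b (l 1) (l 17646912))) (a (b (l 17651584) (l 17612224)) (l 17806248))) (b (b (l 17555584) (l 17543288)) (l 17523704))) (b (a (b (l 1) (l 249680550967)) (l 1)) (b (a (l 17459408) (a (l 314641715351) (l 1))) (a (l 17393952) (a (l 17362120) (l 17350744))))))), by decide +kernel⟩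

theorem s3_pm_112 : ∃ t, chk3 f_pm_112 t 2 1 1 = true := ex3_b k0_pm_112 k1_pm_112

theorem s4_pm_112 : ∃ t, chk3 f_pm_112 t 1 1 1 = true := ex3_a s3_pm_112 k2_pm_112

theorem c_pm_112 : CertN 536870912 536870912 1073741824 536870912 201326592 134217728 3 false true false .dn 1 1 2
    ndN0q1 ndN3q2 pcN1 Cut.none Ext.none :=
  certN0 (fam := false) (s1 := true) (s2 := false) (a := 1) (b := 1) (c := 2) (cn := .dn) (n1 := ndN0q1) (n2 := ndN3q2) (pc := pcN1) (cut := Cut.none) (xt := Ext.none) (P1 := 536870912) (W1 := 536870912) (P2 := 1073741824) (W2 := 536870912) (P3 := 201326592) (W3 := 134217728) (N0 := 3)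
    rfl s4_pm_112

noncomputable def cut_pm_113 : Cut := Cut.of [[⟨0, 1, 0, 57167902⟩, ⟨1, 1, 0, 57167902⟩, ⟨2, 2, 0, 11758673⟩]]

noncomputable def f_pm_113 : ℕ → ℕ → ℕ → ℕ → Bool := onCell 536870912 536870912 0 1230186008 201326592 134217728
    (rowN 3 0 false true false .nn 1 1 3 (qsf 536870912 536870912 0 1230186008 1) ndN0q1 ndN3q3 pcN1 cut_pm_113 Ext.none)

def k0_pm_113 : ∃ t, chk3 f_pm_113 t 1 1 1 = true :=
  ⟨(b (a (l 2) (a (l 2) (b (a (l 2) (a (l 2) (b (l 6) (a (l 16807072) (l 16851696))))) (a (b (l 16850816) (l 16898576)) (b (a (l 16847568) (l 16897408)) (a (l 16915976) (l 16924416))))))) (b (a (b (l 2) (a (l 2) (a (l 2) (l 17674528)))) (a (b (a (l 2) (l 17016752)) (a (l 17308400) (l 17067968))) (b (a (l 16988072) (a (l 17006024) (l 17016056))) (a (l 17093864) (a (l 17113928) (l 17128824)))))) (a (b (a (l 2) (a (b (l 18002432) (l 17941016)) (l 17629840))) (a (b (a (l 2) (l 18195720)) (a (c (l 18514752) (l 18160928)) (b (l 18106616) (a (l 18108120) (l 17973504)))))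 (a (b (l 17875384) (l 17803448)) (l 17588720)))) (a (b (a (l 17347240) (l 17191152)) (a (l 17393960) (l 17287064))) (b (a (l 17412800) (b (l 17208576) (a (l 17252112) (l 17272288)))) (a (b (l 17273752) (l 17312640)) (b (a (l 17294792) (l 17312016)) (a (l 17322240) (l 17329448))))))))), by decide +kernel⟩

theorem c_pm_113 : CertN 536870912 536870912 0 1230186008 201326592 134217728 3 false true false .nn 1 1 3
    ndN0q1 ndN3q3 pcN1 cut_pm_113 Ext.none :=
  certN0 (fam := false) (s1 := true) (s2 := false) (a := 1) (b := 1) (c := 3) (cn := .nn) (n1 := ndN0q1) (n2 := ndN3q3) (pc := pcN1) (cut := cut_pm_113) (xt := Ext.none) (P1 := 536870912) (W1 := 536870912) (P2 := 0) (W2 := 1230186008) (P3 := 201326592) (W3 := 134217728) (N0 := 3)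
    rfl k0_pm_113

noncomputable def cut_pm_123 : Cut := Cut.of [[⟨0, 1, 0, 57167902⟩, ⟨1, 1, 0, 57167902⟩, ⟨2, 2, 0, 11758673⟩]]

noncomputable def f_pm_123 : ℕ → ℕ → ℕ → ℕ → Bool := onCell 1073741824 536870912 0 1230186008 201326592 134217728
    (rowN 3 2 false true false .npn 1 2 3 (qsf 536870912 536870912 0 1230186008 2) ndN0q1 ndN3q3 pcN2 cut_pm_123 Ext.none)

def k0_pm_123 : ∃ t, chk3 f_pm_123 t 1 1 1 = true :=
  ⟨(b (b (a (a (a (a (b (l 6) (l 16876416)) (b (l 16809088) (l 16845056))) (a (l 17056504) (a (l 16903832) (l 16927888)))) (a (a (a (l 16954128) (b (l 16946624) (l 17009392))) (l 17005552)) (l 17154464))) (a (a (l 17178728) (l 17417888)) (a (l 17399048) (l 17468496)))) (a (a (a (b (a (l 16884696) (l 16939904)) (l 17080048)) (a (b (l 16998344) (l 17170904)) (a (l 17127600) (l 17154600)))) (a (a (a (l 17181624) (b (l 17123488) (l 17294560))) (l 17243552)) (b (l 17398336) (l 17579064)))) (a (a (b (l 17346128) (l 17501800)) (b (l 17443728) (l 17569200))) (a (l 17561272)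 (l 17595992))))) (b (a (b (a (a (l 17318984) (a (l 17409512) (l 17462232))) (a (a (l 17510288) (l 17552592)) (l 17613536))) (a (a (l 17791000) (a (l 17691976) (l 17734016))) (a (l 17786176) (l 17837888)))) (a (b (a (l 17678656) (l 17723448)) (a (l 17883784) (l 17898080))) (a (b (l 17752920) (l 1)) (l 1)))) (a (a (b (a (b (l 17878512) (l 18048256)) (b (l 17939848) (l 18082040))) (b (a (l 18199632) (l 18205440)) (a (l 18458656) (l 293705416359)))) (b (a (l 18170192) (b (l 18010600) (l 1))) (a (b (l 18186616) (l 1)) (l 1)))) (l 1)))), by decide +kernel⟩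

theorem c_pm_123 : CertN 536870912 536870912 0 1230186008 201326592 134217728 3 false true false .npn 1 2 3
    ndN0q1 ndN3q3 pcN2 cut_pm_123 Ext.none :=
  certN2 (fam := false) (s1 := true) (s2 := false) (a := 1) (b := 2) (c := 3) (cn := .npn) (n1 := ndN0q1) (n2 := ndN3q3) (pc := pcN2) (cut := cut_pm_123) (xt := Ext.none) (P1 := 536870912) (W1 := 536870912) (P2 := 0) (W2 := 1230186008) (P3 := 201326592) (W3 := 134217728) (N0 := 3)
    rfl (fun _ => rfl) k0_pm_123

noncomputable def f_pm_133 : ℕ → ℕ → ℕ → ℕ → Bool := onCell 536870912 536870912 0 1230186008 201326592 134217728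
    (rowN 3 0 false true false .dn 1 3 3 (qsf 536870912 536870912 0 1230186008 3) ndN0q1 ndN3q3 pcN3 Cut.none Ext.none)

def k0_pm_133 : ∃ t, chk3 f_pm_133 t 1 1 1 = true :=
  ⟨(b (b (a (a (a (l 98282007143) (l 1)) (l 1)) (l 1)) (l 1)) (l 1)), by decide +kernel⟩

theorem c_pm_133 : CertN 536870912 536870912 0 1230186008 201326592 134217728 3 false true false .dn 1 3 3
    ndN0q1 ndN3q3 pcN3 Cut.none Ext.none :=
  certN0 (fam := false) (s1 := true) (s2 := false) (a := 1) (b := 3) (c := 3) (cn := .dn) (n1 := ndN0q1) (n2 := ndN3q3) (pc := pcN3) (cut := Cut.none) (xt := Ext.none) (P1 := 536870912) (W1 := 536870912) (P2 := 0) (W2 := 1230186008) (P3 := 201326592) (W3 := 134217728) (N0 := 3)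
    rfl k0_pm_133

noncomputable def f_pm_202 : ℕ → ℕ → ℕ → ℕ → Bool := onCell 0 536870912 1073741824 536870912 201326592 134217728
    (rowN 3 0 false true false .pp 2 0 2 (qsf 0 536870912 1073741824 536870912 0) ndN0q2 ndN3q2 pcN0 Cut.none Ext.none)

def k0_pm_202 : ∃ t, chk3 f_pm_202 t 2 1 1 = true :=
  ⟨(b (l 3) (l 3)), by decide +kernel⟩

def k1_pm_202 : ∃ t, chk3 f_pm_202 t 6 4 1 = true :=
  ⟨(a (b (l 1) (b (l 1) (b (a (l 3) (l 3)) (l 3)))) (b (l 1) (b (a (b (l 1) (b (a (l 1) (l 333430111911)) (c (a (l 16589472) (l 16636176)) (l 278132314983)))) (b (b (l 1) (l 350610147383)) (c (l 16789832) (a (l 16672224) (l 16702720))))) (b (a (c (a (b (b (l 130090197559) (l 138680126791)) (l 138143227959)) (c (l 16680952) (l 16678808))) (a (b (b (l 16604296) (l 16600432)) (l 137069499527)) (c (l 16676416) (l 16673792)))) (a (c (l 16622408) (l 16616184)) (l 16654232))) (a (a (b (c (l 137606381079) (l 16605528)) (c (a (l 139217009655) (l 16621752)) (a (l 139753875927) (l 16595064))))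 (b (a (l 16618080) (l 16609008)) (c (l 16655520) (l 16629056)))) (b (a (l 16617088) (l 16615176)) (a (l 16645984) (l 16611992)))))))), by decide +kernel⟩

def k2_pm_202 : ∃ t, chk3 f_pm_202 t 6 5 1 = true :=
  ⟨(b (b (b (b (a (l 3) (c (a (a (c (l 139217027495) (l 139753895719)) (l 16619952)) (l 16656864)) (a (a (l 123647755607) (l 16611720)) (l 16649248)))) (a (l 3) (a (a (a (c (l 134921991207) (l 137606377223)) (c (l 16604992) (l 16597000))) (c (l 16599528) (l 16590608))) (a (l 16636152) (l 16628568))))) (a (l 3) (b (a (a (c (l 133848322599) (l 131163930263)) (c (l 16600176) (l 16590664))) (a (l 16615784) (l 16633624))) (a (b (c (a (l 137606394375) (l 16600184)) (l 130090226967)) (a (b (c (l 134385110231) (l 139216997735)) (c (l 133848301639) (l 133311413223))) (c (l 16705112) (a (l 16669312) (l 16658080))))) (b (l 16646696) (b (l 16625576) (l 16667096))))))) (a (l 3) (a (a (a (l 3) (b (c (l 137069544615) (l 138680148311)) (c (l 136532667319) (l 138680140503)))) (c (b (l 16617000)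 (l 16616112)) (b (l 16607392) (l 16606512)))) (c (b (l 16627080) (l 16625896)) (a (l 16704456) (l 16703032)))))) (a (l 3) (b (a (a (l 3) (c (b (l 16635328) (l 132237727959)) (b (l 16605064) (l 16623320)))) (b (c (l 16623304) (l 16612680)) (c (l 16618544) (l 16608600)))) (a (a (l 3) (c (b (l 132237703655) (l 133848430439)) (b (l 134922067479) (l 134922050343)))) (c (a (l 16663480) (l 16697512)) (b (l 16602552) (l 16594624))))))), by decide +kernel⟩

def k3_pm_202 : ∃ t, chk3 f_pm_202 t 7 2 1 = true :=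
  ⟨(b (a (b (b (l 1) (a (b (l 1) (b (l 1) (l 16851344))) (b (b (l 16972584) (l 16951096)) (l 16918016)))) (b (a (a (b (l 16798736) (l 16744792)) (l 16908016)) (c (l 16866328) (l 16830552))) (b (a (l 16769032) (l 16773920)) (a (b (l 16663344) (l 16703856)) (l 16928312))))) (b (b (a (b (l 1) (c (l 266859190759) (a (l 17015696) (l 17021632)))) (c (l 17166568) (l 17095080))) (a (b (a (l 17001736) (l 17028488)) (l 16972496)) (b (l 17065624) (l 17029560)))) (b (a (l 16909792) (l 16972872)) (b (l 16981608) (b (l 16842832) (a (l 16781768) (l 16856408))))))) (b (b (b (a (a (a (l 16715248) (l 16726936)) (l 16863352)) (a (l 16739984) (l 16817872))) (a (b (a (l 16646992) (l 16663456)) (a (a (l 16839456) (l 16826016)) (l 16837888))) (b (a (l 16701160) (l 16776832)) (b (l 16723528) (l 16948744))))) (a (a (a (l 16790312) (l 16762576)) (l 16797536)) (b (l 16839952) (l 16711280)))) (b (a (a (b (l 16657824) (l 16653232)) (b (l 16690128) (l 16691600))) (b (l 16718616) (l 16724680))) (a (a (l 16725200)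 (l 16681896)) (l 16830160))))), by decide +kernel⟩

def k4_pm_202 : ∃ t, chk3 f_pm_202 t 3 3 1 = true :=
  ⟨(b (b (a (a (l 3) (a (a (l 3) (a (l 3) (b (c (b (l 132774744375) (l 134385480887)) (b (l 16562152) (l 16582904))) (c (c (l 137070664519) (l 137607134423)) (l 165523655431))))) (b (b (c (l 16865592) (l 16585080)) (c (l 16954384) (l 16573424))) (b (c (l 16942608) (l 16582432)) (c (l 128480287287) (l 129553449367)))))) (a (b (b (l 16734376) (l 16750760)) (c (l 17078696) (l 16681136))) (b (l 16792592) (c (l 17116024) (l 16753704))))) (a (a (l 3) (a (l 3) (b (c (b (l 129554146519) (l 130627978343)) (a (b (l 133311540839) (l 134922189287)) (b (l 16733432) (l 16795696)))) (b (c (l 132238667655) (a (l 137069982903) (l 16848368))) (c (l 133312478007) (a (l 139217558183) (l 16893176))))))) (a (a (b (c (l 17165464) (l 16783232)) (c (l 17231208) (l 16883744))) (b (l 16994192) (l 17072840))) (b (l 17029792) (l 17141160))))) (b (a (a (l 3) (a (l 3) (b (b (c (l 135459961175) (a (l 141365134711)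 (l 16939544))) (c (l 137607464823) (l 138680878599))) (c (l 141902541191) (l 142439089735))))) (b (a (b (c (l 17277272) (l 16958856)) (a (l 16916824) (l 17162128))) (c (l 17316176) (l 17024104))) (a (a (c (l 17324160) (l 17056064)) (l 17206320)) (l 17231704)))) (a (a (l 3) (a (l 3) (c (l 153714157159) (b (l 143512946439) (l 149418606135))))) (a (c (a (l 17348904) (l 17366648)) (a (b (l 17115688) (l 17157000)) (l 17157816))) (a (l 17280296) (l 17297912)))))), by decide +kernel⟩

theorem s5_pm_202 : ∃ t, chk3 f_pm_202 t 6 2 1 = true := ex3_b k1_pm_202 k2_pm_202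

theorem s6_pm_202 : ∃ t, chk3 f_pm_202 t 3 2 1 = true := ex3_a s5_pm_202 k3_pm_202

theorem s7_pm_202 : ∃ t, chk3 f_pm_202 t 3 1 1 = true := ex3_b s6_pm_202 k4_pm_202

theorem s8_pm_202 : ∃ t, chk3 f_pm_202 t 1 1 1 = true := ex3_a k0_pm_202 s7_pm_202

theorem c_pm_202 : CertN 0 536870912 1073741824 536870912 201326592 134217728 3 false true false .pp 2 0 2
    ndN0q2 ndN3q2 pcN0 Cut.none Ext.none :=
  certN0 (fam := false) (s1 := true) (s2 := false) (a := 2) (b := 0) (c := 2) (cn := .pp) (n1 := ndN0q2) (n2 := ndN3q2) (pc := pcN0) (cut := Cut.none) (xt := Ext.none) (P1 := 0) (W1 := 536870912) (P2 := 1073741824) (W2 := 536870912) (P3 := 201326592) (W3 := 134217728) (N0 := 3)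
    rfl s8_pm_202

noncomputable def f_pm_203 : ℕ → ℕ → ℕ → ℕ → Bool := onCell 0 536870912 0 1230186008 201326592 134217728
    (rowN 3 0 false true false .up 2 0 3 (qsf 0 536870912 0 1230186008 0) ndN0q2 ndN3q3 pcN0 Cut.none Ext.none)

def k0_pm_203 : ∃ t, chk3 f_pm_203 t 1 1 1 = true :=
  ⟨(b (l 2) (b (l 2) (a (l 3) (b (l 2) (a (b (l 3) (a (l 3) (l 3))) (a (b (a (a (a (l 3) (l 2)) (l 2)) (l 2)) (a (c (b (l 17399760) (l 17409648)) (a (b (l 144049852199) (b (l 17145232) (l 133849071847))) (b (l 17173384) (l 17143248)))) (c (l 17436064) (b (l 17189520) (l 17154112))))) (b (l 2) (c (l 17484776) (a (l 17193728) (l 17214528)))))))))), by decide +kernel⟩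

theorem c_pm_203 : CertN 0 536870912 0 1230186008 201326592 134217728 3 false true false .up 2 0 3
    ndN0q2 ndN3q3 pcN0 Cut.none Ext.none :=
  certN0 (fam := false) (s1 := true) (s2 := false) (a := 2) (b := 0) (c := 3) (cn := .up) (n1 := ndN0q2) (n2 := ndN3q3) (pc := pcN0) (cut := Cut.none) (xt := Ext.none) (P1 := 0) (W1 := 536870912) (P2 := 0) (W2 := 1230186008) (P3 := 201326592) (W3 := 134217728) (N0 := 3)
    rfl k0_pm_203

noncomputable def cut_pm_213 : Cut := Cut.of [[⟨0, 1, 0, 57167902⟩, ⟨1, 1, 0, 57167902⟩, ⟨2, 2, 0, 11758673⟩]]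

noncomputable def f_pm_213 : ℕ → ℕ → ℕ → ℕ → Bool := onCell 0 536870912 0 1230186008 201326592 134217728
    (rowN 3 0 false true false .pnn 2 1 3 (qsf 0 536870912 0 1230186008 1) ndN0q2 ndN3q3 pcN1 cut_pm_213 Ext.none)

def k0_pm_213 : ∃ t, chk3 f_pm_213 t 1 1 1 = true :=
  ⟨(b (a (l 3) (a (l 3) (b (a (l 3) (b (l 6) (a (l 3) (a (b (a (l 3) (b (l 6) (l 263234558215))) (b (a (l 426980201287) (l 255718402535)) (l 255181507847))) (b (b (l 6) (l 16822240)) (l 16815656)))))) (a (b (l 3) (l 3)) (b (a (a (l 3) (b (l 402284187655) (a (l 455971327543) (l 249276129991)))) (a (b (b (l 254644739415) (l 16837528)) (l 16880616)) (b (l 16818240) (l 16868160)))) (a (a (b (l 450602678759) (l 234780642103)) (b (l 240149430535) (l 16926216))) (b (l 16940240) (l 16938872)))))))) (b (a (l 3) (a (l 3) (b (a (a (l 3) (b (l 3) (l 314774596247))) (b (a (l 220822353591) (l 16985968)) (a (l 203105504663) (l 17039192)))) (a (a (l 3) (b (l 212232473015) (c (l 17173760) (l 199884485079)))) (b (a (l 17082112)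 (l 17097800)) (a (l 17145856) (l 17160664))))))) (a (l 3) (b (a (l 3) (a (b (a (l 3) (c (l 17249896) (l 135460148567))) (a (c (l 186463112231) (l 184315276231)) (c (l 17315256) (b (l 17175512) (l 17188016))))) (b (a (l 17207640) (l 17222280)) (a (l 17259048) (l 17275200))))) (a (b (l 3) (l 1)) (a (b (b (a (c (l 179483800391) (l 177872874999)) (l 17272672)) (a (c (l 177873292455) (l 176262319559)) (c (l 17369128) (l 17190928)))) (b (a (c (l 175189026439) (a (l 178409666007) (l 17166640))) (c (l 17377936) (l 17176776))) (l 1))) (b (a (l 17289344) (l 17309296)) (b (l 17303304) (l 17441008))))))))), by decide +kernel⟩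

theorem c_pm_213 : CertN 0 536870912 0 1230186008 201326592 134217728 3 false true false .pnn 2 1 3
    ndN0q2 ndN3q3 pcN1 cut_pm_213 Ext.none :=
  certN0 (fam := false) (s1 := true) (s2 := false) (a := 2) (b := 1) (c := 3) (cn := .pnn) (n1 := ndN0q2) (n2 := ndN3q3) (pc := pcN1) (cut := cut_pm_213) (xt := Ext.none) (P1 := 0) (W1 := 536870912) (P2 := 0) (W2 := 1230186008) (P3 := 201326592) (W3 := 134217728) (N0 := 3)
    rfl k0_pm_213

noncomputable def f_mm_001 : ℕ → ℕ → ℕ → ℕ → Bool := onCell 0 536870912 0 536870912 201326592 134217728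
    (rowN 3 1 false false false .up 0 0 1 (qsf 0 536870912 536870912 536870912 0) ndN0q0 ndN3q1 pcN0 Cut.none Ext.none)

def k0_mm_001 : ∃ t, chk3 f_mm_001 t 1 1 1 = true :=
  ⟨(l 3), by decide +kernel⟩

theorem c_mm_001 : CertN 0 536870912 536870912 536870912 201326592 134217728 3 false false false .up 0 0 1
    ndN0q0 ndN3q1 pcN0 Cut.none Ext.none :=
  certN1 (fam := false) (s1 := false) (s2 := false) (a := 0) (b := 0) (c := 1) (cn := .up) (n1 := ndN0q0) (n2 := ndN3q1) (pc := pcN0) (cut := Cut.none) (xt := Ext.none) (P1 := 0) (W1 := 536870912) (P2 := 536870912) (W2 := 536870912) (P3 := 201326592) (W3 := 134217728) (N0 := 3)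
    rfl (fun _ => rfl) k0_mm_001

noncomputable def f_mm_011 : ℕ → ℕ → ℕ → ℕ → Bool := onCell 0 536870912 536870912 536870912 201326592 134217728
    (rowN 3 1 false false false .pnn 0 1 1 (qsf 0 536870912 536870912 536870912 1) ndN0q0 ndN3q1 pcN1 Cut.none Ext.none)

def k0_mm_011 : ∃ t, chk3 f_mm_011 t 1 1 1 = true :=
  ⟨(l 5), by decide +kernel⟩

theorem c_mm_011 : CertN 0 536870912 536870912 536870912 201326592 134217728 3 false false false .pnn 0 1 1
    ndN0q0 ndN3q1 pcN1 Cut.none Ext.none :=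
  certN1 (fam := false) (s1 := false) (s2 := false) (a := 0) (b := 1) (c := 1) (cn := .pnn) (n1 := ndN0q0) (n2 := ndN3q1) (pc := pcN1) (cut := Cut.none) (xt := Ext.none) (P1 := 0) (W1 := 536870912) (P2 := 536870912) (W2 := 536870912) (P3 := 201326592) (W3 := 134217728) (N0 := 3)
    rfl (fun _ => rfl) k0_mm_011

noncomputable def f_mm_012 : ℕ → ℕ → ℕ → ℕ → Bool := onCell 0 536870912 1073741824 536870912 201326592 134217728
    (rowN 3 0 false false false .pnp 0 1 2 (qsf 0 536870912 1073741824 536870912 1) ndN0q0 ndN3q2 pcN1 Cut.none Ext.none)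

def k0_mm_012 : ∃ t, chk3 f_mm_012 t 1 1 1 = true :=
  ⟨(l 5), by decide +kernel⟩

theorem c_mm_012 : CertN 0 536870912 1073741824 536870912 201326592 134217728 3 false false false .pnp 0 1 2
    ndN0q0 ndN3q2 pcN1 Cut.none Ext.none :=
  certN0 (fam := false) (s1 := false) (s2 := false) (a := 0) (b := 1) (c := 2) (cn := .pnp) (n1 := ndN0q0) (n2 := ndN3q2) (pc := pcN1) (cut := Cut.none) (xt := Ext.none) (P1 := 0) (W1 := 536870912) (P2 := 1073741824) (W2 := 536870912) (P3 := 201326592) (W3 := 134217728) (N0 := 3)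
    rfl k0_mm_012

noncomputable def f_mm_022 : ℕ → ℕ → ℕ → ℕ → Bool := onCell 0 536870912 1073741824 536870912 201326592 134217728
    (rowN 3 0 false false false .pp 0 2 2 (qsf 0 536870912 1073741824 536870912 2) ndN0q0 ndN3q2 pcN2 Cut.none Ext.none)

def k0_mm_022 : ∃ t, chk3 f_mm_022 t 1 1 1 = true :=
  ⟨(l 5), by decide +kernel⟩

theorem c_mm_022 : CertN 0 536870912 1073741824 536870912 201326592 134217728 3 false false false .pp 0 2 2
    ndN0q0 ndN3q2 pcN2 Cut.none Ext.none :=
  certN0 (fam := false) (s1 := false) (s2 := false) (a := 0) (b := 2) (c := 2) (cn := .pp) (n1 := ndN0q0) (n2 := ndN3q2) (pc := pcN2) (cut := Cut.none) (xt := Ext.none) (P1 := 0) (W1 := 536870912) (P2 := 1073741824) (W2 := 536870912) (P3 := 201326592) (W3 := 134217728) (N0 := 3)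
    rfl k0_mm_022

noncomputable def f_mm_023 : ℕ → ℕ → ℕ → ℕ → Bool := onCell 0 536870912 0 1230186008 201326592 134217728
    (rowN 3 0 false false false .up 0 2 3 (qsf 0 536870912 0 1230186008 2) ndN0q0 ndN3q3 pcN2 Cut.none Ext.none)

def k0_mm_023 : ∃ t, chk3 f_mm_023 t 1 1 1 = true :=
  ⟨(l 5), by decide +kernel⟩

theorem c_mm_023 : CertN 0 536870912 0 1230186008 201326592 134217728 3 false false false .up 0 2 3
    ndN0q0 ndN3q3 pcN2 Cut.none Ext.none :=
  certN0 (fam := false) (s1 := false) (s2 := false) (a := 0) (b := 2) (c := 3) (cn := .up) (n1 := ndN0q0) (n2 := ndN3q3) (pc := pcN2) (cut := Cut.none) (xt := Ext.none) (P1 := 0) (W1 := 536870912) (P2 := 0) (W2 := 1230186008) (P3 := 201326592) (W3 := 134217728) (N0 := 3)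
    rfl k0_mm_023

noncomputable def f_mm_033 : ℕ → ℕ → ℕ → ℕ → Bool := onCell 0 536870912 0 1230186008 201326592 134217728
    (rowN 3 0 false false false .pnn 0 3 3 (qsf 0 536870912 0 1230186008 3) ndN0q0 ndN3q3 pcN3 Cut.none Ext.none)

def k0_mm_033 : ∃ t, chk3 f_mm_033 t 1 1 1 = true :=
  ⟨(l 5), by decide +kernel⟩

theorem c_mm_033 : CertN 0 536870912 0 1230186008 201326592 134217728 3 false false false .pnn 0 3 3
    ndN0q0 ndN3q3 pcN3 Cut.none Ext.none :=
  certN0 (fam := false) (s1 := false) (s2 := false) (a := 0) (b := 3) (c := 3) (cn := .pnn) (n1 := ndN0q0) (n2 := ndN3q3) (pc := pcN3) (cut := Cut.none) (xt := Ext.none) (P1 := 0) (W1 := 536870912) (P2 := 0) (W2 := 1230186008) (P3 := 201326592) (W3 := 134217728) (N0 := 3)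
    rfl k0_mm_033

noncomputable def cut_mm_101 : Cut := Cut.of [[⟨0, 1, 0, 67108864⟩, ⟨1, 0, 0, 67108864⟩, ⟨2, 1, 0, 67108864⟩]]

noncomputable def f_mm_101 : ℕ → ℕ → ℕ → ℕ → Bool := onCell 536870912 536870912 0 536870912 201326592 134217728
    (rowN 3 1 false false false .npn 1 0 1 (qsf 536870912 536870912 536870912 536870912 0) ndN0q1 ndN3q1 pcN0 cut_mm_101 Ext.none)

def k0_mm_101 : ∃ t, chk3 f_mm_101 t 1 1 1 = true :=
  ⟨(a (l 3) (b (a (l 3) (b (b (b (a (l 3) (a (l 3) (l 6))) (l 3)) (l 3)) (l 3))) (l 3))), by decide +kernel⟩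

theorem c_mm_101 : CertN 536870912 536870912 536870912 536870912 201326592 134217728 3 false false false .npn 1 0 1
    ndN0q1 ndN3q1 pcN0 cut_mm_101 Ext.none :=
  certN1 (fam := false) (s1 := false) (s2 := false) (a := 1) (b := 0) (c := 1) (cn := .npn) (n1 := ndN0q1) (n2 := ndN3q1) (pc := pcN0) (cut := cut_mm_101) (xt := Ext.none) (P1 := 536870912) (W1 := 536870912) (P2 := 536870912) (W2 := 536870912) (P3 := 201326592) (W3 := 134217728) (N0 := 3)
    rfl (fun _ => rfl) k0_mm_101

noncomputable def f_mm_102 : ℕ → ℕ → ℕ → ℕ → Bool := onCell 536870912 536870912 0 536870912 201326592 134217728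
    (rowN 3 1 false false false .npp 1 0 2 (qsf 536870912 536870912 1073741824 536870912 0) ndN0q1 ndN3q2 pcN0 Cut.none Ext.none)

def k0_mm_102 : ∃ t, chk3 f_mm_102 t 1 1 1 = true :=
  ⟨(l 3), by decide +kernel⟩

theorem c_mm_102 : CertN 536870912 536870912 1073741824 536870912 201326592 134217728 3 false false false .npp 1 0 2
    ndN0q1 ndN3q2 pcN0 Cut.none Ext.none :=
  certN1 (fam := false) (s1 := false) (s2 := false) (a := 1) (b := 0) (c := 2) (cn := .npp) (n1 := ndN0q1) (n2 := ndN3q2) (pc := pcN0) (cut := Cut.none) (xt := Ext.none) (P1 := 536870912) (W1 := 536870912) (P2 := 1073741824) (W2 := 536870912) (P3 := 201326592) (W3 := 134217728) (N0 := 3)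
    rfl (fun _ => rfl) k0_mm_102

noncomputable def f_mm_112 : ℕ → ℕ → ℕ → ℕ → Bool := onCell 536870912 536870912 1073741824 536870912 201326592 134217728
    (rowN 3 2 false false false .dn 1 1 2 (qsf 536870912 536870912 1073741824 536870912 1) ndN0q1 ndN3q2 pcN1 Cut.none Ext.none)

def k0_mm_112 : ∃ t, chk3 f_mm_112 t 1 1 1 = true :=
  ⟨(l 5), by decide +kernel⟩

theorem c_mm_112 : CertN 536870912 536870912 1073741824 536870912 201326592 134217728 3 false false false .dn 1 1 2
    ndN0q1 ndN3q2 pcN1 Cut.none Ext.none :=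
  certN2 (fam := false) (s1 := false) (s2 := false) (a := 1) (b := 1) (c := 2) (cn := .dn) (n1 := ndN0q1) (n2 := ndN3q2) (pc := pcN1) (cut := Cut.none) (xt := Ext.none) (P1 := 536870912) (W1 := 536870912) (P2 := 1073741824) (W2 := 536870912) (P3 := 201326592) (W3 := 134217728) (N0 := 3)
    rfl (fun _ => rfl) k0_mm_112

noncomputable def f_mm_113 : ℕ → ℕ → ℕ → ℕ → Bool := onCell 536870912 536870912 0 1230186008 201326592 134217728
    (rowN 3 0 false false false .nn 1 1 3 (qsf 536870912 536870912 0 1230186008 1) ndN0q1 ndN3q3 pcN1 Cut.none Ext.none)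

def k0_mm_113 : ∃ t, chk3 f_mm_113 t 1 1 1 = true :=
  ⟨(b (l 5) (l 5)), by decide +kernel⟩

theorem c_mm_113 : CertN 536870912 536870912 0 1230186008 201326592 134217728 3 false false false .nn 1 1 3
    ndN0q1 ndN3q3 pcN1 Cut.none Ext.none :=
  certN0 (fam := false) (s1 := false) (s2 := false) (a := 1) (b := 1) (c := 3) (cn := .nn) (n1 := ndN0q1) (n2 := ndN3q3) (pc := pcN1) (cut := Cut.none) (xt := Ext.none) (P1 := 536870912) (W1 := 536870912) (P2 := 0) (W2 := 1230186008) (P3 := 201326592) (W3 := 134217728) (N0 := 3)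
    rfl k0_mm_113

noncomputable def f_mm_123 : ℕ → ℕ → ℕ → ℕ → Bool := onCell 536870912 536870912 0 1230186008 201326592 134217728
    (rowN 3 0 false false false .npn 1 2 3 (qsf 536870912 536870912 0 1230186008 2) ndN0q1 ndN3q3 pcN2 Cut.none Ext.none)

def k0_mm_123 : ∃ t, chk3 f_mm_123 t 1 1 1 = true :=
  ⟨(b (l 5) (l 5)), by decide +kernel⟩

theorem c_mm_123 : CertN 536870912 536870912 0 1230186008 201326592 134217728 3 false false false .npn 1 2 3
    ndN0q1 ndN3q3 pcN2 Cut.none Ext.none :=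
  certN0 (fam := false) (s1 := false) (s2 := false) (a := 1) (b := 2) (c := 3) (cn := .npn) (n1 := ndN0q1) (n2 := ndN3q3) (pc := pcN2) (cut := Cut.none) (xt := Ext.none) (P1 := 536870912) (W1 := 536870912) (P2 := 0) (W2 := 1230186008) (P3 := 201326592) (W3 := 134217728) (N0 := 3)
    rfl k0_mm_123

noncomputable def f_mm_133 : ℕ → ℕ → ℕ → ℕ → Bool := onCell 1610612736 536870912 0 1230186008 201326592 134217728
    (rowN 3 2 false false false .dn 1 3 3 (qsf 536870912 536870912 0 1230186008 3) ndN0q1 ndN3q3 pcN3 Cut.none Ext.none)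

def k0_mm_133 : ∃ t, chk3 f_mm_133 t 1 1 1 = true :=
  ⟨(l 5), by decide +kernel⟩

theorem c_mm_133 : CertN 536870912 536870912 0 1230186008 201326592 134217728 3 false false false .dn 1 3 3
    ndN0q1 ndN3q3 pcN3 Cut.none Ext.none :=
  certN2 (fam := false) (s1 := false) (s2 := false) (a := 1) (b := 3) (c := 3) (cn := .dn) (n1 := ndN0q1) (n2 := ndN3q3) (pc := pcN3) (cut := Cut.none) (xt := Ext.none) (P1 := 536870912) (W1 := 536870912) (P2 := 0) (W2 := 1230186008) (P3 := 201326592) (W3 := 134217728) (N0 := 3)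
    rfl (fun _ => rfl) k0_mm_133

noncomputable def f_mm_202 : ℕ → ℕ → ℕ → ℕ → Bool := onCell 0 536870912 1073741824 536870912 201326592 134217728
    (rowN 3 0 false false false .pp 2 0 2 (qsf 0 536870912 1073741824 536870912 0) ndN0q2 ndN3q2 pcN0 Cut.none Ext.none)

def k0_mm_202 : ∃ t, chk3 f_mm_202 t 1 1 1 = true :=
  ⟨(l 3), by decide +kernel⟩

theorem c_mm_202 : CertN 0 536870912 1073741824 536870912 201326592 134217728 3 false false false .pp 2 0 2
    ndN0q2 ndN3q2 pcN0 Cut.none Ext.none :=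
  certN0 (fam := false) (s1 := false) (s2 := false) (a := 2) (b := 0) (c := 2) (cn := .pp) (n1 := ndN0q2) (n2 := ndN3q2) (pc := pcN0) (cut := Cut.none) (xt := Ext.none) (P1 := 0) (W1 := 536870912) (P2 := 1073741824) (W2 := 536870912) (P3 := 201326592) (W3 := 134217728) (N0 := 3)
    rfl k0_mm_202

noncomputable def f_mm_203 : ℕ → ℕ → ℕ → ℕ → Bool := onCell 0 536870912 0 1230186008 201326592 134217728
    (rowN 3 0 false false false .up 2 0 3 (qsf 0 536870912 0 1230186008 0) ndN0q2 ndN3q3 pcN0 Cut.none Ext.none)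

def k0_mm_203 : ∃ t, chk3 f_mm_203 t 1 1 1 = true :=
  ⟨(b (l 2) (l 3)), by decide +kernel⟩

theorem c_mm_203 : CertN 0 536870912 0 1230186008 201326592 134217728 3 false false false .up 2 0 3
    ndN0q2 ndN3q3 pcN0 Cut.none Ext.none :=
  certN0 (fam := false) (s1 := false) (s2 := false) (a := 2) (b := 0) (c := 3) (cn := .up) (n1 := ndN0q2) (n2 := ndN3q3) (pc := pcN0) (cut := Cut.none) (xt := Ext.none) (P1 := 0) (W1 := 536870912) (P2 := 0) (W2 := 1230186008) (P3 := 201326592) (W3 := 134217728) (N0 := 3)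
    rfl k0_mm_203

noncomputable def f_mm_213 : ℕ → ℕ → ℕ → ℕ → Bool := onCell 0 536870912 0 1230186008 201326592 134217728
    (rowN 3 0 false false false .pnn 2 1 3 (qsf 0 536870912 0 1230186008 1) ndN0q2 ndN3q3 pcN1 Cut.none Ext.none)

def k0_mm_213 : ∃ t, chk3 f_mm_213 t 1 1 1 = true :=
  ⟨(b (a (l 3) (l 5)) (l 3)), by decide +kernel⟩

theorem c_mm_213 : CertN 0 536870912 0 1230186008 201326592 134217728 3 false false false .pnn 2 1 3
    ndN0q2 ndN3q3 pcN1 Cut.none Ext.none :=
  certN0 (fam := false) (s1 := false) (s2 := false) (a := 2) (b := 1) (c := 3) (cn := .pnn) (n1 := ndN0q2) (n2 := ndN3q3) (pc := pcN1) (cut := Cut.none) (xt := Ext.none) (P1 := 0) (W1 := 536870912) (P2 := 0) (W2 := 1230186008) (P3 := 201326592) (W3 := 134217728) (N0 := 3)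
    rfl k0_mm_213

end Pool.Agent.Strip051.G.I3_16_5_16.Tab.C.NB03

namespace Pool.Agent.Strip051.G.I3_16_5_16.Tab.C.NB04

open Pool.Agent.Strip051.PB Pool.Agent.Strip051.PB.T
open Pool.Agent.Strip051.G.I3_16_5_16.Tab

noncomputable def f_pp_001 : ℕ → ℕ → ℕ → ℕ → Bool := onCell 0 536870912 0 536870912 201326592 134217728
    (rowN 3 1 false true true .up 0 0 1 (qsf 0 536870912 536870912 536870912 0) ndN0q0 ndN4q1 pcN0 Cut.none Ext.none)

def k0_pp_001 : ∃ t, chk3 f_pp_001 t 1 1 1 = true :=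
  ⟨(l 3), by decide +kernel⟩

theorem c_pp_001 : CertN 0 536870912 536870912 536870912 201326592 134217728 3 false true true .up 0 0 1
    ndN0q0 ndN4q1 pcN0 Cut.none Ext.none :=
  certN1 (fam := false) (s1 := true) (s2 := true) (a := 0) (b := 0) (c := 1) (cn := .up) (n1 := ndN0q0) (n2 := ndN4q1) (pc := pcN0) (cut := Cut.none) (xt := Ext.none) (P1 := 0) (W1 := 536870912) (P2 := 536870912) (W2 := 536870912) (P3 := 201326592) (W3 := 134217728) (N0 := 3)
    rfl (fun _ => rfl) k0_pp_001

noncomputable def cut_pp_011 : Cut := Cut.of [[⟨0, 0, 0, 67108864⟩, ⟨1, 1, 0, 67108864⟩, ⟨2, 1, 0, 67108864⟩]]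

noncomputable def f_pp_011 : ℕ → ℕ → ℕ → ℕ → Bool := onCell 0 536870912 536870912 536870912 201326592 134217728
    (rowN 3 1 false true true .pnn 0 1 1 (qsf 0 536870912 536870912 536870912 1) ndN0q0 ndN4q1 pcN1 cut_pp_011 Ext.none)

def k0_pp_011 : ∃ t, chk3 f_pp_011 t 1 1 1 = true :=
  ⟨(b (l 3) (a (b (l 3) (a (b (l 3) (a (b (l 3) (a (l 6) (l 3))) (l 3))) (l 3))) (l 3))), by decide +kernel⟩

theorem c_pp_011 : CertN 0 536870912 536870912 536870912 201326592 134217728 3 false true true .pnn 0 1 1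
    ndN0q0 ndN4q1 pcN1 cut_pp_011 Ext.none :=
  certN1 (fam := false) (s1 := true) (s2 := true) (a := 0) (b := 1) (c := 1) (cn := .pnn) (n1 := ndN0q0) (n2 := ndN4q1) (pc := pcN1) (cut := cut_pp_011) (xt := Ext.none) (P1 := 0) (W1 := 536870912) (P2 := 536870912) (W2 := 536870912) (P3 := 201326592) (W3 := 134217728) (N0 := 3)
    rfl (fun _ => rfl) k0_pp_011

noncomputable def f_pp_012 : ℕ → ℕ → ℕ → ℕ → Bool := onCell 0 536870912 536870912 536870912 201326592 134217728
    (rowN 3 1 false true true .pnp 0 1 2 (qsf 0 536870912 1073741824 536870912 1) ndN0q0 ndN4q2 pcN1 Cut.none Ext.none)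

def k0_pp_012 : ∃ t, chk3 f_pp_012 t 1 1 1 = true :=
  ⟨(l 3), by decide +kernel⟩

theorem c_pp_012 : CertN 0 536870912 1073741824 536870912 201326592 134217728 3 false true true .pnp 0 1 2
    ndN0q0 ndN4q2 pcN1 Cut.none Ext.none :=
  certN1 (fam := false) (s1 := true) (s2 := true) (a := 0) (b := 1) (c := 2) (cn := .pnp) (n1 := ndN0q0) (n2 := ndN4q2) (pc := pcN1) (cut := Cut.none) (xt := Ext.none) (P1 := 0) (W1 := 536870912) (P2 := 1073741824) (W2 := 536870912) (P3 := 201326592) (W3 := 134217728) (N0 := 3)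
    rfl (fun _ => rfl) k0_pp_012

end Pool.Agent.Strip051.G.I3_16_5_16.Tab.C.NB04

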