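import Pool.Agent.Strip051.G.I3_16_5_16.Tab

/-! # Certificates N18 (generated) -/

set_option linter.all false
set_option maxRecDepth 100000

namespace Pool.Agent.Strip051.G.I3_16_5_16.Tab.C.NB04

open Pool.Agent.Strip051.PB Pool.Agent.Strip051.PB.T
open Pool.Agent.Strip051.G.I3_16_5_16.Tab

noncomputable def f_pp_022 : ℕ → ℕ → ℕ → ℕ → Bool := onCell 0 536870912 1073741824 536870912 201326592 134217728
    (rowN 3 1 false true true .pp 0 2 2 (qsf 0 536870912 1073741824 536870912 2) ndN0q0 ndN4q2 pcN2 Cut.none Ext.none)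

def k0_pp_022 : ∃ t, chk3 f_pp_022 t 2 2 1 = true :=
  ⟨(b (l 3) (b (b (b (l 3) (a (b (l 3) (b (l 3) (a (b (b (l 3) (a (c (a (l 16471744) (l 16493240)) (l 16490208)) (c (l 16527616) (l 16509184)))) (a (c (a (l 16469288) (l 16490824)) (l 16487608)) (c (l 16525264) (l 16506672)))) (b (l 3) (a (c (l 16597184) (l 16550640)) (c (l 16866712) (l 16598400))))))) (b (l 3) (b (l 3) (b (a (a (l 3) (b (l 3) (l 16770864))) (c (l 17190328) (a (l 16884336) (l 16970608)))) (a (c (l 16976280) (l 16676472)) (c (l 17196368) (l 16936064)))))))) (a (a (a (c (a (c (l 16466184) (l 16459208)) (c (l 16467816) (l 16459648))) (a (b (l 16441656) (l 16414176)) (l 16468392))) (c (a (l 16507888) (l 16532280)) (a (l 16467968) (l 16489504)))) (a (c (a (l 16668480) (l 16813432)) (l 16565440)) (c (b (l 16922480) (l 17018528)) (l 16572200)))) (a (c (a (l 17106240) (l 17186824)) (a (l 16647768) (l 16818392))) (c (l 17247280) (a (l 16933208) (l 17010632)))))) (a (a (a (c (b (a (l 16433144) (l 16418312)) (a (l 16621192)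 (l 16816184))) (b (a (l 16373960) (l 16394488)) (l 16353720))) (c (b (a (l 16640584) (l 16810744)) (l 17028008)) (b (l 16447960) (l 16377424)))) (c (a (b (l 16953784) (l 17208880)) (b (l 17153800) (l 17316216))) (a (b (l 16473728) (l 16541304)) (b (l 16589792) (l 16772120))))) (a (c (b (l 17238456) (l 17399184)) (b (l 16656720) (l 16987848))) (c (l 17386872) (b (l 17055256) (l 17136352))))))), by decide +kernel⟩

def k1_pp_022 : ∃ t, chk3 f_pp_022 t 2 3 1 = true :=
  ⟨(b (a (a (b (a (c (b (l 17044376) (l 17331680)) (b (l 16283704) (l 16465640))) (c (l 17351136) (l 16632432))) (c (a (l 17631912) (l 17696592)) (a (l 16869856) (l 17053448)))) (c (b (a (l 17468944) (l 17522240)) (l 17733136)) (b (a (l 16856936) (l 17009816)) (l 17225360)))) (b (a (c (l 17556088) (l 17154960)) (c (l 17551712) (l 17253352))) (a (c (l 17724784) (l 17343168)) (l 17540536)))) (b (a (a (c (l 17913576) (l 17303448)) (c (l 17900280) (l 17437792))) (a (l 17671656) (l 2))) (a (a (c (l 18075216) (l 17534648)) (l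 17803168)) (l 2)))), by decide +kernel⟩

def k2_pp_022 : ∃ t, chk3 f_pp_022 t 3 1 1 = true :=
  ⟨(b (b (l 3) (b (b (b (a (l 3) (a (l 3) (l 2))) (a (a (b (l 3) (b (c (l 17213896) (l 17044608)) (b (c (l 17220416) (l 17048888)) (c (l 17225376) (l 17052144))))) (b (c (l 17198288) (l 17088424)) (b (c (l 17206008) (l 17092880)) (b (c (l 17211664) (l 17096312)) (l 17158352))))) (l 2))) (a (a (c (l 17266960) (l 17080912)) (c (l 17252392) (l 17122392))) (l 2))) (a (a (c (l 17381584) (l 17170264)) (c (l 17352704) (l 17195264))) (l 2)))) (b (b (a (a (l 17406768) (l 2)) (l 2)) (l 2)) (l 2))), by decide +kernel⟩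

theorem s3_pp_022 : ∃ t, chk3 f_pp_022 t 2 1 1 = true := ex3_b k0_pp_022 k1_pp_022

theorem s4_pp_022 : ∃ t, chk3 f_pp_022 t 1 1 1 = true := ex3_a s3_pp_022 k2_pp_022

theorem c_pp_022 : CertN 0 536870912 1073741824 536870912 201326592 134217728 3 false true true .pp 0 2 2
    ndN0q0 ndN4q2 pcN2 Cut.none Ext.none :=
  certN1 (fam := false) (s1 := true) (s2 := true) (a := 0) (b := 2) (c := 2) (cn := .pp) (n1 := ndN0q0) (n2 := ndN4q2) (pc := pcN2) (cut := Cut.none) (xt := Ext.none) (P1 := 0) (W1 := 536870912) (P2 := 1073741824) (W2 := 536870912) (P3 := 201326592) (W3 := 134217728) (N0 := 3)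
    rfl (fun _ => rfl) s4_pp_022

noncomputable def f_pp_023 : ℕ → ℕ → ℕ → ℕ → Bool := onCell 1073741824 536870912 0 1230186008 201326592 134217728
    (rowN 3 2 false true true .up 0 2 3 (qsf 0 536870912 0 1230186008 2) ndN0q0 ndN4q3 pcN2 Cut.none Ext.none)

def k0_pp_023 : ∃ t, chk3 f_pp_023 t 1 2 1 = true :=
  ⟨(a (l 2) (a (l 2) (a (b (l 2) (a (l 17378624) (l 17249640))) (b (l 17398600) (l 17578768))))), by decide +kernel⟩

def k1_pp_023 : ∃ t, chk3 f_pp_023 t 1 6 1 = true :=
  ⟨(a (b (l 2) (a (l 2) (a (l 2) (b (l 2) (l 357121083447))))) (a (a (b (l 2) (b (l 17214400) (l 17270640))) (b (a (l 17215648) (l 17254968)) (b (l 17312896) (l 17376264)))) (a (b (a (l 17299016) (l 17345056)) (a (l 17417424) (l 17462760))) (b (l 17413424) (l 17522456))))), by decide +kernel⟩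

def k2_pp_023 : ∃ t, chk3 f_pp_023 t 1 7 1 = true :=
  ⟨(a (a (b (l 2) (l 3)) (a (b (b (a (l 2) (l 299675451559)) (b (a (l 2) (l 17135944)) (a (a (c (l 17161328) (l 17013560)) (a (l 17096080) (a (l 17106008) (a (l 17112160) (l 17116456))))) (l 17152984)))) (a (a (a (l 3) (b (b (l 17141136) (l 3)) (l 3))) (a (b (c (l 154787765191) (b (l 17035360) (l 17041112))) (b (c (l 17279368) (l 17044472)) (c (l 129017797143) (b (l 17044656) (l 17041672))))) (b (a (c (l 17239720) (l 17047568)) (a (c (l 17247104) (l 17052888)) (c (l 17252296) (l 17056616)))) (a (b (c (l 17293704) (l 17054320)) (c (l 17328472) (l 17052952))) (a (b (c (l 17301448) (l 17059920)) (c (l 17335560) (l 17058320))) (c (b (l 17306808) (l 17340336)) (b (l 17063832) (l 17062000)))))))) (b (c (b (l 17278504) (l 17313832)) (b (l 17084344) (l 17091856))) (c (b (l 17348904) (a (l 17361344) (l 17396912))) (b (l 17095536) (a (l 17078320) (l 17106872))))))) (b (b (c (l 17286448) (l 17278264)) (a (c (l 17311048) (l 17130608)) (l 17286184)))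 (b (c (a (l 17375352) (l 17450336)) (a (l 17149160) (l 17209696))) (c (b (l 17457432) (l 17483888)) (a (b (l 17154384) (l 17150160)) (l 17209528))))))) (b (a (a (b (a (l 17298048) (l 17357464)) (c (l 17490920) (l 17277080))) (b (l 17439336) (l 17491912))) (a (b (l 17526416) (l 17582848)) (c (l 17743528) (l 17521552)))) (a (a (b (c (l 17548784) (l 17294112)) (c (l 17600088) (b (l 17293936) (l 17292872)))) (b (c (l 17661400) (l 17396576)) (c (l 17719272) (l 17402928)))) (b (a (l 17782832) (l 17732384)) (c (l 17887232) (a (l 17508504) (l 17610728))))))), by decide +kernel⟩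

theorem s3_pp_023 : ∃ t, chk3 f_pp_023 t 1 3 1 = true := ex3_b k1_pp_023 k2_pp_023

theorem s4_pp_023 : ∃ t, chk3 f_pp_023 t 1 1 1 = true := ex3_b k0_pp_023 s3_pp_023

theorem c_pp_023 : CertN 0 536870912 0 1230186008 201326592 134217728 3 false true true .up 0 2 3
    ndN0q0 ndN4q3 pcN2 Cut.none Ext.none :=
  certN2 (fam := false) (s1 := true) (s2 := true) (a := 0) (b := 2) (c := 3) (cn := .up) (n1 := ndN0q0) (n2 := ndN4q3) (pc := pcN2) (cut := Cut.none) (xt := Ext.none) (P1 := 0) (W1 := 536870912) (P2 := 0) (W2 := 1230186008) (P3 := 201326592) (W3 := 134217728) (N0 := 3)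
    rfl (fun _ => rfl) s4_pp_023

noncomputable def f_pp_033 : ℕ → ℕ → ℕ → ℕ → Bool := onCell 1610612736 536870912 0 1230186008 201326592 134217728
    (rowN 3 2 false true true .pnn 0 3 3 (qsf 0 536870912 0 1230186008 3) ndN0q0 ndN4q3 pcN3 Cut.none Ext.none)

def k0_pp_033 : ∃ t, chk3 f_pp_033 t 1 1 1 = true :=
  ⟨(a (b (a (b (a (l 17323376) (b (l 17296184) (l 17241056))) (b (a (l 17117752) (l 17245672)) (a (l 17167200) (l 17273632)))) (b (a (l 17352568) (l 17378128)) (a (b (l 17332480) (l 17363512)) (b (l 17403240) (l 17437640))))) (b (a (b (a (l 17289632) (l 17352376)) (a (l 17711216) (l 17713560))) (b (a (l 17470336) (l 17511040)) (a (b (l 17522848) (l 17643224)) (b (l 17594328) (l 17691008))))) (a (b (b (a (l 17643424) (l 17729280)) (c (l 17867080) (l 17638456))) (b (c (l 17939064) (l 17698568)) (c (l 18039920) (a (l 17721712) (l 17822264))))) (b (b (a (l 17786480) (l 17826240)) (c (l 18026720) (l 17808048))) (b (a (l 17980952) (l 1)) (l 1)))))) (a (b (a (b (l 17413384) (b (l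 17436456) (l 17476608))) (b (l 4) (l 17737320))) (b (a (b (l 17583664) (b (l 17678928) (l 170224273079))) (c (l 139622510087) (b (l 17565568) (l 17712944)))) (l 1))) (b (a (b (l 4) (l 17573648)) (l 4)) (a (b (b (l 17686504) (l 1)) (l 1)) (l 1))))), by decide +kernel⟩

theorem c_pp_033 : CertN 0 536870912 0 1230186008 201326592 134217728 3 false true true .pnn 0 3 3
    ndN0q0 ndN4q3 pcN3 Cut.none Ext.none :=
  certN2 (fam := false) (s1 := true) (s2 := true) (a := 0) (b := 3) (c := 3) (cn := .pnn) (n1 := ndN0q0) (n2 := ndN4q3) (pc := pcN3) (cut := Cut.none) (xt := Ext.none) (P1 := 0) (W1 := 536870912) (P2 := 0) (W2 := 1230186008) (P3 := 201326592) (W3 := 134217728) (N0 := 3)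
    rfl (fun _ => rfl) k0_pp_033

noncomputable def f_pp_101 : ℕ → ℕ → ℕ → ℕ → Bool := onCell 536870912 536870912 536870912 536870912 201326592 134217728
    (rowN 3 0 false true true .npn 1 0 1 (qsf 536870912 536870912 536870912 536870912 0) ndN0q1 ndN4q1 pcN0 Cut.none Ext.none)

def k0_pp_101 : ∃ t, chk3 f_pp_101 t 1 1 1 = true :=
  ⟨(a (l 3) (l 5)), by decide +kernel⟩

theorem c_pp_101 : CertN 536870912 536870912 536870912 536870912 201326592 134217728 3 false true true .npn 1 0 1
    ndN0q1 ndN4q1 pcN0 Cut.none Ext.none :=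
  certN0 (fam := false) (s1 := true) (s2 := true) (a := 1) (b := 0) (c := 1) (cn := .npn) (n1 := ndN0q1) (n2 := ndN4q1) (pc := pcN0) (cut := Cut.none) (xt := Ext.none) (P1 := 536870912) (W1 := 536870912) (P2 := 536870912) (W2 := 536870912) (P3 := 201326592) (W3 := 134217728) (N0 := 3)
    rfl k0_pp_101

noncomputable def f_pp_102 : ℕ → ℕ → ℕ → ℕ → Bool := onCell 536870912 536870912 1073741824 536870912 201326592 134217728
    (rowN 3 0 false true true .npp 1 0 2 (qsf 536870912 536870912 1073741824 536870912 0) ndN0q1 ndN4q2 pcN0 Cut.none Ext.none)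

def k0_pp_102 : ∃ t, chk3 f_pp_102 t 1 1 1 = true :=
  ⟨(l 3), by decide +kernel⟩

theorem c_pp_102 : CertN 536870912 536870912 1073741824 536870912 201326592 134217728 3 false true true .npp 1 0 2
    ndN0q1 ndN4q2 pcN0 Cut.none Ext.none :=
  certN0 (fam := false) (s1 := true) (s2 := true) (a := 1) (b := 0) (c := 2) (cn := .npp) (n1 := ndN0q1) (n2 := ndN4q2) (pc := pcN0) (cut := Cut.none) (xt := Ext.none) (P1 := 536870912) (W1 := 536870912) (P2 := 1073741824) (W2 := 536870912) (P3 := 201326592) (W3 := 134217728) (N0 := 3)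
    rfl k0_pp_102

noncomputable def f_pp_112 : ℕ → ℕ → ℕ → ℕ → Bool := onCell 536870912 536870912 1073741824 536870912 201326592 134217728
    (rowN 3 0 false true true .dn 1 1 2 (qsf 536870912 536870912 1073741824 536870912 1) ndN0q1 ndN4q2 pcN1 Cut.none Ext.none)

def k0_pp_112 : ∃ t, chk3 f_pp_112 t 1 1 1 = true :=
  ⟨(l 3), by decide +kernel⟩

theorem c_pp_112 : CertN 536870912 536870912 1073741824 536870912 201326592 134217728 3 false true true .dn 1 1 2
    ndN0q1 ndN4q2 pcN1 Cut.none Ext.none :=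
  certN0 (fam := false) (s1 := true) (s2 := true) (a := 1) (b := 1) (c := 2) (cn := .dn) (n1 := ndN0q1) (n2 := ndN4q2) (pc := pcN1) (cut := Cut.none) (xt := Ext.none) (P1 := 536870912) (W1 := 536870912) (P2 := 1073741824) (W2 := 536870912) (P3 := 201326592) (W3 := 134217728) (N0 := 3)
    rfl k0_pp_112

noncomputable def cut_pp_113 : Cut := Cut.of [[⟨0, 1, 0, 57167902⟩, ⟨1, 1, 0, 57167902⟩, ⟨2, 2, 0, 11758673⟩]]

noncomputable def f_pp_113 : ℕ → ℕ → ℕ → ℕ → Bool := onCell 536870912 536870912 0 1230186008 201326592 134217728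
    (rowN 3 2 false true true .nn 1 1 3 (qsf 536870912 536870912 0 1230186008 1) ndN0q1 ndN4q3 pcN1 cut_pp_113 Ext.none)

def k0_pp_113 : ∃ t, chk3 f_pp_113 t 1 1 1 = true :=
  ⟨(b (a (l 2) (a (l 2) (b (a (l 2) (a (l 2) (b (l 6) (l 3)))) (l 3)))) (a (b (b (l 2) (l 3)) (a (b (l 2) (l 3)) (l 3))) (b (l 3) (l 3)))), by decide +kernel⟩

theorem c_pp_113 : CertN 536870912 536870912 0 1230186008 201326592 134217728 3 false true true .nn 1 1 3
    ndN0q1 ndN4q3 pcN1 cut_pp_113 Ext.none :=
  certN2 (fam := false) (s1 := true) (s2 := true) (a := 1) (b := 1) (c := 3) (cn := .nn) (n1 := ndN0q1) (n2 := ndN4q3) (pc := pcN1) (cut := cut_pp_113) (xt := Ext.none) (P1 := 536870912) (W1 := 536870912) (P2 := 0) (W2 := 1230186008) (P3 := 201326592) (W3 := 134217728) (N0 := 3)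
    rfl (fun _ => rfl) k0_pp_113

noncomputable def cut_pp_123 : Cut := Cut.of [[⟨0, 1, 0, 57167902⟩, ⟨1, 1, 0, 57167902⟩, ⟨2, 2, 0, 11758673⟩]]

noncomputable def f_pp_123 : ℕ → ℕ → ℕ → ℕ → Bool := onCell 1073741824 536870912 0 1230186008 201326592 134217728
    (rowN 3 2 false true true .npn 1 2 3 (qsf 536870912 536870912 0 1230186008 2) ndN0q1 ndN4q3 pcN2 cut_pp_123 Ext.none)

def k0_pp_123 : ∃ t, chk3 f_pp_123 t 1 4 1 = true :=
  ⟨(a (b (a (a (a (l 6) (a (a (l 6) (l 16838856)) (l 16827136))) (a (l 16822128) (a (l 16849160) (l 16868296)))) (a (a (a (l 16890064) (l 16954040)) (l 16934200)) (l 17240816))) (a (b (b (a (a (l 6) (a (a (l 6) (l 16816272)) (l 16818824))) (a (l 16818104) (l 17088952))) (a (a (l 3) (a (a (a (b (l 263771450487) (l 3)) (b (l 231022322679) (l 250349663159))) (a (l 16814048) (l 16795232))) (l 16908656))) (a (l 16836672) (l 17065592)))) (a (a (l 3) (a (a (b (a (l 3) (b (l 3) (l 3))) (l 3)) (b (a (b (l 272361395863) (l 255181506103)) (l 219748062407)) (a (l 3)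 (l 257865888151)))) (a (b (l 16854496) (a (l 197199453815) (l 16803096))) (b (l 16805472) (l 16845104))))) (a (a (l 16945200) (l 16821576)) (a (l 16831568) (l 16845184))))) (a (a (a (l 16867256) (l 16929520)) (l 16911656)) (l 17194944)))) (a (a (a (l 17047504) (l 17090320)) (a (l 17134376) (l 17177880))) (a (l 17251664) (l 17398856)))), by decide +kernel⟩

def k1_pp_123 : ∃ t, chk3 f_pp_123 t 1 5 1 = true :=
  ⟨(a (b (a (a (a (l 3) (a (l 3) (b (a (b (a (l 263771454311) (l 186998923191)) (l 3)) (b (l 199883902519) (a (l 233706709991) (l 189146481671)))) (a (l 3) (b (l 248739135527) (l 3)))))) (a (a (b (a (b (l 16815936) (l 16818280)) (l 16861288)) (a (b (l 176261553191) (l 225653689655)) (c (l 16839080) (l 16823336)))) (b (l 16940888) (a (l 16838360) (l 16845312)))) (a (b (l 16837824) (l 16854584)) (l 16895800)))) (a (a (a (l 16866568) (l 16954272)) (l 16908400)) (a (l 16951312) (l 16995496)))) (b (a (a (l 3) (a (a (a (l 3) (c (l 260013560887) (l 233169927047))) (c (l 156934356599)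 (l 140291274951))) (a (l 17048192) (l 16903136)))) (a (a (a (l 16889080) (l 16899128)) (l 16921312)) (l 16988056))) (a (a (l 3) (a (a (l 3) (c (l 215453339207) (l 220821989879))) (a (a (l 16918160) (l 16885888)) (l 16899352)))) (a (a (a (l 16914472) (l 16922752)) (l 16943240)) (l 17114040))))) (a (a (a (b (l 17037112) (l 17070536)) (l 17260760)) (b (l 17111360) (l 17361144))) (a (a (l 17189888) (l 17249912)) (l 275986852215)))), by decide +kernel⟩

def k2_pp_123 : ∃ t, chk3 f_pp_123 t 1 6 1 = true :=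
  ⟨(a (b (b (a (a (l 3) (a (a (l 3) (c (l 217064028791) (l 228338253607))) (a (c (a (l 16913984) (l 16925936)) (l 137607069815)) (c (l 16943792) (l 16897824))))) (a (a (a (a (l 16935128) (l 16945248)) (l 17089112)) (l 16972320)) (a (l 17018960) (l 17063784)))) (a (a (l 3) (a (l 3) (a (c (c (l 241223494775) (l 241760302103)) (l 186462388727)) (c (l 16973504) (l 16978680))))) (a (a (a (a (l 16959176) (l 16971432)) (a (l 16981896) (l 16983128))) (l 17005888)) (l 17076760)))) (a (a (l 3) (a (l 3) (a (b (l 3) (l 3)) (c (b (l 153176448183) (l 191294396423)) (b (b (l 16931632) (l 16942312)) (b (l 16952424) (l 16961896))))))) (a (a (a (b (c (l 17036592) (l 16956640)) (c (l 17092984) (a (l 16972040) (l 16981488)))) (a (b (l 17010008) (l 17035440)) (b (a (l 17018992) (a (l 17019832) (l 17017600))) (a (l 17045144) (a (l 17049672) (l 17051600)))))) (b (l 17041384) (l 17078328))) (b (l 17114992) (a (l 17131824) (l 17185344)))))) (a (a (b (a (l 17127656) (l 17171224)) (b (l 17214512) (l 17355136)))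 (b (a (l 17215712) (l 17255280)) (b (l 17313792) (l 1)))) (a (b (a (l 17299736) (l 1)) (l 1)) (l 1)))), by decide +kernel⟩

def k3_pp_123 : ∃ t, chk3 f_pp_123 t 1 7 1 = true :=
  ⟨(a (a (a (l 3) (a (l 3) (b (b (l 3) (l 3)) (l 3)))) (b (a (a (a (b (c (a (l 17103024) (l 17115944)) (a (l 16990544) (l 17000024))) (c (a (l 17142896) (l 17157984)) (a (l 17047432) (l 17016000)))) (a (b (c (l 17127976) (l 17009360)) (c (l 17170760) (l 17025400))) (b (a (l 17070800) (a (l 17076592) (l 17080520))) (a (c (l 17181696) (l 17033512)) (a (c (l 17188416) (l 17038480)) (l 17108960)))))) (b (c (l 17184240) (l 17052008)) (c (l 17233408) (l 17134416)))) (b (a (l 17258680) (l 17236976)) (l 1))) (a (a (a (a (l 3) (a (l 3) (l 1))) (l 1)) (l 1)) (l 1)))) (l 1)), by decide +kernel⟩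

theorem s4_pp_123 : ∃ t, chk3 f_pp_123 t 1 3 1 = true := ex3_b k2_pp_123 k3_pp_123

theorem s5_pp_123 : ∃ t, chk3 f_pp_123 t 1 2 1 = true := ex3_b k0_pp_123 k1_pp_123

theorem s6_pp_123 : ∃ t, chk3 f_pp_123 t 1 1 1 = true := ex3_b s5_pp_123 s4_pp_123

theorem c_pp_123 : CertN 536870912 536870912 0 1230186008 201326592 134217728 3 false true true .npn 1 2 3
    ndN0q1 ndN4q3 pcN2 cut_pp_123 Ext.none :=
  certN2 (fam := false) (s1 := true) (s2 := true) (a := 1) (b := 2) (c := 3) (cn := .npn) (n1 := ndN0q1) (n2 := ndN4q3) (pc := pcN2) (cut := cut_pp_123) (xt := Ext.none) (P1 := 536870912) (W1 := 536870912) (P2 := 0) (W2 := 1230186008) (P3 := 201326592) (W3 := 134217728) (N0 := 3)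
    rfl (fun _ => rfl) s6_pp_123

noncomputable def f_pp_133 : ℕ → ℕ → ℕ → ℕ → Bool := onCell 1610612736 536870912 0 1230186008 201326592 134217728
    (rowN 3 2 false true true .dn 1 3 3 (qsf 536870912 536870912 0 1230186008 3) ndN0q1 ndN4q3 pcN3 Cut.none Ext.none)

def k0_pp_133 : ∃ t, chk3 f_pp_133 t 1 1 1 = true :=
  ⟨(b (b (a (a (a (l 17324080) (l 1)) (l 1)) (l 1)) (l 1)) (l 1)), by decide +kernel⟩

theorem c_pp_133 : CertN 536870912 536870912 0 1230186008 201326592 134217728 3 false true true .dn 1 3 3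
    ndN0q1 ndN4q3 pcN3 Cut.none Ext.none :=
  certN2 (fam := false) (s1 := true) (s2 := true) (a := 1) (b := 3) (c := 3) (cn := .dn) (n1 := ndN0q1) (n2 := ndN4q3) (pc := pcN3) (cut := Cut.none) (xt := Ext.none) (P1 := 536870912) (W1 := 536870912) (P2 := 0) (W2 := 1230186008) (P3 := 201326592) (W3 := 134217728) (N0 := 3)
    rfl (fun _ => rfl) k0_pp_133

noncomputable def f_pp_202 : ℕ → ℕ → ℕ → ℕ → Bool := onCell 0 536870912 1073741824 536870912 201326592 134217728
    (rowN 3 0 false true true .pp 2 0 2 (qsf 0 536870912 1073741824 536870912 0) ndN0q2 ndN4q2 pcN0 Cut.none Ext.none)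

def k0_pp_202 : ∃ t, chk3 f_pp_202 t 1 1 1 = true :=
  ⟨(l 5), by decide +kernel⟩

theorem c_pp_202 : CertN 0 536870912 1073741824 536870912 201326592 134217728 3 false true true .pp 2 0 2
    ndN0q2 ndN4q2 pcN0 Cut.none Ext.none :=
  certN0 (fam := false) (s1 := true) (s2 := true) (a := 2) (b := 0) (c := 2) (cn := .pp) (n1 := ndN0q2) (n2 := ndN4q2) (pc := pcN0) (cut := Cut.none) (xt := Ext.none) (P1 := 0) (W1 := 536870912) (P2 := 1073741824) (W2 := 536870912) (P3 := 201326592) (W3 := 134217728) (N0 := 3)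
    rfl k0_pp_202

noncomputable def f_pp_203 : ℕ → ℕ → ℕ → ℕ → Bool := onCell 0 536870912 0 1230186008 201326592 134217728
    (rowN 3 0 false true true .up 2 0 3 (qsf 0 536870912 0 1230186008 0) ndN0q2 ndN4q3 pcN0 Cut.none Ext.none)

def k0_pp_203 : ∃ t, chk3 f_pp_203 t 1 1 1 = true :=
  ⟨(b (l 2) (b (l 2) (l 3))), by decide +kernel⟩

theorem c_pp_203 : CertN 0 536870912 0 1230186008 201326592 134217728 3 false true true .up 2 0 3
    ndN0q2 ndN4q3 pcN0 Cut.none Ext.none :=
  certN0 (fam := false) (s1 := true) (s2 := true) (a := 2) (b := 0) (c := 3) (cn := .up) (n1 := ndN0q2) (n2 := ndN4q3) (pc := pcN0) (cut := Cut.none) (xt := Ext.none) (P1 := 0) (W1 := 536870912) (P2 := 0) (W2 := 1230186008) (P3 := 201326592) (W3 := 134217728) (N0 := 3)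
    rfl k0_pp_203

noncomputable def cut_pp_213 : Cut := Cut.of [[⟨0, 1, 0, 57167902⟩, ⟨1, 1, 0, 57167902⟩, ⟨2, 2, 0, 11758673⟩]]

noncomputable def f_pp_213 : ℕ → ℕ → ℕ → ℕ → Bool := onCell 0 536870912 0 1230186008 201326592 134217728
    (rowN 3 0 false true true .pnn 2 1 3 (qsf 0 536870912 0 1230186008 1) ndN0q2 ndN4q3 pcN1 cut_pp_213 Ext.none)

def k0_pp_213 : ∃ t, chk3 f_pp_213 t 1 1 1 = true :=
  ⟨(b (a (l 3) (b (a (l 3) (a (l 3) (b (l 6) (l 3)))) (l 3))) (b (l 3) (l 3))), by decide +kernel⟩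

theorem c_pp_213 : CertN 0 536870912 0 1230186008 201326592 134217728 3 false true true .pnn 2 1 3
    ndN0q2 ndN4q3 pcN1 cut_pp_213 Ext.none :=
  certN0 (fam := false) (s1 := true) (s2 := true) (a := 2) (b := 1) (c := 3) (cn := .pnn) (n1 := ndN0q2) (n2 := ndN4q3) (pc := pcN1) (cut := cut_pp_213) (xt := Ext.none) (P1 := 0) (W1 := 536870912) (P2 := 0) (W2 := 1230186008) (P3 := 201326592) (W3 := 134217728) (N0 := 3)
    rfl k0_pp_213

noncomputable def f_pm_001 : ℕ → ℕ → ℕ → ℕ → Bool := onCell 0 536870912 536870912 536870912 201326592 134217728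
    (rowN 3 0 false true false .up 0 0 1 (qsf 0 536870912 536870912 536870912 0) ndN0q0 ndN4q1 pcN0 Cut.none Ext.none)

def k0_pm_001 : ∃ t, chk3 f_pm_001 t 1 1 1 = true :=
  ⟨(l 4), by decide +kernel⟩

theorem c_pm_001 : CertN 0 536870912 536870912 536870912 201326592 134217728 3 false true false .up 0 0 1
    ndN0q0 ndN4q1 pcN0 Cut.none Ext.none :=
  certN0 (fam := false) (s1 := true) (s2 := false) (a := 0) (b := 0) (c := 1) (cn := .up) (n1 := ndN0q0) (n2 := ndN4q1) (pc := pcN0) (cut := Cut.none) (xt := Ext.none) (P1 := 0) (W1 := 536870912) (P2 := 536870912) (W2 := 536870912) (P3 := 201326592) (W3 := 134217728) (N0 := 3)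
    rfl k0_pm_001

noncomputable def f_pm_011 : ℕ → ℕ → ℕ → ℕ → Bool := onCell 0 536870912 536870912 536870912 201326592 134217728
    (rowN 3 0 false true false .pnn 0 1 1 (qsf 0 536870912 536870912 536870912 1) ndN0q0 ndN4q1 pcN1 Cut.none Ext.none)

def k0_pm_011 : ∃ t, chk3 f_pm_011 t 1 1 1 = true :=
  ⟨(l 4), by decide +kernel⟩

theorem c_pm_011 : CertN 0 536870912 536870912 536870912 201326592 134217728 3 false true false .pnn 0 1 1
    ndN0q0 ndN4q1 pcN1 Cut.none Ext.none :=
  certN0 (fam := false) (s1 := true) (s2 := false) (a := 0) (b := 1) (c := 1) (cn := .pnn) (n1 := ndN0q0) (n2 := ndN4q1) (pc := pcN1) (cut := Cut.none) (xt := Ext.none) (P1 := 0) (W1 := 536870912) (P2 := 536870912) (W2 := 536870912) (P3 := 201326592) (W3 := 134217728) (N0 := 3)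
    rfl k0_pm_011

noncomputable def f_pm_012 : ℕ → ℕ → ℕ → ℕ → Bool := onCell 0 536870912 1073741824 536870912 201326592 134217728
    (rowN 3 0 false true false .pnp 0 1 2 (qsf 0 536870912 1073741824 536870912 1) ndN0q0 ndN4q2 pcN1 Cut.none Ext.none)

def k0_pm_012 : ∃ t, chk3 f_pm_012 t 1 1 1 = true :=
  ⟨(l 4), by decide +kernel⟩

theorem c_pm_012 : CertN 0 536870912 1073741824 536870912 201326592 134217728 3 false true false .pnp 0 1 2
    ndN0q0 ndN4q2 pcN1 Cut.none Ext.none :=
  certN0 (fam := false) (s1 := true) (s2 := false) (a := 0) (b := 1) (c := 2) (cn := .pnp) (n1 := ndN0q0) (n2 := ndN4q2) (pc := pcN1) (cut := Cut.none) (xt := Ext.none) (P1 := 0) (W1 := 536870912) (P2 := 1073741824) (W2 := 536870912) (P3 := 201326592) (W3 := 134217728) (N0 := 3)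
    rfl k0_pm_012

noncomputable def f_pm_022 : ℕ → ℕ → ℕ → ℕ → Bool := onCell 0 536870912 1073741824 536870912 201326592 134217728
    (rowN 3 0 false true false .pp 0 2 2 (qsf 0 536870912 1073741824 536870912 2) ndN0q0 ndN4q2 pcN2 Cut.none Ext.none)

def k0_pm_022 : ∃ t, chk3 f_pm_022 t 1 1 1 = true :=
  ⟨(l 4), by decide +kernel⟩

theorem c_pm_022 : CertN 0 536870912 1073741824 536870912 201326592 134217728 3 false true false .pp 0 2 2
    ndN0q0 ndN4q2 pcN2 Cut.none Ext.none :=
  certN0 (fam := false) (s1 := true) (s2 := false) (a := 0) (b := 2) (c := 2) (cn := .pp) (n1 := ndN0q0) (n2 := ndN4q2) (pc := pcN2) (cut := Cut.none) (xt := Ext.none) (P1 := 0) (W1 := 536870912) (P2 := 1073741824) (W2 := 536870912) (P3 := 201326592) (W3 := 134217728) (N0 := 3)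
    rfl k0_pm_022

noncomputable def f_pm_023 : ℕ → ℕ → ℕ → ℕ → Bool := onCell 0 536870912 0 1230186008 201326592 134217728
    (rowN 3 0 false true false .up 0 2 3 (qsf 0 536870912 0 1230186008 2) ndN0q0 ndN4q3 pcN2 Cut.none Ext.none)

def k0_pm_023 : ∃ t, chk3 f_pm_023 t 1 1 1 = true :=
  ⟨(a (b (l 2) (l 4)) (b (a (l 2) (a (b (l 2) (b (l 17544928) (l 4))) (b (l 17481856) (b (l 17542304) (l 17636000))))) (b (l 4) (l 4)))), by decide +kernel⟩

theorem c_pm_023 : CertN 0 536870912 0 1230186008 201326592 134217728 3 false true false .up 0 2 3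
    ndN0q0 ndN4q3 pcN2 Cut.none Ext.none :=
  certN0 (fam := false) (s1 := true) (s2 := false) (a := 0) (b := 2) (c := 3) (cn := .up) (n1 := ndN0q0) (n2 := ndN4q3) (pc := pcN2) (cut := Cut.none) (xt := Ext.none) (P1 := 0) (W1 := 536870912) (P2 := 0) (W2 := 1230186008) (P3 := 201326592) (W3 := 134217728) (N0 := 3)
    rfl k0_pm_023

noncomputable def f_pm_033 : ℕ → ℕ → ℕ → ℕ → Bool := onCell 1610612736 536870912 0 1230186008 201326592 134217728
    (rowN 3 2 false true false .pnn 0 3 3 (qsf 0 536870912 0 1230186008 3) ndN0q0 ndN4q3 pcN3 Cut.none Ext.none)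

def k0_pm_033 : ∃ t, chk3 f_pm_033 t 1 1 1 = true :=
  ⟨(b (a (a (b (a (a (l 17299024) (l 17363456)) (c (l 17363184) (l 17307168))) (a (b (l 17723224) (l 4)) (l 4))) (b (a (l 17383336) (l 4)) (l 4))) (l 4)) (l 4)), by decide +kernel⟩

theorem c_pm_033 : CertN 0 536870912 0 1230186008 201326592 134217728 3 false true false .pnn 0 3 3
    ndN0q0 ndN4q3 pcN3 Cut.none Ext.none :=
  certN2 (fam := false) (s1 := true) (s2 := false) (a := 0) (b := 3) (c := 3) (cn := .pnn) (n1 := ndN0q0) (n2 := ndN4q3) (pc := pcN3) (cut := Cut.none) (xt := Ext.none) (P1 := 0) (W1 := 536870912) (P2 := 0) (W2 := 1230186008) (P3 := 201326592) (W3 := 134217728) (N0 := 3)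
    rfl (fun _ => rfl) k0_pm_033

noncomputable def f_pm_101 : ℕ → ℕ → ℕ → ℕ → Bool := onCell 536870912 536870912 536870912 536870912 201326592 134217728
    (rowN 3 0 false true false .npn 1 0 1 (qsf 536870912 536870912 536870912 536870912 0) ndN0q1 ndN4q1 pcN0 Cut.none Ext.none)

def k0_pm_101 : ∃ t, chk3 f_pm_101 t 1 1 1 = true :=
  ⟨(l 4), by decide +kernel⟩

theorem c_pm_101 : CertN 536870912 536870912 536870912 536870912 201326592 134217728 3 false true false .npn 1 0 1
    ndN0q1 ndN4q1 pcN0 Cut.none Ext.none :=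
  certN0 (fam := false) (s1 := true) (s2 := false) (a := 1) (b := 0) (c := 1) (cn := .npn) (n1 := ndN0q1) (n2 := ndN4q1) (pc := pcN0) (cut := Cut.none) (xt := Ext.none) (P1 := 536870912) (W1 := 536870912) (P2 := 536870912) (W2 := 536870912) (P3 := 201326592) (W3 := 134217728) (N0 := 3)
    rfl k0_pm_101

noncomputable def f_pm_102 : ℕ → ℕ → ℕ → ℕ → Bool := onCell 536870912 536870912 0 536870912 201326592 134217728
    (rowN 3 1 false true false .npp 1 0 2 (qsf 536870912 536870912 1073741824 536870912 0) ndN0q1 ndN4q2 pcN0 Cut.none Ext.none)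

def k0_pm_102 : ∃ t, chk3 f_pm_102 t 1 1 1 = true :=
  ⟨(a (l 4) (b (b (a (l 4) (a (c (l 168615310391) (b (l 262030089895) (l 18197920))) (b (l 165393439543) (l 18213944)))) (a (b (l 4) (a (l 4) (l 164521006727))) (a (b (l 18479544) (l 18220552)) (b (l 18095768) (a (l 18037568) (l 17887792)))))) (b (a (a (l 4) (b (l 36208907335) (c (l 18440992) (l 18071136)))) (b (a (l 18118640) (a (l 17880328) (l 17736976))) (a (c (l 18089472) (l 17858512)) (a (l 17713784) (l 17527240))))) (a (b (a (l 4) (c (l 18355640) (l 18021952))) (a (l 4) (a (l 18349840) (l 17963400)))) (b (a (a (l 17916088) (l 17920072)) (a (l 17484432) (b (l 17404240) (l 17373872)))) (b (a (a (l 17733168) (l 17521192)) (a (l 17326176) (l 17324792))) (a (a (l 17611416) (l 17383240)) (a (l 17278976) (l 17298008))))))))), by decide +kernel⟩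

theorem c_pm_102 : CertN 536870912 536870912 1073741824 536870912 201326592 134217728 3 false true false .npp 1 0 2
    ndN0q1 ndN4q2 pcN0 Cut.none Ext.none :=
  certN1 (fam := false) (s1 := true) (s2 := false) (a := 1) (b := 0) (c := 2) (cn := .npp) (n1 := ndN0q1) (n2 := ndN4q2) (pc := pcN0) (cut := Cut.none) (xt := Ext.none) (P1 := 536870912) (W1 := 536870912) (P2 := 1073741824) (W2 := 536870912) (P3 := 201326592) (W3 := 134217728) (N0 := 3)
    rfl (fun _ => rfl) k0_pm_102

noncomputable def f_pm_112 : ℕ → ℕ → ℕ → ℕ → Bool := onCell 536870912 536870912 1073741824 536870912 201326592 134217728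
    (rowN 3 2 false true false .dn 1 1 2 (qsf 536870912 536870912 1073741824 536870912 1) ndN0q1 ndN4q2 pcN1 Cut.none Ext.none)

def k0_pm_112 : ∃ t, chk3 f_pm_112 t 1 1 1 = true :=
  ⟨(b (l 4) (a (a (a (b (l 18298664) (b (l 18183824) (c (l 18026776) (l 17947112)))) (b (l 18310864) (b (l 18495016) (a (l 18046392) (l 18110016))))) (b (l 4) (b (l 18334064) (a (l 18228344) (l 18302760))))) (a (b (l 4) (a (l 18379176) (l 4))) (l 4)))), by decide +kernel⟩

theorem c_pm_112 : CertN 536870912 536870912 1073741824 536870912 201326592 134217728 3 false true false .dn 1 1 2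
    ndN0q1 ndN4q2 pcN1 Cut.none Ext.none :=
  certN2 (fam := false) (s1 := true) (s2 := false) (a := 1) (b := 1) (c := 2) (cn := .dn) (n1 := ndN0q1) (n2 := ndN4q2) (pc := pcN1) (cut := Cut.none) (xt := Ext.none) (P1 := 536870912) (W1 := 536870912) (P2 := 1073741824) (W2 := 536870912) (P3 := 201326592) (W3 := 134217728) (N0 := 3)
    rfl (fun _ => rfl) k0_pm_112

noncomputable def cut_pm_113 : Cut := Cut.of [[⟨0, 1, 0, 57167902⟩, ⟨1, 1, 0, 57167902⟩, ⟨2, 2, 0, 11758673⟩]]

noncomputable def f_pm_113 : ℕ → ℕ → ℕ → ℕ → Bool := onCell 536870912 536870912 0 1230186008 201326592 134217728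
    (rowN 3 0 false true false .nn 1 1 3 (qsf 536870912 536870912 0 1230186008 1) ndN0q1 ndN4q3 pcN1 cut_pm_113 Ext.none)

def k0_pm_113 : ∃ t, chk3 f_pm_113 t 1 1 1 = true :=
  ⟨(b (a (l 2) (a (l 2) (b (a (l 2) (b (a (l 2) (l 6)) (l 17009576))) (a (b (l 16855928) (l 16920376)) (b (l 16911928) (l 16930952)))))) (b (b (a (l 2) (a (a (l 2) (l 17320416)) (a (l 17030184) (l 17078400)))) (a (a (l 2) (a (l 2) (b (l 2) (l 18143464)))) (a (b (l 17583688) (l 17723408)) (a (l 17193416) (b (l 17040648) (l 17063936)))))) (a (a (l 4) (b (a (c (l 18524440) (l 18246256)) (b (l 18131112) (l 18142720))) (a (l 4) (b (b (a (l 18181560) (b (l 18093760) (l 18100344))) (a (l 18165232) (l 18088280))) (l 18091752))))) (b (a (b (a (a (l 17922696) (a (l 17810280) (l 17732800))) (l 17557872)) (a (a (b (l 17937176) (l 17958552)) (b (l 17798480) (l 17824944))) (a (l 17682032) (l 17556888)))) (a (l 17358648) (l 17367152))) (a (b (a (b (a (l 17984800) (l 17860688)) (a (l 17999920) (l 17899424))) (b (l 17668856)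 (a (l 17791376) (l 17659664)))) (a (b (c (l 18010568) (l 18087888)) (a (l 17999912) (l 17925696))) (b (c (l 17781296) (l 17729320)) (a (l 17842664) (l 17727472))))) (b (a (b (l 17455632) (l 17494768)) (l 17309928)) (a (b (l 17540800) (a (l 17640560) (l 17548392))) (b (a (l 17403744) (l 17341624)) (l 17592648))))))))), by decide +kernel⟩

theorem c_pm_113 : CertN 536870912 536870912 0 1230186008 201326592 134217728 3 false true false .nn 1 1 3
    ndN0q1 ndN4q3 pcN1 cut_pm_113 Ext.none :=
  certN0 (fam := false) (s1 := true) (s2 := false) (a := 1) (b := 1) (c := 3) (cn := .nn) (n1 := ndN0q1) (n2 := ndN4q3) (pc := pcN1) (cut := cut_pm_113) (xt := Ext.none) (P1 := 536870912) (W1 := 536870912) (P2 := 0) (W2 := 1230186008) (P3 := 201326592) (W3 := 134217728) (N0 := 3)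
    rfl k0_pm_113

noncomputable def cut_pm_123 : Cut := Cut.of [[⟨0, 1, 0, 57167902⟩, ⟨1, 1, 0, 57167902⟩, ⟨2, 2, 0, 11758673⟩]]

noncomputable def f_pm_123 : ℕ → ℕ → ℕ → ℕ → Bool := onCell 1073741824 536870912 0 1230186008 201326592 134217728
    (rowN 3 2 false true false .npn 1 2 3 (qsf 536870912 536870912 0 1230186008 2) ndN0q1 ndN4q3 pcN2 cut_pm_123 Ext.none)

def k0_pm_123 : ∃ t, chk3 f_pm_123 t 1 1 1 = true :=
  ⟨(b (b (a (a (a (b (a (l 6) (l 16814840)) (a (l 16936808) (l 16883472))) (a (b (l 16852760) (l 16939952)) (a (l 16940904) (b (l 16912872) (l 17011296))))) (a (a (a (l 16990264) (b (l 17048528) (l 17064440))) (l 17043704)) (a (l 17092488) (l 17142984)))) (a (a (l 17227936) (l 17307440)) (a (l 17410696) (l 17466560)))) (a (a (a (b (l 17006000) (l 17241544)) (a (b (l 17096248) (l 17320520)) (a (l 17252400) (l 17275888)))) (a (a (b (a (l 17191536) (l 17217320)) (l 17384896)) (l 17351368)) (b (l 17328120) (l 17511848)))) (a (a (b (l 17415504) (l 17577528)) (l 17793048))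 (a (l 17566456) (l 17602728))))) (b (a (a (a (b (b (l 17446736) (l 17611192)) (b (l 17788424) (l 17982216))) (b (l 17609384) (l 18097976))) (b (a (l 17679136) (l 17734528)) (a (l 17948080) (l 17938624)))) (a (b (a (l 17758776) (l 17762216)) (l 4)) (l 4))) (a (a (b (a (b (l 18168456) (l 18300536)) (b (l 18145104) (l 4))) (l 4)) (l 4)) (l 1)))), by decide +kernel⟩

theorem c_pm_123 : CertN 536870912 536870912 0 1230186008 201326592 134217728 3 false true false .npn 1 2 3
    ndN0q1 ndN4q3 pcN2 cut_pm_123 Ext.none :=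
  certN2 (fam := false) (s1 := true) (s2 := false) (a := 1) (b := 2) (c := 3) (cn := .npn) (n1 := ndN0q1) (n2 := ndN4q3) (pc := pcN2) (cut := cut_pm_123) (xt := Ext.none) (P1 := 536870912) (W1 := 536870912) (P2 := 0) (W2 := 1230186008) (P3 := 201326592) (W3 := 134217728) (N0 := 3)
    rfl (fun _ => rfl) k0_pm_123

noncomputable def f_pm_133 : ℕ → ℕ → ℕ → ℕ → Bool := onCell 536870912 536870912 0 1230186008 201326592 134217728
    (rowN 3 0 false true false .dn 1 3 3 (qsf 536870912 536870912 0 1230186008 3) ndN0q1 ndN4q3 pcN3 Cut.none Ext.none)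

def k0_pm_133 : ∃ t, chk3 f_pm_133 t 1 1 1 = true :=
  ⟨(b (b (a (a (a (b (l 17073192) (l 1)) (l 1)) (l 1)) (l 1)) (l 1)) (l 1)), by decide +kernel⟩

theorem c_pm_133 : CertN 536870912 536870912 0 1230186008 201326592 134217728 3 false true false .dn 1 3 3
    ndN0q1 ndN4q3 pcN3 Cut.none Ext.none :=
  certN0 (fam := false) (s1 := true) (s2 := false) (a := 1) (b := 3) (c := 3) (cn := .dn) (n1 := ndN0q1) (n2 := ndN4q3) (pc := pcN3) (cut := Cut.none) (xt := Ext.none) (P1 := 536870912) (W1 := 536870912) (P2 := 0) (W2 := 1230186008) (P3 := 201326592) (W3 := 134217728) (N0 := 3)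
    rfl k0_pm_133

noncomputable def f_pm_202 : ℕ → ℕ → ℕ → ℕ → Bool := onCell 0 536870912 0 536870912 201326592 134217728
    (rowN 3 1 false true false .pp 2 0 2 (qsf 0 536870912 1073741824 536870912 0) ndN0q2 ndN4q2 pcN0 Cut.none Ext.none)

def k0_pm_202 : ∃ t, chk3 f_pm_202 t 1 2 1 = true :=
  ⟨(a (b (a (a (a (b (a (b (b (l 16618016) (l 16604808)) (c (l 16584040) (l 16565992))) (b (l 16746000) (b (l 16584016) (l 16541136)))) (b (c (b (l 16582160) (l 16665688)) (l 16657880)) (c (l 105931336551) (l 16630088)))) (b (b (l 16793680) (b (l 16622632) (l 16615432))) (b (c (l 16592808) (l 16571552)) (c (l 16860016) (l 16621600))))) (b (b (a (l 16848408) (l 16973456)) (l 16969416)) (b (a (l 16726024) (l 16731592)) (a (l 16635488) (l 16658208))))) (b (b (a (c (l 17188584) (l 17061024)) (l 17360600)) (a (l 17167536) (l 17278072))) (b (a (l 16922192) (l 17169800)) (a (l 16939136) (l 17088144))))) (a (a (b (a (c (b (l 150491919159) (l 154250391255)) (b (l 149417706839) (l 151565336247))) (b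 (l 16711912) (c (l 17129904) (l 16758384)))) (b (c (l 157471724663) (l 154249938839)) (c (l 163377334679) (l 158545061047)))) (a (b (b (l 16787136) (l 16950848)) (c (l 17215488) (b (l 16893384) (l 16980208)))) (b (b (l 16771184) (l 16952136)) (l 17095232)))) (a (b (b (l 16825440) (l 16933632)) (c (l 17268248) (l 16949592))) (b (b (l 16951792) (l 16916904)) (b (l 17055112) (l 17154472)))))) (b (b (b (a (a (l 17567800) (l 17776112)) (c (l 18206416) (l 18105936))) (a (l 17621112) (a (l 17943760) (l 18210136)))) (a (a (b (l 17437816) (l 17335624)) (l 17659200)) (a (l 17932624) (l 18013856)))) (a (b (a (b (l 17242688) (l 17155112)) (b (l 17557544) (l 17445040))) (a (b (l 17090616) (l 17154296)) (b (l 17349784) (l 17290336)))) (a (b (l 17779992) (b (l 17736808) (l 17628992))) (b (l 17880512) (l 17729656)))))), by decide +kernel⟩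

def k1_pm_202 : ∃ t, chk3 f_pm_202 t 1 3 1 = true :=
  ⟨(a (b (a (a (b (a (l 3) (c (l 169819798327) (l 164450778311))) (l 3)) (c (b (a (l 125259560951) (l 17253256)) (l 170356685495)) (b (b (l 113984898599) (l 154787150023)) (a (l 169819573415) (l 135996813175))))) (a (b (l 17197552) (c (l 17269680) (l 17134616))) (b (a (l 17226264) (l 17237424)) (a (l 17242840) (l 17265208))))) (a (l 2) (b (l 1524814688263) (l 2)))) (b (b (a (c (l 17379872) (a (l 17154232) (l 17151568))) (a (a (l 17382888) (l 17501136)) (a (l 17572480) (l 17594064)))) (b (a (a (l 17285128) (l 17308672)) (a (l 17491696) (a (l 17462608) (l 17495512)))) (a (l 17302896) (a (l 17326272) (l 17482584))))) (a (b (a (l 17279008) (l 17314176)) (l 2)) (b (a (l 17334440) (b (l 17382840) (l 17335288))) (l 17452048))))), by decide +kernel⟩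

theorem s2_pm_202 : ∃ t, chk3 f_pm_202 t 1 1 1 = true := ex3_b k0_pm_202 k1_pm_202

theorem c_pm_202 : CertN 0 536870912 1073741824 536870912 201326592 134217728 3 false true false .pp 2 0 2
    ndN0q2 ndN4q2 pcN0 Cut.none Ext.none :=
  certN1 (fam := false) (s1 := true) (s2 := false) (a := 2) (b := 0) (c := 2) (cn := .pp) (n1 := ndN0q2) (n2 := ndN4q2) (pc := pcN0) (cut := Cut.none) (xt := Ext.none) (P1 := 0) (W1 := 536870912) (P2 := 1073741824) (W2 := 536870912) (P3 := 201326592) (W3 := 134217728) (N0 := 3)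
    rfl (fun _ => rfl) s2_pm_202

noncomputable def f_pm_203 : ℕ → ℕ → ℕ → ℕ → Bool := onCell 0 536870912 0 1230186008 201326592 134217728
    (rowN 3 0 false true false .up 2 0 3 (qsf 0 536870912 0 1230186008 0) ndN0q2 ndN4q3 pcN0 Cut.none Ext.none)

def k0_pm_203 : ∃ t, chk3 f_pm_203 t 1 1 1 = true :=
  ⟨(b (l 2) (b (l 2) (b (a (a (l 3) (b (l 2) (b (l 2) (a (a (l 3) (l 180020186583)) (a (l 17121840) (l 2)))))) (l 2)) (a (b (a (l 3) (a (b (c (l 179483503975) (l 173577576855)) (c (l 158545599159) (l 159619115095))) (b (a (l 17155704) (l 17191520)) (l 17201056)))) (a (c (a (l 3) (a (l 3) (b (l 181631119783) (l 166598839095)))) (a (l 3) (b (l 181093759127) (b (l 173577592535) (l 166598278903))))) (a (b (c (l 71572674839) (l 65666706279)) (c (l 17348936) (l 17069360))) (b (l 17222360) (l 17233408))))) (a (b (a (b (l 17243312) (l 17260328)) (l 17317048)) (a (b (l 17269608) (l 17268760)) (l 17434832))) (b (a (l 17366976) (l 2)) (a (l 17341672) (l 17365704)))))))), by decide +kernel⟩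

theorem c_pm_203 : CertN 0 536870912 0 1230186008 201326592 134217728 3 false true false .up 2 0 3
    ndN0q2 ndN4q3 pcN0 Cut.none Ext.none :=
  certN0 (fam := false) (s1 := true) (s2 := false) (a := 2) (b := 0) (c := 3) (cn := .up) (n1 := ndN0q2) (n2 := ndN4q3) (pc := pcN0) (cut := Cut.none) (xt := Ext.none) (P1 := 0) (W1 := 536870912) (P2 := 0) (W2 := 1230186008) (P3 := 201326592) (W3 := 134217728) (N0 := 3)
    rfl k0_pm_203

noncomputable def cut_pm_213 : Cut := Cut.of [[⟨0, 1, 0, 57167902⟩, ⟨1, 1, 0, 57167902⟩, ⟨2, 2, 0, 11758673⟩]]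

noncomputable def f_pm_213 : ℕ → ℕ → ℕ → ℕ → Bool := onCell 0 536870912 0 1230186008 201326592 134217728
    (rowN 3 0 false true false .pnn 2 1 3 (qsf 0 536870912 0 1230186008 1) ndN0q2 ndN4q3 pcN1 cut_pm_213 Ext.none)

def k0_pm_213 : ∃ t, chk3 f_pm_213 t 1 2 1 = true :=
  ⟨(a (l 3) (b (a (l 3) (a (b (l 3) (a (l 3) (b (a (l 3) (b (l 3) (l 305110519639))) (a (b (l 3) (a (l 3) (l 287393798839))) (b (a (l 294373088823) (b (l 258939586071) (l 240685983559))) (c (l 240149126631) (l 232096034951))))))) (b (l 6) (a (b (b (l 6) (a (a (b (l 288467497527) (a (l 276119450359) (l 16793440))) (c (l 236390992503) (l 232096020423))) (l 16800160))) (a (c (l 16789752) (l 16793504)) (l 16816376))) (b (a (l 16803496) (l 16811576)) (l 16828880)))))) (a (a (l 3) (b (a (l 3) (b (l 3) (b (l 3) (l 298131268551)))) (c (a (b (l 3) (l 294910233527)) (b (a (l 300815677191) (l 238001750231)) (b (l 16882048) (l 16902208)))) (b (a (l 3) (a (l 285783209143) (l 241222993703))) (a (l 273972086087) (l 226727555095))))))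 (b (a (a (b (b (l 310479299223) (c (l 264845203991) (l 262160840007))) (a (b (l 285246333671) (l 243907315671)) (b (l 238538579287) (l 16840048)))) (b (a (b (a (l 279340727351) (l 238538530599)) (l 16820768)) (l 16823112)) (l 16845536))) (a (l 16996552) (l 16867536))) (a (a (b (b (l 16850920) (l 16866832)) (l 16892288)) (l 16913232)) (l 16982064)))))), by decide +kernel⟩

def k1_pm_213 : ∃ t, chk3 f_pm_213 t 1 3 1 = true :=
  ⟨(b (a (b (l 3) (a (l 3) (a (l 3) (a (l 3) (b (l 3) (c (l 231022810183) (b (l 243907513351) (l 219211599783)))))))) (b (c (a (a (b (a (l 3) (l 288467778519)) (b (l 243370618055) (l 234780736295))) (b (b (l 226190808231) (l 16938104)) (l 17078304))) (a (l 16979552) (l 17015200))) (a (a (b (a (l 3) (l 264308448007)) (a (l 242833657607) (l 231022706439))) (b (a (l 229948859031) (l 16897208)) (l 16925936))) (a (l 16957816) (l 16969408)))) (a (a (a (b (b (a (l 251960573159) (l 228338259335)) (c (l 17018144) (l 16944208))) (b (c (l 17044416) (l 16964000)) (l 17017488)))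 (b (c (l 17010728) (l 16946152)) (l 17099528))) (b (l 17051952) (l 17029904))) (a (b (l 17015264) (l 17054248)) (l 17246928))))) (a (b (a (l 3) (b (a (l 3) (a (b (l 237465202183) (l 214379842503)) (b (l 215990414631) (l 17047464)))) (a (a (l 3) (b (l 225654112023) (c (l 212769451703) (l 209548080087)))) (b (c (l 17148864) (l 206863774295)) (a (l 17075400) (l 17071376)))))) (b (a (l 1) (a (l 1) (b (a (l 17082552) (l 17077200)) (l 1)))) (l 1))) (b (a (b (a (c (l 17137904) (l 17013424)) (l 17064656)) (a (b (l 17066440) (l 17076568)) (l 17092992))) (b (a (l 17089712) (l 17114392)) (a (l 17120000) (l 17143840)))) (b (a (a (l 17339376) (l 17330168)) (a (l 17159664) (l 17208672))) (a (l 1) (a (l 17226848) (l 17293864))))))), by decide +kernel⟩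

theorem s2_pm_213 : ∃ t, chk3 f_pm_213 t 1 1 1 = true := ex3_b k0_pm_213 k1_pm_213

theorem c_pm_213 : CertN 0 536870912 0 1230186008 201326592 134217728 3 false true false .pnn 2 1 3
    ndN0q2 ndN4q3 pcN1 cut_pm_213 Ext.none :=
  certN0 (fam := false) (s1 := true) (s2 := false) (a := 2) (b := 1) (c := 3) (cn := .pnn) (n1 := ndN0q2) (n2 := ndN4q3) (pc := pcN1) (cut := cut_pm_213) (xt := Ext.none) (P1 := 0) (W1 := 536870912) (P2 := 0) (W2 := 1230186008) (P3 := 201326592) (W3 := 134217728) (N0 := 3)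
    rfl s2_pm_213

noncomputable def f_mm_001 : ℕ → ℕ → ℕ → ℕ → Bool := onCell 0 536870912 0 536870912 201326592 134217728
    (rowN 3 1 false false false .up 0 0 1 (qsf 0 536870912 536870912 536870912 0) ndN0q0 ndN4q1 pcN0 Cut.none Ext.none)

def k0_mm_001 : ∃ t, chk3 f_mm_001 t 1 1 1 = true :=
  ⟨(l 3), by decide +kernel⟩

theorem c_mm_001 : CertN 0 536870912 536870912 536870912 201326592 134217728 3 false false false .up 0 0 1
    ndN0q0 ndN4q1 pcN0 Cut.none Ext.none :=
  certN1 (fam := false) (s1 := false) (s2 := false) (a := 0) (b := 0) (c := 1) (cn := .up) (n1 := ndN0q0) (n2 := ndN4q1) (pc := pcN0) (cut := Cut.none) (xt := Ext.none) (P1 := 0) (W1 := 536870912) (P2 := 536870912) (W2 := 536870912) (P3 := 201326592) (W3 := 134217728) (N0 := 3)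
    rfl (fun _ => rfl) k0_mm_001

noncomputable def f_mm_011 : ℕ → ℕ → ℕ → ℕ → Bool := onCell 0 536870912 536870912 536870912 201326592 134217728
    (rowN 3 1 false false false .pnn 0 1 1 (qsf 0 536870912 536870912 536870912 1) ndN0q0 ndN4q1 pcN1 Cut.none Ext.none)

def k0_mm_011 : ∃ t, chk3 f_mm_011 t 1 1 1 = true :=
  ⟨(l 5), by decide +kernel⟩

theorem c_mm_011 : CertN 0 536870912 536870912 536870912 201326592 134217728 3 false false false .pnn 0 1 1
    ndN0q0 ndN4q1 pcN1 Cut.none Ext.none :=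
  certN1 (fam := false) (s1 := false) (s2 := false) (a := 0) (b := 1) (c := 1) (cn := .pnn) (n1 := ndN0q0) (n2 := ndN4q1) (pc := pcN1) (cut := Cut.none) (xt := Ext.none) (P1 := 0) (W1 := 536870912) (P2 := 536870912) (W2 := 536870912) (P3 := 201326592) (W3 := 134217728) (N0 := 3)
    rfl (fun _ => rfl) k0_mm_011

noncomputable def f_mm_012 : ℕ → ℕ → ℕ → ℕ → Bool := onCell 0 536870912 1073741824 536870912 201326592 134217728
    (rowN 3 0 false false false .pnp 0 1 2 (qsf 0 536870912 1073741824 536870912 1) ndN0q0 ndN4q2 pcN1 Cut.none Ext.none)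

def k0_mm_012 : ∃ t, chk3 f_mm_012 t 1 1 1 = true :=
  ⟨(l 5), by decide +kernel⟩

theorem c_mm_012 : CertN 0 536870912 1073741824 536870912 201326592 134217728 3 false false false .pnp 0 1 2
    ndN0q0 ndN4q2 pcN1 Cut.none Ext.none :=
  certN0 (fam := false) (s1 := false) (s2 := false) (a := 0) (b := 1) (c := 2) (cn := .pnp) (n1 := ndN0q0) (n2 := ndN4q2) (pc := pcN1) (cut := Cut.none) (xt := Ext.none) (P1 := 0) (W1 := 536870912) (P2 := 1073741824) (W2 := 536870912) (P3 := 201326592) (W3 := 134217728) (N0 := 3)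
    rfl k0_mm_012

noncomputable def f_mm_022 : ℕ → ℕ → ℕ → ℕ → Bool := onCell 0 536870912 1073741824 536870912 201326592 134217728
    (rowN 3 0 false false false .pp 0 2 2 (qsf 0 536870912 1073741824 536870912 2) ndN0q0 ndN4q2 pcN2 Cut.none Ext.none)

def k0_mm_022 : ∃ t, chk3 f_mm_022 t 1 1 1 = true :=
  ⟨(l 5), by decide +kernel⟩

theorem c_mm_022 : CertN 0 536870912 1073741824 536870912 201326592 134217728 3 false false false .pp 0 2 2
    ndN0q0 ndN4q2 pcN2 Cut.none Ext.none :=
  certN0 (fam := false) (s1 := false) (s2 := false) (a := 0) (b := 2) (c := 2) (cn := .pp) (n1 := ndN0q0) (n2 := ndN4q2) (pc := pcN2) (cut := Cut.none) (xt := Ext.none) (P1 := 0) (W1 := 536870912) (P2 := 1073741824) (W2 := 536870912) (P3 := 201326592) (W3 := 134217728) (N0 := 3)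
    rfl k0_mm_022

noncomputable def f_mm_023 : ℕ → ℕ → ℕ → ℕ → Bool := onCell 0 536870912 0 1230186008 201326592 134217728
    (rowN 3 0 false false false .up 0 2 3 (qsf 0 536870912 0 1230186008 2) ndN0q0 ndN4q3 pcN2 Cut.none Ext.none)

def k0_mm_023 : ∃ t, chk3 f_mm_023 t 1 1 1 = true :=
  ⟨(l 5), by decide +kernel⟩

theorem c_mm_023 : CertN 0 536870912 0 1230186008 201326592 134217728 3 false false false .up 0 2 3
    ndN0q0 ndN4q3 pcN2 Cut.none Ext.none :=
  certN0 (fam := false) (s1 := false) (s2 := false) (a := 0) (b := 2) (c := 3) (cn := .up) (n1 := ndN0q0) (n2 := ndN4q3) (pc := pcN2) (cut := Cut.none) (xt := Ext.none) (P1 := 0) (W1 := 536870912) (P2 := 0) (W2 := 1230186008) (P3 := 201326592) (W3 := 134217728) (N0 := 3)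
    rfl k0_mm_023

noncomputable def f_mm_033 : ℕ → ℕ → ℕ → ℕ → Bool := onCell 0 536870912 0 1230186008 201326592 134217728
    (rowN 3 0 false false false .pnn 0 3 3 (qsf 0 536870912 0 1230186008 3) ndN0q0 ndN4q3 pcN3 Cut.none Ext.none)

def k0_mm_033 : ∃ t, chk3 f_mm_033 t 1 1 1 = true :=
  ⟨(l 5), by decide +kernel⟩

theorem c_mm_033 : CertN 0 536870912 0 1230186008 201326592 134217728 3 false false false .pnn 0 3 3
    ndN0q0 ndN4q3 pcN3 Cut.none Ext.none :=
  certN0 (fam := false) (s1 := false) (s2 := false) (a := 0) (b := 3) (c := 3) (cn := .pnn) (n1 := ndN0q0) (n2 := ndN4q3) (pc := pcN3) (cut := Cut.none) (xt := Ext.none) (P1 := 0) (W1 := 536870912) (P2 := 0) (W2 := 1230186008) (P3 := 201326592) (W3 := 134217728) (N0 := 3)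
    rfl k0_mm_033

noncomputable def cut_mm_101 : Cut := Cut.of [[⟨0, 1, 0, 67108864⟩, ⟨1, 0, 0, 67108864⟩, ⟨2, 1, 0, 67108864⟩]]

noncomputable def f_mm_101 : ℕ → ℕ → ℕ → ℕ → Bool := onCell 536870912 536870912 0 536870912 201326592 134217728
    (rowN 3 1 false false false .npn 1 0 1 (qsf 536870912 536870912 536870912 536870912 0) ndN0q1 ndN4q1 pcN0 cut_mm_101 Ext.none)

def k0_mm_101 : ∃ t, chk3 f_mm_101 t 1 1 1 = true :=
  ⟨(a (l 3) (b (a (l 3) (b (a (l 3) (b (b (a (l 3) (l 6)) (l 3)) (l 3))) (l 3))) (l 3))), by decide +kernel⟩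

theorem c_mm_101 : CertN 536870912 536870912 536870912 536870912 201326592 134217728 3 false false false .npn 1 0 1
    ndN0q1 ndN4q1 pcN0 cut_mm_101 Ext.none :=
  certN1 (fam := false) (s1 := false) (s2 := false) (a := 1) (b := 0) (c := 1) (cn := .npn) (n1 := ndN0q1) (n2 := ndN4q1) (pc := pcN0) (cut := cut_mm_101) (xt := Ext.none) (P1 := 536870912) (W1 := 536870912) (P2 := 536870912) (W2 := 536870912) (P3 := 201326592) (W3 := 134217728) (N0 := 3)
    rfl (fun _ => rfl) k0_mm_101

noncomputable def f_mm_102 : ℕ → ℕ → ℕ → ℕ → Bool := onCell 536870912 536870912 1073741824 536870912 201326592 134217728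
    (rowN 3 0 false false false .npp 1 0 2 (qsf 536870912 536870912 1073741824 536870912 0) ndN0q1 ndN4q2 pcN0 Cut.none Ext.none)

def k0_mm_102 : ∃ t, chk3 f_mm_102 t 1 1 1 = true :=
  ⟨(l 3), by decide +kernel⟩

theorem c_mm_102 : CertN 536870912 536870912 1073741824 536870912 201326592 134217728 3 false false false .npp 1 0 2
    ndN0q1 ndN4q2 pcN0 Cut.none Ext.none :=
  certN0 (fam := false) (s1 := false) (s2 := false) (a := 1) (b := 0) (c := 2) (cn := .npp) (n1 := ndN0q1) (n2 := ndN4q2) (pc := pcN0) (cut := Cut.none) (xt := Ext.none) (P1 := 536870912) (W1 := 536870912) (P2 := 1073741824) (W2 := 536870912) (P3 := 201326592) (W3 := 134217728) (N0 := 3)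
    rfl k0_mm_102

noncomputable def f_mm_112 : ℕ → ℕ → ℕ → ℕ → Bool := onCell 536870912 536870912 1073741824 536870912 201326592 134217728
    (rowN 3 0 false false false .dn 1 1 2 (qsf 536870912 536870912 1073741824 536870912 1) ndN0q1 ndN4q2 pcN1 Cut.none Ext.none)

def k0_mm_112 : ∃ t, chk3 f_mm_112 t 1 1 1 = true :=
  ⟨(l 3), by decide +kernel⟩

theorem c_mm_112 : CertN 536870912 536870912 1073741824 536870912 201326592 134217728 3 false false false .dn 1 1 2
    ndN0q1 ndN4q2 pcN1 Cut.none Ext.none :=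
  certN0 (fam := false) (s1 := false) (s2 := false) (a := 1) (b := 1) (c := 2) (cn := .dn) (n1 := ndN0q1) (n2 := ndN4q2) (pc := pcN1) (cut := Cut.none) (xt := Ext.none) (P1 := 536870912) (W1 := 536870912) (P2 := 1073741824) (W2 := 536870912) (P3 := 201326592) (W3 := 134217728) (N0 := 3)
    rfl k0_mm_112

noncomputable def f_mm_113 : ℕ → ℕ → ℕ → ℕ → Bool := onCell 536870912 536870912 0 1230186008 201326592 134217728
    (rowN 3 0 false false false .nn 1 1 3 (qsf 536870912 536870912 0 1230186008 1) ndN0q1 ndN4q3 pcN1 Cut.none Ext.none)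

def k0_mm_113 : ∃ t, chk3 f_mm_113 t 1 1 1 = true :=
  ⟨(b (l 5) (a (l 5) (b (l 5) (l 3)))), by decide +kernel⟩

theorem c_mm_113 : CertN 536870912 536870912 0 1230186008 201326592 134217728 3 false false false .nn 1 1 3
    ndN0q1 ndN4q3 pcN1 Cut.none Ext.none :=
  certN0 (fam := false) (s1 := false) (s2 := false) (a := 1) (b := 1) (c := 3) (cn := .nn) (n1 := ndN0q1) (n2 := ndN4q3) (pc := pcN1) (cut := Cut.none) (xt := Ext.none) (P1 := 536870912) (W1 := 536870912) (P2 := 0) (W2 := 1230186008) (P3 := 201326592) (W3 := 134217728) (N0 := 3)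
    rfl k0_mm_113

noncomputable def f_mm_123 : ℕ → ℕ → ℕ → ℕ → Bool := onCell 1073741824 536870912 0 1230186008 201326592 134217728
    (rowN 3 2 false false false .npn 1 2 3 (qsf 536870912 536870912 0 1230186008 2) ndN0q1 ndN4q3 pcN2 Cut.none Ext.none)

def k0_mm_123 : ∃ t, chk3 f_mm_123 t 1 1 1 = true :=
  ⟨(b (l 5) (l 5)), by decide +kernel⟩

theorem c_mm_123 : CertN 536870912 536870912 0 1230186008 201326592 134217728 3 false false false .npn 1 2 3
    ndN0q1 ndN4q3 pcN2 Cut.none Ext.none :=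
  certN2 (fam := false) (s1 := false) (s2 := false) (a := 1) (b := 2) (c := 3) (cn := .npn) (n1 := ndN0q1) (n2 := ndN4q3) (pc := pcN2) (cut := Cut.none) (xt := Ext.none) (P1 := 536870912) (W1 := 536870912) (P2 := 0) (W2 := 1230186008) (P3 := 201326592) (W3 := 134217728) (N0 := 3)
    rfl (fun _ => rfl) k0_mm_123

noncomputable def f_mm_133 : ℕ → ℕ → ℕ → ℕ → Bool := onCell 1610612736 536870912 0 1230186008 201326592 134217728
    (rowN 3 2 false false false .dn 1 3 3 (qsf 536870912 536870912 0 1230186008 3) ndN0q1 ndN4q3 pcN3 Cut.none Ext.none)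

def k0_mm_133 : ∃ t, chk3 f_mm_133 t 1 1 1 = true :=
  ⟨(l 5), by decide +kernel⟩

theorem c_mm_133 : CertN 536870912 536870912 0 1230186008 201326592 134217728 3 false false false .dn 1 3 3
    ndN0q1 ndN4q3 pcN3 Cut.none Ext.none :=
  certN2 (fam := false) (s1 := false) (s2 := false) (a := 1) (b := 3) (c := 3) (cn := .dn) (n1 := ndN0q1) (n2 := ndN4q3) (pc := pcN3) (cut := Cut.none) (xt := Ext.none) (P1 := 536870912) (W1 := 536870912) (P2 := 0) (W2 := 1230186008) (P3 := 201326592) (W3 := 134217728) (N0 := 3)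
    rfl (fun _ => rfl) k0_mm_133

noncomputable def f_mm_202 : ℕ → ℕ → ℕ → ℕ → Bool := onCell 0 536870912 0 536870912 201326592 134217728
    (rowN 3 1 false false false .pp 2 0 2 (qsf 0 536870912 1073741824 536870912 0) ndN0q2 ndN4q2 pcN0 Cut.none Ext.none)

def k0_mm_202 : ∃ t, chk3 f_mm_202 t 1 1 1 = true :=
  ⟨(b (a (b (a (b (a (b (a (a (b (l 16621488) (b (l 16569040) (l 16541328))) (b (c (b (l 16528816) (a (l 16502424) (l 16506920))) (l 16600240)) (c (l 16542968) (l 16507712)))) (b (a (c (b (a (l 16526832) (l 141901172023)) (l 140827419415)) (b (a (l 16481408) (l 16502872)) (l 16490720))) (l 3)) (c (l 144585585447) (l 144585514135)))) (b (c (a (a (l 16526304) (l 105394073415)) (l 146196234759)) (a (l 95730401959) (l 146196178983))) (a (c (l 141901359831) (l 140827599607)) (l 3)))) (l 3)) (a (a (c (b (a (l 121500299799) (l 147806902855)) (l 150491791367)) (b (a (l 118279062711) (l 147269958519)) (l 149417540487))) (l 3)) (l 3))) (l 3)) (l 3)) (l 3)) (l 3)), by decide +kernel⟩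

theorem c_mm_202 : CertN 0 536870912 1073741824 536870912 201326592 134217728 3 false false false .pp 2 0 2
    ndN0q2 ndN4q2 pcN0 Cut.none Ext.none :=
  certN1 (fam := false) (s1 := false) (s2 := false) (a := 2) (b := 0) (c := 2) (cn := .pp) (n1 := ndN0q2) (n2 := ndN4q2) (pc := pcN0) (cut := Cut.none) (xt := Ext.none) (P1 := 0) (W1 := 536870912) (P2 := 1073741824) (W2 := 536870912) (P3 := 201326592) (W3 := 134217728) (N0 := 3)
    rfl (fun _ => rfl) k0_mm_202

noncomputable def f_mm_203 : ℕ → ℕ → ℕ → ℕ → Bool := onCell 0 536870912 0 1230186008 201326592 134217728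
    (rowN 3 0 false false false .up 2 0 3 (qsf 0 536870912 0 1230186008 0) ndN0q2 ndN4q3 pcN0 Cut.none Ext.none)

def k0_mm_203 : ∃ t, chk3 f_mm_203 t 1 1 1 = true :=
  ⟨(b (l 2) (b (l 2) (l 3))), by decide +kernel⟩

theorem c_mm_203 : CertN 0 536870912 0 1230186008 201326592 134217728 3 false false false .up 2 0 3
    ndN0q2 ndN4q3 pcN0 Cut.none Ext.none :=
  certN0 (fam := false) (s1 := false) (s2 := false) (a := 2) (b := 0) (c := 3) (cn := .up) (n1 := ndN0q2) (n2 := ndN4q3) (pc := pcN0) (cut := Cut.none) (xt := Ext.none) (P1 := 0) (W1 := 536870912) (P2 := 0) (W2 := 1230186008) (P3 := 201326592) (W3 := 134217728) (N0 := 3)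
    rfl k0_mm_203

noncomputable def f_mm_213 : ℕ → ℕ → ℕ → ℕ → Bool := onCell 0 536870912 0 1230186008 201326592 134217728
    (rowN 3 0 false false false .pnn 2 1 3 (qsf 0 536870912 0 1230186008 1) ndN0q2 ndN4q3 pcN1 Cut.none Ext.none)

def k0_mm_213 : ∃ t, chk3 f_mm_213 t 1 1 1 = true :=
  ⟨(b (a (l 3) (b (l 5) (l 3))) (b (l 3) (l 3))), by decide +kernel⟩

theorem c_mm_213 : CertN 0 536870912 0 1230186008 201326592 134217728 3 false false false .pnn 2 1 3
    ndN0q2 ndN4q3 pcN1 Cut.none Ext.none :=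
  certN0 (fam := false) (s1 := false) (s2 := false) (a := 2) (b := 1) (c := 3) (cn := .pnn) (n1 := ndN0q2) (n2 := ndN4q3) (pc := pcN1) (cut := Cut.none) (xt := Ext.none) (P1 := 0) (W1 := 536870912) (P2 := 0) (W2 := 1230186008) (P3 := 201326592) (W3 := 134217728) (N0 := 3)
    rfl k0_mm_213

end Pool.Agent.Strip051.G.I3_16_5_16.Tab.C.NB04

namespace Pool.Agent.Strip051.G.I3_16_5_16.Tab.C.NB05

open Pool.Agent.Strip051.PB Pool.Agent.Strip051.PB.T
open Pool.Agent.Strip051.G.I3_16_5_16.Tab

noncomputable def f_pp_001 : ℕ → ℕ → ℕ → ℕ → Bool := onCell 0 536870912 0 536870912 201326592 134217728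
    (rowN 3 1 false true true .up 0 0 1 (qsf 0 536870912 536870912 536870912 0) ndN0q0 ndN5q1 pcN0 Cut.none Ext.none)

def k0_pp_001 : ∃ t, chk3 f_pp_001 t 1 1 1 = true :=
  ⟨(l 3), by decide +kernel⟩

theorem c_pp_001 : CertN 0 536870912 536870912 536870912 201326592 134217728 3 false true true .up 0 0 1
    ndN0q0 ndN5q1 pcN0 Cut.none Ext.none :=
  certN1 (fam := false) (s1 := true) (s2 := true) (a := 0) (b := 0) (c := 1) (cn := .up) (n1 := ndN0q0) (n2 := ndN5q1) (pc := pcN0) (cut := Cut.none) (xt := Ext.none) (P1 := 0) (W1 := 536870912) (P2 := 536870912) (W2 := 536870912) (P3 := 201326592) (W3 := 134217728) (N0 := 3)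
    rfl (fun _ => rfl) k0_pp_001

noncomputable def cut_pp_011 : Cut := Cut.of [[⟨0, 0, 0, 67108864⟩, ⟨1, 1, 0, 67108864⟩, ⟨2, 1, 0, 67108864⟩]]

noncomputable def f_pp_011 : ℕ → ℕ → ℕ → ℕ → Bool := onCell 0 536870912 536870912 536870912 201326592 134217728
    (rowN 3 1 false true true .pnn 0 1 1 (qsf 0 536870912 536870912 536870912 1) ndN0q0 ndN5q1 pcN1 cut_pp_011 Ext.none)

def k0_pp_011 : ∃ t, chk3 f_pp_011 t 1 1 1 = true :=
  ⟨(b (l 3) (a (b (l 3) (a (b (l 3) (a (b (l 3) (a (l 6) (l 3))) (l 3))) (l 3))) (l 3))), by decide +kernel⟩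

theorem c_pp_011 : CertN 0 536870912 536870912 536870912 201326592 134217728 3 false true true .pnn 0 1 1
    ndN0q0 ndN5q1 pcN1 cut_pp_011 Ext.none :=
  certN1 (fam := false) (s1 := true) (s2 := true) (a := 0) (b := 1) (c := 1) (cn := .pnn) (n1 := ndN0q0) (n2 := ndN5q1) (pc := pcN1) (cut := cut_pp_011) (xt := Ext.none) (P1 := 0) (W1 := 536870912) (P2 := 536870912) (W2 := 536870912) (P3 := 201326592) (W3 := 134217728) (N0 := 3)
    rfl (fun _ => rfl) k0_pp_011

noncomputable def cut_pp_012 : Cut := Cut.of [[⟨0, 0, 0, 67108864⟩, ⟨1, 1, 0, 67108864⟩, ⟨2, 1, 0, 67108864⟩]]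

noncomputable def f_pp_012 : ℕ → ℕ → ℕ → ℕ → Bool := onCell 0 536870912 536870912 536870912 201326592 134217728
    (rowN 3 1 false true true .pnp 0 1 2 (qsf 0 536870912 1073741824 536870912 1) ndN0q0 ndN5q2 pcN1 cut_pp_012 Ext.none)

def k0_pp_012 : ∃ t, chk3 f_pp_012 t 1 1 1 = true :=
  ⟨(b (l 3) (a (b (l 3) (a (b (l 3) (a (b (l 3) (a (l 6) (l 3))) (l 3))) (l 3))) (l 3))), by decide +kernel⟩

theorem c_pp_012 : CertN 0 536870912 1073741824 536870912 201326592 134217728 3 false true true .pnp 0 1 2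
    ndN0q0 ndN5q2 pcN1 cut_pp_012 Ext.none :=
  certN1 (fam := false) (s1 := true) (s2 := true) (a := 0) (b := 1) (c := 2) (cn := .pnp) (n1 := ndN0q0) (n2 := ndN5q2) (pc := pcN1) (cut := cut_pp_012) (xt := Ext.none) (P1 := 0) (W1 := 536870912) (P2 := 1073741824) (W2 := 536870912) (P3 := 201326592) (W3 := 134217728) (N0 := 3)
    rfl (fun _ => rfl) k0_pp_012

noncomputable def cut_pp_022 : Cut := Cut.of [[⟨0, 0, 0, 67108864⟩, ⟨1, 1, 0, 67108864⟩, ⟨2, 1, 0, 67108864⟩]]

noncomputable def f_pp_022 : ℕ → ℕ → ℕ → ℕ → Bool := onCell 0 536870912 1073741824 536870912 201326592 134217728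
    (rowN 3 1 false true true .pp 0 2 2 (qsf 0 536870912 1073741824 536870912 2) ndN0q0 ndN5q2 pcN2 cut_pp_022 Ext.none)

def k0_pp_022 : ∃ t, chk3 f_pp_022 t 16 16 1 = true :=
  ⟨(b (l 6) (a (l 6) (b (l 6) (a (l 6) (a (l 6) (b (l 6) (b (l 6) (c (l 16751880) (l 16755024))))))))), by decide +kernel⟩

def k1_pp_022 : ∃ t, chk3 f_pp_022 t 17 32 1 = true :=
  ⟨(a (a (l 6) (l 3)) (l 3)), by decide +kernel⟩

def k2_pp_022 : ∃ t, chk3 f_pp_022 t 68 66 1 = true :=
  ⟨(a (l 6) (b (l 6) (a (l 6) (a (l 6) (b (l 6) (c (l 16772840) (l 16774296))))))), by decide +kernel⟩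

def k3_pp_022 : ∃ t, chk3 f_pp_022 t 69 132 1 = true :=
  ⟨(b (l 3) (b (l 3) (a (a (l 6) (l 3)) (l 3)))), by decide +kernel⟩

def k4_pp_022 : ∃ t, chk3 f_pp_022 t 69 266 1 = true :=
  ⟨(a (c (b (a (l 6) (b (a (l 6) (l 3)) (b (a (l 6) (l 3)) (a (c (l 16778576) (l 16778624)) (a (c (l 201494368135) (l 203104981063)) (l 3)))))) (a (c (l 16776584) (l 16776680)) (c (c (a (l 16778336) (a (l 16779224) (b (b (l 192367562071) (l 16777504)) (l 16776584)))) (a (l 16778376) (a (l 16779264) (b (b (l 192904433175) (l 16777536)) (l 16776624))))) (a (l 16778432) (a (l 16779304) (b (b (l 193978175511) (l 16777568)) (l 16779288))))))) (b (a (l 6) (b (a (l 6) (l 3)) (b (a (l 6) (l 3)) (a (c (l 16778648) (l 16778648)) (a (c (l 205789335607) (l 208473690311)) (l 3)))))) (a (c (l 16776752) (l 16776800)) (c (a (l 16778480) (a (l 16779344) (b (b (l 196662530055) (l 16777584)) (l 16776704)))) (a (l 16778504) (a (l 16779352) (b (b (l 199883755639) (l 16777584)) (l 16776712)))))))) (c (b (l 3) (a (b (b (l 3)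 (a (a (c (l 183777627927) (l 184851369959)) (l 3)) (l 3))) (a (a (l 16779192) (b (c (l 174650822375) (l 176261435319)) (l 16778816))) (a (b (l 3) (c (l 165524016839) (l 167134629623))) (c (l 351818225543) (l 365239998327))))) (l 3))) (b (l 3) (a (b (b (l 3) (a (a (c (l 188072595415) (l 190756950087)) (l 3)) (l 3))) (b (a (a (l 16778888) (c (l 178945789879) (l 182167015431))) (l 3)) (c (a (l 16777272) (a (l 169818984343) (l 391009798791))) (a (l 16777272) (a (l 173040209895) (l 409263409703)))))) (l 3))))), by decide +kernel⟩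

def k5_pp_022 : ∃ t, chk3 f_pp_022 t 69 267 1 = true :=
  ⟨(a (c (b (a (l 16775024) (c (l 16776496) (l 16776608))) (c (l 16774144) (l 16774552))) (a (c (l 16775824) (l 16773288)) (c (l 16777464) (c (l 16775552) (l 16776880))))) (c (b (a (c (c (a (l 16778248) (a (l 16779144) (b (l 93046443287) (l 16776496)))) (a (l 16778296) (b (c (l 65666026711) (l 65129155831)) (l 16781488)))) (a (l 16778360) (b (c (c (l 64592284951) (l 64055414055)) (l 63518543335)) (l 16778920)))) (b (a (c (b (l 351818225447) (a (l 140291083975) (l 352355093031))) (b (l 364703127335) (a (l 141364825847) (l 369534962231)))) (l 3)) (a (a (l 16779768) (c (l 80698412647) (l 79624671015))) (c (b (l 347523258023) (a (l 121500601767) (l 332490869159))) (b (l 360945030839) (a (l 16779328) (l 350207609287))))))) (b (a (l 16777080) (a (l 16778848) (c (l 47949286919) (l 16779064)))) (c (l 16777968) (c (l 16778376) (l 16778424))))) (b (a (b (a (l 16779016) (a (l 16779872) (c (l 90898960455) (l 90362089527)))) (c (l 16778392)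 (l 16778416))) (b (a (c (b (l 381346122935) (a (l 143512309575) (l 390472927767))) (b (l 402284088407) (a (l 146733535079) (l 407115925959)))) (l 3)) (b (a (c (l 80698412903) (l 80161542151)) (c (l 378661768263) (l 400673475559))) (a (l 16779824) (a (a (l 16779216) (l 181630145959)) (a (l 355576321975) (l 3))))))) (a (l 16777952) (a (l 16779008) (a (l 16779216) (c (l 27011321911) (l 16779456)))))))), by decide +kernel⟩

def k6_pp_022 : ∃ t, chk3 f_pp_022 t 34 67 1 = true :=
  ⟨(a (c (b (b (a (l 6) (a (l 16767688) (l 16770048))) (a (c (l 16763104) (l 16762368)) (c (l 16766488) (l 16765864)))) (a (c (b (l 16764736) (l 16761160)) (l 16759360)) (c (l 16762400) (l 16762872)))) (b (a (b (l 6) (l 16761368)) (c (l 16768216) (l 16768096))) (a (c (l 16755864) (l 16755064)) (c (l 16759480) (l 16758784))))) (b (c (b (a (c (l 16772096) (l 16771736)) (b (a (l 16775352) (l 16777696)) (c (l 16775768) (l 16775496)))) (a (c (l 16769808) (l 16769304)) (c (l 16771760) (l 16772688)))) (b (a (c (l 16772728)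 (l 16772456)) (a (l 16775152) (b (l 16777880) (l 16776824)))) (a (l 16768648) (c (l 16772360) (l 16772208))))) (c (a (c (b (l 16766216) (l 16767904)) (l 16765672)) (c (c (l 16768528) (l 16768864)) (l 16767760))) (b (c (l 16768040) (l 16767568)) (c (l 16762888) (l 16762296)))))), by decide +kernel⟩

def k7_pp_022 : ∃ t, chk3 f_pp_022 t 35 66 1 = true :=
  ⟨(b (l 3) (a (b (l 3) (a (c (b (l 3) (a (b (a (c (b (l 331417130551) (a (l 16779248) (l 311552903479))) (b (l 346449516087) (a (l 16779296) (l 257865814599)))) (l 3)) (a (c (l 16778632) (l 16778696)) (c (b (a (l 241759687303) (l 3)) (c (l 146733535431) (l 147270406391))) (b (a (l 246591525559) (l 3)) (c (l 147270406503) (l 147807277511)))))) (l 3))) (b (l 3) (a (b (a (c (b (l 363629382615) (a (l 16779312) (l 268603232647))) (b (l 384567348087) (c (l 165524017783) (l 168208372311)))) (l 3)) (c (a (l 16778736) (b (a (l 251423363991) (l 3)) (c (l 149417890247) (l 151028502983)))) (a (l 16780048) (b (l 370071833351) (c (l 153175986599)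 (l 154249728551)))))) (l 3)))) (l 3))) (l 3))), by decide +kernel⟩

def k8_pp_022 : ∃ t, chk3 f_pp_022 t 70 268 1 = true :=
  ⟨(a (c (a (b (c (c (l 16778664) (l 16778720)) (l 16779440)) (l 16777608)) (b (b (a (c (b (a (l 221895463447) (l 3)) (c (l 133311762423) (l 133848633399))) (b (a (l 226727301703) (l 3)) (c (l 133848633607) (l 134385504535)))) (l 3)) (c (a (l 16779856) (b (a (l 201494368679) (l 3)) (l 119889990087))) (a (l 16779928) (b (a (l 205789336103) (l 3)) (l 120426861111))))) (c (l 16778600) (c (l 16778680) (l 16778720))))) (b (b (a (c (l 16779432) (l 16779448)) (a (c (b (a (l 231022269223) (l 3)) (c (l 135996117287) (l 138143600919))) (b (l 355576318615) (c (l 139754213703) (l 140827955639)))) (l 3))) (a (l 16778264) (a (l 16779976) (c (b (a (l 210621174471) (l 3)) (l 121500603127)) (b (l 341080803879) (l 124184957671)))))) (a (l 16777800) (c (l 16778760) (l 16778792))))) (c (b (l 3) (a (b (b (a (a (a (l 152639116263) (l 242296559335)) (l 358797549799)) (l 3)) (a (c (l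 105394475383) (l 105394475495)) (c (l 353965706903) (l 369534963367)))) (c (a (l 16779760) (b (a (l 152639115367) (l 357186931671)) (l 16779320))) (a (l 16777216) (b (a (l 16779512) (l 377588026359)) (l 16779384))))) (a (a (b (l 3) (b (l 3) (l 350744485927))) (l 3)) (l 3)))) (b (l 3) (a (b (a (c (b (a (l 190220079655) (l 395841637447)) (l 107005088455)) (b (l 326048418231) (l 109689442999))) (c (l 383493607671) (l 405505314919))) (a (l 16779896) (a (c (l 96804541063) (l 98952024711)) (b (l 391546673927) (l 152102246535))))) (b (l 3) (a (c (l 382956736631) (l 405505314791)) (l 3))))))), by decide +kernel⟩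

def k9_pp_022 : ∃ t, chk3 f_pp_022 t 70 269 1 = true :=
  ⟨(c (a (a (l 16775008) (a (l 16775704) (l 16777536))) (a (c (l 16779232) (l 16779040)) (b (b (b (a (c (l 180019533271) (l 183240758791)) (l 3)) (a (c (l 16779272) (l 16779344)) (c (l 336785837431) (l 358797544855)))) (b (a (l 16780016) (c (l 165524018535) (l 168208373159))) (c (l 16779944) (l 16780032)))) (c (l 16781024) (l 16778520))))) (a (a (l 16775568) (a (l 16777280) (l 16777768))) (b (a (c (l 16778680) (l 16778712)) (a (a (c (l 16780120) (l 16780128)) (b (b (l 380272384647) (l 130627409959)) (l 16780104))) (a (b (c (l 381346123143) (l 400136604951)) (c (l 16778032) (l 16778032))) (b (l 3) (c (l 173577082599) (l 178408920743)))))) (a (l 16778952) (c (l 16778600) (l 16778632)))))), by decide +kernel⟩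

def k10_pp_022 : ∃ t, chk3 f_pp_022 t 71 134 1 = true :=
  ⟨(b (l 3) (a (c (b (a (a (a (b (l 3) (b (l 3) (l 302426103591))) (l 3)) (l 3)) (l 3)) (a (b (b (a (c (l 150491632791) (l 153175987591)) (l 3)) (a (l 16780528) (c (l 304036714151) (l 322290322567)))) (a (l 16779616) (a (l 16780496) (b (l 216526756503) (l 16780760))))) (a (b (l 3) (b (l 3) (a (l 205252467287) (l 360945033943)))) (l 3)))) (b (a (b (l 3) (a (c (b (l 3) (l 360408157415)) (l 386177961703)) (l 3))) (l 3)) (a (a (b (a (l 16780624) (b (l 256792075799) (l 16780872))) (l 16779744)) (b (c (b (l 3) (l 343765159015)) (l 374366801511)) (c (l 97878283799) (c (l 101099508615) (l 103246992231))))) (b (l 3) (a (c (b (l 3) (l 326585289719)) (l 362018770407)) (l 3)))))) (l 3))), by decide +kernel⟩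

def k11_pp_022 : ∃ t, chk3 f_pp_022 t 35 135 1 = true :=
  ⟨(a (c (b (a (c (l 16772704) (l 16772296)) (a (l 16775056) (l 16777408))) (a (l 16769368) (l 16772184))) (b (a (l 16773288) (c (l 16776488) (l 16777240))) (a (l 16767880) (l 16773088)))) (b (a (a (c (c (l 16779680) (l 16779840)) (c (l 16779944) (l 16779344))) (c (b (c (b (a (l 83919639431) (b (l 356650061927) (l 207936821271))) (l 44728063047)) (b (a (l 83919639927) (b (l 376514285687) (l 211694918055))) (l 42580579607))) (l 16779584)) (b (c (b (a (l 86067123655) (b (l 396915380295) (l 217600498231))) (l 39896225335)) (b (a (l 87677736391) (l 349670739303)) (l 37748741879))) (c (l 16781048) (l 16781096))))) (c (b (a (b (l 3) (a (c (b (l 356113190855) (l 191830693783)) (b (l 374903672807) (l 195588790567))) (l 3))) (l 3)) (a (a (c (l 16779976) (l 16780088)) (b (a (b (l 337322713447) (l 16779840)) (l 336248972199)) (l 51707386135))) (b (l 3) (a (c (b (l 328732774039) (l 157470955255)) (b (l 349670739655) (l 163913406295)))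 (l 3))))) (b (a (b (l 3) (a (c (b (l 395304767415) (l 202568112423)) (b (l 409800281895) (l 209010563607))) (l 3))) (l 3)) (a (a (c (l 16780152) (l 16780168)) (b (c (b (l 389399187239) (l 185925114071)) (b (l 406579056295) (l 192367565255))) (l 50633645031))) (b (l 3) (a (c (b (l 375977414295) (l 168745244839)) (b (l 390472928807) (l 178408921191))) (l 3))))))) (c (a (b (l 16777256) (l 16774768)) (c (b (a (l 16780704) (b (a (l 16777856) (b (l 311016033783) (l 140291085831))) (l 16779832))) (l 16779392)) (b (a (l 16780856) (b (a (l 16777960) (b (l 331417128503) (l 146733536983))) (l 16779960))) (l 16779576)))) (a (c (l 16776296) (l 16776408)) (b (a (c (l 16780960) (l 16781008)) (b (a (l 16780656) (a (b (l 259476430967) (l 16781160)) (b (l 3) (l 250886496439)))) (l 16781368))) (c (a (l 16778552) (l 16780864)) (l 16779776))))))), by decide +kernel⟩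

def k12_pp_022 : ∃ t, chk3 f_pp_022 t 16 17 1 = true :=
  ⟨(b (a (a (l 6) (a (l 6) (b (l 6) (b (l 6) (c (l 16715528) (l 16701064)))))) (b (c (a (a (l 6) (b (l 6) (c (l 16728368) (l 16726592)))) (a (b (c (l 16749136) (l 16747688)) (c (l 16732016) (l 16730304))) (b (c (l 16752632) (l 16751296)) (l 16743864)))) (a (a (l 6) (b (l 6) (l 16734616))) (a (b (l 16745712) (l 16738424)) (b (l 16749464) (l 16742160))))) (a (a (c (c (l 16724304) (l 16722296)) (l 16724672)) (c (c (l 16728488) (l 16726432)) (l 16728768))) (c (a (c (l 16732432) (l 16730376)) (c (l 16735952) (l 16733960))) (b (c (l 16733784) (l 16732096)) (l 16731008)))))) (a (b (a (a (l 6) (c (c (l 16686616) (l 16684408)) (l 16681152))) (c (c (a (l 16691008) (l 16695352)) (l 16706616)) (a (l 16706416) (l 16710672)))) (c (a (c (l 16690856) (l 16688360)) (c (l 16699792) (l 16697192))) (a (l 16684656) (l 16693368)))) (c (a (b (c (a (l 16699656) (l 16703920)) (l 16715128)) (c (l 16698088) (l 16705864))) (b (c (b (l 16724312) (l 16706744))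 (l 16723616)) (c (l 16706704) (l 16714368)))) (a (b (c (l 16718072) (l 16715864)) (l 16701928)) (b (c (l 16726488) (l 16724224)) (l 16710320)))))), by decide +kernel⟩

def k13_pp_022 : ∃ t, chk3 f_pp_022 t 17 17 1 = true :=
  ⟨(b (a (b (c (a (a (b (a (l 16749344) (l 16751080)) (l 16746040)) (b (a (l 16752800) (l 16754504)) (l 16749464))) (b (c (a (l 16762792) (l 16766056)) (a (l 16761784) (l 16765160))) (a (l 16752832) (l 16756144)))) (a (a (b (l 16750544) (l 16745848)) (b (l 16754200) (l 16749480))) (c (b (l 16758336) (l 16755360)) (b (l 16757872) (l 16754304))))) (c (a (c (a (l 16739576) (l 16742952)) (a (l 16737656) (l 16741128))) (c (b (l 16751160) (l 16744672)) (b (l 16749640) (l 16742856)))) (a (a (l 16740224) (l 16743840)) (a (l 16747408) (l 16748296))))) (b (c (a (a (b (c (l 16764024) (l 16768488)) (l 16759400)) (b (c (l 16767168) (l 16766504)) (l 16762584))) (b (b (a (l 16771728) (c (l 16775616) (l 16775872))) (a (l 16768248) (l 16771328))) (c (a (l 16768768) (l 16771776))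 (l 16766872)))) (a (a (b (l 16764832) (l 16760056)) (b (l 16768272) (l 16763464))) (b (a (c (l 16771864) (l 16771824)) (a (l 16775832) (a (l 16776904) (l 16778064)))) (c (l 16766176) (l 16768176))))) (b (c (a (c (l 16754928) (l 16756240)) (c (l 16761064) (l 16762600))) (a (l 16755112) (l 16758528))) (c (a (c (l 16751072) (l 16749456)) (c (l 16757216) (l 16755824))) (a (l 16747248) (l 16753928)))))) (b (a (c (a (c (a (l 16736920) (l 16719584)) (l 16730880)) (c (l 16735032) (l 16732768))) (b (a (l 16725976) (l 16733192)) (a (l 16729264) (l 16736560)))) (c (b (a (l 16743696) (l 16749968)) (a (l 16737200) (l 16743504))) (a (c (l 16737440) (l 16735624)) (b (l 16757264) (l 16750176))))) (a (c (a (c (l 16715192) (l 16722760)) (c (l 16722152) (l 16729792))) (a (l 16718616) (l 16725792))) (c (a (c (l 16739432) (l 16736736)) (c (l 16745704) (l 16743176))) (a (l 16732960) (l 16734432)))))), by decide +kernel⟩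

def k14_pp_022 : ∃ t, chk3 f_pp_022 t 9 16 1 = true :=
  ⟨(a (b (l 3) (b (l 3) (a (b (l 3) (a (b (l 3) (a (c (b (a (b (a (c (l 356650063127) (l 375977415975)) (l 3)) (a (c (b (l 228337916791) (l 16779928)) (b (l 235317238887) (l 16780008))) (c (l 356113192039) (l 374903673991)))) (l 3)) (b (a (a (l 16780432) (c (c (l 152639117575) (l 154249730391)) (l 156934085671))) (a (c (l 355576320967) (l 374903673831)) (l 3))) (a (l 16779792) (a (c (l 140827957847) (l 144049183575)) (c (l 350744482583) (l 371145577287)))))) (c (b (a (b (l 387251706247) (a (b (l 253570849543) (l 16780040)) (l 397989123127))) (l 3)) (b (a (a (l 16777936) (a (l 16778720) (l 225653562471))) (l 386714835015)) (a (l 16777320) (a (l 148344151127) (l 394231026439))))) (b (a (b (l 409800284343) (a (b (l 276656298151) (l 16778712)) (l 411947766663))) (l 3)) (b (a (a (l 16777952) (a (l 16778704) (l 237464722423))) (l 409800284023)) (a (l 16777352) (a (l 154249731207) (l 409263411799))))))) (l 3))) (l 3))) (l 3)))) (l 3)),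 by decide +kernel⟩

def k15_pp_022 : ∃ t, chk3 f_pp_022 t 72 136 1 = true :=
  ⟨(c (b (a (c (a (l 16779200) (a (l 16780992) (b (c (l 79624673287) (l 79624673431)) (l 16775680)))) (a (l 16779400) (a (l 16781168) (b (c (l 79624673559) (l 79624673655)) (l 16775864))))) (b (a (b (a (c (l 334638355047) (l 359334417063)) (l 3)) (a (c (l 114521282695) (l 117205637783)) (c (l 319605969351) (l 339470193159)))) (l 3)) (b (a (c (l 16780392) (l 16780856)) (a (c (l 305110454551) (l 324974678375)) (l 3))) (a (l 16782176) (a (c (l 16781224) (l 16778728)) (a (l 219211113543) (l 362555647847))))))) (a (l 16776776) (a (l 16779048) (c (b (l 16779968) (l 16785296)) (l 16780208))))) (b (a (a (c (l 16779544) (l 16779624)) (a (c (l 16781280) (l 16781336)) (b (b (c (l 135996119831) (l 141901699975)) (l 16783056)) (l 16781264)))) (b (a (b (a (c (l 384030478951) (l 398525993415)) (l 3)) (a (c (l 122037476087) (l 129016797911)) (c (l 364166255063) (l 376514285879)))) (l 3)) (b (a (c (l 16780928) (l 63518546903))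 (a (b (l 404968444743) (l 250886498743)) (l 3))) (a (l 16782384) (a (c (l 16778792) (l 16778792)) (c (l 330343387319) (l 345375772711))))))) (a (l 16778520) (a (b (l 16780584) (l 16778152)) (a (l 16781112) (c (l 16779608) (l 16780968))))))), by decide +kernel⟩

def k16_pp_022 : ∃ t, chk3 f_pp_022 t 73 136 1 = true :=
  ⟨(b (l 3) (a (b (b (a (a (b (c (l 355576325863) (l 398525993495)) (c (l 191830696727) (l 205789341303))) (l 3)) (l 3)) (a (a (c (l 16781184) (l 16781336)) (c (c (l 206326210871) (l 212768662087)) (c (l 220284855015) (l 231022273303)))) (a (a (c (l 367924357815) (l 391009801639)) (l 3)) (l 3)))) (a (c (l 16781248) (l 16781472)) (c (b (a (c (l 184851374087) (l 191830696247)) (c (l 362555643831) (l 385104222183))) (a (l 16783688) (a (l 140291088775) (l 248202144263)))) (b (a (c (l 206863081959) (l 217600500247)) (c (l 399062865815) (l 413021509319))) (a (l 16781248) (a (l 153712862199) (l 260550175559))))))) (b (l 3) (b (l 3) (b (l 3) (a (a (c (l 363629390103) (l 402820961335))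 (l 3)) (l 3))))))), by decide +kernel⟩

def k17_pp_022 : ∃ t, chk3 f_pp_022 t 36 137 1 = true :=
  ⟨(a (b (a (c (l 16776128) (l 16776240)) (c (l 16776488) (l 16778272))) (c (c (l 16769264) (l 16773896)) (l 16773640))) (b (a (c (c (l 16779840) (b (l 16781336) (l 16784072))) (c (b (l 16781480) (l 16784264)) (l 16780352))) (b (b (a (c (a (c (l 155323473639) (l 162302795767)) (c (l 359871288887) (l 383493609079))) (a (c (l 171966472199) (l 186461986711)) (c (l 396378510903) (l 409800283511)))) (l 3)) (a (c (c (l 90898964231) (l 92509577287)) (c (l 94657061255) (l 98952028567))) (a (b (l 3) (c (l 343765166007) (l 386177962759))) (l 3)))) (b (c (a (l 16782920) (a (l 131164284343) (l 327122170807))) (a (l 16783168) (a (c (l 16779440) (l 16779416)) (b (l 389399189223) (l 278803787111))))) (c (c (l 16781440) (l 16781640)) (c (l 36675002967) (c (l 16780504) (l 16780512))))))) (a (c (l 16777488) (l 16775400)) (c (c (l 16779544) (b (l 16781080) (l 16783792))) (c (l 16780016) (l 16780128)))))),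 by decide +kernel⟩

def k18_pp_022 : ∃ t, chk3 f_pp_022 t 36 69 1 = true :=
  ⟨(c (b (a (c (l 16766944) (l 16766096)) (b (a (l 16775160) (l 16779792)) (l 16771912))) (a (c (l 16763112) (l 16761944)) (l 16766960))) (b (a (l 16766960) (a (l 16773200) (l 16777904))) (a (l 16760384) (l 16766600)))), by decide +kernel⟩

def k19_pp_022 : ∃ t, chk3 f_pp_022 t 37 68 1 = true :=
  ⟨(b (l 3) (a (b (a (b (l 3) (b (l 3) (a (a (a (c (l 256792079143) (l 271824465175)) (c (l 368461223543) (l 403357832727))) (l 3)) (l 3)))) (l 3)) (a (b (b (a (a (c (l 16781872) (l 16782024)) (c (c (l 244444045671) (l 258402691735)) (c (l 268066368135) (l 286856849479)))) (l 3)) (a (c (l 16781272) (l 16781496)) (c (a (l 228337920871) (l 370071842903)) (c (l 346449516359) (l 362018772615))))) (b (c (a (l 16782648) (c (l 133311767927) (l 140291090231))) (a (l 16777704) (a (l 16779336) (a (l 207399953639) (l 289004334743))))) (c (l 16782584) (l 16782896)))) (a (b (l 3) (c (b (a (l 368998100871) (l 3)) (a (l 190756957479)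 (l 365240004295))) (a (c (l 324437808743) (l 339470194087)) (b (l 3) (l 404968446391))))) (l 3)))) (l 3))), by decide +kernel⟩

def k20_pp_022 : ∃ t, chk3 f_pp_022 t 37 69 1 = true :=
  ⟨(b (a (b (a (c (l 16782016) (c (l 16779760) (l 16779896))) (b (a (c (c (l 79624676375) (l 80698418935)) (a (l 16783936) (c (l 119889995255) (l 129553671591)))) (c (b (a (l 364166262263) (l 3)) (a (l 159081573095) (l 355039456567))) (b (a (l 403357833479) (l 3)) (a (l 176261443127) (l 400136607831))))) (c (c (l 16781480) (l 39359358439)) (a (l 16782112) (c (l 16781720) (l 16781760)))))) (c (c (l 16781688) (l 16782080)) (c (l 16781064) (a (l 16780216) (l 16784896))))) (b (a (a (b (l 3) (a (c (b (l 342154554487) (l 16782488)) (b (l 385104222151) (l 16782632))) (b (l 3) (c (l 270750725303) (l 371682450503))))) (l 3)) (l 3)) (a (b (c (a (l 16782648) (b (a (l 259476436311) (l 358260678455)) (c (l 150491638359) (l 158007831495)))) (a (c (l 16778984) (l 16779040)) (b (a (l 278803788839) (l 389399191159))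 (c (l 167671508151) (l 181630151687))))) (c (l 16782632) (c (l 16782968) (l 16783064)))) (b (a (a (b (l 3) (c (l 373829934679) (l 387251707319))) (l 3)) (l 3)) (c (c (a (b (l 289541200119) (l 16782656)) (l 360408163847)) (a (b (l 315847874967) (l 16782848)) (l 380809258551))) (c (a (b (l 335175227783) (l 16782936)) (l 400673482151)) (a (b (l 351281354935) (l 157470959783)) (l 414095254599)))))))) (b (a (c (l 16776680) (l 16777480)) (a (c (c (b (l 16785096) (l 16792944)) (l 16784184)) (l 16784576)) (c (b (b (a (l 16779040) (a (l 16782688) (l 367924354023))) (c (l 16784056) (l 16784344))) (l 16782312)) (b (a (l 16784040) (b (a (l 212231792887) (l 399599737751)) (l 118816257079))) (l 16782784))))) (a (c (l 16772136) (l 16772440)) (b (c (l 16782520) (a (l 16780808) (l 16785552))) (c (l 16779888) (l 16780672)))))), by decide +kernel⟩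

def k21_pp_022 : ∃ t, chk3 f_pp_022 t 18 35 1 = true :=
  ⟨(b (a (c (a (c (l 16756208) (l 16754544)) (c (l 16761560) (l 16760432))) (a (b (l 16753240) (l 16756640)) (l 16759160))) (c (b (a (l 16765968) (b (l 16775936) (l 16781408))) (c (l 16765488) (l 16764208))) (b (a (l 16765432) (l 16776976)) (a (l 16768864) (l 16774624))))) (a (c (a (c (l 16751712) (l 16749376)) (c (l 16757456) (l 16755312))) (a (l 16740912) (l 16747160))) (c (a (c (l 16762920) (l 16760992)) (c (l 16768104) (l 16766408))) (c (l 16759416) (l 16758600))))), by decide +kernel⟩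

def k22_pp_022 : ∃ t, chk3 f_pp_022 t 19 34 1 = true :=
  ⟨(b (l 3) (a (b (l 3) (a (b (a (c (b (a (c (l 356650066983) (l 379198645367)) (l 3)) (a (c (l 134385512615) (c (l 138680479431) (l 141901705207))) (b (l 356113196919) (a (l 261087050023) (l 360408162807))))) (c (b (a (l 399062868983) (l 3)) (a (c (l 146196672583) (l 151028510823)) (l 385104224855))) (b (a (l 411410899623) (l 3)) (a (a (l 16780240) (l 232096017559)) (l 401210351911))))) (l 3)) (a (c (a (l 16787312) (a (l 16783864) (c (l 88214613735) (l 91435839815)))) (a (l 16787832) (a (l 16784304) (b (b (l 276656306103) (l 16780584)) (l 16779000))))) (c (b (a (b (a (l 377588031767) (l 3)) (a (l 235854117447) (l 375977418807))) (l 3)) (a (c (l 16785320) (l 16785608)) (b (a (l 374366805847) (l 3)) (a (l 16780520) (l 282561887895))))) (c (b (a (l 369534966695) (l 3)) (a (l 16783136) (l 337859583847))) (b (a (l 385104226791) (l 3)) (a (l 16783168) (b (l 410874028615) (l 272898210391)))))))) (l 3))) (l 3))), by decide +kernel⟩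

def k23_pp_022 : ∃ t, chk3 f_pp_022 t 38 70 1 = true :=
  ⟨(b (a (a (c (l 16780664) (b (l 16784032) (l 16789448))) (b (c (c (l 16782720) (l 16783128)) (c (l 16783408) (l 16783544))) (c (c (l 16793120) (l 16793672)) (l 16783744)))) (b (b (a (c (a (b (a (l 282561887543) (l 362555647511)) (l 192904445255)) (b (l 3) (l 357186939287))) (a (b (a (l 309942303255) (l 387251709271)) (c (l 236927855479) (l 278803785063))) (l 388862324007))) (l 3)) (a (c (a (l 16785200) (c (l 196125670727) (l 205252476855))) (a (l 16785616) (b (a (l 301352368439) (l 382419870663)) (c (l 16780912) (l 16780800))))) (a (a (c (l 373829937175) (l 406042191687)) (l 3)) (l 3)))) (a (c (l 16782592) (l 16785848)) (c (b (a (c (l 175724575575) (l 185388252615)) (b (l 3) (l 368998098359))) (a (l 16779640) (c (l 155323480359) (l 164987157527)))) (b (a (a (l 167134641511) (b (l 374903677527) (l 16786192))) (b (l 3) (l 402284094791))) (a (l 16780152) (c (l 177335188663) (l 200420636791)))))))) (a (c (l 16775088) (l 16778960))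 (a (c (l 16779880) (b (l 16783456) (l 16788832))) (c (b (l 16787472) (l 16792640)) (l 16785704))))), by decide +kernel⟩

def k24_pp_022 : ∃ t, chk3 f_pp_022 t 39 70 1 = true :=
  ⟨(b (a (b (l 3) (b (l 3) (a (a (c (c (l 356650067975) (l 379735517399)) (c (l 396915386503) (l 409263417127))) (l 3)) (l 3)))) (l 3)) (a (b (b (a (c (a (c (l 16781368) (l 16781664)) (b (l 377588034359) (l 268066375895))) (a (c (l 16784408) (l 212768663383)) (c (l 380272387815) (l 395841643943)))) (l 3)) (a (c (c (l 16785448) (l 16785872)) (c (l 16786136) (l 16786232))) (c (a (b (l 372756195639) (l 248202152951)) (l 357186942343)) (a (c (l 362018776455) (l 377588032631)) (l 387788583943))))) (c (a (l 16787096) (a (l 16785432) (b (a (l 231022284519) (l 354502584071)) (l 16781200)))) (a (l 16787912) (b (a (l 16781776) (a (a (l 16785440) (l 301352371047)) (l 395304774695))) (l 16785984))))) (b (l 3) (a (c (b (a (b (l 3) (l 358797553271)) (l 3)) (a (c (l 209010571847) (l 234243510023)) (b (l 3) (l 374903680103))))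 (b (a (l 385104228887) (l 3)) (b (c (l 393157291431) (l 408726547479)) (a (l 231559154439) (l 375440550919))))) (l 3))))), by decide +kernel⟩

def k25_pp_022 : ∃ t, chk3 f_pp_022 t 19 71 1 = true :=
  ⟨(a (b (a (c (l 16775384) (l 16773896)) (c (l 16782080) (l 16783536))) (c (a (l 16769256) (l 16774024)) (l 16768968))) (b (a (c (l 16786808) (b (l 16785264) (l 16790624))) (a (a (c (l 16787744) (l 16786040)) (b (c (c (l 120426873879) (l 127406196583)) (b (c (l 250349629559) (l 284172494839)) (l 16781528))) (l 16788120))) (c (b (b (c (l 365776876743) (l 387788584343)) (a (l 16786272) (b (l 358797553239) (l 276656311527)))) (c (l 16785144) (l 16785752))) (c (b (b (l 401210357015) (a (l 16782080) (l 385641097927))) (l 16786152)) (b (b (l 413558387527) (a (l 16781912) (l 399062870439))) (l 16786344)))))) (a (c (l 16781160) (l 16782824)) (c (l 16785720) (b (l 16784456) (l 16789728)))))), by decide +kernel⟩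

def k26_pp_022 : ∃ t, chk3 f_pp_022 t 8 9 1 = true :=
  ⟨(b (a (a (b (b (c (a (c (l 16676712) (l 16653096)) (c (l 16664944) (l 16662208))) (a (l 16670064) (l 16658080))) (c (a (l 16658600) (l 16670624)) (a (l 16634600) (l 16643856)))) (c (a (c (l 16641056) (l 16638112)) (c (l 16650768) (l 16647736))) (a (l 16633432) (l 16642968)))) (c (a (b (c (a (l 16685824) (l 16690368)) (l 16685200)) (c (l 16660344) (l 16657240))) (b (c (a (l 16694888) (l 16699360)) (l 16694136)) (c (l 16669784) (l 16666608)))) (a (b (b (l 16687904) (l 16652984)) (l 16652376)) (b (b (l 16696600) (l 16661968)) (l 16661656))))) (a (b (c (b (a (c (l 16691624) (l 16688600)) (c (l 16700056) (l 16696960))) (a (l 16697960) (l 16706760))) (a (b (l 16705144) (l 16670808)) (b (l 16713448) (l 16679496)))) (c (a (c (l 16679072) (l 16675832)) (c (l 16688200) (l 16684896))) (a (l 16670808) (l 16679816)))) (b (c (b (a (l 16715832) (l 16722440)) (c (l 16719768) (l 16716616))) (a (b (l 16720488) (l 16687800)) (b (l 16727352) (l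 16694696)))) (b (c (c (l 16708352) (l 16705024)) (l 16700000)) (c (l 16693224) (l 16665256)))))) (b (a (a (c (a (l 16620800) (l 16620232)) (a (l 16603512) (l 16613280))) (a (c (l 16630016) (l 16622944)) (c (l 16639664) (l 16632488)))) (a (c (a (l 16649168) (l 16658504)) (a (l 16641904) (l 16651192))) (c (c (l 16673856) (l 16670336)) (a (l 16660352) (l 16669376))))) (a (a (c (a (l 16580048) (l 16590096)) (l 16598872)) (c (c (l 16606504) (l 16603136)) (l 16618552))) (c (a (a (l 16619432) (l 16628904)) (l 16663648)) (a (l 16616808) (l 16635544)))))), by decide +kernel⟩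

def k27_pp_022 : ∃ t, chk3 f_pp_022 t 9 9 1 = true :=
  ⟨(b (b (a (c (a (b (c (l 16738016) (l 16735352)) (c (l 16722032) (l 16729560))) (b (c (l 16748928) (l 16746624)) (c (l 16743400) (l 16740752)))) (a (b (a (l 16733768) (l 16739944)) (l 16725272)) (b (a (l 16745880) (l 16751568)) (l 16737000)))) (b (a (c (a (l 16760664) (l 16765384)) (l 16757584)) (c (b (a (l 16772720) (l 16779840)) (l 16764064)) (a (l 16767080) (l 16776312)))) (a (c (a (l 16749664) (l 16754368)) (l 16742464)) (c (a (l 16758848) (l 16763320)) (l 16757528))))) (a (a (c (b (l 16720008) (l 16709000)) (b (l 16713696) (l 16702160))) (c (b (l 16720888) (l 16699968)) (b (l 16725656) (l 16693656)))) (c (a (b (l 16741320) (l 16730944)) (b (l 16750480) (l 16740288))) (a (b (l 16736320) (l 16704312)) (b (l 16746152) (l 16735208)))))) (b (a (c (a (b (l 16697024) (l 16661992)) (c (l 16705712) (l 16702424))) (a (a (l 16678248) (l 16687144)) (a (l 16694552) (l 16700856)))) (c (a (b (l 16699920) (l 16690272)) (l 16730880)) (a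 (l 16709456) (l 16719792)))) (a (a (c (l 16681672) (l 16653880)) (c (l 16678480) (l 16671960))) (c (a (l 16704992) (l 16698560)) (a (l 16688536) (l 16701168)))))), by decide +kernel⟩

def k28_pp_022 : ∃ t, chk3 f_pp_022 t 4 5 1 = true :=
  ⟨(b (b (b (a (a (a (c (c (l 16554616) (l 16551152)) (l 16545376)) (c (l 16593504) (l 16564896))) (c (a (l 16612488) (l 16609992)) (a (l 16583944) (l 16602624)))) (a (c (a (l 16627960) (l 16645648)) (a (l 16620952) (l 16639104))) (b (c (a (l 16684584) (l 16765200)) (l 16675680)) (c (l 16764880) (l 16636624))))) (a (a (c (a (b (l 16506248) (b (l 16491888) (l 16522600))) (b (l 16525304) (c (l 16569096) (l 16564976)))) (b (a (l 16498208) (l 16517160)) (b (l 16513592) (a (l 16493056) (l 16510544))))) (b (c (a (l 16543792) (l 16561800)) (l 16586632)) (c (a (b (l 16528280) (l 16536456)) (l 16600704)) (a (l 16596248) (l 16592144))))) (c (a (b (l 16612984) (a (l 16612240) (b (l 16698136) (l 16722240)))) (b (l 16802256) (b (l 16830976) (l 16829160)))) (a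 (b (l 16601544) (b (l 16563304) (l 16590040))) (b (l 16637008) (b (l 16597632) (l 16622608))))))) (a (b (a (c (a (l 16482928) (l 16479912)) (a (l 16452504) (l 16470200))) (c (a (l 16497360) (l 16514520)) (a (l 16487496) (l 16504560)))) (a (c (a (l 16437792) (l 16457064)) (l 16477856)) (c (a (l 16476160) (l 16657144)) (l 16494336)))) (a (c (a (b (l 16667600) (l 16796616)) (l 16778080)) (c (l 16585088) (l 16579512))) (c (b (l 16900848) (l 16982896)) (b (l 16584032) (l 16556888)))))) (b (a (a (c (a (l 16425720) (l 16535816)) (a (l 16390736) (l 16411960))) (c (a (l 16735960) (l 16877120)) (l 16506568))) (a (c (a (l 16975496) (l 17042592)) (l 16507984)) (c (l 17101960) (l 16678872)))) (a (a (c (a (l 16723000) (l 16918424)) (l 16404864)) (c (a (l 17041424) (l 17126688)) (l 16413784))) (a (c (l 17204440) (l 16670624)) (c (l 17247456) (l 16837064)))))), by decide +kernel⟩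

def k29_pp_022 : ∃ t, chk3 f_pp_022 t 5 8 1 = true :=
  ⟨(a (b (l 3) (b (l 3) (a (b (l 3) (a (b (a (a (b (a (b (l 3) (c (l 360408168599) (l 388325455783))) (l 3)) (c (b (a (l 272898217047) (l 356650071079)) (c (l 158007838327) (l 166597774039))) (b (c (l 377588035015) (l 392083549335)) (c (l 180556418135) (a (l 16782368) (l 315311013335)))))) (a (b (l 3) (b (l 3) (c (l 375440551847) (l 382419873815)))) (l 3))) (l 3)) (a (b (a (c (l 16789560) (l 16790584)) (c (b (a (l 203641863959) (l 371682454327)) (l 125795584951)) (b (a (l 247128413319) (l 404968451159)) (c (l 16782144) (l 16782288))))) (c (l 16786256) (l 16787584))) (b (b (l 3) (a (a (c (l 348597014455) (l 395304773815)) (l 3)) (l 3))) (b (a (c (c (l 184851384231) (l 195588803687)) (c (l 208473705719) (l 231559152455))) (c (a (l 352891973639) (l 3)) (l 387251714119))) (a (c (l 16790816) (l 16781416)) (c (l 290614960599) (a (l 270750733303) (l 382419873095)))))))) (l 3))) (l 3)))) (l 3)), by decide +kernel⟩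

def k30_pp_022 : ∃ t, chk3 f_pp_022 t 10 36 1 = true :=
  ⟨(a (b (a (a (c (l 16782816) (l 16784808)) (a (c (l 16783744) (l 16785680)) (b (c (c (l 71034749047) (l 72645363447)) (b (c (l 16786456) (l 121500617303)) (l 16776584))) (c (l 16787320) (l 16789480))))) (b (a (b (b (a (a (c (l 367924356615) (l 406042192151)) (l 3)) (l 3)) (a (c (l 209547450007) (a (l 16781144) (l 393694160135))) (c (l 372219338503) (l 388862326855)))) (a (c (l 16789256) (l 16790784)) (b (c (l 302426125463) (a (l 277193184663) (l 384567356647))) (c (l 16786720) (l 182167033239))))) (a (a (b (l 3) (c (l 366850627255) (l 405505321975))) (l 3)) (l 3))) (c (a (l 16785488) (a (b (b (l 249812773511) (l 16789960)) (l 16775376)) (b (l 342154569415) (l 129553680151)))) (b (a (l 16787616) (a (c (l 176261451911) (l 185925129863)) (b (l 3) (l 379198656007)))) (a (l 16792712) (c (l 16786792) (l 100562653175))))))) (a (c (a (l 16768648) (l 16774064)) (l 16773512)) (c (a (l 16774192) (l 16788320)) (a (l 16778768) (l 16786616)))))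 (b (a (b (l 3) (a (b (l 3) (a (b (c (l 366850636055) (l 403894709383)) (c (l 221895479063) (l 257328963495))) (l 3))) (l 3))) (l 3)) (a (b (a (b (c (a (l 16787728) (l 213842417703)) (a (l 16789968) (b (l 377051182087) (l 16785144)))) (c (l 16785720) (l 16786512))) (b (a (b (l 3) (a (l 279340675015) (l 3))) (l 3)) (a (c (l 165524031495) (l 222432355575)) (b (l 3) (l 274508837799))))) (a (c (l 16793520) (l 16788528)) (b (c (l 94120197207) (l 105931362583)) (l 16786296)))) (b (l 3) (c (a (b (a (l 321753473799) (l 3)) (c (l 137069868455) (l 144049193095))) (b (l 3) (l 395841666039))) (a (b (a (l 360408161079) (l 3)) (b (l 193978195383) (l 16788312))) (b (l 3) (l 417853354919)))))))), by decide +kernel⟩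

def k31_pp_022 : ∃ t, chk3 f_pp_022 t 10 37 1 = true :=
  ⟨(a (c (a (b (l 16771376) (l 16750896)) (b (c (l 16776560) (l 16770824)) (l 16758640))) (a (b (l 16756952) (l 16725136)) (a (l 16759840) (l 16768688)))) (b (a (c (l 16781704) (l 16779128)) (b (a (c (l 16788128) (l 16791584)) (b (a (c (l 16782552) (l 16789056)) (b (l 408189694199) (l 243370319863))) (c (l 16788360) (l 16785168)))) (c (l 16779952) (l 16787424)))) (c (a (l 16778448) (a (l 16784832) (l 16786144))) (a (l 16768576) (l 16778312))))), by decide +kernel⟩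

def k32_pp_022 : ∃ t, chk3 f_pp_022 t 11 18 1 = true :=
  ⟨(b (l 3) (a (b (a (b (a (b (l 3) (c (l 307257960391) (l 344302043703))) (l 3)) (a (c (c (l 98415165319) (l 16784760)) (l 107005103799)) (b (c (l 341617702551) (l 389936063351)) (c (l 168745260327) (l 174650838263))))) (a (l 3) (l 3))) (c (a (b (a (l 16783024) (l 16791464)) (l 16787832)) (b (a (b (l 239075356487) (l 16786960)) (l 305110484519)) (a (l 16784136) (b (l 145122944503) (l 16782784))))) (a (a (l 16787840) (l 16786608)) (b (a (c (l 164450292807) (l 166060903879)) (l 349670767543)) (a (l 16774984) (l 116131911943)))))) (b (l 3) (a (b (l 3) (a (b (l 306184235223) (c (l 176261462071) (l 178945811191))) (l 3))) (l 3))))), by decide +kernel⟩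

def k33_pp_022 : ∃ t, chk3 f_pp_022 t 5 19 1 = true :=
  ⟨(a (b (c (a (a (l 16741416) (b (l 16767824) (l 16782424))) (a (b (l 16788680) (l 16803440)) (b (l 16797464) (l 16812920)))) (a (a (l 16741368) (l 16752896)) (b (a (l 16758568) (l 16769800)) (l 16765664)))) (a (c (a (l 16776824) (l 16812120)) (a (l 16714072) (l 16725840))) (c (b (l 16827776) (l 16848856)) (b (l 16747168) (l 16739624))))) (b (a (c (b (a (l 16798144) (l 16793624)) (a (l 16814560) (l 16811016))) (b (a (l 16780824) (l 16791480)) (a (l 16772152) (l 16783224)))) (b (a (b (c (a (l 16795192) (a (l 133848659527) (l 186998884519))) (a (l 16790488) (c (l 161229073399) (l 163376554871)))) (c (a (l 16792520) (l 16788800)) (l 16799296))) (b (a (c (l 251423397607) (l 296520548679)) (l 3)) (c (a (b (l 129553690839) (l 16788552)) (b (l 248739023591) (a (l 16789768) (l 247128434055)))) (a (l 113984436375) (b (l 266992627559) (l 162302819927)))))) (c (a (l 16793784) (b (a (l 16793568) (l 16790504)) (l 16800968))) (a (l 16793368)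 (b (l 16793808) (l 16780184)))))) (a (b (c (a (l 16833520) (l 16830576)) (l 16775680)) (c (l 16853752) (l 16758496))) (c (b (a (l 16824408) (l 16816408)) (a (l 16846112) (l 16838432))) (b (a (l 16773904) (l 16779960)) (l 16783144)))))), by decide +kernel⟩

def k34_pp_022 : ∃ t, chk3 f_pp_022 t 5 5 1 = true :=
  ⟨(b (b (b (a (a (c (b (l 16834760) (l 16862992)) (b (l 16706912) (l 16695576))) (c (b (l 16872056) (l 16897016)) (b (l 16711536) (l 16718032)))) (a (c (b (l 16876448) (l 16900344)) (b (l 16765608) (l 16775504))) (b (c (l 16865512) (l 16791400)) (c (l 16889464) (l 16801816))))) (b (a (a (c (l 16893144) (l 16654472)) (c (l 16923600) (l 16731320))) (a (c (l 16925312) (l 16787720)) (c (l 16914104) (l 16814040)))) (b (a (a (c (l 16916848) (l 16635088)) (l 16822624)) (a (c (l 16944760) (l 16798144)) (l 16878040))) (a (a (c (l 16933336) (l 16639112)) (c (l 16961248) (l 16749344))) (b (a (l 16879872) (l 16885768)) (a (l 16886200) (l 16891744))))))) (a (a (c (b (l 16973672) (l 17038176))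 (b (l 16668624) (l 16723512))) (c (l 17024264) (b (l 16772440) (l 16814896)))) (c (a (l 17018512) (l 17001400)) (a (l 16843712) (l 16867336))))) (a (b (a (c (l 17133280) (l 16811656)) (c (l 17133328) (l 16884480))) (c (a (l 17251656) (l 17236016)) (a (l 16930624) (l 16980104)))) (a (b (a (l 17018112) (l 17019392)) (l 17108376)) (b (l 17017512) (l 17101104))))), by decide +kernel⟩

def k35_pp_022 : ∃ t, chk3 f_pp_022 t 2 3 1 = true :=
  ⟨(a (b (c (a (b (a (b (a (l 17109968) (l 17213768)) (l 17417096)) (b (l 17310168) (l 17487632))) (a (l 17686080) (l 17685376))) (b (a (b (l 17366640) (l 17500464)) (l 17429936)) (a (l 17654896) (l 17611848)))) (a (b (a (b (l 16335128) (l 16668464)) (b (l 16667944) (l 16903968))) (a (b (l 16941000) (l 17155680)) (b (l 17096568) (l 17251112)))) (b (a (b (l 16868728) (l 17038184)) (b (l 16981984) (l 17108896))) (a (l 17238120) (l 17263384))))) (a (b (c (a (l 17905136) (l 17853776)) (a (l 17388616) (l 17419920))) (c (l 17985000) (l 17576880))) (b (c (l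 17765560) (l 17422616)) (c (l 17844656) (l 17536264))))) (b (b (a (a (b (l 17199912) (l 17296560)) (a (l 17247448) (l 17242800))) (c (l 17328000) (b (l 17087320) (l 17160368)))) (a (c (l 17545632) (l 17313024)) (b (l 17331472) (l 2)))) (b (a (c (l 17655744) (l 17397000)) (l 2)) (l 2)))), by decide +kernel⟩

def k36_pp_022 : ∃ t, chk3 f_pp_022 t 3 4 1 = true :=
  ⟨(a (b (l 3) (b (l 3) (a (b (a (b (a (b (l 3) (a (c (l 276119464983) (l 293299327431)) (l 3))) (l 3)) (a (b (a (c (b (l 228874828599) (l 16792520)) (b (l 177872072903) (l 16787184))) (b (l 3) (c (l 242296603527) (l 190220098663)))) (a (c (l 16795136) (l 16786184)) (b (c (l 16794296) (l 16788728)) (l 16802144)))) (b (l 3) (a (c (b (l 250886519463) (l 158544718007)) (b (l 251960271287) (l 16784944))) (b (l 3) (c (l 255718360135) (l 264308283335))))))) (l 3)) (a (b (c (a (l 16802568) (b (a (l 16797648) (c (l 144049204791) (l 141901716263))) (l 16805096))) (a (l 16805080) (b (a (l 16790472) (c (l 16785856) (l 16785512))) (l 16790512))))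 (c (a (l 16829848) (l 16821200)) (a (l 16789664) (l 16791104)))) (b (c (a (b (a (b (l 258939588599) (l 201494415591)) (l 272898252359)) (a (l 16801696) (c (l 153712889079) (l 151028529511)))) (b (l 3) (a (b (l 258939596391) (l 182167052183)) (l 269677013383)))) (a (b (a (b (l 265918898551) (l 167671517879)) (l 240149125287)) (a (l 16794480) (b (l 171966489639) (l 16796176)))) (b (l 3) (a (b (l 262697679399) (l 174650849367)) (l 276119471959))))) (b (a (c (l 16808392) (l 16795256)) (a (c (l 16806384) (l 16798464)) (b (c (l 185388284183) (l 175724596807)) (c (l 16808088) (l 16800024))))) (a (l 16806200) (c (l 16812616) (l 16799928))))))) (b (l 3) (a (c (b (l 3) (a (b (a (b (l 253570896519) (l 189683258647)) (l 262697701719)) (a (l 16811360) (l 171429653111))) (b (l 3) (a (b (l 240149134503) (l 184314560599)) (l 251960295863))))) (b (l 3) (a (b (a (b (l 241222850775) (l 178945831191)) (l 264845191687)) (a (l 16802656) (l 165524065559))) (b (l 3) (a (b (l 229411699847) (l 175187742039))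 (b (l 3) (l 222432382935))))))) (l 3)))))) (b (l 3) (l 3))), by decide +kernel⟩

def k37_pp_022 : ∃ t, chk3 f_pp_022 t 6 20 1 = true :=
  ⟨(b (a (a (a (b (l 16825856) (l 16843488)) (b (l 16801488) (l 16840392))) (b (c (a (l 16836136) (l 16828592)) (a (l 16801296) (l 16801384))) (c (a (l 16860472) (l 16852600)) (a (l 16813200) (l 16813168))))) (a (b (a (c (b (l 16817720) (l 16827992)) (b (l 16804728) (l 16804888))) (b (c (a (l 16816760) (l 170892795223)) (a (l 16807160) (b (l 171966518215) (l 16808816)))) (c (l 16823672) (l 16809688)))) (a (c (l 16845584) (l 16812904)) (b (a (l 16822456) (l 16821560)) (l 16830608)))) (b (a (b (b (a (c (l 218137439271) (l 215989937143)) (l 3)) (a (c (l 179482733463) (l 169282168471)) (c (l 211158123975) (l 211694975223)))) (c (a (l 16822736) (c (l 16826400) (l 166060967767))) (a (l 16812000) (b (l 166597818807) (l 16813808))))) (b (l 3) (b (a (c (l 205252550823) (a (l 201494433559) (l 211694980679))) (l 3)) (c (a (l 171966553655) (l 199883848855)) (a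 (c (l 166597831847) (l 162302854183)) (c (l 203105057479) (l 204715659239))))))) (a (c (b (l 16830472) (l 16841080)) (b (l 16814864) (l 16816616))) (b (b (c (l 47882267319) (a (l 16816448) (l 51640345255))) (c (l 16831512) (l 45734773959))) (c (l 16838168) (l 16820160))))))) (b (a (a (c (l 16898184) (l 16824400)) (c (l 16881840) (l 16805888))) (a (c (b (l 16861208) (l 16874040)) (b (l 16822776) (l 16830008))) (c (b (l 39292369511) (l 16863544)) (b (l 39829213191) (l 16829632))))) (b (a (a (l 16875360) (c (l 16900552) (l 16837696))) (a (c (l 16886536) (l 16837464)) (c (l 16875968) (l 16837000)))) (b (a (a (l 16882464) (l 16875936)) (a (c (l 16895400) (l 16843064)) (c (l 16884776) (l 16821664)))) (a (a (l 16887616) (l 16880728)) (a (l 16873664) (l 16868128))))))), by decide +kernel⟩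

def k38_pp_022 : ∃ t, chk3 f_pp_022 t 6 21 1 = true :=
  ⟨(a (a (c (l 16982744) (l 16877072)) (b (l 16902680) (l 16942352))) (b (a (c (l 16927480) (l 16864280)) (c (l 16916576) (l 16864056))) (a (l 16934992) (l 2)))), by decide +kernel⟩

def k39_pp_022 : ∃ t, chk3 f_pp_022 t 6 11 1 = true :=
  ⟨(a (b (a (l 17010648) (l 17002184)) (c (l 17154288) (l 17017184))) (b (a (l 16994208) (l 2)) (l 2))), by decide +kernel⟩

def k40_pp_022 : ∃ t, chk3 f_pp_022 t 7 5 1 = true :=
  ⟨(b (b (b (b (b (l 3) (l 2)) (l 2)) (l 2)) (l 2)) (l 2)), by decide +kernel⟩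

def k41_pp_022 : ∃ t, chk3 f_pp_022 t 3 3 1 = true :=
  ⟨(a (b (b (a (b (l 17161120) (l 2)) (l 2)) (l 2)) (l 2)) (l 2)), by decide +kernel⟩

theorem s42_pp_022 : ∃ t, chk3 f_pp_022 t 6 10 1 = true := ex3_b k37_pp_022 k38_pp_022

theorem s43_pp_022 : ∃ t, chk3 f_pp_022 t 6 5 1 = true := ex3_b s42_pp_022 k39_pp_022

theorem s44_pp_022 : ∃ t, chk3 f_pp_022 t 3 5 1 = true := ex3_a s43_pp_022 k40_pp_022

theorem s45_pp_022 : ∃ t, chk3 f_pp_022 t 3 2 1 = true := ex3_b k36_pp_022 s44_pp_022

theorem s46_pp_022 : ∃ t, chk3 f_pp_022 t 3 1 1 = true := ex3_b s45_pp_022 k41_pp_022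

theorem s47_pp_022 : ∃ t, chk3 f_pp_022 t 10 18 1 = true := ex3_b k30_pp_022 k31_pp_022

theorem s48_pp_022 : ∃ t, chk3 f_pp_022 t 5 18 1 = true := ex3_a s47_pp_022 k32_pp_022

theorem s49_pp_022 : ∃ t, chk3 f_pp_022 t 5 9 1 = true := ex3_b s48_pp_022 k33_pp_022

theorem s50_pp_022 : ∃ t, chk3 f_pp_022 t 5 4 1 = true := ex3_b k29_pp_022 s49_pp_022

theorem s51_pp_022 : ∃ t, chk3 f_pp_022 t 5 2 1 = true := ex3_b s50_pp_022 k34_pp_022

theorem s52_pp_022 : ∃ t, chk3 f_pp_022 t 4 9 1 = true := ex3_a k26_pp_022 k27_pp_022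

theorem s53_pp_022 : ∃ t, chk3 f_pp_022 t 19 70 1 = true := ex3_a k23_pp_022 k24_pp_022

theorem s54_pp_022 : ∃ t, chk3 f_pp_022 t 19 35 1 = true := ex3_b s53_pp_022 k25_pp_022

theorem s55_pp_022 : ∃ t, chk3 f_pp_022 t 19 17 1 = true := ex3_b k22_pp_022 s54_pp_022

theorem s56_pp_022 : ∃ t, chk3 f_pp_022 t 37 34 1 = true := ex3_b k19_pp_022 k20_pp_022

theorem s57_pp_022 : ∃ t, chk3 f_pp_022 t 36 136 1 = true := ex3_a k15_pp_022 k16_pp_022

theorem s58_pp_022 : ∃ t, chk3 f_pp_022 t 36 68 1 = true := ex3_b s57_pp_022 k17_pp_022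

theorem s59_pp_022 : ∃ t, chk3 f_pp_022 t 36 34 1 = true := ex3_b s58_pp_022 k18_pp_022

theorem s60_pp_022 : ∃ t, chk3 f_pp_022 t 18 34 1 = true := ex3_a s59_pp_022 s56_pp_022

theorem s61_pp_022 : ∃ t, chk3 f_pp_022 t 18 17 1 = true := ex3_b s60_pp_022 k21_pp_022

theorem s62_pp_022 : ∃ t, chk3 f_pp_022 t 9 17 1 = true := ex3_a s61_pp_022 s55_pp_022

theorem s63_pp_022 : ∃ t, chk3 f_pp_022 t 9 8 1 = true := ex3_b k14_pp_022 s62_pp_022

theorem s64_pp_022 : ∃ t, chk3 f_pp_022 t 8 17 1 = true := ex3_a k12_pp_022 k13_pp_022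

theorem s65_pp_022 : ∃ t, chk3 f_pp_022 t 70 134 1 = true := ex3_b k8_pp_022 k9_pp_022

theorem s66_pp_022 : ∃ t, chk3 f_pp_022 t 35 134 1 = true := ex3_a s65_pp_022 k10_pp_022

theorem s67_pp_022 : ∃ t, chk3 f_pp_022 t 35 67 1 = true := ex3_b s66_pp_022 k11_pp_022

theorem s68_pp_022 : ∃ t, chk3 f_pp_022 t 35 33 1 = true := ex3_b k7_pp_022 s67_pp_022

theorem s69_pp_022 : ∃ t, chk3 f_pp_022 t 69 133 1 = true := ex3_b k4_pp_022 k5_pp_022

theorem s70_pp_022 : ∃ t, chk3 f_pp_022 t 69 66 1 = true := ex3_b k3_pp_022 s69_pp_022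

theorem s71_pp_022 : ∃ t, chk3 f_pp_022 t 34 66 1 = true := ex3_a k2_pp_022 s70_pp_022

theorem s72_pp_022 : ∃ t, chk3 f_pp_022 t 34 33 1 = true := ex3_b s71_pp_022 k6_pp_022

theorem s73_pp_022 : ∃ t, chk3 f_pp_022 t 17 33 1 = true := ex3_a s72_pp_022 s68_pp_022

theorem s74_pp_022 : ∃ t, chk3 f_pp_022 t 17 16 1 = true := ex3_b k1_pp_022 s73_pp_022

theorem s75_pp_022 : ∃ t, chk3 f_pp_022 t 8 16 1 = true := ex3_a k0_pp_022 s74_pp_022

theorem s76_pp_022 : ∃ t, chk3 f_pp_022 t 8 8 1 = true := ex3_b s75_pp_022 s64_pp_022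

theorem s77_pp_022 : ∃ t, chk3 f_pp_022 t 4 8 1 = true := ex3_a s76_pp_022 s63_pp_022

theorem s78_pp_022 : ∃ t, chk3 f_pp_022 t 4 4 1 = true := ex3_b s77_pp_022 s52_pp_022

theorem s79_pp_022 : ∃ t, chk3 f_pp_022 t 4 2 1 = true := ex3_b s78_pp_022 k28_pp_022

theorem s80_pp_022 : ∃ t, chk3 f_pp_022 t 2 2 1 = true := ex3_a s79_pp_022 s51_pp_022

theorem s81_pp_022 : ∃ t, chk3 f_pp_022 t 2 1 1 = true := ex3_b s80_pp_022 k35_pp_022

theorem s82_pp_022 : ∃ t, chk3 f_pp_022 t 1 1 1 = true := ex3_a s81_pp_022 s46_pp_022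

theorem c_pp_022 : CertN 0 536870912 1073741824 536870912 201326592 134217728 3 false true true .pp 0 2 2
    ndN0q0 ndN5q2 pcN2 cut_pp_022 Ext.none :=
  certN1 (fam := false) (s1 := true) (s2 := true) (a := 0) (b := 2) (c := 2) (cn := .pp) (n1 := ndN0q0) (n2 := ndN5q2) (pc := pcN2) (cut := cut_pp_022) (xt := Ext.none) (P1 := 0) (W1 := 536870912) (P2 := 1073741824) (W2 := 536870912) (P3 := 201326592) (W3 := 134217728) (N0 := 3)
    rfl (fun _ => rfl) s82_pp_022

noncomputable def f_pp_023 : ℕ → ℕ → ℕ → ℕ → Bool := onCell 1073741824 536870912 0 1230186008 201326592 134217728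
    (rowN 3 2 false true true .up 0 2 3 (qsf 0 536870912 0 1230186008 2) ndN0q0 ndN5q3 pcN2 Cut.none Ext.none)

def k0_pp_023 : ∃ t, chk3 f_pp_023 t 1 2 1 = true :=
  ⟨(a (l 2) (a (l 2) (a (b (l 2) (b (l 245988807207) (l 305581604455))) (b (l 17365272) (b (l 17246896) (l 17313064)))))), by decide +kernel⟩

def k1_pp_023 : ∃ t, chk3 f_pp_023 t 1 6 1 = true :=
  ⟨(a (a (l 2) (a (l 2) (b (l 2) (a (l 2) (b (l 2) (l 16995000)))))) (a (b (a (l 2) (b (l 17180928) (l 17209712))) (a (b (l 17091648) (a (l 17067928) (l 17142600))) (b (l 17228808) (l 17250296)))) (a (b (b (l 17275968) (l 17324152)) (b (l 17357856) (l 17381832))) (b (l 17629040) (l 17476936))))), by decide +kernel⟩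

def k2_pp_023 : ∃ t, chk3 f_pp_023 t 4 7 1 = true :=
  ⟨(b (l 2) (l 3)), by decide +kernel⟩

def k3_pp_023 : ∃ t, chk3 f_pp_023 t 5 14 1 = true :=
  ⟨(a (a (b (l 2) (b (l 2) (a (l 3) (a (l 3) (a (a (c (l 246591651655) (b (l 3) (l 186998928823))) (c (b (l 16827240) (l 16830048)) (b (l 16817392) (l 16819952)))) (a (c (a (l 16831616) (l 16833872)) (a (l 16821488) (l 16823272))) (c (l 16837464) (l 16825848)))))))) (a (b (l 2) (a (b (l 316854631751) (b (l 16840472) (l 16844144))) (b (l 16854064) (l 16840624)))) (b (l 408122921623) (b (l 16883120) (a (l 16881912) (l 16902760)))))) (c (b (a (l 16929552) (l 17038000)) (a (b (l 16966072) (l 16983360)) (l 17072784))) (b (a (b (l 16909800) (l 16914288)) (l 16980184)) (a (b (l 16920640) (l 16929688)) (l 16998384))))), by decide +kernel⟩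

def k4_pp_023 : ∃ t, chk3 f_pp_023 t 40 15 1 = true :=
  ⟨(b (l 3) (b (a (l 3) (a (l 3) (b (a (l 3) (c (l 216526846471) (b (l 3) (l 178945863399)))) (b (a (l 3) (c (l 169282204951) (l 164450345463))) (c (a (l 181093361159) (l 16832280)) (a (l 174650897847) (l 16819976))))))) (a (b (l 3) (a (l 3) (b (l 3) (a (l 3) (a (l 3) (c (l 193441399767) (b (l 197736344359) (l 174650886823)))))))) (b (a (a (l 3) (c (b (l 194515141415) (l 167671591959)) (b (a (l 3) (l 176798380743)) (c (l 163913481943) (l 161765992151))))) (c (b (a (l 127406276087) (l 16834392)) (l 16834984)) (b (a (c (l 16821912) (l 120963800567)) (l 16821352)) (a (l 16820512) (l 16822344))))) (a (c (a (b (a (l 185925208103) (l 145659886567)) (c (l 16832072) (l 170355946695))) (b (c (l 16834848) (l 16828688)) (l 16831576))) (b (a (b (a (l 3) (l 168745318327)) (c (l 171429679095) (l 167134700167))) (c (l 16822504) (b (l 16816256) (l 16816600)))) (a (b (c (l 169819061735) (l 167134696151)) (l 16817048)) (l 16818824)))) (c (b (l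 16837256) (l 16838368)) (b (a (l 16821160) (l 16822112)) (l 16819880)))))))), by decide +kernel⟩

def k5_pp_023 : ∃ t, chk3 f_pp_023 t 41 15 1 = true :=
  ⟨(a (b (b (a (l 3) (b (a (l 3) (c (l 197736356919) (l 186998924903))) (a (l 3) (c (l 16829800) (l 169282191575))))) (a (b (l 3) (a (c (l 220821812119) (l 187535794455)) (c (l 131164376535) (b (l 169282181559) (l 16819168))))) (b (c (a (l 173040305671) (l 16833168)) (a (l 168208448311) (l 16821488))) (c (a (l 16833472) (l 16838608)) (a (l 16821416) (l 16823888)))))) (c (b (a (b (a (l 129016895079) (l 16833856)) (c (l 16841232) (l 16833104))) (b (l 16821248) (l 16849600))) (a (b (b (l 16842320) (l 16846104)) (l 16849568)) (b (l 16857488) (l 16862736)))) (b (a (b (a (b (l 166597828119) (l 16819480)) (b (l 16820744) (l 16822024))) (b (l 16816840) (l 16823000))) (b (a (l 16823624) (l 16825832)) (l 16826784))) (a (b (b (l 16823608) (l 16823784)) (l 16823368)) (b (l 16829400) (l 16829712)))))) (b (a (a (b (c (b (l 16829656) (l 16833248))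 (b (l 16819064) (l 16821824))) (c (b (l 16838296) (l 16844760)) (b (l 16824192) (l 16826448)))) (b (c (b (l 16833712) (l 16838408)) (b (l 16822488) (l 16824800))) (c (l 16847824) (b (l 16827096) (l 16829976))))) (a (b (c (a (l 16839992) (l 16842728)) (a (l 16847048) (l 16827696))) (c (a (l 16852496) (l 16855608)) (a (l 16831384) (l 16833320)))) (b (c (l 16846952) (l 16830264)) (c (l 16860336) (l 16836304))))) (a (b (c (b (l 16834536) (l 16863472)) (b (l 16831120) (l 16834232))) (c (b (l 16871192) (l 16876160)) (b (l 16836840) (l 16837008)))) (a (b (c (a (l 16868040) (l 16871320)) (a (l 16837840) (l 16839896))) (c (b (l 16881016) (l 16885808)) (b (l 16842672) (l 16842632)))) (b (c (l 16876288) (l 16843016)) (b (l 16866592) (l 16868928))))))), by decide +kernel⟩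

def k6_pp_023 : ∃ t, chk3 f_pp_023 t 21 15 1 = true :=
  ⟨(b (b (a (b (a (l 16848288) (l 16868696)) (l 16821496)) (c (l 16924752) (l 16883368))) (a (b (l 16827256) (l 16833056)) (c (l 16941840) (l 16891024)))) (b (a (c (b (l 16901880) (l 16909624)) (b (l 16860552) (l 16863200))) (c (l 16957656) (l 16896184))) (b (c (l 16941232) (l 16880416)) (a (l 16892280) (l 16934720))))), by decide +kernel⟩

def k7_pp_023 : ∃ t, chk3 f_pp_023 t 11 15 1 = true :=
  ⟨(b (a (b (c (l 17001872) (l 16938448)) (c (l 17019544) (l 16945152))) (b (l 17056896) (l 17066432))) (a (b (c (l 17033472) (l 16947616)) (c (l 17047776) (l 16947480))) (b (l 17073984) (l 17084792)))), by decide +kernel⟩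

def k8_pp_023 : ∃ t, chk3 f_pp_023 t 3 7 1 = true :=
  ⟨(b (a (a (b (a (l 17089368) (l 17167632)) (a (l 17160088) (l 17197360))) (b (l 17278272) (l 17303848))) (a (b (l 17404688) (l 17439200)) (l 17755200))) (a (b (a (b (l 17176840) (l 17187024)) (l 17337240)) (a (a (c (l 17244648) (l 17087680)) (l 17253216)) (c (l 17499568) (l 17266760)))) (b (a (l 17489272) (l 17638712)) (a (c (l 17702544) (l 17411632)) (l 17731600))))), by decide +kernel⟩

theorem s9_pp_023 : ∃ t, chk3 f_pp_023 t 20 15 1 = true := ex3_a k4_pp_023 k5_pp_023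

theorem s10_pp_023 : ∃ t, chk3 f_pp_023 t 10 15 1 = true := ex3_a s9_pp_023 k6_pp_023

theorem s11_pp_023 : ∃ t, chk3 f_pp_023 t 5 15 1 = true := ex3_a s10_pp_023 k7_pp_023

theorem s12_pp_023 : ∃ t, chk3 f_pp_023 t 5 7 1 = true := ex3_b k3_pp_023 s11_pp_023

theorem s13_pp_023 : ∃ t, chk3 f_pp_023 t 2 7 1 = true := ex3_a k2_pp_023 s12_pp_023

theorem s14_pp_023 : ∃ t, chk3 f_pp_023 t 1 7 1 = true := ex3_a s13_pp_023 k8_pp_023

theorem s15_pp_023 : ∃ t, chk3 f_pp_023 t 1 3 1 = true := ex3_b k1_pp_023 s14_pp_023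

theorem s16_pp_023 : ∃ t, chk3 f_pp_023 t 1 1 1 = true := ex3_b k0_pp_023 s15_pp_023

theorem c_pp_023 : CertN 0 536870912 0 1230186008 201326592 134217728 3 false true true .up 0 2 3
    ndN0q0 ndN5q3 pcN2 Cut.none Ext.none :=
  certN2 (fam := false) (s1 := true) (s2 := true) (a := 0) (b := 2) (c := 3) (cn := .up) (n1 := ndN0q0) (n2 := ndN5q3) (pc := pcN2) (cut := Cut.none) (xt := Ext.none) (P1 := 0) (W1 := 536870912) (P2 := 0) (W2 := 1230186008) (P3 := 201326592) (W3 := 134217728) (N0 := 3)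
    rfl (fun _ => rfl) s16_pp_023

noncomputable def f_pp_033 : ℕ → ℕ → ℕ → ℕ → Bool := onCell 1610612736 536870912 0 1230186008 201326592 134217728
    (rowN 3 2 false true true .pnn 0 3 3 (qsf 0 536870912 0 1230186008 3) ndN0q0 ndN5q3 pcN3 Cut.none Ext.none)

def k0_pp_033 : ∃ t, chk3 f_pp_033 t 1 1 1 = true :=
  ⟨(a (b (a (b (a (b (l 17124752) (l 17065928)) (b (l 17265720) (l 17200912))) (b (a (l 17114104) (l 17229192)) (a (l 17221864) (l 17280088)))) (b (a (b (l 17362568) (l 17291816)) (l 17326104)) (a (b (l 17275936) (l 17349168)) (b (l 17352264) (l 17422656))))) (b (a (b (b (l 17410184) (l 17472800)) (b (l 17499632) (l 17554936))) (b (a (b (l 17465336) (l 17598056)) (b (l 17472896) (l 17623176))) (b (a (l 17659880) (l 17745048)) (l 17758568)))) (b (a (b (l 17639144) (l 17746280)) (b (l 17859224) (l 17979368))) (a (b (a (l 17798880) (l 17938000)) (c (l 18219800) (l 17759200))) (b (l 18127184) (l 1)))))) (b (b (a (a (l 17459640) (l 17440928)) (l 4)) (a (a (c (l 17474216) (l 17516752))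 (l 17612016)) (a (a (l 17503176) (l 17540720)) (a (l 17591904) (l 4))))) (b (a (a (b (l 17766744) (l 130495868231)) (b (c (l 17742800) (l 17561040)) (b (l 17795800) (l 1)))) (a (b (l 17671512) (l 1)) (l 1))) (l 1)))), by decide +kernel⟩

theorem c_pp_033 : CertN 0 536870912 0 1230186008 201326592 134217728 3 false true true .pnn 0 3 3
    ndN0q0 ndN5q3 pcN3 Cut.none Ext.none :=
  certN2 (fam := false) (s1 := true) (s2 := true) (a := 0) (b := 3) (c := 3) (cn := .pnn) (n1 := ndN0q0) (n2 := ndN5q3) (pc := pcN3) (cut := Cut.none) (xt := Ext.none) (P1 := 0) (W1 := 536870912) (P2 := 0) (W2 := 1230186008) (P3 := 201326592) (W3 := 134217728) (N0 := 3)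
    rfl (fun _ => rfl) k0_pp_033

noncomputable def f_pp_101 : ℕ → ℕ → ℕ → ℕ → Bool := onCell 536870912 536870912 536870912 536870912 201326592 134217728
    (rowN 3 0 false true true .npn 1 0 1 (qsf 536870912 536870912 536870912 536870912 0) ndN0q1 ndN5q1 pcN0 Cut.none Ext.none)

def k0_pp_101 : ∃ t, chk3 f_pp_101 t 1 1 1 = true :=
  ⟨(a (l 3) (l 5)), by decide +kernel⟩

theorem c_pp_101 : CertN 536870912 536870912 536870912 536870912 201326592 134217728 3 false true true .npn 1 0 1
    ndN0q1 ndN5q1 pcN0 Cut.none Ext.none :=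
  certN0 (fam := false) (s1 := true) (s2 := true) (a := 1) (b := 0) (c := 1) (cn := .npn) (n1 := ndN0q1) (n2 := ndN5q1) (pc := pcN0) (cut := Cut.none) (xt := Ext.none) (P1 := 536870912) (W1 := 536870912) (P2 := 536870912) (W2 := 536870912) (P3 := 201326592) (W3 := 134217728) (N0 := 3)
    rfl k0_pp_101

noncomputable def f_pp_102 : ℕ → ℕ → ℕ → ℕ → Bool := onCell 536870912 536870912 1073741824 536870912 201326592 134217728
    (rowN 3 0 false true true .npp 1 0 2 (qsf 536870912 536870912 1073741824 536870912 0) ndN0q1 ndN5q2 pcN0 Cut.none Ext.none)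

def k0_pp_102 : ∃ t, chk3 f_pp_102 t 1 1 1 = true :=
  ⟨(a (l 3) (b (l 5) (l 3))), by decide +kernel⟩

theorem c_pp_102 : CertN 536870912 536870912 1073741824 536870912 201326592 134217728 3 false true true .npp 1 0 2
    ndN0q1 ndN5q2 pcN0 Cut.none Ext.none :=
  certN0 (fam := false) (s1 := true) (s2 := true) (a := 1) (b := 0) (c := 2) (cn := .npp) (n1 := ndN0q1) (n2 := ndN5q2) (pc := pcN0) (cut := Cut.none) (xt := Ext.none) (P1 := 536870912) (W1 := 536870912) (P2 := 1073741824) (W2 := 536870912) (P3 := 201326592) (W3 := 134217728) (N0 := 3)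
    rfl k0_pp_102

noncomputable def f_pp_112 : ℕ → ℕ → ℕ → ℕ → Bool := onCell 536870912 536870912 1073741824 536870912 201326592 134217728
    (rowN 3 0 false true true .dn 1 1 2 (qsf 536870912 536870912 1073741824 536870912 1) ndN0q1 ndN5q2 pcN1 Cut.none Ext.none)

def k0_pp_112 : ∃ t, chk3 f_pp_112 t 1 1 1 = true :=
  ⟨(a (l 3) (b (l 5) (l 3))), by decide +kernel⟩

theorem c_pp_112 : CertN 536870912 536870912 1073741824 536870912 201326592 134217728 3 false true true .dn 1 1 2
    ndN0q1 ndN5q2 pcN1 Cut.none Ext.none :=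
  certN0 (fam := false) (s1 := true) (s2 := true) (a := 1) (b := 1) (c := 2) (cn := .dn) (n1 := ndN0q1) (n2 := ndN5q2) (pc := pcN1) (cut := Cut.none) (xt := Ext.none) (P1 := 536870912) (W1 := 536870912) (P2 := 1073741824) (W2 := 536870912) (P3 := 201326592) (W3 := 134217728) (N0 := 3)
    rfl k0_pp_112

noncomputable def cut_pp_113 : Cut := Cut.of [[⟨0, 1, 0, 57167902⟩, ⟨1, 1, 0, 57167902⟩, ⟨2, 2, 0, 11758673⟩]]

noncomputable def f_pp_113 : ℕ → ℕ → ℕ → ℕ → Bool := onCell 536870912 536870912 0 1230186008 201326592 134217728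
    (rowN 3 2 false true true .nn 1 1 3 (qsf 536870912 536870912 0 1230186008 1) ndN0q1 ndN5q3 pcN1 cut_pp_113 Ext.none)

def k0_pp_113 : ∃ t, chk3 f_pp_113 t 1 1 1 = true :=
  ⟨(b (a (l 2) (a (l 2) (b (a (l 2) (b (a (l 2) (l 6)) (l 3))) (l 3)))) (a (b (a (l 2) (b (l 2) (a (l 2) (l 3)))) (a (b (l 2) (l 3)) (l 3))) (b (a (l 3) (l 3)) (l 3)))), by decide +kernel⟩

theorem c_pp_113 : CertN 536870912 536870912 0 1230186008 201326592 134217728 3 false true true .nn 1 1 3
    ndN0q1 ndN5q3 pcN1 cut_pp_113 Ext.none :=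
  certN2 (fam := false) (s1 := true) (s2 := true) (a := 1) (b := 1) (c := 3) (cn := .nn) (n1 := ndN0q1) (n2 := ndN5q3) (pc := pcN1) (cut := cut_pp_113) (xt := Ext.none) (P1 := 536870912) (W1 := 536870912) (P2 := 0) (W2 := 1230186008) (P3 := 201326592) (W3 := 134217728) (N0 := 3)
    rfl (fun _ => rfl) k0_pp_113

noncomputable def cut_pp_123 : Cut := Cut.of [[⟨0, 1, 0, 57167902⟩, ⟨1, 1, 0, 57167902⟩, ⟨2, 2, 0, 11758673⟩]]

noncomputable def f_pp_123 : ℕ → ℕ → ℕ → ℕ → Bool := onCell 1073741824 536870912 0 1230186008 201326592 134217728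
    (rowN 3 2 false true true .npn 1 2 3 (qsf 536870912 536870912 0 1230186008 2) ndN0q1 ndN5q3 pcN2 cut_pp_123 Ext.none)

def k0_pp_123 : ∃ t, chk3 f_pp_123 t 2 8 1 = true :=
  ⟨(a (a (a (l 6) (b (a (l 6) (l 16802416)) (a (b (l 6) (a (l 6) (b (l 6) (a (l 6) (a (l 6) (a (l 6) (l 16782464))))))) (b (l 16837200) (a (b (l 16808560) (a (l 16784592) (l 16787712))) (l 16840152)))))) (a (b (l 16822944) (a (l 16848496) (l 16824016))) (a (l 16840136) (l 16857976)))) (a (a (a (l 16878400) (a (l 16893264) (l 16903432))) (l 16922040)) (a (l 16961752) (l 17001280)))), by decide +kernel⟩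

def k1_pp_123 : ∃ t, chk3 f_pp_123 t 8 18 1 = true :=
  ⟨(a (l 3) (a (b (a (l 3) (b (a (l 3) (a (b (l 6) (l 3)) (a (b (b (l 6) (l 269676981111)) (l 3)) (b (b (l 16785336) (c (l 234780372359) (l 233706621975))) (b (l 284172495319) (l 3)))))) (l 3))) (l 3)) (b (a (b (a (a (b (b (l 16781312) (c (l 16780856) (l 16779912))) (b (a (c (b (l 258939566375) (l 231559137495)) (l 232096008727)) (l 271824469223)) (l 275582566407))) (b (l 16782520) (b (l 16791576) (c (l 272898211879) (l 272898210615))))) (l 16794664)) (a (a (l 3) (b (c (l 270213857687) (l 269676986583)) (l 3))) (a (b (b (l 16786128) (a (c (l 231022268615) (l 229411655207)) (l 271287599031))) (c (l 283635634999) (l 284709376679))) (b (l 16792616) (b (c (l 270750728871) (l 269676985319)) (c (c (l 233706623591) (l 232632881399)) (c (l 232096010151) (l 231022267863)))))))) (b (l 16788968) (a (b (l 16784776) (c (l 16794232) (l 16792440))) (l 16787592)))) (a (b (a (l 3) (a (l 3) (a (l 3) (b (l 274508824439) (l 3))))) (l 3)) (b (a (b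 (c (a (b (l 233706636567) (c (l 236927850599) (l 236927847671))) (l 269676991351)) (a (b (l 231559140839) (c (l 236390976455) (l 235854105271))) (l 16781160))) (a (l 3) (b (c (c (l 231559141639) (l 230485399335)) (l 230485398519)) (c (l 252497113767) (l 251960242423))))) (a (b (l 16783600) (c (l 257865830519) (l 254644602615))) (l 16805560))) (a (l 3) (b (a (b (c (c (l 230485398903) (l 229411656631)) (c (l 228337914391) (l 227264172183))) (l 267529503495)) (b (l 16787344) (c (l 259476441191) (l 255181472455)))) (a (l 3) (c (l 261087048311) (l 261087047895)))))))))), by decide +kernel⟩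

def k2_pp_123 : ∃ t, chk3 f_pp_123 t 9 18 1 = true :=
  ⟨(a (a (b (a (l 16875792) (l 16803608)) (a (b (l 16789992) (a (b (l 16795064) (a (c (c (l 230485402679) (l 228874789351)) (b (l 16781432) (l 225116690551))) (l 16794048))) (l 16787912))) (b (l 16799184) (l 16795256)))) (b (l 16805704) (l 16912464))) (a (l 16842656) (l 16838928))), by decide +kernel⟩

def k3_pp_123 : ∃ t, chk3 f_pp_123 t 4 19 1 = true :=
  ⟨(a (l 3) (a (a (b (a (b (a (b (c (a (l 267529509047) (b (l 257865820135) (c (l 226190433111) (l 224042948903)))) (a (l 267529508743) (b (l 250886495431) (l 222432335383)))) (c (l 304573603399) (l 305647344391))) (b (c (l 16796104) (l 16783656)) (c (a (b (l 257865819591) (c (l 224579819799) (l 221895464711))) (l 16784368)) (a (b (l 253570850807) (l 219747980327)) (l 16782792))))) (a (l 3) (a (l 3) (a (c (l 265918896519) (l 264308283431)) (b (c (l 255718335399) (l 250886495831)) (l 3)))))) (b (a (l 16809072) (l 16793056)) (a (a (b (b (l 16784152) (l 273435093543)) (b (c (l 256255227031)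 (l 250886495591)) (c (c (l 223506077031) (l 220821722007)) (l 218137366807)))) (b (l 16785888) (b (l 16784208) (l 254644611319)))) (l 16798840)))) (c (a (l 3) (b (a (l 290614968295) (b (a (l 255718339639) (l 16787176)) (a (b (c (l 259476431415) (l 256792076151)) (l 3)) (l 255181468631)))) (a (l 3) (l 292762452231)))) (a (l 3) (b (a (l 291151838775) (b (a (l 250886499415) (l 16785040)) (a (b (l 210621176743) (l 3)) (l 250349628615)))) (a (l 3) (l 293299322647)))))) (b (a (l 16777776) (l 16808920)) (a (b (a (b (l 16789840) (l 16797984)) (l 16793968)) (c (a (a (b (l 254644597735) (c (l 224042949143) (l 220821723111))) (a (l 251960265751) (l 246054664439))) (l 16790528)) (a (b (a (l 249812757703) (l 16785368)) (a (b (l 206326209335) (l 3)) (l 248739015943))) (l 16787744)))) (b (l 16802552) (l 16797432))))) (a (b (l 16822904) (a (l 16811848) (l 16823456))) (l 16965624)))), by decide +kernel⟩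

def k4_pp_123 : ∃ t, chk3 f_pp_123 t 5 9 1 = true :=
  ⟨(a (a (a (l 16999376) (b (l 16866136) (l 16864240))) (l 16884904)) (a (l 16920216) (l 16958232))), by decide +kernel⟩

def k5_pp_123 : ∃ t, chk3 f_pp_123 t 3 4 1 = true :=
  ⟨(a (a (a (l 17024168) (l 17126248)) (a (l 17099032) (l 17140272))) (a (a (l 17192552) (l 17261424)) (l 17428456))), by decide +kernel⟩

def k6_pp_123 : ∃ t, chk3 f_pp_123 t 2 10 1 = true :=
  ⟨(a (a (l 3) (a (a (l 3) (b (a (b (b (c (a (l 292762462551) (b (l 256792105847) (a (c (l 221358594951) (l 218137368887)) (l 253570856599)))) (a (l 293299322487) (b (a (l 248202145191) (l 16785800)) (a (l 214379271703) (l 247128403639))))) (a (l 3) (l 289541230999))) (l 3)) (b (c (b (a (l 16785464) (l 16797416)) (a (b (l 254107752103) (a (l 3) (l 251960244871))) (l 16785920))) (b (a (l 16788304) (l 16793288)) (a (b (l 251423395271) (a (l 3) (l 244980920839))) (l 16788992)))) (a (l 3) (a (b (b (l 249812781687) (l 3)) (l 3)) (b (b (l 16787664) (l 248739040599)) (l 3))))))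 (l 3))) (a (b (b (a (a (l 16798880) (l 16805080)) (l 16814320)) (a (c (b (a (l 16791872) (l 16798592)) (a (a (b (l 249812763591) (l 3)) (l 250886509223)) (l 16792816))) (b (a (l 16789824) (l 16795144)) (a (a (b (l 241222826503) (l 3)) (l 243907184519)) (l 16790824)))) (l 16835528))) (a (b (a (l 3) (a (b (b (l 246054688919) (l 3)) (l 3)) (b (b (l 16789504) (l 245517819207)) (b (l 252497135287) (l 3))))) (l 3)) (c (a (b (b (l 16794016) (a (l 250349636279) (l 242833450727))) (l 272898241879)) (b (l 16792832) (b (l 249275914327) (a (l 3) (l 256792086743))))) (b (a (b (l 16792024) (a (l 243907182679) (l 239075349511))) (l 16790384)) (a (l 272361370551) (b (a (l 241222831031) (l 235317256791)) (a (l 3) (l 249275891511)))))))) (b (b (l 16829880) (l 16884608)) (b (a (l 16827344) (l 16818736)) (a (a (b (l 16795904) (c (l 247128421415) (l 240149095703))) (b (l 16802384) (l 16797712))) (l 16830632))))))) (a (a (a (b (l 16907464) (a (l 16847712) (l 16859080))) (a (b (l 16856760) (l 16848432))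 (l 16985968))) (l 17026104)) (a (l 16935576) (l 16955784)))), by decide +kernel⟩

def k7_pp_123 : ∃ t, chk3 f_pp_123 t 2 11 1 = true :=
  ⟨(a (a (l 3) (a (l 3) (a (l 3) (b (a (b (a (a (l 3) (b (l 243907208631) (l 3))) (b (c (l 245517813015) (l 236927874055)) (c (l 258402725783) (l 251423400935)))) (l 3)) (b (a (b (l 16799760) (c (l 234243525063) (l 231022298039))) (l 16804176)) (a (b (c (l 248739033895) (l 241759708311)) (l 3)) (b (c (l 16799288) (l 16796552)) (c (l 248739039879) (l 239612229863)))))) (a (l 3) (b (a (l 3) (b (l 255181521959) (l 3))) (l 3))))))) (a (a (a (b (a (b (l 16813960) (a (b (l 16804592) (l 16800640)) (l 16809312))) (b (l 16826936) (l 16819208))) (a (b (a (b (c (l 234243529719) (l 226190459927)) (l 251423411335)) (b (l 16803648) (l 229411696839))) (a (l 3) (b (l 248202193031) (l 251960282407)))) (a (b (l 16808664) (c (l 242296624535) (l 218674275719))) (b (l 16815384) (l 16808840))))) (a (b (b (l 16840128) (l 16832368)) (b (l 16846256) (a (l 16815648) (l 16822456))))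 (b (a (l 16845536) (a (l 16849304) (l 16850864))) (a (l 16853656) (a (l 16838392) (l 16841984)))))) (a (b (l 16863408) (l 16859336)) (l 17015736))) (a (b (l 16924472) (l 16934256)) (l 17001672)))), by decide +kernel⟩

def k8_pp_123 : ∃ t, chk3 f_pp_123 t 3 5 1 = true :=
  ⟨(a (a (b (l 17211384) (l 17093496)) (b (l 17212312) (a (l 17114688) (l 17152656)))) (a (a (a (l 17333440) (l 17190248)) (l 17389896)) (b (l 17247288) (l 17482304)))), by decide +kernel⟩

def k9_pp_123 : ∃ t, chk3 f_pp_123 t 2 6 1 = true :=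
  ⟨(a (l 3) (a (a (a (b (b (a (l 3) (b (a (b (l 246054710647) (l 3)) (b (l 16804328) (l 268066430375))) (a (l 3) (b (l 246591563815) (l 3))))) (l 3)) (l 3)) (b (a (b (b (a (c (l 16811912) (l 16807992)) (l 16817112)) (a (c (l 246054735031) (l 219748024823)) (c (l 16814352) (l 16810128)))) (a (b (c (l 251960279847) (l 242833468167)) (l 3)) (b (c (l 244444128119) (l 233169830359)) (c (l 246591579047) (l 238538529319))))) (b (b (a (l 16824304) (a (l 16830064) (l 16834152))) (a (l 16840688) (a (l 16825584) (l 16829672)))) (a (a (b (l 16813576) (a (l 16819640) (l 16811032))) (b (l 16817376) (l 16813872))) (a (b (l 16842320) (a (l 16816824) (l 16818856))) (b (l 16825480) (l 16821936)))))) (a (l 3) (b (a (a (b (l 264308353943) (l 3)) (b (c (l 16813808) (l 16809312)) (c (l 253570932359) (l 240686017623)))) (a (a (b (l 16814240) (l 226727397127)) (b (l 16816200) (l 16814648))) (b (l 16819200) (l 16817472)))) (a (l 3) (a (a (b (l 249275972727) (l 3)) (b (l 16814544) (l 16815712))) (b (l 16817128)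 (l 16818040)))))))) (c (b (a (b (l 16856416) (a (l 16839424) (l 16858504))) (b (l 16894600) (l 16886328))) (b (a (b (l 16843608) (l 16841576)) (l 16880696)) (a (b (l 16840808) (l 16841560)) (l 16880376)))) (b (a (b (l 16843792) (a (l 16828968) (l 16843968))) (b (l 16874008) (l 16866256))) (a (b (b (l 16831712) (l 16829936)) (b (l 16829264) (l 16829688))) (b (l 16839960) (l 16838792)))))) (b (b (a (l 16933904) (l 16997192)) (a (a (l 16910264) (l 16943424)) (l 16991992))) (b (a (a (l 16904784) (l 16939080)) (l 16990160)) (a (a (l 16905808) (l 16941680)) (l 16995040)))))), by decide +kernel⟩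

def k10_pp_123 : ∃ t, chk3 f_pp_123 t 3 6 1 = true :=
  ⟨(a (b (a (b (l 17081384) (l 17233584)) (b (l 17180984) (l 17210016))) (a (b (a (l 17057568) (l 17125888)) (a (l 17068112) (l 17143024))) (b (l 17229712) (l 1)))) (a (b (l 248069473271) (l 1)) (l 1))), by decide +kernel⟩

def k11_pp_123 : ∃ t, chk3 f_pp_123 t 1 7 1 = true :=
  ⟨(a (a (b (l 3) (l 3)) (b (a (a (a (l 3) (a (l 3) (b (a (l 3) (c (b (a (l 3) (l 16823032)) (a (a (l 3) (l 16823440)) (l 16826336))) (b (a (l 3) (l 16815968)) (a (a (l 3) (l 16815384)) (l 16818328))))) (a (c (b (a (l 3) (l 251423492135)) (b (a (l 3) (l 16827248)) (l 1))) (b (a (l 3) (b (l 3) (l 196662606295))) (b (a (l 3) (l 16817400)) (l 1)))) (c (b (a (a (l 207936937927) (l 16827856)) (l 16830936)) (a (a (l 16831648) (l 16833896)) (l 16837496))) (b (a (a (l 144586142423) (l 16818904)) (l 16821680)) (b (a (a (l 16820232) (l 16822048)) (l 16824680)) (l 1)))))))) (b (b (a (a (l 16829120) (l 16846096)) (l 16873032)) (a (a (c (l 16837616) (l 16826560)) (l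 16849264)) (l 16876720))) (b (a (a (c (l 16842728) (l 16829744)) (l 16833120)) (c (l 16897144) (l 16869008))) (a (a (b (l 16840488) (l 1)) (l 1)) (l 1))))) (b (a (a (a (l 16902928) (l 16921896)) (l 16951008)) (b (l 17004312) (l 1))) (l 1))) (a (a (a (b (l 3) (l 1)) (l 1)) (l 1)) (l 1)))) (l 1)), by decide +kernel⟩

theorem s12_pp_123 : ∃ t, chk3 f_pp_123 t 1 6 1 = true := ex3_a k9_pp_123 k10_pp_123

theorem s13_pp_123 : ∃ t, chk3 f_pp_123 t 1 3 1 = true := ex3_b s12_pp_123 k11_pp_123

theorem s14_pp_123 : ∃ t, chk3 f_pp_123 t 2 5 1 = true := ex3_b k6_pp_123 k7_pp_123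

theorem s15_pp_123 : ∃ t, chk3 f_pp_123 t 1 5 1 = true := ex3_a s14_pp_123 k8_pp_123

theorem s16_pp_123 : ∃ t, chk3 f_pp_123 t 4 18 1 = true := ex3_a k1_pp_123 k2_pp_123

theorem s17_pp_123 : ∃ t, chk3 f_pp_123 t 4 9 1 = true := ex3_b s16_pp_123 k3_pp_123

theorem s18_pp_123 : ∃ t, chk3 f_pp_123 t 2 9 1 = true := ex3_a s17_pp_123 k4_pp_123

theorem s19_pp_123 : ∃ t, chk3 f_pp_123 t 2 4 1 = true := ex3_b k0_pp_123 s18_pp_123

theorem s20_pp_123 : ∃ t, chk3 f_pp_123 t 1 4 1 = true := ex3_a s19_pp_123 k5_pp_123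

theorem s21_pp_123 : ∃ t, chk3 f_pp_123 t 1 2 1 = true := ex3_b s20_pp_123 s15_pp_123

theorem s22_pp_123 : ∃ t, chk3 f_pp_123 t 1 1 1 = true := ex3_b s21_pp_123 s13_pp_123

theorem c_pp_123 : CertN 536870912 536870912 0 1230186008 201326592 134217728 3 false true true .npn 1 2 3
    ndN0q1 ndN5q3 pcN2 cut_pp_123 Ext.none :=
  certN2 (fam := false) (s1 := true) (s2 := true) (a := 1) (b := 2) (c := 3) (cn := .npn) (n1 := ndN0q1) (n2 := ndN5q3) (pc := pcN2) (cut := cut_pp_123) (xt := Ext.none) (P1 := 536870912) (W1 := 536870912) (P2 := 0) (W2 := 1230186008) (P3 := 201326592) (W3 := 134217728) (N0 := 3)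
    rfl (fun _ => rfl) s22_pp_123

noncomputable def f_pp_133 : ℕ → ℕ → ℕ → ℕ → Bool := onCell 536870912 536870912 0 1230186008 201326592 134217728
    (rowN 3 0 false true true .dn 1 3 3 (qsf 536870912 536870912 0 1230186008 3) ndN0q1 ndN5q3 pcN3 Cut.none Ext.none)

def k0_pp_133 : ∃ t, chk3 f_pp_133 t 1 1 1 = true :=
  ⟨(b (b (a (a (a (b (l 16978560) (l 1)) (l 1)) (l 1)) (l 1)) (l 1)) (l 1)), by decide +kernel⟩

theorem c_pp_133 : CertN 536870912 536870912 0 1230186008 201326592 134217728 3 false true true .dn 1 3 3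
    ndN0q1 ndN5q3 pcN3 Cut.none Ext.none :=
  certN0 (fam := false) (s1 := true) (s2 := true) (a := 1) (b := 3) (c := 3) (cn := .dn) (n1 := ndN0q1) (n2 := ndN5q3) (pc := pcN3) (cut := Cut.none) (xt := Ext.none) (P1 := 536870912) (W1 := 536870912) (P2 := 0) (W2 := 1230186008) (P3 := 201326592) (W3 := 134217728) (N0 := 3)
    rfl k0_pp_133

noncomputable def f_pp_202 : ℕ → ℕ → ℕ → ℕ → Bool := onCell 0 536870912 1073741824 536870912 201326592 134217728
    (rowN 3 0 false true true .pp 2 0 2 (qsf 0 536870912 1073741824 536870912 0) ndN0q2 ndN5q2 pcN0 Cut.none Ext.none)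

def k0_pp_202 : ∃ t, chk3 f_pp_202 t 1 1 1 = true :=
  ⟨(l 5), by decide +kernel⟩

theorem c_pp_202 : CertN 0 536870912 1073741824 536870912 201326592 134217728 3 false true true .pp 2 0 2
    ndN0q2 ndN5q2 pcN0 Cut.none Ext.none :=
  certN0 (fam := false) (s1 := true) (s2 := true) (a := 2) (b := 0) (c := 2) (cn := .pp) (n1 := ndN0q2) (n2 := ndN5q2) (pc := pcN0) (cut := Cut.none) (xt := Ext.none) (P1 := 0) (W1 := 536870912) (P2 := 1073741824) (W2 := 536870912) (P3 := 201326592) (W3 := 134217728) (N0 := 3)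
    rfl k0_pp_202

noncomputable def f_pp_203 : ℕ → ℕ → ℕ → ℕ → Bool := onCell 0 536870912 0 1230186008 201326592 134217728
    (rowN 3 0 false true true .up 2 0 3 (qsf 0 536870912 0 1230186008 0) ndN0q2 ndN5q3 pcN0 Cut.none Ext.none)

def k0_pp_203 : ∃ t, chk3 f_pp_203 t 1 1 1 = true :=
  ⟨(b (l 2) (a (l 5) (b (l 2) (l 3)))), by decide +kernel⟩

theorem c_pp_203 : CertN 0 536870912 0 1230186008 201326592 134217728 3 false true true .up 2 0 3
    ndN0q2 ndN5q3 pcN0 Cut.none Ext.none :=
  certN0 (fam := false) (s1 := true) (s2 := true) (a := 2) (b := 0) (c := 3) (cn := .up) (n1 := ndN0q2) (n2 := ndN5q3) (pc := pcN0) (cut := Cut.none) (xt := Ext.none) (P1 := 0) (W1 := 536870912) (P2 := 0) (W2 := 1230186008) (P3 := 201326592) (W3 := 134217728) (N0 := 3)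
    rfl k0_pp_203

noncomputable def cut_pp_213 : Cut := Cut.of [[⟨0, 1, 0, 57167902⟩, ⟨1, 1, 0, 57167902⟩, ⟨2, 2, 0, 11758673⟩]]

noncomputable def f_pp_213 : ℕ → ℕ → ℕ → ℕ → Bool := onCell 0 536870912 0 1230186008 201326592 134217728
    (rowN 3 0 false true true .pnn 2 1 3 (qsf 0 536870912 0 1230186008 1) ndN0q2 ndN5q3 pcN1 cut_pp_213 Ext.none)

def k0_pp_213 : ∃ t, chk3 f_pp_213 t 1 1 1 = true :=
  ⟨(a (b (l 3) (l 5)) (b (b (a (l 3) (b (a (l 3) (l 6)) (l 3))) (l 3)) (b (l 3) (l 3)))), by decide +kernel⟩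

theorem c_pp_213 : CertN 0 536870912 0 1230186008 201326592 134217728 3 false true true .pnn 2 1 3
    ndN0q2 ndN5q3 pcN1 cut_pp_213 Ext.none :=
  certN0 (fam := false) (s1 := true) (s2 := true) (a := 2) (b := 1) (c := 3) (cn := .pnn) (n1 := ndN0q2) (n2 := ndN5q3) (pc := pcN1) (cut := cut_pp_213) (xt := Ext.none) (P1 := 0) (W1 := 536870912) (P2 := 0) (W2 := 1230186008) (P3 := 201326592) (W3 := 134217728) (N0 := 3)
    rfl k0_pp_213

noncomputable def f_pm_001 : ℕ → ℕ → ℕ → ℕ → Bool := onCell 0 536870912 536870912 536870912 201326592 134217728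
    (rowN 3 0 false true false .up 0 0 1 (qsf 0 536870912 536870912 536870912 0) ndN0q0 ndN5q1 pcN0 Cut.none Ext.none)

def k0_pm_001 : ∃ t, chk3 f_pm_001 t 1 1 1 = true :=
  ⟨(l 4), by decide +kernel⟩

theorem c_pm_001 : CertN 0 536870912 536870912 536870912 201326592 134217728 3 false true false .up 0 0 1
    ndN0q0 ndN5q1 pcN0 Cut.none Ext.none :=
  certN0 (fam := false) (s1 := true) (s2 := false) (a := 0) (b := 0) (c := 1) (cn := .up) (n1 := ndN0q0) (n2 := ndN5q1) (pc := pcN0) (cut := Cut.none) (xt := Ext.none) (P1 := 0) (W1 := 536870912) (P2 := 536870912) (W2 := 536870912) (P3 := 201326592) (W3 := 134217728) (N0 := 3)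
    rfl k0_pm_001

noncomputable def f_pm_011 : ℕ → ℕ → ℕ → ℕ → Bool := onCell 0 536870912 536870912 536870912 201326592 134217728
    (rowN 3 0 false true false .pnn 0 1 1 (qsf 0 536870912 536870912 536870912 1) ndN0q0 ndN5q1 pcN1 Cut.none Ext.none)

def k0_pm_011 : ∃ t, chk3 f_pm_011 t 1 1 1 = true :=
  ⟨(l 4), by decide +kernel⟩

theorem c_pm_011 : CertN 0 536870912 536870912 536870912 201326592 134217728 3 false true false .pnn 0 1 1
    ndN0q0 ndN5q1 pcN1 Cut.none Ext.none :=
  certN0 (fam := false) (s1 := true) (s2 := false) (a := 0) (b := 1) (c := 1) (cn := .pnn) (n1 := ndN0q0) (n2 := ndN5q1) (pc := pcN1) (cut := Cut.none) (xt := Ext.none) (P1 := 0) (W1 := 536870912) (P2 := 536870912) (W2 := 536870912) (P3 := 201326592) (W3 := 134217728) (N0 := 3)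
    rfl k0_pm_011

noncomputable def f_pm_012 : ℕ → ℕ → ℕ → ℕ → Bool := onCell 0 536870912 1073741824 536870912 201326592 134217728
    (rowN 3 0 false true false .pnp 0 1 2 (qsf 0 536870912 1073741824 536870912 1) ndN0q0 ndN5q2 pcN1 Cut.none Ext.none)

def k0_pm_012 : ∃ t, chk3 f_pm_012 t 1 1 1 = true :=
  ⟨(l 4), by decide +kernel⟩

theorem c_pm_012 : CertN 0 536870912 1073741824 536870912 201326592 134217728 3 false true false .pnp 0 1 2
    ndN0q0 ndN5q2 pcN1 Cut.none Ext.none :=
  certN0 (fam := false) (s1 := true) (s2 := false) (a := 0) (b := 1) (c := 2) (cn := .pnp) (n1 := ndN0q0) (n2 := ndN5q2) (pc := pcN1) (cut := Cut.none) (xt := Ext.none) (P1 := 0) (W1 := 536870912) (P2 := 1073741824) (W2 := 536870912) (P3 := 201326592) (W3 := 134217728) (N0 := 3)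
    rfl k0_pm_012

noncomputable def f_pm_022 : ℕ → ℕ → ℕ → ℕ → Bool := onCell 0 536870912 1073741824 536870912 201326592 134217728
    (rowN 3 0 false true false .pp 0 2 2 (qsf 0 536870912 1073741824 536870912 2) ndN0q0 ndN5q2 pcN2 Cut.none Ext.none)

def k0_pm_022 : ∃ t, chk3 f_pm_022 t 1 1 1 = true :=
  ⟨(l 4), by decide +kernel⟩

theorem c_pm_022 : CertN 0 536870912 1073741824 536870912 201326592 134217728 3 false true false .pp 0 2 2
    ndN0q0 ndN5q2 pcN2 Cut.none Ext.none :=
  certN0 (fam := false) (s1 := true) (s2 := false) (a := 0) (b := 2) (c := 2) (cn := .pp) (n1 := ndN0q0) (n2 := ndN5q2) (pc := pcN2) (cut := Cut.none) (xt := Ext.none) (P1 := 0) (W1 := 536870912) (P2 := 1073741824) (W2 := 536870912) (P3 := 201326592) (W3 := 134217728) (N0 := 3)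
    rfl k0_pm_022

noncomputable def f_pm_023 : ℕ → ℕ → ℕ → ℕ → Bool := onCell 0 536870912 0 1230186008 201326592 134217728
    (rowN 3 0 false true false .up 0 2 3 (qsf 0 536870912 0 1230186008 2) ndN0q0 ndN5q3 pcN2 Cut.none Ext.none)

def k0_pm_023 : ∃ t, chk3 f_pm_023 t 1 1 1 = true :=
  ⟨(a (b (l 2) (l 4)) (b (a (l 2) (b (a (l 2) (l 17491256)) (a (l 4) (l 4)))) (l 4))), by decide +kernel⟩

theorem c_pm_023 : CertN 0 536870912 0 1230186008 201326592 134217728 3 false true false .up 0 2 3
    ndN0q0 ndN5q3 pcN2 Cut.none Ext.none :=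
  certN0 (fam := false) (s1 := true) (s2 := false) (a := 0) (b := 2) (c := 3) (cn := .up) (n1 := ndN0q0) (n2 := ndN5q3) (pc := pcN2) (cut := Cut.none) (xt := Ext.none) (P1 := 0) (W1 := 536870912) (P2 := 0) (W2 := 1230186008) (P3 := 201326592) (W3 := 134217728) (N0 := 3)
    rfl k0_pm_023

noncomputable def f_pm_033 : ℕ → ℕ → ℕ → ℕ → Bool := onCell 1610612736 536870912 0 1230186008 201326592 134217728
    (rowN 3 2 false true false .pnn 0 3 3 (qsf 0 536870912 0 1230186008 3) ndN0q0 ndN5q3 pcN3 Cut.none Ext.none)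

def k0_pm_033 : ∃ t, chk3 f_pm_033 t 1 1 1 = true :=
  ⟨(b (b (a (a (a (c (l 17305320) (l 17269576)) (c (l 17371520) (l 17314520))) (a (l 17394808) (l 4))) (l 4)) (l 4)) (l 4)), by decide +kernel⟩

theorem c_pm_033 : CertN 0 536870912 0 1230186008 201326592 134217728 3 false true false .pnn 0 3 3
    ndN0q0 ndN5q3 pcN3 Cut.none Ext.none :=
  certN2 (fam := false) (s1 := true) (s2 := false) (a := 0) (b := 3) (c := 3) (cn := .pnn) (n1 := ndN0q0) (n2 := ndN5q3) (pc := pcN3) (cut := Cut.none) (xt := Ext.none) (P1 := 0) (W1 := 536870912) (P2 := 0) (W2 := 1230186008) (P3 := 201326592) (W3 := 134217728) (N0 := 3)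
    rfl (fun _ => rfl) k0_pm_033

noncomputable def f_pm_101 : ℕ → ℕ → ℕ → ℕ → Bool := onCell 536870912 536870912 536870912 536870912 201326592 134217728
    (rowN 3 0 false true false .npn 1 0 1 (qsf 536870912 536870912 536870912 536870912 0) ndN0q1 ndN5q1 pcN0 Cut.none Ext.none)

def k0_pm_101 : ∃ t, chk3 f_pm_101 t 1 1 1 = true :=
  ⟨(l 4), by decide +kernel⟩

theorem c_pm_101 : CertN 536870912 536870912 536870912 536870912 201326592 134217728 3 false true false .npn 1 0 1
    ndN0q1 ndN5q1 pcN0 Cut.none Ext.none :=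
  certN0 (fam := false) (s1 := true) (s2 := false) (a := 1) (b := 0) (c := 1) (cn := .npn) (n1 := ndN0q1) (n2 := ndN5q1) (pc := pcN0) (cut := Cut.none) (xt := Ext.none) (P1 := 536870912) (W1 := 536870912) (P2 := 536870912) (W2 := 536870912) (P3 := 201326592) (W3 := 134217728) (N0 := 3)
    rfl k0_pm_101

noncomputable def f_pm_102 : ℕ → ℕ → ℕ → ℕ → Bool := onCell 536870912 536870912 0 536870912 201326592 134217728
    (rowN 3 1 false true false .npp 1 0 2 (qsf 536870912 536870912 1073741824 536870912 0) ndN0q1 ndN5q2 pcN0 Cut.none Ext.none)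

def k0_pm_102 : ∃ t, chk3 f_pm_102 t 1 1 1 = true :=
  ⟨(a (l 4) (b (l 4) (b (l 4) (a (l 4) (a (l 4) (b (l 4) (c (l 18023832) (l 17825768)))))))), by decide +kernel⟩

theorem c_pm_102 : CertN 536870912 536870912 1073741824 536870912 201326592 134217728 3 false true false .npp 1 0 2
    ndN0q1 ndN5q2 pcN0 Cut.none Ext.none :=
  certN1 (fam := false) (s1 := true) (s2 := false) (a := 1) (b := 0) (c := 2) (cn := .npp) (n1 := ndN0q1) (n2 := ndN5q2) (pc := pcN0) (cut := Cut.none) (xt := Ext.none) (P1 := 536870912) (W1 := 536870912) (P2 := 1073741824) (W2 := 536870912) (P3 := 201326592) (W3 := 134217728) (N0 := 3)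
    rfl (fun _ => rfl) k0_pm_102

noncomputable def f_pm_112 : ℕ → ℕ → ℕ → ℕ → Bool := onCell 536870912 536870912 1073741824 536870912 201326592 134217728
    (rowN 3 2 false true false .dn 1 1 2 (qsf 536870912 536870912 1073741824 536870912 1) ndN0q1 ndN5q2 pcN1 Cut.none Ext.none)

def k0_pm_112 : ∃ t, chk3 f_pm_112 t 1 1 1 = true :=
  ⟨(a (b (l 4) (b (l 4) (a (l 18227840) (l 4)))) (l 4)), by decide +kernel⟩

theorem c_pm_112 : CertN 536870912 536870912 1073741824 536870912 201326592 134217728 3 false true false .dn 1 1 2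
    ndN0q1 ndN5q2 pcN1 Cut.none Ext.none :=
  certN2 (fam := false) (s1 := true) (s2 := false) (a := 1) (b := 1) (c := 2) (cn := .dn) (n1 := ndN0q1) (n2 := ndN5q2) (pc := pcN1) (cut := Cut.none) (xt := Ext.none) (P1 := 536870912) (W1 := 536870912) (P2 := 1073741824) (W2 := 536870912) (P3 := 201326592) (W3 := 134217728) (N0 := 3)
    rfl (fun _ => rfl) k0_pm_112

noncomputable def cut_pm_113 : Cut := Cut.of [[⟨0, 1, 0, 57167902⟩, ⟨1, 1, 0, 57167902⟩, ⟨2, 2, 0, 11758673⟩]]

noncomputable def f_pm_113 : ℕ → ℕ → ℕ → ℕ → Bool := onCell 536870912 536870912 0 1230186008 201326592 134217728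
    (rowN 3 0 false true false .nn 1 1 3 (qsf 536870912 536870912 0 1230186008 1) ndN0q1 ndN5q3 pcN1 cut_pm_113 Ext.none)

def k0_pm_113 : ∃ t, chk3 f_pm_113 t 1 1 1 = true :=
  ⟨(b (a (l 2) (a (l 2) (b (a (l 2) (b (a (l 2) (l 6)) (l 16921040))) (a (b (l 17015288) (l 17121960)) (b (l 16887040) (l 17006288)))))) (b (b (a (l 2) (a (a (l 2) (b (l 17638440) (l 17733768))) (a (l 17353904) (l 17067104)))) (a (l 4) (a (a (l 18102000) (b (l 17823856) (a (l 17963680) (b (l 17835680) (l 17890032))))) (b (a (b (l 17501488) (a (l 17632224) (l 17488336))) (l 17254016)) (a (b (l 17611704) (l 17752480)) (a (l 17447520) (l 17320016))))))) (a (l 4) (b (a (a (l 4) (b (a (l 18016488) (b (l 17932352) (l 17963112))) (l 18021992))) (b (a (a (l 18105216) (b (l 17710144) (l 17787224))) (a (l 17612888) (l 17467296))) (a (a (l 17939848) (l 17867224)) (b (l 17672296) (l 17740440))))) (a (l 4) (b (a (l 17977696) (b (a (l 17857440) (l 17792992)) (a (l 17926176) (l 17847512)))) (l 18018904))))))), by decide +kernel⟩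

theorem c_pm_113 : CertN 536870912 536870912 0 1230186008 201326592 134217728 3 false true false .nn 1 1 3
    ndN0q1 ndN5q3 pcN1 cut_pm_113 Ext.none :=
  certN0 (fam := false) (s1 := true) (s2 := false) (a := 1) (b := 1) (c := 3) (cn := .nn) (n1 := ndN0q1) (n2 := ndN5q3) (pc := pcN1) (cut := cut_pm_113) (xt := Ext.none) (P1 := 536870912) (W1 := 536870912) (P2 := 0) (W2 := 1230186008) (P3 := 201326592) (W3 := 134217728) (N0 := 3)
    rfl k0_pm_113

noncomputable def cut_pm_123 : Cut := Cut.of [[⟨0, 1, 0, 57167902⟩, ⟨1, 1, 0, 57167902⟩, ⟨2, 2, 0, 11758673⟩]]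

noncomputable def f_pm_123 : ℕ → ℕ → ℕ → ℕ → Bool := onCell 1073741824 536870912 0 1230186008 201326592 134217728
    (rowN 3 2 false true false .npn 1 2 3 (qsf 536870912 536870912 0 1230186008 2) ndN0q1 ndN5q3 pcN2 cut_pm_123 Ext.none)

def k0_pm_123 : ∃ t, chk3 f_pm_123 t 1 1 1 = true :=
  ⟨(b (b (a (a (a (b (a (l 6) (l 16884864)) (b (l 16863864) (l 16946616))) (a (b (l 16866736) (l 16996160)) (a (l 16973312) (b (l 16929872) (l 17066424))))) (a (a (a (b (l 16956736) (l 17093304)) (b (a (l 16974904) (l 16987128)) (l 17119088))) (l 17079592)) (b (l 17076448) (l 17231360)))) (a (a (b (l 17185240) (l 17327584)) (b (l 17300520) (l 17408240))) (a (b (l 17392216) (l 17458296)) (l 17438008)))) (a (b (a (a (l 17107832) (a (l 17196408) (l 17242528))) (a (a (l 17286656) (l 17328288)) (l 17392456))) (a (a (l 17532152) (b (l 17390472) (l 17526008))) (a (l 17530792) (l 17591384)))) (a (a (b (l 17466048) (l 17626408)) (b (l 17517192) (l 17635008))) (a (l 17568104) (l 17611096))))) (b (a (a (b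 (a (l 17710912) (l 17757104)) (a (l 18056192) (l 18018328))) (b (a (l 17778592) (l 17782424)) (l 4))) (l 4)) (l 4))), by decide +kernel⟩

theorem c_pm_123 : CertN 536870912 536870912 0 1230186008 201326592 134217728 3 false true false .npn 1 2 3
    ndN0q1 ndN5q3 pcN2 cut_pm_123 Ext.none :=
  certN2 (fam := false) (s1 := true) (s2 := false) (a := 1) (b := 2) (c := 3) (cn := .npn) (n1 := ndN0q1) (n2 := ndN5q3) (pc := pcN2) (cut := cut_pm_123) (xt := Ext.none) (P1 := 536870912) (W1 := 536870912) (P2 := 0) (W2 := 1230186008) (P3 := 201326592) (W3 := 134217728) (N0 := 3)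
    rfl (fun _ => rfl) k0_pm_123

noncomputable def f_pm_133 : ℕ → ℕ → ℕ → ℕ → Bool := onCell 536870912 536870912 0 1230186008 201326592 134217728
    (rowN 3 0 false true false .dn 1 3 3 (qsf 536870912 536870912 0 1230186008 3) ndN0q1 ndN5q3 pcN3 Cut.none Ext.none)

def k0_pm_133 : ∃ t, chk3 f_pm_133 t 1 1 1 = true :=
  ⟨(b (b (a (a (a (b (l 17112104) (l 1)) (l 1)) (l 1)) (l 1)) (l 1)) (l 1)), by decide +kernel⟩

theorem c_pm_133 : CertN 536870912 536870912 0 1230186008 201326592 134217728 3 false true false .dn 1 3 3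
    ndN0q1 ndN5q3 pcN3 Cut.none Ext.none :=
  certN0 (fam := false) (s1 := true) (s2 := false) (a := 1) (b := 3) (c := 3) (cn := .dn) (n1 := ndN0q1) (n2 := ndN5q3) (pc := pcN3) (cut := Cut.none) (xt := Ext.none) (P1 := 536870912) (W1 := 536870912) (P2 := 0) (W2 := 1230186008) (P3 := 201326592) (W3 := 134217728) (N0 := 3)
    rfl k0_pm_133

noncomputable def f_pm_202 : ℕ → ℕ → ℕ → ℕ → Bool := onCell 0 536870912 1073741824 536870912 201326592 134217728
    (rowN 3 0 false true false .pp 2 0 2 (qsf 0 536870912 1073741824 536870912 0) ndN0q2 ndN5q2 pcN0 Cut.none Ext.none)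

def k0_pm_202 : ∃ t, chk3 f_pm_202 t 1 1 1 = true :=
  ⟨(a (b (a (b (l 1) (b (b (l 17822736) (l 17770760)) (a (l 17586528) (l 17760808)))) (a (b (l 1) (b (l 18035808) (l 17913776))) (b (b (l 1) (l 18216472)) (b (l 18198008) (l 18061928))))) (b (a (b (a (l 17385384) (l 17599296)) (a (b (l 17138128) (l 17098272)) (b (l 17422216) (l 17247032)))) (b (a (l 17787752) (l 17837904)) (a (l 17613424) (l 17638072)))) (a (b (a (l 17189856) (b (l 17177376) (l 17157024))) (c (l 17231864) (l 17039264))) (a (b (b (l 17350456) (l 17234304)) (b (l 17205496) (l 17214192))) (b (l 17520824) (b (l 17269384) (l 17239504))))))) (b (b (a (b (l 1) (a (l 18504816) (l 4))) (l 4)) (a (b (a (l 18353352) (l 18442088)) (l 18207232)) (a (b (l 4) (l 4)) (l 4)))) (b (a (b (l 18018704) (a (l 17728752) (l 17884296))) (b (a (l 18211960) (l 4)) (a (l 18050304) (b (l 4) (l 18152280))))) (a (b (a (l 17520392) (l 17625312)) (b (a (l 17408888) (l 17456608)) (a (l 17285312) (l 17371104)))) (b (a (l 17830648) (b (l 18085080)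 (l 17996416))) (a (b (l 17605168) (l 17451880)) (b (l 17876200) (l 17712640)))))))), by decide +kernel⟩

theorem c_pm_202 : CertN 0 536870912 1073741824 536870912 201326592 134217728 3 false true false .pp 2 0 2
    ndN0q2 ndN5q2 pcN0 Cut.none Ext.none :=
  certN0 (fam := false) (s1 := true) (s2 := false) (a := 2) (b := 0) (c := 2) (cn := .pp) (n1 := ndN0q2) (n2 := ndN5q2) (pc := pcN0) (cut := Cut.none) (xt := Ext.none) (P1 := 0) (W1 := 536870912) (P2 := 1073741824) (W2 := 536870912) (P3 := 201326592) (W3 := 134217728) (N0 := 3)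
    rfl k0_pm_202

noncomputable def f_pm_203 : ℕ → ℕ → ℕ → ℕ → Bool := onCell 0 536870912 0 1230186008 201326592 134217728
    (rowN 3 0 false true false .up 2 0 3 (qsf 0 536870912 0 1230186008 0) ndN0q2 ndN5q3 pcN0 Cut.none Ext.none)

def k0_pm_203 : ∃ t, chk3 f_pm_203 t 1 1 1 = true :=
  ⟨(b (l 2) (b (l 2) (b (a (b (l 2) (a (a (b (l 2) (l 16986664)) (l 17064312)) (a (l 17155800) (l 17231888)))) (l 2)) (a (b (a (a (b (l 17017632) (l 17044720)) (l 17111640)) (a (l 17187032) (l 17255408))) (a (a (l 17100664) (l 17190256)) (c (l 17326528) (l 17128856)))) (a (a (b (l 17287248) (b (l 17283144) (l 17261280))) (b (l 17325344) (b (l 17279752) (l 17284472)))) (b (a (c (l 17378976) (l 17212872)) (l 2)) (a (b (l 17277040) (l 17326248)) (b (a (l 17271680) (l 2)) (a (l 17411464) (l 17583776)))))))))), by decide +kernel⟩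

theorem c_pm_203 : CertN 0 536870912 0 1230186008 201326592 134217728 3 false true false .up 2 0 3
    ndN0q2 ndN5q3 pcN0 Cut.none Ext.none :=
  certN0 (fam := false) (s1 := true) (s2 := false) (a := 2) (b := 0) (c := 3) (cn := .up) (n1 := ndN0q2) (n2 := ndN5q3) (pc := pcN0) (cut := Cut.none) (xt := Ext.none) (P1 := 0) (W1 := 536870912) (P2 := 0) (W2 := 1230186008) (P3 := 201326592) (W3 := 134217728) (N0 := 3)
    rfl k0_pm_203

noncomputable def cut_pm_213 : Cut := Cut.of [[⟨0, 1, 0, 57167902⟩, ⟨1, 1, 0, 57167902⟩, ⟨2, 2, 0, 11758673⟩]]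

noncomputable def f_pm_213 : ℕ → ℕ → ℕ → ℕ → Bool := onCell 0 536870912 0 1230186008 201326592 134217728
    (rowN 3 0 false true false .pnn 2 1 3 (qsf 0 536870912 0 1230186008 1) ndN0q2 ndN5q3 pcN1 cut_pm_213 Ext.none)

def k0_pm_213 : ∃ t, chk3 f_pm_213 t 2 2 1 = true :=
  ⟨(b (l 3) (a (l 3) (b (l 3) (a (b (l 3) (a (l 3) (b (l 3) (a (l 3) (b (l 3) (a (l 3) (l 289004365351))))))) (b (a (l 3) (b (a (l 3) (b (l 3) (a (l 3) (l 291688727399)))) (a (b (l 3) (a (l 3) (b (l 286320002327) (l 263234553063)))) (b (a (b (l 3) (l 275582584311)) (c (l 258402715719) (l 256255226071))) (a (b (l 255718359255) (l 16795960)) (l 16798352)))))) (a (c (b (a (l 3) (b (l 297594294711) (l 269140161367))) (a (b (l 281488176327) (l 257328985719)) (b (l 242833472775) (l 16807744)))) (b (a (l 3) (b (l 297057414135) (a (l 278266939255) (l 256255231495)))) (a (b (l 280951316279) (a (l 262160816135) (l 16797240))) (b (l 240149109159) (l 16802504))))) (b (a (b (a (b (l 273971974983) (l 255181491367)) (b (l 244444078823)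 (l 16798104))) (a (l 16798816) (l 16802864))) (l 16848072)) (l 16815072)))))))), by decide +kernel⟩

def k1_pm_213 : ∃ t, chk3 f_pm_213 t 6 4 1 = true :=
  ⟨(b (l 3) (a (l 3) (b (l 3) (a (l 3) (b (a (l 3) (b (l 3) (a (l 3) (a (b (l 3) (l 281488155975)) (b (l 286319988151) (c (l 263234551399) (l 260013323863))))))) (a (b (l 3) (c (a (l 290078078615) (b (l 278266939847) (a (l 261623920423) (l 16786008)))) (a (l 289541225095) (b (l 276656324407) (a (l 258939563319) (l 16784488)))))) (b (a (c (b (l 282561884263) (a (l 274508820567) (l 255181469495))) (b (l 281488160615) (a (l 272898206167) (l 250886499671)))) (b (a (b (l 261623932423) (l 16794008)) (l 16784896)) (l 16786800))) (a (b (c (l 245517792647) (l 241759695911)) (l 16788528)) (l 16791424))))))))), by decide +kernel⟩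

def k2_pm_213 : ∃ t, chk3 f_pm_213 t 7 8 1 = true :=
  ⟨(a (b (l 3) (a (l 3) (b (l 3) (a (l 3) (a (a (l 3) (l 6)) (l 6)))))) (l 6)), by decide +kernel⟩

def k3_pm_213 : ∃ t, chk3 f_pm_213 t 14 9 1 = true :=
  ⟨(b (a (b (l 3) (a (a (l 3) (b (l 3) (c (l 287930600455) (l 287930598007)))) (b (c (a (l 290614954167) (b (a (l 3) (l 277193180471)) (a (l 274508826039) (b (l 255718334647) (l 16782824))))) (a (l 291151812151) (b (a (l 3) (l 275582566279)) (a (l 272898212071) (b (l 249812752599) (l 16781960)))))) (a (b (a (l 285246244055) (b (l 275582570071) (c (l 260013302183) (l 255718333335)))) (a (c (l 263771409559) (b (l 263771396567) (l 248739013367))) (l 16793632))) (a (b (c (l 16782848) (l 16781952)) (l 16785280)) (l 16785992)))))) (b (a (b (a (l 3) (b (l 3) (b (c (l 280414398999) (l 279877532007)) (a (l 284172497191) (c (l 263771406359) (l 260550179847)))))) (a (c (b (l 283635630551) (a (l 278803792487) (b (l 266455761159) (l 16781376)))) (b (l 283635628871) (a (l 278266920151) (b (l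 263771405463) (l 16780704))))) (b (a (b (c (l 270213856791) (l 268066372199)) (c (l 257328956519) (l 253033988039))) (l 16792296)) (l 16793992)))) (b (a (b (a (b (c (l 278803780119) (l 278803789559)) (c (l 267529501831) (l 265382017271))) (l 6)) (a (b (c (l 264845148535) (l 263771406919)) (l 16781848)) (l 16783256))) (l 6)) (l 16788432))) (a (b (a (b (a (b (c (l 262160794855) (l 258402697207)) (l 16792216)) (l 16783136)) (l 16784888)) (l 16787736)) (l 16791336)) (l 16797088)))) (c (a (b (a (b (a (b (l 3) (l 279877538343)) (b (a (l 278266914167) (l 260013314375)) (a (l 256255219367) (l 16785216)))) (a (b (a (l 266992636263) (l 16783840)) (l 16785776)) (l 16788728))) (b (l 16789248) (l 16795448))) (l 16800448)) (l 16812592)) (a (b (a (b (a (b (l 3) (l 278803799495)) (b (a (l 277193170359) (b (l 258939559127) (l 16781984))) (a (l 251960239575) (l 16784016)))) (a (b (a (l 264308279895) (l 16782720)) (l 16784448)) (l 16787184))) (b (l 16787744) (l 16793392))) (l 16797944)) (l 16809168)))),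 by decide +kernel⟩

def k4_pm_213 : ∃ t, chk3 f_pm_213 t 15 9 1 = true :=
  ⟨(b (a (b (l 6) (l 16809840)) (l 16821104)) (l 16837352)), by decide +kernel⟩

def k5_pm_213 : ∃ t, chk3 f_pm_213 t 6 10 1 = true :=
  ⟨(a (b (a (l 3) (a (l 3) (b (l 3) (b (l 3) (c (l 294909933143) (l 293836191143)))))) (a (b (l 3) (c (a (l 3) (b (l 295983690567) (a (l 282561901799) (l 258939601783)))) (a (l 3) (b (l 294909941911) (a (l 280951282423) (b (l 262160800311) (l 16789896))))))) (b (a (b (l 3) (a (l 3) (b (l 285783140423) (a (l 273971960359) (l 253570886231))))) (b (c (a (l 281488174887) (b (l 262160798951) (l 16790400))) (a (l 280414427847) (b (l 260013311607) (l 16788040)))) (a (b (a (l 258402723095) (l 16789240)) (l 16791240)) (l 16794008)))) (a (c (b (a (b (l 276119447255) (l 255718353543)) (l 242296580967)) (l 16797480)) (b (a (b (l 275045701287) (l 253033994071)) (l 240149098295)) (l 16794256))) (l 16780768))))) (b (a (b (a (l 3) (b (a (l 3) (b (l 3) (a (l 3) (l 273435098951)))) (c (a (b (l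 287930597815) (l 273435104631)) (b (l 260013332007) (l 16788680))) (a (b (l 287930593831) (l 271287618487)) (b (a (l 262160790615) (l 16784944)) (l 16786752)))))) (c (a (b (a (l 292225566759) (b (l 280414407447) (l 261087075799))) (a (b (l 274508828215) (l 254107736119)) (l 16791096))) (b (a (b (l 253570863319) (l 16790672)) (l 16793616)) (l 16797976))) (a (b (a (l 291688690999) (b (l 279340661463) (l 258402717783))) (a (b (l 272898213079) (l 250886506519)) (l 16788792))) (b (a (b (l 249275892295) (l 16788480)) (l 16791232)) (l 16795208))))) (b (a (b (c (a (b (l 266455777863) (l 249812765399)) (l 16789664)) (a (b (a (l 276119433415) (l 254644597111)) (l 244980923895)) (l 16787776))) (l 16824296)) (l 16798704)) (l 16807120))) (a (b (a (b (a (l 16812944) (l 16796472)) (l 16800800)) (l 16806744)) (l 16815560)) (l 16827664)))), by decide +kernel⟩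

def k6_pm_213 : ∃ t, chk3 f_pm_213 t 6 11 1 = true :=
  ⟨(a (b (a (b (a (b (a (l 3) (c (l 277193194247) (l 275582597527))) (b (a (l 276656322887) (l 244980942391)) (c (l 250886524215) (l 244444066663)))) (a (b (c (l 252497133495) (l 249275902039)) (l 16798160)) (l 16841272))) (a (b (a (l 16796144) (l 16800392)) (l 16804872)) (l 16810608))) (b (l 16810632) (l 16824352))) (a (l 16826744) (l 16845040))) (b (l 16845560) (l 16872752))), by decide +kernel⟩

def k7_pm_213 : ∃ t, chk3 f_pm_213 t 7 5 1 = true :=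
  ⟨(b (a (b (l 16974712) (l 16855176)) (l 17006464)) (a (l 16898568) (l 16934512))), by decide +kernel⟩

def k8_pm_213 : ∃ t, chk3 f_pm_213 t 2 6 1 = true :=
  ⟨(b (a (a (l 3) (b (l 3) (a (l 3) (b (a (l 3) (b (l 3) (a (l 3) (l 276656350167)))) (a (b (l 297057481287) (a (l 279340708807) (l 257329018247))) (b (a (l 265382082583) (l 249812816967)) (l 16807640))))))) (a (b (a (b (l 3) (a (l 3) (b (a (l 3) (l 281488180135)) (a (l 273972012615) (l 250886538519))))) (b (a (b (l 3) (c (l 279877571495) (l 278266947303))) (b (a (l 277730101431) (b (l 260550207815) (l 16800016))) (a (l 249275929175) (l 16803920)))) (a (b (c (l 252497154519) (l 251423402839)) (l 16806560)) (l 16832224)))) (a (b (a (b (a (l 288467505447) (l 261623990823)) (a (l 254107767607) (l 16805744))) (b (a (l 246054714199) (l 16806984)) (l 16810776))) (a (l 16853496) (l 16819560))) (b (l 16861816) (l 16832224)))) (b (a (b (a (b (l 16803504) (l 16809792)) (l 16815152)) (l 16823800)) (l 16834992)) (l 16851016)))) (a (b (a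 (a (l 3) (b (l 3) (a (l 3) (b (l 3) (a (l 282025071911) (l 260550252903)))))) (a (b (a (b (l 3) (a (l 3) (l 281488196807))) (b (a (l 290614997047) (l 268066422487)) (a (l 258939614583) (l 16807712)))) (a (b (a (l 275045749287) (l 254644663623)) (a (l 16808864) (l 16809176))) (l 16863016))) (b (a (b (a (l 252497174791) (l 16807936)) (l 16810296)) (l 16814472)) (l 16840976)))) (a (a (b (b (l 3) (c (l 302963036599) (l 306184263367))) (a (b (l 3) (a (l 280951337799) (l 262697744359))) (b (a (l 270213918679) (l 257329008311)) (l 251423456535)))) (b (a (b (a (l 3) (l 275582624167)) (a (l 261623978007) (l 16810096))) (b (a (l 255718392503) (l 16809168)) (l 16809896))) (a (l 16852160) (l 16813864)))) (a (b (l 16814816) (l 16823056)) (l 16833984)))) (b (a (l 17007648) (l 16873352)) (l 17128432)))), by decide +kernel⟩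

def k9_pm_213 : ∃ t, chk3 f_pm_213 t 3 6 1 = true :=
  ⟨(b (a (b (a (l 16861296) (l 16897712)) (l 16964032)) (a (l 16935360) (l 16940312))) (a (b (l 17042752) (l 17026752)) (b (l 17008240) (l 17134592)))), by decide +kernel⟩

def k10_pm_213 : ∃ t, chk3 f_pm_213 t 1 7 1 = true :=
  ⟨(a (b (a (b (a (a (b (b (c (l 250349709943) (l 249275952999)) (l 16810288)) (l 16815120)) (l 16908056)) (l 16917464)) (a (b (l 16844496) (l 16888072)) (l 16943048))) (b (a (l 16912952) (l 16977672)) (a (l 17031464) (l 17093392)))) (b (a (l 1) (b (l 17171080) (l 1))) (l 1))) (b (a (b (l 17069408) (a (l 17172696) (l 17289192))) (b (a (l 17210216) (l 17332600)) (a (b (l 17323248) (l 17398192)) (b (l 17454600) (l 17567040))))) (b (a (c (l 17444288) (l 17311376)) (b (a (l 17526520) (l 17866616)) (l 17664144))) (a (l 1) (a (l 17732624) (l 17867440)))))), by decide +kernel⟩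

theorem s11_pm_213 : ∃ t, chk3 f_pm_213 t 1 6 1 = true := ex3_a k8_pm_213 k9_pm_213

theorem s12_pm_213 : ∃ t, chk3 f_pm_213 t 1 3 1 = true := ex3_b s11_pm_213 k10_pm_213

theorem s13_pm_213 : ∃ t, chk3 f_pm_213 t 6 5 1 = true := ex3_b k5_pm_213 k6_pm_213

theorem s14_pm_213 : ∃ t, chk3 f_pm_213 t 3 5 1 = true := ex3_a s13_pm_213 k7_pm_213

theorem s15_pm_213 : ∃ t, chk3 f_pm_213 t 7 9 1 = true := ex3_a k3_pm_213 k4_pm_213

theorem s16_pm_213 : ∃ t, chk3 f_pm_213 t 7 4 1 = true := ex3_b k2_pm_213 s15_pm_213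

theorem s17_pm_213 : ∃ t, chk3 f_pm_213 t 3 4 1 = true := ex3_a k1_pm_213 s16_pm_213

theorem s18_pm_213 : ∃ t, chk3 f_pm_213 t 3 2 1 = true := ex3_b s17_pm_213 s14_pm_213

theorem s19_pm_213 : ∃ t, chk3 f_pm_213 t 1 2 1 = true := ex3_a k0_pm_213 s18_pm_213

theorem s20_pm_213 : ∃ t, chk3 f_pm_213 t 1 1 1 = true := ex3_b s19_pm_213 s12_pm_213

theorem c_pm_213 : CertN 0 536870912 0 1230186008 201326592 134217728 3 false true false .pnn 2 1 3
    ndN0q2 ndN5q3 pcN1 cut_pm_213 Ext.none :=
  certN0 (fam := false) (s1 := true) (s2 := false) (a := 2) (b := 1) (c := 3) (cn := .pnn) (n1 := ndN0q2) (n2 := ndN5q3) (pc := pcN1) (cut := cut_pm_213) (xt := Ext.none) (P1 := 0) (W1 := 536870912) (P2 := 0) (W2 := 1230186008) (P3 := 201326592) (W3 := 134217728) (N0 := 3)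
    rfl s20_pm_213

noncomputable def f_mm_001 : ℕ → ℕ → ℕ → ℕ → Bool := onCell 0 536870912 0 536870912 201326592 134217728
    (rowN 3 1 false false false .up 0 0 1 (qsf 0 536870912 536870912 536870912 0) ndN0q0 ndN5q1 pcN0 Cut.none Ext.none)

def k0_mm_001 : ∃ t, chk3 f_mm_001 t 1 1 1 = true :=
  ⟨(l 3), by decide +kernel⟩

theorem c_mm_001 : CertN 0 536870912 536870912 536870912 201326592 134217728 3 false false false .up 0 0 1
    ndN0q0 ndN5q1 pcN0 Cut.none Ext.none :=
  certN1 (fam := false) (s1 := false) (s2 := false) (a := 0) (b := 0) (c := 1) (cn := .up) (n1 := ndN0q0) (n2 := ndN5q1) (pc := pcN0) (cut := Cut.none) (xt := Ext.none) (P1 := 0) (W1 := 536870912) (P2 := 536870912) (W2 := 536870912) (P3 := 201326592) (W3 := 134217728) (N0 := 3)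
    rfl (fun _ => rfl) k0_mm_001

noncomputable def f_mm_011 : ℕ → ℕ → ℕ → ℕ → Bool := onCell 0 536870912 536870912 536870912 201326592 134217728
    (rowN 3 1 false false false .pnn 0 1 1 (qsf 0 536870912 536870912 536870912 1) ndN0q0 ndN5q1 pcN1 Cut.none Ext.none)

def k0_mm_011 : ∃ t, chk3 f_mm_011 t 1 1 1 = true :=
  ⟨(l 5), by decide +kernel⟩

theorem c_mm_011 : CertN 0 536870912 536870912 536870912 201326592 134217728 3 false false false .pnn 0 1 1
    ndN0q0 ndN5q1 pcN1 Cut.none Ext.none :=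
  certN1 (fam := false) (s1 := false) (s2 := false) (a := 0) (b := 1) (c := 1) (cn := .pnn) (n1 := ndN0q0) (n2 := ndN5q1) (pc := pcN1) (cut := Cut.none) (xt := Ext.none) (P1 := 0) (W1 := 536870912) (P2 := 536870912) (W2 := 536870912) (P3 := 201326592) (W3 := 134217728) (N0 := 3)
    rfl (fun _ => rfl) k0_mm_011

noncomputable def f_mm_012 : ℕ → ℕ → ℕ → ℕ → Bool := onCell 0 536870912 1073741824 536870912 201326592 134217728
    (rowN 3 0 false false false .pnp 0 1 2 (qsf 0 536870912 1073741824 536870912 1) ndN0q0 ndN5q2 pcN1 Cut.none Ext.none)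

def k0_mm_012 : ∃ t, chk3 f_mm_012 t 1 1 1 = true :=
  ⟨(l 5), by decide +kernel⟩

theorem c_mm_012 : CertN 0 536870912 1073741824 536870912 201326592 134217728 3 false false false .pnp 0 1 2
    ndN0q0 ndN5q2 pcN1 Cut.none Ext.none :=
  certN0 (fam := false) (s1 := false) (s2 := false) (a := 0) (b := 1) (c := 2) (cn := .pnp) (n1 := ndN0q0) (n2 := ndN5q2) (pc := pcN1) (cut := Cut.none) (xt := Ext.none) (P1 := 0) (W1 := 536870912) (P2 := 1073741824) (W2 := 536870912) (P3 := 201326592) (W3 := 134217728) (N0 := 3)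
    rfl k0_mm_012

noncomputable def f_mm_022 : ℕ → ℕ → ℕ → ℕ → Bool := onCell 0 536870912 1073741824 536870912 201326592 134217728
    (rowN 3 0 false false false .pp 0 2 2 (qsf 0 536870912 1073741824 536870912 2) ndN0q0 ndN5q2 pcN2 Cut.none Ext.none)

def k0_mm_022 : ∃ t, chk3 f_mm_022 t 1 1 1 = true :=
  ⟨(l 5), by decide +kernel⟩

theorem c_mm_022 : CertN 0 536870912 1073741824 536870912 201326592 134217728 3 false false false .pp 0 2 2
    ndN0q0 ndN5q2 pcN2 Cut.none Ext.none :=
  certN0 (fam := false) (s1 := false) (s2 := false) (a := 0) (b := 2) (c := 2) (cn := .pp) (n1 := ndN0q0) (n2 := ndN5q2) (pc := pcN2) (cut := Cut.none) (xt := Ext.none) (P1 := 0) (W1 := 536870912) (P2 := 1073741824) (W2 := 536870912) (P3 := 201326592) (W3 := 134217728) (N0 := 3)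
    rfl k0_mm_022

noncomputable def f_mm_023 : ℕ → ℕ → ℕ → ℕ → Bool := onCell 0 536870912 0 1230186008 201326592 134217728
    (rowN 3 0 false false false .up 0 2 3 (qsf 0 536870912 0 1230186008 2) ndN0q0 ndN5q3 pcN2 Cut.none Ext.none)

def k0_mm_023 : ∃ t, chk3 f_mm_023 t 1 1 1 = true :=
  ⟨(l 5), by decide +kernel⟩

theorem c_mm_023 : CertN 0 536870912 0 1230186008 201326592 134217728 3 false false false .up 0 2 3
    ndN0q0 ndN5q3 pcN2 Cut.none Ext.none :=
  certN0 (fam := false) (s1 := false) (s2 := false) (a := 0) (b := 2) (c := 3) (cn := .up) (n1 := ndN0q0) (n2 := ndN5q3) (pc := pcN2) (cut := Cut.none) (xt := Ext.none) (P1 := 0) (W1 := 536870912) (P2 := 0) (W2 := 1230186008) (P3 := 201326592) (W3 := 134217728) (N0 := 3)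
    rfl k0_mm_023

noncomputable def f_mm_033 : ℕ → ℕ → ℕ → ℕ → Bool := onCell 0 536870912 0 1230186008 201326592 134217728
    (rowN 3 0 false false false .pnn 0 3 3 (qsf 0 536870912 0 1230186008 3) ndN0q0 ndN5q3 pcN3 Cut.none Ext.none)

def k0_mm_033 : ∃ t, chk3 f_mm_033 t 1 1 1 = true :=
  ⟨(l 5), by decide +kernel⟩

theorem c_mm_033 : CertN 0 536870912 0 1230186008 201326592 134217728 3 false false false .pnn 0 3 3
    ndN0q0 ndN5q3 pcN3 Cut.none Ext.none :=
  certN0 (fam := false) (s1 := false) (s2 := false) (a := 0) (b := 3) (c := 3) (cn := .pnn) (n1 := ndN0q0) (n2 := ndN5q3) (pc := pcN3) (cut := Cut.none) (xt := Ext.none) (P1 := 0) (W1 := 536870912) (P2 := 0) (W2 := 1230186008) (P3 := 201326592) (W3 := 134217728) (N0 := 3)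
    rfl k0_mm_033

end Pool.Agent.Strip051.G.I3_16_5_16.Tab.C.NB05

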