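import Pool.Agent.Strip051.G.I3_16_5_16.Tab

/-! # Certificates N19 (generated) -/

set_option linter.all false
set_option maxRecDepth 100000

namespace Pool.Agent.Strip051.G.I3_16_5_16.Tab.C.NB05

open Pool.Agent.Strip051.PB Pool.Agent.Strip051.PB.T
open Pool.Agent.Strip051.G.I3_16_5_16.Tab

noncomputable def cut_mm_101 : Cut := Cut.of [[⟨0, 1, 0, 67108864⟩, ⟨1, 0, 0, 67108864⟩, ⟨2, 1, 0, 67108864⟩]]

noncomputable def f_mm_101 : ℕ → ℕ → ℕ → ℕ → Bool := onCell 536870912 536870912 0 536870912 201326592 134217728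
    (rowN 3 1 false false false .npn 1 0 1 (qsf 536870912 536870912 536870912 536870912 0) ndN0q1 ndN5q1 pcN0 cut_mm_101 Ext.none)

def k0_mm_101 : ∃ t, chk3 f_mm_101 t 1 1 1 = true :=
  ⟨(a (l 3) (b (a (l 3) (b (a (l 3) (b (b (a (l 3) (l 6)) (l 3)) (l 3))) (l 3))) (l 3))), by decide +kernel⟩

theorem c_mm_101 : CertN 536870912 536870912 536870912 536870912 201326592 134217728 3 false false false .npn 1 0 1
    ndN0q1 ndN5q1 pcN0 cut_mm_101 Ext.none :=
  certN1 (fam := false) (s1 := false) (s2 := false) (a := 1) (b := 0) (c := 1) (cn := .npn) (n1 := ndN0q1) (n2 := ndN5q1) (pc := pcN0) (cut := cut_mm_101) (xt := Ext.none) (P1 := 536870912) (W1 := 536870912) (P2 := 536870912) (W2 := 536870912) (P3 := 201326592) (W3 := 134217728) (N0 := 3)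
    rfl (fun _ => rfl) k0_mm_101

noncomputable def cut_mm_102 : Cut := Cut.of [[⟨0, 1, 0, 67108864⟩, ⟨1, 0, 0, 67108864⟩, ⟨2, 1, 0, 67108864⟩]]

noncomputable def f_mm_102 : ℕ → ℕ → ℕ → ℕ → Bool := onCell 536870912 536870912 0 536870912 201326592 134217728
    (rowN 3 1 false false false .npp 1 0 2 (qsf 536870912 536870912 1073741824 536870912 0) ndN0q1 ndN5q2 pcN0 cut_mm_102 Ext.none)

def k0_mm_102 : ∃ t, chk3 f_mm_102 t 1 1 1 = true :=
  ⟨(b (a (l 3) (a (l 3) (b (a (l 3) (b (b (a (l 3) (l 6)) (l 3)) (l 3))) (l 3)))) (l 3)), by decide +kernel⟩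

theorem c_mm_102 : CertN 536870912 536870912 1073741824 536870912 201326592 134217728 3 false false false .npp 1 0 2
    ndN0q1 ndN5q2 pcN0 cut_mm_102 Ext.none :=
  certN1 (fam := false) (s1 := false) (s2 := false) (a := 1) (b := 0) (c := 2) (cn := .npp) (n1 := ndN0q1) (n2 := ndN5q2) (pc := pcN0) (cut := cut_mm_102) (xt := Ext.none) (P1 := 536870912) (W1 := 536870912) (P2 := 1073741824) (W2 := 536870912) (P3 := 201326592) (W3 := 134217728) (N0 := 3)
    rfl (fun _ => rfl) k0_mm_102

noncomputable def f_mm_112 : ℕ → ℕ → ℕ → ℕ → Bool := onCell 536870912 536870912 1073741824 536870912 201326592 134217728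
    (rowN 3 2 false false false .dn 1 1 2 (qsf 536870912 536870912 1073741824 536870912 1) ndN0q1 ndN5q2 pcN1 Cut.none Ext.none)

def k0_mm_112 : ∃ t, chk3 f_mm_112 t 1 1 1 = true :=
  ⟨(a (l 3) (l 5)), by decide +kernel⟩

theorem c_mm_112 : CertN 536870912 536870912 1073741824 536870912 201326592 134217728 3 false false false .dn 1 1 2
    ndN0q1 ndN5q2 pcN1 Cut.none Ext.none :=
  certN2 (fam := false) (s1 := false) (s2 := false) (a := 1) (b := 1) (c := 2) (cn := .dn) (n1 := ndN0q1) (n2 := ndN5q2) (pc := pcN1) (cut := Cut.none) (xt := Ext.none) (P1 := 536870912) (W1 := 536870912) (P2 := 1073741824) (W2 := 536870912) (P3 := 201326592) (W3 := 134217728) (N0 := 3)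
    rfl (fun _ => rfl) k0_mm_112

noncomputable def f_mm_113 : ℕ → ℕ → ℕ → ℕ → Bool := onCell 536870912 536870912 0 1230186008 201326592 134217728
    (rowN 3 0 false false false .nn 1 1 3 (qsf 536870912 536870912 0 1230186008 1) ndN0q1 ndN5q3 pcN1 Cut.none Ext.none)

def k0_mm_113 : ∃ t, chk3 f_mm_113 t 1 1 1 = true :=
  ⟨(b (l 5) (a (l 5) (b (a (l 5) (l 3)) (l 3)))), by decide +kernel⟩

theorem c_mm_113 : CertN 536870912 536870912 0 1230186008 201326592 134217728 3 false false false .nn 1 1 3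
    ndN0q1 ndN5q3 pcN1 Cut.none Ext.none :=
  certN0 (fam := false) (s1 := false) (s2 := false) (a := 1) (b := 1) (c := 3) (cn := .nn) (n1 := ndN0q1) (n2 := ndN5q3) (pc := pcN1) (cut := Cut.none) (xt := Ext.none) (P1 := 536870912) (W1 := 536870912) (P2 := 0) (W2 := 1230186008) (P3 := 201326592) (W3 := 134217728) (N0 := 3)
    rfl k0_mm_113

noncomputable def f_mm_123 : ℕ → ℕ → ℕ → ℕ → Bool := onCell 1073741824 536870912 0 1230186008 201326592 134217728
    (rowN 3 2 false false false .npn 1 2 3 (qsf 536870912 536870912 0 1230186008 2) ndN0q1 ndN5q3 pcN2 Cut.none Ext.none)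

def k0_mm_123 : ∃ t, chk3 f_mm_123 t 1 1 1 = true :=
  ⟨(b (l 5) (l 5)), by decide +kernel⟩

theorem c_mm_123 : CertN 536870912 536870912 0 1230186008 201326592 134217728 3 false false false .npn 1 2 3
    ndN0q1 ndN5q3 pcN2 Cut.none Ext.none :=
  certN2 (fam := false) (s1 := false) (s2 := false) (a := 1) (b := 2) (c := 3) (cn := .npn) (n1 := ndN0q1) (n2 := ndN5q3) (pc := pcN2) (cut := Cut.none) (xt := Ext.none) (P1 := 536870912) (W1 := 536870912) (P2 := 0) (W2 := 1230186008) (P3 := 201326592) (W3 := 134217728) (N0 := 3)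
    rfl (fun _ => rfl) k0_mm_123

noncomputable def f_mm_133 : ℕ → ℕ → ℕ → ℕ → Bool := onCell 1610612736 536870912 0 1230186008 201326592 134217728
    (rowN 3 2 false false false .dn 1 3 3 (qsf 536870912 536870912 0 1230186008 3) ndN0q1 ndN5q3 pcN3 Cut.none Ext.none)

def k0_mm_133 : ∃ t, chk3 f_mm_133 t 1 1 1 = true :=
  ⟨(l 5), by decide +kernel⟩

theorem c_mm_133 : CertN 536870912 536870912 0 1230186008 201326592 134217728 3 false false false .dn 1 3 3
    ndN0q1 ndN5q3 pcN3 Cut.none Ext.none :=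
  certN2 (fam := false) (s1 := false) (s2 := false) (a := 1) (b := 3) (c := 3) (cn := .dn) (n1 := ndN0q1) (n2 := ndN5q3) (pc := pcN3) (cut := Cut.none) (xt := Ext.none) (P1 := 536870912) (W1 := 536870912) (P2 := 0) (W2 := 1230186008) (P3 := 201326592) (W3 := 134217728) (N0 := 3)
    rfl (fun _ => rfl) k0_mm_133

noncomputable def cut_mm_202 : Cut := Cut.of [[⟨0, 1, 0, 67108864⟩, ⟨1, 0, 0, 67108864⟩, ⟨2, 1, 0, 67108864⟩]]

noncomputable def f_mm_202 : ℕ → ℕ → ℕ → ℕ → Bool := onCell 0 536870912 0 536870912 201326592 134217728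
    (rowN 3 1 false false false .pp 2 0 2 (qsf 0 536870912 1073741824 536870912 0) ndN0q2 ndN5q2 pcN0 cut_mm_202 Ext.none)

def k0_mm_202 : ∃ t, chk3 f_mm_202 t 2 2 1 = true :=
  ⟨(b (b (b (a (l 17458344) (a (l 17211384) (b (l 17086600) (l 17019000)))) (a (l 17369384) (a (l 17085584) (l 17154968)))) (a (a (l 17299360) (b (l 17147840) (l 17015008))) (b (a (l 16992896) (l 16792576)) (a (l 16808496) (a (l 16671024) (l 16674080)))))) (a (b (b (a (l 17070576) (l 16854752)) (a (l 16985064) (l 16901360))) (b (a (l 17015520) (l 16965272)) (a (l 17050768) (l 16993888)))) (a (b (b (l 16729032) (l 16846368)) (b (l 16905960) (l 16925528))) (b (b (l 16767176) (a (l 16807800) (l 16784768))) (a (b (l 16861536) (l 16875280)) (l 16820632)))))), by decide +kernel⟩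

def k1_mm_202 : ∃ t, chk3 f_mm_202 t 6 4 1 = true :=
  ⟨(b (b (b (a (l 17167192) (a (l 16877864) (l 16834600))) (a (l 16907640) (a (l 16816744) (l 16773352)))) (a (b (l 16832984) (l 16763568)) (b (a (l 16750704) (l 16706784)) (a (l 16681872) (l 16741040))))) (a (b (a (l 16682120) (l 16785512)) (c (l 16764200) (l 16772016))) (b (a (a (l 16738176) (l 16757136)) (b (l 16738448) (l 16732176))) (a (b (l 16672560) (l 16693944)) (b (l 16730544) (l 16767624)))))), by decide +kernel⟩

def k2_mm_202 : ∃ t, chk3 f_mm_202 t 14 8 1 = true :=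
  ⟨(b (a (b (b (l 16814008) (l 16784840)) (a (l 16746352) (l 16731592))) (a (b (b (l 16793304) (l 16764576)) (l 16764648)) (b (b (l 6) (l 16754208)) (c (l 16780336) (l 16779360))))) (a (b (l 16806384) (a (l 16731008) (l 16741504))) (a (b (l 16775456) (b (l 16738152) (l 16726552))) (b (c (l 16769008) (l 16771104)) (b (l 16758448) (l 16766592)))))), by decide +kernel⟩

def k3_mm_202 : ∃ t, chk3 f_mm_202 t 15 16 1 = true :=
  ⟨(a (b (l 6) (a (b (l 6) (a (l 16749312) (l 16778288))) (l 6))) (l 6)), by decide +kernel⟩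

def k4_mm_202 : ∃ t, chk3 f_mm_202 t 60 34 1 = true :=
  ⟨(c (b (l 16770832) (l 16769624)) (b (l 16760736) (l 16770120))), by decide +kernel⟩

def k5_mm_202 : ∃ t, chk3 f_mm_202 t 61 68 1 = true :=
  ⟨(a (c (l 16776600) (l 16776920)) (a (c (l 16784384) (l 16774120)) (l 6))), by decide +kernel⟩

def k6_mm_202 : ∃ t, chk3 f_mm_202 t 122 69 1 = true :=
  ⟨(c (l 16779688) (l 16779960)), by decide +kernel⟩

def k7_mm_202 : ∃ t, chk3 f_mm_202 t 246 69 1 = true :=
  ⟨(b (c (l 16780200) (l 16780368)) (a (c (l 16783112) (l 16778016)) (b (c (l 16779472) (l 16779576)) (c (a (l 16780944) (b (l 16781744) (a (l 16779856) (b (l 16779600) (c (a (l 188072594519) (l 275582551975)) (a (l 189146336583) (l 283635615703))))))) (a (l 16781032) (b (l 16781816) (b (l 141364827223) (a (l 16780176) (c (a (l 190220078615) (l 293836163015)) (a (l 191830691479) (l 300815484807))))))))))), by decide +kernel⟩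

def k8_mm_202 : ∃ t, chk3 f_mm_202 t 247 138 1 = true :=
  ⟨(a (c (l 16779600) (l 16780360)) (b (l 6) (c (a (b (l 16781488) (a (l 16779600) (b (l 16780000) (c (a (l 16779032) (l 254107717671)) (a (l 16779072) (l 260550168663)))))) (b (a (c (l 16778536) (l 16778584)) (l 6)) (a (b (c (a (l 194515045415) (l 283098747255)) (a (l 194515045639) (l 290078069143))) (c (l 311552906487) (l 317995354823))) (l 3)))) (a (b (l 16781552) (a (l 16779648) (b (l 16780048) (c (a (l 16779088) (l 269140100615)) (l 201494368295))))) (b (a (c (l 16778608) (l 16778600)) (l 6)) (a (b (c (a (l 195051916647) (l 299204872007)) (a (l 199346884007) (l 308868548359))) (c (l 326585289383) (l 336785836631))) (l 3))))))), by decide +kernel⟩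

def k9_mm_202 : ∃ t, chk3 f_mm_202 t 247 139 1 = true :=
  ⟨(a (b (a (c (l 16779512) (l 16780240)) (c (b (c (a (l 16776672) (l 151028501495)) (l 142975437735)) (a (b (l 16779472) (c (a (l 177872046935) (l 264308265223)) (a (l 16778544) (l 271824455399)))) (b (c (a (l 204178722199) (l 293299292183)) (a (l 207936818711) (l 301352355895))) (l 3)))) (b (c (l 141364825383) (l 16779056)) (a (b (l 16780176) (c (a (l 16779216) (l 280951260903)) (a (l 16779208) (l 288467453607)))) (b (c (a (l 209010560583) (l 311016032295)) (a (l 210621173431) (l 319605966823))) (l 3)))))) (c (a (b (a (c (l 155860339959) (l 155323469319)) (b (c (l 189683207735) (l 190220078743)) (a (a (l 236390978727) (l 328732776295)) (l 3)))) (a (b (c (a (l 217063624311) (l 304036710663)) (a (l 218137366343) (l 315310999831))) (l 3)) (l 3))) (b (a (b (c (l 302426100855) (l 309942293639)) (l 3)) (l 3)) (l 3))) (a (b (a (c (l 154249727543) (l 153175985879)) (c (b (l 190220078935) (a (l 287393711959) (l 3))) (b (l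 191293820823) (l 306721065111)))) (a (b (c (a (l 219747979175) (l 325511547143)) (a (l 222432333767) (l 333564610759))) (l 3)) (l 3))) (a (a (b (c (l 317995357527) (l 327659031239)) (l 3)) (l 3)) (l 3))))) (a (b (b (c (a (b (c (l 179482660167) (l 178945789335)) (c (a (l 258939555991) (l 312626645383)) (a (l 266455748791) (l 320679709079)))) (b (c (l 294909907863) (l 301352358823)) (l 3))) (a (b (c (l 178945789527) (l 182703885975)) (c (a (l 275045680759) (l 330880256375)) (a (l 282561873479) (l 339470190887)))) (b (c (l 309405422471) (l 320679708919)) (l 3)))) (l 3)) (l 3)) (l 3))), by decide +kernel⟩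

def k10_mm_202 : ∃ t, chk3 f_mm_202 t 60 35 1 = true :=
  ⟨(a (c (l 16776944) (l 16777480)) (b (c (l 16772464) (l 16772848)) (b (c (l 16778824) (l 16779136)) (a (l 16781992) (a (c (l 16784424) (l 16784632)) (a (c (l 16781160) (l 16781320)) (b (c (l 16776152) (l 16781544)) (b (c (l 16780392) (l 16780512)) (c (b (c (l 192367564215) (l 193978177287)) (a (l 210084306007) (l 312626652039))) (a (c (l 184314500663) (l 187535726119)) (c (l 284172487895) (l 290078067831)))))))))))), by decide +kernel⟩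

def k11_mm_202 : ∃ t, chk3 f_mm_202 t 122 70 1 = true :=
  ⟨(a (b (l 16778296) (c (l 16782400) (l 16782600))) (b (a (c (l 16782080) (l 16771776)) (c (l 16779488) (l 16779624))) (a (b (c (l 16780048) (l 16780184)) (c (a (l 16781536) (b (l 16782328) (b (c (l 162839662727) (l 162839662871)) (a (l 167671502391) (c (l 275582555271) (l 284709358199)))))) (a (l 16781656) (b (l 16779800) (b (c (l 163376533863) (l 162839663271)) (a (l 169282115911) (c (l 294909905511) (l 301352356375)))))))) (b (a (c (c (l 16779376) (l 16779464)) (c (l 16779512) (l 16779512))) (c (b (a (l 16782504) (c (l 173040210151) (l 173040210279))) (a (c (b (l 16779336) (l 266455749495)) (b (l 16779400) (l 275045681511))) (b (c (l 286319973559) (l 294909905559)) (l 3)))) (b (c (l 159081566951) (l 158544696215)) (a (b (c (l 16779424) (l 16778104)) (c (l 285246228839) (l 291688679703))) (b (c (l 305647323783) (l 312626645559)) (l 3)))))) (a (c (b (c (a (l 178945790471) (b (l 245517783655) (l 312626646231))) (a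 (l 178945790615) (b (l 253033976487) (l 321753451767)))) (a (c (l 300278618199) (l 307794810999)) (l 3))) (b (a (c (l 179482661751) (l 180019532807)) (c (b (l 261623908471) (l 331953999063)) (b (l 267529488439) (l 338396449895)))) (a (c (l 316921613831) (l 328195902871)) (l 3)))) (l 3)))))), by decide +kernel⟩

def k12_mm_202 : ∃ t, chk3 f_mm_202 t 244 71 1 = true :=
  ⟨(b (a (c (l 16780792) (l 16780952)) (b (c (a (l 16775800) (c (l 145659793959) (l 144586052327))) (c (l 138143601815) (l 136532989431))) (a (b (c (l 16780040) (l 16780144)) (b (c (c (l 178945790727) (l 180019532727)) (c (l 181093274791) (l 182703887671))) (c (a (l 186461985111) (l 292762427687)) (a (l 189146340279) (c (l 314774129815) (l 326048418871)))))) (a (b (c (c (l 191830692983) (l 192904435111)) (c (l 193441306247) (l 195588789863))) (a (b (c (l 311016038599) (l 329269649559)) (l 3)) (l 3))) (b (b (c (c (l 264845134391) (l 274508810871)) (c (l 282561874535) (l 290614938135))) (l 3)) (l 3)))))) (a (b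 (c (a (c (l 152639116487) (l 151565375047)) (b (a (l 16780536) (c (b (l 16778248) (l 255181457991)) (l 203641853815))) (a (b (c (l 213842400327) (l 216526755127)) (l 302426104407)) (b (l 314774135703) (l 3))))) (c (a (l 151028504327) (b (a (l 16778008) (l 205789337495)) (a (b (l 220821722423) (l 326585290183)) (l 333027742071)))) (a (l 149954762775) (b (a (l 16778008) (l 207399950519)) (c (l 300278615607) (l 303499840999)))))) (a (a (b (c (b (l 178945792295) (c (l 266455747431) (l 276656294839))) (b (l 182703889479) (c (l 283098745783) (l 292225551191)))) (a (b (c (l 316384748343) (l 336248972023)) (l 3)) (l 3))) (b (c (c (l 293836170103) (l 302962970407)) (c (l 314237259527) (l 321753452167))) (l 3))) (l 3))) (b (a (a (b (b (a (c (l 258939559575) (l 246591528279)) (c (l 313163522407) (l 330343391527))) (l 3)) (l 3)) (l 3)) (l 3)) (l 3)))), by decide +kernel⟩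

def k13_mm_202 : ∃ t, chk3 f_mm_202 t 245 71 1 = true :=
  ⟨(b (a (b (a (a (b (c (l 16780200) (l 16780288)) (c (c (b (l 194515046823) (l 285246229335)) (b (l 196662530599) (l 295446776727))) (b (c (l 198810014455) (l 203641852471)) (c (l 304573582199) (l 312089774871))))) (b (c (c (l 185388241735) (l 185925112775)) (c (l 186461984071) (l 187535725879))) (a (b (c (l 298131136423) (l 316384747399)) (l 3)) (l 3)))) (a (b (b (c (c (l 255181460327) (l 263234521447)) (c (l 272361326951) (l 277730035991))) (c (l 314237264519) (c (l 332490870247) (l 339470191991)))) (l 3)) (l 3))) (l 3)) (l 3)) (l 3)), by decide +kernel⟩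

def k14_mm_202 : ∃ t, chk3 f_mm_202 t 246 140 1 = true :=
  ⟨(a (b (c (c (l 16778416) (l 16778496)) (c (l 16778544) (a (l 16775280) (l 16779208)))) (c (a (b (l 16782024) (a (l 16780144) (a (c (l 180019531687) (l 180019531975)) (b (l 182703887239) (l 295446781495))))) (b (a (c (l 167134629655) (l 166597759031)) (b (c (l 205252464679) (l 206326206743)) (c (l 298131133703) (l 306184194775)))) (a (b (c (l 277193167799) (l 285246231511)) (l 3)) (l 3)))) (a (b (a (l 16781776) (l 16782432)) (a (l 16780208) (b (l 168208373383) (c (l 272898197607) (l 282025003047))))) (b (c (a (l 166597759079) (b (l 207399948711) (l 317458483911))) (a (l 166060888487) (b (l 209010561527) (l 326585289319)))) (a (b (c (l 294909905287) (l 303499839799)) (l 3)) (l 3)))))) (b (c (a (b (c (l 152102243655) (l 151028502295)) (a (b (l 160155308823) (c (a (l 198273142247) (l 286319970471)) (a (l 199883755239) (l 295983646919)))) (b (c (a (l 227264172007) (l 312626645495)) (a (l 229411655719) (l 321753451031)))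 (l 3)))) (b (b (a (c (l 197199400759) (l 197736271927)) (c (l 310479162151) (l 318532225847))) (a (c (l 289541198855) (l 296520520743)) (l 3))) (l 3))) (a (c (b (l 149954760695) (a (b (l 16777824) (a (l 201494368151) (l 305647323319))) (b (a (l 231559139527) (l 331417127415)) (l 3)))) (b (l 148881019031) (a (b (l 16777816) (l 270750713655)) (b (l 294373034055) (l 3))))) (b (a (c (b (l 198810013863) (l 306184194503)) (b (l 199883755767) (l 316384741751))) (b (c (l 328195902231) (l 338396449479)) (l 3))) (l 3)))) (a (a (b (a (a (b (c (l 313700392503) (l 327122165271)) (l 3)) (l 3)) (l 3)) (l 3)) (l 3)) (l 3)))), by decide +kernel⟩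

def k15_mm_202 : ∃ t, chk3 f_mm_202 t 246 141 1 = true :=
  ⟨(a (b (a (b (c (c (a (b (a (l 16779416) (l 269676972135)) (l 308331678663)) (l 312089778695)) (a (b (a (l 16778160) (l 279877519511)) (l 317458484199)) (l 319069097927))) (c (a (b (l 216526754599) (l 328732773319)) (l 328195903383)) (a (b (l 219211109111) (l 336248965991)) (l 338933321511)))) (l 3)) (l 3)) (l 3)) (l 3)), by decide +kernel⟩

def k16_mm_202 : ∃ t, chk3 f_mm_202 t 247 70 1 = true :=
  ⟨(l 3), by decide +kernel⟩

def k17_mm_202 : ∃ t, chk3 f_mm_202 t 123 71 1 = true :=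
  ⟨(l 3), by decide +kernel⟩

def k18_mm_202 : ∃ t, chk3 f_mm_202 t 31 17 1 = true :=
  ⟨(a (b (a (b (l 6) (a (b (a (b (l 6) (b (l 6) (l 3))) (l 3)) (l 3)) (l 3))) (l 3)) (l 3)) (l 3)), by decide +kernel⟩

def k19_mm_202 : ∃ t, chk3 f_mm_202 t 28 18 1 = true :=
  ⟨(b (a (l 16721104) (l 16741192)) (a (l 16718448) (l 16757400))), by decide +kernel⟩

def k20_mm_202 : ∃ t, chk3 f_mm_202 t 29 36 1 = true :=
  ⟨(a (l 16768224) (a (c (l 16773584) (l 16774496)) (b (l 16779792) (c (l 16787984) (l 16788544))))), by decide +kernel⟩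

def k21_mm_202 : ∃ t, chk3 f_mm_202 t 58 37 1 = true :=
  ⟨(c (l 16785576) (l 16787464)), by decide +kernel⟩

def k22_mm_202 : ∃ t, chk3 f_mm_202 t 118 37 1 = true :=
  ⟨(b (c (l 16786432) (l 16787192)) (a (c (l 16792688) (l 16793352)) (b (c (l 16785136) (l 16785648)) (a (c (l 16783056) (l 16783480)) (b (c (c (l 16781712) (l 16781984)) (c (l 16782144) (l 16782192))) (c (a (b (l 16780160) (a (l 238001600311) (l 301889241783))) (b (a (l 257328952919) (l 316921617255)) (l 320142849687))) (a (b (l 16780392) (a (l 247665276935) (l 319069103095))) (c (l 317458487399) (l 324974683847))))))))), by decide +kernel⟩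

def k23_mm_202 : ∃ t, chk3 f_mm_202 t 119 37 1 = true :=
  ⟨(b (a (b (l 16781768) (c (l 16780632) (l 16783680))) (b (b (c (l 16785544) (l 16785912)) (a (l 16786672) (c (c (l 161765925335) (l 161765925927)) (a (l 16778184) (c (l 175724569655) (l 178408924167)))))) (a (b (c (l 16783408) (l 16783696)) (a (c (c (l 183240762727) (l 185388246919)) (c (l 187535730775) (l 191830697895))) (c (b (a (l 204178729463) (l 278803786087)) (a (l 314774138055) (l 3))) (b (c (l 261087040455) (l 266992620359)) (c (l 329806519063) (l 336785840679)))))) (a (b (c (b (l 16782104) (a (l 225116695655) (l 307257944871))) (b (l 182703893367) (c (l 280414393495) (l 286856844295)))) (a (b (c (l 316921622215) (l 327122164183)) (l 3)) (l 3))) (b (b (c (a (l 268603241015) (l 315847879975)) (c (l 304036714007) (l 311552906599))) (l 3)) (l 3)))))) (a (b (a (b (l 16785520) (a (c (l 16778960) (l 16779280)) (b (c (l 16779648) (l 16779896)) (c (a (l 16782864) (l 276656308087)) (c (l 240149079687) (l 254644593511))))))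 (b (a (c (l 16781928) (l 16783504)) (c (b (l 192904440919) (a (l 256792081351) (l 315847880295))) (a (b (l 16779888) (l 265382016007)) (c (l 278803781175) (l 285246233271))))) (c (c (a (b (l 262160782711) (l 318532230727)) (l 316384748951)) (a (b (l 271824459335) (l 326048423607)) (l 318532232647))) (c (a (b (l 278803781207) (l 323900939879)) (l 326585296183)) (a (b (l 285246231991) (l 328732777815)) (l 333027746807)))))) (a (b (c (a (b (l 209010569591) (l 298131143031)) (c (l 312626651447) (l 322827198855))) (c (a (b (l 235317238887) (l 321753455319)) (l 331417133351)) (a (b (l 238001594967) (l 329806518775)) (l 337859584007)))) (l 3)) (l 3))) (b (a (a (b (b (c (a (l 289004333815) (l 320142848119)) (c (l 322827196727) (l 330343389287))) (l 3)) (l 3)) (l 3)) (l 3)) (l 3)))), by decide +kernel⟩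

def k24_mm_202 : ∃ t, chk3 f_mm_202 t 28 19 1 = true :=
  ⟨(a (c (l 16794552) (l 16797112)) (b (b (l 16770000) (l 16783952)) (a (c (l 16786200) (l 16787840)) (b (c (l 16791736) (l 16792952)) (a (c (l 16787720) (l 16788760)) (a (b (l 16789904) (b (c (l 16781904) (l 16782496)) (c (a (l 16782576) (l 289541214087)) (a (l 16782176) (b (l 283635628519) (l 311016040983)))))) (b (b (l 16791168) (c (l 16782256) (l 16782712))) (a (b (c (l 243370317447) (b (l 16782264) (l 296520530999))) (c (b (l 305647332311) (l 3)) (l 316384751559))) (b (c (b (l 302426105655) (l 312626654791)) (c (l 318532234039) (l 311552911863))) (l 3)))))))))), by decide +kernel⟩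

def k25_mm_202 : ∃ t, chk3 f_mm_202 t 58 38 1 = true :=
  ⟨(a (b (l 16784456) (b (l 16785856) (c (l 16795032) (l 16785456)))) (b (a (c (l 16770400) (l 16792240)) (b (l 16784192) (c (c (l 16782800) (l 16783216)) (c (l 16783488) (a (l 16777176) (l 16784776)))))) (a (b (c (l 16787664) (l 16788312)) (a (b (l 16790112) (c (c (l 185925121303) (l 189683218183)) (c (l 195051927239) (l 211158051431)))) (b (c (a (l 16781016) (b (l 16781480) (l 290614954119))) (a (l 16781384) (c (l 262697655863) (l 269140106615)))) (c (a (b (l 260550182007) (l 320142845479)) (b (l 313700394967) (l 3))) (a (c (l 305647329959) (l 312626651543)) (b (l 323900942151) (l 3))))))) (b (a (b (c (l 16779824) (l 16780272)) (c (a (l 195051928743) (b (l 247665279959) (l 317458495175))) (a (c (l 16781456) (l 16781432)) (c (l 286319976215) (l 292762430871))))) (a (b (c (b (l 16780984) (l 257328956071)) (c (l 224042955303) (l 245517789575))) (b (c (l 319069103079) (l 322290328439)) (l 3))) (b (c (b (l 280951277079)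 (l 313163523511)) (c (l 319605973383) (l 327122165879))) (l 3)))) (a (a (b (c (b (l 302962985399) (l 314774137255)) (c (l 328732779847) (l 334638359559))) (l 3)) (l 3)) (l 3)))))), by decide +kernel⟩

def k26_mm_202 : ∃ t, chk3 f_mm_202 t 58 39 1 = true :=
  ⟨(a (b (a (b (l 16787088) (b (c (l 16779464) (l 16780176)) (a (l 16791352) (c (c (l 207936831559) (l 212768670615)) (a (l 16782448) (c (l 280951273479) (l 288467466039))))))) (b (a (c (l 16790320) (l 16785696)) (c (b (l 16786360) (a (c (l 218674248039) (l 226727311607)) (b (l 294373051159) (l 312089782855)))) (b (l 16786800) (a (c (l 246054662503) (l 259476433287)) (b (l 310479170743) (l 323364071863)))))) (a (c (b (a (l 16784776) (b (l 251423377287) (l 319605974855))) (c (l 315311009575) (l 324974686183))) (c (b (a (l 16782392) (l 299741750375)) (l 330880266119)) (b (a (l 16782024) (l 307257942887)) (l 336248974823)))) (a (b (b (c (l 321216587959) (l 321216587863)) (l 3)) (l 3)) (l 3))))) (a (b (a (c (b (c (l 16784784)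 (l 16785152)) (a (b (l 16787096) (l 309942298855)) (b (l 319605975575) (l 3)))) (b (c (l 209547442247) (l 225116697319)) (a (b (l 16787176) (l 307257944327)) (b (l 318532233735) (l 3))))) (b (c (c (l 306721073511) (l 317995363575)) (c (l 325511556295) (a (l 319605974791) (l 327122169799)))) (l 3))) (a (a (b (c (l 314237269255) (l 325511558183)) (l 3)) (l 3)) (l 3))) (l 3))) (b (a (b (a (a (b (c (b (l 16786544) (l 305647330119)) (b (l 249275892327) (a (l 298668012567) (l 320142845271)))) (a (c (l 313700396535) (l 326048427287)) (l 3))) (b (b (c (l 318532232359) (a (l 307794813527) (l 323364071095))) (l 3)) (l 3))) (l 3)) (l 3)) (l 3)) (l 3))), by decide +kernel⟩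

def k27_mm_202 : ∃ t, chk3 f_mm_202 t 59 19 1 = true :=
  ⟨(b (a (b (a (b (b (c (l 16787792) (l 16788288)) (a (l 16786416) (c (a (l 16785336) (b (l 16783272) (l 278803792887))) (a (l 16780408) (b (l 16783456) (a (l 271287596791) (l 330343390487))))))) (a (c (b (c (l 180019539927) (l 182703895079)) (a (b (l 214379280183) (l 300815495943)) (c (l 314774135927) (l 324437812471)))) (c (b (l 185925120535) (a (l 271824462087) (l 330343392423))) (b (a (l 16780200) (l 224042952343)) (a (b (l 16780664) (l 324437810663)) (l 336785843047))))) (b (c (b (a (l 262697665255) (l 320679721031)) (c (l 316921620327) (l 326048425943))) (a (c (l 295983652343) (l 302962977895)) (b (l 326585295639) (l 3)))) (l 3)))) (b (a (a (b (c (c (l 16782848) (l 188072602455)) (c (l 193441311479) (l 213842402855))) (b (c (l 304036723511) (a (l 310479171255) (l 323364069015))) (l 3))) (b (c (b (l 230485407463) (a (l 310479166327) (l 314774135031))) (b (a (l 16780560) (l 276656305703)) (a (l 329269648231) (l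 327659036759)))) (l 3))) (a (a (b (b (c (l 317995359543) (l 322827197671)) (l 3)) (l 3)) (l 3)) (l 3))) (l 3))) (a (b (a (a (b (b (c (l 314237265815) (l 327659038407)) (l 3)) (l 3)) (l 3)) (l 3)) (l 3)) (l 3))) (l 3)) (l 3)), by decide +kernel⟩

def k28_mm_202 : ∃ t, chk3 f_mm_202 t 120 36 1 = true :=
  ⟨(b (b (a (l 16785192) (l 16779808)) (c (l 16781328) (l 16781704))) (a (b (c (l 16783064) (l 16772944)) (a (c (l 16786144) (l 16786456)) (b (c (l 16782416) (l 16782664)) (a (c (c (l 16781216) (l 16781392)) (c (l 16781488) (l 166597763143))) (b (c (a (l 16779088) (l 218674243703)) (c (l 203641855959) (l 210621177271))) (c (c (l 287393719303) (l 298131133719)) (c (l 307257939175) (l 314774131767)))))))) (b (a (b (l 16783440) (a (l 16783648) (b (l 16783072) (c (l 16781384) (l 168208377255))))) (b (a (c (l 16782608) (l 16782808)) (b (c (l 16783360) (l 16778288)) (c (c (l 200420630007) (l 202568113959)) (c (l 205252468679) (l 208473694103))))) (b (a (c (c (l 178945792807) (l 180556405815))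 (c (l 183240760503) (l 188072598375))) (a (b (c (l 265918882711) (l 263234529479)) (c (l 317458491367) (l 335175231383))) (l 3))) (a (c (a (b (l 212768661991) (l 302426105287)) (b (l 314237265607) (l 3))) (c (l 293299294743) (l 299741745543))) (l 3))))) (a (b (a (b (c (l 16783800) (l 16778744)) (c (a (l 187535729607) (b (l 229411660807) (l 311552911159))) (c (l 247665266775) (l 253033975767)))) (c (b (a (b (l 16779192) (l 243907174487)) (b (l 278803784919) (l 319069104471))) (a (l 314237266615) (l 3))) (c (b (a (l 217600498647) (l 316921615015)) (l 333027744023)) (b (a (l 238001592167) (l 323900936711)) (l 339470194759))))) (b (a (a (b (c (l 291151816263) (l 319069103671)) (l 3)) (l 3)) (l 3)) (l 3))) (l 3))))), by decide +kernel⟩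

def k29_mm_202 : ∃ t, chk3 f_mm_202 t 242 72 1 = true :=
  ⟨(b (c (c (l 16780784) (l 16780968)) (c (l 16781088) (l 16781136))) (a (b (c (l 16781520) (l 16781728)) (a (c (l 16781728) (l 16781904)) (b (c (c (l 16779784) (l 16781224)) (c (l 16781288) (l 16781296))) (c (a (b (l 16781592) (l 271824462615)) (b (l 291688686599) (l 3))) (a (c (l 224042949767) (l 231022271367)) (b (l 313700393959) (l 3))))))) (b (a (b (c (l 16782944) (l 16777856)) (c (c (l 188072597943) (l 189683211063)) (c (l 191293824071) (l 193978178615)))) (c (b (a (l 176261439095) (b (l 214916144823) (l 297594266567))) (a (b (l 278803784375) (l 3)) (l 3))) (c (b (a (l 16778752) (l 271824457079)) (l 317458486151)) (b (a (l 16778752) (l 277730037015)) (l 325511549671))))) (b (a (c (a (b (l 226190434519) (l 309942297879)) (b (l 316384749127) (l 3))) (a (c (l 280951262887) (l 286856842807)) (c (l 332490871831) (l 339470193527)))) (l 3)) (l 3))))), by decide +kernel⟩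

def k30_mm_202 : ∃ t, chk3 f_mm_202 t 243 72 1 = true :=
  ⟨(b (a (b (a (c (l 16781776) (l 16781944)) (b (c (l 16782544) (l 16782688)) (c (c (l 172503340727) (l 173040211863)) (c (l 173577083207) (l 175187695943))))) (a (b (c (l 157470956663) (c (l 16778264) (l 16778272))) (c (a (c (l 196125661159) (l 198273145143)) (b (l 267529494903) (l 316921619991))) (a (b (l 16781328) (l 238001595255)) (c (l 302962970439) (l 309942292167))))) (b (c (a (b (l 199883758839) (l 286856847991)) (b (l 306721072023) (l 3))) (a (c (l 263234522199) (l 268603231239)) (c (l 329806516599) (l 336248967399)))) (l 3)))) (b (a (c (b (a (l 16780896) (b (l 189683211191) (c (l 277730036871) (l 289541197031)))) (a (b (c (l 234243495703) (l 239075334023)) (l 315311006919)) (l 3))) (c (b (a (l 16778376) (l 254107716471)) (a (l 294909906439) (l 3))) (b (a (l 16778376) (l 259476425495)) (a (l 301352357271) (l 3))))) (a (b (a (b (c (l 285783105767) (l 306184200407)) (l 3)) (l 3)) (l 3)) (l 3))) (l 3))) (a (b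 (b (b (a (a (a (c (l 312626652007) (l 331417133879)) (l 3)) (l 3)) (l 3)) (l 3)) (l 3)) (l 3)) (l 3))), by decide +kernel⟩

def k31_mm_202 : ∃ t, chk3 f_mm_202 t 121 73 1 = true :=
  ⟨(a (b (a (b (b (a (c (a (l 192367567383) (b (l 237464724151) (l 314237265527))) (a (c (l 196125661575) (l 217063625383)) (b (l 254107724343) (l 332490876471)))) (a (b (c (l 317458491303) (l 328732780359)) (l 3)) (l 3))) (b (a (a (c (l 306184201575) (l 327122167095)) (l 3)) (l 3)) (l 3))) (l 3)) (l 3)) (l 3)) (l 3)), by decide +kernel⟩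

def k32_mm_202 : ∃ t, chk3 f_mm_202 t 60 37 1 = true :=
  ⟨(a (b (a (b (a (b (a (c (l 16783536) (l 16783776)) (c (b (l 16781640) (a (l 205789341703) (l 283098755671))) (b (l 16781824) (c (l 264308265463) (l 270213845367))))) (b (b (a (c (l 190220084775) (l 197199407543)) (c (l 314774137895) (a (l 330880259207) (l 3)))) (a (c (a (l 16779696) (l 303499847751)) (a (l 16779752) (l 326048420791))) (l 3))) (a (a (c (l 292762429847) (b (l 277193174183) (l 327122163447))) (l 3)) (l 3)))) (b (a (c (b (a (b (l 16782176) (l 286856849111)) (l 310479170055)) (a (l 318532234695) (l 3))) (b (c (l 284172489511) (l 295446778519)) (a (l 328732776647) (l 3)))) (l 3)) (l 3))) (l 3)) (l 3)) (l 3)) (l 3)), by decide +kernel⟩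

def k33_mm_202 : ∃ t, chk3 f_mm_202 t 61 18 1 = true :=
  ⟨(l 3), by decide +kernel⟩

def k34_mm_202 : ∃ t, chk3 f_mm_202 t 31 18 1 = true :=
  ⟨(l 3), by decide +kernel⟩

def k35_mm_202 : ∃ t, chk3 f_mm_202 t 15 19 1 = true :=
  ⟨(l 3), by decide +kernel⟩

def k36_mm_202 : ∃ t, chk3 f_mm_202 t 6 10 1 = true :=
  ⟨(a (b (a (l 16649512) (l 16727232)) (a (l 16764720) (l 16751096))) (b (a (b (l 16708176) (l 16741968)) (a (b (l 16731816) (l 16766408)) (b (l 16780704) (c (l 16787832) (l 16791016))))) (a (b (l 16776480) (a (l 16761104) (l 16784696))) (a (c (b (l 16775040) (a (l 16786120) (b (a (l 16778808) (l 16783200)) (a (b (l 16778216) (a (l 16782776) (l 277193186311))) (b (a (l 211694924103) (l 301352378375)) (l 338396456087)))))) (b (l 16781336) (a (l 16789072) (b (a (l 16771728) (l 16786696)) (a (b (l 16776248) (a (l 16788520) (l 291151810567))) (b (a (l 227801056855) (l 311552907671)) (l 339470200615))))))) (b (a (b (l 16789736) (c (a (l 16776776) (b (l 16776808) (l 204178735735)))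 (a (l 16774472) (b (l 16777344) (l 215453030231))))) (c (b (a (l 16796448) (b (l 16787904) (a (l 213305541415) (l 291688705143)))) (a (b (a (l 16783216) (l 275582569879)) (l 322290349815)) (b (l 332490879079) (l 3)))) (b (a (l 16777008) (b (l 16790240) (a (l 221358609847) (l 297594287095)))) (a (b (a (l 16785616) (l 276119448439)) (a (l 309942318231) (l 3))) (b (a (l 328195931703) (l 3)) (l 3)))))) (a (c (b (a (b (l 185925121655) (a (l 271287604695) (l 320142842151))) (b (l 301889252295) (l 3))) (l 3)) (b (a (b (l 196125674119) (a (l 276656296087) (l 329269650279))) (b (l 309405447495) (l 3))) (l 3))) (l 3))))))), by decide +kernel⟩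

def k37_mm_202 : ∃ t, chk3 f_mm_202 t 12 11 1 = true :=
  ⟨(b (a (l 16807512) (b (l 16782720) (l 16789736))) (a (b (l 16813848) (l 16810632)) (a (b (l 16794848) (c (l 16798224) (l 16798312))) (c (b (a (l 16801744) (l 16791744)) (a (b (l 16791480) (a (b (l 16789192) (l 16789624)) (b (l 205789340999) (l 260550208423)))) (b (a (b (l 16786440) (a (l 16787824) (l 243370336407))) (b (l 200420647335) (l 266455762855))) (a (l 270750764279) (l 3))))) (b (a (l 16772432) (l 16793984)) (a (b (l 16776288) (b (l 16793304) (a (l 16784568) (l 247128405191)))) (b (a (l 186462007575) (b (l 209010584007) (l 277730044935))) (a (l 281488185703) (l 3))))))))), by decide +kernel⟩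

def k38_mm_202 : ∃ t, chk3 f_mm_202 t 13 11 1 = true :=
  ⟨(b (a (a (b (l 16780448) (b (l 16799744) (a (l 16780208) (b (l 16788264) (c (l 182167036519) (l 185388257367)))))) (b (a (c (l 16787440) (l 16783152)) (b (l 16789496) (c (a (l 16791024) (b (l 16783984) (l 261087062423))) (a (l 16793176) (b (l 16785312) (l 282561896039)))))) (c (a (b (a (l 16782696) (b (l 16780464) (l 213842425287))) (a (b (l 205252484727) (l 271287615543)) (l 302963003655))) (b (a (b (l 244980936151) (l 305647334071)) (l 322290337143)) (l 3))) (a (b (a (l 16772264) (b (l 16774808) (l 244980932327))) (a (b (l 209547447639) (l 295983652391)) (l 318532256903))) (b (a (b (l 265918896727) (l 329269651367)) (l 338396462359)) (l 3)))))) (a (b (a (c (b (b (c (l 185925122903) (l 187535734375)) (a (l 195051929479) (l 300815511319))) (a (b (l 285783124935) (l 3)) (l 3))) (b (a (l 184314511959) (b (l 215989897447) (l 313700391751))) (a (l 312089806983) (l 3)))) (b (b (c (l 331954029623) (l 340007074503)) (l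 3)) (l 3))) (l 3)) (l 3))) (a (a (c (b (a (b (l 16790992) (a (b (l 16784392) (l 211158069303)) (b (l 222969227143) (l 289004340695)))) (b (a (b (l 16793904) (l 237464738743)) (l 273435112759)) (a (l 303499859431) (l 3)))) (a (b (a (l 286856881175) (l 3)) (l 3)) (l 3))) (b (a (b (l 16796208) (a (l 202568135671) (b (l 234780390039) (l 302426107975)))) (b (a (b (l 16790008) (l 250349644743)) (l 297057428455)) (l 327659050535))) (a (b (a (l 298131164407) (l 3)) (l 3)) (l 3)))) (l 3)) (l 3))), by decide +kernel⟩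

def k39_mm_202 : ∃ t, chk3 f_mm_202 t 56 20 1 = true :=
  ⟨(b (a (c (l 16782560) (l 16764040)) (b (l 16789688) (a (l 16794720) (b (l 16797664) (c (l 16789896) (l 16786064)))))) (a (c (b (l 16793544) (a (b (l 16775424) (l 185388254871)) (b (a (l 16789544) (b (l 16780456) (l 264845159191))) (a (b (l 248739030887) (l 308868576359)) (l 316921638359))))) (b (l 16795792) (a (b (l 16777680) (a (l 16779824) (l 210084320375))) (b (a (l 16780864) (b (l 16781840) (l 289541201735))) (a (b (l 260550187527) (l 324437813255)) (b (l 322827201719) (l 3))))))) (b (c (a (b (l 16788624) (a (l 16785584) (b (l 224579831655) (l 296520545431)))) (b (a (b (l 16780760) (l 249275903287)) (b (l 265382031479) (l 317995374071))) (a (b (l 309405438135) (l 3)) (l 3)))) (a (b (l 16779824) (a (l 198273159911) (b (l 243370319559) (l 322827200263)))) (b (a (b (l 16781992) (l 258939575991)) (b (a (l 257328959863) (l 320142845463)) (l 323900944343))) (a (b (l 326048426839) (l 3)) (l 3))))) (c (a (b (a (l 291151831799)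 (l 3)) (l 3)) (l 3)) (a (b (a (b (l 309405436903) (l 325511557495)) (l 3)) (l 3)) (l 3)))))), by decide +kernel⟩

def k40_mm_202 : ∃ t, chk3 f_mm_202 t 57 20 1 = true :=
  ⟨(b (a (b (a (c (l 16796056) (l 16797504)) (b (l 16790648) (a (c (l 16780616) (l 16781632)) (b (c (l 16781936) (l 16782648)) (c (a (l 244444058295) (l 304573589239)) (a (l 255718346919) (l 320679717047))))))) (a (c (b (c (l 178408931463) (l 181093287479)) (a (b (l 16787008) (l 281488149431)) (b (l 300815503479) (l 3)))) (b (a (l 16780720) (b (l 16781936) (l 231022282647))) (a (b (l 16786784) (a (l 276119441383) (l 313163524631))) (c (l 324437815719) (l 329269653783))))) (b (a (c (b (a (l 16781984) (l 281488149415)) (a (l 309405427495) (l 312089784775))) (b (a (l 16781784) (l 307794814279)) (a (l 322290329959) (l 326048428807)))) (b (c (a (l 313700396055) (l 3)) (l 323900945047)) (l 3))) (l 3)))) (b (a (b (b (a (l 16786640) (c (c (l 217600507895) (l 219211121479)) (c (l 232632890823) (l 242833438983))))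 (a (c (l 203104996039) (c (l 16782808) (l 16782592))) (c (a (l 297594277815) (l 307257946279)) (c (l 320679718071) (l 325511556023))))) (a (c (b (a (l 262697669543) (l 312626654119)) (a (l 312089784631) (l 3))) (b (c (l 307257944263) (l 314237265959)) (l 326048429879))) (l 3))) (b (a (a (c (c (l 311016043175) (l 320142848999)) (c (l 324974687191) (l 329806525047))) (l 3)) (l 3)) (l 3))) (l 3))) (a (b (a (b (a (b (c (l 309942301303) (l 325511558279)) (l 3)) (l 3)) (l 3)) (l 3)) (l 3)) (l 3))), by decide +kernel⟩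

def k41_mm_202 : ∃ t, chk3 f_mm_202 t 29 20 1 = true :=
  ⟨(l 3), by decide +kernel⟩

def k42_mm_202 : ∃ t, chk3 f_mm_202 t 14 21 1 = true :=
  ⟨(a (a (b (a (c (b (a (b (a (b (l 16785216) (l 279877544423)) (l 302426126151)) (a (l 317995385431) (l 3))) (l 3)) (l 3)) (b (a (b (a (b (l 16786016) (l 305110458183)) (b (l 320142844823) (l 3))) (a (l 320679741463) (l 3))) (l 3)) (l 3))) (l 3)) (l 3)) (l 3)) (l 3)), by decide +kernel⟩

def k43_mm_202 : ∃ t, chk3 f_mm_202 t 15 10 1 = true :=
  ⟨(l 3), by decide +kernel⟩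

def k44_mm_202 : ∃ t, chk3 f_mm_202 t 7 11 1 = true :=
  ⟨(l 3), by decide +kernel⟩

def k45_mm_202 : ∃ t, chk3 f_mm_202 t 4 6 1 = true :=
  ⟨(b (b (a (l 17064808) (l 16995624)) (a (l 17056512) (l 16983808))) (a (b (l 17039792) (l 17020216)) (b (l 16965544) (l 16943800)))), by decide +kernel⟩

def k46_mm_202 : ∃ t, chk3 f_mm_202 t 5 12 1 = true :=
  ⟨(c (a (b (l 16983672) (l 16953344)) (a (l 16874016) (b (l 16862040) (b (l 16836936) (a (l 16832448) (a (l 16815168) (b (l 16808312) (a (l 16806224) (l 222432377207))))))))) (a (b (l 16862536) (l 16862048)) (a (l 16825080) (b (l 16803744) (b (l 16799344) (a (l 16800328) (a (l 16793128) (b (l 16792944) (a (l 16797800) (l 227264210263)))))))))), by decide +kernel⟩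

def k47_mm_202 : ∃ t, chk3 f_mm_202 t 10 13 1 = true :=
  ⟨(b (a (l 16906264) (l 16865568)) (a (l 16882536) (b (l 16847792) (a (l 16846272) (l 254577576919))))), by decide +kernel⟩

def k48_mm_202 : ∃ t, chk3 f_mm_202 t 11 26 1 = true :=
  ⟨(a (b (l 16811432) (a (l 16830640) (b (l 16815880) (c (l 16822424) (l 16804760))))) (b (a (a (l 16810656) (b (l 16805512) (c (l 202031301991) (l 203105031255)))) (c (a (b (a (l 16809520) (l 212231845655)) (a (b (l 221895517895) (l 261623972135)) (l 277730094039))) (b (a (b (l 229411712551) (l 271824512615)) (l 284709407367)) (l 3))) (a (b (a (l 16799632) (l 219748021639)) (a (b (l 226190481895) (l 253034020951)) (l 277730099079))) (b (a (b (l 231559180263) (l 262160820663)) (l 289004360039)) (l 3))))) (a (a (c (b (l 16814976) (a (l 219211172359) (b (l 233706694423) (l 270213914215)))) (b (l 16804224) (a (l 227264222039) (b (l 236927901559) (l 263771445335))))) (c (b (a (l 227801100951) (b (l 256255266295) (l 3))) (l 3)) (b (a (l 231022318903)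 (b (l 248202185463) (l 3))) (l 3)))) (l 3)))), by decide +kernel⟩

def k49_mm_202 : ∃ t, chk3 f_mm_202 t 11 27 1 = true :=
  ⟨(a (b (a (c (l 16833336) (l 16819704)) (a (c (b (l 16822272) (a (l 215989956407) (b (l 222969288823) (l 249275962983)))) (b (l 16808504) (a (b (l 16810992) (l 226190495863)) (b (l 228337977031) (l 247128458871))))) (c (b (a (l 214916221575) (b (l 228337991623) (l 260550245079))) (a (l 269140181879) (l 3))) (b (b (l 225116747191) (a (l 230485458183) (l 250886549511))) (a (b (l 248739068759) (l 3)) (l 3)))))) (a (c (a (l 272294318311) (b (a (l 209547511031) (b (l 219748059879) (l 245517873527))) (a (b (l 234780458743) (l 2)) (l 3)))) (a (l 278199871463) (b (a (b (l 16813328) (l 217600558231)) (b (l 219211176503) (a (l 235317305127) (l 250886559943)))) (a (b (a (l 321686415751) (l 244444111815)) (l 2)) (l 3))))) (c (a (b (a (b (l 247128482807) (l 3)) (l 3)) (l 3)) (l 3)) (a (b (a (b (l 244980978023) (l 3)) (l 3)) (l 3)) (l 3))))) (b (a (c (a (b (l 283635704247)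 (l 3)) (l 3)) (a (b (a (l 276119477655) (l 3)) (l 3)) (l 3))) (l 3)) (l 3))), by decide +kernel⟩

def k50_mm_202 : ∃ t, chk3 f_mm_202 t 2 7 1 = true :=
  ⟨(a (l 2) (a (l 2) (a (l 2) (l 3)))), by decide +kernel⟩

def k51_mm_202 : ∃ t, chk3 f_mm_202 t 12 24 1 = true :=
  ⟨(a (c (a (b (l 16833936) (l 16817624)) (b (l 16810464) (a (b (l 16804496) (l 16798096)) (b (a (l 16796976) (l 196125686583)) (a (b (l 16796656) (l 246591560471)) (b (l 254107750423) (l 293299323207))))))) (a (l 16789368) (b (l 16782576) (a (b (l 16783304) (l 16788592)) (b (a (l 16785880) (l 197199418407)) (a (b (l 16790344) (l 251960257463)) (b (l 260550189687) (l 300815504855)))))))) (a (b (c (a (b (l 16797784) (a (l 16793832) (b (l 16791920) (l 232096053575)))) (b (a (l 16790856) (b (l 16790376) (l 241222861063))) (a (b (l 232632928743) (l 284709382663)) (l 298131176695)))) (a (b (l 16778992) (b (l 16784552) (a (l 16786560) (l 235854144535)))) (b (a (l 16783848) (b (l 16785040) (l 222432348151))) (a (b (l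 239075369207) (l 291688715639)) (l 293299308711))))) (c (a (b (a (b (l 214916161127) (l 272361358375)) (l 289004372903)) (l 3)) (l 3)) (a (b (a (b (l 214916151143) (l 276119464407)) (l 273435127319)) (l 3)) (l 3)))) (b (a (b (c (a (b (l 250349664055) (l 296520540071)) (l 3)) (a (b (l 234243506071) (l 292225564391)) (l 3))) (l 3)) (l 3)) (l 3)))), by decide +kernel⟩

def k52_mm_202 : ∃ t, chk3 f_mm_202 t 12 25 1 = true :=
  ⟨(a (a (b (c (a (l 16807896) (b (l 16801376) (a (l 204715636455) (b (l 221358627783) (l 272361370359))))) (a (l 16787872) (b (l 16789928) (a (l 207936852967) (b (l 225653585991) (l 273435098807)))))) (c (a (b (a (l 16803872) (b (l 16803360) (l 249275927511))) (a (b (l 242833479559) (l 280951310407)) (l 3))) (b (b (l 279877572135) (l 3)) (l 3))) (a (b (a (l 16796040) (b (l 16795976) (l 252497138663))) (a (b (l 244980948375) (l 283635650615)) (l 3))) (b (a (l 280951313063) (l 3)) (l 3))))) (c (b (a (b (a (b (l 16798664) (l 230485438327)) (b (l 238538499463)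 (l 283098780919))) (a (l 286856899527) (l 3))) (b (l 301352412135) (l 3))) (l 3)) (b (a (b (a (b (l 16791792) (l 235854134311)) (b (l 243907195959) (l 286319994215))) (a (l 291151854215) (l 3))) (b (l 295446820711) (l 3))) (l 3)))) (l 3)), by decide +kernel⟩

def k53_mm_202 : ∃ t, chk3 f_mm_202 t 13 12 1 = true :=
  ⟨(l 3), by decide +kernel⟩

def k54_mm_202 : ∃ t, chk3 f_mm_202 t 6 13 1 = true :=
  ⟨(l 3), by decide +kernel⟩

def k55_mm_202 : ∃ t, chk3 f_mm_202 t 7 6 1 = true :=
  ⟨(l 3), by decide +kernel⟩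

def k56_mm_202 : ∃ t, chk3 f_mm_202 t 3 7 1 = true :=
  ⟨(l 3), by decide +kernel⟩

theorem s57_mm_202 : ∃ t, chk3 f_mm_202 t 12 12 1 = true := ex3_b k51_mm_202 k52_mm_202

theorem s58_mm_202 : ∃ t, chk3 f_mm_202 t 6 12 1 = true := ex3_a s57_mm_202 k53_mm_202

theorem s59_mm_202 : ∃ t, chk3 f_mm_202 t 6 6 1 = true := ex3_b s58_mm_202 k54_mm_202

theorem s60_mm_202 : ∃ t, chk3 f_mm_202 t 3 6 1 = true := ex3_a s59_mm_202 k55_mm_202

theorem s61_mm_202 : ∃ t, chk3 f_mm_202 t 3 3 1 = true := ex3_b s60_mm_202 k56_mm_202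

theorem s62_mm_202 : ∃ t, chk3 f_mm_202 t 11 13 1 = true := ex3_b k48_mm_202 k49_mm_202

theorem s63_mm_202 : ∃ t, chk3 f_mm_202 t 5 13 1 = true := ex3_a k47_mm_202 s62_mm_202

theorem s64_mm_202 : ∃ t, chk3 f_mm_202 t 5 6 1 = true := ex3_b k46_mm_202 s63_mm_202

theorem s65_mm_202 : ∃ t, chk3 f_mm_202 t 2 6 1 = true := ex3_a k45_mm_202 s64_mm_202

theorem s66_mm_202 : ∃ t, chk3 f_mm_202 t 2 3 1 = true := ex3_b s65_mm_202 k50_mm_202

theorem s67_mm_202 : ∃ t, chk3 f_mm_202 t 1 3 1 = true := ex3_a s66_mm_202 s61_mm_202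

theorem s68_mm_202 : ∃ t, chk3 f_mm_202 t 28 20 1 = true := ex3_a k39_mm_202 k40_mm_202

theorem s69_mm_202 : ∃ t, chk3 f_mm_202 t 14 20 1 = true := ex3_a s68_mm_202 k41_mm_202

theorem s70_mm_202 : ∃ t, chk3 f_mm_202 t 14 10 1 = true := ex3_b s69_mm_202 k42_mm_202

theorem s71_mm_202 : ∃ t, chk3 f_mm_202 t 7 10 1 = true := ex3_a s70_mm_202 k43_mm_202

theorem s72_mm_202 : ∃ t, chk3 f_mm_202 t 7 5 1 = true := ex3_b s71_mm_202 k44_mm_202

theorem s73_mm_202 : ∃ t, chk3 f_mm_202 t 6 11 1 = true := ex3_a k37_mm_202 k38_mm_202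

theorem s74_mm_202 : ∃ t, chk3 f_mm_202 t 6 5 1 = true := ex3_b k36_mm_202 s73_mm_202

theorem s75_mm_202 : ∃ t, chk3 f_mm_202 t 3 5 1 = true := ex3_a s74_mm_202 s72_mm_202

theorem s76_mm_202 : ∃ t, chk3 f_mm_202 t 121 72 1 = true := ex3_a k29_mm_202 k30_mm_202

theorem s77_mm_202 : ∃ t, chk3 f_mm_202 t 121 36 1 = true := ex3_b s76_mm_202 k31_mm_202

theorem s78_mm_202 : ∃ t, chk3 f_mm_202 t 60 36 1 = true := ex3_a k28_mm_202 s77_mm_202

theorem s79_mm_202 : ∃ t, chk3 f_mm_202 t 60 18 1 = true := ex3_b s78_mm_202 k32_mm_202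

theorem s80_mm_202 : ∃ t, chk3 f_mm_202 t 30 18 1 = true := ex3_a s79_mm_202 k33_mm_202

theorem s81_mm_202 : ∃ t, chk3 f_mm_202 t 15 18 1 = true := ex3_a s80_mm_202 k34_mm_202

theorem s82_mm_202 : ∃ t, chk3 f_mm_202 t 15 9 1 = true := ex3_b s81_mm_202 k35_mm_202

theorem s83_mm_202 : ∃ t, chk3 f_mm_202 t 58 19 1 = true := ex3_b k25_mm_202 k26_mm_202

theorem s84_mm_202 : ∃ t, chk3 f_mm_202 t 29 19 1 = true := ex3_a s83_mm_202 k27_mm_202

theorem s85_mm_202 : ∃ t, chk3 f_mm_202 t 14 19 1 = true := ex3_a k24_mm_202 s84_mm_202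

theorem s86_mm_202 : ∃ t, chk3 f_mm_202 t 59 37 1 = true := ex3_a k22_mm_202 k23_mm_202

theorem s87_mm_202 : ∃ t, chk3 f_mm_202 t 29 37 1 = true := ex3_a k21_mm_202 s86_mm_202

theorem s88_mm_202 : ∃ t, chk3 f_mm_202 t 29 18 1 = true := ex3_b k20_mm_202 s87_mm_202

theorem s89_mm_202 : ∃ t, chk3 f_mm_202 t 14 18 1 = true := ex3_a k19_mm_202 s88_mm_202

theorem s90_mm_202 : ∃ t, chk3 f_mm_202 t 14 9 1 = true := ex3_b s89_mm_202 s85_mm_202

theorem s91_mm_202 : ∃ t, chk3 f_mm_202 t 7 9 1 = true := ex3_a s90_mm_202 s82_mm_202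

theorem s92_mm_202 : ∃ t, chk3 f_mm_202 t 246 70 1 = true := ex3_b k14_mm_202 k15_mm_202

theorem s93_mm_202 : ∃ t, chk3 f_mm_202 t 123 70 1 = true := ex3_a s92_mm_202 k16_mm_202

theorem s94_mm_202 : ∃ t, chk3 f_mm_202 t 123 35 1 = true := ex3_b s93_mm_202 k17_mm_202

theorem s95_mm_202 : ∃ t, chk3 f_mm_202 t 122 71 1 = true := ex3_a k12_mm_202 k13_mm_202

theorem s96_mm_202 : ∃ t, chk3 f_mm_202 t 122 35 1 = true := ex3_b k11_mm_202 s95_mm_202

theorem s97_mm_202 : ∃ t, chk3 f_mm_202 t 61 35 1 = true := ex3_a s96_mm_202 s94_mm_202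

theorem s98_mm_202 : ∃ t, chk3 f_mm_202 t 30 35 1 = true := ex3_a k10_mm_202 s97_mm_202

theorem s99_mm_202 : ∃ t, chk3 f_mm_202 t 247 69 1 = true := ex3_b k8_mm_202 k9_mm_202

theorem s100_mm_202 : ∃ t, chk3 f_mm_202 t 123 69 1 = true := ex3_a k7_mm_202 s99_mm_202

theorem s101_mm_202 : ∃ t, chk3 f_mm_202 t 61 69 1 = true := ex3_a k6_mm_202 s100_mm_202

theorem s102_mm_202 : ∃ t, chk3 f_mm_202 t 61 34 1 = true := ex3_b k5_mm_202 s101_mm_202

theorem s103_mm_202 : ∃ t, chk3 f_mm_202 t 30 34 1 = true := ex3_a k4_mm_202 s102_mm_202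

theorem s104_mm_202 : ∃ t, chk3 f_mm_202 t 30 17 1 = true := ex3_b s103_mm_202 s98_mm_202

theorem s105_mm_202 : ∃ t, chk3 f_mm_202 t 15 17 1 = true := ex3_a s104_mm_202 k18_mm_202

theorem s106_mm_202 : ∃ t, chk3 f_mm_202 t 15 8 1 = true := ex3_b k3_mm_202 s105_mm_202

theorem s107_mm_202 : ∃ t, chk3 f_mm_202 t 7 8 1 = true := ex3_a k2_mm_202 s106_mm_202

theorem s108_mm_202 : ∃ t, chk3 f_mm_202 t 7 4 1 = true := ex3_b s107_mm_202 s91_mm_202

theorem s109_mm_202 : ∃ t, chk3 f_mm_202 t 3 4 1 = true := ex3_a k1_mm_202 s108_mm_202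

theorem s110_mm_202 : ∃ t, chk3 f_mm_202 t 3 2 1 = true := ex3_b s109_mm_202 s75_mm_202

theorem s111_mm_202 : ∃ t, chk3 f_mm_202 t 1 2 1 = true := ex3_a k0_mm_202 s110_mm_202

theorem s112_mm_202 : ∃ t, chk3 f_mm_202 t 1 1 1 = true := ex3_b s111_mm_202 s67_mm_202

theorem c_mm_202 : CertN 0 536870912 1073741824 536870912 201326592 134217728 3 false false false .pp 2 0 2
    ndN0q2 ndN5q2 pcN0 cut_mm_202 Ext.none :=
  certN1 (fam := false) (s1 := false) (s2 := false) (a := 2) (b := 0) (c := 2) (cn := .pp) (n1 := ndN0q2) (n2 := ndN5q2) (pc := pcN0) (cut := cut_mm_202) (xt := Ext.none) (P1 := 0) (W1 := 536870912) (P2 := 1073741824) (W2 := 536870912) (P3 := 201326592) (W3 := 134217728) (N0 := 3)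
    rfl (fun _ => rfl) s112_mm_202

noncomputable def f_mm_203 : ℕ → ℕ → ℕ → ℕ → Bool := onCell 0 536870912 0 1230186008 201326592 134217728
    (rowN 3 0 false false false .up 2 0 3 (qsf 0 536870912 0 1230186008 0) ndN0q2 ndN5q3 pcN0 Cut.none Ext.none)

def k0_mm_203 : ∃ t, chk3 f_mm_203 t 1 2 1 = true :=
  ⟨(l 2), by decide +kernel⟩

def k1_mm_203 : ∃ t, chk3 f_mm_203 t 1 6 1 = true :=
  ⟨(l 2), by decide +kernel⟩

def k2_mm_203 : ∃ t, chk3 f_mm_203 t 1 14 1 = true :=
  ⟨(a (a (b (l 2) (b (l 2) (a (a (l 16916096) (b (l 273368056935) (l 16876880))) (a (a (b (b (l 2) (c (l 198273233991) (l 198810085399))) (b (l 16836928) (l 16845840))) (b (b (l 2) (c (l 277193251015) (l 279340714999))) (a (b (a (l 200957566247) (l 225653627687)) (l 16830144)) (b (l 272361408311) (a (l 213305597767) (l 236391043975)))))) (l 3))))) (l 3)) (l 2)), by decide +kernel⟩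

def k3_mm_203 : ∃ t, chk3 f_mm_203 t 2 30 1 = true :=
  ⟨(a (a (b (a (l 16951696) (l 16905224)) (l 16962304)) (b (c (a (a (l 16887400) (b (a (l 16854016) (l 16840576)) (l 16870176))) (a (b (a (b (l 237464819319) (l 16833808)) (b (l 3) (l 251960331623))) (b (l 195588882727) (l 16847568))) (b (l 3) (a (b (l 259476521815) (l 212768761399)) (l 280414518151))))) (a (a (l 16851824) (b (a (l 16831160) (l 16823744)) (l 16840160))) (a (b (a (b (l 233706700519) (l 199346949479)) (b (l 3) (l 244980987767))) (b (l 197736357319) (l 16826528))) (b (l 3) (a (b (l 254644662007) (l 214916222391)) (b (l 3) (l 264308335895))))))) (c (a (l 16920136) (b (a (l 16864776) (a (l 16843944) (b (l 222969307815) (l 16836776)))) (l 16873760))) (a (l 16870072) (a (l 16842464) (b (a (l 16824112) (b (l 221895542967) (l 16821040))) (l 16831384))))))) (a (b (l 3) (a (a (c (b (a (b (l 279340739287) (l 233169854023)) (l 3)) (a (b (l 16834920) (l 16844384)) (b (l 242296636439) (l 200957592615)))) (b (a (b (l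 275045751191) (l 229948605191)) (l 3)) (a (b (l 196662596215) (l 16823224)) (b (a (l 227264250999) (l 249275953335)) (l 204715675527))))) (c (b (l 3) (a (b (l 3) (a (l 234780465463) (l 271824550919))) (l 3))) (b (l 3) (a (b (l 3) (a (l 233706700439) (l 260550240055))) (l 3))))) (l 3))) (l 3))), by decide +kernel⟩

def k4_mm_203 : ∃ t, chk3 f_mm_203 t 4 31 1 = true :=
  ⟨(a (b (l 16992064) (l 17017288)) (b (a (l 16929400) (b (l 16874760) (l 16892192))) (a (l 16958672) (l 16915680)))), by decide +kernel⟩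

def k5_mm_203 : ∃ t, chk3 f_mm_203 t 10 31 1 = true :=
  ⟨(b (a (b (a (b (l 16815392) (l 16844488)) (a (c (b (l 206863183127) (l 16839616)) (b (a (l 16820000) (l 220821800823)) (l 16820304))) (c (b (l 262697744311) (a (l 16829864) (l 222969307047))) (b (a (l 240686020503) (l 3)) (a (l 202568182631) (l 226727379591)))))) (a (l 16857336) (a (l 16840664) (c (l 16842032) (l 16820352))))) (b (a (c (a (b (l 3) (l 275045774855)) (l 3)) (a (b (l 3) (a (l 249275953015) (l 3))) (l 3))) (l 3)) (a (a (c (b (a (l 208473794695) (l 234780465239)) (l 16835456)) (b (b (l 235317313095) (l 216526833463)) (l 16819096))) (c (b (l 280414480519) (a (l 214916244455) (l 246591617943))) (b (a (l 260550218791) (l 3)) (a (b (l 227801120695) (l 16819016)) (b (l 3) (l 231022345479)))))) (l 3)))) (a (b (a (l 16874280) (l 16851416)) (l 16877616)) (b (a (a (l 16835704) (b (b (c (l 204178807767) (l 202031309175)) (l 16826352)) (l 16830136))) (a (c (c (b (a (l 221895570855) (l 257329044807)) (l 194515160199))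 (b (a (l 223506171367) (l 254107807831)) (l 195588886615))) (b (a (b (l 236391053831) (l 217063703319)) (b (l 3) (l 238001665751))) (b (c (l 212231871495) (l 214379342759)) (l 16818360)))) (c (b (l 3) (a (b (l 243907267895) (l 221358693783)) (b (l 3) (l 255718426807)))) (b (l 3) (a (b (l 241222879847) (b (l 227264249063) (l 218137444471))) (b (l 3) (a (l 240149148839) (l 3)))))))) (c (a (l 16862432) (a (l 16842784) (b (a (l 16832320) (b (l 225116789367) (l 16830696))) (l 16835120)))) (a (l 16826608) (a (l 16817192) (b (a (l 16818032) (b (c (l 226190513095) (l 226727372199)) (l 16818056))) (l 16814328)))))))), by decide +kernel⟩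

def k6_mm_203 : ∃ t, chk3 f_mm_203 t 11 31 1 = true :=
  ⟨(b (l 3) (a (b (l 3) (a (a (b (c (a (b (l 258939651047) (a (l 222969305671) (l 235854205383))) (l 3)) (c (a (b (l 250886570295) (l 229948608599)) (l 3)) (a (b (l 249812817335) (a (l 225116759319) (l 235317305319))) (l 3)))) (c (a (b (l 211695002903) (l 16829696)) (b (a (l 229948624855) (l 248202233687)) (l 217600580423))) (c (a (l 210084378375) (b (l 238001670087) (l 217600574679))) (b (a (l 217063691063) (a (l 234780433831) (l 246054721575))) (l 213305595431))))) (b (l 3) (c (a (b (l 3) (l 247128489479)) (l 3)) (a (b (l 3) (c (l 246054730743) (l 242833494263))) (l 3))))) (l 3))) (l 3))), by decide +kernel⟩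

def k7_mm_203 : ∃ t, chk3 f_mm_203 t 3 15 1 = true :=
  ⟨(l 3), by decide +kernel⟩

theorem s8_mm_203 : ∃ t, chk3 f_mm_203 t 5 31 1 = true := ex3_a k5_mm_203 k6_mm_203

theorem s9_mm_203 : ∃ t, chk3 f_mm_203 t 2 31 1 = true := ex3_a k4_mm_203 s8_mm_203

theorem s10_mm_203 : ∃ t, chk3 f_mm_203 t 2 15 1 = true := ex3_b k3_mm_203 s9_mm_203

theorem s11_mm_203 : ∃ t, chk3 f_mm_203 t 1 15 1 = true := ex3_a s10_mm_203 k7_mm_203

theorem s12_mm_203 : ∃ t, chk3 f_mm_203 t 1 7 1 = true := ex3_b k2_mm_203 s11_mm_203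

theorem s13_mm_203 : ∃ t, chk3 f_mm_203 t 1 3 1 = true := ex3_b k1_mm_203 s12_mm_203

theorem s14_mm_203 : ∃ t, chk3 f_mm_203 t 1 1 1 = true := ex3_b k0_mm_203 s13_mm_203

theorem c_mm_203 : CertN 0 536870912 0 1230186008 201326592 134217728 3 false false false .up 2 0 3
    ndN0q2 ndN5q3 pcN0 Cut.none Ext.none :=
  certN0 (fam := false) (s1 := false) (s2 := false) (a := 2) (b := 0) (c := 3) (cn := .up) (n1 := ndN0q2) (n2 := ndN5q3) (pc := pcN0) (cut := Cut.none) (xt := Ext.none) (P1 := 0) (W1 := 536870912) (P2 := 0) (W2 := 1230186008) (P3 := 201326592) (W3 := 134217728) (N0 := 3)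
    rfl s14_mm_203

noncomputable def f_mm_213 : ℕ → ℕ → ℕ → ℕ → Bool := onCell 0 536870912 0 1230186008 201326592 134217728
    (rowN 3 0 false false false .pnn 2 1 3 (qsf 0 536870912 0 1230186008 1) ndN0q2 ndN5q3 pcN1 Cut.none Ext.none)

def k0_mm_213 : ∃ t, chk3 f_mm_213 t 1 1 1 = true :=
  ⟨(b (a (l 3) (b (l 5) (l 3))) (b (a (b (l 3) (a (l 3) (l 3))) (l 3)) (a (b (a (b (a (a (c (b (a (b (l 282025089671) (l 259476500663)) (b (l 3) (l 287930669623))) (a (l 16812704) (b (l 263771472615) (l 16813840)))) (b (a (b (l 282025070647) (l 260550228919)) (b (l 3) (l 290615003991))) (a (l 16826032) (b (l 265382093815) (l 16826528))))) (b (l 3) (a (b (a (l 289541274711) (l 3)) (c (l 270213952439) (a (l 265918945367) (l 278803850327)))) (l 3)))) (l 3)) (a (b (a (l 16853632) (c (a (b (l 257329058615) (l 16811232)) (b (l 280414524551) (l 262697747383))) (a (b (l 259476532759) (l 16803296)) (b (a (l 270213916055) (l 289541267479)) (a (l 16806000) (l 267529557111)))))) (a (l 16830816) (a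 (l 16812648) (l 16890856)))) (b (a (a (a (b (l 3) (c (l 277730131239) (l 277730110407))) (l 3)) (l 3)) (l 3)) (b (a (c (a (a (l 260013413479) (l 267529578983)) (l 292762554167)) (a (b (l 270213914519) (l 268066419751)) (a (l 287930657175) (l 3)))) (l 3)) (l 1))))) (l 3)) (b (a (l 1) (a (l 1) (l 3))) (l 1))) (l 3)))), by decide +kernel⟩

theorem c_mm_213 : CertN 0 536870912 0 1230186008 201326592 134217728 3 false false false .pnn 2 1 3
    ndN0q2 ndN5q3 pcN1 Cut.none Ext.none :=
  certN0 (fam := false) (s1 := false) (s2 := false) (a := 2) (b := 1) (c := 3) (cn := .pnn) (n1 := ndN0q2) (n2 := ndN5q3) (pc := pcN1) (cut := Cut.none) (xt := Ext.none) (P1 := 0) (W1 := 536870912) (P2 := 0) (W2 := 1230186008) (P3 := 201326592) (W3 := 134217728) (N0 := 3)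
    rfl k0_mm_213

end Pool.Agent.Strip051.G.I3_16_5_16.Tab.C.NB05

namespace Pool.Agent.Strip051.G.I3_16_5_16.Tab.C.NB10

open Pool.Agent.Strip051.PB Pool.Agent.Strip051.PB.T
open Pool.Agent.Strip051.G.I3_16_5_16.Tab

noncomputable def f_pp_001 : ℕ → ℕ → ℕ → ℕ → Bool := onCell 0 536870912 0 536870912 201326592 134217728
    (rowN 3 1 false true true .up 0 0 1 (qsf 0 536870912 536870912 536870912 0) ndN1q0 ndN0q1 pcN0 Cut.none Ext.none)

def k0_pp_001 : ∃ t, chk3 f_pp_001 t 1 1 1 = true :=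
  ⟨(l 3), by decide +kernel⟩

theorem c_pp_001 : CertN 0 536870912 536870912 536870912 201326592 134217728 3 false true true .up 0 0 1
    ndN1q0 ndN0q1 pcN0 Cut.none Ext.none :=
  certN1 (fam := false) (s1 := true) (s2 := true) (a := 0) (b := 0) (c := 1) (cn := .up) (n1 := ndN1q0) (n2 := ndN0q1) (pc := pcN0) (cut := Cut.none) (xt := Ext.none) (P1 := 0) (W1 := 536870912) (P2 := 536870912) (W2 := 536870912) (P3 := 201326592) (W3 := 134217728) (N0 := 3)
    rfl (fun _ => rfl) k0_pp_001

noncomputable def cut_pp_011 : Cut := Cut.of [[⟨0, 0, 0, 67108864⟩, ⟨1, 1, 0, 67108864⟩, ⟨2, 1, 0, 67108864⟩]]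

noncomputable def f_pp_011 : ℕ → ℕ → ℕ → ℕ → Bool := onCell 0 536870912 536870912 536870912 201326592 134217728
    (rowN 3 0 false true true .pnn 0 1 1 (qsf 0 536870912 536870912 536870912 1) ndN1q0 ndN0q1 pcN1 cut_pp_011 Ext.none)

def k0_pp_011 : ∃ t, chk3 f_pp_011 t 1 1 1 = true :=
  ⟨(a (b (l 3) (b (l 3) (a (b (l 3) (a (b (l 3) (b (l 3) (a (l 6) (l 3)))) (l 3))) (l 3)))) (l 3)), by decide +kernel⟩

theorem c_pp_011 : CertN 0 536870912 536870912 536870912 201326592 134217728 3 false true true .pnn 0 1 1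
    ndN1q0 ndN0q1 pcN1 cut_pp_011 Ext.none :=
  certN0 (fam := false) (s1 := true) (s2 := true) (a := 0) (b := 1) (c := 1) (cn := .pnn) (n1 := ndN1q0) (n2 := ndN0q1) (pc := pcN1) (cut := cut_pp_011) (xt := Ext.none) (P1 := 0) (W1 := 536870912) (P2 := 536870912) (W2 := 536870912) (P3 := 201326592) (W3 := 134217728) (N0 := 3)
    rfl k0_pp_011

noncomputable def cut_pp_012 : Cut := Cut.of [[⟨0, 0, 0, 67108864⟩, ⟨1, 1, 0, 67108864⟩, ⟨2, 1, 0, 67108864⟩]]

noncomputable def f_pp_012 : ℕ → ℕ → ℕ → ℕ → Bool := onCell 536870912 536870912 0 536870912 201326592 134217728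
    (rowN 3 2 false true true .pnp 0 1 2 (qsf 0 536870912 0 536870912 1) ndN1q0 ndN0q2 pcN1 cut_pp_012 Ext.none)

def k0_pp_012 : ∃ t, chk3 f_pp_012 t 1 1 1 = true :=
  ⟨(a (b (a (b (l 2) (a (l 2) (b (l 2) (l 82779860119)))) (b (a (l 16932528) (l 16982328)) (a (l 17199416) (l 16952968)))) (a (b (a (l 2) (b (a (l 2) (c (l 151566267751) (l 152639918935))) (l 3))) (l 3)) (b (a (b (c (l 17234376) (l 83383757079)) (b (a (l 176799034295) (l 152102878423)) (l 3))) (b (a (l 16965112) (l 16921024)) (a (b (l 17007888) (l 181630668759)) (l 116669484711)))) (a (l 3) (a (l 3) (b (l 3) (l 3))))))) (b (a (a (b (l 16983776) (l 16900888)) (b (l 16946688) (l 16877376))) (b (a (b (l 16872568) (l 16895288)) (a (l 16906464) (b (l 16781456) (l 16844504)))) (a (l 16962672) (a (l 16871728) (b (l 16807088) (l 16771728)))))) (a (c (b (a (l 17086088) (l 16937728)) (b (a (l 154787043047) (l 17029408)) (a (l 3) (l 174651228615)))) (b (a (l 17063576) (l 16941568)) (b (a (b (l 105395019095) (l 169282480647))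 (l 39896731543)) (a (l 3) (b (l 173040473495) (l 3)))))) (b (a (b (l 16803112) (l 16927128)) (a (b (l 16772464) (l 16769408)) (a (b (l 16757720) (l 16753880)) (b (l 16747936) (a (l 16746200) (l 16741064)))))) (a (a (b (l 16888424) (b (l 134922706439) (l 3))) (b (l 16881920) (b (l 16887024) (l 181630414951)))) (b (b (a (l 16776200) (a (l 16759808) (l 16769840))) (a (l 16805968) (a (l 16767984) (a (l 16759432) (a (l 16755160) (l 6)))))) (b (a (c (l 16839376) (l 16846192)) (a (c (l 16801296) (l 16797552)) (l 6))) (a (a (l 177872202711) (a (l 179482789847) (l 6))) (l 6))))))))), by decide +kernel⟩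

theorem c_pp_012 : CertN 0 536870912 0 536870912 201326592 134217728 3 false true true .pnp 0 1 2
    ndN1q0 ndN0q2 pcN1 cut_pp_012 Ext.none :=
  certN2 (fam := false) (s1 := true) (s2 := true) (a := 0) (b := 1) (c := 2) (cn := .pnp) (n1 := ndN1q0) (n2 := ndN0q2) (pc := pcN1) (cut := cut_pp_012) (xt := Ext.none) (P1 := 0) (W1 := 536870912) (P2 := 0) (W2 := 536870912) (P3 := 201326592) (W3 := 134217728) (N0 := 3)
    rfl (fun _ => rfl) k0_pp_012

noncomputable def cut_pp_022 : Cut := Cut.of [[⟨0, 0, 0, 67108864⟩, ⟨1, 1, 0, 67108864⟩, ⟨2, 1, 0, 67108864⟩]]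

noncomputable def f_pp_022 : ℕ → ℕ → ℕ → ℕ → Bool := onCell 0 536870912 0 536870912 201326592 134217728
    (rowN 3 0 false true true .pp 0 2 2 (qsf 0 536870912 0 536870912 2) ndN1q0 ndN0q2 pcN2 cut_pp_022 Ext.none)

def k0_pp_022 : ∃ t, chk3 f_pp_022 t 2 2 1 = true :=
  ⟨(a (a (b (a (b (a (a (c (b (a (l 16504176) (l 16465392)) (l 16508528)) (b (l 16518576) (l 16480448))) (c (l 16534472) (l 16463448))) (b (a (l 16493040) (l 16478152)) (a (l 16497472) (l 16504232)))) (a (b (a (c (l 16513544) (l 16486504)) (c (l 16479272) (l 16472632))) (a (c (l 16533168) (l 16516816)) (c (l 16531088) (l 16482648)))) (b (a (l 16525488) (l 16532752)) (a (b (l 16512488) (l 16518856)) (l 16564320))))) (b (l 16515888) (l 16575608))) (b (a (a (c (b (a (b (l 16511520) (l 16519088)) (l 16566672)) (a (b (l 16526608) (l 16554568)) (a (l 16559072) (l 16563208)))) (b (a (l 16550312) (l 16538208)) (a (c (l 16586704) (l 16582608)) (b (l 16486232) (l 16513872))))) (a (b (a (c (l 16500168) (l 16481720))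 (l 16573384)) (b (l 16519936) (l 16526528))) (l 16544456))) (c (l 16544760) (l 16536584))) (b (a (a (c (a (b (a (l 16538568) (l 16522960)) (c (l 16569504) (l 16565928))) (b (l 16570152) (l 16534840))) (a (b (l 16553872) (l 16581144)) (a (l 16605152) (l 16526096)))) (l 16570960)) (l 16583040)) (a (a (b (a (c (a (l 16550848) (l 16534320)) (a (l 16543944) (l 16527424))) (l 16557632)) (c (l 16540856) (l 16535288))) (l 16582616)) (l 16595848))))) (b (b (l 16548968) (l 16613248)) (a (c (l 16671408) (l 16665144)) (a (l 16712016) (l 16726856))))) (a (b (l 16710752) (b (l 16638968) (l 16762480))) (l 1))), by decide +kernel⟩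

def k1_pp_022 : ∃ t, chk3 f_pp_022 t 2 3 1 = true :=
  ⟨(a (b (b (a (a (c (a (c (l 16604128) (l 16593200)) (l 16588792)) (a (c (l 16592448) (l 16591400)) (l 16588056))) (a (l 16626616) (l 16622840))) (a (l 16638360) (l 16641752))) (b (a (a (c (a (b (l 16616088) (l 16632608)) (l 16613640)) (a (a (c (l 16615920) (l 16612216)) (l 16587504)) (l 16604832))) (a (l 16660048) (l 16626232))) (a (l 16647896) (l 16685624))) (a (a (c (a (a (c (l 16656240) (l 16652064)) (l 16659360)) (l 16636256)) (a (a (l 16656608) (l 16651104)) (l 16637880))) (a (l 16674368) (l 16665432))) (a (l 16735200) (l 1))))) (b (b (a (c (a (a (a (a (b (l 16656280) (l 16693864)) (l 16688136)) (l 16691800)) (l 16699456)) (l 16721312)) (a (a (a (b (l 16649824) (l 16687768)) (l 16684232)) (l 16670616)) (l 16727992))) (a (a (l 16728400) (l 1)) (l 1))) (a (a (l 6) (a (l 6) (b (l 16719040) (l 16740456)))) (l 1))) (a (a (l 6) (a (l 6) (l 1))) (l 1)))) (b (l 1) (l 1))), by decide +kernel⟩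

def k2_pp_022 : ∃ t, chk3 f_pp_022 t 3 1 1 = true :=
  ⟨(l 1), by decide +kernel⟩

theorem s3_pp_022 : ∃ t, chk3 f_pp_022 t 2 1 1 = true := ex3_b k0_pp_022 k1_pp_022

theorem s4_pp_022 : ∃ t, chk3 f_pp_022 t 1 1 1 = true := ex3_a s3_pp_022 k2_pp_022

theorem c_pp_022 : CertN 0 536870912 0 536870912 201326592 134217728 3 false true true .pp 0 2 2
    ndN1q0 ndN0q2 pcN2 cut_pp_022 Ext.none :=
  certN0 (fam := false) (s1 := true) (s2 := true) (a := 0) (b := 2) (c := 2) (cn := .pp) (n1 := ndN1q0) (n2 := ndN0q2) (pc := pcN2) (cut := cut_pp_022) (xt := Ext.none) (P1 := 0) (W1 := 536870912) (P2 := 0) (W2 := 536870912) (P3 := 201326592) (W3 := 134217728) (N0 := 3)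
    rfl s4_pp_022

noncomputable def f_pp_101 : ℕ → ℕ → ℕ → ℕ → Bool := onCell 536870912 536870912 536870912 536870912 201326592 134217728
    (rowN 3 0 false true true .npn 1 0 1 (qsf 536870912 536870912 536870912 536870912 0) ndN1q1 ndN0q1 pcN0 Cut.none Ext.none)

def k0_pp_101 : ∃ t, chk3 f_pp_101 t 1 1 1 = true :=
  ⟨(l 3), by decide +kernel⟩

theorem c_pp_101 : CertN 536870912 536870912 536870912 536870912 201326592 134217728 3 false true true .npn 1 0 1
    ndN1q1 ndN0q1 pcN0 Cut.none Ext.none :=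
  certN0 (fam := false) (s1 := true) (s2 := true) (a := 1) (b := 0) (c := 1) (cn := .npn) (n1 := ndN1q1) (n2 := ndN0q1) (pc := pcN0) (cut := Cut.none) (xt := Ext.none) (P1 := 536870912) (W1 := 536870912) (P2 := 536870912) (W2 := 536870912) (P3 := 201326592) (W3 := 134217728) (N0 := 3)
    rfl k0_pp_101

noncomputable def f_pp_102 : ℕ → ℕ → ℕ → ℕ → Bool := onCell 0 536870912 0 536870912 201326592 134217728
    (rowN 3 2 false true true .npp 1 0 2 (qsf 536870912 536870912 0 536870912 0) ndN1q1 ndN0q2 pcN0 Cut.none Ext.none)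

def k0_pp_102 : ∃ t, chk3 f_pp_102 t 1 1 1 = true :=
  ⟨(a (b (a (b (l 2) (l 3)) (c (b (a (b (a (b (l 153176291735) (l 3)) (b (l 148881371735) (l 173040596327))) (l 3)) (b (a (l 148344548791) (l 16992248)) (a (l 3) (l 176261944727)))) (l 3)) (b (a (b (a (a (l 2) (b (l 154786811335) (l 3))) (b (a (l 153176224087) (l 154786845943)) (a (l 3) (l 174114242551)))) (l 3)) (b (a (b (l 16918808) (l 155323789751)) (l 16943856)) (a (l 3) (b (l 178409309719) (l 3))))) (l 3)))) (l 3)) (b (a (b (c (a (b (l 17008144) (b (l 149418477831) (l 174651386231))) (b (l 17099312) (l 17140424))) (a (b (l 16963576) (a (l 157471391143) (l 153713374823))) (b (l 16987472) (l 17020008)))) (b (c (a (l 182167649879) (l 157471771303)) (a (b (l 184851880807) (l 3)) (b (l 158008395751) (l 183241344023)))) (l 3))) (b (a (b (l 17047792) (l 17038376)) (l 17032440)) (a (b (a (b (l 17114848) (l 157471610455)) (l 17196368)) (b (a (l 174651580743) (l 163377307815)) (l 3))) (b (a (l 17095480) (l 17079512)) (c (l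 149419108151) (a (l 158545296199) (l 155861092039))))))) (a (l 3) (l 3)))), by decide +kernel⟩

theorem c_pp_102 : CertN 536870912 536870912 0 536870912 201326592 134217728 3 false true true .npp 1 0 2
    ndN1q1 ndN0q2 pcN0 Cut.none Ext.none :=
  certN2 (fam := false) (s1 := true) (s2 := true) (a := 1) (b := 0) (c := 2) (cn := .npp) (n1 := ndN1q1) (n2 := ndN0q2) (pc := pcN0) (cut := Cut.none) (xt := Ext.none) (P1 := 536870912) (W1 := 536870912) (P2 := 0) (W2 := 536870912) (P3 := 201326592) (W3 := 134217728) (N0 := 3)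
    rfl (fun _ => rfl) k0_pp_102

noncomputable def f_pp_112 : ℕ → ℕ → ℕ → ℕ → Bool := onCell 536870912 536870912 0 536870912 201326592 134217728
    (rowN 3 2 false true true .dn 1 1 2 (qsf 536870912 536870912 0 536870912 1) ndN1q1 ndN0q2 pcN1 Cut.none Ext.none)

def k0_pp_112 : ∃ t, chk3 f_pp_112 t 1 1 1 = true :=
  ⟨(a (b (a (b (a (b (l 17199832) (l 17088736)) (l 17200464)) (a (b (l 17069096) (c (l 101100750567) (a (l 17030664) (l 17032264)))) (b (l 17118696) (c (l 17217448) (l 17054096))))) (a (b (l 17256048) (a (l 918620922423) (l 1))) (l 1))) (a (b (b (a (b (a (l 150492393255) (l 146197395783)) (l 3)) (a (c (l 143513322775) (l 145660547351)) (c (l 141365834743) (l 144049901207)))) (l 3)) (l 3)) (b (l 1) (l 1)))) (l 1)), by decide +kernel⟩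

theorem c_pp_112 : CertN 536870912 536870912 0 536870912 201326592 134217728 3 false true true .dn 1 1 2
    ndN1q1 ndN0q2 pcN1 Cut.none Ext.none :=
  certN2 (fam := false) (s1 := true) (s2 := true) (a := 1) (b := 1) (c := 2) (cn := .dn) (n1 := ndN1q1) (n2 := ndN0q2) (pc := pcN1) (cut := Cut.none) (xt := Ext.none) (P1 := 536870912) (W1 := 536870912) (P2 := 0) (W2 := 536870912) (P3 := 201326592) (W3 := 134217728) (N0 := 3)
    rfl (fun _ => rfl) k0_pp_112

noncomputable def f_pp_202_a : ℕ → ℕ → ℕ → ℕ → Bool := onCell 0 536870912 0 536870912 201326592 134217728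
    (rowN 3 0 false true true .pp 2 0 2 (qsf 0 536870912 0 536870912 0) ndN1q2a ndN0q2 pcN0 Cut.none Ext.none)

def k0_pp_202_a : ∃ t, chk3 f_pp_202_a t 1 1 1 = true :=
  ⟨(l 3), by decide +kernel⟩

theorem c_pp_202_a : CertN 0 536870912 0 536870912 201326592 134217728 3 false true true .pp 2 0 2
    ndN1q2a ndN0q2 pcN0 Cut.none Ext.none :=
  certN0 (fam := false) (s1 := true) (s2 := true) (a := 2) (b := 0) (c := 2) (cn := .pp) (n1 := ndN1q2a) (n2 := ndN0q2) (pc := pcN0) (cut := Cut.none) (xt := Ext.none) (P1 := 0) (W1 := 536870912) (P2 := 0) (W2 := 536870912) (P3 := 201326592) (W3 := 134217728) (N0 := 3)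
    rfl k0_pp_202_a

noncomputable def f_pp_202_b : ℕ → ℕ → ℕ → ℕ → Bool := onCell 1239849684 370763052 0 536870912 201326592 134217728
    (rowN 3 0 false true true .pp 2 0 2 (qsf 1239849684 370763052 0 536870912 0) ndN1q2b ndN0q2 pcN0 Cut.none Ext.none)

def k0_pp_202_b : ∃ t, chk3 f_pp_202_b t 1 1 1 = true :=
  ⟨(l 3), by decide +kernel⟩

theorem c_pp_202_b : CertN 1239849684 370763052 0 536870912 201326592 134217728 3 false true true .pp 2 0 2
    ndN1q2b ndN0q2 pcN0 Cut.none Ext.none :=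
  certN0 (fam := false) (s1 := true) (s2 := true) (a := 2) (b := 0) (c := 2) (cn := .pp) (n1 := ndN1q2b) (n2 := ndN0q2) (pc := pcN0) (cut := Cut.none) (xt := Ext.none) (P1 := 1239849684) (W1 := 370763052) (P2 := 0) (W2 := 536870912) (P3 := 201326592) (W3 := 134217728) (N0 := 3)
    rfl k0_pp_202_b

noncomputable def f_pm_001 : ℕ → ℕ → ℕ → ℕ → Bool := onCell 0 536870912 536870912 536870912 201326592 134217728
    (rowN 3 0 false true false .up 0 0 1 (qsf 0 536870912 536870912 536870912 0) ndN1q0 ndN0q1 pcN0 Cut.none Ext.none)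

def k0_pm_001 : ∃ t, chk3 f_pm_001 t 1 1 1 = true :=
  ⟨(b (l 4) (b (l 4) (b (l 4) (a (l 2) (a (l 2) (b (l 4) (a (l 2) (c (l 176732199863) (l 163310180199))))))))), by decide +kernel⟩

theorem c_pm_001 : CertN 0 536870912 536870912 536870912 201326592 134217728 3 false true false .up 0 0 1
    ndN1q0 ndN0q1 pcN0 Cut.none Ext.none :=
  certN0 (fam := false) (s1 := true) (s2 := false) (a := 0) (b := 0) (c := 1) (cn := .up) (n1 := ndN1q0) (n2 := ndN0q1) (pc := pcN0) (cut := Cut.none) (xt := Ext.none) (P1 := 0) (W1 := 536870912) (P2 := 536870912) (W2 := 536870912) (P3 := 201326592) (W3 := 134217728) (N0 := 3)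
    rfl k0_pm_001

noncomputable def cut_pm_011 : Cut := Cut.of [[⟨0, 0, 0, 67108864⟩, ⟨1, 1, 0, 67108864⟩, ⟨2, 1, 0, 67108864⟩]]

noncomputable def f_pm_011 : ℕ → ℕ → ℕ → ℕ → Bool := onCell 0 536870912 536870912 536870912 201326592 134217728
    (rowN 3 0 false true false .pnn 0 1 1 (qsf 0 536870912 536870912 536870912 1) ndN1q0 ndN0q1 pcN1 cut_pm_011 Ext.none)

def k0_pm_011 : ∃ t, chk3 f_pm_011 t 1 1 1 = true :=
  ⟨(b (l 4) (b (l 4) (b (l 4) (b (a (l 4) (l 4)) (a (a (a (a (b (l 4) (l 6)) (l 4)) (l 4)) (l 4)) (a (a (l 4) (l 339001402535)) (a (l 17168912) (l 17270208)))))))), by decide +kernel⟩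

theorem c_pm_011 : CertN 0 536870912 536870912 536870912 201326592 134217728 3 false true false .pnn 0 1 1
    ndN1q0 ndN0q1 pcN1 cut_pm_011 Ext.none :=
  certN0 (fam := false) (s1 := true) (s2 := false) (a := 0) (b := 1) (c := 1) (cn := .pnn) (n1 := ndN1q0) (n2 := ndN0q1) (pc := pcN1) (cut := cut_pm_011) (xt := Ext.none) (P1 := 0) (W1 := 536870912) (P2 := 536870912) (W2 := 536870912) (P3 := 201326592) (W3 := 134217728) (N0 := 3)
    rfl k0_pm_011

noncomputable def cut_pm_012 : Cut := Cut.of [[⟨0, 0, 0, 67108864⟩, ⟨1, 1, 0, 67108864⟩, ⟨2, 1, 0, 67108864⟩]]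

noncomputable def f_pm_012 : ℕ → ℕ → ℕ → ℕ → Bool := onCell 536870912 536870912 0 536870912 201326592 134217728
    (rowN 3 2 false true false .pnp 0 1 2 (qsf 0 536870912 0 536870912 1) ndN1q0 ndN0q2 pcN1 cut_pm_012 Ext.none)

def k0_pm_012 : ∃ t, chk3 f_pm_012 t 2 1 1 = true :=
  ⟨(a (b (b (l 2) (b (l 2) (a (l 2) (l 17213896)))) (a (b (l 2) (b (l 17364640) (l 17318840))) (b (b (l 17280416) (a (l 17324720) (l 17300000))) (b (a (l 17317184) (l 17271848)) (l 17217376))))) (b (b (l 17056832) (b (l 17150040) (a (l 17210576) (l 17166584)))) (b (a (b (l 17246808) (a (l 17265880) (l 17217272))) (b (l 17162832) (a (l 17146456) (l 17049232)))) (a (b (a (l 17212240) (l 17133536)) (l 17050072)) (b (b (l 17009536) (l 16921600)) (b (l 16825712) (l 16724712))))))), by decide +kernel⟩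

def k1_pm_012 : ∃ t, chk3 f_pm_012 t 3 1 1 = true :=
  ⟨(b (a (b (a (l 17026080) (l 16869848)) (a (l 17046360) (l 16771744))) (b (a (l 16792216) (b (l 16734880) (a (l 16614352) (l 16587856)))) (a (b (l 16571536) (l 16505768)) (a (b (l 16541568) (l 16487864)) (b (l 16523088) (l 16478176)))))) (a (a (b (b (l 16976032) (a (l 16916000) (l 16734840))) (b (a (b (l 16772000) (l 16644480)) (b (l 16539176) (l 16536104))) (l 43184435015))) (a (b (l 16634728) (b (b (l 16560848) (l 16615320)) (b (l 16581416) (l 16601600)))) (b (b (l 16463648) (l 16450016)) (b (c (l 16660000) (l 16660976)) (c (l 58216963351) (l 16816664)))))) (b (a (a (b (l 16521496) (l 16531208)) (b (l 16455840) (l 16576128))) (b (a (l 16476504) (l 16561168)) (a (c (l 16536448) (l 16516112)) (c (b (l 16518656) (l 16574904)) (b (l 16538544) (l 16654832)))))) (a (a (b (a (l 16633208) (l 16610856)) (b (c (l 16762504) (l 16783528)) (l 16726304))) (b (b (l 16534128) (l 16649208)) (b (a (l 16676560) (l 16711336)) (c (l 16734152)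 (l 16716080))))) (b (b (a (l 16605216) (a (l 16588144) (c (l 16599880) (l 16632432)))) (a (c (l 16603952) (l 16607728)) (a (c (l 16624064) (l 16630264)) (a (l 16703328) (c (l 16644768) (l 16673288)))))) (b (a (c (a (l 16673720) (l 16662736)) (a (l 16671992) (l 16662136))) (a (a (l 16745112) (l 6)) (l 6))) (a (a (a (l 16734856) (l 67343713591)) (b (l 16744872) (l 6))) (l 6)))))))), by decide +kernel⟩

theorem s2_pm_012 : ∃ t, chk3 f_pm_012 t 1 1 1 = true := ex3_a k0_pm_012 k1_pm_012

theorem c_pm_012 : CertN 0 536870912 0 536870912 201326592 134217728 3 false true false .pnp 0 1 2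
    ndN1q0 ndN0q2 pcN1 cut_pm_012 Ext.none :=
  certN2 (fam := false) (s1 := true) (s2 := false) (a := 0) (b := 1) (c := 2) (cn := .pnp) (n1 := ndN1q0) (n2 := ndN0q2) (pc := pcN1) (cut := cut_pm_012) (xt := Ext.none) (P1 := 0) (W1 := 536870912) (P2 := 0) (W2 := 536870912) (P3 := 201326592) (W3 := 134217728) (N0 := 3)
    rfl (fun _ => rfl) s2_pm_012

noncomputable def cut_pm_022 : Cut := Cut.of [[⟨0, 0, 0, 67108864⟩, ⟨1, 1, 0, 67108864⟩, ⟨2, 1, 0, 67108864⟩]]

noncomputable def f_pm_022 : ℕ → ℕ → ℕ → ℕ → Bool := onCell 0 536870912 0 536870912 201326592 134217728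
    (rowN 3 0 false true false .pp 0 2 2 (qsf 0 536870912 0 536870912 2) ndN1q0 ndN0q2 pcN2 cut_pm_022 Ext.none)

def k0_pm_022 : ∃ t, chk3 f_pm_022 t 1 1 1 = true :=
  ⟨(a (b (a (b (b (a (a (a (a (b (c (l 16505352) (l 16474688)) (c (l 16504296) (l 16451960))) (c (l 16533168) (l 16483056))) (b (c (l 16477152) (l 16466528)) (l 16509248))) (b (l 16488328) (l 16501616))) (a (l 16544480) (l 16519952))) (a (a (c (a (l 16495904) (l 16462584)) (l 16491704)) (l 16533688)) (l 16558584))) (a (a (c (b (a (l 16559168) (l 16476088)) (a (c (l 16590664) (l 16585944)) (b (l 16511192) (l 16533040)))) (b (l 16565072) (a (l 16599376) (l 16514688)))) (b (l 16523704) (c (l 16506576) (l 16480432)))) (b (a (l 16475800) (l 16489368)) (a (l 16502592) (l 16492168))))) (a (b (b (l 16545144) (l 16525160)) (b (l 16506792) (l 16567168))) (l 1))) (a (b (a (a (b (b (a (c (l 16622184) (l 16569800)) (l 16592016)) (a (c (a (l 16630072) (l 16595544)) (l 16613096)) (l 16623304))) (a (a (b (c (c (l 16633792)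 (l 16628968)) (l 16642120)) (c (c (l 16677136) (l 16672640)) (a (l 16668816) (l 16641072)))) (c (b (l 16617176) (l 16639088)) (l 16682616))) (c (c (l 16670672) (l 16667352)) (l 16662080)))) (b (b (l 16573768) (l 16592408)) (c (b (l 16571392) (l 16611576)) (l 16635144)))) (b (a (l 16551440) (l 16558104)) (a (c (b (l 16546208) (l 16575504)) (l 16570136)) (b (l 16546344) (l 1))))) (a (a (b (b (a (a (b (c (c (l 16672952) (l 16668840)) (l 16683280)) (c (c (l 16705256) (l 16701504)) (a (l 16699120) (l 16671056)))) (c (l 16682264) (l 16675256))) (c (l 16679648) (l 16653464))) (l 6)) (l 6)) (a (b (b (l 16646592) (l 6)) (l 6)) (b (b (l 16647712) (b (l 16635696) (l 16657072))) (l 1)))) (a (a (b (b (l 16648072) (l 1)) (l 1)) (l 1)) (l 1)))) (b (l 1) (l 1)))) (l 1)), by decide +kernel⟩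

theorem c_pm_022 : CertN 0 536870912 0 536870912 201326592 134217728 3 false true false .pp 0 2 2
    ndN1q0 ndN0q2 pcN2 cut_pm_022 Ext.none :=
  certN0 (fam := false) (s1 := true) (s2 := false) (a := 0) (b := 2) (c := 2) (cn := .pp) (n1 := ndN1q0) (n2 := ndN0q2) (pc := pcN2) (cut := cut_pm_022) (xt := Ext.none) (P1 := 0) (W1 := 536870912) (P2 := 0) (W2 := 536870912) (P3 := 201326592) (W3 := 134217728) (N0 := 3)
    rfl k0_pm_022

noncomputable def f_pm_101 : ℕ → ℕ → ℕ → ℕ → Bool := onCell 0 536870912 536870912 536870912 201326592 134217728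
    (rowN 3 2 false true false .npn 1 0 1 (qsf 536870912 536870912 536870912 536870912 0) ndN1q1 ndN0q1 pcN0 Cut.none Ext.none)

def k0_pm_101 : ∃ t, chk3 f_pm_101 t 1 1 1 = true :=
  ⟨(b (l 4) (a (b (a (b (l 4) (a (l 17709128) (l 4))) (l 4)) (a (b (a (l 17808448) (l 17747736)) (c (l 17861072) (l 17588752))) (b (a (l 17725096) (b (l 4) (l 17686736))) (a (l 17692672) (l 17667320))))) (b (l 4) (a (a (b (a (l 17631328) (l 4)) (c (l 17789360) (l 17488832))) (b (l 4) (b (c (l 17792176) (l 17447544)) (l 17581880)))) (a (b (l 4) (b (b (l 4) (l 141970863591)) (c (l 17713872) (l 17336200)))) (b (l 4) (b (l 4) (c (l 73788222551) (a (l 17241344) (l 17155904)))))))))), by decide +kernel⟩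

theorem c_pm_101 : CertN 536870912 536870912 536870912 536870912 201326592 134217728 3 false true false .npn 1 0 1
    ndN1q1 ndN0q1 pcN0 Cut.none Ext.none :=
  certN2 (fam := false) (s1 := true) (s2 := false) (a := 1) (b := 0) (c := 1) (cn := .npn) (n1 := ndN1q1) (n2 := ndN0q1) (pc := pcN0) (cut := Cut.none) (xt := Ext.none) (P1 := 536870912) (W1 := 536870912) (P2 := 536870912) (W2 := 536870912) (P3 := 201326592) (W3 := 134217728) (N0 := 3)
    rfl (fun _ => rfl) k0_pm_101

noncomputable def f_pm_102 : ℕ → ℕ → ℕ → ℕ → Bool := onCell 536870912 536870912 0 536870912 201326592 134217728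
    (rowN 3 0 false true false .npp 1 0 2 (qsf 536870912 536870912 0 536870912 0) ndN1q1 ndN0q2 pcN0 Cut.none Ext.none)

def k0_pm_102 : ∃ t, chk3 f_pm_102 t 1 1 1 = true :=
  ⟨(a (b (a (a (l 2) (b (l 2) (l 17170272))) (b (a (l 16949360) (l 17012304)) (b (l 16940080) (l 17018864)))) (b (b (a (a (l 2) (l 16982944)) (b (l 16903888) (l 17141392))) (a (a (l 2) (l 17084848)) (a (l 17058088) (l 17061408)))) (a (b (b (l 17187080) (a (l 79021796151) (l 17416560))) (a (b (l 17333120) (l 17386712)) (b (l 17390504) (l 17466208)))) (b (c (l 17354552) (b (l 17178120) (l 17263944))) (a (c (l 17593648) (l 17348272)) (l 17503592)))))) (b (a (b (a (l 17020856) (b (l 16974368) (l 16987784))) (b (l 17247376) (a (l 16896800) (l 16876984)))) (b (a (b (l 16939624) (l 16939368)) (b (a (l 16913760) (b (c (l 16933520) (l 16880784)) (l 16886784))) (a (l 16900400) (b (l 16871440) (l 16876344))))) (b (a (l 17047008) (a (l 16892128) (l 16996968))) (a (l 16775304) (l 16861408))))) (b (a (b (a (l 16832128)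 (l 16862752)) (a (l 17073504) (l 17097064))) (b (a (l 16982808) (c (l 16873960) (l 16863096))) (a (l 17125784) (l 17382840)))) (a (b (a (l 17541144) (l 17349848)) (a (l 17526936) (l 17538248))) (b (a (l 17366584) (a (l 17397632) (l 17428376))) (a (l 17740464) (b (l 17531240) (l 17624288)))))))), by decide +kernel⟩

theorem c_pm_102 : CertN 536870912 536870912 0 536870912 201326592 134217728 3 false true false .npp 1 0 2
    ndN1q1 ndN0q2 pcN0 Cut.none Ext.none :=
  certN0 (fam := false) (s1 := true) (s2 := false) (a := 1) (b := 0) (c := 2) (cn := .npp) (n1 := ndN1q1) (n2 := ndN0q2) (pc := pcN0) (cut := Cut.none) (xt := Ext.none) (P1 := 536870912) (W1 := 536870912) (P2 := 0) (W2 := 536870912) (P3 := 201326592) (W3 := 134217728) (N0 := 3)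
    rfl k0_pm_102

noncomputable def f_pm_112 : ℕ → ℕ → ℕ → ℕ → Bool := onCell 536870912 536870912 0 536870912 201326592 134217728
    (rowN 3 0 false true false .dn 1 1 2 (qsf 536870912 536870912 0 536870912 1) ndN1q1 ndN0q2 pcN1 Cut.none Ext.none)

def k0_pm_112 : ∃ t, chk3 f_pm_112 t 1 1 1 = true :=
  ⟨(a (a (a (b (b (l 17319232) (b (l 17365336) (l 17409432))) (b (b (l 17474856) (l 17520328)) (b (l 17527016) (l 17458952)))) (b (b (l 17313648) (b (l 17373736) (l 17433664))) (b (b (l 17529992) (l 17590360)) (b (l 17619480) (l 1))))) (b (a (b (l 17321040) (b (l 17390104) (l 17458792))) (l 1)) (b (l 1) (l 1)))) (l 1)), by decide +kernel⟩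

theorem c_pm_112 : CertN 536870912 536870912 0 536870912 201326592 134217728 3 false true false .dn 1 1 2
    ndN1q1 ndN0q2 pcN1 Cut.none Ext.none :=
  certN0 (fam := false) (s1 := true) (s2 := false) (a := 1) (b := 1) (c := 2) (cn := .dn) (n1 := ndN1q1) (n2 := ndN0q2) (pc := pcN1) (cut := Cut.none) (xt := Ext.none) (P1 := 536870912) (W1 := 536870912) (P2 := 0) (W2 := 536870912) (P3 := 201326592) (W3 := 134217728) (N0 := 3)
    rfl k0_pm_112

noncomputable def cut_pm_202_a : Cut := Cut.of [[⟨0, 1, 0, 67108864⟩, ⟨1, 0, 0, 67108864⟩, ⟨2, 1, 0, 67108864⟩]]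

noncomputable def f_pm_202_a : ℕ → ℕ → ℕ → ℕ → Bool := onCell 0 536870912 0 536870912 201326592 134217728
    (rowN 3 0 false true false .pp 2 0 2 (qsf 0 536870912 0 536870912 0) ndN1q2a ndN0q2 pcN0 cut_pm_202_a Ext.none)

def k0_pm_202_a : ∃ t, chk3 f_pm_202_a t 1 1 1 = true :=
  ⟨(a (l 3) (b (l 3) (a (l 3) (a (l 3) (b (l 3) (b (l 3) (l 6))))))), by decide +kernel⟩

theorem c_pm_202_a : CertN 0 536870912 0 536870912 201326592 134217728 3 false true false .pp 2 0 2
    ndN1q2a ndN0q2 pcN0 cut_pm_202_a Ext.none :=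
  certN0 (fam := false) (s1 := true) (s2 := false) (a := 2) (b := 0) (c := 2) (cn := .pp) (n1 := ndN1q2a) (n2 := ndN0q2) (pc := pcN0) (cut := cut_pm_202_a) (xt := Ext.none) (P1 := 0) (W1 := 536870912) (P2 := 0) (W2 := 536870912) (P3 := 201326592) (W3 := 134217728) (N0 := 3)
    rfl k0_pm_202_a

noncomputable def cut_pm_202_b : Cut := Cut.of [[⟨0, 1, 0, 67108864⟩, ⟨1, 0, 0, 67108864⟩, ⟨2, 1, 0, 67108864⟩]]

noncomputable def f_pm_202_b : ℕ → ℕ → ℕ → ℕ → Bool := onCell 1239849684 370763052 0 536870912 201326592 134217728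
    (rowN 3 0 false true false .pp 2 0 2 (qsf 1239849684 370763052 0 536870912 0) ndN1q2b ndN0q2 pcN0 cut_pm_202_b Ext.none)

def k0_pm_202_b : ∃ t, chk3 f_pm_202_b t 1 1 1 = true :=
  ⟨(l 3), by decide +kernel⟩

theorem c_pm_202_b : CertN 1239849684 370763052 0 536870912 201326592 134217728 3 false true false .pp 2 0 2
    ndN1q2b ndN0q2 pcN0 cut_pm_202_b Ext.none :=
  certN0 (fam := false) (s1 := true) (s2 := false) (a := 2) (b := 0) (c := 2) (cn := .pp) (n1 := ndN1q2b) (n2 := ndN0q2) (pc := pcN0) (cut := cut_pm_202_b) (xt := Ext.none) (P1 := 1239849684) (W1 := 370763052) (P2 := 0) (W2 := 536870912) (P3 := 201326592) (W3 := 134217728) (N0 := 3)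
    rfl k0_pm_202_b

noncomputable def f_mm_001 : ℕ → ℕ → ℕ → ℕ → Bool := onCell 0 536870912 536870912 536870912 201326592 134217728
    (rowN 3 0 false false false .up 0 0 1 (qsf 0 536870912 536870912 536870912 0) ndN1q0 ndN0q1 pcN0 Cut.none Ext.none)

def k0_mm_001 : ∃ t, chk3 f_mm_001 t 1 1 1 = true :=
  ⟨(l 5), by decide +kernel⟩

theorem c_mm_001 : CertN 0 536870912 536870912 536870912 201326592 134217728 3 false false false .up 0 0 1
    ndN1q0 ndN0q1 pcN0 Cut.none Ext.none :=
  certN0 (fam := false) (s1 := false) (s2 := false) (a := 0) (b := 0) (c := 1) (cn := .up) (n1 := ndN1q0) (n2 := ndN0q1) (pc := pcN0) (cut := Cut.none) (xt := Ext.none) (P1 := 0) (W1 := 536870912) (P2 := 536870912) (W2 := 536870912) (P3 := 201326592) (W3 := 134217728) (N0 := 3)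
    rfl k0_mm_001

noncomputable def f_mm_011 : ℕ → ℕ → ℕ → ℕ → Bool := onCell 0 536870912 536870912 536870912 201326592 134217728
    (rowN 3 0 false false false .pnn 0 1 1 (qsf 0 536870912 536870912 536870912 1) ndN1q0 ndN0q1 pcN1 Cut.none Ext.none)

def k0_mm_011 : ∃ t, chk3 f_mm_011 t 1 1 1 = true :=
  ⟨(l 5), by decide +kernel⟩

theorem c_mm_011 : CertN 0 536870912 536870912 536870912 201326592 134217728 3 false false false .pnn 0 1 1
    ndN1q0 ndN0q1 pcN1 Cut.none Ext.none :=
  certN0 (fam := false) (s1 := false) (s2 := false) (a := 0) (b := 1) (c := 1) (cn := .pnn) (n1 := ndN1q0) (n2 := ndN0q1) (pc := pcN1) (cut := Cut.none) (xt := Ext.none) (P1 := 0) (W1 := 536870912) (P2 := 536870912) (W2 := 536870912) (P3 := 201326592) (W3 := 134217728) (N0 := 3)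
    rfl k0_mm_011

noncomputable def f_mm_012 : ℕ → ℕ → ℕ → ℕ → Bool := onCell 0 536870912 0 536870912 201326592 134217728
    (rowN 3 0 false false false .pnp 0 1 2 (qsf 0 536870912 0 536870912 1) ndN1q0 ndN0q2 pcN1 Cut.none Ext.none)

def k0_mm_012 : ∃ t, chk3 f_mm_012 t 1 1 1 = true :=
  ⟨(l 5), by decide +kernel⟩

theorem c_mm_012 : CertN 0 536870912 0 536870912 201326592 134217728 3 false false false .pnp 0 1 2
    ndN1q0 ndN0q2 pcN1 Cut.none Ext.none :=
  certN0 (fam := false) (s1 := false) (s2 := false) (a := 0) (b := 1) (c := 2) (cn := .pnp) (n1 := ndN1q0) (n2 := ndN0q2) (pc := pcN1) (cut := Cut.none) (xt := Ext.none) (P1 := 0) (W1 := 536870912) (P2 := 0) (W2 := 536870912) (P3 := 201326592) (W3 := 134217728) (N0 := 3)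
    rfl k0_mm_012

noncomputable def f_mm_022 : ℕ → ℕ → ℕ → ℕ → Bool := onCell 0 536870912 0 536870912 201326592 134217728
    (rowN 3 0 false false false .pp 0 2 2 (qsf 0 536870912 0 536870912 2) ndN1q0 ndN0q2 pcN2 Cut.none Ext.none)

def k0_mm_022 : ∃ t, chk3 f_mm_022 t 1 1 1 = true :=
  ⟨(l 5), by decide +kernel⟩

theorem c_mm_022 : CertN 0 536870912 0 536870912 201326592 134217728 3 false false false .pp 0 2 2
    ndN1q0 ndN0q2 pcN2 Cut.none Ext.none :=
  certN0 (fam := false) (s1 := false) (s2 := false) (a := 0) (b := 2) (c := 2) (cn := .pp) (n1 := ndN1q0) (n2 := ndN0q2) (pc := pcN2) (cut := Cut.none) (xt := Ext.none) (P1 := 0) (W1 := 536870912) (P2 := 0) (W2 := 536870912) (P3 := 201326592) (W3 := 134217728) (N0 := 3)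
    rfl k0_mm_022

noncomputable def f_mm_101 : ℕ → ℕ → ℕ → ℕ → Bool := onCell 536870912 536870912 536870912 536870912 201326592 134217728
    (rowN 3 0 false false false .npn 1 0 1 (qsf 536870912 536870912 536870912 536870912 0) ndN1q1 ndN0q1 pcN0 Cut.none Ext.none)

def k0_mm_101 : ∃ t, chk3 f_mm_101 t 1 1 1 = true :=
  ⟨(l 3), by decide +kernel⟩

theorem c_mm_101 : CertN 536870912 536870912 536870912 536870912 201326592 134217728 3 false false false .npn 1 0 1
    ndN1q1 ndN0q1 pcN0 Cut.none Ext.none :=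
  certN0 (fam := false) (s1 := false) (s2 := false) (a := 1) (b := 0) (c := 1) (cn := .npn) (n1 := ndN1q1) (n2 := ndN0q1) (pc := pcN0) (cut := Cut.none) (xt := Ext.none) (P1 := 536870912) (W1 := 536870912) (P2 := 536870912) (W2 := 536870912) (P3 := 201326592) (W3 := 134217728) (N0 := 3)
    rfl k0_mm_101

noncomputable def f_mm_102 : ℕ → ℕ → ℕ → ℕ → Bool := onCell 536870912 536870912 0 536870912 201326592 134217728
    (rowN 3 0 false false false .npp 1 0 2 (qsf 536870912 536870912 0 536870912 0) ndN1q1 ndN0q2 pcN0 Cut.none Ext.none)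

def k0_mm_102 : ∃ t, chk3 f_mm_102 t 1 1 1 = true :=
  ⟨(l 5), by decide +kernel⟩

theorem c_mm_102 : CertN 536870912 536870912 0 536870912 201326592 134217728 3 false false false .npp 1 0 2
    ndN1q1 ndN0q2 pcN0 Cut.none Ext.none :=
  certN0 (fam := false) (s1 := false) (s2 := false) (a := 1) (b := 0) (c := 2) (cn := .npp) (n1 := ndN1q1) (n2 := ndN0q2) (pc := pcN0) (cut := Cut.none) (xt := Ext.none) (P1 := 536870912) (W1 := 536870912) (P2 := 0) (W2 := 536870912) (P3 := 201326592) (W3 := 134217728) (N0 := 3)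
    rfl k0_mm_102

noncomputable def f_mm_112 : ℕ → ℕ → ℕ → ℕ → Bool := onCell 536870912 536870912 0 536870912 201326592 134217728
    (rowN 3 0 false false false .dn 1 1 2 (qsf 536870912 536870912 0 536870912 1) ndN1q1 ndN0q2 pcN1 Cut.none Ext.none)

def k0_mm_112 : ∃ t, chk3 f_mm_112 t 1 1 1 = true :=
  ⟨(l 5), by decide +kernel⟩

theorem c_mm_112 : CertN 536870912 536870912 0 536870912 201326592 134217728 3 false false false .dn 1 1 2
    ndN1q1 ndN0q2 pcN1 Cut.none Ext.none :=
  certN0 (fam := false) (s1 := false) (s2 := false) (a := 1) (b := 1) (c := 2) (cn := .dn) (n1 := ndN1q1) (n2 := ndN0q2) (pc := pcN1) (cut := Cut.none) (xt := Ext.none) (P1 := 536870912) (W1 := 536870912) (P2 := 0) (W2 := 536870912) (P3 := 201326592) (W3 := 134217728) (N0 := 3)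
    rfl k0_mm_112

noncomputable def f_mm_202_a : ℕ → ℕ → ℕ → ℕ → Bool := onCell 0 536870912 0 536870912 201326592 134217728
    (rowN 3 0 false false false .pp 2 0 2 (qsf 0 536870912 0 536870912 0) ndN1q2a ndN0q2 pcN0 Cut.none Ext.none)

def k0_mm_202_a : ∃ t, chk3 f_mm_202_a t 1 1 1 = true :=
  ⟨(l 3), by decide +kernel⟩

theorem c_mm_202_a : CertN 0 536870912 0 536870912 201326592 134217728 3 false false false .pp 2 0 2
    ndN1q2a ndN0q2 pcN0 Cut.none Ext.none :=
  certN0 (fam := false) (s1 := false) (s2 := false) (a := 2) (b := 0) (c := 2) (cn := .pp) (n1 := ndN1q2a) (n2 := ndN0q2) (pc := pcN0) (cut := Cut.none) (xt := Ext.none) (P1 := 0) (W1 := 536870912) (P2 := 0) (W2 := 536870912) (P3 := 201326592) (W3 := 134217728) (N0 := 3)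
    rfl k0_mm_202_a

noncomputable def f_mm_202_b : ℕ → ℕ → ℕ → ℕ → Bool := onCell 1239849684 370763052 0 536870912 201326592 134217728
    (rowN 3 0 false false false .pp 2 0 2 (qsf 1239849684 370763052 0 536870912 0) ndN1q2b ndN0q2 pcN0 Cut.none Ext.none)

def k0_mm_202_b : ∃ t, chk3 f_mm_202_b t 1 1 1 = true :=
  ⟨(l 3), by decide +kernel⟩

theorem c_mm_202_b : CertN 1239849684 370763052 0 536870912 201326592 134217728 3 false false false .pp 2 0 2
    ndN1q2b ndN0q2 pcN0 Cut.none Ext.none :=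
  certN0 (fam := false) (s1 := false) (s2 := false) (a := 2) (b := 0) (c := 2) (cn := .pp) (n1 := ndN1q2b) (n2 := ndN0q2) (pc := pcN0) (cut := Cut.none) (xt := Ext.none) (P1 := 1239849684) (W1 := 370763052) (P2 := 0) (W2 := 536870912) (P3 := 201326592) (W3 := 134217728) (N0 := 3)
    rfl k0_mm_202_b

end Pool.Agent.Strip051.G.I3_16_5_16.Tab.C.NB10

namespace Pool.Agent.Strip051.G.I3_16_5_16.Tab.C.NB11

open Pool.Agent.Strip051.PB Pool.Agent.Strip051.PB.T
open Pool.Agent.Strip051.G.I3_16_5_16.Tab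

noncomputable def f_pp_001 : ℕ → ℕ → ℕ → ℕ → Bool := onCell 0 536870912 536870912 536870912 201326592 134217728
    (rowN 3 0 false true true .up 0 0 1 (qsf 0 536870912 536870912 536870912 0) ndN1q0 ndN1q1 pcN0 Cut.none Ext.none)

def k0_pp_001 : ∃ t, chk3 f_pp_001 t 1 1 1 = true :=
  ⟨(l 3), by decide +kernel⟩

theorem c_pp_001 : CertN 0 536870912 536870912 536870912 201326592 134217728 3 false true true .up 0 0 1
    ndN1q0 ndN1q1 pcN0 Cut.none Ext.none :=
  certN0 (fam := false) (s1 := true) (s2 := true) (a := 0) (b := 0) (c := 1) (cn := .up) (n1 := ndN1q0) (n2 := ndN1q1) (pc := pcN0) (cut := Cut.none) (xt := Ext.none) (P1 := 0) (W1 := 536870912) (P2 := 536870912) (W2 := 536870912) (P3 := 201326592) (W3 := 134217728) (N0 := 3)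
    rfl k0_pp_001

noncomputable def f_pp_011 : ℕ → ℕ → ℕ → ℕ → Bool := onCell 0 536870912 536870912 536870912 201326592 134217728
    (rowN 3 0 false true true .pnn 0 1 1 (qsf 0 536870912 536870912 536870912 1) ndN1q0 ndN1q1 pcN1 Cut.none Ext.none)

def k0_pp_011 : ∃ t, chk3 f_pp_011 t 1 1 1 = true :=
  ⟨(l 3), by decide +kernel⟩

theorem c_pp_011 : CertN 0 536870912 536870912 536870912 201326592 134217728 3 false true true .pnn 0 1 1
    ndN1q0 ndN1q1 pcN1 Cut.none Ext.none :=
  certN0 (fam := false) (s1 := true) (s2 := true) (a := 0) (b := 1) (c := 1) (cn := .pnn) (n1 := ndN1q0) (n2 := ndN1q1) (pc := pcN1) (cut := Cut.none) (xt := Ext.none) (P1 := 0) (W1 := 536870912) (P2 := 536870912) (W2 := 536870912) (P3 := 201326592) (W3 := 134217728) (N0 := 3)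
    rfl k0_pp_011

noncomputable def cut_pp_012_a : Cut := Cut.of [[⟨0, 0, 0, 67108864⟩, ⟨1, 1, 0, 67108864⟩, ⟨2, 1, 0, 67108864⟩]]

noncomputable def f_pp_012_a : ℕ → ℕ → ℕ → ℕ → Bool := onCell 536870912 536870912 0 536870912 201326592 134217728
    (rowN 3 2 false true true .pnp 0 1 2 (qsf 0 536870912 0 536870912 1) ndN1q0 ndN1q2a pcN1 cut_pp_012_a Ext.none)

def k0_pp_012_a : ∃ t, chk3 f_pp_012_a t 1 1 1 = true :=
  ⟨(a (a (b (b (l 2) (b (l 2) (l 3))) (l 3)) (b (a (b (l 17090864) (a (l 170893332119) (l 168208872087))) (b (l 16883488) (l 17185880))) (b (a (l 3) (b (l 166061803559) (l 3))) (l 3)))) (a (b (a (l 17070888) (b (l 16797224) (l 16796984))) (b (a (l 171430344775) (l 31843703911)) (a (l 3) (b (l 190757512119) (l 3))))) (b (a (b (l 16717856) (l 16780968)) (b (l 16680024) (a (l 16668608) (l 16651376)))) (b (b (a (l 16780832) (a (l 16697792) (l 16667768))) (a (l 16940248) (a (l 16734120) (a (l 16702104) (l 16690640))))) (a (b (b (l 16896096) (l 16956952)) (b (l 203105374631)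 (l 3))) (b (a (c (l 16832096) (l 16844792)) (a (l 16801608) (b (l 16717328) (l 16756960)))) (b (a (a (l 16829088) (l 16810760)) (a (b (l 16764536) (l 6)) (l 6))) (a (b (l 212231959415) (l 3)) (l 6))))))))), by decide +kernel⟩

theorem c_pp_012_a : CertN 0 536870912 0 536870912 201326592 134217728 3 false true true .pnp 0 1 2
    ndN1q0 ndN1q2a pcN1 cut_pp_012_a Ext.none :=
  certN2 (fam := false) (s1 := true) (s2 := true) (a := 0) (b := 1) (c := 2) (cn := .pnp) (n1 := ndN1q0) (n2 := ndN1q2a) (pc := pcN1) (cut := cut_pp_012_a) (xt := Ext.none) (P1 := 0) (W1 := 536870912) (P2 := 0) (W2 := 536870912) (P3 := 201326592) (W3 := 134217728) (N0 := 3)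
    rfl (fun _ => rfl) k0_pp_012_a

noncomputable def cut_pp_012_b : Cut := Cut.of [[⟨0, 0, 0, 67108864⟩, ⟨1, 1, 0, 67108864⟩, ⟨2, 1, 0, 67108864⟩]]

noncomputable def f_pp_012_b : ℕ → ℕ → ℕ → ℕ → Bool := onCell 536870912 536870912 1239849684 370763052 201326592 134217728
    (rowN 3 2 false true true .pnp 0 1 2 (qsf 0 536870912 1239849684 370763052 1) ndN1q0 ndN1q2b pcN1 cut_pp_012_b Ext.none)

def k0_pp_012_b : ∃ t, chk3 f_pp_012_b t 1 1 1 = true :=
  ⟨(a (a (l 2) (b (a (l 17084768) (l 17012208)) (l 2))) (a (b (b (a (l 16841304) (l 16862816)) (l 16973216)) (l 17052000)) (b (a (b (a (l 16808160) (l 16698120)) (l 17022728)) (b (b (a (l 16663856) (l 16647296)) (l 16548272)) (a (l 16959744) (l 16841272)))) (a (l 17241056) (l 17372200))))), by decide +kernel⟩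

theorem c_pp_012_b : CertN 0 536870912 1239849684 370763052 201326592 134217728 3 false true true .pnp 0 1 2
    ndN1q0 ndN1q2b pcN1 cut_pp_012_b Ext.none :=
  certN2 (fam := false) (s1 := true) (s2 := true) (a := 0) (b := 1) (c := 2) (cn := .pnp) (n1 := ndN1q0) (n2 := ndN1q2b) (pc := pcN1) (cut := cut_pp_012_b) (xt := Ext.none) (P1 := 0) (W1 := 536870912) (P2 := 1239849684) (W2 := 370763052) (P3 := 201326592) (W3 := 134217728) (N0 := 3)
    rfl (fun _ => rfl) k0_pp_012_b

noncomputable def cut_pp_022_a : Cut := Cut.of [[⟨0, 0, 0, 67108864⟩, ⟨1, 1, 0, 67108864⟩, ⟨2, 1, 0, 67108864⟩]]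

noncomputable def f_pp_022_a : ℕ → ℕ → ℕ → ℕ → Bool := onCell 0 536870912 0 536870912 201326592 134217728
    (rowN 3 0 false true true .pp 0 2 2 (qsf 0 536870912 0 536870912 2) ndN1q0 ndN1q2a pcN2 cut_pp_022_a Ext.none)

def k0_pp_022_a : ∃ t, chk3 f_pp_022_a t 8 4 1 = true :=
  ⟨(a (a (b (a (c (a (b (a (b (c (l 16534712) (l 16525960)) (l 16483840)) (l 16465768)) (c (l 16529056) (l 16531008))) (b (l 16471080) (l 16494352))) (a (b (a (a (b (l 16504576) (l 16463456)) (l 16464512)) (l 16466936)) (c (l 16531872) (l 16531616))) (b (l 16471712) (l 16474512)))) (b (c (l 16501960) (l 16480704)) (c (l 16525280) (l 16504552)))) (b (a (a (c (b (l 16489992) (l 16492280)) (l 16535552)) (c (l 16498280) (l 16478800))) (a (c (l 16484240) (l 16485104)) (c (l 16491016) (l 16491296)))) (a (c (a (a (l 16515792) (l 16519440)) (l 16524728)) (b (l 16521688) (l 16524736))) (c (l 16576048) (b (l 16492040) (l 16495168)))))) (a (c (b (b (l 16493416) (l 16495888)) (b (l 16520616) (l 16589560))) (b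 (b (l 16492104) (l 16495128)) (b (l 16499360) (l 16568576)))) (b (b (c (l 16484568) (l 16503336)) (l 16591760)) (b (b (l 16552872) (l 16576008)) (b (l 16578280) (l 16518888)))))) (b (l 16549624) (l 16600000))), by decide +kernel⟩

def k1_pp_022_a : ∃ t, chk3 f_pp_022_a t 8 5 1 = true :=
  ⟨(b (a (a (c (b (a (b (b (l 16525224) (l 16527032)) (b (l 16528928) (l 16531000))) (b (l 16518432) (l 16543904))) (a (a (c (l 16554904) (l 16556896)) (c (l 16561360) (l 16563136))) (b (l 16569152) (l 16574424)))) (b (a (a (l 16547904) (b (l 16489840) (l 16493712))) (a (l 16518648) (l 16525360))) (a (a (l 16558112) (l 16584992)) (a (l 16591496) (b (l 16510752) (l 16515880)))))) (a (b (b (a (l 16551168) (l 16556368)) (a (l 16554392) (l 16517576))) (b (l 16518240) (l 16522632))) (l 16546968))) (c (l 16525608) (l 16548840))) (c (a (a (b (a (b (b (l 16547536) (l 16550928)) (a (l 16553472) (l 16537872))) (b (l 16579880) (l 16524376))) (a (a (b (l 16560000) (l 16525168)) (l 16526824)) (l 16533960)))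 (l 16540928)) (l 16566736)) (a (a (b (a (b (l 16571184) (c (l 16577480) (l 16577296))) (a (l 16602752) (l 16524912))) (a (b (b (l 16561688) (l 16523840)) (l 16528808)) (l 16535352))) (l 16542880)) (l 16570272)))), by decide +kernel⟩

def k2_pp_022_a : ∃ t, chk3 f_pp_022_a t 9 2 1 = true :=
  ⟨(b (c (l 16562640) (l 16605376)) (a (b (l 16585088) (l 16604152)) (b (l 16622408) (l 16640648)))), by decide +kernel⟩

def k3_pp_022_a : ∃ t, chk3 f_pp_022_a t 5 2 1 = true :=
  ⟨(a (b (l 16717984) (b (l 16658152) (l 16803656))) (l 1)), by decide +kernel⟩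

def k4_pp_022_a : ∃ t, chk3 f_pp_022_a t 2 3 1 = true :=
  ⟨(a (b (a (a (b (c (a (c (a (l 16589056) (l 16577848)) (l 16589464)) (l 16614864)) (a (a (l 16584744) (l 16579760)) (l 16574512))) (c (a (a (c (b (l 16613008) (l 16645704)) (b (l 16609896) (l 16643088))) (l 16663248)) (l 16670128)) (a (a (c (l 16655696) (l 16642552)) (l 16647560)) (l 16660648)))) (b (b (l 16656832) (l 16676936)) (a (c (l 16660664) (l 16640928)) (l 16688104)))) (b (a (l 16641192) (l 16676816)) (a (b (l 16678144) (l 16696568)) (b (l 16716064) (l 1))))) (b (b (a (a (a (a (c (a (c (l 16681832) (l 16677304)) (l 16679888)) (b (l 16665912) (l 16684160))) (c (l 16682424) (l 16678944))) (c (l 16687728) (l 16684720))) (a (l 16705512) (l 16706944))) (a (a (l 16718088) (l 1)) (l 1))) (a (a (l 6) (a (l 6) (b (l 16734328) (l 16738128)))) (l 1))) (a (a (l 6) (a (l 6) (l 1))) (l 1)))) (b (l 1) (l 1))), by decide +kernel⟩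

def k5_pp_022_a : ∃ t, chk3 f_pp_022_a t 3 1 1 = true :=
  ⟨(l 1), by decide +kernel⟩

theorem s6_pp_022_a : ∃ t, chk3 f_pp_022_a t 8 2 1 = true := ex3_b k0_pp_022_a k1_pp_022_a

theorem s7_pp_022_a : ∃ t, chk3 f_pp_022_a t 4 2 1 = true := ex3_a s6_pp_022_a k2_pp_022_a

theorem s8_pp_022_a : ∃ t, chk3 f_pp_022_a t 2 2 1 = true := ex3_a s7_pp_022_a k3_pp_022_a

theorem s9_pp_022_a : ∃ t, chk3 f_pp_022_a t 2 1 1 = true := ex3_b s8_pp_022_a k4_pp_022_a

theorem s10_pp_022_a : ∃ t, chk3 f_pp_022_a t 1 1 1 = true := ex3_a s9_pp_022_a k5_pp_022_a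

theorem c_pp_022_a : CertN 0 536870912 0 536870912 201326592 134217728 3 false true true .pp 0 2 2
    ndN1q0 ndN1q2a pcN2 cut_pp_022_a Ext.none :=
  certN0 (fam := false) (s1 := true) (s2 := true) (a := 0) (b := 2) (c := 2) (cn := .pp) (n1 := ndN1q0) (n2 := ndN1q2a) (pc := pcN2) (cut := cut_pp_022_a) (xt := Ext.none) (P1 := 0) (W1 := 536870912) (P2 := 0) (W2 := 536870912) (P3 := 201326592) (W3 := 134217728) (N0 := 3)
    rfl s10_pp_022_a

noncomputable def cut_pp_022_b : Cut := Cut.of [[⟨0, 0, 0, 67108864⟩, ⟨1, 1, 0, 67108864⟩, ⟨2, 1, 0, 67108864⟩]]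

noncomputable def f_pp_022_b : ℕ → ℕ → ℕ → ℕ → Bool := onCell 0 536870912 1073741824 536870912 201326592 134217728
    (rowN 3 1 false true true .pp 0 2 2 (qsf 0 536870912 1239849684 370763052 2) ndN1q0 ndN1q2b pcN2 cut_pp_022_b Ext.none)

def k0_pp_022_b : ∃ t, chk3 f_pp_022_b t 2 2 1 = true :=
  ⟨(a (b (a (b (l 1) (b (a (l 1) (l 219613511719)) (b (a (l 1) (l 191159107527)) (a (b (l 1) (l 234108869383)) (b (l 16540120) (l 16573208)))))) (b (b (l 218003044919) (l 191696268327)) (b (a (l 16555632) (l 16556368)) (b (l 16531352) (b (l 16519112) (l 16510536)))))) (b (b (b (a (c (a (l 242698830343) (l 16558528)) (a (b (l 16523712) (l 16530304)) (l 16532648))) (c (l 16499400) (l 16488952))) (a (b (a (c (l 247530538615) (l 16539296)) (l 16497792)) (c (b (a (l 16509792) (l 16469224)) (a (b (l 16504688) (a (l 16500808) (l 16459312))) (l 16483928))) (b (a (l 16466928) (l 16464344)) (a (a (b (l 16462904) (l 16480304)) (l 16522664)) (l 16458232))))) (b (l 16479376) (c (l 16702824) (l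 16546336))))) (a (c (a (b (a (l 16482728) (l 16441800)) (a (l 16454072) (l 16413992))) (l 16489264)) (a (b (l 16504432) (l 16456512)) (l 16486792))) (c (l 16924864) (l 16427672)))) (a (a (b (c (b (l 16425408) (l 16391912)) (b (l 16407544) (l 16378600))) (b (c (l 16630744) (l 16327832)) (c (l 16837616) (l 16297096)))) (b (c (l 16727168) (l 16394000)) (c (l 17078432) (l 16318248)))) (b (c (l 17216080) (l 16380904)) (c (l 17447064) (l 16631600)))))) (b (b (a (a (l 16668776) (l 16608864)) (l 16617832)) (b (l 16661544) (b (l 16679008) (a (l 16627560) (l 17191024))))) (b (b (b (a (l 16773760) (l 17277888)) (a (b (l 16873888) (l 16936656)) (l 17357160))) (a (l 17079416) (l 17460272))) (a (b (l 17276376) (l 17438840)) (l 17632944))))), by decide +kernel⟩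

def k1_pp_022_b : ∃ t, chk3 f_pp_022_b t 2 3 1 = true :=
  ⟨(b (b (a (a (a (b (c (a (l 16795400) (l 17167944)) (l 16333048)) (c (l 17376064) (l 16474688))) (b (c (l 17350888) (l 16461512)) (c (l 17564480) (l 16757944)))) (b (c (l 17631448) (l 16882464)) (l 17436248))) (a (l 17631144) (l 17804912))) (a (a (c (b (l 17664872) (l 17813720)) (b (a (l 16779168) (l 16996584)) (l 17003336))) (c (l 17947576) (l 17328456))) (a (l 17816024) (l 17928176)))) (b (a (a (c (b (l 17931352) (l 18027952)) (b (l 17275728) (l 17411312))) (l 17837344)) (l 17971728)) (a (a (c (l 18141960) (l 17575408)) (l 17966544)) (l 2)))), by decide +kernel⟩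

def k2_pp_022_b : ∃ t, chk3 f_pp_022_b t 3 1 1 = true :=
  ⟨(b (b (b (a (a (l 17134600) (l 17464504)) (l 17720784)) (a (b (l 17503912) (b (l 17582344) (l 17629232))) (b (l 17803200) (l 17844624)))) (b (b (a (b (l 17673088) (l 17713024)) (l 17885864)) (l 18028544)) (a (l 17850184) (l 2)))) (b (b (a (l 17938824) (l 2)) (l 2)) (l 2))), by decide +kernel⟩

theorem s3_pp_022_b : ∃ t, chk3 f_pp_022_b t 2 1 1 = true := ex3_b k0_pp_022_b k1_pp_022_b

theorem s4_pp_022_b : ∃ t, chk3 f_pp_022_b t 1 1 1 = true := ex3_a s3_pp_022_b k2_pp_022_b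

theorem c_pp_022_b : CertN 0 536870912 1239849684 370763052 201326592 134217728 3 false true true .pp 0 2 2
    ndN1q0 ndN1q2b pcN2 cut_pp_022_b Ext.none :=
  certN1 (fam := false) (s1 := true) (s2 := true) (a := 0) (b := 2) (c := 2) (cn := .pp) (n1 := ndN1q0) (n2 := ndN1q2b) (pc := pcN2) (cut := cut_pp_022_b) (xt := Ext.none) (P1 := 0) (W1 := 536870912) (P2 := 1239849684) (W2 := 370763052) (P3 := 201326592) (W3 := 134217728) (N0 := 3)
    rfl (fun _ => rfl) s4_pp_022_b

noncomputable def f_pp_023 : ℕ → ℕ → ℕ → ℕ → Bool := onCell 1073741824 536870912 1610612736 536870912 201326592 134217728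
    (rowN 3 2 false true true .up 0 2 3 (qsf 0 536870912 1610612736 536870912 2) ndN1q0 ndN1q3 pcN2 Cut.none Ext.none)

def k0_pp_023 : ∃ t, chk3 f_pp_023 t 1 1 1 = true :=
  ⟨(a (b (a (a (l 17888320) (a (l 17905960) (l 18163024))) (a (a (b (l 17872832) (l 17943648)) (l 17926312)) (l 17976248))) (a (l 2) (a (l 2) (l 17902520)))) (a (b (b (a (l 17891376) (l 17906528)) (l 18199080)) (b (l 17931504) (l 17846920))) (b (b (a (l 17923480) (l 17939128)) (l 17974616)) (l 17839288)))), by decide +kernel⟩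

theorem c_pp_023 : CertN 0 536870912 1610612736 536870912 201326592 134217728 3 false true true .up 0 2 3
    ndN1q0 ndN1q3 pcN2 Cut.none Ext.none :=
  certN2 (fam := false) (s1 := true) (s2 := true) (a := 0) (b := 2) (c := 3) (cn := .up) (n1 := ndN1q0) (n2 := ndN1q3) (pc := pcN2) (cut := Cut.none) (xt := Ext.none) (P1 := 0) (W1 := 536870912) (P2 := 1610612736) (W2 := 536870912) (P3 := 201326592) (W3 := 134217728) (N0 := 3)
    rfl (fun _ => rfl) k0_pp_023

noncomputable def f_pp_033 : ℕ → ℕ → ℕ → ℕ → Bool := onCell 1610612736 536870912 1610612736 536870912 201326592 134217728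
    (rowN 3 2 false true true .pnn 0 3 3 (qsf 0 536870912 1610612736 536870912 3) ndN1q0 ndN1q3 pcN3 Cut.none Ext.none)

def k0_pp_033 : ∃ t, chk3 f_pp_033 t 1 1 1 = true :=
  ⟨(a (b (a (b (b (a (c (l 17989392) (l 17722640)) (c (l 660387783639) (l 657165533047))) (a (l 17829440) (l 18013624))) (a (l 17778984) (l 17828656))) (b (a (b (l 1) (l 666293135639)) (l 1)) (a (l 571803750135) (b (l 706021562199) (l 17868504))))) (b (a (a (l 17728552) (l 17751368)) (a (l 17753208) (l 141971260215))) (a (a (l 17654760) (l 17624576)) (l 4)))) (b (a (b (l 1) (a (b (l 1) (l 726422582855)) (l 1))) (l 1)) (b (a (a (l 4) (l 4)) (a (b (l 1) (l 4)) (l 1))) (l 4)))), by decide +kernel⟩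

theorem c_pp_033 : CertN 0 536870912 1610612736 536870912 201326592 134217728 3 false true true .pnn 0 3 3
    ndN1q0 ndN1q3 pcN3 Cut.none Ext.none :=
  certN2 (fam := false) (s1 := true) (s2 := true) (a := 0) (b := 3) (c := 3) (cn := .pnn) (n1 := ndN1q0) (n2 := ndN1q3) (pc := pcN3) (cut := Cut.none) (xt := Ext.none) (P1 := 0) (W1 := 536870912) (P2 := 1610612736) (W2 := 536870912) (P3 := 201326592) (W3 := 134217728) (N0 := 3)
    rfl (fun _ => rfl) k0_pp_033

noncomputable def f_pp_101 : ℕ → ℕ → ℕ → ℕ → Bool := onCell 536870912 536870912 536870912 536870912 201326592 134217728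
    (rowN 3 0 false true true .npn 1 0 1 (qsf 536870912 536870912 536870912 536870912 0) ndN1q1 ndN1q1 pcN0 Cut.none Ext.none)

def k0_pp_101 : ∃ t, chk3 f_pp_101 t 1 1 1 = true :=
  ⟨(l 3), by decide +kernel⟩

theorem c_pp_101 : CertN 536870912 536870912 536870912 536870912 201326592 134217728 3 false true true .npn 1 0 1
    ndN1q1 ndN1q1 pcN0 Cut.none Ext.none :=
  certN0 (fam := false) (s1 := true) (s2 := true) (a := 1) (b := 0) (c := 1) (cn := .npn) (n1 := ndN1q1) (n2 := ndN1q1) (pc := pcN0) (cut := Cut.none) (xt := Ext.none) (P1 := 536870912) (W1 := 536870912) (P2 := 536870912) (W2 := 536870912) (P3 := 201326592) (W3 := 134217728) (N0 := 3)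
    rfl k0_pp_101

noncomputable def f_pp_102_a : ℕ → ℕ → ℕ → ℕ → Bool := onCell 0 536870912 0 536870912 201326592 134217728
    (rowN 3 2 false true true .npp 1 0 2 (qsf 536870912 536870912 0 536870912 0) ndN1q1 ndN1q2a pcN0 Cut.none Ext.none)

def k0_pp_102_a : ∃ t, chk3 f_pp_102_a t 1 1 1 = true :=
  ⟨(b (a (l 3) (a (l 3) (l 3))) (l 3)), by decide +kernel⟩

theorem c_pp_102_a : CertN 536870912 536870912 0 536870912 201326592 134217728 3 false true true .npp 1 0 2
    ndN1q1 ndN1q2a pcN0 Cut.none Ext.none :=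
  certN2 (fam := false) (s1 := true) (s2 := true) (a := 1) (b := 0) (c := 2) (cn := .npp) (n1 := ndN1q1) (n2 := ndN1q2a) (pc := pcN0) (cut := Cut.none) (xt := Ext.none) (P1 := 536870912) (W1 := 536870912) (P2 := 0) (W2 := 536870912) (P3 := 201326592) (W3 := 134217728) (N0 := 3)
    rfl (fun _ => rfl) k0_pp_102_a

noncomputable def f_pp_102_b : ℕ → ℕ → ℕ → ℕ → Bool := onCell 0 536870912 1239849684 370763052 201326592 134217728
    (rowN 3 2 false true true .npp 1 0 2 (qsf 536870912 536870912 1239849684 370763052 0) ndN1q1 ndN1q2b pcN0 Cut.none Ext.none)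

def k0_pp_102_b : ∃ t, chk3 f_pp_102_b t 1 1 1 = true :=
  ⟨(a (l 3) (a (b (l 3) (l 3)) (b (b (l 3) (l 3)) (l 3)))), by decide +kernel⟩

theorem c_pp_102_b : CertN 536870912 536870912 1239849684 370763052 201326592 134217728 3 false true true .npp 1 0 2
    ndN1q1 ndN1q2b pcN0 Cut.none Ext.none :=
  certN2 (fam := false) (s1 := true) (s2 := true) (a := 1) (b := 0) (c := 2) (cn := .npp) (n1 := ndN1q1) (n2 := ndN1q2b) (pc := pcN0) (cut := Cut.none) (xt := Ext.none) (P1 := 536870912) (W1 := 536870912) (P2 := 1239849684) (W2 := 370763052) (P3 := 201326592) (W3 := 134217728) (N0 := 3)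
    rfl (fun _ => rfl) k0_pp_102_b

noncomputable def f_pp_112_a : ℕ → ℕ → ℕ → ℕ → Bool := onCell 536870912 536870912 0 536870912 201326592 134217728
    (rowN 3 0 false true true .dn 1 1 2 (qsf 536870912 536870912 0 536870912 1) ndN1q1 ndN1q2a pcN1 Cut.none Ext.none)

def k0_pp_112_a : ∃ t, chk3 f_pp_112_a t 1 1 1 = true :=
  ⟨(a (b (a (b (a (c (l 17279296) (l 98953109591)) (b (l 113448486407) (l 140292103735))) (a (b (a (l 144586852823) (l 3)) (l 3)) (l 3))) (a (a (b (l 145123708599) (l 3)) (l 3)) (l 1))) (l 3)) (l 1)), by decide +kernel⟩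

theorem c_pp_112_a : CertN 536870912 536870912 0 536870912 201326592 134217728 3 false true true .dn 1 1 2
    ndN1q1 ndN1q2a pcN1 Cut.none Ext.none :=
  certN0 (fam := false) (s1 := true) (s2 := true) (a := 1) (b := 1) (c := 2) (cn := .dn) (n1 := ndN1q1) (n2 := ndN1q2a) (pc := pcN1) (cut := Cut.none) (xt := Ext.none) (P1 := 536870912) (W1 := 536870912) (P2 := 0) (W2 := 536870912) (P3 := 201326592) (W3 := 134217728) (N0 := 3)
    rfl k0_pp_112_a

noncomputable def f_pp_112_b : ℕ → ℕ → ℕ → ℕ → Bool := onCell 536870912 536870912 1239849684 370763052 201326592 134217728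
    (rowN 3 2 false true true .dn 1 1 2 (qsf 536870912 536870912 1239849684 370763052 1) ndN1q1 ndN1q2b pcN1 Cut.none Ext.none)

def k0_pp_112_b : ∃ t, chk3 f_pp_112_b t 1 1 1 = true :=
  ⟨(a (a (b (a (b (c (l 135997496087) (a (l 17085416) (l 17085216))) (a (l 17244824) (l 17242456))) (b (c (l 17271320) (l 17100888)) (l 17246312))) (a (b (l 202032762231) (l 3)) (b (l 17316656) (l 17393264)))) (b (a (b (l 17228376) (l 17270824)) (l 233037088871)) (a (l 17334800) (l 17337280)))) (a (b (b (l 1) (l 17409592)) (l 17373160)) (b (l 1) (l 17482408)))), by decide +kernel⟩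

theorem c_pp_112_b : CertN 536870912 536870912 1239849684 370763052 201326592 134217728 3 false true true .dn 1 1 2
    ndN1q1 ndN1q2b pcN1 Cut.none Ext.none :=
  certN2 (fam := false) (s1 := true) (s2 := true) (a := 1) (b := 1) (c := 2) (cn := .dn) (n1 := ndN1q1) (n2 := ndN1q2b) (pc := pcN1) (cut := Cut.none) (xt := Ext.none) (P1 := 536870912) (W1 := 536870912) (P2 := 1239849684) (W2 := 370763052) (P3 := 201326592) (W3 := 134217728) (N0 := 3)
    rfl (fun _ => rfl) k0_pp_112_b

noncomputable def f_pp_113 : ℕ → ℕ → ℕ → ℕ → Bool := onCell 536870912 536870912 536870912 536870912 201326592 134217728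
    (rowN 3 1 false true true .nn 1 1 3 (qsf 536870912 536870912 1610612736 536870912 1) ndN1q1 ndN1q3 pcN1 Cut.none Ext.none)

def k0_pp_113 : ∃ t, chk3 f_pp_113 t 1 1 1 = true :=
  ⟨(b (b (a (l 1) (a (b (l 1) (l 17269664)) (b (l 3) (l 17409360)))) (a (l 350611785303) (b (a (l 17297744) (l 17372112)) (l 17289536)))) (b (a (l 258270105079) (l 17417032)) (a (l 17354216) (a (l 17129608) (l 16954488))))), by decide +kernel⟩

theorem c_pp_113 : CertN 536870912 536870912 1610612736 536870912 201326592 134217728 3 false true true .nn 1 1 3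
    ndN1q1 ndN1q3 pcN1 Cut.none Ext.none :=
  certN1 (fam := false) (s1 := true) (s2 := true) (a := 1) (b := 1) (c := 3) (cn := .nn) (n1 := ndN1q1) (n2 := ndN1q3) (pc := pcN1) (cut := Cut.none) (xt := Ext.none) (P1 := 536870912) (W1 := 536870912) (P2 := 1610612736) (W2 := 536870912) (P3 := 201326592) (W3 := 134217728) (N0 := 3)
    rfl (fun _ => rfl) k0_pp_113

noncomputable def f_pp_123 : ℕ → ℕ → ℕ → ℕ → Bool := onCell 1073741824 536870912 1610612736 536870912 201326592 134217728
    (rowN 3 2 false true true .npn 1 2 3 (qsf 536870912 536870912 1610612736 536870912 2) ndN1q1 ndN1q3 pcN2 Cut.none Ext.none)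

def k0_pp_123 : ∃ t, chk3 f_pp_123 t 1 1 1 = true :=
  ⟨(a (b (a (a (l 17671968) (a (l 17668448) (l 17656776))) (a (a (l 17647688) (l 17630096)) (l 17600512))) (a (a (l 17362800) (a (l 17399120) (l 17415792))) (a (a (l 17424568) (l 17426968)) (l 17427848)))) (a (b (a (l 17549256) (l 1)) (b (l 17451680) (l 17340720))) (b (l 1) (l 17287256)))), by decide +kernel⟩

theorem c_pp_123 : CertN 536870912 536870912 1610612736 536870912 201326592 134217728 3 false true true .npn 1 2 3
    ndN1q1 ndN1q3 pcN2 Cut.none Ext.none :=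
  certN2 (fam := false) (s1 := true) (s2 := true) (a := 1) (b := 2) (c := 3) (cn := .npn) (n1 := ndN1q1) (n2 := ndN1q3) (pc := pcN2) (cut := Cut.none) (xt := Ext.none) (P1 := 536870912) (W1 := 536870912) (P2 := 1610612736) (W2 := 536870912) (P3 := 201326592) (W3 := 134217728) (N0 := 3)
    rfl (fun _ => rfl) k0_pp_123

noncomputable def f_pp_133 : ℕ → ℕ → ℕ → ℕ → Bool := onCell 1610612736 536870912 1610612736 536870912 201326592 134217728
    (rowN 3 2 false true true .dn 1 3 3 (qsf 536870912 536870912 1610612736 536870912 3) ndN1q1 ndN1q3 pcN3 Cut.none Ext.none)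

def k0_pp_133 : ∃ t, chk3 f_pp_133 t 1 1 1 = true :=
  ⟨(a (b (l 1) (a (a (b (l 1) (l 17056464)) (l 1)) (l 1))) (l 1)), by decide +kernel⟩

theorem c_pp_133 : CertN 536870912 536870912 1610612736 536870912 201326592 134217728 3 false true true .dn 1 3 3
    ndN1q1 ndN1q3 pcN3 Cut.none Ext.none :=
  certN2 (fam := false) (s1 := true) (s2 := true) (a := 1) (b := 3) (c := 3) (cn := .dn) (n1 := ndN1q1) (n2 := ndN1q3) (pc := pcN3) (cut := Cut.none) (xt := Ext.none) (P1 := 536870912) (W1 := 536870912) (P2 := 1610612736) (W2 := 536870912) (P3 := 201326592) (W3 := 134217728) (N0 := 3)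
    rfl (fun _ => rfl) k0_pp_133

noncomputable def f_pp_202_aa : ℕ → ℕ → ℕ → ℕ → Bool := onCell 0 536870912 0 536870912 201326592 134217728
    (rowN 3 0 false true true .pp 2 0 2 (qsf 0 536870912 0 536870912 0) ndN1q2a ndN1q2a pcN0 Cut.none Ext.none)

def k0_pp_202_aa : ∃ t, chk3 f_pp_202_aa t 1 1 1 = true :=
  ⟨(l 3), by decide +kernel⟩

theorem c_pp_202_aa : CertN 0 536870912 0 536870912 201326592 134217728 3 false true true .pp 2 0 2
    ndN1q2a ndN1q2a pcN0 Cut.none Ext.none :=
  certN0 (fam := false) (s1 := true) (s2 := true) (a := 2) (b := 0) (c := 2) (cn := .pp) (n1 := ndN1q2a) (n2 := ndN1q2a) (pc := pcN0) (cut := Cut.none) (xt := Ext.none) (P1 := 0) (W1 := 536870912) (P2 := 0) (W2 := 536870912) (P3 := 201326592) (W3 := 134217728) (N0 := 3)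
    rfl k0_pp_202_aa

noncomputable def f_pp_202_ab : ℕ → ℕ → ℕ → ℕ → Bool := onCell 0 536870912 1239849684 370763052 201326592 134217728
    (rowN 3 0 false true true .pp 2 0 2 (qsf 0 536870912 1239849684 370763052 0) ndN1q2a ndN1q2b pcN0 Cut.none Ext.none)

def k0_pp_202_ab : ∃ t, chk3 f_pp_202_ab t 1 1 1 = true :=
  ⟨(l 3), by decide +kernel⟩

theorem c_pp_202_ab : CertN 0 536870912 1239849684 370763052 201326592 134217728 3 false true true .pp 2 0 2
    ndN1q2a ndN1q2b pcN0 Cut.none Ext.none :=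
  certN0 (fam := false) (s1 := true) (s2 := true) (a := 2) (b := 0) (c := 2) (cn := .pp) (n1 := ndN1q2a) (n2 := ndN1q2b) (pc := pcN0) (cut := Cut.none) (xt := Ext.none) (P1 := 0) (W1 := 536870912) (P2 := 1239849684) (W2 := 370763052) (P3 := 201326592) (W3 := 134217728) (N0 := 3)
    rfl k0_pp_202_ab

noncomputable def f_pp_202_ba : ℕ → ℕ → ℕ → ℕ → Bool := onCell 1239849684 370763052 0 536870912 201326592 134217728
    (rowN 3 0 false true true .pp 2 0 2 (qsf 1239849684 370763052 0 536870912 0) ndN1q2b ndN1q2a pcN0 Cut.none Ext.none)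

def k0_pp_202_ba : ∃ t, chk3 f_pp_202_ba t 1 1 1 = true :=
  ⟨(l 3), by decide +kernel⟩

theorem c_pp_202_ba : CertN 1239849684 370763052 0 536870912 201326592 134217728 3 false true true .pp 2 0 2
    ndN1q2b ndN1q2a pcN0 Cut.none Ext.none :=
  certN0 (fam := false) (s1 := true) (s2 := true) (a := 2) (b := 0) (c := 2) (cn := .pp) (n1 := ndN1q2b) (n2 := ndN1q2a) (pc := pcN0) (cut := Cut.none) (xt := Ext.none) (P1 := 1239849684) (W1 := 370763052) (P2 := 0) (W2 := 536870912) (P3 := 201326592) (W3 := 134217728) (N0 := 3)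
    rfl k0_pp_202_ba

noncomputable def f_pp_202_bb : ℕ → ℕ → ℕ → ℕ → Bool := onCell 1239849684 370763052 1239849684 370763052 201326592 134217728
    (rowN 3 0 false true true .pp 2 0 2 (qsf 1239849684 370763052 1239849684 370763052 0) ndN1q2b ndN1q2b pcN0 Cut.none Ext.none)

def k0_pp_202_bb : ∃ t, chk3 f_pp_202_bb t 1 1 1 = true :=
  ⟨(l 3), by decide +kernel⟩

theorem c_pp_202_bb : CertN 1239849684 370763052 1239849684 370763052 201326592 134217728 3 false true true .pp 2 0 2
    ndN1q2b ndN1q2b pcN0 Cut.none Ext.none :=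
  certN0 (fam := false) (s1 := true) (s2 := true) (a := 2) (b := 0) (c := 2) (cn := .pp) (n1 := ndN1q2b) (n2 := ndN1q2b) (pc := pcN0) (cut := Cut.none) (xt := Ext.none) (P1 := 1239849684) (W1 := 370763052) (P2 := 1239849684) (W2 := 370763052) (P3 := 201326592) (W3 := 134217728) (N0 := 3)
    rfl k0_pp_202_bb

noncomputable def f_pp_203_a : ℕ → ℕ → ℕ → ℕ → Bool := onCell 0 536870912 0 536870912 201326592 134217728
    (rowN 3 1 false true true .up 2 0 3 (qsf 0 536870912 1610612736 536870912 0) ndN1q2a ndN1q3 pcN0 Cut.none Ext.none)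

def k0_pp_203_a : ∃ t, chk3 f_pp_203_a t 1 1 1 = true :=
  ⟨(l 3), by decide +kernel⟩

theorem c_pp_203_a : CertN 0 536870912 1610612736 536870912 201326592 134217728 3 false true true .up 2 0 3
    ndN1q2a ndN1q3 pcN0 Cut.none Ext.none :=
  certN1 (fam := false) (s1 := true) (s2 := true) (a := 2) (b := 0) (c := 3) (cn := .up) (n1 := ndN1q2a) (n2 := ndN1q3) (pc := pcN0) (cut := Cut.none) (xt := Ext.none) (P1 := 0) (W1 := 536870912) (P2 := 1610612736) (W2 := 536870912) (P3 := 201326592) (W3 := 134217728) (N0 := 3)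
    rfl (fun _ => rfl) k0_pp_203_a

noncomputable def f_pp_203_b : ℕ → ℕ → ℕ → ℕ → Bool := onCell 1239849684 370763052 1610612736 536870912 201326592 134217728
    (rowN 3 0 false true true .up 2 0 3 (qsf 1239849684 370763052 1610612736 536870912 0) ndN1q2b ndN1q3 pcN0 Cut.none Ext.none)

def k0_pp_203_b : ∃ t, chk3 f_pp_203_b t 1 1 1 = true :=
  ⟨(l 3), by decide +kernel⟩

theorem c_pp_203_b : CertN 1239849684 370763052 1610612736 536870912 201326592 134217728 3 false true true .up 2 0 3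
    ndN1q2b ndN1q3 pcN0 Cut.none Ext.none :=
  certN0 (fam := false) (s1 := true) (s2 := true) (a := 2) (b := 0) (c := 3) (cn := .up) (n1 := ndN1q2b) (n2 := ndN1q3) (pc := pcN0) (cut := Cut.none) (xt := Ext.none) (P1 := 1239849684) (W1 := 370763052) (P2 := 1610612736) (W2 := 536870912) (P3 := 201326592) (W3 := 134217728) (N0 := 3)
    rfl k0_pp_203_b

noncomputable def cut_pp_213_a : Cut := Cut.of [[⟨0, 1, 0, 57167902⟩, ⟨1, 1, 0, 57167902⟩, ⟨2, 2, 0, 11758673⟩]]

noncomputable def f_pp_213_a : ℕ → ℕ → ℕ → ℕ → Bool := onCell 0 536870912 1610612736 536870912 201326592 134217728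
    (rowN 3 0 false true true .pnn 2 1 3 (qsf 0 536870912 1610612736 536870912 1) ndN1q2a ndN1q3 pcN1 cut_pp_213_a Ext.none)

def k0_pp_213_a : ∃ t, chk3 f_pp_213_a t 1 1 1 = true :=
  ⟨(b (l 3) (a (l 3) (b (l 3) (a (l 3) (b (l 3) (a (l 3) (b (l 3) (b (l 3) (b (l 3) (l 6)))))))))), by decide +kernel⟩

theorem c_pp_213_a : CertN 0 536870912 1610612736 536870912 201326592 134217728 3 false true true .pnn 2 1 3
    ndN1q2a ndN1q3 pcN1 cut_pp_213_a Ext.none :=
  certN0 (fam := false) (s1 := true) (s2 := true) (a := 2) (b := 1) (c := 3) (cn := .pnn) (n1 := ndN1q2a) (n2 := ndN1q3) (pc := pcN1) (cut := cut_pp_213_a) (xt := Ext.none) (P1 := 0) (W1 := 536870912) (P2 := 1610612736) (W2 := 536870912) (P3 := 201326592) (W3 := 134217728) (N0 := 3)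
    rfl k0_pp_213_a

noncomputable def cut_pp_213_b : Cut := Cut.of [[⟨0, 1, 0, 57167902⟩, ⟨1, 1, 0, 57167902⟩, ⟨2, 2, 0, 11758673⟩]]

noncomputable def f_pp_213_b : ℕ → ℕ → ℕ → ℕ → Bool := onCell 1239849684 370763052 1610612736 536870912 201326592 134217728
    (rowN 3 0 false true true .pnn 2 1 3 (qsf 1239849684 370763052 1610612736 536870912 1) ndN1q2b ndN1q3 pcN1 cut_pp_213_b Ext.none)

def k0_pp_213_b : ∃ t, chk3 f_pp_213_b t 1 1 1 = true :=
  ⟨(l 3), by decide +kernel⟩

theorem c_pp_213_b : CertN 1239849684 370763052 1610612736 536870912 201326592 134217728 3 false true true .pnn 2 1 3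
    ndN1q2b ndN1q3 pcN1 cut_pp_213_b Ext.none :=
  certN0 (fam := false) (s1 := true) (s2 := true) (a := 2) (b := 1) (c := 3) (cn := .pnn) (n1 := ndN1q2b) (n2 := ndN1q3) (pc := pcN1) (cut := cut_pp_213_b) (xt := Ext.none) (P1 := 1239849684) (W1 := 370763052) (P2 := 1610612736) (W2 := 536870912) (P3 := 201326592) (W3 := 134217728) (N0 := 3)
    rfl k0_pp_213_b

noncomputable def f_pp_303 : ℕ → ℕ → ℕ → ℕ → Bool := onCell 1610612736 536870912 1610612736 536870912 201326592 134217728
    (rowN 3 0 false true true .npn 3 0 3 (qsf 1610612736 536870912 1610612736 536870912 0) ndN1q3 ndN1q3 pcN0 Cut.none Ext.none)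

def k0_pp_303 : ∃ t, chk3 f_pp_303 t 1 1 1 = true :=
  ⟨(l 3), by decide +kernel⟩

theorem c_pp_303 : CertN 1610612736 536870912 1610612736 536870912 201326592 134217728 3 false true true .npn 3 0 3
    ndN1q3 ndN1q3 pcN0 Cut.none Ext.none :=
  certN0 (fam := false) (s1 := true) (s2 := true) (a := 3) (b := 0) (c := 3) (cn := .npn) (n1 := ndN1q3) (n2 := ndN1q3) (pc := pcN0) (cut := Cut.none) (xt := Ext.none) (P1 := 1610612736) (W1 := 536870912) (P2 := 1610612736) (W2 := 536870912) (P3 := 201326592) (W3 := 134217728) (N0 := 3)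
    rfl k0_pp_303

noncomputable def f_pp_313 : ℕ → ℕ → ℕ → ℕ → Bool := onCell 1610612736 536870912 1610612736 536870912 201326592 134217728
    (rowN 3 0 false true true .dn 3 1 3 (qsf 1610612736 536870912 1610612736 536870912 1) ndN1q3 ndN1q3 pcN1 Cut.none Ext.none)

def k0_pp_313 : ∃ t, chk3 f_pp_313 t 1 1 1 = true :=
  ⟨(l 3), by decide +kernel⟩

theorem c_pp_313 : CertN 1610612736 536870912 1610612736 536870912 201326592 134217728 3 false true true .dn 3 1 3
    ndN1q3 ndN1q3 pcN1 Cut.none Ext.none :=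
  certN0 (fam := false) (s1 := true) (s2 := true) (a := 3) (b := 1) (c := 3) (cn := .dn) (n1 := ndN1q3) (n2 := ndN1q3) (pc := pcN1) (cut := Cut.none) (xt := Ext.none) (P1 := 1610612736) (W1 := 536870912) (P2 := 1610612736) (W2 := 536870912) (P3 := 201326592) (W3 := 134217728) (N0 := 3)
    rfl k0_pp_313

noncomputable def f_pm_001 : ℕ → ℕ → ℕ → ℕ → Bool := onCell 0 536870912 536870912 536870912 201326592 134217728
    (rowN 3 0 false true false .up 0 0 1 (qsf 0 536870912 536870912 536870912 0) ndN1q0 ndN1q1 pcN0 Cut.none Ext.none)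

def k0_pm_001 : ∃ t, chk3 f_pm_001 t 1 1 1 = true :=
  ⟨(l 4), by decide +kernel⟩

theorem c_pm_001 : CertN 0 536870912 536870912 536870912 201326592 134217728 3 false true false .up 0 0 1
    ndN1q0 ndN1q1 pcN0 Cut.none Ext.none :=
  certN0 (fam := false) (s1 := true) (s2 := false) (a := 0) (b := 0) (c := 1) (cn := .up) (n1 := ndN1q0) (n2 := ndN1q1) (pc := pcN0) (cut := Cut.none) (xt := Ext.none) (P1 := 0) (W1 := 536870912) (P2 := 536870912) (W2 := 536870912) (P3 := 201326592) (W3 := 134217728) (N0 := 3)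
    rfl k0_pm_001

noncomputable def f_pm_011 : ℕ → ℕ → ℕ → ℕ → Bool := onCell 0 536870912 536870912 536870912 201326592 134217728
    (rowN 3 0 false true false .pnn 0 1 1 (qsf 0 536870912 536870912 536870912 1) ndN1q0 ndN1q1 pcN1 Cut.none Ext.none)

def k0_pm_011 : ∃ t, chk3 f_pm_011 t 1 1 1 = true :=
  ⟨(l 4), by decide +kernel⟩

theorem c_pm_011 : CertN 0 536870912 536870912 536870912 201326592 134217728 3 false true false .pnn 0 1 1
    ndN1q0 ndN1q1 pcN1 Cut.none Ext.none :=
  certN0 (fam := false) (s1 := true) (s2 := false) (a := 0) (b := 1) (c := 1) (cn := .pnn) (n1 := ndN1q0) (n2 := ndN1q1) (pc := pcN1) (cut := Cut.none) (xt := Ext.none) (P1 := 0) (W1 := 536870912) (P2 := 536870912) (W2 := 536870912) (P3 := 201326592) (W3 := 134217728) (N0 := 3)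
    rfl k0_pm_011

noncomputable def cut_pm_012_a : Cut := Cut.of [[⟨0, 0, 0, 67108864⟩, ⟨1, 1, 0, 67108864⟩, ⟨2, 1, 0, 67108864⟩]]

noncomputable def f_pm_012_a : ℕ → ℕ → ℕ → ℕ → Bool := onCell 536870912 536870912 0 536870912 201326592 134217728
    (rowN 3 2 false true false .pnp 0 1 2 (qsf 0 536870912 0 536870912 1) ndN1q0 ndN1q2a pcN1 cut_pm_012_a Ext.none)

def k0_pm_012_a : ∃ t, chk3 f_pm_012_a t 1 1 1 = true :=
  ⟨(a (a (a (b (l 2) (b (l 2) (l 17368168))) (b (b (l 2) (a (l 2) (l 17420944))) (b (a (l 17439200) (l 17410416)) (l 17280104)))) (a (b (b (l 17339568) (a (l 17406488) (l 17386288))) (b (b (l 17374896) (l 17310440)) (b (l 17201544) (l 17057640)))) (b (b (l 17295048) (b (l 17321784) (l 17302024))) (b (b (l 17241392) (l 17133184)) (b (l 16975176) (l 117809804519)))))) (b (a (a (b (l 17170656) (a (l 17186416) (l 17054704))) (b (a (l 16979616) (l 16769536)) (a (l 16866536) (l 16593008)))) (a (a (b (l 16450600) (l 16373360)) (b (l 16354152) (l 16395224))) (c (b (l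 16391848) (a (l 16420752) (l 16492240))) (b (l 16377200) (a (l 16420544) (l 16512280)))))) (a (a (b (a (b (l 17064672) (l 16910304)) (b (l 16888560) (l 16690952))) (b (l 16571952) (l 129620588279))) (b (a (b (l 16640640) (l 16487672)) (c (l 16706736) (l 16568208))) (b (a (l 16535920) (l 16553432)) (c (l 16720464) (l 16708768))))) (a (a (b (c (b (l 16454416) (l 16572152)) (b (l 16443088) (l 16582672))) (b (l 16582520) (l 176865383975))) (b (b (l 16455368) (c (l 16523368) (l 16513344))) (b (c (l 16604184) (l 16600448)) (b (l 139284252119) (l 4))))) (b (a (b (l 16497072) (b (l 16516728) (l 16614744))) (b (c (l 16502056) (l 16496592)) (a (l 16589912) (c (l 16562392) (l 16556992))))) (b (a (c (a (l 16603104) (l 16631512)) (a (l 16597592) (l 16625744))) (a (b (l 16643320) (c (l 16642872) (l 16679680))) (b (l 16654272) (c (l 16712792) (a (l 16646648) (l 16652840)))))) (b (a (c (l 16694120) (l 16685160)) (a (a (l 16741192) (l 6)) (l 6))) (a (l 4) (l 6))))))))), by decide +kernel⟩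

theorem c_pm_012_a : CertN 0 536870912 0 536870912 201326592 134217728 3 false true false .pnp 0 1 2
    ndN1q0 ndN1q2a pcN1 cut_pm_012_a Ext.none :=
  certN2 (fam := false) (s1 := true) (s2 := false) (a := 0) (b := 1) (c := 2) (cn := .pnp) (n1 := ndN1q0) (n2 := ndN1q2a) (pc := pcN1) (cut := cut_pm_012_a) (xt := Ext.none) (P1 := 0) (W1 := 536870912) (P2 := 0) (W2 := 536870912) (P3 := 201326592) (W3 := 134217728) (N0 := 3)
    rfl (fun _ => rfl) k0_pm_012_a

noncomputable def cut_pm_012_b : Cut := Cut.of [[⟨0, 0, 0, 67108864⟩, ⟨1, 1, 0, 67108864⟩, ⟨2, 1, 0, 67108864⟩]]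

noncomputable def f_pm_012_b : ℕ → ℕ → ℕ → ℕ → Bool := onCell 536870912 536870912 1239849684 370763052 201326592 134217728
    (rowN 3 2 false true false .pnp 0 1 2 (qsf 0 536870912 1239849684 370763052 1) ndN1q0 ndN1q2b pcN1 cut_pm_012_b Ext.none)

def k0_pm_012_b : ∃ t, chk3 f_pm_012_b t 1 1 1 = true :=
  ⟨(a (a (l 2) (b (a (l 17529296) (l 17562032)) (l 2))) (b (a (b (a (l 17320656) (l 17164152)) (l 17566312)) (a (b (c (l 17191488) (l 16359744)) (l 17447768)) (b (b (a (l 16331016) (l 16356288)) (l 16346864)) (a (l 17245264) (l 16899712))))) (a (b (l 17733768) (l 2)) (a (l 17913560) (b (l 17778952) (l 18082808)))))), by decide +kernel⟩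

theorem c_pm_012_b : CertN 0 536870912 1239849684 370763052 201326592 134217728 3 false true false .pnp 0 1 2
    ndN1q0 ndN1q2b pcN1 cut_pm_012_b Ext.none :=
  certN2 (fam := false) (s1 := true) (s2 := false) (a := 0) (b := 1) (c := 2) (cn := .pnp) (n1 := ndN1q0) (n2 := ndN1q2b) (pc := pcN1) (cut := cut_pm_012_b) (xt := Ext.none) (P1 := 0) (W1 := 536870912) (P2 := 1239849684) (W2 := 370763052) (P3 := 201326592) (W3 := 134217728) (N0 := 3)
    rfl (fun _ => rfl) k0_pm_012_b

noncomputable def cut_pm_022_a : Cut := Cut.of [[⟨0, 0, 0, 67108864⟩, ⟨1, 1, 0, 67108864⟩, ⟨2, 1, 0, 67108864⟩]]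

noncomputable def f_pm_022_a : ℕ → ℕ → ℕ → ℕ → Bool := onCell 0 536870912 0 536870912 201326592 134217728
    (rowN 3 0 false true false .pp 0 2 2 (qsf 0 536870912 0 536870912 2) ndN1q0 ndN1q2a pcN2 cut_pm_022_a Ext.none)

def k0_pm_022_a : ∃ t, chk3 f_pm_022_a t 1 1 1 = true :=
  ⟨(a (b (a (a (b (b (a (c (l 16519752) (a (l 16487896) (l 16462368))) (l 16463608)) (a (c (a (l 16530008) (l 16479192)) (l 16532504)) (l 16517824))) (a (a (c (b (l 16573064) (c (l 16600264) (l 16576712))) (b (l 16546256) (l 16613200))) (c (a (l 16583640) (l 16567400)) (l 16613840))) (c (b (l 16450816) (l 16494536)) (l 16599464)))) (b (a (l 16459976) (l 16429792)) (c (b (l 16445480) (l 16493248)) (b (l 16428624) (l 16477464))))) (a (b (l 16547584) (b (l 16469952) (a (l 16469720) (l 1)))) (l 1))) (a (b (a (a (b (c (a (a (c (l 16638928) (l 16635208)) (l 16620496)) (l 16595056)) (a (b (l 16592208) (l 16628568)) (l 16569104))) (b (c (a (c (l 16656072) (l 16652440)) (l 16578176)) (a (a (l 16633248) (l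 16596824)) (l 16573128))) (a (c (a (c (l 16663040) (l 16659248)) (l 16644176)) (a (l 16674232) (l 16637664))) (c (l 16618232) (l 16592784))))) (b (c (l 16563976) (l 16541832)) (c (a (l 16603360) (l 16564744)) (a (l 16579264) (l 16558720))))) (b (a (l 16588368) (c (l 16515784) (l 16498920))) (a (b (l 16588504) (c (l 16584376) (l 16574048))) (b (l 16546576) (l 1))))) (a (a (b (b (a (a (c (a (c (l 16688408) (l 16684688)) (l 16678080)) (b (l 16669344) (l 16691608))) (c (l 16686224) (l 16659536))) (c (l 16660160) (l 16636768))) (l 6)) (l 6)) (a (b (b (c (l 16618368) (l 16615296)) (l 6)) (l 6)) (b (b (c (l 16619952) (l 16613984)) (b (l 16646624) (l 16666968))) (l 1)))) (b (a (b (a (l 16679480) (l 1)) (l 1)) (l 1)) (l 1)))) (b (l 1) (l 1)))) (l 1)), by decide +kernel⟩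

theorem c_pm_022_a : CertN 0 536870912 0 536870912 201326592 134217728 3 false true false .pp 0 2 2
    ndN1q0 ndN1q2a pcN2 cut_pm_022_a Ext.none :=
  certN0 (fam := false) (s1 := true) (s2 := false) (a := 0) (b := 2) (c := 2) (cn := .pp) (n1 := ndN1q0) (n2 := ndN1q2a) (pc := pcN2) (cut := cut_pm_022_a) (xt := Ext.none) (P1 := 0) (W1 := 536870912) (P2 := 0) (W2 := 536870912) (P3 := 201326592) (W3 := 134217728) (N0 := 3)
    rfl k0_pm_022_a

noncomputable def cut_pm_022_b : Cut := Cut.of [[⟨0, 0, 0, 67108864⟩, ⟨1, 1, 0, 67108864⟩, ⟨2, 1, 0, 67108864⟩]]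

noncomputable def f_pm_022_b : ℕ → ℕ → ℕ → ℕ → Bool := onCell 0 536870912 1073741824 536870912 201326592 134217728
    (rowN 3 1 false true false .pp 0 2 2 (qsf 0 536870912 1239849684 370763052 2) ndN1q0 ndN1q2b pcN2 cut_pm_022_b Ext.none)

def k0_pm_022_b : ∃ t, chk3 f_pm_022_b t 1 1 1 = true :=
  ⟨(b (b (a (a (a (b (l 1) (a (a (l 1) (c (l 224445326183) (l 214244779895))) (c (l 16587312) (l 16588232)))) (b (b (l 216929039527) (a (l 16578056) (l 16473328))) (c (l 93985365223) (l 16478936)))) (b (a (c (l 16478192) (l 16450088)) (l 16338640)) (a (c (l 16800992) (l 16226784)) (l 17053440)))) (a (b (c (l 17931976) (l 16984008)) (l 17789480)) (b (l 18130120) (l 18194688)))) (a (a (a (b (a (a (c (c (l 46204049735) (l 40835341239)) (b (l 16553904) (l 16459960))) (c (l 16519192) (l 16496408))) (c (l 16435984) (l 16416160))) (a (b (c (l 16432768) (l 16406592)) (c (l 16778272) (l 16322048))) (c (l 16999752) (l 16238264)))) (b (c (l 16773032) (l 16290280)) (c (l 17448000) (l 16522160))))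 (b (a (l 16764072) (l 17522720)) (a (l 17472456) (l 17794528)))) (a (b (l 17973592) (l 18065080)) (l 18194400)))) (b (a (a (a (b (a (c (b (l 17196704) (l 17463176)) (l 16387872)) (c (l 17560568) (l 16745392))) (c (l 17812936) (a (l 17057096) (l 17221248)))) (b (c (l 17825024) (l 17084928)) (l 17729016))) (b (l 17855832) (l 17956192))) (a (l 18082376) (l 2))) (a (a (b (a (c (l 18007112) (l 17462824)) (l 17873800)) (l 4)) (l 4)) (l 2)))), by decide +kernel⟩

theorem c_pm_022_b : CertN 0 536870912 1239849684 370763052 201326592 134217728 3 false true false .pp 0 2 2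
    ndN1q0 ndN1q2b pcN2 cut_pm_022_b Ext.none :=
  certN1 (fam := false) (s1 := true) (s2 := false) (a := 0) (b := 2) (c := 2) (cn := .pp) (n1 := ndN1q0) (n2 := ndN1q2b) (pc := pcN2) (cut := cut_pm_022_b) (xt := Ext.none) (P1 := 0) (W1 := 536870912) (P2 := 1239849684) (W2 := 370763052) (P3 := 201326592) (W3 := 134217728) (N0 := 3)
    rfl (fun _ => rfl) k0_pm_022_b

noncomputable def f_pm_023 : ℕ → ℕ → ℕ → ℕ → Bool := onCell 1073741824 536870912 1610612736 536870912 201326592 134217728
    (rowN 3 2 false true false .up 0 2 3 (qsf 0 536870912 1610612736 536870912 2) ndN1q0 ndN1q3 pcN2 Cut.none Ext.none)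

def k0_pm_023 : ∃ t, chk3 f_pm_023 t 1 1 1 = true :=
  ⟨(a (b (a (l 18256632) (l 18178216)) (a (l 2) (l 18008360))) (a (b (b (l 18036080) (l 18091648)) (l 17947496)) (b (a (l 4) (l 4)) (l 17971048)))), by decide +kernel⟩

theorem c_pm_023 : CertN 0 536870912 1610612736 536870912 201326592 134217728 3 false true false .up 0 2 3
    ndN1q0 ndN1q3 pcN2 Cut.none Ext.none :=
  certN2 (fam := false) (s1 := true) (s2 := false) (a := 0) (b := 2) (c := 3) (cn := .up) (n1 := ndN1q0) (n2 := ndN1q3) (pc := pcN2) (cut := Cut.none) (xt := Ext.none) (P1 := 0) (W1 := 536870912) (P2 := 1610612736) (W2 := 536870912) (P3 := 201326592) (W3 := 134217728) (N0 := 3)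
    rfl (fun _ => rfl) k0_pm_023

noncomputable def f_pm_033 : ℕ → ℕ → ℕ → ℕ → Bool := onCell 0 536870912 1610612736 536870912 201326592 134217728
    (rowN 3 1 false true false .pnn 0 3 3 (qsf 0 536870912 1610612736 536870912 3) ndN1q0 ndN1q3 pcN3 Cut.none Ext.none)

def k0_pm_033 : ∃ t, chk3 f_pm_033 t 1 1 1 = true :=
  ⟨(a (b (l 4) (b (l 4) (a (l 4) (a (b (l 4) (l 2)) (l 2))))) (b (a (b (l 4) (l 4)) (b (b (l 17647304) (l 17508032)) (a (b (l 4) (l 2)) (l 2)))) (a (b (a (b (l 4) (l 2)) (l 2)) (l 2)) (l 2)))), by decide +kernel⟩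

theorem c_pm_033 : CertN 0 536870912 1610612736 536870912 201326592 134217728 3 false true false .pnn 0 3 3
    ndN1q0 ndN1q3 pcN3 Cut.none Ext.none :=
  certN1 (fam := false) (s1 := true) (s2 := false) (a := 0) (b := 3) (c := 3) (cn := .pnn) (n1 := ndN1q0) (n2 := ndN1q3) (pc := pcN3) (cut := Cut.none) (xt := Ext.none) (P1 := 0) (W1 := 536870912) (P2 := 1610612736) (W2 := 536870912) (P3 := 201326592) (W3 := 134217728) (N0 := 3)
    rfl (fun _ => rfl) k0_pm_033

noncomputable def f_pm_101 : ℕ → ℕ → ℕ → ℕ → Bool := onCell 536870912 536870912 536870912 536870912 201326592 134217728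
    (rowN 3 0 false true false .npn 1 0 1 (qsf 536870912 536870912 536870912 536870912 0) ndN1q1 ndN1q1 pcN0 Cut.none Ext.none)

def k0_pm_101 : ∃ t, chk3 f_pm_101 t 1 1 1 = true :=
  ⟨(l 4), by decide +kernel⟩

theorem c_pm_101 : CertN 536870912 536870912 536870912 536870912 201326592 134217728 3 false true false .npn 1 0 1
    ndN1q1 ndN1q1 pcN0 Cut.none Ext.none :=
  certN0 (fam := false) (s1 := true) (s2 := false) (a := 1) (b := 0) (c := 1) (cn := .npn) (n1 := ndN1q1) (n2 := ndN1q1) (pc := pcN0) (cut := Cut.none) (xt := Ext.none) (P1 := 536870912) (W1 := 536870912) (P2 := 536870912) (W2 := 536870912) (P3 := 201326592) (W3 := 134217728) (N0 := 3)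
    rfl k0_pm_101

noncomputable def f_pm_102_a : ℕ → ℕ → ℕ → ℕ → Bool := onCell 0 536870912 0 536870912 201326592 134217728
    (rowN 3 2 false true false .npp 1 0 2 (qsf 536870912 536870912 0 536870912 0) ndN1q1 ndN1q2a pcN0 Cut.none Ext.none)

def k0_pm_102_a : ∃ t, chk3 f_pm_102_a t 1 1 1 = true :=
  ⟨(a (b (a (a (l 2) (b (l 2) (a (l 2) (l 17025352)))) (b (a (a (l 16719168) (l 16736984)) (l 16756816)) (a (a (l 17066216) (l 17095504)) (l 17236080)))) (a (b (a (l 2) (c (l 17412224) (l 17288280))) (a (b (a (l 2) (l 17509656)) (l 17665176)) (b (l 17508728) (l 17599280)))) (b (a (l 17411864) (l 17309488)) (a (b (l 17485344) (l 17584736)) (l 17633216))))) (b (a (b (a (l 16772560) (l 16806304)) (a (l 17073336) (l 16996032))) (b (l 17054072) (a (l 16977200) (l 16979040)))) (a (b (a (l 17290480) (b (l 17196336) (l 17331576))) (a (b (l 17449856) (l 17546608)) (b (l 17436320) (l 17521688)))) (b (b (l 17169440) (a (l 17306136) (l 17275992))) (a (b (l 17412992) (l 17484816)) (b (l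 17380864) (l 17423440))))))), by decide +kernel⟩

theorem c_pm_102_a : CertN 536870912 536870912 0 536870912 201326592 134217728 3 false true false .npp 1 0 2
    ndN1q1 ndN1q2a pcN0 Cut.none Ext.none :=
  certN2 (fam := false) (s1 := true) (s2 := false) (a := 1) (b := 0) (c := 2) (cn := .npp) (n1 := ndN1q1) (n2 := ndN1q2a) (pc := pcN0) (cut := Cut.none) (xt := Ext.none) (P1 := 536870912) (W1 := 536870912) (P2 := 0) (W2 := 536870912) (P3 := 201326592) (W3 := 134217728) (N0 := 3)
    rfl (fun _ => rfl) k0_pm_102_a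

noncomputable def f_pm_102_b : ℕ → ℕ → ℕ → ℕ → Bool := onCell 536870912 536870912 1239849684 370763052 201326592 134217728
    (rowN 3 0 false true false .npp 1 0 2 (qsf 536870912 536870912 1239849684 370763052 0) ndN1q1 ndN1q2b pcN0 Cut.none Ext.none)

def k0_pm_102_b : ∃ t, chk3 f_pm_102_b t 1 1 1 = true :=
  ⟨(a (b (a (l 2) (b (l 17028088) (l 16866752))) (l 2)) (b (a (b (a (l 16891448) (l 16881256)) (l 16998120)) (a (b (l 16753048) (l 17011192)) (b (b (l 16588704) (l 16600376)) (b (l 16704712) (l 16958216))))) (a (l 17125184) (a (l 17261048) (b (l 17213256) (l 17390288)))))), by decide +kernel⟩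

theorem c_pm_102_b : CertN 536870912 536870912 1239849684 370763052 201326592 134217728 3 false true false .npp 1 0 2
    ndN1q1 ndN1q2b pcN0 Cut.none Ext.none :=
  certN0 (fam := false) (s1 := true) (s2 := false) (a := 1) (b := 0) (c := 2) (cn := .npp) (n1 := ndN1q1) (n2 := ndN1q2b) (pc := pcN0) (cut := Cut.none) (xt := Ext.none) (P1 := 536870912) (W1 := 536870912) (P2 := 1239849684) (W2 := 370763052) (P3 := 201326592) (W3 := 134217728) (N0 := 3)
    rfl k0_pm_102_b

noncomputable def f_pm_112_a : ℕ → ℕ → ℕ → ℕ → Bool := onCell 536870912 536870912 0 536870912 201326592 134217728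
    (rowN 3 0 false true false .dn 1 1 2 (qsf 536870912 536870912 0 536870912 1) ndN1q1 ndN1q2a pcN1 Cut.none Ext.none)

def k0_pm_112_a : ∃ t, chk3 f_pm_112_a t 1 1 1 = true :=
  ⟨(a (b (b (a (a (l 17536544) (l 17578216)) (a (l 17599928) (l 1))) (a (a (a (b (l 17614416) (l 17634248)) (l 17642616)) (l 17670008)) (a (l 17698904) (l 1)))) (b (a (b (l 17685152) (c (l 17883624) (l 17455200))) (l 1)) (a (b (l 17612472) (l 17535544)) (l 1)))) (l 1)), by decide +kernel⟩

theorem c_pm_112_a : CertN 536870912 536870912 0 536870912 201326592 134217728 3 false true false .dn 1 1 2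
    ndN1q1 ndN1q2a pcN1 Cut.none Ext.none :=
  certN0 (fam := false) (s1 := true) (s2 := false) (a := 1) (b := 1) (c := 2) (cn := .dn) (n1 := ndN1q1) (n2 := ndN1q2a) (pc := pcN1) (cut := Cut.none) (xt := Ext.none) (P1 := 536870912) (W1 := 536870912) (P2 := 0) (W2 := 536870912) (P3 := 201326592) (W3 := 134217728) (N0 := 3)
    rfl k0_pm_112_a

noncomputable def f_pm_112_b : ℕ → ℕ → ℕ → ℕ → Bool := onCell 536870912 536870912 1239849684 370763052 201326592 134217728
    (rowN 3 2 false true false .dn 1 1 2 (qsf 536870912 536870912 1239849684 370763052 1) ndN1q1 ndN1q2b pcN1 Cut.none Ext.none)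

def k0_pm_112_b : ∃ t, chk3 f_pm_112_b t 1 1 1 = true :=
  ⟨(a (a (b (a (l 17769848) (l 17764992)) (l 17528520)) (b (a (l 111168034951) (l 17891496)) (l 17639072))) (b (a (l 354906585255) (l 1)) (a (l 17852856) (l 381214988631)))), by decide +kernel⟩

theorem c_pm_112_b : CertN 536870912 536870912 1239849684 370763052 201326592 134217728 3 false true false .dn 1 1 2
    ndN1q1 ndN1q2b pcN1 Cut.none Ext.none :=
  certN2 (fam := false) (s1 := true) (s2 := false) (a := 1) (b := 1) (c := 2) (cn := .dn) (n1 := ndN1q1) (n2 := ndN1q2b) (pc := pcN1) (cut := Cut.none) (xt := Ext.none) (P1 := 536870912) (W1 := 536870912) (P2 := 1239849684) (W2 := 370763052) (P3 := 201326592) (W3 := 134217728) (N0 := 3)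
    rfl (fun _ => rfl) k0_pm_112_b

noncomputable def f_pm_113 : ℕ → ℕ → ℕ → ℕ → Bool := onCell 536870912 536870912 536870912 536870912 201326592 134217728
    (rowN 3 1 false true false .nn 1 1 3 (qsf 536870912 536870912 1610612736 536870912 1) ndN1q1 ndN1q3 pcN1 Cut.none Ext.none)

def k0_pm_113 : ∃ t, chk3 f_pm_113 t 1 1 1 = true :=
  ⟨(a (b (b (l 1) (b (l 1) (l 17896280))) (a (l 369940173143) (l 17957904))) (b (b (b (l 171834266439) (l 17451832)) (l 17368416)) (b (l 17447016) (a (l 17498648) (l 17075368))))), by decide +kernel⟩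

theorem c_pm_113 : CertN 536870912 536870912 1610612736 536870912 201326592 134217728 3 false true false .nn 1 1 3
    ndN1q1 ndN1q3 pcN1 Cut.none Ext.none :=
  certN1 (fam := false) (s1 := true) (s2 := false) (a := 1) (b := 1) (c := 3) (cn := .nn) (n1 := ndN1q1) (n2 := ndN1q3) (pc := pcN1) (cut := Cut.none) (xt := Ext.none) (P1 := 536870912) (W1 := 536870912) (P2 := 1610612736) (W2 := 536870912) (P3 := 201326592) (W3 := 134217728) (N0 := 3)
    rfl (fun _ => rfl) k0_pm_113

noncomputable def f_pm_123 : ℕ → ℕ → ℕ → ℕ → Bool := onCell 1073741824 536870912 1610612736 536870912 201326592 134217728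
    (rowN 3 2 false true false .npn 1 2 3 (qsf 536870912 536870912 1610612736 536870912 2) ndN1q1 ndN1q3 pcN2 Cut.none Ext.none)

def k0_pm_123 : ∃ t, chk3 f_pm_123 t 1 1 1 = true :=
  ⟨(a (b (a (l 18070208) (l 344170517191)) (a (a (l 17707144) (a (l 17536344) (l 17542840))) (l 17530304))) (a (b (l 449933663767) (l 17457280)) (b (l 1) (l 17523224)))), by decide +kernel⟩

theorem c_pm_123 : CertN 536870912 536870912 1610612736 536870912 201326592 134217728 3 false true false .npn 1 2 3
    ndN1q1 ndN1q3 pcN2 Cut.none Ext.none :=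
  certN2 (fam := false) (s1 := true) (s2 := false) (a := 1) (b := 2) (c := 3) (cn := .npn) (n1 := ndN1q1) (n2 := ndN1q3) (pc := pcN2) (cut := Cut.none) (xt := Ext.none) (P1 := 536870912) (W1 := 536870912) (P2 := 1610612736) (W2 := 536870912) (P3 := 201326592) (W3 := 134217728) (N0 := 3)
    rfl (fun _ => rfl) k0_pm_123

noncomputable def f_pm_133 : ℕ → ℕ → ℕ → ℕ → Bool := onCell 1610612736 536870912 1610612736 536870912 201326592 134217728
    (rowN 3 2 false true false .dn 1 3 3 (qsf 536870912 536870912 1610612736 536870912 3) ndN1q1 ndN1q3 pcN3 Cut.none Ext.none)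

def k0_pm_133 : ∃ t, chk3 f_pm_133 t 1 1 1 = true :=
  ⟨(a (b (l 1) (a (a (l 403761673719) (l 1)) (l 1))) (l 1)), by decide +kernel⟩

theorem c_pm_133 : CertN 536870912 536870912 1610612736 536870912 201326592 134217728 3 false true false .dn 1 3 3
    ndN1q1 ndN1q3 pcN3 Cut.none Ext.none :=
  certN2 (fam := false) (s1 := true) (s2 := false) (a := 1) (b := 3) (c := 3) (cn := .dn) (n1 := ndN1q1) (n2 := ndN1q3) (pc := pcN3) (cut := Cut.none) (xt := Ext.none) (P1 := 536870912) (W1 := 536870912) (P2 := 1610612736) (W2 := 536870912) (P3 := 201326592) (W3 := 134217728) (N0 := 3)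
    rfl (fun _ => rfl) k0_pm_133

noncomputable def cut_pm_202_aa : Cut := Cut.of [[⟨0, 1, 0, 67108864⟩, ⟨1, 0, 0, 67108864⟩, ⟨2, 1, 0, 67108864⟩]]

noncomputable def f_pm_202_aa : ℕ → ℕ → ℕ → ℕ → Bool := onCell 0 536870912 0 536870912 201326592 134217728
    (rowN 3 0 false true false .pp 2 0 2 (qsf 0 536870912 0 536870912 0) ndN1q2a ndN1q2a pcN0 cut_pm_202_aa Ext.none)

def k0_pm_202_aa : ∃ t, chk3 f_pm_202_aa t 1 1 1 = true :=
  ⟨(a (l 3) (b (l 3) (b (l 3) (a (l 3) (b (l 3) (a (l 3) (l 6))))))), by decide +kernel⟩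

theorem c_pm_202_aa : CertN 0 536870912 0 536870912 201326592 134217728 3 false true false .pp 2 0 2
    ndN1q2a ndN1q2a pcN0 cut_pm_202_aa Ext.none :=
  certN0 (fam := false) (s1 := true) (s2 := false) (a := 2) (b := 0) (c := 2) (cn := .pp) (n1 := ndN1q2a) (n2 := ndN1q2a) (pc := pcN0) (cut := cut_pm_202_aa) (xt := Ext.none) (P1 := 0) (W1 := 536870912) (P2 := 0) (W2 := 536870912) (P3 := 201326592) (W3 := 134217728) (N0 := 3)
    rfl k0_pm_202_aa

noncomputable def cut_pm_202_ab : Cut := Cut.of [[⟨0, 1, 0, 67108864⟩, ⟨1, 0, 0, 67108864⟩, ⟨2, 1, 0, 67108864⟩]]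

noncomputable def f_pm_202_ab : ℕ → ℕ → ℕ → ℕ → Bool := onCell 0 536870912 1239849684 370763052 201326592 134217728
    (rowN 3 0 false true false .pp 2 0 2 (qsf 0 536870912 1239849684 370763052 0) ndN1q2a ndN1q2b pcN0 cut_pm_202_ab Ext.none)

def k0_pm_202_ab : ∃ t, chk3 f_pm_202_ab t 1 1 1 = true :=
  ⟨(l 3), by decide +kernel⟩

theorem c_pm_202_ab : CertN 0 536870912 1239849684 370763052 201326592 134217728 3 false true false .pp 2 0 2
    ndN1q2a ndN1q2b pcN0 cut_pm_202_ab Ext.none :=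
  certN0 (fam := false) (s1 := true) (s2 := false) (a := 2) (b := 0) (c := 2) (cn := .pp) (n1 := ndN1q2a) (n2 := ndN1q2b) (pc := pcN0) (cut := cut_pm_202_ab) (xt := Ext.none) (P1 := 0) (W1 := 536870912) (P2 := 1239849684) (W2 := 370763052) (P3 := 201326592) (W3 := 134217728) (N0 := 3)
    rfl k0_pm_202_ab

noncomputable def cut_pm_202_ba : Cut := Cut.of [[⟨0, 1, 0, 67108864⟩, ⟨1, 0, 0, 67108864⟩, ⟨2, 1, 0, 67108864⟩]]

noncomputable def f_pm_202_ba : ℕ → ℕ → ℕ → ℕ → Bool := onCell 1239849684 370763052 0 536870912 201326592 134217728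
    (rowN 3 0 false true false .pp 2 0 2 (qsf 1239849684 370763052 0 536870912 0) ndN1q2b ndN1q2a pcN0 cut_pm_202_ba Ext.none)

def k0_pm_202_ba : ∃ t, chk3 f_pm_202_ba t 1 1 1 = true :=
  ⟨(l 3), by decide +kernel⟩

theorem c_pm_202_ba : CertN 1239849684 370763052 0 536870912 201326592 134217728 3 false true false .pp 2 0 2
    ndN1q2b ndN1q2a pcN0 cut_pm_202_ba Ext.none :=
  certN0 (fam := false) (s1 := true) (s2 := false) (a := 2) (b := 0) (c := 2) (cn := .pp) (n1 := ndN1q2b) (n2 := ndN1q2a) (pc := pcN0) (cut := cut_pm_202_ba) (xt := Ext.none) (P1 := 1239849684) (W1 := 370763052) (P2 := 0) (W2 := 536870912) (P3 := 201326592) (W3 := 134217728) (N0 := 3)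
    rfl k0_pm_202_ba

noncomputable def cut_pm_202_bb : Cut := Cut.of [[⟨0, 1, 0, 67108864⟩, ⟨1, 0, 0, 67108864⟩, ⟨2, 1, 0, 67108864⟩]]

noncomputable def f_pm_202_bb : ℕ → ℕ → ℕ → ℕ → Bool := onCell 1239849684 370763052 1239849684 370763052 201326592 134217728
    (rowN 3 0 false true false .pp 2 0 2 (qsf 1239849684 370763052 1239849684 370763052 0) ndN1q2b ndN1q2b pcN0 cut_pm_202_bb Ext.none)

def k0_pm_202_bb : ∃ t, chk3 f_pm_202_bb t 1 1 1 = true :=
  ⟨(l 3), by decide +kernel⟩

theorem c_pm_202_bb : CertN 1239849684 370763052 1239849684 370763052 201326592 134217728 3 false true false .pp 2 0 2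
    ndN1q2b ndN1q2b pcN0 cut_pm_202_bb Ext.none :=
  certN0 (fam := false) (s1 := true) (s2 := false) (a := 2) (b := 0) (c := 2) (cn := .pp) (n1 := ndN1q2b) (n2 := ndN1q2b) (pc := pcN0) (cut := cut_pm_202_bb) (xt := Ext.none) (P1 := 1239849684) (W1 := 370763052) (P2 := 1239849684) (W2 := 370763052) (P3 := 201326592) (W3 := 134217728) (N0 := 3)
    rfl k0_pm_202_bb

noncomputable def f_pm_203_a : ℕ → ℕ → ℕ → ℕ → Bool := onCell 0 536870912 0 536870912 201326592 134217728
    (rowN 3 1 false true false .up 2 0 3 (qsf 0 536870912 1610612736 536870912 0) ndN1q2a ndN1q3 pcN0 Cut.none Ext.none)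

def k0_pm_203_a : ∃ t, chk3 f_pm_203_a t 1 1 1 = true :=
  ⟨(l 3), by decide +kernel⟩

theorem c_pm_203_a : CertN 0 536870912 1610612736 536870912 201326592 134217728 3 false true false .up 2 0 3
    ndN1q2a ndN1q3 pcN0 Cut.none Ext.none :=
  certN1 (fam := false) (s1 := true) (s2 := false) (a := 2) (b := 0) (c := 3) (cn := .up) (n1 := ndN1q2a) (n2 := ndN1q3) (pc := pcN0) (cut := Cut.none) (xt := Ext.none) (P1 := 0) (W1 := 536870912) (P2 := 1610612736) (W2 := 536870912) (P3 := 201326592) (W3 := 134217728) (N0 := 3)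
    rfl (fun _ => rfl) k0_pm_203_a

noncomputable def f_pm_203_b : ℕ → ℕ → ℕ → ℕ → Bool := onCell 1239849684 370763052 1610612736 536870912 201326592 134217728
    (rowN 3 0 false true false .up 2 0 3 (qsf 1239849684 370763052 1610612736 536870912 0) ndN1q2b ndN1q3 pcN0 Cut.none Ext.none)

def k0_pm_203_b : ∃ t, chk3 f_pm_203_b t 1 1 1 = true :=
  ⟨(l 3), by decide +kernel⟩

theorem c_pm_203_b : CertN 1239849684 370763052 1610612736 536870912 201326592 134217728 3 false true false .up 2 0 3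
    ndN1q2b ndN1q3 pcN0 Cut.none Ext.none :=
  certN0 (fam := false) (s1 := true) (s2 := false) (a := 2) (b := 0) (c := 3) (cn := .up) (n1 := ndN1q2b) (n2 := ndN1q3) (pc := pcN0) (cut := Cut.none) (xt := Ext.none) (P1 := 1239849684) (W1 := 370763052) (P2 := 1610612736) (W2 := 536870912) (P3 := 201326592) (W3 := 134217728) (N0 := 3)
    rfl k0_pm_203_b

noncomputable def cut_pm_213_a : Cut := Cut.of [[⟨0, 1, 0, 57167902⟩, ⟨1, 1, 0, 57167902⟩, ⟨2, 2, 0, 11758673⟩]]

noncomputable def f_pm_213_a : ℕ → ℕ → ℕ → ℕ → Bool := onCell 0 536870912 1610612736 536870912 201326592 134217728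
    (rowN 3 0 false true false .pnn 2 1 3 (qsf 0 536870912 1610612736 536870912 1) ndN1q2a ndN1q3 pcN1 cut_pm_213_a Ext.none)

def k0_pm_213_a : ∃ t, chk3 f_pm_213_a t 1 1 1 = true :=
  ⟨(b (l 3) (a (l 3) (b (l 3) (a (l 3) (a (l 3) (b (l 3) (a (l 3) (b (l 3) (a (l 3) (a (l 3) (b (l 3) (b (l 3) (l 6))))))))))))), by decide +kernel⟩

theorem c_pm_213_a : CertN 0 536870912 1610612736 536870912 201326592 134217728 3 false true false .pnn 2 1 3
    ndN1q2a ndN1q3 pcN1 cut_pm_213_a Ext.none :=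
  certN0 (fam := false) (s1 := true) (s2 := false) (a := 2) (b := 1) (c := 3) (cn := .pnn) (n1 := ndN1q2a) (n2 := ndN1q3) (pc := pcN1) (cut := cut_pm_213_a) (xt := Ext.none) (P1 := 0) (W1 := 536870912) (P2 := 1610612736) (W2 := 536870912) (P3 := 201326592) (W3 := 134217728) (N0 := 3)
    rfl k0_pm_213_a

noncomputable def cut_pm_213_b : Cut := Cut.of [[⟨0, 1, 0, 57167902⟩, ⟨1, 1, 0, 57167902⟩, ⟨2, 2, 0, 11758673⟩]]

noncomputable def f_pm_213_b : ℕ → ℕ → ℕ → ℕ → Bool := onCell 1239849684 370763052 1610612736 536870912 201326592 134217728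
    (rowN 3 0 false true false .pnn 2 1 3 (qsf 1239849684 370763052 1610612736 536870912 1) ndN1q2b ndN1q3 pcN1 cut_pm_213_b Ext.none)

def k0_pm_213_b : ∃ t, chk3 f_pm_213_b t 1 1 1 = true :=
  ⟨(l 3), by decide +kernel⟩

theorem c_pm_213_b : CertN 1239849684 370763052 1610612736 536870912 201326592 134217728 3 false true false .pnn 2 1 3
    ndN1q2b ndN1q3 pcN1 cut_pm_213_b Ext.none :=
  certN0 (fam := false) (s1 := true) (s2 := false) (a := 2) (b := 1) (c := 3) (cn := .pnn) (n1 := ndN1q2b) (n2 := ndN1q3) (pc := pcN1) (cut := cut_pm_213_b) (xt := Ext.none) (P1 := 1239849684) (W1 := 370763052) (P2 := 1610612736) (W2 := 536870912) (P3 := 201326592) (W3 := 134217728) (N0 := 3)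
    rfl k0_pm_213_b

noncomputable def f_pm_303 : ℕ → ℕ → ℕ → ℕ → Bool := onCell 1610612736 536870912 1610612736 536870912 201326592 134217728
    (rowN 3 0 false true false .npn 3 0 3 (qsf 1610612736 536870912 1610612736 536870912 0) ndN1q3 ndN1q3 pcN0 Cut.none Ext.none)

def k0_pm_303 : ∃ t, chk3 f_pm_303 t 1 1 1 = true :=
  ⟨(l 3), by decide +kernel⟩

theorem c_pm_303 : CertN 1610612736 536870912 1610612736 536870912 201326592 134217728 3 false true false .npn 3 0 3
    ndN1q3 ndN1q3 pcN0 Cut.none Ext.none :=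
  certN0 (fam := false) (s1 := true) (s2 := false) (a := 3) (b := 0) (c := 3) (cn := .npn) (n1 := ndN1q3) (n2 := ndN1q3) (pc := pcN0) (cut := Cut.none) (xt := Ext.none) (P1 := 1610612736) (W1 := 536870912) (P2 := 1610612736) (W2 := 536870912) (P3 := 201326592) (W3 := 134217728) (N0 := 3)
    rfl k0_pm_303

noncomputable def f_pm_313 : ℕ → ℕ → ℕ → ℕ → Bool := onCell 1610612736 536870912 1610612736 536870912 201326592 134217728
    (rowN 3 0 false true false .dn 3 1 3 (qsf 1610612736 536870912 1610612736 536870912 1) ndN1q3 ndN1q3 pcN1 Cut.none Ext.none)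

def k0_pm_313 : ∃ t, chk3 f_pm_313 t 1 1 1 = true :=
  ⟨(l 3), by decide +kernel⟩

theorem c_pm_313 : CertN 1610612736 536870912 1610612736 536870912 201326592 134217728 3 false true false .dn 3 1 3
    ndN1q3 ndN1q3 pcN1 Cut.none Ext.none :=
  certN0 (fam := false) (s1 := true) (s2 := false) (a := 3) (b := 1) (c := 3) (cn := .dn) (n1 := ndN1q3) (n2 := ndN1q3) (pc := pcN1) (cut := Cut.none) (xt := Ext.none) (P1 := 1610612736) (W1 := 536870912) (P2 := 1610612736) (W2 := 536870912) (P3 := 201326592) (W3 := 134217728) (N0 := 3)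
    rfl k0_pm_313

noncomputable def f_mm_001 : ℕ → ℕ → ℕ → ℕ → Bool := onCell 0 536870912 536870912 536870912 201326592 134217728
    (rowN 3 0 false false false .up 0 0 1 (qsf 0 536870912 536870912 536870912 0) ndN1q0 ndN1q1 pcN0 Cut.none Ext.none)

def k0_mm_001 : ∃ t, chk3 f_mm_001 t 1 1 1 = true :=
  ⟨(l 3), by decide +kernel⟩

theorem c_mm_001 : CertN 0 536870912 536870912 536870912 201326592 134217728 3 false false false .up 0 0 1
    ndN1q0 ndN1q1 pcN0 Cut.none Ext.none :=
  certN0 (fam := false) (s1 := false) (s2 := false) (a := 0) (b := 0) (c := 1) (cn := .up) (n1 := ndN1q0) (n2 := ndN1q1) (pc := pcN0) (cut := Cut.none) (xt := Ext.none) (P1 := 0) (W1 := 536870912) (P2 := 536870912) (W2 := 536870912) (P3 := 201326592) (W3 := 134217728) (N0 := 3)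
    rfl k0_mm_001

noncomputable def f_mm_011 : ℕ → ℕ → ℕ → ℕ → Bool := onCell 0 536870912 536870912 536870912 201326592 134217728
    (rowN 3 0 false false false .pnn 0 1 1 (qsf 0 536870912 536870912 536870912 1) ndN1q0 ndN1q1 pcN1 Cut.none Ext.none)

def k0_mm_011 : ∃ t, chk3 f_mm_011 t 1 1 1 = true :=
  ⟨(l 3), by decide +kernel⟩

theorem c_mm_011 : CertN 0 536870912 536870912 536870912 201326592 134217728 3 false false false .pnn 0 1 1
    ndN1q0 ndN1q1 pcN1 Cut.none Ext.none :=
  certN0 (fam := false) (s1 := false) (s2 := false) (a := 0) (b := 1) (c := 1) (cn := .pnn) (n1 := ndN1q0) (n2 := ndN1q1) (pc := pcN1) (cut := Cut.none) (xt := Ext.none) (P1 := 0) (W1 := 536870912) (P2 := 536870912) (W2 := 536870912) (P3 := 201326592) (W3 := 134217728) (N0 := 3)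
    rfl k0_mm_011

noncomputable def f_mm_012_a : ℕ → ℕ → ℕ → ℕ → Bool := onCell 0 536870912 0 536870912 201326592 134217728
    (rowN 3 0 false false false .pnp 0 1 2 (qsf 0 536870912 0 536870912 1) ndN1q0 ndN1q2a pcN1 Cut.none Ext.none)

def k0_mm_012_a : ∃ t, chk3 f_mm_012_a t 1 1 1 = true :=
  ⟨(l 5), by decide +kernel⟩

theorem c_mm_012_a : CertN 0 536870912 0 536870912 201326592 134217728 3 false false false .pnp 0 1 2
    ndN1q0 ndN1q2a pcN1 Cut.none Ext.none :=
  certN0 (fam := false) (s1 := false) (s2 := false) (a := 0) (b := 1) (c := 2) (cn := .pnp) (n1 := ndN1q0) (n2 := ndN1q2a) (pc := pcN1) (cut := Cut.none) (xt := Ext.none) (P1 := 0) (W1 := 536870912) (P2 := 0) (W2 := 536870912) (P3 := 201326592) (W3 := 134217728) (N0 := 3)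
    rfl k0_mm_012_a

noncomputable def f_mm_012_b : ℕ → ℕ → ℕ → ℕ → Bool := onCell 0 536870912 1239849684 370763052 201326592 134217728
    (rowN 3 0 false false false .pnp 0 1 2 (qsf 0 536870912 1239849684 370763052 1) ndN1q0 ndN1q2b pcN1 Cut.none Ext.none)

def k0_mm_012_b : ∃ t, chk3 f_mm_012_b t 1 1 1 = true :=
  ⟨(l 5), by decide +kernel⟩

theorem c_mm_012_b : CertN 0 536870912 1239849684 370763052 201326592 134217728 3 false false false .pnp 0 1 2
    ndN1q0 ndN1q2b pcN1 Cut.none Ext.none :=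
  certN0 (fam := false) (s1 := false) (s2 := false) (a := 0) (b := 1) (c := 2) (cn := .pnp) (n1 := ndN1q0) (n2 := ndN1q2b) (pc := pcN1) (cut := Cut.none) (xt := Ext.none) (P1 := 0) (W1 := 536870912) (P2 := 1239849684) (W2 := 370763052) (P3 := 201326592) (W3 := 134217728) (N0 := 3)
    rfl k0_mm_012_b

noncomputable def f_mm_022_a : ℕ → ℕ → ℕ → ℕ → Bool := onCell 0 536870912 0 536870912 201326592 134217728
    (rowN 3 0 false false false .pp 0 2 2 (qsf 0 536870912 0 536870912 2) ndN1q0 ndN1q2a pcN2 Cut.none Ext.none)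

def k0_mm_022_a : ∃ t, chk3 f_mm_022_a t 1 1 1 = true :=
  ⟨(l 5), by decide +kernel⟩

theorem c_mm_022_a : CertN 0 536870912 0 536870912 201326592 134217728 3 false false false .pp 0 2 2
    ndN1q0 ndN1q2a pcN2 Cut.none Ext.none :=
  certN0 (fam := false) (s1 := false) (s2 := false) (a := 0) (b := 2) (c := 2) (cn := .pp) (n1 := ndN1q0) (n2 := ndN1q2a) (pc := pcN2) (cut := Cut.none) (xt := Ext.none) (P1 := 0) (W1 := 536870912) (P2 := 0) (W2 := 536870912) (P3 := 201326592) (W3 := 134217728) (N0 := 3)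
    rfl k0_mm_022_a

noncomputable def f_mm_022_b : ℕ → ℕ → ℕ → ℕ → Bool := onCell 0 536870912 1239849684 370763052 201326592 134217728
    (rowN 3 0 false false false .pp 0 2 2 (qsf 0 536870912 1239849684 370763052 2) ndN1q0 ndN1q2b pcN2 Cut.none Ext.none)

def k0_mm_022_b : ∃ t, chk3 f_mm_022_b t 1 1 1 = true :=
  ⟨(l 5), by decide +kernel⟩

theorem c_mm_022_b : CertN 0 536870912 1239849684 370763052 201326592 134217728 3 false false false .pp 0 2 2
    ndN1q0 ndN1q2b pcN2 Cut.none Ext.none :=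
  certN0 (fam := false) (s1 := false) (s2 := false) (a := 0) (b := 2) (c := 2) (cn := .pp) (n1 := ndN1q0) (n2 := ndN1q2b) (pc := pcN2) (cut := Cut.none) (xt := Ext.none) (P1 := 0) (W1 := 536870912) (P2 := 1239849684) (W2 := 370763052) (P3 := 201326592) (W3 := 134217728) (N0 := 3)
    rfl k0_mm_022_b

noncomputable def f_mm_023 : ℕ → ℕ → ℕ → ℕ → Bool := onCell 0 536870912 1610612736 536870912 201326592 134217728
    (rowN 3 0 false false false .up 0 2 3 (qsf 0 536870912 1610612736 536870912 2) ndN1q0 ndN1q3 pcN2 Cut.none Ext.none)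

def k0_mm_023 : ∃ t, chk3 f_mm_023 t 1 1 1 = true :=
  ⟨(l 5), by decide +kernel⟩

theorem c_mm_023 : CertN 0 536870912 1610612736 536870912 201326592 134217728 3 false false false .up 0 2 3
    ndN1q0 ndN1q3 pcN2 Cut.none Ext.none :=
  certN0 (fam := false) (s1 := false) (s2 := false) (a := 0) (b := 2) (c := 3) (cn := .up) (n1 := ndN1q0) (n2 := ndN1q3) (pc := pcN2) (cut := Cut.none) (xt := Ext.none) (P1 := 0) (W1 := 536870912) (P2 := 1610612736) (W2 := 536870912) (P3 := 201326592) (W3 := 134217728) (N0 := 3)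
    rfl k0_mm_023

noncomputable def f_mm_033 : ℕ → ℕ → ℕ → ℕ → Bool := onCell 0 536870912 1610612736 536870912 201326592 134217728
    (rowN 3 0 false false false .pnn 0 3 3 (qsf 0 536870912 1610612736 536870912 3) ndN1q0 ndN1q3 pcN3 Cut.none Ext.none)

def k0_mm_033 : ∃ t, chk3 f_mm_033 t 1 1 1 = true :=
  ⟨(l 5), by decide +kernel⟩

theorem c_mm_033 : CertN 0 536870912 1610612736 536870912 201326592 134217728 3 false false false .pnn 0 3 3
    ndN1q0 ndN1q3 pcN3 Cut.none Ext.none :=
  certN0 (fam := false) (s1 := false) (s2 := false) (a := 0) (b := 3) (c := 3) (cn := .pnn) (n1 := ndN1q0) (n2 := ndN1q3) (pc := pcN3) (cut := Cut.none) (xt := Ext.none) (P1 := 0) (W1 := 536870912) (P2 := 1610612736) (W2 := 536870912) (P3 := 201326592) (W3 := 134217728) (N0 := 3)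
    rfl k0_mm_033

noncomputable def f_mm_101 : ℕ → ℕ → ℕ → ℕ → Bool := onCell 536870912 536870912 536870912 536870912 201326592 134217728
    (rowN 3 0 false false false .npn 1 0 1 (qsf 536870912 536870912 536870912 536870912 0) ndN1q1 ndN1q1 pcN0 Cut.none Ext.none)

def k0_mm_101 : ∃ t, chk3 f_mm_101 t 1 1 1 = true :=
  ⟨(l 3), by decide +kernel⟩

theorem c_mm_101 : CertN 536870912 536870912 536870912 536870912 201326592 134217728 3 false false false .npn 1 0 1
    ndN1q1 ndN1q1 pcN0 Cut.none Ext.none :=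
  certN0 (fam := false) (s1 := false) (s2 := false) (a := 1) (b := 0) (c := 1) (cn := .npn) (n1 := ndN1q1) (n2 := ndN1q1) (pc := pcN0) (cut := Cut.none) (xt := Ext.none) (P1 := 536870912) (W1 := 536870912) (P2 := 536870912) (W2 := 536870912) (P3 := 201326592) (W3 := 134217728) (N0 := 3)
    rfl k0_mm_101

noncomputable def f_mm_102_a : ℕ → ℕ → ℕ → ℕ → Bool := onCell 536870912 536870912 0 536870912 201326592 134217728
    (rowN 3 0 false false false .npp 1 0 2 (qsf 536870912 536870912 0 536870912 0) ndN1q1 ndN1q2a pcN0 Cut.none Ext.none)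

def k0_mm_102_a : ∃ t, chk3 f_mm_102_a t 1 1 1 = true :=
  ⟨(l 5), by decide +kernel⟩

theorem c_mm_102_a : CertN 536870912 536870912 0 536870912 201326592 134217728 3 false false false .npp 1 0 2
    ndN1q1 ndN1q2a pcN0 Cut.none Ext.none :=
  certN0 (fam := false) (s1 := false) (s2 := false) (a := 1) (b := 0) (c := 2) (cn := .npp) (n1 := ndN1q1) (n2 := ndN1q2a) (pc := pcN0) (cut := Cut.none) (xt := Ext.none) (P1 := 536870912) (W1 := 536870912) (P2 := 0) (W2 := 536870912) (P3 := 201326592) (W3 := 134217728) (N0 := 3)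
    rfl k0_mm_102_a

noncomputable def f_mm_102_b : ℕ → ℕ → ℕ → ℕ → Bool := onCell 536870912 536870912 1239849684 370763052 201326592 134217728
    (rowN 3 0 false false false .npp 1 0 2 (qsf 536870912 536870912 1239849684 370763052 0) ndN1q1 ndN1q2b pcN0 Cut.none Ext.none)

def k0_mm_102_b : ∃ t, chk3 f_mm_102_b t 1 1 1 = true :=
  ⟨(l 5), by decide +kernel⟩

theorem c_mm_102_b : CertN 536870912 536870912 1239849684 370763052 201326592 134217728 3 false false false .npp 1 0 2
    ndN1q1 ndN1q2b pcN0 Cut.none Ext.none :=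
  certN0 (fam := false) (s1 := false) (s2 := false) (a := 1) (b := 0) (c := 2) (cn := .npp) (n1 := ndN1q1) (n2 := ndN1q2b) (pc := pcN0) (cut := Cut.none) (xt := Ext.none) (P1 := 536870912) (W1 := 536870912) (P2 := 1239849684) (W2 := 370763052) (P3 := 201326592) (W3 := 134217728) (N0 := 3)
    rfl k0_mm_102_b

noncomputable def f_mm_112_a : ℕ → ℕ → ℕ → ℕ → Bool := onCell 536870912 536870912 0 536870912 201326592 134217728
    (rowN 3 0 false false false .dn 1 1 2 (qsf 536870912 536870912 0 536870912 1) ndN1q1 ndN1q2a pcN1 Cut.none Ext.none)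

def k0_mm_112_a : ∃ t, chk3 f_mm_112_a t 1 1 1 = true :=
  ⟨(l 5), by decide +kernel⟩

theorem c_mm_112_a : CertN 536870912 536870912 0 536870912 201326592 134217728 3 false false false .dn 1 1 2
    ndN1q1 ndN1q2a pcN1 Cut.none Ext.none :=
  certN0 (fam := false) (s1 := false) (s2 := false) (a := 1) (b := 1) (c := 2) (cn := .dn) (n1 := ndN1q1) (n2 := ndN1q2a) (pc := pcN1) (cut := Cut.none) (xt := Ext.none) (P1 := 536870912) (W1 := 536870912) (P2 := 0) (W2 := 536870912) (P3 := 201326592) (W3 := 134217728) (N0 := 3)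
    rfl k0_mm_112_a

noncomputable def f_mm_112_b : ℕ → ℕ → ℕ → ℕ → Bool := onCell 536870912 536870912 1239849684 370763052 201326592 134217728
    (rowN 3 0 false false false .dn 1 1 2 (qsf 536870912 536870912 1239849684 370763052 1) ndN1q1 ndN1q2b pcN1 Cut.none Ext.none)

def k0_mm_112_b : ∃ t, chk3 f_mm_112_b t 1 1 1 = true :=
  ⟨(l 5), by decide +kernel⟩

theorem c_mm_112_b : CertN 536870912 536870912 1239849684 370763052 201326592 134217728 3 false false false .dn 1 1 2
    ndN1q1 ndN1q2b pcN1 Cut.none Ext.none :=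
  certN0 (fam := false) (s1 := false) (s2 := false) (a := 1) (b := 1) (c := 2) (cn := .dn) (n1 := ndN1q1) (n2 := ndN1q2b) (pc := pcN1) (cut := Cut.none) (xt := Ext.none) (P1 := 536870912) (W1 := 536870912) (P2 := 1239849684) (W2 := 370763052) (P3 := 201326592) (W3 := 134217728) (N0 := 3)
    rfl k0_mm_112_b

noncomputable def f_mm_113 : ℕ → ℕ → ℕ → ℕ → Bool := onCell 536870912 536870912 1610612736 536870912 201326592 134217728
    (rowN 3 0 false false false .nn 1 1 3 (qsf 536870912 536870912 1610612736 536870912 1) ndN1q1 ndN1q3 pcN1 Cut.none Ext.none)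

def k0_mm_113 : ∃ t, chk3 f_mm_113 t 1 1 1 = true :=
  ⟨(l 5), by decide +kernel⟩

theorem c_mm_113 : CertN 536870912 536870912 1610612736 536870912 201326592 134217728 3 false false false .nn 1 1 3
    ndN1q1 ndN1q3 pcN1 Cut.none Ext.none :=
  certN0 (fam := false) (s1 := false) (s2 := false) (a := 1) (b := 1) (c := 3) (cn := .nn) (n1 := ndN1q1) (n2 := ndN1q3) (pc := pcN1) (cut := Cut.none) (xt := Ext.none) (P1 := 536870912) (W1 := 536870912) (P2 := 1610612736) (W2 := 536870912) (P3 := 201326592) (W3 := 134217728) (N0 := 3)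
    rfl k0_mm_113

noncomputable def f_mm_123 : ℕ → ℕ → ℕ → ℕ → Bool := onCell 536870912 536870912 1610612736 536870912 201326592 134217728
    (rowN 3 0 false false false .npn 1 2 3 (qsf 536870912 536870912 1610612736 536870912 2) ndN1q1 ndN1q3 pcN2 Cut.none Ext.none)

def k0_mm_123 : ∃ t, chk3 f_mm_123 t 1 1 1 = true :=
  ⟨(l 5), by decide +kernel⟩

theorem c_mm_123 : CertN 536870912 536870912 1610612736 536870912 201326592 134217728 3 false false false .npn 1 2 3
    ndN1q1 ndN1q3 pcN2 Cut.none Ext.none :=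
  certN0 (fam := false) (s1 := false) (s2 := false) (a := 1) (b := 2) (c := 3) (cn := .npn) (n1 := ndN1q1) (n2 := ndN1q3) (pc := pcN2) (cut := Cut.none) (xt := Ext.none) (P1 := 536870912) (W1 := 536870912) (P2 := 1610612736) (W2 := 536870912) (P3 := 201326592) (W3 := 134217728) (N0 := 3)
    rfl k0_mm_123

noncomputable def f_mm_133 : ℕ → ℕ → ℕ → ℕ → Bool := onCell 536870912 536870912 1610612736 536870912 201326592 134217728
    (rowN 3 0 false false false .dn 1 3 3 (qsf 536870912 536870912 1610612736 536870912 3) ndN1q1 ndN1q3 pcN3 Cut.none Ext.none)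

def k0_mm_133 : ∃ t, chk3 f_mm_133 t 1 1 1 = true :=
  ⟨(l 5), by decide +kernel⟩

theorem c_mm_133 : CertN 536870912 536870912 1610612736 536870912 201326592 134217728 3 false false false .dn 1 3 3
    ndN1q1 ndN1q3 pcN3 Cut.none Ext.none :=
  certN0 (fam := false) (s1 := false) (s2 := false) (a := 1) (b := 3) (c := 3) (cn := .dn) (n1 := ndN1q1) (n2 := ndN1q3) (pc := pcN3) (cut := Cut.none) (xt := Ext.none) (P1 := 536870912) (W1 := 536870912) (P2 := 1610612736) (W2 := 536870912) (P3 := 201326592) (W3 := 134217728) (N0 := 3)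
    rfl k0_mm_133

noncomputable def f_mm_202_aa : ℕ → ℕ → ℕ → ℕ → Bool := onCell 0 536870912 0 536870912 201326592 134217728
    (rowN 3 0 false false false .pp 2 0 2 (qsf 0 536870912 0 536870912 0) ndN1q2a ndN1q2a pcN0 Cut.none Ext.none)

def k0_mm_202_aa : ∃ t, chk3 f_mm_202_aa t 1 1 1 = true :=
  ⟨(l 3), by decide +kernel⟩

theorem c_mm_202_aa : CertN 0 536870912 0 536870912 201326592 134217728 3 false false false .pp 2 0 2
    ndN1q2a ndN1q2a pcN0 Cut.none Ext.none :=
  certN0 (fam := false) (s1 := false) (s2 := false) (a := 2) (b := 0) (c := 2) (cn := .pp) (n1 := ndN1q2a) (n2 := ndN1q2a) (pc := pcN0) (cut := Cut.none) (xt := Ext.none) (P1 := 0) (W1 := 536870912) (P2 := 0) (W2 := 536870912) (P3 := 201326592) (W3 := 134217728) (N0 := 3)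
    rfl k0_mm_202_aa

noncomputable def f_mm_202_ab : ℕ → ℕ → ℕ → ℕ → Bool := onCell 0 536870912 1239849684 370763052 201326592 134217728
    (rowN 3 0 false false false .pp 2 0 2 (qsf 0 536870912 1239849684 370763052 0) ndN1q2a ndN1q2b pcN0 Cut.none Ext.none)

def k0_mm_202_ab : ∃ t, chk3 f_mm_202_ab t 1 1 1 = true :=
  ⟨(l 3), by decide +kernel⟩

theorem c_mm_202_ab : CertN 0 536870912 1239849684 370763052 201326592 134217728 3 false false false .pp 2 0 2
    ndN1q2a ndN1q2b pcN0 Cut.none Ext.none :=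
  certN0 (fam := false) (s1 := false) (s2 := false) (a := 2) (b := 0) (c := 2) (cn := .pp) (n1 := ndN1q2a) (n2 := ndN1q2b) (pc := pcN0) (cut := Cut.none) (xt := Ext.none) (P1 := 0) (W1 := 536870912) (P2 := 1239849684) (W2 := 370763052) (P3 := 201326592) (W3 := 134217728) (N0 := 3)
    rfl k0_mm_202_ab

noncomputable def f_mm_202_ba : ℕ → ℕ → ℕ → ℕ → Bool := onCell 1239849684 370763052 0 536870912 201326592 134217728
    (rowN 3 0 false false false .pp 2 0 2 (qsf 1239849684 370763052 0 536870912 0) ndN1q2b ndN1q2a pcN0 Cut.none Ext.none)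

def k0_mm_202_ba : ∃ t, chk3 f_mm_202_ba t 1 1 1 = true :=
  ⟨(l 3), by decide +kernel⟩

theorem c_mm_202_ba : CertN 1239849684 370763052 0 536870912 201326592 134217728 3 false false false .pp 2 0 2
    ndN1q2b ndN1q2a pcN0 Cut.none Ext.none :=
  certN0 (fam := false) (s1 := false) (s2 := false) (a := 2) (b := 0) (c := 2) (cn := .pp) (n1 := ndN1q2b) (n2 := ndN1q2a) (pc := pcN0) (cut := Cut.none) (xt := Ext.none) (P1 := 1239849684) (W1 := 370763052) (P2 := 0) (W2 := 536870912) (P3 := 201326592) (W3 := 134217728) (N0 := 3)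
    rfl k0_mm_202_ba

noncomputable def f_mm_202_bb : ℕ → ℕ → ℕ → ℕ → Bool := onCell 1239849684 370763052 1239849684 370763052 201326592 134217728
    (rowN 3 0 false false false .pp 2 0 2 (qsf 1239849684 370763052 1239849684 370763052 0) ndN1q2b ndN1q2b pcN0 Cut.none Ext.none)

def k0_mm_202_bb : ∃ t, chk3 f_mm_202_bb t 1 1 1 = true :=
  ⟨(l 3), by decide +kernel⟩

theorem c_mm_202_bb : CertN 1239849684 370763052 1239849684 370763052 201326592 134217728 3 false false false .pp 2 0 2
    ndN1q2b ndN1q2b pcN0 Cut.none Ext.none :=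
  certN0 (fam := false) (s1 := false) (s2 := false) (a := 2) (b := 0) (c := 2) (cn := .pp) (n1 := ndN1q2b) (n2 := ndN1q2b) (pc := pcN0) (cut := Cut.none) (xt := Ext.none) (P1 := 1239849684) (W1 := 370763052) (P2 := 1239849684) (W2 := 370763052) (P3 := 201326592) (W3 := 134217728) (N0 := 3)
    rfl k0_mm_202_bb

noncomputable def f_mm_203_a : ℕ → ℕ → ℕ → ℕ → Bool := onCell 0 536870912 1610612736 536870912 201326592 134217728
    (rowN 3 0 false false false .up 2 0 3 (qsf 0 536870912 1610612736 536870912 0) ndN1q2a ndN1q3 pcN0 Cut.none Ext.none)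

def k0_mm_203_a : ∃ t, chk3 f_mm_203_a t 1 1 1 = true :=
  ⟨(l 5), by decide +kernel⟩

theorem c_mm_203_a : CertN 0 536870912 1610612736 536870912 201326592 134217728 3 false false false .up 2 0 3
    ndN1q2a ndN1q3 pcN0 Cut.none Ext.none :=
  certN0 (fam := false) (s1 := false) (s2 := false) (a := 2) (b := 0) (c := 3) (cn := .up) (n1 := ndN1q2a) (n2 := ndN1q3) (pc := pcN0) (cut := Cut.none) (xt := Ext.none) (P1 := 0) (W1 := 536870912) (P2 := 1610612736) (W2 := 536870912) (P3 := 201326592) (W3 := 134217728) (N0 := 3)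
    rfl k0_mm_203_a

noncomputable def f_mm_203_b : ℕ → ℕ → ℕ → ℕ → Bool := onCell 1239849684 370763052 1610612736 536870912 201326592 134217728
    (rowN 3 0 false false false .up 2 0 3 (qsf 1239849684 370763052 1610612736 536870912 0) ndN1q2b ndN1q3 pcN0 Cut.none Ext.none)

def k0_mm_203_b : ∃ t, chk3 f_mm_203_b t 1 1 1 = true :=
  ⟨(l 3), by decide +kernel⟩

theorem c_mm_203_b : CertN 1239849684 370763052 1610612736 536870912 201326592 134217728 3 false false false .up 2 0 3
    ndN1q2b ndN1q3 pcN0 Cut.none Ext.none :=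
  certN0 (fam := false) (s1 := false) (s2 := false) (a := 2) (b := 0) (c := 3) (cn := .up) (n1 := ndN1q2b) (n2 := ndN1q3) (pc := pcN0) (cut := Cut.none) (xt := Ext.none) (P1 := 1239849684) (W1 := 370763052) (P2 := 1610612736) (W2 := 536870912) (P3 := 201326592) (W3 := 134217728) (N0 := 3)
    rfl k0_mm_203_b

noncomputable def f_mm_213_a : ℕ → ℕ → ℕ → ℕ → Bool := onCell 0 536870912 1610612736 536870912 201326592 134217728
    (rowN 3 0 false false false .pnn 2 1 3 (qsf 0 536870912 1610612736 536870912 1) ndN1q2a ndN1q3 pcN1 Cut.none Ext.none)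

def k0_mm_213_a : ∃ t, chk3 f_mm_213_a t 1 1 1 = true :=
  ⟨(l 5), by decide +kernel⟩

theorem c_mm_213_a : CertN 0 536870912 1610612736 536870912 201326592 134217728 3 false false false .pnn 2 1 3
    ndN1q2a ndN1q3 pcN1 Cut.none Ext.none :=
  certN0 (fam := false) (s1 := false) (s2 := false) (a := 2) (b := 1) (c := 3) (cn := .pnn) (n1 := ndN1q2a) (n2 := ndN1q3) (pc := pcN1) (cut := Cut.none) (xt := Ext.none) (P1 := 0) (W1 := 536870912) (P2 := 1610612736) (W2 := 536870912) (P3 := 201326592) (W3 := 134217728) (N0 := 3)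
    rfl k0_mm_213_a

noncomputable def f_mm_213_b : ℕ → ℕ → ℕ → ℕ → Bool := onCell 1239849684 370763052 1610612736 536870912 201326592 134217728
    (rowN 3 0 false false false .pnn 2 1 3 (qsf 1239849684 370763052 1610612736 536870912 1) ndN1q2b ndN1q3 pcN1 Cut.none Ext.none)

def k0_mm_213_b : ∃ t, chk3 f_mm_213_b t 1 1 1 = true :=
  ⟨(l 3), by decide +kernel⟩

theorem c_mm_213_b : CertN 1239849684 370763052 1610612736 536870912 201326592 134217728 3 false false false .pnn 2 1 3
    ndN1q2b ndN1q3 pcN1 Cut.none Ext.none :=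
  certN0 (fam := false) (s1 := false) (s2 := false) (a := 2) (b := 1) (c := 3) (cn := .pnn) (n1 := ndN1q2b) (n2 := ndN1q3) (pc := pcN1) (cut := Cut.none) (xt := Ext.none) (P1 := 1239849684) (W1 := 370763052) (P2 := 1610612736) (W2 := 536870912) (P3 := 201326592) (W3 := 134217728) (N0 := 3)
    rfl k0_mm_213_b

noncomputable def f_mm_303 : ℕ → ℕ → ℕ → ℕ → Bool := onCell 1610612736 536870912 1610612736 536870912 201326592 134217728
    (rowN 3 0 false false false .npn 3 0 3 (qsf 1610612736 536870912 1610612736 536870912 0) ndN1q3 ndN1q3 pcN0 Cut.none Ext.none)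

def k0_mm_303 : ∃ t, chk3 f_mm_303 t 1 1 1 = true :=
  ⟨(l 3), by decide +kernel⟩

theorem c_mm_303 : CertN 1610612736 536870912 1610612736 536870912 201326592 134217728 3 false false false .npn 3 0 3
    ndN1q3 ndN1q3 pcN0 Cut.none Ext.none :=
  certN0 (fam := false) (s1 := false) (s2 := false) (a := 3) (b := 0) (c := 3) (cn := .npn) (n1 := ndN1q3) (n2 := ndN1q3) (pc := pcN0) (cut := Cut.none) (xt := Ext.none) (P1 := 1610612736) (W1 := 536870912) (P2 := 1610612736) (W2 := 536870912) (P3 := 201326592) (W3 := 134217728) (N0 := 3)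
    rfl k0_mm_303

noncomputable def f_mm_313 : ℕ → ℕ → ℕ → ℕ → Bool := onCell 1610612736 536870912 1610612736 536870912 201326592 134217728
    (rowN 3 0 false false false .dn 3 1 3 (qsf 1610612736 536870912 1610612736 536870912 1) ndN1q3 ndN1q3 pcN1 Cut.none Ext.none)

def k0_mm_313 : ∃ t, chk3 f_mm_313 t 1 1 1 = true :=
  ⟨(l 3), by decide +kernel⟩

theorem c_mm_313 : CertN 1610612736 536870912 1610612736 536870912 201326592 134217728 3 false false false .dn 3 1 3
    ndN1q3 ndN1q3 pcN1 Cut.none Ext.none :=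
  certN0 (fam := false) (s1 := false) (s2 := false) (a := 3) (b := 1) (c := 3) (cn := .dn) (n1 := ndN1q3) (n2 := ndN1q3) (pc := pcN1) (cut := Cut.none) (xt := Ext.none) (P1 := 1610612736) (W1 := 536870912) (P2 := 1610612736) (W2 := 536870912) (P3 := 201326592) (W3 := 134217728) (N0 := 3)
    rfl k0_mm_313

end Pool.Agent.Strip051.G.I3_16_5_16.Tab.C.NB11

namespace Pool.Agent.Strip051.G.I3_16_5_16.Tab.C.NB12

open Pool.Agent.Strip051.PB Pool.Agent.Strip051.PB.T
open Pool.Agent.Strip051.G.I3_16_5_16.Tab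

noncomputable def f_pp_001 : ℕ → ℕ → ℕ → ℕ → Bool := onCell 0 536870912 0 536870912 201326592 134217728
    (rowN 3 1 false true true .up 0 0 1 (qsf 0 536870912 536870912 536870912 0) ndN1q0 ndN2q1 pcN0 Cut.none Ext.none)

def k0_pp_001 : ∃ t, chk3 f_pp_001 t 1 1 1 = true :=
  ⟨(l 3), by decide +kernel⟩

theorem c_pp_001 : CertN 0 536870912 536870912 536870912 201326592 134217728 3 false true true .up 0 0 1
    ndN1q0 ndN2q1 pcN0 Cut.none Ext.none :=
  certN1 (fam := false) (s1 := true) (s2 := true) (a := 0) (b := 0) (c := 1) (cn := .up) (n1 := ndN1q0) (n2 := ndN2q1) (pc := pcN0) (cut := Cut.none) (xt := Ext.none) (P1 := 0) (W1 := 536870912) (P2 := 536870912) (W2 := 536870912) (P3 := 201326592) (W3 := 134217728) (N0 := 3)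
    rfl (fun _ => rfl) k0_pp_001

noncomputable def f_pp_011 : ℕ → ℕ → ℕ → ℕ → Bool := onCell 0 536870912 536870912 536870912 201326592 134217728
    (rowN 3 0 false true true .pnn 0 1 1 (qsf 0 536870912 536870912 536870912 1) ndN1q0 ndN2q1 pcN1 Cut.none Ext.none)

def k0_pp_011 : ∃ t, chk3 f_pp_011 t 1 1 1 = true :=
  ⟨(a (l 3) (l 3)), by decide +kernel⟩

theorem c_pp_011 : CertN 0 536870912 536870912 536870912 201326592 134217728 3 false true true .pnn 0 1 1
    ndN1q0 ndN2q1 pcN1 Cut.none Ext.none :=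
  certN0 (fam := false) (s1 := true) (s2 := true) (a := 0) (b := 1) (c := 1) (cn := .pnn) (n1 := ndN1q0) (n2 := ndN2q1) (pc := pcN1) (cut := Cut.none) (xt := Ext.none) (P1 := 0) (W1 := 536870912) (P2 := 536870912) (W2 := 536870912) (P3 := 201326592) (W3 := 134217728) (N0 := 3)
    rfl k0_pp_011

noncomputable def cut_pp_012_a : Cut := Cut.of [[⟨0, 0, 0, 67108864⟩, ⟨1, 1, 0, 67108864⟩, ⟨2, 1, 0, 67108864⟩]]

noncomputable def f_pp_012_a : ℕ → ℕ → ℕ → ℕ → Bool := onCell 536870912 536870912 0 536870912 201326592 134217728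
    (rowN 3 2 false true true .pnp 0 1 2 (qsf 0 536870912 0 536870912 1) ndN1q0 ndN2q2a pcN1 cut_pp_012_a Ext.none)

def k0_pp_012_a : ∃ t, chk3 f_pp_012_a t 1 1 1 = true :=
  ⟨(a (l 3) (a (b (a (l 3) (l 17021336)) (b (l 3) (l 3))) (b (a (b (l 16762464) (l 16828656)) (b (l 16665440) (a (l 16715480) (l 16665640)))) (b (b (a (l 16828216) (a (l 16741680) (l 16693016))) (a (a (l 16822344) (l 16805152)) (a (l 16763592) (a (l 16727992) (l 16704344))))) (a (b (b (l 16909728) (l 3)) (l 3)) (b (b (a (l 16782224) (a (l 16748024) (l 16725072))) (a (l 16814544) (a (l 16763144) (a (l 16746272) (l 16735096))))) (b (a (b (l 16821936) (l 16829248)) (a (b (l 16775424) (l 6)) (l 6))) (a (l 3) (l 6))))))))), by decide +kernel⟩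

theorem c_pp_012_a : CertN 0 536870912 0 536870912 201326592 134217728 3 false true true .pnp 0 1 2
    ndN1q0 ndN2q2a pcN1 cut_pp_012_a Ext.none :=
  certN2 (fam := false) (s1 := true) (s2 := true) (a := 0) (b := 1) (c := 2) (cn := .pnp) (n1 := ndN1q0) (n2 := ndN2q2a) (pc := pcN1) (cut := cut_pp_012_a) (xt := Ext.none) (P1 := 0) (W1 := 536870912) (P2 := 0) (W2 := 536870912) (P3 := 201326592) (W3 := 134217728) (N0 := 3)
    rfl (fun _ => rfl) k0_pp_012_a

noncomputable def cut_pp_012_b : Cut := Cut.of [[⟨0, 0, 0, 67108864⟩, ⟨1, 1, 0, 67108864⟩, ⟨2, 1, 0, 67108864⟩]]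

noncomputable def f_pp_012_b : ℕ → ℕ → ℕ → ℕ → Bool := onCell 536870912 536870912 1239849684 370763052 201326592 134217728
    (rowN 3 2 false true true .pnp 0 1 2 (qsf 0 536870912 1239849684 370763052 1) ndN1q0 ndN2q2b pcN1 cut_pp_012_b Ext.none)

def k0_pp_012_b : ∃ t, chk3 f_pp_012_b t 1 1 1 = true :=
  ⟨(b (a (l 3) (a (a (b (l 16919128) (l 16870992)) (b (l 16844640) (l 16963976))) (a (b (l 16847568) (l 17006640)) (b (a (l 16658552) (l 16605200)) (a (l 16970256) (l 16877912)))))) (a (l 2) (a (a (l 2) (l 17102896)) (a (l 17221864) (b (l 17190104) (l 17328552)))))), by decide +kernel⟩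

theorem c_pp_012_b : CertN 0 536870912 1239849684 370763052 201326592 134217728 3 false true true .pnp 0 1 2
    ndN1q0 ndN2q2b pcN1 cut_pp_012_b Ext.none :=
  certN2 (fam := false) (s1 := true) (s2 := true) (a := 0) (b := 1) (c := 2) (cn := .pnp) (n1 := ndN1q0) (n2 := ndN2q2b) (pc := pcN1) (cut := cut_pp_012_b) (xt := Ext.none) (P1 := 0) (W1 := 536870912) (P2 := 1239849684) (W2 := 370763052) (P3 := 201326592) (W3 := 134217728) (N0 := 3)
    rfl (fun _ => rfl) k0_pp_012_b

noncomputable def cut_pp_022_a : Cut := Cut.of [[⟨0, 0, 0, 67108864⟩, ⟨1, 1, 0, 67108864⟩, ⟨2, 1, 0, 67108864⟩]]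

noncomputable def f_pp_022_a : ℕ → ℕ → ℕ → ℕ → Bool := onCell 0 536870912 0 536870912 201326592 134217728
    (rowN 3 0 false true true .pp 0 2 2 (qsf 0 536870912 0 536870912 2) ndN1q0 ndN2q2a pcN2 cut_pp_022_a Ext.none)

def k0_pp_022_a : ∃ t, chk3 f_pp_022_a t 2 2 1 = true :=
  ⟨(a (a (b (a (a (b (a (c (a (a (b (a (c (l 16526176) (l 16518216)) (l 16501088)) (l 16523736)) (b (l 16500624) (l 16502488))) (l 16542696)) (b (a (a (a (l 16527272) (l 16485424)) (l 16485312)) (l 16485104)) (a (l 16507848) (l 16487192)))) (c (l 16562496) (l 16549176))) (c (a (b (a (l 16537824) (l 16505632)) (c (l 16536512) (l 16529440))) (b (l 16525600) (l 16531960))) (a (b (l 16553992) (l 16539808)) (b (l 16512616) (l 16519376))))) (a (b (c (l 16540176) (l 16528408)) (c (l 16590736) (l 16579448))) (b (b (l 16531712) (l 16534224)) (b (l 16539184) (l 16567648))))) (b (l 16515280) (l 16535680))) (a (b (a (c (a (b (c (l 16544704) (l 16537936)) (c (l 16576000) (l 16569600))) (b (a (l 16519168) (l 16518376))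 (l 16571792))) (a (b (l 16548720) (c (l 16563160) (l 16556688))) (b (l 16527920) (l 16560408)))) (a (c (b (l 16539680) (l 16572560)) (a (l 16619184) (l 16620216))) (l 16540712))) (a (a (c (a (b (c (l 16566552) (l 16560480)) (c (l 16602544) (l 16596896))) (b (l 16563472) (l 16557408))) (b (a (l 16572224) (l 16551880)) (b (l 16584232) (l 16550432)))) (b (c (l 16606536) (l 16595672)) (c (l 16558056) (l 16548064)))) (c (l 16572896) (l 16563984)))) (c (l 16595384) (l 16588088)))) (b (a (l 16536192) (l 16584512)) (a (c (l 16580224) (l 16581208)) (l 16609408)))) (a (b (l 16652056) (a (b (l 16659712) (l 16693104)) (l 1))) (l 1))), by decide +kernel⟩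

def k1_pp_022_a : ∃ t, chk3 f_pp_022_a t 2 3 1 = true :=
  ⟨(a (b (a (a (b (c (a (a (c (b (l 16577272) (l 16596432)) (b (l 16572256) (l 16591968))) (l 16617352)) (l 16608904)) (a (a (b (l 16564560) (l 16592936)) (l 16598200)) (l 16601568))) (a (c (b (a (c (l 16618064) (l 16614128)) (l 16617600)) (a (c (a (l 16641336) (l 16642064)) (l 16659360)) (l 16641768))) (a (b (l 16617192) (b (l 16626584) (l 16639720))) (l 16665400))) (c (l 16674624) (l 16648368)))) (b (c (l 16613848) (l 16589976)) (a (c (l 16657640) (l 16634400)) (l 16702776)))) (b (a (l 16642096) (l 16732976)) (a (c (b (l 16683080) (l 16735704)) (l 16673352)) (b (l 16731408) (l 1))))) (b (a (a (b (a (c (b (a (c (l 16660472) (l 16657736)) (l 16661128)) (a (c (l 16684344) (l 16671512)) (l 16674944))) (a (a (b (l 16652704) (l 16667016)) (l 16682384)) (l 16684632))) (c (l 16692512) (l 16668176))) (l 6)) (b (a (l 16707344) (l 16691288)) (a (l 6) (b (l 16719936) (l 16803120))))) (b (a (a (l 16779176) (l 1)) (l 1)) (l 1)))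 (a (a (l 6) (a (l 6) (l 1))) (l 1)))) (b (l 1) (l 1))), by decide +kernel⟩

def k2_pp_022_a : ∃ t, chk3 f_pp_022_a t 3 1 1 = true :=
  ⟨(l 1), by decide +kernel⟩

theorem s3_pp_022_a : ∃ t, chk3 f_pp_022_a t 2 1 1 = true := ex3_b k0_pp_022_a k1_pp_022_a

theorem s4_pp_022_a : ∃ t, chk3 f_pp_022_a t 1 1 1 = true := ex3_a s3_pp_022_a k2_pp_022_a

theorem c_pp_022_a : CertN 0 536870912 0 536870912 201326592 134217728 3 false true true .pp 0 2 2
    ndN1q0 ndN2q2a pcN2 cut_pp_022_a Ext.none :=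
  certN0 (fam := false) (s1 := true) (s2 := true) (a := 0) (b := 2) (c := 2) (cn := .pp) (n1 := ndN1q0) (n2 := ndN2q2a) (pc := pcN2) (cut := cut_pp_022_a) (xt := Ext.none) (P1 := 0) (W1 := 536870912) (P2 := 0) (W2 := 536870912) (P3 := 201326592) (W3 := 134217728) (N0 := 3)
    rfl s4_pp_022_a

noncomputable def cut_pp_022_b : Cut := Cut.of [[⟨0, 0, 0, 67108864⟩, ⟨1, 1, 0, 67108864⟩, ⟨2, 1, 0, 67108864⟩]]

noncomputable def f_pp_022_b : ℕ → ℕ → ℕ → ℕ → Bool := onCell 0 536870912 1073741824 536870912 201326592 134217728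
    (rowN 3 1 false true true .pp 0 2 2 (qsf 0 536870912 1239849684 370763052 2) ndN1q0 ndN2q2b pcN2 cut_pp_022_b Ext.none)

def k0_pp_022_b : ∃ t, chk3 f_pp_022_b t 2 2 1 = true :=
  ⟨(a (b (a (b (l 1) (b (a (l 1) (l 206191738295)) (b (a (l 1) (l 241625004791)) (a (c (l 236256520071) (l 243235834919)) (c (l 16603832) (l 16574040)))))) (b (b (l 186864545911) (l 186864413815)) (b (l 16599344) (b (l 16510944) (b (l 16467152) (l 16493608)))))) (b (b (b (a (a (c (a (l 244309470407) (l 16556128)) (c (l 242698865239) (l 242698861319))) (c (l 16527376) (l 16496888))) (a (l 16492848) (l 16421344))) (a (a (b (c (a (l 249141201223) (l 16471080)) (l 246993710423)) (b (c (a (l 16513800) (l 16460888)) (l 16504896)) (c (a (b (l 16508872) (c (l 16509768) (l 16501888))) (l 16517024)) (a (b (l 16472664) (l 16511184)) (l 16481896))))) (b (l 16478000) (b (l 16467136) (b (l 16440896) (l 16458608))))) (b (l 16419992) (b (l 16384824) (l 16472344))))) (a (a (c (a (b (c (l 16497448) (l 16488704))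 (a (l 16476232) (l 16439648))) (l 16516200)) (a (b (l 16496768) (l 16448344)) (l 16497928))) (c (l 16508448) (l 16470712))) (b (l 16405568) (l 16539728)))) (a (b (a (c (a (b (l 16466736) (l 16424944)) (l 16465320)) (b (l 16449016) (l 16403728))) (b (l 16415184) (l 16389632))) (c (a (a (b (l 16583904) (l 16755936)) (l 16928096)) (l 17133848)) (a (a (l 16408408) (l 16336208)) (l 16267400)))) (b (c (l 17209360) (l 16410352)) (c (l 17425168) (l 16699224)))))) (b (a (b (b (l 16606464) (l 16547128)) (b (l 16489752) (b (l 16473384) (b (l 16584312) (l 16654360))))) (b (l 16550208) (b (l 16857864) (b (l 17006232) (l 17096080))))) (b (b (b (a (l 16753544) (l 17180568)) (b (a (l 16846352) (l 17238400)) (a (b (l 16890352) (l 16918888)) (l 17275136)))) (a (c (l 17373000) (l 16700816)) (l 17355808))) (b (a (l 17223768) (l 17474024)) (a (l 17376664) (l 17572192)))))), by decide +kernel⟩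

def k1_pp_022_b : ∃ t, chk3 f_pp_022_b t 2 3 1 = true :=
  ⟨(b (a (b (a (b (a (c (a (b (l 17024448) (l 17205536)) (l 17245464)) (a (l 16331440) (l 16371272))) (c (l 17389104) (l 16598928))) (a (c (a (l 17387104) (l 17487944)) (a (l 16562888) (l 16715144))) (c (l 17585928) (l 16879984)))) (b (c (l 17595128) (l 16933784)) (c (l 17727944) (l 17123672)))) (a (b (c (a (l 17648184) (l 17735856)) (a (b (l 16878232) (l 17009352)) (l 17104192))) (c (l 17822792) (b (l 17037728) (l 17271768)))) (b (l 17555328) (l 17654712)))) (b (b (l 17585168) (l 17666704)) (b (l 17732072) (l 17784328)))) (b (a (a (b (c (l 17916272) (a (l 17332392) (l 17402712))) (l 17733208)) (b (l 17736144) (l 17807568))) (l 17948984)) (a (a (l 17840760) (l 17895928)) (l 2)))), by decide +kernel⟩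

def k2_pp_022_b : ∃ t, chk3 f_pp_022_b t 3 1 1 = true :=
  ⟨(b (a (b (b (a (l 16994288) (l 17279632)) (b (l 17343192) (b (l 17427600) (l 17478064)))) (b (b (b (l 17526112) (b (l 17558000) (l 17578352))) (l 17620016)) (l 17898584))) (b (b (l 17522928) (b (l 17628784) (b (l 17675472) (l 17702584)))) (b (b (b (l 17728488) (l 2)) (l 2)) (l 2)))) (b (b (a (l 17802880) (l 2)) (l 2)) (l 2))), by decide +kernel⟩

theorem s3_pp_022_b : ∃ t, chk3 f_pp_022_b t 2 1 1 = true := ex3_b k0_pp_022_b k1_pp_022_b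

theorem s4_pp_022_b : ∃ t, chk3 f_pp_022_b t 1 1 1 = true := ex3_a s3_pp_022_b k2_pp_022_b

theorem c_pp_022_b : CertN 0 536870912 1239849684 370763052 201326592 134217728 3 false true true .pp 0 2 2
    ndN1q0 ndN2q2b pcN2 cut_pp_022_b Ext.none :=
  certN1 (fam := false) (s1 := true) (s2 := true) (a := 0) (b := 2) (c := 2) (cn := .pp) (n1 := ndN1q0) (n2 := ndN2q2b) (pc := pcN2) (cut := cut_pp_022_b) (xt := Ext.none) (P1 := 0) (W1 := 536870912) (P2 := 1239849684) (W2 := 370763052) (P3 := 201326592) (W3 := 134217728) (N0 := 3)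
    rfl (fun _ => rfl) s4_pp_022_b

noncomputable def f_pp_023 : ℕ → ℕ → ℕ → ℕ → Bool := onCell 1073741824 536870912 1610612736 536870912 201326592 134217728
    (rowN 3 2 false true true .up 0 2 3 (qsf 0 536870912 1610612736 536870912 2) ndN1q0 ndN2q3 pcN2 Cut.none Ext.none)

def k0_pp_023 : ∃ t, chk3 f_pp_023 t 1 1 1 = true :=
  ⟨(a (b (a (a (l 17682360) (a (l 17724472) (a (l 17744080) (l 17754656)))) (a (a (a (l 17765544) (a (l 17772248) (l 17776392))) (l 17780136)) (b (l 17744936) (l 17821952)))) (a (l 2) (a (l 2) (l 18081320)))) (a (b (a (b (l 17769584) (l 17852552)) (b (l 17790944) (l 17880808))) (a (l 17837880) (l 17840032))) (a (b (b (a (l 17820224) (l 17849128)) (l 17924656)) (b (l 17899680) (l 17788800))) (b (b (l 17888632) (l 17969488)) (l 17798896))))), by decide +kernel⟩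

theorem c_pp_023 : CertN 0 536870912 1610612736 536870912 201326592 134217728 3 false true true .up 0 2 3
    ndN1q0 ndN2q3 pcN2 Cut.none Ext.none :=
  certN2 (fam := false) (s1 := true) (s2 := true) (a := 0) (b := 2) (c := 3) (cn := .up) (n1 := ndN1q0) (n2 := ndN2q3) (pc := pcN2) (cut := Cut.none) (xt := Ext.none) (P1 := 0) (W1 := 536870912) (P2 := 1610612736) (W2 := 536870912) (P3 := 201326592) (W3 := 134217728) (N0 := 3)
    rfl (fun _ => rfl) k0_pp_023

noncomputable def f_pp_033 : ℕ → ℕ → ℕ → ℕ → Bool := onCell 0 536870912 1610612736 536870912 201326592 134217728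
    (rowN 3 1 false true true .pnn 0 3 3 (qsf 0 536870912 1610612736 536870912 3) ndN1q0 ndN2q3 pcN3 Cut.none Ext.none)

def k0_pp_033 : ∃ t, chk3 f_pp_033 t 1 1 1 = true :=
  ⟨(a (a (b (a (b (b (l 17846488) (l 17873344)) (b (l 17888256) (l 17888936))) (b (b (l 17777424) (l 17809600)) (b (l 17832952) (l 17805160)))) (b (b (l 17772464) (l 4)) (l 4))) (b (b (b (c (l 17771256) (l 17610176)) (c (l 17832688) (l 17641128))) (b (b (l 17745552) (l 17719960)) (l 17721240))) (b (l 4) (a (b (l 4) (l 2)) (l 2))))) (b (a (b (b (l 17658808) (b (l 17668304) (l 17636672))) (b (l 17480528) (l 4))) (b (b (l 17710016) (l 17380736)) (a (b (l 4) (l 2)) (l 2)))) (a (b (a (b (l 4) (l 2)) (l 2)) (l 2)) (l 2)))), by decide +kernel⟩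

theorem c_pp_033 : CertN 0 536870912 1610612736 536870912 201326592 134217728 3 false true true .pnn 0 3 3
    ndN1q0 ndN2q3 pcN3 Cut.none Ext.none :=
  certN1 (fam := false) (s1 := true) (s2 := true) (a := 0) (b := 3) (c := 3) (cn := .pnn) (n1 := ndN1q0) (n2 := ndN2q3) (pc := pcN3) (cut := Cut.none) (xt := Ext.none) (P1 := 0) (W1 := 536870912) (P2 := 1610612736) (W2 := 536870912) (P3 := 201326592) (W3 := 134217728) (N0 := 3)
    rfl (fun _ => rfl) k0_pp_033

noncomputable def f_pp_101 : ℕ → ℕ → ℕ → ℕ → Bool := onCell 536870912 536870912 536870912 536870912 201326592 134217728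
    (rowN 3 0 false true true .npn 1 0 1 (qsf 536870912 536870912 536870912 536870912 0) ndN1q1 ndN2q1 pcN0 Cut.none Ext.none)

def k0_pp_101 : ∃ t, chk3 f_pp_101 t 1 1 1 = true :=
  ⟨(l 3), by decide +kernel⟩

theorem c_pp_101 : CertN 536870912 536870912 536870912 536870912 201326592 134217728 3 false true true .npn 1 0 1
    ndN1q1 ndN2q1 pcN0 Cut.none Ext.none :=
  certN0 (fam := false) (s1 := true) (s2 := true) (a := 1) (b := 0) (c := 1) (cn := .npn) (n1 := ndN1q1) (n2 := ndN2q1) (pc := pcN0) (cut := Cut.none) (xt := Ext.none) (P1 := 536870912) (W1 := 536870912) (P2 := 536870912) (W2 := 536870912) (P3 := 201326592) (W3 := 134217728) (N0 := 3)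
    rfl k0_pp_101

noncomputable def f_pp_102_a : ℕ → ℕ → ℕ → ℕ → Bool := onCell 536870912 536870912 0 536870912 201326592 134217728
    (rowN 3 0 false true true .npp 1 0 2 (qsf 536870912 536870912 0 536870912 0) ndN1q1 ndN2q2a pcN0 Cut.none Ext.none)

def k0_pp_102_a : ∃ t, chk3 f_pp_102_a t 1 1 1 = true :=
  ⟨(l 3), by decide +kernel⟩

theorem c_pp_102_a : CertN 536870912 536870912 0 536870912 201326592 134217728 3 false true true .npp 1 0 2
    ndN1q1 ndN2q2a pcN0 Cut.none Ext.none :=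
  certN0 (fam := false) (s1 := true) (s2 := true) (a := 1) (b := 0) (c := 2) (cn := .npp) (n1 := ndN1q1) (n2 := ndN2q2a) (pc := pcN0) (cut := Cut.none) (xt := Ext.none) (P1 := 536870912) (W1 := 536870912) (P2 := 0) (W2 := 536870912) (P3 := 201326592) (W3 := 134217728) (N0 := 3)
    rfl k0_pp_102_a

noncomputable def f_pp_102_b : ℕ → ℕ → ℕ → ℕ → Bool := onCell 536870912 536870912 0 536870912 201326592 134217728
    (rowN 3 1 false true true .npp 1 0 2 (qsf 536870912 536870912 1239849684 370763052 0) ndN1q1 ndN2q2b pcN0 Cut.none Ext.none)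

def k0_pp_102_b : ∃ t, chk3 f_pp_102_b t 1 1 1 = true :=
  ⟨(l 3), by decide +kernel⟩

theorem c_pp_102_b : CertN 536870912 536870912 1239849684 370763052 201326592 134217728 3 false true true .npp 1 0 2
    ndN1q1 ndN2q2b pcN0 Cut.none Ext.none :=
  certN1 (fam := false) (s1 := true) (s2 := true) (a := 1) (b := 0) (c := 2) (cn := .npp) (n1 := ndN1q1) (n2 := ndN2q2b) (pc := pcN0) (cut := Cut.none) (xt := Ext.none) (P1 := 536870912) (W1 := 536870912) (P2 := 1239849684) (W2 := 370763052) (P3 := 201326592) (W3 := 134217728) (N0 := 3)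
    rfl (fun _ => rfl) k0_pp_102_b

noncomputable def f_pp_112_a : ℕ → ℕ → ℕ → ℕ → Bool := onCell 536870912 536870912 0 536870912 201326592 134217728
    (rowN 3 0 false true true .dn 1 1 2 (qsf 536870912 536870912 0 536870912 1) ndN1q1 ndN2q2a pcN1 Cut.none Ext.none)

def k0_pp_112_a : ∃ t, chk3 f_pp_112_a t 1 1 1 = true :=
  ⟨(l 3), by decide +kernel⟩

theorem c_pp_112_a : CertN 536870912 536870912 0 536870912 201326592 134217728 3 false true true .dn 1 1 2
    ndN1q1 ndN2q2a pcN1 Cut.none Ext.none :=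
  certN0 (fam := false) (s1 := true) (s2 := true) (a := 1) (b := 1) (c := 2) (cn := .dn) (n1 := ndN1q1) (n2 := ndN2q2a) (pc := pcN1) (cut := Cut.none) (xt := Ext.none) (P1 := 536870912) (W1 := 536870912) (P2 := 0) (W2 := 536870912) (P3 := 201326592) (W3 := 134217728) (N0 := 3)
    rfl k0_pp_112_a

noncomputable def f_pp_112_b : ℕ → ℕ → ℕ → ℕ → Bool := onCell 536870912 536870912 1239849684 370763052 201326592 134217728
    (rowN 3 2 false true true .dn 1 1 2 (qsf 536870912 536870912 1239849684 370763052 1) ndN1q1 ndN2q2b pcN1 Cut.none Ext.none)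

def k0_pp_112_b : ∃ t, chk3 f_pp_112_b t 1 1 1 = true :=
  ⟨(a (a (l 3) (b (l 3) (l 3))) (a (b (b (l 1) (a (l 17375056) (l 17437328))) (a (l 17345168) (l 17376232))) (b (l 1) (l 17694000)))), by decide +kernel⟩

theorem c_pp_112_b : CertN 536870912 536870912 1239849684 370763052 201326592 134217728 3 false true true .dn 1 1 2
    ndN1q1 ndN2q2b pcN1 Cut.none Ext.none :=
  certN2 (fam := false) (s1 := true) (s2 := true) (a := 1) (b := 1) (c := 2) (cn := .dn) (n1 := ndN1q1) (n2 := ndN2q2b) (pc := pcN1) (cut := Cut.none) (xt := Ext.none) (P1 := 536870912) (W1 := 536870912) (P2 := 1239849684) (W2 := 370763052) (P3 := 201326592) (W3 := 134217728) (N0 := 3)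
    rfl (fun _ => rfl) k0_pp_112_b

noncomputable def f_pp_113 : ℕ → ℕ → ℕ → ℕ → Bool := onCell 536870912 536870912 536870912 536870912 201326592 134217728
    (rowN 3 1 false true true .nn 1 1 3 (qsf 536870912 536870912 1610612736 536870912 1) ndN1q1 ndN2q3 pcN1 Cut.none Ext.none)

def k0_pp_113 : ∃ t, chk3 f_pp_113 t 1 1 1 = true :=
  ⟨(b (b (l 3) (b (l 3) (a (l 380676465127) (a (l 17333720) (l 17387584))))) (b (a (b (l 210488514199) (l 221762843687)) (a (l 17493792) (b (l 17301800) (l 17204552)))) (a (a (l 17361848) (l 17247984)) (a (l 17147896) (l 17150104))))), by decide +kernel⟩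

theorem c_pp_113 : CertN 536870912 536870912 1610612736 536870912 201326592 134217728 3 false true true .nn 1 1 3
    ndN1q1 ndN2q3 pcN1 Cut.none Ext.none :=
  certN1 (fam := false) (s1 := true) (s2 := true) (a := 1) (b := 1) (c := 3) (cn := .nn) (n1 := ndN1q1) (n2 := ndN2q3) (pc := pcN1) (cut := Cut.none) (xt := Ext.none) (P1 := 536870912) (W1 := 536870912) (P2 := 1610612736) (W2 := 536870912) (P3 := 201326592) (W3 := 134217728) (N0 := 3)
    rfl (fun _ => rfl) k0_pp_113

noncomputable def f_pp_123 : ℕ → ℕ → ℕ → ℕ → Bool := onCell 1073741824 536870912 1610612736 536870912 201326592 134217728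
    (rowN 3 2 false true true .npn 1 2 3 (qsf 536870912 536870912 1610612736 536870912 2) ndN1q1 ndN2q3 pcN2 Cut.none Ext.none)

def k0_pp_123 : ∃ t, chk3 f_pp_123 t 1 1 1 = true :=
  ⟨(b (a (a (a (l 17477520) (a (l 17512848) (a (l 17525960) (l 17531272)))) (a (a (b (l 17570568) (l 17491856)) (l 17532320)) (l 17644416))) (a (a (l 17494952) (l 1)) (l 1))) (a (a (a (l 17243184) (a (l 17295872) (a (l 17318896) (l 17330912)))) (a (a (b (l 17385240) (l 17288768)) (l 17355600)) (l 17617864))) (a (a (l 17430456) (l 17477200)) (b (l 454764886247) (l 17238024))))), by decide +kernel⟩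

theorem c_pp_123 : CertN 536870912 536870912 1610612736 536870912 201326592 134217728 3 false true true .npn 1 2 3
    ndN1q1 ndN2q3 pcN2 Cut.none Ext.none :=
  certN2 (fam := false) (s1 := true) (s2 := true) (a := 1) (b := 2) (c := 3) (cn := .npn) (n1 := ndN1q1) (n2 := ndN2q3) (pc := pcN2) (cut := Cut.none) (xt := Ext.none) (P1 := 536870912) (W1 := 536870912) (P2 := 1610612736) (W2 := 536870912) (P3 := 201326592) (W3 := 134217728) (N0 := 3)
    rfl (fun _ => rfl) k0_pp_123

noncomputable def f_pp_133 : ℕ → ℕ → ℕ → ℕ → Bool := onCell 1610612736 536870912 1610612736 536870912 201326592 134217728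
    (rowN 3 2 false true true .dn 1 3 3 (qsf 536870912 536870912 1610612736 536870912 3) ndN1q1 ndN2q3 pcN3 Cut.none Ext.none)

def k0_pp_133 : ∃ t, chk3 f_pp_133 t 1 1 1 = true :=
  ⟨(a (b (l 1) (a (b (l 1) (a (l 17037872) (l 1))) (l 1))) (l 1)), by decide +kernel⟩

theorem c_pp_133 : CertN 536870912 536870912 1610612736 536870912 201326592 134217728 3 false true true .dn 1 3 3
    ndN1q1 ndN2q3 pcN3 Cut.none Ext.none :=
  certN2 (fam := false) (s1 := true) (s2 := true) (a := 1) (b := 3) (c := 3) (cn := .dn) (n1 := ndN1q1) (n2 := ndN2q3) (pc := pcN3) (cut := Cut.none) (xt := Ext.none) (P1 := 536870912) (W1 := 536870912) (P2 := 1610612736) (W2 := 536870912) (P3 := 201326592) (W3 := 134217728) (N0 := 3)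
    rfl (fun _ => rfl) k0_pp_133

noncomputable def f_pp_202_aa : ℕ → ℕ → ℕ → ℕ → Bool := onCell 0 536870912 0 536870912 201326592 134217728
    (rowN 3 0 false true true .pp 2 0 2 (qsf 0 536870912 0 536870912 0) ndN1q2a ndN2q2a pcN0 Cut.none Ext.none)

def k0_pp_202_aa : ∃ t, chk3 f_pp_202_aa t 1 1 1 = true :=
  ⟨(l 3), by decide +kernel⟩

theorem c_pp_202_aa : CertN 0 536870912 0 536870912 201326592 134217728 3 false true true .pp 2 0 2
    ndN1q2a ndN2q2a pcN0 Cut.none Ext.none :=
  certN0 (fam := false) (s1 := true) (s2 := true) (a := 2) (b := 0) (c := 2) (cn := .pp) (n1 := ndN1q2a) (n2 := ndN2q2a) (pc := pcN0) (cut := Cut.none) (xt := Ext.none) (P1 := 0) (W1 := 536870912) (P2 := 0) (W2 := 536870912) (P3 := 201326592) (W3 := 134217728) (N0 := 3)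
    rfl k0_pp_202_aa

noncomputable def f_pp_202_ab : ℕ → ℕ → ℕ → ℕ → Bool := onCell 0 536870912 1239849684 370763052 201326592 134217728
    (rowN 3 0 false true true .pp 2 0 2 (qsf 0 536870912 1239849684 370763052 0) ndN1q2a ndN2q2b pcN0 Cut.none Ext.none)

def k0_pp_202_ab : ∃ t, chk3 f_pp_202_ab t 1 1 1 = true :=
  ⟨(l 3), by decide +kernel⟩

theorem c_pp_202_ab : CertN 0 536870912 1239849684 370763052 201326592 134217728 3 false true true .pp 2 0 2
    ndN1q2a ndN2q2b pcN0 Cut.none Ext.none :=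
  certN0 (fam := false) (s1 := true) (s2 := true) (a := 2) (b := 0) (c := 2) (cn := .pp) (n1 := ndN1q2a) (n2 := ndN2q2b) (pc := pcN0) (cut := Cut.none) (xt := Ext.none) (P1 := 0) (W1 := 536870912) (P2 := 1239849684) (W2 := 370763052) (P3 := 201326592) (W3 := 134217728) (N0 := 3)
    rfl k0_pp_202_ab

noncomputable def f_pp_202_ba : ℕ → ℕ → ℕ → ℕ → Bool := onCell 1239849684 370763052 0 536870912 201326592 134217728
    (rowN 3 0 false true true .pp 2 0 2 (qsf 1239849684 370763052 0 536870912 0) ndN1q2b ndN2q2a pcN0 Cut.none Ext.none)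

def k0_pp_202_ba : ∃ t, chk3 f_pp_202_ba t 1 1 1 = true :=
  ⟨(l 3), by decide +kernel⟩

theorem c_pp_202_ba : CertN 1239849684 370763052 0 536870912 201326592 134217728 3 false true true .pp 2 0 2
    ndN1q2b ndN2q2a pcN0 Cut.none Ext.none :=
  certN0 (fam := false) (s1 := true) (s2 := true) (a := 2) (b := 0) (c := 2) (cn := .pp) (n1 := ndN1q2b) (n2 := ndN2q2a) (pc := pcN0) (cut := Cut.none) (xt := Ext.none) (P1 := 1239849684) (W1 := 370763052) (P2 := 0) (W2 := 536870912) (P3 := 201326592) (W3 := 134217728) (N0 := 3)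
    rfl k0_pp_202_ba

noncomputable def f_pp_202_bb : ℕ → ℕ → ℕ → ℕ → Bool := onCell 1239849684 370763052 1239849684 370763052 201326592 134217728
    (rowN 3 0 false true true .pp 2 0 2 (qsf 1239849684 370763052 1239849684 370763052 0) ndN1q2b ndN2q2b pcN0 Cut.none Ext.none)

def k0_pp_202_bb : ∃ t, chk3 f_pp_202_bb t 1 1 1 = true :=
  ⟨(l 3), by decide +kernel⟩

theorem c_pp_202_bb : CertN 1239849684 370763052 1239849684 370763052 201326592 134217728 3 false true true .pp 2 0 2
    ndN1q2b ndN2q2b pcN0 Cut.none Ext.none :=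
  certN0 (fam := false) (s1 := true) (s2 := true) (a := 2) (b := 0) (c := 2) (cn := .pp) (n1 := ndN1q2b) (n2 := ndN2q2b) (pc := pcN0) (cut := Cut.none) (xt := Ext.none) (P1 := 1239849684) (W1 := 370763052) (P2 := 1239849684) (W2 := 370763052) (P3 := 201326592) (W3 := 134217728) (N0 := 3)
    rfl k0_pp_202_bb

noncomputable def f_pp_203_a : ℕ → ℕ → ℕ → ℕ → Bool := onCell 0 536870912 0 536870912 201326592 134217728
    (rowN 3 1 false true true .up 2 0 3 (qsf 0 536870912 1610612736 536870912 0) ndN1q2a ndN2q3 pcN0 Cut.none Ext.none)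

def k0_pp_203_a : ∃ t, chk3 f_pp_203_a t 1 1 1 = true :=
  ⟨(l 3), by decide +kernel⟩

theorem c_pp_203_a : CertN 0 536870912 1610612736 536870912 201326592 134217728 3 false true true .up 2 0 3
    ndN1q2a ndN2q3 pcN0 Cut.none Ext.none :=
  certN1 (fam := false) (s1 := true) (s2 := true) (a := 2) (b := 0) (c := 3) (cn := .up) (n1 := ndN1q2a) (n2 := ndN2q3) (pc := pcN0) (cut := Cut.none) (xt := Ext.none) (P1 := 0) (W1 := 536870912) (P2 := 1610612736) (W2 := 536870912) (P3 := 201326592) (W3 := 134217728) (N0 := 3)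
    rfl (fun _ => rfl) k0_pp_203_a

noncomputable def f_pp_203_b : ℕ → ℕ → ℕ → ℕ → Bool := onCell 1239849684 370763052 1610612736 536870912 201326592 134217728
    (rowN 3 0 false true true .up 2 0 3 (qsf 1239849684 370763052 1610612736 536870912 0) ndN1q2b ndN2q3 pcN0 Cut.none Ext.none)

def k0_pp_203_b : ∃ t, chk3 f_pp_203_b t 1 1 1 = true :=
  ⟨(l 3), by decide +kernel⟩

theorem c_pp_203_b : CertN 1239849684 370763052 1610612736 536870912 201326592 134217728 3 false true true .up 2 0 3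
    ndN1q2b ndN2q3 pcN0 Cut.none Ext.none :=
  certN0 (fam := false) (s1 := true) (s2 := true) (a := 2) (b := 0) (c := 3) (cn := .up) (n1 := ndN1q2b) (n2 := ndN2q3) (pc := pcN0) (cut := Cut.none) (xt := Ext.none) (P1 := 1239849684) (W1 := 370763052) (P2 := 1610612736) (W2 := 536870912) (P3 := 201326592) (W3 := 134217728) (N0 := 3)
    rfl k0_pp_203_b

noncomputable def cut_pp_213_a : Cut := Cut.of [[⟨0, 1, 0, 57167902⟩, ⟨1, 1, 0, 57167902⟩, ⟨2, 2, 0, 11758673⟩]]

noncomputable def f_pp_213_a : ℕ → ℕ → ℕ → ℕ → Bool := onCell 0 536870912 1610612736 536870912 201326592 134217728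
    (rowN 3 0 false true true .pnn 2 1 3 (qsf 0 536870912 1610612736 536870912 1) ndN1q2a ndN2q3 pcN1 cut_pp_213_a Ext.none)

def k0_pp_213_a : ∃ t, chk3 f_pp_213_a t 1 1 1 = true :=
  ⟨(b (l 3) (b (l 3) (a (l 3) (a (l 3) (b (l 3) (a (l 3) (b (l 3) (b (l 3) (b (l 3) (l 6)))))))))), by decide +kernel⟩

theorem c_pp_213_a : CertN 0 536870912 1610612736 536870912 201326592 134217728 3 false true true .pnn 2 1 3
    ndN1q2a ndN2q3 pcN1 cut_pp_213_a Ext.none :=
  certN0 (fam := false) (s1 := true) (s2 := true) (a := 2) (b := 1) (c := 3) (cn := .pnn) (n1 := ndN1q2a) (n2 := ndN2q3) (pc := pcN1) (cut := cut_pp_213_a) (xt := Ext.none) (P1 := 0) (W1 := 536870912) (P2 := 1610612736) (W2 := 536870912) (P3 := 201326592) (W3 := 134217728) (N0 := 3)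
    rfl k0_pp_213_a

noncomputable def cut_pp_213_b : Cut := Cut.of [[⟨0, 1, 0, 57167902⟩, ⟨1, 1, 0, 57167902⟩, ⟨2, 2, 0, 11758673⟩]]

noncomputable def f_pp_213_b : ℕ → ℕ → ℕ → ℕ → Bool := onCell 1239849684 370763052 1610612736 536870912 201326592 134217728
    (rowN 3 0 false true true .pnn 2 1 3 (qsf 1239849684 370763052 1610612736 536870912 1) ndN1q2b ndN2q3 pcN1 cut_pp_213_b Ext.none)

def k0_pp_213_b : ∃ t, chk3 f_pp_213_b t 1 1 1 = true :=
  ⟨(l 3), by decide +kernel⟩

theorem c_pp_213_b : CertN 1239849684 370763052 1610612736 536870912 201326592 134217728 3 false true true .pnn 2 1 3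
    ndN1q2b ndN2q3 pcN1 cut_pp_213_b Ext.none :=
  certN0 (fam := false) (s1 := true) (s2 := true) (a := 2) (b := 1) (c := 3) (cn := .pnn) (n1 := ndN1q2b) (n2 := ndN2q3) (pc := pcN1) (cut := cut_pp_213_b) (xt := Ext.none) (P1 := 1239849684) (W1 := 370763052) (P2 := 1610612736) (W2 := 536870912) (P3 := 201326592) (W3 := 134217728) (N0 := 3)
    rfl k0_pp_213_b

noncomputable def f_pp_303 : ℕ → ℕ → ℕ → ℕ → Bool := onCell 1610612736 536870912 1610612736 536870912 201326592 134217728
    (rowN 3 0 false true true .npn 3 0 3 (qsf 1610612736 536870912 1610612736 536870912 0) ndN1q3 ndN2q3 pcN0 Cut.none Ext.none)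

def k0_pp_303 : ∃ t, chk3 f_pp_303 t 1 1 1 = true :=
  ⟨(l 3), by decide +kernel⟩

theorem c_pp_303 : CertN 1610612736 536870912 1610612736 536870912 201326592 134217728 3 false true true .npn 3 0 3
    ndN1q3 ndN2q3 pcN0 Cut.none Ext.none :=
  certN0 (fam := false) (s1 := true) (s2 := true) (a := 3) (b := 0) (c := 3) (cn := .npn) (n1 := ndN1q3) (n2 := ndN2q3) (pc := pcN0) (cut := Cut.none) (xt := Ext.none) (P1 := 1610612736) (W1 := 536870912) (P2 := 1610612736) (W2 := 536870912) (P3 := 201326592) (W3 := 134217728) (N0 := 3)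
    rfl k0_pp_303

noncomputable def f_pp_313 : ℕ → ℕ → ℕ → ℕ → Bool := onCell 1610612736 536870912 1610612736 536870912 201326592 134217728
    (rowN 3 0 false true true .dn 3 1 3 (qsf 1610612736 536870912 1610612736 536870912 1) ndN1q3 ndN2q3 pcN1 Cut.none Ext.none)

def k0_pp_313 : ∃ t, chk3 f_pp_313 t 1 1 1 = true :=
  ⟨(l 3), by decide +kernel⟩

theorem c_pp_313 : CertN 1610612736 536870912 1610612736 536870912 201326592 134217728 3 false true true .dn 3 1 3
    ndN1q3 ndN2q3 pcN1 Cut.none Ext.none :=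
  certN0 (fam := false) (s1 := true) (s2 := true) (a := 3) (b := 1) (c := 3) (cn := .dn) (n1 := ndN1q3) (n2 := ndN2q3) (pc := pcN1) (cut := Cut.none) (xt := Ext.none) (P1 := 1610612736) (W1 := 536870912) (P2 := 1610612736) (W2 := 536870912) (P3 := 201326592) (W3 := 134217728) (N0 := 3)
    rfl k0_pp_313

noncomputable def f_pm_001 : ℕ → ℕ → ℕ → ℕ → Bool := onCell 0 536870912 536870912 536870912 201326592 134217728
    (rowN 3 0 false true false .up 0 0 1 (qsf 0 536870912 536870912 536870912 0) ndN1q0 ndN2q1 pcN0 Cut.none Ext.none)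

def k0_pm_001 : ∃ t, chk3 f_pm_001 t 1 1 1 = true :=
  ⟨(l 4), by decide +kernel⟩

theorem c_pm_001 : CertN 0 536870912 536870912 536870912 201326592 134217728 3 false true false .up 0 0 1
    ndN1q0 ndN2q1 pcN0 Cut.none Ext.none :=
  certN0 (fam := false) (s1 := true) (s2 := false) (a := 0) (b := 0) (c := 1) (cn := .up) (n1 := ndN1q0) (n2 := ndN2q1) (pc := pcN0) (cut := Cut.none) (xt := Ext.none) (P1 := 0) (W1 := 536870912) (P2 := 536870912) (W2 := 536870912) (P3 := 201326592) (W3 := 134217728) (N0 := 3)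
    rfl k0_pm_001

noncomputable def f_pm_011 : ℕ → ℕ → ℕ → ℕ → Bool := onCell 0 536870912 536870912 536870912 201326592 134217728
    (rowN 3 0 false true false .pnn 0 1 1 (qsf 0 536870912 536870912 536870912 1) ndN1q0 ndN2q1 pcN1 Cut.none Ext.none)

def k0_pm_011 : ∃ t, chk3 f_pm_011 t 1 1 1 = true :=
  ⟨(l 4), by decide +kernel⟩

theorem c_pm_011 : CertN 0 536870912 536870912 536870912 201326592 134217728 3 false true false .pnn 0 1 1
    ndN1q0 ndN2q1 pcN1 Cut.none Ext.none :=
  certN0 (fam := false) (s1 := true) (s2 := false) (a := 0) (b := 1) (c := 1) (cn := .pnn) (n1 := ndN1q0) (n2 := ndN2q1) (pc := pcN1) (cut := Cut.none) (xt := Ext.none) (P1 := 0) (W1 := 536870912) (P2 := 536870912) (W2 := 536870912) (P3 := 201326592) (W3 := 134217728) (N0 := 3)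
    rfl k0_pm_011

noncomputable def cut_pm_012_a : Cut := Cut.of [[⟨0, 0, 0, 67108864⟩, ⟨1, 1, 0, 67108864⟩, ⟨2, 1, 0, 67108864⟩]]

noncomputable def f_pm_012_a : ℕ → ℕ → ℕ → ℕ → Bool := onCell 0 536870912 0 536870912 201326592 134217728
    (rowN 3 0 false true false .pnp 0 1 2 (qsf 0 536870912 0 536870912 1) ndN1q0 ndN2q2a pcN1 cut_pm_012_a Ext.none)

def k0_pm_012_a : ∃ t, chk3 f_pm_012_a t 1 1 1 = true :=
  ⟨(a (b (l 4) (a (a (a (b (l 2) (b (l 2) (l 6))) (l 4)) (l 4)) (l 4))) (b (a (a (l 4) (b (l 17165080) (l 323969255191))) (a (b (l 17409016) (l 17375688)) (l 17511704))) (a (b (l 4) (a (l 4) (b (l 4) (l 16989744)))) (b (a (l 17306256) (l 17432760)) (a (b (l 17239216) (l 17190240)) (l 17336688)))))), by decide +kernel⟩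

theorem c_pm_012_a : CertN 0 536870912 0 536870912 201326592 134217728 3 false true false .pnp 0 1 2
    ndN1q0 ndN2q2a pcN1 cut_pm_012_a Ext.none :=
  certN0 (fam := false) (s1 := true) (s2 := false) (a := 0) (b := 1) (c := 2) (cn := .pnp) (n1 := ndN1q0) (n2 := ndN2q2a) (pc := pcN1) (cut := cut_pm_012_a) (xt := Ext.none) (P1 := 0) (W1 := 536870912) (P2 := 0) (W2 := 536870912) (P3 := 201326592) (W3 := 134217728) (N0 := 3)
    rfl k0_pm_012_a

noncomputable def cut_pm_012_b : Cut := Cut.of [[⟨0, 0, 0, 67108864⟩, ⟨1, 1, 0, 67108864⟩, ⟨2, 1, 0, 67108864⟩]]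

noncomputable def f_pm_012_b : ℕ → ℕ → ℕ → ℕ → Bool := onCell 0 536870912 1239849684 370763052 201326592 134217728
    (rowN 3 0 false true false .pnp 0 1 2 (qsf 0 536870912 1239849684 370763052 1) ndN1q0 ndN2q2b pcN1 cut_pm_012_b Ext.none)

def k0_pm_012_b : ∃ t, chk3 f_pm_012_b t 1 1 1 = true :=
  ⟨(a (b (a (l 2) (l 4)) (l 2)) (b (b (a (a (l 4) (c (l 17647040) (l 16869192))) (a (c (l 17809792) (l 17211288)) (l 17632224))) (a (l 4) (a (l 261693394375) (l 17843848)))) (a (l 4) (a (l 4) (b (l 18070672) (l 18282040)))))), by decide +kernel⟩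

theorem c_pm_012_b : CertN 0 536870912 1239849684 370763052 201326592 134217728 3 false true false .pnp 0 1 2
    ndN1q0 ndN2q2b pcN1 cut_pm_012_b Ext.none :=
  certN0 (fam := false) (s1 := true) (s2 := false) (a := 0) (b := 1) (c := 2) (cn := .pnp) (n1 := ndN1q0) (n2 := ndN2q2b) (pc := pcN1) (cut := cut_pm_012_b) (xt := Ext.none) (P1 := 0) (W1 := 536870912) (P2 := 1239849684) (W2 := 370763052) (P3 := 201326592) (W3 := 134217728) (N0 := 3)
    rfl k0_pm_012_b

noncomputable def cut_pm_022_a : Cut := Cut.of [[⟨0, 0, 0, 67108864⟩, ⟨1, 1, 0, 67108864⟩, ⟨2, 1, 0, 67108864⟩]]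

noncomputable def f_pm_022_a : ℕ → ℕ → ℕ → ℕ → Bool := onCell 0 536870912 0 536870912 201326592 134217728
    (rowN 3 0 false true false .pp 0 2 2 (qsf 0 536870912 0 536870912 2) ndN1q0 ndN2q2a pcN2 cut_pm_022_a Ext.none)

def k0_pm_022_a : ∃ t, chk3 f_pm_022_a t 1 1 1 = true :=
  ⟨(a (b (l 4) (a (b (l 4) (a (a (b (l 4) (l 6)) (l 4)) (l 4))) (l 4))) (l 1)), by decide +kernel⟩

theorem c_pm_022_a : CertN 0 536870912 0 536870912 201326592 134217728 3 false true false .pp 0 2 2
    ndN1q0 ndN2q2a pcN2 cut_pm_022_a Ext.none :=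
  certN0 (fam := false) (s1 := true) (s2 := false) (a := 0) (b := 2) (c := 2) (cn := .pp) (n1 := ndN1q0) (n2 := ndN2q2a) (pc := pcN2) (cut := cut_pm_022_a) (xt := Ext.none) (P1 := 0) (W1 := 536870912) (P2 := 0) (W2 := 536870912) (P3 := 201326592) (W3 := 134217728) (N0 := 3)
    rfl k0_pm_022_a

noncomputable def cut_pm_022_b : Cut := Cut.of [[⟨0, 0, 0, 67108864⟩, ⟨1, 1, 0, 67108864⟩, ⟨2, 1, 0, 67108864⟩]]

noncomputable def f_pm_022_b : ℕ → ℕ → ℕ → ℕ → Bool := onCell 0 536870912 1239849684 370763052 201326592 134217728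
    (rowN 3 0 false true false .pp 0 2 2 (qsf 0 536870912 1239849684 370763052 2) ndN1q0 ndN2q2b pcN2 cut_pm_022_b Ext.none)

def k0_pm_022_b : ∃ t, chk3 f_pm_022_b t 1 1 1 = true :=
  ⟨(a (b (a (l 4) (l 4)) (l 4)) (b (a (b (l 1) (l 4)) (l 1)) (a (l 4) (a (l 4) (b (l 1) (l 18311920)))))), by decide +kernel⟩

theorem c_pm_022_b : CertN 0 536870912 1239849684 370763052 201326592 134217728 3 false true false .pp 0 2 2
    ndN1q0 ndN2q2b pcN2 cut_pm_022_b Ext.none :=
  certN0 (fam := false) (s1 := true) (s2 := false) (a := 0) (b := 2) (c := 2) (cn := .pp) (n1 := ndN1q0) (n2 := ndN2q2b) (pc := pcN2) (cut := cut_pm_022_b) (xt := Ext.none) (P1 := 0) (W1 := 536870912) (P2 := 1239849684) (W2 := 370763052) (P3 := 201326592) (W3 := 134217728) (N0 := 3)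
    rfl k0_pm_022_b

noncomputable def f_pm_023 : ℕ → ℕ → ℕ → ℕ → Bool := onCell 0 536870912 1610612736 536870912 201326592 134217728
    (rowN 3 0 false true false .up 0 2 3 (qsf 0 536870912 1610612736 536870912 2) ndN1q0 ndN2q3 pcN2 Cut.none Ext.none)

def k0_pm_023 : ∃ t, chk3 f_pm_023 t 1 1 1 = true :=
  ⟨(a (l 4) (b (b (a (l 4) (l 4)) (l 4)) (b (l 4) (a (l 4) (l 4))))), by decide +kernel⟩

theorem c_pm_023 : CertN 0 536870912 1610612736 536870912 201326592 134217728 3 false true false .up 0 2 3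
    ndN1q0 ndN2q3 pcN2 Cut.none Ext.none :=
  certN0 (fam := false) (s1 := true) (s2 := false) (a := 0) (b := 2) (c := 3) (cn := .up) (n1 := ndN1q0) (n2 := ndN2q3) (pc := pcN2) (cut := Cut.none) (xt := Ext.none) (P1 := 0) (W1 := 536870912) (P2 := 1610612736) (W2 := 536870912) (P3 := 201326592) (W3 := 134217728) (N0 := 3)
    rfl k0_pm_023

noncomputable def f_pm_033 : ℕ → ℕ → ℕ → ℕ → Bool := onCell 0 536870912 1610612736 536870912 201326592 134217728
    (rowN 3 0 false true false .pnn 0 3 3 (qsf 0 536870912 1610612736 536870912 3) ndN1q0 ndN2q3 pcN3 Cut.none Ext.none)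

def k0_pm_033 : ∃ t, chk3 f_pm_033 t 1 1 1 = true :=
  ⟨(a (l 4) (b (a (l 4) (l 1)) (b (l 4) (a (l 4) (l 4))))), by decide +kernel⟩

theorem c_pm_033 : CertN 0 536870912 1610612736 536870912 201326592 134217728 3 false true false .pnn 0 3 3
    ndN1q0 ndN2q3 pcN3 Cut.none Ext.none :=
  certN0 (fam := false) (s1 := true) (s2 := false) (a := 0) (b := 3) (c := 3) (cn := .pnn) (n1 := ndN1q0) (n2 := ndN2q3) (pc := pcN3) (cut := Cut.none) (xt := Ext.none) (P1 := 0) (W1 := 536870912) (P2 := 1610612736) (W2 := 536870912) (P3 := 201326592) (W3 := 134217728) (N0 := 3)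
    rfl k0_pm_033

noncomputable def f_pm_101 : ℕ → ℕ → ℕ → ℕ → Bool := onCell 536870912 536870912 536870912 536870912 201326592 134217728
    (rowN 3 0 false true false .npn 1 0 1 (qsf 536870912 536870912 536870912 536870912 0) ndN1q1 ndN2q1 pcN0 Cut.none Ext.none)

def k0_pm_101 : ∃ t, chk3 f_pm_101 t 1 1 1 = true :=
  ⟨(l 4), by decide +kernel⟩

theorem c_pm_101 : CertN 536870912 536870912 536870912 536870912 201326592 134217728 3 false true false .npn 1 0 1
    ndN1q1 ndN2q1 pcN0 Cut.none Ext.none :=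
  certN0 (fam := false) (s1 := true) (s2 := false) (a := 1) (b := 0) (c := 1) (cn := .npn) (n1 := ndN1q1) (n2 := ndN2q1) (pc := pcN0) (cut := Cut.none) (xt := Ext.none) (P1 := 536870912) (W1 := 536870912) (P2 := 536870912) (W2 := 536870912) (P3 := 201326592) (W3 := 134217728) (N0 := 3)
    rfl k0_pm_101

noncomputable def f_pm_102_a : ℕ → ℕ → ℕ → ℕ → Bool := onCell 0 536870912 0 536870912 201326592 134217728
    (rowN 3 2 false true false .npp 1 0 2 (qsf 536870912 536870912 0 536870912 0) ndN1q1 ndN2q2a pcN0 Cut.none Ext.none)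

def k0_pm_102_a : ∃ t, chk3 f_pm_102_a t 1 1 1 = true :=
  ⟨(a (a (b (a (l 2) (b (l 2) (l 17447664))) (a (b (l 2) (b (l 17569600) (l 17636768))) (b (l 17709288) (l 17606616)))) (b (a (l 17716792) (l 17475384)) (b (a (l 17538472) (l 17505264)) (c (l 17691016) (l 17469008))))) (a (b (a (l 17417912) (l 17390976)) (b (l 17538192) (a (l 17562936) (l 17547688)))) (b (a (l 17484176) (l 17396520)) (a (b (l 17499248) (l 17524320)) (b (l 17502560) (c (l 17656584) (l 17303632))))))), by decide +kernel⟩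

theorem c_pm_102_a : CertN 536870912 536870912 0 536870912 201326592 134217728 3 false true false .npp 1 0 2
    ndN1q1 ndN2q2a pcN0 Cut.none Ext.none :=
  certN2 (fam := false) (s1 := true) (s2 := false) (a := 1) (b := 0) (c := 2) (cn := .npp) (n1 := ndN1q1) (n2 := ndN2q2a) (pc := pcN0) (cut := Cut.none) (xt := Ext.none) (P1 := 536870912) (W1 := 536870912) (P2 := 0) (W2 := 536870912) (P3 := 201326592) (W3 := 134217728) (N0 := 3)
    rfl (fun _ => rfl) k0_pm_102_a

noncomputable def f_pm_102_b : ℕ → ℕ → ℕ → ℕ → Bool := onCell 536870912 536870912 1239849684 370763052 201326592 134217728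
    (rowN 3 0 false true false .npp 1 0 2 (qsf 536870912 536870912 1239849684 370763052 0) ndN1q1 ndN2q2b pcN0 Cut.none Ext.none)

def k0_pm_102_b : ∃ t, chk3 f_pm_102_b t 1 1 1 = true :=
  ⟨(a (b (a (l 2) (b (a (l 17317192) (l 17270912)) (a (l 2) (l 17151080)))) (l 2)) (b (a (b (a (l 17394544) (l 17319480)) (a (l 17189928) (l 17292576))) (b (a (l 17448568) (l 17413120)) (a (l 17281928) (l 17235608)))) (b (a (a (l 2) (l 17143336)) (a (l 17223216) (l 17276800))) (a (l 2) (b (l 17322824) (l 17368000)))))), by decide +kernel⟩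

theorem c_pm_102_b : CertN 536870912 536870912 1239849684 370763052 201326592 134217728 3 false true false .npp 1 0 2
    ndN1q1 ndN2q2b pcN0 Cut.none Ext.none :=
  certN0 (fam := false) (s1 := true) (s2 := false) (a := 1) (b := 0) (c := 2) (cn := .npp) (n1 := ndN1q1) (n2 := ndN2q2b) (pc := pcN0) (cut := Cut.none) (xt := Ext.none) (P1 := 536870912) (W1 := 536870912) (P2 := 1239849684) (W2 := 370763052) (P3 := 201326592) (W3 := 134217728) (N0 := 3)
    rfl k0_pm_102_b

noncomputable def f_pm_112_a : ℕ → ℕ → ℕ → ℕ → Bool := onCell 536870912 536870912 0 536870912 201326592 134217728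
    (rowN 3 2 false true false .dn 1 1 2 (qsf 536870912 536870912 0 536870912 1) ndN1q1 ndN2q2a pcN1 Cut.none Ext.none)

def k0_pm_112_a : ∃ t, chk3 f_pm_112_a t 1 1 1 = true :=
  ⟨(a (b (a (l 17819656) (l 194382576391)) (a (b (l 17686456) (l 180423912039)) (b (l 1) (l 1)))) (l 1)), by decide +kernel⟩

theorem c_pm_112_a : CertN 536870912 536870912 0 536870912 201326592 134217728 3 false true false .dn 1 1 2
    ndN1q1 ndN2q2a pcN1 Cut.none Ext.none :=
  certN2 (fam := false) (s1 := true) (s2 := false) (a := 1) (b := 1) (c := 2) (cn := .dn) (n1 := ndN1q1) (n2 := ndN2q2a) (pc := pcN1) (cut := Cut.none) (xt := Ext.none) (P1 := 536870912) (W1 := 536870912) (P2 := 0) (W2 := 536870912) (P3 := 201326592) (W3 := 134217728) (N0 := 3)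
    rfl (fun _ => rfl) k0_pm_112_a

noncomputable def f_pm_112_b : ℕ → ℕ → ℕ → ℕ → Bool := onCell 536870912 536870912 1239849684 370763052 201326592 134217728
    (rowN 3 2 false true false .dn 1 1 2 (qsf 536870912 536870912 1239849684 370763052 1) ndN1q1 ndN2q2b pcN1 Cut.none Ext.none)

def k0_pm_112_b : ∃ t, chk3 f_pm_112_b t 1 1 1 = true :=
  ⟨(a (a (a (b (l 17984392) (l 17746736)) (b (b (l 17917360) (l 17969264)) (l 17918864))) (a (a (b (l 17974728) (l 17874368)) (b (l 17987080) (l 17948432))) (b (b (l 17899440) (l 18059704)) (b (l 18080736) (l 17969904))))) (b (a (b (l 1) (l 414501042247)) (l 1)) (a (a (b (l 18151056) (l 18083040)) (c (l 18374520) (l 18257232))) (a (a (l 18262416) (l 18305736)) (l 429533928679))))), by decide +kernel⟩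

theorem c_pm_112_b : CertN 536870912 536870912 1239849684 370763052 201326592 134217728 3 false true false .dn 1 1 2
    ndN1q1 ndN2q2b pcN1 Cut.none Ext.none :=
  certN2 (fam := false) (s1 := true) (s2 := false) (a := 1) (b := 1) (c := 2) (cn := .dn) (n1 := ndN1q1) (n2 := ndN2q2b) (pc := pcN1) (cut := Cut.none) (xt := Ext.none) (P1 := 536870912) (W1 := 536870912) (P2 := 1239849684) (W2 := 370763052) (P3 := 201326592) (W3 := 134217728) (N0 := 3)
    rfl (fun _ => rfl) k0_pm_112_b

noncomputable def f_pm_113 : ℕ → ℕ → ℕ → ℕ → Bool := onCell 536870912 536870912 536870912 536870912 201326592 134217728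
    (rowN 3 1 false true false .nn 1 1 3 (qsf 536870912 536870912 1610612736 536870912 1) ndN1q1 ndN2q3 pcN1 Cut.none Ext.none)

def k0_pm_113 : ∃ t, chk3 f_pm_113 t 1 1 1 = true :=
  ⟨(a (b (b (l 1) (b (l 1) (l 371014296727))) (b (b (l 367256233767) (a (l 347929237751) (l 18073456))) (b (b (a (l 18249624) (l 18087960)) (l 18414144)) (a (l 18341384) (l 18155240))))) (b (b (b (a (l 1) (l 17585296)) (a (l 17757384) (l 17537456))) (b (a (l 17776776) (l 17507648)) (a (l 17769576) (l 17465264)))) (a (b (b (l 17768016) (l 17785360)) (b (b (l 17792720) (l 17801088)) (l 17782272))) (b (l 17389616) (l 17239872))))), by decide +kernel⟩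

theorem c_pm_113 : CertN 536870912 536870912 1610612736 536870912 201326592 134217728 3 false true false .nn 1 1 3
    ndN1q1 ndN2q3 pcN1 Cut.none Ext.none :=
  certN1 (fam := false) (s1 := true) (s2 := false) (a := 1) (b := 1) (c := 3) (cn := .nn) (n1 := ndN1q1) (n2 := ndN2q3) (pc := pcN1) (cut := Cut.none) (xt := Ext.none) (P1 := 536870912) (W1 := 536870912) (P2 := 1610612736) (W2 := 536870912) (P3 := 201326592) (W3 := 134217728) (N0 := 3)
    rfl (fun _ => rfl) k0_pm_113

noncomputable def f_pm_123 : ℕ → ℕ → ℕ → ℕ → Bool := onCell 1073741824 536870912 1610612736 536870912 201326592 134217728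
    (rowN 3 2 false true false .npn 1 2 3 (qsf 536870912 536870912 1610612736 536870912 2) ndN1q1 ndN2q3 pcN2 Cut.none Ext.none)

def k0_pm_123 : ∃ t, chk3 f_pm_123 t 1 1 1 = true :=
  ⟨(b (a (a (b (l 18230432) (l 18104752)) (l 388193486503)) (l 4)) (a (a (a (b (l 17858856) (l 17421904)) (a (l 17633144) (l 17630672))) (b (l 17736320) (l 17445160))) (a (l 17540168) (l 17274048)))), by decide +kernel⟩

theorem c_pm_123 : CertN 536870912 536870912 1610612736 536870912 201326592 134217728 3 false true false .npn 1 2 3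
    ndN1q1 ndN2q3 pcN2 Cut.none Ext.none :=
  certN2 (fam := false) (s1 := true) (s2 := false) (a := 1) (b := 2) (c := 3) (cn := .npn) (n1 := ndN1q1) (n2 := ndN2q3) (pc := pcN2) (cut := Cut.none) (xt := Ext.none) (P1 := 536870912) (W1 := 536870912) (P2 := 1610612736) (W2 := 536870912) (P3 := 201326592) (W3 := 134217728) (N0 := 3)
    rfl (fun _ => rfl) k0_pm_123

noncomputable def f_pm_133 : ℕ → ℕ → ℕ → ℕ → Bool := onCell 1610612736 536870912 1610612736 536870912 201326592 134217728
    (rowN 3 2 false true false .dn 1 3 3 (qsf 536870912 536870912 1610612736 536870912 3) ndN1q1 ndN2q3 pcN3 Cut.none Ext.none)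

def k0_pm_133 : ∃ t, chk3 f_pm_133 t 1 1 1 = true :=
  ⟨(a (b (l 1) (a (b (l 1) (l 4)) (l 1))) (l 1)), by decide +kernel⟩

theorem c_pm_133 : CertN 536870912 536870912 1610612736 536870912 201326592 134217728 3 false true false .dn 1 3 3
    ndN1q1 ndN2q3 pcN3 Cut.none Ext.none :=
  certN2 (fam := false) (s1 := true) (s2 := false) (a := 1) (b := 3) (c := 3) (cn := .dn) (n1 := ndN1q1) (n2 := ndN2q3) (pc := pcN3) (cut := Cut.none) (xt := Ext.none) (P1 := 536870912) (W1 := 536870912) (P2 := 1610612736) (W2 := 536870912) (P3 := 201326592) (W3 := 134217728) (N0 := 3)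
    rfl (fun _ => rfl) k0_pm_133

noncomputable def cut_pm_202_aa : Cut := Cut.of [[⟨0, 1, 0, 67108864⟩, ⟨1, 0, 0, 67108864⟩, ⟨2, 1, 0, 67108864⟩]]

noncomputable def f_pm_202_aa : ℕ → ℕ → ℕ → ℕ → Bool := onCell 0 536870912 0 536870912 201326592 134217728
    (rowN 3 0 false true false .pp 2 0 2 (qsf 0 536870912 0 536870912 0) ndN1q2a ndN2q2a pcN0 cut_pm_202_aa Ext.none)

def k0_pm_202_aa : ∃ t, chk3 f_pm_202_aa t 1 1 1 = true :=
  ⟨(a (l 3) (b (l 3) (b (l 3) (a (l 3) (b (l 3) (a (l 3) (l 6))))))), by decide +kernel⟩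

theorem c_pm_202_aa : CertN 0 536870912 0 536870912 201326592 134217728 3 false true false .pp 2 0 2
    ndN1q2a ndN2q2a pcN0 cut_pm_202_aa Ext.none :=
  certN0 (fam := false) (s1 := true) (s2 := false) (a := 2) (b := 0) (c := 2) (cn := .pp) (n1 := ndN1q2a) (n2 := ndN2q2a) (pc := pcN0) (cut := cut_pm_202_aa) (xt := Ext.none) (P1 := 0) (W1 := 536870912) (P2 := 0) (W2 := 536870912) (P3 := 201326592) (W3 := 134217728) (N0 := 3)
    rfl k0_pm_202_aa

noncomputable def cut_pm_202_ab : Cut := Cut.of [[⟨0, 1, 0, 67108864⟩, ⟨1, 0, 0, 67108864⟩, ⟨2, 1, 0, 67108864⟩]]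

noncomputable def f_pm_202_ab : ℕ → ℕ → ℕ → ℕ → Bool := onCell 0 536870912 1239849684 370763052 201326592 134217728
    (rowN 3 0 false true false .pp 2 0 2 (qsf 0 536870912 1239849684 370763052 0) ndN1q2a ndN2q2b pcN0 cut_pm_202_ab Ext.none)

def k0_pm_202_ab : ∃ t, chk3 f_pm_202_ab t 1 1 1 = true :=
  ⟨(b (l 3) (l 3)), by decide +kernel⟩

theorem c_pm_202_ab : CertN 0 536870912 1239849684 370763052 201326592 134217728 3 false true false .pp 2 0 2
    ndN1q2a ndN2q2b pcN0 cut_pm_202_ab Ext.none :=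
  certN0 (fam := false) (s1 := true) (s2 := false) (a := 2) (b := 0) (c := 2) (cn := .pp) (n1 := ndN1q2a) (n2 := ndN2q2b) (pc := pcN0) (cut := cut_pm_202_ab) (xt := Ext.none) (P1 := 0) (W1 := 536870912) (P2 := 1239849684) (W2 := 370763052) (P3 := 201326592) (W3 := 134217728) (N0 := 3)
    rfl k0_pm_202_ab

noncomputable def cut_pm_202_ba : Cut := Cut.of [[⟨0, 1, 0, 67108864⟩, ⟨1, 0, 0, 67108864⟩, ⟨2, 1, 0, 67108864⟩]]

noncomputable def f_pm_202_ba : ℕ → ℕ → ℕ → ℕ → Bool := onCell 1239849684 370763052 0 536870912 201326592 134217728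
    (rowN 3 0 false true false .pp 2 0 2 (qsf 1239849684 370763052 0 536870912 0) ndN1q2b ndN2q2a pcN0 cut_pm_202_ba Ext.none)

def k0_pm_202_ba : ∃ t, chk3 f_pm_202_ba t 1 1 1 = true :=
  ⟨(l 3), by decide +kernel⟩

theorem c_pm_202_ba : CertN 1239849684 370763052 0 536870912 201326592 134217728 3 false true false .pp 2 0 2
    ndN1q2b ndN2q2a pcN0 cut_pm_202_ba Ext.none :=
  certN0 (fam := false) (s1 := true) (s2 := false) (a := 2) (b := 0) (c := 2) (cn := .pp) (n1 := ndN1q2b) (n2 := ndN2q2a) (pc := pcN0) (cut := cut_pm_202_ba) (xt := Ext.none) (P1 := 1239849684) (W1 := 370763052) (P2 := 0) (W2 := 536870912) (P3 := 201326592) (W3 := 134217728) (N0 := 3)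
    rfl k0_pm_202_ba

noncomputable def cut_pm_202_bb : Cut := Cut.of [[⟨0, 1, 0, 67108864⟩, ⟨1, 0, 0, 67108864⟩, ⟨2, 1, 0, 67108864⟩]]

noncomputable def f_pm_202_bb : ℕ → ℕ → ℕ → ℕ → Bool := onCell 1239849684 370763052 1239849684 370763052 201326592 134217728
    (rowN 3 0 false true false .pp 2 0 2 (qsf 1239849684 370763052 1239849684 370763052 0) ndN1q2b ndN2q2b pcN0 cut_pm_202_bb Ext.none)

def k0_pm_202_bb : ∃ t, chk3 f_pm_202_bb t 1 1 1 = true :=
  ⟨(l 3), by decide +kernel⟩

theorem c_pm_202_bb : CertN 1239849684 370763052 1239849684 370763052 201326592 134217728 3 false true false .pp 2 0 2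
    ndN1q2b ndN2q2b pcN0 cut_pm_202_bb Ext.none :=
  certN0 (fam := false) (s1 := true) (s2 := false) (a := 2) (b := 0) (c := 2) (cn := .pp) (n1 := ndN1q2b) (n2 := ndN2q2b) (pc := pcN0) (cut := cut_pm_202_bb) (xt := Ext.none) (P1 := 1239849684) (W1 := 370763052) (P2 := 1239849684) (W2 := 370763052) (P3 := 201326592) (W3 := 134217728) (N0 := 3)
    rfl k0_pm_202_bb

noncomputable def f_pm_203_a : ℕ → ℕ → ℕ → ℕ → Bool := onCell 0 536870912 0 536870912 201326592 134217728
    (rowN 3 1 false true false .up 2 0 3 (qsf 0 536870912 1610612736 536870912 0) ndN1q2a ndN2q3 pcN0 Cut.none Ext.none)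

def k0_pm_203_a : ∃ t, chk3 f_pm_203_a t 1 1 1 = true :=
  ⟨(b (l 1) (l 3)), by decide +kernel⟩

theorem c_pm_203_a : CertN 0 536870912 1610612736 536870912 201326592 134217728 3 false true false .up 2 0 3
    ndN1q2a ndN2q3 pcN0 Cut.none Ext.none :=
  certN1 (fam := false) (s1 := true) (s2 := false) (a := 2) (b := 0) (c := 3) (cn := .up) (n1 := ndN1q2a) (n2 := ndN2q3) (pc := pcN0) (cut := Cut.none) (xt := Ext.none) (P1 := 0) (W1 := 536870912) (P2 := 1610612736) (W2 := 536870912) (P3 := 201326592) (W3 := 134217728) (N0 := 3)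
    rfl (fun _ => rfl) k0_pm_203_a

noncomputable def f_pm_203_b : ℕ → ℕ → ℕ → ℕ → Bool := onCell 1239849684 370763052 1610612736 536870912 201326592 134217728
    (rowN 3 0 false true false .up 2 0 3 (qsf 1239849684 370763052 1610612736 536870912 0) ndN1q2b ndN2q3 pcN0 Cut.none Ext.none)

def k0_pm_203_b : ∃ t, chk3 f_pm_203_b t 1 1 1 = true :=
  ⟨(l 3), by decide +kernel⟩

theorem c_pm_203_b : CertN 1239849684 370763052 1610612736 536870912 201326592 134217728 3 false true false .up 2 0 3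
    ndN1q2b ndN2q3 pcN0 Cut.none Ext.none :=
  certN0 (fam := false) (s1 := true) (s2 := false) (a := 2) (b := 0) (c := 3) (cn := .up) (n1 := ndN1q2b) (n2 := ndN2q3) (pc := pcN0) (cut := Cut.none) (xt := Ext.none) (P1 := 1239849684) (W1 := 370763052) (P2 := 1610612736) (W2 := 536870912) (P3 := 201326592) (W3 := 134217728) (N0 := 3)
    rfl k0_pm_203_b

noncomputable def cut_pm_213_a : Cut := Cut.of [[⟨0, 1, 0, 57167902⟩, ⟨1, 1, 0, 57167902⟩, ⟨2, 2, 0, 11758673⟩]]

noncomputable def f_pm_213_a : ℕ → ℕ → ℕ → ℕ → Bool := onCell 0 536870912 1610612736 536870912 201326592 134217728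
    (rowN 3 0 false true false .pnn 2 1 3 (qsf 0 536870912 1610612736 536870912 1) ndN1q2a ndN2q3 pcN1 cut_pm_213_a Ext.none)

def k0_pm_213_a : ∃ t, chk3 f_pm_213_a t 1 1 1 = true :=
  ⟨(a (l 3) (a (l 3) (b (l 3) (b (l 3) (b (l 3) (a (l 3) (a (l 3) (b (l 3) (b (l 3) (b (l 3) (l 6))))))))))), by decide +kernel⟩

theorem c_pm_213_a : CertN 0 536870912 1610612736 536870912 201326592 134217728 3 false true false .pnn 2 1 3
    ndN1q2a ndN2q3 pcN1 cut_pm_213_a Ext.none :=
  certN0 (fam := false) (s1 := true) (s2 := false) (a := 2) (b := 1) (c := 3) (cn := .pnn) (n1 := ndN1q2a) (n2 := ndN2q3) (pc := pcN1) (cut := cut_pm_213_a) (xt := Ext.none) (P1 := 0) (W1 := 536870912) (P2 := 1610612736) (W2 := 536870912) (P3 := 201326592) (W3 := 134217728) (N0 := 3)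
    rfl k0_pm_213_a

noncomputable def cut_pm_213_b : Cut := Cut.of [[⟨0, 1, 0, 57167902⟩, ⟨1, 1, 0, 57167902⟩, ⟨2, 2, 0, 11758673⟩]]

noncomputable def f_pm_213_b : ℕ → ℕ → ℕ → ℕ → Bool := onCell 1239849684 370763052 1610612736 536870912 201326592 134217728
    (rowN 3 0 false true false .pnn 2 1 3 (qsf 1239849684 370763052 1610612736 536870912 1) ndN1q2b ndN2q3 pcN1 cut_pm_213_b Ext.none)

def k0_pm_213_b : ∃ t, chk3 f_pm_213_b t 1 1 1 = true :=
  ⟨(l 3), by decide +kernel⟩

theorem c_pm_213_b : CertN 1239849684 370763052 1610612736 536870912 201326592 134217728 3 false true false .pnn 2 1 3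
    ndN1q2b ndN2q3 pcN1 cut_pm_213_b Ext.none :=
  certN0 (fam := false) (s1 := true) (s2 := false) (a := 2) (b := 1) (c := 3) (cn := .pnn) (n1 := ndN1q2b) (n2 := ndN2q3) (pc := pcN1) (cut := cut_pm_213_b) (xt := Ext.none) (P1 := 1239849684) (W1 := 370763052) (P2 := 1610612736) (W2 := 536870912) (P3 := 201326592) (W3 := 134217728) (N0 := 3)
    rfl k0_pm_213_b

noncomputable def f_pm_303 : ℕ → ℕ → ℕ → ℕ → Bool := onCell 1610612736 536870912 1610612736 536870912 201326592 134217728
    (rowN 3 0 false true false .npn 3 0 3 (qsf 1610612736 536870912 1610612736 536870912 0) ndN1q3 ndN2q3 pcN0 Cut.none Ext.none)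

def k0_pm_303 : ∃ t, chk3 f_pm_303 t 1 1 1 = true :=
  ⟨(l 3), by decide +kernel⟩

theorem c_pm_303 : CertN 1610612736 536870912 1610612736 536870912 201326592 134217728 3 false true false .npn 3 0 3
    ndN1q3 ndN2q3 pcN0 Cut.none Ext.none :=
  certN0 (fam := false) (s1 := true) (s2 := false) (a := 3) (b := 0) (c := 3) (cn := .npn) (n1 := ndN1q3) (n2 := ndN2q3) (pc := pcN0) (cut := Cut.none) (xt := Ext.none) (P1 := 1610612736) (W1 := 536870912) (P2 := 1610612736) (W2 := 536870912) (P3 := 201326592) (W3 := 134217728) (N0 := 3)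
    rfl k0_pm_303

noncomputable def f_pm_313 : ℕ → ℕ → ℕ → ℕ → Bool := onCell 1610612736 536870912 1610612736 536870912 201326592 134217728
    (rowN 3 0 false true false .dn 3 1 3 (qsf 1610612736 536870912 1610612736 536870912 1) ndN1q3 ndN2q3 pcN1 Cut.none Ext.none)

def k0_pm_313 : ∃ t, chk3 f_pm_313 t 1 1 1 = true :=
  ⟨(l 3), by decide +kernel⟩

theorem c_pm_313 : CertN 1610612736 536870912 1610612736 536870912 201326592 134217728 3 false true false .dn 3 1 3
    ndN1q3 ndN2q3 pcN1 Cut.none Ext.none :=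
  certN0 (fam := false) (s1 := true) (s2 := false) (a := 3) (b := 1) (c := 3) (cn := .dn) (n1 := ndN1q3) (n2 := ndN2q3) (pc := pcN1) (cut := Cut.none) (xt := Ext.none) (P1 := 1610612736) (W1 := 536870912) (P2 := 1610612736) (W2 := 536870912) (P3 := 201326592) (W3 := 134217728) (N0 := 3)
    rfl k0_pm_313

noncomputable def f_mm_001 : ℕ → ℕ → ℕ → ℕ → Bool := onCell 0 536870912 0 536870912 201326592 134217728
    (rowN 3 1 false false false .up 0 0 1 (qsf 0 536870912 536870912 536870912 0) ndN1q0 ndN2q1 pcN0 Cut.none Ext.none)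

def k0_mm_001 : ∃ t, chk3 f_mm_001 t 1 1 1 = true :=
  ⟨(l 3), by decide +kernel⟩

theorem c_mm_001 : CertN 0 536870912 536870912 536870912 201326592 134217728 3 false false false .up 0 0 1
    ndN1q0 ndN2q1 pcN0 Cut.none Ext.none :=
  certN1 (fam := false) (s1 := false) (s2 := false) (a := 0) (b := 0) (c := 1) (cn := .up) (n1 := ndN1q0) (n2 := ndN2q1) (pc := pcN0) (cut := Cut.none) (xt := Ext.none) (P1 := 0) (W1 := 536870912) (P2 := 536870912) (W2 := 536870912) (P3 := 201326592) (W3 := 134217728) (N0 := 3)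
    rfl (fun _ => rfl) k0_mm_001

noncomputable def f_mm_011 : ℕ → ℕ → ℕ → ℕ → Bool := onCell 0 536870912 536870912 536870912 201326592 134217728
    (rowN 3 1 false false false .pnn 0 1 1 (qsf 0 536870912 536870912 536870912 1) ndN1q0 ndN2q1 pcN1 Cut.none Ext.none)

def k0_mm_011 : ∃ t, chk3 f_mm_011 t 1 1 1 = true :=
  ⟨(l 5), by decide +kernel⟩

theorem c_mm_011 : CertN 0 536870912 536870912 536870912 201326592 134217728 3 false false false .pnn 0 1 1
    ndN1q0 ndN2q1 pcN1 Cut.none Ext.none :=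
  certN1 (fam := false) (s1 := false) (s2 := false) (a := 0) (b := 1) (c := 1) (cn := .pnn) (n1 := ndN1q0) (n2 := ndN2q1) (pc := pcN1) (cut := Cut.none) (xt := Ext.none) (P1 := 0) (W1 := 536870912) (P2 := 536870912) (W2 := 536870912) (P3 := 201326592) (W3 := 134217728) (N0 := 3)
    rfl (fun _ => rfl) k0_mm_011

noncomputable def f_mm_012_a : ℕ → ℕ → ℕ → ℕ → Bool := onCell 0 536870912 0 536870912 201326592 134217728
    (rowN 3 0 false false false .pnp 0 1 2 (qsf 0 536870912 0 536870912 1) ndN1q0 ndN2q2a pcN1 Cut.none Ext.none)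

def k0_mm_012_a : ∃ t, chk3 f_mm_012_a t 1 1 1 = true :=
  ⟨(l 5), by decide +kernel⟩

theorem c_mm_012_a : CertN 0 536870912 0 536870912 201326592 134217728 3 false false false .pnp 0 1 2
    ndN1q0 ndN2q2a pcN1 Cut.none Ext.none :=
  certN0 (fam := false) (s1 := false) (s2 := false) (a := 0) (b := 1) (c := 2) (cn := .pnp) (n1 := ndN1q0) (n2 := ndN2q2a) (pc := pcN1) (cut := Cut.none) (xt := Ext.none) (P1 := 0) (W1 := 536870912) (P2 := 0) (W2 := 536870912) (P3 := 201326592) (W3 := 134217728) (N0 := 3)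
    rfl k0_mm_012_a

noncomputable def f_mm_012_b : ℕ → ℕ → ℕ → ℕ → Bool := onCell 0 536870912 1239849684 370763052 201326592 134217728
    (rowN 3 0 false false false .pnp 0 1 2 (qsf 0 536870912 1239849684 370763052 1) ndN1q0 ndN2q2b pcN1 Cut.none Ext.none)

def k0_mm_012_b : ∃ t, chk3 f_mm_012_b t 1 1 1 = true :=
  ⟨(l 5), by decide +kernel⟩

theorem c_mm_012_b : CertN 0 536870912 1239849684 370763052 201326592 134217728 3 false false false .pnp 0 1 2
    ndN1q0 ndN2q2b pcN1 Cut.none Ext.none :=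
  certN0 (fam := false) (s1 := false) (s2 := false) (a := 0) (b := 1) (c := 2) (cn := .pnp) (n1 := ndN1q0) (n2 := ndN2q2b) (pc := pcN1) (cut := Cut.none) (xt := Ext.none) (P1 := 0) (W1 := 536870912) (P2 := 1239849684) (W2 := 370763052) (P3 := 201326592) (W3 := 134217728) (N0 := 3)
    rfl k0_mm_012_b

noncomputable def f_mm_022_a : ℕ → ℕ → ℕ → ℕ → Bool := onCell 0 536870912 0 536870912 201326592 134217728
    (rowN 3 0 false false false .pp 0 2 2 (qsf 0 536870912 0 536870912 2) ndN1q0 ndN2q2a pcN2 Cut.none Ext.none)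

def k0_mm_022_a : ∃ t, chk3 f_mm_022_a t 1 1 1 = true :=
  ⟨(l 5), by decide +kernel⟩

theorem c_mm_022_a : CertN 0 536870912 0 536870912 201326592 134217728 3 false false false .pp 0 2 2
    ndN1q0 ndN2q2a pcN2 Cut.none Ext.none :=
  certN0 (fam := false) (s1 := false) (s2 := false) (a := 0) (b := 2) (c := 2) (cn := .pp) (n1 := ndN1q0) (n2 := ndN2q2a) (pc := pcN2) (cut := Cut.none) (xt := Ext.none) (P1 := 0) (W1 := 536870912) (P2 := 0) (W2 := 536870912) (P3 := 201326592) (W3 := 134217728) (N0 := 3)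
    rfl k0_mm_022_a

noncomputable def f_mm_022_b : ℕ → ℕ → ℕ → ℕ → Bool := onCell 0 536870912 1239849684 370763052 201326592 134217728
    (rowN 3 0 false false false .pp 0 2 2 (qsf 0 536870912 1239849684 370763052 2) ndN1q0 ndN2q2b pcN2 Cut.none Ext.none)

def k0_mm_022_b : ∃ t, chk3 f_mm_022_b t 1 1 1 = true :=
  ⟨(l 5), by decide +kernel⟩

theorem c_mm_022_b : CertN 0 536870912 1239849684 370763052 201326592 134217728 3 false false false .pp 0 2 2
    ndN1q0 ndN2q2b pcN2 Cut.none Ext.none :=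
  certN0 (fam := false) (s1 := false) (s2 := false) (a := 0) (b := 2) (c := 2) (cn := .pp) (n1 := ndN1q0) (n2 := ndN2q2b) (pc := pcN2) (cut := Cut.none) (xt := Ext.none) (P1 := 0) (W1 := 536870912) (P2 := 1239849684) (W2 := 370763052) (P3 := 201326592) (W3 := 134217728) (N0 := 3)
    rfl k0_mm_022_b

noncomputable def f_mm_023 : ℕ → ℕ → ℕ → ℕ → Bool := onCell 0 536870912 1610612736 536870912 201326592 134217728
    (rowN 3 0 false false false .up 0 2 3 (qsf 0 536870912 1610612736 536870912 2) ndN1q0 ndN2q3 pcN2 Cut.none Ext.none)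

def k0_mm_023 : ∃ t, chk3 f_mm_023 t 1 1 1 = true :=
  ⟨(l 5), by decide +kernel⟩

theorem c_mm_023 : CertN 0 536870912 1610612736 536870912 201326592 134217728 3 false false false .up 0 2 3
    ndN1q0 ndN2q3 pcN2 Cut.none Ext.none :=
  certN0 (fam := false) (s1 := false) (s2 := false) (a := 0) (b := 2) (c := 3) (cn := .up) (n1 := ndN1q0) (n2 := ndN2q3) (pc := pcN2) (cut := Cut.none) (xt := Ext.none) (P1 := 0) (W1 := 536870912) (P2 := 1610612736) (W2 := 536870912) (P3 := 201326592) (W3 := 134217728) (N0 := 3)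
    rfl k0_mm_023

noncomputable def f_mm_033 : ℕ → ℕ → ℕ → ℕ → Bool := onCell 0 536870912 1610612736 536870912 201326592 134217728
    (rowN 3 0 false false false .pnn 0 3 3 (qsf 0 536870912 1610612736 536870912 3) ndN1q0 ndN2q3 pcN3 Cut.none Ext.none)

def k0_mm_033 : ∃ t, chk3 f_mm_033 t 1 1 1 = true :=
  ⟨(l 5), by decide +kernel⟩

theorem c_mm_033 : CertN 0 536870912 1610612736 536870912 201326592 134217728 3 false false false .pnn 0 3 3
    ndN1q0 ndN2q3 pcN3 Cut.none Ext.none :=
  certN0 (fam := false) (s1 := false) (s2 := false) (a := 0) (b := 3) (c := 3) (cn := .pnn) (n1 := ndN1q0) (n2 := ndN2q3) (pc := pcN3) (cut := Cut.none) (xt := Ext.none) (P1 := 0) (W1 := 536870912) (P2 := 1610612736) (W2 := 536870912) (P3 := 201326592) (W3 := 134217728) (N0 := 3)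
    rfl k0_mm_033

noncomputable def f_mm_101 : ℕ → ℕ → ℕ → ℕ → Bool := onCell 536870912 536870912 536870912 536870912 201326592 134217728
    (rowN 3 0 false false false .npn 1 0 1 (qsf 536870912 536870912 536870912 536870912 0) ndN1q1 ndN2q1 pcN0 Cut.none Ext.none)

def k0_mm_101 : ∃ t, chk3 f_mm_101 t 1 1 1 = true :=
  ⟨(l 3), by decide +kernel⟩

theorem c_mm_101 : CertN 536870912 536870912 536870912 536870912 201326592 134217728 3 false false false .npn 1 0 1
    ndN1q1 ndN2q1 pcN0 Cut.none Ext.none :=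
  certN0 (fam := false) (s1 := false) (s2 := false) (a := 1) (b := 0) (c := 1) (cn := .npn) (n1 := ndN1q1) (n2 := ndN2q1) (pc := pcN0) (cut := Cut.none) (xt := Ext.none) (P1 := 536870912) (W1 := 536870912) (P2 := 536870912) (W2 := 536870912) (P3 := 201326592) (W3 := 134217728) (N0 := 3)
    rfl k0_mm_101

noncomputable def f_mm_102_a : ℕ → ℕ → ℕ → ℕ → Bool := onCell 536870912 536870912 0 536870912 201326592 134217728
    (rowN 3 0 false false false .npp 1 0 2 (qsf 536870912 536870912 0 536870912 0) ndN1q1 ndN2q2a pcN0 Cut.none Ext.none)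

def k0_mm_102_a : ∃ t, chk3 f_mm_102_a t 1 1 1 = true :=
  ⟨(l 3), by decide +kernel⟩

theorem c_mm_102_a : CertN 536870912 536870912 0 536870912 201326592 134217728 3 false false false .npp 1 0 2
    ndN1q1 ndN2q2a pcN0 Cut.none Ext.none :=
  certN0 (fam := false) (s1 := false) (s2 := false) (a := 1) (b := 0) (c := 2) (cn := .npp) (n1 := ndN1q1) (n2 := ndN2q2a) (pc := pcN0) (cut := Cut.none) (xt := Ext.none) (P1 := 536870912) (W1 := 536870912) (P2 := 0) (W2 := 536870912) (P3 := 201326592) (W3 := 134217728) (N0 := 3)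
    rfl k0_mm_102_a

noncomputable def f_mm_102_b : ℕ → ℕ → ℕ → ℕ → Bool := onCell 536870912 536870912 1239849684 370763052 201326592 134217728
    (rowN 3 0 false false false .npp 1 0 2 (qsf 536870912 536870912 1239849684 370763052 0) ndN1q1 ndN2q2b pcN0 Cut.none Ext.none)

def k0_mm_102_b : ∃ t, chk3 f_mm_102_b t 1 1 1 = true :=
  ⟨(l 5), by decide +kernel⟩

theorem c_mm_102_b : CertN 536870912 536870912 1239849684 370763052 201326592 134217728 3 false false false .npp 1 0 2
    ndN1q1 ndN2q2b pcN0 Cut.none Ext.none :=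
  certN0 (fam := false) (s1 := false) (s2 := false) (a := 1) (b := 0) (c := 2) (cn := .npp) (n1 := ndN1q1) (n2 := ndN2q2b) (pc := pcN0) (cut := Cut.none) (xt := Ext.none) (P1 := 536870912) (W1 := 536870912) (P2 := 1239849684) (W2 := 370763052) (P3 := 201326592) (W3 := 134217728) (N0 := 3)
    rfl k0_mm_102_b

noncomputable def f_mm_112_a : ℕ → ℕ → ℕ → ℕ → Bool := onCell 536870912 536870912 0 536870912 201326592 134217728
    (rowN 3 0 false false false .dn 1 1 2 (qsf 536870912 536870912 0 536870912 1) ndN1q1 ndN2q2a pcN1 Cut.none Ext.none)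

def k0_mm_112_a : ∃ t, chk3 f_mm_112_a t 1 1 1 = true :=
  ⟨(l 3), by decide +kernel⟩

theorem c_mm_112_a : CertN 536870912 536870912 0 536870912 201326592 134217728 3 false false false .dn 1 1 2
    ndN1q1 ndN2q2a pcN1 Cut.none Ext.none :=
  certN0 (fam := false) (s1 := false) (s2 := false) (a := 1) (b := 1) (c := 2) (cn := .dn) (n1 := ndN1q1) (n2 := ndN2q2a) (pc := pcN1) (cut := Cut.none) (xt := Ext.none) (P1 := 536870912) (W1 := 536870912) (P2 := 0) (W2 := 536870912) (P3 := 201326592) (W3 := 134217728) (N0 := 3)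
    rfl k0_mm_112_a

noncomputable def f_mm_112_b : ℕ → ℕ → ℕ → ℕ → Bool := onCell 536870912 536870912 1239849684 370763052 201326592 134217728
    (rowN 3 0 false false false .dn 1 1 2 (qsf 536870912 536870912 1239849684 370763052 1) ndN1q1 ndN2q2b pcN1 Cut.none Ext.none)

def k0_mm_112_b : ∃ t, chk3 f_mm_112_b t 1 1 1 = true :=
  ⟨(l 5), by decide +kernel⟩

theorem c_mm_112_b : CertN 536870912 536870912 1239849684 370763052 201326592 134217728 3 false false false .dn 1 1 2
    ndN1q1 ndN2q2b pcN1 Cut.none Ext.none :=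
  certN0 (fam := false) (s1 := false) (s2 := false) (a := 1) (b := 1) (c := 2) (cn := .dn) (n1 := ndN1q1) (n2 := ndN2q2b) (pc := pcN1) (cut := Cut.none) (xt := Ext.none) (P1 := 536870912) (W1 := 536870912) (P2 := 1239849684) (W2 := 370763052) (P3 := 201326592) (W3 := 134217728) (N0 := 3)
    rfl k0_mm_112_b

noncomputable def f_mm_113 : ℕ → ℕ → ℕ → ℕ → Bool := onCell 536870912 536870912 1610612736 536870912 201326592 134217728
    (rowN 3 0 false false false .nn 1 1 3 (qsf 536870912 536870912 1610612736 536870912 1) ndN1q1 ndN2q3 pcN1 Cut.none Ext.none)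

def k0_mm_113 : ∃ t, chk3 f_mm_113 t 1 1 1 = true :=
  ⟨(l 5), by decide +kernel⟩

theorem c_mm_113 : CertN 536870912 536870912 1610612736 536870912 201326592 134217728 3 false false false .nn 1 1 3
    ndN1q1 ndN2q3 pcN1 Cut.none Ext.none :=
  certN0 (fam := false) (s1 := false) (s2 := false) (a := 1) (b := 1) (c := 3) (cn := .nn) (n1 := ndN1q1) (n2 := ndN2q3) (pc := pcN1) (cut := Cut.none) (xt := Ext.none) (P1 := 536870912) (W1 := 536870912) (P2 := 1610612736) (W2 := 536870912) (P3 := 201326592) (W3 := 134217728) (N0 := 3)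
    rfl k0_mm_113

noncomputable def f_mm_123 : ℕ → ℕ → ℕ → ℕ → Bool := onCell 536870912 536870912 1610612736 536870912 201326592 134217728
    (rowN 3 0 false false false .npn 1 2 3 (qsf 536870912 536870912 1610612736 536870912 2) ndN1q1 ndN2q3 pcN2 Cut.none Ext.none)

def k0_mm_123 : ∃ t, chk3 f_mm_123 t 1 1 1 = true :=
  ⟨(l 5), by decide +kernel⟩

theorem c_mm_123 : CertN 536870912 536870912 1610612736 536870912 201326592 134217728 3 false false false .npn 1 2 3
    ndN1q1 ndN2q3 pcN2 Cut.none Ext.none :=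
  certN0 (fam := false) (s1 := false) (s2 := false) (a := 1) (b := 2) (c := 3) (cn := .npn) (n1 := ndN1q1) (n2 := ndN2q3) (pc := pcN2) (cut := Cut.none) (xt := Ext.none) (P1 := 536870912) (W1 := 536870912) (P2 := 1610612736) (W2 := 536870912) (P3 := 201326592) (W3 := 134217728) (N0 := 3)
    rfl k0_mm_123

noncomputable def f_mm_133 : ℕ → ℕ → ℕ → ℕ → Bool := onCell 536870912 536870912 1610612736 536870912 201326592 134217728
    (rowN 3 0 false false false .dn 1 3 3 (qsf 536870912 536870912 1610612736 536870912 3) ndN1q1 ndN2q3 pcN3 Cut.none Ext.none)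

def k0_mm_133 : ∃ t, chk3 f_mm_133 t 1 1 1 = true :=
  ⟨(l 5), by decide +kernel⟩

theorem c_mm_133 : CertN 536870912 536870912 1610612736 536870912 201326592 134217728 3 false false false .dn 1 3 3
    ndN1q1 ndN2q3 pcN3 Cut.none Ext.none :=
  certN0 (fam := false) (s1 := false) (s2 := false) (a := 1) (b := 3) (c := 3) (cn := .dn) (n1 := ndN1q1) (n2 := ndN2q3) (pc := pcN3) (cut := Cut.none) (xt := Ext.none) (P1 := 536870912) (W1 := 536870912) (P2 := 1610612736) (W2 := 536870912) (P3 := 201326592) (W3 := 134217728) (N0 := 3)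
    rfl k0_mm_133

noncomputable def f_mm_202_aa : ℕ → ℕ → ℕ → ℕ → Bool := onCell 0 536870912 0 536870912 201326592 134217728
    (rowN 3 0 false false false .pp 2 0 2 (qsf 0 536870912 0 536870912 0) ndN1q2a ndN2q2a pcN0 Cut.none Ext.none)

def k0_mm_202_aa : ∃ t, chk3 f_mm_202_aa t 1 1 1 = true :=
  ⟨(l 3), by decide +kernel⟩

theorem c_mm_202_aa : CertN 0 536870912 0 536870912 201326592 134217728 3 false false false .pp 2 0 2
    ndN1q2a ndN2q2a pcN0 Cut.none Ext.none :=
  certN0 (fam := false) (s1 := false) (s2 := false) (a := 2) (b := 0) (c := 2) (cn := .pp) (n1 := ndN1q2a) (n2 := ndN2q2a) (pc := pcN0) (cut := Cut.none) (xt := Ext.none) (P1 := 0) (W1 := 536870912) (P2 := 0) (W2 := 536870912) (P3 := 201326592) (W3 := 134217728) (N0 := 3)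
    rfl k0_mm_202_aa

noncomputable def f_mm_202_ab : ℕ → ℕ → ℕ → ℕ → Bool := onCell 0 536870912 1239849684 370763052 201326592 134217728
    (rowN 3 0 false false false .pp 2 0 2 (qsf 0 536870912 1239849684 370763052 0) ndN1q2a ndN2q2b pcN0 Cut.none Ext.none)

def k0_mm_202_ab : ∃ t, chk3 f_mm_202_ab t 1 1 1 = true :=
  ⟨(l 3), by decide +kernel⟩

theorem c_mm_202_ab : CertN 0 536870912 1239849684 370763052 201326592 134217728 3 false false false .pp 2 0 2
    ndN1q2a ndN2q2b pcN0 Cut.none Ext.none :=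
  certN0 (fam := false) (s1 := false) (s2 := false) (a := 2) (b := 0) (c := 2) (cn := .pp) (n1 := ndN1q2a) (n2 := ndN2q2b) (pc := pcN0) (cut := Cut.none) (xt := Ext.none) (P1 := 0) (W1 := 536870912) (P2 := 1239849684) (W2 := 370763052) (P3 := 201326592) (W3 := 134217728) (N0 := 3)
    rfl k0_mm_202_ab

noncomputable def f_mm_202_ba : ℕ → ℕ → ℕ → ℕ → Bool := onCell 1239849684 370763052 0 536870912 201326592 134217728
    (rowN 3 0 false false false .pp 2 0 2 (qsf 1239849684 370763052 0 536870912 0) ndN1q2b ndN2q2a pcN0 Cut.none Ext.none)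

def k0_mm_202_ba : ∃ t, chk3 f_mm_202_ba t 1 1 1 = true :=
  ⟨(l 3), by decide +kernel⟩

theorem c_mm_202_ba : CertN 1239849684 370763052 0 536870912 201326592 134217728 3 false false false .pp 2 0 2
    ndN1q2b ndN2q2a pcN0 Cut.none Ext.none :=
  certN0 (fam := false) (s1 := false) (s2 := false) (a := 2) (b := 0) (c := 2) (cn := .pp) (n1 := ndN1q2b) (n2 := ndN2q2a) (pc := pcN0) (cut := Cut.none) (xt := Ext.none) (P1 := 1239849684) (W1 := 370763052) (P2 := 0) (W2 := 536870912) (P3 := 201326592) (W3 := 134217728) (N0 := 3)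
    rfl k0_mm_202_ba

noncomputable def f_mm_202_bb : ℕ → ℕ → ℕ → ℕ → Bool := onCell 1239849684 370763052 1239849684 370763052 201326592 134217728
    (rowN 3 0 false false false .pp 2 0 2 (qsf 1239849684 370763052 1239849684 370763052 0) ndN1q2b ndN2q2b pcN0 Cut.none Ext.none)

def k0_mm_202_bb : ∃ t, chk3 f_mm_202_bb t 1 1 1 = true :=
  ⟨(l 3), by decide +kernel⟩

theorem c_mm_202_bb : CertN 1239849684 370763052 1239849684 370763052 201326592 134217728 3 false false false .pp 2 0 2
    ndN1q2b ndN2q2b pcN0 Cut.none Ext.none :=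
  certN0 (fam := false) (s1 := false) (s2 := false) (a := 2) (b := 0) (c := 2) (cn := .pp) (n1 := ndN1q2b) (n2 := ndN2q2b) (pc := pcN0) (cut := Cut.none) (xt := Ext.none) (P1 := 1239849684) (W1 := 370763052) (P2 := 1239849684) (W2 := 370763052) (P3 := 201326592) (W3 := 134217728) (N0 := 3)
    rfl k0_mm_202_bb

noncomputable def f_mm_203_a : ℕ → ℕ → ℕ → ℕ → Bool := onCell 0 536870912 0 536870912 201326592 134217728
    (rowN 3 1 false false false .up 2 0 3 (qsf 0 536870912 1610612736 536870912 0) ndN1q2a ndN2q3 pcN0 Cut.none Ext.none)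

def k0_mm_203_a : ∃ t, chk3 f_mm_203_a t 1 1 1 = true :=
  ⟨(l 3), by decide +kernel⟩

theorem c_mm_203_a : CertN 0 536870912 1610612736 536870912 201326592 134217728 3 false false false .up 2 0 3
    ndN1q2a ndN2q3 pcN0 Cut.none Ext.none :=
  certN1 (fam := false) (s1 := false) (s2 := false) (a := 2) (b := 0) (c := 3) (cn := .up) (n1 := ndN1q2a) (n2 := ndN2q3) (pc := pcN0) (cut := Cut.none) (xt := Ext.none) (P1 := 0) (W1 := 536870912) (P2 := 1610612736) (W2 := 536870912) (P3 := 201326592) (W3 := 134217728) (N0 := 3)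
    rfl (fun _ => rfl) k0_mm_203_a

noncomputable def f_mm_203_b : ℕ → ℕ → ℕ → ℕ → Bool := onCell 1239849684 370763052 1610612736 536870912 201326592 134217728
    (rowN 3 0 false false false .up 2 0 3 (qsf 1239849684 370763052 1610612736 536870912 0) ndN1q2b ndN2q3 pcN0 Cut.none Ext.none)

def k0_mm_203_b : ∃ t, chk3 f_mm_203_b t 1 1 1 = true :=
  ⟨(l 3), by decide +kernel⟩

theorem c_mm_203_b : CertN 1239849684 370763052 1610612736 536870912 201326592 134217728 3 false false false .up 2 0 3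
    ndN1q2b ndN2q3 pcN0 Cut.none Ext.none :=
  certN0 (fam := false) (s1 := false) (s2 := false) (a := 2) (b := 0) (c := 3) (cn := .up) (n1 := ndN1q2b) (n2 := ndN2q3) (pc := pcN0) (cut := Cut.none) (xt := Ext.none) (P1 := 1239849684) (W1 := 370763052) (P2 := 1610612736) (W2 := 536870912) (P3 := 201326592) (W3 := 134217728) (N0 := 3)
    rfl k0_mm_203_b

noncomputable def f_mm_213_a : ℕ → ℕ → ℕ → ℕ → Bool := onCell 0 536870912 1610612736 536870912 201326592 134217728
    (rowN 3 0 false false false .pnn 2 1 3 (qsf 0 536870912 1610612736 536870912 1) ndN1q2a ndN2q3 pcN1 Cut.none Ext.none)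

def k0_mm_213_a : ∃ t, chk3 f_mm_213_a t 1 1 1 = true :=
  ⟨(b (l 3) (l 5)), by decide +kernel⟩

theorem c_mm_213_a : CertN 0 536870912 1610612736 536870912 201326592 134217728 3 false false false .pnn 2 1 3
    ndN1q2a ndN2q3 pcN1 Cut.none Ext.none :=
  certN0 (fam := false) (s1 := false) (s2 := false) (a := 2) (b := 1) (c := 3) (cn := .pnn) (n1 := ndN1q2a) (n2 := ndN2q3) (pc := pcN1) (cut := Cut.none) (xt := Ext.none) (P1 := 0) (W1 := 536870912) (P2 := 1610612736) (W2 := 536870912) (P3 := 201326592) (W3 := 134217728) (N0 := 3)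
    rfl k0_mm_213_a

noncomputable def f_mm_213_b : ℕ → ℕ → ℕ → ℕ → Bool := onCell 1239849684 370763052 1610612736 536870912 201326592 134217728
    (rowN 3 0 false false false .pnn 2 1 3 (qsf 1239849684 370763052 1610612736 536870912 1) ndN1q2b ndN2q3 pcN1 Cut.none Ext.none)

def k0_mm_213_b : ∃ t, chk3 f_mm_213_b t 1 1 1 = true :=
  ⟨(l 3), by decide +kernel⟩

theorem c_mm_213_b : CertN 1239849684 370763052 1610612736 536870912 201326592 134217728 3 false false false .pnn 2 1 3
    ndN1q2b ndN2q3 pcN1 Cut.none Ext.none :=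
  certN0 (fam := false) (s1 := false) (s2 := false) (a := 2) (b := 1) (c := 3) (cn := .pnn) (n1 := ndN1q2b) (n2 := ndN2q3) (pc := pcN1) (cut := Cut.none) (xt := Ext.none) (P1 := 1239849684) (W1 := 370763052) (P2 := 1610612736) (W2 := 536870912) (P3 := 201326592) (W3 := 134217728) (N0 := 3)
    rfl k0_mm_213_b

noncomputable def f_mm_303 : ℕ → ℕ → ℕ → ℕ → Bool := onCell 1610612736 536870912 1610612736 536870912 201326592 134217728
    (rowN 3 0 false false false .npn 3 0 3 (qsf 1610612736 536870912 1610612736 536870912 0) ndN1q3 ndN2q3 pcN0 Cut.none Ext.none)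

def k0_mm_303 : ∃ t, chk3 f_mm_303 t 1 1 1 = true :=
  ⟨(l 3), by decide +kernel⟩

theorem c_mm_303 : CertN 1610612736 536870912 1610612736 536870912 201326592 134217728 3 false false false .npn 3 0 3
    ndN1q3 ndN2q3 pcN0 Cut.none Ext.none :=
  certN0 (fam := false) (s1 := false) (s2 := false) (a := 3) (b := 0) (c := 3) (cn := .npn) (n1 := ndN1q3) (n2 := ndN2q3) (pc := pcN0) (cut := Cut.none) (xt := Ext.none) (P1 := 1610612736) (W1 := 536870912) (P2 := 1610612736) (W2 := 536870912) (P3 := 201326592) (W3 := 134217728) (N0 := 3)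
    rfl k0_mm_303

noncomputable def f_mm_313 : ℕ → ℕ → ℕ → ℕ → Bool := onCell 1610612736 536870912 1610612736 536870912 201326592 134217728
    (rowN 3 0 false false false .dn 3 1 3 (qsf 1610612736 536870912 1610612736 536870912 1) ndN1q3 ndN2q3 pcN1 Cut.none Ext.none)

def k0_mm_313 : ∃ t, chk3 f_mm_313 t 1 1 1 = true :=
  ⟨(l 3), by decide +kernel⟩

theorem c_mm_313 : CertN 1610612736 536870912 1610612736 536870912 201326592 134217728 3 false false false .dn 3 1 3
    ndN1q3 ndN2q3 pcN1 Cut.none Ext.none :=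
  certN0 (fam := false) (s1 := false) (s2 := false) (a := 3) (b := 1) (c := 3) (cn := .dn) (n1 := ndN1q3) (n2 := ndN2q3) (pc := pcN1) (cut := Cut.none) (xt := Ext.none) (P1 := 1610612736) (W1 := 536870912) (P2 := 1610612736) (W2 := 536870912) (P3 := 201326592) (W3 := 134217728) (N0 := 3)
    rfl k0_mm_313

end Pool.Agent.Strip051.G.I3_16_5_16.Tab.C.NB12

namespace Pool.Agent.Strip051.G.I3_16_5_16.Tab.C.NB13

open Pool.Agent.Strip051.PB Pool.Agent.Strip051.PB.T
open Pool.Agent.Strip051.G.I3_16_5_16.Tab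

noncomputable def f_pp_001 : ℕ → ℕ → ℕ → ℕ → Bool := onCell 0 536870912 0 536870912 201326592 134217728
    (rowN 3 1 false true true .up 0 0 1 (qsf 0 536870912 536870912 536870912 0) ndN1q0 ndN3q1 pcN0 Cut.none Ext.none)

def k0_pp_001 : ∃ t, chk3 f_pp_001 t 1 1 1 = true :=
  ⟨(l 3), by decide +kernel⟩

theorem c_pp_001 : CertN 0 536870912 536870912 536870912 201326592 134217728 3 false true true .up 0 0 1
    ndN1q0 ndN3q1 pcN0 Cut.none Ext.none :=
  certN1 (fam := false) (s1 := true) (s2 := true) (a := 0) (b := 0) (c := 1) (cn := .up) (n1 := ndN1q0) (n2 := ndN3q1) (pc := pcN0) (cut := Cut.none) (xt := Ext.none) (P1 := 0) (W1 := 536870912) (P2 := 536870912) (W2 := 536870912) (P3 := 201326592) (W3 := 134217728) (N0 := 3)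
    rfl (fun _ => rfl) k0_pp_001

noncomputable def cut_pp_011 : Cut := Cut.of [[⟨0, 0, 0, 67108864⟩, ⟨1, 1, 0, 67108864⟩, ⟨2, 1, 0, 67108864⟩]]

noncomputable def f_pp_011 : ℕ → ℕ → ℕ → ℕ → Bool := onCell 0 536870912 536870912 536870912 201326592 134217728
    (rowN 3 1 false true true .pnn 0 1 1 (qsf 0 536870912 536870912 536870912 1) ndN1q0 ndN3q1 pcN1 cut_pp_011 Ext.none)

def k0_pp_011 : ∃ t, chk3 f_pp_011 t 1 1 1 = true :=
  ⟨(a (b (l 3) (a (b (l 3) (a (a (b (l 3) (b (l 3) (l 6))) (l 3)) (l 3))) (l 3))) (l 3)), by decide +kernel⟩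

theorem c_pp_011 : CertN 0 536870912 536870912 536870912 201326592 134217728 3 false true true .pnn 0 1 1
    ndN1q0 ndN3q1 pcN1 cut_pp_011 Ext.none :=
  certN1 (fam := false) (s1 := true) (s2 := true) (a := 0) (b := 1) (c := 1) (cn := .pnn) (n1 := ndN1q0) (n2 := ndN3q1) (pc := pcN1) (cut := cut_pp_011) (xt := Ext.none) (P1 := 0) (W1 := 536870912) (P2 := 536870912) (W2 := 536870912) (P3 := 201326592) (W3 := 134217728) (N0 := 3)
    rfl (fun _ => rfl) k0_pp_011

noncomputable def f_pp_012 : ℕ → ℕ → ℕ → ℕ → Bool := onCell 536870912 536870912 1073741824 536870912 201326592 134217728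
    (rowN 3 2 false true true .pnp 0 1 2 (qsf 0 536870912 1073741824 536870912 1) ndN1q0 ndN3q2 pcN1 Cut.none Ext.none)

def k0_pp_012 : ∃ t, chk3 f_pp_012 t 1 1 1 = true :=
  ⟨(a (l 3) (a (l 3) (a (b (l 3) (b (l 3) (b (l 3) (l 17180504)))) (b (l 3) (b (b (b (l 3) (l 265382996007)) (b (l 17077872) (l 17127768))) (b (b (l 17183128) (l 17233328)) (l 17286736))))))), by decide +kernel⟩

theorem c_pp_012 : CertN 0 536870912 1073741824 536870912 201326592 134217728 3 false true true .pnp 0 1 2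
    ndN1q0 ndN3q2 pcN1 Cut.none Ext.none :=
  certN2 (fam := false) (s1 := true) (s2 := true) (a := 0) (b := 1) (c := 2) (cn := .pnp) (n1 := ndN1q0) (n2 := ndN3q2) (pc := pcN1) (cut := Cut.none) (xt := Ext.none) (P1 := 0) (W1 := 536870912) (P2 := 1073741824) (W2 := 536870912) (P3 := 201326592) (W3 := 134217728) (N0 := 3)
    rfl (fun _ => rfl) k0_pp_012

noncomputable def f_pp_022 : ℕ → ℕ → ℕ → ℕ → Bool := onCell 1073741824 536870912 1073741824 536870912 201326592 134217728
    (rowN 3 2 false true true .pp 0 2 2 (qsf 0 536870912 1073741824 536870912 2) ndN1q0 ndN3q2 pcN2 Cut.none Ext.none)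

def k0_pp_022 : ∃ t, chk3 f_pp_022 t 4 2 1 = true :=
  ⟨(b (a (l 3) (b (a (l 3) (l 1)) (b (a (l 3) (b (l 1) (a (a (a (l 3) (l 1)) (l 1)) (l 1)))) (b (a (a (l 3) (c (l 351281040519) (l 379735188743))) (a (c (a (b (l 136935292599) (l 16580920)) (b (l 16603192) (l 140156465575))) (b (a (l 139619633879) (l 16589320)) (l 138545865895))) (c (b (l 1) (l 74658229575)) (l 96669973239)))) (a (a (l 3) (b (c (l 16592216) (l 16587680)) (a (l 16648024) (l 16630880)))) (b (a (c (a (l 16565472) (l 16546560)) (l 16553504)) (c (l 131029619159) (l 16556280))) (a (c (l 16626712) (l 16601072)) (c (a (l 16582920) (l 129418995447)) (b (l 16523696) (l 16568944)))))))))) (b (b (a (l 3) (b (a (a (a (l 3) (l 16733856)) (c (l 16712584) (l 16724656))) (a (b (a (l 16618256) (l 16610896)) (c (l 16573592) (l 16566552))) (b (c (a (l 16542576) (l 16565784)) (l 16593064)) (c (l 16578720) (l 16533152))))) (a (b (a (l 16642840) (l 16629616)) (a (a (l 16822960) (l 16806368)) (c (l 16763624) (l 16773904)))) (b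 (a (c (l 16576656) (l 16569064)) (c (l 16540216) (l 16536128))) (b (a (l 16574696) (l 16582312)) (a (a (l 16668304) (l 16651080)) (c (l 16627248) (b (l 16538600) (l 16538792))))))))) (a (a (l 3) (c (l 16770720) (l 16800264))) (a (a (l 16764072) (b (l 16608904) (l 16610352))) (a (c (l 16655344) (l 16649456)) (b (c (l 16520608) (l 16538128)) (l 16583288)))))) (a (b (a (l 3) (b (l 16690800) (l 16690488))) (a (l 16749464) (c (l 16758216) (l 16672480)))) (a (b (a (l 16660272) (b (l 16609832) (l 16606640))) (l 16732112)) (b (a (l 16653392) (b (l 16559456) (l 16530096))) (c (l 16635744) (l 16533400))))))), by decide +kernel⟩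

def k1_pp_022 : ∃ t, chk3 f_pp_022 t 5 4 1 = true :=
  ⟨(a (b (l 1) (b (l 1) (a (a (b (l 1) (b (l 1) (c (a (l 73584421783) (l 1)) (l 103649207063)))) (l 1)) (l 1)))) (l 1)), by decide +kernel⟩

def k2_pp_022 : ∃ t, chk3 f_pp_022 t 5 10 1 = true :=
  ⟨(a (b (a (a (b (c (b (a (b (l 16504216) (l 16527376)) (l 16525112)) (a (l 16550824) (b (l 16489648) (l 16512648)))) (b (a (l 16515424) (l 16509112)) (a (l 16508344) (l 16491848)))) (b (a (c (l 16512680) (l 16511712)) (c (l 16535544) (l 16515840))) (b (c (l 16546272) (l 16504376)) (b (c (l 16525928) (l 16505024)) (c (l 16567800) (a (l 16514896) (l 16496560))))))) (b (a (b (l 1) (c (l 90227347783) (l 16514240))) (l 1)) (a (b (c (b (l 115460259687) (l 153578094999)) (l 107944034743)) (b (c (l 16468504) (l 16471656)) (b (c (l 16467848) (l 16471008)) (c (l 16488016) (l 16470288))))) (b (c (c (l 16541856) (l 16539728)) (l 116534081287)) (c (b (l 119755266983) (b (l 161631190871) (a (l 16490952) (l 172905475703)))) (b (l 16521408)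 (b (l 16506920) (l 202433403191)))))))) (b (l 1) (b (l 1) (a (b (l 1) (b (l 1) (c (l 92911682455) (l 16484112)))) (l 1))))) (a (a (b (c (b (l 16503824) (l 16503312)) (l 16564960)) (a (l 16532408) (l 16529008))) (a (b (c (l 16482960) (l 16465728)) (l 16523224)) (b (c (c (l 16523912) (l 16516048)) (c (l 16519368) (l 16517120))) (c (l 16488400) (l 16492712))))) (b (a (c (b (l 140693140487) (l 170757889191)) (l 164315469623)) (c (b (l 1) (l 111702072967)) (l 109017743271))) (c (a (l 16471496) (b (l 141766824567) (l 16441784))) (a (l 16433080) (l 168073494055)))))) (a (b (l 1) (b (l 1) (c (a (l 131029419719) (l 1)) (l 128345035559)))) (l 1))), by decide +kernel⟩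

def k3_pp_022 : ∃ t, chk3 f_pp_022 t 5 11 1 = true :=
  ⟨(a (b (a (a (b (l 16513592) (l 16484624)) (c (a (l 16464160) (l 16536696)) (a (l 16450288) (l 16524712)))) (b (c (a (l 16410592) (l 16446256)) (l 16429440)) (c (l 16390800) (l 16369024)))) (a (c (a (l 16609360) (l 16598968)) (a (l 16470184) (l 16493272))) (b (l 16420184) (l 16389096)))) (b (b (a (c (a (l 175052797687) (l 144988009959)) (l 154114797735)) (l 1)) (a (c (a (l 16403376) (l 179884583751)) (l 185253270919)) (c (l 164852131079) (l 156262131287)))) (a (b (c (a (l 16492432) (l 16495160)) (l 16358792)) (c (l 16709256) (l 16325800))) (b (c (a (c (l 205654679063) (l 16347584)) (l 184716504855)) (l 167536464727)) (c (c (l 170758647239) (l 179347837159)) (l 190621890567)))))), by decide +kernel⟩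

def k4_pp_022 : ∃ t, chk3 f_pp_022 t 2 3 1 = true :=
  ⟨(a (b (a (b (a (b (l 16807920) (l 16943272)) (b (l 16722992) (l 16893400))) (b (a (l 17043920) (l 17020464)) (l 17114376))) (a (b (b (l 16647296) (l 16852520)) (b (l 17000272) (l 17111168))) (b (b (l 16585424) (l 16822712)) (b (l 16991424) (l 17116248))))) (a (b (b (l 17199080) (l 17276000)) (l 17360072)) (a (b (l 17256456) (l 17389176)) (b (a (l 17267304) (l 17275248)) (a (l 17405512) (l 17415800)))))) (b (a (b (a (a (b (l 16552048) (l 16809664)) (b (l 16607208) (c (l 17128520) (l 16482120)))) (b (l 16526000) (l 16809032))) (a (a (l 17148800) (b (l 16999960) (l 17137408))) (b (l 17008784) (l 17154720)))) (b (b (b (a (l 16489136) (c (l 16854800) (l 16302752))) (c (l 17043432) (l 16303608))) (a (l 16719736) (c (l 17238088) (l 16456992)))) (b (a (l 17034936) (l 17071296)) (a (l 17186520) (l 17226640))))) (a (b (a (a (l 17284808) (b (l 17247640) (l 17337120))) (l 17310976)) (a (a (l 17427240) (l 17438544)) (l 17450600)))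 (b (b (l 17313144) (l 17393928)) (l 17484584))))), by decide +kernel⟩

def k5_pp_022 : ∃ t, chk3 f_pp_022 t 3 1 1 = true :=
  ⟨(b (a (b (l 1) (a (a (b (l 1) (b (l 1) (b (l 1) (c (l 245920368167) (l 183105661975))))) (l 1)) (l 1))) (l 1)) (a (b (b (b (a (a (c (b (a (l 249678358519) (l 242162182583)) (a (l 17102168) (l 276522260791))) (b (l 192232454087) (l 197601146567))) (b (l 1) (c (l 316788107399) (l 210486014967)))) (l 1)) (b (a (a (c (l 17240328) (l 16375488)) (c (l 285112514999) (l 218539211271))) (l 1)) (a (c (a (l 17342264) (l 17377960)) (a (l 16552896) (l 204043727207))) (c (l 404298662391) (a (l 261488850679) (l 1)))))) (a (b (b (c (l 17455640) (l 16715480)) (c (l 17523688) (l 16842664))) (c (l 17601960) (a (l 16972376) (l 17015608)))) (b (c (b (l 328599760631) (l 174518050135)) (a (b (l 255583566695) (l 16899016)) (l 367790275255))) (c (a (l 17699152) (l 386582563431)) (a (b (l 17014088) (l 17107112)) (b (l 321619274567) (l 17155176))))))) (b (a (b (c (l 17670344)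 (l 17128600)) (l 17471056)) (b (c (l 17790000) (a (l 17198264) (l 17248512))) (c (l 17822544) (l 17307816)))) (a (l 17547120) (l 17623480)))) (b (a (b (l 1) (b (l 1) (c (l 521337231095) (a (l 434899700295) (l 1))))) (l 1)) (b (a (a (b (c (l 17873296) (l 399466590871)) (l 17647856)) (b (c (l 17902920) (l 416646347879)) (l 416109836167))) (b (l 1) (c (l 471945432823) (l 465501980919)))) (a (a (l 17693976) (l 17743416)) (c (l 18035328) (l 430605518183))))))), by decide +kernel⟩

theorem s6_pp_022 : ∃ t, chk3 f_pp_022 t 5 5 1 = true := ex3_b k2_pp_022 k3_pp_022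

theorem s7_pp_022 : ∃ t, chk3 f_pp_022 t 5 2 1 = true := ex3_b k1_pp_022 s6_pp_022

theorem s8_pp_022 : ∃ t, chk3 f_pp_022 t 2 2 1 = true := ex3_a k0_pp_022 s7_pp_022

theorem s9_pp_022 : ∃ t, chk3 f_pp_022 t 2 1 1 = true := ex3_b s8_pp_022 k4_pp_022

theorem s10_pp_022 : ∃ t, chk3 f_pp_022 t 1 1 1 = true := ex3_a s9_pp_022 k5_pp_022

theorem c_pp_022 : CertN 0 536870912 1073741824 536870912 201326592 134217728 3 false true true .pp 0 2 2
    ndN1q0 ndN3q2 pcN2 Cut.none Ext.none :=
  certN2 (fam := false) (s1 := true) (s2 := true) (a := 0) (b := 2) (c := 2) (cn := .pp) (n1 := ndN1q0) (n2 := ndN3q2) (pc := pcN2) (cut := Cut.none) (xt := Ext.none) (P1 := 0) (W1 := 536870912) (P2 := 1073741824) (W2 := 536870912) (P3 := 201326592) (W3 := 134217728) (N0 := 3)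
    rfl (fun _ => rfl) s10_pp_022

noncomputable def f_pp_023 : ℕ → ℕ → ℕ → ℕ → Bool := onCell 1073741824 536870912 0 1230186008 201326592 134217728
    (rowN 3 2 false true true .up 0 2 3 (qsf 0 536870912 0 1230186008 2) ndN1q0 ndN3q3 pcN2 Cut.none Ext.none)

def k0_pp_023 : ∃ t, chk3 f_pp_023 t 1 1 1 = true :=
  ⟨(b (a (l 2) (a (l 2) (a (b (l 2) (l 17791512)) (l 17730616)))) (b (a (a (l 2) (a (l 2) (l 17774608))) (a (a (l 17780608) (l 17784848)) (a (l 17806320) (l 17825408)))) (a (b (a (l 2) (a (a (a (l 17703408) (l 17710752)) (l 17709160)) (l 17713024))) (a (a (l 17518616) (a (l 17555280) (a (l 17574784) (l 17586104)))) (a (a (a (l 17598408) (l 17756432)) (l 17616984)) (a (l 17635104) (l 17652336))))) (a (a (b (l 17725104) (l 17781552)) (b (l 17726680) (b (l 17706448) (l 17713984)))) (a (b (l 17755248) (a (l 17744504) (l 17774288))) (b (l 17800728) (l 17814376))))))), by decide +kernel⟩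

theorem c_pp_023 : CertN 0 536870912 0 1230186008 201326592 134217728 3 false true true .up 0 2 3
    ndN1q0 ndN3q3 pcN2 Cut.none Ext.none :=
  certN2 (fam := false) (s1 := true) (s2 := true) (a := 0) (b := 2) (c := 3) (cn := .up) (n1 := ndN1q0) (n2 := ndN3q3) (pc := pcN2) (cut := Cut.none) (xt := Ext.none) (P1 := 0) (W1 := 536870912) (P2 := 0) (W2 := 1230186008) (P3 := 201326592) (W3 := 134217728) (N0 := 3)
    rfl (fun _ => rfl) k0_pp_023

noncomputable def f_pp_033 : ℕ → ℕ → ℕ → ℕ → Bool := onCell 1610612736 536870912 0 1230186008 201326592 134217728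
    (rowN 3 2 false true true .pnn 0 3 3 (qsf 0 536870912 0 1230186008 3) ndN1q0 ndN3q3 pcN3 Cut.none Ext.none)

def k0_pp_033 : ∃ t, chk3 f_pp_033 t 1 1 1 = true :=
  ⟨(b (a (a (a (b (l 17588072) (l 17539352)) (b (l 17550568) (l 17558920))) (a (c (l 17525824) (l 17414512)) (l 17547544))) (a (a (b (l 4) (l 17531552)) (l 4)) (l 4))) (b (a (a (b (a (l 17499976) (l 17561624)) (a (l 17543976) (l 17602424))) (b (a (l 17599048) (l 17621816)) (a (l 17649344) (l 17685384)))) (a (a (c (l 573950937607) (l 17740184)) (a (l 594888801751) (l 634617235095))) (b (a (l 4) (l 1)) (l 1)))) (a (b (a (c (l 17721016) (l 17587544)) (a (l 17736256) (l 571803533767))) (a (b (a (l 17748656) (l 17793720)) (b (l 222300742487) (a (l 17871896) (l 1)))) (b (a (l 615827078663) (l 1)) (l 1)))) (l 1)))), by decide +kernel⟩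

theorem c_pp_033 : CertN 0 536870912 0 1230186008 201326592 134217728 3 false true true .pnn 0 3 3
    ndN1q0 ndN3q3 pcN3 Cut.none Ext.none :=
  certN2 (fam := false) (s1 := true) (s2 := true) (a := 0) (b := 3) (c := 3) (cn := .pnn) (n1 := ndN1q0) (n2 := ndN3q3) (pc := pcN3) (cut := Cut.none) (xt := Ext.none) (P1 := 0) (W1 := 536870912) (P2 := 0) (W2 := 1230186008) (P3 := 201326592) (W3 := 134217728) (N0 := 3)
    rfl (fun _ => rfl) k0_pp_033

noncomputable def f_pp_101 : ℕ → ℕ → ℕ → ℕ → Bool := onCell 536870912 536870912 536870912 536870912 201326592 134217728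
    (rowN 3 0 false true true .npn 1 0 1 (qsf 536870912 536870912 536870912 536870912 0) ndN1q1 ndN3q1 pcN0 Cut.none Ext.none)

def k0_pp_101 : ∃ t, chk3 f_pp_101 t 1 1 1 = true :=
  ⟨(l 3), by decide +kernel⟩

theorem c_pp_101 : CertN 536870912 536870912 536870912 536870912 201326592 134217728 3 false true true .npn 1 0 1
    ndN1q1 ndN3q1 pcN0 Cut.none Ext.none :=
  certN0 (fam := false) (s1 := true) (s2 := true) (a := 1) (b := 0) (c := 1) (cn := .npn) (n1 := ndN1q1) (n2 := ndN3q1) (pc := pcN0) (cut := Cut.none) (xt := Ext.none) (P1 := 536870912) (W1 := 536870912) (P2 := 536870912) (W2 := 536870912) (P3 := 201326592) (W3 := 134217728) (N0 := 3)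
    rfl k0_pp_101

noncomputable def f_pp_102 : ℕ → ℕ → ℕ → ℕ → Bool := onCell 536870912 536870912 0 536870912 201326592 134217728
    (rowN 3 1 false true true .npp 1 0 2 (qsf 536870912 536870912 1073741824 536870912 0) ndN1q1 ndN3q2 pcN0 Cut.none Ext.none)

def k0_pp_102 : ∃ t, chk3 f_pp_102 t 1 1 1 = true :=
  ⟨(l 3), by decide +kernel⟩

theorem c_pp_102 : CertN 536870912 536870912 1073741824 536870912 201326592 134217728 3 false true true .npp 1 0 2
    ndN1q1 ndN3q2 pcN0 Cut.none Ext.none :=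
  certN1 (fam := false) (s1 := true) (s2 := true) (a := 1) (b := 0) (c := 2) (cn := .npp) (n1 := ndN1q1) (n2 := ndN3q2) (pc := pcN0) (cut := Cut.none) (xt := Ext.none) (P1 := 536870912) (W1 := 536870912) (P2 := 1073741824) (W2 := 536870912) (P3 := 201326592) (W3 := 134217728) (N0 := 3)
    rfl (fun _ => rfl) k0_pp_102

noncomputable def f_pp_112 : ℕ → ℕ → ℕ → ℕ → Bool := onCell 536870912 536870912 1073741824 536870912 201326592 134217728
    (rowN 3 0 false true true .dn 1 1 2 (qsf 536870912 536870912 1073741824 536870912 1) ndN1q1 ndN3q2 pcN1 Cut.none Ext.none)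

def k0_pp_112 : ∃ t, chk3 f_pp_112 t 1 1 1 = true :=
  ⟨(a (b (l 3) (b (l 3) (a (b (l 3) (l 200959151063)) (l 3)))) (l 3)), by decide +kernel⟩

theorem c_pp_112 : CertN 536870912 536870912 1073741824 536870912 201326592 134217728 3 false true true .dn 1 1 2
    ndN1q1 ndN3q2 pcN1 Cut.none Ext.none :=
  certN0 (fam := false) (s1 := true) (s2 := true) (a := 1) (b := 1) (c := 2) (cn := .dn) (n1 := ndN1q1) (n2 := ndN3q2) (pc := pcN1) (cut := Cut.none) (xt := Ext.none) (P1 := 536870912) (W1 := 536870912) (P2 := 1073741824) (W2 := 536870912) (P3 := 201326592) (W3 := 134217728) (N0 := 3)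
    rfl k0_pp_112

end Pool.Agent.Strip051.G.I3_16_5_16.Tab.C.NB13

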