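import Pool.Agent.Strip051.PB.DgE
import Pool.Agent.Strip051.G.I3_16_5_16.Fact

/-! # The corner (1, 1, 2): parameters of the degenerate charts (generated) -/

set_option linter.all false

namespace Pool.Agent.Strip051.G.I3_16_5_16.Tab.DG

open Pool.Agent.Strip051.PB Pool.Agent.Strip051.PB.Dg Pool.Agent.StripNear Pool.Agent.Strip051.LC

noncomputable def pFma : Fn1 := ⟨_, _, fun h1 => (enc_norm (enc_add (enc_scale 455081 1600000 (enc_subr 1 4 h1)) (enc_rat _ 441793 8000000)))⟩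
noncomputable def pFmb : Fn1 := ⟨_, _, fun h1 => (enc_norm (enc_subr 12643 16000000 (enc_neg (enc_scale 311231 1600000 (enc_subr 1 4 h1)))))⟩
noncomputable def pFmu : Fn1 := ⟨_, _, fun h1 => (mug3.enc h1)⟩
noncomputable def pFnx : Fn1 := ⟨_, _, fun h1 => (enc_norm (enc_add h1 (enc_pnc _ 3)))⟩
noncomputable def pFc0 : Fn1 := ⟨_, _, fun h1 => (enc_pnc _ 1)⟩
noncomputable def pFkc : Fn1 := ⟨_, _, fun h1 => (enc_norm (enc_subr 110199 500000 (enc_scale 2529 6250 (enc_subr 1 4 h1))))⟩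
noncomputable def pFjc : Fn1 := ⟨_, _, fun h1 => (enc_norm (enc_subr 1466943 8000000 (enc_neg (enc_scale 1733253 400000 (enc_subr 1 4 h1)))))⟩
noncomputable def pFca : Fn1 := ⟨_, _, fun h1 => (enc_norm (enc_add (enc_scale 6999 100000 (enc_subr 1 4 h1)) (enc_rat _ 239039 500000)))⟩
noncomputable def pFcb : Fn1 := ⟨_, _, fun h1 => (enc_norm (enc_subr 694429 1000000 (enc_neg (enc_scale 164417 100000 (enc_subr 1 4 h1)))))⟩
noncomputable def pFcc : Fn1 := ⟨_, _, fun h1 => (enc_norm (enc_subr 370369 500000 (enc_neg (enc_scale 176059 25000 (enc_subr 1 4 h1)))))⟩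
noncomputable def pFsv : Fn1 := ⟨_, _, fun h1 => (enc_norm (enc_subr 28583951 536870912 h1))⟩
noncomputable def pFx11 : Fn1 := ⟨_, _, fun h1 => (cv1m.enc h1)⟩
noncomputable def pFx01 : Fn1 := ⟨_, _, fun h1 => (c1g.enc h1)⟩
noncomputable def pFK11 : Fn2 := ⟨_, _, fun h1 h2 => (kf1q1.enc h1 h2)⟩
noncomputable def pFK01 : Fn2 := ⟨_, _, fun h1 h2 => (kf0q1.enc h1 h2)⟩
noncomputable def pFL11 : Fn2 := ⟨_, _, fun h1 h2 => (l1q1.enc h1 h2)⟩
noncomputable def pFL01 : Fn2 := ⟨_, _, fun h1 h2 => (l0q1.enc h1 h2)⟩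
noncomputable def kFc0 : Fn1 := ⟨_, _, fun h1 => (enc_norm (enc_subr 98093 65520000000 (enc_scale 709213 6552000000 (enc_subr 1 4 h1))))⟩
noncomputable def kFc0g : Fn1 := ⟨_, _, fun h1 => (enc_norm (enc_subr 907019 1000000 (enc_scale 3939723 100000 (enc_subr 1 4 h1))))⟩
noncomputable def kFa0_2 : Fn1 := ⟨_, _, fun h1 => (enc_subr 1 4 h1)⟩
noncomputable def kFa0 : Fn1 := ⟨_, _, fun h1 => (enc_norm (enc_add (enc_mul (enc_norm (enc_subr 747589 65520000 (enc_scale 797 9375 (kFa0_2.enc h1)))) (enc_norm (kFa0_2.enc h1))) (enc_rat _ 7280519 16380000000)))⟩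
noncomputable def kFa0g : Fn1 := ⟨_, _, fun h1 => (enc_norm (enc_subr 113787 250000 (enc_scale 11023 25000 (enc_subr 1 4 h1))))⟩
noncomputable def kFb0 : Fn1 := ⟨_, _, fun h1 => (enc_norm (enc_sub (enc_rat _ 12281 1840000000) (enc_scale 47643 184000000 (enc_subr 1 4 h1))))⟩
noncomputable def kFb0g : Fn1 := ⟨_, _, fun h1 => (enc_norm (enc_add (enc_scale 225127 100000 (enc_subr 1 4 h1)) (enc_rat _ 454659 1000000)))⟩
noncomputable def kFd0_2 : Fn1 := ⟨_, _, fun h1 => (enc_subr 1 4 h1)⟩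
noncomputable def kFd0 : Fn1 := ⟨_, _, fun h1 => (enc_norm (enc_add (enc_mul (enc_norm (enc_subr 898746967 75348000000 (enc_scale 797 9375 (kFd0_2.enc h1)))) (enc_norm (kFd0_2.enc h1))) (enc_rat _ 344962013 753480000000)))⟩
noncomputable def kFd0g : Fn1 := ⟨_, _, fun h1 => (enc_norm (enc_add (enc_scale 247173 50000 (enc_subr 1 4 h1)) (enc_rat _ 45417 100000)))⟩
noncomputable def kFe0_2 : Fn1 := ⟨_, _, fun h1 => (enc_subr 1 4 h1)⟩
noncomputable def kFe0 : Fn1 := ⟨_, _, fun h1 => (enc_norm (enc_add (enc_mul (enc_norm (enc_subr 1758474317 150696000000 (enc_scale 797 9375 (kFe0_2.enc h1)))) (enc_norm (kFe0_2.enc h1))) (enc_rat _ 679865887 1506960000000)))⟩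
noncomputable def kFe0g : Fn1 := ⟨_, _, fun h1 => (enc_norm (enc_subr 489 1000000 (enc_scale 269219 100000 (enc_subr 1 4 h1))))⟩
noncomputable def cFxs1 : Fn1 := ⟨_, _, fun h1 => (enc_norm (enc_add (enc_half (dgxi.enc h1)) (enc_half (dgws.enc h1))))⟩
noncomputable def cFsB1_5 : Fn2 := ⟨_, _, fun h1 h2 => (enc_subr 1 4 h2)⟩
noncomputable def cFsB1 : Fn2 := ⟨_, _, fun h1 h2 => (enc_norm (enc_case (enc_subr 3 100 h1) (enc_subr 107 15000 (enc_neg (enc_scale 863 3000 (cFsB1_5.enc h1 h2)))) (enc_add (enc_add (enc_scale 1519 3000 (cFsB1_5.enc h1 h2)) (enc_rat _ 2603 10000)) (enc_mul (enc_norm (enc_subr 8023 1000000 (enc_neg (enc_scale 1191 50000 (cFsB1_5.enc h1 h2))))) (enc_inv h1)))))⟩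
noncomputable def cFBs1 : Fn2 := ⟨_, _, fun h1 h2 => (cFsB1.enc h1 h2)⟩
noncomputable def cFsX1_5 : Fn2 := ⟨_, _, fun h1 h2 => (enc_subr 1 4 h2)⟩
noncomputable def cFsX1 : Fn2 := ⟨_, _, fun h1 h2 => (enc_norm (enc_case (enc_subr 3 100 h1) (enc_add (enc_scale 79 200 (cFsX1_5.enc h1 h2)) (enc_rat _ 4517 30000)) (enc_add (enc_add (enc_scale 1 250 (cFsX1_5.enc h1 h2)) (enc_rat _ 6211 30000)) (enc_mul (enc_norm (enc_subr 847 500000 (enc_scale 1173 100000 (cFsX1_5.enc h1 h2)))) (enc_inv h1)))))⟩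
noncomputable def cFxs2 : Fn1 := ⟨_, _, fun h1 => (enc_norm (enc_add (enc_scale 1 10 (dgxi.enc h1)) (enc_scale 9 10 (dgws.enc h1))))⟩
noncomputable def cFsB2_5 : Fn2 := ⟨_, _, fun h1 h2 => (enc_subr 1 4 h2)⟩
noncomputable def cFsB2 : Fn2 := ⟨_, _, fun h1 h2 => (enc_norm (enc_case (enc_subr 3 100 h1) (enc_subr 4487 15000 (enc_neg (enc_scale 77 375 (cFsB2_5.enc h1 h2)))) (enc_add (enc_subr 3391 10000 (enc_scale 1 1000 (cFsB2_5.enc h1 h2))) (enc_mul (enc_norm (enc_sub (enc_rat _ 1199 1000000) (enc_scale 619 100000 (cFsB2_5.enc h1 h2)))) (enc_inv h1)))))⟩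
noncomputable def cFBs2 : Fn2 := ⟨_, _, fun h1 h2 => (cFsB2.enc h1 h2)⟩
noncomputable def cFsX2_5 : Fn2 := ⟨_, _, fun h1 h2 => (enc_subr 1 4 h2)⟩
noncomputable def cFsX2 : Fn2 := ⟨_, _, fun h1 h2 => (enc_norm (enc_case (enc_subr 3 100 h1) (enc_add (enc_scale 221 750 (cFsX2_5.enc h1 h2)) (enc_rat _ 863 10000)) (enc_add (enc_add (enc_scale 119 200 (cFsX2_5.enc h1 h2)) (enc_rat _ 41 250)) (enc_mul (enc_norm (enc_subr 2331 1000000 (enc_neg (enc_scale 901 100000 (cFsX2_5.enc h1 h2))))) (enc_inv h1)))))⟩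
noncomputable def nFsc2 : Fn1 := ⟨_, _, fun h1 => (enc_scale 9 10 h1)⟩
noncomputable def nFBv2 : Fn1 := ⟨_, _, fun h1 => (enc_norm (enc_subr 301519 500000 (enc_scale 171727 100000 (enc_subr 1 4 h1))))⟩
noncomputable def nFBm2 : Fn1 := ⟨_, _, fun h1 => (enc_norm (enc_add (enc_scale 9393 50000 (enc_subr 1 4 h1)) (enc_rat _ 14133 500000)))⟩
noncomputable def nFXv2 : Fn1 := ⟨_, _, fun h1 => (enc_norm (enc_add (enc_scale 1719 1000 (enc_subr 1 4 h1)) (enc_rat _ 142253 1000000)))⟩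
noncomputable def nFXm2 : Fn1 := ⟨_, _, fun h1 => (enc_norm (enc_add (enc_scale 7397 50000 (enc_subr 1 4 h1)) (enc_rat _ 3301 500000)))⟩
noncomputable def nFsc3 : Fn1 := ⟨_, _, fun h1 => (enc_norm (enc_add (enc_scale 4 5 h1) (enc_rat _ 1 5)))⟩
noncomputable def nFBv3 : Fn1 := ⟨_, _, fun h1 => (enc_rat _ 1 2)⟩
noncomputable def nFBm3 : Fn1 := ⟨_, _, fun h1 => (enc_norm (enc_add (enc_scale 84887 50000 (enc_subr 1 4 h1)) (enc_rat _ 84153 250000)))⟩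
noncomputable def nFXv3 : Fn1 := ⟨_, _, fun h1 => (enc_norm (enc_subr 8583 320000 (enc_scale 167381 3200000 (enc_subr 1 4 h1))))⟩
noncomputable def nFXm3 : Fn1 := ⟨_, _, fun h1 => (enc_norm (enc_subr 222067 800000 (enc_neg (enc_scale 228939 1600000 (enc_subr 1 4 h1)))))⟩
noncomputable def nFsc4 : Fn1 := ⟨_, _, fun h1 => (enc_norm (enc_add (enc_scale 2 5 h1) (enc_rat _ 3 5)))⟩
noncomputable def nFBv4 : Fn1 := ⟨_, _, fun h1 => (enc_rat _ 1 2)⟩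
noncomputable def nFBm4 : Fn1 := ⟨_, _, fun h1 => (enc_norm (enc_add (enc_scale 289187 25000 (enc_subr 1 4 h1)) (enc_rat _ 638417 500000)))⟩
noncomputable def nFXv4 : Fn1 := ⟨_, _, fun h1 => (enc_norm (enc_subr 8583 320000 (enc_scale 167381 3200000 (enc_subr 1 4 h1))))⟩
noncomputable def nFXm4 : Fn1 := ⟨_, _, fun h1 => (enc_norm (enc_subr 859639 4000000 (enc_neg (enc_scale 13603 64000 (enc_subr 1 4 h1)))))⟩
noncomputable def l12F : List Knk := [⟨1, 16, kFc0, kFc0g⟩]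
noncomputable def laF : List Knk := [⟨1, 16, kFa0, kFa0g⟩]
noncomputable def lbF : List Knk := [⟨1, 16, kFb0, kFb0g⟩]
noncomputable def l1F : List Knk := [⟨1, 16, kFe0, kFe0g⟩]
noncomputable def l2F : List Knk := [⟨1, 16, kFd0, kFd0g⟩]
noncomputable def cvF1 : CvP := ⟨cFxs1, cFBs1, cFsX1⟩
noncomputable def cvF2 : CvP := ⟨cFxs2, cFBs2, cFsX2⟩
noncomputable def ndFP2 : NdP := ⟨nFsc2, nFBv2, nFBm2, nFXv2, nFXm2⟩
noncomputable def ndFP3 : NdP := ⟨nFsc3, nFBv3, nFBm3, nFXv3, nFXm3⟩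
noncomputable def ndFP4 : NdP := ⟨nFsc4, nFBv4, nFBm4, nFXv4, nFXm4⟩
noncomputable def pF : Pm := ⟨pFma, pFmb, pFmu, pFnx, pFc0, pFkc, pFjc, pFkc, pFjc, pFkc, pFjc, pFca, pFcb, pFcc, pFcc, pFcc, pFsv, l12F, l12F, l12F, laF, lbF, l1F, l2F, cvF1, pFx11, pFx01, pFK11, pFK01, pFL11, pFL01⟩
noncomputable def pNc0 : Fn1 := ⟨_, _, fun h1 => (enc_norm (enc_add (enc_pnc _ 1) (enc_mul (mug3.enc h1) (gug.enc h1))))⟩
noncomputable def pNk12_3 : Fn1 := ⟨_, _, fun h1 => (enc_subr 1 4 h1)⟩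
noncomputable def pNk12 : Fn1 := ⟨_, _, fun h1 => (enc_norm (enc_add (enc_mul (pNc0.enc h1) (enc_norm (enc_subr 110199 500000 (enc_scale 2529 6250 (pNk12_3.enc h1))))) (enc_mul (pFmu.enc h1) (enc_norm (enc_subr 229147 250000 (enc_neg (enc_scale 64767 50000 (pNk12_3.enc h1))))))))⟩
noncomputable def pNj12_3 : Fn1 := ⟨_, _, fun h1 => (enc_subr 1 4 h1)⟩
noncomputable def pNj12 : Fn1 := ⟨_, _, fun h1 => (enc_norm (enc_add (enc_mul (pNc0.enc h1) (enc_norm (enc_subr 1466943 8000000 (enc_neg (enc_scale 1733253 400000 (pNj12_3.enc h1)))))) (enc_mul (pFmu.enc h1) (enc_norm (enc_add (enc_scale 2434283200037 1705000000000 (pNj12_3.enc h1)) (enc_rat _ 4818182092971 1705000000000))))))⟩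
noncomputable def pNk23_3 : Fn1 := ⟨_, _, fun h1 => (enc_subr 1 4 h1)⟩
noncomputable def pNk23 : Fn1 := ⟨_, _, fun h1 => (enc_norm (enc_add (enc_mul (pNc0.enc h1) (enc_norm (enc_subr 110199 500000 (enc_scale 2529 6250 (pNk23_3.enc h1))))) (enc_mul (pFmu.enc h1) (enc_norm (enc_subr 229147 250000 (enc_neg (enc_scale 64767 50000 (pNk23_3.enc h1))))))))⟩
noncomputable def pNj23_3 : Fn1 := ⟨_, _, fun h1 => (enc_subr 1 4 h1)⟩
noncomputable def pNj23 : Fn1 := ⟨_, _, fun h1 => (enc_norm (enc_add (enc_mul (pNc0.enc h1) (enc_norm (enc_subr 1466943 8000000 (enc_neg (enc_scale 1733253 400000 (pNj23_3.enc h1)))))) (enc_mul (pFmu.enc h1) (enc_norm (enc_add (enc_scale 12859 4000 (pNj23_3.enc h1)) (enc_rat _ 185439 100000))))))⟩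
noncomputable def pNk13_3 : Fn1 := ⟨_, _, fun h1 => (enc_subr 1 4 h1)⟩
noncomputable def pNk13 : Fn1 := ⟨_, _, fun h1 => (enc_norm (enc_add (enc_mul (pNc0.enc h1) (enc_norm (enc_subr 110199 500000 (enc_scale 2529 6250 (pNk13_3.enc h1))))) (enc_mul (pFmu.enc h1) (enc_norm (enc_subr 1548891 1000000 (enc_neg (enc_scale 284479 100000 (pNk13_3.enc h1))))))))⟩
noncomputable def pNj13_3 : Fn1 := ⟨_, _, fun h1 => (enc_subr 1 4 h1)⟩
noncomputable def pNj13 : Fn1 := ⟨_, _, fun h1 => (enc_norm (enc_add (enc_mul (pNc0.enc h1) (enc_norm (enc_subr 1466943 8000000 (enc_neg (enc_scale 1733253 400000 (pNj13_3.enc h1)))))) (enc_mul (pFmu.enc h1) (enc_norm (enc_add (enc_scale 414013 100000 (pNj13_3.enc h1)) (enc_rat _ 2465479 1000000))))))⟩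
noncomputable def pNc12 : Fn1 := ⟨_, _, fun h1 => (enc_norm (enc_mul (pNc0.enc h1) (enc_norm (enc_subr 370369 500000 (enc_neg (enc_scale 176059 25000 (enc_subr 1 4 h1)))))))⟩
noncomputable def pNc23 : Fn1 := ⟨_, _, fun h1 => (enc_norm (enc_mul (pNc0.enc h1) (enc_norm (enc_subr 370369 500000 (enc_neg (enc_scale 176059 25000 (enc_subr 1 4 h1)))))))⟩
noncomputable def pNc13 : Fn1 := ⟨_, _, fun h1 => (enc_norm (enc_mul (pNc0.enc h1) (enc_norm (enc_subr 370369 500000 (enc_neg (enc_scale 176059 25000 (enc_subr 1 4 h1)))))))⟩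
noncomputable def pNK11 : Fn2 := ⟨_, _, fun h1 h2 => (kn1q1.enc h1 h2)⟩
noncomputable def pNK01 : Fn2 := ⟨_, _, fun h1 h2 => (kn0q1.enc h1 h2)⟩
noncomputable def kNc12_0 : Fn1 := ⟨_, _, fun h1 => (enc_norm (enc_mul (pNc0.enc h1) (enc_norm (enc_subr 98093 65520000000 (enc_scale 709213 6552000000 (enc_subr 1 4 h1))))))⟩
noncomputable def kNc12_0g : Fn1 := ⟨_, _, fun h1 => (enc_norm (enc_mul (pNc0.enc h1) (enc_norm (enc_subr 907019 1000000 (enc_scale 3939723 100000 (enc_subr 1 4 h1))))))⟩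
noncomputable def kNc23_0 : Fn1 := ⟨_, _, fun h1 => (enc_norm (enc_mul (pNc0.enc h1) (enc_norm (enc_subr 98093 65520000000 (enc_scale 709213 6552000000 (enc_subr 1 4 h1))))))⟩
noncomputable def kNc23_0g : Fn1 := ⟨_, _, fun h1 => (enc_norm (enc_mul (pNc0.enc h1) (enc_norm (enc_subr 907019 1000000 (enc_scale 3939723 100000 (enc_subr 1 4 h1))))))⟩
noncomputable def kNc13_0 : Fn1 := ⟨_, _, fun h1 => (enc_norm (enc_mul (pNc0.enc h1) (enc_norm (enc_subr 98093 65520000000 (enc_scale 709213 6552000000 (enc_subr 1 4 h1))))))⟩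
noncomputable def kNc13_0g : Fn1 := ⟨_, _, fun h1 => (enc_norm (enc_mul (pNc0.enc h1) (enc_norm (enc_subr 907019 1000000 (enc_scale 3939723 100000 (enc_subr 1 4 h1))))))⟩
noncomputable def cNsD1_5 : Fn2 := ⟨_, _, fun h1 h2 => (enc_subr 1 4 h2)⟩
noncomputable def cNsD1 : Fn2 := ⟨_, _, fun h1 h2 => (enc_norm (enc_case (enc_subr 3 100 h1) (enc_sub (enc_rat _ 46807 30000) (enc_scale 12379 3000 (cNsD1_5.enc h1 h2))) (enc_add (enc_sub (enc_rat _ 9853 6000) (enc_scale 2387 1000 (cNsD1_5.enc h1 h2))) (enc_mul (enc_norm (enc_subr 1229 500000 (enc_neg (enc_scale 2609 50000 (cNsD1_5.enc h1 h2))))) (enc_inv h1)))))⟩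
noncomputable def cNBs1 : Fn2 := ⟨_, _, fun h1 h2 => (enc_norm (enc_add (enc_mul (pNc0.enc h2) (cFsB1.enc h1 h2)) (enc_mul (pFmu.enc h2) (cNsD1.enc h1 h2))))⟩
noncomputable def cNsD2_5 : Fn2 := ⟨_, _, fun h1 h2 => (enc_subr 1 4 h2)⟩
noncomputable def cNsD2 : Fn2 := ⟨_, _, fun h1 h2 => (enc_norm (enc_case (enc_subr 3 100 h1) (enc_sub (enc_rat _ 21449 30000) (enc_scale 173 300 (cNsD2_5.enc h1 h2))) (enc_add (enc_sub (enc_rat _ 7177 10000) (enc_scale 623 1500 (cNsD2_5.enc h1 h2))) (enc_mul (enc_norm (enc_subr 41 500000 (enc_neg (enc_scale 121 25000 (cNsD2_5.enc h1 h2))))) (enc_inv h1)))))⟩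
noncomputable def cNBs2 : Fn2 := ⟨_, _, fun h1 h2 => (enc_norm (enc_add (enc_mul (pNc0.enc h2) (cFsB2.enc h1 h2)) (enc_mul (pFmu.enc h2) (cNsD2.enc h1 h2))))⟩
noncomputable def nNBv2_3 : Fn1 := ⟨_, _, fun h1 => (enc_subr 1 4 h1)⟩
noncomputable def nNBv2 : Fn1 := ⟨_, _, fun h1 => (enc_norm (enc_add (enc_mul (pNc0.enc h1) (enc_norm (enc_subr 301519 500000 (enc_scale 171727 100000 (nNBv2_3.enc h1))))) (enc_mul (pFmu.enc h1) (enc_norm (enc_add (enc_scale 187387 100000 (nNBv2_3.enc h1)) (enc_rat _ 6573 250000))))))⟩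
noncomputable def nNBm2_3 : Fn1 := ⟨_, _, fun h1 => (enc_subr 1 4 h1)⟩
noncomputable def nNBm2 : Fn1 := ⟨_, _, fun h1 => (enc_norm (enc_add (enc_mul (pNc0.enc h1) (enc_norm (enc_add (enc_scale 9393 50000 (nNBm2_3.enc h1)) (enc_rat _ 14133 500000)))) (enc_mul (pFmu.enc h1) (enc_norm (enc_add (enc_scale 2967 50000 (nNBm2_3.enc h1)) (enc_rat _ 5933 500000))))))⟩
noncomputable def nNBv3 : Fn1 := ⟨_, _, fun h1 => (enc_half (pNc0.enc h1))⟩
noncomputable def nNBm3_3 : Fn1 := ⟨_, _, fun h1 => (enc_subr 1 4 h1)⟩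
noncomputable def nNBm3 : Fn1 := ⟨_, _, fun h1 => (enc_norm (enc_add (enc_mul (pNc0.enc h1) (enc_norm (enc_add (enc_scale 84887 50000 (nNBm3_3.enc h1)) (enc_rat _ 84153 250000)))) (enc_mul (pFmu.enc h1) (enc_norm (enc_add (enc_scale 1733 6250 (nNBm3_3.enc h1)) (enc_rat _ 8789 125000))))))⟩
noncomputable def nNBv4 : Fn1 := ⟨_, _, fun h1 => (enc_half (pNc0.enc h1))⟩
noncomputable def nNBm4_3 : Fn1 := ⟨_, _, fun h1 => (enc_subr 1 4 h1)⟩
noncomputable def nNBm4 : Fn1 := ⟨_, _, fun h1 => (enc_norm (enc_add (enc_mul (pNc0.enc h1) (enc_norm (enc_add (enc_scale 289187 25000 (nNBm4_3.enc h1)) (enc_rat _ 638417 500000)))) (enc_mul (pFmu.enc h1) (enc_norm (enc_add (enc_scale 21549 50000 (nNBm4_3.enc h1)) (enc_rat _ 64333 250000))))))⟩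
noncomputable def l12N : List Knk := [⟨1, 16, kNc12_0, kNc12_0g⟩]
noncomputable def l23N : List Knk := [⟨1, 16, kNc23_0, kNc23_0g⟩]
noncomputable def l13N : List Knk := [⟨1, 16, kNc13_0, kNc13_0g⟩]
noncomputable def cvN1 : CvP := ⟨cFxs1, cNBs1, cFsX1⟩
noncomputable def cvN2 : CvP := ⟨cFxs2, cNBs2, cFsX2⟩
noncomputable def ndNP2 : NdP := ⟨nFsc2, nNBv2, nNBm2, nFXv2, nFXm2⟩
noncomputable def ndNP3 : NdP := ⟨nFsc3, nNBv3, nNBm3, nFXv3, nFXm3⟩
noncomputable def ndNP4 : NdP := ⟨nFsc4, nNBv4, nNBm4, nFXv4, nFXm4⟩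
noncomputable def pN : Pm := ⟨pFma, pFmb, pFmu, pFnx, pNc0, pNk12, pNj12, pNk23, pNj23, pNk13, pNj13, pFca, pFcb, pNc12, pNc23, pNc13, pFsv, l12N, l23N, l13N, laF, lbF, l1F, l2F, cvN1, pFx11, pFx01, pNK11, pNK01, pFL11, pFL01⟩

end Pool.Agent.Strip051.G.I3_16_5_16.Tab.DG
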