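import Pool.Agent.Strip051.G.I3_16_5_16.DgP

/-! # The corner (1, 1, 2): facts for the degenerate charts (generated) -/

set_option linter.all false

namespace Pool.Agent.Strip051.G.I3_16_5_16.Tab.DG

open Pool.Agent.Strip051.PB Pool.Agent.Strip051.PB.Dg Pool.Agent.StripNear Pool.Agent.Strip051.LC

theorem kcN {h x : ℝ} (r0 : 0 ≤ h) (r1 : h ≤ (17 / 182)) :
    kcg.v (h - 1 / 2) x = -(((-(110199 / 500000)) + (2529 / 6250) * (x - (1 / 4))) + ((-(1466943 / 8000000)) + (-(1733253 / 400000)) * (x - (1 / 4))) * h + (((-(370369 / 500000)) + (-(176059 / 25000)) * (x - (1 / 4))) * h ^ 2 + (mx 1 16 h * (((-(98093 / 65520000000)) + (709213 / 6552000000) * (x - (1 / 4))) + mx 1 16 h * ((-(907019 / 1000000)) + (3939723 / 100000) * (x - (1 / 4))))))) := by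
  simp only [kcg_3, kcg_6, kcg_9, kcg_12, kcg_13, kcg_16, kcg_27, kcg_35, kcg_38, kcg_47, kcg_55, kcg_56, kcg_59, kcg_67, kcg_74, kcg_75, kcg_79, kcg_87, kcg_92, kcg_96, kcg_106, kcg_116, kcg_119, kcg_120, kcg_124, kcg_135, kcg_140, kcg_145, kcg_155, kcg_163, kcg_164, kcg_169, kcg_178, kcg_186, kcg_191, kcg_201, kcg_206, kcg_211, kcg_219, kcg_220, kcg_221, kcg_244, kcg_255, kcg_276, kcg_277, kcg_296, kcg]
  rcases le_or_gt h ((1 / 16)) with c0 | c0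
  · rw [mx_lo (a := 1) (b := 16) (h := h) (by push_cast; linarith)]
    ((try push_cast); (repeat first | rw [if_pos (by linarith)] | rw [if_neg (by linarith)] | erw [if_pos (by linarith)] | erw [if_neg (by linarith)]))
    ring1
  · rw [mx_hi (a := 1) (b := 16) (h := h) (by push_cast; linarith)]
    ((try push_cast); (repeat first | rw [if_pos (by linarith)] | rw [if_neg (by linarith)] | erw [if_pos (by linarith)] | erw [if_neg (by linarith)]))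
    ring1
theorem kcP {h x : ℝ} (r0 : 0 ≤ h) (r1 : h ≤ (17 / 182)) :
    kcg.v (1 / 2 - h) x = ((-(110199 / 500000)) + (2529 / 6250) * (x - (1 / 4))) + ((-(1466943 / 8000000)) + (-(1733253 / 400000)) * (x - (1 / 4))) * h + (((-(370369 / 500000)) + (-(176059 / 25000)) * (x - (1 / 4))) * h ^ 2 + (mx 1 16 h * (((-(98093 / 65520000000)) + (709213 / 6552000000) * (x - (1 / 4))) + mx 1 16 h * ((-(907019 / 1000000)) + (3939723 / 100000) * (x - (1 / 4)))))) := by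
  simp only [kcg_3, kcg_6, kcg_9, kcg_12, kcg_13, kcg_16, kcg_27, kcg_35, kcg_38, kcg_47, kcg_55, kcg_56, kcg_59, kcg_67, kcg_74, kcg_75, kcg_79, kcg_87, kcg_92, kcg_96, kcg_106, kcg_116, kcg_119, kcg_120, kcg_124, kcg_135, kcg_140, kcg_145, kcg_155, kcg_163, kcg_164, kcg_169, kcg_178, kcg_186, kcg_191, kcg_201, kcg_206, kcg_211, kcg_219, kcg_220, kcg_221, kcg_244, kcg_255, kcg_276, kcg_277, kcg_296, kcg]
  rcases le_or_gt h ((1 / 16)) with c0 | c0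
  · rw [mx_lo (a := 1) (b := 16) (h := h) (by push_cast; linarith)]
    ((try push_cast); (repeat first | rw [if_pos (by linarith)] | rw [if_neg (by linarith)] | erw [if_pos (by linarith)] | erw [if_neg (by linarith)]))
    ring1
  · rw [mx_hi (a := 1) (b := 16) (h := h) (by push_cast; linarith)]
    ((try push_cast); (repeat first | rw [if_pos (by linarith)] | rw [if_neg (by linarith)] | erw [if_pos (by linarith)] | erw [if_neg (by linarith)]))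
    ring1
theorem taG {p c h x : ℝ} (hp : p = h - 1 / 2) (r0 : 0 ≤ h) (r1 : h ≤ (17 / 182)) :
    txg.v p c x = ((0)) + ((441793 / 8000000) + (455081 / 1600000) * (x - (1 / 4))) * h + (((239039 / 500000) + (6999 / 100000) * (x - (1 / 4))) * h ^ 2 + (mx 1 16 h * (((7280519 / 16380000000) + (-(747589 / 65520000)) * (x - (1 / 4)) + (797 / 9375) * (x - (1 / 4)) ^ 2) + mx 1 16 h * ((-(113787 / 250000)) + (11023 / 25000) * (x - (1 / 4)))))) := by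
  rw [hp]
  simp only [txg_4, txg_6, txg_27, txg_61, txg_78, txg_80, txg_83, txg_86, txg_134, txg_153, txg_196, txg_198, txg_219, txg_259, txg_279, txg]
  rcases le_or_gt h ((1 / 16)) with c0 | c0
  · rw [mx_lo (a := 1) (b := 16) (h := h) (by push_cast; linarith)]
    ((try push_cast); (repeat first | rw [if_pos (by linarith)] | rw [if_neg (by linarith)] | erw [if_pos (by linarith)] | erw [if_neg (by linarith)]))
    ring1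
  · rw [mx_hi (a := 1) (b := 16) (h := h) (by push_cast; linarith)]
    ((try push_cast); (repeat first | rw [if_pos (by linarith)] | rw [if_neg (by linarith)] | erw [if_pos (by linarith)] | erw [if_neg (by linarith)]))
    ring1
theorem tbG {p c h x : ℝ} (hp : p = 1 / 2 - h) (r0 : 0 ≤ h) (r1 : h ≤ (17 / 182)) :
    txg.v p c x = -(((0)) + ((-(12643 / 16000000)) + (-(311231 / 1600000)) * (x - (1 / 4))) * h + (((-(694429 / 1000000)) + (-(164417 / 100000)) * (x - (1 / 4))) * h ^ 2 + (mx 1 16 h * (((12281 / 1840000000) + (-(47643 / 184000000)) * (x - (1 / 4))) + mx 1 16 h * ((454659 / 1000000) + (225127 / 100000) * (x - (1 / 4))))))) := by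
  rw [hp]
  simp only [txg_4, txg_6, txg_27, txg_61, txg_78, txg_80, txg_83, txg_86, txg_134, txg_153, txg_196, txg_198, txg_219, txg_259, txg_279, txg]
  rcases lt_or_ge h ((1 / 16)) with c0 | c0
  · rw [mx_lo (a := 1) (b := 16) (h := h) (by push_cast; linarith)]
    ((try push_cast); (repeat first | rw [if_pos (by linarith)] | rw [if_neg (by linarith)] | erw [if_pos (by linarith)] | erw [if_neg (by linarith)]))
    ring1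
  · rw [mx_hi (a := 1) (b := 16) (h := h) (by push_cast; linarith)]
    ((try push_cast); (repeat first | rw [if_pos (by linarith)] | rw [if_neg (by linarith)] | erw [if_pos (by linarith)] | erw [if_neg (by linarith)]))
    ring1
theorem kp0q1_g {y h x : ℝ} (hh : c1n y = 2 * h - 1 + 3 / 2 * y) (r0 : 0 ≤ h) (r1 : h ≤ (17 / 182)) :
    kp0q1.v y x = -((1 - y) * (((-(229147 / 250000)) + (-(64767 / 50000)) * (x - (1 / 4))) + ((4818182092971 / 1705000000000) + (2434283200037 / 1705000000000) * (x - (1 / 4))) * h + (((0)) * h ^ 2 + (0)))) := by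
  simp only [kp0q1_9, kp0q1, c1g_v, hh]
  ((try push_cast); (repeat first | rw [if_pos (by linarith)] | rw [if_neg (by linarith)] | erw [if_pos (by linarith)] | erw [if_neg (by linarith)]))
  ring1
theorem kpc02_g {h x : ℝ} (r0 : 0 ≤ h) (r1 : h ≤ (17 / 182)) :
    kpc02.v (1 / 2 - h) x = -((yag.v (1 / 2 - h) - 1) * (((-(229147 / 250000)) + (-(64767 / 50000)) * (x - (1 / 4))) + ((185439 / 100000) + (12859 / 4000) * (x - (1 / 4))) * h + (((0)) * h ^ 2 + (0)))) := by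
  simp only [kpc02_4, kpc02]
  ((try push_cast); (repeat first | rw [if_pos (by linarith)] | rw [if_neg (by linarith)] | erw [if_pos (by linarith)] | erw [if_neg (by linarith)]))
  ring1
theorem kpc53_g {Y t h x : ℝ} (hY : ycg.v t = Y) (hh : h = t / 2 + (2 - Y) / 4) (r0 : 0 ≤ h) (r1 : h ≤ (17 / 182)) :
    kpc53.v t x = -((2 - Y) * (((-(1548891 / 1000000)) + (-(284479 / 100000)) * (x - (1 / 4))) + ((2465479 / 1000000) + (414013 / 100000) * (x - (1 / 4))) * h + (((0)) * h ^ 2 + (0)))) := by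
  simp only [kpc53_9, kpc53, hY]
  rw [show t = 2 * h - (2 - Y) / 2 by linarith]
  ((try push_cast); (repeat first | rw [if_pos (by linarith)] | rw [if_neg (by linarith)] | erw [if_pos (by linarith)] | erw [if_neg (by linarith)]))
  ring1
theorem kf0q1_g {y h x : ℝ} (hh : h = 1 / 2 - (3 / 4 * y - c1n y / 2)) :
    kf0q1.v y x = (1 / 2 + c1n y) * (1 / 2 - h) / (1 - h) + (y - 1) * kcg.v (1 / 2 - h) x := by
  have ea : 3 / 4 * y - c1n y / 2 = 1 / 2 - h := by linarith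
  have eb : c1n y = 2 * h - 1 + 3 / 2 * y := by linarith
  simp only [kf0q1_10, kf0q1, c1g_v]
  push_cast
  rw [ea, eb]
  have e2 : (2 * (1 + 3 / 2 * y - (2 * h - 1 + 3 / 2 * y)))⁻¹ = (1 - h)⁻¹ / 4 := by
    rw [show 2 * (1 + 3 / 2 * y - (2 * h - 1 + 3 / 2 * y)) = (1 - h) * 4 by ring, mul_inv]
    ring
  rw [e2]
  ring
theorem l0q1_g {y h x : ℝ} (hh : h = 1 / 2 - (3 / 4 * y - c1n y / 2)) (r0 : 0 ≤ h) (r1 : h ≤ (17 / 182)) :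
    l0q1.v y x = -(((0)) + ((-(12643 / 16000000)) + (-(311231 / 1600000)) * (x - (1 / 4))) * h + (((-(694429 / 1000000)) + (-(164417 / 100000)) * (x - (1 / 4))) * h ^ 2 + (mx 1 16 h * (((12281 / 1840000000) + (-(47643 / 184000000)) * (x - (1 / 4))) + mx 1 16 h * ((454659 / 1000000) + (225127 / 100000) * (x - (1 / 4))))))) := by
  have e1 : ∀ c, txg.v (3 / 4 * y - c1n y / 2) c x = -(((0)) + ((-(12643 / 16000000)) + (-(311231 / 1600000)) * (x - (1 / 4))) * h + (((-(694429 / 1000000)) + (-(164417 / 100000)) * (x - (1 / 4))) * h ^ 2 + (mx 1 16 h * (((12281 / 1840000000) + (-(47643 / 184000000)) * (x - (1 / 4))) + mx 1 16 h * ((454659 / 1000000) + (225127 / 100000) * (x - (1 / 4))))))) := fun c => tbG (by linarith) r0 r1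
  simp only [l0q1, c1g_v]
  push_cast
  rw [e1]
theorem kfc02_g {h x : ℝ} : kfc02.v (1 / 2 - h) x = 1 / 2 - h + (yag.v (1 / 2 - h) - 1) * kcg.v (h - 1 / 2) x := by
  have ea : -(1 / 2 - h) = h - 1 / 2 := by ring
  simp only [kfc02]
  push_cast
  rw [ea]
theorem lc02_g {h x : ℝ} (r0 : 0 ≤ h) (r1 : h ≤ (17 / 182)) : lc02.v (1 / 2 - h) x = (((0)) + ((441793 / 8000000) + (455081 / 1600000) * (x - (1 / 4))) * h + (((239039 / 500000) + (6999 / 100000) * (x - (1 / 4))) * h ^ 2 + (mx 1 16 h * (((7280519 / 16380000000) + (-(747589 / 65520000)) * (x - (1 / 4)) + (797 / 9375) * (x - (1 / 4)) ^ 2) + mx 1 16 h * ((-(113787 / 250000)) + (11023 / 25000) * (x - (1 / 4))))))) + (((0)) + ((-(12643 / 16000000)) + (-(311231 / 1600000)) * (x - (1 / 4))) * h + (((-(694429 / 1000000)) + (-(164417 / 100000)) * (x - (1 / 4))) * h ^ 2 + (mx 1 16 h * (((12281 / 1840000000)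 + (-(47643 / 184000000)) * (x - (1 / 4))) + mx 1 16 h * ((454659 / 1000000) + (225127 / 100000) * (x - (1 / 4))))))) := by
  have e1 : ∀ c, txg.v (-(1 / 2 - h)) c x = ((0)) + ((441793 / 8000000) + (455081 / 1600000) * (x - (1 / 4))) * h + (((239039 / 500000) + (6999 / 100000) * (x - (1 / 4))) * h ^ 2 + (mx 1 16 h * (((7280519 / 16380000000) + (-(747589 / 65520000)) * (x - (1 / 4)) + (797 / 9375) * (x - (1 / 4)) ^ 2) + mx 1 16 h * ((-(113787 / 250000)) + (11023 / 25000) * (x - (1 / 4)))))) := fun c => taG (by ring) r0 r1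
  have e2 : ∀ c, txg.v (1 / 2 - h) c x = -(((0)) + ((-(12643 / 16000000)) + (-(311231 / 1600000)) * (x - (1 / 4))) * h + (((-(694429 / 1000000)) + (-(164417 / 100000)) * (x - (1 / 4))) * h ^ 2 + (mx 1 16 h * (((12281 / 1840000000) + (-(47643 / 184000000)) * (x - (1 / 4))) + mx 1 16 h * ((454659 / 1000000) + (225127 / 100000) * (x - (1 / 4))))))) := fun c => tbG rfl r0 r1
  simp only [lc02_7, lc02_8, lc02]
  push_cast
  rw [e1, e2]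
  ring
theorem kfc53_g {Y t h x : ℝ} (hY : ycg.v t = Y) (hh : h = t / 2 + (2 - Y) / 4) :
    kfc53.v t x = (Y - 2 * t) * (t + 3 - 3 / 2 * Y) / (4 * (Y - 1)) + (Y - 2) * kcg.v (1 / 2 - h) x := by
  have ea : 1 / 4 * Y - t / 2 = 1 / 2 - h := by linarith
  simp only [kfc53, hY]
  push_cast
  rw [ea]
  ring
theorem lc53_g {Y t h x : ℝ} (hY : ycg.v t = Y) (hh : h = t / 2 + (2 - Y) / 4) (r0 : 0 ≤ h) (r1 : h ≤ (17 / 182)) :
    lc53.v t x = -(2 * (((0)) + ((-(12643 / 16000000)) + (-(311231 / 1600000)) * (x - (1 / 4))) * h + (((-(694429 / 1000000)) + (-(164417 / 100000)) * (x - (1 / 4))) * h ^ 2 + (mx 1 16 h * (((12281 / 1840000000) + (-(47643 / 184000000)) * (x - (1 / 4))) + mx 1 16 h * ((454659 / 1000000) + (225127 / 100000) * (x - (1 / 4))))))) + (((0)) + ((441793 / 8000000) + (455081 / 1600000) * (x - (1 / 4))) * h + (((239039 / 500000) + (6999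 / 100000) * (x - (1 / 4))) * h ^ 2 + (mx 1 16 h * (((7280519 / 16380000000) + (-(747589 / 65520000)) * (x - (1 / 4)) + (797 / 9375) * (x - (1 / 4)) ^ 2) + mx 1 16 h * ((-(113787 / 250000)) + (11023 / 25000) * (x - (1 / 4)))))))) := by
  have e1 : ∀ c, txg.v (1 / 4 * Y - t / 2) c x = -(((0)) + ((-(12643 / 16000000)) + (-(311231 / 1600000)) * (x - (1 / 4))) * h + (((-(694429 / 1000000)) + (-(164417 / 100000)) * (x - (1 / 4))) * h ^ 2 + (mx 1 16 h * (((12281 / 1840000000) + (-(47643 / 184000000)) * (x - (1 / 4))) + mx 1 16 h * ((454659 / 1000000) + (225127 / 100000) * (x - (1 / 4))))))) := fun c => tbG (by linarith) r0 r1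
  have e2 : ∀ c, txg.v (t / 2 - 1 / 4 * Y) c x = ((0)) + ((441793 / 8000000) + (455081 / 1600000) * (x - (1 / 4))) * h + (((239039 / 500000) + (6999 / 100000) * (x - (1 / 4))) * h ^ 2 + (mx 1 16 h * (((7280519 / 16380000000) + (-(747589 / 65520000)) * (x - (1 / 4)) + (797 / 9375) * (x - (1 / 4)) ^ 2) + mx 1 16 h * ((-(113787 / 250000)) + (11023 / 25000) * (x - (1 / 4)))))) := fun c => taG (by linarith) r0 r1
  simp only [lc53_7, lc53_8, lc53_9, lc53_12, lc53_14, lc53, hY]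
  push_cast
  rw [e1, e2]
  ring
theorem hD : ((57167902 : ℕ) : ℝ) / S ≤ 1 / 16 := by
  rw [S_one]
  norm_num
theorem hD3 : ((11758673 : ℕ) : ℝ) / S ≤ 1 / 64 := by
  rw [S_one]
  norm_num
theorem hDH : 7 / 4 * (((57167902 : ℕ) : ℝ) / S) ≤ (17 / 182) := by
  rw [S_one]
  norm_num
theorem hD3H : ((11758673 : ℕ) : ℝ) / S * (3 / 4 + (17 / 182) / 2) ≤ (17 / 182) ^ 2 := by
  rw [S_one]
  norm_num
theorem r16 {y : ℝ} (h : |y - 1| < ((57167902 : ℕ) : ℝ) / S) : y ≤ 17 / 16 := by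
  have := (abs_lt.1 h).2
  linarith [hD]
theorem xr {x : ℝ} (hx : ((201326592 : ℕ) : ℝ) / S ≤ x) (hx' : x ≤ (((201326592 : ℕ) : ℝ) + (134217728 : ℕ)) / S) : 0 < x ∧ x < 1 := by
  rw [S_one] at hx hx'
  norm_num at hx hx'
  constructor <;> linarith
theorem tabF {x : ℝ} : TabOk tKF tL pF 57167902 x := by
  refine ⟨?_, ?_, ?_, ?_⟩
  · intro y h hq hd hh
    obtain ⟨r0, r1⟩ := h1_rng hq hd hD hDH hh
    have o : OnC (0 : Fin 6) 1 y := ⟨hq, fun _ => on_h (by linarith [hq.2]) (by linarith [hq.1])⟩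
    have hc : c1n y = 2 * h - 1 + 3 / 2 * y := by linarith
    rw [← (atF01 o).K]
    show kf0q1.v y x = _
    rw [kf0q1_g hh, kcP r0 r1]
    simp only [pFma, pFmb, pFmu, pFnx, pFc0, pFkc, pFjc, pFca, pFcb, pFcc, pFsv, pFx11, pFx01, pFK11, pFK01, pFL11, pFL01, kFc0, kFc0g, kFa0_2, kFa0, kFa0g, kFb0, kFb0g, kFd0_2, kFd0, kFd0g, kFe0_2, kFe0, kFe0g, cFxs1, cFsB1_5, cFsB1, cFBs1, cFsX1_5, cFsX1, cFxs2, cFsB2_5, cFsB2, cFBs2, cFsX2_5, cFsX2, nFsc2, nFBv2, nFBm2, nFXv2, nFXm2, nFsc3, nFBv3, nFBm3, nFXv3, nFXm3, nFsc4, nFBv4, nFBm4, nFXv4, nFXm4, l12F, laF, lbF, l1F, l2F, cvF1, cvF2, ndFP2, ndFP3, ndFP4, pF, pNc0, pNk12_3, pNk12, pNj12_3, pNj12, pNk23_3, pNk23, pNj23_3, pNj23, pNk13_3, pNk13, pNj13_3, pNj13, pNc12, pNc23, pNc13, pNK11, pNK01, kNc12_0, kNc12_0g, kNc23_0, kNc23_0g, kNc13_0, kNc13_0g, cNsD1_5, cNsD1, cNBs1, cNsD2_5, cNsD2, cNBs2,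 nNBv2_3, nNBv2, nNBm2_3, nNBm2, nNBv3, nNBm3_3, nNBm3, nNBv4, nNBm4_3, nNBm4, l12N, l23N, l13N, cvN1, cvN2, ndNP2, ndNP3, ndNP4, pN, pf_cons, pf_nil]
    push_cast
    ring
  · intro y h hq hd hh
    obtain ⟨r0, r1⟩ := h1_rng hq hd hD hDH hh
    have o : OnC (0 : Fin 6) 1 y := ⟨hq, fun _ => on_h (by linarith [hq.2]) (by linarith [hq.1])⟩
    rw [← (atF01 o).L]
    show l0q1.v y x = _
    rw [l0q1_g hh r0 r1]
    simp only [pFma, pFmb, pFmu, pFnx, pFc0, pFkc, pFjc, pFca, pFcb, pFcc, pFsv, pFx11, pFx01, pFK11, pFK01, pFL11, pFL01, kFc0, kFc0g, kFa0_2, kFa0, kFa0g, kFb0, kFb0g, kFd0_2, kFd0, kFd0g, kFe0_2, kFe0, kFe0g, cFxs1, cFsB1_5, cFsB1, cFBs1, cFsX1_5, cFsX1, cFxs2, cFsB2_5, cFsB2, cFBs2, cFsX2_5, cFsX2, nFsc2, nFBv2, nFBm2, nFXv2, nFXm2, nFsc3, nFBv3, nFBm3, nFXv3, nFXm3, nFsc4, nFBv4, nFBm4, nFXv4, nFXm4, l12F, laF, lbF, l1F, l2F, cvF1,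 cvF2, ndFP2, ndFP3, ndFP4, pF, pNc0, pNk12_3, pNk12, pNj12_3, pNj12, pNk23_3, pNk23, pNj23_3, pNj23, pNk13_3, pNk13, pNj13_3, pNj13, pNc12, pNc23, pNc13, pNK11, pNK01, kNc12_0, kNc12_0g, kNc23_0, kNc23_0g, kNc13_0, kNc13_0g, cNsD1_5, cNsD1, cNBs1, cNsD2_5, cNsD2, cNBs2, nNBv2_3, nNBv2, nNBm2_3, nNBm2, nNBv3, nNBm3_3, nNBm3, nNBv4, nNBm4_3, nNBm4, l12N, l23N, l13N, cvN1, cvN2, ndNP2, ndNP3, ndNP4, pN, pf_cons, pf_nil]
    push_cast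
    ring
  · intro y h hq hd hh
    obtain ⟨r0, r1⟩ := h2_rng hq hd hD hDH hh
    have hy := on_h (r16 hd) (by linarith [hq.1])
    have o : OnC (0 : Fin 6) 2 y := ⟨hq, fun _ => hy⟩
    have hc : c1n y = 1 / 2 - h := by linarith
    have ya := yag_v (y := y) (by linarith [hq.1]) hy
    rw [hc] at ya
    rw [← (atF02 o).K, hc]
    show kfc02.v (1 / 2 - h) x = _
    rw [kfc02_g, kcN r0 r1, ya]
    simp only [pFma, pFmb, pFmu, pFnx, pFc0, pFkc, pFjc, pFca, pFcb, pFcc, pFsv, pFx11, pFx01, pFK11, pFK01, pFL11, pFL01, kFc0, kFc0g, kFa0_2, kFa0, kFa0g, kFb0, kFb0g, kFd0_2, kFd0, kFd0g, kFe0_2, kFe0, kFe0g, cFxs1, cFsB1_5, cFsB1, cFBs1, cFsX1_5, cFsX1, cFxs2, cFsB2_5, cFsB2, cFBs2, cFsX2_5, cFsX2, nFsc2, nFBv2, nFBm2, nFXv2, nFXm2, nFsc3, nFBv3, nFBm3, nFXv3, nFXm3, nFsc4, nFBv4, nFBm4, nFXv4, nFXm4, l12F, laF, lbF, l1F, l2F, cvF1, cvF2, ndFP2,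 ndFP3, ndFP4, pF, pNc0, pNk12_3, pNk12, pNj12_3, pNj12, pNk23_3, pNk23, pNj23_3, pNj23, pNk13_3, pNk13, pNj13_3, pNj13, pNc12, pNc23, pNc13, pNK11, pNK01, kNc12_0, kNc12_0g, kNc23_0, kNc23_0g, kNc13_0, kNc13_0g, cNsD1_5, cNsD1, cNBs1, cNsD2_5, cNsD2, cNBs2, nNBv2_3, nNBv2, nNBm2_3, nNBm2, nNBv3, nNBm3_3, nNBm3, nNBv4, nNBm4_3, nNBm4, l12N, l23N, l13N, cvN1, cvN2, ndNP2, ndNP3, ndNP4, pN, pf_cons, pf_nil]
    push_cast
    ring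
  · intro y h hq hd hh
    obtain ⟨r0, r1⟩ := h2_rng hq hd hD hDH hh
    have hy := on_h (r16 hd) (by linarith [hq.1])
    have o : OnC (0 : Fin 6) 2 y := ⟨hq, fun _ => hy⟩
    have hc : c1n y = 1 / 2 - h := by linarith
    rw [← (atF02 o).L, hc]
    show lc02.v (1 / 2 - h) x = _
    rw [lc02_g r0 r1]
    simp only [pFma, pFmb, pFmu, pFnx, pFc0, pFkc, pFjc, pFca, pFcb, pFcc, pFsv, pFx11, pFx01, pFK11, pFK01, pFL11, pFL01, kFc0, kFc0g, kFa0_2, kFa0, kFa0g, kFb0, kFb0g, kFd0_2, kFd0, kFd0g, kFe0_2, kFe0, kFe0g, cFxs1, cFsB1_5, cFsB1, cFBs1, cFsX1_5, cFsX1, cFxs2, cFsB2_5, cFsB2, cFBs2, cFsX2_5, cFsX2, nFsc2, nFBv2, nFBm2, nFXv2, nFXm2, nFsc3, nFBv3, nFBm3, nFXv3, nFXm3, nFsc4, nFBv4, nFBm4, nFXv4, nFXm4, l12F, laF, lbF, l1F, l2F, cvF1, cvF2, ndFP2, ndFP3, ndFP4, pF, pNc0, pNk12_3, pNk12, pNj12_3, pNj12, pNk23_3, pNk23, pNj23_3, pNj23, pNk13_3,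 pNk13, pNj13_3, pNj13, pNc12, pNc23, pNc13, pNK11, pNK01, kNc12_0, kNc12_0g, kNc23_0, kNc23_0g, kNc13_0, kNc13_0g, cNsD1_5, cNsD1, cNBs1, cNsD2_5, cNsD2, cNBs2, nNBv2_3, nNBv2, nNBm2_3, nNBm2, nNBv3, nNBm3_3, nNBm3, nNBv4, nNBm4_3, nNBm4, l12N, l23N, l13N, cvN1, cvN2, ndNP2, ndNP3, ndNP4, pN, pf_cons, pf_nil]
    push_cast
    ring
theorem fitF {x : ℝ} : pF.Fit true 3 x := by
  refine ⟨fun h => absurd h (by decide), ?_, fun h => rfl⟩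
  simp only [pFma, pFmb, pFmu, pFnx, pFc0, pFkc, pFjc, pFca, pFcb, pFcc, pFsv, pFx11, pFx01, pFK11, pFK01, pFL11, pFL01, kFc0, kFc0g, kFa0_2, kFa0, kFa0g, kFb0, kFb0g, kFd0_2, kFd0, kFd0g, kFe0_2, kFe0, kFe0g, cFxs1, cFsB1_5, cFsB1, cFBs1, cFsX1_5, cFsX1, cFxs2, cFsB2_5, cFsB2, cFBs2, cFsX2_5, cFsX2, nFsc2, nFBv2, nFBm2, nFXv2, nFXm2, nFsc3, nFBv3, nFBm3, nFXv3, nFXm3, nFsc4, nFBv4, nFBm4, nFXv4, nFXm4, l12F, laF, lbF, l1F, l2F, cvF1, cvF2, ndFP2, ndFP3, ndFP4, pF, pNc0, pNk12_3, pNk12, pNj12_3, pNj12, pNk23_3, pNk23, pNj23_3, pNj23, pNk13_3, pNk13, pNj13_3, pNj13, pNc12, pNc23, pNc13, pNK11, pNK01, kNc12_0, kNc12_0g, kNc23_0, kNc23_0g, kNc13_0, kNc13_0g, cNsD1_5, cNsD1, cNBs1, cNsD2_5, cNsD2, cNBs2, nNBv2_3, nNBv2, nNBm2_3, nNBm2, nNBv3, nNBm3_3, nNBm3, nNBv4, nNBm4_3, nNBm4, l12N, l23N, l13N, cvN1, cvN2, ndNP2, ndNP3, ndNP4, pN]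
  push_cast
  ring
theorem sdFC {x : ℝ} : SdOk PP tKF tL pF (dgSC pF) 5 11758673 x := by
  refine sdC rfl ?_ ?_
  · intro Y t h q3 i3 ht hh
    obtain ⟨r0, r1⟩ := h3_rng q3 i3 ht (by norm_num) (by norm_num) hD3H hh
    have hy := ycg_v (y := Y) (by linarith [q3.1]) q3.2
    rw [← ht] at hy
    rw [← (atF53 (onc q3 (by decide))).K, ← ht]
    show kfc53.v t x = _
    rw [kfc53_g hy hh, kcP r0 r1]
    simp only [pFma, pFmb, pFmu, pFnx, pFc0, pFkc, pFjc, pFca, pFcb, pFcc, pFsv, pFx11, pFx01, pFK11, pFK01, pFL11, pFL01, kFc0, kFc0g, kFa0_2, kFa0, kFa0g, kFb0, kFb0g, kFd0_2, kFd0, kFd0g, kFe0_2, kFe0, kFe0g, cFxs1, cFsB1_5, cFsB1, cFBs1, cFsX1_5, cFsX1, cFxs2, cFsB2_5, cFsB2, cFBs2, cFsX2_5, cFsX2, nFsc2, nFBv2, nFBm2, nFXv2, nFXm2, nFsc3, nFBv3, nFBm3, nFXv3, nFXm3, nFsc4, nFBv4, nFBm4, nFXv4, nFXm4, l12F, laF, lbF, l1F, l2F, cvF1, cvF2, ndFP2,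 ndFP3, ndFP4, pF, pNc0, pNk12_3, pNk12, pNj12_3, pNj12, pNk23_3, pNk23, pNj23_3, pNj23, pNk13_3, pNk13, pNj13_3, pNj13, pNc12, pNc23, pNc13, pNK11, pNK01, kNc12_0, kNc12_0g, kNc23_0, kNc23_0g, kNc13_0, kNc13_0g, cNsD1_5, cNsD1, cNBs1, cNsD2_5, cNsD2, cNBs2, nNBv2_3, nNBv2, nNBm2_3, nNBm2, nNBv3, nNBm3_3, nNBm3, nNBv4, nNBm4_3, nNBm4, l12N, l23N, l13N, cvN1, cvN2, ndNP2, ndNP3, ndNP4, pN, pf_cons, pf_nil]
    push_cast
    ring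
  · intro Y t h q3 i3 ht hh
    obtain ⟨r0, r1⟩ := h3_rng q3 i3 ht (by norm_num) (by norm_num) hD3H hh
    have hy := ycg_v (y := Y) (by linarith [q3.1]) q3.2
    rw [← ht] at hy
    rw [← (atF53 (onc q3 (by decide))).L, ← ht]
    show lc53.v t x = _
    rw [lc53_g hy hh r0 r1]
    simp only [pFma, pFmb, pFmu, pFnx, pFc0, pFkc, pFjc, pFca, pFcb, pFcc, pFsv, pFx11, pFx01, pFK11, pFK01, pFL11, pFL01, kFc0, kFc0g, kFa0_2, kFa0, kFa0g, kFb0, kFb0g, kFd0_2, kFd0, kFd0g, kFe0_2, kFe0, kFe0g, cFxs1, cFsB1_5, cFsB1, cFBs1, cFsX1_5, cFsX1, cFxs2, cFsB2_5, cFsB2, cFBs2, cFsX2_5, cFsX2, nFsc2, nFBv2, nFBm2, nFXv2, nFXm2, nFsc3, nFBv3, nFBm3, nFXv3, nFXm3, nFsc4, nFBv4, nFBm4, nFXv4, nFXm4, l12F, laF, lbF, l1F, l2F, cvF1, cvF2, ndFP2, ndFP3, ndFP4, pF, pNc0, pNk12_3, pNk12, pNj12_3, pNj12, pNk23_3, pNk23, pNj23_3, pNj23, pNk13_3, pNk13, pNj13_3, pNj13,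 pNc12, pNc23, pNc13, pNK11, pNK01, kNc12_0, kNc12_0g, kNc23_0, kNc23_0g, kNc13_0, kNc13_0g, cNsD1_5, cNsD1, cNBs1, cNsD2_5, cNsD2, cNBs2, nNBv2_3, nNBv2, nNBm2_3, nNBm2, nNBv3, nNBm3_3, nNBm3, nNBv4, nNBm4_3, nNBm4, l12N, l23N, l13N, cvN1, cvN2, ndNP2, ndNP3, ndNP4, pN, pf_cons, pf_nil]
    push_cast
    ring
theorem bf2q3_g {Y x : ℝ} (h2 : (2135724975 / 1073741824) < Y) (h3 : Y ≤ 2) : bf2q3.v Y x = ((-(301519 / 500000)) + (171727 / 100000) * (x - (1 / 4))) - (2 - Y) * ((14133 / 500000) + (9393 / 50000) * (x - (1 / 4))) := by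
  simp only [bf2q3]
  ((try push_cast); (repeat first | rw [if_pos (by linarith)] | rw [if_neg (by linarith)] | erw [if_pos (by linarith)] | erw [if_neg (by linarith)]))
  ring1
theorem bx2q3_g {Y x : ℝ} (h2 : (2135724975 / 1073741824) < Y) (h3 : Y ≤ 2) : bx2q3.v Y x = ((142253 / 1000000) + (1719 / 1000) * (x - (1 / 4))) - (2 - Y) * ((3301 / 500000) + (7397 / 50000) * (x - (1 / 4))) := by
  simp only [bx2q3]
  ((try push_cast); (repeat first | rw [if_pos (by linarith)] | rw [if_neg (by linarith)] | erw [if_pos (by linarith)] | erw [if_neg (by linarith)]))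
  ring1
theorem bd2q3_g {Y x : ℝ} (h2 : (2135724975 / 1073741824) < Y) (h3 : Y ≤ 2) : bd2q3.v Y x = ((6573 / 250000) + (187387 / 100000) * (x - (1 / 4))) - (2 - Y) * ((5933 / 500000) + (2967 / 50000) * (x - (1 / 4))) := by
  simp only [bd2q3]
  ((try push_cast); (repeat first | rw [if_pos (by linarith)] | rw [if_neg (by linarith)] | erw [if_pos (by linarith)] | erw [if_neg (by linarith)]))
  ring1
theorem nlF2 {x : ℝ} : NlOk PP tKF tL ndFP2 2 11758673 x := by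
  have hr : PP.ρ 2 = 9 / 10 := rfl
  refine ⟨by rw [hr]; norm_num, fun u => ?_, fun {Y} q3 i3 => ?_, fun {Y} q3 i3 => ?_⟩
  · rw [hr]
    simp only [pFma, pFmb, pFmu, pFnx, pFc0, pFkc, pFjc, pFca, pFcb, pFcc, pFsv, pFx11, pFx01, pFK11, pFK01, pFL11, pFL01, kFc0, kFc0g, kFa0_2, kFa0, kFa0g, kFb0, kFb0g, kFd0_2, kFd0, kFd0g, kFe0_2, kFe0, kFe0g, cFxs1, cFsB1_5, cFsB1, cFBs1, cFsX1_5, cFsX1, cFxs2, cFsB2_5, cFsB2, cFBs2, cFsX2_5, cFsX2, nFsc2, nFBv2, nFBm2, nFXv2, nFXm2, nFsc3, nFBv3, nFBm3, nFXv3, nFXm3, nFsc4, nFBv4, nFBm4, nFXv4, nFXm4, l12F, laF, lbF, l1F, l2F, cvF1, cvF2, ndFP2, ndFP3, ndFP4, pF, pNc0, pNk12_3, pNk12, pNj12_3, pNj12, pNk23_3, pNk23, pNj23_3, pNj23, pNk13_3, pNk13, pNj13_3, pNj13, pNc12, pNc23, pNc13, pNK11, pNK01, kNc12_0, kNc12_0g, kNc23_0, kNc23_0g, kNc13_0, kNc13_0g, cNsD1_5, cNsD1, cNBs1, cNsD2_5, cNsD2, cNBs2, nNBv2_3,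 nNBv2, nNBm2_3, nNBm2, nNBv3, nNBm3_3, nNBm3, nNBv4, nNBm4_3, nNBm4, l12N, l23N, l13N, cvN1, cvN2, ndNP2, ndNP3, ndNP4, pN]
    push_cast
    ring
  · have h2 : (2135724975 / 1073741824) < Y := by
      have := (abs_lt.1 i3).1
      rw [S_one] at this
      norm_num at this
      linarith
    rw [← (atF23 (onc q3 (by decide))).K]
    show kf2q3.v Y x = _
    have ef : kf2q3.v Y x = crv PP 2 3 Y * bf2q3.v Y x := by
      rw [ecv2q3 q3.1]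
      simp only [kf2q3]
    rw [ef, bf2q3_g h2 q3.2]
    simp only [pFma, pFmb, pFmu, pFnx, pFc0, pFkc, pFjc, pFca, pFcb, pFcc, pFsv, pFx11, pFx01, pFK11, pFK01, pFL11, pFL01, kFc0, kFc0g, kFa0_2, kFa0, kFa0g, kFb0, kFb0g, kFd0_2, kFd0, kFd0g, kFe0_2, kFe0, kFe0g, cFxs1, cFsB1_5, cFsB1, cFBs1, cFsX1_5, cFsX1, cFxs2, cFsB2_5, cFsB2, cFBs2, cFsX2_5, cFsX2, nFsc2, nFBv2, nFBm2, nFXv2, nFXm2, nFsc3, nFBv3, nFBm3, nFXv3, nFXm3, nFsc4, nFBv4, nFBm4, nFXv4, nFXm4, l12F, laF, lbF, l1F, l2F, cvF1, cvF2, ndFP2, ndFP3, ndFP4, pF, pNc0, pNk12_3, pNk12, pNj12_3, pNj12, pNk23_3, pNk23, pNj23_3, pNj23, pNk13_3, pNk13, pNj13_3, pNj13, pNc12, pNc23, pNc13, pNK11, pNK01, kNc12_0, kNc12_0g, kNc23_0, kNc23_0g, kNc13_0, kNc13_0g, cNsD1_5, cNsD1, cNBs1, cNsD2_5, cNsD2, cNBs2, nNBv2_3, nNBv2, nNBm2_3, nNBm2, nNBv3, nNBm3_3, nNBm3, nNBv4, nNBm4_3, nNBm4, l12N,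 l23N, l13N, cvN1, cvN2, ndNP2, ndNP3, ndNP4, pN, pf_cons, pf_nil]
    push_cast
    ring
  · have h2 : (2135724975 / 1073741824) < Y := by
      have := (abs_lt.1 i3).1
      rw [S_one] at this
      norm_num at this
      linarith
    rw [← (atF23 (onc q3 (by decide))).L]
    show l2q3.v Y x = _
    have ef : l2q3.v Y x = crv PP 2 3 Y * bx2q3.v Y x := by
      rw [ecv2q3 q3.1]
      simp only [l2q3]
    rw [ef, bx2q3_g h2 q3.2]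
    simp only [pFma, pFmb, pFmu, pFnx, pFc0, pFkc, pFjc, pFca, pFcb, pFcc, pFsv, pFx11, pFx01, pFK11, pFK01, pFL11, pFL01, kFc0, kFc0g, kFa0_2, kFa0, kFa0g, kFb0, kFb0g, kFd0_2, kFd0, kFd0g, kFe0_2, kFe0, kFe0g, cFxs1, cFsB1_5, cFsB1, cFBs1, cFsX1_5, cFsX1, cFxs2, cFsB2_5, cFsB2, cFBs2, cFsX2_5, cFsX2, nFsc2, nFBv2, nFBm2, nFXv2, nFXm2, nFsc3, nFBv3, nFBm3, nFXv3, nFXm3, nFsc4, nFBv4, nFBm4, nFXv4, nFXm4, l12F, laF, lbF, l1F, l2F, cvF1, cvF2, ndFP2, ndFP3, ndFP4, pF, pNc0, pNk12_3, pNk12, pNj12_3, pNj12, pNk23_3, pNk23, pNj23_3, pNj23, pNk13_3, pNk13, pNj13_3, pNj13, pNc12, pNc23, pNc13, pNK11, pNK01, kNc12_0, kNc12_0g, kNc23_0, kNc23_0g, kNc13_0, kNc13_0g, cNsD1_5, cNsD1, cNBs1, cNsD2_5, cNsD2, cNBs2, nNBv2_3, nNBv2, nNBm2_3, nNBm2, nNBv3, nNBm3_3, nNBm3, nNBv4, nNBm4_3, nNBm4, l12N, l23N, l13N, cvN1, cvN2, ndNP2, ndNP3, ndNP4, pN, pf_cons,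 pf_nil]
    push_cast
    ring
theorem sdF2 {x : ℝ} : SdOk PP tKF tL pF (dgSL pF ndFP2) 2 11758673 x := nlF2.sd
theorem bf3q3_g {Y x : ℝ} (h2 : (2135724975 / 1073741824) < Y) (h3 : Y ≤ 2) : bf3q3.v Y x = ((1 / 2)) - (2 - Y) * ((84153 / 250000) + (84887 / 50000) * (x - (1 / 4))) := by
  simp only [bf3q3]
  ((try push_cast); (repeat first | rw [if_pos (by linarith)] | rw [if_neg (by linarith)] | erw [if_pos (by linarith)] | erw [if_neg (by linarith)]))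
  ring1
theorem bx3q3_g {Y x : ℝ} (h2 : (2135724975 / 1073741824) < Y) (h3 : Y ≤ 2) : bx3q3.v Y x = ((-(8583 / 320000)) + (167381 / 3200000) * (x - (1 / 4))) - (2 - Y) * ((-(222067 / 800000)) + (-(228939 / 1600000)) * (x - (1 / 4))) := by
  simp only [bx3q3]
  ((try push_cast); (repeat first | rw [if_pos (by linarith)] | rw [if_neg (by linarith)] | erw [if_pos (by linarith)] | erw [if_neg (by linarith)]))
  ring1
theorem bd3q3_g {Y x : ℝ} (h2 : (2135724975 / 1073741824) < Y) (h3 : Y ≤ 2) : bd3q3.v Y x = ((0)) - (2 - Y) * ((8789 / 125000) + (1733 / 6250) * (x - (1 / 4))) := by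
  simp only [bd3q3]
  ((try push_cast); (repeat first | rw [if_pos (by linarith)] | rw [if_neg (by linarith)] | erw [if_pos (by linarith)] | erw [if_neg (by linarith)]))
  ring1
theorem sdF3 {x : ℝ} : SdOk PP tKF tL pF (dgSR ndFP3) 3 11758673 x := by
  have hr : PP.ρ 3 = 6 / 5 := rfl
  intro Y' t' a1 a2 a3 a4
  refine sdR (P := PP) (RK := tKF) (RL := tL) (p := pF) (N := ndFP3) (j := 3) (D3 := 11758673) (x := x) (by rw [hr]; norm_num) ?_ ?_ ?_ a1 a2 a3 a4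
  · intro u
    rw [hr]
    simp only [pFma, pFmb, pFmu, pFnx, pFc0, pFkc, pFjc, pFca, pFcb, pFcc, pFsv, pFx11, pFx01, pFK11, pFK01, pFL11, pFL01, kFc0, kFc0g, kFa0_2, kFa0, kFa0g, kFb0, kFb0g, kFd0_2, kFd0, kFd0g, kFe0_2, kFe0, kFe0g, cFxs1, cFsB1_5, cFsB1, cFBs1, cFsX1_5, cFsX1, cFxs2, cFsB2_5, cFsB2, cFBs2, cFsX2_5, cFsX2, nFsc2, nFBv2, nFBm2, nFXv2, nFXm2, nFsc3, nFBv3, nFBm3, nFXv3, nFXm3, nFsc4, nFBv4, nFBm4, nFXv4, nFXm4, l12F, laF, lbF, l1F, l2F, cvF1, cvF2, ndFP2, ndFP3, ndFP4, pF, pNc0, pNk12_3, pNk12, pNj12_3, pNj12, pNk23_3, pNk23, pNj23_3, pNj23, pNk13_3, pNk13, pNj13_3, pNj13, pNc12, pNc23, pNc13, pNK11, pNK01, kNc12_0, kNc12_0g, kNc23_0, kNc23_0g, kNc13_0, kNc13_0g, cNsD1_5, cNsD1, cNBs1, cNsD2_5, cNsD2, cNBs2, nNBv2_3, nNBv2, nNBm2_3, nNBm2, nNBv3, nNBm3_3, nNBm3, nNBv4, nNBm4_3, nNBm4, l12N, l23N, l13N, cvN1, cvN2, ndNP2,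 ndNP3, ndNP4, pN]
    push_cast
    ring
  · intro Y q3 i3
    have h2 : (2135724975 / 1073741824) < Y := by
      have := (abs_lt.1 i3).1
      rw [S_one] at this
      norm_num at this
      linarith
    have hy := ycg_v (y := Y) (by linarith [q3.1]) q3.2
    rw [← (atF33 (onc q3 (by decide))).K]
    show kfc33.v (c3n Y) x = _
    have ef : kfc33.v (c3n Y) x = crv PP 3 3 Y * bf3q3.v Y x := by
      rw [ecv3q3 q3.1, cv3r_v]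
      simp only [kfc33, hy, swg_v]
      push_cast
      ring
    rw [ef, bf3q3_g h2 q3.2]
    simp only [pFma, pFmb, pFmu, pFnx, pFc0, pFkc, pFjc, pFca, pFcb, pFcc, pFsv, pFx11, pFx01, pFK11, pFK01, pFL11, pFL01, kFc0, kFc0g, kFa0_2, kFa0, kFa0g, kFb0, kFb0g, kFd0_2, kFd0, kFd0g, kFe0_2, kFe0, kFe0g, cFxs1, cFsB1_5, cFsB1, cFBs1, cFsX1_5, cFsX1, cFxs2, cFsB2_5, cFsB2, cFBs2, cFsX2_5, cFsX2, nFsc2, nFBv2, nFBm2, nFXv2, nFXm2, nFsc3, nFBv3, nFBm3, nFXv3, nFXm3, nFsc4, nFBv4, nFBm4, nFXv4, nFXm4, l12F, laF, lbF, l1F, l2F, cvF1, cvF2, ndFP2, ndFP3, ndFP4, pF, pNc0, pNk12_3, pNk12, pNj12_3, pNj12, pNk23_3, pNk23, pNj23_3, pNj23, pNk13_3, pNk13, pNj13_3, pNj13, pNc12, pNc23, pNc13, pNK11, pNK01, kNc12_0, kNc12_0g, kNc23_0, kNc23_0g, kNc13_0, kNc13_0g, cNsD1_5, cNsD1, cNBs1, cNsD2_5, cNsD2, cNBs2, nNBv2_3, nNBv2, nNBm2_3, nNBm2, nNBv3, nNBm3_3,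 nNBm3, nNBv4, nNBm4_3, nNBm4, l12N, l23N, l13N, cvN1, cvN2, ndNP2, ndNP3, ndNP4, pN, pf_cons, pf_nil]
    push_cast
    ring
  · intro Y q3 i3
    have h2 : (2135724975 / 1073741824) < Y := by
      have := (abs_lt.1 i3).1
      rw [S_one] at this
      norm_num at this
      linarith
    have hy := ycg_v (y := Y) (by linarith [q3.1]) q3.2
    rw [← (atF33 (onc q3 (by decide))).L]
    show lc33.v (c3n Y) x = _
    have ef : lc33.v (c3n Y) x = crv PP 3 3 Y * bx3q3.v Y x := by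
      rw [ecv3q3 q3.1, cv3r_v]
      simp only [lc33, hy, swg_v]
      push_cast
      ring
    rw [ef, bx3q3_g h2 q3.2]
    simp only [dga3c, pFma, pFmb, pFmu, pFnx, pFc0, pFkc, pFjc, pFca, pFcb, pFcc, pFsv, pFx11, pFx01, pFK11, pFK01, pFL11, pFL01, kFc0, kFc0g, kFa0_2, kFa0, kFa0g, kFb0, kFb0g, kFd0_2, kFd0, kFd0g, kFe0_2, kFe0, kFe0g, cFxs1, cFsB1_5, cFsB1, cFBs1, cFsX1_5, cFsX1, cFxs2, cFsB2_5, cFsB2, cFBs2, cFsX2_5, cFsX2, nFsc2, nFBv2, nFBm2, nFXv2, nFXm2, nFsc3, nFBv3, nFBm3, nFXv3, nFXm3, nFsc4, nFBv4, nFBm4, nFXv4, nFXm4, l12F, laF, lbF, l1F, l2F, cvF1, cvF2, ndFP2, ndFP3, ndFP4, pF, pNc0, pNk12_3, pNk12, pNj12_3, pNj12, pNk23_3, pNk23, pNj23_3, pNj23, pNk13_3, pNk13, pNj13_3, pNj13, pNc12, pNc23, pNc13, pNK11, pNK01, kNc12_0, kNc12_0g, kNc23_0, kNc23_0g, kNc13_0, kNc13_0g, cNsD1_5, cNsD1, cNBs1, cNsD2_5, cNsD2, cNBs2, nNBv2_3,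 nNBv2, nNBm2_3, nNBm2, nNBv3, nNBm3_3, nNBm3, nNBv4, nNBm4_3, nNBm4, l12N, l23N, l13N, cvN1, cvN2, ndNP2, ndNP3, ndNP4, pN]
    push_cast
    ring
theorem bf4q3_g {Y x : ℝ} (h2 : (2135724975 / 1073741824) < Y) (h3 : Y ≤ 2) : bf4q3.v Y x = ((1 / 2)) - (2 - Y) * ((638417 / 500000) + (289187 / 25000) * (x - (1 / 4))) := by
  simp only [bf4q3]
  ((try push_cast); (repeat first | rw [if_pos (by linarith)] | rw [if_neg (by linarith)] | erw [if_pos (by linarith)] | erw [if_neg (by linarith)]))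
  ring1
theorem bx4q3_g {Y x : ℝ} (h2 : (2135724975 / 1073741824) < Y) (h3 : Y ≤ 2) : bx4q3.v Y x = ((-(8583 / 320000)) + (167381 / 3200000) * (x - (1 / 4))) - (2 - Y) * ((-(859639 / 4000000)) + (-(13603 / 64000)) * (x - (1 / 4))) := by
  simp only [bx4q3]
  ((try push_cast); (repeat first | rw [if_pos (by linarith)] | rw [if_neg (by linarith)] | erw [if_pos (by linarith)] | erw [if_neg (by linarith)]))
  ring1
theorem bd4q3_g {Y x : ℝ} (h2 : (2135724975 / 1073741824) < Y) (h3 : Y ≤ 2) : bd4q3.v Y x = ((0)) - (2 - Y) * ((64333 / 250000) + (21549 / 50000) * (x - (1 / 4))) := by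
  simp only [bd4q3]
  ((try push_cast); (repeat first | rw [if_pos (by linarith)] | rw [if_neg (by linarith)] | erw [if_pos (by linarith)] | erw [if_neg (by linarith)]))
  ring1
theorem sdF4 {x : ℝ} : SdOk PP tKF tL pF (dgSR ndFP4) 4 11758673 x := by
  have hr : PP.ρ 4 = 8 / 5 := rfl
  intro Y' t' a1 a2 a3 a4
  refine sdR (P := PP) (RK := tKF) (RL := tL) (p := pF) (N := ndFP4) (j := 4) (D3 := 11758673) (x := x) (by rw [hr]; norm_num) ?_ ?_ ?_ a1 a2 a3 a4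
  · intro u
    rw [hr]
    simp only [pFma, pFmb, pFmu, pFnx, pFc0, pFkc, pFjc, pFca, pFcb, pFcc, pFsv, pFx11, pFx01, pFK11, pFK01, pFL11, pFL01, kFc0, kFc0g, kFa0_2, kFa0, kFa0g, kFb0, kFb0g, kFd0_2, kFd0, kFd0g, kFe0_2, kFe0, kFe0g, cFxs1, cFsB1_5, cFsB1, cFBs1, cFsX1_5, cFsX1, cFxs2, cFsB2_5, cFsB2, cFBs2, cFsX2_5, cFsX2, nFsc2, nFBv2, nFBm2, nFXv2, nFXm2, nFsc3, nFBv3, nFBm3, nFXv3, nFXm3, nFsc4, nFBv4, nFBm4, nFXv4, nFXm4, l12F, laF, lbF, l1F, l2F, cvF1, cvF2, ndFP2, ndFP3, ndFP4, pF, pNc0, pNk12_3, pNk12, pNj12_3, pNj12, pNk23_3, pNk23, pNj23_3, pNj23, pNk13_3, pNk13, pNj13_3, pNj13, pNc12, pNc23, pNc13, pNK11, pNK01, kNc12_0, kNc12_0g, kNc23_0, kNc23_0g, kNc13_0, kNc13_0g, cNsD1_5, cNsD1, cNBs1, cNsD2_5, cNsD2, cNBs2, nNBv2_3, nNBv2, nNBm2_3, nNBm2, nNBv3, nNBm3_3, nNBm3, nNBv4, nNBm4_3, nNBm4, l12N, l23N, l13N, cvN1, cvN2, ndNP2,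 ndNP3, ndNP4, pN]
    push_cast
    ring
  · intro Y q3 i3
    have h2 : (2135724975 / 1073741824) < Y := by
      have := (abs_lt.1 i3).1
      rw [S_one] at this
      norm_num at this
      linarith
    have hy := ycg_v (y := Y) (by linarith [q3.1]) q3.2
    rw [← (atF43 (onc q3 (by decide))).K]
    show kfc43.v (c3n Y) x = _
    have ef : kfc43.v (c3n Y) x = crv PP 4 3 Y * bf4q3.v Y x := by
      rw [ecv4q3 q3.1, cv4r_v]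
      simp only [kfc43, hy, swg_v]
      push_cast
      ring
    rw [ef, bf4q3_g h2 q3.2]
    simp only [pFma, pFmb, pFmu, pFnx, pFc0, pFkc, pFjc, pFca, pFcb, pFcc, pFsv, pFx11, pFx01, pFK11, pFK01, pFL11, pFL01, kFc0, kFc0g, kFa0_2, kFa0, kFa0g, kFb0, kFb0g, kFd0_2, kFd0, kFd0g, kFe0_2, kFe0, kFe0g, cFxs1, cFsB1_5, cFsB1, cFBs1, cFsX1_5, cFsX1, cFxs2, cFsB2_5, cFsB2, cFBs2, cFsX2_5, cFsX2, nFsc2, nFBv2, nFBm2, nFXv2, nFXm2, nFsc3, nFBv3, nFBm3, nFXv3, nFXm3, nFsc4, nFBv4, nFBm4, nFXv4, nFXm4, l12F, laF, lbF, l1F, l2F, cvF1, cvF2, ndFP2, ndFP3, ndFP4, pF, pNc0, pNk12_3, pNk12, pNj12_3, pNj12, pNk23_3, pNk23, pNj23_3, pNj23, pNk13_3, pNk13, pNj13_3, pNj13, pNc12, pNc23, pNc13, pNK11, pNK01, kNc12_0, kNc12_0g, kNc23_0, kNc23_0g, kNc13_0, kNc13_0g, cNsD1_5, cNsD1, cNBs1, cNsD2_5, cNsD2, cNBs2, nNBv2_3, nNBv2, nNBm2_3, nNBm2, nNBv3, nNBm3_3,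 nNBm3, nNBv4, nNBm4_3, nNBm4, l12N, l23N, l13N, cvN1, cvN2, ndNP2, ndNP3, ndNP4, pN, pf_cons, pf_nil]
    push_cast
    ring
  · intro Y q3 i3
    have h2 : (2135724975 / 1073741824) < Y := by
      have := (abs_lt.1 i3).1
      rw [S_one] at this
      norm_num at this
      linarith
    have hy := ycg_v (y := Y) (by linarith [q3.1]) q3.2
    rw [← (atF43 (onc q3 (by decide))).L]
    show lc43.v (c3n Y) x = _
    have ef : lc43.v (c3n Y) x = crv PP 4 3 Y * bx4q3.v Y x := by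
      rw [ecv4q3 q3.1, cv4r_v]
      simp only [lc43, hy, swg_v]
      push_cast
      ring
    rw [ef, bx4q3_g h2 q3.2]
    simp only [dga3c, pFma, pFmb, pFmu, pFnx, pFc0, pFkc, pFjc, pFca, pFcb, pFcc, pFsv, pFx11, pFx01, pFK11, pFK01, pFL11, pFL01, kFc0, kFc0g, kFa0_2, kFa0, kFa0g, kFb0, kFb0g, kFd0_2, kFd0, kFd0g, kFe0_2, kFe0, kFe0g, cFxs1, cFsB1_5, cFsB1, cFBs1, cFsX1_5, cFsX1, cFxs2, cFsB2_5, cFsB2, cFBs2, cFsX2_5, cFsX2, nFsc2, nFBv2, nFBm2, nFXv2, nFXm2, nFsc3, nFBv3, nFBm3, nFXv3, nFXm3, nFsc4, nFBv4, nFBm4, nFXv4, nFXm4, l12F, laF, lbF, l1F, l2F, cvF1, cvF2, ndFP2, ndFP3, ndFP4, pF, pNc0, pNk12_3, pNk12, pNj12_3, pNj12, pNk23_3, pNk23, pNj23_3, pNj23, pNk13_3, pNk13, pNj13_3, pNj13, pNc12, pNc23, pNc13, pNK11, pNK01, kNc12_0, kNc12_0g, kNc23_0, kNc23_0g, kNc13_0, kNc13_0g, cNsD1_5, cNsD1, cNBs1, cNsD2_5, cNsD2, cNBs2, nNBv2_3,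 nNBv2, nNBm2_3, nNBm2, nNBv3, nNBm3_3, nNBm3, nNBv4, nNBm4_3, nNBm4, l12N, l23N, l13N, cvN1, cvN2, ndNP2, ndNP3, ndNP4, pN]
    push_cast
    ring
theorem bf1q2_g {v x : ℝ} (v0 : 0 ≤ v) (v1 : v < (28583951 / 536870912)) : bf1q2.v (1 + v) x = 1 + v * cFsB1.v v x := by
  simp only [bf1q2_3, bf1q2, cFsB1_5, cFsB1]
  rcases le_or_gt v ((3 / 100)) with c0 | c0
  · ((try push_cast); (repeat first | rw [if_pos (by linarith)] | rw [if_neg (by linarith)] | erw [if_pos (by linarith)] | erw [if_neg (by linarith)]))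
    ring1
  · have hv : v * v⁻¹ = 1 := mul_inv_cancel₀ (ne_of_gt (by linarith))
    ((try push_cast); (repeat first | rw [if_pos (by linarith)] | rw [if_neg (by linarith)] | erw [if_pos (by linarith)] | erw [if_neg (by linarith)]))
    linear_combination (-((-(8023 / 1000000)) + (-(1191 / 50000)) * (x - (1 / 4)))) * hv
theorem bx1q2_g {v x : ℝ} (v0 : 0 ≤ v) (v1 : v < (28583951 / 536870912)) : bx1q2.v (1 + v) x = 0 + v * cFsX1.v v x := by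
  simp only [bx1q2_3, bx1q2, cFsX1_5, cFsX1]
  rcases le_or_gt v ((3 / 100)) with c0 | c0
  · ((try push_cast); (repeat first | rw [if_pos (by linarith)] | rw [if_neg (by linarith)] | erw [if_pos (by linarith)] | erw [if_neg (by linarith)]))
    ring1
  · have hv : v * v⁻¹ = 1 := mul_inv_cancel₀ (ne_of_gt (by linarith))
    ((try push_cast); (repeat first | rw [if_pos (by linarith)] | rw [if_neg (by linarith)] | erw [if_pos (by linarith)] | erw [if_neg (by linarith)]))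
    linear_combination (-((-(847 / 500000)) + (1173 / 100000) * (x - (1 / 4)))) * hv
theorem bd1q2_g {v x : ℝ} (v0 : 0 ≤ v) (v1 : v < (28583951 / 536870912)) : bd1q2.v (1 + v) x = 0 + v * cNsD1.v v x := by
  simp only [bd1q2_3, bd1q2, cNsD1_5, cNsD1]
  rcases le_or_gt v ((3 / 100)) with c0 | c0
  · ((try push_cast); (repeat first | rw [if_pos (by linarith)] | rw [if_neg (by linarith)] | erw [if_pos (by linarith)] | erw [if_neg (by linarith)]))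
    ring1
  · have hv : v * v⁻¹ = 1 := mul_inv_cancel₀ (ne_of_gt (by linarith))
    ((try push_cast); (repeat first | rw [if_pos (by linarith)] | rw [if_neg (by linarith)] | erw [if_pos (by linarith)] | erw [if_neg (by linarith)]))
    linear_combination (-((-(1229 / 500000)) + (-(2609 / 50000)) * (x - (1 / 4)))) * hv
theorem cvokF1 {x : ℝ} : CvOk PP tKF tL pF cvF1 1 57167902 x := by
  intro v v0 v1
  have v2 : v < (28583951 / 536870912) := by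
    rw [S_one] at v1
    norm_num at v1
    linarith
  have hxi := dgxi_v v0 (by linarith)
  have hws := dgws_v v0 (by linarith)
  have q2 : InQ 2 (1 + v) := ⟨by linarith, by linarith⟩
  have o : OnC (1 : Fin 6) 2 (1 + v) := onc q2 (by decide)
  have ex : crv PP 1 2 (1 + v) = 1 / 2 - v * cvF1.xs.v v := by
    rw [ecv1q2, cv1p_v, hxi, hws]
    simp only [pFma, pFmb, pFmu, pFnx, pFc0, pFkc, pFjc, pFca, pFcb, pFcc, pFsv, pFx11, pFx01, pFK11, pFK01, pFL11, pFL01, kFc0, kFc0g, kFa0_2, kFa0, kFa0g, kFb0, kFb0g, kFd0_2, kFd0, kFd0g, kFe0_2, kFe0, kFe0g, cFxs1, cFsB1_5, cFsB1, cFBs1, cFsX1_5, cFsX1, cFxs2, cFsB2_5, cFsB2, cFBs2, cFsX2_5, cFsX2, nFsc2, nFBv2, nFBm2, nFXv2, nFXm2, nFsc3, nFBv3, nFBm3, nFXv3, nFXm3, nFsc4, nFBv4, nFBm4, nFXv4, nFXm4, l12F, laF, lbF, l1F, l2F, cvF1, cvF2, ndFP2, ndFP3, ndFP4, pF, pNc0, pNk12_3, pNk12, pNj12_3, pNj12,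 pNk23_3, pNk23, pNj23_3, pNj23, pNk13_3, pNk13, pNj13_3, pNj13, pNc12, pNc23, pNc13, pNK11, pNK01, kNc12_0, kNc12_0g, kNc23_0, kNc23_0g, kNc13_0, kNc13_0g, cNsD1_5, cNsD1, cNBs1, cNsD2_5, cNsD2, cNBs2, nNBv2_3, nNBv2, nNBm2_3, nNBm2, nNBv3, nNBm3_3, nNBm3, nNBv4, nNBm4_3, nNBm4, l12N, l23N, l13N, cvN1, cvN2, ndNP2, ndNP3, ndNP4, pN]
    push_cast
    ring
  refine ⟨ex, ?_, ?_⟩
  · rw [← (atF12 o).K]
    show kf1q2.v (1 + v) x = _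
    have ef : kf1q2.v (1 + v) x = cv1p.v (1 + v) * bf1q2.v (1 + v) x := by
      simp only [kf1q2]
    rw [ef, bf1q2_g v0 v2, ← ecv1q2, ex]
    simp only [pFmu, pFc0, cFBs1, cvF1, pF, pNc0, cNBs1]
    push_cast
    ring
  · rw [← (atF12 o).L]
    show l1q2.v (1 + v) x = _
    have ef : l1q2.v (1 + v) x = cv1p.v (1 + v) * bx1q2.v (1 + v) x := by
      simp only [l1q2]
    rw [ef, bx1q2_g v0 v2, ← ecv1q2, ex, zero_add]
    rfl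
theorem bf2q2_g {v x : ℝ} (v0 : 0 ≤ v) (v1 : v < (28583951 / 536870912)) : bf2q2.v (1 + v) x = 1 + v * cFsB2.v v x := by
  simp only [bf2q2_3, bf2q2, cFsB2_5, cFsB2]
  rcases le_or_gt v ((3 / 100)) with c0 | c0
  · ((try push_cast); (repeat first | rw [if_pos (by linarith)] | rw [if_neg (by linarith)] | erw [if_pos (by linarith)] | erw [if_neg (by linarith)]))
    ring1
  · have hv : v * v⁻¹ = 1 := mul_inv_cancel₀ (ne_of_gt (by linarith))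
    ((try push_cast); (repeat first | rw [if_pos (by linarith)] | rw [if_neg (by linarith)] | erw [if_pos (by linarith)] | erw [if_neg (by linarith)]))
    linear_combination (-((1199 / 1000000) + (-(619 / 100000)) * (x - (1 / 4)))) * hv
theorem bx2q2_g {v x : ℝ} (v0 : 0 ≤ v) (v1 : v < (28583951 / 536870912)) : bx2q2.v (1 + v) x = 0 + v * cFsX2.v v x := by
  simp only [bx2q2_3, bx2q2, cFsX2_5, cFsX2]
  rcases le_or_gt v ((3 / 100)) with c0 | c0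
  · ((try push_cast); (repeat first | rw [if_pos (by linarith)] | rw [if_neg (by linarith)] | erw [if_pos (by linarith)] | erw [if_neg (by linarith)]))
    ring1
  · have hv : v * v⁻¹ = 1 := mul_inv_cancel₀ (ne_of_gt (by linarith))
    ((try push_cast); (repeat first | rw [if_pos (by linarith)] | rw [if_neg (by linarith)] | erw [if_pos (by linarith)] | erw [if_neg (by linarith)]))
    linear_combination (-((-(2331 / 1000000)) + (-(901 / 100000)) * (x - (1 / 4)))) * hv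
theorem bd2q2_g {v x : ℝ} (v0 : 0 ≤ v) (v1 : v < (28583951 / 536870912)) : bd2q2.v (1 + v) x = 0 + v * cNsD2.v v x := by
  simp only [bd2q2_3, bd2q2, cNsD2_5, cNsD2]
  rcases le_or_gt v ((3 / 100)) with c0 | c0
  · ((try push_cast); (repeat first | rw [if_pos (by linarith)] | rw [if_neg (by linarith)] | erw [if_pos (by linarith)] | erw [if_neg (by linarith)]))
    ring1
  · have hv : v * v⁻¹ = 1 := mul_inv_cancel₀ (ne_of_gt (by linarith))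
    ((try push_cast); (repeat first | rw [if_pos (by linarith)] | rw [if_neg (by linarith)] | erw [if_pos (by linarith)] | erw [if_neg (by linarith)]))
    linear_combination (-((-(41 / 500000)) + (-(121 / 25000)) * (x - (1 / 4)))) * hv
theorem cvokF2 {x : ℝ} : CvOk PP tKF tL pF cvF2 2 57167902 x := by
  intro v v0 v1
  have v2 : v < (28583951 / 536870912) := by
    rw [S_one] at v1
    norm_num at v1
    linarith
  have hxi := dgxi_v v0 (by linarith)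
  have hws := dgws_v v0 (by linarith)
  have q2 : InQ 2 (1 + v) := ⟨by linarith, by linarith⟩
  have o : OnC (2 : Fin 6) 2 (1 + v) := onc q2 (by decide)
  have ex : crv PP 2 2 (1 + v) = 1 / 2 - v * cvF2.xs.v v := by
    rw [ecv2q2, cv2p_v, hxi, hws]
    simp only [pFma, pFmb, pFmu, pFnx, pFc0, pFkc, pFjc, pFca, pFcb, pFcc, pFsv, pFx11, pFx01, pFK11, pFK01, pFL11, pFL01, kFc0, kFc0g, kFa0_2, kFa0, kFa0g, kFb0, kFb0g, kFd0_2, kFd0, kFd0g, kFe0_2, kFe0, kFe0g, cFxs1, cFsB1_5, cFsB1, cFBs1, cFsX1_5, cFsX1, cFxs2, cFsB2_5, cFsB2, cFBs2, cFsX2_5, cFsX2, nFsc2, nFBv2, nFBm2, nFXv2, nFXm2, nFsc3, nFBv3, nFBm3, nFXv3, nFXm3, nFsc4, nFBv4, nFBm4, nFXv4, nFXm4, l12F, laF, lbF, l1F, l2F, cvF1, cvF2, ndFP2, ndFP3, ndFP4, pF, pNc0, pNk12_3, pNk12, pNj12_3, pNj12, pNk23_3, pNk23, pNj23_3, pNj23, pNk13_3, pNk13, pNj13_3, pNj13, pNc12, pNc23, pNc13, pNK11,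 pNK01, kNc12_0, kNc12_0g, kNc23_0, kNc23_0g, kNc13_0, kNc13_0g, cNsD1_5, cNsD1, cNBs1, cNsD2_5, cNsD2, cNBs2, nNBv2_3, nNBv2, nNBm2_3, nNBm2, nNBv3, nNBm3_3, nNBm3, nNBv4, nNBm4_3, nNBm4, l12N, l23N, l13N, cvN1, cvN2, ndNP2, ndNP3, ndNP4, pN]
    push_cast
    ring
  refine ⟨ex, ?_, ?_⟩
  · rw [← (atF22 o).K]
    show kf2q2.v (1 + v) x = _
    have ef : kf2q2.v (1 + v) x = cv2p.v (1 + v) * bf2q2.v (1 + v) x := by
      simp only [kf2q2]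
    rw [ef, bf2q2_g v0 v2, ← ecv2q2, ex]
    simp only [pFmu, pFc0, cFBs2, cvF2, pF, pNc0, cNBs2]
    push_cast
    ring
  · rw [← (atF22 o).L]
    show l2q2.v (1 + v) x = _
    have ef : l2q2.v (1 + v) x = cv2p.v (1 + v) * bx2q2.v (1 + v) x := by
      simp only [l2q2]
    rw [ef, bx2q2_g v0 v2, ← ecv2q2, ex, zero_add]
    rfl
theorem p1okF {x : ℝ} : P1Ok PP tKF tL pF 1 57167902 x := by
  refine ⟨fun hq _ => ecv1q1, fun hq _ => (congrFun c1g_v _).symm, fun hq _ => ((atF11 (onc hq (by decide))).K).symm,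
    fun hq _ => ((atF01 ⟨hq, fun _ => on_h (by linarith [hq.2]) (by linarith [hq.1])⟩).K).symm,
    fun hq _ => ((atF11 (onc hq (by decide))).L).symm,
    fun hq _ => ((atF01 ⟨hq, fun _ => on_h (by linarith [hq.2]) (by linarith [hq.1])⟩).L).symm⟩
theorem svF (u : ℝ) : pF.sv.v u = u - ((57167902 : ℕ) : ℝ) / S := by
  rw [S_one]
  simp only [pFma, pFmb, pFmu, pFnx, pFc0, pFkc, pFjc, pFca, pFcb, pFcc, pFsv, pFx11, pFx01, pFK11, pFK01, pFL11, pFL01, kFc0, kFc0g, kFa0_2, kFa0, kFa0g, kFb0, kFb0g, kFd0_2, kFd0, kFd0g, kFe0_2, kFe0, kFe0g, cFxs1, cFsB1_5, cFsB1, cFBs1, cFsX1_5, cFsX1, cFxs2, cFsB2_5, cFsB2, cFBs2, cFsX2_5, cFsX2, nFsc2, nFBv2, nFBm2, nFXv2, nFXm2, nFsc3, nFBv3, nFBm3, nFXv3, nFXm3, nFsc4, nFBv4, nFBm4, nFXv4, nFXm4, l12F, laF, lbF, l1F, l2F, cvF1, cvF2, ndFP2, ndFP3, ndFP4, pF, pNc0, pNk12_3, pNk12, pNj12_3, pNj12, pNk23_3, pNk23,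 pNj23_3, pNj23, pNk13_3, pNk13, pNj13_3, pNj13, pNc12, pNc23, pNc13, pNK11, pNK01, kNc12_0, kNc12_0g, kNc23_0, kNc23_0g, kNc13_0, kNc13_0g, cNsD1_5, cNsD1, cNBs1, cNsD2_5, cNsD2, cNBs2, nNBv2_3, nNBv2, nNBm2_3, nNBm2, nNBv3, nNBm3_3, nNBm3, nNBv4, nNBm4_3, nNBm4, l12N, l23N, l13N, cvN1, cvN2, ndNP2, ndNP3, ndNP4, pN]
  push_cast
  ring
theorem tabN {x : ℝ} : TabOk tKN tL pN 57167902 x := by
  refine ⟨?_, ?_, ?_, ?_⟩
  · intro y h hq hd hh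
    obtain ⟨r0, r1⟩ := h1_rng hq hd hD hDH hh
    have o : OnC (0 : Fin 6) 1 y := ⟨hq, fun _ => on_h (by linarith [hq.2]) (by linarith [hq.1])⟩
    have hc : c1n y = 2 * h - 1 + 3 / 2 * y := by linarith
    rw [← (atN01 o).K]
    show kn0q1.v y x = _
    have e : kn0q1.v y x = (1 + mug3.v x * gug.v x) * kf0q1.v y x + mug3.v x * kp0q1.v y x := by
      simp only [kn0q1]
      push_cast
      ring
    rw [e, kf0q1_g hh, kcP r0 r1, kp0q1_g hc r0 r1]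
    simp only [pFma, pFmb, pFmu, pFnx, pFc0, pFkc, pFjc, pFca, pFcb, pFcc, pFsv, pFx11, pFx01, pFK11, pFK01, pFL11, pFL01, kFc0, kFc0g, kFa0_2, kFa0, kFa0g, kFb0, kFb0g, kFd0_2, kFd0, kFd0g, kFe0_2, kFe0, kFe0g, cFxs1, cFsB1_5, cFsB1, cFBs1, cFsX1_5, cFsX1, cFxs2, cFsB2_5, cFsB2, cFBs2, cFsX2_5, cFsX2, nFsc2, nFBv2, nFBm2, nFXv2, nFXm2, nFsc3, nFBv3, nFBm3, nFXv3, nFXm3, nFsc4, nFBv4, nFBm4, nFXv4, nFXm4, l12F, laF, lbF, l1F, l2F, cvF1, cvF2, ndFP2, ndFP3, ndFP4, pF, pNc0, pNk12_3, pNk12, pNj12_3, pNj12, pNk23_3, pNk23, pNj23_3, pNj23, pNk13_3, pNk13, pNj13_3, pNj13, pNc12, pNc23, pNc13, pNK11, pNK01, kNc12_0, kNc12_0g, kNc23_0, kNc23_0g, kNc13_0, kNc13_0g, cNsD1_5, cNsD1, cNBs1, cNsD2_5, cNsD2, cNBs2, nNBv2_3, nNBv2, nNBm2_3, nNBm2, nNBv3, nNBm3_3, nNBm3, nNBv4, nNBm4_3, nNBm4, l12N, l23N, l13N, cvN1, cvN2, ndNP2, ndNP3, ndNP4, pN, pf_cons,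 pf_nil]
    push_cast
    ring
  · intro y h hq hd hh
    obtain ⟨r0, r1⟩ := h1_rng hq hd hD hDH hh
    have o : OnC (0 : Fin 6) 1 y := ⟨hq, fun _ => on_h (by linarith [hq.2]) (by linarith [hq.1])⟩
    rw [← (atN01 o).L]
    show l0q1.v y x = _
    rw [l0q1_g hh r0 r1]
    simp only [pFma, pFmb, pFmu, pFnx, pFc0, pFkc, pFjc, pFca, pFcb, pFcc, pFsv, pFx11, pFx01, pFK11, pFK01, pFL11, pFL01, kFc0, kFc0g, kFa0_2, kFa0, kFa0g, kFb0, kFb0g, kFd0_2, kFd0, kFd0g, kFe0_2, kFe0, kFe0g, cFxs1, cFsB1_5, cFsB1, cFBs1, cFsX1_5, cFsX1, cFxs2, cFsB2_5, cFsB2, cFBs2, cFsX2_5, cFsX2, nFsc2, nFBv2, nFBm2, nFXv2, nFXm2, nFsc3, nFBv3, nFBm3, nFXv3, nFXm3, nFsc4, nFBv4, nFBm4, nFXv4, nFXm4, l12F, laF, lbF, l1F, l2F, cvF1, cvF2, ndFP2, ndFP3, ndFP4, pF, pNc0, pNk12_3, pNk12, pNj12_3, pNj12, pNk23_3, pNk23, pNj23_3, pNj23, pNk13_3, pNk13, pNj13_3, pNj13, pNc12,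 pNc23, pNc13, pNK11, pNK01, kNc12_0, kNc12_0g, kNc23_0, kNc23_0g, kNc13_0, kNc13_0g, cNsD1_5, cNsD1, cNBs1, cNsD2_5, cNsD2, cNBs2, nNBv2_3, nNBv2, nNBm2_3, nNBm2, nNBv3, nNBm3_3, nNBm3, nNBv4, nNBm4_3, nNBm4, l12N, l23N, l13N, cvN1, cvN2, ndNP2, ndNP3, ndNP4, pN, pf_cons, pf_nil]
    push_cast
    ring
  · intro y h hq hd hh
    obtain ⟨r0, r1⟩ := h2_rng hq hd hD hDH hh
    have hy := on_h (r16 hd) (by linarith [hq.1])
    have o : OnC (0 : Fin 6) 2 y := ⟨hq, fun _ => hy⟩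
    have hc : c1n y = 1 / 2 - h := by linarith
    have ya := yag_v (y := y) (by linarith [hq.1]) hy
    rw [hc] at ya
    rw [← (atN02 o).K, hc]
    show knc02.v (1 / 2 - h) x = _
    have e : knc02.v (1 / 2 - h) x = (1 + mug3.v x * gug.v x) * kfc02.v (1 / 2 - h) x + mug3.v x * kpc02.v (1 / 2 - h) x := by
      simp only [knc02]
      push_cast
      ring
    rw [e, kfc02_g, kcN r0 r1, kpc02_g r0 r1, ya]
    simp only [pFma, pFmb, pFmu, pFnx, pFc0, pFkc, pFjc, pFca, pFcb, pFcc, pFsv, pFx11, pFx01, pFK11, pFK01, pFL11, pFL01, kFc0, kFc0g, kFa0_2, kFa0, kFa0g, kFb0, kFb0g, kFd0_2, kFd0, kFd0g, kFe0_2, kFe0, kFe0g, cFxs1, cFsB1_5, cFsB1, cFBs1, cFsX1_5, cFsX1, cFxs2, cFsB2_5, cFsB2, cFBs2, cFsX2_5, cFsX2, nFsc2, nFBv2, nFBm2, nFXv2, nFXm2, nFsc3, nFBv3, nFBm3, nFXv3, nFXm3, nFsc4, nFBv4, nFBm4, nFXv4, nFXm4, l12F, laF, lbF, l1F, l2F, cvF1,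 cvF2, ndFP2, ndFP3, ndFP4, pF, pNc0, pNk12_3, pNk12, pNj12_3, pNj12, pNk23_3, pNk23, pNj23_3, pNj23, pNk13_3, pNk13, pNj13_3, pNj13, pNc12, pNc23, pNc13, pNK11, pNK01, kNc12_0, kNc12_0g, kNc23_0, kNc23_0g, kNc13_0, kNc13_0g, cNsD1_5, cNsD1, cNBs1, cNsD2_5, cNsD2, cNBs2, nNBv2_3, nNBv2, nNBm2_3, nNBm2, nNBv3, nNBm3_3, nNBm3, nNBv4, nNBm4_3, nNBm4, l12N, l23N, l13N, cvN1, cvN2, ndNP2, ndNP3, ndNP4, pN, pf_cons, pf_nil]
    push_cast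
    ring
  · intro y h hq hd hh
    obtain ⟨r0, r1⟩ := h2_rng hq hd hD hDH hh
    have hy := on_h (r16 hd) (by linarith [hq.1])
    have o : OnC (0 : Fin 6) 2 y := ⟨hq, fun _ => hy⟩
    have hc : c1n y = 1 / 2 - h := by linarith
    rw [← (atN02 o).L, hc]
    show lc02.v (1 / 2 - h) x = _
    rw [lc02_g r0 r1]
    simp only [pFma, pFmb, pFmu, pFnx, pFc0, pFkc, pFjc, pFca, pFcb, pFcc, pFsv, pFx11, pFx01, pFK11, pFK01, pFL11, pFL01, kFc0, kFc0g, kFa0_2, kFa0, kFa0g, kFb0, kFb0g, kFd0_2, kFd0, kFd0g, kFe0_2, kFe0, kFe0g, cFxs1, cFsB1_5, cFsB1, cFBs1, cFsX1_5, cFsX1, cFxs2, cFsB2_5, cFsB2, cFBs2, cFsX2_5, cFsX2, nFsc2, nFBv2, nFBm2, nFXv2, nFXm2, nFsc3, nFBv3, nFBm3, nFXv3, nFXm3, nFsc4, nFBv4, nFBm4, nFXv4, nFXm4, l12F, laF, lbF, l1F, l2F, cvF1, cvF2, ndFP2, ndFP3, ndFP4, pF, pNc0, pNk12_3, pNk12, pNj12_3, pNj12, pNk23_3, pNk23, pNj23_3, pNj23,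 pNk13_3, pNk13, pNj13_3, pNj13, pNc12, pNc23, pNc13, pNK11, pNK01, kNc12_0, kNc12_0g, kNc23_0, kNc23_0g, kNc13_0, kNc13_0g, cNsD1_5, cNsD1, cNBs1, cNsD2_5, cNsD2, cNBs2, nNBv2_3, nNBv2, nNBm2_3, nNBm2, nNBv3, nNBm3_3, nNBm3, nNBv4, nNBm4_3, nNBm4, l12N, l23N, l13N, cvN1, cvN2, ndNP2, ndNP3, ndNP4, pN, pf_cons, pf_nil]
    push_cast
    ring
theorem fitN {x : ℝ} : pN.Fit false 3 x := by
  refine ⟨fun h => mu_v x, ?_, fun h => absurd h (by decide)⟩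
  simp only [pFma, pFmb, pFmu, pFnx, pFc0, pFkc, pFjc, pFca, pFcb, pFcc, pFsv, pFx11, pFx01, pFK11, pFK01, pFL11, pFL01, kFc0, kFc0g, kFa0_2, kFa0, kFa0g, kFb0, kFb0g, kFd0_2, kFd0, kFd0g, kFe0_2, kFe0, kFe0g, cFxs1, cFsB1_5, cFsB1, cFBs1, cFsX1_5, cFsX1, cFxs2, cFsB2_5, cFsB2, cFBs2, cFsX2_5, cFsX2, nFsc2, nFBv2, nFBm2, nFXv2, nFXm2, nFsc3, nFBv3, nFBm3, nFXv3, nFXm3, nFsc4, nFBv4, nFBm4, nFXv4, nFXm4, l12F, laF, lbF, l1F, l2F, cvF1, cvF2, ndFP2, ndFP3, ndFP4, pF, pNc0, pNk12_3, pNk12, pNj12_3, pNj12, pNk23_3, pNk23, pNj23_3, pNj23, pNk13_3, pNk13, pNj13_3, pNj13, pNc12, pNc23, pNc13, pNK11, pNK01, kNc12_0, kNc12_0g, kNc23_0, kNc23_0g, kNc13_0, kNc13_0g, cNsD1_5, cNsD1, cNBs1, cNsD2_5, cNsD2, cNBs2, nNBv2_3, nNBv2, nNBm2_3, nNBm2, nNBv3, nNBm3_3, nNBm3, nNBv4, nNBm4_3, nNBm4, l12N, l23N, l13N, cvN1, cvN2, ndNP2, ndNP3, ndNP4, pN]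
  push_cast
  ring
theorem sdNC {x : ℝ} : SdOk PP tKN tL pN (dgSC pN) 5 11758673 x := by
  refine sdC rfl ?_ ?_
  · intro Y t h q3 i3 ht hh
    obtain ⟨r0, r1⟩ := h3_rng q3 i3 ht (by norm_num) (by norm_num) hD3H hh
    have hy := ycg_v (y := Y) (by linarith [q3.1]) q3.2
    rw [← ht] at hy
    rw [← (atN53 (onc q3 (by decide))).K, ← ht]
    show knc53.v t x = _
    have e : knc53.v t x = (1 + mug3.v x * gug.v x) * kfc53.v t x + mug3.v x * kpc53.v t x := by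
      simp only [knc53]
      push_cast
      ring
    rw [e, kfc53_g hy hh, kcP r0 r1, kpc53_g hy hh r0 r1]
    simp only [pFma, pFmb, pFmu, pFnx, pFc0, pFkc, pFjc, pFca, pFcb, pFcc, pFsv, pFx11, pFx01, pFK11, pFK01, pFL11, pFL01, kFc0, kFc0g, kFa0_2, kFa0, kFa0g, kFb0, kFb0g, kFd0_2, kFd0, kFd0g, kFe0_2, kFe0, kFe0g, cFxs1, cFsB1_5, cFsB1, cFBs1, cFsX1_5, cFsX1, cFxs2, cFsB2_5, cFsB2, cFBs2, cFsX2_5, cFsX2, nFsc2, nFBv2, nFBm2, nFXv2, nFXm2, nFsc3, nFBv3, nFBm3, nFXv3, nFXm3, nFsc4, nFBv4, nFBm4, nFXv4, nFXm4, l12F, laF, lbF, l1F, l2F, cvF1, cvF2, ndFP2, ndFP3, ndFP4, pF, pNc0, pNk12_3, pNk12, pNj12_3, pNj12, pNk23_3, pNk23, pNj23_3, pNj23, pNk13_3, pNk13, pNj13_3, pNj13, pNc12, pNc23, pNc13, pNK11, pNK01, kNc12_0, kNc12_0g, kNc23_0, kNc23_0g, kNc13_0, kNc13_0g, cNsD1_5, cNsD1, cNBs1, cNsD2_5, cNsD2, cNBs2, nNBv2_3, nNBv2, nNBm2_3, nNBm2,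 nNBv3, nNBm3_3, nNBm3, nNBv4, nNBm4_3, nNBm4, l12N, l23N, l13N, cvN1, cvN2, ndNP2, ndNP3, ndNP4, pN, pf_cons, pf_nil]
    push_cast
    ring
  · intro Y t h q3 i3 ht hh
    obtain ⟨r0, r1⟩ := h3_rng q3 i3 ht (by norm_num) (by norm_num) hD3H hh
    have hy := ycg_v (y := Y) (by linarith [q3.1]) q3.2
    rw [← ht] at hy
    rw [← (atN53 (onc q3 (by decide))).L, ← ht]
    show lc53.v t x = _
    rw [lc53_g hy hh r0 r1]
    simp only [pFma, pFmb, pFmu, pFnx, pFc0, pFkc, pFjc, pFca, pFcb, pFcc, pFsv, pFx11, pFx01, pFK11, pFK01, pFL11, pFL01, kFc0, kFc0g, kFa0_2, kFa0, kFa0g, kFb0, kFb0g, kFd0_2, kFd0, kFd0g, kFe0_2, kFe0, kFe0g, cFxs1, cFsB1_5, cFsB1, cFBs1, cFsX1_5, cFsX1, cFxs2, cFsB2_5, cFsB2, cFBs2, cFsX2_5, cFsX2, nFsc2, nFBv2, nFBm2, nFXv2, nFXm2, nFsc3, nFBv3, nFBm3, nFXv3, nFXm3, nFsc4, nFBv4, nFBm4, nFXv4, nFXm4, l12F, laF, lbF, l1F,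 l2F, cvF1, cvF2, ndFP2, ndFP3, ndFP4, pF, pNc0, pNk12_3, pNk12, pNj12_3, pNj12, pNk23_3, pNk23, pNj23_3, pNj23, pNk13_3, pNk13, pNj13_3, pNj13, pNc12, pNc23, pNc13, pNK11, pNK01, kNc12_0, kNc12_0g, kNc23_0, kNc23_0g, kNc13_0, kNc13_0g, cNsD1_5, cNsD1, cNBs1, cNsD2_5, cNsD2, cNBs2, nNBv2_3, nNBv2, nNBm2_3, nNBm2, nNBv3, nNBm3_3, nNBm3, nNBv4, nNBm4_3, nNBm4, l12N, l23N, l13N, cvN1, cvN2, ndNP2, ndNP3, ndNP4, pN, pf_cons, pf_nil]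
    push_cast
    ring
theorem nlN2 {x : ℝ} : NlOk PP tKN tL ndNP2 2 11758673 x := by
  have hr : PP.ρ 2 = 9 / 10 := rfl
  refine ⟨by rw [hr]; norm_num, fun u => ?_, fun {Y} q3 i3 => ?_, fun {Y} q3 i3 => ?_⟩
  · rw [hr]
    simp only [pFma, pFmb, pFmu, pFnx, pFc0, pFkc, pFjc, pFca, pFcb, pFcc, pFsv, pFx11, pFx01, pFK11, pFK01, pFL11, pFL01, kFc0, kFc0g, kFa0_2, kFa0, kFa0g, kFb0, kFb0g, kFd0_2, kFd0, kFd0g, kFe0_2, kFe0, kFe0g, cFxs1, cFsB1_5, cFsB1, cFBs1, cFsX1_5, cFsX1, cFxs2, cFsB2_5, cFsB2, cFBs2, cFsX2_5, cFsX2, nFsc2, nFBv2, nFBm2, nFXv2, nFXm2, nFsc3, nFBv3, nFBm3, nFXv3, nFXm3, nFsc4, nFBv4, nFBm4, nFXv4, nFXm4, l12F, laF, lbF, l1F, l2F, cvF1, cvF2, ndFP2, ndFP3, ndFP4, pF, pNc0, pNk12_3, pNk12, pNj12_3, pNj12, pNk23_3, pNk23, pNj23_3, pNj23, pNk13_3, pNk13, pNj13_3, pNj13, pNc12, pNc23, pNc13, pNK11, pNK01, kNc12_0, kNc12_0g, kNc23_0,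 kNc23_0g, kNc13_0, kNc13_0g, cNsD1_5, cNsD1, cNBs1, cNsD2_5, cNsD2, cNBs2, nNBv2_3, nNBv2, nNBm2_3, nNBm2, nNBv3, nNBm3_3, nNBm3, nNBv4, nNBm4_3, nNBm4, l12N, l23N, l13N, cvN1, cvN2, ndNP2, ndNP3, ndNP4, pN]
    push_cast
    ring
  · have h2 : (2135724975 / 1073741824) < Y := by
      have := (abs_lt.1 i3).1
      rw [S_one] at this
      norm_num at this
      linarith
    rw [← (atN23 (onc q3 (by decide))).K]
    show kn2q3.v Y x = _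
    have e : kn2q3.v Y x = (1 + mug3.v x * gug.v x) * kf2q3.v Y x + mug3.v x * kp2q3.v Y x := by
      simp only [kn2q3]
      push_cast
      ring
    have ef : kf2q3.v Y x = crv PP 2 3 Y * bf2q3.v Y x := by
      rw [ecv2q3 q3.1]
      simp only [kf2q3]
    have ed : kp2q3.v Y x = crv PP 2 3 Y * bd2q3.v Y x := by
      rw [ecv2q3 q3.1]
      simp only [kp2q3]
    rw [e, ef, ed, bf2q3_g h2 q3.2, bd2q3_g h2 q3.2]
    simp only [pFma, pFmb, pFmu, pFnx, pFc0, pFkc, pFjc, pFca, pFcb, pFcc, pFsv, pFx11, pFx01, pFK11, pFK01, pFL11, pFL01, kFc0, kFc0g, kFa0_2, kFa0, kFa0g, kFb0, kFb0g, kFd0_2, kFd0, kFd0g, kFe0_2, kFe0, kFe0g, cFxs1, cFsB1_5, cFsB1, cFBs1, cFsX1_5, cFsX1, cFxs2, cFsB2_5, cFsB2, cFBs2, cFsX2_5, cFsX2, nFsc2, nFBv2, nFBm2, nFXv2, nFXm2, nFsc3, nFBv3, nFBm3, nFXv3, nFXm3, nFsc4, nFBv4, nFBm4, nFXv4, nFXm4, l12F, laF, lbF, l1F, l2F,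 cvF1, cvF2, ndFP2, ndFP3, ndFP4, pF, pNc0, pNk12_3, pNk12, pNj12_3, pNj12, pNk23_3, pNk23, pNj23_3, pNj23, pNk13_3, pNk13, pNj13_3, pNj13, pNc12, pNc23, pNc13, pNK11, pNK01, kNc12_0, kNc12_0g, kNc23_0, kNc23_0g, kNc13_0, kNc13_0g, cNsD1_5, cNsD1, cNBs1, cNsD2_5, cNsD2, cNBs2, nNBv2_3, nNBv2, nNBm2_3, nNBm2, nNBv3, nNBm3_3, nNBm3, nNBv4, nNBm4_3, nNBm4, l12N, l23N, l13N, cvN1, cvN2, ndNP2, ndNP3, ndNP4, pN, pf_cons, pf_nil]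
    push_cast
    ring
  · have h2 : (2135724975 / 1073741824) < Y := by
      have := (abs_lt.1 i3).1
      rw [S_one] at this
      norm_num at this
      linarith
    rw [← (atN23 (onc q3 (by decide))).L]
    show l2q3.v Y x = _
    have ef : l2q3.v Y x = crv PP 2 3 Y * bx2q3.v Y x := by
      rw [ecv2q3 q3.1]
      simp only [l2q3]
    rw [ef, bx2q3_g h2 q3.2]
    simp only [pFma, pFmb, pFmu, pFnx, pFc0, pFkc, pFjc, pFca, pFcb, pFcc, pFsv, pFx11, pFx01, pFK11, pFK01, pFL11, pFL01, kFc0, kFc0g, kFa0_2, kFa0, kFa0g, kFb0, kFb0g, kFd0_2, kFd0, kFd0g, kFe0_2, kFe0, kFe0g, cFxs1, cFsB1_5, cFsB1, cFBs1, cFsX1_5, cFsX1, cFxs2, cFsB2_5, cFsB2, cFBs2, cFsX2_5, cFsX2, nFsc2, nFBv2, nFBm2, nFXv2, nFXm2, nFsc3, nFBv3, nFBm3, nFXv3, nFXm3, nFsc4, nFBv4, nFBm4, nFXv4, nFXm4, l12F, laF, lbF, l1F, l2F, cvF1, cvF2, ndFP2, ndFP3, ndFP4, pF, pNc0, pNk12_3,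 pNk12, pNj12_3, pNj12, pNk23_3, pNk23, pNj23_3, pNj23, pNk13_3, pNk13, pNj13_3, pNj13, pNc12, pNc23, pNc13, pNK11, pNK01, kNc12_0, kNc12_0g, kNc23_0, kNc23_0g, kNc13_0, kNc13_0g, cNsD1_5, cNsD1, cNBs1, cNsD2_5, cNsD2, cNBs2, nNBv2_3, nNBv2, nNBm2_3, nNBm2, nNBv3, nNBm3_3, nNBm3, nNBv4, nNBm4_3, nNBm4, l12N, l23N, l13N, cvN1, cvN2, ndNP2, ndNP3, ndNP4, pN, pf_cons, pf_nil]
    push_cast
    ring
theorem sdN2 {x : ℝ} : SdOk PP tKN tL pN (dgSL pN ndNP2) 2 11758673 x := nlN2.sd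
theorem sdN3 {x : ℝ} : SdOk PP tKN tL pN (dgSR ndNP3) 3 11758673 x := by
  have hr : PP.ρ 3 = 6 / 5 := rfl
  intro Y' t' a1 a2 a3 a4
  refine sdR (P := PP) (RK := tKN) (RL := tL) (p := pN) (N := ndNP3) (j := 3) (D3 := 11758673) (x := x) (by rw [hr]; norm_num) ?_ ?_ ?_ a1 a2 a3 a4
  · intro u
    rw [hr]
    simp only [pFma, pFmb, pFmu, pFnx, pFc0, pFkc, pFjc, pFca, pFcb, pFcc, pFsv, pFx11, pFx01, pFK11, pFK01, pFL11, pFL01, kFc0, kFc0g, kFa0_2, kFa0, kFa0g, kFb0, kFb0g, kFd0_2, kFd0, kFd0g, kFe0_2, kFe0, kFe0g, cFxs1, cFsB1_5, cFsB1, cFBs1, cFsX1_5, cFsX1, cFxs2, cFsB2_5, cFsB2, cFBs2, cFsX2_5, cFsX2, nFsc2, nFBv2, nFBm2, nFXv2, nFXm2, nFsc3, nFBv3, nFBm3, nFXv3, nFXm3, nFsc4, nFBv4, nFBm4, nFXv4, nFXm4, l12F, laF, lbF, l1F, l2F, cvF1, cvF2, ndFP2, ndFP3, ndFP4, pF, pNc0, pNk12_3, pNk12, pNj12_3, pNj12, pNk23_3, pNk23, pNj23_3, pNj23, pNk13_3,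 pNk13, pNj13_3, pNj13, pNc12, pNc23, pNc13, pNK11, pNK01, kNc12_0, kNc12_0g, kNc23_0, kNc23_0g, kNc13_0, kNc13_0g, cNsD1_5, cNsD1, cNBs1, cNsD2_5, cNsD2, cNBs2, nNBv2_3, nNBv2, nNBm2_3, nNBm2, nNBv3, nNBm3_3, nNBm3, nNBv4, nNBm4_3, nNBm4, l12N, l23N, l13N, cvN1, cvN2, ndNP2, ndNP3, ndNP4, pN]
    push_cast
    ring
  · intro Y q3 i3
    have h2 : (2135724975 / 1073741824) < Y := by
      have := (abs_lt.1 i3).1
      rw [S_one] at this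
      norm_num at this
      linarith
    have hy := ycg_v (y := Y) (by linarith [q3.1]) q3.2
    rw [← (atN33 (onc q3 (by decide))).K]
    show knc33.v (c3n Y) x = _
    have e : knc33.v (c3n Y) x = (1 + mug3.v x * gug.v x) * kfc33.v (c3n Y) x + mug3.v x * kpc33.v (c3n Y) x := by
      simp only [knc33]
      push_cast
      ring
    have ef : kfc33.v (c3n Y) x = crv PP 3 3 Y * bf3q3.v Y x := by
      rw [ecv3q3 q3.1, cv3r_v]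
      simp only [kfc33, hy, swg_v]
      push_cast
      ring
    have ed : kpc33.v (c3n Y) x = crv PP 3 3 Y * bd3q3.v Y x := by
      rw [ecv3q3 q3.1, cv3r_v]
      simp only [kpc33, hy, swg_v]
      push_cast
      ring
    rw [e, ef, ed, bf3q3_g h2 q3.2, bd3q3_g h2 q3.2]
    simp only [pFma, pFmb, pFmu, pFnx, pFc0, pFkc, pFjc, pFca, pFcb, pFcc, pFsv, pFx11, pFx01, pFK11, pFK01, pFL11, pFL01, kFc0, kFc0g, kFa0_2, kFa0, kFa0g, kFb0, kFb0g, kFd0_2, kFd0, kFd0g, kFe0_2, kFe0, kFe0g, cFxs1, cFsB1_5, cFsB1, cFBs1, cFsX1_5, cFsX1, cFxs2, cFsB2_5, cFsB2, cFBs2, cFsX2_5, cFsX2, nFsc2, nFBv2, nFBm2, nFXv2, nFXm2, nFsc3, nFBv3, nFBm3, nFXv3, nFXm3, nFsc4, nFBv4, nFBm4, nFXv4, nFXm4, l12F, laF, lbF, l1F, l2F, cvF1, cvF2, ndFP2, ndFP3, ndFP4, pF, pNc0, pNk12_3, pNk12, pNj12_3, pNj12, pNk23_3, pNk23, pNj23_3, pNj23, pNk13_3, pNk13, pNj13_3, pNj13,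 pNc12, pNc23, pNc13, pNK11, pNK01, kNc12_0, kNc12_0g, kNc23_0, kNc23_0g, kNc13_0, kNc13_0g, cNsD1_5, cNsD1, cNBs1, cNsD2_5, cNsD2, cNBs2, nNBv2_3, nNBv2, nNBm2_3, nNBm2, nNBv3, nNBm3_3, nNBm3, nNBv4, nNBm4_3, nNBm4, l12N, l23N, l13N, cvN1, cvN2, ndNP2, ndNP3, ndNP4, pN, pf_cons, pf_nil]
    push_cast
    ring
  · intro Y q3 i3
    have h2 : (2135724975 / 1073741824) < Y := by
      have := (abs_lt.1 i3).1
      rw [S_one] at this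
      norm_num at this
      linarith
    have hy := ycg_v (y := Y) (by linarith [q3.1]) q3.2
    rw [← (atN33 (onc q3 (by decide))).L]
    show lc33.v (c3n Y) x = _
    have ef : lc33.v (c3n Y) x = crv PP 3 3 Y * bx3q3.v Y x := by
      rw [ecv3q3 q3.1, cv3r_v]
      simp only [lc33, hy, swg_v]
      push_cast
      ring
    rw [ef, bx3q3_g h2 q3.2]
    simp only [dga3c, pFma, pFmb, pFmu, pFnx, pFc0, pFkc, pFjc, pFca, pFcb, pFcc, pFsv, pFx11, pFx01, pFK11, pFK01, pFL11, pFL01, kFc0, kFc0g, kFa0_2, kFa0, kFa0g, kFb0, kFb0g, kFd0_2, kFd0, kFd0g, kFe0_2, kFe0, kFe0g, cFxs1, cFsB1_5, cFsB1, cFBs1, cFsX1_5, cFsX1, cFxs2, cFsB2_5, cFsB2, cFBs2, cFsX2_5, cFsX2, nFsc2, nFBv2, nFBm2, nFXv2, nFXm2, nFsc3, nFBv3, nFBm3, nFXv3, nFXm3, nFsc4, nFBv4, nFBm4, nFXv4, nFXm4, l12F, laF, lbF, l1F, l2F, cvF1, cvF2, ndFP2, ndFP3, ndFP4, pF, pNc0, pNk12_3, pNk12,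 pNj12_3, pNj12, pNk23_3, pNk23, pNj23_3, pNj23, pNk13_3, pNk13, pNj13_3, pNj13, pNc12, pNc23, pNc13, pNK11, pNK01, kNc12_0, kNc12_0g, kNc23_0, kNc23_0g, kNc13_0, kNc13_0g, cNsD1_5, cNsD1, cNBs1, cNsD2_5, cNsD2, cNBs2, nNBv2_3, nNBv2, nNBm2_3, nNBm2, nNBv3, nNBm3_3, nNBm3, nNBv4, nNBm4_3, nNBm4, l12N, l23N, l13N, cvN1, cvN2, ndNP2, ndNP3, ndNP4, pN]
    push_cast
    ring
theorem sdN4 {x : ℝ} : SdOk PP tKN tL pN (dgSR ndNP4) 4 11758673 x := by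
  have hr : PP.ρ 4 = 8 / 5 := rfl
  intro Y' t' a1 a2 a3 a4
  refine sdR (P := PP) (RK := tKN) (RL := tL) (p := pN) (N := ndNP4) (j := 4) (D3 := 11758673) (x := x) (by rw [hr]; norm_num) ?_ ?_ ?_ a1 a2 a3 a4
  · intro u
    rw [hr]
    simp only [pFma, pFmb, pFmu, pFnx, pFc0, pFkc, pFjc, pFca, pFcb, pFcc, pFsv, pFx11, pFx01, pFK11, pFK01, pFL11, pFL01, kFc0, kFc0g, kFa0_2, kFa0, kFa0g, kFb0, kFb0g, kFd0_2, kFd0, kFd0g, kFe0_2, kFe0, kFe0g, cFxs1, cFsB1_5, cFsB1, cFBs1, cFsX1_5, cFsX1, cFxs2, cFsB2_5, cFsB2, cFBs2, cFsX2_5, cFsX2, nFsc2, nFBv2, nFBm2, nFXv2, nFXm2, nFsc3, nFBv3, nFBm3, nFXv3, nFXm3, nFsc4, nFBv4, nFBm4, nFXv4, nFXm4, l12F, laF, lbF, l1F, l2F, cvF1, cvF2, ndFP2, ndFP3, ndFP4, pF, pNc0, pNk12_3, pNk12, pNj12_3, pNj12, pNk23_3, pNk23, pNj23_3, pNj23, pNk13_3, pNk13, pNj13_3, pNj13, pNc12, pNc23, pNc13, pNK11, pNK01, kNc12_0,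 kNc12_0g, kNc23_0, kNc23_0g, kNc13_0, kNc13_0g, cNsD1_5, cNsD1, cNBs1, cNsD2_5, cNsD2, cNBs2, nNBv2_3, nNBv2, nNBm2_3, nNBm2, nNBv3, nNBm3_3, nNBm3, nNBv4, nNBm4_3, nNBm4, l12N, l23N, l13N, cvN1, cvN2, ndNP2, ndNP3, ndNP4, pN]
    push_cast
    ring
  · intro Y q3 i3
    have h2 : (2135724975 / 1073741824) < Y := by
      have := (abs_lt.1 i3).1
      rw [S_one] at this
      norm_num at this
      linarith
    have hy := ycg_v (y := Y) (by linarith [q3.1]) q3.2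
    rw [← (atN43 (onc q3 (by decide))).K]
    show knc43.v (c3n Y) x = _
    have e : knc43.v (c3n Y) x = (1 + mug3.v x * gug.v x) * kfc43.v (c3n Y) x + mug3.v x * kpc43.v (c3n Y) x := by
      simp only [knc43]
      push_cast
      ring
    have ef : kfc43.v (c3n Y) x = crv PP 4 3 Y * bf4q3.v Y x := by
      rw [ecv4q3 q3.1, cv4r_v]
      simp only [kfc43, hy, swg_v]
      push_cast
      ring
    have ed : kpc43.v (c3n Y) x = crv PP 4 3 Y * bd4q3.v Y x := by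
      rw [ecv4q3 q3.1, cv4r_v]
      simp only [kpc43, hy, swg_v]
      push_cast
      ring
    rw [e, ef, ed, bf4q3_g h2 q3.2, bd4q3_g h2 q3.2]
    simp only [pFma, pFmb, pFmu, pFnx, pFc0, pFkc, pFjc, pFca, pFcb, pFcc, pFsv, pFx11, pFx01, pFK11, pFK01, pFL11, pFL01, kFc0, kFc0g, kFa0_2, kFa0, kFa0g, kFb0, kFb0g, kFd0_2, kFd0, kFd0g, kFe0_2, kFe0, kFe0g, cFxs1, cFsB1_5, cFsB1, cFBs1, cFsX1_5, cFsX1, cFxs2, cFsB2_5, cFsB2, cFBs2, cFsX2_5, cFsX2, nFsc2, nFBv2, nFBm2, nFXv2, nFXm2, nFsc3, nFBv3, nFBm3, nFXv3, nFXm3, nFsc4, nFBv4, nFBm4, nFXv4, nFXm4, l12F, laF, lbF, l1F, l2F, cvF1, cvF2, ndFP2, ndFP3, ndFP4, pF, pNc0, pNk12_3, pNk12, pNj12_3, pNj12, pNk23_3, pNk23, pNj23_3, pNj23, pNk13_3, pNk13, pNj13_3, pNj13, pNc12, pNc23, pNc13, pNK11, pNK01, kNc12_0, kNc12_0g, kNc23_0, kNc23_0g, kNc13_0, kNc13_0g, cNsD1_5, cNsD1, cNBs1, cNsD2_5, cNsD2,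 cNBs2, nNBv2_3, nNBv2, nNBm2_3, nNBm2, nNBv3, nNBm3_3, nNBm3, nNBv4, nNBm4_3, nNBm4, l12N, l23N, l13N, cvN1, cvN2, ndNP2, ndNP3, ndNP4, pN, pf_cons, pf_nil]
    push_cast
    ring
  · intro Y q3 i3
    have h2 : (2135724975 / 1073741824) < Y := by
      have := (abs_lt.1 i3).1
      rw [S_one] at this
      norm_num at this
      linarith
    have hy := ycg_v (y := Y) (by linarith [q3.1]) q3.2
    rw [← (atN43 (onc q3 (by decide))).L]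
    show lc43.v (c3n Y) x = _
    have ef : lc43.v (c3n Y) x = crv PP 4 3 Y * bx4q3.v Y x := by
      rw [ecv4q3 q3.1, cv4r_v]
      simp only [lc43, hy, swg_v]
      push_cast
      ring
    rw [ef, bx4q3_g h2 q3.2]
    simp only [dga3c, pFma, pFmb, pFmu, pFnx, pFc0, pFkc, pFjc, pFca, pFcb, pFcc, pFsv, pFx11, pFx01, pFK11, pFK01, pFL11, pFL01, kFc0, kFc0g, kFa0_2, kFa0, kFa0g, kFb0, kFb0g, kFd0_2, kFd0, kFd0g, kFe0_2, kFe0, kFe0g, cFxs1, cFsB1_5, cFsB1, cFBs1, cFsX1_5, cFsX1, cFxs2, cFsB2_5, cFsB2, cFBs2, cFsX2_5, cFsX2, nFsc2, nFBv2, nFBm2, nFXv2, nFXm2, nFsc3, nFBv3, nFBm3, nFXv3, nFXm3, nFsc4, nFBv4, nFBm4, nFXv4, nFXm4, l12F, laF, lbF, l1F, l2F, cvF1, cvF2, ndFP2, ndFP3, ndFP4, pF, pNc0, pNk12_3, pNk12, pNj12_3, pNj12, pNk23_3, pNk23, pNj23_3, pNj23, pNk13_3, pNk13, pNj13_3, pNj13, pNc12, pNc23, pNc13, pNK11, pNK01, kNc12_0, kNc12_0g,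 kNc23_0, kNc23_0g, kNc13_0, kNc13_0g, cNsD1_5, cNsD1, cNBs1, cNsD2_5, cNsD2, cNBs2, nNBv2_3, nNBv2, nNBm2_3, nNBm2, nNBv3, nNBm3_3, nNBm3, nNBv4, nNBm4_3, nNBm4, l12N, l23N, l13N, cvN1, cvN2, ndNP2, ndNP3, ndNP4, pN]
    push_cast
    ring
theorem cvokN1 {x : ℝ} : CvOk PP tKN tL pN cvN1 1 57167902 x := by
  intro v v0 v1
  have v2 : v < (28583951 / 536870912) := by
    rw [S_one] at v1
    norm_num at v1
    linarith
  have hxi := dgxi_v v0 (by linarith)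
  have hws := dgws_v v0 (by linarith)
  have q2 : InQ 2 (1 + v) := ⟨by linarith, by linarith⟩
  have o : OnC (1 : Fin 6) 2 (1 + v) := onc q2 (by decide)
  have ex : crv PP 1 2 (1 + v) = 1 / 2 - v * cvN1.xs.v v := by
    rw [ecv1q2, cv1p_v, hxi, hws]
    simp only [pFma, pFmb, pFmu, pFnx, pFc0, pFkc, pFjc, pFca, pFcb, pFcc, pFsv, pFx11, pFx01, pFK11, pFK01, pFL11, pFL01, kFc0, kFc0g, kFa0_2, kFa0, kFa0g, kFb0, kFb0g, kFd0_2, kFd0, kFd0g, kFe0_2, kFe0, kFe0g, cFxs1, cFsB1_5, cFsB1, cFBs1, cFsX1_5, cFsX1, cFxs2, cFsB2_5, cFsB2, cFBs2, cFsX2_5, cFsX2, nFsc2, nFBv2, nFBm2, nFXv2, nFXm2, nFsc3, nFBv3, nFBm3, nFXv3, nFXm3, nFsc4, nFBv4, nFBm4, nFXv4, nFXm4, l12F, laF, lbF, l1F, l2F, cvF1, cvF2, ndFP2, ndFP3, ndFP4, pF, pNc0, pNk12_3, pNk12, pNj12_3, pNj12, pNk23_3, pNk23, pNj23_3, pNj23, pNk13_3, pNk13, pNj13_3, pNj13, pNc12, pNc23, pNc13, pNK11,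 pNK01, kNc12_0, kNc12_0g, kNc23_0, kNc23_0g, kNc13_0, kNc13_0g, cNsD1_5, cNsD1, cNBs1, cNsD2_5, cNsD2, cNBs2, nNBv2_3, nNBv2, nNBm2_3, nNBm2, nNBv3, nNBm3_3, nNBm3, nNBv4, nNBm4_3, nNBm4, l12N, l23N, l13N, cvN1, cvN2, ndNP2, ndNP3, ndNP4, pN]
    push_cast
    ring
  refine ⟨ex, ?_, ?_⟩
  · rw [← (atN12 o).K]
    show kn1q2.v (1 + v) x = _
    have e : kn1q2.v (1 + v) x = (1 + mug3.v x * gug.v x) * kf1q2.v (1 + v) x + mug3.v x * kp1q2.v (1 + v) x := by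
      simp only [kn1q2]
      push_cast
      ring
    have ef : kf1q2.v (1 + v) x = cv1p.v (1 + v) * bf1q2.v (1 + v) x := by
      simp only [kf1q2]
    have ed : kp1q2.v (1 + v) x = cv1p.v (1 + v) * bd1q2.v (1 + v) x := by
      simp only [kp1q2]
    rw [e, ef, ed, bf1q2_g v0 v2, bd1q2_g v0 v2, ← ecv1q2, ex]
    simp only [pFmu, pFc0, cFBs1, pNc0, cNBs1, cvN1, pN]
    push_cast
    ring
  · rw [← (atN12 o).L]
    show l1q2.v (1 + v) x = _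
    have ef : l1q2.v (1 + v) x = cv1p.v (1 + v) * bx1q2.v (1 + v) x := by
      simp only [l1q2]
    rw [ef, bx1q2_g v0 v2, ← ecv1q2, ex, zero_add]
    rfl
theorem cvokN2 {x : ℝ} : CvOk PP tKN tL pN cvN2 2 57167902 x := by
  intro v v0 v1
  have v2 : v < (28583951 / 536870912) := by
    rw [S_one] at v1
    norm_num at v1
    linarith
  have hxi := dgxi_v v0 (by linarith)
  have hws := dgws_v v0 (by linarith)
  have q2 : InQ 2 (1 + v) := ⟨by linarith, by linarith⟩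
  have o : OnC (2 : Fin 6) 2 (1 + v) := onc q2 (by decide)
  have ex : crv PP 2 2 (1 + v) = 1 / 2 - v * cvN2.xs.v v := by
    rw [ecv2q2, cv2p_v, hxi, hws]
    simp only [pFma, pFmb, pFmu, pFnx, pFc0, pFkc, pFjc, pFca, pFcb, pFcc, pFsv, pFx11, pFx01, pFK11, pFK01, pFL11, pFL01, kFc0, kFc0g, kFa0_2, kFa0, kFa0g, kFb0, kFb0g, kFd0_2, kFd0, kFd0g, kFe0_2, kFe0, kFe0g, cFxs1, cFsB1_5, cFsB1, cFBs1, cFsX1_5, cFsX1, cFxs2, cFsB2_5, cFsB2, cFBs2, cFsX2_5, cFsX2, nFsc2, nFBv2, nFBm2, nFXv2, nFXm2, nFsc3, nFBv3, nFBm3, nFXv3, nFXm3, nFsc4, nFBv4, nFBm4, nFXv4, nFXm4, l12F, laF, lbF, l1F, l2F, cvF1, cvF2, ndFP2, ndFP3, ndFP4, pF, pNc0, pNk12_3, pNk12, pNj12_3, pNj12, pNk23_3, pNk23, pNj23_3, pNj23, pNk13_3, pNk13, pNj13_3, pNj13, pNc12, pNc23, pNc13, pNK11, pNK01, kNc12_0, kNc12_0g, kNc23_0, kNc23_0g, kNc13_0, kNc13_0g, cNsD1_5, cNsD1, cNBs1, cNsD2_5,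 cNsD2, cNBs2, nNBv2_3, nNBv2, nNBm2_3, nNBm2, nNBv3, nNBm3_3, nNBm3, nNBv4, nNBm4_3, nNBm4, l12N, l23N, l13N, cvN1, cvN2, ndNP2, ndNP3, ndNP4, pN]
    push_cast
    ring
  refine ⟨ex, ?_, ?_⟩
  · rw [← (atN22 o).K]
    show kn2q2.v (1 + v) x = _
    have e : kn2q2.v (1 + v) x = (1 + mug3.v x * gug.v x) * kf2q2.v (1 + v) x + mug3.v x * kp2q2.v (1 + v) x := by
      simp only [kn2q2]
      push_cast
      ring
    have ef : kf2q2.v (1 + v) x = cv2p.v (1 + v) * bf2q2.v (1 + v) x := by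
      simp only [kf2q2]
    have ed : kp2q2.v (1 + v) x = cv2p.v (1 + v) * bd2q2.v (1 + v) x := by
      simp only [kp2q2]
    rw [e, ef, ed, bf2q2_g v0 v2, bd2q2_g v0 v2, ← ecv2q2, ex]
    simp only [pFmu, pFc0, cFBs2, pNc0, cNBs2, cvN2, pN]
    push_cast
    ring
  · rw [← (atN22 o).L]
    show l2q2.v (1 + v) x = _
    have ef : l2q2.v (1 + v) x = cv2p.v (1 + v) * bx2q2.v (1 + v) x := by
      simp only [l2q2]
    rw [ef, bx2q2_g v0 v2, ← ecv2q2, ex, zero_add]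
    rfl
theorem p1okN {x : ℝ} : P1Ok PP tKN tL pN 1 57167902 x := by
  refine ⟨fun hq _ => ecv1q1, fun hq _ => (congrFun c1g_v _).symm, fun hq _ => ((atN11 (onc hq (by decide))).K).symm,
    fun hq _ => ((atN01 ⟨hq, fun _ => on_h (by linarith [hq.2]) (by linarith [hq.1])⟩).K).symm,
    fun hq _ => ((atN11 (onc hq (by decide))).L).symm,
    fun hq _ => ((atN01 ⟨hq, fun _ => on_h (by linarith [hq.2]) (by linarith [hq.1])⟩).L).symm⟩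
theorem svN (u : ℝ) : pN.sv.v u = u - ((57167902 : ℕ) : ℝ) / S := by
  rw [S_one]
  simp only [pFma, pFmb, pFmu, pFnx, pFc0, pFkc, pFjc, pFca, pFcb, pFcc, pFsv, pFx11, pFx01, pFK11, pFK01, pFL11, pFL01, kFc0, kFc0g, kFa0_2, kFa0, kFa0g, kFb0, kFb0g, kFd0_2, kFd0, kFd0g, kFe0_2, kFe0, kFe0g, cFxs1, cFsB1_5, cFsB1, cFBs1, cFsX1_5, cFsX1, cFxs2, cFsB2_5, cFsB2, cFBs2, cFsX2_5, cFsX2, nFsc2, nFBv2, nFBm2, nFXv2, nFXm2, nFsc3, nFBv3, nFBm3, nFXv3, nFXm3, nFsc4, nFBv4, nFBm4, nFXv4, nFXm4, l12F, laF, lbF, l1F, l2F, cvF1, cvF2, ndFP2, ndFP3, ndFP4, pF, pNc0, pNk12_3, pNk12, pNj12_3, pNj12, pNk23_3, pNk23, pNj23_3, pNj23, pNk13_3, pNk13, pNj13_3, pNj13, pNc12, pNc23, pNc13, pNK11, pNK01, kNc12_0, kNc12_0g, kNc23_0, kNc23_0g, kNc13_0, kNc13_0g, cNsD1_5, cNsD1, cNBs1, cNsD2_5, cNsD2, cNBs2, nNBv2_3, nNBv2, nNBm2_3, nNBm2, nNBv3, nNBm3_3, nNBm3, nNBv4,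 nNBm4_3, nNBm4, l12N, l23N, l13N, cvN1, cvN2, ndNP2, ndNP3, ndNP4, pN]
  push_cast
  ring
theorem tgpF {x : ℝ} : TgP pF x :=
  ⟨by simp only [pF, pFc0]; norm_num, rfl, rfl, rfl, rfl, rfl, rfl, fun _ => rfl, fun _ => rfl⟩
theorem klF {x : ℝ} : Kl pF x := by
  constructor
  · intro h
    simp only [pFma, pFmb, pFmu, pFnx, pFc0, pFkc, pFjc, pFca, pFcb, pFcc, pFsv, pFx11, pFx01, pFK11, pFK01, pFL11, pFL01, kFc0, kFc0g, kFa0_2, kFa0, kFa0g, kFb0, kFb0g, kFd0_2, kFd0, kFd0g, kFe0_2, kFe0, kFe0g, cFxs1, cFsB1_5, cFsB1, cFBs1, cFsX1_5, cFsX1, cFxs2, cFsB2_5, cFsB2, cFBs2, cFsX2_5, cFsX2, nFsc2, nFBv2, nFBm2, nFXv2, nFXm2, nFsc3, nFBv3, nFBm3, nFXv3, nFXm3, nFsc4, nFBv4, nFBm4, nFXv4, nFXm4, l12F, laF, lbF, l1F, l2F, cvF1, cvF2, ndFP2, ndFP3, ndFP4, pF, pNc0, pNk12_3, pNk12, pNj12_3, pNj12, pNk23_3, pNk23, pNj23_3, pNj23, pNk13_3, pNk13, pNj13_3,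 pNj13, pNc12, pNc23, pNc13, pNK11, pNK01, kNc12_0, kNc12_0g, kNc23_0, kNc23_0g, kNc13_0, kNc13_0g, cNsD1_5, cNsD1, cNBs1, cNsD2_5, cNsD2, cNBs2, nNBv2_3, nNBv2, nNBm2_3, nNBm2, nNBv3, nNBm3_3, nNBm3, nNBv4, nNBm4_3, nNBm4, l12N, l23N, l13N, cvN1, cvN2, ndNP2, ndNP3, ndNP4, pN, pf_cons, pf_nil]
    push_cast
    ring
  · intro h
    simp only [pFma, pFmb, pFmu, pFnx, pFc0, pFkc, pFjc, pFca, pFcb, pFcc, pFsv, pFx11, pFx01, pFK11, pFK01, pFL11, pFL01, kFc0, kFc0g, kFa0_2, kFa0, kFa0g, kFb0, kFb0g, kFd0_2, kFd0, kFd0g, kFe0_2, kFe0, kFe0g, cFxs1, cFsB1_5, cFsB1, cFBs1, cFsX1_5, cFsX1, cFxs2, cFsB2_5, cFsB2, cFBs2, cFsX2_5, cFsX2, nFsc2, nFBv2, nFBm2, nFXv2, nFXm2, nFsc3, nFBv3, nFBm3, nFXv3, nFXm3, nFsc4, nFBv4, nFBm4, nFXv4, nFXm4, l12F, laF, lbF, l1F, l2F, cvF1, cvF2, ndFP2, ndFP3, ndFP4, pF, pNc0, pNk12_3, pNk12, pNj12_3, pNj12, pNk23_3,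 pNk23, pNj23_3, pNj23, pNk13_3, pNk13, pNj13_3, pNj13, pNc12, pNc23, pNc13, pNK11, pNK01, kNc12_0, kNc12_0g, kNc23_0, kNc23_0g, kNc13_0, kNc13_0g, cNsD1_5, cNsD1, cNBs1, cNsD2_5, cNsD2, cNBs2, nNBv2_3, nNBv2, nNBm2_3, nNBm2, nNBv3, nNBm3_3, nNBm3, nNBv4, nNBm4_3, nNBm4, l12N, l23N, l13N, cvN1, cvN2, ndNP2, ndNP3, ndNP4, pN, pf_cons, pf_nil]
    push_cast
    ring
theorem bsF {x : ℝ} (hx : ((201326592 : ℕ) : ℝ) / S ≤ x) (hx' : x ≤ (((201326592 : ℕ) : ℝ) + (134217728 : ℕ)) / S) : Bs PP tKF tL pcF true 3 pF 57167902 11758673 x :=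
  ⟨sideF hx hx', fitF, tabF, (xr hx hx').1, (xr hx hx').2, hD, hD3⟩
theorem bsN {x : ℝ} (hx : ((201326592 : ℕ) : ℝ) / S ≤ x) (hx' : x ≤ (((201326592 : ℕ) : ℝ) + (134217728 : ℕ)) / S) : Bs PP tKN tL pcN false 3 pN 57167902 11758673 x :=
  ⟨sideN hx hx', fitN, tabN, (xr hx hx').1, (xr hx hx').2, hD, hD3⟩

end Pool.Agent.Strip051.G.I3_16_5_16.Tab.DG
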