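import Pool.Agent.Strip051.G.I3_16_5_16.DgQ

/-! # The corner (1, 1, 2): certificates of the degenerate charts (generated) -/

set_option linter.all false

namespace Pool.Agent.Strip051.G.I3_16_5_16.Tab.DG

open Pool.Agent.Strip051.PB Pool.Agent.Strip051.PB.Dg Pool.Agent.StripNear Pool.Agent.Strip051.LC

theorem cFA2 : ∃ t, chk3 (onCell 0 194621009 0 1073741824 201326592 134217728 (fdA true false pF (dgSL pF ndFP2) (dgSR ndFP3) (thLo (dgSL pF ndFP2) (dgSR ndFP3)))) t 1 1 1 = true :=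
  ⟨(T.b (T.b (T.c (T.l 0) (T.b (T.a (T.l 0) (T.c (T.l 0) (T.a (T.l 0) (T.l 0)))) (T.l 0))) (T.b (T.b (T.a (T.l 3) (T.l 0)) (T.l 3)) (T.l 3))) (T.l 3)), by decide +kernel⟩
theorem ctFA2 {x : ℝ} (hx : ((201326592 : ℕ) : ℝ) / S ≤ x) (hx' : x ≤ (((201326592 : ℕ) : ℝ) + (134217728 : ℕ)) / S) : CtA PP tKF tL true false pF (dgSL pF ndFP2) (dgSR ndFP3) (thLo (dgSL pF ndFP2) (dgSR ndFP3)) 2 11758673 194621009 1073741824 201326592 134217728 x :=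
  ⟨sdF2, sdF3, thLo_ok sdF2 sdF3, btF, by norm_num, by norm_num, hx, hx', cFA2⟩
theorem cFA3 : ∃ t, chk3 (onCell 0 194621009 0 1073741824 201326592 134217728 (fdA true false pF (dgSR ndFP3) (dgSR ndFP4) (thLo (dgSR ndFP3) (dgSR ndFP4)))) t 1 1 1 = true :=
  ⟨(T.a (T.b (T.a (T.l 0) (T.l 0)) (T.b (T.b (T.c (T.l 0) (T.b (T.l 0) (T.a (T.l 0) (T.l 0)))) (T.l 3)) (T.l 3))) (T.b (T.b (T.l 0) (T.l 0)) (T.b (T.b (T.a (T.c (T.l 0) (T.l 0)) (T.b (T.l 0) (T.c (T.l 0) (T.a (T.l 0) (T.l 0))))) (T.b (T.b (T.b (T.a (T.c (T.l 0) (T.b (T.l 0) (T.l 3))) (T.c (T.l 0) (T.c (T.l 0) (T.a (T.l 0) (T.l 0))))) (T.l 3)) (T.l 3)) (T.l 3))) (T.l 3)))), by decide +kernel⟩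
theorem ctFA3 {x : ℝ} (hx : ((201326592 : ℕ) : ℝ) / S ≤ x) (hx' : x ≤ (((201326592 : ℕ) : ℝ) + (134217728 : ℕ)) / S) : CtA PP tKF tL true false pF (dgSR ndFP3) (dgSR ndFP4) (thLo (dgSR ndFP3) (dgSR ndFP4)) 3 11758673 194621009 1073741824 201326592 134217728 x :=
  ⟨sdF3, sdF4, thLo_ok sdF3 sdF4, btF, by norm_num, by norm_num, hx, hx', cFA3⟩
theorem cFA4 : ∃ t, chk3 (onCell 0 194621009 0 1073741824 201326592 134217728 (fdA true true pF (dgSR ndFP4) (dgSC pF) (thUp (dgSR ndFP4) (dgSC pF)))) t 1 1 1 = true :=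
  ⟨(T.a (T.b (T.l 2) (T.b (T.c (T.l 16384) (T.b (T.b (T.l 2) (T.b (T.l 2) (T.l 0))) (T.l 16384))) (T.l 349520))) (T.b (T.l 2) (T.a (T.a (T.c (T.l 349520) (T.b (T.b (T.b (T.l 2) (T.b (T.l 2) (T.l 0))) (T.l 0)) (T.l 349520))) (T.b (T.b (T.b (T.l 2) (T.b (T.l 2) (T.c (T.l 0) (T.b (T.l 2) (T.a (T.l 0) (T.l 0)))))) (T.c (T.l 0) (T.a (T.l 16384) (T.a (T.l 16384) (T.l 16384))))) (T.b (T.l 278528) (T.l 349520)))) (T.a (T.b (T.b (T.l 2) (T.c (T.l 16384) (T.c (T.l 16384) (T.a (T.a (T.l 0) (T.l 0)) (T.b (T.l 0) (T.l 0)))))) (T.c (T.l 349520) (T.b (T.a (T.l 16384) (T.l 16384)) (T.l 349520)))) (T.b (T.b (T.l 2) (T.c (T.l 16384) (T.a (T.b (T.c (T.l 0) (T.a (T.l 0) (T.l 0))) (T.l 0)) (T.b (T.c (T.l 0) (T.a (T.l 0) (T.l 0))) (T.l 16384))))) (T.b (T.c (T.l 278528) (T.a (T.l 16384) (T.l 16384))) (T.l 349520))))))), by decide +kernel⟩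
theorem ctFA4 {x : ℝ} (hx : ((201326592 : ℕ) : ℝ) / S ≤ x) (hx' : x ≤ (((201326592 : ℕ) : ℝ) + (134217728 : ℕ)) / S) : CtA PP tKF tL true true pF (dgSR ndFP4) (dgSC pF) (thUp (dgSR ndFP4) (dgSC pF)) 4 11758673 194621009 1073741824 201326592 134217728 x :=
  ⟨sdF4, sdFC, thUp_ok' sdF4 sdFC rfl, tgpF.btU klF, by norm_num, by norm_num, hx, hx', cFA4⟩
theorem cFB3 : ∃ t, chk3 (onCell 0 194621009 0 2684354560 201326592 134217728 (fdB true false pF (dgSR ndFP3))) t 1 1 1 = true :=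
  ⟨(T.b (T.b (T.a (T.b (T.l 0) (T.l 4)) (T.b (T.l 0) (T.b (T.l 0) (T.l 4)))) (T.l 4)) (T.b (T.l 4) (T.a (T.l 4) (T.l 4)))), by decide +kernel⟩
theorem ctFB3 {x : ℝ} (hx : ((201326592 : ℕ) : ℝ) / S ≤ x) (hx' : x ≤ (((201326592 : ℕ) : ℝ) + (134217728 : ℕ)) / S) : CtB PP tKF tL true false pF (dgSR ndFP3) 3 0 57167902 11758673 194621009 2684354560 201326592 134217728 x :=
  ⟨sdF3, cvokF1, btF, rfl, by show rh 1 ≤ 1; simp [rh]; try norm_num, svF, by norm_num, by norm_num, hx, hx', cFB3⟩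
theorem cFB4 : ∃ t, chk3 (onCell 0 194621009 0 2684354560 201326592 134217728 (fdB true false pF (dgSR ndFP4))) t 1 1 1 = true :=
  ⟨(T.b (T.c (T.b (T.a (T.b (T.l 2) (T.l 0)) (T.a (T.b (T.l 2) (T.l 0)) (T.l 2))) (T.a (T.b (T.b (T.a (T.l 141312) (T.l 141312)) (T.l 174080)) (T.l 4)) (T.b (T.b (T.a (T.b (T.l 8192) (T.l 141312)) (T.b (T.b (T.l 0) (T.l 8192)) (T.l 141312))) (T.a (T.l 174120) (T.l 174080))) (T.l 4)))) (T.b (T.a (T.b (T.l 2) (T.b (T.l 2) (T.b (T.l 2) (T.a (T.l 0) (T.l 0))))) (T.a (T.b (T.l 2) (T.b (T.l 2) (T.a (T.l 0) (T.l 0)))) (T.l 2))) (T.a (T.b (T.b (T.b (T.l 8192) (T.l 141312)) (T.l 174080)) (T.l 4)) (T.b (T.b (T.a (T.b (T.b (T.a (T.l 8192) (T.b (T.b (T.l 0) (T.l 8192)) (T.l 8192))) (T.l 8192)) (T.l 141312)) (T.b (T.b (T.b (T.c (T.l 0) (T.a (T.b (T.l 0) (T.l 8192)) (T.b (T.l 0) (T.a (T.l 8192) (T.l 8192))))) (T.l 8192)) (T.l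 8192)) (T.l 174080))) (T.a (T.l 174080) (T.l 174080))) (T.l 4))))) (T.a (T.l 4) (T.b (T.l 4) (T.l 4)))), by decide +kernel⟩
theorem ctFB4 {x : ℝ} (hx : ((201326592 : ℕ) : ℝ) / S ≤ x) (hx' : x ≤ (((201326592 : ℕ) : ℝ) + (134217728 : ℕ)) / S) : CtB PP tKF tL true false pF (dgSR ndFP4) 4 0 57167902 11758673 194621009 2684354560 201326592 134217728 x :=
  ⟨sdF4, cvokF1, btF, rfl, by show rh 1 ≤ 1; simp [rh]; try norm_num, svF, by norm_num, by norm_num, hx, hx', cFB4⟩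
theorem cFB5 : ∃ t, chk3 (onCell 0 194621009 0 2684354560 201326592 134217728 (fdB true true pF (dgSC pF))) t 1 1 1 = true :=
  ⟨(T.b (T.b (T.l 2) (T.a (T.a (T.l 349520) (T.a (T.l 349520) (T.l 349520))) (T.b (T.l 2) (T.a (T.l 349520) (T.l 349520))))) (T.b (T.a (T.a (T.l 174760) (T.a (T.l 349520) (T.l 349520))) (T.a (T.a (T.l 349520) (T.l 349520)) (T.l 6))) (T.a (T.l 4) (T.a (T.l 4) (T.l 4))))), by decide +kernel⟩
theorem ctFB5 {x : ℝ} (hx : ((201326592 : ℕ) : ℝ) / S ≤ x) (hx' : x ≤ (((201326592 : ℕ) : ℝ) + (134217728 : ℕ)) / S) : CtB PP tKF tL true true pF (dgSC pF) 5 0 57167902 11758673 194621009 2684354560 201326592 134217728 x :=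
  ⟨sdFC, cvokF1, tgpF.btN klF, rfl, by show rh 1 ≤ 1; simp [rh]; try norm_num, svF, by norm_num, by norm_num, hx, hx', cFB5⟩
theorem cFP3 : ∃ t, chk3 (onCell 0 194621009 0 1073741824 201326592 134217728 (fdP true false pF (dgSR ndFP3))) t 1 1 1 = true :=
  ⟨(T.b (T.b (T.l 0) (T.l 0)) (T.l 2)), by decide +kernel⟩
theorem ctFP3 {x : ℝ} (hx : ((201326592 : ℕ) : ℝ) / S ≤ x) (hx' : x ≤ (((201326592 : ℕ) : ℝ) + (134217728 : ℕ)) / S) : CtP PP tKF tL true false pF (dgSR ndFP3) 3 0 57167902 11758673 194621009 1073741824 201326592 134217728 x :=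
  ⟨sdF3, p1okF, btF, rfl, svF, by norm_num, by norm_num, hx, hx', cFP3⟩
theorem cFP4 : ∃ t, chk3 (onCell 0 194621009 0 1073741824 201326592 134217728 (fdP true false pF (dgSR ndFP4))) t 1 1 1 = true :=
  ⟨(T.a (T.b (T.l 8192) (T.b (T.b (T.c (T.l 0) (T.b (T.l 0) (T.a (T.l 0) (T.l 0)))) (T.l 2)) (T.l 2))) (T.b (T.l 8192) (T.b (T.b (T.b (T.l 0) (T.a (T.a (T.l 0) (T.l 0)) (T.a (T.l 0) (T.l 8192)))) (T.b (T.b (T.b (T.a (T.b (T.b (T.l 0) (T.l 2)) (T.l 2)) (T.c (T.l 0) (T.c (T.l 0) (T.a (T.l 0) (T.l 0))))) (T.l 2)) (T.l 2)) (T.l 2))) (T.l 2)))), by decide +kernel⟩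
theorem ctFP4 {x : ℝ} (hx : ((201326592 : ℕ) : ℝ) / S ≤ x) (hx' : x ≤ (((201326592 : ℕ) : ℝ) + (134217728 : ℕ)) / S) : CtP PP tKF tL true false pF (dgSR ndFP4) 4 0 57167902 11758673 194621009 1073741824 201326592 134217728 x :=
  ⟨sdF4, p1okF, btF, rfl, svF, by norm_num, by norm_num, hx, hx', cFP4⟩
theorem cFP5 : ∃ t, chk3 (onCell 0 194621009 0 1073741824 201326592 134217728 (fdP true true pF (dgSC pF))) t 1 1 1 = true :=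
  ⟨(T.a (T.l 349520) (T.l 349520)), by decide +kernel⟩
theorem ctFP5 {x : ℝ} (hx : ((201326592 : ℕ) : ℝ) / S ≤ x) (hx' : x ≤ (((201326592 : ℕ) : ℝ) + (134217728 : ℕ)) / S) : CtP PP tKF tL true true pF (dgSC pF) 5 0 57167902 11758673 194621009 1073741824 201326592 134217728 x :=
  ⟨sdFC, p1okF, tgpF.btN klF, rfl, svF, by norm_num, by norm_num, hx, hx', cFP5⟩
theorem cFC1 : ∃ t, chk3 (onCell 0 194621009 0 1073741824 201326592 134217728 (fdC true pF ndFP2 (thLo (dgSL pF ndFP2) (dgSR ndFP3)) cvF1 (dgSR ndFP3))) t 1 1 1 = true :=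
  ⟨(T.b (T.b (T.b (T.a (T.l 0) (T.a (T.l 0) (T.l 2048))) (T.l 1)) (T.l 1)) (T.a (T.l 1) (T.a (T.l 1) (T.l 3)))), by decide +kernel⟩
theorem ctFC1 {x : ℝ} (hx : ((201326592 : ℕ) : ℝ) / S ≤ x) (hx' : x ≤ (((201326592 : ℕ) : ℝ) + (134217728 : ℕ)) / S) : CtC PP tKF tL true pF ndFP2 (thLo (dgSL pF ndFP2) (dgSR ndFP3)) cvF1 (dgSR ndFP3) 1 2 57167902 11758673 194621009 1073741824 201326592 134217728 x :=
  ⟨nlF2, sdF3, grLo _ _, cvokF1, by show rh 1 ≤ 1; simp [rh]; try norm_num, svF, by norm_num, by norm_num, hx, hx', cFC1⟩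
theorem cFC2 : ∃ t, chk3 (onCell 0 194621009 0 1073741824 201326592 134217728 (fdC true pF ndFP2 (thLo (dgSL pF ndFP2) (dgSR ndFP3)) cvF2 (dgSR ndFP3))) t 1 1 1 = true :=
  ⟨(T.b (T.b (T.a (T.l 0) (T.b (T.l 0) (T.l 1))) (T.l 1)) (T.a (T.l 1) (T.a (T.l 1) (T.l 3)))), by decide +kernel⟩
theorem ctFC2 {x : ℝ} (hx : ((201326592 : ℕ) : ℝ) / S ≤ x) (hx' : x ≤ (((201326592 : ℕ) : ℝ) + (134217728 : ℕ)) / S) : CtC PP tKF tL true pF ndFP2 (thLo (dgSL pF ndFP2) (dgSR ndFP3)) cvF2 (dgSR ndFP3) 2 2 57167902 11758673 194621009 1073741824 201326592 134217728 x :=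
  ⟨nlF2, sdF3, grLo _ _, cvokF2, by show rh 2 ≤ 1; simp [rh]; try norm_num, svF, by norm_num, by norm_num, hx, hx', cFC2⟩
theorem cNA2 : ∃ t, chk3 (onCell 0 194621009 0 1073741824 201326592 134217728 (fdA false false pN (dgSL pN ndNP2) (dgSR ndNP3) (thLo (dgSL pN ndNP2) (dgSR ndNP3)))) t 1 1 1 = true :=
  ⟨(T.b (T.a (T.b (T.l 0) (T.l 3)) (T.b (T.b (T.l 0) (T.l 0)) (T.b (T.l 0) (T.l 3)))) (T.l 3)), by decide +kernel⟩
theorem ctNA2 {x : ℝ} (hx : ((201326592 : ℕ) : ℝ) / S ≤ x) (hx' : x ≤ (((201326592 : ℕ) : ℝ) + (134217728 : ℕ)) / S) : CtA PP tKN tL false false pN (dgSL pN ndNP2) (dgSR ndNP3) (thLo (dgSL pN ndNP2) (dgSR ndNP3)) 2 11758673 194621009 1073741824 201326592 134217728 x :=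
  ⟨sdN2, sdN3, thLo_ok sdN2 sdN3, btF, by norm_num, by norm_num, hx, hx', cNA2⟩
theorem cNA3 : ∃ t, chk3 (onCell 0 194621009 0 1073741824 201326592 134217728 (fdA false false pN (dgSR ndNP3) (dgSR ndNP4) (thLo (dgSR ndNP3) (dgSR ndNP4)))) t 1 1 1 = true :=
  ⟨(T.a (T.b (T.l 0) (T.b (T.a (T.l 0) (T.l 0)) (T.l 3))) (T.b (T.l 0) (T.b (T.a (T.l 0) (T.b (T.l 0) (T.a (T.l 0) (T.l 0)))) (T.l 3)))), by decide +kernel⟩
theorem ctNA3 {x : ℝ} (hx : ((201326592 : ℕ) : ℝ) / S ≤ x) (hx' : x ≤ (((201326592 : ℕ) : ℝ) + (134217728 : ℕ)) / S) : CtA PP tKN tL false false pN (dgSR ndNP3) (dgSR ndNP4) (thLo (dgSR ndNP3) (dgSR ndNP4)) 3 11758673 194621009 1073741824 201326592 134217728 x :=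
  ⟨sdN3, sdN4, thLo_ok sdN3 sdN4, btF, by norm_num, by norm_num, hx, hx', cNA3⟩
theorem cNA4 : ∃ t, chk3 (onCell 0 194621009 0 1073741824 201326592 134217728 (fdA false false pN (dgSR ndNP4) (dgSC pN) (thUp (dgSR ndNP4) (dgSC pN)))) t 1 1 1 = true :=
  ⟨(T.a (T.b (T.l 2) (T.b (T.a (T.l 0) (T.l 0)) (T.b (T.l 0) (T.b (T.l 0) (T.a (T.l 10280) (T.a (T.l 10280) (T.l 10280))))))) (T.b (T.l 2) (T.a (T.a (T.b (T.l 0) (T.b (T.l 0) (T.b (T.l 0) (T.l 10280)))) (T.b (T.a (T.l 0) (T.l 0)) (T.b (T.l 0) (T.b (T.a (T.l 0) (T.l 0)) (T.a (T.l 43176) (T.l 10280)))))) (T.b (T.b (T.l 2) (T.a (T.l 0) (T.l 0))) (T.a (T.b (T.a (T.l 0) (T.l 0)) (T.b (T.a (T.l 0) (T.l 0)) (T.c (T.a (T.l 10280) (T.l 10280)) (T.l 10280)))) (T.b (T.a (T.l 8192) (T.l 8192)) (T.b (T.a (T.l 8192) (T.l 8192)) (T.c (T.a (T.l 10280) (T.l 10280)) (T.a (T.l 10280) (T.l 10280)))))))))), by decide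 +kernel⟩
theorem ctNA4 {x : ℝ} (hx : ((201326592 : ℕ) : ℝ) / S ≤ x) (hx' : x ≤ (((201326592 : ℕ) : ℝ) + (134217728 : ℕ)) / S) : CtA PP tKN tL false false pN (dgSR ndNP4) (dgSC pN) (thUp (dgSR ndNP4) (dgSC pN)) 4 11758673 194621009 1073741824 201326592 134217728 x :=
  ⟨sdN4, sdNC, thUp_ok' sdN4 sdNC rfl, btF, by norm_num, by norm_num, hx, hx', cNA4⟩
theorem cNB3 : ∃ t, chk3 (onCell 0 194621009 0 2684354560 201326592 134217728 (fdB false false pN (dgSR ndNP3))) t 1 1 1 = true :=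
  ⟨(T.b (T.b (T.a (T.b (T.l 0) (T.l 4)) (T.b (T.l 0) (T.b (T.l 0) (T.l 4)))) (T.l 4)) (T.b (T.l 4) (T.a (T.l 4) (T.l 4)))), by decide +kernel⟩
theorem ctNB3 {x : ℝ} (hx : ((201326592 : ℕ) : ℝ) / S ≤ x) (hx' : x ≤ (((201326592 : ℕ) : ℝ) + (134217728 : ℕ)) / S) : CtB PP tKN tL false false pN (dgSR ndNP3) 3 0 57167902 11758673 194621009 2684354560 201326592 134217728 x :=
  ⟨sdN3, cvokN1, btF, rfl, by show rh 1 ≤ 1; simp [rh]; try norm_num, svN, by norm_num, by norm_num, hx, hx', cNB3⟩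
theorem cNB4 : ∃ t, chk3 (onCell 0 194621009 0 2684354560 201326592 134217728 (fdB false false pN (dgSR ndNP4))) t 1 1 1 = true :=
  ⟨(T.b (T.b (T.a (T.b (T.l 2) (T.l 0)) (T.a (T.b (T.l 2) (T.l 0)) (T.l 2))) (T.a (T.b (T.b (T.l 0) (T.l 174080)) (T.l 4)) (T.b (T.a (T.b (T.l 0) (T.l 174760)) (T.b (T.b (T.l 0) (T.l 8192)) (T.l 174760))) (T.l 4)))) (T.a (T.l 4) (T.b (T.l 4) (T.l 4)))), by decide +kernel⟩
theorem ctNB4 {x : ℝ} (hx : ((201326592 : ℕ) : ℝ) / S ≤ x) (hx' : x ≤ (((201326592 : ℕ) : ℝ) + (134217728 : ℕ)) / S) : CtB PP tKN tL false false pN (dgSR ndNP4) 4 0 57167902 11758673 194621009 2684354560 201326592 134217728 x :=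
  ⟨sdN4, cvokN1, btF, rfl, by show rh 1 ≤ 1; simp [rh]; try norm_num, svN, by norm_num, by norm_num, hx, hx', cNB4⟩
theorem cNB5 : ∃ t, chk3 (onCell 0 194621009 0 2684354560 201326592 134217728 (fdB false false pN (dgSC pN))) t 1 1 1 = true :=
  ⟨(T.b (T.b (T.l 2) (T.a (T.a (T.b (T.l 2) (T.b (T.b (T.b (T.l 2) (T.b (T.l 2) (T.c (T.c (T.b (T.l 0) (T.l 10248)) (T.l 10280)) (T.l 10280)))) (T.l 174760)) (T.l 174760))) (T.b (T.l 2) (T.b (T.b (T.b (T.l 2) (T.b (T.l 2) (T.c (T.a (T.l 10248) (T.l 10248)) (T.l 10280)))) (T.a (T.l 174760) (T.l 174760))) (T.l 174760)))) (T.b (T.l 2) (T.a (T.b (T.b (T.b (T.l 2) (T.b (T.l 2) (T.a (T.b (T.l 2056) (T.l 10280)) (T.b (T.a (T.a (T.l 2056) (T.l 2056)) (T.l 10280)) (T.l 43176))))) (T.a (T.a (T.l 174760) (T.l 174760)) (T.l 174760))) (T.a (T.l 174760) (T.l 174760))) (T.a (T.b (T.b (T.b (T.l 2) (T.b (T.l 2) (T.b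 (T.c (T.a (T.l 2048) (T.l 2056)) (T.l 10280)) (T.l 174760)))) (T.a (T.l 174760) (T.l 6))) (T.l 174760)) (T.a (T.l 6) (T.l 6))))))) (T.c (T.b (T.a (T.a (T.l 174760) (T.b (T.a (T.l 174760) (T.l 174760)) (T.l 4))) (T.a (T.b (T.a (T.l 174760) (T.l 174760)) (T.l 4)) (T.l 6))) (T.a (T.l 4) (T.a (T.l 4) (T.l 4)))) (T.b (T.a (T.a (T.l 174760) (T.b (T.a (T.l 174760) (T.l 174760)) (T.l 4))) (T.a (T.b (T.a (T.l 174760) (T.l 174760)) (T.l 4)) (T.l 6))) (T.a (T.l 4) (T.a (T.l 4) (T.l 4)))))), by decide +kernel⟩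
theorem ctNB5 {x : ℝ} (hx : ((201326592 : ℕ) : ℝ) / S ≤ x) (hx' : x ≤ (((201326592 : ℕ) : ℝ) + (134217728 : ℕ)) / S) : CtB PP tKN tL false false pN (dgSC pN) 5 0 57167902 11758673 194621009 2684354560 201326592 134217728 x :=
  ⟨sdNC, cvokN1, btF, rfl, by show rh 1 ≤ 1; simp [rh]; try norm_num, svN, by norm_num, by norm_num, hx, hx', cNB5⟩
theorem cNP3 : ∃ t, chk3 (onCell 0 194621009 0 1073741824 201326592 134217728 (fdP false false pN (dgSR ndNP3))) t 1 1 1 = true :=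
  ⟨(T.b (T.l 0) (T.l 2)), by decide +kernel⟩
theorem ctNP3 {x : ℝ} (hx : ((201326592 : ℕ) : ℝ) / S ≤ x) (hx' : x ≤ (((201326592 : ℕ) : ℝ) + (134217728 : ℕ)) / S) : CtP PP tKN tL false false pN (dgSR ndNP3) 3 0 57167902 11758673 194621009 1073741824 201326592 134217728 x :=
  ⟨sdN3, p1okN, btF, rfl, svN, by norm_num, by norm_num, hx, hx', cNP3⟩
theorem cNP4 : ∃ t, chk3 (onCell 0 194621009 0 1073741824 201326592 134217728 (fdP false false pN (dgSR ndNP4))) t 1 1 1 = true :=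
  ⟨(T.a (T.b (T.l 0) (T.b (T.l 0) (T.l 2))) (T.b (T.l 0) (T.b (T.a (T.l 0) (T.b (T.l 0) (T.a (T.l 0) (T.l 0)))) (T.l 2)))), by decide +kernel⟩
theorem ctNP4 {x : ℝ} (hx : ((201326592 : ℕ) : ℝ) / S ≤ x) (hx' : x ≤ (((201326592 : ℕ) : ℝ) + (134217728 : ℕ)) / S) : CtP PP tKN tL false false pN (dgSR ndNP4) 4 0 57167902 11758673 194621009 1073741824 201326592 134217728 x :=
  ⟨sdN4, p1okN, btF, rfl, svN, by norm_num, by norm_num, hx, hx', cNP4⟩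
theorem cNP5 : ∃ t, chk3 (onCell 0 194621009 0 1073741824 201326592 134217728 (fdP false false pN (dgSC pN))) t 1 1 1 = true :=
  ⟨(T.a (T.b (T.l 0) (T.b (T.l 0) (T.b (T.l 0) (T.b (T.l 0) (T.b (T.l 0) (T.a (T.l 10280) (T.l 10280))))))) (T.b (T.l 174760) (T.a (T.b (T.l 544) (T.b (T.l 8744) (T.b (T.l 174760) (T.a (T.a (T.l 10280) (T.l 10280)) (T.c (T.l 10280) (T.l 10280)))))) (T.b (T.l 174760) (T.b (T.l 141992) (T.b (T.l 174760) (T.a (T.c (T.a (T.l 10280) (T.l 10280)) (T.l 10280)) (T.l 3)))))))), by decide +kernel⟩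
theorem ctNP5 {x : ℝ} (hx : ((201326592 : ℕ) : ℝ) / S ≤ x) (hx' : x ≤ (((201326592 : ℕ) : ℝ) + (134217728 : ℕ)) / S) : CtP PP tKN tL false false pN (dgSC pN) 5 0 57167902 11758673 194621009 1073741824 201326592 134217728 x :=
  ⟨sdNC, p1okN, btF, rfl, svN, by norm_num, by norm_num, hx, hx', cNP5⟩
theorem cNC1 : ∃ t, chk3 (onCell 0 194621009 0 1073741824 201326592 134217728 (fdC false pN ndNP2 (thLo (dgSL pN ndNP2) (dgSR ndNP3)) cvN1 (dgSR ndNP3))) t 1 1 1 = true :=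
  ⟨(T.b (T.b (T.b (T.a (T.l 0) (T.l 0)) (T.l 1)) (T.l 1)) (T.a (T.l 1) (T.a (T.l 1) (T.l 3)))), by decide +kernel⟩
theorem ctNC1 {x : ℝ} (hx : ((201326592 : ℕ) : ℝ) / S ≤ x) (hx' : x ≤ (((201326592 : ℕ) : ℝ) + (134217728 : ℕ)) / S) : CtC PP tKN tL false pN ndNP2 (thLo (dgSL pN ndNP2) (dgSR ndNP3)) cvN1 (dgSR ndNP3) 1 2 57167902 11758673 194621009 1073741824 201326592 134217728 x :=
  ⟨nlN2, sdN3, grLo _ _, cvokN1, by show rh 1 ≤ 1; simp [rh]; try norm_num, svN, by norm_num, by norm_num, hx, hx', cNC1⟩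
theorem cNC2 : ∃ t, chk3 (onCell 0 194621009 0 1073741824 201326592 134217728 (fdC false pN ndNP2 (thLo (dgSL pN ndNP2) (dgSR ndNP3)) cvN2 (dgSR ndNP3))) t 1 1 1 = true :=
  ⟨(T.b (T.b (T.a (T.l 0) (T.b (T.l 0) (T.l 1))) (T.l 1)) (T.a (T.l 1) (T.a (T.l 1) (T.l 3)))), by decide +kernel⟩
theorem ctNC2 {x : ℝ} (hx : ((201326592 : ℕ) : ℝ) / S ≤ x) (hx' : x ≤ (((201326592 : ℕ) : ℝ) + (134217728 : ℕ)) / S) : CtC PP tKN tL false pN ndNP2 (thLo (dgSL pN ndNP2) (dgSR ndNP3)) cvN2 (dgSR ndNP3) 2 2 57167902 11758673 194621009 1073741824 201326592 134217728 x :=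
  ⟨nlN2, sdN3, grLo _ _, cvokN2, by show rh 2 ≤ 1; simp [rh]; try norm_num, svN, by norm_num, by norm_num, hx, hx', cNC2⟩

end Pool.Agent.Strip051.G.I3_16_5_16.Tab.DG
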