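import Pool.Agent.Strip051.G.I3_16_5_16.Fs

/-! # Certificates at the floor (generated) -/

set_option linter.all false

namespace Pool.Agent.Strip051.G.I3_16_5_16.Tab

open Pool.Agent.Strip051.PB

theorem cN_m00 : CertNd 0 536870912 201326592 134217728 (ftMono true 0 mT) [] ndN0q0 cZ :=
  certNd (T := (ftMono true 0 mT)) (L := []) (P1 := 0) (W1 := 536870912) (P3 := 201326592) (W3 := 134217728) (n := ndN0q0) (c := cZ)
    ⟨T.a (T.a (T.c (T.l 0) (T.l 0)) (T.a (T.l 0) (T.c (T.l 0) (T.l 0)))) (T.a (T.l 0) (T.l 0)),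
      by decide +kernel⟩
theorem cN_m01 : CertNd 536870912 536870912 201326592 134217728 (ftMono true 1 mT) [] ndN0q1 cZ :=
  certNd (T := (ftMono true 1 mT)) (L := []) (P1 := 536870912) (W1 := 536870912) (P3 := 201326592) (W3 := 134217728) (n := ndN0q1) (c := cZ)
    ⟨T.a (T.a (T.l 0) (T.l 0)) (T.a (T.a (T.l 0) (T.l 0)) (T.a (T.l 0) (T.c (T.l 0) (T.l 0)))),
      by decide +kernel⟩
theorem cN_g00 : CertGe 0 67108864 201326592 134217728 true [] (((2 : ℕ) : ℝ) / ((1 : ℕ) : ℝ)) 0 ((0 : ℕ) : ℝ)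
    (((2 : ℕ) : ℝ) / 2) mT ndN0q0 cZ :=
  certGe (z := true) (L := []) (P1 := 0) (W1 := 67108864) (P3 := 201326592) (W3 := 134217728) (oa := 2) (ob := 1)
    (q := 0) (bb := 0) (hB := 2) (M := mT) (n := ndN0q0) (c := cZ) (sX := c1g_fs) (sK := kn0q0_fs)
    (sL := l0q0_fs) ⟨T.c (T.c (T.c (T.l 0) (T.l 0)) (T.l 0)) (T.c (T.l 0) (T.l 0)),
      by decide +kernel⟩
theorem cN_w00a : CertNd 67108864 68182605 201326592 134217728 (ftWall true 0 mT 1 1) [] ndN0q0 cZ :=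
  certNd (T := (ftWall true 0 mT 1 1)) (L := []) (P1 := 67108864) (W1 := 68182605) (P3 := 201326592) (W3 := 134217728) (n := ndN0q0) (c := cZ)
    ⟨T.c (T.c (T.a (T.c (T.a (T.c (T.l 0) (T.l 0)) (T.c (T.l 0) (T.l 0))) (T.a (T.c (T.l 0) (T.l 0)) (T.c (T.l 0) (T.l 0)))) (T.c (T.a (T.c (T.a (T.l 0) (T.l 0)) (T.a (T.l 0) (T.l 0))) (T.c (T.a (T.c (T.l 0) (T.l 0)) (T.c (T.l 0) (T.l 0))) (T.a (T.c (T.l 0) (T.l 0)) (T.c (T.l 0) (T.l 0))))) (T.a (T.c (T.a (T.l 0) (T.l 0)) (T.l 0)) (T.c (T.a (T.l 0) (T.c (T.l 0) (T.l 0))) (T.a (T.l 0) (T.l 0)))))) (T.a (T.c (T.a (T.l 0) (T.c (T.l 0) (T.l 0))) (T.a (T.l 0) (T.l 0))) (T.c (T.a (T.c (T.l 0) (T.l 0)) (T.c (T.a (T.l 0) (T.l 0)) (T.a (T.l 0) (T.l 0)))) (T.a (T.c (T.l 0) (T.l 0)) (T.c (T.l 0) (T.l 0)))))) (T.c (T.a (T.c (T.a (T.l 0) (T.l 0)) (T.a (T.l 0) (T.l 0))) (T.c (T.a (T.l 0) (T.c (T.l 0) (T.l 0))) (T.a (T.l 0) (T.c (T.l 0) (T.l 0))))) (T.a (T.c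 (T.l 0) (T.l 0)) (T.c (T.a (T.l 0) (T.l 0)) (T.a (T.l 0) (T.l 0))))),
      by decide +kernel⟩
theorem cN_w00b : CertNd 401579442 135291470 201326592 134217728 (ftWall true 0 mT 1 1) [] ndN0q0 cZ :=
  certNd (T := (ftWall true 0 mT 1 1)) (L := []) (P1 := 401579442) (W1 := 135291470) (P3 := 201326592) (W3 := 134217728) (n := ndN0q0) (c := cZ)
    ⟨T.a (T.c (T.l 0) (T.a (T.c (T.l 0) (T.l 0)) (T.l 0))) (T.l 0),
      by decide +kernel⟩
theorem cN_w01b : CertNd 536870912 490700014 201326592 134217728 (ftWall true 1 mT 1 1) [] ndN0q1 cZ :=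
  certNd (T := (ftWall true 1 mT 1 1)) (L := []) (P1 := 536870912) (W1 := 490700014) (P3 := 201326592) (W3 := 134217728) (n := ndN0q1) (c := cZ)
    ⟨T.a (T.a (T.l 0) (T.l 0)) (T.a (T.c (T.l 0) (T.l 0)) (T.c (T.l 0) (T.l 0))),
      by decide +kernel⟩
theorem cN_g01 : CertGe 1027570926 46170898 201326592 134217728 true [] (((2 : ℕ) : ℝ) / ((1 : ℕ) : ℝ)) 1 ((1 : ℕ) : ℝ)
    (((1 : ℕ) : ℝ) / 2) mT ndN0q1 cZ :=
  certGe (z := true) (L := []) (P1 := 1027570926) (W1 := 46170898) (P3 := 201326592) (W3 := 134217728) (oa := 2) (ob := 1)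
    (q := 1) (bb := 1) (hB := 1) (M := mT) (n := ndN0q1) (c := cZ) (sX := c1g_fs) (sK := kn0q1_fs)
    (sL := l0q1_fs) ⟨T.a (T.l 0) (T.l 0),
      by decide +kernel⟩
theorem cN_tl : CertTg 135291469 266287973 201326592 134217728 (ftTg true mT dlg 1 1) [⟨6, 0⟩] :=
  certTg (T := (ftTg true mT dlg 1 1)) (L := [⟨6, 0⟩]) (P1 := 135291469) (W1 := 266287973) (P3 := 201326592) (W3 := 134217728)
    ⟨T.a (T.a (T.c (T.a (T.l 0) (T.l 0)) (T.c (T.l 0) (T.l 0))) (T.c (T.l 0) (T.l 0))) (T.a (T.l 0) (T.l 0)),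
      by decide +kernel⟩
theorem cN_th : CertTg 135291469 266287973 201326592 134217728 (ftTg false mT dlg 1 1) [⟨5, 0⟩] :=
  certTg (T := (ftTg false mT dlg 1 1)) (L := [⟨5, 0⟩]) (P1 := 135291469) (W1 := 266287973) (P3 := 201326592) (W3 := 134217728)
    ⟨T.a (T.l 0) (T.l 0),
      by decide +kernel⟩
theorem cN_m10 : CertNd 0 67108864 201326592 134217728 (ftMono true 0 mT) [] ndN1q0 cZ :=
  certNd (T := (ftMono true 0 mT)) (L := []) (P1 := 0) (W1 := 67108864) (P3 := 201326592) (W3 := 134217728) (n := ndN1q0) (c := cZ)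
    ⟨T.c (T.l 0) (T.l 0),
      by decide +kernel⟩
theorem cN_g10 : CertGe 0 67108864 201326592 134217728 true [] (((2 : ℕ) : ℝ) / ((1 : ℕ) : ℝ)) 0 ((0 : ℕ) : ℝ)
    (((2 : ℕ) : ℝ) / 2) mT ndN1q0 cZ :=
  certGe (z := true) (L := []) (P1 := 0) (W1 := 67108864) (P3 := 201326592) (W3 := 134217728) (oa := 2) (ob := 1)
    (q := 0) (bb := 0) (hB := 2) (M := mT) (n := ndN1q0) (c := cZ) (sX := cv1m_fs) (sK := kn1q0_fs)
    (sL := l1q0_fs) ⟨T.l 0,
      by decide +kernel⟩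
theorem cN_w10 : CertNd 67108864 469762048 201326592 134217728 (ftWall true 0 mT 1 1) [] ndN1q0 cZ :=
  certNd (T := (ftWall true 0 mT 1 1)) (L := []) (P1 := 67108864) (W1 := 469762048) (P3 := 201326592) (W3 := 134217728) (n := ndN1q0) (c := cZ)
    ⟨T.a (T.a (T.c (T.l 0) (T.l 0)) (T.c (T.l 0) (T.l 0))) (T.c (T.l 0) (T.l 0)),
      by decide +kernel⟩
theorem cN_w11 : CertNd 536870912 536870912 201326592 134217728 (ftWall true 1 mT 1 1) [] ndN1q1 cZ :=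
  certNd (T := (ftWall true 1 mT 1 1)) (L := []) (P1 := 536870912) (W1 := 536870912) (P3 := 201326592) (W3 := 134217728) (n := ndN1q1) (c := cZ)
    ⟨T.a (T.l 0) (T.l 0),
      by decide +kernel⟩
theorem cN_m20 : CertNd 0 67108864 201326592 134217728 (ftMono true 0 mT) [] ndN2q0 cZ :=
  certNd (T := (ftMono true 0 mT)) (L := []) (P1 := 0) (W1 := 67108864) (P3 := 201326592) (W3 := 134217728) (n := ndN2q0) (c := cZ)
    ⟨T.c (T.l 0) (T.l 0),
      by decide +kernel⟩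
theorem cN_g20 : CertGe 0 67108864 201326592 134217728 true [] (((2 : ℕ) : ℝ) / ((1 : ℕ) : ℝ)) 0 ((0 : ℕ) : ℝ)
    (((2 : ℕ) : ℝ) / 2) mT ndN2q0 cZ :=
  certGe (z := true) (L := []) (P1 := 0) (W1 := 67108864) (P3 := 201326592) (W3 := 134217728) (oa := 2) (ob := 1)
    (q := 0) (bb := 0) (hB := 2) (M := mT) (n := ndN2q0) (c := cZ) (sX := cv2m_fs) (sK := kn2q0_fs)
    (sL := l2q0_fs) ⟨T.l 0,
      by decide +kernel⟩
theorem cN_w20 : CertNd 67108864 469762048 201326592 134217728 (ftWall true 0 mT 1 1) [] ndN2q0 cZ :=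
  certNd (T := (ftWall true 0 mT 1 1)) (L := []) (P1 := 67108864) (W1 := 469762048) (P3 := 201326592) (W3 := 134217728) (n := ndN2q0) (c := cZ)
    ⟨T.a (T.a (T.c (T.l 0) (T.l 0)) (T.c (T.l 0) (T.l 0))) (T.c (T.l 0) (T.l 0)),
      by decide +kernel⟩
theorem cN_w21 : CertNd 536870912 536870912 201326592 134217728 (ftWall true 1 mT 1 1) [] ndN2q1 cZ :=
  certNd (T := (ftWall true 1 mT 1 1)) (L := []) (P1 := 536870912) (W1 := 536870912) (P3 := 201326592) (W3 := 134217728) (n := ndN2q1) (c := cZ)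
    ⟨T.a (T.l 0) (T.l 0),
      by decide +kernel⟩
theorem cN_w30 : CertNd 0 536870912 201326592 134217728 (ftWall true 0 mT 1 1) [] ndN3q0 cZ :=
  certNd (T := (ftWall true 0 mT 1 1)) (L := []) (P1 := 0) (W1 := 536870912) (P3 := 201326592) (W3 := 134217728) (n := ndN3q0) (c := cZ)
    ⟨T.a (T.a (T.c (T.l 0) (T.l 0)) (T.c (T.l 0) (T.l 0))) (T.a (T.l 0) (T.l 0)),
      by decide +kernel⟩
theorem cN_w31 : CertNd 536870912 536870912 201326592 134217728 (ftWall true 1 mT 1 1) [] ndN3q1 cZ :=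
  certNd (T := (ftWall true 1 mT 1 1)) (L := []) (P1 := 536870912) (W1 := 536870912) (P3 := 201326592) (W3 := 134217728) (n := ndN3q1) (c := cZ)
    ⟨T.a (T.a (T.l 0) (T.l 0)) (T.a (T.a (T.l 0) (T.l 0)) (T.a (T.l 0) (T.l 0))),
      by decide +kernel⟩
theorem cN_w32 : CertNd 1073741824 166215235 201326592 134217728 (ftWall true 2 mT 1 1) [⟨4, 0⟩] ndN3q2 cZ :=
  certNd (T := (ftWall true 2 mT 1 1)) (L := [⟨4, 0⟩]) (P1 := 1073741824) (W1 := 166215235) (P3 := 201326592) (W3 := 134217728) (n := ndN3q2) (c := cZ)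
    ⟨T.a (T.l 0) (T.a (T.l 0) (T.a (T.l 1) (T.a (T.l 0) (T.c (T.l 0) (T.l 0))))),
      by decide +kernel⟩
theorem cN_w40 : CertNd 0 536870912 201326592 134217728 (ftWall true 0 mT 1 1) [] ndN4q0 cZ :=
  certNd (T := (ftWall true 0 mT 1 1)) (L := []) (P1 := 0) (W1 := 536870912) (P3 := 201326592) (W3 := 134217728) (n := ndN4q0) (c := cZ)
    ⟨T.a (T.a (T.l 0) (T.l 0)) (T.l 0),
      by decide +kernel⟩
theorem cN_w41 : CertNd 536870912 536870912 201326592 134217728 (ftWall true 1 mT 1 1) [] ndN4q1 cZ :=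
  certNd (T := (ftWall true 1 mT 1 1)) (L := []) (P1 := 536870912) (W1 := 536870912) (P3 := 201326592) (W3 := 134217728) (n := ndN4q1) (c := cZ)
    ⟨T.a (T.l 0) (T.l 0),
      by decide +kernel⟩
theorem cN_w42 : CertNd 1073741824 166215235 201326592 134217728 (ftWall true 2 mT 1 1) [⟨4, 0⟩] ndN4q2 cZ :=
  certNd (T := (ftWall true 2 mT 1 1)) (L := [⟨4, 0⟩]) (P1 := 1073741824) (W1 := 166215235) (P3 := 201326592) (W3 := 134217728) (n := ndN4q2) (c := cZ)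
    ⟨T.l 0,
      by decide +kernel⟩
theorem cN_w50 : CertNd 0 536870912 201326592 134217728 (ftWall true 0 mT 1 1) [] ndN5q0 cZ :=
  certNd (T := (ftWall true 0 mT 1 1)) (L := []) (P1 := 0) (W1 := 536870912) (P3 := 201326592) (W3 := 134217728) (n := ndN5q0) (c := cZ)
    ⟨T.a (T.a (T.l 0) (T.l 0)) (T.a (T.l 0) (T.l 0)),
      by decide +kernel⟩
theorem cN_w51 : CertNd 536870912 536870912 201326592 134217728 (ftWall true 1 mT 1 1) [] ndN5q1 cZ :=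
  certNd (T := (ftWall true 1 mT 1 1)) (L := []) (P1 := 536870912) (W1 := 536870912) (P3 := 201326592) (W3 := 134217728) (n := ndN5q1) (c := cZ)
    ⟨T.a (T.l 0) (T.l 0),
      by decide +kernel⟩
theorem cN_w52 : CertNd 1073741824 166215235 201326592 134217728 (ftWall true 2 mT 1 1) [⟨4, 0⟩] ndN5q2 cZ :=
  certNd (T := (ftWall true 2 mT 1 1)) (L := [⟨4, 0⟩]) (P1 := 1073741824) (W1 := 166215235) (P3 := 201326592) (W3 := 134217728) (n := ndN5q2) (c := cZ)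
    ⟨T.l 0,
      by decide +kernel⟩
theorem cN_st : CertSt 1073741824 31138512 201326592 134217728 true [] (((2 : ℕ) : ℝ) / ((1 : ℕ) : ℝ)) mT ndN2q2 cZ ndN3q2 cZ :=
  certSt (z := true) (L := []) (P1 := 1073741824) (W1 := 31138512) (P3 := 201326592) (W3 := 134217728) (oa := 2) (ob := 1)
    (M := mT) (n := ndN2q2) (c := cZ) (n' := ndN3q2) (c' := cZ) (sX := cv2p_fs) (sK := kn2q2_fs) (sL := l2q2_fs)
    ⟨T.l 0,
      by decide +kernel⟩
theorem cN_sm : CertSd 487186909 49684003 201326592 134217728 (ftMono true 2 mT) [] ygF xsF pcN2 dZ :=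
  certSd (T := (ftMono true 2 mT)) (L := []) (P1 := 487186909) (W1 := 49684003) (P3 := 201326592) (W3 := 134217728) (Y := ygF) (X := xsF)
    (pc := pcN2) (c := dZ) ⟨T.c (T.l 0) (T.l 0),
      by decide +kernel⟩
theorem cN_sw : CertSd 0 487186913 201326592 134217728 (ftWall true 2 mT 1 1) [] ygF xsF pcN2 dZ :=
  certSd (T := (ftWall true 2 mT 1 1)) (L := []) (P1 := 0) (W1 := 487186913) (P3 := 201326592) (W3 := 134217728) (Y := ygF) (X := xsF)
    (pc := pcN2) (c := dZ) ⟨T.a (T.a (T.c (T.l 0) (T.l 0)) (T.a (T.l 0) (T.l 0))) (T.a (T.a (T.c (T.l 0) (T.l 0)) (T.l 0)) (T.c (T.l 0) (T.l 0))),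
      by decide +kernel⟩

end Pool.Agent.Strip051.G.I3_16_5_16.Tab
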