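import Pool.Agent.Strip051.PB.FlAsm
import Pool.Agent.Strip051.G.I3_16_5_16.Tab

/-! # Slopes (generated) -/

set_option linter.all false

namespace Pool.Agent.Strip051.G.I3_16_5_16.Tab

open Pool.Agent.Strip051.PB

attribute [local irreducible] padd psub pneg pmul psq pinv psqrt psqrtg pabs pps pmax pmin pphi
  plam pcase phf pnat prat pscale pnorm pdc pnc pone ppos pnn

noncomputable def c1g_fs : Sl1 c1g := ⟨_, fun h1 => (pr_sqrtg (pr_csub (enc_pnc _ 1) (pr_scale 3 4 (pr_sq h1))))⟩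
noncomputable def kcg_6_fs : Sl2 kcg_6 := ⟨_, fun h1 h2 => (pr_addc h1 (enc_rat _ 6 25))⟩
noncomputable def kcg_9_fs : Sl2 kcg_9 := ⟨_, fun h1 h2 => (pr_addc h1 (enc_rat _ 37 91))⟩
noncomputable def kcg_12_fs : Sl2 kcg_12 := ⟨_, fun h1 h2 => (pr_addc h1 (enc_rat _ 7 16))⟩
noncomputable def kcg_13_fs : Sl2 kcg_13 := ⟨_, fun h1 h2 => (pr_scale 7177 31250 h1)⟩
noncomputable def kcg_16_fs : Sl2 kcg_16 := ⟨_, fun h1 h2 => (pr_scale 29833 6250 h1)⟩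
noncomputable def kcg_35_fs : Sl2 kcg_35 := ⟨_, fun h1 h2 => (pr_scale 919373 2812500 h1)⟩
noncomputable def kcg_38_fs : Sl2 kcg_38 := ⟨_, fun h1 h2 => (pr_scale 592501 140625 h1)⟩
noncomputable def kcg_55_fs : Sl2 kcg_55 := ⟨_, fun h1 h2 => (pr_addc h1 (enc_rat _ 7 20))⟩
noncomputable def kcg_56_fs : Sl2 kcg_56 := ⟨_, fun h1 h2 => (pr_scale 40131 321875 h1)⟩
noncomputable def kcg_59_fs : Sl2 kcg_59 := ⟨_, fun h1 h2 => (pr_scale 653653 257500 h1)⟩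
noncomputable def kcg_74_fs : Sl2 kcg_74 := ⟨_, fun h1 h2 => (pr_addc h1 (enc_rat _ 29 100))⟩
noncomputable def kcg_75_fs : Sl2 kcg_75 := ⟨_, fun h1 h2 => (pr_scale 14357 60000 h1)⟩
noncomputable def kcg_79_fs : Sl2 kcg_79 := ⟨_, fun h1 h2 => (pr_scale 1231 2000 h1)⟩
noncomputable def kcg_92_fs : Sl2 kcg_92 := ⟨_, fun h1 h2 => (pr_scale 12759 25000 h1)⟩
noncomputable def kcg_96_fs : Sl2 kcg_96 := ⟨_, fun h1 h2 => (pr_scale 1047 1000 h1)⟩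
noncomputable def kcg_116_fs : Sl2 kcg_116 := ⟨_, fun h1 h2 => (pr_addc h1 (enc_rat _ 29 200))⟩
noncomputable def kcg_119_fs : Sl2 kcg_119 := ⟨_, fun h1 h2 => (pr_addc h1 (enc_rat _ 47 247))⟩
noncomputable def kcg_120_fs : Sl2 kcg_120 := ⟨_, fun h1 h2 => (pr_scale 9707347 12280000 h1)⟩
noncomputable def kcg_124_fs : Sl2 kcg_124 := ⟨_, fun h1 h2 => (pr_scale 364819 1228000 h1)⟩
noncomputable def kcg_140_fs : Sl2 kcg_140 := ⟨_, fun h1 h2 => (pr_scale 13061607 11185000 h1)⟩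
noncomputable def kcg_145_fs : Sl2 kcg_145 := ⟨_, fun h1 h2 => (pr_scale 38779 22370 h1)⟩
noncomputable def kcg_163_fs : Sl2 kcg_163 := ⟨_, fun h1 h2 => (pr_addc h1 (enc_rat _ 1 10))⟩
noncomputable def kcg_164_fs : Sl2 kcg_164 := ⟨_, fun h1 h2 => (pr_scale 11189 9000 h1)⟩
noncomputable def kcg_169_fs : Sl2 kcg_169 := ⟨_, fun h1 h2 => (pr_scale 1172 1125 h1)⟩
noncomputable def kcg_186_fs : Sl2 kcg_186 := ⟨_, fun h1 h2 => (pr_scale 6011 7500 h1)⟩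
noncomputable def kcg_191_fs : Sl2 kcg_191 := ⟨_, fun h1 h2 => (pr_scale 227 125 h1)⟩
noncomputable def kcg_206_fs : Sl2 kcg_206 := ⟨_, fun h1 h2 => (pr_scale 16927 31250 h1)⟩
noncomputable def kcg_211_fs : Sl2 kcg_211 := ⟨_, fun h1 h2 => (pr_cmul (enc_norm (kcg_3.enc h1.l h2)) (pr_nd (pr_scale 9733 3125 h1)))⟩
noncomputable def kcg_219_fs : Sl2 kcg_219 := ⟨_, fun h1 h2 => (pr_csub (enc_rat _ 6 25) h1)⟩
noncomputable def kcg_220_fs : Sl2 kcg_220 := ⟨_, fun h1 h2 => (pr_csub (enc_rat _ 37 91) h1)⟩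
noncomputable def kcg_221_fs : Sl2 kcg_221 := ⟨_, fun h1 h2 => (pr_csub (enc_rat _ 7 16) h1)⟩
noncomputable def kcg_244_fs : Sl2 kcg_244 := ⟨_, fun h1 h2 => (pr_csub (enc_rat _ 7 20) h1)⟩
noncomputable def kcg_255_fs : Sl2 kcg_255 := ⟨_, fun h1 h2 => (pr_csub (enc_rat _ 29 100) h1)⟩
noncomputable def kcg_276_fs : Sl2 kcg_276 := ⟨_, fun h1 h2 => (pr_csub (enc_rat _ 29 200) h1)⟩
noncomputable def kcg_277_fs : Sl2 kcg_277 := ⟨_, fun h1 h2 => (pr_csub (enc_rat _ 47 247) h1)⟩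
noncomputable def kcg_296_fs : Sl2 kcg_296 := ⟨_, fun h1 h2 => (pr_csub (enc_rat _ 1 10) h1)⟩
noncomputable def kcg_fs : Sl2 kcg := ⟨_, fun h1 h2 => (pr_norm (pr_case h1 (pr_case (kcg_6_fs.snd h1 h2) (pr_case (kcg_9_fs.snd h1 h2) (pr_case (kcg_12_fs.snd h1 h2) (pr_add (pr_add (pr_addc (kcg_13_fs.snd h1 h2) (enc_rat _ 33523 100000)) (pr_cmul (enc_norm (kcg_3.enc h1.l h2)) (pr_norm (pr_addc (kcg_16_fs.snd h1 h2) (enc_rat _ 991 500))))) (pr_cmul (enc_norm (kcg_27.enc h1.l h2)) (pr_norm (pr_mul (pr_norm (pr_addc h1 (enc_rat _ 1 2))) (pr_norm (pr_csub (enc_neg (enc_rat _ 7 16)) h1)))))) (pr_add (pr_add (pr_addc (kcg_35_fs.snd h1 h2) (enc_rat _ 16999451 45000000)) (pr_cmul (enc_norm (kcg_3.enc h1.l h2)) (pr_norm (pr_addc (kcg_38_fs.snd h1 h2) (enc_rat _ 7816619 4500000))))) (pr_cmul (enc_norm (kcg_47.enc h1.l h2)) (pr_norm (pr_mul (pr_norm (kcg_12_fs.snd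 h1 h2)) (pr_norm (pr_csub (enc_neg (enc_rat _ 37 91)) h1))))))) (pr_case (kcg_55_fs.snd h1 h2) (pr_add (pr_add (pr_addc (kcg_56_fs.snd h1 h2) (enc_rat _ 6088301 20600000)) (pr_cmul (enc_norm (kcg_3.enc h1.l h2)) (pr_norm (pr_addc (kcg_59_fs.snd h1 h2) (enc_rat _ 10877113 10300000))))) (pr_cmul (enc_norm (kcg_67.enc h1.l h2)) (pr_norm (pr_mul (pr_norm (kcg_9_fs.snd h1 h2)) (pr_norm (pr_csub (enc_neg (enc_rat _ 7 20)) h1)))))) (pr_case (kcg_74_fs.snd h1 h2) (pr_add (pr_add (pr_csub (enc_rat _ 1008971 6000000) (kcg_75_fs.snd h1 h2)) (pr_cmul (enc_norm (kcg_3.enc h1.l h2)) (pr_norm (pr_addc (kcg_79_fs.snd h1 h2) (enc_rat _ 76599 200000))))) (pr_cmul (enc_norm (kcg_87.enc h1.l h2)) (pr_norm (pr_mul (pr_norm (kcg_55_fs.snd h1 h2)) (pr_norm (pr_csub (enc_neg (enc_rat _ 29 100)) h1)))))) (pr_add (pr_add (pr_csub (enc_rat _ 111937 1250000) (kcg_92_fs.snd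 h1 h2)) (pr_cmul (enc_norm (kcg_3.enc h1.l h2)) (pr_norm (pr_subr 9913 100000 (pr_neg (kcg_96_fs.snd h1 h2)))))) (pr_cmul (enc_norm (kcg_106.enc h1.l h2)) (pr_norm (pr_mul (pr_norm (kcg_74_fs.snd h1 h2)) (pr_norm (pr_csub (enc_neg (enc_rat _ 6 25)) h1))))))))) (pr_case (kcg_116_fs.snd h1 h2) (pr_case (kcg_119_fs.snd h1 h2) (pr_add (pr_add (pr_csub (enc_rat _ 685097 30700000) (kcg_120_fs.snd h1 h2)) (pr_cmul (enc_norm (kcg_3.enc h1.l h2)) (pr_norm (pr_csub (enc_rat _ 2482091 30700000) (kcg_124_fs.snd h1 h2))))) (pr_cmul (enc_norm (kcg_135.enc h1.l h2)) (pr_norm (pr_mul (pr_norm (kcg_6_fs.snd h1 h2)) (pr_norm (pr_csub (enc_neg (enc_rat _ 47 247)) h1)))))) (pr_add (pr_add (pr_subr 22134641 447400000 (pr_neg (kcg_140_fs.snd h1 h2))) (pr_cmul (enc_norm (kcg_3.enc h1.l h2)) (pr_norm (pr_addc (kcg_145_fs.snd h1 h2) (enc_rat _ 52260953 111850000))))) (pr_cmul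 (enc_norm (kcg_155.enc h1.l h2)) (pr_norm (pr_mul (pr_norm (kcg_119_fs.snd h1 h2)) (pr_norm (pr_csub (enc_neg (enc_rat _ 29 200)) h1))))))) (pr_case (kcg_163_fs.snd h1 h2) (pr_add (pr_add (pr_subr 543719 9000000 (pr_neg (kcg_164_fs.snd h1 h2))) (pr_cmul (enc_norm (kcg_3.enc h1.l h2)) (pr_norm (pr_addc (kcg_169_fs.snd h1 h2) (enc_rat _ 82561 225000))))) (pr_cmul (enc_norm (kcg_178.enc h1.l h2)) (pr_norm (pr_mul (pr_norm (kcg_116_fs.snd h1 h2)) (pr_norm (pr_csub (enc_neg (enc_rat _ 1 10)) h1)))))) (pr_case (pr_addc h1 (enc_rat _ 1 16)) (pr_add (pr_add (pr_subr 48713 3000000 (pr_neg (kcg_186_fs.snd h1 h2))) (pr_cmul (enc_norm (kcg_3.enc h1.l h2)) (pr_norm (pr_csub (enc_rat _ 2029 25000) (kcg_191_fs.snd h1 h2))))) (pr_cmul (enc_norm (kcg_201.enc h1.l h2)) (pr_norm (pr_mul (pr_norm (kcg_163_fs.snd h1 h2)) (pr_norm (pr_csub (enc_neg (enc_rat _ 1 16))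 h1)))))) (pr_sub (pr_neg (kcg_206_fs.snd h1 h2)) (kcg_211_fs.snd h1 h2)))))) (pr_neg (pr_case (kcg_219_fs.snd h1 h2) (pr_case (kcg_220_fs.snd h1 h2) (pr_case (kcg_221_fs.snd h1 h2) (pr_add (pr_add (pr_csub (enc_rat _ 33523 100000) (kcg_13_fs.snd h1 h2)) (pr_cmul (enc_norm (kcg_3.enc h1.l h2)) (pr_norm (pr_csub (enc_rat _ 991 500) (kcg_16_fs.snd h1 h2))))) (pr_cmul (enc_norm (kcg_27.enc h1.l h2)) (pr_norm (pr_mul (pr_norm (pr_csub (enc_rat _ 1 2) h1)) (pr_norm (pr_subr 7 16 h1)))))) (pr_add (pr_add (pr_csub (enc_rat _ 16999451 45000000) (kcg_35_fs.snd h1 h2)) (pr_cmul (enc_norm (kcg_3.enc h1.l h2)) (pr_norm (pr_csub (enc_rat _ 7816619 4500000) (kcg_38_fs.snd h1 h2))))) (pr_cmul (enc_norm (kcg_47.enc h1.l h2)) (pr_norm (pr_mul (pr_norm (kcg_221_fs.snd h1 h2)) (pr_norm (pr_subr 37 91 h1))))))) (pr_case (kcg_244_fs.snd h1 h2) (pr_add (pr_add (pr_csub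 (enc_rat _ 6088301 20600000) (kcg_56_fs.snd h1 h2)) (pr_cmul (enc_norm (kcg_3.enc h1.l h2)) (pr_norm (pr_csub (enc_rat _ 10877113 10300000) (kcg_59_fs.snd h1 h2))))) (pr_cmul (enc_norm (kcg_67.enc h1.l h2)) (pr_norm (pr_mul (pr_norm (kcg_220_fs.snd h1 h2)) (pr_norm (pr_subr 7 20 h1)))))) (pr_case (kcg_255_fs.snd h1 h2) (pr_add (pr_add (pr_addc (kcg_75_fs.snd h1 h2) (enc_rat _ 1008971 6000000)) (pr_cmul (enc_norm (kcg_3.enc h1.l h2)) (pr_norm (pr_csub (enc_rat _ 76599 200000) (kcg_79_fs.snd h1 h2))))) (pr_cmul (enc_norm (kcg_87.enc h1.l h2)) (pr_norm (pr_mul (pr_norm (kcg_244_fs.snd h1 h2)) (pr_norm (pr_subr 29 100 h1)))))) (pr_add (pr_add (pr_addc (kcg_92_fs.snd h1 h2) (enc_rat _ 111937 1250000)) (pr_cmul (enc_norm (kcg_3.enc h1.l h2)) (pr_norm (pr_subr 9913 100000 (kcg_96_fs.snd h1 h2))))) (pr_cmul (enc_norm (kcg_106.enc h1.l h2)) (pr_norm (pr_mul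 (pr_norm (kcg_255_fs.snd h1 h2)) (pr_norm (pr_subr 6 25 h1))))))))) (pr_case (kcg_276_fs.snd h1 h2) (pr_case (kcg_277_fs.snd h1 h2) (pr_add (pr_add (pr_addc (kcg_120_fs.snd h1 h2) (enc_rat _ 685097 30700000)) (pr_cmul (enc_norm (kcg_3.enc h1.l h2)) (pr_norm (pr_addc (kcg_124_fs.snd h1 h2) (enc_rat _ 2482091 30700000))))) (pr_cmul (enc_norm (kcg_135.enc h1.l h2)) (pr_norm (pr_mul (pr_norm (kcg_219_fs.snd h1 h2)) (pr_norm (pr_subr 47 247 h1)))))) (pr_add (pr_add (pr_subr 22134641 447400000 (kcg_140_fs.snd h1 h2)) (pr_cmul (enc_norm (kcg_3.enc h1.l h2)) (pr_norm (pr_csub (enc_rat _ 52260953 111850000) (kcg_145_fs.snd h1 h2))))) (pr_cmul (enc_norm (kcg_155.enc h1.l h2)) (pr_norm (pr_mul (pr_norm (kcg_277_fs.snd h1 h2)) (pr_norm (pr_subr 29 200 h1))))))) (pr_case (kcg_296_fs.snd h1 h2) (pr_add (pr_add (pr_subr 543719 9000000 (kcg_164_fs.snd h1 h2)) (pr_cmul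 (enc_norm (kcg_3.enc h1.l h2)) (pr_norm (pr_csub (enc_rat _ 82561 225000) (kcg_169_fs.snd h1 h2))))) (pr_cmul (enc_norm (kcg_178.enc h1.l h2)) (pr_norm (pr_mul (pr_norm (kcg_276_fs.snd h1 h2)) (pr_norm (pr_subr 1 10 h1)))))) (pr_case (pr_csub (enc_rat _ 1 16) h1) (pr_add (pr_add (pr_subr 48713 3000000 (kcg_186_fs.snd h1 h2)) (pr_cmul (enc_norm (kcg_3.enc h1.l h2)) (pr_norm (pr_addc (kcg_191_fs.snd h1 h2) (enc_rat _ 2029 25000))))) (pr_cmul (enc_norm (kcg_201.enc h1.l h2)) (pr_norm (pr_mul (pr_norm (kcg_296_fs.snd h1 h2)) (pr_norm (pr_subr 1 16 h1)))))) (pr_add (kcg_206_fs.snd h1 h2) (kcg_211_fs.snd h1 h2)))))))))⟩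
noncomputable def kf0q0_9_fs : Sl2 kf0q0_9 := ⟨_, fun h1 h2 => (pr_scale 3 2 h1)⟩
noncomputable def kf0q0_12_fs : Sl2 kf0q0_12 := ⟨_, fun h1 h2 => (pr_cadd (enc_pnc _ 1) (c1g_fs.snd h1))⟩
noncomputable def kf0q0_fs : Sl2 kf0q0 := ⟨_, fun h1 h2 => (pr_norm (pr_add (pr_mul (pr_norm (pr_mul (pr_norm (pr_sub (c1g_fs.snd h1) (kf0q0_9_fs.snd h1 h2))) (pr_norm (kf0q0_12_fs.snd h1 h2)))) (pr_nd (pr_inv (pr_sub (kf0q0_12_fs.snd h1 h2) (kf0q0_9_fs.snd h1 h2))))) (pr_mul h1 (kcg_fs.snd (pr_norm (pr_sub (pr_scale 3 4 h1) (pr_half (c1g_fs.snd h1)))) h2))))⟩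
noncomputable def txg_6_fs : Sl3 txg_6 := ⟨_, fun h1 h2 h3 => (pr_add h1 (pr_half h2))⟩
noncomputable def txg_27_fs : Sl3 txg_27 := ⟨_, fun h1 h2 h3 => (pr_addc h1 (enc_rat _ 7 16))⟩
noncomputable def txg_78_fs : Sl3 txg_78 := ⟨_, fun h1 h2 h3 => (pr_addc h1 (enc_rat _ 47 247))⟩
noncomputable def txg_80_fs : Sl3 txg_80 := ⟨_, fun h1 h2 h3 => (pr_subr 3 25 h1)⟩
noncomputable def txg_83_fs : Sl3 txg_83 := ⟨_, fun h1 h2 h3 => (pr_addc h1 (enc_rat _ 1 10))⟩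
noncomputable def txg_86_fs : Sl3 txg_86 := ⟨_, fun h1 h2 h3 => (pr_addc h1 (enc_rat _ 7 50))⟩
noncomputable def txg_134_fs : Sl3 txg_134 := ⟨_, fun h1 h2 h3 => (pr_addc h1 (enc_rat _ 1 16))⟩
noncomputable def txg_153_fs : Sl3 txg_153 := ⟨_, fun h1 h2 h3 => (pr_subr 1 16 h1)⟩
noncomputable def txg_196_fs : Sl3 txg_196 := ⟨_, fun h1 h2 h3 => (pr_subr 8 25 h1)⟩
noncomputable def txg_198_fs : Sl3 txg_198 := ⟨_, fun h1 h2 h3 => (pr_subr 9 50 h1)⟩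
noncomputable def txg_219_fs : Sl3 txg_219 := ⟨_, fun h1 h2 h3 => (pr_subr 1 4 h1)⟩
noncomputable def txg_259_fs : Sl3 txg_259 := ⟨_, fun h1 h2 h3 => (pr_subr 19 50 h1)⟩
noncomputable def txg_279_fs : Sl3 txg_279 := ⟨_, fun h1 h2 h3 => (pr_subr 7 16 h1)⟩
noncomputable def txg_fs : Sl3 txg := ⟨_, fun h1 h2 h3 => (pr_case (pr_addc h1 (enc_rat _ 37 91)) (pr_case (txg_27_fs.snd h1 h2 h3) (pr_add (pr_add (pr_addc (pr_scale 5319 62500 h1) (enc_rat _ 5319 125000)) (pr_cmul (enc_norm (txg_4.enc h1.l h2.l h3)) (pr_norm (pr_addc (pr_scale 361 1250 h1) (enc_rat _ 361 2500))))) (pr_cmul (enc_norm (enc_subr 239039 500000 (enc_neg (enc_scale 6999 100000 (txg_4.enc h1.l h2.l h3))))) (pr_norm (pr_mul (pr_norm (pr_addc h1 (enc_rat _ 1 2))) (pr_norm (pr_csub (enc_neg (enc_rat _ 7 16)) h1)))))) (pr_add (pr_add (pr_add (pr_addc (pr_scale 8492521 73125000 h1) (enc_rat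 _ 65670877 1170000000)) (pr_cmul (enc_norm (txg_4.enc h1.l h2.l h3)) (pr_norm (pr_addc (pr_scale 3046217 10237500 h1) (enc_rat _ 3468587 23400000))))) (pr_cmul (txg_61.enc h1.l h2.l h3) (pr_norm (pr_addc (pr_scale 797 9375 h1) (enc_rat _ 5579 150000))))) (pr_cmul (enc_norm (enc_subr 2293 100000 (enc_neg (enc_scale 51091 100000 (txg_4.enc h1.l h2.l h3))))) (pr_norm (pr_mul (pr_norm (txg_27_fs.snd h1 h2 h3)) (pr_norm (pr_csub (enc_neg (enc_rat _ 37 91)) h1))))))) (pr_case (txg_78_fs.snd h1 h2 h3) (pr_sub (pr_mul (pr_norm (pr_csub (enc_pnc _ 1) h2)) (pr_norm (pr_subn 1 (pr_nat 2 h2)))) (pr_mul (pr_norm (pr_nat 2 (pr_subc (pr_scale 4 3 (txg_6_fs.snd h1 h2 h3)) h3))) (pr_norm (pr_mul (pr_norm (pr_subn 1 (pr_add (pr_scale 2 3 (txg_6_fs.snd h1 h2 h3)) h2))) (kcg_fs.snd h1 h3))))) (pr_case (txg_80_fs.snd h1 h2 h3) (pr_case (txg_83_fs.snd h1 h2 h3) (pr_case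 (txg_86_fs.snd h1 h2 h3) (pr_add (pr_add (pr_add (pr_addc (pr_scale 10369643 53352000 h1) (enc_rat _ 8517731 106704000)) (pr_cmul (enc_norm (txg_4.enc h1.l h2.l h3)) (pr_norm (pr_csub (enc_rat _ 51360533 1278225000) (pr_scale 44686 6391125 h1))))) (pr_cmul (txg_61.enc h1.l h2.l h3) (pr_norm (pr_subr 528913 5175000 (pr_neg (pr_scale 75559 103500 h1)))))) (pr_cmul (enc_norm (enc_sub (enc_rat _ 732341 1000000) (enc_scale 471111 100000 (txg_4.enc h1.l h2.l h3)))) (pr_norm (pr_mul (pr_norm (txg_78_fs.snd h1 h2 h3)) (pr_norm (pr_csub (enc_neg (enc_rat _ 7 50)) h1)))))) (pr_add (pr_add (pr_addc (pr_scale 5189 40000 h1) (enc_rat _ 141553 2000000)) (pr_cmul (enc_norm (txg_4.enc h1.l h2.l h3)) (pr_norm (pr_addc (pr_scale 149 400 h1) (enc_rat _ 9331 100000))))) (pr_cmul (enc_norm (enc_sub (enc_rat _ 329101 500000) (enc_scale 90487 25000 (txg_4.enc h1.l h2.l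 h3)))) (pr_norm (pr_mul (pr_norm (txg_86_fs.snd h1 h2 h3)) (pr_norm (pr_csub (enc_neg (enc_rat _ 1 10)) h1))))))) (pr_case (txg_134_fs.snd h1 h2 h3) (pr_add (pr_add (pr_addc (pr_scale 471 6250 h1) (enc_rat _ 3267 50000)) (pr_cmul (enc_norm (txg_4.enc h1.l h2.l h3)) (pr_norm (pr_addc (pr_scale 359 625 h1) (enc_rat _ 227 2000))))) (pr_cmul (enc_norm (enc_sub (enc_rat _ 93517 125000) (enc_scale 76067 50000 (txg_4.enc h1.l h2.l h3)))) (pr_norm (pr_mul (pr_norm (txg_83_fs.snd h1 h2 h3)) (pr_norm (pr_csub (enc_neg (enc_rat _ 1 16)) h1)))))) (pr_case (txg_153_fs.snd h1 h2 h3) (pr_add (pr_add (pr_csub (enc_rat _ 119233 2000000) (pr_scale 2027 125000 h1)) (pr_cmul (enc_norm (txg_4.enc h1.l h2.l h3)) (pr_norm (pr_csub (enc_rat _ 7699 100000) (pr_scale 61 6250 h1))))) (pr_cmul (enc_norm (enc_add (enc_scale 32057 6250 (txg_4.enc h1.l h2.l h3)) (enc_rat _ 507923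 1000000))) (pr_norm (pr_mul (pr_norm (txg_134_fs.snd h1 h2 h3)) (pr_norm (pr_csub (enc_rat _ 1 16) h1)))))) (pr_add (pr_add (pr_csub (enc_rat _ 1503969 23000000) (pr_scale 1561 14375 h1)) (pr_cmul (enc_norm (txg_4.enc h1.l h2.l h3)) (pr_norm (pr_csub (enc_rat _ 62331 575000) (pr_scale 1473 2875 h1))))) (pr_cmul (enc_norm (enc_sub (enc_rat _ 125661 250000) (enc_scale 240919 100000 (txg_4.enc h1.l h2.l h3)))) (pr_norm (pr_mul (pr_norm (txg_153_fs.snd h1 h2 h3)) (pr_norm (pr_csub (enc_rat _ 3 25) h1))))))))) (pr_case (txg_196_fs.snd h1 h2 h3) (pr_case (txg_198_fs.snd h1 h2 h3) (pr_add (pr_add (pr_csub (enc_rat _ 73531 1000000) (pr_scale 5293 30000 h1)) (pr_cmul (enc_norm (txg_4.enc h1.l h2.l h3)) (pr_norm (pr_csub (enc_rat _ 2893 50000) (pr_scale 547 6000 h1))))) (pr_cmul (enc_norm (enc_sub (enc_rat _ 324527 500000) (enc_scale 58849 12500 (txg_4.enc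 h1.l h2.l h3)))) (pr_norm (pr_mul (pr_norm (txg_80_fs.snd h1 h2 h3)) (pr_norm (pr_csub (enc_rat _ 9 50) h1)))))) (pr_case (txg_219_fs.snd h1 h2 h3) (pr_add (pr_add (pr_csub (enc_rat _ 109037 1400000) (pr_scale 14043 70000 h1)) (pr_cmul (enc_norm (txg_4.enc h1.l h2.l h3)) (pr_norm (pr_addc (pr_scale 243 1750 h1) (enc_rat _ 11519 700000))))) (pr_cmul (enc_norm (enc_subr 105589 500000 (enc_scale 9339 12500 (txg_4.enc h1.l h2.l h3)))) (pr_norm (pr_mul (pr_norm (txg_198_fs.snd h1 h2 h3)) (pr_norm (pr_csub (enc_rat _ 1 4) h1)))))) (pr_add (pr_add (pr_csub (enc_rat _ 96057 1400000) (pr_scale 11447 70000 h1)) (pr_cmul (enc_norm (txg_4.enc h1.l h2.l h3)) (pr_norm (pr_addc (pr_scale 1 140 h1) (enc_rat _ 34569 700000))))) (pr_cmul (enc_norm (enc_subr 15919 50000 (enc_scale 11367 10000 (txg_4.enc h1.l h2.l h3)))) (pr_norm (pr_mul (pr_norm (txg_219_fs.snd h1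 h2 h3)) (pr_norm (pr_csub (enc_rat _ 8 25) h1)))))))) (pr_case (txg_259_fs.snd h1 h2 h3) (pr_add (pr_add (pr_csub (enc_rat _ 57307 1000000) (pr_scale 641 5000 h1)) (pr_cmul (enc_norm (txg_4.enc h1.l h2.l h3)) (pr_norm (pr_csub (enc_rat _ 34829 300000) (pr_scale 151 750 h1))))) (pr_cmul (enc_norm (enc_subr 217469 1000000 (enc_scale 214761 100000 (txg_4.enc h1.l h2.l h3)))) (pr_norm (pr_mul (pr_norm (txg_196_fs.snd h1 h2 h3)) (pr_norm (pr_csub (enc_rat _ 19 50) h1)))))) (pr_case (txg_279_fs.snd h1 h2 h3) (pr_add (pr_add (pr_csub (enc_rat _ 1083601 23000000) (pr_scale 5829 57500 h1)) (pr_cmul (enc_norm (txg_4.enc h1.l h2.l h3)) (pr_norm (pr_csub (enc_rat _ 410409 2300000) (pr_scale 2101 5750 h1))))) (pr_cmul (enc_norm (enc_subr 23977 100000 (enc_scale 6071 10000 (txg_4.enc h1.l h2.l h3)))) (pr_norm (pr_mul (pr_norm (txg_259_fs.snd h1 h2 h3)) (pr_norm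 (pr_csub (enc_rat _ 7 16) h1)))))) (pr_add (pr_add (pr_csub (enc_rat _ 1381 62500) (pr_scale 1381 31250 h1)) (pr_cmul (enc_norm (txg_4.enc h1.l h2.l h3)) (pr_norm (pr_csub (enc_rat _ 929 6250) (pr_scale 929 3125 h1))))) (pr_cmul (enc_norm (enc_subr 694429 1000000 (enc_neg (enc_scale 164417 100000 (txg_4.enc h1.l h2.l h3))))) (pr_norm (pr_mul (pr_norm (txg_279_fs.snd h1 h2 h3)) (pr_norm (pr_csub (enc_rat _ 1 2) h1))))))))))))⟩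
noncomputable def l0q0_fs : Sl2 l0q0 := ⟨_, fun h1 h2 => (pr_norm (txg_fs.snd (pr_norm (pr_sub (pr_scale 3 4 h1) (pr_half (c1g_fs.snd h1)))) (pr_nd (c1g_fs.snd h1)) h2))⟩
noncomputable def swg_fs : Sl1 swg := ⟨_, fun h1 => (pr_sqrt (pr_csub (enc_pnc _ 1) (pr_scale 3 4 (pr_sq (pr_norm (pr_subn 1 h1))))))⟩
noncomputable def cv1m_fs : Sl1 cv1m := ⟨_, fun h1 => (pr_norm (pr_add (pr_half (c1g_fs.snd h1)) (pr_half (pr_addc (swg_fs.snd h1) (enc_rat _ 1 2)))))⟩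
noncomputable def bf1q0_fs : Sl2 bf1q0 := ⟨_, fun h1 h2 => (pr_norm (pr_sub (pr_csub (enc_pnc _ 1) (pr_scale 90833 125000 h1)) (pr_cmul (enc_norm (enc_subr 1 4 h2)) (pr_nd (pr_scale 35029 50000 h1)))))⟩
noncomputable def kf1q0_fs : Sl2 kf1q0 := ⟨_, fun h1 h2 => (pr_norm (pr_mul (cv1m_fs.snd h1) (bf1q0_fs.snd h1 h2)))⟩
noncomputable def bx1q0_fs : Sl2 bx1q0 := ⟨_, fun h1 h2 => (pr_norm (pr_add (pr_scale 1449 62500 h1) (pr_cmul (enc_norm (enc_subr 1 4 h2)) (pr_nd (pr_scale 216 625 h1)))))⟩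
noncomputable def l1q0_fs : Sl2 l1q0 := ⟨_, fun h1 h2 => (pr_norm (pr_mul (cv1m_fs.snd h1) (bx1q0_fs.snd h1 h2)))⟩
noncomputable def cv2m_fs : Sl1 cv2m := ⟨_, fun h1 => (pr_norm (pr_add (pr_scale 1 10 (c1g_fs.snd h1)) (pr_scale 9 10 (pr_addc (swg_fs.snd h1) (enc_rat _ 1 2)))))⟩
noncomputable def bf2q0_fs : Sl2 bf2q0 := ⟨_, fun h1 h2 => (pr_norm (pr_sub (pr_csub (enc_pnc _ 1) (pr_scale 57807 100000 h1)) (pr_cmul (enc_norm (enc_subr 1 4 h2)) (pr_nd (pr_scale 34099 25000 h1)))))⟩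
noncomputable def kf2q0_fs : Sl2 kf2q0 := ⟨_, fun h1 h2 => (pr_norm (pr_mul (cv2m_fs.snd h1) (bf2q0_fs.snd h1 h2)))⟩
noncomputable def bx2q0_fs : Sl2 bx2q0 := ⟨_, fun h1 h2 => (pr_norm (pr_sub (pr_scale 64033 500000 h1) (pr_cmul (enc_norm (enc_subr 1 4 h2)) (pr_nd (pr_scale 1181 2500 h1)))))⟩
noncomputable def l2q0_fs : Sl2 l2q0 := ⟨_, fun h1 h2 => (pr_norm (pr_mul (cv2m_fs.snd h1) (bx2q0_fs.snd h1 h2)))⟩
noncomputable def kf0q1_10_fs : Sl2 kf0q1_10 := ⟨_, fun h1 h2 => (pr_scale 3 2 h1)⟩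
noncomputable def kf0q1_fs : Sl2 kf0q1 := ⟨_, fun h1 h2 => (pr_norm (pr_add (pr_mul (pr_norm (pr_mul (pr_norm (pr_cadd (enc_pnc _ 1) (pr_nat 2 (c1g_fs.snd h1)))) (pr_norm (pr_sub (kf0q1_10_fs.snd h1 h2) (c1g_fs.snd h1))))) (pr_nd (pr_inv (pr_nat 2 (pr_sub (pr_cadd (enc_pnc _ 1) (kf0q1_10_fs.snd h1 h2)) (c1g_fs.snd h1)))))) (pr_mul (pr_norm (pr_subn 1 h1)) (kcg_fs.snd (pr_norm (pr_sub (pr_scale 3 4 h1) (pr_half (c1g_fs.snd h1)))) h2))))⟩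
noncomputable def l0q1_fs : Sl2 l0q1 := ⟨_, fun h1 h2 => (pr_norm (txg_fs.snd (pr_norm (pr_sub (pr_scale 3 4 h1) (pr_half (c1g_fs.snd h1)))) (pr_nd (c1g_fs.snd h1)) h2))⟩
noncomputable def cv2p_fs : Sl1 cv2p := ⟨_, fun h1 => (pr_norm (pr_add (pr_scale 1 10 (c1g_fs.snd h1)) (pr_scale 9 10 (pr_subr 1 2 (swg_fs.snd h1)))))⟩
noncomputable def bf2q2_fs : Sl2 bf2q2 := ⟨_, fun h1 h2 => (pr_norm (pr_case (pr_subr 11 10 h1) (pr_case (pr_subr 103 100 h1) (pr_add (pr_csub (enc_rat _ 19487 15000) (pr_scale 4487 15000 h1)) (pr_cmul (enc_norm (bf2q2_3.enc h1.l h2)) (pr_norm (pr_csub (enc_rat _ 77 375) (pr_scale 77 375 h1))))) (pr_case (pr_subr 53 50 h1) (pr_add (pr_csub (enc_rat _ 1340299 1000000) (pr_scale 3391 10000 h1)) (pr_cmul (enc_norm (bf2q2_3.enc h1.l h2)) (pr_norm (pr_subr 719 100000 (pr_scale 1 1000 h1))))) (pr_add (pr_csub (enc_rat _ 693867 500000)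 (pr_scale 7677 20000 h1)) (pr_cmul (enc_norm (bf2q2_3.enc h1.l h2)) (pr_norm (pr_subr 2663 8000 (pr_scale 1233 4000 h1))))))) (pr_case (pr_subr 5 4 h1) (pr_case (pr_subr 29 25 h1) (pr_add (pr_csub (enc_rat _ 4376327 3000000) (pr_scale 13453 30000 h1)) (pr_cmul (enc_norm (bf2q2_3.enc h1.l h2)) (pr_norm (pr_subr 571 800 (pr_scale 1309 2000 h1))))) (pr_add (pr_csub (enc_rat _ 13586137 9000000) (pr_scale 443 900 h1)) (pr_cmul (enc_norm (bf2q2_3.enc h1.l h2)) (pr_norm (pr_subr 9141 100000 (pr_scale 59 500 h1)))))) (pr_case (pr_subr 27 20 h1) (pr_add (pr_csub (enc_rat _ 3048661 2000000) (pr_scale 50403 100000 h1)) (pr_cmul (enc_norm (bf2q2_3.enc h1.l h2)) (pr_norm (pr_csub (enc_rat _ 15343 200000) (pr_scale 33 2000 h1))))) (pr_add (pr_csub (enc_rat _ 761803 500000) (pr_scale 18881 37500 h1)) (pr_cmul (enc_norm (bf2q2_3.enc h1.l h2)) (pr_norm (pr_csub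 (enc_rat _ 11213 100000) (pr_scale 641 15000 h1)))))))))⟩
noncomputable def kf2q2_fs : Sl2 kf2q2 := ⟨_, fun h1 h2 => (pr_norm (pr_mul (cv2p_fs.snd h1) (bf2q2_fs.snd h1 h2)))⟩
noncomputable def bx2q2_fs : Sl2 bx2q2 := ⟨_, fun h1 h2 => (pr_norm (pr_case (pr_subr 11 10 h1) (pr_case (pr_subr 103 100 h1) (pr_add (pr_subr 863 10000 (pr_scale 863 10000 h1)) (pr_cmul (enc_norm (bx2q2_3.enc h1.l h2)) (pr_norm (pr_subr 221 750 (pr_scale 221 750 h1))))) (pr_case (pr_subr 53 50 h1) (pr_add (pr_subr 166331 1000000 (pr_scale 41 250 h1)) (pr_cmul (enc_norm (bx2q2_3.enc h1.l h2)) (pr_norm (pr_subr 60401 100000 (pr_scale 119 200 h1))))) (pr_add (pr_subr 121511 500000 (pr_scale 4727 20000 h1)) (pr_cmul (enc_norm (bx2q2_3.enc h1.l h2)) (pr_norm (pr_subr 178519 200000 (pr_scale 3469 4000 h1))))))) (pr_case (pr_subr 5 4 h1) (pr_case (pr_subr 29 25 h1) (pr_add (pr_subr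 312157 1000000 (pr_scale 187 625 h1)) (pr_cmul (enc_norm (bx2q2_3.enc h1.l h2)) (pr_norm (pr_subr 28699 75000 (pr_scale 1211 3000 h1))))) (pr_add (pr_subr 2434501 9000000 (pr_scale 1481 5625 h1)) (pr_cmul (enc_norm (bx2q2_3.enc h1.l h2)) (pr_norm (pr_subr 8431 15000 (pr_scale 67 120 h1)))))) (pr_case (pr_subr 27 20 h1) (pr_add (pr_subr 687303 2000000 (pr_scale 32181 100000 h1)) (pr_cmul (enc_norm (bx2q2_3.enc h1.l h2)) (pr_norm (pr_subr 727 5000 (pr_scale 9 40 h1))))) (pr_add (pr_subr 467019 1000000 (pr_scale 61979 150000 h1)) (pr_cmul (enc_norm (bx2q2_3.enc h1.l h2)) (pr_norm (pr_subr 123467 100000 (pr_scale 7739 7500 h1)))))))))⟩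
noncomputable def l2q2_fs : Sl2 l2q2 := ⟨_, fun h1 h2 => (pr_norm (pr_mul (cv2p_fs.snd h1) (bx2q2_fs.snd h1 h2)))⟩
noncomputable def gsg_fs : Sl1 gsg := ⟨_, fun h1 => (pr_sqrt (pr_csub (enc_pnc _ 1) (pr_scale 3 4 (pr_sq h1))))⟩
noncomputable def gug_fs : Sl1 gug := ⟨_, fun h1 => (pr_norm (pr_add (pr_scale 3 4 h1) (pr_scale 3 2 (pr_csub (enc_pnc _ 1) (gsg_fs.snd h1)))))⟩
noncomputable def kug_2_fs : Sl1 kug_2 := ⟨_, fun h1 => (pr_sq h1)⟩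
noncomputable def kug_fs : Sl1 kug := ⟨_, fun h1 => (pr_norm (pr_add (pr_add (pr_scale 3 4 h1) (pr_scale 3 2 (kug_2_fs.snd h1))) (pr_mul (pr_norm (pr_mul (pr_nd (pr_scale 3 4 (kug_2_fs.snd h1))) (pr_nd (pr_inv (gsg_fs.snd h1))))) (gug_fs.snd h1))))⟩
noncomputable def kp0q0_8_fs : Sl2 kp0q0_8 := ⟨_, fun h1 h2 => (pr_sub (pr_scale 3 4 h1) (pr_half (c1g_fs.snd h1)))⟩
noncomputable def kp0q0_fs : Sl2 kp0q0 := ⟨_, fun h1 h2 => (pr_norm (pr_case (pr_addc (kp0q0_8_fs.snd h1 h2) (enc_rat _ 37 91)) (pr_mul h1 (pr_norm (pr_add (pr_subr 287795200079 170000000000 (pr_neg (pr_scale 443615160079 85000000000 (kp0q0_8_fs.snd h1 h2)))) (pr_cmul (enc_norm (kp0q0_3.enc h1.l h2)) (pr_norm (pr_subr 50199029999 8500000000 (pr_neg (pr_scale 61209419999 4250000000 (kp0q0_8_fs.snd h1 h2))))))))) (pr_case (pr_addc (kp0q0_8_fs.snd h1 h2) (enc_rat _ 47 247)) (pr_sub (kug_fs.snd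 h1) (pr_mul h1 (pr_norm (pr_mul (kcg_fs.snd (pr_norm (kp0q0_8_fs.snd h1 h2)) h2) (pr_norm (pr_add (gug_fs.snd h1) (pr_nat 2 (c1g_fs.snd h1)))))))) (pr_mul h1 (pr_norm (pr_add (pr_csub (enc_rat _ 1692617012971 3410000000000) (pr_scale 4818182092971 1705000000000 (kp0q0_8_fs.snd h1 h2))) (pr_cmul (enc_norm (kp0q0_3.enc h1.l h2)) (pr_norm (pr_subr 1982826199963 3410000000000 (pr_neg (pr_scale 2434283200037 1705000000000 (kp0q0_8_fs.snd h1 h2))))))))))))⟩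
noncomputable def kn0q0_fs : Sl2 kn0q0 := ⟨_, fun h1 h2 => (pr_norm (pr_add (pr_cmul (enc_norm (enc_add (enc_pnc _ 1) (enc_mul (mug3.enc h2) (gug.enc h2)))) (kf0q0_fs.snd h1 h2)) (pr_cmul (mug3.enc h2) (kp0q0_fs.snd h1 h2))))⟩
noncomputable def bd1q0_fs : Sl2 bd1q0 := ⟨_, fun h1 h2 => (pr_norm (pr_sub (pr_neg (pr_scale 95271 500000 h1)) (pr_cmul (enc_norm (enc_subr 1 4 h2)) (pr_nd (pr_scale 2437 12500 h1)))))⟩
noncomputable def kp1q0_fs : Sl2 kp1q0 := ⟨_, fun h1 h2 => (pr_norm (pr_mul (cv1m_fs.snd h1) (bd1q0_fs.snd h1 h2)))⟩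
noncomputable def kn1q0_fs : Sl2 kn1q0 := ⟨_, fun h1 h2 => (pr_norm (pr_add (pr_cmul (enc_norm (enc_add (enc_pnc _ 1) (enc_mul (mug3.enc h2) (gug.enc h2)))) (kf1q0_fs.snd h1 h2)) (pr_cmul (mug3.enc h2) (kp1q0_fs.snd h1 h2))))⟩
noncomputable def bd2q0_fs : Sl2 bd2q0 := ⟨_, fun h1 h2 => (pr_norm (pr_sub (pr_neg (pr_scale 47523 250000 h1)) (pr_cmul (enc_norm (enc_subr 1 4 h2)) (pr_nd (pr_scale 7509 5000 h1)))))⟩
noncomputable def kp2q0_fs : Sl2 kp2q0 := ⟨_, fun h1 h2 => (pr_norm (pr_mul (cv2m_fs.snd h1) (bd2q0_fs.snd h1 h2)))⟩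
noncomputable def kn2q0_fs : Sl2 kn2q0 := ⟨_, fun h1 h2 => (pr_norm (pr_add (pr_cmul (enc_norm (enc_add (enc_pnc _ 1) (enc_mul (mug3.enc h2) (gug.enc h2)))) (kf2q0_fs.snd h1 h2)) (pr_cmul (mug3.enc h2) (kp2q0_fs.snd h1 h2))))⟩
noncomputable def kp0q1_9_fs : Sl2 kp0q1_9 := ⟨_, fun h1 h2 => (pr_sub (pr_scale 3 4 h1) (pr_half (c1g_fs.snd h1)))⟩
noncomputable def kp0q1_fs : Sl2 kp0q1 := ⟨_, fun h1 h2 => (pr_norm (pr_mul (pr_norm (pr_subn 1 h1)) (pr_norm (pr_add (pr_csub (enc_rat _ 1692617012971 3410000000000) (pr_scale 4818182092971 1705000000000 (kp0q1_9_fs.snd h1 h2))) (pr_cmul (enc_norm (enc_subr 1 4 h2)) (pr_norm (pr_subr 1982826199963 3410000000000 (pr_neg (pr_scale 2434283200037 1705000000000 (kp0q1_9_fs.snd h1 h2))))))))))⟩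
noncomputable def kn0q1_fs : Sl2 kn0q1 := ⟨_, fun h1 h2 => (pr_norm (pr_add (pr_cmul (enc_norm (enc_add (enc_pnc _ 1) (enc_mul (mug3.enc h2) (gug.enc h2)))) (kf0q1_fs.snd h1 h2)) (pr_cmul (mug3.enc h2) (kp0q1_fs.snd h1 h2))))⟩
noncomputable def bd2q2_fs : Sl2 bd2q2 := ⟨_, fun h1 h2 => (pr_norm (pr_case (pr_subr 11 10 h1) (pr_case (pr_subr 103 100 h1) (pr_add (pr_subr 21449 30000 (pr_scale 21449 30000 h1)) (pr_cmul (enc_norm (bd2q2_3.enc h1.l h2)) (pr_norm (pr_csub (enc_rat _ 173 300) (pr_scale 173 300 h1))))) (pr_case (pr_subr 53 50 h1) (pr_add (pr_subr 358891 500000 (pr_scale 7177 10000 h1)) (pr_cmul (enc_norm (bd2q2_3.enc h1.l h2)) (pr_norm (pr_csub (enc_rat _ 30787 75000) (pr_scale 623 1500 h1))))) (pr_add (pr_subr 179631 250000 (pr_scale 449 625 h1)) (pr_cmul (enc_norm (bd2q2_3.enc h1.l h2)) (pr_norm (pr_csub (enc_rat _ 3337 25000) (pr_scale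 77 500 h1))))))) (pr_case (pr_subr 5 4 h1) (pr_case (pr_subr 29 25 h1) (pr_add (pr_subr 702299 1000000 (pr_scale 14073 20000 h1)) (pr_cmul (enc_norm (bd2q2_3.enc h1.l h2)) (pr_norm (pr_subr 4253 25000 (pr_scale 61 500 h1))))) (pr_add (pr_subr 130913 200000 (pr_scale 53 80 h1)) (pr_cmul (enc_norm (bd2q2_3.enc h1.l h2)) (pr_norm (pr_subr 8464 28125 (pr_scale 2113 9000 h1)))))) (pr_case (pr_subr 27 20 h1) (pr_add (pr_subr 61389 100000 (pr_scale 15749 25000 h1)) (pr_cmul (enc_norm (bd2q2_3.enc h1.l h2)) (pr_norm (pr_subr 65269 200000 (pr_scale 2551 10000 h1))))) (pr_add (pr_subr 597987 1000000 (pr_scale 30909 50000 h1)) (pr_cmul (enc_norm (bd2q2_3.enc h1.l h2)) (pr_norm (pr_subr 1681 5000 (pr_scale 164 625 h1)))))))))⟩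
noncomputable def kp2q2_fs : Sl2 kp2q2 := ⟨_, fun h1 h2 => (pr_norm (pr_mul (cv2p_fs.snd h1) (bd2q2_fs.snd h1 h2)))⟩
noncomputable def kn2q2_fs : Sl2 kn2q2 := ⟨_, fun h1 h2 => (pr_norm (pr_add (pr_cmul (enc_norm (enc_add (enc_pnc _ 1) (enc_mul (mug3.enc h2) (gug.enc h2)))) (kf2q2_fs.snd h1 h2)) (pr_cmul (mug3.enc h2) (kp2q2_fs.snd h1 h2))))⟩
noncomputable def dlg : Fn2 := ⟨_, _, fun h1 h2 => (kcg.enc (enc_norm (enc_sub (enc_scale 3 4 h1) (enc_half (c1g.enc h1)))) h2)⟩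

end Pool.Agent.Strip051.G.I3_16_5_16.Tab
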