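import Pool.Agent.Strip051.G.I3_16_5_16.Tab
import Pool.Agent.Strip051.PB.C12G

/-! # Slopes of the tables near the lattice heights (generated) -/

set_option linter.all false

namespace Pool.Agent.Strip051.G.I3_16_5_16.Tab

open Pool.Agent.Strip051.PB

attribute [local irreducible] padd psub pneg pmul psq pinv psqrt psqrtg pabs pps pmax pmin pphi plam
  pcase phf pnat prat pscale pnorm pdc pnc pone ppos pnn Enc pbad pzero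

noncomputable def idf_s : Sl1 idf := ⟨fun _ _ D => D, fun h => h⟩

noncomputable def c1g_s : Sl1 c1g := ⟨_, fun h1 => (pr_sqrtgz (pr_csub (enc_pnc _ 1) (pr_scale 3 4 (pr_sq h1))))⟩
noncomputable def kcg_6_s : Sl2 kcg_6 := ⟨_, fun h1 h2 => (pr_addc h1 (enc_rat _ 6 25))⟩
noncomputable def kcg_9_s : Sl2 kcg_9 := ⟨_, fun h1 h2 => (pr_addc h1 (enc_rat _ 37 91))⟩
noncomputable def kcg_12_s : Sl2 kcg_12 := ⟨_, fun h1 h2 => (pr_addc h1 (enc_rat _ 7 16))⟩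
noncomputable def kcg_13_s : Sl2 kcg_13 := ⟨_, fun h1 h2 => (pr_scale 7177 31250 h1)⟩
noncomputable def kcg_16_s : Sl2 kcg_16 := ⟨_, fun h1 h2 => (pr_scale 29833 6250 h1)⟩
noncomputable def kcg_35_s : Sl2 kcg_35 := ⟨_, fun h1 h2 => (pr_scale 919373 2812500 h1)⟩
noncomputable def kcg_38_s : Sl2 kcg_38 := ⟨_, fun h1 h2 => (pr_scale 592501 140625 h1)⟩
noncomputable def kcg_55_s : Sl2 kcg_55 := ⟨_, fun h1 h2 => (pr_addc h1 (enc_rat _ 7 20))⟩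
noncomputable def kcg_56_s : Sl2 kcg_56 := ⟨_, fun h1 h2 => (pr_scale 40131 321875 h1)⟩
noncomputable def kcg_59_s : Sl2 kcg_59 := ⟨_, fun h1 h2 => (pr_scale 653653 257500 h1)⟩
noncomputable def kcg_74_s : Sl2 kcg_74 := ⟨_, fun h1 h2 => (pr_addc h1 (enc_rat _ 29 100))⟩
noncomputable def kcg_75_s : Sl2 kcg_75 := ⟨_, fun h1 h2 => (pr_scale 14357 60000 h1)⟩
noncomputable def kcg_79_s : Sl2 kcg_79 := ⟨_, fun h1 h2 => (pr_scale 1231 2000 h1)⟩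
noncomputable def kcg_92_s : Sl2 kcg_92 := ⟨_, fun h1 h2 => (pr_scale 12759 25000 h1)⟩
noncomputable def kcg_96_s : Sl2 kcg_96 := ⟨_, fun h1 h2 => (pr_scale 1047 1000 h1)⟩
noncomputable def kcg_116_s : Sl2 kcg_116 := ⟨_, fun h1 h2 => (pr_addc h1 (enc_rat _ 29 200))⟩
noncomputable def kcg_119_s : Sl2 kcg_119 := ⟨_, fun h1 h2 => (pr_addc h1 (enc_rat _ 47 247))⟩
noncomputable def kcg_120_s : Sl2 kcg_120 := ⟨_, fun h1 h2 => (pr_scale 9707347 12280000 h1)⟩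
noncomputable def kcg_124_s : Sl2 kcg_124 := ⟨_, fun h1 h2 => (pr_scale 364819 1228000 h1)⟩
noncomputable def kcg_140_s : Sl2 kcg_140 := ⟨_, fun h1 h2 => (pr_scale 13061607 11185000 h1)⟩
noncomputable def kcg_145_s : Sl2 kcg_145 := ⟨_, fun h1 h2 => (pr_scale 38779 22370 h1)⟩
noncomputable def kcg_163_s : Sl2 kcg_163 := ⟨_, fun h1 h2 => (pr_addc h1 (enc_rat _ 1 10))⟩
noncomputable def kcg_164_s : Sl2 kcg_164 := ⟨_, fun h1 h2 => (pr_scale 11189 9000 h1)⟩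
noncomputable def kcg_169_s : Sl2 kcg_169 := ⟨_, fun h1 h2 => (pr_scale 1172 1125 h1)⟩
noncomputable def kcg_186_s : Sl2 kcg_186 := ⟨_, fun h1 h2 => (pr_scale 6011 7500 h1)⟩
noncomputable def kcg_191_s : Sl2 kcg_191 := ⟨_, fun h1 h2 => (pr_scale 227 125 h1)⟩
noncomputable def kcg_206_s : Sl2 kcg_206 := ⟨_, fun h1 h2 => (pr_scale 16927 31250 h1)⟩
noncomputable def kcg_211_s : Sl2 kcg_211 := ⟨_, fun h1 h2 => (pr_cmul (enc_norm (kcg_3.enc h1.l h2)) (pr_nd (pr_scale 9733 3125 h1)))⟩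
noncomputable def kcg_219_s : Sl2 kcg_219 := ⟨_, fun h1 h2 => (pr_csub (enc_rat _ 6 25) h1)⟩
noncomputable def kcg_220_s : Sl2 kcg_220 := ⟨_, fun h1 h2 => (pr_csub (enc_rat _ 37 91) h1)⟩
noncomputable def kcg_221_s : Sl2 kcg_221 := ⟨_, fun h1 h2 => (pr_csub (enc_rat _ 7 16) h1)⟩
noncomputable def kcg_244_s : Sl2 kcg_244 := ⟨_, fun h1 h2 => (pr_csub (enc_rat _ 7 20) h1)⟩
noncomputable def kcg_255_s : Sl2 kcg_255 := ⟨_, fun h1 h2 => (pr_csub (enc_rat _ 29 100) h1)⟩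
noncomputable def kcg_276_s : Sl2 kcg_276 := ⟨_, fun h1 h2 => (pr_csub (enc_rat _ 29 200) h1)⟩
noncomputable def kcg_277_s : Sl2 kcg_277 := ⟨_, fun h1 h2 => (pr_csub (enc_rat _ 47 247) h1)⟩
noncomputable def kcg_296_s : Sl2 kcg_296 := ⟨_, fun h1 h2 => (pr_csub (enc_rat _ 1 10) h1)⟩
noncomputable def kcg_s : Sl2 kcg := ⟨_, fun h1 h2 => (pr_norm (pr_case h1 (pr_case (kcg_6_s.snd h1 h2) (pr_case (kcg_9_s.snd h1 h2) (pr_case (kcg_12_s.snd h1 h2) (pr_add (pr_add (pr_addc (kcg_13_s.snd h1 h2) (enc_rat _ 33523 100000)) (pr_cmul (enc_norm (kcg_3.enc h1.l h2)) (pr_norm (pr_addc (kcg_16_s.snd h1 h2) (enc_rat _ 991 500))))) (pr_cmul (enc_norm (kcg_27.enc h1.l h2)) (pr_norm (pr_mul (pr_norm (pr_addc h1 (enc_rat _ 1 2))) (pr_norm (pr_csub (enc_neg (enc_rat _ 7 16)) h1)))))) (pr_add (pr_add (pr_addc (kcg_35_s.snd h1 h2) (enc_rat _ 16999451 45000000)) (pr_cmul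 (enc_norm (kcg_3.enc h1.l h2)) (pr_norm (pr_addc (kcg_38_s.snd h1 h2) (enc_rat _ 7816619 4500000))))) (pr_cmul (enc_norm (kcg_47.enc h1.l h2)) (pr_norm (pr_mul (pr_norm (kcg_12_s.snd h1 h2)) (pr_norm (pr_csub (enc_neg (enc_rat _ 37 91)) h1))))))) (pr_case (kcg_55_s.snd h1 h2) (pr_add (pr_add (pr_addc (kcg_56_s.snd h1 h2) (enc_rat _ 6088301 20600000)) (pr_cmul (enc_norm (kcg_3.enc h1.l h2)) (pr_norm (pr_addc (kcg_59_s.snd h1 h2) (enc_rat _ 10877113 10300000))))) (pr_cmul (enc_norm (kcg_67.enc h1.l h2)) (pr_norm (pr_mul (pr_norm (kcg_9_s.snd h1 h2)) (pr_norm (pr_csub (enc_neg (enc_rat _ 7 20)) h1)))))) (pr_case (kcg_74_s.snd h1 h2) (pr_add (pr_add (pr_csub (enc_rat _ 1008971 6000000) (kcg_75_s.snd h1 h2)) (pr_cmul (enc_norm (kcg_3.enc h1.l h2)) (pr_norm (pr_addc (kcg_79_s.snd h1 h2) (enc_rat _ 76599 200000))))) (pr_cmul (enc_norm (kcg_87.enc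 h1.l h2)) (pr_norm (pr_mul (pr_norm (kcg_55_s.snd h1 h2)) (pr_norm (pr_csub (enc_neg (enc_rat _ 29 100)) h1)))))) (pr_add (pr_add (pr_csub (enc_rat _ 111937 1250000) (kcg_92_s.snd h1 h2)) (pr_cmul (enc_norm (kcg_3.enc h1.l h2)) (pr_norm (pr_subr 9913 100000 (pr_neg (kcg_96_s.snd h1 h2)))))) (pr_cmul (enc_norm (kcg_106.enc h1.l h2)) (pr_norm (pr_mul (pr_norm (kcg_74_s.snd h1 h2)) (pr_norm (pr_csub (enc_neg (enc_rat _ 6 25)) h1))))))))) (pr_case (kcg_116_s.snd h1 h2) (pr_case (kcg_119_s.snd h1 h2) (pr_add (pr_add (pr_csub (enc_rat _ 685097 30700000) (kcg_120_s.snd h1 h2)) (pr_cmul (enc_norm (kcg_3.enc h1.l h2)) (pr_norm (pr_csub (enc_rat _ 2482091 30700000) (kcg_124_s.snd h1 h2))))) (pr_cmul (enc_norm (kcg_135.enc h1.l h2)) (pr_norm (pr_mul (pr_norm (kcg_6_s.snd h1 h2)) (pr_norm (pr_csub (enc_neg (enc_rat _ 47 247)) h1)))))) (pr_add (pr_add (pr_subr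 22134641 447400000 (pr_neg (kcg_140_s.snd h1 h2))) (pr_cmul (enc_norm (kcg_3.enc h1.l h2)) (pr_norm (pr_addc (kcg_145_s.snd h1 h2) (enc_rat _ 52260953 111850000))))) (pr_cmul (enc_norm (kcg_155.enc h1.l h2)) (pr_norm (pr_mul (pr_norm (kcg_119_s.snd h1 h2)) (pr_norm (pr_csub (enc_neg (enc_rat _ 29 200)) h1))))))) (pr_case (kcg_163_s.snd h1 h2) (pr_add (pr_add (pr_subr 543719 9000000 (pr_neg (kcg_164_s.snd h1 h2))) (pr_cmul (enc_norm (kcg_3.enc h1.l h2)) (pr_norm (pr_addc (kcg_169_s.snd h1 h2) (enc_rat _ 82561 225000))))) (pr_cmul (enc_norm (kcg_178.enc h1.l h2)) (pr_norm (pr_mul (pr_norm (kcg_116_s.snd h1 h2)) (pr_norm (pr_csub (enc_neg (enc_rat _ 1 10)) h1)))))) (pr_case (pr_addc h1 (enc_rat _ 1 16)) (pr_add (pr_add (pr_subr 48713 3000000 (pr_neg (kcg_186_s.snd h1 h2))) (pr_cmul (enc_norm (kcg_3.enc h1.l h2)) (pr_norm (pr_csub (enc_rat _ 2029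 25000) (kcg_191_s.snd h1 h2))))) (pr_cmul (enc_norm (kcg_201.enc h1.l h2)) (pr_norm (pr_mul (pr_norm (kcg_163_s.snd h1 h2)) (pr_norm (pr_csub (enc_neg (enc_rat _ 1 16)) h1)))))) (pr_sub (pr_neg (kcg_206_s.snd h1 h2)) (kcg_211_s.snd h1 h2)))))) (pr_neg (pr_case (kcg_219_s.snd h1 h2) (pr_case (kcg_220_s.snd h1 h2) (pr_case (kcg_221_s.snd h1 h2) (pr_add (pr_add (pr_csub (enc_rat _ 33523 100000) (kcg_13_s.snd h1 h2)) (pr_cmul (enc_norm (kcg_3.enc h1.l h2)) (pr_norm (pr_csub (enc_rat _ 991 500) (kcg_16_s.snd h1 h2))))) (pr_cmul (enc_norm (kcg_27.enc h1.l h2)) (pr_norm (pr_mul (pr_norm (pr_csub (enc_rat _ 1 2) h1)) (pr_norm (pr_subr 7 16 h1)))))) (pr_add (pr_add (pr_csub (enc_rat _ 16999451 45000000) (kcg_35_s.snd h1 h2)) (pr_cmul (enc_norm (kcg_3.enc h1.l h2)) (pr_norm (pr_csub (enc_rat _ 7816619 4500000) (kcg_38_s.snd h1 h2))))) (pr_cmul (enc_norm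 (kcg_47.enc h1.l h2)) (pr_norm (pr_mul (pr_norm (kcg_221_s.snd h1 h2)) (pr_norm (pr_subr 37 91 h1))))))) (pr_case (kcg_244_s.snd h1 h2) (pr_add (pr_add (pr_csub (enc_rat _ 6088301 20600000) (kcg_56_s.snd h1 h2)) (pr_cmul (enc_norm (kcg_3.enc h1.l h2)) (pr_norm (pr_csub (enc_rat _ 10877113 10300000) (kcg_59_s.snd h1 h2))))) (pr_cmul (enc_norm (kcg_67.enc h1.l h2)) (pr_norm (pr_mul (pr_norm (kcg_220_s.snd h1 h2)) (pr_norm (pr_subr 7 20 h1)))))) (pr_case (kcg_255_s.snd h1 h2) (pr_add (pr_add (pr_addc (kcg_75_s.snd h1 h2) (enc_rat _ 1008971 6000000)) (pr_cmul (enc_norm (kcg_3.enc h1.l h2)) (pr_norm (pr_csub (enc_rat _ 76599 200000) (kcg_79_s.snd h1 h2))))) (pr_cmul (enc_norm (kcg_87.enc h1.l h2)) (pr_norm (pr_mul (pr_norm (kcg_244_s.snd h1 h2)) (pr_norm (pr_subr 29 100 h1)))))) (pr_add (pr_add (pr_addc (kcg_92_s.snd h1 h2) (enc_rat _ 111937 1250000))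 (pr_cmul (enc_norm (kcg_3.enc h1.l h2)) (pr_norm (pr_subr 9913 100000 (kcg_96_s.snd h1 h2))))) (pr_cmul (enc_norm (kcg_106.enc h1.l h2)) (pr_norm (pr_mul (pr_norm (kcg_255_s.snd h1 h2)) (pr_norm (pr_subr 6 25 h1))))))))) (pr_case (kcg_276_s.snd h1 h2) (pr_case (kcg_277_s.snd h1 h2) (pr_add (pr_add (pr_addc (kcg_120_s.snd h1 h2) (enc_rat _ 685097 30700000)) (pr_cmul (enc_norm (kcg_3.enc h1.l h2)) (pr_norm (pr_addc (kcg_124_s.snd h1 h2) (enc_rat _ 2482091 30700000))))) (pr_cmul (enc_norm (kcg_135.enc h1.l h2)) (pr_norm (pr_mul (pr_norm (kcg_219_s.snd h1 h2)) (pr_norm (pr_subr 47 247 h1)))))) (pr_add (pr_add (pr_subr 22134641 447400000 (kcg_140_s.snd h1 h2)) (pr_cmul (enc_norm (kcg_3.enc h1.l h2)) (pr_norm (pr_csub (enc_rat _ 52260953 111850000) (kcg_145_s.snd h1 h2))))) (pr_cmul (enc_norm (kcg_155.enc h1.l h2)) (pr_norm (pr_mul (pr_norm (kcg_277_s.snd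 h1 h2)) (pr_norm (pr_subr 29 200 h1))))))) (pr_case (kcg_296_s.snd h1 h2) (pr_add (pr_add (pr_subr 543719 9000000 (kcg_164_s.snd h1 h2)) (pr_cmul (enc_norm (kcg_3.enc h1.l h2)) (pr_norm (pr_csub (enc_rat _ 82561 225000) (kcg_169_s.snd h1 h2))))) (pr_cmul (enc_norm (kcg_178.enc h1.l h2)) (pr_norm (pr_mul (pr_norm (kcg_276_s.snd h1 h2)) (pr_norm (pr_subr 1 10 h1)))))) (pr_case (pr_csub (enc_rat _ 1 16) h1) (pr_add (pr_add (pr_subr 48713 3000000 (kcg_186_s.snd h1 h2)) (pr_cmul (enc_norm (kcg_3.enc h1.l h2)) (pr_norm (pr_addc (kcg_191_s.snd h1 h2) (enc_rat _ 2029 25000))))) (pr_cmul (enc_norm (kcg_201.enc h1.l h2)) (pr_norm (pr_mul (pr_norm (kcg_296_s.snd h1 h2)) (pr_norm (pr_subr 1 16 h1)))))) (pr_add (kcg_206_s.snd h1 h2) (kcg_211_s.snd h1 h2)))))))))⟩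
noncomputable def kf0q0_9_s : Sl2 kf0q0_9 := ⟨_, fun h1 h2 => (pr_scale 3 2 h1)⟩
noncomputable def kf0q0_12_s : Sl2 kf0q0_12 := ⟨_, fun h1 h2 => (pr_cadd (enc_pnc _ 1) (c1g_s.snd h1))⟩
noncomputable def kf0q0_s : Sl2 kf0q0 := ⟨_, fun h1 h2 => (pr_norm (pr_add (pr_mul (pr_norm (pr_mul (pr_norm (pr_sub (c1g_s.snd h1) (kf0q0_9_s.snd h1 h2))) (pr_norm (kf0q0_12_s.snd h1 h2)))) (pr_nd (pr_inv (pr_sub (kf0q0_12_s.snd h1 h2) (kf0q0_9_s.snd h1 h2))))) (pr_mul h1 (kcg_s.snd (pr_norm (pr_sub (pr_scale 3 4 h1) (pr_half (c1g_s.snd h1)))) h2))))⟩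
noncomputable def txg_6_s : Sl3 txg_6 := ⟨_, fun h1 h2 h3 => (pr_add h1 (pr_half h2))⟩
noncomputable def txg_27_s : Sl3 txg_27 := ⟨_, fun h1 h2 h3 => (pr_addc h1 (enc_rat _ 7 16))⟩
noncomputable def txg_78_s : Sl3 txg_78 := ⟨_, fun h1 h2 h3 => (pr_addc h1 (enc_rat _ 47 247))⟩
noncomputable def txg_80_s : Sl3 txg_80 := ⟨_, fun h1 h2 h3 => (pr_subr 3 25 h1)⟩
noncomputable def txg_83_s : Sl3 txg_83 := ⟨_, fun h1 h2 h3 => (pr_addc h1 (enc_rat _ 1 10))⟩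
noncomputable def txg_86_s : Sl3 txg_86 := ⟨_, fun h1 h2 h3 => (pr_addc h1 (enc_rat _ 7 50))⟩
noncomputable def txg_134_s : Sl3 txg_134 := ⟨_, fun h1 h2 h3 => (pr_addc h1 (enc_rat _ 1 16))⟩
noncomputable def txg_153_s : Sl3 txg_153 := ⟨_, fun h1 h2 h3 => (pr_subr 1 16 h1)⟩
noncomputable def txg_196_s : Sl3 txg_196 := ⟨_, fun h1 h2 h3 => (pr_subr 8 25 h1)⟩
noncomputable def txg_198_s : Sl3 txg_198 := ⟨_, fun h1 h2 h3 => (pr_subr 9 50 h1)⟩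
noncomputable def txg_219_s : Sl3 txg_219 := ⟨_, fun h1 h2 h3 => (pr_subr 1 4 h1)⟩
noncomputable def txg_259_s : Sl3 txg_259 := ⟨_, fun h1 h2 h3 => (pr_subr 19 50 h1)⟩
noncomputable def txg_279_s : Sl3 txg_279 := ⟨_, fun h1 h2 h3 => (pr_subr 7 16 h1)⟩
noncomputable def txg_s : Sl3 txg := ⟨_, fun h1 h2 h3 => (pr_case (pr_addc h1 (enc_rat _ 37 91)) (pr_case (txg_27_s.snd h1 h2 h3) (pr_add (pr_add (pr_addc (pr_scale 5319 62500 h1) (enc_rat _ 5319 125000)) (pr_cmul (enc_norm (txg_4.enc h1.l h2.l h3)) (pr_norm (pr_addc (pr_scale 361 1250 h1) (enc_rat _ 361 2500))))) (pr_cmul (enc_norm (enc_subr 239039 500000 (enc_neg (enc_scale 6999 100000 (txg_4.enc h1.l h2.l h3))))) (pr_norm (pr_mul (pr_norm (pr_addc h1 (enc_rat _ 1 2))) (pr_norm (pr_csub (enc_neg (enc_rat _ 7 16)) h1)))))) (pr_add (pr_add (pr_add (pr_addc (pr_scale 8492521 73125000 h1) (enc_rat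 _ 65670877 1170000000)) (pr_cmul (enc_norm (txg_4.enc h1.l h2.l h3)) (pr_norm (pr_addc (pr_scale 3046217 10237500 h1) (enc_rat _ 3468587 23400000))))) (pr_cmul (txg_61.enc h1.l h2.l h3) (pr_norm (pr_addc (pr_scale 797 9375 h1) (enc_rat _ 5579 150000))))) (pr_cmul (enc_norm (enc_subr 2293 100000 (enc_neg (enc_scale 51091 100000 (txg_4.enc h1.l h2.l h3))))) (pr_norm (pr_mul (pr_norm (txg_27_s.snd h1 h2 h3)) (pr_norm (pr_csub (enc_neg (enc_rat _ 37 91)) h1))))))) (pr_case (txg_78_s.snd h1 h2 h3) (pr_sub (pr_mul (pr_norm (pr_csub (enc_pnc _ 1) h2)) (pr_norm (pr_subn 1 (pr_nat 2 h2)))) (pr_mul (pr_norm (pr_nat 2 (pr_subc (pr_scale 4 3 (txg_6_s.snd h1 h2 h3)) h3))) (pr_norm (pr_mul (pr_norm (pr_subn 1 (pr_add (pr_scale 2 3 (txg_6_s.snd h1 h2 h3)) h2))) (kcg_s.snd h1 h3))))) (pr_case (txg_80_s.snd h1 h2 h3) (pr_case (txg_83_s.snd h1 h2 h3) (pr_case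 (txg_86_s.snd h1 h2 h3) (pr_add (pr_add (pr_add (pr_addc (pr_scale 10369643 53352000 h1) (enc_rat _ 8517731 106704000)) (pr_cmul (enc_norm (txg_4.enc h1.l h2.l h3)) (pr_norm (pr_csub (enc_rat _ 51360533 1278225000) (pr_scale 44686 6391125 h1))))) (pr_cmul (txg_61.enc h1.l h2.l h3) (pr_norm (pr_subr 528913 5175000 (pr_neg (pr_scale 75559 103500 h1)))))) (pr_cmul (enc_norm (enc_sub (enc_rat _ 732341 1000000) (enc_scale 471111 100000 (txg_4.enc h1.l h2.l h3)))) (pr_norm (pr_mul (pr_norm (txg_78_s.snd h1 h2 h3)) (pr_norm (pr_csub (enc_neg (enc_rat _ 7 50)) h1)))))) (pr_add (pr_add (pr_addc (pr_scale 5189 40000 h1) (enc_rat _ 141553 2000000)) (pr_cmul (enc_norm (txg_4.enc h1.l h2.l h3)) (pr_norm (pr_addc (pr_scale 149 400 h1) (enc_rat _ 9331 100000))))) (pr_cmul (enc_norm (enc_sub (enc_rat _ 329101 500000) (enc_scale 90487 25000 (txg_4.enc h1.l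 h2.l h3)))) (pr_norm (pr_mul (pr_norm (txg_86_s.snd h1 h2 h3)) (pr_norm (pr_csub (enc_neg (enc_rat _ 1 10)) h1))))))) (pr_case (txg_134_s.snd h1 h2 h3) (pr_add (pr_add (pr_addc (pr_scale 471 6250 h1) (enc_rat _ 3267 50000)) (pr_cmul (enc_norm (txg_4.enc h1.l h2.l h3)) (pr_norm (pr_addc (pr_scale 359 625 h1) (enc_rat _ 227 2000))))) (pr_cmul (enc_norm (enc_sub (enc_rat _ 93517 125000) (enc_scale 76067 50000 (txg_4.enc h1.l h2.l h3)))) (pr_norm (pr_mul (pr_norm (txg_83_s.snd h1 h2 h3)) (pr_norm (pr_csub (enc_neg (enc_rat _ 1 16)) h1)))))) (pr_case (txg_153_s.snd h1 h2 h3) (pr_add (pr_add (pr_csub (enc_rat _ 119233 2000000) (pr_scale 2027 125000 h1)) (pr_cmul (enc_norm (txg_4.enc h1.l h2.l h3)) (pr_norm (pr_csub (enc_rat _ 7699 100000) (pr_scale 61 6250 h1))))) (pr_cmul (enc_norm (enc_add (enc_scale 32057 6250 (txg_4.enc h1.l h2.l h3)) (enc_rat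 _ 507923 1000000))) (pr_norm (pr_mul (pr_norm (txg_134_s.snd h1 h2 h3)) (pr_norm (pr_csub (enc_rat _ 1 16) h1)))))) (pr_add (pr_add (pr_csub (enc_rat _ 1503969 23000000) (pr_scale 1561 14375 h1)) (pr_cmul (enc_norm (txg_4.enc h1.l h2.l h3)) (pr_norm (pr_csub (enc_rat _ 62331 575000) (pr_scale 1473 2875 h1))))) (pr_cmul (enc_norm (enc_sub (enc_rat _ 125661 250000) (enc_scale 240919 100000 (txg_4.enc h1.l h2.l h3)))) (pr_norm (pr_mul (pr_norm (txg_153_s.snd h1 h2 h3)) (pr_norm (pr_csub (enc_rat _ 3 25) h1))))))))) (pr_case (txg_196_s.snd h1 h2 h3) (pr_case (txg_198_s.snd h1 h2 h3) (pr_add (pr_add (pr_csub (enc_rat _ 73531 1000000) (pr_scale 5293 30000 h1)) (pr_cmul (enc_norm (txg_4.enc h1.l h2.l h3)) (pr_norm (pr_csub (enc_rat _ 2893 50000) (pr_scale 547 6000 h1))))) (pr_cmul (enc_norm (enc_sub (enc_rat _ 324527 500000) (enc_scale 58849 12500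 (txg_4.enc h1.l h2.l h3)))) (pr_norm (pr_mul (pr_norm (txg_80_s.snd h1 h2 h3)) (pr_norm (pr_csub (enc_rat _ 9 50) h1)))))) (pr_case (txg_219_s.snd h1 h2 h3) (pr_add (pr_add (pr_csub (enc_rat _ 109037 1400000) (pr_scale 14043 70000 h1)) (pr_cmul (enc_norm (txg_4.enc h1.l h2.l h3)) (pr_norm (pr_addc (pr_scale 243 1750 h1) (enc_rat _ 11519 700000))))) (pr_cmul (enc_norm (enc_subr 105589 500000 (enc_scale 9339 12500 (txg_4.enc h1.l h2.l h3)))) (pr_norm (pr_mul (pr_norm (txg_198_s.snd h1 h2 h3)) (pr_norm (pr_csub (enc_rat _ 1 4) h1)))))) (pr_add (pr_add (pr_csub (enc_rat _ 96057 1400000) (pr_scale 11447 70000 h1)) (pr_cmul (enc_norm (txg_4.enc h1.l h2.l h3)) (pr_norm (pr_addc (pr_scale 1 140 h1) (enc_rat _ 34569 700000))))) (pr_cmul (enc_norm (enc_subr 15919 50000 (enc_scale 11367 10000 (txg_4.enc h1.l h2.l h3)))) (pr_norm (pr_mul (pr_norm (txg_219_s.snd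 h1 h2 h3)) (pr_norm (pr_csub (enc_rat _ 8 25) h1)))))))) (pr_case (txg_259_s.snd h1 h2 h3) (pr_add (pr_add (pr_csub (enc_rat _ 57307 1000000) (pr_scale 641 5000 h1)) (pr_cmul (enc_norm (txg_4.enc h1.l h2.l h3)) (pr_norm (pr_csub (enc_rat _ 34829 300000) (pr_scale 151 750 h1))))) (pr_cmul (enc_norm (enc_subr 217469 1000000 (enc_scale 214761 100000 (txg_4.enc h1.l h2.l h3)))) (pr_norm (pr_mul (pr_norm (txg_196_s.snd h1 h2 h3)) (pr_norm (pr_csub (enc_rat _ 19 50) h1)))))) (pr_case (txg_279_s.snd h1 h2 h3) (pr_add (pr_add (pr_csub (enc_rat _ 1083601 23000000) (pr_scale 5829 57500 h1)) (pr_cmul (enc_norm (txg_4.enc h1.l h2.l h3)) (pr_norm (pr_csub (enc_rat _ 410409 2300000) (pr_scale 2101 5750 h1))))) (pr_cmul (enc_norm (enc_subr 23977 100000 (enc_scale 6071 10000 (txg_4.enc h1.l h2.l h3)))) (pr_norm (pr_mul (pr_norm (txg_259_s.snd h1 h2 h3)) (pr_norm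 (pr_csub (enc_rat _ 7 16) h1)))))) (pr_add (pr_add (pr_csub (enc_rat _ 1381 62500) (pr_scale 1381 31250 h1)) (pr_cmul (enc_norm (txg_4.enc h1.l h2.l h3)) (pr_norm (pr_csub (enc_rat _ 929 6250) (pr_scale 929 3125 h1))))) (pr_cmul (enc_norm (enc_subr 694429 1000000 (enc_neg (enc_scale 164417 100000 (txg_4.enc h1.l h2.l h3))))) (pr_norm (pr_mul (pr_norm (txg_279_s.snd h1 h2 h3)) (pr_norm (pr_csub (enc_rat _ 1 2) h1))))))))))))⟩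
noncomputable def l0q0_s : Sl2 l0q0 := ⟨_, fun h1 h2 => (pr_norm (txg_s.snd (pr_norm (pr_sub (pr_scale 3 4 h1) (pr_half (c1g_s.snd h1)))) (pr_nd (c1g_s.snd h1)) h2))⟩
noncomputable def kf0q1_10_s : Sl2 kf0q1_10 := ⟨_, fun h1 h2 => (pr_scale 3 2 h1)⟩
noncomputable def kf0q1_s : Sl2 kf0q1 := ⟨_, fun h1 h2 => (pr_norm (pr_add (pr_mul (pr_norm (pr_mul (pr_norm (pr_cadd (enc_pnc _ 1) (pr_nat 2 (c1g_s.snd h1)))) (pr_norm (pr_sub (kf0q1_10_s.snd h1 h2) (c1g_s.snd h1))))) (pr_nd (pr_inv (pr_nat 2 (pr_sub (pr_cadd (enc_pnc _ 1) (kf0q1_10_s.snd h1 h2)) (c1g_s.snd h1)))))) (pr_mul (pr_norm (pr_subn 1 h1)) (kcg_s.snd (pr_norm (pr_sub (pr_scale 3 4 h1) (pr_half (c1g_s.snd h1)))) h2))))⟩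
noncomputable def l0q1_s : Sl2 l0q1 := ⟨_, fun h1 h2 => (pr_norm (txg_s.snd (pr_norm (pr_sub (pr_scale 3 4 h1) (pr_half (c1g_s.snd h1)))) (pr_nd (c1g_s.snd h1)) h2))⟩
noncomputable def yag_s : Sl1 yag := ⟨_, fun h1 => (pr_sqrt (pr_scale 4 3 (pr_csub (enc_pnc _ 1) (pr_sq h1))))⟩
noncomputable def kfc02_s : Sl2 kfc02 := ⟨_, fun h1 h2 => (pr_norm (pr_add h1 (pr_mul (pr_norm (pr_subn 1 (yag_s.snd h1))) (kcg_s.snd (pr_nd (pr_neg h1)) h2))))⟩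
noncomputable def lc02_7_s : Sl2 lc02_7 := ⟨_, fun h1 h2 => (pr_scale 3 4 (yag_s.snd h1))⟩
noncomputable def lc02_8_s : Sl2 lc02_8 := ⟨_, fun h1 h2 => (pr_half h1)⟩
noncomputable def lc02_s : Sl2 lc02 := ⟨_, fun h1 h2 => (pr_norm (pr_sub (txg_s.snd (pr_nd (pr_neg h1)) (pr_norm (pr_add (lc02_7_s.snd h1 h2) (lc02_8_s.snd h1 h2))) h2) (txg_s.snd h1 (pr_norm (pr_sub (lc02_7_s.snd h1 h2) (lc02_8_s.snd h1 h2))) h2)))⟩
noncomputable def swg_s : Sl1 swg := ⟨_, fun h1 => (pr_sqrt (pr_csub (enc_pnc _ 1) (pr_scale 3 4 (pr_sq (pr_norm (pr_subn 1 h1))))))⟩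
noncomputable def cv1m_s : Sl1 cv1m := ⟨_, fun h1 => (pr_norm (pr_add (pr_half (c1g_s.snd h1)) (pr_half (pr_addc (swg_s.snd h1) (enc_rat _ 1 2)))))⟩
noncomputable def bf1q0_s : Sl2 bf1q0 := ⟨_, fun h1 h2 => (pr_norm (pr_sub (pr_csub (enc_pnc _ 1) (pr_scale 90833 125000 h1)) (pr_cmul (enc_norm (enc_subr 1 4 h2)) (pr_nd (pr_scale 35029 50000 h1)))))⟩
noncomputable def kf1q0_s : Sl2 kf1q0 := ⟨_, fun h1 h2 => (pr_norm (pr_mul (cv1m_s.snd h1) (bf1q0_s.snd h1 h2)))⟩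
noncomputable def bx1q0_s : Sl2 bx1q0 := ⟨_, fun h1 h2 => (pr_norm (pr_add (pr_scale 1449 62500 h1) (pr_cmul (enc_norm (enc_subr 1 4 h2)) (pr_nd (pr_scale 216 625 h1)))))⟩
noncomputable def l1q0_s : Sl2 l1q0 := ⟨_, fun h1 h2 => (pr_norm (pr_mul (cv1m_s.snd h1) (bx1q0_s.snd h1 h2)))⟩
noncomputable def bf1q1_s : Sl2 bf1q1 := ⟨_, fun h1 h2 => (pr_norm (pr_case (pr_subr 4 5 h1) (pr_case (pr_subr 7 10 h1) (pr_add (pr_subr 83851 500000 (pr_scale 38907 50000 h1)) (pr_cmul (enc_norm (bf1q1_3.enc h1.l h2)) (pr_norm (pr_subr 239471 200000 (pr_scale 24619 20000 h1))))) (pr_add (pr_subr 85139 500000 (pr_scale 39091 50000 h1)) (pr_cmul (enc_norm (bf1q1_3.enc h1.l h2)) (pr_norm (pr_subr 23763 20000 (pr_scale 6089 5000 h1)))))) (pr_case (pr_subr 7 8 h1) (pr_add (pr_subr 259633 1500000 (pr_scale 589 750 h1)) (pr_cmul (enc_norm (bf1q1_3.enc h1.l h2)) (pr_norm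 (pr_subr 351469 300000 (pr_scale 4489 3750 h1))))) (pr_case (pr_subr 19 20 h1) (pr_add (pr_subr 263063 1500000 (pr_scale 7387 9375 h1)) (pr_cmul (enc_norm (bf1q1_3.enc h1.l h2)) (pr_norm (pr_subr 14331 12500 (pr_scale 2921 2500 h1))))) (pr_add (pr_subr 35241 200000 (pr_scale 39441 50000 h1)) (pr_cmul (enc_norm (bf1q1_3.enc h1.l h2)) (pr_norm (pr_subr 27769 25000 (pr_scale 2827 2500 h1)))))))))⟩
noncomputable def kf1q1_s : Sl2 kf1q1 := ⟨_, fun h1 h2 => (pr_norm (pr_mul (cv1m_s.snd h1) (bf1q1_s.snd h1 h2)))⟩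
noncomputable def bx1q1_s : Sl2 bx1q1 := ⟨_, fun h1 h2 => (pr_norm (pr_case (pr_subr 4 5 h1) (pr_case (pr_subr 7 10 h1) (pr_add (pr_csub (enc_rat _ 170083 2000000) (pr_scale 20289 200000 h1)) (pr_cmul (enc_norm (bx1q1_3.enc h1.l h2)) (pr_norm (pr_csub (enc_rat _ 13367 25000) (pr_scale 453 1000 h1))))) (pr_add (pr_csub (enc_rat _ 40461 500000) (pr_scale 2389 25000 h1)) (pr_cmul (enc_norm (bx1q1_3.enc h1.l h2)) (pr_norm (pr_csub (enc_rat _ 3193 6250) (pr_scale 419 1000 h1)))))) (pr_case (pr_subr 7 8 h1) (pr_add (pr_csub (enc_rat _ 36573 500000) (pr_scale 1073 12500 h1)) (pr_cmul (enc_norm (bx1q1_3.enc h1.l h2)) (pr_norm (pr_csub (enc_rat _ 5123 9375) (pr_scale 869 1875 h1))))) (pr_case (pr_subr 19 20 h1) (pr_add (pr_csub (enc_rat _ 6199 93750) (pr_scale 1459 18750 h1)) (pr_cmul (enc_norm (bx1q1_3.enc h1.l h2)) (pr_norm (pr_csub (enc_rat _ 8149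 12500) (pr_scale 73 125 h1))))) (pr_add (pr_csub (enc_rat _ 206 3125) (pr_scale 97 1250 h1)) (pr_cmul (enc_norm (bx1q1_3.enc h1.l h2)) (pr_norm (pr_csub (enc_rat _ 85123 100000) (pr_scale 3969 5000 h1)))))))))⟩
noncomputable def l1q1_s : Sl2 l1q1 := ⟨_, fun h1 h2 => (pr_norm (pr_mul (cv1m_s.snd h1) (bx1q1_s.snd h1 h2)))⟩
noncomputable def cv1p_s : Sl1 cv1p := ⟨_, fun h1 => (pr_norm (pr_add (pr_half (c1g_s.snd h1)) (pr_half (pr_subr 1 2 (swg_s.snd h1)))))⟩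
noncomputable def bf1q2_s : Sl2 bf1q2 := ⟨_, fun h1 h2 => (pr_norm (pr_case (pr_subr 577 500 h1) (pr_case (pr_subr 53 50 h1) (pr_case (pr_subr 103 100 h1) (pr_add (pr_csub (enc_rat _ 15107 15000) (pr_scale 107 15000 h1)) (pr_cmul (enc_norm (bf1q2_3.enc h1.l h2)) (pr_norm (pr_csub (enc_rat _ 863 3000) (pr_scale 863 3000 h1))))) (pr_add (pr_addc (pr_scale 2603 10000 h1) (enc_rat _ 731677 1000000)) (pr_cmul (enc_norm (bf1q2_3.enc h1.l h2)) (pr_norm (pr_subr 79523 150000 (pr_scale 1519 3000 h1)))))) (pr_case (pr_subr 11 10 h1) (pr_add (pr_addc (pr_scale 26981 40000 h1) (enc_rat _ 585197 2000000)) (pr_cmul (enc_norm (bf1q2_3.enc h1.l h2)) (pr_norm (pr_subr 141131 40000 (pr_scale 13339 4000 h1))))) (pr_add (pr_addc (pr_scale 763129 843750 h1) (enc_rat _ 83704 2109375)) (pr_cmul (enc_norm (bf1q2_3.enc h1.l h2)) (pr_norm (pr_subr 91526041 13500000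 (pr_scale 4246153 675000 h1))))))) (pr_case (pr_subr 29 25 h1) (pr_case (pr_subr 231 200 h1) (pr_add (pr_addc (pr_scale 16927 31250 h1) (enc_rat _ 14323 31250)) (pr_cmul (enc_norm (bf1q2_3.enc h1.l h2)) (pr_norm (pr_subr 9733 3125 (pr_scale 9733 3125 h1))))) (pr_add (pr_addc (pr_scale 68427 125000 h1) (enc_rat _ 11292311 25000000)) (pr_cmul (enc_norm (bf1q2_3.enc h1.l h2)) (pr_norm (pr_subr 2112689 625000 (pr_scale 10452 3125 h1)))))) (pr_case (pr_subr 5 4 h1) (pr_add (pr_addc (pr_scale 48701 90000 h1) (enc_rat _ 4130939 9000000)) (pr_cmul (enc_norm (bf1q2_3.enc h1.l h2)) (pr_norm (pr_subr 125269 37500 (pr_scale 9931 3000 h1))))) (pr_case (pr_subr 27 20 h1) (pr_add (pr_addc (pr_scale 53523 100000 h1) (enc_rat _ 932717 2000000)) (pr_cmul (enc_norm (bf1q2_3.enc h1.l h2)) (pr_norm (pr_subr 659193 200000 (pr_scale 32747 10000 h1))))) (pr_add (pr_addc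 (pr_scale 797 1500 h1) (enc_rat _ 471619 1000000)) (pr_cmul (enc_norm (bf1q2_3.enc h1.l h2)) (pr_norm (pr_subr 326343 100000 (pr_scale 16253 5000 h1))))))))))⟩
noncomputable def kf1q2_s : Sl2 kf1q2 := ⟨_, fun h1 h2 => (pr_norm (pr_mul (cv1p_s.snd h1) (bf1q2_s.snd h1 h2)))⟩
noncomputable def bx1q2_s : Sl2 bx1q2 := ⟨_, fun h1 h2 => (pr_norm (pr_case (pr_subr 577 500 h1) (pr_case (pr_subr 53 50 h1) (pr_case (pr_subr 103 100 h1) (pr_add (pr_subr 4517 30000 (pr_scale 4517 30000 h1)) (pr_cmul (enc_norm (bx1q2_3.enc h1.l h2)) (pr_norm (pr_subr 79 200 (pr_scale 79 200 h1))))) (pr_add (pr_subr 313091 1500000 (pr_scale 6211 30000 h1)) (pr_cmul (enc_norm (bx1q2_3.enc h1.l h2)) (pr_norm (pr_addc (pr_scale 1 250 h1) (enc_rat _ 773 100000)))))) (pr_case (pr_subr 11 10 h1) (pr_add (pr_subr 109593 500000 (pr_scale 2169 10000 h1)) (pr_cmul (enc_norm (bx1q2_3.enc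 h1.l h2)) (pr_norm (pr_csub (enc_rat _ 16333 200000) (pr_scale 263 4000 h1))))) (pr_add (pr_subr 1660373 6750000 (pr_scale 3257 13500 h1)) (pr_cmul (enc_norm (bx1q2_3.enc h1.l h2)) (pr_norm (pr_subr 267341 1350000 (pr_scale 509 2700 h1))))))) (pr_case (pr_subr 29 25 h1) (pr_casec1 (pr_subr 231 200 h1) (enc_add (enc_rat _ 2027 62500) (enc_scale 61 3125 (bx1q2_3.enc h1.l h2))) (pr_add (pr_subr 214507 1000000 (pr_scale 1069 5000 h1)) (pr_cmul (enc_norm (bx1q2_3.enc h1.l h2)) (pr_norm (pr_subr 554989 100000 (pr_scale 2411 500 h1)))))) (pr_case (pr_subr 5 4 h1) (pr_add (pr_subr 243159 1000000 (pr_scale 477 2000 h1)) (pr_cmul (enc_norm (bx1q2_3.enc h1.l h2)) (pr_norm (pr_subr 1762871 300000 (pr_scale 1531 300 h1))))) (pr_case (pr_subr 27 20 h1) (pr_add (pr_subr 246609 1000000 (pr_scale 12063 50000 h1)) (pr_cmul (enc_norm (bx1q2_3.enc h1.l h2)) (pr_norm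 (pr_subr 1173989 200000 (pr_scale 50983 10000 h1))))) (pr_add (pr_subr 244557 1000000 (pr_scale 11987 50000 h1)) (pr_cmul (enc_norm (bx1q2_3.enc h1.l h2)) (pr_norm (pr_subr 581851 100000 (pr_scale 25301 5000 h1))))))))))⟩
noncomputable def l1q2_s : Sl2 l1q2 := ⟨_, fun h1 h2 => (pr_norm (pr_mul (cv1p_s.snd h1) (bx1q2_s.snd h1 h2)))⟩
noncomputable def cv1r_s : Sl1 cv1r := ⟨_, fun h1 => (pr_norm (pr_half (pr_subr 1 2 (swg_s.snd h1))))⟩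
noncomputable def bf1q3_s : Sl2 bf1q3 := ⟨_, fun h1 h2 => (pr_norm (pr_add (pr_subr 21691 500000 (pr_scale 991 125000 h1)) (pr_cmul (enc_norm (enc_subr 1 4 h2)) (pr_norm (pr_subr 4163 100000 (pr_scale 2309 50000 h1))))))⟩
noncomputable def kf1q3_s : Sl2 kf1q3 := ⟨_, fun h1 h2 => (pr_norm (pr_mul (cv1r_s.snd h1) (bf1q3_s.snd h1 h2)))⟩
noncomputable def bx1q3_s : Sl2 bx1q3 := ⟨_, fun h1 h2 => (pr_norm (pr_add (pr_csub (enc_rat _ 2551 15625) (pr_scale 2859 125000 h1)) (pr_cmul (enc_norm (enc_subr 1 4 h2)) (pr_norm (pr_csub (enc_rat _ 176631 100000) (pr_scale 127 10000 h1))))))⟩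
noncomputable def l1q3_s : Sl2 l1q3 := ⟨_, fun h1 h2 => (pr_norm (pr_mul (cv1r_s.snd h1) (bx1q3_s.snd h1 h2)))⟩
noncomputable def cv2m_s : Sl1 cv2m := ⟨_, fun h1 => (pr_norm (pr_add (pr_scale 1 10 (c1g_s.snd h1)) (pr_scale 9 10 (pr_addc (swg_s.snd h1) (enc_rat _ 1 2)))))⟩
noncomputable def bf2q0_s : Sl2 bf2q0 := ⟨_, fun h1 h2 => (pr_norm (pr_sub (pr_csub (enc_pnc _ 1) (pr_scale 57807 100000 h1)) (pr_cmul (enc_norm (enc_subr 1 4 h2)) (pr_nd (pr_scale 34099 25000 h1)))))⟩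
noncomputable def kf2q0_s : Sl2 kf2q0 := ⟨_, fun h1 h2 => (pr_norm (pr_mul (cv2m_s.snd h1) (bf2q0_s.snd h1 h2)))⟩
noncomputable def bx2q0_s : Sl2 bx2q0 := ⟨_, fun h1 h2 => (pr_norm (pr_sub (pr_scale 64033 500000 h1) (pr_cmul (enc_norm (enc_subr 1 4 h2)) (pr_nd (pr_scale 1181 2500 h1)))))⟩
noncomputable def l2q0_s : Sl2 l2q0 := ⟨_, fun h1 h2 => (pr_norm (pr_mul (cv2m_s.snd h1) (bx2q0_s.snd h1 h2)))⟩
noncomputable def bf2q1_s : Sl2 bf2q1 := ⟨_, fun h1 h2 => (pr_norm (pr_case (pr_subr 4 5 h1) (pr_case (pr_subr 7 10 h1) (pr_add (pr_addc (pr_scale 172703 200000 h1) (enc_rat _ 1493 16000)) (pr_cmul (enc_norm (bf2q1_3.enc h1.l h2)) (pr_norm (pr_subr 111921 100000 (pr_scale 2273 2000 h1))))) (pr_add (pr_addc (pr_scale 10857 12500 h1) (enc_rat _ 89781 1000000)) (pr_cmul (enc_norm (bf2q1_3.enc h1.l h2)) (pr_norm (pr_subr 110353 100000 (pr_scale 11141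 10000 h1)))))) (pr_case (pr_subr 7 8 h1) (pr_add (pr_addc (pr_scale 10941 12500 h1) (enc_rat _ 16881 200000)) (pr_cmul (enc_norm (bf2q1_3.enc h1.l h2)) (pr_norm (pr_subr 319099 300000 (pr_scale 3991 3750 h1))))) (pr_case (pr_subr 19 20 h1) (pr_add (pr_addc (pr_scale 11023 12500 h1) (enc_rat _ 15733 200000)) (pr_cmul (enc_norm (bf2q1_3.enc h1.l h2)) (pr_norm (pr_subr 150467 150000 (pr_scale 7463 7500 h1))))) (pr_add (pr_addc (pr_scale 8791 10000 h1) (enc_rat _ 20317 250000)) (pr_cmul (enc_norm (bf2q1_3.enc h1.l h2)) (pr_norm (pr_subr 48927 50000 (pr_scale 2423 2500 h1)))))))))⟩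
noncomputable def kf2q1_s : Sl2 kf2q1 := ⟨_, fun h1 h2 => (pr_norm (pr_mul (cv2m_s.snd h1) (bf2q1_s.snd h1 h2)))⟩
noncomputable def bx2q1_s : Sl2 bx2q1 := ⟨_, fun h1 h2 => (pr_norm (pr_case (pr_subr 4 5 h1) (pr_case (pr_subr 7 10 h1) (pr_add (pr_csub (enc_rat _ 35397 400000) (pr_scale 18767 200000 h1)) (pr_cmul (enc_norm (bx2q1_3.enc h1.l h2)) (pr_norm (pr_csub (enc_rat _ 61927 200000) (pr_scale 7309 20000 h1))))) (pr_add (pr_csub (enc_rat _ 17457 200000) (pr_scale 9211 100000 h1)) (pr_cmul (enc_norm (bx2q1_3.enc h1.l h2)) (pr_norm (pr_csub (enc_rat _ 28447 100000) (pr_scale 659 2000 h1)))))) (pr_case (pr_subr 7 8 h1) (pr_add (pr_csub (enc_rat _ 238039 3000000) (pr_scale 1541 18750 h1)) (pr_cmul (enc_norm (bx2q1_3.enc h1.l h2)) (pr_norm (pr_csub (enc_rat _ 6471 100000) (pr_scale 137 2500 h1))))) (pr_case (pr_subr 19 20 h1) (pr_add (pr_csub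 (enc_rat _ 31979 500000) (pr_scale 323 5000 h1)) (pr_cmul (enc_norm (bx2q1_3.enc h1.l h2)) (pr_norm (pr_csub (enc_rat _ 5179 25000) (pr_scale 136 625 h1))))) (pr_add (pr_csub (enc_rat _ 3311 62500) (pr_scale 663 12500 h1)) (pr_cmul (enc_norm (bx2q1_3.enc h1.l h2)) (pr_norm (pr_csub (enc_rat _ 5293 25000) (pr_scale 139 625 h1)))))))))⟩
noncomputable def l2q1_s : Sl2 l2q1 := ⟨_, fun h1 h2 => (pr_norm (pr_mul (cv2m_s.snd h1) (bx2q1_s.snd h1 h2)))⟩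
noncomputable def cv2p_s : Sl1 cv2p := ⟨_, fun h1 => (pr_norm (pr_add (pr_scale 1 10 (c1g_s.snd h1)) (pr_scale 9 10 (pr_subr 1 2 (swg_s.snd h1)))))⟩
noncomputable def bf2q2_s : Sl2 bf2q2 := ⟨_, fun h1 h2 => (pr_norm (pr_case (pr_subr 11 10 h1) (pr_case (pr_subr 103 100 h1) (pr_add (pr_csub (enc_rat _ 19487 15000) (pr_scale 4487 15000 h1)) (pr_cmul (enc_norm (bf2q2_3.enc h1.l h2)) (pr_norm (pr_csub (enc_rat _ 77 375) (pr_scale 77 375 h1))))) (pr_case (pr_subr 53 50 h1) (pr_add (pr_csub (enc_rat _ 1340299 1000000) (pr_scale 3391 10000 h1)) (pr_cmul (enc_norm (bf2q2_3.enc h1.l h2)) (pr_norm (pr_subr 719 100000 (pr_scale 1 1000 h1))))) (pr_add (pr_csub (enc_rat _ 693867 500000) (pr_scale 7677 20000 h1)) (pr_cmul (enc_norm (bf2q2_3.enc h1.l h2)) (pr_norm (pr_subr 2663 8000 (pr_scale 1233 4000 h1))))))) (pr_case (pr_subr 5 4 h1) (pr_case (pr_subr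 29 25 h1) (pr_add (pr_csub (enc_rat _ 4376327 3000000) (pr_scale 13453 30000 h1)) (pr_cmul (enc_norm (bf2q2_3.enc h1.l h2)) (pr_norm (pr_subr 571 800 (pr_scale 1309 2000 h1))))) (pr_add (pr_csub (enc_rat _ 13586137 9000000) (pr_scale 443 900 h1)) (pr_cmul (enc_norm (bf2q2_3.enc h1.l h2)) (pr_norm (pr_subr 9141 100000 (pr_scale 59 500 h1)))))) (pr_case (pr_subr 27 20 h1) (pr_add (pr_csub (enc_rat _ 3048661 2000000) (pr_scale 50403 100000 h1)) (pr_cmul (enc_norm (bf2q2_3.enc h1.l h2)) (pr_norm (pr_csub (enc_rat _ 15343 200000) (pr_scale 33 2000 h1))))) (pr_add (pr_csub (enc_rat _ 761803 500000) (pr_scale 18881 37500 h1)) (pr_cmul (enc_norm (bf2q2_3.enc h1.l h2)) (pr_norm (pr_csub (enc_rat _ 11213 100000) (pr_scale 641 15000 h1)))))))))⟩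
noncomputable def kf2q2_s : Sl2 kf2q2 := ⟨_, fun h1 h2 => (pr_norm (pr_mul (cv2p_s.snd h1) (bf2q2_s.snd h1 h2)))⟩
noncomputable def bx2q2_s : Sl2 bx2q2 := ⟨_, fun h1 h2 => (pr_norm (pr_case (pr_subr 11 10 h1) (pr_case (pr_subr 103 100 h1) (pr_add (pr_subr 863 10000 (pr_scale 863 10000 h1)) (pr_cmul (enc_norm (bx2q2_3.enc h1.l h2)) (pr_norm (pr_subr 221 750 (pr_scale 221 750 h1))))) (pr_case (pr_subr 53 50 h1) (pr_add (pr_subr 166331 1000000 (pr_scale 41 250 h1)) (pr_cmul (enc_norm (bx2q2_3.enc h1.l h2)) (pr_norm (pr_subr 60401 100000 (pr_scale 119 200 h1))))) (pr_add (pr_subr 121511 500000 (pr_scale 4727 20000 h1)) (pr_cmul (enc_norm (bx2q2_3.enc h1.l h2)) (pr_norm (pr_subr 178519 200000 (pr_scale 3469 4000 h1))))))) (pr_case (pr_subr 5 4 h1) (pr_case (pr_subr 29 25 h1) (pr_add (pr_subr 312157 1000000 (pr_scale 187 625 h1)) (pr_cmul (enc_norm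 (bx2q2_3.enc h1.l h2)) (pr_norm (pr_subr 28699 75000 (pr_scale 1211 3000 h1))))) (pr_add (pr_subr 2434501 9000000 (pr_scale 1481 5625 h1)) (pr_cmul (enc_norm (bx2q2_3.enc h1.l h2)) (pr_norm (pr_subr 8431 15000 (pr_scale 67 120 h1)))))) (pr_case (pr_subr 27 20 h1) (pr_add (pr_subr 687303 2000000 (pr_scale 32181 100000 h1)) (pr_cmul (enc_norm (bx2q2_3.enc h1.l h2)) (pr_norm (pr_subr 727 5000 (pr_scale 9 40 h1))))) (pr_add (pr_subr 467019 1000000 (pr_scale 61979 150000 h1)) (pr_cmul (enc_norm (bx2q2_3.enc h1.l h2)) (pr_norm (pr_subr 123467 100000 (pr_scale 7739 7500 h1)))))))))⟩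
noncomputable def l2q2_s : Sl2 l2q2 := ⟨_, fun h1 h2 => (pr_norm (pr_mul (cv2p_s.snd h1) (bx2q2_s.snd h1 h2)))⟩
noncomputable def cv2r_s : Sl1 cv2r := ⟨_, fun h1 => (pr_norm (pr_scale 9 10 (pr_subr 1 2 (swg_s.snd h1))))⟩
noncomputable def bf2q3_s : Sl2 bf2q3 := ⟨_, fun h1 h2 => (pr_norm (pr_add (pr_subr 65957 100000 (pr_scale 14133 500000 h1)) (pr_cmul (enc_norm (enc_subr 1 4 h2)) (pr_norm (pr_addc (pr_scale 9393 50000 h1) (enc_rat _ 26831 20000))))))⟩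
noncomputable def kf2q3_s : Sl2 kf2q3 := ⟨_, fun h1 h2 => (pr_norm (pr_mul (cv2r_s.snd h1) (bf2q3_s.snd h1 h2)))⟩
noncomputable def bx2q3_s : Sl2 bx2q3 := ⟨_, fun h1 h2 => (pr_norm (pr_add (pr_addc (pr_scale 3301 500000 h1) (enc_rat _ 129049 1000000)) (pr_cmul (enc_norm (enc_subr 1 4 h2)) (pr_norm (pr_addc (pr_scale 7397 50000 h1) (enc_rat _ 17789 12500))))))⟩
noncomputable def l2q3_s : Sl2 l2q3 := ⟨_, fun h1 h2 => (pr_norm (pr_mul (cv2r_s.snd h1) (bx2q3_s.snd h1 h2)))⟩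
noncomputable def c3g_s : Sl1 c3g := ⟨_, fun h1 => (pr_sqrtg (pr_csub (enc_pnc _ 3) (pr_scale 3 4 (pr_sq h1))))⟩
noncomputable def cv3m_s : Sl1 cv3m := ⟨_, fun h1 => (pr_norm (pr_add (pr_scale 4 5 (pr_addc (swg_s.snd h1) (enc_rat _ 1 2))) (pr_scale 1 5 (c3g_s.snd h1))))⟩
noncomputable def bf3q0_s : Sl2 bf3q0 := ⟨_, fun h1 h2 => (pr_norm (pr_add (pr_csub (enc_rat _ 10783 15625) (pr_scale 166903 500000 h1)) (pr_cmul (enc_norm (enc_subr 1 4 h2)) (pr_norm (pr_csub (enc_rat _ 631 100000) (pr_scale 155121 50000 h1))))))⟩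
noncomputable def kf3q0_s : Sl2 kf3q0 := ⟨_, fun h1 h2 => (pr_norm (pr_mul (cv3m_s.snd h1) (bf3q0_s.snd h1 h2)))⟩
noncomputable def bx3q0_s : Sl2 bx3q0 := ⟨_, fun h1 h2 => (pr_norm (pr_add (pr_addc (pr_scale 1749 31250 h1) (enc_rat _ 671 125000)) (pr_cmul (enc_norm (enc_subr 1 4 h2)) (pr_norm (pr_subr 3151 50000 (pr_scale 22599 50000 h1))))))⟩
noncomputable def l3q0_s : Sl2 l3q0 := ⟨_, fun h1 h2 => (pr_norm (pr_mul (cv3m_s.snd h1) (bx3q0_s.snd h1 h2)))⟩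
noncomputable def gsg_s : Sl1 gsg := ⟨_, fun h1 => (pr_sqrt (pr_csub (enc_pnc _ 1) (pr_scale 3 4 (pr_sq h1))))⟩
noncomputable def esg_s : Sl1 esg := ⟨_, fun h1 => (pr_norm (pr_subn 1 (pr_add (pr_half h1) (gsg_s.snd h1))))⟩
noncomputable def kf3q1_39_s : Sl2 kf3q1_39 := ⟨_, fun h1 h2 => (pr_csub (enc_pnc _ 1) h1)⟩
noncomputable def kf3q1_40_s : Sl2 kf3q1_40 := ⟨_, fun h1 h2 => (gsg_s.snd (pr_norm (kf3q1_39_s.snd h1 h2)))⟩
noncomputable def kf3q1_46_s : Sl2 kf3q1_46 := ⟨_, fun h1 h2 => (pr_scale 3 2 (kf3q1_39_s.snd h1 h2))⟩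
noncomputable def kf3q1_48_s : Sl2 kf3q1_48 := ⟨_, fun h1 h2 => (pr_cadd (enc_pnc _ 1) (kf3q1_40_s.snd h1 h2))⟩
noncomputable def kf3q1_67_s : Sl2 kf3q1_67 := ⟨_, fun h1 h2 => (pr_mul (cv2m_s.snd h1) (bf2q1_s.snd h1 h2))⟩
noncomputable def kf3q1_s : Sl2 kf3q1 := ⟨_, fun h1 h2 => (pr_norm (pr_case (pr_subr 5 8 h1) (pr_mul (cv3m_s.snd h1) (pr_norm (pr_add (pr_addc (pr_scale 731541937 1250000000 h1) (enc_rat _ 596118063 2500000000)) (pr_cmul (enc_norm (kf3q1_4.enc h1.l h2)) (pr_norm (pr_subr 480794231 125000000 (pr_scale 415490481 62500000 h1))))))) (pr_case (pr_subr 7 8 h1) (pr_add (kf3q1_67_s.snd h1 h2) (pr_mul (pr_norm (pr_mul (pr_norm (pr_sub (pr_add (pr_add (pr_mul (pr_norm (pr_mul (pr_norm (pr_sub (kf3q1_40_s.snd h1 h2) (kf3q1_46_s.snd h1 h2))) (pr_norm (kf3q1_48_s.snd h1 h2)))) (pr_nd (pr_inv (pr_sub (kf3q1_48_s.snd h1 h2) (kf3q1_46_s.snd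 h1 h2))))) (pr_mul (pr_norm (pr_sub (pr_half (kf3q1_39_s.snd h1 h2)) (pr_mul (pr_nd (pr_scale 3 4 (pr_sq (pr_norm (kf3q1_39_s.snd h1 h2))))) (pr_nd (pr_inv (kf3q1_40_s.snd h1 h2)))))) (pr_nd (pr_inv (pr_nat 2 (esg_s.snd (pr_norm (kf3q1_39_s.snd h1 h2)))))))) (pr_mul (kcg_s.snd (pr_norm (pr_sub (pr_scale 3 4 (kf3q1_39_s.snd h1 h2)) (pr_half (kf3q1_40_s.snd h1 h2)))) h2) (pr_norm (kf3q1_39_s.snd h1 h2)))) (kf3q1_67_s.snd h1 h2))) (pr_norm (pr_sub (cv3m_s.snd h1) (cv2m_s.snd h1))))) (pr_nd (pr_inv (pr_sub (pr_addc (swg_s.snd h1) (enc_rat _ 1 2)) (cv2m_s.snd h1)))))) (pr_mul (cv3m_s.snd h1) (pr_norm (pr_case (pr_subr 19 20 h1) (pr_add (pr_addc (pr_scale 236770181 375000000 h1) (enc_rat _ 2797576561 7500000000)) (pr_cmul (enc_norm (kf3q1_4.enc h1.l h2)) (pr_norm (pr_csub (enc_rat _ 186181991 750000000) (pr_scale 9698789 37500000 h1))))) (pr_add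 (pr_addc (pr_scale 6793 12500 h1) (enc_rat _ 5707 12500)) (pr_cmul (enc_norm (kf3q1_4.enc h1.l h2)) (pr_norm (pr_csub (enc_rat _ 127 2500) (pr_scale 127 2500 h1)))))))))))⟩
noncomputable def qsg_s : Sl1 qsg := ⟨_, fun h1 => (pr_norm (pr_mul (pr_norm (pr_csub (enc_pnc _ 1) (gsg_s.snd h1))) (pr_norm (pr_subn 1 (pr_nat 2 (gsg_s.snd h1))))))⟩
noncomputable def l3q1_54_s : Sl2 l3q1_54 := ⟨_, fun h1 h2 => (pr_csub (enc_pnc _ 1) h1)⟩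
noncomputable def l3q1_69_s : Sl2 l3q1_69 := ⟨_, fun h1 h2 => (pr_mul (cv2m_s.snd h1) (bx2q1_s.snd h1 h2))⟩
noncomputable def l3q1_s : Sl2 l3q1 := ⟨_, fun h1 h2 => (pr_norm (pr_case (pr_subr 5 8 h1) (pr_mul (cv3m_s.snd h1) (pr_norm (pr_add (pr_add (pr_addc (pr_scale 32891133 1250000000 h1) (enc_rat _ 31766367 2500000000)) (pr_cmul (enc_norm (l3q1_4.enc h1.l h2)) (pr_norm (pr_csub (enc_rat _ 41759059 50000000) (pr_scale 33536059 25000000 h1))))) (pr_cmul (l3q1_18.enc h1.l h2) (pr_norm (pr_subr 10143 62500 (pr_scale 10143 31250 h1))))))) (pr_case (pr_subr 7 8 h1) (pr_add (l3q1_69_s.snd h1 h2) (pr_mul (pr_norm (pr_mul (pr_norm (pr_sub (pr_sub (qsg_s.snd (pr_norm (l3q1_54_s.snd h1 h2))) (pr_mul (pr_norm (pr_nat 2 (pr_subc (l3q1_54_s.snd h1 h2) h2))) (pr_norm (pr_mul (esg_s.snd (pr_norm (l3q1_54_s.snd h1 h2))) (kcg_s.snd (pr_norm (pr_sub (pr_scale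 3 4 (l3q1_54_s.snd h1 h2)) (pr_half (gsg_s.snd (pr_norm (l3q1_54_s.snd h1 h2)))))) h2))))) (l3q1_69_s.snd h1 h2))) (pr_norm (pr_sub (cv3m_s.snd h1) (cv2m_s.snd h1))))) (pr_nd (pr_inv (pr_sub (pr_addc (swg_s.snd h1) (enc_rat _ 1 2)) (cv2m_s.snd h1)))))) (pr_mul (cv3m_s.snd h1) (pr_norm (pr_case (pr_subr 19 20 h1) (pr_add (pr_add (pr_csub (enc_rat _ 225801629 3750000000) (pr_scale 11607191 187500000 h1)) (pr_cmul (enc_norm (l3q1_4.enc h1.l h2)) (pr_norm (pr_csub (enc_rat _ 276139681 1500000000) (pr_scale 14126299 75000000 h1))))) (pr_cmul (l3q1_18.enc h1.l h2) (pr_norm (pr_csub (enc_rat _ 7049 187500) (pr_scale 371 9375 h1))))) (pr_add (pr_csub (enc_rat _ 351 12500) (pr_scale 351 12500 h1)) (pr_cmul (enc_norm (l3q1_4.enc h1.l h2)) (pr_norm (pr_csub (enc_rat _ 129 1250) (pr_scale 129 1250 h1)))))))))))⟩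
noncomputable def cv3p_s : Sl1 cv3p := ⟨_, fun h1 => (pr_norm (pr_add (pr_scale 4 5 (pr_subr 1 2 (swg_s.snd h1))) (pr_scale 1 5 (c3g_s.snd h1))))⟩
noncomputable def kf3q2_62_s : Sl2 kf3q2_62 := ⟨_, fun h1 h2 => (pr_subn 1 h1)⟩
noncomputable def kf3q2_63_s : Sl2 kf3q2_63 := ⟨_, fun h1 h2 => (gsg_s.snd (pr_norm (kf3q2_62_s.snd h1 h2)))⟩
noncomputable def kf3q2_69_s : Sl2 kf3q2_69 := ⟨_, fun h1 h2 => (pr_scale 3 2 (kf3q2_62_s.snd h1 h2))⟩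
noncomputable def kf3q2_71_s : Sl2 kf3q2_71 := ⟨_, fun h1 h2 => (pr_cadd (enc_pnc _ 1) (kf3q2_63_s.snd h1 h2))⟩
noncomputable def kf3q2_90_s : Sl2 kf3q2_90 := ⟨_, fun h1 h2 => (pr_mul (cv2p_s.snd h1) (bf2q2_s.snd h1 h2))⟩
noncomputable def kf3q2_s : Sl2 kf3q2 := ⟨_, fun h1 h2 => (pr_norm (pr_case (pr_subr 9 8 h1) (pr_mul (cv3p_s.snd h1) (pr_norm (pr_case (pr_subr 53 50 h1) (pr_case (pr_subr 103 100 h1) (pr_add (pr_addc (pr_scale 761 1000 h1) (enc_rat _ 118623 1000000)) (pr_cmul (enc_norm (kf3q2_4.enc h1.l h2)) (pr_norm (pr_csub (enc_rat _ 441 5000) (pr_scale 29 200 h1))))) (pr_add (pr_addc (pr_scale 22927 30000 h1) (enc_rat _ 172939 1500000)) (pr_cmul (enc_norm (kf3q2_4.enc h1.l h2)) (pr_norm (pr_csub (enc_rat _ 134 3125) (pr_scale 101 1000 h1)))))) (pr_case (pr_subr 11 10 h1) (pr_add (pr_addc (pr_scale 1909 2500 h1) (enc_rat _ 28991 250000))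 (pr_cmul (enc_norm (kf3q2_4.enc h1.l h2)) (pr_norm (pr_subr 8167 100000 (pr_scale 33 2000 h1))))) (pr_add (pr_addc (pr_scale 94676151 125000000 h1) (enc_rat _ 153467339 1250000000)) (pr_cmul (enc_norm (kf3q2_4.enc h1.l h2)) (pr_norm (pr_subr 1995883 6250000 (pr_scale 145353 625000 h1))))))))) (pr_case (pr_subr 11 8 h1) (pr_add (kf3q2_90_s.snd h1 h2) (pr_mul (pr_norm (pr_mul (pr_norm (pr_sub (pr_add (pr_sub (pr_mul (pr_norm (pr_mul (pr_norm (pr_sub (kf3q2_63_s.snd h1 h2) (kf3q2_69_s.snd h1 h2))) (pr_norm (kf3q2_71_s.snd h1 h2)))) (pr_nd (pr_inv (pr_sub (kf3q2_71_s.snd h1 h2) (kf3q2_69_s.snd h1 h2))))) (pr_mul (pr_norm (pr_sub (pr_half (kf3q2_62_s.snd h1 h2)) (pr_mul (pr_nd (pr_scale 3 4 (pr_sq (pr_norm (kf3q2_62_s.snd h1 h2))))) (pr_nd (pr_inv (kf3q2_63_s.snd h1 h2)))))) (pr_nd (pr_inv (pr_nat 2 (esg_s.snd (pr_norm (kf3q2_62_s.snd h1 h2))))))))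 (pr_mul (kcg_s.snd (pr_norm (pr_sub (pr_scale 3 4 (kf3q2_62_s.snd h1 h2)) (pr_half (kf3q2_63_s.snd h1 h2)))) h2) (pr_norm (kf3q2_62_s.snd h1 h2)))) (kf3q2_90_s.snd h1 h2))) (pr_norm (pr_sub (cv3p_s.snd h1) (cv2p_s.snd h1))))) (pr_nd (pr_inv (pr_sub (pr_subr 1 2 (swg_s.snd h1)) (cv2p_s.snd h1)))))) (pr_mul (cv3p_s.snd h1) (pr_norm (pr_add (pr_addc (pr_scale 125324883 1250000000 h1) (enc_rat _ 756060351 2500000000)) (pr_cmul (enc_norm (kf3q2_4.enc h1.l h2)) (pr_norm (pr_subr 61077447 125000000 (pr_scale 34107899 62500000 h1))))))))))⟩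
noncomputable def l3q2_82_s : Sl2 l3q2_82 := ⟨_, fun h1 h2 => (pr_subn 1 h1)⟩
noncomputable def l3q2_97_s : Sl2 l3q2_97 := ⟨_, fun h1 h2 => (pr_mul (cv2p_s.snd h1) (bx2q2_s.snd h1 h2))⟩
noncomputable def l3q2_s : Sl2 l3q2 := ⟨_, fun h1 h2 => (pr_norm (pr_case (pr_subr 9 8 h1) (pr_mul (cv3p_s.snd h1) (pr_norm (pr_case (pr_subr 53 50 h1) (pr_case (pr_subr 103 100 h1) (pr_add (pr_csub (enc_rat _ 12243 1000000) (pr_scale 277 10000 h1)) (pr_cmul (enc_norm (l3q2_4.enc h1.l h2)) (pr_norm (pr_subr 2939 300000 (pr_neg (pr_scale 11 600 h1)))))) (pr_add (pr_subr 2333 187500 (pr_neg (pr_scale 7 1875 h1))) (pr_cmul (enc_norm (l3q2_4.enc h1.l h2)) (pr_norm (pr_csub (enc_rat _ 8911 9375) (pr_scale 713 750 h1)))))) (pr_case (pr_subr 11 10 h1) (pr_add (pr_subr 9431 100000 (pr_scale 147 2000 h1)) (pr_cmul (enc_norm (l3q2_4.enc h1.l h2)) (pr_norm (pr_csub (enc_rat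 _ 123799 40000) (pr_scale 2379 800 h1))))) (pr_add (pr_add (pr_subr 614272361 2500000000 (pr_scale 52783851 250000000 h1)) (pr_cmul (enc_norm (l3q2_4.enc h1.l h2)) (pr_norm (pr_subr 935498273 125000000 (pr_scale 83043593 12500000 h1))))) (pr_cmul (l3q2_58.enc h1.l h2) (pr_norm (pr_subr 250261 125000 (pr_scale 22751 12500 h1))))))))) (pr_case (pr_subr 11 8 h1) (pr_add (l3q2_97_s.snd h1 h2) (pr_mul (pr_norm (pr_mul (pr_norm (pr_sub (pr_sub (qsg_s.snd (pr_norm (l3q2_82_s.snd h1 h2))) (pr_mul (pr_norm (pr_nat 2 (pr_subc (l3q2_82_s.snd h1 h2) h2))) (pr_norm (pr_mul (esg_s.snd (pr_norm (l3q2_82_s.snd h1 h2))) (kcg_s.snd (pr_norm (pr_sub (pr_scale 3 4 (l3q2_82_s.snd h1 h2)) (pr_half (gsg_s.snd (pr_norm (l3q2_82_s.snd h1 h2)))))) h2))))) (l3q2_97_s.snd h1 h2))) (pr_norm (pr_sub (cv3p_s.snd h1) (cv2p_s.snd h1))))) (pr_nd (pr_inv (pr_sub (pr_subr 1 2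 (swg_s.snd h1)) (cv2p_s.snd h1)))))) (pr_mul (cv3p_s.snd h1) (pr_norm (pr_add (pr_add (pr_csub (enc_rat _ 24623183 78125000) (pr_scale 53072863 312500000 h1)) (pr_cmul (enc_norm (l3q2_4.enc h1.l h2)) (pr_norm (pr_csub (enc_rat _ 43019951 62500000) (pr_scale 18442067 31250000 h1))))) (pr_cmul (l3q2_58.enc h1.l h2) (pr_norm (pr_csub (enc_rat _ 831801 250000) (pr_scale 277267 125000 h1))))))))))⟩
noncomputable def ycg_s : Sl1 ycg := ⟨_, fun h1 => (pr_sqrtg (pr_scale 4 3 (pr_csub (enc_pnc _ 3) (pr_sq h1))))⟩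
noncomputable def xc33_s : Sl1 xc33 := ⟨_, fun h1 => (pr_norm (pr_add (pr_scale 4 5 (pr_subr 1 2 (swg_s.snd (pr_nd (ycg_s.snd h1))))) (pr_scale 1 5 h1)))⟩
noncomputable def bf3q3_s : Sl2 bf3q3 := ⟨_, fun h1 h2 => (pr_norm (pr_add (pr_subr 21653 125000 (pr_scale 84153 250000 h1)) (pr_cmul (enc_norm (enc_subr 1 4 h2)) (pr_norm (pr_subr 84887 25000 (pr_scale 84887 50000 h1))))))⟩
noncomputable def kfc33_s : Sl2 kfc33 := ⟨_, fun h1 h2 => (pr_norm (pr_mul (pr_norm (pr_add (pr_scale 4 5 (pr_subr 1 2 (swg_s.snd (pr_nd (ycg_s.snd h1))))) (pr_scale 1 5 h1))) (bf3q3_s.snd (pr_nd (ycg_s.snd h1)) h2)))⟩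
noncomputable def bx3q3_s : Sl2 bx3q3 := ⟨_, fun h1 h2 => (pr_norm (pr_add (pr_csub (enc_rat _ 845353 1600000) (pr_scale 222067 800000 h1)) (pr_cmul (enc_norm (enc_subr 1 4 h2)) (pr_norm (pr_csub (enc_rat _ 1083137 3200000) (pr_scale 228939 1600000 h1))))))⟩
noncomputable def lc33_s : Sl2 lc33 := ⟨_, fun h1 h2 => (pr_norm (pr_mul (pr_norm (pr_add (pr_scale 4 5 (pr_subr 1 2 (swg_s.snd (pr_nd (ycg_s.snd h1))))) (pr_scale 1 5 h1))) (bx3q3_s.snd (pr_nd (ycg_s.snd h1)) h2)))⟩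
noncomputable def cv4m_s : Sl1 cv4m := ⟨_, fun h1 => (pr_norm (pr_add (pr_scale 2 5 (pr_addc (swg_s.snd h1) (enc_rat _ 1 2))) (pr_scale 3 5 (c3g_s.snd h1))))⟩
noncomputable def bf4q0_s : Sl2 bf4q0 := ⟨_, fun h1 h2 => (pr_norm (pr_add (pr_csub (enc_rat _ 66647 250000) (pr_scale 138259 250000 h1)) (pr_cmul (enc_norm (enc_subr 1 4 h2)) (pr_norm (pr_csub (enc_rat _ 55473 100000) (pr_scale 292471 50000 h1))))))⟩
noncomputable def kf4q0_s : Sl2 kf4q0 := ⟨_, fun h1 h2 => (pr_norm (pr_mul (cv4m_s.snd h1) (bf4q0_s.snd h1 h2)))⟩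
noncomputable def bx4q0_s : Sl2 bx4q0 := ⟨_, fun h1 h2 => (pr_norm (pr_add (pr_addc (pr_scale 7 250000 h1) (enc_rat _ 727 20000)) (pr_cmul (enc_norm (enc_subr 1 4 h2)) (pr_norm (pr_csub (enc_rat _ 19839 50000) (pr_scale 37641 50000 h1))))))⟩
noncomputable def l4q0_s : Sl2 l4q0 := ⟨_, fun h1 h2 => (pr_norm (pr_mul (cv4m_s.snd h1) (bx4q0_s.snd h1 h2)))⟩
noncomputable def bf4q1_s : Sl2 bf4q1 := ⟨_, fun h1 h2 => (pr_norm (pr_case (pr_subr 4 5 h1) (pr_case (pr_subr 7 10 h1) (pr_add (pr_addc (pr_scale 106867 200000 h1) (enc_rat _ 948861 2000000)) (pr_cmul (enc_norm (bf4q1_3.enc h1.l h2)) (pr_norm (pr_subr 111459 200000 (pr_scale 12069 20000 h1))))) (pr_add (pr_addc (pr_scale 52839 100000 h1) (enc_rat _ 7478 15625)) (pr_cmul (enc_norm (bf4q1_3.enc h1.l h2)) (pr_norm (pr_subr 50147 100000 (pr_scale 5237 10000 h1)))))) (pr_case (pr_subr 7 8 h1) (pr_add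 (pr_addc (pr_scale 38441 75000 h1) (enc_rat _ 7369 15000)) (pr_cmul (enc_norm (bf4q1_3.enc h1.l h2)) (pr_norm (pr_subr 5177 12000 (pr_scale 3271 7500 h1))))) (pr_case (pr_subr 19 20 h1) (pr_add (pr_addc (pr_scale 1471 3000 h1) (enc_rat _ 153211 300000)) (pr_cmul (enc_norm (bf4q1_3.enc h1.l h2)) (pr_norm (pr_subr 4561 12000 (pr_scale 2831 7500 h1))))) (pr_add (pr_addc (pr_scale 587 1250 h1) (enc_rat _ 663 1250)) (pr_cmul (enc_norm (bf4q1_3.enc h1.l h2)) (pr_norm (pr_subr 2149 5000 (pr_scale 2149 5000 h1)))))))))⟩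
noncomputable def kf4q1_s : Sl2 kf4q1 := ⟨_, fun h1 h2 => (pr_norm (pr_mul (cv4m_s.snd h1) (bf4q1_s.snd h1 h2)))⟩
noncomputable def bx4q1_s : Sl2 bx4q1 := ⟨_, fun h1 h2 => (pr_norm (pr_case (pr_subr 4 5 h1) (pr_case (pr_subr 7 10 h1) (pr_add (pr_csub (enc_rat _ 156521 2000000) (pr_scale 3507 40000 h1)) (pr_cmul (enc_norm (bx4q1_3.enc h1.l h2)) (pr_norm (pr_csub (enc_rat _ 26827 200000) (pr_scale 2071 20000 h1))))) (pr_add (pr_csub (enc_rat _ 4433 62500) (pr_scale 193 2500 h1)) (pr_cmul (enc_norm (bx4q1_3.enc h1.l h2)) (pr_norm (pr_csub (enc_rat _ 3281 12500) (pr_scale 2869 10000 h1)))))) (pr_case (pr_subr 7 8 h1) (pr_add (pr_csub (enc_rat _ 3369 62500) (pr_scale 699 12500 h1)) (pr_cmul (enc_norm (bx4q1_3.enc h1.l h2)) (pr_norm (pr_csub (enc_rat _ 441 3125) (pr_scale 169 1250 h1))))) (pr_case (pr_subr 19 20 h1) (pr_add (pr_csub (enc_rat _ 123317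 3000000) (pr_scale 3097 75000 h1)) (pr_cmul (enc_norm (bx4q1_3.enc h1.l h2)) (pr_norm (pr_csub (enc_rat _ 23513 150000) (pr_scale 287 1875 h1))))) (pr_add (pr_csub (enc_rat _ 1877 50000) (pr_scale 1877 50000 h1)) (pr_cmul (enc_norm (bx4q1_3.enc h1.l h2)) (pr_norm (pr_csub (enc_rat _ 567 2500) (pr_scale 567 2500 h1)))))))))⟩
noncomputable def l4q1_s : Sl2 l4q1 := ⟨_, fun h1 h2 => (pr_norm (pr_mul (cv4m_s.snd h1) (bx4q1_s.snd h1 h2)))⟩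
noncomputable def cv4p_s : Sl1 cv4p := ⟨_, fun h1 => (pr_norm (pr_add (pr_scale 2 5 (pr_subr 1 2 (swg_s.snd h1))) (pr_scale 3 5 (c3g_s.snd h1))))⟩
noncomputable def bf4q2_s : Sl2 bf4q2 := ⟨_, fun h1 h2 => (pr_norm (pr_case (pr_subr 11 10 h1) (pr_case (pr_subr 103 100 h1) (pr_add (pr_addc (pr_scale 8803 30000 h1) (enc_rat _ 345511 600000)) (pr_cmul (enc_norm (bf4q2_3.enc h1.l h2)) (pr_norm (pr_subr 10247 25000 (pr_scale 9 125 h1))))) (pr_case (pr_subr 53 50 h1) (pr_add (pr_addc (pr_scale 2171 7500 h1) (enc_rat _ 434953 750000)) (pr_cmul (enc_norm (bf4q2_3.enc h1.l h2)) (pr_norm (pr_subr 23089 60000 (pr_scale 143 3000 h1))))) (pr_add (pr_addc (pr_scale 11337 40000 h1) (enc_rat _ 1172683 2000000)) (pr_cmul (enc_norm (bf4q2_3.enc h1.l h2)) (pr_norm (pr_subr 71151 200000 (pr_scale 81 4000 h1))))))) (pr_case (pr_subr 5 4 h1) (pr_case (pr_subr 29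 25 h1) (pr_add (pr_addc (pr_scale 16553 60000 h1) (enc_rat _ 222989 375000)) (pr_cmul (enc_norm (bf4q2_3.enc h1.l h2)) (pr_norm (pr_subr 16289 50000 (pr_neg (pr_scale 7 1000 h1)))))) (pr_add (pr_addc (pr_scale 24259 90000 h1) (enc_rat _ 2708957 4500000)) (pr_cmul (enc_norm (bf4q2_3.enc h1.l h2)) (pr_norm (pr_subr 3049 10000 (pr_neg (pr_scale 1 40 h1))))))) (pr_case (pr_subr 27 20 h1) (pr_add (pr_addc (pr_scale 3327 12500 h1) (enc_rat _ 606221 1000000)) (pr_cmul (enc_norm (bf4q2_3.enc h1.l h2)) (pr_norm (pr_subr 11861 40000 (pr_neg (pr_scale 317 10000 h1)))))) (pr_add (pr_addc (pr_scale 7931 30000 h1) (enc_rat _ 304321 500000)) (pr_cmul (enc_norm (bf4q2_3.enc h1.l h2)) (pr_norm (pr_subr 14761 50000 (pr_neg (pr_scale 49 1500 h1))))))))))⟩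
noncomputable def kf4q2_s : Sl2 kf4q2 := ⟨_, fun h1 h2 => (pr_norm (pr_mul (cv4p_s.snd h1) (bf4q2_s.snd h1 h2)))⟩
noncomputable def bx4q2_s : Sl2 bx4q2 := ⟨_, fun h1 h2 => (pr_norm (pr_case (pr_subr 11 10 h1) (pr_case (pr_subr 103 100 h1) (pr_add (pr_csub (enc_rat _ 265981 1500000) (pr_scale 2497 15000 h1)) (pr_cmul (enc_norm (bx4q2_3.enc h1.l h2)) (pr_norm (pr_subr 16453 75000 (pr_scale 11 60 h1))))) (pr_case (pr_subr 53 50 h1) (pr_add (pr_csub (enc_rat _ 219013 1500000) (pr_scale 2041 15000 h1)) (pr_cmul (enc_norm (bx4q2_3.enc h1.l h2)) (pr_norm (pr_subr 79099 300000 (pr_scale 679 3000 h1))))) (pr_add (pr_csub (enc_rat _ 10163 100000) (pr_scale 471 5000 h1)) (pr_cmul (enc_norm (bx4q2_3.enc h1.l h2)) (pr_norm (pr_subr 202 625 (pr_scale 113 400 h1))))))) (pr_case (pr_subr 5 4 h1) (pr_case (pr_subr 29 25 h1) (pr_add (pr_csub (enc_rat _ 2767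 60000) (pr_scale 82 1875 h1)) (pr_cmul (enc_norm (bx4q2_3.enc h1.l h2)) (pr_norm (pr_subr 24331 60000 (pr_scale 134 375 h1))))) (pr_add (pr_subr 8429 1500000 (pr_scale 13 15000 h1)) (pr_cmul (enc_norm (bx4q2_3.enc h1.l h2)) (pr_norm (pr_subr 397793 900000 (pr_scale 3499 9000 h1)))))) (pr_case (pr_subr 27 20 h1) (pr_add (pr_subr 16743 500000 (pr_scale 579 25000 h1)) (pr_cmul (enc_norm (bx4q2_3.enc h1.l h2)) (pr_norm (pr_subr 98179 200000 (pr_scale 4279 10000 h1))))) (pr_add (pr_subr 45087 1000000 (pr_scale 4763 150000 h1)) (pr_cmul (enc_norm (bx4q2_3.enc h1.l h2)) (pr_norm (pr_subr 10969 20000 (pr_scale 3529 7500 h1)))))))))⟩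
noncomputable def l4q2_s : Sl2 l4q2 := ⟨_, fun h1 h2 => (pr_norm (pr_mul (cv4p_s.snd h1) (bx4q2_s.snd h1 h2)))⟩
noncomputable def xc43_s : Sl1 xc43 := ⟨_, fun h1 => (pr_norm (pr_add (pr_scale 2 5 (pr_subr 1 2 (swg_s.snd (pr_nd (ycg_s.snd h1))))) (pr_scale 3 5 h1)))⟩
noncomputable def bf4q3_s : Sl2 bf4q3 := ⟨_, fun h1 h2 => (pr_norm (pr_add (pr_subr 513417 250000 (pr_scale 638417 500000 h1)) (pr_cmul (enc_norm (enc_subr 1 4 h2)) (pr_norm (pr_subr 289187 12500 (pr_scale 289187 25000 h1))))))⟩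
noncomputable def kfc43_s : Sl2 kfc43 := ⟨_, fun h1 h2 => (pr_norm (pr_mul (pr_norm (pr_add (pr_scale 2 5 (pr_subr 1 2 (swg_s.snd (pr_nd (ycg_s.snd h1))))) (pr_scale 3 5 h1))) (bf4q3_s.snd (pr_nd (ycg_s.snd h1)) h2)))⟩
noncomputable def bx4q3_s : Sl2 bx4q3 := ⟨_, fun h1 h2 => (pr_norm (pr_add (pr_csub (enc_rat _ 3223981 8000000) (pr_scale 859639 4000000 h1)) (pr_cmul (enc_norm (enc_subr 1 4 h2)) (pr_norm (pr_csub (enc_rat _ 1527681 3200000) (pr_scale 13603 64000 h1))))))⟩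
noncomputable def lc43_s : Sl2 lc43 := ⟨_, fun h1 h2 => (pr_norm (pr_mul (pr_norm (pr_add (pr_scale 2 5 (pr_subr 1 2 (swg_s.snd (pr_nd (ycg_s.snd h1))))) (pr_scale 3 5 h1))) (bx4q3_s.snd (pr_nd (ycg_s.snd h1)) h2)))⟩
noncomputable def kf5q0_s : Sl2 kf5q0 := ⟨_, fun h1 h2 => (pr_norm (pr_sub (pr_mul h1 (kcg_s.snd (pr_nd (pr_half h1)) h2)) (pr_mul (pr_norm (pr_mul (pr_nd (pr_sq h1)) (pr_norm (pr_addc (c3g_s.snd h1) (enc_rat _ 3 2))))) (pr_nd (pr_inv (pr_mul (pr_norm (pr_csub (enc_pnc _ 1) h1)) (pr_norm (pr_cadd (enc_pnc _ 1) h1))))))))⟩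
noncomputable def l5q0_6_s : Sl2 l5q0_6 := ⟨_, fun h1 h2 => (pr_half h1)⟩
noncomputable def l5q0_7_s : Sl2 l5q0_7 := ⟨_, fun h1 h2 => (pr_half (c3g_s.snd h1))⟩
noncomputable def l5q0_8_s : Sl2 l5q0_8 := ⟨_, fun h1 h2 => (pr_scale 1 4 h1)⟩
noncomputable def l5q0_s : Sl2 l5q0 := ⟨_, fun h1 h2 => (pr_norm (pr_add (txg_s.snd (pr_nd (l5q0_6_s.snd h1 h2)) (pr_norm (pr_sub (l5q0_7_s.snd h1 h2) (l5q0_8_s.snd h1 h2))) h2) (txg_s.snd (pr_nd (pr_neg (l5q0_6_s.snd h1 h2))) (pr_norm (pr_add (l5q0_7_s.snd h1 h2) (l5q0_8_s.snd h1 h2))) h2)))⟩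
noncomputable def kf5q1_s : Sl2 kf5q1 := ⟨_, fun h1 h2 => (pr_norm (pr_add (pr_mul (pr_norm (pr_mul h1 (pr_norm (pr_addc (c3g_s.snd h1) (enc_rat _ 3 2))))) (pr_nd (pr_inv (pr_cadd (enc_pnc _ 1) h1)))) (pr_mul (pr_norm (pr_subn 1 h1)) (kcg_s.snd (pr_nd (pr_half h1)) h2))))⟩
noncomputable def l5q1_7_s : Sl2 l5q1_7 := ⟨_, fun h1 h2 => (pr_half h1)⟩
noncomputable def l5q1_8_s : Sl2 l5q1_8 := ⟨_, fun h1 h2 => (pr_half (c3g_s.snd h1))⟩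
noncomputable def l5q1_9_s : Sl2 l5q1_9 := ⟨_, fun h1 h2 => (pr_scale 1 4 h1)⟩
noncomputable def l5q1_s : Sl2 l5q1 := ⟨_, fun h1 h2 => (pr_norm (pr_add (txg_s.snd (pr_nd (l5q1_7_s.snd h1 h2)) (pr_norm (pr_sub (l5q1_8_s.snd h1 h2) (l5q1_9_s.snd h1 h2))) h2) (txg_s.snd (pr_nd (pr_neg (l5q1_7_s.snd h1 h2))) (pr_norm (pr_add (l5q1_8_s.snd h1 h2) (l5q1_9_s.snd h1 h2))) h2)))⟩
noncomputable def kf5q2_s : Sl2 kf5q2 := ⟨_, fun h1 h2 => (pr_norm (pr_add (pr_mul (pr_norm (pr_mul (pr_norm (pr_sub (pr_nat 2 (c3g_s.snd h1)) h1)) (pr_norm (pr_sub (pr_addc (c3g_s.snd h1) (enc_pnc _ 3)) (pr_scale 3 2 h1))))) (pr_nd (pr_inv (pr_nat 4 (pr_csub (enc_pnc _ 2) h1))))) (pr_mul (pr_norm (pr_subn 1 h1)) (kcg_s.snd (pr_norm (pr_sub (pr_scale 1 4 h1) (pr_half (c3g_s.snd h1)))) h2))))⟩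
noncomputable def l5q2_7_s : Sl2 l5q2_7 := ⟨_, fun h1 h2 => (pr_half (c3g_s.snd h1))⟩
noncomputable def l5q2_8_s : Sl2 l5q2_8 := ⟨_, fun h1 h2 => (pr_scale 1 4 h1)⟩
noncomputable def l5q2_9_s : Sl2 l5q2_9 := ⟨_, fun h1 h2 => (pr_sub (l5q2_7_s.snd h1 h2) (l5q2_8_s.snd h1 h2))⟩
noncomputable def l5q2_12_s : Sl2 l5q2_12 := ⟨_, fun h1 h2 => (pr_add (pr_scale 1 4 (c3g_s.snd h1)) (pr_scale 3 8 h1))⟩
noncomputable def l5q2_14_s : Sl2 l5q2_14 := ⟨_, fun h1 h2 => (pr_half (l5q2_9_s.snd h1 h2))⟩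
noncomputable def l5q2_s : Sl2 l5q2 := ⟨_, fun h1 h2 => (pr_norm (pr_sub (pr_nat 2 (txg_s.snd (pr_norm (pr_sub (l5q2_8_s.snd h1 h2) (l5q2_7_s.snd h1 h2))) (pr_norm (pr_add (l5q2_12_s.snd h1 h2) (l5q2_14_s.snd h1 h2))) h2)) (txg_s.snd (pr_norm (l5q2_9_s.snd h1 h2)) (pr_norm (pr_sub (l5q2_12_s.snd h1 h2) (l5q2_14_s.snd h1 h2))) h2)))⟩
noncomputable def kfc53_s : Sl2 kfc53 := ⟨_, fun h1 h2 => (pr_norm (pr_sub (pr_mul (pr_norm (pr_subn 2 (ycg_s.snd h1))) (kcg_s.snd (pr_norm (pr_sub (pr_scale 1 4 (ycg_s.snd h1)) (pr_half h1))) h2)) (pr_mul (pr_norm (pr_mul (pr_norm (pr_sub (pr_nat 2 h1) (ycg_s.snd h1))) (pr_norm (pr_sub (pr_addc h1 (enc_pnc _ 3)) (pr_scale 3 2 (ycg_s.snd h1)))))) (pr_nd (pr_inv (pr_nat 4 (pr_subn 1 (ycg_s.snd h1))))))))⟩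
noncomputable def lc53_7_s : Sl2 lc53_7 := ⟨_, fun h1 h2 => (pr_half h1)⟩
noncomputable def lc53_8_s : Sl2 lc53_8 := ⟨_, fun h1 h2 => (pr_scale 1 4 (ycg_s.snd h1))⟩
noncomputable def lc53_9_s : Sl2 lc53_9 := ⟨_, fun h1 h2 => (pr_sub (lc53_7_s.snd h1 h2) (lc53_8_s.snd h1 h2))⟩
noncomputable def lc53_12_s : Sl2 lc53_12 := ⟨_, fun h1 h2 => (pr_add (pr_scale 1 4 h1) (pr_scale 3 8 (ycg_s.snd h1)))⟩
noncomputable def lc53_14_s : Sl2 lc53_14 := ⟨_, fun h1 h2 => (pr_half (lc53_9_s.snd h1 h2))⟩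
noncomputable def lc53_s : Sl2 lc53 := ⟨_, fun h1 h2 => (pr_norm (pr_sub (pr_nat 2 (txg_s.snd (pr_norm (pr_sub (lc53_8_s.snd h1 h2) (lc53_7_s.snd h1 h2))) (pr_norm (pr_add (lc53_12_s.snd h1 h2) (lc53_14_s.snd h1 h2))) h2)) (txg_s.snd (pr_norm (lc53_9_s.snd h1 h2)) (pr_norm (pr_sub (lc53_12_s.snd h1 h2) (lc53_14_s.snd h1 h2))) h2)))⟩
noncomputable def gF0q0 : Gn := ⟨ndF0q0, c1g_s, kf0q0_s, l0q0_s, false⟩
noncomputable def gF0q1 : Gn := ⟨ndF0q1, c1g_s, kf0q1_s, l0q1_s, false⟩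
noncomputable def gF0q2 : Gn := ⟨ndF0q2, idf_s, kfc02_s, lc02_s, true⟩
noncomputable def gF1q0 : Gn := ⟨ndF1q0, cv1m_s, kf1q0_s, l1q0_s, false⟩
noncomputable def gF1q1 : Gn := ⟨ndF1q1, cv1m_s, kf1q1_s, l1q1_s, false⟩
noncomputable def gF1q2 : Gn := ⟨ndF1q2, cv1p_s, kf1q2_s, l1q2_s, false⟩
noncomputable def gF1q3 : Gn := ⟨ndF1q3, cv1r_s, kf1q3_s, l1q3_s, false⟩
noncomputable def gF2q0 : Gn := ⟨ndF2q0, cv2m_s, kf2q0_s, l2q0_s, false⟩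
noncomputable def gF2q1 : Gn := ⟨ndF2q1, cv2m_s, kf2q1_s, l2q1_s, false⟩
noncomputable def gF2q2 : Gn := ⟨ndF2q2, cv2p_s, kf2q2_s, l2q2_s, false⟩
noncomputable def gF2q3 : Gn := ⟨ndF2q3, cv2r_s, kf2q3_s, l2q3_s, false⟩
noncomputable def gF3q0 : Gn := ⟨ndF3q0, cv3m_s, kf3q0_s, l3q0_s, false⟩
noncomputable def gF3q1 : Gn := ⟨ndF3q1, cv3m_s, kf3q1_s, l3q1_s, false⟩
noncomputable def gF3q2 : Gn := ⟨ndF3q2, cv3p_s, kf3q2_s, l3q2_s, false⟩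
noncomputable def gF3q3 : Gn := ⟨ndF3q3, xc33_s, kfc33_s, lc33_s, false⟩
noncomputable def gF4q0 : Gn := ⟨ndF4q0, cv4m_s, kf4q0_s, l4q0_s, false⟩
noncomputable def gF4q1 : Gn := ⟨ndF4q1, cv4m_s, kf4q1_s, l4q1_s, false⟩
noncomputable def gF4q2 : Gn := ⟨ndF4q2, cv4p_s, kf4q2_s, l4q2_s, false⟩
noncomputable def gF4q3 : Gn := ⟨ndF4q3, xc43_s, kfc43_s, lc43_s, false⟩
noncomputable def gF5q0 : Gn := ⟨ndF5q0, c3g_s, kf5q0_s, l5q0_s, false⟩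
noncomputable def gF5q1 : Gn := ⟨ndF5q1, c3g_s, kf5q1_s, l5q1_s, false⟩
noncomputable def gF5q2 : Gn := ⟨ndF5q2, c3g_s, kf5q2_s, l5q2_s, false⟩
noncomputable def gF5q3 : Gn := ⟨ndF5q3, idf_s, kfc53_s, lc53_s, false⟩
noncomputable def gF0q3 : Gn := gz
noncomputable def gF (j : Fin 6) (q : ℕ) : Gn :=
  match j, q with
  | 0, 0 => gF0q0
  | 0, 1 => gF0q1
  | 0, 2 => gF0q2
  | 0, 3 => gF0q3
  | 1, 0 => gF1q0
  | 1, 1 => gF1q1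
  | 1, 2 => gF1q2
  | 1, 3 => gF1q3
  | 2, 0 => gF2q0
  | 2, 1 => gF2q1
  | 2, 2 => gF2q2
  | 2, 3 => gF2q3
  | 3, 0 => gF3q0
  | 3, 1 => gF3q1
  | 3, 2 => gF3q2
  | 3, 3 => gF3q3
  | 4, 0 => gF4q0
  | 4, 1 => gF4q1
  | 4, 2 => gF4q2
  | 4, 3 => gF4q3
  | 5, 0 => gF5q0
  | 5, 1 => gF5q1
  | 5, 2 => gF5q2
  | 5, 3 => gF5q3
  | _, _ => gF0q0

noncomputable def c0n : Fn1 := ⟨_, _, fun h1 => (enc_norm (enc_add (enc_pnc _ 1) (enc_mul (mug3.enc h1) (gug.enc h1))))⟩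
noncomputable def gug_s : Sl1 gug := ⟨_, fun h1 => (pr_norm (pr_add (pr_scale 3 4 h1) (pr_scale 3 2 (pr_csub (enc_pnc _ 1) (gsg_s.snd h1)))))⟩
noncomputable def kug_2_s : Sl1 kug_2 := ⟨_, fun h1 => (pr_sq h1)⟩
noncomputable def kug_s : Sl1 kug := ⟨_, fun h1 => (pr_norm (pr_add (pr_add (pr_scale 3 4 h1) (pr_scale 3 2 (kug_2_s.snd h1))) (pr_mul (pr_norm (pr_mul (pr_nd (pr_scale 3 4 (kug_2_s.snd h1))) (pr_nd (pr_inv (gsg_s.snd h1))))) (gug_s.snd h1))))⟩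
noncomputable def kp0q0_8_s : Sl2 kp0q0_8 := ⟨_, fun h1 h2 => (pr_sub (pr_scale 3 4 h1) (pr_half (c1g_s.snd h1)))⟩
noncomputable def kp0q0_s : Sl2 kp0q0 := ⟨_, fun h1 h2 => (pr_norm (pr_case (pr_addc (kp0q0_8_s.snd h1 h2) (enc_rat _ 37 91)) (pr_mul h1 (pr_norm (pr_add (pr_subr 287795200079 170000000000 (pr_neg (pr_scale 443615160079 85000000000 (kp0q0_8_s.snd h1 h2)))) (pr_cmul (enc_norm (kp0q0_3.enc h1.l h2)) (pr_norm (pr_subr 50199029999 8500000000 (pr_neg (pr_scale 61209419999 4250000000 (kp0q0_8_s.snd h1 h2))))))))) (pr_case (pr_addc (kp0q0_8_s.snd h1 h2) (enc_rat _ 47 247)) (pr_sub (kug_s.snd h1) (pr_mul h1 (pr_norm (pr_mul (kcg_s.snd (pr_norm (kp0q0_8_s.snd h1 h2)) h2) (pr_norm (pr_add (gug_s.snd h1) (pr_nat 2 (c1g_s.snd h1)))))))) (pr_mul h1 (pr_norm (pr_add (pr_csub (enc_rat _ 1692617012971 3410000000000) (pr_scale 4818182092971 1705000000000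 (kp0q0_8_s.snd h1 h2))) (pr_cmul (enc_norm (kp0q0_3.enc h1.l h2)) (pr_norm (pr_subr 1982826199963 3410000000000 (pr_neg (pr_scale 2434283200037 1705000000000 (kp0q0_8_s.snd h1 h2))))))))))))⟩
noncomputable def kn0q0_s : Sl2 kn0q0 := ⟨_, fun h1 h2 => (pr_norm (pr_add (pr_cmul (enc_norm (enc_add (enc_pnc _ 1) (enc_mul (mug3.enc h2) (gug.enc h2)))) (kf0q0_s.snd h1 h2)) (pr_cmul (mug3.enc h2) (kp0q0_s.snd h1 h2))))⟩
noncomputable def kp0q1_9_s : Sl2 kp0q1_9 := ⟨_, fun h1 h2 => (pr_sub (pr_scale 3 4 h1) (pr_half (c1g_s.snd h1)))⟩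
noncomputable def kp0q1_s : Sl2 kp0q1 := ⟨_, fun h1 h2 => (pr_norm (pr_mul (pr_norm (pr_subn 1 h1)) (pr_norm (pr_add (pr_csub (enc_rat _ 1692617012971 3410000000000) (pr_scale 4818182092971 1705000000000 (kp0q1_9_s.snd h1 h2))) (pr_cmul (enc_norm (enc_subr 1 4 h2)) (pr_norm (pr_subr 1982826199963 3410000000000 (pr_neg (pr_scale 2434283200037 1705000000000 (kp0q1_9_s.snd h1 h2))))))))))⟩
noncomputable def kn0q1_s : Sl2 kn0q1 := ⟨_, fun h1 h2 => (pr_norm (pr_add (pr_cmul (enc_norm (enc_add (enc_pnc _ 1) (enc_mul (mug3.enc h2) (gug.enc h2)))) (kf0q1_s.snd h1 h2)) (pr_cmul (mug3.enc h2) (kp0q1_s.snd h1 h2))))⟩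
noncomputable def kpc02_s : Sl2 kpc02 := ⟨_, fun h1 h2 => (pr_norm (pr_mul (pr_norm (pr_subn 1 (yag_s.snd h1))) (pr_norm (pr_case (pr_subr 1 10 h1) (pr_add (pr_scale 10927 6250 h1) (pr_cmul (enc_norm (kpc02_4.enc h1.l h2)) (pr_nd (pr_scale 59 625 h1)))) (pr_add (pr_subr 10607 1000000 (pr_scale 185439 100000 h1)) (pr_cmul (enc_norm (kpc02_4.enc h1.l h2)) (pr_norm (pr_subr 62407 200000 (pr_scale 12859 4000 h1)))))))))⟩
noncomputable def knc02_s : Sl2 knc02 := ⟨_, fun h1 h2 => (pr_norm (pr_add (pr_cmul (enc_norm (enc_add (enc_pnc _ 1) (enc_mul (mug3.enc h2) (gug.enc h2)))) (kfc02_s.snd h1 h2)) (pr_cmul (mug3.enc h2) (kpc02_s.snd h1 h2))))⟩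
noncomputable def bd1q0_s : Sl2 bd1q0 := ⟨_, fun h1 h2 => (pr_norm (pr_sub (pr_neg (pr_scale 95271 500000 h1)) (pr_cmul (enc_norm (enc_subr 1 4 h2)) (pr_nd (pr_scale 2437 12500 h1)))))⟩
noncomputable def kp1q0_s : Sl2 kp1q0 := ⟨_, fun h1 h2 => (pr_norm (pr_mul (cv1m_s.snd h1) (bd1q0_s.snd h1 h2)))⟩
noncomputable def kn1q0_s : Sl2 kn1q0 := ⟨_, fun h1 h2 => (pr_norm (pr_add (pr_cmul (enc_norm (enc_add (enc_pnc _ 1) (enc_mul (mug3.enc h2) (gug.enc h2)))) (kf1q0_s.snd h1 h2)) (pr_cmul (mug3.enc h2) (kp1q0_s.snd h1 h2))))⟩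
noncomputable def bd1q1_24_s : Sl2 bd1q1_24 := ⟨_, fun h1 h2 => (pr_cmul (enc_norm (bd1q1_3.enc h1.l h2)) (pr_norm (pr_subr 127067 100000 (pr_scale 168 625 h1))))⟩
noncomputable def bd1q1_s : Sl2 bd1q1 := ⟨_, fun h1 h2 => (pr_norm (pr_case (pr_subr 4 5 h1) (pr_case (pr_subr 7 10 h1) (pr_add (pr_addc (pr_scale 233 25000 h1) (enc_rat _ 141009 1000000)) (pr_cmul (enc_norm (bd1q1_3.enc h1.l h2)) (pr_norm (pr_subr 253987 200000 (pr_scale 1071 4000 h1))))) (pr_add (pr_addc (pr_scale 919 100000 h1) (enc_rat _ 1411 10000)) (bd1q1_24_s.snd h1 h2))) (pr_case (pr_subr 7 8 h1) (pr_add (pr_addc (pr_scale 671 75000 h1) (enc_rat _ 105971 750000)) (bd1q1_24_s.snd h1 h2)) (pr_case (pr_subr 19 20 h1) (pr_add (pr_addc (pr_scale 167 18750 h1) (enc_rat _ 423989 3000000)) (pr_cmul (enc_norm (bd1q1_3.enc h1.l h2)) (pr_norm (pr_subr 23801 18750 (pr_scale 401 1500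 h1))))) (pr_add (pr_addc (pr_scale 457 50000 h1) (enc_rat _ 35277 250000)) (pr_cmul (enc_norm (bd1q1_3.enc h1.l h2)) (pr_norm (pr_subr 25351 20000 (pr_scale 1327 5000 h1)))))))))⟩
noncomputable def kp1q1_s : Sl2 kp1q1 := ⟨_, fun h1 h2 => (pr_norm (pr_mul (cv1m_s.snd h1) (bd1q1_s.snd h1 h2)))⟩
noncomputable def kn1q1_s : Sl2 kn1q1 := ⟨_, fun h1 h2 => (pr_norm (pr_add (pr_cmul (enc_norm (enc_add (enc_pnc _ 1) (enc_mul (mug3.enc h2) (gug.enc h2)))) (kf1q1_s.snd h1 h2)) (pr_cmul (mug3.enc h2) (kp1q1_s.snd h1 h2))))⟩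
noncomputable def bd1q2_s : Sl2 bd1q2 := ⟨_, fun h1 h2 => (pr_norm (pr_case (pr_subr 577 500 h1) (pr_case (pr_subr 53 50 h1) (pr_case (pr_subr 103 100 h1) (pr_add (pr_subr 46807 30000 (pr_scale 46807 30000 h1)) (pr_cmul (enc_norm (bd1q2_3.enc h1.l h2)) (pr_norm (pr_csub (enc_rat _ 12379 3000) (pr_scale 12379 3000 h1))))) (pr_add (pr_subr 2466937 1500000 (pr_scale 9853 6000 h1)) (pr_cmul (enc_norm (bd1q2_3.enc h1.l h2)) (pr_norm (pr_csub (enc_rat _ 116741 50000) (pr_scale 2387 1000 h1)))))) (pr_case (pr_subr 11 10 h1) (pr_add (pr_subr 225431 125000 (pr_scale 224 125 h1)) (pr_cmul (enc_norm (bd1q2_3.enc h1.l h2)) (pr_norm (pr_subr 26221 20000 (pr_scale 421 400 h1))))) (pr_add (pr_subr 85483 45000 (pr_scale 52859 28125 h1)) (pr_cmul (enc_norm (bd1q2_3.enc h1.l h2)) (pr_norm (pr_subr 4822489 1350000 (pr_scale 209797 67500 h1))))))) (pr_case (pr_subr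 29 25 h1) (pr_case (pr_subr 231 200 h1) (pr_add (pr_subr 10927 6250 (pr_scale 10927 6250 h1)) (pr_cmul (enc_norm (bd1q2_3.enc h1.l h2)) (pr_norm (pr_subr 59 625 (pr_scale 59 625 h1))))) (pr_add (pr_subr 4291567 2500000 (pr_scale 21511 12500 h1)) (pr_cmul (enc_norm (bd1q2_3.enc h1.l h2)) (pr_norm (pr_subr 23369 250000 (pr_scale 117 1250 h1)))))) (pr_case (pr_subr 5 4 h1) (pr_add (pr_subr 7582883 4500000 (pr_scale 9527 5625 h1)) (pr_cmul (enc_norm (bd1q2_3.enc h1.l h2)) (pr_norm (pr_subr 559 6000 (pr_scale 7 75 h1))))) (pr_case (pr_subr 27 20 h1) (pr_add (pr_subr 829687 500000 (pr_scale 10457 6250 h1)) (pr_cmul (enc_norm (bd1q2_3.enc h1.l h2)) (pr_norm (pr_subr 751 8000 (pr_scale 939 10000 h1))))) (pr_add (pr_subr 1642589 1000000 (pr_scale 249103 150000 h1)) (pr_cmul (enc_norm (bd1q2_3.enc h1.l h2)) (pr_norm (pr_subr 9383 100000 (pr_scale 176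 1875 h1))))))))))⟩
noncomputable def kp1q2_s : Sl2 kp1q2 := ⟨_, fun h1 h2 => (pr_norm (pr_mul (cv1p_s.snd h1) (bd1q2_s.snd h1 h2)))⟩
noncomputable def kn1q2_s : Sl2 kn1q2 := ⟨_, fun h1 h2 => (pr_norm (pr_add (pr_cmul (enc_norm (enc_add (enc_pnc _ 1) (enc_mul (mug3.enc h2) (gug.enc h2)))) (kf1q2_s.snd h1 h2)) (pr_cmul (mug3.enc h2) (kp1q2_s.snd h1 h2))))⟩
noncomputable def bd1q3_s : Sl2 bd1q3 := ⟨_, fun h1 h2 => (pr_norm (pr_add (pr_subr 1979 500000 (pr_scale 219 100000 h1)) (pr_cmul (enc_norm (enc_subr 1 4 h2)) (pr_norm (pr_addc (pr_scale 37 5000 h1) (enc_rat _ 29 6250))))))⟩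
noncomputable def kp1q3_s : Sl2 kp1q3 := ⟨_, fun h1 h2 => (pr_norm (pr_mul (cv1r_s.snd h1) (bd1q3_s.snd h1 h2)))⟩
noncomputable def kn1q3_s : Sl2 kn1q3 := ⟨_, fun h1 h2 => (pr_norm (pr_add (pr_cmul (enc_norm (enc_add (enc_pnc _ 1) (enc_mul (mug3.enc h2) (gug.enc h2)))) (kf1q3_s.snd h1 h2)) (pr_cmul (mug3.enc h2) (kp1q3_s.snd h1 h2))))⟩
noncomputable def bd2q0_s : Sl2 bd2q0 := ⟨_, fun h1 h2 => (pr_norm (pr_sub (pr_neg (pr_scale 47523 250000 h1)) (pr_cmul (enc_norm (enc_subr 1 4 h2)) (pr_nd (pr_scale 7509 5000 h1)))))⟩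
noncomputable def kp2q0_s : Sl2 kp2q0 := ⟨_, fun h1 h2 => (pr_norm (pr_mul (cv2m_s.snd h1) (bd2q0_s.snd h1 h2)))⟩
noncomputable def kn2q0_s : Sl2 kn2q0 := ⟨_, fun h1 h2 => (pr_norm (pr_add (pr_cmul (enc_norm (enc_add (enc_pnc _ 1) (enc_mul (mug3.enc h2) (gug.enc h2)))) (kf2q0_s.snd h1 h2)) (pr_cmul (mug3.enc h2) (kp2q0_s.snd h1 h2))))⟩
noncomputable def bd2q1_s : Sl2 bd2q1 := ⟨_, fun h1 h2 => (pr_norm (pr_case (pr_subr 4 5 h1) (pr_case (pr_subr 7 10 h1) (pr_add (pr_subr 407607 500000 (pr_scale 26057 25000 h1)) (pr_cmul (enc_norm (bd2q1_3.enc h1.l h2)) (pr_norm (pr_csub (enc_rat _ 412187 200000) (pr_scale 1811 4000 h1))))) (pr_add (pr_subr 205179 250000 (pr_scale 52507 50000 h1)) (pr_cmul (enc_norm (bd2q1_3.enc h1.l h2)) (pr_norm (pr_csub (enc_rat _ 1278 625) (pr_scale 4297 10000 h1)))))) (pr_case (pr_subr 7 8 h1) (pr_add (pr_subr 621437 750000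 (pr_scale 39749 37500 h1)) (pr_cmul (enc_norm (bd2q1_3.enc h1.l h2)) (pr_norm (pr_csub (enc_rat _ 76441 37500) (pr_scale 3163 7500 h1))))) (pr_case (pr_subr 19 20 h1) (pr_add (pr_subr 2512453 3000000 (pr_scale 80261 75000 h1)) (pr_cmul (enc_norm (bd2q1_3.enc h1.l h2)) (pr_norm (pr_csub (enc_rat _ 204461 100000) (pr_scale 268 625 h1))))) (pr_add (pr_subr 209189 250000 (pr_scale 53469 50000 h1)) (pr_cmul (enc_norm (bd2q1_3.enc h1.l h2)) (pr_norm (pr_csub (enc_rat _ 41333 20000) (pr_scale 113 250 h1)))))))))⟩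
noncomputable def kp2q1_s : Sl2 kp2q1 := ⟨_, fun h1 h2 => (pr_norm (pr_mul (cv2m_s.snd h1) (bd2q1_s.snd h1 h2)))⟩
noncomputable def kn2q1_s : Sl2 kn2q1 := ⟨_, fun h1 h2 => (pr_norm (pr_add (pr_cmul (enc_norm (enc_add (enc_pnc _ 1) (enc_mul (mug3.enc h2) (gug.enc h2)))) (kf2q1_s.snd h1 h2)) (pr_cmul (mug3.enc h2) (kp2q1_s.snd h1 h2))))⟩
noncomputable def bd2q2_s : Sl2 bd2q2 := ⟨_, fun h1 h2 => (pr_norm (pr_case (pr_subr 11 10 h1) (pr_case (pr_subr 103 100 h1) (pr_add (pr_subr 21449 30000 (pr_scale 21449 30000 h1)) (pr_cmul (enc_norm (bd2q2_3.enc h1.l h2)) (pr_norm (pr_csub (enc_rat _ 173 300) (pr_scale 173 300 h1))))) (pr_case (pr_subr 53 50 h1) (pr_add (pr_subr 358891 500000 (pr_scale 7177 10000 h1)) (pr_cmul (enc_norm (bd2q2_3.enc h1.l h2)) (pr_norm (pr_csub (enc_rat _ 30787 75000) (pr_scale 623 1500 h1))))) (pr_add (pr_subr 179631 250000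 (pr_scale 449 625 h1)) (pr_cmul (enc_norm (bd2q2_3.enc h1.l h2)) (pr_norm (pr_csub (enc_rat _ 3337 25000) (pr_scale 77 500 h1))))))) (pr_case (pr_subr 5 4 h1) (pr_case (pr_subr 29 25 h1) (pr_add (pr_subr 702299 1000000 (pr_scale 14073 20000 h1)) (pr_cmul (enc_norm (bd2q2_3.enc h1.l h2)) (pr_norm (pr_subr 4253 25000 (pr_scale 61 500 h1))))) (pr_add (pr_subr 130913 200000 (pr_scale 53 80 h1)) (pr_cmul (enc_norm (bd2q2_3.enc h1.l h2)) (pr_norm (pr_subr 8464 28125 (pr_scale 2113 9000 h1)))))) (pr_case (pr_subr 27 20 h1) (pr_add (pr_subr 61389 100000 (pr_scale 15749 25000 h1)) (pr_cmul (enc_norm (bd2q2_3.enc h1.l h2)) (pr_norm (pr_subr 65269 200000 (pr_scale 2551 10000 h1))))) (pr_add (pr_subr 597987 1000000 (pr_scale 30909 50000 h1)) (pr_cmul (enc_norm (bd2q2_3.enc h1.l h2)) (pr_norm (pr_subr 1681 5000 (pr_scale 164 625 h1)))))))))⟩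
noncomputable def kp2q2_s : Sl2 kp2q2 := ⟨_, fun h1 h2 => (pr_norm (pr_mul (cv2p_s.snd h1) (bd2q2_s.snd h1 h2)))⟩
noncomputable def kn2q2_s : Sl2 kn2q2 := ⟨_, fun h1 h2 => (pr_norm (pr_add (pr_cmul (enc_norm (enc_add (enc_pnc _ 1) (enc_mul (mug3.enc h2) (gug.enc h2)))) (kf2q2_s.snd h1 h2)) (pr_cmul (mug3.enc h2) (kp2q2_s.snd h1 h2))))⟩
noncomputable def bd2q3_s : Sl2 bd2q3 := ⟨_, fun h1 h2 => (pr_norm (pr_add (pr_addc (pr_scale 5933 500000 h1) (enc_rat _ 8 3125)) (pr_cmul (enc_norm (enc_subr 1 4 h2)) (pr_norm (pr_addc (pr_scale 2967 50000 h1) (enc_rat _ 175519 100000))))))⟩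
noncomputable def kp2q3_s : Sl2 kp2q3 := ⟨_, fun h1 h2 => (pr_norm (pr_mul (cv2r_s.snd h1) (bd2q3_s.snd h1 h2)))⟩
noncomputable def kn2q3_s : Sl2 kn2q3 := ⟨_, fun h1 h2 => (pr_norm (pr_add (pr_cmul (enc_norm (enc_add (enc_pnc _ 1) (enc_mul (mug3.enc h2) (gug.enc h2)))) (kf2q3_s.snd h1 h2)) (pr_cmul (mug3.enc h2) (kp2q3_s.snd h1 h2))))⟩
noncomputable def bd3q0_s : Sl2 bd3q0 := ⟨_, fun h1 h2 => (pr_norm (pr_add (pr_csub (enc_rat _ 34919 500000) (pr_scale 10891 50000 h1)) (pr_cmul (enc_norm (enc_subr 1 4 h2)) (pr_norm (pr_csub (enc_rat _ 21293 100000) (pr_scale 173967 50000 h1))))))⟩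
noncomputable def kp3q0_s : Sl2 kp3q0 := ⟨_, fun h1 h2 => (pr_norm (pr_mul (cv3m_s.snd h1) (bd3q0_s.snd h1 h2)))⟩
noncomputable def kn3q0_s : Sl2 kn3q0 := ⟨_, fun h1 h2 => (pr_norm (pr_add (pr_cmul (enc_norm (enc_add (enc_pnc _ 1) (enc_mul (mug3.enc h2) (gug.enc h2)))) (kf3q0_s.snd h1 h2)) (pr_cmul (mug3.enc h2) (kp3q0_s.snd h1 h2))))⟩
noncomputable def kp3q1_41_s : Sl2 kp3q1_41 := ⟨_, fun h1 h2 => (pr_csub (enc_pnc _ 1) h1)⟩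
noncomputable def kp3q1_42_s : Sl2 kp3q1_42 := ⟨_, fun h1 h2 => (gsg_s.snd (pr_norm (kp3q1_41_s.snd h1 h2)))⟩
noncomputable def kp3q1_46_s : Sl2 kp3q1_46 := ⟨_, fun h1 h2 => (esg_s.snd (pr_norm (kp3q1_41_s.snd h1 h2)))⟩
noncomputable def kp3q1_54_s : Sl2 kp3q1_54 := ⟨_, fun h1 h2 => (pr_mul (pr_nd (pr_scale 3 4 (pr_sq (pr_norm (kp3q1_41_s.snd h1 h2))))) (pr_nd (pr_inv (kp3q1_42_s.snd h1 h2))))⟩
noncomputable def kp3q1_79_s : Sl2 kp3q1_79 := ⟨_, fun h1 h2 => (pr_mul (cv2m_s.snd h1) (bd2q1_s.snd h1 h2))⟩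
noncomputable def kp3q1_s : Sl2 kp3q1 := ⟨_, fun h1 h2 => (pr_norm (pr_case (pr_subr 5 8 h1) (pr_mul (cv3m_s.snd h1) (pr_norm (pr_add (pr_addc (pr_scale 49687979 156250000 h1) (enc_rat _ 318937167 625000000)) (pr_cmul (enc_norm (kp3q1_4.enc h1.l h2)) (pr_norm (pr_subr 1056509809 250000000 (pr_scale 589367309 125000000 h1))))))) (pr_case (pr_subr 7 8 h1) (pr_add (kp3q1_79_s.snd h1 h2) (pr_mul (pr_norm (pr_mul (pr_norm (pr_sub (pr_sub (pr_add (kug_s.snd (pr_norm (kp3q1_41_s.snd h1 h2))) (pr_mul (pr_norm (pr_sub (pr_mul (pr_norm (pr_mul (pr_norm (kp3q1_54_s.snd h1 h2)) (pr_norm (pr_subn 3 (pr_nat 4 (kp3q1_42_s.snd h1 h2)))))) (kp3q1_46_s.snd h1 h2)) (pr_mul (qsg_s.snd (pr_norm (kp3q1_41_s.snd h1 h2))) (pr_norm (pr_sub (pr_half (kp3q1_41_s.snd h1 h2)) (kp3q1_54_s.snd h1 h2)))))) (pr_nd (pr_inv (pr_mul (pr_nd (pr_nat 2 (kp3q1_46_s.snd h1 h2))) (kp3q1_46_s.snd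 h1 h2)))))) (pr_mul (pr_norm (pr_mul (pr_norm (kp3q1_41_s.snd h1 h2)) (kcg_s.snd (pr_norm (pr_sub (pr_scale 3 4 (kp3q1_41_s.snd h1 h2)) (pr_half (kp3q1_42_s.snd h1 h2)))) h2))) (pr_norm (pr_add (pr_cadd (enc_pnc _ 1) (gug_s.snd (pr_norm (kp3q1_41_s.snd h1 h2)))) (pr_nat 2 (kp3q1_42_s.snd h1 h2)))))) (kp3q1_79_s.snd h1 h2))) (pr_norm (pr_sub (cv3m_s.snd h1) (cv2m_s.snd h1))))) (pr_nd (pr_inv (pr_sub (pr_addc (swg_s.snd h1) (enc_rat _ 1 2)) (cv2m_s.snd h1)))))) (pr_mul (cv3m_s.snd h1) (pr_norm (pr_case (pr_subr 19 20 h1) (pr_add (pr_csub (enc_rat _ 1648170523 5000000000) (pr_scale 80915817 250000000 h1)) (pr_cmul (enc_norm (kp3q1_4.enc h1.l h2)) (pr_norm (pr_subr 373229737 187500000 (pr_scale 18698473 9375000 h1))))) (pr_add (pr_csub (enc_rat _ 11077 25000) (pr_scale 11077 25000 h1)) (pr_cmul (enc_norm (kp3q1_4.enc h1.l h2)) (pr_norm (pr_subr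 4789 2500 (pr_scale 4789 2500 h1)))))))))))⟩
noncomputable def kn3q1_s : Sl2 kn3q1 := ⟨_, fun h1 h2 => (pr_norm (pr_add (pr_cmul (enc_norm (enc_add (enc_pnc _ 1) (enc_mul (mug3.enc h2) (gug.enc h2)))) (kf3q1_s.snd h1 h2)) (pr_cmul (mug3.enc h2) (kp3q1_s.snd h1 h2))))⟩
noncomputable def kp3q2_68_s : Sl2 kp3q2_68 := ⟨_, fun h1 h2 => (pr_subn 1 h1)⟩
noncomputable def kp3q2_69_s : Sl2 kp3q2_69 := ⟨_, fun h1 h2 => (gsg_s.snd (pr_norm (kp3q2_68_s.snd h1 h2)))⟩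
noncomputable def kp3q2_73_s : Sl2 kp3q2_73 := ⟨_, fun h1 h2 => (esg_s.snd (pr_norm (kp3q2_68_s.snd h1 h2)))⟩
noncomputable def kp3q2_81_s : Sl2 kp3q2_81 := ⟨_, fun h1 h2 => (pr_mul (pr_nd (pr_scale 3 4 (pr_sq (pr_norm (kp3q2_68_s.snd h1 h2))))) (pr_nd (pr_inv (kp3q2_69_s.snd h1 h2))))⟩
noncomputable def kp3q2_104_s : Sl2 kp3q2_104 := ⟨_, fun h1 h2 => (pr_mul (cv2p_s.snd h1) (bd2q2_s.snd h1 h2))⟩
noncomputable def kp3q2_s : Sl2 kp3q2 := ⟨_, fun h1 h2 => (pr_norm (pr_case (pr_subr 9 8 h1) (pr_mul (cv3p_s.snd h1) (pr_norm (pr_case (pr_subr 53 50 h1) (pr_case (pr_subr 103 100 h1) (pr_add (pr_subr 1584373 3000000 (pr_scale 2357 6000 h1)) (pr_cmul (enc_norm (kp3q2_4.enc h1.l h2)) (pr_norm (pr_csub (enc_rat _ 272087 50000) (pr_scale 949 200 h1))))) (pr_add (pr_subr 527781 1000000 (pr_scale 157 400 h1)) (pr_cmul (enc_norm (kp3q2_4.enc h1.l h2)) (pr_norm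 (pr_csub (enc_rat _ 272499 50000) (pr_scale 4753 1000 h1)))))) (pr_case (pr_subr 11 10 h1) (pr_add (pr_subr 210911 400000 (pr_scale 15681 40000 h1)) (pr_cmul (enc_norm (kp3q2_4.enc h1.l h2)) (pr_norm (pr_csub (enc_rat _ 68191 12500) (pr_scale 2379 500 h1))))) (pr_add (pr_subr 1320241917 2500000000 (pr_scale 98192447 250000000 h1)) (pr_cmul (enc_norm (kp3q2_4.enc h1.l h2)) (pr_norm (pr_csub (enc_rat _ 272935611 50000000) (pr_scale 23805601 5000000 h1))))))))) (pr_case (pr_subr 11 8 h1) (pr_add (kp3q2_104_s.snd h1 h2) (pr_mul (pr_norm (pr_mul (pr_norm (pr_sub (pr_add (pr_sub (kug_s.snd (pr_norm (kp3q2_68_s.snd h1 h2))) (pr_mul (pr_norm (pr_sub (pr_mul (pr_norm (pr_mul (pr_norm (kp3q2_81_s.snd h1 h2)) (pr_norm (pr_subn 3 (pr_nat 4 (kp3q2_69_s.snd h1 h2)))))) (kp3q2_73_s.snd h1 h2)) (pr_mul (qsg_s.snd (pr_norm (kp3q2_68_s.snd h1 h2))) (pr_norm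 (pr_sub (pr_half (kp3q2_68_s.snd h1 h2)) (kp3q2_81_s.snd h1 h2)))))) (pr_nd (pr_inv (pr_mul (pr_nd (pr_nat 2 (kp3q2_73_s.snd h1 h2))) (kp3q2_73_s.snd h1 h2)))))) (pr_mul (pr_norm (pr_mul (pr_norm (kp3q2_68_s.snd h1 h2)) (kcg_s.snd (pr_norm (pr_sub (pr_scale 3 4 (kp3q2_68_s.snd h1 h2)) (pr_half (kp3q2_69_s.snd h1 h2)))) h2))) (pr_norm (pr_sub (pr_csub (enc_pnc _ 1) (gug_s.snd (pr_norm (kp3q2_68_s.snd h1 h2)))) (pr_nat 2 (kp3q2_69_s.snd h1 h2)))))) (kp3q2_104_s.snd h1 h2))) (pr_norm (pr_sub (cv3p_s.snd h1) (cv2p_s.snd h1))))) (pr_nd (pr_inv (pr_sub (pr_subr 1 2 (swg_s.snd h1)) (cv2p_s.snd h1)))))) (pr_mul (cv3p_s.snd h1) (pr_norm (pr_add (pr_subr 971120223 2500000000 (pr_scale 1374709241 1250000000 h1)) (pr_cmul (enc_norm (kp3q2_4.enc h1.l h2)) (pr_norm (pr_subr 118702937 250000000 (pr_neg (pr_scale 6676521 125000000 h1)))))))))))⟩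
noncomputable def kn3q2_s : Sl2 kn3q2 := ⟨_, fun h1 h2 => (pr_norm (pr_add (pr_cmul (enc_norm (enc_add (enc_pnc _ 1) (enc_mul (mug3.enc h2) (gug.enc h2)))) (kf3q2_s.snd h1 h2)) (pr_cmul (mug3.enc h2) (kp3q2_s.snd h1 h2))))⟩
noncomputable def bd3q3_s : Sl2 bd3q3 := ⟨_, fun h1 h2 => (pr_norm (pr_add (pr_subr 8789 62500 (pr_scale 8789 125000 h1)) (pr_cmul (enc_norm (enc_subr 1 4 h2)) (pr_norm (pr_subr 1733 3125 (pr_scale 1733 6250 h1))))))⟩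
noncomputable def kpc33_s : Sl2 kpc33 := ⟨_, fun h1 h2 => (pr_norm (pr_mul (pr_norm (pr_add (pr_scale 4 5 (pr_subr 1 2 (swg_s.snd (pr_nd (ycg_s.snd h1))))) (pr_scale 1 5 h1))) (bd3q3_s.snd (pr_nd (ycg_s.snd h1)) h2)))⟩
noncomputable def knc33_s : Sl2 knc33 := ⟨_, fun h1 h2 => (pr_norm (pr_add (pr_cmul (enc_norm (enc_add (enc_pnc _ 1) (enc_mul (mug3.enc h2) (gug.enc h2)))) (kfc33_s.snd h1 h2)) (pr_cmul (mug3.enc h2) (kpc33_s.snd h1 h2))))⟩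
noncomputable def bd4q0_s : Sl2 bd4q0 := ⟨_, fun h1 h2 => (pr_norm (pr_add (pr_csub (enc_rat _ 11821 125000) (pr_scale 39151 250000 h1)) (pr_cmul (enc_norm (enc_subr 1 4 h2)) (pr_norm (pr_csub (enc_rat _ 150343 100000) (pr_scale 39987 50000 h1))))))⟩
noncomputable def kp4q0_s : Sl2 kp4q0 := ⟨_, fun h1 h2 => (pr_norm (pr_mul (cv4m_s.snd h1) (bd4q0_s.snd h1 h2)))⟩
noncomputable def kn4q0_s : Sl2 kn4q0 := ⟨_, fun h1 h2 => (pr_norm (pr_add (pr_cmul (enc_norm (enc_add (enc_pnc _ 1) (enc_mul (mug3.enc h2) (gug.enc h2)))) (kf4q0_s.snd h1 h2)) (pr_cmul (mug3.enc h2) (kp4q0_s.snd h1 h2))))⟩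
noncomputable def bd4q1_s : Sl2 bd4q1 := ⟨_, fun h1 h2 => (pr_norm (pr_case (pr_subr 4 5 h1) (pr_case (pr_subr 7 10 h1) (pr_add (pr_csub (enc_rat _ 413987 1000000) (pr_scale 4977 12500 h1)) (pr_cmul (enc_norm (bd4q1_3.enc h1.l h2)) (pr_norm (pr_csub (enc_rat _ 384463 100000) (pr_scale 38163 10000 h1))))) (pr_add (pr_csub (enc_rat _ 42399 100000) (pr_scale 8249 20000 h1)) (pr_cmul (enc_norm (bd4q1_3.enc h1.l h2)) (pr_norm (pr_csub (enc_rat _ 38993 10000) (pr_scale 2434 625 h1)))))) (pr_case (pr_subr 7 8 h1) (pr_add (pr_csub (enc_rat _ 133649 300000) (pr_scale 659 1500 h1)) (pr_cmul (enc_norm (bd4q1_3.enc h1.l h2)) (pr_norm (pr_csub (enc_rat _ 197253 50000) (pr_scale 9879 2500 h1))))) (pr_case (pr_subr 19 20 h1) (pr_add (pr_csub (enc_rat _ 35773 75000) (pr_scale 4456 9375 h1)) (pr_cmul (enc_norm (bd4q1_3.enc h1.l h2)) (pr_norm (pr_csub (enc_rat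 _ 396081 100000) (pr_scale 2481 625 h1))))) (pr_add (pr_csub (enc_rat _ 3179 6250) (pr_scale 3179 6250 h1)) (pr_cmul (enc_norm (bd4q1_3.enc h1.l h2)) (pr_norm (pr_csub (enc_rat _ 18969 5000) (pr_scale 18969 5000 h1)))))))))⟩
noncomputable def kp4q1_s : Sl2 kp4q1 := ⟨_, fun h1 h2 => (pr_norm (pr_mul (cv4m_s.snd h1) (bd4q1_s.snd h1 h2)))⟩
noncomputable def kn4q1_s : Sl2 kn4q1 := ⟨_, fun h1 h2 => (pr_norm (pr_add (pr_cmul (enc_norm (enc_add (enc_pnc _ 1) (enc_mul (mug3.enc h2) (gug.enc h2)))) (kf4q1_s.snd h1 h2)) (pr_cmul (mug3.enc h2) (kp4q1_s.snd h1 h2))))⟩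
noncomputable def bd4q2_s : Sl2 bd4q2 := ⟨_, fun h1 h2 => (pr_norm (pr_case (pr_subr 11 10 h1) (pr_case (pr_subr 103 100 h1) (pr_add (pr_addc (pr_scale 3 2500 h1) (enc_rat _ 535219 1000000)) (pr_cmul (enc_norm (bd4q2_3.enc h1.l h2)) (pr_norm (pr_csub (enc_rat _ 8162 3125) (pr_scale 157 200 h1))))) (pr_case (pr_subr 53 50 h1) (pr_add (pr_addc (pr_scale 1 1250 h1) (enc_rat _ 535631 1000000)) (pr_cmul (enc_norm (bd4q2_3.enc h1.l h2)) (pr_norm (pr_csub (enc_rat _ 65193 25000) (pr_scale 781 1000 h1))))) (pr_add (pr_csub (enc_rat _ 215111 400000) (pr_scale 49 40000 h1)) (pr_cmul (enc_norm (bd4q2_3.enc h1.l h2)) (pr_norm (pr_csub (enc_rat _ 519159 200000) (pr_scale 3079 4000 h1))))))) (pr_case (pr_subr 5 4 h1) (pr_case (pr_subr 29 25 h1) (pr_add (pr_csub (enc_rat _ 108111 200000) (pr_scale 3 800 h1)) (pr_cmul (enc_norm (bd4q2_3.enc h1.l h2)) (pr_norm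 (pr_csub (enc_rat _ 257077 100000) (pr_scale 747 1000 h1))))) (pr_add (pr_csub (enc_rat _ 4862849 9000000) (pr_scale 319 90000 h1)) (pr_cmul (enc_norm (bd4q2_3.enc h1.l h2)) (pr_norm (pr_csub (enc_rat _ 2275877 900000) (pr_scale 6397 9000 h1)))))) (pr_case (pr_subr 27 20 h1) (pr_add (pr_csub (enc_rat _ 537961 1000000) (pr_scale 83 50000 h1)) (pr_cmul (enc_norm (bd4q2_3.enc h1.l h2)) (pr_norm (pr_csub (enc_rat _ 248403 100000) (pr_scale 27 40 h1))))) (pr_add (pr_csub (enc_rat _ 53653 100000) (pr_scale 3 5000 h1)) (pr_cmul (enc_norm (bd4q2_3.enc h1.l h2)) (pr_norm (pr_csub (enc_rat _ 122811 50000) (pr_scale 409 625 h1)))))))))⟩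
noncomputable def kp4q2_s : Sl2 kp4q2 := ⟨_, fun h1 h2 => (pr_norm (pr_mul (cv4p_s.snd h1) (bd4q2_s.snd h1 h2)))⟩
noncomputable def kn4q2_s : Sl2 kn4q2 := ⟨_, fun h1 h2 => (pr_norm (pr_add (pr_cmul (enc_norm (enc_add (enc_pnc _ 1) (enc_mul (mug3.enc h2) (gug.enc h2)))) (kf4q2_s.snd h1 h2)) (pr_cmul (mug3.enc h2) (kp4q2_s.snd h1 h2))))⟩
noncomputable def bd4q3_s : Sl2 bd4q3 := ⟨_, fun h1 h2 => (pr_norm (pr_add (pr_subr 64333 125000 (pr_scale 64333 250000 h1)) (pr_cmul (enc_norm (enc_subr 1 4 h2)) (pr_norm (pr_subr 21549 25000 (pr_scale 21549 50000 h1))))))⟩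
noncomputable def kpc43_s : Sl2 kpc43 := ⟨_, fun h1 h2 => (pr_norm (pr_mul (pr_norm (pr_add (pr_scale 2 5 (pr_subr 1 2 (swg_s.snd (pr_nd (ycg_s.snd h1))))) (pr_scale 3 5 h1))) (bd4q3_s.snd (pr_nd (ycg_s.snd h1)) h2)))⟩
noncomputable def knc43_s : Sl2 knc43 := ⟨_, fun h1 h2 => (pr_norm (pr_add (pr_cmul (enc_norm (enc_add (enc_pnc _ 1) (enc_mul (mug3.enc h2) (gug.enc h2)))) (kfc43_s.snd h1 h2)) (pr_cmul (mug3.enc h2) (kpc43_s.snd h1 h2))))⟩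
noncomputable def kp5q0_s : Sl2 kp5q0 := ⟨_, fun h1 h2 => (pr_norm (pr_mul h1 (pr_norm (pr_add (pr_subr 168883 1000000 (pr_neg (pr_scale 149541 200000 h1))) (pr_cmul (enc_norm (enc_subr 1 4 h2)) (pr_norm (pr_csub (enc_rat _ 210479 50000) (pr_scale 137623 25000 h1))))))))⟩
noncomputable def kn5q0_s : Sl2 kn5q0 := ⟨_, fun h1 h2 => (pr_norm (pr_add (pr_cmul (enc_norm (enc_add (enc_pnc _ 1) (enc_mul (mug3.enc h2) (gug.enc h2)))) (kf5q0_s.snd h1 h2)) (pr_cmul (mug3.enc h2) (kp5q0_s.snd h1 h2))))⟩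
noncomputable def kp5q1_s : Sl2 kp5q1 := ⟨_, fun h1 h2 => (pr_norm (pr_mul (pr_norm (pr_subn 1 h1)) (pr_norm (pr_add (pr_subr 168883 1000000 (pr_neg (pr_scale 149541 200000 h1))) (pr_cmul (enc_norm (enc_subr 1 4 h2)) (pr_norm (pr_csub (enc_rat _ 210479 50000) (pr_scale 137623 25000 h1))))))))⟩
noncomputable def kn5q1_s : Sl2 kn5q1 := ⟨_, fun h1 h2 => (pr_norm (pr_add (pr_cmul (enc_norm (enc_add (enc_pnc _ 1) (enc_mul (mug3.enc h2) (gug.enc h2)))) (kf5q1_s.snd h1 h2)) (pr_cmul (mug3.enc h2) (kp5q1_s.snd h1 h2))))⟩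
noncomputable def kp5q2_9_s : Sl2 kp5q2_9 := ⟨_, fun h1 h2 => (pr_sub (pr_half (c3g_s.snd h1)) (pr_scale 1 4 h1))⟩
noncomputable def kp5q2_s : Sl2 kp5q2 := ⟨_, fun h1 h2 => (pr_norm (pr_mul (pr_norm (pr_subn 1 h1)) (pr_norm (pr_add (pr_subr 632303 2000000 (pr_scale 2465479 1000000 (kp5q2_9_s.snd h1 h2))) (pr_cmul (enc_norm (enc_subr 1 4 h2)) (pr_norm (pr_subr 30989 40000 (pr_scale 414013 100000 (kp5q2_9_s.snd h1 h2)))))))))⟩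
noncomputable def kn5q2_s : Sl2 kn5q2 := ⟨_, fun h1 h2 => (pr_norm (pr_add (pr_cmul (enc_norm (enc_add (enc_pnc _ 1) (enc_mul (mug3.enc h2) (gug.enc h2)))) (kf5q2_s.snd h1 h2)) (pr_cmul (mug3.enc h2) (kp5q2_s.snd h1 h2))))⟩
noncomputable def kpc53_9_s : Sl2 kpc53_9 := ⟨_, fun h1 h2 => (pr_sub (pr_half h1) (pr_scale 1 4 (ycg_s.snd h1)))⟩
noncomputable def kpc53_s : Sl2 kpc53 := ⟨_, fun h1 h2 => (pr_norm (pr_mul (pr_norm (pr_subn 2 (ycg_s.snd h1))) (pr_norm (pr_add (pr_subr 632303 2000000 (pr_scale 2465479 1000000 (kpc53_9_s.snd h1 h2))) (pr_cmul (enc_norm (enc_subr 1 4 h2)) (pr_norm (pr_subr 30989 40000 (pr_scale 414013 100000 (kpc53_9_s.snd h1 h2)))))))))⟩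
noncomputable def knc53_s : Sl2 knc53 := ⟨_, fun h1 h2 => (pr_norm (pr_add (pr_cmul (enc_norm (enc_add (enc_pnc _ 1) (enc_mul (mug3.enc h2) (gug.enc h2)))) (kfc53_s.snd h1 h2)) (pr_cmul (mug3.enc h2) (kpc53_s.snd h1 h2))))⟩
noncomputable def gN0q0 : Gn := ⟨ndN0q0, c1g_s, kn0q0_s, l0q0_s, false⟩
noncomputable def gN0q1 : Gn := ⟨ndN0q1, c1g_s, kn0q1_s, l0q1_s, false⟩
noncomputable def gN0q2 : Gn := ⟨ndN0q2, idf_s, knc02_s, lc02_s, true⟩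
noncomputable def gN1q0 : Gn := ⟨ndN1q0, cv1m_s, kn1q0_s, l1q0_s, false⟩
noncomputable def gN1q1 : Gn := ⟨ndN1q1, cv1m_s, kn1q1_s, l1q1_s, false⟩
noncomputable def gN1q2 : Gn := ⟨ndN1q2, cv1p_s, kn1q2_s, l1q2_s, false⟩
noncomputable def gN1q3 : Gn := ⟨ndN1q3, cv1r_s, kn1q3_s, l1q3_s, false⟩
noncomputable def gN2q0 : Gn := ⟨ndN2q0, cv2m_s, kn2q0_s, l2q0_s, false⟩
noncomputable def gN2q1 : Gn := ⟨ndN2q1, cv2m_s, kn2q1_s, l2q1_s, false⟩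
noncomputable def gN2q2 : Gn := ⟨ndN2q2, cv2p_s, kn2q2_s, l2q2_s, false⟩
noncomputable def gN2q3 : Gn := ⟨ndN2q3, cv2r_s, kn2q3_s, l2q3_s, false⟩
noncomputable def gN3q0 : Gn := ⟨ndN3q0, cv3m_s, kn3q0_s, l3q0_s, false⟩
noncomputable def gN3q1 : Gn := ⟨ndN3q1, cv3m_s, kn3q1_s, l3q1_s, false⟩
noncomputable def gN3q2 : Gn := ⟨ndN3q2, cv3p_s, kn3q2_s, l3q2_s, false⟩
noncomputable def gN3q3 : Gn := ⟨ndN3q3, xc33_s, knc33_s, lc33_s, false⟩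
noncomputable def gN4q0 : Gn := ⟨ndN4q0, cv4m_s, kn4q0_s, l4q0_s, false⟩
noncomputable def gN4q1 : Gn := ⟨ndN4q1, cv4m_s, kn4q1_s, l4q1_s, false⟩
noncomputable def gN4q2 : Gn := ⟨ndN4q2, cv4p_s, kn4q2_s, l4q2_s, false⟩
noncomputable def gN4q3 : Gn := ⟨ndN4q3, xc43_s, knc43_s, lc43_s, false⟩
noncomputable def gN5q0 : Gn := ⟨ndN5q0, c3g_s, kn5q0_s, l5q0_s, false⟩
noncomputable def gN5q1 : Gn := ⟨ndN5q1, c3g_s, kn5q1_s, l5q1_s, false⟩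
noncomputable def gN5q2 : Gn := ⟨ndN5q2, c3g_s, kn5q2_s, l5q2_s, false⟩
noncomputable def gN5q3 : Gn := ⟨ndN5q3, idf_s, knc53_s, lc53_s, false⟩
noncomputable def gN0q3 : Gn := gz
noncomputable def gN (j : Fin 6) (q : ℕ) : Gn :=
  match j, q with
  | 0, 0 => gN0q0
  | 0, 1 => gN0q1
  | 0, 2 => gN0q2
  | 0, 3 => gN0q3
  | 1, 0 => gN1q0
  | 1, 1 => gN1q1
  | 1, 2 => gN1q2
  | 1, 3 => gN1q3
  | 2, 0 => gN2q0
  | 2, 1 => gN2q1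
  | 2, 2 => gN2q2
  | 2, 3 => gN2q3
  | 3, 0 => gN3q0
  | 3, 1 => gN3q1
  | 3, 2 => gN3q2
  | 3, 3 => gN3q3
  | 4, 0 => gN4q0
  | 4, 1 => gN4q1
  | 4, 2 => gN4q2
  | 4, 3 => gN4q3
  | 5, 0 => gN5q0
  | 5, 1 => gN5q1
  | 5, 2 => gN5q2
  | 5, 3 => gN5q3
  | _, _ => gN0q0

noncomputable def c0F : Fn1 := ⟨fun _ => pone, fun _ => 1, fun _ => enc_one _⟩
noncomputable def c0N : Fn1 := c0n

end Pool.Agent.Strip051.G.I3_16_5_16.Tab
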