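import Pool.Agent.Strip051.PB.MolN
import Pool.Agent.Strip051.G.I3_16_5_16.Tab

/-! # The tight charts of a table: data (generated) -/

set_option linter.all false

namespace Pool.Agent.Strip051.G.I3_16_5_16.Tab.Mo

open Pool.Agent.Strip051.PB Pool.Agent.Strip051.PB.Mol
open Pool.Agent.Strip051.G.I3_16_5_16.Tab

noncomputable def dq : Fn3 :=
  dqK2 (dqK2 (dqK2 (dqQ (lnF true 611016068457 187460000000 true 60794613707 9373000000 1 4) (lnF true 4472847 1000000 true 596397 50000 1 4)) (lnF true 148399 112476000000 true 452111 23432500000 1 4) (lnF false 2625727 1000000 true 887033 100000 1 4) true 7 20) (lnF false 671 60000000 true 1303 10000000 1 4) (lnF true 1358093 1000000 false 7818 625 1 4) true 29 100) (lnF true 88402739 7582900000000 false 128196671 758290000000 1 4) (lnF false 397091 500000 false 3170661 100000 1 4) true 6 25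

noncomputable def mL : Fn2 :=
  exQ (exC (lnF false 441793 8000000 false 455081 1600000 1 4)) (lnF false 239039 500000 false 6999 100000 1 4) false

noncomputable def mR : Fn2 :=
  exQ (exC (lnF true 12643 16000000 true 311231 1600000 1 4)) (lnF true 694429 1000000 true 164417 100000 1 4) true

noncomputable def kp : Fn2 :=
  plA (lnF false 229147 250000 false 64767 50000 1 4) (lnF false 185439 100000 false 12859 4000 1 4) false 1 2

noncomputable def kb : Fn2 :=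
  plA (lnF true 229147 250000 true 64767 50000 1 4) (lnF true 4818182092971 1705000000000 true 2434283200037 1705000000000 1 4) false 1 2

noncomputable def rK1 : Fn2 :=
  exC (lnF true 107 15000 true 863 3000 1 4)

noncomputable def rX1 : Fn2 :=
  exC (lnF false 4517 30000 false 79 200 1 4)

noncomputable def rD1 : Fn2 :=
  exC (lnF false 46807 30000 true 12379 3000 1 4)

noncomputable def sk1 : MolS :=
  stK 1 1 2 rK1 rX1 rD1

noncomputable def rK2 : Fn2 :=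
  exC (lnF true 4487 15000 true 77 375 1 4)

noncomputable def rX2 : Fn2 :=
  exC (lnF false 863 10000 false 221 750 1 4)

noncomputable def rD2 : Fn2 :=
  exC (lnF false 21449 30000 true 173 300 1 4)

noncomputable def sk2 : MolS :=
  stK 1 9 10 rK2 rX2 rD2

noncomputable def sp : MolS :=
  stP kcg mL mR kp

noncomputable def sm : MolS :=
  stM kcg mR kb

noncomputable def sK_Ap : Fn3 :=
  sl0 (slF (w3W false) cv2p (w3K false 1 kcg) kf2q2)

noncomputable def sX_Ap : Fn3 :=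
  sl0 (slF (w3W false) cv2p (w3Q false kcg) l2q2)

noncomputable def sD_Ap : Fn3 :=
  sl0 (slF (w3W false) cv2p (w3D false 1 kcg) kp2q2)

noncomputable def T_Ap : MolT :=
  ⟨kcg, dq, sp, 2, sK_Ap, sX_Ap, sD_Ap, 0, 1, 0, 1⟩

noncomputable def sk_Ap : List Fn3 := [skP true 67108864, skM true 67108864]

noncomputable def cx_Ap : List Fn3 :=
  [f3A sp.xs (tCC (w3W false) cv2p),
    f3A sp.xs (tCC cv3p (w3W false)),
    f3A sp.xs (tCX cv3p)]

noncomputable def c0_Ap : Cht := k0Ap (T_Ap.a true) sk_Ap cx_Ap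

noncomputable def c1_Ap : Cht := k1Ap (T_Ap.a true) sk_Ap cx_Ap

noncomputable def sK_Apk1 : Fn3 :=
  sl0 (slF (w3W false) cv2p (w3K false 1 kcg) kf2q2)

noncomputable def sX_Apk1 : Fn3 :=
  sl0 (slF (w3W false) cv2p (w3Q false kcg) l2q2)

noncomputable def sD_Apk1 : Fn3 :=
  sl0 (slF (w3W false) cv2p (w3D false 1 kcg) kp2q2)

noncomputable def T_Apk1 : MolT :=
  ⟨kcg, dq, sk1, 2, sK_Apk1, sX_Apk1, sD_Apk1, 0, 1, 0, 1⟩

noncomputable def sk_Apk1 : List Fn3 := [skP true 67108864, skM true 67108864]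

noncomputable def cx_Apk1 : List Fn3 :=
  [f3A sk1.xs (tCC (w3W false) cv2p),
    f3A sk1.xs (tCC cv3p (w3W false)),
    f3A sk1.xs (tCX cv3p)]

noncomputable def c0_Apk1 : Cht := k0Ap (T_Apk1.a true) sk_Apk1 cx_Apk1

noncomputable def c1_Apk1 : Cht := k1Ap (T_Apk1.a true) sk_Apk1 cx_Apk1

noncomputable def sK_Apk2 : Fn3 :=
  sl0 (slF (w3W false) cv2p (w3K false 1 kcg) kf2q2)

noncomputable def sX_Apk2 : Fn3 :=
  sl0 (slF (w3W false) cv2p (w3Q false kcg) l2q2)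

noncomputable def sD_Apk2 : Fn3 :=
  sl0 (slF (w3W false) cv2p (w3D false 1 kcg) kp2q2)

noncomputable def T_Apk2 : MolT :=
  ⟨kcg, dq, sk2, 2, sK_Apk2, sX_Apk2, sD_Apk2, 0, 1, 0, 1⟩

noncomputable def sk_Apk2 : List Fn3 := [skP true 67108864, skM true 67108864]

noncomputable def cx_Apk2 : List Fn3 :=
  [f3A sk2.xs (tCC (w3W false) cv2p),
    f3A sk2.xs (tCC cv3p (w3W false)),
    f3A sk2.xs (tCX cv3p)]

noncomputable def c0_Apk2 : Cht := k0Ap (T_Apk2.a true) sk_Apk2 cx_Apk2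

noncomputable def c1_Apk2 : Cht := k1Ap (T_Apk2.a true) sk_Apk2 cx_Apk2

noncomputable def sK_Am : Fn3 :=
  sl0 (slF (w3W false) cv2p (w3K false 1 kcg) kf2q2)

noncomputable def sX_Am : Fn3 :=
  sl0 (slF (w3W false) cv2p (w3Q false kcg) l2q2)

noncomputable def sD_Am : Fn3 :=
  sl0 (slF (w3W false) cv2p (w3D false 1 kcg) kp2q2)

noncomputable def T_Am : MolT :=
  ⟨kcg, dq, sm, 2, sK_Am, sX_Am, sD_Am, 0, 1, 0, 1⟩

noncomputable def sk_Am : List Fn3 := [skP true 67108864, skM true 67108864]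

noncomputable def cx_Am : List Fn3 :=
  [f3A sm.xs (tCC (w3W false) cv2p),
    f3A sm.xs (tCC cv3p (w3W false)),
    f3A sm.xs (tXC cv2p)]

noncomputable def c0_Am : Cht := k0Am (T_Am.a false) sk_Am cx_Am

noncomputable def c1_Am : Cht := k1Am (T_Am.a false) sk_Am cx_Am

noncomputable def sK_Bp : Fn3 :=
  sl0 (slF (w3W true) cv2m (w3K true 1 kcg) kf2q1)

noncomputable def sX_Bp : Fn3 :=
  sl0 (slF (w3W true) cv2m (w3Q true kcg) l2q1)

noncomputable def sD_Bp : Fn3 :=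
  sl0 (slF (w3W true) cv2m (w3D true 1 kcg) kp2q1)

noncomputable def T_Bp : MolT :=
  ⟨kcg, dq, sp, 1, sK_Bp, sX_Bp, sD_Bp, 0, 1, 0, 1⟩

noncomputable def sk_Bp : List Fn3 := [skP false 67108864, skM false 67108864]

noncomputable def cx_Bp : List Fn3 :=
  [f3B sp.xs (tCC (w3W true) cv2m),
    f3B sp.xs (tCC cv3m (w3W true)),
    f3B sp.xs (tXC cv2m)]

noncomputable def c0_Bp : Cht := k0Bp (T_Bp.b true) sk_Bp cx_Bp

noncomputable def c1_Bp : Cht := k1Bp (T_Bp.b true) sk_Bp cx_Bp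

noncomputable def sK_Bpk1 : Fn3 :=
  sl0 (slF (w3W true) cv2m (w3K true 1 kcg) kf2q1)

noncomputable def sX_Bpk1 : Fn3 :=
  sl0 (slF (w3W true) cv2m (w3Q true kcg) l2q1)

noncomputable def sD_Bpk1 : Fn3 :=
  sl0 (slF (w3W true) cv2m (w3D true 1 kcg) kp2q1)

noncomputable def T_Bpk1 : MolT :=
  ⟨kcg, dq, sk1, 1, sK_Bpk1, sX_Bpk1, sD_Bpk1, 0, 1, 0, 1⟩

noncomputable def sk_Bpk1 : List Fn3 := [skP false 67108864, skM false 67108864]

noncomputable def cx_Bpk1 : List Fn3 :=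
  [f3B sk1.xs (tCC (w3W true) cv2m),
    f3B sk1.xs (tCC cv3m (w3W true)),
    f3B sk1.xs (tXC cv2m)]

noncomputable def c0_Bpk1 : Cht := k0Bp (T_Bpk1.b true) sk_Bpk1 cx_Bpk1

noncomputable def c1_Bpk1 : Cht := k1Bp (T_Bpk1.b true) sk_Bpk1 cx_Bpk1

noncomputable def sK_Bpk2 : Fn3 :=
  sl0 (slF (w3W true) cv2m (w3K true 1 kcg) kf2q1)

noncomputable def sX_Bpk2 : Fn3 :=
  sl0 (slF (w3W true) cv2m (w3Q true kcg) l2q1)

noncomputable def sD_Bpk2 : Fn3 :=
  sl0 (slF (w3W true) cv2m (w3D true 1 kcg) kp2q1)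

noncomputable def T_Bpk2 : MolT :=
  ⟨kcg, dq, sk2, 1, sK_Bpk2, sX_Bpk2, sD_Bpk2, 0, 1, 0, 1⟩

noncomputable def sk_Bpk2 : List Fn3 := [skP false 67108864, skM false 67108864]

noncomputable def cx_Bpk2 : List Fn3 :=
  [f3B sk2.xs (tCC (w3W true) cv2m),
    f3B sk2.xs (tCC cv3m (w3W true)),
    f3B sk2.xs (tXC cv2m)]

noncomputable def c0_Bpk2 : Cht := k0Bp (T_Bpk2.b true) sk_Bpk2 cx_Bpk2

noncomputable def c1_Bpk2 : Cht := k1Bp (T_Bpk2.b true) sk_Bpk2 cx_Bpk2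

noncomputable def sK_Bm : Fn3 :=
  sl1 (slF (w3W true) cv2m (w3K true 1 kcg) kf2q1) (sgF cv3m cv4m kf3q1 kf4q1) (hgR (w3W true) cv3m)

noncomputable def sX_Bm : Fn3 :=
  sl1 (slF (w3W true) cv2m (w3Q true kcg) l2q1) (sgF cv3m cv4m l3q1 l4q1) (hgR (w3W true) cv3m)

noncomputable def sD_Bm : Fn3 :=
  sl1 (slF (w3W true) cv2m (w3D true 1 kcg) kp2q1) (sgF cv3m cv4m kp3q1 kp4q1) (hgR (w3W true) cv3m)

noncomputable def T_Bm : MolT :=
  ⟨kcg, dq, sm, 1, sK_Bm, sX_Bm, sD_Bm, 0, 1, 0, 1⟩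

noncomputable def sk_Bm : List Fn3 := [skP false 67108864, skM false 67108864]

noncomputable def cx_Bm : List Fn3 :=
  [f3B sm.xs (tCC (w3W true) cv2m),
    f3B sm.xs (tCC cv3m (w3W true)),
    f3B sm.xs (tCX cv4m)]

noncomputable def c0_Bm : Cht := k0Bm (T_Bm.b false) sk_Bm cx_Bm

noncomputable def c1_Bm : Cht := k1Bm (T_Bm.b false) sk_Bm cx_Bm

end Pool.Agent.Strip051.G.I3_16_5_16.Tab.Mo
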