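import Pool.Agent.Strip051.PB.StripC
import Pool.Agent.Strip051.G.I3_16_5_16.Fact

/-! # Facts about the strips of a table (generated) -/

set_option linter.all false
set_option maxRecDepth 4000

namespace Pool.Agent.Strip051.G.I3_16_5_16.Tab.St

open Pool.Agent.Strip051.PB Pool.Agent.StripNear Pool.Agent.Strip051.LC
open Pool.Agent.Strip051.G.I3_16_5_16.Tab

noncomputable def sl1 : Fn1 := ⟨_, _, fun h1 => (enc_norm (enc_add (enc_scale 4550197 400000 (enc_subr 1 4 h1)) (enc_rat _ 7392847 8000000)))⟩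
noncomputable def sv1 : Fn1 := ⟨_, _, fun h1 => (enc_norm (enc_add (enc_scale 2818013 800000 (enc_subr 1 4 h1)) (enc_rat _ 7956263 16000000)))⟩
noncomputable def sw1 : Fn1 := ⟨_, _, fun h1 => (enc_norm (enc_add (enc_scale 176059 25000 (enc_subr 1 4 h1)) (enc_rat _ 370369 500000)))⟩
noncomputable def sl2 : Fn1 := ⟨_, _, fun h1 => (enc_norm (enc_sub (enc_rat _ 112546914293 65520000000) (enc_scale 151332801943 6552000000 (enc_subr 1 4 h1))))⟩
noncomputable def sv2 : Fn1 := ⟨_, _, fun h1 => (enc_norm (enc_sub (enc_rat _ 6279401213 9360000000) (enc_scale 3761229103 936000000 (enc_subr 1 4 h1))))⟩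
noncomputable def sw2 : Fn1 := ⟨_, _, fun h1 => (enc_norm (enc_sub (enc_rat _ 1647757 1000000) (enc_scale 3235487 100000 (enc_subr 1 4 h1))))⟩
noncomputable def sl3 : Fn1 := ⟨_, _, fun h1 => (enc_norm (enc_subr 611016068457 187460000000 (enc_neg (enc_scale 60794613707 9373000000 (enc_subr 1 4 h1)))))⟩
noncomputable def sv3 : Fn1 := ⟨_, _, fun h1 => (enc_norm (enc_subr 9131228617 26780000000 (enc_neg (enc_scale 858844277 1339000000 (enc_subr 1 4 h1)))))⟩
noncomputable def sw3 : Fn1 := ⟨_, _, fun h1 => (enc_norm (enc_subr 4472847 1000000 (enc_neg (enc_scale 596397 50000 (enc_subr 1 4 h1)))))⟩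
noncomputable def sl4 : Fn1 := ⟨_, _, fun h1 => (enc_norm (enc_subr 10660801 7500000 (enc_neg (enc_scale 15869241 1250000 (enc_subr 1 4 h1)))))⟩
noncomputable def sv4 : Fn1 := ⟨_, _, fun h1 => (enc_norm (enc_subr 2898127 150000000 (enc_neg (enc_scale 345605881 200000000 (enc_subr 1 4 h1)))))⟩
noncomputable def sw4 : Fn1 := ⟨_, _, fun h1 => (enc_norm (enc_subr 23089 12500 (enc_neg (enc_scale 2079827 100000 (enc_subr 1 4 h1)))))⟩
noncomputable def sl5 : Fn1 := ⟨_, _, fun h1 => (enc_norm (enc_subr 220912289 100000000 (enc_neg (enc_scale 54404191 10000000 (enc_subr 1 4 h1)))))⟩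
noncomputable def sv5 : Fn1 := ⟨_, _, fun h1 => (enc_norm (enc_subr 166916531 1250000000 (enc_neg (enc_scale 84509639 125000000 (enc_subr 1 4 h1)))))⟩
noncomputable def sw5 : Fn1 := ⟨_, _, fun h1 => (enc_norm (enc_subr 3205213 1000000 (enc_neg (enc_scale 828947 100000 (enc_subr 1 4 h1)))))⟩
noncomputable def sl6 : Fn1 := ⟨_, _, fun h1 => (enc_norm (enc_subr 1732623634397 947862500000 (enc_scale 1853814834961 189572500000 (enc_subr 1 4 h1))))⟩
noncomputable def sv6 : Fn1 := ⟨_, _, fun h1 => (enc_norm (enc_subr 41606964511 473931250000 (enc_scale 218058459761 189572500000 (enc_subr 1 4 h1))))⟩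
noncomputable def sw6 : Fn1 := ⟨_, _, fun h1 => (enc_norm (enc_subr 2411031 1000000 (enc_scale 1170857 50000 (enc_subr 1 4 h1))))⟩
noncomputable def sl7 : Fn1 := ⟨_, _, fun h1 => (enc_norm (enc_subr 169830915379563 55253900000000 (enc_scale 11257639008079 1381347500000 (enc_subr 1 4 h1))))⟩
noncomputable def sv7 : Fn1 := ⟨_, _, fun h1 => (enc_norm (enc_subr 11399501747863 55253900000000 (enc_scale 1374778426029 1381347500000 (enc_subr 1 4 h1))))⟩
noncomputable def sw7 : Fn1 := ⟨_, _, fun h1 => (enc_norm (enc_subr 2842173 500000 (enc_scale 239209 12500 (enc_subr 1 4 h1))))⟩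
noncomputable def sl8 : Fn1 := ⟨_, _, fun h1 => (enc_norm (enc_subr 45448861 180000000 (enc_neg (enc_scale 4186943 562500 (enc_subr 1 4 h1)))))⟩
noncomputable def sv8 : Fn1 := ⟨_, _, fun h1 => (enc_norm (enc_subr 3200881 1800000000 (enc_neg (enc_scale 380389 2812500 (enc_subr 1 4 h1)))))⟩
noncomputable def sw8 : Fn1 := ⟨_, _, fun h1 => (enc_norm (enc_sub (enc_rat _ 404379 100000) (enc_scale 21646 625 (enc_subr 1 4 h1))))⟩
noncomputable def sl9 : Fn1 := ⟨_, _, fun h1 => (enc_norm (enc_sub (enc_rat _ 4863947 15000000) (enc_scale 29777283 4000000 (enc_subr 1 4 h1))))⟩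
noncomputable def sv9 : Fn1 := ⟨_, _, fun h1 => (enc_norm (enc_sub (enc_rat _ 811789 30000000) (enc_scale 1082511 8000000 (enc_subr 1 4 h1))))⟩
noncomputable def sw9 : Fn1 := ⟨_, _, fun h1 => (enc_norm (enc_sub (enc_rat _ 432973 62500) (enc_scale 1731791 50000 (enc_subr 1 4 h1))))⟩
noncomputable def sl10 : Fn1 := ⟨_, _, fun h1 => (enc_norm (enc_subr 16927 31250 (enc_neg (enc_scale 9733 3125 (enc_subr 1 4 h1)))))⟩
noncomputable def sv10 : Fn1 := ⟨_, _, fun h1 => (enc_pnc _ 0)⟩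
noncomputable def sl11 : Fn1 := ⟨_, _, fun h1 => (enc_norm (enc_sub (enc_rat _ 4863947 15000000) (enc_scale 29777283 4000000 (enc_subr 1 4 h1))))⟩
noncomputable def sv11 : Fn1 := ⟨_, _, fun h1 => (enc_norm (enc_subr 811789 30000000 (enc_scale 1082511 8000000 (enc_subr 1 4 h1))))⟩
noncomputable def sw11 : Fn1 := ⟨_, _, fun h1 => (enc_norm (enc_subr 432973 62500 (enc_scale 1731791 50000 (enc_subr 1 4 h1))))⟩
noncomputable def sl12 : Fn1 := ⟨_, _, fun h1 => (enc_norm (enc_subr 45448861 180000000 (enc_neg (enc_scale 4186943 562500 (enc_subr 1 4 h1)))))⟩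
noncomputable def sv12 : Fn1 := ⟨_, _, fun h1 => (enc_norm (enc_add (enc_scale 380389 2812500 (enc_subr 1 4 h1)) (enc_rat _ 3200881 1800000000)))⟩
noncomputable def sw12 : Fn1 := ⟨_, _, fun h1 => (enc_norm (enc_subr 404379 100000 (enc_scale 21646 625 (enc_subr 1 4 h1))))⟩
noncomputable def sl13 : Fn1 := ⟨_, _, fun h1 => (enc_norm (enc_subr 169830915379563 55253900000000 (enc_scale 11257639008079 1381347500000 (enc_subr 1 4 h1))))⟩
noncomputable def sv13 : Fn1 := ⟨_, _, fun h1 => (enc_norm (enc_sub (enc_rat _ 11399501747863 55253900000000) (enc_scale 1374778426029 1381347500000 (enc_subr 1 4 h1))))⟩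
noncomputable def sw13 : Fn1 := ⟨_, _, fun h1 => (enc_norm (enc_sub (enc_rat _ 2842173 500000) (enc_scale 239209 12500 (enc_subr 1 4 h1))))⟩
noncomputable def sl14 : Fn1 := ⟨_, _, fun h1 => (enc_norm (enc_subr 1732623634397 947862500000 (enc_scale 1853814834961 189572500000 (enc_subr 1 4 h1))))⟩
noncomputable def sv14 : Fn1 := ⟨_, _, fun h1 => (enc_norm (enc_sub (enc_rat _ 41606964511 473931250000) (enc_scale 218058459761 189572500000 (enc_subr 1 4 h1))))⟩
noncomputable def sw14 : Fn1 := ⟨_, _, fun h1 => (enc_norm (enc_sub (enc_rat _ 2411031 1000000) (enc_scale 1170857 50000 (enc_subr 1 4 h1))))⟩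
noncomputable def sl15 : Fn1 := ⟨_, _, fun h1 => (enc_norm (enc_subr 220912289 100000000 (enc_neg (enc_scale 54404191 10000000 (enc_subr 1 4 h1)))))⟩
noncomputable def sv15 : Fn1 := ⟨_, _, fun h1 => (enc_norm (enc_add (enc_scale 84509639 125000000 (enc_subr 1 4 h1)) (enc_rat _ 166916531 1250000000)))⟩
noncomputable def sw15 : Fn1 := ⟨_, _, fun h1 => (enc_norm (enc_add (enc_scale 828947 100000 (enc_subr 1 4 h1)) (enc_rat _ 3205213 1000000)))⟩
noncomputable def sl16 : Fn1 := ⟨_, _, fun h1 => (enc_norm (enc_subr 10660801 7500000 (enc_neg (enc_scale 15869241 1250000 (enc_subr 1 4 h1)))))⟩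
noncomputable def sv16 : Fn1 := ⟨_, _, fun h1 => (enc_norm (enc_add (enc_scale 345605881 200000000 (enc_subr 1 4 h1)) (enc_rat _ 2898127 150000000)))⟩
noncomputable def sw16 : Fn1 := ⟨_, _, fun h1 => (enc_norm (enc_add (enc_scale 2079827 100000 (enc_subr 1 4 h1)) (enc_rat _ 23089 12500)))⟩
noncomputable def sl17 : Fn1 := ⟨_, _, fun h1 => (enc_norm (enc_subr 611016068457 187460000000 (enc_neg (enc_scale 60794613707 9373000000 (enc_subr 1 4 h1)))))⟩
noncomputable def sv17 : Fn1 := ⟨_, _, fun h1 => (enc_norm (enc_add (enc_scale 858844277 1339000000 (enc_subr 1 4 h1)) (enc_rat _ 9131228617 26780000000)))⟩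
noncomputable def sw17 : Fn1 := ⟨_, _, fun h1 => (enc_norm (enc_add (enc_scale 596397 50000 (enc_subr 1 4 h1)) (enc_rat _ 4472847 1000000)))⟩
noncomputable def sl18 : Fn1 := ⟨_, _, fun h1 => (enc_norm (enc_sub (enc_rat _ 112546914293 65520000000) (enc_scale 151332801943 6552000000 (enc_subr 1 4 h1))))⟩
noncomputable def sv18 : Fn1 := ⟨_, _, fun h1 => (enc_norm (enc_subr 6279401213 9360000000 (enc_scale 3761229103 936000000 (enc_subr 1 4 h1))))⟩
noncomputable def sw18 : Fn1 := ⟨_, _, fun h1 => (enc_norm (enc_subr 1647757 1000000 (enc_scale 3235487 100000 (enc_subr 1 4 h1))))⟩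
noncomputable def sl19 : Fn1 := ⟨_, _, fun h1 => (enc_norm (enc_add (enc_scale 4550197 400000 (enc_subr 1 4 h1)) (enc_rat _ 7392847 8000000)))⟩
noncomputable def sv19 : Fn1 := ⟨_, _, fun h1 => (enc_norm (enc_subr 7956263 16000000 (enc_neg (enc_scale 2818013 800000 (enc_subr 1 4 h1)))))⟩
noncomputable def sw19 : Fn1 := ⟨_, _, fun h1 => (enc_norm (enc_subr 370369 500000 (enc_neg (enc_scale 176059 25000 (enc_subr 1 4 h1)))))⟩
noncomputable def sl38 : Fn1 := ⟨_, _, fun h1 => (enc_norm (enc_add (enc_scale 113413 320000 (enc_subr 1 4 h1)) (enc_rat _ 4266417 8000000)))⟩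
noncomputable def sv38 : Fn1 := ⟨_, _, fun h1 => (enc_norm (enc_add (enc_scale 511073 3200000 (enc_subr 1 4 h1)) (enc_rat _ 470821 3200000)))⟩
noncomputable def sw38 : Fn1 := ⟨_, _, fun h1 => (enc_norm (enc_add (enc_scale 6999 100000 (enc_subr 1 4 h1)) (enc_rat _ 239039 500000)))⟩
noncomputable def sl39_2 : Fn1 := ⟨_, _, fun h1 => (enc_subr 1 4 h1)⟩
noncomputable def sl39 : Fn1 := ⟨_, _, fun h1 => (enc_norm (enc_add (enc_add (enc_scale 955033327 1310400000 (sl39_2.enc h1)) (enc_rat _ 4438721233 32760000000)) (enc_scale 797 9375 (enc_sq (enc_norm (sl39_2.enc h1))))))⟩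
noncomputable def sv39_2 : Fn1 := ⟨_, _, fun h1 => (enc_subr 1 4 h1)⟩
noncomputable def sv39 : Fn1 := ⟨_, _, fun h1 => (enc_norm (enc_add (enc_add (enc_scale 44761999 187200000 (sv39_2.enc h1)) (enc_rat _ 281772733 4680000000)) (enc_scale 5579 150000 (enc_sq (enc_norm (sv39_2.enc h1))))))⟩
noncomputable def sw39 : Fn1 := ⟨_, _, fun h1 => (enc_norm (enc_add (enc_scale 51091 100000 (enc_subr 1 4 h1)) (enc_rat _ 2293 100000)))⟩
noncomputable def sl41_2 : Fn1 := ⟨_, _, fun h1 => (enc_subr 1 4 h1)⟩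
noncomputable def sl41 : Fn1 := ⟨_, _, fun h1 => (enc_norm (enc_sub (enc_subr 15844642603 333450000000 (enc_scale 395996546183 255645000000 (sl41_2.enc h1))) (enc_scale 75559 103500 (enc_sq (enc_norm (sl41_2.enc h1))))))⟩
noncomputable def sv41_2 : Fn1 := ⟨_, _, fun h1 => (enc_subr 1 4 h1)⟩
noncomputable def sv41 : Fn1 := ⟨_, _, fun h1 => (enc_norm (enc_sub (enc_add (enc_scale 42356179033 255645000000 (sv41_2.enc h1)) (enc_rat _ 1257032767 20840625000)) (enc_scale 528913 5175000 (enc_sq (enc_norm (sv41_2.enc h1))))))⟩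
noncomputable def sw41 : Fn1 := ⟨_, _, fun h1 => (enc_norm (enc_subr 732341 1000000 (enc_scale 471111 100000 (enc_subr 1 4 h1))))⟩
noncomputable def sl42 : Fn1 := ⟨_, _, fun h1 => (enc_norm (enc_subr 706087 25000000 (enc_scale 1551469 1250000 (enc_subr 1 4 h1))))⟩
noncomputable def sv42 : Fn1 := ⟨_, _, fun h1 => (enc_norm (enc_add (enc_scale 224973 1562500 (enc_subr 1 4 h1)) (enc_rat _ 7695209 125000000)))⟩
noncomputable def sw42 : Fn1 := ⟨_, _, fun h1 => (enc_norm (enc_subr 329101 500000 (enc_scale 90487 25000 (enc_subr 1 4 h1))))⟩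
noncomputable def sl43 : Fn1 := ⟨_, _, fun h1 => (enc_norm (enc_subr 462121 10000000 (enc_scale 3286471 4000000 (enc_subr 1 4 h1))))⟩
noncomputable def sv43 : Fn1 := ⟨_, _, fun h1 => (enc_norm (enc_add (enc_scale 984067 8000000 (enc_subr 1 4 h1)) (enc_rat _ 1213283 20000000)))⟩
noncomputable def sw43 : Fn1 := ⟨_, _, fun h1 => (enc_norm (enc_subr 93517 125000 (enc_scale 76067 50000 (enc_subr 1 4 h1))))⟩
noncomputable def sl44 : Fn1 := ⟨_, _, fun h1 => (enc_norm (enc_subr 2027 125000 (enc_neg (enc_scale 61 6250 (enc_subr 1 4 h1)))))⟩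
noncomputable def sv44 : Fn1 := ⟨_, _, fun h1 => (enc_norm (enc_add (enc_scale 155241 1600000 (enc_subr 1 4 h1)) (enc_rat _ 15769747 256000000)))⟩
noncomputable def sw44 : Fn1 := ⟨_, _, fun h1 => (enc_norm (enc_subr 507923 1000000 (enc_neg (enc_scale 32057 6250 (enc_subr 1 4 h1)))))⟩
noncomputable def sl45 : Fn1 := ⟨_, _, fun h1 => (enc_norm (enc_subr 38775181 2300000000 (enc_neg (enc_scale 875863001 920000000 (enc_subr 1 4 h1)))))⟩
noncomputable def sv45 : Fn1 := ⟨_, _, fun h1 => (enc_norm (enc_add (enc_scale 116353011 920000000 (enc_subr 1 4 h1)) (enc_rat _ 141726291 2300000000)))⟩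
noncomputable def sw45 : Fn1 := ⟨_, _, fun h1 => (enc_norm (enc_subr 125661 250000 (enc_scale 240919 100000 (enc_subr 1 4 h1))))⟩
noncomputable def sl46 : Fn1 := ⟨_, _, fun h1 => (enc_norm (enc_sub (enc_rat _ 274243 15000000) (enc_scale 1127657 750000 (enc_subr 1 4 h1))))⟩
noncomputable def sv46 : Fn1 := ⟨_, _, fun h1 => (enc_norm (enc_add (enc_scale 4985971 31250000 (enc_subr 1 4 h1)) (enc_rat _ 18597323 312500000)))⟩
noncomputable def sw46 : Fn1 := ⟨_, _, fun h1 => (enc_norm (enc_subr 324527 500000 (enc_scale 58849 12500 (enc_subr 1 4 h1))))⟩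
noncomputable def sl47 : Fn1 := ⟨_, _, fun h1 => (enc_norm (enc_subr 101997289 350000000 (enc_scale 4026039 8750000 (enc_subr 1 4 h1))))⟩
noncomputable def sv47 : Fn1 := ⟨_, _, fun h1 => (enc_norm (enc_sub (enc_rat _ 61170607 700000000) (enc_scale 150191 8750000 (enc_subr 1 4 h1))))⟩
noncomputable def sw47 : Fn1 := ⟨_, _, fun h1 => (enc_norm (enc_sub (enc_rat _ 105589 500000) (enc_scale 9339 12500 (enc_subr 1 4 h1))))⟩
noncomputable def sl48 : Fn1 := ⟨_, _, fun h1 => (enc_norm (enc_subr 12075181 35000000 (enc_scale 4585433 7000000 (enc_subr 1 4 h1))))⟩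
noncomputable def sv48 : Fn1 := ⟨_, _, fun h1 => (enc_norm (enc_sub (enc_rat _ 3292889 35000000) (enc_scale 145431 3500000 (enc_subr 1 4 h1))))⟩
noncomputable def sw48 : Fn1 := ⟨_, _, fun h1 => (enc_norm (enc_sub (enc_rat _ 15919 50000) (enc_scale 11367 10000 (enc_subr 1 4 h1))))⟩
noncomputable def sl49 : Fn1 := ⟨_, _, fun h1 => (enc_norm (enc_subr 2804283 10000000 (enc_scale 3905981 3000000 (enc_subr 1 4 h1))))⟩
noncomputable def sv49 : Fn1 := ⟨_, _, fun h1 => (enc_norm (enc_sub (enc_rat _ 52344519 625000000) (enc_scale 27197383 187500000 (enc_subr 1 4 h1))))⟩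
noncomputable def sw49 : Fn1 := ⟨_, _, fun h1 => (enc_norm (enc_sub (enc_rat _ 217469 1000000) (enc_scale 214761 100000 (enc_subr 1 4 h1))))⟩
noncomputable def sl50 : Fn1 := ⟨_, _, fun h1 => (enc_norm (enc_subr 273595017 920000000 (enc_scale 12043991 92000000 (enc_subr 1 4 h1))))⟩
noncomputable def sv50 : Fn1 := ⟨_, _, fun h1 => (enc_norm (enc_add (enc_scale 14261531 184000000 (enc_subr 1 4 h1)) (enc_rat _ 160033723 1840000000)))⟩
noncomputable def sw50 : Fn1 := ⟨_, _, fun h1 => (enc_norm (enc_sub (enc_rat _ 23977 100000) (enc_scale 6071 10000 (enc_subr 1 4 h1))))⟩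
noncomputable def sl51 : Fn1 := ⟨_, _, fun h1 => (enc_norm (enc_subr 11123507 16000000 (enc_neg (enc_scale 2941903 1600000 (enc_subr 1 4 h1)))))⟩
noncomputable def sv51 : Fn1 := ⟨_, _, fun h1 => (enc_norm (enc_add (enc_scale 1626567 3200000 (enc_subr 1 4 h1)) (enc_rat _ 222723 1280000)))⟩
noncomputable def sw51 : Fn1 := ⟨_, _, fun h1 => (enc_norm (enc_add (enc_scale 164417 100000 (enc_subr 1 4 h1)) (enc_rat _ 694429 1000000)))⟩
noncomputable def skf0 : Fn2 := ⟨_, _, fun h1 h2 => (enc_norm (enc_add (bf1q0.enc h1 h2) (enc_mul (enc_norm (enc_sub (enc_mul (c1g.enc h1) (bf1q0.enc h1 h2)) (kf0q0.enc h1 h2))) (enc_inv (enc_sub (cv1m.enc h1) (c1g.enc h1))))))⟩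
noncomputable def sxf0 : Fn2 := ⟨_, _, fun h1 h2 => (enc_norm (enc_mul (enc_norm (enc_sub (l1q0.enc h1 h2) (l0q0.enc h1 h2))) (enc_inv (enc_sub (cv1m.enc h1) (c1g.enc h1)))))⟩
noncomputable def skl0 : Fn2 := ⟨_, _, fun h1 h2 => (enc_norm (enc_add (bf4q0.enc h1 h2) (enc_mul (enc_norm (enc_sub (kf5q0.enc h1 h2) (enc_mul (c3g.enc h1) (bf4q0.enc h1 h2)))) (enc_inv (enc_sub (c3g.enc h1) (cv4m.enc h1))))))⟩
noncomputable def sxl0 : Fn2 := ⟨_, _, fun h1 h2 => (enc_norm (enc_mul (enc_norm (enc_sub (l5q0.enc h1 h2) (l4q0.enc h1 h2))) (enc_inv (enc_sub (c3g.enc h1) (cv4m.enc h1)))))⟩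
noncomputable def skf1 : Fn2 := ⟨_, _, fun h1 h2 => (enc_norm (enc_add (bf1q1.enc h1 h2) (enc_mul (enc_norm (enc_sub (enc_mul (c1g.enc h1) (bf1q1.enc h1 h2)) (kf0q1.enc h1 h2))) (enc_inv (enc_sub (cv1m.enc h1) (c1g.enc h1))))))⟩
noncomputable def sxf1 : Fn2 := ⟨_, _, fun h1 h2 => (enc_norm (enc_mul (enc_norm (enc_sub (l1q1.enc h1 h2) (l0q1.enc h1 h2))) (enc_inv (enc_sub (cv1m.enc h1) (c1g.enc h1)))))⟩
noncomputable def skl1 : Fn2 := ⟨_, _, fun h1 h2 => (enc_norm (enc_add (bf4q1.enc h1 h2) (enc_mul (enc_norm (enc_sub (kf5q1.enc h1 h2) (enc_mul (c3g.enc h1) (bf4q1.enc h1 h2)))) (enc_inv (enc_sub (c3g.enc h1) (cv4m.enc h1))))))⟩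
noncomputable def sxl1 : Fn2 := ⟨_, _, fun h1 h2 => (enc_norm (enc_mul (enc_norm (enc_sub (l5q1.enc h1 h2) (l4q1.enc h1 h2))) (enc_inv (enc_sub (c3g.enc h1) (cv4m.enc h1)))))⟩
noncomputable def skf2 : Fn2 := ⟨_, _, fun h1 h2 => (enc_norm (enc_add (bf1q2.enc h1 h2) (enc_mul (enc_norm (enc_add (enc_mul (c1g.enc h1) (enc_norm (enc_subn 1 (bf1q2.enc h1 h2)))) (enc_mul (enc_norm (enc_subn 1 h1)) (kcg.enc (c1g.enc h1) h2)))) (enc_inv (enc_sub (cv1p.enc h1) (c1g.enc h1))))))⟩
noncomputable def sxf2 : Fn2 := ⟨_, _, fun h1 h2 => (enc_norm (enc_mul (enc_norm (enc_sub (l1q2.enc h1 h2) (l0q2.enc h1 h2))) (enc_inv (enc_sub (cv1p.enc h1) (c1g.enc h1)))))⟩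
noncomputable def skl2 : Fn2 := ⟨_, _, fun h1 h2 => (enc_norm (enc_add (bf4q2.enc h1 h2) (enc_mul (enc_norm (enc_sub (kf5q2.enc h1 h2) (enc_mul (c3g.enc h1) (bf4q2.enc h1 h2)))) (enc_inv (enc_sub (c3g.enc h1) (cv4p.enc h1))))))⟩
noncomputable def sxl2 : Fn2 := ⟨_, _, fun h1 h2 => (enc_norm (enc_mul (enc_norm (enc_sub (l5q2.enc h1 h2) (l4q2.enc h1 h2))) (enc_inv (enc_sub (c3g.enc h1) (cv4p.enc h1)))))⟩
noncomputable def skl3 : Fn2 := ⟨_, _, fun h1 h2 => (enc_norm (enc_add (bf4q3.enc h1 h2) (enc_mul (enc_norm (enc_sub (kf5q3.enc h1 h2) (enc_mul (c3g.enc h1) (bf4q3.enc h1 h2)))) (enc_inv (enc_sub (c3g.enc h1) (cv4r.enc h1))))))⟩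
noncomputable def sxl3 : Fn2 := ⟨_, _, fun h1 h2 => (enc_norm (enc_mul (enc_norm (enc_sub (l5q3.enc h1 h2) (l4q3.enc h1 h2))) (enc_inv (enc_sub (c3g.enc h1) (cv4r.enc h1)))))⟩
noncomputable def rhk : Fn2 := ⟨_, _, fun h1 h2 => (enc_norm (enc_mul (enc_norm (enc_sub (bf1q2.enc h1 h2) (n0b.enc h1 h2))) (enc_norm (enc_mul (cv1p.enc h1) (enc_inv (enc_sub (cv1p.enc h1) (c1g.enc h1)))))))⟩
noncomputable def rhx : Fn2 := ⟨_, _, fun h1 h2 => (enc_norm (enc_mul (enc_norm (enc_sub (bx1q2.enc h1 h2) (n0x.enc h1 h2))) (enc_norm (enc_mul (cv1p.enc h1) (enc_inv (enc_sub (cv1p.enc h1) (c1g.enc h1)))))))⟩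
noncomputable def sbk : Fn1 := ⟨_, _, fun h1 => (enc_norm (enc_add (enc_scale 719 3125 (enc_subr 1 4 h1)) (enc_rat _ 719 125000)))⟩
noncomputable def sbx : Fn1 := ⟨_, _, fun h1 => (enc_norm (enc_add (enc_scale 2411 500 (enc_subr 1 4 h1)) (enc_rat _ 1069 5000)))⟩
noncomputable def k0c : Fn1 := ⟨_, _, fun h1 => (enc_norm (enc_subr 16927 31250 (enc_neg (enc_scale 9733 3125 (enc_subr 1 4 h1)))))⟩
noncomputable def m0c : Fn1 := ⟨_, _, fun h1 => (enc_norm (enc_add (enc_scale 61 3125 (enc_subr 1 4 h1)) (enc_rat _ 2027 62500)))⟩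
noncomputable def sl65 : Fn1 := ⟨_, _, fun h1 => (enc_norm (enc_subr 842677 37500000 (enc_scale 455339 1875000 (enc_subr 1 4 h1))))⟩
noncomputable def sv65 : Fn1 := ⟨_, _, fun h1 => (enc_norm (enc_subr 1281399 625000000 (enc_scale 486511 31250000 (enc_subr 1 4 h1))))⟩
noncomputable def sw65 : Fn1 := ⟨_, _, fun h1 => (enc_norm (enc_add (enc_scale 27211 25000 (enc_subr 1 4 h1)) (enc_rat _ 2287 250000)))⟩
noncomputable def sl66 : Fn1 := ⟨_, _, fun h1 => (enc_norm (enc_sub (enc_rat _ 5828317 460000000) (enc_scale 283976583 920000000 (enc_subr 1 4 h1))))⟩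
noncomputable def sv66 : Fn1 := ⟨_, _, fun h1 => (enc_norm (enc_sub (enc_rat _ 672227 11500000000) (enc_scale 80555457 4600000000 (enc_subr 1 4 h1))))⟩
noncomputable def sw66 : Fn1 := ⟨_, _, fun h1 => (enc_norm (enc_sub (enc_rat _ 77779 500000) (enc_scale 121029 100000 (enc_subr 1 4 h1))))⟩
noncomputable def sl67 : Fn1 := ⟨_, _, fun h1 => (enc_norm (enc_add (enc_scale 102016271 920000000 (enc_subr 1 4 h1)) (enc_rat _ 70469411 2300000000)))⟩
noncomputable def sv67 : Fn1 := ⟨_, _, fun h1 => (enc_norm (enc_add (enc_scale 1592653 460000000 (enc_subr 1 4 h1)) (enc_rat _ 1099373 1150000000)))⟩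
noncomputable def sw67 : Fn1 := ⟨_, _, fun h1 => (enc_norm (enc_add (enc_scale 17757 20000 (enc_subr 1 4 h1)) (enc_rat _ 61373 250000)))⟩
noncomputable def sl68 : Fn1 := ⟨_, _, fun h1 => (enc_pnc _ 0)⟩
noncomputable def sv68 : Fn1 := ⟨_, _, fun h1 => (enc_pnc _ 0)⟩
noncomputable def sl69 : Fn1 := ⟨_, _, fun h1 => (enc_norm (enc_add (enc_scale 102016271 920000000 (enc_subr 1 4 h1)) (enc_rat _ 70469411 2300000000)))⟩
noncomputable def sv69 : Fn1 := ⟨_, _, fun h1 => (enc_norm (enc_subr 1099373 1150000000 (enc_neg (enc_scale 1592653 460000000 (enc_subr 1 4 h1)))))⟩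
noncomputable def sw69 : Fn1 := ⟨_, _, fun h1 => (enc_norm (enc_subr 61373 250000 (enc_neg (enc_scale 17757 20000 (enc_subr 1 4 h1)))))⟩
noncomputable def sl70 : Fn1 := ⟨_, _, fun h1 => (enc_norm (enc_sub (enc_rat _ 5828317 460000000) (enc_scale 283976583 920000000 (enc_subr 1 4 h1))))⟩
noncomputable def sv70 : Fn1 := ⟨_, _, fun h1 => (enc_norm (enc_subr 672227 11500000000 (enc_scale 80555457 4600000000 (enc_subr 1 4 h1))))⟩
noncomputable def sw70 : Fn1 := ⟨_, _, fun h1 => (enc_norm (enc_subr 77779 500000 (enc_scale 121029 100000 (enc_subr 1 4 h1))))⟩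
noncomputable def sl71 : Fn1 := ⟨_, _, fun h1 => (enc_norm (enc_subr 842677 37500000 (enc_scale 455339 1875000 (enc_subr 1 4 h1))))⟩
noncomputable def sv71 : Fn1 := ⟨_, _, fun h1 => (enc_norm (enc_sub (enc_rat _ 1281399 625000000) (enc_scale 486511 31250000 (enc_subr 1 4 h1))))⟩
noncomputable def sw71 : Fn1 := ⟨_, _, fun h1 => (enc_norm (enc_subr 2287 250000 (enc_neg (enc_scale 27211 25000 (enc_subr 1 4 h1)))))⟩
noncomputable def kqf : Fn2 := ⟨_, _, fun h1 h2 => (enc_norm (enc_mul (enc_norm (enc_subn 1 h1)) (enc_norm (enc_case (enc_subr 1 16 (c1g.enc h1)) (enc_subr 16927 31250 (enc_neg (enc_scale 9733 3125 (enc_subr 1 4 h2)))) (enc_mul (kcg.enc (c1g.enc h1) h2) (enc_inv (c1g.enc h1)))))))⟩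
noncomputable def skm : Fn2 := ⟨_, _, fun h1 h2 => (enc_norm (enc_sub (enc_mul (enc_norm (enc_mul (cv1p.enc h1) (enc_inv (enc_sub (cv1p.enc h1) (c1g.enc h1))))) (enc_norm (enc_add (enc_subn 1 (bf1q2.enc h1 h2)) (kqf.enc h1 h2)))) (kqf.enc h1 h2)))⟩
noncomputable def dt1 : DT := .quad sw1 sl1 sv1
noncomputable def dt2 : DT := .quad sw2 sl2 sv2
noncomputable def dt3 : DT := .quad sw3 sl3 sv3
noncomputable def dt4 : DT := .quad sw4 sl4 sv4
noncomputable def dt5 : DT := .quad sw5 sl5 sv5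
noncomputable def dt6 : DT := .quad sw6 sl6 sv6
noncomputable def dt7 : DT := .quad sw7 sl7 sv7
noncomputable def dt8 : DT := .quad sw8 sl8 sv8
noncomputable def dt9 : DT := .quad sw9 sl9 sv9
noncomputable def dt10 : DT := .lin sl10 sv10
noncomputable def dt11 : DT := .quad sw11 sl11 sv11
noncomputable def dt12 : DT := .quad sw12 sl12 sv12
noncomputable def dt13 : DT := .quad sw13 sl13 sv13
noncomputable def dt14 : DT := .quad sw14 sl14 sv14
noncomputable def dt15 : DT := .quad sw15 sl15 sv15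
noncomputable def dt16 : DT := .quad sw16 sl16 sv16
noncomputable def dt17 : DT := .quad sw17 sl17 sv17
noncomputable def dt18 : DT := .quad sw18 sl18 sv18
noncomputable def dt19 : DT := .quad sw19 sl19 sv19
noncomputable def dt20 : DT := .node ((Cn.rt 7 16).ng) dt1 dt2
noncomputable def dt21 : DT := .node ((Cn.rt 7 20).ng) dt3 dt4
noncomputable def dt22 : DT := .node ((Cn.rt 37 91).ng) dt20 dt21
noncomputable def dt23 : DT := .node ((Cn.rt 6 25).ng) dt5 dt6
noncomputable def dt24 : DT := .node ((Cn.rt 1 10).ng) dt8 dt9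
noncomputable def dt25 : DT := .node ((Cn.rt 29 200).ng) dt7 dt24
noncomputable def dt26 : DT := .node ((Cn.rt 47 247).ng) dt23 dt25
noncomputable def dt27 : DT := .node ((Cn.rt 29 100).ng) dt22 dt26
noncomputable def dt28 : DT := .node (Cn.rt 1 16) dt10 dt11
noncomputable def dt29 : DT := .node (Cn.rt 47 247) dt13 dt14
noncomputable def dt30 : DT := .node (Cn.rt 29 200) dt12 dt29
noncomputable def dt31 : DT := .node (Cn.rt 1 10) dt28 dt30
noncomputable def dt32 : DT := .node (Cn.rt 29 100) dt15 dt16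
noncomputable def dt33 : DT := .node (Cn.rt 7 16) dt18 dt19
noncomputable def dt34 : DT := .node (Cn.rt 37 91) dt17 dt33
noncomputable def dt35 : DT := .node (Cn.rt 7 20) dt32 dt34
noncomputable def dt36 : DT := .node (Cn.rt 6 25) dt31 dt35
noncomputable def dt37 : DT := .node ((Cn.rt 1 16).ng) dt27 dt36
noncomputable def dt38 : DT := .quad sw38 sl38 sv38
noncomputable def dt39 : DT := .quad sw39 sl39 sv39
noncomputable def dt40 : DT := .clo
noncomputable def dt41 : DT := .quad sw41 sl41 sv41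
noncomputable def dt42 : DT := .quad sw42 sl42 sv42
noncomputable def dt43 : DT := .quad sw43 sl43 sv43
noncomputable def dt44 : DT := .quad sw44 sl44 sv44
noncomputable def dt45 : DT := .quad sw45 sl45 sv45
noncomputable def dt46 : DT := .quad sw46 sl46 sv46
noncomputable def dt47 : DT := .quad sw47 sl47 sv47
noncomputable def dt48 : DT := .quad sw48 sl48 sv48
noncomputable def dt49 : DT := .quad sw49 sl49 sv49
noncomputable def dt50 : DT := .quad sw50 sl50 sv50
noncomputable def dt51 : DT := .quad sw51 sl51 sv51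
noncomputable def dt52 : DT := .node ((Cn.rt 37 91).ng) dt39 dt40
noncomputable def dt53 : DT := .node ((Cn.rt 7 16).ng) dt38 dt52
noncomputable def dt54 : DT := .node ((Cn.rt 7 50).ng) dt41 dt42
noncomputable def dt55 : DT := .node ((Cn.rt 1 16).ng) dt43 dt44
noncomputable def dt56 : DT := .node ((Cn.rt 1 10).ng) dt54 dt55
noncomputable def dt57 : DT := .node ((Cn.rt 47 247).ng) dt53 dt56
noncomputable def dt58 : DT := .node (Cn.rt 9 50) dt46 dt47
noncomputable def dt59 : DT := .node (Cn.rt 3 25) dt45 dt58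
noncomputable def dt60 : DT := .node (Cn.rt 8 25) dt48 dt49
noncomputable def dt61 : DT := .node (Cn.rt 7 16) dt50 dt51
noncomputable def dt62 : DT := .node (Cn.rt 19 50) dt60 dt61
noncomputable def dt63 : DT := .node (Cn.rt 1 4) dt59 dt62
noncomputable def dt64 : DT := .node (Cn.rt 1 16) dt57 dt63
noncomputable def dt65 : DT := .quad sw65 sl65 sv65
noncomputable def dt66 : DT := .quad sw66 sl66 sv66
noncomputable def dt67 : DT := .quad sw67 sl67 sv67
noncomputable def dt68 : DT := .lin sl68 sv68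
noncomputable def dt69 : DT := .quad sw69 sl69 sv69
noncomputable def dt70 : DT := .quad sw70 sl70 sv70
noncomputable def dt71 : DT := .quad sw71 sl71 sv71
noncomputable def dt72 : DT := .node ((Cn.rt 1 10).ng) dt66 dt67
noncomputable def dt73 : DT := .node ((Cn.rt 3 25).ng) dt65 dt72
noncomputable def dt74 : DT := .node (Cn.rt 1 16) dt68 dt69
noncomputable def dt75 : DT := .node (Cn.rt 3 25) dt70 dt71
noncomputable def dt76 : DT := .node (Cn.rt 1 10) dt74 dt75
noncomputable def dt77 : DT := .node ((Cn.rt 1 16).ng) dt73 dt76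
noncomputable def dd : SDat := ⟨dt37, kcg, dt64, Kh.S⟩
noncomputable def gf0 : Sg := ⟨cv1m, skf0, sxf0⟩
noncomputable def gf1 : Sg := ⟨cv1m, skf1, sxf1⟩
noncomputable def gf2 : Sg := ⟨cv1p, skf2, sxf2⟩
noncomputable def gf3 : Sg := ⟨cv1r, skf2, sxf2⟩
noncomputable def gl0 : Sg := ⟨cv4m, skl0, sxl0⟩
noncomputable def gl1 : Sg := ⟨cv4m, skl1, sxl1⟩
noncomputable def gl2 : Sg := ⟨cv4p, skl2, sxl2⟩
noncomputable def gl3 : Sg := ⟨cv4r, skl3, sxl3⟩
noncomputable def vv : Vt := ⟨(Cn.rt 1 16), (Cn.rt 577 500), (Cn.rt 231 200), (Cn.rt 29 25), k0c, m0c, sbk, sbx, rhk, rhx, bf1q2, bx1q2, (Cn.rt 7 50), (Cn.rt 577 500), skm, dt77⟩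
noncomputable def ff (q : ℕ) : Sg := match q with
  | 0 => gf0
  | 1 => gf1
  | 2 => gf2
  | _ => gf3
noncomputable def fl (q : ℕ) : Sg := match q with
  | 0 => gl0
  | 1 => gl1
  | 2 => gl2
  | _ => gl3
noncomputable def tt : STab 5 := ⟨dd, 0, 4, ff, fl, vv⟩
theorem kcl0 {p x : ℝ} (h1 : -1 / 2 ≤ p) (h2 : p ≤ -7 / 16) : kcg.v p x = (7956263 / 16000000 + (x - 1 / 4) * (2818013 / 800000)) + (7392847 / 8000000 + (x - 1 / 4) * (4550197 / 400000)) * p + (370369 / 500000 + (x - 1 / 4) * (176059 / 25000)) * p ^ 2 := by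
  simp only [kcg, kcg_3, kcg_6, kcg_9, kcg_12, kcg_13, kcg_16, kcg_27, kcg_35, kcg_38, kcg_47, kcg_55, kcg_56, kcg_59, kcg_67, kcg_74, kcg_75, kcg_79, kcg_87, kcg_92, kcg_96, kcg_106, kcg_116, kcg_119, kcg_120, kcg_124, kcg_135, kcg_140, kcg_145, kcg_155, kcg_163, kcg_164, kcg_169, kcg_178, kcg_186, kcg_191, kcg_201, kcg_206, kcg_211, kcg_219, kcg_220, kcg_221, kcg_244, kcg_255, kcg_276, kcg_277, kcg_296]
  rcases eq_or_lt_of_le h1 with h | h1
  · subst h
    ((try push_cast); (repeat first | rw [if_pos (by linarith)] | rw [if_neg (by linarith)] | erw [if_pos (by linarith)] | erw [if_neg (by linarith)]); (try push_cast); (try ring1))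
  rcases eq_or_lt_of_le h2 with h | h2
  · subst h
    ((try push_cast); (repeat first | rw [if_pos (by linarith)] | rw [if_neg (by linarith)] | erw [if_pos (by linarith)] | erw [if_neg (by linarith)]); (try push_cast); (try ring1))
  · ((try push_cast); (repeat first | rw [if_pos (by linarith)] | rw [if_neg (by linarith)] | erw [if_pos (by linarith)] | erw [if_neg (by linarith)]); (try push_cast); (try ring1))
theorem kcl1 {p x : ℝ} (h1 : -7 / 16 ≤ p) (h2 : p ≤ -37 / 91) : kcg.v p x = (6279401213 / 9360000000 + (x - 1 / 4) * (-3761229103 / 936000000)) + (112546914293 / 65520000000 + (x - 1 / 4) * (-151332801943 / 6552000000)) * p + (1647757 / 1000000 + (x - 1 / 4) * (-3235487 / 100000)) * p ^ 2 := by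
  simp only [kcg, kcg_3, kcg_6, kcg_9, kcg_12, kcg_13, kcg_16, kcg_27, kcg_35, kcg_38, kcg_47, kcg_55, kcg_56, kcg_59, kcg_67, kcg_74, kcg_75, kcg_79, kcg_87, kcg_92, kcg_96, kcg_106, kcg_116, kcg_119, kcg_120, kcg_124, kcg_135, kcg_140, kcg_145, kcg_155, kcg_163, kcg_164, kcg_169, kcg_178, kcg_186, kcg_191, kcg_201, kcg_206, kcg_211, kcg_219, kcg_220, kcg_221, kcg_244, kcg_255, kcg_276, kcg_277, kcg_296]
  rcases eq_or_lt_of_le h1 with h | h1
  · subst h
    ((try push_cast); (repeat first | rw [if_pos (by linarith)] | rw [if_neg (by linarith)] | erw [if_pos (by linarith)] | erw [if_neg (by linarith)]); (try push_cast); (try ring1))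
  rcases eq_or_lt_of_le h2 with h | h2
  · subst h
    ((try push_cast); (repeat first | rw [if_pos (by linarith)] | rw [if_neg (by linarith)] | erw [if_pos (by linarith)] | erw [if_neg (by linarith)]); (try push_cast); (try ring1))
  · ((try push_cast); (repeat first | rw [if_pos (by linarith)] | rw [if_neg (by linarith)] | erw [if_pos (by linarith)] | erw [if_neg (by linarith)]); (try push_cast); (try ring1))
theorem kcl2 {p x : ℝ} (h1 : -37 / 91 ≤ p) (h2 : p ≤ -7 / 20) : kcg.v p x = (-9131228617 / 26780000000 + (x - 1 / 4) * (-858844277 / 1339000000)) + (-611016068457 / 187460000000 + (x - 1 / 4) * (-60794613707 / 9373000000)) * p + (-4472847 / 1000000 + (x - 1 / 4) * (-596397 / 50000)) * p ^ 2 := by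
  simp only [kcg, kcg_3, kcg_6, kcg_9, kcg_12, kcg_13, kcg_16, kcg_27, kcg_35, kcg_38, kcg_47, kcg_55, kcg_56, kcg_59, kcg_67, kcg_74, kcg_75, kcg_79, kcg_87, kcg_92, kcg_96, kcg_106, kcg_116, kcg_119, kcg_120, kcg_124, kcg_135, kcg_140, kcg_145, kcg_155, kcg_163, kcg_164, kcg_169, kcg_178, kcg_186, kcg_191, kcg_201, kcg_206, kcg_211, kcg_219, kcg_220, kcg_221, kcg_244, kcg_255, kcg_276, kcg_277, kcg_296]
  rcases eq_or_lt_of_le h1 with h | h1
  · subst h
    ((try push_cast); (repeat first | rw [if_pos (by linarith)] | rw [if_neg (by linarith)] | erw [if_pos (by linarith)] | erw [if_neg (by linarith)]); (try push_cast); (try ring1))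
  rcases eq_or_lt_of_le h2 with h | h2
  · subst h
    ((try push_cast); (repeat first | rw [if_pos (by linarith)] | rw [if_neg (by linarith)] | erw [if_pos (by linarith)] | erw [if_neg (by linarith)]); (try push_cast); (try ring1))
  · ((try push_cast); (repeat first | rw [if_pos (by linarith)] | rw [if_neg (by linarith)] | erw [if_pos (by linarith)] | erw [if_neg (by linarith)]); (try push_cast); (try ring1))
theorem kcl3 {p x : ℝ} (h1 : -7 / 20 ≤ p) (h2 : p ≤ -29 / 100) : kcg.v p x = (-2898127 / 150000000 + (x - 1 / 4) * (-345605881 / 200000000)) + (-10660801 / 7500000 + (x - 1 / 4) * (-15869241 / 1250000)) * p + (-23089 / 12500 + (x - 1 / 4) * (-2079827 / 100000)) * p ^ 2 := by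
  simp only [kcg, kcg_3, kcg_6, kcg_9, kcg_12, kcg_13, kcg_16, kcg_27, kcg_35, kcg_38, kcg_47, kcg_55, kcg_56, kcg_59, kcg_67, kcg_74, kcg_75, kcg_79, kcg_87, kcg_92, kcg_96, kcg_106, kcg_116, kcg_119, kcg_120, kcg_124, kcg_135, kcg_140, kcg_145, kcg_155, kcg_163, kcg_164, kcg_169, kcg_178, kcg_186, kcg_191, kcg_201, kcg_206, kcg_211, kcg_219, kcg_220, kcg_221, kcg_244, kcg_255, kcg_276, kcg_277, kcg_296]
  rcases eq_or_lt_of_le h1 with h | h1
  · subst h
    ((try push_cast); (repeat first | rw [if_pos (by linarith)] | rw [if_neg (by linarith)] | erw [if_pos (by linarith)] | erw [if_neg (by linarith)]); (try push_cast); (try ring1))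
  rcases eq_or_lt_of_le h2 with h | h2
  · subst h
    ((try push_cast); (repeat first | rw [if_pos (by linarith)] | rw [if_neg (by linarith)] | erw [if_pos (by linarith)] | erw [if_neg (by linarith)]); (try push_cast); (try ring1))
  · ((try push_cast); (repeat first | rw [if_pos (by linarith)] | rw [if_neg (by linarith)] | erw [if_pos (by linarith)] | erw [if_neg (by linarith)]); (try push_cast); (try ring1))
theorem kcl4 {p x : ℝ} (h1 : -29 / 100 ≤ p) (h2 : p ≤ -6 / 25) : kcg.v p x = (-166916531 / 1250000000 + (x - 1 / 4) * (-84509639 / 125000000)) + (-220912289 / 100000000 + (x - 1 / 4) * (-54404191 / 10000000)) * p + (-3205213 / 1000000 + (x - 1 / 4) * (-828947 / 100000)) * p ^ 2 := by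
  simp only [kcg, kcg_3, kcg_6, kcg_9, kcg_12, kcg_13, kcg_16, kcg_27, kcg_35, kcg_38, kcg_47, kcg_55, kcg_56, kcg_59, kcg_67, kcg_74, kcg_75, kcg_79, kcg_87, kcg_92, kcg_96, kcg_106, kcg_116, kcg_119, kcg_120, kcg_124, kcg_135, kcg_140, kcg_145, kcg_155, kcg_163, kcg_164, kcg_169, kcg_178, kcg_186, kcg_191, kcg_201, kcg_206, kcg_211, kcg_219, kcg_220, kcg_221, kcg_244, kcg_255, kcg_276, kcg_277, kcg_296]
  rcases eq_or_lt_of_le h1 with h | h1
  · subst h
    ((try push_cast); (repeat first | rw [if_pos (by linarith)] | rw [if_neg (by linarith)] | erw [if_pos (by linarith)] | erw [if_neg (by linarith)]); (try push_cast); (try ring1))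
  rcases eq_or_lt_of_le h2 with h | h2
  · subst h
    ((try push_cast); (repeat first | rw [if_pos (by linarith)] | rw [if_neg (by linarith)] | erw [if_pos (by linarith)] | erw [if_neg (by linarith)]); (try push_cast); (try ring1))
  · ((try push_cast); (repeat first | rw [if_pos (by linarith)] | rw [if_neg (by linarith)] | erw [if_pos (by linarith)] | erw [if_neg (by linarith)]); (try push_cast); (try ring1))
theorem kcl5 {p x : ℝ} (h1 : -6 / 25 ≤ p) (h2 : p ≤ -47 / 247) : kcg.v p x = (-41606964511 / 473931250000 + (x - 1 / 4) * (218058459761 / 189572500000)) + (-1732623634397 / 947862500000 + (x - 1 / 4) * (1853814834961 / 189572500000)) * p + (-2411031 / 1000000 + (x - 1 / 4) * (1170857 / 50000)) * p ^ 2 := by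
  simp only [kcg, kcg_3, kcg_6, kcg_9, kcg_12, kcg_13, kcg_16, kcg_27, kcg_35, kcg_38, kcg_47, kcg_55, kcg_56, kcg_59, kcg_67, kcg_74, kcg_75, kcg_79, kcg_87, kcg_92, kcg_96, kcg_106, kcg_116, kcg_119, kcg_120, kcg_124, kcg_135, kcg_140, kcg_145, kcg_155, kcg_163, kcg_164, kcg_169, kcg_178, kcg_186, kcg_191, kcg_201, kcg_206, kcg_211, kcg_219, kcg_220, kcg_221, kcg_244, kcg_255, kcg_276, kcg_277, kcg_296]
  rcases eq_or_lt_of_le h1 with h | h1
  · subst h
    ((try push_cast); (repeat first | rw [if_pos (by linarith)] | rw [if_neg (by linarith)] | erw [if_pos (by linarith)] | erw [if_neg (by linarith)]); (try push_cast); (try ring1))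
  rcases eq_or_lt_of_le h2 with h | h2
  · subst h
    ((try push_cast); (repeat first | rw [if_pos (by linarith)] | rw [if_neg (by linarith)] | erw [if_pos (by linarith)] | erw [if_neg (by linarith)]); (try push_cast); (try ring1))
  · ((try push_cast); (repeat first | rw [if_pos (by linarith)] | rw [if_neg (by linarith)] | erw [if_pos (by linarith)] | erw [if_neg (by linarith)]); (try push_cast); (try ring1))
theorem kcl6 {p x : ℝ} (h1 : -47 / 247 ≤ p) (h2 : p ≤ -29 / 200) : kcg.v p x = (-11399501747863 / 55253900000000 + (x - 1 / 4) * (1374778426029 / 1381347500000)) + (-169830915379563 / 55253900000000 + (x - 1 / 4) * (11257639008079 / 1381347500000)) * p + (-2842173 / 500000 + (x - 1 / 4) * (239209 / 12500)) * p ^ 2 := by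
  simp only [kcg, kcg_3, kcg_6, kcg_9, kcg_12, kcg_13, kcg_16, kcg_27, kcg_35, kcg_38, kcg_47, kcg_55, kcg_56, kcg_59, kcg_67, kcg_74, kcg_75, kcg_79, kcg_87, kcg_92, kcg_96, kcg_106, kcg_116, kcg_119, kcg_120, kcg_124, kcg_135, kcg_140, kcg_145, kcg_155, kcg_163, kcg_164, kcg_169, kcg_178, kcg_186, kcg_191, kcg_201, kcg_206, kcg_211, kcg_219, kcg_220, kcg_221, kcg_244, kcg_255, kcg_276, kcg_277, kcg_296]
  rcases eq_or_lt_of_le h1 with h | h1
  · subst h
    ((try push_cast); (repeat first | rw [if_pos (by linarith)] | rw [if_neg (by linarith)] | erw [if_pos (by linarith)] | erw [if_neg (by linarith)]); (try push_cast); (try ring1))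
  rcases eq_or_lt_of_le h2 with h | h2
  · subst h
    ((try push_cast); (repeat first | rw [if_pos (by linarith)] | rw [if_neg (by linarith)] | erw [if_pos (by linarith)] | erw [if_neg (by linarith)]); (try push_cast); (try ring1))
  · ((try push_cast); (repeat first | rw [if_pos (by linarith)] | rw [if_neg (by linarith)] | erw [if_pos (by linarith)] | erw [if_neg (by linarith)]); (try push_cast); (try ring1))
theorem kcl7 {p x : ℝ} (h1 : -29 / 200 ≤ p) (h2 : p ≤ -1 / 10) : kcg.v p x = (-3200881 / 1800000000 + (x - 1 / 4) * (-380389 / 2812500)) + (-45448861 / 180000000 + (x - 1 / 4) * (-4186943 / 562500)) * p + (404379 / 100000 + (x - 1 / 4) * (-21646 / 625)) * p ^ 2 := by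
  simp only [kcg, kcg_3, kcg_6, kcg_9, kcg_12, kcg_13, kcg_16, kcg_27, kcg_35, kcg_38, kcg_47, kcg_55, kcg_56, kcg_59, kcg_67, kcg_74, kcg_75, kcg_79, kcg_87, kcg_92, kcg_96, kcg_106, kcg_116, kcg_119, kcg_120, kcg_124, kcg_135, kcg_140, kcg_145, kcg_155, kcg_163, kcg_164, kcg_169, kcg_178, kcg_186, kcg_191, kcg_201, kcg_206, kcg_211, kcg_219, kcg_220, kcg_221, kcg_244, kcg_255, kcg_276, kcg_277, kcg_296]
  rcases eq_or_lt_of_le h1 with h | h1
  · subst h
    ((try push_cast); (repeat first | rw [if_pos (by linarith)] | rw [if_neg (by linarith)] | erw [if_pos (by linarith)] | erw [if_neg (by linarith)]); (try push_cast); (try ring1))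
  rcases eq_or_lt_of_le h2 with h | h2
  · subst h
    ((try push_cast); (repeat first | rw [if_pos (by linarith)] | rw [if_neg (by linarith)] | erw [if_pos (by linarith)] | erw [if_neg (by linarith)]); (try push_cast); (try ring1))
  · ((try push_cast); (repeat first | rw [if_pos (by linarith)] | rw [if_neg (by linarith)] | erw [if_pos (by linarith)] | erw [if_neg (by linarith)]); (try push_cast); (try ring1))
theorem kcl8 {p x : ℝ} (h1 : -1 / 10 ≤ p) (h2 : p ≤ -1 / 16) : kcg.v p x = (811789 / 30000000 + (x - 1 / 4) * (-1082511 / 8000000)) + (4863947 / 15000000 + (x - 1 / 4) * (-29777283 / 4000000)) * p + (432973 / 62500 + (x - 1 / 4) * (-1731791 / 50000)) * p ^ 2 := by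
  simp only [kcg, kcg_3, kcg_6, kcg_9, kcg_12, kcg_13, kcg_16, kcg_27, kcg_35, kcg_38, kcg_47, kcg_55, kcg_56, kcg_59, kcg_67, kcg_74, kcg_75, kcg_79, kcg_87, kcg_92, kcg_96, kcg_106, kcg_116, kcg_119, kcg_120, kcg_124, kcg_135, kcg_140, kcg_145, kcg_155, kcg_163, kcg_164, kcg_169, kcg_178, kcg_186, kcg_191, kcg_201, kcg_206, kcg_211, kcg_219, kcg_220, kcg_221, kcg_244, kcg_255, kcg_276, kcg_277, kcg_296]
  rcases eq_or_lt_of_le h1 with h | h1
  · subst h
    ((try push_cast); (repeat first | rw [if_pos (by linarith)] | rw [if_neg (by linarith)] | erw [if_pos (by linarith)] | erw [if_neg (by linarith)]); (try push_cast); (try ring1))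
  rcases eq_or_lt_of_le h2 with h | h2
  · subst h
    ((try push_cast); (repeat first | rw [if_pos (by linarith)] | rw [if_neg (by linarith)] | erw [if_pos (by linarith)] | erw [if_neg (by linarith)]); (try push_cast); (try ring1))
  · ((try push_cast); (repeat first | rw [if_pos (by linarith)] | rw [if_neg (by linarith)] | erw [if_pos (by linarith)] | erw [if_neg (by linarith)]); (try push_cast); (try ring1))
theorem kcl9 {p x : ℝ} (h1 : -1 / 16 ≤ p) (h2 : p ≤ 1 / 16) : kcg.v p x = (0) + (-16927 / 31250 + (x - 1 / 4) * (-9733 / 3125)) * p := by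
  simp only [kcg, kcg_3, kcg_6, kcg_9, kcg_12, kcg_13, kcg_16, kcg_27, kcg_35, kcg_38, kcg_47, kcg_55, kcg_56, kcg_59, kcg_67, kcg_74, kcg_75, kcg_79, kcg_87, kcg_92, kcg_96, kcg_106, kcg_116, kcg_119, kcg_120, kcg_124, kcg_135, kcg_140, kcg_145, kcg_155, kcg_163, kcg_164, kcg_169, kcg_178, kcg_186, kcg_191, kcg_201, kcg_206, kcg_211, kcg_219, kcg_220, kcg_221, kcg_244, kcg_255, kcg_276, kcg_277, kcg_296]
  rcases eq_or_lt_of_le h1 with h | h1
  · subst h
    ((try push_cast); (repeat first | rw [if_pos (by linarith)] | rw [if_neg (by linarith)] | erw [if_pos (by linarith)] | erw [if_neg (by linarith)]); (try push_cast); (try ring1))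
  rcases eq_or_lt_of_le h2 with h | h2
  · subst h
    ((try push_cast); (repeat first | rw [if_pos (by linarith)] | rw [if_neg (by linarith)] | erw [if_pos (by linarith)] | erw [if_neg (by linarith)]); (try push_cast); (try ring1))
  rcases lt_trichotomy p 0 with h | h | h
  · ((try push_cast); (repeat first | rw [if_pos (by linarith)] | rw [if_neg (by linarith)] | erw [if_pos (by linarith)] | erw [if_neg (by linarith)]); (try push_cast); (try ring1))
  · subst h
    ((try push_cast); (repeat first | rw [if_pos (by linarith)] | rw [if_neg (by linarith)] | erw [if_pos (by linarith)] | erw [if_neg (by linarith)]); (try push_cast); (try ring1))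
  · ((try push_cast); (repeat first | rw [if_pos (by linarith)] | rw [if_neg (by linarith)] | erw [if_pos (by linarith)] | erw [if_neg (by linarith)]); (try push_cast); (try ring1))
theorem kcl10 {p x : ℝ} (h1 : 1 / 16 ≤ p) (h2 : p ≤ 1 / 10) : kcg.v p x = (-811789 / 30000000 + (x - 1 / 4) * (1082511 / 8000000)) + (4863947 / 15000000 + (x - 1 / 4) * (-29777283 / 4000000)) * p + (-432973 / 62500 + (x - 1 / 4) * (1731791 / 50000)) * p ^ 2 := by
  simp only [kcg, kcg_3, kcg_6, kcg_9, kcg_12, kcg_13, kcg_16, kcg_27, kcg_35, kcg_38, kcg_47, kcg_55, kcg_56, kcg_59, kcg_67, kcg_74, kcg_75, kcg_79, kcg_87, kcg_92, kcg_96, kcg_106, kcg_116, kcg_119, kcg_120, kcg_124, kcg_135, kcg_140, kcg_145, kcg_155, kcg_163, kcg_164, kcg_169, kcg_178, kcg_186, kcg_191, kcg_201, kcg_206, kcg_211, kcg_219, kcg_220, kcg_221, kcg_244, kcg_255, kcg_276, kcg_277, kcg_296]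
  rcases eq_or_lt_of_le h1 with h | h1
  · subst h
    ((try push_cast); (repeat first | rw [if_pos (by linarith)] | rw [if_neg (by linarith)] | erw [if_pos (by linarith)] | erw [if_neg (by linarith)]); (try push_cast); (try ring1))
  rcases eq_or_lt_of_le h2 with h | h2
  · subst h
    ((try push_cast); (repeat first | rw [if_pos (by linarith)] | rw [if_neg (by linarith)] | erw [if_pos (by linarith)] | erw [if_neg (by linarith)]); (try push_cast); (try ring1))
  · ((try push_cast); (repeat first | rw [if_pos (by linarith)] | rw [if_neg (by linarith)] | erw [if_pos (by linarith)] | erw [if_neg (by linarith)]); (try push_cast); (try ring1))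
theorem kcl11 {p x : ℝ} (h1 : 1 / 10 ≤ p) (h2 : p ≤ 29 / 200) : kcg.v p x = (3200881 / 1800000000 + (x - 1 / 4) * (380389 / 2812500)) + (-45448861 / 180000000 + (x - 1 / 4) * (-4186943 / 562500)) * p + (-404379 / 100000 + (x - 1 / 4) * (21646 / 625)) * p ^ 2 := by
  simp only [kcg, kcg_3, kcg_6, kcg_9, kcg_12, kcg_13, kcg_16, kcg_27, kcg_35, kcg_38, kcg_47, kcg_55, kcg_56, kcg_59, kcg_67, kcg_74, kcg_75, kcg_79, kcg_87, kcg_92, kcg_96, kcg_106, kcg_116, kcg_119, kcg_120, kcg_124, kcg_135, kcg_140, kcg_145, kcg_155, kcg_163, kcg_164, kcg_169, kcg_178, kcg_186, kcg_191, kcg_201, kcg_206, kcg_211, kcg_219, kcg_220, kcg_221, kcg_244, kcg_255, kcg_276, kcg_277, kcg_296]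
  rcases eq_or_lt_of_le h1 with h | h1
  · subst h
    ((try push_cast); (repeat first | rw [if_pos (by linarith)] | rw [if_neg (by linarith)] | erw [if_pos (by linarith)] | erw [if_neg (by linarith)]); (try push_cast); (try ring1))
  rcases eq_or_lt_of_le h2 with h | h2
  · subst h
    ((try push_cast); (repeat first | rw [if_pos (by linarith)] | rw [if_neg (by linarith)] | erw [if_pos (by linarith)] | erw [if_neg (by linarith)]); (try push_cast); (try ring1))
  · ((try push_cast); (repeat first | rw [if_pos (by linarith)] | rw [if_neg (by linarith)] | erw [if_pos (by linarith)] | erw [if_neg (by linarith)]); (try push_cast); (try ring1))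
theorem kcl12 {p x : ℝ} (h1 : 29 / 200 ≤ p) (h2 : p ≤ 47 / 247) : kcg.v p x = (11399501747863 / 55253900000000 + (x - 1 / 4) * (-1374778426029 / 1381347500000)) + (-169830915379563 / 55253900000000 + (x - 1 / 4) * (11257639008079 / 1381347500000)) * p + (2842173 / 500000 + (x - 1 / 4) * (-239209 / 12500)) * p ^ 2 := by
  simp only [kcg, kcg_3, kcg_6, kcg_9, kcg_12, kcg_13, kcg_16, kcg_27, kcg_35, kcg_38, kcg_47, kcg_55, kcg_56, kcg_59, kcg_67, kcg_74, kcg_75, kcg_79, kcg_87, kcg_92, kcg_96, kcg_106, kcg_116, kcg_119, kcg_120, kcg_124, kcg_135, kcg_140, kcg_145, kcg_155, kcg_163, kcg_164, kcg_169, kcg_178, kcg_186, kcg_191, kcg_201, kcg_206, kcg_211, kcg_219, kcg_220, kcg_221, kcg_244, kcg_255, kcg_276, kcg_277, kcg_296]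
  rcases eq_or_lt_of_le h1 with h | h1
  · subst h
    ((try push_cast); (repeat first | rw [if_pos (by linarith)] | rw [if_neg (by linarith)] | erw [if_pos (by linarith)] | erw [if_neg (by linarith)]); (try push_cast); (try ring1))
  rcases eq_or_lt_of_le h2 with h | h2
  · subst h
    ((try push_cast); (repeat first | rw [if_pos (by linarith)] | rw [if_neg (by linarith)] | erw [if_pos (by linarith)] | erw [if_neg (by linarith)]); (try push_cast); (try ring1))
  · ((try push_cast); (repeat first | rw [if_pos (by linarith)] | rw [if_neg (by linarith)] | erw [if_pos (by linarith)] | erw [if_neg (by linarith)]); (try push_cast); (try ring1))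
theorem kcl13 {p x : ℝ} (h1 : 47 / 247 ≤ p) (h2 : p ≤ 6 / 25) : kcg.v p x = (41606964511 / 473931250000 + (x - 1 / 4) * (-218058459761 / 189572500000)) + (-1732623634397 / 947862500000 + (x - 1 / 4) * (1853814834961 / 189572500000)) * p + (2411031 / 1000000 + (x - 1 / 4) * (-1170857 / 50000)) * p ^ 2 := by
  simp only [kcg, kcg_3, kcg_6, kcg_9, kcg_12, kcg_13, kcg_16, kcg_27, kcg_35, kcg_38, kcg_47, kcg_55, kcg_56, kcg_59, kcg_67, kcg_74, kcg_75, kcg_79, kcg_87, kcg_92, kcg_96, kcg_106, kcg_116, kcg_119, kcg_120, kcg_124, kcg_135, kcg_140, kcg_145, kcg_155, kcg_163, kcg_164, kcg_169, kcg_178, kcg_186, kcg_191, kcg_201, kcg_206, kcg_211, kcg_219, kcg_220, kcg_221, kcg_244, kcg_255, kcg_276, kcg_277, kcg_296]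
  rcases eq_or_lt_of_le h1 with h | h1
  · subst h
    ((try push_cast); (repeat first | rw [if_pos (by linarith)] | rw [if_neg (by linarith)] | erw [if_pos (by linarith)] | erw [if_neg (by linarith)]); (try push_cast); (try ring1))
  rcases eq_or_lt_of_le h2 with h | h2
  · subst h
    ((try push_cast); (repeat first | rw [if_pos (by linarith)] | rw [if_neg (by linarith)] | erw [if_pos (by linarith)] | erw [if_neg (by linarith)]); (try push_cast); (try ring1))
  · ((try push_cast); (repeat first | rw [if_pos (by linarith)] | rw [if_neg (by linarith)] | erw [if_pos (by linarith)] | erw [if_neg (by linarith)]); (try push_cast); (try ring1))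
theorem kcl14 {p x : ℝ} (h1 : 6 / 25 ≤ p) (h2 : p ≤ 29 / 100) : kcg.v p x = (166916531 / 1250000000 + (x - 1 / 4) * (84509639 / 125000000)) + (-220912289 / 100000000 + (x - 1 / 4) * (-54404191 / 10000000)) * p + (3205213 / 1000000 + (x - 1 / 4) * (828947 / 100000)) * p ^ 2 := by
  simp only [kcg, kcg_3, kcg_6, kcg_9, kcg_12, kcg_13, kcg_16, kcg_27, kcg_35, kcg_38, kcg_47, kcg_55, kcg_56, kcg_59, kcg_67, kcg_74, kcg_75, kcg_79, kcg_87, kcg_92, kcg_96, kcg_106, kcg_116, kcg_119, kcg_120, kcg_124, kcg_135, kcg_140, kcg_145, kcg_155, kcg_163, kcg_164, kcg_169, kcg_178, kcg_186, kcg_191, kcg_201, kcg_206, kcg_211, kcg_219, kcg_220, kcg_221, kcg_244, kcg_255, kcg_276, kcg_277, kcg_296]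
  rcases eq_or_lt_of_le h1 with h | h1
  · subst h
    ((try push_cast); (repeat first | rw [if_pos (by linarith)] | rw [if_neg (by linarith)] | erw [if_pos (by linarith)] | erw [if_neg (by linarith)]); (try push_cast); (try ring1))
  rcases eq_or_lt_of_le h2 with h | h2
  · subst h
    ((try push_cast); (repeat first | rw [if_pos (by linarith)] | rw [if_neg (by linarith)] | erw [if_pos (by linarith)] | erw [if_neg (by linarith)]); (try push_cast); (try ring1))
  · ((try push_cast); (repeat first | rw [if_pos (by linarith)] | rw [if_neg (by linarith)] | erw [if_pos (by linarith)] | erw [if_neg (by linarith)]); (try push_cast); (try ring1))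
theorem kcl15 {p x : ℝ} (h1 : 29 / 100 ≤ p) (h2 : p ≤ 7 / 20) : kcg.v p x = (2898127 / 150000000 + (x - 1 / 4) * (345605881 / 200000000)) + (-10660801 / 7500000 + (x - 1 / 4) * (-15869241 / 1250000)) * p + (23089 / 12500 + (x - 1 / 4) * (2079827 / 100000)) * p ^ 2 := by
  simp only [kcg, kcg_3, kcg_6, kcg_9, kcg_12, kcg_13, kcg_16, kcg_27, kcg_35, kcg_38, kcg_47, kcg_55, kcg_56, kcg_59, kcg_67, kcg_74, kcg_75, kcg_79, kcg_87, kcg_92, kcg_96, kcg_106, kcg_116, kcg_119, kcg_120, kcg_124, kcg_135, kcg_140, kcg_145, kcg_155, kcg_163, kcg_164, kcg_169, kcg_178, kcg_186, kcg_191, kcg_201, kcg_206, kcg_211, kcg_219, kcg_220, kcg_221, kcg_244, kcg_255, kcg_276, kcg_277, kcg_296]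
  rcases eq_or_lt_of_le h1 with h | h1
  · subst h
    ((try push_cast); (repeat first | rw [if_pos (by linarith)] | rw [if_neg (by linarith)] | erw [if_pos (by linarith)] | erw [if_neg (by linarith)]); (try push_cast); (try ring1))
  rcases eq_or_lt_of_le h2 with h | h2
  · subst h
    ((try push_cast); (repeat first | rw [if_pos (by linarith)] | rw [if_neg (by linarith)] | erw [if_pos (by linarith)] | erw [if_neg (by linarith)]); (try push_cast); (try ring1))
  · ((try push_cast); (repeat first | rw [if_pos (by linarith)] | rw [if_neg (by linarith)] | erw [if_pos (by linarith)] | erw [if_neg (by linarith)]); (try push_cast); (try ring1))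
theorem kcl16 {p x : ℝ} (h1 : 7 / 20 ≤ p) (h2 : p ≤ 37 / 91) : kcg.v p x = (9131228617 / 26780000000 + (x - 1 / 4) * (858844277 / 1339000000)) + (-611016068457 / 187460000000 + (x - 1 / 4) * (-60794613707 / 9373000000)) * p + (4472847 / 1000000 + (x - 1 / 4) * (596397 / 50000)) * p ^ 2 := by
  simp only [kcg, kcg_3, kcg_6, kcg_9, kcg_12, kcg_13, kcg_16, kcg_27, kcg_35, kcg_38, kcg_47, kcg_55, kcg_56, kcg_59, kcg_67, kcg_74, kcg_75, kcg_79, kcg_87, kcg_92, kcg_96, kcg_106, kcg_116, kcg_119, kcg_120, kcg_124, kcg_135, kcg_140, kcg_145, kcg_155, kcg_163, kcg_164, kcg_169, kcg_178, kcg_186, kcg_191, kcg_201, kcg_206, kcg_211, kcg_219, kcg_220, kcg_221, kcg_244, kcg_255, kcg_276, kcg_277, kcg_296]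
  rcases eq_or_lt_of_le h1 with h | h1
  · subst h
    ((try push_cast); (repeat first | rw [if_pos (by linarith)] | rw [if_neg (by linarith)] | erw [if_pos (by linarith)] | erw [if_neg (by linarith)]); (try push_cast); (try ring1))
  rcases eq_or_lt_of_le h2 with h | h2
  · subst h
    ((try push_cast); (repeat first | rw [if_pos (by linarith)] | rw [if_neg (by linarith)] | erw [if_pos (by linarith)] | erw [if_neg (by linarith)]); (try push_cast); (try ring1))
  · ((try push_cast); (repeat first | rw [if_pos (by linarith)] | rw [if_neg (by linarith)] | erw [if_pos (by linarith)] | erw [if_neg (by linarith)]); (try push_cast); (try ring1))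
theorem kcl17 {p x : ℝ} (h1 : 37 / 91 ≤ p) (h2 : p ≤ 7 / 16) : kcg.v p x = (-6279401213 / 9360000000 + (x - 1 / 4) * (3761229103 / 936000000)) + (112546914293 / 65520000000 + (x - 1 / 4) * (-151332801943 / 6552000000)) * p + (-1647757 / 1000000 + (x - 1 / 4) * (3235487 / 100000)) * p ^ 2 := by
  simp only [kcg, kcg_3, kcg_6, kcg_9, kcg_12, kcg_13, kcg_16, kcg_27, kcg_35, kcg_38, kcg_47, kcg_55, kcg_56, kcg_59, kcg_67, kcg_74, kcg_75, kcg_79, kcg_87, kcg_92, kcg_96, kcg_106, kcg_116, kcg_119, kcg_120, kcg_124, kcg_135, kcg_140, kcg_145, kcg_155, kcg_163, kcg_164, kcg_169, kcg_178, kcg_186, kcg_191, kcg_201, kcg_206, kcg_211, kcg_219, kcg_220, kcg_221, kcg_244, kcg_255, kcg_276, kcg_277, kcg_296]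
  rcases eq_or_lt_of_le h1 with h | h1
  · subst h
    ((try push_cast); (repeat first | rw [if_pos (by linarith)] | rw [if_neg (by linarith)] | erw [if_pos (by linarith)] | erw [if_neg (by linarith)]); (try push_cast); (try ring1))
  rcases eq_or_lt_of_le h2 with h | h2
  · subst h
    ((try push_cast); (repeat first | rw [if_pos (by linarith)] | rw [if_neg (by linarith)] | erw [if_pos (by linarith)] | erw [if_neg (by linarith)]); (try push_cast); (try ring1))
  · ((try push_cast); (repeat first | rw [if_pos (by linarith)] | rw [if_neg (by linarith)] | erw [if_pos (by linarith)] | erw [if_neg (by linarith)]); (try push_cast); (try ring1))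
theorem kcl18 {p x : ℝ} (h1 : 7 / 16 ≤ p) (h2 : p ≤ 1 / 2) : kcg.v p x = (-7956263 / 16000000 + (x - 1 / 4) * (-2818013 / 800000)) + (7392847 / 8000000 + (x - 1 / 4) * (4550197 / 400000)) * p + (-370369 / 500000 + (x - 1 / 4) * (-176059 / 25000)) * p ^ 2 := by
  simp only [kcg, kcg_3, kcg_6, kcg_9, kcg_12, kcg_13, kcg_16, kcg_27, kcg_35, kcg_38, kcg_47, kcg_55, kcg_56, kcg_59, kcg_67, kcg_74, kcg_75, kcg_79, kcg_87, kcg_92, kcg_96, kcg_106, kcg_116, kcg_119, kcg_120, kcg_124, kcg_135, kcg_140, kcg_145, kcg_155, kcg_163, kcg_164, kcg_169, kcg_178, kcg_186, kcg_191, kcg_201, kcg_206, kcg_211, kcg_219, kcg_220, kcg_221, kcg_244, kcg_255, kcg_276, kcg_277, kcg_296]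
  rcases eq_or_lt_of_le h1 with h | h1
  · subst h
    ((try push_cast); (repeat first | rw [if_pos (by linarith)] | rw [if_neg (by linarith)] | erw [if_pos (by linarith)] | erw [if_neg (by linarith)]); (try push_cast); (try ring1))
  rcases eq_or_lt_of_le h2 with h | h2
  · subst h
    ((try push_cast); (repeat first | rw [if_pos (by linarith)] | rw [if_neg (by linarith)] | erw [if_pos (by linarith)] | erw [if_neg (by linarith)]); (try push_cast); (try ring1))
  · ((try push_cast); (repeat first | rw [if_pos (by linarith)] | rw [if_neg (by linarith)] | erw [if_pos (by linarith)] | erw [if_neg (by linarith)]); (try push_cast); (try ring1))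
theorem kvh0 {p x : ℝ} (h2 : p ≤ -7 / 16) : dt37.kv p x = (7956263 / 16000000 + (x - 1 / 4) * (2818013 / 800000)) + (7392847 / 8000000 + (x - 1 / 4) * (4550197 / 400000)) * p + (370369 / 500000 + (x - 1 / 4) * (176059 / 25000)) * p ^ 2 := by
  refine (DT.kv_le (by simp only [Cn.rt_v, Cn.ng_v]; push_cast; linarith)).trans ?_
  refine (DT.kv_le (by simp only [Cn.rt_v, Cn.ng_v]; push_cast; linarith)).trans ?_
  refine (DT.kv_le (by simp only [Cn.rt_v, Cn.ng_v]; push_cast; linarith)).trans ?_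
  refine (DT.kv_le (by simp only [Cn.rt_v, Cn.ng_v]; push_cast; linarith)).trans ?_
  simp only [dt1, DT.kv, sw1, sl1, sv1]
  ((try push_cast); ring1)
theorem kvh1 {p x : ℝ} (h1 : -7 / 16 < p) (h2 : p ≤ -37 / 91) : dt37.kv p x = (6279401213 / 9360000000 + (x - 1 / 4) * (-3761229103 / 936000000)) + (112546914293 / 65520000000 + (x - 1 / 4) * (-151332801943 / 6552000000)) * p + (1647757 / 1000000 + (x - 1 / 4) * (-3235487 / 100000)) * p ^ 2 := by
  refine (DT.kv_le (by simp only [Cn.rt_v, Cn.ng_v]; push_cast; linarith)).trans ?_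
  refine (DT.kv_le (by simp only [Cn.rt_v, Cn.ng_v]; push_cast; linarith)).trans ?_
  refine (DT.kv_le (by simp only [Cn.rt_v, Cn.ng_v]; push_cast; linarith)).trans ?_
  refine (DT.kv_gt (by simp only [Cn.rt_v, Cn.ng_v]; push_cast; linarith)).trans ?_
  simp only [dt2, DT.kv, sw2, sl2, sv2]
  ((try push_cast); ring1)
theorem kvh2 {p x : ℝ} (h1 : -37 / 91 < p) (h2 : p ≤ -7 / 20) : dt37.kv p x = (-9131228617 / 26780000000 + (x - 1 / 4) * (-858844277 / 1339000000)) + (-611016068457 / 187460000000 + (x - 1 / 4) * (-60794613707 / 9373000000)) * p + (-4472847 / 1000000 + (x - 1 / 4) * (-596397 / 50000)) * p ^ 2 := by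
  refine (DT.kv_le (by simp only [Cn.rt_v, Cn.ng_v]; push_cast; linarith)).trans ?_
  refine (DT.kv_le (by simp only [Cn.rt_v, Cn.ng_v]; push_cast; linarith)).trans ?_
  refine (DT.kv_gt (by simp only [Cn.rt_v, Cn.ng_v]; push_cast; linarith)).trans ?_
  refine (DT.kv_le (by simp only [Cn.rt_v, Cn.ng_v]; push_cast; linarith)).trans ?_
  simp only [dt3, DT.kv, sw3, sl3, sv3]
  ((try push_cast); ring1)
theorem kvh3 {p x : ℝ} (h1 : -7 / 20 < p) (h2 : p ≤ -29 / 100) : dt37.kv p x = (-2898127 / 150000000 + (x - 1 / 4) * (-345605881 / 200000000)) + (-10660801 / 7500000 + (x - 1 / 4) * (-15869241 / 1250000)) * p + (-23089 / 12500 + (x - 1 / 4) * (-2079827 / 100000)) * p ^ 2 := by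
  refine (DT.kv_le (by simp only [Cn.rt_v, Cn.ng_v]; push_cast; linarith)).trans ?_
  refine (DT.kv_le (by simp only [Cn.rt_v, Cn.ng_v]; push_cast; linarith)).trans ?_
  refine (DT.kv_gt (by simp only [Cn.rt_v, Cn.ng_v]; push_cast; linarith)).trans ?_
  refine (DT.kv_gt (by simp only [Cn.rt_v, Cn.ng_v]; push_cast; linarith)).trans ?_
  simp only [dt4, DT.kv, sw4, sl4, sv4]
  ((try push_cast); ring1)
theorem kvh4 {p x : ℝ} (h1 : -29 / 100 < p) (h2 : p ≤ -6 / 25) : dt37.kv p x = (-166916531 / 1250000000 + (x - 1 / 4) * (-84509639 / 125000000)) + (-220912289 / 100000000 + (x - 1 / 4) * (-54404191 / 10000000)) * p + (-3205213 / 1000000 + (x - 1 / 4) * (-828947 / 100000)) * p ^ 2 := by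
  refine (DT.kv_le (by simp only [Cn.rt_v, Cn.ng_v]; push_cast; linarith)).trans ?_
  refine (DT.kv_gt (by simp only [Cn.rt_v, Cn.ng_v]; push_cast; linarith)).trans ?_
  refine (DT.kv_le (by simp only [Cn.rt_v, Cn.ng_v]; push_cast; linarith)).trans ?_
  refine (DT.kv_le (by simp only [Cn.rt_v, Cn.ng_v]; push_cast; linarith)).trans ?_
  simp only [dt5, DT.kv, sw5, sl5, sv5]
  ((try push_cast); ring1)
theorem kvh5 {p x : ℝ} (h1 : -6 / 25 < p) (h2 : p ≤ -47 / 247) : dt37.kv p x = (-41606964511 / 473931250000 + (x - 1 / 4) * (218058459761 / 189572500000)) + (-1732623634397 / 947862500000 + (x - 1 / 4) * (1853814834961 / 189572500000)) * p + (-2411031 / 1000000 + (x - 1 / 4) * (1170857 / 50000)) * p ^ 2 := by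
  refine (DT.kv_le (by simp only [Cn.rt_v, Cn.ng_v]; push_cast; linarith)).trans ?_
  refine (DT.kv_gt (by simp only [Cn.rt_v, Cn.ng_v]; push_cast; linarith)).trans ?_
  refine (DT.kv_le (by simp only [Cn.rt_v, Cn.ng_v]; push_cast; linarith)).trans ?_
  refine (DT.kv_gt (by simp only [Cn.rt_v, Cn.ng_v]; push_cast; linarith)).trans ?_
  simp only [dt6, DT.kv, sw6, sl6, sv6]
  ((try push_cast); ring1)
theorem kvh6 {p x : ℝ} (h1 : -47 / 247 < p) (h2 : p ≤ -29 / 200) : dt37.kv p x = (-11399501747863 / 55253900000000 + (x - 1 / 4) * (1374778426029 / 1381347500000)) + (-169830915379563 / 55253900000000 + (x - 1 / 4) * (11257639008079 / 1381347500000)) * p + (-2842173 / 500000 + (x - 1 / 4) * (239209 / 12500)) * p ^ 2 := by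
  refine (DT.kv_le (by simp only [Cn.rt_v, Cn.ng_v]; push_cast; linarith)).trans ?_
  refine (DT.kv_gt (by simp only [Cn.rt_v, Cn.ng_v]; push_cast; linarith)).trans ?_
  refine (DT.kv_gt (by simp only [Cn.rt_v, Cn.ng_v]; push_cast; linarith)).trans ?_
  refine (DT.kv_le (by simp only [Cn.rt_v, Cn.ng_v]; push_cast; linarith)).trans ?_
  simp only [dt7, DT.kv, sw7, sl7, sv7]
  ((try push_cast); ring1)
theorem kvh7 {p x : ℝ} (h1 : -29 / 200 < p) (h2 : p ≤ -1 / 10) : dt37.kv p x = (-3200881 / 1800000000 + (x - 1 / 4) * (-380389 / 2812500)) + (-45448861 / 180000000 + (x - 1 / 4) * (-4186943 / 562500)) * p + (404379 / 100000 + (x - 1 / 4) * (-21646 / 625)) * p ^ 2 := by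
  refine (DT.kv_le (by simp only [Cn.rt_v, Cn.ng_v]; push_cast; linarith)).trans ?_
  refine (DT.kv_gt (by simp only [Cn.rt_v, Cn.ng_v]; push_cast; linarith)).trans ?_
  refine (DT.kv_gt (by simp only [Cn.rt_v, Cn.ng_v]; push_cast; linarith)).trans ?_
  refine (DT.kv_gt (by simp only [Cn.rt_v, Cn.ng_v]; push_cast; linarith)).trans ?_
  refine (DT.kv_le (by simp only [Cn.rt_v, Cn.ng_v]; push_cast; linarith)).trans ?_
  simp only [dt8, DT.kv, sw8, sl8, sv8]
  ((try push_cast); ring1)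
theorem kvh8 {p x : ℝ} (h1 : -1 / 10 < p) (h2 : p ≤ -1 / 16) : dt37.kv p x = (811789 / 30000000 + (x - 1 / 4) * (-1082511 / 8000000)) + (4863947 / 15000000 + (x - 1 / 4) * (-29777283 / 4000000)) * p + (432973 / 62500 + (x - 1 / 4) * (-1731791 / 50000)) * p ^ 2 := by
  refine (DT.kv_le (by simp only [Cn.rt_v, Cn.ng_v]; push_cast; linarith)).trans ?_
  refine (DT.kv_gt (by simp only [Cn.rt_v, Cn.ng_v]; push_cast; linarith)).trans ?_
  refine (DT.kv_gt (by simp only [Cn.rt_v, Cn.ng_v]; push_cast; linarith)).trans ?_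
  refine (DT.kv_gt (by simp only [Cn.rt_v, Cn.ng_v]; push_cast; linarith)).trans ?_
  refine (DT.kv_gt (by simp only [Cn.rt_v, Cn.ng_v]; push_cast; linarith)).trans ?_
  simp only [dt9, DT.kv, sw9, sl9, sv9]
  ((try push_cast); ring1)
theorem kvh9 {p x : ℝ} (h1 : -1 / 16 < p) (h2 : p ≤ 1 / 16) : dt37.kv p x = (0) + (-16927 / 31250 + (x - 1 / 4) * (-9733 / 3125)) * p := by
  refine (DT.kv_gt (by simp only [Cn.rt_v, Cn.ng_v]; push_cast; linarith)).trans ?_
  refine (DT.kv_le (by simp only [Cn.rt_v, Cn.ng_v]; push_cast; linarith)).trans ?_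
  refine (DT.kv_le (by simp only [Cn.rt_v, Cn.ng_v]; push_cast; linarith)).trans ?_
  refine (DT.kv_le (by simp only [Cn.rt_v, Cn.ng_v]; push_cast; linarith)).trans ?_
  simp only [dt10, DT.kv, sl10, sv10]
  ((try push_cast); ring1)
theorem kvh10 {p x : ℝ} (h1 : 1 / 16 < p) (h2 : p ≤ 1 / 10) : dt37.kv p x = (-811789 / 30000000 + (x - 1 / 4) * (1082511 / 8000000)) + (4863947 / 15000000 + (x - 1 / 4) * (-29777283 / 4000000)) * p + (-432973 / 62500 + (x - 1 / 4) * (1731791 / 50000)) * p ^ 2 := by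
  refine (DT.kv_gt (by simp only [Cn.rt_v, Cn.ng_v]; push_cast; linarith)).trans ?_
  refine (DT.kv_le (by simp only [Cn.rt_v, Cn.ng_v]; push_cast; linarith)).trans ?_
  refine (DT.kv_le (by simp only [Cn.rt_v, Cn.ng_v]; push_cast; linarith)).trans ?_
  refine (DT.kv_gt (by simp only [Cn.rt_v, Cn.ng_v]; push_cast; linarith)).trans ?_
  simp only [dt11, DT.kv, sw11, sl11, sv11]
  ((try push_cast); ring1)
theorem kvh11 {p x : ℝ} (h1 : 1 / 10 < p) (h2 : p ≤ 29 / 200) : dt37.kv p x = (3200881 / 1800000000 + (x - 1 / 4) * (380389 / 2812500)) + (-45448861 / 180000000 + (x - 1 / 4) * (-4186943 / 562500)) * p + (-404379 / 100000 + (x - 1 / 4) * (21646 / 625)) * p ^ 2 := by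
  refine (DT.kv_gt (by simp only [Cn.rt_v, Cn.ng_v]; push_cast; linarith)).trans ?_
  refine (DT.kv_le (by simp only [Cn.rt_v, Cn.ng_v]; push_cast; linarith)).trans ?_
  refine (DT.kv_gt (by simp only [Cn.rt_v, Cn.ng_v]; push_cast; linarith)).trans ?_
  refine (DT.kv_le (by simp only [Cn.rt_v, Cn.ng_v]; push_cast; linarith)).trans ?_
  simp only [dt12, DT.kv, sw12, sl12, sv12]
  ((try push_cast); ring1)
theorem kvh12 {p x : ℝ} (h1 : 29 / 200 < p) (h2 : p ≤ 47 / 247) : dt37.kv p x = (11399501747863 / 55253900000000 + (x - 1 / 4) * (-1374778426029 / 1381347500000)) + (-169830915379563 / 55253900000000 + (x - 1 / 4) * (11257639008079 / 1381347500000)) * p + (2842173 / 500000 + (x - 1 / 4) * (-239209 / 12500)) * p ^ 2 := by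
  refine (DT.kv_gt (by simp only [Cn.rt_v, Cn.ng_v]; push_cast; linarith)).trans ?_
  refine (DT.kv_le (by simp only [Cn.rt_v, Cn.ng_v]; push_cast; linarith)).trans ?_
  refine (DT.kv_gt (by simp only [Cn.rt_v, Cn.ng_v]; push_cast; linarith)).trans ?_
  refine (DT.kv_gt (by simp only [Cn.rt_v, Cn.ng_v]; push_cast; linarith)).trans ?_
  refine (DT.kv_le (by simp only [Cn.rt_v, Cn.ng_v]; push_cast; linarith)).trans ?_
  simp only [dt13, DT.kv, sw13, sl13, sv13]
  ((try push_cast); ring1)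
theorem kvh13 {p x : ℝ} (h1 : 47 / 247 < p) (h2 : p ≤ 6 / 25) : dt37.kv p x = (41606964511 / 473931250000 + (x - 1 / 4) * (-218058459761 / 189572500000)) + (-1732623634397 / 947862500000 + (x - 1 / 4) * (1853814834961 / 189572500000)) * p + (2411031 / 1000000 + (x - 1 / 4) * (-1170857 / 50000)) * p ^ 2 := by
  refine (DT.kv_gt (by simp only [Cn.rt_v, Cn.ng_v]; push_cast; linarith)).trans ?_
  refine (DT.kv_le (by simp only [Cn.rt_v, Cn.ng_v]; push_cast; linarith)).trans ?_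
  refine (DT.kv_gt (by simp only [Cn.rt_v, Cn.ng_v]; push_cast; linarith)).trans ?_
  refine (DT.kv_gt (by simp only [Cn.rt_v, Cn.ng_v]; push_cast; linarith)).trans ?_
  refine (DT.kv_gt (by simp only [Cn.rt_v, Cn.ng_v]; push_cast; linarith)).trans ?_
  simp only [dt14, DT.kv, sw14, sl14, sv14]
  ((try push_cast); ring1)
theorem kvh14 {p x : ℝ} (h1 : 6 / 25 < p) (h2 : p ≤ 29 / 100) : dt37.kv p x = (166916531 / 1250000000 + (x - 1 / 4) * (84509639 / 125000000)) + (-220912289 / 100000000 + (x - 1 / 4) * (-54404191 / 10000000)) * p + (3205213 / 1000000 + (x - 1 / 4) * (828947 / 100000)) * p ^ 2 := by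
  refine (DT.kv_gt (by simp only [Cn.rt_v, Cn.ng_v]; push_cast; linarith)).trans ?_
  refine (DT.kv_gt (by simp only [Cn.rt_v, Cn.ng_v]; push_cast; linarith)).trans ?_
  refine (DT.kv_le (by simp only [Cn.rt_v, Cn.ng_v]; push_cast; linarith)).trans ?_
  refine (DT.kv_le (by simp only [Cn.rt_v, Cn.ng_v]; push_cast; linarith)).trans ?_
  simp only [dt15, DT.kv, sw15, sl15, sv15]
  ((try push_cast); ring1)
theorem kvh15 {p x : ℝ} (h1 : 29 / 100 < p) (h2 : p ≤ 7 / 20) : dt37.kv p x = (2898127 / 150000000 + (x - 1 / 4) * (345605881 / 200000000)) + (-10660801 / 7500000 + (x - 1 / 4) * (-15869241 / 1250000)) * p + (23089 / 12500 + (x - 1 / 4) * (2079827 / 100000)) * p ^ 2 := by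
  refine (DT.kv_gt (by simp only [Cn.rt_v, Cn.ng_v]; push_cast; linarith)).trans ?_
  refine (DT.kv_gt (by simp only [Cn.rt_v, Cn.ng_v]; push_cast; linarith)).trans ?_
  refine (DT.kv_le (by simp only [Cn.rt_v, Cn.ng_v]; push_cast; linarith)).trans ?_
  refine (DT.kv_gt (by simp only [Cn.rt_v, Cn.ng_v]; push_cast; linarith)).trans ?_
  simp only [dt16, DT.kv, sw16, sl16, sv16]
  ((try push_cast); ring1)
theorem kvh16 {p x : ℝ} (h1 : 7 / 20 < p) (h2 : p ≤ 37 / 91) : dt37.kv p x = (9131228617 / 26780000000 + (x - 1 / 4) * (858844277 / 1339000000)) + (-611016068457 / 187460000000 + (x - 1 / 4) * (-60794613707 / 9373000000)) * p + (4472847 / 1000000 + (x - 1 / 4) * (596397 / 50000)) * p ^ 2 := by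
  refine (DT.kv_gt (by simp only [Cn.rt_v, Cn.ng_v]; push_cast; linarith)).trans ?_
  refine (DT.kv_gt (by simp only [Cn.rt_v, Cn.ng_v]; push_cast; linarith)).trans ?_
  refine (DT.kv_gt (by simp only [Cn.rt_v, Cn.ng_v]; push_cast; linarith)).trans ?_
  refine (DT.kv_le (by simp only [Cn.rt_v, Cn.ng_v]; push_cast; linarith)).trans ?_
  simp only [dt17, DT.kv, sw17, sl17, sv17]
  ((try push_cast); ring1)
theorem kvh17 {p x : ℝ} (h1 : 37 / 91 < p) (h2 : p ≤ 7 / 16) : dt37.kv p x = (-6279401213 / 9360000000 + (x - 1 / 4) * (3761229103 / 936000000)) + (112546914293 / 65520000000 + (x - 1 / 4) * (-151332801943 / 6552000000)) * p + (-1647757 / 1000000 + (x - 1 / 4) * (3235487 / 100000)) * p ^ 2 := by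
  refine (DT.kv_gt (by simp only [Cn.rt_v, Cn.ng_v]; push_cast; linarith)).trans ?_
  refine (DT.kv_gt (by simp only [Cn.rt_v, Cn.ng_v]; push_cast; linarith)).trans ?_
  refine (DT.kv_gt (by simp only [Cn.rt_v, Cn.ng_v]; push_cast; linarith)).trans ?_
  refine (DT.kv_gt (by simp only [Cn.rt_v, Cn.ng_v]; push_cast; linarith)).trans ?_
  refine (DT.kv_le (by simp only [Cn.rt_v, Cn.ng_v]; push_cast; linarith)).trans ?_
  simp only [dt18, DT.kv, sw18, sl18, sv18]
  ((try push_cast); ring1)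
theorem kvh18 {p x : ℝ} (h1 : 7 / 16 < p) (h2 : p ≤ 1 / 2) : dt37.kv p x = (-7956263 / 16000000 + (x - 1 / 4) * (-2818013 / 800000)) + (7392847 / 8000000 + (x - 1 / 4) * (4550197 / 400000)) * p + (-370369 / 500000 + (x - 1 / 4) * (-176059 / 25000)) * p ^ 2 := by
  refine (DT.kv_gt (by simp only [Cn.rt_v, Cn.ng_v]; push_cast; linarith)).trans ?_
  refine (DT.kv_gt (by simp only [Cn.rt_v, Cn.ng_v]; push_cast; linarith)).trans ?_
  refine (DT.kv_gt (by simp only [Cn.rt_v, Cn.ng_v]; push_cast; linarith)).trans ?_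
  refine (DT.kv_gt (by simp only [Cn.rt_v, Cn.ng_v]; push_cast; linarith)).trans ?_
  refine (DT.kv_gt (by simp only [Cn.rt_v, Cn.ng_v]; push_cast; linarith)).trans ?_
  simp only [dt19, DT.kv, sw19, sl19, sv19]
  ((try push_cast); ring1)
theorem kvl0 {p x : ℝ} (h1 : -1 / 2 ≤ p) (h2 : p ≤ -7 / 16) : dt37.kv p x = (7956263 / 16000000 + (x - 1 / 4) * (2818013 / 800000)) + (7392847 / 8000000 + (x - 1 / 4) * (4550197 / 400000)) * p + (370369 / 500000 + (x - 1 / 4) * (176059 / 25000)) * p ^ 2 := by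
  exact kvh0 h2
theorem kvl1 {p x : ℝ} (h1 : -7 / 16 ≤ p) (h2 : p ≤ -37 / 91) : dt37.kv p x = (6279401213 / 9360000000 + (x - 1 / 4) * (-3761229103 / 936000000)) + (112546914293 / 65520000000 + (x - 1 / 4) * (-151332801943 / 6552000000)) * p + (1647757 / 1000000 + (x - 1 / 4) * (-3235487 / 100000)) * p ^ 2 := by
  rcases eq_or_lt_of_le h1 with h | h1
  · subst h
    rw [kvh0 (by norm_num)]
    ring1
  · exact kvh1 h1 h2
theorem kvl2 {p x : ℝ} (h1 : -37 / 91 ≤ p) (h2 : p ≤ -7 / 20) : dt37.kv p x = (-9131228617 / 26780000000 + (x - 1 / 4) * (-858844277 / 1339000000)) + (-611016068457 / 187460000000 + (x - 1 / 4) * (-60794613707 / 9373000000)) * p + (-4472847 / 1000000 + (x - 1 / 4) * (-596397 / 50000)) * p ^ 2 := by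
  rcases eq_or_lt_of_le h1 with h | h1
  · subst h
    rw [kvh1 (by norm_num) (by norm_num)]
    ring1
  · exact kvh2 h1 h2
theorem kvl3 {p x : ℝ} (h1 : -7 / 20 ≤ p) (h2 : p ≤ -29 / 100) : dt37.kv p x = (-2898127 / 150000000 + (x - 1 / 4) * (-345605881 / 200000000)) + (-10660801 / 7500000 + (x - 1 / 4) * (-15869241 / 1250000)) * p + (-23089 / 12500 + (x - 1 / 4) * (-2079827 / 100000)) * p ^ 2 := by
  rcases eq_or_lt_of_le h1 with h | h1
  · subst h
    rw [kvh2 (by norm_num) (by norm_num)]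
    ring1
  · exact kvh3 h1 h2
theorem kvl4 {p x : ℝ} (h1 : -29 / 100 ≤ p) (h2 : p ≤ -6 / 25) : dt37.kv p x = (-166916531 / 1250000000 + (x - 1 / 4) * (-84509639 / 125000000)) + (-220912289 / 100000000 + (x - 1 / 4) * (-54404191 / 10000000)) * p + (-3205213 / 1000000 + (x - 1 / 4) * (-828947 / 100000)) * p ^ 2 := by
  rcases eq_or_lt_of_le h1 with h | h1
  · subst h
    rw [kvh3 (by norm_num) (by norm_num)]
    ring1
  · exact kvh4 h1 h2
theorem kvl5 {p x : ℝ} (h1 : -6 / 25 ≤ p) (h2 : p ≤ -47 / 247) : dt37.kv p x = (-41606964511 / 473931250000 + (x - 1 / 4) * (218058459761 / 189572500000)) + (-1732623634397 / 947862500000 + (x - 1 / 4) * (1853814834961 / 189572500000)) * p + (-2411031 / 1000000 + (x - 1 / 4) * (1170857 / 50000)) * p ^ 2 := by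
  rcases eq_or_lt_of_le h1 with h | h1
  · subst h
    rw [kvh4 (by norm_num) (by norm_num)]
    ring1
  · exact kvh5 h1 h2
theorem kvl6 {p x : ℝ} (h1 : -47 / 247 ≤ p) (h2 : p ≤ -29 / 200) : dt37.kv p x = (-11399501747863 / 55253900000000 + (x - 1 / 4) * (1374778426029 / 1381347500000)) + (-169830915379563 / 55253900000000 + (x - 1 / 4) * (11257639008079 / 1381347500000)) * p + (-2842173 / 500000 + (x - 1 / 4) * (239209 / 12500)) * p ^ 2 := by
  rcases eq_or_lt_of_le h1 with h | h1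
  · subst h
    rw [kvh5 (by norm_num) (by norm_num)]
    ring1
  · exact kvh6 h1 h2
theorem kvl7 {p x : ℝ} (h1 : -29 / 200 ≤ p) (h2 : p ≤ -1 / 10) : dt37.kv p x = (-3200881 / 1800000000 + (x - 1 / 4) * (-380389 / 2812500)) + (-45448861 / 180000000 + (x - 1 / 4) * (-4186943 / 562500)) * p + (404379 / 100000 + (x - 1 / 4) * (-21646 / 625)) * p ^ 2 := by
  rcases eq_or_lt_of_le h1 with h | h1
  · subst h
    rw [kvh6 (by norm_num) (by norm_num)]
    ring1
  · exact kvh7 h1 h2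
theorem kvl8 {p x : ℝ} (h1 : -1 / 10 ≤ p) (h2 : p ≤ -1 / 16) : dt37.kv p x = (811789 / 30000000 + (x - 1 / 4) * (-1082511 / 8000000)) + (4863947 / 15000000 + (x - 1 / 4) * (-29777283 / 4000000)) * p + (432973 / 62500 + (x - 1 / 4) * (-1731791 / 50000)) * p ^ 2 := by
  rcases eq_or_lt_of_le h1 with h | h1
  · subst h
    rw [kvh7 (by norm_num) (by norm_num)]
    ring1
  · exact kvh8 h1 h2
theorem kvl9 {p x : ℝ} (h1 : -1 / 16 ≤ p) (h2 : p ≤ 1 / 16) : dt37.kv p x = (0) + (-16927 / 31250 + (x - 1 / 4) * (-9733 / 3125)) * p := by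
  rcases eq_or_lt_of_le h1 with h | h1
  · subst h
    rw [kvh8 (by norm_num) (by norm_num)]
    ring1
  · exact kvh9 h1 h2
theorem kvl10 {p x : ℝ} (h1 : 1 / 16 ≤ p) (h2 : p ≤ 1 / 10) : dt37.kv p x = (-811789 / 30000000 + (x - 1 / 4) * (1082511 / 8000000)) + (4863947 / 15000000 + (x - 1 / 4) * (-29777283 / 4000000)) * p + (-432973 / 62500 + (x - 1 / 4) * (1731791 / 50000)) * p ^ 2 := by
  rcases eq_or_lt_of_le h1 with h | h1
  · subst h
    rw [kvh9 (by norm_num) (by norm_num)]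
    ring1
  · exact kvh10 h1 h2
theorem kvl11 {p x : ℝ} (h1 : 1 / 10 ≤ p) (h2 : p ≤ 29 / 200) : dt37.kv p x = (3200881 / 1800000000 + (x - 1 / 4) * (380389 / 2812500)) + (-45448861 / 180000000 + (x - 1 / 4) * (-4186943 / 562500)) * p + (-404379 / 100000 + (x - 1 / 4) * (21646 / 625)) * p ^ 2 := by
  rcases eq_or_lt_of_le h1 with h | h1
  · subst h
    rw [kvh10 (by norm_num) (by norm_num)]
    ring1
  · exact kvh11 h1 h2
theorem kvl12 {p x : ℝ} (h1 : 29 / 200 ≤ p) (h2 : p ≤ 47 / 247) : dt37.kv p x = (11399501747863 / 55253900000000 + (x - 1 / 4) * (-1374778426029 / 1381347500000)) + (-169830915379563 / 55253900000000 + (x - 1 / 4) * (11257639008079 / 1381347500000)) * p + (2842173 / 500000 + (x - 1 / 4) * (-239209 / 12500)) * p ^ 2 := by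
  rcases eq_or_lt_of_le h1 with h | h1
  · subst h
    rw [kvh11 (by norm_num) (by norm_num)]
    ring1
  · exact kvh12 h1 h2
theorem kvl13 {p x : ℝ} (h1 : 47 / 247 ≤ p) (h2 : p ≤ 6 / 25) : dt37.kv p x = (41606964511 / 473931250000 + (x - 1 / 4) * (-218058459761 / 189572500000)) + (-1732623634397 / 947862500000 + (x - 1 / 4) * (1853814834961 / 189572500000)) * p + (2411031 / 1000000 + (x - 1 / 4) * (-1170857 / 50000)) * p ^ 2 := by
  rcases eq_or_lt_of_le h1 with h | h1
  · subst h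
    rw [kvh12 (by norm_num) (by norm_num)]
    ring1
  · exact kvh13 h1 h2
theorem kvl14 {p x : ℝ} (h1 : 6 / 25 ≤ p) (h2 : p ≤ 29 / 100) : dt37.kv p x = (166916531 / 1250000000 + (x - 1 / 4) * (84509639 / 125000000)) + (-220912289 / 100000000 + (x - 1 / 4) * (-54404191 / 10000000)) * p + (3205213 / 1000000 + (x - 1 / 4) * (828947 / 100000)) * p ^ 2 := by
  rcases eq_or_lt_of_le h1 with h | h1
  · subst h
    rw [kvh13 (by norm_num) (by norm_num)]
    ring1
  · exact kvh14 h1 h2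
theorem kvl15 {p x : ℝ} (h1 : 29 / 100 ≤ p) (h2 : p ≤ 7 / 20) : dt37.kv p x = (2898127 / 150000000 + (x - 1 / 4) * (345605881 / 200000000)) + (-10660801 / 7500000 + (x - 1 / 4) * (-15869241 / 1250000)) * p + (23089 / 12500 + (x - 1 / 4) * (2079827 / 100000)) * p ^ 2 := by
  rcases eq_or_lt_of_le h1 with h | h1
  · subst h
    rw [kvh14 (by norm_num) (by norm_num)]
    ring1
  · exact kvh15 h1 h2
theorem kvl16 {p x : ℝ} (h1 : 7 / 20 ≤ p) (h2 : p ≤ 37 / 91) : dt37.kv p x = (9131228617 / 26780000000 + (x - 1 / 4) * (858844277 / 1339000000)) + (-611016068457 / 187460000000 + (x - 1 / 4) * (-60794613707 / 9373000000)) * p + (4472847 / 1000000 + (x - 1 / 4) * (596397 / 50000)) * p ^ 2 := by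
  rcases eq_or_lt_of_le h1 with h | h1
  · subst h
    rw [kvh15 (by norm_num) (by norm_num)]
    ring1
  · exact kvh16 h1 h2
theorem kvl17 {p x : ℝ} (h1 : 37 / 91 ≤ p) (h2 : p ≤ 7 / 16) : dt37.kv p x = (-6279401213 / 9360000000 + (x - 1 / 4) * (3761229103 / 936000000)) + (112546914293 / 65520000000 + (x - 1 / 4) * (-151332801943 / 6552000000)) * p + (-1647757 / 1000000 + (x - 1 / 4) * (3235487 / 100000)) * p ^ 2 := by
  rcases eq_or_lt_of_le h1 with h | h1
  · subst h
    rw [kvh16 (by norm_num) (by norm_num)]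
    ring1
  · exact kvh17 h1 h2
theorem kvl18 {p x : ℝ} (h1 : 7 / 16 ≤ p) (h2 : p ≤ 1 / 2) : dt37.kv p x = (-7956263 / 16000000 + (x - 1 / 4) * (-2818013 / 800000)) + (7392847 / 8000000 + (x - 1 / 4) * (4550197 / 400000)) * p + (-370369 / 500000 + (x - 1 / 4) * (-176059 / 25000)) * p ^ 2 := by
  rcases eq_or_lt_of_le h1 with h | h1
  · subst h
    rw [kvh17 (by norm_num) (by norm_num)]
    ring1
  · exact kvh18 h1 h2
theorem kfe {x p : ℝ} (h : |p| ≤ 1 / 2) : kcg.v p x = dt37.kv p x := by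
  obtain ⟨h1, h2⟩ := abs_le.1 h
  rcases le_total p (-7 / 16) with g0 | g1000
  · rw [kcl0 (by linarith) g0, kvl0 (by linarith) g0]
  rcases le_total p (-37 / 91) with g1 | g1001
  · rw [kcl1 g1000 g1, kvl1 g1000 g1]
  rcases le_total p (-7 / 20) with g2 | g1002
  · rw [kcl2 g1001 g2, kvl2 g1001 g2]
  rcases le_total p (-29 / 100) with g3 | g1003
  · rw [kcl3 g1002 g3, kvl3 g1002 g3]
  rcases le_total p (-6 / 25) with g4 | g1004
  · rw [kcl4 g1003 g4, kvl4 g1003 g4]
  rcases le_total p (-47 / 247) with g5 | g1005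
  · rw [kcl5 g1004 g5, kvl5 g1004 g5]
  rcases le_total p (-29 / 200) with g6 | g1006
  · rw [kcl6 g1005 g6, kvl6 g1005 g6]
  rcases le_total p (-1 / 10) with g7 | g1007
  · rw [kcl7 g1006 g7, kvl7 g1006 g7]
  rcases le_total p (-1 / 16) with g8 | g1008
  · rw [kcl8 g1007 g8, kvl8 g1007 g8]
  rcases le_total p (1 / 16) with g9 | g1009
  · rw [kcl9 g1008 g9, kvl9 g1008 g9]
  rcases le_total p (1 / 10) with g10 | g1010
  · rw [kcl10 g1009 g10, kvl10 g1009 g10]
  rcases le_total p (29 / 200) with g11 | g1011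
  · rw [kcl11 g1010 g11, kvl11 g1010 g11]
  rcases le_total p (47 / 247) with g12 | g1012
  · rw [kcl12 g1011 g12, kvl12 g1011 g12]
  rcases le_total p (6 / 25) with g13 | g1013
  · rw [kcl13 g1012 g13, kvl13 g1012 g13]
  rcases le_total p (29 / 100) with g14 | g1014
  · rw [kcl14 g1013 g14, kvl14 g1013 g14]
  rcases le_total p (7 / 20) with g15 | g1015
  · rw [kcl15 g1014 g15, kvl15 g1014 g15]
  rcases le_total p (37 / 91) with g16 | g1016
  · rw [kcl16 g1015 g16, kvl16 g1015 g16]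
  rcases le_total p (7 / 16) with g17 | g1017
  · rw [kcl17 g1016 g17, kvl17 g1016 g17]
  · rw [kcl18 g1017 (by linarith), kvl18 g1017 (by linarith)]
theorem odd {x p : ℝ} (h : |p| ≤ 1 / 2) : kcg.v (-p) x = -kcg.v p x := by
  obtain ⟨h1, h2⟩ := abs_le.1 h
  rcases le_total p (-7 / 16) with g0 | g1000
  · rw [kcl0 (by linarith) g0, kcl18 (p := -p) (by linarith) (by linarith)]; ring
  rcases le_total p (-37 / 91) with g1 | g1001
  · rw [kcl1 g1000 g1, kcl17 (p := -p) (by linarith) (by linarith)]; ring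
  rcases le_total p (-7 / 20) with g2 | g1002
  · rw [kcl2 g1001 g2, kcl16 (p := -p) (by linarith) (by linarith)]; ring
  rcases le_total p (-29 / 100) with g3 | g1003
  · rw [kcl3 g1002 g3, kcl15 (p := -p) (by linarith) (by linarith)]; ring
  rcases le_total p (-6 / 25) with g4 | g1004
  · rw [kcl4 g1003 g4, kcl14 (p := -p) (by linarith) (by linarith)]; ring
  rcases le_total p (-47 / 247) with g5 | g1005
  · rw [kcl5 g1004 g5, kcl13 (p := -p) (by linarith) (by linarith)]; ring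
  rcases le_total p (-29 / 200) with g6 | g1006
  · rw [kcl6 g1005 g6, kcl12 (p := -p) (by linarith) (by linarith)]; ring
  rcases le_total p (-1 / 10) with g7 | g1007
  · rw [kcl7 g1006 g7, kcl11 (p := -p) (by linarith) (by linarith)]; ring
  rcases le_total p (-1 / 16) with g8 | g1008
  · rw [kcl8 g1007 g8, kcl10 (p := -p) (by linarith) (by linarith)]; ring
  rcases le_total p (1 / 16) with g9 | g1009
  · rw [kcl9 g1008 g9, kcl9 (p := -p) (by linarith) (by linarith)]; ring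
  rcases le_total p (1 / 10) with g10 | g1010
  · rw [kcl10 g1009 g10, kcl8 (p := -p) (by linarith) (by linarith)]; ring
  rcases le_total p (29 / 200) with g11 | g1011
  · rw [kcl11 g1010 g11, kcl7 (p := -p) (by linarith) (by linarith)]; ring
  rcases le_total p (47 / 247) with g12 | g1012
  · rw [kcl12 g1011 g12, kcl6 (p := -p) (by linarith) (by linarith)]; ring
  rcases le_total p (6 / 25) with g13 | g1013
  · rw [kcl13 g1012 g13, kcl5 (p := -p) (by linarith) (by linarith)]; ring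
  rcases le_total p (29 / 100) with g14 | g1014
  · rw [kcl14 g1013 g14, kcl4 (p := -p) (by linarith) (by linarith)]; ring
  rcases le_total p (7 / 20) with g15 | g1015
  · rw [kcl15 g1014 g15, kcl3 (p := -p) (by linarith) (by linarith)]; ring
  rcases le_total p (37 / 91) with g16 | g1016
  · rw [kcl16 g1015 g16, kcl2 (p := -p) (by linarith) (by linarith)]; ring
  rcases le_total p (7 / 16) with g17 | g1017
  · rw [kcl17 g1016 g17, kcl1 (p := -p) (by linarith) (by linarith)]; ring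
  · rw [kcl18 g1017 (by linarith), kcl0 (p := -p) (by linarith) (by linarith)]; ring
theorem ctA : cT (-37 / 91) = 181 / 182 := by
  unfold cT
  rw [show (3 / 4 * (1 - (-37 / 91 : ℝ) ^ 2)) = (72 / 91) ^ 2 by norm_num, Real.sqrt_sq (by norm_num)]
  norm_num
theorem ctB : cT (-47 / 247) = 467 / 494 := by
  unfold cT
  rw [show (3 / 4 * (1 - (-47 / 247 : ℝ) ^ 2)) = (210 / 247) ^ 2 by norm_num, Real.sqrt_sq (by norm_num)]
  norm_num
theorem kgA {x : ℝ} : kcg.v (-37 / 91) x = (48971 / 200000 + (x - 1 / 4) * (2391 / 100000)) := by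
  rw [kcl1 (by norm_num) (by norm_num)]
  ring
theorem kgB {x : ℝ} : kcg.v (-47 / 247) x = (34547 / 200000 + (x - 1 / 4) * (6869 / 50000)) := by
  rw [kcl5 (by norm_num) (by norm_num)]
  ring
theorem ka_dt1 (x : ℝ) : dt1.kv (-1 / 2) x = (110199 / 500000 + (x - 1 / 4) * (-2529 / 6250)) := by
  simp only [dt1, DT.kv, sw1, sl1, sv1]
  ((try push_cast); ring1)
theorem kb_dt1 (x : ℝ) : dt1.kv (-7 / 16) x = (3668 / 15625 + (x - 1 / 4) * (-10631 / 100000)) := by
  simp only [dt1, DT.kv, sw1, sl1, sv1]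
  ((try push_cast); ring1)
theorem ka_dt2 (x : ℝ) : dt2.kv (-7 / 16) x = (3668 / 15625 + (x - 1 / 4) * (-10631 / 100000)) := by
  simp only [dt2, DT.kv, sw2, sl2, sv2]
  ((try push_cast); ring1)
theorem kb_dt2 (x : ℝ) : dt2.kv (-37 / 91) x = (48971 / 200000 + (x - 1 / 4) * (2391 / 100000)) := by
  simp only [dt2, DT.kv, sw2, sl2, sv2]
  ((try push_cast); ring1)
theorem ka_dt20 (x : ℝ) : dt20.kv (-1 / 2) x = (110199 / 500000 + (x - 1 / 4) * (-2529 / 6250)) :=
  (DT.kv_le (by simp only [Cn.rt_v, Cn.ng_v]; norm_num)).trans (ka_dt1 x)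
theorem kb_dt20 (x : ℝ) : dt20.kv (-37 / 91) x = (48971 / 200000 + (x - 1 / 4) * (2391 / 100000)) :=
  (DT.kv_gt (by simp only [Cn.rt_v, Cn.ng_v]; norm_num)).trans (kb_dt2 x)
theorem ka_dt3 (x : ℝ) : dt3.kv (-37 / 91) x = (48971 / 200000 + (x - 1 / 4) * (2391 / 100000)) := by
  simp only [dt3, DT.kv, sw3, sl3, sv3]
  ((try push_cast); ring1)
theorem kb_dt3 (x : ℝ) : dt3.kv (-7 / 20) x = (251911 / 1000000 + (x - 1 / 4) * (16757 / 100000)) := by
  simp only [dt3, DT.kv, sw3, sl3, sv3]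
  ((try push_cast); ring1)
theorem ka_dt4 (x : ℝ) : dt4.kv (-7 / 20) x = (251911 / 1000000 + (x - 1 / 4) * (16757 / 100000)) := by
  simp only [dt4, DT.kv, sw4, sl4, sv4]
  ((try push_cast); ring1)
theorem kb_dt4 (x : ℝ) : dt4.kv (-29 / 100) x = (118777 / 500000 + (x - 1 / 4) * (409 / 2000)) := by
  simp only [dt4, DT.kv, sw4, sl4, sv4]
  ((try push_cast); ring1)
theorem ka_dt21 (x : ℝ) : dt21.kv (-37 / 91) x = (48971 / 200000 + (x - 1 / 4) * (2391 / 100000)) :=
  (DT.kv_le (by simp only [Cn.rt_v, Cn.ng_v]; norm_num)).trans (ka_dt3 x)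
theorem kb_dt21 (x : ℝ) : dt21.kv (-29 / 100) x = (118777 / 500000 + (x - 1 / 4) * (409 / 2000)) :=
  (DT.kv_gt (by simp only [Cn.rt_v, Cn.ng_v]; norm_num)).trans (kb_dt4 x)
theorem ka_dt22 (x : ℝ) : dt22.kv (-1 / 2) x = (110199 / 500000 + (x - 1 / 4) * (-2529 / 6250)) :=
  (DT.kv_le (by simp only [Cn.rt_v, Cn.ng_v]; norm_num)).trans (ka_dt20 x)
theorem kb_dt22 (x : ℝ) : dt22.kv (-29 / 100) x = (118777 / 500000 + (x - 1 / 4) * (409 / 2000)) :=
  (DT.kv_gt (by simp only [Cn.rt_v, Cn.ng_v]; norm_num)).trans (kb_dt21 x)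
theorem ka_dt5 (x : ℝ) : dt5.kv (-29 / 100) x = (118777 / 500000 + (x - 1 / 4) * (409 / 2000)) := by
  simp only [dt5, DT.kv, sw5, sl5, sv5]
  ((try push_cast); ring1)
theorem kb_dt5 (x : ℝ) : dt5.kv (-6 / 25) x = (53009 / 250000 + (x - 1 / 4) * (3043 / 20000)) := by
  simp only [dt5, DT.kv, sw5, sl5, sv5]
  ((try push_cast); ring1)
theorem ka_dt6 (x : ℝ) : dt6.kv (-6 / 25) x = (53009 / 250000 + (x - 1 / 4) * (3043 / 20000)) := by
  simp only [dt6, DT.kv, sw6, sl6, sv6]
  ((try push_cast); ring1)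
theorem kb_dt6 (x : ℝ) : dt6.kv (-47 / 247) x = (34547 / 200000 + (x - 1 / 4) * (6869 / 50000)) := by
  simp only [dt6, DT.kv, sw6, sl6, sv6]
  ((try push_cast); ring1)
theorem ka_dt23 (x : ℝ) : dt23.kv (-29 / 100) x = (118777 / 500000 + (x - 1 / 4) * (409 / 2000)) :=
  (DT.kv_le (by simp only [Cn.rt_v, Cn.ng_v]; norm_num)).trans (ka_dt5 x)
theorem kb_dt23 (x : ℝ) : dt23.kv (-47 / 247) x = (34547 / 200000 + (x - 1 / 4) * (6869 / 50000)) :=
  (DT.kv_gt (by simp only [Cn.rt_v, Cn.ng_v]; norm_num)).trans (kb_dt6 x)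
theorem ka_dt7 (x : ℝ) : dt7.kv (-47 / 247) x = (34547 / 200000 + (x - 1 / 4) * (6869 / 50000)) := by
  simp only [dt7, DT.kv, sw7, sl7, sv7]
  ((try push_cast); ring1)
theorem kb_dt7 (x : ℝ) : dt7.kv (-29 / 200) x = (59927 / 500000 + (x - 1 / 4) * (5397 / 25000)) := by
  simp only [dt7, DT.kv, sw7, sl7, sv7]
  ((try push_cast); ring1)
theorem ka_dt8 (x : ℝ) : dt8.kv (-29 / 200) x = (59927 / 500000 + (x - 1 / 4) * (5397 / 25000)) := by
  simp only [dt8, DT.kv, sw8, sl8, sv8]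
  ((try push_cast); ring1)
theorem kb_dt8 (x : ℝ) : dt8.kv (-1 / 10) x = (63909 / 1000000 + (x - 1 / 4) * (6569 / 25000)) := by
  simp only [dt8, DT.kv, sw8, sl8, sv8]
  ((try push_cast); ring1)
theorem ka_dt9 (x : ℝ) : dt9.kv (-1 / 10) x = (63909 / 1000000 + (x - 1 / 4) * (6569 / 25000)) := by
  simp only [dt9, DT.kv, sw9, sl9, sv9]
  ((try push_cast); ring1)
theorem kb_dt9 (x : ℝ) : dt9.kv (-1 / 16) x = (16927 / 500000 + (x - 1 / 4) * (9733 / 50000)) := by
  simp only [dt9, DT.kv, sw9, sl9, sv9]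
  ((try push_cast); ring1)
theorem ka_dt24 (x : ℝ) : dt24.kv (-29 / 200) x = (59927 / 500000 + (x - 1 / 4) * (5397 / 25000)) :=
  (DT.kv_le (by simp only [Cn.rt_v, Cn.ng_v]; norm_num)).trans (ka_dt8 x)
theorem kb_dt24 (x : ℝ) : dt24.kv (-1 / 16) x = (16927 / 500000 + (x - 1 / 4) * (9733 / 50000)) :=
  (DT.kv_gt (by simp only [Cn.rt_v, Cn.ng_v]; norm_num)).trans (kb_dt9 x)
theorem ka_dt25 (x : ℝ) : dt25.kv (-47 / 247) x = (34547 / 200000 + (x - 1 / 4) * (6869 / 50000)) :=
  (DT.kv_le (by simp only [Cn.rt_v, Cn.ng_v]; norm_num)).trans (ka_dt7 x)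
theorem kb_dt25 (x : ℝ) : dt25.kv (-1 / 16) x = (16927 / 500000 + (x - 1 / 4) * (9733 / 50000)) :=
  (DT.kv_gt (by simp only [Cn.rt_v, Cn.ng_v]; norm_num)).trans (kb_dt24 x)
theorem ka_dt26 (x : ℝ) : dt26.kv (-29 / 100) x = (118777 / 500000 + (x - 1 / 4) * (409 / 2000)) :=
  (DT.kv_le (by simp only [Cn.rt_v, Cn.ng_v]; norm_num)).trans (ka_dt23 x)
theorem kb_dt26 (x : ℝ) : dt26.kv (-1 / 16) x = (16927 / 500000 + (x - 1 / 4) * (9733 / 50000)) :=
  (DT.kv_gt (by simp only [Cn.rt_v, Cn.ng_v]; norm_num)).trans (kb_dt25 x)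
theorem ka_dt27 (x : ℝ) : dt27.kv (-1 / 2) x = (110199 / 500000 + (x - 1 / 4) * (-2529 / 6250)) :=
  (DT.kv_le (by simp only [Cn.rt_v, Cn.ng_v]; norm_num)).trans (ka_dt22 x)
theorem kb_dt27 (x : ℝ) : dt27.kv (-1 / 16) x = (16927 / 500000 + (x - 1 / 4) * (9733 / 50000)) :=
  (DT.kv_gt (by simp only [Cn.rt_v, Cn.ng_v]; norm_num)).trans (kb_dt26 x)
theorem ka_dt10 (x : ℝ) : dt10.kv (-1 / 16) x = (16927 / 500000 + (x - 1 / 4) * (9733 / 50000)) := by
  simp only [dt10, DT.kv, sl10, sv10]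
  ((try push_cast); ring1)
theorem kb_dt10 (x : ℝ) : dt10.kv (1 / 16) x = (-16927 / 500000 + (x - 1 / 4) * (-9733 / 50000)) := by
  simp only [dt10, DT.kv, sl10, sv10]
  ((try push_cast); ring1)
theorem ka_dt11 (x : ℝ) : dt11.kv (1 / 16) x = (-16927 / 500000 + (x - 1 / 4) * (-9733 / 50000)) := by
  simp only [dt11, DT.kv, sw11, sl11, sv11]
  ((try push_cast); ring1)
theorem kb_dt11 (x : ℝ) : dt11.kv (1 / 10) x = (-63909 / 1000000 + (x - 1 / 4) * (-6569 / 25000)) := by
  simp only [dt11, DT.kv, sw11, sl11, sv11]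
  ((try push_cast); ring1)
theorem ka_dt28 (x : ℝ) : dt28.kv (-1 / 16) x = (16927 / 500000 + (x - 1 / 4) * (9733 / 50000)) :=
  (DT.kv_le (by simp only [Cn.rt_v, Cn.ng_v]; norm_num)).trans (ka_dt10 x)
theorem kb_dt28 (x : ℝ) : dt28.kv (1 / 10) x = (-63909 / 1000000 + (x - 1 / 4) * (-6569 / 25000)) :=
  (DT.kv_gt (by simp only [Cn.rt_v, Cn.ng_v]; norm_num)).trans (kb_dt11 x)
theorem ka_dt12 (x : ℝ) : dt12.kv (1 / 10) x = (-63909 / 1000000 + (x - 1 / 4) * (-6569 / 25000)) := by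
  simp only [dt12, DT.kv, sw12, sl12, sv12]
  ((try push_cast); ring1)
theorem kb_dt12 (x : ℝ) : dt12.kv (29 / 200) x = (-59927 / 500000 + (x - 1 / 4) * (-5397 / 25000)) := by
  simp only [dt12, DT.kv, sw12, sl12, sv12]
  ((try push_cast); ring1)
theorem ka_dt13 (x : ℝ) : dt13.kv (29 / 200) x = (-59927 / 500000 + (x - 1 / 4) * (-5397 / 25000)) := by
  simp only [dt13, DT.kv, sw13, sl13, sv13]
  ((try push_cast); ring1)
theorem kb_dt13 (x : ℝ) : dt13.kv (47 / 247) x = (-34547 / 200000 + (x - 1 / 4) * (-6869 / 50000)) := by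
  simp only [dt13, DT.kv, sw13, sl13, sv13]
  ((try push_cast); ring1)
theorem ka_dt14 (x : ℝ) : dt14.kv (47 / 247) x = (-34547 / 200000 + (x - 1 / 4) * (-6869 / 50000)) := by
  simp only [dt14, DT.kv, sw14, sl14, sv14]
  ((try push_cast); ring1)
theorem kb_dt14 (x : ℝ) : dt14.kv (6 / 25) x = (-53009 / 250000 + (x - 1 / 4) * (-3043 / 20000)) := by
  simp only [dt14, DT.kv, sw14, sl14, sv14]
  ((try push_cast); ring1)
theorem ka_dt29 (x : ℝ) : dt29.kv (29 / 200) x = (-59927 / 500000 + (x - 1 / 4) * (-5397 / 25000)) :=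
  (DT.kv_le (by simp only [Cn.rt_v, Cn.ng_v]; norm_num)).trans (ka_dt13 x)
theorem kb_dt29 (x : ℝ) : dt29.kv (6 / 25) x = (-53009 / 250000 + (x - 1 / 4) * (-3043 / 20000)) :=
  (DT.kv_gt (by simp only [Cn.rt_v, Cn.ng_v]; norm_num)).trans (kb_dt14 x)
theorem ka_dt30 (x : ℝ) : dt30.kv (1 / 10) x = (-63909 / 1000000 + (x - 1 / 4) * (-6569 / 25000)) :=
  (DT.kv_le (by simp only [Cn.rt_v, Cn.ng_v]; norm_num)).trans (ka_dt12 x)
theorem kb_dt30 (x : ℝ) : dt30.kv (6 / 25) x = (-53009 / 250000 + (x - 1 / 4) * (-3043 / 20000)) :=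
  (DT.kv_gt (by simp only [Cn.rt_v, Cn.ng_v]; norm_num)).trans (kb_dt29 x)
theorem ka_dt31 (x : ℝ) : dt31.kv (-1 / 16) x = (16927 / 500000 + (x - 1 / 4) * (9733 / 50000)) :=
  (DT.kv_le (by simp only [Cn.rt_v, Cn.ng_v]; norm_num)).trans (ka_dt28 x)
theorem kb_dt31 (x : ℝ) : dt31.kv (6 / 25) x = (-53009 / 250000 + (x - 1 / 4) * (-3043 / 20000)) :=
  (DT.kv_gt (by simp only [Cn.rt_v, Cn.ng_v]; norm_num)).trans (kb_dt30 x)
theorem ka_dt15 (x : ℝ) : dt15.kv (6 / 25) x = (-53009 / 250000 + (x - 1 / 4) * (-3043 / 20000)) := by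
  simp only [dt15, DT.kv, sw15, sl15, sv15]
  ((try push_cast); ring1)
theorem kb_dt15 (x : ℝ) : dt15.kv (29 / 100) x = (-118777 / 500000 + (x - 1 / 4) * (-409 / 2000)) := by
  simp only [dt15, DT.kv, sw15, sl15, sv15]
  ((try push_cast); ring1)
theorem ka_dt16 (x : ℝ) : dt16.kv (29 / 100) x = (-118777 / 500000 + (x - 1 / 4) * (-409 / 2000)) := by
  simp only [dt16, DT.kv, sw16, sl16, sv16]
  ((try push_cast); ring1)
theorem kb_dt16 (x : ℝ) : dt16.kv (7 / 20) x = (-251911 / 1000000 + (x - 1 / 4) * (-16757 / 100000)) := by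
  simp only [dt16, DT.kv, sw16, sl16, sv16]
  ((try push_cast); ring1)
theorem ka_dt32 (x : ℝ) : dt32.kv (6 / 25) x = (-53009 / 250000 + (x - 1 / 4) * (-3043 / 20000)) :=
  (DT.kv_le (by simp only [Cn.rt_v, Cn.ng_v]; norm_num)).trans (ka_dt15 x)
theorem kb_dt32 (x : ℝ) : dt32.kv (7 / 20) x = (-251911 / 1000000 + (x - 1 / 4) * (-16757 / 100000)) :=
  (DT.kv_gt (by simp only [Cn.rt_v, Cn.ng_v]; norm_num)).trans (kb_dt16 x)
theorem ka_dt17 (x : ℝ) : dt17.kv (7 / 20) x = (-251911 / 1000000 + (x - 1 / 4) * (-16757 / 100000)) := by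
  simp only [dt17, DT.kv, sw17, sl17, sv17]
  ((try push_cast); ring1)
theorem kb_dt17 (x : ℝ) : dt17.kv (37 / 91) x = (-48971 / 200000 + (x - 1 / 4) * (-2391 / 100000)) := by
  simp only [dt17, DT.kv, sw17, sl17, sv17]
  ((try push_cast); ring1)
theorem ka_dt18 (x : ℝ) : dt18.kv (37 / 91) x = (-48971 / 200000 + (x - 1 / 4) * (-2391 / 100000)) := by
  simp only [dt18, DT.kv, sw18, sl18, sv18]
  ((try push_cast); ring1)
theorem kb_dt18 (x : ℝ) : dt18.kv (7 / 16) x = (-3668 / 15625 + (x - 1 / 4) * (10631 / 100000)) := by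
  simp only [dt18, DT.kv, sw18, sl18, sv18]
  ((try push_cast); ring1)
theorem ka_dt19 (x : ℝ) : dt19.kv (7 / 16) x = (-3668 / 15625 + (x - 1 / 4) * (10631 / 100000)) := by
  simp only [dt19, DT.kv, sw19, sl19, sv19]
  ((try push_cast); ring1)
theorem kb_dt19 (x : ℝ) : dt19.kv (1 / 2) x = (-110199 / 500000 + (x - 1 / 4) * (2529 / 6250)) := by
  simp only [dt19, DT.kv, sw19, sl19, sv19]
  ((try push_cast); ring1)
theorem ka_dt33 (x : ℝ) : dt33.kv (37 / 91) x = (-48971 / 200000 + (x - 1 / 4) * (-2391 / 100000)) :=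
  (DT.kv_le (by simp only [Cn.rt_v, Cn.ng_v]; norm_num)).trans (ka_dt18 x)
theorem kb_dt33 (x : ℝ) : dt33.kv (1 / 2) x = (-110199 / 500000 + (x - 1 / 4) * (2529 / 6250)) :=
  (DT.kv_gt (by simp only [Cn.rt_v, Cn.ng_v]; norm_num)).trans (kb_dt19 x)
theorem ka_dt34 (x : ℝ) : dt34.kv (7 / 20) x = (-251911 / 1000000 + (x - 1 / 4) * (-16757 / 100000)) :=
  (DT.kv_le (by simp only [Cn.rt_v, Cn.ng_v]; norm_num)).trans (ka_dt17 x)
theorem kb_dt34 (x : ℝ) : dt34.kv (1 / 2) x = (-110199 / 500000 + (x - 1 / 4) * (2529 / 6250)) :=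
  (DT.kv_gt (by simp only [Cn.rt_v, Cn.ng_v]; norm_num)).trans (kb_dt33 x)
theorem ka_dt35 (x : ℝ) : dt35.kv (6 / 25) x = (-53009 / 250000 + (x - 1 / 4) * (-3043 / 20000)) :=
  (DT.kv_le (by simp only [Cn.rt_v, Cn.ng_v]; norm_num)).trans (ka_dt32 x)
theorem kb_dt35 (x : ℝ) : dt35.kv (1 / 2) x = (-110199 / 500000 + (x - 1 / 4) * (2529 / 6250)) :=
  (DT.kv_gt (by simp only [Cn.rt_v, Cn.ng_v]; norm_num)).trans (kb_dt34 x)
theorem ka_dt36 (x : ℝ) : dt36.kv (-1 / 16) x = (16927 / 500000 + (x - 1 / 4) * (9733 / 50000)) :=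
  (DT.kv_le (by simp only [Cn.rt_v, Cn.ng_v]; norm_num)).trans (ka_dt31 x)
theorem kb_dt36 (x : ℝ) : dt36.kv (1 / 2) x = (-110199 / 500000 + (x - 1 / 4) * (2529 / 6250)) :=
  (DT.kv_gt (by simp only [Cn.rt_v, Cn.ng_v]; norm_num)).trans (kb_dt35 x)
theorem ka_dt37 (x : ℝ) : dt37.kv (-1 / 2) x = (110199 / 500000 + (x - 1 / 4) * (-2529 / 6250)) :=
  (DT.kv_le (by simp only [Cn.rt_v, Cn.ng_v]; norm_num)).trans (ka_dt27 x)
theorem kb_dt37 (x : ℝ) : dt37.kv (1 / 2) x = (-110199 / 500000 + (x - 1 / 4) * (2529 / 6250)) :=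
  (DT.kv_gt (by simp only [Cn.rt_v, Cn.ng_v]; norm_num)).trans (kb_dt36 x)
theorem ko_dt1 (x : ℝ) : dt1.KOk x := trivial
theorem ko_dt2 (x : ℝ) : dt2.KOk x := trivial
theorem ko_dt20 (x : ℝ) : dt20.KOk x :=
  DT.kOk_node (v := -7 / 16) (by simp only [Cn.rt_v, Cn.ng_v]; norm_num) (kb_dt1 x) (ka_dt2 x) (by ring1) (ko_dt1 x) (ko_dt2 x)
theorem ko_dt3 (x : ℝ) : dt3.KOk x := trivial
theorem ko_dt4 (x : ℝ) : dt4.KOk x := trivial
theorem ko_dt21 (x : ℝ) : dt21.KOk x :=
  DT.kOk_node (v := -7 / 20) (by simp only [Cn.rt_v, Cn.ng_v]; norm_num) (kb_dt3 x) (ka_dt4 x) (by ring1) (ko_dt3 x) (ko_dt4 x)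
theorem ko_dt22 (x : ℝ) : dt22.KOk x :=
  DT.kOk_node (v := -37 / 91) (by simp only [Cn.rt_v, Cn.ng_v]; norm_num) (kb_dt20 x) (ka_dt21 x) (by ring1) (ko_dt20 x) (ko_dt21 x)
theorem ko_dt5 (x : ℝ) : dt5.KOk x := trivial
theorem ko_dt6 (x : ℝ) : dt6.KOk x := trivial
theorem ko_dt23 (x : ℝ) : dt23.KOk x :=
  DT.kOk_node (v := -6 / 25) (by simp only [Cn.rt_v, Cn.ng_v]; norm_num) (kb_dt5 x) (ka_dt6 x) (by ring1) (ko_dt5 x) (ko_dt6 x)
theorem ko_dt7 (x : ℝ) : dt7.KOk x := trivial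
theorem ko_dt8 (x : ℝ) : dt8.KOk x := trivial
theorem ko_dt9 (x : ℝ) : dt9.KOk x := trivial
theorem ko_dt24 (x : ℝ) : dt24.KOk x :=
  DT.kOk_node (v := -1 / 10) (by simp only [Cn.rt_v, Cn.ng_v]; norm_num) (kb_dt8 x) (ka_dt9 x) (by ring1) (ko_dt8 x) (ko_dt9 x)
theorem ko_dt25 (x : ℝ) : dt25.KOk x :=
  DT.kOk_node (v := -29 / 200) (by simp only [Cn.rt_v, Cn.ng_v]; norm_num) (kb_dt7 x) (ka_dt24 x) (by ring1) (ko_dt7 x) (ko_dt24 x)
theorem ko_dt26 (x : ℝ) : dt26.KOk x :=
  DT.kOk_node (v := -47 / 247) (by simp only [Cn.rt_v, Cn.ng_v]; norm_num) (kb_dt23 x) (ka_dt25 x) (by ring1) (ko_dt23 x) (ko_dt25 x)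
theorem ko_dt27 (x : ℝ) : dt27.KOk x :=
  DT.kOk_node (v := -29 / 100) (by simp only [Cn.rt_v, Cn.ng_v]; norm_num) (kb_dt22 x) (ka_dt26 x) (by ring1) (ko_dt22 x) (ko_dt26 x)
theorem ko_dt10 (x : ℝ) : dt10.KOk x := trivial
theorem ko_dt11 (x : ℝ) : dt11.KOk x := trivial
theorem ko_dt28 (x : ℝ) : dt28.KOk x :=
  DT.kOk_node (v := 1 / 16) (by simp only [Cn.rt_v, Cn.ng_v]; norm_num) (kb_dt10 x) (ka_dt11 x) (by ring1) (ko_dt10 x) (ko_dt11 x)
theorem ko_dt12 (x : ℝ) : dt12.KOk x := trivial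
theorem ko_dt13 (x : ℝ) : dt13.KOk x := trivial
theorem ko_dt14 (x : ℝ) : dt14.KOk x := trivial
theorem ko_dt29 (x : ℝ) : dt29.KOk x :=
  DT.kOk_node (v := 47 / 247) (by simp only [Cn.rt_v, Cn.ng_v]; norm_num) (kb_dt13 x) (ka_dt14 x) (by ring1) (ko_dt13 x) (ko_dt14 x)
theorem ko_dt30 (x : ℝ) : dt30.KOk x :=
  DT.kOk_node (v := 29 / 200) (by simp only [Cn.rt_v, Cn.ng_v]; norm_num) (kb_dt12 x) (ka_dt29 x) (by ring1) (ko_dt12 x) (ko_dt29 x)
theorem ko_dt31 (x : ℝ) : dt31.KOk x :=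
  DT.kOk_node (v := 1 / 10) (by simp only [Cn.rt_v, Cn.ng_v]; norm_num) (kb_dt28 x) (ka_dt30 x) (by ring1) (ko_dt28 x) (ko_dt30 x)
theorem ko_dt15 (x : ℝ) : dt15.KOk x := trivial
theorem ko_dt16 (x : ℝ) : dt16.KOk x := trivial
theorem ko_dt32 (x : ℝ) : dt32.KOk x :=
  DT.kOk_node (v := 29 / 100) (by simp only [Cn.rt_v, Cn.ng_v]; norm_num) (kb_dt15 x) (ka_dt16 x) (by ring1) (ko_dt15 x) (ko_dt16 x)
theorem ko_dt17 (x : ℝ) : dt17.KOk x := trivial
theorem ko_dt18 (x : ℝ) : dt18.KOk x := trivial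
theorem ko_dt19 (x : ℝ) : dt19.KOk x := trivial
theorem ko_dt33 (x : ℝ) : dt33.KOk x :=
  DT.kOk_node (v := 7 / 16) (by simp only [Cn.rt_v, Cn.ng_v]; norm_num) (kb_dt18 x) (ka_dt19 x) (by ring1) (ko_dt18 x) (ko_dt19 x)
theorem ko_dt34 (x : ℝ) : dt34.KOk x :=
  DT.kOk_node (v := 37 / 91) (by simp only [Cn.rt_v, Cn.ng_v]; norm_num) (kb_dt17 x) (ka_dt33 x) (by ring1) (ko_dt17 x) (ko_dt33 x)
theorem ko_dt35 (x : ℝ) : dt35.KOk x :=
  DT.kOk_node (v := 7 / 20) (by simp only [Cn.rt_v, Cn.ng_v]; norm_num) (kb_dt32 x) (ka_dt34 x) (by ring1) (ko_dt32 x) (ko_dt34 x)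
theorem ko_dt36 (x : ℝ) : dt36.KOk x :=
  DT.kOk_node (v := 6 / 25) (by simp only [Cn.rt_v, Cn.ng_v]; norm_num) (kb_dt31 x) (ka_dt35 x) (by ring1) (ko_dt31 x) (ko_dt35 x)
theorem ko_dt37 (x : ℝ) : dt37.KOk x :=
  DT.kOk_node (v := -1 / 16) (by simp only [Cn.rt_v, Cn.ng_v]; norm_num) (kb_dt27 x) (ka_dt36 x) (by ring1) (ko_dt27 x) (ko_dt36 x)
theorem txl0 {p c x : ℝ} (h1 : -1 / 2 ≤ p) (h2 : p ≤ -7 / 16) : txg.v p c x = dt64.val (fun p x => kcg.v p x) p c x := by
  symm
  refine (DT.val_le (by simp only [Cn.rt_v, Cn.ng_v]; push_cast; linarith)).trans ?_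
  refine (DT.val_le (by simp only [Cn.rt_v, Cn.ng_v]; push_cast; linarith)).trans ?_
  refine (DT.val_le (by simp only [Cn.rt_v, Cn.ng_v]; push_cast; linarith)).trans ?_
  simp only [dt38, DT.val, cloR, sw38, sl38, sv38, txg, txg_4, txg_6, txg_27, txg_61, txg_78, txg_80, txg_83, txg_86, txg_134, txg_153, txg_196, txg_198, txg_219, txg_259, txg_279]
  rcases eq_or_lt_of_le h1 with h | h1
  · subst h
    ((try push_cast); (repeat first | rw [if_pos (by linarith)] | rw [if_neg (by linarith)] | erw [if_pos (by linarith)] | erw [if_neg (by linarith)]); (try push_cast); (try ring1))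
  rcases eq_or_lt_of_le h2 with h | h2
  · subst h
    ((try push_cast); (repeat first | rw [if_pos (by linarith)] | rw [if_neg (by linarith)] | erw [if_pos (by linarith)] | erw [if_neg (by linarith)]); (try push_cast); (try ring1))
  · ((try push_cast); (repeat first | rw [if_pos (by linarith)] | rw [if_neg (by linarith)] | erw [if_pos (by linarith)] | erw [if_neg (by linarith)]); (try push_cast); (try ring1))
theorem txl1 {p c x : ℝ} (h1 : -7 / 16 < p) (h2 : p ≤ -37 / 91) : txg.v p c x = dt64.val (fun p x => kcg.v p x) p c x := by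
  symm
  refine (DT.val_le (by simp only [Cn.rt_v, Cn.ng_v]; push_cast; linarith)).trans ?_
  refine (DT.val_le (by simp only [Cn.rt_v, Cn.ng_v]; push_cast; linarith)).trans ?_
  refine (DT.val_gt (by simp only [Cn.rt_v, Cn.ng_v]; push_cast; linarith)).trans ?_
  refine (DT.val_le (by simp only [Cn.rt_v, Cn.ng_v]; push_cast; linarith)).trans ?_
  simp only [dt39, DT.val, cloR, sw39, sl39, sl39_2, sv39, sv39_2, txg, txg_4, txg_6, txg_27, txg_61, txg_78, txg_80, txg_83, txg_86, txg_134, txg_153, txg_196, txg_198, txg_219, txg_259, txg_279]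
  rcases eq_or_lt_of_le h2 with h | h2
  · subst h
    ((try push_cast); (repeat first | rw [if_pos (by linarith)] | rw [if_neg (by linarith)] | erw [if_pos (by linarith)] | erw [if_neg (by linarith)]); (try push_cast); (try ring1))
  · ((try push_cast); (repeat first | rw [if_pos (by linarith)] | rw [if_neg (by linarith)] | erw [if_pos (by linarith)] | erw [if_neg (by linarith)]); (try push_cast); (try ring1))
theorem txl2 {p c x : ℝ} (h1 : -37 / 91 < p) (h2 : p ≤ -47 / 247) : txg.v p c x = dt64.val (fun p x => kcg.v p x) p c x := by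
  symm
  refine (DT.val_le (by simp only [Cn.rt_v, Cn.ng_v]; push_cast; linarith)).trans ?_
  refine (DT.val_le (by simp only [Cn.rt_v, Cn.ng_v]; push_cast; linarith)).trans ?_
  refine (DT.val_gt (by simp only [Cn.rt_v, Cn.ng_v]; push_cast; linarith)).trans ?_
  refine (DT.val_gt (by simp only [Cn.rt_v, Cn.ng_v]; push_cast; linarith)).trans ?_
  simp only [dt40, DT.val, cloR, txg, txg_4, txg_6, txg_27, txg_61, txg_78, txg_80, txg_83, txg_86, txg_134, txg_153, txg_196, txg_198, txg_219, txg_259, txg_279]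
  rcases eq_or_lt_of_le h2 with h | h2
  · subst h
    ((try push_cast); (repeat first | rw [if_pos (by linarith)] | rw [if_neg (by linarith)] | erw [if_pos (by linarith)] | erw [if_neg (by linarith)]); (try push_cast); (try ring1))
  · ((try push_cast); (repeat first | rw [if_pos (by linarith)] | rw [if_neg (by linarith)] | erw [if_pos (by linarith)] | erw [if_neg (by linarith)]); (try push_cast); (try ring1))
theorem txl3 {p c x : ℝ} (h1 : -47 / 247 < p) (h2 : p ≤ -7 / 50) : txg.v p c x = dt64.val (fun p x => kcg.v p x) p c x := by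
  symm
  refine (DT.val_le (by simp only [Cn.rt_v, Cn.ng_v]; push_cast; linarith)).trans ?_
  refine (DT.val_gt (by simp only [Cn.rt_v, Cn.ng_v]; push_cast; linarith)).trans ?_
  refine (DT.val_le (by simp only [Cn.rt_v, Cn.ng_v]; push_cast; linarith)).trans ?_
  refine (DT.val_le (by simp only [Cn.rt_v, Cn.ng_v]; push_cast; linarith)).trans ?_
  simp only [dt41, DT.val, cloR, sw41, sl41, sl41_2, sv41, sv41_2, txg, txg_4, txg_6, txg_27, txg_61, txg_78, txg_80, txg_83, txg_86, txg_134, txg_153, txg_196, txg_198, txg_219, txg_259, txg_279]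
  rcases eq_or_lt_of_le h2 with h | h2
  · subst h
    ((try push_cast); (repeat first | rw [if_pos (by linarith)] | rw [if_neg (by linarith)] | erw [if_pos (by linarith)] | erw [if_neg (by linarith)]); (try push_cast); (try ring1))
  · ((try push_cast); (repeat first | rw [if_pos (by linarith)] | rw [if_neg (by linarith)] | erw [if_pos (by linarith)] | erw [if_neg (by linarith)]); (try push_cast); (try ring1))
theorem txl4 {p c x : ℝ} (h1 : -7 / 50 < p) (h2 : p ≤ -1 / 10) : txg.v p c x = dt64.val (fun p x => kcg.v p x) p c x := by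
  symm
  refine (DT.val_le (by simp only [Cn.rt_v, Cn.ng_v]; push_cast; linarith)).trans ?_
  refine (DT.val_gt (by simp only [Cn.rt_v, Cn.ng_v]; push_cast; linarith)).trans ?_
  refine (DT.val_le (by simp only [Cn.rt_v, Cn.ng_v]; push_cast; linarith)).trans ?_
  refine (DT.val_gt (by simp only [Cn.rt_v, Cn.ng_v]; push_cast; linarith)).trans ?_
  simp only [dt42, DT.val, cloR, sw42, sl42, sv42, txg, txg_4, txg_6, txg_27, txg_61, txg_78, txg_80, txg_83, txg_86, txg_134, txg_153, txg_196, txg_198, txg_219, txg_259, txg_279]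
  rcases eq_or_lt_of_le h2 with h | h2
  · subst h
    ((try push_cast); (repeat first | rw [if_pos (by linarith)] | rw [if_neg (by linarith)] | erw [if_pos (by linarith)] | erw [if_neg (by linarith)]); (try push_cast); (try ring1))
  · ((try push_cast); (repeat first | rw [if_pos (by linarith)] | rw [if_neg (by linarith)] | erw [if_pos (by linarith)] | erw [if_neg (by linarith)]); (try push_cast); (try ring1))
theorem txl5 {p c x : ℝ} (h1 : -1 / 10 < p) (h2 : p ≤ -1 / 16) : txg.v p c x = dt64.val (fun p x => kcg.v p x) p c x := by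
  symm
  refine (DT.val_le (by simp only [Cn.rt_v, Cn.ng_v]; push_cast; linarith)).trans ?_
  refine (DT.val_gt (by simp only [Cn.rt_v, Cn.ng_v]; push_cast; linarith)).trans ?_
  refine (DT.val_gt (by simp only [Cn.rt_v, Cn.ng_v]; push_cast; linarith)).trans ?_
  refine (DT.val_le (by simp only [Cn.rt_v, Cn.ng_v]; push_cast; linarith)).trans ?_
  simp only [dt43, DT.val, cloR, sw43, sl43, sv43, txg, txg_4, txg_6, txg_27, txg_61, txg_78, txg_80, txg_83, txg_86, txg_134, txg_153, txg_196, txg_198, txg_219, txg_259, txg_279]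
  rcases eq_or_lt_of_le h2 with h | h2
  · subst h
    ((try push_cast); (repeat first | rw [if_pos (by linarith)] | rw [if_neg (by linarith)] | erw [if_pos (by linarith)] | erw [if_neg (by linarith)]); (try push_cast); (try ring1))
  · ((try push_cast); (repeat first | rw [if_pos (by linarith)] | rw [if_neg (by linarith)] | erw [if_pos (by linarith)] | erw [if_neg (by linarith)]); (try push_cast); (try ring1))
theorem txl6 {p c x : ℝ} (h1 : -1 / 16 < p) (h2 : p ≤ 1 / 16) : txg.v p c x = dt64.val (fun p x => kcg.v p x) p c x := by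
  symm
  refine (DT.val_le (by simp only [Cn.rt_v, Cn.ng_v]; push_cast; linarith)).trans ?_
  refine (DT.val_gt (by simp only [Cn.rt_v, Cn.ng_v]; push_cast; linarith)).trans ?_
  refine (DT.val_gt (by simp only [Cn.rt_v, Cn.ng_v]; push_cast; linarith)).trans ?_
  refine (DT.val_gt (by simp only [Cn.rt_v, Cn.ng_v]; push_cast; linarith)).trans ?_
  simp only [dt44, DT.val, cloR, sw44, sl44, sv44, txg, txg_4, txg_6, txg_27, txg_61, txg_78, txg_80, txg_83, txg_86, txg_134, txg_153, txg_196, txg_198, txg_219, txg_259, txg_279]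
  rcases eq_or_lt_of_le h2 with h | h2
  · subst h
    ((try push_cast); (repeat first | rw [if_pos (by linarith)] | rw [if_neg (by linarith)] | erw [if_pos (by linarith)] | erw [if_neg (by linarith)]); (try push_cast); (try ring1))
  · ((try push_cast); (repeat first | rw [if_pos (by linarith)] | rw [if_neg (by linarith)] | erw [if_pos (by linarith)] | erw [if_neg (by linarith)]); (try push_cast); (try ring1))
theorem txl7 {p c x : ℝ} (h1 : 1 / 16 < p) (h2 : p ≤ 3 / 25) : txg.v p c x = dt64.val (fun p x => kcg.v p x) p c x := by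
  symm
  refine (DT.val_gt (by simp only [Cn.rt_v, Cn.ng_v]; push_cast; linarith)).trans ?_
  refine (DT.val_le (by simp only [Cn.rt_v, Cn.ng_v]; push_cast; linarith)).trans ?_
  refine (DT.val_le (by simp only [Cn.rt_v, Cn.ng_v]; push_cast; linarith)).trans ?_
  simp only [dt45, DT.val, cloR, sw45, sl45, sv45, txg, txg_4, txg_6, txg_27, txg_61, txg_78, txg_80, txg_83, txg_86, txg_134, txg_153, txg_196, txg_198, txg_219, txg_259, txg_279]
  rcases eq_or_lt_of_le h2 with h | h2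
  · subst h
    ((try push_cast); (repeat first | rw [if_pos (by linarith)] | rw [if_neg (by linarith)] | erw [if_pos (by linarith)] | erw [if_neg (by linarith)]); (try push_cast); (try ring1))
  · ((try push_cast); (repeat first | rw [if_pos (by linarith)] | rw [if_neg (by linarith)] | erw [if_pos (by linarith)] | erw [if_neg (by linarith)]); (try push_cast); (try ring1))
theorem txl8 {p c x : ℝ} (h1 : 3 / 25 < p) (h2 : p ≤ 9 / 50) : txg.v p c x = dt64.val (fun p x => kcg.v p x) p c x := by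
  symm
  refine (DT.val_gt (by simp only [Cn.rt_v, Cn.ng_v]; push_cast; linarith)).trans ?_
  refine (DT.val_le (by simp only [Cn.rt_v, Cn.ng_v]; push_cast; linarith)).trans ?_
  refine (DT.val_gt (by simp only [Cn.rt_v, Cn.ng_v]; push_cast; linarith)).trans ?_
  refine (DT.val_le (by simp only [Cn.rt_v, Cn.ng_v]; push_cast; linarith)).trans ?_
  simp only [dt46, DT.val, cloR, sw46, sl46, sv46, txg, txg_4, txg_6, txg_27, txg_61, txg_78, txg_80, txg_83, txg_86, txg_134, txg_153, txg_196, txg_198, txg_219, txg_259, txg_279]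
  rcases eq_or_lt_of_le h2 with h | h2
  · subst h
    ((try push_cast); (repeat first | rw [if_pos (by linarith)] | rw [if_neg (by linarith)] | erw [if_pos (by linarith)] | erw [if_neg (by linarith)]); (try push_cast); (try ring1))
  · ((try push_cast); (repeat first | rw [if_pos (by linarith)] | rw [if_neg (by linarith)] | erw [if_pos (by linarith)] | erw [if_neg (by linarith)]); (try push_cast); (try ring1))
theorem txl9 {p c x : ℝ} (h1 : 9 / 50 < p) (h2 : p ≤ 1 / 4) : txg.v p c x = dt64.val (fun p x => kcg.v p x) p c x := by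
  symm
  refine (DT.val_gt (by simp only [Cn.rt_v, Cn.ng_v]; push_cast; linarith)).trans ?_
  refine (DT.val_le (by simp only [Cn.rt_v, Cn.ng_v]; push_cast; linarith)).trans ?_
  refine (DT.val_gt (by simp only [Cn.rt_v, Cn.ng_v]; push_cast; linarith)).trans ?_
  refine (DT.val_gt (by simp only [Cn.rt_v, Cn.ng_v]; push_cast; linarith)).trans ?_
  simp only [dt47, DT.val, cloR, sw47, sl47, sv47, txg, txg_4, txg_6, txg_27, txg_61, txg_78, txg_80, txg_83, txg_86, txg_134, txg_153, txg_196, txg_198, txg_219, txg_259, txg_279]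
  rcases eq_or_lt_of_le h2 with h | h2
  · subst h
    ((try push_cast); (repeat first | rw [if_pos (by linarith)] | rw [if_neg (by linarith)] | erw [if_pos (by linarith)] | erw [if_neg (by linarith)]); (try push_cast); (try ring1))
  · ((try push_cast); (repeat first | rw [if_pos (by linarith)] | rw [if_neg (by linarith)] | erw [if_pos (by linarith)] | erw [if_neg (by linarith)]); (try push_cast); (try ring1))
theorem txl10 {p c x : ℝ} (h1 : 1 / 4 < p) (h2 : p ≤ 8 / 25) : txg.v p c x = dt64.val (fun p x => kcg.v p x) p c x := by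
  symm
  refine (DT.val_gt (by simp only [Cn.rt_v, Cn.ng_v]; push_cast; linarith)).trans ?_
  refine (DT.val_gt (by simp only [Cn.rt_v, Cn.ng_v]; push_cast; linarith)).trans ?_
  refine (DT.val_le (by simp only [Cn.rt_v, Cn.ng_v]; push_cast; linarith)).trans ?_
  refine (DT.val_le (by simp only [Cn.rt_v, Cn.ng_v]; push_cast; linarith)).trans ?_
  simp only [dt48, DT.val, cloR, sw48, sl48, sv48, txg, txg_4, txg_6, txg_27, txg_61, txg_78, txg_80, txg_83, txg_86, txg_134, txg_153, txg_196, txg_198, txg_219, txg_259, txg_279]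
  rcases eq_or_lt_of_le h2 with h | h2
  · subst h
    ((try push_cast); (repeat first | rw [if_pos (by linarith)] | rw [if_neg (by linarith)] | erw [if_pos (by linarith)] | erw [if_neg (by linarith)]); (try push_cast); (try ring1))
  · ((try push_cast); (repeat first | rw [if_pos (by linarith)] | rw [if_neg (by linarith)] | erw [if_pos (by linarith)] | erw [if_neg (by linarith)]); (try push_cast); (try ring1))
theorem txl11 {p c x : ℝ} (h1 : 8 / 25 < p) (h2 : p ≤ 19 / 50) : txg.v p c x = dt64.val (fun p x => kcg.v p x) p c x := by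
  symm
  refine (DT.val_gt (by simp only [Cn.rt_v, Cn.ng_v]; push_cast; linarith)).trans ?_
  refine (DT.val_gt (by simp only [Cn.rt_v, Cn.ng_v]; push_cast; linarith)).trans ?_
  refine (DT.val_le (by simp only [Cn.rt_v, Cn.ng_v]; push_cast; linarith)).trans ?_
  refine (DT.val_gt (by simp only [Cn.rt_v, Cn.ng_v]; push_cast; linarith)).trans ?_
  simp only [dt49, DT.val, cloR, sw49, sl49, sv49, txg, txg_4, txg_6, txg_27, txg_61, txg_78, txg_80, txg_83, txg_86, txg_134, txg_153, txg_196, txg_198, txg_219, txg_259, txg_279]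
  rcases eq_or_lt_of_le h2 with h | h2
  · subst h
    ((try push_cast); (repeat first | rw [if_pos (by linarith)] | rw [if_neg (by linarith)] | erw [if_pos (by linarith)] | erw [if_neg (by linarith)]); (try push_cast); (try ring1))
  · ((try push_cast); (repeat first | rw [if_pos (by linarith)] | rw [if_neg (by linarith)] | erw [if_pos (by linarith)] | erw [if_neg (by linarith)]); (try push_cast); (try ring1))
theorem txl12 {p c x : ℝ} (h1 : 19 / 50 < p) (h2 : p ≤ 7 / 16) : txg.v p c x = dt64.val (fun p x => kcg.v p x) p c x := by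
  symm
  refine (DT.val_gt (by simp only [Cn.rt_v, Cn.ng_v]; push_cast; linarith)).trans ?_
  refine (DT.val_gt (by simp only [Cn.rt_v, Cn.ng_v]; push_cast; linarith)).trans ?_
  refine (DT.val_gt (by simp only [Cn.rt_v, Cn.ng_v]; push_cast; linarith)).trans ?_
  refine (DT.val_le (by simp only [Cn.rt_v, Cn.ng_v]; push_cast; linarith)).trans ?_
  simp only [dt50, DT.val, cloR, sw50, sl50, sv50, txg, txg_4, txg_6, txg_27, txg_61, txg_78, txg_80, txg_83, txg_86, txg_134, txg_153, txg_196, txg_198, txg_219, txg_259, txg_279]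
  rcases eq_or_lt_of_le h2 with h | h2
  · subst h
    ((try push_cast); (repeat first | rw [if_pos (by linarith)] | rw [if_neg (by linarith)] | erw [if_pos (by linarith)] | erw [if_neg (by linarith)]); (try push_cast); (try ring1))
  · ((try push_cast); (repeat first | rw [if_pos (by linarith)] | rw [if_neg (by linarith)] | erw [if_pos (by linarith)] | erw [if_neg (by linarith)]); (try push_cast); (try ring1))
theorem txl13 {p c x : ℝ} (h1 : 7 / 16 < p) (h2 : p ≤ 1 / 2) : txg.v p c x = dt64.val (fun p x => kcg.v p x) p c x := by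
  symm
  refine (DT.val_gt (by simp only [Cn.rt_v, Cn.ng_v]; push_cast; linarith)).trans ?_
  refine (DT.val_gt (by simp only [Cn.rt_v, Cn.ng_v]; push_cast; linarith)).trans ?_
  refine (DT.val_gt (by simp only [Cn.rt_v, Cn.ng_v]; push_cast; linarith)).trans ?_
  refine (DT.val_gt (by simp only [Cn.rt_v, Cn.ng_v]; push_cast; linarith)).trans ?_
  simp only [dt51, DT.val, cloR, sw51, sl51, sv51, txg, txg_4, txg_6, txg_27, txg_61, txg_78, txg_80, txg_83, txg_86, txg_134, txg_153, txg_196, txg_198, txg_219, txg_259, txg_279]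
  rcases eq_or_lt_of_le h2 with h | h2
  · subst h
    ((try push_cast); (repeat first | rw [if_pos (by linarith)] | rw [if_neg (by linarith)] | erw [if_pos (by linarith)] | erw [if_neg (by linarith)]); (try push_cast); (try ring1))
  · ((try push_cast); (repeat first | rw [if_pos (by linarith)] | rw [if_neg (by linarith)] | erw [if_pos (by linarith)] | erw [if_neg (by linarith)]); (try push_cast); (try ring1))
theorem txe {x : ℝ} (p c : ℝ) (h : |p| ≤ 1 / 2) : txg.v p c x = dt64.val (fun p x => kcg.v p x) p c x := by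
  obtain ⟨h1, h2⟩ := abs_le.1 h
  rcases le_or_gt p (-7 / 16) with g0 | g1000
  · exact txl0 (by linarith) g0
  rcases le_or_gt p (-37 / 91) with g1 | g1001
  · exact txl1 g1000 g1
  rcases le_or_gt p (-47 / 247) with g2 | g1002
  · exact txl2 g1001 g2
  rcases le_or_gt p (-7 / 50) with g3 | g1003
  · exact txl3 g1002 g3
  rcases le_or_gt p (-1 / 10) with g4 | g1004
  · exact txl4 g1003 g4
  rcases le_or_gt p (-1 / 16) with g5 | g1005
  · exact txl5 g1004 g5
  rcases le_or_gt p (1 / 16) with g6 | g1006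
  · exact txl6 g1005 g6
  rcases le_or_gt p (3 / 25) with g7 | g1007
  · exact txl7 g1006 g7
  rcases le_or_gt p (9 / 50) with g8 | g1008
  · exact txl8 g1007 g8
  rcases le_or_gt p (1 / 4) with g9 | g1009
  · exact txl9 g1008 g9
  rcases le_or_gt p (8 / 25) with g10 | g1010
  · exact txl10 g1009 g10
  rcases le_or_gt p (19 / 50) with g11 | g1011
  · exact txl11 g1010 g11
  rcases le_or_gt p (7 / 16) with g12 | g1012
  · exact txl12 g1011 g12
  · exact txl13 g1012 (by linarith)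
theorem ta_dt38 (x : ℝ) : dt38.val (fun p x => kcg.v p x) (-1 / 2) (cT (-1 / 2)) x = (0) := by
  simp only [dt38, DT.val, sw38, sl38, sv38]
  ((try push_cast); ring1)
theorem tb_dt38 (x : ℝ) : dt38.val (fun p x => kcg.v p x) (-7 / 16) (cT (-7 / 16)) x = (5319 / 1000000 + (x - 1 / 4) * (361 / 20000)) := by
  simp only [dt38, DT.val, sw38, sl38, sv38]
  ((try push_cast); ring1)
theorem ta_dt39 (x : ℝ) : dt39.val (fun p x => kcg.v p x) (-7 / 16) (cT (-7 / 16)) x = (5319 / 1000000 + (x - 1 / 4) * (361 / 20000)) := by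
  simp only [dt39, DT.val, sw39, sl39, sl39_2, sv39, sv39_2]
  ((try push_cast); ring1)
theorem tb_dt39 (x : ℝ) : dt39.val (fun p x => kcg.v p x) (-37 / 91) (181 / 182) x = (843091 / 94640000 + (x - 1 / 4) * (9025099 / 331240000) + (x - 1 / 4) ^ 2 * (2391 / 910000)) := by
  simp only [dt39, DT.val, sw39, sl39, sl39_2, sv39, sv39_2]
  ((try push_cast); ring1)
theorem ta_dt40 (x : ℝ) : dt40.val (fun p x => kcg.v p x) (-37 / 91) (181 / 182) x = (843091 / 94640000 + (x - 1 / 4) * (9025099 / 331240000) + (x - 1 / 4) ^ 2 * (2391 / 910000)) := by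
  simp only [dt40, DT.val, cloR, kgA]
  ring1
theorem tb_dt40 (x : ℝ) : dt40.val (fun p x => kcg.v p x) (-47 / 247) (467 / 494) x = (8363949 / 195228800 + (x - 1 / 4) * (63314493 / 1525225000) + (x - 1 / 4) ^ 2 * (226677 / 6175000)) := by
  simp only [dt40, DT.val, cloR, kgB]
  ring1
theorem ta_dt52 (x : ℝ) : dt52.val (fun p x => kcg.v p x) (-7 / 16) (cT (-7 / 16)) x = (5319 / 1000000 + (x - 1 / 4) * (361 / 20000)) :=
  (DT.val_le (by simp only [Cn.rt_v, Cn.ng_v]; norm_num)).trans (ta_dt39 x)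
theorem tb_dt52 (x : ℝ) : dt52.val (fun p x => kcg.v p x) (-47 / 247) (467 / 494) x = (8363949 / 195228800 + (x - 1 / 4) * (63314493 / 1525225000) + (x - 1 / 4) ^ 2 * (226677 / 6175000)) :=
  (DT.val_gt (by simp only [Cn.rt_v, Cn.ng_v]; norm_num)).trans (tb_dt40 x)
theorem ta_dt53 (x : ℝ) : dt53.val (fun p x => kcg.v p x) (-1 / 2) (cT (-1 / 2)) x = (0) :=
  (DT.val_le (by simp only [Cn.rt_v, Cn.ng_v]; norm_num)).trans (ta_dt38 x)
theorem tb_dt53 (x : ℝ) : dt53.val (fun p x => kcg.v p x) (-47 / 247) (467 / 494) x = (8363949 / 195228800 + (x - 1 / 4) * (63314493 / 1525225000) + (x - 1 / 4) ^ 2 * (226677 / 6175000)) :=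
  (DT.val_gt (by simp only [Cn.rt_v, Cn.ng_v]; norm_num)).trans (tb_dt52 x)
theorem ta_dt41 (x : ℝ) : dt41.val (fun p x => kcg.v p x) (-47 / 247) (467 / 494) x = (8363949 / 195228800 + (x - 1 / 4) * (63314493 / 1525225000) + (x - 1 / 4) ^ 2 * (226677 / 6175000)) := by
  simp only [dt41, DT.val, sw41, sl41, sl41_2, sv41, sv41_2]
  ((try push_cast); ring1)
theorem tb_dt41 (x : ℝ) : dt41.val (fun p x => kcg.v p x) (-7 / 50) (cT (-7 / 50)) x = (10523 / 200000 + (x - 1 / 4) * (1029 / 25000)) := by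
  simp only [dt41, DT.val, sw41, sl41, sl41_2, sv41, sv41_2]
  ((try push_cast); ring1)
theorem ta_dt42 (x : ℝ) : dt42.val (fun p x => kcg.v p x) (-7 / 50) (cT (-7 / 50)) x = (10523 / 200000 + (x - 1 / 4) * (1029 / 25000)) := by
  simp only [dt42, DT.val, sw42, sl42, sv42]
  ((try push_cast); ring1)
theorem tb_dt42 (x : ℝ) : dt42.val (fun p x => kcg.v p x) (-1 / 10) (cT (-1 / 10)) x = (14451 / 250000 + (x - 1 / 4) * (2803 / 50000)) := by
  simp only [dt42, DT.val, sw42, sl42, sv42]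
  ((try push_cast); ring1)
theorem ta_dt54 (x : ℝ) : dt54.val (fun p x => kcg.v p x) (-47 / 247) (467 / 494) x = (8363949 / 195228800 + (x - 1 / 4) * (63314493 / 1525225000) + (x - 1 / 4) ^ 2 * (226677 / 6175000)) :=
  (DT.val_le (by simp only [Cn.rt_v, Cn.ng_v]; norm_num)).trans (ta_dt41 x)
theorem tb_dt54 (x : ℝ) : dt54.val (fun p x => kcg.v p x) (-1 / 10) (cT (-1 / 10)) x = (14451 / 250000 + (x - 1 / 4) * (2803 / 50000)) :=
  (DT.val_gt (by simp only [Cn.rt_v, Cn.ng_v]; norm_num)).trans (tb_dt42 x)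
theorem ta_dt43 (x : ℝ) : dt43.val (fun p x => kcg.v p x) (-1 / 10) (cT (-1 / 10)) x = (14451 / 250000 + (x - 1 / 4) * (2803 / 50000)) := by
  simp only [dt43, DT.val, sw43, sl43, sv43]
  ((try push_cast); ring1)
theorem tb_dt43 (x : ℝ) : dt43.val (fun p x => kcg.v p x) (-1 / 16) (cT (-1 / 16)) x = (6063 / 100000 + (x - 1 / 4) * (97 / 1250)) := by
  simp only [dt43, DT.val, sw43, sl43, sv43]
  ((try push_cast); ring1)
theorem ta_dt44 (x : ℝ) : dt44.val (fun p x => kcg.v p x) (-1 / 16) (cT (-1 / 16)) x = (6063 / 100000 + (x - 1 / 4) * (97 / 1250)) := by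
  simp only [dt44, DT.val, sw44, sl44, sv44]
  ((try push_cast); ring1)
theorem tb_dt44 (x : ℝ) : dt44.val (fun p x => kcg.v p x) (1 / 16) (cT (1 / 16)) x = (58603 / 1000000 + (x - 1 / 4) * (3819 / 50000)) := by
  simp only [dt44, DT.val, sw44, sl44, sv44]
  ((try push_cast); ring1)
theorem ta_dt55 (x : ℝ) : dt55.val (fun p x => kcg.v p x) (-1 / 10) (cT (-1 / 10)) x = (14451 / 250000 + (x - 1 / 4) * (2803 / 50000)) :=
  (DT.val_le (by simp only [Cn.rt_v, Cn.ng_v]; norm_num)).trans (ta_dt43 x)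
theorem tb_dt55 (x : ℝ) : dt55.val (fun p x => kcg.v p x) (1 / 16) (cT (1 / 16)) x = (58603 / 1000000 + (x - 1 / 4) * (3819 / 50000)) :=
  (DT.val_gt (by simp only [Cn.rt_v, Cn.ng_v]; norm_num)).trans (tb_dt44 x)
theorem ta_dt56 (x : ℝ) : dt56.val (fun p x => kcg.v p x) (-47 / 247) (467 / 494) x = (8363949 / 195228800 + (x - 1 / 4) * (63314493 / 1525225000) + (x - 1 / 4) ^ 2 * (226677 / 6175000)) :=
  (DT.val_le (by simp only [Cn.rt_v, Cn.ng_v]; norm_num)).trans (ta_dt54 x)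
theorem tb_dt56 (x : ℝ) : dt56.val (fun p x => kcg.v p x) (1 / 16) (cT (1 / 16)) x = (58603 / 1000000 + (x - 1 / 4) * (3819 / 50000)) :=
  (DT.val_gt (by simp only [Cn.rt_v, Cn.ng_v]; norm_num)).trans (tb_dt55 x)
theorem ta_dt57 (x : ℝ) : dt57.val (fun p x => kcg.v p x) (-1 / 2) (cT (-1 / 2)) x = (0) :=
  (DT.val_le (by simp only [Cn.rt_v, Cn.ng_v]; norm_num)).trans (ta_dt53 x)
theorem tb_dt57 (x : ℝ) : dt57.val (fun p x => kcg.v p x) (1 / 16) (cT (1 / 16)) x = (58603 / 1000000 + (x - 1 / 4) * (3819 / 50000)) :=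
  (DT.val_gt (by simp only [Cn.rt_v, Cn.ng_v]; norm_num)).trans (tb_dt56 x)
theorem ta_dt45 (x : ℝ) : dt45.val (fun p x => kcg.v p x) (1 / 16) (cT (1 / 16)) x = (58603 / 1000000 + (x - 1 / 4) * (3819 / 50000)) := by
  simp only [dt45, DT.val, sw45, sl45, sv45]
  ((try push_cast); ring1)
theorem tb_dt45 (x : ℝ) : dt45.val (fun p x => kcg.v p x) (3 / 25) (cT (3 / 25)) x = (52359 / 1000000 + (x - 1 / 4) * (1173 / 25000)) := by
  simp only [dt45, DT.val, sw45, sl45, sv45]
  ((try push_cast); ring1)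
theorem ta_dt46 (x : ℝ) : dt46.val (fun p x => kcg.v p x) (3 / 25) (cT (3 / 25)) x = (52359 / 1000000 + (x - 1 / 4) * (1173 / 25000)) := by
  simp only [dt46, DT.val, sw46, sl46, sv46]
  ((try push_cast); ring1)
theorem tb_dt46 (x : ℝ) : dt46.val (fun p x => kcg.v p x) (9 / 50) (cT (9 / 50)) x = (41773 / 1000000 + (x - 1 / 4) * (829 / 20000)) := by
  simp only [dt46, DT.val, sw46, sl46, sv46]
  ((try push_cast); ring1)
theorem ta_dt47 (x : ℝ) : dt47.val (fun p x => kcg.v p x) (9 / 50) (cT (9 / 50)) x = (41773 / 1000000 + (x - 1 / 4) * (829 / 20000)) := by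
  simp only [dt47, DT.val, sw47, sl47, sv47]
  ((try push_cast); ring1)
theorem tb_dt47 (x : ℝ) : dt47.val (fun p x => kcg.v p x) (1 / 4) (cT (1 / 4)) x = (2773 / 100000 + (x - 1 / 4) * (5117 / 100000)) := by
  simp only [dt47, DT.val, sw47, sl47, sv47]
  ((try push_cast); ring1)
theorem ta_dt58 (x : ℝ) : dt58.val (fun p x => kcg.v p x) (3 / 25) (cT (3 / 25)) x = (52359 / 1000000 + (x - 1 / 4) * (1173 / 25000)) :=
  (DT.val_le (by simp only [Cn.rt_v, Cn.ng_v]; norm_num)).trans (ta_dt46 x)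
theorem tb_dt58 (x : ℝ) : dt58.val (fun p x => kcg.v p x) (1 / 4) (cT (1 / 4)) x = (2773 / 100000 + (x - 1 / 4) * (5117 / 100000)) :=
  (DT.val_gt (by simp only [Cn.rt_v, Cn.ng_v]; norm_num)).trans (tb_dt47 x)
theorem ta_dt59 (x : ℝ) : dt59.val (fun p x => kcg.v p x) (1 / 16) (cT (1 / 16)) x = (58603 / 1000000 + (x - 1 / 4) * (3819 / 50000)) :=
  (DT.val_le (by simp only [Cn.rt_v, Cn.ng_v]; norm_num)).trans (ta_dt45 x)
theorem tb_dt59 (x : ℝ) : dt59.val (fun p x => kcg.v p x) (1 / 4) (cT (1 / 4)) x = (2773 / 100000 + (x - 1 / 4) * (5117 / 100000)) :=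
  (DT.val_gt (by simp only [Cn.rt_v, Cn.ng_v]; norm_num)).trans (tb_dt58 x)
theorem ta_dt48 (x : ℝ) : dt48.val (fun p x => kcg.v p x) (1 / 4) (cT (1 / 4)) x = (2773 / 100000 + (x - 1 / 4) * (5117 / 100000)) := by
  simp only [dt48, DT.val, sw48, sl48, sv48]
  ((try push_cast); ring1)
theorem tb_dt48 (x : ℝ) : dt48.val (fun p x => kcg.v p x) (8 / 25) (cT (8 / 25)) x = (16283 / 1000000 + (x - 1 / 4) * (5167 / 100000)) := by
  simp only [dt48, DT.val, sw48, sl48, sv48]
  ((try push_cast); ring1)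
theorem ta_dt49 (x : ℝ) : dt49.val (fun p x => kcg.v p x) (8 / 25) (cT (8 / 25)) x = (16283 / 1000000 + (x - 1 / 4) * (5167 / 100000)) := by
  simp only [dt49, DT.val, sw49, sl49, sv49]
  ((try push_cast); ring1)
theorem tb_dt49 (x : ℝ) : dt49.val (fun p x => kcg.v p x) (19 / 50) (cT (19 / 50)) x = (8591 / 1000000 + (x - 1 / 4) * (3959 / 100000)) := by
  simp only [dt49, DT.val, sw49, sl49, sv49]
  ((try push_cast); ring1)
theorem ta_dt60 (x : ℝ) : dt60.val (fun p x => kcg.v p x) (1 / 4) (cT (1 / 4)) x = (2773 / 100000 + (x - 1 / 4) * (5117 / 100000)) :=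
  (DT.val_le (by simp only [Cn.rt_v, Cn.ng_v]; norm_num)).trans (ta_dt48 x)
theorem tb_dt60 (x : ℝ) : dt60.val (fun p x => kcg.v p x) (19 / 50) (cT (19 / 50)) x = (8591 / 1000000 + (x - 1 / 4) * (3959 / 100000)) :=
  (DT.val_gt (by simp only [Cn.rt_v, Cn.ng_v]; norm_num)).trans (tb_dt49 x)
theorem ta_dt50 (x : ℝ) : dt50.val (fun p x => kcg.v p x) (19 / 50) (cT (19 / 50)) x = (8591 / 1000000 + (x - 1 / 4) * (3959 / 100000)) := by
  simp only [dt50, DT.val, sw50, sl50, sv50]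
  ((try push_cast); ring1)
theorem tb_dt50 (x : ℝ) : dt50.val (fun p x => kcg.v p x) (7 / 16) (cT (7 / 16)) x = (1381 / 500000 + (x - 1 / 4) * (929 / 50000)) := by
  simp only [dt50, DT.val, sw50, sl50, sv50]
  ((try push_cast); ring1)
theorem ta_dt51 (x : ℝ) : dt51.val (fun p x => kcg.v p x) (7 / 16) (cT (7 / 16)) x = (1381 / 500000 + (x - 1 / 4) * (929 / 50000)) := by
  simp only [dt51, DT.val, sw51, sl51, sv51]
  ((try push_cast); ring1)
theorem tb_dt51 (x : ℝ) : dt51.val (fun p x => kcg.v p x) (1 / 2) (cT (1 / 2)) x = (0) := by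
  simp only [dt51, DT.val, sw51, sl51, sv51]
  ((try push_cast); ring1)
theorem ta_dt61 (x : ℝ) : dt61.val (fun p x => kcg.v p x) (19 / 50) (cT (19 / 50)) x = (8591 / 1000000 + (x - 1 / 4) * (3959 / 100000)) :=
  (DT.val_le (by simp only [Cn.rt_v, Cn.ng_v]; norm_num)).trans (ta_dt50 x)
theorem tb_dt61 (x : ℝ) : dt61.val (fun p x => kcg.v p x) (1 / 2) (cT (1 / 2)) x = (0) :=
  (DT.val_gt (by simp only [Cn.rt_v, Cn.ng_v]; norm_num)).trans (tb_dt51 x)
theorem ta_dt62 (x : ℝ) : dt62.val (fun p x => kcg.v p x) (1 / 4) (cT (1 / 4)) x = (2773 / 100000 + (x - 1 / 4) * (5117 / 100000)) :=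
  (DT.val_le (by simp only [Cn.rt_v, Cn.ng_v]; norm_num)).trans (ta_dt60 x)
theorem tb_dt62 (x : ℝ) : dt62.val (fun p x => kcg.v p x) (1 / 2) (cT (1 / 2)) x = (0) :=
  (DT.val_gt (by simp only [Cn.rt_v, Cn.ng_v]; norm_num)).trans (tb_dt61 x)
theorem ta_dt63 (x : ℝ) : dt63.val (fun p x => kcg.v p x) (1 / 16) (cT (1 / 16)) x = (58603 / 1000000 + (x - 1 / 4) * (3819 / 50000)) :=
  (DT.val_le (by simp only [Cn.rt_v, Cn.ng_v]; norm_num)).trans (ta_dt59 x)
theorem tb_dt63 (x : ℝ) : dt63.val (fun p x => kcg.v p x) (1 / 2) (cT (1 / 2)) x = (0) :=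
  (DT.val_gt (by simp only [Cn.rt_v, Cn.ng_v]; norm_num)).trans (tb_dt62 x)
theorem ta_dt64 (x : ℝ) : dt64.val (fun p x => kcg.v p x) (-1 / 2) (cT (-1 / 2)) x = (0) :=
  (DT.val_le (by simp only [Cn.rt_v, Cn.ng_v]; norm_num)).trans (ta_dt57 x)
theorem tb_dt64 (x : ℝ) : dt64.val (fun p x => kcg.v p x) (1 / 2) (cT (1 / 2)) x = (0) :=
  (DT.val_gt (by simp only [Cn.rt_v, Cn.ng_v]; norm_num)).trans (tb_dt63 x)
theorem to_dt38 (x : ℝ) : dt38.Ok (fun p x => kcg.v p x) x := trivial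
theorem to_dt39 (x : ℝ) : dt39.Ok (fun p x => kcg.v p x) x := trivial
theorem to_dt40 (x : ℝ) : dt40.Ok (fun p x => kcg.v p x) x := trivial
theorem to_dt52 (x : ℝ) : dt52.Ok (fun p x => kcg.v p x) x :=
  DT.ok_node (v := -37 / 91) (by simp only [Cn.rt_v, Cn.ng_v]; norm_num) (by rw [abs_le]; constructor <;> norm_num) ctA (tb_dt39 x) (ta_dt40 x) (by ring1) (to_dt39 x) (to_dt40 x)
theorem to_dt53 (x : ℝ) : dt53.Ok (fun p x => kcg.v p x) x :=
  DT.ok_node (v := -7 / 16) (by simp only [Cn.rt_v, Cn.ng_v]; norm_num) (by rw [abs_le]; constructor <;> norm_num) rfl (tb_dt38 x) (ta_dt52 x) (by ring1) (to_dt38 x) (to_dt52 x)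
theorem to_dt41 (x : ℝ) : dt41.Ok (fun p x => kcg.v p x) x := trivial
theorem to_dt42 (x : ℝ) : dt42.Ok (fun p x => kcg.v p x) x := trivial
theorem to_dt54 (x : ℝ) : dt54.Ok (fun p x => kcg.v p x) x :=
  DT.ok_node (v := -7 / 50) (by simp only [Cn.rt_v, Cn.ng_v]; norm_num) (by rw [abs_le]; constructor <;> norm_num) rfl (tb_dt41 x) (ta_dt42 x) (by ring1) (to_dt41 x) (to_dt42 x)
theorem to_dt43 (x : ℝ) : dt43.Ok (fun p x => kcg.v p x) x := trivial
theorem to_dt44 (x : ℝ) : dt44.Ok (fun p x => kcg.v p x) x := trivial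
theorem to_dt55 (x : ℝ) : dt55.Ok (fun p x => kcg.v p x) x :=
  DT.ok_node (v := -1 / 16) (by simp only [Cn.rt_v, Cn.ng_v]; norm_num) (by rw [abs_le]; constructor <;> norm_num) rfl (tb_dt43 x) (ta_dt44 x) (by ring1) (to_dt43 x) (to_dt44 x)
theorem to_dt56 (x : ℝ) : dt56.Ok (fun p x => kcg.v p x) x :=
  DT.ok_node (v := -1 / 10) (by simp only [Cn.rt_v, Cn.ng_v]; norm_num) (by rw [abs_le]; constructor <;> norm_num) rfl (tb_dt54 x) (ta_dt55 x) (by ring1) (to_dt54 x) (to_dt55 x)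
theorem to_dt57 (x : ℝ) : dt57.Ok (fun p x => kcg.v p x) x :=
  DT.ok_node (v := -47 / 247) (by simp only [Cn.rt_v, Cn.ng_v]; norm_num) (by rw [abs_le]; constructor <;> norm_num) ctB (tb_dt53 x) (ta_dt56 x) (by ring1) (to_dt53 x) (to_dt56 x)
theorem to_dt45 (x : ℝ) : dt45.Ok (fun p x => kcg.v p x) x := trivial
theorem to_dt46 (x : ℝ) : dt46.Ok (fun p x => kcg.v p x) x := trivial
theorem to_dt47 (x : ℝ) : dt47.Ok (fun p x => kcg.v p x) x := trivial
theorem to_dt58 (x : ℝ) : dt58.Ok (fun p x => kcg.v p x) x :=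
  DT.ok_node (v := 9 / 50) (by simp only [Cn.rt_v, Cn.ng_v]; norm_num) (by rw [abs_le]; constructor <;> norm_num) rfl (tb_dt46 x) (ta_dt47 x) (by ring1) (to_dt46 x) (to_dt47 x)
theorem to_dt59 (x : ℝ) : dt59.Ok (fun p x => kcg.v p x) x :=
  DT.ok_node (v := 3 / 25) (by simp only [Cn.rt_v, Cn.ng_v]; norm_num) (by rw [abs_le]; constructor <;> norm_num) rfl (tb_dt45 x) (ta_dt58 x) (by ring1) (to_dt45 x) (to_dt58 x)
theorem to_dt48 (x : ℝ) : dt48.Ok (fun p x => kcg.v p x) x := trivial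
theorem to_dt49 (x : ℝ) : dt49.Ok (fun p x => kcg.v p x) x := trivial
theorem to_dt60 (x : ℝ) : dt60.Ok (fun p x => kcg.v p x) x :=
  DT.ok_node (v := 8 / 25) (by simp only [Cn.rt_v, Cn.ng_v]; norm_num) (by rw [abs_le]; constructor <;> norm_num) rfl (tb_dt48 x) (ta_dt49 x) (by ring1) (to_dt48 x) (to_dt49 x)
theorem to_dt50 (x : ℝ) : dt50.Ok (fun p x => kcg.v p x) x := trivial
theorem to_dt51 (x : ℝ) : dt51.Ok (fun p x => kcg.v p x) x := trivial
theorem to_dt61 (x : ℝ) : dt61.Ok (fun p x => kcg.v p x) x :=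
  DT.ok_node (v := 7 / 16) (by simp only [Cn.rt_v, Cn.ng_v]; norm_num) (by rw [abs_le]; constructor <;> norm_num) rfl (tb_dt50 x) (ta_dt51 x) (by ring1) (to_dt50 x) (to_dt51 x)
theorem to_dt62 (x : ℝ) : dt62.Ok (fun p x => kcg.v p x) x :=
  DT.ok_node (v := 19 / 50) (by simp only [Cn.rt_v, Cn.ng_v]; norm_num) (by rw [abs_le]; constructor <;> norm_num) rfl (tb_dt60 x) (ta_dt61 x) (by ring1) (to_dt60 x) (to_dt61 x)
theorem to_dt63 (x : ℝ) : dt63.Ok (fun p x => kcg.v p x) x :=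
  DT.ok_node (v := 1 / 4) (by simp only [Cn.rt_v, Cn.ng_v]; norm_num) (by rw [abs_le]; constructor <;> norm_num) rfl (tb_dt59 x) (ta_dt62 x) (by ring1) (to_dt59 x) (to_dt62 x)
theorem to_dt64 (x : ℝ) : dt64.Ok (fun p x => kcg.v p x) x :=
  DT.ok_node (v := 1 / 16) (by simp only [Cn.rt_v, Cn.ng_v]; norm_num) (by rw [abs_le]; constructor <;> norm_num) rfl (tb_dt57 x) (ta_dt63 x) (by ring1) (to_dt57 x) (to_dt63 x)
theorem dok (x : ℝ) : dd.Ok x := ⟨ko_dt37 x, fun p h => kfe h, to_dt64 x⟩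
theorem K0_ (x : ℝ) : ∀ q y, OnC (0 : Fin 6) q y → TightK (tyO q) q (fun p => dd.kf.v p x) (c1n y) y (tKF 0 q y x) := by
  refine K0_of (R := fun q y => tKF 0 q y x) (kc := fun p => kcg.v p x) ?_ ?_ ?_
  · intro y h
    show tKF 0 0 y x = _
    ·
      rw [← (atF00 h).K]
      show kf0q0.v y x = _
      simp only [kf0q0, kf0q0_9, kf0q0_12, c1g_v]
      ((try push_cast); (try simp only [mul_inv]); (try ring_nf))
  · intro y h
    show tKF 0 1 y x = _
    ·
      rw [← (atF01 h).K]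
      show kf0q1.v y x = _
      simp only [kf0q1, kf0q1_10, c1g_v]
      ((try push_cast); (try simp only [mul_inv]); (try ring_nf))
  · intro y h
    show tKF 0 2 y x = _
    ·
      have ey := yag_v h.1.nonneg (h.2 rfl)
      rw [← (atF02 h).K]
      show kfc02.v (c1n y) x = _
      simp only [kfc02, c1g_v, ey]
      ((try push_cast); (try simp only [mul_inv]); (try ring_nf))
theorem L0_ (x : ℝ) : ∀ q y, OnC (0 : Fin 6) q y → TightL (tyO q) (fun p c => dd.TX.val dd.kf.v p c x) (c1n y) y (tL 0 q y x) := by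
  refine L0_of (R := fun q y => tL 0 q y x) (tx := fun p c => txg.v p c x) txe ?_ ?_ ?_
  · intro y h
    show tL 0 0 y x = _
    ·
      rw [← (atF00 h).L]
      show l0q0.v y x = _
      simp only [l0q0, c1g_v]
      ((try push_cast); (try simp only [mul_inv]); (try ring_nf))
  · intro y h
    show tL 0 1 y x = _
    ·
      rw [← (atF01 h).L]
      show l0q1.v y x = _
      simp only [l0q1, c1g_v]
      ((try push_cast); (try simp only [mul_inv]); (try ring_nf))
  · intro y h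
    show tL 0 2 y x = _
    ·
      have ey := yag_v h.1.nonneg (h.2 rfl)
      rw [← (atF02 h).L]
      show lc02.v (c1n y) x = _
      simp only [lc02, lc02_7, lc02_8, c1g_v, ey]
      ((try push_cast); (try simp only [mul_inv]); (try ring_nf))
theorem Kn_ (x : ℝ) : ∀ q y, InQ q y → TightK (tyN q) q (fun p => dd.kf.v p x) (c3n y) y (tKF (Fin.last 5) q y x) := by
  refine Kn_of (R := fun q y => tKF 5 q y x) (kc := fun p => kcg.v p x) ?_ ?_ ?_ ?_
  · intro y h
    show tKF 5 0 y x = _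
    ·
      rw [← (atF50 (onc h (by decide))).K]
      show kf5q0.v y x = _
      simp only [kf5q0, c3g_v]
      ((try push_cast); (try simp only [mul_inv]); (try ring_nf))
  · intro y h
    show tKF 5 1 y x = _
    ·
      rw [← (atF51 (onc h (by decide))).K]
      show kf5q1.v y x = _
      simp only [kf5q1, c3g_v]
      ((try push_cast); (try simp only [mul_inv]); (try ring_nf))
  · intro y h
    show tKF 5 2 y x = _
    ·
      rw [← (atF52 (onc h (by decide))).K]
      show kf5q2.v y x = _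
      simp only [kf5q2, c3g_v]
      ((try push_cast); (try simp only [mul_inv]); (try ring_nf))
  · intro y h
    show tKF 5 3 y x = _
    ·
      have ey := ycg_v h.nonneg h.le_two
      rw [← (atF53 (onc h (by decide))).K]
      show kfc53.v (c3n y) x = _
      simp only [kfc53, c3g_v, ey]
      ((try push_cast); (try simp only [mul_inv]); (try ring_nf))
theorem Ln_ (x : ℝ) : ∀ q y, InQ q y → TightL (tyN q) (fun p c => dd.TX.val dd.kf.v p c x) (c3n y) y (tL (Fin.last 5) q y x) := by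
  refine Ln_of (R := fun q y => tL 5 q y x) (tx := fun p c => txg.v p c x) txe ?_ ?_ ?_ ?_
  · intro y h
    show tL 5 0 y x = _
    ·
      rw [← (atF50 (onc h (by decide))).L]
      show l5q0.v y x = _
      simp only [l5q0, l5q0_6, l5q0_7, l5q0_8, c3g_v]
      ((try push_cast); (try simp only [mul_inv]); (try ring_nf))
  · intro y h
    show tL 5 1 y x = _
    ·
      rw [← (atF51 (onc h (by decide))).L]
      show l5q1.v y x = _
      simp only [l5q1, l5q1_7, l5q1_8, l5q1_9, c3g_v]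
      ((try push_cast); (try simp only [mul_inv]); (try ring_nf))
  · intro y h
    show tL 5 2 y x = _
    ·
      rw [← (atF52 (onc h (by decide))).L]
      show l5q2.v y x = _
      simp only [l5q2, l5q2_7, l5q2_8, l5q2_9, l5q2_12, l5q2_14, c3g_v]
      ((try push_cast); (try simp only [mul_inv]); (try ring_nf))
  · intro y h
    show tL 5 3 y x = _
    ·
      have ey := ycg_v h.nonneg h.le_two
      rw [← (atF53 (onc h (by decide))).L]
      show lc53.v (c3n y) x = _
      simp only [lc53, lc53_7, lc53_8, lc53_9, lc53_12, lc53_14, c3g_v, ey]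
      ((try push_cast); (try simp only [mul_inv]); (try ring_nf))
theorem f0_ : ∀ q y, InQ q y → (ff q).f.v y = crv PP 1 q y
  | 0, y, _ => ecv1q0.symm
  | 1, y, _ => ecv1q1.symm
  | 2, y, _ => ecv1q2.symm
  | 3, y, h => (ecv1q3 h.1).symm
theorem fn_ : ∀ q y, InQ q y → (fl q).f.v y = crv PP 4 q y
  | 0, y, _ => ecv4q0.symm
  | 1, y, _ => ecv4q1.symm
  | 2, y, _ => ecv4q2.symm
  | 3, y, h => (ecv4q3 h.1).symm
theorem yK00 {y x : ℝ} (h : OnC (0 : Fin 6) 0 y) : tKF 0 0 y x = kf0q0.v y x := (atF00 h).K.symm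
theorem yK10 {y x : ℝ} (h : InQ 0 y) : tKF 1 0 y x = kf1q0.v y x := (atF10 (onc h (by decide))).K.symm
theorem yK01 {y x : ℝ} (h : OnC (0 : Fin 6) 1 y) : tKF 0 1 y x = kf0q1.v y x := (atF01 h).K.symm
theorem yK11 {y x : ℝ} (h : InQ 1 y) : tKF 1 1 y x = kf1q1.v y x := (atF11 (onc h (by decide))).K.symm
theorem yK02 {y x : ℝ} (h : OnC (0 : Fin 6) 2 y) : tKF 0 2 y x = kf0q2.v y x := by
  rw [← (atF02 h).K]
  show kfc02.v (c1n y) x = _
  have ey := yag_v h.1.nonneg (h.2 rfl)
  simp only [kfc02, kf0q2, ey, c1g_v, c3g_v, swg_v]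
  ((try push_cast); (try ring_nf))
theorem yK12 {y x : ℝ} (h : InQ 2 y) : tKF 1 2 y x = kf1q2.v y x := (atF12 (onc h (by decide))).K.symm
theorem yK50 {y x : ℝ} (h : InQ 0 y) : tKF 5 0 y x = kf5q0.v y x := (atF50 (onc h (by decide))).K.symm
theorem yK40 {y x : ℝ} (h : InQ 0 y) : tKF 4 0 y x = kf4q0.v y x := (atF40 (onc h (by decide))).K.symm
theorem yK51 {y x : ℝ} (h : InQ 1 y) : tKF 5 1 y x = kf5q1.v y x := (atF51 (onc h (by decide))).K.symm
theorem yK41 {y x : ℝ} (h : InQ 1 y) : tKF 4 1 y x = kf4q1.v y x := (atF41 (onc h (by decide))).K.symm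
theorem yK52 {y x : ℝ} (h : InQ 2 y) : tKF 5 2 y x = kf5q2.v y x := (atF52 (onc h (by decide))).K.symm
theorem yK42 {y x : ℝ} (h : InQ 2 y) : tKF 4 2 y x = kf4q2.v y x := (atF42 (onc h (by decide))).K.symm
theorem yK53 {y x : ℝ} (h : InQ 3 y) : tKF 5 3 y x = kf5q3.v y x := by
  rw [← (atF53 (onc h (by decide))).K]
  show kfc53.v (c3n y) x = _
  have ey := ycg_v h.nonneg h.le_two
  simp only [kfc53, kf5q3, ey, c1g_v, c3g_v, swg_v]
  ((try push_cast); (try ring_nf))
theorem yK43 {y x : ℝ} (h : InQ 3 y) : tKF 4 3 y x = kf4q3.v y x := by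
  rw [← (atF43 (onc h (by decide))).K]
  show kfc43.v (c3n y) x = _
  have ey := ycg_v h.nonneg h.le_two
  simp only [kfc43, kf4q3, cv4r, ey, c1g_v, c3g_v, swg_v]
  ((try push_cast); (try ring_nf))
theorem yL00 {y x : ℝ} (h : OnC (0 : Fin 6) 0 y) : tL 0 0 y x = l0q0.v y x := (atF00 h).L.symm
theorem yL10 {y x : ℝ} (h : InQ 0 y) : tL 1 0 y x = l1q0.v y x := (atF10 (onc h (by decide))).L.symm
theorem yL01 {y x : ℝ} (h : OnC (0 : Fin 6) 1 y) : tL 0 1 y x = l0q1.v y x := (atF01 h).L.symm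
theorem yL11 {y x : ℝ} (h : InQ 1 y) : tL 1 1 y x = l1q1.v y x := (atF11 (onc h (by decide))).L.symm
theorem yL02 {y x : ℝ} (h : OnC (0 : Fin 6) 2 y) : tL 0 2 y x = l0q2.v y x := by
  rw [← (atF02 h).L]
  show lc02.v (c1n y) x = _
  have ey := yag_v h.1.nonneg (h.2 rfl)
  simp only [lc02, lc02_7, lc02_8, l0q2, l0q2_7, l0q2_8, ey, c1g_v, c3g_v, swg_v]
  ((try push_cast); (try ring_nf))
theorem yL12 {y x : ℝ} (h : InQ 2 y) : tL 1 2 y x = l1q2.v y x := (atF12 (onc h (by decide))).L.symm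
theorem yL50 {y x : ℝ} (h : InQ 0 y) : tL 5 0 y x = l5q0.v y x := (atF50 (onc h (by decide))).L.symm
theorem yL40 {y x : ℝ} (h : InQ 0 y) : tL 4 0 y x = l4q0.v y x := (atF40 (onc h (by decide))).L.symm
theorem yL51 {y x : ℝ} (h : InQ 1 y) : tL 5 1 y x = l5q1.v y x := (atF51 (onc h (by decide))).L.symm
theorem yL41 {y x : ℝ} (h : InQ 1 y) : tL 4 1 y x = l4q1.v y x := (atF41 (onc h (by decide))).L.symm
theorem yL52 {y x : ℝ} (h : InQ 2 y) : tL 5 2 y x = l5q2.v y x := (atF52 (onc h (by decide))).L.symm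
theorem yL42 {y x : ℝ} (h : InQ 2 y) : tL 4 2 y x = l4q2.v y x := (atF42 (onc h (by decide))).L.symm
theorem yL53 {y x : ℝ} (h : InQ 3 y) : tL 5 3 y x = l5q3.v y x := by
  rw [← (atF53 (onc h (by decide))).L]
  show lc53.v (c3n y) x = _
  have ey := ycg_v h.nonneg h.le_two
  simp only [lc53, lc53_7, lc53_8, lc53_9, lc53_12, lc53_14, l5q3, l5q3_7, l5q3_8, l5q3_9, l5q3_12, l5q3_14, ey, c1g_v, c3g_v, swg_v]
  ((try push_cast); (try ring_nf))
theorem yL43 {y x : ℝ} (h : InQ 3 y) : tL 4 3 y x = l4q3.v y x := by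
  rw [← (atF43 (onc h (by decide))).L]
  show lc43.v (c3n y) x = _
  have ey := ycg_v h.nonneg h.le_two
  simp only [lc43, l4q3, cv4r, ey, c1g_v, c3g_v, swg_v]
  ((try push_cast); (try ring_nf))
theorem sK0_ (x : ℝ) : ∀ q y, OnC (0 : Fin 6) q y → c1n y < crv PP 1 q y →
    (ff q).SK.v y x * (crv PP 1 q y - c1n y) = tKF 1 q y x - tKF 0 q y x := by
  intro q y h hlt
  rcases onC_q h with rfl | rfl | rfl
  · rw [yK10 h.1, yK00 h]
    rw [ecv1q0, ← c1g_v] at hlt ⊢
    have hd : 0 < cv1m.v y - c1g.v y := sub_pos.2 hlt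
    have hi := inv_mul_cancel₀ hd.ne'
    show skf0.v y x * _ = _
    simp only [skf0, kf1q0]
    (try push_cast)
    linear_combination (c1g.v y * bf1q0.v y x - kf0q0.v y x) * hi
  · rw [yK11 h.1, yK01 h]
    rw [ecv1q1, ← c1g_v] at hlt ⊢
    have hd : 0 < cv1m.v y - c1g.v y := sub_pos.2 hlt
    have hi := inv_mul_cancel₀ hd.ne'
    show skf1.v y x * _ = _
    simp only [skf1, kf1q1]
    (try push_cast)
    linear_combination (c1g.v y * bf1q1.v y x - kf0q1.v y x) * hi
  · rw [yK12 h.1, yK02 h]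
    rw [ecv1q2, ← c1g_v] at hlt ⊢
    have hd : 0 < cv1p.v y - c1g.v y := sub_pos.2 hlt
    have hi := inv_mul_cancel₀ hd.ne'
    have hb : |c1g.v y| ≤ 1 / 2 := by rw [c1g_v]; exact bnd_O h
    have eo := odd (x := x) hb
    show skf2.v y x * _ = _
    simp only [skf2, kf1q2, kf0q2, eo]
    (try push_cast)
    linear_combination (c1g.v y * (bf1q2.v y x - 1) + (y - 1) * kcg.v (c1g.v y) x) * hi
theorem sX0_ (x : ℝ) : ∀ q y, OnC (0 : Fin 6) q y → c1n y < crv PP 1 q y →
    (ff q).SX.v y x * (crv PP 1 q y - c1n y) = tL 1 q y x - tL 0 q y x := by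
  intro q y h hlt
  rcases onC_q h with rfl | rfl | rfl
  · rw [yL10 h.1, yL00 h]
    rw [ecv1q0, ← c1g_v] at hlt ⊢
    have hd : 0 < cv1m.v y - c1g.v y := sub_pos.2 hlt
    have hi := inv_mul_cancel₀ hd.ne'
    show sxf0.v y x * _ = _
    simp only [sxf0]
    (try push_cast)
    linear_combination (l1q0.v y x - l0q0.v y x) * hi
  · rw [yL11 h.1, yL01 h]
    rw [ecv1q1, ← c1g_v] at hlt ⊢
    have hd : 0 < cv1m.v y - c1g.v y := sub_pos.2 hlt
    have hi := inv_mul_cancel₀ hd.ne'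
    show sxf1.v y x * _ = _
    simp only [sxf1]
    (try push_cast)
    linear_combination (l1q1.v y x - l0q1.v y x) * hi
  · rw [yL12 h.1, yL02 h]
    rw [ecv1q2, ← c1g_v] at hlt ⊢
    have hd : 0 < cv1p.v y - c1g.v y := sub_pos.2 hlt
    have hi := inv_mul_cancel₀ hd.ne'
    show sxf2.v y x * _ = _
    simp only [sxf2]
    (try push_cast)
    linear_combination (l1q2.v y x - l0q2.v y x) * hi
theorem sKn_ (x : ℝ) : ∀ q y, InQ q y → crv PP 4 q y < c3n y →
    (fl q).SK.v y x * (c3n y - crv PP 4 q y) = tKF 5 q y x - tKF 4 q y x := by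
  intro q y h hlt
  match q, h with
  | 0, h =>
    rw [yK50 h, yK40 h]
    rw [ecv4q0, ← c3g_v] at hlt ⊢
    have hd : 0 < c3g.v y - cv4m.v y := sub_pos.2 hlt
    have hi := inv_mul_cancel₀ hd.ne'
    show skl0.v y x * _ = _
    simp only [skl0, kf4q0]
    (try push_cast)
    linear_combination (kf5q0.v y x - c3g.v y * bf4q0.v y x) * hi
  | 1, h =>
    rw [yK51 h, yK41 h]
    rw [ecv4q1, ← c3g_v] at hlt ⊢
    have hd : 0 < c3g.v y - cv4m.v y := sub_pos.2 hlt
    have hi := inv_mul_cancel₀ hd.ne'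
    show skl1.v y x * _ = _
    simp only [skl1, kf4q1]
    (try push_cast)
    linear_combination (kf5q1.v y x - c3g.v y * bf4q1.v y x) * hi
  | 2, h =>
    rw [yK52 h, yK42 h]
    rw [ecv4q2, ← c3g_v] at hlt ⊢
    have hd : 0 < c3g.v y - cv4p.v y := sub_pos.2 hlt
    have hi := inv_mul_cancel₀ hd.ne'
    show skl2.v y x * _ = _
    simp only [skl2, kf4q2]
    (try push_cast)
    linear_combination (kf5q2.v y x - c3g.v y * bf4q2.v y x) * hi
  | 3, h =>
    rw [yK53 h, yK43 h]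
    rw [ecv4q3 h.1, ← c3g_v] at hlt ⊢
    have hd : 0 < c3g.v y - cv4r.v y := sub_pos.2 hlt
    have hi := inv_mul_cancel₀ hd.ne'
    show skl3.v y x * _ = _
    simp only [skl3, kf4q3]
    (try push_cast)
    linear_combination (kf5q3.v y x - c3g.v y * bf4q3.v y x) * hi
theorem sXn_ (x : ℝ) : ∀ q y, InQ q y → crv PP 4 q y < c3n y →
    (fl q).SX.v y x * (c3n y - crv PP 4 q y) = tL 5 q y x - tL 4 q y x := by
  intro q y h hlt
  match q, h with
  | 0, h =>
    rw [yL50 h, yL40 h]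
    rw [ecv4q0, ← c3g_v] at hlt ⊢
    have hd : 0 < c3g.v y - cv4m.v y := sub_pos.2 hlt
    have hi := inv_mul_cancel₀ hd.ne'
    show sxl0.v y x * _ = _
    simp only [sxl0]
    (try push_cast)
    linear_combination (l5q0.v y x - l4q0.v y x) * hi
  | 1, h =>
    rw [yL51 h, yL41 h]
    rw [ecv4q1, ← c3g_v] at hlt ⊢
    have hd : 0 < c3g.v y - cv4m.v y := sub_pos.2 hlt
    have hi := inv_mul_cancel₀ hd.ne'
    show sxl1.v y x * _ = _
    simp only [sxl1]
    (try push_cast)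
    linear_combination (l5q1.v y x - l4q1.v y x) * hi
  | 2, h =>
    rw [yL52 h, yL42 h]
    rw [ecv4q2, ← c3g_v] at hlt ⊢
    have hd : 0 < c3g.v y - cv4p.v y := sub_pos.2 hlt
    have hi := inv_mul_cancel₀ hd.ne'
    show sxl2.v y x * _ = _
    simp only [sxl2]
    (try push_cast)
    linear_combination (l5q2.v y x - l4q2.v y x) * hi
  | 3, h =>
    rw [yL53 h, yL43 h]
    rw [ecv4q3 h.1, ← c3g_v] at hlt ⊢
    have hd : 0 < c3g.v y - cv4r.v y := sub_pos.2 hlt
    have hi := inv_mul_cancel₀ hd.ne'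
    show sxl3.v y x * _ = _
    simp only [sxl3]
    (try push_cast)
    linear_combination (l5q3.v y x - l4q3.v y x) * hi
theorem kn_ (x : ℝ) : ∀ X, |X| ≤ vv.k1.v → kcg.v (-X) x = -(k0c.v x * X) := by
  intro X h
  have h : |X| ≤ 1 / 16 := by
    refine h.trans_eq ?_
    show (Cn.rt 1 16).v = _
    rw [Cn.rt_v]
    norm_num
  obtain ⟨h1, h2⟩ := abs_le.1 h
  rw [kcl9 (p := -X) (by linarith) (by linarith)]
  simp only [k0c]
  push_cast
  ring
theorem tvm {p c x : ℝ} (h1 : -1 / 16 ≤ p) (h2 : p ≤ 1 / 16) : dt64.val (fun p x => kcg.v p x) p c x = (15769747 / 256000000 + (x - 1 / 4) * (155241 / 1600000)) + (-2027 / 125000 + (x - 1 / 4) * (-61 / 6250)) * p + (-507923 / 1000000 + (x - 1 / 4) * (-32057 / 6250)) * p ^ 2 := by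
  rcases eq_or_lt_of_le h1 with h | h1
  · subst h
    refine (DT.val_le (by simp only [Cn.rt_v, Cn.ng_v]; push_cast; linarith)).trans ?_
    refine (DT.val_gt (by simp only [Cn.rt_v, Cn.ng_v]; push_cast; linarith)).trans ?_
    refine (DT.val_gt (by simp only [Cn.rt_v, Cn.ng_v]; push_cast; linarith)).trans ?_
    refine (DT.val_le (by simp only [Cn.rt_v, Cn.ng_v]; push_cast; linarith)).trans ?_
    simp only [dt43, DT.val, sw43, sl43, sv43]
    ((try push_cast); ring1)
  ·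
    refine (DT.val_le (by simp only [Cn.rt_v, Cn.ng_v]; push_cast; linarith)).trans ?_
    refine (DT.val_gt (by simp only [Cn.rt_v, Cn.ng_v]; push_cast; linarith)).trans ?_
    refine (DT.val_gt (by simp only [Cn.rt_v, Cn.ng_v]; push_cast; linarith)).trans ?_
    refine (DT.val_gt (by simp only [Cn.rt_v, Cn.ng_v]; push_cast; linarith)).trans ?_
    simp only [dt44, DT.val, sw44, sl44, sv44]
    ((try push_cast); ring1)
theorem tn_ (x : ℝ) : ∀ X, |X| ≤ vv.k1.v → dd.tF x (-X) - dd.tF x X = m0c.v x * X := by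
  intro X h
  have h : |X| ≤ 1 / 16 := by
    refine h.trans_eq ?_
    show (Cn.rt 1 16).v = _
    rw [Cn.rt_v]
    norm_num
  obtain ⟨h1, h2⟩ := abs_le.1 h
  show dt64.val (fun p x => kcg.v p x) (-X) (cT (-X)) x - dt64.val (fun p x => kcg.v p x) X (cT X) x = _
  rw [tvm (by linarith) (by linarith), tvm (by linarith) (by linarith)]
  simp only [m0c]
  push_cast
  ring
theorem vK_ (x : ℝ) : ∀ y, InQ 2 y → tKF 1 2 y x = crv PP 1 2 y * bf1q2.v y x := by
  intro y h
  rw [yK12 h, ecv1q2]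
  simp only [kf1q2]
theorem vX_ (x : ℝ) : ∀ y, InQ 2 y → tL 1 2 y x = crv PP 1 2 y * bx1q2.v y x := by
  intro y h
  rw [yL12 h, ecv1q2]
  simp only [l1q2]
theorem n0_rK (y x : ℝ) : n0b.v y x = (1 - (y - 1) * k0c.v x) := by
  simp only [n0b, k0c]
  all_goals (try push_cast)
  all_goals (try ring)
theorem rK_ (x : ℝ) : ∀ y, OnC (0 : Fin 6) 2 y → c1n y < crv PP 1 2 y →
    rhk.v y x * (crv PP 1 2 y - c1n y) = crv PP 1 2 y * (bf1q2.v y x - (1 - (y - 1) * k0c.v x)) := by
  intro y h hlt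
  rw [ecv1q2, ← c1g_v] at hlt ⊢
  have hd : 0 < cv1p.v y - c1g.v y := sub_pos.2 hlt
  have hi := inv_mul_cancel₀ hd.ne'
  rw [← n0_rK]
  simp only [rhk]
  linear_combination ((bf1q2.v y x - n0b.v y x) * cv1p.v y) * hi
theorem n0_rX (y x : ℝ) : n0x.v y x = m0c.v x := by
  simp only [n0x, m0c]
  all_goals (try push_cast)
  all_goals (try ring)
theorem rX_ (x : ℝ) : ∀ y, OnC (0 : Fin 6) 2 y → c1n y < crv PP 1 2 y →
    rhx.v y x * (crv PP 1 2 y - c1n y) = crv PP 1 2 y * (bx1q2.v y x - m0c.v x) := by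
  intro y h hlt
  rw [ecv1q2, ← c1g_v] at hlt ⊢
  have hd : 0 < cv1p.v y - c1g.v y := sub_pos.2 hlt
  have hi := inv_mul_cancel₀ hd.ne'
  rw [← n0_rX]
  simp only [rhx]
  linear_combination ((bx1q2.v y x - n0x.v y x) * cv1p.v y) * hi
theorem flat_ (x : ℝ) : ∀ y, InQ 2 y → vv.ya.v ≤ y → y ≤ vv.yb.v → bf1q2.v y x = 1 - (y - 1) * k0c.v x ∧ bx1q2.v y x = m0c.v x := by
  intro y h h1 h2
  have ea : vv.ya.v = 577 / 500 := by
    show (Cn.rt 577 500).v = _
    rw [Cn.rt_v]
    norm_num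
  have eb : vv.yb.v = 231 / 200 := by
    show (Cn.rt 231 200).v = _
    rw [Cn.rt_v]
    norm_num
  rw [ea] at h1
  rw [eb] at h2
  constructor
  · simp only [bf1q2, bf1q2_3, k0c]
    rcases eq_or_lt_of_le h1 with g | h1
    · subst g
      ((try push_cast); (repeat first | rw [if_pos (by linarith)] | rw [if_neg (by linarith)] | erw [if_pos (by linarith)] | erw [if_neg (by linarith)]); (try push_cast); (try ring1))
    rcases eq_or_lt_of_le h2 with g | h2
    · subst g
      ((try push_cast); (repeat first | rw [if_pos (by linarith)] | rw [if_neg (by linarith)] | erw [if_pos (by linarith)] | erw [if_neg (by linarith)]); (try push_cast); (try ring1))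
    · ((try push_cast); (repeat first | rw [if_pos (by linarith)] | rw [if_neg (by linarith)] | erw [if_pos (by linarith)] | erw [if_neg (by linarith)]); (try push_cast); (try ring1))
  · simp only [bx1q2, bx1q2_3, m0c]
    rcases eq_or_lt_of_le h1 with g | h1
    · subst g
      ((try push_cast); (repeat first | rw [if_pos (by linarith)] | rw [if_neg (by linarith)] | erw [if_pos (by linarith)] | erw [if_neg (by linarith)]); (try push_cast); (try ring1))
    rcases eq_or_lt_of_le h2 with g | h2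
    · subst g
      ((try push_cast); (repeat first | rw [if_pos (by linarith)] | rw [if_neg (by linarith)] | erw [if_pos (by linarith)] | erw [if_neg (by linarith)]); (try push_cast); (try ring1))
    · ((try push_cast); (repeat first | rw [if_pos (by linarith)] | rw [if_neg (by linarith)] | erw [if_pos (by linarith)] | erw [if_neg (by linarith)]); (try push_cast); (try ring1))
theorem abk_ (x : ℝ) : ∀ y, InQ 2 y → vv.yb.v ≤ y → y ≤ vv.yk.v → bf1q2.v y x = 1 - (y - 1) * k0c.v x + sbk.v x * (y - vv.yb.v) ∧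
    bx1q2.v y x = m0c.v x + sbx.v x * (y - vv.yb.v) := by
  intro y h h1 h2
  have eb : vv.yb.v = 231 / 200 := by
    show (Cn.rt 231 200).v = _
    rw [Cn.rt_v]
    norm_num
  have ek : vv.yk.v = 29 / 25 := by
    show (Cn.rt 29 25).v = _
    rw [Cn.rt_v]
    norm_num
  rw [eb] at h1 ⊢
  rw [ek] at h2
  constructor
  · simp only [bf1q2, bf1q2_3, k0c, sbk]
    rcases eq_or_lt_of_le h1 with g | h1
    · subst g
      ((try push_cast); (repeat first | rw [if_pos (by linarith)] | rw [if_neg (by linarith)] | erw [if_pos (by linarith)] | erw [if_neg (by linarith)]); (try push_cast); (try ring1))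
    rcases eq_or_lt_of_le h2 with g | h2
    · subst g
      ((try push_cast); (repeat first | rw [if_pos (by linarith)] | rw [if_neg (by linarith)] | erw [if_pos (by linarith)] | erw [if_neg (by linarith)]); (try push_cast); (try ring1))
    · ((try push_cast); (repeat first | rw [if_pos (by linarith)] | rw [if_neg (by linarith)] | erw [if_pos (by linarith)] | erw [if_neg (by linarith)]); (try push_cast); (try ring1))
  · simp only [bx1q2, bx1q2_3, m0c, sbx]
    rcases eq_or_lt_of_le h1 with g | h1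
    · subst g
      ((try push_cast); (repeat first | rw [if_pos (by linarith)] | rw [if_neg (by linarith)] | erw [if_pos (by linarith)] | erw [if_neg (by linarith)]); (try push_cast); (try ring1))
    rcases eq_or_lt_of_le h2 with g | h2
    · subst g
      ((try push_cast); (repeat first | rw [if_pos (by linarith)] | rw [if_neg (by linarith)] | erw [if_pos (by linarith)] | erw [if_neg (by linarith)]); (try push_cast); (try ring1))
    · ((try push_cast); (repeat first | rw [if_pos (by linarith)] | rw [if_neg (by linarith)] | erw [if_pos (by linarith)] | erw [if_neg (by linarith)]); (try push_cast); (try ring1))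
theorem ka_dt65 (x : ℝ) : dt65.kv (-7 / 50) x = (2390731 / 1875000000 + (x - 1 / 4) * (544337 / 187500000)) := by
  simp only [dt65, DT.kv, sw65, sl65, sv65]
  ((try push_cast); ring1)
theorem kb_dt65 (x : ℝ) : dt65.kv (-3 / 25) x = (486287 / 625000000 + (x - 1 / 4) * (65631 / 31250000)) := by
  simp only [dt65, DT.kv, sw65, sl65, sv65]
  ((try push_cast); ring1)
theorem ka_dt66 (x : ℝ) : dt66.kv (-3 / 25) x = (486287 / 625000000 + (x - 1 / 4) * (65631 / 31250000)) := by
  simp only [dt66, DT.kv, sw66, sl66, sv66]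
  ((try push_cast); ring1)
theorem kb_dt66 (x : ℝ) : dt66.kv (-1 / 10) x = (7981209 / 23000000000 + (x - 1 / 4) * (11518989 / 9200000000)) := by
  simp only [dt66, DT.kv, sw66, sl66, sv66]
  ((try push_cast); ring1)
theorem ka_dt67 (x : ℝ) : dt67.kv (-1 / 10) x = (7981209 / 23000000000 + (x - 1 / 4) * (11518989 / 9200000000)) := by
  simp only [dt67, DT.kv, sw67, sl67, sv67]
  ((try push_cast); ring1)
theorem kb_dt67 (x : ℝ) : dt67.kv (-1 / 16) x = (0) := by
  simp only [dt67, DT.kv, sw67, sl67, sv67]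
  ((try push_cast); ring1)
theorem ka_dt72 (x : ℝ) : dt72.kv (-3 / 25) x = (486287 / 625000000 + (x - 1 / 4) * (65631 / 31250000)) :=
  (DT.kv_le (by simp only [Cn.rt_v, Cn.ng_v]; norm_num)).trans (ka_dt66 x)
theorem kb_dt72 (x : ℝ) : dt72.kv (-1 / 16) x = (0) :=
  (DT.kv_gt (by simp only [Cn.rt_v, Cn.ng_v]; norm_num)).trans (kb_dt67 x)
theorem ka_dt73 (x : ℝ) : dt73.kv (-7 / 50) x = (2390731 / 1875000000 + (x - 1 / 4) * (544337 / 187500000)) :=
  (DT.kv_le (by simp only [Cn.rt_v, Cn.ng_v]; norm_num)).trans (ka_dt65 x)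
theorem kb_dt73 (x : ℝ) : dt73.kv (-1 / 16) x = (0) :=
  (DT.kv_gt (by simp only [Cn.rt_v, Cn.ng_v]; norm_num)).trans (kb_dt72 x)
theorem ka_dt68 (x : ℝ) : dt68.kv (-1 / 16) x = (0) := by
  simp only [dt68, DT.kv, sl68, sv68]
  ((try push_cast); ring1)
theorem kb_dt68 (x : ℝ) : dt68.kv (1 / 16) x = (0) := by
  simp only [dt68, DT.kv, sl68, sv68]
  ((try push_cast); ring1)
theorem ka_dt69 (x : ℝ) : dt69.kv (1 / 16) x = (0) := by
  simp only [dt69, DT.kv, sw69, sl69, sv69]
  ((try push_cast); ring1)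
theorem kb_dt69 (x : ℝ) : dt69.kv (1 / 10) x = (-7981209 / 23000000000 + (x - 1 / 4) * (-11518989 / 9200000000)) := by
  simp only [dt69, DT.kv, sw69, sl69, sv69]
  ((try push_cast); ring1)
theorem ka_dt74 (x : ℝ) : dt74.kv (-1 / 16) x = (0) :=
  (DT.kv_le (by simp only [Cn.rt_v, Cn.ng_v]; norm_num)).trans (ka_dt68 x)
theorem kb_dt74 (x : ℝ) : dt74.kv (1 / 10) x = (-7981209 / 23000000000 + (x - 1 / 4) * (-11518989 / 9200000000)) :=
  (DT.kv_gt (by simp only [Cn.rt_v, Cn.ng_v]; norm_num)).trans (kb_dt69 x)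
theorem ka_dt70 (x : ℝ) : dt70.kv (1 / 10) x = (-7981209 / 23000000000 + (x - 1 / 4) * (-11518989 / 9200000000)) := by
  simp only [dt70, DT.kv, sw70, sl70, sv70]
  ((try push_cast); ring1)
theorem kb_dt70 (x : ℝ) : dt70.kv (3 / 25) x = (-486287 / 625000000 + (x - 1 / 4) * (-65631 / 31250000)) := by
  simp only [dt70, DT.kv, sw70, sl70, sv70]
  ((try push_cast); ring1)
theorem ka_dt71 (x : ℝ) : dt71.kv (3 / 25) x = (-486287 / 625000000 + (x - 1 / 4) * (-65631 / 31250000)) := by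
  simp only [dt71, DT.kv, sw71, sl71, sv71]
  ((try push_cast); ring1)
theorem kb_dt71 (x : ℝ) : dt71.kv (7 / 50) x = (-2390731 / 1875000000 + (x - 1 / 4) * (-544337 / 187500000)) := by
  simp only [dt71, DT.kv, sw71, sl71, sv71]
  ((try push_cast); ring1)
theorem ka_dt75 (x : ℝ) : dt75.kv (1 / 10) x = (-7981209 / 23000000000 + (x - 1 / 4) * (-11518989 / 9200000000)) :=
  (DT.kv_le (by simp only [Cn.rt_v, Cn.ng_v]; norm_num)).trans (ka_dt70 x)
theorem kb_dt75 (x : ℝ) : dt75.kv (7 / 50) x = (-2390731 / 1875000000 + (x - 1 / 4) * (-544337 / 187500000)) :=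
  (DT.kv_gt (by simp only [Cn.rt_v, Cn.ng_v]; norm_num)).trans (kb_dt71 x)
theorem ka_dt76 (x : ℝ) : dt76.kv (-1 / 16) x = (0) :=
  (DT.kv_le (by simp only [Cn.rt_v, Cn.ng_v]; norm_num)).trans (ka_dt74 x)
theorem kb_dt76 (x : ℝ) : dt76.kv (7 / 50) x = (-2390731 / 1875000000 + (x - 1 / 4) * (-544337 / 187500000)) :=
  (DT.kv_gt (by simp only [Cn.rt_v, Cn.ng_v]; norm_num)).trans (kb_dt75 x)
theorem ka_dt77 (x : ℝ) : dt77.kv (-7 / 50) x = (2390731 / 1875000000 + (x - 1 / 4) * (544337 / 187500000)) :=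
  (DT.kv_le (by simp only [Cn.rt_v, Cn.ng_v]; norm_num)).trans (ka_dt73 x)
theorem kb_dt77 (x : ℝ) : dt77.kv (7 / 50) x = (-2390731 / 1875000000 + (x - 1 / 4) * (-544337 / 187500000)) :=
  (DT.kv_gt (by simp only [Cn.rt_v, Cn.ng_v]; norm_num)).trans (kb_dt76 x)
theorem ko_dt65 (x : ℝ) : dt65.KOk x := trivial
theorem ko_dt66 (x : ℝ) : dt66.KOk x := trivial
theorem ko_dt67 (x : ℝ) : dt67.KOk x := trivial
theorem ko_dt72 (x : ℝ) : dt72.KOk x :=
  DT.kOk_node (v := -1 / 10) (by simp only [Cn.rt_v, Cn.ng_v]; norm_num) (kb_dt66 x) (ka_dt67 x) (by ring1) (ko_dt66 x) (ko_dt67 x)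
theorem ko_dt73 (x : ℝ) : dt73.KOk x :=
  DT.kOk_node (v := -3 / 25) (by simp only [Cn.rt_v, Cn.ng_v]; norm_num) (kb_dt65 x) (ka_dt72 x) (by ring1) (ko_dt65 x) (ko_dt72 x)
theorem ko_dt68 (x : ℝ) : dt68.KOk x := trivial
theorem ko_dt69 (x : ℝ) : dt69.KOk x := trivial
theorem ko_dt74 (x : ℝ) : dt74.KOk x :=
  DT.kOk_node (v := 1 / 16) (by simp only [Cn.rt_v, Cn.ng_v]; norm_num) (kb_dt68 x) (ka_dt69 x) (by ring1) (ko_dt68 x) (ko_dt69 x)
theorem ko_dt70 (x : ℝ) : dt70.KOk x := trivial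
theorem ko_dt71 (x : ℝ) : dt71.KOk x := trivial
theorem ko_dt75 (x : ℝ) : dt75.KOk x :=
  DT.kOk_node (v := 3 / 25) (by simp only [Cn.rt_v, Cn.ng_v]; norm_num) (kb_dt70 x) (ka_dt71 x) (by ring1) (ko_dt70 x) (ko_dt71 x)
theorem ko_dt76 (x : ℝ) : dt76.KOk x :=
  DT.kOk_node (v := 1 / 10) (by simp only [Cn.rt_v, Cn.ng_v]; norm_num) (kb_dt74 x) (ka_dt75 x) (by ring1) (ko_dt74 x) (ko_dt75 x)
theorem ko_dt77 (x : ℝ) : dt77.KOk x :=
  DT.kOk_node (v := -1 / 16) (by simp only [Cn.rt_v, Cn.ng_v]; norm_num) (kb_dt73 x) (ka_dt76 x) (by ring1) (ko_dt73 x) (ko_dt76 x)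
theorem phl0 {p x : ℝ} (h2 : p ≤ -3 / 25) : dt77.kv p x = (-1281399 / 625000000 + (x - 1 / 4) * (486511 / 31250000)) + (-842677 / 37500000 + (x - 1 / 4) * (455339 / 1875000)) * p + (2287 / 250000 + (x - 1 / 4) * (27211 / 25000)) * p ^ 2 := by
  refine (DT.kv_le (by simp only [Cn.rt_v, Cn.ng_v]; push_cast; linarith)).trans ?_
  refine (DT.kv_le (by simp only [Cn.rt_v, Cn.ng_v]; push_cast; linarith)).trans ?_
  simp only [dt65, DT.kv, sw65, sl65, sv65]
  ((try push_cast); ring1)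
theorem phl1 {p x : ℝ} (h1 : -3 / 25 < p) (h2 : p ≤ -1 / 10) : dt77.kv p x = (672227 / 11500000000 + (x - 1 / 4) * (-80555457 / 4600000000)) + (5828317 / 460000000 + (x - 1 / 4) * (-283976583 / 920000000)) * p + (77779 / 500000 + (x - 1 / 4) * (-121029 / 100000)) * p ^ 2 := by
  refine (DT.kv_le (by simp only [Cn.rt_v, Cn.ng_v]; push_cast; linarith)).trans ?_
  refine (DT.kv_gt (by simp only [Cn.rt_v, Cn.ng_v]; push_cast; linarith)).trans ?_
  refine (DT.kv_le (by simp only [Cn.rt_v, Cn.ng_v]; push_cast; linarith)).trans ?_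
  simp only [dt66, DT.kv, sw66, sl66, sv66]
  ((try push_cast); ring1)
theorem phl2 {p x : ℝ} (h1 : -1 / 10 < p) (h2 : p ≤ -1 / 16) : dt77.kv p x = (1099373 / 1150000000 + (x - 1 / 4) * (1592653 / 460000000)) + (70469411 / 2300000000 + (x - 1 / 4) * (102016271 / 920000000)) * p + (61373 / 250000 + (x - 1 / 4) * (17757 / 20000)) * p ^ 2 := by
  refine (DT.kv_le (by simp only [Cn.rt_v, Cn.ng_v]; push_cast; linarith)).trans ?_
  refine (DT.kv_gt (by simp only [Cn.rt_v, Cn.ng_v]; push_cast; linarith)).trans ?_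
  refine (DT.kv_gt (by simp only [Cn.rt_v, Cn.ng_v]; push_cast; linarith)).trans ?_
  simp only [dt67, DT.kv, sw67, sl67, sv67]
  ((try push_cast); ring1)
theorem phl3 {p x : ℝ} (h1 : -1 / 16 < p) (h2 : p ≤ 1 / 16) : dt77.kv p x = (0) + (0) * p := by
  refine (DT.kv_gt (by simp only [Cn.rt_v, Cn.ng_v]; push_cast; linarith)).trans ?_
  refine (DT.kv_le (by simp only [Cn.rt_v, Cn.ng_v]; push_cast; linarith)).trans ?_
  refine (DT.kv_le (by simp only [Cn.rt_v, Cn.ng_v]; push_cast; linarith)).trans ?_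
  simp only [dt68, DT.kv, sl68, sv68]
  ((try push_cast); ring1)
theorem phl4 {p x : ℝ} (h1 : 1 / 16 < p) (h2 : p ≤ 1 / 10) : dt77.kv p x = (-1099373 / 1150000000 + (x - 1 / 4) * (-1592653 / 460000000)) + (70469411 / 2300000000 + (x - 1 / 4) * (102016271 / 920000000)) * p + (-61373 / 250000 + (x - 1 / 4) * (-17757 / 20000)) * p ^ 2 := by
  refine (DT.kv_gt (by simp only [Cn.rt_v, Cn.ng_v]; push_cast; linarith)).trans ?_
  refine (DT.kv_le (by simp only [Cn.rt_v, Cn.ng_v]; push_cast; linarith)).trans ?_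
  refine (DT.kv_gt (by simp only [Cn.rt_v, Cn.ng_v]; push_cast; linarith)).trans ?_
  simp only [dt69, DT.kv, sw69, sl69, sv69]
  ((try push_cast); ring1)
theorem phl5 {p x : ℝ} (h1 : 1 / 10 < p) (h2 : p ≤ 3 / 25) : dt77.kv p x = (-672227 / 11500000000 + (x - 1 / 4) * (80555457 / 4600000000)) + (5828317 / 460000000 + (x - 1 / 4) * (-283976583 / 920000000)) * p + (-77779 / 500000 + (x - 1 / 4) * (121029 / 100000)) * p ^ 2 := by
  refine (DT.kv_gt (by simp only [Cn.rt_v, Cn.ng_v]; push_cast; linarith)).trans ?_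
  refine (DT.kv_gt (by simp only [Cn.rt_v, Cn.ng_v]; push_cast; linarith)).trans ?_
  refine (DT.kv_le (by simp only [Cn.rt_v, Cn.ng_v]; push_cast; linarith)).trans ?_
  simp only [dt70, DT.kv, sw70, sl70, sv70]
  ((try push_cast); ring1)
theorem phl6 {p x : ℝ} (h1 : 3 / 25 < p) (h2 : p ≤ 7 / 50) : dt77.kv p x = (1281399 / 625000000 + (x - 1 / 4) * (-486511 / 31250000)) + (-842677 / 37500000 + (x - 1 / 4) * (455339 / 1875000)) * p + (-2287 / 250000 + (x - 1 / 4) * (-27211 / 25000)) * p ^ 2 := by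
  refine (DT.kv_gt (by simp only [Cn.rt_v, Cn.ng_v]; push_cast; linarith)).trans ?_
  refine (DT.kv_gt (by simp only [Cn.rt_v, Cn.ng_v]; push_cast; linarith)).trans ?_
  refine (DT.kv_gt (by simp only [Cn.rt_v, Cn.ng_v]; push_cast; linarith)).trans ?_
  simp only [dt71, DT.kv, sw71, sl71, sv71]
  ((try push_cast); ring1)
theorem tvc4 {p x : ℝ} (h1 : -7 / 50 ≤ p) (h2 : p ≤ -1 / 10) : dt64.val (fun p x => kcg.v p x) p (cT p) x = (7695209 / 125000000 + (x - 1 / 4) * (224973 / 1562500)) + (-706087 / 25000000 + (x - 1 / 4) * (1551469 / 1250000)) * p + (-329101 / 500000 + (x - 1 / 4) * (90487 / 25000)) * p ^ 2 := by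
  rcases eq_or_lt_of_le h1 with h | h1
  · subst h
    refine (DT.val_le (by simp only [Cn.rt_v, Cn.ng_v]; push_cast; linarith)).trans ?_
    refine (DT.val_gt (by simp only [Cn.rt_v, Cn.ng_v]; push_cast; linarith)).trans ?_
    refine (DT.val_le (by simp only [Cn.rt_v, Cn.ng_v]; push_cast; linarith)).trans ?_
    refine (DT.val_le (by simp only [Cn.rt_v, Cn.ng_v]; push_cast; linarith)).trans ?_
    simp only [dt41, DT.val, sw41, sl41, sl41_2, sv41, sv41_2]
    ((try push_cast); ring1)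
  ·
    refine (DT.val_le (by simp only [Cn.rt_v, Cn.ng_v]; push_cast; linarith)).trans ?_
    refine (DT.val_gt (by simp only [Cn.rt_v, Cn.ng_v]; push_cast; linarith)).trans ?_
    refine (DT.val_le (by simp only [Cn.rt_v, Cn.ng_v]; push_cast; linarith)).trans ?_
    refine (DT.val_gt (by simp only [Cn.rt_v, Cn.ng_v]; push_cast; linarith)).trans ?_
    simp only [dt42, DT.val, sw42, sl42, sv42]
    ((try push_cast); ring1)
theorem tvc5 {p x : ℝ} (h1 : -1 / 10 ≤ p) (h2 : p ≤ -1 / 16) : dt64.val (fun p x => kcg.v p x) p (cT p) x = (1213283 / 20000000 + (x - 1 / 4) * (984067 / 8000000)) + (-462121 / 10000000 + (x - 1 / 4) * (3286471 / 4000000)) * p + (-93517 / 125000 + (x - 1 / 4) * (76067 / 50000)) * p ^ 2 := by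
  rcases eq_or_lt_of_le h1 with h | h1
  · subst h
    refine (DT.val_le (by simp only [Cn.rt_v, Cn.ng_v]; push_cast; linarith)).trans ?_
    refine (DT.val_gt (by simp only [Cn.rt_v, Cn.ng_v]; push_cast; linarith)).trans ?_
    refine (DT.val_le (by simp only [Cn.rt_v, Cn.ng_v]; push_cast; linarith)).trans ?_
    refine (DT.val_gt (by simp only [Cn.rt_v, Cn.ng_v]; push_cast; linarith)).trans ?_
    simp only [dt42, DT.val, sw42, sl42, sv42]
    ((try push_cast); ring1)
  ·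
    refine (DT.val_le (by simp only [Cn.rt_v, Cn.ng_v]; push_cast; linarith)).trans ?_
    refine (DT.val_gt (by simp only [Cn.rt_v, Cn.ng_v]; push_cast; linarith)).trans ?_
    refine (DT.val_gt (by simp only [Cn.rt_v, Cn.ng_v]; push_cast; linarith)).trans ?_
    refine (DT.val_le (by simp only [Cn.rt_v, Cn.ng_v]; push_cast; linarith)).trans ?_
    simp only [dt43, DT.val, sw43, sl43, sv43]
    ((try push_cast); ring1)
theorem tvc6 {p x : ℝ} (h1 : -1 / 16 ≤ p) (h2 : p ≤ 1 / 16) : dt64.val (fun p x => kcg.v p x) p (cT p) x = (15769747 / 256000000 + (x - 1 / 4) * (155241 / 1600000)) + (-2027 / 125000 + (x - 1 / 4) * (-61 / 6250)) * p + (-507923 / 1000000 + (x - 1 / 4) * (-32057 / 6250)) * p ^ 2 := by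
  rcases eq_or_lt_of_le h1 with h | h1
  · subst h
    refine (DT.val_le (by simp only [Cn.rt_v, Cn.ng_v]; push_cast; linarith)).trans ?_
    refine (DT.val_gt (by simp only [Cn.rt_v, Cn.ng_v]; push_cast; linarith)).trans ?_
    refine (DT.val_gt (by simp only [Cn.rt_v, Cn.ng_v]; push_cast; linarith)).trans ?_
    refine (DT.val_le (by simp only [Cn.rt_v, Cn.ng_v]; push_cast; linarith)).trans ?_
    simp only [dt43, DT.val, sw43, sl43, sv43]
    ((try push_cast); ring1)
  ·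
    refine (DT.val_le (by simp only [Cn.rt_v, Cn.ng_v]; push_cast; linarith)).trans ?_
    refine (DT.val_gt (by simp only [Cn.rt_v, Cn.ng_v]; push_cast; linarith)).trans ?_
    refine (DT.val_gt (by simp only [Cn.rt_v, Cn.ng_v]; push_cast; linarith)).trans ?_
    refine (DT.val_gt (by simp only [Cn.rt_v, Cn.ng_v]; push_cast; linarith)).trans ?_
    simp only [dt44, DT.val, sw44, sl44, sv44]
    ((try push_cast); ring1)
theorem tvc7 {p x : ℝ} (h1 : 1 / 16 ≤ p) (h2 : p ≤ 3 / 25) : dt64.val (fun p x => kcg.v p x) p (cT p) x = (141726291 / 2300000000 + (x - 1 / 4) * (116353011 / 920000000)) + (-38775181 / 2300000000 + (x - 1 / 4) * (-875863001 / 920000000)) * p + (-125661 / 250000 + (x - 1 / 4) * (240919 / 100000)) * p ^ 2 := by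
  rcases eq_or_lt_of_le h1 with h | h1
  · subst h
    refine (DT.val_le (by simp only [Cn.rt_v, Cn.ng_v]; push_cast; linarith)).trans ?_
    refine (DT.val_gt (by simp only [Cn.rt_v, Cn.ng_v]; push_cast; linarith)).trans ?_
    refine (DT.val_gt (by simp only [Cn.rt_v, Cn.ng_v]; push_cast; linarith)).trans ?_
    refine (DT.val_gt (by simp only [Cn.rt_v, Cn.ng_v]; push_cast; linarith)).trans ?_
    simp only [dt44, DT.val, sw44, sl44, sv44]
    ((try push_cast); ring1)
  ·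
    refine (DT.val_gt (by simp only [Cn.rt_v, Cn.ng_v]; push_cast; linarith)).trans ?_
    refine (DT.val_le (by simp only [Cn.rt_v, Cn.ng_v]; push_cast; linarith)).trans ?_
    refine (DT.val_le (by simp only [Cn.rt_v, Cn.ng_v]; push_cast; linarith)).trans ?_
    simp only [dt45, DT.val, sw45, sl45, sv45]
    ((try push_cast); ring1)
theorem tvc8 {p x : ℝ} (h1 : 3 / 25 ≤ p) (h2 : p ≤ 9 / 50) : dt64.val (fun p x => kcg.v p x) p (cT p) x = (18597323 / 312500000 + (x - 1 / 4) * (4985971 / 31250000)) + (274243 / 15000000 + (x - 1 / 4) * (-1127657 / 750000)) * p + (-324527 / 500000 + (x - 1 / 4) * (58849 / 12500)) * p ^ 2 := by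
  rcases eq_or_lt_of_le h1 with h | h1
  · subst h
    refine (DT.val_gt (by simp only [Cn.rt_v, Cn.ng_v]; push_cast; linarith)).trans ?_
    refine (DT.val_le (by simp only [Cn.rt_v, Cn.ng_v]; push_cast; linarith)).trans ?_
    refine (DT.val_le (by simp only [Cn.rt_v, Cn.ng_v]; push_cast; linarith)).trans ?_
    simp only [dt45, DT.val, sw45, sl45, sv45]
    ((try push_cast); ring1)
  ·
    refine (DT.val_gt (by simp only [Cn.rt_v, Cn.ng_v]; push_cast; linarith)).trans ?_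
    refine (DT.val_le (by simp only [Cn.rt_v, Cn.ng_v]; push_cast; linarith)).trans ?_
    refine (DT.val_gt (by simp only [Cn.rt_v, Cn.ng_v]; push_cast; linarith)).trans ?_
    refine (DT.val_le (by simp only [Cn.rt_v, Cn.ng_v]; push_cast; linarith)).trans ?_
    simp only [dt46, DT.val, sw46, sl46, sv46]
    ((try push_cast); ring1)
theorem ph_ (x : ℝ) : ∀ u, |u| ≤ vv.k2.v → dd.tF x (-u) - dd.tF x u = m0c.v x * u + dt77.kv u x := by
  intro u h
  have h : |u| ≤ 7 / 50 := by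
    refine h.trans_eq ?_
    show (Cn.rt 7 50).v = _
    rw [Cn.rt_v]
    norm_num
  obtain ⟨h1, h2⟩ := abs_le.1 h
  show dt64.val (fun p x => kcg.v p x) (-u) (cT (-u)) x - dt64.val (fun p x => kcg.v p x) u (cT u) x = _
  rcases le_or_gt u (-3 / 25) with g0 | g1000
  ·
    rw [tvc8 (p := -u) (by linarith) (by linarith), tvc4 (p := u) (by linarith) (by linarith), phl0 g0]
    simp only [m0c]
    push_cast
    ring
  rcases le_or_gt u (-1 / 10) with g1 | g1001
  ·
    rw [tvc7 (p := -u) (by linarith) (by linarith), tvc4 (p := u) (by linarith) (by linarith), phl1 g1000 g1]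
    simp only [m0c]
    push_cast
    ring
  rcases le_or_gt u (-1 / 16) with g2 | g1002
  ·
    rw [tvc7 (p := -u) (by linarith) (by linarith), tvc5 (p := u) (by linarith) (by linarith), phl2 g1001 g2]
    simp only [m0c]
    push_cast
    ring
  rcases le_or_gt u (1 / 16) with g3 | g1003
  ·
    rw [tvc6 (p := -u) (by linarith) (by linarith), tvc6 (p := u) (by linarith) (by linarith), phl3 g1002 g3]
    simp only [m0c]
    push_cast
    ring
  rcases le_or_gt u (1 / 10) with g4 | g1004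
  ·
    rw [tvc5 (p := -u) (by linarith) (by linarith), tvc7 (p := u) (by linarith) (by linarith), phl4 g1003 g4]
    simp only [m0c]
    push_cast
    ring
  rcases le_or_gt u (3 / 25) with g5 | g1005
  ·
    rw [tvc4 (p := -u) (by linarith) (by linarith), tvc7 (p := u) (by linarith) (by linarith), phl5 g1004 g5]
    simp only [m0c]
    push_cast
    ring
  ·
    rw [tvc4 (p := -u) (by linarith) (by linarith), tvc8 (p := u) (by linarith) (by linarith), phl6 g1005 (by linarith)]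
    simp only [m0c]
    push_cast
    ring
theorem kqf_ {y : ℝ} (x : ℝ) (h : OnC (0 : Fin 6) 2 y) : kqf.v y x * c1g.v y = (y - 1) * kcg.v (c1g.v y) x := by
  have h0 : 0 ≤ c1g.v y := by rw [c1g_v]; exact c1n_nn y
  simp only [kqf]
  (try push_cast)
  split_ifs with hh
  · rw [kcl9 (p := c1g.v y) (by linarith) (by linarith)]
    ring
  · have hc : c1g.v y ≠ 0 := by
      intro e
      rw [e] at hh
      exact hh (by norm_num)
    have hi := inv_mul_cancel₀ hc
    linear_combination ((y - 1) * kcg.v (c1g.v y) x) * hi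
theorem sM_ (x : ℝ) : ∀ y, OnC (0 : Fin 6) 2 y → c1n y < crv PP 1 2 y →
    (1 + skm.v y x) * (crv PP 1 2 y - c1n y) = tKF 1 2 y x - tKF 0 2 y x := by
  intro y h hlt
  rw [yK12 h.1, yK02 h]
  rw [ecv1q2, ← c1g_v] at hlt ⊢
  have hd : 0 < cv1p.v y - c1g.v y := sub_pos.2 hlt
  have hi := inv_mul_cancel₀ hd.ne'
  have hb : |c1g.v y| ≤ 1 / 2 := by rw [c1g_v]; exact bnd_O h
  have eo := odd (x := x) hb
  have hk := kqf_ x h
  simp only [skm, kf1q2, kf0q2, eo]
  (try push_cast)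
  linear_combination (cv1p.v y * ((bf1q2.v y x - 1) + kqf.v y x)) * hi + hk
theorem ok {x : ℝ} (g0 : 0 < x) (g1 : x < 1) : tt.Ok PP tKF tL x where
  i0 := rfl
  il := rfl
  rl := by
    show 1 < PP.ρ 4
    have e : PP.ρ 4 = 8 / 5 := rfl
    rw [e]
    norm_num
  ok := dok x
  kh := kenS_eq g0 g1
  odd := fun p h => odd h
  K0 := K0_ x
  L0 := L0_ x
  Kn := Kn_ x
  Ln := Ln_ x
  f0 := f0_
  fn := fn_
  sK0 := sK0_ x
  sX0 := sX0_ x
  sKn := sKn_ x
  sXn := sXn_ x
  k1 := by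
    show 0 ≤ (Cn.rt 1 16).v ∧ (Cn.rt 1 16).v ≤ 1 / 2
    rw [Cn.rt_v]
    constructor <;> norm_num
  kn := kn_ x
  tn := tn_ x
  vK := vK_ x
  vX := vX_ x
  rK := rK_ x
  rX := rX_ x
  yb := by
    show 0 ≤ (Cn.rt 231 200).v ∧ 1 ≤ 3 / 4 * (Cn.rt 231 200).v ^ 2
    rw [Cn.rt_v]
    constructor <;> norm_num
  flat := flat_ x
  abk := abk_ x
  phk := ko_dt77 x
  ph := ph_ x
  sM := sM_ x
  yz := by
    show (Cn.rt 577 500).v ≤ (Cn.rt 577 500).v ∧ 0 ≤ (Cn.rt 577 500).v ∧ 1 ≤ 3 / 4 * (Cn.rt 577 500).v ^ 2 + (Cn.rt 1 16).v ^ 2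
    simp only [Cn.rt_v]
    refine ⟨?_, ?_, ?_⟩ <;> norm_num
theorem okx {x : ℝ} (hx : ((201326592 : ℕ) : ℝ) / S ≤ x) (hx' : x ≤ (((201326592 : ℕ) : ℝ) + (134217728 : ℕ)) / S) : tt.Ok PP tKF tL x :=
  ok (rng_unit rfl rfl ⟨hx, hx'⟩).1 (rng_unit rfl rfl ⟨hx, hx'⟩).2

end Pool.Agent.Strip051.G.I3_16_5_16.Tab.St
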