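import Pool.Agent.Strip051.G.I3_16_5_16.Tab

/-! # Certificates N7 (generated) -/

set_option linter.all false
set_option maxRecDepth 100000

namespace Pool.Agent.Strip051.G.I3_16_5_16.Tab.C.NA02

open Pool.Agent.Strip051.PB Pool.Agent.Strip051.PB.T
open Pool.Agent.Strip051.G.I3_16_5_16.Tab

noncomputable def cut_pm_022_a : Cut := Cut.of [[⟨0, 0, 0, 67108864⟩, ⟨1, 1, 0, 67108864⟩, ⟨2, 1, 0, 67108864⟩], [⟨0, 0, 1, 67108864⟩, ⟨1, 1, 0, 16777216⟩, ⟨2, 1, 1, 67108864⟩]]

noncomputable def f_pm_022_a : ℕ → ℕ → ℕ → ℕ → Bool := onCell 1073741824 536870912 0 536870912 201326592 134217728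
    (rowN 3 2 true true false .pp 0 2 2 (qsf 0 536870912 0 536870912 2) ndN0q0 ndN2q2a pcN2 cut_pm_022_a Ext.none)

def k0_pm_022_a : ∃ t, chk3 f_pm_022_a t 4 2 1 = true :=
  ⟨(b (l 1) (a (l 1) (a (l 1) (a (l 1) (a (l 1) (b (l 1) (b (l 1) (c (c (l 16561888) (l 16556096)) (a (l 16549616) (l 16544440)))))))))), by decide +kernel⟩

def k1_pm_022_a : ∃ t, chk3 f_pm_022_a t 10 2 1 = true :=
  ⟨(a (a (b (l 1) (a (b (l 1) (c (b (c (l 16547584) (l 16541352)) (c (l 16551256) (l 16545656))) (b (l 16531840) (l 16537104)))) (b (c (c (l 16554384) (l 16547456)) (b (l 16513872) (l 16517888))) (c (c (l 16566024) (l 16554928)) (b (l 16522448) (l 16527432)))))) (b (a (b (l 1) (c (c (l 16519352) (l 16511768)) (l 16521304))) (c (a (b (l 1) (c (l 16512704) (l 16505088))) (a (b (l 16524056) (l 16526576)) (b (c (l 16505136) (l 16497128)) (c (l 16507416) (l 16499744))))) (a (b (l 1) (l 16493664)) (a (b (l 16487184) (l 16490360)) (b (l 16506136) (l 16509248)))))) (a (c (b (c (l 16544992) (l 16538088)) (c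 (l 16550800) (l 16545008))) (b (b (l 16504704) (l 16508512)) (l 16546768))) (b (c (a (c (l 16517048) (l 16510128)) (a (c (l 16513608) (l 16506680)) (c (l 16532432) (l 16504504)))) (a (l 16499768) (a (l 16496320) (l 16515104)))) (c (a (c (l 16522360) (l 16516600)) (c (b (l 16557880) (l 16560360)) (b (l 16551776) (l 16554984)))) (a (l 16528944) (b (l 16563640) (l 16557448)))))))) (b (c (a (b (c (l 16497136) (l 16488912)) (c (l 16520000) (l 16491168))) (b (l 16496840) (c (l 16481432) (l 16473352)))) (a (b (l 16497688) (l 16500480)) (b (l 16459232) (l 16482520)))) (b (c (a (c (l 16523408) (l 16516320)) (b (l 16500248) (l 16501824))) (a (l 16526800) (l 16487040))) (c (a (c (l 16527376) (l 16521552)) (c (l 16507200) (l 16501384))) (a (l 16533912) (l 16492928)))))), by decide +kernel⟩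

def k2_pm_022_a : ∃ t, chk3 f_pm_022_a t 11 2 1 = true :=
  ⟨(a (a (b (c (b (l 16480064) (l 16480856)) (b (l 16441992) (l 16443744))) (c (b (l 16482528) (l 16494480)) (b (l 16468304) (l 16472824)))) (b (c (b (l 16442552) (l 16442560)) (l 16467712)) (c (b (l 16463912) (l 16484536)) (b (l 16428656) (l 16452624))))) (b (c (b (a (l 16518544) (l 16703992)) (a (l 16518720) (l 16702656))) (b (l 16443320) (l 16443208))) (c (b (a (l 16520864) (l 16701360)) (a (l 16527288) (l 16702304))) (b (l 16464816) (l 16472808))))), by decide +kernel⟩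

def k3_pm_022_a : ∃ t, chk3 f_pm_022_a t 4 6 1 = true :=
  ⟨(a (l 1) (a (a (a (l 1) (b (l 1) (b (l 1) (c (b (c (l 16643744) (l 16639880)) (c (b (l 16646000) (l 16647472)) (l 16643408))) (b (l 16633808) (c (l 16639920) (l 16636296))))))) (b (l 1) (b (c (a (c (l 16634312) (l 16624672)) (c (b (l 16617168) (l 16619944)) (b (l 16612760) (l 16615992)))) (a (b (l 1) (l 16619800)) (b (l 16605872) (l 16609808)))) (c (a (b (c (l 16633392) (l 16629712)) (c (l 16636160) (l 16633000))) (c (l 16634440) (l 16620760))) (a (b (l 16629168) (l 16628024)) (b (l 16613728) (l 16617616))))))) (a (b (c (b (a (l 1) (c (l 16587472) (l 16581984))) (a (c (b (l 1) (l 16603792)) (l 16597808)) (c (b (l 16590800) (l 16593032)) (l 16587352)))) (b (a (l 1) (l 16573504)) (a (b (l 1) (l 16592016)) (c (l 16582608) (l 16577736))))) (c (b (c (b (a (l 16606408) (l 16595456)) (l 16624456)) (b (l 16617928) (l 16599888))) (c (b (l 16626776) (l 16628912)) (b (l 16602728) (l 16626392)))) (b (a (b (l 16595728) (l 16599480))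 (l 16587208)) (a (l 16626072) (l 16615208))))) (b (c (a (b (c (l 16576800) (l 16571520)) (c (l 16580968) (l 16576568))) (b (c (l 16565856) (l 16560824)) (c (l 16569672) (l 16565536)))) (a (b (l 16563392) (l 16569768)) (b (l 16574064) (l 16580128)))) (c (b (a (c (l 16585296) (l 16581832)) (c (l 16594544) (l 16591368))) (a (c (l 16610184) (l 16586808)) (l 16594288))) (b (a (l 16576448) (l 16586440)) (a (l 16604024) (l 16592592)))))))), by decide +kernel⟩

def k4_pm_022_a : ∃ t, chk3 f_pm_022_a t 8 7 1 = true :=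
  ⟨(b (c (a (l 1) (a (b (l 1) (l 6)) (b (a (l 1) (b (l 1) (a (b (l 1) (l 6)) (c (a (l 16672152) (l 16669568)) (l 16668368))))) (a (l 6) (a (l 6) (a (l 6) (b (l 16677080) (l 16675128)))))))) (a (l 1) (b (a (l 1) (a (l 1) (b (l 1) (a (b (l 1) (l 6)) (c (l 16665736) (l 16662960)))))) (a (l 6) (a (l 6) (a (l 6) (b (l 16669024) (l 16673576)))))))) (a (l 6) (b (a (l 6) (a (l 6) (c (b (c (l 16693240) (l 16692464)) (c (l 16703632) (l 16700064))) (b (l 16691144) (l 16703904))))) (b (a (l 6) (a (l 6) (a (l 6) (c (b (l 16712584) (l 16719040)) (l 16719112))))) (a (l 6) (a (l 6) (a (l 6) (a (l 6) (b (c (c (l 16720968) (l 16718824)) (l 16715560)) (c (c (c (l 16736512) (l 16730024)) (l 16733400)) (c (l 16725624) (l 16723056)))))))))))), by decide +kernel⟩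

def k5_pm_022_a : ∃ t, chk3 f_pm_022_a t 18 14 1 = true :=
  ⟨(a (a (b (c (b (c (b (l 16659288) (l 16660808)) (b (l 16656192) (l 16657992))) (c (l 16673560) (l 16660696))) (b (c (l 16654016) (l 16650768)) (c (l 16658176) (l 16655536)))) (c (b (c (l 16666112) (l 16664288)) (c (l 16689872) (l 16688656))) (b (l 16671824) (l 16676160)))) (b (c (b (c (l 16649616) (l 16646824)) (c (l 16652336) (l 16650136))) (b (l 16663360) (l 16646608))) (c (b (c (l 16655064) (l 16653440)) (l 16667512)) (c (l 16669392) (l 16667896))))) (c (b (c (b (l 16648920) (l 16645960)) (b (l 16651696) (l 16654592))) (c (b (l 16653456) (l 16661936)) (b (l 16657448) (l 16660912)))) (b (a (c (l 16656344) (l 16653840)) (l 16639072)) (b (l 16655408) (l 16659360))))), by decide +kernel⟩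

def k6_pm_022_a : ∃ t, chk3 f_pm_022_a t 18 15 1 = true :=
  ⟨(b (a (c (b (c (l 16681880) (l 16681000)) (c (b (l 16689776) (l 16698720)) (a (l 16705640) (l 16701080)))) (b (l 16681344) (c (l 16699200) (l 16700352)))) (c (b (c (l 16674032) (l 16677648)) (c (l 16697264) (l 16695008))) (b (l 16675176) (c (l 16692728) (l 16690416))))) (b (c (c (a (a (b (l 16699496) (l 16708808)) (l 16715880)) (a (l 16717592) (l 16714560))) (a (a (l 16723240) (l 16718856)) (a (l 16714896) (l 16711376)))) (c (a (a (l 16721344) (l 16716560)) (c (l 16710824) (l 16709320))) (a (a (l 16719424) (l 16714232)) (l 16707048)))) (b (c (c (a (a (l 16728816) (l 16714496)) (a (l 16711128) (l 16708256))) (a (a (l 16715952) (l 16711704)) (a (l 16707888) (l 16704504)))) (a (a (l 16722808) (l 16717928)) (a (l 16713408) (l 16709264)))) (c (b (c (a (c (l 16726984) (l 16722944)) (c (l 16718032) (l 16716152))) (a (a (l 16722968) (l 16718800)) (c (l 16714264) (l 16712352)))) (a (c (c (b (l 16728112) (a (l 16732504) (l 16728928)))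 (a (l 16729840) (l 16726040))) (a (c (l 16728424) (l 16727000)) (c (l 16724408) (l 16722768)))) (c (c (b (l 16721872) (a (l 16725840) (l 16723240))) (a (l 16722704) (l 16719832))) (c (a (l 16720832) (l 16717696)) (a (l 16718944) (l 16715552)))))) (b (a (c (l 16728400) (l 16714968)) (c (l 16709464) (l 16705560))) (c (a (a (l 16724840) (l 16720280)) (a (l 16716096) (l 16712304))) (a (a (l 16721920) (l 16716904)) (a (l 16712232) (l 16707920))))))))), by decide +kernel⟩

def k7_pm_022_a : ∃ t, chk3 f_pm_022_a t 38 7 1 = true :=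
  ⟨(b (b (c (c (b (l 16630816) (l 16632480)) (l 16630160)) (b (l 16625856) (l 16629160))) (c (c (a (l 16648736) (l 16645792)) (b (l 16637424) (l 16653704))) (b (l 16635440) (l 16650832)))) (b (c (b (c (l 16673272) (l 16670744)) (c (c (l 16692440) (l 16690848)) (l 16688432))) (b (l 16666888) (c (l 16685168) (l 16660896)))) (b (c (c (a (c (l 16712936) (l 16690120)) (l 16709696)) (a (l 16708312) (l 16684520))) (c (a (l 16683592) (l 16680256)) (a (l 16679784) (l 16675936)))) (c (b (c (a (c (l 16706936) (l 16704800)) (c (l 16704880) (l 16702496))) (a (l 16701576) (l 16698880))) (b (c (c (a (l 16714616) (l 16712640)) (a (l 16712328) (l 16710096))) (c (l 16708688) (l 16706248))) (c (a (c (a (l 16720320) (c (l 16719976) (l 16718752))) (a (l 16718000) (l 16716904))) (c (c (b (l 16717216) (l 16719872)) (l 16722464)) (c (l 16715896) (l 16714568)))) (c (a (a (l 16715656) (l 16714424)) (b (l 16711304) (l 16713832))) (a (l 16712592) (l 16709880)))))) (b (c (a (l 16697224) (l 16694008)) (a (l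 16692808) (l 16689056))) (b (c (a (l 16704208) (l 16701048)) (a (l 16699472) (l 16695776))) (c (a (c (l 16710152) (l 16707696)) (c (l 16707176) (l 16704448))) (a (c (l 16705224) (l 16702728)) (l 16700320))))))))), by decide +kernel⟩

def k8_pm_022_a : ∃ t, chk3 f_pm_022_a t 39 7 1 = true :=
  ⟨(b (b (c (c (a (l 16613120) (l 16608104)) (l 16625544)) (b (l 16624384) (l 16633464))) (c (a (c (l 16643264) (l 16641040)) (b (l 16631344) (l 16648312))) (b (l 16643208) (l 16664088)))) (b (c (a (c (b (l 16648808) (l 16667440)) (l 16675496)) (b (l 16666080) (c (l 16665792) (l 16661304)))) (a (b (l 16640608) (l 16657424)) (c (l 16690032) (l 16685784)))) (b (c (c (a (l 16707784) (c (l 16707608) (l 16684024))) (a (l 16682096) (l 16701040))) (c (a (l 16677304) (l 16695704)) (a (l 16672440) (l 16669304)))) (c (b (c (a (c (l 16703216) (l 16700576)) (c (l 16722968) (l 16699088))) (a (l 16696568) (c (l 16696152) (l 16693192)))) (a (b (c (c (l 16711040) (l 16708240)) (l 16704000)) (c (a (c (c (l 16717384)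 (l 16715968)) (l 16713832)) (c (c (l 16722016) (l 16715288)) (c (l 16713808) (l 16712312)))) (c (b (l 16709216) (l 16711768)) (l 16707544)))) (c (b (c (a (l 16710208) (l 16709776)) (a (l 16707208) (l 16706632))) (b (c (a (l 16714192) (l 16713672)) (a (l 16711112) (l 16710448))) (c (a (c (l 16717648) (l 16716088)) (c (a (l 16717272) (l 16716832)) (a (l 16715664) (l 16715184)))) (a (c (l 16714520) (l 16712944)) (c (l 16713752) (l 16712112)))))) (c (b (l 16714192) (a (l 16709288) (a (l 16708712) (l 16708184)))) (b (l 16700592) (a (l 16706128) (l 16705104))))))) (b (a (c (l 16691160) (l 16685672)) (c (l 16709680) (l 16682648))) (a (c (c (b (l 16699712) (l 16704568)) (l 16709680)) (b (l 16692448) (l 16697024))) (c (a (c (l 16700496) (l 16697344)) (c (b (l 16697048) (l 16701776)) (l 16696088))) (a (l 16692552) (b (l 16688880) (l 16693344)))))))))), by decide +kernel⟩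

def k9_pm_022_a : ∃ t, chk3 f_pm_022_a t 20 6 1 = true :=
  ⟨(a (a (b (c (b (c (l 16554904) (l 16550072)) (l 16577336)) (b (l 16542688) (l 16569384))) (c (b (l 16581264) (l 16584672)) (b (l 16575288) (l 16580968)))) (b (c (b (l 16563184) (l 16566600)) (b (l 16532672) (l 16558968))) (c (b (l 16569984) (l 16572760)) (l 16573792)))) (a (b (c (b (l 16552648) (l 16555576)) (l 16556504)) (c (b (l 16558408) (l 16569432)) (b (l 16532288) (l 16566320)))) (a (b (c (b (l 16523760) (l 16547272)) (l 16538120)) (c (b (l 16549648) (l 16567688)) (l 16572144))) (b (c (b (c (l 16562600) (l 16558096)) (c (l 16564344) (l 16560896))) (b (l 16561864) (l 16555736))) (c (b (l 16568608) (l 16598096)) (b (l 16560056) (l 16604568))))))), by decide +kernel⟩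

def k10_pm_022_a : ∃ t, chk3 f_pm_022_a t 40 14 1 = true :=
  ⟨(c (b (c (l 16625296) (l 16623208)) (c (a (l 16639400) (l 16637448)) (a (l 16636208) (l 16633832)))) (b (c (l 16621056) (l 16618816)) (b (l 16642448) (l 16658320)))), by decide +kernel⟩

def k11_pm_022_a : ∃ t, chk3 f_pm_022_a t 40 30 1 = true :=
  ⟨(a (c (c (b (l 16645464) (l 16664440)) (l 16681776)) (b (l 16634656) (l 16672712))) (c (c (b (l 16643832) (l 16663016)) (l 16690264)) (b (l 16631848) (l 16649104)))), by decide +kernel⟩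

def k12_pm_022_a : ∃ t, chk3 f_pm_022_a t 40 31 1 = true :=
  ⟨(c (b (c (a (b (l 16679120) (l 16689184)) (b (l 16677704) (l 16687392))) (a (l 16699336) (l 16697200))) (b (c (a (c (l 16711256) (l 16697600)) (c (l 16698648) (l 16695264))) (a (c (l 16694408) (l 16691192)) (c (l 16691848) (l 16688408)))) (c (a (b (c (a (l 16708984) (l 16707784)) (a (l 16705720) (l 16704416))) (b (c (a (l 16712672) (l 16711464)) (a (l 16709336) (l 16708024))) (c (a (a (c (l 16716304) (l 16714632)) (c (l 16715704) (l 16714008))) (a (c (l 16715128) (l 16713400)) (c (l 16714560) (l 16712808)))) (a (c (l 16712600) (l 16710896)) (c (l 16711320) (l 16709560)))))) (b (c (a (l 16706632) (l 16705520)) (l 16712920)) (b (c (a (l 16710320) (l 16709224)) (a (l 16706768) (l 16705560))) (c (a (a (c (l 16714000) (l 16712224)) (c (l 14) (l 16711648))) (c (l 14) (a (l 16711088) (l 16710536)))) (a (c (l 16710104) (l 16708288)) (c (b (l 16708320) (l 16709544)) (l 16707064))))))) (a (c (b (l 16701624) (a (a (l 16707528)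 (l 16706816)) (b (l 16704544) (l 16706920)))) (b (l 16698256) (a (l 16703728) (l 16702200)))) (c (b (l 16698872) (a (b (l 16703184) (l 16708184)) (a (l 16703408) (l 16702760)))) (b (l 16695280) (a (l 16700728) (l 16699304)))))))) (b (a (c (l 16693456) (l 16666496)) (c (l 16669864) (l 16663384))) (b (a (c (l 16707280) (l 16679696)) (c (l 16683184) (l 16676104))) (c (b (a (c (l 16694856) (l 16691424)) (l 16700320)) (a (c (a (l 16700280) (l 16698640)) (a (l 16696808) (l 16695048))) (c (a (l 16697064) (l 16695520)) (a (l 16693352) (l 16691704))))) (a (a (b (l 16687256) (l 16691528)) (l 16697952)) (a (l 16696080) (l 16694248))))))), by decide +kernel⟩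

def k13_pm_022_a : ∃ t, chk3 f_pm_022_a t 41 14 1 = true :=
  ⟨(b (c (a (l 16600288) (a (l 16598832) (c (l 16620544) (l 16617360)))) (a (l 16594688) (a (l 16592616) (l 16633288)))) (c (a (c (l 16635904) (l 16631848)) (a (l 16632728) (c (a (l 16613464) (l 16634048)) (l 16671712)))) (a (l 16625560) (a (l 16602744) (b (l 16635408) (l 16651712)))))), by decide +kernel⟩

def k14_pm_022_a : ∃ t, chk3 f_pm_022_a t 41 30 1 = true :=
  ⟨(c (a (c (b (l 16642584) (l 16661672)) (l 16683232)) (c (a (l 16672016) (b (l 16683104) (a (l 16659624) (l 16658992)))) (a (l 16666136) (b (l 16677376) (a (l 16653208) (l 16652488)))))) (c (a (l 16682808) (a (l 16660120) (a (l 16659200) (l 16679440)))) (b (a (l 16626696) (a (l 16624840) (l 16665480))) (b (a (l 16639360) (a (l 16637240) (l 16677528))) (a (l 16647712) (a (l 16645240) (a (l 16643944) (l 16643032)))))))), by decide +kernel⟩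

def k15_pm_022_a : ∃ t, chk3 f_pm_022_a t 82 31 1 = true :=
  ⟨(c (b (c (b (l 16675832) (l 16685200)) (l 16694768)) (b (c (c (l 16717520) (l 16692952)) (a (l 16688184) (l 16686872))) (c (a (b (c (l 16704456) (l 16700760)) (a (c (c (l 14) (b (l 16707512) (l 16709992))) (c (l 16706872) (l 16704976))) (c (b (l 16707928) (l 14)) (c (l 16706312) (l 16704392))))) (b (c (l 16703440) (l 16699632)) (c (l 14) (a (c (l 16711008) (l 16703816)) (b (l 16703024) (c (l 16706472) (l 16704480))))))) (c (b (a (l 16697032) (l 16695800)) (a (a (l 16707368) (l 16706736)) (b (l 16699376) (c (l 16705392) (l 16700784))))) (b (l 16703056) (a (l 16703176) (b (l 16695432) (l 16703024)))))))) (b (c (l 16687960) (l 16660032)) (c (b (l 16701072) (c (b (l 16688720) (a (l 16694032) (l 16692592))) (a (l 16687872) (l 16696792)))) (b (l 16672560) (b (l 16699904) (a (l 16684128) (l 16682392))))))), by decide +kernel⟩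

def k16_pm_022_a : ∃ t, chk3 f_pm_022_a t 166 31 1 = true :=
  ⟨(c (b (c (l 16699872) (l 16671904)) (b (c (c (l 16695088) (l 16691336)) (l 16685632)) (c (c (l 14) (b (l 16698584) (b (a (l 16702488) (l 16701968)) (c (a (l 16705952) (l 14)) (a (l 16703936) (l 16703408)))))) (c (c (b (l 16695632) (a (l 16700704) (l 16700144))) (b (l 16693648) (a (l 16698680) (l 16698096)))) (b (l 16690656) (a (l 16695632) (l 16700248))))))) (a (b (l 16661520) (c (b (l 16678240) (c (l 16689240) (l 16685160))) (b (l 16670408) (l 16678960)))) (b (l 16681680) (c (b (l 16677504) (c (l 16699040) (l 16684416))) (b (l 16669560) (l 16688616)))))), by decide +kernel⟩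

def k17_pm_022_a : ∃ t, chk3 f_pm_022_a t 167 31 2 = true :=
  ⟨(b (c (a (l 16699088) (c (l 16700288) (l 16696696))) (a (l 16670960) (b (l 16665744) (l 16695776)))) (a (b (c (c (l 14) (l 16690544)) (l 16705688)) (c (c (l 14) (b (l 16708304) (c (l 14) (a (l 16701776) (a (l 16701576) (l 16701448)))))) (c (b (l 16693784) (b (a (l 16697472) (l 16697208)) (a (l 16702512) (a (l 16699680) (a (l 16699568) (l 16699504)))))) (b (l 16689720) (a (l 16694528) (a (l 16694288) (l 16694136))))))) (b (a (a (c (c (l 14) (a (l 16690176) (l 16711088))) (a (l 16684312) (c (l 16707184) (l 16682264)))) (c (l 16691952) (l 16684112))) (c (l 16691760) (l 16683888))) (c (c (l 14) (c (l 14) (b (a (a (a (l 16696448) (a (l 16696400) (l 16696368))) (l 16696280)) (l 16696080)) (a (a (a (l 16701352) (a (l 16706544) (b (l 16710520) (a (a (l 16702512) (b (l 16701888) (c (l 14) (l 16705216)))) (l 16702488))))) (l 16701184)) (l 16700992))))) (b (a (a (a (l 16691360) (a (l 16691304) (c (l 16693312) (l 16689208))))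 (l 16691168)) (l 16690944)) (c (a (a (a (c (l 16699272) (l 16697176)) (c (a (l 16699216) (a (a (l 16699192) (b (l 16697968) (c (l 16700928) (l 16699872)))) (l 16699168))) (a (l 16697120) (a (a (l 16697096) (l 16702328)) (l 16697072))))) (l 16703288)) (c (l 16698888) (l 16696776))) (a (a (a (l 16694024) (a (l 16693960) (a (a (l 16693936) (c (l 16694984) (l 16692864))) (l 16693912)))) (l 16693824)) (l 16693592)))))))), by decide +kernel⟩

def k18_pm_022_a : ∃ t, chk3 f_pm_022_a t 167 31 3 = true :=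
  ⟨(b (a (c (l 16663664) (l 16656208)) (c (a (l 16694520) (l 16662672)) (l 16676280))) (b (a (c (l 16676816) (l 16668760)) (c (a (a (a (l 16676352) (l 16697240)) (l 16676128)) (l 16675856)) (b (l 16686728) (c (l 16693064) (l 16688888))))) (a (a (c (c (l 16688032) (l 16683848)) (l 16677496)) (c (c (b (l 16685400) (l 16690000)) (l 16683488)) (l 16687584))) (c (a (a (a (c (l 16687472) (l 16683248)) (a (c (l 16687408) (l 16683176)) (a (a (c (l 16687384) (l 16683144)) (c (l 16695240) (l 16683136))) (c (l 16687352) (l 16683120))))) (c (l 16687256) (l 16683016))) (c (l 16687008) (l 16682736))) (a (a (a (l 16676824) (a (l 16676744) (c (l 16689336) (l 16674528)))) (l 16676568)) (l 16676256)))))), by decide +kernel⟩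

def k19_pm_022_a : ∃ t, chk3 f_pm_022_a t 21 6 1 = true :=
  ⟨(b (c (a (c (l 16540904) (l 16536952)) (b (l 16505808) (l 16506104))) (a (b (l 16518568) (l 16522272)) (l 16519864))) (c (b (a (l 16534056) (l 16529960)) (a (l 16583864) (l 16559568))) (a (b (l 16531680) (l 16558168)) (l 16571440)))), by decide +kernel⟩

def k20_pm_022_a : ∃ t, chk3 f_pm_022_a t 21 14 1 = true :=
  ⟨(c (b (a (l 16605296) (l 16602320)) (a (c (l 16631496) (l 16626488)) (c (l 16628000) (l 16601296)))) (b (b (l 16607080) (a (l 16573984) (l 16569528))) (a (l 16639640) (l 16613288)))), by decide +kernel⟩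

def k21_pm_022_a : ∃ t, chk3 f_pm_022_a t 21 30 1 = true :=
  ⟨(b (c (a (c (l 16637616) (l 16631472)) (c (l 16633552) (l 16626680))) (a (l 16621952) (l 16615992))) (c (a (c (l 16655784) (l 16648896)) (c (l 16651968) (l 16644304))) (a (l 16659232) (l 16653400)))), by decide +kernel⟩

def k22_pm_022_a : ∃ t, chk3 f_pm_022_a t 21 31 2 = true :=
  ⟨(b (c (a (a (l 16696984) (l 16695056)) (b (l 16666224) (l 14))) (a (b (l 16662304) (l 16692432)) (b (l 16657936) (l 16667272)))) (a (b (c (c (l 14) (a (l 16688488) (l 16686592))) (a (l 16682392) (l 16680176))) (c (a (c (l 14) (b (l 16695832) (a (c (l 14) (b (l 16699088) (l 16704184))) (l 14)))) (l 14)) (b (a (c (l 16691624) (l 16687368)) (c (l 16689584) (l 16685104))) (a (c (b (l 16695256) (c (a (l 16699416) (l 16698400)) (a (l 16697256) (l 16696184)))) (b (l 16690928) (a (l 16694000) (l 16692848)))) (c (b (l 16693256) (c (a (l 16697432) (l 14)) (a (l 16695168) (l 16694192)))) (a (b (l 16689336) (l 16696976)) (a (l 16694992) (l 16694472))))))))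 (c (l 14) (b (c (l 16700096) (l 16695464)) (b (c (a (l 16687720) (l 14)) (a (l 16683024) (l 16681120))) (b (c (a (l 16691440) (l 14)) (a (l 16686648) (l 16684792))) (a (c (c (l 14) (a (l 16693264) (l 14))) (c (a (l 16690864) (l 16689928)) (a (l 16688456) (l 16687456)))) (c (l 14) (c (a (l 16689040) (l 14)) (a (l 16686512) (l 16685616))))))))))), by decide +kernel⟩

def k23_pm_022_a : ∃ t, chk3 f_pm_022_a t 21 31 3 = true :=
  ⟨(b (a (c (a (l 16660864) (l 16658096)) (l 16672000)) (c (l 16674856) (l 16665960))) (b (a (c (a (l 16674128) (l 16671464)) (a (l 16665688) (l 16662568))) (c (a (l 16668968) (l 16666640)) (l 16673624))) (a (b (c (a (l 16680912) (l 16678304)) (a (l 16672152) (l 16669072))) (c (a (a (c (l 16688456) (l 16684064)) (c (l 16687184) (l 16682672))) (a (c (l 16685952) (l 16681328)) (c (l 16684768) (l 16680024)))) (a (c (l 16678776) (l 16674240)) (c (l 16675856) (l 16671080))))) (b (c (a (l 16675880) (l 16673632)) (a (l 16666176) (l 16663456))) (c (a (a (c (l 16683632)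 (l 16678768)) (c (l 16682544) (l 16677568))) (a (c (b (l 16680304) (l 16682704)) (l 16676400)) (c (b (l 16679304) (l 16681712)) (l 16675288)))) (a (c (l 16673120) (l 16668096)) (c (l 16670560) (l 16665304)))))))), by decide +kernel⟩

def k24_pm_022_a : ∃ t, chk3 f_pm_022_a t 11 6 1 = true :=
  ⟨(a (a (b (c (c (l 16507840) (l 16486608)) (l 16485544)) (c (b (l 16526552) (l 16556432)) (l 16556368))) (b (c (l 16504040) (l 16480872)) (c (b (l 16523128) (l 16531144)) (l 16551232)))) (b (c (a (l 16563008) (l 16708952)) (c (l 16514448) (l 16512208))) (c (a (b (l 16561480) (l 16580080)) (b (l 16720184) (l 16732192))) (b (l 16507168) (l 16533520))))), by decide +kernel⟩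

def k25_pm_022_a : ∃ t, chk3 f_pm_022_a t 11 14 1 = true :=
  ⟨(a (b (c (a (l 16587832) (l 16583176)) (a (l 16556544) (l 16550656))) (c (a (c (l 16602896) (l 16596520)) (c (l 16651384) (l 16592072))) (a (l 16607456) (l 16580960)))) (c (b (a (l 16604456) (l 16748968)) (c (a (l 16799200) (l 16920784)) (l 16627568))) (b (l 16583416) (a (l 16575944) (l 16571376))))), by decide +kernel⟩

def k26_pm_022_a : ∃ t, chk3 f_pm_022_a t 11 30 1 = true :=
  ⟨(c (c (a (b (a (l 16629840) (l 16678944)) (a (l 16648672) (l 16700272))) (a (b (l 16818376) (l 16833528)) (b (l 16933640) (l 16944120)))) (a (a (l 16673112) (l 16648512)) (a (l 16645600) (l 16641336)))) (a (a (b (l 16610392) (l 16648072)) (b (l 16605328) (l 16622416))) (a (b (l 16600896) (l 16618416)) (b (l 16597056) (l 16615096))))), by decide +kernel⟩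

def k27_pm_022_a : ∃ t, chk3 f_pm_022_a t 22 31 1 = true :=
  ⟨(c (a (c (b (b (l 16663264) (l 14)) (l 14)) (c (b (l 16661280) (l 14)) (b (l 16656552) (a (b (l 16672056) (b (l 16679408) (a (c (l 14) (l 16688768)) (l 14)))) (b (l 16670456) (l 14)))))) (b (c (c (l 16674248) (l 16663688)) (l 16676976)) (l 14))) (b (a (c (l 16670328) (l 16639560)) (c (l 16645536) (l 16634816))) (b (a (c (a (l 16664488) (l 16662536)) (l 16673704)) (c (a (l 16660800) (l 16659256)) (l 16669288))) (a (c (b (a (l 16682048) (l 16680184)) (a (a (c (b (l 16678344) (l 16684704)) (l 16674224)) (c (c (l 16680016) (l 16677304)) (l 16673208))) (c (a (c (l 16679200) (l 16676432)) (c (l 14) (l 16675608))) (a (l 16672240) (l 16681816))))) (a (b (l 16660912) (c (l 16678680) (l 16662688))) (b (l 16658568) (c (b (l 16664864) (l 16667200)) (l 16660272))))) (a (b (c (l 16678536) (l 16656424)) (c (c (a (c (l 14) (l 16674840)) (l 14)) (b (l 16668800) (a (l 16671688) (l 16670888)))) (c (b (l 16662888) (l 16670496)) (l 16658056))))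 (c (c (l 14) (b (l 16663600) (a (a (l 16679592) (l 16673984)) (c (l 14) (l 16666656))))) (b (l 16654480) (c (a (l 16662776) (l 16661952)) (l 16656048))))))))), by decide +kernel⟩

def k28_pm_022_a : ∃ t, chk3 f_pm_022_a t 23 31 1 = true :=
  ⟨(b (c (a (c (b (l 16846216) (l 14)) (l 16674896)) (c (c (l 17020136) (l 16892168)) (l 16656952))) (a (c (l 16642512) (l 16630824)) (c (l 16640248) (l 16627544)))) (c (c (a (l 14) (c (b (l 17027912) (l 17033624)) (l 14))) (l 14)) (b (a (c (a (l 16657920) (l 16656800)) (l 16665656)) (c (l 14) (l 16662832))) (a (a (c (c (l 14) (b (l 16662248) (a (c (l 14) (l 16665984)) (l 14)))) (b (l 16652744) (a (c (l 16661184) (l 16654720)) (c (l 16665712) (l 16653872))))) (c (l 14) (b (l 16651224) (c (b (l 16658232) (c (a (l 16662720) (l 14)) (l 16659008))) (a (l 16653080) (l 16652344)))))) (c (l 14) (b (c (l 16663232) (l 16645696)) (c (a (a (c (l 14) (l 16656920)) (l 14)) (l 14)) (a (a (l 16651664) (l 16651040)) (a (l 16655720) (a (l 16650096) (l 16649856))))))))))),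 by decide +kernel⟩

def k29_pm_022_a : ∃ t, chk3 f_pm_022_a t 6 2 1 = true :=
  ⟨(a (b (a (c (b (l 16918048) (l 16915448)) (c (l 16436504) (l 16407520))) (c (l 17117120) (l 16490016))) (a (c (b (l 16847960) (a (l 16844872) (l 16961800))) (b (l 16408872) (l 16458976))) (c (b (l 17108928) (l 17099848)) (b (l 16496368) (l 16507768))))) (b (a (c (l 17252712) (l 16715560)) (c (l 17344368) (l 16876496))) (c (a (b (l 17243552) (l 17232320)) (l 17328496)) (a (b (l 16717368) (l 16722184)) (b (l 16875688) (l 16876400)))))), by decide +kernel⟩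

def k30_pm_022_a : ∃ t, chk3 f_pm_022_a t 12 3 1 = true :=
  ⟨(b (a (b (c (a (l 16845424) (l 16957816)) (l 16499648)) (c (b (l 16823040) (a (l 16857624) (l 16961688))) (b (l 16494296) (l 16522024)))) (c (b (l 17049208) (b (l 17086960) (l 17086144))) (b (l 16528008) (b (l 16551432) (l 16572664))))) (b (a (c (b (a (l 16868600) (l 16968240)) (a (c (l 17021536) (l 16746352)) (l 16852904))) (b (l 16552544) (a (l 16567304) (l 16563552)))) (c (b (l 16899120) (c (l 17206016) (l 16978576))) (b (l 16599336) (a (l 16581008) (l 16680336))))) (a (b (c (a (c (l 17032824) (b (l 16769464) (l 16787232))) (c (l 17111680) (l 16875936))) (b (l 16633856) (a (l 16612432) (l 16610400)))) (c (c (a (b (l 17044728) (c (l 17110544) (b (l 16994992) (l 16959888)))) (b (l 17119232) (l 17062936))) (b (a (l 16660200) (l 16793824)) (a (l 14) (a (l 14) (c (l 16987688) (l 14)))))) (a (c (b (l 16638784) (l 14)) (c (b (l 16628504) (l 14)) (b (l 16621544) (b (l 16636192) (a (b (l 16644240) (a (a (l 16660120) (l 16654664))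 (l 14))) (l 14)))))) (b (c (l 16654672) (l 16623272)) (l 14))))) (c (b (c (l 17206848) (a (l 16958728) (l 17029096))) (c (a (l 17163080) (l 17236296)) (a (b (l 16976720) (a (b (l 16969352) (l 16893336)) (l 16965768))) (b (l 17043344) (c (l 17100592) (l 17008632)))))) (a (b (b (l 16613288) (l 16637592)) (b (c (l 16643176) (l 16622248)) (l 14))) (b (b (l 16707704) (l 16707480)) (b (c (l 16828256) (l 16652808)) (a (l 14) (c (c (l 16932936) (l 14)) (l 14)))))))))), by decide +kernel⟩

def k31_pm_022_a : ∃ t, chk3 f_pm_022_a t 13 3 1 = true :=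
  ⟨(b (c (a (b (l 17220072) (l 17209640)) (b (l 17309192) (l 17295912))) (a (b (l 16733056) (b (l 16747424) (l 16761336))) (b (l 16881272) (a (l 16863248) (l 16923184))))) (b (c (a (b (l 17205656) (l 17163704)) (c (l 17377240) (l 17196104))) (a (b (l 16779680) (a (l 16765400) (l 16838552))) (b (l 16912144) (a (l 16901720) (l 16956224))))) (c (a (b (c (l 17301128) (l 17115600)) (c (l 17300112) (a (b (l 17100360) (l 17109536)) (l 17152776)))) (b (l 17285664) (a (l 17209120) (l 17302904)))) (a (b (a (b (l 16788840) (l 16764808)) (b (l 16858848) (l 16853520))) (b (a (c (l 16918384) (l 16713264)) (c (l 16978152) (l 16805072))) (c (a (c (l 16979584) (a (l 14) (l 16908160))) (b (l 16989456) (l 16997536))) (a (l 14) (a (l 14) (c (l 16884808) (l 14))))))) (b (a (c (l 17012600) (l 16839272)) (l 16956936)) (c (a (b (l 17029880) (l 17043264)) (l 17080360)) (b (a (l 16866864) (l 16920696)) (a (c (l 16905776) (a (l 14) (l 16862688))) (b (l 16934592) (l 16902488)))))))))), by decide +kernel⟩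

def k32_pm_022_a : ∃ t, chk3 f_pm_022_a t 7 1 1 = true :=
  ⟨(b (a (a (c (b (l 17406312) (l 17391752)) (b (l 16995040) (l 16993072))) (b (l 17266712) (c (l 17433912) (l 17082760)))) (b (l 17326536) (c (l 17466448) (l 17174136)))) (a (b (c (a (b (l 17372640) (l 17358488)) (l 17407792)) (a (b (l 16995408) (l 17004064)) (b (l 17083992) (l 17090272)))) (b (c (a (l 17347216) (l 17388872)) (a (a (l 16999080) (l 17046432)) (l 17105944))) (a (c (b (l 17342808) (c (l 17408944) (l 17276152))) (b (a (l 17025928) (l 17070376)) (a (c (l 17121424) (b (l 16971168) (b (l 16984272) (l 16994176)))) (c (l 17160184) (l 17008392))))) (b (c (l 17382176) (l 17128416)) (c (l 17379776) (a (l 17133760) (l 17166864))))))) (b (c (b (l 17448776) (l 17432544)) (b (l 17174208) (l 17262624))) (b (c (l 17416920) (a (l 17167848) (l 17210568))) (c (a (l 17400128) (l 17403472)) (a (b (l 17187512) (l 17205784)) (b (l 17226472) (l 17240128)))))))), by decide +kernel⟩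

theorem s33_pm_022_a : ∃ t, chk3 f_pm_022_a t 6 3 1 = true := ex3_a k30_pm_022_a k31_pm_022_a

theorem s34_pm_022_a : ∃ t, chk3 f_pm_022_a t 6 1 1 = true := ex3_b k29_pm_022_a s33_pm_022_a

theorem s35_pm_022_a : ∃ t, chk3 f_pm_022_a t 3 1 1 = true := ex3_a s34_pm_022_a k32_pm_022_a

theorem s36_pm_022_a : ∃ t, chk3 f_pm_022_a t 11 31 1 = true := ex3_a k27_pm_022_a k28_pm_022_a

theorem s37_pm_022_a : ∃ t, chk3 f_pm_022_a t 11 15 1 = true := ex3_b k26_pm_022_a s36_pm_022_a

theorem s38_pm_022_a : ∃ t, chk3 f_pm_022_a t 11 7 1 = true := ex3_b k25_pm_022_a s37_pm_022_a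

theorem s39_pm_022_a : ∃ t, chk3 f_pm_022_a t 11 3 1 = true := ex3_b k24_pm_022_a s38_pm_022_a

theorem s40_pm_022_a : ∃ t, chk3 f_pm_022_a t 21 31 1 = true := ex3_c k22_pm_022_a k23_pm_022_a

theorem s41_pm_022_a : ∃ t, chk3 f_pm_022_a t 21 15 1 = true := ex3_b k21_pm_022_a s40_pm_022_a

theorem s42_pm_022_a : ∃ t, chk3 f_pm_022_a t 21 7 1 = true := ex3_b k20_pm_022_a s41_pm_022_a

theorem s43_pm_022_a : ∃ t, chk3 f_pm_022_a t 21 3 1 = true := ex3_b k19_pm_022_a s42_pm_022_a

theorem s44_pm_022_a : ∃ t, chk3 f_pm_022_a t 167 31 1 = true := ex3_c k17_pm_022_a k18_pm_022_a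

theorem s45_pm_022_a : ∃ t, chk3 f_pm_022_a t 83 31 1 = true := ex3_a k16_pm_022_a s44_pm_022_a

theorem s46_pm_022_a : ∃ t, chk3 f_pm_022_a t 41 31 1 = true := ex3_a k15_pm_022_a s45_pm_022_a

theorem s47_pm_022_a : ∃ t, chk3 f_pm_022_a t 41 15 1 = true := ex3_b k14_pm_022_a s46_pm_022_a

theorem s48_pm_022_a : ∃ t, chk3 f_pm_022_a t 41 7 1 = true := ex3_b k13_pm_022_a s47_pm_022_a

theorem s49_pm_022_a : ∃ t, chk3 f_pm_022_a t 40 15 1 = true := ex3_b k11_pm_022_a k12_pm_022_a

theorem s50_pm_022_a : ∃ t, chk3 f_pm_022_a t 40 7 1 = true := ex3_b k10_pm_022_a s49_pm_022_a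

theorem s51_pm_022_a : ∃ t, chk3 f_pm_022_a t 20 7 1 = true := ex3_a s50_pm_022_a s48_pm_022_a

theorem s52_pm_022_a : ∃ t, chk3 f_pm_022_a t 20 3 1 = true := ex3_b k9_pm_022_a s51_pm_022_a

theorem s53_pm_022_a : ∃ t, chk3 f_pm_022_a t 10 3 1 = true := ex3_a s52_pm_022_a s43_pm_022_a

theorem s54_pm_022_a : ∃ t, chk3 f_pm_022_a t 5 3 1 = true := ex3_a s53_pm_022_a s39_pm_022_a

theorem s55_pm_022_a : ∃ t, chk3 f_pm_022_a t 19 7 1 = true := ex3_a k7_pm_022_a k8_pm_022_a

theorem s56_pm_022_a : ∃ t, chk3 f_pm_022_a t 18 7 1 = true := ex3_b k5_pm_022_a k6_pm_022_a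

theorem s57_pm_022_a : ∃ t, chk3 f_pm_022_a t 9 7 1 = true := ex3_a s56_pm_022_a s55_pm_022_a

theorem s58_pm_022_a : ∃ t, chk3 f_pm_022_a t 4 7 1 = true := ex3_a k4_pm_022_a s57_pm_022_a

theorem s59_pm_022_a : ∃ t, chk3 f_pm_022_a t 4 3 1 = true := ex3_b k3_pm_022_a s58_pm_022_a

theorem s60_pm_022_a : ∃ t, chk3 f_pm_022_a t 2 3 1 = true := ex3_a s59_pm_022_a s54_pm_022_a

theorem s61_pm_022_a : ∃ t, chk3 f_pm_022_a t 5 2 1 = true := ex3_a k1_pm_022_a k2_pm_022_a

theorem s62_pm_022_a : ∃ t, chk3 f_pm_022_a t 2 2 1 = true := ex3_a k0_pm_022_a s61_pm_022_a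

theorem s63_pm_022_a : ∃ t, chk3 f_pm_022_a t 2 1 1 = true := ex3_b s62_pm_022_a s60_pm_022_a

theorem s64_pm_022_a : ∃ t, chk3 f_pm_022_a t 1 1 1 = true := ex3_a s63_pm_022_a s35_pm_022_a

theorem c_pm_022_a : CertN 0 536870912 0 536870912 201326592 134217728 3 true true false .pp 0 2 2
    ndN0q0 ndN2q2a pcN2 cut_pm_022_a Ext.none :=
  certN2 (fam := true) (s1 := true) (s2 := false) (a := 0) (b := 2) (c := 2) (cn := .pp) (n1 := ndN0q0) (n2 := ndN2q2a) (pc := pcN2) (cut := cut_pm_022_a) (xt := Ext.none) (P1 := 0) (W1 := 536870912) (P2 := 0) (W2 := 536870912) (P3 := 201326592) (W3 := 134217728) (N0 := 3)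
    rfl (fun _ => rfl) s64_pm_022_a

noncomputable def cut_pm_022_b : Cut := Cut.of [[⟨0, 0, 0, 67108864⟩, ⟨1, 1, 0, 67108864⟩, ⟨2, 1, 0, 67108864⟩], [⟨0, 0, 1, 67108864⟩, ⟨1, 1, 0, 16777216⟩, ⟨2, 1, 1, 67108864⟩]]

noncomputable def f_pm_022_b : ℕ → ℕ → ℕ → ℕ → Bool := onCell 0 536870912 1073741824 536870912 201326592 134217728
    (rowN 3 1 true true false .pp 0 2 2 (qsf 0 536870912 1239849684 370763052 2) ndN0q0 ndN2q2b pcN2 cut_pm_022_b Ext.none)

def k0_pm_022_b : ∃ t, chk3 f_pm_022_b t 2 2 1 = true :=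
  ⟨(a (b (l 1) (b (a (a (b (b (l 1) (b (l 1) (b (l 1) (a (a (b (l 1) (c (l 16523552) (l 16487040))) (l 1)) (l 1))))) (c (b (c (a (l 16496064) (l 16503312)) (l 16534144)) (c (l 16497080) (l 16487768))) (b (c (l 16526464) (l 16518856)) (a (l 16468720) (l 16478968))))) (a (b (l 1) (b (l 1) (c (l 16502544) (l 16488328)))) (l 1))) (l 1)) (b (a (c (a (b (c (l 16454184) (l 16443176)) (c (l 16566816) (l 16421368))) (b (a (l 16479576) (l 16484664)) (l 16461296))) (a (b (l 16469072) (l 16423784)) (a (l 16503872) (l 16511824)))) (a (c (b (l 1) (l 16468216)) (l 34929653863)) (l 1))) (a (c (a (c (b (l 16806864) (l 17012208)) (l 16435528)) (b (l 16519240) (l 16726376))) (a (b (l 16380256) (l 16359888)) (b (l 16398096) (l 16377704)))) (c (a (b (l 16520304) (l 16707560)) (b (l 1) (l 16702536))) (a (l 16464528) (l 16532336))))))) (l 1)), by decide +kernel⟩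

def k1_pm_022_b : ∃ t, chk3 f_pm_022_b t 2 3 1 = true :=
  ⟨(b (b (a (b (a (c (b (a (l 16823464) (l 16907040)) (a (l 17117416) (l 17065288))) (b (a (l 16342056) (l 16359712)) (l 16379024))) (c (a (b (l 16873256) (l 17020144)) (b (l 16850952) (l 16984584))) (a (l 16406544) (l 16434232)))) (c (a (b (l 16982216) (l 17359520)) (a (l 17210480) (l 17160456))) (a (b (a (l 16406832) (l 16396688)) (l 16577168)) (a (l 16474880) (l 16475528))))) (a (a (b (c (l 73047747591) (l 16507536)) (c (l 17120880) (l 16488264))) (b (l 1) (c (l 17050088) (l 16513416)))) (l 1))) (a (b (a (c (b (l 17469944) (l 17566936)) (b (l 16734792) (l 16876136))) (c (l 17259984) (a (l 16758344) (l 16734360)))) (c (a (l 17690584) (l 17547168)) (a (b (l 17002872) (l 17116904)) (b (l 16918248) (l 17020936))))) (b (c (a (l 41373270471) (l 126198891575)) (a (a (l 16719888) (l 16715480)) (a (l 16721960) (l 1)))) (a (c (l 17423088) (a (l 16918528) (l 16893528))) (c (l 63385231943) (a (l 16877216) (l 16870912))))))) (b (a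 (a (b (c (l 17810648) (b (l 17207992) (l 17278784))) (l 17423776)) (b (c (l 17668136) (l 17143424)) (l 17411696))) (b (c (a (l 17539368) (l 17432064)) (a (l 17060928) (l 17004680))) (a (l 17409272) (c (l 17518752) (l 17117720))))) (a (a (l 17751152) (l 17635776)) (a (l 17529664) (c (l 17617600) (l 17251880)))))), by decide +kernel⟩

def k2_pm_022_b : ∃ t, chk3 f_pm_022_b t 3 1 1 = true :=
  ⟨(a (b (l 1) (b (l 1) (a (b (b (c (l 195455623271) (l 171832700359)) (l 77343414855)) (l 83249308151)) (b (l 1) (l 214782697719))))) (l 1)), by decide +kernel⟩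

theorem s3_pm_022_b : ∃ t, chk3 f_pm_022_b t 2 1 1 = true := ex3_b k0_pm_022_b k1_pm_022_b

theorem s4_pm_022_b : ∃ t, chk3 f_pm_022_b t 1 1 1 = true := ex3_a s3_pm_022_b k2_pm_022_b

theorem c_pm_022_b : CertN 0 536870912 1239849684 370763052 201326592 134217728 3 true true false .pp 0 2 2
    ndN0q0 ndN2q2b pcN2 cut_pm_022_b Ext.none :=
  certN1 (fam := true) (s1 := true) (s2 := false) (a := 0) (b := 2) (c := 2) (cn := .pp) (n1 := ndN0q0) (n2 := ndN2q2b) (pc := pcN2) (cut := cut_pm_022_b) (xt := Ext.none) (P1 := 0) (W1 := 536870912) (P2 := 1239849684) (W2 := 370763052) (P3 := 201326592) (W3 := 134217728) (N0 := 3)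
    rfl (fun _ => rfl) s4_pm_022_b

noncomputable def f_pm_023_a : ℕ → ℕ → ℕ → ℕ → Bool := onCell 0 536870912 0 536870912 201326592 134217728
    (rowN 3 0 true true false .up 0 2 3 (qsf 0 536870912 0 536870912 3) ndN0q0 ndN2q2a pcN3 Cut.none Ext.none)

def k0_pm_023_a : ∃ t, chk3 f_pm_023_a t 1 1 1 = true :=
  ⟨(a (l 1) (b (a (a (l 1) (c (l 17514200) (l 129957188631))) (a (c (l 17502336) (l 17240744)) (b (l 17349008) (l 17344600)))) (a (b (l 1) (l 1)) (a (b (c (l 17465264) (l 138547046839)) (c (l 210488192215) (b (l 213171984919) (l 1)))) (b (c (l 17440416) (l 17226168)) (c (b (l 17431112) (l 115462104775)) (b (l 123514681879) (a (l 228204471367) (l 113314045895))))))))), by decide +kernel⟩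

theorem c_pm_023_a : CertN 0 536870912 0 536870912 201326592 134217728 3 true true false .up 0 2 3
    ndN0q0 ndN2q2a pcN3 Cut.none Ext.none :=
  certN0 (fam := true) (s1 := true) (s2 := false) (a := 0) (b := 2) (c := 3) (cn := .up) (n1 := ndN0q0) (n2 := ndN2q2a) (pc := pcN3) (cut := Cut.none) (xt := Ext.none) (P1 := 0) (W1 := 536870912) (P2 := 0) (W2 := 536870912) (P3 := 201326592) (W3 := 134217728) (N0 := 3)
    rfl k0_pm_023_a

noncomputable def f_pm_023_b : ℕ → ℕ → ℕ → ℕ → Bool := onCell 0 536870912 1610612736 536870912 201326592 134217728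
    (rowN 3 1 true true false .up 0 2 3 (qsf 0 536870912 1239849684 370763052 3) ndN0q0 ndN2q2b pcN3 Cut.none Ext.none)

def k0_pm_023_b : ∃ t, chk3 f_pm_023_b t 1 1 1 = true :=
  ⟨(b (a (a (b (c (l 18014544) (b (l 17646520) (l 17678376))) (b (c (l 17932984) (l 17697480)) (l 2))) (b (b (c (l 17792912) (a (l 17530464) (l 17455992))) (c (l 17800968) (l 17532120))) (b (l 17674784) (l 17726824)))) (b (a (c (a (l 17681752) (l 144990849815)) (b (a (l 17374808) (l 17289864)) (l 17543984))) (a (c (l 257196685527) (b (l 246458267975) (l 17291224))) (b (l 1) (l 255585656055)))) (a (b (l 17643264) (l 17531104)) (b (a (l 17429528) (l 17536760)) (a (l 17421480) (l 17336664)))))) (b (a (a (l 2) (b (a (l 2) (l 17605040)) (l 2))) (a (b (l 17510656) (l 17541040)) (b (a (l 17402272) (l 17315160)) (a (l 17378968) (l 17288912))))) (a (l 2) (b (a (l 17436336) (l 17440112)) (l 4))))), by decide +kernel⟩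

theorem c_pm_023_b : CertN 0 536870912 1239849684 370763052 201326592 134217728 3 true true false .up 0 2 3
    ndN0q0 ndN2q2b pcN3 Cut.none Ext.none :=
  certN1 (fam := true) (s1 := true) (s2 := false) (a := 0) (b := 2) (c := 3) (cn := .up) (n1 := ndN0q0) (n2 := ndN2q2b) (pc := pcN3) (cut := Cut.none) (xt := Ext.none) (P1 := 0) (W1 := 536870912) (P2 := 1239849684) (W2 := 370763052) (P3 := 201326592) (W3 := 134217728) (N0 := 3)
    rfl (fun _ => rfl) k0_pm_023_b

noncomputable def f_pm_033 : ℕ → ℕ → ℕ → ℕ → Bool := onCell 0 536870912 1610612736 536870912 201326592 134217728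
    (rowN 3 1 true true false .pnn 0 3 3 (qsf 0 536870912 1610612736 536870912 3) ndN0q0 ndN2q3 pcN3 Cut.none Ext.none)

def k0_pm_033 : ∃ t, chk3 f_pm_033 t 1 1 1 = true :=
  ⟨(b (a (b (a (c (l 18021160) (b (l 17651344) (l 17672168))) (b (l 1) (l 259344403143))) (b (a (c (l 17951760) (l 17697640)) (l 17637080)) (a (c (l 17952744) (l 17707232)) (l 17836808)))) (b (l 1) (a (b (l 1) (l 17449632)) (l 1)))) (b (a (a (b (c (l 17936112) (l 17689880)) (l 17772880)) (b (a (l 17691760) (l 17602208)) (l 17629696))) (a (b (l 155191113063) (l 146064308711)) (b (l 1) (l 236795050743)))) (a (b (l 4) (l 4)) (b (a (l 17448968) (l 17339560)) (l 4))))), by decide +kernel⟩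

theorem c_pm_033 : CertN 0 536870912 1610612736 536870912 201326592 134217728 3 true true false .pnn 0 3 3
    ndN0q0 ndN2q3 pcN3 Cut.none Ext.none :=
  certN1 (fam := true) (s1 := true) (s2 := false) (a := 0) (b := 3) (c := 3) (cn := .pnn) (n1 := ndN0q0) (n2 := ndN2q3) (pc := pcN3) (cut := Cut.none) (xt := Ext.none) (P1 := 0) (W1 := 536870912) (P2 := 1610612736) (W2 := 536870912) (P3 := 201326592) (W3 := 134217728) (N0 := 3)
    rfl (fun _ => rfl) k0_pm_033

noncomputable def cut_pm_101 : Cut := Cut.of [[⟨0, 1, 0, 67108864⟩, ⟨1, 0, 0, 67108864⟩, ⟨2, 1, 0, 67108864⟩]]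

noncomputable def f_pm_101 : ℕ → ℕ → ℕ → ℕ → Bool := onCell 536870912 536870912 0 536870912 201326592 134217728
    (rowN 3 2 true true false .npn 1 0 1 (qsf 536870912 536870912 0 536870912 1) ndN0q1 ndN2q0 pcN1 cut_pm_101 Ext.none)

def k0_pm_101 : ∃ t, chk3 f_pm_101 t 1 1 1 = true :=
  ⟨(a (l 3) (a (l 3) (b (b (a (l 3) (b (a (l 3) (a (l 3) (b (l 6) (l 3)))) (l 3))) (l 3)) (l 3)))), by decide +kernel⟩

theorem c_pm_101 : CertN 536870912 536870912 0 536870912 201326592 134217728 3 true true false .npn 1 0 1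
    ndN0q1 ndN2q0 pcN1 cut_pm_101 Ext.none :=
  certN2 (fam := true) (s1 := true) (s2 := false) (a := 1) (b := 0) (c := 1) (cn := .npn) (n1 := ndN0q1) (n2 := ndN2q0) (pc := pcN1) (cut := cut_pm_101) (xt := Ext.none) (P1 := 536870912) (W1 := 536870912) (P2 := 0) (W2 := 536870912) (P3 := 201326592) (W3 := 134217728) (N0 := 3)
    rfl (fun _ => rfl) k0_pm_101

noncomputable def cut_pm_102 : Cut := Cut.of [[⟨0, 1, 0, 67108864⟩, ⟨1, 0, 0, 67108864⟩, ⟨2, 1, 0, 67108864⟩]]

noncomputable def f_pm_102 : ℕ → ℕ → ℕ → ℕ → Bool := onCell 536870912 536870912 1073741824 536870912 201326592 134217728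
    (rowN 3 1 true true false .npp 1 0 2 (qsf 536870912 536870912 0 536870912 2) ndN0q1 ndN2q0 pcN2 cut_pm_102 Ext.none)

def k0_pm_102 : ∃ t, chk3 f_pm_102 t 2 1 1 = true :=
  ⟨(b (a (b (b (a (b (a (c (l 178410581447) (b (l 3) (a (l 181631494503) (l 183241981959)))) (c (l 178947332375) (l 198274388551))) (c (l 108550363431) (a (l 149889017383) (l 17380512)))) (b (c (l 176799849735) (b (l 3) (l 196126892935))) (c (l 17433048) (l 17309040)))) (b (a (l 129488039959) (l 17335280)) (a (l 2) (l 61841979751)))) (b (b (a (l 2) (l 17278096)) (l 2)) (l 2))) (b (a (b (b (c (l 17351224) (l 196663670167)) (c (l 17313056) (l 17212648))) (b (l 17224344) (l 17190112))) (b (a (b (l 202568992167) (l 17176144)) (b (l 203642620023) (l 17119800))) (b (l 17108896) (l 17134640)))) (b (b (b (l 60231446679) (a (l 17153624) (l 17030312))) (l 17274512)) (a (l 17087160) (l 16957688))))) (b (a (l 2) (b (l 17170496) (l 2))) (l 2))), by decide +kernel⟩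

def k1_pm_102 : ∃ t, chk3 f_pm_102 t 3 1 1 = true :=
  ⟨(b (a (b (b (b (a (c (l 17258592) (l 204716385367)) (c (l 187536348071) (l 209010921335))) (a (l 17039712) (l 16942448))) (b (a (l 16998744) (l 16898648)) (b (l 16976400) (l 17040048)))) (b (b (b (l 16999536) (a (l 16912304) (l 16883472))) (l 17002512)) (a (l 16878528) (l 17016496)))) (b (a (b (b (a (a (l 193978657607) (l 17031712)) (a (l 17009344) (l 162303207671))) (l 16914960)) (b (l 16806040) (b (l 16785488) (l 16792464)))) (b (b (b (a (a (l 16912696) (l 168208611447)) (l 6)) (a (l 16819688) (a (l 16787224) (l 6)))) (a (l 16830184) (a (l 16777368) (b (l 16765608) (l 16731496))))) (b (a (l 16754288) (l 16772040)) (b (l 16808376) (l 16957968))))) (b (b (b (a (l 16800168) (l 16839192)) (a (l 17038976) (b (l 16759016) (l 16887608)))) (a (l 16802888) (l 16838816))) (b (a (l 16834056) (l 16826688)) (a (l 16889280) (l 16808528)))))) (b (b (a (a (l 16792632) (l 16891712)) (b (l 17102272) (l 17019480))) (a (a (l 16856592) (l 16960784))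 (a (l 17051680) (l 17124112)))) (b (a (l 17041136) (l 17249032)) (a (l 2) (l 17195704))))), by decide +kernel⟩

theorem s2_pm_102 : ∃ t, chk3 f_pm_102 t 1 1 1 = true := ex3_a k0_pm_102 k1_pm_102

theorem c_pm_102 : CertN 536870912 536870912 0 536870912 201326592 134217728 3 true true false .npp 1 0 2
    ndN0q1 ndN2q0 pcN2 cut_pm_102 Ext.none :=
  certN1 (fam := true) (s1 := true) (s2 := false) (a := 1) (b := 0) (c := 2) (cn := .npp) (n1 := ndN0q1) (n2 := ndN2q0) (pc := pcN2) (cut := cut_pm_102) (xt := Ext.none) (P1 := 536870912) (W1 := 536870912) (P2 := 0) (W2 := 536870912) (P3 := 201326592) (W3 := 134217728) (N0 := 3)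
    rfl (fun _ => rfl) s2_pm_102

noncomputable def f_pm_112 : ℕ → ℕ → ℕ → ℕ → Bool := onCell 536870912 536870912 1073741824 536870912 201326592 134217728
    (rowN 3 1 true true false .dn 1 1 2 (qsf 536870912 536870912 536870912 536870912 2) ndN0q1 ndN2q1 pcN2 Cut.none Ext.none)

def k0_pm_112 : ∃ t, chk3 f_pm_112 t 1 1 1 = true :=
  ⟨(a (b (a (b (b (a (b (c (l 104322174007) (b (l 3) (a (l 17198784) (l 222835809063)))) (c (b (l 17451104) (l 17468728)) (b (a (l 17206128) (l 17229816)) (l 17225480)))) (b (l 1) (c (l 263638857543) (l 256659133607)))) (b (a (c (l 17492584) (l 17256408)) (c (l 17531304) (l 17285888))) (a (b (l 17386464) (l 17403720)) (b (l 17428256) (l 17443648))))) (b (b (b (a (l 17423584) (l 17461024)) (a (c (l 17594888) (l 17294520)) (c (l 17614096) (l 17344520)))) (a (l 17478184) (l 17506496))) (a (c (l 17721744) (l 17383912)) (b (l 17548344) (l 17592872))))) (b (a (b (l 1) (b (l 1) (b (l 1) (l 17487400)))) (l 1)) (b (a (b (b (l 17501216) (c (l 17640848) (l 17390352)))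 (l 17535240)) (b (l 1) (l 17576168))) (b (a (l 17566680) (l 17596600)) (l 17607576))))) (b (b (a (c (l 17982456) (a (l 17489800) (l 17509672))) (b (l 17633904) (l 17659224))) (a (a (c (l 18002912) (l 17614304)) (l 17761976)) (b (l 17682208) (l 17704072)))) (b (a (b (a (l 17929744) (l 17850968)) (a (l 18019280) (l 17923688))) (b (l 17741848) (l 17794848))) (a (a (l 18159336) (l 18040056)) (l 17883032))))) (b (a (b (l 1) (b (l 1) (b (l 1) (l 17683944)))) (l 1)) (b (b (a (b (l 17664056) (l 17663088)) (l 1)) (a (b (l 17660712) (l 17660480)) (l 301220473367))) (b (a (b (l 17677552) (l 17709592)) (l 17928360)) (a (l 17758752) (l 17719992)))))), by decide +kernel⟩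

theorem c_pm_112 : CertN 536870912 536870912 536870912 536870912 201326592 134217728 3 true true false .dn 1 1 2
    ndN0q1 ndN2q1 pcN2 Cut.none Ext.none :=
  certN1 (fam := true) (s1 := true) (s2 := false) (a := 1) (b := 1) (c := 2) (cn := .dn) (n1 := ndN0q1) (n2 := ndN2q1) (pc := pcN2) (cut := Cut.none) (xt := Ext.none) (P1 := 536870912) (W1 := 536870912) (P2 := 536870912) (W2 := 536870912) (P3 := 201326592) (W3 := 134217728) (N0 := 3)
    rfl (fun _ => rfl) k0_pm_112

noncomputable def f_pm_113 : ℕ → ℕ → ℕ → ℕ → Bool := onCell 536870912 536870912 1610612736 536870912 201326592 134217728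
    (rowN 3 1 true true false .nn 1 1 3 (qsf 536870912 536870912 536870912 536870912 3) ndN0q1 ndN2q1 pcN3 Cut.none Ext.none)

def k0_pm_113 : ∃ t, chk3 f_pm_113 t 1 1 1 = true :=
  ⟨(b (a (b (a (a (c (b (l 18497032) (l 18729632)) (b (l 18140600) (l 18339336))) (c (l 18322232) (l 18051968))) (c (l 17959752) (a (l 17881728) (l 17738432)))) (a (b (a (l 2) (l 18476080)) (l 2)) (a (c (l 18407760) (l 18164200)) (b (l 17991744) (l 18119520))))) (b (a (b (l 17576336) (l 17645984)) (b (l 17603864) (c (l 17451256) (l 17444656)))) (a (b (l 17847824) (a (l 17894200) (l 17715440))) (b (l 17485504) (l 17594512))))) (b (a (a (l 2) (b (a (l 2) (l 18241568)) (l 2))) (a (b (a (l 17988888) (l 17773048)) (c (l 18027088) (l 17857096))) (b (l 17503560) (l 4)))) (a (l 2) (a (a (l 2) (l 4)) (l 4))))), by decide +kernel⟩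

theorem c_pm_113 : CertN 536870912 536870912 536870912 536870912 201326592 134217728 3 true true false .nn 1 1 3
    ndN0q1 ndN2q1 pcN3 Cut.none Ext.none :=
  certN1 (fam := true) (s1 := true) (s2 := false) (a := 1) (b := 1) (c := 3) (cn := .nn) (n1 := ndN0q1) (n2 := ndN2q1) (pc := pcN3) (cut := Cut.none) (xt := Ext.none) (P1 := 536870912) (W1 := 536870912) (P2 := 536870912) (W2 := 536870912) (P3 := 201326592) (W3 := 134217728) (N0 := 3)
    rfl (fun _ => rfl) k0_pm_113

noncomputable def cut_pm_123_a : Cut := Cut.of [[⟨0, 1, 0, 57167902⟩, ⟨1, 1, 0, 57167902⟩, ⟨2, 2, 0, 11758673⟩]]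

noncomputable def f_pm_123_a : ℕ → ℕ → ℕ → ℕ → Bool := onCell 1610612736 536870912 0 536870912 201326592 134217728
    (rowN 3 2 true true false .npn 1 2 3 (qsf 536870912 536870912 0 536870912 3) ndN0q1 ndN2q2a pcN3 cut_pm_123_a Ext.none)

def k0_pm_123_a : ∃ t, chk3 f_pm_123_a t 2 1 1 = true :=
  ⟨(b (a (a (l 1) (b (l 1) (l 114388624007))) (a (b (l 17318504) (l 17305640)) (b (l 17247752) (l 17242392)))) (a (b (a (l 1) (c (l 17417720) (b (l 17232024) (l 17230472)))) (a (b (c (l 17428936) (a (l 1) (l 17226760))) (c (a (l 17417600) (l 17402016)) (a (b (l 17219016) (c (l 17281568) (l 17186952))) (b (l 17240296) (l 17252304))))) (b (c (l 17385976) (l 17235768)) (c (l 17359128) (a (l 17249904) (l 17240648)))))) (b (a (b (l 17289064) (l 17277112)) (b (l 17227360) (l 17210344))) (a (b (c (l 17315768) (l 17210208)) (a (c (l 17299000) (l 17220840)) (c (l 17250440) (l 17192000)))) (b (a (l 17209648) (l 17167304)) (c (l 17166488) (a (l 17155472) (l 17113456)))))))), by decide +kernel⟩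

def k1_pm_123_a : ∃ t, chk3 f_pm_123_a t 3 1 1 = true :=
  ⟨(a (b (a (b (l 17158096) (l 17324144)) (b (l 17052984) (l 17156304))) (b (a (b (l 17293960) (l 17293856)) (b (l 17170736) (a (l 17058584) (l 17009888)))) (a (b (a (l 17120024) (l 17072152)) (b (l 17063856) (l 17136976))) (b (a (l 17024304) (l 16979816)) (c (l 17117672) (l 17140280)))))) (a (a (b (l 16968544) (b (l 17021976) (b (l 16938888) (l 17095968)))) (b (l 16914912) (b (l 16909392) (b (l 16980816) (a (l 17008032) (a (l 16952224) (l 16963416))))))) (a (b (a (l 16878528) (l 16920664)) (b (a (l 16871856) (l 17002880)) (b (b (l 16857160) (l 16893264)) (b (l 16941784) (a (l 16943968) (a (l 16905752) (l 16893664))))))) (b (a (l 16877888) (a (l 16805192) (l 4))) (a (b (l 17038216) (b (l 16820408) (b (l 16936032) (b (l 16825360) (b (l 16814856) (a (l 16829008) (c (l 16818368) (l 16811664)))))))) (a (b (l 16886648) (b (l 16934944) (b (l 16838208) (a (b (l 16794104) (a (l 16823608) (l 16819968))) (a (b (l 16792240) (l 16816304))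 (l 6)))))) (b (a (l 16788520) (c (l 17047184) (l 86671738071))) (b (a (l 16857312) (a (l 16803584) (a (l 16777208) (l 4)))) (l 6))))))))), by decide +kernel⟩

theorem s2_pm_123_a : ∃ t, chk3 f_pm_123_a t 1 1 1 = true := ex3_a k0_pm_123_a k1_pm_123_a

theorem c_pm_123_a : CertN 536870912 536870912 0 536870912 201326592 134217728 3 true true false .npn 1 2 3
    ndN0q1 ndN2q2a pcN3 cut_pm_123_a Ext.none :=
  certN2 (fam := true) (s1 := true) (s2 := false) (a := 1) (b := 2) (c := 3) (cn := .npn) (n1 := ndN0q1) (n2 := ndN2q2a) (pc := pcN3) (cut := cut_pm_123_a) (xt := Ext.none) (P1 := 536870912) (W1 := 536870912) (P2 := 0) (W2 := 536870912) (P3 := 201326592) (W3 := 134217728) (N0 := 3)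
    rfl (fun _ => rfl) s2_pm_123_a

noncomputable def cut_pm_123_b : Cut := Cut.of [[⟨0, 1, 0, 57167902⟩, ⟨1, 1, 0, 57167902⟩, ⟨2, 2, 0, 11758673⟩]]

noncomputable def f_pm_123_b : ℕ → ℕ → ℕ → ℕ → Bool := onCell 536870912 536870912 1610612736 536870912 201326592 134217728
    (rowN 3 1 true true false .npn 1 2 3 (qsf 536870912 536870912 1239849684 370763052 3) ndN0q1 ndN2q2b pcN3 cut_pm_123_b Ext.none)

def k0_pm_123_b : ∃ t, chk3 f_pm_123_b t 1 1 1 = true :=
  ⟨(b (a (a (b (l 1) (a (b (l 249143178615) (l 17269368)) (b (l 1) (l 245921818631)))) (l 1)) (l 1)) (b (a (a (b (a (l 17237808) (l 17177656)) (a (l 17208080) (l 17137496))) (a (b (l 273838932807) (l 17076432)) (b (l 1) (b (l 17131720) (l 17012080))))) (l 1)) (a (b (a (a (l 17178944) (l 17148384)) (a (b (l 17044416) (l 17034408)) (b (l 16981680) (l 16958160)))) (b (a (l 17121624) (a (l 17004248) (l 16939672))) (a (l 4) (l 4)))) (a (b (a (b (l 16941208) (l 294239588231)) (l 1)) (b (a (l 17065312) (l 336652260183)) (b (l 324304218295)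 (b (l 17057408) (l 4))))) (l 1))))), by decide +kernel⟩

theorem c_pm_123_b : CertN 536870912 536870912 1239849684 370763052 201326592 134217728 3 true true false .npn 1 2 3
    ndN0q1 ndN2q2b pcN3 cut_pm_123_b Ext.none :=
  certN1 (fam := true) (s1 := true) (s2 := false) (a := 1) (b := 2) (c := 3) (cn := .npn) (n1 := ndN0q1) (n2 := ndN2q2b) (pc := pcN3) (cut := cut_pm_123_b) (xt := Ext.none) (P1 := 536870912) (W1 := 536870912) (P2 := 1239849684) (W2 := 370763052) (P3 := 201326592) (W3 := 134217728) (N0 := 3)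
    rfl (fun _ => rfl) k0_pm_123_b

noncomputable def f_pm_133 : ℕ → ℕ → ℕ → ℕ → Bool := onCell 536870912 536870912 1610612736 536870912 201326592 134217728
    (rowN 3 0 true true false .dn 1 3 3 (qsf 536870912 536870912 1610612736 536870912 3) ndN0q1 ndN2q3 pcN3 Cut.none Ext.none)

def k0_pm_133 : ∃ t, chk3 f_pm_133 t 1 1 1 = true :=
  ⟨(a (l 4) (l 2)), by decide +kernel⟩

theorem c_pm_133 : CertN 536870912 536870912 1610612736 536870912 201326592 134217728 3 true true false .dn 1 3 3
    ndN0q1 ndN2q3 pcN3 Cut.none Ext.none :=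
  certN0 (fam := true) (s1 := true) (s2 := false) (a := 1) (b := 3) (c := 3) (cn := .dn) (n1 := ndN0q1) (n2 := ndN2q3) (pc := pcN3) (cut := Cut.none) (xt := Ext.none) (P1 := 536870912) (W1 := 536870912) (P2 := 1610612736) (W2 := 536870912) (P3 := 201326592) (W3 := 134217728) (N0 := 3)
    rfl k0_pm_133

noncomputable def cut_pm_202 : Cut := Cut.of [[⟨0, 1, 0, 67108864⟩, ⟨1, 0, 0, 67108864⟩, ⟨2, 1, 0, 67108864⟩]]

noncomputable def f_pm_202 : ℕ → ℕ → ℕ → ℕ → Bool := onCell 0 536870912 1073741824 536870912 201326592 134217728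
    (rowN 3 1 true true false .pp 2 0 2 (qsf 0 536870912 0 536870912 2) ndN0q2 ndN2q0 pcN2 cut_pm_202 Ext.none)

def k0_pm_202 : ∃ t, chk3 f_pm_202 t 2 2 1 = true :=
  ⟨(a (b (l 1) (b (b (b (l 1) (b (a (l 1) (a (l 1) (c (l 232498116951) (l 16462728)))) (b (a (l 1) (c (a (l 16487200) (l 16499536)) (a (l 16460640) (l 16472944)))) (a (c (a (l 250214834087) (b (l 16462016) (l 16464176))) (a (l 16472960) (l 16498392))) (c (a (a (l 16509808) (l 16514416)) (l 16524232)) (a (l 16506416) (l 16497432))))))) (a (b (c (b (l 16489488) (l 16478792)) (a (l 16463552) (l 16466736))) (a (l 16512928) (l 16491112))) (b (c (a (l 16479928) (l 16490616)) (l 16521296)) (c (l 16503936) (l 16496624))))) (b (a (l 16643552) (l 16615776)) (l 16746088)))) (b (a (l 1) (a (l 1) (b (l 1) (b (l 1) (b (l 1) (b (l 1) (c (b (l 238940653063) (a (l 245383097943) (l 16536088))) (b (l 16503384) (l 281353466247))))))))) (b (b (b (a (b (l 1) (c (a (l 215318275559) (b (l 237329997959) (l 286722126743))) (a (l 198675270423)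 (l 285648397943)))) (b (c (a (b (l 227129479527) (l 259878608919)) (b (l 329134988231) (l 16537384))) (a (b (l 231961308023) (l 16532424)) (l 340946175607))) (c (a (b (l 16542728) (l 16524304)) (l 16540576)) (a (l 16535672) (l 16533016))))) (a (b (c (a (b (l 251288613111) (l 16492488)) (l 16531056)) (a (l 303901984935) (l 16523168))) (b (a (c (l 16495720) (l 16488936)) (l 16531568)) (c (c (l 16594104) (l 16590872)) (c (l 16587096) (l 16582792))))) (b (a (c (l 16528080) (l 16519792)) (l 16583880)) (b (c (l 16541280) (l 16533072)) (c (l 16606888) (l 16619608)))))) (b (a (c (a (l 16506248) (l 16523576)) (l 16486672)) (c (l 16548584) (l 16540584))) (a (l 16568624) (l 16557408)))) (b (b (a (l 16543424) (l 16571208)) (l 16680504)) (a (l 16595368) (l 16613720)))))), by decide +kernel⟩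

def k1_pm_202 : ∃ t, chk3 f_pm_202 t 2 3 1 = true :=
  ⟨(a (b (b (l 16721080) (l 17017960)) (b (l 17130488) (l 17162408))) (b (b (a (l 16719576) (l 16769024)) (l 17072208)) (b (l 17203056) (l 17240632)))), by decide +kernel⟩

def k2_pm_202 : ∃ t, chk3 f_pm_202 t 6 2 1 = true :=
  ⟨(b (a (b (l 1) (b (l 1) (b (b (a (l 1) (c (b (l 281353538599) (l 249678154167)) (b (l 280816653031) (l 250751882279)))) (a (c (l 343630491047) (l 254509941463)) (c (l 331282512391) (l 301217730023)))) (b (a (c (a (l 230887566215) (l 317323830983)) (l 198675313991)) (c (l 16558008) (l 16555280))) (a (c (b (l 16566856) (l 16549944)) (b (l 16540904) (l 16544160))) (b (l 16583376) (l 16587064))))))) (b (l 1) (b (b (a (l 1) (b (l 1) (a (c (l 296386054471) (l 266858095559)) (c (b (l 336114474183) (l 344167551591)) (l 328598279895))))) (a (a (b (l 1) (c (l 311955197319) (l 278669184807))) (b (c (l 302291557559) (l 273300511575)) (c (l 331282593575) (l 291017259287)))) (b (a (c (l 315713378631) (l 281353619303))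 (c (l 16644760) (l 16616536))) (c (l 16627384) (l 16620688))))) (b (a (a (b (c (l 351683654823) (l 325913837191)) (l 16587360)) (c (l 16595904) (l 16593512))) (c (l 16590360) (l 16591168))) (b (a (l 16597144) (l 16597016)) (a (l 16624992) (l 16603144))))))) (b (b (b (a (b (a (c (b (l 16553272) (l 16555520)) (l 16568664)) (l 16611792)) (c (l 16588856) (l 16582688))) (a (a (l 16689960) (l 16699752)) (l 16735912))) (b (a (c (l 16572448) (l 16566072)) (l 16628520)) (a (b (l 16572888) (b (l 16574464) (l 16596288))) (b (l 16610376) (l 16654344))))) (a (b (l 16599528) (l 16588944)) (l 16739664))) (b (b (l 16723448) (l 16651136)) (l 16733376)))), by decide +kernel⟩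

def k3_pm_202 : ∃ t, chk3 f_pm_202 t 7 2 1 = true :=
  ⟨(b (a (b (b (l 1) (b (a (l 1) (l 6)) (a (b (l 1) (a (l 1) (b (a (l 1) (l 6)) (c (a (l 312492228407) (l 16670672)) (l 316787191335))))) (b (l 6) (b (l 6) (c (l 16697952) (l 16691272))))))) (b (b (a (a (b (c (c (l 323229604199) (l 326450821799)) (b (l 300681012807) (l 321082124471))) (c (l 16663280) (l 16655936))) (b (c (a (l 16679960) (l 16661360)) (l 16673944)) (l 16664096))) (c (a (l 16679352) (l 16663232)) (l 16669952))) (a (c (l 16643224) (l 16615936)) (l 16640848))) (b (a (l 16616184) (l 16642752)) (b (l 16634240) (l 16617360))))) (b (b (l 6) (b (l 6) (a (b (l 6) (l 16708048)) (l 16730504)))) (b (a (b (l 16693168) (l 16669488)) (l 16700872)) (b (l 16686320) (b (l 16689896) (l 16692976)))))) (b (b (b (a (b (l 16642624) (l 16645200)) (l 16821168)) (b (a (l 16627712) (l 16698936)) (a (b (l 16651208) (l 16653000)) (b (l 16700016) (l 16701048))))) (a (l 16756912) (l 16823496))) (b (a (l 16670224) (l 16712592)) (a (l 16690168)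 (l 16728376))))), by decide +kernel⟩

def k4_pm_202 : ∃ t, chk3 f_pm_202 t 3 3 1 = true :=
  ⟨(b (b (a (b (l 16684376) (l 16901752)) (a (l 16853896) (l 16903600))) (a (b (l 17066304) (l 17175120)) (b (l 17091016) (l 17182360)))) (b (a (l 17281416) (l 17278992)) (a (l 17298944) (l 17322168)))), by decide +kernel⟩

theorem s5_pm_202 : ∃ t, chk3 f_pm_202 t 3 2 1 = true := ex3_a k2_pm_202 k3_pm_202

theorem s6_pm_202 : ∃ t, chk3 f_pm_202 t 3 1 1 = true := ex3_b s5_pm_202 k4_pm_202

theorem s7_pm_202 : ∃ t, chk3 f_pm_202 t 2 1 1 = true := ex3_b k0_pm_202 k1_pm_202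

theorem s8_pm_202 : ∃ t, chk3 f_pm_202 t 1 1 1 = true := ex3_a s7_pm_202 s6_pm_202

theorem c_pm_202 : CertN 0 536870912 0 536870912 201326592 134217728 3 true true false .pp 2 0 2
    ndN0q2 ndN2q0 pcN2 cut_pm_202 Ext.none :=
  certN1 (fam := true) (s1 := true) (s2 := false) (a := 2) (b := 0) (c := 2) (cn := .pp) (n1 := ndN0q2) (n2 := ndN2q0) (pc := pcN2) (cut := cut_pm_202) (xt := Ext.none) (P1 := 0) (W1 := 536870912) (P2 := 0) (W2 := 536870912) (P3 := 201326592) (W3 := 134217728) (N0 := 3)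
    rfl (fun _ => rfl) s8_pm_202

noncomputable def f_pm_203 : ℕ → ℕ → ℕ → ℕ → Bool := onCell 0 536870912 1610612736 536870912 201326592 134217728
    (rowN 3 1 true true false .up 2 0 3 (qsf 0 536870912 0 536870912 3) ndN0q2 ndN2q0 pcN3 Cut.none Ext.none)

def k0_pm_203 : ∃ t, chk3 f_pm_203 t 1 1 1 = true :=
  ⟨(b (b (a (a (l 4) (b (l 17254912) (l 17269864))) (b (a (l 17312048) (l 17392048)) (a (l 17332112) (l 17446336)))) (a (l 4) (a (l 2) (l 2)))) (l 2)), by decide +kernel⟩

theorem c_pm_203 : CertN 0 536870912 0 536870912 201326592 134217728 3 true true false .up 2 0 3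
    ndN0q2 ndN2q0 pcN3 Cut.none Ext.none :=
  certN1 (fam := true) (s1 := true) (s2 := false) (a := 2) (b := 0) (c := 3) (cn := .up) (n1 := ndN0q2) (n2 := ndN2q0) (pc := pcN3) (cut := Cut.none) (xt := Ext.none) (P1 := 0) (W1 := 536870912) (P2 := 0) (W2 := 536870912) (P3 := 201326592) (W3 := 134217728) (N0 := 3)
    rfl (fun _ => rfl) k0_pm_203

noncomputable def f_pm_213 : ℕ → ℕ → ℕ → ℕ → Bool := onCell 0 536870912 1610612736 536870912 201326592 134217728
    (rowN 3 1 true true false .pnn 2 1 3 (qsf 0 536870912 536870912 536870912 3) ndN0q2 ndN2q1 pcN3 Cut.none Ext.none)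

def k0_pm_213 : ∃ t, chk3 f_pm_213 t 1 1 1 = true :=
  ⟨(a (b (b (b (l 1) (a (l 1) (l 308735911783))) (l 4)) (l 4)) (b (b (b (a (l 1) (l 17586296)) (a (l 17570896) (l 17389528))) (b (a (l 17298896) (l 17371088)) (l 18489956167))) (l 4))), by decide +kernel⟩

theorem c_pm_213 : CertN 0 536870912 536870912 536870912 201326592 134217728 3 true true false .pnn 2 1 3
    ndN0q2 ndN2q1 pcN3 Cut.none Ext.none :=
  certN1 (fam := true) (s1 := true) (s2 := false) (a := 2) (b := 1) (c := 3) (cn := .pnn) (n1 := ndN0q2) (n2 := ndN2q1) (pc := pcN3) (cut := Cut.none) (xt := Ext.none) (P1 := 0) (W1 := 536870912) (P2 := 536870912) (W2 := 536870912) (P3 := 201326592) (W3 := 134217728) (N0 := 3)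
    rfl (fun _ => rfl) k0_pm_213

noncomputable def f_mm_001 : ℕ → ℕ → ℕ → ℕ → Bool := onCell 0 536870912 0 536870912 201326592 134217728
    (rowN 3 0 true false false .up 0 0 1 (qsf 0 536870912 0 536870912 1) ndN0q0 ndN2q0 pcN1 Cut.none Ext.none)

def k0_mm_001 : ∃ t, chk3 f_mm_001 t 1 1 1 = true :=
  ⟨(l 4), by decide +kernel⟩

theorem c_mm_001 : CertN 0 536870912 0 536870912 201326592 134217728 3 true false false .up 0 0 1
    ndN0q0 ndN2q0 pcN1 Cut.none Ext.none :=
  certN0 (fam := true) (s1 := false) (s2 := false) (a := 0) (b := 0) (c := 1) (cn := .up) (n1 := ndN0q0) (n2 := ndN2q0) (pc := pcN1) (cut := Cut.none) (xt := Ext.none) (P1 := 0) (W1 := 536870912) (P2 := 0) (W2 := 536870912) (P3 := 201326592) (W3 := 134217728) (N0 := 3)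
    rfl k0_mm_001

noncomputable def f_mm_011 : ℕ → ℕ → ℕ → ℕ → Bool := onCell 0 536870912 536870912 536870912 201326592 134217728
    (rowN 3 0 true false false .pnn 0 1 1 (qsf 0 536870912 536870912 536870912 1) ndN0q0 ndN2q1 pcN1 Cut.none Ext.none)

def k0_mm_011 : ∃ t, chk3 f_mm_011 t 1 1 1 = true :=
  ⟨(l 4), by decide +kernel⟩

theorem c_mm_011 : CertN 0 536870912 536870912 536870912 201326592 134217728 3 true false false .pnn 0 1 1
    ndN0q0 ndN2q1 pcN1 Cut.none Ext.none :=
  certN0 (fam := true) (s1 := false) (s2 := false) (a := 0) (b := 1) (c := 1) (cn := .pnn) (n1 := ndN0q0) (n2 := ndN2q1) (pc := pcN1) (cut := Cut.none) (xt := Ext.none) (P1 := 0) (W1 := 536870912) (P2 := 536870912) (W2 := 536870912) (P3 := 201326592) (W3 := 134217728) (N0 := 3)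
    rfl k0_mm_011

noncomputable def f_mm_012 : ℕ → ℕ → ℕ → ℕ → Bool := onCell 0 536870912 536870912 536870912 201326592 134217728
    (rowN 3 0 true false false .pnp 0 1 2 (qsf 0 536870912 536870912 536870912 2) ndN0q0 ndN2q1 pcN2 Cut.none Ext.none)

def k0_mm_012 : ∃ t, chk3 f_mm_012 t 1 1 1 = true :=
  ⟨(l 4), by decide +kernel⟩

theorem c_mm_012 : CertN 0 536870912 536870912 536870912 201326592 134217728 3 true false false .pnp 0 1 2
    ndN0q0 ndN2q1 pcN2 Cut.none Ext.none :=
  certN0 (fam := true) (s1 := false) (s2 := false) (a := 0) (b := 1) (c := 2) (cn := .pnp) (n1 := ndN0q0) (n2 := ndN2q1) (pc := pcN2) (cut := Cut.none) (xt := Ext.none) (P1 := 0) (W1 := 536870912) (P2 := 536870912) (W2 := 536870912) (P3 := 201326592) (W3 := 134217728) (N0 := 3)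
    rfl k0_mm_012

noncomputable def f_mm_022_a : ℕ → ℕ → ℕ → ℕ → Bool := onCell 0 536870912 0 536870912 201326592 134217728
    (rowN 3 0 true false false .pp 0 2 2 (qsf 0 536870912 0 536870912 2) ndN0q0 ndN2q2a pcN2 Cut.none Ext.none)

def k0_mm_022_a : ∃ t, chk3 f_mm_022_a t 1 1 1 = true :=
  ⟨(l 5), by decide +kernel⟩

theorem c_mm_022_a : CertN 0 536870912 0 536870912 201326592 134217728 3 true false false .pp 0 2 2
    ndN0q0 ndN2q2a pcN2 Cut.none Ext.none :=
  certN0 (fam := true) (s1 := false) (s2 := false) (a := 0) (b := 2) (c := 2) (cn := .pp) (n1 := ndN0q0) (n2 := ndN2q2a) (pc := pcN2) (cut := Cut.none) (xt := Ext.none) (P1 := 0) (W1 := 536870912) (P2 := 0) (W2 := 536870912) (P3 := 201326592) (W3 := 134217728) (N0 := 3)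
    rfl k0_mm_022_a

noncomputable def f_mm_022_b : ℕ → ℕ → ℕ → ℕ → Bool := onCell 0 536870912 1239849684 370763052 201326592 134217728
    (rowN 3 0 true false false .pp 0 2 2 (qsf 0 536870912 1239849684 370763052 2) ndN0q0 ndN2q2b pcN2 Cut.none Ext.none)

def k0_mm_022_b : ∃ t, chk3 f_mm_022_b t 1 1 1 = true :=
  ⟨(l 5), by decide +kernel⟩

theorem c_mm_022_b : CertN 0 536870912 1239849684 370763052 201326592 134217728 3 true false false .pp 0 2 2
    ndN0q0 ndN2q2b pcN2 Cut.none Ext.none :=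
  certN0 (fam := true) (s1 := false) (s2 := false) (a := 0) (b := 2) (c := 2) (cn := .pp) (n1 := ndN0q0) (n2 := ndN2q2b) (pc := pcN2) (cut := Cut.none) (xt := Ext.none) (P1 := 0) (W1 := 536870912) (P2 := 1239849684) (W2 := 370763052) (P3 := 201326592) (W3 := 134217728) (N0 := 3)
    rfl k0_mm_022_b

noncomputable def f_mm_023_a : ℕ → ℕ → ℕ → ℕ → Bool := onCell 0 536870912 0 536870912 201326592 134217728
    (rowN 3 0 true false false .up 0 2 3 (qsf 0 536870912 0 536870912 3) ndN0q0 ndN2q2a pcN3 Cut.none Ext.none)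

def k0_mm_023_a : ∃ t, chk3 f_mm_023_a t 1 1 1 = true :=
  ⟨(l 5), by decide +kernel⟩

theorem c_mm_023_a : CertN 0 536870912 0 536870912 201326592 134217728 3 true false false .up 0 2 3
    ndN0q0 ndN2q2a pcN3 Cut.none Ext.none :=
  certN0 (fam := true) (s1 := false) (s2 := false) (a := 0) (b := 2) (c := 3) (cn := .up) (n1 := ndN0q0) (n2 := ndN2q2a) (pc := pcN3) (cut := Cut.none) (xt := Ext.none) (P1 := 0) (W1 := 536870912) (P2 := 0) (W2 := 536870912) (P3 := 201326592) (W3 := 134217728) (N0 := 3)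
    rfl k0_mm_023_a

noncomputable def f_mm_023_b : ℕ → ℕ → ℕ → ℕ → Bool := onCell 0 536870912 1239849684 370763052 201326592 134217728
    (rowN 3 0 true false false .up 0 2 3 (qsf 0 536870912 1239849684 370763052 3) ndN0q0 ndN2q2b pcN3 Cut.none Ext.none)

def k0_mm_023_b : ∃ t, chk3 f_mm_023_b t 1 1 1 = true :=
  ⟨(l 5), by decide +kernel⟩

theorem c_mm_023_b : CertN 0 536870912 1239849684 370763052 201326592 134217728 3 true false false .up 0 2 3
    ndN0q0 ndN2q2b pcN3 Cut.none Ext.none :=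
  certN0 (fam := true) (s1 := false) (s2 := false) (a := 0) (b := 2) (c := 3) (cn := .up) (n1 := ndN0q0) (n2 := ndN2q2b) (pc := pcN3) (cut := Cut.none) (xt := Ext.none) (P1 := 0) (W1 := 536870912) (P2 := 1239849684) (W2 := 370763052) (P3 := 201326592) (W3 := 134217728) (N0 := 3)
    rfl k0_mm_023_b

noncomputable def f_mm_033 : ℕ → ℕ → ℕ → ℕ → Bool := onCell 0 536870912 1610612736 536870912 201326592 134217728
    (rowN 3 0 true false false .pnn 0 3 3 (qsf 0 536870912 1610612736 536870912 3) ndN0q0 ndN2q3 pcN3 Cut.none Ext.none)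

def k0_mm_033 : ∃ t, chk3 f_mm_033 t 1 1 1 = true :=
  ⟨(l 4), by decide +kernel⟩

theorem c_mm_033 : CertN 0 536870912 1610612736 536870912 201326592 134217728 3 true false false .pnn 0 3 3
    ndN0q0 ndN2q3 pcN3 Cut.none Ext.none :=
  certN0 (fam := true) (s1 := false) (s2 := false) (a := 0) (b := 3) (c := 3) (cn := .pnn) (n1 := ndN0q0) (n2 := ndN2q3) (pc := pcN3) (cut := Cut.none) (xt := Ext.none) (P1 := 0) (W1 := 536870912) (P2 := 1610612736) (W2 := 536870912) (P3 := 201326592) (W3 := 134217728) (N0 := 3)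
    rfl k0_mm_033

noncomputable def cut_mm_101 : Cut := Cut.of [[⟨0, 1, 0, 67108864⟩, ⟨1, 0, 0, 67108864⟩, ⟨2, 1, 0, 67108864⟩]]

noncomputable def f_mm_101 : ℕ → ℕ → ℕ → ℕ → Bool := onCell 536870912 536870912 0 536870912 201326592 134217728
    (rowN 3 0 true false false .npn 1 0 1 (qsf 536870912 536870912 0 536870912 1) ndN0q1 ndN2q0 pcN1 cut_mm_101 Ext.none)

def k0_mm_101 : ∃ t, chk3 f_mm_101 t 1 1 1 = true :=
  ⟨(a (l 4) (b (a (l 4) (a (l 4) (b (a (l 4) (b (b (l 6) (l 4)) (l 2))) (l 2)))) (l 4))), by decide +kernel⟩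

theorem c_mm_101 : CertN 536870912 536870912 0 536870912 201326592 134217728 3 true false false .npn 1 0 1
    ndN0q1 ndN2q0 pcN1 cut_mm_101 Ext.none :=
  certN0 (fam := true) (s1 := false) (s2 := false) (a := 1) (b := 0) (c := 1) (cn := .npn) (n1 := ndN0q1) (n2 := ndN2q0) (pc := pcN1) (cut := cut_mm_101) (xt := Ext.none) (P1 := 536870912) (W1 := 536870912) (P2 := 0) (W2 := 536870912) (P3 := 201326592) (W3 := 134217728) (N0 := 3)
    rfl k0_mm_101

noncomputable def cut_mm_102 : Cut := Cut.of [[⟨0, 1, 0, 67108864⟩, ⟨1, 0, 0, 67108864⟩, ⟨2, 1, 0, 67108864⟩]]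

noncomputable def f_mm_102 : ℕ → ℕ → ℕ → ℕ → Bool := onCell 536870912 536870912 0 536870912 201326592 134217728
    (rowN 3 0 true false false .npp 1 0 2 (qsf 536870912 536870912 0 536870912 2) ndN0q1 ndN2q0 pcN2 cut_mm_102 Ext.none)

def k0_mm_102 : ∃ t, chk3 f_mm_102 t 1 1 1 = true :=
  ⟨(a (l 4) (b (a (l 4) (b (a (l 4) (b (a (l 4) (b (l 6) (l 4))) (l 4))) (l 4))) (l 4))), by decide +kernel⟩

theorem c_mm_102 : CertN 536870912 536870912 0 536870912 201326592 134217728 3 true false false .npp 1 0 2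
    ndN0q1 ndN2q0 pcN2 cut_mm_102 Ext.none :=
  certN0 (fam := true) (s1 := false) (s2 := false) (a := 1) (b := 0) (c := 2) (cn := .npp) (n1 := ndN0q1) (n2 := ndN2q0) (pc := pcN2) (cut := cut_mm_102) (xt := Ext.none) (P1 := 536870912) (W1 := 536870912) (P2 := 0) (W2 := 536870912) (P3 := 201326592) (W3 := 134217728) (N0 := 3)
    rfl k0_mm_102

noncomputable def f_mm_112 : ℕ → ℕ → ℕ → ℕ → Bool := onCell 536870912 536870912 536870912 536870912 201326592 134217728
    (rowN 3 0 true false false .dn 1 1 2 (qsf 536870912 536870912 536870912 536870912 2) ndN0q1 ndN2q1 pcN2 Cut.none Ext.none)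

def k0_mm_112 : ∃ t, chk3 f_mm_112 t 1 1 1 = true :=
  ⟨(l 4), by decide +kernel⟩

theorem c_mm_112 : CertN 536870912 536870912 536870912 536870912 201326592 134217728 3 true false false .dn 1 1 2
    ndN0q1 ndN2q1 pcN2 Cut.none Ext.none :=
  certN0 (fam := true) (s1 := false) (s2 := false) (a := 1) (b := 1) (c := 2) (cn := .dn) (n1 := ndN0q1) (n2 := ndN2q1) (pc := pcN2) (cut := Cut.none) (xt := Ext.none) (P1 := 536870912) (W1 := 536870912) (P2 := 536870912) (W2 := 536870912) (P3 := 201326592) (W3 := 134217728) (N0 := 3)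
    rfl k0_mm_112

noncomputable def f_mm_113 : ℕ → ℕ → ℕ → ℕ → Bool := onCell 536870912 536870912 536870912 536870912 201326592 134217728
    (rowN 3 0 true false false .nn 1 1 3 (qsf 536870912 536870912 536870912 536870912 3) ndN0q1 ndN2q1 pcN3 Cut.none Ext.none)

def k0_mm_113 : ∃ t, chk3 f_mm_113 t 1 1 1 = true :=
  ⟨(l 4), by decide +kernel⟩

theorem c_mm_113 : CertN 536870912 536870912 536870912 536870912 201326592 134217728 3 true false false .nn 1 1 3
    ndN0q1 ndN2q1 pcN3 Cut.none Ext.none :=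
  certN0 (fam := true) (s1 := false) (s2 := false) (a := 1) (b := 1) (c := 3) (cn := .nn) (n1 := ndN0q1) (n2 := ndN2q1) (pc := pcN3) (cut := Cut.none) (xt := Ext.none) (P1 := 536870912) (W1 := 536870912) (P2 := 536870912) (W2 := 536870912) (P3 := 201326592) (W3 := 134217728) (N0 := 3)
    rfl k0_mm_113

noncomputable def f_mm_123_a : ℕ → ℕ → ℕ → ℕ → Bool := onCell 536870912 536870912 0 536870912 201326592 134217728
    (rowN 3 0 true false false .npn 1 2 3 (qsf 536870912 536870912 0 536870912 3) ndN0q1 ndN2q2a pcN3 Cut.none Ext.none)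

def k0_mm_123_a : ∃ t, chk3 f_mm_123_a t 1 1 1 = true :=
  ⟨(l 4), by decide +kernel⟩

theorem c_mm_123_a : CertN 536870912 536870912 0 536870912 201326592 134217728 3 true false false .npn 1 2 3
    ndN0q1 ndN2q2a pcN3 Cut.none Ext.none :=
  certN0 (fam := true) (s1 := false) (s2 := false) (a := 1) (b := 2) (c := 3) (cn := .npn) (n1 := ndN0q1) (n2 := ndN2q2a) (pc := pcN3) (cut := Cut.none) (xt := Ext.none) (P1 := 536870912) (W1 := 536870912) (P2 := 0) (W2 := 536870912) (P3 := 201326592) (W3 := 134217728) (N0 := 3)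
    rfl k0_mm_123_a

noncomputable def f_mm_123_b : ℕ → ℕ → ℕ → ℕ → Bool := onCell 536870912 536870912 1239849684 370763052 201326592 134217728
    (rowN 3 0 true false false .npn 1 2 3 (qsf 536870912 536870912 1239849684 370763052 3) ndN0q1 ndN2q2b pcN3 Cut.none Ext.none)

def k0_mm_123_b : ∃ t, chk3 f_mm_123_b t 1 1 1 = true :=
  ⟨(l 4), by decide +kernel⟩

theorem c_mm_123_b : CertN 536870912 536870912 1239849684 370763052 201326592 134217728 3 true false false .npn 1 2 3
    ndN0q1 ndN2q2b pcN3 Cut.none Ext.none :=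
  certN0 (fam := true) (s1 := false) (s2 := false) (a := 1) (b := 2) (c := 3) (cn := .npn) (n1 := ndN0q1) (n2 := ndN2q2b) (pc := pcN3) (cut := Cut.none) (xt := Ext.none) (P1 := 536870912) (W1 := 536870912) (P2 := 1239849684) (W2 := 370763052) (P3 := 201326592) (W3 := 134217728) (N0 := 3)
    rfl k0_mm_123_b

noncomputable def f_mm_133 : ℕ → ℕ → ℕ → ℕ → Bool := onCell 536870912 536870912 1610612736 536870912 201326592 134217728
    (rowN 3 0 true false false .dn 1 3 3 (qsf 536870912 536870912 1610612736 536870912 3) ndN0q1 ndN2q3 pcN3 Cut.none Ext.none)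

def k0_mm_133 : ∃ t, chk3 f_mm_133 t 1 1 1 = true :=
  ⟨(l 4), by decide +kernel⟩

theorem c_mm_133 : CertN 536870912 536870912 1610612736 536870912 201326592 134217728 3 true false false .dn 1 3 3
    ndN0q1 ndN2q3 pcN3 Cut.none Ext.none :=
  certN0 (fam := true) (s1 := false) (s2 := false) (a := 1) (b := 3) (c := 3) (cn := .dn) (n1 := ndN0q1) (n2 := ndN2q3) (pc := pcN3) (cut := Cut.none) (xt := Ext.none) (P1 := 536870912) (W1 := 536870912) (P2 := 1610612736) (W2 := 536870912) (P3 := 201326592) (W3 := 134217728) (N0 := 3)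
    rfl k0_mm_133

noncomputable def cut_mm_202 : Cut := Cut.of [[⟨0, 1, 0, 67108864⟩, ⟨1, 0, 0, 67108864⟩, ⟨2, 1, 0, 67108864⟩]]

noncomputable def f_mm_202 : ℕ → ℕ → ℕ → ℕ → Bool := onCell 0 536870912 0 536870912 201326592 134217728
    (rowN 3 0 true false false .pp 2 0 2 (qsf 0 536870912 0 536870912 2) ndN0q2 ndN2q0 pcN2 cut_mm_202 Ext.none)

def k0_mm_202 : ∃ t, chk3 f_mm_202 t 2 1 1 = true :=
  ⟨(b (b (a (b (c (b (a (b (a (b (l 16486736) (l 16477976)) (b (l 16504944) (l 16471584))) (l 16482416)) (b (b (l 16495056) (l 16459672)) (l 16469248))) (l 16517528)) (b (b (a (a (l 16525320) (l 16497656)) (l 16490872)) (l 16559976)) (l 16490072))) (b (l 16516032) (l 16540992))) (b (b (a (b (c (b (l 16556248) (l 16520664)) (l 16558152)) (l 16553800)) (c (b (b (a (l 16543840) (l 16568672)) (l 16575872)) (l 16573656)) (b (b (l 16587952) (l 16544072)) (l 16520640)))) (a (l 16545000) (c (l 16551056) (l 16538536)))) (b (a (l 16501408) (l 16547360)) (l 16713984)))) (a (b (l 16850456) (l 17013256))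 (b (b (l 16751728) (l 16814856)) (l 4)))) (b (a (b (l 17061640) (l 4)) (l 4)) (l 4))), by decide +kernel⟩

def k1_mm_202 : ∃ t, chk3 f_mm_202 t 3 1 1 = true :=
  ⟨(b (b (a (b (a (b (b (b (c (a (l 16613552) (b (l 16636744) (l 16615736))) (a (l 16581112) (l 16604480))) (c (l 16625208) (l 16613880))) (c (l 16625456) (l 16613912))) (b (l 16641904) (l 16602680))) (b (b (a (c (b (c (l 16662184) (l 16636104)) (l 16639416)) (b (b (l 16627768) (l 16628128)) (l 16628736))) (b (c (b (c (l 16684896) (l 16680120)) (l 16662120)) (a (l 16645736) (l 16678800))) (c (l 16663072) (l 16653216)))) (a (l 16677616) (c (l 16665536) (l 16655616)))) (b (c (l 16657704) (l 16646632)) (l 16698608)))) (a (b (l 16657064) (l 16664040)) (b (b (l 16684368) (l 4)) (l 4)))) (b (a (b (a (b (b (b (c (a (c (l 16681008) (l 16676624)) (c (l 16692520) (l 16688496))) (a (l 16669680) (b (l 16681928) (l 16682408)))) (c (l 16706480) (l 16676872))) (c (l 16686800) (l 16678304))) (c (l 16710840) (l 16681416))) (b (b (a (b (l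 6) (b (l 6) (l 16721056))) (l 6)) (c (a (l 16704960) (l 16717640)) (b (l 16725136) (l 16726352)))) (b (a (l 16724648) (l 16717056)) (l 16758288)))) (a (b (l 16737160) (l 16722904)) (b (a (l 16724984) (l 4)) (l 4)))) (b (a (a (b (l 6) (b (l 6) (l 16748872))) (l 6)) (l 6)) (l 4))) (l 4))) (l 4)) (l 4)), by decide +kernel⟩

theorem s2_mm_202 : ∃ t, chk3 f_mm_202 t 1 1 1 = true := ex3_a k0_mm_202 k1_mm_202

theorem c_mm_202 : CertN 0 536870912 0 536870912 201326592 134217728 3 true false false .pp 2 0 2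
    ndN0q2 ndN2q0 pcN2 cut_mm_202 Ext.none :=
  certN0 (fam := true) (s1 := false) (s2 := false) (a := 2) (b := 0) (c := 2) (cn := .pp) (n1 := ndN0q2) (n2 := ndN2q0) (pc := pcN2) (cut := cut_mm_202) (xt := Ext.none) (P1 := 0) (W1 := 536870912) (P2 := 0) (W2 := 536870912) (P3 := 201326592) (W3 := 134217728) (N0 := 3)
    rfl s2_mm_202

noncomputable def f_mm_203 : ℕ → ℕ → ℕ → ℕ → Bool := onCell 0 536870912 1610612736 536870912 201326592 134217728
    (rowN 3 1 true false false .up 2 0 3 (qsf 0 536870912 0 536870912 3) ndN0q2 ndN2q0 pcN3 Cut.none Ext.none)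

def k0_mm_203 : ∃ t, chk3 f_mm_203 t 1 1 1 = true :=
  ⟨(l 4), by decide +kernel⟩

theorem c_mm_203 : CertN 0 536870912 0 536870912 201326592 134217728 3 true false false .up 2 0 3
    ndN0q2 ndN2q0 pcN3 Cut.none Ext.none :=
  certN1 (fam := true) (s1 := false) (s2 := false) (a := 2) (b := 0) (c := 3) (cn := .up) (n1 := ndN0q2) (n2 := ndN2q0) (pc := pcN3) (cut := Cut.none) (xt := Ext.none) (P1 := 0) (W1 := 536870912) (P2 := 0) (W2 := 536870912) (P3 := 201326592) (W3 := 134217728) (N0 := 3)
    rfl (fun _ => rfl) k0_mm_203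

noncomputable def f_mm_213 : ℕ → ℕ → ℕ → ℕ → Bool := onCell 0 536870912 536870912 536870912 201326592 134217728
    (rowN 3 0 true false false .pnn 2 1 3 (qsf 0 536870912 536870912 536870912 3) ndN0q2 ndN2q1 pcN3 Cut.none Ext.none)

def k0_mm_213 : ∃ t, chk3 f_mm_213 t 1 1 1 = true :=
  ⟨(l 4), by decide +kernel⟩

theorem c_mm_213 : CertN 0 536870912 536870912 536870912 201326592 134217728 3 true false false .pnn 2 1 3
    ndN0q2 ndN2q1 pcN3 Cut.none Ext.none :=
  certN0 (fam := true) (s1 := false) (s2 := false) (a := 2) (b := 1) (c := 3) (cn := .pnn) (n1 := ndN0q2) (n2 := ndN2q1) (pc := pcN3) (cut := Cut.none) (xt := Ext.none) (P1 := 0) (W1 := 536870912) (P2 := 536870912) (W2 := 536870912) (P3 := 201326592) (W3 := 134217728) (N0 := 3)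
    rfl k0_mm_213

end Pool.Agent.Strip051.G.I3_16_5_16.Tab.C.NA02

namespace Pool.Agent.Strip051.G.I3_16_5_16.Tab.C.NA03

open Pool.Agent.Strip051.PB Pool.Agent.Strip051.PB.T
open Pool.Agent.Strip051.G.I3_16_5_16.Tab

noncomputable def f_pp_001 : ℕ → ℕ → ℕ → ℕ → Bool := onCell 0 536870912 0 536870912 201326592 134217728
    (rowN 3 0 true true true .up 0 0 1 (qsf 0 536870912 0 536870912 1) ndN0q0 ndN3q0 pcN1 Cut.none Ext.none)

def k0_pp_001 : ∃ t, chk3 f_pp_001 t 1 1 1 = true :=
  ⟨(l 4), by decide +kernel⟩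

theorem c_pp_001 : CertN 0 536870912 0 536870912 201326592 134217728 3 true true true .up 0 0 1
    ndN0q0 ndN3q0 pcN1 Cut.none Ext.none :=
  certN0 (fam := true) (s1 := true) (s2 := true) (a := 0) (b := 0) (c := 1) (cn := .up) (n1 := ndN0q0) (n2 := ndN3q0) (pc := pcN1) (cut := Cut.none) (xt := Ext.none) (P1 := 0) (W1 := 536870912) (P2 := 0) (W2 := 536870912) (P3 := 201326592) (W3 := 134217728) (N0 := 3)
    rfl k0_pp_001

noncomputable def f_pp_011 : ℕ → ℕ → ℕ → ℕ → Bool := onCell 0 536870912 536870912 536870912 201326592 134217728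
    (rowN 3 0 true true true .pnn 0 1 1 (qsf 0 536870912 536870912 536870912 1) ndN0q0 ndN3q1 pcN1 Cut.none Ext.none)

def k0_pp_011 : ∃ t, chk3 f_pp_011 t 1 1 1 = true :=
  ⟨(l 4), by decide +kernel⟩

theorem c_pp_011 : CertN 0 536870912 536870912 536870912 201326592 134217728 3 true true true .pnn 0 1 1
    ndN0q0 ndN3q1 pcN1 Cut.none Ext.none :=
  certN0 (fam := true) (s1 := true) (s2 := true) (a := 0) (b := 1) (c := 1) (cn := .pnn) (n1 := ndN0q0) (n2 := ndN3q1) (pc := pcN1) (cut := Cut.none) (xt := Ext.none) (P1 := 0) (W1 := 536870912) (P2 := 536870912) (W2 := 536870912) (P3 := 201326592) (W3 := 134217728) (N0 := 3)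
    rfl k0_pp_011

noncomputable def f_pp_012 : ℕ → ℕ → ℕ → ℕ → Bool := onCell 0 536870912 536870912 536870912 201326592 134217728
    (rowN 3 0 true true true .pnp 0 1 2 (qsf 0 536870912 536870912 536870912 2) ndN0q0 ndN3q1 pcN2 Cut.none Ext.none)

def k0_pp_012 : ∃ t, chk3 f_pp_012 t 1 1 1 = true :=
  ⟨(l 4), by decide +kernel⟩

theorem c_pp_012 : CertN 0 536870912 536870912 536870912 201326592 134217728 3 true true true .pnp 0 1 2
    ndN0q0 ndN3q1 pcN2 Cut.none Ext.none :=
  certN0 (fam := true) (s1 := true) (s2 := true) (a := 0) (b := 1) (c := 2) (cn := .pnp) (n1 := ndN0q0) (n2 := ndN3q1) (pc := pcN2) (cut := Cut.none) (xt := Ext.none) (P1 := 0) (W1 := 536870912) (P2 := 536870912) (W2 := 536870912) (P3 := 201326592) (W3 := 134217728) (N0 := 3)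
    rfl k0_pp_012

noncomputable def f_pp_022 : ℕ → ℕ → ℕ → ℕ → Bool := onCell 0 536870912 1073741824 536870912 201326592 134217728
    (rowN 3 0 true true true .pp 0 2 2 (qsf 0 536870912 1073741824 536870912 2) ndN0q0 ndN3q2 pcN2 Cut.none Ext.none)

def k0_pp_022 : ∃ t, chk3 f_pp_022 t 1 1 1 = true :=
  ⟨(l 4), by decide +kernel⟩

theorem c_pp_022 : CertN 0 536870912 1073741824 536870912 201326592 134217728 3 true true true .pp 0 2 2
    ndN0q0 ndN3q2 pcN2 Cut.none Ext.none :=
  certN0 (fam := true) (s1 := true) (s2 := true) (a := 0) (b := 2) (c := 2) (cn := .pp) (n1 := ndN0q0) (n2 := ndN3q2) (pc := pcN2) (cut := Cut.none) (xt := Ext.none) (P1 := 0) (W1 := 536870912) (P2 := 1073741824) (W2 := 536870912) (P3 := 201326592) (W3 := 134217728) (N0 := 3)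
    rfl k0_pp_022

noncomputable def f_pp_023 : ℕ → ℕ → ℕ → ℕ → Bool := onCell 0 536870912 1073741824 536870912 201326592 134217728
    (rowN 3 0 true true true .up 0 2 3 (qsf 0 536870912 1073741824 536870912 3) ndN0q0 ndN3q2 pcN3 Cut.none Ext.none)

def k0_pp_023 : ∃ t, chk3 f_pp_023 t 1 1 1 = true :=
  ⟨(l 4), by decide +kernel⟩

theorem c_pp_023 : CertN 0 536870912 1073741824 536870912 201326592 134217728 3 true true true .up 0 2 3
    ndN0q0 ndN3q2 pcN3 Cut.none Ext.none :=
  certN0 (fam := true) (s1 := true) (s2 := true) (a := 0) (b := 2) (c := 3) (cn := .up) (n1 := ndN0q0) (n2 := ndN3q2) (pc := pcN3) (cut := Cut.none) (xt := Ext.none) (P1 := 0) (W1 := 536870912) (P2 := 1073741824) (W2 := 536870912) (P3 := 201326592) (W3 := 134217728) (N0 := 3)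
    rfl k0_pp_023

noncomputable def f_pp_033 : ℕ → ℕ → ℕ → ℕ → Bool := onCell 0 536870912 0 1230186008 201326592 134217728
    (rowN 3 0 true true true .pnn 0 3 3 (qsf 0 536870912 0 1230186008 3) ndN0q0 ndN3q3 pcN3 Cut.none Ext.none)

def k0_pp_033 : ∃ t, chk3 f_pp_033 t 1 1 1 = true :=
  ⟨(b (l 4) (l 4)), by decide +kernel⟩

theorem c_pp_033 : CertN 0 536870912 0 1230186008 201326592 134217728 3 true true true .pnn 0 3 3
    ndN0q0 ndN3q3 pcN3 Cut.none Ext.none :=
  certN0 (fam := true) (s1 := true) (s2 := true) (a := 0) (b := 3) (c := 3) (cn := .pnn) (n1 := ndN0q0) (n2 := ndN3q3) (pc := pcN3) (cut := Cut.none) (xt := Ext.none) (P1 := 0) (W1 := 536870912) (P2 := 0) (W2 := 1230186008) (P3 := 201326592) (W3 := 134217728) (N0 := 3)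
    rfl k0_pp_033

noncomputable def f_pp_101 : ℕ → ℕ → ℕ → ℕ → Bool := onCell 536870912 536870912 0 536870912 201326592 134217728
    (rowN 3 0 true true true .npn 1 0 1 (qsf 536870912 536870912 0 536870912 1) ndN0q1 ndN3q0 pcN1 Cut.none Ext.none)

def k0_pp_101 : ∃ t, chk3 f_pp_101 t 1 1 1 = true :=
  ⟨(l 4), by decide +kernel⟩

theorem c_pp_101 : CertN 536870912 536870912 0 536870912 201326592 134217728 3 true true true .npn 1 0 1
    ndN0q1 ndN3q0 pcN1 Cut.none Ext.none :=
  certN0 (fam := true) (s1 := true) (s2 := true) (a := 1) (b := 0) (c := 1) (cn := .npn) (n1 := ndN0q1) (n2 := ndN3q0) (pc := pcN1) (cut := Cut.none) (xt := Ext.none) (P1 := 536870912) (W1 := 536870912) (P2 := 0) (W2 := 536870912) (P3 := 201326592) (W3 := 134217728) (N0 := 3)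
    rfl k0_pp_101

noncomputable def f_pp_102 : ℕ → ℕ → ℕ → ℕ → Bool := onCell 536870912 536870912 0 536870912 201326592 134217728
    (rowN 3 0 true true true .npp 1 0 2 (qsf 536870912 536870912 0 536870912 2) ndN0q1 ndN3q0 pcN2 Cut.none Ext.none)

def k0_pp_102 : ∃ t, chk3 f_pp_102 t 1 1 1 = true :=
  ⟨(l 4), by decide +kernel⟩

theorem c_pp_102 : CertN 536870912 536870912 0 536870912 201326592 134217728 3 true true true .npp 1 0 2
    ndN0q1 ndN3q0 pcN2 Cut.none Ext.none :=
  certN0 (fam := true) (s1 := true) (s2 := true) (a := 1) (b := 0) (c := 2) (cn := .npp) (n1 := ndN0q1) (n2 := ndN3q0) (pc := pcN2) (cut := Cut.none) (xt := Ext.none) (P1 := 536870912) (W1 := 536870912) (P2 := 0) (W2 := 536870912) (P3 := 201326592) (W3 := 134217728) (N0 := 3)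
    rfl k0_pp_102

noncomputable def f_pp_112 : ℕ → ℕ → ℕ → ℕ → Bool := onCell 536870912 536870912 536870912 536870912 201326592 134217728
    (rowN 3 0 true true true .dn 1 1 2 (qsf 536870912 536870912 536870912 536870912 2) ndN0q1 ndN3q1 pcN2 Cut.none Ext.none)

def k0_pp_112 : ∃ t, chk3 f_pp_112 t 1 1 1 = true :=
  ⟨(l 4), by decide +kernel⟩

theorem c_pp_112 : CertN 536870912 536870912 536870912 536870912 201326592 134217728 3 true true true .dn 1 1 2
    ndN0q1 ndN3q1 pcN2 Cut.none Ext.none :=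
  certN0 (fam := true) (s1 := true) (s2 := true) (a := 1) (b := 1) (c := 2) (cn := .dn) (n1 := ndN0q1) (n2 := ndN3q1) (pc := pcN2) (cut := Cut.none) (xt := Ext.none) (P1 := 536870912) (W1 := 536870912) (P2 := 536870912) (W2 := 536870912) (P3 := 201326592) (W3 := 134217728) (N0 := 3)
    rfl k0_pp_112

noncomputable def f_pp_113 : ℕ → ℕ → ℕ → ℕ → Bool := onCell 536870912 536870912 536870912 536870912 201326592 134217728
    (rowN 3 0 true true true .nn 1 1 3 (qsf 536870912 536870912 536870912 536870912 3) ndN0q1 ndN3q1 pcN3 Cut.none Ext.none)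

def k0_pp_113 : ∃ t, chk3 f_pp_113 t 1 1 1 = true :=
  ⟨(l 4), by decide +kernel⟩

theorem c_pp_113 : CertN 536870912 536870912 536870912 536870912 201326592 134217728 3 true true true .nn 1 1 3
    ndN0q1 ndN3q1 pcN3 Cut.none Ext.none :=
  certN0 (fam := true) (s1 := true) (s2 := true) (a := 1) (b := 1) (c := 3) (cn := .nn) (n1 := ndN0q1) (n2 := ndN3q1) (pc := pcN3) (cut := Cut.none) (xt := Ext.none) (P1 := 536870912) (W1 := 536870912) (P2 := 536870912) (W2 := 536870912) (P3 := 201326592) (W3 := 134217728) (N0 := 3)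
    rfl k0_pp_113

noncomputable def f_pp_123 : ℕ → ℕ → ℕ → ℕ → Bool := onCell 536870912 536870912 1073741824 536870912 201326592 134217728
    (rowN 3 0 true true true .npn 1 2 3 (qsf 536870912 536870912 1073741824 536870912 3) ndN0q1 ndN3q2 pcN3 Cut.none Ext.none)

def k0_pp_123 : ∃ t, chk3 f_pp_123 t 1 1 1 = true :=
  ⟨(l 4), by decide +kernel⟩

theorem c_pp_123 : CertN 536870912 536870912 1073741824 536870912 201326592 134217728 3 true true true .npn 1 2 3
    ndN0q1 ndN3q2 pcN3 Cut.none Ext.none :=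
  certN0 (fam := true) (s1 := true) (s2 := true) (a := 1) (b := 2) (c := 3) (cn := .npn) (n1 := ndN0q1) (n2 := ndN3q2) (pc := pcN3) (cut := Cut.none) (xt := Ext.none) (P1 := 536870912) (W1 := 536870912) (P2 := 1073741824) (W2 := 536870912) (P3 := 201326592) (W3 := 134217728) (N0 := 3)
    rfl k0_pp_123

noncomputable def f_pp_133 : ℕ → ℕ → ℕ → ℕ → Bool := onCell 536870912 536870912 0 1230186008 201326592 134217728
    (rowN 3 0 true true true .dn 1 3 3 (qsf 536870912 536870912 0 1230186008 3) ndN0q1 ndN3q3 pcN3 Cut.none Ext.none)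

def k0_pp_133 : ∃ t, chk3 f_pp_133 t 1 1 1 = true :=
  ⟨(l 4), by decide +kernel⟩

theorem c_pp_133 : CertN 536870912 536870912 0 1230186008 201326592 134217728 3 true true true .dn 1 3 3
    ndN0q1 ndN3q3 pcN3 Cut.none Ext.none :=
  certN0 (fam := true) (s1 := true) (s2 := true) (a := 1) (b := 3) (c := 3) (cn := .dn) (n1 := ndN0q1) (n2 := ndN3q3) (pc := pcN3) (cut := Cut.none) (xt := Ext.none) (P1 := 536870912) (W1 := 536870912) (P2 := 0) (W2 := 1230186008) (P3 := 201326592) (W3 := 134217728) (N0 := 3)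
    rfl k0_pp_133

noncomputable def f_pp_202 : ℕ → ℕ → ℕ → ℕ → Bool := onCell 0 536870912 0 536870912 201326592 134217728
    (rowN 3 0 true true true .pp 2 0 2 (qsf 0 536870912 0 536870912 2) ndN0q2 ndN3q0 pcN2 Cut.none Ext.none)

def k0_pp_202 : ∃ t, chk3 f_pp_202 t 1 1 1 = true :=
  ⟨(l 5), by decide +kernel⟩

theorem c_pp_202 : CertN 0 536870912 0 536870912 201326592 134217728 3 true true true .pp 2 0 2
    ndN0q2 ndN3q0 pcN2 Cut.none Ext.none :=
  certN0 (fam := true) (s1 := true) (s2 := true) (a := 2) (b := 0) (c := 2) (cn := .pp) (n1 := ndN0q2) (n2 := ndN3q0) (pc := pcN2) (cut := Cut.none) (xt := Ext.none) (P1 := 0) (W1 := 536870912) (P2 := 0) (W2 := 536870912) (P3 := 201326592) (W3 := 134217728) (N0 := 3)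
    rfl k0_pp_202

noncomputable def f_pp_203 : ℕ → ℕ → ℕ → ℕ → Bool := onCell 0 536870912 0 536870912 201326592 134217728
    (rowN 3 0 true true true .up 2 0 3 (qsf 0 536870912 0 536870912 3) ndN0q2 ndN3q0 pcN3 Cut.none Ext.none)

def k0_pp_203 : ∃ t, chk3 f_pp_203 t 1 1 1 = true :=
  ⟨(l 5), by decide +kernel⟩

theorem c_pp_203 : CertN 0 536870912 0 536870912 201326592 134217728 3 true true true .up 2 0 3
    ndN0q2 ndN3q0 pcN3 Cut.none Ext.none :=
  certN0 (fam := true) (s1 := true) (s2 := true) (a := 2) (b := 0) (c := 3) (cn := .up) (n1 := ndN0q2) (n2 := ndN3q0) (pc := pcN3) (cut := Cut.none) (xt := Ext.none) (P1 := 0) (W1 := 536870912) (P2 := 0) (W2 := 536870912) (P3 := 201326592) (W3 := 134217728) (N0 := 3)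
    rfl k0_pp_203

noncomputable def f_pp_213 : ℕ → ℕ → ℕ → ℕ → Bool := onCell 0 536870912 536870912 536870912 201326592 134217728
    (rowN 3 0 true true true .pnn 2 1 3 (qsf 0 536870912 536870912 536870912 3) ndN0q2 ndN3q1 pcN3 Cut.none Ext.none)

def k0_pp_213 : ∃ t, chk3 f_pp_213 t 1 1 1 = true :=
  ⟨(l 4), by decide +kernel⟩

theorem c_pp_213 : CertN 0 536870912 536870912 536870912 201326592 134217728 3 true true true .pnn 2 1 3
    ndN0q2 ndN3q1 pcN3 Cut.none Ext.none :=
  certN0 (fam := true) (s1 := true) (s2 := true) (a := 2) (b := 1) (c := 3) (cn := .pnn) (n1 := ndN0q2) (n2 := ndN3q1) (pc := pcN3) (cut := Cut.none) (xt := Ext.none) (P1 := 0) (W1 := 536870912) (P2 := 536870912) (W2 := 536870912) (P3 := 201326592) (W3 := 134217728) (N0 := 3)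
    rfl k0_pp_213

noncomputable def f_pm_001 : ℕ → ℕ → ℕ → ℕ → Bool := onCell 0 536870912 0 536870912 201326592 134217728
    (rowN 3 0 true true false .up 0 0 1 (qsf 0 536870912 0 536870912 1) ndN0q0 ndN3q0 pcN1 Cut.none Ext.none)

def k0_pm_001 : ∃ t, chk3 f_pm_001 t 1 1 1 = true :=
  ⟨(a (l 3) (b (l 3) (a (l 3) (b (l 3) (a (l 3) (c (b (l 3) (c (a (l 3) (b (l 259478308455) (l 250351480711))) (a (l 3) (b (l 265920531735) (a (l 261088715831) (l 189147939223)))))) (b (l 3) (c (a (l 3) (b (l 271825907399) (a (b (l 268067835735) (l 264309737719)) (l 192368976743)))) (a (l 3) (b (l 276120694711) (a (b (l 271825751895) (a (l 266993886599) (l 196126947351))) (l 195053170743)))))))))))), by decide +kernel⟩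

theorem c_pm_001 : CertN 0 536870912 0 536870912 201326592 134217728 3 true true false .up 0 0 1
    ndN0q0 ndN3q0 pcN1 Cut.none Ext.none :=
  certN0 (fam := true) (s1 := true) (s2 := false) (a := 0) (b := 0) (c := 1) (cn := .up) (n1 := ndN0q0) (n2 := ndN3q0) (pc := pcN1) (cut := Cut.none) (xt := Ext.none) (P1 := 0) (W1 := 536870912) (P2 := 0) (W2 := 536870912) (P3 := 201326592) (W3 := 134217728) (N0 := 3)
    rfl k0_pm_001

noncomputable def cut_pm_011 : Cut := Cut.of [[⟨0, 0, 0, 67108864⟩, ⟨1, 1, 0, 67108864⟩, ⟨2, 1, 0, 67108864⟩]]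

noncomputable def f_pm_011 : ℕ → ℕ → ℕ → ℕ → Bool := onCell 536870912 536870912 536870912 536870912 201326592 134217728
    (rowN 3 2 true true false .pnn 0 1 1 (qsf 0 536870912 536870912 536870912 1) ndN0q0 ndN3q1 pcN1 cut_pm_011 Ext.none)

def k0_pm_011 : ∃ t, chk3 f_pm_011 t 2 1 1 = true :=
  ⟨(l 3), by decide +kernel⟩

def k1_pm_011 : ∃ t, chk3 f_pm_011 t 3 4 1 = true :=
  ⟨(a (l 3) (b (a (l 3) (a (l 3) (b (c (c (l 17500440) (a (l 17332624) (l 17376912))) (a (c (b (l 17215144) (l 17194128)) (b (l 17095424) (l 17075384))) (c (l 17232624) (l 17097560)))) (b (c (c (l 17462896) (l 17321128)) (a (c (l 17172936) (l 17033736)) (l 17130760))) (c (c (l 17438184) (l 17298272)) (a (c (l 17151376) (l 45802253607)) (l 17065672))))))) (a (l 3) (a (l 3) (b (c (a (c (l 17369264) (l 17241536)) (l 17358248)) (a (c (a (l 17110912) (l 17124336)) (b (l 42580981287) (a (l 16983232) (l 16985968)))) (c (l 17140736) (b (l 17014464) (l 16986512))))) (c (b (a (l 17269704) (l 17322432)) (a (c (l 17309048)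 (l 17180672)) (l 17297432))) (a (b (c (l 17080536) (a (l 16954616) (l 16956904))) (c (l 52781586119) (b (l 49023243959) (a (l 424295945943) (l 16911608))))) (b (c (l 17101272) (l 16955104)) (c (l 17070920) (b (l 16928656) (l 16908376))))))))))), by decide +kernel⟩

def k2_pm_011 : ∃ t, chk3 f_pm_011 t 6 5 1 = true :=
  ⟨(l 3), by decide +kernel⟩

def k3_pm_011 : ∃ t, chk3 f_pm_011 t 7 10 1 = true :=
  ⟨(a (l 3) (c (a (l 3) (b (c (a (l 64593218951) (l 17329048)) (a (b (l 17149320) (l 48486691031)) (b (l 17189256) (l 17147488)))) (a (a (l 3) (c (b (l 17229656) (l 17188264)) (b (l 17077448) (c (l 17068952) (l 16988864))))) (c (b (l 17273584) (l 17230184)) (b (l 17100640) (a (l 17042048) (l 17053760))))))) (a (l 3) (b (a (a (l 3) (c (b (l 16999000) (b (l 16985760) (l 16961672))) (b (b (l 16889344) (l 16843136)) (b (a (l 16839392) (l 16836232)) (a (l 42043624423) (l 16808368)))))) (c (b (l 16989232) (a (l 16978824) (l 16982928))) (b (b (l 16884104) (l 16856296)) (a (b (l 16830928) (l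 16801480)) (l 16807536))))) (a (a (l 3) (b (c (b (l 16894488) (l 42580691639)) (b (a (l 38822344167) (l 16779280)) (a (c (l 16793952) (l 16716272)) (l 16748896)))) (c (b (c (l 16922280) (l 39359403831)) (c (l 16894112) (l 36674989383))) (b (a (c (l 16743248) (l 16684920)) (l 16696136)) (a (c (l 69960827239) (l 16673176)) (c (l 16726272) (l 16641264))))))) (b (c (a (b (l 16939024) (l 16910760)) (l 16925688)) (a (b (l 16770656) (l 16738328)) (b (l 16758344) (l 16723424)))) (c (a (b (l 16881008) (l 16849688)) (l 16798904)) (a (b (l 16704424) (l 16668816)) (b (l 16686632) (l 16647864)))))))))), by decide +kernel⟩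

def k4_pm_011 : ∃ t, chk3 f_pm_011 t 14 11 1 = true :=
  ⟨(l 3), by decide +kernel⟩

def k5_pm_011 : ∃ t, chk3 f_pm_011 t 30 11 1 = true :=
  ⟨(l 3), by decide +kernel⟩

def k6_pm_011 : ∃ t, chk3 f_pm_011 t 31 22 1 = true :=
  ⟨(c (a (a (l 3) (c (b (l 17141920) (l 36675430087)) (b (b (l 37748993031) (l 34527709175)) (b (c (l 16974648) (l 31306416359)) (c (l 16944424) (l 28621997479)))))) (c (b (l 17180912) (a (l 17114040) (l 17135728))) (b (a (b (l 16999832) (l 16969648)) (l 16992832)) (a (b (l 16916776) (c (l 16953016) (l 16854840))) (b (l 16942112) (l 16905584)))))) (a (a (l 3) (a (b (l 3) (l 3)) (b (c (b (c (l 16864632) (l 16778776)) (c (l 16833048) (l 16745240))) (c (b (l 16692408) (l 16656920)) (l 16618768))) (b (c (c (l 16778888) (l 36674828711)) (l 36674686487)) (c (c (l 33990514183) (l 32916734263)) (l 16627176)))))) (b (c (a (b (l 16753784) (a (l 16784424) (l 16779360))) (b (l 16809064) (l 16771296))) (a (b (l 16652384) (l 16592096)) (l 16564640))) (a (c (b (a (l 16727664)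 (l 16741888)) (a (l 16689952) (l 16702304))) (b (l 16601904) (l 16606904))) (c (b (l 16731296) (l 16688872)) (l 16569456)))))), by decide +kernel⟩

def k7_pm_011 : ∃ t, chk3 f_pm_011 t 31 23 1 = true :=
  ⟨(a (c (a (l 3) (a (l 3) (c (b (c (l 17084992) (l 16991608)) (c (l 17021688) (b (l 16941544) (l 16905688)))) (b (b (c (l 16914848) (l 30769395751)) (c (l 16880576) (l 28084966967))) (b (c (l 25400724391) (l 24863686903)) (c (l 22716290503) (b (l 22179334615) (l 20568723159)))))))) (a (l 3) (a (l 3) (c (b (b (c (l 30769257207) (l 16634240)) (c (l 27011163543) (l 16638168))) (c (b (l 24863578439) (l 16656032)) (b (l 16632776) (l 16638072)))) (b (b (l 16626856) (l 16642520)) (c (l 20031752951) (l 16648584))))))) (c (c (b (a (c (l 17103216) (l 17002056)) (l 17028296)) (a (c (l 17036656) (b (l 16948888) (l 16910600))) (b (l 17015104) (l 16954048)))) (b (a (b (c (l 16918536) (l 16817824)) (c (l 16881992) (a (l 16781072) (l 16776072)))) (b (l 16866688) (l 16804264))) (a (b (a (c (l 16843912)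 (l 16740632)) (l 16746048)) (a (c (l 16782832) (l 16697824)) (l 16702272))) (b (l 16718088) (a (l 16737296) (l 16730072)))))) (a (b (a (c (c (b (l 16720656) (l 16679928)) (l 16629440)) (l 16628552)) (c (b (l 16660416) (l 16616064)) (l 16585360))) (c (b (c (l 16630496) (l 16629176)) (c (l 16638320) (l 16634920))) (b (l 16623584) (l 16629592)))) (c (b (b (l 16643808) (l 16595872)) (c (l 16601184) (l 16597984))) (b (l 16580760) (l 16592984)))))), by decide +kernel⟩

def k8_pm_011 : ∃ t, chk3 f_pm_011 t 6 3 1 = true :=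
  ⟨(l 3), by decide +kernel⟩

def k9_pm_011 : ∃ t, chk3 f_pm_011 t 14 12 1 = true :=
  ⟨(l 3), by decide +kernel⟩

def k10_pm_011 : ∃ t, chk3 f_pm_011 t 30 12 1 = true :=
  ⟨(l 3), by decide +kernel⟩

def k11_pm_011 : ∃ t, chk3 f_pm_011 t 31 24 1 = true :=
  ⟨(a (a (l 3) (a (l 3) (b (b (b (c (c (l 181630229591) (c (l 62981559319) (l 20031757367))) (c (l 17347405207) (l 16636848))) (l 3)) (l 3)) (l 3)))) (c (b (c (a (c (b (l 16981000) (l 34527705191)) (b (a (l 16869616) (l 16869968)) (a (b (l 16838200) (l 16816408)) (l 16825376)))) (b (c (l 16993952) (l 16870000)) (c (l 16949792) (l 16821824)))) (c (a (b (a (b (l 16772152) (l 16750232)) (l 16755184)) (a (b (l 16727632) (l 16704320)) (l 16707208))) (b (l 16745568) (l 16693384))) (a (a (a (b (l 16655504) (l 16644424)) (l 16648792)) (l 16641408)) (l 16616008)))) (a (c (c (b (a (l 29158900759) (l 16899000)) (a (c (l 16880896) (l 25937581719)) (l 16851768))) (b (a (b (l 16731000) (l 28621799511)) (l 16777712)) (a (b (l 27011183079) (l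 25400572135)) (l 16726712)))) (a (c (b (a (l 16661624) (l 16665040)) (l 25400489847)) (b (l 16656560) (l 16662432))) (c (b (l 16655976) (l 16638168)) (l 16653344)))) (b (c (c (l 16902280) (l 16770048)) (l 16629288)) (c (a (c (l 16851360) (l 16718496)) (l 16759384)) (l 16632920))))) (a (b (c (a (b (l 16645552) (l 16656688)) (l 16642160)) (b (l 16635744) (l 16642024))) (c (b (c (l 16656000) (l 16653048)) (c (l 16662112) (l 16659296))) (b (l 16648392) (l 16654832)))) (b (c (c (l 16613256) (l 16610376)) (l 16605840)) (c (c (l 16625872) (l 16623264)) (l 16619120)))))), by decide +kernel⟩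

def k12_pm_011 : ∃ t, chk3 f_pm_011 t 31 25 1 = true :=
  ⟨(a (l 3) (b (c (a (c (b (c (a (b (l 24326912759) (a (l 3) (l 16790952))) (b (l 16814152) (l 16787920))) (a (a (l 17884307895) (l 16667640)) (l 16651088))) (a (a (l 3) (c (b (l 16744112) (l 16717328)) (l 16675352))) (c (b (l 16760720) (l 16732528)) (l 16663072)))) (a (c (b (l 22179278311) (l 18958064263)) (b (l 16668368) (l 16684848))) (b (l 16658808) (l 16665040)))) (b (c (c (a (l 16797608) (l 16793784)) (l 16633160)) (l 16639256)) (c (c (a (l 16739584) (l 16732128)) (l 16648680)) (l 16645672)))) (a (c (b (c (l 16668304) (l 16665608)) (c (l 20031799767) (l 16671968))) (b (l 16661320) (l 16810567447))) (c (b (l 16613640) (l 16641232)) (l 16632648)))) (c (a (c (a (a (l 3) (c (b (b (l 22179356743) (l 20031875319)) (c (l 16684280) (l 16678120))) (b (l 16681264) (l 16687176)))) (c (a (b (l 16669976) (l 16681352)) (b (l 16685368) (l 16662680))) (b (l 16669216) (l 16675440)))) (a (b (c (l 15199979111) (l 16690864)) (c (l 12515635335)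 (l 16696904))) (b (c (l 16656680) (l 16654504)) (c (l 16662992) (l 16660896))))) (c (a (c (b (l 16676848) (l 16650352)) (l 16666056)) (c (l 16651208) (l 16649576))) (b (l 16657400) (l 16663928)))) (a (c (b (c (l 17347457431) (l 16683600)) (c (l 15199986071) (l 14126239495))) (b (c (l 16675752) (l 16673016)) (a (l 16667400) (l 16652576)))) (c (b (l 16647896) (l 16654600)) (b (l 16622176) (l 16629048))))))), by decide +kernel⟩

def k13_pm_011 : ∃ t, chk3 f_pm_011 t 14 13 1 = true :=
  ⟨(l 3), by decide +kernel⟩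

def k14_pm_011 : ∃ t, chk3 f_pm_011 t 30 13 1 = true :=
  ⟨(l 3), by decide +kernel⟩

def k15_pm_011 : ∃ t, chk3 f_pm_011 t 31 26 1 = true :=
  ⟨(a (l 3) (b (c (a (c (b (a (c (c (l 13052523063) (l 12515650423)) (l 10905037271)) (c (c (l 16683840) (l 16682992)) (l 16681664))) (a (l 3) (c (c (l 16689960) (l 16689152)) (l 16687888)))) (a (b (c (l 9294420711) (l 16702912)) (l 3)) (b (c (l 16669304) (l 16667296)) (c (l 16675600) (l 16673672))))) (a (c (c (b (l 16656648) (l 16662952)) (l 16678712)) (c (l 16676992) (l 16675152))) (c (c (l 16663976) (l 16662488)) (l 16660032)))) (b (a (a (c (l 7683798903) (l 16673784)) (c (l 16664048) (l 16659280))) (c (l 16661312) (l 16635920))) (a (a (l 3) (c (l 16691528) (l 16665960))) (c (l 16668008) (l 16642776))))) (c (a (a (l 3) (c (b (c (c (l 16696056) (l 16695288)) (l 16704560)) (c (c (l 15736886951) (l 16701384)) (l 13589401815))) (b (c (l 16702840) (l 16680024)) (c (l 16709072) (l 16686336))))) (c (a (c (b (l 16669264) (l 16675576)) (b (l 16667760)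 (l 16674128))) (c (l 16676736) (l 16675384))) (a (b (l 16665264) (l 16692712)) (c (l 16673912) (l 16672320))))) (a (a (l 3) (c (b (l 16698000) (l 13052518647)) (b (l 16672608) (l 16679208)))) (c (b (l 16674688) (l 16691840)) (b (l 16670584) (l 16677392))))))), by decide +kernel⟩

def k16_pm_011 : ∃ t, chk3 f_pm_011 t 31 27 1 = true :=
  ⟨(a (l 3) (b (c (a (a (l 3) (a (b (c (c (l 8220704407) (l 16699472)) (l 15736876487)) (l 3)) (c (b (c (l 16693736) (l 16692288)) (c (l 16710352) (l 16698480))) (b (l 16710864) (c (l 16696984) (l 16695376)))))) (a (c (b (c (l 16692360) (l 16680488)) (c (l 16709120) (l 16686824))) (b (l 16699160) (l 16705592))) (c (b (l 16686288) (l 16692696)) (c (l 16686816) (l 16685360))))) (a (a (l 3) (c (b (c (l 16711760) (l 16688864)) (c (l 16707560) (l 16716216))) (b (l 16706736) (l 20568721847)))) (a (c (b (l 16674728) (l 16681296)) (b (l 16670816) (l 16677528))) (c (b (l 16659256) (l 16665904)) (l 16679384))))) (c (a (a (l 3) (a (l 3) (c (b (c (l 9831327591)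 (l 16715072)) (a (l 3) (c (l 16721064) (l 16709312)))) (b (c (l 16703160) (l 16701624)) (c (l 14126294855) (l 16718672)))))) (a (c (b (c (l 16715368) (l 16714096)) (c (c (l 16722136) (l 16721544)) (c (l 16720936) (l 16720296)))) (b (c (l 16691744) (l 16690256)) (c (l 16719288) (l 16717856)))) (c (b (l 16699064) (c (l 16706104) (l 16683992))) (b (l 16675512) (l 16703064))))) (a (a (l 3) (a (l 3) (c (b (l 16709600) (c (l 16717088) (l 16704920))) (b (l 16695384) (l 16715296))))) (a (c (b (l 16708800) (c (l 16716328) (l 16693720))) (b (l 16684216) (l 16712040))) (c (b (l 16672512) (l 16679200)) (b (l 16669088) (l 16675912)))))))), by decide +kernel⟩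

def k17_pm_011 : ∃ t, chk3 f_pm_011 t 7 28 1 = true :=
  ⟨(a (l 3) (a (l 3) (b (a (l 3) (c (a (a (l 3) (a (l 3) (b (a (l 3) (b (c (l 16273784711) (l 16712456)) (c (l 16723472) (l 16715600)))) (l 3)))) (b (a (b (c (c (l 16716400) (l 16704720)) (l 16713224)) (c (c (l 16719680) (l 16708008)) (l 16716536))) (c (c (l 16712288) (l 16711192)) (l 16709376))) (a (a (c (c (l 16717880) (l 16716712)) (l 16720024)) (c (l 16719872) (l 16706944))) (c (c (l 16697880) (l 16696816)) (l 16695048))))) (a (b (a (l 3) (c (b (l 16810663847) (l 15200058119)) (b (l 18421274871) (l 21642504039)))) (l 3)) (b (a (a (c (l 16715048) (l 16712304)) (b (l 16704656) (l 16697576))) (c (l 16706616) (l 16682496))) (c (a (c (l 16729720) (l 16707224)) (l 16692384)) (a (l 16715248) (l 16689344))))))) (a (l 3) (a (l 3) (c (a (a (c (c (b (l 16273802023) (l 15200068727)) (b (l 16733248) (l 16273813031))) (b (c (l 16721552) (l 16720256)) (c (l 16732664) (l 16736688)))) (b (c (c (l 16716152) (l 16715064)) (l 16713264)) (c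 (c (l 16722168) (l 16721128)) (l 16729912)))) (c (c (b (l 16725160) (l 16720792)) (b (l 16703168) (l 16730304))) (b (l 16722440) (c (l 16708280) (l 16707144))))) (a (a (c (b (l 16728632) (l 21105648775)) (b (l 16715024) (l 16731768))) (c (b (l 16710568) (l 16716864)) (l 16721272))) (c (b (l 16698912) (l 16726272)) (a (l 16703144) (l 16695488)))))))))), by decide +kernel⟩

def k18_pm_011 : ∃ t, chk3 f_pm_011 t 7 29 1 = true :=
  ⟨(a (l 3) (a (l 3) (a (l 3) (a (l 3) (b (c (a (c (a (b (c (b (l 16739000) (l 3)) (l 14663208535)) (l 3)) (b (c (l 16733224) (l 16727016)) (c (b (l 16732192) (l 16734912)) (l 23790011687)))) (a (b (c (l 16273823095) (l 17347563895)) (l 3)) (b (c (l 16725968) (l 16724840)) (c (l 16736936) (l 16735904))))) (a (b (c (l 16730184) (l 16717680)) (c (a (l 16727384) (l 16723504)) (l 16723584))) (a (c (l 16720696) (l 16714880)) (c (l 16723336) (l 16711008))))) (a (a (b (c (l 20568784375) (l 23790009655)) (l 3)) (c (b (l 16733504) (l 30232459879)) (b (l 16720320) (l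 16736984)))) (a (c (a (l 16730832) (l 16716536)) (l 16726416)) (b (l 16706472) (l 16723192))))) (c (a (a (l 3) (a (b (b (c (l 20568795863) (l 16737176)) (l 3)) (l 3)) (c (b (c (l 16737128) (l 16736336)) (c (l 16742272) (l 16741592))) (b (l 16740264) (l 28621863223))))) (a (c (b (c (l 16731384) (l 16730608)) (c (l 16739320) (l 16736032))) (b (l 16734568) (c (l 16735312) (l 16734528)))) (b (c (l 16728544) (l 16721696)) (c (a (l 16730648) (l 16726824)) (l 16727352))))) (a (a (l 3) (c (b (c (l 16740528) (l 16739480)) (c (l 24326899767) (l 21642546503))) (b (l 35064303895) (c (l 15736965847) (l 18421318999))))) (a (c (b (l 16727408) (l 16738488)) (b (l 16725232) (l 16741816))) (c (b (l 16719840) (l 16725736)) (b (l 16717744) (l 16723896))))))))))), by decide +kernel⟩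

def k19_pm_011 : ∃ t, chk3 f_pm_011 t 7 15 1 = true :=
  ⟨(a (l 3) (a (l 3) (a (l 3) (b (a (l 3) (b (a (a (l 3) (a (l 3) (b (b (c (c (l 16745648) (l 16744384)) (c (l 16742896) (l 16741184))) (l 3)) (l 3)))) (b (b (a (c (c (c (l 16740568) (l 16739992)) (l 16744272)) (c (l 16737552) (l 16735856))) (c (c (l 16732704) (l 16731496)) (l 16735848))) (l 6)) (l 6))) (l 6))) (l 6))))), by decide +kernel⟩

theorem s20_pm_011 : ∃ t, chk3 f_pm_011 t 7 14 1 = true := ex3_b k17_pm_011 k18_pm_011

theorem s21_pm_011 : ∃ t, chk3 f_pm_011 t 7 7 1 = true := ex3_b s20_pm_011 k19_pm_011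

theorem s22_pm_011 : ∃ t, chk3 f_pm_011 t 31 13 1 = true := ex3_b k15_pm_011 k16_pm_011

theorem s23_pm_011 : ∃ t, chk3 f_pm_011 t 15 13 1 = true := ex3_a k14_pm_011 s22_pm_011

theorem s24_pm_011 : ∃ t, chk3 f_pm_011 t 7 13 1 = true := ex3_a k13_pm_011 s23_pm_011

theorem s25_pm_011 : ∃ t, chk3 f_pm_011 t 31 12 1 = true := ex3_b k11_pm_011 k12_pm_011

theorem s26_pm_011 : ∃ t, chk3 f_pm_011 t 15 12 1 = true := ex3_a k10_pm_011 s25_pm_011

theorem s27_pm_011 : ∃ t, chk3 f_pm_011 t 7 12 1 = true := ex3_a k9_pm_011 s26_pm_011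

theorem s28_pm_011 : ∃ t, chk3 f_pm_011 t 7 6 1 = true := ex3_b s27_pm_011 s24_pm_011

theorem s29_pm_011 : ∃ t, chk3 f_pm_011 t 7 3 1 = true := ex3_b s28_pm_011 s21_pm_011

theorem s30_pm_011 : ∃ t, chk3 f_pm_011 t 3 3 1 = true := ex3_a k8_pm_011 s29_pm_011

theorem s31_pm_011 : ∃ t, chk3 f_pm_011 t 31 11 1 = true := ex3_b k6_pm_011 k7_pm_011

theorem s32_pm_011 : ∃ t, chk3 f_pm_011 t 15 11 1 = true := ex3_a k5_pm_011 s31_pm_011

theorem s33_pm_011 : ∃ t, chk3 f_pm_011 t 7 11 1 = true := ex3_a k4_pm_011 s32_pm_011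

theorem s34_pm_011 : ∃ t, chk3 f_pm_011 t 7 5 1 = true := ex3_b k3_pm_011 s33_pm_011

theorem s35_pm_011 : ∃ t, chk3 f_pm_011 t 3 5 1 = true := ex3_a k2_pm_011 s34_pm_011

theorem s36_pm_011 : ∃ t, chk3 f_pm_011 t 3 2 1 = true := ex3_b k1_pm_011 s35_pm_011

theorem s37_pm_011 : ∃ t, chk3 f_pm_011 t 3 1 1 = true := ex3_b s36_pm_011 s30_pm_011

theorem s38_pm_011 : ∃ t, chk3 f_pm_011 t 1 1 1 = true := ex3_a k0_pm_011 s37_pm_011

theorem c_pm_011 : CertN 0 536870912 536870912 536870912 201326592 134217728 3 true true false .pnn 0 1 1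
    ndN0q0 ndN3q1 pcN1 cut_pm_011 Ext.none :=
  certN2 (fam := true) (s1 := true) (s2 := false) (a := 0) (b := 1) (c := 1) (cn := .pnn) (n1 := ndN0q0) (n2 := ndN3q1) (pc := pcN1) (cut := cut_pm_011) (xt := Ext.none) (P1 := 0) (W1 := 536870912) (P2 := 536870912) (W2 := 536870912) (P3 := 201326592) (W3 := 134217728) (N0 := 3)
    rfl (fun _ => rfl) s38_pm_011

noncomputable def cut_pm_012 : Cut := Cut.of [[⟨0, 0, 0, 67108864⟩, ⟨1, 1, 0, 67108864⟩, ⟨2, 1, 0, 67108864⟩]]

noncomputable def f_pm_012 : ℕ → ℕ → ℕ → ℕ → Bool := onCell 1073741824 536870912 536870912 536870912 201326592 134217728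
    (rowN 3 2 true true false .pnp 0 1 2 (qsf 0 536870912 536870912 536870912 2) ndN0q0 ndN3q1 pcN2 cut_pm_012 Ext.none)

def k0_pm_012 : ∃ t, chk3 f_pm_012 t 4 4 1 = true :=
  ⟨(a (b (c (a (b (l 17496160) (c (l 17576408) (l 17408840))) (l 17613920)) (a (b (a (c (l 17275424) (l 17127472)) (l 17235384)) (a (c (l 17228552) (l 17078288)) (l 17187384))) (b (l 17292160) (l 17245680)))) (b (c (a (c (l 17528080) (l 17360696)) (l 17547976)) (a (a (c (l 17178064) (l 17022464)) (l 17133968)) (l 17193000))) (a (c (b (l 17406888) (a (l 17355736) (l 17407352))) (b (a (l 17054520) (l 17088128)) (a (c (l 17104360) (l 16934752)) (l 17053712)))) (c (l 17500472) (b (l 17148248) (l 17114680)))))) (a (b (c (l 17709448) (l 17351336)) (c (b (l 17650872) (l 17608672)) (b (l 17281184) (l 17224720)))) (b (l 2) (a (c (l 17708728) (b (l 17349856) (l 17298904))) (c (l 17756560) (b (l 2) (l 17347640))))))), by decide +kernel⟩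

def k1_pm_012 : ∃ t, chk3 f_pm_012 t 8 10 1 = true :=
  ⟨(b (b (c (a (a (l 17326120) (l 17379576)) (l 17462792)) (a (a (c (l 17064720) (a (l 16880104) (l 16894592))) (l 16991256)) (l 16992008))) (c (a (a (l 17289032) (l 17346728)) (l 17435296)) (a (a (c (l 17013400) (a (l 16818016) (l 16834744))) (l 16856264)) (a (l 17006176) (l 17055424))))) (a (c (a (c (l 17320880) (b (l 17149768) (l 17095232))) (c (l 17389024) (l 17182688))) (a (b (c (l 16934096) (a (l 16749040) (l 16766640))) (a (c (l 16877928) (l 16672296)) (c (l 16901728) (l 16690624)))) (b (l 16775480) (c (l 16941512) (l 16723704))))) (c (c (l 17492336) (l 17276824)) (b (a (l 16951912) (l 17005464)) (a (l 16888232) (l 16947920)))))), by decide +kernel⟩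

def k2_pm_012 : ∃ t, chk3 f_pm_012 t 8 11 1 = true :=
  ⟨(a (c (b (a (c (b (l 17248272) (l 17190728)) (b (a (l 17018168) (l 17048880)) (a (l 16884168) (l 16979240)))) (c (l 17297312) (b (l 17098152) (l 17031464)))) (a (c (b (a (l 17104480) (l 17144896)) (a (c (l 17090176) (l 16963840)) (l 17069440))) (b (a (b (l 16887408) (l 16844136)) (l 16899600)) (a (b (l 16797792) (l 16748088)) (l 16808024)))) (b (c (l 17208320) (l 16954864)) (c (l 17136744) (l 16866448))))) (a (b (b (c (a (l 16698872) (l 16828576)) (a (l 16607552) (l 16605448))) (c (a (b (l 16742016) (l 16697560)) (l 16745840)) (l 16545136))) (b (c (a (b (l 16650192) (l 16599640)) (l 16651744)) (l 16557112)) (c (a (l 16571520) (l 16544032)) (l 16569896)))) (b (b (c (l 16870736) (l 16640392)) (c (l 16790384) (l 16546360))) (b (c (l 16698696) (l 16467688)) (c (l 16593408) (l 16481784)))))) (c (b (c (l 17415832) (a (l 17137816) (l 17212440))) (c (a (l 17264096) (l 17355464)) (a (b (l 17034544) (l 16951928)) (l 17081408)))) (b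 (b (a (l 16815176) (l 16880448)) (a (l 16732240) (l 16802784))) (b (a (l 16637592) (l 16714024)) (a (l 16528928) (l 16612024)))))), by decide +kernel⟩

def k3_pm_012 : ∃ t, chk3 f_pm_012 t 9 5 1 = true :=
  ⟨(a (b (c (b (l 17566336) (l 17517040)) (b (b (l 17174768) (l 17135576)) (b (l 17091184) (l 17040568)))) (c (b (c (l 17571080) (l 17324728)) (c (l 17490136) (l 17213584))) (b (b (l 16982568) (l 16915144)) (b (l 16836672) (l 16746064))))) (b (a (c (b (l 17652760) (l 17614376)) (b (l 17237664) (l 17159912))) (c (b (l 17707224) (l 17676088)) (b (l 17292048) (l 17221952)))) (a (c (b (l 17558816) (l 17480992)) (b (l 17058336) (l 16923352))) (c (b (l 17628832) (l 17561856)) (b (l 17129752) (a (l 16987496) (l 17029464))))))), by decide +kernel⟩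

def k4_pm_012 : ∃ t, chk3 f_pm_012 t 5 2 1 = true :=
  ⟨(a (b (a (b (l 2) (a (c (l 17802744) (b (l 2) (l 17396232))) (l 2))) (l 2)) (a (c (b (a (l 17769568) (a (l 17787464) (l 17812312))) (a (b (l 17696656) (l 17639544)) (a (l 17722504) (b (l 17775008) (l 17729632))))) (b (a (b (l 17346376) (l 17283800)) (a (b (l 17385424) (l 17328616)) (b (l 17410896) (l 17357904)))) (a (b (l 17200624) (l 17090800)) (a (b (l 17252144) (l 17150880)) (b (l 17285832) (a (l 17180200) (l 17199536))))))) (b (c (l 17864864) (b (l 17468264) (l 17425048))) (c (b (l 17842432) (l 17808744)) (b (l 17364408) (l 17282496)))))) (b (l 2) (b (a (c (l 17943024) (b (l 2) (l 17526552))) (l 2)) (a (c (l 17935320) (b (l 17482344) (l 17420584))) (c (l 18021176) (l 17564968)))))), by decide +kernel⟩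

def k5_pm_012 : ∃ t, chk3 f_pm_012 t 8 12 1 = true :=
  ⟨(a (b (a (c (c (a (b (b (l 16940240) (l 16808072)) (a (b (l 16808104) (l 16751544)) (l 16739144))) (b (l 16981680) (l 16753128))) (b (a (b (l 16694680) (l 16637200)) (l 16702096)) (a (c (l 16594120) (l 16600200)) (l 16578656)))) (b (c (a (l 16583952) (l 16529600)) (l 16583208)) (c (a (l 16596840) (l 16542960)) (l 16596840)))) (c (b (c (l 17053080) (l 16742808)) (c (a (l 16928736) (l 16981216)) (l 16654240))) (b (l 16529536) (l 16543936)))) (a (a (c (b (c (c (b (l 16819536) (l 16755976)) (l 16621624)) (c (l 16614856) (l 16613032))) (c (c (a (l 16637544) (l 16661584)) (l 16639704)) (b (l 16623968) (l 16630536)))) (b (c (l 16610008) (l 16605440)) (c (l 16623336) (l 16619136)))) (b (c (c (b (l 16790264) (l 16724392)) (l 16580704)) (l 16575688)) (c (c (l 16603176) (l 16594040)) (l 16610528)))) (c (c (b (a (l 16810512) (l 16866816)) (a (l 16669440) (l 16730128))) (a (b (l 16547112) (l 16560864)) (l 16550256))) (b (l 16558416) (a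 (l 16557512) (l 16525128)))))) (b (c (a (b (c (l 17153488) (l 16855720)) (c (l 17062968) (l 16742976))) (b (l 17042368) (l 16802920))) (a (c (l 16489424) (l 16477368)) (b (l 16494120) (l 16408120)))) (c (b (a (c (l 16955512) (l 16609936)) (c (l 17077464) (l 16727512))) (a (c (l 16826960) (c (l 16545768) (l 16497344))) (c (l 16961320) (l 16581944)))) (a (c (l 16519704) (l 16508392)) (b (l 16424800) (l 16441736)))))), by decide +kernel⟩

def k6_pm_012 : ∃ t, chk3 f_pm_012 t 8 13 1 = true :=
  ⟨(b (a (a (a (b (b (c (c (l 16645152) (l 16637112)) (l 16652768)) (c (c (l 16651616) (l 16643696)) (l 16649072))) (c (b (c (l 16652816) (l 16650256)) (c (l 16664472) (l 16656784))) (c (l 16670960) (l 16667376)))) (c (b (c (l 16609448) (l 16607488)) (c (l 16622616) (l 16620864))) (b (l 16624400) (l 16638144)))) (b (c (a (c (l 16575912) (l 16574688)) (c (l 16565120) (l 16541560))) (a (l 16571736) (l 16539712))) (c (a (c (l 16589448) (l 16588416)) (b (l 16552936) (l 16559960))) (b (l 16587912) (l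 16595000))))) (c (a (b (c (l 16671752) (l 16512144)) (c (l 16526024) (l 16526832))) (b (c (l 16821184) (l 16446672)) (c (l 16650456) (l 16464024)))) (a (b (l 16512000) (l 16526928)) (b (l 16458952) (l 16476440))))) (a (a (a (a (c (b (c (c (l 16676680) (l 16675608)) (c (l 16674408) (l 16673072))) (c (b (l 16686280) (l 16692656)) (c (l 16697936) (l 16686216)))) (b (c (l 16670816) (l 16667360)) (b (l 16679568) (a (l 16690000) (l 16661424))))) (c (b (c (l 16659968) (l 16657896)) (c (l 16683512) (l 16671112))) (b (l 16674760) (c (l 16668704) (l 16665816))))) (c (c (b (l 16646064) (l 16659328)) (b (l 16634008) (l 16668384))) (b (l 16651632) (b (l 16641272) (l 16648016))))) (b (b (c (a (l 16604984) (l 16566920)) (l 16602032)) (c (a (l 16616920) (l 16573784)) (l 16608960))) (c (c (c (l 16631568) (l 16620976)) (l 16631064)) (a (c (l 16614296) (l 16612520)) (l 16603304))))) (c (a (b (c (l 16550752) (l 16541160)) (b (l 16554688) (l 16561752))) (b (c (l 16508632) (l 16481632)) (c (l 16525904)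 (l 16499128)))) (a (b (l 16562424) (l 16566528)) (b (l 16494248) (l 16512032)))))), by decide +kernel⟩

def k7_pm_012 : ∃ t, chk3 f_pm_012 t 9 6 1 = true :=
  ⟨(a (b (c (b (c (l 17375624) (b (l 17103824) (l 17014632))) (b (c (l 17259392) (l 16909448)) (c (l 17162600) (l 16784640)))) (b (b (l 16641360) (l 16561688)) (b (a (l 16379520) (l 16439504)) (b (l 16398880) (l 16406088))))) (b (c (a (b (l 16661208) (a (l 16552480) (l 16638152))) (b (l 16873472) (l 16722832))) (b (l 16438368) (l 16456232))) (c (b (c (a (l 16635032) (l 16824920)) (l 16461232)) (c (a (l 16477944) (l 16625304)) (l 16487184))) (b (a (l 16442728) (l 16412736)) (a (l 16480176) (l 16427960)))))) (b (a (b (c (l 17371296) (l 16740656)) (c (c (l 17395416) (l 17037440)) (b (l 16562912) (l 16418640)))) (c (b (l 17467224) (c (l 17508752) (l 17156528))) (b (a (l 16818480) (l 16869456)) (a (l 16589544) (l 16652416))))) (a (b (c (b (l 17059544) (l 16906712)) (b (l 16335736) (l 16348640))) (c (b (l 16725832) (l 16582712)) (b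 (l 16362280) (l 16376216)))) (b (c (c (l 17345720) (a (l 16900088) (l 16972968))) (a (l 16344944) (l 16354312))) (c (b (a (l 16900576) (l 16985456)) (a (l 16725456) (l 16823008))) (b (l 16377080) (l 16389520))))))), by decide +kernel⟩

def k8_pm_012 : ∃ t, chk3 f_pm_012 t 8 28 1 = true :=
  ⟨(a (b (a (b (c (a (c (c (l 16690856) (l 16689992)) (l 16696344)) (c (l 16658280) (l 16656952))) (a (c (l 16686080) (l 16683224)) (l 16654104))) (a (c (c (a (l 16704576) (l 16667144)) (l 16694528)) (c (l 16692240) (l 16689536))) (c (c (l 16663776) (l 16641576)) (l 16659912)))) (c (c (a (l 16638456) (l 16616416)) (a (l 16648336) (l 16595464))) (a (l 16646600) (l 16615624)))) (a (a (a (c (c (c (l 16714344) (l 16713488)) (c (l 16712544) (l 16711496))) (c (l 16709752) (l 16686120))) (c (c (l 16697488) (l 16674944)) (l 16692840))) (c (c (l 16672720) (l 16671632)) (l 16679768))) (c (a (a (l 16647656) (l 16631376)) (l 16612392)) (c (l 16643864) (l 16642952))))) (b (a (c (b (l 16566464) (l 16569216))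 (l 16579112)) (c (c (l 16545112) (l 16539456)) (l 16552504))) (a (c (c (l 16584752) (l 16570536)) (l 16586392)) (c (a (l 16548824) (l 16533264)) (l 16551424))))), by decide +kernel⟩

def k9_pm_012 : ∃ t, chk3 f_pm_012 t 8 29 1 = true :=
  ⟨(a (a (a (a (c (b (c (b (l 16722808) (c (l 16728872) (l 16707184))) (b (l 16700112) (l 16726936))) (c (a (b (l 16717104) (l 16722424)) (l 16722272)) (a (b (l 16715608) (l 16721136)) (l 16731504)))) (b (c (b (l 16698048) (l 16704072)) (b (l 16695640) (l 16701856))) (c (b (l 16709960) (l 16726224)) (b (l 16707976) (l 16714000))))) (b (c (c (l 16709456) (l 16708104)) (c (l 16685456) (l 16683448))) (c (c (c (l 16720928) (l 16720472)) (l 16719656)) (c (l 16718344) (l 16716752))))) (b (c (c (l 16695400) (l 16684024)) (c (l 16682808) (l 16681272))) (c (a (c (l 16704544) (l 16703776)) (c (l 16688288) (l 16687808))) (a (l 16702128) (l 16686592))))) (c (a (b (c (l 16651864) (l 16651600)) (c (l 16668992) (l 16663704))) (b (c (l 16619184) (l 16618872)) (c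 (l 16639928) (l 16637488)))) (a (b (l 16650600) (c (l 16663400) (l 16662832))) (b (l 16618808) (l 16634144))))) (a (c (b (c (a (l 16603800) (l 16588272)) (l 16602600)) (c (a (l 16624264) (l 16608920)) (a (l 16620928) (l 16604672)))) (b (l 16592080) (a (l 16616208) (l 16598560)))) (c (b (a (l 16569952) (l 16553840)) (c (l 16595824) (l 16579776))) (b (a (l 16560184) (l 16521360)) (a (l 16580792) (l 16541848)))))), by decide +kernel⟩

def k10_pm_012 : ∃ t, chk3 f_pm_012 t 16 15 1 = true :=
  ⟨(a (b (a (b (b (c (a (a (c (l 16738056) (l 16726528)) (c (l 16719632) (l 16718704))) (c (l 16718160) (l 16717424))) (a (c (a (l 16725248) (l 16717552)) (l 16732400)) (c (l 16705976) (l 16704776)))) (a (l 6) (a (l 6) (a (l 6) (c (l 16717248) (l 16705528)))))) (l 6)) (a (b (c (c (b (l 16712616) (l 16707464)) (l 16712336)) (b (l 16710992) (l 16706424))) (l 6)) (b (c (b (l 16691168) (l 16696688)) (l 16698552)) (a (l 6) (b (c (l 16694240) (l 16683568)) (l 6)))))) (l 6)) (b (b (a (c (c (l 16679376)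 (l 16676368)) (b (l 16672208) (l 16679520))) (c (c (b (l 16655864) (l 16666496)) (a (l 16663040) (l 16654248))) (b (l 16649880) (l 16660352)))) (c (a (b (c (l 16682880) (l 16681232)) (a (l 6) (c (l 16698440) (l 16696712)))) (b (c (l 16675848) (l 16673424)) (c (l 16679792) (l 16682752)))) (a (b (l 16684184) (c (l 16689432) (l 16688016))) (b (l 16669944) (c (l 16680512) (l 16678304)))))) (b (a (l 6) (a (l 6) (a (l 6) (b (c (l 16675936) (l 16660520)) (l 6))))) (l 6)))), by decide +kernel⟩

def k11_pm_012 : ∃ t, chk3 f_pm_012 t 17 15 1 = true :=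
  ⟨(b (c (b (a (a (c (a (l 16648760) (l 16640680)) (l 16641312)) (c (l 16628656) (l 16624376))) (c (b (l 16600416) (l 16609792)) (a (l 16586736) (l 16570288)))) (a (c (b (a (l 16637856) (l 16621248)) (a (l 16667632) (l 16629672))) (b (a (l 16634608) (l 16617128)) (a (l 16643576) (l 16625736)))) (c (b (l 16617832) (a (l 16612976) (l 16596584))) (b (l 16612392) (l 16620472))))) (b (b (a (a (l 16631424) (l 16592312)) (l 16586528)) (a (c (l 16634120) (l 16630464)) (l 16616824))) (b (a (a (l 16650816) (l 16611040)) (a (l 16592504) (l 16574232))) (a (a (l 16659952) (l 16619856)) (a (l 16601000) (l 16582400)))))) (b (c (a (b (a (c (l 16676632) (l 16652696)) (c (l 16638288) (l 16634512))) (a (a (l 6) (b (l 16656552) (l 6))) (c (l 16668064) (l 16643432)))) (b (c (a (l 16621224) (l 16604456)) (a (l 16616608) (l 16598992))) (c (a (l 16629656) (l 16612528)) (a (l 16625184) (l 16607232))))) (b (a (a (c (l 16649728) (l 16646736)) (l 16628792)) (a (l 16609608) (l 16590696))) (a (a (c (l 16680024)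 (l 16656080)) (c (l 16639712) (l 16635928))) (a (l 16618336) (l 16599112))))) (a (a (l 6) (a (l 6) (b (b (c (l 16657976) (l 16639720)) (l 6)) (l 6)))) (c (b (c (a (l 16648760) (l 16620776)) (a (l 16633920) (l 16615616))) (a (a (l 6) (c (l 16642592) (l 16638112))) (c (b (l 16627104) (l 16631368)) (l 16624160)))) (b (a (c (l 16629448) (l 16624864)) (l 16628608)) (a (c (l 16648848) (l 16633784)) (c (l 16618944) (l 16613552)))))))), by decide +kernel⟩

def k12_pm_012 : ∃ t, chk3 f_pm_012 t 9 14 1 = true :=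
  ⟨(a (b (b (c (c (a (l 16495864) (l 16468192)) (a (l 16488296) (l 16437728))) (c (l 16506968) (l 16499040))) (c (c (a (l 16493224) (l 16464352)) (l 16512192)) (a (l 16496216) (l 16441624)))) (c (a (b (c (l 16512928) (l 16505600)) (c (l 16553952) (l 16525616))) (b (c (l 16482856) (l 16473672)) (c (l 16501832) (l 16492656)))) (a (b (l 16515912) (l 16535768)) (b (l 16460240) (l 16500096))))) (b (a (b (c (c (l 16620512) (l 16408608)) (l 16413040)) (c (l 16472232) (l 16408504))) (c (b (a (l 16509928) (l 16623736)) (a (l 16408944) (l 16394936))) (b (l 16425000) (l 16419224)))) (a (c (c (b (l 16453280) (l 16471128)) (l 16492880)) (b (l 16426048) (l 16443912))) (c (c (a (l 16440048) (l 16425672)) (a (l 16427624) (l 16412304))) (b (l 16435560) (l 16473288)))))), by decide +kernel⟩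

def k13_pm_012 : ∃ t, chk3 f_pm_012 t 9 15 1 = true :=
  ⟨(a (b (c (b (a (c (l 16589520) (l 16566344)) (c (l 16542032) (l 16511832))) (a (c (b (l 16565616) (l 16572832)) (b (l 16558320) (l 16565768))) (c (l 16579552) (l 16549576)))) (b (a (c (l 16558968) (l 16551664)) (l 16540040)) (a (a (l 16581160) (l 16542344)) (c (l 16519600) (l 16510592))))) (b (b (c (c (a (l 16580184) (l 16548688)) (a (l 16573328) (l 16539976))) (a (c (l 16566424) (l 16559456)) (l 16526792))) (c (c (a (a (l 16595904) (l 16579624)) (l 16555584)) (a (l 16581048) (l 16547088))) (a (c (l 16574304) (l 16567464)) (l 16555112)))) (c (b (c (a (a (l 16603800) (l 16587152)) (l 16562608)) (a (l 16599424) (l 16554312))) (c (a (a (l 16611872) (l 16594864)) (a (l 16578120) (l 16561600))) (a (a (l 16605960) (l 16588080)) (l 16572168)))) (b (a (c (l 16582320) (l 16575568)) (c (l 16545872) (l 16537288))) (a (c (a (l 16599888) (l 16581120)) (l 16594256)) (c (l 16553384) (l 16544912))))))) (b (a (c (b (c (l 16489360) (l 16478360))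 (c (l 16526328) (l 16494616))) (b (l 16482952) (c (l 16483864) (l 16473112)))) (c (b (c (l 16501496) (l 16467592)) (c (a (l 16481552) (l 16465864)) (l 16503816))) (b (a (l 16435392) (l 16417896)) (a (l 16451248) (l 16433296))))) (a (c (b (c (b (l 16516656) (l 16523864)) (l 16530680)) (c (b (l 16530720) (a (l 16545288) (l 16529448))) (b (l 16520608) (l 16527392)))) (b (c (l 16499240) (l 16488680)) (b (c (l 16510352) (l 16499936)) (c (l 16517288) (l 16506984))))) (a (c (b (c (l 16495992) (l 16484256)) (c (l 16531232) (l 16498840))) (b (l 16466480) (c (l 16487264) (l 16475520)))) (c (b (c (l 16479856) (l 16467224)) (c (l 16515088) (l 16481808))) (b (l 16448120) (c (l 16469336) (l 16456696)))))))), by decide +kernel⟩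

def k14_pm_012 : ∃ t, chk3 f_pm_012 t 5 6 1 = true :=
  ⟨(a (b (a (a (c (b (l 17558552) (c (l 17615528) (l 17269872))) (b (a (l 16919488) (l 16968200)) (a (l 16714024) (l 16774184)))) (c (b (a (l 17622848) (l 17664048)) (a (l 17520680) (c (l 17737736) (l 17401520)))) (a (b (l 17015848) (l 16832864)) (b (a (l 17050840) (l 17073824)) (a (l 16875856) (a (l 16897008) (l 16910976))))))) (c (b (l 17757872) (l 17683360)) (b (a (l 17129744) (l 17216120)) (a (l 16972528) (l 17077144))))) (a (a (b (c (c (l 17477104) (l 17077944)) (b (l 16548056) (l 16387704))) (c (b (c (l 17331144) (l 16881488)) (c (l 17206736) (l 16716392))) (b (l 16328968) (l 16339896)))) (c (b (a (l 17373912) (a (l 17419728) (l 17407592))) (a (b (l 17221528) (l 17093024)) (a (b (l 17276208) (l 17155280)) (b (l 17311712) (l 17069808))))) (b (a (l 16582792) (a (l 16636912) (a (l 16663512) (l 16681072)))) (a (l 16337912) (a (l 16305152) (a (l 16339624) (l 16341400))))))) (c (b (a (l 17521040) (l 17628376)) (a (c (l 17565880)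 (l 17128344)) (l 17378136))) (b (a (l 16758368) (l 16888544)) (a (b (l 16545816) (l 16371200)) (b (l 16701976) (l 16549360))))))) (b (c (a (b (l 17893488) (l 17845256)) (l 17996976)) (a (b (l 17336296) (l 17222416)) (b (l 17478976) (l 17393992)))) (a (c (b (l 17772096) (c (l 17861552) (l 17463016))) (b (a (l 17009784) (l 17122704)) (b (l 16914768) (l 16727960)))) (c (b (l 17935568) (l 17864976)) (b (l 17277616) (b (l 17161232) (l 17067656))))))), by decide +kernel⟩

def k15_pm_012 : ∃ t, chk3 f_pm_012 t 10 14 1 = true :=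
  ⟨(a (b (a (b (c (c (l 17053936) (l 16515592)) (l 16373992)) (c (c (l 16864296) (l 16368344)) (l 16366984))) (a (c (b (l 16936640) (l 16744488)) (b (l 16311568) (l 16324408))) (b (c (a (l 17008336) (c (l 17308352) (l 16799608))) (a (l 16302128) (l 16316888))) (c (a (l 16828088) (c (l 17160400) (l 16602000))) (a (l 16314344) (l 16307704)))))) (a (c (c (a (l 16411808) (l 16559584)) (a (l 16397424) (l 16383760))) (b (l 16382192) (l 16418816))) (a (c (c (l 16701784) (l 16370392)) (l 16345720)) (c (a (c (l 16802960) (l 16360856)) (c (a (l 16851864) (l 16883880)) (l 16375528))) (a (l 16334848) (a (l 16329544) (l 16326152))))))) (b (c (b (a (l 17124056) (l 17330256)) (a (l 16990208) (l 17200600))) (b (l 16369728) (l 16347608))) (c (a (c (l 16875336) (l 16393760)) (c (l 17245440) (l 16650200))) (a (l 16332656) (l 16286192))))), by decide +kernel⟩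

def k16_pm_012 : ∃ t, chk3 f_pm_012 t 10 15 1 = true :=
  ⟨(a (a (b (c (b (c (l 16450928) (l 16415048)) (c (l 16464792) (l 16450232))) (b (l 16434816) (a (l 16415648) (l 16398768)))) (a (c (b (c (l 16464104) (l 16450528)) (c (l 16477976) (l 16464744))) (b (l 16430032) (l 16465576))) (c (b (c (l 16449272) (l 16434656)) (c (l 16462592) (l 16448360))) (b (l 16412632) (l 16426728))))) (c (a (b (c (l 16436760) (l 16399440)) (b (c (l 16434760) (l 16419072)) (c (l 16447504) (l 16432224)))) (b (a (c (l 16406096) (l 16388872)) (c (a (l 16401408) (l 16398424)) (a (l 16383728) (l 16380432)))) (a (c (b (l 16424280) (l 16436552)) (l 16434880)) (c (b (l 16438344) (a (l 16431208) (l 16427776))) (b (l 16421248) (l 16454624)))))) (b (a (b (l 16368416) (l 16382168)) (a (l 16363224) (b (l 16370056) (l 16404000)))) (a (b (l 16395472) (l 16409080)) (a (b (l 16382928) (l 16396128)) (b (l 16448016) (a (l 16389760) (l 16385608)))))))) (a (b (c (c (a (l 16413744) (l 16564408)) (l 16387280)) (b (l 16331736)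 (l 16343776))) (c (b (c (l 16402096) (l 16383440)) (c (l 16413056) (l 16394920))) (b (l 16355488) (l 16409520)))) (b (c (c (b (l 16946960) (l 16678744)) (l 16341664)) (l 16371848)) (c (c (b (l 16377752) (l 16387280)) (b (l 16356568) (l 16366688))) (b (l 16324928) (l 16335768)))))), by decide +kernel⟩

def k17_pm_012 : ∃ t, chk3 f_pm_012 t 11 7 1 = true :=
  ⟨(b (b (c (a (b (l 17463568) (c (l 17690056) (l 17207392))) (b (l 17788560) (l 17723664))) (a (b (a (l 16556400) (l 16728344)) (l 16471296)) (b (l 16958712) (l 16830152)))) (c (a (a (c (l 17443296) (l 16878856)) (c (l 17618536) (l 17082776))) (c (l 17844384) (l 17348264))) (a (a (l 16263648) (l 16265128)) (a (l 16487712) (l 16688104))))) (b (a (c (c (a (b (l 17200416) (l 16982984)) (l 17339184)) (a (l 16409872) (l 16692888))) (a (l 16303872) (l 16259784))) (c (c (a (l 17549600) (l 17733440)) (a (l 16941312) (l 17159928))) (b (l 16278224) (l 16234584)))) (a (c (c (b (a (l 16705352) (l 17022704)) (a (l 16364136) (l 16737120)))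 (a (l 16378160) (l 16313960))) (a (b (l 16296704) (l 16306136)) (b (l 16271040) (l 16278944)))) (c (c (a (b (l 17295200) (l 17066840)) (l 17297608)) (b (l 16483824) (l 16351704))) (a (l 16292992) (l 16230840)))))), by decide +kernel⟩

def k18_pm_012 : ∃ t, chk3 f_pm_012 t 3 1 1 = true :=
  ⟨(b (a (b (l 2) (a (b (l 2) (a (c (l 18086464) (l 17656944)) (l 2))) (l 2))) (l 2)) (a (b (a (b (c (a (l 18094128) (l 18165112)) (a (b (l 17599216) (l 17540032)) (l 17682232))) (c (a (b (l 18067200) (l 18028720)) (l 18168520)) (a (b (l 17456208) (l 17338880)) (b (l 17604496) (l 17523400))))) (b (a (c (l 18212208) (l 17766736)) (l 2)) (a (c (l 18249432) (b (l 17722280) (l 17673168))) (c (l 18300608) (l 17806056))))) (b (a (b (c (a (l 17966112) (l 18128840)) (a (b (l 17220816) (l 17125976)) (b (l 17440384) (l 17372448)))) (c (a (l 17863080) (l 18071352)) (a (a (l 16868576) (l 17031192)) (l 17247088)))) (b (c (a (l 18250768) (l 18333760)) (a (l 17600424) (l 17751448))) (c (a (l 18231528) (l 18346344))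 (a (l 17490464) (l 17685784))))) (a (a (c (b (c (l 17966752) (l 17440360)) (c (a (l 17665440) (l 17856328)) (a (l 16954064) (l 17248616)))) (b (a (l 16525312) (l 16740720)) (a (l 16214536) (b (l 16440272) (l 16203000))))) (c (b (l 17977656) (c (l 18095464) (l 17521544))) (b (a (l 16933320) (l 17105776)) (a (l 16390400) (l 16683416))))) (c (a (b (l 18187168) (l 18099168)) (b (l 18343816) (l 18309192))) (a (b (a (l 17260712) (l 17400880)) (a (l 17013712) (l 17195536))) (b (l 17586528) (a (l 17357616) (l 17503536)))))))) (b (a (b (l 2) (a (c (l 18346440) (l 17886120)) (l 2))) (l 2)) (b (a (b (a (l 18130928) (l 18199824)) (a (c (l 18427160) (l 17830704)) (l 18214304))) (b (l 2) (l 18302528))) (a (a (c (l 18458736) (b (l 17774392) (l 17678104))) (c (l 18547464) (l 17885616))) (c (l 18633600) (l 18042688))))))), by decide +kernel⟩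

theorem s19_pm_012 : ∃ t, chk3 f_pm_012 t 10 7 1 = true := ex3_b k15_pm_012 k16_pm_012

theorem s20_pm_012 : ∃ t, chk3 f_pm_012 t 5 7 1 = true := ex3_a s19_pm_012 k17_pm_012

theorem s21_pm_012 : ∃ t, chk3 f_pm_012 t 5 3 1 = true := ex3_b k14_pm_012 s20_pm_012

theorem s22_pm_012 : ∃ t, chk3 f_pm_012 t 9 7 1 = true := ex3_b k12_pm_012 k13_pm_012

theorem s23_pm_012 : ∃ t, chk3 f_pm_012 t 8 15 1 = true := ex3_a k10_pm_012 k11_pm_012

theorem s24_pm_012 : ∃ t, chk3 f_pm_012 t 8 14 1 = true := ex3_b k8_pm_012 k9_pm_012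

theorem s25_pm_012 : ∃ t, chk3 f_pm_012 t 8 7 1 = true := ex3_b s24_pm_012 s23_pm_012

theorem s26_pm_012 : ∃ t, chk3 f_pm_012 t 4 7 1 = true := ex3_a s25_pm_012 s22_pm_012

theorem s27_pm_012 : ∃ t, chk3 f_pm_012 t 8 6 1 = true := ex3_b k5_pm_012 k6_pm_012

theorem s28_pm_012 : ∃ t, chk3 f_pm_012 t 4 6 1 = true := ex3_a s27_pm_012 k7_pm_012

theorem s29_pm_012 : ∃ t, chk3 f_pm_012 t 4 3 1 = true := ex3_b s28_pm_012 s26_pm_012

theorem s30_pm_012 : ∃ t, chk3 f_pm_012 t 2 3 1 = true := ex3_a s29_pm_012 s21_pm_012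

theorem s31_pm_012 : ∃ t, chk3 f_pm_012 t 8 5 1 = true := ex3_b k1_pm_012 k2_pm_012

theorem s32_pm_012 : ∃ t, chk3 f_pm_012 t 4 5 1 = true := ex3_a s31_pm_012 k3_pm_012

theorem s33_pm_012 : ∃ t, chk3 f_pm_012 t 4 2 1 = true := ex3_b k0_pm_012 s32_pm_012

theorem s34_pm_012 : ∃ t, chk3 f_pm_012 t 2 2 1 = true := ex3_a s33_pm_012 k4_pm_012

theorem s35_pm_012 : ∃ t, chk3 f_pm_012 t 2 1 1 = true := ex3_b s34_pm_012 s30_pm_012

theorem s36_pm_012 : ∃ t, chk3 f_pm_012 t 1 1 1 = true := ex3_a s35_pm_012 k18_pm_012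

theorem c_pm_012 : CertN 0 536870912 536870912 536870912 201326592 134217728 3 true true false .pnp 0 1 2
    ndN0q0 ndN3q1 pcN2 cut_pm_012 Ext.none :=
  certN2 (fam := true) (s1 := true) (s2 := false) (a := 0) (b := 1) (c := 2) (cn := .pnp) (n1 := ndN0q0) (n2 := ndN3q1) (pc := pcN2) (cut := cut_pm_012) (xt := Ext.none) (P1 := 0) (W1 := 536870912) (P2 := 536870912) (W2 := 536870912) (P3 := 201326592) (W3 := 134217728) (N0 := 3)
    rfl (fun _ => rfl) s36_pm_012

end Pool.Agent.Strip051.G.I3_16_5_16.Tab.C.NA03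

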